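import Pool.Agent.M3.FP

/-!
# GMH.TT: averages of functions supported on rare letters (helper78; note 3933 (B), 3606 (3))

`A` = the hidden point, `l ≥ 0` a function (of the letters).  If every level set `{s ≤ l}` satisfies
`P(P(s ≤ l | A) > e) ≤ e P(s ≤ l)` then `E (E[l | A])^2 ≤ 8 e E l^2`: multiplicative, no additive term.
-/

set_option autoImplicit false
set_option linter.unusedSectionVars false

namespace Pool.Agent.GMH

open Finset Pool.Agent.PWZ Pool.Agent.M3

/-- layers of a finite set of positive numbers -/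
theorem layers (T : Finset ℝ) (hT : ∀ s ∈ T, 0 < s) : ∃ Δ : ℝ → ℝ, (∀ s, 0 ≤ Δ s) ∧
    (∀ v ∈ T, ∑ s ∈ T.filter (fun s => s ≤ v), Δ s = v) ∧
    ∀ v, 0 ≤ v → ∑ s ∈ T.filter (fun s => s ≤ v), Δ s ≤ v := by
  classical
  induction T using Finset.induction_on_max with
  | empty => exact ⟨fun _ => 0, fun _ => le_refl _, fun v hv => absurd hv (Finset.notMem_empty v), fun v hv => by simpa using hv⟩
  | insert a T' hlt ih =>
    obtain ⟨Δ, h0, h1, h2⟩ := ih (fun s hs => hT s (Finset.mem_insert_of_mem hs))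
    have ha : 0 < a := hT a (Finset.mem_insert_self a T')
    have haT : a ∉ T' := fun h => lt_irrefl a (hlt a h)
    have hall : T'.filter (fun s => s ≤ a) = T' := Finset.filter_true_of_mem fun s hs => (hlt s hs).le
    have hsum : ∑ s ∈ T', Δ s ≤ a := by
      have := h2 a ha.le
      rwa [hall] at this
    set Γ : ℝ → ℝ := fun s => if s = a then a - ∑ s ∈ T', Δ s else Δ s with hΓ
    have eqT : ∀ S : Finset ℝ, S ⊆ T' → ∑ s ∈ S, Γ s = ∑ s ∈ S, Δ s := by
      intro S hS
      refine Finset.sum_congr rfl fun s hs => ?_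
      have : s ≠ a := fun h => haT (h ▸ hS hs)
      simp only [hΓ, if_neg this]
    have hlow : ∀ v, v < a → (insert a T').filter (fun s => s ≤ v) = T'.filter (fun s => s ≤ v) := by
      intro v hv
      rw [Finset.filter_insert, if_neg (not_le.2 hv)]
    have hhigh : ∀ v, a ≤ v → (insert a T').filter (fun s => s ≤ v) = insert a T' := by
      intro v hv
      refine Finset.filter_true_of_mem fun s hs => ?_
      rcases Finset.mem_insert.1 hs with h | h
      · rw [h]; exact hv
      · exact (hlt s h).le.trans hv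
    have htop : ∑ s ∈ insert a T', Γ s = a := by
      rw [Finset.sum_insert haT, eqT T' (Finset.Subset.refl _)]
      simp only [hΓ, if_pos rfl]
      ring
    refine ⟨Γ, ?_, ?_, ?_⟩
    · intro s
      simp only [hΓ]
      split_ifs
      · linarith
      · exact h0 s
    · intro v hv
      rcases Finset.mem_insert.1 hv with h | h
      · rw [h, hhigh a le_rfl, htop]
      · rw [hlow v (hlt v h), eqT _ (Finset.filter_subset _ _)]
        exact h1 v h
    · intro v hv
      rcases lt_or_ge v a with h | h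
      · rw [hlow v h, eqT _ (Finset.filter_subset _ _)]
        exact h2 v hv
      · rw [hhigh v h, htop]; exact h

variable {Om : Type*} [Fintype Om] (P : FP Om) {α : Type*}

/-- **AVERAGES OF FUNCTIONS WHOSE LEVEL SETS ARE SPREAD** -/
theorem spread_sq {A : Om → α} {l : Om → ℝ} (hl : ∀ w, 0 ≤ l w) {e : ℝ} (he : 0 < e)
    (hs : ∀ s, 0 < s → P.Pr (fun w => e < P.ce A (fun v => ind (s ≤ l v)) w) ≤ e * P.Pr (fun w => s ≤ l w)) :
    P.E (fun w => P.ce A l w ^ 2) ≤ 8 * e * P.E (fun w => l w ^ 2) := by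
  classical
  set T : Finset ℝ := (univ.image l).filter (fun s => 0 < s) with hT
  obtain ⟨Δ, h0, h1, h2⟩ := layers T (fun s hs => (Finset.mem_filter.1 hs).2)
  set ρ : ℝ → Om → ℝ := fun s => P.ce A (fun v => ind (s ≤ l v)) with hρ
  set q : ℝ → ℝ := fun s => P.Pr (fun w => s ≤ l w) with hq
  have hTpos : ∀ s ∈ T, 0 < s := fun s hs => (Finset.mem_filter.1 hs).2
  have hfl : ∀ v : ℝ, ∑ s ∈ T, Δ s * ind (s ≤ v) = ∑ s ∈ T.filter (fun s => s ≤ v), Δ s := by
    intro v
    have e0 := Finset.sum_filter (s := T) (fun s => s ≤ v) Δ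
    rw [e0]
    refine Finset.sum_congr rfl fun s _ => ?_
    by_cases h : s ≤ v
    · rw [ind_of h, if_pos h, mul_one]
    · rw [ind_not h, if_neg h, mul_zero]
  have hlay : ∀ w, l w = ∑ s ∈ T, Δ s * ind (s ≤ l w) := by
    intro w
    rw [hfl]
    rcases (hl w).eq_or_lt with h | h
    · rw [← h]
      symm
      refine Finset.sum_eq_zero fun s hs => ?_
      have := (Finset.mem_filter.1 hs)
      exact absurd this.2 (not_le.2 (hTpos s this.1))
    · exact (h1 (l w) (Finset.mem_filter.2 ⟨Finset.mem_image_of_mem l (Finset.mem_univ w), h⟩)).symm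
  have hce : ∀ w, P.ce A l w = ∑ s ∈ T, Δ s * ρ s w := by
    intro w
    have e1 : P.ce A l w = P.ce A (fun v => ∑ s ∈ T, Δ s * ind (s ≤ l v)) w := by
      congr 1
      funext v
      exact hlay v
    rw [e1, P.ce_sum]
    exact Finset.sum_congr rfl fun s _ => P.ce_smul A (Δ s) (fun v => ind (s ≤ l v)) w
  have hρ0 : ∀ s w, 0 ≤ ρ s w := fun s w => P.ce_nonneg (fun _ _ => ind_nonneg _) w
  have hρ1 : ∀ s w, P.p w ≠ 0 → ρ s w ≤ 1 := fun s w hw => P.ce_le_const (fun _ _ => ind_le_one _) hw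
  have hq0 : ∀ s, 0 ≤ q s := fun s => P.Pr_nonneg _
  have hEρ : ∀ s, P.E (ρ s) = q s := fun s => P.E_ce A _
  -- the second moment
  have hmom : ∑ t ∈ T, Δ t * (t * q t) ≤ P.E (fun w => l w ^ 2) := by
    have e1 : ∑ t ∈ T, Δ t * (t * q t) = P.E (fun w => ∑ t ∈ T, Δ t * (t * ind (t ≤ l w))) := by
      rw [P.E_sum]
      refine Finset.sum_congr rfl fun t _ => ?_
      rw [P.E_smul, P.E_smul]
      rfl
    rw [e1]
    refine P.E_mono fun w _ => ?_
    calc ∑ t ∈ T, Δ t * (t * ind (t ≤ l w)) ≤ ∑ t ∈ T, l w * (Δ t * ind (t ≤ l w)) := by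
          refine Finset.sum_le_sum fun t _ => ?_
          by_cases h : t ≤ l w
          · rw [ind_of h, mul_one, mul_one, mul_comm]
            exact mul_le_mul_of_nonneg_right h (h0 t)
          · rw [ind_not h]; simp
      _ = l w ^ 2 := by rw [← Finset.mul_sum, ← hlay w]; ring
  -- two levels
  set m : ℝ → ℝ → ℝ := fun s t => P.E (fun w => ρ s w * ρ t w) with hm
  set Bd : ℝ → ℝ → ℝ := fun s t => ind (s ≤ t) * (2 * e * q t) + ind (t ≤ s / e) * (e ^ 2 * q s) +
    ind (s ≤ e * t) * q t with hBd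
  have hB0 : ∀ s t, 0 ≤ Bd s t := fun s t => by
    have := ind_nonneg (s ≤ t)
    have := ind_nonneg (t ≤ s / e)
    have := ind_nonneg (s ≤ e * t)
    have := hq0 s
    have := hq0 t
    simp only [hBd]
    positivity
  have hst : ∀ s ∈ T, ∀ t ∈ T, s ≤ t → m s t ≤ Bd s t := by
    intro s hsT t htT hle
    have b1 : m s t ≤ e * q t + e * q t + P.E (fun w => ρ t w * (ind (e < ρ s w) * ind (ρ t w ≤ e))) := by
      have c1 : m s t ≤ P.E (fun w => e * ρ t w + ind (e < ρ t w) + ρ t w * (ind (e < ρ s w) * ind (ρ t w ≤ e))) := by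
        refine P.E_mono fun w hw => ?_
        have r1 := hρ0 s w
        have r2 := hρ0 t w
        have r3 := hρ1 s w hw
        have r4 := hρ1 t w hw
        have i1 := ind_nonneg (e < ρ t w)
        have i2 := ind_nonneg (e < ρ s w)
        have i3 := ind_nonneg (ρ t w ≤ e)
        rcases le_or_gt (ρ s w) e with h | h
        · have : ρ s w * ρ t w ≤ e * ρ t w := mul_le_mul_of_nonneg_right h r2
          have : 0 ≤ ρ t w * (ind (e < ρ s w) * ind (ρ t w ≤ e)) := by positivity
          linarith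
        · rcases le_or_gt (ρ t w) e with h' | h'
          · rw [ind_of h, ind_of h', ind_not (not_lt.2 h')]
            have : ρ s w * ρ t w ≤ 1 * ρ t w := mul_le_mul_of_nonneg_right r3 r2
            have : 0 ≤ e * ρ t w := by positivity
            linarith
          · rw [ind_of h', ind_not (not_le.2 h')]
            have : ρ s w * ρ t w ≤ 1 * 1 := mul_le_mul r3 r4 r2 zero_le_one
            have : 0 ≤ e * ρ t w := by positivity
            linarith
      refine c1.trans ?_
      rw [P.E_add, P.E_add, P.E_smul, hEρ]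
      have := hs t (hTpos t htT)
      have e1 : P.E (fun w => ind (e < ρ t w)) = P.Pr (fun w => e < P.ce A (fun v => ind (t ≤ l v)) w) := rfl
      rw [e1]
      linarith
    have b2 : P.E (fun w => ρ t w * (ind (e < ρ s w) * ind (ρ t w ≤ e))) ≤ q t := by
      rw [← hEρ t]
      refine P.E_mono fun w _ => ?_
      have r2 := hρ0 t w
      have i2 := ind_nonneg (e < ρ s w)
      have i2' := ind_le_one (e < ρ s w)
      have i3 := ind_nonneg (ρ t w ≤ e)
      have i3' := ind_le_one (ρ t w ≤ e)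
      have : ind (e < ρ s w) * ind (ρ t w ≤ e) ≤ 1 * 1 := mul_le_mul i2' i3' i3 zero_le_one
      nlinarith
    have b3 : P.E (fun w => ρ t w * (ind (e < ρ s w) * ind (ρ t w ≤ e))) ≤ e ^ 2 * q s := by
      have c1 : P.E (fun w => ρ t w * (ind (e < ρ s w) * ind (ρ t w ≤ e))) ≤ P.E (fun w => e * ind (e < ρ s w)) := by
        refine P.E_mono fun w _ => ?_
        have r2 := hρ0 t w
        have i2 := ind_nonneg (e < ρ s w)
        rcases le_or_gt (ρ t w) e with h' | h'
        · rw [ind_of h', mul_one]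
          exact mul_le_mul_of_nonneg_right h' i2
        · rw [ind_not (not_le.2 h')]
          have : 0 ≤ e * ind (e < ρ s w) := by positivity
          linarith
      refine c1.trans ?_
      rw [P.E_smul]
      have := hs s (hTpos s hsT)
      have e1 : P.E (fun w => ind (e < ρ s w)) = P.Pr (fun w => e < P.ce A (fun v => ind (s ≤ l v)) w) := rfl
      rw [e1]
      nlinarith
    simp only [hBd]
    rw [ind_of hle, one_mul]
    have hcase : t ≤ s / e ∨ s ≤ e * t := by
      rcases le_or_gt t (s / e) with h | h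
      · exact Or.inl h
      · right
        rw [div_lt_iff₀ he] at h
        linarith [mul_comm t e]
    have n1 : 0 ≤ ind (t ≤ s / e) * (e ^ 2 * q s) := mul_nonneg (ind_nonneg _) (mul_nonneg (sq_nonneg _) (hq0 s))
    have n2 : 0 ≤ ind (s ≤ e * t) * q t := mul_nonneg (ind_nonneg _) (hq0 t)
    rcases hcase with h | h
    · rw [ind_of h, one_mul]
      linarith
    · rw [ind_of h, one_mul]
      linarith
  have hms : ∀ s t, m s t = m t s := fun s t => by
    simp only [hm]
    congr 1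
    funext w
    ring
  have hany : ∀ s ∈ T, ∀ t ∈ T, m s t ≤ Bd s t + Bd t s := by
    intro s hsT t htT
    rcases le_total s t with h | h
    · have := hst s hsT t htT h
      have := hB0 t s
      linarith
    · have := hst t htT s hsT h
      rw [hms s t]
      have := hB0 s t
      linarith
  have hE : P.E (fun w => P.ce A l w ^ 2) = ∑ s ∈ T, ∑ t ∈ T, Δ s * Δ t * m s t := by
    have e1 : ∀ w, P.ce A l w ^ 2 = ∑ s ∈ T, ∑ t ∈ T, Δ s * Δ t * (ρ s w * ρ t w) := by
      intro w
      rw [hce w, sq, Finset.sum_mul_sum]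
      refine Finset.sum_congr rfl fun s _ => Finset.sum_congr rfl fun t _ => ?_
      ring
    rw [P.E_congr (fun w _ => e1 w), P.E_sum]
    refine Finset.sum_congr rfl fun s _ => ?_
    rw [P.E_sum]
    exact Finset.sum_congr rfl fun t _ => P.E_smul _ _
  have hsum : ∑ s ∈ T, ∑ t ∈ T, Δ s * Δ t * m s t ≤ 2 * ∑ s ∈ T, ∑ t ∈ T, Δ s * Δ t * Bd s t := by
    have c1 : ∑ s ∈ T, ∑ t ∈ T, Δ s * Δ t * m s t ≤ ∑ s ∈ T, ∑ t ∈ T, (Δ s * Δ t * Bd s t + Δ t * Δ s * Bd t s) := by
      refine Finset.sum_le_sum fun s hsT => Finset.sum_le_sum fun t htT => ?_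
      have := mul_le_mul_of_nonneg_left (hany s hsT t htT) (mul_nonneg (h0 s) (h0 t))
      linarith
    refine c1.trans (le_of_eq ?_)
    simp only [Finset.sum_add_distrib]
    rw [Finset.sum_comm (f := fun s t => Δ t * Δ s * Bd t s)]
    ring
  -- the sum of the bounds
  have s1 : ∑ s ∈ T, ∑ t ∈ T, Δ s * Δ t * (ind (s ≤ t) * (2 * e * q t)) ≤ 2 * e * ∑ t ∈ T, Δ t * (t * q t) := by
    rw [Finset.sum_comm, Finset.mul_sum]
    refine Finset.sum_le_sum fun t htT => ?_
    have e1 : ∑ s ∈ T, Δ s * Δ t * (ind (s ≤ t) * (2 * e * q t)) = (2 * e * (Δ t * q t)) * ∑ s ∈ T, Δ s * ind (s ≤ t) := by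
      rw [Finset.mul_sum]
      exact Finset.sum_congr rfl fun s _ => by ring
    rw [e1, hfl, h1 t htT]
    exact le_of_eq (by ring)
  have s2 : ∑ s ∈ T, ∑ t ∈ T, Δ s * Δ t * (ind (t ≤ s / e) * (e ^ 2 * q s)) ≤ e * ∑ t ∈ T, Δ t * (t * q t) := by
    rw [Finset.mul_sum]
    refine Finset.sum_le_sum fun s hsT => ?_
    have e1 : ∑ t ∈ T, Δ s * Δ t * (ind (t ≤ s / e) * (e ^ 2 * q s)) =
        (e ^ 2 * (Δ s * q s)) * ∑ t ∈ T, Δ t * ind (t ≤ s / e) := by
      rw [Finset.mul_sum]
      exact Finset.sum_congr rfl fun t _ => by ring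
    rw [e1, hfl]
    have c1 := h2 (s / e) (div_nonneg (hTpos s hsT).le he.le)
    have c2 : 0 ≤ e ^ 2 * (Δ s * q s) := mul_nonneg (sq_nonneg _) (mul_nonneg (h0 s) (hq0 s))
    refine (mul_le_mul_of_nonneg_left c1 c2).trans (le_of_eq ?_)
    field_simp
  have s3 : ∑ s ∈ T, ∑ t ∈ T, Δ s * Δ t * (ind (s ≤ e * t) * q t) ≤ e * ∑ t ∈ T, Δ t * (t * q t) := by
    rw [Finset.sum_comm, Finset.mul_sum]
    refine Finset.sum_le_sum fun t htT => ?_
    have e1 : ∑ s ∈ T, Δ s * Δ t * (ind (s ≤ e * t) * q t) = (Δ t * q t) * ∑ s ∈ T, Δ s * ind (s ≤ e * t) := by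
      rw [Finset.mul_sum]
      exact Finset.sum_congr rfl fun s _ => by ring
    rw [e1, hfl]
    have c1 := h2 (e * t) (mul_nonneg he.le (hTpos t htT).le)
    have c2 : 0 ≤ Δ t * q t := mul_nonneg (h0 t) (hq0 t)
    refine (mul_le_mul_of_nonneg_left c1 c2).trans (le_of_eq ?_)
    ring
  have hBsum : ∑ s ∈ T, ∑ t ∈ T, Δ s * Δ t * Bd s t ≤ 4 * e * ∑ t ∈ T, Δ t * (t * q t) := by
    have e1 : ∑ s ∈ T, ∑ t ∈ T, Δ s * Δ t * Bd s t = ∑ s ∈ T, ∑ t ∈ T, Δ s * Δ t * (ind (s ≤ t) * (2 * e * q t)) +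
        ∑ s ∈ T, ∑ t ∈ T, Δ s * Δ t * (ind (t ≤ s / e) * (e ^ 2 * q s)) +
        ∑ s ∈ T, ∑ t ∈ T, Δ s * Δ t * (ind (s ≤ e * t) * q t) := by
      simp only [← Finset.sum_add_distrib]
      refine Finset.sum_congr rfl fun s _ => Finset.sum_congr rfl fun t _ => ?_
      simp only [hBd]
      ring
    rw [e1]
    linarith
  rw [hE]
  have hM := mul_le_mul_of_nonneg_left hmom (by positivity : 0 ≤ 4 * e)
  linarith

end Pool.Agent.GMH
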