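import Pool.Agent.M3.S3Key
import Pool.Agent.GMH.TT

/-!
# GMH.AC: absolute covariance of two letters which are close to independent only on average (helper78; note 3933 (B))

`X`, `Y` letters (with their owners), independent given the hidden point `A`; `J`, `U`, `V` their laws.
* `row_side`: rows `x` with `∑_y |J - UV| ≤ τ U x` : `∑ |J - UV| l k ≤ √(2τ) |l| |k|` (one good side is enough);
* `bad_bad`: rare bad letters on both sides, by `spread_sq`;
* **`abs_cov`**: `∑_(x,y) |J - UV| l k ≤ (2 √(2τ) + 9 e) |l| |k|` for ALL `l, k ≥ 0`;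
* `pair_set`: the same for a set `H` of pairs: `E 1_H l k ≤ (2 √τ + 8 e) |l| |k|`.
-/

set_option autoImplicit false
set_option linter.unusedSectionVars false

namespace Pool.Agent.GMH

open Finset Pool.Agent.PWZ Pool.Agent.M3

noncomputable section

section arr

variable {κ ι : Type*} {SX : Finset κ} {SY : Finset ι} {a : κ → ι → ℝ} {U : κ → ℝ} {V : ι → ℝ}

/-- Cauchy-Schwarz with a weight, rows and columns -/
theorem cs_weight (ha : ∀ x ∈ SX, ∀ y ∈ SY, 0 ≤ a x y) {τ c : ℝ} (hτ : 0 ≤ τ) (hc : 0 ≤ c)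
    (hx : ∀ x ∈ SX, ∑ y ∈ SY, a x y ≤ τ * U x) (hy : ∀ y ∈ SY, ∑ x ∈ SX, a x y ≤ c * V y)
    (l : κ → ℝ) (k : ι → ℝ) :
    ∑ x ∈ SX, ∑ y ∈ SY, a x y * (|l x| * |k y|) ≤
      Real.sqrt (τ * c) * (Real.sqrt (∑ x ∈ SX, U x * l x ^ 2) * Real.sqrt (∑ y ∈ SY, V y * k y ^ 2)) := by
  set A := ∑ x ∈ SX, U x * l x ^ 2 with hA
  set B := ∑ y ∈ SY, V y * k y ^ 2 with hB
  have e0 : ∑ x ∈ SX, ∑ y ∈ SY, a x y * (|l x| * |k y|) =
      ∑ q ∈ SX ×ˢ SY, (Real.sqrt (a q.1 q.2) * |l q.1|) * (Real.sqrt (a q.1 q.2) * |k q.2|) := by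
    rw [Finset.sum_product]
    refine Finset.sum_congr rfl fun x hxx => Finset.sum_congr rfl fun y hyy => ?_
    have := Real.mul_self_sqrt (ha x hxx y hyy)
    show a x y * (|l x| * |k y|) = (Real.sqrt (a x y) * |l x|) * (Real.sqrt (a x y) * |k y|)
    calc a x y * (|l x| * |k y|) = (Real.sqrt (a x y) * Real.sqrt (a x y)) * (|l x| * |k y|) := by rw [this]
      _ = _ := by ring
  rw [e0]
  have c1 := Real.sum_mul_le_sqrt_mul_sqrt (SX ×ˢ SY) (fun q => Real.sqrt (a q.1 q.2) * |l q.1|)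
    (fun q => Real.sqrt (a q.1 q.2) * |k q.2|)
  have h1 : ∑ q ∈ SX ×ˢ SY, (Real.sqrt (a q.1 q.2) * |l q.1|) ^ 2 ≤ τ * A := by
    rw [Finset.sum_product, hA, Finset.mul_sum]
    refine Finset.sum_le_sum fun x hxx => ?_
    have e1 : ∑ y ∈ SY, (Real.sqrt (a x y) * |l x|) ^ 2 = (∑ y ∈ SY, a x y) * l x ^ 2 := by
      rw [Finset.sum_mul]
      refine Finset.sum_congr rfl fun y hyy => ?_
      rw [mul_pow, Real.sq_sqrt (ha x hxx y hyy), sq_abs]
    show ∑ y ∈ SY, (Real.sqrt (a x y) * |l x|) ^ 2 ≤ _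
    rw [e1]
    calc _ ≤ (τ * U x) * l x ^ 2 := mul_le_mul_of_nonneg_right (hx x hxx) (sq_nonneg _)
      _ = _ := by ring
  have h2 : ∑ q ∈ SX ×ˢ SY, (Real.sqrt (a q.1 q.2) * |k q.2|) ^ 2 ≤ c * B := by
    rw [Finset.sum_product_right, hB, Finset.mul_sum]
    refine Finset.sum_le_sum fun y hyy => ?_
    have e1 : ∑ x ∈ SX, (Real.sqrt (a x y) * |k y|) ^ 2 = (∑ x ∈ SX, a x y) * k y ^ 2 := by
      rw [Finset.sum_mul]
      refine Finset.sum_congr rfl fun x hxx => ?_
      rw [mul_pow, Real.sq_sqrt (ha x hxx y hyy), sq_abs]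
    show ∑ x ∈ SX, (Real.sqrt (a x y) * |k y|) ^ 2 ≤ _
    rw [e1]
    calc _ ≤ (c * V y) * k y ^ 2 := mul_le_mul_of_nonneg_right (hy y hyy) (sq_nonneg _)
      _ = _ := by ring
  refine c1.trans ?_
  calc Real.sqrt (∑ q ∈ SX ×ˢ SY, (Real.sqrt (a q.1 q.2) * |l q.1|) ^ 2) *
      Real.sqrt (∑ q ∈ SX ×ˢ SY, (Real.sqrt (a q.1 q.2) * |k q.2|) ^ 2) ≤
      Real.sqrt (τ * A) * Real.sqrt (c * B) :=
        mul_le_mul (Real.sqrt_le_sqrt h1) (Real.sqrt_le_sqrt h2) (Real.sqrt_nonneg _) (Real.sqrt_nonneg _)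
    _ = _ := by
        rw [Real.sqrt_mul hτ, Real.sqrt_mul hc, Real.sqrt_mul hτ]
        ring

/-- rows with small total variation: one good side is enough -/
theorem row_side {J : κ → ι → ℝ} (hJ : ∀ x ∈ SX, ∀ y ∈ SY, 0 ≤ J x y) (hU : ∀ x ∈ SX, 0 ≤ U x)
    (hV : ∀ y ∈ SY, 0 ≤ V y) (hU1 : ∑ x ∈ SX, U x ≤ 1) (hJV : ∀ y ∈ SY, ∑ x ∈ SX, J x y ≤ V y) {τ : ℝ} (hτ : 0 ≤ τ)
    (hx : ∀ x ∈ SX, ∑ y ∈ SY, |J x y - U x * V y| ≤ τ * U x) (l : κ → ℝ) (k : ι → ℝ) :
    ∑ x ∈ SX, ∑ y ∈ SY, |J x y - U x * V y| * (|l x| * |k y|) ≤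
      Real.sqrt (τ * 2) * (Real.sqrt (∑ x ∈ SX, U x * l x ^ 2) * Real.sqrt (∑ y ∈ SY, V y * k y ^ 2)) := by
  refine cs_weight (a := fun x y => |J x y - U x * V y|) (fun x _ y _ => abs_nonneg _) hτ zero_le_two hx
    (fun y hyy => ?_) l k
  calc ∑ x ∈ SX, |J x y - U x * V y| ≤ ∑ x ∈ SX, (J x y + U x * V y) := by
        refine Finset.sum_le_sum fun x hxx => ?_
        have h1 := hJ x hxx y hyy
        have h2 := mul_nonneg (hU x hxx) (hV y hyy)
        rw [abs_le]
        constructor <;> linarith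
    _ = ∑ x ∈ SX, J x y + (∑ x ∈ SX, U x) * V y := by rw [Finset.sum_add_distrib, Finset.sum_mul]
    _ ≤ V y + 1 * V y := add_le_add (hJV y hyy) (mul_le_mul_of_nonneg_right hU1 (hV y hyy))
    _ = 2 * V y := by ring

end arr

/-! ## on a probability space -/

variable {Om : Type*} [Fintype Om] (P : FP Om) {α κ ι : Type*}

/-- law of a letter -/
def lw (X : Om → κ) (x : κ) : ℝ := P.E fun w => ind (X w = x)

/-- joint law of two letters -/
def lw2 (X : Om → κ) (Y : Om → ι) (x : κ) (y : ι) : ℝ := P.E fun w => ind (X w = x) * ind (Y w = y)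

theorem lw_nonneg (X : Om → κ) (x : κ) : 0 ≤ lw P X x := P.E_nonneg fun _ _ => ind_nonneg _

theorem lw2_nonneg (X : Om → κ) (Y : Om → ι) (x : κ) (y : ι) : 0 ≤ lw2 P X Y x y :=
  P.E_nonneg fun _ _ => mul_nonneg (ind_nonneg _) (ind_nonneg _)

theorem sum_lw (X : Om → κ) (f : κ → ℝ) : ∑ x ∈ vals X, lw P X x * f x = P.E fun w => f (X w) := by
  have e1 : ∀ x ∈ vals X, lw P X x * f x = P.E fun w => ind (X w = x) * f x := fun x _ =>
    (P.E_mul_const _ _).symm
  rw [Finset.sum_congr rfl e1, ← P.E_sum]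
  exact P.E_congr fun w _ => FP.sum_vals X f w

theorem sum_lw_on (X : Om → κ) (f : κ → ℝ) (G : κ → Prop) [DecidablePred G] :
    ∑ x ∈ (vals X).filter G, lw P X x * f x = P.E fun w => ind (G (X w)) * f (X w) := by
  rw [Finset.sum_filter, ← sum_lw P X (fun x => ind (G x) * f x)]
  refine Finset.sum_congr rfl fun x _ => ?_
  by_cases h : G x
  · rw [if_pos h, ind_of h, one_mul]
  · rw [if_neg h, ind_not h, zero_mul, mul_zero]

theorem sum_lw2 (X : Om → κ) (Y : Om → ι) (F : κ → ι → ℝ) :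
    ∑ x ∈ vals X, ∑ y ∈ vals Y, lw2 P X Y x y * F x y = P.E fun w => F (X w) (Y w) := by
  have e1 : ∀ x ∈ vals X, ∑ y ∈ vals Y, lw2 P X Y x y * F x y = P.E fun w => ind (X w = x) * F x (Y w) := by
    intro x _
    have e2 : ∀ y ∈ vals Y, lw2 P X Y x y * F x y = P.E fun w => ind (X w = x) * (ind (Y w = y) * F x y) := by
      intro y _
      unfold lw2
      rw [← P.E_mul_const]
      congr 1
      funext w
      ring
    rw [Finset.sum_congr rfl e2, ← P.E_sum]
    refine P.E_congr fun w _ => ?_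
    rw [← Finset.mul_sum, FP.sum_vals Y (fun y => F x y) w]
  rw [Finset.sum_congr rfl e1, ← P.E_sum]
  exact P.E_congr fun w _ => FP.sum_vals X (fun x => F x (Y w)) w

theorem sum_lw2_row (X : Om → κ) (Y : Om → ι) (x : κ) : ∑ y ∈ vals Y, lw2 P X Y x y = lw P X x := by
  unfold lw2 lw
  rw [← P.E_sum]
  refine P.E_congr fun w _ => ?_
  rw [← Finset.mul_sum]
  have := FP.sum_vals Y (fun _ => (1 : ℝ)) w
  simp only [mul_one] at this
  rw [this, mul_one]

theorem sum_lw2_col (X : Om → κ) (Y : Om → ι) (y : ι) : ∑ x ∈ vals X, lw2 P X Y x y = lw P Y y := by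
  unfold lw2 lw
  rw [← P.E_sum]
  refine P.E_congr fun w _ => ?_
  rw [← Finset.sum_mul]
  have := FP.sum_vals X (fun _ => (1 : ℝ)) w
  simp only [mul_one] at this
  rw [this, one_mul]

theorem sum_lw_one (X : Om → κ) : ∑ x ∈ vals X, lw P X x = 1 := by
  have := sum_lw P X (fun _ => (1 : ℝ))
  simp only [mul_one] at this
  rw [this, P.E_const]

/-- the letters are independent given the hidden point -/
def CI (A : Om → α) (X : Om → κ) (Y : Om → ι) : Prop :=
  ∀ (f : κ → ℝ) (g : ι → ℝ) (w : Om), P.p w ≠ 0 →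
    P.ce A (fun v => f (X v) * g (Y v)) w = P.ce A (fun v => f (X v)) w * P.ce A (fun v => g (Y v)) w

/-- letters in the bad set are spread over the hidden points: every subset -/
def Spread (A : Om → α) (X : Om → κ) (Bd : κ → Prop) (e : ℝ) : Prop :=
  ∀ E : κ → Prop, (∀ x, E x → Bd x) →
    P.Pr (fun w => e < P.ce A (fun v => ind (E (X v))) w) ≤ e * P.Pr (fun w => E (X w))

theorem spread_ce {A : Om → α} {X : Om → κ} {Bd : κ → Prop} {e : ℝ} (he : 0 < e) (h : Spread P A X Bd e) {l : κ → ℝ}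
    (hl : ∀ x, 0 ≤ l x) :
    P.E (fun w => P.ce A (fun v => ind (Bd (X v)) * l (X v)) w ^ 2) ≤ 8 * e * P.E (fun w => l (X w) ^ 2) := by
  have h1 := spread_sq P (A := A) (l := fun v => ind (Bd (X v)) * l (X v))
    (fun w => mul_nonneg (ind_nonneg _) (hl _)) he (fun s hs => by
      refine h (fun x => s ≤ ind (Bd x) * l x) (fun x hx => ?_)
      by_contra hb
      rw [ind_not hb, zero_mul] at hx
      linarith)
  refine h1.trans (mul_le_mul_of_nonneg_left ?_ (by positivity))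
  refine P.E_mono fun w _ => ?_
  by_cases hb : Bd (X w)
  · rw [ind_of hb, one_mul]
  · rw [ind_not hb, zero_mul]
    have := sq_nonneg (l (X w))
    simpa using this

/-- bad letters on both sides, joint law -/
theorem bad_bad {A : Om → α} {X : Om → κ} {Y : Om → ι} (ci : CI P A X Y) {Bx : κ → Prop} {By : ι → Prop} {e : ℝ}
    (he : 0 < e) (hX : Spread P A X Bx e) (hY : Spread P A Y By e) {l : κ → ℝ} {k : ι → ℝ} (hl : ∀ x, 0 ≤ l x)
    (hk : ∀ y, 0 ≤ k y) :
    P.E (fun w => (ind (Bx (X w)) * l (X w)) * (ind (By (Y w)) * k (Y w))) ≤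
      8 * e * (Real.sqrt (P.E fun w => l (X w) ^ 2) * Real.sqrt (P.E fun w => k (Y w) ^ 2)) := by
  rw [← P.E_ce A]
  rw [P.E_congr fun w hw => ci (fun x => ind (Bx x) * l x) (fun y => ind (By y) * k y) w hw]
  have h1 := P.E_mul_sq_le (P.ce A fun v => ind (Bx (X v)) * l (X v)) (P.ce A fun v => ind (By (Y v)) * k (Y v))
  have h2 := spread_ce P he hX hl
  have h3 := spread_ce P he hY hk
  set a := P.E fun w => l (X w) ^ 2 with ha
  set b := P.E fun w => k (Y w) ^ 2 with hb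
  have ha0 : 0 ≤ a := P.E_nonneg fun _ _ => sq_nonneg _
  have hb0 : 0 ≤ b := P.E_nonneg fun _ _ => sq_nonneg _
  have h4 : (P.E fun w => P.ce A (fun v => ind (Bx (X v)) * l (X v)) w * P.ce A (fun v => ind (By (Y v)) * k (Y v)) w) ^ 2
      ≤ (8 * e * (Real.sqrt a * Real.sqrt b)) ^ 2 := by
    refine h1.trans ?_
    have e1 : (8 * e * (Real.sqrt a * Real.sqrt b)) ^ 2 = (8 * e * a) * (8 * e * b) := by
      rw [mul_pow, mul_pow, mul_pow, Real.sq_sqrt ha0, Real.sq_sqrt hb0]; ring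
    rw [e1]
    exact mul_le_mul h2 h3 (P.E_nonneg fun _ _ => sq_nonneg _) (by positivity)
  exact le_of_sq_le_sq' h4 (by positivity)
where
  le_of_sq_le_sq' {x y : ℝ} (h : x ^ 2 ≤ y ^ 2) (hy : 0 ≤ y) : x ≤ y := by
    exact (abs_le_of_sq_le_sq' h hy).2

/-- total variation of the row `x` -/
def rowd (X : Om → κ) (Y : Om → ι) (x : κ) : ℝ := ∑ y ∈ vals Y, |lw2 P X Y x y - lw P X x * lw P Y y|

/-- total variation of the column `y` -/
def cold (X : Om → κ) (Y : Om → ι) (y : ι) : ℝ := ∑ x ∈ vals X, |lw2 P X Y x y - lw P X x * lw P Y y|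

theorem Ef_sqrt_mono {X : Om → κ} {B : κ → Prop} (l : κ → ℝ) :
    Real.sqrt (P.E fun w => (ind (B (X w)) * l (X w)) ^ 2) ≤ Real.sqrt (P.E fun w => l (X w) ^ 2) := by
  refine Real.sqrt_le_sqrt (P.E_mono fun w _ => ?_)
  by_cases hb : B (X w)
  · rw [ind_of hb, one_mul]
  · rw [ind_not hb, zero_mul]
    have := sq_nonneg (l (X w))
    simpa using this

theorem E_bad_le {X : Om → κ} {B : κ → Prop} {l : κ → ℝ} {e : ℝ}
    (hB : P.Pr (fun w => B (X w)) ≤ e) :
    P.E (fun w => ind (B (X w)) * l (X w)) ≤ Real.sqrt e * Real.sqrt (P.E fun w => l (X w) ^ 2) := by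
  have h1 := P.E_mul_sq_le (fun w => ind (B (X w))) (fun w => l (X w))
  have h2 : P.E (fun w => ind (B (X w)) ^ 2) ≤ e := by
    refine le_trans (le_of_eq (P.E_congr fun w _ => ?_)) hB
    by_cases h : B (X w)
    · rw [ind_of h]; norm_num
    · rw [ind_not h]; norm_num
  have ha0 : 0 ≤ P.E fun w => l (X w) ^ 2 := P.E_nonneg fun _ _ => sq_nonneg _
  have he0 : 0 ≤ e := (P.Pr_nonneg _).trans hB
  rw [← Real.sqrt_mul he0]
  refine Real.le_sqrt_of_sq_le (h1.trans (mul_le_mul_of_nonneg_right h2 ha0))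

/-- **ABSOLUTE COVARIANCE**: good rows, good columns, rare spread bad letters -/
theorem abs_cov {A : Om → α} {X : Om → κ} {Y : Om → ι} (ci : CI P A X Y) {Bx : κ → Prop} {By : ι → Prop} {τ e : ℝ}
    (hτ : 0 ≤ τ) (he : 0 < e) (gx : ∀ x, ¬ Bx x → rowd P X Y x ≤ τ * lw P X x)
    (gy : ∀ y, ¬ By y → cold P X Y y ≤ τ * lw P Y y) (mx : P.Pr (fun w => Bx (X w)) ≤ e)
    (my : P.Pr (fun w => By (Y w)) ≤ e) (hX : Spread P A X Bx e) (hY : Spread P A Y By e) {l : κ → ℝ} {k : ι → ℝ}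
    (hl : ∀ x, 0 ≤ l x) (hk : ∀ y, 0 ≤ k y) :
    ∑ x ∈ vals X, ∑ y ∈ vals Y, |lw2 P X Y x y - lw P X x * lw P Y y| * (l x * k y) ≤
      (2 * Real.sqrt (τ * 2) + 9 * e) * (Real.sqrt (P.E fun w => l (X w) ^ 2) * Real.sqrt (P.E fun w => k (Y w) ^ 2)) := by
  classical
  set a := P.E fun w => l (X w) ^ 2 with ha
  set b := P.E fun w => k (Y w) ^ 2 with hb
  set D : κ → ι → ℝ := fun x y => |lw2 P X Y x y - lw P X x * lw P Y y| with hD
  have hD0 : ∀ x y, 0 ≤ D x y := fun _ _ => abs_nonneg _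
  -- splitting
  have hsp : ∑ x ∈ vals X, ∑ y ∈ vals Y, D x y * (l x * k y) ≤
      ∑ x ∈ (vals X).filter (fun x => ¬ Bx x), ∑ y ∈ vals Y, D x y * (|l x| * |k y|) +
      ∑ y ∈ (vals Y).filter (fun y => ¬ By y), ∑ x ∈ vals X, D x y * (|k y| * |l x|) +
      ∑ x ∈ vals X, ∑ y ∈ vals Y, D x y * ((ind (Bx x) * l x) * (ind (By y) * k y)) := by
    rw [Finset.sum_filter, Finset.sum_filter]
    have e1 : ∑ y ∈ vals Y, (if ¬ By y then ∑ x ∈ vals X, D x y * (|k y| * |l x|) else 0) =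
        ∑ x ∈ vals X, ∑ y ∈ vals Y, ind (¬ By y) * (D x y * (|k y| * |l x|)) := by
      rw [Finset.sum_comm]
      refine Finset.sum_congr rfl fun y _ => ?_
      by_cases h : By y
      · rw [if_neg (not_not.2 h)]
        symm
        refine Finset.sum_eq_zero fun x _ => ?_
        rw [ind_not (not_not.2 h), zero_mul]
      · rw [if_pos h]
        refine Finset.sum_congr rfl fun x _ => ?_
        rw [ind_of h, one_mul]
    rw [e1, ← Finset.sum_add_distrib, ← Finset.sum_add_distrib]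
    refine Finset.sum_le_sum fun x _ => ?_
    have e2 : (if ¬ Bx x then ∑ y ∈ vals Y, D x y * (|l x| * |k y|) else 0) =
        ∑ y ∈ vals Y, ind (¬ Bx x) * (D x y * (|l x| * |k y|)) := by
      by_cases h : Bx x
      · rw [if_neg (not_not.2 h)]
        symm
        refine Finset.sum_eq_zero fun y _ => ?_
        rw [ind_not (not_not.2 h), zero_mul]
      · rw [if_pos h]
        refine Finset.sum_congr rfl fun y _ => ?_
        rw [ind_of h, one_mul]
    rw [e2, ← Finset.sum_add_distrib, ← Finset.sum_add_distrib]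
    refine Finset.sum_le_sum fun y _ => ?_
    rw [abs_of_nonneg (hl x), abs_of_nonneg (hk y)]
    have n0 : 0 ≤ D x y * (l x * k y) := mul_nonneg (hD0 x y) (mul_nonneg (hl x) (hk y))
    have n1 : 0 ≤ D x y * (k y * l x) := by linarith [mul_comm (k y) (l x), congrArg (fun t => D x y * t) (mul_comm (k y) (l x))]
    by_cases h1 : Bx x
    · by_cases h2 : By y
      · rw [ind_not (not_not.2 h1), ind_not (not_not.2 h2), ind_of h1, ind_of h2]
        linarith
      · rw [ind_not (not_not.2 h1), ind_of h2, ind_of h1, ind_not h2]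
        have : D x y * (k y * l x) = D x y * (l x * k y) := by ring
        linarith
    · rw [ind_of h1, ind_not h1]
      have n2 : 0 ≤ ind (¬ By y) * (D x y * (k y * l x)) := mul_nonneg (ind_nonneg _) n1
      linarith
  -- rows
  have r1 : ∑ x ∈ (vals X).filter (fun x => ¬ Bx x), ∑ y ∈ vals Y, D x y * (|l x| * |k y|) ≤
      Real.sqrt (τ * 2) * (Real.sqrt a * Real.sqrt b) := by
    have h := row_side (SX := (vals X).filter (fun x => ¬ Bx x)) (SY := vals Y) (J := lw2 P X Y) (U := lw P X)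
      (V := lw P Y) (fun x _ y _ => lw2_nonneg P X Y x y) (fun x _ => lw_nonneg P X x) (fun y _ => lw_nonneg P Y y)
      ((Finset.sum_le_sum_of_subset_of_nonneg (Finset.filter_subset _ _) (fun x _ _ => lw_nonneg P X x)).trans
        (le_of_eq (sum_lw_one P X)))
      (fun y _ => (Finset.sum_le_sum_of_subset_of_nonneg (Finset.filter_subset _ _)
        (fun x _ _ => lw2_nonneg P X Y x y)).trans (le_of_eq (sum_lw2_col P X Y y)))
      hτ (fun x hx => gx x (Finset.mem_filter.1 hx).2) l k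
    refine h.trans (mul_le_mul_of_nonneg_left ?_ (Real.sqrt_nonneg _))
    refine mul_le_mul (Real.sqrt_le_sqrt ?_) (Real.sqrt_le_sqrt (le_of_eq (sum_lw P Y (fun y => k y ^ 2))))
      (Real.sqrt_nonneg _) (Real.sqrt_nonneg _)
    refine (Finset.sum_le_sum_of_subset_of_nonneg (Finset.filter_subset _ _)
      (fun x _ _ => mul_nonneg (lw_nonneg P X x) (sq_nonneg _))).trans (le_of_eq (sum_lw P X (fun x => l x ^ 2)))
  have r2 : ∑ y ∈ (vals Y).filter (fun y => ¬ By y), ∑ x ∈ vals X, D x y * (|k y| * |l x|) ≤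
      Real.sqrt (τ * 2) * (Real.sqrt a * Real.sqrt b) := by
    have h := row_side (SX := (vals Y).filter (fun y => ¬ By y)) (SY := vals X) (J := fun y x => lw2 P X Y x y)
      (U := lw P Y)
      (V := lw P X) (fun y _ x _ => lw2_nonneg P X Y x y) (fun y _ => lw_nonneg P Y y) (fun x _ => lw_nonneg P X x)
      ((Finset.sum_le_sum_of_subset_of_nonneg (Finset.filter_subset _ _) (fun y _ _ => lw_nonneg P Y y)).trans
        (le_of_eq (sum_lw_one P Y)))
      (fun x _ => (Finset.sum_le_sum_of_subset_of_nonneg (Finset.filter_subset _ _)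
        (fun y _ _ => lw2_nonneg P X Y x y)).trans (le_of_eq (sum_lw2_row P X Y x)))
      hτ (fun y hy => by
        refine le_trans (le_of_eq ?_) (gy y (Finset.mem_filter.1 hy).2)
        refine Finset.sum_congr rfl fun x _ => ?_
        rw [mul_comm (lw P Y y)]) k l
    have e3 : ∑ y ∈ (vals Y).filter (fun y => ¬ By y), ∑ x ∈ vals X, D x y * (|k y| * |l x|) =
        ∑ y ∈ (vals Y).filter (fun y => ¬ By y), ∑ x ∈ vals X, |lw2 P X Y x y - lw P Y y * lw P X x| * (|k y| * |l x|) := by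
      refine Finset.sum_congr rfl fun y _ => Finset.sum_congr rfl fun x _ => ?_
      simp only [hD]
      rw [mul_comm (lw P Y y)]
    rw [e3]
    refine h.trans (mul_le_mul_of_nonneg_left ?_ (Real.sqrt_nonneg _))
    rw [mul_comm (Real.sqrt a)]
    refine mul_le_mul (Real.sqrt_le_sqrt ?_) (Real.sqrt_le_sqrt (le_of_eq (sum_lw P X (fun y => l y ^ 2))))
      (Real.sqrt_nonneg _) (Real.sqrt_nonneg _)
    refine (Finset.sum_le_sum_of_subset_of_nonneg (Finset.filter_subset _ _)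
      (fun x _ _ => mul_nonneg (lw_nonneg P Y x) (sq_nonneg _))).trans (le_of_eq (sum_lw P Y (fun x => k x ^ 2)))
  -- bad letters
  have r3 : ∑ x ∈ vals X, ∑ y ∈ vals Y, D x y * ((ind (Bx x) * l x) * (ind (By y) * k y)) ≤
      9 * e * (Real.sqrt a * Real.sqrt b) := by
    have c1 : ∑ x ∈ vals X, ∑ y ∈ vals Y, D x y * ((ind (Bx x) * l x) * (ind (By y) * k y)) ≤
        ∑ x ∈ vals X, ∑ y ∈ vals Y, lw2 P X Y x y * ((ind (Bx x) * l x) * (ind (By y) * k y)) +
        (∑ x ∈ vals X, lw P X x * (ind (Bx x) * l x)) * ∑ y ∈ vals Y, lw P Y y * (ind (By y) * k y) := by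
      rw [Finset.sum_mul_sum, ← Finset.sum_add_distrib]
      refine Finset.sum_le_sum fun x _ => ?_
      rw [← Finset.sum_add_distrib]
      refine Finset.sum_le_sum fun y _ => ?_
      have h1 := lw2_nonneg P X Y x y
      have h2 := mul_nonneg (lw_nonneg P X x) (lw_nonneg P Y y)
      have h3 : D x y ≤ lw2 P X Y x y + lw P X x * lw P Y y := by
        simp only [hD]
        rw [abs_le]
        constructor <;> linarith
      have h4 : 0 ≤ (ind (Bx x) * l x) * (ind (By y) * k y) :=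
        mul_nonneg (mul_nonneg (ind_nonneg _) (hl x)) (mul_nonneg (ind_nonneg _) (hk y))
      have h5 := mul_le_mul_of_nonneg_right h3 h4
      linarith
    have c2 := bad_bad P ci he hX hY hl hk
    rw [sum_lw2 P X Y (fun x y => (ind (Bx x) * l x) * (ind (By y) * k y)), sum_lw P X (fun x => ind (Bx x) * l x),
      sum_lw P Y (fun y => ind (By y) * k y)] at c1
    have c3 := E_bad_le P (l := l) mx
    have c4 := E_bad_le P (l := k) my
    have c5 : (P.E fun w => ind (Bx (X w)) * l (X w)) * (P.E fun w => ind (By (Y w)) * k (Y w)) ≤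
        e * (Real.sqrt a * Real.sqrt b) := by
      refine (mul_le_mul c3 c4 (P.E_nonneg fun w _ => mul_nonneg (ind_nonneg _) (hk _))
        (mul_nonneg (Real.sqrt_nonneg _) (Real.sqrt_nonneg _))).trans (le_of_eq ?_)
      have := Real.mul_self_sqrt he.le
      calc Real.sqrt e * Real.sqrt a * (Real.sqrt e * Real.sqrt b) =
          (Real.sqrt e * Real.sqrt e) * (Real.sqrt a * Real.sqrt b) := by ring
        _ = _ := by rw [this]
    linarith
  linarith

/-- the same for a set of pairs -/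
theorem pair_set {A : Om → α} {X : Om → κ} {Y : Om → ι} (ci : CI P A X Y) {Bx : κ → Prop} {By : ι → Prop}
    {H : κ → ι → Prop} {τ e : ℝ} (hτ : 0 ≤ τ) (he : 0 < e)
    (gx : ∀ x, ¬ Bx x → ∑ y ∈ vals Y, lw2 P X Y x y * ind (H x y) ≤ τ * lw P X x)
    (gy : ∀ y, ¬ By y → ∑ x ∈ vals X, lw2 P X Y x y * ind (H x y) ≤ τ * lw P Y y)
    (hX : Spread P A X Bx e) (hY : Spread P A Y By e) {l : κ → ℝ} {k : ι → ℝ}
    (hl : ∀ x, 0 ≤ l x) (hk : ∀ y, 0 ≤ k y) :
    P.E (fun w => ind (H (X w) (Y w)) * (l (X w) * k (Y w))) ≤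
      (2 * Real.sqrt τ + 8 * e) * (Real.sqrt (P.E fun w => l (X w) ^ 2) * Real.sqrt (P.E fun w => k (Y w) ^ 2)) := by
  classical
  set a := P.E fun w => l (X w) ^ 2 with ha
  set b := P.E fun w => k (Y w) ^ 2 with hb
  set D : κ → ι → ℝ := fun x y => lw2 P X Y x y * ind (H x y) with hD
  have hD0 : ∀ x y, 0 ≤ D x y := fun x y => mul_nonneg (lw2_nonneg P X Y x y) (ind_nonneg _)
  have hDle : ∀ x y, D x y ≤ lw2 P X Y x y := fun x y => by
    simp only [hD]
    have := mul_le_mul_of_nonneg_left (ind_le_one (H x y)) (lw2_nonneg P X Y x y)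
    linarith
  rw [← sum_lw2 P X Y (fun x y => ind (H x y) * (l x * k y))]
  have hsp : ∑ x ∈ vals X, ∑ y ∈ vals Y, lw2 P X Y x y * (ind (H x y) * (l x * k y)) ≤
      ∑ x ∈ (vals X).filter (fun x => ¬ Bx x), ∑ y ∈ vals Y, D x y * (|l x| * |k y|) +
      ∑ y ∈ (vals Y).filter (fun y => ¬ By y), ∑ x ∈ vals X, D x y * (|k y| * |l x|) +
      ∑ x ∈ vals X, ∑ y ∈ vals Y, D x y * ((ind (Bx x) * l x) * (ind (By y) * k y)) := by
    rw [Finset.sum_filter, Finset.sum_filter]
    have e1 : ∑ y ∈ vals Y, (if ¬ By y then ∑ x ∈ vals X, D x y * (|k y| * |l x|) else 0) =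
        ∑ x ∈ vals X, ∑ y ∈ vals Y, ind (¬ By y) * (D x y * (|k y| * |l x|)) := by
      rw [Finset.sum_comm]
      refine Finset.sum_congr rfl fun y _ => ?_
      by_cases h : By y
      · rw [if_neg (not_not.2 h)]
        symm
        refine Finset.sum_eq_zero fun x _ => ?_
        rw [ind_not (not_not.2 h), zero_mul]
      · rw [if_pos h]
        refine Finset.sum_congr rfl fun x _ => ?_
        rw [ind_of h, one_mul]
    rw [e1, ← Finset.sum_add_distrib, ← Finset.sum_add_distrib]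
    refine Finset.sum_le_sum fun x _ => ?_
    have e2 : (if ¬ Bx x then ∑ y ∈ vals Y, D x y * (|l x| * |k y|) else 0) =
        ∑ y ∈ vals Y, ind (¬ Bx x) * (D x y * (|l x| * |k y|)) := by
      by_cases h : Bx x
      · rw [if_neg (not_not.2 h)]
        symm
        refine Finset.sum_eq_zero fun y _ => ?_
        rw [ind_not (not_not.2 h), zero_mul]
      · rw [if_pos h]
        refine Finset.sum_congr rfl fun y _ => ?_
        rw [ind_of h, one_mul]
    rw [e2, ← Finset.sum_add_distrib, ← Finset.sum_add_distrib]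
    refine Finset.sum_le_sum fun y _ => ?_
    rw [abs_of_nonneg (hl x), abs_of_nonneg (hk y)]
    have e3 : lw2 P X Y x y * (ind (H x y) * (l x * k y)) = D x y * (l x * k y) := by simp only [hD]; ring
    rw [e3]
    have n0 : 0 ≤ D x y * (l x * k y) := mul_nonneg (hD0 x y) (mul_nonneg (hl x) (hk y))
    have n1 : D x y * (k y * l x) = D x y * (l x * k y) := by ring
    rw [n1]
    by_cases h1 : Bx x
    · by_cases h2 : By y
      · rw [ind_not (not_not.2 h1), ind_not (not_not.2 h2), ind_of h1, ind_of h2]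
        linarith
      · rw [ind_not (not_not.2 h1), ind_of h2, ind_of h1, ind_not h2]
        linarith
    · rw [ind_of h1, ind_not h1]
      have n2 : 0 ≤ ind (¬ By y) * (D x y * (l x * k y)) := mul_nonneg (ind_nonneg _) n0
      linarith
  have r1 : ∑ x ∈ (vals X).filter (fun x => ¬ Bx x), ∑ y ∈ vals Y, D x y * (|l x| * |k y|) ≤
      Real.sqrt τ * (Real.sqrt a * Real.sqrt b) := by
    have h := cs_weight (SX := (vals X).filter (fun x => ¬ Bx x)) (SY := vals Y) (a := D) (U := lw P X) (V := lw P Y)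
      (fun x _ y _ => hD0 x y) hτ zero_le_one (fun x hx => gx x (Finset.mem_filter.1 hx).2)
      (fun y _ => by
        rw [one_mul, ← sum_lw2_col P X Y y]
        refine (Finset.sum_le_sum_of_subset_of_nonneg (Finset.filter_subset _ _) (fun x _ _ => hD0 x y)).trans ?_
        exact Finset.sum_le_sum fun x _ => hDle x y) l k
    rw [mul_one] at h
    refine h.trans (mul_le_mul_of_nonneg_left ?_ (Real.sqrt_nonneg _))
    refine mul_le_mul (Real.sqrt_le_sqrt ?_) (Real.sqrt_le_sqrt (le_of_eq (sum_lw P Y (fun y => k y ^ 2))))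
      (Real.sqrt_nonneg _) (Real.sqrt_nonneg _)
    refine (Finset.sum_le_sum_of_subset_of_nonneg (Finset.filter_subset _ _)
      (fun x _ _ => mul_nonneg (lw_nonneg P X x) (sq_nonneg _))).trans (le_of_eq (sum_lw P X (fun x => l x ^ 2)))
  have r2 : ∑ y ∈ (vals Y).filter (fun y => ¬ By y), ∑ x ∈ vals X, D x y * (|k y| * |l x|) ≤
      Real.sqrt τ * (Real.sqrt a * Real.sqrt b) := by
    have h := cs_weight (SX := (vals Y).filter (fun y => ¬ By y)) (SY := vals X) (a := fun y x => D x y) (U := lw P Y)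
      (V := lw P X)
      (fun y _ x _ => hD0 x y) hτ zero_le_one (fun y hy => gy y (Finset.mem_filter.1 hy).2)
      (fun x _ => by
        rw [one_mul, ← sum_lw2_row P X Y x]
        refine (Finset.sum_le_sum_of_subset_of_nonneg (Finset.filter_subset _ _) (fun y _ _ => hD0 x y)).trans ?_
        exact Finset.sum_le_sum fun y _ => hDle x y) k l
    rw [mul_one] at h
    refine h.trans (mul_le_mul_of_nonneg_left ?_ (Real.sqrt_nonneg _))
    rw [mul_comm (Real.sqrt a)]
    refine mul_le_mul (Real.sqrt_le_sqrt ?_) (Real.sqrt_le_sqrt (le_of_eq (sum_lw P X (fun y => l y ^ 2))))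
      (Real.sqrt_nonneg _) (Real.sqrt_nonneg _)
    refine (Finset.sum_le_sum_of_subset_of_nonneg (Finset.filter_subset _ _)
      (fun x _ _ => mul_nonneg (lw_nonneg P Y x) (sq_nonneg _))).trans (le_of_eq (sum_lw P Y (fun x => k x ^ 2)))
  have r3 : ∑ x ∈ vals X, ∑ y ∈ vals Y, D x y * ((ind (Bx x) * l x) * (ind (By y) * k y)) ≤
      8 * e * (Real.sqrt a * Real.sqrt b) := by
    have c1 : ∑ x ∈ vals X, ∑ y ∈ vals Y, D x y * ((ind (Bx x) * l x) * (ind (By y) * k y)) ≤
        ∑ x ∈ vals X, ∑ y ∈ vals Y, lw2 P X Y x y * ((ind (Bx x) * l x) * (ind (By y) * k y)) := by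
      refine Finset.sum_le_sum fun x _ => Finset.sum_le_sum fun y _ => ?_
      exact mul_le_mul_of_nonneg_right (hDle x y)
        (mul_nonneg (mul_nonneg (ind_nonneg _) (hl x)) (mul_nonneg (ind_nonneg _) (hk y)))
    rw [sum_lw2 P X Y (fun x y => (ind (Bx x) * l x) * (ind (By y) * k y))] at c1
    exact c1.trans (bad_bad P ci he hX hY hl hk)
  linarith

end

end Pool.Agent.GMH
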