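import Pool.Agent.M3.FPMart

/-!
# GMH/Upc (helper28): rises of a log probability, falls of the heat, light and heavy faces (note 3949 (1)(e), (3))

`X` a filtration (`Filt`), all processes adapted.

* `rs R h t` = a rise by `h` ends at the step `t → t+1` (running minimum `bm`, restarted after every rise);
  `rises` : number of rises times h - 1 is at most E R n - E R 0 if `E [exp (R t - R (t+1)) | X t] ≤ 1` (no other assumption);
  `rise_ex` : if `R s + h ≤ R t` then a rise ends between `s` and `t`;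
* `light_rise` : `P (a rise ends, the face is light and the tuple is in T) ≤ ε (E R n - E R 0) / (h - 1)`;
* `vil` : `P (e s, L t ≥ L s + y at some t ≥ s) ≤ e^(-y) P (e s)` if `E [exp (L (t+1) - L t) | X t] ≤ 1`, and `vil_sum`;
* `fl hi lo q` = hysteresis flag (raised at `q ≥ hi`, dropped at `q < lo`); `fl_ups`, `fl_drop` : for `q` with
  `E [q (t+1) | X t] ≤ q t + s t` the count of raises is `≤ (E q 0 + ∑ E s) / (hi - lo)`, the mass seen at the drops
  is `≤ lo (E q 0 + ∑ E s) (1 / (hi - lo) + 1 / hi)`; `drop_le` the same for `q t = P (T t | X t)`.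
-/

set_option autoImplicit false
set_option linter.unusedSectionVars false

namespace Pool.Agent.GMH.Upc

open Finset Pool.Agent.PWZ Pool.Agent.M3

noncomputable section

variable {Om : Type*} [Fintype Om] {P : FP Om} {κ : ℕ → Type*} {X : ∀ t, Om → κ t}

/-! ## rises -/

/-- running minimum, restarted after a rise by `h` -/
def bm (R : ℕ → Om → ℝ) (h : ℝ) : ℕ → Om → ℝ
  | 0, w => R 0 w
  | t + 1, w => if bm R h t w + h ≤ R (t + 1) w then R (t + 1) w else min (bm R h t w) (R (t + 1) w)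

/-- a rise ends at the step `t → t + 1` -/
def rs (R : ℕ → Om → ℝ) (h : ℝ) (t : ℕ) (w : Om) : Prop := bm R h t w + h ≤ R (t + 1) w

theorem bm_fac (hX : Filt X) {R : ℕ → Om → ℝ} (hR : ∀ t, Fac (X t) (R t)) (h : ℝ) (t : ℕ) :
    Fac (X t) (bm R h t) := by
  induction t with
  | zero => exact hR 0
  | succ t ih =>
    intro v w hvw
    have h1 : bm R h t v = bm R h t w := ih v w (hX t v w hvw)
    show (if bm R h t v + h ≤ R (t + 1) v then R (t + 1) v else min (bm R h t v) (R (t + 1) v)) =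
      (if bm R h t w + h ≤ R (t + 1) w then R (t + 1) w else min (bm R h t w) (R (t + 1) w))
    rw [h1, hR (t + 1) v w hvw]

theorem rs_fac (hX : Filt X) {R : ℕ → Om → ℝ} (hR : ∀ t, Fac (X t) (R t)) (h : ℝ) (t : ℕ) {v w : Om}
    (hvw : X (t + 1) v = X (t + 1) w) : rs R h t v ↔ rs R h t w := by
  unfold rs
  rw [bm_fac hX hR h t v w (hX t v w hvw), hR (t + 1) v w hvw]

theorem bm_le {R : ℕ → Om → ℝ} {h : ℝ} (t : ℕ) (w : Om) : bm R h t w ≤ R t w := by
  cases t with
  | zero => exact le_refl _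
  | succ t =>
    show (if bm R h t w + h ≤ R (t + 1) w then R (t + 1) w else min (bm R h t w) (R (t + 1) w)) ≤ R (t + 1) w
    split_ifs
    · exact le_refl _
    · exact min_le_right _ _

/-- a rise by `h` contains the end of a rise -/
theorem rise_ex {R : ℕ → Om → ℝ} {h : ℝ} {s t : ℕ} {w : Om} (hh : 0 < h) (hst : s ≤ t) (hr : R s w + h ≤ R t w) :
    ∃ r, s ≤ r ∧ r < t ∧ rs R h r w := by
  by_contra hcon
  push Not at hcon
  have hb : ∀ k, s + k ≤ t → bm R h (s + k) w ≤ R s w := by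
    intro k
    induction k with
    | zero => intro _; exact bm_le s w
    | succ k ih =>
      intro hk
      have h1 := ih (by omega)
      have h2 : ¬ bm R h (s + k) w + h ≤ R (s + k + 1) w := hcon (s + k) (by omega) (by omega)
      have h3 : bm R h (s + k + 1) w = min (bm R h (s + k) w) (R (s + k + 1) w) := by
        show (if bm R h (s + k) w + h ≤ R (s + k + 1) w then R (s + k + 1) w
          else min (bm R h (s + k) w) (R (s + k + 1) w)) = _
        rw [if_neg h2]
      have h4 : s + (k + 1) = s + k + 1 := by omega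
      rw [h4, h3]
      exact (min_le_left _ _).trans h1
  rcases Nat.lt_or_ge s t with h1 | h1
  · obtain ⟨k, hk⟩ : ∃ k, t = s + k + 1 := ⟨t - s - 1, by omega⟩
    subst hk
    exact hcon (s + k) (by omega) (by omega) (by unfold rs; linarith [hb k (by omega)])
  · have : s = t := by omega
    subst this
    linarith

/-- the step inequality of the potential -/
theorem step_pot {b r h : ℝ} :
    -(if b + h ≤ r then r else min b r) + Real.exp ((if b + h ≤ r then r else min b r) - r) +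
      (h - 1) * ind (b + h ≤ r) ≤ -b + Real.exp (b - r) := by
  by_cases hc : b + h ≤ r
  · rw [if_pos hc, ind_of hc, sub_self, Real.exp_zero]
    have := Real.exp_pos (b - r)
    linarith
  · rw [if_neg hc, ind_not hc]
    rcases le_total b r with h1 | h1
    · rw [min_eq_left h1]
      linarith
    · rw [min_eq_right h1, sub_self, Real.exp_zero]
      have := Real.add_one_le_exp (b - r)
      linarith

/-- **the number of rises**: number of rises times h - 1 is at most E R n - E R 0 -/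
theorem rises (hX : Filt X) {R : ℕ → Om → ℝ} (hR : ∀ t, Fac (X t) (R t))
    (hs : ∀ t w, P.p w ≠ 0 → P.ce (X t) (fun v => Real.exp (R t v - R (t + 1) v)) w ≤ 1) (h : ℝ) (n : ℕ) :
    (h - 1) * P.E (fun w => ∑ t ∈ range n, ind (rs R h t w)) ≤ P.E (R n) - P.E (R 0) := by
  set V : ℕ → Om → ℝ := fun t w => -bm R h t w + Real.exp (bm R h t w - R t w) with hV
  have hstep : ∀ t, P.E (V (t + 1)) + (h - 1) * P.E (fun w => ind (rs R h t w)) ≤ P.E (V t) := by
    intro t
    have h1 : P.E (V (t + 1)) + (h - 1) * P.E (fun w => ind (rs R h t w)) ≤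
        P.E (fun w => -bm R h t w + Real.exp (bm R h t w - R (t + 1) w)) := by
      rw [← FP.E_smul, ← FP.E_add]
      exact P.E_mono fun w _ => step_pot
    have h2 : P.E (fun w => -bm R h t w + Real.exp (bm R h t w - R (t + 1) w)) =
        P.E (fun w => -bm R h t w) + P.E (fun w => Real.exp (bm R h t w - R (t + 1) w)) := P.E_add _ _
    have h3 : P.E (fun w => Real.exp (bm R h t w - R (t + 1) w)) ≤ P.E (fun w => Real.exp (bm R h t w - R t w)) := by
      have e1 : ∀ w, Real.exp (bm R h t w - R (t + 1) w) =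
          Real.exp (bm R h t w - R t w) * Real.exp (R t w - R (t + 1) w) := by
        intro w
        rw [← Real.exp_add]
        congr 1
        ring
      have hf : Fac (X t) (fun w => Real.exp (bm R h t w - R t w)) := ((bm_fac hX hR h t).sub (hR t)).comp _
      rw [P.E_congr fun w _ => e1 w, ← P.E_mul_ce hf]
      refine P.E_mono fun w hw => ?_
      exact mul_le_of_le_one_right (Real.exp_pos _).le (hs t w hw)
    have h4 : P.E (V t) = P.E (fun w => -bm R h t w) + P.E (fun w => Real.exp (bm R h t w - R t w)) := P.E_add _ _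
    linarith
  have hsum : ∀ k, P.E (V k) + (h - 1) * P.E (fun w => ∑ t ∈ range k, ind (rs R h t w)) ≤ P.E (V 0) := by
    intro k
    induction k with
    | zero =>
      have : P.E (fun w => ∑ t ∈ range 0, ind (rs R h t w)) = 0 := by
        simp only [Finset.range_zero, Finset.sum_empty]
        exact P.E_const 0
      rw [this]
      linarith
    | succ k ih =>
      have e1 : P.E (fun w => ∑ t ∈ range (k + 1), ind (rs R h t w)) =
          P.E (fun w => ∑ t ∈ range k, ind (rs R h t w)) + P.E (fun w => ind (rs R h k w)) := by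
        rw [← FP.E_add]
        exact P.E_congr fun w _ => Finset.sum_range_succ _ _
      rw [e1]
      have := hstep k
      linarith
  have h0 : P.E (V 0) = 1 - P.E (R 0) := by
    have e1 : ∀ w, V 0 w = 1 + (-1) * R 0 w := by
      intro w
      show -R 0 w + Real.exp (R 0 w - R 0 w) = _
      rw [sub_self, Real.exp_zero]
      ring
    rw [P.E_congr fun w _ => e1 w, FP.E_add, FP.E_smul, FP.E_const]
    ring
  have hn : 1 - P.E (R n) ≤ P.E (V n) := by
    have e1 : 1 - P.E (R n) = P.E (fun w => 1 + (-1) * R n w) := by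
      rw [FP.E_add, FP.E_smul, FP.E_const]
      ring
    rw [e1]
    refine P.E_mono fun w _ => ?_
    show _ ≤ -bm R h n w + Real.exp (bm R h n w - R n w)
    have := Real.add_one_le_exp (bm R h n w - R n w)
    linarith
  have := hsum n
  linarith

/-- a mass seen at the rises: `q` small given the filtration while `Li` -/
theorem at_rise (hX : Filt X) {R : ℕ → Om → ℝ} (hR : ∀ t, Fac (X t) (R t)) {h ε : ℝ} {Li Tt : ℕ → Om → Prop}
    (hLi : ∀ t v w, X t v = X t w → (Li t v ↔ Li t w))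
    (hl : ∀ t w, P.p w ≠ 0 → Li t w → P.ce (X t) (fun v => ind (Tt t v)) w ≤ ε) (hε : 0 ≤ ε) (n : ℕ) :
    P.Pr (fun w => ∃ t < n, rs R h t w ∧ Li (t + 1) w ∧ Tt (t + 1) w) ≤
      ε * P.E (fun w => ∑ t ∈ range n, ind (rs R h t w)) := by
  have h1 : P.Pr (fun w => ∃ t < n, rs R h t w ∧ Li (t + 1) w ∧ Tt (t + 1) w) ≤
      ∑ t ∈ range n, P.Pr (fun w => rs R h t w ∧ Li (t + 1) w ∧ Tt (t + 1) w) := by
    refine le_trans (P.Pr_mono fun w _ hw => ?_) (P.Pr_ex_le (range n) _)
    obtain ⟨t, ht, h'⟩ := hw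
    exact ⟨t, mem_range.2 ht, h'⟩
  refine h1.trans ?_
  rw [FP.E_sum, Finset.mul_sum]
  refine Finset.sum_le_sum fun t _ => ?_
  have hf : Fac (X (t + 1)) (fun w => ind (rs R h t w ∧ Li (t + 1) w)) :=
    Fac.ind fun v w hvw => and_congr (rs_fac hX hR h t hvw) (hLi (t + 1) v w hvw)
  have e1 : P.Pr (fun w => rs R h t w ∧ Li (t + 1) w ∧ Tt (t + 1) w) =
      P.E (fun w => ind (rs R h t w ∧ Li (t + 1) w) * P.ce (X (t + 1)) (fun v => ind (Tt (t + 1) v)) w) := by
    rw [P.E_mul_ce hf]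
    unfold FP.Pr
    refine P.E_congr fun w _ => ?_
    rw [← ind_and, and_assoc]
  rw [e1, ← FP.E_smul]
  refine P.E_mono fun w hw => ?_
  by_cases hc : rs R h t w ∧ Li (t + 1) w
  · rw [ind_of hc, one_mul, ind_of hc.1, mul_one]
    exact hl (t + 1) w hw hc.2
  · rw [ind_not hc, zero_mul]
    exact mul_nonneg hε (ind_nonneg _)

/-- **a light face rises seldom with the tuple in `T`** -/
theorem light_rise (hX : Filt X) {R : ℕ → Om → ℝ} (hR : ∀ t, Fac (X t) (R t))
    (hs : ∀ t w, P.p w ≠ 0 → P.ce (X t) (fun v => Real.exp (R t v - R (t + 1) v)) w ≤ 1) {h ε : ℝ} (hh : 1 < h)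
    {Li Tt : ℕ → Om → Prop} (hLi : ∀ t v w, X t v = X t w → (Li t v ↔ Li t w))
    (hl : ∀ t w, P.p w ≠ 0 → Li t w → P.ce (X t) (fun v => ind (Tt t v)) w ≤ ε) (hε : 0 ≤ ε) (n : ℕ) :
    P.Pr (fun w => ∃ t < n, rs R h t w ∧ Li (t + 1) w ∧ Tt (t + 1) w) ≤ ε * (P.E (R n) - P.E (R 0)) / (h - 1) := by
  have h1 := at_rise (P := P) hX hR (h := h) hLi hl hε n
  have h2 := rises hX hR hs h n
  have h3 : P.E (fun w => ∑ t ∈ range n, ind (rs R h t w)) ≤ (P.E (R n) - P.E (R 0)) / (h - 1) := by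
    rw [le_div_iff₀ (by linarith)]
    linarith
  refine h1.trans ((mul_le_mul_of_nonneg_left h3 hε).trans (le_of_eq ?_))
  ring

/-! ## falls -/

/-- **maximal inequality from an event of the filtration** -/
theorem vil (hX : Filt X) {L : ℕ → Om → ℝ} (hL : ∀ t, Fac (X t) (L t))
    (hs : ∀ t w, P.p w ≠ 0 → P.ce (X t) (fun v => Real.exp (L (t + 1) v - L t v)) w ≤ 1) {s : ℕ} {e : Om → Prop}
    (he : ∀ v w, X s v = X s w → (e v ↔ e w)) (n : ℕ) (y : ℝ) :
    P.Pr (fun w => e w ∧ ∃ t, s ≤ t ∧ t ≤ s + n ∧ L s w + y ≤ L t w) ≤ Real.exp (-y) * P.Pr e := by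
  set X' : ∀ k, Om → κ (s + k) := fun k => X (s + k) with hX'
  have fX' : Filt X' := fun k => hX (s + k)
  have hfs : ∀ k, Fac (X' k) (X s) := fun k => hX.le (Nat.le_add_right s k)
  set Z : ℕ → Om → ℝ := fun k w => ind (e w) * Real.exp (L (s + k) w - L s w) with hZd
  have hZ : ∀ k, Fac (X' k) (Z k) := by
    intro k
    refine Fac.mul ((hfs k).trans (Fac.ind he)) (Fac.comp (Fac.sub (hL (s + k)) ((hfs k).trans (hL s))) _)
  have h0 : ∀ k w, P.p w ≠ 0 → 0 ≤ Z k w := fun k w _ => mul_nonneg (ind_nonneg _) (Real.exp_pos _).le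
  have hsup : ∀ k w, P.p w ≠ 0 → P.ce (X' k) (Z (k + 1)) w ≤ Z k w + (fun (_ : ℕ) (_ : Om) => (0 : ℝ)) k w := by
    intro k w hw
    have e1 : Z (k + 1) = fun v => Z k v * Real.exp (L (s + k + 1) v - L (s + k) v) := by
      funext v
      show ind (e v) * Real.exp (L (s + (k + 1)) v - L s v) = ind (e v) * Real.exp (L (s + k) v - L s v) * _
      rw [mul_assoc, ← Real.exp_add]
      congr 2
      rw [← add_assoc]
      ring
    rw [e1, P.ce_mul (hZ k)]
    have h1 := hs (s + k) w hw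
    have h2 := mul_le_mul_of_nonneg_left h1 (h0 k w hw)
    rw [mul_one] at h2
    simpa using h2
  have h1 := P.doob_super fX' hZ h0 (fun _ _ _ => le_refl _) hsup n (Real.exp_pos y).le
  have h2 : P.E (Z 0) = P.Pr e := by
    unfold FP.Pr
    refine P.E_congr fun w _ => ?_
    show ind (e w) * Real.exp (L (s + 0) w - L s w) = _
    rw [add_zero, sub_self, Real.exp_zero, mul_one]
  have h3 : ∑ t ∈ range n, P.E ((fun (_ : ℕ) (_ : Om) => (0 : ℝ)) t) = 0 :=
    Finset.sum_eq_zero fun t _ => P.E_const 0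
  rw [h2, h3, add_zero] at h1
  have h4 : P.Pr (fun w => e w ∧ ∃ t, s ≤ t ∧ t ≤ s + n ∧ L s w + y ≤ L t w) ≤
      P.Pr (fun w => ∃ t ≤ n, Real.exp y ≤ Z t w) := by
    refine P.Pr_mono fun w _ hw => ?_
    obtain ⟨h5, t, h6, h7, h8⟩ := hw
    refine ⟨t - s, by omega, ?_⟩
    have h9 : s + (t - s) = t := by omega
    show Real.exp y ≤ ind (e w) * Real.exp (L (s + (t - s)) w - L s w)
    rw [ind_of h5, one_mul, h9]
    exact Real.exp_le_exp.2 (by linarith)
  have h5 : Real.exp (-y) * (Real.exp y * P.Pr (fun w => ∃ t ≤ n, Real.exp y ≤ Z t w)) =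
      P.Pr (fun w => ∃ t ≤ n, Real.exp y ≤ Z t w) := by
    rw [← mul_assoc, ← Real.exp_add, neg_add_cancel, Real.exp_zero, one_mul]
  have h6 := mul_le_mul_of_nonneg_left h1 (Real.exp_pos (-y)).le
  rw [h5] at h6
  exact h4.trans h6

/-- the same for starts at all times -/
theorem vil_sum (hX : Filt X) {L : ℕ → Om → ℝ} (hL : ∀ t, Fac (X t) (L t))
    (hs : ∀ t w, P.p w ≠ 0 → P.ce (X t) (fun v => Real.exp (L (t + 1) v - L t v)) w ≤ 1) {e : ℕ → Om → Prop}
    (he : ∀ s v w, X s v = X s w → (e s v ↔ e s w)) (n : ℕ) (y : ℝ) :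
    P.Pr (fun w => ∃ s ≤ n, e s w ∧ ∃ t, s ≤ t ∧ t ≤ n ∧ L s w + y ≤ L t w) ≤
      Real.exp (-y) * P.E (fun w => ∑ s ∈ range (n + 1), ind (e s w)) := by
  have h1 : P.Pr (fun w => ∃ s ≤ n, e s w ∧ ∃ t, s ≤ t ∧ t ≤ n ∧ L s w + y ≤ L t w) ≤
      ∑ s ∈ range (n + 1), P.Pr (fun w => e s w ∧ ∃ t, s ≤ t ∧ t ≤ s + n ∧ L s w + y ≤ L t w) := by
    refine le_trans (P.Pr_mono fun w _ hw => ?_) (P.Pr_ex_le (range (n + 1)) _)
    obtain ⟨s, hsn, h2, t, h3, h4, h5⟩ := hw
    exact ⟨s, mem_range.2 (by omega), h2, t, h3, by omega, h5⟩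
  refine h1.trans ?_
  rw [FP.E_sum, Finset.mul_sum]
  exact Finset.sum_le_sum fun s _ => vil hX hL hs (he s) n y

/-! ## light and heavy -/

/-- hysteresis flag: raised when `q ≥ hi`, kept until `q < lo` -/
def fl (hi lo : ℝ) (q : ℕ → Om → ℝ) : ℕ → Om → Prop
  | 0, w => hi ≤ q 0 w
  | t + 1, w => hi ≤ q (t + 1) w ∨ (fl hi lo q t w ∧ lo ≤ q (t + 1) w)

/-- raised at the step `t → t + 1` -/
def fu (hi lo : ℝ) (q : ℕ → Om → ℝ) (t : ℕ) (w : Om) : Prop := ¬ fl hi lo q t w ∧ fl hi lo q (t + 1) w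

/-- dropped at the step `t → t + 1` -/
def fdn (hi lo : ℝ) (q : ℕ → Om → ℝ) (t : ℕ) (w : Om) : Prop := fl hi lo q t w ∧ ¬ fl hi lo q (t + 1) w

variable {hi lo : ℝ} {q s : ℕ → Om → ℝ}

theorem fl_fac (hX : Filt X) (hq : ∀ t, Fac (X t) (q t)) (t : ℕ) :
    ∀ v w, X t v = X t w → (fl hi lo q t v ↔ fl hi lo q t w) := by
  induction t with
  | zero => intro v w h; simp only [fl]; rw [hq 0 v w h]
  | succ t ih =>
    intro v w h
    simp only [fl]
    rw [hq (t + 1) v w h, ih v w (hX t v w h)]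

theorem fl_ge (hlo : lo ≤ hi) {t : ℕ} {w : Om} (h : fl hi lo q t w) : lo ≤ q t w := by
  cases t with
  | zero => simp only [fl] at h; linarith
  | succ t =>
    simp only [fl] at h
    rcases h with h | h
    · linarith
    · exact h.2

theorem not_fl_lt {t : ℕ} {w : Om} (h : ¬ fl hi lo q t w) : q t w < hi := by
  cases t with
  | zero => simp only [fl] at h; linarith
  | succ t =>
    simp only [fl] at h
    push Not at h
    exact h.1

theorem fdn_lt {t : ℕ} {w : Om} (h : fdn hi lo q t w) : q (t + 1) w < lo := by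
  have h2 := h.2
  simp only [fl] at h2
  push Not at h2
  exact h2.2 h.1

theorem fl_telescope (n : ℕ) (w : Om) :
    ∑ t ∈ range n, ind (¬ fl hi lo q t w) * (q (t + 1) w - q t w) =
      ∑ t ∈ range n, ind (fu hi lo q t w) * q (t + 1) w - ∑ t ∈ range n, ind (fdn hi lo q t w) * q (t + 1) w
        + ind (¬ fl hi lo q n w) * q n w - ind (¬ fl hi lo q 0 w) * q 0 w := by
  induction n with
  | zero => simp
  | succ n ih =>
    rw [Finset.sum_range_succ, Finset.sum_range_succ, Finset.sum_range_succ, ih]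
    have h := FP.ind_tel (fl hi lo q n w) (fl hi lo q (n + 1) w) (q n w) (q (n + 1) w)
    unfold fu fdn
    linarith

theorem fdn_count (n : ℕ) (w : Om) :
    ∑ t ∈ range n, ind (fdn hi lo q t w) =
      ∑ t ∈ range n, ind (fu hi lo q t w) + ind (fl hi lo q 0 w) - ind (fl hi lo q n w) := by
  induction n with
  | zero => simp
  | succ n ih =>
    rw [Finset.sum_range_succ, Finset.sum_range_succ, ih]
    have h := FP.ind_cnt (fl hi lo q n w) (fl hi lo q (n + 1) w)
    unfold fu fdn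
    linarith

/-- **the count of raises** -/
theorem fl_ups (hX : Filt X) (hq : ∀ t, Fac (X t) (q t)) (h0 : ∀ t w, P.p w ≠ 0 → 0 ≤ q t w)
    (hs0 : ∀ t w, P.p w ≠ 0 → 0 ≤ s t w)
    (hs : ∀ t w, P.p w ≠ 0 → P.ce (X t) (q (t + 1)) w ≤ q t w + s t w) (n : ℕ) (hlo : 0 ≤ lo) (hlh : lo ≤ hi) :
    (hi - lo) * P.E (fun w => ∑ t ∈ range n, ind (fu hi lo q t w)) ≤ P.E (q 0) + ∑ t ∈ range n, P.E (s t) := by
  have hfac : ∀ t, Fac (X t) (fun w => ind (¬ fl hi lo q t w)) := fun t =>
    Fac.ind (fun v w h => not_congr (fl_fac hX hq t v w h))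
  have hgain : P.E (fun w => ∑ t ∈ range n, ind (¬ fl hi lo q t w) * (q (t + 1) w - q t w)) ≤
      ∑ t ∈ range n, P.E (s t) := by
    rw [P.transform_eq hfac, FP.E_sum]
    refine Finset.sum_le_sum (fun t _ => P.E_mono (fun w hw => ?_))
    have h1 : P.ce (X t) (q (t + 1)) w - q t w ≤ s t w := by linarith [hs t w hw]
    have h2 := mul_le_mul_of_nonneg_left h1 (ind_nonneg (¬ fl hi lo q t w))
    have h3 := mul_le_mul_of_nonneg_right (ind_le_one (¬ fl hi lo q t w)) (hs0 t w hw)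
    linarith
  -- pointwise: gain ≥ (hi - lo) count of raises - q 0
  have hpt : ∀ w, P.p w ≠ 0 → (hi - lo) * ∑ t ∈ range n, ind (fu hi lo q t w) - q 0 w ≤
      ∑ t ∈ range n, ind (¬ fl hi lo q t w) * (q (t + 1) w - q t w) := by
    intro w hw
    rw [fl_telescope]
    have h1 : hi * ∑ t ∈ range n, ind (fu hi lo q t w) ≤ ∑ t ∈ range n, ind (fu hi lo q t w) * q (t + 1) w := by
      rw [Finset.mul_sum]
      refine Finset.sum_le_sum fun t _ => ?_
      by_cases h : fu hi lo q t w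
      · rw [ind_of h, mul_one, one_mul]
        have h2 := h.2
        simp only [fl] at h2
        rcases h2 with h2 | h2
        · exact h2
        · exact absurd h2.1 h.1
      · rw [ind_not h, mul_zero, zero_mul]
    have h2 : ∑ t ∈ range n, ind (fdn hi lo q t w) * q (t + 1) w ≤ lo * ∑ t ∈ range n, ind (fdn hi lo q t w) := by
      rw [Finset.mul_sum]
      refine Finset.sum_le_sum fun t _ => ?_
      by_cases h : fdn hi lo q t w
      · rw [ind_of h, mul_one, one_mul]
        exact (fdn_lt h).le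
      · rw [ind_not h, mul_zero, zero_mul]
    have h3 := fdn_count (hi := hi) (lo := lo) (q := q) n w
    have h4 : 0 ≤ ind (¬ fl hi lo q n w) * q n w := mul_nonneg (ind_nonneg _) (h0 n w hw)
    have h5 : lo * ind (fl hi lo q 0 w) + ind (¬ fl hi lo q 0 w) * q 0 w ≤ q 0 w := by
      by_cases h : fl hi lo q 0 w
      · rw [ind_of h, ind_not (not_not.mpr h), mul_one, zero_mul, add_zero]
        exact fl_ge hlh h
      · rw [ind_not h, ind_of h]
        linarith
    have h6 : 0 ≤ lo * ind (fl hi lo q n w) := mul_nonneg hlo (ind_nonneg _)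
    rw [h3] at h2
    nlinarith [h1, h2, h4, h5, h6]
  have h1 : P.E (fun w => (hi - lo) * ∑ t ∈ range n, ind (fu hi lo q t w) - q 0 w) ≤
      P.E (fun w => ∑ t ∈ range n, ind (¬ fl hi lo q t w) * (q (t + 1) w - q t w)) := P.E_mono hpt
  rw [FP.E_sub, FP.E_smul] at h1
  linarith

/-- **the mass seen at the drops** -/
theorem fl_drop (hX : Filt X) (hq : ∀ t, Fac (X t) (q t)) (h0 : ∀ t w, P.p w ≠ 0 → 0 ≤ q t w)
    (hs0 : ∀ t w, P.p w ≠ 0 → 0 ≤ s t w)
    (hs : ∀ t w, P.p w ≠ 0 → P.ce (X t) (q (t + 1)) w ≤ q t w + s t w) (n : ℕ) (hlo : 0 ≤ lo) (hlh : lo < hi) :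
    P.E (fun w => ∑ t ∈ range n, ind (fdn hi lo q t w) * q (t + 1) w) ≤
      lo * ((P.E (q 0) + ∑ t ∈ range n, P.E (s t)) / (hi - lo) + P.E (q 0) / hi) := by
  have hhi : 0 < hi := lt_of_le_of_lt hlo hlh
  have h1 := fl_ups (P := P) hX hq h0 hs0 hs n hlo hlh.le
  have h2 : P.E (fun w => ∑ t ∈ range n, ind (fu hi lo q t w)) ≤
      (P.E (q 0) + ∑ t ∈ range n, P.E (s t)) / (hi - lo) := by
    rw [le_div_iff₀ (by linarith)]
    linarith
  have h3 : P.E (fun w => ind (fl hi lo q 0 w)) ≤ P.E (q 0) / hi := by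
    rw [le_div_iff₀ hhi, mul_comm, ← FP.E_smul]
    refine P.E_mono fun w hw => ?_
    by_cases h : fl hi lo q 0 w
    · rw [ind_of h, mul_one]
      exact h
    · rw [ind_not h, mul_zero]
      exact h0 0 w hw
  have h4 : P.E (fun w => ∑ t ∈ range n, ind (fdn hi lo q t w) * q (t + 1) w) ≤
      lo * (P.E (fun w => ∑ t ∈ range n, ind (fu hi lo q t w)) + P.E (fun w => ind (fl hi lo q 0 w))) := by
    rw [← FP.E_add, ← FP.E_smul]
    refine P.E_mono fun w _ => ?_
    have h5 : ∑ t ∈ range n, ind (fdn hi lo q t w) * q (t + 1) w ≤ lo * ∑ t ∈ range n, ind (fdn hi lo q t w) := by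
      rw [Finset.mul_sum]
      refine Finset.sum_le_sum fun t _ => ?_
      by_cases h : fdn hi lo q t w
      · rw [ind_of h, mul_one, one_mul]
        exact (fdn_lt h).le
      · rw [ind_not h, mul_zero, zero_mul]
    rw [fdn_count] at h5
    have h6 : 0 ≤ lo * ind (fl hi lo q n w) := mul_nonneg hlo (ind_nonneg _)
    nlinarith [h5, h6]
  exact h4.trans (mul_le_mul_of_nonneg_left (add_le_add h2 h3) hlo)

/-- **the tuple is seldom in `T` when the density of `T` drops** (`q t = P (T t | X t)`, `b t` = births) -/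
theorem drop_le (hX : Filt X) {Tt b : ℕ → Om → Prop} (hb : ∀ t w, P.p w ≠ 0 → Tt (t + 1) w → Tt t w ∨ b (t + 1) w)
    (n : ℕ) (hlo : 0 ≤ lo) (hlh : lo < hi) :
    P.Pr (fun w => ∃ t < n, fdn hi lo (fun t => P.ce (X t) (fun v => ind (Tt t v))) t w ∧ Tt (t + 1) w) ≤
      lo * ((P.Pr (Tt 0) + P.E (fun w => ∑ t ∈ range n, ind (b (t + 1) w))) / (hi - lo) + P.Pr (Tt 0) / hi) := by
  set q' : ℕ → Om → ℝ := fun t => P.ce (X t) (fun v => ind (Tt t v)) with hq'
  set s' : ℕ → Om → ℝ := fun t => P.ce (X t) (fun v => ind (b (t + 1) v)) with hs'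
  have hq : ∀ t, Fac (X t) (q' t) := fun t => P.ce_fac _ _
  have h0 : ∀ t w, P.p w ≠ 0 → 0 ≤ q' t w := fun t w _ => P.ce_nonneg (fun _ _ => ind_nonneg _) w
  have hs0 : ∀ t w, P.p w ≠ 0 → 0 ≤ s' t w := fun t w _ => P.ce_nonneg (fun _ _ => ind_nonneg _) w
  have hs1 : ∀ t w, P.p w ≠ 0 → P.ce (X t) (q' (t + 1)) w ≤ q' t w + s' t w := by
    intro t w _
    have e1 : P.ce (X t) (q' (t + 1)) w = P.ce (X t) (fun v => ind (Tt (t + 1) v)) w :=
      P.ce_tower (hX t) _ w
    rw [e1]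
    show _ ≤ P.ce (X t) (fun v => ind (Tt t v)) w + P.ce (X t) (fun v => ind (b (t + 1) v)) w
    rw [← P.ce_add]
    refine P.ce_mono (fun v hv => ?_) w
    by_cases h : Tt (t + 1) v
    · rw [ind_of h]
      rcases hb t v hv h with h1 | h1
      · rw [ind_of h1]
        linarith [ind_nonneg (b (t + 1) v)]
      · rw [ind_of h1]
        linarith [ind_nonneg (Tt t v)]
    · rw [ind_not h]
      exact add_nonneg (ind_nonneg _) (ind_nonneg _)
  have h1 := fl_drop (P := P) hX hq h0 hs0 hs1 n hlo hlh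
  have e0 : P.E (q' 0) = P.Pr (Tt 0) := P.E_ce _ _
  have e1 : ∑ t ∈ range n, P.E (s' t) = P.E (fun w => ∑ t ∈ range n, ind (b (t + 1) w)) := by
    rw [FP.E_sum]
    exact Finset.sum_congr rfl fun t _ => P.E_ce _ _
  rw [e0, e1] at h1
  refine le_trans ?_ h1
  have h2 : P.Pr (fun w => ∃ t < n, fdn hi lo q' t w ∧ Tt (t + 1) w) ≤
      ∑ t ∈ range n, P.Pr (fun w => fdn hi lo q' t w ∧ Tt (t + 1) w) := by
    refine le_trans (P.Pr_mono fun w _ hw => ?_) (P.Pr_ex_le (range n) _)
    obtain ⟨t, ht, h'⟩ := hw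
    exact ⟨t, mem_range.2 ht, h'⟩
  refine h2.trans ?_
  rw [FP.E_sum]
  refine Finset.sum_le_sum fun t _ => ?_
  have hf : Fac (X (t + 1)) (fun w => ind (fdn hi lo q' t w)) := Fac.ind fun v w hvw =>
    and_congr (fl_fac hX hq t v w (hX t v w hvw)) (not_congr (fl_fac hX hq (t + 1) v w hvw))
  have e2 : P.E (fun w => ind (fdn hi lo q' t w) * q' (t + 1) w) =
      P.E (fun w => ind (fdn hi lo q' t w) * ind (Tt (t + 1) w)) := P.E_mul_ce hf _
  rw [e2]
  unfold FP.Pr
  exact le_of_eq (P.E_congr fun w _ => ind_and _ _)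

end

end Pool.Agent.GMH.Upc
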