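import Pool.Agent.GMH.AntiHot
import Pool.Agent.GMH.Upc

/-!
# GMH/AH1 (helper24) : LEMMA AH1 of note 3993 (1), anti-hot with a ONE-SIDED entropy

`U t` = class with all own letters (refining), `F t` = the label (cumulative), `G t` = ANY companion (cumulative), no
bound on the entropy of `G`.
`dr P F G U = P(F|U) P(G|U) / P(F,G|U) = P(F|U) / P(F|G,U)` at the sample point.
* `Rs P F U t` = rise of `log P(F|U)` along the refinements of `U` (births of `F` not counted);
* `ah_super` : `dr exp (- Rs)` is a supermartingale for the filtration `(F, G, U)`;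
* `ah_start` : `E [dr | F, U] ≤ 1`;
* **`ah1`** : `P (exists t ≤ n, exp K ≤ dr) ≤ exp (h - K) (1 + (drops of H(F|U)) / (h - 1))`, and `ah1_created`:
  drops replaced by the entropy of `F` ever created.
-/

set_option autoImplicit false
set_option linter.unusedSectionVars false

namespace Pool.Agent.GMH.AH1

open Finset Pool.Agent.PWZ Pool.Agent.M3 Pool.Agent.GMH

variable {Om : Type*} [Fintype Om] {α α' β β' γ γ' : Type*}

noncomputable section

/-- probability of the own value given the class -/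
def cpo (P : FP Om) (F : Om → α) (U : Om → γ) (w : Om) : ℝ := P.m (fun v => (F v, U v)) w / P.m U w

/-- rise of the log probability of the own value along the refinements -/
def Rs (P : FP Om) {κ1 κ3 : ℕ → Type*} (F : ∀ t, Om → κ1 t) (U : ∀ t, Om → κ3 t) (t : ℕ) (w : Om) : ℝ :=
  ∑ s ∈ range t, (Real.log (cpo P (F s) (U (s + 1)) w) - Real.log (cpo P (F s) (U s) w))

end

variable (P : FP Om)

theorem cpo_pos (F : Om → α) (U : Om → γ) {w : Om} (hw : P.p w ≠ 0) : 0 < cpo P F U w :=
  div_pos (P.m_pos _ hw) (P.m_pos _ hw)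

theorem cpo_fac (F : Om → α) (U : Om → γ) : Fac (fun v => (F v, U v)) (cpo P F U) := by
  intro v w h
  have h2 : U v = U w := by
    simp only [Prod.mk.injEq] at h
    exact h.2
  unfold cpo
  rw [P.Fac_m (fun v => (F v, U v)) v w h, P.Fac_m U v w h2]

/-- the basic inequality: mass of a coarser label over the joint mass -/
theorem ratio_le {X : Om → α} {X' : Om → α'} (F : Om → β) (hX : Fac X' X) (w : Om) :
    P.ce (fun v => (F v, X v)) (fun v => P.m X' v / P.m (fun v => (F v, X' v)) v) w ≤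
      P.m X w / P.m (fun v => (F v, X v)) w := by
  have h := ce_ratio_le (F := X) (F' := X') (G := F) (U := fun _ : Om => ()) P
    (fun v w hvw => hX v w (by simp only [Prod.mk.injEq] at hvw; exact hvw.1)) w
  have e1 : ∀ v, P.m (fun v => (X v, ())) v = P.m X v := P.m_congr
    (fun a b hab => by simp only [Prod.mk.injEq] at hab; exact hab.1)
    (fun a b hab => by simp only [Prod.mk.injEq]; exact ⟨hab, trivial⟩)
  have e2 : ∀ v, P.m (fun v => (X' v, ())) v = P.m X' v := P.m_congr
    (fun a b hab => by simp only [Prod.mk.injEq] at hab; exact hab.1)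
    (fun a b hab => by simp only [Prod.mk.injEq]; exact ⟨hab, trivial⟩)
  have e3 : ∀ v, P.m (fun v => (X v, F v, ())) v = P.m (fun v => (F v, X v)) v := P.m_congr
    (fun a b hab => by simp only [Prod.mk.injEq] at hab ⊢; exact ⟨hab.2.1, hab.1⟩)
    (fun a b hab => by simp only [Prod.mk.injEq] at hab ⊢; exact ⟨hab.2, hab.1, trivial⟩)
  have e4 : ∀ v, P.m (fun v => (X' v, F v, ())) v = P.m (fun v => (F v, X' v)) v := P.m_congr
    (fun a b hab => by simp only [Prod.mk.injEq] at hab ⊢; exact ⟨hab.2.1, hab.1⟩)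
    (fun a b hab => by simp only [Prod.mk.injEq] at hab ⊢; exact ⟨hab.2, hab.1, trivial⟩)
  rw [e1 w, e3 w] at h
  refine le_trans (le_of_eq ?_) h
  rw [P.ce_congr_map (X := fun v => (F v, X v)) (Y := fun v => (X v, F v, ()))
    (fun a b hab => by simp only [Prod.mk.injEq] at hab ⊢; exact ⟨hab.2, hab.1, trivial⟩)
    (fun a b hab => by simp only [Prod.mk.injEq] at hab ⊢; exact ⟨hab.2.1, hab.1⟩)]
  refine P.ce_congr (fun v _ => ?_) w
  rw [e2 v, e4 v]

/-- the ratio as own probability over own probability with the companion -/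
theorem dr_eq (F : Om → α) (G : Om → β) (U : Om → γ) (w : Om) :
    dr P F G U w = cpo P F U w * (P.m (fun v => (G v, U v)) w / P.m (fun v => (F v, G v, U v)) w) := by
  unfold dr cpo
  rw [div_mul_div_comm, mul_comm (P.m (fun v => (F v, G v, U v)) w)]

/-- at any time the mean over the companion is at most one -/
theorem ah_start (F : Om → α) (G : Om → β) (U : Om → γ) {w : Om} (hw : P.p w ≠ 0) :
    P.ce (fun v => (F v, U v)) (dr P F G U) w ≤ 1 := by
  have h := ratio_le P (X := U) (X' := fun v => (G v, U v)) F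
    (fun a b hab => by simp only [Prod.mk.injEq] at hab; exact hab.2) w
  have e1 : P.ce (fun v => (F v, U v)) (dr P F G U) w = cpo P F U w *
      P.ce (fun v => (F v, U v)) (fun v => P.m (fun v => (G v, U v)) v / P.m (fun v => (F v, G v, U v)) v) w := by
    rw [← P.ce_mul (cpo_fac P F U)]
    exact P.ce_congr (fun v _ => dr_eq P F G U v) w
  rw [e1]
  refine (mul_le_mul_of_nonneg_left h (cpo_pos P F U hw).le).trans (le_of_eq ?_)
  unfold cpo
  have a := (P.m_pos U hw).ne'
  have b := (P.m_pos (fun v => (F v, U v)) hw).ne'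
  field_simp

/-- the refinement of class and companion: the rise of the own probability pays -/
theorem ah_ref (F : Om → α) {G : Om → β} {G' : Om → β'} {U : Om → γ} {U' : Om → γ'} (hU : Fac U' U)
    (hG : Fac (fun v => (G' v, U' v)) G) (w : Om) :
    P.ce (fun v => (F v, G v, U v)) (fun v => dr P F G' U' v * Real.exp (-(Real.log (cpo P F U' v) - Real.log (cpo P F U v)))) w ≤
      dr P F G U w := by
  have h := ratio_le P (X := fun v => (G v, U v)) (X' := fun v => (G' v, U' v)) F (fun a b hab => by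
    have h2 := hG a b hab
    simp only [Prod.mk.injEq] at hab ⊢
    exact ⟨h2, hU a b hab.2⟩) w
  have hf : Fac (fun v => (F v, G v, U v)) (cpo P F U) := Fac.trans (fun a b hab => by
    simp only [Prod.mk.injEq] at hab ⊢
    exact ⟨hab.1, hab.2.2⟩) (cpo_fac P F U)
  have e1 : P.ce (fun v => (F v, G v, U v)) (fun v => dr P F G' U' v *
      Real.exp (-(Real.log (cpo P F U' v) - Real.log (cpo P F U v)))) w = cpo P F U w *
      P.ce (fun v => (F v, G v, U v)) (fun v => P.m (fun v => (G' v, U' v)) v / P.m (fun v => (F v, G' v, U' v)) v) w := by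
    rw [← P.ce_mul hf]
    refine P.ce_congr (fun v hv => ?_) w
    have a := cpo_pos P F U hv
    have b := cpo_pos P F U' hv
    rw [neg_sub, Real.exp_sub, Real.exp_log a, Real.exp_log b, dr_eq]
    field_simp
  rw [e1, dr_eq]
  refine mul_le_mul_of_nonneg_left h ?_
  exact div_nonneg (P.m_nonneg _ _) (P.m_nonneg _ _)

/-- the own log probability alone: `E exp (- rise) ≤ 1` -/
theorem own_ref (F : Om → α) {U : Om → γ} {U' : Om → γ'} (hU : Fac U' U) {w : Om} (hw : P.p w ≠ 0) :
    P.ce (fun v => (F v, U v)) (fun v => Real.exp (-(Real.log (cpo P F U' v) - Real.log (cpo P F U v)))) w ≤ 1 := by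
  have h := ratio_le P (X := U) (X' := U') F hU w
  have e1 : P.ce (fun v => (F v, U v)) (fun v => Real.exp (-(Real.log (cpo P F U' v) - Real.log (cpo P F U v)))) w =
      cpo P F U w * P.ce (fun v => (F v, U v)) (fun v => P.m U' v / P.m (fun v => (F v, U' v)) v) w := by
    rw [← P.ce_mul (cpo_fac P F U)]
    refine P.ce_congr (fun v hv => ?_) w
    have a := cpo_pos P F U hv
    have b := cpo_pos P F U' hv
    rw [neg_sub, Real.exp_sub, Real.exp_log a, Real.exp_log b]
    unfold cpo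
    rw [div_div_eq_mul_div, mul_div_assoc]
  rw [e1]
  refine (mul_le_mul_of_nonneg_left h (cpo_pos P F U hw).le).trans (le_of_eq ?_)
  unfold cpo
  have a := (P.m_pos U hw).ne'
  have b := (P.m_pos (fun v => (F v, U v)) hw).ne'
  field_simp

/-! ### the process -/

variable {κ1 κ2 κ3 : ℕ → Type*} {F : ∀ t, Om → κ1 t} {G : ∀ t, Om → κ2 t} {U : ∀ t, Om → κ3 t}

theorem filt1 (hU : ∀ t, Fac (U (t + 1)) (U t)) (hF : ∀ t, Fac (fun v => (F (t + 1) v, U (t + 1) v)) (F t)) :
    Filt (fun t v => (F t v, U t v)) := by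
  intro t v w h
  have h1 := hF t v w h
  simp only [Prod.mk.injEq] at h ⊢
  exact ⟨h1, hU t v w h.2⟩

theorem filt2 (hU : ∀ t, Fac (U (t + 1)) (U t)) (hF : ∀ t, Fac (fun v => (F (t + 1) v, U (t + 1) v)) (F t))
    (hG : ∀ t, Fac (fun v => (G (t + 1) v, U (t + 1) v)) (G t)) : Filt (fun t v => (F t v, G t v, U t v)) := by
  intro t v w h
  simp only [Prod.mk.injEq] at h ⊢
  exact ⟨hF t v w (by simp only [h.1, h.2.2]), hG t v w (by simp only [h.2.1, h.2.2]), hU t v w h.2.2⟩

/-- one increment is a function of the label and the refined class -/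
theorem inc_fac (hU : ∀ t, Fac (U (t + 1)) (U t)) (t : ℕ) :
    Fac (fun v => (F t v, U (t + 1) v))
      (fun w => Real.log (cpo P (F t) (U (t + 1)) w) - Real.log (cpo P (F t) (U t) w)) := by
  refine Fac.sub ((cpo_fac P (F t) (U (t + 1))).comp _) (Fac.comp (Fac.trans (fun a b hab => ?_) (cpo_fac P (F t) (U t))) _)
  simp only [Prod.mk.injEq] at hab ⊢
  exact ⟨hab.1, hU t a b hab.2⟩

theorem Rs_succ (t : ℕ) (w : Om) : Rs P F U (t + 1) w =
    Rs P F U t w + (Real.log (cpo P (F t) (U (t + 1)) w) - Real.log (cpo P (F t) (U t) w)) :=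
  Finset.sum_range_succ _ _

theorem Rs_fac (hU : ∀ t, Fac (U (t + 1)) (U t)) (hF : ∀ t, Fac (fun v => (F (t + 1) v, U (t + 1) v)) (F t)) (t : ℕ) :
    Fac (fun v => (F t v, U t v)) (Rs P F U t) := by
  induction t with
  | zero =>
    intro v w _
    simp only [Rs, Finset.range_zero, Finset.sum_empty]
  | succ t ih =>
    intro v w h
    have h0 := filt1 hU hF t v w h
    have h1 : F t v = F t w := hF t v w h
    have h2 : U (t + 1) v = U (t + 1) w := by
      simp only [Prod.mk.injEq] at h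
      exact h.2
    have h3 : Real.log (cpo P (F t) (U (t + 1)) v) - Real.log (cpo P (F t) (U t) v) =
        Real.log (cpo P (F t) (U (t + 1)) w) - Real.log (cpo P (F t) (U t) w) :=
      inc_fac P (F := F) hU t v w (by simp only [h1, h2])
    rw [Rs_succ, Rs_succ, ih v w h0, h3]

/-- **the supermartingale**: `dr exp (- rise)` -/
theorem ah_super (hU : ∀ t, Fac (U (t + 1)) (U t)) (hF : ∀ t, Fac (fun v => (F (t + 1) v, U (t + 1) v)) (F t))
    (hG : ∀ t, Fac (fun v => (G (t + 1) v, U (t + 1) v)) (G t)) (t : ℕ) (w : Om) :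
    P.ce (fun v => (F t v, G t v, U t v)) (fun v => dr P (F (t + 1)) (G (t + 1)) (U (t + 1)) v *
      Real.exp (-Rs P F U (t + 1) v)) w ≤ dr P (F t) (G t) (U t) w * Real.exp (-Rs P F U t w) := by
  -- births of the label after the refinement
  have hfac : Fac (fun v => (F t v, G (t + 1) v, U (t + 1) v)) (fun v => (F t v, G t v, U t v)) := by
    intro a b hab
    simp only [Prod.mk.injEq] at hab ⊢
    exact ⟨hab.1, hG t a b (by simp only [hab.2.1, hab.2.2]), hU t a b hab.2.2⟩
  have hR0 : Fac (fun v => (F t v, G t v, U t v)) (fun v => Real.exp (-Rs P F U t v)) := by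
    have h1 : Fac (fun v => (F t v, G t v, U t v)) (Rs P F U t) := Fac.trans (fun a b hab => by
      simp only [Prod.mk.injEq] at hab ⊢
      exact ⟨hab.1, hab.2.2⟩) (Rs_fac P hU hF t)
    exact h1.comp (fun x => Real.exp (-x))
  have hR1 : Fac (fun v => (F t v, G (t + 1) v, U (t + 1) v)) (fun v => Real.exp (-Rs P F U (t + 1) v)) := by
    have h1 : Fac (fun v => (F t v, G (t + 1) v, U (t + 1) v)) (Rs P F U (t + 1)) := by
      intro a b hab
      have h2 := hfac a b hab
      simp only [Prod.mk.injEq] at hab h2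
      have h3 : Real.log (cpo P (F t) (U (t + 1)) a) - Real.log (cpo P (F t) (U t) a) =
          Real.log (cpo P (F t) (U (t + 1)) b) - Real.log (cpo P (F t) (U t) b) :=
        inc_fac P (F := F) hU t a b (by simp only [hab.1, hab.2.2])
      rw [Rs_succ, Rs_succ, Rs_fac P hU hF t a b (by simp only [h2.1, h2.2.2]), h3]
    exact h1.comp (fun x => Real.exp (-x))
  have h1 : P.ce (fun v => (F t v, G t v, U t v)) (fun v => dr P (F (t + 1)) (G (t + 1)) (U (t + 1)) v *
      Real.exp (-Rs P F U (t + 1) v)) w ≤ P.ce (fun v => (F t v, G t v, U t v))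
        (fun v => dr P (F t) (G (t + 1)) (U (t + 1)) v * Real.exp (-Rs P F U (t + 1) v)) w := by
    rw [← P.ce_tower hfac]
    refine P.ce_mono (fun v _ => ?_) w
    rw [P.ce_mul' hR1]
    exact mul_le_mul_of_nonneg_right (ce_dr_birth_left P (G (t + 1)) (hF t) v) (Real.exp_pos _).le
  refine h1.trans ?_
  have e1 : P.ce (fun v => (F t v, G t v, U t v)) (fun v => dr P (F t) (G (t + 1)) (U (t + 1)) v *
      Real.exp (-Rs P F U (t + 1) v)) w = P.ce (fun v => (F t v, G t v, U t v)) (fun v =>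
        (dr P (F t) (G (t + 1)) (U (t + 1)) v *
          Real.exp (-(Real.log (cpo P (F t) (U (t + 1)) v) - Real.log (cpo P (F t) (U t) v)))) * Real.exp (-Rs P F U t v)) w := by
    refine P.ce_congr (fun v _ => ?_) w
    rw [Rs_succ, neg_add, Real.exp_add]
    ring
  rw [e1, P.ce_mul' hR0]
  exact mul_le_mul_of_nonneg_right (ah_ref P (F t) (hU t) (hG t) w) (Real.exp_pos _).le

/-- `E exp (- rise) ≤ 1` for the own filtration -/
theorem Rs_step (hU : ∀ t, Fac (U (t + 1)) (U t)) (t : ℕ) {w : Om} (hw : P.p w ≠ 0) :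
    P.ce (fun v => (F t v, U t v)) (fun v => Real.exp (Rs P F U t v - Rs P F U (t + 1) v)) w ≤ 1 := by
  refine le_trans (le_of_eq ?_) (own_ref P (F t) (hU t) hw)
  refine P.ce_congr (fun v _ => ?_) w
  rw [Rs_succ]
  congr 1
  ring

theorem Rs_zero (w : Om) : Rs P F U 0 w = 0 := by
  simp only [Rs, Finset.range_zero, Finset.sum_empty]

/-- total rise = drops of the conditional entropies -/
theorem E_Rs (n : ℕ) : P.E (Rs P F U n) = ∑ t ∈ range n, (P.Hc (F t) (U t) - P.Hc (F t) (U (t + 1))) := by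
  have h1 : ∀ t, P.E (fun w => Real.log (cpo P (F t) (U (t + 1)) w) - Real.log (cpo P (F t) (U t) w)) =
      P.Hc (F t) (U t) - P.Hc (F t) (U (t + 1)) := by
    intro t
    unfold FP.Hc FP.H
    rw [← P.E_sub, ← P.E_sub, ← P.E_sub]
    refine P.E_congr fun w hw => ?_
    unfold cpo
    have a := (P.m_pos (U t) hw)
    have b := (P.m_pos (U (t + 1)) hw)
    have c := (P.m_pos (fun v => (F t v, U t v)) hw)
    have d := (P.m_pos (fun v => (F t v, U (t + 1) v)) hw)
    rw [Real.log_div d.ne' b.ne', Real.log_div c.ne' a.ne']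
    ring
  unfold Rs
  rw [P.E_sum]
  exact Finset.sum_congr rfl fun t _ => h1 t

/-- start events of the own filtration: the ratio exceeds the rise seldom -/
theorem ah_vil (hU : ∀ t, Fac (U (t + 1)) (U t)) (hF : ∀ t, Fac (fun v => (F (t + 1) v, U (t + 1) v)) (F t))
    (hG : ∀ t, Fac (fun v => (G (t + 1) v, U (t + 1) v)) (G t)) {s : ℕ} {e : Om → Prop}
    (he : ∀ v w, (F s v, U s v) = (F s w, U s w) → (e v ↔ e w)) (n : ℕ) (y : ℝ) :
    P.Pr (fun w => e w ∧ ∃ t, s ≤ t ∧ t ≤ s + n ∧ Real.exp (y + (Rs P F U t w - Rs P F U s w)) ≤ dr P (F t) (G t) (U t) w) ≤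
      Real.exp (-y) * P.Pr e := by
  set X : ∀ k, Om → κ1 (s + k) × κ2 (s + k) × κ3 (s + k) := fun k v => (F (s + k) v, G (s + k) v, U (s + k) v) with hX
  have fX : Filt X := fun k => filt2 hU hF hG (s + k)
  have f1 : Filt (fun t v => (F t v, U t v)) := filt1 hU hF
  have hXs : ∀ k, Fac (X k) (fun v => (F s v, U s v)) := by
    intro k v w h
    have h1 : (F (s + k) v, U (s + k) v) = (F (s + k) w, U (s + k) w) := by
      simp only [hX, Prod.mk.injEq] at h ⊢
      exact ⟨h.1, h.2.2⟩
    exact Filt.le f1 (Nat.le_add_right s k) v w h1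
  set c : Om → ℝ := fun w => ind (e w) * Real.exp (Rs P F U s w) with hc
  have hcs : Fac (fun v => (F s v, U s v)) c := by
    refine Fac.mul (Fac.ind he) ?_
    exact (Rs_fac P hU hF s).comp Real.exp
  have hc0 : ∀ w, 0 ≤ c w := fun w => mul_nonneg (ind_nonneg _) (Real.exp_pos _).le
  set Z : ℕ → Om → ℝ := fun k w => c w * (dr P (F (s + k)) (G (s + k)) (U (s + k)) w * Real.exp (-Rs P F U (s + k) w)) with hZd
  have hRk : ∀ k, Fac (X k) (Rs P F U (s + k)) := by
    intro k v w h
    refine Rs_fac P hU hF (s + k) v w ?_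
    simp only [hX, Prod.mk.injEq] at h ⊢
    exact ⟨h.1, h.2.2⟩
  have hZ : ∀ k, Fac (X k) (Z k) := by
    intro k
    refine Fac.mul ((hXs k).trans hcs) (Fac.mul (dr_fac P (F (s + k)) (G (s + k)) (U (s + k))) ?_)
    exact (hRk k).comp (fun x => Real.exp (-x))
  have h0 : ∀ k w, P.p w ≠ 0 → 0 ≤ Z k w := fun k w _ =>
    mul_nonneg (hc0 w) (mul_nonneg (dr_nonneg P _ _ _ w) (Real.exp_pos _).le)
  have hsup : ∀ k w, P.p w ≠ 0 → P.ce (X k) (Z (k + 1)) w ≤ Z k w + (fun (_ : ℕ) (_ : Om) => (0 : ℝ)) k w := by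
    intro k w _
    have e1 : P.ce (X k) (Z (k + 1)) w = c w * P.ce (X k) (fun v => dr P (F (s + k + 1)) (G (s + k + 1)) (U (s + k + 1)) v *
        Real.exp (-Rs P F U (s + k + 1) v)) w := P.ce_mul ((hXs k).trans hcs) _ w
    rw [e1]
    have h1 := ah_super P hU hF hG (s + k) w
    have h2 := mul_le_mul_of_nonneg_left h1 (hc0 w)
    simpa using h2
  have h1 := P.doob_super fX hZ h0 (fun _ _ _ => le_refl _) hsup n (Real.exp_pos y).le
  have h2 : P.E (Z 0) ≤ P.Pr e := by
    have e1 : P.E (Z 0) = P.E (fun w => ind (e w) * dr P (F s) (G s) (U s) w) := by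
      refine P.E_congr fun w _ => ?_
      show ind (e w) * Real.exp (Rs P F U s w) * (dr P (F s) (G s) (U s) w * Real.exp (-Rs P F U s w)) = _
      have h3 : Real.exp (Rs P F U s w) * Real.exp (-Rs P F U s w) = 1 := by
        rw [← Real.exp_add, add_neg_cancel, Real.exp_zero]
      calc ind (e w) * Real.exp (Rs P F U s w) * (dr P (F s) (G s) (U s) w * Real.exp (-Rs P F U s w)) =
          ind (e w) * dr P (F s) (G s) (U s) w * (Real.exp (Rs P F U s w) * Real.exp (-Rs P F U s w)) := by ring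
        _ = _ := by rw [h3, mul_one]
    rw [e1, ← P.E_mul_ce (Fac.ind he)]
    unfold FP.Pr
    refine P.E_mono fun w hw => ?_
    exact mul_le_of_le_one_right (ind_nonneg _) (ah_start P (F s) (G s) (U s) hw)
  have h3 : ∑ t ∈ range n, P.E ((fun (_ : ℕ) (_ : Om) => (0 : ℝ)) t) = 0 :=
    Finset.sum_eq_zero fun t _ => P.E_const 0
  rw [h3, add_zero] at h1
  have h4 : P.Pr (fun w => e w ∧ ∃ t, s ≤ t ∧ t ≤ s + n ∧
      Real.exp (y + (Rs P F U t w - Rs P F U s w)) ≤ dr P (F t) (G t) (U t) w) ≤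
      P.Pr (fun w => ∃ t ≤ n, Real.exp y ≤ Z t w) := by
    refine P.Pr_mono fun w _ hw => ?_
    obtain ⟨h5, t, h6, h7, h8⟩ := hw
    refine ⟨t - s, by omega, ?_⟩
    have h9 : s + (t - s) = t := by omega
    show Real.exp y ≤ ind (e w) * Real.exp (Rs P F U s w) * (dr P (F (s + (t - s))) (G (s + (t - s))) (U (s + (t - s))) w *
      Real.exp (-Rs P F U (s + (t - s)) w))
    rw [ind_of h5, one_mul, h9]
    have h10 := mul_le_mul_of_nonneg_left h8 (mul_nonneg (Real.exp_pos (Rs P F U s w)).le (Real.exp_pos (-Rs P F U t w)).le)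
    have h11 : Real.exp (Rs P F U s w) * Real.exp (-Rs P F U t w) * Real.exp (y + (Rs P F U t w - Rs P F U s w)) =
        Real.exp y := by
      rw [← Real.exp_add, ← Real.exp_add]
      congr 1
      ring
    rw [h11] at h10
    refine h10.trans (le_of_eq ?_)
    ring
  have h5 : Real.exp (-y) * (Real.exp y * P.Pr (fun w => ∃ t ≤ n, Real.exp y ≤ Z t w)) =
      P.Pr (fun w => ∃ t ≤ n, Real.exp y ≤ Z t w) := by
    rw [← mul_assoc, ← Real.exp_add, neg_add_cancel, Real.exp_zero, one_mul]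
  have h6 := mul_le_mul_of_nonneg_left (h1.trans h2) (Real.exp_pos (-y)).le
  rw [h5] at h6
  exact h4.trans h6

/-- a restart at time `s`: the start, or the end of a rise at the step `s - 1 → s` -/
def Rst (P : FP Om) {κ1 κ3 : ℕ → Type*} (F : ∀ t, Om → κ1 t) (U : ∀ t, Om → κ3 t) (h : ℝ) (s : ℕ) (w : Om) : Prop :=
  s = 0 ∨ ∃ r, s = r + 1 ∧ Upc.rs (Rs P F U) h r w

/-- before time `t` there is a last restart, and the rise since then is at most `h` -/
theorem last_rst {h : ℝ} (hh : 0 < h) (t : ℕ) (w : Om) :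
    ∃ s ≤ t, Rst P F U h s w ∧ Rs P F U t w - Rs P F U s w ≤ h := by
  classical
  set S : Finset ℕ := (range (t + 1)).filter (fun s => Rst P F U h s w) with hS
  have hne : S.Nonempty := ⟨0, by simp only [hS, Finset.mem_filter, Finset.mem_range]; exact ⟨by omega, Or.inl rfl⟩⟩
  set s := S.max' hne with hs
  have hsS : s ∈ S := Finset.max'_mem S hne
  simp only [hS, Finset.mem_filter, Finset.mem_range] at hsS
  refine ⟨s, by omega, hsS.2, ?_⟩
  by_contra hcon
  push Not at hcon
  obtain ⟨r, h1, h2, h3⟩ := Upc.rise_ex (R := Rs P F U) (h := h) (s := s) (t := t) (w := w) hh (by omega) (by linarith)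
  have h4 : r + 1 ∈ S := by
    simp only [hS, Finset.mem_filter, Finset.mem_range]
    exact ⟨by omega, Or.inr ⟨r, rfl, h3⟩⟩
  have h5 := Finset.le_max' S (r + 1) h4
  omega

/-- **LEMMA AH1** -/
theorem ah1 (hU : ∀ t, Fac (U (t + 1)) (U t)) (hF : ∀ t, Fac (fun v => (F (t + 1) v, U (t + 1) v)) (F t))
    (hG : ∀ t, Fac (fun v => (G (t + 1) v, U (t + 1) v)) (G t)) (n : ℕ) {h K : ℝ} (hh : 1 < h) :
    P.Pr (fun w => ∃ t ≤ n, Real.exp K ≤ dr P (F t) (G t) (U t) w) ≤
      Real.exp (h - K) * (1 + (∑ t ∈ range n, (P.Hc (F t) (U t) - P.Hc (F t) (U (t + 1)))) / (h - 1)) := by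
  have f1 : Filt (fun t v => (F t v, U t v)) := filt1 hU hF
  have hRf : ∀ t, Fac (fun v => (F t v, U t v)) (Rs P F U t) := fun t => Rs_fac P hU hF t
  have hev : ∀ s v w, (F s v, U s v) = (F s w, U s w) → (Rst P F U h s v ↔ Rst P F U h s w) := by
    intro s v w hvw
    unfold Rst
    refine or_congr Iff.rfl (exists_congr fun r => ?_)
    refine and_congr_right fun hr => ?_
    subst hr
    exact Upc.rs_fac (X := fun t v => (F t v, U t v)) f1 hRf h r hvw
  -- the union over the restarts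
  have h1 : P.Pr (fun w => ∃ t ≤ n, Real.exp K ≤ dr P (F t) (G t) (U t) w) ≤
      ∑ s ∈ range (n + 1), P.Pr (fun w => Rst P F U h s w ∧ ∃ t, s ≤ t ∧ t ≤ s + n ∧
        Real.exp ((K - h) + (Rs P F U t w - Rs P F U s w)) ≤ dr P (F t) (G t) (U t) w) := by
    refine le_trans (P.Pr_mono fun w _ hw => ?_) (P.Pr_ex_le (range (n + 1)) _)
    obtain ⟨t, ht, h2⟩ := hw
    obtain ⟨s, hs, h3, h4⟩ := last_rst P (F := F) (U := U) (h := h) (by linarith) t w
    refine ⟨s, mem_range.2 (by omega), h3, t, hs, by omega, le_trans ?_ h2⟩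
    exact Real.exp_le_exp.2 (by linarith)
  have h2 : ∀ s ∈ range (n + 1), P.Pr (fun w => Rst P F U h s w ∧ ∃ t, s ≤ t ∧ t ≤ s + n ∧
        Real.exp ((K - h) + (Rs P F U t w - Rs P F U s w)) ≤ dr P (F t) (G t) (U t) w) ≤
      Real.exp (h - K) * P.Pr (Rst P F U h s) := by
    intro s _
    have h3 := ah_vil P hU hF hG (s := s) (e := Rst P F U h s) (hev s) n (K - h)
    rw [neg_sub] at h3
    exact h3
  refine h1.trans ((Finset.sum_le_sum h2).trans ?_)
  rw [← Finset.mul_sum]
  refine mul_le_mul_of_nonneg_left ?_ (Real.exp_pos _).le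
  rw [Finset.sum_range_succ', add_comm]
  refine add_le_add ?_ ?_
  · exact P.Pr_le_one _
  · have h3 : ∀ r, P.Pr (Rst P F U h (r + 1)) = P.E (fun w => ind (Upc.rs (Rs P F U) h r w)) := by
      intro r
      unfold FP.Pr
      refine P.E_congr fun w _ => ?_
      congr 1
      refine propext ⟨fun h4 => ?_, fun h4 => Or.inr ⟨r, rfl, h4⟩⟩
      rcases h4 with h4 | ⟨r', h4, h5⟩
      · omega
      · have : r' = r := by omega
        subst this
        exact h5
    rw [Finset.sum_congr rfl fun r _ => h3 r, ← P.E_sum, le_div_iff₀ (by linarith), mul_comm]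
    refine (Upc.rises (X := fun t v => (F t v, U t v)) f1 hRf (fun t w hw => Rs_step P hU t hw) h n).trans (le_of_eq ?_)
    rw [E_Rs, P.E_congr (g := fun _ => 0) (fun w _ => Rs_zero P w), P.E_const, sub_zero]

/-- **LEMMA AH1, entropy of `F` ever created** (given the new class) -/
theorem ah1_created (hU : ∀ t, Fac (U (t + 1)) (U t)) (hF : ∀ t, Fac (fun v => (F (t + 1) v, U (t + 1) v)) (F t))
    (hG : ∀ t, Fac (fun v => (G (t + 1) v, U (t + 1) v)) (G t)) (n : ℕ) {h K : ℝ} (hh : 1 < h) :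
    P.Pr (fun w => ∃ t ≤ n, Real.exp K ≤ dr P (F t) (G t) (U t) w) ≤
      Real.exp (h - K) * (1 + (P.Hc (F 0) (U 0) +
        ∑ t ∈ range n, (P.Hc (F (t + 1)) (U (t + 1)) - P.Hc (F t) (U (t + 1)))) / (h - 1)) := by
  refine (ah1 P hU hF hG n hh).trans ?_
  have h3 : ∀ n, ∑ t ∈ range n, (P.Hc (F t) (U t) - P.Hc (F t) (U (t + 1))) =
      P.Hc (F 0) (U 0) + ∑ t ∈ range n, (P.Hc (F (t + 1)) (U (t + 1)) - P.Hc (F t) (U (t + 1))) - P.Hc (F n) (U n) := by
    intro n
    induction n with
    | zero => simp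
    | succ n ih => rw [Finset.sum_range_succ, Finset.sum_range_succ, ih]; ring
  have h5 := P.Hc_nonneg (F n) (U n)
  refine mul_le_mul_of_nonneg_left (add_le_add le_rfl ?_) (Real.exp_pos _).le
  refine div_le_div_of_nonneg_right ?_ (by linarith)
  rw [h3 n]
  linarith

end Pool.Agent.GMH.AH1
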