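import Pool.Agent.GMH.Bef
import Pool.Agent.M3.KL

/-!
# GMH/BefT (helper99): UNDECIDED VERTICES WITH TABLES: three vertex sights, three face sights

`Tri P nd V Y` : `nd s` = node, `V v s` = exact vertex `v` and the cells of the others, `Y i s` = the two exact vertices `≠ i`, the
cell of `i` and the table of the face `i` (the face which misses the vertex `i`).

* `tri_cond` : `Tri` in the law given an event of the node; `ci_cond` : `CI` in the law given an event of the sight;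
* `hxy`, `gx`, `r0` : one vertex `v`, the two vertices of the face `i`, all three vertices (stopping time `σ`);
* `hxy_at`, `gx_at`, `r0_at` : a fixed time; `hxy_sum`, `gx_sum`, `r0_sum` : the sum over all the times.
-/

set_option autoImplicit false
set_option linter.unusedSectionVars false

namespace Pool.Agent.GMH.BefT

open Finset Pool.Agent.PWZ Pool.Agent.M3 Pool.Agent.GMH.Gdy Pool.Agent.GMH.CR Pool.Agent.GMH.Three
open Pool.Agent.GMH.Blk
open Pool.Agent.GMH.Bef (ud one)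

noncomputable section

variable {Om : Type*} [Fintype Om] {P : FP Om} {ν : ℕ → Type*} {κ κ' : Fin 3 → ℕ → Type*} {nd : ∀ t, Om → ν t}
  {V : ∀ v t, Om → κ v t} {Y : ∀ i t, Om → κ' i t}

/-- node, vertex sights, face sights -/
structure Tri (P : FP Om) (nd : ∀ t, Om → ν t) (V : ∀ v t, Om → κ v t) (Y : ∀ i t, Om → κ' i t) : Prop where
  ci : ∀ v i j, v ≠ i → v ≠ j → i ≠ j → CI P (V v) (Y i) (Y j)
  cn : ∀ v v', v ≠ v' → CI P nd (V v) (V v')
  fn : Filt nd
  fV : ∀ v, Filt (V v)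
  fY : ∀ i, Filt (Y i)
  vn : ∀ v s, Fac (V v s) (nd s)
  yv : ∀ i v s, v ≠ i → Fac (Y i s) (V v s)

/-! ## conditional laws -/

theorem cond_ce {κ : Type*} {Z : Om → κ} {A : Om → Prop} (hA : P.Pr A ≠ 0) (f : Om → ℝ) {w : Om}
    (hw : ∀ v, Z v = Z w → A v) : (P.cond A).ce Z f w = P.ce Z f w := by
  have h1 : ∀ g : Om → ℝ, P.E (fun v => ind (A v) * (ind (Z v = Z w) * g v)) = P.E (fun v => ind (Z v = Z w) * g v) :=
    fun g => P.E_congr fun v _ => by
      by_cases hv : Z v = Z w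
      · rw [ind_of (hw v hv), one_mul]
      · rw [ind_not hv]; ring
  unfold FP.ce
  rw [FP.cond_E hA, FP.cond_m hA, h1 f]
  have h2 := h1 (fun _ => 1)
  simp only [mul_one] at h2
  rw [h2]
  show P.E (fun v => ind (Z v = Z w) * f v) / P.Pr A / (P.m Z w / P.Pr A) = _
  rw [div_div_div_cancel_right₀ hA]

/-- `CI` given an event of the sight -/
theorem ci_cond {κ κ' κ'' : ℕ → Type*} {N : ∀ t, Om → κ t} {Yc : ∀ t, Om → κ' t} {Yd : ∀ t, Om → κ'' t}
    {A : Om → Prop} (hA : P.Pr A ≠ 0) (hN : ∀ s x w, N s x = N s w → (A x ↔ A w)) (h : CI P N Yc Yd) :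
    CI (P.cond A) N Yc Yd := by
  intro s f g hf hg w hw
  have h1 := (FP.cond_p_ne hA).1 hw
  have h2 : ∀ v, N s v = N s w → A v := fun v e => (hN s v w e).2 h1.1
  rw [cond_ce hA _ h2, cond_ce hA _ h2, cond_ce hA _ h2]
  exact h s f g hf hg w h1.2

/-- densities given an event of the sight -/
theorem cp_cond {κ : ℕ → Type*} {N : ∀ t, Om → κ t} {A : Om → Prop} (hA : P.Pr A ≠ 0)
    (hN : ∀ s x w, N s x = N s w → (A x ↔ A w)) (s : ℕ) (B : Om → Prop) {w : Om} (hw : (P.cond A).p w ≠ 0) :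
    cp (P.cond A) N s B w = cp P N s B w :=
  cond_ce hA _ fun v e => (hN s v w e).2 ((FP.cond_p_ne hA).1 hw).1

theorem tri_cond {A : Om → Prop} (hA : P.Pr A ≠ 0) (hn : ∀ s x w, nd s x = nd s w → (A x ↔ A w)) (H : Tri P nd V Y) :
    Tri (P.cond A) nd V Y where
  ci v i j h1 h2 h3 := ci_cond hA (fun s x w e => hn s x w (H.vn v s x w e)) (H.ci v i j h1 h2 h3)
  cn v v' h := ci_cond hA hn (H.cn v v' h)
  fn := H.fn
  fV := H.fV
  fY := H.fY
  vn := H.vn
  yv := H.yv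

/-! ## undecided at the end -/

variable {R : Fin 3 → ℕ → Om → Prop} {k : ℕ → Om → Prop} {act : Fin 3 → ℕ → Om → Prop} {K : Om → Prop} {q : ℝ}
  {σ : Om → ℕ} {T : ℕ}

/-- **ONE VERTEX `v`**, `σ` and `k` see the exact `v` -/
theorem hxy (H : Tri P nd V Y) {v i j : Fin 3} (hi : v ≠ i) (hj : v ≠ j) (hij : i ≠ j) (hσ : Stp (V v) σ)
    (hk : ∀ s x w, V v s x = V v s w → (k s x ↔ k s w))
    (ha : ∀ i s x w, Y i s x = Y i s w → (act i s x ↔ act i s w))
    (hK : ∀ w, P.p w ≠ 0 → K w → ud P (V v) (R v) q (σ w) w) :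
    P.Pr (fun w => K w ∧ k (σ w) w ∧ act i (σ w) w ∧ act j (σ w) w) ≤
      Real.sqrt q * ((P.Pr (fun w => k (σ w) w ∧ act i (σ w) w) + P.Pr (fun w => k (σ w) w ∧ act j (σ w) w)) / 2) :=
  (P.Pr_mono fun w hw h => ⟨hK w hw h.1, h.2⟩).trans
    (one (H.ci v i j hi hj hij) (H.fV v) hσ (fun s => H.yv i v s hi) (fun s => H.yv j v s hj) hk (ha i) (ha j))

/-- **THE TWO VERTICES OF THE FACE `i`** : the face `i` is active and another one -/
theorem gx (H : Tri P nd V Y) {i j l : Fin 3} (hij : i ≠ j) (hil : i ≠ l) (hjl : j ≠ l) (hσ : Stp nd σ)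
    (hk : ∀ s x w, nd s x = nd s w → (k s x ↔ k s w)) (ha : ∀ i s x w, Y i s x = Y i s w → (act i s x ↔ act i s w))
    (hj : ∀ w, P.p w ≠ 0 → K w → ud P (V j) (R j) q (σ w) w)
    (hl : ∀ w, P.p w ≠ 0 → K w → ud P (V l) (R l) q (σ w) w) :
    P.Pr (fun w => K w ∧ k (σ w) w ∧ act i (σ w) w ∧ (act j (σ w) w ∨ act l (σ w) w)) ≤
      Real.sqrt q * (P.Pr (fun w => k (σ w) w ∧ act i (σ w) w) +
        (P.Pr (fun w => k (σ w) w ∧ act j (σ w) w) + P.Pr (fun w => k (σ w) w ∧ act l (σ w) w)) / 2) := by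
  have h1 := hxy (R := R) (k := k) H (v := l) (i := i) (j := j) hil.symm hjl.symm hij
    (fun s v w e => hσ s v w (H.vn l s v w e)) (fun s x w e => hk s x w (H.vn l s x w e)) ha hl
  have h2 := hxy (R := R) (k := k) H (v := j) (i := i) (j := l) hij.symm hjl hil
    (fun s v w e => hσ s v w (H.vn j s v w e)) (fun s x w e => hk s x w (H.vn j s x w e)) ha hj
  have h3 : P.Pr (fun w => K w ∧ k (σ w) w ∧ act i (σ w) w ∧ (act j (σ w) w ∨ act l (σ w) w)) ≤
      P.Pr (fun w => K w ∧ k (σ w) w ∧ act i (σ w) w ∧ act j (σ w) w) +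
        P.Pr (fun w => K w ∧ k (σ w) w ∧ act i (σ w) w ∧ act l (σ w) w) :=
    (P.Pr_mono fun w _ h => h.2.2.2.elim (fun y => Or.inl ⟨h.1, h.2.1, h.2.2.1, y⟩)
      fun z => Or.inr ⟨h.1, h.2.1, h.2.2.1, z⟩).trans (P.Pr_or_le _ _)
  linarith

/-- **ALL THREE VERTICES**, two active faces -/
theorem r0 (H : Tri P nd V Y) (hσ : Stp nd σ) (hk : ∀ s x w, nd s x = nd s w → (k s x ↔ k s w))
    (ha : ∀ i s x w, Y i s x = Y i s w → (act i s x ↔ act i s w))
    (hK : ∀ w, P.p w ≠ 0 → K w → ∀ v, ud P (V v) (R v) q (σ w) w) :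
    P.Pr (fun w => K w ∧ k (σ w) w ∧ ∃ i j, i ≠ j ∧ act i (σ w) w ∧ act j (σ w) w) ≤
      Real.sqrt q * ∑ i, P.Pr (fun w => k (σ w) w ∧ act i (σ w) w) := by
  have h1 := gx (R := R) (k := k) (i := 0) (j := 1) (l := 2) H (by decide) (by decide) (by decide) hσ hk ha
    (fun w hw h => hK w hw h 1) (fun w hw h => hK w hw h 2)
  have h2 := hxy (R := R) (k := k) H (v := 0) (i := 1) (j := 2) (by decide) (by decide) (by decide)
    (fun s v w e => hσ s v w (H.vn 0 s v w e)) (fun s x w e => hk s x w (H.vn 0 s x w e)) ha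
    (fun w hw h => hK w hw h 0)
  have h3 : P.Pr (fun w => K w ∧ k (σ w) w ∧ ∃ i j, i ≠ j ∧ act i (σ w) w ∧ act j (σ w) w) ≤
      P.Pr (fun w => K w ∧ k (σ w) w ∧ act 0 (σ w) w ∧ (act 1 (σ w) w ∨ act 2 (σ w) w)) +
        P.Pr (fun w => K w ∧ k (σ w) w ∧ act 1 (σ w) w ∧ act 2 (σ w) w) := by
    refine (P.Pr_mono fun w _ h => ?_).trans (P.Pr_or_le _ _)
    obtain ⟨a, b, i, j, hij, x, y⟩ := h
    by_cases h0 : act 0 (σ w) w
    · have h4 : act 1 (σ w) w ∨ act 2 (σ w) w := by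
        fin_cases i
        · fin_cases j
          · exact absurd rfl hij
          · exact Or.inl y
          · exact Or.inr y
        · exact Or.inl x
        · exact Or.inr x
      exact Or.inl ⟨a, b, h0, h4⟩
    · refine Or.inr ⟨a, b, ?_⟩
      fin_cases i
      · exact absurd x h0
      · fin_cases j
        · exact absurd y h0
        · exact absurd rfl hij
        · exact ⟨x, y⟩
      · fin_cases j
        · exact absurd y h0
        · exact ⟨y, x⟩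
        · exact absurd rfl hij
  rw [Fin.sum_univ_three]
  linarith

/-! ## a fixed time -/

variable {Ks : ℕ → Om → Prop}

theorem stp_const {κ : ℕ → Type*} {N : ∀ t, Om → κ t} (s : ℕ) : Stp N (fun _ => s) := fun _ _ _ _ => Iff.rfl

theorem hxy_at (H : Tri P nd V Y) {v i j : Fin 3} (hi : v ≠ i) (hj : v ≠ j) (hij : i ≠ j)
    (hk : ∀ s x w, V v s x = V v s w → (k s x ↔ k s w))
    (ha : ∀ i s x w, Y i s x = Y i s w → (act i s x ↔ act i s w)) (s : ℕ)
    (hK : ∀ w, P.p w ≠ 0 → K w → ud P (V v) (R v) q s w) :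
    P.Pr (fun w => K w ∧ k s w ∧ act i s w ∧ act j s w) ≤
      Real.sqrt q * ((P.Pr (fun w => k s w ∧ act i s w) + P.Pr (fun w => k s w ∧ act j s w)) / 2) :=
  hxy (σ := fun _ => s) H hi hj hij (stp_const s) hk ha hK

theorem gx_at (H : Tri P nd V Y) {i j l : Fin 3} (hij : i ≠ j) (hil : i ≠ l) (hjl : j ≠ l)
    (hk : ∀ s x w, nd s x = nd s w → (k s x ↔ k s w)) (ha : ∀ i s x w, Y i s x = Y i s w → (act i s x ↔ act i s w))
    (s : ℕ) (hj : ∀ w, P.p w ≠ 0 → K w → ud P (V j) (R j) q s w)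
    (hl : ∀ w, P.p w ≠ 0 → K w → ud P (V l) (R l) q s w) :
    P.Pr (fun w => K w ∧ k s w ∧ act i s w ∧ (act j s w ∨ act l s w)) ≤
      Real.sqrt q * (P.Pr (fun w => k s w ∧ act i s w) +
        (P.Pr (fun w => k s w ∧ act j s w) + P.Pr (fun w => k s w ∧ act l s w)) / 2) :=
  gx (σ := fun _ => s) H hij hil hjl (stp_const s) hk ha hj hl

theorem r0_at (H : Tri P nd V Y) (hk : ∀ s x w, nd s x = nd s w → (k s x ↔ k s w))
    (ha : ∀ i s x w, Y i s x = Y i s w → (act i s x ↔ act i s w)) (s : ℕ)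
    (hK : ∀ w, P.p w ≠ 0 → K w → ∀ v, ud P (V v) (R v) q s w) :
    P.Pr (fun w => K w ∧ k s w ∧ ∃ i j, i ≠ j ∧ act i s w ∧ act j s w) ≤
      Real.sqrt q * ∑ i, P.Pr (fun w => k s w ∧ act i s w) :=
  r0 (σ := fun _ => s) H (stp_const s) hk ha hK

/-! ## the sum over the times -/

theorem hxy_sum (H : Tri P nd V Y) {v i j : Fin 3} (hi : v ≠ i) (hj : v ≠ j) (hij : i ≠ j)
    (hk : ∀ s x w, V v s x = V v s w → (k s x ↔ k s w))
    (ha : ∀ i s x w, Y i s x = Y i s w → (act i s x ↔ act i s w)) (T : ℕ)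
    (hK : ∀ s w, P.p w ≠ 0 → Ks s w → ud P (V v) (R v) q s w) :
    ∑ s ∈ range T, P.Pr (fun w => Ks s w ∧ k s w ∧ act i s w ∧ act j s w) ≤
      Real.sqrt q * ((∑ s ∈ range T, P.Pr (fun w => k s w ∧ act i s w) +
        ∑ s ∈ range T, P.Pr (fun w => k s w ∧ act j s w)) / 2) := by
  rw [← Finset.sum_add_distrib, Finset.sum_div, Finset.mul_sum]
  exact Finset.sum_le_sum fun s _ => hxy_at H hi hj hij hk ha s (hK s)

theorem gx_sum (H : Tri P nd V Y) {i j l : Fin 3} (hij : i ≠ j) (hil : i ≠ l) (hjl : j ≠ l)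
    (hk : ∀ s x w, nd s x = nd s w → (k s x ↔ k s w)) (ha : ∀ i s x w, Y i s x = Y i s w → (act i s x ↔ act i s w))
    (T : ℕ) (hj : ∀ s w, P.p w ≠ 0 → Ks s w → ud P (V j) (R j) q s w)
    (hl : ∀ s w, P.p w ≠ 0 → Ks s w → ud P (V l) (R l) q s w) :
    ∑ s ∈ range T, P.Pr (fun w => Ks s w ∧ k s w ∧ act i s w ∧ (act j s w ∨ act l s w)) ≤
      Real.sqrt q * (∑ s ∈ range T, P.Pr (fun w => k s w ∧ act i s w) +
        (∑ s ∈ range T, P.Pr (fun w => k s w ∧ act j s w) +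
          ∑ s ∈ range T, P.Pr (fun w => k s w ∧ act l s w)) / 2) := by
  rw [← Finset.sum_add_distrib, Finset.sum_div, ← Finset.sum_add_distrib, Finset.mul_sum]
  exact Finset.sum_le_sum fun s _ => gx_at H hij hil hjl hk ha s (hj s) (hl s)

theorem r0_sum (H : Tri P nd V Y) (hk : ∀ s x w, nd s x = nd s w → (k s x ↔ k s w))
    (ha : ∀ i s x w, Y i s x = Y i s w → (act i s x ↔ act i s w)) (T : ℕ)
    (hK : ∀ s w, P.p w ≠ 0 → Ks s w → ∀ v, ud P (V v) (R v) q s w) :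
    ∑ s ∈ range T, P.Pr (fun w => Ks s w ∧ k s w ∧ ∃ i j, i ≠ j ∧ act i s w ∧ act j s w) ≤
      Real.sqrt q * ∑ i, ∑ s ∈ range T, P.Pr (fun w => k s w ∧ act i s w) := by
  rw [Finset.sum_comm, Finset.mul_sum]
  exact Finset.sum_le_sum fun s _ => r0_at H hk ha s (hK s)

end

end Pool.Agent.GMH.BefT
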