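import Pool.Agent.GMH.GhoZ6

/-!
# GMH/GhoH (helper85): THREE ACTIVE FACES BEFORE `T^0` (kind `HT`, H3.UNM), fixed `a`

* `lwf` : Loomis - Whitney at a node for functions with values in `[0, 1]`;
* `before3` : `E 1_(R, density of R at sigma < u) X Y Z ≤ t (E X + E Y + E Z) / 3`, `u ≤ t ^ 3`, `σ` a stopping time of the
  nodes, `X`, `Y`, `Z` = activities at the end, each seen by the two exact points of its face.
-/

set_option autoImplicit false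
set_option linter.unusedSectionVars false

namespace Pool.Agent.GMH.GhoH

open Finset Pool.Agent.PWZ Pool.Agent.M3 Pool.Agent.GMH.Gdy Pool.Agent.GMH.CR Pool.Agent.GMH.Three
open Pool.Agent.GMH.Blk Pool.Agent.GMH.GhoV Pool.Agent.GMH.GhoLW
open Pool.Agent.GMH.Tree (stp_le stp_eq)

noncomputable section

variable {Om : Type*} [Fintype Om] {P : FP Om} {κ κb κc κ1 κ2 κ3 : ℕ → Type*} {nd : ∀ t, Om → κ t}
  {Nb : ∀ t, Om → κb t} {Nc : ∀ t, Om → κc t} {Y1 : ∀ t, Om → κ1 t} {Y2 : ∀ t, Om → κ2 t} {Y3 : ∀ t, Om → κ3 t}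
  {R : Om → Prop} {T : ℕ}

/-- **LOOMIS - WHITNEY** for functions -/
theorem lwf (h0 : CI P nd Nb Nc) (hb : CI P Nb Y1 Y2) (hc : CI P Nc Y1 Y3) {s : ℕ} (f1 : Fac (Y1 s) (Nb s))
    (f2 : Fac (Y1 s) (Nc s)) (f3 : Fac (Nb s) (nd s)) (f4 : Fac (Nc s) (nd s)) {g1 g2 g3 : Om → ℝ}
    (k1 : Fac (Y1 s) g1) (k2 : Fac (Y2 s) g2) (k3 : Fac (Y3 s) g3) (p1 : ∀ w, 0 ≤ g1 w) (p2 : ∀ w, 0 ≤ g2 w)
    (p3 : ∀ w, 0 ≤ g3 w) (l1 : ∀ w, g1 w ≤ 1) (l2 : ∀ w, g2 w ≤ 1) (l3 : ∀ w, g3 w ≤ 1) {w : Om} (hw : P.p w ≠ 0) :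
    P.ce (nd s) (fun x => g1 x * (g2 x * g3 x)) w ^ 2 ≤ P.ce (nd s) g1 w * (P.ce (nd s) g2 w * P.ce (nd s) g3 w) := by
  have sq : ∀ {g : Om → ℝ}, (∀ w, 0 ≤ g w) → (∀ w, g w ≤ 1) → ∀ w, g w ^ 2 ≤ g w := fun a b w => by
    nlinarith [a w, b w]
  set u : Om → ℝ := P.ce (Y1 s) (fun x => g2 x * g3 x) with hu
  have e1 : P.ce (nd s) (fun x => g1 x * (g2 x * g3 x)) w = P.ce (nd s) (fun x => g1 x * u x) w := by
    rw [← P.ce_tower (f1.trans f3) (fun x => g1 x * (g2 x * g3 x)) w]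
    refine P.ce_congr (fun v hv => ?_) w
    rw [hu, ← P.ce_mul k1]
  have e2 : ∀ v, P.p v ≠ 0 → u v ^ 2 ≤ P.ce (Nb s) g2 v * P.ce (Nc s) g3 v := by
    intro v hv
    have h1 := P.ce_mul_sq_le (Y1 s) g2 g3 v
    have h2 : P.ce (Y1 s) (fun x => g2 x ^ 2) v ≤ P.ce (Nb s) g2 v := by
      rw [← ci_ce hb f1 k2 hv]
      exact P.ce_mono (fun x _ => sq p2 l2 x) v
    have h3 : P.ce (Y1 s) (fun x => g3 x ^ 2) v ≤ P.ce (Nc s) g3 v := by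
      rw [← ci_ce hc f2 k3 hv]
      exact P.ce_mono (fun x _ => sq p3 l3 x) v
    exact h1.trans (mul_le_mul h2 h3 (P.ce_nonneg (fun x _ => sq_nonneg _) v) (P.ce_nonneg (fun x _ => p2 x) v))
  have e3 : P.ce (nd s) (fun x => u x ^ 2) w ≤ P.ce (nd s) g2 w * P.ce (nd s) g3 w := by
    refine (P.ce_mono (fun v hv => e2 v hv) w).trans (le_of_eq ?_)
    rw [h0 s _ _ (P.ce_fac (Nb s) _) (P.ce_fac (Nc s) _) w hw, P.ce_tower f3, P.ce_tower f4]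
  rw [e1]
  have h2 := P.ce_mul_sq_le (nd s) g1 u w
  have h3 : P.ce (nd s) (fun x => g1 x ^ 2) w ≤ P.ce (nd s) g1 w := P.ce_mono (fun x _ => sq p1 l1 x) w
  exact h2.trans (mul_le_mul h3 e3 (P.ce_nonneg (fun x _ => sq_nonneg _) w) (P.ce_nonneg (fun x _ => p1 x) w))

/-- **THREE ACTIVE FACES BEFORE `T^0`** -/
theorem before3 (h0 : CI P nd Nb Nc) (hb : CI P Nb Y1 Y2) (hc : CI P Nc Y1 Y3) (f1 : ∀ s, Fac (Y1 s) (Nb s))
    (f2 : ∀ s, Fac (Y1 s) (Nc s)) (f3 : ∀ s, Fac (Nb s) (nd s)) (f4 : ∀ s, Fac (Nc s) (nd s)) (fnd : Filt nd)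
    {σ : Om → ℕ} (hσ : Stp nd σ) (hT : ∀ w, σ w < T) {Xa Ya Za : ℕ → Om → ℝ} (hX : ∀ s, Fac (Y1 s) (Xa s))
    (hY : ∀ s, Fac (Y2 s) (Ya s)) (hZ : ∀ s, Fac (Y3 s) (Za s)) (X0 : ∀ s w, 0 ≤ Xa s w) (X1 : ∀ s w, Xa s w ≤ 1)
    (Y0 : ∀ s w, 0 ≤ Ya s w) (Y1' : ∀ s w, Ya s w ≤ 1) (Z0 : ∀ s w, 0 ≤ Za s w) (Z1 : ∀ s w, Za s w ≤ 1) {u t : ℝ}
    (t0 : 0 ≤ t) (ht : u ≤ t ^ 3) :
    P.E (fun w => ind (R w ∧ cp P nd (σ w) R w < u) * (Xa (σ w) w * (Ya (σ w) w * Za (σ w) w))) ≤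
      t * ((P.E (fun w => Xa (σ w) w) + P.E (fun w => Ya (σ w) w) + P.E (fun w => Za (σ w) w)) / 3) := by
  rw [E_stop hT (fun s w => ind (R w ∧ cp P nd s R w < u) * (Xa s w * (Ya s w * Za s w))), E_stop hT Xa, E_stop hT Ya,
    E_stop hT Za, ← Finset.sum_add_distrib, ← Finset.sum_add_distrib, Finset.sum_div, Finset.mul_sum]
  refine Finset.sum_le_sum fun s _ => ?_
  have hs : Fac (nd s) (fun w => ind (σ w = s)) := Fac.ind fun x w e => stp_eq fnd (fun _ => Fac.refl _) hσ e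
  have hl : Fac (nd s) (fun w => ind (σ w = s) * ind (cp P nd s R w < u)) := fun x w e => by
    show ind (σ x = s) * ind (cp P nd s R x < u) = ind (σ w = s) * ind (cp P nd s R w < u)
    rw [cp_fac s R x w e, propext (stp_eq fnd (fun _ => Fac.refl _) hσ e)]
  have e1 : P.E (fun w => ind (σ w = s) * (ind (R w ∧ cp P nd s R w < u) * (Xa s w * (Ya s w * Za s w)))) =
      P.E (fun w => (ind (σ w = s) * ind (cp P nd s R w < u)) * (ind (R w) * (Xa s w * (Ya s w * Za s w)))) :=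
    P.E_congr fun w _ => by
      rw [ind_and]
      ring
  rw [e1, ← P.E_mul_ce hl, ← P.E_mul_ce hs (Xa s), ← P.E_mul_ce hs (Ya s), ← P.E_mul_ce hs (Za s), ← FP.E_add,
    ← FP.E_add, ← P.E_div_const, ← FP.E_smul]
  refine P.E_mono fun w hw => ?_
  have x0 : 0 ≤ P.ce (nd s) (Xa s) w := P.ce_nonneg (fun x _ => X0 s x) w
  have y0 : 0 ≤ P.ce (nd s) (Ya s) w := P.ce_nonneg (fun x _ => Y0 s x) w
  have z0 : 0 ≤ P.ce (nd s) (Za s) w := P.ce_nonneg (fun x _ => Z0 s x) w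
  have n0 := ind_nonneg (σ w = s)
  have hr : 0 ≤ t * ((ind (σ w = s) * P.ce (nd s) (Xa s) w + ind (σ w = s) * P.ce (nd s) (Ya s) w +
      ind (σ w = s) * P.ce (nd s) (Za s) w) / 3) := by positivity
  by_cases h1 : cp P nd s R w < u
  · have c0 : 0 ≤ P.ce (nd s) (fun x => ind (R x) * (Xa s x * (Ya s x * Za s x))) w :=
      P.ce_nonneg (fun x _ => mul_nonneg (ind_nonneg _) (mul_nonneg (X0 s x) (mul_nonneg (Y0 s x) (Z0 s x)))) w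
    have c1 : P.ce (nd s) (fun x => ind (R x) * (Xa s x * (Ya s x * Za s x))) w ≤ cp P nd s R w := by
      refine P.ce_mono (fun x _ => ?_) w
      have a1 : Xa s x * (Ya s x * Za s x) ≤ 1 := by
        have b1 : Ya s x * Za s x ≤ 1 := mul_le_one₀ (Y1' s x) (Z0 s x) (Z1 s x)
        exact mul_le_one₀ (X1 s x) (mul_nonneg (Y0 s x) (Z0 s x)) b1
      have a2 := mul_le_mul_of_nonneg_left a1 (ind_nonneg (R x))
      rwa [mul_one] at a2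
    have c2 : P.ce (nd s) (fun x => ind (R x) * (Xa s x * (Ya s x * Za s x))) w ≤
        P.ce (nd s) (fun x => Xa s x * (Ya s x * Za s x)) w := by
      refine P.ce_mono (fun x _ => ?_) w
      have a1 : 0 ≤ Xa s x * (Ya s x * Za s x) := mul_nonneg (X0 s x) (mul_nonneg (Y0 s x) (Z0 s x))
      have a2 := mul_le_mul_of_nonneg_right (ind_le_one (R x)) a1
      rwa [one_mul] at a2
    have c3 := lwf h0 hb hc (f1 s) (f2 s) (f3 s) (f4 s) (hX s) (hY s) (hZ s) (X0 s) (Y0 s) (Z0 s) (X1 s) (Y1' s) (Z1 s)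
      hw
    have c4 := cube t0 x0 y0 z0 (c1.trans h1.le) ht ((pow_le_pow_left₀ c0 c2 2).trans c3)
    rw [ind_of h1, mul_one]
    have h3 := mul_le_mul_of_nonneg_left c4 n0
    linarith
  · rw [ind_not h1, mul_zero, zero_mul]
    exact hr

end

end Pool.Agent.GMH.GhoH
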