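import Pool.Agent.GMH.UnmP
import Pool.Agent.GMH.BefT
import Pool.Agent.GMH.GhoH

/-!
# GMH/BefU (helper55): THE UNRELEASED TUPLES BEFORE THE DECISION (H3.UNM U.3, `t* > sigma`; row C7), over `US`

`BfS M Y act` : the sights of a step: `Tri M.P (S ∅) (S {v}) (Y i)`, code steps do not change the sights, `act i q` = the face `i`
is active in the step `q` (seen by the face `i`).
* `Mx_lt` : an undecided vertex, not blocked, has density `< uB`;
* `unv v q` = private removal of `v`, in the relation of the life, undecided and not blocked; `unu q` = public removal, in the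
  relation of the lives of the vertices of the kind, all undecided, no zone;
* `prv_sum` : private removals of `v`, two active faces at `v`: `√uB (x + y) / 2`;
* `pub_r0`, `pub_gx`, `pub_hxy` : public removals, two active faces (any), the face `i` and another one, both faces over `v`;
* `pub_ht` : three active faces, no zone: `(x + y + z) / 3` times `u0 ^ (1/3)` (Loomis - Whitney);
* `act_sum` : total activity.
-/

set_option autoImplicit false
set_option linter.unusedSectionVars false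

namespace Pool.Agent.GMH.UV

open Finset Pool.Agent.PWZ Pool.Agent.M3 Pool.Agent.GMH.TD Pool.Agent.GMH.CK Pool.Agent.GMH.MV Pool.Agent.GMH.UnmL
open Pool.Agent.GMH.Bef (ud)

noncomputable section

variable {Om : Type} [Fintype Om] {M : US Om} {Q : Kd Om} {A : Stps (Om := Om)}
  {κ' : Fin 3 → ℕ → Type*} {Y : ∀ i t, Om → κ' i t} {act : Fin 3 → ℕ → Om → Prop}

/-- the sights and the activity of the steps -/
structure BfS (M : US Om) {κ' : Fin 3 → ℕ → Type*} (Y : ∀ i t, Om → κ' i t) (act : Fin 3 → ℕ → Om → Prop) : Prop where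
  tri : BefT.Tri M.P (M.S ∅) (fun v => M.S {v}) Y
  cdS : ∀ q, M.cd q → ∀ E, Fac (M.S E q) (M.S E (q + 1))
  acY : ∀ i s x w, Y i s x = Y i s w → (act i s x ↔ act i s w)

/-- an undecided vertex which is not blocked is not dense -/
theorem Mx_lt {v : Fin 3} {q : ℕ} {w : Om} (h0 : ¬ M.ex v q w) (h1 : ¬ bet M Q v q w) (h2 : ¬ blk M Q v q w) :
    Mx M Q v q w < Q.uB := by
  by_contra h3
  exact h1 ⟨q, stg_le _ _, le_rfl, not_lt.1 h3, h2, h0⟩

variable (M Q A) in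
/-- undecided at the private removal of `v` -/
def unv (v : Fin 3) (q : ℕ) (w : Om) : Prop :=
  A.rp v q w ∧ Q.kv (some v) (tv M v q w) w ∧ (¬ bet M Q v q w ∧ ¬ M.ex v q w) ∧ ¬ blk M Q v q w

variable (M Q A) in
/-- all vertices of the kind undecided at the public removal, no zone -/
def unu (q : ℕ) (w : Om) : Prop :=
  A.ru q w ∧ (∀ v ∈ Q.Vk, Q.kv (some v) (tv M v q w) w) ∧ (∀ v ∈ Q.Vk, ¬ bet M Q v q w ∧ ¬ M.ex v q w) ∧ ¬ Z0 M Q q w

theorem ud_of (H : Seen M) {v : Fin 3} {q : ℕ} {w : Om}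
    (h0 : Q.kv (some v) (tv M v q w) w) (h1 : ¬ bet M Q v q w ∧ ¬ M.ex v q w)
    (h2 : ¬ blk M Q v q w) : ud M.P (M.S {v}) (fun s u => Q.kv (some v) (tv M v s u) u) Q.uB q w := by
  refine ⟨h0, ?_⟩
  have h3 := Mx_lt h1.2 h1.1 h2
  rw [Mx_eq H] at h3
  exact h3

/-- the removals which are code steps -/
def RC (A : Stps (Om := Om)) (M : US Om) (v : Option (Fin 3)) (q : ℕ) (w : Om) : Prop :=
  M.cd q ∧ (match v with | none => A.ru q w | some v => A.rp v q w)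

variable (HB : BfS M Y act)

include HB in
theorem RC_v (HS : StS M A) (v : Fin 3) (s : ℕ) (x w : Om) (e : M.S {v} s x = M.S {v} s w) :
    RC A M (some v) s x ↔ RC A M (some v) s w :=
  and_congr_right fun hc => HS.rp v s x w (HB.cdS s hc {v} x w e)

include HB in
theorem RC_n (HS : StS M A) (s : ℕ) (x w : Om) (e : M.S ∅ s x = M.S ∅ s w) : RC A M none s x ↔ RC A M none s w :=
  and_congr_right fun hc => HS.ru s x w (HB.cdS s hc ∅ x w e)

/-- activity is a sum over the removals -/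
theorem act_mono {q : ℕ} (B : Om → Prop) (i : Fin 3) : M.P.Pr (fun w => B w ∧ act i q w) ≤ M.P.Pr (act i q) :=
  M.P.Pr_mono fun _ _ h => h.2

/-- **PRIVATE REMOVALS** of the vertex `v`: the two faces over `v` are active -/
theorem prv_sum (H : Seen M) (HS : StS M A) (HB : BfS M Y act) (hcd : ∀ w, M.P.p w ≠ 0 → ∀ v q, A.rp v q w → M.cd q)
    {v i j : Fin 3} (hi : v ≠ i) (hj : v ≠ j) (hij : i ≠ j) (T : ℕ) :
    ∑ q ∈ range T, M.P.Pr (fun w => unv M Q A v q w ∧ act i q w ∧ act j q w) ≤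
      Real.sqrt Q.uB * ((∑ q ∈ range T, M.P.Pr (fun w => A.rp v q w ∧ act i q w) +
        ∑ q ∈ range T, M.P.Pr (fun w => A.rp v q w ∧ act j q w)) / 2) := by
  have h1 := BefT.hxy_sum (R := fun v s u => Q.kv (some v) (tv M v s u) u) (k := RC A M (some v)) (act := act)
    (Ks := unv M Q A v) (q := Q.uB) HB.tri hi hj hij (RC_v HB HS v) HB.acY T
    (fun s w _ h => ud_of H h.2.1 h.2.2.1 h.2.2.2)
  have h2 : ∀ i, ∑ s ∈ range T, M.P.Pr (fun w => RC A M (some v) s w ∧ act i s w) ≤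
      ∑ q ∈ range T, M.P.Pr (fun w => A.rp v q w ∧ act i q w) := fun i =>
    Finset.sum_le_sum fun s _ => M.P.Pr_mono fun w _ h => ⟨h.1.2, h.2⟩
  refine le_trans (Finset.sum_le_sum fun q _ => M.P.Pr_mono fun w hw h => ?_)
    (h1.trans (mul_le_mul_of_nonneg_left (by linarith [h2 i, h2 j]) (Real.sqrt_nonneg _)))
  exact ⟨h.1, ⟨hcd w hw v q h.1.1, h.1.1⟩, h.2.1, h.2.2⟩

theorem not_blk {v : Fin 3} {q : ℕ} {w : Om} (h : ¬ Z0 M Q q w) : ¬ blk M Q v q w := fun hb => h hb.1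

/-- **PUBLIC REMOVALS, `R0`** : two active faces -/
theorem pub_r0 (H : Seen M) (HS : StS M A) (HB : BfS M Y act) (hcd : ∀ w, M.P.p w ≠ 0 → ∀ q, A.ru q w → M.cd q)
    (hV : Q.Vk = univ) (T : ℕ) :
    ∑ q ∈ range T, M.P.Pr (fun w => unu M Q A q w ∧ ∃ i j, i ≠ j ∧ act i q w ∧ act j q w) ≤
      Real.sqrt Q.uB * ∑ i, ∑ q ∈ range T, M.P.Pr (fun w => A.ru q w ∧ act i q w) := by
  have h1 := BefT.r0_sum (R := fun v s u => Q.kv (some v) (tv M v s u) u) (k := RC A M none) (act := act)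
    (Ks := unu M Q A) (q := Q.uB) HB.tri (RC_n HB HS) HB.acY T
    (fun s w _ h v => ud_of H (h.2.1 v (by rw [hV]; exact mem_univ v)) (h.2.2.1 v (by rw [hV]; exact mem_univ v))
      (not_blk h.2.2.2))
  refine le_trans (Finset.sum_le_sum fun q _ => M.P.Pr_mono fun w hw h => ?_)
    (h1.trans (mul_le_mul_of_nonneg_left (Finset.sum_le_sum fun i _ => Finset.sum_le_sum fun q _ =>
      M.P.Pr_mono fun w _ h => ⟨h.1.2, h.2⟩) (Real.sqrt_nonneg _)))
  exact ⟨h.1, ⟨hcd w hw q h.1.1, h.1.1⟩, h.2⟩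

/-- **PUBLIC REMOVALS, `G`** : the face `i` and another one, vertices `j, l` -/
theorem pub_gx (H : Seen M) (HS : StS M A) (HB : BfS M Y act) (hcd : ∀ w, M.P.p w ≠ 0 → ∀ q, A.ru q w → M.cd q)
    {i j l : Fin 3} (hij : i ≠ j) (hil : i ≠ l) (hjl : j ≠ l) (hj : j ∈ Q.Vk) (hl : l ∈ Q.Vk) (T : ℕ) :
    ∑ q ∈ range T, M.P.Pr (fun w => unu M Q A q w ∧ act i q w ∧ (act j q w ∨ act l q w)) ≤
      Real.sqrt Q.uB * (∑ q ∈ range T, M.P.Pr (fun w => A.ru q w ∧ act i q w) +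
        (∑ q ∈ range T, M.P.Pr (fun w => A.ru q w ∧ act j q w) +
          ∑ q ∈ range T, M.P.Pr (fun w => A.ru q w ∧ act l q w)) / 2) := by
  have h1 := BefT.gx_sum (R := fun v s u => Q.kv (some v) (tv M v s u) u) (k := RC A M none) (act := act)
    (Ks := unu M Q A) (q := Q.uB) HB.tri hij hil hjl (RC_n HB HS) HB.acY T
    (fun s w _ h => ud_of H (h.2.1 j hj) (h.2.2.1 j hj) (not_blk h.2.2.2))
    (fun s w _ h => ud_of H (h.2.1 l hl) (h.2.2.1 l hl) (not_blk h.2.2.2))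
  have h2 : ∀ i, ∑ s ∈ range T, M.P.Pr (fun w => RC A M none s w ∧ act i s w) ≤
      ∑ q ∈ range T, M.P.Pr (fun w => A.ru q w ∧ act i q w) := fun i =>
    Finset.sum_le_sum fun s _ => M.P.Pr_mono fun w _ h => ⟨h.1.2, h.2⟩
  refine le_trans (Finset.sum_le_sum fun q _ => M.P.Pr_mono fun w hw h => ?_)
    (h1.trans (mul_le_mul_of_nonneg_left (by linarith [h2 i, h2 j, h2 l]) (Real.sqrt_nonneg _)))
  exact ⟨h.1, ⟨hcd w hw q h.1.1, h.1.1⟩, h.2⟩

/-- **PUBLIC REMOVALS, `H`** : both faces over the vertex `v` -/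
theorem pub_hxy (H : Seen M) (HS : StS M A) (HB : BfS M Y act) (hcd : ∀ w, M.P.p w ≠ 0 → ∀ q, A.ru q w → M.cd q)
    {v i j : Fin 3} (hi : v ≠ i) (hj : v ≠ j) (hij : i ≠ j) (hv : v ∈ Q.Vk) (T : ℕ) :
    ∑ q ∈ range T, M.P.Pr (fun w => unu M Q A q w ∧ act i q w ∧ act j q w) ≤
      Real.sqrt Q.uB * ((∑ q ∈ range T, M.P.Pr (fun w => A.ru q w ∧ act i q w) +
        ∑ q ∈ range T, M.P.Pr (fun w => A.ru q w ∧ act j q w)) / 2) := by
  have h1 := BefT.hxy_sum (R := fun v s u => Q.kv (some v) (tv M v s u) u) (k := RC A M none) (act := act)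
    (Ks := unu M Q A) (q := Q.uB) HB.tri hi hj hij
    (fun s x w e => RC_n HB HS s x w (M.mS ∅ {v} s (Finset.empty_subset _) x w e)) HB.acY T
    (fun s w _ h => ud_of H (h.2.1 v hv) (h.2.2.1 v hv) (not_blk h.2.2.2))
  have h2 : ∀ i, ∑ s ∈ range T, M.P.Pr (fun w => RC A M none s w ∧ act i s w) ≤
      ∑ q ∈ range T, M.P.Pr (fun w => A.ru q w ∧ act i q w) := fun i =>
    Finset.sum_le_sum fun s _ => M.P.Pr_mono fun w _ h => ⟨h.1.2, h.2⟩
  refine le_trans (Finset.sum_le_sum fun q _ => M.P.Pr_mono fun w hw h => ?_)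
    (h1.trans (mul_le_mul_of_nonneg_left (by linarith [h2 i, h2 j]) (Real.sqrt_nonneg _)))
  exact ⟨h.1, ⟨hcd w hw q h.1.1, h.1.1⟩, h.2⟩

/-- outside the zone the static densities are small -/
theorem Dn_lt (H : Seen M) {q : ℕ} {w : Om} (h : ¬ Z0 M Q q w ∧ ¬ M.ex0 q w) (v : Option (Fin 3)) : Dn M Q v q w < Q.u0 :=
  lt_of_le_of_lt (Dn_le H v q w) (M0_lt_of (fun h2 => h.1 ⟨q, stg_le _ _, le_rfl, h2⟩) h.2)

/-- **PUBLIC REMOVALS, `HT`** : three active faces, no zone, relation of the public start -/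
theorem pub_ht (H : Seen M) (HS : StS M A) (HB : BfS M Y act) (hcd : ∀ w, M.P.p w ≠ 0 → ∀ q, A.ru q w → M.cd q)
    {t : ℝ} (t0 : 0 ≤ t) (ht : Q.u0 ≤ t ^ 3) (T : ℕ) :
    ∑ q ∈ range T, M.P.Pr (fun w => (A.ru q w ∧ Q.kv none (nu M.toMS q w) w ∧ ¬ Z0 M Q q w ∧ ¬ M.ex0 q w) ∧ act 0 q w ∧ act 1 q w ∧
      act 2 q w) ≤ t * ((∑ i, ∑ q ∈ range T, M.P.Pr (fun w => A.ru q w ∧ act i q w)) / 3) := by
  rw [Finset.sum_comm, Finset.sum_div, Finset.mul_sum]
  refine Finset.sum_le_sum fun q _ => ?_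
  have hn := RC_n (A := A) HB HS q
  have fX : ∀ i v, v ≠ i → Fac (Y i q) (fun w => ind (RC A M none q w ∧ act i q w)) := fun i v hv => Fac.ind fun x w e =>
    and_congr (hn x w (HB.tri.vn v q x w (HB.tri.yv i v q hv x w e))) (HB.acY i q x w e)
  have h1 := GhoH.before3 (P := M.P) (nd := M.S ∅) (Nb := M.S {0}) (Nc := M.S {1}) (Y1 := Y 2) (Y2 := Y 1) (Y3 := Y 0)
    (R := fun w => RC A M none q w ∧ (Q.kv none (nu M.toMS q w) w ∧ ¬ Z0 M Q q w ∧ ¬ M.ex0 q w)) (T := q + 1) (σ := fun _ => q)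
    (HB.tri.cn 0 1 (by decide))
    (HB.tri.ci 0 2 1 (by decide) (by decide) (by decide)) (HB.tri.ci 1 2 0 (by decide) (by decide) (by decide))
    (fun s => HB.tri.yv 2 0 s (by decide)) (fun s => HB.tri.yv 2 1 s (by decide)) (fun s => HB.tri.vn 0 s)
    (fun s => HB.tri.vn 1 s) HB.tri.fn (BefT.stp_const (N := M.S ∅) q) (fun _ => Nat.lt_succ_self q)
    (Xa := fun s w => if s = q then ind (RC A M none q w ∧ act 2 q w) else 0)
    (Ya := fun s w => if s = q then ind (RC A M none q w ∧ act 1 q w) else 0)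
    (Za := fun s w => if s = q then ind (RC A M none q w ∧ act 0 q w) else 0)
    (fun s => by
      by_cases hs : s = q
      · subst hs; simpa using fX 2 0 (by decide)
      · simpa [hs] using Fac.const (Y 2 s) (0 : ℝ))
    (fun s => by
      by_cases hs : s = q
      · subst hs; simpa using fX 1 0 (by decide)
      · simpa [hs] using Fac.const (Y 1 s) (0 : ℝ))
    (fun s => by
      by_cases hs : s = q
      · subst hs; simpa using fX 0 1 (by decide)
      · simpa [hs] using Fac.const (Y 0 s) (0 : ℝ))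
    (fun s w => by split_ifs; exacts [ind_nonneg _, le_rfl]) (fun s w => by split_ifs; exacts [ind_le_one _, zero_le_one])
    (fun s w => by split_ifs; exacts [ind_nonneg _, le_rfl]) (fun s w => by split_ifs; exacts [ind_le_one _, zero_le_one])
    (fun s w => by split_ifs; exacts [ind_nonneg _, le_rfl]) (fun s w => by split_ifs; exacts [ind_le_one _, zero_le_one])
    t0 ht
  simp only [if_true] at h1
  have e3 : ∑ i, M.P.Pr (fun w => A.ru q w ∧ act i q w) = M.P.Pr (fun w => A.ru q w ∧ act 0 q w) +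
      M.P.Pr (fun w => A.ru q w ∧ act 1 q w) + M.P.Pr (fun w => A.ru q w ∧ act 2 q w) := Fin.sum_univ_three _
  have m : ∀ i, M.P.E (fun w => ind (RC A M none q w ∧ act i q w)) ≤ M.P.Pr (fun w => A.ru q w ∧ act i q w) := fun i =>
    M.P.Pr_mono fun w _ h => ⟨h.1.2, h.2⟩
  refine le_trans ?_ (h1.trans (mul_le_mul_of_nonneg_left (by rw [e3]; linarith [m 0, m 1, m 2]) t0))
  unfold FP.Pr
  refine M.P.E_mono fun w hw => ?_
  by_cases h : (A.ru q w ∧ Q.kv none (nu M.toMS q w) w ∧ ¬ Z0 M Q q w ∧ ¬ M.ex0 q w) ∧ act 0 q w ∧ act 1 q w ∧ act 2 q w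
  · obtain ⟨⟨a, b, c⟩, d0, d1, d2⟩ := h
    have hr : RC A M none q w := ⟨hcd w hw q a, a⟩
    have hc : Gdy.cp M.P (M.S ∅) q (fun w => RC A M none q w ∧ (Q.kv none (nu M.toMS q w) w ∧ ¬ Z0 M Q q w ∧ ¬ M.ex0 q w)) w < Q.u0 := by
      refine lt_of_le_of_lt ?_ (Dn_lt H c none)
      exact M.P.ce_mono (fun u _ => ind_mono fun hh => hh.2.1) w
    rw [ind_of (⟨⟨a, b, c⟩, d0, d1, d2⟩ : (A.ru q w ∧ Q.kv none (nu M.toMS q w) w ∧ ¬ Z0 M Q q w ∧ ¬ M.ex0 q w) ∧ act 0 q w ∧ act 1 q w ∧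
      act 2 q w), ind_of (⟨⟨hr, b, c⟩, hc⟩ : (RC A M none q w ∧ (Q.kv none (nu M.toMS q w) w ∧ ¬ Z0 M Q q w ∧ ¬ M.ex0 q w)) ∧ _),
      ind_of (⟨hr, d2⟩ : RC A M none q w ∧ act 2 q w), ind_of (⟨hr, d1⟩ : RC A M none q w ∧ act 1 q w),
      ind_of (⟨hr, d0⟩ : RC A M none q w ∧ act 0 q w)]
    norm_num
  · rw [ind_not h]
    exact mul_nonneg (ind_nonneg _) (mul_nonneg (ind_nonneg _) (mul_nonneg (ind_nonneg _) (ind_nonneg _)))

end

end Pool.Agent.GMH.UV
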