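import Pool.Agent.GMH.TabP2
import Pool.Agent.GMH.BefT

/-!
# GMH/TabI (helper99): THE SPACE WITH TABLES IS A `BefT.Tri`

`lv` = level of the time (monotone).  `Vt v s` = exact vertex `v`, hidden point, cells of the level `lv s`; `Yt i s` = the exact
vertices `≠ i`, hidden point, cells and the table of the face `i`; `nt s` = hidden point and cells.
* `tri` : `Tri` in the law `Ps`; `tri_Wl` : in every world `Wl n z`, `n ≤ lv 0`;
* `ci_vy` : at the node, the vertex `v` against the two others with the table `v`.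
-/

set_option autoImplicit false
set_option linter.unusedSectionVars false

namespace Pool.Agent.GMH.Dy

open Finset Pool.Agent.PWZ Pool.Agent.M3 Pool.Agent.GM Pool.Agent.GM.Harm Pool.Agent.GMH
open Pool.Agent.GMH.Gdy
open Pool.Agent.GMH.BefT (Tri tri_cond)

variable {X β γ φ : Type} [Fintype X] [Fintype β] [Fintype φ] [Nonempty X] [Nonempty β]
variable {D : HD (Fin 3) X β γ φ} {prr : ℕ → Fin 3 → φ → φ} {T : ℕ} {W : Type} [Fintype W]
variable (tb : Tab D prr T W)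

noncomputable section

variable (W X D) in
/-- hidden point and cells -/
def nt (lv : ℕ → ℕ) (s : ℕ) (w : Om W X β) : X × (Fin 3 → Option β) × (Fin 3 → γ) := sgt D ∅ (lv s) w

variable (W X D) in
/-- exact vertex -/
def Vt (lv : ℕ → ℕ) (v : Fin 3) (s : ℕ) (w : Om W X β) : X × (Fin 3 → Option β) × (Fin 3 → γ) := sgt D {v} (lv s) w

variable (W X D) in
/-- the two exact vertices of the face `i`, the cell of `i`, the table of the face -/
def Yt (lv : ℕ → ℕ) (i : Fin 3) (s : ℕ) (w : Om W X β) : (X × (Fin 3 → Option β) × (Fin 3 → γ)) × W :=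
  (sgt D {i}ᶜ (lv s) w, w.2.1 i)

theorem Yt_eq {lv : ℕ → ℕ} {i : Fin 3} {s : ℕ} {v w : Om W X β} : Yt X D W lv i s v = Yt X D W lv i s w ↔
    sgt D {i}ᶜ (lv s) v = sgt D {i}ᶜ (lv s) w ∧ v.2.1 i = w.2.1 i := by
  unfold Yt
  rw [Prod.mk.injEq]

/-- three different vertices are all the vertices -/
theorem three_all {v i j : Fin 3} (h1 : v ≠ i) (h2 : v ≠ j) (h3 : i ≠ j) (l : Fin 3) : l = v ∨ l = i ∨ l = j := by
  revert v i j l
  decide

/-- the exact vertices seen -/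
theorem sgt_of {E E' : Finset (Fin 3)} {n : ℕ} {v w : Om W X β} (e : sgt D E n v = sgt D E n w)
    (h : ∀ j ∈ E', j ∉ E → v.2.2 j = w.2.2 j) : sgt D E' n v = sgt D E' n w := by
  rw [sgt_eq] at e ⊢
  refine ⟨e.1, fun j hj => ?_, e.2.2⟩
  by_cases h1 : j ∈ E
  · exact e.2.1 j h1
  · exact h j hj h1

theorem sgt_lv {lv : ℕ → ℕ} (hlv : Monotone lv) (E : Finset (Fin 3)) :
    Filt (fun s => sgt (W := W) (X := X) D E (lv s)) := by
  intro s v w e
  rw [sgt_eq] at e ⊢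
  exact ⟨e.1, e.2.1, fun j => qb_mono (hlv (Nat.le_succ s)) (e.2.2 j)⟩

/-- **at the node the exact vertex `v` against the two others with the table `v`** -/
theorem ci_vy (lv : ℕ → ℕ) (v : Fin 3) : Blk.CI tb.Ps (nt X D W lv) (Vt X D W lv v) (Yt X D W lv v) := by
  intro s f g hf hg w hw
  refine sgt_indep tb ∅ (lv s) {v}ᶜ {v} (fun a b e => hf a b ?_) (fun a b e => hg a b ?_) hw
  · have e' : sgt D ∅ (lv s) a = sgt D ∅ (lv s) b ∧ crd {v}ᶜ {v} a = crd {v}ᶜ {v} b := Prod.mk.injEq _ _ _ _ ▸ e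
    have e2 := (crd_eq.1 e'.2).2
    exact sgt_of e'.1 fun j hj _ => e2 j hj
  · have e' : sgt D ∅ (lv s) a = sgt D ∅ (lv s) b ∧ crd {v}ᶜᶜ {v}ᶜ a = crd {v}ᶜᶜ {v}ᶜ b := Prod.mk.injEq _ _ _ _ ▸ e
    have e2 := crd_eq.1 e'.2
    rw [compl_compl] at e2
    exact Yt_eq.2 ⟨sgt_of e'.1 fun j hj _ => e2.2 j hj, e2.1 v (mem_singleton_self v)⟩

theorem ci_vv (lv : ℕ → ℕ) {v v' : Fin 3} (h : v ≠ v') :
    Blk.CI tb.Ps (nt X D W lv) (Vt X D W lv v) (Vt X D W lv v') := fun s f g hf hg w hw =>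
  ci_vy tb lv v s f g hf (fun a b e => hg a b (by
    have e' := (Yt_eq.1 e).1
    exact sgt_mono (D := D) (W := W) (X := X) (E := {v'}) (E' := {v}ᶜ)
      (by rw [Finset.singleton_subset_iff, mem_compl, mem_singleton]; exact fun h' => h h'.symm) (lv s) a b e')) w hw

/-- at the exact vertex `v` the two faces over `v` are independent -/
theorem ci_yy (lv : ℕ → ℕ) {v i j : Fin 3} (h1 : v ≠ i) (h2 : v ≠ j) (h3 : i ≠ j) :
    Blk.CI tb.Ps (Vt X D W lv v) (Yt X D W lv i) (Yt X D W lv j) := by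
  intro s f g hf hg w hw
  refine sgt_indep tb {v} (lv s) {i} {j} (fun a b e => hf a b ?_) (fun a b e => hg a b ?_) hw
  · have e' : sgt D {v} (lv s) a = sgt D {v} (lv s) b ∧ crd {i} {j} a = crd {i} {j} b := Prod.mk.injEq _ _ _ _ ▸ e
    have e2 := crd_eq.1 e'.2
    refine Yt_eq.2 ⟨sgt_of e'.1 fun l hl hl' => ?_, e2.1 i (mem_singleton_self i)⟩
    rw [mem_compl, mem_singleton] at hl
    rw [mem_singleton] at hl'
    rcases three_all h1 h2 h3 l with rfl | rfl | rfl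
    · exact absurd rfl hl'
    · exact absurd rfl hl
    · exact e2.2 l (mem_singleton_self l)
  · have e' : sgt D {v} (lv s) a = sgt D {v} (lv s) b ∧ crd {i}ᶜ {j}ᶜ a = crd {i}ᶜ {j}ᶜ b := Prod.mk.injEq _ _ _ _ ▸ e
    have e2 := crd_eq.1 e'.2
    refine Yt_eq.2 ⟨sgt_of e'.1 fun l hl _ => e2.2 l ?_, e2.1 j ?_⟩
    · exact hl
    · rw [mem_compl, mem_singleton]
      exact fun h => h3 h.symm

/-- **THE SPACE WITH TABLES** -/
theorem tri {lv : ℕ → ℕ} (hlv : Monotone lv) : Tri tb.Ps (nt X D W lv) (Vt X D W lv) (Yt X D W lv) where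
  ci _ _ _ h1 h2 h3 := ci_yy tb lv h1 h2 h3
  cn _ _ h := ci_vv tb lv h
  fn := sgt_lv hlv ∅
  fV v := sgt_lv hlv {v}
  fY i := fun s v w e => by
    have e' := Yt_eq.1 e
    exact Yt_eq.2 ⟨sgt_lv (W := W) (X := X) (D := D) hlv {i}ᶜ s v w e'.1, e'.2⟩
  vn v s := sgt_mono (empty_subset _) (lv s)
  yv i v s h := fun a b e => sgt_mono (D := D) (W := W) (X := X) (E := {v}) (E' := {i}ᶜ)
    (by rw [Finset.singleton_subset_iff, mem_compl, mem_singleton]; exact h) (lv s) a b (Yt_eq.1 e).1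

/-- **EVERY WORLD** -/
theorem tri_Wl {lv : ℕ → ℕ} (hlv : Monotone lv) {n : ℕ} (hn : n ≤ lv 0) (z : Om W X β) :
    Tri (tb.Wl n z) (nt X D W lv) (Vt X D W lv) (Yt X D W lv) := by
  refine tri_cond (Wl_ne tb n z) (fun s x w e => ?_) (tri tb hlv)
  have e' := sgt_eq.1 e
  have h1 : cll D n x = cll D n w := by
    unfold cll
    rw [Prod.mk.injEq]
    exact ⟨e'.1, funext fun j => qb_mono (hn.trans (hlv (Nat.zero_le s))) (e'.2.2 j)⟩
  rw [h1]

end

end Pool.Agent.GMH.Dy
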