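import Pool.Agent.GMH.StpT
import Pool.Agent.GMH.TabI
import Pool.Agent.GMH.BefU

/-!
# GMH/ActO: THE ACTIVE FACES ON THE TABLE SPACE (helper77; row C7 of H3.LEAN, instance)

* `rtO j q` : ratio of the true letter of the top `j` in the substep `q` (step `sO q` of `GMH/StpT`);
  `acO e j q` : the top `j` is active in the substep `q` (`q % 5 ≠ 0`): `e < |rtO - 1|`;
* `ZbQ_Yt`, `FQ_Yt`, `rtO_Yt`, `acO_Y` : what the face `j` sees (exact vertices `≠ j`, cells, table of the face);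
* `bfS_i` : `UV.BfS` for the run instance `USi` with the faces `Yt` and the activity `acO e`;
* `acO_sum` : the total activity of a top over the run is at most `240 Lam / e ^ 2`.
-/

set_option autoImplicit false
set_option linter.unusedSectionVars false

namespace Pool.Agent.GMH.TRF

open Finset Pool.Agent.PWZ Pool.Agent.M3 Pool.Agent.GM Pool.Agent.GM.Harm Pool.Agent.GMH Pool.Agent.GMH.NZ
open Pool.Agent.GMH.V3 Pool.Agent.GMH.TP Pool.Agent.GMH.TD Pool.Agent.GMH.Dy Pool.Agent.GMH.MV Pool.Agent.GMH.MVI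
open Pool.Agent.GMH.UV Pool.Agent.GMH.KF

noncomputable section

variable {X β γ φ : Type} [Fintype X] [Fintype β] [Fintype φ] [Nonempty X] [Nonempty β]
variable {D : HD (Fin 3) X β γ φ} {al : ℝ} (h : D.Thick al) {prr : ℕ → Fin 3 → φ → φ} {T : ℕ} {W : Type} [Fintype W]
variable (tb : Tab D prr T W) (v : ℕ → Finset (Fin 3) → X → (Fin 3 → β) → Pt (Fin 3) X β φ)

/-- ratio of the true letter of the top `j` in the substep `q` -/
def rtO (j : Fin 3) (q : ℕ) (w : Om W X β) : ℝ :=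
  rS h v (sO q) (q / 5) j (tb.pt (q / 5) w) (FQ v (q / 5) j (tb.pt (q / 5) w))

/-- the top `j` is active in the substep `q` -/
def acO (e : ℝ) (j : Fin 3) (q : ℕ) (w : Om W X β) : Prop := q % 5 ≠ 0 ∧ e < |rtO h tb v j q w - 1|

variable {v}

theorem erase_sub (j : Fin 3) : univ.erase j ⊆ ({j}ᶜ : Finset (Fin 3)) := fun l hl => by
  rw [mem_compl, mem_singleton]
  exact Finset.ne_of_mem_erase hl

/-- the classes which a top sees have no top letter -/
theorem lo_no {j l : Fin 3} {I : Finset (Fin 3)} (hI : I ⊂ univ.erase j) : univ.erase l ≠ I := by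
  have key : ∀ j l : Fin 3, ∀ I : Finset (Fin 3), I ⊂ univ.erase j → univ.erase l ≠ I := by decide
  exact key j l I hI

/-- **what the top `j` sees is a function of its exact vertices and of the cells** -/
theorem ZbQ_Yt (hv : Codes D v) {q n : ℕ} (hq : TP.nn q ≤ n) (j : Fin 3) (t : ℕ) :
    Fac (sgt (W := W) D {j}ᶜ n) (fun w => ZbQ D v q j (tb.pt t w)) := by
  intro a b e
  obtain ⟨h1, h2, h3⟩ := sgt_eq.1 e
  show ZbQ D v q j (tb.pt t a) = ZbQ D v q j (tb.pt t b)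
  unfold ZbQ
  refine Prod.ext (lo_eq.2 fun I hI => ?_) (BB_eq.2 ⟨fun l hl => h2 l (erase_sub j hl), ?_, fun l => ?_⟩)
  · unfold SL
    rw [LL_eq]
    refine ⟨?_, fun l hl => absurd hl (lo_no hI)⟩
    exact MVIp.Um_sgt hv ((nc_le q I).trans (by omega)) (hI.1.trans (erase_sub j)) e
  · show D.qa (TP.nn q) a.1 = D.qa (TP.nn q) b.1
    rw [h1]
  · exact qb_mono D hq (h3 l)

/-- **the letter of the top `j` is a function of its exact vertices, the cells and its table** -/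
theorem FQ_Yt (hv : Codes D v) {t n : ℕ} (ht : t ≤ n) (j : Fin 3) {a b : Om W X β}
    (e : sgt D {j}ᶜ n a = sgt D {j}ᶜ n b) (e' : a.2.1 j = b.2.1 j) :
    FQ v t j (tb.pt t a) = FQ v t j (tb.pt t b) := by
  obtain ⟨h1, h2, h3⟩ := sgt_eq.1 e
  show LL (Um v (t + 1)) (univ.erase ((Equiv.refl (Fin 3)) j)) (tb.pt t a) =
    LL (Um v (t + 1)) (univ.erase ((Equiv.refl (Fin 3)) j)) (tb.pt t b)
  rw [LL_eq]
  refine ⟨MVIp.Um_sgt hv (Nat.succ_le_succ ht) (erase_sub j) e, fun l hl => ?_⟩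
  obtain rfl : l = j := by
    have key : ∀ l j : Fin 3, univ.erase l = univ.erase j → l = j := by decide
    exact key l j hl
  show tb.lab t l (a.2.1 l) a.1 a.2.2 = tb.lab t l (b.2.1 l) b.1 b.2.2
  rw [e', h1]
  exact tb.dep t l _ _ _ _ (fun i hi => h2 i (by rw [mem_compl, mem_singleton]; exact hi)) (qb_mono D ht (h3 l))

theorem sO_v2 {q : ℕ} (hq : q % 5 = 2) : sO q = 3 := by
  unfold sO
  rw [if_neg (by omega), if_pos hq]

theorem sO_v3 {q : ℕ} (hq : q % 5 = 3) : sO q = 4 := by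
  unfold sO
  rw [if_neg (by omega), if_neg (by omega), if_pos hq]

theorem sO_v4 {q : ℕ} (hq : q % 5 = 4) : sO q = 5 := by
  unfold sO
  rw [if_neg (by omega), if_neg (by omega), if_neg (by omega), if_pos hq]

theorem sO_v1 {q : ℕ} (hq : q % 5 = 1) : sO q = 1 := by
  unfold sO
  rw [if_pos hq]

theorem nn_qe {q : ℕ} (hq : q % 5 ≠ 0) : TP.nn (qe (sO q) (q / 5)) = TP.nn q := by
  have hlt : q % 5 < 5 := Nat.mod_lt q (by omega)
  have h1 : q = 5 * (q / 5) + q % 5 := by omega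
  have e0 : TP.nn q = q / 5 + 1 := by
    conv_lhs => rw [h1]
    rw [nn_add _ _ (by omega)]
    unfold nnj
    rw [if_neg hq]
  rw [e0]
  have e5 : TP.nn (5 * (q / 5) + 5) = q / 5 + 1 := by
    rw [nn_add _ _ (by omega)]
    unfold nnj
    rw [if_neg (by omega)]
  have e3 : TP.nn (5 * (q / 5) + 3) = q / 5 + 1 := by
    rw [nn_add _ _ (by omega)]
    unfold nnj
    rw [if_neg (by omega)]
  have e4 : TP.nn (5 * (q / 5) + 4) = q / 5 + 1 := by
    rw [nn_add _ _ (by omega)]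
    unfold nnj
    rw [if_neg (by omega)]
  obtain k | k | k | k : q % 5 = 1 ∨ q % 5 = 2 ∨ q % 5 = 3 ∨ q % 5 = 4 := by omega
  · rw [sO_v1 k]
    exact e5
  · rw [sO_v2 k]
    exact e3
  · rw [sO_v3 k]
    exact e4
  · rw [sO_v4 k]
    exact e5

/-- **the ratio of the true letter is seen by the face** -/
theorem rtO_Yt (hv : Codes D v) {q : ℕ} (hq : q % 5 ≠ 0) (j : Fin 3) {a b : Om W X β}
    (e : Yt X D W TP.nn j q a = Yt X D W TP.nn j q b) : rtO h tb v j q a = rtO h tb v j q b := by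
  obtain ⟨h1, h2⟩ := Yt_eq.1 e
  have hn := nn_qe hq
  have f1 : FQ v (q / 5) j (tb.pt (q / 5) a) = FQ v (q / 5) j (tb.pt (q / 5) b) := FQ_Yt tb hv (nn_le q) j h1 h2
  have f2 : ZbQ D v (qe (sO q) (q / 5)) j (tb.pt (q / 5) a) = ZbQ D v (qe (sO q) (q / 5)) j (tb.pt (q / 5) b) :=
    ZbQ_Yt tb hv hn.le j (q / 5) a b h1
  have f3 : ZbQ D v (qs (sO q) (q / 5)) j (tb.pt (q / 5) a) = ZbQ D v (qs (sO q) (q / 5)) j (tb.pt (q / 5) b) :=
    ZbQ_mono (qs_le_qe _ _) j _ _ f2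
  unfold rtO rS
  rw [f1, f2]
  exact rr_fac (D.P h (q / 5)) (ZbQ D v (qs (sO q) (q / 5)) j) (FQ v (q / 5) j) (ZbQ D v (qe (sO q) (q / 5)) j) _ _ _ _ f3

/-- **the activity is seen by the face** -/
theorem acO_Y (hv : Codes D v) (e : ℝ) (j : Fin 3) (q : ℕ) (a b : Om W X β)
    (hab : Yt X D W TP.nn j q a = Yt X D W TP.nn j q b) : acO h tb v e j q a ↔ acO h tb v e j q b := by
  unfold acO
  refine and_congr_right fun hq => ?_
  rw [rtO_Yt h tb hv hq j hab]

/-- **`BfS` FOR THE RUN INSTANCE** -/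
theorem bfS_i (hv : Codes D v) {d1 kb d0 k0 p1 z : ℝ} (hd1 : 0 < d1) (hd11 : d1 ≤ 1) (hkb : 0 < kb) (hd0 : 0 < d0)
    (hd01 : d0 ≤ 1) (hk0 : 0 < k0) (hp1 : 0 < p1) (hz : 0 < z) (e : ℝ) :
    BfS (USi tb hv d1 kb d0 k0 p1 z hd1 hd11 hkb hd0 hd01 hk0 hp1 hz) (fun j q => Yt X D W TP.nn j q)
      (acO h tb v e) where
  tri := Dy.tri tb fun _ _ hab => TP.nn_mono hab
  cdS := fun q hq E => by
    show Fac (sgt (W := W) D E (TP.nn q)) (sgt D E (TP.nn (q + 1)))
    rw [MVIp.nn_code hq]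
    exact Fac.refl _
  acY := fun j q a b hab => acO_Y h tb hv e j q a b hab

/-! ### the total activity -/

theorem acO_pt {e : ℝ} {j : Fin 3} {q t : ℕ} (ht : q / 5 = t) (hT : t ≤ T) (hq : q % 5 ≠ 0) :
    tb.Ps.Pr (acO h tb v e j q) = (D.P h t).E (fun w => ind (e < |rS h v (sO q) t j w (FQ v t j w) - 1|)) := by
  unfold FP.Pr
  rw [← (pul_pt h tb hT).E]
  refine tb.Ps.E_congr fun w _ => ?_
  congr 1
  unfold acO rtO
  rw [ht]
  exact propext ⟨fun hh => hh.2, fun hh => ⟨hq, hh⟩⟩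

/-- **TOTAL ACTIVITY OF A TOP** -/
theorem acO_sum {dg : ℕ → X → ℝ} {Lam : ℝ} (H : D.Hyp dg prr al T Lam) {n N1 : ℝ}
    (R : Run h (pr3 (Fin 3) n N1) (SS1 (Fin 3)) (AdmDep D) v) (hn : 1 ≤ n) (hN1 : 1 ≤ N1) (j : Fin 3) {e : ℝ} (he : 0 < e)
    (he1 : e ≤ 1) : ∑ q ∈ range (5 * T), tb.Ps.Pr (acO h tb v e j q) ≤ 240 * Lam / e ^ 2 := by
  classical
  have h1 := ga_real h H R hn hN1 j he he1 (aw := fun _ _ _ => 1) (fun _ _ _ => le_rfl)
  refine le_trans ?_ h1
  rw [sum_five]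
  refine Finset.sum_le_sum fun t ht => ?_
  have ht' := (Finset.mem_range.1 ht).le
  simp only [one_mul]
  have k0 : tb.Ps.Pr (acO h tb v e j (5 * t)) = 0 := by
    unfold FP.Pr
    have e0 : (fun w => ind (acO h tb v e j (5 * t) w)) = fun _ : Om W X β => (0 : ℝ) :=
      funext fun w => ind_not fun hh => hh.1 (by omega)
    rw [e0]
    unfold FP.E
    simp
  have k1 := acO_pt h tb (v := v) (e := e) (j := j) (q := 5 * t + 1) (t := t) (by omega) ht' (by omega)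
  have k2 := acO_pt h tb (v := v) (e := e) (j := j) (q := 5 * t + 2) (t := t) (by omega) ht' (by omega)
  have k3 := acO_pt h tb (v := v) (e := e) (j := j) (q := 5 * t + 3) (t := t) (by omega) ht' (by omega)
  have k4 := acO_pt h tb (v := v) (e := e) (j := j) (q := 5 * t + 4) (t := t) (by omega) ht' (by omega)
  rw [sO_v1 (by omega)] at k1
  rw [sO_v2 (by omega)] at k2
  rw [sO_v3 (by omega)] at k3
  rw [sO_v4 (by omega)] at k4
  rw [k0, k1, k2, k3, k4, Fin.sum_univ_six]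
  have n0 : 0 ≤ (D.P h t).E (fun w => ind (e < |rS h v 0 t j w (FQ v t j w) - 1|)) :=
    (D.P h t).E_nonneg fun _ _ => ind_nonneg _
  have n2 : 0 ≤ (D.P h t).E (fun w => ind (e < |rS h v 2 t j w (FQ v t j w) - 1|)) :=
    (D.P h t).E_nonneg fun _ _ => ind_nonneg _
  linarith

/-- a strong letter is active -/
theorem acO_of {e B : ℝ} (hB : 1 + e ≤ B) {j : Fin 3} {q : ℕ} (hq : q % 5 ≠ 0) {w : Om W X β}
    (hh : B < rtO h tb v j q w) : acO h tb v e j q w := by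
  refine ⟨hq, lt_of_lt_of_le ?_ (le_abs_self _)⟩
  linarith

end

end Pool.Agent.GMH.TRF
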