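import Pool.Agent.GMH.MV6

/-!
# GMH.AhP: anti-hot pairs at the private removals (helper27; M.11)

As `GMH/MV6`, but the removals `b k` are events of `(G (k + 1), U (k + 1))` : private light values of the letter `G`.
* `ce_dr_own` : the mean of `dr` in every class of `(G, U)` is at most `1`;
* `ah_falls` : the falls of `Y` from `≥ b` to `< a` at all half steps;
* `ah_prv` : `∑ Pr (b k, e ≤ dr at k) ≤ 16 / e (1 + ∑ Pr (b k) + drops of the entropies)`.
-/

set_option autoImplicit false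
set_option linter.unusedSectionVars false

namespace Pool.Agent.GMH.MV

open Finset Pool.Agent.PWZ Pool.Agent.M3 Pool.Agent.GMH.TD Pool.Agent.GMH.CK

namespace AHR

variable {Om : Type*} [Fintype Om] {α β γ : Type*} (P : FP Om)

/-- the mean of `dr` in a class of one letter is at most `1` -/
theorem ce_dr_own (F : Om → α) (G : Om → β) (U : Om → γ) {w : Om} (hw : P.p w ≠ 0) :
    P.ce (fun v => (G v, U v)) (dr P F G U) w ≤ 1 := by
  have h1 := ce_dr_birth P (F := fun _ => ()) (F' := F) (G := G) (G' := G) (U := U) (fun _ _ _ => rfl)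
    (fun a b hab => (Prod.mk.inj hab).1) w
  have h2 : dr P (fun _ => ()) G U w = 1 := by
    have p1 := P.m_pos U hw
    have p2 := P.m_pos (fun v => (G v, U v)) hw
    have e1 : P.m (fun v => ((fun _ => ()) v, U v)) w = P.m U w :=
      P.m_congr (X := fun v => ((fun _ => ()) v, U v)) (Y := U) (fun a b h => (Prod.mk.inj h).2)
        (fun a b h => by simp only [h]) w
    have e2 : P.m (fun v => ((fun _ => ()) v, G v, U v)) w = P.m (fun v => (G v, U v)) w :=
      P.m_congr (X := fun v => ((fun _ => ()) v, G v, U v)) (Y := fun v => (G v, U v)) (fun a b h => (Prod.mk.inj h).2)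
        (fun a b h => by simp only [h]) w
    unfold dr
    rw [e1, e2, mul_comm (P.m U w), div_self (mul_pos p2 p1).ne']
  rw [h2] at h1
  refine le_trans (le_of_eq ?_) h1
  refine P.ce_congr_map (fun v w h => ?_) (fun v w h => ?_) _ _
  · show ((), G v, U v) = ((), G w, U w)
    rw [Prod.mk.injEq]
    exact ⟨rfl, h⟩
  · exact (Prod.mk.inj h).2

end AHR

section

variable {Om : Type*} [Fintype Om] {α β γ : Type*} (P : FP Om) {F : ℕ → Om → α} {G : ℕ → Om → β} {U : ℕ → Om → γ}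

open AHR

/-- **the falls at all half steps** -/
theorem ah_falls (hU : ∀ t, Fac (U (t + 1)) (U t)) (hF : ∀ t, Fac (fun v => (F (t + 1) v, U (t + 1) v)) (F t))
    (hG : ∀ t, Fac (fun v => (G (t + 1) v, U (t + 1) v)) (G t)) {a b : ℝ} (ha : 0 < a) (hab : a ≤ b) (T : ℕ) :
    (b - a) * ∑ i ∈ range (2 * T), P.Pr (fun w => b ≤ dr P (F (i / 2)) (G (i / 2)) (U ((i + 1) / 2)) w ∧
        dr P (F ((i + 1) / 2)) (G ((i + 1) / 2)) (U ((i + 1 + 1) / 2)) w < a) ≤
      b / a + ∑ k ∈ range T, ((P.Hc (F k) (U k) - P.Hc (F k) (U (k + 1))) +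
        (P.Hc (G k) (U k) - P.Hc (G k) (U (k + 1)))) := by
  classical
  set Y : ℕ → Om → ℝ := fun n => dr P (F (n / 2)) (G (n / 2)) (U ((n + 1) / 2)) with hY
  set M : ℕ → Om → α × β × γ := fun n v => (F (n / 2) v, G (n / 2) v, U ((n + 1) / 2) v) with hM
  set D : ℝ := ∑ k ∈ range T, ((P.Hc (F k) (U k) - P.Hc (F k) (U (k + 1))) +
    (P.Hc (G k) (U k) - P.Hc (G k) (U (k + 1)))) with hD
  have Y0 : ∀ n w, 0 ≤ Y n w := fun n w => dr_nonneg P _ _ _ w
  have YM : ∀ n, Fac (M n) (Y n) := fun n => dr_fac P _ _ _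
  have Ye : ∀ k, Y (2 * k) = dr P (F k) (G k) (U k) := fun k => by
    rw [hY]
    simp only
    rw [show 2 * k / 2 = k by omega, show (2 * k + 1) / 2 = k by omega]
  have Yo : ∀ k, Y (2 * k + 1) = dr P (F k) (G k) (U (k + 1)) := fun k => by
    rw [hY]
    simp only
    rw [show (2 * k + 1) / 2 = k by omega, show (2 * k + 1 + 1) / 2 = k + 1 by omega]
  have Me : ∀ k, M (2 * k) = fun v => (F k v, G k v, U k v) := fun k => by
    rw [hM]
    simp only
    rw [show 2 * k / 2 = k by omega, show (2 * k + 1) / 2 = k by omega]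
  have Mo' : ∀ k, M (2 * k + 1) = fun v => (F k v, G k v, U (k + 1) v) := fun k => by
    rw [hM]
    simp only
    rw [show (2 * k + 1) / 2 = k by omega, show (2 * k + 1 + 1) / 2 = k + 1 by omega]
  have MM : ∀ n, Fac (M (n + 1)) (M n) := by
    intro n
    rcases Nat.even_or_odd' n with ⟨k, rfl | rfl⟩
    · rw [Mo', Me]
      intro v w h
      simp only [Prod.mk.injEq] at h ⊢
      exact ⟨h.1, h.2.1, hU k v w h.2.2⟩
    · rw [show 2 * k + 1 + 1 = 2 * (k + 1) by ring, Mo', Me]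
      intro v w h
      simp only [Prod.mk.injEq] at h ⊢
      exact ⟨hF k v w (by simp only [h.1, h.2.2]), hG k v w (by simp only [h.2.1, h.2.2]), h.2.2⟩
  -- the flag
  set on : ℕ → Om → Prop := fun n w => onY (fun i => Y i w) a b n with hon
  have onM : ∀ n, Fac (M n) (on n) := by
    intro n
    induction n with
    | zero =>
      intro v w h
      show (Y 0 v < a) = (Y 0 w < a)
      rw [YM 0 v w h]
    | succ n ih =>
      intro v w h
      show ((on n v ∧ Y (n + 1) v < b) ∨ Y (n + 1) v < a) = ((on n w ∧ Y (n + 1) w < b) ∨ Y (n + 1) w < a)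
      rw [ih v w (MM n v w h), YM (n + 1) v w h]
  have onI : ∀ n, Fac (M n) (fun w => ind (on n w)) := fun n => Fac.ind fun v w h => by rw [onM n v w h]
  -- the drift
  have dr1 : ∀ n, P.E (fun w => ind (on n w) * (Y (n + 1) w - Y n w)) =
      P.E (fun w => ind (on n w) * Y (n + 1) w) - P.E (fun w => ind (on n w) * Y n w) := fun n => by
    rw [← P.E_sub]
    exact P.E_congr fun w _ => by ring
  have dre : ∀ k, P.E (fun w => ind (on (2 * k) w) * (Y (2 * k + 1) w - Y (2 * k) w)) ≤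
      (P.Hc (F k) (U k) - P.Hc (F k) (U (k + 1))) + (P.Hc (G k) (U k) - P.Hc (G k) (U (k + 1))) := by
    intro k
    rw [dr1, Ye, Yo]
    have h1 := onI (2 * k)
    rw [Me] at h1
    have h2 := dr_public P (F k) (G k) (hU k) (h := fun w => ind (on (2 * k) w)) h1 (fun _ => ind_nonneg _)
      (fun _ => ind_le_one _)
    linarith
  have dro : ∀ k, P.E (fun w => ind (on (2 * k + 1) w) * (Y (2 * k + 1 + 1) w - Y (2 * k + 1) w)) ≤ 0 := by
    intro k
    rw [dr1, show 2 * k + 1 + 1 = 2 * (k + 1) by ring, Ye, Yo]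
    have h1 := onI (2 * k + 1)
    rw [Mo'] at h1
    have h2 := P.E_mul_ce h1 (dr P (F (k + 1)) (G (k + 1)) (U (k + 1)))
    rw [← h2]
    have h3 : P.E (fun w => ind (on (2 * k + 1) w) * P.ce (fun v => (F k v, G k v, U (k + 1) v))
        (dr P (F (k + 1)) (G (k + 1)) (U (k + 1))) w) ≤
        P.E (fun w => ind (on (2 * k + 1) w) * dr P (F k) (G k) (U (k + 1)) w) :=
      P.E_mono fun w _ => mul_le_mul_of_nonneg_left (ce_dr_birth P (hF k) (hG k) w) (ind_nonneg _)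
    linarith
  have hsum : P.E (fun w => ∑ i ∈ range (2 * T), ind (on i w) * (Y (i + 1) w - Y i w)) ≤ D := by
    rw [P.E_sum, sum_two, hD]
    refine Finset.sum_le_sum fun k _ => ?_
    have a1 := dre k
    have a2 := dro k
    linarith
  have h1 : P.E (fun w => (b - a) * ∑ i ∈ range (2 * T), ind (b ≤ Y i w ∧ Y (i + 1) w < a)) ≤
      P.E (fun w => b / a * Y 0 w + ∑ i ∈ range (2 * T), ind (on i w) * (Y (i + 1) w - Y i w)) :=
    P.E_mono fun w _ => fall ha hab (fun n => Y0 n w) (2 * T)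
  rw [P.E_smul, P.E_add, P.E_smul, P.E_sum] at h1
  have h2 : P.E (Y 0) ≤ 1 := by
    have h3 := Ye 0
    rw [show 2 * 0 = 0 by rfl] at h3
    rw [h3]
    exact E_dr_le_one P _ _ _
  have h3 : b / a * P.E (Y 0) ≤ b / a := by
    have h4 : 0 ≤ b / a := div_nonneg (ha.le.trans hab) ha.le
    have := mul_le_mul_of_nonneg_left h2 h4
    linarith
  have h5 : ∑ i ∈ range (2 * T), P.Pr (fun w => b ≤ dr P (F (i / 2)) (G (i / 2)) (U ((i + 1) / 2)) w ∧
        dr P (F ((i + 1) / 2)) (G ((i + 1) / 2)) (U ((i + 1 + 1) / 2)) w < a) =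
      ∑ i ∈ range (2 * T), P.E (fun w => ind (b ≤ Y i w ∧ Y (i + 1) w < a)) := rfl
  rw [h5]
  linarith

/-- **anti-hot pairs at the private removals** -/
theorem ah_prv (hU : ∀ t, Fac (U (t + 1)) (U t)) (hF : ∀ t, Fac (fun v => (F (t + 1) v, U (t + 1) v)) (F t))
    (hG : ∀ t, Fac (fun v => (G (t + 1) v, U (t + 1) v)) (G t)) {b : ℕ → Om → Prop}
    (hb : ∀ k, Fac (fun v => (G (k + 1) v, U (k + 1) v)) (b k)) {e : ℝ} (he : 0 < e) (T : ℕ) :
    ∑ k ∈ range T, P.Pr (fun w => b k w ∧ e ≤ dr P (F k) (G k) (U k) w) ≤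
      16 / e * (1 + ∑ k ∈ range T, P.Pr (b k) + ∑ k ∈ range T, ((P.Hc (F k) (U k) - P.Hc (F k) (U (k + 1))) +
        (P.Hc (G k) (U k) - P.Hc (G k) (U (k + 1))))) := by
  classical
  set Y : ℕ → Om → ℝ := fun n => dr P (F (n / 2)) (G (n / 2)) (U ((n + 1) / 2)) with hY
  set D : ℝ := ∑ k ∈ range T, ((P.Hc (F k) (U k) - P.Hc (F k) (U (k + 1))) +
    (P.Hc (G k) (U k) - P.Hc (G k) (U (k + 1)))) with hD
  have Ye : ∀ k, Y (2 * k) = dr P (F k) (G k) (U k) := fun k => by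
    rw [hY]
    simp only
    rw [show 2 * k / 2 = k by omega, show (2 * k + 1) / 2 = k by omega]
  have Y0 : ∀ n w, 0 ≤ Y n w := fun n w => dr_nonneg P _ _ _ w
  have f1 : (e - e / 2) * ∑ i ∈ range (2 * T), P.Pr (fun w => e ≤ Y i w ∧ Y (i + 1) w < e / 2) ≤ e / (e / 2) + D :=
    ah_falls P hU hF hG (by linarith) (by linarith) T
  have f2 : (e / 2 - e / 4) * ∑ i ∈ range (2 * T), P.Pr (fun w => e / 2 ≤ Y i w ∧ Y (i + 1) w < e / 4) ≤
      (e / 2) / (e / 4) + D := ah_falls P hU hF hG (by linarith) (by linarith) T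
  rw [sum_two] at f1 f2
  have q1 : e / (e / 2) = 2 := by field_simp
  have q2 : (e / 2) / (e / 4) = 2 := by field_simp; norm_num
  rw [q1] at f1
  rw [q2] at f2
  have nn : ∀ A : Om → Prop, 0 ≤ P.Pr A := fun A => P.Pr_nonneg A
  have g1 : ∑ k ∈ range T, P.Pr (fun w => e ≤ Y (2 * k) w ∧ Y (2 * k + 1) w < e / 2) ≤
      ∑ k ∈ range T, (P.Pr (fun w => e ≤ Y (2 * k) w ∧ Y (2 * k + 1) w < e / 2) +
        P.Pr (fun w => e ≤ Y (2 * k + 1) w ∧ Y (2 * k + 1 + 1) w < e / 2)) :=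
    Finset.sum_le_sum fun k _ => by linarith [nn (fun w => e ≤ Y (2 * k + 1) w ∧ Y (2 * k + 1 + 1) w < e / 2)]
  have g2 : ∑ k ∈ range T, P.Pr (fun w => e / 2 ≤ Y (2 * k + 1) w ∧ Y (2 * k + 1 + 1) w < e / 4) ≤
      ∑ k ∈ range T, (P.Pr (fun w => e / 2 ≤ Y (2 * k) w ∧ Y (2 * k + 1) w < e / 4) +
        P.Pr (fun w => e / 2 ≤ Y (2 * k + 1) w ∧ Y (2 * k + 1 + 1) w < e / 4)) :=
    Finset.sum_le_sum fun k _ => by linarith [nn (fun w => e / 2 ≤ Y (2 * k) w ∧ Y (2 * k + 1) w < e / 4)]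
  have s1 : ∑ k ∈ range T, P.Pr (fun w => e ≤ Y (2 * k) w ∧ Y (2 * k + 1) w < e / 2) ≤ 2 / e * (2 + D) := by
    have h1 := mul_le_mul_of_nonneg_left g1 (show 0 ≤ e - e / 2 by linarith)
    have h2 := mul_le_mul_of_nonneg_left (h1.trans f1) (show 0 ≤ 2 / e by positivity)
    refine le_trans (le_of_eq ?_) h2
    field_simp
    ring
  have s2 : ∑ k ∈ range T, P.Pr (fun w => e / 2 ≤ Y (2 * k + 1) w ∧ Y (2 * k + 1 + 1) w < e / 4) ≤ 4 / e * (2 + D) := by
    have h1 := mul_le_mul_of_nonneg_left g2 (show 0 ≤ e / 2 - e / 4 by linarith)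
    have h2 := mul_le_mul_of_nonneg_left (h1.trans f2) (show 0 ≤ 4 / e by positivity)
    refine le_trans (le_of_eq ?_) h2
    field_simp
    ring
  -- the value after the private step
  have hstay : ∀ k, P.Pr (fun w => b k w ∧ e / 4 ≤ Y (2 * k + 1 + 1) w) ≤ 4 / e * P.Pr (b k) := by
    intro k
    have e1 : Y (2 * k + 1 + 1) = dr P (F (k + 1)) (G (k + 1)) (U (k + 1)) := by
      rw [show 2 * k + 1 + 1 = 2 * (k + 1) by ring, Ye]
    have h1 : P.Pr (fun w => b k w ∧ e / 4 ≤ Y (2 * k + 1 + 1) w) ≤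
        P.E (fun w => ind (b k w) * (4 / e * Y (2 * k + 1 + 1) w)) := by
      refine P.E_mono fun w _ => ?_
      rw [ind_and]
      refine mul_le_mul_of_nonneg_left ?_ (ind_nonneg _)
      by_cases h2 : e / 4 ≤ Y (2 * k + 1 + 1) w
      · rw [ind_of h2]
        have h3 := mul_le_mul_of_nonneg_left h2 (show 0 ≤ 4 / e by positivity)
        have h4 : 4 / e * (e / 4) = 1 := by field_simp
        linarith
      · rw [ind_not h2]
        have := Y0 (2 * k + 1 + 1) w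
        positivity
    have hbI : Fac (fun v => (G (k + 1) v, U (k + 1) v)) (fun w => ind (b k w)) := Fac.ind fun v w h => by
      rw [hb k v w h]
    have h2 := P.E_mul_ce hbI (fun w => 4 / e * Y (2 * k + 1 + 1) w)
    rw [← h2] at h1
    refine h1.trans ?_
    unfold FP.Pr
    rw [← P.E_smul]
    refine P.E_mono fun w hw => ?_
    rw [P.ce_smul, e1]
    have h3 := ce_dr_own P (F (k + 1)) (G (k + 1)) (U (k + 1)) hw
    have h4 : 0 ≤ ind (b k w) * (4 / e) := mul_nonneg (ind_nonneg _) (by positivity)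
    have h5 := mul_le_mul_of_nonneg_left h3 h4
    linarith
  -- the sum
  have hone : ∀ k ∈ range T, P.Pr (fun w => b k w ∧ e ≤ dr P (F k) (G k) (U k) w) ≤
      4 / e * P.Pr (b k) + P.Pr (fun w => e ≤ Y (2 * k) w ∧ Y (2 * k + 1) w < e / 2) +
        P.Pr (fun w => e / 2 ≤ Y (2 * k + 1) w ∧ Y (2 * k + 1 + 1) w < e / 4) := by
    intro k _
    refine le_trans ?_ (add_le_add (add_le_add (hstay k) le_rfl) le_rfl)
    unfold FP.Pr
    rw [← P.E_add, ← P.E_add]
    refine P.E_mono fun w _ => ?_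
    rw [← Ye k]
    have n1 := ind_nonneg (b k w ∧ e / 4 ≤ Y (2 * k + 1 + 1) w)
    have n2 := ind_nonneg (e ≤ Y (2 * k) w ∧ Y (2 * k + 1) w < e / 2)
    have n3 := ind_nonneg (e / 2 ≤ Y (2 * k + 1) w ∧ Y (2 * k + 1 + 1) w < e / 4)
    by_cases h1 : b k w ∧ e ≤ Y (2 * k) w
    · rw [ind_of h1]
      by_cases h2 : e / 2 ≤ Y (2 * k + 1) w
      · by_cases h3 : e / 4 ≤ Y (2 * k + 1 + 1) w
        · rw [ind_of (⟨h1.1, h3⟩ : b k w ∧ e / 4 ≤ Y (2 * k + 1 + 1) w)]
          linarith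
        · rw [ind_of (⟨h2, not_le.1 h3⟩ : e / 2 ≤ Y (2 * k + 1) w ∧ Y (2 * k + 1 + 1) w < e / 4)]
          linarith
      · rw [ind_of (⟨h1.2, not_le.1 h2⟩ : e ≤ Y (2 * k) w ∧ Y (2 * k + 1) w < e / 2)]
        linarith
    · rw [ind_not h1]
      linarith
  refine (Finset.sum_le_sum hone).trans ?_
  rw [Finset.sum_add_distrib, Finset.sum_add_distrib, ← Finset.mul_sum]
  have hB : 0 ≤ ∑ k ∈ range T, P.Pr (b k) := Finset.sum_nonneg fun _ _ => P.Pr_nonneg _
  have hD0 : 0 ≤ D := Finset.sum_nonneg fun k _ => by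
    have a1 : P.Hc (F k) (U (k + 1)) ≤ P.Hc (F k) (U k) := P.Hc_anti _ (hU k)
    have a2 : P.Hc (G k) (U (k + 1)) ≤ P.Hc (G k) (U k) := P.Hc_anti _ (hU k)
    linarith
  have h9 : 16 / e * (1 + ∑ k ∈ range T, P.Pr (b k) + D) - (4 / e * ∑ k ∈ range T, P.Pr (b k) + 2 / e * (2 + D) +
      4 / e * (2 + D)) = 1 / e * (4 + 12 * ∑ k ∈ range T, P.Pr (b k) + 10 * D) := by ring
  have h10 : 0 ≤ 1 / e * (4 + 12 * ∑ k ∈ range T, P.Pr (b k) + 10 * D) := mul_nonneg (by positivity) (by linarith)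
  linarith

end

end Pool.Agent.GMH.MV
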