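import Pool.Agent.GMH.MV8R

/-!
# GMH/MV8T (helper28): private removals summed over the run (H3.MOV, M.11)

* `alq_iff`, `alq_fac` : the letter is alive, an event of the positions which the class of the vertex sees; `alq_ss`, `alq_sps` :
  from the surprisals at the state, at the half step;
* `light_prv` : light private values at most `6 n Lam`; `mv8_run` : the sum over the private codes of one vertex.
-/

set_option autoImplicit false
set_option linter.unusedSectionVars false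

namespace Pool.Agent.GMH.MV8R

open Finset Pool.Agent.PWZ Pool.Agent.M3 Pool.Agent.GM Pool.Agent.GM.Harm Pool.Agent.GMH Pool.Agent.GMH.NZ
open Pool.Agent.GMH.V3

noncomputable section

section run

open Pool.Agent.GMH.TP Pool.Agent.GMH.TD Pool.Agent.GMH.Dy Pool.Agent.GMH.MV Pool.Agent.GMH.CKB Pool.Agent.GMH.MVI
open Pool.Agent.GMH.MV8

variable {X β γ φ : Type} [Fintype X] [Fintype β] [Fintype φ] [Nonempty X] [Nonempty β]
variable {D : HD (Fin 3) X β γ φ} {al : ℝ} {h : D.Thick al} {N : Finset (Fin 3) → ℝ} {S : Finset (Finset (Fin 3))}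
  {v : ℕ → Finset (Fin 3) → X → (Fin 3 → β) → Pt (Fin 3) X β φ}
  {prr : ℕ → Fin 3 → φ → φ} {T : ℕ} {W : Type} [Fintype W]

/-- alive is an event of the positions -/
theorem alq_iff (tb : Tab D prr T W) (t q : ℕ) (L : ℝ) (k : Fin 3) (w : Om W X β) :
    alq h v tb t q L k w ↔ alv h v (t + 1) (nc q {k}) (t + 2) (t + 1) L k (tb.pt 0 w) := by
  unfold alq
  exact alv_time (t + 1) (t + 1) _ _ _ L k rfl rfl

/-- the class of `i` after a private code sees whether its letter is alive -/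
theorem alq_fac (tb : Tab D prr T W) {s : ℕ} (h2 : 2 ≤ s % 5) (L : ℝ) (i : Fin 3) :
    Fac (fun w => (XLo tb v i (s + 1) w, NPo tb v (s + 1) w)) (alq h v tb (s / 5) (s + 1) L i) := by
  intro a b hab
  obtain ⟨h3, h4⟩ := Prod.mk.inj hab
  rw [eq_iff_iff, alq_iff, alq_iff]
  refine iff_of_eq (alv_fac (h := h) (v := v) _ _ _ _ L i (tb.pt 0 a) (tb.pt 0 b) ?_)
  refine Prod.ext h3 ?_
  have e1 : NPo tb v (s + 1) = fun u => NP D v (s / 5 + 2) (s / 5 + 1) (tb.pt 0 u) := by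
    funext u
    show NPq D v (s + 1) (tb.pt 0 u) = _
    have e2 := NPq_new (φ := φ) (D := D) (v := v) (t := s / 5) (j := s % 5) (by omega) (by omega)
    rw [show 5 * (s / 5) + s % 5 + 1 = s + 1 by omega] at e2
    rw [e2]
  rw [e1] at h4
  exact h4

/-- the letter of `i` does not change at the private codes of the other vertices -/
theorem CN_same (tb : Tab D prr T W) {s : ℕ} (h2 : 2 ≤ s % 5) {i : Fin 3} (hne : s % 5 ≠ rk {i}) :
    XLo tb v i (s + 1) = XLo tb v i s ∧ NPo tb v (s + 1) = NPo tb v s := by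
  have hX : XLq (φ := φ) v (s + 1) i = XLq v s i := by
    have := XLq_ne (v := v) (φ := φ) (t := s / 5) (j := s % 5) (by omega) (i := i) hne
    rwa [show 5 * (s / 5) + s % 5 = s by omega] at this
  have hN := NPq_code (v := v) (D := D) (φ := φ) h2
  exact ⟨funext fun w => congrFun hX (tb.pt 0 w), funext fun w => congrFun hN (tb.pt 0 w)⟩

/-- the public information at the states `5t+2 .. 5t+5` -/
theorem NPq_lvl {t j q : ℕ} (h2 : 2 ≤ j) (h5 : j ≤ 5) (hq : q = 5 * t + j) :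
    NPq (φ := φ) D v q = NP D v (t + 2) (t + 1) := by
  funext u
  unfold NPq
  rw [hq, nc_emp t h2 h5, nn_j t (by omega) h5]

/-- alive from the surprisal at the state -/
theorem alq_ss (tb : Tab D prr T W) {t j q : ℕ} (h2 : 2 ≤ j) (h5 : j ≤ 5) (hq : q = 5 * t + j) {L : ℝ} (k : Fin 3) {r : ℕ}
    (hr : r ≤ T) {w : Om W X β} (hw : tb.Ps.p w ≠ 0) (hs : ssQ h v q k (tb.pt r w) ≤ L) : alq h v tb t q L k w := by
  have H := pul_pt (h := h) tb hr
  have h1 : sp (D.P h r) (XLq v q k) (fun u => (u.2.1 k, NP D v (t + 2) (t + 1) u)) (tb.pt r w) ≤ L := by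
    refine le_of_eq_of_le ?_ hs
    unfold ssQ
    rw [NPq_lvl (v := v) h2 h5 hq]
    exact sp_xy h (fun _ _ _ _ => rfl) (fun _ _ _ _ => rfl) r (q / 5) (tb.pt r w)
  have h3 := alv_sp (h := h) (v := v) r (nc q {k}) (t + 2) (t + 1) k (H.ne hw) h1
  unfold alq
  exact (alv_time r (t + 1) _ _ _ L k rfl rfl).1 h3

/-- alive from the surprisal at the half step `2 (t + 1)` -/
theorem alq_sps (tb : Tab D prr T W) {t j q : ℕ} (h2 : 2 ≤ j) (h5 : j ≤ 5) (hq : q = 5 * t + j) {L : ℝ} (k : Fin 3) {r : ℕ}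
    (hr : r ≤ T) {w : Om W X β} (hw : tb.Ps.p w ≠ 0) (hs : sps h v (2 * (t + 1)) k (tb.pt r w) ≤ L) :
    alq h v tb t q L k w := by
  have H := pul_pt (h := h) tb hr
  have f1 : ∀ u : Pt (Fin 3) X β φ, NPr v D (2 * (t + 1)) u = NP D v (t + 2) (t + 1) u := fun u => by rw [NPr_even]
  have f2 : XLr (φ := φ) v (2 * (t + 1)) k = XL v (t + 2) k := XLr_even (t + 1) k
  unfold sps at hs
  rw [f2, Pr_even] at hs
  simp only [f1] at hs
  have h1 : sp (D.P h r) (XLq v q k) (fun u => (u.2.1 k, NP D v (t + 2) (t + 1) u)) (tb.pt r w) ≤ L := by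
    have e3 : sp (D.P h (t + 1)) (XL v (t + 2) k) (fun u => (u.2.1 k, NP D v (t + 2) (t + 1) u)) (tb.pt r w) =
        sp (D.P h r) (XL v (t + 2) k) (fun u => (u.2.1 k, NP D v (t + 2) (t + 1) u)) (tb.pt r w) :=
      sp_xy h (fun _ _ _ _ => rfl) (fun _ _ _ _ => rfl) (t + 1) r (tb.pt r w)
    rw [e3] at hs
    refine le_trans ?_ hs
    refine sp_coarse (D.P h r) _ (H.ne hw) fun u _ hu _ => ?_
    have g1 : u.2.1 k = (tb.pt r w).2.1 k := congrArg Prod.fst hu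
    have g2 : Um v (t + 2) {k} u.1 u.2.1 = Um v (t + 2) {k} (tb.pt r w).1 (tb.pt r w).2.1 := congrArg Prod.snd hu
    refine Prod.ext g1 (Um_older ?_ g2)
    rw [hq]
    exact nc_le2 t h5 (pth_sing k)
  have h3 := alv_sp (h := h) (v := v) r (nc q {k}) (t + 2) (t + 1) k (H.ne hw) h1
  unfold alq
  exact (alv_time r (t + 1) _ _ _ L k rfl rfl).1 h3

section ms

variable {d1 kb d0 k0 p1 z : ℝ} (hd1 : 0 < d1) (hd11 : d1 ≤ 1) (hkb : 0 < kb) (hd0 : 0 < d0) (hd01 : d0 ≤ 1) (hk0 : 0 < k0)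
  (hp1 : 0 < p1) (hz : 0 < z)

/-- **light private values of the run** -/
theorem light_prv {dg : ℕ → X → ℝ} {Lam n N1 : ℝ} (hn : 1 ≤ n) (hN1 : 1 ≤ N1)
    (R : Run h (pr3 (Fin 3) n N1) (SS1 (Fin 3)) (AdmDep D) v) (H : D.Hyp dg prr al T Lam) (tb : Tab D prr T W) (i : Fin 3) :
    ∑ s ∈ range (5 * T), tb.Ps.Pr (fun w => 2 ≤ s % 5 ∧ lt5 (MSi tb (v := v) d1 kb d0 k0 p1 z hd1 hd11 hkb hd0 hd01 hk0 hp1 hz)
      (CN (MSi tb (v := v) d1 kb d0 k0 p1 z hd1 hd11 hkb hd0 hd01 hk0 hp1 hz) i) s w) ≤ 6 * n * Lam := by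
  have hl : 0 < Real.log 2 := Real.log_pos (by norm_num)
  have h1 : ∀ q ∈ range (5 * T), tb.Ps.Pr (fun w => 2 ≤ q % 5 ∧
      lt5 (MSi tb (v := v) d1 kb d0 k0 p1 z hd1 hd11 hkb hd0 hd01 hk0 hp1 hz)
      (CN (MSi tb (v := v) d1 kb d0 k0 p1 z hd1 hd11 hkb hd0 hd01 hk0 hp1 hz) i) q w) ≤ cq h v q i / Real.log 2 := by
    intro q _
    by_cases h2 : 2 ≤ q % 5
    · refine (tb.Ps.Pr_mono fun w _ hw => hw.2).trans ?_
      refine (light_gen h tb (N' := NVq D v i) (NVq_fac i) q).trans ?_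
      refine div_le_div_of_nonneg_right ?_ hl.le
      rw [ind_of (show q % 5 ≠ 0 by omega), one_mul]
      have h3 := Hc_NVq_any h v 0 q (show q % 5 ≠ 0 by omega) i
      rw [ind_not (show ¬ q % 5 = 1 by omega), zero_mul, zero_add] at h3
      exact h3
    · have h3 : tb.Ps.Pr (fun w => 2 ≤ q % 5 ∧ lt5 (MSi tb (v := v) d1 kb d0 k0 p1 z hd1 hd11 hkb hd0 hd01 hk0 hp1 hz)
          (CN (MSi tb (v := v) d1 kb d0 k0 p1 z hd1 hd11 hkb hd0 hd01 hk0 hp1 hz) i) q w) = 0 := by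
        unfold FP.Pr
        rw [(tb.Ps.E_congr (g := fun _ => 0) fun u _ => ind_not fun hh => h2 hh.1)]
        exact tb.Ps.E_const 0
      rw [h3]
      exact div_nonneg (cq_nonneg h _ _) hl.le
  refine (Finset.sum_le_sum h1).trans ?_
  rw [← Finset.sum_div, sum_cq, div_le_iff₀ hl]
  have h5 : ∑ t ∈ range (T + 1), cst h v t {i} ≤ 3 * (n * Lam) := GMH.cost_thin rfl H hn hN1 R i
  rw [Finset.sum_range_succ' _ T] at h5
  have h6 := cst_nonneg h (v := v) 0 {i}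
  have h3 := Real.log_two_gt_d9
  have hL := H.Lam1
  have h4 : 0 ≤ n * Lam := by positivity
  nlinarith

/-- **PRIVATE REMOVALS OF THE RUN** : the sum over the private codes of the vertex `i`, light values with alive letters; `k` the
other vertex whose letter is alive, `m` the third vertex -/
theorem mv8_run {dg : ℕ → X → ℝ} {Lam n N1 : ℝ} (hn : 1 ≤ n) (hN1 : 1 ≤ N1)
    (R : Run h (pr3 (Fin 3) n N1) (SS1 (Fin 3)) (AdmDep D) v) (H : D.Hyp dg prr al T Lam) (tb : Tab D prr T W)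
    (hzp : 8 * Real.exp (4 * Lam) * kb / p1 ≤ z) {i k m : Fin 3} (hik : i ≠ k) (him : i ≠ m) (hkm : k ≠ m)
    {L a e : ℝ} (hL : 0 ≤ L) (he0 : 0 ≤ e) {Dv : ℕ → Om W X β → Prop}
    (hD : ∀ s, Fac (TH (MSi tb (v := v) d1 kb d0 k0 p1 z hd1 hd11 hkb hd0 hd01 hk0 hp1 hz) s) (Dv s))
    (hDe : ∀ s w, tb.Ps.p w ≠ 0 → Dv s w →
      dr tb.Ps (OL (MSi tb (v := v) d1 kb d0 k0 p1 z hd1 hd11 hkb hd0 hd01 hk0 hp1 hz) i s) (XLo tb v i s) (NPo tb v s) w ≤ e) :
    ∑ s ∈ range (5 * T), tb.Ps.Pr (fun w => ((2 ≤ s % 5 ∧ s < 5 * T) ∧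
      lt5 (MSi tb (v := v) d1 kb d0 k0 p1 z hd1 hd11 hkb hd0 hd01 hk0 hp1 hz)
        (CN (MSi tb (v := v) d1 kb d0 k0 p1 z hd1 hd11 hkb hd0 hd01 hk0 hp1 hz) i) s w ∧
        (2 ≤ s % 5 ∧ alq h v tb (s / 5) (s + 1) L i w)) ∧ (alq h v tb (s / 5) s L k w ∧
      ((Mv (MSi tb (v := v) d1 kb d0 k0 p1 z hd1 hd11 hkb hd0 hd01 hk0 hp1 hz) i s w ∧ Dv s w) ∨
      ∃ c, c ≠ i ∧ hys (MSi tb (v := v) d1 kb d0 k0 p1 z hd1 hd11 hkb hd0 hd01 hk0 hp1 hz) c
        (nu (MSi tb (v := v) d1 kb d0 k0 p1 z hd1 hd11 hkb hd0 hd01 hk0 hp1 hz) s w) w))) ≤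
      (e * (Real.exp (4 * Lam) * kb) + 2 * z +
        3 * (3 * (Real.sqrt (4 * (a + 1) / N1) + 2 * Real.exp (-a) * Real.exp (2 * L)))) * (6 * n * Lam) := by
  classical
  set M := MSi tb (v := v) d1 kb d0 k0 p1 z hd1 hd11 hkb hd0 hd01 hk0 hp1 hz with hM
  set ep := 3 * (Real.sqrt (4 * (a + 1) / N1) + 2 * Real.exp (-a) * Real.exp (2 * L)) with hep
  have hep0 : 0 ≤ ep := by
    have := Real.sqrt_nonneg (4 * (a + 1) / N1)
    positivity
  have hThk : Thk M Lam := (thks h tb v hd1 hd11 hkb hd0 hd01 hk0 hp1 hz H).thk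
  have hc : 0 ≤ e * (Real.exp (4 * Lam) * kb) + 2 * z + 3 * ep := by positivity
  have hN : ∀ J ∈ SS1 (Fin 3), 0 ≤ pr3 (Fin 3) n N1 J := fun J _ => (zero_le_one.trans (pr3_one hn hN1 J))
  have hN0 : pr3 (Fin 3) n N1 ∅ = 1 := by
    unfold pr3
    rw [if_pos Finset.card_empty]
  have hNi : ∀ i : Fin 3, N1 ≤ pr3 (Fin 3) n N1 {i} := fun i => le_of_eq (EndT.pr3_1 n N1 i).symm
  have h0 : (∅ : Finset (Fin 3)) ∈ SS1 (Fin 3) := mem_SS1.2 (by decide)
  have hS1 : ∀ i : Fin 3, ({i} : Finset (Fin 3)) ∈ SS1 (Fin 3) := fun i => mem_SS1.2 (by revert i; decide)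
  have key := mv8_sum M (Lam := Lam) (e := e) (ep := ep) hThk hzp i he0 hep0 (fun s => 2 ≤ s % 5 ∧ s < 5 * T)
    (al := fun s w => 2 ≤ s % 5 ∧ alq h v tb (s / 5) (s + 1) L i w) (A := fun s w => alq h v tb (s / 5) s L k w)
    (fun s => ?_) hD hDe (fun s hs w hw hlt hal g hg g0 g1 => ?_) (5 * T)
  · refine key.trans (mul_le_mul_of_nonneg_left ?_ hc)
    refine le_trans (Finset.sum_le_sum fun s _ => ?_) (light_prv hd1 hd11 hkb hd0 hd01 hk0 hp1 hz hn hN1 R H tb i)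
    exact tb.Ps.Pr_mono fun w _ hw => ⟨hw.1.1, hw.2⟩
  · intro a b hab
    by_cases h2 : 2 ≤ s % 5
    · have h3 : alq h v tb (s / 5) (s + 1) L i a = alq h v tb (s / 5) (s + 1) L i b := alq_fac (h := h) tb h2 L i a b hab
      simp only [h3]
    · simp only [h2, false_and]
  · by_cases hr : s % 5 = rk {i}
    · have hrk := rk_one i
      have h5 : 5 * (s / 5) + s % 5 = s := by omega
      have hs' : s / 5 + 1 ≤ T := by omega
      have h6 := ht_raw (h := h) (N := pr3 (Fin 3) n N1) R hN h0 hS1 hN0 hNi (by linarith) tb (t := s / 5) (j := s % 5) hs'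
        (by omega) (by omega) hr.symm hik him hkm (L := L) (a := a) hL hw (by rw [h5]; exact hal.2) (g := g)
        (by rw [h5]; exact hg) g0 g1
      rw [h5] at h6
      exact h6
    · exfalso
      obtain ⟨g1', g2'⟩ := CN_same (v := v) tb hs.1 hr
      have h3 : CN M i (s + 1) = CN M i s := by
        funext u
        exact Prod.ext (congrFun g1' u) (congrFun g2' u)
      have h4 := hlt.2
      rw [h3] at h4
      have h5 := M.P.m_nonneg (CN M i s) w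
      linarith

end ms

end run

end

end Pool.Agent.GMH.MV8R

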