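import Pool.Agent.GMH.RarN4
import Pool.Agent.GMH.MV8T
import Pool.Agent.GMH.ActO

/-!
# GMH/AlrM (helper55): ALREADY MOVED AT A DECIDED VERTEX, ANOTHER VERTEX LIGHT (row C7 of H3.LEAN, joint private step)

* `own_rel` : RELATIVE RARITY of the own density of an event of the letter of `i` at the saturated state `5 t`: if the class mass
  `ε` of the event `A` is at most `y ^ 2 / 16`, then the hidden points with `y ≤ P (A | hidden point, node)` have class mass
  at most `exp (2 - N1 y / 8) * ε` (linear in `ε`: may be summed over all levels);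
* `alr_gen` : any relation whose mass in a sight of the public class is at most `m0` (listed tuples, `k0`);
* `alr_sum` : `∑_q Pr (rpO i q, moved at j in its life, ac q) ≤ y ∑_q Pr (ac q) + (16 kb / y ^ 2 + exp (2 - N1 y / 8)) * 6 n Lam`,
  `j ≠ i`, `ac q` any event of the face which does not see `i`.
-/

set_option autoImplicit false
set_option linter.unusedSectionVars false

namespace Pool.Agent.GMH.AlrM

open Finset Pool.Agent.PWZ Pool.Agent.M3 Pool.Agent.GM Pool.Agent.GM.Harm Pool.Agent.GMH Pool.Agent.GMH.NZ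
open Pool.Agent.GMH.V3 Pool.Agent.GMH.TP Pool.Agent.GMH.TD Pool.Agent.GMH.Dy Pool.Agent.GMH.MV Pool.Agent.GMH.MVI
open Pool.Agent.GMH.TRF Pool.Agent.GMH.UV

noncomputable section

/-! ### the number -/

/-- relative rarity from the price of the hint -/
theorem rel_num {N1 y e d : ℝ} (hy0 : 0 < y) (hy1 : y ≤ 1) (hN : 8 ≤ N1 * y) (he0 : 0 < e) (he : e ≤ y ^ 2 / 16)
    (hd0 : 0 < d)
    (hk : ∀ l : ℝ, 0 ≤ l → N1 * (l * y - e * (Real.exp l - 1)) ≤ 2 * (Real.log (1 / d) + 1)) :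
    d ≤ Real.exp (2 - N1 * y / 8) * e := by
  have hN1 : 0 < N1 := by
    by_contra h
    have := mul_nonpos_of_nonpos_of_nonneg (not_lt.1 h) hy0.le
    linarith
  have he16 : e ≤ 1 / 16 := by nlinarith
  set L := Real.log (1 / e) with hL
  have hL1 : 1 ≤ L := by
    rw [hL, Real.le_log_iff_exp_le (by positivity)]
    have h1 := Real.exp_one_lt_d9
    have h2 : (16 : ℝ) ≤ 1 / e := by rw [le_div_iff₀ he0]; linarith
    linarith
  have hse : Real.exp (L / 2) = 1 / Real.sqrt e := by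
    rw [hL, Real.exp_half, Real.exp_log (by positivity), Real.sqrt_div zero_le_one, Real.sqrt_one]
  have hs0 : 0 < Real.sqrt e := Real.sqrt_pos.2 he0
  have hsq : Real.sqrt e ^ 2 = e := Real.sq_sqrt he0.le
  have hs : Real.sqrt e ≤ y / 4 := by
    rw [show y / 4 = Real.sqrt ((y / 4) ^ 2) from (Real.sqrt_sq (by positivity)).symm]
    exact Real.sqrt_le_sqrt (by linarith)
  have h1 := hk (L / 2) (by linarith)
  rw [hse] at h1
  have h2 : e * (1 / Real.sqrt e - 1) ≤ Real.sqrt e := by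
    have : e * (1 / Real.sqrt e) = Real.sqrt e := by
      rw [mul_one_div, div_eq_iff hs0.ne']
      nlinarith
    nlinarith
  have h3 : N1 * y * L / 4 ≤ 2 * (Real.log (1 / d) + 1) := by
    have h4 : L / 4 * y ≤ L / 2 * y - e * (1 / Real.sqrt e - 1) := by nlinarith
    have h5 := mul_le_mul_of_nonneg_left h4 hN1.le
    nlinarith
  have hld : Real.log (1 / d) = - Real.log d := by rw [one_div, Real.log_inv]
  have hle : L = - Real.log e := by rw [hL, one_div, Real.log_inv]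
  rw [← Real.exp_log hd0]
  conv_rhs => rw [← Real.exp_log he0]
  rw [← Real.exp_add]
  refine Real.exp_le_exp.2 ?_
  have h6 : N1 * y / 8 * L - 1 ≤ - Real.log d := by rw [hld] at h3; linarith
  have h7 : (N1 * y / 8 - 1) * 1 ≤ (N1 * y / 8 - 1) * L := mul_le_mul_of_nonneg_left hL1 (by linarith)
  rw [hle] at h6 h7
  nlinarith

variable {X β γ φ : Type} [Fintype X] [Fintype β] [Fintype φ] [Nonempty X] [Nonempty β]
variable {D : HD (Fin 3) X β γ φ} {al : ℝ} {h : D.Thick al} {prr : ℕ → Fin 3 → φ → φ} {T : ℕ} {W : Type} [Fintype W]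
variable (tb : Tab D prr T W) {v : ℕ → Finset (Fin 3) → X → (Fin 3 → β) → Pt (Fin 3) X β φ}

/-! ### relative rarity -/

/-- the price of the hint -/
theorem own_price {n N1 : ℝ} (hn : 1 ≤ n) (hN1 : 1 ≤ N1) (R : Run h (pr3 (Fin 3) n N1) (SS1 (Fin 3)) (AdmDep D) v)
    {t : ℕ} (ht : t ≤ T) (i : Fin 3) {A : Om W X β → Prop} (hA : Fac (fun u => (XLo tb v i (5 * t) u, NPo tb v (5 * t) u)) A)
    {y : ℝ} {w0 : Om W X β} (hw0 : tb.Ps.p w0 ≠ 0)
    (hd : 0 < tb.Ps.ce (NPo tb v (5 * t)) (fun u => ind (y ≤ tb.Ps.ce (sgt D ∅ t) (fun x => ind (A x)) u)) w0) {l : ℝ}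
    (hl : 0 ≤ l) : N1 * (l * y - tb.Ps.ce (NPo tb v (5 * t)) (fun u => ind (A u)) w0 * (Real.exp l - 1)) ≤
      2 * (Real.log (1 / tb.Ps.ce (NPo tb v (5 * t))
        (fun u => ind (y ≤ tb.Ps.ce (sgt D ∅ t) (fun x => ind (A x)) u)) w0) + 1) := by
  classical
  have hv := R.codes
  have H0 : Pul tb.Ps (D.P h t) (tb.pt t) := pul_pt h tb ht
  set G : Om W X β → Prop := fun u => y ≤ tb.Ps.ce (sgt D ∅ t) (fun u => ind (A u)) u with hG
  have fG : Fac (sgt (W := W) D ∅ t) G := fun a e hab => by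
    show (_ ≤ _) = (_ ≤ _)
    rw [tb.Ps.ce_fac (sgt D ∅ t) (fun u => ind (A u)) a e hab]
  set VO : Om W X β → Prop := fun u => NPo tb v (5 * t) u = NPo tb v (5 * t) w0 ∧ G u with hVO
  have fM : Fac (sgt (W := W) D ∅ t) (NPo tb v (5 * t)) := GamR.NP_sgt tb hv t
  have fVO : Fac (sgt (W := W) D ∅ t) VO := fun a e hab => by
    have e1 := fM a e hab
    have e3 := fG a e hab
    show (_ ∧ _) = (_ ∧ _)
    rw [e1, e3]
  set pV := tb.Ps.ce (NPo tb v (5 * t)) (fun u => ind (G u)) w0 with hpV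
  have eVG : tb.Ps.ce (NPo tb v (5 * t)) (fun u => ind (VO u)) w0 = pV := by
    unfold FP.ce at *
    rw [hpV]
    congr 1
    refine tb.Ps.E_congr fun u _ => ?_
    by_cases hu : NPo tb v (5 * t) u = NPo tb v (5 * t) w0
    · have : VO u = G u := propext ⟨fun hh => hh.2, fun hh => ⟨hu, hh⟩⟩
      exact congrArg (fun c : Prop => ind (NPo tb v (5 * t) u = NPo tb v (5 * t) w0) * ind c) this
    · rw [ind_not hu, zero_mul, zero_mul]
  -- a point of the event
  have hex : ∃ w1, tb.Ps.p w1 ≠ 0 ∧ VO w1 := by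
    by_contra hno
    push Not at hno
    have : tb.Ps.ce (NPo tb v (5 * t)) (fun u => ind (VO u)) w0 = 0 := by
      rw [tb.Ps.ce_congr (g := fun _ => 0) (fun u hu => ind_not (hno u hu)), tb.Ps.ce_const _ _ hw0]
    rw [eVG] at this
    linarith
  obtain ⟨w1, hw1, hVw⟩ := hex
  have hp1w : (D.P h t).p (tb.pt t w1) ≠ 0 := H0.ne hw1
  set V' : Pt (Fin 3) X β φ → Prop := fun p => VO (p.1, w0.2.1, p.2.1) with hV'
  have eV : VO = fun u => V' (tb.pt t u) := by
    funext u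
    exact fVO u (u.1, w0.2.1, u.2.2) (sgt_eq.2 ⟨rfl, fun _ _ => rfl, fun _ => rfl⟩)
  set A' : Pt (Fin 3) X β φ → Prop := fun p => A (p.1, w0.2.1, p.2.1) with hA'
  have eA : A = fun u => A' (tb.pt t u) := by
    funext u
    exact hA u (u.1, w0.2.1, u.2.2) rfl
  have hAhs : ∀ a e : Pt (Fin 3) X β φ, Ah D t ∅ a = Ah D t ∅ e →
      sgt (W := W) D ∅ t (a.1, w0.2.1, a.2.1) = sgt D ∅ t (e.1, w0.2.1, e.2.1) := fun a e hae => by
    unfold Ah at hae
    rw [Prod.mk.injEq, BB_eq] at hae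
    exact sgt_eq.2 ⟨hae.1, fun j hj => absurd hj (Finset.notMem_empty j), hae.2.2.2⟩
  set Q := (D.P h t).cond (xc D (Um v (t + 1)) t ∅ (tb.pt t w1)) with hQ
  have hC0n : (D.P h t).Pr (xc D (Um v (t + 1)) t ∅ (tb.pt t w1)) ≠ 0 := xc_ne hp1w
  have e0 : (fun u => xc D (Um v (t + 1)) t ∅ (tb.pt t w1) (tb.pt t u)) =
      fun u => NPo tb v (5 * t) u = NPo tb v (5 * t) w1 := by
    funext u
    exact propext (RarN.NPq_xc (D := D) (v := v) (p := tb.pt t u) (q := tb.pt t w1)).symm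
  have hmass : ∀ (g1 : Om W X β → ℝ) (g2 : Pt (Fin 3) X β φ → ℝ), (g1 = fun u => g2 (tb.pt t u)) →
      Q.E g2 = tb.Ps.ce (NPo tb v (5 * t)) g1 w0 := by
    intro g1 g2 hGG
    have e1 := pul_cond H0 hC0n
    rw [e0] at e1
    rw [hQ, ← e1.E g2, ← hGG, tb.Ps.ce_fac (NPo tb v (5 * t)) _ w0 w1 hVw.1.symm]
    exact (tb.Ps.ce_eq_cond (NPo tb v (5 * t)) _ hw1).symm
  have m1 : Q.Pr V' = pV := by
    rw [← eVG]
    exact hmass (fun u => ind (VO u)) (fun p => ind (V' p)) (by rw [eV])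
  have m2 : Q.E (fun p => ind (A' p)) = tb.Ps.ce (NPo tb v (5 * t)) (fun u => ind (A u)) w0 :=
    hmass (fun u => ind (A u)) (fun p => ind (A' p)) (by rw [eA])
  have m3 : Q.E (fun p => ind (V' p) * ind (A' p)) = tb.Ps.ce (NPo tb v (5 * t)) (fun u => ind (VO u) * ind (A u)) w0 :=
    hmass (fun u => ind (VO u) * ind (A u)) (fun p => ind (V' p) * ind (A' p)) (by rw [eV, eA])
  have hQV : Q.Pr V' ≠ 0 := by rw [m1]; exact hd.ne'
  -- the own density inside the event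
  have m4 : y * pV ≤ tb.Ps.ce (NPo tb v (5 * t)) (fun u => ind (VO u) * ind (A u)) w0 := by
    have h1 : tb.Ps.ce (NPo tb v (5 * t)) (fun u => y * ind (VO u)) w0 ≤
        tb.Ps.ce (NPo tb v (5 * t)) (fun u => ind (VO u) * tb.Ps.ce (sgt D ∅ t) (fun x => ind (A x)) u) w0 := by
      refine tb.Ps.ce_mono (fun u _ => ?_) w0
      by_cases hu : VO u
      · rw [ind_of hu, one_mul, mul_one]
        exact hu.2
      · rw [ind_not hu, zero_mul, mul_zero]
    have h2 : tb.Ps.ce (NPo tb v (5 * t)) (fun u => ind (VO u) * tb.Ps.ce (sgt D ∅ t) (fun x => ind (A x)) u) w0 =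
        tb.Ps.ce (NPo tb v (5 * t)) (fun u => ind (VO u) * ind (A u)) w0 := by
      have h3 : (fun u => ind (VO u) * tb.Ps.ce (sgt D ∅ t) (fun x => ind (A x)) u) =
          tb.Ps.ce (sgt D ∅ t) (fun u => ind (VO u) * ind (A u)) := by
        funext u
        exact (tb.Ps.ce_mul (X := sgt D ∅ t) (h := fun w => ind (VO w)) (fVO.comp fun q => ind q) _ u).symm
      rw [h3]
      exact tb.Ps.ce_tower fM _ w0
    rw [h2] at h1
    rw [tb.Ps.ce_smul, eVG] at h1
    exact h1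
  have B := Pool.Agent.GMH.TP.TriB.Bk_run hn hN1 R (b := i) (c := i + 1) (d := i + 2)
    ((by decide : ∀ i : Fin 3, i ≠ i + 1) i) ((by decide : ∀ i : Fin 3, i ≠ i + 2) i)
    ((by decide : ∀ i : Fin 3, i + 1 ≠ i + 2) i) t
  have key := ex_vert (h := h) B.dep B.sat B.nn B.era B.s0 (I := ∅) (j := i) (B.s1 i) (Finset.notMem_empty i)
    (w0 := tb.pt t w1) hp1w (E := V') (fun a e hae => by
      have hae' : Ah D t ∅ a = Ah D t ∅ e := by
        simp only [Prod.mk.injEq] at hae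
        unfold Ah
        rw [Prod.mk.injEq]
        exact ⟨hae.1, hae.2.1⟩
      exact fVO _ _ (hAhs a e hae')) hQV
  rw [← hQ, V3.VT.prN0, V3.VT.prN1, m1] at key
  have hac : (Q.cond V').Ac Q := FP.cond_ac _ _
  have hfA : Fac (fun w => (LL (Um v (t + 1)) {i} w, lo (LL (Um v (t + 1))) {i} w, BB D t {i} w))
      (fun p : Pt (Fin 3) X β φ => l * ind (A' p)) := by
    intro a e hae
    simp only [Prod.mk.injEq] at hae
    obtain ⟨g1, g2, g3⟩ := hae
    rw [BB_eq] at g3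
    have g4 := (LL_eq.1 g1).1
    have g5 := g3.1 i (Finset.mem_singleton_self i)
    have g6 : NPq D v (5 * t) a = NPq D v (5 * t) e := by
      refine RarN.NPq_xc.2 ⟨?_, ?_⟩
      · refine le_eq.2 fun I hI => ?_
        rw [Finset.subset_empty.1 hI]
        exact lo_eq.1 g2 ∅ (by
          refine ⟨Finset.empty_subset _, fun hh => ?_⟩
          exact absurd (hh (Finset.mem_singleton_self i)) (Finset.notMem_empty i))
      · exact BB_eq.2 ⟨fun j hj => absurd hj (Finset.notMem_empty j), g3.2⟩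
    have g7 : XLq v (5 * t) i a = XLq v (5 * t) i e := by
      show (a.2.1 i, Um v (nc (5 * t) {i}) {i} a.1 a.2.1) = (e.2.1 i, Um v (nc (5 * t) {i}) {i} e.1 e.2.1)
      rw [GamR.nc5, g4, g5]
    have g8 : A' a = A' e := hA (a.1, w0.2.1, a.2.1) (e.1, w0.2.1, e.2.1) (Prod.ext g7 g6)
    show l * ind (A' a) = l * ind (A' e)
    rw [g8]
  have dv := FP.dv' hac hfA
  have e1 : (Q.cond V').E (fun p => l * ind (A' p)) =
      l * (tb.Ps.ce (NPo tb v (5 * t)) (fun u => ind (VO u) * ind (A u)) w0 / pV) := by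
    rw [FP.E_smul, FP.cond_E hQV, m3, m1]
  have e2 : Q.E (fun p => Real.exp (l * ind (A' p)) - 1) =
      tb.Ps.ce (NPo tb v (5 * t)) (fun u => ind (A u)) w0 * (Real.exp l - 1) := by
    rw [← m2, mul_comm, ← FP.E_smul]
    refine Q.E_congr fun p _ => ?_
    by_cases hp : A' p
    · rw [ind_of hp, mul_one, mul_one]
    · rw [ind_not hp, mul_zero, mul_zero, Real.exp_zero, sub_self]
  rw [e1, e2] at dv
  have e3 : y ≤ tb.Ps.ce (NPo tb v (5 * t)) (fun u => ind (VO u) * ind (A u)) w0 / pV := by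
    rw [le_div_iff₀ hd]
    exact m4
  have e4 := mul_le_mul_of_nonneg_left e3 hl
  have hN0 : 0 < N1 := by linarith
  have e5 : l * y - tb.Ps.ce (NPo tb v (5 * t)) (fun u => ind (A u)) w0 * (Real.exp l - 1) ≤
      (Q.cond V').kl Q (fun w => (LL (Um v (t + 1)) {i} w, lo (LL (Um v (t + 1))) {i} w, BB D t {i} w)) := by
    linarith
  have e6 := mul_le_mul_of_nonneg_left e5 hN0.le
  linarith

/-- **RELATIVE RARITY** of the own density of an event of the letter of `i` -/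
theorem own_rel {n N1 : ℝ} (hn : 1 ≤ n) (hN1 : 1 ≤ N1) (R : Run h (pr3 (Fin 3) n N1) (SS1 (Fin 3)) (AdmDep D) v)
    {t : ℕ} (ht : t ≤ T) (i : Fin 3) {A : Om W X β → Prop} (hA : Fac (fun u => (XLo tb v i (5 * t) u, NPo tb v (5 * t) u)) A)
    {y : ℝ} (hy0 : 0 < y) (hy1 : y ≤ 1) (hNy : 8 ≤ N1 * y) {w0 : Om W X β} (hw0 : tb.Ps.p w0 ≠ 0)
    (he : tb.Ps.ce (NPo tb v (5 * t)) (fun u => ind (A u)) w0 ≤ y ^ 2 / 16) :
    tb.Ps.ce (NPo tb v (5 * t)) (fun u => ind (y ≤ tb.Ps.ce (sgt D ∅ t) (fun x => ind (A x)) u)) w0 ≤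
      Real.exp (2 - N1 * y / 8) * tb.Ps.ce (NPo tb v (5 * t)) (fun u => ind (A u)) w0 := by
  have hv := R.codes
  set d := tb.Ps.ce (NPo tb v (5 * t)) (fun u => ind (y ≤ tb.Ps.ce (sgt D ∅ t) (fun x => ind (A x)) u)) w0 with hd
  set e := tb.Ps.ce (NPo tb v (5 * t)) (fun u => ind (A u)) w0 with hee
  have d0 : 0 ≤ d := tb.Ps.ce_nonneg (fun _ _ => ind_nonneg _) w0
  have e0 : 0 ≤ e := tb.Ps.ce_nonneg (fun _ _ => ind_nonneg _) w0
  -- Markov
  have hm : y * d ≤ e := by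
    have h1 : tb.Ps.ce (NPo tb v (5 * t)) (fun u => y * ind (y ≤ tb.Ps.ce (sgt D ∅ t) (fun x => ind (A x)) u)) w0 ≤
        tb.Ps.ce (NPo tb v (5 * t)) (fun u => tb.Ps.ce (sgt D ∅ t) (fun x => ind (A x)) u) w0 := by
      refine tb.Ps.ce_mono (fun u _ => ?_) w0
      by_cases hu : y ≤ tb.Ps.ce (sgt D ∅ t) (fun x => ind (A x)) u
      · rw [ind_of hu, mul_one]
        exact hu
      · rw [ind_not hu, mul_zero]
        exact tb.Ps.ce_nonneg (fun _ _ => ind_nonneg _) u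
    rw [tb.Ps.ce_smul] at h1
    refine h1.trans (le_of_eq ?_)
    exact tb.Ps.ce_tower (GamR.NP_sgt tb hv t) _ w0
  rcases d0.eq_or_lt with h1 | h1
  · rw [← h1]
    exact mul_nonneg (Real.exp_pos _).le e0
  · have e1 : 0 < e := lt_of_lt_of_le (mul_pos hy0 h1) hm
    exact rel_num hy0 hy1 hNy e1 he h1 fun l hl => own_price tb hn hN1 R ht i hA hw0 h1 hl

/-! ### the sum over the run -/

theorem NP_45 {q : ℕ} (hq : q % 5 = 4) : NPo tb v (q + 1) = NPo tb v q := by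
  have h1 : q = 5 * (q / 5) + 4 := by omega
  have e1 : nc (q + 1) ∅ = nc q ∅ := by
    rw [show q + 1 = 5 * (q / 5) + 5 by omega]
    conv_rhs => rw [h1]
    rw [nc_add _ _ (by unfold pth; simp) le_rfl, nc_add _ _ (by unfold pth; simp) (by omega)]
    unfold ncj
    have hr : rk ∅ = 1 := by decide
    rw [hr, if_pos (by norm_num), if_pos (by norm_num)]
  have e2 : TP.nn (q + 1) = TP.nn q := MVIp.nn_code (by omega)
  funext w
  unfold NPo NPq
  rw [e1, e2]

/-- the private removal is an event of the new letter -/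
theorem rp_fac (i : Fin 3) (q : ℕ) : Fac (fun u => (XLo tb v i (q + 1) u, NPo tb v (q + 1) u)) (rpO tb v i q) := by
  intro a b e
  have e1 : NPo tb v (q + 1) a = NPo tb v (q + 1) b := (Prod.mk.inj e).2
  have g1 : XLo tb v i (q + 1) a = XLo tb v i (q + 1) b := (Prod.mk.inj e).1
  have e0 : NPo tb v q a = NPo tb v q b := NPo_fac tb q a b e1
  have g0 : XLo tb v i q a = XLo tb v i q b := XLo_fac tb i q a b g1
  have m1 := tb.Ps.Fac_m (fun u => (XLo tb v i (q + 1) u, NPo tb v (q + 1) u)) a b (Prod.ext g1 e1)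
  have m0 := tb.Ps.Fac_m (fun u => (XLo tb v i q u, NPo tb v q u)) a b (Prod.ext g0 e0)
  show rpO tb v i q a = rpO tb v i q b
  unfold rpO
  by_cases hq : q % 5 = 4
  · have e5 : NPo tb v (5 * (q / 5) + 1) a = NPo tb v (5 * (q / 5) + 1) b := NPo_le tb v (by omega) a b e0
    have e6 : NPo tb v (5 * (q / 5) + 2) a = NPo tb v (5 * (q / 5) + 2) b := NPo_le tb v (by omega) a b e0
    rw [m1, m0, tb.Ps.Fac_m (NPo tb v (5 * (q / 5) + 1)) a b e5, tb.Ps.Fac_m (NPo tb v (5 * (q / 5) + 2)) a b e6]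
  · simp only [hq, false_and]

variable {d1 kb d0 k0 p1 z : ℝ} (hd1 : 0 < d1) (hd11 : d1 ≤ 1) (hkb : 0 < kb) (hd0 : 0 < d0) (hd01 : d0 ≤ 1) (hk0 : 0 < k0)
  (hp1 : 0 < p1) (hz : 0 < z)

/-- number of the private removals -/
theorem rp_sum {n N1 : ℝ} (hn : 1 ≤ n) (hN1 : 1 ≤ N1) (R : Run h (pr3 (Fin 3) n N1) (SS1 (Fin 3)) (AdmDep D) v)
    {dg : ℕ → X → ℝ} {Lam : ℝ} (H : D.Hyp dg prr al T Lam) (i : Fin 3) :
    ∑ q ∈ range (5 * T), tb.Ps.Pr (rpO tb v i q) ≤ 6 * n * Lam := by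
  refine (Finset.sum_le_sum fun q _ => tb.Ps.Pr_mono fun w _ hw => ?_).trans
    (MV8R.light_prv (h := h) (d1 := 1) (kb := 1) (d0 := 1) (k0 := 1) (p1 := 1) (z := 1) one_pos le_rfl one_pos one_pos le_rfl
      one_pos one_pos one_pos hn hN1 R H tb i)
  exact ⟨by rw [hw.1]; norm_num, by show q % 5 ≠ 0; rw [hw.1]; norm_num, hw.2.1⟩

/-- **A RELATION OF SMALL CLASS MASS, LIGHT VALUE OF `i`, A WEIGHT OF THE FACE WHICH DOES NOT SEE `i`** : `Zs q` any sight
which sees the public class -/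
theorem alr_gen {n N1 : ℝ} (hn : 1 ≤ n) (hN1 : 1 ≤ N1) (R : Run h (pr3 (Fin 3) n N1) (SS1 (Fin 3)) (AdmDep D) v)
    {dg : ℕ → X → ℝ} {Lam : ℝ} (H : D.Hyp dg prr al T Lam) (i : Fin 3) {y : ℝ} (hy0 : 0 < y) (hy1 : y ≤ 1)
    (hNy : 8 ≤ N1 * y) {ζ : ℕ → Type*} {Zs : ∀ q, Om W X β → ζ q} (hZs : ∀ q, Fac (Zs q) (NPo tb v q))
    {Bq : ℕ → Om W X β → Prop} {m0 : ℝ} (hm0 : 0 ≤ m0)
    (hB : ∀ q < 5 * T, ∀ w, tb.Ps.p w ≠ 0 → tb.Ps.ce (Zs q) (fun u => ind (Bq q u)) w ≤ m0) {g : ℕ → Om W X β → ℝ} {G : ℝ} (hac : ∀ q, Fac (Yt X D W TP.nn i q) (g q)) (g0 : ∀ q w, 0 ≤ g q w)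
    (g1 : ∀ q w, g q w ≤ G) :
    ∑ q ∈ range (5 * T), tb.Ps.E (fun w => ind (rpO tb v i q w ∧ Bq q w) * g q w) ≤
      y * ∑ q ∈ range (5 * T), tb.Ps.E (g q) +
        G * ((16 * m0 / y ^ 2 + Real.exp (2 - N1 * y / 8)) * (6 * n * Lam)) := by
  classical
  have hv := R.codes
  have hc := rp_sum tb (v := v) hn hN1 R H i
  have hG : 0 ≤ G := by
    obtain ⟨w, _⟩ := tb.Ps.exists_p_ne
    exact (g0 0 w).trans (g1 0 w)
  have hc0 : 0 ≤ G * (16 * m0 / y ^ 2 + Real.exp (2 - N1 * y / 8)) := by positivity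
  have one : ∀ q ∈ range (5 * T), tb.Ps.E (fun w => ind (rpO tb v i q w ∧ Bq q w) * g q w) ≤
      y * tb.Ps.E (g q) + G * (16 * m0 / y ^ 2 + Real.exp (2 - N1 * y / 8)) * tb.Ps.Pr (rpO tb v i q) := by
    intro q hqT
    have hqT' := Finset.mem_range.1 hqT
    by_cases hq : q % 5 = 4
    swap
    · have e0 : tb.Ps.E (fun w => ind (rpO tb v i q w ∧ Bq q w) * g q w) ≤ 0 := by
        refine le_of_eq ?_
        rw [tb.Ps.E_congr (g := fun _ => 0) fun w _ => by rw [ind_not fun hh => hq hh.1.1, zero_mul], tb.Ps.E_const]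
      exact e0.trans (add_nonneg (mul_nonneg hy0.le (tb.Ps.E_nonneg fun w _ => g0 q w))
        (mul_nonneg hc0 (tb.Ps.Pr_nonneg _)))
    set t := q / 5 + 1 with ht
    have hq1 : q + 1 = 5 * t := by omega
    have htT : t ≤ T := by omega
    have hnn : TP.nn q = t := by
      have h1 : TP.nn (q + 1) = TP.nn q := MVIp.nn_code (by omega)
      rw [← h1, hq1, GamR.nn5]
    have hNP : NPo tb v (5 * t) = NPo tb v q := by rw [← hq1]; exact NP_45 tb hq
    set A : Om W X β → Prop := rpO tb v i q with hA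
    have fA : Fac (fun u => (XLo tb v i (5 * t) u, NPo tb v (5 * t) u)) A := by rw [← hq1]; exact rp_fac tb i q
    set bg : Om W X β → Prop := fun w => y ^ 2 / 16 < tb.Ps.ce (NPo tb v (5 * t)) (fun u => ind (A u)) w with hbg
    set dn : Om W X β → Prop := fun w => y ≤ tb.Ps.ce (sgt D ∅ t) (fun x => ind (A x)) w with hdn
    have fbg : Fac (NPo tb v (5 * t)) bg := fun a b e => by
      show (_ < _) = (_ < _)
      rw [tb.Ps.ce_fac (NPo tb v (5 * t)) (fun u => ind (A u)) a b e]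
    have fdn : Fac (sgt (W := W) D ∅ t) dn := fun a b e => by
      show (_ ≤ _) = (_ ≤ _)
      rw [tb.Ps.ce_fac (sgt D ∅ t) (fun u => ind (A u)) a b e]
    -- three parts
    have h1 : tb.Ps.E (fun w => ind (A w ∧ Bq q w) * g q w) ≤
        G * tb.Ps.Pr (fun w => bg w ∧ Bq q w) + G * tb.Ps.Pr (fun w => ¬ bg w ∧ dn w) +
          tb.Ps.E (fun w => ind (¬ dn w) * (ind (A w) * g q w)) := by
      unfold FP.Pr
      rw [← tb.Ps.E_smul, ← tb.Ps.E_smul, ← tb.Ps.E_add, ← tb.Ps.E_add]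
      refine tb.Ps.E_mono fun w _ => ?_
      have n1 := mul_nonneg hG (ind_nonneg (bg w ∧ Bq q w))
      have n2 := mul_nonneg hG (ind_nonneg (¬ bg w ∧ dn w))
      have n3 := mul_nonneg (ind_nonneg (¬ dn w)) (mul_nonneg (ind_nonneg (A w)) (g0 q w))
      by_cases hh : A w ∧ Bq q w
      · rw [ind_of hh, one_mul]
        by_cases c1 : dn w
        · by_cases c2 : bg w
          · rw [ind_of (⟨c2, hh.2⟩ : bg w ∧ Bq q w), mul_one]
            have := g1 q w
            linarith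
          · rw [ind_of (⟨c2, c1⟩ : ¬ bg w ∧ dn w), mul_one]
            have := g1 q w
            linarith
        · rw [ind_of c1, ind_of hh.1, one_mul, one_mul]
          linarith
      · rw [ind_not hh, zero_mul]
        linarith
    -- the big steps
    have p1' : tb.Ps.Pr (fun w => bg w ∧ Bq q w) ≤ 16 * m0 / y ^ 2 * tb.Ps.Pr A := by
      have fc : Fac (Zs q) bg := fun a b e => fbg a b (by rw [hNP]; exact hZs q a b e)
      have e1 : tb.Ps.Pr (fun w => bg w ∧ Bq q w) =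
          tb.Ps.E (fun w => ind (bg w) * tb.Ps.ce (Zs q) (fun u => ind (Bq q u)) w) := by
        rw [tb.Ps.E_mul_ce (fc.comp fun x => ind x)]
        exact tb.Ps.E_congr fun w _ => ind_and _ _
      have e2 : tb.Ps.E (fun w => ind (bg w) * tb.Ps.ce (Zs q) (fun u => ind (Bq q u)) w) ≤
          tb.Ps.E (fun w => m0 * ind (bg w)) := by
        refine tb.Ps.E_mono fun w hw => ?_
        rw [mul_comm m0]
        exact mul_le_mul_of_nonneg_left (hB q hqT' w hw) (ind_nonneg _)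
      have e4 : y ^ 2 / 16 * tb.Ps.Pr bg ≤ tb.Ps.Pr A := by
        have e5 : tb.Ps.E (fun w => y ^ 2 / 16 * ind (bg w)) ≤
            tb.Ps.E (fun w => tb.Ps.ce (NPo tb v (5 * t)) (fun u => ind (A u)) w) := by
          refine tb.Ps.E_mono fun w _ => ?_
          by_cases hw : bg w
          · rw [ind_of hw, mul_one]
            exact le_of_lt hw
          · rw [ind_not hw, mul_zero]
            exact tb.Ps.ce_nonneg (fun _ _ => ind_nonneg _) w
        rw [tb.Ps.E_smul, tb.Ps.E_ce] at e5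
        exact e5
      rw [e1]
      refine e2.trans ?_
      rw [tb.Ps.E_smul]
      have hy2 : 0 < y ^ 2 := by positivity
      have e6 : tb.Ps.Pr bg ≤ 16 / y ^ 2 * tb.Ps.Pr A := by
        rw [div_mul_eq_mul_div, le_div_iff₀ hy2]
        linarith
      have e7 := mul_le_mul_of_nonneg_left e6 hm0
      refine e7.trans (le_of_eq ?_)
      ring
    -- the small steps, dense
    have p2' : tb.Ps.Pr (fun w => ¬ bg w ∧ dn w) ≤ Real.exp (2 - N1 * y / 8) * tb.Ps.Pr A := by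
      have fnb : Fac (NPo tb v (5 * t)) (fun w => ind (¬ bg w)) := fun a b e => by
        show ind (¬ bg a) = ind (¬ bg b)
        rw [fbg a b e]
      have e1 : tb.Ps.Pr (fun w => ¬ bg w ∧ dn w) =
          tb.Ps.E (fun w => ind (¬ bg w) * tb.Ps.ce (NPo tb v (5 * t)) (fun u => ind (dn u)) w) := by
        rw [tb.Ps.E_mul_ce fnb]
        exact tb.Ps.E_congr fun w _ => ind_and _ _
      have e2 : tb.Ps.E (fun w => ind (¬ bg w) * tb.Ps.ce (NPo tb v (5 * t)) (fun u => ind (dn u)) w) ≤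
          tb.Ps.E (fun w => Real.exp (2 - N1 * y / 8) * tb.Ps.ce (NPo tb v (5 * t)) (fun u => ind (A u)) w) := by
        refine tb.Ps.E_mono fun w hw => ?_
        have k0 : 0 ≤ tb.Ps.ce (NPo tb v (5 * t)) (fun u => ind (A u)) w := tb.Ps.ce_nonneg (fun _ _ => ind_nonneg _) w
        by_cases hb : bg w
        · rw [ind_not (fun hh => hh hb), zero_mul]
          exact mul_nonneg (Real.exp_pos _).le k0
        · rw [ind_of hb, one_mul]
          exact own_rel tb hn hN1 R htT i fA hy0 hy1 hNy hw (not_lt.1 hb)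
      rw [e1]
      refine e2.trans ?_
      rw [tb.Ps.E_smul, tb.Ps.E_ce]
      exact le_rfl
    -- low own density
    have p3' : tb.Ps.E (fun w => ind (¬ dn w) * (ind (A w) * g q w)) ≤ y * tb.Ps.E (g q) := by
      have fnd : Fac (sgt (W := W) D ∅ t) (fun w => ind (¬ dn w)) := fun a b e => by
        show ind (¬ dn a) = ind (¬ dn b)
        rw [fdn a b e]
      have e1 : tb.Ps.E (fun w => ind (¬ dn w) * (ind (A w) * g q w)) =
          tb.Ps.E (fun w => ind (¬ dn w) * tb.Ps.ce (sgt D ∅ t) (fun u => ind (A u) * g q u) w) := by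
        rw [tb.Ps.E_mul_ce fnd]
      have hci := Dy.ci_vy tb TP.nn i q (fun u => ind (A u)) (g q) (fun a b e => by
        have e' : sgt (W := W) D {i} t a = sgt D {i} t b := by
          have : sgt (W := W) D {i} (TP.nn q) a = sgt D {i} (TP.nn q) b := e
          rw [hnn] at this
          exact this
        have hx : XLo tb v i (5 * t) a = XLo tb v i (5 * t) b :=
          MVIp.XLq_sgt tb hv (by rw [GamR.nc5]) (Finset.mem_singleton_self i) 0 a b e'
        have hp : NPo tb v (5 * t) a = NPo tb v (5 * t) b :=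
          MVIp.NPq_sgt tb hv (GamR.nn5 t).le (by rw [GamR.nc5]) {i} 0 a b e'
        have := fA a b (Prod.ext hx hp)
        show ind (A a) = ind (A b)
        rw [this]) (hac q)
      have e2 : tb.Ps.E (fun w => ind (¬ dn w) * tb.Ps.ce (sgt D ∅ t) (fun u => ind (A u) * g q u) w) ≤
          tb.Ps.E (fun w => y * tb.Ps.ce (sgt D ∅ t) (g q) w) := by
        refine tb.Ps.E_mono fun w hw => ?_
        have k0 : 0 ≤ tb.Ps.ce (sgt D ∅ t) (g q) w := tb.Ps.ce_nonneg (fun u _ => g0 q u) w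
        by_cases hb : dn w
        · rw [ind_not (fun hh => hh hb), zero_mul]
          exact mul_nonneg hy0.le k0
        · have e3 : tb.Ps.ce (sgt D ∅ t) (fun u => ind (A u) * g q u) w =
              tb.Ps.ce (sgt D ∅ t) (fun u => ind (A u)) w * tb.Ps.ce (sgt D ∅ t) (g q) w := by
            have := hci w hw
            unfold Dy.nt at this
            rw [hnn] at this
            exact this
          rw [ind_of hb, one_mul, e3]
          exact mul_le_mul_of_nonneg_right (le_of_lt (not_le.1 hb)) k0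
      rw [e1]
      refine e2.trans ?_
      rw [tb.Ps.E_smul, tb.Ps.E_ce]
    have e9 : G * (16 * m0 / y ^ 2 + Real.exp (2 - N1 * y / 8)) * tb.Ps.Pr A =
        G * (16 * m0 / y ^ 2 * tb.Ps.Pr A) + G * (Real.exp (2 - N1 * y / 8) * tb.Ps.Pr A) := by ring
    rw [e9]
    have f1 := mul_le_mul_of_nonneg_left p1' hG
    have f2 := mul_le_mul_of_nonneg_left p2' hG
    linarith
  refine (Finset.sum_le_sum one).trans ?_
  rw [Finset.sum_add_distrib, ← Finset.mul_sum, ← Finset.mul_sum]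
  refine add_le_add le_rfl ((mul_le_mul_of_nonneg_left hc hc0).trans (le_of_eq ?_))
  ring

/-- the moved part has small mass in the class -/
theorem ex_mass_i (j : Fin 3) (q : ℕ) {w : Om W X β} (hw : tb.Ps.p w ≠ 0) :
    tb.Ps.ce (CN (MSi tb (v := v) d1 kb d0 k0 p1 z hd1 hd11 hkb hd0 hd01 hk0 hp1 hz) j q)
      (fun u => ind (Ex (MSi tb (v := v) d1 kb d0 k0 p1 z hd1 hd11 hkb hd0 hd01 hk0 hp1 hz) j
        (MV.tau (MSi tb (v := v) d1 kb d0 k0 p1 z hd1 hd11 hkb hd0 hd01 hk0 hp1 hz) j q u) q u)) w ≤ kb := by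
  set M := MSi tb (v := v) d1 kb d0 k0 p1 z hd1 hd11 hkb hd0 hd01 hk0 hp1 hz with hM
  have hEx := Ex_mass (M := M) j q (w := w) hw
  have e3 : M.P.ce (CN M j q) (fun u => ind (Ex M j (MV.tau M j q u) q u)) w =
      M.P.ce (CN M j q) (fun u => ind (Ex M j (MV.tau M j q w) q u)) w := by
    unfold FP.ce
    congr 1
    refine M.P.E_congr fun u _ => ?_
    by_cases hu : CN M j q u = CN M j q w
    · beta_reduce
      rw [MV.tau_fac (M := M) j q u w hu]
    · rw [ind_not hu, zero_mul, zero_mul]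
  exact (le_of_eq e3).trans hEx.le

/-- **ALREADY MOVED AT `j`, LIGHT VALUE OF `i`, A WEIGHT OF THE FACE WHICH DOES NOT SEE `i`** -/
theorem alr_sumW {n N1 : ℝ} (hn : 1 ≤ n) (hN1 : 1 ≤ N1) (R : Run h (pr3 (Fin 3) n N1) (SS1 (Fin 3)) (AdmDep D) v)
    {dg : ℕ → X → ℝ} {Lam : ℝ} (H : D.Hyp dg prr al T Lam) (i j : Fin 3) {y : ℝ} (hy0 : 0 < y) (hy1 : y ≤ 1)
    (hNy : 8 ≤ N1 * y) {g : ℕ → Om W X β → ℝ} {G : ℝ} (hac : ∀ q, Fac (Yt X D W TP.nn i q) (g q)) (g0 : ∀ q w, 0 ≤ g q w)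
    (g1 : ∀ q w, g q w ≤ G) :
    ∑ q ∈ range (5 * T), tb.Ps.E (fun w => ind (rpO tb v i q w ∧
      Ex (MSi tb (v := v) d1 kb d0 k0 p1 z hd1 hd11 hkb hd0 hd01 hk0 hp1 hz) j
        (MV.tau (MSi tb (v := v) d1 kb d0 k0 p1 z hd1 hd11 hkb hd0 hd01 hk0 hp1 hz) j q w) q w) * g q w) ≤
      y * ∑ q ∈ range (5 * T), tb.Ps.E (g q) +
        G * ((16 * kb / y ^ 2 + Real.exp (2 - N1 * y / 8)) * (6 * n * Lam)) :=
  alr_gen tb hn hN1 R H i hy0 hy1 hNy
    (Zs := CN (MSi tb (v := v) d1 kb d0 k0 p1 z hd1 hd11 hkb hd0 hd01 hk0 hp1 hz) j)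
    (fun q a b e => (Prod.mk.inj e).2) hkb.le
    (fun q _ w hw => ex_mass_i tb hd1 hd11 hkb hd0 hd01 hk0 hp1 hz j q hw) hac g0 g1

/-- **ALREADY MOVED AT `j`, LIGHT VALUE OF `i`, ACTIVE FACE WHICH DOES NOT SEE `i`** -/
theorem alr_sum {n N1 : ℝ} (hn : 1 ≤ n) (hN1 : 1 ≤ N1) (R : Run h (pr3 (Fin 3) n N1) (SS1 (Fin 3)) (AdmDep D) v)
    {dg : ℕ → X → ℝ} {Lam : ℝ} (H : D.Hyp dg prr al T Lam) (i j : Fin 3) {y : ℝ} (hy0 : 0 < y) (hy1 : y ≤ 1)
    (hNy : 8 ≤ N1 * y) {ac : ℕ → Om W X β → Prop}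
    (hac : ∀ q a b, Yt X D W TP.nn i q a = Yt X D W TP.nn i q b → (ac q a ↔ ac q b)) :
    ∑ q ∈ range (5 * T), tb.Ps.Pr (fun w => rpO tb v i q w ∧
      Ex (MSi tb (v := v) d1 kb d0 k0 p1 z hd1 hd11 hkb hd0 hd01 hk0 hp1 hz) j
        (MV.tau (MSi tb (v := v) d1 kb d0 k0 p1 z hd1 hd11 hkb hd0 hd01 hk0 hp1 hz) j q w) q w ∧ ac q w) ≤
      y * ∑ q ∈ range (5 * T), tb.Ps.Pr (ac q) + (16 * kb / y ^ 2 + Real.exp (2 - N1 * y / 8)) * (6 * n * Lam) := by
  have h1 := alr_sumW tb hd1 hd11 hkb hd0 hd01 hk0 hp1 hz hn hN1 R H i j hy0 hy1 hNy (g := fun q w => ind (ac q w)) (G := 1)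
    (fun q a b e => by
      show ind (ac q a) = ind (ac q b)
      rw [propext (hac q a b e)]) (fun _ _ => ind_nonneg _) (fun _ _ => ind_le_one _)
  rw [one_mul] at h1
  refine le_trans (Finset.sum_le_sum fun q _ => ?_) h1
  refine tb.Ps.E_mono fun w _ => ?_
  rw [← ind_and]
  exact ind_mono fun hh => ⟨⟨hh.1, hh.2.1⟩, hh.2.2⟩

end

end Pool.Agent.GMH.AlrM
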