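import Pool.Agent.GMH.MV1

/-!
# GMH/MVS: the exact clock with restarts at the changes of status (helper27; H3.MOV M.10 (d))

* `sts M v s` : status of the vertex `v` in the public epoch of the time `s` (`hys` read at the public start);
* `tauS M v` : the exact clock `tau M v` with one more end: the status of `v` changes (only at public starts);
* `tauS_fac`, `tauS_tau`, `sts_const` (the status is constant in a life), `NxS_le` (number of the starts).
-/

set_option autoImplicit false
set_option linter.unusedSectionVars false

namespace Pool.Agent.GMH.MV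

open Finset Pool.Agent.PWZ Pool.Agent.M3 Pool.Agent.GMH.TD Pool.Agent.GMH.CK

variable {Om : Type} [Fintype Om] (M : MS Om)

/-- status of the vertex `v` in the public epoch of the time `s` -/
def sts (v : Fin 3) (s : ℕ) (w : Om) : Prop := hys M v (nu M s w) w

/-- end of a life : end of the exact epoch or change of the status -/
def CS (v : Fin 3) (_ν k : ℕ) (w : Om) : Prop := tau M v k w = k ∨ ¬ (sts M v k w ↔ sts M v (k - 1) w)

/-- the exact clock with restarts at the changes of status -/
noncomputable def tauS (v : Fin 3) : ℕ → Om → ℕ := stg (CS M v)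

variable {M}

theorem nu_le (s : ℕ) (w : Om) : nu M s w ≤ s := stg_le s w

theorem sts_fac (v : Fin 3) (s : ℕ) : Fac (CN M v s) (sts M v s) := by
  intro a b hab
  have h1 : nu M s a = nu M s b := nu_fac M s a b (CN_NP M v s a b hab)
  unfold sts
  rw [h1]
  exact hys_fac M v _ a b (CN_le M v (nu_le s b) a b hab)

/-- the status changes at public starts only -/
theorem sts_eq {v : Fin 3} {s : ℕ} {w : Om} (h : nu M (s + 1) w ≠ s + 1) : sts M v (s + 1) w = sts M v s w := by
  have h1 : nu M (s + 1) w = nu M s w := by
    rcases stg_or (C := C0 M) s w with h2 | h2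
    · exact absurd h2 h
    · exact h2
  unfold sts
  rw [h1]

theorem tauS_fac (v : Fin 3) (s : ℕ) : Fac (CN M v s) (tauS M v s) := by
  refine stg_fac (fun k => CN_step M v k) (fun ν k _ a b hab => ?_) s
  have h1 : tau M v (k + 1) a = tau M v (k + 1) b := tau_fac M v (k + 1) a b hab
  have h2 : sts M v (k + 1) a = sts M v (k + 1) b := sts_fac v (k + 1) a b hab
  have h3 : sts M v k a = sts M v k b := sts_fac v k a b (CN_step M v k a b hab)
  unfold CS
  rw [h1, h2, Nat.add_sub_cancel, h3]

theorem tauS_le (v : Fin 3) (s : ℕ) (w : Om) : tauS M v s w ≤ s := stg_le s w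

/-- the exact clock has not restarted in a life -/
theorem tau_tauS (v : Fin 3) (s : ℕ) (w : Om) : tau M v s w ≤ tauS M v s w := by
  induction s with
  | zero => exact le_of_eq (by unfold tau tauS; rw [stg_zero, stg_zero])
  | succ s ih =>
    rcases stg_or (C := CS M v) s w with h | h
    · unfold tauS
      rw [h]
      exact stg_le _ w
    · have h1 : ¬ CS M v (tauS M v s w) (s + 1) w := by
        intro hc
        have h2 := stg_pos (C := CS M v) hc
        have h3 := stg_le (C := CS M v) s w
        omega
      have h2 : tau M v (s + 1) w = tau M v s w := by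
        rcases stg_or (C := Cx M v) s w with h3 | h3
        · exact absurd (Or.inl h3) h1
        · exact h3
      unfold tauS at ih ⊢
      rw [h, h2]
      exact ih

theorem tau_const {v : Fin 3} {j s : ℕ} {w : Om} (h1 : tauS M v s w ≤ j) (h2 : j ≤ s) : tau M v j w = tau M v s w :=
  stg_mid rfl ((tau_tauS v s w).trans h1) h2

/-- the status is constant in a life -/
theorem sts_const {v : Fin 3} {j s : ℕ} {w : Om} (h1 : tauS M v s w ≤ j) (h2 : j ≤ s) :
    sts M v j w ↔ sts M v s w := by
  induction s, h2 using Nat.le_induction with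
  | base => exact Iff.rfl
  | succ s hs ih =>
    have h3 : tauS M v (s + 1) w ≠ s + 1 := fun h => by omega
    have h4 : tauS M v (s + 1) w = tauS M v s w := by
      rcases stg_or (C := CS M v) s w with h5 | h5
      · exact absurd h5 h3
      · exact h5
    have h5 : sts M v (s + 1) w ↔ sts M v s w := by
      by_contra h6
      exact h3 (stg_pos (Or.inr (by rw [Nat.add_sub_cancel]; exact h6)))
    exact (ih (by rw [← h4]; exact h1)).trans h5.symm

/-- number of the changes of the status of the true vertex at public starts -/
theorem sts_ch (v : Fin 3) (T : ℕ) : ∑ s ∈ range T, M.P.Pr (fun w => ¬ (sts M v (s + 1) w ↔ sts M v s w)) ≤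
    ∑ s ∈ range T, M.P.Pr (fun w => ¬ (hys M v (s + 1) w ↔ hys M v s w)) := by
  set R : ℕ → Om → Prop := fun j w => ¬ (hys M v j w ↔ hys M v (j - 1) w) with hR
  have h1 := ends_in (P := M.P) (C := C0 M) R T
  refine le_trans (sum_le_sum fun s _ => ?_) (h1.trans (le_of_eq ?_))
  · refine M.P.Pr_mono fun w _ hw => ?_
    by_cases h : nu M (s + 1) w = s + 1
    · refine ⟨h, ?_⟩
      by_contra h2
      push Not at h2
      refine hw ?_
      have h3 : ∀ j, stg (C0 M) s w ≤ j → j ≤ s + 1 → (hys M v j w ↔ hys M v (stg (C0 M) s w) w) := by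
        intro j hj
        induction j, hj using Nat.le_induction with
        | base => exact fun _ => Iff.rfl
        | succ j hj ih =>
          intro hj2
          have h4 := h2 (j + 1) (by omega) hj2
          simp only [hR, Nat.add_sub_cancel, not_not] at h4
          exact h4.trans (ih (by omega))
      have h4 := h3 (s + 1) ((stg_le s w).trans (Nat.le_succ s)) le_rfl
      unfold sts
      rw [h]
      exact h4
    · exact absurd (by rw [sts_eq h]) hw
  · refine sum_congr rfl fun s _ => ?_
    simp only [hR, Nat.add_sub_cancel]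

/-- expected number of the starts of the lives -/
theorem NxS_le (v : Fin 3) (T : ℕ) : ∑ s ∈ range T, M.P.Pr (fun w => tauS M v (s + 1) w = s + 1) ≤
    Nx M v T + ∑ s ∈ range T, M.P.Pr (fun w => ¬ (hys M v (s + 1) w ↔ hys M v s w)) := by
  refine le_trans ?_ (add_le_add le_rfl (sts_ch v T))
  unfold Nx
  rw [← sum_add_distrib]
  refine sum_le_sum fun s _ => ?_
  refine le_trans (M.P.Pr_mono fun w _ hw => ?_) (M.P.Pr_or_le _ _)
  have h1 := stg_end (C := CS M v) hw
  rcases h1 with h2 | h2
  · exact Or.inl h2
  · rw [Nat.add_sub_cancel] at h2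
    exact Or.inr h2

end Pool.Agent.GMH.MV
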