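import Pool.Agent.GMH.TopSplit

/-!
# GMH/TwoSplit: `TwoOK` from explicit kinds and four sums (helper63)

Frame two at the vertex `i` : the tops which see `i`, letters `Fo (FQ v t) i` (the letter `i` is `none`); steps `s2 b` :
joint step with status `some i` (`b = false`), joint private step `s = 5` with private status `some i` (`b = true`).
Parameters: thresholds `c : KC` of the kinds, `B` strong letters, released kinds `rk` (`rK`, or `rK2 i` with the pair kind
`kH i`), region `Rg b t w f` of the cut, bits `bt k q` (kind `k`, state `q`; the exact vertex is `i`), `bz k q` (node), price `Dv`.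
* `rel2 b t k w f` : kind `k ∈ rk` of the state `qs (s2 b) t` in the frame two, and `act2` : `k = 1`, or a bad top `j ≠ i` is
  strong in the step (for the pair kind `kH i` any top `j ≠ i`); `bit2 b t k` : joint step: `bz k (5t+1)` or `bt k (5t+1)`;
  private step: `bt k (5t+4)` and `lpv i t` (light private value); `om2 = ind Rg`;
* `RelS2` (released, signed), `UnrS2` (not released, in the region): `DyS2_eq : Dy2 = RelS2 + UnrS2`;
* `act2_true` : the activity of the true tuple; `rw2_01`, `rw2_eq`, `rw2_zero` : the released weight;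
* `rS2` : ratio of the letters of the frame; `rS2_some` : the ratio `rS` of the top, `rS2_self` : at most one at `i`;
* `twoOK2` : `TwoOK` from `RelS2`, `UnrS2`, the prices and `No2`.
-/

set_option autoImplicit false
set_option linter.unusedSectionVars false

namespace Pool.Agent.GMH.TP

open Finset Pool.Agent.PWZ Pool.Agent.M3 Pool.Agent.GM Pool.Agent.GM.Harm Pool.Agent.GMH Pool.Agent.GMH.NZ
open Pool.Agent.GMH.V3 Pool.Agent.GMH.KF

noncomputable section

/-- the kind of the bad pairs of the vertex `i` -/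
def kH (i : Fin 3) : Fin 10 := ![6, 7, 8] i

/-- the released kinds, with the pair kind of the vertex `i` -/
def rK2 (i : Fin 3) : Finset (Fin 10) := {1, 2, 3, 4, 5, kH i}

/-- the tuples of the frame two -/
abbrev T2 (X β φ : Type) : Type := Fin 3 → Option (Tt X β φ)

variable {X β γ φ : Type} [Fintype X] [Fintype β] [Fintype φ] [Nonempty X] [Nonempty β]
variable {D : HD (Fin 3) X β γ φ} {al : ℝ} (h : D.Thick al) (v : ℕ → Finset (Fin 3) → X → (Fin 3 → β) → Pt (Fin 3) X β φ)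
variable (c : KC) (B : ℝ) (i : Fin 3)

/-- the top `j` of the frame two is bad -/
def bd2 (b : Bool) (t : ℕ) (j : Fin 3) (w : Pt (Fin 3) X β φ) (f : T2 X β φ) : Prop :=
  bad (D.P h t) (ZQ D v (qs (s2 b) t)) (Fo (FQ v t) i) c j w f

/-- the top `j` of the tuple is strong in the step -/
def str2 (_ : Fin 3) (b : Bool) (t : ℕ) (j : Fin 3) (w : Pt (Fin 3) X β φ) (f : T2 X β φ) : Prop :=
  ∃ x, f j = some x ∧ B < rS h v (s2 b) t j w x

/-- activity: `R0` always; the others with a strong bad top; the pair kind with a strong top -/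
def act2 (b : Bool) (t : ℕ) (k : Fin 10) (w : Pt (Fin 3) X β φ) (f : T2 X β φ) : Prop :=
  k = 1 ∨ ∃ j, j ≠ i ∧ (k = kH i ∨ bd2 h v c i b t j w f) ∧ str2 h v B i b t j w f

variable (rk : Finset (Fin 10))

/-- **RELEASED RELATIONS OF THE FRAME TWO** -/
def rel2 (b : Bool) (t : ℕ) (k : Fin 10) (w : Pt (Fin 3) X β φ) (f : T2 X β φ) : Prop :=
  k ∈ rk ∧ kdF (D.P h t) (ZQ D v (qs (s2 b) t)) (Fo (FQ v t) i) c k w f ∧ act2 h v c B i b t k w f

variable (Rg : Bool → ℕ → Pt (Fin 3) X β φ → T2 X β φ → Prop) (bt bz : Fin 10 → ℕ → Pt (Fin 3) X β φ → Prop)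

/-- **THE BITS OF THE FRAME TWO** -/
def bit2 (b : Bool) (t : ℕ) (k : Fin 10) (w : Pt (Fin 3) X β φ) : Prop :=
  k ∈ rk ∧ ((b = false ∧ (bz k (5 * t + 1) w ∨ bt k (5 * t + 1) w)) ∨
    (b = true ∧ bt k (5 * t + 4) w ∧ lpv h v i t w))

/-- the cut -/
def om2 (b : Bool) (t : ℕ) (w : Pt (Fin 3) X β φ) (f : T2 X β φ) : ℝ := ind (Rg b t w f)

/-- the weight of the released kinds at the true tuple -/
def rw2 (b : Bool) (t : ℕ) (w : Pt (Fin 3) X β φ) : ℝ :=
  ∑ k, ind (rel2 h v c B i rk b t k w (tup (Fo (FQ v t) i) w)) * ind (bit2 h v i rk bt bz b t k w)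

/-- log density of the true tuple of the frame two in the state before the step -/
def psS2 (b : Bool) (t : ℕ) (w : Pt (Fin 3) X β φ) : ℝ :=
  psC (D.P h t) (ZQ D v (qs (s2 b) t)) (ZbQ D v (qs (s2 b) t)) (Fo (FQ v t) i) w (tup (Fo (FQ v t) i) w)

/-- **RELEASED, SIGNED** -/
def RelS2 (A : Bool → ℕ → Pt (Fin 3) X β φ → Prop) (K : ℝ) (b : Bool) (t : ℕ) : ℝ :=
  (D.P h t).E (fun w => ind (A b t w) * (rw2 h v c B i rk bt bz b t w * max (psS2 h v i b t w) (-K)))

/-- **NOT RELEASED, IN THE REGION** -/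
def UnrS2 (A : Bool → ℕ → Pt (Fin 3) X β φ → Prop) (eta : ℝ) (b : Bool) (t : ℕ) : ℝ :=
  (D.P h t).E (fun w => ind (A b t w) * ((1 - rw2 h v c B i rk bt bz b t w) *
    (ind (Rg b t w (tup (Fo (FQ v t) i) w)) * (max (psS2 h v i b t w) 0 + Real.log (1 / eta)))))

variable {h v c B i rk Rg bt bz}

/-- **THE DYNAMIC TERM OF THE FRAME TWO** -/
theorem DyS2_eq (A : Bool → ℕ → Pt (Fin 3) X β φ → Prop) (eta K : ℝ) (b : Bool) (t : ℕ) :
    Dy2 h v (s2 b) t i (A b t) (rel2 h v c B i rk b t) (bit2 h v i rk bt bz b t) (om2 Rg b t) eta K =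
      RelS2 h v c B i rk bt bz A K b t + UnrS2 h v c B i rk Rg bt bz A eta b t := by
  unfold Dy2 DyG RelS2 UnrS2
  rw [← (D.P h t).E_add]
  refine (D.P h t).E_congr fun w _ => ?_
  show _ * ((∑ k, ind (rel2 h v c B i rk b t k w (tup (Fo (FQ v t) i) w)) * ind (bit2 h v i rk bt bz b t k w)) *
      max (psS2 h v i b t w) (-K) +
    (1 - ∑ k, ind (rel2 h v c B i rk b t k w (tup (Fo (FQ v t) i) w)) * ind (bit2 h v i rk bt bz b t k w)) *
      (ind (Rg b t w (tup (Fo (FQ v t) i) w)) * (max (psS2 h v i b t w) 0 + Real.log (1 / eta)))) = _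
  unfold rw2
  ring

/-! ### activity -/

/-- the entry of a visible top -/
theorem Fo_some (t : ℕ) {j : Fin 3} (hj : j ≠ i) (w : Pt (Fin 3) X β φ) :
    tup (Fo (FQ v t) i) w j = some (FQ v t j w) := by
  show Fo (FQ v t) i j w = _
  unfold Fo
  rw [if_neg hj]

theorem Fo_none (t : ℕ) (w : Pt (Fin 3) X β φ) : tup (Fo (FQ v t) i) w i = none := by
  show Fo (FQ v t) i i w = _
  unfold Fo
  rw [if_pos rfl]

theorem str2_fac (b : Bool) (t : ℕ) (j : Fin 3) (f : T2 X β φ) :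
    Fac (VZ (φ := φ) D v (s2 b) t) (fun w => str2 h v B i b t j w f) := by
  intro x y e
  have h1 : ∀ z, rS h v (s2 b) t j x z = rS h v (s2 b) t j y z := fun z => rS_fac (s2 b) t j z x y e
  show str2 h v B i b t j x f = str2 h v B i b t j y f
  unfold str2
  simp only [h1]

theorem bd2_fac (b : Bool) (t : ℕ) (j : Fin 3) (f : T2 X β φ) :
    Fac (VZ (φ := φ) D v (s2 b) t) (fun w => bd2 h v c i b t j w f) := fun x y e =>
  bad_fac (D.P h t) (Fo (FQ v t) i) c j f x y (VZ_Z (s2 b) t x y e)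

theorem act2_fac (b : Bool) (t : ℕ) (k : Fin 10) (f : T2 X β φ) :
    Fac (VZ (φ := φ) D v (s2 b) t) (fun w => act2 h v c B i b t k w f) := by
  intro x y e
  have h1 : ∀ j, str2 h v B i b t j x f = str2 h v B i b t j y f := fun j => str2_fac b t j f x y e
  have h2 : ∀ j, bd2 h v c i b t j x f = bd2 h v c i b t j y f := fun j => bd2_fac b t j f x y e
  show act2 h v c B i b t k x f = act2 h v c B i b t k y f
  unfold act2
  simp only [h1, h2]

/-- a strong top of the true tuple -/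
theorem str2_true (b : Bool) (t : ℕ) {j : Fin 3} (hj : j ≠ i) (w : Pt (Fin 3) X β φ) :
    str2 h v B i b t j w (tup (Fo (FQ v t) i) w) ↔ B < rS h v (s2 b) t j w (FQ v t j w) := by
  unfold str2
  rw [Fo_some t hj w]
  constructor
  · rintro ⟨x, e, hx⟩
    rw [Option.some.inj e]
    exact hx
  · exact fun hx => ⟨_, rfl, hx⟩

/-- the activity of the true tuple -/
theorem act2_true (b : Bool) (t : ℕ) (k : Fin 10) (w : Pt (Fin 3) X β φ) :
    act2 h v c B i b t k w (tup (Fo (FQ v t) i) w) ↔ k = 1 ∨ ∃ j, j ≠ i ∧ (k = kH i ∨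
      bd2 h v c i b t j w (tup (Fo (FQ v t) i) w)) ∧ B < rS h v (s2 b) t j w (FQ v t j w) := by
  unfold act2
  constructor
  · rintro (h0 | ⟨j, hj, h1, h2⟩)
    · exact Or.inl h0
    · exact Or.inr ⟨j, hj, h1, (str2_true b t hj w).1 h2⟩
  · rintro (h0 | ⟨j, hj, h1, h2⟩)
    · exact Or.inl h0
    · exact Or.inr ⟨j, hj, h1, (str2_true b t hj w).2 h2⟩

/-! ### kinds, weights -/

theorem rel2_fac (b : Bool) (t : ℕ) (k : Fin 10) (f : T2 X β φ) :
    Fac (VZ (φ := φ) D v (s2 b) t) (fun w => rel2 h v c B i rk b t k w f) := by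
  intro x y e
  have h1 : act2 h v c B i b t k x f = act2 h v c B i b t k y f := act2_fac b t k f x y e
  have h2 : kdF (D.P h t) (ZQ D v (qs (s2 b) t)) (Fo (FQ v t) i) c k x f =
      kdF (D.P h t) (ZQ D v (qs (s2 b) t)) (Fo (FQ v t) i) c k y f :=
    kdF_fac (D.P h t) (Fo (FQ v t) i) c k f x y (VZ_Z (s2 b) t x y e)
  show rel2 h v c B i rk b t k x f = rel2 h v c B i rk b t k y f
  unfold rel2
  rw [h1, h2]

theorem bit2_joint (t : ℕ) (k : Fin 10) (w : Pt (Fin 3) X β φ) : bit2 h v i rk bt bz false t k w ↔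
    k ∈ rk ∧ (bz k (5 * t + 1) w ∨ bt k (5 * t + 1) w) := by
  unfold bit2
  simp

theorem bit2_priv (t : ℕ) (k : Fin 10) (w : Pt (Fin 3) X β φ) : bit2 h v i rk bt bz true t k w ↔
    k ∈ rk ∧ bt k (5 * t + 4) w ∧ lpv h v i t w := by
  unfold bit2
  simp

theorem rw2_01 (b : Bool) (t : ℕ) (w : Pt (Fin 3) X β φ) :
    0 ≤ rw2 h v c B i rk bt bz b t w ∧ rw2 h v c B i rk bt bz b t w ≤ 1 := by
  classical
  refine ⟨Finset.sum_nonneg fun _ _ => mul_nonneg (ind_nonneg _) (ind_nonneg _), ?_⟩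
  by_cases hex : ∃ k, rel2 h v c B i rk b t k w (tup (Fo (FQ v t) i) w)
  · obtain ⟨k, hk⟩ := hex
    unfold rw2
    rw [Finset.sum_eq_single k (fun k' _ hne => by
      rw [ind_not fun hk' => hne (kdF_dis hk'.2.1 hk.2.1), zero_mul]) (fun hh => absurd (mem_univ k) hh)]
    calc _ ≤ 1 * 1 := mul_le_mul (ind_le_one _) (ind_le_one _) (ind_nonneg _) zero_le_one
      _ = 1 := one_mul 1
  · push Not at hex
    unfold rw2
    rw [Finset.sum_eq_zero fun k _ => by rw [ind_not (hex k), zero_mul]]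
    exact zero_le_one

/-- one kind, one bit -/
theorem rw2_eq (b : Bool) (t : ℕ) {k : Fin 10} {w : Pt (Fin 3) X β φ}
    (hk : rel2 h v c B i rk b t k w (tup (Fo (FQ v t) i) w)) :
    rw2 h v c B i rk bt bz b t w = ind (bit2 h v i rk bt bz b t k w) := by
  classical
  unfold rw2
  rw [Finset.sum_eq_single k (fun k' _ hne => by
    rw [ind_not fun hk' => hne (kdF_dis hk'.2.1 hk.2.1), zero_mul]) (fun hh => absurd (mem_univ k) hh), ind_of hk, one_mul]

theorem rw2_zero (b : Bool) (t : ℕ) {w : Pt (Fin 3) X β φ}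
    (hk : ∀ k, ¬ (rel2 h v c B i rk b t k w (tup (Fo (FQ v t) i) w) ∧ bit2 h v i rk bt bz b t k w)) :
    rw2 h v c B i rk bt bz b t w = 0 := by
  unfold rw2
  refine Finset.sum_eq_zero fun k _ => ?_
  by_cases h1 : rel2 h v c B i rk b t k w (tup (Fo (FQ v t) i) w)
  · rw [ind_not fun h2 => hk k ⟨h1, h2⟩, mul_zero]
  · rw [ind_not h1, zero_mul]

/-- **`TwoOK` FROM FOUR SUMS** -/
theorem twoOK2 {T : ℕ} {Lam : ℝ} (hL : 2 ≤ Lam) {p : AP} {Gd : ℕ → Pt (Fin 3) X β φ → Prop}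
    {st : ℕ → Pt (Fin 3) X β φ → Option (Fin 3)} {sv : ℕ → Pt (Fin 3) X β φ → Option (Fin 3)}
    (fR : ∀ b t f, Fac (VZ (φ := φ) D v (s2 b) t) (fun w => Rg b t w f)) {eta K : ℝ} (heta : 0 < eta) (heta1 : eta ≤ 1)
    (hK : 0 ≤ K) (hK1 : K ≤ 3 * Lam) {Dv : Bool → ℕ → Fin 10 → ℝ}
    (dev : ∀ t < T, ∀ b k, ∀ g : Pt (Fin 3) X β φ → ℝ, Fac (fun w => (tup (Fo (FQ v t) i) w, VZ D v (s2 b) t w)) g →
      (∀ w, |g w| ≤ 1) → |(D.P h t).E (fun w => ind (aV h v p Gd st sv i b t w ∧ bit2 h v i rk bt bz b t k w) *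
        (g w - (D.P h t).ce (VZ D v (s2 b) t) g w))| ≤ Dv b t k)
    (hRel : ∑ t ∈ range T, ∑ b, RelS2 h v c B i rk bt bz (aV h v p Gd st sv i) K b t ≤ (pw Lam 17)⁻¹)
    (hUnr : ∑ t ∈ range T, ∑ b, UnrS2 h v c B i rk Rg bt bz (aV h v p Gd st sv i) eta b t ≤ (pw Lam 17)⁻¹)
    (hPr : ∑ t ∈ range T, ∑ b, ∑ k, (3 * Lam + Real.log (1 / eta)) * Dv b t k ≤ (pw Lam 16)⁻¹)
    {E : ℝ} (hNo : ∑ t ∈ range T, ∑ b, No2 h v (s2 b) t i (aV h v p Gd st sv i b t) (rel2 h v c B i rk b t)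
      (bit2 h v i rk bt bz b t) (om2 Rg b t) eta ≤ E) : TwoOK h v p Gd st sv T Lam i E := by
  refine ⟨Fin 10, inferInstance, fun b t => rel2 h v c B i rk b t, fun b t => bit2 h v i rk bt bz b t,
    fun b t => om2 Rg b t, Dv, eta, K, heta, heta1, hK, hK1, fun t ht b => ?_, ?_, hPr, hNo⟩
  · exact { relf := fun k f => rel2_fac b t k f
            dis := fun w f k k' h1 h2 => kdF_dis h1.2.1 h2.2.1
            omf := fun f => (fR b t f).comp fun q => ind q
            om0 := fun _ _ => ind_nonneg _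
            om1 := fun _ _ => ind_le_one _
            dev := dev t ht b }
  · have e1 : ∀ t b, Dy2 h v (s2 b) t i (aV h v p Gd st sv i b t) (rel2 h v c B i rk b t) (bit2 h v i rk bt bz b t)
        (om2 Rg b t) eta K = RelS2 h v c B i rk bt bz (aV h v p Gd st sv i) K b t +
          UnrS2 h v c B i rk Rg bt bz (aV h v p Gd st sv i) eta b t := fun t b =>
      DyS2_eq (aV h v p Gd st sv i) eta K b t
    simp only [e1, Finset.sum_add_distrib]
    have h1 : 2 * (pw Lam 17)⁻¹ ≤ (pw Lam 16)⁻¹ := by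
      have h2 : pw Lam 17 = pw Lam 16 * (2 * Lam) := by unfold pw; ring
      have h3 : 0 < pw Lam 16 := by unfold pw; positivity
      rw [h2, mul_inv]
      have h4 : 2 * (2 * Lam)⁻¹ ≤ 1 := by
        rw [← div_eq_mul_inv, div_le_one (by linarith)]
        linarith
      have h5 : 0 < (pw Lam 16)⁻¹ := inv_pos.2 h3
      nlinarith
    linarith

/-! ### the ratios of the frame two -/

variable (h v i) in
/-- the ratio of the letter `x` of the entry `j` of the frame two in the step `s` -/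
def rS2 (s : Fin 6) (t : ℕ) (j : Fin 3) (w : Pt (Fin 3) X β φ) (x : Option (Tt X β φ)) : ℝ :=
  rr (D.P h t) (ZbQ D v (qs s t) j) (Fo (FQ v t) i j) (ZbQ D v (qe s t) j) w (ZbQ D v (qe s t) j w) x

/-- the ratio of a visible top -/
theorem rS2_some (s : Fin 6) (t : ℕ) {j : Fin 3} (hj : j ≠ i) (w : Pt (Fin 3) X β φ) (x : Tt X β φ) :
    rS2 h v i s t j w (some x) = rS h v s t j w x := by
  have e1 : ∀ u : Pt (Fin 3) X β φ, (Fo (FQ v t) i j u = some x) = (FQ v t j u = x) := by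
    intro u
    unfold Fo
    rw [if_neg hj]
    exact propext ⟨fun e => Option.some.inj e, fun e => congrArg some e⟩
  have e2 : ∀ (y : _) (u : Pt (Fin 3) X β φ), ((ZbQ D v (qe s t) j u, Fo (FQ v t) i j u) = (y, some x)) =
      ((ZbQ D v (qe s t) j u, FQ v t j u) = (y, x)) := by
    intro y u
    refine propext ⟨fun e => Prod.ext (Prod.mk.inj e).1 ?_, fun e => Prod.ext (Prod.mk.inj e).1 ?_⟩
    · exact (e1 u).mp (Prod.mk.inj e).2
    · exact (e1 u).mpr (Prod.mk.inj e).2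
  unfold rS2 rS rr qy FP.pv
  simp only [e1, e2]

/-- the missing entry is never strong -/
theorem rS2_self (s : Fin 6) (t : ℕ) {w : Pt (Fin 3) X β φ} (hw : (D.P h t).p w ≠ 0) (x : Option (Tt X β φ)) :
    rS2 h v i s t i w x ≤ 1 := by
  have e1 : ∀ u : Pt (Fin 3) X β φ, Fo (FQ v t) i i u = none := by
    intro u
    unfold Fo
    rw [if_pos rfl]
  cases x with
  | none =>
    have e2 : ∀ (y : _) (u : Pt (Fin 3) X β φ), ((ZbQ D v (qe s t) i u, Fo (FQ v t) i i u) = (y, none)) =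
        (ZbQ D v (qe s t) i u = y) := by
      intro y u
      exact propext ⟨fun e => (Prod.mk.inj e).1, fun e => Prod.ext e (e1 u)⟩
    have e3 : (D.P h t).pv (ZbQ D v (qs s t) i) (Fo (FQ v t) i i) w none = 1 := by
      unfold FP.pv
      have e4 : (fun u => ind (Fo (FQ v t) i i u = (none : Option (Tt X β φ)))) = fun _ : Pt (Fin 3) X β φ => (1 : ℝ) :=
        funext fun u => ind_of (e1 u)
      rw [e4]
      exact FP.ce_const _ _ 1 hw
    have e5 : qy (D.P h t) (ZbQ D v (qs s t) i) (Fo (FQ v t) i i) (ZbQ D v (qe s t) i) w (ZbQ D v (qe s t) i w)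
        none = (D.P h t).pv (ZbQ D v (qs s t) i) (ZbQ D v (qe s t) i) w (ZbQ D v (qe s t) i w) := by
      unfold qy FP.pv
      simp only [e2]
    unfold rS2 rr
    rw [e3, e5, mul_one]
    exact div_self_le_one _
  | some x =>
    have e2 : ∀ (y : _) (u : Pt (Fin 3) X β φ), ¬ ((ZbQ D v (qe s t) i u, Fo (FQ v t) i i u) = (y, some x)) := by
      intro y u hh
      have h2 := (Prod.mk.inj hh).2
      rw [e1 u] at h2
      exact absurd h2 (by simp)
    have e3 : qy (D.P h t) (ZbQ D v (qs s t) i) (Fo (FQ v t) i i) (ZbQ D v (qe s t) i) w (ZbQ D v (qe s t) i w)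
        (some x) = 0 := by
      unfold qy FP.pv
      have e4 : (fun u => ind ((ZbQ D v (qe s t) i u, Fo (FQ v t) i i u) = (ZbQ D v (qe s t) i w, some x))) =
          fun _ : Pt (Fin 3) X β φ => (0 : ℝ) := funext fun u => ind_not (e2 _ u)
      rw [e4]
      exact FP.ce_const _ _ 0 hw
    unfold rS2 rr
    rw [e3, zero_div]
    exact zero_le_one

end

end Pool.Agent.GMH.TP
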