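import Pool.Agent.GMH.StpT
import Pool.Agent.GMH.TwoSplit
import Pool.Agent.GMH.MVS

/-!
# GMH/MVT (helper45): the status of the vertices on the run (H3.MOV, M.7, M.10 (d), M.11)

`st`, `sp` of `GMH/TopFin` (v5) from the status `sts` of `GMH/MVS` (read at the start of the public epoch).
* `fstV s` : the first vertex with the property `s`, order `1, 0, 2` (`c`, `b`, `d` of H3.MOV); (nothing: no vertex);
* `stP M t` (joint step, state `5t+1`); `spP h M t` (joint private step, state `5t+4`): first vertex with status AND a light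
  private value in the step;
* `stP_fac`, `spP_fac` : seen by `VZ` (the form of `TopKin`); `stP_old` : seen by the old state;
* `stP_pt`, `spP_pt` : at the sample point; `lpO` : light private value on the table space; `lpv_pt`, `rpO_iff`;
* `aV_false`, `aV_true`, `aN_1`, `aN_5` : what the points of the families of `TopFin` know about the status.
-/

set_option autoImplicit false
set_option linter.unusedSectionVars false

namespace Pool.Agent.GMH.MVT

open Finset Pool.Agent.PWZ Pool.Agent.M3 Pool.Agent.GM Pool.Agent.GM.Harm Pool.Agent.GMH Pool.Agent.GMH.NZ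
open Pool.Agent.GMH.V3 Pool.Agent.GMH.TP Pool.Agent.GMH.TD Pool.Agent.GMH.Dy Pool.Agent.GMH.MV Pool.Agent.GMH.MVI
open Pool.Agent.GMH.UV Pool.Agent.GMH.KF Pool.Agent.GMH.TRF

noncomputable section

/-! ### the first vertex with status -/

section first

open Classical in
/-- the first vertex with the property, order `1, 0, 2` -/
def fstV (s : Fin 3 → Prop) : Option (Fin 3) :=
  if s 1 then some 1 else if s 0 then some 0 else if s 2 then some 2 else Option.none

theorem fstV_congr {s s' : Fin 3 → Prop} (h : ∀ i, s i ↔ s' i) : fstV s = fstV s' := by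
  have e : s = s' := funext fun i => propext (h i)
  rw [e]

theorem fstV_some {s : Fin 3 → Prop} {i : Fin 3} (h : fstV s = some i) : s i := by
  unfold fstV at h
  split_ifs at h with h1 h2 h3
  · obtain rfl := Option.some.inj h
    exact h1
  · obtain rfl := Option.some.inj h
    exact h2
  · obtain rfl := Option.some.inj h
    exact h3

theorem fstV_none {s : Fin 3 → Prop} : fstV s = Option.none ↔ ∀ i, ¬ s i := by
  unfold fstV
  constructor
  · intro h
    split_ifs at h with h1 h2 h3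
    intro i
    fin_cases i
    · exact h2
    · exact h1
    · exact h3
  · intro h
    rw [if_neg (h 1), if_neg (h 0), if_neg (h 2)]

/-- exactly one vertex -/
theorem fstV_eq {s : Fin 3 → Prop} {i : Fin 3} (hi : s i) (h : ∀ c, c ≠ i → ¬ s c) : fstV s = some i := by
  rcases h1 : fstV s with _ | c
  · exact absurd hi (fstV_none.1 h1 i)
  · by_cases hc : c = i
    · rw [hc]
    · exact absurd (fstV_some h1) (h c hc)

end first

variable {X β γ φ : Type} [Fintype X] [Fintype β] [Fintype φ] [Nonempty X] [Nonempty β]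
variable {D : HD (Fin 3) X β γ φ} {al : ℝ} {h : D.Thick al} {prr : ℕ → Fin 3 → φ → φ} {T : ℕ} {W : Type} [Fintype W]
variable (tb : Tab D prr T W) {v : ℕ → Finset (Fin 3) → X → (Fin 3 → β) → Pt (Fin 3) X β φ}

/-! ### the status on `Pt` -/

/-- status in the joint step of the time `t` -/
def stP (M : MS (Om W X β)) (t : ℕ) (u : Pt (Fin 3) X β φ) : Option (Fin 3) := fstV fun i => lft (sts M i (5 * t + 1)) u

/-- status in the joint private step of the time `t` : status of `i` at the state `5t+4`, light private value of `i` -/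
def spP (h : D.Thick al) (M : MS (Om W X β)) (v : ℕ → Finset (Fin 3) → X → (Fin 3 → β) → Pt (Fin 3) X β φ) (t : ℕ)
    (u : Pt (Fin 3) X β φ) : Option (Fin 3) := fstV fun i => lft (sts M i (5 * t + 4)) u ∧ lpv h v i t u

/-- light private value of the vertex `i` in the substep `q`, on the table space -/
def lpO (tb : Tab D prr T W) (v : ℕ → Finset (Fin 3) → X → (Fin 3 → β) → Pt (Fin 3) X β φ) (i : Fin 3) (q : ℕ)
    (w : Om W X β) : Prop :=
  2 * tb.Ps.m (fun u => (XLo tb v i (q + 1) u, NPo tb v (q + 1) u)) w < tb.Ps.m (fun u => (XLo tb v i q u, NPo tb v q u)) w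

theorem lpv_pt {t : ℕ} (ht : t ≤ T) (i : Fin 3) (w : Om W X β) : lpv h v i t (tb.pt t w) ↔ lpO tb v i (5 * t + 4) w :=
  LVp_pt h tb v ht i (5 * t + 4) w

/-- a private removal is a light private value at a heavy public value -/
theorem rpO_iff {i : Fin 3} {q : ℕ} {w : Om W X β} : rpO tb v i q w ↔ q % 5 = 4 ∧ lpO tb v i q w ∧
    tb.Ps.m (NPo tb v (5 * (q / 5) + 1)) w ≤ 2 * tb.Ps.m (NPo tb v (5 * (q / 5) + 2)) w := Iff.rfl

/-- a light private value is seen by the new state -/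
theorem lpv_fac (i : Fin 3) (t : ℕ) : Fac (ZQ (φ := φ) D v (5 * t + 5)) (lpv h v i t) := by
  intro a b e
  have e1 : (fun u => (XLq v (5 * t + 5) i u, NPq D v (5 * t + 5) u)) a =
      (fun u => (XLq v (5 * t + 5) i u, NPq D v (5 * t + 5) u)) b := XLq_ZQ (5 * t + 5) i a b e
  have e2 : (fun u => (XLq v (5 * t + 4) i u, NPq D v (5 * t + 4) u)) a =
      (fun u => (XLq v (5 * t + 4) i u, NPq D v (5 * t + 4) u)) b :=
    XLq_ZQ (5 * t + 4) i a b (ZQ_mono (by omega) a b e)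
  show (_ < _) = (_ < _)
  rw [(D.P h t).Fac_m _ a b e1, (D.P h t).Fac_m _ a b e2]

section run

variable {d1 kb d0 k0 p1 z : ℝ} (hd1 : 0 < d1) (hd11 : d1 ≤ 1) (hkb : 0 < kb) (hd0 : 0 < d0) (hd01 : d0 ≤ 1) (hk0 : 0 < k0)
  (hp1 : 0 < p1) (hz : 0 < z)

/-- the status is seen by the class of the vertex -/
theorem sts_cls (i : Fin 3) (q : ℕ) : Fac (fun w : Om W X β => (XLo tb v i q w, NPo tb v q w))
    (sts (MSi tb (v := v) d1 kb d0 k0 p1 z hd1 hd11 hkb hd0 hd01 hk0 hp1 hz) i q) :=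
  sts_fac (M := MSi tb (v := v) d1 kb d0 k0 p1 z hd1 hd11 hkb hd0 hd01 hk0 hp1 hz) i q

/-- the status sees the positions only -/
theorem sts_pos (i : Fin 3) (q : ℕ) :
    Pos (sts (MSi tb (v := v) d1 kb d0 k0 p1 z hd1 hd11 hkb hd0 hd01 hk0 hp1 hz) i q) := fun a b e =>
  sts_cls tb hd1 hd11 hkb hd0 hd01 hk0 hp1 hz i q a b (pos_CN tb (v := v) i q a b e)

/-- the status at the sample point -/
theorem spP_pt {t : ℕ} (ht : t ≤ T) (w : Om W X β) :
    spP h (MSi tb (v := v) d1 kb d0 k0 p1 z hd1 hd11 hkb hd0 hd01 hk0 hp1 hz) v t (tb.pt t w) =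
      fstV fun i => sts (MSi tb (v := v) d1 kb d0 k0 p1 z hd1 hd11 hkb hd0 hd01 hk0 hp1 hz) i (5 * t + 4) w ∧
        lpO tb v i (5 * t + 4) w :=
  fstV_congr fun i => and_congr (lft_pt (sts_pos tb (v := v) hd1 hd11 hkb hd0 hd01 hk0 hp1 hz i (5 * t + 4)) t w)
    (lpv_pt tb ht i w)

theorem stP_pt (t r : ℕ) (w : Om W X β) :
    stP (φ := φ) (MSi tb (v := v) d1 kb d0 k0 p1 z hd1 hd11 hkb hd0 hd01 hk0 hp1 hz) t (tb.pt r w) =
      fstV fun i => sts (MSi tb (v := v) d1 kb d0 k0 p1 z hd1 hd11 hkb hd0 hd01 hk0 hp1 hz) i (5 * t + 1) w :=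
  fstV_congr fun i => lft_pt (sts_pos tb (v := v) hd1 hd11 hkb hd0 hd01 hk0 hp1 hz i (5 * t + 1)) r w

/-- the status of a state is seen by the thin labels of every later state -/
theorem sts_ZQ (i : Fin 3) {s q : ℕ} (hs : s ≤ q) : Fac (ZQ (φ := φ) D v q)
    (lft (sts (MSi tb (v := v) d1 kb d0 k0 p1 z hd1 hd11 hkb hd0 hd01 hk0 hp1 hz) i s)) :=
  lft_CN_ZQ tb hs (sts_cls tb hd1 hd11 hkb hd0 hd01 hk0 hp1 hz i s)

/-- **the status is a function of the old state, joint step** -/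
theorem stP_old (t : ℕ) : Fac (ZQ (φ := φ) D v (5 * t + 1))
    (stP (φ := φ) (MSi tb (v := v) d1 kb d0 k0 p1 z hd1 hd11 hkb hd0 hd01 hk0 hp1 hz) t) := fun a b e =>
  fstV_congr fun i => iff_of_eq (sts_ZQ tb hd1 hd11 hkb hd0 hd01 hk0 hp1 hz i le_rfl a b e)

theorem stP_fac (t : ℕ) : Fac (VZ (φ := φ) D v 1 t)
    (stP (φ := φ) (MSi tb (v := v) d1 kb d0 k0 p1 z hd1 hd11 hkb hd0 hd01 hk0 hp1 hz) t) := fun a b e =>
  stP_old tb hd1 hd11 hkb hd0 hd01 hk0 hp1 hz t a b (VZ_Z 1 t a b e)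

/-- **the status of the private step is seen by the two states** -/
theorem spP_fac (t : ℕ) : Fac (VZ (φ := φ) D v 5 t)
    (spP h (MSi tb (v := v) d1 kb d0 k0 p1 z hd1 hd11 hkb hd0 hd01 hk0 hp1 hz) v t) := fun a b e =>
  fstV_congr fun i => and_congr
    (iff_of_eq (sts_ZQ tb hd1 hd11 hkb hd0 hd01 hk0 hp1 hz i (le_refl (5 * t + 4)) a b (Prod.mk.inj e).2))
    (iff_of_eq (lpv_fac i t a b (Prod.mk.inj e).1))

/-! ### what the points of the families know -/

variable (p : AP) (Gd : ℕ → Pt (Fin 3) X β φ → Prop)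

/-- joint step with status `some i` : the vertex `i` has status at the state `5t+1` -/
theorem aV_false (i : Fin 3) (t r : ℕ) {w : Om W X β}
    (ha : TP.aV h v p Gd (stP (MSi tb (v := v) d1 kb d0 k0 p1 z hd1 hd11 hkb hd0 hd01 hk0 hp1 hz))
      (spP h (MSi tb (v := v) d1 kb d0 k0 p1 z hd1 hd11 hkb hd0 hd01 hk0 hp1 hz) v) i false t (tb.pt r w)) :
    sts (MSi tb (v := v) d1 kb d0 k0 p1 z hd1 hd11 hkb hd0 hd01 hk0 hp1 hz) i (5 * t + 1) w := by
  have h1 : stP (φ := φ) (MSi tb (v := v) d1 kb d0 k0 p1 z hd1 hd11 hkb hd0 hd01 hk0 hp1 hz) t (tb.pt r w) = some i := ha.2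
  rw [stP_pt tb hd1 hd11 hkb hd0 hd01 hk0 hp1 hz t r w] at h1
  exact fstV_some h1

/-- joint private step with status `some i` : status and light private value of `i` -/
theorem aV_true (i : Fin 3) {t : ℕ} (ht : t ≤ T) {w : Om W X β}
    (ha : TP.aV h v p Gd (stP (MSi tb (v := v) d1 kb d0 k0 p1 z hd1 hd11 hkb hd0 hd01 hk0 hp1 hz))
      (spP h (MSi tb (v := v) d1 kb d0 k0 p1 z hd1 hd11 hkb hd0 hd01 hk0 hp1 hz) v) i true t (tb.pt t w)) :
    sts (MSi tb (v := v) d1 kb d0 k0 p1 z hd1 hd11 hkb hd0 hd01 hk0 hp1 hz) i (5 * t + 4) w ∧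
      lpO tb v i (5 * t + 4) w := by
  have h1 : spP h (MSi tb (v := v) d1 kb d0 k0 p1 z hd1 hd11 hkb hd0 hd01 hk0 hp1 hz) v t (tb.pt t w) = some i := ha.2
  rw [spP_pt tb hd1 hd11 hkb hd0 hd01 hk0 hp1 hz ht w] at h1
  exact fstV_some h1

/-- joint step which is not split: no vertex has status -/
theorem aN_1 (t r : ℕ) {w : Om W X β}
    (ha : TP.aN h v p Gd (stP (MSi tb (v := v) d1 kb d0 k0 p1 z hd1 hd11 hkb hd0 hd01 hk0 hp1 hz))
      (spP h (MSi tb (v := v) d1 kb d0 k0 p1 z hd1 hd11 hkb hd0 hd01 hk0 hp1 hz) v) 1 t (tb.pt r w)) (i : Fin 3) :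
    ¬ sts (MSi tb (v := v) d1 kb d0 k0 p1 z hd1 hd11 hkb hd0 hd01 hk0 hp1 hz) i (5 * t + 1) w := by
  have h1 := ha.2.2.2.1 rfl
  rw [stP_pt tb hd1 hd11 hkb hd0 hd01 hk0 hp1 hz t r w] at h1
  exact fstV_none.1 h1 i

/-- joint private step which is not split: a vertex with a light private value has no status -/
theorem aN_5 {t : ℕ} (ht : t ≤ T) {w : Om W X β}
    (ha : TP.aN h v p Gd (stP (MSi tb (v := v) d1 kb d0 k0 p1 z hd1 hd11 hkb hd0 hd01 hk0 hp1 hz))
      (spP h (MSi tb (v := v) d1 kb d0 k0 p1 z hd1 hd11 hkb hd0 hd01 hk0 hp1 hz) v) 5 t (tb.pt t w)) (i : Fin 3)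
    (hi : lpO tb v i (5 * t + 4) w) :
    ¬ sts (MSi tb (v := v) d1 kb d0 k0 p1 z hd1 hd11 hkb hd0 hd01 hk0 hp1 hz) i (5 * t + 4) w := fun hs => by
  have h1 := ha.2.2.2.2 rfl
  rw [spP_pt tb hd1 hd11 hkb hd0 hd01 hk0 hp1 hz ht w] at h1
  exact fstV_none.1 h1 i ⟨hs, hi⟩

end run

end

end Pool.Agent.GMH.MVT
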