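import Pool.Agent.GMH.TTot

/-!
# GMH/TopDef: the time of the top level = SUBSTEPS (helper11)

`q = 5 t + j` : `j = 0` digit, `j = 1` the public code `V_∅`, `j = 2, 3` nothing, `j = 4` the private codes of the three
vertices, added together (the states `5 t + 2`, `5 t + 3`, `5 t + 4` are equal).  State of the thin labels before the substep `q` : `nc q J` codes of the class `J`, node of the time
`nn q`; the law and the tops are those of the time `q / 5`.
* `ZQ q`, `ZbQ q i` = all thin labels, what the top without `i` sees; `FQ t i` = the tops; `XLq q i` the letter of the vertex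
  `i`, `NPq q` the public information;
* `lsQ t q q'` = pointwise loss from the state `q` to the state `q'` (law and tops of the time `t`); it telescopes
  (`lsQ_add`);
* (`GMH/TopEq`) the loss of the codes = `lsQ t (5 t + 1) (5 t + 5)`, the loss of the digit = `lsQ t (5 t) (5 t + 1)`.
-/

set_option autoImplicit false
set_option linter.unusedSectionVars false

namespace Pool.Agent.GMH.TP

open Finset Pool.Agent.PWZ Pool.Agent.M3 Pool.Agent.GM Pool.Agent.GM.Harm Pool.Agent.GMH Pool.Agent.GMH.NZ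
open Pool.Agent.GMH.V3

noncomputable section

/-! ### the states -/

/-- order of the additions -/
def rk (J : Finset (Fin 3)) : ℕ :=
  if J = ∅ then 1 else if J.card = 1 then 4 else 9

/-- number of codes of the class `J` before the substep `j` of the time `t` -/
def ncj (t j : ℕ) (J : Finset (Fin 3)) : ℕ := t + 1 + if rk J < j then 1 else 0

/-- time of the node before the substep `j` of the time `t` -/
def nnj (t j : ℕ) : ℕ := if j = 0 then t else t + 1

/-- number of codes of the class `J` before the substep `q` -/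
def nc (q : ℕ) (J : Finset (Fin 3)) : ℕ := ncj (q / 5) (q % 5) J

/-- time of the node before the substep `q` -/
def nn (q : ℕ) : ℕ := nnj (q / 5) (q % 5)

theorem rk_le {J : Finset (Fin 3)} (hJ : pth J) : rk J ≤ 4 := by
  have key : ∀ J : Finset (Fin 3), J.card ≤ 1 → rk J ≤ 4 := by decide
  exact key J hJ

theorem nc_add (t j : ℕ) {J : Finset (Fin 3)} (hJ : pth J) (hj : j ≤ 5) : nc (5 * t + j) J = ncj t j J := by
  have h4 := rk_le hJ
  unfold nc
  rcases Nat.lt_or_ge j 5 with h | h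
  · rw [show (5 * t + j) / 5 = t by omega, show (5 * t + j) % 5 = j by omega]
  · obtain rfl : j = 5 := by omega
    rw [show (5 * t + 5) / 5 = t + 1 by omega, show (5 * t + 5) % 5 = 0 by omega]
    unfold ncj
    rw [if_pos (show rk J < 5 by omega), if_neg (Nat.not_lt_zero _)]

theorem nn_add (t j : ℕ) (hj : j ≤ 5) : nn (5 * t + j) = nnj t j := by
  unfold nn
  rcases Nat.lt_or_ge j 5 with h | h
  · rw [show (5 * t + j) / 5 = t by omega, show (5 * t + j) % 5 = j by omega]
  · obtain rfl : j = 5 := by omega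
    rw [show (5 * t + 5) / 5 = t + 1 by omega, show (5 * t + 5) % 5 = 0 by omega]
    unfold nnj
    rw [if_pos rfl, if_neg (by omega)]

theorem ncj_mono (t : ℕ) {j j' : ℕ} (hj : j ≤ j') (J : Finset (Fin 3)) : ncj t j J ≤ ncj t j' J := by
  unfold ncj
  split_ifs <;> omega

theorem nnj_mono (t : ℕ) {j j' : ℕ} (hj : j ≤ j') : nnj t j ≤ nnj t j' := by
  unfold nnj
  split_ifs <;> omega

theorem nc_succ (q : ℕ) {J : Finset (Fin 3)} (hJ : pth J) : nc q J ≤ nc (q + 1) J := by
  have h1 : q = 5 * (q / 5) + q % 5 := by omega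
  have h2 : q + 1 = 5 * (q / 5) + (q % 5 + 1) := by omega
  conv_rhs => rw [h2]
  conv_lhs => rw [h1]
  rw [nc_add _ _ hJ (by omega), nc_add _ _ hJ (by omega)]
  exact ncj_mono _ (Nat.le_succ _) J

theorem nn_succ (q : ℕ) : nn q ≤ nn (q + 1) := by
  have h1 : q = 5 * (q / 5) + q % 5 := by omega
  have h2 : q + 1 = 5 * (q / 5) + (q % 5 + 1) := by omega
  conv_rhs => rw [h2]
  conv_lhs => rw [h1]
  rw [nn_add _ _ (by omega), nn_add _ _ (by omega)]
  exact nnj_mono _ (Nat.le_succ _)

theorem nc_mono {q q' : ℕ} (hq : q ≤ q') {J : Finset (Fin 3)} (hJ : pth J) : nc q J ≤ nc q' J := by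
  induction hq with
  | refl => exact le_rfl
  | step _ ih => exact ih.trans (nc_succ _ hJ)

theorem nn_mono {q q' : ℕ} (hq : q ≤ q') : nn q ≤ nn q' := by
  induction hq with
  | refl => exact le_rfl
  | step _ ih => exact ih.trans (nn_succ _)

/-- a class never has more codes than its node allows -/
theorem nc_le (q : ℕ) (J : Finset (Fin 3)) : nc q J ≤ nn q + 1 := by
  unfold nc nn ncj nnj
  split_ifs <;> omega

theorem nn_le (q : ℕ) : q / 5 ≤ nn q := by
  unfold nn nnj
  split_ifs <;> omega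

section hd

variable {X β γ φ υ : Type} [Fintype X] [Fintype β] [Fintype φ] [Nonempty X] [Nonempty β]
variable (D : HD (Fin 3) X β γ φ) {al : ℝ} (v : ℕ → Finset (Fin 3) → X → (Fin 3 → β) → υ)

omit [Nonempty X] [Nonempty β] in
/-- the label of the class `J` before the substep `q` -/
def SL (q : ℕ) (J : Finset (Fin 3)) (w : Pt (Fin 3) X β φ) : List υ × (Fin 3 → Option φ) := LL (Um v (nc q J)) J w

/-- all thin labels -/
def ZQ (q : ℕ) (w : Pt (Fin 3) X β φ) :
    ({J : Finset (Fin 3) // pth J} → List υ × (Fin 3 → Option φ)) × ((Fin 3 → β) × (γ × (Fin 3 → γ))) :=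
  (all (LP pth (SL v q)) w, WW D (nn q) w)

/-- what the top without the vertex `i` sees -/
def ZbQ (q : ℕ) (i : Fin 3) (w : Pt (Fin 3) X β φ) :
    (Finset (Fin 3) → Option (List υ × (Fin 3 → Option φ))) × ((Fin 3 → Option β) × (γ × (Fin 3 → γ))) :=
  (lo (SL v q) (univ.erase i) w, BB D (nn q) (univ.erase i) w)

/-- the tops of the time `t` -/
def FQ (t : ℕ) (i : Fin 3) (w : Pt (Fin 3) X β φ) : List υ × (Fin 3 → Option φ) := FT v (Equiv.refl (Fin 3)) (t + 1) i w

/-- the public information before the substep `q` -/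
def NPq (q : ℕ) (w : Pt (Fin 3) X β φ) : List υ × (γ × (Fin 3 → γ)) := NP D v (nc q ∅) (nn q) w

/-- the letter of the vertex `i` before the substep `q` -/
def XLq (q : ℕ) (i : Fin 3) (w : Pt (Fin 3) X β φ) : β × List υ := XL v (nc q {i}) i w

variable {D v}

theorem SL_mono {q q' : ℕ} (hq : q ≤ q') {J : Finset (Fin 3)} (hJ : pth J) :
    Fac (SL (φ := φ) v q' J) (SL v q J) := fun _ _ hab => LL_mono (nc_mono hq hJ) hab

theorem nd_succ' (n : ℕ) : Fac (fun w : Pt (Fin 3) X β φ => nd D (n + 1) w) (fun w => nd D n w) := by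
  intro a b hab
  unfold nd at hab ⊢
  simp only [Prod.mk.injEq] at hab ⊢
  exact ⟨D.ra n _ _ hab.1, funext fun j => D.rb n _ _ (congrFun hab.2 j)⟩

theorem nd_mono' {n n' : ℕ} (hn : n ≤ n') : Fac (fun w : Pt (Fin 3) X β φ => nd D n' w) (fun w => nd D n w) := by
  induction hn with
  | refl => exact fun _ _ h => h
  | step _ ih => exact fun a b hab => ih a b (nd_succ' _ a b hab)

theorem WW_mono' {n n' : ℕ} (hn : n ≤ n') : Fac (WW (φ := φ) D n') (WW D n) := by
  intro a b hab
  unfold WW at hab ⊢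
  simp only [Prod.mk.injEq] at hab ⊢
  exact ⟨hab.1, nd_mono' hn a b hab.2⟩

theorem BB_mono' {n n' : ℕ} (hn : n ≤ n') (J : Finset (Fin 3)) : Fac (BB (φ := φ) D n' J) (BB D n J) := by
  intro a b hab
  unfold BB at hab ⊢
  simp only [Prod.mk.injEq] at hab ⊢
  exact ⟨hab.1, nd_mono' hn a b hab.2⟩

theorem card3 : Fintype.card (Fin 3) = 3 := rfl

theorem ZQ_mono {q q' : ℕ} (hq : q ≤ q') : Fac (ZQ (φ := φ) D v q') (ZQ D v q) := by
  intro a b hab
  unfold ZQ at hab ⊢
  simp only [Prod.mk.injEq] at hab ⊢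
  exact ⟨funext fun J => SL_mono hq J.2 a b (congrFun hab.1 J), WW_mono' (nn_mono hq) a b hab.2⟩

theorem ZQ_Zb (q : ℕ) (i : Fin 3) : Fac (ZQ (φ := φ) D v q) (ZbQ D v q i) := by
  intro a b hab
  unfold ZQ ZbQ at *
  simp only [Prod.mk.injEq] at hab ⊢
  exact ⟨lo_eq.2 fun I hI => congrFun hab.1 ⟨I, lt_pth card3 (ne_univ i) hI⟩, WW_BB D (nn q) _ a b hab.2⟩

theorem ZbQ_mono {q q' : ℕ} (hq : q ≤ q') (i : Fin 3) : Fac (ZbQ (φ := φ) D v q' i) (ZbQ D v q i) := by
  intro a b hab
  unfold ZbQ at *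
  simp only [Prod.mk.injEq] at hab ⊢
  exact ⟨lo_eq.2 fun I hI => SL_mono hq (lt_pth card3 (ne_univ i) hI) a b (lo_eq.1 hab.1 I hI),
    BB_mono' (nn_mono hq) _ a b hab.2⟩

/-! ### losses -/

variable (h : D.Thick al)

variable (v) in
/-- the pointwise loss from the state `q` to the state `q'`, law and tops of the time `t` -/
def lsQ (t q q' : ℕ) (w : Pt (Fin 3) X β φ) : ℝ :=
  lossC (D.P h t) (ZQ D v q) (ZbQ D v q) (FQ v t) (ZbQ D v q') (ZQ D v q') w

variable (v) in
/-- the log density of the tops at the true tuple, state `q` -/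
def iQ (t q : ℕ) (w : Pt (Fin 3) X β φ) : ℝ :=
  ∑ i, sp (D.P h t) (FQ v t i) (ZbQ D v q i) w - sp (D.P h t) (tup (FQ v t)) (ZQ D v q) w

theorem lsQ_eq {t q q' : ℕ} (hq : q ≤ q') {w : Pt (Fin 3) X β φ} (hw : (D.P h t).p w ≠ 0) :
    lsQ v h t q q' w = iQ v h t q w - iQ v h t q' w := by
  unfold lsQ iQ
  rw [lossC_sp (D.P h t) (FQ v t) hw]
  have e1 : ∀ i, sp (D.P h t) (FQ v t i) (fun u => (ZbQ D v q' i u, ZbQ D v q i u)) w =
      sp (D.P h t) (FQ v t i) (ZbQ D v q' i) w := by
    intro i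
    refine sp_congr (D.P h t) (Fac.fst _ _) (fun a b hab => ?_) (Fac.fst _ _) (fun a b hab => ?_) w
    · simp only [Prod.mk.injEq] at hab; exact hab.1
    · simp only [Prod.mk.injEq]; exact ⟨hab, ZbQ_mono hq i a b hab⟩
  have e2 : sp (D.P h t) (tup (FQ v t)) (fun u => (ZQ D v q' u, ZQ D v q u)) w =
      sp (D.P h t) (tup (FQ v t)) (ZQ D v q') w := by
    refine sp_congr (D.P h t) (Fac.fst _ _) (fun a b hab => ?_) (Fac.fst _ _) (fun a b hab => ?_) w
    · simp only [Prod.mk.injEq] at hab; exact hab.1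
    · simp only [Prod.mk.injEq]; exact ⟨hab, ZQ_mono hq a b hab⟩
  rw [e2]
  simp only [e1]
  rw [Finset.sum_sub_distrib]
  ring

/-- **the losses telescope** -/
theorem lsQ_add {t q q' q'' : ℕ} (hq : q ≤ q') (hq' : q' ≤ q'') {w : Pt (Fin 3) X β φ} (hw : (D.P h t).p w ≠ 0) :
    lsQ v h t q q'' w = lsQ v h t q q' w + lsQ v h t q' q'' w := by
  rw [lsQ_eq h (hq.trans hq') hw, lsQ_eq h hq hw, lsQ_eq h hq' hw]
  ring

end hd

end

end Pool.Agent.GMH.TP
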