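import Pool.Agent.GMH.TabP
import Pool.Agent.GMH.TopDef

/-!
# GMH/MVIp: the points do not see the public value of a code step (helper21, for MVI of helper34)

Space with tables, law `tb.Ps`.  `nx` = cells of the seven coordinates, with the cells `D.qa` of the hidden point.
`ndE D E n` = cell of the hidden point, exact points of `E`, cells of all points, time `n`.

* `nd_ci` : given `ndE D E n` the points and (hidden point, exact points of `E`, cells) are independent;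
* `pr_gen` : `N'` a function of `sgt D E n`, `N' → N → ndE D E n` : `m (Y, N') m N = m (Y, N) m N'`, `Y` = all the points;
* `NPq_sgt`, `XLq_sgt`, `prN_Ps`, `prX_Ps` : the instances for the states of `GMH/TopDef`.
-/

set_option autoImplicit false
set_option linter.unusedSectionVars false

namespace Pool.Agent.GMH.MVIp

open Finset Pool.Agent.PWZ Pool.Agent.M3 Pool.Agent.GM Pool.Agent.GM.Harm Pool.Agent.GMH
open Pool.Agent.GMH.Gdy Pool.Agent.GMH.Dy
open Pool.Agent.GMH.Crd (Ind Rel Sg rel_top rel_zero rel_succ)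

variable {X β γ φ : Type} [Fintype X] [Fintype β] [Fintype φ] [Nonempty X] [Nonempty β]
variable {D : HD (Fin 3) X β γ φ} {al : ℝ} {prr : ℕ → Fin 3 → φ → φ} {T : ℕ} {W : Type} [Fintype W]
variable (tb : Tab D prr T W)

noncomputable section

/-- types of the cells -/
def Cx (γ : Type) : Unit ⊕ (Fin 3 ⊕ Fin 3) → ℕ → Type
  | Sum.inl _ => fun _ => γ
  | Sum.inr (Sum.inl _) => fun _ => Unit
  | Sum.inr (Sum.inr _) => fun _ => γ

/-- cells, also of the hidden point -/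
def nx (D : HD (Fin 3) X β γ φ) : ∀ (i : Unit ⊕ (Fin 3 ⊕ Fin 3)) (s : ℕ), CE W X β i → Cx γ i s
  | Sum.inl _ => fun s x => D.qa s x
  | Sum.inr (Sum.inl _) => fun _ _ => ()
  | Sum.inr (Sum.inr _) => fun s b => D.qb s b

/-- levels of the coordinates -/
def lv (a : ℕ∞) (b c : Fin 3 → ℕ∞) : Unit ⊕ (Fin 3 ⊕ Fin 3) → ℕ∞
  | Sum.inl _ => a
  | Sum.inr (Sum.inl i) => b i
  | Sum.inr (Sum.inr j) => c j

theorem lv_min (a a' : ℕ∞) (b c b' c' : Fin 3 → ℕ∞) (i : Unit ⊕ (Fin 3 ⊕ Fin 3)) :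
    lv (min a a') (fun i => min (b i) (b' i)) (fun i => min (c i) (c' i)) i = min (lv a b c i) (lv a' b' c' i) := by
  match i with
  | Sum.inl _ => rfl
  | Sum.inr (Sum.inl _) => rfl
  | Sum.inr (Sum.inr _) => rfl

variable (D) in
/-- agreement of the hidden points at the level `m` -/
def Rx (m : ℕ∞) (a b : X) : Prop := (m = ⊤ → a = b) ∧ ∀ s : ℕ, (s : ℕ∞) < m → D.qa s a = D.qa s b

theorem rx_top {a b : X} : Rx D ⊤ a b ↔ a = b :=
  ⟨fun hr => hr.1 rfl, fun hr => by rw [hr]; exact ⟨fun _ => rfl, fun _ _ => rfl⟩⟩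

theorem rx_zero {a b : X} : Rx D 0 a b := ⟨fun hh => absurd hh (by simp), fun s hs => absurd hs (by simp)⟩

theorem rx_succ {n : ℕ} {a b : X} : Rx D ((n + 1 : ℕ) : ℕ∞) a b ↔ D.qa n a = D.qa n b := by
  constructor
  · intro hr
    exact hr.2 n (by exact_mod_cast Nat.lt_succ_self _)
  · intro hr
    refine ⟨fun hh => absurd hh (ENat.natCast_ne_top _), fun s hs => ?_⟩
    have hs' : s < n + 1 := by exact_mod_cast hs
    exact qa_le (D := D) (show s ≤ n by omega) hr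

/-- a sight in coordinates -/
theorem sx_iff {α : Type*} {a : ℕ∞} {S : Finset (Fin 3)} {c : Fin 3 → ℕ∞} {A : Om W X β → α} :
    Sg (nx (W := W) D) CC (lv a (eS S) c) A ↔
      ∀ v w, A v = A w ↔ (Rx D a v.1 w.1 ∧ (∀ i ∈ S, v.2.1 i = w.2.1 i) ∧ ∀ j, Rp D (c j) (v.2.2 j) (w.2.2 j)) := by
  unfold Sg
  refine forall_congr' fun v => forall_congr' fun w => ?_
  have e : (∀ i, Rel (nx (W := W) D) i (lv a (eS S) c i) (CC i v) (CC i w)) ↔
      (Rx D a v.1 w.1 ∧ (∀ i ∈ S, v.2.1 i = w.2.1 i) ∧ ∀ j, Rp D (c j) (v.2.2 j) (w.2.2 j)) := by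
    constructor
    · intro hr
      refine ⟨hr (Sum.inl ()), fun i hi => ?_, fun j => hr (Sum.inr (Sum.inr j))⟩
      have h1 := hr (Sum.inr (Sum.inl i))
      have h2 : lv a (eS S) c (Sum.inr (Sum.inl i)) = ⊤ := if_pos hi
      rw [h2] at h1
      exact rel_top.1 h1
    · rintro ⟨h1, h2, h3⟩ i
      match i with
      | Sum.inl _ => exact h1
      | Sum.inr (Sum.inl i) =>
        by_cases hi : i ∈ S
        · have h4 : lv a (eS S) c (Sum.inr (Sum.inl i)) = ⊤ := if_pos hi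
          rw [h4]
          exact rel_top.2 (h2 i hi)
        · have h4 : lv a (eS S) c (Sum.inr (Sum.inl i)) = 0 := if_neg hi
          rw [h4]
          exact rel_zero
      | Sum.inr (Sum.inr j) => exact h3 j
  rw [e]

/-- cell of the hidden point, exact points of `E`, cells of all points -/
def ndE (D : HD (Fin 3) X β γ φ) (E : Finset (Fin 3)) (n : ℕ) (w : Om W X β) : γ × (Fin 3 → Option β) × (Fin 3 → γ) :=
  (D.qa n w.1, (fun j => if j ∈ E then some (w.2.2 j) else none), fun j => D.qb n (w.2.2 j))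

theorem ndE_eq {E : Finset (Fin 3)} {n : ℕ} {v w : Om W X β} : ndE D E n v = ndE D E n w ↔
    D.qa n v.1 = D.qa n w.1 ∧ (∀ j ∈ E, v.2.2 j = w.2.2 j) ∧ ∀ j, D.qb n (v.2.2 j) = D.qb n (w.2.2 j) := by
  unfold ndE
  rw [Prod.mk.injEq, Prod.mk.injEq, opt_eq, funext_iff]

theorem sx_ndE (E : Finset (Fin 3)) (n : ℕ) :
    Sg (nx (W := W) D) CC (lv ((n + 1 : ℕ) : ℕ∞) (eS ∅) (eC E fun _ => n)) (ndE (W := W) D E n) := by
  rw [sx_iff]
  intro v w
  rw [ndE_eq, rx_succ]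
  simp only [rp_eC, notMem_empty, false_implies, implies_true, true_and]
  exact and_congr_right fun _ => ⟨fun hh j => ⟨hh.1 j, hh.2 j⟩, fun hh => ⟨fun j => (hh j).1, fun j => (hh j).2⟩⟩

theorem sx_sgt (E : Finset (Fin 3)) (n : ℕ) :
    Sg (nx (W := W) D) CC (lv ⊤ (eS ∅) (eC E fun _ => n)) (sgt (W := W) D E n) := by
  rw [sx_iff]
  intro v w
  rw [sgt_eq, rx_top]
  simp only [rp_eC, notMem_empty, false_implies, implies_true, true_and]
  exact and_congr_right fun _ => ⟨fun hh j => ⟨hh.1 j, hh.2 j⟩, fun hh => ⟨fun j => (hh j).1, fun j => (hh j).2⟩⟩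

/-- given the node and exact points of `E` : the hidden point against the points -/
theorem nd_ci (E : Finset (Fin 3)) (n : ℕ) :
    tb.Ps.CI (ndE D E n) (sgt D E n) (ndE D univ n) := by
  refine Crd.ci (ind_Ps (tb := tb)) (sx_sgt E n) (sx_ndE univ n) (sx_ndE E n) fun i => ?_
  match i with
  | Sum.inl _ => exact (min_top_left _).symm
  | Sum.inr (Sum.inl _) => exact (min_self _).symm
  | Sum.inr (Sum.inr j) =>
    show eC E (fun _ => n) j = min (eC E (fun _ => n) j) (eC univ (fun _ => n) j)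
    rw [← min_eC, Finset.inter_univ]

theorem sgt_ndE (E : Finset (Fin 3)) (n : ℕ) : Fac (sgt (W := W) D E n) (ndE D E n) := fun _ _ e =>
  ndE_eq.2 ⟨by rw [(sgt_eq.1 e).1], (sgt_eq.1 e).2.1, (sgt_eq.1 e).2.2⟩

theorem pr_key (E : Finset (Fin 3)) (n : ℕ) {κ : Type*} {M : Om W X β → κ} (hM : Fac (sgt D E n) M)
    (hM' : Fac M (ndE D E n)) {η : Type*} {Y : Om W X β → η} (hY : Fac (fun w : Om W X β => w.2.2) Y) (w : Om W X β) :
    tb.Ps.m (fun u => (Y u, M u)) w = tb.Ps.ce (ndE D E n) (fun u => ind (Y u = Y w)) w * tb.Ps.m M w := by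
  set f : Om W X β → ℝ := fun u => ind (Y u = Y w) with hf
  have ff : Fac (ndE D univ n) f := Fac.ind fun u v e => by
    rw [hY u v (funext fun j => (ndE_eq.1 e).2.1 j (mem_univ j))]
  have e1 : tb.Ps.m (fun u => (Y u, M u)) w = tb.Ps.E (fun u => ind (M u = M w) * f u) := by
    unfold FP.m
    refine tb.Ps.E_congr fun u _ => ?_
    rw [Prod.mk.injEq, ind_and, mul_comm]
  have e2 : tb.Ps.E (fun u => ind (M u = M w) * f u) = tb.Ps.E (fun u => ind (M u = M w) * tb.Ps.ce (sgt D E n) f u) :=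
    (tb.Ps.E_mul_ce (Fac.ind fun u v e => by rw [hM u v e]) f).symm
  have e3 : tb.Ps.ce (ndE D E n) f w * tb.Ps.m M w = tb.Ps.E (fun u => ind (M u = M w) * tb.Ps.ce (ndE D E n) f w) := by
    rw [mul_comm]
    unfold FP.m
    rw [← tb.Ps.E_mul_const]
  rw [e1, e2, e3]
  refine tb.Ps.E_congr fun u hu => ?_
  rw [Crd.ce_ci (nd_ci tb E n) (sgt_ndE E n) ff hu]
  by_cases hM2 : M u = M w
  · rw [tb.Ps.ce_fac (ndE D E n) f u w (hM' u w hM2)]
  · rw [ind_not hM2, zero_mul, zero_mul]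

/-- **the general form** -/
theorem pr_gen (E : Finset (Fin 3)) (n : ℕ) {κ κ' : Type*} {N' : Om W X β → κ'} {N : Om W X β → κ}
    (h1 : Fac (sgt D E n) N') (h2 : Fac N' N) (h3 : Fac N (ndE D E n)) {η : Type*} {Y : Om W X β → η}
    (hY : Fac (fun w : Om W X β => w.2.2) Y) (w : Om W X β) :
    tb.Ps.m (fun u => (Y u, N' u)) w * tb.Ps.m N w = tb.Ps.m (fun u => (Y u, N u)) w * tb.Ps.m N' w := by
  rw [pr_key tb E n h1 (h2.trans h3) hY w, pr_key tb E n (h1.trans h2) h3 hY w]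
  ring

/-! ## the states of `GMH/TopDef` -/

section top

open Pool.Agent.GMH.V3 Pool.Agent.GMH.TP

variable {υ : Type} {v : ℕ → Finset (Fin 3) → X → (Fin 3 → β) → υ}

theorem Um_sgt (hv : Codes D v) {s n : ℕ} (hsn : s ≤ n + 1) {I E : Finset (Fin 3)} (hIE : I ⊆ E) {a b : Om W X β}
    (e : sgt D E n a = sgt D E n b) : Um v s I a.1 a.2.2 = Um v s I b.1 b.2.2 := by
  obtain ⟨h1, h2, h3⟩ := sgt_eq.1 e
  rw [Um_iff]
  intro r hr
  rw [h1]
  exact hv r I b.1 a.2.2 b.2.2 (fun j hj => h2 j (hIE hj)) fun j => qb_mono D (by omega) (h3 j)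

/-- the public information is a function of the hidden point and of the cells -/
theorem NPq_sgt (hv : Codes D v) {q n : ℕ} (hq : TP.nn q ≤ n) (hq' : nc q ∅ ≤ n + 1) (E : Finset (Fin 3)) (t : ℕ) :
    Fac (sgt (W := W) D E n) (fun w => NPq D v q (tb.pt t w)) := by
  intro a b e
  obtain ⟨h1, h2, h3⟩ := sgt_eq.1 e
  show (Um v (nc q ∅) ∅ a.1 a.2.2, (D.qa (TP.nn q) a.1, fun j => D.qb (TP.nn q) (a.2.2 j))) =
    (Um v (nc q ∅) ∅ b.1 b.2.2, (D.qa (TP.nn q) b.1, fun j => D.qb (TP.nn q) (b.2.2 j)))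
  rw [Um_sgt hv hq' (Finset.empty_subset E) e, h1]
  simp only [Prod.mk.injEq, true_and]
  exact funext fun j => qb_mono D hq (h3 j)

/-- the letter of the vertex `i` -/
theorem XLq_sgt (hv : Codes D v) {q n : ℕ} {i : Fin 3} (hq : nc q {i} ≤ n + 1) {E : Finset (Fin 3)} (hi : i ∈ E) (t : ℕ) :
    Fac (sgt (W := W) D E n) (fun w => XLq v q i (tb.pt t w)) := by
  intro a b e
  show (a.2.2 i, Um v (nc q {i}) {i} a.1 a.2.2) = (b.2.2 i, Um v (nc q {i}) {i} b.1 b.2.2)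
  rw [Um_sgt hv hq (Finset.singleton_subset_iff.2 hi) e, (sgt_eq.1 e).2.1 i hi]

theorem NPq_ndE (q : ℕ) (t : ℕ) : Fac (fun w : Om W X β => NPq D v q (tb.pt t w)) (ndE D ∅ (TP.nn q)) := by
  intro a b e
  have e' : (Um v (nc q ∅) ∅ a.1 a.2.2, (D.qa (TP.nn q) a.1, fun j => D.qb (TP.nn q) (a.2.2 j))) =
    (Um v (nc q ∅) ∅ b.1 b.2.2, (D.qa (TP.nn q) b.1, fun j => D.qb (TP.nn q) (b.2.2 j))) := e
  simp only [Prod.mk.injEq] at e'
  exact ndE_eq.2 ⟨e'.2.1, fun j hj => absurd hj (notMem_empty j), fun j => congrFun e'.2.2 j⟩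

theorem NVq_ndE (q : ℕ) (i : Fin 3) (t : ℕ) :
    Fac (fun w : Om W X β => (XLq v q i (tb.pt t w), NPq D v q (tb.pt t w))) (ndE D {i} (TP.nn q)) := by
  intro a b e
  have e1 := (Prod.mk.inj e).1
  have e2 := ndE_eq.1 (NPq_ndE tb (v := v) q t a b (Prod.mk.inj e).2)
  have e3 : a.2.2 i = b.2.2 i := (Prod.mk.inj e1).1
  exact ndE_eq.2 ⟨e2.1, fun j hj => by rw [Finset.mem_singleton.1 hj]; exact e3, e2.2.2⟩

theorem nn_code {q : ℕ} (hq : q % 5 ≠ 0) : TP.nn (q + 1) = TP.nn q := by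
  have h1 : q = 5 * (q / 5) + q % 5 := by omega
  have h2 : q + 1 = 5 * (q / 5) + (q % 5 + 1) := by omega
  conv_lhs => rw [h2]
  conv_rhs => rw [h1]
  rw [nn_add _ _ (by omega), nn_add _ _ (by omega)]
  unfold nnj
  rw [if_neg (by omega), if_neg hq]

/-- **the points do not see the value of a code step**, public class -/
theorem prN_Ps (hv : Codes D v) {q : ℕ} (hq : q % 5 ≠ 0) (t : ℕ) {η : Type*} {Y : Om W X β → η}
    (hY : Fac (fun w : Om W X β => w.2.2) Y) (w : Om W X β) :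
    tb.Ps.m (fun u => (Y u, NPq D v (q + 1) (tb.pt t u))) w * tb.Ps.m (fun u => NPq D v q (tb.pt t u)) w =
      tb.Ps.m (fun u => (Y u, NPq D v q (tb.pt t u))) w * tb.Ps.m (fun u => NPq D v (q + 1) (tb.pt t u)) w := by
  refine pr_gen tb ∅ (TP.nn q) (NPq_sgt tb hv (nn_code hq).le ?_ ∅ t) (fun a b e => ?_) (NPq_ndE tb q t) hY w
  · have := nc_le (q + 1) ∅
    rw [nn_code hq] at this
    exact this
  · have e' : (Um v (nc (q + 1) ∅) ∅ a.1 a.2.2, (D.qa (TP.nn (q + 1)) a.1, fun j => D.qb (TP.nn (q + 1)) (a.2.2 j))) =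
      (Um v (nc (q + 1) ∅) ∅ b.1 b.2.2, (D.qa (TP.nn (q + 1)) b.1, fun j => D.qb (TP.nn (q + 1)) (b.2.2 j))) := e
    rw [nn_code hq] at e'
    show (Um v (nc q ∅) ∅ a.1 a.2.2, (D.qa (TP.nn q) a.1, fun j => D.qb (TP.nn q) (a.2.2 j))) =
      (Um v (nc q ∅) ∅ b.1 b.2.2, (D.qa (TP.nn q) b.1, fun j => D.qb (TP.nn q) (b.2.2 j)))
    simp only [Prod.mk.injEq] at e' ⊢
    exact ⟨Um_older (a := tb.pt t a) (b := tb.pt t b) (nc_succ q (by show (∅ : Finset (Fin 3)).card ≤ 1; simp)) e'.1, e'.2⟩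

/-- **the points do not see the public value of a code step**, class of an exact vertex -/
theorem prX_Ps (hv : Codes D v) {q : ℕ} (hq : q % 5 ≠ 0) (i : Fin 3) (t : ℕ) {η : Type*} {Y : Om W X β → η}
    (hY : Fac (fun w : Om W X β => w.2.2) Y) (w : Om W X β) :
    tb.Ps.m (fun u => (Y u, (NPq D v (q + 1) (tb.pt t u), (XLq v q i (tb.pt t u), NPq D v q (tb.pt t u))))) w *
        tb.Ps.m (fun u => (XLq v q i (tb.pt t u), NPq D v q (tb.pt t u))) w =
      tb.Ps.m (fun u => (Y u, (XLq v q i (tb.pt t u), NPq D v q (tb.pt t u)))) w *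
        tb.Ps.m (fun u => (NPq D v (q + 1) (tb.pt t u), (XLq v q i (tb.pt t u), NPq D v q (tb.pt t u)))) w := by
  have hi : i ∈ ({i} : Finset (Fin 3)) := Finset.mem_singleton_self i
  have h1 := NPq_sgt tb (q := q + 1) (n := TP.nn q) hv (nn_code hq).le (by
    have := nc_le (q + 1) ∅
    rw [nn_code hq] at this
    exact this) {i} t
  have h2 := NPq_sgt tb (q := q) (n := TP.nn q) hv le_rfl (nc_le q ∅) {i} t
  have h3 := XLq_sgt tb (q := q) (n := TP.nn q) (i := i) hv (nc_le q {i}) hi t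
  exact pr_gen tb {i} (TP.nn q) (h1.prod (h3.prod h2)) (Fac.snd _ _) (NVq_ndE tb q i t) hY w

end top

end

end Pool.Agent.GMH.MVIp
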