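import Pool.Agent.GMH.MVI
import Pool.Agent.GMH.MVIp

/-!
# GMH/MVIq: `PrN`, `PrX` for the instance `MSi` (helper21)
-/

set_option autoImplicit false
set_option linter.unusedSectionVars false

namespace Pool.Agent.GMH.MVI

open Finset Pool.Agent.PWZ Pool.Agent.M3 Pool.Agent.GM Pool.Agent.GM.Harm Pool.Agent.GMH
open Pool.Agent.GMH.Dy Pool.Agent.GMH.MV

variable {X β γ φ υ : Type} [Fintype X] [Fintype β] [Fintype φ] [Nonempty X] [Nonempty β]
variable {D : HD (Fin 3) X β γ φ} {prr : ℕ → Fin 3 → φ → φ} {T : ℕ} {W : Type} [Fintype W]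
variable (tb : Tab D prr T W) {v : ℕ → Finset (Fin 3) → X → (Fin 3 → β) → υ}
variable {d1 kb d0 k0 p1 z : ℝ} (hd1 : 0 < d1) (hd11 : d1 ≤ 1) (hkb : 0 < kb) (hd0 : 0 < d0) (hd01 : d0 ≤ 1) (hk0 : 0 < k0)
  (hp1 : 0 < p1) (hz : 0 < z)

/-- the points do not see the value of a code step, public class -/
theorem prN (hv : Codes D v) : PrN (MSi tb (v := v) d1 kb d0 k0 p1 z hd1 hd11 hkb hd0 hd01 hk0 hp1 hz) := fun s hs w _ =>
  MVIp.prN_Ps tb hv hs 0
    (Y := YF (MSi tb (v := v) d1 kb d0 k0 p1 z hd1 hd11 hkb hd0 hd01 hk0 hp1 hz) (univ, univ))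
    (fun a b (e : a.2.2 = b.2.2) => funext fun j => congrFun e j) w

/-- the points do not see the public value of a code step, class of an exact vertex -/
theorem prX (hv : Codes D v) : PrX (MSi tb (v := v) d1 kb d0 k0 p1 z hd1 hd11 hkb hd0 hd01 hk0 hp1 hz) := fun i s hs w _ =>
  MVIp.prX_Ps tb hv hs i 0
    (Y := YF (MSi tb (v := v) d1 kb d0 k0 p1 z hd1 hd11 hkb hd0 hd01 hk0 hp1 hz) (univ, univ))
    (fun a b (e : a.2.2 = b.2.2) => funext fun j => congrFun e j) w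

end Pool.Agent.GMH.MVI
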