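import Pool.Agent.GMH.V3Def

/-! # GMH/V3S: Lemma S for three letters on alive letters, new private codes, covariance of the dead masses
(statements helper91, proofs helper80)

* `lemS3` : Lemma S for three letters, any cut part `g`;  `jensen3` : new private codes only increase the potential;
* `KK3_eq` : the gains as informations;  `cov3_le` : covariance of the alive masses;
* `gV_le`, `gV_zero` : size of the cut part.
-/

set_option autoImplicit false
set_option linter.unusedSectionVars false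

namespace Pool.Agent.GMH.V3

open Finset Pool.Agent.PWZ Pool.Agent.M3 Pool.Agent.GMH Pool.Agent.GMH.NZ

variable {Om : Type*} [Fintype Om] {P : FP Om} {κ ι θ ν : Type*} {X : Om → κ} {Y : Om → ι} {Z : Om → θ} {V : Om → ν}

/-! ### averages over `V` -/

theorem cond_mul (V : Om → ν) (v : ν) (f : Om → ℝ) :
    lw P V v * (P.cond fun w => V w = v).E f = P.E fun w => ind (V w = v) * f w := by
  by_cases h : P.Pr (fun w => V w = v) = 0
  · have h1 : lw P V v = 0 := h
    rw [h1, zero_mul]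
    have h2 : ∀ w, P.p w ≠ 0 → ind (V w = v) * f w = 0 := by
      intro w hw
      by_cases hv : V w = v
      · exact absurd h (FP.Pr_pos_of (S := fun w => V w = v) hw hv).ne'
      · rw [ind_not hv, zero_mul]
    rw [← P.E_const 0]
    exact P.E_congr fun w hw => (h2 w hw).symm
  · rw [FP.cond_E h]
    exact mul_div_cancel₀ _ h

theorem sum_cond (V : Om → ν) (F : ν → Om → ℝ) :
    ∑ v ∈ vals V, lw P V v * (P.cond fun w => V w = v).E (F v) = P.E fun w => F (V w) w := by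
  rw [Finset.sum_congr rfl fun v _ => cond_mul V v (F v), ← P.E_sum]
  exact P.E_congr fun w _ => FP.sum_vals V (fun v => F v w) w

theorem lw3_nonneg (P : FP Om) (X : Om → κ) (Y : Om → ι) (Z : Om → θ) (x : κ) (y : ι) (z : θ) :
    0 ≤ lw3 P X Y Z x y z :=
  P.E_nonneg fun _ _ => mul_nonneg (mul_nonneg (ind_nonneg _) (ind_nonneg _)) (ind_nonneg _)

theorem sum_lw3 (P : FP Om) (X : Om → κ) (Y : Om → ι) (Z : Om → θ) (F : κ → ι → θ → ℝ) :
    ∑ x ∈ vals X, ∑ y ∈ vals Y, ∑ z ∈ vals Z, lw3 P X Y Z x y z * F x y z = P.E fun w => F (X w) (Y w) (Z w) := by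
  have e1 : ∀ x ∈ vals X, ∀ y ∈ vals Y, ∑ z ∈ vals Z, lw3 P X Y Z x y z * F x y z =
      P.E fun w => ind (X w = x) * (ind (Y w = y) * F x y (Z w)) := by
    intro x _ y _
    have e2 : ∀ z ∈ vals Z, lw3 P X Y Z x y z * F x y z =
        P.E fun w => ind (X w = x) * (ind (Y w = y) * (ind (Z w = z) * F x y z)) := by
      intro z _
      unfold lw3
      rw [← P.E_mul_const]
      congr 1
      funext w
      ring
    rw [Finset.sum_congr rfl e2, ← P.E_sum]
    refine P.E_congr fun w _ => ?_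
    rw [← Finset.mul_sum, ← Finset.mul_sum, FP.sum_vals Z (fun z => F x y z) w]
  have e3 : ∀ x ∈ vals X, ∑ y ∈ vals Y, ∑ z ∈ vals Z, lw3 P X Y Z x y z * F x y z =
      P.E fun w => ind (X w = x) * F x (Y w) (Z w) := by
    intro x hx
    rw [Finset.sum_congr rfl fun y hy => e1 x hx y hy, ← P.E_sum]
    refine P.E_congr fun w _ => ?_
    rw [← Finset.mul_sum, FP.sum_vals Y (fun y => F x y (Z w)) w]
  rw [Finset.sum_congr rfl e3, ← P.E_sum]
  exact P.E_congr fun w _ => FP.sum_vals X (fun x => F x (Y w) (Z w)) w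

theorem lw3_pos {P : FP Om} {w : Om} (hw : P.p w ≠ 0) (X : Om → κ) (Y : Om → ι) (Z : Om → θ) :
    0 < lw3 P X Y Z (X w) (Y w) (Z w) := by
  have h1 : P.p w * (ind (X w = X w) * ind (Y w = Y w) * ind (Z w = Z w)) ≤ lw3 P X Y Z (X w) (Y w) (Z w) := by
    unfold lw3 FP.E
    exact Finset.single_le_sum (f := fun v => P.p v * (ind (X v = X w) * ind (Y v = Y w) * ind (Z v = Z w)))
      (fun v _ => mul_nonneg (P.nn v) (mul_nonneg (mul_nonneg (ind_nonneg _) (ind_nonneg _)) (ind_nonneg _)))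
      (mem_univ w)
  rw [ind_of rfl, ind_of rfl, ind_of rfl, mul_one, mul_one, mul_one] at h1
  exact lt_of_lt_of_le (lt_of_le_of_ne (P.nn w) (Ne.symm hw)) h1

theorem lw_pos {P : FP Om} {w : Om} (hw : P.p w ≠ 0) (X : Om → κ) : 0 < lw P X (X w) := P.m_pos X hw

theorem lw3_le_x (P : FP Om) (X : Om → κ) (Y : Om → ι) (Z : Om → θ) (x : κ) (y : ι) (z : θ) :
    lw3 P X Y Z x y z ≤ lw P X x :=
  P.E_mono fun w _ => by
    have a := ind_le_one (Y w = y)
    have b := ind_le_one (Z w = z)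
    have c := ind_nonneg (Y w = y)
    have d := ind_nonneg (Z w = z)
    have e := ind_nonneg (X w = x)
    calc ind (X w = x) * ind (Y w = y) * ind (Z w = z) ≤ ind (X w = x) * 1 * 1 :=
          mul_le_mul (mul_le_mul_of_nonneg_left a e) b d (by rw [mul_one]; exact e)
      _ = _ := by ring

theorem lw3_le_y (P : FP Om) (X : Om → κ) (Y : Om → ι) (Z : Om → θ) (x : κ) (y : ι) (z : θ) :
    lw3 P X Y Z x y z ≤ lw P Y y :=
  P.E_mono fun w _ => by
    have a := ind_le_one (X w = x)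
    have b := ind_le_one (Z w = z)
    have c := ind_nonneg (Y w = y)
    have d := ind_nonneg (Z w = z)
    calc ind (X w = x) * ind (Y w = y) * ind (Z w = z) ≤ 1 * ind (Y w = y) * 1 :=
          mul_le_mul (mul_le_mul_of_nonneg_right a c) b d (by rw [one_mul]; exact c)
      _ = _ := by ring

theorem lw3_le_z (P : FP Om) (X : Om → κ) (Y : Om → ι) (Z : Om → θ) (x : κ) (y : ι) (z : θ) :
    lw3 P X Y Z x y z ≤ lw P Z z :=
  P.E_mono fun w _ => by
    have a := ind_le_one (X w = x)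
    have b := ind_le_one (Y w = y)
    have c := ind_nonneg (Y w = y)
    have d := ind_nonneg (Z w = z)
    calc ind (X w = x) * ind (Y w = y) * ind (Z w = z) ≤ 1 * 1 * ind (Z w = z) :=
          mul_le_mul_of_nonneg_right (mul_le_mul a b c zero_le_one) d
      _ = _ := by ring

/-- the joint law as a mean over `V` -/
theorem sum_lw3_cond (X : Om → κ) (Y : Om → ι) (Z : Om → θ) (V : Om → ν) (x : κ) (y : ι) (z : θ) :
    ∑ v ∈ vals V, lw P V v * lw3 (P.cond fun w => V w = v) X Y Z x y z = lw3 P X Y Z x y z :=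
  sum_cond V fun _ w => ind (X w = x) * ind (Y w = y) * ind (Z w = z)

/-! ### Lemma S -/

/-- one child -/
theorem lemS3_one {Q P : FP Om} (hac : Q.Ac P) (T : κ → ι → θ → Prop) (g : κ → ι → θ → ℝ) :
    Q.E (fun w => ind (T (X w) (Y w) (Z w)) * (Real.log (D3 P X Y Z (X w) (Y w) (Z w)) -
      Real.log (D3 Q X Y Z (X w) (Y w) (Z w)))) ≤
    Q.E (fun w => ind (T (X w) (Y w) (Z w)) * g (X w) (Y w) (Z w)) +
      ∑ x ∈ vals X, ∑ y ∈ vals Y, ∑ z ∈ vals Z, ind (T x y z) *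
        (lw3 P X Y Z x y z * (rt Q P X x * rt Q P Y y * rt Q P Z z * Real.exp (-g x y z)) - lw3 Q X Y Z x y z) := by
  set F : κ → ι → θ → ℝ := fun x y z => rt Q P X x * rt Q P Y y * rt Q P Z z * Real.exp (-g x y z) with hF
  have hF0 : ∀ x y z, 0 ≤ F x y z := fun x y z =>
    mul_nonneg (mul_nonneg (mul_nonneg (rt_nonneg x) (rt_nonneg y)) (rt_nonneg z)) (Real.exp_pos _).le
  have h1 : ∀ w, Q.p w ≠ 0 → ind (T (X w) (Y w) (Z w)) * (Real.log (D3 P X Y Z (X w) (Y w) (Z w)) -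
      Real.log (D3 Q X Y Z (X w) (Y w) (Z w))) ≤ ind (T (X w) (Y w) (Z w)) * g (X w) (Y w) (Z w) +
      ind (T (X w) (Y w) (Z w)) * (lw3 P X Y Z (X w) (Y w) (Z w) * F (X w) (Y w) (Z w) /
        lw3 Q X Y Z (X w) (Y w) (Z w) - 1) := by
    intro w hw
    rw [← mul_add]
    refine mul_le_mul_of_nonneg_left ?_ (ind_nonneg _)
    have hp := hac w hw
    have a1 := lw_pos hw X
    have a2 := lw_pos hw Y
    have a3 := lw_pos hw Z
    have b1 := lw_pos hp X
    have b2 := lw_pos hp Y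
    have b3 := lw_pos hp Z
    have c1 := lw3_pos hw X Y Z
    have c2 := lw3_pos hp X Y Z
    have e1 := Real.exp_pos (-g (X w) (Y w) (Z w))
    have hq : 0 < lw3 P X Y Z (X w) (Y w) (Z w) * F (X w) (Y w) (Z w) / lw3 Q X Y Z (X w) (Y w) (Z w) := by
      refine div_pos (mul_pos c2 ?_) c1
      exact mul_pos (mul_pos (mul_pos (div_pos a1 b1) (div_pos a2 b2)) (div_pos a3 b3)) e1
    have h3 := Real.log_le_sub_one_of_pos hq
    have h4 : Real.log (lw3 P X Y Z (X w) (Y w) (Z w) * F (X w) (Y w) (Z w) / lw3 Q X Y Z (X w) (Y w) (Z w)) =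
        Real.log (D3 P X Y Z (X w) (Y w) (Z w)) - Real.log (D3 Q X Y Z (X w) (Y w) (Z w)) -
          g (X w) (Y w) (Z w) := by
      have h5 : lw3 P X Y Z (X w) (Y w) (Z w) * F (X w) (Y w) (Z w) / lw3 Q X Y Z (X w) (Y w) (Z w) =
          D3 P X Y Z (X w) (Y w) (Z w) / D3 Q X Y Z (X w) (Y w) (Z w) * Real.exp (-g (X w) (Y w) (Z w)) := by
        simp only [hF, rt, D3]
        field_simp
      have d1 : 0 < D3 P X Y Z (X w) (Y w) (Z w) := div_pos c2 (mul_pos (mul_pos b1 b2) b3)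
      have d2 : 0 < D3 Q X Y Z (X w) (Y w) (Z w) := div_pos c1 (mul_pos (mul_pos a1 a2) a3)
      rw [h5, Real.log_mul (div_pos d1 d2).ne' e1.ne', Real.log_exp, Real.log_div d1.ne' d2.ne']
      ring
    linarith
  refine (Q.E_mono h1).trans ?_
  rw [Q.E_add]
  refine add_le_add_right ?_ _
  rw [← sum_lw3 Q X Y Z (fun x y z => ind (T x y z) *
    (lw3 P X Y Z x y z * F x y z / lw3 Q X Y Z x y z - 1))]
  refine Finset.sum_le_sum fun x _ => Finset.sum_le_sum fun y _ => Finset.sum_le_sum fun z _ => ?_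
  rcases (lw3_nonneg Q X Y Z x y z).eq_or_lt with h | h
  · rw [← h, zero_mul, sub_zero]
    exact mul_nonneg (ind_nonneg _) (mul_nonneg (lw3_nonneg P X Y Z x y z) (hF0 x y z))
  · refine le_of_eq ?_
    have e : lw3 P X Y Z x y z * F x y z / lw3 Q X Y Z x y z * lw3 Q X Y Z x y z = lw3 P X Y Z x y z * F x y z :=
      div_mul_cancel₀ _ h.ne'
    calc lw3 Q X Y Z x y z * (ind (T x y z) * (lw3 P X Y Z x y z * F x y z / lw3 Q X Y Z x y z - 1)) =
        ind (T x y z) * (lw3 P X Y Z x y z * F x y z / lw3 Q X Y Z x y z * lw3 Q X Y Z x y z -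
          lw3 Q X Y Z x y z) := by ring
      _ = _ := by rw [e]

/-- **LEMMA S, three letters, alive letters**, any cut part `g` -/
theorem lemS3 (TX : κ → Prop) (TY : ι → Prop) (TZ : θ → Prop) (g : ν → κ → ι → θ → ℝ) :
    P.E (fun w => ind (TX (X w) ∧ TY (Y w) ∧ TZ (Z w)) * (Real.log (D3 P X Y Z (X w) (Y w) (Z w)) -
      Real.log (D3 (P.cond fun u => V u = V w) X Y Z (X w) (Y w) (Z w)))) ≤
    P.E (fun w => ind (TX (X w) ∧ TY (Y w) ∧ TZ (Z w)) * g (V w) (X w) (Y w) (Z w)) +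
      NN3 P X Y Z V TX TY TZ g := by
  rw [← sum_cond V (fun v w => ind (TX (X w) ∧ TY (Y w) ∧ TZ (Z w)) * (Real.log (D3 P X Y Z (X w) (Y w) (Z w)) -
      Real.log (D3 (P.cond fun u => V u = v) X Y Z (X w) (Y w) (Z w)))),
    ← sum_cond V (fun v w => ind (TX (X w) ∧ TY (Y w) ∧ TZ (Z w)) * g v (X w) (Y w) (Z w))]
  have h1 : ∀ v ∈ vals V, lw P V v * (P.cond fun w => V w = v).E (fun w => ind (TX (X w) ∧ TY (Y w) ∧ TZ (Z w)) *
      (Real.log (D3 P X Y Z (X w) (Y w) (Z w)) -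
      Real.log (D3 (P.cond fun u => V u = v) X Y Z (X w) (Y w) (Z w)))) ≤
      lw P V v * (P.cond fun w => V w = v).E (fun w => ind (TX (X w) ∧ TY (Y w) ∧ TZ (Z w)) *
        g v (X w) (Y w) (Z w)) +
      lw P V v * ∑ x ∈ vals X, ∑ y ∈ vals Y, ∑ z ∈ vals Z, ind (TX x ∧ TY y ∧ TZ z) *
        (lw3 P X Y Z x y z * (rt (P.cond fun w => V w = v) P X x * rt (P.cond fun w => V w = v) P Y y *
          rt (P.cond fun w => V w = v) P Z z * Real.exp (-g v x y z)) -
          lw3 (P.cond fun w => V w = v) X Y Z x y z) := by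
    intro v _
    rw [← mul_add]
    exact mul_le_mul_of_nonneg_left (lemS3_one (FP.cond_ac P _) (fun x y z => TX x ∧ TY y ∧ TZ z) (g v))
      (lw_nonneg P V v)
  refine (Finset.sum_le_sum h1).trans ?_
  rw [Finset.sum_add_distrib]
  refine add_le_add_right (le_of_eq ?_) _
  unfold NN3
  rw [← sub_eq_zero, ← Finset.sum_sub_distrib]
  have h2 : ∀ v ∈ vals V, (lw P V v * ∑ x ∈ vals X, ∑ y ∈ vals Y, ∑ z ∈ vals Z, ind (TX x ∧ TY y ∧ TZ z) *
        (lw3 P X Y Z x y z * (rt (P.cond fun w => V w = v) P X x * rt (P.cond fun w => V w = v) P Y y *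
          rt (P.cond fun w => V w = v) P Z z * Real.exp (-g v x y z)) -
          lw3 (P.cond fun w => V w = v) X Y Z x y z) -
      lw P V v * ∑ x ∈ vals X, ∑ y ∈ vals Y, ∑ z ∈ vals Z, ind (TX x ∧ TY y ∧ TZ z) *
        (lw3 P X Y Z x y z * (rt (P.cond fun w => V w = v) P X x * rt (P.cond fun w => V w = v) P Y y *
          rt (P.cond fun w => V w = v) P Z z * Real.exp (-g v x y z) - 1))) =
      ∑ x ∈ vals X, ∑ y ∈ vals Y, ∑ z ∈ vals Z, ind (TX x ∧ TY y ∧ TZ z) *
        (lw P V v * lw3 P X Y Z x y z - lw P V v * lw3 (P.cond fun w => V w = v) X Y Z x y z) := by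
    intro v _
    rw [← mul_sub, ← Finset.sum_sub_distrib, Finset.mul_sum]
    refine Finset.sum_congr rfl fun x _ => ?_
    rw [← Finset.sum_sub_distrib, Finset.mul_sum]
    refine Finset.sum_congr rfl fun y _ => ?_
    rw [← Finset.sum_sub_distrib, Finset.mul_sum]
    refine Finset.sum_congr rfl fun z _ => ?_
    ring
  rw [Finset.sum_congr rfl h2, Finset.sum_comm]
  refine Finset.sum_eq_zero fun x _ => ?_
  rw [Finset.sum_comm]
  refine Finset.sum_eq_zero fun y _ => ?_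
  rw [Finset.sum_comm]
  refine Finset.sum_eq_zero fun z _ => ?_
  rw [← Finset.mul_sum, Finset.sum_sub_distrib, sum_lw3_cond, ← Finset.sum_mul, sum_lw_one, one_mul, sub_self,
    mul_zero]

/-! ### new private codes -/

/-- a family of letters against their product -/
theorem prod_trick {Q : FP Om} {κ' ι' θ' : Type*} {X' : Om → κ'} {Y' : Om → ι'} {Z' : Om → θ'} (hX : Fac X' X)
    (hY : Fac Y' Y) (hZ : Fac Z' Z) {h : κ → ι → θ → ℝ} (h0 : ∀ x y z, 0 ≤ h x y z) :
    Q.E (fun w => h (X w) (Y w) (Z w) * (lw Q X' (X' w) * lw Q Y' (Y' w) * lw Q Z' (Z' w) /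
      lw3 Q X' Y' Z' (X' w) (Y' w) (Z' w))) ≤
    ∑ x ∈ vals X, ∑ y ∈ vals Y, ∑ z ∈ vals Z, lw Q X x * lw Q Y y * lw Q Z z * h x y z := by
  have e1 : Q.E (fun w => h (X w) (Y w) (Z w) * (lw Q X' (X' w) * lw Q Y' (Y' w) * lw Q Z' (Z' w) /
      lw3 Q X' Y' Z' (X' w) (Y' w) (Z' w))) =
      Q.E fun w => Q.E fun w1 => Q.E fun w2 => Q.E fun w3 => ind (X' w1 = X' w) * ind (Y' w2 = Y' w) *
        ind (Z' w3 = Z' w) * (h (X w) (Y w) (Z w) / lw3 Q X' Y' Z' (X' w) (Y' w) (Z' w)) := by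
    refine Q.E_congr fun w _ => ?_
    have a1 : ∀ w1 w2, Q.E (fun w3 => ind (X' w1 = X' w) * ind (Y' w2 = Y' w) *
        ind (Z' w3 = Z' w) * (h (X w) (Y w) (Z w) / lw3 Q X' Y' Z' (X' w) (Y' w) (Z' w))) =
        ind (X' w1 = X' w) * (ind (Y' w2 = Y' w) * (lw Q Z' (Z' w) *
          (h (X w) (Y w) (Z w) / lw3 Q X' Y' Z' (X' w) (Y' w) (Z' w)))) := by
      intro w1 w2
      unfold lw
      rw [← Q.E_mul_const, ← Q.E_smul, ← Q.E_smul]
      exact Q.E_congr fun w3 _ => by ring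
    have a2 : ∀ w1, Q.E (fun w2 => ind (X' w1 = X' w) * (ind (Y' w2 = Y' w) * (lw Q Z' (Z' w) *
          (h (X w) (Y w) (Z w) / lw3 Q X' Y' Z' (X' w) (Y' w) (Z' w))))) =
        ind (X' w1 = X' w) * (lw Q Y' (Y' w) * (lw Q Z' (Z' w) *
          (h (X w) (Y w) (Z w) / lw3 Q X' Y' Z' (X' w) (Y' w) (Z' w)))) := by
      intro w1
      rw [Q.E_smul, Q.E_mul_const]
      rfl
    simp only [a1, a2]
    rw [Q.E_mul_const]
    show _ = lw Q X' (X' w) * _
    ring
  rw [e1, FP.E_swap]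
  have e2 : ∀ w1, Q.E (fun w => Q.E fun w2 => Q.E fun w3 => ind (X' w1 = X' w) * ind (Y' w2 = Y' w) *
        ind (Z' w3 = Z' w) * (h (X w) (Y w) (Z w) / lw3 Q X' Y' Z' (X' w) (Y' w) (Z' w))) =
      Q.E fun w2 => Q.E fun w3 => Q.E fun w => ind (X' w1 = X' w) * ind (Y' w2 = Y' w) *
        ind (Z' w3 = Z' w) * (h (X w) (Y w) (Z w) / lw3 Q X' Y' Z' (X' w) (Y' w) (Z' w)) := by
    intro w1
    rw [FP.E_swap]
    refine Q.E_congr fun w2 _ => ?_
    rw [FP.E_swap]
  rw [Q.E_congr fun w1 _ => e2 w1]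
  have e3 : ∀ w1 w2 w3, Q.E (fun w => ind (X' w1 = X' w) * ind (Y' w2 = Y' w) *
        ind (Z' w3 = Z' w) * (h (X w) (Y w) (Z w) / lw3 Q X' Y' Z' (X' w) (Y' w) (Z' w))) ≤
      h (X w1) (Y w2) (Z w3) := by
    intro w1 w2 w3
    have b1 : ∀ w, ind (X' w1 = X' w) * ind (Y' w2 = Y' w) *
        ind (Z' w3 = Z' w) * (h (X w) (Y w) (Z w) / lw3 Q X' Y' Z' (X' w) (Y' w) (Z' w)) =
        (ind (X' w = X' w1) * ind (Y' w = Y' w2) * ind (Z' w = Z' w3)) *
          (h (X w1) (Y w2) (Z w3) / lw3 Q X' Y' Z' (X' w1) (Y' w2) (Z' w3)) := by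
      intro w
      by_cases c1 : X' w1 = X' w
      · by_cases c2 : Y' w2 = Y' w
        · by_cases c3 : Z' w3 = Z' w
          · rw [ind_of c1, ind_of c2, ind_of c3, ind_of c1.symm, ind_of c2.symm, ind_of c3.symm, hX w1 w c1,
              hY w2 w c2, hZ w3 w c3, c1, c2, c3]
          · have c3' : ¬ Z' w = Z' w3 := fun h => c3 h.symm
            rw [ind_not c3, ind_not c3', mul_zero, mul_zero, zero_mul, zero_mul]
        · have c2' : ¬ Y' w = Y' w2 := fun h => c2 h.symm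
          rw [ind_not c2, ind_not c2', mul_zero, mul_zero, zero_mul, zero_mul, zero_mul, zero_mul]
      · have c1' : ¬ X' w = X' w1 := fun h => c1 h.symm
        rw [ind_not c1, ind_not c1', zero_mul, zero_mul, zero_mul, zero_mul, zero_mul, zero_mul]
    rw [Q.E_congr fun w _ => b1 w, Q.E_mul_const]
    show lw3 Q X' Y' Z' (X' w1) (Y' w2) (Z' w3) * _ ≤ _
    rcases (lw3_nonneg Q X' Y' Z' (X' w1) (Y' w2) (Z' w3)).eq_or_lt with h' | h'
    · rw [← h', zero_mul]
      exact h0 _ _ _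
    · rw [mul_div_cancel₀ _ h'.ne']
  have e4 : Q.E (fun w1 => Q.E fun w2 => Q.E fun w3 => h (X w1) (Y w2) (Z w3)) =
      ∑ x ∈ vals X, ∑ y ∈ vals Y, ∑ z ∈ vals Z, lw Q X x * lw Q Y y * lw Q Z z * h x y z := by
    rw [← sum_lw Q X (fun x => Q.E fun w2 => Q.E fun w3 => h x (Y w2) (Z w3))]
    refine Finset.sum_congr rfl fun x _ => ?_
    rw [← sum_lw Q Y (fun y => Q.E fun w3 => h x y (Z w3)), Finset.mul_sum]
    refine Finset.sum_congr rfl fun y _ => ?_
    rw [← sum_lw Q Z (fun z => h x y z), Finset.mul_sum, Finset.mul_sum]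
    refine Finset.sum_congr rfl fun z _ => ?_
    ring
  rw [← e4]
  exact Q.E_mono fun w1 _ => Q.E_mono fun w2 _ => Q.E_mono fun w3 _ => e3 w1 w2 w3

/-- one child -/
theorem jensen3_one {Q : FP Om} {κ' ι' θ' : Type*} {X' : Om → κ'} {Y' : Om → ι'} {Z' : Om → θ'} (hX : Fac X' X)
    (hY : Fac Y' Y) (hZ : Fac Z' Z) (T : κ → ι → θ → Prop) :
    0 ≤ Q.E (fun w => ind (T (X w) (Y w) (Z w)) * (Real.log (D3 Q X' Y' Z' (X' w) (Y' w) (Z' w)) -
      Real.log (D3 Q X Y Z (X w) (Y w) (Z w)))) := by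
  have h1 : ∀ w, Q.p w ≠ 0 → ind (T (X w) (Y w) (Z w)) - ind (T (X w) (Y w) (Z w)) * D3 Q X Y Z (X w) (Y w) (Z w) *
      (lw Q X' (X' w) * lw Q Y' (Y' w) * lw Q Z' (Z' w) / lw3 Q X' Y' Z' (X' w) (Y' w) (Z' w)) ≤
      ind (T (X w) (Y w) (Z w)) * (Real.log (D3 Q X' Y' Z' (X' w) (Y' w) (Z' w)) -
      Real.log (D3 Q X Y Z (X w) (Y w) (Z w))) := by
    intro w hw
    have b1 := lw_pos hw X
    have b2 := lw_pos hw Y
    have b3 := lw_pos hw Z
    have c2 := lw3_pos hw X Y Z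
    have b1' := lw_pos hw X'
    have b2' := lw_pos hw Y'
    have b3' := lw_pos hw Z'
    have c2' := lw3_pos hw X' Y' Z'
    have d1 : 0 < D3 Q X Y Z (X w) (Y w) (Z w) := div_pos c2 (mul_pos (mul_pos b1 b2) b3)
    have d2 : 0 < D3 Q X' Y' Z' (X' w) (Y' w) (Z' w) := div_pos c2' (mul_pos (mul_pos b1' b2') b3')
    have h2 := Real.log_le_sub_one_of_pos (div_pos d1 d2)
    rw [Real.log_div d1.ne' d2.ne'] at h2
    have h3 : D3 Q X Y Z (X w) (Y w) (Z w) / D3 Q X' Y' Z' (X' w) (Y' w) (Z' w) =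
        D3 Q X Y Z (X w) (Y w) (Z w) *
          (lw Q X' (X' w) * lw Q Y' (Y' w) * lw Q Z' (Z' w) / lw3 Q X' Y' Z' (X' w) (Y' w) (Z' w)) := by
      unfold D3
      field_simp
    rw [h3] at h2
    have h4 := ind_nonneg (T (X w) (Y w) (Z w))
    nlinarith [mul_le_mul_of_nonneg_left h2 h4]
  refine le_trans ?_ (Q.E_mono h1)
  rw [Q.E_sub, sub_nonneg]
  have h2 := prod_trick (Q := Q) hX hY hZ (h := fun x y z => ind (T x y z) * D3 Q X Y Z x y z) fun x y z =>
    mul_nonneg (ind_nonneg _) (div_nonneg (lw3_nonneg Q X Y Z x y z)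
      (mul_nonneg (mul_nonneg (lw_nonneg Q X x) (lw_nonneg Q Y y)) (lw_nonneg Q Z z)))
  refine h2.trans ?_
  rw [← sum_lw3 Q X Y Z (fun x y z => ind (T x y z))]
  refine Finset.sum_le_sum fun x _ => Finset.sum_le_sum fun y _ => Finset.sum_le_sum fun z _ => ?_
  have hJ := lw3_nonneg Q X Y Z x y z
  by_cases hU : lw Q X x * lw Q Y y * lw Q Z z = 0
  · rw [hU, zero_mul]
    exact mul_nonneg hJ (ind_nonneg _)
  · refine le_of_eq ?_
    unfold D3
    calc lw Q X x * lw Q Y y * lw Q Z z * (ind (T x y z) * (lw3 Q X Y Z x y z / (lw Q X x * lw Q Y y * lw Q Z z))) =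
        ind (T x y z) * (lw3 Q X Y Z x y z / (lw Q X x * lw Q Y y * lw Q Z z) *
          (lw Q X x * lw Q Y y * lw Q Z z)) := by ring
      _ = lw3 Q X Y Z x y z * ind (T x y z) := by rw [div_mul_cancel₀ _ hU]; ring

/-- **NEW PRIVATE CODES ONLY INCREASE THE POTENTIAL** : `al` is a function of the old letters and of `V` -/
theorem jensen3 {κ' ι' θ' : Type*} {X' : Om → κ'} {Y' : Om → ι'} {Z' : Om → θ'} (hX : Fac X' X) (hY : Fac Y' Y)
    (hZ : Fac Z' Z) {al : Om → Prop} (hal : ∀ v w, (V v, X v, Y v, Z v) = (V w, X w, Y w, Z w) → (al v ↔ al w)) :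
    0 ≤ P.E (fun w => ind (al w) * (Real.log (D3 (P.cond fun u => V u = V w) X' Y' Z' (X' w) (Y' w) (Z' w)) -
      Real.log (D3 (P.cond fun u => V u = V w) X Y Z (X w) (Y w) (Z w)))) := by
  rw [← sum_cond V (fun v w => ind (al w) * (Real.log (D3 (P.cond fun u => V u = v) X' Y' Z' (X' w) (Y' w) (Z' w)) -
      Real.log (D3 (P.cond fun u => V u = v) X Y Z (X w) (Y w) (Z w))))]
  refine Finset.sum_nonneg fun v _ => ?_
  by_cases h : P.Pr (fun w => V w = v) = 0
  · have h1 : lw P V v = 0 := h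
    rw [h1, zero_mul]
  · refine mul_nonneg (lw_nonneg P V v) ?_
    have h1 := jensen3_one (Q := P.cond fun u => V u = v) hX hY hZ
      (fun x y z => ∃ u, V u = v ∧ X u = x ∧ Y u = y ∧ Z u = z ∧ al u)
    refine h1.trans (le_of_eq (FP.E_congr _ fun w hw => ?_))
    have h2 := ((FP.cond_p_ne h).1 hw).1
    congr 2
    refine propext ⟨?_, fun h3 => ⟨w, h2, rfl, rfl, rfl, h3⟩⟩
    rintro ⟨u, a, b, c, d, e⟩
    refine (hal u w ?_).1 e
    rw [a, b, c, d, h2]

/-! ### the gains -/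

theorem cond_true {P : FP Om} {S : Om → Prop} (h : ∀ w, S w) : P.cond S = P := by
  by_cases h0 : P.Pr S = 0
  · unfold FP.cond
    rw [dif_pos h0]
  · have h1 : P.Pr S = 1 := by
      have h2 : P.Pr S = P.E fun _ => 1 := P.E_congr fun w _ => ind_of (h w)
      rw [h2, P.E_const]
    have h3 : (P.cond S).p = P.p := by
      funext w
      rw [FP.cond_p h0, ind_of (h w), h1, one_mul, div_one]
    cases hP : P.cond S with
    | mk p nn tot =>
      cases P with
      | mk p' nn' tot' =>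
        rw [hP] at h3
        simp only at h3
        subst h3
        rfl

theorem I_pub (P : FP Om) {α : Type*} (W : Om → α) (V : Om → ν) : P.I W V (fun _ => ()) =
    ∑ v ∈ vals V, lw P V v * (P.cond fun w => V w = v).kl P W := by
  rw [FP.I_eq_E_kl, sum_lw P V (fun v => (P.cond fun w => V w = v).kl P W)]
  refine P.E_congr fun w _ => ?_
  have h1 : P.cond (fun v => (fun _ : Om => ()) v = (fun _ : Om => ()) w) = P := cond_true fun _ => rfl
  have h2 : (fun v => (V v, (fun _ : Om => ()) v) = (V w, (fun _ : Om => ()) w)) = fun v => V v = V w := by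
    funext v
    refine propext ⟨fun h => congrArg Prod.fst h, fun h => ?_⟩
    rw [h]
  rw [h1, h2]

/-- information with the public code = `KK3` -/
theorem KK3_eq : KK3 P X Y Z V = P.I X V (fun _ => ()) + P.I Y V (fun _ => ()) + P.I Z V (fun _ => ()) := by
  rw [I_pub P X V, I_pub P Y V, I_pub P Z V]
  unfold KK3
  rw [← Finset.sum_add_distrib, ← Finset.sum_add_distrib]
  refine Finset.sum_congr rfl fun v _ => ?_
  ring

/-! ### covariance of the alive masses -/

/-- one letter: the dead mass moves little -/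
theorem dead_sq {Q P : FP Om} (hac : Q.Ac P) (T : κ → Prop) :
    (Q.Pr (fun w => ¬ T (X w)) - P.Pr (fun w => ¬ T (X w))) ^ 2 ≤
      2 * max (Q.Pr fun w => ¬ T (X w)) (P.Pr fun w => ¬ T (X w)) * Q.kl P X := by
  set q := Q.Pr (fun w => ¬ T (X w)) with hq
  set p := P.Pr (fun w => ¬ T (X w)) with hp
  set B : Om → Prop := fun w => ¬ T (X w) with hB
  have h1 : Q.kl P B ≤ Q.kl P X := FP.kl_mono hac fun v w h => by
    show (¬ T (X v)) = (¬ T (X w))
    rw [h]
  have hq0 : 0 ≤ q := Q.Pr_nonneg _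
  have hp0 : 0 ≤ p := P.Pr_nonneg _
  have eP : lw P B True = p := P.E_congr fun w _ => congrArg ind (propext ⟨of_eq_true, eq_true⟩)
  have eQ : lw Q B True = q := Q.E_congr fun w _ => congrArg ind (propext ⟨of_eq_true, eq_true⟩)
  rcases hp0.eq_or_lt with h0 | h0
  · have h2 : q = 0 := by
      rw [← eQ]
      exact lw_ac hac (by rw [eP, ← h0])
    rw [h2, ← h0, sub_self]
    simp
  · have hmem : True ∈ vals B := by
      by_contra hcon
      have h2 : ∀ w, ¬ B w := fun w hw => hcon (by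
        have := FP.mem_vals B w
        rwa [eq_true hw] at this)
      have h3 : p = 0 := by
        rw [hp, ← P.E_const 0]
        exact P.E_congr fun w _ => ind_not (h2 w)
      exact h0.ne' h3
    have h2 : lw P B True * hphi (rt Q P B True) ≤ Q.kl P B := by
      rw [kl_hphi hac]
      exact Finset.single_le_sum (f := fun x => lw P B x * hphi (rt Q P B x))
        (fun x _ => mul_nonneg (lw_nonneg P B x) (hphi_nonneg (rt_nonneg x))) hmem
    have hr : rt Q P B True = q / p := by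
      unfold rt
      rw [eP, eQ]
    rw [eP, hr] at h2
    have h3 := hphi_sq (div_nonneg hq0 hp0)
    have h4 : p ^ 2 * (q / p - 1) ^ 2 = (q - p) ^ 2 := by
      field_simp
    have h5 : p * max 1 (q / p) = max q p := by
      rw [mul_max_of_nonneg _ _ hp0, mul_one, mul_div_cancel₀ _ h0.ne', max_comm]
    calc (q - p) ^ 2 = p ^ 2 * (q / p - 1) ^ 2 := h4.symm
      _ ≤ p ^ 2 * (2 * max 1 (q / p) * hphi (q / p)) := mul_le_mul_of_nonneg_left h3 (sq_nonneg _)
      _ = 2 * (p * max 1 (q / p)) * (p * hphi (q / p)) := by ring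
      _ = 2 * max q p * (p * hphi (q / p)) := by rw [h5]
      _ ≤ 2 * max q p * Q.kl P X :=
        mul_le_mul_of_nonneg_left (h2.trans h1) (mul_nonneg zero_le_two (le_trans hq0 (le_max_left _ _)))

/-- three numbers -/
theorem prod3_le {a b c x y z : ℝ} (ha : 0 ≤ a) (ha1 : a ≤ 1) (hb : 0 ≤ b) (hb1 : b ≤ 1) (hc : 0 ≤ c) (hc1 : c ≤ 1)
    (hz : |z| ≤ 1) :
    (a - x) * (b - y) * (c - z) ≤ a * b * c - x * (b * c) - y * (a * c) - z * (a * b) +
      2 * (x ^ 2 + y ^ 2 + z ^ 2) := by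
  have h1 : x * y * c ≤ (x ^ 2 + y ^ 2) / 2 := by
    have h2 : |x * y| ≤ (x ^ 2 + y ^ 2) / 2 := by
      rw [abs_le]
      constructor <;> nlinarith [sq_nonneg (x + y), sq_nonneg (x - y)]
    have h3 : x * y * c ≤ |x * y| * c := mul_le_mul_of_nonneg_right (le_abs_self _) hc
    have h4 : |x * y| * c ≤ |x * y| * 1 := mul_le_mul_of_nonneg_left hc1 (abs_nonneg _)
    linarith
  have h2 : x * z * b ≤ (x ^ 2 + z ^ 2) / 2 := by
    have h2 : |x * z| ≤ (x ^ 2 + z ^ 2) / 2 := by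
      rw [abs_le]
      constructor <;> nlinarith [sq_nonneg (x + z), sq_nonneg (x - z)]
    have h3 : x * z * b ≤ |x * z| * b := mul_le_mul_of_nonneg_right (le_abs_self _) hb
    have h4 : |x * z| * b ≤ |x * z| * 1 := mul_le_mul_of_nonneg_left hb1 (abs_nonneg _)
    linarith
  have h3 : y * z * a ≤ (y ^ 2 + z ^ 2) / 2 := by
    have h2 : |y * z| ≤ (y ^ 2 + z ^ 2) / 2 := by
      rw [abs_le]
      constructor <;> nlinarith [sq_nonneg (y + z), sq_nonneg (y - z)]
    have h3 : y * z * a ≤ |y * z| * a := mul_le_mul_of_nonneg_right (le_abs_self _) ha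
    have h4 : |y * z| * a ≤ |y * z| * 1 := mul_le_mul_of_nonneg_left ha1 (abs_nonneg _)
    linarith
  have h4 : -(x * y * z) ≤ (x ^ 2 + y ^ 2) / 2 := by
    have h5 : |x * y| ≤ (x ^ 2 + y ^ 2) / 2 := by
      rw [abs_le]
      constructor <;> nlinarith [sq_nonneg (x + y), sq_nonneg (x - y)]
    have h6 : -(x * y * z) ≤ |x * y * z| := neg_le_abs _
    have h7 : |x * y * z| = |x * y| * |z| := abs_mul _ _
    have h8 : |x * y| * |z| ≤ |x * y| * 1 := mul_le_mul_of_nonneg_left hz (abs_nonneg _)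
    linarith
  nlinarith [sq_nonneg x, sq_nonneg y, sq_nonneg z]

theorem dev_mean {α : Type*} (V : Om → ν) (W : Om → α) (T : α → Prop) :
    ∑ v ∈ vals V, lw P V v * ((P.cond fun w => V w = v).Pr (fun w => ¬ T (W w)) - P.Pr (fun w => ¬ T (W w))) = 0 := by
  have a1 := sum_cond (P := P) V (fun _ w => ind (¬ T (W w)))
  have a2 : ∑ v ∈ vals V, lw P V v * ((P.cond fun w => V w = v).Pr (fun w => ¬ T (W w)) -
      P.Pr (fun w => ¬ T (W w))) =
      ∑ v ∈ vals V, lw P V v * (P.cond fun w => V w = v).Pr (fun w => ¬ T (W w)) -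
        (∑ v ∈ vals V, lw P V v) * P.Pr (fun w => ¬ T (W w)) := by
    rw [Finset.sum_mul, ← Finset.sum_sub_distrib]
    exact Finset.sum_congr rfl fun v _ => by ring
  rw [a2, sum_lw_one, one_mul, sub_eq_zero]
  exact a1

theorem dev_le_one (Q P : FP Om) (S : Om → Prop) : (Q.Pr S - P.Pr S) ^ 2 ≤ 1 := by
  have a := Q.Pr_nonneg S
  have b := Q.Pr_le_one S
  have c := P.Pr_nonneg S
  have d := P.Pr_le_one S
  nlinarith

/-- **COVARIANCE OF THE ALIVE MASSES** : dead masses at most `e` in the parent; `e` or less in the child for `V`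
outside `Dd0` -/
theorem cov3_le {TX : κ → Prop} {TY : ι → Prop} {TZ : θ → Prop} {e : ℝ} (he : 0 ≤ e)
    (h1 : P.Pr (fun w => ¬ TX (X w)) ≤ e) (h2 : P.Pr (fun w => ¬ TY (Y w)) ≤ e)
    (h3 : P.Pr (fun w => ¬ TZ (Z w)) ≤ e) :
    cov3 P X Y Z V TX TY TZ ≤ 4 * e * KK3 P X Y Z V +
      6 * P.Pr (fun w => e < (P.cond fun u => V u = V w).Pr (fun u => ¬ TX (X u)) ∨
        e < (P.cond fun u => V u = V w).Pr (fun u => ¬ TY (Y u)) ∨
        e < (P.cond fun u => V u = V w).Pr (fun u => ¬ TZ (Z u))) := by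
  classical
  set Q : ν → FP Om := fun v => P.cond fun w => V w = v with hQ
  set dx : ν → ℝ := fun v => (Q v).Pr (fun w => ¬ TX (X w)) - P.Pr (fun w => ¬ TX (X w)) with hdx
  set dy : ν → ℝ := fun v => (Q v).Pr (fun w => ¬ TY (Y w)) - P.Pr (fun w => ¬ TY (Y w)) with hdy
  set dz : ν → ℝ := fun v => (Q v).Pr (fun w => ¬ TZ (Z w)) - P.Pr (fun w => ¬ TZ (Z w)) with hdz
  set D : ν → Prop := fun v => e < (Q v).Pr (fun u => ¬ TX (X u)) ∨ e < (Q v).Pr (fun u => ¬ TY (Y u)) ∨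
    e < (Q v).Pr (fun u => ¬ TZ (Z u)) with hD
  set K : ν → ℝ := fun v => (Q v).kl P X + (Q v).kl P Y + (Q v).kl P Z with hK
  have hac : ∀ v, (Q v).Ac P := fun v => FP.cond_ac P _
  -- the deviations have mean zero
  have mx := dev_mean (P := P) V X TX
  have my := dev_mean (P := P) V Y TY
  have mz := dev_mean (P := P) V Z TZ
  -- the squares
  have hsq : ∀ v, dx v ^ 2 + dy v ^ 2 + dz v ^ 2 ≤ 2 * e * K v + 3 * ind (D v) := by
    intro v
    have kx := FP.kl_nonneg (hac v) X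
    have ky := FP.kl_nonneg (hac v) Y
    have kz := FP.kl_nonneg (hac v) Z
    by_cases hv : D v
    · rw [ind_of hv, mul_one]
      have b1 : dx v ^ 2 ≤ 1 := dev_le_one _ _ _
      have b2 : dy v ^ 2 ≤ 1 := dev_le_one _ _ _
      have b3 : dz v ^ 2 ≤ 1 := dev_le_one _ _ _
      have b4 : 0 ≤ 2 * e * K v := mul_nonneg (by linarith) (add_nonneg (add_nonneg kx ky) kz)
      linarith
    · rw [ind_not hv, mul_zero, add_zero]
      have hv' : (Q v).Pr (fun u => ¬ TX (X u)) ≤ e ∧ (Q v).Pr (fun u => ¬ TY (Y u)) ≤ e ∧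
          (Q v).Pr (fun u => ¬ TZ (Z u)) ≤ e := by
        refine ⟨not_lt.1 fun h => hv (Or.inl h), not_lt.1 fun h => hv (Or.inr (Or.inl h)),
          not_lt.1 fun h => hv (Or.inr (Or.inr h))⟩
      have b1 := dead_sq (hac v) (X := X) TX
      have b2 := dead_sq (hac v) (X := Y) TY
      have b3 := dead_sq (hac v) (X := Z) TZ
      have c1 := mul_le_mul_of_nonneg_right (max_le hv'.1 h1) kx
      have c2 := mul_le_mul_of_nonneg_right (max_le hv'.2.1 h2) ky
      have c3 := mul_le_mul_of_nonneg_right (max_le hv'.2.2 h3) kz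
      have e1 : 2 * e * K v = 2 * (e * (Q v).kl P X) + 2 * (e * (Q v).kl P Y) + 2 * (e * (Q v).kl P Z) := by
        simp only [hK]
        ring
      rw [e1]
      simp only [hdx, hdy, hdz]
      linarith
  -- the product
  set a := P.Pr (fun w => TX (X w)) with ha
  set b := P.Pr (fun w => TY (Y w)) with hb
  set c := P.Pr (fun w => TZ (Z w)) with hc
  have hpv : ∀ v, (Q v).Pr (fun w => TX (X w)) * (Q v).Pr (fun w => TY (Y w)) * (Q v).Pr (fun w => TZ (Z w)) ≤
      a * b * c - dx v * (b * c) - dy v * (a * c) - dz v * (a * b) + 2 * (dx v ^ 2 + dy v ^ 2 + dz v ^ 2) := by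
    intro v
    have e1 : (Q v).Pr (fun w => TX (X w)) = a - dx v := by
      simp only [hdx, ha]
      rw [FP.Pr_not, FP.Pr_not]
      ring
    have e2 : (Q v).Pr (fun w => TY (Y w)) = b - dy v := by
      simp only [hdy, hb]
      rw [FP.Pr_not, FP.Pr_not]
      ring
    have e3 : (Q v).Pr (fun w => TZ (Z w)) = c - dz v := by
      simp only [hdz, hc]
      rw [FP.Pr_not, FP.Pr_not]
      ring
    rw [e1, e2, e3]
    refine prod3_le (P.Pr_nonneg _) (P.Pr_le_one _) (P.Pr_nonneg _) (P.Pr_le_one _) (P.Pr_nonneg _) (P.Pr_le_one _) ?_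
    exact abs_le_one_iff_mul_self_le_one.2 (by
      have := dev_le_one (Q v) P (fun w => ¬ TZ (Z w))
      rw [sq] at this
      exact this)
  have hsum : ∑ v ∈ vals V, lw P V v * ((Q v).Pr (fun w => TX (X w)) * (Q v).Pr (fun w => TY (Y w)) *
      (Q v).Pr (fun w => TZ (Z w))) ≤ a * b * c + 4 * e * (∑ v ∈ vals V, lw P V v * K v) +
        6 * ∑ v ∈ vals V, lw P V v * ind (D v) := by
    have g1 : ∀ v ∈ vals V, lw P V v * ((Q v).Pr (fun w => TX (X w)) * (Q v).Pr (fun w => TY (Y w)) *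
        (Q v).Pr (fun w => TZ (Z w))) ≤ a * b * c * lw P V v - (b * c) * (lw P V v * dx v) -
        (a * c) * (lw P V v * dy v) - (a * b) * (lw P V v * dz v) +
        4 * e * (lw P V v * K v) + 6 * (lw P V v * ind (D v)) := by
      intro v _
      have g2 := mul_le_mul_of_nonneg_left (hpv v) (lw_nonneg P V v)
      have g3 := mul_le_mul_of_nonneg_left (hsq v) (lw_nonneg P V v)
      nlinarith [g2, g3]
    refine (Finset.sum_le_sum g1).trans (le_of_eq ?_)
    rw [Finset.sum_add_distrib, Finset.sum_add_distrib, Finset.sum_sub_distrib, Finset.sum_sub_distrib,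
      Finset.sum_sub_distrib, ← Finset.mul_sum, ← Finset.mul_sum, ← Finset.mul_sum, ← Finset.mul_sum,
      ← Finset.mul_sum, ← Finset.mul_sum, mx, my, mz, sum_lw_one]
    ring
  have hfin : ∑ v ∈ vals V, lw P V v * ind (D v) = P.Pr (fun w => D (V w)) := sum_lw P V (fun v => ind (D v))
  have hcov : cov3 P X Y Z V TX TY TZ = ∑ v ∈ vals V, lw P V v * ((Q v).Pr (fun w => TX (X w)) *
      (Q v).Pr (fun w => TY (Y w)) * (Q v).Pr (fun w => TZ (Z w))) - a * b * c := rfl
  have hKK : KK3 P X Y Z V = ∑ v ∈ vals V, lw P V v * K v := rfl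
  have hPr : P.Pr (fun w => e < (P.cond fun u => V u = V w).Pr (fun u => ¬ TX (X u)) ∨
        e < (P.cond fun u => V u = V w).Pr (fun u => ¬ TY (Y u)) ∨
        e < (P.cond fun u => V u = V w).Pr (fun u => ¬ TZ (Z u))) = P.Pr (fun w => D (V w)) := rfl
  rw [hcov, hKK, hPr, ← hfin]
  linarith

/-! ### size of the cut part -/

/-- size of the cut part -/
theorem gV_le {Q : FP Om} {B eta L : ℝ} (he0 : 0 ≤ eta) (hL : 0 ≤ L) {x : κ} {y : ι} {z : θ}
    (h1 : Dd P X Y x y ≤ Real.exp L) (h2 : Dd P X Z x z ≤ Real.exp L) (h3 : Dd P Y Z y z ≤ Real.exp L)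
    (h4 : D3 P X Y Z x y z ≤ Real.exp (2 * L)) :
    gV Q P X Y Z B eta x y z ≤ ind (RegV Q P X Y Z B eta x y z) * (2 * L) := by
  have hlog : ∀ {d M : ℝ}, 1 + eta < d → d ≤ Real.exp M → Real.log d ≤ M := by
    intro d M hd hM
    have h5 : 0 < d := by linarith
    have h6 := Real.log_le_log h5 hM
    rwa [Real.log_exp] at h6
  have h0 : 0 ≤ ind (RegV Q P X Y Z B eta x y z) * (2 * L) := mul_nonneg (ind_nonneg _) (by linarith)
  unfold gV gcut
  split_ifs with a1 a2 a3 a4 a5 a6 a7 a8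
  · rw [ind_of (show RegV Q P X Y Z B eta x y z from Or.inr (Or.inr (Or.inr ⟨a1.1, a1.2.1, a1.2.2, a2⟩))), one_mul]
    exact hlog a2 h4
  · exact h0
  · rw [ind_of (show RegV Q P X Y Z B eta x y z from Or.inl ⟨a3.1, a3.2, a4⟩), one_mul]
    have := hlog a4 h1
    linarith
  · exact h0
  · rw [ind_of (show RegV Q P X Y Z B eta x y z from Or.inr (Or.inl ⟨a5.1, a5.2, a6⟩)), one_mul]
    have := hlog a6 h2
    linarith
  · exact h0
  · rw [ind_of (show RegV Q P X Y Z B eta x y z from Or.inr (Or.inr (Or.inl ⟨a7.1, a7.2, a8⟩))), one_mul]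
    have := hlog a8 h3
    linarith
  · exact h0
  · exact h0

/-- no strong letters, no cut -/
theorem gV_zero {Q : FP Om} {B eta : ℝ} {x : κ} {y : ι} {z : θ} (hx : rt Q P X x ≤ B) (hy : rt Q P Y y ≤ B)
    (hz : rt Q P Z z ≤ B) : gV Q P X Y Z B eta x y z = 0 := by
  unfold gV gcut
  have a := not_lt.2 hx
  have b := not_lt.2 hy
  have c := not_lt.2 hz
  rw [if_neg fun h => a h.1, if_neg fun h => a h.1, if_neg fun h => a h.1, if_neg fun h => b h.1]

end Pool.Agent.GMH.V3
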