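import Pool.Agent.GMH.V3Def
import Pool.Agent.GMH.V3S

/-! # GMH/V3N: the normalisation of three letters outside the region (statement helper91, proof helper14)

* `N3X.pt` : the pointwise bound of the excess (patterns weak / strong of the three letters);
* `N3X.row_x`, `row_y`, `row_z` : `∑ |J - UVW| ≤ 5 τ U x` over the alive letters;
* `N3X.E_le` : one value of `V`;
* `N3X.mean` : the linear terms vanish in the mean over `V`;
* `N3`.
-/

set_option autoImplicit false
set_option linter.unusedSectionVars false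

namespace Pool.Agent.GMH.V3

open Finset Pool.Agent.PWZ Pool.Agent.M3 Pool.Agent.GMH Pool.Agent.GMH.NZ

variable {Om : Type*} [Fintype Om] {P : FP Om} {κ ι θ ν : Type*} {X : Om → κ} {Y : Om → ι} {Z : Om → θ} {V : Om → ν}

namespace N3X

/-! ### real numbers -/

/-- the factor `exp (-g)` of a pair -/
noncomputable def Gc (eta D : ℝ) : ℝ := Real.exp (-(if 1 + eta < D then Real.log D else 0))

theorem Gc_pos (eta D : ℝ) : 0 < Gc eta D := Real.exp_pos _

theorem Gc_hot {eta D : ℝ} (he : 0 ≤ eta) (h : 1 + eta < D) : Gc eta D = D⁻¹ := by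
  unfold Gc
  rw [if_pos h, Real.exp_neg, Real.exp_log (by linarith)]

theorem Gc_not {eta D : ℝ} (h : ¬ 1 + eta < D) : Gc eta D = 1 := by
  unfold Gc
  rw [if_neg h, neg_zero, Real.exp_zero]

/-- `exp (-g) J ≤ (1 + eta) U V` -/
theorem Gc_le {eta j u : ℝ} (he : 0 ≤ eta) (hu : 0 ≤ u) (hz : u = 0 → j = 0) :
    Gc eta (j / u) * j ≤ (1 + eta) * u := by
  rcases hu.eq_or_lt with h | h
  · rw [hz h.symm, ← h, mul_zero, mul_zero]
  · by_cases hh : 1 + eta < j / u
    · have hj : 0 < j := by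
        have := (lt_div_iff₀ h).1 hh
        have h2 : 0 < (1 + eta) * u := mul_pos (by linarith) h
        linarith
      rw [Gc_hot he hh, inv_div, div_mul_cancel₀ _ hj.ne']
      nlinarith
    · rw [Gc_not hh, one_mul]
      exact (div_le_iff₀ h).1 (not_lt.1 hh)

/-- `exp (-g)` of a bad row -/
theorem Gc_row {eta τ j u r : ℝ} (he : 0 ≤ eta) (he1 : eta ≤ 1) (ht0 : 0 ≤ τ) (ht1 : τ ≤ 1) (hj : 0 ≤ j) (hu : 0 ≤ u)
    (hz : u = 0 → j = 0) (hr0 : 0 ≤ r) (hr2 : r ≤ 2 * j) (h : r ≤ τ * j ∨ j ≤ τ * u) :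
    Gc eta (j / u) * r ≤ 2 * τ * u := by
  rcases hu.eq_or_lt with h0 | h0
  · have := hz h0.symm
    rw [this, mul_zero] at hr2
    have hr : r = 0 := le_antisymm hr2 hr0
    rw [hr, ← h0, mul_zero, mul_zero]
  · by_cases hh : 1 + eta < j / u
    · have hju := (lt_div_iff₀ h0).1 hh
      have hj' : 0 < j := by
        have h2 : 0 < (1 + eta) * u := mul_pos (by linarith) h0
        linarith
      have h3 : r ≤ τ * j := by
        rcases h with h | h
        · exact h
        · exfalso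
          have : τ * u ≤ 1 * u := mul_le_mul_of_nonneg_right ht1 hu
          nlinarith
      rw [Gc_hot he hh, inv_div]
      have h4 : u / j * r ≤ u / j * (τ * j) := mul_le_mul_of_nonneg_left h3 (div_nonneg hu hj)
      have h5 : u / j * (τ * j) = τ * u := by field_simp
      have h6 : 0 ≤ τ * u := mul_nonneg ht0 hu
      linarith
    · rw [Gc_not hh, one_mul]
      have hju := (div_le_iff₀ h0).1 (not_lt.1 hh)
      rcases h with h | h
      · have h2 : τ * j ≤ τ * ((1 + eta) * u) := mul_le_mul_of_nonneg_left hju ht0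
        have h3 : 0 ≤ τ * u := mul_nonneg ht0 hu
        nlinarith [mul_le_mul_of_nonneg_right he1 h3]
      · linarith

/-- no strong letter -/
theorem q0 {B a b c : ℝ} (hB : Real.exp 2 ≤ B) (ha : 0 ≤ a) (hb : 0 ≤ b) (hc : 0 ≤ c) (ha1 : ¬ B < a) (hb1 : ¬ B < b)
    (hc1 : ¬ B < c) : |a * b * c - (a + b + c - 2)| ≤ 6 * B ^ 2 * (hphi a + hphi b + hphi c) := by
  have hB3 : 3 ≤ B := by
    have := Real.add_one_le_exp 2
    linarith
  have key : ∀ x : ℝ, 0 ≤ x → ¬ B < x → (x - 1) ^ 2 ≤ 2 * B * hphi x ∧ |x - 1| ≤ B := by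
    intro x hx hxB
    have h1 := wk_sub_sq_le hB hx
    have h2 := abs_wk_sub_le hB hx
    have e : hwk B x = x := by unfold hwk; rw [ind_of hxB, one_mul]
    rw [e] at h1 h2
    exact ⟨h1, h2⟩
  obtain ⟨a2, a3⟩ := key a ha ha1
  obtain ⟨b2, b3⟩ := key b hb hb1
  obtain ⟨c2, c3⟩ := key c hc hc1
  have e : a * b * c - (a + b + c - 2) =
      (a - 1) * (b - 1) + (a - 1) * (c - 1) + (b - 1) * (c - 1) + (a - 1) * (b - 1) * (c - 1) := by ring
  rw [e]
  have hab : |(a - 1) * (b - 1)| ≤ ((a - 1) ^ 2 + (b - 1) ^ 2) / 2 := by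
    rw [abs_mul, ← sq_abs (a - 1), ← sq_abs (b - 1)]
    nlinarith [sq_nonneg (|a - 1| - |b - 1|)]
  have hac : |(a - 1) * (c - 1)| ≤ ((a - 1) ^ 2 + (c - 1) ^ 2) / 2 := by
    rw [abs_mul, ← sq_abs (a - 1), ← sq_abs (c - 1)]
    nlinarith [sq_nonneg (|a - 1| - |c - 1|)]
  have hbc : |(b - 1) * (c - 1)| ≤ ((b - 1) ^ 2 + (c - 1) ^ 2) / 2 := by
    rw [abs_mul, ← sq_abs (b - 1), ← sq_abs (c - 1)]
    nlinarith [sq_nonneg (|b - 1| - |c - 1|)]
  have habc : |(a - 1) * (b - 1) * (c - 1)| ≤ ((a - 1) ^ 2 + (b - 1) ^ 2) / 2 * B := by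
    rw [abs_mul]
    exact mul_le_mul hab c3 (abs_nonneg _) (by positivity)
  have t1 := abs_add_le ((a - 1) * (b - 1) + (a - 1) * (c - 1) + (b - 1) * (c - 1)) ((a - 1) * (b - 1) * (c - 1))
  have t2 := abs_add_le ((a - 1) * (b - 1) + (a - 1) * (c - 1)) ((b - 1) * (c - 1))
  have t3 := abs_add_le ((a - 1) * (b - 1)) ((a - 1) * (c - 1))
  have pa := hphi_nonneg ha
  have pb := hphi_nonneg hb
  have pc := hphi_nonneg hc
  have s1 : |(a - 1) * (b - 1) + (a - 1) * (c - 1) + (b - 1) * (c - 1) + (a - 1) * (b - 1) * (c - 1)| ≤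
      (1 + B) * ((a - 1) ^ 2 + (b - 1) ^ 2 + (c - 1) ^ 2) := by
    have hc2 : 0 ≤ B * (c - 1) ^ 2 := by positivity
    have hab2 : 0 ≤ B * ((a - 1) ^ 2 + (b - 1) ^ 2) := by positivity
    nlinarith
  have s2 : (1 + B) * ((a - 1) ^ 2 + (b - 1) ^ 2 + (c - 1) ^ 2) ≤
      (1 + B) * (2 * B * (hphi a + hphi b + hphi c)) :=
    mul_le_mul_of_nonneg_left (by nlinarith) (by linarith)
  have s3 : (1 + B) * (2 * B * (hphi a + hphi b + hphi c)) ≤ 6 * B ^ 2 * (hphi a + hphi b + hphi c) := by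
    have h0 : 0 ≤ hphi a + hphi b + hphi c := by linarith
    have h1 : (1 + B) * (2 * B) ≤ 6 * B ^ 2 := by nlinarith
    calc (1 + B) * (2 * B * (hphi a + hphi b + hphi c)) = (1 + B) * (2 * B) * (hphi a + hphi b + hphi c) := by ring
      _ ≤ _ := mul_le_mul_of_nonneg_right h1 h0
  linarith

/-- one strong letter -/
theorem q1 {B a b c : ℝ} (hB : Real.exp 2 ≤ B) (hb : 0 ≤ b) (hc : 0 ≤ c) (ha1 : B < a) (hb1 : ¬ B < b)
    (hc1 : ¬ B < c) : |a * b * c - (a + b + c - 2)| ≤ 6 * B ^ 2 * (hphi a + hphi b + hphi c) := by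
  have hB3 : 3 ≤ B := by
    have := Real.add_one_le_exp 2
    linarith
  have ha : 0 ≤ a := by linarith
  have pa := (hphi_strong hB ha1).2.1
  have pb := hphi_nonneg hb
  have pc := hphi_nonneg hc
  have hb2 := not_lt.1 hb1
  have hc2 := not_lt.1 hc1
  have hbc : b * c ≤ B * B := mul_le_mul hb2 hc2 hc (by linarith)
  have h1 : a * b * c ≤ B ^ 2 * a := by
    calc a * b * c = (b * c) * a := by ring
      _ ≤ (B * B) * a := mul_le_mul_of_nonneg_right hbc ha
      _ = _ := by ring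
  have h0 : 0 ≤ a * b * c := mul_nonneg (mul_nonneg ha hb) hc
  have hBa : 9 * a ≤ B ^ 2 * a := mul_le_mul_of_nonneg_right (by nlinarith) ha
  have h2 : |a * b * c - (a + b + c - 2)| ≤ 2 * B ^ 2 * a := by
    rw [abs_le]
    constructor <;> nlinarith
  have h3 : 2 * B ^ 2 * a ≤ 6 * B ^ 2 * (hphi a + hphi b + hphi c) := by
    have h4 : B ^ 2 * a ≤ B ^ 2 * (hphi a + hphi b + hphi c) :=
      mul_le_mul_of_nonneg_left (by linarith) (by positivity)
    nlinarith [mul_nonneg (sq_nonneg B) ha]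
  linarith

/-- two strong letters `a`, `b`; `G` is the factor of the pair -/
theorem q2 {B eta a b c J u W j G : ℝ} (hB : Real.exp 2 ≤ B) (hc : 0 ≤ c) (ha1 : B < a) (hb1 : B < b)
    (hc1 : ¬ B < c) (hW : 0 ≤ W) (hG : 0 ≤ G) (hGj : G * j ≤ (1 + eta) * u) :
    J * (a * b * c * G) - u * W * (a * b * c) - (J - u * W) * (a + b + c - 2) ≤
      |J - u * W| * (6 * B ^ 2 * (hphi a + hphi b + hphi c)) + B * ((a * b) * (G * |J - j * W|)) +
        eta * (u * W * (a * b * c)) := by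
  have hB3 : 3 ≤ B := by
    have := Real.add_one_le_exp 2
    linarith
  have ha : 0 ≤ a := by linarith
  have hb : 0 ≤ b := by linarith
  have pa := (hphi_strong hB ha1).2.1
  have pb := (hphi_strong hB hb1).2.1
  have pc := hphi_nonneg hc
  have hc2 := not_lt.1 hc1
  have hab : 0 ≤ a * b := mul_nonneg ha hb
  have habc : 0 ≤ a * b * c := mul_nonneg hab hc
  have e : J * (a * b * c * G) - u * W * (a * b * c) - (J - u * W) * (a + b + c - 2) =
      (a * b * c) * (G * (J - j * W)) + (a * b * c) * ((G * j - u) * W) - (J - u * W) * (a + b + c - 2) := by ring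
  rw [e]
  have h1 : (a * b * c) * (G * (J - j * W)) ≤ B * ((a * b) * (G * |J - j * W|)) := by
    have s1 : G * (J - j * W) ≤ G * |J - j * W| := mul_le_mul_of_nonneg_left (le_abs_self _) hG
    have s2 : 0 ≤ G * |J - j * W| := mul_nonneg hG (abs_nonneg _)
    calc (a * b * c) * (G * (J - j * W)) ≤ (a * b * c) * (G * |J - j * W|) := mul_le_mul_of_nonneg_left s1 habc
      _ = c * ((a * b) * (G * |J - j * W|)) := by ring
      _ ≤ B * ((a * b) * (G * |J - j * W|)) := mul_le_mul_of_nonneg_right hc2 (mul_nonneg hab s2)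
  have h2 : (a * b * c) * ((G * j - u) * W) ≤ eta * (u * W * (a * b * c)) := by
    have s1 : (G * j - u) * W ≤ (eta * u) * W := mul_le_mul_of_nonneg_right (by linarith) hW
    calc (a * b * c) * ((G * j - u) * W) ≤ (a * b * c) * ((eta * u) * W) := mul_le_mul_of_nonneg_left s1 habc
      _ = _ := by ring
  have h3 : -((J - u * W) * (a + b + c - 2)) ≤ |J - u * W| * (6 * B ^ 2 * (hphi a + hphi b + hphi c)) := by
    have s0 : 0 ≤ a + b + c - 2 := by linarith
    have s1 : -((J - u * W) * (a + b + c - 2)) ≤ |J - u * W| * (a + b + c - 2) := by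
      have := neg_abs_le (J - u * W)
      nlinarith [mul_le_mul_of_nonneg_right this s0]
    have s2 : a + b + c - 2 ≤ 6 * B ^ 2 * (hphi a + hphi b + hphi c) := by
      have s3 : a + b ≤ hphi a + hphi b + hphi c := by linarith
      have s4 : 2 * (hphi a + hphi b + hphi c) ≤ 6 * B ^ 2 * (hphi a + hphi b + hphi c) :=
        mul_le_mul_of_nonneg_right (by nlinarith) (by linarith)
      linarith
    exact s1.trans (mul_le_mul_of_nonneg_left s2 (abs_nonneg _))
  linarith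

/-- three strong letters -/
theorem q3 {B eta a b c J u : ℝ} (hB : Real.exp 2 ≤ B) (he : 0 ≤ eta) (ha1 : B < a) (hb1 : B < b) (hc1 : B < c)
    (hu : 0 ≤ u) (hz : u = 0 → J = 0) :
    J * (a * b * c * Gc eta (J / u)) - u * (a * b * c) - (J - u) * (a + b + c - 2) ≤ eta * (u * (a * b * c)) := by
  have hB3 : 3 ≤ B := by
    have := Real.add_one_le_exp 2
    linarith
  have ha : 3 ≤ a := by linarith
  have hb : 3 ≤ b := by linarith
  have hc : 3 ≤ c := by linarith
  have hab : 9 ≤ a * b := by nlinarith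
  have habc0 : 0 ≤ a * b * c := by positivity
  have hr : 0 ≤ eta * (u * (a * b * c)) := mul_nonneg he (mul_nonneg hu habc0)
  rcases hu.eq_or_lt with h | h
  · rw [hz h.symm, ← h]
    simp
  · by_cases hh : 1 + eta < J / u
    · have hJu := (lt_div_iff₀ h).1 hh
      have hJ : 0 < J := by
        have h2 : 0 < (1 + eta) * u := mul_pos (by linarith) h
        linarith
      have e : J * (a * b * c * Gc eta (J / u)) = u * (a * b * c) := by
        rw [Gc_hot he hh, inv_div]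
        field_simp
      rw [e]
      have h1 : 0 ≤ (J - u) * (a + b + c - 2) := by
        refine mul_nonneg ?_ (by linarith)
        nlinarith [mul_nonneg he h.le]
      linarith
    · rw [Gc_not hh]
      have hJu := (div_le_iff₀ h).1 (not_lt.1 hh)
      have hq : 0 ≤ a * b * c - (a + b + c - 2) := by
        have h1 : a * b ≤ a * b * c := by nlinarith
        have h2 : 3 * c ≤ a * b * c / 3 := by nlinarith
        nlinarith
      have e : J * (a * b * c * 1) - u * (a * b * c) - (J - u) * (a + b + c - 2) =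
          (J - u) * (a * b * c - (a + b + c - 2)) := by ring
      rw [e]
      calc (J - u) * (a * b * c - (a + b + c - 2)) ≤ (eta * u) * (a * b * c - (a + b + c - 2)) :=
            mul_le_mul_of_nonneg_right (by linarith) hq
        _ ≤ (eta * u) * (a * b * c) := mul_le_mul_of_nonneg_left (by linarith) (mul_nonneg he hu)
        _ = _ := by ring

/-- **the pointwise bound** -/
theorem pt {B eta a b c J U V W j12 j13 j23 : ℝ} (hB : Real.exp 2 ≤ B) (he : 0 ≤ eta) (ha : 0 ≤ a) (hb : 0 ≤ b)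
    (hc : 0 ≤ c) (hU : 0 ≤ U) (hV : 0 ≤ V) (hW : 0 ≤ W) (z12 : U * V = 0 → j12 = 0) (z13 : U * W = 0 → j13 = 0)
    (z23 : V * W = 0 → j23 = 0) (z : U * V * W = 0 → J = 0) :
    J * (a * b * c * Real.exp (-gcut B eta a b c (j12 / (U * V)) (j13 / (U * W)) (j23 / (V * W)) (J / (U * V * W)))) -
        U * V * W * (a * b * c) - (J - U * V * W) * (a + b + c - 2) ≤
      |J - U * V * W| * (6 * B ^ 2 * (hphi a + hphi b + hphi c)) +
        B * ((hsg B a * hsg B b) * (Gc eta (j12 / (U * V)) * |J - j12 * W|)) +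
        B * ((hsg B a * hsg B c) * (Gc eta (j13 / (U * W)) * |J - j13 * V|)) +
        B * ((hsg B b * hsg B c) * (Gc eta (j23 / (V * W)) * |J - j23 * U|)) +
        eta * (U * V * W * (hsg B a * b * c + hsg B b * a * c)) := by
  have hB0 : 0 ≤ B := by
    have := Real.add_one_le_exp 2
    linarith
  have hUV := mul_nonneg hU hV
  have hUW := mul_nonneg hU hW
  have hVW := mul_nonneg hV hW
  have hUVW := mul_nonneg hUV hW
  have pa := hphi_nonneg ha
  have pb := hphi_nonneg hb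
  have pc := hphi_nonneg hc
  have sa := hsg_nonneg (B := B) ha
  have sb := hsg_nonneg (B := B) hb
  have sc := hsg_nonneg (B := B) hc
  have n0 : 0 ≤ |J - U * V * W| * (6 * B ^ 2 * (hphi a + hphi b + hphi c)) := by positivity
  have n12 : 0 ≤ B * ((hsg B a * hsg B b) * (Gc eta (j12 / (U * V)) * |J - j12 * W|)) :=
    mul_nonneg hB0 (mul_nonneg (mul_nonneg sa sb) (mul_nonneg (Gc_pos _ _).le (abs_nonneg _)))
  have n13 : 0 ≤ B * ((hsg B a * hsg B c) * (Gc eta (j13 / (U * W)) * |J - j13 * V|)) :=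
    mul_nonneg hB0 (mul_nonneg (mul_nonneg sa sc) (mul_nonneg (Gc_pos _ _).le (abs_nonneg _)))
  have n23 : 0 ≤ B * ((hsg B b * hsg B c) * (Gc eta (j23 / (V * W)) * |J - j23 * U|)) :=
    mul_nonneg hB0 (mul_nonneg (mul_nonneg sb sc) (mul_nonneg (Gc_pos _ _).le (abs_nonneg _)))
  have n3a : 0 ≤ eta * (U * V * W * (hsg B a * b * c)) :=
    mul_nonneg he (mul_nonneg hUVW (mul_nonneg (mul_nonneg sa hb) hc))
  have n3b : 0 ≤ eta * (U * V * W * (hsg B b * a * c)) :=
    mul_nonneg he (mul_nonneg hUVW (mul_nonneg (mul_nonneg sb ha) hc))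
  have e3 : eta * (U * V * W * (hsg B a * b * c + hsg B b * a * c)) =
      eta * (U * V * W * (hsg B a * b * c)) + eta * (U * V * W * (hsg B b * a * c)) := by ring
  rw [e3]
  have cold : ∀ {q : ℝ}, |a * b * c - (a + b + c - 2)| ≤ q →
      J * (a * b * c) - U * V * W * (a * b * c) - (J - U * V * W) * (a + b + c - 2) ≤
      |J - U * V * W| * q := by
    intro q hq
    have e : J * (a * b * c) - U * V * W * (a * b * c) - (J - U * V * W) * (a + b + c - 2) =
        (J - U * V * W) * (a * b * c - (a + b + c - 2)) := by ring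
    rw [e]
    refine (le_abs_self _).trans ?_
    rw [abs_mul]
    exact mul_le_mul_of_nonneg_left hq (abs_nonneg _)
  by_cases c1 : B < a
  · by_cases c2 : B < b
    · by_cases c3 : B < c
      · -- three strong
        have eg : gcut B eta a b c (j12 / (U * V)) (j13 / (U * W)) (j23 / (V * W)) (J / (U * V * W)) =
            if 1 + eta < J / (U * V * W) then Real.log (J / (U * V * W)) else 0 := by
          unfold gcut
          rw [if_pos ⟨c1, c2, c3⟩]
        have h1 := q3 (J := J) (u := U * V * W) hB he c1 c2 c3 hUVW z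
        unfold Gc at h1
        rw [← eg] at h1
        have e1 : hsg B a = a := by unfold hsg; rw [ind_of c1, one_mul]
        have e2 : eta * (U * V * W * (hsg B a * b * c)) = eta * (U * V * W * (a * b * c)) := by rw [e1]
        linarith
      · -- x, y strong
        have eg : gcut B eta a b c (j12 / (U * V)) (j13 / (U * W)) (j23 / (V * W)) (J / (U * V * W)) =
            if 1 + eta < j12 / (U * V) then Real.log (j12 / (U * V)) else 0 := by
          unfold gcut
          rw [if_neg (fun h => c3 h.2.2), if_pos ⟨c1, c2⟩]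
        have h1 := q2 (J := J) (u := U * V) (j := j12) (G := Gc eta (j12 / (U * V))) hB hc c1 c2 c3 hW (Gc_pos _ _).le
          (Gc_le he hUV z12)
        have e0 : Gc eta (j12 / (U * V)) = Real.exp (-gcut B eta a b c (j12 / (U * V)) (j13 / (U * W)) (j23 / (V * W))
            (J / (U * V * W))) := by
          unfold Gc
          rw [eg]
        have e1 : hsg B a = a := by unfold hsg; rw [ind_of c1, one_mul]
        have e1' : hsg B b = b := by unfold hsg; rw [ind_of c2, one_mul]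
        have e2 : eta * (U * V * W * (hsg B a * b * c)) = eta * (U * V * W * (a * b * c)) := by rw [e1]
        have e4 : B * ((hsg B a * hsg B b) * (Gc eta (j12 / (U * V)) * |J - j12 * W|)) =
          B * ((a * b) * (Gc eta (j12 / (U * V)) * |J - j12 * W|)) := by rw [e1, e1']
        rw [← e0]
        linarith
    · by_cases c3 : B < c
      · -- x, z strong
        have eg : gcut B eta a b c (j12 / (U * V)) (j13 / (U * W)) (j23 / (V * W)) (J / (U * V * W)) =
            if 1 + eta < j13 / (U * W) then Real.log (j13 / (U * W)) else 0 := by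
          unfold gcut
          rw [if_neg (fun h => c2 h.2.1), if_neg (fun h => c2 h.2), if_pos ⟨c1, c3⟩]
        have h1 := q2 (J := J) (u := U * W) (j := j13) (G := Gc eta (j13 / (U * W))) hB hb c1 c3 c2 hV (Gc_pos _ _).le
          (Gc_le he hUW z13)
        have e0 : Gc eta (j13 / (U * W)) = Real.exp (-gcut B eta a b c (j12 / (U * V)) (j13 / (U * W)) (j23 / (V * W))
            (J / (U * V * W))) := by
          unfold Gc
          rw [eg]
        have e1 : hsg B a = a := by unfold hsg; rw [ind_of c1, one_mul]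
        have e1' : hsg B c = c := by unfold hsg; rw [ind_of c3, one_mul]
        have e2 : eta * (U * V * W * (hsg B a * b * c)) = eta * (U * V * W * (a * b * c)) := by rw [e1]
        have e4 : B * ((hsg B a * hsg B c) * (Gc eta (j13 / (U * W)) * |J - j13 * V|)) =
          B * ((a * c) * (Gc eta (j13 / (U * W)) * |J - j13 * V|)) := by rw [e1, e1']
        rw [← e0]
        have e5 : U * W * V = U * V * W := by ring
        have e6 : a * c * b = a * b * c := by ring
        have e7 : a + c + b - 2 = a + b + c - 2 := by ring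
        have e8 : hphi a + hphi c + hphi b = hphi a + hphi b + hphi c := by ring
        rw [e5, e6, e7, e8] at h1
        linarith
      · -- x strong
        have eg : gcut B eta a b c (j12 / (U * V)) (j13 / (U * W)) (j23 / (V * W)) (J / (U * V * W)) = 0 := by
          unfold gcut
          rw [if_neg (fun h => c2 h.2.1), if_neg (fun h => c2 h.2), if_neg (fun h => c3 h.2), if_neg (fun h => c2 h.1)]
        rw [eg, neg_zero, Real.exp_zero, mul_one]
        have h1 := cold (q1 hB hb hc c1 c2 c3)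
        linarith
  · by_cases c2 : B < b
    · by_cases c3 : B < c
      · -- y, z strong
        have eg : gcut B eta a b c (j12 / (U * V)) (j13 / (U * W)) (j23 / (V * W)) (J / (U * V * W)) =
            if 1 + eta < j23 / (V * W) then Real.log (j23 / (V * W)) else 0 := by
          unfold gcut
          rw [if_neg (fun h => c1 h.1), if_neg (fun h => c1 h.1), if_neg (fun h => c1 h.1), if_pos ⟨c2, c3⟩]
        have h1 := q2 (J := J) (u := V * W) (j := j23) (G := Gc eta (j23 / (V * W))) hB ha c2 c3 c1 hU (Gc_pos _ _).le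
          (Gc_le he hVW z23)
        have e0 : Gc eta (j23 / (V * W)) = Real.exp (-gcut B eta a b c (j12 / (U * V)) (j13 / (U * W)) (j23 / (V * W))
            (J / (U * V * W))) := by
          unfold Gc
          rw [eg]
        have e1 : hsg B b = b := by unfold hsg; rw [ind_of c2, one_mul]
        have e1' : hsg B c = c := by unfold hsg; rw [ind_of c3, one_mul]
        have e2 : eta * (U * V * W * (hsg B b * a * c)) = eta * (U * V * W * (a * b * c)) := by rw [e1]; ring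
        have e4 : B * ((hsg B b * hsg B c) * (Gc eta (j23 / (V * W)) * |J - j23 * U|)) =
          B * ((b * c) * (Gc eta (j23 / (V * W)) * |J - j23 * U|)) := by rw [e1, e1']
        rw [← e0]
        have e5 : V * W * U = U * V * W := by ring
        have e6 : b * c * a = a * b * c := by ring
        have e7 : b + c + a - 2 = a + b + c - 2 := by ring
        have e8 : hphi b + hphi c + hphi a = hphi a + hphi b + hphi c := by ring
        rw [e5, e6, e7, e8] at h1
        linarith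
      · -- y strong
        have eg : gcut B eta a b c (j12 / (U * V)) (j13 / (U * W)) (j23 / (V * W)) (J / (U * V * W)) = 0 := by
          unfold gcut
          rw [if_neg (fun h => c1 h.1), if_neg (fun h => c1 h.1), if_neg (fun h => c1 h.1), if_neg (fun h => c3 h.2)]
        rw [eg, neg_zero, Real.exp_zero, mul_one]
        have h0 := q1 hB ha hc c2 c1 c3
        have e6 : b * a * c = a * b * c := by ring
        have e7 : b + a + c - 2 = a + b + c - 2 := by ring
        have e8 : hphi b + hphi a + hphi c = hphi a + hphi b + hphi c := by ring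
        rw [e6, e7, e8] at h0
        have h1 := cold h0
        linarith
    · by_cases c3 : B < c
      · -- z strong
        have eg : gcut B eta a b c (j12 / (U * V)) (j13 / (U * W)) (j23 / (V * W)) (J / (U * V * W)) = 0 := by
          unfold gcut
          rw [if_neg (fun h => c1 h.1), if_neg (fun h => c1 h.1), if_neg (fun h => c1 h.1), if_neg (fun h => c2 h.1)]
        rw [eg, neg_zero, Real.exp_zero, mul_one]
        have h0 := q1 hB ha hb c3 c1 c2
        have e6 : c * a * b = a * b * c := by ring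
        have e7 : c + a + b - 2 = a + b + c - 2 := by ring
        have e8 : hphi c + hphi a + hphi b = hphi a + hphi b + hphi c := by ring
        rw [e6, e7, e8] at h0
        have h1 := cold h0
        linarith
      · -- no strong letter
        have eg : gcut B eta a b c (j12 / (U * V)) (j13 / (U * W)) (j23 / (V * W)) (J / (U * V * W)) = 0 := by
          unfold gcut
          rw [if_neg (fun h => c1 h.1), if_neg (fun h => c1 h.1), if_neg (fun h => c1 h.1), if_neg (fun h => c2 h.1)]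
        rw [eg, neg_zero, Real.exp_zero, mul_one]
        have h1 := cold (q0 hB ha hb hc c1 c2 c3)
        linarith

/-! ### sums -/

section gen

variable {SY : Finset ι} {SZ : Finset θ}

/-- one pair: the row of the triple -/
theorem one_row {f W : θ → ℝ} {j u τ : ℝ} (hf : ∀ z ∈ SZ, 0 ≤ f z) (hW : ∀ z ∈ SZ, 0 ≤ W z) (hW1 : ∑ z ∈ SZ, W z = 1)
    (hj : ∑ z ∈ SZ, f z = j) (hu : 0 ≤ u) (ht0 : 0 ≤ τ) (ht1 : τ ≤ 1)
    (h : (∑ z ∈ SZ, |f z - j * W z| ≤ τ * j) ∨ j ≤ τ * u) :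
    ∑ z ∈ SZ, |f z - j * W z| ≤ 2 * j ∧ ∑ z ∈ SZ, |f z - u * W z| ≤ 3 * τ * u + 2 * |j - u| := by
  have hj0 : 0 ≤ j := by rw [← hj]; exact Finset.sum_nonneg hf
  have h1 : ∑ z ∈ SZ, |f z - j * W z| ≤ 2 * j := by
    calc ∑ z ∈ SZ, |f z - j * W z| ≤ ∑ z ∈ SZ, (f z + j * W z) := by
          refine Finset.sum_le_sum fun z hz => ?_
          have a1 := hf z hz
          have a2 := mul_nonneg hj0 (hW z hz)
          rw [abs_le]
          constructor <;> linarith
      _ = 2 * j := by rw [Finset.sum_add_distrib, ← Finset.mul_sum, hW1, hj]; ring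
  refine ⟨h1, ?_⟩
  have h2 : ∑ z ∈ SZ, |f z - u * W z| ≤ ∑ z ∈ SZ, |f z - j * W z| + |j - u| := by
    calc ∑ z ∈ SZ, |f z - u * W z| ≤ ∑ z ∈ SZ, (|f z - j * W z| + |j - u| * W z) := by
          refine Finset.sum_le_sum fun z hz => ?_
          have e : f z - u * W z = (f z - j * W z) + (j - u) * W z := by ring
          rw [e]
          refine (abs_add_le _ _).trans ?_
          rw [abs_mul (j - u), abs_of_nonneg (hW z hz)]
      _ = _ := by rw [Finset.sum_add_distrib, ← Finset.mul_sum, hW1, mul_one]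
  have hab := abs_nonneg (j - u)
  have hjle : j ≤ u + |j - u| := by linarith [le_abs_self (j - u)]
  have htu : 0 ≤ τ * u := mul_nonneg ht0 hu
  rcases h with h | h
  · have h3 : τ * j ≤ τ * (u + |j - u|) := mul_le_mul_of_nonneg_left hjle ht0
    have h4 : τ * |j - u| ≤ 1 * |j - u| := mul_le_mul_of_nonneg_right ht1 hab
    nlinarith
  · nlinarith

/-- a good letter: the whole row -/
theorem row_gen {f : ι → θ → ℝ} {W : θ → ℝ} {j u : ι → ℝ} {U τ : ℝ} {T : ι → Prop} (hf : ∀ y ∈ SY, ∀ z ∈ SZ, 0 ≤ f y z)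
    (hW : ∀ z ∈ SZ, 0 ≤ W z) (hW1 : ∑ z ∈ SZ, W z = 1) (hj : ∀ y ∈ SY, ∑ z ∈ SZ, f y z = j y) (hu : ∀ y ∈ SY, 0 ≤ u y)
    (ht0 : 0 ≤ τ) (ht1 : τ ≤ 1) (huU : ∑ y ∈ SY, u y ≤ U) (hr : ∑ y ∈ SY, |j y - u y| ≤ τ * U)
    (h : ∀ y ∈ SY, T y → (∑ z ∈ SZ, |f y z - j y * W z| ≤ τ * j y) ∨ j y ≤ τ * u y) :
    ∑ y ∈ SY, ind (T y) * ∑ z ∈ SZ, |f y z - u y * W z| ≤ 5 * τ * U := by
  have h1 : ∀ y ∈ SY, ind (T y) * ∑ z ∈ SZ, |f y z - u y * W z| ≤ 3 * τ * u y + 2 * |j y - u y| := by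
    intro y hy
    by_cases hT : T y
    · rw [ind_of hT, one_mul]
      exact (one_row (hf y hy) hW hW1 (hj y hy) (hu y hy) ht0 ht1 (h y hy hT)).2
    · rw [ind_not hT, zero_mul]
      have := mul_nonneg ht0 (hu y hy)
      have := abs_nonneg (j y - u y)
      linarith
  refine (Finset.sum_le_sum h1).trans ?_
  rw [Finset.sum_add_distrib, ← Finset.mul_sum, ← Finset.mul_sum]
  have h2 : 3 * τ * ∑ y ∈ SY, u y ≤ 3 * τ * U := mul_le_mul_of_nonneg_left huU (by linarith)
  linarith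

/-- two strong letters -/
theorem pair_gen {SX : Finset κ} {f t : κ → ι → θ → ℝ} {W : θ → ℝ} {j G : κ → ι → ℝ} {U s : κ → ℝ} {V' s' : ι → ℝ}
    {K τ B : ℝ} {T : κ → ι → Prop} (hB : 0 ≤ B) (ht0 : 0 ≤ τ) (hG : ∀ x y, 0 ≤ G x y)
    (hU : ∀ x ∈ SX, 0 ≤ U x) (hs : ∀ x ∈ SX, 0 ≤ s x)
    (hs' : ∀ y ∈ SY, 0 ≤ s' y) (hK : ∑ x ∈ SX, U x * s x ≤ K) (h1 : ∑ y ∈ SY, V' y * s' y ≤ 1)
    (htt : ∀ x y z, 0 ≤ t x y z ∧ t x y z ≤ ind (T x y)) (hV : ∀ y ∈ SY, 0 ≤ V' y)
    (h : ∀ x ∈ SX, ∀ y ∈ SY, T x y → G x y * ∑ z ∈ SZ, |f x y z - j x y * W z| ≤ 2 * τ * (U x * V' y)) :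
    ∑ x ∈ SX, ∑ y ∈ SY, ∑ z ∈ SZ, t x y z * (B * ((s x * s' y) * (G x y * |f x y z - j x y * W z|))) ≤
      2 * B * τ * K := by
  have e1 : ∀ x ∈ SX, ∀ y ∈ SY, ∑ z ∈ SZ, t x y z * (B * ((s x * s' y) * (G x y * |f x y z - j x y * W z|))) ≤
      2 * B * τ * ((U x * s x) * (V' y * s' y)) := by
    intro x hx y hy
    have p0 : 0 ≤ B * (s x * s' y) := mul_nonneg hB (mul_nonneg (hs x hx) (hs' y hy))
    have p1 : ∀ z ∈ SZ, t x y z * (B * ((s x * s' y) * (G x y * |f x y z - j x y * W z|))) ≤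
        B * (s x * s' y) * (ind (T x y) * (G x y * |f x y z - j x y * W z|)) := by
      intro z _
      have q1 : 0 ≤ G x y * |f x y z - j x y * W z| := mul_nonneg (hG x y) (abs_nonneg _)
      calc t x y z * (B * ((s x * s' y) * (G x y * |f x y z - j x y * W z|))) =
          (B * (s x * s' y)) * (t x y z * (G x y * |f x y z - j x y * W z|)) := by ring
        _ ≤ _ := mul_le_mul_of_nonneg_left (mul_le_mul_of_nonneg_right (htt x y z).2 q1) p0
    refine (Finset.sum_le_sum p1).trans ?_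
    rw [← Finset.mul_sum, ← Finset.mul_sum, ← Finset.mul_sum]
    by_cases hT : T x y
    · rw [ind_of hT, one_mul]
      refine (mul_le_mul_of_nonneg_left (h x hx y hy hT) p0).trans (le_of_eq ?_)
      ring
    · rw [ind_not hT, zero_mul, mul_zero]
      have := hU x hx
      have := hs x hx
      have := hV y hy
      have := hs' y hy
      positivity
  refine (Finset.sum_le_sum fun x hx => Finset.sum_le_sum fun y hy => e1 x hx y hy).trans ?_
  have e2 : ∀ x ∈ SX, ∑ y ∈ SY, 2 * B * τ * ((U x * s x) * (V' y * s' y)) ≤ 2 * B * τ * (U x * s x) := by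
    intro x hx
    have p0 : 0 ≤ 2 * B * τ * (U x * s x) := by
      have := hU x hx
      have := hs x hx
      positivity
    calc ∑ y ∈ SY, 2 * B * τ * ((U x * s x) * (V' y * s' y)) = (2 * B * τ * (U x * s x)) * ∑ y ∈ SY, V' y * s' y := by
          rw [Finset.mul_sum]
          exact Finset.sum_congr rfl fun y _ => by ring
      _ ≤ (2 * B * τ * (U x * s x)) * 1 := mul_le_mul_of_nonneg_left h1 p0
      _ = _ := mul_one _
  refine (Finset.sum_le_sum e2).trans ?_
  rw [← Finset.mul_sum]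
  exact mul_le_mul_of_nonneg_left hK (by positivity)

end gen

/-! ### marginals of the triple -/

theorem lw3_z (x : κ) (y : ι) : ∑ z ∈ vals Z, lw3 P X Y Z x y z = lw2 P X Y x y := by
  unfold lw3 lw2
  rw [← P.E_sum]
  refine P.E_congr fun w _ => ?_
  rw [← Finset.mul_sum]
  have := FP.sum_vals Z (fun _ => (1 : ℝ)) w
  simp only [mul_one] at this
  rw [this, mul_one]

theorem lw3_y (x : κ) (z : θ) : ∑ y ∈ vals Y, lw3 P X Y Z x y z = lw2 P X Z x z := by
  unfold lw3 lw2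
  rw [← P.E_sum]
  refine P.E_congr fun w _ => ?_
  have := FP.sum_vals Y (fun _ => (1 : ℝ)) w
  simp only [mul_one] at this
  have e : ∀ y ∈ vals Y, ind (X w = x) * ind (Y w = y) * ind (Z w = z) = ind (Y w = y) * (ind (X w = x) * ind (Z w = z)) :=
    fun y _ => by ring
  rw [Finset.sum_congr rfl e, ← Finset.sum_mul, this, one_mul]

theorem lw3_x (y : ι) (z : θ) : ∑ x ∈ vals X, lw3 P X Y Z x y z = lw2 P Y Z y z := by
  unfold lw3 lw2
  rw [← P.E_sum]
  refine P.E_congr fun w _ => ?_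
  have := FP.sum_vals X (fun _ => (1 : ℝ)) w
  simp only [mul_one] at this
  have e : ∀ x ∈ vals X, ind (X w = x) * ind (Y w = y) * ind (Z w = z) = ind (X w = x) * (ind (Y w = y) * ind (Z w = z)) :=
    fun x _ => by ring
  rw [Finset.sum_congr rfl e, ← Finset.sum_mul, this, one_mul]

theorem lw2_le_x (x : κ) (y : ι) : lw2 P X Y x y ≤ lw P X x :=
  P.E_mono fun w _ => mul_le_of_le_one_right (ind_nonneg _) (ind_le_one _)

theorem lw2_le_y (x : κ) (y : ι) : lw2 P X Y x y ≤ lw P Y y :=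
  P.E_mono fun w _ => mul_le_of_le_one_left (ind_nonneg _) (ind_le_one _)

theorem lw2_z (x : κ) (y : ι) (h : lw P X x * lw P Y y = 0) : lw2 P X Y x y = 0 := by
  have h0 := lw2_nonneg P X Y x y
  rcases mul_eq_zero.1 h with h | h
  · have := lw2_le_x (P := P) (X := X) (Y := Y) x y
    linarith
  · have := lw2_le_y (P := P) (X := X) (Y := Y) x y
    linarith

theorem lw3_zero (x : κ) (y : ι) (z : θ) (h : lw P X x * lw P Y y * lw P Z z = 0) : lw3 P X Y Z x y z = 0 := by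
  have h0 := lw3_nonneg P X Y Z x y z
  rcases mul_eq_zero.1 h with h | h
  · rcases mul_eq_zero.1 h with h | h
    · have := lw3_le_x P X Y Z x y z
      linarith
    · have := lw3_le_y P X Y Z x y z
      linarith
  · have := lw3_le_z P X Y Z x y z
    linarith

variable {TX : κ → Prop} {TY : ι → Prop} {TZ : θ → Prop} {τ : ℝ}

theorem ind3 (p q r : Prop) : ind (p ∧ q ∧ r) = ind p * (ind q * ind r) := by
  by_cases h1 : p
  · by_cases h2 : q
    · by_cases h3 : r
      · rw [ind_of h1, ind_of h2, ind_of h3, ind_of ⟨h1, h2, h3⟩]; ring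
      · rw [ind_not h3, ind_not (fun h => h3 h.2.2)]; ring
    · rw [ind_not h2, ind_not (fun h => h2 h.2.1)]; ring
  · rw [ind_not h1, ind_not (fun h => h1 h.1)]; ring

/-- distance of the triple from the product -/
noncomputable def dl (P : FP Om) (X : Om → κ) (Y : Om → ι) (Z : Om → θ) (x : κ) (y : ι) (z : θ) : ℝ :=
  |lw3 P X Y Z x y z - lw P X x * lw P Y y * lw P Z z|

theorem dl_nonneg (x : κ) (y : ι) (z : θ) : 0 ≤ dl P X Y Z x y z := abs_nonneg _

theorem row_x (G : Good3 P X Y Z TX TY TZ τ) (ht0 : 0 ≤ τ) (ht1 : τ ≤ 1) (x : κ) :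
    ∑ y ∈ vals Y, ∑ z ∈ vals Z, ind (TX x ∧ TY y ∧ TZ z) * dl P X Y Z x y z ≤ 5 * τ * lw P X x := by
  by_cases hx : TX x
  · have h1 := row_gen (SY := vals Y) (SZ := vals Z) (f := fun y z => lw3 P X Y Z x y z) (W := lw P Z)
      (j := fun y => lw2 P X Y x y) (u := fun y => lw P X x * lw P Y y) (U := lw P X x) (τ := τ) (T := TY)
      (fun y _ z _ => lw3_nonneg P X Y Z x y z) (fun z _ => lw_nonneg P Z z) (sum_lw_one P Z) (fun y _ => lw3_z x y)
      (fun y _ => mul_nonneg (lw_nonneg P X x) (lw_nonneg P Y y)) ht0 ht1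
      (by rw [← Finset.mul_sum, sum_lw_one, mul_one]) (G.xy x hx) (fun y _ hy => G.xyz x y hx hy)
    refine le_trans (Finset.sum_le_sum fun y _ => ?_) h1
    rw [Finset.mul_sum]
    refine Finset.sum_le_sum fun z _ => ?_
    rw [ind3, ind_of hx, one_mul]
    refine mul_le_mul_of_nonneg_right ?_ (abs_nonneg _)
    exact mul_le_of_le_one_right (ind_nonneg _) (ind_le_one _)
  · have h0 : ∑ y ∈ vals Y, ∑ z ∈ vals Z, ind (TX x ∧ TY y ∧ TZ z) * dl P X Y Z x y z = 0 :=
      Finset.sum_eq_zero fun y _ => Finset.sum_eq_zero fun z _ => by rw [ind_not (fun h => hx h.1), zero_mul]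
    rw [h0]
    have := lw_nonneg P X x
    positivity

theorem row_y (G : Good3 P X Y Z TX TY TZ τ) (ht0 : 0 ≤ τ) (ht1 : τ ≤ 1) (y : ι) :
    ∑ x ∈ vals X, ∑ z ∈ vals Z, ind (TX x ∧ TY y ∧ TZ z) * dl P X Y Z x y z ≤ 5 * τ * lw P Y y := by
  by_cases hy : TY y
  · have h1 := row_gen (SY := vals X) (SZ := vals Z) (f := fun x z => lw3 P X Y Z x y z) (W := lw P Z)
      (j := fun x => lw2 P X Y x y) (u := fun x => lw P X x * lw P Y y) (U := lw P Y y) (τ := τ) (T := TX)
      (fun x _ z _ => lw3_nonneg P X Y Z x y z) (fun z _ => lw_nonneg P Z z) (sum_lw_one P Z) (fun x _ => lw3_z x y)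
      (fun x _ => mul_nonneg (lw_nonneg P X x) (lw_nonneg P Y y)) ht0 ht1
      (by rw [← Finset.sum_mul, sum_lw_one, one_mul])
      (by have h := G.yx y hy; rw [← cold_eq] at h; exact h) (fun x _ hx => G.xyz x y hx hy)
    refine le_trans (Finset.sum_le_sum fun x _ => ?_) h1
    rw [Finset.mul_sum]
    refine Finset.sum_le_sum fun z _ => ?_
    rw [ind3, ind_of hy, one_mul]
    refine mul_le_mul_of_nonneg_right ?_ (abs_nonneg _)
    exact mul_le_of_le_one_right (ind_nonneg _) (ind_le_one _)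
  · have h0 : ∑ x ∈ vals X, ∑ z ∈ vals Z, ind (TX x ∧ TY y ∧ TZ z) * dl P X Y Z x y z = 0 :=
      Finset.sum_eq_zero fun y _ => Finset.sum_eq_zero fun z _ => by rw [ind_not (fun h => hy h.2.1), zero_mul]
    rw [h0]
    have := lw_nonneg P Y y
    positivity

theorem row_z (G : Good3 P X Y Z TX TY TZ τ) (ht0 : 0 ≤ τ) (ht1 : τ ≤ 1) (z : θ) :
    ∑ x ∈ vals X, ∑ y ∈ vals Y, ind (TX x ∧ TY y ∧ TZ z) * dl P X Y Z x y z ≤ 5 * τ * lw P Z z := by
  by_cases hz : TZ z
  · have h1 := row_gen (SY := vals X) (SZ := vals Y) (f := fun x y => lw3 P X Y Z x y z) (W := lw P Y)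
      (j := fun x => lw2 P X Z x z) (u := fun x => lw P X x * lw P Z z) (U := lw P Z z) (τ := τ) (T := TX)
      (fun x _ y _ => lw3_nonneg P X Y Z x y z) (fun y _ => lw_nonneg P Y y) (sum_lw_one P Y) (fun x _ => lw3_y x z)
      (fun x _ => mul_nonneg (lw_nonneg P X x) (lw_nonneg P Z z)) ht0 ht1
      (by rw [← Finset.sum_mul, sum_lw_one, one_mul])
      (by have h := G.zx z hz; rw [← cold_eq] at h; exact h) (fun x _ hx => G.xzy x z hx hz)
    refine le_trans (Finset.sum_le_sum fun x _ => ?_) h1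
    rw [Finset.mul_sum]
    refine Finset.sum_le_sum fun y _ => ?_
    rw [ind3, ind_of hz, mul_one]
    have e : lw P X x * lw P Y y * lw P Z z = lw P X x * lw P Z z * lw P Y y := by ring
    unfold dl
    rw [e]
    refine mul_le_mul_of_nonneg_right ?_ (abs_nonneg _)
    exact mul_le_of_le_one_right (ind_nonneg _) (ind_le_one _)
  · have h0 : ∑ x ∈ vals X, ∑ y ∈ vals Y, ind (TX x ∧ TY y ∧ TZ z) * dl P X Y Z x y z = 0 :=
      Finset.sum_eq_zero fun y _ => Finset.sum_eq_zero fun z _ => by rw [ind_not (fun h => hz h.2.2), zero_mul]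
    rw [h0]
    have := lw_nonneg P Z z
    positivity

/-! ### one value of `V` -/

/-- the excess of one triple -/
noncomputable def Fi (Q P : FP Om) (X : Om → κ) (Y : Om → ι) (Z : Om → θ) (B eta : ℝ) (x : κ) (y : ι) (z : θ) : ℝ :=
  lw3 P X Y Z x y z * (rt Q P X x * rt Q P Y y * rt Q P Z z * Real.exp (-gV Q P X Y Z B eta x y z)) -
    lw P X x * lw P Y y * lw P Z z * (rt Q P X x * rt Q P Y y * rt Q P Z z) -
    (lw3 P X Y Z x y z - lw P X x * lw P Y y * lw P Z z) * (rt Q P X x + rt Q P Y y + rt Q P Z z - 2)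

theorem sum_rt1 {Q : FP Om} (hac : Q.Ac P) (X : Om → κ) : ∑ x ∈ vals X, lw P X x * rt Q P X x = 1 := by
  have h := sum_rt (P := P) (Q := Q) (X := X) hac (fun _ => 1)
  rw [Q.E_const] at h
  rw [← h]
  exact Finset.sum_congr rfl fun x _ => by rw [mul_one]

/-- the good pairs -/
theorem pair_fac {κ₁ κ₂ κ₃ : Type*} {X₁ : Om → κ₁} {X₂ : Om → κ₂} {X₃ : Om → κ₃} {f : κ₃ → ℝ} {x : κ₁} {y : κ₂}
    {eta τ : ℝ} (he0 : 0 ≤ eta) (he1 : eta ≤ 1) (ht0 : 0 ≤ τ) (ht1 : τ ≤ 1) (hf : ∀ z ∈ vals X₃, 0 ≤ f z)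
    (hj : ∑ z ∈ vals X₃, f z = lw2 P X₁ X₂ x y)
    (h : (∑ z ∈ vals X₃, |f z - lw2 P X₁ X₂ x y * lw P X₃ z| ≤ τ * lw2 P X₁ X₂ x y) ∨
      lw2 P X₁ X₂ x y ≤ τ * (lw P X₁ x * lw P X₂ y)) :
    Gc eta (lw2 P X₁ X₂ x y / (lw P X₁ x * lw P X₂ y)) * ∑ z ∈ vals X₃, |f z - lw2 P X₁ X₂ x y * lw P X₃ z| ≤
      2 * τ * (lw P X₁ x * lw P X₂ y) := by
  have hu : 0 ≤ lw P X₁ x * lw P X₂ y := mul_nonneg (lw_nonneg P X₁ x) (lw_nonneg P X₂ y)
  have h1 := (one_row (SZ := vals X₃) (f := f) (W := lw P X₃) (j := lw2 P X₁ X₂ x y) (u := lw P X₁ x * lw P X₂ y)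
    hf (fun z _ => lw_nonneg P X₃ z) (sum_lw_one P X₃) hj hu ht0 ht1 h).1
  exact Gc_row he0 he1 ht0 ht1 (lw2_nonneg P X₁ X₂ x y) hu (lw2_z x y) (Finset.sum_nonneg fun _ _ => abs_nonneg _) h1 h

/-- one value of `V` -/
theorem E_le {Q : FP Om} (hac : Q.Ac P) {B eta : ℝ} (hB : Real.exp 2 ≤ B) (he0 : 0 ≤ eta) (he1 : eta ≤ 1)
    (ht0 : 0 ≤ τ) (ht1 : τ ≤ 1) (G : Good3 P X Y Z TX TY TZ τ) :
    ∑ x ∈ vals X, ∑ y ∈ vals Y, ∑ z ∈ vals Z, ind (TX x ∧ TY y ∧ TZ z) * Fi Q P X Y Z B eta x y z ≤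
      (34 * B ^ 2 * τ + eta) * (Q.kl P X + Q.kl P Y + Q.kl P Z) := by
  have hB1 : 1 ≤ B := by
    have := Real.add_one_le_exp 2
    linarith
  have hB0 : 0 ≤ B := by linarith
  set a := rt Q P X with ha
  set b := rt Q P Y with hb
  set c := rt Q P Z with hc
  have ha0 : ∀ x, 0 ≤ a x := rt_nonneg
  have hb0 : ∀ y, 0 ≤ b y := rt_nonneg
  have hc0 : ∀ z, 0 ≤ c z := rt_nonneg
  have hU := lw_nonneg P X
  have hV := lw_nonneg P Y
  have hW := lw_nonneg P Z
  have hK1 : 0 ≤ Q.kl P X := FP.kl_nonneg hac X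
  have hK2 : 0 ≤ Q.kl P Y := FP.kl_nonneg hac Y
  have hK3 : 0 ≤ Q.kl P Z := FP.kl_nonneg hac Z
  have t0 : ∀ x y z, 0 ≤ ind (TX x ∧ TY y ∧ TZ z) := fun x y z => ind_nonneg _
  have sX := strong_le (X := X) hac hB
  have sY := strong_le (X := Y) hac hB
  rw [← ha] at sX
  rw [← hb] at sY
  have oX : ∑ x ∈ vals X, lw P X x * a x = 1 := sum_rt1 hac X
  have oY : ∑ y ∈ vals Y, lw P Y y * b y = 1 := sum_rt1 hac Y
  have oZ : ∑ z ∈ vals Z, lw P Z z * c z = 1 := sum_rt1 hac Z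
  have oY' : ∑ y ∈ vals Y, lw P Y y * hsg B (b y) ≤ 1 := by
    rw [← oY]
    exact Finset.sum_le_sum fun y _ => mul_le_mul_of_nonneg_left (hsg_le_self (hb0 y)) (hV y)
  have oZ' : ∑ z ∈ vals Z, lw P Z z * hsg B (c z) ≤ 1 := by
    rw [← oZ]
    exact Finset.sum_le_sum fun z _ => mul_le_mul_of_nonneg_left (hsg_le_self (hc0 z)) (hW z)
  -- pointwise
  have h1 : ∀ x ∈ vals X, ∀ y ∈ vals Y, ∀ z ∈ vals Z, ind (TX x ∧ TY y ∧ TZ z) * Fi Q P X Y Z B eta x y z ≤
      ind (TX x ∧ TY y ∧ TZ z) * (dl P X Y Z x y z * (6 * B ^ 2 * (hphi (a x) + hphi (b y) + hphi (c z)))) +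
      ind (TX x ∧ TY y ∧ TZ z) * (B * ((hsg B (a x) * hsg B (b y)) *
        (Gc eta (Dd P X Y x y) * |lw3 P X Y Z x y z - lw2 P X Y x y * lw P Z z|))) +
      ind (TX x ∧ TY y ∧ TZ z) * (B * ((hsg B (a x) * hsg B (c z)) *
        (Gc eta (Dd P X Z x z) * |lw3 P X Y Z x y z - lw2 P X Z x z * lw P Y y|))) +
      ind (TX x ∧ TY y ∧ TZ z) * (B * ((hsg B (b y) * hsg B (c z)) *
        (Gc eta (Dd P Y Z y z) * |lw3 P X Y Z x y z - lw2 P Y Z y z * lw P X x|))) +
      ind (TX x ∧ TY y ∧ TZ z) * (eta * (lw P X x * lw P Y y * lw P Z z *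
        (hsg B (a x) * b y * c z + hsg B (b y) * a x * c z))) := by
    intro x _ y _ z _
    have h2 := pt (B := B) (eta := eta) (a := a x) (b := b y) (c := c z) (J := lw3 P X Y Z x y z) (U := lw P X x)
      (V := lw P Y y) (W := lw P Z z) (j12 := lw2 P X Y x y) (j13 := lw2 P X Z x z) (j23 := lw2 P Y Z y z) hB he0
      (ha0 x) (hb0 y) (hc0 z) (hU x) (hV y) (hW z) (lw2_z x y) (lw2_z x z) (lw2_z y z) (lw3_zero x y z)
    have h3 := mul_le_mul_of_nonneg_left h2 (t0 x y z)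
    rw [← mul_add, ← mul_add, ← mul_add, ← mul_add]
    exact h3
  refine (Finset.sum_le_sum fun x hx => Finset.sum_le_sum fun y hy => Finset.sum_le_sum fun z hz =>
    h1 x hx y hy z hz).trans ?_
  -- splitting the sum
  have sp : ∀ (F1 F2 F3 F4 F5 : κ → ι → θ → ℝ), ∑ x ∈ vals X, ∑ y ∈ vals Y, ∑ z ∈ vals Z,
      (F1 x y z + F2 x y z + F3 x y z + F4 x y z + F5 x y z) =
      ∑ x ∈ vals X, ∑ y ∈ vals Y, ∑ z ∈ vals Z, F1 x y z + ∑ x ∈ vals X, ∑ y ∈ vals Y, ∑ z ∈ vals Z, F2 x y z +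
      ∑ x ∈ vals X, ∑ y ∈ vals Y, ∑ z ∈ vals Z, F3 x y z + ∑ x ∈ vals X, ∑ y ∈ vals Y, ∑ z ∈ vals Z, F4 x y z +
      ∑ x ∈ vals X, ∑ y ∈ vals Y, ∑ z ∈ vals Z, F5 x y z := by
    intro F1 F2 F3 F4 F5
    simp only [Finset.sum_add_distrib]
  rw [sp]
  -- the rows
  have p1 : ∑ x ∈ vals X, ∑ y ∈ vals Y, ∑ z ∈ vals Z, ind (TX x ∧ TY y ∧ TZ z) *
      (dl P X Y Z x y z * (6 * B ^ 2 * (hphi (a x) + hphi (b y) + hphi (c z)))) ≤
      30 * B ^ 2 * τ * (Q.kl P X + Q.kl P Y + Q.kl P Z) := by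
    have e1 : ∑ x ∈ vals X, ∑ y ∈ vals Y, ∑ z ∈ vals Z, ind (TX x ∧ TY y ∧ TZ z) *
        (dl P X Y Z x y z * (6 * B ^ 2 * (hphi (a x) + hphi (b y) + hphi (c z)))) =
        6 * B ^ 2 * (∑ x ∈ vals X, hphi (a x) * ∑ y ∈ vals Y, ∑ z ∈ vals Z, ind (TX x ∧ TY y ∧ TZ z) * dl P X Y Z x y z) +
        6 * B ^ 2 * (∑ y ∈ vals Y, hphi (b y) * ∑ x ∈ vals X, ∑ z ∈ vals Z, ind (TX x ∧ TY y ∧ TZ z) * dl P X Y Z x y z) +
        6 * B ^ 2 * (∑ z ∈ vals Z, hphi (c z) * ∑ x ∈ vals X, ∑ y ∈ vals Y, ind (TX x ∧ TY y ∧ TZ z) * dl P X Y Z x y z) := by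
      have e2 : ∑ y ∈ vals Y, hphi (b y) * ∑ x ∈ vals X, ∑ z ∈ vals Z, ind (TX x ∧ TY y ∧ TZ z) * dl P X Y Z x y z =
          ∑ x ∈ vals X, ∑ y ∈ vals Y, ∑ z ∈ vals Z, hphi (b y) * (ind (TX x ∧ TY y ∧ TZ z) * dl P X Y Z x y z) := by
        rw [Finset.sum_comm]
        refine Finset.sum_congr rfl fun y _ => ?_
        rw [Finset.mul_sum]
        refine Finset.sum_congr rfl fun x _ => ?_
        rw [Finset.mul_sum]
      have e3 : ∑ z ∈ vals Z, hphi (c z) * ∑ x ∈ vals X, ∑ y ∈ vals Y, ind (TX x ∧ TY y ∧ TZ z) * dl P X Y Z x y z =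
          ∑ x ∈ vals X, ∑ y ∈ vals Y, ∑ z ∈ vals Z, hphi (c z) * (ind (TX x ∧ TY y ∧ TZ z) * dl P X Y Z x y z) := by
        have e4 : ∀ x ∈ vals X, ∑ y ∈ vals Y, ∑ z ∈ vals Z, hphi (c z) * (ind (TX x ∧ TY y ∧ TZ z) * dl P X Y Z x y z) =
            ∑ z ∈ vals Z, ∑ y ∈ vals Y, hphi (c z) * (ind (TX x ∧ TY y ∧ TZ z) * dl P X Y Z x y z) :=
          fun x _ => Finset.sum_comm
        rw [Finset.sum_congr rfl e4, Finset.sum_comm]
        refine Finset.sum_congr rfl fun z _ => ?_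
        rw [Finset.mul_sum]
        refine Finset.sum_congr rfl fun x _ => ?_
        rw [Finset.mul_sum]
      rw [e2, e3, Finset.mul_sum, Finset.mul_sum, Finset.mul_sum, ← Finset.sum_add_distrib, ← Finset.sum_add_distrib]
      refine Finset.sum_congr rfl fun x _ => ?_
      rw [Finset.mul_sum, Finset.mul_sum, Finset.mul_sum, Finset.mul_sum, ← Finset.sum_add_distrib,
        ← Finset.sum_add_distrib]
      refine Finset.sum_congr rfl fun y _ => ?_
      rw [Finset.mul_sum, Finset.mul_sum, Finset.mul_sum, Finset.mul_sum, ← Finset.sum_add_distrib,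
        ← Finset.sum_add_distrib]
      exact Finset.sum_congr rfl fun z _ => by ring
    rw [e1]
    have k1 : ∑ x ∈ vals X, hphi (a x) * ∑ y ∈ vals Y, ∑ z ∈ vals Z, ind (TX x ∧ TY y ∧ TZ z) * dl P X Y Z x y z ≤
        5 * τ * Q.kl P X := by
      rw [kl_hphi hac, Finset.mul_sum]
      refine Finset.sum_le_sum fun x _ => ?_
      refine (mul_le_mul_of_nonneg_left (row_x G ht0 ht1 x) (hphi_nonneg (ha0 x))).trans (le_of_eq ?_)
      ring
    have k2 : ∑ y ∈ vals Y, hphi (b y) * ∑ x ∈ vals X, ∑ z ∈ vals Z, ind (TX x ∧ TY y ∧ TZ z) * dl P X Y Z x y z ≤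
        5 * τ * Q.kl P Y := by
      rw [kl_hphi hac, Finset.mul_sum]
      refine Finset.sum_le_sum fun y _ => ?_
      refine (mul_le_mul_of_nonneg_left (row_y G ht0 ht1 y) (hphi_nonneg (hb0 y))).trans (le_of_eq ?_)
      ring
    have k3 : ∑ z ∈ vals Z, hphi (c z) * ∑ x ∈ vals X, ∑ y ∈ vals Y, ind (TX x ∧ TY y ∧ TZ z) * dl P X Y Z x y z ≤
        5 * τ * Q.kl P Z := by
      rw [kl_hphi hac, Finset.mul_sum]
      refine Finset.sum_le_sum fun z _ => ?_
      refine (mul_le_mul_of_nonneg_left (row_z G ht0 ht1 z) (hphi_nonneg (hc0 z))).trans (le_of_eq ?_)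
      ring
    have m0 : 0 ≤ 6 * B ^ 2 := by positivity
    have m1 := mul_le_mul_of_nonneg_left k1 m0
    have m2 := mul_le_mul_of_nonneg_left k2 m0
    have m3 := mul_le_mul_of_nonneg_left k3 m0
    calc _ ≤ 6 * B ^ 2 * (5 * τ * Q.kl P X) + 6 * B ^ 2 * (5 * τ * Q.kl P Y) + 6 * B ^ 2 * (5 * τ * Q.kl P Z) :=
          add_le_add (add_le_add m1 m2) m3
      _ = _ := by ring
  -- the pairs
  have p2 : ∑ x ∈ vals X, ∑ y ∈ vals Y, ∑ z ∈ vals Z, ind (TX x ∧ TY y ∧ TZ z) * (B * ((hsg B (a x) * hsg B (b y)) *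
        (Gc eta (Dd P X Y x y) * |lw3 P X Y Z x y z - lw2 P X Y x y * lw P Z z|))) ≤ 2 * B * τ * Q.kl P X :=
    pair_gen (T := fun x y => TX x ∧ TY y) hB0 ht0 (fun x y => (Gc_pos _ _).le) (fun x _ => hU x)
      (fun x _ => hsg_nonneg (ha0 x)) (fun y _ => hsg_nonneg (hb0 y)) sX oY'
      (fun x y z => ⟨t0 x y z, by
        rw [ind3]
        by_cases h1 : TX x
        · by_cases h2 : TY y
          · rw [ind_of h1, ind_of h2, ind_of (show TX x ∧ TY y from ⟨h1, h2⟩), one_mul, one_mul]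
            exact ind_le_one _
          · rw [ind_not h2, zero_mul, mul_zero]
            exact ind_nonneg _
        · rw [ind_not h1, zero_mul]
          exact ind_nonneg _⟩) (fun y _ => hV y)
      (fun x _ y _ h => pair_fac he0 he1 ht0 ht1 (fun z _ => lw3_nonneg P X Y Z x y z) (lw3_z x y)
        (G.xyz x y h.1 h.2))
  have p3 : ∑ x ∈ vals X, ∑ y ∈ vals Y, ∑ z ∈ vals Z, ind (TX x ∧ TY y ∧ TZ z) * (B * ((hsg B (a x) * hsg B (c z)) *
        (Gc eta (Dd P X Z x z) * |lw3 P X Y Z x y z - lw2 P X Z x z * lw P Y y|))) ≤ 2 * B * τ * Q.kl P X := by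
    have e1 : ∀ x ∈ vals X, ∑ y ∈ vals Y, ∑ z ∈ vals Z, ind (TX x ∧ TY y ∧ TZ z) * (B * ((hsg B (a x) * hsg B (c z)) *
        (Gc eta (Dd P X Z x z) * |lw3 P X Y Z x y z - lw2 P X Z x z * lw P Y y|))) =
        ∑ z ∈ vals Z, ∑ y ∈ vals Y, ind (TX x ∧ TY y ∧ TZ z) * (B * ((hsg B (a x) * hsg B (c z)) *
        (Gc eta (Dd P X Z x z) * |lw3 P X Y Z x y z - lw2 P X Z x z * lw P Y y|))) := fun x _ => Finset.sum_comm
    rw [Finset.sum_congr rfl e1]
    exact pair_gen (f := fun x z y => lw3 P X Y Z x y z) (t := fun x z y => ind (TX x ∧ TY y ∧ TZ z))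
      (T := fun x z => TX x ∧ TZ z) hB0 ht0 (fun x y => (Gc_pos _ _).le) (fun x _ => hU x)
      (fun x _ => hsg_nonneg (ha0 x)) (fun y _ => hsg_nonneg (hc0 y)) sX oZ'
      (fun x z y => ⟨t0 x y z, by
        rw [ind3]
        by_cases h1 : TX x
        · by_cases h2 : TZ z
          · rw [ind_of h1, ind_of h2, ind_of (show TX x ∧ TZ z from ⟨h1, h2⟩), one_mul, mul_one]
            exact ind_le_one _
          · rw [ind_not h2, mul_zero, mul_zero]
            exact ind_nonneg _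
        · rw [ind_not h1, zero_mul]
          exact ind_nonneg _⟩) (fun y _ => hW y)
      (fun x _ z _ h => pair_fac he0 he1 ht0 ht1 (fun y _ => lw3_nonneg P X Y Z x y z) (lw3_y x z)
        (G.xzy x z h.1 h.2))
  have p4 : ∑ x ∈ vals X, ∑ y ∈ vals Y, ∑ z ∈ vals Z, ind (TX x ∧ TY y ∧ TZ z) * (B * ((hsg B (b y) * hsg B (c z)) *
        (Gc eta (Dd P Y Z y z) * |lw3 P X Y Z x y z - lw2 P Y Z y z * lw P X x|))) ≤ 2 * B * τ * Q.kl P Y := by
    rw [Finset.sum_comm]
    have e1 : ∀ y ∈ vals Y, ∑ x ∈ vals X, ∑ z ∈ vals Z, ind (TX x ∧ TY y ∧ TZ z) * (B * ((hsg B (b y) * hsg B (c z)) *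
        (Gc eta (Dd P Y Z y z) * |lw3 P X Y Z x y z - lw2 P Y Z y z * lw P X x|))) =
        ∑ z ∈ vals Z, ∑ x ∈ vals X, ind (TX x ∧ TY y ∧ TZ z) * (B * ((hsg B (b y) * hsg B (c z)) *
        (Gc eta (Dd P Y Z y z) * |lw3 P X Y Z x y z - lw2 P Y Z y z * lw P X x|))) := fun x _ => Finset.sum_comm
    rw [Finset.sum_congr rfl e1]
    exact pair_gen (f := fun y z x => lw3 P X Y Z x y z) (t := fun y z x => ind (TX x ∧ TY y ∧ TZ z))
      (T := fun y z => TY y ∧ TZ z) hB0 ht0 (fun x y => (Gc_pos _ _).le) (fun y _ => hV y)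
      (fun x _ => hsg_nonneg (hb0 x)) (fun y _ => hsg_nonneg (hc0 y)) sY oZ'
      (fun y z x => ⟨t0 x y z, by
        rw [ind3]
        by_cases h1 : TY y
        · by_cases h2 : TZ z
          · rw [ind_of h1, ind_of h2, ind_of (show TY y ∧ TZ z from ⟨h1, h2⟩), one_mul, mul_one]
            exact ind_le_one _
          · rw [ind_not h2, mul_zero, mul_zero]
            exact ind_nonneg _
        · rw [ind_not h1, zero_mul, mul_zero]
          exact ind_nonneg _⟩) (fun y _ => hW y)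
      (fun y _ z _ h => pair_fac he0 he1 ht0 ht1 (fun x _ => lw3_nonneg P X Y Z x y z) (lw3_x y z)
        (G.yzx y z h.1 h.2))
  -- the part of the strong pairs which are not hot
  have p5 : ∑ x ∈ vals X, ∑ y ∈ vals Y, ∑ z ∈ vals Z, ind (TX x ∧ TY y ∧ TZ z) * (eta * (lw P X x * lw P Y y * lw P Z z *
        (hsg B (a x) * b y * c z + hsg B (b y) * a x * c z))) ≤ eta * (Q.kl P X + Q.kl P Y) := by
    have e1 : ∀ x ∈ vals X, ∀ y ∈ vals Y, ∀ z ∈ vals Z, ind (TX x ∧ TY y ∧ TZ z) * (eta * (lw P X x * lw P Y y * lw P Z z *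
        (hsg B (a x) * b y * c z + hsg B (b y) * a x * c z))) ≤
        (eta * ((lw P X x * hsg B (a x)) * (lw P Y y * b y) + (lw P X x * a x) * (lw P Y y * hsg B (b y)))) *
          (lw P Z z * c z) := by
      intro x _ y _ z _
      have q1 : 0 ≤ eta * (lw P X x * lw P Y y * lw P Z z *
        (hsg B (a x) * b y * c z + hsg B (b y) * a x * c z)) := by
        have := hsg_nonneg (B := B) (ha0 x)
        have := hsg_nonneg (B := B) (hb0 y)
        have := ha0 x
        have := hb0 y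
        have := hc0 z
        have := hU x
        have := hV y
        have := hW z
        positivity
      refine (mul_le_of_le_one_left q1 (ind_le_one _)).trans (le_of_eq ?_)
      ring
    refine (Finset.sum_le_sum fun x hx => Finset.sum_le_sum fun y hy => Finset.sum_le_sum fun z hz =>
      e1 x hx y hy z hz).trans ?_
    have e2 : ∑ x ∈ vals X, ∑ y ∈ vals Y, ∑ z ∈ vals Z,
        (eta * ((lw P X x * hsg B (a x)) * (lw P Y y * b y) + (lw P X x * a x) * (lw P Y y * hsg B (b y)))) *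
          (lw P Z z * c z) = eta * (∑ x ∈ vals X, lw P X x * hsg B (a x) + ∑ y ∈ vals Y, lw P Y y * hsg B (b y)) := by
      have f1 : ∀ x ∈ vals X, ∀ y ∈ vals Y, ∑ z ∈ vals Z,
          (eta * ((lw P X x * hsg B (a x)) * (lw P Y y * b y) + (lw P X x * a x) * (lw P Y y * hsg B (b y)))) *
          (lw P Z z * c z) = eta * ((lw P X x * hsg B (a x)) * (lw P Y y * b y) + (lw P X x * a x) * (lw P Y y * hsg B (b y))) := by
        intro x _ y _
        rw [← Finset.mul_sum, oZ, mul_one]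
      rw [Finset.sum_congr rfl fun x hx => Finset.sum_congr rfl fun y hy => f1 x hx y hy]
      have f2 : ∀ x ∈ vals X, ∑ y ∈ vals Y, eta * ((lw P X x * hsg B (a x)) * (lw P Y y * b y) +
          (lw P X x * a x) * (lw P Y y * hsg B (b y))) =
          eta * (lw P X x * hsg B (a x)) + (lw P X x * a x) * (eta * ∑ y ∈ vals Y, lw P Y y * hsg B (b y)) := by
        intro x _
        rw [← Finset.mul_sum, Finset.sum_add_distrib, ← Finset.mul_sum, ← Finset.mul_sum, oY, mul_one]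
        ring
      rw [Finset.sum_congr rfl f2, Finset.sum_add_distrib, ← Finset.mul_sum, ← Finset.sum_mul, oX, one_mul]
      ring
    rw [e2]
    exact mul_le_mul_of_nonneg_left (add_le_add sX sY) he0
  have q1 : 2 * B * τ * Q.kl P X ≤ 2 * B ^ 2 * τ * Q.kl P X := by
    have : B * (τ * Q.kl P X) ≤ B ^ 2 * (τ * Q.kl P X) :=
      mul_le_mul_of_nonneg_right (by nlinarith) (mul_nonneg ht0 hK1)
    linarith
  have q2 : 2 * B * τ * Q.kl P Y ≤ 2 * B ^ 2 * τ * Q.kl P Y := by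
    have : B * (τ * Q.kl P Y) ≤ B ^ 2 * (τ * Q.kl P Y) :=
      mul_le_mul_of_nonneg_right (by nlinarith) (mul_nonneg ht0 hK2)
    linarith
  have q3 : 0 ≤ B ^ 2 * τ * Q.kl P Y := by positivity
  have q4 : 0 ≤ B ^ 2 * τ * Q.kl P Z := by positivity
  have q5 : 0 ≤ eta * Q.kl P Z := mul_nonneg he0 hK3
  calc _ ≤ 30 * B ^ 2 * τ * (Q.kl P X + Q.kl P Y + Q.kl P Z) + 2 * B * τ * Q.kl P X + 2 * B * τ * Q.kl P X +
        2 * B * τ * Q.kl P Y + eta * (Q.kl P X + Q.kl P Y) :=
        add_le_add (add_le_add (add_le_add (add_le_add p1 p2) p3) p4) p5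
    _ ≤ _ := by nlinarith

/-! ### the mean over `V` -/

theorem mean_rt (X : Om → κ) (V : Om → ν) (x : κ) :
    ∑ v ∈ vals V, lw P V v * (lw P X x * rt (P.cond fun w => V w = v) P X x) = lw P X x := by
  have e : ∀ v ∈ vals V, lw P V v * (lw P X x * rt (P.cond fun w => V w = v) P X x) =
      lw P V v * (P.cond fun w => V w = v).E (fun w => ind (X w = x)) := by
    intro v _
    rw [lw_rt (P.cond_ac _)]
    rfl
  rw [Finset.sum_congr rfl e]
  exact sum_cond V fun _ w => ind (X w = x)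

theorem mean_one (V : Om → ν) : ∑ v ∈ vals V, lw P V v = 1 := sum_lw_one P V

/-- if `D` vanishes with the law of the letter, the mean of `D a` is `D` -/
theorem mean_D (X : Om → κ) (V : Om → ν) (x : κ) {D : ℝ} (hD : lw P X x = 0 → D = 0) :
    ∑ v ∈ vals V, lw P V v * (D * rt (P.cond fun w => V w = v) P X x) = D := by
  by_cases h : lw P X x = 0
  · rw [hD h]
    exact Finset.sum_eq_zero fun v _ => by ring
  · have h1 := mean_rt (P := P) X V x
    have h2 : ∑ v ∈ vals V, lw P V v * (D * rt (P.cond fun w => V w = v) P X x) =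
        D / lw P X x * ∑ v ∈ vals V, lw P V v * (lw P X x * rt (P.cond fun w => V w = v) P X x) := by
      rw [Finset.mul_sum]
      refine Finset.sum_congr rfl fun v _ => ?_
      field_simp
    rw [h2, h1]
    field_simp

/-- the mass of the alive triples under the product of the three laws of the child -/
theorem prod_mass {Q : FP Om} (hac : Q.Ac P) :
    ∑ x ∈ vals X, ∑ y ∈ vals Y, ∑ z ∈ vals Z, ind (TX x ∧ TY y ∧ TZ z) *
      (lw P X x * lw P Y y * lw P Z z * (rt Q P X x * rt Q P Y y * rt Q P Z z)) =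
      Q.Pr (fun w => TX (X w)) * Q.Pr (fun w => TY (Y w)) * Q.Pr (fun w => TZ (Z w)) := by
  have hX : ∑ x ∈ vals X, ind (TX x) * (lw P X x * rt Q P X x) = Q.Pr (fun w => TX (X w)) := by
    have := sum_rt (P := P) (Q := Q) (X := X) hac (fun x => ind (TX x))
    unfold FP.Pr
    rw [← this]
    exact Finset.sum_congr rfl fun x _ => by ring
  have hY : ∑ x ∈ vals Y, ind (TY x) * (lw P Y x * rt Q P Y x) = Q.Pr (fun w => TY (Y w)) := by
    have := sum_rt (P := P) (Q := Q) (X := Y) hac (fun x => ind (TY x))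
    unfold FP.Pr
    rw [← this]
    exact Finset.sum_congr rfl fun x _ => by ring
  have hZ : ∑ x ∈ vals Z, ind (TZ x) * (lw P Z x * rt Q P Z x) = Q.Pr (fun w => TZ (Z w)) := by
    have := sum_rt (P := P) (Q := Q) (X := Z) hac (fun x => ind (TZ x))
    unfold FP.Pr
    rw [← this]
    exact Finset.sum_congr rfl fun x _ => by ring
  have e1 : ∀ x ∈ vals X, ∀ y ∈ vals Y, ∑ z ∈ vals Z, ind (TX x ∧ TY y ∧ TZ z) *
      (lw P X x * lw P Y y * lw P Z z * (rt Q P X x * rt Q P Y y * rt Q P Z z)) =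
      (ind (TX x) * (lw P X x * rt Q P X x)) * ((ind (TY y) * (lw P Y y * rt Q P Y y)) * Q.Pr (fun w => TZ (Z w))) := by
    intro x _ y _
    rw [← hZ, Finset.mul_sum, Finset.mul_sum]
    exact Finset.sum_congr rfl fun z _ => by rw [ind3]; ring
  rw [Finset.sum_congr rfl fun x hx => Finset.sum_congr rfl fun y hy => e1 x hx y hy]
  have e2 : ∀ x ∈ vals X, ∑ y ∈ vals Y, (ind (TX x) * (lw P X x * rt Q P X x)) *
      ((ind (TY y) * (lw P Y y * rt Q P Y y)) * Q.Pr (fun w => TZ (Z w))) =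
      (ind (TX x) * (lw P X x * rt Q P X x)) * (Q.Pr (fun w => TY (Y w)) * Q.Pr (fun w => TZ (Z w))) := by
    intro x _
    rw [← Finset.mul_sum, ← Finset.sum_mul, hY]
  rw [Finset.sum_congr rfl e2, ← Finset.sum_mul, hX]
  ring

theorem prod_mass0 :
    ∑ x ∈ vals X, ∑ y ∈ vals Y, ∑ z ∈ vals Z, ind (TX x ∧ TY y ∧ TZ z) * (lw P X x * lw P Y y * lw P Z z) =
      P.Pr (fun w => TX (X w)) * P.Pr (fun w => TY (Y w)) * P.Pr (fun w => TZ (Z w)) := by
  have h := prod_mass (P := P) (Q := P) (X := X) (Y := Y) (Z := Z) (TX := TX) (TY := TY) (TZ := TZ) (FP.Ac.refl P)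
  rw [← h]
  refine Finset.sum_congr rfl fun x _ => Finset.sum_congr rfl fun y _ => Finset.sum_congr rfl fun z _ => ?_
  have e : lw P X x * lw P Y y * lw P Z z * (rt P P X x * rt P P Y y * rt P P Z z) =
      (lw P X x * rt P P X x) * (lw P Y y * rt P P Y y) * (lw P Z z * rt P P Z z) := by ring
  rw [e, lw_rt (FP.Ac.refl P), lw_rt (FP.Ac.refl P), lw_rt (FP.Ac.refl P)]

/-- **the mean of the excess** -/
theorem mean (B eta : ℝ) :
    ∑ v ∈ vals V, lw P V v * ∑ x ∈ vals X, ∑ y ∈ vals Y, ∑ z ∈ vals Z, ind (TX x ∧ TY y ∧ TZ z) *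
      Fi (P.cond fun w => V w = v) P X Y Z B eta x y z =
    NN3 P X Y Z V TX TY TZ (fun v => gV (P.cond fun w => V w = v) P X Y Z B eta) - cov3 P X Y Z V TX TY TZ := by
  -- the linear terms
  have h1 : ∑ v ∈ vals V, lw P V v * ∑ x ∈ vals X, ∑ y ∈ vals Y, ∑ z ∈ vals Z, ind (TX x ∧ TY y ∧ TZ z) *
      ((lw3 P X Y Z x y z - lw P X x * lw P Y y * lw P Z z) * (rt (P.cond fun w => V w = v) P X x +
        rt (P.cond fun w => V w = v) P Y y + rt (P.cond fun w => V w = v) P Z z - 2)) =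
      ∑ x ∈ vals X, ∑ y ∈ vals Y, ∑ z ∈ vals Z, ind (TX x ∧ TY y ∧ TZ z) *
        (lw3 P X Y Z x y z - lw P X x * lw P Y y * lw P Z z) := by
    have e0 : ∀ v ∈ vals V, lw P V v * ∑ x ∈ vals X, ∑ y ∈ vals Y, ∑ z ∈ vals Z, ind (TX x ∧ TY y ∧ TZ z) *
      ((lw3 P X Y Z x y z - lw P X x * lw P Y y * lw P Z z) * (rt (P.cond fun w => V w = v) P X x +
        rt (P.cond fun w => V w = v) P Y y + rt (P.cond fun w => V w = v) P Z z - 2)) =
        ∑ x ∈ vals X, ∑ y ∈ vals Y, ∑ z ∈ vals Z, lw P V v * (ind (TX x ∧ TY y ∧ TZ z) *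
      ((lw3 P X Y Z x y z - lw P X x * lw P Y y * lw P Z z) * (rt (P.cond fun w => V w = v) P X x +
        rt (P.cond fun w => V w = v) P Y y + rt (P.cond fun w => V w = v) P Z z - 2))) := by
      intro v _
      rw [Finset.mul_sum]
      refine Finset.sum_congr rfl fun x _ => ?_
      rw [Finset.mul_sum]
      refine Finset.sum_congr rfl fun y _ => ?_
      rw [Finset.mul_sum]
    rw [Finset.sum_congr rfl e0, Finset.sum_comm]
    refine Finset.sum_congr rfl fun x _ => ?_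
    rw [Finset.sum_comm]
    refine Finset.sum_congr rfl fun y _ => ?_
    rw [Finset.sum_comm]
    refine Finset.sum_congr rfl fun z _ => ?_
    set D := ind (TX x ∧ TY y ∧ TZ z) * (lw3 P X Y Z x y z - lw P X x * lw P Y y * lw P Z z) with hD
    have dx : lw P X x = 0 → D = 0 := by
      intro h
      have hz : lw P X x * lw P Y y * lw P Z z = 0 := by rw [h]; ring
      rw [hD, hz, lw3_zero x y z hz]
      ring
    have dy : lw P Y y = 0 → D = 0 := by
      intro h
      have hz : lw P X x * lw P Y y * lw P Z z = 0 := by rw [h]; ring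
      rw [hD, hz, lw3_zero x y z hz]
      ring
    have dz : lw P Z z = 0 → D = 0 := by
      intro h
      have hz : lw P X x * lw P Y y * lw P Z z = 0 := by rw [h]; ring
      rw [hD, hz, lw3_zero x y z hz]
      ring
    have m1 := mean_D (P := P) X V x dx
    have m2 := mean_D (P := P) Y V y dy
    have m3 := mean_D (P := P) Z V z dz
    have m4 := mean_one (P := P) V
    have e1 : ∑ v ∈ vals V, lw P V v * (ind (TX x ∧ TY y ∧ TZ z) *
      ((lw3 P X Y Z x y z - lw P X x * lw P Y y * lw P Z z) * (rt (P.cond fun w => V w = v) P X x +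
        rt (P.cond fun w => V w = v) P Y y + rt (P.cond fun w => V w = v) P Z z - 2))) =
        ∑ v ∈ vals V, lw P V v * (D * rt (P.cond fun w => V w = v) P X x) +
        ∑ v ∈ vals V, lw P V v * (D * rt (P.cond fun w => V w = v) P Y y) +
        ∑ v ∈ vals V, lw P V v * (D * rt (P.cond fun w => V w = v) P Z z) - 2 * D * ∑ v ∈ vals V, lw P V v := by
      rw [Finset.mul_sum, ← Finset.sum_add_distrib, ← Finset.sum_add_distrib, ← Finset.sum_sub_distrib]
      refine Finset.sum_congr rfl fun v _ => ?_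
      rw [hD]
      ring
    rw [e1, m1, m2, m3, m4]
    ring
  -- the product terms
  have h2 : ∑ v ∈ vals V, lw P V v * ∑ x ∈ vals X, ∑ y ∈ vals Y, ∑ z ∈ vals Z, ind (TX x ∧ TY y ∧ TZ z) *
      (lw P X x * lw P Y y * lw P Z z * (rt (P.cond fun w => V w = v) P X x *
        rt (P.cond fun w => V w = v) P Y y * rt (P.cond fun w => V w = v) P Z z)) =
      cov3 P X Y Z V TX TY TZ + P.Pr (fun w => TX (X w)) * P.Pr (fun w => TY (Y w)) * P.Pr (fun w => TZ (Z w)) := by
    unfold cov3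
    rw [sub_add_cancel]
    refine Finset.sum_congr rfl fun v _ => ?_
    rw [prod_mass (P.cond_ac _)]
  -- the joint law
  have h3 : ∑ v ∈ vals V, lw P V v * ∑ x ∈ vals X, ∑ y ∈ vals Y, ∑ z ∈ vals Z, ind (TX x ∧ TY y ∧ TZ z) *
      lw3 P X Y Z x y z = ∑ x ∈ vals X, ∑ y ∈ vals Y, ∑ z ∈ vals Z, ind (TX x ∧ TY y ∧ TZ z) * lw3 P X Y Z x y z := by
    rw [← Finset.sum_mul, mean_one, one_mul]
  have h4 := prod_mass0 (P := P) (X := X) (Y := Y) (Z := Z) (TX := TX) (TY := TY) (TZ := TZ)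
  have h5 : ∑ x ∈ vals X, ∑ y ∈ vals Y, ∑ z ∈ vals Z, ind (TX x ∧ TY y ∧ TZ z) *
        (lw3 P X Y Z x y z - lw P X x * lw P Y y * lw P Z z) =
      ∑ x ∈ vals X, ∑ y ∈ vals Y, ∑ z ∈ vals Z, ind (TX x ∧ TY y ∧ TZ z) * lw3 P X Y Z x y z -
      ∑ x ∈ vals X, ∑ y ∈ vals Y, ∑ z ∈ vals Z, ind (TX x ∧ TY y ∧ TZ z) * (lw P X x * lw P Y y * lw P Z z) := by
    simp only [mul_sub, Finset.sum_sub_distrib]
  have h6 : ∑ v ∈ vals V, lw P V v * ∑ x ∈ vals X, ∑ y ∈ vals Y, ∑ z ∈ vals Z, ind (TX x ∧ TY y ∧ TZ z) *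
      Fi (P.cond fun w => V w = v) P X Y Z B eta x y z =
      NN3 P X Y Z V TX TY TZ (fun v => gV (P.cond fun w => V w = v) P X Y Z B eta) +
      ∑ v ∈ vals V, lw P V v * ∑ x ∈ vals X, ∑ y ∈ vals Y, ∑ z ∈ vals Z, ind (TX x ∧ TY y ∧ TZ z) *
        lw3 P X Y Z x y z -
      ∑ v ∈ vals V, lw P V v * ∑ x ∈ vals X, ∑ y ∈ vals Y, ∑ z ∈ vals Z, ind (TX x ∧ TY y ∧ TZ z) *
      (lw P X x * lw P Y y * lw P Z z * (rt (P.cond fun w => V w = v) P X x *
        rt (P.cond fun w => V w = v) P Y y * rt (P.cond fun w => V w = v) P Z z)) -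
      ∑ v ∈ vals V, lw P V v * ∑ x ∈ vals X, ∑ y ∈ vals Y, ∑ z ∈ vals Z, ind (TX x ∧ TY y ∧ TZ z) *
      ((lw3 P X Y Z x y z - lw P X x * lw P Y y * lw P Z z) * (rt (P.cond fun w => V w = v) P X x +
        rt (P.cond fun w => V w = v) P Y y + rt (P.cond fun w => V w = v) P Z z - 2)) := by
    unfold NN3
    rw [← Finset.sum_add_distrib, ← Finset.sum_sub_distrib, ← Finset.sum_sub_distrib]
    refine Finset.sum_congr rfl fun v _ => ?_
    rw [← mul_add, ← mul_sub, ← mul_sub]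
    congr 1
    rw [← Finset.sum_add_distrib, ← Finset.sum_sub_distrib, ← Finset.sum_sub_distrib]
    refine Finset.sum_congr rfl fun x _ => ?_
    rw [← Finset.sum_add_distrib, ← Finset.sum_sub_distrib, ← Finset.sum_sub_distrib]
    refine Finset.sum_congr rfl fun y _ => ?_
    rw [← Finset.sum_add_distrib, ← Finset.sum_sub_distrib, ← Finset.sum_sub_distrib]
    refine Finset.sum_congr rfl fun z _ => ?_
    unfold Fi
    ring
  rw [h6, h1, h2, h3, h5, h4]
  ring

end N3X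

/-- **N3** (any larger constant is fine) -/
theorem N3 {B eta τ : ℝ} (hB : Real.exp 2 ≤ B) (he0 : 0 ≤ eta) (he1 : eta ≤ 1) (ht0 : 0 ≤ τ) (ht1 : τ ≤ 1)
    {TX : κ → Prop} {TY : ι → Prop} {TZ : θ → Prop} (G : Good3 P X Y Z TX TY TZ τ) :
    NN3 P X Y Z V TX TY TZ (fun v => gV (P.cond fun w => V w = v) P X Y Z B eta) ≤
      1000 * B ^ 3 * (Real.sqrt τ + eta) * KK3 P X Y Z V + cov3 P X Y Z V TX TY TZ := by
  have h1 := N3X.mean (P := P) (X := X) (Y := Y) (Z := Z) (V := V) (TX := TX) (TY := TY) (TZ := TZ) B eta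
  have h2 : ∑ v ∈ vals V, lw P V v * ∑ x ∈ vals X, ∑ y ∈ vals Y, ∑ z ∈ vals Z, ind (TX x ∧ TY y ∧ TZ z) *
      N3X.Fi (P.cond fun w => V w = v) P X Y Z B eta x y z ≤ (34 * B ^ 2 * τ + eta) * KK3 P X Y Z V := by
    unfold KK3
    rw [Finset.mul_sum]
    refine Finset.sum_le_sum fun v _ => ?_
    refine (mul_le_mul_of_nonneg_left (N3X.E_le (P.cond_ac fun w => V w = v) hB he0 he1 ht0 ht1 G)
      (lw_nonneg P V v)).trans (le_of_eq ?_)
    ring
  have hK : 0 ≤ KK3 P X Y Z V := by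
    unfold KK3
    refine Finset.sum_nonneg fun v _ => mul_nonneg (lw_nonneg P V v) ?_
    have a1 := FP.kl_nonneg (P.cond_ac fun w => V w = v) X
    have a2 := FP.kl_nonneg (P.cond_ac fun w => V w = v) Y
    have a3 := FP.kl_nonneg (P.cond_ac fun w => V w = v) Z
    linarith
  have hB1 : 1 ≤ B := by
    have := Real.add_one_le_exp 2
    linarith
  have hs : τ ≤ Real.sqrt τ := by
    have h3 := Real.sqrt_nonneg τ
    have h4 := Real.sq_sqrt ht0
    have h5 : Real.sqrt τ ≤ 1 := Real.sqrt_le_one.2 ht1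
    nlinarith
  have hc : 34 * B ^ 2 * τ + eta ≤ 1000 * B ^ 3 * (Real.sqrt τ + eta) := by
    have h3 : 1 ≤ B ^ 3 := one_le_pow₀ hB1
    have h4 : B ^ 2 ≤ B ^ 3 := pow_le_pow_right₀ hB1 (by norm_num)
    have h5 : B ^ 2 * τ ≤ B ^ 3 * Real.sqrt τ := mul_le_mul h4 hs ht0 (by positivity)
    have h6 : 1 * eta ≤ B ^ 3 * eta := mul_le_mul_of_nonneg_right h3 he0
    have h7 : 0 ≤ B ^ 3 * Real.sqrt τ := mul_nonneg (by positivity) (Real.sqrt_nonneg _)
    have h8 : 0 ≤ B ^ 3 * eta := mul_nonneg (by positivity) he0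
    nlinarith
  have h9 := mul_le_mul_of_nonneg_right hc hK
  linarith

end Pool.Agent.GMH.V3
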