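import Pool.Agent.GMH.V3P
import Pool.Agent.GMH.V3S
import Pool.Agent.GMH.V3N

/-! # GMH/V3D: thin level, the normalisation of the digit (statements helper91, proofs helper48)

Auxiliary names in the namespace `V3.DA`: `cl P W w` = the law in the cell of `w` of the map `W`; `E_cl`, `I_cl` : means and informations as means over the cells;
`dig_lw`, `dig_rt` : the law of a digit in a cell and the ratio of a letter; `lev` : ONE LEVEL OF THE NORMALISATION for any three
letters, any public code `V` and any integrand `F` which is the sum over the values of `V` in the cell; `digV`, `digVj`, `gL_zero`,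
`gJ_zero`, `gL_fac`, `gJ_fac`.
-/

set_option autoImplicit false
set_option linter.unusedSectionVars false

namespace Pool.Agent.GMH.V3.DA

open Finset Pool.Agent.PWZ Pool.Agent.M3 Pool.Agent.GM Pool.Agent.GM.Harm Pool.Agent.GMH Pool.Agent.GMH.NZ

/-! ### cells -/

section cells

variable {Om : Type*} [Fintype Om] (P : FP Om) {α κ ι θ ν : Type*}

/-- the law in the cell of `w` -/
noncomputable def cl (W : Om → α) (w : Om) : FP Om := P.cond fun u => W u = W w

theorem cl_eq {W : Om → α} {u w : Om} (h : W u = W w) : cl P W u = cl P W w := by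
  unfold cl
  rw [h]

theorem E_cl (W : Om → α) (f : Om → ℝ) : P.E (fun w => (cl P W w).E f) = P.E f := by
  rw [← P.E_ce W f]
  exact P.E_congr fun w hw => (P.ce_eq_cond W f hw).symm

theorem cl_supp {W : Om → α} {w u : Om} (hw : P.p w ≠ 0) (hu : (cl P W w).p u ≠ 0) : W u = W w ∧ P.p u ≠ 0 :=
  (FP.cond_p_ne (P.m_pos W hw).ne').1 hu

theorem cl_self {W : Om → α} {w : Om} (hw : P.p w ≠ 0) : (cl P W w).p w ≠ 0 :=
  (FP.cond_p_ne (P.m_pos W hw).ne').2 ⟨rfl, hw⟩

/-- the law in the cell, given the public code -/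
theorem cl_cond {W : Om → α} (V : Om → ν) {w u : Om} (hw : P.p w ≠ 0) (hu : (cl P W w).p u ≠ 0) :
    (cl P W w).cond (fun v => V v = V u) = P.cond fun v => (V v, W v) = (V u, W u) := by
  obtain ⟨h1, h2⟩ := cl_supp P hw hu
  have h3 : (fun v => (V v, W v) = (V u, W u)) = fun v => W v = W w ∧ V v = V u := by
    funext v
    rw [Prod.mk.injEq, h1]
    exact propext and_comm
  rw [h3]
  unfold cl
  refine FP.cond_cond ?_
  exact (FP.Pr_pos_of (S := fun v => W v = W w ∧ V v = V u) h2 ⟨h1, rfl⟩).ne'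

/-- information as a mean over the cells -/
theorem I_cl (W : Om → α) (X : Om → κ) (V : Om → ν) :
    P.E (fun w => (cl P W w).I X V (fun _ => ())) = P.I X V W := by
  rw [P.I_eq_E_kl]
  refine Eq.trans ?_ (E_cl P W _)
  refine P.E_congr fun w hw => ?_
  rw [FP.I_eq_E_kl]
  refine (cl P W w).E_congr fun u hu => ?_
  obtain ⟨h1, _⟩ := cl_supp P hw hu
  have e1 : (cl P W w).cond (fun v => (fun _ : Om => ()) v = (fun _ : Om => ()) u) = cl P W w := cond_true fun _ => rfl
  have e2 : (fun v => (V v, (fun _ : Om => ()) v) = (V u, (fun _ : Om => ()) u)) = fun v => V v = V u := by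
    funext v
    refine propext ⟨fun h => congrArg Prod.fst h, fun h => ?_⟩
    rw [h]
  have e3 : (P.cond fun v => W v = W u) = cl P W w := cl_eq P h1
  rw [e1, e2, e3, cl_cond P V hw hu]

/-- the law of a digit in the cell -/
theorem dig_lw {W : Om → α} {V : Om → ℝ} (hV : ∀ w, P.p w ≠ 0 → V w = 1 ∨ V w = -1) {z : ℝ} (hz : z = 1 ∨ z = -1) {w : Om}
    (hw : P.p w ≠ 0) : lw (cl P W w) V z = (1 + z * P.ce W V w) / 2 := by
  rw [P.ce_eq_cond W V hw]
  change _ = (1 + z * (cl P W w).E V) / 2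
  have e1 : (1 + z * (cl P W w).E V) / 2 = (cl P W w).E fun u => (1 + z * V u) / 2 := by
    rw [(cl P W w).E_div_const, FP.E_add, FP.E_smul, FP.E_const]
  rw [e1]
  unfold lw
  refine (cl P W w).E_congr fun u hu => ?_
  rcases hV u (cl_supp P hw hu).2 with h | h <;> rcases hz with h' | h' <;> rw [h, h']
  · rw [ind_of rfl]; norm_num
  · rw [ind_not (by norm_num)]; norm_num
  · rw [ind_not (by norm_num)]; norm_num
  · rw [ind_of rfl]; norm_num

/-- the ratio of a letter, the child given by the digit -/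
theorem dig_rt {W : Om → α} {V : Om → ℝ} (hV : ∀ w, P.p w ≠ 0 → V w = 1 ∨ V w = -1) {z : ℝ} (hz : z = 1 ∨ z = -1) {w : Om}
    (hw : P.p w ≠ 0) (h0 : 1 + z * P.ce W V w ≠ 0) (X : Om → κ) :
    rt ((cl P W w).cond fun u => V u = z) (cl P W w) X (X w) =
      (1 + z * P.ce (fun u => (W u, X u)) V w) / (1 + z * P.ce W V w) := by
  have hl := dig_lw P hV (W := W) hz hw
  have hm := P.m_pos W hw
  have hm2 := P.m_pos (fun u => (W u, X u)) hw
  have h1 : (cl P W w).Pr (fun u => V u = z) ≠ 0 := by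
    change lw (cl P W w) V z ≠ 0
    rw [hl]
    exact div_ne_zero h0 two_ne_zero
  have h2 : lw (cl P W w) X (X w) = P.m (fun u => (W u, X u)) w / P.m W w := by
    unfold lw
    rw [cl, FP.cond_E hm.ne']
    change P.E _ / P.m W w = _
    congr 1
    unfold FP.m
    refine P.E_congr fun u _ => ?_
    rw [← ind_and, Prod.mk.injEq]
  have h3 : lw ((cl P W w).cond fun u => V u = z) X (X w) =
      P.m (fun u => (W u, X u)) w / P.m W w * ((1 + z * P.ce (fun u => (W u, X u)) V w) / 2) /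
        lw (cl P W w) V z := by
    have e1 : lw ((cl P W w).cond fun u => V u = z) X (X w) =
        (cl P W w).E (fun u => ind (V u = z) * ind (X u = X w)) / lw (cl P W w) V z := FP.cond_E h1 _
    rw [e1]
    congr 1
    have e2 : (cl P W w).E (fun u => ind (V u = z) * ind (X u = X w)) =
        (P.E fun u => ind ((W u, X u) = (W w, X w)) * ((1 + z * V u) / 2)) / P.m W w := by
      rw [cl, FP.cond_E hm.ne']
      change P.E _ / P.m W w = _
      congr 1
      refine P.E_congr fun u hu => ?_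
      have e3 : ind (V u = z) = (1 + z * V u) / 2 := by
        rcases hV u hu with h | h <;> rcases hz with h' | h' <;> rw [h, h']
        · rw [ind_of rfl]; norm_num
        · rw [ind_not (by norm_num)]; norm_num
        · rw [ind_not (by norm_num)]; norm_num
        · rw [ind_of rfl]; norm_num
      rw [e3, Prod.mk.injEq, ind_and]
      ring
    rw [e2]
    have e4 : (P.E fun u => ind ((W u, X u) = (W w, X w)) * ((1 + z * V u) / 2)) =
        P.m (fun u => (W u, X u)) w * ((1 + z * P.ce (fun u => (W u, X u)) V w) / 2) := by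
      have e5 : P.ce (fun u => (W u, X u)) (fun u => (1 + z * V u) / 2) w =
          (1 + z * P.ce (fun u => (W u, X u)) V w) / 2 := by
        have e6 : (fun u => (1 + z * V u) / 2) = fun u => (1 / 2 : ℝ) + (z / 2) * V u := by
          funext u; ring
        rw [e6, P.ce_add, P.ce_const _ _ hw, P.ce_smul]
        ring
      rw [← e5]
      unfold FP.ce
      field_simp
    rw [e4]
    ring
  unfold rt
  rw [h3, h2, hl]
  field_simp

/-- sums over the values of a digit -/
theorem sum_dig {V : Om → ℝ} (hV : ∀ w, P.p w ≠ 0 → V w = 1 ∨ V w = -1) (f : ℝ → ℝ) :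
    ∑ v ∈ vals V, lw P V v * f v = lw P V 1 * f 1 + lw P V (-1) * f (-1) := by
  rw [sum_lw P V f]
  unfold lw
  rw [← P.E_mul_const, ← P.E_mul_const, ← P.E_add]
  refine P.E_congr fun w hw => ?_
  rcases hV w hw with h | h <;> rw [h]
  · rw [ind_of rfl, ind_not (by norm_num)]; ring
  · rw [ind_of rfl, ind_not (by norm_num)]; ring

end cells

/-! ### one level of the normalisation -/

section level

variable {Om : Type*} [Fintype Om] (P : FP Om) {α κ ι θ ν : Type*}

/-- a set of points as a set of letters in the cell of `w` -/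
def TC (W : Om → α) (X : Om → κ) (T : Om → Prop) (w : Om) (x : κ) : Prop := ∃ w', W w' = W w ∧ X w' = x ∧ T w'

theorem TC_iff {W : Om → α} {X : Om → κ} {T : Om → Prop} (hT : ∀ a b, W a = W b → X a = X b → (T a ↔ T b)) {w u : Om}
    (h : W u = W w) : TC W X T w (X u) ↔ T u := by
  constructor
  · rintro ⟨w', h1, h2, h3⟩
    exact (hT w' u (h1.trans h.symm) h2).1 h3
  · intro h3
    exact ⟨u, h, rfl, h3⟩

/-- **ONE LEVEL** : the integrand `F` is at most the sum over the values of the public code in the cell -/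
theorem lev {W : Om → α} {X : Om → κ} {Y : Om → ι} {Z : Om → θ} {V : Om → ν} {pub TX TY TZ : Om → Prop}
    (fp : ∀ a b, W a = W b → (pub a ↔ pub b)) (fX : ∀ a b, W a = W b → X a = X b → (TX a ↔ TX b))
    (fY : ∀ a b, W a = W b → Y a = Y b → (TY a ↔ TY b)) (fZ : ∀ a b, W a = W b → Z a = Z b → (TZ a ↔ TZ b))
    {B eta τ e : ℝ} (hB : Real.exp 2 ≤ B) (he0 : 0 ≤ eta) (he1 : eta ≤ 1) (ht0 : 0 ≤ τ) (ht1 : τ ≤ 1) (hee : 0 ≤ e)
    (G : ∀ w, P.p w ≠ 0 → pub w → Good3 (cl P W w) X Y Z (TC W X TX w) (TC W Y TY w) (TC W Z TZ w) τ)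
    (dX : ∀ w, P.p w ≠ 0 → pub w → (cl P W w).Pr (fun u => ¬ TX u) ≤ e)
    (dY : ∀ w, P.p w ≠ 0 → pub w → (cl P W w).Pr (fun u => ¬ TY u) ≤ e)
    (dZ : ∀ w, P.p w ≠ 0 → pub w → (cl P W w).Pr (fun u => ¬ TZ u) ≤ e) {F : Om → ℝ}
    (hF : ∀ w, P.p w ≠ 0 → pub w → F w ≤ ∑ v ∈ vals V, lw (cl P W w) V v *
      (rt ((cl P W w).cond fun u => V u = v) (cl P W w) X (X w) * rt ((cl P W w).cond fun u => V u = v) (cl P W w) Y (Y w) *
        rt ((cl P W w).cond fun u => V u = v) (cl P W w) Z (Z w) *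
        Real.exp (-gV ((cl P W w).cond fun u => V u = v) (cl P W w) X Y Z B eta (X w) (Y w) (Z w)) - 1)) :
    P.E (fun w => ind (pub w ∧ TX w ∧ TY w ∧ TZ w) * F w) ≤
      (1000 * B ^ 3 * (Real.sqrt τ + eta) + 4 * e) * (P.I X V W + P.I Y V W + P.I Z V W) +
        6 * P.Pr (fun w => pub w ∧ (e < ((cl P W w).cond fun u => V u = V w).Pr (fun u => ¬ TX u) ∨
          e < ((cl P W w).cond fun u => V u = V w).Pr (fun u => ¬ TY u) ∨
          e < ((cl P W w).cond fun u => V u = V w).Pr (fun u => ¬ TZ u))) := by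
  have hB0 : 0 ≤ B := (Real.exp_pos 2).le.trans hB
  set bad : Om → Prop := fun w => e < ((cl P W w).cond fun u => V u = V w).Pr (fun u => ¬ TX u) ∨
          e < ((cl P W w).cond fun u => V u = V w).Pr (fun u => ¬ TY u) ∨
          e < ((cl P W w).cond fun u => V u = V w).Pr (fun u => ¬ TZ u) with hbad
  set A : ℝ := 1000 * B ^ 3 * (Real.sqrt τ + eta) + 4 * e with hA
  have hA0 : 0 ≤ A := by
    have := Real.sqrt_nonneg τ
    positivity
  -- in one cell
  have key : ∀ w, P.p w ≠ 0 → (cl P W w).E (fun w => ind (pub w ∧ TX w ∧ TY w ∧ TZ w) * F w) ≤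
      A * ((cl P W w).I X V (fun _ => ()) + (cl P W w).I Y V (fun _ => ()) + (cl P W w).I Z V (fun _ => ())) +
        6 * (cl P W w).E (fun u => ind (pub u ∧ bad u)) := by
    intro w hw
    have iX := (cl P W w).I_nonneg X V (fun _ => ())
    have iY := (cl P W w).I_nonneg Y V (fun _ => ())
    have iZ := (cl P W w).I_nonneg Z V (fun _ => ())
    by_cases hp : pub w
    · set c := cl P W w with hc
      set g : ν → κ → ι → θ → ℝ := fun v => gV (c.cond fun w => V w = v) c X Y Z B eta with hg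
      have hN := N3 (V := V) hB he0 he1 ht0 ht1 (G w hw hp)
      have sX : ∀ u, c.p u ≠ 0 → (TC W X TX w (X u) ↔ TX u) := fun u hu => TC_iff fX (cl_supp P hw hu).1
      have sY : ∀ u, c.p u ≠ 0 → (TC W Y TY w (Y u) ↔ TY u) := fun u hu => TC_iff fY (cl_supp P hw hu).1
      have sZ : ∀ u, c.p u ≠ 0 → (TC W Z TZ w (Z u) ↔ TZ u) := fun u hu => TC_iff fZ (cl_supp P hw hu).1
      have hcov := cov3_le (P := c) (X := X) (Y := Y) (Z := Z) (V := V) (TX := TC W X TX w) (TY := TC W Y TY w)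
        (TZ := TC W Z TZ w) hee
        ((c.Pr_congr fun u hu => not_congr (sX u hu)).le.trans (dX w hw hp))
        ((c.Pr_congr fun u hu => not_congr (sY u hu)).le.trans (dY w hw hp))
        ((c.Pr_congr fun u hu => not_congr (sZ u hu)).le.trans (dZ w hw hp))
      -- the dead masses of the children
      have hdead : ∀ u, c.p u ≠ 0 →
          ((e < (c.cond fun v => V v = V u).Pr (fun v => ¬ TC W X TX w (X v)) ∨
            e < (c.cond fun v => V v = V u).Pr (fun v => ¬ TC W Y TY w (Y v)) ∨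
            e < (c.cond fun v => V v = V u).Pr (fun v => ¬ TC W Z TZ w (Z v))) ↔ (pub u ∧ bad u)) := by
        intro u hu
        obtain ⟨h1, h2⟩ := cl_supp P hw hu
        have hcu : cl P W u = c := cl_eq P h1
        have e1 : ∀ {S T : Om → Prop}, (∀ v, c.p v ≠ 0 → (S v ↔ T v)) →
            (c.cond fun v => V v = V u).Pr (fun v => ¬ S v) = (c.cond fun v => V v = V u).Pr (fun v => ¬ T v) := by
          intro S T hST
          refine FP.Pr_congr _ fun v hv => not_congr (hST v ?_)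
          exact FP.cond_ac c _ v hv
        rw [e1 sX, e1 sY, e1 sZ, hbad]
        simp only [hcu]
        exact ⟨fun h => ⟨(fp u w h1).2 hp, h⟩, fun h => h.2⟩
      -- the normalisation of the cell
      have hNN : NN3 c X Y Z V (TC W X TX w) (TC W Y TY w) (TC W Z TZ w) g =
          c.E fun u => ind (TC W X TX w (X u) ∧ TC W Y TY w (Y u) ∧ TC W Z TZ w (Z u)) *
            ∑ v ∈ vals V, lw c V v * (rt (c.cond fun w => V w = v) c X (X u) * rt (c.cond fun w => V w = v) c Y (Y u) *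
              rt (c.cond fun w => V w = v) c Z (Z u) * Real.exp (-g v (X u) (Y u) (Z u)) - 1) := by
        have e2 : ∀ v, ∑ x ∈ vals X, ∑ y ∈ vals Y, ∑ z ∈ vals Z,
            ind (TC W X TX w x ∧ TC W Y TY w y ∧ TC W Z TZ w z) * (lw3 c X Y Z x y z *
              (rt (c.cond fun w => V w = v) c X x * rt (c.cond fun w => V w = v) c Y y *
              rt (c.cond fun w => V w = v) c Z z * Real.exp (-g v x y z) - 1)) =
            c.E fun u => ind (TC W X TX w (X u) ∧ TC W Y TY w (Y u) ∧ TC W Z TZ w (Z u)) *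
              (rt (c.cond fun w => V w = v) c X (X u) * rt (c.cond fun w => V w = v) c Y (Y u) *
              rt (c.cond fun w => V w = v) c Z (Z u) * Real.exp (-g v (X u) (Y u) (Z u)) - 1) := by
          intro v
          rw [← sum_lw3 c X Y Z (fun x y z => ind (TC W X TX w x ∧ TC W Y TY w y ∧ TC W Z TZ w z) *
              (rt (c.cond fun w => V w = v) c X x * rt (c.cond fun w => V w = v) c Y y *
              rt (c.cond fun w => V w = v) c Z z * Real.exp (-g v x y z) - 1))]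
          exact Finset.sum_congr rfl fun x _ => Finset.sum_congr rfl fun y _ => Finset.sum_congr rfl fun z _ => by ring
        unfold NN3
        rw [Finset.sum_congr rfl fun v _ => by rw [e2 v, ← c.E_smul], ← c.E_sum]
        refine c.E_congr fun u _ => ?_
        rw [Finset.mul_sum]
        exact Finset.sum_congr rfl fun v _ => by ring
      have h1 : c.E (fun w => ind (pub w ∧ TX w ∧ TY w ∧ TZ w) * F w) ≤
          NN3 c X Y Z V (TC W X TX w) (TC W Y TY w) (TC W Z TZ w) g := by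
        rw [hNN]
        refine c.E_mono fun u hu => ?_
        obtain ⟨h1, h2⟩ := cl_supp P hw hu
        have hcu : cl P W u = c := cl_eq P h1
        have hpu : pub u := (fp u w h1).2 hp
        have e3 : ind (pub u ∧ TX u ∧ TY u ∧ TZ u) =
            ind (TC W X TX w (X u) ∧ TC W Y TY w (Y u) ∧ TC W Z TZ w (Z u)) := by
          refine ind_cg ?_
          rw [sX u hu, sY u hu, sZ u hu]
          exact ⟨fun h => h.2, fun h => ⟨hpu, h⟩⟩
        rw [e3]
        have h3 := hF u h2 hpu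
        rw [hcu] at h3
        exact mul_le_mul_of_nonneg_left h3 (ind_nonneg _)
      have h2 : c.Pr (fun u => e < (c.cond fun v => V v = V u).Pr (fun v => ¬ TC W X TX w (X v)) ∨
            e < (c.cond fun v => V v = V u).Pr (fun v => ¬ TC W Y TY w (Y v)) ∨
            e < (c.cond fun v => V v = V u).Pr (fun v => ¬ TC W Z TZ w (Z v))) = c.E fun u => ind (pub u ∧ bad u) :=
        c.E_congr fun u hu => ind_cg (hdead u hu)
      rw [h2] at hcov
      rw [KK3_eq] at hN hcov
      have h4 := h1.trans hN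
      rw [hA]
      nlinarith [h4, hcov]
    · have h0 : (cl P W w).E (fun w => ind (pub w ∧ TX w ∧ TY w ∧ TZ w) * F w) = 0 := by
        rw [← (cl P W w).E_const 0]
        refine (cl P W w).E_congr fun u hu => ?_
        rw [ind_not (fun h => hp ((fp u w (cl_supp P hw hu).1).1 h.1)), zero_mul]
      rw [h0]
      have h5 : 0 ≤ (cl P W w).E (fun u => ind (pub u ∧ bad u)) := FP.E_nonneg _ fun _ _ => ind_nonneg _
      positivity
  rw [← E_cl P W (fun w => ind (pub w ∧ TX w ∧ TY w ∧ TZ w) * F w)]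
  refine (P.E_mono key).trans (le_of_eq ?_)
  rw [P.E_add, P.E_smul, P.E_smul, P.E_add, P.E_add, I_cl, I_cl, I_cl, E_cl P W (fun u => ind (pub u ∧ bad u))]
  rfl

end level

/-! ### the process -/

variable {X β γ φ υ : Type} [Fintype X] [Fintype β] [Fintype φ] [Nonempty X] [Nonempty β]
variable {D : HD (Fin 3) X β γ φ} {al : ℝ} (h : D.Thick al) {v : ℕ → Finset (Fin 3) → X → (Fin 3 → β) → υ}
variable {dg : ℕ → X → ℝ} {prr : ℕ → Fin 3 → φ → φ} {T : ℕ} {Lam : ℝ}

theorem k3 : Fintype.card (Fin 3) = 3 := Fintype.card_fin 3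

/-- the mean of the digit given the class, as a mean over the public cell -/
theorem mm_NP (t : ℕ) (w : Pt (Fin 3) X β φ) : mm (UU v) h dg t w =
    (D.P h t).ce (NP D v (t + 1) t) (fun u => dg t u.1) w := by
  unfold mm
  refine (D.P h t).ce_congr_map ?_ ?_ _ w
  · intro a b hab
    rw [eJ_eq, le_eq, BB_eq] at hab
    obtain ⟨h1, _, h2, h3⟩ := hab
    have h4 := (LL_eq.1 (h1 ∅ (Finset.Subset.refl _))).1
    exact Prod.ext h4 (Prod.ext h2 (funext h3))
  · intro a b hab
    have h1 : Um v (t + 1) ∅ a.1 a.2.1 = Um v (t + 1) ∅ b.1 b.2.1 := congrArg Prod.fst hab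
    have h2 : nd D t a = nd D t b := congrArg Prod.snd hab
    rw [eJ_eq, le_eq, BB_eq]
    refine ⟨fun I hI => ?_, fun j hj => absurd hj (Finset.notMem_empty j), congrArg Prod.fst h2,
      fun j => congrFun (congrArg Prod.snd h2) j⟩
    rw [Finset.subset_empty.1 hI, LL_eq]
    exact ⟨h1, fun l hl => absurd hl (er_ne k3 l)⟩

/-- the mean of the digit given one vertex, as a mean over the public cell and the letter -/
theorem uu_NP (t : ℕ) (i : Fin 3) (w : Pt (Fin 3) X β φ) : uu (UU v) h dg {i} t w =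
    (D.P h t).ce (fun u => (NP D v (t + 1) t u, XL v (t + 1) i u)) (fun u => dg t u.1) w := by
  unfold uu
  refine (D.P h t).ce_congr_map ?_ ?_ _ w
  · intro a b hab
    rw [eJ_eq, le_eq, BB_eq] at hab
    obtain ⟨h1, h0, h2, h3⟩ := hab
    have h4 := (LL_eq.1 (h1 ∅ (Finset.empty_subset _))).1
    have h5 := (LL_eq.1 (h1 {i} (Finset.Subset.refl _))).1
    exact Prod.ext (Prod.ext h4 (Prod.ext h2 (funext h3))) (Prod.ext (h0 i (Finset.mem_singleton_self i)) h5)
  · intro a b hab
    have h0 : NP D v (t + 1) t a = NP D v (t + 1) t b := congrArg Prod.fst hab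
    have h1 : Um v (t + 1) ∅ a.1 a.2.1 = Um v (t + 1) ∅ b.1 b.2.1 := congrArg Prod.fst h0
    have h2 : nd D t a = nd D t b := congrArg Prod.snd h0
    have h3 : XL v (t + 1) i a = XL v (t + 1) i b := congrArg Prod.snd hab
    have h4 : a.2.1 i = b.2.1 i := congrArg Prod.fst h3
    have h5 : Um v (t + 1) {i} a.1 a.2.1 = Um v (t + 1) {i} b.1 b.2.1 := congrArg Prod.snd h3
    rw [eJ_eq, le_eq, BB_eq]
    refine ⟨fun I hI => ?_, fun j hj => ?_, congrArg Prod.fst h2, fun j => congrFun (congrArg Prod.snd h2) j⟩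
    · rw [LL_eq]
      refine ⟨?_, fun l hl => ?_⟩
      · rcases Finset.subset_singleton_iff.1 hI with h6 | h6
        · rw [h6]; exact h1
        · rw [h6]; exact h5
      · exfalso
        have h6 := Finset.card_le_card hI
        rw [← hl, card_er k3, Finset.card_singleton] at h6
        omega
    · rw [Finset.mem_singleton.1 hj]; exact h4

/-- the ratio of a thin letter -/
theorem rt_XL (H : D.Hyp dg prr al T Lam) {t : ℕ} (i : Fin 3) {z : ℝ} (hz : z = 1 ∨ z = -1) {w : Pt (Fin 3) X β φ}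
    (hw : (D.P h t).p w ≠ 0) (h0 : 1 + z * mm (UU v) h dg t w ≠ 0) :
    rt ((Pc h v t (t + 1) t w).cond fun u => dg t u.1 = z) (Pc h v t (t + 1) t w) (XL v (t + 1) i) (XL v (t + 1) i w) =
      (1 + z * uu (UU v) h dg {i} t w) / (1 + z * mm (UU v) h dg t w) := by
  rw [mm_NP] at h0 ⊢
  rw [uu_NP]
  exact dig_rt (D.P h t) (V := fun u => dg t u.1) (fun u _ => H.dg_val t u.1) hz hw h0 (XL v (t + 1) i)

theorem lw_dg (H : D.Hyp dg prr al T Lam) {t : ℕ} {z : ℝ} (hz : z = 1 ∨ z = -1) {w : Pt (Fin 3) X β φ}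
    (hw : (D.P h t).p w ≠ 0) : lw (Pc h v t (t + 1) t w) (fun u => dg t u.1) z = (1 + z * mm (UU v) h dg t w) / 2 := by
  rw [mm_NP]
  exact dig_lw (D.P h t) (V := fun u => dg t u.1) (fun u _ => H.dg_val t u.1) hz hw

theorem mm_le_one (H : D.Hyp dg prr al T Lam) {t : ℕ} (w : Pt (Fin 3) X β φ) : |mm (UU v) h dg t w| ≤ 1 := by
  refine (D.P h t).abs_ce_le_one (D := fun u => dg t u.1) (fun u _ => ?_) _ w
  rcases H.dg_val t u.1 with h1 | h1
  · show |dg t u.1| ≤ 1
    rw [h1]; norm_num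
  · show |dg t u.1| ≤ 1
    rw [h1]; norm_num

theorem uu_le_one (H : D.Hyp dg prr al T Lam) {t : ℕ} (J : Finset (Fin 3)) (w : Pt (Fin 3) X β φ) :
    |uu (UU v) h dg J t w| ≤ 1 := by
  refine (D.P h t).abs_ce_le_one (D := fun u => dg t u.1) (fun u _ => ?_) _ w
  rcases H.dg_val t u.1 with h1 | h1
  · show |dg t u.1| ≤ 1
    rw [h1]; norm_num
  · show |dg t u.1| ≤ 1
    rw [h1]; norm_num

theorem prod_thc (f : Finset (Fin 3) → ℝ) : ∏ J ∈ univ.filter (fun J : Finset (Fin 3) => pth J ∧ ¬ pcl J), f J = f {0} * f {1} * f {2} := by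
  have h1 : univ.filter (fun J : Finset (Fin 3) => pth J ∧ ¬ pcl J) = univ.filter (fun J : Finset (Fin 3) => pth J ∧ J ≠ ∅) := by
    ext J
    simp only [Finset.mem_filter, pcl, ne_eq]
  rw [h1, prod_th, Fin.prod_univ_three]

theorem prod_pjc {i k j : Fin 3} (hik : i ≠ k) (hij : i ≠ j) (hkj : k ≠ j) (f : Finset (Fin 3) → ℝ) :
    ∏ J ∈ univ.filter (fun J : Finset (Fin 3) => pj j J ∧ ¬ pcl J), f J = f {i} * f {k} := by
  have h1 : univ.filter (fun J : Finset (Fin 3) => pj j J ∧ ¬ pcl J) = univ.filter (fun J : Finset (Fin 3) => pj j J ∧ J ≠ ∅) := by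
    ext J
    simp only [Finset.mem_filter, pcl, ne_eq]
  have h2 : (univ.erase j : Finset (Fin 3)) = {i, k} := by
    ext l
    fin_cases i <;> fin_cases k <;> fin_cases j <;> fin_cases l <;> simp_all
  rw [h1, prod_pj k3, h2, Finset.prod_pair hik]

/-- **(D1)** the normalisation of the digit, thin labels over the class (integrand as in `cor`) -/
theorem _root_.Pool.Agent.GMH.V3.digV (H : D.Hyp dg prr al T Lam) (hv : Codes D v) {t : ℕ} (_ht : t < T) {pub : Pt (Fin 3) X β φ → Prop}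
    {TT : Fin 3 → Pt (Fin 3) X β φ → Prop} (hA : Alv D v (t + 1) t pub TT) {B eta τ e : ℝ} (hB : Real.exp 2 ≤ B)
    (he0 : 0 ≤ eta) (he1 : eta ≤ 1) (ht0 : 0 ≤ τ) (ht1 : τ ≤ 1) (hee : 0 ≤ e)
    (G : ∀ w, (D.P h t).p w ≠ 0 → pub w → Good3 (Pc h v t (t + 1) t w) (XL v (t + 1) 0) (XL v (t + 1) 1)
      (XL v (t + 1) 2) (TL D v (t + 1) t 0 (TT 0) w) (TL D v (t + 1) t 1 (TT 1) w) (TL D v (t + 1) t 2 (TT 2) w) τ)
    (hd : ∀ w, (D.P h t).p w ≠ 0 → pub w → ∀ i, (Pc h v t (t + 1) t w).Pr (fun u => ¬ TT i u) ≤ e) :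
    (D.P h t).E (fun w => ind (pub w ∧ ∀ i, TT i w) *
      (Rp (bp v pcl h dg t w) (univ.filter fun J => pth J ∧ ¬ pcl J) (fun J => uu (UU v) h dg J t w)
          (fun J => ul (UU v) h dg J t w) / 2 * Real.exp (-gL h v (fun u => dg t u.1) B eta t (t + 1) t 1 w) +
        Rm (bp v pcl h dg t w) (univ.filter fun J => pth J ∧ ¬ pcl J) (fun J => uu (UU v) h dg J t w)
          (fun J => ul (UU v) h dg J t w) / 2 * Real.exp (-gL h v (fun u => dg t u.1) B eta t (t + 1) t (-1) w) - 1)) ≤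
    (1000 * B ^ 3 * (Real.sqrt τ + eta) + 4 * e) * KV h v (fun u => dg t u.1) t (t + 1) t +
    6 * (D.P h t).Pr (fun w => pub w ∧ Bch h v (fun u => dg t u.1) TT e t (t + 1) t w) := by
  have hlev := lev (D.P h t) (W := NP D v (t + 1) t) (X := XL v (t + 1) 0) (Y := XL v (t + 1) 1) (Z := XL v (t + 1) 2)
    (V := fun u => dg t u.1) (pub := pub) (TX := TT 0) (TY := TT 1) (TZ := TT 2) hA.fp
    (fun a b h1 h2 => hA.ft 0 a b (by rw [h1, h2])) (fun a b h1 h2 => hA.ft 1 a b (by rw [h1, h2]))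
    (fun a b h1 h2 => hA.ft 2 a b (by rw [h1, h2])) hB he0 he1 ht0 ht1 hee G (fun w hw hp => hd w hw hp 0)
    (fun w hw hp => hd w hw hp 1) (fun w hw hp => hd w hw hp 2)
    (F := fun w => Rp (bp v pcl h dg t w) (univ.filter fun J => pth J ∧ ¬ pcl J) (fun J => uu (UU v) h dg J t w)
          (fun J => ul (UU v) h dg J t w) / 2 * Real.exp (-gL h v (fun u => dg t u.1) B eta t (t + 1) t 1 w) +
        Rm (bp v pcl h dg t w) (univ.filter fun J => pth J ∧ ¬ pcl J) (fun J => uu (UU v) h dg J t w)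
          (fun J => ul (UU v) h dg J t w) / 2 * Real.exp (-gL h v (fun u => dg t u.1) B eta t (t + 1) t (-1) w) - 1)
    (fun w hw _ => ?_)
  · refine le_trans (le_of_eq ?_) (hlev.trans (add_le_add (le_of_eq ?_) ?_))
    · refine (D.P h t).E_congr fun w _ => ?_
      congr 1
      refine ind_cg ?_
      constructor
      · rintro ⟨h1, h2⟩; exact ⟨h1, h2 0, h2 1, h2 2⟩
      · rintro ⟨h1, h2, h3, h4⟩
        refine ⟨h1, fun i => ?_⟩
        fin_cases i
        · exact h2
        · exact h3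
        · exact h4
    · congr 1
      unfold KV
      rw [Fin.sum_univ_three]
    · refine mul_le_mul_of_nonneg_left ((D.P h t).Pr_mono fun w _ hb => ⟨hb.1, ?_⟩) (by norm_num)
      rcases hb.2 with h1 | h1 | h1
      · exact ⟨0, h1⟩
      · exact ⟨1, h1⟩
      · exact ⟨2, h1⟩
  · have hS := sum_dig (cl (D.P h t) (NP D v (t + 1) t) w) (V := fun u : Pt (Fin 3) X β φ => dg t u.1)
      (fun u _ => H.dg_val t u.1) (fun z =>
        (rt ((cl (D.P h t) (NP D v (t + 1) t) w).cond fun u => dg t u.1 = z) (cl (D.P h t) (NP D v (t + 1) t) w)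
          (XL v (t + 1) 0) (XL v (t + 1) 0 w) *
        rt ((cl (D.P h t) (NP D v (t + 1) t) w).cond fun u => dg t u.1 = z) (cl (D.P h t) (NP D v (t + 1) t) w)
          (XL v (t + 1) 1) (XL v (t + 1) 1 w) *
        rt ((cl (D.P h t) (NP D v (t + 1) t) w).cond fun u => dg t u.1 = z) (cl (D.P h t) (NP D v (t + 1) t) w)
          (XL v (t + 1) 2) (XL v (t + 1) 2 w) *
        Real.exp (-gV ((cl (D.P h t) (NP D v (t + 1) t) w).cond fun u => dg t u.1 = z)
          (cl (D.P h t) (NP D v (t + 1) t) w) (XL v (t + 1) 0) (XL v (t + 1) 1) (XL v (t + 1) 2) B eta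
          (XL v (t + 1) 0 w) (XL v (t + 1) 1 w) (XL v (t + 1) 2 w)) - 1))
    rw [hS]
    have l1 : lw (cl (D.P h t) (NP D v (t + 1) t) w) (fun u => dg t u.1) 1 = (1 + mm (UU v) h dg t w) / 2 := by
      have := lw_dg h (v := v) H (z := 1) (Or.inl rfl) hw
      rwa [one_mul] at this
    have l2 : lw (cl (D.P h t) (NP D v (t + 1) t) w) (fun u => dg t u.1) (-1) = (1 - mm (UU v) h dg t w) / 2 := by
      have := lw_dg h (v := v) H (z := -1) (Or.inr rfl) hw
      rwa [show 1 + -1 * mm (UU v) h dg t w = 1 - mm (UU v) h dg t w by ring] at this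
    have u0 := ul_one h k3 H hv 0 hw
    have u1 := ul_one h k3 H hv 1 hw
    have u2 := ul_one h k3 H hv 2 hw
    have r1 : Rp (bp v pcl h dg t w) (univ.filter fun J => pth J ∧ ¬ pcl J) (fun J => uu (UU v) h dg J t w)
          (fun J => ul (UU v) h dg J t w) / 2 = (1 + mm (UU v) h dg t w) / 2 *
        (rt ((cl (D.P h t) (NP D v (t + 1) t) w).cond fun u => dg t u.1 = 1) (cl (D.P h t) (NP D v (t + 1) t) w)
          (XL v (t + 1) 0) (XL v (t + 1) 0 w) *
        rt ((cl (D.P h t) (NP D v (t + 1) t) w).cond fun u => dg t u.1 = 1) (cl (D.P h t) (NP D v (t + 1) t) w)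
          (XL v (t + 1) 1) (XL v (t + 1) 1 w) *
        rt ((cl (D.P h t) (NP D v (t + 1) t) w).cond fun u => dg t u.1 = 1) (cl (D.P h t) (NP D v (t + 1) t) w)
          (XL v (t + 1) 2) (XL v (t + 1) 2 w)) := by
      unfold Rp
      rw [prod_thc, bp_class h H hv hw]
      beta_reduce
      rw [u0, u1, u2]
      by_cases hz : 1 + mm (UU v) h dg t w = 0
      · rw [hz]; ring
      · have hz' : 1 + 1 * mm (UU v) h dg t w ≠ 0 := by rwa [one_mul]
        have r := fun i => rt_XL h (v := v) H i (z := 1) (Or.inl rfl) hw hz'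
        have q := fun i => (r i)
        simp only [one_mul] at q
        have q0 := q 0
        have q1 := q 1
        have q2 := q 2
        unfold Pc at q0 q1 q2
        unfold cl
        rw [q0, q1, q2]
        ring
    have r2 : Rm (bp v pcl h dg t w) (univ.filter fun J => pth J ∧ ¬ pcl J) (fun J => uu (UU v) h dg J t w)
          (fun J => ul (UU v) h dg J t w) / 2 = (1 - mm (UU v) h dg t w) / 2 *
        (rt ((cl (D.P h t) (NP D v (t + 1) t) w).cond fun u => dg t u.1 = -1) (cl (D.P h t) (NP D v (t + 1) t) w)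
          (XL v (t + 1) 0) (XL v (t + 1) 0 w) *
        rt ((cl (D.P h t) (NP D v (t + 1) t) w).cond fun u => dg t u.1 = -1) (cl (D.P h t) (NP D v (t + 1) t) w)
          (XL v (t + 1) 1) (XL v (t + 1) 1 w) *
        rt ((cl (D.P h t) (NP D v (t + 1) t) w).cond fun u => dg t u.1 = -1) (cl (D.P h t) (NP D v (t + 1) t) w)
          (XL v (t + 1) 2) (XL v (t + 1) 2 w)) := by
      unfold Rm
      rw [prod_thc, bp_class h H hv hw]
      beta_reduce
      rw [u0, u1, u2]
      by_cases hz : 1 - mm (UU v) h dg t w = 0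
      · rw [hz]; ring
      · have hz' : 1 + -1 * mm (UU v) h dg t w ≠ 0 := by
          rwa [show 1 + -1 * mm (UU v) h dg t w = 1 - mm (UU v) h dg t w by ring]
        have r := fun i => rt_XL h (v := v) H i (z := -1) (Or.inr rfl) hw hz'
        have q := fun i => (r i)
        simp only [neg_one_mul, ← sub_eq_add_neg] at q
        have q0 := q 0
        have q1 := q 1
        have q2 := q 2
        unfold Pc at q0 q1 q2
        unfold cl
        rw [q0, q1, q2]
        ring
    rw [l1, l2, r1, r2]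
    refine le_of_eq ?_
    change _ * Real.exp (-gV ((cl (D.P h t) (NP D v (t + 1) t) w).cond fun u => dg t u.1 = 1)
          (cl (D.P h t) (NP D v (t + 1) t) w) (XL v (t + 1) 0) (XL v (t + 1) 1) (XL v (t + 1) 2) B eta
          (XL v (t + 1) 0 w) (XL v (t + 1) 1 w) (XL v (t + 1) 2 w)) +
      _ * Real.exp (-gV ((cl (D.P h t) (NP D v (t + 1) t) w).cond fun u => dg t u.1 = -1)
          (cl (D.P h t) (NP D v (t + 1) t) w) (XL v (t + 1) 0) (XL v (t + 1) 1) (XL v (t + 1) 2) B eta
          (XL v (t + 1) 0 w) (XL v (t + 1) 1 w) (XL v (t + 1) 2 w)) - 1 = _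
    ring

/-- rows of two letters out of three -/
theorem good_row {c : FP (Pt (Fin 3) X β φ)} {LT : Fin 3 → β × List υ → Prop} {s : ℕ} {τ : ℝ}
    (G : Good3 c (XL v s 0) (XL v s 1) (XL v s 2) (LT 0) (LT 1) (LT 2) τ) : ∀ i k : Fin 3, i ≠ k → ∀ x, LT i x →
    rowd c (XL v s i) (XL v s k) x ≤ τ * lw c (XL v s i) x := by
  intro i k
  match i, k with
  | 0, 0 => exact fun h => absurd rfl h
  | 1, 1 => exact fun h => absurd rfl h
  | 2, 2 => exact fun h => absurd rfl h
  | 0, 1 => exact fun _ => G.xy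
  | 0, 2 => exact fun _ => G.xz
  | 1, 0 => exact fun _ => G.yx
  | 1, 2 => exact fun _ => G.yz
  | 2, 0 => exact fun _ => G.zx
  | 2, 1 => exact fun _ => G.zy

theorem lw2_u {Om : Type*} [Fintype Om] (c : FP Om) {μ : Type*} (W : Om → μ) (x : μ) (z : Unit) :
    lw2 c W (fun _ : Om => ()) x z = lw c W x := by
  unfold lw2 lw
  exact c.E_congr fun w _ => by rw [ind_of (Subsingleton.elim _ z), mul_one]

theorem lw2_u' {Om : Type*} [Fintype Om] (c : FP Om) {μ : Type*} (W : Om → μ) (x : μ) (z : Unit) :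
    lw2 c (fun _ : Om => ()) W z x = lw c W x := by
  unfold lw2 lw
  exact c.E_congr fun w _ => by rw [ind_of (Subsingleton.elim _ z), one_mul]

theorem Pr_false {Om : Type*} [Fintype Om] (c : FP Om) : c.Pr (fun _ => ¬ True) = 0 := by
  unfold FP.Pr
  rw [← c.E_const (0 : ℝ)]
  exact c.E_congr fun u _ => ind_not fun h => h trivial

/-- two letters and a constant one -/
theorem good_pair {Om : Type*} [Fintype Om] {c : FP Om} {κ ι : Type*} {X1 : Om → κ} {X2 : Om → ι} {T1 : κ → Prop} {T2 : ι → Prop}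
    {T3 : Unit → Prop} {τ : ℝ} (ht : 0 ≤ τ) (h1 : ∀ x, T1 x → rowd c X1 X2 x ≤ τ * lw c X1 x)
    (h2 : ∀ y, T2 y → rowd c X2 X1 y ≤ τ * lw c X2 y) : Good3 c X1 X2 (fun _ => ()) T1 T2 T3 τ := by
  have u1 : ∀ z : Unit, lw c (fun _ : Om => ()) z = 1 := by
    intro z
    unfold lw
    rw [← c.E_const 1]
    exact c.E_congr fun w _ => ind_of (Subsingleton.elim _ _)
  have u4 : ∀ x y z, lw3 c X1 X2 (fun _ : Om => ()) x y z = lw2 c X1 X2 x y := by
    intro x y z
    unfold lw3 lw2
    exact c.E_congr fun w _ => by rw [ind_of (Subsingleton.elim _ z), mul_one]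
  have u5 : ∀ x y, lw2 c X2 X1 y x = lw2 c X1 X2 x y := by
    intro x y
    unfold lw2
    exact c.E_congr fun w _ => mul_comm _ _
  refine ⟨h1, ?_, h2, ?_, ?_, ?_, ?_, ?_, ?_⟩
  · intro x _
    unfold rowd
    rw [Finset.sum_eq_zero fun z _ => by rw [lw2_u, u1, mul_one, sub_self, abs_zero]]
    exact mul_nonneg ht (lw_nonneg _ _ _)
  · intro x _
    unfold rowd
    rw [Finset.sum_eq_zero fun z _ => by rw [lw2_u, u1, mul_one, sub_self, abs_zero]]
    exact mul_nonneg ht (lw_nonneg _ _ _)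
  · intro z _
    unfold rowd
    rw [Finset.sum_eq_zero fun x _ => by rw [lw2_u', u1, one_mul, sub_self, abs_zero]]
    exact mul_nonneg ht (lw_nonneg _ _ _)
  · intro z _
    unfold rowd
    rw [Finset.sum_eq_zero fun x _ => by rw [lw2_u', u1, one_mul, sub_self, abs_zero]]
    exact mul_nonneg ht (lw_nonneg _ _ _)
  · intro x y _ _
    refine Or.inl ?_
    rw [Finset.sum_eq_zero fun z _ => by rw [u4, u1, mul_one, sub_self, abs_zero]]
    exact mul_nonneg ht (lw2_nonneg _ _ _ _ _)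
  · intro x z hx _
    refine Or.inl ?_
    rw [lw2_u]
    refine le_trans (le_of_eq ?_) (h1 x hx)
    unfold rowd
    exact Finset.sum_congr rfl fun y _ => by rw [u4]
  · intro y z hy _
    refine Or.inl ?_
    rw [lw2_u]
    refine le_trans (le_of_eq ?_) (h2 y hy)
    unfold rowd
    refine Finset.sum_congr rfl fun x _ => ?_
    rw [u4, u5]

theorem I_unit {Om : Type*} [Fintype Om] (P : FP Om) {ν α : Type*} (V : Om → ν) (W : Om → α) :
    P.I (fun _ => ()) V W = 0 :=
  le_antisymm ((P.I_le_Hc _ _ _).trans ((P.Hc_le_H _ _).trans (le_of_eq (P.H_const ())))) (P.I_nonneg _ _ _)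

/-- the ratio of the constant letter -/
theorem rt_unit {Om : Type*} [Fintype Om] (Q P : FP Om) (z : Unit) : rt Q P (fun _ : Om => ()) z = 1 := by
  have u1 : ∀ c : FP Om, lw c (fun _ : Om => ()) z = 1 := by
    intro c
    unfold lw
    rw [← c.E_const 1]
    exact c.E_congr fun w _ => ind_of (Subsingleton.elim _ _)
  unfold rt
  rw [u1, u1, div_one]

/-- **(D1')** the same for the vertices `i`, `k` -/
theorem _root_.Pool.Agent.GMH.V3.digVj (H : D.Hyp dg prr al T Lam) (hv : Codes D v) {t : ℕ} (_ht : t < T) {i k j : Fin 3} (hik : i ≠ k)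
    (hij : i ≠ j) (hkj : k ≠ j) {pub : Pt (Fin 3) X β φ → Prop} {TT : Fin 3 → Pt (Fin 3) X β φ → Prop}
    (hA : Alv D v (t + 1) t pub TT) {B eta τ e : ℝ} (hB : Real.exp 2 ≤ B)
    (he0 : 0 ≤ eta) (he1 : eta ≤ 1) (ht0 : 0 ≤ τ) (ht1 : τ ≤ 1) (hee : 0 ≤ e)
    (G : ∀ w, (D.P h t).p w ≠ 0 → pub w → Good3 (Pc h v t (t + 1) t w) (XL v (t + 1) 0) (XL v (t + 1) 1)
      (XL v (t + 1) 2) (TL D v (t + 1) t 0 (TT 0) w) (TL D v (t + 1) t 1 (TT 1) w) (TL D v (t + 1) t 2 (TT 2) w) τ)
    (hd : ∀ w, (D.P h t).p w ≠ 0 → pub w → ∀ i, (Pc h v t (t + 1) t w).Pr (fun u => ¬ TT i u) ≤ e) :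
    (D.P h t).E (fun w => ind (pub w ∧ TT i w ∧ TT k w) *
      (Rp (bp v pcl h dg t w) (univ.filter fun J => pj j J ∧ ¬ pcl J) (fun J => uu (UU v) h dg J t w)
          (fun J => ul (UU v) h dg J t w) / 2 * Real.exp (-gJ h v i k (fun u => dg t u.1) B eta t (t + 1) t 1 w) +
        Rm (bp v pcl h dg t w) (univ.filter fun J => pj j J ∧ ¬ pcl J) (fun J => uu (UU v) h dg J t w)
          (fun J => ul (UU v) h dg J t w) / 2 * Real.exp (-gJ h v i k (fun u => dg t u.1) B eta t (t + 1) t (-1) w) -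
        1)) ≤
    (1000 * B ^ 3 * (Real.sqrt τ + eta) + 4 * e) * KV h v (fun u => dg t u.1) t (t + 1) t +
    6 * (D.P h t).Pr (fun w => pub w ∧ Bch h v (fun u => dg t u.1) TT e t (t + 1) t w) := by
  have hB0 : 0 ≤ B := (Real.exp_pos 2).le.trans hB
  have hG : ∀ w, (D.P h t).p w ≠ 0 → pub w → Good3 (Pc h v t (t + 1) t w) (XL v (t + 1) i) (XL v (t + 1) k)
      (fun _ => ()) (TL D v (t + 1) t i (TT i) w) (TL D v (t + 1) t k (TT k) w)
      (TC (NP D v (t + 1) t) (fun _ => ()) (fun _ => True) w) τ := fun w hw hp =>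
    good_pair ht0 (good_row (LT := fun i => TL D v (t + 1) t i (TT i) w) (G w hw hp) i k hik)
      (good_row (LT := fun i => TL D v (t + 1) t i (TT i) w) (G w hw hp) k i hik.symm)
  have hlev := lev (D.P h t) (W := NP D v (t + 1) t) (X := XL v (t + 1) i) (Y := XL v (t + 1) k) (Z := fun _ => ())
    (V := fun u => dg t u.1) (pub := pub) (TX := TT i) (TY := TT k) (TZ := fun _ => True) hA.fp
    (fun a b h1 h2 => hA.ft i a b (by rw [h1, h2])) (fun a b h1 h2 => hA.ft k a b (by rw [h1, h2]))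
    (fun a b h1 h2 => Iff.rfl) hB he0 he1 ht0 ht1 hee hG (fun w hw hp => hd w hw hp i)
    (fun w hw hp => hd w hw hp k) (fun w hw hp => (Pr_false _).le.trans hee)
    (F := fun w => Rp (bp v pcl h dg t w) (univ.filter fun J => pj j J ∧ ¬ pcl J) (fun J => uu (UU v) h dg J t w)
          (fun J => ul (UU v) h dg J t w) / 2 * Real.exp (-gJ h v i k (fun u => dg t u.1) B eta t (t + 1) t 1 w) +
        Rm (bp v pcl h dg t w) (univ.filter fun J => pj j J ∧ ¬ pcl J) (fun J => uu (UU v) h dg J t w)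
          (fun J => ul (UU v) h dg J t w) / 2 * Real.exp (-gJ h v i k (fun u => dg t u.1) B eta t (t + 1) t (-1) w) - 1)
    (fun w hw _ => ?_)
  · refine le_trans (le_of_eq ?_) (hlev.trans (add_le_add ?_ ?_))
    · refine (D.P h t).E_congr fun w _ => ?_
      congr 1
      refine ind_cg ?_
      constructor
      · rintro ⟨h1, h2, h3⟩; exact ⟨h1, h2, h3, trivial⟩
      · rintro ⟨h1, h2, h3, _⟩; exact ⟨h1, h2, h3⟩
    · refine mul_le_mul_of_nonneg_left ?_ ?_
      · rw [I_unit, add_zero]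
        unfold KV
        have h1 := Finset.sum_le_sum_of_subset_of_nonneg (Finset.subset_univ ({i, k} : Finset (Fin 3)))
          (f := fun i => (D.P h t).I (XL v (t + 1) i) (fun u : Pt (Fin 3) X β φ => dg t u.1) (NP D v (t + 1) t))
          (fun i _ _ => (D.P h t).I_nonneg _ _ _)
        rw [Finset.sum_pair hik] at h1
        exact h1
      · have := Real.sqrt_nonneg τ
        positivity
    · refine mul_le_mul_of_nonneg_left ((D.P h t).Pr_mono fun w _ hb => ⟨hb.1, ?_⟩) (by norm_num)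
      rcases hb.2 with h1 | h1 | h1
      · exact ⟨i, h1⟩
      · exact ⟨k, h1⟩
      · exact absurd h1 (not_lt.2 ((Pr_false _).le.trans hee))
  · have hS := sum_dig (cl (D.P h t) (NP D v (t + 1) t) w) (V := fun u : Pt (Fin 3) X β φ => dg t u.1)
      (fun u _ => H.dg_val t u.1) (fun z =>
        (rt ((cl (D.P h t) (NP D v (t + 1) t) w).cond fun u => dg t u.1 = z) (cl (D.P h t) (NP D v (t + 1) t) w)
          (XL v (t + 1) i) (XL v (t + 1) i w) *
        rt ((cl (D.P h t) (NP D v (t + 1) t) w).cond fun u => dg t u.1 = z) (cl (D.P h t) (NP D v (t + 1) t) w)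
          (XL v (t + 1) k) (XL v (t + 1) k w) *
        rt ((cl (D.P h t) (NP D v (t + 1) t) w).cond fun u => dg t u.1 = z) (cl (D.P h t) (NP D v (t + 1) t) w)
          (fun _ => ()) () *
        Real.exp (-gV ((cl (D.P h t) (NP D v (t + 1) t) w).cond fun u => dg t u.1 = z)
          (cl (D.P h t) (NP D v (t + 1) t) w) (XL v (t + 1) i) (XL v (t + 1) k) (fun _ => ()) B eta
          (XL v (t + 1) i w) (XL v (t + 1) k w) ()) - 1))
    rw [hS]
    have l1 : lw (cl (D.P h t) (NP D v (t + 1) t) w) (fun u => dg t u.1) 1 = (1 + mm (UU v) h dg t w) / 2 := by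
      have := lw_dg h (v := v) H (z := 1) (Or.inl rfl) hw
      rwa [one_mul] at this
    have l2 : lw (cl (D.P h t) (NP D v (t + 1) t) w) (fun u => dg t u.1) (-1) = (1 - mm (UU v) h dg t w) / 2 := by
      have := lw_dg h (v := v) H (z := -1) (Or.inr rfl) hw
      rwa [show 1 + -1 * mm (UU v) h dg t w = 1 - mm (UU v) h dg t w by ring] at this
    have u0 := ul_one h k3 H hv i hw
    have u1 := ul_one h k3 H hv k hw
    have r1 : Rp (bp v pcl h dg t w) (univ.filter fun J => pj j J ∧ ¬ pcl J) (fun J => uu (UU v) h dg J t w)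
          (fun J => ul (UU v) h dg J t w) / 2 = (1 + mm (UU v) h dg t w) / 2 *
        (rt ((cl (D.P h t) (NP D v (t + 1) t) w).cond fun u => dg t u.1 = 1) (cl (D.P h t) (NP D v (t + 1) t) w)
          (XL v (t + 1) i) (XL v (t + 1) i w) *
        rt ((cl (D.P h t) (NP D v (t + 1) t) w).cond fun u => dg t u.1 = 1) (cl (D.P h t) (NP D v (t + 1) t) w)
          (XL v (t + 1) k) (XL v (t + 1) k w)) := by
      unfold Rp
      rw [prod_pjc hik hij hkj, bp_class h H hv hw]
      beta_reduce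
      rw [u0, u1]
      by_cases hz : 1 + mm (UU v) h dg t w = 0
      · rw [hz]; ring
      · have hz' : 1 + 1 * mm (UU v) h dg t w ≠ 0 := by rwa [one_mul]
        have q := fun i => rt_XL h (v := v) H i (z := 1) (Or.inl rfl) hw hz'
        simp only [one_mul] at q
        have q0 := q i
        have q1 := q k
        unfold Pc at q0 q1
        unfold cl
        rw [q0, q1]
        ring
    have r2 : Rm (bp v pcl h dg t w) (univ.filter fun J => pj j J ∧ ¬ pcl J) (fun J => uu (UU v) h dg J t w)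
          (fun J => ul (UU v) h dg J t w) / 2 = (1 - mm (UU v) h dg t w) / 2 *
        (rt ((cl (D.P h t) (NP D v (t + 1) t) w).cond fun u => dg t u.1 = -1) (cl (D.P h t) (NP D v (t + 1) t) w)
          (XL v (t + 1) i) (XL v (t + 1) i w) *
        rt ((cl (D.P h t) (NP D v (t + 1) t) w).cond fun u => dg t u.1 = -1) (cl (D.P h t) (NP D v (t + 1) t) w)
          (XL v (t + 1) k) (XL v (t + 1) k w)) := by
      unfold Rm
      rw [prod_pjc hik hij hkj, bp_class h H hv hw]
      beta_reduce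
      rw [u0, u1]
      by_cases hz : 1 - mm (UU v) h dg t w = 0
      · rw [hz]; ring
      · have hz' : 1 + -1 * mm (UU v) h dg t w ≠ 0 := by
          rwa [show 1 + -1 * mm (UU v) h dg t w = 1 - mm (UU v) h dg t w by ring]
        have q := fun i => rt_XL h (v := v) H i (z := -1) (Or.inr rfl) hw hz'
        simp only [neg_one_mul, ← sub_eq_add_neg] at q
        have q0 := q i
        have q1 := q k
        unfold Pc at q0 q1
        unfold cl
        rw [q0, q1]
        ring
    rw [l1, l2, r1, r2, rt_unit, rt_unit]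
    refine le_of_eq ?_
    change _ * Real.exp (-gV ((cl (D.P h t) (NP D v (t + 1) t) w).cond fun u => dg t u.1 = 1)
          (cl (D.P h t) (NP D v (t + 1) t) w) (XL v (t + 1) i) (XL v (t + 1) k) (fun _ => ()) B eta
          (XL v (t + 1) i w) (XL v (t + 1) k w) ()) +
      _ * Real.exp (-gV ((cl (D.P h t) (NP D v (t + 1) t) w).cond fun u => dg t u.1 = -1)
          (cl (D.P h t) (NP D v (t + 1) t) w) (XL v (t + 1) i) (XL v (t + 1) k) (fun _ => ()) B eta
          (XL v (t + 1) i w) (XL v (t + 1) k w) ()) - 1 = _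
    ring

/-! ### no cut at small biases -/

theorem rt_le4 (H : D.Hyp dg prr al T Lam) {t : ℕ} {w : Pt (Fin 3) X β φ} (hw : (D.P h t).p w ≠ 0)
    (hm : |mm (UU v) h dg t w| ≤ 1 / 2) {z : ℝ} (hz : z = 1 ∨ z = -1) (i : Fin 3) :
    rt ((Pc h v t (t + 1) t w).cond fun u => dg t u.1 = z) (Pc h v t (t + 1) t w) (XL v (t + 1) i) (XL v (t + 1) i w) ≤
      4 := by
  have hm' := abs_le.1 hm
  have hu' := abs_le.1 (uu_le_one h (v := v) H (t := t) {i} w)
  have h1 : 1 / 2 ≤ 1 + z * mm (UU v) h dg t w := by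
    rcases hz with h2 | h2 <;> rw [h2] <;> linarith [hm'.1, hm'.2]
  have h2 : 1 + z * uu (UU v) h dg {i} t w ≤ 2 := by
    rcases hz with h2 | h2 <;> rw [h2] <;> linarith [hu'.1, hu'.2]
  rw [rt_XL h H i hz hw (by linarith), div_le_iff₀ (by linarith)]
  linarith

/-- **(D2)** a class bias of size at most `1/2`: no strong letters, no cut -/
theorem _root_.Pool.Agent.GMH.V3.gL_zero (H : D.Hyp dg prr al T Lam) (_hv : Codes D v) {t : ℕ} (_ht : t < T) {B eta : ℝ} (hB : 4 ≤ B)
    {w : Pt (Fin 3) X β φ} (hw : (D.P h t).p w ≠ 0) (hm : |mm (UU v) h dg t w| ≤ 1 / 2) {z : ℝ} (hz : z = 1 ∨ z = -1) :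
    gL h v (fun u => dg t u.1) B eta t (t + 1) t z w = 0 :=
  gV_zero ((rt_le4 h H hw hm hz 0).trans hB) ((rt_le4 h H hw hm hz 1).trans hB) ((rt_le4 h H hw hm hz 2).trans hB)

/-- **(D2')** the same for two vertices -/
theorem _root_.Pool.Agent.GMH.V3.gJ_zero (H : D.Hyp dg prr al T Lam) (_hv : Codes D v) {t : ℕ} (_ht : t < T) {B eta : ℝ} (hB : 4 ≤ B) {i k : Fin 3}
    {w : Pt (Fin 3) X β φ} (hw : (D.P h t).p w ≠ 0) (hm : |mm (UU v) h dg t w| ≤ 1 / 2) {z : ℝ} (hz : z = 1 ∨ z = -1) :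
    gJ h v i k (fun u => dg t u.1) B eta t (t + 1) t z w = 0 :=
  gV_zero ((rt_le4 h H hw hm hz i).trans hB) ((rt_le4 h H hw hm hz k).trans hB)
    (by rw [rt_unit]; linarith)

/-! ### measurability -/

theorem Pc_eq {t s n : ℕ} {a b : Pt (Fin 3) X β φ} (hab : NP D v s n a = NP D v s n b) : Pc h v t s n a = Pc h v t s n b := by
  unfold Pc
  rw [hab]

/-- **(D3)** measurability of the cut part: a function of the thin labels, the points and the node -/
theorem _root_.Pool.Agent.GMH.V3.gL_fac {t : ℕ} {B eta : ℝ} (z : ℝ) :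
    Fac (fun w => (all (LP pth (LL (Um v (t + 1)))) w, WW D t w)) (gL h v (fun u => dg t u.1) B eta t (t + 1) t z) := by
  intro a b hab
  have hab1 : all (LP pth (LL (φ := φ) (Um v (t + 1)))) a = all (LP pth (LL (Um v (t + 1)))) b := congrArg Prod.fst hab
  have hab2 : WW D t a = WW D t b := congrArg Prod.snd hab
  have h1 : a.2.1 = b.2.1 := (WW_eq.1 hab2).1
  have h2 : nd D t a = nd D t b := (Prod.mk.inj hab2).2
  have h3 : ∀ J : Finset (Fin 3), pth J → Um v (t + 1) J a.1 a.2.1 = Um v (t + 1) J b.1 b.2.1 := fun J hJ =>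
    (LL_eq.1 (congrFun hab1 ⟨J, hJ⟩)).1
  have h4 : NP D v (t + 1) t a = NP D v (t + 1) t b := Prod.ext (h3 ∅ pth0) h2
  have h5 : ∀ i : Fin 3, XL v (t + 1) i a = XL v (t + 1) i b := fun i =>
    Prod.ext (congrFun h1 i) (h3 {i} (by unfold pth; rw [Finset.card_singleton]))
  unfold gL
  rw [Pc_eq h h4, h5 0, h5 1, h5 2]

/-- **(D3')** the same for two vertices -/
theorem _root_.Pool.Agent.GMH.V3.gJ_fac {t : ℕ} {i k j : Fin 3} (hik : i ≠ k) (hij : i ≠ j) (hkj : k ≠ j) {B eta : ℝ} (z : ℝ) :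
    Fac (fun w => (all (LP (pj j) (LL (Um v (t + 1)))) w, WW D t w))
      (gJ h v i k (fun u => dg t u.1) B eta t (t + 1) t z) := by
  intro a b hab
  have hab1 : all (LP (pj j) (LL (φ := φ) (Um v (t + 1)))) a = all (LP (pj j) (LL (Um v (t + 1)))) b := congrArg Prod.fst hab
  have hab2 : WW D t a = WW D t b := congrArg Prod.snd hab
  have h1 : a.2.1 = b.2.1 := (WW_eq.1 hab2).1
  have h2 : nd D t a = nd D t b := (Prod.mk.inj hab2).2
  have h3 : ∀ J : Finset (Fin 3), pj j J → Um v (t + 1) J a.1 a.2.1 = Um v (t + 1) J b.1 b.2.1 := fun J hJ =>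
    (LL_eq.1 (congrFun hab1 ⟨J, hJ⟩)).1
  have h4 : NP D v (t + 1) t a = NP D v (t + 1) t b := Prod.ext (h3 ∅ (pj0 k3 j)) h2
  have h6 : ∀ i : Fin 3, i ≠ j → pj j {i} := by
    intro i hi
    refine lt_of_le_of_ne (Finset.singleton_subset_iff.2 (Finset.mem_erase.2 ⟨hi, mem_univ i⟩)) fun hh => ?_
    have h7 := card_er k3 j
    rw [← hh, Finset.card_singleton] at h7
    omega
  have h5 : ∀ i : Fin 3, i ≠ j → XL v (t + 1) i a = XL v (t + 1) i b := fun i hi =>
    Prod.ext (congrFun h1 i) (h3 {i} (h6 i hi))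
  unfold gJ
  rw [Pc_eq h h4, h5 i hij, h5 k hkj]

end Pool.Agent.GMH.V3.DA
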