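import Pool.Agent.GMH.TD4
import Pool.Agent.GMH.V3D

/-!
# GMH.TD12A: thin dynamics, tiny digits (plan helper27, proof helper18)

`P (N_(r+1) | N_r) < dl` means that the digit of the hidden point has conditional probability `< 8 dl` (the cells of the known
points are halved): `(1 + z m) / 2 < 8 dl` for the value `z` of the digit and its conditional mean `m`, so `m ^ 2 ≥ 9 / 16`.
-/

set_option autoImplicit false
set_option linter.unusedSectionVars false

namespace Pool.Agent.GMH.TD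

open Finset Pool.Agent.PWZ Pool.Agent.M3 Pool.Agent.GM Pool.Agent.GM.Harm Pool.Agent.GMH Pool.Agent.GMH.NZ
open Pool.Agent.GMH.V3 Pool.Agent.GMH.Gdy

variable {X β γ φ : Type} [Fintype X] [Fintype β] [Fintype φ] [Nonempty X] [Nonempty β]
variable {D : HD (Fin 3) X β γ φ} {al : ℝ} {h : D.Thick al} {v : ℕ → Finset (Fin 3) → X → (Fin 3 → β) → Pt (Fin 3) X β φ}

namespace TA

theorem tm_even (t : ℕ) : tm (2 * t) = t := by unfold tm; omega

theorem tm_odd (t : ℕ) : tm (2 * t + 1) = t := by unfold tm; omega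

theorem nt_even (t : ℕ) : nt (2 * t) = t := by unfold nt; omega

theorem nt_odd (t : ℕ) : nt (2 * t + 1) = t + 1 := by unfold nt; omega

theorem NPr_even (t : ℕ) : NPr (φ := φ) v D (2 * t) = NP D v (t + 1) t := by
  funext w
  unfold NPr
  rw [tm_even, nt_even]

theorem NPr_odd (t : ℕ) : NPr (φ := φ) v D (2 * t + 1) = NP D v (t + 1) (t + 1) := by
  funext w
  unfold NPr
  rw [tm_odd, nt_odd]

/-- the child cell has the mass of the parent cell times the probability of the digit times at least `1 / 8` -/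
theorem child_ge (hv : Codes D v) {dg : ℕ → X → ℝ} {prr : ℕ → Fin 3 → φ → φ} {T : ℕ} {Lam : ℝ} (H : D.Hyp dg prr al T Lam)
    {t : ℕ} (ht : t < T) (c : Pt (Fin 3) X β φ) :
    (D.P h 0).m (NPr v D (2 * t)) c * (muC D v (t + 1) t c).Pr (fun x => D.qa (t + 1) x = D.qa (t + 1) c.1) ≤
      8 * (D.P h 0).m (NPr v D (2 * t + 1)) c := by
  rw [NPr_even, NPr_odd]
  have e1 : (D.P h 0).m (NP D v (t + 1) t) c = (FP.unif X).Pr (cX D v (t + 1) t c) *
      ∏ j, (FP.unif β).Pr (cY D t c j) := cell_Pr hv 0 le_rfl c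
  have e2 : (D.P h 0).m (NP D v (t + 1) (t + 1)) c = (FP.unif X).Pr (cX D v (t + 1) (t + 1) c) *
      ∏ j, (FP.unif β).Pr (cY D (t + 1) c j) := cell_Pr hv 0 (by omega) c
  have hA : (FP.unif X).Pr (cX D v (t + 1) t c) ≠ 0 := unif_ne (cX_self (t + 1) t c)
  have e3 : (FP.unif X).Pr (cX D v (t + 1) (t + 1) c) = (FP.unif X).Pr (cX D v (t + 1) t c) *
      (muC D v (t + 1) t c).Pr (fun x => D.qa (t + 1) x = D.qa (t + 1) c.1) := by
    unfold muC
    show _ = (FP.unif X).Pr (cX D v (t + 1) t c) * ((FP.unif X).cond (cX D v (t + 1) t c)).E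
      (fun x => ind (D.qa (t + 1) x = D.qa (t + 1) c.1))
    rw [FP.Pr_mul_cond_E hA]
    unfold FP.Pr
    refine FP.E_congr _ fun x _ => ?_
    rw [← ind_and]
    exact ind_cg ((cX_succ c x).trans and_comm)
  have h1 : ∏ j, (FP.unif β).Pr (cY D t c j) ≤ ∏ j, (2 * (FP.unif β).Pr (cY D (t + 1) c j)) :=
    Finset.prod_le_prod (fun j _ => FP.Pr_nonneg _ _) fun j _ => cY_half H ht c j
  rw [Finset.prod_mul_distrib, Finset.prod_const, Finset.card_univ, Fintype.card_fin] at h1
  rw [e1, e2, e3]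
  have h2 : 0 ≤ (FP.unif X).Pr (cX D v (t + 1) t c) *
      (muC D v (t + 1) t c).Pr (fun x => D.qa (t + 1) x = D.qa (t + 1) c.1) :=
    mul_nonneg (FP.Pr_nonneg _ _) (FP.Pr_nonneg _ _)
  have h3 := mul_le_mul_of_nonneg_left h1 h2
  nlinarith

/-- probability of the digit in the public cell -/
theorem digit_Pr (hv : Codes D v) {dg : ℕ → X → ℝ} {prr : ℕ → Fin 3 → φ → φ} {T : ℕ} {Lam : ℝ} (H : D.Hyp dg prr al T Lam)
    {t : ℕ} (ht : t < T) {c : Pt (Fin 3) X β φ} (hc : (D.P h t).p c ≠ 0) :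
    (muC D v (t + 1) t c).Pr (fun x => D.qa (t + 1) x = D.qa (t + 1) c.1) =
      (1 + dg t c.1 * mm (UU v) h dg t c) / 2 := by
  rw [← V3.DA.lw_dg h H (H.dg_val t c.1) hc]
  have h1 := Pc_E0 (h := h) hv t le_rfl c (fun x => ind (dg t x = dg t c.1)) (s := t + 1) (n := t)
  unfold lw
  refine Eq.trans ?_ h1.symm
  unfold FP.Pr
  refine FP.E_congr _ fun x hx => ?_
  have hx' : cX D v (t + 1) t c x := ((FP.cond_p_ne (unif_ne (cX_self (t + 1) t c))).1 hx).1
  refine ind_cg ⟨fun h2 => ((H.dg_cell t ht x c.1).1 h2).2, fun h2 => (H.dg_cell t ht x c.1).2 ⟨hx'.2, h2⟩⟩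

end TA

theorem tiny_le (hv : Codes D v) {dg : ℕ → X → ℝ} {prr : ℕ → Fin 3 → φ → φ} {T : ℕ}
    {Lam : ℝ} (H : D.Hyp dg prr al T Lam) {dl : ℝ} (hdl : 0 < dl) (hdl1 : 64 * dl ≤ 1) :
    ∑ t ∈ range T, (D.P h 0).Pr (fun w => ¬ dgq h v dl (2 * t + 1) w) ≤
      64 * dl * ∑ t ∈ range T, (D.P h t).E (fun w => mm (UU v) h dg t w ^ 2) := by
  rw [Finset.mul_sum]
  refine Finset.sum_le_sum fun t ht' => ?_
  have ht : t < T := Finset.mem_range.1 ht'
  set m : Pt (Fin 3) X β φ → ℝ := mm (UU v) h dg t with hm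
  -- the law of the time `t`
  have hpos : Fac (fun w : Pt (Fin 3) X β φ => (w.1, w.2.1)) (fun w => ind (¬ dgq h v dl (2 * t + 1) w)) := by
    intro a b hab
    have h1 : (D.P h 0).m (NPr v D (2 * t + 1)) a = (D.P h 0).m (NPr v D (2 * t + 1)) b := by
      unfold FP.m
      rw [NPr_pos (2 * t + 1) a b hab]
    have h2 : (D.P h 0).m (NPr v D (2 * t + 1 - 1)) a = (D.P h 0).m (NPr v D (2 * t + 1 - 1)) b := by
      unfold FP.m
      rw [NPr_pos (2 * t + 1 - 1) a b hab]
    refine ind_cg (not_congr ?_)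
    unfold dgq
    rw [h1, h2]
  have e0 : (D.P h 0).Pr (fun w => ¬ dgq h v dl (2 * t + 1) w) = (D.P h t).E fun w => ind (¬ dgq h v dl (2 * t + 1) w) :=
    (law0 t hpos).symm
  rw [e0, ← (D.P h t).E_smul]
  set P := D.P h t with hP
  set U := NP (φ := φ) D v (t + 1) t with hU
  have hmU : ∀ w, m w = P.ce U (fun u => dg t u.1) w := fun w => V3.DA.mm_NP h t w
  have hmfac : Fac U m := by
    have h3 : m = P.ce U (fun u => dg t u.1) := funext hmU
    rw [h3]
    exact P.ce_fac U _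
  -- one value of the digit
  have key : ∀ z : ℝ, z = 1 ∨ z = -1 →
      P.E (fun w => ind ((1 + z * m w) / 2 < 8 * dl) * ind (dg t w.1 = z)) ≤ P.E fun w => 32 * dl * m w ^ 2 := by
    intro z hz
    have hf : Fac U (fun w => ind ((1 + z * m w) / 2 < 8 * dl)) := by
      intro a b hab
      show ind ((1 + z * m a) / 2 < 8 * dl) = ind ((1 + z * m b) / 2 < 8 * dl)
      rw [hmfac a b hab]
    rw [← P.E_mul_ce hf]
    refine P.E_mono fun w hw => ?_
    have h4 : P.ce U (fun w => ind (dg t w.1 = z)) w = (1 + z * m w) / 2 := by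
      have h5 : P.ce U (fun w => ind (dg t w.1 = z)) w = P.ce U (fun w => (1 + z * dg t w.1) / 2) w := by
        refine P.ce_congr (fun u _ => ?_) w
        rcases hz with rfl | rfl <;> rcases H.dg_val t u.1 with h6 | h6 <;> rw [h6]
        · rw [ind_of rfl]; norm_num
        · rw [ind_not (by norm_num)]; norm_num
        · rw [ind_not (by norm_num)]; norm_num
        · rw [ind_of rfl]; norm_num
      rw [h5, hmU w]
      have h7 : (fun w : Pt (Fin 3) X β φ => (1 + z * dg t w.1) / 2) = fun w => 1 / 2 + z / 2 * dg t w.1 := by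
        funext w; ring
      rw [h7, P.ce_add, P.ce_smul, P.ce_const U (1 / 2) hw]
      ring
    rw [h4]
    by_cases h8 : (1 + z * m w) / 2 < 8 * dl
    · rw [ind_of h8, one_mul]
      have h9 : z ^ 2 = 1 := by rcases hz with rfl | rfl <;> norm_num
      have h10 : 9 / 16 ≤ m w ^ 2 := by
        have h11 : 3 / 4 ≤ -(z * m w) := by linarith
        have h12 : (3 / 4 : ℝ) ^ 2 ≤ (-(z * m w)) ^ 2 := by
          exact pow_le_pow_left₀ (by norm_num) h11 2
        have h13 : (-(z * m w)) ^ 2 = m w ^ 2 := by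
          calc (-(z * m w)) ^ 2 = z ^ 2 * m w ^ 2 := by ring
            _ = m w ^ 2 := by rw [h9, one_mul]
        rw [h13] at h12
        linarith
      nlinarith
    · rw [ind_not h8, zero_mul]
      positivity
  have k1 := key 1 (Or.inl rfl)
  have k2 := key (-1) (Or.inr rfl)
  have h14 : P.E (fun w => ind (¬ dgq h v dl (2 * t + 1) w)) ≤
      P.E (fun w => ind ((1 + 1 * m w) / 2 < 8 * dl) * ind (dg t w.1 = 1) +
        ind ((1 + (-1) * m w) / 2 < 8 * dl) * ind (dg t w.1 = -1)) := by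
    refine P.E_mono fun w hw => ?_
    by_cases hq : dgq h v dl (2 * t + 1) w
    · rw [ind_not (not_not.2 hq)]
      exact add_nonneg (mul_nonneg (ind_nonneg _) (ind_nonneg _)) (mul_nonneg (ind_nonneg _) (ind_nonneg _))
    · rw [ind_of hq]
      have h15 := TA.child_ge (h := h) hv H ht w
      rw [TA.digit_Pr (h := h) hv H ht hw] at h15
      unfold dgq at hq
      push Not at hq
      obtain ⟨-, hq2⟩ := hq
      have e5 : 2 * t + 1 - 1 = 2 * t := by omega
      rw [e5] at hq2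
      have hM : 0 < (D.P h 0).m (NPr v D (2 * t)) w := by
        rw [TA.NPr_even]
        exact lt_of_le_of_ne (FP.Pr_nonneg _ _) (Ne.symm (cell_ne (h := h) hv 0 le_rfl w))
      have h16 : (1 + dg t w.1 * m w) / 2 < 8 * dl := by
        by_contra hcon
        have h17 := mul_le_mul_of_nonneg_left (not_lt.1 hcon) hM.le
        have h18 : (D.P h 0).m (NPr v D (2 * t)) w * (8 * dl) ≤ 8 * (D.P h 0).m (NPr v D (2 * t + 1)) w := h17.trans h15
        linarith
      rcases H.dg_val t w.1 with h6 | h6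
      · rw [h6] at h16
        rw [ind_of h16, ind_of h6, mul_one]
        have := mul_nonneg (ind_nonneg ((1 + (-1) * m w) / 2 < 8 * dl)) (ind_nonneg (dg t w.1 = -1))
        linarith
      · rw [h6] at h16
        rw [ind_of h16, ind_of h6, mul_one]
        have := mul_nonneg (ind_nonneg ((1 + 1 * m w) / 2 < 8 * dl)) (ind_nonneg (dg t w.1 = 1))
        linarith
  refine h14.trans ?_
  rw [P.E_add]
  refine (add_le_add k1 k2).trans (le_of_eq ?_)
  rw [← P.E_add]
  exact P.E_congr fun w _ => by ring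

end Pool.Agent.GMH.TD
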