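import Pool.Agent.M3.KL
import Pool.Agent.M3.FPMart
import Pool.Agent.M3.S3Vec

/-!
# GMH/AntiHot : LEMMA AH of note 3878 (1)

`P : FP Om` (law of the hidden vertex, everything else exact), `U t` public partition, `F t`, `G t` cumulative labels.
`dr F G U = P(F|U) P(G|U) / P(F,G|U)` at the sample point.
* `ce_dr_birth_left`, `ce_dr_birth_right`, `ce_dr_birth` : births or refinements of `F`, `G` do not increase `dr` in the mean;
* `dr_public` : a refinement `U'` of the public partition: for `0 ≤ h ≤ 1` a function of `(F,G,U)`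
  `E (h dr F G U') ≤ E (h dr F G U) + (Hc F U - Hc F U') + (Hc G U - Hc G U')`;
* `anti_hot` : `c Pr (∃ t ≤ n, c ≤ dr (F t) (G t) (U t)) ≤ E (dr 0) + ∑ (drops of the conditional entropies)`;
* `anti_hot_created` : the same with `Hc F 0 + Hc G 0 +` the entropies created.
-/

set_option autoImplicit false
set_option linter.unusedSectionVars false

namespace Pool.Agent.GMH

open Finset Pool.Agent.PWZ Pool.Agent.M3

variable {Om : Type*} [Fintype Om] {α α' β β' γ γ' : Type*}

noncomputable section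

/-- ratio of the decoupled law and of the true law at the sample point -/
def dr (P : FP Om) (F : Om → α) (G : Om → β) (U : Om → γ) (w : Om) : ℝ :=
  P.m (fun v => (F v, U v)) w * P.m (fun v => (G v, U v)) w / (P.m (fun v => (F v, G v, U v)) w * P.m U w)

end

variable (P : FP Om)

theorem dr_nonneg (F : Om → α) (G : Om → β) (U : Om → γ) (w : Om) : 0 ≤ dr P F G U w :=
  div_nonneg (mul_nonneg (P.m_nonneg _ _) (P.m_nonneg _ _)) (mul_nonneg (P.m_nonneg _ _) (P.m_nonneg _ _))

theorem dr_fac (F : Om → α) (G : Om → β) (U : Om → γ) : Fac (fun v => (F v, G v, U v)) (dr P F G U) := by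
  intro v w h
  obtain ⟨h1, h2, h3⟩ : F v = F w ∧ G v = G w ∧ U v = U w := by
    simpa only [Prod.mk.injEq] using h
  unfold dr
  rw [P.Fac_m (fun v => (F v, U v)) v w (by simp only [h1, h3]), P.Fac_m (fun v => (G v, U v)) v w (by simp only [h2, h3]),
    P.Fac_m (fun v => (F v, G v, U v)) v w h, P.Fac_m U v w h3]

theorem dr_comm (F : Om → α) (G : Om → β) (U : Om → γ) (w : Om) : dr P F G U w = dr P G F U w := by
  unfold dr
  rw [P.m_congr (X := fun v => (F v, G v, U v)) (Y := fun v => (G v, F v, U v))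
    (fun v w h => by simp only [Prod.mk.injEq] at h ⊢; exact ⟨h.2.1, h.1, h.2.2⟩)
    (fun v w h => by simp only [Prod.mk.injEq] at h ⊢; exact ⟨h.2.1, h.1, h.2.2⟩), mul_comm (P.m (fun v => (F v, U v)) w)]

/-- ratio of the mass of a refinement and of the mass with one more label -/
theorem ce_ratio_le {F : Om → α} {F' : Om → α'} {G : Om → β} {U : Om → γ} (hF : Fac (fun v => (F' v, U v)) F) (w : Om) :
    P.ce (fun v => (F v, G v, U v)) (fun v => P.m (fun v => (F' v, U v)) v / P.m (fun v => (F' v, G v, U v)) v) w ≤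
      P.m (fun v => (F v, U v)) w / P.m (fun v => (F v, G v, U v)) w := by
  unfold FP.ce
  refine div_le_div_of_nonneg_right ?_ (P.m_nonneg _ _)
  have h1 : P.E (fun v => ind ((F v, G v, U v) = (F w, G w, U w)) *
      (P.m (fun v => (F' v, U v)) v / P.m (fun v => (F' v, G v, U v)) v)) =
      P.E (fun v => P.E (fun u => ind ((F v, G v, U v) = (F w, G w, U w)) *
        (ind ((F' u, U u) = (F' v, U v)) / P.m (fun v => (F' v, G v, U v)) v))) := by
    refine P.E_congr fun v _ => ?_
    rw [P.E_smul, P.E_div_const]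
    rfl
  rw [h1, P.E_swap]
  refine P.E_mono fun u _ => ?_
  by_cases hu : (F u, U u) = (F w, U w)
  · rw [ind_of hu]
    refine le_trans (P.E_mono (g := fun v => ind ((F' v, G v, U v) = (F' u, G w, U u)) /
      P.m (fun v => (F' v, G v, U v)) v) fun v _ => ?_) (P.E_ind_div_m_le _ _)
    have hm := P.m_nonneg (fun v => (F' v, G v, U v)) v
    by_cases h2 : (F v, G v, U v) = (F w, G w, U w) ∧ (F' u, U u) = (F' v, U v)
    · obtain ⟨h3, h4⟩ := h2
      simp only [Prod.mk.injEq] at h3 h4
      have h5 : (F' v, G v, U v) = (F' u, G w, U u) := by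
        rw [h4.1, h3.2.1, h4.2]
      rw [ind_of h5, ind_of (by simp only [Prod.mk.injEq]; exact h3), ind_of (by simp only [Prod.mk.injEq]; exact h4),
        one_mul]
    · have h3 : ind ((F v, G v, U v) = (F w, G w, U w)) *
          (ind ((F' u, U u) = (F' v, U v)) / P.m (fun v => (F' v, G v, U v)) v) = 0 := by
        rcases not_and_or.1 h2 with h | h
        · rw [ind_not h, zero_mul]
        · rw [ind_not h, zero_div, mul_zero]
      rw [h3]
      exact div_nonneg (ind_nonneg _) hm
  · rw [ind_not hu]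
    refine le_of_eq ?_
    have h2 : P.E (fun v => ind ((F v, G v, U v) = (F w, G w, U w)) *
        (ind ((F' u, U u) = (F' v, U v)) / P.m (fun v => (F' v, G v, U v)) v)) = P.E (fun _ => 0) := by
      refine P.E_congr fun v _ => ?_
      by_cases h2 : (F v, G v, U v) = (F w, G w, U w) ∧ (F' u, U u) = (F' v, U v)
      · obtain ⟨h3, h4⟩ := h2
        exfalso
        apply hu
        have h5 : F u = F v := hF u v h4
        simp only [Prod.mk.injEq] at h3 h4 ⊢
        exact ⟨h5.trans h3.1, h4.2.trans h3.2.2⟩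
      · rcases not_and_or.1 h2 with h | h
        · rw [ind_not h, zero_mul]
        · rw [ind_not h, zero_div, mul_zero]
    rw [h2, P.E_const]

/-- a birth in the first label -/
theorem ce_dr_birth_left {F : Om → α} {F' : Om → α'} (G : Om → β) {U : Om → γ} (hF : Fac (fun v => (F' v, U v)) F) (w : Om) :
    P.ce (fun v => (F v, G v, U v)) (dr P F' G U) w ≤ dr P F G U w := by
  have h1 : P.ce (fun v => (F v, G v, U v)) (dr P F' G U) w =
      P.m (fun v => (G v, U v)) w / P.m U w *
        P.ce (fun v => (F v, G v, U v)) (fun v => P.m (fun v => (F' v, U v)) v / P.m (fun v => (F' v, G v, U v)) v) w := by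
    rw [← P.ce_mul (h := fun v => P.m (fun v => (G v, U v)) v / P.m U v)]
    · refine P.ce_congr (fun v _ => ?_) w
      unfold dr
      rw [div_mul_div_comm]
      congr 1
      · ring
      · ring
    · intro v v' h
      simp only [Prod.mk.injEq] at h
      show P.m (fun v => (G v, U v)) v / P.m U v = P.m (fun v => (G v, U v)) v' / P.m U v'
      rw [P.Fac_m (fun v => (G v, U v)) v v' (by simp only [h.2.1, h.2.2]), P.Fac_m U v v' h.2.2]
  rw [h1]
  refine (mul_le_mul_of_nonneg_left (ce_ratio_le P hF w)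
    (div_nonneg (P.m_nonneg _ _) (P.m_nonneg _ _))).trans (le_of_eq ?_)
  unfold dr
  rw [div_mul_div_comm]
  congr 1
  · ring
  · ring

/-- a birth in the second label -/
theorem ce_dr_birth_right (F : Om → α) {G : Om → β} {G' : Om → β'} {U : Om → γ} (hG : Fac (fun v => (G' v, U v)) G) (w : Om) :
    P.ce (fun v => (F v, G v, U v)) (dr P F G' U) w ≤ dr P F G U w := by
  have h := ce_dr_birth_left P F hG w
  rw [dr_comm P G F] at h
  refine le_trans (le_of_eq ?_) h
  have e : dr P F G' U = dr P G' F U := funext fun v => dr_comm P F G' U v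
  rw [e]
  refine P.ce_congr_map (fun v w h => ?_) (fun v w h => ?_) _ _ <;>
  · simp only [Prod.mk.injEq] at h ⊢
    exact ⟨h.2.1, h.1, h.2.2⟩

/-- births in both labels -/
theorem ce_dr_birth {F : Om → α} {F' : Om → α'} {G : Om → β} {G' : Om → β'} {U : Om → γ}
    (hF : Fac (fun v => (F' v, U v)) F) (hG : Fac (fun v => (G' v, U v)) G) (w : Om) :
    P.ce (fun v => (F v, G v, U v)) (dr P F' G' U) w ≤ dr P F G U w := by
  have hfac : Fac (fun v => (F' v, G v, U v)) (fun v => (F v, G v, U v)) := by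
    intro v w h
    simp only [Prod.mk.injEq] at h ⊢
    exact ⟨hF v w (by simp only [h.1, h.2.2]), h.2.1, h.2.2⟩
  rw [← P.ce_tower hfac (dr P F' G' U) w]
  exact (P.ce_mono (fun v _ => ce_dr_birth_right P F' hG v) w).trans (ce_dr_birth_left P G hF w)

/-! ### public step -/

noncomputable section

/-- probability of the value `k` given `U` -/
def cpr (P : FP Om) (F : Om → α) (k : α) (U : Om → γ) (w : Om) : ℝ := P.ce U (fun v => ind (F v = k)) w

/-- value of `h` (a function of `F, G, U`) at `(f, g, U w)`, zero if this class is empty -/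
def hh (P : FP Om) (F : Om → α) (G : Om → β) (U : Om → γ) (h : Om → ℝ) (f : α) (g : β) (w : Om) : ℝ :=
  P.E (fun v => ind ((F v, G v, U v) = (f, g, U w)) * h v / P.m (fun v => (F v, G v, U v)) v)

end

theorem cpr_nonneg (F : Om → α) (k : α) (U : Om → γ) (w : Om) : 0 ≤ cpr P F k U w :=
  P.ce_nonneg (fun _ _ => ind_nonneg _) w

theorem cpr_fac (F : Om → α) (k : α) (U : Om → γ) : Fac U (cpr P F k U) := P.ce_fac _ _

theorem ind_pair {δ ε : Type*} (a b : δ) (c d : ε) : ind ((a, c) = (b, d)) = ind (a = b) * ind (c = d) := by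
  rw [← ind_and]
  congr 1
  exact propext (Prod.mk.injEq _ _ _ _ ▸ Iff.rfl)

/-- own value -/
theorem cpr_self (F : Om → α) (U : Om → γ) (w : Om) : cpr P F (F w) U w = P.m (fun v => (F v, U v)) w / P.m U w := by
  unfold cpr FP.ce FP.m
  congr 1
  refine P.E_congr fun v _ => ?_
  show ind (U v = U w) * ind (F v = F w) = ind ((F v, U v) = (F w, U w))
  rw [ind_pair, mul_comm]

theorem sum_cpr (F : Om → α) [DecidableEq α] (U : Om → γ) {w : Om} (hw : P.p w ≠ 0) :
    ∑ f ∈ univ.image F, cpr P F f U w = 1 := by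
  unfold cpr
  rw [← P.ce_sum, P.ce_congr (g := fun _ => 1), P.ce_const U 1 hw]
  intro v _
  rw [Finset.sum_eq_single (F v) (fun k _ hk => ind_not (fun h => hk h.symm))
    (fun h => absurd (Finset.mem_image_of_mem F (Finset.mem_univ v)) h), ind_of rfl]

/-- mean of a function of `F` given `U`, value dependent -/
theorem ce_eq_sum (F : Om → α) [DecidableEq α] (U : Om → γ) (k : α → Om → ℝ) (hk : ∀ f, Fac U (k f)) (w : Om) :
    P.ce U (fun v => k (F v) v) w = ∑ f ∈ univ.image F, cpr P F f U w * k f w := by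
  have h1 : ∀ v, k (F v) v = ∑ f ∈ univ.image F, ind (F v = f) * k f v := by
    intro v
    rw [Finset.sum_eq_single (F v) (fun f _ hf => by rw [ind_not (fun h => hf h.symm), zero_mul])
      (fun h => absurd (Finset.mem_image_of_mem F (Finset.mem_univ v)) h), ind_of rfl, one_mul]
  rw [P.ce_congr (g := fun v => ∑ f ∈ univ.image F, ind (F v = f) * k f v) (fun v _ => h1 v), P.ce_sum]
  exact Finset.sum_congr rfl fun f _ => P.ce_mul' (hk f) _ w

theorem hh_fac (F : Om → α) (G : Om → β) (U : Om → γ) (h : Om → ℝ) (f : α) (g : β) : Fac U (hh P F G U h f g) := by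
  intro v w hvw
  unfold hh
  rw [hvw]

theorem hh_of {F : Om → α} {G : Om → β} {U : Om → γ} {h : Om → ℝ} (hf : Fac (fun v => (F v, G v, U v)) h) {w v0 : Om}
    (hv0 : P.p v0 ≠ 0) (hU : U v0 = U w) : hh P F G U h (F v0) (G v0) w = h v0 := by
  unfold hh
  rw [← hU]
  have h1 : P.E (fun v => ind ((F v, G v, U v) = (F v0, G v0, U v0)) * h v / P.m (fun v => (F v, G v, U v)) v) =
      P.E (fun v => ind ((F v, G v, U v) = (F v0, G v0, U v0))) * (h v0 / P.m (fun v => (F v, G v, U v)) v0) := by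
    rw [← P.E_mul_const]
    refine P.E_congr fun v _ => ?_
    by_cases hv : (F v, G v, U v) = (F v0, G v0, U v0)
    · rw [ind_of hv, hf v v0 hv, P.Fac_m (fun v => (F v, G v, U v)) v v0 hv, one_mul, one_mul]
    · rw [ind_not hv, zero_mul, zero_mul, zero_div]
  rw [h1]
  have h2 := P.m_pos (fun v => (F v, G v, U v)) hv0
  show P.m (fun v => (F v, G v, U v)) v0 * _ = _
  field_simp

theorem hh_empty {F : Om → α} {G : Om → β} {U : Om → γ} {h : Om → ℝ} {f : α} {g : β} {w : Om}
    (he : ¬ ∃ v, P.p v ≠ 0 ∧ F v = f ∧ G v = g ∧ U v = U w) : hh P F G U h f g w = 0 := by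
  unfold hh
  rw [P.E_congr (g := fun _ => 0), P.E_const]
  intro v hv
  rw [ind_not, zero_mul, zero_div]
  intro h1
  simp only [Prod.mk.injEq] at h1
  exact he ⟨v, hv, h1.1, h1.2.1, h1.2.2⟩

theorem hh_nonneg {F : Om → α} {G : Om → β} {U : Om → γ} {h : Om → ℝ} (h0 : ∀ w, 0 ≤ h w) (f : α) (g : β) (w : Om) :
    0 ≤ hh P F G U h f g w :=
  P.E_nonneg fun v _ => div_nonneg (mul_nonneg (ind_nonneg _) (h0 v)) (P.m_nonneg _ _)

theorem hh_le_one {F : Om → α} {G : Om → β} {U : Om → γ} {h : Om → ℝ} (hf : Fac (fun v => (F v, G v, U v)) h)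
    (h1 : ∀ w, h w ≤ 1) (f : α) (g : β) (w : Om) : hh P F G U h f g w ≤ 1 := by
  by_cases he : ∃ v, P.p v ≠ 0 ∧ F v = f ∧ G v = g ∧ U v = U w
  · obtain ⟨v, hv, rfl, rfl, hU⟩ := he
    rw [hh_of P hf hv hU]
    exact h1 v
  · rw [hh_empty P he]
    norm_num

/-- a finer public partition: fewer values -/
theorem hh_mono {F : Om → α} {G : Om → β} {U : Om → γ} {U' : Om → γ'} (hU : Fac U' U) {h : Om → ℝ}
    (hf : Fac (fun v => (F v, G v, U v)) h) (h0 : ∀ w, 0 ≤ h w) (f : α) (g : β) (w : Om) :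
    hh P F G U' h f g w ≤ hh P F G U h f g w := by
  by_cases he : ∃ v, P.p v ≠ 0 ∧ F v = f ∧ G v = g ∧ U' v = U' w
  · obtain ⟨v, hv, rfl, rfl, hU'⟩ := he
    have hf' : Fac (fun v => (F v, G v, U' v)) h := by
      refine Fac.trans (fun a b hab => ?_) hf
      simp only [Prod.mk.injEq] at hab ⊢
      exact ⟨hab.1, hab.2.1, hU a b hab.2.2⟩
    rw [hh_of P hf' hv hU', hh_of P hf hv (hU v w hU')]
  · rw [hh_empty P he]
    exact hh_nonneg P h0 f g w

/-- the mean of `h dr` as a sum over the values -/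
theorem E_mul_dr (F : Om → α) [DecidableEq α] (G : Om → β) [DecidableEq β] (U : Om → γ) (h : Om → ℝ) :
    P.E (fun w => h w * dr P F G U w) =
      P.E (fun w => ∑ f ∈ univ.image F, ∑ g ∈ univ.image G, hh P F G U h f g w * (cpr P F f U w * cpr P G g U w)) := by
  have h1 : ∀ w, ∑ f ∈ univ.image F, ∑ g ∈ univ.image G, hh P F G U h f g w * (cpr P F f U w * cpr P G g U w) =
      P.E (fun v => ind (U v = U w) * (h v / P.m (fun v => (F v, G v, U v)) v *
        (cpr P F (F v) U v * cpr P G (G v) U v))) := by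
    intro w
    unfold hh
    have h2 : ∀ f ∈ univ.image F, ∀ g ∈ univ.image G,
        P.E (fun v => ind ((F v, G v, U v) = (f, g, U w)) * h v / P.m (fun v => (F v, G v, U v)) v) *
          (cpr P F f U w * cpr P G g U w) =
        P.E (fun v => ind (F v = f) * (ind (G v = g) * (ind (U v = U w) * (h v / P.m (fun v => (F v, G v, U v)) v *
          (cpr P F (F v) U v * cpr P G (G v) U v))))) := by
      intro f _ g _
      rw [← P.E_mul_const]
      refine P.E_congr fun v _ => ?_
      by_cases hv : (F v, G v, U v) = (f, g, U w)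
      · rw [ind_of hv]
        simp only [Prod.mk.injEq] at hv
        rw [ind_of hv.1, ind_of hv.2.1, ind_of hv.2.2, hv.1, hv.2.1, cpr_fac P F f U v w hv.2.2,
          cpr_fac P G g U v w hv.2.2]
        ring
      · rw [ind_not hv]
        have h3 : ind (F v = f) * (ind (G v = g) * (ind (U v = U w) * (h v / P.m (fun v => (F v, G v, U v)) v *
          (cpr P F (F v) U v * cpr P G (G v) U v)))) = 0 := by
          by_cases a : F v = f
          · by_cases b : G v = g
            · have c : ¬ U v = U w := fun c => hv (by rw [a, b, c])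
              rw [ind_not c, zero_mul, mul_zero, mul_zero]
            · rw [ind_not b, zero_mul, mul_zero]
          · rw [ind_not a, zero_mul]
        rw [h3, zero_mul, zero_div, zero_mul]
    rw [Finset.sum_congr rfl fun f hf => Finset.sum_congr rfl fun g hg => h2 f hf g hg]
    have h3 : ∀ f ∈ univ.image F, ∑ g ∈ univ.image G, P.E (fun v => ind (F v = f) * (ind (G v = g) *
        (ind (U v = U w) * (h v / P.m (fun v => (F v, G v, U v)) v * (cpr P F (F v) U v * cpr P G (G v) U v))))) =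
        P.E (fun v => ind (F v = f) * (ind (U v = U w) * (h v / P.m (fun v => (F v, G v, U v)) v *
          (cpr P F (F v) U v * cpr P G (G v) U v)))) := by
      intro f _
      rw [← P.E_sum]
      refine P.E_congr fun v _ => ?_
      rw [← Finset.mul_sum]
      congr 1
      rw [Finset.sum_eq_single (G v) (fun k _ hk => by rw [ind_not (fun h => hk h.symm), zero_mul])
        (fun h => absurd (Finset.mem_image_of_mem G (Finset.mem_univ v)) h), ind_of rfl, one_mul]
    rw [Finset.sum_congr rfl h3, ← P.E_sum]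
    refine P.E_congr fun v _ => ?_
    rw [Finset.sum_eq_single (F v) (fun k _ hk => by rw [ind_not (fun h => hk h.symm), zero_mul])
      (fun h => absurd (Finset.mem_image_of_mem F (Finset.mem_univ v)) h), ind_of rfl, one_mul]
  have h4 : P.E (fun w => ∑ f ∈ univ.image F, ∑ g ∈ univ.image G, hh P F G U h f g w * (cpr P F f U w * cpr P G g U w)) =
      P.E (fun w => P.E (fun v => ind (U v = U w) * (h v / P.m (fun v => (F v, G v, U v)) v *
        (cpr P F (F v) U v * cpr P G (G v) U v)))) := P.E_congr fun w _ => h1 w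
  rw [h4, P.E_swap]
  refine P.E_congr fun v hv => ?_
  rw [P.E_mul_const]
  have h5 : P.E (fun w => ind (U v = U w)) = P.m U v := by
    refine P.E_congr fun w _ => ?_
    show ind (U v = U w) = ind (U w = U v)
    congr 1
    exact propext eq_comm
  rw [h5, cpr_self, cpr_self]
  unfold dr
  have h6 := (P.m_pos U hv).ne'
  have h7 := (P.m_pos (fun v => (F v, G v, U v)) hv).ne'
  field_simp

/-- Pinsker for the whole vector -/
theorem pinsker_abs {κ : Type*} (S : Finset κ) {p q : κ → ℝ} (hp : ∀ v ∈ S, 0 ≤ p v) (hq : ∀ v ∈ S, 0 ≤ q v)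
    (hp1 : ∑ v ∈ S, p v = 1) (hq1 : ∑ v ∈ S, q v = 1) (hac : ∀ v ∈ S, q v = 0 → p v = 0) :
    (∑ v ∈ S, |p v - q v|) ^ 2 ≤ 2 * ∑ v ∈ S, p v * Real.log (p v / q v) := by
  have h := pinsker_vec S (d := fun v => if 0 ≤ p v - q v then 1 else -1) hp hq hp1 hq1 hac (fun v _ => by
    show (if 0 ≤ p v - q v then (1 : ℝ) else -1) = 1 ∨ (if 0 ≤ p v - q v then (1 : ℝ) else -1) = -1
    split_ifs
    · exact Or.inl rfl
    · exact Or.inr rfl)
  rw [← Finset.sum_sub_distrib] at h
  have h1 : ∑ v ∈ S, |p v - q v| = ∑ v ∈ S, (p v * (if 0 ≤ p v - q v then 1 else -1) -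
      q v * (if 0 ≤ p v - q v then 1 else -1)) := by
    refine Finset.sum_congr rfl fun v _ => ?_
    split_ifs with h1
    · rw [abs_of_nonneg h1]; ring
    · rw [abs_of_neg (not_le.1 h1)]; ring
  rw [h1]
  exact h

/-- entropy drop = mean relative entropy -/
theorem E_kl_eq (F : Om → α) [DecidableEq α] {U : Om → γ} {U' : Om → γ'} (hU : Fac U' U) :
    P.E (fun w => ∑ f ∈ univ.image F, cpr P F f U' w * Real.log (cpr P F f U' w / cpr P F f U w)) =
      P.Hc F U - P.Hc F U' := by
  have h1 : ∀ w, ∑ f ∈ univ.image F, cpr P F f U' w * Real.log (cpr P F f U' w / cpr P F f U w) =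
      P.ce U' (fun v => Real.log (cpr P F (F v) U' v / cpr P F (F v) U v)) w := by
    intro w
    exact (ce_eq_sum P F U' (fun f v => Real.log (cpr P F f U' v / cpr P F f U v)) (fun f v v' h => by
      show Real.log (cpr P F f U' v / cpr P F f U v) = Real.log (cpr P F f U' v' / cpr P F f U v')
      rw [cpr_fac P F f U' v v' h, cpr_fac P F f U v v' (hU v v' h)]) w).symm
  rw [P.E_congr (fun w _ => h1 w), P.E_ce]
  unfold FP.Hc FP.H
  rw [← P.E_sub, ← P.E_sub, ← P.E_sub]
  refine P.E_congr fun w hw => ?_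
  rw [cpr_self, cpr_self]
  have a := (P.m_pos U hw)
  have b := (P.m_pos U' hw)
  have c := (P.m_pos (fun v => (F v, U v)) hw)
  have d := (P.m_pos (fun v => (F v, U' v)) hw)
  rw [Real.log_div (div_pos d b).ne' (div_pos c a).ne', Real.log_div d.ne' b.ne', Real.log_div c.ne' a.ne']
  ring

theorem cpr_pos_of {F : Om → α} {f : α} {U : Om → γ} {U' : Om → γ'} (hU : Fac U' U) {w : Om} (hw : P.p w ≠ 0)
    (h : cpr P F f U w = 0) : cpr P F f U' w = 0 := by
  unfold cpr FP.ce at h ⊢
  have hm := (P.m_pos U hw).ne'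
  rw [div_eq_zero_iff] at h
  have h1 := h.resolve_right hm
  rw [div_eq_zero_iff]
  left
  refine le_antisymm ?_ (P.E_nonneg fun v _ => mul_nonneg (ind_nonneg _) (ind_nonneg _))
  rw [← h1]
  refine P.E_mono fun v _ => mul_le_mul_of_nonneg_right (ind_mono fun h2 => hU v w h2) (ind_nonneg _)

theorem cpr_mart {U : Om → γ} {U' : Om → γ'} (hU : Fac U' U) (F : Om → α) (f : α) {k : Om → ℝ} (hk : Fac U k) :
    P.E (fun w => k w * (cpr P F f U' w - cpr P F f U w)) = 0 := by
  have e1 := P.E_mul_ce (X := U) (h := k) hk (fun v => ind (F v = f))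
  have e2 := P.E_mul_ce (X := U') (h := k) (hU.trans hk) (fun v => ind (F v = f))
  have e3 : P.E (fun w => k w * (cpr P F f U' w - cpr P F f U w)) =
      P.E (fun w => k w * cpr P F f U' w) - P.E (fun w => k w * cpr P F f U w) := by
    rw [← P.E_sub]
    exact P.E_congr fun w _ => by ring
  rw [e3]
  show P.E (fun w => k w * P.ce U' (fun v => ind (F v = f)) w) - P.E (fun w => k w * P.ce U (fun v => ind (F v = f)) w) = 0
  rw [e1, e2, sub_self]

/-- **the public step** -/
theorem dr_public (F : Om → α) (G : Om → β) {U : Om → γ} {U' : Om → γ'} (hU : Fac U' U) {h : Om → ℝ}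
    (hf : Fac (fun v => (F v, G v, U v)) h) (h0 : ∀ w, 0 ≤ h w) (h1 : ∀ w, h w ≤ 1) :
    P.E (fun w => h w * dr P F G U' w) ≤
      P.E (fun w => h w * dr P F G U w) + ((P.Hc F U - P.Hc F U') + (P.Hc G U - P.Hc G U')) := by
  classical
  rw [E_mul_dr, E_mul_dr, ← E_kl_eq P F hU, ← E_kl_eq P G hU, ← P.E_add, ← P.E_add]
  -- the weight of the coarse partition in the fine sum
  have ha : P.E (fun w => ∑ f ∈ univ.image F, ∑ g ∈ univ.image G, hh P F G U' h f g w * (cpr P F f U' w * cpr P G g U' w)) ≤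
      P.E (fun w => ∑ f ∈ univ.image F, ∑ g ∈ univ.image G, hh P F G U h f g w * (cpr P F f U' w * cpr P G g U' w)) := by
    refine P.E_mono fun w _ => Finset.sum_le_sum fun f _ => Finset.sum_le_sum fun g _ => ?_
    exact mul_le_mul_of_nonneg_right (hh_mono P hU hf h0 f g w)
      (mul_nonneg (cpr_nonneg P F f U' w) (cpr_nonneg P G g U' w))
  refine ha.trans ?_
  have hb : P.E (fun w => ∑ f ∈ univ.image F, ∑ g ∈ univ.image G, hh P F G U h f g w * (cpr P F f U' w * cpr P G g U' w)) =
      P.E (fun w => ∑ f ∈ univ.image F, ∑ g ∈ univ.image G, hh P F G U h f g w * (cpr P F f U w * cpr P G g U w)) +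
      P.E (fun w => ∑ f ∈ univ.image F, ∑ g ∈ univ.image G, hh P F G U h f g w *
        ((cpr P F f U' w - cpr P F f U w) * (cpr P G g U' w - cpr P G g U w))) := by
    have e0 : P.E (fun w => ∑ f ∈ univ.image F, ∑ g ∈ univ.image G,
        ((hh P F G U h f g w * cpr P G g U w) * (cpr P F f U' w - cpr P F f U w) +
          (hh P F G U h f g w * cpr P F f U w) * (cpr P G g U' w - cpr P G g U w))) = 0 := by
      rw [P.E_sum]
      refine Finset.sum_eq_zero fun f _ => ?_
      rw [P.E_sum]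
      refine Finset.sum_eq_zero fun g _ => ?_
      rw [P.E_add, cpr_mart P hU F f ((hh_fac P F G U h f g).mul (cpr_fac P G g U)),
        cpr_mart P hU G g ((hh_fac P F G U h f g).mul (cpr_fac P F f U)), add_zero]
    rw [← add_zero (P.E _ + P.E _), ← e0, ← P.E_add, ← P.E_add]
    refine P.E_congr fun w _ => ?_
    rw [← Finset.sum_add_distrib, ← Finset.sum_add_distrib]
    refine Finset.sum_congr rfl fun f _ => ?_
    rw [← Finset.sum_add_distrib, ← Finset.sum_add_distrib]
    refine Finset.sum_congr rfl fun g _ => ?_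
    ring
  rw [hb, ← P.E_add]
  refine P.E_mono fun w hw => ?_
  have hA := pinsker_abs (univ.image F) (p := fun f => cpr P F f U' w) (q := fun f => cpr P F f U w)
    (fun f _ => cpr_nonneg P F f U' w) (fun f _ => cpr_nonneg P F f U w) (sum_cpr P F U' hw) (sum_cpr P F U hw)
    (fun f _ h => cpr_pos_of P hU hw h)
  have hB := pinsker_abs (univ.image G) (p := fun f => cpr P G f U' w) (q := fun f => cpr P G f U w)
    (fun f _ => cpr_nonneg P G f U' w) (fun f _ => cpr_nonneg P G f U w) (sum_cpr P G U' hw) (sum_cpr P G U hw)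
    (fun f _ h => cpr_pos_of P hU hw h)
  set A := ∑ f ∈ univ.image F, |cpr P F f U' w - cpr P F f U w| with hAd
  set B := ∑ g ∈ univ.image G, |cpr P G g U' w - cpr P G g U w| with hBd
  have hC : ∑ f ∈ univ.image F, ∑ g ∈ univ.image G, hh P F G U h f g w *
        ((cpr P F f U' w - cpr P F f U w) * (cpr P G g U' w - cpr P G g U w)) ≤ A * B := by
    rw [hAd, hBd, Finset.sum_mul_sum]
    refine Finset.sum_le_sum fun f _ => Finset.sum_le_sum fun g _ => ?_
    refine (le_abs_self _).trans ?_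
    rw [abs_mul, abs_mul, abs_of_nonneg (hh_nonneg P h0 f g w)]
    exact mul_le_of_le_one_left (mul_nonneg (abs_nonneg _) (abs_nonneg _)) (hh_le_one P hf h1 f g w)
  nlinarith [sq_nonneg (A - B), hA, hB, hC]

/-! ### all steps -/

variable {κ1 κ2 κ3 : ℕ → Type*} {F : ∀ t, Om → κ1 t} {G : ∀ t, Om → κ2 t} {U : ∀ t, Om → κ3 t}

/-- **LEMMA AH, drops of the conditional entropies** -/
theorem anti_hot (hU : ∀ t, Fac (U (t + 1)) (U t)) (hF : ∀ t, Fac (fun v => (F (t + 1) v, U (t + 1) v)) (F t))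
    (hG : ∀ t, Fac (fun v => (G (t + 1) v, U (t + 1) v)) (G t)) (n : ℕ) {c : ℝ} (hc : 0 ≤ c) :
    c * P.Pr (fun w => ∃ t ≤ n, c ≤ dr P (F t) (G t) (U t) w) ≤ P.E (dr P (F 0) (G 0) (U 0)) +
      ∑ t ∈ range n, ((P.Hc (F t) (U t) - P.Hc (F t) (U (t + 1))) + (P.Hc (G t) (U t) - P.Hc (G t) (U (t + 1)))) := by
  set X : ∀ t, Om → κ1 t × κ2 t × κ3 t := fun t v => (F t v, G t v, U t v) with hX
  have hfilt : Filt X := by
    intro t v w h
    simp only [hX, Prod.mk.injEq] at h ⊢
    exact ⟨hF t v w (by simp only [h.1, h.2.2]), hG t v w (by simp only [h.2.1, h.2.2]), hU t v w h.2.2⟩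
  set Z : ℕ → Om → ℝ := fun t => dr P (F t) (G t) (U t) with hZ
  set s : ℕ → Om → ℝ := fun t w => max 0 (P.ce (X t) (Z (t + 1)) w - Z t w) with hs
  have h1 := P.doob_super hfilt (Z := Z) (s := s) (fun t => dr_fac P (F t) (G t) (U t))
    (fun t w _ => dr_nonneg P _ _ _ w) (fun t w _ => le_max_left _ _)
    (fun t w _ => by have := le_max_right 0 (P.ce (X t) (Z (t + 1)) w - Z t w); linarith) n hc
  refine h1.trans (add_le_add le_rfl (Finset.sum_le_sum fun t _ => ?_))
  -- the mean of the input at time `t`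
  set h : Om → ℝ := fun w => ind (0 < P.ce (X t) (Z (t + 1)) w - Z t w) with hh'
  have hfac : Fac (X t) h := by
    refine Fac.ind fun v w hvw => ?_
    have e0 : Z t v = Z t w := dr_fac P (F t) (G t) (U t) v w hvw
    rw [P.ce_fac (X t) (Z (t + 1)) v w hvw, e0]
  have e1 : P.E (s t) = P.E (fun w => h w * Z (t + 1) w) - P.E (fun w => h w * Z t w) := by
    rw [← P.E_mul_ce hfac, ← P.E_sub]
    refine P.E_congr fun w _ => ?_
    show max 0 (P.ce (X t) (Z (t + 1)) w - Z t w) = ind (0 < P.ce (X t) (Z (t + 1)) w - Z t w) *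
      P.ce (X t) (Z (t + 1)) w - ind (0 < P.ce (X t) (Z (t + 1)) w - Z t w) * Z t w
    by_cases hpos : 0 < P.ce (X t) (Z (t + 1)) w - Z t w
    · rw [max_eq_right hpos.le, ind_of hpos]; ring
    · rw [max_eq_left (not_lt.1 hpos), ind_not hpos]; ring
  rw [e1]
  -- the births after the public step
  have e2 : P.E (fun w => h w * Z (t + 1) w) ≤ P.E (fun w => h w * dr P (F t) (G t) (U (t + 1)) w) := by
    have hfac' : Fac (fun v => (F t v, G t v, U (t + 1) v)) h := by
      refine Fac.trans (fun a b hab => ?_) hfac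
      simp only [hX, Prod.mk.injEq] at hab ⊢
      exact ⟨hab.1, hab.2.1, hU t a b hab.2.2⟩
    rw [← P.E_mul_ce hfac']
    refine P.E_mono fun w _ => mul_le_mul_of_nonneg_left ?_ (ind_nonneg _)
    exact ce_dr_birth P (hF t) (hG t) w
  have e3 := dr_public P (F t) (G t) (hU t) hfac (fun w => ind_nonneg _) (fun w => ind_le_one _)
  have e4 : P.E (fun w => h w * Z t w) = P.E (fun w => h w * dr P (F t) (G t) (U t) w) := rfl
  linarith

/-- with trivial starting labels the ratio is one -/
theorem dr_start {F : Om → α} {G : Om → β} {U : Om → γ} (hF : Fac U F) (hG : Fac U G) {w : Om} (hw : P.p w ≠ 0) :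
    dr P F G U w = 1 := by
  unfold dr
  rw [P.m_congr (X := fun v => (F v, U v)) (Y := U) (fun v w h => by simp only [Prod.mk.injEq] at h; exact h.2)
    (fun v w h => by simp only [Prod.mk.injEq]; exact ⟨hF v w h, h⟩),
    P.m_congr (X := fun v => (G v, U v)) (Y := U) (fun v w h => by simp only [Prod.mk.injEq] at h; exact h.2)
    (fun v w h => by simp only [Prod.mk.injEq]; exact ⟨hG v w h, h⟩),
    P.m_congr (X := fun v => (F v, G v, U v)) (Y := U) (fun v w h => by simp only [Prod.mk.injEq] at h; exact h.2.2)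
    (fun v w h => by simp only [Prod.mk.injEq]; exact ⟨hF v w h, hG v w h, h⟩)]
  have := (P.m_pos U hw).ne'
  field_simp

/-- **LEMMA AH**: entropies ever created (`cF t`, `cG t` = entropy created at the step `t`, given the new public
partition) -/
theorem anti_hot_created (hU : ∀ t, Fac (U (t + 1)) (U t)) (hF : ∀ t, Fac (fun v => (F (t + 1) v, U (t + 1) v)) (F t))
    (hG : ∀ t, Fac (fun v => (G (t + 1) v, U (t + 1) v)) (G t)) (hF0 : Fac (U 0) (F 0)) (hG0 : Fac (U 0) (G 0)) (n : ℕ)
    {c : ℝ} (hc : 0 ≤ c) :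
    c * P.Pr (fun w => ∃ t ≤ n, c ≤ dr P (F t) (G t) (U t) w) ≤ 1 +
      ∑ t ∈ range n, ((P.Hc (F (t + 1)) (U (t + 1)) - P.Hc (F t) (U (t + 1))) +
        (P.Hc (G (t + 1)) (U (t + 1)) - P.Hc (G t) (U (t + 1)))) := by
  refine (anti_hot P hU hF hG n hc).trans ?_
  have h0 : P.E (dr P (F 0) (G 0) (U 0)) = 1 := by
    rw [P.E_congr (g := fun _ => 1) (fun w hw => dr_start P hF0 hG0 hw), P.E_const]
  have h1 : P.Hc (F 0) (U 0) = 0 := by
    unfold FP.Hc
    rw [P.H_congr (X := fun w => (F 0 w, U 0 w)) (Y := U 0) (fun v w h => by simp only [Prod.mk.injEq] at h; exact h.2)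
      (fun v w h => by simp only [Prod.mk.injEq]; exact ⟨hF0 v w h, h⟩), sub_self]
  have h2 : P.Hc (G 0) (U 0) = 0 := by
    unfold FP.Hc
    rw [P.H_congr (X := fun w => (G 0 w, U 0 w)) (Y := U 0) (fun v w h => by simp only [Prod.mk.injEq] at h; exact h.2)
      (fun v w h => by simp only [Prod.mk.injEq]; exact ⟨hG0 v w h, h⟩), sub_self]
  have h3 : ∀ n, ∑ t ∈ range n, ((P.Hc (F t) (U t) - P.Hc (F t) (U (t + 1))) + (P.Hc (G t) (U t) - P.Hc (G t) (U (t + 1)))) =
      ∑ t ∈ range n, ((P.Hc (F (t + 1)) (U (t + 1)) - P.Hc (F t) (U (t + 1))) +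
        (P.Hc (G (t + 1)) (U (t + 1)) - P.Hc (G t) (U (t + 1)))) - P.Hc (F n) (U n) - P.Hc (G n) (U n) := by
    intro n
    induction n with
    | zero => simp [h1, h2]
    | succ n ih => rw [Finset.sum_range_succ, Finset.sum_range_succ, ih]; ring
  rw [h0, h3]
  have h4 := P.Hc_nonneg (F n) (U n)
  have h5 := P.Hc_nonneg (G n) (U n)
  linarith

end Pool.Agent.GMH
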