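import Pool.Agent.GMH.Stmt
import Pool.Agent.GMH.AntiHot

/-!
# GMH.Dead: dead thin letters are rare (helper21)

`surp h v s J w` = surprisal of the label of `J` after the split of the time `s`, node `s`; `surpD h v s J w` = the same label
with the node `s + 1`; `AlD X0 t w` = `Al X0 t w` and all `surpD` of the times `s < t` at most `X0`.

* `Dead.sq_max` (one finite space, `U` refining, `L` refining given `U`): the probability that `log (m U_k / m (L_k, U_k))`
  passes `X0` at some `k ≤ n` is at most `exp (-X0/2) + 2 (Hc L_0 U_0 + ∑ Hc L_(k+1) (L_k, U_(k+1))) / X0`;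
* `Dead.E_time`, `m_time`, `Hc_time` : functions of the points only have the same law at every time;
* `dead_thin` : the bound for any index set `J` which contains no top letter;
* `deadD_le`, `dead_le` : the union over the singletons; `deadD_run`, `dead_run` : the same for a run, prices `pr3 K n N1`.
-/

set_option autoImplicit false
set_option linter.unusedSectionVars false

namespace Pool.Agent.GMH

open Finset Pool.Agent.PWZ Pool.Agent.M3 Pool.Agent.GM Pool.Agent.GM.Harm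

namespace Dead

/-! ## one finite space -/

section one

variable {Om : Type*} [Fintype Om] (P : FP Om) {α α' γ γ' : Type*}

/-- surprisal of `L` given `U` -/
noncomputable def sq (L : Om → α) (U : Om → γ) (w : Om) : ℝ := Real.log (P.m U w / P.m (fun v => (L v, U v)) w)

/-- factor of the step of the condition -/
noncomputable def rr (L : Om → α) (U : Om → γ) (U' : Om → γ') (w : Om) : ℝ :=
  P.m U' w * P.m (fun v => (L v, U v)) w / (P.m U w * P.m (fun v => (L v, U' v)) w)

theorem rr_nonneg (L : Om → α) (U : Om → γ) (U' : Om → γ') (w : Om) : 0 ≤ rr P L U U' w :=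
  div_nonneg (mul_nonneg (P.m_nonneg _ _) (P.m_nonneg _ _)) (mul_nonneg (P.m_nonneg _ _) (P.m_nonneg _ _))

theorem rr_pos (L : Om → α) (U : Om → γ) (U' : Om → γ') {w : Om} (hw : P.p w ≠ 0) : 0 < rr P L U U' w :=
  div_pos (mul_pos (P.m_pos _ hw) (P.m_pos _ hw)) (mul_pos (P.m_pos _ hw) (P.m_pos _ hw))

/-- the mean of the factor is at most one -/
theorem ce_rr_le {L : Om → α} {U : Om → γ} {U' : Om → γ'} (hU : Fac U' U) {w : Om} (hw : P.p w ≠ 0) :
    P.ce (fun v => (L v, U v)) (rr P L U U') w ≤ 1 := by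
  have h1 := ce_ratio_le P (F := fun _ : Om => ()) (F' := U') (G := L) (U := U) (fun _ _ _ => rfl) w
  have e1 : ∀ w, P.m (fun v => ((), U v)) w = P.m U w :=
    P.m_congr (fun a b hab => (Prod.mk.inj hab).2) (fun a b hab => by simp only [hab])
  have e2 : ∀ w, P.m (fun v => ((), L v, U v)) w = P.m (fun v => (L v, U v)) w :=
    P.m_congr (fun a b hab => (Prod.mk.inj hab).2) (fun a b hab => by simp only [hab])
  have e3 : ∀ w, P.m (fun v => (U' v, U v)) w = P.m U' w :=
    P.m_congr (fun a b hab => (Prod.mk.inj hab).1) (fun a b hab => by simp only [hab, hU a b hab])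
  have e4 : ∀ w, P.m (fun v => (U' v, L v, U v)) w = P.m (fun v => (L v, U' v)) w :=
    P.m_congr (fun a b hab => by simp only [Prod.mk.injEq] at hab ⊢; exact ⟨hab.2.1, hab.1⟩)
      (fun a b hab => by simp only [Prod.mk.injEq] at hab ⊢; exact ⟨hab.2, hab.1, hU a b hab.2⟩)
  simp only [e1, e2, e3, e4] at h1
  rw [P.ce_congr_map (Y := fun v => (L v, U v)) (fun a b hab => (Prod.mk.inj hab).2)
    (fun a b hab => by simp only [hab])] at h1
  have p1 := P.m_pos U hw
  have p2 := P.m_pos (fun v => (L v, U v)) hw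
  have e5 : P.ce (fun v => (L v, U v)) (rr P L U U') w = P.m (fun v => (L v, U v)) w / P.m U w *
      P.ce (fun v => (L v, U v)) (fun v => P.m U' v / P.m (fun v => (L v, U' v)) v) w := by
    rw [← P.ce_mul (h := fun v => P.m (fun v => (L v, U v)) v / P.m U v)]
    · refine P.ce_congr (fun v _ => ?_) w
      unfold rr
      rw [div_mul_div_comm, mul_comm (P.m U' v)]
    · intro a b hab
      have h2 : U a = U b := (Prod.mk.inj hab).2
      show P.m (fun v => (L v, U v)) a / P.m U a = P.m (fun v => (L v, U v)) b / P.m U b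
      rw [P.Fac_m (fun v => (L v, U v)) a b hab, P.Fac_m U a b h2]
  rw [e5]
  refine (mul_le_mul_of_nonneg_left h1 (div_nonneg p2.le p1.le)).trans (le_of_eq ?_)
  field_simp

/-- the surprisal of the refinement -/
noncomputable def bb (L : Om → α) (L' : Om → α') (U' : Om → γ') (w : Om) : ℝ :=
  Real.log (P.m (fun v => (L v, U' v)) w / P.m (fun v => (L' v, U' v)) w)

theorem bb_nonneg {L : Om → α} {L' : Om → α'} {U' : Om → γ'} (hL : Fac (fun v => (L' v, U' v)) L) {w : Om}
    (hw : P.p w ≠ 0) : 0 ≤ bb P L L' U' w := by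
  refine Real.log_nonneg ?_
  rw [le_div_iff₀ (P.m_pos _ hw), one_mul]
  exact P.m_anti (hL.prod (Fac.snd _ _)) w

theorem E_bb {L : Om → α} {L' : Om → α'} {U' : Om → γ'} (hL : Fac (fun v => (L' v, U' v)) L) :
    P.E (bb P L L' U') = P.Hc L' (fun v => (L v, U' v)) := by
  unfold FP.Hc FP.H
  rw [← P.E_sub]
  refine P.E_congr fun w hw => ?_
  have e : P.m (fun v => (L' v, L v, U' v)) w = P.m (fun v => (L' v, U' v)) w :=
    P.m_congr (fun a b hab => by simp only [Prod.mk.injEq] at hab ⊢; exact ⟨hab.1, hab.2.2⟩)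
      (fun a b hab => by
        have h1 := hL a b hab
        simp only [Prod.mk.injEq] at hab ⊢
        exact ⟨hab.1, h1, hab.2⟩) w
  unfold bb
  rw [e, Real.log_div (P.m_pos _ hw).ne' (P.m_pos _ hw).ne']
  ring

theorem E_sq (L : Om → α) (U : Om → γ) : P.E (sq P L U) = P.Hc L U := by
  unfold FP.Hc FP.H
  rw [← P.E_sub]
  refine P.E_congr fun w hw => ?_
  unfold sq
  rw [Real.log_div (P.m_pos _ hw).ne' (P.m_pos _ hw).ne']
  ring

theorem sq_nonneg (L : Om → α) (U : Om → γ) {w : Om} (hw : P.p w ≠ 0) : 0 ≤ sq P L U w := by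
  refine Real.log_nonneg ?_
  rw [le_div_iff₀ (P.m_pos _ hw), one_mul]
  exact P.m_anti (Fac.snd _ _) w

/-- one step -/
theorem sq_step (L : Om → α) (L' : Om → α') (U : Om → γ) (U' : Om → γ') {w : Om} (hw : P.p w ≠ 0) :
    sq P L' U' w = sq P L U w + Real.log (rr P L U U' w) + bb P L L' U' w := by
  have p1 := (P.m_pos U hw).ne'
  have p2 := (P.m_pos U' hw).ne'
  have p3 := (P.m_pos (fun v => (L v, U v)) hw).ne'
  have p4 := (P.m_pos (fun v => (L v, U' v)) hw).ne'
  have p5 := (P.m_pos (fun v => (L' v, U' v)) hw).ne'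
  unfold sq rr bb
  rw [Real.log_div p2 p5, Real.log_div p1 p3, Real.log_div (mul_ne_zero p2 p3) (mul_ne_zero p1 p4),
    Real.log_mul p2 p3, Real.log_mul p1 p4, Real.log_div p4 p5]
  ring

variable {κ1 κ2 : ℕ → Type*} (L : ∀ k, Om → κ1 k) (U : ∀ k, Om → κ2 k)

/-- product of the factors -/
noncomputable def ZZ (k : ℕ) (w : Om) : ℝ := ∏ j ∈ range k, rr P (L j) (U j) (U (j + 1)) w

/-- sum of the surprisals of the refinements -/
noncomputable def SB (k : ℕ) (w : Om) : ℝ := sq P (L 0) (U 0) w + ∑ j ∈ range k, bb P (L j) (L (j + 1)) (U (j + 1)) w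

variable {L U}

theorem sq_eq (k : ℕ) {w : Om} (hw : P.p w ≠ 0) : sq P (L k) (U k) w = Real.log (ZZ P L U k w) + SB P L U k w := by
  induction k with
  | zero =>
    unfold ZZ SB
    rw [Finset.range_zero, Finset.prod_empty, Finset.sum_empty, Real.log_one]
    ring
  | succ k ih =>
    have p0 : 0 < ZZ P L U k w := Finset.prod_pos fun j _ => rr_pos P _ _ _ hw
    have e1 : ZZ P L U (k + 1) w = ZZ P L U k w * rr P (L k) (U k) (U (k + 1)) w := Finset.prod_range_succ _ _
    have e2 : SB P L U (k + 1) w = SB P L U k w + bb P (L k) (L (k + 1)) (U (k + 1)) w := by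
      unfold SB
      rw [Finset.sum_range_succ]
      ring
    rw [sq_step P (L k) (L (k + 1)) (U k) (U (k + 1)) hw, ih, e1, e2, Real.log_mul p0.ne' (rr_pos P _ _ _ hw).ne']
    ring

theorem filt (hU : ∀ k, Fac (U (k + 1)) (U k)) (hL : ∀ k, Fac (fun v => (L (k + 1) v, U (k + 1) v)) (L k)) :
    Filt (fun k v => (L k v, U k v)) := by
  intro k a b hab
  have h1 := hL k a b hab
  have h2 := hU k a b (Prod.mk.inj hab).2
  show (L k a, U k a) = (L k b, U k b)
  rw [h1, h2]

/-- **the surprisal never passes a high level** -/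
theorem sq_max (hU : ∀ k, Fac (U (k + 1)) (U k)) (hL : ∀ k, Fac (fun v => (L (k + 1) v, U (k + 1) v)) (L k)) (n : ℕ)
    {X0 : ℝ} (hX : 0 < X0) :
    P.Pr (fun w => ∃ k ≤ n, X0 < sq P (L k) (U k) w) ≤ Real.exp (-(X0 / 2)) +
      2 * (P.Hc (L 0) (U 0) + ∑ k ∈ range n, P.Hc (L (k + 1)) (fun v => (L k v, U (k + 1) v))) / X0 := by
  have hF := filt hU hL
  have hZfac : ∀ k, Fac (fun v => (L k v, U k v)) (ZZ P L U k) := by
    intro k a b hab
    unfold ZZ
    refine Finset.prod_congr rfl fun j hj => ?_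
    have hj' : j + 1 ≤ k := by have := Finset.mem_range.1 hj; omega
    have h1 : (L (j + 1) a, U (j + 1) a) = (L (j + 1) b, U (j + 1) b) := hF.le hj' a b hab
    have h2 : (L j a, U j a) = (L j b, U j b) := hF j a b h1
    have h3 : U (j + 1) a = U (j + 1) b := (Prod.mk.inj h1).2
    have h4 : U j a = U j b := (Prod.mk.inj h2).2
    have h5 : L j a = L j b := (Prod.mk.inj h2).1
    unfold rr
    rw [P.Fac_m (U (j + 1)) a b h3, P.Fac_m (fun v => (L j v, U j v)) a b h2, P.Fac_m (U j) a b h4,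
      P.Fac_m (fun v => (L j v, U (j + 1) v)) a b (by simp only [h5, h3])]
  have hdoob := P.doob_super hF (Z := ZZ P L U) (s := fun _ _ => 0) hZfac
    (fun k w hw => (Finset.prod_pos fun j _ => rr_pos P _ _ _ hw).le) (fun _ _ _ => le_rfl)
    (fun k w hw => by
      have e1 : ZZ P L U (k + 1) = fun w => ZZ P L U k w * rr P (L k) (U k) (U (k + 1)) w := by
        funext w
        exact Finset.prod_range_succ _ _
      rw [e1, P.ce_mul (hZfac k), add_zero]
      have h1 := ce_rr_le P (L := L k) (hU k) hw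
      have h2 : 0 ≤ ZZ P L U k w := (Finset.prod_pos fun j _ => rr_pos P _ _ _ hw).le
      exact (mul_le_mul_of_nonneg_left h1 h2).trans (le_of_eq (mul_one _))) n (Real.exp_pos (X0 / 2)).le
  have e0 : P.E (ZZ P L U 0) = 1 := by
    have : ZZ P L U 0 = fun _ => 1 := by
      funext w
      exact Finset.prod_range_zero _
    rw [this, P.E_const]
  rw [e0, Finset.sum_congr rfl fun t _ => P.E_const 0, Finset.sum_const_zero, add_zero] at hdoob
  have hA : P.Pr (fun w => ∃ k ≤ n, Real.exp (X0 / 2) ≤ ZZ P L U k w) ≤ Real.exp (-(X0 / 2)) := by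
    rw [Real.exp_neg, ← one_div, le_div_iff₀ (Real.exp_pos _), mul_comm]
    exact hdoob
  have hSB : ∀ w, P.p w ≠ 0 → 0 ≤ SB P L U n w := fun w hw =>
    add_nonneg (sq_nonneg P _ _ hw) (Finset.sum_nonneg fun j _ => bb_nonneg P (hL j) hw)
  have hmk := P.markov hSB (X0 / 2)
  have eSB : P.E (SB P L U n) = P.Hc (L 0) (U 0) + ∑ k ∈ range n, P.Hc (L (k + 1)) (fun v => (L k v, U (k + 1) v)) := by
    unfold SB
    rw [P.E_add, E_sq, P.E_sum]
    congr 1
    exact Finset.sum_congr rfl fun k _ => E_bb P (hL k)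
  rw [eSB] at hmk
  have hB : P.Pr (fun w => X0 / 2 ≤ SB P L U n w) ≤
      2 * (P.Hc (L 0) (U 0) + ∑ k ∈ range n, P.Hc (L (k + 1)) (fun v => (L k v, U (k + 1) v))) / X0 := by
    rw [le_div_iff₀ hX]
    linarith
  refine le_trans (P.Pr_mono (t := fun w => (∃ k ≤ n, Real.exp (X0 / 2) ≤ ZZ P L U k w) ∨ X0 / 2 ≤ SB P L U n w) ?_)
    ((P.Pr_or_le _ _).trans (add_le_add hA hB))
  rintro w hw ⟨k, hk, hlt⟩
  by_cases hz : Real.exp (X0 / 2) ≤ ZZ P L U k w
  · exact Or.inl ⟨k, hk, hz⟩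
  · right
    have h1 := sq_eq P (L := L) (U := U) k hw
    have p0 : 0 < ZZ P L U k w := Finset.prod_pos fun j _ => rr_pos P _ _ _ hw
    have h2 : Real.log (ZZ P L U k w) < X0 / 2 := by
      rw [Real.log_lt_iff_lt_exp p0]
      exact not_le.1 hz
    have h3 : SB P L U k w ≤ SB P L U n w := by
      unfold SB
      refine add_le_add le_rfl ?_
      exact Finset.sum_le_sum_of_subset_of_nonneg (Finset.range_mono hk) fun j _ _ => bb_nonneg P (hL j) hw
    linarith

end one

/-! ## functions of the points only -/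

section laws

variable {K X β γ φ υ : Type} [Fintype K] [DecidableEq K] [Fintype X] [Fintype β] [Fintype φ] [Nonempty X] [Nonempty β]
  {D : HD K X β γ φ} {al : ℝ} (h : D.Thick al)

/-- function of the points only -/
def Dry {κ : Type*} (F : Pt K X β φ → κ) : Prop := ∀ a b : Pt K X β φ, a.1 = b.1 → a.2.1 = b.2.1 → F a = F b

theorem Dry.prod {κ ι : Type*} {F : Pt K X β φ → κ} {G : Pt K X β φ → ι} (hF : Dry F) (hG : Dry G) :
    Dry (fun w => (F w, G w)) := fun a b h1 h2 => by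
  show (F a, G a) = (F b, G b)
  rw [hF a b h1 h2, hG a b h1 h2]

theorem E_time {F : Pt K X β φ → ℝ} (hF : Dry F) (s t : ℕ) : (D.P h s).E F = (D.P h t).E F := by
  obtain ⟨w0, _⟩ := (D.P h 0).exists_p_ne
  have e1 : ∀ r, (D.P h r).E F = (∑ x, ∑ y, F (x, y, w0.2.2)) / nn X β K := fun r => by
    rw [← E_labels0 h r (fun x y => F (x, y, w0.2.2))]
    exact (D.P h r).E_congr fun w _ => hF _ _ rfl rfl
  rw [e1, e1]

theorem m_time {κ : Type*} {F : Pt K X β φ → κ} (hF : Dry F) (s t : ℕ) (w : Pt K X β φ) :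
    (D.P h s).m F w = (D.P h t).m F w :=
  E_time h (F := fun v => ind (F v = F w)) (fun a b h1 h2 => by
    show ind (F a = F w) = ind (F b = F w)
    rw [hF a b h1 h2]) s t

theorem Pr_time {S : Pt K X β φ → Prop} (hS : Dry S) (s t : ℕ) : (D.P h s).Pr S = (D.P h t).Pr S :=
  E_time h (F := fun v => ind (S v)) (fun a b h1 h2 => by
    show ind (S a) = ind (S b)
    rw [hS a b h1 h2]) s t

theorem dry_m {κ : Type*} {F : Pt K X β φ → κ} (hF : Dry F) (P : FP (Pt K X β φ)) : Dry (P.m F) :=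
  fun a b h1 h2 => P.Fac_m F a b (hF a b h1 h2)

theorem H_time {κ : Type*} {F : Pt K X β φ → κ} (hF : Dry F) (s t : ℕ) : (D.P h s).H F = (D.P h t).H F := by
  unfold FP.H
  have e : (fun w => -Real.log ((D.P h s).m F w)) = fun w => -Real.log ((D.P h t).m F w) := by
    funext w
    rw [m_time h hF s t w]
  rw [e]
  exact E_time h (fun a b h1 h2 => by
    show -Real.log ((D.P h t).m F a) = -Real.log ((D.P h t).m F b)
    rw [dry_m hF _ a b h1 h2]) s t

theorem Hc_time {κ ι : Type*} {F : Pt K X β φ → κ} {G : Pt K X β φ → ι} (hF : Dry F) (hG : Dry G) (s t : ℕ) :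
    (D.P h s).Hc F G = (D.P h t).Hc F G := by
  unfold FP.Hc
  rw [H_time h (hF.prod hG) s t, H_time h hG s t]

theorem sq_time {κ ι : Type*} {F : Pt K X β φ → κ} {G : Pt K X β φ → ι} (hF : Dry F) (hG : Dry G) (s t : ℕ)
    (w : Pt K X β φ) : sq (D.P h s) F G w = sq (D.P h t) F G w := by
  unfold sq
  rw [m_time h hG s t, m_time h (hF.prod hG) s t]

/-- no top letter inside `J` -/
def Thin (J : Finset K) : Prop := ∀ l : K, ¬ univ.erase l ⊆ J

theorem thin_one (hK : Fintype.card K = 3) (i : K) : Thin ({i} : Finset K) := fun l hl => by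
  have h1 := Finset.card_le_card hl
  rw [card_er hK, Finset.card_singleton] at h1
  omega

theorem dry_LL {U : Finset K → X → (K → β) → υ} {I J : Finset K} (hJ : Thin J) (hI : I ⊆ J) :
    Dry (φ := φ) (LL U I) := by
  intro a b h1 h2
  rw [LL_eq]
  exact ⟨by rw [h1, h2], fun l hl => absurd (hl ▸ hI) (hJ l)⟩

theorem dry_lo {U : Finset K → X → (K → β) → υ} {J : Finset K} (hJ : Thin J) : Dry (φ := φ) (lo (LL U) J) := by
  intro a b h1 h2
  rw [lo_eq]
  exact fun I hI => dry_LL hJ hI.subset a b h1 h2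

theorem dry_BB (s : ℕ) (J : Finset K) : Dry (φ := φ) (BB D s J) := by
  intro a b h1 h2
  rw [BB_eq, h1, h2]
  exact ⟨fun _ _ => rfl, rfl, fun _ => rfl⟩

theorem BB_down {s t : ℕ} (hst : s ≤ t) (J : Finset K) : Fac (BB (φ := φ) D t J) (BB D s J) := by
  intro a b hab
  rw [BB_eq] at hab ⊢
  exact ⟨hab.1, qa_mono D hst hab.2.1, fun j => qb_mono D hst (hab.2.2 j)⟩

variable (v : ℕ → Finset K → X → (K → β) → υ)

/-- **the cost of the time `t`** as the entropy of the new label -/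
theorem cst_eq (t : ℕ) (J : Finset K) : cst h v t J =
    (D.P h t).Hc (LL (Um v (t + 1)) J)
      (fun w => (le (LL (Um v t)) J w, lo (LL (Um v (t + 1))) J w, BB D t J w)) := by
  unfold cst cost
  refine (D.P h t).Hc_congr ?_ ?_ ?_ ?_
  · intro a b hab
    simp only [Prod.mk.injEq] at hab
    exact pr_fac a b (pr_eq.2 ⟨(le_eq'.1 hab.2.2.1).1, hab.1⟩)
  · intro a b hab
    simp only [Prod.mk.injEq] at hab ⊢
    refine ⟨hab.2.1, ?_, hab.2.2⟩
    exact lo_congr (fun _ => pr_fac) J a b (lo_pr_eq.2 ⟨(le_eq'.1 hab.2.1).2, hab.1⟩)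
  · intro a b hab
    simp only [Prod.mk.injEq] at hab
    exact (pr_eq.1 (fac_pr a b hab.1)).2
  · intro a b hab
    simp only [Prod.mk.injEq] at hab ⊢
    exact ⟨(lo_pr_eq.1 (lo_congr (fun _ => fac_pr) J a b hab.2.1)).2, hab.1, hab.2.2⟩

/-- the sequence of the labels -/
def Lk (J : Finset K) (k : ℕ) (w : Pt K X β φ) : List υ × (K → Option φ) := LL (Um v (k / 2 + 1)) J w

/-- the sequence of the conditions -/
noncomputable def Uk (D : HD K X β γ φ) (J : Finset K) (k : ℕ) (w : Pt K X β φ) :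
    (Finset K → Option (List υ × (K → Option φ))) × ((K → Option β) × (γ × (K → γ))) :=
  (lo (LL (Um v (k / 2 + 1))) J w, BB D ((k + 1) / 2) J w)

theorem lo_older {s t : ℕ} (hst : s ≤ t) (J : Finset K) :
    Fac (lo (LL (φ := φ) (Um v (t + 1))) J) (lo (LL (Um v (s + 1))) J) := by
  intro a b hab
  rw [lo_eq] at hab ⊢
  exact fun I hI => LL_older hst (hab I hI)

theorem Uk_fac (J : Finset K) (k : ℕ) : Fac (Uk v D J (k + 1)) (Uk v D J k) := by
  intro a b hab
  have h1 := (Prod.mk.inj hab).1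
  have h2 := (Prod.mk.inj hab).2
  exact Prod.ext (lo_older v (by omega) J a b h1) (BB_down (by omega) J a b h2)

theorem Lk_fac (J : Finset K) (k : ℕ) : Fac (fun w => (Lk v J (k + 1) w, Uk v D J (k + 1) w)) (Lk v J k) := by
  intro a b hab
  have h1 : LL (Um v ((k + 1) / 2 + 1)) J a = LL (Um v ((k + 1) / 2 + 1)) J b := (Prod.mk.inj hab).1
  exact LL_older (by omega) h1

variable {J : Finset K}

theorem dry_Lk (hJ : Thin J) (k : ℕ) : Dry (Lk (φ := φ) v J k) := dry_LL hJ (Finset.Subset.refl J)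

theorem dry_Uk (hJ : Thin J) (k : ℕ) : Dry (Uk v D J k) := (dry_lo hJ).prod (dry_BB _ J)

/-- the entropy at the start -/
theorem Hc_start (hJ : Thin J) (R : ℕ) : (D.P h R).Hc (Lk v J 0) (Uk v D J 0) = cst h v 0 J := by
  rw [Hc_time h (dry_Lk v hJ 0) (dry_Uk v hJ 0) R 0, cst_eq]
  refine (D.P h 0).Hc_congr_right _ ?_ (Fac.snd _ _)
  intro a b hab
  refine Prod.ext ?_ hab
  show le (LL (Um v 0)) J a = le (LL (Um v 0)) J b
  rw [le_eq]
  intro I hI
  rw [LL_eq]
  exact ⟨rfl, fun l hl => absurd (hl ▸ hI) (hJ l)⟩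

/-- no entropy at the half steps -/
theorem Hc_half (t R : ℕ) :
    (D.P h R).Hc (Lk v J (2 * t + 1)) (fun w => (Lk v J (2 * t) w, Uk v D J (2 * t + 1) w)) = 0 := by
  have e : Lk (φ := φ) v J (2 * t + 1) = Lk v J (2 * t) := by
    funext w
    unfold Lk
    rw [show (2 * t + 1) / 2 = 2 * t / 2 by omega]
  rw [e]
  refine le_antisymm ?_ ((D.P h R).Hc_nonneg _ _)
  have h1 : (D.P h R).Hc (Lk v J (2 * t)) (fun w => (Lk v J (2 * t) w, Uk v D J (2 * t + 1) w)) ≤
      (D.P h R).Hc (fun _ => ()) (fun w => (Lk v J (2 * t) w, Uk v D J (2 * t + 1) w)) :=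
    (D.P h R).Hc_mono _ fun a b hab => (Prod.mk.inj (Prod.mk.inj hab).2).1
  have h2 := (D.P h R).Hc_le_H (fun _ => ()) (fun w => (Lk v J (2 * t) w, Uk v D J (2 * t + 1) w))
  rw [FP.H_const] at h2
  exact h1.trans h2

/-- the entropy of the next label = the cost -/
theorem Hc_next (hJ : Thin J) (t R : ℕ) :
    (D.P h R).Hc (Lk v J (2 * t + 1 + 1)) (fun w => (Lk v J (2 * t + 1) w, Uk v D J (2 * t + 1 + 1) w)) =
      cst h v (t + 1) J := by
  rw [Hc_time h (dry_Lk v hJ _) ((dry_Lk v hJ _).prod (dry_Uk v hJ _)) R (t + 1), cst_eq]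
  have e1 : (2 * t + 1 + 1) / 2 = t + 1 := by omega
  have e2 : (2 * t + 1) / 2 = t := by omega
  have e3 : (2 * t + 1 + 1 + 1) / 2 = t + 1 := by omega
  have f1 : Lk (φ := φ) v J (2 * t + 1 + 1) = LL (Um v (t + 1 + 1)) J := by
    funext w; unfold Lk; rw [e1]
  have f2 : Lk (φ := φ) v J (2 * t + 1) = LL (Um v (t + 1)) J := by
    funext w; unfold Lk; rw [e2]
  have f3 : Uk v D J (2 * t + 1 + 1) = fun w => (lo (LL (Um v (t + 1 + 1))) J w, BB D (t + 1) J w) := by
    funext w; unfold Uk; rw [e1, e3]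
  rw [f1, f2, f3]
  refine (D.P h (t + 1)).Hc_congr_right _ ?_ ?_
  · intro a b hab
    simp only [Prod.mk.injEq] at hab ⊢
    exact ⟨le_eq'.2 ⟨hab.1, lo_older v (Nat.le_succ t) J a b hab.2.1⟩, hab.2⟩
  · intro a b hab
    simp only [Prod.mk.injEq] at hab ⊢
    exact ⟨(le_eq'.1 hab.1).1, hab.2⟩

/-- all entropies -/
theorem Hc_sum (hJ : Thin J) (T R : ℕ) :
    (D.P h R).Hc (Lk v J 0) (Uk v D J 0) +
      ∑ k ∈ range (2 * T), (D.P h R).Hc (Lk v J (k + 1)) (fun w => (Lk v J k w, Uk v D J (k + 1) w)) =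
    ∑ t ∈ range (T + 1), cst h v t J := by
  rw [Hc_start h v hJ, Finset.sum_range_succ' _ T, add_comm]
  congr 1
  induction T with
  | zero => simp
  | succ T ih =>
    rw [show 2 * (T + 1) = 2 * T + 1 + 1 by ring, Finset.sum_range_succ, Finset.sum_range_succ, ih,
      Finset.sum_range_succ, Hc_half, Hc_next h v hJ]
    ring

end laws

end Dead

/-! ## dead letters -/

section dead

variable {K X β γ φ υ : Type} [Fintype K] [DecidableEq K] [Fintype X] [Fintype β] [Fintype φ] [Nonempty X] [Nonempty β]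
  {D : HD K X β γ φ} {al : ℝ} (h : D.Thick al) (v : ℕ → Finset K → X → (K → β) → υ)

/-- surprisal of the label of `J` after the split of the time `s`, node of the time `s + 1` -/
noncomputable def surpD (s : ℕ) (J : Finset K) (w : Pt K X β φ) : ℝ :=
  Real.log ((D.P h s).m (fun w => (lo (LL (Um v (s + 1))) J w, BB D (s + 1) J w)) w /
    (D.P h s).m (fun w => (LL (Um v (s + 1)) J w, lo (LL (Um v (s + 1))) J w, BB D (s + 1) J w)) w)

/-- alive at the state (classes of the time `t`, node `t`), half steps included -/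
def AlD (X0 : ℝ) (t : ℕ) (w : Pt K X β φ) : Prop := Al h v X0 t w ∧ ∀ s < t, ∀ i : K, surpD h v s {i} w ≤ X0

/-- alive at the state (classes of the time `t`, node `t + 1`), half steps included -/
def AlH (X0 : ℝ) (t : ℕ) (w : Pt K X β φ) : Prop := Al h v X0 t w ∧ ∀ s ≤ t, ∀ i : K, surpD h v s {i} w ≤ X0

variable {h v}

theorem AlD_Al {X0 : ℝ} {t : ℕ} {w : Pt K X β φ} (hw : AlD h v X0 t w) : Al h v X0 t w := hw.1

theorem AlH_AlD {X0 : ℝ} {t : ℕ} {w : Pt K X β φ} (hw : AlH h v X0 t w) : AlD h v X0 t w :=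
  ⟨hw.1, fun s hs i => hw.2 s hs.le i⟩

theorem AlD_AlH {X0 : ℝ} {s t : ℕ} (hst : s < t) {w : Pt K X β φ} (hw : AlD h v X0 t w) : AlH h v X0 s w :=
  ⟨Al_mono X0 hst.le hw.1, fun r hr i => hw.2 r (lt_of_le_of_lt hr hst) i⟩

theorem AlD_mono (X0 : ℝ) {s t : ℕ} (hst : s ≤ t) {w : Pt K X β φ} (hw : AlD h v X0 t w) : AlD h v X0 s w :=
  ⟨Al_mono X0 hst hw.1, fun r hr i => hw.2 r (lt_of_lt_of_le hr hst) i⟩

theorem surpD_fac (s : ℕ) (J : Finset K) :
    Fac (fun w : Pt K X β φ => (LL (Um v (s + 1)) J w, lo (LL (Um v (s + 1))) J w, BB D (s + 1) J w)) (surpD h v s J) := by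
  intro a b hab
  have e1 : (lo (LL (Um v (s + 1))) J a, BB D (s + 1) J a) = (lo (LL (Um v (s + 1))) J b, BB D (s + 1) J b) :=
    congrArg Prod.snd hab
  unfold surpD
  rw [(D.P h s).Fac_m (fun w => (lo (LL (Um v (s + 1))) J w, BB D (s + 1) J w)) a b e1,
    (D.P h s).Fac_m (fun w => (LL (Um v (s + 1)) J w, lo (LL (Um v (s + 1))) J w, BB D (s + 1) J w)) a b hab]

/-- the half steps depend on the thin labels and on the node of the time `t`, `s + 1 ≤ t`, classes of any time `r ≥ s` -/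
theorem surpD_one {s r t : ℕ} (hr : s ≤ r) (ht : s + 1 ≤ t) {a b : Pt K X β φ}
    (h1 : all (LP pth (LL (φ := φ) (Um v (r + 1)))) a = all (LP pth (LL (Um v (r + 1)))) b) (h2 : WW D t a = WW D t b)
    (i : K) : surpD h v s {i} a = surpD h v s {i} b := by
  refine surpD_fac s {i} a b ?_
  have hl : ∀ I : Finset K, pth I → LL (φ := φ) (Um v (s + 1)) I a = LL (Um v (s + 1)) I b := fun I hI =>
    LL_older hr (congrFun h1 ⟨I, hI⟩)
  refine Prod.ext (hl {i} ?_) (Prod.ext ?_ (BB_older ht h2))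
  · unfold pth; rw [Finset.card_singleton]
  · show lo (LL (Um v (s + 1))) {i} a = lo (LL (Um v (s + 1))) {i} b
    rw [lo_eq]
    intro I hI
    refine hl I ?_
    unfold pth
    have := Finset.card_lt_card hI
    rw [Finset.card_singleton] at this
    omega

theorem AlD_fac (X0 : ℝ) (t : ℕ) :
    Fac (fun w : Pt K X β φ => (all (LP pth (LL (Um v (t + 1)))) w, WW D t w)) (AlD h v X0 t) := by
  intro a b hab
  have e1 : Al h v X0 t a = Al h v X0 t b := Al_fac X0 t a b hab
  have e2 : ∀ s < t, ∀ i : K, surpD h v s {i} a = surpD h v s {i} b := fun s hs i =>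
    surpD_one hs.le hs (congrArg Prod.fst hab) (congrArg Prod.snd hab) i
  unfold AlD
  rw [e1]
  exact propext (and_congr_right fun _ => forall_congr' fun s => forall_congr' fun hs => forall_congr' fun i => by
    rw [e2 s hs i])

theorem AlH_fac (X0 : ℝ) (t : ℕ) :
    Fac (fun w : Pt K X β φ => (all (LP pth (LL (Um v (t + 1)))) w, WW D (t + 1) w)) (AlH h v X0 t) := by
  intro a b hab
  have hW : WW D t a = WW D t b := by
    have h2 : WW D (t + 1) a = WW D (t + 1) b := congrArg Prod.snd hab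
    rw [WW_eq] at h2 ⊢
    exact ⟨h2.1, D.ra t _ _ h2.2⟩
  have h1 : all (LP pth (LL (φ := φ) (Um v (t + 1)))) a = all (LP pth (LL (Um v (t + 1)))) b := congrArg Prod.fst hab
  have e1 : Al h v X0 t a = Al h v X0 t b := Al_fac X0 t a b (Prod.ext h1 hW)
  have e2 : ∀ s ≤ t, ∀ i : K, surpD h v s {i} a = surpD h v s {i} b := fun s hs i =>
    surpD_one hs (Nat.succ_le_succ hs) h1 (congrArg Prod.snd hab) i
  unfold AlH
  rw [e1]
  exact propext (and_congr_right fun _ => forall_congr' fun s => forall_congr' fun hs => forall_congr' fun i => by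
    rw [e2 s hs i])

open Dead

theorem dry_surp {s : ℕ} {J : Finset K} (hJ : Thin J) : Dry (surp h v s J) := fun a b h1 h2 =>
  surp_fac s J a b (((dry_LL hJ (Finset.Subset.refl J)).prod ((dry_lo hJ).prod (dry_BB s J))) a b h1 h2)

theorem dry_surpD {s : ℕ} {J : Finset K} (hJ : Thin J) : Dry (surpD h v s J) := fun a b h1 h2 =>
  surpD_fac s J a b (((dry_LL hJ (Finset.Subset.refl J)).prod ((dry_lo hJ).prod (dry_BB (s + 1) J))) a b h1 h2)

theorem dry_Al (hK : Fintype.card K = 3) (X0 : ℝ) (t : ℕ) : Dry (Al h v X0 t) := by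
  intro a b h1 h2
  unfold Al
  exact propext (forall_congr' fun s => forall_congr' fun _ => forall_congr' fun i => by
    rw [dry_surp (thin_one hK i) a b h1 h2])

theorem dry_AlD (hK : Fintype.card K = 3) (X0 : ℝ) (t : ℕ) : Dry (AlD h v X0 t) := by
  intro a b h1 h2
  unfold AlD
  rw [dry_Al hK X0 t a b h1 h2]
  exact propext (and_congr_right fun _ => forall_congr' fun s => forall_congr' fun _ => forall_congr' fun i => by
    rw [dry_surpD (thin_one hK i) a b h1 h2])

theorem dry_AlH (hK : Fintype.card K = 3) (X0 : ℝ) (t : ℕ) : Dry (AlH h v X0 t) := by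
  intro a b h1 h2
  unfold AlH
  rw [dry_Al hK X0 t a b h1 h2]
  exact propext (and_congr_right fun _ => forall_congr' fun s => forall_congr' fun _ => forall_congr' fun i => by
    rw [dry_surpD (thin_one hK i) a b h1 h2])

variable (h v)

/-- `surp` is the surprisal of the abstract sequence, whatever the law -/
theorem surp_sq {J : Finset K} (hJ : Thin J) (s R : ℕ) (w : Pt K X β φ) :
    surp h v s J w = sq (D.P h R) (Lk v J (2 * s)) (Uk v D J (2 * s)) w := by
  rw [sq_time h (dry_Lk v hJ _) (dry_Uk v hJ _) R s]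
  have e1 : 2 * s / 2 = s := by omega
  have e2 : (2 * s + 1) / 2 = s := by omega
  have f1 : Lk (φ := φ) v J (2 * s) = LL (Um v (s + 1)) J := by
    funext w; unfold Lk; rw [e1]
  have f3 : Uk v D J (2 * s) = fun w => (lo (LL (Um v (s + 1))) J w, BB D s J w) := by
    funext w; unfold Uk; rw [e1, e2]
  rw [f1, f3]
  rfl

theorem surpD_sq {J : Finset K} (hJ : Thin J) (s R : ℕ) (w : Pt K X β φ) :
    surpD h v s J w = sq (D.P h R) (Lk v J (2 * s + 1)) (Uk v D J (2 * s + 1)) w := by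
  rw [sq_time h (dry_Lk v hJ _) (dry_Uk v hJ _) R s]
  have e1 : (2 * s + 1) / 2 = s := by omega
  have e2 : (2 * s + 1 + 1) / 2 = s + 1 := by omega
  have f1 : Lk (φ := φ) v J (2 * s + 1) = LL (Um v (s + 1)) J := by
    funext w; unfold Lk; rw [e1]
  have f3 : Uk v D J (2 * s + 1) = fun w => (lo (LL (Um v (s + 1))) J w, BB D (s + 1) J w) := by
    funext w; unfold Uk; rw [e1, e2]
  rw [f1, f3]
  rfl

/-- **dead labels of one thin index set** : the law of any time `R` -/
theorem dead_thin {J : Finset K} (hJ : Thin J) {X0 : ℝ} (hX : 0 < X0) (T R : ℕ) :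
    (D.P h R).Pr (fun w => (∃ s ≤ T, X0 < surp h v s J w) ∨ ∃ s < T, X0 < surpD h v s J w) ≤
      Real.exp (-(X0 / 2)) + 2 * (∑ t ∈ range (T + 1), cst h v t J) / X0 := by
  have h1 := sq_max (D.P h R) (L := Lk v J) (U := Uk v D J) (Uk_fac v J) (Lk_fac v J) (2 * T) hX
  rw [Hc_sum h v hJ T R] at h1
  refine le_trans ((D.P h R).Pr_mono ?_) h1
  rintro w _ (⟨s, hs, hlt⟩ | ⟨s, hs, hlt⟩)
  · exact ⟨2 * s, by omega, by rw [← surp_sq h v hJ s R w]; exact hlt⟩
  · exact ⟨2 * s + 1, by omega, by rw [← surpD_sq h v hJ s R w]; exact hlt⟩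

/-- **DEAD THIN LETTERS ARE RARE**, half steps included, law of any time `R` -/
theorem deadD_le (hK : Fintype.card K = 3) {X0 : ℝ} (hX : 0 < X0) (T R : ℕ) :
    (D.P h R).Pr (fun w => ¬ AlD h v X0 T w) ≤
      ∑ i : K, (Real.exp (-(X0 / 2)) + 2 * (∑ t ∈ range (T + 1), cst h v t {i}) / X0) := by
  refine le_trans ?_ (Finset.sum_le_sum fun i _ => dead_thin h v (thin_one hK i) hX T R)
  refine le_trans ((D.P h R).Pr_mono (t := fun w => ∃ i : K,
    (∃ s ≤ T, X0 < surp h v s {i} w) ∨ ∃ s < T, X0 < surpD h v s {i} w) ?_) ?_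
  · intro w _ hw
    unfold AlD Al at hw
    rw [not_and_or] at hw
    rcases hw with hw | hw
    · push Not at hw
      obtain ⟨s, hs, i, hi⟩ := hw
      exact ⟨i, Or.inl ⟨s, hs, hi⟩⟩
    · push Not at hw
      obtain ⟨s, hs, i, hi⟩ := hw
      exact ⟨i, Or.inr ⟨s, hs, hi⟩⟩
  · unfold FP.Pr
    rw [← FP.E_sum]
    refine (D.P h R).E_mono fun w _ => ?_
    by_cases he : ∃ i : K, (∃ s ≤ T, X0 < surp h v s {i} w) ∨ ∃ s < T, X0 < surpD h v s {i} w
    · rw [ind_of he]
      obtain ⟨i, hi⟩ := he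
      have h2 : (1 : ℝ) = ind ((∃ s ≤ T, X0 < surp h v s {i} w) ∨ ∃ s < T, X0 < surpD h v s {i} w) := (ind_of hi).symm
      rw [h2]
      exact Finset.single_le_sum (f := fun i : K =>
        ind ((∃ s ≤ T, X0 < surp h v s {i} w) ∨ ∃ s < T, X0 < surpD h v s {i} w)) (fun j _ => ind_nonneg _) (mem_univ i)
    · rw [ind_not he]
      exact Finset.sum_nonneg fun i _ => ind_nonneg _

/-- the same without the half steps -/
theorem dead_le (hK : Fintype.card K = 3) {X0 : ℝ} (hX : 0 < X0) (T R : ℕ) :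
    (D.P h R).Pr (fun w => ¬ Al h v X0 T w) ≤
      ∑ i : K, (Real.exp (-(X0 / 2)) + 2 * (∑ t ∈ range (T + 1), cst h v t {i}) / X0) :=
  ((D.P h R).Pr_mono fun _ _ hw hd => hw hd.1).trans (deadD_le h v hK hX T R)

end dead

/-! ## for a run -/

section runs

variable {K X β γ φ : Type} [Fintype K] [DecidableEq K] [Fintype X] [Fintype β] [Fintype φ] [Nonempty X] [Nonempty β]
  {D : HD K X β γ φ} {al : ℝ} {h : D.Thick al} {dg : ℕ → X → ℝ} {prr : ℕ → K → φ → φ} {T : ℕ} {Lam : ℝ}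
  {v : ℕ → Finset K → X → (K → β) → Pt K X β φ}

/-- costs of the thin labels of a run -/
theorem cost_thin (hK : Fintype.card K = 3) (H : D.Hyp dg prr al T Lam) {n N1 : ℝ} (hn : 1 ≤ n) (hN1 : 1 ≤ N1)
    (R : Run h (pr3 K n N1) (SS1 K) (AdmDep D) v) (i : K) :
    ∑ t ∈ range (T + 1), cst h v t {i} ≤ 3 * (n * Lam) := by
  have h1 := cost_le h H (N := pr3 K n N1) (Ntop := n * N1)
    (fun J => lt_of_lt_of_le zero_lt_one (pr3_one hn hN1 J)) (fun l => (pr3_top hK n N1 l).le)
    (fun t _ => R.nonpos (admDep_ok D) t) (J := {i}) (pth_sub hK {i} (by unfold pth; rw [Finset.card_singleton]))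
  refine h1.trans (le_of_eq ?_)
  have e : pr3 K n N1 {i} = N1 := by
    unfold pr3
    rw [if_neg (by rw [Finset.card_singleton]; norm_num), if_pos (Finset.card_singleton i)]
  have hN0 : N1 ≠ 0 := by
    intro h0; rw [h0] at hN1; norm_num at hN1
  rw [e, hK]
  push_cast
  field_simp

/-- **DEAD THIN LETTERS OF A RUN**, half steps included -/
theorem deadD_run (hK : Fintype.card K = 3) (H : D.Hyp dg prr al T Lam) {n N1 : ℝ} (hn : 1 ≤ n) (hN1 : 1 ≤ N1)
    (R : Run h (pr3 K n N1) (SS1 K) (AdmDep D) v) {X0 : ℝ} (hX : 0 < X0) (r : ℕ) :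
    (D.P h r).Pr (fun w => ¬ AlD h v X0 T w) ≤ 3 * (Real.exp (-(X0 / 2)) + 6 * (n * Lam) / X0) := by
  refine (deadD_le h v hK hX T r).trans ?_
  have h1 : ∀ i ∈ (univ : Finset K), Real.exp (-(X0 / 2)) + 2 * (∑ t ∈ range (T + 1), cst h v t {i}) / X0 ≤
      Real.exp (-(X0 / 2)) + 6 * (n * Lam) / X0 := by
    intro i _
    have h2 := cost_thin hK H hn hN1 R i
    refine add_le_add le_rfl (div_le_div_of_nonneg_right ?_ hX.le)
    linarith
  refine (Finset.sum_le_card_nsmul _ _ _ h1).trans (le_of_eq ?_)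
  rw [Finset.card_univ, hK, nsmul_eq_mul]
  norm_num

theorem dead_run (hK : Fintype.card K = 3) (H : D.Hyp dg prr al T Lam) {n N1 : ℝ} (hn : 1 ≤ n) (hN1 : 1 ≤ N1)
    (R : Run h (pr3 K n N1) (SS1 K) (AdmDep D) v) {X0 : ℝ} (hX : 0 < X0) (r : ℕ) :
    (D.P h r).Pr (fun w => ¬ Al h v X0 T w) ≤ 3 * (Real.exp (-(X0 / 2)) + 6 * (n * Lam) / X0) :=
  ((D.P h r).Pr_mono fun _ _ hw hd => hw hd.1).trans (deadD_run hK H hn hN1 R hX r)

/-- dead half steps before the time `T` -/
theorem deadH_run (hK : Fintype.card K = 3) (H : D.Hyp dg prr al T Lam) {n N1 : ℝ} (hn : 1 ≤ n) (hN1 : 1 ≤ N1)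
    (R : Run h (pr3 K n N1) (SS1 K) (AdmDep D) v) {X0 : ℝ} (hX : 0 < X0) {t : ℕ} (ht : t < T) (r : ℕ) :
    (D.P h r).Pr (fun w => ¬ AlH h v X0 t w) ≤ 3 * (Real.exp (-(X0 / 2)) + 6 * (n * Lam) / X0) :=
  ((D.P h r).Pr_mono fun _ _ hw hd => hw (AlD_AlH ht hd)).trans (deadD_run hK H hn hN1 R hX r)

end runs

end Pool.Agent.GMH
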