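import Pool.Agent.GMH.TD0
import Pool.Agent.GMH.Dead

/-!
# GMH/TD1: moves of the log-probability of a letter (helper34, plan helper27)

`N` public information, `L` letter, `Y` exact point. `ai` public increments: `E exp (- ai) ≤ 1` given letter and public
information, `E ai = I (L k; N (k+1) | Y, N k)`; `bi` births, `E bi = H (L (k+1) | L k, N (k+1))`; the number of restarts
at which the sum of the public increments (of the births) since the last restart is at least `δ`.
-/

set_option autoImplicit false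
set_option linter.unusedSectionVars false

namespace Pool.Agent.GMH.TD

open Finset Pool.Agent.PWZ Pool.Agent.M3

variable {Om : Type*} [Fintype Om] (P : FP Om) {κ lam η : Type*}
variable {N : ℕ → Om → κ} {L : ℕ → Om → lam} {Y : Om → η}

theorem LN_Y (hY : ∀ k, Fac (L k) Y) (k j : ℕ) : Fac (fun w => (L k w, N j w)) (fun w => (Y w, N j w)) := by
  intro a b hab
  have h1 := (Prod.mk.inj hab).1
  have h2 := (Prod.mk.inj hab).2
  simp only [hY k a b h1, h2]

theorem lq_le (hY : ∀ k, Fac (L k) Y) (k : ℕ) (w : Om) : lq P N L Y k w ≤ 0 := by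
  unfold lq
  refine Real.log_nonpos (div_nonneg (P.m_nonneg _ _) (P.m_nonneg _ _)) ?_
  exact div_le_one_of_le₀ (P.m_anti (LN_Y hY k k) w) (P.m_nonneg _ _)

theorem lqn_le (hY : ∀ k, Fac (L k) Y) (k : ℕ) (w : Om) : lqn P N L Y k w ≤ 0 := by
  unfold lqn
  refine Real.log_nonpos (div_nonneg (P.m_nonneg _ _) (P.m_nonneg _ _)) ?_
  exact div_le_one_of_le₀ (P.m_anti (LN_Y hY k (k + 1)) w) (P.m_nonneg _ _)

/-- the birth as the logarithm of one quotient -/
theorem bi_log (k : ℕ) {w : Om} (hw : P.p w ≠ 0) : bi P N L Y k w =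
    Real.log (P.m (fun w => (L k w, N (k + 1) w)) w) - Real.log (P.m (fun w => (L (k + 1) w, N (k + 1) w)) w) := by
  unfold bi lqn lq
  rw [Real.log_div (P.m_pos _ hw).ne' (P.m_pos _ hw).ne', Real.log_div (P.m_pos _ hw).ne' (P.m_pos _ hw).ne']
  ring

theorem bi_nonneg (hL : ∀ k, Fac (L (k + 1)) (L k)) (k : ℕ) {w : Om} (hw : P.p w ≠ 0) : 0 ≤ bi P N L Y k w := by
  rw [bi_log P k hw, sub_nonneg]
  refine Real.log_le_log (P.m_pos _ hw) (P.m_anti ?_ w)
  intro a b hab
  have h1 := (Prod.mk.inj hab).1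
  have h2 := (Prod.mk.inj hab).2
  simp only [hL k a b h1, h2]

/-- the public increment as the logarithm of one quotient -/
theorem ai_eq (k : ℕ) {w : Om} (hw : P.p w ≠ 0) : ai P N L Y k w =
    Real.log (P.m (fun w => (L k w, N (k + 1) w)) w) - Real.log (P.m (fun w => (Y w, N (k + 1) w)) w) -
      (Real.log (P.m (fun w => (L k w, N k w)) w) - Real.log (P.m (fun w => (Y w, N k w)) w)) := by
  unfold ai lqn lq
  rw [Real.log_div (P.m_pos _ hw).ne' (P.m_pos _ hw).ne', Real.log_div (P.m_pos _ hw).ne' (P.m_pos _ hw).ne']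

theorem lqn_fac (hY : ∀ k, Fac (L k) Y) (k : ℕ) : Fac (fun w => (L k w, N (k + 1) w)) (lqn P N L Y k) := by
  intro a b hab
  unfold lqn
  rw [P.Fac_m (fun w => (L k w, N (k + 1) w)) a b hab,
    P.Fac_m (fun w => (Y w, N (k + 1) w)) a b (LN_Y hY k (k + 1) a b hab)]

theorem lq_fac (hY : ∀ k, Fac (L k) Y) (k : ℕ) : Fac (fun w => (L k w, N k w)) (lq P N L Y k) := by
  intro a b hab
  unfold lq
  rw [P.Fac_m (fun w => (L k w, N k w)) a b hab, P.Fac_m (fun w => (Y w, N k w)) a b (LN_Y hY k k a b hab)]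

theorem ai_fac (hN : ∀ k, Fac (N (k + 1)) (N k)) (hY : ∀ k, Fac (L k) Y) (k : ℕ) :
    Fac (fun w => (L k w, N (k + 1) w)) (ai P N L Y k) := by
  intro a b hab
  have h1 := (Prod.mk.inj hab).1
  have h2 := (Prod.mk.inj hab).2
  have h3 : (L k a, N k a) = (L k b, N k b) := by rw [h1, hN k a b h2]
  unfold ai
  rw [lqn_fac P hY k a b hab, lq_fac P hY k a b h3]

theorem bi_fac (hL : ∀ k, Fac (L (k + 1)) (L k)) (hY : ∀ k, Fac (L k) Y) (k : ℕ) :
    Fac (fun w => (L (k + 1) w, N (k + 1) w)) (bi P N L Y k) := by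
  intro a b hab
  have h1 := (Prod.mk.inj hab).1
  have h2 := (Prod.mk.inj hab).2
  have h3 : (L k a, N (k + 1) a) = (L k b, N (k + 1) b) := by rw [h2, hL k a b h1]
  unfold bi
  rw [lqn_fac P hY k a b h3, lq_fac P hY (k + 1) a b hab]

/-- exponential of the public increment -/
theorem exp_neg_ai (hY : ∀ k, Fac (L k) Y) (k : ℕ) {w : Om} (hw : P.p w ≠ 0) :
    Real.exp (- ai P N L Y k w) =
      Dead.rr P (L k) (fun w => (Y w, N k w)) (fun w => (Y w, N (k + 1) w)) w := by
  have p1 := P.m_pos (fun w => (L k w, N (k + 1) w)) hw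
  have p2 := P.m_pos (fun w => (Y w, N (k + 1) w)) hw
  have p3 := P.m_pos (fun w => (L k w, N k w)) hw
  have p4 := P.m_pos (fun w => (Y w, N k w)) hw
  have e : ∀ j w, P.m (fun v => (L k v, Y v, N j v)) w = P.m (fun v => (L k v, N j v)) w := fun j =>
    P.m_congr (fun a b hab => by simp only [Prod.mk.injEq] at hab ⊢; exact ⟨hab.1, hab.2.2⟩)
      (fun a b hab => by simp only [Prod.mk.injEq] at hab ⊢; exact ⟨hab.1, hY k a b hab.1, hab.2⟩)
  unfold Dead.rr
  rw [e, e, ai_eq P k hw]
  have e1 : -(Real.log (P.m (fun w => (L k w, N (k + 1) w)) w) - Real.log (P.m (fun w => (Y w, N (k + 1) w)) w) -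
      (Real.log (P.m (fun w => (L k w, N k w)) w) - Real.log (P.m (fun w => (Y w, N k w)) w))) =
      Real.log (P.m (fun w => (Y w, N (k + 1) w)) w * P.m (fun w => (L k w, N k w)) w /
        (P.m (fun w => (Y w, N k w)) w * P.m (fun w => (L k w, N (k + 1) w)) w)) := by
    rw [Real.log_div (mul_ne_zero p2.ne' p3.ne') (mul_ne_zero p4.ne' p1.ne'), Real.log_mul p2.ne' p3.ne',
      Real.log_mul p4.ne' p1.ne']
    ring
  rw [e1, Real.exp_log (div_pos (mul_pos p2 p3) (mul_pos p4 p1))]

theorem ce_exp_ai (hN : ∀ k, Fac (N (k + 1)) (N k)) (hY : ∀ k, Fac (L k) Y) (k : ℕ) {w : Om} (hw : P.p w ≠ 0) :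
    P.ce (fun w => (L k w, N k w)) (fun w => Real.exp (- ai P N L Y k w)) w ≤ 1 := by
  have h1 : P.ce (fun v => (L k v, Y v, N k v))
      (Dead.rr P (L k) (fun w => (Y w, N k w)) (fun w => (Y w, N (k + 1) w))) w ≤ 1 := by
    refine Dead.ce_rr_le P ?_ hw
    intro a b hab
    have h1 := (Prod.mk.inj hab).1
    have h2 := (Prod.mk.inj hab).2
    simp only [h1, hN k a b h2]
  rw [P.ce_congr_map (X := fun v => (L k v, Y v, N k v)) (Y := fun v => (L k v, N k v))
    (fun a b hab => by simp only [Prod.mk.injEq] at hab ⊢; exact ⟨hab.1, hab.2.2⟩)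
    (fun a b hab => by simp only [Prod.mk.injEq] at hab ⊢; exact ⟨hab.1, hY k a b hab.1, hab.2⟩)] at h1
  rwa [P.ce_congr (fun v hv => exp_neg_ai P hY k hv)]

theorem E_lq (hY : ∀ k, Fac (L k) Y) (k : ℕ) :
    P.E (lq P N L Y k) = - P.Hc (L k) (fun w => (Y w, N k w)) := by
  unfold FP.Hc FP.H
  rw [← P.E_sub, ← P.E_neg]
  refine P.E_congr fun w hw => ?_
  have e : P.m (fun v => (L k v, Y v, N k v)) w = P.m (fun v => (L k v, N k v)) w :=
    P.m_congr (fun a b hab => by simp only [Prod.mk.injEq] at hab ⊢; exact ⟨hab.1, hab.2.2⟩)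
      (fun a b hab => by simp only [Prod.mk.injEq] at hab ⊢; exact ⟨hab.1, hY k a b hab.1, hab.2⟩) w
  unfold lq
  rw [e, Real.log_div (P.m_pos _ hw).ne' (P.m_pos _ hw).ne']
  ring

theorem E_ai (hN : ∀ k, Fac (N (k + 1)) (N k)) (hY : ∀ k, Fac (L k) Y) (k : ℕ) :
    P.E (ai P N L Y k) = P.I (L k) (N (k + 1)) (fun w => (Y w, N k w)) := by
  have e1 : ∀ w, P.m (fun v => (L k v, Y v, N k v)) w = P.m (fun v => (L k v, N k v)) w :=
    P.m_congr (fun a b hab => by simp only [Prod.mk.injEq] at hab ⊢; exact ⟨hab.1, hab.2.2⟩)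
      (fun a b hab => by simp only [Prod.mk.injEq] at hab ⊢; exact ⟨hab.1, hY k a b hab.1, hab.2⟩)
  have e2 : ∀ w, P.m (fun v => (N (k + 1) v, Y v, N k v)) w = P.m (fun v => (Y v, N (k + 1) v)) w :=
    P.m_congr (fun a b hab => by simp only [Prod.mk.injEq] at hab ⊢; exact ⟨hab.2.1, hab.1⟩)
      (fun a b hab => by simp only [Prod.mk.injEq] at hab ⊢; exact ⟨hab.2, hab.1, hN k a b hab.2⟩)
  have e3 : ∀ w, P.m (fun v => (L k v, N (k + 1) v, Y v, N k v)) w = P.m (fun v => (L k v, N (k + 1) v)) w :=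
    P.m_congr (fun a b hab => by simp only [Prod.mk.injEq] at hab ⊢; exact ⟨hab.1, hab.2.1⟩)
      (fun a b hab => by
        simp only [Prod.mk.injEq] at hab ⊢
        exact ⟨hab.1, hab.2, hY k a b hab.1, hN k a b hab.2⟩)
  have h1 : P.E (ai P N L Y k) = P.E (fun w => (- Real.log (P.m (fun v => (L k v, Y v, N k v)) w) +
      - Real.log (P.m (fun v => (N (k + 1) v, Y v, N k v)) w) -
      (- Real.log (P.m (fun v => (L k v, N (k + 1) v, Y v, N k v)) w))) -
      (- Real.log (P.m (fun v => (Y v, N k v)) w))) := by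
    refine P.E_congr fun w hw => ?_
    rw [ai_eq P k hw, e1, e2, e3]
    ring
  rw [h1, P.E_sub, P.E_sub, P.E_add]
  rfl

theorem E_bi (hL : ∀ k, Fac (L (k + 1)) (L k)) (k : ℕ) :
    P.E (bi P N L Y k) = P.Hc (L (k + 1)) (fun w => (L k w, N (k + 1) w)) := by
  unfold FP.Hc FP.H
  rw [← P.E_sub]
  refine P.E_congr fun w hw => ?_
  have e : P.m (fun v => (L (k + 1) v, L k v, N (k + 1) v)) w = P.m (fun v => (L (k + 1) v, N (k + 1) v)) w :=
    P.m_congr (fun a b hab => by simp only [Prod.mk.injEq] at hab ⊢; exact ⟨hab.1, hab.2.2⟩)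
      (fun a b hab => by simp only [Prod.mk.injEq] at hab ⊢; exact ⟨hab.1, hL k a b hab.1, hab.2⟩) w
  rw [e, bi_log P k hw]
  ring

theorem lq_sum (T : ℕ) (w : Om) : ∑ k ∈ range T, (ai P N L Y k w - bi P N L Y k w) =
    lq P N L Y T w - lq P N L Y 0 w := by
  induction T with
  | zero => simp
  | succ T ih =>
    rw [Finset.sum_range_succ, ih]
    unfold ai bi
    ring

/-- the public increments have bounded sum -/
theorem sum_ai (hY : ∀ k, Fac (L k) Y) (T : ℕ) : ∑ k ∈ range T, P.E (ai P N L Y k) ≤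
    P.Hc (L 0) (fun w => (Y w, N 0 w)) + ∑ k ∈ range T, P.E (bi P N L Y k) := by
  have h1 : P.E (fun w => ∑ k ∈ range T, (ai P N L Y k w - bi P N L Y k w)) =
      P.E (fun w => lq P N L Y T w - lq P N L Y 0 w) := P.E_congr fun w _ => lq_sum P T w
  rw [P.E_sum, P.E_sub, E_lq P hY 0] at h1
  have h2 : P.E (lq P N L Y T) ≤ 0 := P.E_le_const fun w _ => lq_le P hY T w
  have h3 : ∑ k ∈ range T, P.E (fun w => ai P N L Y k w - bi P N L Y k w) =
      ∑ k ∈ range T, P.E (ai P N L Y k) - ∑ k ∈ range T, P.E (bi P N L Y k) := by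
    rw [← Finset.sum_sub_distrib]
    exact Finset.sum_congr rfl fun k _ => P.E_sub _ _
  rw [h3] at h1
  linarith

/-! ## the potential -/

/-- `exp (-x) - 1 + x` -/
noncomputable def phi (x : ℝ) : ℝ := Real.exp (-x) - 1 + x

theorem phi_nonneg (x : ℝ) : 0 ≤ phi x := by
  unfold phi
  have := Real.add_one_le_exp (-x)
  linarith

theorem phi_zero : phi 0 = 0 := by
  unfold phi
  rw [neg_zero, Real.exp_zero]
  ring

theorem phi_ge {δ x : ℝ} (h0 : 0 < δ) (h1 : δ ≤ 1) (hx : δ ≤ |x|) : δ ^ 2 / 3 ≤ phi x := by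
  have hpos : ∀ y : ℝ, δ ≤ y → δ ^ 2 / 3 ≤ phi y := by
    intro y hy
    have hm : phi δ ≤ phi y := by
      unfold phi
      have h2 : Real.exp (-δ) - Real.exp (-y) ≤ y - δ := by
        have h3 : Real.exp (-y) = Real.exp (-δ) * Real.exp (-(y - δ)) := by
          rw [← Real.exp_add]
          congr 1
          ring
        have h4 := Real.add_one_le_exp (-(y - δ))
        have h5 : Real.exp (-δ) ≤ 1 := Real.exp_le_one_iff.2 (by linarith)
        have h6 := Real.exp_pos (-δ)
        rw [h3]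
        nlinarith
      linarith
    refine le_trans ?_ hm
    have h2 : 1 - δ + δ ^ 2 / 2 - δ ^ 3 / 6 ≤ Real.exp (-δ) := by
      have h3 : ∀ z ∈ Set.Icc (0 : ℝ) 1, 1 - z + z ^ 2 / 2 - z ^ 3 / 6 ≤ Real.exp (-z) := by
        have hq : ∀ z : ℝ, 0 ≤ z → 0 ≤ Real.exp (-z) - (1 - z) := by
          intro z _
          have := Real.add_one_le_exp (-z)
          linarith
        have d1 : ∀ z : ℝ, HasDerivAt (fun z => Real.exp (-z)) (- Real.exp (-z)) z := by
          intro z
          have := (hasDerivAt_neg z).exp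
          convert this using 1
          ring
        have m1 : MonotoneOn (fun z : ℝ => 1 - z + z ^ 2 / 2 - Real.exp (-z)) (Set.Ici 0) := by
          refine monotoneOn_of_deriv_nonneg (convex_Ici 0) ?_ ?_ ?_
          · fun_prop
          · fun_prop
          · intro z hz
            rw [interior_Ici] at hz
            have hd : HasDerivAt (fun z : ℝ => 1 - z + z ^ 2 / 2 - Real.exp (-z)) (0 - 1 + (2 * z) / 2 - (- Real.exp (-z))) z := by
              refine (((hasDerivAt_const z (1 : ℝ)).sub (hasDerivAt_id z)).add ?_).sub (d1 z)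
              simpa using (hasDerivAt_pow 2 z).div_const 2
            rw [hd.deriv]
            have := hq z (le_of_lt hz)
            linarith
        have q2 : ∀ z : ℝ, 0 ≤ z → Real.exp (-z) ≤ 1 - z + z ^ 2 / 2 := by
          intro z hz
          have := m1 (Set.mem_Ici.2 le_rfl) (Set.mem_Ici.2 hz) hz
          simp only [neg_zero, Real.exp_zero] at this
          linarith
        have m2 : MonotoneOn (fun z : ℝ => Real.exp (-z) - (1 - z + z ^ 2 / 2 - z ^ 3 / 6)) (Set.Ici 0) := by
          refine monotoneOn_of_deriv_nonneg (convex_Ici 0) ?_ ?_ ?_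
          · fun_prop
          · fun_prop
          · intro z hz
            rw [interior_Ici] at hz
            have hd : HasDerivAt (fun z : ℝ => Real.exp (-z) - (1 - z + z ^ 2 / 2 - z ^ 3 / 6))
                (- Real.exp (-z) - (0 - 1 + (2 * z) / 2 - (3 * z ^ 2) / 6)) z := by
              refine (d1 z).sub ((((hasDerivAt_const z (1 : ℝ)).sub (hasDerivAt_id z)).add ?_).sub ?_)
              · simpa using (hasDerivAt_pow 2 z).div_const 2
              · simpa using (hasDerivAt_pow 3 z).div_const 6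
            rw [hd.deriv]
            have := q2 z (le_of_lt hz)
            linarith
        intro z hz
        have := m2 (Set.mem_Ici.2 le_rfl) (Set.mem_Ici.2 hz.1) hz.1
        simp only [neg_zero, Real.exp_zero] at this
        linarith
      exact h3 δ ⟨h0.le, h1⟩
    unfold phi
    nlinarith [mul_nonneg (sq_nonneg δ) (sub_nonneg.2 h1)]
  rcases le_or_gt 0 x with h | h
  · rw [abs_of_nonneg h] at hx
    exact hpos x hx
  · rw [abs_of_neg h] at hx
    have h2 : Real.exp (-x) ≥ 1 + (-x) + (-x) ^ 2 / 2 := by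
      have := Real.quadratic_le_exp_of_nonneg (x := -x) (by linarith)
      linarith
    unfold phi
    nlinarith

section moves

variable {st : ℕ → Om → ℕ}

/-- sum of `f` since the last restart -/
noncomputable def since (f : ℕ → Om → ℝ) (st : ℕ → Om → ℕ) (k : ℕ) (w : Om) : ℝ := ∑ i ∈ Ico (st k w) k, f i w

theorem since_succ (f : ℕ → Om → ℝ) {k : ℕ} {w : Om} (h : st k w ≤ k) :
    ∑ i ∈ Ico (st k w) (k + 1), f i w = since f st k w + f k w := by
  unfold since
  rw [Finset.sum_Ico_succ_top h]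

theorem st_le (h0 : ∀ w, st 0 w = 0) (h1 : ∀ k w, st (k + 1) w = k + 1 ∨ st (k + 1) w = st k w) (k : ℕ) (w : Om) :
    st k w ≤ k := by
  induction k with
  | zero => rw [h0 w]
  | succ k ih =>
    rcases h1 k w with h | h
    · rw [h]
    · rw [h]
      omega

/-- **number of restarts after a move of the public part** -/
theorem moves_a (hN : ∀ k, Fac (N (k + 1)) (N k)) (hL : ∀ k, Fac (L (k + 1)) (L k)) (hY : ∀ k, Fac (L k) Y)
    (h0 : ∀ w, st 0 w = 0) (h1 : ∀ k w, st (k + 1) w = k + 1 ∨ st (k + 1) w = st k w)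
    (hst : ∀ k, Fac (N k) (st k)) {δ : ℝ} (hd0 : 0 < δ) (hd1 : δ ≤ 1) (T : ℕ) :
    ∑ k ∈ range T, P.Pr (fun w => st (k + 1) w = k + 1 ∧ δ ≤ |∑ i ∈ Ico (st k w) (k + 1), ai P N L Y i w|) ≤
      3 / δ ^ 2 * ∑ k ∈ range T, P.E (ai P N L Y k) := by
  have hle := st_le h0 h1
  set A : ℕ → Om → ℝ := since (ai P N L Y) st with hA
  have hAs : ∀ k w, ∑ i ∈ Ico (st k w) (k + 1), ai P N L Y i w = A k w + ai P N L Y k w := fun k w =>
    since_succ _ (hle k w)
  have hNle : ∀ {i k : ℕ}, i ≤ k → Fac (N k) (N i) := fun {i k} hik => by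
    induction k, hik using Nat.le_induction with
    | base => exact Fac.refl _
    | succ k _ ih => exact (hN k).trans ih
  have hLle : ∀ {i k : ℕ}, i ≤ k → Fac (L k) (L i) := fun {i k} hik => by
    induction k, hik using Nat.le_induction with
    | base => exact Fac.refl _
    | succ k _ ih => exact (hL k).trans ih
  have hAfac : ∀ k, Fac (fun w => (L k w, N k w)) (A k) := by
    intro k a b hab
    have e1 := (Prod.mk.inj hab).1
    have e2 := (Prod.mk.inj hab).2
    rw [hA]
    unfold since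
    rw [hst k a b e2]
    refine Finset.sum_congr rfl fun i hi => ?_
    have hi2 : i < k := (Finset.mem_Ico.1 hi).2
    refine ai_fac P hN hY i a b ?_
    show (L i a, N (i + 1) a) = (L i b, N (i + 1) b)
    rw [hLle hi2.le a b e1, hNle (Nat.succ_le_of_lt hi2) a b e2]
  have hstep : ∀ k, δ ^ 2 / 3 * P.Pr (fun w => st (k + 1) w = k + 1 ∧
      δ ≤ |∑ i ∈ Ico (st k w) (k + 1), ai P N L Y i w|) ≤
      P.E (fun w => phi (A k w)) + P.E (ai P N L Y k) - P.E (fun w => phi (A (k + 1) w)) := by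
    intro k
    have s1 : δ ^ 2 / 3 * P.Pr (fun w => st (k + 1) w = k + 1 ∧
        δ ≤ |∑ i ∈ Ico (st k w) (k + 1), ai P N L Y i w|) ≤
        P.E (fun w => phi (A k w + ai P N L Y k w) - phi (A (k + 1) w)) := by
      unfold FP.Pr
      rw [← P.E_smul]
      refine P.E_mono fun w _ => ?_
      rcases h1 k w with h | h
      · have e1 : A (k + 1) w = 0 := by
          rw [hA]
          unfold since
          rw [h, Finset.Ico_self, Finset.sum_empty]
        rw [e1, phi_zero, sub_zero]
        by_cases hh : δ ≤ |∑ i ∈ Ico (st k w) (k + 1), ai P N L Y i w|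
        · rw [ind_of ⟨h, hh⟩, mul_one]
          rw [hAs] at hh
          exact phi_ge hd0 hd1 hh
        · rw [ind_not fun hc => hh hc.2, mul_zero]
          exact phi_nonneg _
      · have e1 : A (k + 1) w = A k w + ai P N L Y k w := by
          rw [← hAs k w, hA]
          unfold since
          rw [h]
        rw [e1, sub_self]
        rw [ind_not, mul_zero]
        rintro ⟨h2, _⟩
        have := hle k w
        omega
    rw [P.E_sub] at s1
    have s2 : P.E (fun w => phi (A k w + ai P N L Y k w)) ≤ P.E (fun w => phi (A k w)) + P.E (ai P N L Y k) := by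
      have e1 : ∀ w, phi (A k w + ai P N L Y k w) =
          Real.exp (- A k w) * Real.exp (- ai P N L Y k w) + ((-1 + A k w) + ai P N L Y k w) := by
        intro w
        unfold phi
        rw [neg_add, Real.exp_add]
        ring
      have e2 : P.E (fun w => Real.exp (- A k w) * Real.exp (- ai P N L Y k w)) ≤ P.E (fun w => Real.exp (- A k w)) := by
        have hf : Fac (fun w => (L k w, N k w)) (fun w => Real.exp (- A k w)) := (hAfac k).comp fun x => Real.exp (-x)
        rw [← P.E_mul_ce hf]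
        refine P.E_mono fun w hw => ?_
        have := ce_exp_ai P hN hY k hw
        have h2 := Real.exp_pos (- A k w)
        nlinarith
      have e3 : P.E (fun w => phi (A k w)) = P.E (fun w => Real.exp (- A k w)) + P.E (fun w => -1 + A k w) := by
        rw [← P.E_add]
        refine P.E_congr fun w _ => ?_
        unfold phi
        ring
      rw [P.E_congr fun w _ => e1 w, P.E_add, P.E_add, e3]
      linarith
    linarith
  have htel : ∀ T, ∑ k ∈ range T, (P.E (fun w => phi (A k w)) + P.E (ai P N L Y k) - P.E (fun w => phi (A (k + 1) w))) =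
      P.E (fun w => phi (A 0 w)) - P.E (fun w => phi (A T w)) + ∑ k ∈ range T, P.E (ai P N L Y k) := by
    intro T
    induction T with
    | zero => simp
    | succ T ih =>
      rw [Finset.sum_range_succ, ih, Finset.sum_range_succ]
      ring
  have hA0 : P.E (fun w => phi (A 0 w)) = 0 := by
    rw [← P.E_const 0]
    refine P.E_congr fun w _ => ?_
    rw [hA]
    unfold since
    rw [h0 w, Finset.Ico_self, Finset.sum_empty, phi_zero]
  have hAT : 0 ≤ P.E (fun w => phi (A T w)) := P.E_nonneg fun w _ => phi_nonneg _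
  have hsum := Finset.sum_le_sum fun k (_ : k ∈ range T) => hstep k
  rw [← Finset.mul_sum, htel, hA0] at hsum
  have hd2 : 0 < δ ^ 2 := by positivity
  have e4 : ∀ x : ℝ, 3 / δ ^ 2 * (δ ^ 2 / 3 * x) = x := fun x => by field_simp
  calc _ = 3 / δ ^ 2 * (δ ^ 2 / 3 * ∑ k ∈ range T, P.Pr (fun w => st (k + 1) w = k + 1 ∧
      δ ≤ |∑ i ∈ Ico (st k w) (k + 1), ai P N L Y i w|)) := (e4 _).symm
    _ ≤ _ := by
      refine mul_le_mul_of_nonneg_left ?_ (by positivity)
      linarith

/-- **number of restarts after large births** -/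
theorem moves_b (hL : ∀ k, Fac (L (k + 1)) (L k))
    (h0 : ∀ w, st 0 w = 0) (h1 : ∀ k w, st (k + 1) w = k + 1 ∨ st (k + 1) w = st k w) {δ : ℝ} (hd0 : 0 < δ) (T : ℕ) :
    ∑ k ∈ range T, P.Pr (fun w => st (k + 1) w = k + 1 ∧ δ ≤ ∑ i ∈ Ico (st k w) (k + 1), bi P N L Y i w) ≤
      1 / δ * ∑ k ∈ range T, P.E (bi P N L Y k) := by
  have hle := st_le h0 h1
  set A : ℕ → Om → ℝ := since (bi P N L Y) st with hA
  have hAs : ∀ k w, ∑ i ∈ Ico (st k w) (k + 1), bi P N L Y i w = A k w + bi P N L Y k w := fun k w =>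
    since_succ _ (hle k w)
  have hnn : ∀ k w, P.p w ≠ 0 → 0 ≤ A k w := fun k w hw => Finset.sum_nonneg fun i _ => bi_nonneg P hL i hw
  have hstep : ∀ k, δ * P.Pr (fun w => st (k + 1) w = k + 1 ∧
      δ ≤ ∑ i ∈ Ico (st k w) (k + 1), bi P N L Y i w) ≤
      P.E (A k) + P.E (bi P N L Y k) - P.E (A (k + 1)) := by
    intro k
    unfold FP.Pr
    rw [← P.E_smul, ← P.E_add, ← P.E_sub]
    refine P.E_mono fun w hw => ?_
    have hb := bi_nonneg P (N := N) (Y := Y) hL k hw
    rcases h1 k w with h | h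
    · have e1 : A (k + 1) w = 0 := by
        rw [hA]
        unfold since
        rw [h, Finset.Ico_self, Finset.sum_empty]
      rw [e1, sub_zero]
      by_cases hh : δ ≤ ∑ i ∈ Ico (st k w) (k + 1), bi P N L Y i w
      · rw [ind_of ⟨h, hh⟩, mul_one]
        rwa [hAs] at hh
      · rw [ind_not fun hc => hh hc.2, mul_zero]
        have := hnn k w hw
        linarith
    · have e1 : A (k + 1) w = A k w + bi P N L Y k w := by
        rw [← hAs k w, hA]
        unfold since
        rw [h]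
      rw [e1, sub_self]
      rw [ind_not, mul_zero]
      rintro ⟨h2, _⟩
      have := hle k w
      omega
  have htel : ∀ T, ∑ k ∈ range T, (P.E (A k) + P.E (bi P N L Y k) - P.E (A (k + 1))) =
      P.E (A 0) - P.E (A T) + ∑ k ∈ range T, P.E (bi P N L Y k) := by
    intro T
    induction T with
    | zero => simp
    | succ T ih =>
      rw [Finset.sum_range_succ, ih, Finset.sum_range_succ]
      ring
  have hA0 : P.E (A 0) = 0 := by
    rw [← P.E_const 0]
    refine P.E_congr fun w _ => ?_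
    rw [hA]
    unfold since
    rw [h0 w, Finset.Ico_self, Finset.sum_empty]
  have hAT : 0 ≤ P.E (A T) := P.E_nonneg fun w hw => hnn T w hw
  have hsum := Finset.sum_le_sum fun k (_ : k ∈ range T) => hstep k
  rw [← Finset.mul_sum, htel, hA0] at hsum
  have e4 : ∀ x : ℝ, 1 / δ * (δ * x) = x := fun x => by field_simp
  calc _ = 1 / δ * (δ * ∑ k ∈ range T, P.Pr (fun w => st (k + 1) w = k + 1 ∧
      δ ≤ ∑ i ∈ Ico (st k w) (k + 1), bi P N L Y i w)) := (e4 _).symm
    _ ≤ _ := by
      refine mul_le_mul_of_nonneg_left ?_ (by positivity)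
      linarith

end moves

end Pool.Agent.GMH.TD
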