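import Pool.Agent.GMH.Psi
import Pool.Agent.M3.Indep

/-!
# GMH.Sat: saturation of the minimiser in one class, with coins, for events and joint additions (helper27)

Notation of `GMH.Psi`.  `ker W J v w : W J v = W J w`.

* `SatA P B N S L Adm` : `0 <= Phi W` for every `W` whose partitions are admissible; `Mini.satA`, `SatA.gen`;
* LOCAL form at an index set `K0`: `cutK K0 A W` = `W` on the event `A` and on the index sets containing `K0`;
  `Phi_cut` : `Phi P (cutK K0 A W) = P(A) Phi (P.cond A) W`, `A` a function of `(L_I, I <= K0)`, `B K0`; `SatA.loc`;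
* COINS: `Phi_coin` : `E_theta Phi P (W at theta) <= Phi (P x nu) W`; `SatA.coin`;
* `FP.klc Q P X Z` = conditional relative entropy of the laws of `X` given `Z`; `klc_nonneg`, `klc_event_le`;
* JOINT ADDITIONS: `joint` : for an event `E` and an addition `G` on the index sets containing `K0`
  `sum_(J > K0) N J klc_J <= 2 N K0 (log (1/P(E)) + 1) + Phi (P.cond E) G`;
* `klc_pay` : `q log (1/p) - log 2 <= klc`, `q` the mass of an event of `(X,Z)` under `Q`, `p` the mean of its
  conditional probability under `P`.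
-/

set_option autoImplicit false
set_option linter.unusedSectionVars false

namespace Pool.Agent.GMH

open Finset Pool.Agent.PWZ Pool.Agent.M3

/-! ## admissible additions -/

section adm

variable {Om K : Type*} {υ ν ν' : Type*} {β : Finset K → Type*}

/-- the partitions of a family -/
def ker (W : Finset K → Om → ν) : Finset K → Om → Om → Prop := fun J v w => W J v = W J w

variable [Fintype Om] {P : FP Om} {B : (J : Finset K) → Om → β J} {N : Finset K → ℝ} {S : Finset (Finset K)}
  {L : Finset K → Om → υ}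

/-- saturation against the admissible additions -/
def SatA (P : FP Om) (B : (J : Finset K) → Om → β J) (N : Finset K → ℝ) (S : Finset (Finset K)) (L : Finset K → Om → υ)
    (Adm : (Finset K → Om → Om → Prop) → Prop) : Prop :=
  ∀ W : Finset K → Om → Om, Adm (ker W) → 0 ≤ Phi P B N S L W

theorem exists_codes (P : FP Om) (W : Finset K → Om → ν) :
    ∃ W' : Finset K → Om → Om, (∀ J, Fac (W J) (W' J)) ∧ (∀ J, Fac (W' J) (W J)) ∧ ker W' = ker W := by
  have := P.nonempty
  choose W' h1 h2 using fun J => exists_code (W J)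
  refine ⟨W', h1, h2, ?_⟩
  funext J v w
  exact propext ⟨fun h => h2 J v w h, fun h => h1 J v w h⟩

theorem SatA.gen {Adm : (Finset K → Om → Om → Prop) → Prop} (h : SatA P B N S L Adm) (W : Finset K → Om → ν)
    (hW : Adm (ker W)) : 0 ≤ Phi P B N S L W := by
  obtain ⟨W', h1, h2, h3⟩ := exists_codes P W
  rw [Phi_congr h1 h2]
  exact h W' (by rw [h3]; exact hW)

/-- the minimiser is saturated -/
theorem Mini.satA {Adm : (Finset K → Om → Om → Prop) → Prop} {V : Finset K → Om → Om}
    (h : Mini P B N S L {V | Adm (ker V)} V) (hN : ∀ J ∈ S, 0 ≤ N J) :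
    SatA P B N S (pr L V) (fun r => Adm (fun J v w => V J v = V J w ∧ r J v w)) := by
  intro W hW
  obtain ⟨V', h1, h2, h3⟩ := exists_codes P (pr V W)
  refine h.sat hN (V' := V') ?_ h1 h2
  show Adm (ker V')
  rw [h3]
  have e : ker (pr V W) = fun J v w => V J v = V J w ∧ ker W J v w := by
    funext J v w
    exact propext pr_eq
  rw [e]
  exact hW

/-- dependency: the addition at `J` is a function of `D J` -/
def AdmD {δ : Type*} (D : Finset K → Om → δ) (r : Finset K → Om → Om → Prop) : Prop :=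
  ∀ J v w, D J v = D J w → r J v w

end adm

/-! ## conditional entropies on an event -/

section cut

variable {Om : Type*} [Fintype Om] {P : FP Om} {κ ι ι' ι'' γ : Type*}

theorem Hc_eq_E_log (P : FP Om) (X : Om → κ) (Z : Om → ι) :
    P.Hc X Z = P.E (fun w => Real.log (P.m Z w / P.m (fun v => (X v, Z v)) w)) := by
  unfold FP.Hc FP.H
  rw [← FP.E_sub]
  refine P.E_congr (fun w hw => ?_)
  rw [Real.log_div (P.m_pos Z hw).ne' (P.m_pos (fun v => (X v, Z v)) hw).ne']
  ring

theorem Hc_congr_supp {X : Om → κ} {X' : Om → ι} {Z : Om → ι'} {Z' : Om → ι''}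
    (h1 : ∀ v w, P.p v ≠ 0 → P.p w ≠ 0 → (Z v = Z w ↔ Z' v = Z' w))
    (h2 : ∀ v w, P.p v ≠ 0 → P.p w ≠ 0 → Z v = Z w → (X v = X w ↔ X' v = X' w)) : P.Hc X Z = P.Hc X' Z' := by
  unfold FP.Hc
  rw [FP.H_congr_supp (P := P) (X := fun w => (X w, Z w)) (X' := fun w => (X' w, Z' w)) (fun v w hv hw => ?_),
    FP.H_congr_supp (P := P) h1]
  simp only [Prod.mk.injEq]
  constructor
  · rintro ⟨a, b⟩; exact ⟨(h2 v w hv hw b).1 a, (h1 v w hv hw).1 b⟩
  · rintro ⟨a, b⟩
    have b' := (h1 v w hv hw).2 b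
    exact ⟨(h2 v w hv hw b').2 a, b'⟩

/-- mass of a fibre inside the event -/
theorem cond_m_of_fac {A : Om → Prop} (hA0 : P.Pr A ≠ 0) {Z : Om → ι} (hZ : Fac Z A) {w : Om} (hw : A w) :
    (P.cond A).m Z w = P.m Z w / P.Pr A := by
  rw [FP.cond_m hA0]
  congr 1
  unfold FP.m
  refine P.E_congr fun v _ => ?_
  by_cases h : Z v = Z w
  · rw [ind_of h, mul_one, ind_of (by rw [hZ v w h]; exact hw)]
  · rw [ind_not h, mul_zero]

/-- **cut** : the conditional entropy of a map which is constant off the event -/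
theorem Hc_cut {A : Om → Prop} (hA0 : P.Pr A ≠ 0) {X : Om → κ} {Z : Om → ι} (hZ : Fac Z A)
    (hX : ∀ v w, ¬ A v → ¬ A w → X v = X w) : P.Hc X Z = P.Pr A * (P.cond A).Hc X Z := by
  rw [Hc_eq_E_log, Hc_eq_E_log, FP.Pr_mul_cond_E hA0]
  refine P.E_congr fun w hw => ?_
  by_cases hAw : A w
  · rw [ind_of hAw, one_mul, cond_m_of_fac hA0 hZ hAw,
      cond_m_of_fac hA0 (Z := fun v => (X v, Z v)) (fun v u h => hZ v u (Prod.mk.injEq _ _ _ _ ▸ h : _ ∧ _).2) hAw]
    congr 1
    field_simp
  · rw [ind_not hAw, zero_mul]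
    have : P.m Z w = P.m (fun v => (X v, Z v)) w := by
      unfold FP.m
      refine P.E_congr fun v _ => ?_
      congr 1
      refine propext ⟨fun h => ?_, fun h => (Prod.mk.injEq _ _ _ _ ▸ h : _ ∧ _).2⟩
      have hAv : ¬ A v := by rw [hZ v w h]; exact hAw
      show (X v, Z v) = (X w, Z w)
      rw [hX v w hAv hAw, h]
    rw [this, div_self (P.m_pos _ hw).ne', Real.log_one]

/-- the information with a map which is constant off the event -/
theorem I_cut {A : Om → Prop} (hA0 : P.Pr A ≠ 0) {X : Om → κ} {Y : Om → ι'} {Z : Om → ι} (hZ : Fac Z A)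
    (hY : ∀ v w, ¬ A v → ¬ A w → Y v = Y w) : P.I X Y Z = P.Pr A * (P.cond A).I X Y Z := by
  rw [P.I_eq_Hc', (P.cond A).I_eq_Hc', Hc_cut hA0 hZ hY,
    Hc_cut hA0 (Z := fun w => (X w, Z w)) (fun v u h => hZ v u (Prod.mk.injEq _ _ _ _ ▸ h : _ ∧ _).2) hY]
  ring

theorem cond_supp {A : Om → Prop} (hA0 : P.Pr A ≠ 0) {w : Om} (hw : (P.cond A).p w ≠ 0) : A w ∧ P.p w ≠ 0 :=
  (FP.cond_p_ne hA0).1 hw

/-- entropy of an event -/
theorem H_event_le {E : Om → Prop} (hE : 0 < P.Pr E) : P.H E ≤ P.Pr E * (Real.log (1 / P.Pr E) + 1) := by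
  obtain ⟨w0, _⟩ := P.exists_p_ne
  have h := P.Hc_ev_le (V := E) (W := fun _ : Om => ()) (w0 := w0) (fun _ _ => rfl) hE
  have h1 : P.Pr (fun _ : Om => () = ()) = 1 := by
    unfold FP.Pr
    rw [P.E_congr (g := fun _ => 1) (fun _ _ => ind_of rfl), FP.E_const]
  have h2 : P.Hc E (fun _ => ()) = P.H E := by
    unfold FP.Hc
    rw [FP.H_const, sub_zero]
    exact P.H_congr (Fac.fst _ _) ((Fac.refl E).prod (Fac.const E ()))
  rw [h1, h2] at h
  exact h

end cut

/-! ## conditional relative entropy -/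

end Pool.Agent.GMH

namespace Pool.Agent.M3

open Finset Pool.Agent.PWZ

variable {Om : Type*} [Fintype Om]

/-- relative entropy of the conditional laws of `X` given `Z` -/
noncomputable def FP.klc (Q P : FP Om) {κ ι : Type*} (X : Om → κ) (Z : Om → ι) : ℝ :=
  Q.E (fun w => Real.log (Q.m (fun v => (X v, Z v)) w / Q.m Z w / (P.m (fun v => (X v, Z v)) w / P.m Z w)))

end Pool.Agent.M3

namespace Pool.Agent.GMH

open Finset Pool.Agent.PWZ Pool.Agent.M3

section klc

variable {Om : Type*} [Fintype Om] {P Q : FP Om} {κ ι ι' : Type*}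

theorem klc_eq (hac : Q.Ac P) (X : Om → κ) (Z : Om → ι) :
    Q.klc P X Z = Q.kl P (fun w => (X w, Z w)) - Q.kl P Z := by
  unfold FP.klc FP.kl
  rw [← FP.E_sub]
  refine Q.E_congr fun w hw => ?_
  have hp := hac w hw
  have a := (Q.m_pos (fun v => (X v, Z v)) hw).ne'
  have b := (Q.m_pos Z hw).ne'
  have c := (P.m_pos (fun v => (X v, Z v)) hp).ne'
  have d := (P.m_pos Z hp).ne'
  rw [Real.log_div (div_ne_zero a b) (div_ne_zero c d), Real.log_div a b, Real.log_div c d, Real.log_div a c,
    Real.log_div b d]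
  ring

theorem klc_nonneg (hac : Q.Ac P) (X : Om → κ) (Z : Om → ι) : 0 ≤ Q.klc P X Z := by
  rw [klc_eq hac]
  have := FP.kl_mono hac (X := fun w => (X w, Z w)) (Y := Z) (Fac.snd _ _)
  linarith

/-- Donsker-Varadhan for the conditional laws -/
theorem klc_dv (hac : Q.Ac P) (X : Om → κ) (Z : Om → ι) {f : Om → ℝ} (hf : Fac (fun w => (X w, Z w)) f) :
    Q.E f ≤ Q.klc P X Z + Q.E (fun w => Real.log (P.ce Z (fun v => Real.exp (f v)) w)) := by
  have hce0 : ∀ w, P.p w ≠ 0 → 0 < P.ce Z (fun v => Real.exp (f v)) w := by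
    intro w hw
    unfold FP.ce
    refine div_pos ?_ (P.m_pos Z hw)
    have h1 : P.p w * (ind (Z w = Z w) * Real.exp (f w)) ≤
        P.E (fun v => ind (Z v = Z w) * Real.exp (f v)) :=
      Finset.single_le_sum (f := fun v => P.p v * (ind (Z v = Z w) * Real.exp (f v)))
        (fun v _ => mul_nonneg (P.nn v) (mul_nonneg (ind_nonneg _) (Real.exp_pos _).le)) (Finset.mem_univ w)
    rw [ind_of rfl, one_mul] at h1
    exact lt_of_lt_of_le (mul_pos (lt_of_le_of_ne (P.nn w) (Ne.symm hw)) (Real.exp_pos _)) h1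
  set R : Om → ℝ := fun w => Q.m (fun v => (X v, Z v)) w / Q.m Z w / (P.m (fun v => (X v, Z v)) w / P.m Z w) *
    (P.ce Z (fun v => Real.exp (f v)) w / Real.exp (f w)) with hR
  have key := Q.E_log_nonneg (R := R) (fun w hw => by
      have hp := hac w hw
      have a := (Q.m_pos (fun v => (X v, Z v)) hw)
      have b := (Q.m_pos Z hw)
      have c := (P.m_pos (fun v => (X v, Z v)) hp)
      have d := (P.m_pos Z hp)
      exact mul_pos (div_pos (div_pos a b) (div_pos c d)) (div_pos (hce0 w hp) (Real.exp_pos _))) ?_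
  · have h1 : Q.E (fun w => Real.log (R w)) =
        Q.klc P X Z + Q.E (fun w => Real.log (P.ce Z (fun v => Real.exp (f v)) w)) - Q.E f := by
      unfold FP.klc
      rw [← FP.E_add, ← FP.E_sub]
      refine Q.E_congr fun w hw => ?_
      have hp := hac w hw
      have a := (Q.m_pos (fun v => (X v, Z v)) hw)
      have b := (Q.m_pos Z hw)
      have c := (P.m_pos (fun v => (X v, Z v)) hp)
      have d := (P.m_pos Z hp)
      rw [hR]
      simp only
      rw [Real.log_mul (div_pos (div_pos a b) (div_pos c d)).ne' (div_pos (hce0 w hp) (Real.exp_pos _)).ne',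
        Real.log_div (hce0 w hp).ne' (Real.exp_pos _).ne', Real.log_exp]
      ring
    rw [h1] at key
    linarith
  · -- E_Q [1/R] ≤ 1
    set g : Om → ℝ := fun w => P.m (fun v => (X v, Z v)) w / P.m Z w * (Real.exp (f w) / P.ce Z (fun v => Real.exp (f v)) w) *
      Q.m Z w with hg
    have e1 : Q.E (fun w => 1 / R w) = Q.E (fun w => g w / Q.m (fun v => (X v, Z v)) w) := by
      refine Q.E_congr fun w hw => ?_
      have hp := hac w hw
      have a := (Q.m_pos (fun v => (X v, Z v)) hw).ne'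
      have b := (Q.m_pos Z hw).ne'
      have c := (P.m_pos (fun v => (X v, Z v)) hp).ne'
      have d := (P.m_pos Z hp).ne'
      have e := (hce0 w hp).ne'
      have e' := (Real.exp_pos (f w)).ne'
      rw [hR, hg]
      simp only
      field_simp
    rw [e1]
    -- replace the mean over Q by a mean over P
    set k : Om → ℝ := fun w => Real.exp (f w) / P.ce Z (fun v => Real.exp (f v)) w * (Q.m Z w / P.m Z w) with hk
    have hkf : Fac (fun w => (X w, Z w)) k := by
      have h1 : Fac (fun w => (X w, Z w)) (P.ce Z (fun v => Real.exp (f v))) :=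
        (Fac.snd X Z).trans (P.ce_fac Z _)
      have h2 : Fac (fun w => (X w, Z w)) (Q.m Z) := (Fac.snd X Z).trans (Q.Fac_m Z)
      have h3 : Fac (fun w => (X w, Z w)) (P.m Z) := (Fac.snd X Z).trans (P.Fac_m Z)
      exact ((hf.comp Real.exp).comp₂ h1 (fun x y => x / y)).comp₂ (h2.comp₂ h3 (fun x y => x / y)) (fun x y => x * y)
    have hk0 : ∀ w, P.p w ≠ 0 → 0 ≤ k w := fun w hw =>
      mul_nonneg (div_nonneg (Real.exp_pos _).le (hce0 w hw).le) (div_nonneg (Q.m_nonneg _ _) (P.m_nonneg _ _))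
    have e2 : Q.E (fun w => g w / Q.m (fun v => (X v, Z v)) w) =
        Q.E (fun w => P.m (fun v => (X v, Z v)) w / Q.m (fun v => (X v, Z v)) w * k w) := by
      refine Q.E_congr fun w _ => ?_
      rw [hg, hk]
      simp only
      ring
    have e3 : Q.E (fun w => P.m (fun v => (X v, Z v)) w / Q.m (fun v => (X v, Z v)) w * k w) ≤ P.E k :=
      Q.E_ratio_le P hkf hk0
    have e4 : P.E k ≤ 1 := by
      have h1 : P.E k = P.E (fun w => Real.exp (f w) * (Q.m Z w / P.m Z w / P.ce Z (fun v => Real.exp (f v)) w)) := by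
        refine P.E_congr fun w _ => ?_
        rw [hk]
        simp only
        ring
      have hfac : Fac Z (fun w => Q.m Z w / P.m Z w / P.ce Z (fun v => Real.exp (f v)) w) :=
        ((Q.Fac_m Z).comp₂ (P.Fac_m Z) (fun x y => x / y)).comp₂ (P.ce_fac Z _) (fun x y => x / y)
      have h2 : P.E (fun w => Real.exp (f w) * (Q.m Z w / P.m Z w / P.ce Z (fun v => Real.exp (f v)) w)) =
          P.E (fun w => P.ce Z (fun v => Real.exp (f v)) w *
            (Q.m Z w / P.m Z w / P.ce Z (fun v => Real.exp (f v)) w)) := by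
        have h3 := P.E_mul_ce hfac (fun v => Real.exp (f v))
        rw [P.E_congr (g := fun w => (Q.m Z w / P.m Z w / P.ce Z (fun v => Real.exp (f v)) w) * Real.exp (f w))
          (fun w _ => mul_comm _ _)]
        rw [P.E_congr (f := fun w => P.ce Z (fun v => Real.exp (f v)) w *
            (Q.m Z w / P.m Z w / P.ce Z (fun v => Real.exp (f v)) w))
          (g := fun w => (Q.m Z w / P.m Z w / P.ce Z (fun v => Real.exp (f v)) w) * P.ce Z (fun v => Real.exp (f v)) w)
          (fun w _ => mul_comm _ _)]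
        exact h3.symm
      rw [h1, h2]
      have h4 : P.E (fun w => P.ce Z (fun v => Real.exp (f v)) w *
            (Q.m Z w / P.m Z w / P.ce Z (fun v => Real.exp (f v)) w)) = P.E (fun w => Q.m Z w / P.m Z w * 1) := by
        refine P.E_congr fun w hw => ?_
        have := (hce0 w hw).ne'
        field_simp
      rw [h4]
      have h5 := P.E_ratio_le Q (X := Z) (h := fun _ => 1) (Fac.const Z 1) (fun _ _ => zero_le_one)
      rw [FP.E_const] at h5
      exact h5
    linarith [e2.le, e3, e4, e2.ge]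

/-- **payment** : `q log (1/p) - log 2` -/
theorem klc_pay (hac : Q.Ac P) (X : Om → κ) (Z : Om → ι) {G : Om → Prop} (hG : Fac (fun w => (X w, Z w)) G)
    {p : ℝ} (hp0 : 0 < p) (hp1 : p ≤ 1) (hp : Q.E (P.ce Z (fun w => ind (G w))) ≤ p) :
    Q.Pr G * Real.log (1 / p) - Real.log 2 ≤ Q.klc P X Z := by
  set s : ℝ := Real.log (1 / p) with hs
  have hs0 : 0 ≤ s := Real.log_nonneg (by rw [le_div_iff₀ hp0]; linarith)
  have hes : Real.exp s = 1 / p := Real.exp_log (by positivity)
  have h := klc_dv hac X Z (f := fun w => s * ind (G w)) (hG.comp (fun q => s * ind q))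
  rw [FP.E_smul] at h
  have h1 : ∀ w, P.p w ≠ 0 → P.ce Z (fun v => Real.exp (s * ind (G v))) w =
      1 + (1 / p - 1) * P.ce Z (fun v => ind (G v)) w := by
    intro w hw
    rw [P.ce_congr (g := fun v => 1 + (1 / p - 1) * ind (G v)) (fun v _ => ?_), P.ce_add, P.ce_smul, P.ce_const _ _ hw]
    by_cases hv : G v
    · rw [ind_of hv, mul_one, hes]; ring
    · rw [ind_not hv, mul_zero, Real.exp_zero]; ring
  have hp' : 0 ≤ 1 / p - 1 := by
    have : 1 ≤ 1 / p := by rw [le_div_iff₀ hp0]; linarith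
    linarith
  have h2 : Q.E (fun w => Real.log (P.ce Z (fun v => Real.exp (s * ind (G v))) w)) ≤ Real.log 2 := by
    have e1 : Q.E (fun w => Real.log (P.ce Z (fun v => Real.exp (s * ind (G v))) w)) =
        Q.E (fun w => Real.log (1 + (1 / p - 1) * P.ce Z (fun v => ind (G v)) w)) :=
      Q.E_congr fun w hw => by rw [h1 w (hac w hw)]
    rw [e1]
    have hpos : ∀ w, Q.p w ≠ 0 → 0 < 1 + (1 / p - 1) * P.ce Z (fun v => ind (G v)) w := fun w _ => by
      have := P.ce_nonneg (X := Z) (f := fun v => ind (G v)) (fun _ _ => ind_nonneg _) w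
      have := mul_nonneg hp' this
      linarith
    refine (Q.E_log_le hpos).trans ?_
    refine Real.log_le_log ?_ ?_
    · obtain ⟨w, hw⟩ := Q.exists_p_ne
      have := Q.le_E_const (f := fun w => 1 + (1 / p - 1) * P.ce Z (fun v => ind (G v)) w) (c := 1) (fun w _ => by
        have := P.ce_nonneg (X := Z) (f := fun v => ind (G v)) (fun _ _ => ind_nonneg _) w
        have := mul_nonneg hp' this
        linarith)
      linarith
    · rw [FP.E_add, FP.E_const, FP.E_smul]
      have h3 := mul_le_mul_of_nonneg_left hp hp'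
      have h4 : (1 / p - 1) * p = 1 - p := by field_simp
      have h5 : Q.E (fun w => P.ce Z (fun v => ind (G v)) w) = Q.E (P.ce Z (fun w => ind (G w))) := rfl
      rw [h5]
      linarith
  have h3 : Q.Pr G = Q.E (fun w => ind (G w)) := rfl
  rw [h3]
  have h4 : s * Q.E (fun w => ind (G w)) = Q.E (fun w => ind (G w)) * Real.log (1 / p) := by rw [hs]; ring
  linarith

/-- the information of an event contains the relative entropy of the conditional laws -/
theorem klc_event_le (P : FP Om) {E : Om → Prop} (hE : P.Pr E ≠ 0) (X : Om → κ) (Z : Om → ι) :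
    P.Pr E * (P.cond E).klc P X Z ≤ P.I X E Z := by
  -- pointwise form of the information
  set lg : Om → ℝ := fun w => Real.log (P.m (fun v => (X v, E v, Z v)) w * P.m Z w /
      (P.m (fun v => (X v, Z v)) w * P.m (fun v => (E v, Z v)) w)) with hlg
  have hI : P.I X E Z = P.E lg := P.I_eq_E_log X E Z
  have hsplit : P.E lg = P.E (fun w => ind (E w) * lg w) + P.E (fun w => ind (¬ E w) * lg w) := by
    rw [← FP.E_add]
    refine P.E_congr fun w _ => ?_
    rw [FP.ind_not_eq]
    ring
  -- one of the two parts as a conditional relative entropy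
  have part : ∀ F : Om → Prop, P.Pr F ≠ 0 → (∀ v w, F w → (E v = E w ↔ F v)) →
      P.E (fun w => ind (F w) * lg w) = P.Pr F * (P.cond F).klc P X Z := by
    intro F hF hFE
    unfold FP.klc
    rw [FP.Pr_mul_cond_E hF]
    refine P.E_congr fun w hw => ?_
    by_cases hFw : F w
    · rw [ind_of hFw, one_mul, one_mul]
      have m1 : (P.cond F).m (fun v => (X v, Z v)) w = P.m (fun v => (X v, E v, Z v)) w / P.Pr F := by
        rw [FP.cond_m hF]
        congr 1
        unfold FP.m
        refine P.E_congr fun v _ => ?_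
        rw [← ind_and]
        congr 1
        simp only [Prod.mk.injEq]
        have := hFE v w hFw
        exact propext ⟨fun ⟨a, b, c⟩ => ⟨b, this.2 a, c⟩, fun ⟨a, b, c⟩ => ⟨this.1 b, a, c⟩⟩
      have m2 : (P.cond F).m Z w = P.m (fun v => (E v, Z v)) w / P.Pr F := by
        rw [FP.cond_m hF]
        congr 1
        unfold FP.m
        refine P.E_congr fun v _ => ?_
        rw [← ind_and]
        congr 1
        simp only [Prod.mk.injEq]
        have := hFE v w hFw
        exact propext ⟨fun ⟨a, b⟩ => ⟨this.2 a, b⟩, fun ⟨a, b⟩ => ⟨this.1 a, b⟩⟩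
      rw [hlg]
      simp only
      rw [m1, m2]
      congr 1
      have a := (P.m_pos (fun v => (X v, E v, Z v)) hw).ne'
      have b := (P.m_pos Z hw).ne'
      have c := (P.m_pos (fun v => (X v, Z v)) hw).ne'
      have d := (P.m_pos (fun v => (E v, Z v)) hw).ne'
      field_simp
    · rw [ind_not hFw, zero_mul, zero_mul]
  rw [hI, hsplit, part E hE (fun v w hw => ⟨fun h => by rw [h]; exact hw, fun h => propext ⟨fun _ => hw, fun _ => h⟩⟩)]
  have h2 : 0 ≤ P.E (fun w => ind (¬ E w) * lg w) := by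
    by_cases h0 : P.Pr (fun w => ¬ E w) = 0
    · have : P.E (fun w => ind (¬ E w) * lg w) = P.E (fun _ => 0) := by
        refine P.E_congr fun w hw => ?_
        by_cases hEw : E w
        · rw [ind_not (fun h => h hEw), zero_mul]
        · exact absurd h0 (FP.Pr_pos_of (P := P) (S := fun w => ¬ E w) hw hEw).ne'
      rw [this, FP.E_const]
    · rw [part (fun w => ¬ E w) h0 (fun v w hw => ⟨fun h => by rw [h]; exact hw,
        fun h => propext ⟨fun h1 => absurd h1 h, fun h1 => absurd h1 hw⟩⟩)]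
      exact mul_nonneg (P.Pr_nonneg _) (klc_nonneg (FP.cond_ac P _) X Z)
  linarith

end klc

/-! ## local form -/

section loc

variable {Om K : Type*} {υ ν ν' : Type*} {β : Finset K → Type*} [Fintype Om] {P : FP Om} {B : (J : Finset K) → Om → β J} {N : Finset K → ℝ}
  {S : Finset (Finset K)} {L : Finset K → Om → υ}

open Classical in
/-- `W` on the event `A` and on the index sets containing `K0` -/
noncomputable def cutK (K0 : Finset K) (A : Om → Prop) (W : Finset K → Om → ν) (J : Finset K) (w : Om) : Option ν :=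
  if K0 ⊆ J ∧ A w then some (W J w) else none

/-- the addition lives on the index sets containing `K0` -/
def On (K0 : Finset K) (W : Finset K → Om → ν) : Prop := ∀ J, ¬ K0 ⊆ J → ∀ v w, W J v = W J w

variable {K0 : Finset K} {A : Om → Prop} {W : Finset K → Om → ν} {J : Finset K}

theorem cutK_in (hJ : K0 ⊆ J) {w : Om} (hw : A w) : cutK K0 A W J w = some (W J w) := if_pos ⟨hJ, hw⟩

theorem cutK_off {w : Om} (hw : ¬ A w) : cutK K0 A W J w = none := if_neg fun h => hw h.2

theorem cutK_out (hJ : ¬ K0 ⊆ J) {w : Om} : cutK K0 A W J w = none := if_neg fun h => hJ h.1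

theorem On.lo_const (h : On K0 W) (hJ : ¬ K0 ⊂ J) (v w : Om) : lo W J v = lo W J w := by
  rw [lo_eq]
  intro I hI
  exact h I (fun hK => hJ (lt_of_le_of_lt hK hI)) v w

theorem cutK_on : On K0 (cutK K0 A W) := fun J hJ v w => by rw [cutK_out hJ, cutK_out hJ]

/-- on the event the cut family has the same partitions -/
theorem cutK_eq_iff (hW : On K0 W) {v w : Om} (hv : A v) (hw : A w) :
    cutK K0 A W J v = cutK K0 A W J w ↔ W J v = W J w := by
  by_cases hJ : K0 ⊆ J
  · rw [cutK_in hJ hv, cutK_in hJ hw]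
    exact ⟨Option.some.inj, congrArg some⟩
  · rw [cutK_out hJ, cutK_out hJ]
    exact ⟨fun _ => hW J hJ v w, fun _ => rfl⟩

theorem lo_cutK_eq_iff (hW : On K0 W) {v w : Om} (hv : A v) (hw : A w) :
    lo (cutK K0 A W) J v = lo (cutK K0 A W) J w ↔ lo W J v = lo W J w := by
  rw [lo_eq, lo_eq]
  exact ⟨fun h I hI => (cutK_eq_iff hW hv hw).1 (h I hI), fun h I hI => (cutK_eq_iff hW hv hw).2 (h I hI)⟩

/-- trivial additions at `J` cost nothing -/
theorem cost_const (hV : ∀ v w, W J v = W J w) : cost P B L W J = 0 := by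
  have e : cost P B L W J = P.Hc (fun _ => ()) (fun w => (lo W J w, le L J w, B J w)) := by
    unfold cost
    exact P.Hc_congr (fun _ _ _ => rfl) (Fac.refl _) (fun v w _ => hV v w) (Fac.refl _)
  rw [e]
  unfold FP.Hc
  rw [P.H_congr (X := fun w => ((), lo W J w, le L J w, B J w)) (Y := fun w => (lo W J w, le L J w, B J w))
    (Fac.snd _ _) ((Fac.const _ ()).prod (Fac.refl _)), sub_self]

/-- no gain at `J` without additions below -/
theorem gain_const (hV : ∀ v w, lo W J v = lo W J w) : gain P B L W J = 0 := by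
  have e : gain P B L W J = P.I (L J) (fun _ => ()) (fun w => (lo L J w, B J w)) := by
    unfold gain
    exact P.I_congr (fun _ _ _ => rfl) (fun v w _ => hV v w)
  rw [e, P.I_eq_Hc]
  rw [P.Hc_congr_right (L J) (A := fun w => ((), lo L J w, B J w)) (B := fun w => (lo L J w, B J w))
    (Fac.snd _ _) ((Fac.const _ ()).prod (Fac.refl _)), sub_self]

/-- base information grows with the index set -/
def BMono (B : (J : Finset K) → Om → β J) : Prop := ∀ I J, I ⊆ J → Fac (B J) (B I)

theorem fac_le_of (hB : BMono B) (hA : Fac (fun w => (le L K0 w, B K0 w)) A) (hJ : K0 ⊆ J) :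
    Fac (fun w => (le L J w, B J w)) A := by
  intro v w h
  rw [Prod.mk.injEq] at h
  refine hA v w ?_
  show (le L K0 v, B K0 v) = (le L K0 w, B K0 w)
  rw [Prod.mk.injEq]
  exact ⟨le_eq.2 fun I hI => le_eq.1 h.1 I (hI.trans hJ), hB K0 J hJ v w h.2⟩

theorem fac_lo_of (hB : BMono B) (hA : Fac (fun w => (le L K0 w, B K0 w)) A) (hJ : K0 ⊂ J) :
    Fac (fun w => (lo L J w, B J w)) A := by
  intro v w h
  rw [Prod.mk.injEq] at h
  refine hA v w ?_
  show (le L K0 v, B K0 v) = (le L K0 w, B K0 w)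
  rw [Prod.mk.injEq]
  exact ⟨le_eq.2 fun I hI => lo_eq.1 h.1 I (lt_of_le_of_lt hI hJ), hB K0 J hJ.subset v w h.2⟩

/-- cost on the event -/
theorem cost_cut (hA0 : P.Pr A ≠ 0) (hB : BMono B) (hA : Fac (fun w => (le L K0 w, B K0 w)) A) (hW : On K0 W) :
    cost P B L (cutK K0 A W) J = P.Pr A * cost (P.cond A) B L W J := by
  by_cases hJ : K0 ⊆ J
  · have h1 : cost P B L (cutK K0 A W) J = P.Pr A * cost (P.cond A) B L (cutK K0 A W) J := by
      unfold cost
      refine Hc_cut hA0 ?_ (fun v w hv hw => by rw [cutK_off hv, cutK_off hw])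
      exact fun v w h => fac_le_of hB hA hJ v w (Prod.mk.injEq _ _ _ _ ▸ h : _ ∧ _).2
    rw [h1]
    congr 1
    unfold cost
    refine Hc_congr_supp (fun v w hv hw => ?_) (fun v w hv hw _ => ?_)
    · simp only [Prod.mk.injEq, lo_cutK_eq_iff hW (cond_supp hA0 hv).1 (cond_supp hA0 hw).1]
    · exact cutK_eq_iff hW (cond_supp hA0 hv).1 (cond_supp hA0 hw).1
  · rw [cost_const fun v w => by rw [cutK_out hJ, cutK_out hJ], cost_const (hW J hJ), mul_zero]

/-- gain on the event -/
theorem gain_cut (hA0 : P.Pr A ≠ 0) (hB : BMono B) (hA : Fac (fun w => (le L K0 w, B K0 w)) A) (hW : On K0 W) :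
    gain P B L (cutK K0 A W) J = P.Pr A * gain (P.cond A) B L W J := by
  by_cases hJ : K0 ⊂ J
  · have h1 : gain P B L (cutK K0 A W) J = P.Pr A * gain (P.cond A) B L (cutK K0 A W) J := by
      unfold gain
      refine I_cut hA0 (fac_lo_of hB hA hJ) (fun v w hv hw => ?_)
      rw [lo_eq]
      intro I _
      rw [cutK_off hv, cutK_off hw]
    rw [h1]
    congr 1
    unfold gain
    exact FP.I_congr_supp fun v w hv hw => lo_cutK_eq_iff hW (cond_supp hA0 hv).1 (cond_supp hA0 hw).1
  · rw [gain_const fun v w => cutK_on.lo_const hJ v w, gain_const fun v w => hW.lo_const hJ v w, mul_zero]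

/-- **the functional on an event of the class of `K0`** -/
theorem Phi_cut (hA0 : P.Pr A ≠ 0) (hB : BMono B) (hA : Fac (fun w => (le L K0 w, B K0 w)) A) (hW : On K0 W) :
    Phi P B N S L (cutK K0 A W) = P.Pr A * Phi (P.cond A) B N S L W := by
  unfold Phi
  rw [Finset.mul_sum]
  refine Finset.sum_congr rfl fun J _ => ?_
  rw [cost_cut hA0 hB hA hW, gain_cut hA0 hB hA hW]
  ring

/-- partitions of a cut family -/
def cutR (K0 : Finset K) (A : Om → Prop) (r : Finset K → Om → Om → Prop) (J : Finset K) (v w : Om) : Prop :=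
  (K0 ⊆ J ∧ A v) ∧ (K0 ⊆ J ∧ A w) ∧ r J v w ∨ ¬ (K0 ⊆ J ∧ A v) ∧ ¬ (K0 ⊆ J ∧ A w)

theorem ker_cutK : ker (cutK K0 A W) = cutR K0 A (ker W) := by
  classical
  funext J v w
  unfold ker cutR cutK
  by_cases h1 : K0 ⊆ J ∧ A v
  · by_cases h2 : K0 ⊆ J ∧ A w
    · rw [if_pos h1, if_pos h2]
      refine propext ⟨fun h => Or.inl ⟨h1, h2, Option.some.inj h⟩, fun h => ?_⟩
      rcases h with h | h
      · exact congrArg some h.2.2
      · exact absurd h1 h.1
    · rw [if_pos h1, if_neg h2]
      refine propext ⟨fun h => by simp at h, fun h => ?_⟩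
      rcases h with h | h
      · exact absurd h.2.1 h2
      · exact absurd h1 h.1
  · by_cases h2 : K0 ⊆ J ∧ A w
    · rw [if_neg h1, if_pos h2]
      refine propext ⟨fun h => by simp at h, fun h => ?_⟩
      rcases h with h | h
      · exact absurd h.1 h1
      · exact absurd h2 h.2
    · rw [if_neg h1, if_neg h2]
      exact propext ⟨fun _ => Or.inr ⟨h1, h2⟩, fun _ => rfl⟩

/-- **local saturation** -/
theorem SatA.loc {Adm : (Finset K → Om → Om → Prop) → Prop} (h : SatA P B N S L Adm) (hA0 : P.Pr A ≠ 0)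
    (hB : BMono B) (hA : Fac (fun w => (le L K0 w, B K0 w)) A) (hW : On K0 W) (hadm : Adm (cutR K0 A (ker W))) :
    0 ≤ Phi (P.cond A) B N S L W := by
  have h1 := h.gen (cutK K0 A W) (by rw [ker_cutK]; exact hadm)
  rw [Phi_cut hA0 hB hA hW] at h1
  have h2 : 0 < P.Pr A := lt_of_le_of_ne (P.Pr_nonneg A) (Ne.symm hA0)
  by_contra hcon
  push Not at hcon
  have := mul_neg_of_pos_of_neg h2 hcon
  linarith

end loc

/-! ## joint additions on an event -/

section joint

variable {Om K : Type*} {υ ν ν' : Type*} {β : Finset K → Type*} [Fintype Om] {P : FP Om} {B : (J : Finset K) → Om → β J} {N : Finset K → ℝ}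
  {S : Finset (Finset K)} {L : Finset K → Om → υ} {K0 : Finset K} {E : Om → Prop} {G : Finset K → Om → ν}
  {J : Finset K}

open Classical in
/-- the index sets strictly above `K0` -/
noncomputable def above (S : Finset (Finset K)) (K0 : Finset K) : Finset (Finset K) := S.filter fun J => K0 ⊂ J

theorem mem_above {S : Finset (Finset K)} {K0 J : Finset K} : J ∈ above S K0 ↔ J ∈ S ∧ K0 ⊂ J := by
  classical
  unfold above
  rw [Finset.mem_filter]

/-- adding the event itself at `K0` -/
theorem lo_cut_fac (hJ : K0 ⊂ J) : Fac (lo (cutK K0 E G) J) E := by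
  intro v w h
  have h1 := lo_eq.1 h K0 hJ
  by_cases hv : E v
  · by_cases hw : E w
    · exact propext ⟨fun _ => hw, fun _ => hv⟩
    · rw [cutK_in (Finset.Subset.refl K0) hv, cutK_off hw] at h1
      exact absurd h1 (by simp)
  · by_cases hw : E w
    · rw [cutK_off hv, cutK_in (Finset.Subset.refl K0) hw] at h1
      exact absurd h1 (by simp)
    · exact propext ⟨fun h => absurd h hv, fun h => absurd h hw⟩

theorem joint_cost_gt (hE : P.Pr E ≠ 0) (hG : On K0 G) (hJ : K0 ⊂ J) :
    cost P B L (cutK K0 E G) J = P.Pr E * cost (P.cond E) B L G J := by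
  have h1 : cost P B L (cutK K0 E G) J = P.Pr E * cost (P.cond E) B L (cutK K0 E G) J := by
    unfold cost
    refine Hc_cut hE ?_ (fun v w hv hw => by rw [cutK_off hv, cutK_off hw])
    exact fun v w h => lo_cut_fac hJ v w (Prod.mk.injEq _ _ _ _ ▸ h : _ ∧ _).1
  rw [h1]
  congr 1
  unfold cost
  refine Hc_congr_supp (fun v w hv hw => ?_) (fun v w hv hw _ => ?_)
  · simp only [Prod.mk.injEq, lo_cutK_eq_iff hG (cond_supp hE hv).1 (cond_supp hE hw).1]
  · exact cutK_eq_iff hG (cond_supp hE hv).1 (cond_supp hE hw).1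

theorem joint_cost_eq (hE : P.Pr E ≠ 0) (hG : On K0 G) :
    cost P B L (cutK K0 E G) K0 ≤ P.Pr E * (Real.log (1 / P.Pr E) + 1) + P.Pr E * cost (P.cond E) B L G K0 := by
  have hE0 : 0 < P.Pr E := lt_of_le_of_ne (P.Pr_nonneg E) (Ne.symm hE)
  set Z : Om → (Finset K → Option (Option ν)) × (Finset K → Option υ) × β K0 :=
    fun w => (lo (cutK K0 E G) K0 w, le L K0 w, B K0 w) with hZ
  have h1 : P.Hc (cutK K0 E G K0) Z ≤ P.Hc (fun w => (cutK K0 E G K0 w, E w)) Z :=
    P.Hc_mono Z ((Fac.fst _ _).trans (Fac.fst _ _))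
  have h2 : P.Hc (fun w => (cutK K0 E G K0 w, E w)) Z = P.Hc E Z + P.Hc (cutK K0 E G K0) (fun w => (E w, Z w)) :=
    P.Hc_chain _ _ _
  have h3 : P.Hc E Z ≤ P.Pr E * (Real.log (1 / P.Pr E) + 1) := (P.Hc_le_H E Z).trans (H_event_le hE0)
  have h4 : P.Hc (cutK K0 E G K0) (fun w => (E w, Z w)) =
      P.Pr E * (P.cond E).Hc (cutK K0 E G K0) (fun w => (E w, Z w)) :=
    Hc_cut hE (Fac.fst _ _) (fun v w hv hw => by rw [cutK_off hv, cutK_off hw])
  have h5 : (P.cond E).Hc (cutK K0 E G K0) (fun w => (E w, Z w)) = cost (P.cond E) B L G K0 := by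
    unfold cost
    refine Hc_congr_supp (fun v w hv hw => ?_) (fun v w hv hw _ => ?_)
    · have e : E v = E w := propext ⟨fun _ => (cond_supp hE hw).1, fun _ => (cond_supp hE hv).1⟩
      simp only [hZ, Prod.mk.injEq, e, true_and, lo_cutK_eq_iff hG (cond_supp hE hv).1 (cond_supp hE hw).1]
    · exact cutK_eq_iff hG (cond_supp hE hv).1 (cond_supp hE hw).1
  have h6 : cost P B L (cutK K0 E G) K0 = P.Hc (cutK K0 E G K0) Z := rfl
  rw [h6]
  rw [h5] at h4
  linarith

theorem joint_gain (hE : P.Pr E ≠ 0) (hG : On K0 G) (hJ : K0 ⊂ J) :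
    P.Pr E * (P.cond E).klc P (L J) (fun w => (lo L J w, B J w)) + P.Pr E * gain (P.cond E) B L G J ≤
      gain P B L (cutK K0 E G) J := by
  set Z : Om → (Finset K → Option υ) × β J := fun w => (lo L J w, B J w) with hZ
  have h1 : gain P B L (cutK K0 E G) J = P.I (L J) (fun w => (lo (cutK K0 E G) J w, E w)) Z := by
    unfold gain
    exact P.I_congr ((Fac.refl _).prod (lo_cut_fac hJ)) (Fac.fst _ _)
  have h2 : P.I (L J) (fun w => (lo (cutK K0 E G) J w, E w)) Z =
      P.I (L J) E Z + P.I (L J) (lo (cutK K0 E G) J) (fun w => (E w, Z w)) := by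
    rw [P.I_comm (L J) (fun w => (lo (cutK K0 E G) J w, E w)), P.I_chain, P.I_comm E (L J),
      P.I_comm (lo (cutK K0 E G) J) (L J)]
  have h3 := klc_event_le P hE (L J) Z
  have h4 : P.I (L J) (lo (cutK K0 E G) J) (fun w => (E w, Z w)) =
      P.Pr E * (P.cond E).I (L J) (lo (cutK K0 E G) J) (fun w => (E w, Z w)) :=
    I_cut hE (Fac.fst _ _) (fun v w hv hw => by
      rw [lo_eq]; intro I _; rw [cutK_off hv, cutK_off hw])
  have h5 : (P.cond E).I (L J) (lo (cutK K0 E G) J) (fun w => (E w, Z w)) = gain (P.cond E) B L G J := by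
    unfold gain
    rw [FP.I_congr_supp (P := P.cond E) (Y := L J) (w := lo (cutK K0 E G) J) (w' := lo G J)
      (Z := fun w => (E w, Z w)) (fun v w hv hw => lo_cutK_eq_iff hG (cond_supp hE hv).1 (cond_supp hE hw).1),
      (P.cond E).I_eq_Hc', (P.cond E).I_eq_Hc']
    have e : ∀ v w, (P.cond E).p v ≠ 0 → (P.cond E).p w ≠ 0 → E v = E w := fun v w hv hw =>
      propext ⟨fun _ => (cond_supp hE hw).1, fun _ => (cond_supp hE hv).1⟩
    rw [Hc_congr_supp (P := P.cond E) (X := lo G J) (X' := lo G J) (Z := fun w => (E w, Z w)) (Z' := Z)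
      (fun v w hv hw => by simp only [Prod.mk.injEq, e v w hv hw, true_and]) (fun _ _ _ _ _ => Iff.rfl),
      Hc_congr_supp (P := P.cond E) (X := lo G J) (X' := lo G J) (Z := fun w => (L J w, E w, Z w))
        (Z' := fun w => (L J w, Z w))
      (fun v w hv hw => by simp only [Prod.mk.injEq, e v w hv hw, true_and]) (fun _ _ _ _ _ => Iff.rfl)]
  rw [h1, h2, h4, h5]
  linarith

/-- **JOINT ADDITION** : the event `E` and the addition `G` on `E` -/
theorem joint (hE : P.Pr E ≠ 0) (hG : On K0 G) (hN : ∀ J ∈ S, 0 ≤ N J) (hK : K0 ∈ S)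
    (h : 0 ≤ Phi P B N S L (cutK K0 E G)) :
    ∑ J ∈ above S K0, N J * (P.cond E).klc P (L J) (fun w => (lo L J w, B J w)) ≤
      2 * N K0 * (Real.log (1 / P.Pr E) + 1) + Phi (P.cond E) B N S L G := by
  classical
  have hE0 : 0 < P.Pr E := lt_of_le_of_ne (P.Pr_nonneg E) (Ne.symm hE)
  have key : ∀ J ∈ S, N J * (2 * cost P B L (cutK K0 E G) J - gain P B L (cutK K0 E G) J) ≤
      P.Pr E * ((if J = K0 then 2 * N K0 * (Real.log (1 / P.Pr E) + 1) else 0) +
        N J * (2 * cost (P.cond E) B L G J - gain (P.cond E) B L G J) -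
        (if K0 ⊂ J then N J * (P.cond E).klc P (L J) (fun w => (lo L J w, B J w)) else 0)) := by
    intro J hJ
    by_cases h1 : K0 ⊂ J
    · rw [if_pos h1, if_neg h1.ne', joint_cost_gt hE hG h1]
      have h2 := mul_le_mul_of_nonneg_left (joint_gain (B := B) (L := L) hE hG h1) (hN J hJ)
      nlinarith
    · rw [if_neg h1]
      by_cases h2 : J = K0
      · subst h2
        rw [if_pos rfl, gain_const fun v w => cutK_on.lo_const h1 v w, gain_const fun v w => hG.lo_const h1 v w]
        have h3 := mul_le_mul_of_nonneg_left (joint_cost_eq (B := B) (L := L) hE hG) (hN J hJ)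
        nlinarith
      · rw [if_neg h2]
        have h3 : ¬ K0 ⊆ J := fun h3 => h1 (lt_of_le_of_ne h3 (Ne.symm h2))
        rw [gain_const fun v w => cutK_on.lo_const h1 v w, gain_const fun v w => hG.lo_const h1 v w,
          cost_const fun v w => by rw [cutK_out h3, cutK_out h3], cost_const (hG J h3)]
        apply le_of_eq
        ring
  have h1 := (Finset.sum_le_sum key)
  rw [← Finset.mul_sum, Finset.sum_sub_distrib, Finset.sum_add_distrib, Finset.sum_ite_eq' S K0, if_pos hK,
    ← Finset.sum_filter] at h1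
  change _ ≤ P.Pr E * (_ - ∑ J ∈ above S K0, N J * (P.cond E).klc P (L J) (fun w => (lo L J w, B J w))) at h1
  unfold Phi at h
  have h2 : 0 ≤ P.Pr E * (2 * N K0 * (Real.log (1 / P.Pr E) + 1) + Phi (P.cond E) B N S L G -
      ∑ J ∈ above S K0, N J * (P.cond E).klc P (L J) (fun w => (lo L J w, B J w))) := le_trans h h1
  by_contra hcon
  push Not at hcon
  have := mul_neg_of_pos_of_neg hE0 (show 2 * N K0 * (Real.log (1 / P.Pr E) + 1) + Phi (P.cond E) B N S L G -
      ∑ J ∈ above S K0, N J * (P.cond E).klc P (L J) (fun w => (lo L J w, B J w)) < 0 by linarith)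
  linarith

/-- the event alone -/
theorem event_sat (hE : P.Pr E ≠ 0) (hN : ∀ J ∈ S, 0 ≤ N J) (hK : K0 ∈ S)
    (h : 0 ≤ Phi P B N S L (cutK K0 E (fun _ _ => ()))) :
    ∑ J ∈ above S K0, N J * (P.cond E).klc P (L J) (fun w => (lo L J w, B J w)) ≤
      2 * N K0 * (Real.log (1 / P.Pr E) + 1) := by
  have h1 := joint (B := B) (L := L) hE (G := fun _ _ => ()) (K0 := K0) (fun _ _ _ _ => rfl) hN hK h
  rw [Phi_const (fun _ _ _ => rfl), add_zero] at h1
  exact h1

/-- a light event is almost saturated -/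
theorem sub_sat (hE : P.Pr E ≠ 0) (hG : On K0 G) (hN : ∀ J ∈ S, 0 ≤ N J) (hK : K0 ∈ S)
    (h : 0 ≤ Phi P B N S L (cutK K0 E G)) :
    0 ≤ 2 * N K0 * (Real.log (1 / P.Pr E) + 1) + Phi (P.cond E) B N S L G := by
  classical
  refine le_trans (Finset.sum_nonneg fun J hJ => ?_) (joint hE hG hN hK h)
  exact mul_nonneg (hN J (mem_above.1 hJ).1) (klc_nonneg (FP.cond_ac P E) _ _)

end joint

/-! ## coins -/

section coin

variable {Om Th K : Type*} {υ ν : Type*} {β : Finset K → Type*} [Fintype Om] [Fintype Th] {P : FP Om} {R : FP Th}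
  {B : (J : Finset K) → Om → β J} {N : Finset K → ℝ} {S : Finset (Finset K)} {L : Finset K → Om → υ}

theorem pr_m_coin {κ : Type*} (Z : Om × Th → κ) (w : Om) (t : Th) :
    (FP.pr P R).m (fun v => (v.2, Z v)) (w, t) = R.m id t * P.m (fun v => Z (v, t)) w := by
  unfold FP.m
  rw [FP.pr_E]
  have h1 : ∀ x, R.E (fun y => ind ((y, Z (x, y)) = (t, Z (w, t)))) = R.E (fun y => ind (y = t)) * ind (Z (x, t) = Z (w, t)) := by
    intro x
    rw [← FP.E_mul_const]
    refine R.E_congr fun y _ => ?_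
    by_cases h : y = t
    · subst h
      rw [ind_of rfl, one_mul]
      congr 1
      simp only [Prod.mk.injEq, true_and]
    · rw [ind_not h, zero_mul, ind_not (fun h' => h (Prod.mk.injEq _ _ _ _ ▸ h' : _ ∧ _).1)]
  show P.E (fun x => R.E (fun y => ind ((y, Z (x, y)) = (t, Z (w, t))))) = _
  rw [P.E_congr (fun x _ => h1 x), FP.E_smul]
  rfl

/-- conditional entropy given the coin -/
theorem coin_Hc {κ ι : Type*} (X : Om × Th → κ) (Z : Om × Th → ι) :
    (FP.pr P R).Hc X (fun w => (w.2, Z w)) = R.E (fun t => P.Hc (fun w => X (w, t)) (fun w => Z (w, t))) := by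
  rw [Hc_eq_E_log, FP.pr_E, FP.E_swap]
  refine R.E_congr fun t ht => ?_
  rw [Hc_eq_E_log]
  refine P.E_congr fun w hw => ?_
  have h1 := pr_m_coin (P := P) (R := R) Z w t
  have h2 := pr_m_coin (P := P) (R := R) (fun v => (X v, Z v)) w t
  have h3 : (FP.pr P R).m (fun v => (X v, v.2, Z v)) (w, t) = (FP.pr P R).m (fun v => (v.2, X v, Z v)) (w, t) :=
    (FP.pr P R).m_congr (by intro a b h; simp only [Prod.mk.injEq] at h ⊢; tauto)
      (by intro a b h; simp only [Prod.mk.injEq] at h ⊢; tauto) _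
  show Real.log ((FP.pr P R).m (fun v => (v.2, Z v)) (w, t) / (FP.pr P R).m (fun v => (X v, v.2, Z v)) (w, t)) = _
  rw [h3, h1, h2]
  congr 1
  have hR : R.m id t ≠ 0 := (R.m_pos id ht).ne'
  rw [mul_div_mul_left _ _ hR]

theorem coin_cost (W : Finset K → Om × Th → ν) (J : Finset K) :
    R.E (fun t => cost P B L (fun I w => W I (w, t)) J) ≤
      cost (FP.pr P R) (fun I w => B I w.1) (fun I w => L I w.1) W J := by
  unfold cost
  have h1 := coin_Hc (P := P) (R := R) (W J) (fun w => (lo W J w, le (fun I (w : Om × Th) => L I w.1) J w, B J w.1))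
  have h2 := (FP.pr P R).Hc_anti (W J) (Y := fun w => (w.2, lo W J w, le (fun I (w : Om × Th) => L I w.1) J w, B J w.1))
    (Z := fun w => (lo W J w, le (fun I (w : Om × Th) => L I w.1) J w, B J w.1)) (Fac.snd _ _)
  rw [h1] at h2
  exact h2

theorem coin_gain (W : Finset K → Om × Th → ν) (J : Finset K) :
    gain (FP.pr P R) (fun I w => B I w.1) (fun I w => L I w.1) W J ≤
      R.E (fun t => gain P B L (fun I w => W I (w, t)) J) := by
  unfold gain
  set X : Om × Th → υ := fun w => L J w.1 with hX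
  set Z : Om × Th → (Finset K → Option υ) × β J := fun w => (lo (fun I (w : Om × Th) => L I w.1) J w, B J w.1) with hZ
  have e1 : (FP.pr P R).I X (lo W J) Z = (FP.pr P R).Hc X Z - (FP.pr P R).Hc X (fun w => (lo W J w, Z w)) :=
    (FP.pr P R).I_eq_Hc _ _ _
  have e2 : (FP.pr P R).Hc X (fun w => (w.2, lo W J w, Z w)) ≤ (FP.pr P R).Hc X (fun w => (lo W J w, Z w)) :=
    (FP.pr P R).Hc_anti X (Fac.snd _ _)
  have e3 := coin_Hc (P := P) (R := R) X (fun w => (lo W J w, Z w))
  -- the old labels do not see the coin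
  have e4 : (FP.pr P R).Hc X Z = P.Hc (L J) (fun w => (lo L J w, B J w)) := by
    rw [Hc_eq_E_log, Hc_eq_E_log, FP.pr_E]
    refine P.E_congr fun w hw => ?_
    have hm : ∀ {κ : Type _} (T : Om → κ) (t : Th), (FP.pr P R).m (fun v => T v.1) (w, t) = P.m T w := by
      intro κ T t
      unfold FP.m
      rw [FP.pr_E]
      refine P.E_congr fun x _ => ?_
      show R.E (fun _ => ind (T x = T w)) = ind (T x = T w)
      rw [FP.E_const]
    have h5 : ∀ t, Real.log ((FP.pr P R).m Z (w, t) / (FP.pr P R).m (fun v => (X v, Z v)) (w, t)) =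
        Real.log (P.m (fun w => (lo L J w, B J w)) w / P.m (fun v => (L J v, lo L J v, B J v)) w) := by
      intro t
      have a := hm (fun w => (lo L J w, B J w)) t
      have b := hm (fun v => (L J v, lo L J v, B J v)) t
      rw [← a, ← b]
      rfl
    rw [R.E_congr (fun t _ => h5 t), FP.E_const]
  have e5 : R.E (fun t => P.I (L J) (lo (fun I w => W I (w, t)) J) (fun w => (lo L J w, B J w))) =
      P.Hc (L J) (fun w => (lo L J w, B J w)) -
        R.E (fun t => P.Hc (fun w => X (w, t)) (fun w => (lo W J (w, t), Z (w, t)))) := by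
    rw [← R.E_const (P.Hc (L J) (fun w => (lo L J w, B J w))), ← FP.E_sub]
    refine R.E_congr fun t _ => ?_
    rw [P.I_eq_Hc]
    rfl
  rw [e5, e1, e4]
  linarith

/-- **coins** -/
theorem Phi_coin (hN : ∀ J ∈ S, 0 ≤ N J) (W : Finset K → Om × Th → ν) :
    R.E (fun t => Phi P B N S L (fun I w => W I (w, t))) ≤
      Phi (FP.pr P R) (fun I w => B I w.1) N S (fun I w => L I w.1) W := by
  unfold Phi
  rw [FP.E_sum]
  refine Finset.sum_le_sum fun J hJ => ?_
  rw [FP.E_smul, FP.E_sub, FP.E_smul]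
  refine mul_le_mul_of_nonneg_left ?_ (hN J hJ)
  have h1 := coin_cost (P := P) (R := R) (B := B) (L := L) W J
  have h2 := coin_gain (P := P) (R := R) (B := B) (L := L) W J
  linarith

/-- saturation against additions which use an independent coin -/
theorem SatA.coin {Adm : (Finset K → Om → Om → Prop) → Prop} (h : SatA P B N S L Adm) (hN : ∀ J ∈ S, 0 ≤ N J)
    (W : Finset K → Om × Th → ν) (hW : ∀ t, Adm (ker fun I w => W I (w, t))) :
    0 ≤ Phi (FP.pr P R) (fun I w => B I w.1) N S (fun I w => L I w.1) W :=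
  le_trans (R.E_nonneg fun t _ => h.gen _ (hW t)) (Phi_coin hN W)

end coin

end Pool.Agent.GMH
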