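import Pool.Agent.GMH.Bud
import Pool.Agent.GMH.Sat

/-!
# GMH.RunE: existence of the run of HARM(K), any admissible refinements (helper27)

* `ent_congrL`, `cost_congrL`, `gain_congrL`, `Phi_congrL` : only the partitions of the labels matter;
* `Um v t`, `Vt v t` = old classes at the time `t`, new codes (GMH.Bud); `pr_Um` : old class and new code = new class;
* `AdmOK D Adm` : the trivial refinement is admissible, an admissible refinement is a function of the hidden point, of the
  known points of `J` and of the node;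
* `exists_run` : codes `v` with `Codes D v` such that at every time the new codes minimise the functional
  (law `D.P h t`, base `BB D t`, labels `LL (Um v t)`) among the admissible ones: `Run`;
* `Run.nonpos` : `Phi <= 0`; `Run.sat` : the state after the split is saturated.
-/

set_option autoImplicit false
set_option linter.unusedSectionVars false

namespace Pool.Agent.GMH

open Finset Pool.Agent.PWZ Pool.Agent.M3 Pool.Agent.GM Pool.Agent.GM.Harm

/-! ## labels with the same partitions -/

section congrL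

variable {Om K : Type*} {υ υ' ν : Type*} {β : Finset K → Type*} [Fintype Om] {P : FP Om} {B : (J : Finset K) → Om → β J}
  {L : Finset K → Om → υ} {L' : Finset K → Om → υ'} {W : Finset K → Om → ν} {J : Finset K}

theorem lo_congrL (h1 : ∀ J, Fac (L J) (L' J)) (h2 : ∀ J, Fac (L' J) (L J)) (J : Finset K) (v w : Om) :
    lo L J v = lo L J w ↔ lo L' J v = lo L' J w := by
  rw [lo_eq, lo_eq]
  exact ⟨fun h I hI => h1 I v w (h I hI), fun h I hI => h2 I v w (h I hI)⟩

theorem le_congrL (h1 : ∀ J, Fac (L J) (L' J)) (h2 : ∀ J, Fac (L' J) (L J)) (J : Finset K) (v w : Om) :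
    le L J v = le L J w ↔ le L' J v = le L' J w := by
  rw [le_eq, le_eq]
  exact ⟨fun h I hI => h1 I v w (h I hI), fun h I hI => h2 I v w (h I hI)⟩

theorem ent_congrL (h1 : ∀ J, Fac (L J) (L' J)) (h2 : ∀ J, Fac (L' J) (L J)) : ent P B L J = ent P B L' J := by
  have e := lo_congrL h1 h2 J
  unfold ent
  refine P.Hc_congr ?_ ?_ ?_ ?_
  · intro v w h; simp only [Prod.mk.injEq] at h; exact h1 J v w h.1
  · intro v w h; simp only [Prod.mk.injEq, e] at h ⊢; exact h
  · intro v w h; simp only [Prod.mk.injEq] at h; exact h2 J v w h.1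
  · intro v w h; simp only [Prod.mk.injEq, e] at h ⊢; exact h

theorem cost_congrL (h1 : ∀ J, Fac (L J) (L' J)) (h2 : ∀ J, Fac (L' J) (L J)) : cost P B L W J = cost P B L' W J := by
  have e := le_congrL h1 h2 J
  unfold cost
  refine P.Hc_congr_right _ ?_ ?_
  · intro v w h; simp only [Prod.mk.injEq, e] at h ⊢; exact h
  · intro v w h; simp only [Prod.mk.injEq, e] at h ⊢; exact h

theorem gain_congrL (h1 : ∀ J, Fac (L J) (L' J)) (h2 : ∀ J, Fac (L' J) (L J)) : gain P B L W J = gain P B L' W J := by
  have e := lo_congrL h1 h2 J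
  unfold gain FP.I
  rw [P.H_congr (X := fun w => (L J w, lo L J w, B J w)) (Y := fun w => (L' J w, lo L' J w, B J w))
      (by intro v w h; simp only [Prod.mk.injEq, e] at h ⊢; exact ⟨h1 J v w h.1, h.2⟩)
      (by intro v w h; simp only [Prod.mk.injEq, e] at h ⊢; exact ⟨h2 J v w h.1, h.2⟩),
    P.H_congr (X := fun w => (lo W J w, lo L J w, B J w)) (Y := fun w => (lo W J w, lo L' J w, B J w))
      (by intro v w h; simp only [Prod.mk.injEq, e] at h ⊢; exact h)
      (by intro v w h; simp only [Prod.mk.injEq, e] at h ⊢; exact h),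
    P.H_congr (X := fun w => (L J w, lo W J w, lo L J w, B J w)) (Y := fun w => (L' J w, lo W J w, lo L' J w, B J w))
      (by intro v w h; simp only [Prod.mk.injEq, e] at h ⊢; exact ⟨h1 J v w h.1, h.2⟩)
      (by intro v w h; simp only [Prod.mk.injEq, e] at h ⊢; exact ⟨h2 J v w h.1, h.2⟩),
    P.H_congr (X := fun w => (lo L J w, B J w)) (Y := fun w => (lo L' J w, B J w))
      (by intro v w h; simp only [Prod.mk.injEq, e] at h ⊢; exact h)
      (by intro v w h; simp only [Prod.mk.injEq, e] at h ⊢; exact h)]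

theorem Phi_congrL {N : Finset K → ℝ} {S : Finset (Finset K)} (h1 : ∀ J, Fac (L J) (L' J))
    (h2 : ∀ J, Fac (L' J) (L J)) : Phi P B N S L W = Phi P B N S L' W := by
  unfold Phi
  refine Finset.sum_congr rfl fun J _ => ?_
  rw [cost_congrL h1 h2, gain_congrL h1 h2]

theorem Psi_congrL {N : Finset K → ℝ} {S : Finset (Finset K)} (h1 : ∀ J, Fac (L J) (L' J))
    (h2 : ∀ J, Fac (L' J) (L J)) : Psi P B N S L = Psi P B N S L' := by
  unfold Psi
  exact Finset.sum_congr rfl fun J _ => by rw [ent_congrL h1 h2]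

theorem SatA.congrL {N : Finset K → ℝ} {S : Finset (Finset K)} {Adm : (Finset K → Om → Om → Prop) → Prop}
    (h : SatA P B N S L Adm) (h1 : ∀ J, Fac (L J) (L' J)) (h2 : ∀ J, Fac (L' J) (L J)) : SatA P B N S L' Adm :=
  fun W hW => by rw [← Phi_congrL h1 h2]; exact h W hW

end congrL

/-! ## the run -/

section run

variable {K X β γ φ υ : Type} [Fintype K] [DecidableEq K] [Fintype X] [Fintype β] [Fintype φ]

/-- old class and new code = new class -/
theorem pr_Um {v : ℕ → Finset K → X → (K → β) → υ} {t : ℕ} {I : Finset K} {a b : Pt K X β φ} :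
    pr (LL (Um v t)) (Vt v t) I a = pr (LL (Um v t)) (Vt v t) I b ↔
      LL (fun I x y => UU v I t x y) I a = LL (fun I x y => UU v I t x y) I b := by
  rw [pr_eq, LL_eq, LL_eq]
  have e : UU v I t a.1 a.2.1 = UU v I t b.1 b.2.1 ↔
      Um v t I a.1 a.2.1 = Um v t I b.1 b.2.1 ∧ v t I a.1 a.2.1 = v t I b.1 b.2.1 := by
    unfold UU Um
    rw [List.range_succ, List.map_append, List.map_append]
    constructor
    · intro h
      have h1 := List.append_inj h (by simp)
      refine ⟨h1.1, ?_⟩
      have := h1.2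
      simpa using this
    · rintro ⟨h1, h2⟩
      rw [h1]
      simp [h2]
  show (Um v t I a.1 a.2.1 = Um v t I b.1 b.2.1 ∧ _) ∧ v t I a.1 a.2.1 = v t I b.1 b.2.1 ↔ _
  rw [e]
  tauto

/-- admissible refinements: `Adm t u r`, `u` the old classes, `r` the partitions of the new codes -/
structure AdmOK (D : HD K X β γ φ)
    (Adm : ℕ → (Finset K → X → (K → β) → List (Pt K X β φ)) → (Finset K → Pt K X β φ → Pt K X β φ → Prop) → Prop) :
    Prop where
  triv : ∀ t u, Adm t u (fun _ _ _ => True)
  dep : ∀ t u r, Adm t u r → ∀ J (v w : Pt K X β φ), v.1 = w.1 → (∀ j ∈ J, v.2.1 j = w.2.1 j) →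
    (∀ j, D.qb t (v.2.1 j) = D.qb t (w.2.1 j)) → r J v w

variable [Nonempty X] [Nonempty β] {D : HD K X β γ φ} {al : ℝ} (h : D.Thick al)

/-- the run with the admissible refinements `Adm`, prices `N`, index sets `S` -/
structure Run (N : Finset K → ℝ) (S : Finset (Finset K))
    (Adm : ℕ → (Finset K → X → (K → β) → List (Pt K X β φ)) → (Finset K → Pt K X β φ → Pt K X β φ → Prop) → Prop)
    (v : ℕ → Finset K → X → (K → β) → Pt K X β φ) : Prop where
  codes : Codes D v
  mini : ∀ t, Mini (D.P h t) (BB D t) N S (LL (Um v t)) {V | Adm t (Um v t) (ker V)} (Vt v t)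

variable {N : Finset K → ℝ} {S : Finset (Finset K)}
  {Adm : ℕ → (Finset K → X → (K → β) → List (Pt K X β φ)) → (Finset K → Pt K X β φ → Pt K X β φ → Prop) → Prop}

/-- **the run exists** -/
theorem exists_run (N : Finset K → ℝ) (S : Finset (Finset K)) (hA : AdmOK D Adm) : ∃ v, Run h N S Adm v := by
  classical
  -- one minimiser for every time and every state
  have hex : ∀ (t : ℕ) (u : Finset K → X → (K → β) → List (Pt K X β φ)),
      ∃ V : Finset K → Pt K X β φ → Pt K X β φ, Mini (D.P h t) (BB D t) N S (LL u) {V | Adm t u (ker V)} V := by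
    intro t u
    obtain ⟨w0, _⟩ := (D.P h t).exists_p_ne
    refine exists_mini (D.P h t) (BB D t) N S (LL u) ⟨fun _ _ => w0, ?_⟩
    have e : ker (fun (_ : Finset K) (_ : Pt K X β φ) => w0) = fun _ _ _ => True := by
      funext J a b
      exact propext ⟨fun _ => trivial, fun _ => rfl⟩
    show Adm t u (ker fun (_ : Finset K) (_ : Pt K X β φ) => w0)
    rw [e]
    exact hA.triv t u
  choose V hV using hex
  obtain ⟨w0, _⟩ := (D.P h 0).exists_p_ne
  let F0 : K → φ := w0.2.2
  let cd : ℕ → (Finset K → X → (K → β) → List (Pt K X β φ)) → Finset K → X → (K → β) → Pt K X β φ :=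
    fun t u I x y => V t u I (x, y, F0)
  let hist : ℕ → Finset K → X → (K → β) → List (Pt K X β φ) := fun t =>
    Nat.rec (fun _ _ _ => []) (fun s u I x y => u I x y ++ [cd s u I x y]) t
  let v : ℕ → Finset K → X → (K → β) → Pt K X β φ := fun t => cd t (hist t)
  have hUm : ∀ t, Um v t = hist t := by
    intro t
    induction t with
    | zero => rfl
    | succ t ih =>
      funext I x y
      have e1 : Um v (t + 1) I x y = Um v t I x y ++ [v t I x y] := by
        unfold Um
        rw [List.range_succ, List.map_append]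
        rfl
      rw [e1, ih]
  have hadm : ∀ t, Adm t (hist t) (ker (V t (hist t))) := fun t => (hV t (hist t)).mem
  have hVt : ∀ t, Vt v t = V t (hist t) := by
    intro t
    funext I w
    exact hA.dep t (hist t) _ (hadm t) I (w.1, w.2.1, F0) w rfl (fun _ _ => rfl) (fun _ => rfl)
  refine ⟨v, ?_, ?_⟩
  · intro t I x y y' h1 h2
    exact hA.dep t (hist t) _ (hadm t) I (x, y, F0) (x, y', F0) rfl h1 h2
  · intro t
    rw [hVt t, hUm t]
    exact hV t (hist t)

variable {h} {v : ℕ → Finset K → X → (K → β) → Pt K X β φ}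

/-- the functional of the new codes is not positive -/
theorem Run.nonpos (R : Run h N S Adm v) (hA : AdmOK D Adm) (t : ℕ) :
    Phi (D.P h t) (BB D t) N S (LL (Um v t)) (Vt v t) ≤ 0 := by
  obtain ⟨w0, _⟩ := (D.P h t).exists_p_ne
  refine (R.mini t).nonpos (V0 := fun _ _ => w0) ?_ (fun _ _ _ => rfl)
  have e : ker (fun (_ : Finset K) (_ : Pt K X β φ) => w0) = fun _ _ _ => True := by
    funext J a b
    exact propext ⟨fun _ => trivial, fun _ => rfl⟩
  show Adm t (Um v t) (ker fun (_ : Finset K) (_ : Pt K X β φ) => w0)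
  rw [e]
  exact hA.triv t _

/-- **saturation of the state after the split** : the further refinement `r` is admissible if it is admissible together
with the new codes -/
theorem Run.sat (R : Run h N S Adm v) (hN : ∀ J ∈ S, 0 ≤ N J) (t : ℕ) :
    SatA (D.P h t) (BB D t) N S (LL fun I x y => UU v I t x y)
      (fun r => Adm t (Um v t) (fun J a b => v t J a.1 a.2.1 = v t J b.1 b.2.1 ∧ r J a b)) :=
  ((R.mini t).satA hN).congrL (fun _ _ _ e => pr_Um.1 e) (fun _ _ _ e => pr_Um.2 e)

/-- dependency only -/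
def AdmDep (D : HD K X β γ φ) (t : ℕ) (_ : Finset K → X → (K → β) → List (Pt K X β φ))
    (r : Finset K → Pt K X β φ → Pt K X β φ → Prop) : Prop :=
  ∀ J (v w : Pt K X β φ), v.1 = w.1 → (∀ j ∈ J, v.2.1 j = w.2.1 j) →
    (∀ j, D.qb t (v.2.1 j) = D.qb t (w.2.1 j)) → r J v w

theorem admDep_ok (D : HD K X β γ φ) : AdmOK D (AdmDep D) :=
  ⟨fun _ _ _ _ _ _ _ _ => trivial, fun _ _ _ hr => hr⟩

end run

end Pool.Agent.GMH
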