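import Pool.Agent.GMH.RunE

/-!
# GMH.Top: the codes of the top index sets carry no information (helper27)

The index sets `J = univ - l` are maximal in `S`: an addition there only costs.  Hence the minimiser has cost `0` there, and
the class `U J` is a function of the lower classes, of the label `l`, of the known points of `J` and of the node.

* `det_of_Hc` : `H(X | Z) = 0` : `X` is a function of `Z` on the support;
* `Mini.top` : cost `0` at a maximal index set; `Run.top_cost`;
* `Run.top_det` : on the support of `P_t` : same lower classes, same label, same base `BB D t J` give the same class at `J`;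
* `Run.top_LL`, `Run.top_ent` : the partition of `LL U J` given the lower labels and the base is that of the label.
-/

set_option autoImplicit false
set_option linter.unusedSectionVars false

namespace Pool.Agent.GMH

open Finset Pool.Agent.PWZ Pool.Agent.M3 Pool.Agent.GM Pool.Agent.GM.Harm

section det

variable {Om : Type*} [Fintype Om] {κ ι : Type*}

/-- a function with conditional entropy `0` is determined on the support -/
theorem det_of_Hc {P : FP Om} {X : Om → κ} {Z : Om → ι} (h : P.Hc X Z = 0) {v w : Om} (hv : P.p v ≠ 0) (hw : P.p w ≠ 0)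
    (hz : Z v = Z w) : X v = X w := by
  by_contra hx
  have hge : ∀ u, P.p u ≠ 0 → 0 ≤ Real.log (P.m Z u / P.m (fun v => (X v, Z v)) u) := by
    intro u hu
    refine Real.log_nonneg ?_
    rw [le_div_iff₀ (P.m_pos (fun v => (X v, Z v)) hu), one_mul]
    exact P.m_anti (Fac.snd X Z) u
  rw [Hc_eq_E_log] at h
  have h1 : P.p w * Real.log (P.m Z w / P.m (fun v => (X v, Z v)) w) ≤ 0 := by
    rw [← h]
    unfold FP.E
    refine Finset.single_le_sum (f := fun u => P.p u * Real.log (P.m Z u / P.m (fun v => (X v, Z v)) u))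
      (fun u _ => ?_) (mem_univ w)
    by_cases hu : P.p u = 0
    · show 0 ≤ P.p u * _
      rw [hu, zero_mul]
    · exact mul_nonneg (P.nn u) (hge u hu)
  have hpw : 0 < P.p w := lt_of_le_of_ne (P.nn w) (Ne.symm hw)
  have hpv : 0 < P.p v := lt_of_le_of_ne (P.nn v) (Ne.symm hv)
  have h2 : P.m (fun v => (X v, Z v)) w < P.m Z w := by
    have h3 : P.m (fun v => (X v, Z v)) w + P.p v ≤ P.m Z w := by
      have e1 : P.p v = P.E (fun u => ind (u = v)) := by
        unfold FP.E
        rw [Finset.sum_eq_single v]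
        · show P.p v = P.p v * ind (v = v)
          rw [ind_of rfl, mul_one]
        · intro b _ hb
          show P.p b * ind (b = v) = 0
          rw [ind_not hb, mul_zero]
        · intro hh; exact absurd (mem_univ v) hh
      rw [e1]
      unfold FP.m
      rw [← FP.E_add]
      refine P.E_mono fun u _ => ?_
      by_cases huv : u = v
      · subst huv
        rw [ind_of rfl, ind_of hz, ind_not, zero_add]
        intro hh
        exact hx (congrArg Prod.fst hh)
      · rw [ind_not huv, add_zero]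
        by_cases huw : (X u, Z u) = (X w, Z w)
        · rw [ind_of huw, ind_of (congrArg Prod.snd huw)]
        · rw [ind_not huw]; exact ind_nonneg _
    linarith
  have h3 : 0 < Real.log (P.m Z w / P.m (fun v => (X v, Z v)) w) := by
    refine Real.log_pos ?_
    rw [lt_div_iff₀ (P.m_pos (fun v => (X v, Z v)) hw), one_mul]
    exact h2
  have := mul_pos hpw h3
  linarith

end det

section top

variable {Om K : Type*} {υ : Type*} {β : Finset K → Type*} [Fintype Om] {P : FP Om} {B : (J : Finset K) → Om → β J}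
  {N : Finset K → ℝ} {S : Finset (Finset K)} {L : Finset K → Om → υ} {Adm : Set (Finset K → Om → Om)}
  {V : Finset K → Om → Om} {J : Finset K}

/-- **the minimiser costs nothing at a maximal index set** -/
theorem Mini.top (h : Mini P B N S L Adm V) (hJ : J ∈ S) (hmax : ∀ I ∈ S, ¬ J ⊂ I) (hN : 0 < N J)
    {V' : Finset K → Om → Om} (hV' : ∀ I, I ≠ J → V' I = V I) (hVJ : ∀ v w, V' J v = V' J w)
    (hadm : V' ∈ Adm) : cost P B L V J = 0 := by
  classical
  have hlo : ∀ I ∈ S, lo V' I = lo V I := by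
    intro I hI
    funext w I'
    unfold lo
    by_cases h1 : I' ⊂ I
    · rw [if_pos h1, if_pos h1]
      have : I' ≠ J := fun hh => hmax I hI (hh ▸ h1)
      rw [hV' I' this]
    · rw [if_neg h1, if_neg h1]
  have hcost : ∀ I ∈ S, I ≠ J → cost P B L V' I = cost P B L V I := by
    intro I hI hIJ
    unfold cost
    rw [hlo I hI, hV' I hIJ]
  have hgain : ∀ I ∈ S, gain P B L V' I = gain P B L V I := by
    intro I hI
    unfold gain
    rw [hlo I hI]
  have hJ0 : cost P B L V' J = 0 := cost_const hVJ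
  have key := h.min V' hadm
  unfold Phi at key
  have h1 : ∑ I ∈ S, N I * (2 * cost P B L V I - gain P B L V I) -
      ∑ I ∈ S, N I * (2 * cost P B L V' I - gain P B L V' I) = 2 * N J * cost P B L V J := by
    rw [← Finset.sum_sub_distrib, Finset.sum_eq_single_of_mem J hJ]
    · rw [hgain J hJ, hJ0]; ring
    · intro I hI hIJ
      rw [hgain I hI, hcost I hI hIJ]; ring
  have h2 : 0 ≤ cost P B L V J := cost_nonneg
  have h3 : 2 * N J * cost P B L V J ≤ 0 := by linarith
  have h4 : 0 ≤ 2 * N J * cost P B L V J := by positivity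
  have h5 : 2 * N J * cost P B L V J = 0 := le_antisymm h3 h4
  rcases mul_eq_zero.1 h5 with h6 | h6
  · linarith
  · exact h6

end top

section run

variable {K X β γ φ : Type} [Fintype K] [DecidableEq K] [Fintype X] [Fintype β] [Fintype φ]
  [Nonempty X] [Nonempty β] {D : HD K X β γ φ} {al : ℝ} {h : D.Thick al} {N : Finset K → ℝ} {S : Finset (Finset K)}
  {v : ℕ → Finset K → X → (K → β) → Pt K X β φ} {J : Finset K}

theorem Run.top_cost (R : Run h N S (AdmDep D) v) (hJ : J ∈ S) (hmax : ∀ I ∈ S, ¬ J ⊂ I) (hN : 0 < N J) (t : ℕ) :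
    cost (D.P h t) (BB D t) (LL (Um v t)) (Vt v t) J = 0 := by
  classical
  obtain ⟨w0, _⟩ := (D.P h t).exists_p_ne
  refine (R.mini t).top hJ hmax hN (V' := Function.update (Vt v t) J fun _ => w0)
    (fun I hI => Function.update_of_ne hI _ _) (fun a b => by rw [Function.update_self]) ?_
  show AdmDep D t (Um v t) (ker (Function.update (Vt v t) J fun _ => w0))
  intro I a b h1 h2 h3
  unfold ker
  by_cases hI : I = J
  · subst hI; rw [Function.update_self]
  · rw [Function.update_of_ne hI]
    exact (R.mini t).mem I a b h1 h2 h3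

/-- support of the earlier law -/
theorem old_supp {dg : ℕ → X → ℝ} {pr : ℕ → K → φ → φ} {T : ℕ} {Lam : ℝ} (hh : D.Hyp dg pr al T Lam) {t : ℕ} (ht : t < T)
    {w : Pt K X β φ} (hw : (D.P h (t + 1)).p w ≠ 0) : (D.P h t).p (old pr t w) ≠ 0 := by
  classical
  have hc : (Fintype.card X * (Fintype.card β : ℝ) ^ Fintype.card K) ≠ 0 := by
    refine mul_ne_zero ?_ (pow_ne_zero _ ?_) <;> exact_mod_cast Fintype.card_ne_zero
  have h1 : ∀ l, D.kf (t + 1) l w.1 w.2.1 (w.2.2 l) ≠ 0 := by
    have : (∏ l, D.kf (t + 1) l w.1 w.2.1 (w.2.2 l)) / (Fintype.card X * (Fintype.card β : ℝ) ^ Fintype.card K) ≠ 0 := hw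
    intro l
    exact Finset.prod_ne_zero_iff.1 (div_ne_zero_iff.1 this).1 l (mem_univ l)
  show (∏ l, D.kf t l w.1 w.2.1 (pr t l (w.2.2 l))) / (Fintype.card X * (Fintype.card β : ℝ) ^ Fintype.card K) ≠ 0
  refine div_ne_zero (Finset.prod_ne_zero_iff.2 fun l _ => ?_) hc
  have h2 : 0 < D.kf (t + 1) l w.1 w.2.1 (w.2.2 l) := lt_of_le_of_ne (h.nn _ _ _ _ _) (Ne.symm (h1 l))
  have h3 : D.kf (t + 1) l w.1 w.2.1 (w.2.2 l) ≤ D.kf t l w.1 w.2.1 (pr t l (w.2.2 l)) := by
    rw [hh.kf_pr t ht l w.1 w.2.1 (pr t l (w.2.2 l))]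
    have := Finset.single_le_sum (f := fun F' => ind (pr t l F' = pr t l (w.2.2 l)) * D.kf (t + 1) l w.1 w.2.1 F')
      (fun F' _ => mul_nonneg (ind_nonneg _) (h.nn _ _ _ _ _)) (mem_univ (w.2.2 l))
    rwa [ind_of rfl, one_mul] at this
  linarith

theorem top_max {j0 : K} (hu : univ ∉ S) : ∀ I ∈ S, ¬ univ.erase j0 ⊂ I := by
  intro I hI hss
  have : I = univ := by
    refine Finset.eq_univ_iff_forall.2 fun j => ?_
    by_cases hj : j = j0
    · subst hj
      by_contra hjI
      refine hss.2 fun i hi => Finset.mem_erase.2 ⟨fun hh => hjI (hh ▸ hi), mem_univ i⟩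
    · exact hss.1 (Finset.mem_erase.2 ⟨hj, mem_univ j⟩)
  exact hu (this ▸ hI)

/-- **the class of a maximal index set is determined** by the lower classes, the label, the known points and the node -/
theorem Run.top_det {dg : ℕ → X → ℝ} {pr : ℕ → K → φ → φ} {T : ℕ} {Lam : ℝ} (hh : D.Hyp dg pr al T Lam)
    (R : Run h N S (AdmDep D) v) {j0 : K} (hJ : univ.erase j0 ∈ S) (hu : univ ∉ S) (hN : 0 < N (univ.erase j0)) (t : ℕ)
    (ht : t ≤ T) : ∀ a b : Pt K X β φ, (D.P h t).p a ≠ 0 → (D.P h t).p b ≠ 0 →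
      BB D t (univ.erase j0) a = BB D t (univ.erase j0) b →
      (∀ I, I ⊂ univ.erase j0 → UU v I t a.1 a.2.1 = UU v I t b.1 b.2.1) → a.2.2 j0 = b.2.2 j0 →
      UU v (univ.erase j0) t a.1 a.2.1 = UU v (univ.erase j0) t b.1 b.2.1 := by
  -- one time
  have one : ∀ t, ∀ a b : Pt K X β φ, (D.P h t).p a ≠ 0 → (D.P h t).p b ≠ 0 →
      BB D t (univ.erase j0) a = BB D t (univ.erase j0) b →
      (∀ I, I ⊂ univ.erase j0 → UU v I t a.1 a.2.1 = UU v I t b.1 b.2.1) → a.2.2 j0 = b.2.2 j0 →
      (∀ I, I ⊆ univ.erase j0 → Um v t I a.1 a.2.1 = Um v t I b.1 b.2.1) →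
      v t (univ.erase j0) a.1 a.2.1 = v t (univ.erase j0) b.1 b.2.1 := by
    intro t a b ha hb hB hlow hlab hold
    have h1 := R.top_cost hJ (top_max hu) hN t
    unfold cost at h1
    refine det_of_Hc h1 ha hb ?_
    simp only [Prod.mk.injEq]
    refine ⟨?_, ?_, hB⟩
    · rw [lo_eq]
      intro I hI
      exact UU_eq.1 (hlow I hI) t le_rfl
    · rw [le_eq]
      intro I hI
      rw [LL_eq]
      refine ⟨hold I hI, fun l hl => ?_⟩
      have : l = j0 := by
        by_contra hne
        have h3 : j0 ∈ univ.erase l := Finset.mem_erase.2 ⟨fun hh => hne hh.symm, mem_univ j0⟩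
        rw [hl] at h3
        exact (Finset.mem_erase.1 (hI h3)).1 rfl
      rw [this]
      exact hlab
  induction t with
  | zero =>
    intro a b ha hb hB hlow hlab
    rw [UU_eq]
    intro s hs
    obtain rfl : s = 0 := Nat.le_zero.1 hs
    exact one 0 a b ha hb hB hlow hlab (fun I _ => rfl)
  | succ t ih =>
    intro a b ha hb hB hlow hlab
    have ha' := old_supp hh (by omega : t < T) ha
    have hb' := old_supp hh (by omega : t < T) hb
    rw [BB_eq] at hB
    have hold : UU v (univ.erase j0) t a.1 a.2.1 = UU v (univ.erase j0) t b.1 b.2.1 := by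
      refine ih (by omega) (old pr t a) (old pr t b) ha' hb' ?_ ?_ ?_
      · rw [BB_eq]
        exact ⟨hB.1, D.ra t _ _ hB.2.1, fun j => D.rb t _ _ (hB.2.2 j)⟩
      · intro I hI
        have h1 := UU_eq.1 (hlow I hI)
        exact UU_eq.2 fun s hs => h1 s (by omega)
      · show pr t j0 (a.2.2 j0) = pr t j0 (b.2.2 j0)
        rw [hlab]
    have hnew : v (t + 1) (univ.erase j0) a.1 a.2.1 = v (t + 1) (univ.erase j0) b.1 b.2.1 := by
      refine one (t + 1) a b ha hb (BB_eq.2 hB) hlow hlab ?_
      intro I hI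
      rcases hI.eq_or_ssubset with h1 | h1
      · rw [h1]; exact hold
      · have h2 := UU_eq.1 (hlow I h1)
        exact UU_eq.2 fun s hs => h2 s (by omega)
    rw [UU_eq]
    intro s hs
    rcases Nat.lt_or_ge s (t + 1) with h1 | h1
    · exact UU_eq.1 hold s (by omega)
    · obtain rfl : s = t + 1 := by omega
      exact hnew

/-- the label and the lower labels determine `LL` at a maximal index set -/
theorem Run.top_LL {dg : ℕ → X → ℝ} {pr : ℕ → K → φ → φ} {T : ℕ} {Lam : ℝ} (hh : D.Hyp dg pr al T Lam)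
    (R : Run h N S (AdmDep D) v) {j0 : K} (hJ : univ.erase j0 ∈ S) (hu : univ ∉ S) (hN : 0 < N (univ.erase j0)) {t : ℕ}
    (ht : t ≤ T) {a b : Pt K X β φ} (ha : (D.P h t).p a ≠ 0) (hb : (D.P h t).p b ≠ 0)
    (hz : (lo (LL fun I x y => UU v I t x y) (univ.erase j0) a, BB D t (univ.erase j0) a) =
      (lo (LL fun I x y => UU v I t x y) (univ.erase j0) b, BB D t (univ.erase j0) b)) :
    LL (fun I x y => UU v I t x y) (univ.erase j0) a = LL (fun I x y => UU v I t x y) (univ.erase j0) b ↔
      a.2.2 j0 = b.2.2 j0 := by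
  simp only [Prod.mk.injEq] at hz
  rw [LL_eq]
  constructor
  · intro h1
    exact h1.2 j0 rfl
  · intro h1
    refine ⟨?_, fun l hl => ?_⟩
    · refine R.top_det hh hJ hu hN t ht a b ha hb hz.2 (fun I hI => ?_) h1
      have := lo_eq.1 hz.1 I hI
      rw [LL_eq] at this
      exact this.1
    · have : l = j0 := by
        by_contra hne
        have h3 : j0 ∈ univ.erase l := Finset.mem_erase.2 ⟨fun hh => hne hh.symm, mem_univ j0⟩
        rw [hl] at h3
        exact (Finset.mem_erase.1 h3).1 rfl
      rw [this]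
      exact h1

/-- entropies of the label at a maximal index set -/
theorem Run.top_ent {dg : ℕ → X → ℝ} {pr : ℕ → K → φ → φ} {T : ℕ} {Lam : ℝ} (hh : D.Hyp dg pr al T Lam)
    (R : Run h N S (AdmDep D) v) {j0 : K} (hJ : univ.erase j0 ∈ S) (hu : univ ∉ S) (hN : 0 < N (univ.erase j0)) {t : ℕ}
    (ht : t ≤ T) : ent (D.P h t) (BB D t) (LL fun I x y => UU v I t x y) (univ.erase j0) =
      (D.P h t).Hc (fun w => w.2.2 j0)
        (fun w => (lo (LL fun I x y => UU v I t x y) (univ.erase j0) w, BB D t (univ.erase j0) w)) := by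
  unfold ent
  exact Hc_congr_supp (fun _ _ _ _ => Iff.rfl) fun a b ha hb hz => R.top_LL hh hJ hu hN ht ha hb hz

end run

end Pool.Agent.GMH
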