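import Pool.Agent.GMH.ConS3
import Pool.Agent.GMH.RunE
import Pool.Agent.GMH.Top

/-!
# GMH.ConA: the synergy of HARM(K) with potentials counted on alive points (helper30; forms of helper91 and helper12)

* `sp P X Z` = pointwise conditional information of `X` given `Z`; `E_sp`, `sp_chain`, `sp_congr`, `sp_cond` (on an event
  the mean is `Hc + klc`), `sp_cond_fac` (on an event of `Z` it is `Hc`), `sp_dig` (one digit more);
* `iR P p p' L W` = pointwise relative potential, `E_iR` : its mean is `MR`; `iR_dig` : a digit changes it by the density;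
  `iR_ev_nonneg` : nonnegative mean on events of `(all (LP p' L), W)`; `iR_grow` : new letters, on every event of the old labels;
* alive sets: `a t` before the digit, `a' t` after the digit; `MA`, `killD`, `lossA`, `killA`, `corA`;
* `rhoA_sum` : `∑_(t<T) E ind (a t) rho_t ≤ MA T - MA 0 + ∑ (killD + lossA + killA)`;
* **`conGA`** : the synergy of `p` over `p'` on alive points; `con3A` : three known vertices.
-/

set_option autoImplicit false
set_option linter.unusedSectionVars false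

namespace Pool.Agent.GMH

open Finset Pool.Agent.PWZ Pool.Agent.M3 Pool.Agent.GM Pool.Agent.GM.Harm

/-! ## pointwise conditional information -/

section sp

variable {Om : Type*} [Fintype Om] (P : FP Om) {κ ι κ' ι' τ : Type*}

/-- pointwise conditional information of `X` given `Z` -/
noncomputable def sp (X : Om → κ) (Z : Om → ι) (w : Om) : ℝ :=
  Real.log (P.m Z w) - Real.log (P.m (fun v => (X v, Z v)) w)

theorem E_sp (X : Om → κ) (Z : Om → ι) : P.E (sp P X Z) = P.Hc X Z := by
  rw [Hc_eq_E_log]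
  refine P.E_congr fun w hw => ?_
  unfold sp
  rw [Real.log_div (P.m_pos Z hw).ne' (P.m_pos (fun v => (X v, Z v)) hw).ne']

theorem sp_nonneg (X : Om → κ) (Z : Om → ι) {w : Om} (hw : P.p w ≠ 0) : 0 ≤ sp P X Z w := by
  unfold sp
  have h1 := Real.log_le_log (P.m_pos (fun v => (X v, Z v)) hw) (P.m_anti (Fac.snd X Z) w)
  linarith

theorem sp_congr {X : Om → κ} {X' : Om → κ'} {Z : Om → ι} {Z' : Om → ι'} (h1 : Fac (fun w => (X w, Z w)) X')
    (h2 : Fac Z Z') (h3 : Fac (fun w => (X' w, Z' w)) X) (h4 : Fac Z' Z) (w : Om) : sp P X Z w = sp P X' Z' w := by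
  unfold sp
  rw [P.m_congr h2 h4 w, P.m_congr (X := fun v => (X v, Z v)) (Y := fun v => (X' v, Z' v))
    (h1.prod ((Fac.snd X Z).trans h2)) (h3.prod ((Fac.snd X' Z').trans h4)) w]

theorem sp_chain (X : Om → κ) (Y : Om → κ') (Z : Om → ι) (w : Om) :
    sp P (fun w => (X w, Y w)) Z w = sp P Y Z w + sp P X (fun w => (Y w, Z w)) w := by
  unfold sp
  rw [P.m_congr (X := fun v => ((X v, Y v), Z v)) (Y := fun v => (X v, Y v, Z v))
    (by intro a b h; simp only [Prod.mk.injEq] at h ⊢; tauto) (by intro a b h; simp only [Prod.mk.injEq] at h ⊢; tauto) w]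
  ring

/-- a determined map -/
theorem sp_const {X : Om → κ} {Z : Om → ι} (h : Fac Z X) (w : Om) : sp P X Z w = 0 := by
  unfold sp
  rw [P.m_congr (X := fun v => (X v, Z v)) (Y := Z) (Fac.snd _ _) (h.prod (Fac.refl Z)) w, sub_self]

/-- on an event -/
theorem sp_cond (S : Om → Prop) (X : Om → κ) (Z : Om → ι) :
    (P.cond S).E (sp P X Z) = (P.cond S).Hc X Z + (P.cond S).klc P X Z := by
  rw [Hc_eq_E_log]
  unfold FP.klc
  rw [← FP.E_add]
  refine FP.E_congr _ fun w hw => ?_
  have hp := FP.cond_ac P S w hw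
  have a := (FP.m_pos _ Z hw).ne'
  have b := (FP.m_pos _ (fun v => (X v, Z v)) hw).ne'
  have c := (P.m_pos Z hp).ne'
  have d := (P.m_pos (fun v => (X v, Z v)) hp).ne'
  unfold sp
  rw [Real.log_div a b, Real.log_div (div_ne_zero b a) (div_ne_zero d c), Real.log_div b a, Real.log_div d c]
  ring

theorem sp_cond_ge (S : Om → Prop) (X : Om → κ) (Z : Om → ι) : (P.cond S).Hc X Z ≤ (P.cond S).E (sp P X Z) := by
  rw [sp_cond]
  have := klc_nonneg (FP.cond_ac P S) X Z
  linarith

/-- on an event of `Z` -/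
theorem sp_cond_fac {S : Om → Prop} (hS0 : P.Pr S ≠ 0) (X : Om → κ) {Z : Om → ι} (hS : Fac Z S) :
    (P.cond S).E (sp P X Z) = (P.cond S).Hc X Z := by
  rw [← E_sp]
  refine FP.E_congr _ fun w hw => ?_
  obtain ⟨hSw, hp⟩ := (FP.cond_p_ne hS0).1 hw
  unfold sp
  rw [cond_m_of_fac hS0 hS hSw, cond_m_of_fac hS0 (Z := fun v => (X v, Z v)) ((Fac.snd X Z).trans hS) hSw,
    Real.log_div (P.m_pos Z hp).ne' hS0, Real.log_div (P.m_pos (fun v => (X v, Z v)) hp).ne' hS0]
  ring

/-- one digit more -/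
theorem sp_dig {D : Om → ℝ} (hD : ∀ w, P.p w ≠ 0 → D w = 1 ∨ D w = -1) (X : Om → κ) {Z : Om → ι} {Z' : Om → ι'}
    (h1 : Fac (fun w => (D w, Z w)) Z') (h2 : Fac Z' (fun w => (D w, Z w))) {w : Om} (hw : P.p w ≠ 0) :
    sp P X Z' w - sp P X Z w = Real.log (1 + D w * P.ce Z D w) -
      Real.log (1 + D w * P.ce (fun v => (X v, Z v)) D w) := by
  unfold sp
  have e1 : P.m Z' w = P.m Z w * ((1 + D w * P.ce Z D w) / 2) := by
    rw [P.m_congr h2 h1 w]
    exact P.m_digit hD Z hw
  have e2 : P.m (fun v => (X v, Z' v)) w =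
      P.m (fun v => (X v, Z v)) w * ((1 + D w * P.ce (fun v => (X v, Z v)) D w) / 2) := by
    rw [P.m_congr (X := fun v => (X v, Z' v)) (Y := fun v => (D v, X v, Z v)) ?_ ?_ w]
    · exact P.m_digit hD (fun v => (X v, Z v)) hw
    · intro a b hab
      simp only [Prod.mk.injEq] at hab
      have := h2 a b hab.2
      simp only [Prod.mk.injEq] at this ⊢
      exact ⟨this.1, hab.1, this.2⟩
    · intro a b hab
      simp only [Prod.mk.injEq] at hab ⊢
      exact ⟨hab.2.1, h1 a b (by simp only [Prod.mk.injEq]; exact ⟨hab.1, hab.2.2⟩)⟩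
  have p1 := P.digit_pos hD Z hw
  have p2 := P.digit_pos hD (fun v => (X v, Z v)) hw
  have m1 := P.m_pos Z hw
  have m2 := P.m_pos (fun v => (X v, Z v)) hw
  rw [e1, e2, Real.log_mul m1.ne' (by positivity), Real.log_mul m2.ne' (by positivity),
    Real.log_div p1.ne' two_ne_zero, Real.log_div p2.ne' two_ne_zero]
  ring

end sp

/-! ## one level with an alive set -/

section level

variable {Om : Type*} [Fintype Om] (P : FP Om) {α κ : Type*} {A : Om → κ} {D : Om → ℝ}

/-- **ONE LEVEL** on the alive set `a` -/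
theorem level_genA (hD : ∀ w, P.p w ≠ 0 → D w = 1 ∨ D w = -1) {S : Finset α} {n : Om → ℝ} {u u' : α → Om → ℝ}
    {g g' : Om → ℝ} (fn : Fac A n) (fu : ∀ i ∈ S, Fac A (u i)) (fu' : ∀ i ∈ S, Fac A (u' i)) (fg : Fac A g)
    (fg' : Fac A g') (hn : ∀ w, P.p w ≠ 0 → |n w| ≤ 1) (hu : ∀ w, P.p w ≠ 0 → ∀ i ∈ S, |u i w| ≤ 1)
    (hu' : ∀ w, P.p w ≠ 0 → ∀ i ∈ S, |u' i w| ≤ 1) (pn : ∀ w, P.p w ≠ 0 → 0 < 1 + D w * n w)
    (pu : ∀ w, P.p w ≠ 0 → ∀ i ∈ S, 0 < 1 + D w * u i w) (pu' : ∀ w, P.p w ≠ 0 → ∀ i ∈ S, 0 < 1 + D w * u' i w)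
    {a G : Om → Prop} (fa : Fac A a) (hGa : ∀ w, P.p w ≠ 0 → G w → a w)
    (hg : ∀ w, P.p w ≠ 0 → G w → g w = 0 ∧ g' w = 0) :
    P.E (fun w => ind (G w) * (P.ce A D w - ex (n w) S (fun i => u i w) (fun i => u' i w)) ^ 2) ≤
      2 * (P.E (fun w => ind (a w) * (Real.log (1 + D w * P.ce A D w) - Real.log (1 + D w * n w) -
        ∑ i ∈ S, (Real.log (1 + D w * u i w) - Real.log (1 + D w * u' i w)))) +
        P.E (fun w => ind (a w) * if D w = 1 then g w else g' w) +
        P.E (fun w => ind (a w) * (Rp (n w) S (fun i => u i w) (fun i => u' i w) / 2 * Real.exp (-g w) +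
          Rm (n w) S (fun i => u i w) (fun i => u' i w) / 2 * Real.exp (-g' w) - 1))) := by
  classical
  have fR : Fac A (fun w => Rp (n w) S (fun i => u i w) (fun i => u' i w) / 2) := by
    intro v w hvw
    have e1 : n v = n w := fn v w hvw
    have e2 : ∀ i ∈ S, (1 + u i v) / (1 + u' i v) = (1 + u i w) / (1 + u' i w) :=
      fun i hi => by rw [fu i hi v w hvw, fu' i hi v w hvw]
    show Rp (n v) S (fun i => u i v) (fun i => u' i v) / 2 = Rp (n w) S (fun i => u i w) (fun i => u' i w) / 2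
    unfold Rp
    rw [e1, Finset.prod_congr rfl e2]
  have fR' : Fac A (fun w => Rm (n w) S (fun i => u i w) (fun i => u' i w) / 2) := by
    intro v w hvw
    have e1 : n v = n w := fn v w hvw
    have e2 : ∀ i ∈ S, (1 - u i v) / (1 - u' i v) = (1 - u i w) / (1 - u' i w) :=
      fun i hi => by rw [fu i hi v w hvw, fu' i hi v w hvw]
    show Rm (n v) S (fun i => u i v) (fun i => u' i v) / 2 = Rm (n w) S (fun i => u i w) (fun i => u' i w) / 2
    unfold Rm
    rw [e1, Finset.prod_congr rfl e2]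
  have hT := fun w (hw : P.p w ≠ 0) => R_true (m0 := n w) (S := S) (u := fun i => u i w) (u' := fun i => u' i w)
    (hD w hw) (pn w hw) (pu w hw) (pu' w hw)
  have key := level_rho P (A := A) (D := D) hD fR fR' fg fg' (al := a) (G := G)
    (fun v w hvw => by rw [fa v w hvw]) hGa
    (fun w hw _ => div_nonneg (Rp_nn (hn w hw) (hu w hw) (hu' w hw)) (by norm_num))
    (fun w hw _ => div_nonneg (Rm_nn (hn w hw) (hu w hw) (hu' w hw)) (by norm_num))
    (fun w hw _ => ⟨(hT w hw).1, (hT w hw).2.1⟩)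
    (q := fun w => ex (n w) S (fun i => u i w) (fun i => u' i w)) (by
      intro w hw hG
      obtain ⟨h1, h2⟩ := hg w hw hG
      show ex (n w) S (fun i => u i w) (fun i => u' i w) = _
      rw [h1, h2, neg_zero, Real.exp_zero, mul_one, mul_one]
      unfold ex mn
      rw [← sub_div, ← add_div]
      by_cases h0 : Rp (n w) S (fun i => u i w) (fun i => u' i w) + Rm (n w) S (fun i => u i w) (fun i => u' i w) = 0
      · rw [h0]; simp
      · field_simp)
  refine key.trans (le_of_eq ?_)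
  congr 1
  rw [← P.E_add (fun w => ind (a w) * (Real.log (1 + D w * P.ce A D w) - Real.log (1 + D w * n w) -
        ∑ i ∈ S, (Real.log (1 + D w * u i w) - Real.log (1 + D w * u' i w))))]
  congr 1
  refine P.E_congr fun w hw => ?_
  rw [(hT w hw).2.2]
  ring

end level

/-! ## the pointwise relative potential -/

section rel

variable {K : Type} {Om υ ν υ' κ κ' : Type*} [Fintype Om] [Fintype K] [DecidableEq K] (P : FP Om) (p p' : Finset K → Prop)
  [DecidablePred p] [DecidablePred p']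

/-- the pointwise relative potential -/
noncomputable def iR (L : Finset K → Om → υ) (W : Om → κ) (w : Om) : ℝ :=
  ∑ J ∈ univ.filter (fun J => p J ∧ ¬ p' J), sp P (L J) (fun w => (lo L J w, W w)) w -
    sp P (all (LP p L)) (fun w => (all (LP p' L) w, W w)) w

theorem E_iR (L : Finset K → Om → υ) (W : Om → κ) : P.E (iR P p p' L W) = MR P p p' L W := by
  unfold iR MR
  rw [P.E_sub, P.E_sum]
  simp only [E_sp]

theorem iR_congr {L : Finset K → Om → υ} {L' : Finset K → Om → υ'} {W : Om → κ} {W' : Om → κ'}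
    (h1 : ∀ J, Fac (L J) (L' J)) (h2 : ∀ J, Fac (L' J) (L J)) (h3 : Fac W W') (h4 : Fac W' W) (w : Om) :
    iR P p p' L W w = iR P p p' L' W' w := by
  have e := lo_congrL h1 h2
  have hall : ∀ (q : Finset K → Prop) a b, all (LP q L) a = all (LP q L) b ↔ all (LP q L') a = all (LP q L') b := by
    intro q a b
    unfold all LP
    rw [funext_iff, funext_iff]
    exact ⟨fun hh i => h1 i.1 a b (hh i), fun hh i => h2 i.1 a b (hh i)⟩
  unfold iR
  congr 1
  · refine Finset.sum_congr rfl fun J _ => sp_congr P ?_ ?_ ?_ ?_ w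
    · intro a b hab; simp only [Prod.mk.injEq] at hab; exact h1 J a b hab.1
    · intro a b hab; simp only [Prod.mk.injEq, e] at hab ⊢; exact ⟨hab.1, h3 a b hab.2⟩
    · intro a b hab; simp only [Prod.mk.injEq] at hab; exact h2 J a b hab.1
    · intro a b hab; simp only [Prod.mk.injEq, e] at hab ⊢; exact ⟨hab.1, h4 a b hab.2⟩
  · refine sp_congr P ?_ ?_ ?_ ?_ w
    · intro a b hab; simp only [Prod.mk.injEq] at hab; exact (hall p a b).1 hab.1
    · intro a b hab; simp only [Prod.mk.injEq] at hab ⊢; exact ⟨(hall p' a b).1 hab.1, h3 a b hab.2⟩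
    · intro a b hab; simp only [Prod.mk.injEq] at hab; exact (hall p a b).2 hab.1
    · intro a b hab; simp only [Prod.mk.injEq] at hab ⊢; exact ⟨(hall p' a b).2 hab.1, h4 a b hab.2⟩

/-- on an event of the labels of `p'` the mean is not negative -/
theorem iR_ev_nonneg (hp : ∀ I J : Finset K, I ⊆ J → p J → p I) (L : Finset K → Om → υ) (W : Om → κ) {S : Om → Prop}
    (hS : Fac (fun w => (all (LP p' L) w, W w)) S) : 0 ≤ P.E (fun w => ind (S w) * iR P p p' L W w) := by
  by_cases hS0 : P.Pr S = 0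
  · have : P.E (fun w => ind (S w) * iR P p p' L W w) = 0 := by
      rw [← P.E_const 0]
      refine P.E_congr fun w hw => ?_
      by_cases hSw : S w
      · exact absurd hS0 (FP.Pr_pos_of (P := P) hw hSw).ne'
      · rw [ind_not hSw, zero_mul]
    rw [this]
  · rw [← FP.Pr_mul_cond_E hS0]
    refine mul_nonneg (P.Pr_nonneg S) ?_
    unfold iR
    rw [FP.E_sub, FP.E_sum, sp_cond_fac P hS0 (all (LP p L)) hS]
    have h1 := chain_rel (P.cond S) (p := p) (p' := p') hp L W
    have h2 := Finset.sum_le_sum fun J (_ : J ∈ univ.filter (fun J => p J ∧ ¬ p' J)) =>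
      sp_cond_ge P S (L J) (fun w => (lo L J w, W w))
    linarith

/-- **new letters** : `L' = (L, V)`, the additions `V` are seen by no other index set and are trivial in `p'`; any event of
the old labels -/
theorem iR_grow (hp : ∀ I J : Finset K, I ⊆ J → p J → p I) {L : Finset K → Om → υ} {V : Finset K → Om → ν}
    {L' : Finset K → Om → υ'} (hL : ∀ J a b, L' J a = L' J b ↔ L J a = L J b ∧ V J a = V J b)
    (hlo : ∀ J, p J → ∀ a b, lo V J a = lo V J b) (hV : ∀ J, p' J → ∀ a b, V J a = V J b) (W : Om → κ) {S : Om → Prop}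
    (hS : Fac (fun w => (all (LP p L) w, W w)) S) :
    P.E (fun w => ind (S w) * iR P p p' L W w) ≤ P.E (fun w => ind (S w) * iR P p p' L' W w) := by
  have hlo' : ∀ J, p J → ∀ a b, lo L' J a = lo L' J b ↔ lo L J a = lo L J b := by
    intro J hJ a b
    rw [lo_eq, lo_eq]
    constructor
    · intro hh I hI
      exact ((hL I a b).1 (hh I hI)).1
    · intro hh I hI
      exact (hL I a b).2 ⟨hh I hI, lo_eq.1 (hlo J hJ a b) I hI⟩
  have hall : ∀ a b, all (LP p L') a = all (LP p L') b ↔ all (LP p L) a = all (LP p L) b ∧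
      all (LP p V) a = all (LP p V) b := by
    intro a b
    unfold all LP
    rw [funext_iff, funext_iff, funext_iff]
    constructor
    · intro hh
      exact ⟨fun i => ((hL i.1 a b).1 (hh i)).1, fun i => ((hL i.1 a b).1 (hh i)).2⟩
    · rintro ⟨h1, h2⟩ i
      exact (hL i.1 a b).2 ⟨h1 i, h2 i⟩
  have hall' : ∀ a b, all (LP p' L') a = all (LP p' L') b ↔ all (LP p' L) a = all (LP p' L) b := by
    intro a b
    unfold all LP
    rw [funext_iff, funext_iff]
    constructor
    · intro hh i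
      exact ((hL i.1 a b).1 (hh i)).1
    · intro hh i
      exact (hL i.1 a b).2 ⟨hh i, hV i.1 i.2 a b⟩
  -- pointwise difference
  have hdiff : ∀ w, iR P p p' L' W w = iR P p p' L W w +
      (∑ J ∈ univ.filter (fun J => p J ∧ ¬ p' J), sp P (V J) (fun w => (L J w, lo L J w, W w)) w -
        sp P (all (LP p V)) (fun w => (all (LP p L) w, all (LP p' L) w, W w)) w) := by
    intro w
    have e1 : ∀ J ∈ univ.filter (fun J => p J ∧ ¬ p' J), sp P (L' J) (fun w => (lo L' J w, W w)) w =
        sp P (L J) (fun w => (lo L J w, W w)) w + sp P (V J) (fun w => (L J w, lo L J w, W w)) w := by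
      intro J hJ
      have hJ' := (Finset.mem_filter.1 hJ).2.1
      rw [← sp_chain P (V J) (L J) (fun w => (lo L J w, W w)) w]
      refine sp_congr P ?_ ?_ ?_ ?_ w
      · intro a b hab
        simp only [Prod.mk.injEq, hL] at hab ⊢
        exact ⟨hab.1.2, hab.1.1⟩
      · intro a b hab; simp only [Prod.mk.injEq, hlo' J hJ'] at hab ⊢; exact hab
      · intro a b hab
        simp only [Prod.mk.injEq] at hab
        exact (hL J a b).2 ⟨hab.1.2, hab.1.1⟩
      · intro a b hab; simp only [Prod.mk.injEq, hlo' J hJ'] at hab ⊢; exact hab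
    have e2 : sp P (all (LP p L')) (fun w => (all (LP p' L') w, W w)) w =
        sp P (all (LP p L)) (fun w => (all (LP p' L) w, W w)) w +
        sp P (all (LP p V)) (fun w => (all (LP p L) w, all (LP p' L) w, W w)) w := by
      rw [← sp_chain P (all (LP p V)) (all (LP p L)) (fun w => (all (LP p' L) w, W w)) w]
      refine sp_congr P ?_ ?_ ?_ ?_ w
      · intro a b hab
        simp only [Prod.mk.injEq, hall] at hab ⊢
        exact ⟨hab.1.2, hab.1.1⟩
      · intro a b hab; simp only [Prod.mk.injEq, hall'] at hab ⊢; exact hab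
      · intro a b hab
        simp only [Prod.mk.injEq] at hab
        exact (hall a b).2 ⟨hab.1.2, hab.1.1⟩
      · intro a b hab; simp only [Prod.mk.injEq, hall'] at hab ⊢; exact hab
    unfold iR
    rw [Finset.sum_congr rfl e1, e2, Finset.sum_add_distrib]
    ring
  have hS' : Fac (fun w => (all (LP p L) w, all (LP p' L) w, W w)) S := by
    intro a b hab
    refine hS a b ?_
    simp only [Prod.mk.injEq] at hab ⊢
    exact ⟨hab.1, hab.2.2⟩
  have h0 : 0 ≤ P.E (fun w => ind (S w) *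
      (∑ J ∈ univ.filter (fun J => p J ∧ ¬ p' J), sp P (V J) (fun w => (L J w, lo L J w, W w)) w -
        sp P (all (LP p V)) (fun w => (all (LP p L) w, all (LP p' L) w, W w)) w)) := by
    by_cases hS0 : P.Pr S = 0
    · refine le_of_eq ?_
      rw [← P.E_const 0]
      refine P.E_congr fun w hw => ?_
      by_cases hSw : S w
      · exact absurd hS0 (FP.Pr_pos_of (P := P) hw hSw).ne'
      · rw [ind_not hSw, zero_mul]
    · rw [← FP.Pr_mul_cond_E hS0]
      refine mul_nonneg (P.Pr_nonneg S) ?_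
      rw [FP.E_sub, FP.E_sum, sp_cond_fac P hS0 (all (LP p V)) hS']
      have h1 := chain_rel (P.cond S) (p := p) (p' := p') hp V
        (fun w => (all (LP p L) w, all (LP p' L) w, W w))
      have h2 : (P.cond S).Hc (all (LP p V)) (fun w => (all (LP p' V) w, all (LP p L) w, all (LP p' L) w, W w)) =
          (P.cond S).Hc (all (LP p V)) (fun w => (all (LP p L) w, all (LP p' L) w, W w)) := by
        refine (P.cond S).Hc_congr_right _ (Fac.snd _ _) ?_
        intro a b hab
        simp only [Prod.mk.injEq] at hab ⊢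
        refine ⟨?_, hab⟩
        unfold all LP
        exact funext fun i => hV i.1 i.2 a b
      have h3 := Finset.sum_le_sum fun J (_ : J ∈ univ.filter (fun J => p J ∧ ¬ p' J)) =>
        sp_cond_ge P S (V J) (fun w => (L J w, lo L J w, W w))
      have h4 : ∑ J ∈ univ.filter (fun J => p J ∧ ¬ p' J),
          (P.cond S).Hc (V J) (fun w => (lo V J w, all (LP p L) w, all (LP p' L) w, W w)) ≤
          ∑ J ∈ univ.filter (fun J => p J ∧ ¬ p' J), (P.cond S).Hc (V J) (fun w => (L J w, lo L J w, W w)) := by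
        refine Finset.sum_le_sum fun J hJ => (P.cond S).Hc_anti _ ?_
        have hJ' := (Finset.mem_filter.1 hJ).2.1
        intro a b hab
        simp only [Prod.mk.injEq] at hab ⊢
        refine ⟨congrFun hab.2.1 ⟨J, hJ'⟩, lo_eq.2 fun I hI => congrFun hab.2.1 ⟨I, hp I J hI.subset hJ'⟩, hab.2.2.2⟩
      linarith
  have h5 : P.E (fun w => ind (S w) * iR P p p' L' W w) = P.E (fun w => ind (S w) * iR P p p' L W w) +
      P.E (fun w => ind (S w) *
      (∑ J ∈ univ.filter (fun J => p J ∧ ¬ p' J), sp P (V J) (fun w => (L J w, lo L J w, W w)) w -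
        sp P (all (LP p V)) (fun w => (all (LP p L) w, all (LP p' L) w, W w)) w)) := by
    rw [← P.E_add]
    refine P.E_congr fun w _ => ?_
    rw [hdiff w]
    ring
  linarith

end rel

/-! ## the process -/

section proc

variable {K X β γ φ υ : Type} [Fintype K] [DecidableEq K] [Fintype X] [Fintype β] [Fintype φ] [Nonempty X] [Nonempty β]
  {D : HD K X β γ φ} {al : ℝ} (h : D.Thick al) {dg : ℕ → X → ℝ} {prr : ℕ → K → φ → φ} {T : ℕ} {Lam : ℝ}
  {v : ℕ → Finset K → X → (K → β) → υ} {p p' : Finset K → Prop} [DecidablePred p] [DecidablePred p'] {t : ℕ}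

/-- **the digit, pointwise** -/
theorem iR_dig (H : D.Hyp dg prr al T Lam) (hv : Codes D v)
    (hp : ∀ I J : Finset K, I ⊆ J → p J → p I) (hsub : ∀ J, p' J → p J) (hu : ¬ p univ) (ht : t < T) {w : Pt K X β φ}
    (hw : (D.P h t).p w ≠ 0) :
    iR (D.P h t) p p' (LL (Um v (t + 1))) (WW D (t + 1)) w - iR (D.P h t) p p' (LL (Um v (t + 1))) (WW D t) w =
      Real.log (1 + dg t w.1 * bp v p h dg t w) - Real.log (1 + dg t w.1 * bp v p' h dg t w) -
        ∑ J ∈ univ.filter (fun J => p J ∧ ¬ p' J), (Real.log (1 + dg t w.1 * uu (UU v) h dg J t w) -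
          Real.log (1 + dg t w.1 * ul (UU v) h dg J t w)) := by
  have hD : ∀ w, (D.P h t).p w ≠ 0 → (fun w : Pt K X β φ => dg t w.1) w = 1 ∨ (fun w : Pt K X β φ => dg t w.1) w = -1 :=
    fun w _ => H.dg_val t w.1
  have e1 : ∀ J ∈ univ.filter (fun J => p J ∧ ¬ p' J),
      sp (D.P h t) (LL (Um v (t + 1)) J) (fun w => (lo (LL (Um v (t + 1))) J w, WW D (t + 1) w)) w -
      sp (D.P h t) (LL (Um v (t + 1)) J) (fun w => (lo (LL (Um v (t + 1))) J w, WW D t w)) w =
      Real.log (1 + dg t w.1 * ul (UU v) h dg J t w) - Real.log (1 + dg t w.1 * uu (UU v) h dg J t w) := by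
    intro J hJ
    have hJ' := (Finset.mem_filter.1 hJ).2.1
    rw [uu_buP h H hv hp hw ⟨J, hJ'⟩, ul_blP h H hv hp hu hw ⟨J, hJ'⟩]
    have k := sp_dig (D.P h t) (D := fun w => dg t w.1) hD (LL (Um v (t + 1)) J)
      (Z := fun w => (lo (LL (Um v (t + 1))) J w, WW D t w))
      (Z' := fun w => (lo (LL (Um v (t + 1))) J w, WW D (t + 1) w))
      (by
        intro a b hab
        simp only [Prod.mk.injEq, WW_succ H ht] at hab ⊢
        exact ⟨hab.2.1, hab.1, hab.2.2⟩)
      (by
        intro a b hab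
        simp only [Prod.mk.injEq, WW_succ H ht] at hab ⊢
        exact ⟨hab.2.1, hab.1, hab.2.2⟩) hw
    rw [k]
    unfold bu bl
    congr 3
    · congr 1
      refine (D.P h t).ce_congr_map ?_ ?_ _ w
      · intro a b hab
        simp only [Prod.mk.injEq, LP_bel hp] at hab ⊢
        exact hab
      · intro a b hab
        simp only [Prod.mk.injEq, LP_bel hp] at hab ⊢
        exact hab
    · congr 1
      refine (D.P h t).ce_congr_map ?_ ?_ _ w
      · intro a b hab
        simp only [Prod.mk.injEq, LP_ble hp, le_eq'] at hab ⊢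
        exact ⟨⟨hab.1, hab.2.1⟩, hab.2.2⟩
      · intro a b hab
        simp only [Prod.mk.injEq, LP_ble hp, le_eq'] at hab ⊢
        exact ⟨hab.1.1, hab.1.2, hab.2⟩
  have e2 : sp (D.P h t) (all (LP p (LL (Um v (t + 1))))) (fun w => (all (LP p' (LL (Um v (t + 1)))) w, WW D (t + 1) w)) w -
      sp (D.P h t) (all (LP p (LL (Um v (t + 1))))) (fun w => (all (LP p' (LL (Um v (t + 1)))) w, WW D t w)) w =
      Real.log (1 + dg t w.1 * bp v p' h dg t w) - Real.log (1 + dg t w.1 * bp v p h dg t w) := by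
    have k := sp_dig (D.P h t) (D := fun w => dg t w.1) hD (all (LP p (LL (Um v (t + 1)))))
      (Z := fun w => (all (LP p' (LL (Um v (t + 1)))) w, WW D t w))
      (Z' := fun w => (all (LP p' (LL (Um v (t + 1)))) w, WW D (t + 1) w))
      (by
        intro a b hab
        simp only [Prod.mk.injEq, WW_succ H ht] at hab ⊢
        exact ⟨hab.2.1, hab.1, hab.2.2⟩)
      (by
        intro a b hab
        simp only [Prod.mk.injEq, WW_succ H ht] at hab ⊢
        exact ⟨hab.2.1, hab.1, hab.2.2⟩) hw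
    rw [k]
    unfold bp
    congr 3
    congr 1
    refine (D.P h t).ce_congr_map ?_ ?_ _ w
    · intro a b hab
      simp only [Prod.mk.injEq] at hab ⊢
      exact ⟨hab.1, hab.2.2⟩
    · intro a b hab
      simp only [Prod.mk.injEq] at hab ⊢
      exact ⟨hab.1, funext fun i => congrFun hab.1 ⟨i.1, hsub i.1 i.2⟩, hab.2⟩
  unfold iR
  have e3 : ∑ J ∈ univ.filter (fun J => p J ∧ ¬ p' J),
      sp (D.P h t) (LL (Um v (t + 1)) J) (fun w => (lo (LL (Um v (t + 1))) J w, WW D (t + 1) w)) w -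
      ∑ J ∈ univ.filter (fun J => p J ∧ ¬ p' J),
      sp (D.P h t) (LL (Um v (t + 1)) J) (fun w => (lo (LL (Um v (t + 1))) J w, WW D t w)) w =
      ∑ J ∈ univ.filter (fun J => p J ∧ ¬ p' J),
        (Real.log (1 + dg t w.1 * ul (UU v) h dg J t w) - Real.log (1 + dg t w.1 * uu (UU v) h dg J t w)) := by
    rw [← Finset.sum_sub_distrib]
    exact Finset.sum_congr rfl e1
  have e4 : ∑ J ∈ univ.filter (fun J => p J ∧ ¬ p' J),
        (Real.log (1 + dg t w.1 * ul (UU v) h dg J t w) - Real.log (1 + dg t w.1 * uu (UU v) h dg J t w)) =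
      - ∑ J ∈ univ.filter (fun J => p J ∧ ¬ p' J),
        (Real.log (1 + dg t w.1 * uu (UU v) h dg J t w) - Real.log (1 + dg t w.1 * ul (UU v) h dg J t w)) := by
    rw [← Finset.sum_neg_distrib]
    exact Finset.sum_congr rfl fun J _ => by ring
  rw [e4] at e3
  linarith

/-- the law of the time `t` as an image of the law of the time `t + 1` -/
theorem iR_push (hpr : ∀ l x y F, D.kf t l x y F = ∑ F', ind (prr t l F' = F) * D.kf (t + 1) l x y F')
    (L : Finset K → Pt K X β φ → υ × (K → Option φ)) (s : ℕ) (w : Pt K X β φ) :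
    iR (D.P h t) p p' L (WW D s) (old prr t w) =
      iR (D.P h (t + 1)) p p' (fun I w => L I (old prr t w)) (WW D s) w := by
  unfold iR sp
  congr 1
  · refine Finset.sum_congr rfl fun J _ => ?_
    rw [← push_m h hpr (fun w => (lo L J w, WW D s w)), ← push_m h hpr (fun v => (L J v, (lo L J v, WW D s v)))]
    rfl
  · rw [← push_m h hpr (fun w => (all (LP p' L) w, WW D s w)),
      ← push_m h hpr (fun v => (all (LP p L) v, (all (LP p' L) v, WW D s v)))]
    rfl

/-- **the letters of the time `t + 1`**, on any event of the labels of the time `t` -/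
theorem iR_letters (hp : ∀ I J : Finset K, I ⊆ J → p J → p I) (hu : ¬ p univ) (hl : ∀ l : K, ¬ p' (univ.erase l))
    (hpr : ∀ l x y F, D.kf t l x y F = ∑ F', ind (prr t l F' = F) * D.kf (t + 1) l x y F') (n s : ℕ)
    {S : Pt K X β φ → Prop} (hS : Fac (fun w => (all (LP p (LL (Um v n))) w, WW D s w)) S) :
    (D.P h t).E (fun w => ind (S w) * iR (D.P h t) p p' (LL (Um v n)) (WW D s) w) ≤
      (D.P h (t + 1)).E (fun w => ind (S (old prr t w)) * iR (D.P h (t + 1)) p p' (LL (Um v n)) (WW D s) w) := by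
  have h1 : (D.P h t).E (fun w => ind (S w) * iR (D.P h t) p p' (LL (Um v n)) (WW D s) w) =
      (D.P h (t + 1)).E (fun w => ind (S (old prr t w)) *
        iR (D.P h (t + 1)) p p' (fun I w => LL (Um v n) I (old prr t w)) (WW D s) w) := by
    rw [← push_E h hpr]
    refine (D.P h (t + 1)).E_congr fun w _ => ?_
    rw [iR_push h hpr]
  rw [h1]
  refine iR_grow (D.P h (t + 1)) p p' hp (V := fun J w => ltr J w) ?_ ?_ ?_ (WW D s) ?_
  · intro J a b
    rw [LL_eq, LL_eq, ltr_eq]
    constructor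
    · rintro ⟨h2, h3⟩
      exact ⟨⟨h2, fun l hl => congrArg (prr t l) (h3 l hl)⟩, h3⟩
    · rintro ⟨⟨h2, _⟩, h3⟩
      exact ⟨h2, h3⟩
  · intro J hJ a b
    have hj : J ≠ univ := fun hh => hu (hh ▸ hJ)
    rw [lo_eq]
    intro I hI
    rw [ltr_eq]
    exact fun l hl' => absurd hl' (lt_no hj hI)
  · intro J hJ a b
    rw [ltr_eq]
    exact fun l hl' => absurd (hl' ▸ hJ) (hl l)
  · intro a b hab
    refine hS (old prr t a) (old prr t b) ?_
    simp only [Prod.mk.injEq] at hab ⊢
    exact hab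

variable (v p p') (prr)

/-- the potential on the alive points -/
noncomputable def MA (a : ℕ → Pt K X β φ → Prop) (t : ℕ) : ℝ :=
  (D.P h t).E (fun w => ind (a t w) * iR (D.P h t) p p' (LL (Um v (t + 1))) (WW D t) w)

/-- killed by the digit -/
noncomputable def killD (a a' : ℕ → Pt K X β φ → Prop) (t : ℕ) : ℝ :=
  (D.P h t).E (fun w => (ind (a t w) - ind (a' t w)) * iR (D.P h t) p p' (LL (Um v (t + 1))) (WW D (t + 1)) w)

/-- loss of the additions of the time `t + 1` on the alive points, law and letters of the time `t` -/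
noncomputable def lossA (a' : ℕ → Pt K X β φ → Prop) (t : ℕ) : ℝ :=
  (D.P h t).E (fun w => ind (a' t w) * (iR (D.P h t) p p' (LL (Um v (t + 1))) (WW D (t + 1)) w -
    iR (D.P h t) p p' (LL (Um v (t + 2))) (WW D (t + 1)) w))

/-- killed by the additions and the letters -/
noncomputable def killA (a a' : ℕ → Pt K X β φ → Prop) (t : ℕ) : ℝ :=
  (D.P h (t + 1)).E (fun w => (ind (a' t (old prr t w)) - ind (a (t + 1) w)) *
    iR (D.P h (t + 1)) p p' (LL (Um v (t + 2))) (WW D (t + 1)) w)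

variable (dg) in
/-- correction of one level on the alive points -/
noncomputable def corA (a : ℕ → Pt K X β φ → Prop) (t : ℕ) (g g' : Pt K X β φ → ℝ) : ℝ :=
  (D.P h t).E (fun w => ind (a t w) * if dg t w.1 = 1 then g w else g' w) +
    (D.P h t).E (fun w => ind (a t w) * (Rp (bp v p' h dg t w) (univ.filter fun J => p J ∧ ¬ p' J)
        (fun J => uu (UU v) h dg J t w) (fun J => ul (UU v) h dg J t w) / 2 * Real.exp (-g w) +
      Rm (bp v p' h dg t w) (univ.filter fun J => p J ∧ ¬ p' J)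
        (fun J => uu (UU v) h dg J t w) (fun J => ul (UU v) h dg J t w) / 2 * Real.exp (-g' w) - 1))

variable {v p p'} {prr}

/-- one level: the potential on the alive points -/
theorem MA_step (H : D.Hyp dg prr al T Lam) (hv : Codes D v)
    (hp : ∀ I J : Finset K, I ⊆ J → p J → p I) (hsub : ∀ J, p' J → p J) (hu : ¬ p univ)
    (hl : ∀ l : K, ¬ p' (univ.erase l)) {a a' : ℕ → Pt K X β φ → Prop}
    (fa' : ∀ t < T, Fac (fun w => (all (LP p (LL (Um v (t + 1)))) w, WW D (t + 1) w)) (a' t)) (ht : t < T) :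
    (D.P h t).E (fun w => ind (a t w) * (Real.log (1 + dg t w.1 * bp v p h dg t w) -
      Real.log (1 + dg t w.1 * bp v p' h dg t w) -
        ∑ J ∈ univ.filter (fun J => p J ∧ ¬ p' J), (Real.log (1 + dg t w.1 * uu (UU v) h dg J t w) -
          Real.log (1 + dg t w.1 * ul (UU v) h dg J t w)))) ≤
      MA h v p p' a (t + 1) - MA h v p p' a t + killD h v p p' a a' t + lossA h v p p' a' t +
        killA h prr v p p' a a' t := by
  have e1 : (D.P h t).E (fun w => ind (a t w) * (Real.log (1 + dg t w.1 * bp v p h dg t w) -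
      Real.log (1 + dg t w.1 * bp v p' h dg t w) -
        ∑ J ∈ univ.filter (fun J => p J ∧ ¬ p' J), (Real.log (1 + dg t w.1 * uu (UU v) h dg J t w) -
          Real.log (1 + dg t w.1 * ul (UU v) h dg J t w)))) =
      (D.P h t).E (fun w => ind (a t w) * iR (D.P h t) p p' (LL (Um v (t + 1))) (WW D (t + 1)) w) -
        MA h v p p' a t := by
    unfold MA
    rw [← FP.E_sub]
    refine (D.P h t).E_congr fun w hw => ?_
    rw [← iR_dig h H hv hp hsub hu ht hw]
    ring
  have e2 : (D.P h t).E (fun w => ind (a t w) * iR (D.P h t) p p' (LL (Um v (t + 1))) (WW D (t + 1)) w) =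
      killD h v p p' a a' t + lossA h v p p' a' t +
        (D.P h t).E (fun w => ind (a' t w) * iR (D.P h t) p p' (LL (Um v (t + 2))) (WW D (t + 1)) w) := by
    unfold killD lossA
    rw [← FP.E_add, ← FP.E_add]
    refine (D.P h t).E_congr fun w _ => ?_
    ring
  have e3 : (D.P h (t + 1)).E (fun w => ind (a' t (old prr t w)) *
      iR (D.P h (t + 1)) p p' (LL (Um v (t + 2))) (WW D (t + 1)) w) =
      killA h prr v p p' a a' t + MA h v p p' a (t + 1) := by
    unfold killA MA
    rw [← FP.E_add]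
    refine (D.P h (t + 1)).E_congr fun w _ => ?_
    ring
  have hS : Fac (fun w => (all (LP p (LL (Um v (t + 2)))) w, WW D (t + 1) w)) (a' t) := by
    intro x y hxy
    refine fa' t ht x y ?_
    simp only [Prod.mk.injEq] at hxy ⊢
    refine ⟨funext fun i => ?_, hxy.2⟩
    have h1 : LL (Um v (t + 2)) i.1 x = LL (Um v (t + 2)) i.1 y := congrFun hxy.1 i
    show LL (Um v (t + 1)) i.1 x = LL (Um v (t + 1)) i.1 y
    rw [LL_eq] at h1 ⊢
    exact ⟨(Um_eq.1 h1.1).1, h1.2⟩
  have e4 := iR_letters h (v := v) (prr := prr) hp hu hl (H.kf_pr t ht) (t + 2) (t + 1) hS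
  rw [e1, e2]
  linarith

/-- **THE SYNERGY OF `p` OVER `p'` ON ALIVE POINTS** -/
theorem conGA (H : D.Hyp dg prr al T Lam) (hv : Codes D v)
    (hp : ∀ I J : Finset K, I ⊆ J → p J → p I) (hsub : ∀ J, p' J → p J) (hu : ¬ p univ)
    (hl : ∀ l : K, ¬ p' (univ.erase l)) {a a' G : ℕ → Pt K X β φ → Prop}
    (fa : ∀ t < T, Fac (fun w => (all (LP p (LL (Um v (t + 1)))) w, WW D t w)) (a t))
    (fa' : ∀ t < T, Fac (fun w => (all (LP p (LL (Um v (t + 1)))) w, WW D (t + 1) w)) (a' t))
    (hGa : ∀ t < T, ∀ w, (D.P h t).p w ≠ 0 → G t w → a t w) {g g' : ℕ → Pt K X β φ → ℝ}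
    (fg : ∀ t < T, Fac (fun w => (all (LP p (LL (Um v (t + 1)))) w, WW D t w)) (g t))
    (fg' : ∀ t < T, Fac (fun w => (all (LP p (LL (Um v (t + 1)))) w, WW D t w)) (g' t))
    (hg : ∀ t < T, ∀ w, (D.P h t).p w ≠ 0 → G t w → g t w = 0 ∧ g' t w = 0) :
    ∑ t ∈ range T, (D.P h t).E (fun w => ind (G t w) * (bp v p h dg t w -
      ex (bp v p' h dg t w) (univ.filter fun J => p J ∧ ¬ p' J)
      (fun J => uu (UU v) h dg J t w) (fun J => ul (UU v) h dg J t w)) ^ 2) ≤
    2 * (MA h v p p' a T - MA h v p p' a 0 + ∑ t ∈ range T, (killD h v p p' a a' t + lossA h v p p' a' t +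
        killA h prr v p p' a a' t) + ∑ t ∈ range T, corA h dg v p p' a t (g t) (g' t)) := by
  have one : ∀ t ∈ range T, (D.P h t).E (fun w => ind (G t w) * (bp v p h dg t w -
      ex (bp v p' h dg t w) (univ.filter fun J => p J ∧ ¬ p' J)
      (fun J => uu (UU v) h dg J t w) (fun J => ul (UU v) h dg J t w)) ^ 2) ≤
      2 * ((MA h v p p' a (t + 1) - MA h v p p' a t) + (killD h v p p' a a' t + lossA h v p p' a' t +
        killA h prr v p p' a a' t) + corA h dg v p p' a t (g t) (g' t)) := by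
    intro t ht
    have htT := Finset.mem_range.1 ht
    have hD : ∀ w, (D.P h t).p w ≠ 0 →
        (fun w : Pt K X β φ => dg t w.1) w = 1 ∨ (fun w : Pt K X β φ => dg t w.1) w = -1 :=
      fun w _ => H.dg_val t w.1
    have hD1 : ∀ w, (D.P h t).p w ≠ 0 → |(fun w : Pt K X β φ => dg t w.1) w| ≤ 1 := fun w hw => by
      rcases hD w hw with h1 | h1 <;> rw [h1] <;> norm_num
    have k1 := level_genA (D.P h t) (A := fun w => (all (LP p (LL (Um v (t + 1)))) w, WW D t w))
      (D := fun w => dg t w.1) hD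
      (S := univ.filter fun J => p J ∧ ¬ p' J) (n := bp v p' h dg t) (u := fun J => uu (UU v) h dg J t)
      (u' := fun J => ul (UU v) h dg J t) (g := g t) (g' := g' t) (fac_bp h hsub t)
      (fun J hJ => fac_uu h hp (Finset.mem_filter.1 hJ).2.1 t)
      (fun J hJ => fac_ul h hp hu (Finset.mem_filter.1 hJ).2.1 t) (fg t htT) (fg' t htT)
      (fun w _ => (D.P h t).abs_ce_le_one hD1 _ w) (fun w _ _ _ => (D.P h t).abs_ce_le_one hD1 _ w)
      (fun w _ _ _ => (D.P h t).abs_ce_le_one hD1 _ w) (fun w hw => (D.P h t).digit_pos hD _ hw)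
      (fun w hw _ _ => (D.P h t).digit_pos hD _ hw) (fun w hw _ _ => (D.P h t).digit_pos hD _ hw)
      (a := a t) (G := G t) (fa t htT) (hGa t htT) (hg t htT)
    have k2 := MA_step h (a := a) H hv hp hsub hu hl fa' htT
    have k3 : corA h dg v p p' a t (g t) (g' t) =
        (D.P h t).E (fun w => ind (a t w) * if dg t w.1 = 1 then g t w else g' t w) +
        (D.P h t).E (fun w => ind (a t w) * (Rp (bp v p' h dg t w) (univ.filter fun J => p J ∧ ¬ p' J)
            (fun J => uu (UU v) h dg J t w) (fun J => ul (UU v) h dg J t w) / 2 * Real.exp (-g t w) +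
          Rm (bp v p' h dg t w) (univ.filter fun J => p J ∧ ¬ p' J)
            (fun J => uu (UU v) h dg J t w) (fun J => ul (UU v) h dg J t w) / 2 * Real.exp (-g' t w) - 1)) := rfl
    have k4 : (D.P h t).E (fun w => ind (a t w) * (Real.log (1 + dg t w.1 *
          (D.P h t).ce (fun w => (all (LP p (LL (Um v (t + 1)))) w, WW D t w)) (fun w => dg t w.1) w) -
        Real.log (1 + dg t w.1 * bp v p' h dg t w) -
        ∑ J ∈ univ.filter (fun J => p J ∧ ¬ p' J), (Real.log (1 + dg t w.1 * uu (UU v) h dg J t w) -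
          Real.log (1 + dg t w.1 * ul (UU v) h dg J t w)))) =
        (D.P h t).E (fun w => ind (a t w) * (Real.log (1 + dg t w.1 * bp v p h dg t w) -
      Real.log (1 + dg t w.1 * bp v p' h dg t w) -
        ∑ J ∈ univ.filter (fun J => p J ∧ ¬ p' J), (Real.log (1 + dg t w.1 * uu (UU v) h dg J t w) -
          Real.log (1 + dg t w.1 * ul (UU v) h dg J t w)))) := rfl
    rw [k3]
    refine k1.trans ?_
    rw [k4]
    linarith
  have h1 := Finset.sum_le_sum one
  rw [← Finset.mul_sum, Finset.sum_add_distrib, Finset.sum_add_distrib,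
    Finset.sum_range_sub (fun t => MA h v p p' a t)] at h1
  exact h1

/-- the whole balance: potential at the end, kills, losses, corrections -/
noncomputable def balA (prr : ℕ → K → φ → φ) (v : ℕ → Finset K → X → (K → β) → υ) (p p' : Finset K → Prop)
    [DecidablePred p] [DecidablePred p'] (dg : ℕ → X → ℝ) (T : ℕ) (a a' : ℕ → Pt K X β φ → Prop)
    (g g' : ℕ → Pt K X β φ → ℝ) : ℝ :=
  MA h v p p' a T - MA h v p p' a 0 + ∑ t ∈ range T, (killD h v p p' a a' t + lossA h v p p' a' t +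
    killA h prr v p p' a a' t) + ∑ t ∈ range T, corA h dg v p p' a t (g t) (g' t)

/-- the potential at the start is not negative if the alive set is a function of the labels of `p'` -/
theorem MA_nonneg (hp : ∀ I J : Finset K, I ⊆ J → p J → p I) {a : ℕ → Pt K X β φ → Prop} (t : ℕ)
    (fa : Fac (fun w => (all (LP p' (LL (Um v (t + 1)))) w, WW D t w)) (a t)) : 0 ≤ MA h v p p' a t :=
  iR_ev_nonneg (D.P h t) p p' hp _ _ fa

/-- killed by the digit: not negative if the killed set is an event of the labels of `p'` -/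
theorem killD_nonneg (hp : ∀ I J : Finset K, I ⊆ J → p J → p I) {a a' : ℕ → Pt K X β φ → Prop} (t : ℕ)
    (fa : Fac (fun w => (all (LP p' (LL (Um v (t + 1)))) w, WW D (t + 1) w)) (a t))
    (fa' : Fac (fun w => (all (LP p' (LL (Um v (t + 1)))) w, WW D (t + 1) w)) (a' t))
    (hs : ∀ w, a' t w → a t w) : 0 ≤ killD h v p p' a a' t := by
  have h1 := iR_ev_nonneg (D.P h t) p p' hp (LL (Um v (t + 1))) (WW D (t + 1)) (S := fun w => a t w ∧ ¬ a' t w)
    (fun x y hxy => by
      show (a t x ∧ ¬ a' t x) = (a t y ∧ ¬ a' t y)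
      rw [fa x y hxy, fa' x y hxy])
  refine h1.trans (le_of_eq ?_)
  unfold killD
  refine (D.P h t).E_congr fun w _ => ?_
  congr 1
  by_cases h2 : a' t w
  · rw [ind_of h2, ind_of (hs w h2), ind_not (fun hh => hh.2 h2), sub_self]
  · rw [ind_not h2, sub_zero]
    by_cases h3 : a t w
    · rw [ind_of h3, ind_of ⟨h3, h2⟩]
    · rw [ind_not h3, ind_not (fun hh => h3 hh.1)]

/-- killed by the additions: not negative if the killed set is an event of the labels of `p'` -/
theorem killA_nonneg (hp : ∀ I J : Finset K, I ⊆ J → p J → p I) {a a' : ℕ → Pt K X β φ → Prop} (t : ℕ)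
    (fa : Fac (fun w => (all (LP p' (LL (Um v (t + 2)))) w, WW D (t + 1) w)) (a (t + 1)))
    (fa' : Fac (fun w => (all (LP p' (LL (Um v (t + 2)))) w, WW D (t + 1) w)) (fun w => a' t (old prr t w)))
    (hs : ∀ w, a (t + 1) w → a' t (old prr t w)) : 0 ≤ killA h prr v p p' a a' t := by
  have h1 := iR_ev_nonneg (D.P h (t + 1)) p p' hp (LL (Um v (t + 2))) (WW D (t + 1))
    (S := fun w => a' t (old prr t w) ∧ ¬ a (t + 1) w)
    (fun x y hxy => by
      show (a' t (old prr t x) ∧ ¬ a (t + 1) x) = (a' t (old prr t y) ∧ ¬ a (t + 1) y)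
      exact congrArg₂ And (fa' x y hxy) (by rw [fa x y hxy]))
  refine h1.trans (le_of_eq ?_)
  unfold killA
  refine (D.P h (t + 1)).E_congr fun w _ => ?_
  congr 1
  by_cases h2 : a (t + 1) w
  · rw [ind_of h2, ind_of (hs w h2), ind_not (fun hh => hh.2 h2), sub_self]
  · rw [ind_not h2, sub_zero]
    by_cases h3 : a' t (old prr t w)
    · rw [ind_of h3, ind_of ⟨h3, h2⟩]
    · rw [ind_not h3, ind_not (fun hh => h3 hh.1)]

/-- the synergy over the class on alive points -/
theorem conGA0 (hK1 : ∀ l : K, univ.erase l ≠ ∅) (h0 : p ∅) (H : D.Hyp dg prr al T Lam) (hv : Codes D v)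
    (hp : ∀ I J : Finset K, I ⊆ J → p J → p I) (hu : ¬ p univ) {a a' G : ℕ → Pt K X β φ → Prop}
    (fa : ∀ t < T, Fac (fun w => (all (LP p (LL (Um v (t + 1)))) w, WW D t w)) (a t))
    (fa' : ∀ t < T, Fac (fun w => (all (LP p (LL (Um v (t + 1)))) w, WW D (t + 1) w)) (a' t))
    (hGa : ∀ t < T, ∀ w, (D.P h t).p w ≠ 0 → G t w → a t w) {g g' : ℕ → Pt K X β φ → ℝ}
    (fg : ∀ t < T, Fac (fun w => (all (LP p (LL (Um v (t + 1)))) w, WW D t w)) (g t))
    (fg' : ∀ t < T, Fac (fun w => (all (LP p (LL (Um v (t + 1)))) w, WW D t w)) (g' t))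
    (hg : ∀ t < T, ∀ w, (D.P h t).p w ≠ 0 → G t w → g t w = 0 ∧ g' t w = 0) :
    ∑ t ∈ range T, (D.P h t).E (fun w => ind (G t w) * (bp v p h dg t w -
      ex (mm (UU v) h dg t w) (univ.filter fun J => p J ∧ J ≠ ∅)
      (fun J => uu (UU v) h dg J t w) (fun J => ul (UU v) h dg J t w)) ^ 2) ≤
    2 * balA h prr v p pcl dg T a a' g g' := by
  have h1 := conGA h (p' := pcl) H hv hp (fun J (hJ : J = ∅) => by rw [hJ]; exact h0) hu hK1 fa fa' hGa fg fg' hg
  refine le_trans (le_of_eq ?_) h1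
  refine Finset.sum_congr rfl fun t _ => (D.P h t).E_congr fun w hw => ?_
  rw [bp_class h H hv hw]
  rfl

/-- **THE SYNERGY FOR THREE KNOWN VERTICES ON ALIVE POINTS** : alive sets `aT` (all over thin), `aV` (thin over the class),
`aj j` (pairs over the class) -/
theorem con3A (hK : Fintype.card K = 3) (H : D.Hyp dg prr al T Lam) (hv : Codes D v) {G : ℕ → Pt K X β φ → Prop}
    (Gl : ∀ t < T, ∀ w, G t w → ∀ J ∈ SS K, |ul (UU v) h dg J t w| ≤ 1 / 2)
    {aT aT' aV aV' : ℕ → Pt K X β φ → Prop} {aj aj' : K → ℕ → Pt K X β φ → Prop}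
    {gT gT' gV gV' : ℕ → Pt K X β φ → ℝ} {gj gj' : K → ℕ → Pt K X β φ → ℝ}
    (faT : ∀ t < T, Fac (fun w => (all (LP (fun J => J ≠ univ) (LL (Um v (t + 1)))) w, WW D t w)) (aT t))
    (faT' : ∀ t < T, Fac (fun w => (all (LP (fun J => J ≠ univ) (LL (Um v (t + 1)))) w, WW D (t + 1) w)) (aT' t))
    (hGT : ∀ t < T, ∀ w, (D.P h t).p w ≠ 0 → G t w → aT t w)
    (faV : ∀ t < T, Fac (fun w => (all (LP pth (LL (Um v (t + 1)))) w, WW D t w)) (aV t))
    (faV' : ∀ t < T, Fac (fun w => (all (LP pth (LL (Um v (t + 1)))) w, WW D (t + 1) w)) (aV' t))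
    (hGV : ∀ t < T, ∀ w, (D.P h t).p w ≠ 0 → G t w → aV t w)
    (faj : ∀ j, ∀ t < T, Fac (fun w => (all (LP (pj j) (LL (Um v (t + 1)))) w, WW D t w)) (aj j t))
    (faj' : ∀ j, ∀ t < T, Fac (fun w => (all (LP (pj j) (LL (Um v (t + 1)))) w, WW D (t + 1) w)) (aj' j t))
    (hGj : ∀ j, ∀ t < T, ∀ w, (D.P h t).p w ≠ 0 → G t w → aj j t w)
    (fT : ∀ t < T, Fac (eA D (UU v) t) (gT t)) (fT' : ∀ t < T, Fac (eA D (UU v) t) (gT' t))
    (hT : ∀ t < T, ∀ w, (D.P h t).p w ≠ 0 → G t w → gT t w = 0 ∧ gT' t w = 0)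
    (fV : ∀ t < T, Fac (fun w => (all (LP pth (LL (Um v (t + 1)))) w, WW D t w)) (gV t))
    (fV' : ∀ t < T, Fac (fun w => (all (LP pth (LL (Um v (t + 1)))) w, WW D t w)) (gV' t))
    (hV : ∀ t < T, ∀ w, (D.P h t).p w ≠ 0 → G t w → gV t w = 0 ∧ gV' t w = 0)
    (fj : ∀ j, ∀ t < T, Fac (fun w => (all (LP (pj j) (LL (Um v (t + 1)))) w, WW D t w)) (gj j t))
    (fj' : ∀ j, ∀ t < T, Fac (fun w => (all (LP (pj j) (LL (Um v (t + 1)))) w, WW D t w)) (gj' j t))
    (hj : ∀ j, ∀ t < T, ∀ w, (D.P h t).p w ≠ 0 → G t w → gj j t w = 0 ∧ gj' j t w = 0) :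
    ∑ t ∈ range T, (D.P h t).E (fun w => ind (G t w) *
      (ua (UU v) h dg t w - exf (SS K) (mm (UU v) h dg) (uu (UU v) h dg) (ul (UU v) h dg) t w) ^ 2) ≤
    4 * balA h prr v (fun J => J ≠ univ) pth dg T aT aT' gT gT' +
      18496 * (balA h prr v pth pcl dg T aV aV' gV gV' +
        ∑ j, balA h prr v (pj j) pcl dg T (aj j) (aj' j) (gj j) (gj' j)) := by
  classical
  have hA : ∀ t, Fac (fun w : Pt K X β φ => (all (LP (fun J => J ≠ univ) (LL (Um v (t + 1)))) w, WW D t w))
      (eA D (UU v) t) := by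
    intro t a b hab
    rw [eA_eq]
    simp only [Prod.mk.injEq] at hab
    exact hab
  have h1 := conGA h (p := fun J => J ≠ univ) (p' := pth) H hv down_ne (pth_sub hK)
    (fun hh => hh rfl) (pth_er hK) (G := G) faT faT' hGT (fun t ht => (hA t).trans (fT t ht))
    (fun t ht => (hA t).trans (fT' t ht)) hT
  have h2 := conGA0 h (p := pth) (er_ne hK) pth0 H hv pth_down (fun hh => pth_sub hK _ hh rfl) (G := G) faV faV' hGV
    fV fV' hV
  have h3 := fun j => conGA0 h (p := pj j) (er_ne hK) (pj0 hK j) H hv (pj_down j) (pj_u hK j) (G := G)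
    (faj j) (faj' j) (hGj j) (fj j) (fj' j) (hj j)
  have hSS : ∀ i : K, ({i} : Finset K) ∈ SS K := fun i =>
    Finset.mem_filter.2 ⟨mem_univ _, Finset.singleton_nonempty i, one_ne hK i⟩
  have hSS' : ∀ j : K, (univ.erase j : Finset K) ∈ SS K := fun j =>
    Finset.mem_filter.2 ⟨mem_univ _, Finset.nonempty_iff_ne_empty.2 (er_ne hK j), ne_univ j⟩
  have hD : ∀ t, ∀ w, (D.P h t).p w ≠ 0 → (fun w : Pt K X β φ => dg t w.1) w = 1 ∨ (fun w : Pt K X β φ => dg t w.1) w = -1 :=
    fun t w _ => H.dg_val t w.1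
  have hD1 : ∀ t, ∀ w, (D.P h t).p w ≠ 0 → |(fun w : Pt K X β φ => dg t w.1) w| ≤ 1 := fun t w hw => by
    rcases hD t w hw with h1 | h1 <;> rw [h1] <;> norm_num
  have hKn : Nonempty K := Fintype.card_pos_iff.1 (by rw [hK]; omega)
  obtain ⟨i0⟩ := hKn
  -- one level
  have key : ∀ t ∈ range T, (D.P h t).E (fun w => ind (G t w) *
      (ua (UU v) h dg t w - exf (SS K) (mm (UU v) h dg) (uu (UU v) h dg) (ul (UU v) h dg) t w) ^ 2) ≤
      2 * (D.P h t).E (fun w => ind (G t w) * (bp v (fun J => J ≠ univ) h dg t w -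
        ex (bp v pth h dg t w) (univ.filter fun J => J ≠ univ ∧ ¬ pth J)
          (fun J => uu (UU v) h dg J t w) (fun J => ul (UU v) h dg J t w)) ^ 2) +
      9248 * ((D.P h t).E (fun w => ind (G t w) * (bp v pth h dg t w -
        ex (mm (UU v) h dg t w) (univ.filter fun J => pth J ∧ J ≠ ∅)
          (fun J => uu (UU v) h dg J t w) (fun J => ul (UU v) h dg J t w)) ^ 2) +
        ∑ j, (D.P h t).E (fun w => ind (G t w) * (bp v (pj j) h dg t w -
          ex (mm (UU v) h dg t w) (univ.filter fun J => pj j J ∧ J ≠ ∅)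
            (fun J => uu (UU v) h dg J t w) (fun J => ul (UU v) h dg J t w)) ^ 2)) := by
    intro t ht
    have htT := Finset.mem_range.1 ht
    set G' : Pt K X β φ → Prop := fun w => G t w ∧ (D.P h t).p w ≠ 0 with hG'
    have hGG : ∀ w, (D.P h t).p w ≠ 0 → (G' w ↔ G t w) := fun w hw => ⟨fun hh => hh.1, fun hh => ⟨hh, hw⟩⟩
    have k := dig3 (D.P h t) hK (D := fun w => dg t w.1) (m := mm (UU v) h dg t) (n := bp v pth h dg t)
      (b := ua (UU v) h dg t)
      (ex2 := fun w => mn ((1 + bp v pth h dg t w) *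
          ∏ j, (1 + uu (UU v) h dg (univ.erase j) t w) / (1 + ul (UU v) h dg (univ.erase j) t w))
        ((1 - bp v pth h dg t w) *
          ∏ j, (1 - uu (UU v) h dg (univ.erase j) t w) / (1 - ul (UU v) h dg (univ.erase j) t w)))
      (q := fun w => mn ((1 + mm (UU v) h dg t w) * ∏ i, (1 + uu (UU v) h dg {i} t w) / (1 + mm (UU v) h dg t w))
        ((1 - mm (UU v) h dg t w) * ∏ i, (1 - uu (UU v) h dg {i} t w) / (1 - mm (UU v) h dg t w)))
      (u1 := fun i => uu (UU v) h dg {i} t) (U := fun j => uu (UU v) h dg (univ.erase j) t)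
      (v := fun j => ul (UU v) h dg (univ.erase j) t)
      (qj := fun j w => mn ((1 + mm (UU v) h dg t w) *
          ∏ i ∈ univ.erase j, (1 + uu (UU v) h dg {i} t w) / (1 + mm (UU v) h dg t w))
        ((1 - mm (UU v) h dg t w) * ∏ i ∈ univ.erase j, (1 - uu (UU v) h dg {i} t w) / (1 - mm (UU v) h dg t w)))
      (hD t) (G := G')
      (fun w hw => by rw [← ul_one h hK H hv i0 hw.2]; exact Gl t htT w hw.1 _ (hSS i0))
      (fun w hw j => Gl t htT w hw.1 _ (hSS' j))
      (fun w _ => (D.P h t).abs_ce_le_one (hD1 t) _ w) (fun w _ _ => (D.P h t).abs_ce_le_one (hD1 t) _ w)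
      (fun w _ _ => (D.P h t).abs_ce_le_one (hD1 t) _ w) (fun w hw => (D.P h t).digit_pos (hD t) _ hw)
      (fun w hw _ => (D.P h t).digit_pos (hD t) _ hw) (fun w hw _ => (D.P h t).digit_pos (hD t) _ hw)
      (fun _ => rfl) (fun _ _ => rfl) (fun _ => rfl) le_rfl le_rfl (fun _ => le_rfl)
    refine le_trans (le_of_eq ?_) (k.trans (le_of_eq ?_))
    · refine (D.P h t).E_congr fun w hw => ?_
      rw [ind_cg (hGG w hw)]
      congr 3
      show ex (mm (UU v) h dg t w) (univ.filter fun J : Finset K => J.Nonempty ∧ J ≠ univ)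
        (fun J => uu (UU v) h dg J t w) (fun J => ul (UU v) h dg J t w) = _
      rw [ex_SS3 hK]
      simp only [ul_one h hK H hv _ hw]
    · congr 1
      · congr 1
        refine (D.P h t).E_congr fun w hw => ?_
        have e0 : ua (UU v) h dg t w = bp v (fun J => J ≠ univ) h dg t w := ua_ba h v w
        rw [ind_cg (hGG w hw), e0]
        congr 3
        unfold ex mn Rp Rm
        rw [prod_tp hK, prod_tp hK]
      · congr 1
        congr 1
        · refine (D.P h t).E_congr fun w hw => ?_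
          rw [ind_cg (hGG w hw)]
          congr 3
          unfold ex mn Rp Rm
          rw [prod_th, prod_th]
          simp only [ul_one h hK H hv _ hw]
        · refine Finset.sum_congr rfl fun j _ => (D.P h t).E_congr fun w hw => ?_
          rw [ind_cg (hGG w hw), bp_pj h H hv j hw]
          congr 3
          unfold ex mn Rp Rm
          rw [prod_pj hK, prod_pj hK]
          simp only [ul_one h hK H hv _ hw]
  have hsum := Finset.sum_le_sum key
  rw [Finset.sum_add_distrib, ← Finset.mul_sum, ← Finset.mul_sum, Finset.sum_add_distrib, Finset.sum_comm] at hsum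
  have h4 := Finset.sum_le_sum fun j (_ : j ∈ (univ : Finset K)) => h3 j
  rw [← Finset.mul_sum] at h4
  have h5 : 2 * (MA h v (fun J => J ≠ univ) pth aT T - MA h v (fun J => J ≠ univ) pth aT 0 +
      ∑ t ∈ range T, (killD h v (fun J => J ≠ univ) pth aT aT' t + lossA h v (fun J => J ≠ univ) pth aT' t +
        killA h prr v (fun J => J ≠ univ) pth aT aT' t) +
      ∑ t ∈ range T, corA h dg v (fun J => J ≠ univ) pth aT t (gT t) (gT' t)) =
      2 * balA h prr v (fun J => J ≠ univ) pth dg T aT aT' gT gT' := rfl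
  rw [h5] at h1
  linarith

end proc

end Pool.Agent.GMH
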