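import Pool.Agent.GMH.StmtA
import Pool.Agent.GMH.Dead

/-!
# GMH.DeadY: surprisals of one thin letter and of a pair of thin letters (helper21)

`dead_one`, `dead_pair` of the list of `GMH/DeadA` (helper91): the probability that the surprisal of a thin letter (of a pair)
passes `X0` (`X1`) at some half step `q ≤ 2 T`.  Abstract lemma `Dead.sq_max`; the laws of all times agree on functions of
the points (`Dead.Hc_time`), the entropies of the private steps are the costs (`Dead.cst_eq`).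
-/

set_option autoImplicit false
set_option linter.unusedSectionVars false

namespace Pool.Agent.GMH.V3

open Finset Pool.Agent.PWZ Pool.Agent.M3 Pool.Agent.GM Pool.Agent.GM.Harm Pool.Agent.GMH Pool.Agent.GMH.NZ
open Pool.Agent.GMH.Dead (sq_max Dry E_time m_time Pr_time H_time Hc_time Thin thin_one cst_eq)

variable {X β γ φ υ : Type} [Fintype X] [Fintype β] [Fintype φ] [Nonempty X] [Nonempty β]
variable {D : HD (Fin 3) X β γ φ} {al : ℝ} (h : D.Thick al) {v : ℕ → Finset (Fin 3) → X → (Fin 3 → β) → υ}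
variable {dg : ℕ → X → ℝ} {prr : ℕ → Fin 3 → φ → φ} {T : ℕ} {Lam : ℝ}

/-! ### labels of singletons -/

theorem LL_one {s : ℕ} {i : Fin 3} {a b : Pt (Fin 3) X β φ} :
    LL (Um v s) {i} a = LL (Um v s) {i} b ↔ Um v s {i} a.1 a.2.1 = Um v s {i} b.1 b.2.1 := by
  rw [LL_eq]
  exact ⟨fun hh => hh.1, fun hh => ⟨hh, fun l hl => absurd (hl ▸ Finset.Subset.refl _) (thin_one rfl i l)⟩⟩

theorem lo_one {s : ℕ} {i : Fin 3} {a b : Pt (Fin 3) X β φ} :
    lo (LL (Um v s)) {i} a = lo (LL (Um v s)) {i} b ↔ Um v s ∅ a.1 a.2.1 = Um v s ∅ b.1 b.2.1 := by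
  rw [lo_eq]
  constructor
  · intro hh
    exact (LL_eq.1 (hh ∅ (by rw [Finset.ssubset_singleton_iff]))).1
  · intro hh I hI
    rw [Finset.ssubset_singleton_iff] at hI
    subst hI
    rw [LL_eq]
    refine ⟨hh, fun l hl => ?_⟩
    exact absurd (by rw [hl]; exact Finset.empty_subset _) (thin_one rfl i l)

theorem BB_one {n : ℕ} {i : Fin 3} {a b : Pt (Fin 3) X β φ} :
    BB D n {i} a = BB D n {i} b ↔ a.2.1 i = b.2.1 i ∧ nd D n a = nd D n b := by
  rw [BB_yJ, yJ_eq]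
  simp only [Finset.mem_singleton, forall_eq]

/-- the cost at `{i}` in terms of the letters -/
theorem cst_one (t : ℕ) (i : Fin 3) : cst h v t {i} =
    (D.P h t).Hc (XL v (t + 1) i) (fun u => (XL v t i u, u.2.1 i, NP D v (t + 1) t u)) := by
  rw [cst_eq]
  refine (D.P h t).Hc_congr ?_ ?_ ?_ ?_
  · intro a b hab
    simp only [Prod.mk.injEq] at hab
    exact Prod.ext (BB_one.1 hab.2.2.2).1 (LL_one.1 hab.1)
  · intro a b hab
    simp only [Prod.mk.injEq] at hab ⊢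
    have h1 := BB_one.1 hab.2.2
    exact ⟨Prod.ext h1.1 (LL_one.1 (le_eq'.1 hab.1).1), h1.1, Prod.ext (lo_one.1 hab.2.1) h1.2⟩
  · intro a b hab
    have h1 : XL v (t + 1) i a = XL v (t + 1) i b := (Prod.mk.inj hab).1
    exact LL_one.2 (congrArg Prod.snd h1)
  · intro a b hab
    simp only [Prod.mk.injEq] at hab ⊢
    have h1 : Um v t {i} a.1 a.2.1 = Um v t {i} b.1 b.2.1 := congrArg Prod.snd hab.1
    have h2 : Um v (t + 1) ∅ a.1 a.2.1 = Um v (t + 1) ∅ b.1 b.2.1 := congrArg Prod.fst hab.2.2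
    have h3 : nd D t a = nd D t b := congrArg Prod.snd hab.2.2
    exact ⟨le_eq'.2 ⟨LL_one.2 h1, lo_one.2 (Um_older (Nat.le_succ t) h2)⟩, lo_one.2 h2, BB_one.2 ⟨hab.2.1, h3⟩⟩

/-! ### points only -/

theorem dry_XLr (q : ℕ) (i : Fin 3) : Dry (φ := φ) (XLr v q i) := fun a b h1 h2 =>
  Prod.ext (congrFun h2 i) (by
    show Um v (tm q + 1) {i} a.1 a.2.1 = Um v (tm q + 1) {i} b.1 b.2.1
    rw [h1, h2])

theorem dry_NPr (q : ℕ) : Dry (φ := φ) (NPr v D q) := fun a b h1 h2 => by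
  show (Um v (tm q + 1) ∅ a.1 a.2.1, (D.qa (nt q) a.1, fun j => D.qb (nt q) (a.2.1 j))) =
    (Um v (tm q + 1) ∅ b.1 b.2.1, (D.qa (nt q) b.1, fun j => D.qb (nt q) (b.2.1 j)))
  rw [h1, h2]

theorem dry_pt (i : Fin 3) : Dry (fun u : Pt (Fin 3) X β φ => u.2.1 i) := fun _ _ _ h2 => congrFun h2 i

theorem sp_sq {Om κ ι : Type*} [Fintype Om] (P : FP Om) (F : Om → κ) (Z : Om → ι) {w : Om} (hw : P.p w ≠ 0) :
    sp P F Z w = Dead.sq P F Z w := by
  unfold sp Dead.sq
  rw [Real.log_div (P.m_pos _ hw).ne' (P.m_pos _ hw).ne']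

theorem sp_eq_of_m {Om κ ι : Type*} [Fintype Om] {P Q : FP Om} {F : Om → κ} {Z : Om → ι} {w : Om}
    (h1 : P.m Z w = Q.m Z w) (h2 : P.m (fun u => (F u, Z u)) w = Q.m (fun u => (F u, Z u)) w) :
    sp P F Z w = sp Q F Z w := by
  unfold sp
  rw [h1, h2]

theorem sp_time {κ ι : Type*} {F : Pt (Fin 3) X β φ → κ} {Z : Pt (Fin 3) X β φ → ι} (hF : Dry F) (hZ : Dry Z) (s t : ℕ)
    (w : Pt (Fin 3) X β φ) : sp (D.P h s) F Z w = sp (D.P h t) F Z w :=
  sp_eq_of_m (m_time h hZ s t w) (m_time h (hF.prod hZ) s t w)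

theorem Hc_of_fac {Om κ ι : Type*} [Fintype Om] (P : FP Om) {F : Om → κ} {Z : Om → ι} (hF : Fac Z F) : P.Hc F Z = 0 := by
  refine le_antisymm ?_ (P.Hc_nonneg _ _)
  have h1 : P.Hc F Z ≤ P.Hc (fun _ => ()) Z := P.Hc_mono Z fun a b hab => hF a b (Prod.mk.inj hab).2
  have h2 := P.Hc_le_H (fun _ => ()) Z
  rw [FP.H_const] at h2
  exact h1.trans h2

theorem Hc_pair_le {Om κ κ' ι ι' ι'' : Type*} [Fintype Om] (P : FP Om) {F : Om → κ} {G : Om → κ'} {Z : Om → ι}
    {Z1 : Om → ι'} {Z2 : Om → ι''} (h1 : Fac Z Z1) (h2 : Fac Z Z2) :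
    P.Hc (fun w => (F w, G w)) Z ≤ P.Hc F Z1 + P.Hc G Z2 := by
  have e := P.Hc_chain F G Z
  have a1 := P.Hc_anti G h2
  have a2 := P.Hc_anti F (Y := fun w => (G w, Z w)) ((Fac.snd _ _).trans h1)
  linarith

/-- the letters of a set of vertices: private entropies of the half steps -/
theorem sum_half {f : ℕ → ℝ} {c : ℕ → ℝ} (h0 : ∀ t, f (2 * t) ≤ 0) (h1 : ∀ t, f (2 * t + 1) ≤ c (t + 1)) (T : ℕ) :
    c 0 + ∑ k ∈ range (2 * T), f k ≤ ∑ t ∈ range (T + 1), c t := by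
  rw [Finset.sum_range_succ' _ T, add_comm]
  refine add_le_add ?_ le_rfl
  induction T with
  | zero => simp
  | succ T ih =>
    rw [show 2 * (T + 1) = 2 * T + 1 + 1 by ring, Finset.sum_range_succ, Finset.sum_range_succ, Finset.sum_range_succ]
    have := h0 T
    have := h1 T
    linarith

/-- one letter at the step from the half step `2 t + 1` to the half step `2 t + 2` -/
theorem step_one (R t : ℕ) (i : Fin 3) :
    (D.P h R).Hc (XLr v (2 * t + 1 + 1) i) (fun w => (XLr v (2 * t + 1) i w, w.2.1 i, NPr v D (2 * t + 1 + 1) w)) =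
      cst h v (t + 1) {i} := by
  rw [Hc_time h (dry_XLr _ i) ((dry_XLr _ i).prod ((dry_pt i).prod (dry_NPr _))) R (t + 1), cst_one]
  rw [show 2 * t + 1 + 1 = 2 * (t + 1) by ring, XLr_even, XLr_odd, NPr_even]

theorem start_one (R : ℕ) (i : Fin 3) :
    (D.P h R).Hc (XLr v 0 i) (fun w => (w.2.1 i, NPr v D 0 w)) = cst h v 0 {i} := by
  rw [Hc_time h (dry_XLr _ i) ((dry_pt i).prod (dry_NPr _)) R 0, cst_one]
  have e1 : XLr (φ := φ) v 0 i = XL v (0 + 1) i := XLr_even 0 i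
  have e2 : NPr (φ := φ) v D 0 = NP D v (0 + 1) 0 := NPr_even 0
  rw [e1, e2]
  refine (D.P h 0).Hc_congr_right _ ?_ (Fac.snd _ _)
  intro a b hab
  refine Prod.ext (Prod.ext (Prod.mk.inj hab).1 rfl) hab

/-- **(Y1)** one letter, law of any time `R` -/
theorem dead_one_cst (R : ℕ) (i : Fin 3) {X0 : ℝ} (hX : 0 < X0) :
    (D.P h R).Pr (fun w => ∃ q ≤ 2 * T, X0 < sps h v q i w) ≤
      Real.exp (-(X0 / 2)) + 2 * (∑ t ∈ range (T + 1), cst h v t {i}) / X0 := by
  have h1 := sq_max (D.P h R) (L := fun q => XLr v q i) (U := fun q u => (u.2.1 i, NPr v D q u))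
    (fun q a b hab => by
      simp only [Prod.mk.injEq] at hab ⊢
      exact ⟨hab.1, NPr_older (Nat.le_succ q) hab.2⟩)
    (fun q a b hab => by
      simp only [Prod.mk.injEq] at hab
      exact XLr_older (Nat.le_succ q) hab.1) (2 * T) hX
  have h2 : (D.P h R).Pr (fun w => ∃ q ≤ 2 * T, X0 < sps h v q i w) ≤
      (D.P h R).Pr (fun w => ∃ q ≤ 2 * T, X0 < Dead.sq (D.P h R) (XLr v q i) (fun u => (u.2.1 i, NPr v D q u)) w) := by
    refine (D.P h R).Pr_mono ?_
    rintro w hw ⟨q, hq, hlt⟩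
    refine ⟨q, hq, ?_⟩
    rw [← sp_sq _ _ _ hw]
    have e : sps h v q i w = sp (D.P h R) (XLr v q i) (fun u => (u.2.1 i, NPr v D q u)) w :=
      sp_time h (dry_XLr q i) ((dry_pt i).prod (dry_NPr q)) (tm q) R w
    rw [← e]
    exact hlt
  refine (h2.trans h1).trans (add_le_add le_rfl (div_le_div_of_nonneg_right ?_ hX.le))
  refine mul_le_mul_of_nonneg_left ?_ (by norm_num)
  rw [start_one h R i]
  refine sum_half (f := fun k => (D.P h R).Hc (XLr v (k + 1) i) (fun w => (XLr v k i w, w.2.1 i, NPr v D (k + 1) w)))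
    (c := fun t => cst h v t {i}) (fun t => ?_) (fun t => (step_one h R t i).le) T
  refine (Hc_of_fac _ ?_).le
  intro a b hab
  have h3 : XLr v (2 * t) i a = XLr v (2 * t) i b := congrArg Prod.fst hab
  rw [XLr_even] at h3
  rwa [XLr_odd]

/-- **(Y2)** a pair, law of any time `R` -/
theorem dead_pair_cst (R : ℕ) (i k : Fin 3) {X1 : ℝ} (hX : 0 < X1) :
    (D.P h R).Pr (fun w => ∃ q ≤ 2 * T, X1 < spp h v q i k w) ≤
      Real.exp (-(X1 / 2)) + 2 * (∑ t ∈ range (T + 1), (cst h v t {i} + cst h v t {k})) / X1 := by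
  have h1 := sq_max (D.P h R) (L := fun q u => (XLr v q i u, XLr v q k u))
    (U := fun q u => (u.2.1 i, u.2.1 k, NPr v D q u))
    (fun q a b hab => by
      simp only [Prod.mk.injEq] at hab ⊢
      exact ⟨hab.1, hab.2.1, NPr_older (Nat.le_succ q) hab.2.2⟩)
    (fun q a b hab => by
      simp only [Prod.mk.injEq] at hab ⊢
      exact ⟨XLr_older (Nat.le_succ q) hab.1.1, XLr_older (Nat.le_succ q) hab.1.2⟩) (2 * T) hX
  have h2 : (D.P h R).Pr (fun w => ∃ q ≤ 2 * T, X1 < spp h v q i k w) ≤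
      (D.P h R).Pr (fun w => ∃ q ≤ 2 * T, X1 < Dead.sq (D.P h R) (fun u => (XLr v q i u, XLr v q k u))
        (fun u => (u.2.1 i, u.2.1 k, NPr v D q u)) w) := by
    refine (D.P h R).Pr_mono ?_
    rintro w hw ⟨q, hq, hlt⟩
    refine ⟨q, hq, ?_⟩
    rw [← sp_sq _ _ _ hw]
    have e : spp h v q i k w = sp (D.P h R) (fun u => (XLr v q i u, XLr v q k u))
        (fun u => (u.2.1 i, u.2.1 k, NPr v D q u)) w :=
      sp_time h ((dry_XLr q i).prod (dry_XLr q k)) ((dry_pt i).prod ((dry_pt k).prod (dry_NPr q))) (tm q) R w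
    rw [← e]
    exact hlt
  refine (h2.trans h1).trans (add_le_add le_rfl (div_le_div_of_nonneg_right ?_ hX.le))
  refine mul_le_mul_of_nonneg_left ?_ (by norm_num)
  have h0 : (D.P h R).Hc (fun u => (XLr v 0 i u, XLr v 0 k u)) (fun u => (u.2.1 i, u.2.1 k, NPr v D 0 u)) ≤
      cst h v 0 {i} + cst h v 0 {k} := by
    rw [← start_one h R i, ← start_one h R k]
    refine Hc_pair_le _ ?_ ?_
    · intro a b hab
      simp only [Prod.mk.injEq] at hab ⊢
      exact ⟨hab.1, hab.2.2⟩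
    · intro a b hab
      simp only [Prod.mk.injEq] at hab ⊢
      exact ⟨hab.2.1, hab.2.2⟩
  refine (add_le_add h0 le_rfl).trans ?_
  refine sum_half (f := fun q => (D.P h R).Hc (fun u => (XLr v (q + 1) i u, XLr v (q + 1) k u))
    (fun u => ((XLr v q i u, XLr v q k u), u.2.1 i, u.2.1 k, NPr v D (q + 1) u)))
    (c := fun t => cst h v t {i} + cst h v t {k}) (fun t => ?_) (fun t => ?_) T
  · refine (Hc_of_fac _ ?_).le
    intro a b hab
    have h3 : (XLr v (2 * t) i a, XLr v (2 * t) k a) = (XLr v (2 * t) i b, XLr v (2 * t) k b) := congrArg Prod.fst hab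
    rw [XLr_even, XLr_even] at h3
    show (XLr v (2 * t + 1) i a, XLr v (2 * t + 1) k a) = (XLr v (2 * t + 1) i b, XLr v (2 * t + 1) k b)
    rwa [XLr_odd, XLr_odd]
  · rw [← step_one h R t i, ← step_one h R t k]
    refine Hc_pair_le _ ?_ ?_
    · intro a b hab
      simp only [Prod.mk.injEq] at hab ⊢
      exact ⟨hab.1.1, hab.2.1, hab.2.2.2⟩
    · intro a b hab
      simp only [Prod.mk.injEq] at hab ⊢
      exact ⟨hab.1.2, hab.2.2.1, hab.2.2.2⟩

theorem cst_tot (J : Finset (Fin 3)) : ∑ t ∈ range (T + 1), cst h v t J ≤ tot D h prr T v J := by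
  unfold tot
  refine le_add_of_nonneg_right (Finset.sum_nonneg fun l _ => add_nonneg (birth0_nonneg h l) ?_)
  exact Finset.sum_nonneg fun t _ => birth_nonneg h t l

/-- **(Y1)** surprisals of one thin letter: private costs (Markov) and public steps (Ville) -/
theorem dead_one (H : D.Hyp dg prr al T Lam) (hv : Codes D v) (i : Fin 3) {X0 : ℝ} (hX : 0 < X0) :
    (D.P h T).Pr (fun w => ∃ q ≤ 2 * T, X0 < sps h v q i w) ≤ 2 * tot D h prr T v {i} / X0 + Real.exp (-(X0 / 2)) := by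
  refine (dead_one_cst h T i hX).trans ?_
  rw [add_comm]
  refine add_le_add (div_le_div_of_nonneg_right ?_ hX.le) le_rfl
  exact mul_le_mul_of_nonneg_left (cst_tot h {i}) (by norm_num)

/-- **(Y2)** surprisals of a pair -/
theorem dead_pair (H : D.Hyp dg prr al T Lam) (hv : Codes D v) {i k : Fin 3} (hik : i ≠ k) {X1 : ℝ} (hX : 0 < X1) :
    (D.P h T).Pr (fun w => ∃ q ≤ 2 * T, X1 < spp h v q i k w) ≤
      2 * (tot D h prr T v {i} + tot D h prr T v {k}) / X1 + Real.exp (-(X1 / 2)) := by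
  refine (dead_pair_cst h T i k hX).trans ?_
  rw [add_comm, Finset.sum_add_distrib]
  refine add_le_add (div_le_div_of_nonneg_right ?_ hX.le) le_rfl
  exact mul_le_mul_of_nonneg_left (add_le_add (cst_tot h {i}) (cst_tot h {k})) (by norm_num)

end Pool.Agent.GMH.V3
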