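import Pool.Agent.M3.FPMart

/-!
# GMH/Gdy (helper63): greedy covers on a finite probability space with a filtration (notes 3454 (2), (3), 3554 (2))

`H r`, `r < M`, sets (rows of a sample), threshold `u / 2`.  At every time `s` the rows are handled in their order: row `r` is
TAKEN on the node if `P (H r - covered | node) >= u / 2`; then `H r` is covered on this node.
`Cv s r` = covered before the row `r` at the time `s`, `cov s` = covered before the time `s`, `tk s r` = taken,
`nw s r` = newly covered, `Nn s r` = newly covered by the row `r` before the time `s`,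
`Phi s = ∑ r, (P (newly covered by r | node s) - u/4)^+` after the time `s`.

* `cp_lt` : no row of the sample is dense outside the covered set;
* `taken_le` : expected number of takings `<= 2/u`;
* `cov_le` : `P (covered at the stopping time) <= 2 E Phi (stopping time)`;
* `bad_le` : iid rows: a fresh row is dense outside the covered set at some time with probability `<= 2 / (u (M+1))`.
-/

set_option autoImplicit false
set_option linter.unusedSectionVars false

namespace Pool.Agent.GMH.Gdy

open Finset Pool.Agent.PWZ Pool.Agent.M3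

noncomputable section

variable {Om : Type*} [Fintype Om] (P : FP Om) {κ : ℕ → Type*} (X : ∀ t, Om → κ t) (u : ℝ)

/-- conditional probability given the node of the time `s` -/
def cp (s : ℕ) (A : Om → Prop) (w : Om) : ℝ := P.ce (X s) (fun v => ind (A v)) w

/-- the set `A` is taken over the covered set `C` -/
def tk1 (s : ℕ) (C A : Om → Prop) (w : Om) : Prop := u / 2 ≤ cp P X s (fun v => A v ∧ ¬ C v) w

variable (H : ℕ → Om → Prop)

/-- the rows handled in their order -/
def pass (s : ℕ) (C : Om → Prop) : ℕ → Om → Prop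
  | 0 => C
  | r + 1 => fun w => pass s C r w ∨ (H r w ∧ tk1 P X u s (pass s C r) (H r) w)

variable (M : ℕ)

/-- covered before the time `s` -/
def cov : ℕ → Om → Prop
  | 0 => fun _ => False
  | s + 1 => pass P X u H s (cov s) M

/-- covered before the row `r` at the time `s` -/
def Cv (s r : ℕ) : Om → Prop := pass P X u H s (cov P X u H M s) r

/-- the row `r` is taken at the time `s` -/
def tk (s r : ℕ) : Om → Prop := tk1 P X u s (Cv P X u H M s r) (H r)

/-- newly covered by the row `r` at the time `s` -/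
def nw (s r : ℕ) (w : Om) : Prop := H r w ∧ ¬ Cv P X u H M s r w ∧ tk P X u H M s r w

/-- covered by the row `r` before the time `s` -/
def Nn (r : ℕ) : ℕ → Om → Prop
  | 0 => fun _ => False
  | s + 1 => fun w => Nn r s w ∨ nw P X u H M s r w

/-- the potential after the time `s` -/
def Phi (s : ℕ) (w : Om) : ℝ := ∑ r ∈ range M, max (cp P X s (Nn P X u H M r (s + 1)) w - u / 4) 0

/-- the potential before the rows are handled at the time `s` -/
def PhiO (s : ℕ) (w : Om) : ℝ := ∑ r ∈ range M, max (cp P X s (Nn P X u H M r s) w - u / 4) 0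

variable {P X u H M}

theorem ce_congr_on {ι : Type*} {Y : Om → ι} {f g : Om → ℝ} {w : Om}
    (h : ∀ v, P.p v ≠ 0 → Y v = Y w → f v = g v) : P.ce Y f w = P.ce Y g w := by
  unfold FP.ce
  congr 1
  refine P.E_congr fun v hv => ?_
  by_cases hy : Y v = Y w
  · rw [h v hv hy]
  · rw [ind_not hy]
    ring

theorem cp_congr_on {s : ℕ} {A B : Om → Prop} {w : Om} (h : ∀ v, P.p v ≠ 0 → X s v = X s w → (A v ↔ B v)) :
    cp P X s A w = cp P X s B w :=
  ce_congr_on fun v hv hy => by rw [propext (h v hv hy)]

theorem cp_fac (s : ℕ) (A : Om → Prop) : Fac (X s) (cp P X s A) := P.ce_fac _ _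

theorem cp_nonneg (s : ℕ) (A : Om → Prop) (w : Om) : 0 ≤ cp P X s A w := P.ce_nonneg (fun _ _ => ind_nonneg _) w

theorem cp_mono {s : ℕ} {A B : Om → Prop} (h : ∀ v, A v → B v) (w : Om) : cp P X s A w ≤ cp P X s B w :=
  P.ce_mono (fun v _ => ind_mono (h v)) w

theorem cp_zero {s : ℕ} {A : Om → Prop} {w : Om} (h : ∀ v, P.p v ≠ 0 → X s v = X s w → ¬ A v) :
    cp P X s A w = 0 := by
  have h1 : cp P X s A w = P.ce (X s) (fun _ => 0) w := ce_congr_on fun v hv hy => ind_not (h v hv hy)
  rw [h1]
  unfold FP.ce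
  simp only [mul_zero, FP.E_const, zero_div]

theorem tk1_fac {s : ℕ} (C A : Om → Prop) {v w : Om} (h : X s v = X s w) : tk1 P X u s C A v ↔ tk1 P X u s C A w := by
  unfold tk1
  rw [cp_fac s _ v w h]

theorem tk_fac {s r : ℕ} {v w : Om} (h : X s v = X s w) : tk P X u H M s r v ↔ tk P X u H M s r w := tk1_fac _ _ h

theorem pass_le {s r r' : ℕ} (C : Om → Prop) (h : r ≤ r') {w : Om} (hw : pass P X u H s C r w) :
    pass P X u H s C r' w := by
  induction r', h using Nat.le_induction with
  | base => exact hw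
  | succ r' _ ih => exact Or.inl ih

theorem Cv_le {s r r' : ℕ} (h : r ≤ r') {w : Om} (hw : Cv P X u H M s r w) : Cv P X u H M s r' w := pass_le _ h hw

theorem Cv_zero (s : ℕ) : Cv P X u H M s 0 = cov P X u H M s := rfl

theorem Cv_last (s : ℕ) : Cv P X u H M s M = cov P X u H M (s + 1) := rfl

theorem Cv_succ (s r : ℕ) (w : Om) : Cv P X u H M s (r + 1) w ↔ Cv P X u H M s r w ∨ nw P X u H M s r w := by
  show (Cv P X u H M s r w ∨ (H r w ∧ tk P X u H M s r w)) ↔ _
  unfold nw
  tauto

theorem cov_succ {s : ℕ} {w : Om} (hw : cov P X u H M s w) : cov P X u H M (s + 1) w := by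
  rw [← Cv_zero] at hw
  rw [← Cv_last]
  exact Cv_le (Nat.zero_le _) hw

theorem cov_mono {s s' : ℕ} (h : s ≤ s') {w : Om} (hw : cov P X u H M s w) : cov P X u H M s' w := by
  induction s', h using Nat.le_induction with
  | base => exact hw
  | succ s' _ ih => exact cov_succ ih

theorem cov_Cv {s s' r : ℕ} (h : s ≤ s') {w : Om} (hw : cov P X u H M s w) : Cv P X u H M s' r w := by
  have h1 := cov_mono h hw
  rw [← Cv_zero] at h1
  exact Cv_le (Nat.zero_le _) h1

theorem tk_Cv {s r : ℕ} {w : Om} (ht : tk P X u H M s r w) (hw : H r w) : Cv P X u H M s (r + 1) w := Or.inr ⟨hw, ht⟩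

theorem tk_cov {s r : ℕ} (hr : r < M) {w : Om} (ht : tk P X u H M s r w) (hw : H r w) : cov P X u H M (s + 1) w := by
  rw [← Cv_last]
  exact Cv_le hr (tk_Cv ht hw)

/-- **no row of the sample is dense outside the covered set** -/
theorem cp_lt (hu : 0 < u) {s r : ℕ} (hr : r < M) (w : Om) :
    cp P X s (fun v => H r v ∧ ¬ cov P X u H M (s + 1) v) w < u / 2 := by
  by_cases ht : tk P X u H M s r w
  · rw [cp_zero]
    · linarith
    · rintro v _ hv ⟨h1, h2⟩
      exact h2 (tk_cov hr ((tk_fac hv).2 ht) h1)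
  · refine lt_of_le_of_lt (cp_mono (fun v hv => ?_) w) (not_le.1 ht)
    refine ⟨hv.1, fun h => hv.2 ?_⟩
    rw [← Cv_last]
    exact Cv_le hr.le h

theorem nw_cov {s r : ℕ} (hr : r < M) {w : Om} (h : nw P X u H M s r w) : cov P X u H M (s + 1) w := tk_cov hr h.2.2 h.1

theorem nw_not_cov {s r : ℕ} {w : Om} (h : nw P X u H M s r w) : ¬ cov P X u H M s w := fun h1 => h.2.1 (cov_Cv le_rfl h1)

/-- the covered set is the union of the newly covered sets: one time -/
theorem ind_cov_succ (s : ℕ) (w : Om) :
    ind (cov P X u H M (s + 1) w) = ind (cov P X u H M s w) + ∑ r ∈ range M, ind (nw P X u H M s r w) := by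
  have h1 : ∀ n, ind (Cv P X u H M s n w) = ind (cov P X u H M s w) + ∑ r ∈ range n, ind (nw P X u H M s r w) := by
    intro n
    induction n with
    | zero => simp [Cv_zero]
    | succ n ih =>
      rw [Finset.sum_range_succ, ← add_assoc, ← ih, propext (Cv_succ s n w)]
      by_cases h2 : Cv P X u H M s n w
      · rw [ind_of h2, ind_of (Or.inl h2), ind_not (fun h => h.2.1 h2)]
        ring
      · rw [ind_not h2, zero_add]
        by_cases h3 : nw P X u H M s n w
        · rw [ind_of h3, ind_of (Or.inr h3)]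
        · rw [ind_not h3, ind_not (by tauto)]
  rw [← Cv_last]
  exact h1 M

/-- the conditional probability of the newly covered set -/
theorem cp_nw (s r : ℕ) (w : Om) : cp P X s (nw P X u H M s r) w =
    ind (tk P X u H M s r w) * cp P X s (fun v => H r v ∧ ¬ Cv P X u H M s r v) w := by
  by_cases ht : tk P X u H M s r w
  · rw [ind_of ht, one_mul]
    refine cp_congr_on fun v _ hv => ?_
    have := (tk_fac (P := P) (u := u) (H := H) (M := M) (r := r) hv).2 ht
    unfold nw
    tauto
  · rw [ind_not ht, zero_mul]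
    refine cp_zero fun v _ hv h => ht ((tk_fac hv).1 h.2.2)

theorem cp_nw_ge {s r : ℕ} {w : Om} (ht : tk P X u H M s r w) : u / 2 ≤ cp P X s (nw P X u H M s r) w := by
  rw [cp_nw, ind_of ht, one_mul]
  exact ht

theorem E_cp (s : ℕ) (A : Om → Prop) : P.E (cp P X s A) = P.Pr A := P.E_ce _ _

theorem Pr_nw_ge (s r : ℕ) : u / 2 * P.Pr (tk P X u H M s r) ≤ P.Pr (nw P X u H M s r) := by
  rw [← E_cp (X := X) s (nw P X u H M s r)]
  unfold FP.Pr
  rw [← FP.E_smul]
  refine P.E_mono fun w _ => ?_
  by_cases ht : tk P X u H M s r w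
  · rw [ind_of ht, mul_one]
    exact cp_nw_ge ht
  · rw [ind_not ht, mul_zero]
    exact cp_nonneg _ _ _

/-- **expected number of takings** -/
theorem taken_le (hu : 0 < u) (T : ℕ) : ∑ s ∈ range T, ∑ r ∈ range M, P.Pr (tk P X u H M s r) ≤ 2 / u := by
  have h1 : ∀ T, ∑ s ∈ range T, ∑ r ∈ range M, P.Pr (nw P X u H M s r) = P.Pr (cov P X u H M T) := by
    intro T
    induction T with
    | zero =>
      unfold FP.Pr cov
      simp [ind_not not_false, FP.E_const]
    | succ T ih =>
      rw [Finset.sum_range_succ, ih]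
      unfold FP.Pr
      rw [← FP.E_sum, ← FP.E_add]
      exact P.E_congr fun w _ => (ind_cov_succ T w).symm
  have h2 : u / 2 * ∑ s ∈ range T, ∑ r ∈ range M, P.Pr (tk P X u H M s r) ≤ 1 := by
    rw [Finset.mul_sum]
    calc ∑ s ∈ range T, u / 2 * ∑ r ∈ range M, P.Pr (tk P X u H M s r)
        ≤ ∑ s ∈ range T, ∑ r ∈ range M, P.Pr (nw P X u H M s r) := by
          refine Finset.sum_le_sum fun s _ => ?_
          rw [Finset.mul_sum]
          exact Finset.sum_le_sum fun r _ => Pr_nw_ge s r
      _ = P.Pr (cov P X u H M T) := h1 T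
      _ ≤ 1 := P.Pr_le_one _
  rw [le_div_iff₀ hu]
  linarith

/-! ## the potential -/

theorem Nn_ex {r s : ℕ} {w : Om} (h : Nn P X u H M r s w) : ∃ s' < s, nw P X u H M s' r w := by
  induction s with
  | zero => exact h.elim
  | succ s ih =>
    rcases h with h | h
    · obtain ⟨s', h1, h2⟩ := ih h
      exact ⟨s', by omega, h2⟩
    · exact ⟨s, by omega, h⟩

theorem Nn_of {r s s' : ℕ} (hs : s' < s) {w : Om} (h : nw P X u H M s' r w) : Nn P X u H M r s w := by
  induction s, hs using Nat.le_induction with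
  | base => exact Or.inr h
  | succ s _ ih => exact Or.inl ih

/-- after a row is taken, it is covered on the whole node -/
theorem cov_of_tk (hX : Filt X) {r s s' : ℕ} (hr : r < M) (hs : s' < s) {w v : Om} (ht : tk P X u H M s' r w)
    (hv : X s v = X s w) (h : H r v) : cov P X u H M s v :=
  cov_mono hs (tk_cov hr ((tk_fac (hX.le hs.le v w hv)).2 ht) h)

/-- a row is taken once -/
theorem Nn_not (hX : Filt X) (hu : 0 < u) {r s : ℕ} (hr : r < M) {w : Om} (ht : tk P X u H M s r w) {v : Om}
    (hv : X s v = X s w) : ¬ Nn P X u H M r s v := by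
  intro h
  obtain ⟨s', h1, h2⟩ := Nn_ex h
  have h3 : cp P X s (fun v => H r v ∧ ¬ Cv P X u H M s r v) w = 0 := by
    refine cp_zero fun v' _ hv' h4 => h4.2 ?_
    exact cov_Cv le_rfl (cov_of_tk hX hr h1 h2.2.2 (hv'.trans hv.symm) h4.1)
  have h5 : u / 2 ≤ cp P X s (fun v => H r v ∧ ¬ Cv P X u H M s r v) w := ht
  rw [h3] at h5
  linarith

/-- one row, one time -/
theorem phi_row (hX : Filt X) (hu : 0 < u) {r s : ℕ} (hr : r < M) (w : Om) :
    max (cp P X s (Nn P X u H M r s) w - u / 4) 0 + cp P X s (nw P X u H M s r) w / 2 ≤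
      max (cp P X s (Nn P X u H M r (s + 1)) w - u / 4) 0 := by
  by_cases ht : tk P X u H M s r w
  · have h1 : cp P X s (Nn P X u H M r s) w = 0 := cp_zero fun v _ hv => Nn_not hX hu hr ht hv
    have h2 : cp P X s (nw P X u H M s r) w ≤ cp P X s (Nn P X u H M r (s + 1)) w := cp_mono (fun v hv => Or.inr hv) w
    have h3 := cp_nw_ge ht
    rw [h1, max_eq_right (by linarith)]
    refine le_trans ?_ (le_max_left _ _)
    linarith
  · have h1 : cp P X s (nw P X u H M s r) w = 0 := by rw [cp_nw, ind_not ht, zero_mul]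
    have h2 : cp P X s (Nn P X u H M r (s + 1)) w = cp P X s (Nn P X u H M r s) w := by
      refine cp_congr_on fun v _ hv => ?_
      show (Nn P X u H M r s v ∨ nw P X u H M s r v) ↔ _
      have h3 : ¬ nw P X u H M s r v := fun h => ht ((tk_fac hv).1 h.2.2)
      tauto
    rw [h1, h2]
    simp

/-- one time -/
theorem phi_step (hX : Filt X) (hu : 0 < u) (s : ℕ) (w : Om) :
    PhiO P X u H M s w + (∑ r ∈ range M, cp P X s (nw P X u H M s r) w) / 2 ≤ Phi P X u H M s w := by
  unfold PhiO Phi
  rw [Finset.sum_div, ← Finset.sum_add_distrib]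
  exact Finset.sum_le_sum fun r hr => phi_row hX hu (mem_range.1 hr) w

theorem PhiO_nonneg (s : ℕ) (w : Om) : 0 ≤ PhiO P X u H M s w := Finset.sum_nonneg fun _ _ => le_max_right _ _

theorem Phi_nonneg (s : ℕ) (w : Om) : 0 ≤ Phi P X u H M s w := Finset.sum_nonneg fun _ _ => le_max_right _ _

/-- the halving step: convexity -/
theorem phi_jensen (hX : Filt X) (s : ℕ) {h : Om → ℝ} (hh : Fac (X s) h) (h0 : ∀ w, 0 ≤ h w) :
    P.E (fun w => h w * Phi P X u H M s w) ≤ P.E (fun w => h w * PhiO P X u H M (s + 1) w) := by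
  have h1 : ∀ r w, P.p w ≠ 0 → max (cp P X s (Nn P X u H M r (s + 1)) w - u / 4) 0 ≤
      P.ce (X s) (fun v => max (cp P X (s + 1) (Nn P X u H M r (s + 1)) v - u / 4) 0) w := by
    intro r w hw
    refine max_le ?_ (P.ce_nonneg (fun _ _ => le_max_right _ _) w)
    have h2 : cp P X s (Nn P X u H M r (s + 1)) w - u / 4 =
        P.ce (X s) (fun v => cp P X (s + 1) (Nn P X u H M r (s + 1)) v - u / 4) w := by
      rw [P.ce_sub, P.ce_const _ _ hw]
      congr 1
      exact (P.ce_tower (hX s) _ w).symm
    rw [h2]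
    exact P.ce_mono (fun _ _ => le_max_left _ _) w
  have e1 : P.E (fun w => h w * PhiO P X u H M (s + 1) w) = P.E (fun w => h w * P.ce (X s) (PhiO P X u H M (s + 1)) w) :=
    (P.E_mul_ce hh _).symm
  rw [e1]
  refine P.E_mono fun w hw => mul_le_mul_of_nonneg_left ?_ (h0 w)
  unfold Phi PhiO
  rw [P.ce_sum]
  exact Finset.sum_le_sum fun r _ => h1 r w hw

/-- stopping times -/
def Stp (X : ∀ t, Om → κ t) (σ : Om → ℕ) : Prop := ∀ s v w, X s v = X s w → (σ v ≤ s ↔ σ w ≤ s)

theorem E_sum_nw {s : ℕ} {h : Om → ℝ} (hh : Fac (X s) h) :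
    P.E (fun w => h w * ∑ r ∈ range M, ind (nw P X u H M s r w)) =
      P.E (fun w => h w * ∑ r ∈ range M, cp P X s (nw P X u H M s r) w) := by
  have e : (fun w => ∑ r ∈ range M, cp P X s (nw P X u H M s r) w) =
      P.ce (X s) (fun w => ∑ r ∈ range M, ind (nw P X u H M s r w)) := by
    funext w
    rw [P.ce_sum]
    rfl
  have := P.E_mul_ce hh (fun w => ∑ r ∈ range M, ind (nw P X u H M s r w))
  rw [← this]
  refine P.E_congr fun w _ => ?_
  rw [← e]

/-- **the probability of being covered is paid by the potential** -/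
theorem cov_le (hX : Filt X) (hu : 0 < u) {σ : Om → ℕ} (hσ : Stp X σ) :
    P.Pr (fun w => cov P X u H M (σ w + 1) w) ≤ 2 * P.E (fun w => Phi P X u H M (σ w) w) := by
  have key : ∀ n, P.E (fun w => ind (cov P X u H M (min (σ w) n + 1) w)) ≤
      2 * P.E (fun w => Phi P X u H M (min (σ w) n) w) := by
    intro n
    induction n with
    | zero =>
      have e1 : P.E (fun w => ind (cov P X u H M (min (σ w) 0 + 1) w)) =
          P.E (fun w => 1 * ∑ r ∈ range M, ind (nw P X u H M 0 r w)) := by
        refine P.E_congr fun w _ => ?_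
        rw [Nat.min_zero, ind_cov_succ]
        have : ind (cov P X u H M 0 w) = 0 := ind_not (fun h => h)
        rw [this, zero_add, one_mul]
      rw [e1, E_sum_nw (Fac.const _ _), ← FP.E_smul]
      refine P.E_mono fun w _ => ?_
      rw [Nat.min_zero]
      have h1 := phi_step (H := H) (M := M) (P := P) hX hu 0 w
      have h2 := PhiO_nonneg (P := P) (X := X) (u := u) (H := H) (M := M) 0 w
      linarith
    | succ n ih =>
      set h : Om → ℝ := fun w => ind (n < σ w) with hh
      have hf : Fac (X n) h := by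
        refine Fac.ind fun v w hvw => ?_
        have := hσ n v w hvw
        omega
      have hf' : Fac (X (n + 1)) h := (hX n).trans hf
      have e1 : P.E (fun w => ind (cov P X u H M (min (σ w) (n + 1) + 1) w)) =
          P.E (fun w => ind (cov P X u H M (min (σ w) n + 1) w)) +
            P.E (fun w => h w * ∑ r ∈ range M, ind (nw P X u H M (n + 1) r w)) := by
        rw [← FP.E_add]
        refine P.E_congr fun w _ => ?_
        by_cases hw : n < σ w
        · rw [hh]
          simp only
          rw [ind_of hw, one_mul, min_eq_right (by omega), min_eq_right hw.le, ind_cov_succ (n + 1)]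
        · rw [hh]
          simp only
          rw [ind_not hw, zero_mul, add_zero, min_eq_left (by omega), min_eq_left (by omega)]
      have e2 : P.E (fun w => Phi P X u H M (min (σ w) (n + 1)) w) =
          P.E (fun w => Phi P X u H M (min (σ w) n) w) +
            (P.E (fun w => h w * Phi P X u H M (n + 1) w) - P.E (fun w => h w * Phi P X u H M n w)) := by
        rw [← FP.E_sub, ← FP.E_add]
        refine P.E_congr fun w _ => ?_
        by_cases hw : n < σ w
        · rw [hh]
          simp only
          rw [ind_of hw, min_eq_right (by omega), min_eq_right hw.le]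
          ring
        · rw [hh]
          simp only
          rw [ind_not hw, min_eq_left (by omega), min_eq_left (by omega)]
          ring
      have h1 : P.E (fun w => h w * PhiO P X u H M (n + 1) w) +
          P.E (fun w => h w * ∑ r ∈ range M, cp P X (n + 1) (nw P X u H M (n + 1) r) w) / 2 ≤
          P.E (fun w => h w * Phi P X u H M (n + 1) w) := by
        rw [← FP.E_div_const, ← FP.E_add]
        refine P.E_mono fun w _ => ?_
        have h2 := mul_le_mul_of_nonneg_left (phi_step (H := H) (M := M) (P := P) hX hu (n + 1) w)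
          (ind_nonneg (n < σ w))
        show ind (n < σ w) * _ + ind (n < σ w) * _ / 2 ≤ ind (n < σ w) * _
        linarith
      have h3 := phi_jensen (H := H) (M := M) (P := P) (u := u) hX n hf (fun w => ind_nonneg _)
      have h4 := E_sum_nw (P := P) (u := u) (H := H) (M := M) hf'
      rw [e1, e2, h4]
      linarith
  obtain ⟨n, hn⟩ : ∃ n, ∀ w, σ w ≤ n := ⟨∑ w, σ w, fun w => Finset.single_le_sum (fun _ _ => Nat.zero_le _) (mem_univ w)⟩
  have h1 := key n
  have e : ∀ w, min (σ w) n = σ w := fun w => min_eq_left (hn w)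
  simp only [e] at h1
  exact h1

end

end Pool.Agent.GMH.Gdy
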