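import Pool.Agent.GMH.Proc
import Pool.Agent.GMH.Gdy
import Pool.Agent.M3.Indep

/-!
# GMH.Path: the process / stopping time layer of HARM(k) (helper27)

* `pst pr t n` : point of the time `t + n` -> point of the time `t` (earlier letters); `push_pst`;
* `Pa h t a` : law of (known points, labels of the time `t`) given the hidden point `a`; `E_Pa`;
* `inBox S` : the known points are in the sets `S j` (cells, or exact points); `box_E`, `box_labels`;
* `indep_of_fg` : a product formula gives independence; `indep_one` : `y_c` and (the other points, the label which misses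
  `c`); `indep_two` : at exact other points `(y_c, F_d)` and `(y_d, F_c)`;
* `cIP D s I` : the cells of the vertices `I` at the time `s`; `cIP_filt`, `cIP_m` (masses), `cIP_half` : they shrink by a factor
  at most `2 ^ |I|` in one step.
-/

set_option autoImplicit false
set_option linter.unusedSectionVars false

namespace Pool.Agent.GMH

open Finset Pool.Agent.PWZ Pool.Agent.M3 Pool.Agent.GM Pool.Agent.GM.Harm

/-! ## independence from a product formula -/

section fg

variable {Om : Type*} [Fintype Om] {κ ι : Type*}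

theorem E_fib_one (P : FP Om) (Y : Om → ι) {u : Om} (hu : P.p u ≠ 0) :
    P.E (fun v => ind (Y u = Y v) / P.m Y v) = 1 := by
  have h1 : P.E (fun v => ind (Y u = Y v) / P.m Y v) = P.E (fun v => 1 / P.m Y u * ind (Y v = Y u)) := by
    refine P.E_congr fun v _ => ?_
    by_cases hv : Y v = Y u
    · rw [ind_of hv, ind_of hv.symm, P.Fac_m Y v u hv]; ring
    · rw [ind_not hv, ind_not (fun hh => hv hh.symm)]; ring
  rw [h1, FP.E_smul]
  have h2 : P.E (fun v => ind (Y v = Y u)) = P.m Y u := rfl
  rw [h2, one_div, inv_mul_cancel₀ (P.m_pos Y hu).ne']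

/-- **a product formula gives independence** -/
theorem indep_of_fg (P : FP Om) {X : Om → κ} {Y : Om → ι} (f g : Om → ℝ)
    (h : ∀ w v, P.p w ≠ 0 → P.p v ≠ 0 → P.E (fun u => ind (X u = X w) * ind (Y u = Y v)) = f w * g v) :
    P.Indep X Y := by
  refine P.indep_of_m fun w v hw hv => ?_
  set G := P.E (fun v => g v / P.m Y v) with hG
  set F := P.E (fun w => f w / P.m X w) with hF
  have h1 : ∀ w, P.p w ≠ 0 → P.m X w = f w * G := by
    intro w hw
    have e1 : P.m X w = P.E (fun u => P.E (fun v => ind (X u = X w) * (ind (Y u = Y v) / P.m Y v))) := by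
      unfold FP.m
      refine P.E_congr fun u hu => ?_
      rw [FP.E_smul]
      have := E_fib_one P Y hu
      unfold FP.m at this
      rw [this, mul_one]
    rw [e1, P.E_swap, hG, ← FP.E_smul]
    refine P.E_congr fun v hv => ?_
    have e2 : P.E (fun u => ind (X u = X w) * (ind (Y u = Y v) / P.m Y v)) =
        P.E (fun u => ind (X u = X w) * ind (Y u = Y v)) / P.m Y v := by
      rw [← FP.E_div_const]
      exact P.E_congr fun u _ => by ring
    rw [e2, h w v hw hv]
    ring
  have h2 : ∀ v, P.p v ≠ 0 → P.m Y v = g v * F := by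
    intro v hv
    have e1 : P.m Y v = P.E (fun u => P.E (fun w => ind (Y u = Y v) * (ind (X u = X w) / P.m X w))) := by
      unfold FP.m
      refine P.E_congr fun u hu => ?_
      rw [FP.E_smul]
      have := E_fib_one P X hu
      unfold FP.m at this
      rw [this, mul_one]
    rw [e1, P.E_swap, hF, ← FP.E_smul]
    refine P.E_congr fun w hw => ?_
    have e2 : P.E (fun u => ind (Y u = Y v) * (ind (X u = X w) / P.m X w)) =
        P.E (fun u => ind (X u = X w) * ind (Y u = Y v)) / P.m X w := by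
      rw [← FP.E_div_const]
      exact P.E_congr fun u _ => by ring
    rw [e2, h w v hw hv]
    ring
  have h3 : F * G = 1 := by
    have e1 : P.E (fun w => f w * G / P.m X w) = 1 := by
      rw [← P.E_const 1]
      refine P.E_congr fun w hw => ?_
      rw [← h1 w hw, div_self (P.m_pos X hw).ne']
    rw [hF, ← FP.E_mul_const, ← e1]
    exact P.E_congr fun w _ => by ring
  rw [h w v hw hv, h1 w hw, h2 v hv]
  calc f w * g v = f w * g v * (F * G) := by rw [h3, mul_one]
    _ = _ := by ring

end fg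

section path

variable {K X β γ φ : Type} [Fintype K] [DecidableEq K] [Fintype X] [Fintype β] [Fintype φ] [Nonempty X] [Nonempty β]
  {D : HD K X β γ φ} {al : ℝ} (h : D.Thick al)

/-! ## earlier letters -/

/-- point of the time `t + n` -> point of the time `t` -/
def pst (pr : ℕ → K → φ → φ) (t : ℕ) : ℕ → Pt K X β φ → Pt K X β φ
  | 0 => fun w => w
  | n + 1 => fun w => pst pr t n (old pr (t + n) w)

theorem pst_fst (pr : ℕ → K → φ → φ) (t n : ℕ) (w : Pt K X β φ) : (pst pr t n w).1 = w.1 := by
  induction n generalizing w with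
  | zero => rfl
  | succ n ih => exact ih _

theorem pst_pts (pr : ℕ → K → φ → φ) (t n : ℕ) (w : Pt K X β φ) : (pst pr t n w).2.1 = w.2.1 := by
  induction n generalizing w with
  | zero => rfl
  | succ n ih => exact ih _

/-- each letter depends on the same letter -/
theorem pst_lab (pr : ℕ → K → φ → φ) (t n : ℕ) (l : K) {v w : Pt K X β φ} (hvw : v.2.2 l = w.2.2 l) :
    (pst pr t n v).2.2 l = (pst pr t n w).2.2 l := by
  induction n generalizing v w with
  | zero => exact hvw
  | succ n ih =>
    refine ih ?_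
    show pr (t + n) l (v.2.2 l) = pr (t + n) l (w.2.2 l)
    rw [hvw]

theorem push_pst {pr : ℕ → K → φ → φ} {T : ℕ}
    (hpr : ∀ t < T, ∀ l x y F, D.kf t l x y F = ∑ F', ind (pr t l F' = F) * D.kf (t + 1) l x y F') (t n : ℕ)
    (hT : t + n ≤ T) (f : Pt K X β φ → ℝ) : (D.P h (t + n)).E (fun w => f (pst pr t n w)) = (D.P h t).E f := by
  induction n with
  | zero => rfl
  | succ n ih =>
    rw [← ih (by omega)]
    exact push_E h (hpr (t + n) (by omega)) fun w => f (pst pr t n w)

/-! ## the law given the hidden point -/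

/-- law of (known points, labels of the time `t`) given the hidden point -/
noncomputable def Pa (t : ℕ) (a : X) : FP ((K → β) × (K → φ)) where
  p w := (∏ l, D.kf t l a w.1 (w.2 l)) / (Fintype.card β : ℝ) ^ Fintype.card K
  nn w := div_nonneg (Finset.prod_nonneg fun l _ => h.nn t l a w.1 (w.2 l)) (by positivity)
  tot := by
    classical
    rw [← Finset.sum_div, Fintype.sum_prod_type]
    have h1 : ∀ y : K → β, ∑ F : K → φ, ∏ l, D.kf t l a y (F l) = 1 := by
      intro y
      have h2 := Finset.prod_univ_sum (fun _ : K => (univ : Finset φ)) (fun l F => D.kf t l a y F)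
      rw [Fintype.piFinset_univ] at h2
      rw [← h2]
      exact Finset.prod_eq_one fun l _ => h.one t l a y
    simp only [h1]
    rw [Finset.sum_const, Finset.card_univ, nsmul_eq_mul, mul_one, Fintype.card_fun]
    push_cast
    have h5 : (Fintype.card β : ℝ) ≠ 0 := by exact_mod_cast Fintype.card_ne_zero
    exact div_self (pow_ne_zero _ h5)

/-- the law as a mean over the hidden point -/
theorem E_Pa (t : ℕ) (f : Pt K X β φ → ℝ) :
    (D.P h t).E f = (FP.unif X).E fun a => (Pa h t a).E fun w => f (a, w) := by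
  rw [FP.unif_E]
  unfold FP.E
  rw [Fintype.sum_prod_type, Finset.sum_div]
  refine Finset.sum_congr rfl fun a _ => ?_
  rw [Finset.sum_div]
  refine Finset.sum_congr rfl fun w _ => ?_
  show (∏ l, D.kf t l a w.1 (w.2 l)) / (Fintype.card X * (Fintype.card β : ℝ) ^ Fintype.card K) * f (a, w) =
    (∏ l, D.kf t l a w.1 (w.2 l)) / (Fintype.card β : ℝ) ^ Fintype.card K * f (a, w) / Fintype.card X
  rw [mul_comm (Fintype.card X : ℝ), ← div_div]
  ring

theorem Pa_supp {t : ℕ} {a : X} {w : (K → β) × (K → φ)} : (Pa h t a).p w ≠ 0 ↔ ∀ l, D.kf t l a w.1 (w.2 l) ≠ 0 := by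
  have h5 : (Fintype.card β : ℝ) ^ Fintype.card K ≠ 0 :=
    pow_ne_zero _ (by exact_mod_cast Fintype.card_ne_zero)
  show (∏ l, D.kf t l a w.1 (w.2 l)) / (Fintype.card β : ℝ) ^ Fintype.card K ≠ 0 ↔ _
  rw [div_ne_zero_iff, Finset.prod_ne_zero_iff]
  exact ⟨fun hh l => hh.1 l (mem_univ l), fun hh => ⟨fun l _ => hh l, h5⟩⟩

/-- mean of a function of the points with the labels in `S` fixed -/
theorem Pa_labels (S : Finset K) (t : ℕ) (a : X) (g : (K → β) → ℝ) (F0 : K → φ) :
    (Pa h t a).E (fun w => g w.1 * ind (∀ l ∈ S, w.2 l = F0 l)) =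
      (∑ y, g y * ∏ l ∈ S, D.kf t l a y (F0 l)) / (Fintype.card β : ℝ) ^ Fintype.card K := by
  classical
  unfold FP.E
  rw [Fintype.sum_prod_type, Finset.sum_div]
  refine Finset.sum_congr rfl fun y _ => ?_
  rw [← sum_labels h S t a y F0, Finset.mul_sum, Finset.sum_div]
  refine Finset.sum_congr rfl fun F _ => ?_
  show (∏ l, D.kf t l a y (F l)) / _ * (g y * ind (∀ l ∈ S, F l = F0 l)) = _
  ring

/-! ## boxes -/

/-- the known points are in the sets `S j` -/
def inBox (S : K → Finset β) (w : (K → β) × (K → φ)) : Prop := ∀ j, w.1 j ∈ S j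

theorem Pa_box (S : K → Finset β) (A : Finset K) (t : ℕ) (a : X) (g : (K → β) → ℝ) (F0 : K → φ) :
    (Pa h t a).E (fun w => ind (inBox S w) * (g w.1 * ind (∀ l ∈ A, w.2 l = F0 l))) =
      (∑ y ∈ Fintype.piFinset S, g y * ∏ l ∈ A, D.kf t l a y (F0 l)) / (Fintype.card β : ℝ) ^ Fintype.card K := by
  classical
  have h1 := Pa_labels h A t a (fun y => ind (∀ j, y j ∈ S j) * g y) F0
  have e : (Pa h t a).E (fun w => ind (inBox S w) * (g w.1 * ind (∀ l ∈ A, w.2 l = F0 l))) =
      (Pa h t a).E (fun w => ind (∀ j, w.1 j ∈ S j) * g w.1 * ind (∀ l ∈ A, w.2 l = F0 l)) :=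
    (Pa h t a).E_congr fun w _ => by unfold inBox; ring
  rw [e, h1]
  congr 1
  rw [← Finset.sum_filter_add_sum_filter_not univ (fun y : K → β => ∀ j, y j ∈ S j)]
  have z : ∑ y ∈ univ.filter (fun y : K → β => ¬ ∀ j, y j ∈ S j), ind (∀ j, y j ∈ S j) * g y *
      ∏ l ∈ A, D.kf t l a y (F0 l) = 0 := by
    refine Finset.sum_eq_zero fun y hy => ?_
    rw [ind_not (Finset.mem_filter.1 hy).2, zero_mul, zero_mul]
  rw [z, add_zero]
  refine Finset.sum_congr ?_ fun y hy => ?_
  · ext y
    rw [Finset.mem_filter, Fintype.mem_piFinset]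
    exact ⟨fun hh => hh.2, fun hh => ⟨mem_univ y, hh⟩⟩
  · rw [Fintype.mem_piFinset] at hy
    rw [ind_of hy, one_mul]

/-- the product of the sizes -/
noncomputable def bsz (S : K → Finset β) : ℝ := ∏ j, ((S j).card : ℝ)

theorem bsz_pos {S : K → Finset β} (hS : ∀ j, (S j).Nonempty) : 0 < bsz S :=
  Finset.prod_pos fun j _ => by exact_mod_cast (hS j).card_pos

theorem Pr_box (S : K → Finset β) (t : ℕ) (a : X) :
    (Pa h t a).Pr (inBox S) = bsz S / (Fintype.card β : ℝ) ^ Fintype.card K := by
  classical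
  obtain ⟨w0, _⟩ := (Pa h t a).exists_p_ne
  have h1 := Pa_box h S ∅ t a (fun _ => 1) w0.2
  have e : (Pa h t a).Pr (inBox S) = (Pa h t a).E (fun w => ind (inBox S w) *
      (1 * ind (∀ l ∈ (∅ : Finset K), w.2 l = w0.2 l))) := by
    unfold FP.Pr
    refine (Pa h t a).E_congr fun w _ => ?_
    rw [ind_of (by simp : ∀ l ∈ (∅ : Finset K), w.2 l = w0.2 l), mul_one, mul_one]
  rw [e, h1]
  congr 1
  simp only [Finset.prod_empty, mul_one, Finset.sum_const, nsmul_eq_mul, Fintype.card_piFinset]
  unfold bsz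
  push_cast
  rfl

theorem Pr_box_ne {S : K → Finset β} (hS : ∀ j, (S j).Nonempty) (t : ℕ) (a : X) : (Pa h t a).Pr (inBox S) ≠ 0 := by
  rw [Pr_box]
  refine div_ne_zero (bsz_pos hS).ne' (pow_ne_zero _ ?_)
  exact_mod_cast Fintype.card_ne_zero

/-- the law in a box -/
noncomputable def Bx (t : ℕ) (a : X) (S : K → Finset β) : FP ((K → β) × (K → φ)) := (Pa h t a).cond (inBox S)

theorem Bx_labels {S : K → Finset β} (hS : ∀ j, (S j).Nonempty) (A : Finset K) (t : ℕ) (a : X) (g : (K → β) → ℝ)
    (F0 : K → φ) : (Bx h t a S).E (fun w => g w.1 * ind (∀ l ∈ A, w.2 l = F0 l)) =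
      (∑ y ∈ Fintype.piFinset S, g y * ∏ l ∈ A, D.kf t l a y (F0 l)) / bsz S := by
  unfold Bx
  rw [FP.cond_E (Pr_box_ne h hS t a), Pa_box, Pr_box, div_div_div_cancel_right₀]
  exact pow_ne_zero _ (by exact_mod_cast Fintype.card_ne_zero)

theorem Bx_pts {S : K → Finset β} (hS : ∀ j, (S j).Nonempty) (t : ℕ) (a : X) (g : (K → β) → ℝ) :
    (Bx h t a S).E (fun w => g w.1) = (∑ y ∈ Fintype.piFinset S, g y) / bsz S := by
  obtain ⟨w0, _⟩ := (Pa h t a).exists_p_ne
  have h1 := Bx_labels h hS ∅ t a g w0.2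
  simp only [Finset.prod_empty, mul_one] at h1
  rw [← h1]
  refine (Bx h t a S).E_congr fun w _ => ?_
  rw [ind_of (by simp : ∀ l ∈ (∅ : Finset K), w.2 l = w0.2 l), mul_one]

theorem Bx_supp {S : K → Finset β} (hS : ∀ j, (S j).Nonempty) {t : ℕ} {a : X} {w : (K → β) × (K → φ)} :
    (Bx h t a S).p w ≠ 0 ↔ inBox S w ∧ ∀ l, D.kf t l a w.1 (w.2 l) ≠ 0 := by
  unfold Bx
  rw [FP.cond_p_ne (Pr_box_ne h hS t a), Pa_supp]

/-- all sets are contained in the cells of the time `t` -/
def InCell (D : HD K X β γ φ) (t : ℕ) (S : K → Finset β) : Prop := ∀ j, ∀ b ∈ S j, ∀ b' ∈ S j, D.qb t b = D.qb t b'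

/-- **the point of the vertex `c` is independent of the other points and of the label which misses `c`** -/
theorem indep_one {S : K → Finset β} (hS : ∀ j, (S j).Nonempty) {t : ℕ} (hc : InCell D t S) (a : X) (c : K) :
    (Bx h t a S).Indep (fun w => w.1 c) (fun w => ((fun j => if j = c then none else some (w.1 j) : K → Option β), w.2 c)) := by
  classical
  refine indep_of_fg _ (fun _ => 1 / bsz S) (fun v => D.kf t c a v.1 (v.2 c)) fun w v hw hv => ?_
  obtain ⟨hw1, _⟩ := (Bx_supp h hS).1 hw
  obtain ⟨hv1, _⟩ := (Bx_supp h hS).1 hv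
  set y0 : K → β := Function.update v.1 c (w.1 c) with hy0
  have e : (Bx h t a S).E (fun u => ind (u.1 c = w.1 c) *
      ind (((fun j => if j = c then none else some (u.1 j) : K → Option β), u.2 c) =
        ((fun j => if j = c then none else some (v.1 j) : K → Option β), v.2 c))) =
      (Bx h t a S).E (fun u => ind (u.1 = y0) * ind (∀ l ∈ ({c} : Finset K), u.2 l = v.2 l)) := by
    refine (Bx h t a S).E_congr fun u _ => ?_
    rw [← ind_and, ← ind_and]
    congr 1
    refine propext ⟨fun hh => ?_, fun hh => ?_⟩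
    · obtain ⟨h1, h2⟩ := hh
      rw [Prod.mk.injEq, funext_iff] at h2
      refine ⟨?_, fun l hl => ?_⟩
      · funext j
        rw [hy0]
        by_cases hj : j = c
        · subst hj; rw [Function.update_self, h1]
        · rw [Function.update_of_ne hj]
          have := h2.1 j
          rw [if_neg hj, if_neg hj] at this
          exact Option.some.inj this
      · rw [Finset.mem_singleton.1 hl]; exact h2.2
    · obtain ⟨h1, h2⟩ := hh
      refine ⟨by rw [h1, hy0, Function.update_self], ?_⟩
      rw [Prod.mk.injEq]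
      refine ⟨?_, h2 c (Finset.mem_singleton_self c)⟩
      funext j
      by_cases hj : j = c
      · rw [if_pos hj, if_pos hj]
      · rw [if_neg hj, if_neg hj, h1, hy0, Function.update_of_ne hj]
  rw [e, Bx_labels h hS {c} t a (fun y => ind (y = y0)) v.2]
  have hmem : y0 ∈ Fintype.piFinset S := by
    rw [Fintype.mem_piFinset]
    intro j
    rw [hy0]
    by_cases hj : j = c
    · subst hj; rw [Function.update_self]; exact hw1 j
    · rw [Function.update_of_ne hj]; exact hv1 j
  rw [Finset.sum_eq_single_of_mem y0 hmem fun y _ hy => by rw [ind_not hy, zero_mul], ind_of rfl, one_mul,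
    Finset.prod_singleton]
  have h1 : D.kf t c a y0 = D.kf t c a v.1 := by
    refine D.dep t c a y0 v.1 (fun j hj => by rw [hy0, Function.update_of_ne hj]) ?_
    rw [hy0, Function.update_self]
    exact hc c _ (hw1 c) _ (hv1 c)
  rw [h1]
  ring

/-- **at exact other points `(y_c, F_d)` and `(y_d, F_c)` are independent** -/
theorem indep_two {S : K → Finset β} (hS : ∀ j, (S j).Nonempty) {t : ℕ} (hc : InCell D t S) (a : X) {c d : K}
    (hcd : c ≠ d) (hex : ∀ j, j ≠ c → j ≠ d → ∀ b ∈ S j, ∀ b' ∈ S j, b = b') :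
    (Bx h t a S).Indep (fun w => (w.1 c, w.2 d)) (fun w => (w.1 d, w.2 c)) := by
  classical
  refine indep_of_fg _ (fun w => D.kf t d a w.1 (w.2 d) / bsz S) (fun v => D.kf t c a v.1 (v.2 c))
    fun w v hw hv => ?_
  obtain ⟨hw1, _⟩ := (Bx_supp h hS).1 hw
  obtain ⟨hv1, _⟩ := (Bx_supp h hS).1 hv
  set y0 : K → β := Function.update v.1 c (w.1 c) with hy0
  set F0 : K → φ := Function.update v.2 d (w.2 d) with hF0
  have hF0c : F0 c = v.2 c := by rw [hF0, Function.update_of_ne hcd]
  have hF0d : F0 d = w.2 d := by rw [hF0, Function.update_self]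
  have e : (Bx h t a S).E (fun u => ind ((u.1 c, u.2 d) = (w.1 c, w.2 d)) * ind ((u.1 d, u.2 c) = (v.1 d, v.2 c))) =
      (Bx h t a S).E (fun u => ind (u.1 = y0) * ind (∀ l ∈ ({c, d} : Finset K), u.2 l = F0 l)) := by
    refine (Bx h t a S).E_congr fun u hu => ?_
    obtain ⟨hu1, _⟩ := (Bx_supp h hS).1 hu
    rw [← ind_and, ← ind_and]
    congr 1
    refine propext ⟨fun hh => ?_, fun hh => ?_⟩
    · simp only [Prod.mk.injEq] at hh
      obtain ⟨⟨h1, h2⟩, h3, h4⟩ := hh
      refine ⟨?_, fun l hl => ?_⟩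
      · funext j
        rw [hy0]
        by_cases hj : j = c
        · subst hj; rw [Function.update_self, h1]
        · rw [Function.update_of_ne hj]
          by_cases hj' : j = d
          · subst hj'; exact h3
          · exact hex j hj hj' _ (hu1 j) _ (hv1 j)
      · rcases Finset.mem_insert.1 hl with rfl | hl
        · rw [hF0c]; exact h4
        · rw [Finset.mem_singleton.1 hl, hF0d]; exact h2
    · obtain ⟨h1, h2⟩ := hh
      simp only [Prod.mk.injEq]
      refine ⟨⟨by rw [h1, hy0, Function.update_self], ?_⟩, ?_, ?_⟩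
      · rw [h2 d (by simp), hF0d]
      · rw [h1, hy0, Function.update_of_ne hcd.symm]
      · rw [h2 c (by simp), hF0c]
  rw [e, Bx_labels h hS {c, d} t a (fun y => ind (y = y0)) F0]
  have hmem : y0 ∈ Fintype.piFinset S := by
    rw [Fintype.mem_piFinset]
    intro j
    rw [hy0]
    by_cases hj : j = c
    · subst hj; rw [Function.update_self]; exact hw1 j
    · rw [Function.update_of_ne hj]; exact hv1 j
  rw [Finset.sum_eq_single_of_mem y0 hmem fun y _ hy => by rw [ind_not hy, zero_mul], ind_of rfl, one_mul,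
    Finset.prod_pair hcd, hF0c, hF0d]
  have h1 : D.kf t c a y0 = D.kf t c a v.1 := by
    refine D.dep t c a y0 v.1 (fun j hj => by rw [hy0, Function.update_of_ne hj]) ?_
    rw [hy0, Function.update_self]
    exact hc c _ (hw1 c) _ (hv1 c)
  have h2 : D.kf t d a y0 = D.kf t d a w.1 := by
    refine D.dep t d a y0 w.1 (fun j hj => ?_) ?_
    · rw [hy0]
      by_cases hj' : j = c
      · subst hj'; rw [Function.update_self]
      · rw [Function.update_of_ne hj']
        exact hex j hj' hj _ (hv1 j) _ (hw1 j)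
    · rw [hy0, Function.update_of_ne hcd.symm]
      exact hc d _ (hv1 d) _ (hw1 d)
  rw [h1, h2]
  ring

/-! ## cells of the known points after the time `t` -/

/-- the cells of the vertices `I`, `s` steps after the time `t`, stopped at the time `T` -/
noncomputable def cIP (D : HD K X β γ φ) (I : Finset K) (t T s : ℕ) (w : (K → β) × (K → φ)) : K → Option γ :=
  fun j => if j ∈ I then some (D.qb (min (t + s) T) (w.1 j)) else none

theorem cIP_eq {I : Finset K} {t T s : ℕ} {v w : (K → β) × (K → φ)} :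
    cIP D I t T s v = cIP D I t T s w ↔ ∀ j ∈ I, D.qb (min (t + s) T) (v.1 j) = D.qb (min (t + s) T) (w.1 j) := by
  unfold cIP
  rw [funext_iff]
  refine forall_congr' fun j => ?_
  by_cases hj : j ∈ I
  · rw [if_pos hj, if_pos hj]
    exact ⟨fun hh _ => Option.some.inj hh, fun hh => congrArg some (hh hj)⟩
  · rw [if_neg hj, if_neg hj]
    exact ⟨fun _ hh => absurd hh hj, fun _ => rfl⟩

theorem cIP_filt (I : Finset K) (t T : ℕ) : Filt (cIP (φ := φ) D I t T) := by
  intro s v w hvw
  rw [cIP_eq] at hvw ⊢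
  intro j hj
  exact qb_mono D (by omega) (hvw j hj)

/-- the cells of the vertices in two disjoint sets of vertices -/
theorem cIP_pair {I J : Finset K} {t T s : ℕ} {v w : (K → β) × (K → φ)} :
    cIP D (I ∪ J) t T s v = cIP D (I ∪ J) t T s w ↔
      cIP D I t T s v = cIP D I t T s w ∧ cIP D J t T s v = cIP D J t T s w := by
  rw [cIP_eq, cIP_eq, cIP_eq]
  constructor
  · intro hh
    exact ⟨fun j hj => hh j (Finset.mem_union_left _ hj), fun j hj => hh j (Finset.mem_union_right _ hj)⟩
  · rintro ⟨h1, h2⟩ j hj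
    rcases Finset.mem_union.1 hj with h3 | h3
    · exact h1 j h3
    · exact h2 j h3

open Classical in
/-- the box cut by the cells of the point `w` -/
noncomputable def cut (D : HD K X β γ φ) (S : K → Finset β) (I : Finset K) (t T s : ℕ) (w : (K → β) × (K → φ)) (j : K) :
    Finset β := if j ∈ I then (S j).filter fun b => D.qb (min (t + s) T) b = D.qb (min (t + s) T) (w.1 j) else S j

/-- the mass of a cell in the box -/
theorem cIP_m {S : K → Finset β} (hS : ∀ j, (S j).Nonempty) (a : X) (t0 : ℕ) (I : Finset K) (t T s : ℕ)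
    (w : (K → β) × (K → φ)) : (Bx h t0 a S).m (cIP D I t T s) w = bsz (cut D S I t T s w) / bsz S := by
  classical
  have e : (Bx h t0 a S).m (cIP D I t T s) w =
      (Bx h t0 a S).E (fun u => ind (∀ j ∈ I, D.qb (min (t + s) T) (u.1 j) = D.qb (min (t + s) T) (w.1 j))) := by
    unfold FP.m
    exact (Bx h t0 a S).E_congr fun u _ => by rw [cIP_eq]
  rw [e, Bx_pts h hS t0 a (fun y => ind (∀ j ∈ I, D.qb (min (t + s) T) (y j) = D.qb (min (t + s) T) (w.1 j)))]
  congr 1
  have h1 : bsz (cut D S I t T s w) = ((Fintype.piFinset (cut D S I t T s w)).card : ℝ) := by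
    rw [Fintype.card_piFinset]
    unfold bsz
    push_cast
    rfl
  rw [h1, ← nsmul_one, ← Finset.sum_const]
  have h2 : Fintype.piFinset (cut D S I t T s w) = (Fintype.piFinset S).filter
      (fun y => ∀ j ∈ I, D.qb (min (t + s) T) (y j) = D.qb (min (t + s) T) (w.1 j)) := by
    ext y
    rw [Finset.mem_filter, Fintype.mem_piFinset, Fintype.mem_piFinset]
    constructor
    · intro hh
      refine ⟨fun j => ?_, fun j hj => ?_⟩
      · have := hh j
        unfold cut at this
        by_cases hj : j ∈ I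
        · rw [if_pos hj] at this; exact (Finset.mem_filter.1 this).1
        · rw [if_neg hj] at this; exact this
      · have := hh j
        unfold cut at this
        rw [if_pos hj] at this
        exact (Finset.mem_filter.1 this).2
    · rintro ⟨h3, h4⟩ j
      unfold cut
      by_cases hj : j ∈ I
      · rw [if_pos hj]; exact Finset.mem_filter.2 ⟨h3 j, h4 j hj⟩
      · rw [if_neg hj]; exact h3 j
  rw [h2, Finset.sum_filter]
  refine Finset.sum_congr rfl fun y _ => ?_
  by_cases hy : ∀ j ∈ I, D.qb (min (t + s) T) (y j) = D.qb (min (t + s) T) (w.1 j)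
  · rw [ind_of hy, if_pos hy]
  · rw [ind_not hy, if_neg hy]

/-- **the cells shrink at most by a factor `2 ^ |I|` in one step** -/
theorem cIP_half {S : K → Finset β} (hS : ∀ j, (S j).Nonempty) {dg : ℕ → X → ℝ} {prr : ℕ → K → φ → φ} {T : ℕ} {Lam : ℝ}
    (hh : D.Hyp dg prr al T Lam) (a : X) (t0 : ℕ) {I : Finset K} {t : ℕ} (ht : t ≤ T) {y0 : K → β}
    (hI : ∀ j ∈ I, S j = D.cB t (y0 j)) (s : ℕ) {w : (K → β) × (K → φ)} (hw : (Bx h t0 a S).p w ≠ 0) :
    (Bx h t0 a S).m (cIP D I t T s) w ≤ 2 ^ I.card * (Bx h t0 a S).m (cIP D I t T (s + 1)) w := by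
  classical
  have hw1 := ((Bx_supp h hS).1 hw).1
  rw [cIP_m h hS, cIP_m h hS, mul_div_assoc']
  refine div_le_div_of_nonneg_right ?_ (bsz_pos hS).le
  -- the sets of the box cut by the cells are cells
  have hcell : ∀ r, ∀ j ∈ I, cut D S I t T r w j = D.cB (min (t + r) T) (w.1 j) := by
    intro r j hj
    unfold cut
    rw [if_pos hj, hI j hj]
    ext b
    simp only [Finset.mem_filter, HD.cB, Finset.mem_univ, true_and]
    constructor
    · exact fun hb => hb.2
    · intro hb
      refine ⟨?_, hb⟩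
      have h1 : D.qb t b = D.qb t (w.1 j) := qb_mono D (by omega) hb
      have h2 := hw1 j
      rw [hI j hj] at h2
      simp only [HD.cB, Finset.mem_filter, Finset.mem_univ, true_and] at h2
      exact h1.trans h2
  have hout : ∀ r, ∀ j, j ∉ I → cut D S I t T r w j = S j := by
    intro r j hj
    unfold cut
    rw [if_neg hj]
  have hstep : ∀ j ∈ I, ((cut D S I t T s w j).card : ℝ) ≤ 2 * ((cut D S I t T (s + 1) w j).card : ℝ) := by
    intro j hj
    rw [hcell s j hj, hcell (s + 1) j hj]
    by_cases hT : t + s < T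
    · rw [show min (t + s) T = t + s by omega, show min (t + (s + 1)) T = t + s + 1 by omega]
      rcases hh.half (t + s) hT with h1 | h1
      · rw [h1]
        have : (0 : ℝ) ≤ ((D.cB (t + s) (w.1 j)).card : ℝ) := Nat.cast_nonneg _
        linarith
      · have h2 := h1 (w.1 j)
        have h3 : (2 : ℝ) * ((D.cB (t + s + 1) (w.1 j)).card : ℝ) = ((D.cB (t + s) (w.1 j)).card : ℝ) := by
          exact_mod_cast h2
        linarith
    · rw [show min (t + s) T = T by omega, show min (t + (s + 1)) T = T by omega]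
      have : (0 : ℝ) ≤ ((D.cB T (w.1 j)).card : ℝ) := Nat.cast_nonneg _
      linarith
  unfold bsz
  have e1 : ∀ r, ∏ j, ((cut D S I t T r w j).card : ℝ) =
      (∏ j ∈ I, ((cut D S I t T r w j).card : ℝ)) * ∏ j ∈ Iᶜ, ((cut D S I t T r w j).card : ℝ) := fun r =>
    (Finset.prod_mul_prod_compl I _).symm
  rw [e1, e1]
  have e2 : ∏ j ∈ Iᶜ, ((cut D S I t T s w j).card : ℝ) = ∏ j ∈ Iᶜ, ((cut D S I t T (s + 1) w j).card : ℝ) := by
    refine Finset.prod_congr rfl fun j hj => ?_
    rw [hout s j (Finset.mem_compl.1 hj), hout (s + 1) j (Finset.mem_compl.1 hj)]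
  rw [e2, ← mul_assoc]
  refine mul_le_mul_of_nonneg_right ?_ (Finset.prod_nonneg fun j _ => Nat.cast_nonneg _)
  calc ∏ j ∈ I, ((cut D S I t T s w j).card : ℝ) ≤ ∏ j ∈ I, (2 * ((cut D S I t T (s + 1) w j).card : ℝ)) :=
        Finset.prod_le_prod (fun j _ => Nat.cast_nonneg _) hstep
    _ = 2 ^ I.card * ∏ j ∈ I, ((cut D S I t T (s + 1) w j).card : ℝ) := by
        rw [Finset.prod_mul_distrib, Finset.prod_const]

end path

end Pool.Agent.GMH
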