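import Pool.Agent.GMH.V3P
import Pool.Agent.GMH.ConA
import Pool.Agent.GMH.Path
import Pool.Agent.GMH.V3S
import Pool.Agent.GMH.V3N
import Pool.Agent.GMH.DeadY

/-!
# GMH/V3I: thin level, from the pointwise densities of `ConA` to the densities of letters in the public cell
(statements helper91, proofs helper88)

* `m_base` : a map `R` of the hidden point, of the points `y_J` and of the labels inside `J`: the mass of `(R, WW)` is the
  mass of `(R, BB J)` divided by `nY` (number of the other points); `nY_prod`;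
* `iR_thin`, `iR_pair` : pointwise relative potential over the class = log of the density of the letters in the public cell;
* `Pc_child` : cell after the additions = child; `loss_priv` : private codes only increase; `lossV`, `lossVj` : the loss.
-/

set_option autoImplicit false
set_option linter.unusedSectionVars false

namespace Pool.Agent.GMH.V3

open Finset Pool.Agent.PWZ Pool.Agent.M3 Pool.Agent.GM Pool.Agent.GM.Harm Pool.Agent.GMH Pool.Agent.GMH.NZ

/-! ## masses with all points and with the points of `J` -/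

section base

variable {K X β γ φ : Type} [Fintype K] [DecidableEq K] [Fintype X] [Fintype β] [Fintype φ] [Nonempty X] [Nonempty β]
  {D : HD K X β γ φ} {al : ℝ} (h : D.Thick al) {t s : ℕ} {J : Finset K}

theorem m_AW (hts : t ≤ s) (w : Pt K X β φ) : (D.P h t).m (fun v => (AA J v, WW D s v)) w * nY D s J w.2.1 =
    (D.P h t).m (fun v => (AA J v, BB D s J v)) w := by
  have e : (D.P h t).m (fun v => (AA J v, WW D s v)) w = (D.P h t).m (fun v => (AA J v, v.2.1, BB D s J v)) w := by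
    refine (D.P h t).m_congr ?_ ?_ w
    · intro a b hab
      have h1 : WW D s a = WW D s b := congrArg Prod.snd hab
      have h2 := WW_BB (φ := φ) D s J a b h1
      rw [WW_eq] at h1
      simp only [Prod.mk.injEq] at hab ⊢
      exact ⟨hab.1, h1.1, h2⟩
    · intro a b hab
      simp only [Prod.mk.injEq, WW_eq, BB_eq] at hab ⊢
      exact ⟨hab.1, hab.2.1, hab.2.2.2.1⟩
  rw [e, m_ACZ, m_AZ h hts]
  ring

theorem nY_pos (s : ℕ) (J : Finset K) (y : K → β) : 0 < nY D s J y := by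
  unfold nY
  refine Finset.sum_pos' (fun y' _ => ind_nonneg _) ⟨y, mem_univ y, ?_⟩
  rw [ind_of ⟨fun _ _ => rfl, fun _ => rfl⟩]
  exact one_pos

/-- **masses of maps inside `J`** -/
theorem m_base (hts : t ≤ s) {ι : Type*} {R : Pt K X β φ → ι} (hR : Fac (fun w => (AA J w, BB D s J w)) R)
    (w : Pt K X β φ) : (D.P h t).m (fun v => (R v, WW D s v)) w =
      (D.P h t).m (fun v => (R v, BB D s J v)) w / nY D s J w.2.1 := by
  set P := D.P h t with hP
  set Y : Pt K X β φ → (X × (K → Option φ)) × ((K → Option β) × (γ × (K → γ))) := fun v => (AA J v, BB D s J v) with hY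
  have h1 : P.m (fun v => (R v, WW D s v)) w =
      P.E (fun v => P.E (fun u => ind (Y v = Y u) * ind ((R v, WW D s v) = (R w, WW D s w)) / P.m Y u)) := by
    unfold FP.m
    refine P.E_congr fun v hv => ?_
    have h2 := E_fib_one P Y hv
    have h3 : P.E (fun u => ind (Y v = Y u) * ind ((R v, WW D s v) = (R w, WW D s w)) / P.m Y u) =
        P.E (fun u => ind (Y v = Y u) / P.m Y u) * ind ((R v, WW D s v) = (R w, WW D s w)) := by
      rw [← FP.E_mul_const]
      exact P.E_congr fun u _ => by ring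
    unfold FP.m at h3 h2
    rw [h3, h2, one_mul]
  rw [h1, P.E_swap]
  unfold FP.m
  rw [← FP.E_div_const]
  refine P.E_congr fun u hu => ?_
  rw [FP.E_div_const]
  show P.E (fun v => ind (Y v = Y u) * ind ((R v, WW D s v) = (R w, WW D s w))) / P.m Y u =
    ind ((R u, BB D s J u) = (R w, BB D s J w)) / nY D s J w.2.1
  by_cases hc : (R u, BB D s J u) = (R w, BB D s J w)
  · obtain ⟨hc1, hc2⟩ : R u = R w ∧ BB D s J u = BB D s J w := by simpa only [Prod.mk.injEq] using hc
    set u' : Pt K X β φ := (u.1, w.2.1, u.2.2) with hu'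
    have hYu : Y u' = Y u := by
      rw [BB_eq] at hc2
      simp only [hY, Prod.mk.injEq, AA_eq, BB_eq]
      exact ⟨⟨rfl, fun _ _ => rfl⟩, fun j hj => (hc2.1 j hj).symm, rfl, fun j => (hc2.2.2 j).symm⟩
    have e1 : P.E (fun v => ind (Y v = Y u) * ind ((R v, WW D s v) = (R w, WW D s w))) =
        P.m (fun v => (AA J v, WW D s v)) u' := by
      unfold FP.m
      refine P.E_congr fun v _ => ?_
      rw [← ind_and]
      refine ind_cg ⟨?_, ?_⟩
      · rintro ⟨h3, h4⟩
        have h5 : AA J v = AA J u := congrArg Prod.fst h3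
        have h6 : WW D s v = WW D s w := congrArg Prod.snd h4
        rw [BB_eq] at hc2
        simp only [Prod.mk.injEq]
        refine ⟨h5, ?_⟩
        rw [WW_eq] at h6 ⊢
        exact ⟨h6.1, h6.2.trans hc2.2.1.symm⟩
      · intro h3
        have h5 : AA J v = AA J u := congrArg Prod.fst h3
        have h6 : WW D s v = WW D s u' := congrArg Prod.snd h3
        have h7 : WW D s v = WW D s w := by
          rw [BB_eq] at hc2
          rw [WW_eq] at h6 ⊢
          exact ⟨h6.1, h6.2.trans hc2.2.1⟩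
        have h8 : Y v = Y u := by
          have h9 := WW_BB (φ := φ) D s J v w h7
          exact Prod.ext h5 (h9.trans hc2.symm)
        refine ⟨h8, Prod.ext ((hR v u h8).trans hc1) h7⟩
    have e2 := m_AW h (J := J) hts u'
    have e3 : P.m Y u' = P.m Y u := P.Fac_m Y u' u hYu
    have e4 : P.m (fun v => (AA J v, BB D s J v)) u' = P.m Y u' := rfl
    rw [e4, e3] at e2
    rw [e1, ind_of hc]
    have p1 := P.m_pos Y hu
    have p2 := nY_pos (D := D) s J w.2.1
    have e5 : nY D s J u'.2.1 = nY D s J w.2.1 := rfl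
    rw [e5] at e2
    rw [div_eq_div_iff p1.ne' p2.ne', one_mul]
    exact e2
  · rw [ind_not hc, zero_div]
    have e1 : P.E (fun v => ind (Y v = Y u) * ind ((R v, WW D s v) = (R w, WW D s w))) = P.E (fun _ => 0) := by
      refine P.E_congr fun v _ => ?_
      rw [← ind_and]
      refine ind_not fun hh => hc ?_
      have h5 : BB D s J v = BB D s J u := congrArg Prod.snd hh.1
      have h6 : R v = R w := congrArg Prod.fst hh.2
      have h7 : WW D s v = WW D s w := congrArg Prod.snd hh.2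
      exact Prod.ext ((hR v u hh.1).symm.trans h6) (h5.symm.trans (WW_BB (φ := φ) D s J v w h7))
    rw [e1, FP.E_const, zero_div]

/-- number of the other points -/
theorem nY_prod (s : ℕ) (J : Finset K) (y : K → β) :
    nY D s J y = ∏ j, (if j ∈ J then 1 else ((D.cB s (y j)).card : ℝ)) := by
  classical
  unfold nY
  have h1 : ∀ y' : K → β, ind ((∀ j ∈ J, y' j = y j) ∧ ∀ j, D.qb s (y' j) = D.qb s (y j)) =
      ∏ j, (if j ∈ J then ind (y' j = y j) else ind (D.qb s (y' j) = D.qb s (y j))) := by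
    intro y'
    by_cases hy : (∀ j ∈ J, y' j = y j) ∧ ∀ j, D.qb s (y' j) = D.qb s (y j)
    · rw [ind_of hy]
      refine (Finset.prod_eq_one fun j _ => ?_).symm
      by_cases hj : j ∈ J
      · rw [if_pos hj, ind_of (hy.1 j hj)]
      · rw [if_neg hj, ind_of (hy.2 j)]
    · rw [ind_not hy]
      have h2 : ∃ j, (if j ∈ J then ind (y' j = y j) else ind (D.qb s (y' j) = D.qb s (y j))) = 0 := by
        by_contra hcon
        push Not at hcon
        refine hy ⟨fun j hj => ?_, fun j => ?_⟩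
        · by_contra hne
          have := hcon j
          rw [if_pos hj, ind_not hne] at this
          exact this rfl
        · by_cases hj : j ∈ J
          · by_contra hne
            have := hcon j
            rw [if_pos hj, ind_not (fun hh => hne (by rw [hh]))] at this
            exact this rfl
          · by_contra hne
            have := hcon j
            rw [if_neg hj, ind_not hne] at this
            exact this rfl
      obtain ⟨j, hj⟩ := h2
      exact (Finset.prod_eq_zero (mem_univ j) hj).symm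
  rw [Finset.sum_congr rfl fun y' _ => h1 y']
  have h2 := Finset.prod_univ_sum (fun _ : K => (univ : Finset β))
    (fun j b => (if j ∈ J then ind (b = y j) else ind (D.qb s b = D.qb s (y j))))
  rw [Fintype.piFinset_univ] at h2
  rw [← h2]
  refine Finset.prod_congr rfl fun j _ => ?_
  by_cases hj : j ∈ J
  · simp only [if_pos hj]
    rw [Finset.sum_eq_single (y j) (fun b _ hb => ind_not hb) (fun hh => absurd (mem_univ _) hh), ind_of rfl]
  · simp only [if_neg hj]
    unfold HD.cB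
    rw [Finset.card_filter]
    push_cast
    refine Finset.sum_congr rfl fun b _ => ?_
    by_cases hb : D.qb s b = D.qb s (y j)
    · rw [ind_of hb, if_pos hb]
    · rw [ind_not hb, if_neg hb]

theorem log_nY (s : ℕ) (J : Finset K) (y : K → β) :
    Real.log (nY D s J y) = ∑ j, (if j ∈ J then 0 else Real.log ((D.cB s (y j)).card : ℝ)) := by
  classical
  have hpos : ∀ j, (0 : ℝ) < ((D.cB s (y j)).card : ℝ) := by
    intro j
    have : (D.cB s (y j)).Nonempty := ⟨y j, by
      simp only [HD.cB, Finset.mem_filter, Finset.mem_univ, true_and]⟩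
    exact_mod_cast this.card_pos
  rw [nY_prod, Real.log_prod]
  · refine Finset.sum_congr rfl fun j _ => ?_
    by_cases hj : j ∈ J
    · rw [if_pos hj, if_pos hj, Real.log_one]
    · rw [if_neg hj, if_neg hj]
  · intro j _
    by_cases hj : j ∈ J
    · rw [if_pos hj]; exact one_ne_zero
    · rw [if_neg hj]; exact (hpos j).ne'

end base

/-! ## letters of a cell -/

section cell

variable {Om : Type*} [Fintype Om] (P : FP Om) {κ ι θ ν : Type*}

/-- mass of a letter in a cell -/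
theorem lw_cell (X : Om → κ) (N : Om → ν) {w : Om} (hw : P.p w ≠ 0) :
    lw (P.cond fun u => N u = N w) X (X w) = P.m (fun u => (X u, N u)) w / P.m N w := by
  unfold lw
  rw [FP.cond_E (P.m_pos N hw).ne']
  congr 1
  unfold FP.m
  refine P.E_congr fun u _ => ?_
  rw [← ind_and]
  exact ind_cg ⟨fun hh => Prod.ext hh.2 hh.1, fun hh => ⟨congrArg Prod.snd hh, congrArg Prod.fst hh⟩⟩

/-- mass of a triple in a cell -/
theorem lw3_cell (X : Om → κ) (Y : Om → ι) (Z : Om → θ) (N : Om → ν) {w : Om} (hw : P.p w ≠ 0) :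
    lw3 (P.cond fun u => N u = N w) X Y Z (X w) (Y w) (Z w) = P.m (fun u => (X u, Y u, Z u, N u)) w / P.m N w := by
  unfold lw3
  rw [FP.cond_E (P.m_pos N hw).ne']
  congr 1
  unfold FP.m
  refine P.E_congr fun u _ => ?_
  rw [← ind_and, ← ind_and, ← ind_and]
  refine ind_cg ⟨fun hh => ?_, fun hh => ?_⟩
  · exact Prod.ext hh.2.1.1 (Prod.ext hh.2.1.2 (Prod.ext hh.2.2 hh.1))
  · simp only [Prod.mk.injEq] at hh
    exact ⟨hh.2.2.2, ⟨hh.1, hh.2.1⟩, hh.2.2.1⟩

/-- the density of a triple in a cell -/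
theorem log_D3_cell (X : Om → κ) (Y : Om → ι) (Z : Om → θ) (N : Om → ν) {w : Om} (hw : P.p w ≠ 0) :
    Real.log (D3 (P.cond fun u => N u = N w) X Y Z (X w) (Y w) (Z w)) =
      Real.log (P.m (fun u => (X u, Y u, Z u, N u)) w) + 2 * Real.log (P.m N w) -
      Real.log (P.m (fun u => (X u, N u)) w) - Real.log (P.m (fun u => (Y u, N u)) w) -
      Real.log (P.m (fun u => (Z u, N u)) w) := by
  unfold D3
  rw [lw3_cell P X Y Z N hw, lw_cell P X N hw, lw_cell P Y N hw, lw_cell P Z N hw]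
  have a := (P.m_pos N hw).ne'
  have b := (P.m_pos (fun u => (X u, Y u, Z u, N u)) hw).ne'
  have c := (P.m_pos (fun u => (X u, N u)) hw).ne'
  have d := (P.m_pos (fun u => (Y u, N u)) hw).ne'
  have e := (P.m_pos (fun u => (Z u, N u)) hw).ne'
  rw [Real.log_div (div_ne_zero b a) (mul_ne_zero (mul_ne_zero (div_ne_zero c a) (div_ne_zero d a)) (div_ne_zero e a)),
    Real.log_mul (mul_ne_zero (div_ne_zero c a) (div_ne_zero d a)) (div_ne_zero e a),
    Real.log_mul (div_ne_zero c a) (div_ne_zero d a), Real.log_div b a, Real.log_div c a, Real.log_div d a,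
    Real.log_div e a]
  ring

/-- the mean as a mean over the cells -/
theorem E_cell (N : Om → ν) (f : Om → ℝ) : P.E f = P.E fun w => (P.cond fun u => N u = N w).E f := by
  rw [← P.E_ce N f]
  exact P.E_congr fun w hw => P.ce_eq_cond N f hw

/-- a pointwise inequality of the means over the cells -/
theorem E_le_cells (N : Om → ν) {f g : Om → ℝ}
    (hfg : ∀ w, P.p w ≠ 0 → (P.cond fun u => N u = N w).E f ≤ (P.cond fun u => N u = N w).E g) : P.E f ≤ P.E g := by
  rw [E_cell P N f, E_cell P N g]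
  exact P.E_mono hfg

/-- the points of the cell -/
theorem cell_supp (N : Om → ν) {w u : Om} (hw : P.p w ≠ 0) (hu : (P.cond fun u => N u = N w).p u ≠ 0) :
    N u = N w ∧ P.p u ≠ 0 := (FP.cond_p_ne (P.m_pos N hw).ne').1 hu

/-- the child of a cell -/
theorem cell_child (N : Om → ν) (V : Om → θ) {u w : Om} (hu : P.p u ≠ 0) (huw : N u = N w) :
    (P.cond fun v => N v = N w).cond (fun v => V v = V u) = P.cond fun v => (V v, N v) = (V u, N u) := by
  have h1 : P.Pr (fun v => N v = N w ∧ V v = V u) ≠ 0 :=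
    (FP.Pr_pos_of (S := fun v => N v = N w ∧ V v = V u) hu ⟨huw, rfl⟩).ne'
  rw [FP.cond_cond h1]
  congr 1
  funext v
  refine propext ⟨fun hh => Prod.ext hh.2 (hh.1.trans huw.symm), fun hh => ?_⟩
  exact ⟨(congrArg Prod.snd hh : N v = N u).trans huw, congrArg Prod.fst hh⟩

/-- the information as a mean over the cells -/
theorem I_cell (X : Om → κ) (V : Om → θ) (N : Om → ν) :
    P.I X V N = P.E fun w => (P.cond fun u => N u = N w).I X V (fun _ => ()) := by
  rw [FP.I_eq_E_kl, E_cell P N]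
  refine P.E_congr fun w hw => ?_
  rw [FP.I_eq_E_kl]
  refine FP.E_congr _ fun u hu => ?_
  obtain ⟨h1, h2⟩ := cell_supp P N hw hu
  have e1 : ((P.cond fun u => N u = N w).cond fun v => (fun _ : Om => ()) v = (fun _ : Om => ()) u) =
      P.cond fun v => N v = N u := by
    rw [cond_true (fun _ => rfl), h1]
  have e2 : ((P.cond fun u => N u = N w).cond fun v => (V v, (fun _ : Om => ()) v) = (V u, (fun _ : Om => ()) u)) =
      P.cond fun v => (V v, N v) = (V u, N u) := by
    rw [← cell_child P N V h2 h1]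
    congr 1
    funext v
    exact propext ⟨fun hh => congrArg Prod.fst hh, fun hh => Prod.ext hh rfl⟩
  rw [e1, e2]

end cell

/-! ## the loss in the cells, abstract -/

section loss

variable {Om : Type*} [Fintype Om] {κ ι θ ν μ κ' ι' θ' : Type*} {X : Om → κ} {Y : Om → ι} {Z : Om → θ} {V : Om → ν}
  {X' : Om → κ'} {Y' : Om → ι'} {Z' : Om → θ'} {N : Om → μ}

/-- `jensen3` with an alive set which is a function of the old letters and of `V` on a set `S` -/
theorem jensen_on {Q : FP Om} (hX : Fac X' X) (hY : Fac Y' Y) (hZ : Fac Z' Z) {S al : Om → Prop}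
    (hS : ∀ w, Q.p w ≠ 0 → S w)
    (hal : ∀ v w, S v → S w → (V v, X v, Y v, Z v) = (V w, X w, Y w, Z w) → (al v ↔ al w)) :
    0 ≤ Q.E (fun w => ind (al w) * (Real.log (D3 (Q.cond fun u => V u = V w) X' Y' Z' (X' w) (Y' w) (Z' w)) -
      Real.log (D3 (Q.cond fun u => V u = V w) X Y Z (X w) (Y w) (Z w)))) := by
  have h1 := jensen3 (P := Q) (V := V) hX hY hZ
    (al := fun u => ∃ u', S u' ∧ (V u', X u', Y u', Z u') = (V u, X u, Y u, Z u) ∧ al u')
    (fun v w hvw => ⟨fun ⟨u', a, b, c⟩ => ⟨u', a, b.trans hvw, c⟩, fun ⟨u', a, b, c⟩ => ⟨u', a, b.trans hvw.symm, c⟩⟩)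
  refine h1.trans (le_of_eq ?_)
  refine Q.E_congr fun w hw => ?_
  congr 1
  exact ind_cg ⟨fun ⟨u', a, b, c⟩ => (hal u' w a (hS w hw) b).1 c, fun hh => ⟨w, hS w hw, rfl, hh⟩⟩

/-- **private codes** -/
theorem priv_cells (P : FP Om) (hX : Fac X' X) (hY : Fac Y' Y) (hZ : Fac Z' Z) {al : Om → Prop}
    (hal : ∀ v w, (N v, V v, X v, Y v, Z v) = (N w, V w, X w, Y w, Z w) → (al v ↔ al w)) :
    P.E (fun w => ind (al w) * Real.log (D3 (P.cond fun u => (V u, N u) = (V w, N w)) X Y Z (X w) (Y w) (Z w))) ≤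
    P.E (fun w => ind (al w) * Real.log (D3 (P.cond fun u => (V u, N u) = (V w, N w)) X' Y' Z' (X' w) (Y' w) (Z' w))) := by
  refine E_le_cells P N fun w hw => ?_
  set Q := P.cond fun u => N u = N w with hQ
  have hS : ∀ u, Q.p u ≠ 0 → N u = N w := fun u hu => (cell_supp P N hw hu).1
  have h1 := jensen_on (Q := Q) (V := V) hX hY hZ (S := fun u => N u = N w) (al := al) hS (by
    intro v u hv hu hvu
    refine hal v u ?_
    simp only [Prod.mk.injEq] at hvu ⊢
    exact ⟨hv.trans hu.symm, hvu⟩)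
  have h2 : Q.E (fun u => ind (al u) * (Real.log (D3 (Q.cond fun v => V v = V u) X' Y' Z' (X' u) (Y' u) (Z' u)) -
      Real.log (D3 (Q.cond fun v => V v = V u) X Y Z (X u) (Y u) (Z u)))) =
      Q.E (fun w => ind (al w) * Real.log (D3 (P.cond fun u => (V u, N u) = (V w, N w)) X' Y' Z' (X' w) (Y' w) (Z' w))) -
      Q.E (fun w => ind (al w) * Real.log (D3 (P.cond fun u => (V u, N u) = (V w, N w)) X Y Z (X w) (Y w) (Z w))) := by
    rw [← FP.E_sub]
    refine Q.E_congr fun u hu => ?_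
    rw [hQ, cell_child P N V (cell_supp P N hw hu).2 (cell_supp P N hw hu).1]
    ring
  rw [h2] at h1
  linarith

/-- **THE LOSS IN THE CELLS** -/
theorem loss_cells (P : FP Om) {pub T1 T2 T3 : Om → Prop} (fp : ∀ a b, N a = N b → (pub a ↔ pub b))
    (f1 : ∀ a b, (N a, X a) = (N b, X b) → (T1 a ↔ T1 b)) (f2 : ∀ a b, (N a, Y a) = (N b, Y b) → (T2 a ↔ T2 b))
    (f3 : ∀ a b, (N a, Z a) = (N b, Z b) → (T3 a ↔ T3 b)) {B eta τ e : ℝ} (hB : Real.exp 2 ≤ B) (he0 : 0 ≤ eta)
    (he1 : eta ≤ 1) (ht0 : 0 ≤ τ) (ht1 : τ ≤ 1) (hee : 0 ≤ e)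
    (G : ∀ w, P.p w ≠ 0 → pub w → Good3 (P.cond fun u => N u = N w) X Y Z (fun x => ∃ u, N u = N w ∧ X u = x ∧ T1 u)
      (fun x => ∃ u, N u = N w ∧ Y u = x ∧ T2 u) (fun x => ∃ u, N u = N w ∧ Z u = x ∧ T3 u) τ)
    (hd : ∀ w, P.p w ≠ 0 → pub w → (P.cond fun u => N u = N w).Pr (fun u => ¬ T1 u) ≤ e ∧
      (P.cond fun u => N u = N w).Pr (fun u => ¬ T2 u) ≤ e ∧ (P.cond fun u => N u = N w).Pr (fun u => ¬ T3 u) ≤ e) :
    P.E (fun w => ind (pub w ∧ T1 w ∧ T2 w ∧ T3 w) *
      (Real.log (D3 (P.cond fun u => N u = N w) X Y Z (X w) (Y w) (Z w)) -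
        Real.log (D3 (P.cond fun u => (V u, N u) = (V w, N w)) X Y Z (X w) (Y w) (Z w)))) ≤
    P.E (fun w => ind (pub w ∧ T1 w ∧ T2 w ∧ T3 w) * gV (P.cond fun u => (V u, N u) = (V w, N w))
      (P.cond fun u => N u = N w) X Y Z B eta (X w) (Y w) (Z w)) +
    (1000 * B ^ 3 * (Real.sqrt τ + eta) + 4 * e) * (P.I X V N + P.I Y V N + P.I Z V N) +
    6 * P.Pr (fun w => pub w ∧ (e < (P.cond fun u => (V u, N u) = (V w, N w)).Pr (fun u => ¬ T1 u) ∨
      e < (P.cond fun u => (V u, N u) = (V w, N w)).Pr (fun u => ¬ T2 u) ∨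
      e < (P.cond fun u => (V u, N u) = (V w, N w)).Pr (fun u => ¬ T3 u))) := by
  set c : ℝ := 1000 * B ^ 3 * (Real.sqrt τ + eta) + 4 * e with hc
  have hB0 : 0 ≤ B := (Real.exp_pos 2).le.trans hB
  have hc0 : 0 ≤ c := by positivity
  set bad : Om → Prop := fun w => pub w ∧ (e < (P.cond fun u => (V u, N u) = (V w, N w)).Pr (fun u => ¬ T1 u) ∨
      e < (P.cond fun u => (V u, N u) = (V w, N w)).Pr (fun u => ¬ T2 u) ∨
      e < (P.cond fun u => (V u, N u) = (V w, N w)).Pr (fun u => ¬ T3 u)) with hbad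
  have hKK : P.I X V N + P.I Y V N + P.I Z V N = P.E fun w => KK3 (P.cond fun u => N u = N w) X Y Z V := by
    rw [I_cell P X V N, I_cell P Y V N, I_cell P Z V N, ← FP.E_add, ← FP.E_add]
    exact P.E_congr fun w _ => KK3_eq.symm
  have key : ∀ w, P.p w ≠ 0 → (P.cond fun u => N u = N w).E (fun w => ind (pub w ∧ T1 w ∧ T2 w ∧ T3 w) *
      (Real.log (D3 (P.cond fun u => N u = N w) X Y Z (X w) (Y w) (Z w)) -
        Real.log (D3 (P.cond fun u => (V u, N u) = (V w, N w)) X Y Z (X w) (Y w) (Z w)))) ≤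
      (P.cond fun u => N u = N w).E (fun w => ind (pub w ∧ T1 w ∧ T2 w ∧ T3 w) *
        gV (P.cond fun u => (V u, N u) = (V w, N w)) (P.cond fun u => N u = N w) X Y Z B eta (X w) (Y w) (Z w)) +
      c * KK3 (P.cond fun u => N u = N w) X Y Z V + 6 * (P.cond fun u => N u = N w).Pr bad := by
    intro w hw
    set Q := P.cond fun u => N u = N w with hQ
    have hs : ∀ u, Q.p u ≠ 0 → N u = N w ∧ P.p u ≠ 0 := fun u hu => cell_supp P N hw hu
    have hself : ∀ u, Q.p u ≠ 0 → (P.cond fun v => N v = N u) = Q := by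
      intro u hu
      rw [hQ, (hs u hu).1]
    have hch : ∀ u, Q.p u ≠ 0 → (P.cond fun v => (V v, N v) = (V u, N u)) = Q.cond fun v => V v = V u := by
      intro u hu
      rw [hQ, cell_child P N V (hs u hu).2 (hs u hu).1]
    have hK0 : 0 ≤ KK3 Q X Y Z V := by
      rw [KK3_eq]
      have a1 := Q.I_nonneg X V (fun _ => ())
      have a2 := Q.I_nonneg Y V (fun _ => ())
      have a3 := Q.I_nonneg Z V (fun _ => ())
      linarith
    by_cases hp : pub w
    · set TX : κ → Prop := fun x => ∃ u, N u = N w ∧ X u = x ∧ T1 u with hTX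
      set TY : ι → Prop := fun x => ∃ u, N u = N w ∧ Y u = x ∧ T2 u with hTY
      set TZ : θ → Prop := fun x => ∃ u, N u = N w ∧ Z u = x ∧ T3 u with hTZ
      have eX : ∀ u, N u = N w → (TX (X u) ↔ T1 u) := fun u hu =>
        ⟨fun ⟨u', a, b, d⟩ => (f1 u' u (Prod.ext (a.trans hu.symm) b)).1 d, fun hh => ⟨u, hu, rfl, hh⟩⟩
      have eY : ∀ u, N u = N w → (TY (Y u) ↔ T2 u) := fun u hu =>
        ⟨fun ⟨u', a, b, d⟩ => (f2 u' u (Prod.ext (a.trans hu.symm) b)).1 d, fun hh => ⟨u, hu, rfl, hh⟩⟩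
      have eZ : ∀ u, N u = N w → (TZ (Z u) ↔ T3 u) := fun u hu =>
        ⟨fun ⟨u', a, b, d⟩ => (f3 u' u (Prod.ext (a.trans hu.symm) b)).1 d, fun hh => ⟨u, hu, rfl, hh⟩⟩
      have hpu : ∀ u, N u = N w → pub u := fun u hu => (fp u w hu).2 hp
      have eA : ∀ u, Q.p u ≠ 0 → ind (pub u ∧ T1 u ∧ T2 u ∧ T3 u) = ind (TX (X u) ∧ TY (Y u) ∧ TZ (Z u)) := by
        intro u hu
        have hN := (hs u hu).1
        refine ind_cg ?_
        rw [eX u hN, eY u hN, eZ u hN]
        exact ⟨fun hh => hh.2, fun hh => ⟨hpu u hN, hh⟩⟩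
      have L := lemS3 (P := Q) (V := V) (X := X) (Y := Y) (Z := Z) TX TY TZ
        (fun v => gV (Q.cond fun u => V u = v) Q X Y Z B eta)
      have N3' := N3 (P := Q) (V := V) (X := X) (Y := Y) (Z := Z) hB he0 he1 ht0 ht1 (G w hw hp)
      have PT : ∀ {T : Om → Prop} {S : Om → Prop} (R : FP Om) (_ : ∀ u, R.p u ≠ 0 → (T u ↔ S u)),
          R.Pr (fun u => ¬ T u) = R.Pr (fun u => ¬ S u) := by
        intro T S R hR
        unfold FP.Pr
        exact R.E_congr fun u hu => ind_cg (not_congr (hR u hu))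
      have d1 : Q.Pr (fun u => ¬ TX (X u)) ≤ e := by
        rw [PT Q fun u hu => eX u (hs u hu).1]; exact (hd w hw hp).1
      have d2 : Q.Pr (fun u => ¬ TY (Y u)) ≤ e := by
        rw [PT Q fun u hu => eY u (hs u hu).1]; exact (hd w hw hp).2.1
      have d3 : Q.Pr (fun u => ¬ TZ (Z u)) ≤ e := by
        rw [PT Q fun u hu => eZ u (hs u hu).1]; exact (hd w hw hp).2.2
      have C := cov3_le (P := Q) (V := V) (X := X) (Y := Y) (Z := Z) hee d1 d2 d3
      have hbd : Q.Pr (fun w => e < (Q.cond fun u => V u = V w).Pr (fun u => ¬ TX (X u)) ∨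
          e < (Q.cond fun u => V u = V w).Pr (fun u => ¬ TY (Y u)) ∨
          e < (Q.cond fun u => V u = V w).Pr (fun u => ¬ TZ (Z u))) = Q.Pr bad := by
        refine Q.E_congr fun u hu => ind_cg ?_
        show (e < (Q.cond fun v => V v = V u).Pr (fun x => ¬ TX (X x)) ∨
          e < (Q.cond fun v => V v = V u).Pr (fun x => ¬ TY (Y x)) ∨
          e < (Q.cond fun v => V v = V u).Pr (fun x => ¬ TZ (Z x))) ↔ bad u
        have hcs : ∀ x, (Q.cond fun v => V v = V u).p x ≠ 0 → N x = N w := fun x hx =>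
          (hs x (FP.cond_ac Q _ x hx)).1
        rw [PT (Q.cond fun v => V v = V u) fun x hx => eX x (hcs x hx),
          PT (Q.cond fun v => V v = V u) fun x hx => eY x (hcs x hx),
          PT (Q.cond fun v => V v = V u) fun x hx => eZ x (hcs x hx), hbad]
        show _ ↔ pub u ∧ _
        rw [hch u hu]
        exact ⟨fun hh => ⟨hpu u (hs u hu).1, hh⟩, fun hh => hh.2⟩
      rw [hbd] at C
      have e1 : Q.E (fun w => ind (pub w ∧ T1 w ∧ T2 w ∧ T3 w) *
          (Real.log (D3 (P.cond fun u => N u = N w) X Y Z (X w) (Y w) (Z w)) -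
            Real.log (D3 (P.cond fun u => (V u, N u) = (V w, N w)) X Y Z (X w) (Y w) (Z w)))) =
          Q.E (fun w => ind (TX (X w) ∧ TY (Y w) ∧ TZ (Z w)) * (Real.log (D3 Q X Y Z (X w) (Y w) (Z w)) -
            Real.log (D3 (Q.cond fun u => V u = V w) X Y Z (X w) (Y w) (Z w)))) := by
        refine Q.E_congr fun u hu => ?_
        rw [eA u hu, hself u hu, hch u hu]
      have e2 : Q.E (fun w => ind (pub w ∧ T1 w ∧ T2 w ∧ T3 w) *
          gV (P.cond fun u => (V u, N u) = (V w, N w)) (P.cond fun u => N u = N w) X Y Z B eta (X w) (Y w) (Z w)) =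
          Q.E (fun w => ind (TX (X w) ∧ TY (Y w) ∧ TZ (Z w)) *
            gV (Q.cond fun u => V u = V w) Q X Y Z B eta (X w) (Y w) (Z w)) := by
        refine Q.E_congr fun u hu => ?_
        rw [eA u hu, hself u hu, hch u hu]
      rw [e1, e2]
      have e3 : c * KK3 Q X Y Z V = 1000 * B ^ 3 * (Real.sqrt τ + eta) * KK3 Q X Y Z V + 4 * e * KK3 Q X Y Z V := by
        rw [hc]; ring
      rw [e3]
      linarith
    · have hz : ∀ u, Q.p u ≠ 0 → ind (pub u ∧ T1 u ∧ T2 u ∧ T3 u) = 0 := fun u hu =>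
        ind_not fun hh => hp ((fp u w (hs u hu).1).1 hh.1)
      have e1 : Q.E (fun w => ind (pub w ∧ T1 w ∧ T2 w ∧ T3 w) *
          (Real.log (D3 (P.cond fun u => N u = N w) X Y Z (X w) (Y w) (Z w)) -
            Real.log (D3 (P.cond fun u => (V u, N u) = (V w, N w)) X Y Z (X w) (Y w) (Z w)))) = 0 := by
        rw [← Q.E_const 0]
        exact Q.E_congr fun u hu => by rw [hz u hu, zero_mul]
      have e2 : Q.E (fun w => ind (pub w ∧ T1 w ∧ T2 w ∧ T3 w) *
          gV (P.cond fun u => (V u, N u) = (V w, N w)) (P.cond fun u => N u = N w) X Y Z B eta (X w) (Y w) (Z w)) = 0 := by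
        rw [← Q.E_const 0]
        exact Q.E_congr fun u hu => by rw [hz u hu, zero_mul]
      rw [e1, e2]
      have := mul_nonneg hc0 hK0
      have := Q.Pr_nonneg bad
      linarith
  have hsum := P.E_mono key
  rw [← E_cell P N, FP.E_add, FP.E_add, ← E_cell P N, FP.E_smul, ← hKK, FP.E_smul] at hsum
  have h6 : P.E (fun w => (P.cond fun u => N u = N w).Pr bad) = P.Pr bad := (E_cell P N fun w => ind (bad w)).symm
  rw [h6] at hsum
  exact hsum

end loss

/-! ## the thin labels -/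

section thin

variable {X β γ φ υ : Type} [Fintype X] [Fintype β] [Fintype φ] [Nonempty X] [Nonempty β]
variable {D : HD (Fin 3) X β γ φ} {al : ℝ} (h : D.Thick al) {v : ℕ → Finset (Fin 3) → X → (Fin 3 → β) → υ}

theorem Um_iff {s : ℕ} {I : Finset (Fin 3)} {x x' : X} {y y' : Fin 3 → β} :
    Um v s I x y = Um v s I x' y' ↔ ∀ r < s, v r I x y = v r I x' y' := by
  unfold Um
  rw [List.map_inj_left]
  exact ⟨fun hh r hr => hh r (List.mem_range.2 hr), fun hh r hr => hh r (List.mem_range.1 hr)⟩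

/-- classes are functions of the hidden point, the points of `I` and the node -/
theorem Um_AA (hv : Codes D v) {s n : ℕ} (hsn : s ≤ n + 1) {I J : Finset (Fin 3)} (hIJ : I ⊆ J) {a b : Pt (Fin 3) X β φ}
    (hab : (AA J a, BB D n J a) = (AA J b, BB D n J b)) : Um v s I a.1 a.2.1 = Um v s I b.1 b.2.1 := by
  simp only [Prod.mk.injEq, AA_eq, BB_eq] at hab
  obtain ⟨⟨h1, _⟩, h2, _, h3⟩ := hab
  rw [Um_iff]
  intro r hr
  rw [h1]
  exact hv r I b.1 a.2.1 b.2.1 (fun j hj => h2 j (hIJ hj)) fun j => qb_mono D (by omega) (h3 j)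

theorem er3 (l i : Fin 3) : (univ.erase l : Finset (Fin 3)) ≠ {i} := by
  intro hh
  have h1 := congrArg Finset.card hh
  rw [Finset.card_erase_of_mem (mem_univ l), Finset.card_univ, Finset.card_singleton] at h1
  simp at h1

theorem er0 (l : Fin 3) : (univ.erase l : Finset (Fin 3)) ≠ ∅ := by
  intro hh
  have h1 := congrArg Finset.card hh
  rw [Finset.card_erase_of_mem (mem_univ l), Finset.card_univ, Finset.card_empty] at h1
  simp at h1

theorem LL_cls {s : ℕ} {a b : Pt (Fin 3) X β φ} : LL (Um v s) ∅ a = LL (Um v s) ∅ b ↔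
    Um v s ∅ a.1 a.2.1 = Um v s ∅ b.1 b.2.1 := by
  rw [LL_eq]
  exact ⟨fun hh => hh.1, fun hh => ⟨hh, fun l hl => absurd hl (er0 l)⟩⟩

theorem all_cls {s : ℕ} {a b : Pt (Fin 3) X β φ} : all (LP pcl (LL (Um v s))) a = all (LP pcl (LL (Um v s))) b ↔
    Um v s ∅ a.1 a.2.1 = Um v s ∅ b.1 b.2.1 := by
  rw [← LL_cls]
  unfold all LP
  rw [funext_iff]
  constructor
  · intro hh
    exact hh ⟨∅, rfl⟩
  · rintro hh ⟨I, hI⟩
    have hI' : I = ∅ := hI
    show LL (Um v s) I a = LL (Um v s) I b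
    rw [hI']; exact hh

theorem all_th {s : ℕ} {a b : Pt (Fin 3) X β φ} : all (LP pth (LL (Um v s))) a = all (LP pth (LL (Um v s))) b ↔
    Um v s ∅ a.1 a.2.1 = Um v s ∅ b.1 b.2.1 ∧ ∀ i, Um v s {i} a.1 a.2.1 = Um v s {i} b.1 b.2.1 := by
  rw [← LL_cls]
  simp only [← LL_one]
  unfold all LP
  rw [funext_iff]
  constructor
  · intro hh
    refine ⟨hh ⟨∅, pth0⟩, fun i => hh ⟨{i}, ?_⟩⟩
    unfold pth
    rw [Finset.card_singleton]
  · rintro ⟨h1, h2⟩ ⟨I, hI⟩
    show LL (Um v s) I a = LL (Um v s) I b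
    unfold pth at hI
    rcases Finset.eq_empty_or_nonempty I with h3 | h3
    · rw [h3]; exact h1
    · obtain ⟨i, hi⟩ := Finset.card_eq_one.1 (le_antisymm hI (Finset.card_pos.2 h3))
      rw [hi]; exact h2 i

theorem all_pj {s : ℕ} {i k j : Fin 3} (hik : i ≠ k) (hij : i ≠ j) (hkj : k ≠ j) {a b : Pt (Fin 3) X β φ} :
    all (LP (pj j) (LL (Um v s))) a = all (LP (pj j) (LL (Um v s))) b ↔
    Um v s ∅ a.1 a.2.1 = Um v s ∅ b.1 b.2.1 ∧ Um v s {i} a.1 a.2.1 = Um v s {i} b.1 b.2.1 ∧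
      Um v s {k} a.1 a.2.1 = Um v s {k} b.1 b.2.1 := by
  have he : (univ.erase j : Finset (Fin 3)) = {i, k} := by
    ext x
    simp only [Finset.mem_erase, Finset.mem_univ, and_true, Finset.mem_insert, Finset.mem_singleton]
    revert hik hij hkj
    revert i k j x
    decide
  rw [← LL_cls, ← LL_one, ← LL_one]
  unfold all LP
  rw [funext_iff]
  have hp : ∀ x : Fin 3, x = i ∨ x = k → pj j ({x} : Finset (Fin 3)) := by
    intro x hx
    unfold pj
    rw [Finset.ssubset_iff_subset_ne]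
    refine ⟨?_, (er3 j x).symm⟩
    rw [he, Finset.singleton_subset_iff, Finset.mem_insert, Finset.mem_singleton]
    exact hx
  constructor
  · intro hh
    refine ⟨hh ⟨∅, ?_⟩, hh ⟨{i}, hp i (Or.inl rfl)⟩, hh ⟨{k}, hp k (Or.inr rfl)⟩⟩
    unfold pj
    rw [Finset.ssubset_iff_subset_ne]
    exact ⟨Finset.empty_subset _, (er0 j).symm⟩
  · rintro ⟨h1, h2, h3⟩ ⟨I, hI⟩
    show LL (Um v s) I a = LL (Um v s) I b
    unfold pj at hI
    have hc : I.card ≤ 1 := by
      have h4 := Finset.card_lt_card hI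
      rw [Finset.card_erase_of_mem (mem_univ j), Finset.card_univ, Fintype.card_fin] at h4
      omega
    rcases Finset.eq_empty_or_nonempty I with h4 | h4
    · rw [h4]; exact h1
    · obtain ⟨x, hx⟩ := Finset.card_eq_one.1 (le_antisymm hc (Finset.card_pos.2 h4))
      have h5 : x ∈ ({i, k} : Finset (Fin 3)) := by
        rw [← he]
        exact hI.subset (by rw [hx]; exact Finset.mem_singleton_self x)
      rw [hx]
      rcases Finset.mem_insert.1 h5 with h6 | h6
      · rw [h6]; exact h2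
      · rw [Finset.mem_singleton.1 h6]; exact h3

theorem erj {i k j : Fin 3} (hik : i ≠ k) (hij : i ≠ j) (hkj : k ≠ j) : (univ.erase j : Finset (Fin 3)) = {i, k} := by
  ext x
  simp only [Finset.mem_erase, Finset.mem_univ, and_true, Finset.mem_insert, Finset.mem_singleton]
  revert hik hij hkj
  revert i k j x
  decide

theorem sum_th3 (f : Finset (Fin 3) → ℝ) :
    ∑ J ∈ univ.filter (fun J : Finset (Fin 3) => pth J ∧ ¬ pcl J), f J = f {0} + f {1} + f {2} := by
  rw [← Fin.sum_univ_three (fun i => f {i})]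
  refine (Finset.sum_bij (fun i _ => {i}) ?_ ?_ ?_ (fun _ _ => rfl)).symm
  · intro i _
    refine Finset.mem_filter.2 ⟨mem_univ _, ?_, Finset.singleton_ne_empty i⟩
    unfold pth
    rw [Finset.card_singleton]
  · intro i _ j _ hij
    exact Finset.singleton_injective hij
  · intro J hJ
    obtain ⟨_, h1, h2⟩ := Finset.mem_filter.1 hJ
    unfold pth at h1
    have h3 := Finset.card_pos.2 (Finset.nonempty_iff_ne_empty.2 h2)
    obtain ⟨i, hi⟩ := Finset.card_eq_one.1 (le_antisymm h1 h3)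
    exact ⟨i, mem_univ i, hi.symm⟩

theorem sum_pj3 {i k j : Fin 3} (hik : i ≠ k) (hij : i ≠ j) (hkj : k ≠ j) (f : Finset (Fin 3) → ℝ) :
    ∑ J ∈ univ.filter (fun J : Finset (Fin 3) => pj j J ∧ ¬ pcl J), f J = f {i} + f {k} := by
  have he := erj hik hij hkj
  have h0 : f {i} + f {k} = ∑ x ∈ ({i, k} : Finset (Fin 3)), f {x} := by
    rw [Finset.sum_pair hik]
  rw [h0, ← he]
  refine (Finset.sum_bij (fun x _ => {x}) ?_ ?_ ?_ (fun _ _ => rfl)).symm
  · intro x hx
    refine Finset.mem_filter.2 ⟨mem_univ _, ?_, Finset.singleton_ne_empty x⟩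
    unfold pj
    rw [Finset.ssubset_iff_subset_ne]
    exact ⟨Finset.singleton_subset_iff.2 hx, (er3 j x).symm⟩
  · intro x _ y _ hxy
    exact Finset.singleton_injective hxy
  · intro J hJ
    obtain ⟨_, h1, h2⟩ := Finset.mem_filter.1 hJ
    unfold pj at h1
    have h4 := Finset.card_lt_card h1
    rw [Finset.card_erase_of_mem (mem_univ j), Finset.card_univ, Fintype.card_fin] at h4
    have h3 := Finset.card_pos.2 (Finset.nonempty_iff_ne_empty.2 h2)
    obtain ⟨x, hx⟩ := Finset.card_eq_one.1 (le_antisymm (by omega) h3)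
    refine ⟨x, h1.subset (by rw [hx]; exact Finset.mem_singleton_self x), hx.symm⟩

variable {t s n : ℕ}

theorem NP_eq {a b : Pt (Fin 3) X β φ} : NP D v s n a = NP D v s n b ↔
    Um v s ∅ a.1 a.2.1 = Um v s ∅ b.1 b.2.1 ∧ nd D n a = nd D n b := by
  unfold NP
  exact Prod.mk.injEq _ _ _ _ ▸ Iff.rfl

theorem XL_eq {i : Fin 3} {a b : Pt (Fin 3) X β φ} : XL v s i a = XL v s i b ↔
    a.2.1 i = b.2.1 i ∧ Um v s {i} a.1 a.2.1 = Um v s {i} b.1 b.2.1 := by
  unfold XL
  exact Prod.mk.injEq _ _ _ _ ▸ Iff.rfl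

theorem nd_eq {a b : Pt (Fin 3) X β φ} : nd D n a = nd D n b ↔
    D.qa n a.1 = D.qa n b.1 ∧ ∀ j, D.qb n (a.2.1 j) = D.qb n (b.2.1 j) := by
  unfold nd
  rw [Prod.mk.injEq, funext_iff]

theorem WW_nd {a b : Pt (Fin 3) X β φ} : WW D n a = WW D n b ↔ a.2.1 = b.2.1 ∧ nd D n a = nd D n b := by
  unfold WW
  exact Prod.mk.injEq _ _ _ _ ▸ Iff.rfl

/-- mass of the class -/
theorem m_cls (hv : Codes D v) (htn : t ≤ n) (hsn : s ≤ n + 1) (w : Pt (Fin 3) X β φ) :
    (D.P h t).m (fun u => (Um v s ∅ u.1 u.2.1, WW D n u)) w = (D.P h t).m (NP D v s n) w / nY D n ∅ w.2.1 := by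
  rw [m_base h (J := ∅) htn (R := fun u : Pt (Fin 3) X β φ => Um v s ∅ u.1 u.2.1)
    (fun a b hab => Um_AA hv hsn (Finset.Subset.refl _) hab) w]
  congr 1
  refine (D.P h t).m_congr ?_ ?_ w
  · intro a b hab
    have h1 : Um v s ∅ a.1 a.2.1 = Um v s ∅ b.1 b.2.1 := congrArg Prod.fst hab
    have h2 : BB D n ∅ a = BB D n ∅ b := congrArg Prod.snd hab
    exact NP_eq.2 ⟨h1, (BB_yJ.1 h2).2⟩
  · intro a b hab
    rw [NP_eq] at hab
    refine Prod.ext hab.1 (BB_yJ.2 ⟨?_, hab.2⟩)
    rw [yJ_eq]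
    exact fun j hj => absurd hj (Finset.notMem_empty j)

/-- mass of the class and one thin label -/
theorem m_one (hv : Codes D v) (htn : t ≤ n) (hsn : s ≤ n + 1) (i : Fin 3) (w : Pt (Fin 3) X β φ) :
    (D.P h t).m (fun u => ((Um v s {i} u.1 u.2.1, Um v s ∅ u.1 u.2.1), WW D n u)) w =
      (D.P h t).m (fun u => (XL v s i u, NP D v s n u)) w / nY D n {i} w.2.1 := by
  rw [m_base h (J := {i}) htn (R := fun u : Pt (Fin 3) X β φ => (Um v s {i} u.1 u.2.1, Um v s ∅ u.1 u.2.1))
    (fun a b hab => Prod.ext (Um_AA hv hsn (Finset.Subset.refl _) hab) (Um_AA hv hsn (Finset.empty_subset _) hab)) w]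
  congr 1
  refine (D.P h t).m_congr ?_ ?_ w
  · intro a b hab
    have h1 := congrArg Prod.fst hab
    have h2 : BB D n {i} a = BB D n {i} b := congrArg Prod.snd hab
    have h3 : Um v s {i} a.1 a.2.1 = Um v s {i} b.1 b.2.1 := congrArg Prod.fst h1
    have h4 : Um v s ∅ a.1 a.2.1 = Um v s ∅ b.1 b.2.1 := congrArg Prod.snd h1
    have h5 := (BB_eq.1 h2).1 i (Finset.mem_singleton_self i)
    exact Prod.ext (XL_eq.2 ⟨h5, h3⟩) (NP_eq.2 ⟨h4, (BB_yJ.1 h2).2⟩)
  · intro a b hab
    have h1 : XL v s i a = XL v s i b := congrArg Prod.fst hab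
    have h2 : NP D v s n a = NP D v s n b := congrArg Prod.snd hab
    rw [XL_eq] at h1
    rw [NP_eq] at h2
    refine Prod.ext (Prod.ext h1.2 h2.1) (BB_yJ.2 ⟨?_, h2.2⟩)
    rw [yJ_eq]
    intro j hj
    rw [Finset.mem_singleton.1 hj]
    exact h1.1

/-- mass of the class and two thin labels -/
theorem m_two (hv : Codes D v) (htn : t ≤ n) (hsn : s ≤ n + 1) (i k : Fin 3) (w : Pt (Fin 3) X β φ) :
    (D.P h t).m (fun u => ((Um v s {i} u.1 u.2.1, Um v s {k} u.1 u.2.1, Um v s ∅ u.1 u.2.1), WW D n u)) w =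
      (D.P h t).m (fun u => (XL v s i u, XL v s k u, (), NP D v s n u)) w / nY D n {i, k} w.2.1 := by
  have hi : ({i} : Finset (Fin 3)) ⊆ {i, k} := Finset.singleton_subset_iff.2 (Finset.mem_insert_self i _)
  have hk : ({k} : Finset (Fin 3)) ⊆ {i, k} :=
    Finset.singleton_subset_iff.2 (Finset.mem_insert_of_mem (Finset.mem_singleton_self k))
  rw [m_base h (J := {i, k}) htn
    (R := fun u : Pt (Fin 3) X β φ => (Um v s {i} u.1 u.2.1, Um v s {k} u.1 u.2.1, Um v s ∅ u.1 u.2.1))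
    (fun a b hab => Prod.ext (Um_AA hv hsn hi hab) (Prod.ext (Um_AA hv hsn hk hab)
      (Um_AA hv hsn (Finset.empty_subset _) hab))) w]
  congr 1
  refine (D.P h t).m_congr ?_ ?_ w
  · intro a b hab
    have h1 := congrArg Prod.fst hab
    have h2 : BB D n {i, k} a = BB D n {i, k} b := congrArg Prod.snd hab
    have h3 : Um v s {i} a.1 a.2.1 = Um v s {i} b.1 b.2.1 := congrArg Prod.fst h1
    have h4 : Um v s {k} a.1 a.2.1 = Um v s {k} b.1 b.2.1 := congrArg (fun p => p.2.1) h1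
    have h5 : Um v s ∅ a.1 a.2.1 = Um v s ∅ b.1 b.2.1 := congrArg (fun p => p.2.2) h1
    have h6 := (BB_eq.1 h2).1
    exact Prod.ext (XL_eq.2 ⟨h6 i (hi (Finset.mem_singleton_self i)), h3⟩)
      (Prod.ext (XL_eq.2 ⟨h6 k (hk (Finset.mem_singleton_self k)), h4⟩) (Prod.ext rfl (NP_eq.2 ⟨h5, (BB_yJ.1 h2).2⟩)))
  · intro a b hab
    have h1 : XL v s i a = XL v s i b := congrArg Prod.fst hab
    have h3 : XL v s k a = XL v s k b := congrArg (fun p => p.2.1) hab
    have h2 : NP D v s n a = NP D v s n b := congrArg (fun p => p.2.2.2) hab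
    rw [XL_eq] at h1 h3
    rw [NP_eq] at h2
    refine Prod.ext (Prod.ext h1.2 (Prod.ext h3.2 h2.1)) (BB_yJ.2 ⟨?_, h2.2⟩)
    rw [yJ_eq]
    intro j hj
    rcases Finset.mem_insert.1 hj with h4 | h4
    · rw [h4]; exact h1.1
    · rw [Finset.mem_singleton.1 h4]; exact h3.1

/-- **(A)** thin labels over the class = density of the three letters in the public cell -/
theorem iR_thin (hv : Codes D v) {t s n : ℕ} (htn : t ≤ n) (hsn : s ≤ n + 1) {w : Pt (Fin 3) X β φ}
    (hw : (D.P h t).p w ≠ 0) : iR (D.P h t) pth pcl (LL (Um v s)) (WW D n) w = Real.log (DL h v t s n w) := by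
  set P := D.P h t with hP
  have e1 : ∀ i : Fin 3, P.m (fun w => (lo (LL (Um v s)) {i} w, WW D n w)) w = P.m (NP D v s n) w / nY D n ∅ w.2.1 := by
    intro i
    rw [← m_cls h hv htn hsn w]
    refine P.m_congr ?_ ?_ w
    · intro a b hab
      have h9 : WW D n a = WW D n b := congrArg Prod.snd hab
      exact Prod.ext (lo_one.1 (congrArg Prod.fst hab)) h9
    · intro a b hab
      have h9 : WW D n a = WW D n b := congrArg Prod.snd hab
      exact Prod.ext (lo_one.2 (congrArg Prod.fst hab)) h9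
  have e2 : ∀ i : Fin 3, P.m (fun u => (LL (Um v s) {i} u, lo (LL (Um v s)) {i} u, WW D n u)) w =
      P.m (fun u => (XL v s i u, NP D v s n u)) w / nY D n {i} w.2.1 := by
    intro i
    rw [← m_one h hv htn hsn i w]
    refine P.m_congr ?_ ?_ w
    · intro a b hab
      exact Prod.ext (Prod.ext (LL_one.1 (congrArg Prod.fst hab)) (lo_one.1 (congrArg (fun p => p.2.1) hab)))
        (congrArg (fun p => p.2.2) hab)
    · intro a b hab
      have h1 := congrArg Prod.fst hab
      have h9 : WW D n a = WW D n b := congrArg Prod.snd hab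
      exact Prod.ext (LL_one.2 (congrArg Prod.fst h1)) (Prod.ext (lo_one.2 (congrArg Prod.snd h1)) h9)
  have e3 : P.m (fun u => (all (LP pcl (LL (Um v s))) u, WW D n u)) w = P.m (NP D v s n) w / nY D n ∅ w.2.1 := by
    rw [← m_cls h hv htn hsn w]
    refine P.m_congr ?_ ?_ w
    · intro a b hab
      have h9 : WW D n a = WW D n b := congrArg Prod.snd hab
      exact Prod.ext (all_cls.1 (congrArg Prod.fst hab)) h9
    · intro a b hab
      have h9 : WW D n a = WW D n b := congrArg Prod.snd hab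
      exact Prod.ext (all_cls.2 (congrArg Prod.fst hab)) h9
  have e4 : P.m (fun u => (all (LP pth (LL (Um v s))) u, all (LP pcl (LL (Um v s))) u, WW D n u)) w =
      P.m (fun u => (XL v s 0 u, XL v s 1 u, XL v s 2 u, NP D v s n u)) w := by
    refine P.m_congr ?_ ?_ w
    · intro a b hab
      have h1 := all_th.1 (congrArg Prod.fst hab)
      have h2 : WW D n a = WW D n b := congrArg (fun p => p.2.2) hab
      rw [WW_nd] at h2
      exact Prod.ext (XL_eq.2 ⟨congrFun h2.1 0, h1.2 0⟩) (Prod.ext (XL_eq.2 ⟨congrFun h2.1 1, h1.2 1⟩)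
        (Prod.ext (XL_eq.2 ⟨congrFun h2.1 2, h1.2 2⟩) (NP_eq.2 ⟨h1.1, h2.2⟩)))
    · intro a b hab
      have h0 : XL v s 0 a = XL v s 0 b := congrArg Prod.fst hab
      have h1 : XL v s 1 a = XL v s 1 b := congrArg (fun p => p.2.1) hab
      have h2 : XL v s 2 a = XL v s 2 b := congrArg (fun p => p.2.2.1) hab
      have h3 : NP D v s n a = NP D v s n b := congrArg (fun p => p.2.2.2) hab
      rw [XL_eq] at h0 h1 h2
      rw [NP_eq] at h3
      refine Prod.ext (all_th.2 ⟨h3.1, fun i => ?_⟩) (Prod.ext (all_cls.2 h3.1) (WW_nd.2 ⟨funext fun i => ?_, h3.2⟩))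
      · fin_cases i
        · exact h0.2
        · exact h1.2
        · exact h2.2
      · fin_cases i
        · exact h0.1
        · exact h1.1
        · exact h2.1
  have e5 : Real.log (DL h v t s n w) = Real.log (P.m (fun u => (XL v s 0 u, XL v s 1 u, XL v s 2 u, NP D v s n u)) w) +
      2 * Real.log (P.m (NP D v s n) w) - Real.log (P.m (fun u => (XL v s 0 u, NP D v s n u)) w) -
      Real.log (P.m (fun u => (XL v s 1 u, NP D v s n u)) w) - Real.log (P.m (fun u => (XL v s 2 u, NP D v s n u)) w) :=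
    log_D3_cell P (XL v s 0) (XL v s 1) (XL v s 2) (NP D v s n) hw
  have a := (P.m_pos (NP D v s n) hw).ne'
  have b : ∀ i, P.m (fun u => (XL v s i u, NP D v s n u)) w ≠ 0 := fun i => (P.m_pos _ hw).ne'
  have c : ∀ J, nY D n J w.2.1 ≠ 0 := fun J => (nY_pos n J w.2.1).ne'
  unfold iR sp
  rw [sum_th3, e1, e1, e1, e2, e2, e2, e3, e4, e5, Real.log_div a (c _), Real.log_div (b 0) (c _),
    Real.log_div (b 1) (c _), Real.log_div (b 2) (c _), log_nY, log_nY, log_nY, log_nY]
  simp only [Fin.sum_univ_three, Finset.notMem_empty, if_false, Finset.mem_singleton, if_true, Fin.isValue,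
    show (1 : Fin 3) ≠ 0 by decide, show (2 : Fin 3) ≠ 0 by decide, show (0 : Fin 3) ≠ 1 by decide,
    show (2 : Fin 3) ≠ 1 by decide, show (0 : Fin 3) ≠ 2 by decide, show (1 : Fin 3) ≠ 2 by decide]
  ring

/-- **(A')** the thin labels of two vertices over the class -/
theorem iR_pair (hv : Codes D v) {t s n : ℕ} (htn : t ≤ n) (hsn : s ≤ n + 1) {i k j : Fin 3} (hik : i ≠ k) (hij : i ≠ j)
    (hkj : k ≠ j) {w : Pt (Fin 3) X β φ} (hw : (D.P h t).p w ≠ 0) :
    iR (D.P h t) (pj j) pcl (LL (Um v s)) (WW D n) w = Real.log (DJ h v i k t s n w) := by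
  set P := D.P h t with hP
  have e1 : ∀ i : Fin 3, P.m (fun w => (lo (LL (Um v s)) {i} w, WW D n w)) w = P.m (NP D v s n) w / nY D n ∅ w.2.1 := by
    intro i
    rw [← m_cls h hv htn hsn w]
    refine P.m_congr ?_ ?_ w
    · intro a b hab
      have h9 : WW D n a = WW D n b := congrArg Prod.snd hab
      exact Prod.ext (lo_one.1 (congrArg Prod.fst hab)) h9
    · intro a b hab
      have h9 : WW D n a = WW D n b := congrArg Prod.snd hab
      exact Prod.ext (lo_one.2 (congrArg Prod.fst hab)) h9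
  have e2 : ∀ i : Fin 3, P.m (fun u => (LL (Um v s) {i} u, lo (LL (Um v s)) {i} u, WW D n u)) w =
      P.m (fun u => (XL v s i u, NP D v s n u)) w / nY D n {i} w.2.1 := by
    intro i
    rw [← m_one h hv htn hsn i w]
    refine P.m_congr ?_ ?_ w
    · intro a b hab
      exact Prod.ext (Prod.ext (LL_one.1 (congrArg Prod.fst hab)) (lo_one.1 (congrArg (fun p => p.2.1) hab)))
        (congrArg (fun p => p.2.2) hab)
    · intro a b hab
      have h1 := congrArg Prod.fst hab
      have h9 : WW D n a = WW D n b := congrArg Prod.snd hab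
      exact Prod.ext (LL_one.2 (congrArg Prod.fst h1)) (Prod.ext (lo_one.2 (congrArg Prod.snd h1)) h9)
  have e3 : P.m (fun u => (all (LP pcl (LL (Um v s))) u, WW D n u)) w = P.m (NP D v s n) w / nY D n ∅ w.2.1 := by
    rw [← m_cls h hv htn hsn w]
    refine P.m_congr ?_ ?_ w
    · intro a b hab
      have h9 : WW D n a = WW D n b := congrArg Prod.snd hab
      exact Prod.ext (all_cls.1 (congrArg Prod.fst hab)) h9
    · intro a b hab
      have h9 : WW D n a = WW D n b := congrArg Prod.snd hab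
      exact Prod.ext (all_cls.2 (congrArg Prod.fst hab)) h9
  have e4 : P.m (fun u => (all (LP (pj j) (LL (Um v s))) u, all (LP pcl (LL (Um v s))) u, WW D n u)) w =
      P.m (fun u => (XL v s i u, XL v s k u, (), NP D v s n u)) w / nY D n {i, k} w.2.1 := by
    rw [← m_two h hv htn hsn i k w]
    refine P.m_congr ?_ ?_ w
    · intro a b hab
      have h1 := (all_pj hik hij hkj).1 (congrArg Prod.fst hab)
      exact Prod.ext (Prod.ext h1.2.1 (Prod.ext h1.2.2 h1.1)) (congrArg (fun p => p.2.2) hab)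
    · intro a b hab
      have h1 := congrArg Prod.fst hab
      have h2 : Um v s {i} a.1 a.2.1 = Um v s {i} b.1 b.2.1 := congrArg Prod.fst h1
      have h3 : Um v s {k} a.1 a.2.1 = Um v s {k} b.1 b.2.1 := congrArg (fun p => p.2.1) h1
      have h4 : Um v s ∅ a.1 a.2.1 = Um v s ∅ b.1 b.2.1 := congrArg (fun p => p.2.2) h1
      have h9 : WW D n a = WW D n b := congrArg Prod.snd hab
      exact Prod.ext ((all_pj hik hij hkj).2 ⟨h4, h2, h3⟩) (Prod.ext (all_cls.2 h4) h9)
  have e5 : Real.log (DJ h v i k t s n w) = Real.log (P.m (fun u => (XL v s i u, XL v s k u, (), NP D v s n u)) w) +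
      2 * Real.log (P.m (NP D v s n) w) - Real.log (P.m (fun u => (XL v s i u, NP D v s n u)) w) -
      Real.log (P.m (fun u => (XL v s k u, NP D v s n u)) w) - Real.log (P.m (fun u => ((), NP D v s n u)) w) :=
    log_D3_cell P (XL v s i) (XL v s k) (fun _ => ()) (NP D v s n) hw
  have e6 : P.m (fun u => ((), NP D v s n u)) w = P.m (NP D v s n) w := by
    refine P.m_congr ?_ ?_ w
    · intro a b hab; exact congrArg Prod.snd hab
    · intro a b hab; exact Prod.ext rfl hab
  have a := (P.m_pos (NP D v s n) hw).ne'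
  have b : ∀ i, P.m (fun u => (XL v s i u, NP D v s n u)) w ≠ 0 := fun i => (P.m_pos _ hw).ne'
  have b2 : P.m (fun u => (XL v s i u, XL v s k u, (), NP D v s n u)) w ≠ 0 := (P.m_pos _ hw).ne'
  have c : ∀ J, nY D n J w.2.1 ≠ 0 := fun J => (nY_pos n J w.2.1).ne'
  have e7 : Real.log (nY D n {i} w.2.1) + Real.log (nY D n {k} w.2.1) =
      Real.log (nY D n ∅ w.2.1) + Real.log (nY D n {i, k} w.2.1) := by
    rw [log_nY, log_nY, log_nY, log_nY, ← Finset.sum_add_distrib, ← Finset.sum_add_distrib]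
    refine Finset.sum_congr rfl fun x _ => ?_
    simp only [Finset.notMem_empty, if_false, Finset.mem_singleton, Finset.mem_insert]
    by_cases h1 : x = i
    · have h2 : x ≠ k := fun hh => hik (h1.symm.trans hh)
      simp only [h1, hik, if_true, if_false, true_or]
      ring
    · by_cases h2 : x = k
      · simp only [h2, hik.symm, if_true, if_false, or_true]
      · simp only [h1, h2, if_false, or_self]
  unfold iR sp
  rw [sum_pj3 hik hij hkj, e1, e1, e2, e2, e3, e4, e5, e6, Real.log_div a (c _), Real.log_div (b i) (c _),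
    Real.log_div (b k) (c _), Real.log_div b2 (c _)]
  linarith

/-! ## the loss of the process -/

/-- child for the public code, as a cell of `(code, information)` -/
theorem Pc_code (t : ℕ) (w : Pt (Fin 3) X β φ) :
    ((D.P h t).cond fun u => (Vt v (t + 1) ∅ u, NP D v (t + 1) (t + 1) u) = (Vt v (t + 1) ∅ w, NP D v (t + 1) (t + 1) w)) =
      Pc h v t (t + 2) (t + 1) w := by
  unfold Pc
  congr 1
  funext u
  refine propext ⟨fun hh => ?_, fun hh => ?_⟩
  · have h1 : Vt v (t + 1) ∅ u = Vt v (t + 1) ∅ w := congrArg Prod.fst hh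
    have h2 : NP D v (t + 1) (t + 1) u = NP D v (t + 1) (t + 1) w := congrArg Prod.snd hh
    rw [NP_eq] at h2 ⊢
    exact ⟨Um_eq.2 ⟨h2.1, h1⟩, h2.2⟩
  · rw [NP_eq] at hh
    have h1 := Um_eq.1 hh.1
    exact Prod.ext h1.2 (NP_eq.2 ⟨h1.1, hh.2⟩)

/-- **(B)** the cell after the additions = the child of the cell for the public code -/
theorem Pc_child {t : ℕ} {w : Pt (Fin 3) X β φ} (hw : (D.P h t).p w ≠ 0) :
    (Pc h v t (t + 1) (t + 1) w).cond (fun u => Vt v (t + 1) ∅ u = Vt v (t + 1) ∅ w) = Pc h v t (t + 2) (t + 1) w := by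
  rw [← Pc_code h t w]
  exact cell_child (D.P h t) (NP D v (t + 1) (t + 1)) (Vt v (t + 1) ∅) hw rfl

theorem XL_old (t : ℕ) (i : Fin 3) : Fac (XL (φ := φ) v (t + 2) i) (XL v (t + 1) i) := by
  intro a b hab
  rw [XL_eq] at hab ⊢
  exact ⟨hab.1, (Um_eq.1 hab.2).1⟩

/-- **(C)** the density after all additions is at least the density of the old letters in the child, on an alive set which is
a function of the old letters, of the public information and of the public code -/
theorem loss_priv (_hv : Codes D v) {t : ℕ} {a' : Pt (Fin 3) X β φ → Prop}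
    (ha : ∀ a b, (NP D v (t + 1) (t + 1) a, Vt v (t + 1) ∅ a, fun i => XL v (t + 1) i a) =
      (NP D v (t + 1) (t + 1) b, Vt v (t + 1) ∅ b, fun i => XL v (t + 1) i b) → (a' a ↔ a' b)) :
    (D.P h t).E (fun w => ind (a' w) * Real.log (D3 (Pc h v t (t + 2) (t + 1) w) (XL v (t + 1) 0) (XL v (t + 1) 1)
      (XL v (t + 1) 2) (XL v (t + 1) 0 w) (XL v (t + 1) 1 w) (XL v (t + 1) 2 w))) ≤
    (D.P h t).E (fun w => ind (a' w) * Real.log (DL h v t (t + 2) (t + 1) w)) := by
  have h1 := priv_cells (D.P h t) (N := NP D v (t + 1) (t + 1)) (V := Vt v (t + 1) ∅) (XL_old t 0) (XL_old (v := v) t 1)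
    (XL_old t 2) (al := a') (by
    intro a b hab
    simp only [Prod.mk.injEq] at hab
    refine ha a b ?_
    refine Prod.ext hab.1 (Prod.ext hab.2.1 (funext fun i => ?_))
    fin_cases i
    · exact hab.2.2.1
    · exact hab.2.2.2.1
    · exact hab.2.2.2.2)
  simp only [Pc_code] at h1
  exact h1

/-- **(D) THE LOSS OF THE THIN LEVEL**, three vertices; `e` = bound of the dead masses in alive cells -/
theorem lossV (hv : Codes D v) {t : ℕ} {pub : Pt (Fin 3) X β φ → Prop} {TT : Fin 3 → Pt (Fin 3) X β φ → Prop}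
    (hA : Alv D v (t + 1) (t + 1) pub TT) {B eta τ e : ℝ} (hB : Real.exp 2 ≤ B) (he0 : 0 ≤ eta) (he1 : eta ≤ 1)
    (ht0 : 0 ≤ τ) (ht1 : τ ≤ 1) (hee : 0 ≤ e)
    (G : ∀ w, (D.P h t).p w ≠ 0 → pub w → Good3 (Pc h v t (t + 1) (t + 1) w) (XL v (t + 1) 0) (XL v (t + 1) 1)
      (XL v (t + 1) 2) (TL D v (t + 1) (t + 1) 0 (TT 0) w) (TL D v (t + 1) (t + 1) 1 (TT 1) w)
      (TL D v (t + 1) (t + 1) 2 (TT 2) w) τ)
    (hd : ∀ w, (D.P h t).p w ≠ 0 → pub w → ∀ i, (Pc h v t (t + 1) (t + 1) w).Pr (fun u => ¬ TT i u) ≤ e) :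
    (D.P h t).E (fun w => ind (pub w ∧ ∀ i, TT i w) *
      (iR (D.P h t) pth pcl (LL (Um v (t + 1))) (WW D (t + 1)) w -
        iR (D.P h t) pth pcl (LL (Um v (t + 2))) (WW D (t + 1)) w)) ≤
    (D.P h t).E (fun w => ind (pub w ∧ ∀ i, TT i w) *
      gL h v (Vt v (t + 1) ∅) B eta t (t + 1) (t + 1) (Vt v (t + 1) ∅ w) w) +
    (1000 * B ^ 3 * (Real.sqrt τ + eta) + 4 * e) * KV h v (Vt v (t + 1) ∅) t (t + 1) (t + 1) +
    6 * (D.P h t).Pr (fun w => pub w ∧ Bch h v (Vt v (t + 1) ∅) TT e t (t + 1) (t + 1) w) := by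
  set P := D.P h t with hP
  have hall : ∀ w : Pt (Fin 3) X β φ, (pub w ∧ ∀ i, TT i w) ↔ (pub w ∧ TT 0 w ∧ TT 1 w ∧ TT 2 w) := by
    intro w
    refine and_congr_right fun _ => ⟨fun hh => ⟨hh 0, hh 1, hh 2⟩, fun hh i => ?_⟩
    fin_cases i
    · exact hh.1
    · exact hh.2.1
    · exact hh.2.2
  have L := loss_cells P (N := NP D v (t + 1) (t + 1)) (V := Vt v (t + 1) ∅) (X := XL v (t + 1) 0) (Y := XL v (t + 1) 1)
    (Z := XL v (t + 1) 2) (pub := pub) (T1 := TT 0) (T2 := TT 1) (T3 := TT 2) hA.fp (hA.ft 0) (hA.ft 1) (hA.ft 2)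
    hB he0 he1 ht0 ht1 hee G (fun w hw hp => ⟨hd w hw hp 0, hd w hw hp 1, hd w hw hp 2⟩)
  have C := loss_priv h hv (t := t) (a' := fun w => pub w ∧ ∀ i, TT i w) (by
    intro a b hab
    have h1 : NP D v (t + 1) (t + 1) a = NP D v (t + 1) (t + 1) b := congrArg Prod.fst hab
    have h2 : (fun i => XL v (t + 1) i a) = fun i => XL v (t + 1) i b := congrArg (fun p => p.2.2) hab
    refine and_congr (hA.fp a b h1) (forall_congr' fun i => hA.ft i a b (Prod.ext h1 (congrFun h2 i))))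
  have e1 : P.E (fun w => ind (pub w ∧ ∀ i, TT i w) * (iR P pth pcl (LL (Um v (t + 1))) (WW D (t + 1)) w -
        iR P pth pcl (LL (Um v (t + 2))) (WW D (t + 1)) w)) =
      P.E (fun w => ind (pub w ∧ TT 0 w ∧ TT 1 w ∧ TT 2 w) *
      (Real.log (D3 (P.cond fun u => NP D v (t + 1) (t + 1) u = NP D v (t + 1) (t + 1) w) (XL v (t + 1) 0)
        (XL v (t + 1) 1) (XL v (t + 1) 2) (XL v (t + 1) 0 w) (XL v (t + 1) 1 w) (XL v (t + 1) 2 w)) -
        Real.log (D3 (P.cond fun u => (Vt v (t + 1) ∅ u, NP D v (t + 1) (t + 1) u) =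
          (Vt v (t + 1) ∅ w, NP D v (t + 1) (t + 1) w)) (XL v (t + 1) 0)
        (XL v (t + 1) 1) (XL v (t + 1) 2) (XL v (t + 1) 0 w) (XL v (t + 1) 1 w) (XL v (t + 1) 2 w)))) +
      P.E (fun w => ind (pub w ∧ ∀ i, TT i w) * Real.log (D3 (Pc h v t (t + 2) (t + 1) w) (XL v (t + 1) 0)
        (XL v (t + 1) 1) (XL v (t + 1) 2) (XL v (t + 1) 0 w) (XL v (t + 1) 1 w) (XL v (t + 1) 2 w))) -
      P.E (fun w => ind (pub w ∧ ∀ i, TT i w) * Real.log (DL h v t (t + 2) (t + 1) w)) := by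
    rw [← FP.E_add, ← FP.E_sub]
    refine P.E_congr fun w hw => ?_
    rw [iR_thin h hv (Nat.le_succ t) (le_refl _ |>.trans (Nat.le_succ _)) hw, iR_thin h hv (Nat.le_succ t) (le_refl _) hw,
      Pc_code h t w, ind_cg (hall w)]
    unfold DL Pc
    ring
  have e2 : P.E (fun w => ind (pub w ∧ TT 0 w ∧ TT 1 w ∧ TT 2 w) * gV (P.cond fun u => (Vt v (t + 1) ∅ u,
      NP D v (t + 1) (t + 1) u) = (Vt v (t + 1) ∅ w, NP D v (t + 1) (t + 1) w))
      (P.cond fun u => NP D v (t + 1) (t + 1) u = NP D v (t + 1) (t + 1) w) (XL v (t + 1) 0) (XL v (t + 1) 1)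
      (XL v (t + 1) 2) B eta (XL v (t + 1) 0 w) (XL v (t + 1) 1 w) (XL v (t + 1) 2 w)) =
      P.E (fun w => ind (pub w ∧ ∀ i, TT i w) *
      gL h v (Vt v (t + 1) ∅) B eta t (t + 1) (t + 1) (Vt v (t + 1) ∅ w) w) := by
    refine P.E_congr fun w hw => ?_
    unfold gL
    rw [Pc_child h hw, ind_cg (hall w), Pc_code h t w]
    rfl
  have e3 : P.Pr (fun w => pub w ∧ (e < (P.cond fun u => (Vt v (t + 1) ∅ u, NP D v (t + 1) (t + 1) u) =
      (Vt v (t + 1) ∅ w, NP D v (t + 1) (t + 1) w)).Pr (fun u => ¬ TT 0 u) ∨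
      e < (P.cond fun u => (Vt v (t + 1) ∅ u, NP D v (t + 1) (t + 1) u) =
      (Vt v (t + 1) ∅ w, NP D v (t + 1) (t + 1) w)).Pr (fun u => ¬ TT 1 u) ∨
      e < (P.cond fun u => (Vt v (t + 1) ∅ u, NP D v (t + 1) (t + 1) u) =
      (Vt v (t + 1) ∅ w, NP D v (t + 1) (t + 1) w)).Pr (fun u => ¬ TT 2 u))) =
      P.Pr (fun w => pub w ∧ Bch h v (Vt v (t + 1) ∅) TT e t (t + 1) (t + 1) w) := by
    refine P.E_congr fun w hw => ind_cg (and_congr_right fun _ => ?_)
    unfold Bch
    rw [Pc_child h hw, Pc_code h t w]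
    constructor
    · rintro (h1 | h1 | h1)
      · exact ⟨0, h1⟩
      · exact ⟨1, h1⟩
      · exact ⟨2, h1⟩
    · rintro ⟨i, hi⟩
      fin_cases i
      · exact Or.inl hi
      · exact Or.inr (Or.inl hi)
      · exact Or.inr (Or.inr hi)
  have e4 : P.I (XL v (t + 1) 0) (Vt v (t + 1) ∅) (NP D v (t + 1) (t + 1)) +
      P.I (XL v (t + 1) 1) (Vt v (t + 1) ∅) (NP D v (t + 1) (t + 1)) +
      P.I (XL v (t + 1) 2) (Vt v (t + 1) ∅) (NP D v (t + 1) (t + 1)) = KV h v (Vt v (t + 1) ∅) t (t + 1) (t + 1) := by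
    unfold KV
    rw [Fin.sum_univ_three]
  rw [e2, e3, e4] at L
  rw [e1]
  linarith

end thin

/-! ## two vertices -/

section two

variable {Om : Type*} [Fintype Om] {P : FP Om} {κ ι : Type*} {X : Om → κ} {Y : Om → ι}

theorem lw_unit (z : Unit) : lw P (fun _ => ()) z = 1 := by
  unfold lw
  rw [← P.E_const 1]
  exact P.E_congr fun w _ => ind_of rfl

theorem lw2_unit (x : κ) (z : Unit) : lw2 P X (fun _ => ()) x z = lw P X x := by
  unfold lw2 lw
  exact P.E_congr fun w _ => by rw [ind_of (show () = z from rfl), mul_one]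

theorem lw2_unit' (x : κ) (z : Unit) : lw2 P (fun _ => ()) X z x = lw P X x := by
  unfold lw2 lw
  exact P.E_congr fun w _ => by rw [ind_of (show () = z from rfl), one_mul]

theorem lw3_unit (x : κ) (y : ι) (z : Unit) : lw3 P X Y (fun _ => ()) x y z = lw2 P X Y x y := by
  unfold lw3 lw2
  exact P.E_congr fun w _ => by rw [ind_of (show () = z from rfl), mul_one]

/-- the rows of a pair and a trivial letter -/
theorem good_unit {TX : κ → Prop} {TY : ι → Prop} {TZ : Unit → Prop} {τ : ℝ} (hτ : 0 ≤ τ)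
    (hxy : ∀ x, TX x → rowd P X Y x ≤ τ * lw P X x) (hyx : ∀ y, TY y → rowd P Y X y ≤ τ * lw P Y y) :
    Good3 P X Y (fun _ => ()) TX TY TZ τ where
  xy := hxy
  xz x _ := by
    have e : rowd P X (fun _ => ()) x = 0 := by
      unfold rowd
      exact Finset.sum_eq_zero fun z _ => by rw [lw2_unit, lw_unit, mul_one, sub_self, abs_zero]
    rw [e]
    exact mul_nonneg hτ (lw_nonneg P X x)
  yx := hyx
  yz y _ := by
    have e : rowd P Y (fun _ => ()) y = 0 := by
      unfold rowd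
      exact Finset.sum_eq_zero fun z _ => by rw [lw2_unit, lw_unit, mul_one, sub_self, abs_zero]
    rw [e]
    exact mul_nonneg hτ (lw_nonneg P Y y)
  zx z _ := by
    have e : rowd P (fun _ => ()) X z = 0 := by
      unfold rowd
      exact Finset.sum_eq_zero fun x _ => by rw [lw2_unit', lw_unit, one_mul, sub_self, abs_zero]
    rw [e]
    exact mul_nonneg hτ (lw_nonneg P _ z)
  zy z _ := by
    have e : rowd P (fun _ => ()) Y z = 0 := by
      unfold rowd
      exact Finset.sum_eq_zero fun x _ => by rw [lw2_unit', lw_unit, one_mul, sub_self, abs_zero]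
    rw [e]
    exact mul_nonneg hτ (lw_nonneg P _ z)
  xyz x y _ _ := by
    left
    have e : ∑ z ∈ vals (fun _ : Om => ()), |lw3 P X Y (fun _ => ()) x y z - lw2 P X Y x y * lw P (fun _ => ()) z| = 0 :=
      Finset.sum_eq_zero fun z _ => by rw [lw3_unit, lw_unit, mul_one, sub_self, abs_zero]
    rw [e]
    exact mul_nonneg hτ (lw2_nonneg P X Y x y)
  xzy x z hx _ := by
    left
    rw [lw2_unit]
    refine le_trans (le_of_eq ?_) (hxy x hx)
    unfold rowd
    exact Finset.sum_congr rfl fun y _ => by rw [lw3_unit]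
  yzx y z hy _ := by
    left
    rw [lw2_unit]
    refine le_trans (le_of_eq ?_) (hyx y hy)
    unfold rowd
    exact Finset.sum_congr rfl fun x _ => by rw [lw3_unit, lw2_swap, mul_comm]

theorem I_unit {ν μ : Type*} (V : Om → ν) (N : Om → μ) : P.I (fun _ => ()) V N = 0 := by
  have h1 : P.I (fun _ : Om => ()) V N ≤ 0 := by
    rw [FP.I_eq_Hc]
    have h2 := P.Hc_le_H (fun _ : Om => ()) N
    have h3 := P.Hc_nonneg (fun _ : Om => ()) (fun w => (V w, N w))
    have h4 := P.H_const (κ := Unit) ()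
    linarith
  exact le_antisymm h1 (P.I_nonneg _ _ _)

end two

section thin2

variable {X β γ φ υ : Type} [Fintype X] [Fintype β] [Fintype φ] [Nonempty X] [Nonempty β]
variable {D : HD (Fin 3) X β γ φ} {al : ℝ} (h : D.Thick al) {v : ℕ → Finset (Fin 3) → X → (Fin 3 → β) → υ}

/-- **(D') THE LOSS OF THE THIN LEVEL**, the vertices `i`, `k` -/
theorem lossVj (hv : Codes D v) {t : ℕ} {i k j : Fin 3} (hik : i ≠ k) (hij : i ≠ j) (hkj : k ≠ j)
    {pub : Pt (Fin 3) X β φ → Prop} {TT : Fin 3 → Pt (Fin 3) X β φ → Prop}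
    (hA : Alv D v (t + 1) (t + 1) pub TT) {B eta τ e : ℝ} (hB : Real.exp 2 ≤ B) (he0 : 0 ≤ eta) (he1 : eta ≤ 1)
    (ht0 : 0 ≤ τ) (ht1 : τ ≤ 1) (hee : 0 ≤ e)
    (G : ∀ w, (D.P h t).p w ≠ 0 → pub w → Good3 (Pc h v t (t + 1) (t + 1) w) (XL v (t + 1) 0) (XL v (t + 1) 1)
      (XL v (t + 1) 2) (TL D v (t + 1) (t + 1) 0 (TT 0) w) (TL D v (t + 1) (t + 1) 1 (TT 1) w)
      (TL D v (t + 1) (t + 1) 2 (TT 2) w) τ)
    (hd : ∀ w, (D.P h t).p w ≠ 0 → pub w → ∀ i, (Pc h v t (t + 1) (t + 1) w).Pr (fun u => ¬ TT i u) ≤ e) :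
    (D.P h t).E (fun w => ind (pub w ∧ TT i w ∧ TT k w) *
      (iR (D.P h t) (pj j) pcl (LL (Um v (t + 1))) (WW D (t + 1)) w -
        iR (D.P h t) (pj j) pcl (LL (Um v (t + 2))) (WW D (t + 1)) w)) ≤
    (D.P h t).E (fun w => ind (pub w ∧ TT i w ∧ TT k w) *
      gJ h v i k (Vt v (t + 1) ∅) B eta t (t + 1) (t + 1) (Vt v (t + 1) ∅ w) w) +
    (1000 * B ^ 3 * (Real.sqrt τ + eta) + 4 * e) * KV h v (Vt v (t + 1) ∅) t (t + 1) (t + 1) +
    6 * (D.P h t).Pr (fun w => pub w ∧ Bch h v (Vt v (t + 1) ∅) TT e t (t + 1) (t + 1) w) := by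
  set P := D.P h t with hP
  set N := NP D v (t + 1) (t + 1) (φ := φ) with hN
  set V := Vt v (t + 1) ∅ (φ := φ) with hV
  have hall : ∀ w : Pt (Fin 3) X β φ, (pub w ∧ TT i w ∧ TT k w) ↔ (pub w ∧ TT i w ∧ TT k w ∧ True) := by
    intro w
    rw [and_true]
  -- rows
  have rows : ∀ w, P.p w ≠ 0 → pub w → ∀ a b : Fin 3, a ≠ b → ∀ x, TL D v (t + 1) (t + 1) a (TT a) w x →
      rowd (Pc h v t (t + 1) (t + 1) w) (XL v (t + 1) a) (XL v (t + 1) b) x ≤
        τ * lw (Pc h v t (t + 1) (t + 1) w) (XL v (t + 1) a) x := by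
    intro w hw hp a b hab x hx
    have g := G w hw hp
    fin_cases a <;> fin_cases b
    · exact absurd rfl hab
    · exact g.xy x hx
    · exact g.xz x hx
    · exact g.yx x hx
    · exact absurd rfl hab
    · exact g.yz x hx
    · exact g.zx x hx
    · exact g.zy x hx
    · exact absurd rfl hab
  have L := loss_cells P (N := N) (V := V) (X := XL v (t + 1) i) (Y := XL v (t + 1) k)
    (Z := fun _ => ()) (pub := pub) (T1 := TT i) (T2 := TT k) (T3 := fun _ => True) hA.fp (hA.ft i) (hA.ft k)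
    (fun _ _ _ => Iff.rfl) hB he0 he1 ht0 ht1 hee
    (fun w hw hp => good_unit ht0 (rows w hw hp i k hik) (rows w hw hp k i hik.symm))
    (fun w hw hp => ⟨hd w hw hp i, hd w hw hp k, by
      have : (P.cond fun u => N u = N w).Pr (fun _ => ¬ True) = 0 := by
        rw [← FP.E_const (P.cond fun u => N u = N w) 0]
        exact FP.E_congr _ fun u _ => ind_not fun hh => hh trivial
      rw [this]; exact hee⟩)
  have C := priv_cells P (N := N) (V := V) (XL_old (v := v) t i) (XL_old (v := v) t k)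
    (Z := fun _ => ()) (Z' := fun _ => ()) (Fac.refl _) (al := fun w => pub w ∧ TT i w ∧ TT k w) (by
    intro a b hab
    simp only [Prod.mk.injEq] at hab
    exact and_congr (hA.fp a b hab.1) (and_congr (hA.ft i a b (Prod.ext hab.1 hab.2.2.1))
      (hA.ft k a b (Prod.ext hab.1 hab.2.2.2.1))))
  have e1 : P.E (fun w => ind (pub w ∧ TT i w ∧ TT k w) * (iR P (pj j) pcl (LL (Um v (t + 1))) (WW D (t + 1)) w -
        iR P (pj j) pcl (LL (Um v (t + 2))) (WW D (t + 1)) w)) =
      P.E (fun w => ind (pub w ∧ TT i w ∧ TT k w ∧ True) *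
      (Real.log (D3 (P.cond fun u => N u = N w) (XL v (t + 1) i)
        (XL v (t + 1) k) (fun _ => ()) (XL v (t + 1) i w) (XL v (t + 1) k w) ()) -
        Real.log (D3 (P.cond fun u => (V u, N u) = (V w, N w)) (XL v (t + 1) i)
        (XL v (t + 1) k) (fun _ => ()) (XL v (t + 1) i w) (XL v (t + 1) k w) ()))) +
      P.E (fun w => ind (pub w ∧ TT i w ∧ TT k w) * Real.log (D3 (P.cond fun u => (V u, N u) = (V w, N w))
        (XL v (t + 1) i) (XL v (t + 1) k) (fun _ => ()) (XL v (t + 1) i w) (XL v (t + 1) k w) ())) -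
      P.E (fun w => ind (pub w ∧ TT i w ∧ TT k w) * Real.log (D3 (P.cond fun u => (V u, N u) = (V w, N w))
        (XL v (t + 2) i) (XL v (t + 2) k) (fun _ => ()) (XL v (t + 2) i w) (XL v (t + 2) k w) ())) := by
    rw [← FP.E_add, ← FP.E_sub]
    refine P.E_congr fun w hw => ?_
    rw [iR_pair h hv (Nat.le_succ t) (le_refl _ |>.trans (Nat.le_succ _)) hik hij hkj hw,
      iR_pair h hv (Nat.le_succ t) (le_refl _) hik hij hkj hw, Pc_code h t w, ind_cg (hall w)]
    unfold DJ Pc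
    ring
  have e2 : P.E (fun w => ind (pub w ∧ TT i w ∧ TT k w ∧ True) * gV (P.cond fun u => (V u, N u) = (V w, N w))
      (P.cond fun u => N u = N w) (XL v (t + 1) i) (XL v (t + 1) k) (fun _ => ()) B eta
      (XL v (t + 1) i w) (XL v (t + 1) k w) ()) =
      P.E (fun w => ind (pub w ∧ TT i w ∧ TT k w) *
      gJ h v i k V B eta t (t + 1) (t + 1) (V w) w) := by
    refine P.E_congr fun w hw => ?_
    unfold gJ
    rw [hV, Pc_child h hw, ind_cg (hall w), Pc_code h t w]
    rfl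
  have e3 : P.Pr (fun w => pub w ∧ (e < (P.cond fun u => (V u, N u) = (V w, N w)).Pr (fun u => ¬ TT i u) ∨
      e < (P.cond fun u => (V u, N u) = (V w, N w)).Pr (fun u => ¬ TT k u) ∨
      e < (P.cond fun u => (V u, N u) = (V w, N w)).Pr (fun _ => ¬ True))) ≤
      P.Pr (fun w => pub w ∧ Bch h v V TT e t (t + 1) (t + 1) w) := by
    refine P.Pr_mono fun w hw hh => ⟨hh.1, ?_⟩
    unfold Bch
    rw [hV, Pc_child h hw, ← Pc_code h t w]
    rcases hh.2 with h1 | h1 | h1
    · exact ⟨i, h1⟩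
    · exact ⟨k, h1⟩
    · exfalso
      have h2 : (P.cond fun u => (V u, N u) = (V w, N w)).Pr (fun _ => ¬ True) = 0 := by
        rw [← FP.E_const (P.cond fun u => (V u, N u) = (V w, N w)) 0]
        exact FP.E_congr _ fun u _ => ind_not fun hh => hh trivial
      rw [h2] at h1
      linarith
  have e4 : P.I (XL v (t + 1) i) V N + P.I (XL v (t + 1) k) V N + P.I (fun _ => ()) V N ≤
      KV h v V t (t + 1) (t + 1) := by
    rw [I_unit, add_zero]
    unfold KV
    have h1 : ∑ x ∈ ({i, k} : Finset (Fin 3)), P.I (XL v (t + 1) x) V N ≤ ∑ x, P.I (XL v (t + 1) x) V N :=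
      Finset.sum_le_sum_of_subset_of_nonneg (Finset.subset_univ _) fun x _ _ => P.I_nonneg _ _ _
    rw [Finset.sum_pair hik] at h1
    exact h1
  have hB0 : 0 ≤ B := (Real.exp_pos 2).le.trans hB
  have hc0 : 0 ≤ 1000 * B ^ 3 * (Real.sqrt τ + eta) + 4 * e := by positivity
  have e5 := mul_le_mul_of_nonneg_left e4 hc0
  rw [e2] at L
  rw [e1]
  linarith

end thin2

end Pool.Agent.GMH.V3
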