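import Pool.Agent.GMH.TDdef
import Pool.Agent.GMH.TD1
import Pool.Agent.GMH.V3I

/-!
# GMH.TD5: thin dynamics, the totals (statements helper27, proofs helper88)

From `Bud.budget_Lam` (prices `1`, `N1`, `n N1`): the births of a thin letter are its costs, `≤ 3 n Lam` in all; a family `J` has
at most three letters.  Light public values: `≤ 3 n N1 Lam / log 2`.

* `C5.Hc_LJ_le`, `C5.Hc_LJ_sum` : entropies of the letters of a set of vertices; `C5.cst_cls` : the cost at `∅`;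
* **`births`**, **`incr`**, **`light_le`**, **`bias_le`**.
-/

set_option autoImplicit false
set_option linter.unusedSectionVars false

namespace Pool.Agent.GMH.TD

open Finset Pool.Agent.PWZ Pool.Agent.M3 Pool.Agent.GM Pool.Agent.GM.Harm Pool.Agent.GMH Pool.Agent.GMH.NZ
open Pool.Agent.GMH.V3 Pool.Agent.GMH.Gdy
open Pool.Agent.GMH.Dead (Dry E_time m_time Pr_time H_time Hc_time Thin thin_one cst_eq)

namespace C5

section core

variable {X β γ φ υ : Type} [Fintype X] [Fintype β] [Fintype φ] [Nonempty X] [Nonempty β]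
variable {D : HD (Fin 3) X β γ φ} {al : ℝ} (h : D.Thick al) {v : ℕ → Finset (Fin 3) → X → (Fin 3 → β) → υ}
variable {dg : ℕ → X → ℝ} {prr : ℕ → Fin 3 → φ → φ} {T : ℕ} {Lam : ℝ}

/-! ### letters of a set of vertices -/

theorem LJ_eq {J : Finset (Fin 3)} {r : ℕ} {a b : Pt (Fin 3) X β φ} :
    LJ v J r a = LJ v J r b ↔ ∀ j ∈ J, XLr v r j a = XLr v r j b := by
  unfold LJ
  rw [funext_iff]
  constructor
  · intro hh j hj
    have := hh j
    rw [if_pos hj, if_pos hj] at this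
    exact Option.some.inj this
  · intro hh j
    by_cases hj : j ∈ J
    · rw [if_pos hj, if_pos hj, hh j hj]
    · rw [if_neg hj, if_neg hj]

theorem PJ_eq {J : Finset (Fin 3)} {a b : Pt (Fin 3) X β φ} :
    PJ J a = PJ J b ↔ ∀ j ∈ J, a.2.1 j = b.2.1 j := by
  unfold PJ
  rw [funext_iff]
  constructor
  · intro hh j hj
    have := hh j
    rw [if_pos hj, if_pos hj] at this
    exact Option.some.inj this
  · intro hh j
    by_cases hj : j ∈ J
    · rw [if_pos hj, if_pos hj, hh j hj]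
    · rw [if_neg hj, if_neg hj]

/-- entropies of the letters of a set of vertices -/
theorem Hc_LJ_le {ι : Type*} {κ : Fin 3 → Type*} (P : FP (Pt (Fin 3) X β φ)) {Z : Pt (Fin 3) X β φ → ι} (r : ℕ)
    (S : Finset (Fin 3)) (Zj : ∀ j : Fin 3, Pt (Fin 3) X β φ → κ j) (hZ : ∀ j ∈ S, Fac Z (Zj j)) :
    P.Hc (LJ v S r) Z ≤ ∑ j ∈ S, P.Hc (XLr v r j) (Zj j) := by
  induction S using Finset.induction_on with
  | empty =>
    rw [Finset.sum_empty]
    refine (Hc_of_fac P ?_).le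
    intro a b _
    exact LJ_eq.2 fun j hj => absurd hj (Finset.notMem_empty j)
  | insert i S hi ih =>
    rw [Finset.sum_insert hi]
    have h1 : P.Hc (LJ v (insert i S) r) Z ≤ P.Hc (fun w => (XLr v r i w, LJ v S r w)) Z := by
      refine P.Hc_mono Z ?_
      intro a b hab
      simp only [Prod.mk.injEq] at hab
      refine LJ_eq.2 fun j hj => ?_
      rcases Finset.mem_insert.1 hj with h2 | h2
      · rw [h2]; exact hab.1.1
      · exact LJ_eq.1 hab.1.2 j h2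
    refine (h1.trans (Hc_pair_le P (hZ i (Finset.mem_insert_self i S)) (Fac.refl Z))).trans ?_
    exact add_le_add le_rfl (ih fun j hj => hZ j (Finset.mem_insert_of_mem hj))

theorem LJ_even_odd (J : Finset (Fin 3)) (t : ℕ) : LJ (φ := φ) v J (2 * t + 1) = LJ v J (2 * t) := by
  funext w j
  unfold LJ
  rw [XLr_even, XLr_odd]

/-- created entropy of the letters in one half step -/
theorem Hc_LJ_odd (R t : ℕ) (J : Finset (Fin 3)) :
    (D.P h R).Hc (LJ v J (2 * t + 1 + 1)) (fun w => (LJ v J (2 * t + 1) w, NPr v D (2 * t + 1 + 1) w)) ≤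
      ∑ j ∈ J, cst h v (t + 1) {j} := by
  have h1 := Hc_LJ_le (v := v) (D.P h R) (Z := fun w => (LJ v J (2 * t + 1) w, NPr v D (2 * t + 1 + 1) w))
    (2 * t + 1 + 1) J (fun j w => (XLr v (2 * t + 1) j w, w.2.1 j, NPr v D (2 * t + 1 + 1) w)) (by
      intro j hj a b hab
      simp only [Prod.mk.injEq] at hab ⊢
      have h2 := LJ_eq.1 hab.1 j hj
      exact ⟨h2, congrArg Prod.fst h2, hab.2⟩)
  refine h1.trans (le_of_eq (Finset.sum_congr rfl fun j _ => ?_))
  exact step_one h R t j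

theorem Hc_LJ_even (R t : ℕ) (J : Finset (Fin 3)) :
    (D.P h R).Hc (LJ v J (2 * t + 1)) (fun w => (LJ v J (2 * t) w, NPr v D (2 * t + 1) w)) ≤ 0 := by
  rw [LJ_even_odd]
  refine (Hc_of_fac _ ?_).le
  intro a b hab
  exact (Prod.mk.inj hab).1

theorem Hc_LJ_start (R : ℕ) (J : Finset (Fin 3)) :
    (D.P h R).Hc (LJ v J 0) (fun w => (PJ J w, NPr v D 0 w)) ≤ ∑ j ∈ J, cst h v 0 {j} := by
  have h1 := Hc_LJ_le (v := v) (D.P h R) (Z := fun w => (PJ J w, NPr v D 0 w)) 0 J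
    (fun j w => (w.2.1 j, NPr v D 0 w)) (by
      intro j hj a b hab
      simp only [Prod.mk.injEq] at hab ⊢
      exact ⟨PJ_eq.1 hab.1 j hj, hab.2⟩)
  refine h1.trans (le_of_eq (Finset.sum_congr rfl fun j _ => ?_))
  exact start_one h R j

/-- **created entropies of the letters** -/
theorem Hc_LJ_sum (R T : ℕ) (J : Finset (Fin 3)) :
    (D.P h R).Hc (LJ v J 0) (fun w => (PJ J w, NPr v D 0 w)) +
      ∑ k ∈ range (2 * T), (D.P h R).Hc (LJ v J (k + 1)) (fun w => (LJ v J k w, NPr v D (k + 1) w)) ≤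
      ∑ j ∈ J, ∑ t ∈ range (T + 1), cst h v t {j} := by
  rw [Finset.sum_comm]
  refine le_trans (add_le_add (Hc_LJ_start h R J) le_rfl) ?_
  exact sum_half (f := fun k => (D.P h R).Hc (LJ v J (k + 1)) (fun w => (LJ v J k w, NPr v D (k + 1) w)))
    (c := fun t => ∑ j ∈ J, cst h v t {j}) (fun t => Hc_LJ_even h R t J) (fun t => Hc_LJ_odd h R t J) T

/-! ### the public class code -/

theorem cst_cls (t : ℕ) : cst h v t ∅ =
    (D.P h t).Hc (NP D v (t + 1) t) (NP D v t t) := by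
  rw [cst_eq]
  refine (D.P h t).Hc_congr ?_ ?_ ?_ ?_
  · intro a b hab
    simp only [Prod.mk.injEq] at hab
    have h1 := (LL_eq.1 hab.1).1
    have h2 := (BB_eq.1 hab.2.2.2)
    exact Prod.ext h1 (Prod.ext h2.2.1 (funext h2.2.2))
  · intro a b hab
    simp only [Prod.mk.injEq] at hab
    have h1 := (LL_eq.1 (le_eq'.1 hab.1).1).1
    have h2 := (BB_eq.1 hab.2.2)
    exact Prod.ext h1 (Prod.ext h2.2.1 (funext h2.2.2))
  · intro a b hab
    have h1 : NP D v (t + 1) t a = NP D v (t + 1) t b := (Prod.mk.inj hab).1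
    have h2 : Um v (t + 1) ∅ a.1 a.2.1 = Um v (t + 1) ∅ b.1 b.2.1 := congrArg Prod.fst h1
    exact LL_cls.2 h2
  · intro a b hab
    have h2 : Um v t ∅ a.1 a.2.1 = Um v t ∅ b.1 b.2.1 := congrArg Prod.fst hab
    have h3 : nd D t a = nd D t b := congrArg Prod.snd hab
    have h4 : D.qa t a.1 = D.qa t b.1 := congrArg Prod.fst h3
    have h5 : (fun j => D.qb t (a.2.1 j)) = fun j => D.qb t (b.2.1 j) := congrArg Prod.snd h3
    simp only [Prod.mk.injEq]
    refine ⟨le_eq'.2 ⟨LL_cls.2 h2, ?_⟩, ?_, BB_eq.2 ⟨fun j hj => absurd hj (Finset.notMem_empty j), h4, congrFun h5⟩⟩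
    · exact lo_eq.2 fun I hI => absurd hI (Finset.not_ssubset_empty I)
    · exact lo_eq.2 fun I hI => absurd hI (Finset.not_ssubset_empty I)

/-- light values of a refinement -/
theorem Pr_light {Om κ κ' : Type*} [Fintype Om] (P : FP Om) (N : Om → κ) (N' : Om → κ') (hN : Fac N' N) :
    P.Pr (fun w => 2 * P.m N' w < P.m N w) ≤ P.Hc N' N / Real.log 2 := by
  have hl : 0 < Real.log 2 := Real.log_pos (by norm_num)
  rw [le_div_iff₀ hl]
  have e : P.Hc N' N = P.E (fun w => Real.log (P.m N w / P.m N' w)) := by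
    rw [Hc_eq_E_log]
    refine P.E_congr fun w _ => ?_
    rw [P.m_congr (X := fun v => (N' v, N v)) (Y := N') (Fac.fst _ _) ((Fac.refl N').prod hN) w]
  rw [e]
  show P.E (fun w => ind (2 * P.m N' w < P.m N w)) * Real.log 2 ≤ _
  rw [mul_comm, ← P.E_smul]
  refine P.E_mono fun w hw => ?_
  have p1 := P.m_pos N' hw
  have p2 := P.m_anti hN w
  have h0 : 0 ≤ Real.log (P.m N w / P.m N' w) := Real.log_nonneg ((one_le_div p1).2 p2)
  by_cases h1 : 2 * P.m N' w < P.m N w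
  · rw [ind_of h1, mul_one]
    exact Real.log_le_log (by norm_num) ((le_div_iff₀ p1).2 h1.le)
  · rw [ind_not h1, mul_zero]
    exact h0

theorem NPr_fac (r : ℕ) : Fac (NPr (φ := φ) v D (r + 1)) (NPr v D r) := fun _ _ hab => NPr_older (Nat.le_succ r) hab

theorem LJ_fac (J : Finset (Fin 3)) (r : ℕ) : Fac (LJ (φ := φ) v J (r + 1)) (LJ v J r) := fun _ _ hab =>
  LJ_eq.2 fun j hj => XLr_older (Nat.le_succ r) (LJ_eq.1 hab j hj)

theorem LJ_pts (J : Finset (Fin 3)) (r : ℕ) : Fac (LJ (φ := φ) v J r) (PJ J) := fun _ _ hab =>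
  PJ_eq.2 fun j hj => congrArg Prod.fst (LJ_eq.1 hab j hj)

/-- the light values of one half step -/
theorem light_one (r : ℕ) : (D.P h 0).Pr (ltq h v r) ≤ ind (r % 2 = 1) * cst h v ((r + 1) / 2) ∅ / Real.log 2 := by
  by_cases hr : r % 2 = 1
  · obtain ⟨t, rfl⟩ : ∃ t, r = 2 * t + 1 := ⟨r / 2, by omega⟩
    rw [ind_of hr, one_mul, show (2 * t + 1 + 1) / 2 = t + 1 by omega]
    have h1 := Pr_light (D.P h 0) (NPr v D (2 * t + 1)) (NPr v D (2 * t + 1 + 1)) (NPr_fac _)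
    have h2 : (D.P h 0).Hc (NPr v D (2 * t + 1 + 1)) (NPr v D (2 * t + 1)) = cst h v (t + 1) ∅ := by
      rw [Hc_time h (dry_NPr _) (dry_NPr _) 0 (t + 1), cst_cls, show 2 * t + 1 + 1 = 2 * (t + 1) by ring, NPr_even,
        NPr_odd]
    rw [h2] at h1
    refine le_trans ((D.P h 0).Pr_mono fun w _ hw => ?_) h1
    exact hw.2
  · rw [ind_not hr, zero_mul, zero_div]
    refine le_of_eq ?_
    show (D.P h 0).E (fun w => ind (ltq h v r w)) = 0
    refine ((D.P h 0).E_congr (g := fun _ => 0) fun w _ => ind_not fun hh => hr hh.1).trans ((D.P h 0).E_const 0)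

theorem sum_light (T : ℕ) : ∑ r ∈ range (2 * T), (D.P h 0).Pr (ltq h v r) ≤
    (∑ t ∈ range (T + 1), cst h v t ∅) / Real.log 2 := by
  have hl : 0 < Real.log 2 := Real.log_pos (by norm_num)
  have h1 : ∀ T : ℕ, ∑ r ∈ range (2 * T), ind (r % 2 = 1) * cst h v ((r + 1) / 2) ∅ = ∑ t ∈ range T, cst h v (t + 1) ∅ := by
    intro T
    induction T with
    | zero => simp
    | succ T ih =>
      rw [show 2 * (T + 1) = 2 * T + 1 + 1 by ring, Finset.sum_range_succ, Finset.sum_range_succ, ih,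
        Finset.sum_range_succ, ind_not (by omega), ind_of (by omega), zero_mul, one_mul, add_zero,
        show (2 * T + 1 + 1) / 2 = T + 1 by omega]
  refine (Finset.sum_le_sum fun r _ => light_one h r).trans ?_
  rw [← Finset.sum_div, h1 T]
  refine div_le_div_of_nonneg_right ?_ hl.le
  rw [Finset.sum_range_succ' _ T]
  have := cst_nonneg h (v := v) 0 ∅
  linarith

end core

end C5

open C5

variable {X β γ φ : Type} [Fintype X] [Fintype β] [Fintype φ] [Nonempty X] [Nonempty β]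
variable {D : HD (Fin 3) X β γ φ} {al : ℝ} {h : D.Thick al} {v : ℕ → Finset (Fin 3) → X → (Fin 3 → β) → Pt (Fin 3) X β φ}

theorem births {n N1 : ℝ} (hn : 1 ≤ n) (hN1 : 1 ≤ N1) (R : Run h (pr3 (Fin 3) n N1) (SS1 (Fin 3)) (AdmDep D) v)
    {dg : ℕ → X → ℝ} {prr : ℕ → Fin 3 → φ → φ} {T : ℕ} {Lam : ℝ} (H : D.Hyp dg prr al T Lam) (J : Finset (Fin 3)) :
    (D.P h 0).Hc (LJ v J 0) (fun w => (PJ J w, NPr v D 0 w)) + ∑ r ∈ range (2 * T), (D.P h 0).E (bJq h v J r) ≤
      9 * n * Lam := by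
  have h1 := Hc_LJ_sum h (v := v) 0 T J
  have h2 : ∑ r ∈ range (2 * T), (D.P h 0).E (bJq h v J r) =
      ∑ r ∈ range (2 * T), (D.P h 0).Hc (LJ v J (r + 1)) (fun w => (LJ v J r w, NPr v D (r + 1) w)) :=
    Finset.sum_congr rfl fun r _ => E_bi (D.P h 0) (N := NPr v D) (Y := PJ J) (LJ_fac J) r
  rw [h2]
  refine h1.trans ?_
  have h3 : ∀ j ∈ J, ∑ t ∈ range (T + 1), cst h v t {j} ≤ 3 * (n * Lam) := fun j _ =>
    GMH.cost_thin rfl H hn hN1 R j
  refine (Finset.sum_le_card_nsmul _ _ _ h3).trans ?_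
  rw [nsmul_eq_mul]
  have h4 : (J.card : ℝ) ≤ 3 := by exact_mod_cast (Finset.card_le_univ J)
  have h5 : 0 ≤ 3 * (n * Lam) := by
    have := H.Lam1
    positivity
  nlinarith

theorem incr {n N1 : ℝ} (hn : 1 ≤ n) (hN1 : 1 ≤ N1) (R : Run h (pr3 (Fin 3) n N1) (SS1 (Fin 3)) (AdmDep D) v)
    {dg : ℕ → X → ℝ} {prr : ℕ → Fin 3 → φ → φ} {T : ℕ} {Lam : ℝ} (H : D.Hyp dg prr al T Lam) (J : Finset (Fin 3)) :
    ∑ r ∈ range (2 * T), (D.P h 0).E (aJq h v J r) ≤ 9 * n * Lam :=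
  (sum_ai (D.P h 0) (N := NPr v D) (L := LJ v J) (Y := PJ J) (LJ_pts J) (2 * T)).trans (births hn hN1 R H J)

theorem light_le {n N1 : ℝ} (hn : 1 ≤ n) (hN1 : 1 ≤ N1) (R : Run h (pr3 (Fin 3) n N1) (SS1 (Fin 3)) (AdmDep D) v)
    {dg : ℕ → X → ℝ} {prr : ℕ → Fin 3 → φ → φ} {T : ℕ} {Lam : ℝ} (H : D.Hyp dg prr al T Lam) :
    ∑ r ∈ range (2 * T), (D.P h 0).Pr (ltq h v r) ≤ 6 * n * N1 * Lam := by
  have h1 := sum_light h (v := v) T
  have h2 := cost_le h H (N := pr3 (Fin 3) n N1) (Ntop := n * N1)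
    (fun J => lt_of_lt_of_le zero_lt_one (pr3_one hn hN1 J)) (fun l => (pr3_top rfl n N1 l).le)
    (fun t _ => R.nonpos (admDep_ok D) t) (J := ∅) (ne_u rfl)
  have e : pr3 (Fin 3) n N1 ∅ = 1 := by
    unfold pr3
    rw [if_pos Finset.card_empty]
  rw [e, div_one, Fintype.card_fin] at h2
  push_cast at h2
  refine h1.trans ?_
  rw [div_le_iff₀ (Real.log_pos (by norm_num))]
  have h3 := Real.log_two_gt_d9
  have h4 : 0 ≤ n * N1 * Lam := by
    have := H.Lam1
    positivity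
  nlinarith

/-- sum of the squares of the public biases -/
theorem bias_le {n N1 : ℝ} (hn : 1 ≤ n) (hN1 : 1 ≤ N1) (R : Run h (pr3 (Fin 3) n N1) (SS1 (Fin 3)) (AdmDep D) v)
    {dg : ℕ → X → ℝ} {prr : ℕ → Fin 3 → φ → φ} {T : ℕ} {Lam : ℝ} (H : D.Hyp dg prr al T Lam) :
    ∑ t ∈ range T, (D.P h t).E (fun w => mm (UU v) h dg t w ^ 2) ≤ 64 * n * N1 * Lam := by
  have h1 : ∑ t ∈ range T, (D.P h t).E (fun w => mm (UU v) h dg t w ^ 2) ≤ 2 * tot D h prr T v ∅ :=
    (conM h (v := v) H (ne_u rfl) (b := fun J => tot D h prr T v J) fun _ _ => le_rfl).1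
  have h2 := tot_le h H (N := pr3 (Fin 3) n N1) (Ntop := n * N1)
    (fun J => lt_of_lt_of_le zero_lt_one (pr3_one hn hN1 J)) (fun l => (pr3_top rfl n N1 l).le)
    (fun t _ => R.nonpos (admDep_ok D) t) (J := ∅) (ne_u rfl)
  have e : pr3 (Fin 3) n N1 ∅ = 1 := by
    unfold pr3
    rw [if_pos Finset.card_empty]
  rw [e, div_one, Fintype.card_fin] at h2
  push_cast at h2
  have h3 : Lam ≤ n * N1 * Lam := by
    have := H.Lam1
    have : 1 ≤ n * N1 := by nlinarith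
    nlinarith
  have h4 : 0 ≤ Lam := zero_le_one.trans H.Lam1
  refine h1.trans ?_
  linarith

end Pool.Agent.GMH.TD
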