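import Pool.Agent.GMH.TD9

/-!
# GMH.TDP: thin dynamics, parameters and bounds (helper27)

`Pm` : conditions on the parameters (`n`, `N1` prices, `θ` threshold of `EvP`, `X1` rarity, `p1` thin rows, `u` threshold of the
covers, `dl` tiny digits, `δ` movement, `kp` mass of the moved tuples, `M` size of the samples).
`NeB` bound of the number of epochs, `TnB` of the tiny digits, `BdE` of the even half steps, `BdO` of the odd half steps (one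
triple `J0, c, d`).
-/

set_option autoImplicit false
set_option linter.unusedSectionVars false

namespace Pool.Agent.GMH.TD

open Finset Pool.Agent.PWZ Pool.Agent.M3

noncomputable section

/-- conditions on the parameters -/
structure Pm (n N1 Lam θ X1 p1 u dl δ kp : ℝ) (M : ℕ) : Prop where
  hn : 1 ≤ n
  hN1 : 1 ≤ N1
  hL : 1 ≤ Lam
  hθ0 : 0 < θ
  hθ1 : θ ≤ 1
  hX1 : 0 ≤ X1
  hp0 : 0 < p1
  hp1 : p1 ≤ 1
  hδ0 : 0 < δ
  hδ : 128 * δ ≤ θ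
  hδp : 16 * δ ≤ p1
  hu : 0 < u
  hu1 : u ≤ 1
  hup : 2 ^ 12 * p1 ≤ u
  hkp0 : 0 < kp
  hkp1 : kp < 1
  hkp : 2 ^ 12 * kp ≤ u
  hdl : 0 < dl
  hdl1 : 64 * dl ≤ 1
  hNu : 2 ^ 12 * Real.sqrt ((Real.log (1 / dl) + 1) / N1) ≤ u
  hsm : 2 * (M * Real.exp (2 * (X1 + 1))) * Real.exp (-(N1 * u / 64)) ≤ 1

/-- bound of the number of epochs -/
def NeB (n N1 Lam δ kp : ℝ) : ℝ := 1 + 6 * n * N1 * Lam + 8 * (4 / δ ^ 2 * (9 * n * Lam)) / kp

/-- bound of the tiny digits -/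
def TnB (n N1 Lam dl : ℝ) : ℝ := 64 * dl * (64 * n * N1 * Lam)

/-- bound of the even half steps -/
def BdE (n N1 Lam θ X1 dl : ℝ) : ℝ :=
  2 ^ 9 / θ * Real.sqrt ((X1 + Real.log (1 / dl) + 1) / N1) * (9 * n * Lam) + 4 * dl * (64 * n * N1 * Lam)

/-- thrown at the light values, mass `q` -/
def ThB (n N1 Lam q : ℝ) : ℝ := 2 / Real.log (1 / q) * (9 * n * Lam + Real.sqrt q * (6 * n * N1 * Lam))

/-- exceptional rows -/
def RoB (n N1 Lam θ X1 p1 dl kp : ℝ) : ℝ :=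
  (2 ^ 12 / (p1 * (θ / 2)) * (32 * Real.sqrt ((X1 + Real.log (1 / dl) + 1) / N1)) + 64 / p1 * Real.sqrt kp + 64 / p1 * kp) *
    (9 * n * Lam) + ThB n N1 Lam (Real.sqrt kp) + TnB n N1 Lam dl

/-- covers -/
def CoB (n N1 Lam X1 u dl δ kp : ℝ) (M : ℕ) : ℝ :=
  u / 2 * (9 * n * Lam) + 12 * u * (9 * n * Lam) +
    (4 * u + 2) * (e9 N1 (X1 + 1) u dl M * NeB n N1 Lam δ kp + TnB n N1 Lam dl) + 6 / (u * (M + 1)) * NeB n N1 Lam δ kp

/-- bound of the odd half steps -/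
def BdO (n N1 Lam θ X1 p1 u dl δ kp : ℝ) (M : ℕ) : ℝ :=
  ThB n N1 Lam kp + 2 * RoB n N1 Lam θ X1 p1 dl kp + CoB n N1 Lam X1 u dl δ kp M

end

end Pool.Agent.GMH.TD
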