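import Pool.Agent.GMH.TD11N
import Pool.Agent.GMH.TD12A
import Pool.Agent.GMH.TD5
import Pool.Agent.GMH.TDP

/-!
# GMH.TD15: thin dynamics, the sums (helper36)

* `Sq_le` : a strong letter costs: `P (Sq h v c r) ≤ E (aJq h v {c} r)`; `sum_Sq` : in all at most `9 n Lam`;
* `sum_half` : even and odd half steps; `prc_pr3` : the prices;
* `ne_le` number of epochs, `tn_le` tiny digits.
-/

set_option autoImplicit false
set_option linter.unusedSectionVars false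

namespace Pool.Agent.GMH.TD

open Finset Pool.Agent.PWZ Pool.Agent.M3 Pool.Agent.GM Pool.Agent.GM.Harm Pool.Agent.GMH Pool.Agent.GMH.NZ
open Pool.Agent.GMH.V3 Pool.Agent.GMH.Gdy

namespace F15

theorem sum_half (g : ℕ → ℝ) (T : ℕ) :
    ∑ r ∈ range (2 * T), g r = ∑ t ∈ range T, g (2 * t) + ∑ t ∈ range T, g (2 * t + 1) := by
  induction T with
  | zero => simp
  | succ T ih =>
    rw [show 2 * (T + 1) = 2 * T + 1 + 1 by ring, Finset.sum_range_succ, Finset.sum_range_succ, ih,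
      Finset.sum_range_succ, Finset.sum_range_succ]
    ring

theorem prc_pr3 {n N1 : ℝ} (hn : 1 ≤ n) (hN1 : 1 ≤ N1) : Prc (pr3 (Fin 3) n N1) (SS1 (Fin 3)) N1 where
  nn := fun J _ => zero_le_one.trans (pr3_one hn hN1 J)
  e0 := by decide
  s1 := by decide
  n0 := by
    unfold pr3
    simp
  n1 := fun i => by
    unfold pr3
    simp
  pos := hN1

theorem phi_two {x : ℝ} (hx : 2 ≤ x) : 1 ≤ phi x := by
  unfold phi
  have := Real.exp_pos (-x)
  linarith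

section core

variable {Om : Type*} [Fintype Om] (P : FP Om) {κ lam η : Type*} {N : ℕ → Om → κ} {L : ℕ → Om → lam} {Y : Om → η}

theorem Pr_ai_le (hN : ∀ k, Fac (N (k + 1)) (N k)) (hY : ∀ k, Fac (L k) Y) (k : ℕ) :
    P.Pr (fun w => 2 ≤ ai P N L Y k w) ≤ P.E (ai P N L Y k) := by
  have h1 : P.Pr (fun w => 2 ≤ ai P N L Y k w) ≤ P.E (fun w => phi (ai P N L Y k w)) := by
    refine P.E_mono fun w _ => ?_
    by_cases h : 2 ≤ ai P N L Y k w
    · rw [ind_of h]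
      exact phi_two h
    · rw [ind_not h]
      exact phi_nonneg _
  have h2 : P.E (fun w => Real.exp (- ai P N L Y k w)) ≤ 1 := by
    rw [← P.E_ce (fun w => (L k w, N k w)) (fun w => Real.exp (- ai P N L Y k w)), ← P.E_const 1]
    exact P.E_mono fun w hw => ce_exp_ai P hN hY k hw
  have h3 : P.E (fun w => phi (ai P N L Y k w)) =
      P.E (fun w => Real.exp (- ai P N L Y k w)) - 1 + P.E (ai P N L Y k) := by
    have e1 : (fun w => phi (ai P N L Y k w)) = fun w => Real.exp (- ai P N L Y k w) - (1 : ℝ) + ai P N L Y k w := rfl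
    rw [e1, P.E_add, P.E_sub, P.E_const]
  linarith

end core

section hd

variable {X β γ φ : Type} [Fintype X] [Fintype β] [Fintype φ] [Nonempty X] [Nonempty β]
variable {D : HD (Fin 3) X β γ φ} {al : ℝ} {h : D.Thick al} {v : ℕ → Finset (Fin 3) → X → (Fin 3 → β) → Pt (Fin 3) X β φ}

theorem Sq_le (c : Fin 3) (r : ℕ) : (D.P h 0).Pr (Sq h v c r) ≤ (D.P h 0).E (aJq h v {c} r) :=
  Pr_ai_le (D.P h 0) (N := NPr v D) (L := LJ v {c}) (Y := PJ {c}) C5.NPr_fac (C5.LJ_pts {c}) r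

theorem sum_Sq {n N1 : ℝ} (hn : 1 ≤ n) (hN1 : 1 ≤ N1) (R : Run h (pr3 (Fin 3) n N1) (SS1 (Fin 3)) (AdmDep D) v)
    {dg : ℕ → X → ℝ} {prr : ℕ → Fin 3 → φ → φ} {T : ℕ} {Lam : ℝ} (H : D.Hyp dg prr al T Lam) (c : Fin 3) :
    ∑ t ∈ range T, (D.P h 0).Pr (Sq h v c (2 * t)) ≤ 9 * n * Lam := by
  have h1 := incr hn hN1 R H {c}
  rw [sum_half] at h1
  have h2 : ∑ t ∈ range T, (D.P h 0).Pr (Sq h v c (2 * t)) ≤ ∑ t ∈ range T, (D.P h 0).E (aJq h v {c} (2 * t)) :=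
    Finset.sum_le_sum fun t _ => Sq_le c (2 * t)
  have h3 : 0 ≤ ∑ t ∈ range T, (D.P h 0).E (aJq h v {c} (2 * t + 1)) :=
    Finset.sum_nonneg fun t _ => ((D.P h 0).Pr_nonneg _).trans (Sq_le c (2 * t + 1))
  linarith

/-- number of epochs -/
theorem ne_le {n N1 Lam θ X1 p1 u dl δ kp : ℝ} {M : ℕ} (hP : Pm n N1 Lam θ X1 p1 u dl δ kp M)
    (R : Run h (pr3 (Fin 3) n N1) (SS1 (Fin 3)) (AdmDep D) v) {dg : ℕ → X → ℝ} {prr : ℕ → Fin 3 → φ → φ} {T : ℕ}
    (H : D.Hyp dg prr al T Lam) : Nep h v δ kp T ≤ NeB n N1 Lam δ kp := by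
  have hδ1 : δ ≤ 1 := by
    have h1 := hP.hδ
    have h2 := hP.hθ1
    have h3 := hP.hδ0
    linarith
  have h1 := Nep_le (h := h) (v := v) hP.hδ0 hδ1 hP.hkp0 T (Tot := 9 * n * Lam) (fun J => incr hP.hn hP.hN1 R H J)
    (fun J => by
      have h2 := births hP.hn hP.hN1 R H J
      have h3 := (D.P h 0).Hc_nonneg (LJ v J 0) (fun w => (PJ J w, NPr v D 0 w))
      linarith)
  have h2 := light_le hP.hn hP.hN1 R H
  unfold NeB
  linarith

/-- tiny digits -/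
theorem tn_le {n N1 Lam θ X1 p1 u dl δ kp : ℝ} {M : ℕ} (hP : Pm n N1 Lam θ X1 p1 u dl δ kp M)
    (R : Run h (pr3 (Fin 3) n N1) (SS1 (Fin 3)) (AdmDep D) v) {dg : ℕ → X → ℝ} {prr : ℕ → Fin 3 → φ → φ} {T : ℕ}
    (H : D.Hyp dg prr al T Lam) : Tny h v dl T ≤ TnB n N1 Lam dl := by
  have h1 := tiny_le (h := h) R.codes H hP.hdl hP.hdl1
  have h2 := bias_le hP.hn hP.hN1 R H
  have h3 := mul_le_mul_of_nonneg_left h2 (by have := hP.hdl; positivity : (0 : ℝ) ≤ 64 * dl)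
  exact h1.trans h3

end hd

end F15

end Pool.Agent.GMH.TD
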