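import Pool.Agent.GMH.RZ10
import Pool.Agent.GMH.TD15
import Pool.Agent.GMH.MVIq

/-!
# GMH/RZ11 (helper36): REST (H3.MOV, M.8), complete

`b`, `c`, `d` the three vertices, `ν` the public start of the removal `s`.  `Rst` : the tuple has moved at `b` at the public
start, `c` and `d` have no status; `Alz` : the letters are alive.
* `rst_split` : such a tuple is of type C or D or thrown away;
* `thrown_le` : what is thrown away;
* `rest_v` : the sum over all public removals of the unlisted tuples of REST with a weight `W ≤ gC, gD`, where `gC` sees the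
  hidden point, the points of `b`, `d` and the new public information, and `gD` those of `b`, `c`.
-/

set_option autoImplicit false
set_option linter.unusedSectionVars false

namespace Pool.Agent.GMH.RZ

open Finset Pool.Agent.PWZ Pool.Agent.M3 Pool.Agent.GM Pool.Agent.GM.Harm Pool.Agent.GMH Pool.Agent.GMH.NZ
open Pool.Agent.GMH.V3 Pool.Agent.GMH.TD Pool.Agent.GMH.TP
open Pool.Agent.GMH.Dy Pool.Agent.GMH.MV Pool.Agent.GMH.MVI Pool.Agent.GMH.CK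

/-! ### what is thrown away -/

section thr

variable {Ωm : Type} [Fintype Ωm] {M : MS Ωm} {b c d : Fin 3}

/-- moved at `b` at the public start of `s`, `c` and `d` without status, not listed -/
def Rst (M : MS Ωm) (b c d : Fin 3) (s : ℕ) (w : Ωm) : Prop :=
  ¬ Lst M (nu M s w) s w ∧ Mv M b (nu M s w) w ∧ ¬ hys M c (nu M s w) w ∧ ¬ hys M d (nu M s w) w

/-- (F2) fails: the moved tuples have large conditional mass at the exact points, given the letter of `b` -/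
def F2x (M : MS Ωm) (b : Fin 3) (k2 : ℝ) (s : ℕ) (w : Ωm) : Prop :=
  ¬ Lst M (nu M s w) s w ∧
    k2 ≤ MvF.mu M.P (AHR.UY M (nu M s w)) (Mv M b (nu M s w)) (M.XL b (nu M s w)) w

/-- (F3) fails -/
def F3x (M : MS Ωm) (c : Fin 3) (p2 : ℝ) (s : ℕ) (w : Ωm) : Prop :=
  ¬ Lst M (nu M s w) s w ∧ ¬ hys M c (nu M s w) w ∧
    p2 ≤ MvF.mu M.P (AHR.UY M (nu M s w)) (MV.Mo M c (nu M s w)) (M.XL c (nu M s w)) w

/-- anti-hot -/
def AHx (M : MS Ωm) (i j : Finset (Fin 3) × Finset (Fin 3)) (e : ℝ) (s : ℕ) (w : Ωm) : Prop :=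
  ¬ Lst M (nu M s w) s w ∧ 2 * e ≤ AHR.drq M i j (nu M s w) w

/-- thrown away -/
def Thx (M : MS Ωm) (b c d : Fin 3) (k2 p2 e : ℝ) (s : ℕ) (w : Ωm) : Prop :=
  F2x M b k2 s w ∨ F3x M c p2 s w ∨ F3x M d p2 s w ∨ AHx M ({c}, ∅) ({b, d}, ∅) e s w ∨ AHx M ({d}, ∅) ({b}, ∅) e s w ∨
    AHx M ({d}, ∅) ({b, c}, ∅) e s w

theorem mu_mono {c : Fin 3} (hc : c ≠ b) (ν : ℕ) (w : Ωm) :
    MvF.mu M.P (AHR.UY M ν) (Mv M b ν) (M.XL c ν) w ≤ MvF.mu M.P (AHR.UY M ν) (MV.Mo M c ν) (M.XL c ν) w := by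
  unfold MvF.mu
  exact M.P.ce_mono (fun u _ => ind_mono fun hh => ⟨b, hc.symm, hh⟩) w

/-- **type C, type D or thrown away** -/
theorem rst_split (hbc : b ≠ c) (hbd : b ≠ d) {k4 k2 p2 e : ℝ} {s : ℕ} {w : Ωm} (hr : Rst M b c d s w) :
    Thx M b c d k2 p2 e s w ∨ HC M b c d k4 p2 (2 * e) (nu M s w) w ∨ HD' M b c d k4 k2 p2 (2 * e) (nu M s w) w := by
  obtain ⟨h1, h2, h3, h4⟩ := hr
  by_cases hx : Thx M b c d k2 p2 e s w
  · exact Or.inl hx
  · right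
    unfold Thx at hx
    push Not at hx
    obtain ⟨x1, x2, x3, x4, x5, x6⟩ := hx
    have y1 : MvF.mu M.P (AHR.UY M (nu M s w)) (Mv M b (nu M s w)) (M.XL b (nu M s w)) w < k2 := by
      by_contra hc
      exact x1 ⟨h1, not_lt.1 hc⟩
    have y2 : MvF.mu M.P (AHR.UY M (nu M s w)) (Mv M b (nu M s w)) (M.XL c (nu M s w)) w < p2 := by
      refine lt_of_le_of_lt (mu_mono hbc.symm _ w) ?_
      by_contra hc
      exact x2 ⟨h1, h3, not_lt.1 hc⟩
    have y3 : MvF.mu M.P (AHR.UY M (nu M s w)) (Mv M b (nu M s w)) (M.XL d (nu M s w)) w < p2 := by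
      refine lt_of_le_of_lt (mu_mono hbd.symm _ w) ?_
      by_contra hc
      exact x3 ⟨h1, h4, not_lt.1 hc⟩
    have y4 : dr M.P (M.XL c (nu M s w)) (fun v => (M.XL b (nu M s w) v, M.XL d (nu M s w) v)) (AHR.UY M (nu M s w)) w ≤
        2 * e := by
      rw [AHR.drq_12]
      by_contra hc
      exact x4 ⟨h1, (not_le.1 hc).le⟩
    have y5 : dr M.P (M.XL d (nu M s w)) (M.XL b (nu M s w)) (AHR.UY M (nu M s w)) w ≤ 2 * e := by
      rw [AHR.drq_11]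
      by_contra hc
      exact x5 ⟨h1, (not_le.1 hc).le⟩
    have y6 : dr M.P (M.XL d (nu M s w)) (fun v => (M.XL b (nu M s w) v, M.XL c (nu M s w) v)) (AHR.UY M (nu M s w)) w ≤
        2 * e := by
      rw [AHR.drq_12]
      by_contra hc
      exact x6 ⟨h1, (not_le.1 hc).le⟩
    exact MvF.split h2 y1 y2 y3 y4 y5 y6

/-- exact classes with a heavy list, public removals -/
theorem lst_thr (hP : PrN M) {T : ℕ} {Tot : ℝ} (hT : Tot0 M T Tot) (v : Fin 3) {kl : ℝ} (hkl : M.k0 < kl) :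
    ∑ s ∈ range T, M.P.Pr (fun w => lt5 M M.NP s w ∧ kl ≤ M.P.ce (CN M v s) (fun x => ind (Lst M (nu M s w) s x)) w) ≤
      2 / Real.log (kl / M.k0) * (Tot + Real.sqrt (M.k0 / kl) * NL M T) := by
  have hk0 := M.hk0
  have hkl0 : 0 < kl := hk0.trans hkl
  have h1 := NP_thr hP hT (A := fun s w => kl ≤ M.P.ce (CN M v s) (fun x => ind (Lst M (nu M s w) s x)) w)
    (fun s _ => (LU_CN M v s).trans fun a b hab => by
      have h2 : nu M s a = nu M s b := nu_fac M s a b (CN_NP M v s a b hab)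
      show (kl ≤ M.P.ce (CN M v s) (fun x => ind (Lst M (nu M s a) s x)) a) =
        (kl ≤ M.P.ce (CN M v s) (fun x => ind (Lst M (nu M s b) s x)) b)
      rw [h2, M.P.ce_fac (CN M v s) _ a b hab]) (q := M.k0 / kl) (div_pos hk0 hkl0) ((div_lt_one hkl0).2 hkl)
    (fun s _ w hw _ => MV4.lst_bad (M := M) v hkl0 s hw)
  rw [one_div_div] at h1
  exact h1

/-- **the bound of what is thrown away** -/
noncomputable def ThB (M : MS Ωm) (T : ℕ) (Lam Tot k2 p2 e kl : ℝ) : ℝ :=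
  2 / k2 * (Real.exp (4 * Lam) * M.kb + (1 + 2 * Real.exp (4 * Lam)) * kl) * NL M T +
    2 * (2 / p2 * (M.p1 + (1 + 2 * Real.exp (4 * Lam)) * kl) * NL M T) +
    3 * (2 / Real.log (kl / M.k0) * (Tot + Real.sqrt (M.k0 / kl) * NL M T)) +
    3 * (4 / e * (1 + NL M T + 2 * Tot))

theorem Pr_or (P : FP Ωm) (A B : Ωm → Prop) : P.Pr (fun w => A w ∨ B w) ≤ P.Pr A + P.Pr B := by
  unfold FP.Pr
  rw [← P.E_add]
  refine P.E_mono fun w _ => ?_
  by_cases h1 : A w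
  · rw [ind_of h1]
    have := ind_nonneg (B w)
    have := ind_le_one (A w ∨ B w)
    linarith
  · by_cases h2 : B w
    · rw [ind_of h2]
      have := ind_nonneg (A w)
      have := ind_le_one (A w ∨ B w)
      linarith
    · rw [ind_not (fun hh : A w ∨ B w => hh.elim h1 h2)]
      exact add_nonneg (ind_nonneg _) (ind_nonneg _)

/-- **what is thrown away** -/
theorem thrown_le {Lam : ℝ} (hTh : Thk M Lam) (hL : 0 ≤ Lam) (hsm : 12 * M.d0 ≤ Real.exp (-(4 * Lam))) (hPN : PrN M)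
    (hPX : PrX M) {T : ℕ} {Tot : ℝ} (hT : Tot0 M T Tot) {k2 p2 e kl : ℝ} (hk2 : 12 * M.d0 ≤ k2) (hp2 : 12 * M.d0 ≤ p2)
    (he : 0 < e) (hkl : M.k0 < kl) (b c d : Fin 3) :
    ∑ s ∈ range T, M.P.Pr (fun w => lt5 M M.NP s w ∧ Thx M b c d k2 p2 e s w) ≤ ThB M T Lam Tot k2 p2 e kl := by
  have hk0 := M.hk0
  have hkl0 : 0 < kl := hk0.trans hkl
  have hd : M.d0 ≤ 1 / 12 := by
    have : Real.exp (-(4 * Lam)) ≤ 1 := Real.exp_le_one_iff.2 (by linarith)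
    linarith
  have hR : ∀ (v : Fin 3) (s : ℕ), Fac (fun w => (M.XL v s w, M.NP (s + 1) w)) (lt5 M M.NP s) := fun v s a b hab =>
    lt5_fac M s a b (Prod.mk.inj hab).2
  -- F2
  have f2 : ∑ s ∈ range T, M.P.Pr (fun w => lt5 M M.NP s w ∧ F2x M b k2 s w) ≤
      2 / k2 * (Real.exp (4 * Lam) * M.kb + (1 + 2 * Real.exp (4 * Lam)) * kl) * NL M T +
      2 / Real.log (kl / M.k0) * (Tot + Real.sqrt (M.k0 / kl) * NL M T) := by
    have h1 := MV4.f2_sum (M := M) hTh hsm hL b hPX hk2 hkl0.le (hR b) (fun s w hh => hh.1) T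
    have h2 := lst_thr hPN hT b hkl
    refine le_trans ?_ (add_le_add h1 h2)
    rw [← Finset.sum_add_distrib]
    refine Finset.sum_le_sum fun s _ => le_trans (M.P.Pr_mono fun w hw hh => ?_) (Pr_or M.P _ _)
    obtain ⟨g1, g2, g3⟩ := hh
    by_cases hc : M.P.ce (CN M b s) (fun x => ind (Lst M (nu M s w) s x)) w ≤ kl
    · exact Or.inl ⟨g1, g2, g3, hc⟩
    · exact Or.inr ⟨g1, (not_le.1 hc).le⟩
  -- F3
  have f3 : ∀ c : Fin 3, ∑ s ∈ range T, M.P.Pr (fun w => lt5 M M.NP s w ∧ F3x M c p2 s w) ≤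
      2 / p2 * (M.p1 + (1 + 2 * Real.exp (4 * Lam)) * kl) * NL M T +
      2 / Real.log (kl / M.k0) * (Tot + Real.sqrt (M.k0 / kl) * NL M T) := by
    intro c
    have h1 := MV4.f3_sum (M := M) hTh hsm hL c hPX hp2 hkl0.le (hR c) (fun s w hh => hh.1) T
    have h2 := lst_thr hPN hT c hkl
    refine le_trans ?_ (add_le_add h1 h2)
    rw [← Finset.sum_add_distrib]
    refine Finset.sum_le_sum fun s _ => le_trans (M.P.Pr_mono fun w hw hh => ?_) (Pr_or M.P _ _)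
    obtain ⟨g1, g2, g3, g4⟩ := hh
    by_cases hc : M.P.ce (CN M c s) (fun x => ind (Lst M (nu M s w) s x)) w ≤ kl
    · exact Or.inl ⟨g1, g2, g3, g4, hc⟩
    · exact Or.inr ⟨g1, (not_le.1 hc).le⟩
  -- anti-hot
  have ah : ∀ i j : Finset (Fin 3) × Finset (Fin 3), ∑ s ∈ range T, M.P.Pr (fun w => lt5 M M.NP s w ∧ AHx M i j e s w) ≤
      4 / e * (1 + NL M T + 2 * Tot) := fun i j => ah_unl M i j (lt5_UY M) he hd hT
  -- sum
  have s0 : ∀ s ∈ range T, M.P.Pr (fun w => lt5 M M.NP s w ∧ Thx M b c d k2 p2 e s w) ≤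
      M.P.Pr (fun w => lt5 M M.NP s w ∧ F2x M b k2 s w) + (M.P.Pr (fun w => lt5 M M.NP s w ∧ F3x M c p2 s w) +
      (M.P.Pr (fun w => lt5 M M.NP s w ∧ F3x M d p2 s w) +
      (M.P.Pr (fun w => lt5 M M.NP s w ∧ AHx M ({c}, ∅) ({b, d}, ∅) e s w) +
      (M.P.Pr (fun w => lt5 M M.NP s w ∧ AHx M ({d}, ∅) ({b}, ∅) e s w) +
        M.P.Pr (fun w => lt5 M M.NP s w ∧ AHx M ({d}, ∅) ({b, c}, ∅) e s w))))) := by
    intro s _
    refine le_trans (M.P.Pr_mono fun w hw hh => ?_) ((Pr_or M.P _ _).trans (add_le_add le_rfl ((Pr_or M.P _ _).trans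
      (add_le_add le_rfl ((Pr_or M.P _ _).trans (add_le_add le_rfl ((Pr_or M.P _ _).trans (add_le_add le_rfl
        (Pr_or M.P _ _)))))))))
    obtain ⟨g1, g2⟩ := hh
    rcases g2 with g | g | g | g | g | g
    · exact Or.inl ⟨g1, g⟩
    · exact Or.inr (Or.inl ⟨g1, g⟩)
    · exact Or.inr (Or.inr (Or.inl ⟨g1, g⟩))
    · exact Or.inr (Or.inr (Or.inr (Or.inl ⟨g1, g⟩)))
    · exact Or.inr (Or.inr (Or.inr (Or.inr (Or.inl ⟨g1, g⟩))))
    · exact Or.inr (Or.inr (Or.inr (Or.inr (Or.inr ⟨g1, g⟩))))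
  refine (Finset.sum_le_sum s0).trans ?_
  rw [Finset.sum_add_distrib, Finset.sum_add_distrib, Finset.sum_add_distrib, Finset.sum_add_distrib,
    Finset.sum_add_distrib]
  have t1 := f3 c
  have t2 := f3 d
  have t3 := ah ({c}, ∅) ({b, d}, ∅)
  have t4 := ah ({d}, ∅) ({b}, ∅)
  have t5 := ah ({d}, ∅) ({b, c}, ∅)
  unfold ThB
  linarith

end thr

/-! ### alive letters -/

section alive

variable {X β γ φ υ : Type} [Fintype X] [Fintype β] [Fintype φ] [Nonempty X] [Nonempty β]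
variable {D : HD (Fin 3) X β γ φ} {al : ℝ} (h : D.Thick al) (v : ℕ → Finset (Fin 3) → X → (Fin 3 → β) → υ)

/-- one letter and two letters are alive at the half step `r` -/
def Alz (X1 : ℝ) (r : ℕ) (p : Pt (Fin 3) X β φ) : Prop :=
  ∀ J : Finset (Fin 3), J.Nonempty → J.card ≤ 2 → -X1 ≤ lJq h v J r p

variable {h v}

theorem Alz.avz {X1 : ℝ} {ν : ℕ} {p : Pt (Fin 3) X β φ} (hA : Alz h v X1 (rho ν) p) {C E : Finset (Fin 3)} (hC : C.Nonempty)
    (hCc : C.card ≤ 2) (hE : E.Nonempty) (hEc : E.card ≤ 2) : Avz h v C E X1 ν p := ⟨hA C hC hCc, hA E hE hEc⟩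

/-- log probability and surprisal of one letter -/
theorem lJq_one (r : ℕ) (i : Fin 3) {p : Pt (Fin 3) X β φ} (hp : (D.P h 0).p p ≠ 0) : lJq h v {i} r p = - sps h v r i p := by
  have e1 : (D.P h 0).m (fun u => (LJ v {i} r u, NPr v D r u)) p =
      (D.P h 0).m (fun u => (XLr v r i u, (u.2.1 i, NPr v D r u))) p := by
    refine (D.P h 0).m_congr (fun a b hab => ?_) (fun a b hab => ?_) p
    · simp only [Prod.mk.injEq] at hab ⊢
      have h1 := LJ_iff.1 hab.1 i (Finset.mem_singleton_self i)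
      exact ⟨h1, congrArg Prod.fst h1, hab.2⟩
    · simp only [Prod.mk.injEq] at hab ⊢
      exact ⟨LJ_iff.2 fun j hj => by rw [Finset.mem_singleton.1 hj]; exact hab.1, hab.2.2⟩
  have e2 : (D.P h 0).m (fun u => (PJ {i} u, NPr v D r u)) p = (D.P h 0).m (fun u => (u.2.1 i, NPr v D r u)) p := by
    refine (D.P h 0).m_congr (fun a b hab => ?_) (fun a b hab => ?_) p
    · simp only [Prod.mk.injEq] at hab ⊢
      exact ⟨PJ_iff.1 hab.1 i (Finset.mem_singleton_self i), hab.2⟩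
    · simp only [Prod.mk.injEq] at hab ⊢
      exact ⟨PJ_iff.2 fun j hj => by rw [Finset.mem_singleton.1 hj]; exact hab.1, hab.2⟩
  have f1 : (D.P h (tm r)).m (fun u => (XLr v r i u, (u.2.1 i, NPr v D r u))) p =
      (D.P h 0).m (fun u => (XLr v r i u, (u.2.1 i, NPr v D r u))) p :=
    Dead.m_time h ((dry_XLr r i).prod ((dry_pt i).prod (dry_NPr r))) (tm r) 0 p
  have f2 : (D.P h (tm r)).m (fun u => (u.2.1 i, NPr v D r u)) p = (D.P h 0).m (fun u => (u.2.1 i, NPr v D r u)) p :=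
    Dead.m_time h ((dry_pt i).prod (dry_NPr r)) (tm r) 0 p
  unfold lJq lq sps sp Pr'
  rw [e1, e2, f1, f2, Real.log_div ((D.P h 0).m_pos _ hp).ne' ((D.P h 0).m_pos _ hp).ne']
  ring

/-- log probability and surprisal of a pair -/
theorem lJq_two (r : ℕ) (i k : Fin 3) {p : Pt (Fin 3) X β φ} (hp : (D.P h 0).p p ≠ 0) :
    lJq h v {i, k} r p = - spp h v r i k p := by
  have e1 : (D.P h 0).m (fun u => (LJ v {i, k} r u, NPr v D r u)) p =
      (D.P h 0).m (fun u => ((XLr v r i u, XLr v r k u), (u.2.1 i, u.2.1 k, NPr v D r u))) p := by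
    refine (D.P h 0).m_congr (fun a b hab => ?_) (fun a b hab => ?_) p
    · simp only [Prod.mk.injEq] at hab ⊢
      have h1 := LJ_iff.1 hab.1 i (Finset.mem_insert_self i _)
      have h2 := LJ_iff.1 hab.1 k (Finset.mem_insert_of_mem (Finset.mem_singleton_self k))
      exact ⟨⟨h1, h2⟩, congrArg Prod.fst h1, congrArg Prod.fst h2, hab.2⟩
    · simp only [Prod.mk.injEq] at hab ⊢
      refine ⟨LJ_iff.2 fun j hj => ?_, hab.2.2.2⟩
      rcases Finset.mem_insert.1 hj with h1 | h1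
      · rw [h1]; exact hab.1.1
      · rw [Finset.mem_singleton.1 h1]; exact hab.1.2
  have e2 : (D.P h 0).m (fun u => (PJ {i, k} u, NPr v D r u)) p =
      (D.P h 0).m (fun u => (u.2.1 i, u.2.1 k, NPr v D r u)) p := by
    refine (D.P h 0).m_congr (fun a b hab => ?_) (fun a b hab => ?_) p
    · simp only [Prod.mk.injEq] at hab ⊢
      exact ⟨PJ_iff.1 hab.1 i (Finset.mem_insert_self i _),
        PJ_iff.1 hab.1 k (Finset.mem_insert_of_mem (Finset.mem_singleton_self k)), hab.2⟩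
    · simp only [Prod.mk.injEq] at hab ⊢
      refine ⟨PJ_iff.2 fun j hj => ?_, hab.2.2⟩
      rcases Finset.mem_insert.1 hj with h1 | h1
      · rw [h1]; exact hab.1
      · rw [Finset.mem_singleton.1 h1]; exact hab.2.1
  have f1 : (D.P h (tm r)).m (fun u => ((XLr v r i u, XLr v r k u), (u.2.1 i, u.2.1 k, NPr v D r u))) p =
      (D.P h 0).m (fun u => ((XLr v r i u, XLr v r k u), (u.2.1 i, u.2.1 k, NPr v D r u))) p :=
    Dead.m_time h (((dry_XLr r i).prod (dry_XLr r k)).prod ((dry_pt i).prod ((dry_pt k).prod (dry_NPr r)))) (tm r) 0 p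
  have f2 : (D.P h (tm r)).m (fun u => (u.2.1 i, u.2.1 k, NPr v D r u)) p =
      (D.P h 0).m (fun u => (u.2.1 i, u.2.1 k, NPr v D r u)) p :=
    Dead.m_time h ((dry_pt i).prod ((dry_pt k).prod (dry_NPr r))) (tm r) 0 p
  unfold lJq lq spp sp Pr'
  rw [e1, e2, f1, f2, Real.log_div ((D.P h 0).m_pos _ hp).ne' ((D.P h 0).m_pos _ hp).ne']
  ring

/-- **alive letters** -/
theorem alz_of {X1 : ℝ} {r : ℕ} {p : Pt (Fin 3) X β φ} (hp : (D.P h 0).p p ≠ 0) (h1 : ∀ i, sps h v r i p ≤ X1)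
    (h2 : ∀ i k, i ≠ k → spp h v r i k p ≤ X1) : Alz h v X1 r p := by
  intro J hJ hc
  have h3 : 1 ≤ J.card := Finset.card_pos.2 hJ
  rcases Nat.eq_or_lt_of_le h3 with h4 | h4
  · obtain ⟨i, rfl⟩ := Finset.card_eq_one.1 h4.symm
    rw [lJq_one r i hp]
    linarith [h1 i]
  · obtain ⟨i, k, hik, rfl⟩ := Finset.card_eq_two.1 (show J.card = 2 by omega)
    rw [lJq_two r i k hp]
    linarith [h2 i k hik]

/-- alive points (`StmtA.Ar`) at a later half step, other labels -/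
theorem alz_of_Ar {q : AP} {r r' : ℕ} (hr : r ≤ r') {p p' : Pt (Fin 3) X β φ} (hp : (D.P h 0).p p ≠ 0)
    (hx : p.1 = p'.1) (hy : p.2.1 = p'.2.1) (hA : Ar h v q r' p') : Alz h v (max q.X0 q.X1) r p := by
  have hpos : ((p.1, p.2.1) : X × (Fin 3 → β)) = (p'.1, p'.2.1) := Prod.ext hx hy
  have hN : NPr v D r p = NPr v D r p' := NPr_pos r p p' hpos
  have hX : ∀ i, XLr v r i p = XLr v r i p' := fun i => XLr_eq hx hy
  refine alz_of hp (fun i => ?_) fun i k hik => ?_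
  · have h1 : sps h v r i p = sps h v r i p' := sps_fac h p p' (Prod.ext (hX i) hN)
    rw [h1]
    exact (hA.2.1 i r hr).trans (le_max_left _ _)
  · have h1 : spp h v r i k p = spp h v r i k p' := spp_fac h p p' (Prod.ext (funext hX) hN)
    rw [h1]
    exact (hA.2.2.1 r hr i k hik).trans (le_max_right _ _)

end alive

/-! ### the run -/

section run

variable {X β γ φ : Type} [Fintype X] [Fintype β] [Fintype φ] [Nonempty X] [Nonempty β]
variable {D : HD (Fin 3) X β γ φ} {al : ℝ} {h : D.Thick al} {v : ℕ → Finset (Fin 3) → X → (Fin 3 → β) → Pt (Fin 3) X β φ}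
variable {dg : ℕ → X → ℝ} {prr : ℕ → Fin 3 → φ → φ} {T : ℕ} {Lam : ℝ} {W : Type} [Fintype W] {tb : Tab D prr T W}
variable {M : MS (Om W X β)}

/-- errors of one thin static relation -/
noncomputable def ErB (M : MS (Om W X β)) (T : ℕ) (n N1 Lam X1 X2 x dl : ℝ) (K : ℕ) : ℝ :=
  432 * 5 * x * n * Lam + 2 * (1 + 8 * x) * (e9z N1 X1 X2 x dl K * (1 + N0 M (5 * T)) + 5 * TnB n N1 Lam dl) +
    6 / (x * (K + 1)) * (1 + N0 M (5 * T))

/-- tiny digits -/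
theorem tny_le {n N1 : ℝ} (hn : 1 ≤ n) (hN1 : 1 ≤ N1) (R : Run h (pr3 (Fin 3) n N1) (SS1 (Fin 3)) (AdmDep D) v)
    (H : D.Hyp dg prr al T Lam) {dl : ℝ} (hdl : 0 < dl) (hdl1 : 64 * dl ≤ 1) : Tny h v dl T ≤ TnB n N1 Lam dl := by
  have h1 := tiny_le (h := h) R.codes H hdl hdl1
  have h2 := bias_le hn hN1 R H
  have h3 := mul_le_mul_of_nonneg_left h2 (by positivity : (0 : ℝ) ≤ 64 * dl)
  exact h1.trans h3

/-- one thin static relation, errors as `ErB` -/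
theorem rest_rem' {n N1 : ℝ} (hn : 1 ≤ n) (hN1 : 1 ≤ N1) (R : Run h (pr3 (Fin 3) n N1) (SS1 (Fin 3)) (AdmDep D) v)
    (H : D.Hyp dg prr al T Lam) (hM : Rp tb v M)
    {C E : Finset (Fin 3)} (hc : Cpl C E) (hCc : C.card ≤ 2) (hEc : E.card ≤ 2) {p1 X1 X2 x dl : ℝ} {K : ℕ}
    (hpar : ParZ N1 x p1 X1 X2 M.d0 M.k0 dl K) (hdl1 : 64 * dl ≤ 1) {Hs : ℕ → Om W X β → Prop} (hR : RelS M C E p1 Hs)
    {g : ℕ → Om W X β → ℝ} (hg : ∀ s, Fac (fun w : Om W X β => (w.1, PJ C (tb.pt 0 w), M.NP (s + 1) w)) (g s))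
    (hg0 : ∀ s w, 0 ≤ g s w) (hg1 : ∀ s w, g s w ≤ 1) :
    ∑ s ∈ range (5 * T), M.P.E (fun w => ind (lt5 M M.NP s w) *
        (ind (Hs (nu M s w) w ∧ Avz h v C E X1 (nu M s w) (tb.pt 0 w)) * g s w)) ≤
      x / 2 * ∑ s ∈ range (5 * T), M.P.E (fun w => ind (lt5 M M.NP s w) * g s w) + ErB M T n N1 Lam X1 X2 x dl K := by
  have h1 := rest_rem hn hN1 R (TD.F15.prc_pr3 hn hN1) H hM hc hCc hEc hpar hR hg hg0 hg1
  have h2 := tny_le hn hN1 R H hpar.dl0 hdl1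
  have hx := hpar.x0
  have h3 := mul_le_mul_of_nonneg_left h2 (show 0 ≤ 2 * (1 + 8 * x) * 5 by positivity)
  unfold ErB
  linarith

/-- **REST AT THE VERTEX `b`, THE SUM OVER ALL PUBLIC REMOVALS** (H3.MOV, M.8) -/
theorem rest_v {n N1 : ℝ} (hn : 1 ≤ n) (hN1 : 1 ≤ N1) (R : Run h (pr3 (Fin 3) n N1) (SS1 (Fin 3)) (AdmDep D) v)
    (H : D.Hyp dg prr al T Lam) (hM : Rp tb v M) {b c d : Fin 3} (hall : ∀ j : Fin 3, j = b ∨ j = c ∨ j = d)
    (hbc : b ≠ c) (hbd : b ≠ d) (hcd : c ≠ d) {p1 X1 X2 x dl : ℝ} {K : ℕ} (hpar : ParZ N1 x p1 X1 X2 M.d0 M.k0 dl K)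
    (hdl1 : 64 * dl ≤ 1) (hTh : Thk M Lam) (hsm : 12 * M.d0 ≤ Real.exp (-(4 * Lam))) (hPN : PrN M) (hPX : PrX M)
    {Tot : ℝ} (hT : Tot0 M (5 * T) Tot) {k4 k2 p2 e kl : ℝ} (hk4 : 0 < k4) (hk2 : 12 * M.d0 ≤ k2) (hp2 : 12 * M.d0 ≤ p2)
    (he : 0 < e) (hkl : M.k0 < kl) (hc1 : 2 * e * k4 ≤ p1) (hc2 : 2 * e * p2 ≤ p1) (hc3 : 2 * e * (k2 / k4) ≤ p1)
    {gC gD Wt : ℕ → Om W X β → ℝ}
    (hgC : ∀ s, Fac (fun w : Om W X β => (w.1, PJ {b, d} (tb.pt 0 w), M.NP (s + 1) w)) (gC s))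
    (hgD : ∀ s, Fac (fun w : Om W X β => (w.1, PJ {b, c} (tb.pt 0 w), M.NP (s + 1) w)) (gD s))
    (hC1 : ∀ s w, gC s w ≤ 1) (hD1 : ∀ s w, gD s w ≤ 1) (hW0 : ∀ s w, 0 ≤ Wt s w) (hWC : ∀ s w, Wt s w ≤ gC s w)
    (hWD : ∀ s w, Wt s w ≤ gD s w) :
    ∑ s ∈ range (5 * T), M.P.E (fun w => ind (lt5 M M.NP s w) *
        (ind (Rst M b c d s w ∧ Alz h v X1 (rho (nu M s w)) (tb.pt 0 w)) * Wt s w)) ≤
      x / 2 * (∑ s ∈ range (5 * T), M.P.E (fun w => ind (lt5 M M.NP s w) * gC s w) +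
        ∑ s ∈ range (5 * T), M.P.E (fun w => ind (lt5 M M.NP s w) * gD s w)) +
      2 * ErB M T n N1 Lam X1 X2 x dl K + ThB M (5 * T) Lam Tot k2 p2 e kl := by
  have hL : 0 ≤ Lam := zero_le_one.trans H.Lam1
  have hd0 := M.hd0
  have h2e : 0 ≤ 2 * e := by linarith
  have hallD : ∀ j : Fin 3, j = b ∨ j = d ∨ j = c := fun j => by
    rcases hall j with h1 | h1 | h1
    · exact Or.inl h1
    · exact Or.inr (Or.inr h1)
    · exact Or.inr (Or.inl h1)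
  have rC := relC (M := M) hall h2e hk4.le (by linarith : (0 : ℝ) ≤ p2) hc1 hc2
  have rD := relD (M := M) hall h2e hk4 (by linarith : (0 : ℝ) ≤ k2) (by linarith : (0 : ℝ) ≤ p2) hc3 hc2
  have nb : ∀ i k : Fin 3, ({i, k} : Finset (Fin 3)).Nonempty := fun i k => ⟨i, Finset.mem_insert_self i _⟩
  have cb : ∀ i k : Fin 3, ({i, k} : Finset (Fin 3)).card ≤ 2 := fun i k => Finset.card_le_two
  have ns : ∀ i : Fin 3, ({i} : Finset (Fin 3)).Nonempty := fun i => ⟨i, Finset.mem_singleton_self i⟩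
  have cs : ∀ i : Fin 3, ({i} : Finset (Fin 3)).card ≤ 2 := fun i => by
    rw [Finset.card_singleton]
    norm_num
  have mC := rest_rem' hn hN1 R H hM (cpl3 hall hbc hcd) (cb b d) (cs c) hpar hdl1 rC hgC
    (fun s w => (hW0 s w).trans (hWC s w)) hC1
  have mD := rest_rem' hn hN1 R H hM (cpl3 hallD hbd hcd.symm) (cb b c) (cs d) hpar hdl1 rD hgD
    (fun s w => (hW0 s w).trans (hWD s w)) hD1
  have mT := thrown_le (M := M) hTh hL hsm hPN hPX hT hk2 hp2 he hkl b c d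
  have key : ∑ s ∈ range (5 * T), M.P.E (fun w => ind (lt5 M M.NP s w) *
        (ind (Rst M b c d s w ∧ Alz h v X1 (rho (nu M s w)) (tb.pt 0 w)) * Wt s w)) ≤
      ∑ s ∈ range (5 * T), M.P.E (fun w => ind (lt5 M M.NP s w) *
        (ind (HC M b c d k4 p2 (2 * e) (nu M s w) w ∧ Avz h v {b, d} {c} X1 (nu M s w) (tb.pt 0 w)) * gC s w)) +
      ∑ s ∈ range (5 * T), M.P.E (fun w => ind (lt5 M M.NP s w) *
        (ind (HD' M b c d k4 k2 p2 (2 * e) (nu M s w) w ∧ Avz h v {b, c} {d} X1 (nu M s w) (tb.pt 0 w)) * gD s w)) +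
      ∑ s ∈ range (5 * T), M.P.Pr (fun w => lt5 M M.NP s w ∧ Thx M b c d k2 p2 e s w) := by
    rw [← Finset.sum_add_distrib, ← Finset.sum_add_distrib]
    refine Finset.sum_le_sum fun s _ => ?_
    unfold FP.Pr
    rw [← M.P.E_add, ← M.P.E_add]
    refine M.P.E_mono fun w _ => ?_
    have n1 : 0 ≤ gC s w := (hW0 s w).trans (hWC s w)
    have n2 : 0 ≤ gD s w := (hW0 s w).trans (hWD s w)
    have a1 : 0 ≤ ind (lt5 M M.NP s w) * (ind (HC M b c d k4 p2 (2 * e) (nu M s w) w ∧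
        Avz h v {b, d} {c} X1 (nu M s w) (tb.pt 0 w)) * gC s w) := mul_nonneg (ind_nonneg _) (mul_nonneg (ind_nonneg _) n1)
    have a2 : 0 ≤ ind (lt5 M M.NP s w) * (ind (HD' M b c d k4 k2 p2 (2 * e) (nu M s w) w ∧
        Avz h v {b, c} {d} X1 (nu M s w) (tb.pt 0 w)) * gD s w) := mul_nonneg (ind_nonneg _) (mul_nonneg (ind_nonneg _) n2)
    have a3 := ind_nonneg (lt5 M M.NP s w ∧ Thx M b c d k2 p2 e s w)
    by_cases hl : lt5 M M.NP s w
    · by_cases hr : Rst M b c d s w ∧ Alz h v X1 (rho (nu M s w)) (tb.pt 0 w)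
      · rw [ind_of hl, ind_of hr, one_mul, one_mul]
        obtain ⟨r1, r2⟩ := hr
        rcases rst_split (k4 := k4) (k2 := k2) (p2 := p2) (e := e) hbc hbd r1 with r3 | r3 | r3
        · rw [ind_of (⟨hl, r3⟩ : lt5 M M.NP s w ∧ Thx M b c d k2 p2 e s w)]
          rw [ind_of hl] at a1 a2
          have := (hWC s w).trans (hC1 s w)
          linarith
        · have r4 : HC M b c d k4 p2 (2 * e) (nu M s w) w ∧ Avz h v {b, d} {c} X1 (nu M s w) (tb.pt 0 w) :=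
            ⟨r3, r2.avz (nb b d) (cb b d) (ns c) (cs c)⟩
          rw [ind_of hl] at a2
          rw [ind_of r4]
          have := hWC s w
          linarith
        · have r4 : HD' M b c d k4 k2 p2 (2 * e) (nu M s w) w ∧ Avz h v {b, c} {d} X1 (nu M s w) (tb.pt 0 w) :=
            ⟨r3, r2.avz (nb b c) (cb b c) (ns d) (cs d)⟩
          rw [ind_of hl] at a1
          rw [ind_of r4]
          have := hWD s w
          linarith
      · rw [ind_not hr, zero_mul, mul_zero]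
        linarith
    · rw [ind_not hl, zero_mul, zero_mul, zero_mul]
      linarith
  linarith

/-- the bound of what is thrown away, in numbers -/
noncomputable def ThC (Nl Lam Tot k2 p2 e kl kb p1s k0 : ℝ) : ℝ :=
  2 / k2 * (Real.exp (4 * Lam) * kb + (1 + 2 * Real.exp (4 * Lam)) * kl) * Nl +
    2 * (2 / p2 * (p1s + (1 + 2 * Real.exp (4 * Lam)) * kl) * Nl) +
    3 * (2 / Real.log (kl / k0) * (Tot + Real.sqrt (k0 / kl) * Nl)) +
    3 * (4 / e * (1 + Nl + 2 * Tot))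

theorem ThB_le {Nl Tot k2 p2 e kl : ℝ} {T : ℕ} (hk2 : 0 ≤ k2) (hp2 : 0 ≤ p2) (he : 0 < e) (hkl : M.k0 < kl)
    (hN : NL M T ≤ Nl) : ThB M T Lam Tot k2 p2 e kl ≤ ThC Nl Lam Tot k2 p2 e kl M.kb M.p1 M.k0 := by
  have hk0 := M.hk0
  have hkl0 : 0 < kl := hk0.trans hkl
  have hl : 0 < Real.log (kl / M.k0) := Real.log_pos (by rw [lt_div_iff₀ hk0]; linarith)
  have h1 := M.hkb
  have h2 := M.hp1
  have a1 : 0 ≤ 2 / k2 * (Real.exp (4 * Lam) * M.kb + (1 + 2 * Real.exp (4 * Lam)) * kl) := by positivity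
  have a2 : 0 ≤ 2 / p2 * (M.p1 + (1 + 2 * Real.exp (4 * Lam)) * kl) := by positivity
  have a3 : 0 ≤ 2 / Real.log (kl / M.k0) * Real.sqrt (M.k0 / kl) := by positivity
  have a4 : 0 ≤ 4 / e := by positivity
  have b1 := mul_le_mul_of_nonneg_left hN a1
  have b2 := mul_le_mul_of_nonneg_left hN a2
  have b3 := mul_le_mul_of_nonneg_left hN a3
  have b4 := mul_le_mul_of_nonneg_left hN a4
  unfold ThB ThC
  linarith

/-- **REST for the data `MSi`** (all hypotheses on the data discharged) -/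
theorem rest_MSi {n N1 : ℝ} (hn : 1 ≤ n) (hN1 : 1 ≤ N1) (R : Run h (pr3 (Fin 3) n N1) (SS1 (Fin 3)) (AdmDep D) v)
    (H : D.Hyp dg prr al T Lam) {d1 kb d0 k0 p1s z : ℝ} (hd1 : 0 < d1) (hd11 : d1 ≤ 1) (hkb : 0 < kb) (hd0 : 0 < d0)
    (hd01 : d0 ≤ 1) (hk0 : 0 < k0) (hp1s : 0 < p1s) (hz : 0 < z)
    {b c d : Fin 3} (hall : ∀ j : Fin 3, j = b ∨ j = c ∨ j = d)
    (hbc : b ≠ c) (hbd : b ≠ d) (hcd : c ≠ d) {p1 X1 X2 x dl : ℝ} {K : ℕ} (hpar : ParZ N1 x p1 X1 X2 d0 k0 dl K)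
    (hdl1 : 64 * dl ≤ 1) (hsm : 12 * d0 ≤ Real.exp (-(4 * Lam)))
    {k4 k2 p2 e kl : ℝ} (hk4 : 0 < k4) (hk2 : 12 * d0 ≤ k2) (hp2 : 12 * d0 ≤ p2)
    (he : 0 < e) (hkl : k0 < kl) (hc1 : 2 * e * k4 ≤ p1) (hc2 : 2 * e * p2 ≤ p1) (hc3 : 2 * e * (k2 / k4) ≤ p1)
    {gC gD Wt : ℕ → Om W X β → ℝ}
    (hgC : ∀ s, Fac (fun w : Om W X β => (w.1, PJ {b, d} (tb.pt 0 w), NPo tb v (s + 1) w)) (gC s))
    (hgD : ∀ s, Fac (fun w : Om W X β => (w.1, PJ {b, c} (tb.pt 0 w), NPo tb v (s + 1) w)) (gD s))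
    (hC1 : ∀ s w, gC s w ≤ 1) (hD1 : ∀ s w, gD s w ≤ 1) (hW0 : ∀ s w, 0 ≤ Wt s w) (hWC : ∀ s w, Wt s w ≤ gC s w)
    (hWD : ∀ s w, Wt s w ≤ gD s w) :
    ∑ s ∈ range (5 * T), tb.Ps.E (fun w =>
        ind (lt5 (MSi tb (v := v) d1 kb d0 k0 p1s z hd1 hd11 hkb hd0 hd01 hk0 hp1s hz) (NPo tb v) s w) *
        (ind (Rst (MSi tb (v := v) d1 kb d0 k0 p1s z hd1 hd11 hkb hd0 hd01 hk0 hp1s hz) b c d s w ∧
          Alz h v X1 (rho (nu (MSi tb (v := v) d1 kb d0 k0 p1s z hd1 hd11 hkb hd0 hd01 hk0 hp1s hz) s w)) (tb.pt 0 w)) *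
          Wt s w)) ≤
      x / 2 * (∑ s ∈ range (5 * T), tb.Ps.E (fun w =>
          ind (lt5 (MSi tb (v := v) d1 kb d0 k0 p1s z hd1 hd11 hkb hd0 hd01 hk0 hp1s hz) (NPo tb v) s w) * gC s w) +
        ∑ s ∈ range (5 * T), tb.Ps.E (fun w =>
          ind (lt5 (MSi tb (v := v) d1 kb d0 k0 p1s z hd1 hd11 hkb hd0 hd01 hk0 hp1s hz) (NPo tb v) s w) * gD s w)) +
      2 * ErB (MSi tb (v := v) d1 kb d0 k0 p1s z hd1 hd11 hkb hd0 hd01 hk0 hp1s hz) T n N1 Lam X1 X2 x dl K +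
      ThC (6 * n * N1 * Lam) Lam (12 * n * Lam) k2 p2 e kl kb p1s k0 := by
  set M := MSi tb (v := v) d1 kb d0 k0 p1s z hd1 hd11 hkb hd0 hd01 hk0 hp1s hz with hMd
  have h1 := rest_v (M := M) hn hN1 R H (rp_MSi tb v hd1 hd11 hkb hd0 hd01 hk0 hp1s hz) hall hbc hbd hcd hpar hdl1
    (thks h tb v hd1 hd11 hkb hd0 hd01 hk0 hp1s hz H).thk hsm (prN tb hd1 hd11 hkb hd0 hd01 hk0 hp1s hz R.codes)
    (prX tb hd1 hd11 hkb hd0 hd01 hk0 hp1s hz R.codes) (tot0 tb hd1 hd11 hkb hd0 hd01 hk0 hp1s hz hn hN1 R H)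
    hk4 hk2 hp2 he hkl hc1 hc2 hc3 hgC hgD hC1 hD1 hW0 hWC hWD
  have h2 := ThB_le (M := M) (Lam := Lam) (Tot := 12 * n * Lam) (k2 := k2) (p2 := p2) (by linarith) (by linarith) he hkl
    (nl tb hd1 hd11 hkb hd0 hd01 hk0 hp1s hz hn hN1 R H)
  exact h1.trans (add_le_add le_rfl h2)

end run

end Pool.Agent.GMH.RZ
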