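import Pool.Agent.GMH.Key3

/-!
# GMH/KinF: the kinds of tuples, in a frame (helper11; kinds of helper12's `GMH/Dyn`, marginals as in helper27 46609)

Frame: one law `P`, `Z` = all thin letters and node, `Zb i` = what the top `i` sees, `F i` the tops (or two tops: `Fo F i`).
* `pS S w f` = probability of `F_S = f_S` given `Z`; `mF i w x` the same for one top (`GMH/Key3`);
* `dens S w f` = `pS S` divided by the product of the marginals `mF`, `tvn S w f` = distance of the law of the other tops,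
  given `F_S = f_S`, from the product of the marginals, times `2 pS S w f`;
* constants `KC`; `bad c i` = the top `i` is bad; properties `Ap c k`, kinds `kdF c k` (`Ap k` and no `Ap j`, `j < k`): `1` `R0`
  (thin), `2, 3, 4` exactly the top `k - 2` is bad, `5` at least two tops are bad, `6, 7, 8` bad pair (the two tops of the
  vertex `k - 6`), `9` `HT` (kinds of helper12 46861, helper40 46756); they are functions of the law of the tops given `Z`;
  separate, with the own laws: `sF` (thin), `sS i` (single);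
* `kdF_fac`, `kdF_dis`, `Ap_kd`, `bad_kd` (a bad top is in `R0` or in a kind `2 .. 5`); `good_row`, `good_pair` : what `key3r`
  wants from good letters and good pairs, outside `sF`.
-/

set_option autoImplicit false
set_option linter.unusedSectionVars false

namespace Pool.Agent.GMH.KF

open Finset Pool.Agent.PWZ Pool.Agent.M3 Pool.Agent.GMH

noncomputable section

/-- thresholds: `SF`, `R0`, `G`, rows of `H`, pairs and triples, singles -/
structure KC where
  eF : ℝ
  e1 : ℝ
  e2 : ℝ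
  e3 : ℝ
  dH : ℝ
  eS : ℝ

/-- the tops other than `i` -/
def opp (i : Fin 3) : Finset (Fin 3) := univ.erase i

section fr

variable {Om : Type*} [Fintype Om] (P : FP Om) {α β φ : Type*} (Z : Om → β) (Zb : Fin 3 → Om → α) (F : Fin 3 → Om → φ)

/-- probability of the tops of `S` given all thin letters -/
def pS (S : Finset (Fin 3)) (w : Om) (f : Fin 3 → φ) : ℝ := P.ce Z (fun u => ind (∀ i ∈ S, F i u = f i)) w

/-- density of the tops of `S` against the marginals -/
def dens (S : Finset (Fin 3)) (w : Om) (f : Fin 3 → φ) : ℝ := pS P Z F S w f / ∏ i ∈ S, mF P Z F i w (f i)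

/-- distance of the law of the other tops from the product of the marginals, times `2 pS` -/
def tvn (S : Finset (Fin 3)) (w : Om) (f : Fin 3 → φ) : ℝ := ∑ g ∈ let_ F, ind (∀ i ∈ S, g i = f i) *
  |pF P Z F w g - pS P Z F S w g * ∏ i ∈ univ \ S, mF P Z F i w (g i)|

/-- distance of the law of one top given all thin letters from its own law, times `2` -/
def tv1n (i : Fin 3) (w : Om) : ℝ := ∑ x ∈ vals (F i), |mF P Z F i w x - qF P Zb F i w x|

/-- the tops have a bad own law (thin) -/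
def sF (c : KC) (w : Om) : Prop := ∃ i, 2 * c.eF ≤ tv1n P Z Zb F i w

/-- single top against its own law -/
def sS (c : KC) (i : Fin 3) (w : Om) (f : Fin 3 → φ) : Prop :=
  c.eS ≤ |Real.log (mF P Z F i w (f i) / qF P Zb F i w (f i))|

/-- the top `i` is bad -/
def bad (c : KC) (i : Fin 3) (w : Om) (f : Fin 3 → φ) : Prop :=
  0 < pS P Z F {i} w f ∧ 2 * c.e2 * pS P Z F {i} w f ≤ tvn P Z F {i} w f

/-- the properties -/
def Ap (c : KC) : ℕ → Om → (Fin 3 → φ) → Prop
  | 1, w, f => 2 * c.e1 ≤ tvn P Z F ∅ w f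
  | 2, w, f => bad P Z F c 0 w f ∧ ¬ bad P Z F c 1 w f ∧ ¬ bad P Z F c 2 w f
  | 3, w, f => bad P Z F c 1 w f ∧ ¬ bad P Z F c 0 w f ∧ ¬ bad P Z F c 2 w f
  | 4, w, f => bad P Z F c 2 w f ∧ ¬ bad P Z F c 0 w f ∧ ¬ bad P Z F c 1 w f
  | 5, w, f => (bad P Z F c 0 w f ∧ bad P Z F c 1 w f) ∨ (bad P Z F c 0 w f ∧ bad P Z F c 2 w f) ∨
      (bad P Z F c 1 w f ∧ bad P Z F c 2 w f)
  | 6, w, f => 0 < pS P Z F (opp 0) w f ∧
      (c.dH ≤ |dens P Z F (opp 0) w f - 1| ∨ 2 * c.e3 * pS P Z F (opp 0) w f ≤ tvn P Z F (opp 0) w f)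
  | 7, w, f => 0 < pS P Z F (opp 1) w f ∧
      (c.dH ≤ |dens P Z F (opp 1) w f - 1| ∨ 2 * c.e3 * pS P Z F (opp 1) w f ≤ tvn P Z F (opp 1) w f)
  | 8, w, f => 0 < pS P Z F (opp 2) w f ∧
      (c.dH ≤ |dens P Z F (opp 2) w f - 1| ∨ 2 * c.e3 * pS P Z F (opp 2) w f ≤ tvn P Z F (opp 2) w f)
  | 9, w, f => 1 + 4 * c.dH ≤ dens P Z F univ w f
  | _, _, _ => False

/-- **the kind `k`** -/
def kdF (c : KC) (k : Fin 10) (w : Om) (f : Fin 3 → φ) : Prop :=
  Ap P Z F c k.1 w f ∧ ∀ j < k.1, ¬ Ap P Z F c j w f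

variable {Z Zb}

theorem pS_fac (S : Finset (Fin 3)) (f : Fin 3 → φ) : Fac Z (fun w => pS P Z F S w f) := P.ce_fac Z _

theorem qF_fac (hZ : ∀ i, Fac Z (Zb i)) (i : Fin 3) (x : φ) : Fac Z (fun w => qF P Zb F i w x) := fun a b hab =>
  P.pv_fac (Zb i) (F i) x a b (hZ i a b hab)

theorem mF_fac (i : Fin 3) (x : φ) : Fac Z (fun w => mF P Z F i w x) := P.pv_fac Z (F i) x

theorem dens_fac (S : Finset (Fin 3)) (f : Fin 3 → φ) : Fac Z (fun w => dens P Z F S w f) := by
  intro a b hab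
  have h1 : pS P Z F S a f = pS P Z F S b f := pS_fac P F S f a b hab
  have h2 : ∀ i x, mF P Z F i a x = mF P Z F i b x := fun i x => mF_fac P F i x a b hab
  show dens P Z F S a f = dens P Z F S b f
  unfold dens
  simp only [h1, h2]

theorem tvn_fac (S : Finset (Fin 3)) (f : Fin 3 → φ) : Fac Z (fun w => tvn P Z F S w f) := by
  intro a b hab
  have h1 : ∀ g, pS P Z F S a g = pS P Z F S b g := fun g => pS_fac P F S g a b hab
  have h2 : ∀ i x, mF P Z F i a x = mF P Z F i b x := fun i x => mF_fac P F i x a b hab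
  have h3 : ∀ g, pF P Z F a g = pF P Z F b g := fun g => P.pv_fac Z (tup F) g a b hab
  show tvn P Z F S a f = tvn P Z F S b f
  unfold tvn
  simp only [h1, h2, h3]

theorem tv1n_fac (hZ : ∀ i, Fac Z (Zb i)) (i : Fin 3) : Fac Z (fun w => tv1n P Z Zb F i w) := by
  intro a b hab
  have h2 : ∀ x, qF P Zb F i a x = qF P Zb F i b x := fun x => qF_fac P F hZ i x a b hab
  have h3 : ∀ x, mF P Z F i a x = mF P Z F i b x := fun x => mF_fac P F i x a b hab
  show tv1n P Z Zb F i a = tv1n P Z Zb F i b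
  unfold tv1n
  simp only [h2, h3]

theorem sF_fac (hZ : ∀ i, Fac Z (Zb i)) (c : KC) : Fac Z (fun w => sF P Z Zb F c w) := by
  intro a b hab
  have h4 : ∀ i, tv1n P Z Zb F i a = tv1n P Z Zb F i b := fun i => tv1n_fac P F hZ i a b hab
  show sF P Z Zb F c a = sF P Z Zb F c b
  unfold sF
  simp only [h4]

theorem sS_fac (hZ : ∀ i, Fac Z (Zb i)) (c : KC) (i : Fin 3) (f : Fin 3 → φ) :
    Fac Z (fun w => sS P Z Zb F c i w f) := by
  intro a b hab
  have h2 : ∀ x, qF P Zb F i a x = qF P Zb F i b x := fun x => qF_fac P F hZ i x a b hab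
  have h3 : ∀ x, mF P Z F i a x = mF P Z F i b x := fun x => mF_fac P F i x a b hab
  show sS P Z Zb F c i a f = sS P Z Zb F c i b f
  unfold sS
  simp only [h2, h3]

theorem bad_fac (c : KC) (i : Fin 3) (f : Fin 3 → φ) : Fac Z (fun w => bad P Z F c i w f) := by
  intro a b hab
  have h1 : ∀ S, pS P Z F S a f = pS P Z F S b f := fun S => pS_fac P F S f a b hab
  have h3 : ∀ S, tvn P Z F S a f = tvn P Z F S b f := fun S => tvn_fac P F S f a b hab
  show bad P Z F c i a f = bad P Z F c i b f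
  unfold bad
  simp only [h1, h3]

theorem Ap_fac (c : KC) (k : ℕ) (f : Fin 3 → φ) : Fac Z (fun w => Ap P Z F c k w f) := by
  intro a b hab
  have h1 : ∀ S, pS P Z F S a f = pS P Z F S b f := fun S => pS_fac P F S f a b hab
  have h2 : ∀ S, dens P Z F S a f = dens P Z F S b f := fun S => dens_fac P F S f a b hab
  have h3 : ∀ S, tvn P Z F S a f = tvn P Z F S b f := fun S => tvn_fac P F S f a b hab
  have h4 : ∀ i, bad P Z F c i a f = bad P Z F c i b f := fun i => bad_fac P F c i f a b hab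
  show Ap P Z F c k a f = Ap P Z F c k b f
  unfold Ap
  split <;> simp only [h1, h2, h3, h4]

/-- the kinds are static relations of the thin letters and the tuple -/
theorem kdF_fac (c : KC) (k : Fin 10) (f : Fin 3 → φ) :
    Fac Z (fun w => kdF P Z F c k w f) := by
  intro a b hab
  have h1 : ∀ j, Ap P Z F c j a f = Ap P Z F c j b f := fun j => Ap_fac P F c j f a b hab
  show kdF P Z F c k a f = kdF P Z F c k b f
  unfold kdF
  simp only [h1]

variable {P F}

/-- the kinds are disjoint -/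
theorem kdF_dis {c : KC} {k k' : Fin 10} {w : Om} {f : Fin 3 → φ} (h : kdF P Z F c k w f)
    (h' : kdF P Z F c k' w f) : k = k' := by
  rcases lt_trichotomy k.1 k'.1 with h1 | h1 | h1
  · exact absurd h.1 (h'.2 k.1 h1)
  · exact Fin.ext h1
  · exact absurd h'.1 (h.2 k'.1 h1)

/-- a property holds iff the tuple is of a kind up to it -/
theorem Ap_kd {c : KC} {k : Fin 10} {w : Om} {f : Fin 3 → φ} (h : Ap P Z F c k.1 w f) :
    ∃ j : Fin 10, j ≤ k ∧ kdF P Z F c j w f := by
  classical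
  have hex : ∃ n, Ap P Z F c n w f := ⟨k.1, h⟩
  have h1 : Nat.find hex ≤ k.1 := Nat.find_min' hex h
  exact ⟨⟨Nat.find hex, lt_of_le_of_lt h1 k.2⟩, h1, Nat.find_spec hex, fun j hj => Nat.find_min hex hj⟩

/-- a bad top is in `R0` or in one of the kinds `2 .. 5` -/
theorem bad_kd {c : KC} {i : Fin 3} {w : Om} {f : Fin 3 → φ} (h : bad P Z F c i w f) :
    kdF P Z F c 1 w f ∨ kdF P Z F c 2 w f ∨ kdF P Z F c 3 w f ∨ kdF P Z F c 4 w f ∨ kdF P Z F c 5 w f := by
  classical
  have h5 : ∃ k : Fin 10, k ≤ 5 ∧ Ap P Z F c k.1 w f := by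
    by_cases b0 : bad P Z F c 0 w f <;> by_cases b1 : bad P Z F c 1 w f <;> by_cases b2 : bad P Z F c 2 w f
    · exact ⟨5, le_rfl, Or.inl ⟨b0, b1⟩⟩
    · exact ⟨5, le_rfl, Or.inl ⟨b0, b1⟩⟩
    · exact ⟨5, le_rfl, Or.inr (Or.inl ⟨b0, b2⟩)⟩
    · exact ⟨2, by decide, ⟨b0, b1, b2⟩⟩
    · exact ⟨5, le_rfl, Or.inr (Or.inr ⟨b1, b2⟩)⟩
    · exact ⟨3, by decide, ⟨b1, b0, b2⟩⟩
    · exact ⟨4, by decide, ⟨b2, b0, b1⟩⟩
    · exfalso
      fin_cases i
      · exact b0 h
      · exact b1 h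
      · exact b2 h
  obtain ⟨k, hk, hA⟩ := h5
  obtain ⟨j, hj, hd⟩ := Ap_kd hA
  have hj5 : j ≤ 5 := hj.trans hk
  have key : ∀ j : Fin 10, j ≤ 5 → j = 0 ∨ j = 1 ∨ j = 2 ∨ j = 3 ∨ j = 4 ∨ j = 5 := by decide
  rcases key j hj5 with rfl | rfl | rfl | rfl | rfl | rfl
  · exact absurd hd.1 (fun h => h)
  · exact Or.inl hd
  · exact Or.inr (Or.inl hd)
  · exact Or.inr (Or.inr (Or.inl hd))
  · exact Or.inr (Or.inr (Or.inr (Or.inl hd)))
  · exact Or.inr (Or.inr (Or.inr (Or.inr hd)))

variable (P F)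

/-! ### special sets of tops -/

theorem pS_univ (w : Om) (f : Fin 3 → φ) : pS P Z F univ w f = pF P Z F w f := by
  unfold pS pF FP.pv
  refine P.ce_congr (fun u _ => ?_) w
  congr 1
  exact propext ⟨fun h => funext fun i => h i (mem_univ i), fun h i _ => congrFun h i⟩

theorem pS_one (i : Fin 3) (w : Om) (f : Fin 3 → φ) : pS P Z F {i} w f = mF P Z F i w (f i) := by
  unfold pS mF FP.pv
  refine P.ce_congr (fun u _ => ?_) w
  congr 1
  exact propext ⟨fun h => h i (Finset.mem_singleton_self i), fun h j hj => by rw [Finset.mem_singleton.1 hj]; exact h⟩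

theorem pS_two {i k : Fin 3} {S : Finset (Fin 3)} (hS : S = {i, k}) (w : Om) (f : Fin 3 → φ) :
    pS P Z F S w f = mF2 P Z F i k w (f i) (f k) := by
  subst hS
  unfold pS mF2 FP.pv
  refine P.ce_congr (fun u _ => ?_) w
  congr 1
  refine propext ⟨fun h => ?_, fun h j hj => ?_⟩
  · show (F i u, F k u) = (f i, f k)
    rw [h i (by simp), h k (by simp)]
  · simp only [Prod.mk.injEq] at h
    rcases Finset.mem_insert.1 hj with h1 | h1
    · rw [h1]; exact h.1
    · rw [Finset.mem_singleton.1 h1]; exact h.2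

theorem pS_empty {w : Om} (hw : P.p w ≠ 0) (f : Fin 3 → φ) : pS P Z F ∅ w f = 1 := by
  unfold pS
  have h1 : P.ce Z (fun u => ind (∀ i ∈ (∅ : Finset (Fin 3)), F i u = f i)) w = P.ce Z (fun _ => 1) w :=
    P.ce_congr (fun u _ => ind_of fun i hi => absurd hi (Finset.notMem_empty i)) w
  rw [h1, P.ce_const _ _ hw]

theorem pS_nn (S : Finset (Fin 3)) (w : Om) (f : Fin 3 → φ) : 0 ≤ pS P Z F S w f := P.ce_nonneg (fun _ _ => ind_nonneg _) w

theorem pS_anti {S S' : Finset (Fin 3)} (h : S ⊆ S') (w : Om) (f : Fin 3 → φ) : pS P Z F S' w f ≤ pS P Z F S w f :=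
  P.ce_mono (fun _ _ => ind_mono fun h1 i hi => h1 i (h hi)) w

theorem mF_nn (i : Fin 3) (w : Om) (x : φ) : 0 ≤ mF P Z F i w x := P.pv_nonneg _ _ _ _

/-! ### what `key3r` wants -/

/-- sum over the tuples with one letter fixed -/
theorem sum_fix {i j k : Fin 3} (hij : i ≠ j) (hik : i ≠ k) (hjk : j ≠ k) {x : φ} (a b : φ → ℝ) :
    ∑ g ∈ let_ F, ind (g i = x) * (a (g j) * b (g k)) =
      (∑ y ∈ vals (F i), ind (y = x)) * ((∑ y ∈ vals (F j), a y) * ∑ y ∈ vals (F k), b y) := by
  classical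
  set cc : Fin 3 → φ → ℝ := fun l y => if l = i then ind (y = x) else if l = j then a y else b y with hcc
  have e : ∀ G : Fin 3 → ℝ, ∏ l, G l = G i * (G j * G k) := by
    intro G
    have hu : (univ : Finset (Fin 3)) = {i, j, k} := by
      have key : ∀ i j k : Fin 3, i ≠ j → i ≠ k → j ≠ k → (univ : Finset (Fin 3)) = {i, j, k} := by decide
      exact key i j k hij hik hjk
    rw [hu, Finset.prod_insert (by simp [hij, hik]), Finset.prod_insert (by simp [hjk]), Finset.prod_singleton]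
  have h1 := Finset.prod_univ_sum (fun l => vals (F l)) cc
  rw [e] at h1
  have c1 : ∀ y, cc i y = ind (y = x) := fun y => if_pos rfl
  have c2 : ∀ y, cc j y = a y := fun y => by
    show (if j = i then ind (y = x) else if j = j then a y else b y) = a y
    rw [if_neg hij.symm, if_pos rfl]
  have c3 : ∀ y, cc k y = b y := fun y => by
    show (if k = i then ind (y = x) else if k = j then a y else b y) = b y
    rw [if_neg hik.symm, if_neg hjk.symm]
  simp only [c1, c2, c3] at h1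
  rw [h1]
  unfold let_
  refine Finset.sum_congr rfl fun g _ => ?_
  rw [e, c1, c2, c3]

theorem sum_ind_le (V : Om → φ) (x : φ) : ∑ y ∈ vals V, ind (y = x) ≤ 1 := by
  classical
  by_cases h : x ∈ vals V
  · rw [Finset.sum_eq_single x (fun y _ hy => ind_not hy) (fun h' => absurd h h'), ind_of rfl]
  · have h0 : ∑ y ∈ vals V, ind (y = x) = 0 := Finset.sum_eq_zero fun y hy => ind_not fun (e : y = x) => h (e ▸ hy)
    rw [h0]
    norm_num

/-- two product laws -/
theorem prod_tv {i j k : Fin 3} (hij : i ≠ j) (hik : i ≠ k) (hjk : j ≠ k) {w : Om} (hw : P.p w ≠ 0) (x : φ) :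
    ∑ g ∈ let_ F, ind (g i = x) * |mF P Z F j w (g j) * mF P Z F k w (g k) - qF P Zb F j w (g j) * qF P Zb F k w (g k)| ≤
      tv1n P Z Zb F j w + tv1n P Z Zb F k w := by
  have s1 : ∑ y ∈ vals (F k), mF P Z F k w y = 1 := P.pv_sum Z (F k) hw
  have s2 : ∑ y ∈ vals (F j), qF P Zb F j w y = 1 := P.pv_sum (Zb j) (F j) hw
  have n1 : ∀ l y, 0 ≤ mF P Z F l w y := fun l y => P.pv_nonneg _ _ _ _
  have n2 : ∀ l y, 0 ≤ qF P Zb F l w y := fun l y => P.pv_nonneg _ _ _ _
  have h1 : ∑ g ∈ let_ F, ind (g i = x) * |mF P Z F j w (g j) * mF P Z F k w (g k) -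
        qF P Zb F j w (g j) * qF P Zb F k w (g k)| ≤
      ∑ g ∈ let_ F, (ind (g i = x) * (|mF P Z F j w (g j) - qF P Zb F j w (g j)| * mF P Z F k w (g k)) +
        ind (g i = x) * (qF P Zb F j w (g j) * |mF P Z F k w (g k) - qF P Zb F k w (g k)|)) := by
    refine Finset.sum_le_sum fun g _ => ?_
    rw [← mul_add]
    refine mul_le_mul_of_nonneg_left ?_ (ind_nonneg _)
    have e : mF P Z F j w (g j) * mF P Z F k w (g k) - qF P Zb F j w (g j) * qF P Zb F k w (g k) =
        (mF P Z F j w (g j) - qF P Zb F j w (g j)) * mF P Z F k w (g k) +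
          qF P Zb F j w (g j) * (mF P Z F k w (g k) - qF P Zb F k w (g k)) := by ring
    rw [e]
    refine (abs_add_le _ _).trans (le_of_eq ?_)
    rw [abs_mul, abs_mul, abs_of_nonneg (n1 k (g k)), abs_of_nonneg (n2 j (g j))]
  refine h1.trans ?_
  rw [Finset.sum_add_distrib, sum_fix F hij hik hjk (fun y => |mF P Z F j w y - qF P Zb F j w y|) (fun y => mF P Z F k w y),
    sum_fix F hij hik hjk (fun y => qF P Zb F j w y) (fun y => |mF P Z F k w y - qF P Zb F k w y|), s1, s2, mul_one, one_mul]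
  have h2 := sum_ind_le (F i) x
  have h4 : 0 ≤ tv1n P Z Zb F j w := Finset.sum_nonneg fun _ _ => abs_nonneg _
  have h5 : 0 ≤ tv1n P Z Zb F k w := Finset.sum_nonneg fun _ _ => abs_nonneg _
  exact add_le_add (mul_le_of_le_one_left h4 h2) (mul_le_of_le_one_left h5 h2)

/-- the property `R0` is thin -/
theorem Ap1_iff (c : KC) {w : Om} (hw : P.p w ≠ 0) (f : Fin 3 → φ) : Ap P Z F c 1 w f ↔
    2 * c.e1 ≤ ∑ g ∈ let_ F, |pF P Z F w g - ∏ i, mF P Z F i w (g i)| := by
  show 2 * c.e1 ≤ tvn P Z F ∅ w f ↔ _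
  have e : tvn P Z F ∅ w f = ∑ g ∈ let_ F, |pF P Z F w g - ∏ i, mF P Z F i w (g i)| := by
    unfold tvn
    refine Finset.sum_congr rfl fun g _ => ?_
    rw [ind_of (fun i hi => absurd hi (Finset.notMem_empty i)), one_mul, pS_empty P F hw, one_mul, Finset.sdiff_empty]
  rw [e]

/-- a bad top -/
theorem bad_iff (c : KC) (i : Fin 3) (w : Om) (f : Fin 3 → φ) : bad P Z F c i w f ↔ (0 < mF P Z F i w (f i) ∧
    2 * c.e2 * mF P Z F i w (f i) ≤ ∑ g ∈ let_ F, ind (g i = f i) *
      |pF P Z F w g - mF P Z F i w (g i) * ∏ k ∈ univ.erase i, mF P Z F k w (g k)|) := by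
  have e : tvn P Z F {i} w f = ∑ g ∈ let_ F, ind (g i = f i) *
      |pF P Z F w g - mF P Z F i w (g i) * ∏ k ∈ univ.erase i, mF P Z F k w (g k)| := by
    unfold tvn
    refine Finset.sum_congr rfl fun g _ => ?_
    have e1 : (∀ j ∈ ({i} : Finset (Fin 3)), g j = f j) = (g i = f i) :=
      propext ⟨fun h => h i (Finset.mem_singleton_self i), fun h j hj => by rw [Finset.mem_singleton.1 hj]; exact h⟩
    have e2 : (univ \ {i} : Finset (Fin 3)) = univ.erase i := by
      ext j
      simp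
    rw [e1, e2, pS_one P F]
  unfold bad
  rw [e, pS_one P F]

/-- it depends on its letter only -/
theorem bad_letter (c : KC) (i : Fin 3) (w : Om) {f g : Fin 3 → φ} (h : f i = g i) :
    bad P Z F c i w f ↔ bad P Z F c i w g := by
  rw [bad_iff P F, bad_iff P F, h]

/-- **good letters** : the row against the own laws -/
theorem good_row {c : KC} {i : Fin 3} {w : Om} (hw : P.p w ≠ 0) (hs : ¬ sF P Z Zb F c w) {x : φ}
    (h : ¬ bad P Z F c i w (fun _ => x)) :
    ∑ g ∈ let_ F, ind (g i = x) * |pF P Z F w g - mF P Z F i w (g i) * ∏ k ∈ univ.erase i, qF P Zb F k w (g k)| ≤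
      (2 * c.e2 + 4 * c.eF) * mF P Z F i w x := by
  have hm : 0 ≤ mF P Z F i w x := mF_nn P F i w x
  obtain ⟨j, k, hij, hik, hjk, hu⟩ : ∃ j k : Fin 3, i ≠ j ∧ i ≠ k ∧ j ≠ k ∧ univ.erase i = ({j, k} : Finset (Fin 3)) := by
    have key : ∀ i : Fin 3, ∃ j k : Fin 3, i ≠ j ∧ i ≠ k ∧ j ≠ k ∧ univ.erase i = ({j, k} : Finset (Fin 3)) := by decide
    exact key i
  -- the row against the marginals
  have h0 : ∑ g ∈ let_ F, ind (g i = x) * |pF P Z F w g - mF P Z F i w (g i) * ∏ k ∈ univ.erase i, mF P Z F k w (g k)| ≤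
      2 * c.e2 * mF P Z F i w x := by
    rw [bad_iff P F] at h
    rcases hm.eq_or_lt with h1 | h1
    · -- probability zero
      rw [← h1, mul_zero]
      refine le_of_eq (Finset.sum_eq_zero fun g _ => ?_)
      by_cases hg : g i = x
      · have h2 : pF P Z F w g = 0 := by
          have h3 : pF P Z F w g ≤ mF P Z F i w (g i) := by
            rw [← pS_univ P F, ← pS_one P F]
            exact pS_anti P F (Finset.subset_univ _) w g
          rw [hg, ← h1] at h3
          exact le_antisymm h3 (P.pv_nonneg _ _ _ _)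
        rw [h2, hg, ← h1, zero_mul, sub_zero, abs_zero, mul_zero]
      · rw [ind_not hg, zero_mul]
    · by_contra h2
      exact h ⟨h1, (not_le.1 h2).le⟩
  have hs' : tv1n P Z Zb F j w < 2 * c.eF ∧ tv1n P Z Zb F k w < 2 * c.eF := by
    unfold sF at hs
    push Not at hs
    exact ⟨hs j, hs k⟩
  have h3 := prod_tv P F (Zb := Zb) (Z := Z) hij hik hjk hw x
  have h4 : ∑ g ∈ let_ F, ind (g i = x) * |pF P Z F w g - mF P Z F i w (g i) * ∏ k ∈ univ.erase i, qF P Zb F k w (g k)| ≤
      ∑ g ∈ let_ F, (ind (g i = x) * |pF P Z F w g - mF P Z F i w (g i) * ∏ k ∈ univ.erase i, mF P Z F k w (g k)| +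
        mF P Z F i w x * (ind (g i = x) * |mF P Z F j w (g j) * mF P Z F k w (g k) -
          qF P Zb F j w (g j) * qF P Zb F k w (g k)|)) := by
    refine Finset.sum_le_sum fun g _ => ?_
    by_cases hg : g i = x
    · rw [ind_of hg, one_mul, one_mul, one_mul, hu, Finset.prod_pair hjk, Finset.prod_pair hjk, hg]
      have e : pF P Z F w g - mF P Z F i w x * (qF P Zb F j w (g j) * qF P Zb F k w (g k)) =
          (pF P Z F w g - mF P Z F i w x * (mF P Z F j w (g j) * mF P Z F k w (g k))) +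
            mF P Z F i w x * (mF P Z F j w (g j) * mF P Z F k w (g k) - qF P Zb F j w (g j) * qF P Zb F k w (g k)) := by
        ring
      rw [e]
      refine (abs_add_le _ _).trans (le_of_eq ?_)
      rw [abs_mul, abs_of_nonneg hm]
    · rw [ind_not hg]
      simp
  refine h4.trans ?_
  rw [Finset.sum_add_distrib, ← Finset.mul_sum]
  have h5 := mul_le_mul_of_nonneg_left (h3.trans (add_le_add hs'.1.le hs'.2.le)) hm
  nlinarith

/-- **good pairs** : `j` is the third top -/
theorem good_pair {c : KC} {i k j : Fin 3} (hik : i ≠ k) (hij : i ≠ j) (hkj : k ≠ j) {w : Om} (_hw : P.p w ≠ 0)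
    (hs : ¬ sF P Z Zb F c w) {f : Fin 3 → φ} (h : ¬ Ap P Z F c (j.1 + 6) w f) :
    ∑ g ∈ let_ F, ind (g i = f i ∧ g k = f k) *
        |pF P Z F w g - mF2 P Z F i k w (g i) (g k) * qF P Zb F j w (g j)| ≤
        (2 * c.e3 + 2 * c.eF) * mF2 P Z F i k w (f i) (f k) ∧
      (0 < mF2 P Z F i k w (f i) (f k) → |dens P Z F (opp j) w f - 1| < c.dH) := by
  classical
  have hS : opp j = {i, k} := by
    have key : ∀ i k j : Fin 3, i ≠ k → i ≠ j → k ≠ j → univ.erase j = ({i, k} : Finset (Fin 3)) := by decide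
    exact key i k j hik hij hkj
  have hc : (univ \ opp j : Finset (Fin 3)) = {j} := by
    have key : ∀ j : Fin 3, univ \ univ.erase j = ({j} : Finset (Fin 3)) := by decide
    exact key j
  set m : ℝ := mF2 P Z F i k w (f i) (f k) with hm
  have hm0 : 0 ≤ m := P.pv_nonneg _ _ _ _
  have e : tvn P Z F (opp j) w f = ∑ g ∈ let_ F, ind (g i = f i ∧ g k = f k) *
      |pF P Z F w g - mF2 P Z F i k w (g i) (g k) * mF P Z F j w (g j)| := by
    unfold tvn
    refine Finset.sum_congr rfl fun g _ => ?_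
    have e1 : (∀ l ∈ opp j, g l = f l) = (g i = f i ∧ g k = f k) := by
      rw [hS]
      refine propext ⟨fun h => ⟨h i (by simp), h k (by simp)⟩, fun h l hl => ?_⟩
      rcases Finset.mem_insert.1 hl with h1 | h1
      · rw [h1]; exact h.1
      · rw [Finset.mem_singleton.1 h1]; exact h.2
    rw [e1, hc, Finset.prod_singleton, pS_two P F hS]
  have h1 : Ap P Z F c (j.1 + 6) w f ↔ (0 < m ∧ (c.dH ≤ |dens P Z F (opp j) w f - 1| ∨
      2 * c.e3 * m ≤ tvn P Z F (opp j) w f)) := by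
    rw [hm, ← pS_two P F hS]
    fin_cases j <;> exact Iff.rfl
  rw [h1] at h
  -- the pair against the marginal
  have h0 : ∑ g ∈ let_ F, ind (g i = f i ∧ g k = f k) *
      |pF P Z F w g - mF2 P Z F i k w (g i) (g k) * mF P Z F j w (g j)| ≤ 2 * c.e3 * m := by
    rcases hm0.eq_or_lt with h2 | h2
    · rw [← h2, mul_zero]
      refine le_of_eq (Finset.sum_eq_zero fun g _ => ?_)
      by_cases hg : g i = f i ∧ g k = f k
      · have h3 : pF P Z F w g ≤ mF2 P Z F i k w (g i) (g k) := by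
          rw [← pS_univ P F, ← pS_two P F hS]
          exact pS_anti P F (Finset.subset_univ _) w g
        have h4 : mF2 P Z F i k w (g i) (g k) = 0 := by rw [hg.1, hg.2, ← hm, ← h2]
        rw [h4] at h3
        rw [le_antisymm h3 (P.pv_nonneg _ _ _ _), h4, zero_mul, sub_zero, abs_zero, mul_zero]
      · rw [ind_not hg, zero_mul]
    · rw [← e]
      by_contra h3
      exact h ⟨h2, Or.inr (not_le.1 h3).le⟩
  have hs' : tv1n P Z Zb F j w < 2 * c.eF := by
    unfold sF at hs
    push Not at hs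
    exact hs j
  refine ⟨?_, fun h2 => by
    by_contra h3
    exact h ⟨h2, Or.inl (not_lt.1 h3)⟩⟩
  have h4 : ∑ g ∈ let_ F, ind (g i = f i ∧ g k = f k) *
        |pF P Z F w g - mF2 P Z F i k w (g i) (g k) * qF P Zb F j w (g j)| ≤
      ∑ g ∈ let_ F, (ind (g i = f i ∧ g k = f k) *
        |pF P Z F w g - mF2 P Z F i k w (g i) (g k) * mF P Z F j w (g j)| +
        m * (ind (g i = f i ∧ g k = f k) * |mF P Z F j w (g j) - qF P Zb F j w (g j)|)) := by
    refine Finset.sum_le_sum fun g _ => ?_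
    by_cases hg : g i = f i ∧ g k = f k
    · rw [ind_of hg, one_mul, one_mul, one_mul, hg.1, hg.2, ← hm]
      have e3 : pF P Z F w g - m * qF P Zb F j w (g j) = (pF P Z F w g - m * mF P Z F j w (g j)) +
          m * (mF P Z F j w (g j) - qF P Zb F j w (g j)) := by ring
      rw [e3]
      refine (abs_add_le _ _).trans (le_of_eq ?_)
      rw [abs_mul, abs_of_nonneg hm0]
    · rw [ind_not hg]
      simp
  have h5 : ∑ g ∈ let_ F, ind (g i = f i ∧ g k = f k) * |mF P Z F j w (g j) - qF P Zb F j w (g j)| ≤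
      tv1n P Z Zb F j w := by
    have h6 : ∀ g : Fin 3 → φ, ind (g i = f i ∧ g k = f k) * |mF P Z F j w (g j) - qF P Zb F j w (g j)| =
        ind (g i = f i) * ((fun y => ind (y = f k)) (g k) * (fun y => |mF P Z F j w y - qF P Zb F j w y|) (g j)) := by
      intro g
      rw [ind_and]
      ring
    rw [Finset.sum_congr rfl fun g _ => h6 g, sum_fix F hik hij hkj (fun y => ind (y = f k))
      (fun y => |mF P Z F j w y - qF P Zb F j w y|)]
    have h7 := sum_ind_le (F i) (f i)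
    have h8 := sum_ind_le (F k) (f k)
    have h9 : 0 ≤ ∑ y ∈ vals (F k), ind (y = f k) := Finset.sum_nonneg fun _ _ => ind_nonneg _
    have h10 : 0 ≤ tv1n P Z Zb F j w := Finset.sum_nonneg fun _ _ => abs_nonneg _
    refine (mul_le_of_le_one_left (mul_nonneg h9 h10) h7).trans ?_
    exact mul_le_of_le_one_left h10 h8
  refine h4.trans ?_
  rw [Finset.sum_add_distrib, ← Finset.mul_sum]
  have h11 := mul_le_mul_of_nonneg_left (h5.trans hs'.le) hm0
  nlinarith

end fr

end

end Pool.Agent.GMH.KF
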