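import Pool.Agent.GMH.TabP

/-!
# GMH/TabP2: product facts of the space with tables, second part (helper41; statements helper12)

`Ps_prod` means of products of functions of the positions; `Wl_pt` law of a point in a world; `Wl_avg`; `sgt_filt`,
`sgt_mono`; `cond_ce'`, `Wl_ce`; `sgt_m` the mass of a sight; `sgt_half`.
-/

set_option autoImplicit false
set_option linter.unusedSectionVars false

namespace Pool.Agent.GMH.Dy

open Finset Pool.Agent.PWZ Pool.Agent.M3 Pool.Agent.GM Pool.Agent.GM.Harm Pool.Agent.GMH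
open Pool.Agent.GMH.Gdy

variable {X β γ φ : Type} [Fintype X] [Fintype β] [Fintype φ] [Nonempty X] [Nonempty β]
variable {D : HD (Fin 3) X β γ φ} {al : ℝ} (h : D.Thick al) {prr : ℕ → Fin 3 → φ → φ} {T : ℕ} {W : Type} [Fintype W]
variable (tb : Tab D prr T W)

/-- means of products of functions of the coordinates of the positions (helper41) -/
theorem Ps_prod (g : X → ℝ) (G : Fin 3 → β → ℝ) :
    tb.Ps.E (fun w => g w.1 * ∏ j, G j (w.2.2 j)) =
      (∑ x, g x) / (Fintype.card X : ℝ) * ∏ j, ((∑ b, G j b) / (Fintype.card β : ℝ)) := by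
  classical
  rw [Ps_pos tb (fun u => g u.1 * ∏ j, G j (u.2 j)), FP.unif_E, Fintype.sum_prod_type]
  have h1 : ∑ y : Fin 3 → β, ∏ j, G j (y j) = ∏ j, ∑ b, G j b := by
    have h2 := Finset.prod_univ_sum (fun _ : Fin 3 => (univ : Finset β)) (fun j b => G j b)
    rw [Fintype.piFinset_univ] at h2
    exact h2.symm
  have h3 : ∀ x : X, ∑ y : Fin 3 → β, g (x, y).1 * ∏ j, G j ((x, y).2 j) = g x * ∏ j, ∑ b, G j b := by
    intro x
    show ∑ y : Fin 3 → β, g x * ∏ j, G j (y j) = _
    rw [← Finset.mul_sum, h1]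
  rw [Finset.sum_congr rfl fun x _ => h3 x, ← Finset.sum_mul, Fintype.card_prod, Fintype.card_fun, Fintype.card_fin,
    Finset.prod_div_distrib, Finset.prod_const, Finset.card_univ, Fintype.card_fin]
  push_cast
  rw [mul_div_mul_comm]

/-- the cells -/
theorem ind_cll (n : ℕ) (z w : Om W X β) :
    ind (cll D n w = cll D n z) = ind (w.1 = z.1) * ∏ j, ind (D.qb n (w.2.2 j) = D.qb n (z.2.2 j)) := by
  have h1 : ∀ p : Fin 3 → Prop, ∏ j, ind (p j) = ind (∀ j, p j) := by
    intro p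
    by_cases hp : ∀ j, p j
    · rw [ind_of hp]
      exact Finset.prod_eq_one fun j _ => ind_of (hp j)
    · rw [ind_not hp]
      push Not at hp
      obtain ⟨j, hj⟩ := hp
      exact Finset.prod_eq_zero (Finset.mem_univ j) (ind_not hj)
  rw [h1, ← ind_and]
  unfold cll
  congr 1
  rw [Prod.mk.injEq]
  exact propext (and_congr_right fun _ => funext_iff)

theorem sum_ind_cB (n : ℕ) (c : β) (f : β → ℝ) :
    ∑ b, ind (D.qb n b = D.qb n c) * f b = ∑ b ∈ D.cB n c, f b := by
  have h1 : ∀ b, b ∈ D.cB n c ↔ D.qb n b = D.qb n c := fun b => by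
    unfold HD.cB
    simp only [Finset.mem_filter, Finset.mem_univ, true_and]
  rw [← Finset.sum_subset (Finset.subset_univ (D.cB n c)) fun b _ hb => by
    rw [ind_not fun h => hb ((h1 b).2 h), zero_mul]]
  exact Finset.sum_congr rfl fun b hb => by rw [ind_of ((h1 b).1 hb), one_mul]

theorem cB_pos (n : ℕ) (c : β) : 0 < ((D.cB n c).card : ℝ) := by
  have h1 : 0 < (D.cB n c).card := Finset.card_pos.2 ⟨c, by
    unfold HD.cB
    simp only [Finset.mem_filter, Finset.mem_univ, true_and]⟩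
  exact_mod_cast h1

/-- law of one point in a world: uniform in its cell -/
theorem Wl_pt (n : ℕ) (z : Om W X β) (j : Fin 3) (f : β → ℝ) :
    (tb.Wl n z).E (fun w => f (w.2.2 j)) = (∑ b ∈ D.cB n (z.2.2 j), f b) / ((D.cB n (z.2.2 j)).card : ℝ) := by
  classical
  have hX : (Fintype.card X : ℝ) ≠ 0 := by exact_mod_cast Fintype.card_ne_zero
  have hB : (Fintype.card β : ℝ) ≠ 0 := by exact_mod_cast Fintype.card_ne_zero
  have hx : ∑ x : X, ind (x = z.1) = 1 := by
    rw [Finset.sum_eq_single z.1 (fun b _ hb => ind_not hb) (fun hb => absurd (Finset.mem_univ _) hb)]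
    exact ind_of rfl
  have h0 : tb.Ps.Pr (fun w => cll D n w = cll D n z) =
      1 / (Fintype.card X : ℝ) * ∏ i, (((D.cB n (z.2.2 i)).card : ℝ) / (Fintype.card β : ℝ)) := by
    unfold FP.Pr
    rw [tb.Ps.E_congr fun w _ => ind_cll n z w,
      Ps_prod tb (fun x => ind (x = z.1)) (fun i b => ind (D.qb n b = D.qb n (z.2.2 i))), hx]
    congr 1
    refine Finset.prod_congr rfl fun i _ => ?_
    congr 1
    have h2 := sum_ind_cB (D := D) n (z.2.2 i) (fun _ => (1 : ℝ))
    simp only [mul_one] at h2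
    rw [h2, Finset.sum_const, nsmul_eq_mul, mul_one]
  have h1 : tb.Ps.E (fun w => ind (cll D n w = cll D n z) * f (w.2.2 j)) =
      1 / (Fintype.card X : ℝ) * ∏ i, ((if i = j then ∑ b ∈ D.cB n (z.2.2 j), f b
        else ((D.cB n (z.2.2 i)).card : ℝ)) / (Fintype.card β : ℝ)) := by
    have e1 : ∀ w : Om W X β, ind (cll D n w = cll D n z) * f (w.2.2 j) =
        ind (w.1 = z.1) * ∏ i, (ind (D.qb n (w.2.2 i) = D.qb n (z.2.2 i)) * (if i = j then f (w.2.2 i) else 1)) := by
      intro w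
      rw [ind_cll n z w, Finset.prod_mul_distrib, Finset.prod_ite_eq' univ j (fun i => f (w.2.2 i)),
        if_pos (Finset.mem_univ _), mul_assoc]
    rw [tb.Ps.E_congr fun w _ => e1 w,
      Ps_prod tb (fun x => ind (x = z.1)) (fun i b => ind (D.qb n b = D.qb n (z.2.2 i)) * (if i = j then f b else 1)), hx]
    congr 1
    refine Finset.prod_congr rfl fun i _ => ?_
    congr 1
    by_cases hi : i = j
    · subst hi
      simp only [if_true]
      exact sum_ind_cB n _ f
    · simp only [if_neg hi]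
      rw [sum_ind_cB (D := D) n (z.2.2 i) (fun _ => (1 : ℝ)), Finset.sum_const, nsmul_eq_mul, mul_one]
  show (tb.Ps.cond fun w => cll D n w = cll D n z).E _ = _
  rw [FP.cond_E (Wl_ne tb n z), h1, h0, ← Finset.mul_prod_erase univ _ (Finset.mem_univ j),
    ← Finset.mul_prod_erase univ (fun i => ((D.cB n (z.2.2 i)).card : ℝ) / (Fintype.card β : ℝ)) (Finset.mem_univ j),
    if_pos rfl]
  have h3 : ∏ i ∈ univ.erase j, ((if i = j then ∑ b ∈ D.cB n (z.2.2 j), f b
        else ((D.cB n (z.2.2 i)).card : ℝ)) / (Fintype.card β : ℝ)) =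
      ∏ i ∈ univ.erase j, (((D.cB n (z.2.2 i)).card : ℝ) / (Fintype.card β : ℝ)) :=
    Finset.prod_congr rfl fun i hi => by rw [if_neg (Finset.ne_of_mem_erase hi)]
  rw [h3]
  have h4 : ∏ i ∈ univ.erase j, (((D.cB n (z.2.2 i)).card : ℝ) / (Fintype.card β : ℝ)) ≠ 0 :=
    Finset.prod_ne_zero_iff.2 fun i _ => div_ne_zero (cB_pos n _).ne' hB
  have h5 := (cB_pos (D := D) n (z.2.2 j)).ne'
  field_simp

/-- average over the worlds -/
theorem Wl_avg (n : ℕ) (f : Om W X β → ℝ) : tb.Ps.E (fun z => (tb.Wl n z).E f) = tb.Ps.E f := by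
  rw [← tb.Ps.E_ce (cll D n) f]
  exact tb.Ps.E_congr fun z hz => (tb.Ps.ce_eq_cond (cll D n) f hz).symm

theorem qb_mono {m n : ℕ} (hmn : m ≤ n) {b b' : β} (e : D.qb n b = D.qb n b') : D.qb m b = D.qb m b' := by
  induction hmn with
  | refl => exact e
  | step _ ih => exact ih (D.rb _ _ _ e)

theorem sgt_filt (E : Finset (Fin 3)) : Filt (fun n => sgt (W := W) (X := X) D E n) := by
  intro n v w e
  rw [sgt_eq] at e ⊢
  exact ⟨e.1, e.2.1, fun j => D.rb n _ _ (e.2.2 j)⟩

theorem sgt_mono {E E' : Finset (Fin 3)} (hE : E ⊆ E') (n : ℕ) : Fac (sgt (W := W) (X := X) D E' n) (sgt D E n) := by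
  intro v w e
  rw [sgt_eq] at e ⊢
  exact ⟨e.1, fun j hj => e.2.1 j (hE hj), e.2.2⟩

/-- conditional expectations under a law conditioned on an event of the sight (helper41) -/
theorem cond_ce' {Ω : Type*} [Fintype Ω] {P : FP Ω} {κ : Type*} {Y : Ω → κ} {A : Ω → Prop} (hA : P.Pr A ≠ 0)
    (f : Ω → ℝ) {w : Ω} (hw : ∀ v, Y v = Y w → A v) : (P.cond A).ce Y f w = P.ce Y f w := by
  have h1 : ∀ g : Ω → ℝ, P.E (fun v => ind (A v) * (ind (Y v = Y w) * g v)) = P.E (fun v => ind (Y v = Y w) * g v) :=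
    fun g => P.E_congr fun v _ => by
      by_cases hv : Y v = Y w
      · rw [ind_of (hw v hv), one_mul]
      · rw [ind_not hv]; ring
  unfold FP.ce
  rw [FP.cond_E hA, FP.cond_m hA, h1 f]
  have h2 := h1 (fun _ => 1)
  simp only [mul_one] at h2
  rw [h2]
  show P.E (fun v => ind (Y v = Y w) * f v) / P.Pr A / (P.m Y w / P.Pr A) = _
  rw [div_div_div_cancel_right₀ hA]

/-- the same for the sights in a world -/
theorem Wl_ce {m n : ℕ} (hmn : m ≤ n) (E : Finset (Fin 3)) (z : Om W X β) (f : Om W X β → ℝ) {w : Om W X β}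
    (hw : (tb.Wl m z).p w ≠ 0) : (tb.Wl m z).ce (sgt D E n) f w = tb.Ps.ce (sgt D E n) f w := by
  refine cond_ce' (Wl_ne tb m z) f fun v hv => ?_
  rw [← ((Wl_supp tb).1 hw).2]
  rw [sgt_eq] at hv
  unfold cll
  rw [Prod.mk.injEq]
  exact ⟨hv.1, funext fun j => qb_mono hmn (hv.2.2 j)⟩

/-- the mass of a sight (helper41) -/
theorem sgt_m (E : Finset (Fin 3)) (n : ℕ) (w : Om W X β) :
    tb.Ps.m (sgt D E n) w = 1 / (Fintype.card X : ℝ) *
      ∏ j, ((if j ∈ E then 1 else ((D.cB n (w.2.2 j)).card : ℝ)) / (Fintype.card β : ℝ)) := by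
  classical
  have hx : ∑ x : X, ind (x = w.1) = 1 := by
    rw [Finset.sum_eq_single w.1 (fun b _ hb => ind_not hb) (fun hb => absurd (Finset.mem_univ _) hb)]
    exact ind_of rfl
  have hb : ∀ c : β, ∑ b : β, ind (b = c) = 1 := by
    intro c
    rw [Finset.sum_eq_single c (fun b _ hb => ind_not hb) (fun hb => absurd (Finset.mem_univ _) hb)]
    exact ind_of rfl
  have h1 : ∀ p : Fin 3 → Prop, ∏ j, ind (p j) = ind (∀ j, p j) := by
    intro p
    by_cases hp : ∀ j, p j
    · rw [ind_of hp]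
      exact Finset.prod_eq_one fun j _ => ind_of (hp j)
    · rw [ind_not hp]
      push Not at hp
      obtain ⟨j, hj⟩ := hp
      exact Finset.prod_eq_zero (Finset.mem_univ j) (ind_not hj)
  have e1 : ∀ v : Om W X β, ind (sgt D E n v = sgt D E n w) = ind (v.1 = w.1) *
      ∏ j, (if j ∈ E then ind (v.2.2 j = w.2.2 j) else ind (D.qb n (v.2.2 j) = D.qb n (w.2.2 j))) := by
    intro v
    have e2 : ∀ j, (if j ∈ E then ind (v.2.2 j = w.2.2 j) else ind (D.qb n (v.2.2 j) = D.qb n (w.2.2 j))) =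
        ind ((j ∈ E → v.2.2 j = w.2.2 j) ∧ D.qb n (v.2.2 j) = D.qb n (w.2.2 j)) := by
      intro j
      by_cases hj : j ∈ E
      · rw [if_pos hj]
        congr 1
        exact propext ⟨fun e => ⟨fun _ => e, congrArg _ e⟩, fun e => e.1 hj⟩
      · rw [if_neg hj]
        congr 1
        exact propext ⟨fun e => ⟨fun h => absurd h hj, e⟩, fun e => e.2⟩
    rw [Finset.prod_congr rfl fun j _ => e2 j, h1, ← ind_and]
    congr 1
    rw [sgt_eq]
    refine propext (and_congr_right fun _ => ⟨fun e j => ⟨fun hj => e.1 j hj, e.2 j⟩, fun e => ⟨fun j hj => (e j).1 hj,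
      fun j => (e j).2⟩⟩)
  unfold FP.m
  rw [tb.Ps.E_congr fun v _ => e1 v,
    Ps_prod tb (fun x => ind (x = w.1)) (fun j b => if j ∈ E then ind (b = w.2.2 j) else
      ind (D.qb n b = D.qb n (w.2.2 j))), hx]
  congr 1
  refine Finset.prod_congr rfl fun j _ => ?_
  congr 1
  by_cases hj : j ∈ E
  · simp only [if_pos hj]
    exact hb _
  · simp only [if_neg hj]
    have h2 := sum_ind_cB (D := D) n (w.2.2 j) (fun _ => (1 : ℝ))
    simp only [mul_one] at h2
    rw [h2, Finset.sum_const, nsmul_eq_mul, mul_one]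

/-- halving: the masses of the sights shrink by a factor at most `2 ^ 3` in one time -/
theorem sgt_half {dg : ℕ → X → ℝ} {Lam : ℝ} (H : D.Hyp dg prr al T Lam) (E : Finset (Fin 3)) {n : ℕ} (hn : n < T)
    {w : Om W X β} (_hw : tb.Ps.p w ≠ 0) :
    tb.Ps.m (sgt D E n) w ≤ 2 ^ (Eᶜ.card) * tb.Ps.m (sgt D E (n + 1)) w := by
  classical
  have hB : 0 < (Fintype.card β : ℝ) := by exact_mod_cast Fintype.card_pos
  have h1 : ∀ b, ((D.cB n b).card : ℝ) ≤ 2 * ((D.cB (n + 1) b).card : ℝ) := by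
    intro b
    rcases H.half n hn with h0 | h0
    · rw [h0 b]
      have := (cB_pos (D := D) n b).le
      linarith
    · have := h0 b
      have h2 : (2 : ℝ) * ((D.cB (n + 1) b).card : ℝ) = ((D.cB n b).card : ℝ) := by exact_mod_cast this
      rw [h2]
  have h2 : (2 : ℝ) ^ (Eᶜ.card) = ∏ j : Fin 3, (if j ∈ E then (1 : ℝ) else 2) := by
    rw [Finset.prod_ite, Finset.prod_const_one, one_mul, Finset.prod_const]
    congr 2
    ext j
    simp
  rw [sgt_m, sgt_m, h2]
  have h3 : (∏ j : Fin 3, (if j ∈ E then (1 : ℝ) else 2)) * (1 / (Fintype.card X : ℝ) *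
      ∏ j, ((if j ∈ E then 1 else ((D.cB (n + 1) (w.2.2 j)).card : ℝ)) / (Fintype.card β : ℝ))) =
      1 / (Fintype.card X : ℝ) * ∏ j, ((if j ∈ E then (1 : ℝ) else 2) *
        ((if j ∈ E then 1 else ((D.cB (n + 1) (w.2.2 j)).card : ℝ)) / (Fintype.card β : ℝ))) := by
    rw [Finset.prod_mul_distrib]
    ring
  rw [h3]
  refine mul_le_mul_of_nonneg_left ?_ (by positivity)
  refine Finset.prod_le_prod (fun j _ => ?_) fun j _ => ?_
  · split_ifs
    · positivity
    · positivity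
  · by_cases hj : j ∈ E
    · simp only [if_pos hj, one_mul, le_refl]
    · simp only [if_neg hj]
      rw [← mul_div_assoc]
      exact div_le_div_of_nonneg_right (h1 _) hB.le

end Pool.Agent.GMH.Dy
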