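import Pool.Agent.GMH.TopKin

/-!
# GMH/TopKinV: frames, and the joint step split by the status of a vertex (helper11; H3.MOV M.7, helper27 46013, helper2)

A FRAME = `Z` (what all letters see before), `Zb i` (what the letter `i` sees), letters `F i`, additions `Y i`, `V`.
* `DyG`, `NoG`, `KinG` : dynamic term, normalisation, conditions on the kinds of one frame; `frame_le` : Lemma S;
* a step `s` can be split at a vertex `i` (`s = 1` and `s = 5`, status `some i`): frame `two` (the tops other than `i` over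
  their own labels, `Dy2`, `No2`, `Ki2` of the step `s`) and frame `one` (the top `i` over the thin labels and the other tops,
  `Dy1`, `No1`, `Ki1` of the step `s`); `two_le`, `one_le`, `split_eq`.
-/

set_option autoImplicit false
set_option linter.unusedSectionVars false

namespace Pool.Agent.GMH.TP

open Finset Pool.Agent.PWZ Pool.Agent.M3 Pool.Agent.GM Pool.Agent.GM.Harm Pool.Agent.GMH Pool.Agent.GMH.NZ
open Pool.Agent.GMH.V3

noncomputable section

/-! ### frames -/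

section gen

variable {Om : Type*} [Fintype Om] (P : FP Om) {I α β' γ' φ' ν κ : Type*} [Fintype I] [DecidableEq I] [Fintype κ]
  (Z : Om → β') (Zb : I → Om → α) (F : I → Om → φ') (Y : I → Om → γ') (V : Om → ν)
  (A : Om → Prop) (rel : κ → Om → (I → φ') → Prop) (bit : κ → Om → Prop) (om : Om → (I → φ') → ℝ)

/-- the dynamic term of a frame -/
def DyG (eta K : ℝ) : ℝ := P.E (fun w => ind (A w) * sgK P Z Zb F eta K om rel bit w)

/-- the normalisation of a frame -/
def NoG (eta : ℝ) : ℝ := P.E (fun w => ind (A w) * ∑ f ∈ let_ F, (∏ i, P.pv (fun u => (Y i u, Zb i u)) (F i) w (f i)) *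
  ((1 - kce P (fun u => (V u, Z u)) rel bit w f) * (G0W P Z Zb F eta om w f - 1)))

/-- conditions on the kinds of a frame -/
structure KinG (Dv : κ → ℝ) : Prop where
  relf : ∀ k f, Fac (fun u => (V u, Z u)) (fun w => rel k w f)
  dis : ∀ w f k k', rel k w f → rel k' w f → k = k'
  omf : ∀ f, Fac (fun u => (V u, Z u)) (fun w => om w f)
  om0 : ∀ w f, 0 ≤ om w f
  om1 : ∀ w f, om w f ≤ 1
  dev : ∀ k, ∀ g : Om → ℝ, Fac (fun w => (tup F w, (V w, Z w))) g → (∀ w, |g w| ≤ 1) →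
    |P.E (fun w => ind (A w ∧ bit k w) * (g w - P.ce (fun u => (V u, Z u)) g w))| ≤ Dv k

variable {P Z Zb F Y V A rel bit om}

/-- **LEMMA S IN A FRAME** -/
theorem frame_le {Dv : κ → ℝ} (hZ : ∀ i, Fac Z (Zb i)) (hV : ∀ i, Fac (fun u => (V u, Z u)) (Y i)) {eta K L : ℝ}
    (heta : 0 < eta) (heta1 : eta ≤ 1) (hK : 0 ≤ K) (hKL : K ≤ L) (hL : 0 < L)
    (ok : KinG P Z F V A rel bit om Dv) (fA : Fac (fun u => (V u, Z u)) A)
    (hpsi : ∀ w, P.p w ≠ 0 → psC P Z Zb F w (tup F w) ≤ L) :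
    P.E (fun w => ind (A w) * lossC P Z Zb F Y V w) ≤ DyG P Z Zb F A rel bit om eta K +
      ∑ k, (L + Real.log (1 / eta)) * Dv k + NoG P Z Zb F Y V A rel bit om eta := by
  have hl0 : 0 ≤ Real.log (1 / eta) := Real.log_nonneg (by rw [le_div_iff₀ heta, one_mul]; exact heta1)
  exact lossC_dev P F hZ hV heta heta1 fA (fun f => ok.omf f) ok.om0 ok.om1 (fun k f => ok.relf k f) ok.dis hK hKL
    (fun w hw _ => hpsi w hw) (by linarith) ok.dev

/-- the log density is at most the sum of the surprisals of the letters -/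
theorem psC_le_sum {L : ℝ} {w : Om} (hw : P.p w ≠ 0) (S : Finset I) (h0 : ∀ i ∉ S, sp P (F i) (Zb i) w = 0)
    (h1 : ∀ i ∈ S, sp P (F i) (Zb i) w ≤ L) : psC P Z Zb F w (tup F w) ≤ S.card * L := by
  rw [psC_true P F hw]
  have g1 := sp_nonneg P (tup F) Z hw
  have g2 : ∑ i, sp P (F i) (Zb i) w = ∑ i ∈ S, sp P (F i) (Zb i) w := by
    refine (Finset.sum_subset (Finset.subset_univ S) fun i _ hi => h0 i hi).symm
  have g3 := Finset.sum_le_sum h1
  rw [Finset.sum_const, nsmul_eq_mul] at g3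
  linarith

end gen

/-! ### the frames of a split step -/

section hd

variable {X β γ φ : Type} [Fintype X] [Fintype β] [Fintype φ] [Nonempty X] [Nonempty β]
variable {D : HD (Fin 3) X β γ φ} {al : ℝ} (h : D.Thick al) (v : ℕ → Finset (Fin 3) → X → (Fin 3 → β) → Pt (Fin 3) X β φ)

/-- the type of a top -/
abbrev Tt (X β φ : Type) : Type := List (Pt (Fin 3) X β φ) × (Fin 3 → Option φ)

/-- the other tops and the thin labels before the step `s` -/
def Z1 (D : HD (Fin 3) X β γ φ) (v : ℕ → Finset (Fin 3) → X → (Fin 3 → β) → Pt (Fin 3) X β φ) (s : Fin 6) (t : ℕ)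
    (i : Fin 3) (w : Pt (Fin 3) X β φ) := (tup (Fo (FQ v t) i) w, ZQ D v (qs s t) w)

section two

variable (s : Fin 6) (t : ℕ) (i : Fin 3) {κ : Type} [Fintype κ] (A : Pt (Fin 3) X β φ → Prop)
  (rel : κ → Pt (Fin 3) X β φ → (Fin 3 → Option (Tt X β φ)) → Prop) (bit : κ → Pt (Fin 3) X β φ → Prop)
  (om : Pt (Fin 3) X β φ → (Fin 3 → Option (Tt X β φ)) → ℝ)

/-- frame `two` of the step `s` : the tops which see the vertex `i`, over their own labels -/
def Dy2 (eta K : ℝ) : ℝ := DyG (D.P h t) (ZQ D v (qs s t)) (ZbQ D v (qs s t)) (Fo (FQ v t) i) A rel bit om eta K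

def No2 (eta : ℝ) : ℝ := NoG (D.P h t) (ZQ D v (qs s t)) (ZbQ D v (qs s t)) (Fo (FQ v t) i) (ZbQ D v (qe s t))
  (ZQ D v (qe s t)) A rel bit om eta

def Ki2 (Dv : κ → ℝ) : Prop := KinG (D.P h t) (ZQ D v (qs s t)) (Fo (FQ v t) i) (ZQ D v (qe s t)) A rel bit om Dv

end two

section one

variable (s : Fin 6) (t : ℕ) (i : Fin 3) {κ : Type} [Fintype κ] (A : Pt (Fin 3) X β φ → Prop)
  (rel : κ → Pt (Fin 3) X β φ → (Unit → Tt X β φ) → Prop) (bit : κ → Pt (Fin 3) X β φ → Prop)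
  (om : Pt (Fin 3) X β φ → (Unit → Tt X β φ) → ℝ)

/-- frame `one` of the step `s` : the top without the vertex `i`, over the thin labels and the other tops -/
def Dy1 (eta K : ℝ) : ℝ := DyG (D.P h t) (Z1 D v s t i) (fun _ : Unit => ZbQ D v (qs s t) i) (fun _ => FQ v t i) A rel
  bit om eta K

def No1 (eta : ℝ) : ℝ := NoG (D.P h t) (Z1 D v s t i) (fun _ : Unit => ZbQ D v (qs s t) i) (fun _ => FQ v t i)
  (fun _ => ZbQ D v (qe s t) i) (ZQ D v (qe s t)) A rel bit om eta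

def Ki1 (Dv : κ → ℝ) : Prop := KinG (D.P h t) (Z1 D v s t i) (fun _ : Unit => FQ v t i) (ZQ D v (qe s t)) A rel bit om Dv

end one

variable {h v}
variable {dg : ℕ → X → ℝ} {prr : ℕ → Fin 3 → φ → φ} {T : ℕ} {Lam : ℝ}

/-- **the loss of a step, split at a vertex** -/
theorem split_eq (s : Fin 6) (t : ℕ) (i : Fin 3) {w : Pt (Fin 3) X β φ} (hw : (D.P h t).p w ≠ 0) : lossS h v s t w =
    lossC (D.P h t) (ZQ D v (qs s t)) (ZbQ D v (qs s t)) (Fo (FQ v t) i) (ZbQ D v (qe s t)) (ZQ D v (qe s t)) w +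
    lossC (D.P h t) (Z1 D v s t i) (fun _ : Unit => ZbQ D v (qs s t) i) (fun _ => FQ v t i)
      (fun _ => ZbQ D v (qe s t) i) (ZQ D v (qe s t)) w :=
  lossC_split (D.P h t) (FQ v t) i hw

theorem two_le (H : D.Hyp dg prr al T Lam) {N : Finset (Fin 3) → ℝ} (R : Run h N (SS1 (Fin 3)) (AdmDep D) v)
    (hN : ∀ l : Fin 3, 0 < N (univ.erase l)) {eta K : ℝ} (heta : 0 < eta) (heta1 : eta ≤ 1) (hK : 0 ≤ K)
    (hKL : K ≤ 3 * Lam) {t : ℕ} (ht : t < T) (s : Fin 6) (i : Fin 3) {κ : Type} [Fintype κ]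
    {A : Pt (Fin 3) X β φ → Prop}
    {rel : κ → Pt (Fin 3) X β φ → (Fin 3 → Option (Tt X β φ)) → Prop} {bit : κ → Pt (Fin 3) X β φ → Prop}
    {om : Pt (Fin 3) X β φ → (Fin 3 → Option (Tt X β φ)) → ℝ} {Dv : κ → ℝ} (ok : Ki2 h v s t i A rel bit om Dv)
    (fA : Fac (VZ (φ := φ) D v s t) A) :
    (D.P h t).E (fun w => ind (A w) * lossC (D.P h t) (ZQ D v (qs s t)) (ZbQ D v (qs s t)) (Fo (FQ v t) i)
      (ZbQ D v (qe s t)) (ZQ D v (qe s t)) w) ≤ Dy2 h v s t i A rel bit om eta K +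
      ∑ k, (3 * Lam + Real.log (1 / eta)) * Dv k + No2 h v s t i A rel bit om eta := by
  have hq : 5 * t ≤ qs s t := by fin_cases s <;> simp [qs] <;> omega
  refine frame_le (P := D.P h t) (Z := ZQ D v (qs s t)) (Zb := ZbQ D v (qs s t)) (F := Fo (FQ v t) i)
    (Y := ZbQ D v (qe s t)) (V := ZQ D v (qe s t)) (fun i => ZQ_Zb _ i)
    (fun i a b hab => ZQ_Zb _ i a b (by simp only [Prod.mk.injEq] at hab; exact hab.1)) heta heta1 hK hKL
    (by linarith [H.Lam1]) ok fA fun w hw => ?_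
  have h1 := psC_le_sum (P := D.P h t) (Z := ZQ D v (qs s t)) (Zb := ZbQ D v (qs s t)) (F := Fo (FQ v t) i)
    (L := Lam) hw (univ.erase i) (fun j hj => by
      obtain rfl : j = i := by
        by_contra hne
        exact hj (Finset.mem_erase.2 ⟨hne, mem_univ j⟩)
      exact Fo_self (D.P h t) (FQ v t) _ w) (fun j hj => by
      rw [Fo_ne (D.P h t) (FQ v t) (Finset.ne_of_mem_erase hj)]
      exact spF_le H R hN ht.le hq j hw)
  refine h1.trans ?_
  rw [Finset.card_erase_of_mem (mem_univ i), Finset.card_univ, Fintype.card_fin]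
  have := H.Lam1
  push_cast
  linarith

/-- the trivial steps `3`, `4` and the joint private step `5` by the index of a vertex -/
def sp3 (i : Fin 3) : Fin 6 := ![3, 4, 5] i

theorem qs_sp3 (i : Fin 3) (t : ℕ) : qs (sp3 i) t = 5 * t + 2 + i.1 := by fin_cases i <;> rfl

theorem qe_sp3 (i : Fin 3) (t : ℕ) : qe (sp3 i) t = 5 * t + 3 + i.1 := by fin_cases i <;> rfl

theorem one_le (H : D.Hyp dg prr al T Lam) {N : Finset (Fin 3) → ℝ} (R : Run h N (SS1 (Fin 3)) (AdmDep D) v)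
    (hN : ∀ l : Fin 3, 0 < N (univ.erase l)) {eta K : ℝ} (heta : 0 < eta) (heta1 : eta ≤ 1) (hK : 0 ≤ K)
    (hKL : K ≤ 3 * Lam) {t : ℕ} (ht : t < T) (s : Fin 6) (i : Fin 3) {κ : Type} [Fintype κ]
    {A : Pt (Fin 3) X β φ → Prop}
    {rel : κ → Pt (Fin 3) X β φ → (Unit → Tt X β φ) → Prop} {bit : κ → Pt (Fin 3) X β φ → Prop}
    {om : Pt (Fin 3) X β φ → (Unit → Tt X β φ) → ℝ} {Dv : κ → ℝ} (ok : Ki1 h v s t i A rel bit om Dv)
    (fA : Fac (VZ (φ := φ) D v s t) A) :
    (D.P h t).E (fun w => ind (A w) * lossC (D.P h t) (Z1 D v s t i) (fun _ : Unit => ZbQ D v (qs s t) i)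
      (fun _ => FQ v t i) (fun _ => ZbQ D v (qe s t) i) (ZQ D v (qe s t)) w) ≤ Dy1 h v s t i A rel bit om eta K +
      ∑ k, (3 * Lam + Real.log (1 / eta)) * Dv k + No1 h v s t i A rel bit om eta := by
  have hq : 5 * t ≤ qs s t := by fin_cases s <;> simp [qs] <;> omega
  refine frame_le (P := D.P h t) (Z := Z1 D v s t i) (Zb := fun _ : Unit => ZbQ D v (qs s t) i)
    (F := fun _ : Unit => FQ v t i) (Y := fun _ => ZbQ D v (qe s t) i) (V := ZQ D v (qe s t))
    (fun _ a b hab => ZQ_Zb _ i a b (by unfold Z1 at hab; simp only [Prod.mk.injEq] at hab; exact hab.2))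
    (fun _ a b hab => ZQ_Zb _ i a b (by simp only [Prod.mk.injEq] at hab; exact hab.1)) heta heta1 hK hKL
    (by linarith [H.Lam1]) ok ?_ fun w hw => ?_
  · intro a b hab
    refine fA a b ?_
    unfold Z1 at hab
    simp only [Prod.mk.injEq] at hab
    show (ZQ D v (qe s t) a, ZQ D v (qs s t) a) = (ZQ D v (qe s t) b, ZQ D v (qs s t) b)
    rw [hab.1, hab.2.2]
  · have h1 := psC_le_sum (P := D.P h t) (Z := Z1 D v s t i) (Zb := fun _ : Unit => ZbQ D v (qs s t) i)
      (F := fun _ : Unit => FQ v t i) (L := Lam) hw univ (fun j hj => absurd (mem_univ j) hj) (fun _ _ =>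
        spF_le H R hN ht.le hq i hw)
    refine h1.trans ?_
    rw [Finset.card_univ]
    have := H.Lam1
    simp only [Fintype.card_unit, Nat.cast_one, one_mul]
    linarith

end hd

end

end Pool.Agent.GMH.TP
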