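import Pool.Agent.GMH.CK1
import Pool.Agent.M3.KL

/-!
# GMH/UnmL (helper60): SUM OVER THE LIVES OF ONE CLOCK (H3.UNM, U.2, U.3)

`stg C k w` = start of the current life.  `rel q` : the tuple is released at the step `q` (so the life ends at `q + 1`, it is
decided, the current value is at most the value of the start plus `δ`); `dc τ` : the life of the start `τ` is decided.
* `life_pt` : pointwise, `∑_q rel q g q ≤ ∑_τ (start, decided) f τ + Kc ∑_τ (start, decided, not released) + δ ∑_q rel q`;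
* `life_sum` : the same for expectations;
* `avg_le` : an inequality in every world of a start, summed.
-/

set_option autoImplicit false
set_option linter.unusedSectionVars false

namespace Pool.Agent.GMH.UnmL

open Finset Pool.Agent.PWZ Pool.Agent.M3 Pool.Agent.GMH.CK

noncomputable section

section pt

variable {Om : Type*} {C : ℕ → ℕ → Om → Prop}

/-- the life which contains `q`, seen from its start -/
theorem sum_start (T : ℕ) (w : Om) (q : ℕ) (hq : q < T) (f : ℕ → ℝ) :
    ∑ τ ∈ range T, ind (stg C τ w = τ) * (ind (stg C q w = τ) * f τ) = f (stg C q w) := by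
  have h4 := stg_le (C := C) q w
  rw [Finset.sum_eq_single (stg C q w)]
  · rw [ind_of (stg_idem q w), ind_of rfl]
    ring
  · intro τ _ hne
    rw [ind_not (fun h => hne h.symm : ¬ stg C q w = τ)]
    ring
  · intro h
    exact absurd (Finset.mem_range.2 (by omega)) h

/-- two released times in the same life are equal -/
theorem rel_one {w : Om} {q q' : ℕ} (h : stg C (q + 1) w = q + 1)
    (h' : stg C (q' + 1) w = q' + 1) (e : stg C q w = stg C q' w) : q = q' := by
  by_contra hne
  rcases Nat.lt_or_gt_of_ne hne with h1 | h1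
  · have h3 := stg_mono (C := C) (show q + 1 ≤ q' by omega) w
    have h4 := stg_le (C := C) q w
    omega
  · have h3 := stg_mono (C := C) (show q' + 1 ≤ q by omega) w
    have h4 := stg_le (C := C) q' w
    omega

/-- **SUM OVER THE LIVES, POINTWISE** -/
theorem life_pt {w : Om} {rel dc : ℕ → Prop} {f g : ℕ → ℝ} {Kc δ : ℝ} (T : ℕ)
    (hend : ∀ q < T, rel q → stg C (q + 1) w = q + 1) (hdc : ∀ q < T, rel q → dc (stg C q w))
    (hg : ∀ q < T, rel q → g q ≤ f (stg C q w) + δ) (hf : ∀ τ, dc τ → -Kc ≤ f τ) :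
    ∑ q ∈ range T, ind (rel q) * g q ≤
      ∑ τ ∈ range T, ind (stg C τ w = τ ∧ dc τ) * f τ +
        Kc * ∑ τ ∈ range T, ind (stg C τ w = τ ∧ dc τ ∧ ¬ ∃ q < T, stg C q w = τ ∧ rel q) +
        δ * ∑ q ∈ range T, ind (rel q) := by
  classical
  have h1 : ∀ q ∈ range T, ind (rel q) * g q ≤ ind (rel q) * f (stg C q w) + δ * ind (rel q) := by
    intro q hq
    by_cases h : rel q
    · rw [ind_of h]
      have := hg q (mem_range.1 hq) h
      linarith
    · rw [ind_not h]
      linarith
  have h2 : ∑ q ∈ range T, ind (rel q) * f (stg C q w) =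
      ∑ τ ∈ range T, ind (stg C τ w = τ) * (∑ q ∈ range T, ind (stg C q w = τ ∧ rel q)) * f τ := by
    have e1 : ∀ q ∈ range T, ind (rel q) * f (stg C q w) =
        ∑ τ ∈ range T, ind (stg C τ w = τ) * (ind (stg C q w = τ ∧ rel q) * f τ) := by
      intro q hq
      rw [← sum_start T w q (mem_range.1 hq) f, Finset.mul_sum]
      refine Finset.sum_congr rfl fun τ _ => ?_
      rw [ind_and]
      ring
    rw [Finset.sum_congr rfl e1, Finset.sum_comm]
    refine Finset.sum_congr rfl fun τ _ => ?_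
    rw [← Finset.mul_sum, ← Finset.sum_mul]
    ring
  have h3 : ∀ τ ∈ range T, ind (stg C τ w = τ) * (∑ q ∈ range T, ind (stg C q w = τ ∧ rel q)) * f τ ≤
      ind (stg C τ w = τ ∧ dc τ) * f τ +
        Kc * ind (stg C τ w = τ ∧ dc τ ∧ ¬ ∃ q < T, stg C q w = τ ∧ rel q) := by
    intro τ _
    by_cases hs : stg C τ w = τ
    · rw [ind_of hs, one_mul]
      by_cases hr : ∃ q < T, stg C q w = τ ∧ rel q
      · obtain ⟨q0, hq0, e0, r0⟩ := hr
        have hs1 : ∑ q ∈ range T, ind (stg C q w = τ ∧ rel q) = 1 := by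
          rw [Finset.sum_eq_single q0]
          · exact ind_of ⟨e0, r0⟩
          · intro q hq hne
            refine ind_not fun h => hne ?_
            exact rel_one (hend q (mem_range.1 hq) h.2) (hend q0 hq0 r0) (h.1.trans e0.symm)
          · intro h
            exact absurd (mem_range.2 hq0) h
        have hd : dc τ := e0 ▸ hdc q0 hq0 r0
        rw [hs1, one_mul, ind_of ⟨hs, hd⟩, one_mul,
          ind_not (fun h => h.2.2 ⟨q0, hq0, e0, r0⟩ : ¬ (stg C τ w = τ ∧ dc τ ∧ ¬ ∃ q < T, stg C q w = τ ∧ rel q)), mul_zero,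
          add_zero]
      · have hs0 : ∑ q ∈ range T, ind (stg C q w = τ ∧ rel q) = 0 :=
          Finset.sum_eq_zero fun q hq => ind_not fun h => hr ⟨q, mem_range.1 hq, h.1, h.2⟩
        rw [hs0, zero_mul]
        by_cases hd : dc τ
        · rw [ind_of ⟨hs, hd⟩, ind_of ⟨hs, hd, hr⟩]
          have := hf τ hd
          linarith
        · rw [ind_not (fun h => hd h.2), ind_not (fun h => hd h.2.1)]
          linarith
    · rw [ind_not hs, ind_not (fun h => hs h.1), ind_not (fun h => hs h.1)]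
      linarith
  calc ∑ q ∈ range T, ind (rel q) * g q ≤ ∑ q ∈ range T, (ind (rel q) * f (stg C q w) + δ * ind (rel q)) :=
        Finset.sum_le_sum h1
    _ = ∑ q ∈ range T, ind (rel q) * f (stg C q w) + δ * ∑ q ∈ range T, ind (rel q) := by
        rw [Finset.sum_add_distrib, ← Finset.mul_sum]
    _ ≤ _ := by
        rw [h2]
        refine add_le_add ?_ le_rfl
        refine (Finset.sum_le_sum h3).trans ?_
        rw [Finset.sum_add_distrib, ← Finset.mul_sum]

end pt

section ex

variable {Om : Type*} [Fintype Om] {P : FP Om} {C : ℕ → ℕ → Om → Prop}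

/-- **SUM OVER THE LIVES** -/
theorem life_sum {rel dc : ℕ → Om → Prop} {f g : ℕ → Om → ℝ} {Kc δ : ℝ} (T : ℕ)
    (hend : ∀ w, P.p w ≠ 0 → ∀ q < T, rel q w → stg C (q + 1) w = q + 1)
    (hdc : ∀ w, P.p w ≠ 0 → ∀ q < T, rel q w → dc (stg C q w) w)
    (hg : ∀ w, P.p w ≠ 0 → ∀ q < T, rel q w → g q w ≤ f (stg C q w) w + δ)
    (hf : ∀ w, P.p w ≠ 0 → ∀ τ, dc τ w → -Kc ≤ f τ w) :
    ∑ q ∈ range T, P.E (fun w => ind (rel q w) * g q w) ≤
      ∑ τ ∈ range T, P.E (fun w => ind (stg C τ w = τ ∧ dc τ w) * f τ w) +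
        Kc * ∑ τ ∈ range T, P.Pr (fun w => stg C τ w = τ ∧ dc τ w ∧ ¬ ∃ q < T, stg C q w = τ ∧ rel q w) +
        δ * ∑ q ∈ range T, P.Pr (rel q) := by
  unfold FP.Pr
  rw [← FP.E_sum, ← FP.E_sum, ← FP.E_sum, ← FP.E_sum, ← FP.E_smul, ← FP.E_smul, ← FP.E_add, ← FP.E_add]
  exact P.E_mono fun w hw => life_pt (C := C) (w := w) (rel := fun q => rel q w) (dc := fun τ => dc τ w)
    (f := fun τ => f τ w) (g := fun q => g q w) T (hend w hw) (hdc w hw) (hg w hw) (hf w hw)

/-- **AN INEQUALITY IN EVERY WORLD, SUMMED** : `Y` = the sight of the start, `S` = an event seen by `Y` -/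
theorem avg_le {κ : Type*} {Y : Om → κ} {S : Om → Prop} (hS : ∀ v w, Y v = Y w → (S v ↔ S w)) {f g : Om → ℝ}
    (h : ∀ z, P.p z ≠ 0 → S z → (P.cond fun w => Y w = Y z).E f ≤ (P.cond fun w => Y w = Y z).E g) :
    P.E (fun w => ind (S w) * f w) ≤ P.E (fun w => ind (S w) * g w) := by
  have hF : Fac Y (fun w => ind (S w)) := Fac.ind fun v w e => hS v w e
  rw [← P.E_mul_ce hF f, ← P.E_mul_ce hF g]
  refine P.E_mono fun w hw => ?_
  by_cases h1 : S w
  · rw [ind_of h1, one_mul, one_mul, P.ce_eq_cond Y f hw, P.ce_eq_cond Y g hw]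
    exact h w hw h1
  · rw [ind_not h1, zero_mul, zero_mul]

/-- the same with an error which does not depend on the point -/
theorem avg_le_add {κ : Type*} {Y : Om → κ} {S : Om → Prop} (hS : ∀ v w, Y v = Y w → (S v ↔ S w)) {f g : Om → ℝ} {e : ℝ}
    (h : ∀ z, P.p z ≠ 0 → S z → (P.cond fun w => Y w = Y z).E f ≤ (P.cond fun w => Y w = Y z).E g + e) :
    P.E (fun w => ind (S w) * f w) ≤ P.E (fun w => ind (S w) * g w) + e * P.Pr S := by
  have h1 := avg_le (P := P) (Y := Y) (S := S) hS (f := f) (g := fun w => g w + e) (fun z hz hs => by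
    rw [FP.E_add, FP.E_const]
    exact h z hz hs)
  refine h1.trans (le_of_eq ?_)
  unfold FP.Pr
  rw [← FP.E_smul, ← FP.E_add]
  exact P.E_congr fun w _ => by ring

end ex

end

end Pool.Agent.GMH.UnmL
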