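import Pool.Agent.GMH.MVdef
import Pool.Agent.GMH.UnmL

/-!
# GMH/UVdef (helper60): VERTEX TIMES, ZONES, RELEASE EVENTS OF THE UNMOVED TUPLES (H3.UNM, U.2), on top of MVdef

`US` : the data of the clocks (`MS`) with the sights at own `a`: `S E s` = hidden point, exact points of `E`, cells at `s`.
`Kd` : one kind: `kd o τ` the relation of the tables of `τ` (event of the full tuple), `kv o τ` the relation of the densities
(what is visible at the exact vertex, at the node; `kd ⊆ kv`), `al n` alive at the public start `n`, `psi o τ`, vertices `Vk`,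
`kz v τ` the relation of the lives in the zones (`kd ⊆ kz ⊆ kv`),
`uB`, `u0`.
* `Cv` : end condition of the lives of the vertex `v` (clock `tv`), `ex` : extra block; `kd (some v) τ` relation of the life
  `τ` of `v`, `kd none n` relation of the public tables;
* `Mx v s` density at the exact `v` of the relation of the life; `M0 s` sum of the four static densities in the world of `nu`;
* `Z0 s` zone (`T^0 ≤ s` in the public epoch), `blk v s`, `dd v s` (dense and not blocked), `bet v s` (decided), `tkx v s`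
  (`T^v = s`); `zt s` : `T^0 = s`;
* `relv v q` : released at the public removal by `v` (first decided vertex), `rel0 q` : by the zone; `relp v q` : released at
  the private removal of `v`.
-/

set_option autoImplicit false
set_option linter.unusedSectionVars false

namespace Pool.Agent.GMH.UV

open Finset Pool.Agent.PWZ Pool.Agent.M3 Pool.Agent.GMH.TD Pool.Agent.GMH.CK Pool.Agent.GMH.MV

/-- clocks and the sights at own `a` -/
structure US (Om : Type) [Fintype Om] extends MS Om where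
  sig : Type
  S : Finset (Fin 3) → ℕ → Om → sig
  fS : ∀ E s, Fac (S E (s + 1)) (S E s)
  mS : ∀ E E' s, E ⊆ E' → Fac (S E' s) (S E s)
  nS : ∀ s, Fac (S ∅ s) (NP s)
  xS : ∀ v s, Fac (S {v} s) (XL v s)
  /-- end condition of the clock of the lives of the vertex `v` -/
  Cv : Fin 3 → ℕ → ℕ → Om → Prop
  /-- extra block of the decisions at the exact vertex -/
  ex : Fin 3 → ℕ → Om → Prop
  exS : ∀ v s, Fac (S {v} s) (ex v s)
  /-- extra block of the zones -/
  ex0 : ℕ → Om → Prop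
  exS0 : ∀ s, Fac (S ∅ s) (ex0 s)

/-- one kind of tuples -/
structure Kd (Om : Type) where
  /-- relation of the life of the vertex, `none` : of the public tables -/
  kd : Option (Fin 3) → ℕ → Om → Prop
  /-- relation of the densities -/
  kv : Option (Fin 3) → ℕ → Om → Prop
  /-- alive at the public start -/
  al : ℕ → Om → Prop
  psi : Option (Fin 3) → ℕ → Om → ℝ
  Vk : Finset (Fin 3)
  uB : ℝ
  u0 : ℝ
  hkv : ∀ v ∈ Vk, ∀ τ w, kd (some v) τ w → kv (some v) τ w
  hkn : ∀ τ w, kd none τ w → kv none τ w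
  hal : ∀ n w, al (n + 1) w → al n w
  /-- relation of the lives in the zones -/
  kz : Fin 3 → ℕ → Om → Prop
  hkz : ∀ v ∈ Vk, ∀ τ w, kd (some v) τ w → kz v τ w
  hzv : ∀ v ∈ Vk, ∀ τ w, kz v τ w → kv (some v) τ w

noncomputable section

variable {Om : Type} [Fintype Om] (M : US Om) (Q : Kd Om)

/-- clock of the lives of the vertex `v` (`MV.tauS` in the instance) -/
def tv (v : Fin 3) : ℕ → Om → ℕ := stg (M.Cv v)

/-- density of the relation of the life at the exact vertex -/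
def Mx (v : Fin 3) (s : ℕ) (w : Om) : ℝ := M.P.ce (M.S {v} s) (fun u => ind (Q.kv (some v) (tv M v s w) u)) w

/-- relation of the life of `v` at the public start `n`, `none` : of the public tables -/
def Rn (v : Option (Fin 3)) (n : ℕ) (w : Om) : Prop :=
  match v with
  | none => Q.kv none n w
  | some v => Q.kv (some v) (tv M v n w) w ∧ Q.al n w

/-- the relation of the life of `v`, and alive at the public start -/
def ka (v : Fin 3) (s : ℕ) (w : Om) : Prop := Q.kv (some v) (tv M v s w) w ∧ Q.al (nu M.toMS s w) w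

/-- its density at the exact vertex -/
def Mg (v : Fin 3) (s : ℕ) (w : Om) : ℝ := M.P.ce (M.S {v} s) (fun u => ind (ka M Q v s u)) w

/-- the four static densities in the world of `nu` -/
def M0 (s : ℕ) (w : Om) : ℝ := ∑ v : Option (Fin 3), M.P.ce (M.S ∅ s) (fun u => ind (Rn M Q v (nu M.toMS s w) u)) w

/-- dense in the node, no extra block -/
def d0 (s : ℕ) (w : Om) : Prop := Q.u0 ≤ M0 M Q s w ∧ ¬ M.ex0 s w

/-- `T^0 ≤ s` in the public epoch of `s` -/
def Z0 (s : ℕ) (w : Om) : Prop := ∃ s', nu M.toMS s w ≤ s' ∧ s' ≤ s ∧ d0 M Q s' w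

/-- `T^0 = s` -/
def zt (s : ℕ) (w : Om) : Prop := d0 M Q s w ∧ ∀ s', nu M.toMS s w ≤ s' → s' < s → ¬ d0 M Q s' w

/-- the vertex is blocked -/
def blk (v : Fin 3) (s : ℕ) (w : Om) : Prop := Z0 M Q s w ∧ tv M v s w ≤ nu M.toMS s w

/-- dense and not blocked -/
def dd (v : Fin 3) (s : ℕ) (w : Om) : Prop := Q.uB ≤ Mx M Q v s w ∧ ¬ blk M Q v s w ∧ ¬ M.ex v s w

/-- the life of `v` is decided -/
def bet (v : Fin 3) (s : ℕ) (w : Om) : Prop := ∃ s', tv M v s w ≤ s' ∧ s' ≤ s ∧ dd M Q v s' w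

/-- `T^v = s` -/
def tkx (v : Fin 3) (s : ℕ) (w : Om) : Prop := dd M Q v s w ∧ ∀ s', tv M v s w ≤ s' → s' < s → ¬ dd M Q v s' w

/-- `T^v ≤ s` and `T^v < T^v'` (in a tie the smaller name first) -/
def bef (v v' : Fin 3) (s : ℕ) (w : Om) : Prop :=
  ∃ s', tv M v s w ≤ s' ∧ s' ≤ s ∧ tkx M Q v s' w ∧
    ¬ ∃ r, tv M v' s w ≤ r ∧ r ≤ s ∧ dd M Q v' r w ∧ (r < s' ∨ (r = s' ∧ v' < v))

/-- the vertex `v` is decided first among the vertices of the kind -/
def frs (v : Fin 3) (s : ℕ) (w : Om) : Prop := bet M Q v s w ∧ ∀ v' ∈ Q.Vk, v' ≠ v → bef M Q v v' s w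

/-! ### what sees what -/

theorem S_step {E : Finset (Fin 3)} {s s' : ℕ} (h : s ≤ s') : Fac (M.S E s') (M.S E s) := by
  induction h with
  | refl => exact fun _ _ e => e
  | step _ ih => exact fun a b e => ih a b (M.fS E _ a b e)

theorem S_NP {E : Finset (Fin 3)} (s : ℕ) : Fac (M.S E s) (M.NP s) := fun a b e =>
  M.nS s a b (M.mS ∅ E s (Finset.empty_subset _) a b e)

theorem S_CN (v : Fin 3) (s : ℕ) : Fac (M.S {v} s) (CN M.toMS v s) := fun a b e => by
  unfold CN
  rw [M.xS v s a b e, S_NP M s a b e]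

/-- the exact clock is seen at the exact vertex, the public clock by the public information (lemmas of MV1) -/
structure Seen : Prop where
  tau : ∀ v s, Fac (M.S {v} s) (tv M v s)
  nu : ∀ s, Fac (M.NP s) (nu M.toMS s)

/-- just before the end of an extra block the densities are small (`M.10` (c)), and outside the block of a vertex the zones
are not blocked; trivial if `ex = ex0 = False` -/
structure Prv : Prop where
  pv : ∀ w, M.P.p w ≠ 0 → ∀ v s, tv M v s w < s → ¬ M.ex v s w → M.ex v (s - 1) w → Mx M Q v (s - 1) w < Q.uB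
  p0 : ∀ w, M.P.p w ≠ 0 → ∀ s, nu M.toMS s w < s → ¬ M.ex0 s w → M.ex0 (s - 1) w → M0 M Q (s - 1) w < Q.u0
  xz : ∀ w, M.P.p w ≠ 0 → ∀ v s, ¬ M.ex v s w → tv M v s w ≤ nu M.toMS s w → ¬ M.ex0 s w

/-- no extra blocks -/
theorem prv_of (h : ∀ v s w, ¬ M.ex v s w) (h0 : ∀ s w, ¬ M.ex0 s w) : Prv M Q :=
  ⟨fun w _ v _ _ _ h1 => absurd h1 (h v _ w), fun w _ _ _ _ h1 => absurd h1 (h0 _ w), fun w _ _ s _ _ => h0 s w⟩

variable {M Q}

theorem tau_S (H : Seen M) (v : Fin 3) {s s' : ℕ} (h : s ≤ s') : Fac (M.S {v} s') (tv M v s) := fun a b e =>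
  H.tau v s a b (S_step M h a b e)

theorem nu_S (H : Seen M) {E : Finset (Fin 3)} {s s' : ℕ} (h : s ≤ s') : Fac (M.S E s') (nu M.toMS s) := fun a b e =>
  H.nu s a b (S_NP M s a b (S_step M h a b e))

theorem S_sub (v : Fin 3) {s s' : ℕ} (h : s ≤ s') : Fac (M.S {v} s') (M.S ∅ s) := fun a b e =>
  M.mS ∅ {v} s (Finset.empty_subset _) a b (S_step M h a b e)

theorem Mx_S (H : Seen M) (v : Fin 3) {s s' : ℕ} (h : s ≤ s') : Fac (M.S {v} s') (Mx M Q v s) := fun a b e => by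
  unfold Mx
  rw [tau_S H v h a b e]
  exact M.P.ce_fac (M.S {v} s) _ a b (S_step M h a b e)

theorem al_mono {n m : ℕ} (h : n ≤ m) {w : Om} (ha : Q.al m w) : Q.al n w := by
  induction h with
  | refl => exact ha
  | step _ ih => exact ih (Q.hal _ _ ha)

/-- `ka` decreases along a life -/
theorem ka_mono {v : Fin 3} {s q : ℕ} {w : Om} (h : s ≤ q) (e : tv M v s w = tv M v q w) (hk : ka M Q v q w) :
    ka M Q v s w := ⟨by rw [e]; exact hk.1, al_mono (stg_mono (C := C0 M.toMS) h w) hk.2⟩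

/-- the static relation of a life of the public start -/
theorem Rn_of {v : Fin 3} {s : ℕ} {w : Om} (h : tv M v s w ≤ nu M.toMS s w) (hk : ka M Q v s w) :
    Rn M Q (some v) (nu M.toMS s w) w := by
  show Q.kv (some v) (tv M v (nu M.toMS s w) w) w ∧ Q.al (nu M.toMS s w) w
  rw [show tv M v (nu M.toMS s w) w = tv M v s w from stg_mid rfl h (stg_le _ _)]
  exact hk

theorem Mg_S (v : Fin 3) {s s' : ℕ} (h : s ≤ s') : Fac (M.S {v} s') (Mg M Q v s) := fun a b e =>
  M.P.ce_fac (M.S {v} s) _ a b (S_step M h a b e)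

theorem M0_S (H : Seen M) {s s' : ℕ} (h : s ≤ s') : Fac (M.S ∅ s') (M0 M Q s) := fun a b e => by
  unfold M0
  rw [nu_S H h a b e]
  exact Finset.sum_congr rfl fun v _ => M.P.ce_fac (M.S ∅ s) _ a b (S_step M h a b e)

theorem d0_S (H : Seen M) {s s' : ℕ} (h : s ≤ s') {a b : Om} (e : M.S ∅ s' a = M.S ∅ s' b) :
    d0 M Q s a ↔ d0 M Q s b := by
  unfold d0
  rw [M0_S H h a b e, show M.ex0 s a = M.ex0 s b from M.exS0 s a b (S_step M h a b e)]

theorem Z0_S (H : Seen M) {s s' : ℕ} (h : s ≤ s') {a b : Om} (e : M.S ∅ s' a = M.S ∅ s' b) :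
    Z0 M Q s a ↔ Z0 M Q s b := by
  unfold Z0
  rw [nu_S H h a b e]
  exact exists_congr fun r => and_congr_right fun _ => and_congr_right fun hr => d0_S H (hr.trans h) e

theorem zt_S (H : Seen M) {s s' : ℕ} (h : s ≤ s') {a b : Om} (e : M.S ∅ s' a = M.S ∅ s' b) :
    zt M Q s a ↔ zt M Q s b := by
  unfold zt
  rw [nu_S H h a b e, d0_S H h e]
  exact and_congr_right fun _ => forall_congr' fun r => forall_congr' fun _ => forall_congr' fun hr =>
    not_congr (d0_S H (hr.le.trans h) e)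

theorem blk_S (H : Seen M) (v : Fin 3) {s s' : ℕ} (h : s ≤ s') {a b : Om} (e : M.S {v} s' a = M.S {v} s' b) :
    blk M Q v s a ↔ blk M Q v s b := by
  have e0 : M.S ∅ s' a = M.S ∅ s' b := M.mS ∅ {v} s' (Finset.empty_subset _) a b e
  unfold blk
  rw [Z0_S H h e0, tau_S H v h a b e, nu_S H h a b e0]

theorem dd_S (H : Seen M) (v : Fin 3) {s s' : ℕ} (h : s ≤ s') {a b : Om} (e : M.S {v} s' a = M.S {v} s' b) :
    dd M Q v s a ↔ dd M Q v s b := by
  unfold dd
  rw [Mx_S H v h a b e, blk_S H v h e, show M.ex v s a = M.ex v s b from M.exS v s a b (S_step M h a b e)]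

theorem bet_S (H : Seen M) (v : Fin 3) {s s' : ℕ} (h : s ≤ s') {a b : Om} (e : M.S {v} s' a = M.S {v} s' b) :
    bet M Q v s a ↔ bet M Q v s b := by
  unfold bet
  rw [tau_S H v h a b e]
  exact exists_congr fun r => and_congr_right fun _ => and_congr_right fun hr => dd_S H v (hr.trans h) e

theorem tkx_S (H : Seen M) (v : Fin 3) {s s' : ℕ} (h : s ≤ s') {a b : Om} (e : M.S {v} s' a = M.S {v} s' b) :
    tkx M Q v s a ↔ tkx M Q v s b := by
  unfold tkx
  rw [tau_S H v h a b e, dd_S H v h e]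
  exact and_congr_right fun _ => forall_congr' fun r => forall_congr' fun _ => forall_congr' fun hr =>
    not_congr (dd_S H v (hr.le.trans h) e)

/-- an undecided vertex which is neither blocked nor in an extra block is not dense -/
theorem Mx_lt_of {v : Fin 3} {s : ℕ} {w : Om} (h1 : ¬ dd M Q v s w) (h2 : ¬ blk M Q v s w) (h3 : ¬ M.ex v s w) :
    Mx M Q v s w < Q.uB := by
  by_contra h4
  exact h1 ⟨not_lt.1 h4, h2, h3⟩

/-- before the zone the node is not dense -/
theorem M0_lt_of {s : ℕ} {w : Om} (h1 : ¬ d0 M Q s w) (h3 : ¬ M.ex0 s w) : M0 M Q s w < Q.u0 := by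
  by_contra h4
  exact h1 ⟨not_lt.1 h4, h3⟩

/-- the step before an undecided time of the life outside the extra block -/
theorem Prv.prev {v : Fin 3} {s : ℕ} {w : Om} (H : Prv M Q) (hw : M.P.p w ≠ 0) (hs : tv M v (s + 1) w < s + 1)
    (h1 : ¬ dd M Q v s w) (h2 : ¬ blk M Q v s w) (h3 : ¬ M.ex v (s + 1) w) : Mx M Q v s w < Q.uB := by
  by_cases h4 : M.ex v s w
  · exact H.pv w hw v (s + 1) hs h3 h4
  · exact Mx_lt_of h1 h2 h4

/-- the step before the zone -/
theorem Prv.prev0 {s : ℕ} {w : Om} (H : Prv M Q) (hw : M.P.p w ≠ 0) (hs : nu M.toMS (s + 1) w < s + 1)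
    (h1 : ¬ d0 M Q s w) (h3 : ¬ M.ex0 (s + 1) w) : M0 M Q s w < Q.u0 := by
  by_cases h4 : M.ex0 s w
  · exact H.p0 w hw (s + 1) hs h3 h4
  · exact M0_lt_of h1 h4

/-! ### times are unique -/

theorem tkx_one {v : Fin 3} {s s' : ℕ} {w : Om} (h : tkx M Q v s w) (h' : tkx M Q v s' w)
    (e : tv M v s w = tv M v s' w) : s = s' := by
  have l1 : tv M v s w ≤ s := stg_le _ _
  have l2 : tv M v s' w ≤ s' := stg_le _ _
  rcases lt_trichotomy s s' with h1 | h1 | h1
  · exact absurd h.1 (h'.2 s (by omega) h1)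
  · exact h1
  · exact absurd h'.1 (h.2 s' (by omega) h1)

theorem zt_one {s s' : ℕ} {w : Om} (h : zt M Q s w) (h' : zt M Q s' w)
    (e : nu M.toMS s w = nu M.toMS s' w) : s = s' := by
  have l1 : nu M.toMS s w ≤ s := stg_le _ _
  have l2 : nu M.toMS s' w ≤ s' := stg_le _ _
  rcases lt_trichotomy s s' with h1 | h1 | h1
  · exact absurd h.1 (h'.2 s (by omega) h1)
  · exact h1
  · exact absurd h'.1 (h.2 s' (by omega) h1)

/-- decided means: the vertex time exists in the life -/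
theorem bet_iff {v : Fin 3} {s : ℕ} {w : Om} :
    bet M Q v s w ↔ ∃ s', tv M v s w ≤ s' ∧ s' ≤ s ∧ tkx M Q v s' w := by
  classical
  constructor
  · rintro ⟨s1, h1, h2, h3⟩
    have hex : ∃ r, tv M v s w ≤ r ∧ dd M Q v r w := ⟨s1, h1, h3⟩
    refine ⟨Nat.find hex, (Nat.find_spec hex).1, (Nat.find_min' hex ⟨h1, h3⟩).trans h2, (Nat.find_spec hex).2, ?_⟩
    intro s' h4 h5 h6
    have h7 : tv M v (Nat.find hex) w = tv M v s w :=
      stg_mid rfl (Nat.find_spec hex).1 ((Nat.find_min' hex ⟨h1, h3⟩).trans h2)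
    exact Nat.find_min hex h5 ⟨by rw [← h7]; exact h4, h6⟩
  · rintro ⟨s', h1, h2, h3⟩
    exact ⟨s', h1, h2, h3.1⟩

theorem Z0_iff {s : ℕ} {w : Om} : Z0 M Q s w ↔ ∃ s', nu M.toMS s w ≤ s' ∧ s' ≤ s ∧ zt M Q s' w := by
  classical
  constructor
  · rintro ⟨s1, h1, h2, h3⟩
    have hex : ∃ r, nu M.toMS s w ≤ r ∧ d0 M Q r w := ⟨s1, h1, h3⟩
    refine ⟨Nat.find hex, (Nat.find_spec hex).1, (Nat.find_min' hex ⟨h1, h3⟩).trans h2, (Nat.find_spec hex).2, ?_⟩
    intro s' h4 h5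
    have h7 : nu M.toMS (Nat.find hex) w = nu M.toMS s w :=
      stg_mid rfl (Nat.find_spec hex).1 ((Nat.find_min' hex ⟨h1, h3⟩).trans h2)
    exact fun h6 => Nat.find_min hex h5 ⟨by rw [← h7]; exact h4, h6⟩
  · rintro ⟨s', h1, h2, h3⟩
    exact ⟨s', h1, h2, h3.1⟩

/-- a decided life stays decided -/
theorem bet_mono {v : Fin 3} {s s' : ℕ} {w : Om} (h : s ≤ s') (e : tv M v s' w = tv M v s w)
    (hb : bet M Q v s w) : bet M Q v s' w := by
  obtain ⟨r, h1, h2, h3⟩ := hb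
  exact ⟨r, by rw [e]; exact h1, h2.trans h, h3⟩

/-- **in the zone a life of the public start which is decided was decided before the zone** -/
theorem zone_bef {v : Fin 3} {s r : ℕ} {w : Om} (h1 : nu M.toMS s w ≤ r) (h2 : r ≤ s) (h3 : tv M v r w ≤ nu M.toMS s w)
    (h4 : dd M Q v r w) : ¬ Z0 M Q r w := by
  intro h5
  refine h4.2.1 ⟨h5, ?_⟩
  rw [show nu M.toMS r w = nu M.toMS s w from stg_mid rfl h1 h2]
  exact h3

/-- **exactly one decided vertex is the first** -/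
theorem frs_ex {s : ℕ} {w : Om} (h : ∃ v ∈ Q.Vk, bet M Q v s w) : ∃ v ∈ Q.Vk, frs M Q v s w := by
  classical
  -- the pairs (time, vertex)
  have hex : ∃ r, ∃ v ∈ Q.Vk, tv M v s w ≤ r ∧ r ≤ s ∧ tkx M Q v r w := by
    obtain ⟨v, hv, hb⟩ := h
    obtain ⟨r, a, b, c⟩ := bet_iff.1 hb
    exact ⟨r, v, hv, a, b, c⟩
  set r := Nat.find hex with hr
  obtain ⟨v1, hv1, hv2⟩ := Nat.find_spec hex
  set F := Q.Vk.filter fun v => tv M v s w ≤ r ∧ r ≤ s ∧ tkx M Q v r w with hF
  have hne : F.Nonempty := ⟨v1, Finset.mem_filter.2 ⟨hv1, hv2⟩⟩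
  obtain ⟨v, hvF, hmin⟩ := F.exists_min_image (fun v => v) hne
  obtain ⟨hv, a, b, c⟩ := Finset.mem_filter.1 hvF
  refine ⟨v, hv, bet_iff.2 ⟨r, a, b, c⟩, fun v' hv' hne' => ⟨r, a, b, c, ?_⟩⟩
  rintro ⟨r', g1, g2, g3, g4⟩
  -- the first decided time of `v'`
  have hb' : bet M Q v' s w := ⟨r', g1, g2, g3⟩
  obtain ⟨r2, k1, k2, k3⟩ := bet_iff.1 hb'
  have hr2 : r2 ≤ r' := by
    by_contra h5
    have h6 : tv M v' r2 w = tv M v' s w := stg_mid rfl k1 k2
    exact k3.2 r' (by rw [h6]; exact g1) (not_le.1 h5) g3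
  have hrm : r ≤ r2 := Nat.find_min' hex ⟨v', hv', k1, k2, k3⟩
  rcases g4 with g4 | ⟨g4, g5⟩
  · omega
  · have h7 : r2 = r := by omega
    rw [h7] at k1 k2 k3
    have h8 := hmin v' (Finset.mem_filter.2 ⟨hv', k1, k2, k3⟩)
    exact absurd g5 (not_lt.2 h8)

/-- two first vertices are equal -/
theorem frs_one {s : ℕ} {w : Om} {v v' : Fin 3} (hv : v ∈ Q.Vk) (hv' : v' ∈ Q.Vk) (h : frs M Q v s w)
    (h' : frs M Q v' s w) : v = v' := by
  by_contra hne
  obtain ⟨r, a1, a2, a3, a4⟩ := h.2 v' hv' fun e => hne e.symm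
  obtain ⟨r', b1, b2, b3, b4⟩ := h'.2 v hv hne
  rcases lt_trichotomy r r' with h1 | h1 | h1
  · exact b4 ⟨r, a1, a2, a3.1, Or.inl h1⟩
  · rcases lt_or_gt_of_ne hne with h2 | h2
    · exact b4 ⟨r, a1, a2, a3.1, Or.inr ⟨h1, h2⟩⟩
    · exact a4 ⟨r', b1, b2, b3.1, Or.inr ⟨h1.symm, h2⟩⟩
  · exact a4 ⟨r', b1, b2, b3.1, Or.inl h1⟩

end

end Pool.Agent.GMH.UV
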