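import Pool.Agent.GMH.MVI
import Pool.Agent.GMH.MVIq
import Pool.Agent.GMH.UVdef
import Pool.Agent.GMH.MVS
import Pool.Agent.GMH.TabP2
import Pool.Agent.GMH.KinF
import Pool.Agent.GMH.TopKinV

/-!
# GMH/Dyn: the run instance of `US` on the space with label tables, the kinds as `Kd` (helper12)

Vertices `b, c, d = 0, 1, 2`; top `i` = the face which misses the vertex `i`.
* `USi` = instance of `US` over `MSi`, sights `sgt D E (nn s)`; `seen_i`;
* RULE L: `eT τ w` = the state whose tables are used for a start `τ` : after a light public value the end of the level;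
* `kd3 c κ τ`, `ps3 τ` : kinds of `GMH/KinF` and log density of the three tops, tables of the start `τ`; `Kd3` as `Kd`;
* `kd2 c i κ τ`, `ps2 i τ` : the two tops which see the vertex `i`; `Kd2` as `Kd` (vertex `i` only).
-/

set_option autoImplicit false
set_option linter.unusedSectionVars false

namespace Pool.Agent.GMH.Dy

open Finset Pool.Agent.PWZ Pool.Agent.M3 Pool.Agent.GM Pool.Agent.GM.Harm Pool.Agent.GMH
open Pool.Agent.GMH.TP Pool.Agent.GMH.TD Pool.Agent.GMH.CK Pool.Agent.GMH.MV Pool.Agent.GMH.MVI Pool.Agent.GMH.UV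
open Pool.Agent.GMH.KF

noncomputable section

variable {X β γ φ υ : Type} [Fintype X] [Fintype β] [Fintype φ] [Nonempty X] [Nonempty β]
variable {D : HD (Fin 3) X β γ φ} {al : ℝ} (h : D.Thick al) (v : ℕ → Finset (Fin 3) → X → (Fin 3 → β) → υ)
variable {prr : ℕ → Fin 3 → φ → φ} {T : ℕ} {W : Type} [Fintype W] (tb : Tab D prr T W)

/-! ### kinds of the tables of a start -/

/-- the state `s` is inside a level with a light public value -/
def ltL (s : ℕ) (w : Om W X β) : Prop :=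
  2 ≤ s % 5 ∧ 2 * tb.Ps.m (NPo tb v (5 * (s / 5) + 2)) w < tb.Ps.m (NPo tb v (5 * (s / 5) + 1)) w

open Classical in
/-- RULE L: the state of the tables of the start `τ` -/
def eT (τ : ℕ) (w : Om W X β) : ℕ := if ltL v tb τ w then 5 * (τ / 5) + 5 else τ

/-- kind `κ` of the true tuple, tables of the state `q`, three tops -/
def kq3 (c : KC) (κ : Fin 10) (q : ℕ) (w : Om W X β) : Prop :=
  kdF (D.P h (q / 5)) (ZQ D v q) (FQ v (q / 5)) c κ (tb.pt (q / 5) w) (tup (FQ v (q / 5)) (tb.pt (q / 5) w))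

/-- log density of the true tuple, tables of the state `q`, three tops -/
def pq3 (q : ℕ) (w : Om W X β) : ℝ :=
  psC (D.P h (q / 5)) (ZQ D v q) (ZbQ D v q) (FQ v (q / 5)) (tb.pt (q / 5) w) (tup (FQ v (q / 5)) (tb.pt (q / 5) w))

/-- kind `κ` of the true tuple, tables of the state `q`, the two tops which see the vertex `i` -/
def kq2 (c : KC) (i : Fin 3) (κ : Fin 10) (q : ℕ) (w : Om W X β) : Prop :=
  kdF (D.P h (q / 5)) (ZQ D v q) (Fo (FQ v (q / 5)) i) c κ (tb.pt (q / 5) w)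
    (tup (Fo (FQ v (q / 5)) i) (tb.pt (q / 5) w))

/-- log density of the true tuple, tables of the state `q`, the two tops which see the vertex `i` -/
def pq2 (i : Fin 3) (q : ℕ) (w : Om W X β) : ℝ :=
  psC (D.P h (q / 5)) (ZQ D v q) (ZbQ D v q) (Fo (FQ v (q / 5)) i) (tb.pt (q / 5) w)
    (tup (Fo (FQ v (q / 5)) i) (tb.pt (q / 5) w))

/-- relation of the tables of the start `τ` -/
def kd3 (c : KC) (κ : Fin 10) (τ : ℕ) (w : Om W X β) : Prop := kq3 h v tb c κ (eT v tb τ w) w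

def ps3 (τ : ℕ) (w : Om W X β) : ℝ := pq3 h v tb (eT v tb τ w) w

def kd2 (c : KC) (i : Fin 3) (κ : Fin 10) (τ : ℕ) (w : Om W X β) : Prop := kq2 h v tb c i κ (eT v tb τ w) w

def ps2 (i : Fin 3) (τ : ℕ) (w : Om W X β) : ℝ := pq2 h v tb i (eT v tb τ w) w

/-- the exact vertices of the kind, three tops: `SF`, `R0`, `G` (bad top `κ - 2`), `S`, `H` (vertex `κ - 6`), `HT` -/
def vs (κ : Fin 10) : Finset (Fin 3) := ![∅, univ, {1, 2}, {0, 2}, {0, 1}, ∅, {0}, {1}, {2}, ∅] κ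

/-- the kind `κ` of the three tops -/
def Kd3 (c : KC) (κ : Fin 10) (uB u0 : ℝ) : Kd (Om W X β) :=
  ⟨fun _ => kd3 h v tb c κ, fun _ => kd3 h v tb c κ, fun _ _ => True, fun _ => ps3 h v tb, vs κ, uB, u0,
    fun _ _ _ _ h => h, fun _ _ h => h, fun _ _ h => h, fun _ => kd3 h v tb c κ, fun _ _ _ _ h => h, fun _ _ _ _ h => h⟩

/-- the kind `κ` of the two tops which see the vertex `i` -/
def Kd2 (c : KC) (i : Fin 3) (κ : Fin 10) (uB u0 : ℝ) : Kd (Om W X β) :=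
  ⟨fun _ => kd2 h v tb c i κ, fun _ => kd2 h v tb c i κ, fun _ _ => True, fun _ => ps2 h v tb i, {i}, uB, u0,
    fun _ _ _ _ h => h, fun _ _ h => h, fun _ _ h => h, fun _ => kd2 h v tb c i κ, fun _ _ _ _ h => h, fun _ _ _ _ h => h⟩

/-! ### the run instance -/

variable {v}

theorem nn_succ_le (s : ℕ) : TP.nn s ≤ TP.nn (s + 1) := TP.nn_mono (Nat.le_succ s)

/-- **RUN INSTANCE** of `US` -/
def USi (hv : Codes D v) (d1 kb d0 k0 p1 z : ℝ) (hd1 : 0 < d1) (hd11 : d1 ≤ 1) (hkb : 0 < kb) (hd0 : 0 < d0) (hd01 : d0 ≤ 1)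
    (hk0 : 0 < k0) (hp1 : 0 < p1) (hz : 0 < z) : US (Om W X β) where
  toMS := MSi tb (v := v) d1 kb d0 k0 p1 z hd1 hd11 hkb hd0 hd01 hk0 hp1 hz
  sig := X × (Fin 3 → Option β) × (Fin 3 → γ)
  S := fun E s => sgt D E (TP.nn s)
  fS := fun E s a b e => by
    obtain ⟨h1, h2, h3⟩ := sgt_eq.1 e
    exact sgt_eq.2 ⟨h1, h2, fun j => qb_mono (nn_succ_le s) (h3 j)⟩
  mS := fun E E' s hE a b e => by
    obtain ⟨h1, h2, h3⟩ := sgt_eq.1 e
    exact sgt_eq.2 ⟨h1, fun j hj => h2 j (hE hj), h3⟩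
  nS := fun s => MVIp.NPq_sgt tb hv le_rfl (nc_le s ∅) ∅ 0
  xS := fun i s => MVIp.XLq_sgt tb hv (nc_le s {i}) (Finset.mem_singleton_self i) 0
  Cv := CS (MSi tb (v := v) d1 kb d0 k0 p1 z hd1 hd11 hkb hd0 hd01 hk0 hp1 hz)
  ex := fun _ _ _ => False
  exS := fun _ _ _ _ _ => rfl
  ex0 := fun _ _ => False
  exS0 := fun _ _ _ _ => rfl

variable (hv : Codes D v) {d1 kb d0 k0 p1 z : ℝ} (hd1 : 0 < d1) (hd11 : d1 ≤ 1) (hkb : 0 < kb) (hd0 : 0 < d0)
  (hd01 : d0 ≤ 1) (hk0 : 0 < k0) (hp1 : 0 < p1) (hz : 0 < z)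

/-- no extra blocks -/
theorem prv_i (Q : Kd (Om W X β)) : Prv (USi tb hv d1 kb d0 k0 p1 z hd1 hd11 hkb hd0 hd01 hk0 hp1 hz) Q :=
  prv_of _ _ (fun _ _ _ h => h) fun _ _ h => h

/-- what sees the clocks -/
theorem seen_i : Seen (USi tb hv d1 kb d0 k0 p1 z hd1 hd11 hkb hd0 hd01 hk0 hp1 hz) :=
  ⟨fun i s a b e => MV.tauS_fac i s a b (UV.S_CN _ i s a b e), fun s => MV.nu_fac _ s⟩

end

end Pool.Agent.GMH.Dy
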