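import Pool.Agent.GMH.TopFin
import Pool.Agent.GMH.Dyn

/-!
# GMH/Trf (helper35): TRANSFER between the laws `D.P h t` on `Pt` and the space with label tables `tb.Ps` (row A3 of H3.LEAN)

* `pul_pv`, `pul_sp`, `pul_psC` : conditional laws, surprisals, log densities of pulled back functions;
* `Pos B` : the event (function) `B` on the table space sees the positions only; `lft B` : the event of `Pt`;
  `lft_pt : lft B (tb.pt t w) ↔ B w`; `lft` of and, or, not, exists; `lft_sgt`, `lft_CN`, `lft_NP`: what sees `lft B`;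
* `sgO` : the integrand of the dynamic term on the table space; `DyS_eq`, `Dy2_eq`, `Dy1_eq`, `psC_one`;
* `sum_steps` : sums over the steps of the run as sums over the substeps;
* `dev_ok`, `dev_G` : the deviation condition of `KinOK`, `KinG` from the deviation on the table space; `kce_pt`.
-/

set_option autoImplicit false
set_option linter.unusedSectionVars false

namespace Pool.Agent.GMH.TRF

open Finset Pool.Agent.PWZ Pool.Agent.M3 Pool.Agent.GM Pool.Agent.GM.Harm Pool.Agent.GMH Pool.Agent.GMH.NZ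
open Pool.Agent.GMH.V3 Pool.Agent.GMH.TP Pool.Agent.GMH.TD Pool.Agent.GMH.CK Pool.Agent.GMH.MV Pool.Agent.GMH.MVI
open Pool.Agent.GMH.UV Pool.Agent.GMH.KF Pool.Agent.GMH.Dy

noncomputable section

/-! ### pulled back functions -/

section gen

variable {Om Om' : Type*} [Fintype Om] [Fintype Om'] {P : FP Om} {P' : FP Om'} {π : Om → Om'}

theorem pul_pv (H : Pul P P' π) {κ ι : Type*} (Z : Om' → ι) (V : Om' → κ) (w : Om) (x : κ) :
    P.pv (fun u => Z (π u)) (fun u => V (π u)) w x = P'.pv Z V (π w) x := H.ce Z (fun u => ind (V u = x)) w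

theorem pul_sp (H : Pul P P' π) {κ ι : Type*} (V : Om' → κ) (Z : Om' → ι) (w : Om) :
    sp P (fun u => V (π u)) (fun u => Z (π u)) w = sp P' V Z (π w) := by
  unfold sp
  have a := H.m (fun u => (V u, Z u)) w
  have b := H.m Z w
  rw [← a, ← b]

theorem pul_psC (H : Pul P P' π) {I α β' φ' : Type*} [Fintype I] (Z : Om' → β') (Zb : I → Om' → α) (F : I → Om' → φ')
    (w : Om) (f : I → φ') :
    psC P (fun u => Z (π u)) (fun i u => Zb i (π u)) (fun i u => F i (π u)) w f = psC P' Z Zb F (π w) f := by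
  unfold psC
  have a : P.pv (fun u => Z (π u)) (tup fun i u => F i (π u)) w f = P'.pv Z (tup F) (π w) f := pul_pv H Z (tup F) w f
  have b : ∀ i, P.pv (fun u => Zb i (π u)) (fun u => F i (π u)) w (f i) = P'.pv (Zb i) (F i) (π w) (f i) :=
    fun i => pul_pv H (Zb i) (F i) w (f i)
  rw [a]
  simp only [b]

/-- deviation from the conditional mean, pulled back -/
theorem pul_dev (H : Pul P P' π) {κ : Type*} (Z : Om' → κ) (B : Om' → Prop) (g : Om' → ℝ) :
    P'.E (fun w => ind (B w) * (g w - P'.ce Z g w)) =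
      P.E (fun w => ind (B (π w)) * (g (π w) - P.ce (fun u => Z (π u)) (fun u => g (π u)) w)) := by
  rw [← H.E]
  refine P.E_congr fun w _ => ?_
  rw [H.ce Z g w]

/-- the log density of one top over the others -/
theorem psC_last (P : FP Om) {I α β' φ' : Type*} [Fintype I] [DecidableEq I] {Z : Om → β'} {Zb : I → Om → α}
    (F : I → Om → φ') (i0 : I) {w : Om} (hw : P.p w ≠ 0) :
    psC P (fun u => (tup (Fo F i0) u, Z u)) (fun _ : Unit => Zb i0) (fun _ : Unit => F i0) w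
      (tup (fun _ : Unit => F i0) w) = psC P Z Zb F w (tup F w) - psC P Z Zb (Fo F i0) w (tup (Fo F i0) w) := by
  rw [psC_true P (fun _ : Unit => F i0) hw, psC_true P F hw, psC_true P (Fo F i0) hw, Fo_chain P F i0 Z w]
  have e1 : ∀ i ∈ univ.erase i0, sp P (Fo F i0 i) (Zb i) w = sp P (F i) (Zb i) w := fun i hi => by
    rw [Fo_ne P F (Finset.ne_of_mem_erase hi)]
  rw [← Finset.add_sum_erase univ (fun i => sp P (F i) (Zb i) w) (mem_univ i0),
    ← Finset.add_sum_erase univ (fun i => sp P (Fo F i0 i) (Zb i) w) (mem_univ i0), Finset.sum_congr rfl e1, Fo_self]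
  simp only [Finset.univ_unique, Finset.sum_singleton]
  ring

/-- sums over the steps `5 t + r` -/
theorem sum_five (F : ℕ → ℝ) (T : ℕ) : ∑ q ∈ range (5 * T), F q =
    ∑ t ∈ range T, (F (5 * t) + F (5 * t + 1) + F (5 * t + 2) + F (5 * t + 3) + F (5 * t + 4)) := by
  induction T with
  | zero => simp
  | succ T ih =>
    rw [Finset.sum_range_succ, ← ih, show 5 * (T + 1) = 5 * T + 1 + 1 + 1 + 1 + 1 by ring]
    simp only [Finset.sum_range_succ]
    ring

end gen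

/-! ### events of the positions -/

variable {X β γ φ υ : Type} [Fintype X] [Fintype β] [Fintype φ] [Nonempty X] [Nonempty β]
variable {D : HD (Fin 3) X β γ φ} {al : ℝ} (h : D.Thick al) {prr : ℕ → Fin 3 → φ → φ} {T : ℕ} {W : Type} [Fintype W]
variable (tb : Tab D prr T W) {v : ℕ → Finset (Fin 3) → X → (Fin 3 → β) → υ}

/-- the positions -/
def ps (w : Om W X β) : X × (Fin 3 → β) := (w.1, w.2.2)

theorem ps_1 {a b : Om W X β} (e : ps a = ps b) : a.1 = b.1 := (Prod.mk.inj e).1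

theorem ps_2 {a b : Om W X β} (e : ps a = ps b) : a.2.2 = b.2.2 := (Prod.mk.inj e).2

/-- the function sees the positions only -/
abbrev Pos {ι : Type*} (B : Om W X β → ι) : Prop := Fac (ps (W := W) (X := X) (β := β)) B

/-- the event of `Pt` -/
def lft (B : Om W X β → Prop) (u : Pt (Fin 3) X β φ) : Prop := ∃ w : Om W X β, w.1 = u.1 ∧ w.2.2 = u.2.1 ∧ B w

theorem lft_at {B : Om W X β → Prop} (hB : Pos B) {u : Pt (Fin 3) X β φ} {w : Om W X β} (h1 : w.1 = u.1)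
    (h2 : w.2.2 = u.2.1) : lft B u ↔ B w := by
  constructor
  · rintro ⟨w', a, b, c⟩
    have e : ps w' = ps w := by
      show (w'.1, w'.2.2) = (w.1, w.2.2)
      rw [a, b, h1, h2]
    rw [← hB w' w e]
    exact c
  · exact fun c => ⟨w, h1, h2, c⟩

variable {tb} in
/-- **the event at the sample point** -/
theorem lft_pt {B : Om W X β → Prop} (hB : Pos B) (t : ℕ) (w : Om W X β) : lft B (tb.pt t w) ↔ B w :=
  lft_at hB rfl rfl

include tb in
/-- every point of `Pt` lies below a point of the support -/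
theorem ex_up (u : Pt (Fin 3) X β φ) : ∃ w : Om W X β, tb.Ps.p w ≠ 0 ∧ w.1 = u.1 ∧ w.2.2 = u.2.1 := by
  have h1 : ∀ i, ∃ ω, (tb.Q i).p ω ≠ 0 := by
    intro i
    by_contra hcon
    push Not at hcon
    have h2 := (tb.Q i).tot
    rw [Finset.sum_eq_zero fun ω _ => hcon ω] at h2
    exact zero_ne_one h2
  choose ω _ using h1
  obtain ⟨z, a, b, c⟩ := exists_supp (tb := tb) ((u.1, ω, u.2.1) : Om W X β)
  exact ⟨z, a, b, c⟩

include tb in
theorem lft_and {A B : Om W X β → Prop} (hA : Pos A) (hB : Pos B) (u : Pt (Fin 3) X β φ) :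
    lft (fun w => A w ∧ B w) u ↔ lft A u ∧ lft B u := by
  obtain ⟨w, _, a, b⟩ := ex_up tb u
  have hAB : Pos (fun w => A w ∧ B w) := fun x y e => congrArg₂ And (hA x y e) (hB x y e)
  rw [lft_at hA a b, lft_at hB a b, lft_at hAB a b]

include tb in
theorem lft_or {A B : Om W X β → Prop} (hA : Pos A) (hB : Pos B) (u : Pt (Fin 3) X β φ) :
    lft (fun w => A w ∨ B w) u ↔ lft A u ∨ lft B u := by
  obtain ⟨w, _, a, b⟩ := ex_up tb u
  have hAB : Pos (fun w => A w ∨ B w) := fun x y e => congrArg₂ Or (hA x y e) (hB x y e)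
  rw [lft_at hA a b, lft_at hB a b, lft_at hAB a b]

include tb in
theorem lft_not {A : Om W X β → Prop} (hA : Pos A) (u : Pt (Fin 3) X β φ) : lft (fun w => ¬ A w) u ↔ ¬ lft A u := by
  obtain ⟨w, _, a, b⟩ := ex_up tb u
  have hA' : Pos (fun w => ¬ A w) := fun x y e => congrArg Not (hA x y e)
  rw [lft_at hA a b, lft_at hA' a b]

theorem lft_ex {ι : Type*} {A : ι → Om W X β → Prop} (u : Pt (Fin 3) X β φ) :
    lft (fun w => ∃ i, A i w) u ↔ ∃ i, lft (A i) u :=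
  ⟨fun ⟨w, a, b, i, c⟩ => ⟨i, w, a, b, c⟩, fun ⟨i, w, a, b, c⟩ => ⟨w, a, b, i, c⟩⟩

/-! ### sights see the positions -/

theorem pos_sgt (E : Finset (Fin 3)) (n : ℕ) : Pos (sgt (W := W) D E n) := fun a b e => by
  have e1 : a.1 = b.1 := ps_1 e
  have e2 : a.2.2 = b.2.2 := ps_2 e
  exact sgt_eq.2 ⟨e1, fun j _ => by rw [e2], fun j => by rw [e2]⟩

theorem pos_of {ι : Type*} {E : Finset (Fin 3)} {n : ℕ} {B : Om W X β → ι} (hB : Fac (sgt (W := W) D E n) B) : Pos B :=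
  fun a b e => hB a b (pos_sgt E n a b e)

/-- the sight on `Pt` -/
def sgP (D : HD (Fin 3) X β γ φ) (E : Finset (Fin 3)) (n : ℕ) (u : Pt (Fin 3) X β φ) :
    X × (Fin 3 → Option β) × (Fin 3 → γ) :=
  (u.1, (fun j => if j ∈ E then some (u.2.1 j) else Option.none), fun j => D.qb n (u.2.1 j))

theorem sgP_pt (E : Finset (Fin 3)) (n t : ℕ) (w : Om W X β) : sgP D E n (tb.pt t w) = sgt D E n w := rfl

include tb in
/-- an event seen by a sight, on `Pt` -/
theorem lft_sgt {E : Finset (Fin 3)} {n : ℕ} {B : Om W X β → Prop} (hB : Fac (sgt (W := W) D E n) B) :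
    Fac (sgP (φ := φ) D E n) (lft B) := by
  intro u u' e
  obtain ⟨w, _, a, b⟩ := ex_up tb u
  obtain ⟨w', _, a', b'⟩ := ex_up tb u'
  have e1 : sgt D E n w = sgt D E n w' := by
    have h1 : sgt D E n w = sgP D E n u := by unfold sgt sgP; rw [a, b]
    have h2 : sgt D E n w' = sgP D E n u' := by unfold sgt sgP; rw [a', b']
    rw [h1, h2, e]
  refine propext ?_
  rw [lft_at (pos_of hB) a b, lft_at (pos_of hB) a' b', hB w w' e1]

theorem XLq_pos {q : ℕ} {i : Fin 3} {u u' : Pt (Fin 3) X β φ} (h1 : u.1 = u'.1) (h2 : u.2.1 = u'.2.1) :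
    XLq v q i u = XLq v q i u' := by
  obtain ⟨x, y, f⟩ := u
  obtain ⟨x', y', f'⟩ := u'
  simp only at h1 h2
  subst h1 h2
  rfl

theorem NPq_pos {q : ℕ} {u u' : Pt (Fin 3) X β φ} (h1 : u.1 = u'.1) (h2 : u.2.1 = u'.2.1) :
    NPq D v q u = NPq D v q u' := by
  obtain ⟨x, y, f⟩ := u
  obtain ⟨x', y', f'⟩ := u'
  simp only at h1 h2
  subst h1 h2
  rfl

include tb in
/-- an event of the positions which is seen by `G`, `G` the pull back of `G'` -/
theorem lft_seen {ι ι' : Type*} {G : Om W X β → ι} {G' : Pt (Fin 3) X β φ → ι'} {B : Om W X β → Prop} (hP : Pos B)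
    (hB : Fac G B) (hG : ∀ (u u' : Pt (Fin 3) X β φ) (w w' : Om W X β), w.1 = u.1 → w.2.2 = u.2.1 → w'.1 = u'.1 →
      w'.2.2 = u'.2.1 → G' u = G' u' → G w = G w') : Fac G' (lft B) := by
  intro u u' e
  obtain ⟨w, _, a, b⟩ := ex_up tb u
  obtain ⟨w', _, a', b'⟩ := ex_up tb u'
  refine propext ?_
  rw [lft_at hP a b, lft_at hP a' b', hB w w' (hG u u' w w' a b a' b' e)]

theorem pos_CN (i : Fin 3) (s : ℕ) : Pos (fun w : Om W X β => (XLo tb v i s w, NPo tb v s w)) := fun a b e => by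
  have e1 : a.1 = b.1 := ps_1 e
  have e2 : a.2.2 = b.2.2 := ps_2 e
  show (XLq v s i (tb.pt 0 a), NPq D v s (tb.pt 0 a)) = (XLq v s i (tb.pt 0 b), NPq D v s (tb.pt 0 b))
  rw [XLq_pos (u := tb.pt 0 a) (u' := tb.pt 0 b) e1 e2, NPq_pos (u := tb.pt 0 a) (u' := tb.pt 0 b) e1 e2]

theorem pos_NP (s : ℕ) : Pos (NPo tb v s) := fun a b e => congrArg Prod.snd (pos_CN tb (v := v) 0 s a b e)

/-- events of the class of a vertex, on `Pt` -/
theorem lft_CN {i : Fin 3} {s : ℕ} {B : Om W X β → Prop}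
    (hB : Fac (fun w : Om W X β => (XLo tb v i s w, NPo tb v s w)) B) :
    Fac (fun u : Pt (Fin 3) X β φ => (XLq v s i u, NPq D v s u)) (lft B) := by
  refine lft_seen tb (fun a b e => hB a b (pos_CN tb i s a b e)) hB fun u u' w w' a b a' b' e => ?_
  have h1 : (XLo tb v i s w, NPo tb v s w) = (XLq v s i u, NPq D v s u) := by
    show (XLq v s i (tb.pt 0 w), NPq D v s (tb.pt 0 w)) = _
    rw [XLq_pos (u := tb.pt 0 w) (u' := u) a b, NPq_pos (u := tb.pt 0 w) (u' := u) a b]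
  have h2 : (XLo tb v i s w', NPo tb v s w') = (XLq v s i u', NPq D v s u') := by
    show (XLq v s i (tb.pt 0 w'), NPq D v s (tb.pt 0 w')) = _
    rw [XLq_pos (u := tb.pt 0 w') (u' := u') a' b', NPq_pos (u := tb.pt 0 w') (u' := u') a' b']
  rw [h1, h2]
  exact e

theorem XLq_ZQ (q : ℕ) (i : Fin 3) : Fac (ZQ (φ := φ) D v q) (fun u => (XLq v q i u, NPq D v q u)) := fun a b e =>
  Prod.ext (ZQ_XLq q i a b e) (ZQ_NPq q a b e)

/-- events of the class of a vertex are seen by the thin labels of every later state -/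
theorem lft_CN_ZQ {i : Fin 3} {s q : ℕ} (hs : s ≤ q) {B : Om W X β → Prop}
    (hB : Fac (fun w : Om W X β => (XLo tb v i s w, NPo tb v s w)) B) : Fac (ZQ (φ := φ) D v q) (lft B) := by
  intro a b e
  exact lft_CN tb hB a b (XLq_ZQ s i a b (ZQ_mono hs a b e))

/-! ### the dynamic terms -/

/-- integrand of the dynamic term: relations `rk`, bits `bk`, log density `psi`, weight `omw` at the true tuple -/
def sgO {Ω κ : Type*} [Fintype κ] (rk bk : κ → Ω → Prop) (psi omw : Ω → ℝ) (eta K : ℝ) (w : Ω) : ℝ :=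
  (∑ k, ind (rk k w) * ind (bk k w)) * max (psi w) (-K) +
    (1 - ∑ k, ind (rk k w) * ind (bk k w)) * (omw w * (max (psi w) 0 + Real.log (1 / eta)))

theorem sgO_congr {Ω κ : Type*} [Fintype κ] {rk bk rk' bk' : κ → Ω → Prop} {psi omw psi' omw' : Ω → ℝ} {eta K : ℝ} {w : Ω}
    (h1 : ∀ k, rk k w ↔ rk' k w) (h2 : ∀ k, bk k w ↔ bk' k w) (h3 : psi w = psi' w) (h4 : omw w = omw' w) :
    sgO rk bk psi omw eta K w = sgO rk' bk' psi' omw' eta K w := by
  have e1 : ∀ k, rk k w = rk' k w := fun k => propext (h1 k)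
  have e2 : ∀ k, bk k w = bk' k w := fun k => propext (h2 k)
  unfold sgO
  simp only [e1, e2, h3, h4]

section frames

variable {Om' : Type*} [Fintype Om'] {P' : FP Om'} {π : Om W X β → Om'}

/-- **the dynamic term of a frame** -/
theorem DyG_pul (H : Pul tb.Ps P' π) {I α β' φ' κ : Type*} [Fintype I] [DecidableEq I] [Fintype κ] (Z : Om' → β')
    (Zb : I → Om' → α) (F : I → Om' → φ') (A : Om' → Prop) (rel : κ → Om' → (I → φ') → Prop) (bit : κ → Om' → Prop)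
    (om : Om' → (I → φ') → ℝ) (eta K : ℝ) :
    DyG P' Z Zb F A rel bit om eta K = tb.Ps.E (fun w => ind (A (π w)) *
      sgO (fun k w => rel k (π w) (tup F (π w))) (fun k w => bit k (π w)) (fun w => psC P' Z Zb F (π w) (tup F (π w)))
        (fun w => om (π w) (tup F (π w))) eta K w) := by
  unfold DyG
  rw [← H.E]
  rfl

/-- deviation condition of a frame from the deviation on the table space -/
theorem dev_pul (H : Pul tb.Ps P' π) {κ' : Type*} (Z : Om' → κ') (A : Om' → Prop) (bit : Om' → Prop)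
    (B : Om W X β → Prop) (hB : ∀ w, tb.Ps.p w ≠ 0 → (bit (π w) ↔ B w)) {dv : ℝ} (g : Om' → ℝ)
    (hd : |tb.Ps.E (fun w => ind (A (π w) ∧ B w) *
      (g (π w) - tb.Ps.ce (fun u => Z (π u)) (fun u => g (π u)) w))| ≤ dv) :
    |P'.E (fun w => ind (A w ∧ bit w) * (g w - P'.ce Z g w))| ≤ dv := by
  rw [pul_dev H Z (fun w => A w ∧ bit w) g]
  refine le_trans (le_of_eq ?_) hd
  congr 1
  refine tb.Ps.E_congr fun w hw => ?_
  have e : (A (π w) ∧ bit (π w)) = (A (π w) ∧ B w) := by rw [propext (hB w hw)]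
  rw [e]

end frames

variable (v)

section dys

variable {A : Fin 6 → ℕ → Pt (Fin 3) X β φ → Prop} {κ : Type} [Fintype κ]
  {rel : Fin 6 → ℕ → κ → Pt (Fin 3) X β φ → (Fin 3 → (List υ × (Fin 3 → Option φ))) → Prop}
  {bit : Fin 6 → ℕ → κ → Pt (Fin 3) X β φ → Prop}
  {om : Fin 6 → ℕ → Pt (Fin 3) X β φ → (Fin 3 → (List υ × (Fin 3 → Option φ))) → ℝ}

theorem qs_div (s : Fin 6) (t : ℕ) : qs s t / 5 = t := by
  fin_cases s <;> simp [qs] <;> omega

/-- the true tuple -/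
def tF (v : ℕ → Finset (Fin 3) → X → (Fin 3 → β) → υ) (tb : Tab D prr T W) (t : ℕ) (w : Om W X β) :
    Fin 3 → (List υ × (Fin 3 → Option φ)) := tup (FQ v t) (tb.pt t w)

theorem pq3_eq (s : Fin 6) (t : ℕ) (w : Om W X β) :
    psC (D.P h t) (ZQ D v (qs s t)) (ZbQ D v (qs s t)) (FQ v t) (tb.pt t w) (tup (FQ v t) (tb.pt t w)) =
      pq3 h v tb (qs s t) w := by
  unfold pq3
  rw [qs_div]

theorem kq3_eq (c : KC) (k : Fin 10) (s : Fin 6) (t : ℕ) (w : Om W X β) :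
    kdF (D.P h t) (ZQ D v (qs s t)) (FQ v t) c k (tb.pt t w) (tup (FQ v t) (tb.pt t w)) ↔
      kq3 h v tb c k (qs s t) w := by
  unfold kq3
  rw [qs_div]

theorem pq2_eq (i : Fin 3) (s : Fin 6) (t : ℕ) (w : Om W X β) :
    psC (D.P h t) (ZQ D v (qs s t)) (ZbQ D v (qs s t)) (Fo (FQ v t) i) (tb.pt t w) (tup (Fo (FQ v t) i) (tb.pt t w)) =
      pq2 h v tb i (qs s t) w := by
  unfold pq2
  rw [qs_div]

theorem kq2_eq (c : KC) (i : Fin 3) (k : Fin 10) (s : Fin 6) (t : ℕ) (w : Om W X β) :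
    kdF (D.P h t) (ZQ D v (qs s t)) (Fo (FQ v t) i) c k (tb.pt t w)
      (tup (Fo (FQ v t) i) (tb.pt t w)) ↔ kq2 h v tb c i k (qs s t) w := by
  unfold kq2
  rw [qs_div]

/-- **`DyS` on the table space** -/
theorem DyS_eq (eta K : ℝ) (s : Fin 6) {t : ℕ} (ht : t ≤ T) : DyS h v A rel bit om eta K s t =
    tb.Ps.E (fun w => ind (A s t (tb.pt t w)) * sgO (fun k w => rel s t k (tb.pt t w) (tup (FQ v t) (tb.pt t w)))
      (fun k w => bit s t k (tb.pt t w)) (pq3 h v tb (qs s t)) (fun w => om s t (tb.pt t w) (tup (FQ v t) (tb.pt t w)))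
      eta K w) := by
  unfold DyS
  rw [← (pul_pt h tb ht).E]
  refine tb.Ps.E_congr fun w _ => ?_
  congr 1
  unfold sgO
  rw [← pq3_eq h tb v s t w]
  rfl

/-- the conditional mean of a bit -/
theorem ce_lft {ι : Type*} {t : ℕ} (ht : t ≤ T) (Z : Pt (Fin 3) X β φ → ι) {B : Om W X β → Prop} (hB : Pos B)
    (w : Om W X β) : (D.P h t).ce Z (fun u => ind (lft B u)) (tb.pt t w) =
      tb.Ps.ce (fun u => Z (tb.pt t u)) (fun u => ind (B u)) w := by
  rw [← (pul_pt h tb ht).ce]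
  refine tb.Ps.ce_congr (fun u _ => ?_) w
  rw [propext (lft_pt (tb := tb) hB t u)]

/-- the released weight of the kinds -/
theorem kce_pt {t : ℕ} (ht : t ≤ T) {ν κ' : Type} [Fintype κ'] (N' : Pt (Fin 3) X β φ → ν)
    (rl : κ' → Pt (Fin 3) X β φ → (Fin 3 → (List υ × (Fin 3 → Option φ))) → Prop) {B : κ' → Om W X β → Prop}
    (hB : ∀ k, Pos (B k)) (w : Om W X β) (f : Fin 3 → (List υ × (Fin 3 → Option φ))) :
    kce (D.P h t) N' rl (fun k => lft (B k)) (tb.pt t w) f =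
      ∑ k, ind (rl k (tb.pt t w) f) * tb.Ps.ce (fun u => N' (tb.pt t u)) (fun u => ind (B k u)) w := by
  unfold kce
  refine Finset.sum_congr rfl fun k _ => ?_
  rw [ce_lft h tb ht N' (hB k) w]

end dys

section vs

variable (v : ℕ → Finset (Fin 3) → X → (Fin 3 → β) → Pt (Fin 3) X β φ)

/-- **`Dy2` on the table space** -/
theorem Dy2_eq {κ : Type} [Fintype κ] (s : Fin 6) {t : ℕ} (ht : t ≤ T) (i : Fin 3) (A : Pt (Fin 3) X β φ → Prop)
    (rel : κ → Pt (Fin 3) X β φ → (Fin 3 → Option (TP.Tt X β φ)) → Prop) (bit : κ → Pt (Fin 3) X β φ → Prop)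
    (om : Pt (Fin 3) X β φ → (Fin 3 → Option (TP.Tt X β φ)) → ℝ) (eta K : ℝ) :
    Dy2 h v s t i A rel bit om eta K = tb.Ps.E (fun w => ind (A (tb.pt t w)) *
      sgO (fun k w => rel k (tb.pt t w) (tup (Fo (FQ (φ := φ) v t) i) (tb.pt t w))) (fun k w => bit k (tb.pt t w))
        (pq2 h v tb i (qs s t)) (fun w => om (tb.pt t w) (tup (Fo (FQ (φ := φ) v t) i) (tb.pt t w))) eta K w) := by
  unfold Dy2
  rw [DyG_pul tb (pul_pt h tb ht)]
  refine tb.Ps.E_congr fun w _ => ?_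
  congr 1
  exact sgO_congr (fun _ => Iff.rfl) (fun _ => Iff.rfl) (pq2_eq h tb v i s t w) rfl

/-- **`Dy1` on the table space** -/
theorem Dy1_eq {κ : Type} [Fintype κ] (s : Fin 6) {t : ℕ} (ht : t ≤ T) (i : Fin 3) (A : Pt (Fin 3) X β φ → Prop)
    (rel : κ → Pt (Fin 3) X β φ → (Unit → TP.Tt X β φ) → Prop) (bit : κ → Pt (Fin 3) X β φ → Prop)
    (om : Pt (Fin 3) X β φ → (Unit → TP.Tt X β φ) → ℝ) (eta K : ℝ) :
    Dy1 h v s t i A rel bit om eta K = tb.Ps.E (fun w => ind (A (tb.pt t w)) *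
      sgO (fun k w => rel k (tb.pt t w) (fun _ => FQ v t i (tb.pt t w))) (fun k w => bit k (tb.pt t w))
        (fun w => pq3 h v tb (qs s t) w - pq2 h v tb i (qs s t) w)
        (fun w => om (tb.pt t w) (fun _ => FQ v t i (tb.pt t w))) eta K w) := by
  unfold Dy1
  rw [DyG_pul tb (pul_pt h tb ht)]
  refine tb.Ps.E_congr fun w hw => ?_
  congr 1
  refine sgO_congr (fun _ => Iff.rfl) (fun _ => Iff.rfl) ?_ rfl
  show psC (D.P h t) (Z1 D v s t i) (fun _ : Unit => ZbQ D v (qs s t) i) (fun _ => FQ v t i) (tb.pt t w)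
    (tup (fun _ : Unit => FQ v t i) (tb.pt t w)) = pq3 h v tb (qs s t) w - pq2 h v tb i (qs s t) w
  have h1 := psC_last (D.P h t) (Z := ZQ D v (qs s t)) (Zb := ZbQ D v (qs s t)) (FQ v t) i
    ((pul_pt h tb ht).ne hw)
  refine h1.trans ?_
  have h2 := pq3_eq h tb v s t w
  have h3 := pq2_eq h tb v i s t w
  exact congrArg₂ (· - ·) h2 h3

/-! ### deviation conditions -/

/-- **the deviation condition of `KinOK`** -/
theorem dev_ok {A : Fin 6 → ℕ → Pt (Fin 3) X β φ → Prop} {κ : Type} [Fintype κ] {B : Fin 6 → ℕ → κ → Om W X β → Prop}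
    {Dv : Fin 6 → ℕ → κ → ℝ} (hB : ∀ s t k, Pos (B s t k))
    (hd : ∀ t < T, ∀ s k, ∀ g : Pt (Fin 3) X β φ → ℝ, Fac (fun w => (tup (FQ v t) w, VZ D v s t w)) g →
      (∀ w, |g w| ≤ 1) → |tb.Ps.E (fun w => ind (A s t (tb.pt t w) ∧ B s t k w) *
        (g (tb.pt t w) - tb.Ps.ce (fun u => VZ D v s t (tb.pt t u)) (fun u => g (tb.pt t u)) w))| ≤ Dv s t k) :
    ∀ t < T, ∀ s k, ∀ g : Pt (Fin 3) X β φ → ℝ, Fac (fun w => (tup (FQ v t) w, VZ D v s t w)) g →
      (∀ w, |g w| ≤ 1) → |(D.P h t).E (fun w => ind (A s t w ∧ lft (B s t k) w) *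
        (g w - (D.P h t).ce (VZ D v s t) g w))| ≤ Dv s t k :=
  fun t ht s k g hg hb => dev_pul tb (pul_pt h tb ht.le) (VZ D v s t) (A s t) (lft (B s t k)) (B s t k)
    (fun w _ => lft_pt (hB s t k) t w) g (hd t ht s k g hg hb)

/-- the deviation condition of a frame -/
theorem dev_G {t : ℕ} (ht : t ≤ T) {I α β' φ' ν κ : Type*} [Fintype I] [DecidableEq I] [Fintype κ]
    {Z : Pt (Fin 3) X β φ → β'} {F : I → Pt (Fin 3) X β φ → φ'} {V : Pt (Fin 3) X β φ → ν} {A : Pt (Fin 3) X β φ → Prop}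
    {B : κ → Om W X β → Prop} {Dv : κ → ℝ} (hB : ∀ k, Pos (B k))
    (hd : ∀ k, ∀ g : Pt (Fin 3) X β φ → ℝ, Fac (fun w => (tup F w, (V w, Z w))) g → (∀ w, |g w| ≤ 1) →
      |tb.Ps.E (fun w => ind (A (tb.pt t w) ∧ B k w) * (g (tb.pt t w) -
        tb.Ps.ce (fun u => (V (tb.pt t u), Z (tb.pt t u))) (fun u => g (tb.pt t u)) w))| ≤ Dv k) :
    ∀ k, ∀ g : Pt (Fin 3) X β φ → ℝ, Fac (fun w => (tup F w, (V w, Z w))) g → (∀ w, |g w| ≤ 1) →
      |(D.P h t).E (fun w => ind (A w ∧ lft (B k) w) * (g w - (D.P h t).ce (fun u => (V u, Z u)) g w))| ≤ Dv k :=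
  fun k g hg hb => dev_pul tb (pul_pt h tb ht) (fun u => (V u, Z u)) A (lft (B k)) (B k)
    (fun w _ => lft_pt (hB k) t w) g (hd k g hg hb)

end vs

/-! ### sums over the steps -/

/-- the steps as substeps -/
theorem sum_steps (f : Fin 6 → ℕ → ℝ) (T : ℕ) : ∑ t ∈ range T, ∑ s, f s t =
    ∑ q ∈ range (5 * T), (![f 0, fun t => f 1 t + f 2 t, f 3, f 4, f 5] ⟨q % 5, Nat.mod_lt q (by omega)⟩) (q / 5) := by
  rw [sum_five]
  refine Finset.sum_congr rfl fun t _ => ?_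
  have e : ∀ r : ℕ, r < 5 → (5 * t + r) % 5 = r := fun r hr => by omega
  have e' : ∀ r : ℕ, r < 5 → (5 * t + r) / 5 = t := fun r hr => by omega
  have k0 : (![f 0, fun t => f 1 t + f 2 t, f 3, f 4, f 5] ⟨(5 * t) % 5, Nat.mod_lt _ (by omega)⟩) (5 * t / 5) =
      f 0 t := by
    have h1 : (⟨(5 * t) % 5, Nat.mod_lt _ (by omega)⟩ : Fin 5) = 0 := Fin.ext (by simp)
    rw [h1, show 5 * t / 5 = t by omega]
    rfl
  have kk : ∀ r : ℕ, ∀ hr : r < 5, (![f 0, fun t => f 1 t + f 2 t, f 3, f 4, f 5]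
      ⟨(5 * t + r) % 5, Nat.mod_lt _ (by omega)⟩) ((5 * t + r) / 5) =
      (![f 0, fun t => f 1 t + f 2 t, f 3, f 4, f 5] ⟨r, hr⟩) t := by
    intro r hr
    have h1 : (⟨(5 * t + r) % 5, Nat.mod_lt _ (by omega)⟩ : Fin 5) = ⟨r, hr⟩ := Fin.ext (e r hr)
    rw [h1, e' r hr]
  rw [k0, kk 1 (by omega), kk 2 (by omega), kk 3 (by omega), kk 4 (by omega)]
  simp only [Fin.sum_univ_succ, Finset.univ_eq_empty, Finset.sum_empty]
  show f 0 t + (f 1 t + (f 2 t + (f 3 t + (f 4 t + (f 5 t + 0))))) = f 0 t + (f 1 t + f 2 t) + f 3 t + f 4 t + f 5 t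
  ring

/-! ### masses and light values -/

section mass

variable (v : ℕ → Finset (Fin 3) → X → (Fin 3 → β) → υ)

theorem NPo_pt (q t : ℕ) (w : Om W X β) : NPo tb v q w = NPq D v q (tb.pt t w) := NPq_pos rfl rfl

theorem XLo_pt (i : Fin 3) (q t : ℕ) (w : Om W X β) : XLo tb v i q w = XLq v q i (tb.pt t w) := XLq_pos rfl rfl

theorem m_NPo {t : ℕ} (ht : t ≤ T) (q : ℕ) (w : Om W X β) :
    tb.Ps.m (NPo tb v q) w = (D.P h t).m (NPq D v q) (tb.pt t w) := by
  rw [← (pul_pt h tb ht).m (NPq D v q) w, show NPo tb v q = fun u => NPq D v q (tb.pt t u) from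
    funext fun u => NPo_pt tb v q t u]

theorem m_CNo {t : ℕ} (ht : t ≤ T) (i : Fin 3) (q : ℕ) (w : Om W X β) :
    tb.Ps.m (fun u => (XLo tb v i q u, NPo tb v q u)) w =
      (D.P h t).m (fun u => (XLq v q i u, NPq D v q u)) (tb.pt t w) := by
  rw [← (pul_pt h tb ht).m (fun u => (XLq v q i u, NPq D v q u)) w,
    show (fun u => (XLo tb v i q u, NPo tb v q u)) = fun u => (XLq v q i (tb.pt t u), NPq D v q (tb.pt t u)) from
    funext fun u => by rw [NPo_pt tb v q t u, XLo_pt tb v i q t u]]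

/-- heavy public value, on the table space -/
theorem HV_pt {t : ℕ} (ht : t ≤ T) (w : Om W X β) : HV h v t (tb.pt t w) ↔
    tb.Ps.m (NPo tb v (5 * t + 1)) w ≤ 2 * tb.Ps.m (NPo tb v (5 * t + 2)) w := by
  unfold HV
  rw [m_NPo h tb v ht, m_NPo h tb v ht]

/-- light private value in the substep `q` of the vertex `i`, on `Pt`, law of the time `t` -/
def LVp (i : Fin 3) (t q : ℕ) (u : Pt (Fin 3) X β φ) : Prop :=
  2 * (D.P h t).m (fun u => (XLq v (q + 1) i u, NPq D v (q + 1) u)) u < (D.P h t).m (fun u => (XLq v q i u, NPq D v q u)) u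

theorem LVp_pt {t : ℕ} (ht : t ≤ T) (i : Fin 3) (q : ℕ) (w : Om W X β) : LVp h v i t q (tb.pt t w) ↔
    2 * tb.Ps.m (fun u => (XLo tb v i (q + 1) u, NPo tb v (q + 1) u)) w <
      tb.Ps.m (fun u => (XLo tb v i q u, NPo tb v q u)) w := by
  unfold LVp
  rw [m_CNo h tb v ht, m_CNo h tb v ht]

end mass

/-! ### the run instance -/

section run

variable {hv : Codes D v} {d1 kb d0 k0 p1 z : ℝ} {hd1 : 0 < d1} {hd11 : d1 ≤ 1} {hkb : 0 < kb} {hd0 : 0 < d0}
  {hd01 : d0 ≤ 1} {hk0 : 0 < k0} {hp1 : 0 < p1} {hz : 0 < z}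

/-- light public value of a code step -/
theorem ltN_pt {t : ℕ} (ht : t ≤ T) (w : Om W X β) :
    lt5 (USi tb hv d1 kb d0 k0 p1 z hd1 hd11 hkb hd0 hd01 hk0 hp1 hz).toMS
      (USi tb hv d1 kb d0 k0 p1 z hd1 hd11 hkb hd0 hd01 hk0 hp1 hz).NP (5 * t + 1) w ↔ ¬ HV h v t (tb.pt t w) := by
  rw [HV_pt h tb v ht, not_le]
  constructor
  · exact fun hh => hh.2
  · exact fun hh => ⟨by show (5 * t + 1) % 5 ≠ 0; omega, hh⟩

/-- light value of the class of the vertex `i` in a code step -/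
theorem ltC_pt {t : ℕ} (ht : t ≤ T) (i : Fin 3) {q : ℕ} (hq : q % 5 ≠ 0) (w : Om W X β) :
    lt5 (USi tb hv d1 kb d0 k0 p1 z hd1 hd11 hkb hd0 hd01 hk0 hp1 hz).toMS
      (CN (USi tb hv d1 kb d0 k0 p1 z hd1 hd11 hkb hd0 hd01 hk0 hp1 hz).toMS i) q w ↔ LVp h v i t q (tb.pt t w) := by
  rw [LVp_pt h tb v ht]
  constructor
  · exact fun hh => hh.2
  · exact fun hh => ⟨hq, hh⟩

/-- what is seen by a sight of the run instance -/
theorem pos_S {ι : Type*} {E : Finset (Fin 3)} {q : ℕ} {B : Om W X β → ι}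
    (hB : Fac ((USi tb hv d1 kb d0 k0 p1 z hd1 hd11 hkb hd0 hd01 hk0 hp1 hz).S E q) B) : Pos B :=
  pos_of (E := E) (n := TP.nn q) hB

variable {Q : Kd (Om W X β)}

theorem bet_sgt (i : Fin 3) (q : ℕ) : Fac (sgt (W := W) D {i} (TP.nn q))
    (bet (USi tb hv d1 kb d0 k0 p1 z hd1 hd11 hkb hd0 hd01 hk0 hp1 hz) Q i q) := fun _ _ e =>
  propext (bet_S (seen_i tb hv hd1 hd11 hkb hd0 hd01 hk0 hp1 hz) i le_rfl e)

theorem Z0_sgt (q : ℕ) : Fac (sgt (W := W) D ∅ (TP.nn q))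
    (Z0 (USi tb hv d1 kb d0 k0 p1 z hd1 hd11 hkb hd0 hd01 hk0 hp1 hz) Q q) := fun _ _ e =>
  propext (Z0_S (seen_i tb hv hd1 hd11 hkb hd0 hd01 hk0 hp1 hz) le_rfl e)

/-- the bit of the public step: the zone or a decided vertex -/
def bitU (M : US (Om W X β)) (Q : Kd (Om W X β)) (q : ℕ) (w : Om W X β) : Prop :=
  Z0 M Q q w ∨ ∃ i ∈ Q.Vk, bet M Q i q w

theorem bitU_pos (q : ℕ) : Pos (bitU (USi tb hv d1 kb d0 k0 p1 z hd1 hd11 hkb hd0 hd01 hk0 hp1 hz) Q q) := by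
  intro a b e
  have h1 := pos_of (Z0_sgt tb v (hv := hv) (hd1 := hd1) (hd11 := hd11) (hkb := hkb) (hd0 := hd0) (hd01 := hd01)
    (hk0 := hk0) (hp1 := hp1) (hz := hz) (Q := Q) q) a b e
  have h2 : ∀ i, bet (USi tb hv d1 kb d0 k0 p1 z hd1 hd11 hkb hd0 hd01 hk0 hp1 hz) Q i q a =
      bet (USi tb hv d1 kb d0 k0 p1 z hd1 hd11 hkb hd0 hd01 hk0 hp1 hz) Q i q b := fun i =>
    pos_of (bet_sgt tb v (hv := hv) (hd1 := hd1) (hd11 := hd11) (hkb := hkb) (hd0 := hd0) (hd01 := hd01)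
      (hk0 := hk0) (hp1 := hp1) (hz := hz) (Q := Q) i q) a b e
  show (_ ∨ _) = (_ ∨ _)
  rw [h1]
  simp only [h2]

end run

end

end Pool.Agent.GMH.TRF
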