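import Pool.Agent.GMH.TopSplit
import Pool.Agent.GMH.Trf

/-!
# GMH/StpT: the released sums of `TopSplit` on the table space (helper11; row A4, T1 and T2)

Bits on the table space: `bO k i q`, `zO k q` (seen by the positions); `sO q` the step of the substep `q`, `aO q` alive,
`rO k q` released relation at the true tuple, `gO K q = max (pq3 q) (-K)`; removals `rpO i q` (light private value of `i`, heavy
public value of the level; all private values of a level are at the substep `5 t + 4`), `ruO q` (light public value); any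
further condition `gM k q`.
* `rlB k q` : the released weight of the kind `k` with `gd = aO, rO k, gM k` (equal to `rels` of `GMH/Unm` for
  `bO = bet`, `zO = Z0`), `thO k q` : released but not `gM`, `ovO k i j q` : two private releases at once;
* `relS_le` : `∑_t ∑_s RelS ≤ ∑_(k ∈ rK) ∑_q E (rlB k q * gO K q) + 3 Lam ∑_(k ∈ rK) ∑_q Pr (thO k q)`
  `+ 3 Lam ∑_(k ∈ rK) ∑_(i < j ∈ vk k) ∑_q Pr (ovO k i j q)`.
-/

set_option autoImplicit false
set_option linter.unusedSectionVars false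

namespace Pool.Agent.GMH.TRF

open Finset Pool.Agent.PWZ Pool.Agent.M3 Pool.Agent.GM Pool.Agent.GM.Harm Pool.Agent.GMH Pool.Agent.GMH.NZ
open Pool.Agent.GMH.V3 Pool.Agent.GMH.TP Pool.Agent.GMH.TD Pool.Agent.GMH.Dy Pool.Agent.GMH.MV Pool.Agent.GMH.MVI
open Pool.Agent.GMH.UV Pool.Agent.GMH.KF

noncomputable section

variable {X β γ φ : Type} [Fintype X] [Fintype β] [Fintype φ] [Nonempty X] [Nonempty β]
variable {D : HD (Fin 3) X β γ φ} {al : ℝ} (h : D.Thick al) {prr : ℕ → Fin 3 → φ → φ} {T : ℕ} {W : Type} [Fintype W]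
variable (tb : Tab D prr T W) (v : ℕ → Finset (Fin 3) → X → (Fin 3 → β) → Pt (Fin 3) X β φ)
variable (c : KC) (B : ℝ) (A : Fin 6 → ℕ → Pt (Fin 3) X β φ → Prop)
  (bO : Fin 10 → Fin 3 → ℕ → Om W X β → Prop) (zO : Fin 10 → ℕ → Om W X β → Prop)
  (gM : Fin 10 → ℕ → Om W X β → Prop)

/-- the step of the substep `q` -/
def sO (q : ℕ) : Fin 6 := if q % 5 = 1 then 1 else if q % 5 = 2 then 3 else if q % 5 = 3 then 4 else if q % 5 = 4 then 5 else 0

theorem sO_1 (t : ℕ) : sO (5 * t + 1) = 1 := by unfold sO; rw [if_pos (by omega)]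

theorem sO_3 (t : ℕ) (i : Fin 3) : sO (5 * t + 2 + i.1) = sp3 i := by
  fin_cases i
  · show sO (5 * t + 2 + 0) = 3
    unfold sO; rw [if_neg (by omega), if_pos (by omega)]
  · show sO (5 * t + 2 + 1) = 4
    unfold sO; rw [if_neg (by omega), if_neg (by omega), if_pos (by omega)]
  · show sO (5 * t + 2 + 2) = 5
    unfold sO; rw [if_neg (by omega), if_neg (by omega), if_neg (by omega), if_pos (by omega)]

/-- alive -/
def aO (q : ℕ) (w : Om W X β) : Prop := A (sO q) (q / 5) (tb.pt (q / 5) w)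

/-- released relation at the true tuple -/
def rO (k : Fin 10) (q : ℕ) (w : Om W X β) : Prop :=
  rel3 h v c B (sO q) (q / 5) k (tb.pt (q / 5) w) (tup (FQ v (q / 5)) (tb.pt (q / 5) w))

/-- the signed test -/
def gO (K : ℝ) (q : ℕ) (w : Om W X β) : ℝ := max (pq3 h v tb q w) (-K)

/-- private removal -/
def rpO (i : Fin 3) (q : ℕ) (w : Om W X β) : Prop := q % 5 = 4 ∧
  2 * tb.Ps.m (fun u => (XLo tb v i (q + 1) u, NPo tb v (q + 1) u)) w <
    tb.Ps.m (fun u => (XLo tb v i q u, NPo tb v q u)) w ∧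
  tb.Ps.m (NPo tb v (5 * (q / 5) + 1)) w ≤ 2 * tb.Ps.m (NPo tb v (5 * (q / 5) + 2)) w

/-- public removal -/
def ruO (q : ℕ) (w : Om W X β) : Prop := q % 5 = 1 ∧ 2 * tb.Ps.m (NPo tb v (q + 1)) w < tb.Ps.m (NPo tb v q) w

/-- good at the removal -/
def gdO (k : Fin 10) (q : ℕ) (w : Om W X β) : Prop := aO tb A q w ∧ rO h tb v c B k q w ∧ gM k q w

/-- the bit of the substep -/
def btO (k : Fin 10) (q : ℕ) (w : Om W X β) : Prop :=
  (∃ i ∈ vk k, rpO tb v i q w ∧ bO k i q w) ∨ (ruO tb v q w ∧ (zO k q w ∨ ∃ i ∈ vk k, bO k i q w))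

/-- released weight of the kind `k` -/
def rlB (k : Fin 10) (q : ℕ) (w : Om W X β) : ℝ :=
  ∑ i ∈ vk k, ind (gdO h tb v c B A gM k q w ∧ rpO tb v i q w ∧ bO k i q w) +
    ind (gdO h tb v c B A gM k q w ∧ ruO tb v q w ∧ (zO k q w ∨ ∃ i ∈ vk k, bO k i q w))

/-- released, not good -/
def thO (k : Fin 10) (q : ℕ) (w : Om W X β) : Prop :=
  aO tb A q w ∧ rO h tb v c B k q w ∧ ¬ gM k q w ∧ btO tb v bO zO k q w

/-- two private releases at once -/
def ovO (k : Fin 10) (i j : Fin 3) (q : ℕ) (w : Om W X β) : Prop :=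
  gdO h tb v c B A gM k q w ∧ (rpO tb v i q w ∧ bO k i q w) ∧ (rpO tb v j q w ∧ bO k j q w)

/-- two private releases at once, all pairs -/
def ovS (k : Fin 10) (q : ℕ) (w : Om W X β) : ℝ :=
  ∑ i ∈ vk k, ∑ j ∈ vk k, if i < j then ind (ovO h tb v c B A bO gM k i j q w) else 0

variable {h tb v c B A bO zO gM}

/-- a number of events minus one is at most the number of pairs -/
theorem pairs_le {e : Fin 3 → Prop} (S : Finset (Fin 3)) (h1 : ∃ i ∈ S, e i) :
    ∑ i ∈ S, ind (e i) ≤ 1 + ∑ i ∈ S, ∑ j ∈ S, if i < j then ind (e i ∧ e j) else 0 := by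
  classical
  obtain ⟨i0, hi0, he0⟩ := h1
  have h0 : ∀ i ∈ S, 0 ≤ ∑ j ∈ S, if i < j then ind (e i ∧ e j) else 0 := fun i _ => Finset.sum_nonneg fun j _ => by
    split_ifs
    · exact ind_nonneg _
    · exact le_rfl
  rw [← Finset.add_sum_erase S (fun i => ind (e i)) hi0, ind_of he0]
  refine add_le_add le_rfl ?_
  -- the pairs with `i0`
  have h2 : ∀ j ∈ S.erase i0, ind (e j) ≤
      (if i0 < j then ind (e i0 ∧ e j) else 0) + (if j < i0 then ind (e j ∧ e i0) else 0) := by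
    intro j hj
    have hne := Finset.ne_of_mem_erase hj
    rcases lt_or_gt_of_ne hne with h3 | h3
    · rw [if_neg (not_lt.2 h3.le), if_pos h3, zero_add]
      refine le_of_eq (congrArg ind (propext ⟨fun hh => ⟨hh, he0⟩, fun hh => hh.1⟩))
    · rw [if_pos h3, if_neg (not_lt.2 h3.le), add_zero]
      refine le_of_eq (congrArg ind (propext ⟨fun hh => ⟨he0, hh⟩, fun hh => hh.2⟩))
  refine (Finset.sum_le_sum h2).trans ?_
  rw [Finset.sum_add_distrib]
  rw [← Finset.add_sum_erase S (fun i => ∑ j ∈ S, if i < j then ind (e i ∧ e j) else 0) hi0]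
  refine add_le_add ?_ ?_
  · refine Finset.sum_le_sum_of_subset_of_nonneg (Finset.erase_subset _ _) fun j _ _ => ?_
    split_ifs
    · exact ind_nonneg _
    · exact le_rfl
  · refine Finset.sum_le_sum fun j _ => ?_
    refine Finset.single_le_sum (f := fun l => if j < l then ind (e j ∧ e l) else 0) (fun l _ => ?_) hi0
    split_ifs
    · exact ind_nonneg _
    · exact le_rfl

/-- one kind, one substep -/
theorem rlB_eq (k : Fin 10) (q : ℕ) (w : Om W X β) : ∃ y : ℝ, 0 ≤ y ∧ y ≤ ovS h tb v c B A bO gM k q w ∧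
    ind (aO tb A q w ∧ rO h tb v c B k q w ∧ btO tb v bO zO k q w) =
      rlB h tb v c B A bO zO gM k q w + ind (thO h tb v c B A bO zO gM k q w) - y := by
  classical
  have hx : ∀ i, rpO tb v i q w → ¬ ruO tb v q w := fun i h1 h2 => by
    have := h1.1
    have := h2.1
    omega
  have ov0 : 0 ≤ ovS h tb v c B A bO gM k q w := Finset.sum_nonneg fun i _ => Finset.sum_nonneg fun j _ => by
    split_ifs
    · exact ind_nonneg _
    · exact le_rfl
  -- the released weight is the indicator of `gd` and bit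
  have e1 : ∃ y : ℝ, 0 ≤ y ∧ y ≤ ovS h tb v c B A bO gM k q w ∧
      ind (gdO h tb v c B A gM k q w ∧ btO tb v bO zO k q w) = rlB h tb v c B A bO zO gM k q w - y := by
    unfold rlB
    by_cases h1 : ∃ i ∈ vk k, rpO tb v i q w ∧ bO k i q w
    · have hru : ¬ ruO tb v q w := by
        obtain ⟨i, _, h2, _⟩ := h1
        exact hx i h2
      rw [ind_not (fun hh : gdO h tb v c B A gM k q w ∧ ruO tb v q w ∧ _ => hru hh.2.1), add_zero]
      by_cases hg : gdO h tb v c B A gM k q w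
      · have e2 : ∀ i, ind (gdO h tb v c B A gM k q w ∧ rpO tb v i q w ∧ bO k i q w) =
            ind (rpO tb v i q w ∧ bO k i q w) := fun i => congrArg ind (propext ⟨fun hh => hh.2, fun hh => ⟨hg, hh⟩⟩)
        have e3 : ovS h tb v c B A bO gM k q w = ∑ i ∈ vk k, ∑ j ∈ vk k, if i < j then
            ind ((rpO tb v i q w ∧ bO k i q w) ∧ (rpO tb v j q w ∧ bO k j q w)) else 0 := by
          unfold ovS ovO
          refine Finset.sum_congr rfl fun i _ => Finset.sum_congr rfl fun j _ => ?_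
          split_ifs
          · exact congrArg ind (propext ⟨fun hh => hh.2, fun hh => ⟨hg, hh⟩⟩)
          · rfl
        refine ⟨∑ i ∈ vk k, ind (rpO tb v i q w ∧ bO k i q w) - 1, ?_, ?_, ?_⟩
        · obtain ⟨i, hi, h2⟩ := h1
          have := Finset.single_le_sum (f := fun i => ind (rpO tb v i q w ∧ bO k i q w)) (fun _ _ => ind_nonneg _) hi
          have e : ind (rpO tb v i q w ∧ bO k i q w) = 1 := ind_of h2
          simp only [e] at this
          linarith
        · rw [e3]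
          have := pairs_le (vk k) h1
          linarith
        · rw [ind_of ⟨hg, Or.inl h1⟩, Finset.sum_congr rfl fun i _ => e2 i]
          ring
      · refine ⟨0, le_rfl, ov0, ?_⟩
        rw [ind_not (fun hh => hg hh.1), Finset.sum_eq_zero fun i _ => ind_not fun hh => hg hh.1, sub_zero]
    · refine ⟨0, le_rfl, ov0, ?_⟩
      rw [Finset.sum_eq_zero fun i hi => ind_not fun hh => h1 ⟨i, hi, hh.2⟩, zero_add, sub_zero]
      congr 1
      refine propext ⟨fun hh => ⟨hh.1, ?_⟩, fun hh => ⟨hh.1, Or.inr hh.2⟩⟩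
      rcases hh.2 with h2 | h2
      · exact absurd h2 h1
      · exact h2
  obtain ⟨y, hy0, hy1, e1⟩ := e1
  refine ⟨y, hy0, hy1, ?_⟩
  have e4 : ind (aO tb A q w ∧ rO h tb v c B k q w ∧ btO tb v bO zO k q w) =
      ind (gdO h tb v c B A gM k q w ∧ btO tb v bO zO k q w) + ind (thO h tb v c B A bO zO gM k q w) := by
    unfold gdO thO
    by_cases g : gM k q w
    · rw [ind_not (fun hh : aO tb A q w ∧ rO h tb v c B k q w ∧ ¬ gM k q w ∧ _ => hh.2.2.1 g), add_zero]
      congr 1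
      exact propext ⟨fun hh => ⟨⟨hh.1, hh.2.1, g⟩, hh.2.2⟩, fun hh => ⟨hh.1.1, hh.1.2.1, hh.2⟩⟩
    · rw [ind_not (fun hh : (aO tb A q w ∧ rO h tb v c B k q w ∧ gM k q w) ∧ _ => g hh.1.2.2), zero_add]
      congr 1
      exact propext ⟨fun hh => ⟨hh.1, hh.2.1, g, hh.2.2⟩, fun hh => ⟨hh.1, hh.2.1, hh.2.2.2⟩⟩
  rw [e4, e1]
  ring

variable (h tb v c B A bO zO gM) in
/-- the mean of the released weight times the test, substep `q` -/
def rsO (K : ℝ) (q : ℕ) : ℝ := tb.Ps.E (fun w =>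
  (∑ k ∈ rK, ind (aO tb A q w ∧ rO h tb v c B k q w ∧ btO tb v bO zO k q w)) * gO h tb v K q w)

/-- sums over the kinds -/
theorem sum_rK {f : Fin 10 → ℝ} (hf : ∀ k ∉ rK, f k = 0) : ∑ k, f k = ∑ k ∈ rK, f k :=
  (Finset.sum_subset (Finset.subset_univ rK) fun k _ hk => hf k hk).symm

theorem HV_q {t : ℕ} (ht : t ≤ T) (w : Om W X β) : HV h v t (tb.pt t w) ↔
    tb.Ps.m (NPo tb v (5 * t + 1)) w ≤ 2 * tb.Ps.m (NPo tb v (5 * t + 2)) w := HV_pt h tb v ht w

/-- the joint step -/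
theorem relS_1 (hb : ∀ k i q, Pos (bO k i q)) (hz : ∀ k q, Pos (zO k q)) {t : ℕ} (ht : t ≤ T)
    (hA : ∀ u, A 1 t u → ¬ HV h v t u) (K : ℝ) :
    RelS h v c B (fun k i q => lft (bO k i q)) (fun k q => lft (zO k q)) A K 1 t =
      rsO h tb v c B A bO zO K (5 * t + 1) := by
  classical
  unfold RelS rsO
  rw [← (pul_pt h tb ht).E]
  refine tb.Ps.E_congr fun w _ => ?_
  have hd : (5 * t + 1) / 5 = t := by omega
  have e0 : aO tb A (5 * t + 1) w = A 1 t (tb.pt t w) := by unfold aO; rw [hd, sO_1]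
  have e1 : ∀ k, rO h tb v c B k (5 * t + 1) w = rel3 h v c B 1 t k (tb.pt t w) (tup (FQ v t) (tb.pt t w)) := fun k => by
    unfold rO; rw [hd, sO_1]
  have e2 : psS h v 1 t (tb.pt t w) = pq3 h v tb (5 * t + 1) w := pq3_eq h tb v 1 t w
  rw [← mul_assoc, e2]
  show _ = _ * max (pq3 h v tb (5 * t + 1) w) (-K)
  congr 1
  unfold rw3
  rw [sum_rK (f := fun k => ind (rel3 h v c B 1 t k (tb.pt t w) (tup (FQ v t) (tb.pt t w))) *
    ind (bit3 h v (fun k i q => lft (bO k i q)) (fun k q => lft (zO k q)) 1 t k (tb.pt t w)))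
    (fun k hk => by rw [ind_not fun hh => hk hh.1, zero_mul]), Finset.mul_sum]
  refine Finset.sum_congr rfl fun k hk => ?_
  rw [e0, e1]
  by_cases hA1 : A 1 t (tb.pt t w)
  · have hru : ruO tb v (5 * t + 1) w := by
      refine ⟨by omega, ?_⟩
      have := hA _ hA1
      rw [HV_q ht w, not_le] at this
      exact this
    have e3 : bit3 h v (fun k i q => lft (bO k i q)) (fun k q => lft (zO k q)) 1 t k (tb.pt t w) ↔
        btO tb v bO zO k (5 * t + 1) w := by
      unfold bit3 btO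
      simp only [lft_pt (hz k (5 * t + 1)) t w, lft_pt (hb k _ _) t w]
      constructor
      · rintro ⟨_, hh | ⟨hh, _⟩⟩
        · exact Or.inr ⟨hru, hh.2⟩
        · exact absurd hh (by decide)
      · rintro (⟨i, _, hh, _⟩ | ⟨_, hh⟩)
        · exfalso
          have := hh.1
          omega
        · exact ⟨hk, Or.inl ⟨trivial, hh⟩⟩
    rw [ind_of hA1, one_mul, ← ind_and]
    congr 1
    exact propext ⟨fun hh => ⟨hA1, hh.1, e3.1 hh.2⟩, fun hh => ⟨hh.2.1, e3.2 hh.2.2⟩⟩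
  · rw [ind_not hA1, zero_mul, ind_not fun hh => hA1 hh.1]

/-- the joint private step -/
theorem relS_5 (hb : ∀ k i q, Pos (bO k i q)) (hz : ∀ k q, Pos (zO k q)) {t : ℕ} (ht : t ≤ T)
    (hA : ∀ u, A 5 t u → HV h v t u) (K : ℝ) :
    RelS h v c B (fun k i q => lft (bO k i q)) (fun k q => lft (zO k q)) A K 5 t =
      rsO h tb v c B A bO zO K (5 * t + 4) := by
  classical
  unfold RelS rsO
  rw [← (pul_pt h tb ht).E]
  refine tb.Ps.E_congr fun w _ => ?_
  have hd : (5 * t + 4) / 5 = t := by omega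
  have es : sO (5 * t + 4) = 5 := sO_3 t 2
  have e0 : aO tb A (5 * t + 4) w = A 5 t (tb.pt t w) := by unfold aO; rw [hd, es]
  have e1 : ∀ k, rO h tb v c B k (5 * t + 4) w =
      rel3 h v c B 5 t k (tb.pt t w) (tup (FQ v t) (tb.pt t w)) := fun k => by
    unfold rO; rw [hd, es]
  have e2 : psS h v 5 t (tb.pt t w) = pq3 h v tb (5 * t + 4) w := pq3_eq h tb v 5 t w
  rw [← mul_assoc, e2]
  show _ = _ * max (pq3 h v tb (5 * t + 4) w) (-K)
  congr 1
  unfold rw3
  rw [sum_rK (f := fun k => ind (rel3 h v c B 5 t k (tb.pt t w) (tup (FQ v t) (tb.pt t w))) *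
    ind (bit3 h v (fun k i q => lft (bO k i q)) (fun k q => lft (zO k q)) 5 t k (tb.pt t w)))
    (fun k hk => by rw [ind_not fun hh => hk hh.1, zero_mul]), Finset.mul_sum]
  refine Finset.sum_congr rfl fun k hk => ?_
  rw [e0, e1]
  by_cases hA1 : A 5 t (tb.pt t w)
  · have hHV : tb.Ps.m (NPo tb v (5 * t + 1)) w ≤ 2 * tb.Ps.m (NPo tb v (5 * t + 2)) w := (HV_q ht w).1 (hA _ hA1)
    have eL : ∀ i, lpv h v i t (tb.pt t w) ↔ 2 * tb.Ps.m (fun u => (XLo tb v i (5 * t + 4 + 1) u,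
        NPo tb v (5 * t + 4 + 1) u)) w < tb.Ps.m (fun u => (XLo tb v i (5 * t + 4) u,
        NPo tb v (5 * t + 4) u)) w := fun i => LVp_pt h tb v ht i (5 * t + 4) w
    have e3 : bit3 h v (fun k i q => lft (bO k i q)) (fun k q => lft (zO k q)) 5 t k (tb.pt t w) ↔
        btO tb v bO zO k (5 * t + 4) w := by
      unfold bit3 btO
      simp only [lft_pt (hz k _) t w, lft_pt (hb k _ _) t w]
      constructor
      · rintro ⟨_, hh | ⟨_, j, hj, hbt, hl⟩⟩
        · exact absurd hh.1 (by decide)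
        · refine Or.inl ⟨j, hj, ⟨by omega, (eL j).1 hl, ?_⟩, hbt⟩
          rw [hd]
          exact hHV
      · rintro (⟨j, hj, hh, hbt⟩ | ⟨hh, _⟩)
        · exact ⟨hk, Or.inr ⟨trivial, j, hj, hbt, (eL j).2 hh.2.1⟩⟩
        · exfalso
          have := hh.1
          omega
    rw [ind_of hA1, one_mul, ← ind_and]
    congr 1
    exact propext ⟨fun hh => ⟨hA1, hh.1, e3.1 hh.2⟩, fun hh => ⟨hh.2.1, e3.2 hh.2.2⟩⟩
  · rw [ind_not hA1, zero_mul, ind_not fun hh => hA1 hh.1]

/-- nothing is released at the digit, at a heavy public value, at the two trivial steps -/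
theorem relS_0 (bt : Fin 10 → Fin 3 → ℕ → Pt (Fin 3) X β φ → Prop) (bz : Fin 10 → ℕ → Pt (Fin 3) X β φ → Prop) (t : ℕ)
    (K : ℝ) {s : Fin 6} (hs : s ≠ 1) (hs' : s ≠ 5) : RelS h v c B bt bz A K s t = 0 := by
  classical
  have h1 : ∀ k u, ¬ bit3 h v bt bz s t k u := by
    rintro k u ⟨_, hh | ⟨hh, _⟩⟩
    · exact hs hh.1
    · exact hs' hh
  unfold RelS
  have e : ∀ w, rw3 h v c B bt bz s t w = 0 := fun w =>
    Finset.sum_eq_zero fun k _ => by rw [ind_not (h1 k w), mul_zero]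
  simp only [e, zero_mul, mul_zero]
  unfold FP.E
  simp

theorem rsO_0 (K : ℝ) {q : ℕ} (h1 : q % 5 ≠ 1) (h4 : q % 5 ≠ 4) : rsO h tb v c B A bO zO K q = 0 := by
  classical
  unfold rsO
  have e : ∀ k w, ¬ btO tb v bO zO k q w := by
    rintro k w (⟨i, _, hh, _⟩ | ⟨hh, _⟩)
    · exact h4 hh.1
    · exact h1 hh.1
  have e1 : ∀ w, ∑ k ∈ rK, ind (aO tb A q w ∧ rO h tb v c B k q w ∧ btO tb v bO zO k q w) = 0 := fun w =>
    Finset.sum_eq_zero fun k _ => ind_not fun hh => e k w hh.2.2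
  simp only [e1, zero_mul]
  unfold FP.E
  simp

/-- **T1** : the released sums on the table space -/
theorem relS_tr (hb : ∀ k i q, Pos (bO k i q)) (hz : ∀ k q, Pos (zO k q))
    (hA1 : ∀ t < T, ∀ u, A 1 t u → ¬ HV h v t u) (hA5 : ∀ t < T, ∀ u, A 5 t u → HV h v t u) (K : ℝ) :
    ∑ t ∈ range T, ∑ s, RelS h v c B (fun k i q => lft (bO k i q)) (fun k q => lft (zO k q)) A K s t =
      ∑ q ∈ range (5 * T), rsO h tb v c B A bO zO K q := by
  rw [sum_five]
  refine Finset.sum_congr rfl fun t ht => ?_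
  have ht' := Finset.mem_range.1 ht
  have z := fun (s : Fin 6) (hs : s ≠ 1) (hs' : s ≠ 5) => relS_0 (h := h) (v := v) (c := c) (B := B) (A := A)
    (fun k i q => lft (bO k i q)) (fun k q => lft (zO k q)) t K hs hs'
  have k1 := relS_1 (h := h) (tb := tb) (c := c) (B := B) (A := A) hb hz ht'.le (hA1 t ht') K
  have k2 := relS_5 (h := h) (tb := tb) (c := c) (B := B) (A := A) hb hz ht'.le (hA5 t ht') K
  have y0 := rsO_0 (h := h) (tb := tb) (v := v) (c := c) (B := B) (A := A) (bO := bO) (zO := zO) K (q := 5 * t)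
    (by omega) (by omega)
  have y2 := rsO_0 (h := h) (tb := tb) (v := v) (c := c) (B := B) (A := A) (bO := bO) (zO := zO) K (q := 5 * t + 2)
    (by omega) (by omega)
  have y3 := rsO_0 (h := h) (tb := tb) (v := v) (c := c) (B := B) (A := A) (bO := bO) (zO := zO) K (q := 5 * t + 3)
    (by omega) (by omega)
  rw [Fin.sum_univ_six, z 0 (by decide) (by decide), z 2 (by decide) (by decide), z 3 (by decide) (by decide),
    z 4 (by decide) (by decide), k1, k2, y0, y2, y3]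
  ring

/-- **T2** : the released sums by kinds -/
theorem rsO_le {K L : ℝ} (hK : K ≤ L) (hL : 0 ≤ L) {q : ℕ} (hg : ∀ w, tb.Ps.p w ≠ 0 → gO h tb v K q w ≤ L) :
    rsO h tb v c B A bO zO K q ≤ ∑ k ∈ rK, tb.Ps.E (fun w => rlB h tb v c B A bO zO gM k q w * gO h tb v K q w) +
      L * ∑ k ∈ rK, tb.Ps.Pr (thO h tb v c B A bO zO gM k q) +
      L * ∑ k ∈ rK, ∑ i ∈ vk k, ∑ j ∈ vk k, if i < j then tb.Ps.Pr (ovO h tb v c B A bO gM k i j q) else 0 := by
  classical
  have e2 : ∀ k, (∑ i ∈ vk k, ∑ j ∈ vk k, if i < j then tb.Ps.Pr (ovO h tb v c B A bO gM k i j q) else 0) =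
      tb.Ps.E (fun w => ovS h tb v c B A bO gM k q w) := fun k => by
    unfold ovS
    rw [FP.E_sum]
    refine Finset.sum_congr rfl fun i _ => ?_
    rw [FP.E_sum]
    refine Finset.sum_congr rfl fun j _ => ?_
    split_ifs
    · rfl
    · unfold FP.E
      simp
  rw [Finset.sum_congr rfl fun k _ => e2 k]
  unfold rsO FP.Pr
  rw [Finset.mul_sum, Finset.mul_sum, ← Finset.sum_add_distrib, ← Finset.sum_add_distrib]
  have e1 : ∀ k, tb.Ps.E (fun w => rlB h tb v c B A bO zO gM k q w * gO h tb v K q w) +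
      L * tb.Ps.E (fun w => ind (thO h tb v c B A bO zO gM k q w)) +
      L * tb.Ps.E (fun w => ovS h tb v c B A bO gM k q w) =
      tb.Ps.E (fun w => rlB h tb v c B A bO zO gM k q w * gO h tb v K q w +
        L * ind (thO h tb v c B A bO zO gM k q w) + L * ovS h tb v c B A bO gM k q w) := fun k => by
    rw [tb.Ps.E_add, tb.Ps.E_smul, tb.Ps.E_add, tb.Ps.E_smul]
  rw [Finset.sum_congr rfl fun k _ => e1 k, ← FP.E_sum]
  refine tb.Ps.E_mono fun w hw => ?_
  rw [Finset.sum_mul]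
  refine Finset.sum_le_sum fun k _ => ?_
  obtain ⟨y, hy0, hy1, e⟩ := rlB_eq (h := h) (tb := tb) (v := v) (c := c) (B := B) (A := A) (bO := bO) (zO := zO)
    (gM := gM) k q w
  rw [e, sub_mul, add_mul]
  have h1 := mul_le_mul_of_nonneg_left (hg w hw) (ind_nonneg (thO h tb v c B A bO zO gM k q w))
  have h2 : -L ≤ gO h tb v K q w := (neg_le_neg hK).trans (le_max_right _ _)
  have h3 : -(y * gO h tb v K q w) ≤ L * ovS h tb v c B A bO gM k q w := by
    have h4 : -(y * gO h tb v K q w) ≤ y * L := by nlinarith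
    have h5 : y * L ≤ ovS h tb v c B A bO gM k q w * L := mul_le_mul_of_nonneg_right hy1 hL
    linarith
  linarith

/-- **A4** : the released sums of `TopSplit` -/
theorem relS_le {dg : ℕ → X → ℝ} {Lam : ℝ} (H : D.Hyp dg prr al T Lam) {N : Finset (Fin 3) → ℝ}
    (R : Run h N (SS1 (Fin 3)) (AdmDep D) v) (hN : ∀ l : Fin 3, 0 < N (univ.erase l))
    (hb : ∀ k i q, Pos (bO k i q)) (hz : ∀ k q, Pos (zO k q))
    (hA1 : ∀ t < T, ∀ u, A 1 t u → ¬ HV h v t u) (hA5 : ∀ t < T, ∀ u, A 5 t u → HV h v t u) {K : ℝ} (hK : 0 ≤ K)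
    (hK3 : K ≤ 3 * Lam) :
    ∑ t ∈ range T, ∑ s, RelS h v c B (fun k i q => lft (bO k i q)) (fun k q => lft (zO k q)) A K s t ≤
      ∑ k ∈ rK, ∑ q ∈ range (5 * T), tb.Ps.E (fun w => rlB h tb v c B A bO zO gM k q w * gO h tb v K q w) +
        3 * Lam * ∑ k ∈ rK, ∑ q ∈ range (5 * T), tb.Ps.Pr (thO h tb v c B A bO zO gM k q) +
        3 * Lam * ∑ k ∈ rK, ∑ q ∈ range (5 * T), ∑ i ∈ vk k, ∑ j ∈ vk k,
          if i < j then tb.Ps.Pr (ovO h tb v c B A bO gM k i j q) else 0 := by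
  rw [relS_tr hb hz hA1 hA5 K]
  have h1 : ∀ q ∈ range (5 * T), rsO h tb v c B A bO zO K q ≤
      ∑ k ∈ rK, tb.Ps.E (fun w => rlB h tb v c B A bO zO gM k q w * gO h tb v K q w) +
        3 * Lam * ∑ k ∈ rK, tb.Ps.Pr (thO h tb v c B A bO zO gM k q) +
        3 * Lam * ∑ k ∈ rK, ∑ i ∈ vk k, ∑ j ∈ vk k,
          if i < j then tb.Ps.Pr (ovO h tb v c B A bO gM k i j q) else 0 := by
    intro q hq
    have hq' := Finset.mem_range.1 hq
    refine rsO_le hK3 (hK.trans hK3) fun w hw => ?_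
    have ht : q / 5 ≤ T := by omega
    have hp : (D.P h (q / 5)).p (tb.pt (q / 5) w) ≠ 0 := (pul_pt h tb ht).ne hw
    have h2 := psi_le H R hN ht (show 5 * (q / 5) ≤ q by omega) hp
    exact max_le h2 (by linarith [H.Lam1])
  refine (Finset.sum_le_sum h1).trans (le_of_eq ?_)
  rw [Finset.sum_add_distrib, Finset.sum_add_distrib, ← Finset.mul_sum, ← Finset.mul_sum, Finset.sum_comm,
    Finset.sum_comm (s := range (5 * T)) (t := rK) (f := fun q k => tb.Ps.Pr (thO h tb v c B A bO zO gM k q)),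
    Finset.sum_comm (s := range (5 * T)) (t := rK) (f := fun q k => ∑ i ∈ vk k, ∑ j ∈ vk k,
      if i < j then tb.Ps.Pr (ovO h tb v c B A bO gM k i j q) else 0)]

end

end Pool.Agent.GMH.TRF
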