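import Pool.Agent.GMH.UVdef

/-!
# GMH/Unm (helper60): THE SIGNED SUM OF ONE KIND OVER ALL REMOVALS (H3.UNM, U.3, U.8)

`rp v q` = private removal of `v` in the step `q`, `ru q` = public removal, `gd q` = the tuple is good at `q` (in the current
relation, alive, not moved, not listed, not near a threshold), `g q` = current value of the test.
RELEASED: `rp v q`, `gd q`, `bet v q` (`v ∈ Vk`); `ru q`, `gd q`, (`Z0 q` or some `v ∈ Vk` decided).
* `signed` : the released sum is at most the sum over the decided lives of the vertices (`dcv`), the sum over the zones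
  (`dc0`), `Kc` times the decided lives / zones which are not released at their end, and `δ` times the releases;
* `bad_end` : a decided life which is not released at its end: no end, an end which is not a removal, not good at the
  removal, or a partner was first (`prt`);
* `prt_cases` : the partner was decided before `T^v` : at `T^v` (both lives of the public start), or at the next public start.
-/

set_option autoImplicit false
set_option linter.unusedSectionVars false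

namespace Pool.Agent.GMH.UV

open Finset Pool.Agent.PWZ Pool.Agent.M3 Pool.Agent.GMH.TD Pool.Agent.GMH.CK Pool.Agent.GMH.MV Pool.Agent.GMH.UnmL

noncomputable section

variable {Om : Type} [Fintype Om] (M : US Om) (Q : Kd Om)

/-- the life `τ` of `v` is in the relation and decided before the final time `T` -/
def dcv (T : ℕ) (v : Fin 3) (τ : ℕ) (w : Om) : Prop := Q.kd (some v) τ w ∧ ∃ s < T, tv M v s w = τ ∧ tkx M Q v s w

/-- `v` is undecided at `s`, its life is not younger than `n`, the tuple is in the relation of the zones -/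
def und (v : Fin 3) (s n : ℕ) (w : Om) : Prop :=
  ¬ bet M Q v s w ∧ ¬ M.ex v s w ∧ tv M v s w ≤ n ∧ Q.kz v (tv M v s w) w

/-- the zone of the public epoch `n` : in the relation, all vertices of the kind undecided at `T^0` -/
def dc0 (T : ℕ) (n : ℕ) (w : Om) : Prop :=
  Q.kd none n w ∧ ∃ s < T, nu M.toMS s w = n ∧ zt M Q s w ∧ ∀ v ∈ Q.Vk, und M Q v s n w

/-- the steps -/
structure Stps where
  rp : Fin 3 → ℕ → Om → Prop
  ru : ℕ → Om → Prop
  gd : ℕ → Om → Prop
  g : ℕ → Om → ℝ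

variable (A : Stps (Om := Om))

/-- the removals end the lives and the public epochs -/
structure StpC : Prop where
  endp : ∀ w, M.P.p w ≠ 0 → ∀ v q, A.rp v q w → tv M v (q + 1) w = q + 1
  endu : ∀ w, M.P.p w ≠ 0 → ∀ v q, A.ru q w → tv M v (q + 1) w = q + 1
  end0 : ∀ w, M.P.p w ≠ 0 → ∀ q, A.ru q w → nu M.toMS (q + 1) w = q + 1
  disj : ∀ w, M.P.p w ≠ 0 → ∀ v q, A.rp v q w → ¬ A.ru q w

/-- what is assumed about the removals and the good tuples -/
structure StpOK (δ : ℝ) : Prop extends StpC M A where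
  gdv : ∀ w, M.P.p w ≠ 0 → ∀ v ∈ Q.Vk, ∀ q, A.gd q w → (A.rp v q w ∨ A.ru q w) → (bet M Q v q w ∨ Z0 M Q q w) →
    Q.kd (some v) (tv M v q w) w
  gdp : ∀ w, M.P.p w ≠ 0 → ∀ v ∈ Q.Vk, ∀ q, A.gd q w → (A.rp v q w ∨ A.ru q w) → bet M Q v q w →
    A.g q w ≤ Q.psi (some v) (tv M v q w) w + δ
  gd0 : ∀ w, M.P.p w ≠ 0 → ∀ q, A.gd q w → A.ru q w → Z0 M Q q w → Q.kd none (nu M.toMS q w) w
  gdp0 : ∀ w, M.P.p w ≠ 0 → ∀ q, A.gd q w → A.ru q w → Z0 M Q q w → A.g q w ≤ Q.psi none (nu M.toMS q w) w + δ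
  gda : ∀ w, M.P.p w ≠ 0 → ∀ q, A.gd q w → ((∃ v, A.rp v q w) ∨ A.ru q w) → Q.al q w
  exz : ∀ w, M.P.p w ≠ 0 → ∀ v ∈ Q.Vk, ∀ q s, A.gd q w → A.ru q w → nu M.toMS q w ≤ s → s ≤ q → zt M Q s w → ¬ M.ex v s w
  lst : ∀ w, M.P.p w ≠ 0 → ∀ v ∈ Q.Vk, ∀ q, A.gd q w → A.ru q w → tv M v q w ≤ nu M.toMS q w

/-- released by `v` -/
def relv (v : Fin 3) (q : ℕ) (w : Om) : Prop :=
  A.gd q w ∧ ((A.rp v q w ∧ bet M Q v q w) ∨ (A.ru q w ∧ frs M Q v q w))

/-- released by the zone -/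
def rel0 (q : ℕ) (w : Om) : Prop := A.gd q w ∧ A.ru q w ∧ Z0 M Q q w ∧ ∀ v ∈ Q.Vk, ¬ bet M Q v q w

/-- released at the public removal -/
def relu (q : ℕ) (w : Om) : Prop := A.gd q w ∧ A.ru q w ∧ (Z0 M Q q w ∨ ∃ v ∈ Q.Vk, bet M Q v q w)

/-- released at the private removal of `v` -/
def relp (v : Fin 3) (q : ℕ) (w : Om) : Prop := A.gd q w ∧ A.rp v q w ∧ bet M Q v q w

/-- all releases in the step `q` -/
def rels (q : ℕ) (w : Om) : ℝ := ∑ v ∈ Q.Vk, ind (relp M Q A v q w) + ind (relu M Q A q w)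

variable {M Q A} {δ : ℝ}

/-- a good tuple is alive at the public start -/
theorem StpOK.gal (H : StpOK M Q A δ) {w : Om} (hw : M.P.p w ≠ 0) {q : ℕ} (hg : A.gd q w) (hu : A.ru q w) :
    Q.al (nu M.toMS q w) w := al_mono (stg_le _ _) (H.gda w hw q hg (Or.inr hu))

theorem rels_eq (H : StpOK M Q A δ) {w : Om} (hw : M.P.p w ≠ 0) (q : ℕ) :
    rels M Q A q w = ∑ v ∈ Q.Vk, ind (relv M Q A v q w) + ind (rel0 M Q A q w) := by
  classical
  unfold rels
  have e1 : ∀ v, ind (relv M Q A v q w) = ind (relp M Q A v q w) + ind (A.gd q w ∧ A.ru q w ∧ frs M Q v q w) := by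
    intro v
    by_cases h1 : relp M Q A v q w
    · have h2 : ¬ (A.gd q w ∧ A.ru q w ∧ frs M Q v q w) := fun h => H.disj w hw v q h1.2.1 h.2.1
      rw [ind_of h1, ind_not h2, ind_of (show relv M Q A v q w from ⟨h1.1, Or.inl h1.2⟩), add_zero]
    · rw [ind_not h1, zero_add]
      congr 1
      refine propext ⟨fun h => ?_, fun h => ⟨h.1, Or.inr h.2⟩⟩
      rcases h.2 with h3 | h3
      · exact absurd ⟨h.1, h3⟩ h1
      · exact ⟨h.1, h3⟩
  rw [Finset.sum_congr rfl fun v _ => e1 v, Finset.sum_add_distrib, add_assoc]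
  congr 1
  -- the public part
  by_cases h0 : A.gd q w ∧ A.ru q w
  · by_cases h1 : ∃ v ∈ Q.Vk, bet M Q v q w
    · obtain ⟨v, hv, hf⟩ := frs_ex h1
      have h2 : ∑ v ∈ Q.Vk, ind (A.gd q w ∧ A.ru q w ∧ frs M Q v q w) = 1 := by
        rw [Finset.sum_eq_single v]
        · exact ind_of ⟨h0.1, h0.2, hf⟩
        · intro v' hv' hne
          exact ind_not fun h => hne (frs_one hv' hv h.2.2 hf)
        · exact fun h => absurd hv h
      have h3 : ¬ rel0 M Q A q w := fun h => by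
        obtain ⟨v, hv, hb⟩ := h1
        exact h.2.2.2 v hv hb
      rw [h2, ind_not h3, add_zero]
      exact ind_of ⟨h0.1, h0.2, Or.inr h1⟩
    · have h2 : ∑ v ∈ Q.Vk, ind (A.gd q w ∧ A.ru q w ∧ frs M Q v q w) = 0 :=
        Finset.sum_eq_zero fun v hv => ind_not fun h => h1 ⟨v, hv, h.2.2.1⟩
      rw [h2, zero_add]
      congr 1
      refine propext ⟨fun h => ⟨h.1, h.2.1, ?_, fun v hv hb => h1 ⟨v, hv, hb⟩⟩, fun h => ⟨h.1, h.2.1, Or.inl h.2.2.1⟩⟩
      rcases h.2.2 with h3 | h3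
      · exact h3
      · exact absurd h3 h1
  · have h2 : ∑ v ∈ Q.Vk, ind (A.gd q w ∧ A.ru q w ∧ frs M Q v q w) = 0 :=
      Finset.sum_eq_zero fun v _ => ind_not fun h => h0 ⟨h.1, h.2.1⟩
    rw [h2, zero_add, ind_not (fun h => h0 ⟨h.1, h.2.1⟩ : ¬ relu M Q A q w),
      ind_not (fun h => h0 ⟨h.1, h.2.1⟩ : ¬ rel0 M Q A q w)]

/-- **THE SIGNED SUM OF ONE KIND** -/
theorem signed (H : StpOK M Q A δ) (T : ℕ) {Kc : ℝ}
    (hK : ∀ w, M.P.p w ≠ 0 → ∀ o τ, -Kc ≤ Q.psi o τ w) :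
    ∑ q ∈ range T, M.P.E (fun w => rels M Q A q w * A.g q w) ≤
      ∑ v ∈ Q.Vk, (∑ τ ∈ range T, M.P.E (fun w => ind (tv M v τ w = τ ∧ dcv M Q T v τ w) * Q.psi (some v) τ w) +
        Kc * ∑ τ ∈ range T, M.P.Pr (fun w => tv M v τ w = τ ∧ dcv M Q T v τ w ∧
          ¬ ∃ q < T, tv M v q w = τ ∧ relv M Q A v q w) + δ * ∑ q ∈ range T, M.P.Pr (relv M Q A v q)) +
      (∑ n ∈ range T, M.P.E (fun w => ind (nu M.toMS n w = n ∧ dc0 M Q T n w) * Q.psi none n w) +
        Kc * ∑ n ∈ range T, M.P.Pr (fun w => nu M.toMS n w = n ∧ dc0 M Q T n w ∧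
          ¬ ∃ q < T, nu M.toMS q w = n ∧ rel0 M Q A q w) + δ * ∑ q ∈ range T, M.P.Pr (rel0 M Q A q)) := by
  classical
  have e1 : ∀ q, M.P.E (fun w => rels M Q A q w * A.g q w) =
      ∑ v ∈ Q.Vk, M.P.E (fun w => ind (relv M Q A v q w) * A.g q w) +
        M.P.E (fun w => ind (rel0 M Q A q w) * A.g q w) := by
    intro q
    rw [← FP.E_sum, ← FP.E_add]
    refine M.P.E_congr fun w hw => ?_
    rw [rels_eq H hw q, add_mul, Finset.sum_mul]
  rw [Finset.sum_congr rfl fun q _ => e1 q, Finset.sum_add_distrib, Finset.sum_comm]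
  refine add_le_add (Finset.sum_le_sum fun v hv => ?_) ?_
  · refine life_sum (P := M.P) (C := M.Cv v) (rel := relv M Q A v) (dc := fun τ w => dcv M Q T v τ w) (f := Q.psi (some v)) (g := A.g)
      (Kc := Kc) (δ := δ) T ?_ ?_ ?_ fun w hw τ _ => hK w hw _ τ
    · intro w hw q hq h
      rcases h.2 with h1 | h1
      · exact H.endp w hw v q h1.1
      · exact H.endu w hw v q h1.1
    · intro w hw q hq h
      have hb : bet M Q v q w := by
        rcases h.2 with h1 | h1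
        · exact h1.2
        · exact h1.2.1
      have hr : A.rp v q w ∨ A.ru q w := by
        rcases h.2 with h1 | h1
        · exact Or.inl h1.1
        · exact Or.inr h1.1
      obtain ⟨s, a, b, c⟩ := bet_iff.1 hb
      exact ⟨H.gdv w hw v hv q h.1 hr (Or.inl hb), s, lt_of_le_of_lt b hq, stg_mid rfl a b, c⟩
    · intro w hw q hq h
      have hr : A.rp v q w ∨ A.ru q w := by
        rcases h.2 with h1 | h1
        · exact Or.inl h1.1
        · exact Or.inr h1.1
      have hb : bet M Q v q w := by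
        rcases h.2 with h1 | h1
        · exact h1.2
        · exact h1.2.1
      exact H.gdp w hw v hv q h.1 hr hb
  · refine life_sum (P := M.P) (C := C0 M.toMS) (rel := rel0 M Q A) (dc := fun n w => dc0 M Q T n w) (f := Q.psi none) (g := A.g)
      (Kc := Kc) (δ := δ) T ?_ ?_ ?_ fun w hw τ _ => hK w hw _ τ
    · exact fun w hw q _ h => H.end0 w hw q h.2.1
    · intro w hw q hq h
      obtain ⟨s, a, b, c⟩ := Z0_iff.1 h.2.2.1
      refine ⟨H.gd0 w hw q h.1 h.2.1 h.2.2.1, s, lt_of_le_of_lt b hq, stg_mid rfl a b, c, fun v hv => ?_⟩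
      have h1 := H.lst w hw v hv q h.1 h.2.1
      have h2 : tv M v s w = tv M v q w := stg_mid rfl (h1.trans a) b
      refine ⟨fun hb => h.2.2.2 v hv (bet_mono b h2.symm hb), H.exz w hw v hv q s h.1 h.2.1 a b c,
        by rw [h2]; exact h1, ?_⟩
      rw [h2]
      exact Q.hkz v hv _ _ (H.gdv w hw v hv q h.1 (Or.inr h.2.1) (Or.inr h.2.2.1))
    · exact fun w hw q _ h => H.gdp0 w hw q h.1 h.2.1 h.2.2.1

/-! ### the decided lives which are not released -/

variable (M Q A) in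
/-- a partner was first at the public removal which ends the life -/
def prt (v : Fin 3) (q : ℕ) (w : Om) : Prop :=
  A.gd q w ∧ A.ru q w ∧ bet M Q v q w ∧ ∃ v' ∈ Q.Vk, v' ≠ v ∧ ¬ bef M Q v v' q w

/-- **A DECIDED LIFE WHICH IS NOT RELEASED AT ITS END** -/
theorem bad_end {v : Fin 3} {τ T : ℕ} {w : Om}
    (hn : ¬ ∃ q < T, tv M v q w = τ ∧ relv M Q A v q w) {s : ℕ} (hs : tv M v s w = τ)
    (ht : tkx M Q v s w) (hsT : s < T) :
    tv M v T w = τ ∨ ∃ q < T, tv M v q w = τ ∧ tv M v (q + 1) w = q + 1 ∧ s ≤ q ∧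
      ((¬ A.rp v q w ∧ ¬ A.ru q w) ∨ (A.rp v q w ∧ ¬ A.gd q w) ∨ (A.ru q w ∧ ¬ A.gd q w) ∨ prt M Q A v q w) := by
  classical
  by_cases hT : tv M v T w = τ
  · exact Or.inl hT
  right
  -- the last time of the life
  have hex : ∃ k, s < k ∧ tv M v k w ≠ τ := ⟨T, hsT, hT⟩
  set k := Nat.find hex with hk
  obtain ⟨h1, h2⟩ := Nat.find_spec hex
  have hkT : k ≤ T := Nat.find_min' hex ⟨hsT, hT⟩
  obtain ⟨q, hq⟩ : ∃ q, k = q + 1 := ⟨k - 1, by omega⟩
  have hq1 : tv M v q w = τ := by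
    by_contra h3
    rcases Nat.lt_or_ge s q with h4 | h4
    · exact Nat.find_min hex (show q < k by omega) ⟨h4, h3⟩
    · have : q = s := by omega
      exact h3 (this ▸ hs)
  have hq2 : tv M v (q + 1) w = q + 1 := by
    rcases stg_or (C := M.Cv v) q w with h3 | h3
    · exact h3
    · exact absurd (h3.trans hq1) (by rw [← hq]; exact h2)
  have hτ : τ ≤ s := by
    rw [← hs]
    exact stg_le _ _
  have hb : bet M Q v q w := bet_iff.2 ⟨s, by rw [hq1]; exact hτ, by omega, ht⟩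
  refine ⟨q, by omega, hq1, hq2, by omega, ?_⟩
  by_cases g1 : A.rp v q w
  · by_cases g2 : A.gd q w
    · exact absurd ⟨q, by omega, hq1, g2, Or.inl ⟨g1, hb⟩⟩ hn
    · exact Or.inr (Or.inl ⟨g1, g2⟩)
  · by_cases g2 : A.ru q w
    · by_cases g3 : A.gd q w
      · refine Or.inr (Or.inr (Or.inr ⟨g3, g2, hb, ?_⟩))
        by_contra h5
        push Not at h5
        exact hn ⟨q, by omega, hq1, g3, Or.inr ⟨g2, hb, fun v' hv' hne => h5 v' hv' hne⟩⟩
      · exact Or.inr (Or.inr (Or.inl ⟨g2, g3⟩))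
    · exact Or.inl ⟨g1, g2⟩

variable (M Q A) in
/-- the end of a decided life which is not released (in the relation) -/
def lost (v : Fin 3) (q : ℕ) (w : Om) : Prop :=
  tv M v (q + 1) w = q + 1 ∧ Q.kd (some v) (tv M v q w) w ∧ bet M Q v q w ∧
    ((¬ A.rp v q w ∧ ¬ A.ru q w) ∨ (A.rp v q w ∧ ¬ A.gd q w) ∨ (A.ru q w ∧ ¬ A.gd q w) ∨ prt M Q A v q w)

/-- **THE DECIDED LIVES WHICH ARE NOT RELEASED, SUMMED OVER THE ENDS** -/
theorem lost_sum (v : Fin 3) (T : ℕ) :
    ∑ τ ∈ range T, M.P.Pr (fun w => tv M v τ w = τ ∧ dcv M Q T v τ w ∧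
      ¬ ∃ q < T, tv M v q w = τ ∧ relv M Q A v q w) ≤
      ∑ q ∈ range T, M.P.Pr (lost M Q A v q) + M.P.Pr (fun w => Q.kd (some v) (tv M v T w) w ∧ bet M Q v T w) := by
  classical
  unfold FP.Pr
  rw [← FP.E_sum, ← FP.E_sum, ← FP.E_add]
  refine M.P.E_mono fun w _ => ?_
  have key : ∀ τ ∈ range T, ind (tv M v τ w = τ ∧ dcv M Q T v τ w ∧
      ¬ ∃ q < T, tv M v q w = τ ∧ relv M Q A v q w) ≤
      ∑ q ∈ range T, ind (tv M v q w = τ ∧ lost M Q A v q w) +
        ind (tv M v T w = τ ∧ (Q.kd (some v) (tv M v T w) w ∧ bet M Q v T w)) := by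
    intro τ _
    have n1 : 0 ≤ ∑ q ∈ range T, ind (tv M v q w = τ ∧ lost M Q A v q w) :=
      Finset.sum_nonneg fun _ _ => ind_nonneg _
    have n2 := ind_nonneg (tv M v T w = τ ∧ (Q.kd (some v) (tv M v T w) w ∧ bet M Q v T w))
    by_cases h : tv M v τ w = τ ∧ dcv M Q T v τ w ∧ ¬ ∃ q < T, tv M v q w = τ ∧ relv M Q A v q w
    · rw [ind_of h]
      obtain ⟨_, ⟨hk, s, hsT, hs, ht⟩, hn⟩ := h
      have hτ : τ ≤ s := by
        rw [← hs]
        exact stg_le _ _
      rcases bad_end (A := A) hn hs ht hsT with h1 | ⟨q, a, b, c, d, e⟩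
      · have h2 : ind (tv M v T w = τ ∧ (Q.kd (some v) (tv M v T w) w ∧ bet M Q v T w)) = 1 :=
          ind_of ⟨h1, by rw [h1]; exact hk, bet_iff.2 ⟨s, by rw [h1]; exact hτ, hsT.le, ht⟩⟩
        linarith
      · have h2 : ind (tv M v q w = τ ∧ lost M Q A v q w) = 1 :=
          ind_of ⟨b, c, by rw [b]; exact hk, bet_iff.2 ⟨s, by rw [b]; exact hτ, d, ht⟩, e⟩
        have h3 : ind (tv M v q w = τ ∧ lost M Q A v q w) ≤
            ∑ q ∈ range T, ind (tv M v q w = τ ∧ lost M Q A v q w) :=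
          Finset.single_le_sum (f := fun q => ind (tv M v q w = τ ∧ lost M Q A v q w))
            (fun _ _ => ind_nonneg _) (mem_range.2 a)
        linarith
    · rw [ind_not h]
      linarith
  refine (Finset.sum_le_sum key).trans ?_
  rw [Finset.sum_add_distrib, Finset.sum_comm]
  refine add_le_add (Finset.sum_le_sum fun q _ => ?_) ?_
  · rw [← Finset.sum_filter_add_sum_filter_not (range T) fun τ => tv M v q w = τ]
    have h1 : ∑ τ ∈ (range T).filter (fun τ => ¬ tv M v q w = τ), ind (tv M v q w = τ ∧ lost M Q A v q w) = 0 :=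
      Finset.sum_eq_zero fun τ hτ => ind_not fun h => (mem_filter.1 hτ).2 h.1
    rw [h1, add_zero]
    refine (Finset.sum_le_sum fun τ _ => (ind_mono fun h => h.2 :
      ind (tv M v q w = τ ∧ lost M Q A v q w) ≤ ind (lost M Q A v q w))).trans ?_
    rw [Finset.sum_const, nsmul_eq_mul]
    have h2 : ((range T).filter fun τ => tv M v q w = τ).card ≤ 1 :=
      Finset.card_le_one.2 fun a ha b hb => (mem_filter.1 ha).2.symm.trans (mem_filter.1 hb).2
    have h3 : (((range T).filter fun τ => tv M v q w = τ).card : ℝ) ≤ 1 := by exact_mod_cast h2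
    calc _ ≤ 1 * ind (lost M Q A v q w) := mul_le_mul_of_nonneg_right h3 (ind_nonneg _)
      _ = _ := one_mul _
  · rw [← Finset.sum_filter_add_sum_filter_not (range T) fun τ => tv M v T w = τ]
    have h1 : ∑ τ ∈ (range T).filter (fun τ => ¬ tv M v T w = τ), ind (tv M v T w = τ ∧
        (Q.kd (some v) (tv M v T w) w ∧ bet M Q v T w)) = 0 :=
      Finset.sum_eq_zero fun τ hτ => ind_not fun h => (mem_filter.1 hτ).2 h.1
    rw [h1, add_zero]
    refine (Finset.sum_le_sum fun τ _ => (ind_mono fun h => h.2 :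
      ind (tv M v T w = τ ∧ (Q.kd (some v) (tv M v T w) w ∧ bet M Q v T w)) ≤
        ind (Q.kd (some v) (tv M v T w) w ∧ bet M Q v T w))).trans ?_
    rw [Finset.sum_const, nsmul_eq_mul]
    have h2 : ((range T).filter fun τ => tv M v T w = τ).card ≤ 1 :=
      Finset.card_le_one.2 fun a ha b hb => (mem_filter.1 ha).2.symm.trans (mem_filter.1 hb).2
    have h3 : (((range T).filter fun τ => tv M v T w = τ).card : ℝ) ≤ 1 := by exact_mod_cast h2
    calc _ ≤ 1 * ind (Q.kd (some v) (tv M v T w) w ∧ bet M Q v T w) := mul_le_mul_of_nonneg_right h3 (ind_nonneg _)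
      _ = _ := one_mul _

variable (M Q A) in
/-- the end of a public epoch with a zone in which all vertices are undecided, not released -/
def lost0 (q : ℕ) (w : Om) : Prop :=
  nu M.toMS (q + 1) w = q + 1 ∧ Q.kd none (nu M.toMS q w) w ∧ (∃ s, nu M.toMS q w ≤ s ∧ s ≤ q ∧ zt M Q s w ∧
    ∀ v ∈ Q.Vk, und M Q v s (nu M.toMS q w) w) ∧ (¬ A.ru q w ∨ ¬ A.gd q w)

/-- **THE ZONES WHICH ARE NOT RELEASED, SUMMED OVER THE ENDS** -/
theorem lost0_sum (H : StpOK M Q A δ) (T : ℕ) :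
    ∑ n ∈ range T, M.P.Pr (fun w => nu M.toMS n w = n ∧ dc0 M Q T n w ∧
      ¬ ∃ q < T, nu M.toMS q w = n ∧ rel0 M Q A q w) ≤
      ∑ q ∈ range T, M.P.Pr (lost0 M Q A q) + M.P.Pr (fun w => Q.kd none (nu M.toMS T w) w ∧ Z0 M Q T w) := by
  classical
  unfold FP.Pr
  rw [← FP.E_sum, ← FP.E_sum, ← FP.E_add]
  refine M.P.E_mono fun w hw => ?_
  have key : ∀ n ∈ range T, ind (nu M.toMS n w = n ∧ dc0 M Q T n w ∧
      ¬ ∃ q < T, nu M.toMS q w = n ∧ rel0 M Q A q w) ≤
      ∑ q ∈ range T, ind (nu M.toMS q w = n ∧ lost0 M Q A q w) +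
        ind (nu M.toMS T w = n ∧ (Q.kd none (nu M.toMS T w) w ∧ Z0 M Q T w)) := by
    intro n _
    have n1 : 0 ≤ ∑ q ∈ range T, ind (nu M.toMS q w = n ∧ lost0 M Q A q w) :=
      Finset.sum_nonneg fun _ _ => ind_nonneg _
    have n2 := ind_nonneg (nu M.toMS T w = n ∧ (Q.kd none (nu M.toMS T w) w ∧ Z0 M Q T w))
    by_cases h : nu M.toMS n w = n ∧ dc0 M Q T n w ∧ ¬ ∃ q < T, nu M.toMS q w = n ∧ rel0 M Q A q w
    · rw [ind_of h]
      obtain ⟨_, ⟨hk, s, hsT, hs, ht, hund⟩, hn⟩ := h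
      have hτ : n ≤ s := by
        rw [← hs]
        exact stg_le _ _
      by_cases hT : nu M.toMS T w = n
      · have h2 : ind (nu M.toMS T w = n ∧ (Q.kd none (nu M.toMS T w) w ∧ Z0 M Q T w)) = 1 :=
          ind_of ⟨hT, by rw [hT]; exact hk, Z0_iff.2 ⟨s, by rw [hT]; exact hτ, hsT.le, ht⟩⟩
        linarith
      · -- the last time of the epoch
        have hex : ∃ k, s < k ∧ nu M.toMS k w ≠ n := ⟨T, hsT, hT⟩
        set k := Nat.find hex with hk'
        obtain ⟨h1, h2⟩ := Nat.find_spec hex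
        have hkT : k ≤ T := Nat.find_min' hex ⟨hsT, hT⟩
        obtain ⟨q, hq⟩ : ∃ q, k = q + 1 := ⟨k - 1, by omega⟩
        have hq1 : nu M.toMS q w = n := by
          by_contra h3
          rcases Nat.lt_or_ge s q with h4 | h4
          · exact Nat.find_min hex (show q < k by omega) ⟨h4, h3⟩
          · have : q = s := by omega
            exact h3 (this ▸ hs)
        have hq2 : nu M.toMS (q + 1) w = q + 1 := by
          rcases stg_or (C := C0 M.toMS) q w with h3 | h3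
          · exact h3
          · exact absurd (h3.trans hq1) (by rw [← hq]; exact h2)
        have hsq : s ≤ q := by omega
        have hbad : ¬ A.ru q w ∨ ¬ A.gd q w := by
          by_contra h5
          push Not at h5
          obtain ⟨h6, h7⟩ := h5
          refine hn ⟨q, by omega, hq1, h7, h6, Z0_iff.2 ⟨s, by rw [hq1]; exact hτ, hsq, ht⟩, fun v hv hb => ?_⟩
          have h8 := H.lst w hw v hv q h7 h6
          obtain ⟨r, a, b, c⟩ := hb
          rcases Nat.lt_or_ge r s with h9 | h9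
          · refine (hund v hv).1 ⟨r, ?_, h9.le, c⟩
            have h10 : tv M v s w = tv M v q w := stg_mid rfl (a.trans h9.le) hsq
            rw [h10]
            exact a
          · refine c.2.1 ⟨Z0_iff.2 ⟨s, ?_, h9, ht⟩, ?_⟩
            · have h10 : nu M.toMS r w = nu M.toMS q w := stg_mid rfl (by omega) b
              rw [h10, hq1]
              exact hτ
            · have h10 : nu M.toMS r w = nu M.toMS q w := stg_mid rfl (by omega) b
              have h11 : tv M v r w = tv M v q w := stg_mid rfl a b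
              rw [h10, h11]
              exact h8
        have h2 : ind (nu M.toMS q w = n ∧ lost0 M Q A q w) = 1 :=
          ind_of ⟨hq1, hq2, by rw [hq1]; exact hk, ⟨s, by rw [hq1]; exact hτ, hsq, ht, by rw [hq1]; exact hund⟩, hbad⟩
        have h3 : ind (nu M.toMS q w = n ∧ lost0 M Q A q w) ≤
            ∑ q ∈ range T, ind (nu M.toMS q w = n ∧ lost0 M Q A q w) :=
          Finset.single_le_sum (f := fun q => ind (nu M.toMS q w = n ∧ lost0 M Q A q w))
            (fun _ _ => ind_nonneg _) (mem_range.2 (by omega))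
        linarith
    · rw [ind_not h]
      linarith
  refine (Finset.sum_le_sum key).trans ?_
  rw [Finset.sum_add_distrib, Finset.sum_comm]
  refine add_le_add (Finset.sum_le_sum fun q _ => ?_) ?_
  · rw [← Finset.sum_filter_add_sum_filter_not (range T) fun n => nu M.toMS q w = n]
    have h1 : ∑ n ∈ (range T).filter (fun n => ¬ nu M.toMS q w = n), ind (nu M.toMS q w = n ∧ lost0 M Q A q w) = 0 :=
      Finset.sum_eq_zero fun n hn => ind_not fun h => (mem_filter.1 hn).2 h.1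
    rw [h1, add_zero]
    refine (Finset.sum_le_sum fun n _ => (ind_mono fun h => h.2 :
      ind (nu M.toMS q w = n ∧ lost0 M Q A q w) ≤ ind (lost0 M Q A q w))).trans ?_
    rw [Finset.sum_const, nsmul_eq_mul]
    have h2 : ((range T).filter fun n => nu M.toMS q w = n).card ≤ 1 :=
      Finset.card_le_one.2 fun a ha b hb => (mem_filter.1 ha).2.symm.trans (mem_filter.1 hb).2
    have h3 : (((range T).filter fun n => nu M.toMS q w = n).card : ℝ) ≤ 1 := by exact_mod_cast h2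
    calc _ ≤ 1 * ind (lost0 M Q A q w) := mul_le_mul_of_nonneg_right h3 (ind_nonneg _)
      _ = _ := one_mul _
  · rw [← Finset.sum_filter_add_sum_filter_not (range T) fun n => nu M.toMS T w = n]
    have h1 : ∑ n ∈ (range T).filter (fun n => ¬ nu M.toMS T w = n), ind (nu M.toMS T w = n ∧
        (Q.kd none (nu M.toMS T w) w ∧ Z0 M Q T w)) = 0 :=
      Finset.sum_eq_zero fun n hn => ind_not fun h => (mem_filter.1 hn).2 h.1
    rw [h1, add_zero]
    refine (Finset.sum_le_sum fun n _ => (ind_mono fun h => h.2 :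
      ind (nu M.toMS T w = n ∧ (Q.kd none (nu M.toMS T w) w ∧ Z0 M Q T w)) ≤
        ind (Q.kd none (nu M.toMS T w) w ∧ Z0 M Q T w))).trans ?_
    rw [Finset.sum_const, nsmul_eq_mul]
    have h2 : ((range T).filter fun n => nu M.toMS T w = n).card ≤ 1 :=
      Finset.card_le_one.2 fun a ha b hb => (mem_filter.1 ha).2.symm.trans (mem_filter.1 hb).2
    have h3 : (((range T).filter fun n => nu M.toMS T w = n).card : ℝ) ≤ 1 := by exact_mod_cast h2
    calc _ ≤ 1 * ind (Q.kd none (nu M.toMS T w) w ∧ Z0 M Q T w) := mul_le_mul_of_nonneg_right h3 (ind_nonneg _)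
      _ = _ := one_mul _

/-- **THE SIGNED SUM OF ONE KIND, WITH THE LOST LIVES AND ZONES** -/
theorem signed_total (H : StpOK M Q A δ) (T : ℕ) {Kc : ℝ} (K0 : 0 ≤ Kc)
    (hK : ∀ w, M.P.p w ≠ 0 → ∀ o τ, -Kc ≤ Q.psi o τ w) :
    ∑ q ∈ range T, M.P.E (fun w => rels M Q A q w * A.g q w) ≤
      ∑ v ∈ Q.Vk, (∑ τ ∈ range T, M.P.E (fun w => ind (tv M v τ w = τ ∧ dcv M Q T v τ w) * Q.psi (some v) τ w) +
        Kc * (∑ q ∈ range T, M.P.Pr (lost M Q A v q) + M.P.Pr (fun w => Q.kd (some v) (tv M v T w) w ∧ bet M Q v T w)) +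
        δ * ∑ q ∈ range T, M.P.Pr (relv M Q A v q)) +
      (∑ n ∈ range T, M.P.E (fun w => ind (nu M.toMS n w = n ∧ dc0 M Q T n w) * Q.psi none n w) +
        Kc * (∑ q ∈ range T, M.P.Pr (lost0 M Q A q) + M.P.Pr (fun w => Q.kd none (nu M.toMS T w) w ∧ Z0 M Q T w)) +
        δ * ∑ q ∈ range T, M.P.Pr (rel0 M Q A q)) := by
  refine (signed H T hK).trans (add_le_add (Finset.sum_le_sum fun v _ => ?_) ?_)
  · have h1 := mul_le_mul_of_nonneg_left (lost_sum (M := M) (Q := Q) (A := A) v T) K0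
    linarith
  · have h1 := mul_le_mul_of_nonneg_left (lost0_sum H T) K0
    linarith

/-- the releases are removals -/
theorem relv_le (v : Fin 3) (T : ℕ) : ∑ q ∈ range T, M.P.Pr (relv M Q A v q) ≤
    ∑ q ∈ range T, M.P.Pr (fun w => A.rp v q w ∨ A.ru q w) :=
  Finset.sum_le_sum fun q _ => M.P.Pr_mono fun _ _ h => h.2.elim (fun h => Or.inl h.1) fun h => Or.inr h.1

theorem rel0_le (T : ℕ) : ∑ q ∈ range T, M.P.Pr (rel0 M Q A q) ≤ ∑ q ∈ range T, M.P.Pr (A.ru q) :=
  Finset.sum_le_sum fun q _ => M.P.Pr_mono fun _ _ h => h.2.1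

/-- **THE PARTNER** : decided not after `T^v` in its current life, which is a life of the public start of `q` -/
theorem prt_cases (H : StpOK M Q A δ) {v : Fin 3} {q s : ℕ} {w : Om} (hw : M.P.p w ≠ 0)
    (h : prt M Q A v q w) (hs : tv M v q w ≤ s) (hsq : s ≤ q) (ht : tkx M Q v s w) :
    ∃ v' ∈ Q.Vk, v' ≠ v ∧ tv M v' s w = tv M v' q w ∧ tv M v' q w ≤ nu M.toMS q w ∧
      bet M Q v' s w ∧
      ((nu M.toMS q w = nu M.toMS s w) ∨ (s < nu M.toMS q w)) := by
  obtain ⟨hg, hu, hb, v', hv', hne, hbef⟩ := h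
  have h1 := H.lst w hw v' hv' q hg hu
  have h2 : ∃ r, tv M v' q w ≤ r ∧ r ≤ q ∧ dd M Q v' r w ∧ (r < s ∨ (r = s ∧ v' < v)) := by
    by_contra h3
    exact hbef ⟨s, hs, hsq, ht, h3⟩
  obtain ⟨r, a, b, c, d⟩ := h2
  have hrs : r ≤ s := by
    rcases d with d | d
    · exact d.le
    · exact d.1.le
  have h4 : tv M v' s w = tv M v' q w := stg_mid rfl (a.trans hrs) hsq
  refine ⟨v', hv', hne, h4, h1, ⟨r, by rw [h4]; exact a, hrs, c⟩, ?_⟩
  rcases Nat.lt_or_ge s (nu M.toMS q w) with h5 | h5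
  · exact Or.inr h5
  · exact Or.inl (stg_mid (C := C0 M.toMS) rfl h5 hsq).symm

end

end Pool.Agent.GMH.UV
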