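import Pool.Agent.GMH.TwoSplit
import Pool.Agent.GMH.StpT
import Pool.Agent.GMH.Unm

/-!
# GMH/StpT2: the released sums of `TwoSplit` on the table space (helper35; rows A4 / A6, T1 and T2 of the frames two)

Frame two at the vertex `i`, released kinds `rk`; bits on the table space `bO k q` (vertex `i`), `zO k q` (seen by the positions);
`b2 q` the side of the substep (`false` : joint step), `aO2 q` alive, `rO2 k q` released relation at the true pair,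
`gO2 K q = max (pq2 i q) (-K)`; removals `rpO tb v i q` (private removal of `i`) and `ruO tb v q` of `GMH/StpT`; further condition
`gM k q`.
* `rlB2 k q` : the released weight of the kind `k`, `gdO2 = aO2, rO2, gM`; `thO2` : released but not `gM`;
* `relS2_le` : `∑_t ∑_b RelS2 ≤ ∑_(k ∈ rk) ∑_q E (rlB2 k q * gO2 K q) + 3 Lam ∑_(k ∈ rk) ∑_q Pr (thO2 k q)`;
* `rp2 i v q` : the removals of the frame (private: the vertex `i` only); `stps2` : the steps as `Stps` of `GMH/Unm`;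
  `rlB2_rels` : the released weight is `rels` (kind with `Vk = {i}`); `relS2_unm` : the released sums in terms of `rels`;
  `stpOK2` : `StpOK` from `gdv`, `gd0`, `lst`; `aV_f`, `aV_t` : the alive sets of the run.
-/

set_option autoImplicit false
set_option linter.unusedSectionVars false

namespace Pool.Agent.GMH.TRF

open Finset Pool.Agent.PWZ Pool.Agent.M3 Pool.Agent.GM Pool.Agent.GM.Harm Pool.Agent.GMH Pool.Agent.GMH.NZ
open Pool.Agent.GMH.V3 Pool.Agent.GMH.TP Pool.Agent.GMH.TD Pool.Agent.GMH.Dy Pool.Agent.GMH.MV Pool.Agent.GMH.MVI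
open Pool.Agent.GMH.UV Pool.Agent.GMH.KF Pool.Agent.GMH.CK

noncomputable section

variable {X β γ φ : Type} [Fintype X] [Fintype β] [Fintype φ] [Nonempty X] [Nonempty β]
variable {D : HD (Fin 3) X β γ φ} {al : ℝ} (h : D.Thick al) {prr : ℕ → Fin 3 → φ → φ} {T : ℕ} {W : Type} [Fintype W]
variable (tb : Tab D prr T W) (v : ℕ → Finset (Fin 3) → X → (Fin 3 → β) → Pt (Fin 3) X β φ)
variable (c : KC) (B : ℝ) (i : Fin 3) (rk : Finset (Fin 10)) (A : Bool → ℕ → Pt (Fin 3) X β φ → Prop)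
  (bO zO gM : Fin 10 → ℕ → Om W X β → Prop)

/-- the side of the substep `q` : `false` is the joint step -/
def b2 (q : ℕ) : Bool := if q % 5 = 1 then false else true

theorem b2_1 (t : ℕ) : b2 (5 * t + 1) = false := by unfold b2; rw [if_pos (by omega)]

theorem b2_4 (t : ℕ) : b2 (5 * t + 4) = true := by
  unfold b2
  rw [if_neg (by omega)]

/-- alive -/
def aO2 (q : ℕ) (w : Om W X β) : Prop := A (b2 q) (q / 5) (tb.pt (q / 5) w)

/-- released relation at the true pair -/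
def rO2 (k : Fin 10) (q : ℕ) (w : Om W X β) : Prop :=
  rel2 h v c B i rk (b2 q) (q / 5) k (tb.pt (q / 5) w) (tup (Fo (FQ v (q / 5)) i) (tb.pt (q / 5) w))

/-- the signed test -/
def gO2 (K : ℝ) (q : ℕ) (w : Om W X β) : ℝ := max (pq2 h v tb i q w) (-K)

/-- good at the removal -/
def gdO2 (k : Fin 10) (q : ℕ) (w : Om W X β) : Prop := aO2 tb A q w ∧ rO2 h tb v c B i rk k q w ∧ gM k q w

/-- the bit of the substep -/
def btO2 (k : Fin 10) (q : ℕ) (w : Om W X β) : Prop :=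
  (rpO tb v i q w ∧ bO k q w) ∨ (ruO tb v q w ∧ (zO k q w ∨ bO k q w))

/-- released weight of the kind `k` -/
def rlB2 (k : Fin 10) (q : ℕ) (w : Om W X β) : ℝ :=
  ind (gdO2 h tb v c B i rk A gM k q w ∧ rpO tb v i q w ∧ bO k q w) +
    ind (gdO2 h tb v c B i rk A gM k q w ∧ ruO tb v q w ∧ (zO k q w ∨ bO k q w))

/-- released, not good -/
def thO2 (k : Fin 10) (q : ℕ) (w : Om W X β) : Prop :=
  aO2 tb A q w ∧ rO2 h tb v c B i rk k q w ∧ ¬ gM k q w ∧ btO2 tb v i bO zO k q w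

variable {h tb v c B i rk A bO zO gM}

theorem rp_ru2 {q : ℕ} {w : Om W X β} (hr : rpO tb v i q w) : ¬ ruO tb v q w := fun h1 => by
  have := hr.1
  have := h1.1
  omega

/-- one kind, one substep -/
theorem rlB2_eq (k : Fin 10) (q : ℕ) (w : Om W X β) :
    ind (aO2 tb A q w ∧ rO2 h tb v c B i rk k q w ∧ btO2 tb v i bO zO k q w) =
      rlB2 h tb v c B i rk A bO zO gM k q w + ind (thO2 h tb v c B i rk A bO zO gM k q w) := by
  classical
  -- the released weight is the indicator of `gd` and bit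
  have e1 : rlB2 h tb v c B i rk A bO zO gM k q w =
      ind (gdO2 h tb v c B i rk A gM k q w ∧ btO2 tb v i bO zO k q w) := by
    unfold rlB2
    by_cases h1 : rpO tb v i q w
    · have h2 := rp_ru2 h1
      rw [ind_not (fun hh : gdO2 h tb v c B i rk A gM k q w ∧ ruO tb v q w ∧ _ => h2 hh.2.1), add_zero]
      congr 1
      exact propext ⟨fun hh => ⟨hh.1, Or.inl hh.2⟩, fun hh => ⟨hh.1, h1, hh.2.elim (fun a => a.2)
        fun a => absurd a.1 h2⟩⟩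
    · rw [ind_not (fun hh : gdO2 h tb v c B i rk A gM k q w ∧ rpO tb v i q w ∧ _ => h1 hh.2.1), zero_add]
      congr 1
      exact propext ⟨fun hh => ⟨hh.1, Or.inr hh.2⟩, fun hh => ⟨hh.1, hh.2.elim (fun a => absurd a.1 h1)
        fun a => a⟩⟩
  rw [e1]
  unfold gdO2 thO2
  by_cases g : gM k q w
  · rw [ind_not (fun hh : aO2 tb A q w ∧ rO2 h tb v c B i rk k q w ∧ ¬ gM k q w ∧ _ => hh.2.2.1 g), add_zero]
    congr 1
    exact propext ⟨fun hh => ⟨⟨hh.1, hh.2.1, g⟩, hh.2.2⟩, fun hh => ⟨hh.1.1, hh.1.2.1, hh.2⟩⟩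
  · rw [ind_not (fun hh : (aO2 tb A q w ∧ rO2 h tb v c B i rk k q w ∧ gM k q w) ∧ _ => g hh.1.2.2), zero_add]
    congr 1
    exact propext ⟨fun hh => ⟨hh.1, hh.2.1, g, hh.2.2⟩, fun hh => ⟨hh.1, hh.2.1, hh.2.2.2⟩⟩

variable (h tb v c B i rk A bO zO gM) in
/-- the mean of the released weight times the test, substep `q` -/
def rsO2 (K : ℝ) (q : ℕ) : ℝ := tb.Ps.E (fun w =>
  (∑ k ∈ rk, ind (aO2 tb A q w ∧ rO2 h tb v c B i rk k q w ∧ btO2 tb v i bO zO k q w)) * gO2 h tb v i K q w)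

/-- sums over the released kinds -/
theorem sum_rk {f : Fin 10 → ℝ} (hf : ∀ k ∉ rk, f k = 0) : ∑ k, f k = ∑ k ∈ rk, f k :=
  (Finset.sum_subset (Finset.subset_univ rk) fun k _ hk => hf k hk).symm

/-- the joint step -/
theorem relS2_1 (hb : ∀ k q, Pos (bO k q)) (hz : ∀ k q, Pos (zO k q)) {t : ℕ} (ht : t ≤ T)
    (hA : ∀ u, A false t u → ¬ HV h v t u) (K : ℝ) :
    RelS2 h v c B i rk (fun k q => lft (bO k q)) (fun k q => lft (zO k q)) A K false t =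
      rsO2 h tb v c B i rk A bO zO K (5 * t + 1) := by
  classical
  unfold RelS2 rsO2
  rw [← (pul_pt h tb ht).E]
  refine tb.Ps.E_congr fun w _ => ?_
  have hd : (5 * t + 1) / 5 = t := by omega
  have e0 : aO2 tb A (5 * t + 1) w = A false t (tb.pt t w) := by unfold aO2; rw [hd, b2_1]
  have e1 : ∀ k, rO2 h tb v c B i rk k (5 * t + 1) w =
      rel2 h v c B i rk false t k (tb.pt t w) (tup (Fo (FQ v t) i) (tb.pt t w)) := fun k => by
    unfold rO2; rw [hd, b2_1]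
  have e2 : psS2 h v i false t (tb.pt t w) = pq2 h v tb i (5 * t + 1) w := pq2_eq h tb v i 1 t w
  rw [← mul_assoc, e2]
  show _ = _ * max (pq2 h v tb i (5 * t + 1) w) (-K)
  congr 1
  unfold rw2
  rw [sum_rk (rk := rk) (f := fun k => ind (rel2 h v c B i rk false t k (tb.pt t w)
    (tup (Fo (FQ v t) i) (tb.pt t w))) *
    ind (bit2 h v i rk (fun k q => lft (bO k q)) (fun k q => lft (zO k q)) false t k (tb.pt t w)))
    (fun k hk => by rw [ind_not fun hh => hk hh.1, zero_mul]), Finset.mul_sum]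
  refine Finset.sum_congr rfl fun k hk => ?_
  rw [e0, e1]
  by_cases hA1 : A false t (tb.pt t w)
  · have hru : ruO tb v (5 * t + 1) w := by
      refine ⟨by omega, ?_⟩
      have := hA _ hA1
      rw [HV_q ht w, not_le] at this
      exact this
    have e3 : bit2 h v i rk (fun k q => lft (bO k q)) (fun k q => lft (zO k q)) false t k (tb.pt t w) ↔
        btO2 tb v i bO zO k (5 * t + 1) w := by
      rw [bit2_joint]
      unfold btO2
      simp only [lft_pt (hz k (5 * t + 1)) t w, lft_pt (hb k (5 * t + 1)) t w]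
      constructor
      · rintro ⟨_, hh⟩
        exact Or.inr ⟨hru, hh⟩
      · rintro (⟨hh, _⟩ | ⟨_, hh⟩)
        · exfalso
          have := hh.1
          omega
        · exact ⟨hk, hh⟩
    rw [ind_of hA1, one_mul, ← ind_and]
    congr 1
    exact propext ⟨fun hh => ⟨hA1, hh.1, e3.1 hh.2⟩, fun hh => ⟨hh.2.1, e3.2 hh.2.2⟩⟩
  · rw [ind_not hA1, zero_mul, ind_not fun hh => hA1 hh.1]

/-- the private step of the vertex `i` -/
theorem relS2_3 (hb : ∀ k q, Pos (bO k q)) {t : ℕ} (ht : t ≤ T)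
    (hA : ∀ u, A true t u → HV h v t u) (K : ℝ) :
    RelS2 h v c B i rk (fun k q => lft (bO k q)) (fun k q => lft (zO k q)) A K true t =
      rsO2 h tb v c B i rk A bO zO K (5 * t + 4) := by
  classical
  unfold RelS2 rsO2
  rw [← (pul_pt h tb ht).E]
  refine tb.Ps.E_congr fun w _ => ?_
  have hd : (5 * t + 4) / 5 = t := by omega
  have e0 : aO2 tb A (5 * t + 4) w = A true t (tb.pt t w) := by unfold aO2; rw [hd, b2_4]
  have e1 : ∀ k, rO2 h tb v c B i rk k (5 * t + 4) w =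
      rel2 h v c B i rk true t k (tb.pt t w) (tup (Fo (FQ v t) i) (tb.pt t w)) := fun k => by
    unfold rO2; rw [hd, b2_4]
  have e2 : psS2 h v i true t (tb.pt t w) = pq2 h v tb i (5 * t + 4) w := pq2_eq h tb v i 5 t w
  rw [← mul_assoc, e2]
  show _ = _ * max (pq2 h v tb i (5 * t + 4) w) (-K)
  congr 1
  unfold rw2
  rw [sum_rk (rk := rk) (f := fun k => ind (rel2 h v c B i rk true t k (tb.pt t w)
    (tup (Fo (FQ v t) i) (tb.pt t w))) *
    ind (bit2 h v i rk (fun k q => lft (bO k q)) (fun k q => lft (zO k q)) true t k (tb.pt t w)))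
    (fun k hk => by rw [ind_not fun hh => hk hh.1, zero_mul]), Finset.mul_sum]
  refine Finset.sum_congr rfl fun k hk => ?_
  rw [e0, e1]
  by_cases hA1 : A true t (tb.pt t w)
  · have hHV : tb.Ps.m (NPo tb v (5 * t + 1)) w ≤ 2 * tb.Ps.m (NPo tb v (5 * t + 2)) w := (HV_q ht w).1 (hA _ hA1)
    have eL : lpv h v i t (tb.pt t w) ↔ 2 * tb.Ps.m (fun u => (XLo tb v i (5 * t + 4 + 1) u,
        NPo tb v (5 * t + 4 + 1) u)) w < tb.Ps.m (fun u => (XLo tb v i (5 * t + 4) u,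
        NPo tb v (5 * t + 4) u)) w := LVp_pt h tb v ht i (5 * t + 4) w
    have e3 : bit2 h v i rk (fun k q => lft (bO k q)) (fun k q => lft (zO k q)) true t k (tb.pt t w) ↔
        btO2 tb v i bO zO k (5 * t + 4) w := by
      rw [bit2_priv]
      unfold btO2
      simp only [lft_pt (hb k (5 * t + 4)) t w]
      constructor
      · rintro ⟨_, hbt, hl⟩
        refine Or.inl ⟨⟨by omega, eL.1 hl, ?_⟩, hbt⟩
        rw [hd]
        exact hHV
      · rintro (⟨hh, hbt⟩ | ⟨hh, _⟩)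
        · exact ⟨hk, hbt, eL.2 hh.2.1⟩
        · exfalso
          have := hh.1
          omega
    rw [ind_of hA1, one_mul, ← ind_and]
    congr 1
    exact propext ⟨fun hh => ⟨hA1, hh.1, e3.1 hh.2⟩, fun hh => ⟨hh.2.1, e3.2 hh.2.2⟩⟩
  · rw [ind_not hA1, zero_mul, ind_not fun hh => hA1 hh.1]

/-- nothing is released in the other substeps -/
theorem rsO2_0 (K : ℝ) {q : ℕ} (h1 : q % 5 ≠ 1) (h2 : q % 5 ≠ 4) :
    rsO2 h tb v c B i rk A bO zO K q = 0 := by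
  classical
  unfold rsO2
  have e : ∀ k w, ¬ btO2 tb v i bO zO k q w := by
    rintro k w (⟨hh, _⟩ | ⟨hh, _⟩)
    · exact h2 hh.1
    · exact h1 hh.1
  have e1 : ∀ w, ∑ k ∈ rk, ind (aO2 tb A q w ∧ rO2 h tb v c B i rk k q w ∧ btO2 tb v i bO zO k q w) = 0 := fun w =>
    Finset.sum_eq_zero fun k _ => ind_not fun hh => e k w hh.2.2
  simp only [e1, zero_mul]
  unfold FP.E
  simp

/-- **T1** : the released sums on the table space -/
theorem relS2_tr (hb : ∀ k q, Pos (bO k q)) (hz : ∀ k q, Pos (zO k q))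
    (hA1 : ∀ t < T, ∀ u, A false t u → ¬ HV h v t u) (hA3 : ∀ t < T, ∀ u, A true t u → HV h v t u) (K : ℝ) :
    ∑ t ∈ range T, ∑ b, RelS2 h v c B i rk (fun k q => lft (bO k q)) (fun k q => lft (zO k q)) A K b t =
      ∑ q ∈ range (5 * T), rsO2 h tb v c B i rk A bO zO K q := by
  rw [sum_five]
  refine Finset.sum_congr rfl fun t ht => ?_
  have ht' := Finset.mem_range.1 ht
  have k1 := relS2_1 (h := h) (tb := tb) (c := c) (B := B) (i := i) (rk := rk) (A := A) hb hz ht'.le (hA1 t ht') K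
  have k3 := relS2_3 (h := h) (tb := tb) (c := c) (B := B) (i := i) (rk := rk) (A := A) (zO := zO) hb ht'.le
    (hA3 t ht') K
  have z : ∀ r : ℕ, r < 5 → r ≠ 1 → r ≠ 4 → rsO2 h tb v c B i rk A bO zO K (5 * t + r) = 0 := fun r hr h1 h2 =>
    rsO2_0 K (by omega) (by omega)
  rw [Fintype.sum_bool, k1, k3]
  have z0 : rsO2 h tb v c B i rk A bO zO K (5 * t) = 0 := z 0 (by omega) (by omega) (by omega)
  rw [z0, z 2 (by omega) (by omega) (by omega), z 3 (by omega) (by omega) (by omega)]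
  ring

/-- **T2** : the released sums by kinds -/
theorem rsO2_le {K L : ℝ} {q : ℕ} (hg : ∀ w, tb.Ps.p w ≠ 0 → gO2 h tb v i K q w ≤ L) :
    rsO2 h tb v c B i rk A bO zO K q ≤
      ∑ k ∈ rk, tb.Ps.E (fun w => rlB2 h tb v c B i rk A bO zO gM k q w * gO2 h tb v i K q w) +
      L * ∑ k ∈ rk, tb.Ps.Pr (thO2 h tb v c B i rk A bO zO gM k q) := by
  unfold rsO2 FP.Pr
  rw [Finset.mul_sum, ← Finset.sum_add_distrib]
  have e1 : ∀ k, tb.Ps.E (fun w => rlB2 h tb v c B i rk A bO zO gM k q w * gO2 h tb v i K q w) +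
      L * tb.Ps.E (fun w => ind (thO2 h tb v c B i rk A bO zO gM k q w)) =
      tb.Ps.E (fun w => rlB2 h tb v c B i rk A bO zO gM k q w * gO2 h tb v i K q w +
        L * ind (thO2 h tb v c B i rk A bO zO gM k q w)) := fun k => by
    rw [tb.Ps.E_add, tb.Ps.E_smul]
  rw [Finset.sum_congr rfl fun k _ => e1 k, ← FP.E_sum]
  refine tb.Ps.E_mono fun w hw => ?_
  rw [Finset.sum_mul]
  refine Finset.sum_le_sum fun k _ => ?_
  rw [rlB2_eq (gM := gM) k q w, add_mul]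
  have h1 := mul_le_mul_of_nonneg_left (hg w hw) (ind_nonneg (thO2 h tb v c B i rk A bO zO gM k q w))
  linarith

/-- the log density of two tops -/
theorem psi2_le {dg : ℕ → X → ℝ} {Lam : ℝ} (H : D.Hyp dg prr al T Lam) {N : Finset (Fin 3) → ℝ}
    (R : Run h N (SS1 (Fin 3)) (AdmDep D) v) (hN : ∀ l : Fin 3, 0 < N (univ.erase l)) {t q : ℕ} (ht : t ≤ T)
    (hq : 5 * t ≤ q) (i : Fin 3) {u : Pt (Fin 3) X β φ} (hu : (D.P h t).p u ≠ 0) :
    psC (D.P h t) (ZQ D v q) (ZbQ D v q) (Fo (FQ v t) i) u (tup (Fo (FQ v t) i) u) ≤ 3 * Lam := by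
  have h1 := psC_le_sum (P := D.P h t) (Z := ZQ D v q) (Zb := ZbQ D v q) (F := Fo (FQ v t) i)
    (L := Lam) hu (univ.erase i) (fun j hj => by
      obtain rfl : j = i := by
        by_contra hne
        exact hj (Finset.mem_erase.2 ⟨hne, mem_univ j⟩)
      exact Fo_self (D.P h t) (FQ v t) _ u) (fun j hj => by
      rw [Fo_ne (D.P h t) (FQ v t) (Finset.ne_of_mem_erase hj)]
      exact spF_le H R hN ht hq j hu)
  refine h1.trans ?_
  rw [Finset.card_erase_of_mem (mem_univ i), Finset.card_univ, Fintype.card_fin]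
  have := H.Lam1
  push_cast
  linarith

/-- the signed test is at most `3 Lam` -/
theorem gO2_le {dg : ℕ → X → ℝ} {Lam : ℝ} (H : D.Hyp dg prr al T Lam) {N : Finset (Fin 3) → ℝ}
    (R : Run h N (SS1 (Fin 3)) (AdmDep D) v) (hN : ∀ l : Fin 3, 0 < N (univ.erase l)) {K : ℝ} (hK : 0 ≤ K) {q : ℕ}
    (hq : q < 5 * T) {w : Om W X β} (hw : tb.Ps.p w ≠ 0) : gO2 h tb v i K q w ≤ 3 * Lam := by
  have ht : q / 5 ≤ T := by omega
  have hp : (D.P h (q / 5)).p (tb.pt (q / 5) w) ≠ 0 := (pul_pt h tb ht).ne hw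
  exact max_le (psi2_le H R hN ht (show 5 * (q / 5) ≤ q by omega) i hp) (by linarith [H.Lam1])

/-- **A4 OF THE FRAMES TWO** : the released sums of `TwoSplit` -/
theorem relS2_le {dg : ℕ → X → ℝ} {Lam : ℝ} (H : D.Hyp dg prr al T Lam) {N : Finset (Fin 3) → ℝ}
    (R : Run h N (SS1 (Fin 3)) (AdmDep D) v) (hN : ∀ l : Fin 3, 0 < N (univ.erase l))
    (hb : ∀ k q, Pos (bO k q)) (hz : ∀ k q, Pos (zO k q))
    (hA1 : ∀ t < T, ∀ u, A false t u → ¬ HV h v t u) (hA3 : ∀ t < T, ∀ u, A true t u → HV h v t u) {K : ℝ}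
    (hK : 0 ≤ K) :
    ∑ t ∈ range T, ∑ b, RelS2 h v c B i rk (fun k q => lft (bO k q)) (fun k q => lft (zO k q)) A K b t ≤
      ∑ k ∈ rk, ∑ q ∈ range (5 * T), tb.Ps.E (fun w =>
          rlB2 h tb v c B i rk A bO zO gM k q w * gO2 h tb v i K q w) +
        3 * Lam * ∑ k ∈ rk, ∑ q ∈ range (5 * T), tb.Ps.Pr (thO2 h tb v c B i rk A bO zO gM k q) := by
  rw [relS2_tr hb hz hA1 hA3 K]
  refine (Finset.sum_le_sum fun q hq => rsO2_le (gM := gM) fun w hw =>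
    gO2_le H R hN hK (Finset.mem_range.1 hq) hw).trans (le_of_eq ?_)
  rw [Finset.sum_add_distrib, ← Finset.mul_sum, Finset.sum_comm,
    Finset.sum_comm (s := range (5 * T)) (t := rk)
      (f := fun q k => tb.Ps.Pr (thO2 h tb v c B i rk A bO zO gM k q))]

/-! ### the steps of one kind -/

variable (tb v i) in
/-- the private removals of the frame: the vertex `i` only -/
def rp2 (j : Fin 3) (q : ℕ) (w : Om W X β) : Prop := j = i ∧ rpO tb v i q w

variable (h tb v c B i rk A gM) in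
/-- the steps of the kind `k` -/
def stps2 (K : ℝ) (k : Fin 10) : Stps (Om := Om W X β) :=
  ⟨rp2 tb v i, ruO tb v, gdO2 h tb v c B i rk A gM k, gO2 h tb v i K⟩

/-- the released weight is `rels` -/
theorem rlB2_rels (M : US (Om W X β)) (Q : Kd (Om W X β)) (k : Fin 10) (K : ℝ) (hk : Q.Vk = {i})
    (hb : ∀ q w, bO k q w ↔ bet M Q i q w) (hzO : ∀ q w, zO k q w ↔ Z0 M Q q w) (q : ℕ) (w : Om W X β) :
    rlB2 h tb v c B i rk A bO zO gM k q w = rels M Q (stps2 h tb v c B i rk A gM K k) q w := by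
  classical
  unfold rlB2 rels
  rw [hk, Finset.sum_singleton]
  congr 1
  · congr 1
    exact propext ⟨fun hh => ⟨hh.1, ⟨rfl, hh.2.1⟩, (hb q w).1 hh.2.2⟩, fun hh => ⟨hh.1, hh.2.1.2, (hb q w).2 hh.2.2⟩⟩
  · congr 1
    refine propext ⟨fun hh => ⟨hh.1, hh.2.1, ?_⟩, fun hh => ⟨hh.1, hh.2.1, ?_⟩⟩
    · rcases hh.2.2 with h1 | h1
      · exact Or.inl ((hzO q w).1 h1)
      · exact Or.inr ⟨i, by rw [hk]; exact Finset.mem_singleton_self i, (hb q w).1 h1⟩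
    · rcases hh.2.2 with h1 | ⟨j, hj, h1⟩
      · exact Or.inl ((hzO q w).2 h1)
      · rw [hk, Finset.mem_singleton] at hj
        subst hj
        exact Or.inr ((hb q w).2 h1)

/-! ### the alive sets of the run -/

section al

variable (v) (p : AP) (Gd : ℕ → Pt (Fin 3) X β φ → Prop) (st sp : ℕ → Pt (Fin 3) X β φ → Option (Fin 3))

theorem aV_f (i : Fin 3) (t : ℕ) (u : Pt (Fin 3) X β φ) (hu : TP.aV h v p Gd st sp i false t u) : ¬ HV h v t u :=
  hu.1.1.2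

theorem aV_t (i : Fin 3) (t : ℕ) (u : Pt (Fin 3) X β φ) (hu : TP.aV h v p Gd st sp i true t u) : HV h v t u := by
  exact hu.1.1.2

end al

/-! ### the instance of the run -/

variable (h tb)
variable (hv : Codes D v) {d1 kb d0 k0 p1 z : ℝ} (hd1 : 0 < d1) (hd11 : d1 ≤ 1) (hkb : 0 < kb) (hd0 : 0 < d0)
  (hd01 : d0 ≤ 1) (hk0 : 0 < k0) (hp1 : 0 < p1) (hz : 0 < z)

section fin

variable (Qk : Fin 10 → Kd (Om W X β))

/-- the bits of the vertex `i` -/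
def bO2 (M : US (Om W X β)) (i : Fin 3) (k : Fin 10) (q : ℕ) (w : Om W X β) : Prop := bet M (Qk k) i q w

/-- the bits of the zones -/
def zO2 (M : US (Om W X β)) (k : Fin 10) (q : ℕ) (w : Om W X β) : Prop := Z0 M (Qk k) q w

theorem zO2_pos (k : Fin 10) (q : ℕ) : Pos (zO2 Qk (USi tb hv d1 kb d0 k0 p1 z hd1 hd11 hkb hd0 hd01 hk0 hp1 hz) k q) :=
  pos_of (Z0_sgt tb v (hv := hv) (hd1 := hd1) (hd11 := hd11) (hkb := hkb) (hd0 := hd0) (hd01 := hd01)
    (hk0 := hk0) (hp1 := hp1) (hz := hz) (Q := Qk k) q)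

theorem bO2_pos (k : Fin 10) (q : ℕ) :
    Pos (bO2 Qk (USi tb hv d1 kb d0 k0 p1 z hd1 hd11 hkb hd0 hd01 hk0 hp1 hz) i k q) :=
  pos_of (bet_sgt tb v (hv := hv) (hd1 := hd1) (hd11 := hd11) (hkb := hkb) (hd0 := hd0) (hd01 := hd01)
    (hk0 := hk0) (hp1 := hp1) (hz := hz) (Q := Qk k) i q)

/-- **THE RELEASED SUMS OF `TwoSplit` IN TERMS OF `rels`** -/
theorem relS2_unm {dg : ℕ → X → ℝ} {Lam : ℝ} (H : D.Hyp dg prr al T Lam) {N : Finset (Fin 3) → ℝ}
    (R : Run h N (SS1 (Fin 3)) (AdmDep D) v) (hN : ∀ l : Fin 3, 0 < N (univ.erase l)) (hVk : ∀ k, (Qk k).Vk = {i})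
    (hA1 : ∀ t < T, ∀ u, A false t u → ¬ HV h v t u) (hA3 : ∀ t < T, ∀ u, A true t u → HV h v t u) {K : ℝ}
    (hK : 0 ≤ K) :
    ∑ t ∈ range T, ∑ b, RelS2 h v c B i rk
        (fun k q => lft (bO2 Qk (USi tb hv d1 kb d0 k0 p1 z hd1 hd11 hkb hd0 hd01 hk0 hp1 hz) i k q))
        (fun k q => lft (zO2 Qk (USi tb hv d1 kb d0 k0 p1 z hd1 hd11 hkb hd0 hd01 hk0 hp1 hz) k q)) A K b t ≤
      ∑ k ∈ rk, ∑ q ∈ range (5 * T), tb.Ps.E (fun w =>
          rels (USi tb hv d1 kb d0 k0 p1 z hd1 hd11 hkb hd0 hd01 hk0 hp1 hz) (Qk k)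
            (stps2 h tb v c B i rk A gM K k) q w * gO2 h tb v i K q w) +
        3 * Lam * ∑ k ∈ rk, ∑ q ∈ range (5 * T), tb.Ps.Pr (thO2 h tb v c B i rk A
          (bO2 Qk (USi tb hv d1 kb d0 k0 p1 z hd1 hd11 hkb hd0 hd01 hk0 hp1 hz) i)
          (zO2 Qk (USi tb hv d1 kb d0 k0 p1 z hd1 hd11 hkb hd0 hd01 hk0 hp1 hz)) gM k q) := by
  refine (relS2_le (h := h) (tb := tb) (c := c) (B := B) (i := i) (rk := rk) (A := A) (gM := gM) H R hN
    (bO2_pos tb hv hd1 hd11 hkb hd0 hd01 hk0 hp1 hz Qk) (zO2_pos tb hv hd1 hd11 hkb hd0 hd01 hk0 hp1 hz Qk) hA1 hA3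
    hK).trans (le_of_eq ?_)
  congr 1
  refine Finset.sum_congr rfl fun k _ => Finset.sum_congr rfl fun q _ => tb.Ps.E_congr fun w _ => ?_
  rw [rlB2_rels (h := h) (tb := tb) (USi tb hv d1 kb d0 k0 p1 z hd1 hd11 hkb hd0 hd01 hk0 hp1 hz) (Qk k) k K (hVk k)
    (fun _ _ => Iff.rfl) (fun _ _ => Iff.rfl) q w]

end fin

/-! ### the clock fields -/

section clk

variable {Om' : Type} [Fintype Om'] (M : MS Om')

theorem tau_lt2 {i : Fin 3} {q : ℕ} {w : Om'} (h : lt5 M M.NP q w ∨ lt5 M (CN M i) q w) :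
    MV.tau M i (q + 1) w = q + 1 := by
  refine stg_pos ?_
  unfold Cx
  rw [Nat.add_sub_cancel]
  exact h.elim Or.inl fun h => Or.inr (Or.inl h)

theorem nu_lt2 {q : ℕ} {w : Om'} (h : lt5 M M.NP q w) : MV.nu M (q + 1) w = q + 1 := by
  refine stg_pos ?_
  unfold C0
  rw [Nat.add_sub_cancel]
  exact Or.inl h

theorem tauS_lt2 {i : Fin 3} {q : ℕ} {w : Om'} (h : lt5 M M.NP q w ∨ lt5 M (CN M i) q w) :
    MV.tauS M i (q + 1) w = q + 1 := stg_pos (Or.inl (tau_lt2 M h))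

end clk

/-- a public removal is a light public value -/
theorem lt_ru2 {q : ℕ} {w : Om W X β} (hr : ruO tb v q w) :
    lt5 (USi tb hv d1 kb d0 k0 p1 z hd1 hd11 hkb hd0 hd01 hk0 hp1 hz).toMS
      (USi tb hv d1 kb d0 k0 p1 z hd1 hd11 hkb hd0 hd01 hk0 hp1 hz).NP q w :=
  ⟨by show q % 5 ≠ 0; rw [hr.1]; omega, hr.2⟩

/-- a private removal is a light value of the class of the vertex -/
theorem lt_rp2 {i : Fin 3} {q : ℕ} {w : Om W X β} (hr : rpO tb v i q w) :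
    lt5 (USi tb hv d1 kb d0 k0 p1 z hd1 hd11 hkb hd0 hd01 hk0 hp1 hz).toMS
      (CN (USi tb hv d1 kb d0 k0 p1 z hd1 hd11 hkb hd0 hd01 hk0 hp1 hz).toMS i) q w :=
  ⟨by show q % 5 ≠ 0; rw [hr.1]; omega, hr.2.1⟩

/-- **`StpOK` OF THE FRAMES TWO FROM `gdv`, `gdp`, `gd0`, `gdp0`, `gda`, `lst`** -/
theorem stpOK2 {Q : Kd (Om W X β)} {k : Fin 10} {K δ : ℝ}
    (endp : ∀ w, tb.Ps.p w ≠ 0 → ∀ j q, rp2 tb v i j q w →
      tv (USi tb hv d1 kb d0 k0 p1 z hd1 hd11 hkb hd0 hd01 hk0 hp1 hz) j (q + 1) w = q + 1)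
    (endu : ∀ w, tb.Ps.p w ≠ 0 → ∀ j q, ruO tb v q w →
      tv (USi tb hv d1 kb d0 k0 p1 z hd1 hd11 hkb hd0 hd01 hk0 hp1 hz) j (q + 1) w = q + 1)
    (gdv : ∀ w, tb.Ps.p w ≠ 0 → ∀ j ∈ Q.Vk, ∀ q, gdO2 h tb v c B i rk A gM k q w → (rp2 tb v i j q w ∨ ruO tb v q w) →
      (bet (USi tb hv d1 kb d0 k0 p1 z hd1 hd11 hkb hd0 hd01 hk0 hp1 hz) Q j q w ∨
        Z0 (USi tb hv d1 kb d0 k0 p1 z hd1 hd11 hkb hd0 hd01 hk0 hp1 hz) Q q w) →
      Q.kd (some j) (tv (USi tb hv d1 kb d0 k0 p1 z hd1 hd11 hkb hd0 hd01 hk0 hp1 hz) j q w) w)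
    (gdp : ∀ w, tb.Ps.p w ≠ 0 → ∀ j ∈ Q.Vk, ∀ q, gdO2 h tb v c B i rk A gM k q w → (rp2 tb v i j q w ∨ ruO tb v q w) →
      bet (USi tb hv d1 kb d0 k0 p1 z hd1 hd11 hkb hd0 hd01 hk0 hp1 hz) Q j q w →
      gO2 h tb v i K q w ≤ Q.psi (some j) (tv (USi tb hv d1 kb d0 k0 p1 z hd1 hd11 hkb hd0 hd01 hk0 hp1 hz) j q w) w + δ)
    (gd0 : ∀ w, tb.Ps.p w ≠ 0 → ∀ q, gdO2 h tb v c B i rk A gM k q w → ruO tb v q w →
      Z0 (USi tb hv d1 kb d0 k0 p1 z hd1 hd11 hkb hd0 hd01 hk0 hp1 hz) Q q w →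
      Q.kd Option.none (MV.nu (USi tb hv d1 kb d0 k0 p1 z hd1 hd11 hkb hd0 hd01 hk0 hp1 hz).toMS q w) w)
    (gdp0 : ∀ w, tb.Ps.p w ≠ 0 → ∀ q, gdO2 h tb v c B i rk A gM k q w → ruO tb v q w →
      Z0 (USi tb hv d1 kb d0 k0 p1 z hd1 hd11 hkb hd0 hd01 hk0 hp1 hz) Q q w →
      gO2 h tb v i K q w ≤
        Q.psi Option.none (MV.nu (USi tb hv d1 kb d0 k0 p1 z hd1 hd11 hkb hd0 hd01 hk0 hp1 hz).toMS q w) w + δ)
    (gda : ∀ w, tb.Ps.p w ≠ 0 → ∀ q, gdO2 h tb v c B i rk A gM k q w →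
      ((∃ j, rp2 tb v i j q w) ∨ ruO tb v q w) → Q.al q w)
    (lst : ∀ w, tb.Ps.p w ≠ 0 → ∀ j ∈ Q.Vk, ∀ q, gdO2 h tb v c B i rk A gM k q w → ruO tb v q w →
      tv (USi tb hv d1 kb d0 k0 p1 z hd1 hd11 hkb hd0 hd01 hk0 hp1 hz) j q w ≤
        MV.nu (USi tb hv d1 kb d0 k0 p1 z hd1 hd11 hkb hd0 hd01 hk0 hp1 hz).toMS q w) :
    StpOK (USi tb hv d1 kb d0 k0 p1 z hd1 hd11 hkb hd0 hd01 hk0 hp1 hz) Q (stps2 h tb v c B i rk A gM K k) δ where
  endp := endp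
  endu := endu
  end0 := fun w _ q hr => nu_lt2 _ (lt_ru2 tb hv hd1 hd11 hkb hd0 hd01 hk0 hp1 hz hr)
  disj := fun w _ j q hr => rp_ru2 hr.2
  gdv := gdv
  gdp := gdp
  gd0 := gd0
  gdp0 := gdp0
  gda := gda
  exz := fun _ _ _ _ _ _ _ _ _ _ _ h => h
  lst := lst

/-- the ends of the lives at the removals of the frame, for the clock `tauS` -/
theorem endp2 {w : Om W X β} {j : Fin 3} {q : ℕ} (hr : rp2 tb v i j q w) :
    tv (USi tb hv d1 kb d0 k0 p1 z hd1 hd11 hkb hd0 hd01 hk0 hp1 hz) j (q + 1) w = q + 1 := by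
  obtain ⟨rfl, hr⟩ := hr
  exact tauS_lt2 _ (Or.inr (lt_rp2 tb hv hd1 hd11 hkb hd0 hd01 hk0 hp1 hz hr))

theorem endu2 {w : Om W X β} (j : Fin 3) {q : ℕ} (hr : ruO tb v q w) :
    tv (USi tb hv d1 kb d0 k0 p1 z hd1 hd11 hkb hd0 hd01 hk0 hp1 hz) j (q + 1) w = q + 1 :=
  tauS_lt2 _ (Or.inl (lt_ru2 tb hv hd1 hd11 hkb hd0 hd01 hk0 hp1 hz hr))

/-! ### number of the removals of the frame -/

/-- the removals of the frame are rare: once per light value -/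
theorem rem_sum2 (i : Fin 3) (T' : ℕ) : ∑ q ∈ range T', tb.Ps.Pr (fun w => ruO tb v q w ∨ rpO tb v i q w) ≤
    NL (USi tb hv d1 kb d0 k0 p1 z hd1 hd11 hkb hd0 hd01 hk0 hp1 hz).toMS T' +
      NLx (USi tb hv d1 kb d0 k0 p1 z hd1 hd11 hkb hd0 hd01 hk0 hp1 hz).toMS i T' := by
  unfold NL NLx
  rw [← Finset.sum_add_distrib]
  refine Finset.sum_le_sum fun q _ => (tb.Ps.Pr_or_le _ _).trans (add_le_add
    (tb.Ps.Pr_mono fun w _ hh => lt_ru2 tb hv hd1 hd11 hkb hd0 hd01 hk0 hp1 hz hh)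
    (tb.Ps.Pr_mono fun w _ hh => lt_rp2 tb hv hd1 hd11 hkb hd0 hd01 hk0 hp1 hz hh))

end

end Pool.Agent.GMH.TRF
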