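import Pool.Agent.GMH.CtxD
import Pool.Agent.GMH.MVT
import Pool.Agent.GMH.RZ11
import Pool.Agent.GMH.StpT2

/-!
# GMH/AlvT (helper45): the alive points of the steps are alive at all states before (`Alv` of `GMH/DynF`), alive letters (`Alz`)

* `AQ_mid` : `AQ` at the states `5t+2`, `5t+3`, `5t+4` is the same; `alv_aT` : alive at the joint step `1` (at the private step
  `5`) gives `Alv` at the state `5t+1` (at `5t+4`); `alv_q` : the same for the substep of a removal;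
* `alz_aT` : alive letters at every half step before the step, `max X0 X1`;
* `aT_aO`, `aT_aO2` : the points of the families FULL, TWO at a removal; `alv_aO`, `alv_aO2`, `alz_aO`, `alz_aO2`;
* `sts_aO2` : the vertex `i` has status at the removals of TWO; `nst_pub`, `nst_prv` : status at the removals of FULL.
-/

set_option autoImplicit false
set_option linter.unusedSectionVars false

namespace Pool.Agent.GMH.MVT

open Finset Pool.Agent.PWZ Pool.Agent.M3 Pool.Agent.GM Pool.Agent.GM.Harm Pool.Agent.GMH Pool.Agent.GMH.NZ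
open Pool.Agent.GMH.V3 Pool.Agent.GMH.TP Pool.Agent.GMH.TD Pool.Agent.GMH.Dy Pool.Agent.GMH.MV Pool.Agent.GMH.MVI
open Pool.Agent.GMH.UV Pool.Agent.GMH.KF Pool.Agent.GMH.TRF

noncomputable section

variable {X β γ φ : Type} [Fintype X] [Fintype β] [Fintype φ] [Nonempty X] [Nonempty β]
variable {D : HD (Fin 3) X β γ φ} {al : ℝ} {h : D.Thick al} {prr : ℕ → Fin 3 → φ → φ} {T : ℕ} {W : Type} [Fintype W]
variable (tb : Tab D prr T W) {v : ℕ → Finset (Fin 3) → X → (Fin 3 → β) → Pt (Fin 3) X β φ}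

theorem AQ_mid (p : AP) (t : ℕ) {j : ℕ} (h2 : 2 ≤ j) (h4 : j ≤ 4) (w : Pt (Fin 3) X β φ) :
    AQ h v p (5 * t + j) w ↔ AQ h v p (5 * t + 2) w := by
  have e1 : (5 * t + j) / 5 = t := by omega
  have e2 : (5 * t + 2) / 5 = t := by omega
  unfold AQ ssQ spQ
  rw [e1, e2, NPq_mid t h2 h4]
  simp only [XLq_mid (φ := φ) (v := v) t h2 h4]

/-- **alive at a step, alive at all states before** -/
theorem alv_aT {p : AP} {Gd : ℕ → Pt (Fin 3) X β φ → Prop} {t : ℕ} (ht : t ≤ T) {s : Fin 6} (hs : s = 1 ∨ s = 5)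
    {w : Om W X β} (hw : tb.Ps.p w ≠ 0) (ha : aT h v p Gd s t (tb.pt t w)) : Alv h v tb p (qs s t) w := by
  have hA : Ar h v p (2 * t + 1) (tb.pt t w) := by
    rcases hs with rfl | rfl
    · exact ha.1.1
    · exact ha.1.1
  have hA' : ∀ r ≤ 2 * t + 1, ∀ t', Ar h v p r (tb.pt t' w) := fun r hr t' =>
    (Ar_lab h p r _ _ _ _).1 (Ar_mono h p hr hA)
  have hsu : ∀ t ≤ T, (D.P h t).p (tb.pt t w) ≠ 0 := fun t ht => (pul_pt h tb ht).ne hw
  intro q hq
  obtain ⟨t', j, hj, rfl⟩ : ∃ t' j, j < 5 ∧ q = 5 * t' + j := ⟨q / 5, q % 5, Nat.mod_lt _ (by norm_num), by omega⟩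
  have e1 : (5 * t' + j) / 5 = t' := by omega
  rw [e1]
  have hle : 5 * t' + j ≤ 5 * t + 4 := by
    rcases hs with rfl | rfl
    · have h1 : qs 1 t = 5 * t + 1 := rfl
      omega
    · have h1 : qs 5 t = 5 * t + 4 := rfl
      omega
  rcases Nat.lt_or_ge j 2 with h1 | h1
  · rcases Nat.eq_zero_or_pos j with h0 | h0
    · subst h0
      exact AQ_0 h p (hA' _ (by omega) t')
    · obtain rfl : j = 1 := by omega
      exact AQ_1 h p (hA' _ (by omega) t')
  · rcases Nat.lt_or_ge t' t with h2 | h2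
    · exact AQ_of h p h1 (by omega) (hsu t' (by omega)) (hA' _ (by omega) t')
    · obtain rfl : t' = t := by omega
      rcases hs with rfl | rfl
      · have h3 : qs 1 t' = 5 * t' + 1 := rfl
        omega
      · have h3 : AQ h v p (5 * t' + 4) (tb.pt t' w) := ha.2
        exact (AQ_mid p t' h1 (by omega) _).2 ((AQ_mid p t' (by omega) le_rfl _).1 h3)

/-- **alive letters before a step** -/
theorem alz_aT {p : AP} {Gd : ℕ → Pt (Fin 3) X β φ → Prop} {t : ℕ} {s : Fin 6} (hs : s = 1 ∨ s = 5)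
    {w : Om W X β} (hw : tb.Ps.p w ≠ 0) (ha : aT h v p Gd s t (tb.pt t w)) {r : ℕ} (hr : r ≤ 2 * t + 1) :
    RZ.Alz h v (max p.X0 p.X1) r (tb.pt 0 w) := by
  have hA : Ar h v p (2 * t + 1) (tb.pt t w) := by
    rcases hs with rfl | rfl
    · exact ha.1.1
    · exact ha.1.1
  exact RZ.alz_of_Ar hr ((pul_pt h tb (Nat.zero_le T)).ne hw) rfl rfl hA

/-- the half step of a state -/
theorem rho_le_of {q t : ℕ} (hq : q ≤ 5 * t + 1) : RZ.rho q ≤ 2 * t + 1 := by
  unfold RZ.rho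
  omega

/-! ### the points of the families at a removal -/

variable {p : AP} {Gd : ℕ → Pt (Fin 3) X β φ → Prop} {st sp : ℕ → Pt (Fin 3) X β φ → Option (Fin 3)}

/-- the step of a removal -/
def sR (q : ℕ) : Fin 6 := if q % 5 = 1 then 1 else 5

theorem sR_or (q : ℕ) : sR q = 1 ∨ sR q = 5 := by
  unfold sR
  by_cases h1 : q % 5 = 1
  · rw [if_pos h1]
    exact Or.inl rfl
  · rw [if_neg h1]
    exact Or.inr rfl

theorem qs_sR {q : ℕ} (hq : q % 5 = 1 ∨ q % 5 = 4) : qs (sR q) (q / 5) = q := by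
  rcases hq with h1 | h1
  · unfold sR
    rw [if_pos h1]
    show 5 * (q / 5) + 1 = q
    omega
  · unfold sR
    rw [if_neg (by omega)]
    show 5 * (q / 5) + 4 = q
    omega

theorem rem_mod {i : Fin 3} {q : ℕ} {w : Om W X β} (hr : rpO tb v i q w ∨ ruO tb v q w) : q % 5 = 1 ∨ q % 5 = 4 :=
  hr.elim (fun a => Or.inr a.1) fun a => Or.inl a.1

/-- a point of TWO is alive in its step -/
theorem aT_aO2 {i : Fin 3} {q : ℕ} {w : Om W X β} (ha : aO2 tb (TP.aV h v p Gd st sp i) q w) :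
    aT h v p Gd (sR q) (q / 5) (tb.pt (q / 5) w) := by
  have h1 : aT h v p Gd (s2 (b2 q)) (q / 5) (tb.pt (q / 5) w) := ha.1
  have e1 : s2 (b2 q) = sR q := by
    unfold b2 sR s2
    by_cases h1 : q % 5 = 1
    · rw [if_pos h1, if_pos h1]
      rfl
    · rw [if_neg h1, if_neg h1]
      rfl
  rwa [e1] at h1

/-- a point of FULL at a removal is alive in its step -/
theorem aT_aO {q : ℕ} (hq : q % 5 = 1 ∨ q % 5 = 4) {w : Om W X β} (ha : aO tb (TP.aN h v p Gd st sp) q w) :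
    aT h v p Gd (sR q) (q / 5) (tb.pt (q / 5) w) := by
  have h1 : aT h v p Gd (sO q) (q / 5) (tb.pt (q / 5) w) := ha.1
  have e1 : sO q = sR q := by
    rcases hq with h1 | h1
    · unfold sO sR
      rw [if_pos h1, if_pos h1]
    · unfold sO sR
      rw [if_neg (by omega), if_neg (by omega), if_neg (by omega), if_pos h1, if_neg (by omega)]
  rwa [e1] at h1

theorem alv_sR {q : ℕ} (hT : q / 5 ≤ T) (hq : q % 5 = 1 ∨ q % 5 = 4) {w : Om W X β} (hw : tb.Ps.p w ≠ 0)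
    (ha : aT h v p Gd (sR q) (q / 5) (tb.pt (q / 5) w)) : Alv h v tb p q w := by
  have h1 := alv_aT tb hT (sR_or q) hw ha
  rwa [qs_sR hq] at h1

/-- **`Alv` AT THE REMOVALS, TWO** -/
theorem alv_aO2 {i : Fin 3} {q : ℕ} (hT : q / 5 ≤ T) {w : Om W X β} (hw : tb.Ps.p w ≠ 0)
    (ha : aO2 tb (TP.aV h v p Gd st sp i) q w) (hr : rpO tb v i q w ∨ ruO tb v q w) : Alv h v tb p q w :=
  alv_sR tb hT (rem_mod tb hr) hw (aT_aO2 tb ha)

/-- **`Alv` AT THE REMOVALS, FULL** -/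
theorem alv_aO {i : Fin 3} {q : ℕ} (hT : q / 5 ≤ T) {w : Om W X β} (hw : tb.Ps.p w ≠ 0)
    (ha : aO tb (TP.aN h v p Gd st sp) q w) (hr : rpO tb v i q w ∨ ruO tb v q w) : Alv h v tb p q w :=
  alv_sR tb hT (rem_mod tb hr) hw (aT_aO tb (rem_mod tb hr) ha)

/-- alive letters at every start before a public removal -/
theorem alz_sR {q : ℕ} (hq : q % 5 = 1) {w : Om W X β} (hw : tb.Ps.p w ≠ 0)
    (ha : aT h v p Gd (sR q) (q / 5) (tb.pt (q / 5) w)) {ν : ℕ} (hν : ν ≤ q) :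
    RZ.Alz h v (max p.X0 p.X1) (RZ.rho ν) (tb.pt 0 w) :=
  alz_aT tb (sR_or q) hw ha (rho_le_of (by omega))

/-! ### the status at the removals -/

section status

variable {d1 kb d0 k0 p1 z : ℝ} (hd1 : 0 < d1) (hd11 : d1 ≤ 1) (hkb : 0 < kb) (hd0 : 0 < d0) (hd01 : d0 ≤ 1) (hk0 : 0 < k0)
  (hp1 : 0 < p1) (hz : 0 < z)

/-- **TWO : the vertex `i` has status at every removal** -/
theorem sts_aO2 {i : Fin 3} {q : ℕ} (hT : q / 5 ≤ T) {w : Om W X β}
    (ha : aO2 tb (TP.aV h v p Gd (stP (MSi tb (v := v) d1 kb d0 k0 p1 z hd1 hd11 hkb hd0 hd01 hk0 hp1 hz))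
      (spP h (MSi tb (v := v) d1 kb d0 k0 p1 z hd1 hd11 hkb hd0 hd01 hk0 hp1 hz) v) i) q w)
    (hr : rpO tb v i q w ∨ ruO tb v q w) :
    sts (MSi tb (v := v) d1 kb d0 k0 p1 z hd1 hd11 hkb hd0 hd01 hk0 hp1 hz) i q w := by
  unfold aO2 at ha
  rcases hr with g | g
  · have e1 : q % 5 = 4 := g.1
    have e2 : b2 q = true := by unfold b2; rw [if_neg (by omega)]
    rw [e2] at ha
    have e3 := (aV_true tb hd1 hd11 hkb hd0 hd01 hk0 hp1 hz p Gd i hT ha).1
    rwa [show 5 * (q / 5) + 4 = q by omega] at e3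
  · have e1 : q % 5 = 1 := g.1
    have e2 : b2 q = false := by unfold b2; rw [if_pos e1]
    rw [e2] at ha
    have e3 := aV_false tb hd1 hd11 hkb hd0 hd01 hk0 hp1 hz p Gd i (q / 5) (q / 5) ha
    rwa [show 5 * (q / 5) + 1 = q by omega] at e3

/-- **FULL, public removal : no vertex has status** -/
theorem nst_pub {q : ℕ} {w : Om W X β}
    (ha : aO tb (TP.aN h v p Gd (stP (MSi tb (v := v) d1 kb d0 k0 p1 z hd1 hd11 hkb hd0 hd01 hk0 hp1 hz))
      (spP h (MSi tb (v := v) d1 kb d0 k0 p1 z hd1 hd11 hkb hd0 hd01 hk0 hp1 hz) v)) q w)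
    (hr : ruO tb v q w) (i : Fin 3) : ¬ sts (MSi tb (v := v) d1 kb d0 k0 p1 z hd1 hd11 hkb hd0 hd01 hk0 hp1 hz) i q w := by
  have e1 : q % 5 = 1 := hr.1
  have e2 : sO q = 1 := by unfold sO; rw [if_pos e1]
  unfold aO at ha
  rw [e2] at ha
  have e3 := aN_1 tb hd1 hd11 hkb hd0 hd01 hk0 hp1 hz p Gd (q / 5) (q / 5) ha i
  rwa [show 5 * (q / 5) + 1 = q by omega] at e3

/-- **FULL, private removal : the vertex has no status** -/
theorem nst_prv {i : Fin 3} {q : ℕ} (hT : q / 5 ≤ T) {w : Om W X β}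
    (ha : aO tb (TP.aN h v p Gd (stP (MSi tb (v := v) d1 kb d0 k0 p1 z hd1 hd11 hkb hd0 hd01 hk0 hp1 hz))
      (spP h (MSi tb (v := v) d1 kb d0 k0 p1 z hd1 hd11 hkb hd0 hd01 hk0 hp1 hz) v)) q w)
    (hr : rpO tb v i q w) : ¬ sts (MSi tb (v := v) d1 kb d0 k0 p1 z hd1 hd11 hkb hd0 hd01 hk0 hp1 hz) i q w := by
  have e1 : q % 5 = 4 := hr.1
  have e2 : sO q = 5 := by
    unfold sO
    rw [if_neg (by omega), if_neg (by omega), if_neg (by omega), if_pos e1]
  have hl : lpO tb v i (5 * (q / 5) + 4) w := by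
    have e4 : 5 * (q / 5) + 4 = q := by omega
    rw [e4]
    exact hr.2.1
  unfold aO at ha
  rw [e2] at ha
  have e3 := aN_5 tb hd1 hd11 hkb hd0 hd01 hk0 hp1 hz p Gd hT ha i hl
  rwa [show 5 * (q / 5) + 4 = q by omega] at e3

end status

end

end Pool.Agent.GMH.MVT
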