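import Pool.Agent.GM.Dep
import Pool.Agent.M3.FP

/-!
# GMH/Av (helper39): averages over some of the coordinates of a product space

`Wts ι Pt` : product weights on `ι → Pt`;  `μ.Av s f x` : average of `f` over the coordinates in `s`, the other
coordinates are those of `x` (conditional expectation given `x i`, `i ∉ s`).
-/

set_option autoImplicit false
set_option linter.unusedSectionVars false

namespace Pool.Agent.GMH

open Finset Pool.Agent.PWZ Pool.Agent.GM

noncomputable section

variable {ι Pt : Type} [Fintype ι] [DecidableEq ι] [Fintype Pt]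

/-- product weights -/
structure Wts (ι Pt : Type) [Fintype Pt] where
  w : ι → Pt → ℝ
  nn : ∀ i y, 0 ≤ w i y
  one : ∀ i, ∑ y, w i y = 1

namespace Wts

variable (μ : Wts ι Pt)

/-- the weight of `z` in the average over `s` at the point `x` -/
def kw (s : Finset ι) (x z : ι → Pt) : ℝ := ∏ i, if i ∈ s then μ.w i (z i) else ind (z i = x i)

/-- average over the coordinates in `s` -/
def Av (s : Finset ι) (f : (ι → Pt) → ℝ) (x : ι → Pt) : ℝ := ∑ z, μ.kw s x z * f z

theorem kw_nn (s : Finset ι) (x z : ι → Pt) : 0 ≤ μ.kw s x z := by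
  refine Finset.prod_nonneg fun i _ => ?_
  split_ifs
  · exact μ.nn _ _
  · exact ind_nonneg _

theorem kw_sum (s : Finset ι) (x : ι → Pt) : ∑ z, μ.kw s x z = 1 := by
  unfold kw
  have h := Finset.prod_univ_sum (fun _ : ι => (univ : Finset Pt))
    (fun i y => if i ∈ s then μ.w i y else ind (y = x i))
  rw [Fintype.piFinset_univ] at h
  rw [← h]
  refine Finset.prod_eq_one fun i _ => ?_
  split_ifs
  · exact μ.one i
  · rw [Finset.sum_eq_single (x i)]
    · exact ind_of rfl
    · intro y _ hy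
      exact ind_not hy
    · intro h
      exact absurd (mem_univ _) h

theorem kw_ne {s : Finset ι} {x z : ι → Pt} (h : μ.kw s x z ≠ 0) : ∀ i ∉ s, z i = x i := by
  intro i hi
  by_contra hne
  apply h
  unfold kw
  refine Finset.prod_eq_zero (mem_univ i) ?_
  rw [if_neg hi, ind_not hne]

theorem kw_congr {s : Finset ι} {x y : ι → Pt} (h : ∀ i ∉ s, x i = y i) (z : ι → Pt) :
    μ.kw s x z = μ.kw s y z := by
  unfold kw
  refine Finset.prod_congr rfl fun i _ => ?_
  split_ifs with h1
  · rfl
  · rw [h i h1]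

theorem Av_mono (s : Finset ι) {f g : (ι → Pt) → ℝ} (x : ι → Pt)
    (h : ∀ z, (∀ i ∉ s, z i = x i) → f z ≤ g z) : μ.Av s f x ≤ μ.Av s g x := by
  unfold Av
  refine Finset.sum_le_sum fun z _ => ?_
  by_cases h1 : μ.kw s x z = 0
  · rw [h1]; simp
  · exact mul_le_mul_of_nonneg_left (h z (μ.kw_ne h1)) (μ.kw_nn s x z)

theorem Av_congr (s : Finset ι) {f g : (ι → Pt) → ℝ} (x : ι → Pt)
    (h : ∀ z, (∀ i ∉ s, z i = x i) → f z = g z) : μ.Av s f x = μ.Av s g x :=
  le_antisymm (μ.Av_mono s x fun z hz => le_of_eq (h z hz)) (μ.Av_mono s x fun z hz => ge_of_eq (h z hz))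

theorem Av_const (s : Finset ι) (c : ℝ) (x : ι → Pt) : μ.Av s (fun _ => c) x = c := by
  unfold Av
  rw [← Finset.sum_mul, μ.kw_sum, one_mul]

theorem Av_add (s : Finset ι) (f g : (ι → Pt) → ℝ) (x : ι → Pt) :
    μ.Av s (fun z => f z + g z) x = μ.Av s f x + μ.Av s g x := by
  unfold Av
  rw [← Finset.sum_add_distrib]
  exact Finset.sum_congr rfl fun z _ => by ring

theorem Av_sub (s : Finset ι) (f g : (ι → Pt) → ℝ) (x : ι → Pt) :
    μ.Av s (fun z => f z - g z) x = μ.Av s f x - μ.Av s g x := by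
  unfold Av
  rw [← Finset.sum_sub_distrib]
  exact Finset.sum_congr rfl fun z _ => by ring

theorem Av_smul (s : Finset ι) (c : ℝ) (f : (ι → Pt) → ℝ) (x : ι → Pt) :
    μ.Av s (fun z => c * f z) x = c * μ.Av s f x := by
  unfold Av
  rw [Finset.mul_sum]
  exact Finset.sum_congr rfl fun z _ => by ring

theorem Av_sum {α : Type*} (s : Finset ι) (A : Finset α) (f : α → (ι → Pt) → ℝ) (x : ι → Pt) :
    μ.Av s (fun z => ∑ a ∈ A, f a z) x = ∑ a ∈ A, μ.Av s (f a) x := by
  unfold Av
  rw [Finset.sum_comm]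
  exact Finset.sum_congr rfl fun z _ => by rw [Finset.mul_sum]

theorem Av_nonneg (s : Finset ι) {f : (ι → Pt) → ℝ} (x : ι → Pt)
    (h : ∀ z, (∀ i ∉ s, z i = x i) → 0 ≤ f z) : 0 ≤ μ.Av s f x := by
  have h1 := μ.Av_mono s (f := fun _ => 0) x h
  rwa [μ.Av_const] at h1

theorem Av_le (s : Finset ι) {f : (ι → Pt) → ℝ} (x : ι → Pt) {c : ℝ}
    (h : ∀ z, (∀ i ∉ s, z i = x i) → f z ≤ c) : μ.Av s f x ≤ c := by
  have h1 := μ.Av_mono s (g := fun _ => c) x h
  rwa [μ.Av_const] at h1

/-- the average does not depend on the coordinates in `s` -/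
theorem Av_dep (s : Finset ι) (f : (ι → Pt) → ℝ) : Dep sᶜ (μ.Av s f) := by
  intro x y h
  unfold Av
  refine Finset.sum_congr rfl fun z _ => ?_
  rw [μ.kw_congr (fun i hi => h i (mem_compl.2 hi))]

theorem Av_dep_of {s J : Finset ι} {f : (ι → Pt) → ℝ} (hf : Dep J f) : Dep (J \ s) (μ.Av s f) := by
  intro x y h
  -- compare through the bijection which changes the coordinates outside `J`
  have key : ∀ x y : ι → Pt, (∀ i ∈ J \ s, x i = y i) → μ.Av s f x = μ.Av s f (fun i => if i ∈ J then x i else y i) := by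
    intro x y _
    unfold Av
    have e : ∀ z : ι → Pt, μ.kw s x z * f z ≠ 0 ∨ True := fun _ => Or.inr trivial
    let φ : (ι → Pt) → (ι → Pt) := fun z i => if i ∈ J ∨ i ∈ s then z i else y i
    let ψ : (ι → Pt) → (ι → Pt) := fun z i => if i ∈ J ∨ i ∈ s then z i else x i
    refine Finset.sum_bij_ne_zero (fun z _ _ => φ z) (fun z _ _ => mem_univ _) ?_ ?_ ?_
    · intro z1 _ h1 z2 _ h2 h3
      have k1 := μ.kw_ne (left_ne_zero_of_mul h1)
      have k2 := μ.kw_ne (left_ne_zero_of_mul h2)
      funext i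
      by_cases hi : i ∈ J ∨ i ∈ s
      · have := congrFun h3 i
        simp only [φ, if_pos hi] at this
        exact this
      · rw [not_or] at hi
        rw [k1 i hi.2, k2 i hi.2]
    · intro z _ h1
      have k1 := μ.kw_ne (left_ne_zero_of_mul h1)
      refine ⟨ψ z, mem_univ _, ?_, ?_⟩
      · intro h2
        apply h1
        have h3 : μ.kw s x (ψ z) * f (ψ z) = μ.kw s (fun i => if i ∈ J then x i else y i) z * f z := by
          congr 1
          · unfold kw
            refine Finset.prod_congr rfl fun i _ => ?_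
            by_cases his : i ∈ s
            · rw [if_pos his, if_pos his]
              simp only [ψ, if_pos (Or.inr his)]
            · rw [if_neg his, if_neg his]
              by_cases hiJ : i ∈ J
              · simp only [ψ, if_pos (Or.inl hiJ), if_pos hiJ]
              · have : ¬ (i ∈ J ∨ i ∈ s) := not_or.2 ⟨hiJ, his⟩
                have h5 := k1 i his
                simp only [if_neg hiJ] at h5
                simp only [ψ, if_neg this, if_neg hiJ]
                rw [ind_of h5, ind_of trivial]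
          · refine hf _ _ fun i hi => ?_
            simp only [ψ, if_pos (Or.inl hi)]
        rw [← h3, h2]
      · funext i
        by_cases hi : i ∈ J ∨ i ∈ s
        · simp only [φ, ψ, if_pos hi]
        · simp only [φ, if_neg hi]
          rw [not_or] at hi
          have h5 := k1 i hi.2
          simp only [if_neg hi.1] at h5
          exact h5.symm
    · intro z _ h1
      have k1 := μ.kw_ne (left_ne_zero_of_mul h1)
      congr 1
      · unfold kw
        refine Finset.prod_congr rfl fun i _ => ?_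
        by_cases his : i ∈ s
        · rw [if_pos his, if_pos his]
          simp only [φ, if_pos (Or.inr his)]
        · rw [if_neg his, if_neg his]
          by_cases hiJ : i ∈ J
          · simp only [φ, if_pos (Or.inl hiJ), if_pos hiJ]
          · have : ¬ (i ∈ J ∨ i ∈ s) := not_or.2 ⟨hiJ, his⟩
            simp only [φ, if_neg this, if_neg hiJ]
            rw [ind_of (k1 i his), ind_of trivial]
      · refine hf _ _ fun i hi => ?_
        simp only [φ, if_pos (Or.inl hi)]
  have h1 := key x y h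
  rw [h1]
  refine μ.Av_dep s f _ _ fun i hi => ?_
  rw [mem_compl] at hi
  by_cases hiJ : i ∈ J
  · simp only [if_pos hiJ]
    exact h i (mem_sdiff.2 ⟨hiJ, hi⟩)
  · simp only [if_neg hiJ]

/-- a factor which does not depend on `s` -/
theorem Av_mul (s : Finset ι) {g : (ι → Pt) → ℝ} (f : (ι → Pt) → ℝ) (hg : Dep sᶜ g) (x : ι → Pt) :
    μ.Av s (fun z => g z * f z) x = g x * μ.Av s f x := by
  rw [← μ.Av_smul]
  refine μ.Av_congr s x fun z hz => ?_
  rw [hg z x fun i hi => hz i (mem_compl.1 hi)]

theorem Av_of_dep (s : Finset ι) {g : (ι → Pt) → ℝ} (hg : Dep sᶜ g) (x : ι → Pt) : μ.Av s g x = g x := by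
  have h := μ.Av_mul s (fun _ => 1) hg x
  rw [μ.Av_const, mul_one] at h
  rw [← h]
  exact μ.Av_congr s x fun z _ => (mul_one _).symm

theorem Av_empty (f : (ι → Pt) → ℝ) (x : ι → Pt) : μ.Av ∅ f x = f x :=
  μ.Av_of_dep ∅ (fun a b h => by
    congr 1
    funext i
    exact h i (by simp)) x

/-- one coordinate more -/
theorem Av_insert {s : Finset ι} {i : ι} (hi : i ∉ s) (f : (ι → Pt) → ℝ) (x : ι → Pt) :
    μ.Av (insert i s) f x = ∑ y, μ.w i y * μ.Av s f (Function.update x i y) := by
  unfold Av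
  simp only [Finset.mul_sum]
  rw [Finset.sum_comm]
  refine Finset.sum_congr rfl fun z _ => ?_
  have h1 : ∀ y, μ.kw s (Function.update x i y) z = ind (z i = y) * ∏ j ∈ univ.erase i,
      (if j ∈ insert i s then μ.w j (z j) else ind (z j = x j)) := by
    intro y
    unfold kw
    rw [← Finset.mul_prod_erase _ _ (mem_univ i), if_neg hi, Function.update_self]
    congr 1
    refine Finset.prod_congr rfl fun j hj => ?_
    have hji : j ≠ i := (mem_erase.1 hj).1
    rw [Function.update_of_ne hji]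
    by_cases hjs : j ∈ s
    · rw [if_pos hjs, if_pos (mem_insert_of_mem hjs)]
    · rw [if_neg hjs, if_neg (fun h => (mem_insert.1 h).elim hji hjs)]
  have h2 : μ.kw (insert i s) x z = μ.w i (z i) * ∏ j ∈ univ.erase i,
      (if j ∈ insert i s then μ.w j (z j) else ind (z j = x j)) := by
    unfold kw
    rw [← Finset.mul_prod_erase _ _ (mem_univ i), if_pos (mem_insert_self i s)]
  rw [h2, Finset.sum_congr rfl fun y _ => by rw [h1 y]]
  rw [Finset.sum_eq_single (z i)]
  · rw [ind_of rfl]; ring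
  · intro y _ hy
    rw [ind_not (fun h => hy h.symm)]; ring
  · intro h
    exact absurd (mem_univ _) h

theorem Av_single (i : ι) (f : (ι → Pt) → ℝ) (x : ι → Pt) :
    μ.Av {i} f x = ∑ y, μ.w i y * f (Function.update x i y) := by
  have h := μ.Av_insert (s := ∅) (i := i) (by simp) f x
  rw [show insert i (∅ : Finset ι) = {i} from rfl] at h
  rw [h]
  exact Finset.sum_congr rfl fun y _ => by rw [μ.Av_empty]

/-- iterated averages -/
theorem Av_Av_disj {s t : Finset ι} (hd : Disjoint s t) (f : (ι → Pt) → ℝ) (x : ι → Pt) :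
    μ.Av s (μ.Av t f) x = μ.Av (s ∪ t) f x := by
  induction s using Finset.induction_on generalizing x with
  | empty => rw [μ.Av_empty, empty_union]
  | insert i s hi ih =>
    rw [Finset.disjoint_insert_left] at hd
    rw [μ.Av_insert hi, insert_union, μ.Av_insert (fun h => (mem_union.1 h).elim hi hd.1)]
    exact Finset.sum_congr rfl fun y _ => by rw [ih hd.2]

theorem Av_Av (s t : Finset ι) (f : (ι → Pt) → ℝ) (x : ι → Pt) :
    μ.Av s (μ.Av t f) x = μ.Av (s ∪ t) f x := by
  have h1 : s = (s \ t) ∪ (s ∩ t) := (sdiff_union_inter s t).symm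
  have hd : Disjoint (s \ t) (s ∩ t) := disjoint_sdiff_inter s t
  calc μ.Av s (μ.Av t f) x = μ.Av ((s \ t) ∪ (s ∩ t)) (μ.Av t f) x := by rw [← h1]
    _ = μ.Av (s \ t) (μ.Av (s ∩ t) (μ.Av t f)) x := (μ.Av_Av_disj hd _ x).symm
    _ = μ.Av (s \ t) (μ.Av t f) x := by
        congr 1
        funext z
        exact μ.Av_of_dep _ ((μ.Av_dep t f).mono (compl_subset_compl.2 inter_subset_right)) z
    _ = μ.Av ((s \ t) ∪ t) f x := μ.Av_Av_disj sdiff_disjoint f x
    _ = μ.Av (s ∪ t) f x := by rw [sdiff_union_self_eq_union]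

/-- expectation -/
def Ex (f : (ι → Pt) → ℝ) : ℝ := ∑ z, (∏ i, μ.w i (z i)) * f z

theorem Av_univ (f : (ι → Pt) → ℝ) (x : ι → Pt) : μ.Av univ f x = μ.Ex f := by
  unfold Av Ex kw
  refine Finset.sum_congr rfl fun z _ => ?_
  congr 1
  exact Finset.prod_congr rfl fun i _ => by rw [if_pos (mem_univ i)]

theorem Ex_Av [Nonempty Pt] (s : Finset ι) (f : (ι → Pt) → ℝ) : μ.Ex (μ.Av s f) = μ.Ex f := by
  obtain ⟨y⟩ := ‹Nonempty Pt›
  rw [← μ.Av_univ _ (fun _ => y), μ.Av_Av, ← μ.Av_univ f (fun _ => y)]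
  congr 1
  exact Finset.eq_univ_of_forall fun i => mem_union_left _ (mem_univ i)

end Wts

end

end Pool.Agent.GMH
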