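import Pool.Agent.GMH.Upc
import Pool.Agent.M3.Indep

/-!
# GMH/BDL (helper24) : BIRTHS AND DEATHS, any number of vertices (note 3935 (1))

`Vs P X c` : vertices `X i`, each one independent of all the others, with cells `c t i` (refining).
`vw X c S t` = exact vertices outside `S`, cells of the time `t` inside `S`.
`Fcs P X c S eta L` : faces: `L y t` (the face `y`, i.e. all coordinates but `y`, lives at the time `t`) is a function of
`vw {y} t`; it lives in an interval of times; given the cells of `S` (and the exact vertices outside) its density is `< eta`.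

* `forget` : a function of `vw (S.erase b) t` has the same mean given `vw {b} t` and given `vw S t`;
* `kill_le` : the faces alive when their density drops;
* `hi_le` : a dense family of faces at the birth of another face;
* **`births_deaths`** : `P (all faces of S live at the same time) ≤ Cbd n * eta ^ (1/4)^n * ∑ y ∈ S, P (face y is ever born)`
  for `S.card = n + 1`.
-/

set_option autoImplicit false
set_option linter.unusedSectionVars false

namespace Pool.Agent.GMH.BDL

open Finset Pool.Agent.PWZ Pool.Agent.M3 Pool.Agent.GMH.Upc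

noncomputable section

variable {Om : Type*} [Fintype Om] {ι : Type*} [Fintype ι] [DecidableEq ι] {α κ : Type*}

/-- independent vertices with cells -/
structure Vs (P : FP Om) (X : ι → Om → α) (c : ℕ → ι → Om → κ) : Prop where
  ind : ∀ b, P.Indep (X b) (fun w (i : {i : ι // i ≠ b}) => X i.1 w)
  fac : ∀ t i, Fac (X i) (c t i)
  filt : ∀ i, Filt (fun t => c t i)

/-- exact outside `S`, cells inside `S` -/
def vw (X : ι → Om → α) (c : ℕ → ι → Om → κ) (S : Finset ι) (t : ℕ) (w : Om) (i : ι) : α ⊕ κ :=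
  if i ∈ S then Sum.inr (c t i w) else Sum.inl (X i w)

variable {P : FP Om} {X : ι → Om → α} {c : ℕ → ι → Om → κ}

theorem vw_iff {S : Finset ι} {t : ℕ} {v w : Om} :
    vw X c S t v = vw X c S t w ↔ (∀ i ∈ S, c t i v = c t i w) ∧ ∀ i, i ∉ S → X i v = X i w := by
  constructor
  · intro h
    refine ⟨fun i hi => ?_, fun i hi => ?_⟩
    · have h1 := congrFun h i
      unfold vw at h1
      rw [if_pos hi, if_pos hi] at h1
      exact Sum.inr.inj h1
    · have h1 := congrFun h i
      unfold vw at h1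
      rw [if_neg hi, if_neg hi] at h1
      exact Sum.inl.inj h1
  · intro h
    funext i
    unfold vw
    by_cases hi : i ∈ S
    · rw [if_pos hi, if_pos hi, h.1 i hi]
    · rw [if_neg hi, if_neg hi, h.2 i hi]

theorem Vs.mono (hV : Vs P X c) {S S' : Finset ι} (hS : S' ⊆ S) {s t : ℕ} (hst : s ≤ t) :
    Fac (vw X c S' t) (vw X c S s) := by
  intro v w h
  rw [vw_iff] at h ⊢
  refine ⟨fun i hi => ?_, fun i hi => h.2 i fun h' => hi (hS h')⟩
  by_cases hi' : i ∈ S'
  · exact (hV.filt i).le hst v w (h.1 i hi')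
  · exact hV.fac s i v w (h.2 i hi')

theorem Vs.filt' (hV : Vs P X c) (S : Finset ι) : Filt (vw X c S) := fun t => hV.mono (Finset.Subset.refl S) (Nat.le_succ t)

/-- **forget the exact values of the other vertices** -/
theorem Vs.forget (hV : Vs P X c) {S : Finset ι} {b : ι} (hb : b ∈ S) {t : ℕ} {f : Om → ℝ}
    (hf : Fac (vw X c (S.erase b) t) f) {w : Om} (hw : P.p w ≠ 0) :
    P.ce (vw X c {b} t) f w = P.ce (vw X c S t) f w := by
  have h1 := P.ce_indep_eq (hV.ind b) (ζ := c t b)
    (φ := fun v (i : {i : ι // i ≠ b}) => vw X c S t v i.1) (ψ := fun v (i : {i : ι // i ≠ b}) => X i.1 v)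
    (hV.fac t b) (Fac.refl _) (fun v w h => by
      funext i
      have h2 := congrFun h i
      show vw X c S t v i.1 = vw X c S t w i.1
      unfold vw
      by_cases hi : i.1 ∈ S
      · rw [if_pos hi, if_pos hi, hV.fac t i.1 v w h2]
      · rw [if_neg hi, if_neg hi]
        exact congrArg Sum.inl h2) (f := f) (fun v w h => by
      have h2 := (Prod.mk.injEq _ _ _ _ ▸ h : X b v = X b w ∧ _)
      refine hf v w ?_
      funext i
      by_cases hi : i = b
      · unfold vw
        rw [hi, if_neg (Finset.notMem_erase b S), if_neg (Finset.notMem_erase b S), h2.1]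
      · have h3 := congrFun h2.2 ⟨i, hi⟩
        have h4 : vw X c S t v i = vw X c S t w i := h3
        unfold vw at h4 ⊢
        by_cases hS : i ∈ S
        · rw [if_pos hS, if_pos hS] at h4
          rw [if_pos (Finset.mem_erase.2 ⟨hi, hS⟩), if_pos (Finset.mem_erase.2 ⟨hi, hS⟩), h4]
        · rw [if_neg hS, if_neg hS] at h4
          rw [if_neg (fun h5 => hS (Finset.mem_erase.1 h5).2), if_neg (fun h5 => hS (Finset.mem_erase.1 h5).2), h4]) hw
  have e1 : P.ce (vw X c {b} t) f w = P.ce (fun v => (c t b v, fun (i : {i : ι // i ≠ b}) => X i.1 v)) f w := by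
    refine P.ce_congr_map (fun v w h => ?_) (fun v w h => ?_) f w
    · rw [vw_iff] at h
      show (c t b v, fun (i : {i : ι // i ≠ b}) => X i.1 v) = (c t b w, fun (i : {i : ι // i ≠ b}) => X i.1 w)
      rw [Prod.mk.injEq]
      exact ⟨h.1 b (Finset.mem_singleton_self b), funext fun i => h.2 i.1 fun h' => i.2 (Finset.mem_singleton.1 h')⟩
    · have h2 := (Prod.mk.injEq _ _ _ _ ▸ h : c t b v = c t b w ∧ _)
      rw [vw_iff]
      refine ⟨fun i hi => ?_, fun i hi => congrFun h2.2 ⟨i, fun h' => hi (Finset.mem_singleton.2 h')⟩⟩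
      rw [Finset.mem_singleton.1 hi]
      exact h2.1
  have e2 : P.ce (vw X c S t) f w = P.ce (fun v => (c t b v, fun (i : {i : ι // i ≠ b}) => vw X c S t v i.1)) f w := by
    refine P.ce_congr_map (fun v w h => ?_) (fun v w h => ?_) f w
    · show (c t b v, fun (i : {i : ι // i ≠ b}) => vw X c S t v i.1) = (c t b w, fun (i : {i : ι // i ≠ b}) => vw X c S t w i.1)
      rw [Prod.mk.injEq]
      exact ⟨(vw_iff.1 h).1 b hb, funext fun i => congrFun h i.1⟩
    · have h2 := (Prod.mk.injEq _ _ _ _ ▸ h : c t b v = c t b w ∧ _)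
      funext i
      by_cases hi : i = b
      · unfold vw
        rw [hi, if_pos hb, if_pos hb, h2.1]
      · exact congrFun h2.2 ⟨i, hi⟩
  rw [e1, e2]
  exact h1

/-! ## faces -/

/-- faces with a birth and a death -/
structure Fcs (P : FP Om) (X : ι → Om → α) (c : ℕ → ι → Om → κ) (S : Finset ι) (eta : ℝ) (L : ι → ℕ → Om → Prop) :
    Prop where
  fac : ∀ y ∈ S, ∀ t v w, vw X c {y} t v = vw X c {y} t w → (L y t v ↔ L y t w)
  cvx : ∀ y ∈ S, ∀ w r s t, r ≤ s → s ≤ t → L y r w → L y t w → L y s w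
  dens : ∀ y ∈ S, ∀ t w, P.p w ≠ 0 → P.ce (vw X c S t) (fun v => ind (L y t v)) w < eta

/-- born at the time `s` -/
def bn (L : ℕ → Om → Prop) (s : ℕ) (w : Om) : Prop := L s w ∧ ∀ r < s, ¬ L r w

theorem bn_sum (L : ℕ → Om → Prop) (T : ℕ) :
    ∑ s ∈ range (T + 1), P.Pr (bn L s) = P.Pr (fun w => ∃ t ≤ T, L t w) := by
  have h1 : ∀ w, ∑ s ∈ range (T + 1), ind (bn L s w) = ind (∃ t ≤ T, L t w) := by
    intro w
    classical
    by_cases h : ∃ t ≤ T, L t w
    · rw [ind_of h]
      have h' : ∃ t, L t w := h.imp fun t ht => ht.2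
      have hle : Nat.find h' ≤ T := by
        obtain ⟨t, ht, hL⟩ := h
        exact (Nat.find_min' h' hL).trans ht
      rw [Finset.sum_eq_single (Nat.find h')]
      · exact ind_of ⟨Nat.find_spec h', fun r hr => Nat.find_min h' hr⟩
      · intro s _ hs
        refine ind_not fun hb => hs ?_
        rcases lt_trichotomy s (Nat.find h') with h2 | h2 | h2
        · exact absurd hb.1 (Nat.find_min h' h2)
        · exact h2
        · exact absurd (Nat.find_spec h') (hb.2 _ h2)
      · intro h2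
        exact absurd (mem_range.2 (by omega)) h2
    · rw [ind_not h]
      refine Finset.sum_eq_zero fun s hs => ind_not fun hb => h ⟨s, ?_, hb.1⟩
      have := mem_range.1 hs
      omega
  unfold FP.Pr
  rw [← P.E_sum]
  exact P.E_congr fun w _ => h1 w

section step

variable {S : Finset ι} {eta : ℝ} {L : ι → ℕ → Om → Prop} {hi lo : ℝ}

/-- density of the living faces `y` over the exact vertex `b` -/
def qd (P : FP Om) (X : ι → Om → α) (c : ℕ → ι → Om → κ) (S : Finset ι) (L : ι → ℕ → Om → Prop) (y : ι) (t : ℕ)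
    (w : Om) : ℝ := P.ce (vw X c S t) (fun v => ind (L y t v)) w

/-- the face is killed when its family becomes dense or has been dense during its life -/
def L' (P : FP Om) (X : ι → Om → α) (c : ℕ → ι → Om → κ) (S : Finset ι) (L : ι → ℕ → Om → Prop) (hi lo : ℝ) (y : ι)
    (t : ℕ) (w : Om) : Prop := L y t w ∧ ∀ r ≤ t, L y r w → ¬ fl hi lo (qd P X c S L y) r w

theorem qd_fac (S : Finset ι) (L : ι → ℕ → Om → Prop) (y : ι) (t : ℕ) : Fac (vw X c S t) (qd P X c S L y t) := P.ce_fac _ _

/-- the reduced family -/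
theorem L'_fcs (hV : Vs P X c) {S' : Finset ι} (hfac : ∀ y ∈ S', ∀ t v w, vw X c {y} t v = vw X c {y} t w → (L y t v ↔ L y t w))
    (hcvx : ∀ y ∈ S', ∀ w r s t, r ≤ s → s ≤ t → L y r w → L y t w → L y s w) (hhi : 0 < hi) :
    Fcs P X c S' hi (L' P X c S' L hi lo) where
  fac := by
    intro y hy t v w h
    have hs : ({y} : Finset ι) ⊆ S' := Finset.singleton_subset_iff.2 hy
    unfold L'
    refine and_congr (hfac y hy t v w h) (forall_congr' fun r => forall_congr' fun hr => ?_)
    have h1 : vw X c {y} r v = vw X c {y} r w := (hV.filt' {y}).le hr v w h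
    have h2 : vw X c S' r v = vw X c S' r w := hV.mono hs (le_refl r) v w h1
    rw [hfac y hy r v w h1, fl_fac (hV.filt' S') (fun t => qd_fac S' L y t) r v w h2]
  cvx := by
    intro y hy w r s t hrs hst hr ht
    exact ⟨hcvx y hy w r s t hrs hst hr.1 ht.1, fun r' hr' => ht.2 r' (hr'.trans hst)⟩
  dens := by
    intro y hy t w hw
    by_cases hfl : fl hi lo (qd P X c S' L y) t w
    · have h1 : P.ce (vw X c S' t) (fun v => ind (L' P X c S' L hi lo y t v)) w = 0 := by
        unfold FP.ce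
        rw [P.E_congr (g := fun _ => 0), P.E_const, zero_div]
        intro v _
        by_cases hv : vw X c S' t v = vw X c S' t w
        · have h2 : fl hi lo (qd P X c S' L y) t v := (fl_fac (hV.filt' S') (fun t => qd_fac S' L y t) t v w hv).2 hfl
          show ind (vw X c S' t v = vw X c S' t w) * ind (L' P X c S' L hi lo y t v) = 0
          rw [ind_not (fun h3 : L' P X c S' L hi lo y t v => h3.2 t le_rfl h3.1 h2), mul_zero]
        · rw [ind_not hv, zero_mul]
      rw [h1]
      exact hhi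
    · refine lt_of_le_of_lt (P.ce_mono (g := fun v => ind (L y t v)) (fun v _ => ind_mono fun h => h.1) w) ?_
      exact not_fl_lt hfl

/-- **faces alive at a drop** -/
theorem kill_le (hV : Vs P X c) {S' : Finset ι} {y : ι} (hy : y ∈ S')
    (hcvx : ∀ y ∈ S', ∀ w r s t, r ≤ s → s ≤ t → L y r w → L y t w → L y s w) (hlo : 0 ≤ lo) (hlh : 2 * lo ≤ hi) (hhi : 0 < hi)
    (T : ℕ) : P.Pr (fun w => ∃ t < T, fdn hi lo (qd P X c S' L y) t w ∧ L y (t + 1) w) ≤
      3 * (lo / hi) * P.Pr (fun w => ∃ t ≤ T, L y t w) := by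
  have h1 := drop_le (P := P) (hi := hi) (lo := lo) (hV.filt' S') (Tt := L y) (b := bn (L y)) (fun t w _ h => by
    by_cases h2 : L y t w
    · exact Or.inl h2
    · refine Or.inr ⟨h, fun r hr h3 => h2 ?_⟩
      exact hcvx y hy w r t (t + 1) (by omega) (Nat.le_succ t) h3 h) T hlo (by linarith)
  refine h1.trans ?_
  have h2 : P.Pr (L y 0) + P.E (fun w => ∑ t ∈ range T, ind (bn (L y) (t + 1) w)) = P.Pr (fun w => ∃ t ≤ T, L y t w) := by
    rw [← bn_sum, Finset.sum_range_succ', add_comm, P.E_sum]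
    congr 1
    refine P.Pr_congr fun w _ => ⟨fun h => ⟨h, fun r hr => absurd hr (Nat.not_lt_zero r)⟩, fun h => h.1⟩
  have h3 : P.Pr (L y 0) ≤ P.Pr (fun w => ∃ t ≤ T, L y t w) := P.Pr_mono fun w _ h => ⟨0, Nat.zero_le _, h⟩
  rw [h2]
  set B := P.Pr (fun w => ∃ t ≤ T, L y t w) with hB
  have hB0 : 0 ≤ B := P.Pr_nonneg _
  have h4 : B / (hi - lo) ≤ 2 * B / hi := by
    rw [div_le_div_iff₀ (by linarith) hhi]
    nlinarith
  have h5 : P.Pr (L y 0) / hi ≤ B / hi := div_le_div_of_nonneg_right h3 hhi.le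
  have h6 : B / (hi - lo) + P.Pr (L y 0) / hi ≤ 3 * B / hi := by
    have : 2 * B / hi + B / hi = 3 * B / hi := by ring
    linarith
  calc lo * (B / (hi - lo) + P.Pr (L y 0) / hi) ≤ lo * (3 * B / hi) := mul_le_mul_of_nonneg_left h6 hlo
    _ = 3 * (lo / hi) * B := by ring

/-- **a dense family at a birth** -/
theorem hi_le (hV : Vs P X c) (hF : Fcs P X c S eta L) {b y : ι} (hb : b ∈ S) (hy : y ∈ S) (hlo : 0 < lo) (T : ℕ) :
    P.Pr (fun w => ∃ s ≤ T, bn (L b) s w ∧ lo ≤ qd P X c (S.erase b) L y s w) ≤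
      eta / lo * P.Pr (fun w => ∃ t ≤ T, L b t w) := by
  have h1 : P.Pr (fun w => ∃ s ≤ T, bn (L b) s w ∧ lo ≤ qd P X c (S.erase b) L y s w) ≤
      ∑ s ∈ range (T + 1), P.Pr (fun w => bn (L b) s w ∧ lo ≤ qd P X c (S.erase b) L y s w) := by
    refine le_trans (P.Pr_mono fun w _ hw => ?_) (P.Pr_ex_le (range (T + 1)) _)
    obtain ⟨s, hs, h2⟩ := hw
    exact ⟨s, mem_range.2 (by omega), h2⟩
  refine h1.trans ?_
  rw [← bn_sum, Finset.mul_sum]
  refine Finset.sum_le_sum fun s _ => ?_
  have hbf : Fac (vw X c {b} s) (fun w => ind (bn (L b) s w)) := by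
    refine Fac.ind fun v w h => ?_
    unfold bn
    refine and_congr (hF.fac b hb s v w h) (forall_congr' fun r => forall_congr' fun hr => not_congr ?_)
    exact hF.fac b hb r v w ((hV.filt' {b}).le hr.le v w h)
  have e1 : P.Pr (fun w => bn (L b) s w ∧ lo ≤ qd P X c (S.erase b) L y s w) =
      P.E (fun w => ind (bn (L b) s w) * P.ce (vw X c {b} s) (fun v => ind (lo ≤ qd P X c (S.erase b) L y s v)) w) := by
    rw [P.E_mul_ce hbf]
    exact P.E_congr fun w _ => ind_and _ _
  rw [e1]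
  show _ ≤ eta / lo * P.E (fun w => ind (bn (L b) s w))
  rw [← P.E_smul]
  refine P.E_mono fun w hw => ?_
  rw [mul_comm (eta / lo)]
  refine mul_le_mul_of_nonneg_left ?_ (ind_nonneg _)
  have hqf : Fac (vw X c (S.erase b) s) (fun v => ind (lo ≤ qd P X c (S.erase b) L y s v)) := by
    refine Fac.ind fun v w h => ?_
    rw [qd_fac (S.erase b) L y s v w h]
  rw [hV.forget hb hqf hw]
  have h2 : P.ce (vw X c S s) (fun v => ind (lo ≤ qd P X c (S.erase b) L y s v)) w ≤
      P.ce (vw X c S s) (fun v => lo⁻¹ * qd P X c (S.erase b) L y s v) w := by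
    refine P.ce_mono (fun v hv => ?_) w
    have h0 : 0 ≤ qd P X c (S.erase b) L y s v := P.ce_nonneg (fun _ _ => ind_nonneg _) v
    by_cases h : lo ≤ qd P X c (S.erase b) L y s v
    · rw [ind_of h, inv_mul_eq_div, le_div_iff₀ hlo, one_mul]
      exact h
    · rw [ind_not h]
      exact mul_nonneg (inv_nonneg.2 hlo.le) h0
  have h3 : P.ce (vw X c S s) (fun v => lo⁻¹ * qd P X c (S.erase b) L y s v) w =
      lo⁻¹ * P.ce (vw X c S s) (fun v => ind (L y s v)) w := by
    rw [P.ce_smul]
    congr 1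
    exact P.ce_tower (hV.mono (Finset.erase_subset b S) (le_refl s)) _ w
  rw [h3] at h2
  refine h2.trans ?_
  have h4 := (hF.dens y hy s w hw).le
  calc lo⁻¹ * P.ce (vw X c S s) (fun v => ind (L y s v)) w ≤ lo⁻¹ * eta :=
        mul_le_mul_of_nonneg_left h4 (inv_nonneg.2 hlo.le)
    _ = eta / lo := by ring

/-- case distinction at the first complete time -/
theorem cases_first {n T : ℕ} (hS : S.card = n + 2) (hcvx : ∀ y ∈ S, ∀ w r s t, r ≤ s → s ≤ t → L y r w → L y t w → L y s w)
    (hlh : lo ≤ hi) {w : Om} (hw : ∃ t ≤ T, ∀ y ∈ S, L y t w) :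
    ∃ b ∈ S, ((∃ y ∈ S.erase b, ∃ s ≤ T, bn (L b) s w ∧ lo ≤ qd P X c (S.erase b) L y s w) ∨
      (∃ y ∈ S.erase b, ∃ t < T, fdn hi lo (qd P X c (S.erase b) L y) t w ∧ L y (t + 1) w)) ∨
      (∃ t ≤ T, ∀ y ∈ S.erase b, L' P X c (S.erase b) L hi lo y t w) := by
  classical
  have hex : ∃ t, ∀ y ∈ S, L y t w := hw.imp fun t ht => ht.2
  set s := Nat.find hex with hs
  have hsp : ∀ y ∈ S, L y s w := Nat.find_spec hex
  have hsT : s ≤ T := by
    obtain ⟨t, ht, h⟩ := hw
    exact (Nat.find_min' hex h).trans ht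
  have hb : ∃ b ∈ S, bn (L b) s w := by
    rcases Nat.eq_zero_or_pos s with h0 | h0
    · obtain ⟨b, hb⟩ : S.Nonempty := by
        rw [← Finset.card_pos]
        omega
      exact ⟨b, hb, hsp b hb, fun r hr => by omega⟩
    · have h1 : ¬ ∀ y ∈ S, L y (s - 1) w := Nat.find_min hex (by omega)
      push Not at h1
      obtain ⟨b, hb, h2⟩ := h1
      refine ⟨b, hb, hsp b hb, fun r hr h3 => h2 ?_⟩
      exact hcvx b hb w r (s - 1) s (by omega) (by omega) h3 (hsp b hb)
  obtain ⟨b, hb, hbs⟩ := hb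
  refine ⟨b, hb, ?_⟩
  by_cases hA : ∃ y ∈ S.erase b, fl hi lo (qd P X c (S.erase b) L y) s w
  · obtain ⟨y, hy, h1⟩ := hA
    exact Or.inl (Or.inl ⟨y, hy, s, hsT, hbs, fl_ge hlh h1⟩)
  · push Not at hA
    by_cases hB : ∀ y ∈ S.erase b, L' P X c (S.erase b) L hi lo y s w
    · exact Or.inr ⟨s, hsT, hB⟩
    · push Not at hB
      obtain ⟨y, hy, h1⟩ := hB
      have hyS : y ∈ S := Finset.mem_of_mem_erase hy
      unfold L' at h1
      push Not at h1
      obtain ⟨r, hr, h2, h3⟩ := h1 (hsp y hyS)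
      -- a drop between `r` and `s`
      have h4 : ∃ k, r ≤ k ∧ k < s ∧ fl hi lo (qd P X c (S.erase b) L y) k w ∧
          ¬ fl hi lo (qd P X c (S.erase b) L y) (k + 1) w := by
        by_contra hcon
        push Not at hcon
        have h5 : ∀ k, r + k ≤ s → fl hi lo (qd P X c (S.erase b) L y) (r + k) w := by
          intro k
          induction k with
          | zero => intro _; exact h3
          | succ k ih =>
            intro hk
            exact hcon (r + k) (by omega) (by omega) (ih (by omega))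
        have h6 := h5 (s - r) (by omega)
        rw [show r + (s - r) = s by omega] at h6
        exact hA y hy h6
      obtain ⟨k, hk1, hk2, hk3, hk4⟩ := h4
      refine Or.inl (Or.inr ⟨y, hy, k, by omega, ⟨hk3, hk4⟩, ?_⟩)
      exact hcvx y hyS w r (k + 1) s (by omega) (by omega) h2 (hsp y hyS)

end step

/-- the constant -/
def Cbd : ℕ → ℝ
  | 0 => 1
  | n + 1 => (n + 1) * (4 + Cbd n) + 16

theorem Cbd_nonneg (n : ℕ) : 0 ≤ Cbd n := by
  induction n with
  | zero => norm_num [Cbd]
  | succ n ih =>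
    have : (0 : ℝ) ≤ n := Nat.cast_nonneg n
    show (0 : ℝ) ≤ (n + 1) * (4 + Cbd n) + 16
    nlinarith

/-- the sum over ordered pairs -/
theorem sum_pairs {S : Finset ι} {n : ℕ} (hS : S.card = n + 2) (B : ι → ℝ) :
    ∑ b ∈ S, ∑ y ∈ S.erase b, B y = (n + 1) * ∑ y ∈ S, B y := by
  have h1 : ∀ b ∈ S, ∑ y ∈ S.erase b, B y = (∑ y ∈ S, B y) - B b := fun b hb => by
    rw [← Finset.add_sum_erase S B hb]
    ring
  rw [Finset.sum_congr rfl h1, Finset.sum_sub_distrib, Finset.sum_const, hS, nsmul_eq_mul]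
  push_cast
  ring

/-- **BIRTHS AND DEATHS** -/
theorem births_deaths (hV : Vs P X c) (T : ℕ) : ∀ (n : ℕ) (S : Finset ι), S.card = n + 1 → ∀ (eta : ℝ), 0 < eta → eta ≤ 1 →
    ∀ L : ι → ℕ → Om → Prop, Fcs P X c S eta L →
    P.Pr (fun w => ∃ t ≤ T, ∀ y ∈ S, L y t w) ≤
      Cbd n * eta ^ ((1 / 4 : ℝ) ^ n) * ∑ y ∈ S, P.Pr (fun w => ∃ t ≤ T, L y t w) := by
  intro n
  induction n with
  | zero =>
    intro S hS eta h0 h1 L hF
    obtain ⟨y, rfl⟩ := Finset.card_eq_one.1 hS
    have hz : P.Pr (fun w => ∃ t ≤ T, ∀ z ∈ ({y} : Finset ι), L z t w) ≤ 0 := by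
      have : P.Pr (fun w => ∃ t ≤ T, ∀ z ∈ ({y} : Finset ι), L z t w) = P.Pr (fun _ => False) := by
        refine P.Pr_congr fun w hw => ⟨fun ⟨t, _, h⟩ => ?_, fun h => h.elim⟩
        have hL : L y t w := h y (Finset.mem_singleton_self y)
        have h2 := hF.dens y (Finset.mem_singleton_self y) t w hw
        have h3 : P.ce (vw X c {y} t) (fun v => ind (L y t v)) w = 1 := by
          rw [P.ce_of_fac (Fac.ind fun v w h => hF.fac y (Finset.mem_singleton_self y) t v w h) hw, ind_of hL]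
        linarith
      rw [this]
      unfold FP.Pr
      rw [P.E_congr (g := fun _ => 0) fun w _ => ind_not not_false, P.E_const]
    refine hz.trans ?_
    exact mul_nonneg (mul_nonneg (Cbd_nonneg 0) (Real.rpow_nonneg h0.le _)) (Finset.sum_nonneg fun _ _ => P.Pr_nonneg _)
  | succ n ih =>
    intro S hS eta h0 h1 L hF
    set B : ι → ℝ := fun y => P.Pr (fun w => ∃ t ≤ T, L y t w) with hB
    have hB0 : ∀ y, 0 ≤ B y := fun y => P.Pr_nonneg _
    have hBs : 0 ≤ ∑ y ∈ S, B y := Finset.sum_nonneg fun y _ => hB0 y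
    set a : ℝ := (1 / 4 : ℝ) ^ (n + 1) with ha
    have ha0 : 0 < a := by positivity
    have ha1 : a ≤ 1 / 4 := by
      rw [ha, pow_succ]
      have : (1 / 4 : ℝ) ^ n ≤ 1 := pow_le_one₀ (by norm_num) (by norm_num)
      linarith
    set hi : ℝ := eta ^ (1 / 4 : ℝ) with hhi
    set lo : ℝ := eta ^ (1 / 2 : ℝ) with hlo
    have hhi0 : 0 < hi := Real.rpow_pos_of_pos h0 _
    have hlo0 : 0 < lo := Real.rpow_pos_of_pos h0 _
    have hhi1 : hi ≤ 1 := Real.rpow_le_one h0.le h1 (by norm_num)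
    by_cases hbig : 1 / 2 < hi
    · -- trivial case
      have h2 : (1 : ℝ) / 16 ≤ eta ^ a := by
        have h3 : (1 / 2 : ℝ) ^ (4 : ℝ) ≤ hi ^ (4 : ℝ) := Real.rpow_le_rpow (by norm_num) hbig.le (by norm_num)
        have h4 : hi ^ (4 : ℝ) = eta := by
          rw [hhi, ← Real.rpow_mul h0.le]
          norm_num
        have h5 : (1 / 2 : ℝ) ^ (4 : ℝ) = 1 / 16 := by
          have : (4 : ℝ) = ((4 : ℕ) : ℝ) := by norm_num
          rw [this, Real.rpow_natCast]
          norm_num
        rw [h4, h5] at h3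
        refine h3.trans ?_
        have h6 := Real.rpow_le_rpow_of_exponent_ge h0 h1 (by linarith : a ≤ 1)
        rwa [Real.rpow_one] at h6
      have h3 : P.Pr (fun w => ∃ t ≤ T, ∀ y ∈ S, L y t w) ≤ ∑ y ∈ S, B y := by
        obtain ⟨b, hb⟩ : S.Nonempty := by
          rw [← Finset.card_pos]
          omega
        refine (P.Pr_mono (t := fun w => ∃ t ≤ T, L b t w) fun w _ h => h.imp fun t ht => ⟨ht.1, ht.2 b hb⟩).trans ?_
        exact Finset.single_le_sum (f := B) (fun y _ => hB0 y) hb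
      have h4 : (1 : ℝ) ≤ Cbd (n + 1) * eta ^ a := by
        have h5 : (16 : ℝ) ≤ Cbd (n + 1) := by
          show (16 : ℝ) ≤ (n + 1) * (4 + Cbd n) + 16
          have h6 : (0 : ℝ) ≤ n := Nat.cast_nonneg n
          nlinarith [Cbd_nonneg n]
        nlinarith
      calc P.Pr (fun w => ∃ t ≤ T, ∀ y ∈ S, L y t w) ≤ 1 * ∑ y ∈ S, B y := by rw [one_mul]; exact h3
        _ ≤ Cbd (n + 1) * eta ^ a * ∑ y ∈ S, B y := mul_le_mul_of_nonneg_right h4 hBs
    · have hsm : hi ≤ 1 / 2 := not_lt.1 hbig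
      have hlohi : lo = hi * hi := by
        rw [hlo, hhi, ← Real.rpow_add h0]
        norm_num
      have hlh : 2 * lo ≤ hi := by
        rw [hlohi]
        nlinarith
      have hlh' : lo ≤ hi := by linarith
      have e1 : eta / lo = lo := by
        rw [div_eq_iff hlo0.ne', hlo, ← Real.rpow_add h0]
        norm_num
      have e2 : lo / hi = hi := by
        rw [div_eq_iff hhi0.ne', hlohi]
      have e3 : lo ≤ eta ^ a := by
        rw [hlo]
        exact Real.rpow_le_rpow_of_exponent_ge h0 h1 (by linarith)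
      have e4 : hi ≤ eta ^ a := by
        rw [hhi]
        exact Real.rpow_le_rpow_of_exponent_ge h0 h1 ha1
      have e5 : hi ^ ((1 / 4 : ℝ) ^ n) = eta ^ a := by
        rw [hhi, ← Real.rpow_mul h0.le, ha, pow_succ]
        congr 1
        ring
      -- the union
      have hu : P.Pr (fun w => ∃ t ≤ T, ∀ y ∈ S, L y t w) ≤ ∑ b ∈ S, ((∑ y ∈ S.erase b,
          P.Pr (fun w => ∃ s ≤ T, bn (L b) s w ∧ lo ≤ qd P X c (S.erase b) L y s w)) +
          (∑ y ∈ S.erase b, P.Pr (fun w => ∃ t < T, fdn hi lo (qd P X c (S.erase b) L y) t w ∧ L y (t + 1) w)) +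
          P.Pr (fun w => ∃ t ≤ T, ∀ y ∈ S.erase b, L' P X c (S.erase b) L hi lo y t w)) := by
        refine le_trans (P.Pr_mono fun w _ hw => cases_first (P := P) (X := X) (c := c) hS hF.cvx hlh' hw) ((P.Pr_ex_le S _).trans ?_)
        refine Finset.sum_le_sum fun b _ => ?_
        refine (P.Pr_or_le _ _).trans (add_le_add ((P.Pr_or_le _ _).trans (add_le_add ?_ ?_)) le_rfl)
        · exact P.Pr_ex_le (S.erase b) _
        · exact P.Pr_ex_le (S.erase b) _
      refine hu.trans ?_
      have hstep : ∀ b ∈ S, ((∑ y ∈ S.erase b,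
          P.Pr (fun w => ∃ s ≤ T, bn (L b) s w ∧ lo ≤ qd P X c (S.erase b) L y s w)) +
          (∑ y ∈ S.erase b, P.Pr (fun w => ∃ t < T, fdn hi lo (qd P X c (S.erase b) L y) t w ∧ L y (t + 1) w)) +
          P.Pr (fun w => ∃ t ≤ T, ∀ y ∈ S.erase b, L' P X c (S.erase b) L hi lo y t w)) ≤
          eta ^ a * ((n + 1) * B b) + 3 * eta ^ a * (∑ y ∈ S.erase b, B y) + Cbd n * eta ^ a * ∑ y ∈ S.erase b, B y := by
        intro b hb
        have hcard : (S.erase b).card = n + 1 := by
          rw [Finset.card_erase_of_mem hb, hS]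
          rfl
        have hsub : ∀ y ∈ S.erase b, y ∈ S := fun y hy => Finset.mem_of_mem_erase hy
        refine add_le_add (add_le_add ?_ ?_) ?_
        · have h2 : ∀ y ∈ S.erase b, P.Pr (fun w => ∃ s ≤ T, bn (L b) s w ∧ lo ≤ qd P X c (S.erase b) L y s w) ≤
              eta ^ a * B b := by
            intro y hy
            refine (hi_le hV hF hb (hsub y hy) hlo0 T).trans ?_
            rw [e1]
            exact mul_le_mul_of_nonneg_right e3 (hB0 b)
          refine (Finset.sum_le_sum h2).trans (le_of_eq ?_)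
          rw [Finset.sum_const, hcard, nsmul_eq_mul]
          push_cast
          ring
        · rw [Finset.mul_sum]
          refine Finset.sum_le_sum fun y hy => ?_
          refine (kill_le hV hy (fun y hy => hF.cvx y (hsub y hy)) hlo0.le hlh hhi0 T).trans ?_
          rw [e2]
          exact mul_le_mul_of_nonneg_right (mul_le_mul_of_nonneg_left e4 (by norm_num)) (hB0 y)
        · have h2 := ih (S.erase b) hcard hi hhi0 hhi1 (L' P X c (S.erase b) L hi lo)
            (L'_fcs hV (fun y hy => hF.fac y (hsub y hy)) (fun y hy => hF.cvx y (hsub y hy)) hhi0)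
          rw [e5] at h2
          refine h2.trans (mul_le_mul_of_nonneg_left (Finset.sum_le_sum fun y _ => ?_)
            (mul_nonneg (Cbd_nonneg n) (Real.rpow_nonneg h0.le _)))
          exact P.Pr_mono fun w _ h => h.imp fun t ht => ⟨ht.1, ht.2.1⟩
      refine (Finset.sum_le_sum hstep).trans ?_
      rw [Finset.sum_add_distrib, Finset.sum_add_distrib, ← Finset.mul_sum, ← Finset.mul_sum, ← Finset.mul_sum,
        ← Finset.mul_sum, sum_pairs hS]
      have hC : Cbd (n + 1) = (n + 1) * (4 + Cbd n) + 16 := rfl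
      rw [hC]
      have h7 : 0 ≤ eta ^ a := Real.rpow_nonneg h0.le _
      have h8 : 0 ≤ eta ^ a * ∑ y ∈ S, B y := mul_nonneg h7 hBs
      nlinarith

end

end Pool.Agent.GMH.BDL
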