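import Pool.Agent.M3.FPInfo
import Pool.Agent.M3.FPPoE
import Pool.Agent.GM.Expert

/-!
# GMH.Bal: the potential `M` of HARM and its exact balance, any number of labels (helper12)

`ι` = finite partially ordered set of indices (for HARM the index sets `J ≠ univ`), `o` = its smallest element (the class),
`L i` = label of the index `i`, `W` = base information (exact known points, node).

* `bel L j`, `ble L j`, `fam L S` : the labels below `j`, below or equal to `j`, in `S` (as functions `ι → Option υ`);
* `MP P L o W = ∑_(j ≠ o) H(L_j | L_(<j), W) - H(L | L_o, W)`, the relative entropy with respect to the product of the experts;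
* `MP_nonneg`, `MP_congr`;
* `MP_step` : one addition `v` at the index `k`:
  `M - M' = ∑_(i > k) I(v; L_i | L_(<i), W) - I(v; L | L_(≤k), W)`; `MP_top` : at a maximal index `M ≤ M'`;
* `MP_digit` : `M(W, D) - M(W) = I(D; L | L_o, W) - ∑_(j ≠ o) I(D; L_j | L_(<j), W)`;
* `MP_rho` : the same as the mean of `rho = log(1 + D b) - log(1 + D m) - ∑_j (log(1 + D u_j) - log(1 + D u'_j))`;
* `rho_ex` : on an event `G` on which `|u'_j| ≤ 1/2` : `E 1_G (b - ex)^2 ≤ 2 E 1_G (rho + log Z)`, `Z` = normalisation.
-/

set_option autoImplicit false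
set_option linter.unusedSectionVars false

namespace Pool.Agent.GMH

open Finset Pool.Agent.PWZ Pool.Agent.M3 Pool.Agent.GM

noncomputable section

variable {Om : Type*} [Fintype Om] (P : FP Om) {ι υ κ : Type*} [Fintype ι] [PartialOrder ι]

open Classical in
/-- the labels in `S` -/
def fam (L : ι → Om → υ) (S : Finset ι) (w : Om) : ι → Option υ := fun i => if i ∈ S then some (L i w) else none

open Classical in
/-- the labels below `j` -/
def bel (L : ι → Om → υ) (j : ι) (w : Om) : ι → Option υ := fun i => if i < j then some (L i w) else none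

open Classical in
/-- the labels below or equal to `j` -/
def ble (L : ι → Om → υ) (j : ι) (w : Om) : ι → Option υ := fun i => if i ≤ j then some (L i w) else none

/-- all labels -/
def all (L : ι → Om → υ) (w : Om) : ι → υ := fun i => L i w

theorem fac_fam {L : ι → Om → υ} {S : Finset ι} {X : Om → κ} (h : ∀ i ∈ S, Fac X (L i)) : Fac X (fam L S) := by
  intro v w hv
  funext i
  unfold fam
  by_cases hi : i ∈ S
  · rw [if_pos hi, if_pos hi, h i hi v w hv]
  · rw [if_neg hi, if_neg hi]

theorem fam_fac {L : ι → Om → υ} {S : Finset ι} {i : ι} (hi : i ∈ S) : Fac (fam L S) (L i) := by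
  intro v w hv
  have := congrFun hv i
  unfold fam at this
  rw [if_pos hi, if_pos hi] at this
  exact Option.some.inj this

theorem fac_bel {L : ι → Om → υ} {j : ι} {X : Om → κ} (h : ∀ i, i < j → Fac X (L i)) : Fac X (bel L j) := by
  intro v w hv
  funext i
  unfold bel
  by_cases hi : i < j
  · rw [if_pos hi, if_pos hi, h i hi v w hv]
  · rw [if_neg hi, if_neg hi]

theorem bel_fac {L : ι → Om → υ} {i j : ι} (hi : i < j) : Fac (bel L j) (L i) := by
  intro v w hv
  have := congrFun hv i
  unfold bel at this
  rw [if_pos hi, if_pos hi] at this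
  exact Option.some.inj this

theorem fac_ble {L : ι → Om → υ} {j : ι} {X : Om → κ} (h : ∀ i, i ≤ j → Fac X (L i)) : Fac X (ble L j) := by
  intro v w hv
  funext i
  unfold ble
  by_cases hi : i ≤ j
  · rw [if_pos hi, if_pos hi, h i hi v w hv]
  · rw [if_neg hi, if_neg hi]

theorem ble_fac {L : ι → Om → υ} {i j : ι} (hi : i ≤ j) : Fac (ble L j) (L i) := by
  intro v w hv
  have := congrFun hv i
  unfold ble at this
  rw [if_pos hi, if_pos hi] at this
  exact Option.some.inj this

theorem fac_all {L : ι → Om → υ} {X : Om → κ} (h : ∀ i, Fac X (L i)) : Fac X (all L) := by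
  intro v w hv
  funext i
  exact h i v w hv

theorem all_fac {L : ι → Om → υ} (i : ι) : Fac (all L) (L i) := fun v w hv => congrFun hv i

open Classical in
/-- the potential -/
def MP (L : ι → Om → υ) (o : ι) (W : Om → κ) : ℝ :=
  ∑ j ∈ univ.erase o, P.Hc (L j) (fun w => (bel L j w, W w)) - P.Hc (all L) (fun w => (L o w, W w))

/-! ## elementary facts about conditional entropies -/

theorem Hc_cond {α β γ : Type*} (X : Om → α) {Y : Om → β} {Z : Om → γ} (h : Fac Y Z) (h' : Fac Z Y) :
    P.Hc X Y = P.Hc X Z := le_antisymm (P.Hc_anti X h) (P.Hc_anti X h')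

theorem Hc_left {α β γ : Type*} {X : Om → α} {X' : Om → β} (Z : Om → γ) (h : Fac (fun w => (X w, Z w)) X')
    (h' : Fac (fun w => (X' w, Z w)) X) : P.Hc X Z = P.Hc X' Z :=
  le_antisymm (P.Hc_mono Z h') (P.Hc_mono Z h)

/-- chain rule -/
theorem fam_le {L : ι → Om → υ} {o : ι} (W : Om → κ) (n : ℕ) : ∀ S : Finset ι, S.card = n → o ∉ S →
    (∀ j ∈ S, ∀ i, i < j → i ∈ S ∨ i = o) →
    P.Hc (fam L S) (fun w => (L o w, W w)) ≤ ∑ j ∈ S, P.Hc (L j) (fun w => (bel L j w, W w)) := by
  classical
  induction n with
  | zero =>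
    intro S hS _ _
    rw [Finset.card_eq_zero] at hS
    subst hS
    rw [Finset.sum_empty]
    have h1 : P.Hc (fam L (∅ : Finset ι)) (fun w => (L o w, W w)) ≤ P.Hc (fun _ => ()) (fun w => (L o w, W w)) := by
      refine P.Hc_mono _ ?_
      intro _ _ _
      funext i
      simp [fam]
    have h2 : P.Hc (fun _ => ()) (fun w => (L o w, W w)) ≤ 0 := by
      refine (P.Hc_le_H _ _).trans (le_of_eq ?_)
      exact P.H_const ()
    exact h1.trans h2
  | succ n ih =>
    intro S hS hoS hdown
    have hne : S.Nonempty := by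
      rw [← Finset.card_pos]; omega
    obtain ⟨j, hj, hmax⟩ := S.exists_maximal hne
    have hcard : (S.erase j).card = n := by rw [Finset.card_erase_of_mem hj]; omega
    have key := ih (S.erase j) hcard (fun h => hoS (Finset.mem_of_mem_erase h)) (by
      intro j' hj' i hi
      rcases hdown j' (Finset.mem_of_mem_erase hj') i hi with h | h
      · left
        refine Finset.mem_erase.2 ⟨?_, h⟩
        rintro rfl
        exact absurd (hmax (Finset.mem_of_mem_erase hj') hi.le) (not_le_of_gt hi)
      · exact Or.inr h)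
    rw [← Finset.add_sum_erase S _ hj]
    have h1 : P.Hc (fam L S) (fun w => (L o w, W w)) ≤
        P.Hc (fun w => (L j w, fam L (S.erase j) w)) (fun w => (L o w, W w)) := by
      refine P.Hc_mono _ ?_
      intro v w hv
      simp only [Prod.mk.injEq] at hv
      funext i
      unfold fam
      by_cases hi : i ∈ S
      · rw [if_pos hi, if_pos hi]
        by_cases hij : i = j
        · rw [hij, hv.1.1]
        · have := congrFun hv.1.2 i
          unfold fam at this
          rw [if_pos (Finset.mem_erase.2 ⟨hij, hi⟩), if_pos (Finset.mem_erase.2 ⟨hij, hi⟩)] at this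
          exact this
      · rw [if_neg hi, if_neg hi]
    have h2 := P.Hc_chain (L j) (fam L (S.erase j)) (fun w => (L o w, W w))
    have h3 : P.Hc (L j) (fun w => (fam L (S.erase j) w, L o w, W w)) ≤ P.Hc (L j) (fun w => (bel L j w, W w)) := by
      refine P.Hc_anti (L j) ?_
      intro v w hv
      simp only [Prod.mk.injEq] at hv ⊢
      refine ⟨?_, hv.2.2⟩
      funext i
      unfold bel
      by_cases hi : i < j
      · rw [if_pos hi, if_pos hi]
        rcases hdown j hj i hi with h | h
        · have h4 : i ∈ S.erase j := Finset.mem_erase.2 ⟨hi.ne, h⟩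
          have := congrFun hv.1 i
          unfold fam at this
          rw [if_pos h4, if_pos h4] at this
          exact this
        · rw [h, hv.2.1]
      · rw [if_neg hi, if_neg hi]
    linarith

theorem MP_nonneg (L : ι → Om → υ) {o : ι} (ho : ∀ i, o ≤ i) (W : Om → κ) : 0 ≤ MP P L o W := by
  classical
  have h1 := fam_le P (L := L) (o := o) W _ (univ.erase o) rfl (Finset.notMem_erase o univ) (by
    intro j _ i _
    by_cases hi : i = o
    · exact Or.inr hi
    · exact Or.inl (Finset.mem_erase.2 ⟨hi, Finset.mem_univ _⟩))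
  have h2 : P.Hc (all L) (fun w => (L o w, W w)) ≤ P.Hc (fam L (univ.erase o)) (fun w => (L o w, W w)) := by
    refine P.Hc_mono _ ?_
    intro v w hv
    simp only [Prod.mk.injEq] at hv
    funext i
    unfold all
    by_cases hi : i = o
    · rw [hi]; exact hv.2.1
    · exact fam_fac (Finset.mem_erase.2 ⟨hi, Finset.mem_univ _⟩) v w hv.1
  unfold MP
  linarith

/-- the potential depends only on the partitions -/
theorem MP_congr {υ' κ' : Type*} {L : ι → Om → υ} {L' : ι → Om → υ'} (o : ι) {W : Om → κ} {W' : Om → κ'}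
    (h : ∀ i, Fac (L i) (L' i)) (h' : ∀ i, Fac (L' i) (L i)) (hW : Fac W W') (hW' : Fac W' W) :
    MP P L o W = MP P L' o W' := by
  classical
  unfold MP
  congr 1
  · refine Finset.sum_congr rfl fun j _ => ?_
    have e1 : P.Hc (L j) (fun w => (bel L j w, W w)) = P.Hc (L j) (fun w => (bel L' j w, W' w)) := by
      refine Hc_cond P _ ?_ ?_
      · intro v w hv
        simp only [Prod.mk.injEq] at hv ⊢
        exact ⟨fac_bel (fun i hi => (bel_fac hi).trans (h i)) v w hv.1, hW v w hv.2⟩
      · intro v w hv
        simp only [Prod.mk.injEq] at hv ⊢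
        exact ⟨fac_bel (fun i hi => (bel_fac hi).trans (h' i)) v w hv.1, hW' v w hv.2⟩
    rw [e1]
    exact Hc_left P _ ((Fac.fst _ _).trans (h j)) ((Fac.fst _ _).trans (h' j))
  · have e1 : P.Hc (all L) (fun w => (L o w, W w)) = P.Hc (all L) (fun w => (L' o w, W' w)) := by
      refine Hc_cond P _ ?_ ?_
      · intro v w hv
        simp only [Prod.mk.injEq] at hv ⊢
        exact ⟨h o v w hv.1, hW v w hv.2⟩
      · intro v w hv
        simp only [Prod.mk.injEq] at hv ⊢
        exact ⟨h' o v w hv.1, hW' v w hv.2⟩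
    rw [e1]
    exact Hc_left P _ ((Fac.fst _ _).trans (fac_all fun i => (all_fac i).trans (h i)))
      ((Fac.fst _ _).trans (fac_all fun i => (all_fac i).trans (h' i)))

/-! ## additions -/

/-- what the family `L'` (one addition `v` at the index `k`) means -/
structure Add {υ' ν : Type*} (L : ι → Om → υ) (L' : ι → Om → υ') (k : ι) (v : Om → ν) : Prop where
  fw : ∀ i, i ≠ k → Fac (L i) (L' i)
  bw : ∀ i, i ≠ k → Fac (L' i) (L i)
  kf : Fac (fun w => (L k w, v w)) (L' k)
  kb : Fac (L' k) (fun w => (L k w, v w))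

theorem Add.old {υ' ν : Type*} {L : ι → Om → υ} {L' : ι → Om → υ'} {k : ι} {v : Om → ν} (h : Add L L' k v) (i : ι) :
    Fac (L' i) (L i) := by
  by_cases hi : i = k
  · rw [hi]; exact h.kb.trans (Fac.fst _ _)
  · exact h.bw i hi

theorem Add.new {υ' ν : Type*} {L : ι → Om → υ} {L' : ι → Om → υ'} {k : ι} {v : Om → ν} (h : Add L L' k v) (i : ι) :
    Fac (fun w => (L i w, v w)) (L' i) := by
  by_cases hi : i = k
  · rw [hi]; exact h.kf
  · exact (Fac.fst _ _).trans (h.fw i hi)

theorem Hc_sub_I {α β γ : Type*} (X : Om → α) (Y : Om → β) (Z : Om → γ) :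
    P.Hc X (fun w => (Y w, Z w)) = P.Hc X Z - P.I X Y Z := by
  rw [P.I_eq_Hc]; ring

theorem I_cond {α β γ δ : Type*} (X : Om → α) (Y : Om → β) {Z : Om → γ} {Z' : Om → δ} (h : Fac Z Z') (h' : Fac Z' Z) :
    P.I X Y Z = P.I X Y Z' := P.I_congr_cond h h'

/-- EXACT BALANCE OF ONE ADDITION -/
theorem MP_step {υ' ν : Type*} {L : ι → Om → υ} {L' : ι → Om → υ'} {k o : ι} (ho : ∀ i, o ≤ i) {v : Om → ν}
    (h : Add L L' k v) (W : Om → κ) [DecidableEq ι] [DecidableRel (fun a b : ι => a < b)] :
    MP P L o W - MP P L' o W = ∑ i ∈ univ.filter (fun i => k < i), P.I v (L i) (fun w => (bel L i w, W w)) -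
      P.I v (all L) (fun w => (ble L k w, W w)) := by
  classical
  -- the entropies of the single labels
  have hbelow : ∀ j, ¬ k < j → j ≠ k → P.Hc (L' j) (fun w => (bel L' j w, W w)) = P.Hc (L j) (fun w => (bel L j w, W w)) := by
    intro j hj hjk
    have e1 : P.Hc (L' j) (fun w => (bel L' j w, W w)) = P.Hc (L' j) (fun w => (bel L j w, W w)) := by
      refine Hc_cond P _ ?_ ?_
      · intro a b hab
        simp only [Prod.mk.injEq] at hab ⊢
        exact ⟨fac_bel (fun i hi => (bel_fac hi).trans (h.old i)) a b hab.1, hab.2⟩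
      · intro a b hab
        simp only [Prod.mk.injEq] at hab ⊢
        refine ⟨fac_bel (fun i hi => (bel_fac hi).trans (h.fw i ?_)) a b hab.1, hab.2⟩
        rintro rfl
        exact hj hi
    rw [e1]
    exact Hc_left P _ ((Fac.fst _ _).trans (h.bw j hjk)) ((Fac.fst _ _).trans (h.fw j hjk))
  have habove : ∀ j, k < j → P.Hc (L' j) (fun w => (bel L' j w, W w)) =
      P.Hc (L j) (fun w => (bel L j w, W w)) - P.I v (L j) (fun w => (bel L j w, W w)) := by
    intro j hj
    have e1 : P.Hc (L' j) (fun w => (bel L' j w, W w)) = P.Hc (L' j) (fun w => (v w, bel L j w, W w)) := by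
      refine Hc_cond P _ ?_ ?_
      · intro a b hab
        simp only [Prod.mk.injEq] at hab ⊢
        have h1 := h.kb.trans (Fac.snd _ _) a b (bel_fac hj a b hab.1)
        exact ⟨h1, fac_bel (fun i hi => (bel_fac hi).trans (h.old i)) a b hab.1, hab.2⟩
      · intro a b hab
        simp only [Prod.mk.injEq] at hab ⊢
        refine ⟨?_, hab.2.2⟩
        refine fac_bel (X := fun w => (v w, bel L j w)) (fun i hi => ?_) a b (by simp only [Prod.mk.injEq]; exact ⟨hab.1, hab.2.1⟩)
        intro a' b' h'
        simp only [Prod.mk.injEq] at h'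
        exact h.new i a' b' (by simp only [Prod.mk.injEq]; exact ⟨bel_fac hi a' b' h'.2, h'.1⟩)
    rw [e1]
    have hjk : j ≠ k := hj.ne'
    rw [Hc_left P (X' := L j) _ ((Fac.fst _ _).trans (h.bw j hjk)) ((Fac.fst _ _).trans (h.fw j hjk)),
      Hc_sub_I P (L j) v (fun w => (bel L j w, W w)), P.I_comm]
  have hk : P.Hc (L' k) (fun w => (bel L' k w, W w)) =
      P.Hc (L k) (fun w => (bel L k w, W w)) + P.Hc v (fun w => (ble L k w, W w)) := by
    have e1 : P.Hc (L' k) (fun w => (bel L' k w, W w)) = P.Hc (L' k) (fun w => (bel L k w, W w)) := by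
      refine Hc_cond P _ ?_ ?_
      · intro a b hab
        simp only [Prod.mk.injEq] at hab ⊢
        exact ⟨fac_bel (fun i hi => (bel_fac hi).trans (h.old i)) a b hab.1, hab.2⟩
      · intro a b hab
        simp only [Prod.mk.injEq] at hab ⊢
        exact ⟨fac_bel (fun i hi => (bel_fac hi).trans (h.fw i hi.ne)) a b hab.1, hab.2⟩
    have e2 : P.Hc (L' k) (fun w => (bel L k w, W w)) = P.Hc (fun w => (v w, L k w)) (fun w => (bel L k w, W w)) := by
      refine Hc_left P _ ((Fac.fst _ _).trans ?_) ((Fac.fst _ _).trans ?_)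
      · intro a b hab
        have := h.kb a b hab
        simp only [Prod.mk.injEq] at this ⊢
        exact ⟨this.2, this.1⟩
      · intro a b hab
        simp only [Prod.mk.injEq] at hab
        exact h.kf a b (by simp only [Prod.mk.injEq]; exact ⟨hab.2, hab.1⟩)
    have e3 := P.Hc_chain v (L k) (fun w => (bel L k w, W w))
    have e4 : P.Hc v (fun w => (L k w, bel L k w, W w)) = P.Hc v (fun w => (ble L k w, W w)) := by
      refine Hc_cond P _ ?_ ?_
      · intro a b hab
        simp only [Prod.mk.injEq] at hab ⊢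
        refine ⟨?_, hab.2.2⟩
        funext i
        unfold ble
        by_cases hi : i ≤ k
        · rw [if_pos hi, if_pos hi]
          rcases hi.lt_or_eq with h1 | h1
          · rw [bel_fac h1 a b hab.2.1]
          · rw [h1, hab.1]
        · rw [if_neg hi, if_neg hi]
      · intro a b hab
        simp only [Prod.mk.injEq] at hab ⊢
        exact ⟨ble_fac le_rfl a b hab.1, fac_bel (fun i hi => ble_fac hi.le) a b hab.1, hab.2⟩
    linarith
  by_cases hko : k = o
  · subst hko
    have hs : ∀ j ∈ univ.erase k, P.Hc (L' j) (fun w => (bel L' j w, W w)) =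
        P.Hc (L j) (fun w => (bel L j w, W w)) - P.I v (L j) (fun w => (bel L j w, W w)) := by
      intro j hj
      exact habove j (lt_of_le_of_ne (ho j) (Finset.ne_of_mem_erase hj).symm)
    have hf : univ.filter (fun i => k < i) = univ.erase k := by
      ext i
      simp only [Finset.mem_filter, Finset.mem_univ, true_and, Finset.mem_erase, and_true]
      exact ⟨fun h1 => h1.ne', fun h1 => lt_of_le_of_ne (ho i) h1.symm⟩
    have hall : P.Hc (all L') (fun w => (L' k w, W w)) = P.Hc (all L) (fun w => (L k w, W w)) -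
        P.I v (all L) (fun w => (ble L k w, W w)) := by
      have e1 : P.Hc (all L') (fun w => (L' k w, W w)) = P.Hc (all L') (fun w => (v w, L k w, W w)) := by
        refine Hc_cond P _ ?_ ?_
        · intro a b hab
          simp only [Prod.mk.injEq] at hab ⊢
          have := h.kb a b hab.1
          simp only [Prod.mk.injEq] at this
          exact ⟨this.2, this.1, hab.2⟩
        · intro a b hab
          simp only [Prod.mk.injEq] at hab ⊢
          exact ⟨h.kf a b (by simp only [Prod.mk.injEq]; exact ⟨hab.2.1, hab.1⟩), hab.2.2⟩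
      have e2 : P.Hc (all L') (fun w => (v w, L k w, W w)) = P.Hc (all L) (fun w => (v w, L k w, W w)) := by
        refine Hc_left P _ ?_ ?_
        · exact (Fac.fst _ _).trans (fac_all fun i => (all_fac i).trans (h.old i))
        · intro a b hab
          simp only [Prod.mk.injEq] at hab
          funext i
          exact h.new i a b (by simp only [Prod.mk.injEq]; exact ⟨congrFun hab.1 i, hab.2.1⟩)
      have e3 : P.I v (all L) (fun w => (ble L k w, W w)) = P.I v (all L) (fun w => (L k w, W w)) := by
        refine I_cond P _ _ ?_ ?_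
        · intro a b hab
          simp only [Prod.mk.injEq] at hab ⊢
          exact ⟨ble_fac le_rfl a b hab.1, hab.2⟩
        · intro a b hab
          simp only [Prod.mk.injEq] at hab ⊢
          refine ⟨?_, hab.2⟩
          funext i
          unfold ble
          by_cases hi : i ≤ k
          · rw [if_pos hi, if_pos hi, le_antisymm hi (ho i), hab.1]
          · rw [if_neg hi, if_neg hi]
      rw [e1, e2, Hc_sub_I P (all L) v (fun w => (L k w, W w)), e3, P.I_comm]
    unfold MP
    have hE : (univ.erase k : Finset ι) = @Finset.erase ι (fun a b => Classical.propDecidable (a = b)) univ k := by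
      ext i; simp
    rw [← hE, hall, hf, Finset.sum_congr rfl hs, Finset.sum_sub_distrib]
    ring
  · have hall : P.Hc (all L') (fun w => (L' o w, W w)) = P.Hc (all L) (fun w => (L o w, W w)) +
        P.Hc v (fun w => (all L w, ble L k w, W w)) := by
      have hok : o ≠ k := fun h1 => hko h1.symm
      have e1 : P.Hc (all L') (fun w => (L' o w, W w)) = P.Hc (all L') (fun w => (L o w, W w)) := by
        refine Hc_cond P _ ?_ ?_
        · intro a b hab
          simp only [Prod.mk.injEq] at hab ⊢
          exact ⟨h.bw o hok a b hab.1, hab.2⟩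
        · intro a b hab
          simp only [Prod.mk.injEq] at hab ⊢
          exact ⟨h.fw o hok a b hab.1, hab.2⟩
      have e2 : P.Hc (all L') (fun w => (L o w, W w)) = P.Hc (fun w => (v w, all L w)) (fun w => (L o w, W w)) := by
        refine Hc_left P _ ((Fac.fst _ _).trans ?_) ((Fac.fst _ _).trans ?_)
        · intro a b hab
          simp only [Prod.mk.injEq]
          refine ⟨h.kb.trans (Fac.snd _ _) a b (congrFun hab k), ?_⟩
          exact fac_all (fun i => (all_fac i).trans (h.old i)) a b hab
        · intro a b hab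
          simp only [Prod.mk.injEq] at hab
          funext i
          exact h.new i a b (by simp only [Prod.mk.injEq]; exact ⟨congrFun hab.2 i, hab.1⟩)
      have e3 := P.Hc_chain v (all L) (fun w => (L o w, W w))
      have e4 : P.Hc v (fun w => (all L w, L o w, W w)) = P.Hc v (fun w => (all L w, ble L k w, W w)) := by
        refine Hc_cond P _ ?_ ?_
        · intro a b hab
          simp only [Prod.mk.injEq] at hab ⊢
          exact ⟨hab.1, fac_ble (fun i _ => all_fac i) a b hab.1, hab.2.2⟩
        · intro a b hab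
          simp only [Prod.mk.injEq] at hab ⊢
          exact ⟨hab.1, congrFun hab.1 o, hab.2.2⟩
      linarith
    have hI : P.I v (all L) (fun w => (ble L k w, W w)) = P.Hc v (fun w => (ble L k w, W w)) -
        P.Hc v (fun w => (all L w, ble L k w, W w)) := by
      rw [P.I_eq_Hc]
    have hkm : k ∈ univ.erase o := Finset.mem_erase.2 ⟨hko, Finset.mem_univ _⟩
    have hsum : ∑ j ∈ univ.erase o, P.Hc (L' j) (fun w => (bel L' j w, W w)) =
        ∑ j ∈ univ.erase o, P.Hc (L j) (fun w => (bel L j w, W w)) + P.Hc v (fun w => (ble L k w, W w)) -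
          ∑ i ∈ univ.filter (fun i => k < i), P.I v (L i) (fun w => (bel L i w, W w)) := by
      have e1 : ∀ j ∈ univ.erase o, P.Hc (L' j) (fun w => (bel L' j w, W w)) =
          P.Hc (L j) (fun w => (bel L j w, W w)) + (if j = k then P.Hc v (fun w => (ble L k w, W w)) else 0) -
            (if k < j then P.I v (L j) (fun w => (bel L j w, W w)) else 0) := by
        intro j _
        by_cases h1 : j = k
        · subst h1
          rw [if_pos rfl, if_neg (lt_irrefl _), hk]; ring
        · rw [if_neg h1]
          by_cases h2 : k < j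
          · rw [if_pos h2, habove j h2]; ring
          · rw [if_neg h2, hbelow j h2 h1]; ring
      rw [Finset.sum_congr rfl e1, Finset.sum_sub_distrib, Finset.sum_add_distrib, Finset.sum_ite_eq' (univ.erase o) k,
        if_pos hkm]
      congr 1
      rw [← Finset.sum_filter]
      refine Finset.sum_congr ?_ (fun _ _ => rfl)
      ext i
      simp only [Finset.mem_filter, Finset.mem_erase, Finset.mem_univ, and_true, true_and]
      exact ⟨fun h1 => h1.2, fun h1 => ⟨fun h2 => absurd (ho k) (not_le_of_gt (h2 ▸ h1)), h1⟩⟩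
    unfold MP
    have hE : (univ.erase o : Finset ι) = @Finset.erase ι (fun a b => Classical.propDecidable (a = b)) univ o := by
      ext i; simp
    rw [← hE, hsum, hall, hI]
    ring

/-- additions at a maximal index (births) only increase the potential -/
theorem MP_top {υ' ν : Type*} {L : ι → Om → υ} {L' : ι → Om → υ'} {k o : ι} (ho : ∀ i, o ≤ i) {v : Om → ν}
    (h : Add L L' k v) (W : Om → κ) (hk : ∀ i, ¬ k < i) : MP P L o W ≤ MP P L' o W := by
  classical
  have h1 := MP_step P ho h W
  have h2 : univ.filter (fun i => k < i) = ∅ := by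
    rw [Finset.filter_eq_empty_iff]
    exact fun i _ => hk i
  rw [h2, Finset.sum_empty] at h1
  have h3 := P.I_nonneg v (all L) (fun w => (ble L k w, W w))
  linarith

/-! ## the digit -/

/-- EXACT BALANCE OF THE DIGIT, informations -/
theorem MP_digit [DecidableEq ι] {δ : Type*} (D : Om → δ) (L : ι → Om → υ) (o : ι) (W : Om → κ) :
    MP P L o (fun w => (D w, W w)) - MP P L o W =
      P.I D (all L) (fun w => (L o w, W w)) - ∑ j ∈ univ.erase o, P.I D (L j) (fun w => (bel L j w, W w)) := by
  classical
  have h1 : ∀ j, P.Hc (L j) (fun w => (bel L j w, D w, W w)) = P.Hc (L j) (fun w => (bel L j w, W w)) -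
      P.I D (L j) (fun w => (bel L j w, W w)) := by
    intro j
    have e1 : P.Hc (L j) (fun w => (bel L j w, D w, W w)) = P.Hc (L j) (fun w => (D w, bel L j w, W w)) := by
      refine Hc_cond P _ ?_ ?_ <;>
      · intro a b hab
        simp only [Prod.mk.injEq] at hab ⊢
        exact ⟨hab.2.1, hab.1, hab.2.2⟩
    rw [e1, Hc_sub_I P (L j) D (fun w => (bel L j w, W w)), P.I_comm]
  have h2 : P.Hc (all L) (fun w => (L o w, D w, W w)) = P.Hc (all L) (fun w => (L o w, W w)) -
      P.I D (all L) (fun w => (L o w, W w)) := by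
    have e1 : P.Hc (all L) (fun w => (L o w, D w, W w)) = P.Hc (all L) (fun w => (D w, L o w, W w)) := by
      refine Hc_cond P _ ?_ ?_ <;>
      · intro a b hab
        simp only [Prod.mk.injEq] at hab ⊢
        exact ⟨hab.2.1, hab.1, hab.2.2⟩
    rw [e1, Hc_sub_I P (all L) D (fun w => (L o w, W w)), P.I_comm]
  unfold MP
  have hE : (univ.erase o : Finset ι) = @Finset.erase ι (fun a b => Classical.propDecidable (a = b)) univ o := by
    ext i; simp
  rw [← hE, h2, Finset.sum_congr rfl (fun j _ => h1 j), Finset.sum_sub_distrib]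
  ring

/-- mean of the digit given the class -/
def bm (D : Om → ℝ) (L : ι → Om → υ) (o : ι) (W : Om → κ) : Om → ℝ := P.ce (fun v => (L o v, W v)) D

/-- mean of the digit given everything -/
def ba (D : Om → ℝ) (L : ι → Om → υ) (W : Om → κ) : Om → ℝ := P.ce (fun v => (all L v, W v)) D

/-- mean of the digit given the expert `j` -/
def bu (D : Om → ℝ) (L : ι → Om → υ) (W : Om → κ) (j : ι) : Om → ℝ := P.ce (fun v => (ble L j v, W v)) D

/-- mean of the digit given everything strictly below `j` -/
def bl (D : Om → ℝ) (L : ι → Om → υ) (W : Om → κ) (j : ι) : Om → ℝ := P.ce (fun v => (bel L j v, W v)) D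

open Classical in
/-- the density of the balance of the digit -/
def rho (D : Om → ℝ) (L : ι → Om → υ) (o : ι) (W : Om → κ) (w : Om) : ℝ :=
  Real.log (1 + D w * ba P D L W w) - Real.log (1 + D w * bm P D L o W w) -
    ∑ j ∈ univ.erase o, (Real.log (1 + D w * bu P D L W j w) - Real.log (1 + D w * bl P D L W j w))

variable {D : Om → ℝ} (hD : ∀ w, P.p w ≠ 0 → D w = 1 ∨ D w = -1)

include hD

/-- EXACT BALANCE OF THE DIGIT -/
theorem MP_rho (L : ι → Om → υ) (o : ι) (W : Om → κ) :
    MP P L o (fun w => (D w, W w)) - MP P L o W = P.E (rho P D L o W) := by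
  classical
  rw [MP_digit P D L o W, P.I_digit_eq hD (all L) (fun w => (L o w, W w))]
  have h1 : ∀ j, P.I D (L j) (fun w => (bel L j w, W w)) =
      P.E (fun w => Real.log (1 + D w * bu P D L W j w) - Real.log (1 + D w * bl P D L W j w)) := by
    intro j
    rw [P.I_digit_eq hD (L j) (fun w => (bel L j w, W w))]
    refine P.E_congr (fun w _ => ?_)
    have e : P.ce (fun v => (L j v, bel L j v, W v)) D w = bu P D L W j w := by
      unfold bu
      refine P.ce_congr_map ?_ ?_ D w
      · intro a b hab
        simp only [Prod.mk.injEq] at hab ⊢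
        refine ⟨?_, hab.2.2⟩
        funext i
        unfold ble
        by_cases hi : i ≤ j
        · rw [if_pos hi, if_pos hi]
          rcases hi.lt_or_eq with h1 | h1
          · rw [bel_fac h1 a b hab.2.1]
          · rw [h1, hab.1]
        · rw [if_neg hi, if_neg hi]
      · intro a b hab
        simp only [Prod.mk.injEq] at hab ⊢
        exact ⟨ble_fac le_rfl a b hab.1, fac_bel (fun i hi => ble_fac hi.le) a b hab.1, hab.2⟩
    rw [e]
    rfl
  have h2 : ∀ w, P.ce (fun v => (all L v, L o v, W v)) D w = ba P D L W w := by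
    intro w
    unfold ba
    refine P.ce_congr_map ?_ ?_ D w
    · intro a b hab
      simp only [Prod.mk.injEq] at hab ⊢
      exact ⟨hab.1, hab.2.2⟩
    · intro a b hab
      simp only [Prod.mk.injEq] at hab ⊢
      exact ⟨hab.1, congrFun hab.1 o, hab.2⟩
  have hE : (univ.erase o : Finset ι) = @Finset.erase ι (fun a b => Classical.propDecidable (a = b)) univ o := by
    ext i; simp
  rw [Finset.sum_congr rfl (fun j _ => h1 j), ← P.E_sum, ← P.E_sub]
  refine P.E_congr (fun w _ => ?_)
  unfold rho
  rw [h2 w, ← hE]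
  rfl

open Classical in
/-- the normalisation of the product of the experts -/
def zz (P : FP Om) (D : Om → ℝ) (L : ι → Om → υ) (o : ι) (W : Om → κ) (w : Om) : ℝ :=
  (Rp (bm P D L o W w) (univ.erase o) (fun j => bu P D L W j w) (fun j => bl P D L W j w) +
    Rm (bm P D L o W w) (univ.erase o) (fun j => bu P D L W j w) (fun j => bl P D L W j w)) / 2

open Classical in
/-- the mean of the digit for the product of the experts -/
def bx (P : FP Om) (D : Om → ℝ) (L : ι → Om → υ) (o : ι) (W : Om → κ) (w : Om) : ℝ :=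
  ex (bm P D L o W w) (univ.erase o) (fun j => bu P D L W j w) (fun j => bl P D L W j w)

/-- THE SYNERGY ON A GOOD EVENT: `E 1_G (b - ex)^2 ≤ 2 E 1_G (rho + log Z)` -/
theorem rho_ex (L : ι → Om → υ) (o : ι) (W : Om → κ) (G : Om → Prop)
    (hG : ∀ v w, (all L v, W v) = (all L w, W w) → (G v ↔ G w))
    (hGu : ∀ w, G w → ∀ j, j ≠ o → |bl P D L W j w| ≤ 1 / 2) :
    P.E (fun w => ind (G w) * (ba P D L W w - bx P D L o W w) ^ 2) ≤
      2 * P.E (fun w => ind (G w) * (rho P D L o W w + Real.log (zz P D L o W w))) := by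
  classical
  have hD1 : ∀ w, P.p w ≠ 0 → |D w| ≤ 1 := fun w hw => by
    rcases hD w hw with h | h <;> rw [h] <;> norm_num
  set A : Om → (ι → υ) × κ := fun v => (all L v, W v) with hA
  have fm : Fac A (bm P D L o W) := by
    intro v w hv
    simp only [hA, Prod.mk.injEq] at hv
    exact P.ce_fac _ _ v w (by simp only [Prod.mk.injEq]; exact ⟨congrFun hv.1 o, hv.2⟩)
  have fu : ∀ j, Fac A (bu P D L W j) := by
    intro j v w hv
    simp only [hA, Prod.mk.injEq] at hv
    exact P.ce_fac _ _ v w (by simp only [Prod.mk.injEq]; exact ⟨fac_ble (fun i _ => all_fac i) v w hv.1, hv.2⟩)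
  have fl : ∀ j, Fac A (bl P D L W j) := by
    intro j v w hv
    simp only [hA, Prod.mk.injEq] at hv
    exact P.ce_fac _ _ v w (by simp only [Prod.mk.injEq]; exact ⟨fac_bel (fun i _ => all_fac i) v w hv.1, hv.2⟩)
  have key := expert_kl P (A := A) (D := D) (S := univ.erase o) (m0 := bm P D L o W) (u := fun j => bu P D L W j)
    (u' := fun j => bl P D L W j) (G := G) hD fm (fun j _ => fu j) (fun j _ => fl j) hG
    (fun w hg j hj => hGu w hg j (Finset.ne_of_mem_erase hj))
    (fun w hw => P.abs_ce_le_one hD1 _ w) (fun w hw j _ => P.abs_ce_le_one hD1 _ w)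
    (fun w hw => P.digit_pos hD _ hw) (fun w hw j _ => P.digit_pos hD _ hw)
  refine key.trans (le_of_eq ?_)
  congr 1
  refine P.E_congr (fun w hw => ?_)
  by_cases hg : G w
  swap
  · rw [ind_not hg]; ring
  congr 1
  -- the product formula
  have pm : 0 < 1 + D w * bm P D L o W w := P.digit_pos hD _ hw
  have pu : ∀ j, 0 < 1 + D w * bu P D L W j w := fun j => P.digit_pos hD _ hw
  have pl : ∀ j, 0 < 1 + D w * bl P D L W j w := fun j => P.digit_pos hD _ hw
  set m0 := bm P D L o W w with hm0
  set S : Finset ι := univ.erase o with hS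
  set u : ι → ℝ := fun j => bu P D L W j w with hu
  set u' : ι → ℝ := fun j => bl P D L W j w with hu'
  have hm1 : |m0| ≤ 1 := P.abs_ce_le_one hD1 _ w
  have hu1 : ∀ j ∈ S, |u j| ≤ 1 := fun j _ => P.abs_ce_le_one hD1 _ w
  have hu'1 : ∀ j ∈ S, |u' j| ≤ 1 / 2 := fun j hj => hGu w hg j (Finset.ne_of_mem_erase hj)
  have hsgn : (0 < 1 + m0 ∧ ∀ i ∈ S, 0 < 1 + u i) ∨ (0 < 1 - m0 ∧ ∀ i ∈ S, 0 < 1 - u i) := by
    rcases hD w hw with h | h
    · rw [h] at pm
      left
      refine ⟨by linarith, fun i _ => ?_⟩
      have := pu i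
      rw [h] at this
      linarith
    · rw [h] at pm
      right
      refine ⟨by linarith, fun i _ => ?_⟩
      have := pu i
      rw [h] at this
      linarith
  have hsum : 0 < Rp m0 S u u' + Rm m0 S u u' := Rsum_pos hm1 hu1 hu'1 hsgn
  have hR : 1 + D w * ex m0 S u u' = ((1 + D w * m0) * ∏ i ∈ S, (1 + D w * u i) / (1 + D w * u' i)) /
      ((Rp m0 S u u' + Rm m0 S u u') / 2) := by
    rcases hD w hw with h | h
    · have e1 := one_add_ex hsum
      rw [h, one_mul, one_mul, e1]
      have e2 : Rp m0 S u u' = (1 + m0) * ∏ i ∈ S, (1 + 1 * u i) / (1 + 1 * u' i) := by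
        unfold Rp; simp only [one_mul]
      rw [← e2]
      field_simp
    · have e1 := one_sub_ex hsum
      have e0 : (1 : ℝ) + -1 * ex m0 S u u' = 1 - ex m0 S u u' := by ring
      rw [h, e0, e1]
      have e2 : Rm m0 S u u' = (1 + -1 * m0) * ∏ i ∈ S, (1 + -1 * u i) / (1 + -1 * u' i) := by
        unfold Rm
        have : ∀ x : ℝ, 1 + -1 * x = 1 - x := fun x => by ring
        simp only [this]
      rw [← e2]
      field_simp
  have hprod : 0 < ∏ i ∈ S, (1 + D w * u i) / (1 + D w * u' i) :=
    Finset.prod_pos fun i _ => div_pos (pu i) (pl i)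
  have hlog : Real.log (1 + D w * ex m0 S u u') = Real.log (1 + D w * m0) +
      ∑ i ∈ S, (Real.log (1 + D w * u i) - Real.log (1 + D w * u' i)) -
        Real.log ((Rp m0 S u u' + Rm m0 S u u') / 2) := by
    rw [hR, Real.log_div (mul_pos pm hprod).ne' (by positivity), Real.log_mul pm.ne' hprod.ne',
      Real.log_prod (fun i _ => (div_pos (pu i) (pl i)).ne')]
    congr 2
    refine Finset.sum_congr rfl fun i _ => ?_
    rw [Real.log_div (pu i).ne' (pl i).ne']
  change Real.log (1 + D w * ba P D L W w) - Real.log (1 + D w * ex m0 S u u') =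
    (Real.log (1 + D w * ba P D L W w) - Real.log (1 + D w * m0) -
      ∑ j ∈ S, (Real.log (1 + D w * u j) - Real.log (1 + D w * u' j))) +
      Real.log ((Rp m0 S u u' + Rm m0 S u u') / 2)
  rw [hlog]
  ring

end

end Pool.Agent.GMH
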