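import Pool.Agent.M3.FPMart

/-!
# GMH/KillP (helper80): probabilities of kills, abstract

* `digit_kill` : a digit with an unlikely value, paid by the square of its bias;
* `doob_kill` : the conditional probability of an increasing family of bad events becomes large.
-/

set_option autoImplicit false
set_option linter.unusedSectionVars false

namespace Pool.Agent.GMH

open Finset Pool.Agent.PWZ Pool.Agent.M3

variable {Om : Type*} [Fintype Om] (P : FP Om)

/-- one value of the digit -/
theorem digit_one {κ : Type*} (A : Om → κ) (g : Om → ℝ) (d z : ℝ) :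
    P.E (fun w => ind (g w = z) * ind (P.ce A (fun v => ind (g v = z)) w < d)) ≤
      d * P.E (fun w => ind (P.ce A (fun v => ind (g v = z)) w < d)) := by
  set p := P.ce A (fun v => ind (g v = z)) with hp
  have hfac : Fac A (fun w => ind (p w < d)) := Fac.ind fun v w h => by
    rw [hp, P.ce_fac A _ v w h]
  have h1 : P.E (fun w => ind (g w = z) * ind (p w < d)) = P.E (fun w => ind (p w < d) * p w) := by
    rw [hp, P.E_mul_ce hfac (fun v => ind (g v = z))]
    exact P.E_congr fun w _ => mul_comm _ _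
  rw [h1, ← P.E_smul]
  refine P.E_mono fun w _ => ?_
  by_cases h : p w < d
  · rw [ind_of h, one_mul, mul_one]
    exact h.le
  · rw [ind_not h, zero_mul, mul_zero]

/-- the conditional probability of a value and the bias -/
theorem digit_bias {κ : Type*} (A : Om → κ) (g : Om → ℝ) (hg : ∀ w, P.p w ≠ 0 → g w = 1 ∨ g w = -1) {w : Om}
    (hw : P.p w ≠ 0) : P.ce A g w = 2 * P.ce A (fun v => ind (g v = 1)) w - 1 ∧
      P.ce A (fun v => ind (g v = 1)) w + P.ce A (fun v => ind (g v = -1)) w = 1 := by
  have h1 : P.ce A (fun v => ind (g v = 1)) w + P.ce A (fun v => ind (g v = -1)) w = 1 := by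
    rw [← P.ce_add]
    refine Eq.trans (P.ce_congr (g := fun _ => (1 : ℝ)) (fun v hv => ?_) w) (P.ce_const A 1 hw)
    rcases hg v hv with h | h
    · rw [ind_of h, ind_not (by rw [h]; norm_num), add_zero]
    · rw [ind_of h, ind_not (by rw [h]; norm_num), zero_add]
  have h2 : P.ce A g w = P.ce A (fun v => ind (g v = 1)) w - P.ce A (fun v => ind (g v = -1)) w := by
    rw [← P.ce_sub]
    refine P.ce_congr (fun v hv => ?_) w
    rcases hg v hv with h | h
    · rw [ind_of h, ind_not (by rw [h]; norm_num), h, sub_zero]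
    · rw [ind_of h, ind_not (by rw [h]; norm_num), h, zero_sub]
  exact ⟨by linarith, h1⟩

/-- **A DIGIT WITH AN UNLIKELY VALUE** -/
theorem digit_kill {κ : Type*} (A : Om → κ) (g : Om → ℝ) (hg : ∀ w, P.p w ≠ 0 → g w = 1 ∨ g w = -1) {d : ℝ}
    (hd0 : 0 ≤ d) (hd : d ≤ 1 / 4) :
    P.Pr (fun w => P.ce A (fun v => ind (g v = g w)) w < d) ≤ 4 * d * P.E (fun w => P.ce A g w ^ 2) := by
  set p := P.ce A (fun v => ind (g v = 1)) with hp
  set q := P.ce A (fun v => ind (g v = -1)) with hq
  have h1 := digit_one P A g d 1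
  have h2 := digit_one P A g d (-1)
  have h3 : P.Pr (fun w => P.ce A (fun v => ind (g v = g w)) w < d) ≤
      P.E (fun w => ind (g w = 1) * ind (p w < d)) + P.E (fun w => ind (g w = -1) * ind (q w < d)) := by
    rw [← P.E_add]
    refine P.E_mono fun w hw => ?_
    show ind (P.ce A (fun v => ind (g v = g w)) w < d) ≤
      ind (g w = 1) * ind (p w < d) + ind (g w = -1) * ind (q w < d)
    rcases hg w hw with h | h
    · rw [h, ind_of rfl, one_mul]
      have := mul_nonneg (ind_nonneg ((1 : ℝ) = -1)) (ind_nonneg (q w < d))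
      linarith
    · rw [h, ind_of rfl, one_mul]
      have := mul_nonneg (ind_nonneg ((-1 : ℝ) = 1)) (ind_nonneg (p w < d))
      linarith
  have h4 : P.E (fun w => ind (p w < d)) + P.E (fun w => ind (q w < d)) ≤ 4 * P.E (fun w => P.ce A g w ^ 2) := by
    rw [← P.E_add, ← P.E_smul]
    refine P.E_mono fun w hw => ?_
    obtain ⟨e1, e2⟩ := digit_bias P A g hg hw
    have e1' : P.ce A g w = 2 * p w - 1 := e1
    have e2' : p w + q w = 1 := e2
    rw [e1']
    by_cases c1 : p w < d
    · have c2 : ¬ q w < d := by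
        intro c2
        linarith
      rw [ind_of c1, ind_not c2]
      nlinarith
    · by_cases c2 : q w < d
      · rw [ind_not c1, ind_of c2]
        nlinarith
      · rw [ind_not c1, ind_not c2]
        nlinarith [sq_nonneg (2 * p w - 1)]
  have h5 := mul_le_mul_of_nonneg_left h4 hd0
  linarith

/-- **THE CONDITIONAL PROBABILITY OF AN INCREASING FAMILY OF BAD EVENTS BECOMES LARGE** -/
theorem doob_kill {κ : ℕ → Type*} {K : ∀ t, Om → κ t} (hK : Filt K) {B : ℕ → Om → Prop}
    (hB : ∀ t w, P.p w ≠ 0 → B t w → B (t + 1) w) (T : ℕ) {e0 : ℝ} (he : 0 < e0) :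
    P.Pr (fun w => ∃ t ≤ T, e0 < P.ce (K t) (fun v => ind (B t v)) w) ≤ P.Pr (B T) / e0 := by
  have hB' : ∀ t ≤ T, ∀ w, P.p w ≠ 0 → B t w → B T w := by
    intro t ht w hw h
    induction T, ht using Nat.le_induction with
    | base => exact h
    | succ T _ ih => exact hB T w hw ih
  set Z : ℕ → Om → ℝ := fun t => P.ce (K t) (fun v => ind (B T v)) with hZ
  have h1 := P.doob_sub hK (Z := Z) (fun t => P.ce_fac (K t) _)
    (fun t w _ => P.ce_nonneg (fun _ _ => ind_nonneg _) w)
    (fun t w hw => le_of_eq (P.ce_tower (hK t) (fun v => ind (B T v)) w).symm) T e0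
  have h2 : P.E (Z T) = P.Pr (B T) := P.E_ce (K T) _
  rw [h2] at h1
  rw [le_div_iff₀ he, mul_comm]
  refine le_trans (mul_le_mul_of_nonneg_left (P.Pr_mono fun w hw h => ?_) he.le) h1
  obtain ⟨t, ht, h3⟩ := h
  refine ⟨t, ht, h3.le.trans ?_⟩
  exact P.ce_mono (fun v hv => ind_mono (hB' t ht v hv)) w

end Pool.Agent.GMH
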