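import Pool.Agent.GMH.StmtA
import Pool.Agent.GMH.KillP

/-!
# GMH/DeadP (helper80): probability of the dead points, public kills and unlikely digits

* `E_xy`, `m_xy`, `ce_xy`, `Pr_xy` : functions of the points have the same means under all laws `D.P h t`;
* `dead_pub` : public kills (Doob);
* `nY_half` : halving of the known cells; `dg_ratio` : given the letters of `S` the cells of the others are free;
* `dead_dig` : unlikely digits given the letters of `S`.
-/

set_option autoImplicit false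
set_option linter.unusedSectionVars false

namespace Pool.Agent.GMH.V3

open Finset Pool.Agent.PWZ Pool.Agent.M3 Pool.Agent.GM Pool.Agent.GM.Harm Pool.Agent.GMH Pool.Agent.GMH.NZ

variable {X β γ φ υ : Type} [Fintype X] [Fintype β] [Fintype φ] [Nonempty X] [Nonempty β]
variable {D : HD (Fin 3) X β γ φ} {al : ℝ} (h : D.Thick al) {v : ℕ → Finset (Fin 3) → X → (Fin 3 → β) → υ}
variable {dg : ℕ → X → ℝ} {prr : ℕ → Fin 3 → φ → φ} {T : ℕ} {Lam : ℝ}

/-! ### functions of the points -/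

/-- a function which does not see the top letters -/
def XY {κ : Type*} (f : Pt (Fin 3) X β φ → κ) : Prop :=
  ∀ (x : X) (y : Fin 3 → β) (F F' : Fin 3 → φ), f (x, y, F) = f (x, y, F')

theorem E_xy {f : Pt (Fin 3) X β φ → ℝ} (hf : XY f) (s t : ℕ) : (D.P h s).E f = (D.P h t).E f := by
  obtain ⟨w0, _⟩ := (D.P h t).exists_p_ne
  have e : f = fun w => (fun x y => f (x, y, w0.2.2)) w.1 w.2.1 := by
    funext w
    exact hf w.1 w.2.1 w.2.2 w0.2.2
  rw [e, E_labels0 h s fun x y => f (x, y, w0.2.2), E_labels0 h t fun x y => f (x, y, w0.2.2)]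

theorem XY.mul {f g : Pt (Fin 3) X β φ → ℝ} (hf : XY f) (hg : XY g) : XY fun w => f w * g w := fun x y F F' => by
  show f (x, y, F) * g (x, y, F) = f (x, y, F') * g (x, y, F')
  rw [hf x y F F', hg x y F F']

theorem XY.ind_eq {κ : Type*} {f : Pt (Fin 3) X β φ → κ} (hf : XY f) (a : κ) : XY fun w => ind (f w = a) :=
  fun x y F F' => by
    show ind (f (x, y, F) = a) = ind (f (x, y, F') = a)
    rw [hf x y F F']

theorem m_xy {κ : Type*} {f : Pt (Fin 3) X β φ → κ} (hf : XY f) (s t : ℕ) (w : Pt (Fin 3) X β φ) :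
    (D.P h s).m f w = (D.P h t).m f w := E_xy h (hf.ind_eq (f w)) s t

theorem ce_xy {κ : Type*} {Z : Pt (Fin 3) X β φ → κ} (hZ : XY Z) {f : Pt (Fin 3) X β φ → ℝ} (hf : XY f) (s t : ℕ)
    (w : Pt (Fin 3) X β φ) : (D.P h s).ce Z f w = (D.P h t).ce Z f w := by
  unfold FP.ce
  rw [m_xy h hZ s t w, E_xy h ((hZ.ind_eq (Z w)).mul hf) s t]

theorem Pr_xy {s : Pt (Fin 3) X β φ → Prop} (hs : XY s) (a b : ℕ) : (D.P h a).Pr s = (D.P h b).Pr s := by
  refine E_xy h (fun x y F F' => ?_) a b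
  show ind (s (x, y, F)) = ind (s (x, y, F'))
  rw [hs x y F F']

/-! ### public kills -/

/-- **(Y3)** public kills (Doob) -/
theorem dead_pub (p : AP) (he : 0 < p.e0) (i : Fin 3) :
    (D.P h T).Pr (fun w => ∃ q ≤ 2 * T, p.e0 < (Pr' h q).ce (NPr v D q) (fun u => ind (¬ TTr h v p q i u)) w) ≤
      (D.P h T).Pr (fun w => ¬ TTr h v p (2 * T) i w) / p.e0 := by
  have h1 := doob_kill (D.P h T) (K := fun q => NPr (φ := φ) v D q) (fun q a b hab => NPr_older (Nat.le_succ q) hab)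
    (B := fun q u => ¬ TTr h v p q i u)
    (fun q w _ hw hc => hw fun s hs => hc s (hs.trans (Nat.le_succ q))) (2 * T) he
  refine le_trans (FP.Pr_mono _ fun w _ hw => ?_) h1
  obtain ⟨q, hq, hw⟩ := hw
  refine ⟨q, hq, ?_⟩
  have e : (Pr' h q).ce (NPr v D q) (fun u => ind (¬ TTr h v p q i u)) w =
      (D.P h T).ce (NPr v D q) (fun u => ind (¬ TTr h v p q i u)) w := by
    refine ce_xy h (fun x y F F' => rfl) (fun x y F F' => ?_) (tm q) T w
    show ind (¬ TTr h v p q i (x, y, F)) = ind (¬ TTr h v p q i (x, y, F'))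
    rw [TTr_fac h p (show (XLr v q i (x, y, F), NPr v D q (x, y, F)) =
      (XLr v q i (x, y, F'), NPr v D q (x, y, F')) from rfl)]
  rw [← e]
  exact hw

/-! ### halving of the known cells -/

/-- number of completions as a product -/
theorem nY_prodD (D : HD (Fin 3) X β γ φ) (s : ℕ) (J : Finset (Fin 3)) (y : Fin 3 → β) :
    nY D s J y = ∏ j, (if j ∈ J then 1 else ((D.cB s (y j)).card : ℝ)) := by
  classical
  unfold nY
  have h1 : ∀ y' : Fin 3 → β, ind ((∀ j ∈ J, y' j = y j) ∧ ∀ j, D.qb s (y' j) = D.qb s (y j)) =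
      ∏ j, (ind (j ∈ J → y' j = y j) * ind (D.qb s (y' j) = D.qb s (y j))) := by
    intro y'
    by_cases hh : (∀ j ∈ J, y' j = y j) ∧ ∀ j, D.qb s (y' j) = D.qb s (y j)
    · rw [ind_of hh]
      refine (Finset.prod_eq_one fun j _ => ?_).symm
      rw [ind_of (hh.1 j), ind_of (hh.2 j), one_mul]
    · rw [ind_not hh]
      have : ∃ j, ¬ (j ∈ J → y' j = y j) ∨ ¬ D.qb s (y' j) = D.qb s (y j) := by
        by_contra hc
        push Not at hc
        exact hh ⟨fun j => (hc j).1, fun j => (hc j).2⟩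
      obtain ⟨j, hj⟩ := this
      refine (Finset.prod_eq_zero (mem_univ j) ?_).symm
      rcases hj with hj | hj
      · rw [ind_not hj, zero_mul]
      · rw [ind_not hj, mul_zero]
  rw [Finset.sum_congr rfl fun y' _ => h1 y']
  have h2 := Finset.prod_univ_sum (fun _ : Fin 3 => (univ : Finset β))
    (fun j b => ind (j ∈ J → b = y j) * ind (D.qb s b = D.qb s (y j)))
  rw [Fintype.piFinset_univ] at h2
  rw [← h2]
  refine Finset.prod_congr rfl fun j _ => ?_
  by_cases hj : j ∈ J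
  · rw [if_pos hj, Finset.sum_eq_single (y j)]
    · rw [ind_of fun _ => rfl, ind_of rfl, one_mul]
    · intro b _ hb
      rw [ind_not fun hc => hb (hc hj), zero_mul]
    · intro hc; exact absurd (mem_univ _) hc
  · rw [if_neg hj]
    have h3 : ∀ b, ind (j ∈ J → b = y j) * ind (D.qb s b = D.qb s (y j)) = ind (D.qb s b = D.qb s (y j)) := by
      intro b
      rw [ind_of fun hc => absurd hc hj, one_mul]
    rw [Finset.sum_congr rfl fun b _ => h3 b]
    unfold HD.cB
    rw [Finset.card_filter]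
    push_cast
    refine Finset.sum_congr rfl fun b _ => ?_
    by_cases hb : D.qb s b = D.qb s (y j)
    · rw [ind_of hb, if_pos hb]
    · rw [ind_not hb, if_neg hb]

/-- **halving of the known cells**: at most a factor `8` -/
theorem nY_half (H : D.Hyp dg prr al T Lam) {t : ℕ} (ht : t < T) (J : Finset (Fin 3)) (y : Fin 3 → β) :
    nY D t J y ≤ 8 * nY D (t + 1) J y := by
  have h1 : ∀ b, ((D.cB t b).card : ℝ) ≤ 2 * ((D.cB (t + 1) b).card : ℝ) := by
    intro b
    rcases H.half t ht with h1 | h1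
    · rw [h1 b]
      have : (0 : ℝ) ≤ ((D.cB t b).card : ℝ) := by positivity
      linarith
    · have := h1 b
      rw [← this]
      push_cast
      exact le_rfl
  rw [nY_prodD, nY_prodD]
  have h2 : ∏ j : Fin 3, (if j ∈ J then 1 else ((D.cB t (y j)).card : ℝ)) ≤
      ∏ j : Fin 3, (2 * (if j ∈ J then 1 else ((D.cB (t + 1) (y j)).card : ℝ))) := by
    refine Finset.prod_le_prod (fun j _ => ?_) fun j _ => ?_
    · by_cases hj : j ∈ J
      · rw [if_pos hj]; norm_num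
      · rw [if_neg hj]; positivity
    · by_cases hj : j ∈ J
      · rw [if_pos hj, if_pos hj]; norm_num
      · rw [if_neg hj, if_neg hj]; exact h1 (y j)
  refine h2.trans (le_of_eq ?_)
  rw [Finset.prod_mul_distrib, Finset.prod_const, Finset.card_univ, Fintype.card_fin]
  norm_num

/-! ### the digit given the letters of `S` -/

/-- the letters of `S` -/
def ZS (v : ℕ → Finset (Fin 3) → X → (Fin 3 → β) → υ) (S : Finset (Fin 3)) (t : ℕ) (w : Pt (Fin 3) X β φ) :
    S → β × List υ := fun i => XL v (t + 1) i.1 w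

/-- the hidden points which are not distinguished -/
noncomputable def nA (D : HD (Fin 3) X β γ φ) (v : ℕ → Finset (Fin 3) → X → (Fin 3 → β) → υ) (dg : ℕ → X → ℝ)
    (S : Finset (Fin 3)) (t : ℕ) (x : X) (y : Fin 3 → β) : ℝ :=
  ∑ x' : X, ind ((∀ i ∈ S, Um v (t + 1) {i} x' y = Um v (t + 1) {i} x y) ∧ Um v (t + 1) ∅ x' y = Um v (t + 1) ∅ x y ∧
    D.qa t x' = D.qa t x ∧ dg t x' = dg t x)

theorem Um_cell (hv : Codes D v) {t s : ℕ} (hs : s ≤ t + 1) {I : Finset (Fin 3)} {x : X} {y y' : Fin 3 → β}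
    (h1 : ∀ j ∈ I, y' j = y j) (h2 : ∀ j, D.qb t (y' j) = D.qb t (y j)) : Um v s I x y' = Um v s I x y := by
  unfold Um
  rw [List.map_inj_left]
  intro r hr
  have hr' : r ≤ t := by have := List.mem_range.1 hr; omega
  exact hv r I x y' y h1 fun j => qb_mono D hr' (h2 j)

theorem m_prod {P : X → Prop} {Q : (Fin 3 → β) → Prop} (t : ℕ) :
    (D.P h t).E (fun w => ind (P w.1 ∧ Q w.2.1)) = (∑ x, ind (P x)) * (∑ y, ind (Q y)) / nn X β (Fin 3) := by
  rw [E_labels0 h t fun x y => ind (P x ∧ Q y)]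
  congr 1
  rw [Finset.sum_mul]
  refine Finset.sum_congr rfl fun x _ => ?_
  rw [Finset.mul_sum]
  exact Finset.sum_congr rfl fun y _ => ind_and _ _

/-- mass of the digit at the old node -/
theorem m_old (hv : Codes D v) (S : Finset (Fin 3)) (t : ℕ) (w : Pt (Fin 3) X β φ) :
    (D.P h t).m (fun u => ((ZS v S t u, NP D v (t + 1) t u), dg t u.1)) w =
      nA D v dg S t w.1 w.2.1 * nY D t S w.2.1 / nn X β (Fin 3) := by
  unfold nA nY
  rw [← m_prod h t]
  refine (D.P h t).E_congr fun u _ => ind_cg ?_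
  constructor
  · intro hu
    have h1 : ZS v S t u = ZS v S t w := congrArg (fun z => z.1.1) hu
    have h2 : NP D v (t + 1) t u = NP D v (t + 1) t w := congrArg (fun z => z.1.2) hu
    have h3 : dg t u.1 = dg t w.1 := congrArg (fun z => z.2) hu
    have h4 : D.qa t u.1 = D.qa t w.1 := congrArg (fun z => z.2.1) h2
    have h5 : ∀ j, D.qb t (u.2.1 j) = D.qb t (w.2.1 j) := congrFun (congrArg (fun z => z.2.2) h2)
    have h6 : Um v (t + 1) ∅ u.1 u.2.1 = Um v (t + 1) ∅ w.1 w.2.1 := congrArg (fun z => z.1) h2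
    have h7 : ∀ j ∈ S, u.2.1 j = w.2.1 j := fun j hj => congrArg Prod.fst (congrFun h1 ⟨j, hj⟩)
    refine ⟨⟨fun i hi => ?_, ?_, h4, h3⟩, h7, h5⟩
    · have h8 : Um v (t + 1) {i} u.1 u.2.1 = Um v (t + 1) {i} w.1 w.2.1 := congrArg Prod.snd (congrFun h1 ⟨i, hi⟩)
      rw [← h8]
      exact Um_cell hv le_rfl (fun j hj => by rw [Finset.mem_singleton.1 hj]; exact (h7 i hi).symm)
        fun j => (h5 j).symm
    · rw [← h6]
      exact Um_cell hv le_rfl (fun j hj => absurd hj (Finset.notMem_empty j)) fun j => (h5 j).symm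
  · rintro ⟨⟨h1, h2, h4, h3⟩, h7, h5⟩
    have e1 : ZS v S t u = ZS v S t w := by
      funext i
      refine Prod.ext (h7 i.1 i.2) ?_
      show Um v (t + 1) {i.1} u.1 u.2.1 = Um v (t + 1) {i.1} w.1 w.2.1
      rw [← h1 i.1 i.2]
      exact Um_cell hv le_rfl (fun j hj => by rw [Finset.mem_singleton.1 hj]; exact h7 i.1 i.2) h5
    have e2 : NP D v (t + 1) t u = NP D v (t + 1) t w := by
      refine Prod.ext ?_ (Prod.ext h4 (funext h5))
      show Um v (t + 1) ∅ u.1 u.2.1 = Um v (t + 1) ∅ w.1 w.2.1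
      rw [← h2]
      exact Um_cell hv le_rfl (fun j hj => absurd hj (Finset.notMem_empty j)) h5
    exact Prod.ext (Prod.ext e1 e2) h3

/-- mass of the new node -/
theorem m_new (H : D.Hyp dg prr al T Lam) (hv : Codes D v) (S : Finset (Fin 3)) {t : ℕ} (ht : t < T)
    (w : Pt (Fin 3) X β φ) :
    (D.P h t).m (fun u => (ZS v S t u, NP D v (t + 1) (t + 1) u)) w =
      nA D v dg S t w.1 w.2.1 * nY D (t + 1) S w.2.1 / nn X β (Fin 3) := by
  unfold nA nY
  rw [← m_prod h t]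
  refine (D.P h t).E_congr fun u _ => ind_cg ?_
  constructor
  · intro hu
    have h1 : ZS v S t u = ZS v S t w := congrArg (fun z => z.1) hu
    have h2 : NP D v (t + 1) (t + 1) u = NP D v (t + 1) (t + 1) w := congrArg (fun z => z.2) hu
    have h4' : D.qa (t + 1) u.1 = D.qa (t + 1) w.1 := congrArg (fun z => z.2.1) h2
    obtain ⟨h4, h3⟩ := (H.dg_cell t ht _ _).1 h4'
    have h5' : ∀ j, D.qb (t + 1) (u.2.1 j) = D.qb (t + 1) (w.2.1 j) := congrFun (congrArg (fun z => z.2.2) h2)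
    have h5 : ∀ j, D.qb t (u.2.1 j) = D.qb t (w.2.1 j) := fun j => qb_mono D (Nat.le_succ t) (h5' j)
    have h6 : Um v (t + 1) ∅ u.1 u.2.1 = Um v (t + 1) ∅ w.1 w.2.1 := congrArg (fun z => z.1) h2
    have h7 : ∀ j ∈ S, u.2.1 j = w.2.1 j := fun j hj => congrArg Prod.fst (congrFun h1 ⟨j, hj⟩)
    refine ⟨⟨fun i hi => ?_, ?_, h4, h3⟩, h7, h5'⟩
    · have h8 : Um v (t + 1) {i} u.1 u.2.1 = Um v (t + 1) {i} w.1 w.2.1 := congrArg Prod.snd (congrFun h1 ⟨i, hi⟩)
      rw [← h8]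
      exact Um_cell hv le_rfl (fun j hj => by rw [Finset.mem_singleton.1 hj]; exact (h7 i hi).symm)
        fun j => (h5 j).symm
    · rw [← h6]
      exact Um_cell hv le_rfl (fun j hj => absurd hj (Finset.notMem_empty j)) fun j => (h5 j).symm
  · rintro ⟨⟨h1, h2, h4, h3⟩, h7, h5'⟩
    have h5 : ∀ j, D.qb t (u.2.1 j) = D.qb t (w.2.1 j) := fun j => qb_mono D (Nat.le_succ t) (h5' j)
    have e1 : ZS v S t u = ZS v S t w := by
      funext i
      refine Prod.ext (h7 i.1 i.2) ?_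
      show Um v (t + 1) {i.1} u.1 u.2.1 = Um v (t + 1) {i.1} w.1 w.2.1
      rw [← h1 i.1 i.2]
      exact Um_cell hv le_rfl (fun j hj => by rw [Finset.mem_singleton.1 hj]; exact h7 i.1 i.2) h5
    have e2 : NP D v (t + 1) (t + 1) u = NP D v (t + 1) (t + 1) w := by
      refine Prod.ext ?_ (Prod.ext ((H.dg_cell t ht _ _).2 ⟨h4, h3⟩) (funext h5'))
      show Um v (t + 1) ∅ u.1 u.2.1 = Um v (t + 1) ∅ w.1 w.2.1
      rw [← h2]
      exact Um_cell hv le_rfl (fun j hj => absurd hj (Finset.notMem_empty j)) h5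
    exact Prod.ext e1 e2

/-- **THE NEW NODE IS AT LEAST AN EIGHTH OF THE DIGIT** -/
theorem dg_ratio (H : D.Hyp dg prr al T Lam) (hv : Codes D v) (S : Finset (Fin 3)) {t : ℕ} (ht : t < T)
    (w : Pt (Fin 3) X β φ) :
    (D.P h t).m (fun u => ((ZS v S t u, NP D v (t + 1) t u), dg t u.1)) w ≤
      8 * (D.P h t).m (fun u => (ZS v S t u, NP D v (t + 1) (t + 1) u)) w := by
  rw [m_old h hv S t w, m_new h H hv S ht w, ← mul_div_assoc]
  refine div_le_div_of_nonneg_right ?_ nn_pos.le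
  have h1 := nY_half H ht S w.2.1
  have h2 : 0 ≤ nA D v dg S t w.1 w.2.1 := Finset.sum_nonneg fun _ _ => ind_nonneg _
  calc nA D v dg S t w.1 w.2.1 * nY D t S w.2.1 ≤ nA D v dg S t w.1 w.2.1 * (8 * nY D (t + 1) S w.2.1) :=
        mul_le_mul_of_nonneg_left h1 h2
    _ = _ := by ring

/-- one digit -/
theorem dead_dig_one (H : D.Hyp dg prr al T Lam) (hv : Codes D v) (p : AP) (hd0 : 0 ≤ p.dl) (hd : p.dl ≤ 1 / 32)
    (S : Finset (Fin 3)) {t : ℕ} (ht : t < T) :
    (D.P h t).Pr (fun w => ¬ dgl h v p t (ZS v S t) w) ≤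
      32 * p.dl * (D.P h t).E (fun w =>
        (D.P h t).ce (fun u => (ZS v S t u, NP D v (t + 1) t u)) (fun u => dg t u.1) w ^ 2) := by
  have h1 := digit_kill (D.P h t) (fun u => (ZS v S t u, NP D v (t + 1) t u)) (fun u => dg t u.1)
    (fun w _ => H.dg_val t w.1) (d := 8 * p.dl) (by linarith) (by linarith)
  have e : 4 * (8 * p.dl) = 32 * p.dl := by ring
  rw [e] at h1
  refine le_trans (FP.Pr_mono _ fun w hw hd => ?_) h1
  unfold dgl at hd
  rw [not_le] at hd
  have h2 := dg_ratio h H hv S ht w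
  have h3 := (D.P h t).m_pos (fun u => (ZS v S t u, NP D v (t + 1) t u)) hw
  unfold FP.ce
  rw [div_lt_iff₀ h3]
  have h4 : (D.P h t).E (fun u => ind ((ZS v S t u, NP D v (t + 1) t u) = (ZS v S t w, NP D v (t + 1) t w)) *
      ind (dg t u.1 = dg t w.1)) =
        (D.P h t).m (fun u => ((ZS v S t u, NP D v (t + 1) t u), dg t u.1)) w := by
    refine (D.P h t).E_congr fun u _ => ?_
    rw [← ind_and]
    exact ind_cg (by rw [Prod.mk.injEq (ZS v S t u, NP D v (t + 1) t u) (dg t u.1)])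
  rw [h4]
  linarith

/-- **(Y4)** unlikely digits, given the letters of `S` -/
theorem dead_dig (H : D.Hyp dg prr al T Lam) (hv : Codes D v) (p : AP) (hd0 : 0 ≤ p.dl) (hd : p.dl ≤ 1 / 32)
    (S : Finset (Fin 3)) :
    (D.P h T).Pr (fun w => ∃ t < T, ¬ dgl h v p t (ZS v S t) w) ≤
      32 * p.dl * ∑ t ∈ range T, (D.P h t).E (fun w =>
        (D.P h t).ce (fun u => (ZS v S t u, NP D v (t + 1) t u)) (fun u => dg t u.1) w ^ 2) := by
  have h1 : (D.P h T).Pr (fun w => ∃ t < T, ¬ dgl h v p t (ZS v S t) w) ≤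
      ∑ t ∈ range T, (D.P h T).Pr (fun w => ¬ dgl h v p t (ZS v S t) w) := by
    refine le_trans (FP.Pr_mono _ fun w _ hw => ?_)
      ((D.P h T).Pr_ex_le (range T) fun t w => ¬ dgl h v p t (ZS v S t) w)
    obtain ⟨t, ht, hw⟩ := hw
    exact ⟨t, mem_range.2 ht, hw⟩
  refine h1.trans ?_
  rw [Finset.mul_sum]
  refine Finset.sum_le_sum fun t ht => ?_
  have ht' := mem_range.1 ht
  have h2 : (D.P h T).Pr (fun w => ¬ dgl h v p t (ZS v S t) w) =
      (D.P h t).Pr (fun w => ¬ dgl h v p t (ZS v S t) w) := by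
    refine Pr_xy h (fun x y F F' => ?_) T t
    show (¬ dgl h v p t (ZS v S t) (x, y, F)) = ¬ dgl h v p t (ZS v S t) (x, y, F')
    have h3 : dgl h v p t (ZS v S t) (x, y, F) ↔ dgl h v p t (ZS v S t) (x, y, F') := dgl_fac h p rfl rfl
    rw [propext h3]
  rw [h2]
  exact dead_dig_one h H hv p hd0 hd S ht'

/-- the condition depends on the partition only -/
theorem dgl_congr {κ ι : Type*} (p : AP) {t : ℕ} {Z : Pt (Fin 3) X β φ → κ} {Z' : Pt (Fin 3) X β φ → ι}
    (h1 : ∀ a b, Z a = Z b ↔ Z' a = Z' b) (w : Pt (Fin 3) X β φ) : dgl h v p t Z w ↔ dgl h v p t Z' w := by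
  unfold dgl FP.m
  simp only [Prod.mk.injEq, h1]

theorem dgl_empty (p : AP) {t : ℕ} (w : Pt (Fin 3) X β φ) : dgl h v p t (fun _ => ()) w ↔ dgl h v p t (ZS v ∅ t) w :=
  dgl_congr h p (fun _ _ => ⟨fun _ => funext fun i => absurd i.2 (Finset.notMem_empty _), fun _ => rfl⟩) w

theorem ZS_eq {S : Finset (Fin 3)} {t : ℕ} {a b : Pt (Fin 3) X β φ} :
    ZS v S t a = ZS v S t b ↔ ∀ i ∈ S, XL v (t + 1) i a = XL v (t + 1) i b :=
  ⟨fun hh i hi => congrFun hh ⟨i, hi⟩, fun hh => funext fun i => hh i.1 i.2⟩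

theorem dgl_one (p : AP) {t : ℕ} (i : Fin 3) (w : Pt (Fin 3) X β φ) :
    dgl h v p t (XL v (t + 1) i) w ↔ dgl h v p t (ZS v {i} t) w :=
  dgl_congr h p (fun a b => by rw [ZS_eq]; simp) w

theorem dgl_two (p : AP) {t : ℕ} (i k : Fin 3) (w : Pt (Fin 3) X β φ) :
    dgl h v p t (fun u => (XL v (t + 1) i u, XL v (t + 1) k u)) w ↔ dgl h v p t (ZS v {i, k} t) w :=
  dgl_congr h p (fun a b => by rw [ZS_eq, Prod.mk.injEq]; simp) w

theorem dgl_three (p : AP) {t : ℕ} (w : Pt (Fin 3) X β φ) :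
    dgl h v p t (fun u => (XL v (t + 1) 0 u, XL v (t + 1) 1 u, XL v (t + 1) 2 u)) w ↔ dgl h v p t (ZS v univ t) w :=
  dgl_congr h p (fun a b => by
    rw [ZS_eq]
    constructor
    · intro hh i _
      have h0 : XL v (t + 1) 0 a = XL v (t + 1) 0 b := congrArg (fun z => z.1) hh
      have h1 : XL v (t + 1) 1 a = XL v (t + 1) 1 b := congrArg (fun z => z.2.1) hh
      have h2 : XL v (t + 1) 2 a = XL v (t + 1) 2 b := congrArg (fun z => z.2.2) hh
      fin_cases i
      · exact h0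
      · exact h1
      · exact h2
    · intro hh
      exact Prod.ext (hh 0 (mem_univ _)) (Prod.ext (hh 1 (mem_univ _)) (hh 2 (mem_univ _)))) w

end Pool.Agent.GMH.V3
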