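import Pool.Agent.M3.KL

/-!
# GMH.Pin: Pinsker's inequality for test functions

`pinsker_test`: `|P.E f - Q.E f| <= a sqrt (2 kl)` for a function `f` of `X` with `|f| <= a`, `kl = P.kl Q X`.
-/

set_option autoImplicit false
set_option linter.unusedSectionVars false

namespace Pool.Agent.M3

open Finset Pool.Agent.PWZ

variable {Om : Type*} [Fintype Om]

namespace FP

/-! ## Pinsker -/

section Pinsker

variable {P Q : FP Om} {κ : Type*}

/-- Pinsker for a function with values in `(-1, 1)` -/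
theorem pinsker_open (hac : P.Ac Q) {X : Om → κ} {f : Om → ℝ} (hf : Fac X f) {a : ℝ} (ha : a < 1)
    (hfa : ∀ w, |f w| ≤ a) : (P.E f - Q.E f) ^ 2 / 2 ≤ P.kl Q X := by
  have ha0 : 0 ≤ a := by
    obtain ⟨w, _⟩ := P.exists_p_ne
    exact (abs_nonneg _).trans (hfa w)
  set b := P.E f with hb
  set c := Q.E f with hc
  have hb1 : |b| ≤ a := (P.abs_E_le f).trans (P.E_le_const (fun w _ => hfa w))
  have hc1 : |c| ≤ a := (Q.abs_E_le f).trans (Q.E_le_const (fun w _ => hfa w))
  have hb2 := abs_le.mp hb1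
  have hc2 := abs_le.mp hc1
  have p1 : 0 < 1 + b := by linarith
  have p2 : 0 < 1 - b := by linarith
  have p3 : 0 < 1 + c := by linarith
  have p4 : 0 < 1 - c := by linarith
  set l : ℝ := 1 / 2 * (Real.log ((1 + b) / (1 + c)) - Real.log ((1 - b) / (1 - c))) with hl
  have hdv := dv (P := P) (Q := Q) hac (X := X) (ψ := fun w => l * f w) (hf.comp (fun x => l * x))
  rw [E_smul] at hdv
  have hconv : ∀ x : ℝ, |x| ≤ 1 → Real.exp (l * x) ≤ (1 + x) / 2 * Real.exp l + (1 - x) / 2 * Real.exp (-l) := by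
    intro x hx
    have hx2 := abs_le.mp hx
    have h := convexOn_exp.2 (Set.mem_univ l) (Set.mem_univ (-l)) (show 0 ≤ (1 + x) / 2 by linarith)
      (show 0 ≤ (1 - x) / 2 by linarith) (by ring)
    simp only [smul_eq_mul] at h
    have e : (1 + x) / 2 * l + (1 - x) / 2 * -l = l * x := by ring
    rw [e] at h
    exact h
  have hmgf : Q.E (fun w => Real.exp (l * f w)) ≤ (1 + c) / 2 * Real.exp l + (1 - c) / 2 * Real.exp (-l) := by
    have h1 : Q.E (fun w => Real.exp (l * f w)) ≤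
        Q.E (fun w => (1 + f w) / 2 * Real.exp l + (1 - f w) / 2 * Real.exp (-l)) :=
      Q.E_mono (fun w _ => hconv _ ((hfa w).trans ha.le))
    refine h1.trans (le_of_eq ?_)
    rw [E_add, E_mul_const, E_mul_const, E_div_const, E_div_const, E_add, E_sub, E_const]
  have hexp : (1 + c) / 2 * Real.exp l + (1 - c) / 2 * Real.exp (-l) = Real.exp (-l) * ((1 - c) / (1 - b)) := by
    have h2l : Real.exp l = Real.exp (-l) * ((1 + b) / (1 + c) / ((1 - b) / (1 - c))) := by
      have e1 : (1 + b) / (1 + c) / ((1 - b) / (1 - c)) = Real.exp (2 * l) := by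
        have h3 : 2 * l = Real.log ((1 + b) / (1 + c) / ((1 - b) / (1 - c))) := by
          rw [Real.log_div (div_pos p1 p3).ne' (div_pos p2 p4).ne', hl]; ring
        rw [h3, Real.exp_log (div_pos (div_pos p1 p3) (div_pos p2 p4))]
      rw [e1, ← Real.exp_add]
      congr 1; ring
    rw [h2l]
    field_simp
    ring
  have hZ0 : 0 < Q.E (fun w => Real.exp (l * f w)) := by
    obtain ⟨w, hw⟩ := Q.exists_p_ne
    have h1 : Q.p w * Real.exp (l * f w) ≤ Q.E (fun w => Real.exp (l * f w)) :=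
      Finset.single_le_sum (f := fun v => Q.p v * Real.exp (l * f v))
        (fun v _ => mul_nonneg (Q.nn v) (Real.exp_pos _).le) (Finset.mem_univ w)
    exact lt_of_lt_of_le (mul_pos (lt_of_le_of_ne (Q.nn w) (Ne.symm hw)) (Real.exp_pos _)) h1
  have hlog : Real.log (Q.E (fun w => Real.exp (l * f w))) ≤ - l + Real.log ((1 - c) / (1 - b)) := by
    have h1 := Real.log_le_log hZ0 (hmgf.trans (le_of_eq hexp))
    rw [Real.log_mul (Real.exp_pos _).ne' (div_pos p4 p2).ne', Real.log_exp] at h1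
    exact h1
  have hbin := bin_pinsker (b := b) (c := c) (hb1.trans ha.le) (lt_of_le_of_lt hc1 ha)
  have hinv : Real.log ((1 - c) / (1 - b)) = - Real.log ((1 - b) / (1 - c)) := by
    rw [← Real.log_inv, inv_div]
  rw [hinv] at hlog
  have hkey : (1 + b) / 2 * Real.log ((1 + b) / (1 + c)) + (1 - b) / 2 * Real.log ((1 - b) / (1 - c)) =
      l * b + l + Real.log ((1 - b) / (1 - c)) := by rw [hl]; ring
  linarith

/-- Pinsker, squared, for a function with values in `[-1, 1]` -/
theorem pinsker_sq (hac : P.Ac Q) {X : Om → κ} {f : Om → ℝ} (hf : Fac X f)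
    (hf1 : ∀ w, |f w| ≤ 1) : (P.E f - Q.E f) ^ 2 / 2 ≤ P.kl Q X := by
  have h : ∀ s : ℝ, s ∈ Set.Ico (0 : ℝ) 1 → (s * (P.E f - Q.E f)) ^ 2 / 2 ≤ P.kl Q X := by
    intro s hs
    have h1 := pinsker_open hac (f := fun w => s * f w) (hf.comp (fun x => s * x)) (a := s) hs.2
      (fun w => by
        rw [abs_mul, abs_of_nonneg hs.1]
        have := mul_le_mul_of_nonneg_left (hf1 w) hs.1
        linarith)
    rw [E_smul, E_smul, ← mul_sub] at h1
    exact h1
  have hcl : closure (Set.Ico (0 : ℝ) 1) = Set.Icc 0 1 := closure_Ico (by norm_num)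
  have hmem : (1 : ℝ) ∈ closure (Set.Ico (0 : ℝ) 1) := by rw [hcl]; exact ⟨zero_le_one, le_refl _⟩
  have hclosed : IsClosed {s : ℝ | (s * (P.E f - Q.E f)) ^ 2 / 2 ≤ P.kl Q X} :=
    isClosed_le (by fun_prop) continuous_const
  have h1 : (1 : ℝ) ∈ {s : ℝ | (s * (P.E f - Q.E f)) ^ 2 / 2 ≤ P.kl Q X} :=
    closure_minimal (fun s hs => h s hs) hclosed hmem
  have h2 : (1 * (P.E f - Q.E f)) ^ 2 / 2 ≤ P.kl Q X := h1
  rwa [one_mul] at h2

/-- Pinsker, test function form -/
theorem pinsker_test (hac : P.Ac Q) {X : Om → κ} {f : Om → ℝ} (hf : Fac X f) {a : ℝ}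
    (hfa : ∀ w, |f w| ≤ a) : |P.E f - Q.E f| ≤ a * Real.sqrt (2 * P.kl Q X) := by
  have ha0 : 0 ≤ a := by
    obtain ⟨w, _⟩ := P.exists_p_ne
    exact (abs_nonneg _).trans (hfa w)
  rcases ha0.eq_or_lt with h0 | h0
  · have hz : ∀ w, f w = 0 := fun w => by
      have := hfa w
      rw [← h0] at this
      exact abs_eq_zero.mp (le_antisymm this (abs_nonneg _))
    have e1 : P.E f = 0 := by rw [← P.E_const 0]; exact P.E_congr (fun w _ => hz w)
    have e2 : Q.E f = 0 := by rw [← Q.E_const 0]; exact Q.E_congr (fun w _ => hz w)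
    rw [e1, e2, ← h0]; simp
  · have h1 := pinsker_sq hac (f := fun w => f w / a) (hf.comp (fun x => x / a))
      (fun w => by rw [abs_div, abs_of_pos h0, div_le_one h0]; exact hfa w)
    rw [E_div_const, E_div_const, ← sub_div, div_pow, div_div, div_le_iff₀ (by positivity)] at h1
    have h2 : (P.E f - Q.E f) ^ 2 ≤ (a * Real.sqrt (2 * P.kl Q X)) ^ 2 := by
      rw [mul_pow, Real.sq_sqrt (by have := kl_nonneg hac X; linarith)]
      linarith
    exact abs_le_of_sq_le_sq h2 (mul_nonneg h0.le (Real.sqrt_nonneg _))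

end Pinsker

end FP

end Pool.Agent.M3
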