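import Pool.Agent.GMH.OneKL
import Pool.Agent.GMH.Pin

/-!
# GMH.OneA: public events in one class (helper49; (U1), k = 3: 3877 (A2), 3878 (2), (3)(c), 3904 (4))

`P` = law of ONE class, `X` = hidden point, `Y` = known points, `L` = label, a function of `(X, Y)`.

* `satE_of`, `klc_congr_supp` : from the saturation of the state to `SatE` in one class;
* `cond_E_of_indep`, `cond_indep` : an event of the hidden point does not change the law of the known points;
* `SatE P L Y N E` : the saturation for the event `E`, `N klc(P_E, P; L | Y) <= 2 (log (1/P(E)) + 1)`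
  (the unit is the price of the public label; from `event_sat`);
* `rare_event` (A2): `N (P_E(A) log (1/q) - log 2) <= 2 (log (1/P(E)) + 1)` if `P(A) <= q`;
* `key_nol` : KEY without the letter: `pi E h <= R E (h f)`;
* `pair_change` : `P_E(A) <= 4 P(A) + 6 (log (1/P(E)) + 1) / N + 2 (X0 + 1) / N + 4 sqrt ((X0 + 1) / N)` for an event `A` of the
  pair of labels `c`, `d` on which the letter of `c` is typical (at least `exp (-X0)`);
* `claim` : CLAIM of 3878 (3)(c);
* `I_pair_le` : `I(L, L' ; V | Z) <= I(L ; V | Z) + I(L' ; V | Z) + I(L ; L' | V, Z)`.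
-/

set_option autoImplicit false
set_option linter.unusedSectionVars false

namespace Pool.Agent.GMH

open Finset Pool.Agent.PWZ Pool.Agent.M3

variable {Om : Type*} [Fintype Om] {χ η η' υ υ' κ ι ι' : Type*} {P : FP Om}

/-! ## independence -/

theorem cond_E_of_indep {X : Om → χ} {Y : Om → η} (h : P.Indep X Y) {E : Om → Prop} (hE : Fac X E) (hE0 : P.Pr E ≠ 0)
    {g : Om → ℝ} (hg : Fac Y g) : (P.cond E).E g = P.E g := by
  rw [FP.cond_E hE0, h (fun w => ind (E w)) g (Fac.ind fun v w hv => by rw [hE v w hv]) hg]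
  exact mul_div_cancel_left₀ _ hE0

theorem cond_m_of_indep {X : Om → χ} {Y : Om → η} (h : P.Indep X Y) {E : Om → Prop} (hE : Fac X E) (hE0 : P.Pr E ≠ 0)
    (w : Om) : (P.cond E).m Y w = P.m Y w :=
  cond_E_of_indep h hE hE0 (Fac.ind fun v u hv => by rw [hv])

theorem cond_kl_of_indep {X : Om → χ} {Y : Om → η} (h : P.Indep X Y) {E : Om → Prop} (hE : Fac X E)
    (hE0 : P.Pr E ≠ 0) : (P.cond E).kl P Y = 0 := by
  unfold FP.kl
  rw [← (P.cond E).E_const 0]
  refine (P.cond E).E_congr fun w hw => ?_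
  rw [cond_m_of_indep h hE hE0, div_self (P.m_pos _ (cond_supp hE0 hw).2).ne', Real.log_one]

/-- an event of the second map does not change the independence -/
theorem cond_indep {X : Om → χ} {Y : Om → η} (h : P.Indep Y X) {E : Om → Prop} (hE : Fac X E) (hE0 : P.Pr E ≠ 0) :
    (P.cond E).Indep Y X := by
  intro f g hf hg
  rw [cond_E_of_indep h.symm hE hE0 hf, FP.cond_E hE0, FP.cond_E hE0]
  have h1 := h f (fun w => ind (E w) * g w) hf ((Fac.ind (s := E) fun v w hv => by rw [hE v w hv]).mul hg)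
  rw [P.E_congr (g := fun w => f w * (ind (E w) * g w)) (fun w _ => by ring), h1]
  ring

/-! ## the saturation against an event -/

/-- saturation of the class against the event `E` -/
def SatE (P : FP Om) (L : Om → υ) (Y : Om → η) (N : ℝ) (E : Om → Prop) : Prop :=
  N * (P.cond E).klc P L Y ≤ 2 * (Real.log (1 / P.Pr E) + 1)

/-- the label and the points together -/
theorem SatE.kl_le {X : Om → χ} {Y : Om → η} {L : Om → υ} {N : ℝ} {E : Om → Prop} (h : SatE P L Y N E)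
    (hi : P.Indep X Y) (hE : Fac X E) (hE0 : P.Pr E ≠ 0) :
    N * (P.cond E).kl P (fun w => (L w, Y w)) ≤ 2 * (Real.log (1 / P.Pr E) + 1) := by
  rw [kl_pair (P.cond_ac E) L Y, cond_kl_of_indep hi hE hE0, zero_add]
  exact h

/-- **(A2)** -/
theorem rare_event {X : Om → χ} {Y : Om → η} {L : Om → υ} {N : ℝ} {E : Om → Prop} (h : SatE P L Y N E) (hN : 0 ≤ N)
    (hi : P.Indep X Y) (hE : Fac X E) (hE0 : P.Pr E ≠ 0) {A : Om → Prop} (hA : Fac (fun w => (L w, Y w)) A) {q : ℝ}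
    (hq : 0 < q) (hq1 : q ≤ 1) (hAq : P.Pr A ≤ q) :
    N * ((P.cond E).Pr A * Real.log (1 / q) - Real.log 2) ≤ 2 * (Real.log (1 / P.Pr E) + 1) := by
  have h1 := Pr_mul_log_le (P.cond_ac E) hA hq hq1 hAq
  have h2 := h.kl_le hi hE hE0
  have h3 := mul_le_mul_of_nonneg_left h1 hN
  nlinarith

/-! ## the saturation of one class from the saturation of the state -/

theorem m_congr_supp {X : Om → κ} {X' : Om → ι} (h : ∀ v w, P.p v ≠ 0 → P.p w ≠ 0 → (X v = X w ↔ X' v = X' w)) {w : Om}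
    (hw : P.p w ≠ 0) : P.m X w = P.m X' w :=
  P.E_congr fun v hv => by rw [show (X v = X w) = (X' v = X' w) from propext (h v w hv hw)]

theorem klc_congr_supp {Q : FP Om} (hac : Q.Ac P) {L : Om → υ} {L' : Om → υ'} {Z : Om → ι} {Z' : Om → ι'}
    (h1 : ∀ v w, P.p v ≠ 0 → P.p w ≠ 0 → (Z v = Z w ↔ Z' v = Z' w))
    (h2 : ∀ v w, P.p v ≠ 0 → P.p w ≠ 0 → Z v = Z w → (L v = L w ↔ L' v = L' w)) : Q.klc P L Z = Q.klc P L' Z' := by
  have h3 : ∀ v w, P.p v ≠ 0 → P.p w ≠ 0 → ((L v, Z v) = (L w, Z w) ↔ (L' v, Z' v) = (L' w, Z' w)) := by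
    intro v w hv hw
    simp only [Prod.mk.injEq]
    exact ⟨fun ⟨a, b⟩ => ⟨(h2 v w hv hw b).1 a, (h1 v w hv hw).1 b⟩,
      fun ⟨a, b⟩ => ⟨(h2 v w hv hw ((h1 v w hv hw).2 b)).2 a, (h1 v w hv hw).2 b⟩⟩
  unfold FP.klc
  refine Q.E_congr fun w hw => ?_
  have hp := hac w hw
  rw [m_congr_supp h1 hp, m_congr_supp h3 hp,
    m_congr_supp (P := Q) (fun v w hv hw => h1 v w (hac v hv) (hac w hw)) hw,
    m_congr_supp (P := Q) (fun v w hv hw => h3 v w (hac v hv) (hac w hw)) hw]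

/-- from the saturation of the state, restricted to the class `A` (a function of the label of the empty set and the
node), to `SatE` for the label of `J` -/
theorem satE_of {K β : Type*} {B : Finset K → Om → β} {N : Finset K → ℝ} {S : Finset (Finset K)}
    {L : Finset K → Om → υ} {Adm : (Finset K → Om → Om → Prop) → Prop} (h : SatA P B N S L Adm) {A E : Om → Prop}
    (hA0 : P.Pr A ≠ 0) (hB : BMono B) (hA : Fac (fun w => (le L ∅ w, B ∅ w)) A) (hE0 : (P.cond A).Pr E ≠ 0)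
    (hadm : Adm (cutR ∅ A (ker (cutK ∅ E (fun _ _ => ()))))) (hN : ∀ J ∈ S, 0 ≤ N J) (hN0 : 0 < N ∅) (h0 : ∅ ∈ S)
    {J : Finset K} (hJ : J ∈ S) (hJ0 : J ≠ ∅) :
    SatE (P.cond A) (L J) (fun w => (lo L J w, B J w)) (N J / N ∅) E := by
  have h1 : 0 ≤ Phi (P.cond A) B N S L (cutK ∅ E (fun _ _ => ())) := h.loc hA0 hB hA cutK_on hadm
  have h2 := event_sat hE0 hN h0 h1
  have hlt : (∅ : Finset K) ⊂ J := Finset.ssubset_iff_subset_ne.2 ⟨Finset.empty_subset J, hJ0.symm⟩
  have h3 := Finset.single_le_sum (f := fun J => N J * ((P.cond A).cond E).klc (P.cond A) (L J) (fun w => (lo L J w, B J w)))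
    (fun I hI => mul_nonneg (hN I (mem_above.1 hI).1) (klc_nonneg (FP.cond_ac (P.cond A) E) _ _)) (mem_above.2 ⟨hJ, hlt⟩)
  unfold SatE
  rw [div_mul_eq_mul_div, div_le_iff₀ hN0]
  linarith

/-! ## KEY -/

/-- **KEY without the letter** : `f` = indicator of the letter of `b`, `G` = letters of `c`, `d`, `U` = points and class,
`h` = indicator of a set of letter pairs on which `pi <= R P(f | G, U)` -/
theorem key_nol {G : Om → κ} {U : Om → ι} {h f : Om → ℝ} (hh : Fac (fun w => (G w, U w)) h) (h0 : ∀ w, 0 ≤ h w) {π R : ℝ}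
    (hπ : ∀ v, P.p v ≠ 0 → h v ≠ 0 → π ≤ R * P.ce (fun w => (G w, U w)) f v) :
    π * P.E h ≤ R * P.E (fun w => h w * f w) := by
  have h1 : P.E (fun w => h w * f w) = P.E (fun w => h w * P.ce (fun w => (G w, U w)) f w) :=
    (P.E_mul_ce hh f).symm
  rw [h1, ← P.E_smul, ← P.E_smul]
  refine P.E_mono fun w hw => ?_
  by_cases hz : h w = 0
  · rw [hz]; simp
  · have := mul_le_mul_of_nonneg_left (hπ w hw hz) (h0 w)
    nlinarith

/-! ## the pair of labels -/

section pair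

variable {X : Om → χ} {Y : Om → η} {Y' : Om → η'} {l : χ → η → υ} {M : Om → κ}

/-- the letter of `c` at the point of `w0` -/
def Tt (X : Om → χ) (Y : Om → η) (l : χ → η → υ) (w0 : Om) (w : Om) : Prop := l (X w) (Y w0) = l (X w0) (Y w0)

theorem Tt_fac (w0 : Om) : Fac X (Tt X Y l w0) := fun v w h => by unfold Tt; rw [h]

theorem Tt_self (w0 : Om) : Tt X Y l w0 w0 := rfl

theorem ind_lY (w0 w : Om) : ind ((l (X w) (Y w), Y w) = (l (X w0) (Y w0), Y w0)) = ind (Y w = Y w0) * ind (Tt X Y l w0 w) := by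
  rw [← ind_and]
  congr 1
  unfold Tt
  rw [Prod.mk.injEq]
  refine propext ⟨fun h => ⟨h.2, ?_⟩, fun h => ⟨by rw [h.1]; exact h.2, h.1⟩⟩
  have h1 := h.1
  rw [h.2] at h1
  exact h1

theorem m_lY (h : P.Indep Y X) (w0 : Om) :
    P.m (fun w => (l (X w) (Y w), Y w)) w0 = P.m Y w0 * P.Pr (Tt X Y l w0) := by
  have h1 := h (fun w => ind (Y w = Y w0)) (fun w => ind (Tt X Y l w0 w)) (Fac.ind fun v w hv => by rw [hv])
    (Fac.ind fun v w hv => by rw [Tt_fac w0 v w hv])
  have h2 : P.m (fun w => (l (X w) (Y w), Y w)) w0 = P.E (fun w => ind (Y w = Y w0) * ind (Tt X Y l w0 w)) :=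
    P.E_congr fun w _ => ind_lY w0 w
  rw [h2, h1]
  rfl

/-- conditional mean given the letter and the point of `c` -/
theorem ce_lY (h : P.Indep Y (fun w => (X w, M w))) {f : Om → ℝ} {w0 : Om} (hw0 : P.p w0 ≠ 0)
    {g : Om → ℝ} (hg : Fac (fun w => (X w, M w)) g) (hfg : ∀ w, Y w = Y w0 → Tt X Y l w0 w → f w = g w) :
    P.ce (fun w => (l (X w) (Y w), Y w)) f w0 = (P.cond (Tt X Y l w0)).E g := by
  have hi : P.Indep Y X := h.mono (Fac.refl Y) (Fac.fst X M)
  have hT : P.Pr (Tt X Y l w0) ≠ 0 := (FP.Pr_pos_of hw0 (Tt_self w0)).ne'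
  unfold FP.ce
  rw [m_lY hi, FP.cond_E hT]
  have h1 : P.E (fun v => ind ((l (X v) (Y v), Y v) = (l (X w0) (Y w0), Y w0)) * f v) =
      P.m Y w0 * P.E (fun w => ind (Tt X Y l w0 w) * g w) := by
    have h2 := h (fun w => ind (Y w = Y w0)) (fun w => ind (Tt X Y l w0 w) * g w) (Fac.ind fun v w hv => by rw [hv])
      (((Fac.fst X M).trans (Fac.ind (s := Tt X Y l w0) fun v w hv => by rw [Tt_fac w0 v w hv])).mul hg)
    have h3 : P.E (fun w => ind (Y w = Y w0)) = P.m Y w0 := rfl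
    rw [h3] at h2
    rw [← h2]
    refine P.E_congr fun w _ => ?_
    rw [ind_lY]
    by_cases ha : Y w = Y w0
    · by_cases hb : Tt X Y l w0 w
      · rw [hfg w ha hb]; ring
      · rw [ind_not hb]; ring
    · rw [ind_not ha]; ring
  rw [h1, mul_div_mul_left _ _ (P.m_pos Y hw0).ne']

theorem Tt_congr {v w : Om} (h : (l (X v) (Y v), Y v) = (l (X w) (Y w), Y w)) : Tt X Y l v = Tt X Y l w := by
  rw [Prod.mk.injEq] at h
  obtain ⟨h1, h2⟩ := h
  funext u
  show (l (X u) (Y v) = l (X v) (Y v)) = (l (X u) (Y w) = l (X w) (Y w))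
  rw [h1, h2]

theorem PrT_fac (Q : FP Om) : Fac (fun w => (l (X w) (Y w), Y w)) (fun w => Q.Pr (Tt X Y l w)) :=
  fun _ _ hv => congrArg Q.Pr (Tt_congr hv)

/-- the letters of `c` under the event: the typical ones have entropy at most `X0 + log 2` -/
theorem typ_log (h : P.Indep Y X) {E : Om → Prop} (hE : Fac X E) (hE0 : P.Pr E ≠ 0) {X0 : ℝ} (hX0 : 0 ≤ X0)
    {τ : Om → Prop} (hτ : ∀ w, P.p w ≠ 0 → τ w → Real.exp (-X0) ≤ P.Pr (Tt X Y l w))
    (hτf : Fac (fun w => (l (X w) (Y w), Y w)) τ) :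
    (P.cond E).E (fun w => ind (τ w) * Real.log (1 / (P.cond E).Pr (Tt X Y l w))) ≤ X0 + Real.log 2 := by
  set Q := P.cond E with hQ
  have hT : ∀ w, Q.p w ≠ 0 → 0 < Q.Pr (Tt X Y l w) := fun w hw => FP.Pr_pos_of hw (Tt_self w)
  have hp : ∀ w, Q.p w ≠ 0 → P.p w ≠ 0 := P.cond_ac E
  set R : Om → ℝ := fun w => ind (τ w) * (1 / Q.Pr (Tt X Y l w)) + ind (¬ τ w) with hR
  have hRp : ∀ w, Q.p w ≠ 0 → 0 < R w := by
    intro w hw
    rw [hR]
    simp only
    by_cases hτw : τ w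
    · rw [ind_of hτw, ind_not (not_not.2 hτw), one_mul, add_zero]
      exact one_div_pos.2 (hT w hw)
    · rw [ind_not hτw, ind_of hτw, zero_mul, zero_add]
      exact zero_lt_one
  have h1 : Q.E (fun w => ind (τ w) * Real.log (1 / Q.Pr (Tt X Y l w))) = Q.E (fun w => Real.log (R w)) := by
    refine Q.E_congr fun w _ => ?_
    rw [hR]
    simp only
    by_cases hτw : τ w
    · rw [ind_of hτw, ind_not (not_not.2 hτw), one_mul, one_mul, add_zero]
    · rw [ind_not hτw, ind_of hτw, zero_mul, zero_mul, zero_add, Real.log_one]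
  rw [h1]
  refine (Q.E_log_le hRp).trans ?_
  have h2 : Q.E (fun w => ind (τ w) * (1 / Q.Pr (Tt X Y l w))) ≤ Real.exp X0 := by
    have h3 : Q.E (fun w => ind (τ w) * (1 / Q.Pr (Tt X Y l w))) =
        Q.E (fun w => P.m (fun v => (l (X v) (Y v), Y v)) w / Q.m (fun v => (l (X v) (Y v), Y v)) w *
          (ind (τ w) * (1 / P.Pr (Tt X Y l w)))) := by
      refine Q.E_congr fun w hw => ?_
      have a := (hT w hw).ne'
      have b := (FP.Pr_pos_of (P := P) (hp w hw) (Tt_self (X := X) (Y := Y) (l := l) w)).ne'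
      have c := (P.m_pos Y (hp w hw)).ne'
      rw [m_lY h, m_lY (cond_indep h hE hE0), ← hQ, cond_m_of_indep h.symm hE hE0]
      field_simp
    rw [h3]
    refine (Q.E_ratio_le P (h := fun w => ind (τ w) * (1 / P.Pr (Tt X Y l w))) ?_ ?_).trans ?_
    · exact (Fac.ind (s := τ) fun v w hv => by rw [hτf v w hv]).mul ((PrT_fac P).comp (fun x => 1 / x))
    · exact fun w _ => mul_nonneg (ind_nonneg _) (one_div_nonneg.2 (P.Pr_nonneg _))
    · refine P.E_le_const fun w hw => ?_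
      by_cases hτw : τ w
      · rw [ind_of hτw, one_mul]
        refine (one_div_le_one_div_of_le (Real.exp_pos _) (hτ w hw hτw)).trans ?_
        rw [one_div, Real.exp_neg, inv_inv]
      · rw [ind_not hτw, zero_mul]; exact (Real.exp_pos _).le
  have h4 : Q.E R ≤ Real.exp X0 + 1 := by
    rw [hR, Q.E_add]
    have := Q.Pr_le_one (fun w => ¬ τ w)
    have h5 : Q.E (fun w => ind (¬ τ w)) = Q.Pr (fun w => ¬ τ w) := rfl
    rw [h5]
    linarith
  have h6 : Real.exp X0 + 1 ≤ Real.exp (X0 + Real.log 2) := by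
    rw [Real.exp_add, Real.exp_log (by norm_num)]
    have := Real.one_le_exp hX0
    linarith
  have h7 : 0 < Q.E R := by
    obtain ⟨w, hw⟩ := Q.exists_p_ne
    by_contra hcon
    have h8 := Q.E_nonneg (f := R) (fun w hw => (hRp w hw).le)
    have h9 : Q.E R = 0 := le_antisymm (not_lt.1 hcon) h8
    unfold FP.E at h9
    rw [Finset.sum_eq_zero_iff_of_nonneg (fun v _ => by
      by_cases hv : Q.p v = 0
      · rw [hv]; simp
      · exact mul_nonneg (Q.nn v) (hRp v hv).le)] at h9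
    have h10 := h9 w (Finset.mem_univ w)
    exact (mul_ne_zero hw (hRp w hw).ne') h10
  refine (Real.log_le_log h7 (h4.trans h6)).trans ?_
  rw [Real.log_exp]

theorem cond_cond_E {E T : Om → Prop} (hE0 : P.Pr E ≠ 0) (hT0 : (P.cond E).Pr T ≠ 0) (f : Om → ℝ) :
    ((P.cond E).cond T).E f = (P.cond (fun w => E w ∧ T w)).E f ∧
      P.Pr (fun w => E w ∧ T w) = P.Pr E * (P.cond E).Pr T := by
  have h1 : P.Pr (fun w => E w ∧ T w) = P.Pr E * (P.cond E).Pr T := by
    have h0 : (P.cond E).Pr T = P.E (fun w => ind (E w) * ind (T w)) / P.Pr E := FP.cond_E hE0 _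
    rw [h0, mul_div_cancel₀ _ hE0]
    exact P.E_congr fun w _ => ind_and _ _
  have h2 : P.Pr (fun w => E w ∧ T w) ≠ 0 := by rw [h1]; exact mul_ne_zero hE0 hT0
  refine ⟨?_, h1⟩
  rw [FP.cond_E hT0, FP.cond_E hE0, FP.cond_E h2, h1, div_div]
  congr 1
  exact P.E_congr fun w _ => by rw [ind_and]; ring

theorem ce_ind_le_one (F : Om → κ) (A : Om → Prop) (w : Om) : P.ce F (fun v => ind (A v)) w ≤ 1 := by
  unfold FP.ce
  refine div_le_one_of_le₀ (P.E_mono fun v _ => ?_) (P.m_nonneg _ _)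
  have := mul_le_mul_of_nonneg_left (ind_le_one (A v)) (ind_nonneg (F v = F w))
  linarith

/-- **change of law for an event of the pair of labels** -/
theorem pair_change {Y' : Om → η'} {l' : χ → η' → υ'} (h : P.Indep Y (fun w => (X w, Y' w))) (h' : P.Indep X Y')
    {N : ℝ} (hN : 0 < N)
    (hs : ∀ E, Fac X E → P.Pr E ≠ 0 → SatE P (fun w => l (X w) (Y w)) Y N E)
    (hs' : ∀ E, Fac X E → P.Pr E ≠ 0 → SatE P (fun w => l' (X w) (Y' w)) Y' N E)
    {E : Om → Prop} (hE : Fac X E) (hE0 : P.Pr E ≠ 0) {X0 : ℝ} (hX0 : 0 ≤ X0) (a : υ × η → υ' × η' → Prop)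
    (hτ : ∀ w, P.p w ≠ 0 → a (l (X w) (Y w), Y w) (l' (X w) (Y' w), Y' w) → Real.exp (-X0) ≤ P.Pr (Tt X Y l w)) :
    (P.cond E).Pr (fun w => a (l (X w) (Y w), Y w) (l' (X w) (Y' w), Y' w)) ≤
      4 * P.Pr (fun w => a (l (X w) (Y w), Y w) (l' (X w) (Y' w), Y' w)) + 6 * (Real.log (1 / P.Pr E) + 1) / N +
      2 * (X0 + 1) / N + 4 * Real.sqrt ((X0 + 1) / N) := by
  have hi : P.Indep Y X := h.mono (Fac.refl Y) (Fac.fst X Y')
  set Q := P.cond E with hQ
  set F : Om → υ × η := fun w => (l (X w) (Y w), Y w) with hF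
  set F' : Om → υ' × η' := fun w => (l' (X w) (Y' w), Y' w) with hF'
  set A : Om → Prop := fun w => a (F w) (F' w) with hA
  set τ : Om → Prop := fun w => Real.exp (-X0) ≤ P.Pr (Tt X Y l w) with hτd
  have hp : ∀ w, Q.p w ≠ 0 → P.p w ≠ 0 := P.cond_ac E
  have hτf : Fac F τ := fun v w hv => by
    show (Real.exp (-X0) ≤ P.Pr (Tt X Y l v)) = (Real.exp (-X0) ≤ P.Pr (Tt X Y l w))
    rw [Tt_congr hv]
  have hAτ : ∀ w, P.p w ≠ 0 → ind (A w) = ind (τ w) * ind (A w) := by
    intro w hw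
    by_cases hAw : A w
    · rw [ind_of hAw, ind_of (hτ w hw hAw)]; ring
    · rw [ind_not hAw]; ring
  have hF'f : Fac (fun w => (X w, Y' w)) F' := fun v w hv => by
    rw [Prod.mk.injEq] at hv
    show (l' (X v) (Y' v), Y' v) = (l' (X w) (Y' w), Y' w)
    rw [hv.1, hv.2]
  -- the conditional laws given the letter and the point of `c`
  have hgf : ∀ w0, Fac (fun w => (X w, Y' w)) (fun w => ind (a (F w0) (F' w))) := fun w0 =>
    hF'f.comp (fun y => ind (a (F w0) y))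
  have hfg : ∀ w0 w, Y w = Y w0 → Tt X Y l w0 w → ind (A w) = ind (a (F w0) (F' w)) := by
    intro w0 w h1 h2
    have : F w = F w0 := by
      show (l (X w) (Y w), Y w) = (l (X w0) (Y w0), Y w0)
      rw [h1]
      rw [show l (X w) (Y w0) = l (X w0) (Y w0) from h2]
    show ind (a (F w) (F' w)) = _
    rw [this]
  have hceQ : ∀ w0, Q.p w0 ≠ 0 → Q.ce F (fun w => ind (A w)) w0 = (Q.cond (Tt X Y l w0)).E (fun w => ind (a (F w0) (F' w))) :=
    fun w0 hw0 => ce_lY (M := Y') (cond_indep h (hE := (Fac.fst X Y').trans hE) hE0) hw0 (hgf w0) (hfg w0)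
  have hceP : ∀ w0, P.p w0 ≠ 0 → P.ce F (fun w => ind (A w)) w0 = (P.cond (Tt X Y l w0)).E (fun w => ind (a (F w0) (F' w))) :=
    fun w0 hw0 => ce_lY (M := Y') h hw0 (hgf w0) (hfg w0)
  -- the main inequality at one point
  have main : ∀ w0, Q.p w0 ≠ 0 → ind (τ w0) * Q.ce F (fun w => ind (A w)) w0 ≤
      2 * (Real.log (1 / P.Pr E) + 1) / N + 2 / N * (ind (τ w0) * Real.log (1 / Q.Pr (Tt X Y l w0))) +
        2 * P.ce F (fun w => ind (A w)) w0 + 4 * Real.sqrt ((X0 + 1) / N) := by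
    intro w0 hw0
    have hsq := Real.sqrt_nonneg ((X0 + 1) / N)
    have hc0 := P.ce_nonneg (X := F) (f := fun w => ind (A w)) (fun _ _ => ind_nonneg _) w0
    have hlE : 0 ≤ Real.log (1 / P.Pr E) := by
      rw [one_div, Real.log_inv]
      have := Real.log_nonpos (P.Pr_nonneg E) (P.Pr_le_one E)
      linarith
    by_cases hτw : τ w0
    · rw [ind_of hτw, one_mul, one_mul, hceQ w0 hw0]
      have hT0 : Q.Pr (Tt X Y l w0) ≠ 0 := (FP.Pr_pos_of hw0 (Tt_self w0)).ne'
      have hTp : 0 < P.Pr (Tt X Y l w0) := FP.Pr_pos_of (hp w0 hw0) (Tt_self w0)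
      obtain ⟨e1, e2⟩ := cond_cond_E hE0 hT0 (fun w => ind (a (F w0) (F' w)))
      have hE' : Fac X (fun w => E w ∧ Tt X Y l w0 w) := fun v w hv => by
        show (E v ∧ Tt X Y l w0 v) = (E w ∧ Tt X Y l w0 w)
        rw [hE v w hv, Tt_fac w0 v w hv]
      have hE'0 : P.Pr (fun w => E w ∧ Tt X Y l w0 w) ≠ 0 := by rw [e2]; exact mul_ne_zero hE0 hT0
      rw [e1]
      have h1 := E_le_kl (P.cond_ac (fun w => E w ∧ Tt X Y l w0 w)) (X := F') (f := fun w => ind (a (F w0) (F' w)))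
        (fun v w hv => by simp only [hv]) (fun _ => ind_nonneg _) (fun _ => ind_le_one _)
      have h2 := (hs' _ hE' hE'0).kl_le h' hE' hE'0
      have h3 : Real.log (1 / P.Pr (fun w => E w ∧ Tt X Y l w0 w)) = Real.log (1 / P.Pr E) + Real.log (1 / Q.Pr (Tt X Y l w0)) := by
        rw [e2, ← Real.log_mul (one_div_ne_zero hE0) (one_div_ne_zero hT0), one_div_mul_one_div]
      have h4 := FP.pinsker_test (P.cond_ac (Tt X Y l w0)) (X := F') (f := fun w => ind (a (F w0) (F' w)))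
        (fun v w hv => by simp only [hv]) (a := 1) (fun w => by rw [abs_of_nonneg (ind_nonneg _)]; exact ind_le_one _)
      have h5 := (hs' _ (Tt_fac w0) hTp.ne').kl_le h' (Tt_fac w0) hTp.ne'
      have h6 : Real.log (1 / P.Pr (Tt X Y l w0)) ≤ X0 := by
        rw [one_div, Real.log_inv, neg_le, ← Real.log_exp (-X0)]
        exact Real.log_le_log (Real.exp_pos _) hτw
      have h7 : (P.cond (fun w => E w ∧ Tt X Y l w0 w)).kl P F' ≤
          (2 * (Real.log (1 / P.Pr E) + 1) + 2 * Real.log (1 / Q.Pr (Tt X Y l w0))) / N := by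
        rw [le_div_iff₀ hN, mul_comm]
        rw [h3] at h2
        linarith
      have h8 : (P.cond (Tt X Y l w0)).kl P F' ≤ 2 * ((X0 + 1) / N) := by
        rw [← mul_div_assoc, le_div_iff₀ hN, mul_comm]
        linarith
      have h9 : Real.sqrt (2 * (P.cond (Tt X Y l w0)).kl P F') ≤ 2 * Real.sqrt ((X0 + 1) / N) := by
        rw [Real.sqrt_le_left (by positivity), mul_pow, Real.sq_sqrt (by positivity)]
        linarith
      have h10 := (abs_le.1 h4).1
      rw [hceP w0 (hp w0 hw0)]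
      have h11 : (2 * (Real.log (1 / P.Pr E) + 1) + 2 * Real.log (1 / Q.Pr (Tt X Y l w0))) / N =
          2 * (Real.log (1 / P.Pr E) + 1) / N + 2 / N * Real.log (1 / Q.Pr (Tt X Y l w0)) := by ring
      rw [h11] at h7
      linarith
    · rw [ind_not hτw, zero_mul, zero_mul, mul_zero, add_zero]
      have : 0 ≤ 2 * (Real.log (1 / P.Pr E) + 1) / N := by positivity
      linarith
  -- the mean of the main inequality
  have s1 : Q.Pr A = Q.E (fun w => ind (τ w) * Q.ce F (fun v => ind (A v)) w) := by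
    rw [Q.E_mul_ce (Fac.ind (s := τ) fun v w hv => by rw [hτf v w hv])]
    exact Q.E_congr fun w hw => hAτ w (hp w hw)
  have s2 := Q.E_mono (fun w hw => main w hw)
  rw [← s1, Q.E_add, Q.E_add, Q.E_add, Q.E_const, Q.E_const, Q.E_smul, Q.E_smul] at s2
  have s3 : Q.E (fun w => ind (τ w) * Real.log (1 / Q.Pr (Tt X Y l w))) ≤ X0 + Real.log 2 :=
    typ_log hi hE hE0 hX0 (fun w _ hw => hw) hτf
  have s4 : Q.E (fun w => P.ce F (fun v => ind (A v)) w) ≤ Q.kl P F + 2 * P.E (P.ce F (fun v => ind (A v))) :=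
    E_le_kl (P.cond_ac E) (P.ce_fac F _) (fun w => P.ce_nonneg (fun _ _ => ind_nonneg _) w) (ce_ind_le_one F A)
  rw [P.E_ce] at s4
  have s5 := (hs E hE hE0).kl_le hi.symm hE hE0
  have s6 : Q.kl P F ≤ 2 * (Real.log (1 / P.Pr E) + 1) / N := by
    rw [le_div_iff₀ hN, mul_comm]
    exact s5
  have s7 : P.E (fun v => ind (A v)) = P.Pr A := rfl
  rw [s7] at s4
  have s8 : 2 / N * Q.E (fun w => ind (τ w) * Real.log (1 / Q.Pr (Tt X Y l w))) ≤ 2 / N * (X0 + 1) := by
    refine mul_le_mul_of_nonneg_left (s3.trans ?_) (by positivity)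
    have := Real.log_two_lt_d9
    linarith
  have s9 : 2 / N * (X0 + 1) = 2 * (X0 + 1) / N := by ring
  have s10 : 6 * (Real.log (1 / P.Pr E) + 1) / N = 3 * (2 * (Real.log (1 / P.Pr E) + 1) / N) := by ring
  rw [s10]
  linarith

/-- the density of the hidden point: the event has at least this mass inside -/
theorem dens_le (A : Om → Prop) {y : ℝ} (hE0 : P.Pr (fun w => y ≤ P.ce X (fun v => ind (A v)) w) ≠ 0) :
    y ≤ (P.cond (fun w => y ≤ P.ce X (fun v => ind (A v)) w)).Pr A := by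
  set E : Om → Prop := fun w => y ≤ P.ce X (fun v => ind (A v)) w with hE
  have hEf : Fac X (fun w => ind (E w)) := Fac.ind fun v w hv => by
    show y ≤ P.ce X (fun v => ind (A v)) v ↔ y ≤ P.ce X (fun v => ind (A v)) w
    rw [P.ce_fac X (fun v => ind (A v)) v w hv]
  have h1 : (P.cond E).Pr A = P.E (fun w => ind (E w) * P.ce X (fun v => ind (A v)) w) / P.Pr E := by
    rw [P.E_mul_ce hEf]
    exact FP.cond_E hE0 _
  have hp : 0 < P.Pr E := lt_of_le_of_ne (P.Pr_nonneg E) (Ne.symm hE0)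
  rw [h1, le_div_iff₀ hp]
  unfold FP.Pr
  rw [← P.E_smul]
  refine P.E_mono fun w _ => ?_
  by_cases hw : E w
  · rw [ind_of hw, mul_one, one_mul]; exact hw
  · rw [ind_not hw]; simp

/-- **CLAIM** : a heavy set of hidden points with density `y` makes the event of the pair heavy in the class -/
theorem claim {Y' : Om → η'} {l' : χ → η' → υ'} (h : P.Indep Y (fun w => (X w, Y' w))) (h' : P.Indep X Y')
    {N : ℝ} (hN : 0 < N)
    (hs : ∀ E, Fac X E → P.Pr E ≠ 0 → SatE P (fun w => l (X w) (Y w)) Y N E)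
    (hs' : ∀ E, Fac X E → P.Pr E ≠ 0 → SatE P (fun w => l' (X w) (Y' w)) Y' N E)
    {X0 : ℝ} (hX0 : 0 ≤ X0) (a : υ × η → υ' × η' → Prop)
    (hτ : ∀ w, P.p w ≠ 0 → a (l (X w) (Y w), Y w) (l' (X w) (Y' w), Y' w) → Real.exp (-X0) ≤ P.Pr (Tt X Y l w))
    {y Λ : ℝ} (hΛ : Real.exp (-Λ) ≤ P.Pr (fun w => y ≤ P.ce X (fun v => ind (a (l (X v) (Y v), Y v) (l' (X v) (Y' v), Y' v))) w))
    (hy : 6 * (Λ + 1) / N + 2 * (X0 + 1) / N + 4 * Real.sqrt ((X0 + 1) / N) ≤ y / 2) :
    y / 8 ≤ P.Pr (fun w => a (l (X w) (Y w), Y w) (l' (X w) (Y' w), Y' w)) := by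
  set A : Om → Prop := fun w => a (l (X w) (Y w), Y w) (l' (X w) (Y' w), Y' w) with hA
  set E : Om → Prop := fun w => y ≤ P.ce X (fun v => ind (A v)) w with hE
  have hE1 : 0 < P.Pr E := lt_of_lt_of_le (Real.exp_pos _) hΛ
  have hEf : Fac X E := fun v w hv => by
    show (y ≤ P.ce X (fun v => ind (A v)) v) = (y ≤ P.ce X (fun v => ind (A v)) w)
    rw [P.ce_fac X (fun v => ind (A v)) v w hv]
  have h1 := dens_le (X := X) A hE1.ne'
  have h2 := pair_change (l := l) (l' := l') h h' hN hs hs' hEf hE1.ne' hX0 a hτ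
  have h3 : Real.log (1 / P.Pr E) ≤ Λ := by
    rw [one_div, Real.log_inv, neg_le, ← Real.log_exp (-Λ)]
    exact Real.log_le_log (Real.exp_pos _) hΛ
  have h4 : 6 * (Real.log (1 / P.Pr E) + 1) / N ≤ 6 * (Λ + 1) / N := by
    refine div_le_div_of_nonneg_right ?_ hN.le
    linarith
  have h5 : P.Pr (fun w => a (l (X w) (Y w), Y w) (l' (X w) (Y' w), Y' w)) = P.Pr A := rfl
  rw [h5] at h2
  linarith

end pair

/-- the payment of the removal `z`, `P0` = law of the old class -/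
theorem claim_pay {P0 : FP Om} (hac : P.Ac P0) {F : Om → κ} {A : Om → Prop} (hA : Fac F A) {y q : ℝ} (hq : 0 < q)
    (hq1 : q ≤ 1) (h0 : P0.Pr A ≤ q) (hy : y / 8 ≤ P.Pr A) : y / 8 * Real.log (1 / q) ≤ P.kl P0 F + Real.log 2 := by
  have h1 := Pr_mul_log_le hac hA hq hq1 h0
  have h2 : 0 ≤ Real.log (1 / q) := Real.log_nonneg (by rw [le_div_iff₀ hq]; linarith)
  have h3 := mul_le_mul_of_nonneg_right hy h2
  linarith

/-! ## information of a pair -/

theorem I_pair_le (L : Om → υ) (L' : Om → υ') (V : Om → κ) (Z : Om → ι) :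
    P.I (fun w => (L w, L' w)) V Z ≤ P.I L V Z + P.I L' V Z + P.I L L' (fun w => (V w, Z w)) := by
  have h1 := P.I_chain L L' V Z
  have h2 : P.I L V (fun w => (L' w, Z w)) ≤ P.I L (fun w => (L' w, V w)) Z := by
    have h3 := P.I_chain L' V L Z
    -- I(L',V ; L | Z) = I(V ; L | Z) + I(L' ; L | V, Z)
    have h4 := P.I_chain V L' L Z
    have h5 := P.I_nonneg L' L Z
    have h6 : P.I L (fun w => (L' w, V w)) Z = P.I (fun w => (V w, L' w)) L Z := by
      rw [P.I_comm (fun w => (V w, L' w)) L]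
      exact P.I_congr (by intro v w h; simp only [Prod.mk.injEq] at h ⊢; tauto)
        (by intro v w h; simp only [Prod.mk.injEq] at h ⊢; tauto)
    rw [h6, h4, P.I_comm V L]
    linarith
  have h3 : P.I L (fun w => (L' w, V w)) Z = P.I L V Z + P.I L L' (fun w => (V w, Z w)) := by
    rw [P.I_comm L (fun w => (L' w, V w)), P.I_chain L' V L Z, P.I_comm V L, P.I_comm L' L]
  linarith

end Pool.Agent.GMH
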