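import Pool.Agent.M3.KL
import Pool.Agent.GMH.AC

/-!
# GMH.RS: rare sets of letters are spread (helper78; note 3933 (B))

`spread_of_dv`: if for every event `S` of the hidden point and every set `E` of bad letters
`θ P_S(E) ≤ c1 (log (1/P S) + 1) + c2 + P(E)^(1/2) exp θ` (saturation inside `S`, Donsker-Varadhan) then the bad letters
are spread: `P(P(E|A) > e) ≤ e P(E)`.
`ref_le`: the mass of `E` for the reference law is at most `P(E)^(1/2)`: total variation for the large sets, domination
(alive letters) for the small ones.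
-/

set_option autoImplicit false
set_option linter.unusedSectionVars false

namespace Pool.Agent.GMH

open Finset Pool.Agent.PWZ Pool.Agent.M3

noncomputable section

variable {Om : Type*} [Fintype Om] (P : FP Om) {α κ : Type*}

theorem spread_of_dv {A : Om → α} {X : Om → κ} {Bd : κ → Prop} {e c1 c2 : ℝ} (he : 0 < e)
    (he9 : Real.log e ≤ -10) (h1 : 0 ≤ c1) (hc1 : c1 ≤ e / 4) (hc2 : c2 ≤ e)
    (hB : P.Pr (fun w => Bd (X w)) ≤ e ^ 6)
    (H : ∀ (S : Om → Prop) (E : κ → Prop) (θ : ℝ), (∀ v w, A v = A w → (S v ↔ S w)) → (∀ x, E x → Bd x) → 0 ≤ θ →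
      P.Pr S ≠ 0 → θ * (P.cond S).Pr (fun w => E (X w)) ≤
        c1 * (Real.log (1 / P.Pr S) + 1) + c2 + Real.sqrt (P.Pr fun w => E (X w)) * Real.exp θ) :
    Spread P A X Bd e := by
  classical
  intro E hE
  set p := P.Pr fun w => E (X w) with hp
  set ρ : Om → ℝ := P.ce A fun v => ind (E (X v)) with hρ
  set S : Om → Prop := fun w => e < ρ w with hS
  have hp0 : 0 ≤ p := P.Pr_nonneg _
  have hEρ : P.E ρ = p := P.E_ce A _
  have hρ0 : ∀ w, 0 ≤ ρ w := fun w => P.ce_nonneg (fun _ _ => ind_nonneg _) w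
  have hSf : ∀ v w, A v = A w → (S v ↔ S w) := fun v w h => by
    have : ρ v = ρ w := P.ce_fac A _ v w h
    simp only [hS, this]
  have hpe : p ≤ e ^ 6 := (P.Pr_mono fun w _ hw => hE _ hw).trans hB
  by_contra hcon
  have hgt : e * p < P.Pr S := not_le.1 hcon
  have hPS0 : 0 ≤ P.Pr S := P.Pr_nonneg _
  -- Markov
  have hmk : e * P.Pr S ≤ p := by
    rw [← hEρ]
    unfold FP.Pr
    rw [← P.E_smul]
    refine P.E_mono fun w _ => ?_
    by_cases h : S w
    · rw [ind_of h, mul_one]; exact le_of_lt h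
    · rw [ind_not h, mul_zero]; exact hρ0 w
  rcases hp0.eq_or_lt with hz | hpos
  · rw [← hz] at hmk hgt
    rw [mul_zero] at hgt
    have : 0 < e * P.Pr S := mul_pos he hgt
    linarith
  have hPSpos : 0 < P.Pr S := lt_of_le_of_lt (mul_nonneg he.le hp0) hgt
  -- the conditional probability
  have hs : e ≤ (P.cond S).Pr (fun w => E (X w)) := by
    unfold FP.Pr
    rw [FP.cond_E hPSpos.ne', le_div_iff₀ hPSpos]
    have e1 : P.E (fun w => ind (S w) * ind (E (X w))) = P.E (fun w => ind (S w) * ρ w) :=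
      (P.E_mul_ce (Fac.ind hSf) (fun v => ind (E (X v)))).symm
    rw [e1]
    have e2 : P.Pr S = P.E fun w => ind (S w) := rfl
    rw [e2, ← P.E_smul]
    refine P.E_mono fun w _ => ?_
    by_cases h : S w
    · rw [ind_of h, one_mul, mul_one]; exact le_of_lt h
    · rw [ind_not h, mul_zero, zero_mul]
  have hlp : Real.log p ≤ 6 * Real.log e := by
    have := Real.log_le_log hpos hpe
    rwa [Real.log_pow] at this
  have hsq : 0 < Real.sqrt p := Real.sqrt_pos.2 hpos
  set θ : ℝ := Real.log (e / Real.sqrt p) with hθ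
  have hθ1 : θ = Real.log e - Real.log p / 2 := by
    rw [hθ, Real.log_div he.ne' hsq.ne', Real.log_sqrt hp0]
  have hθ0 : 0 ≤ θ := by rw [hθ1]; linarith
  have hexp : Real.sqrt p * Real.exp θ = e := by
    rw [hθ, Real.exp_log (div_pos he hsq)]
    field_simp
  have hH := H S E θ hSf hE hθ0 hPSpos.ne'
  rw [← hp, hexp] at hH
  have h3 : θ * e ≤ θ * (P.cond S).Pr (fun w => E (X w)) := mul_le_mul_of_nonneg_left hs hθ0
  have h4 : Real.log (1 / P.Pr S) ≤ - Real.log e - Real.log p := by
    rw [one_div, Real.log_inv]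
    have := Real.log_le_log (mul_pos he hpos) hgt.le
    rw [Real.log_mul he.ne' hpos.ne'] at this
    linarith
  have h5 : c1 * (Real.log (1 / P.Pr S) + 1) ≤ c1 * (- Real.log e - Real.log p + 1) :=
    mul_le_mul_of_nonneg_left (by linarith) h1
  have h6 : 0 ≤ - Real.log e - Real.log p + 1 := by linarith
  have h7 : c1 * (- Real.log e - Real.log p + 1) ≤ (e / 4) * (- Real.log e - Real.log p + 1) :=
    mul_le_mul_of_nonneg_right hc1 h6
  -- contradiction
  have h8 : θ * e ≤ (e / 4) * (- Real.log e - Real.log p + 1) + 2 * e := by linarith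
  rw [hθ1] at h8
  have h9 : e * ((Real.log e - Real.log p / 2) - (- Real.log e - Real.log p + 1) / 4 - 2) ≤ 0 := by linarith
  have h10 : 0 < (Real.log e - Real.log p / 2) - (- Real.log e - Real.log p + 1) / 4 - 2 := by linarith
  have := mul_pos he h10
  linarith

/-- reference law: total variation for the large sets, domination for the small ones -/
theorem ref_le {p r t K : ℝ} (hp : 0 ≤ p) (hp4 : p ≤ 1 / 4) (h1 : r ≤ p + t) (ht : t ≤ Real.exp (-2 * K))
    (h2 : r ≤ Real.exp K * p) : r ≤ Real.sqrt p := by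
  have hsq := Real.mul_self_sqrt hp
  have hs0 := Real.sqrt_nonneg p
  have hs2 : Real.sqrt p ≤ 1 / 2 := by
    rw [Real.sqrt_le_left (by norm_num)]
    linarith
  rcases le_total p (Real.exp (-2 * K)) with h | h
  · have h3 : Real.sqrt p ≤ Real.exp (-K) := by
      rw [Real.sqrt_le_left (Real.exp_pos _).le]
      refine h.trans (le_of_eq ?_)
      rw [← Real.exp_nat_mul]
      congr 1
      push_cast
      ring
    have h4 : Real.exp K * Real.sqrt p ≤ 1 := by
      have := mul_le_mul_of_nonneg_left h3 (Real.exp_pos K).le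
      rw [← Real.exp_add, add_neg_cancel, Real.exp_zero] at this
      exact this
    calc r ≤ Real.exp K * p := h2
      _ = (Real.exp K * Real.sqrt p) * Real.sqrt p := by rw [mul_assoc, hsq]
      _ ≤ 1 * Real.sqrt p := mul_le_mul_of_nonneg_right h4 hs0
      _ = Real.sqrt p := one_mul _
  · nlinarith

end

end Pool.Agent.GMH
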