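import Pool.Agent.GMH.InP
import Pool.Agent.GMH.Pin
import Pool.Agent.GMH.RS
import Pool.Agent.GMH.OneA

/-!
# GMH.InX: inputs of KEY3 (helper27)

`xc U t I w0` = the public class of `w0` with the exact points of `w0` at the vertices `I`;
`XQ = (D.P h t).cond (xc ..)`.

* `ex_bound` : `hw_bound` at `w0`; `ex_pub` : event only;
* `ex_vert` : **(P1)** relative entropy of (label of the vertex `j`, point `j`) for an event known at the other points;
  `ex_tv` : test functions;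
* `ex_i3` : **(I3)** the labels of the faces `I ∪ J` are additions;
* `ex_rs` : **(RS)** the hypothesis of `RS.spread_of_dv` at an exact vertex with its own label.
-/

set_option autoImplicit false
set_option linter.unusedSectionVars false

namespace Pool.Agent.GMH

open Finset Pool.Agent.PWZ Pool.Agent.M3 Pool.Agent.GM Pool.Agent.GM.Harm

section inx

variable {K X β γ φ υ ν : Type} [Fintype K] [DecidableEq K] [Fintype X] [Fintype β] [Fintype φ] [Nonempty X] [Nonempty β]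
  {D : HD K X β γ φ} {al : ℝ} {h : D.Thick al} {N : Finset K → ℝ} {S : Finset (Finset K)}

/-- the hidden point and the known points are independent in a class -/
theorem cls_indep {t : ℕ} {K0 : Finset K} {V : Pt K X β φ → Prop} (hV : Fac (fun w => (w.1, BB D t K0 w)) V)
    (hV1 : ∀ v w, V v → V w → BB D t K0 v = BB D t K0 w) {w0 : Pt K X β φ} (hw0 : V w0)
    (hV0 : (D.P h t).Pr V ≠ 0) : ((D.P h t).cond V).Indep (fun w => w.1) (fun w => w.2.1) := by
  classical
  intro f g hf hg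
  have hden : (FP.unif X).E (fun x => ind (V (x, w0.2))) ≠ 0 := by
    have h1 := FP.Pr_pos_of (P := FP.unif X) (S := fun x => V (x, w0.2)) (w := w0.1) (by
      show (Fintype.card X : ℝ)⁻¹ ≠ 0
      exact inv_ne_zero (by exact_mod_cast Fintype.card_ne_zero)) hw0
    exact h1.ne'
  have hS := fun j => bxs_ne (D := D) t K0 w0.2.1 j
  set C := (∑ y ∈ Fintype.piFinset (bxs D t K0 w0.2.1), g (w0.1, y, w0.2.2)) / bsz (bxs D t K0 w0.2.1) with hC
  have hg' : ∀ x, (Bx h t x (bxs D t K0 w0.2.1)).E (fun u => g (x, u)) = C := by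
    intro x
    rw [hC, ← Bx_pts h hS t x fun y => g (w0.1, y, w0.2.2)]
    exact (Bx h t x (bxs D t K0 w0.2.1)).E_congr fun u _ => hg (x, u) (w0.1, u.1, w0.2.2) rfl
  have hf' : ∀ x, (Bx h t x (bxs D t K0 w0.2.1)).E (fun u => f (x, u)) = f (x, w0.2) := by
    intro x
    rw [← (Bx h t x (bxs D t K0 w0.2.1)).E_const (f (x, w0.2))]
    exact (Bx h t x (bxs D t K0 w0.2.1)).E_congr fun u _ => hf (x, u) (x, w0.2) rfl
  have hfg : ∀ x, (Bx h t x (bxs D t K0 w0.2.1)).E (fun u => f (x, u) * g (x, u)) = f (x, w0.2) * C := by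
    intro x
    rw [← hg' x, ← FP.E_smul]
    exact (Bx h t x (bxs D t K0 w0.2.1)).E_congr fun u _ => by rw [hf (x, u) (x, w0.2) rfl]
  rw [cls_law h hV hV1 hw0 hV0, cls_law h hV hV1 hw0 hV0, cls_law h hV hV1 hw0 hV0]
  simp only [hg', hf', hfg]
  have e1 : (FP.unif X).E (fun x => ind (V (x, w0.2)) * (f (x, w0.2) * C)) =
      (FP.unif X).E (fun x => ind (V (x, w0.2)) * f (x, w0.2)) * C := by
    rw [← FP.E_mul_const]
    exact (FP.unif X).E_congr fun x _ => by ring
  have e2 : (FP.unif X).E (fun x => ind (V (x, w0.2)) * C) = (FP.unif X).E (fun x => ind (V (x, w0.2))) * C :=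
    (FP.unif X).E_mul_const _ _
  rw [e1, e2]
  field_simp

/-- the public class of `w0`, exact points of `w0` at the vertices `I` -/
def xc (D : HD K X β γ φ) (U : Finset K → X → (K → β) → υ) (t : ℕ) (I : Finset K) (w0 v : Pt K X β φ) : Prop :=
  le (LL U) ∅ v = le (LL U) ∅ w0 ∧ BB D t I v = BB D t I w0

theorem xc_self (U : Finset K → X → (K → β) → υ) (t : ℕ) (I : Finset K) (w0 : Pt K X β φ) : xc D U t I w0 w0 :=
  ⟨rfl, rfl⟩

theorem xc_hwV (U : Finset K → X → (K → β) → υ) (t : ℕ) (I : Finset K) (w0 : Pt K X β φ) :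
    xc D U t I w0 = hwV I w0.2.1 (xc D U t ∅ w0) := by
  funext v
  show (le (LL U) ∅ v = le (LL U) ∅ w0 ∧ BB D t I v = BB D t I w0) =
    ((le (LL U) ∅ v = le (LL U) ∅ w0 ∧ BB D t ∅ v = BB D t ∅ w0) ∧ ∀ i ∈ I, v.2.1 i = w0.2.1 i)
  rw [BB_eq, BB_eq]
  refine propext ⟨fun hh => ⟨⟨hh.1, fun j hj => absurd hj (Finset.notMem_empty j), hh.2.2⟩, hh.2.1⟩,
    fun hh => ⟨hh.1.1, hh.2, hh.1.2.2⟩⟩

theorem xc_ne {U : Finset K → X → (K → β) → υ} {t : ℕ} {I : Finset K} {w0 : Pt K X β φ} (hw0 : (D.P h t).p w0 ≠ 0) :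
    (D.P h t).Pr (xc D U t I w0) ≠ 0 :=
  (FP.Pr_pos_of (P := D.P h t) (S := xc D U t I w0) hw0 (xc_self U t I w0)).ne'

theorem xc_fac {U : Finset K → X → (K → β) → υ} {t : ℕ} (I : Finset K) (w0 : Pt K X β φ)
    (hU : ∀ I x y y', (∀ j ∈ I, y j = y' j) → (∀ j, D.qb t (y j) = D.qb t (y' j)) → U I x y = U I x y')
    (hK2 : ∀ l : K, ¬ univ.erase l ⊆ ∅) : Fac (fun w => (w.1, BB D t I w)) (xc D U t I w0) := by
  intro v w hvw
  simp only [Prod.mk.injEq] at hvw
  have e : le (LL U) ∅ v = le (LL U) ∅ w := by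
    rw [le_eq]
    intro J hJ
    have hb := hvw.2
    rw [BB_eq] at hb
    rw [LL_eq]
    refine ⟨?_, fun l hl => absurd (hl ▸ hJ : univ.erase l ⊆ ∅) (hK2 l)⟩
    rw [hvw.1]
    exact hU J w.1 v.2.1 w.2.1 (fun j hj => absurd (hJ hj) (Finset.notMem_empty j)) hb.2.2
  show (le (LL U) ∅ v = le (LL U) ∅ w0 ∧ BB D t I v = BB D t I w0) = (le (LL U) ∅ w = le (LL U) ∅ w0 ∧ BB D t I w = BB D t I w0)
  rw [e, hvw.2]

variable {U : Finset K → X → (K → β) → υ} {t : ℕ}

/-- **hardwired row bound at `w0`** -/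
theorem ex_bound
    (hU : ∀ I x y y', (∀ j ∈ I, y j = y' j) → (∀ j, D.qb t (y j) = D.qb t (y' j)) → U I x y = U I x y')
    (hs : SatA (D.P h t) (BB D t) N S (LL U) (Dep D t)) (hN : ∀ J ∈ S, 0 ≤ N J) (hK2 : ∀ l : K, ¬ univ.erase l ⊆ ∅)
    (hKS : ∅ ∈ S) {I J0 : Finset K} (hJ0S : J0 ∈ S) (hJ0 : J0.Nonempty) (hIJ : Disjoint J0 I)
    {w0 : Pt K X β φ} (hw0 : (D.P h t).p w0 ≠ 0)
    {E : Pt K X β φ → Prop} (hE : EvI D t I E) (hE0 : ((D.P h t).cond (xc D U t I w0)).Pr E ≠ 0)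
    {G : Finset K → Pt K X β φ → ν} (hG : GI D t I G) {b : ℝ}
    (hb : ∑ J ∈ S, N J * cost ((FP.pr ((D.P h t).cond (xc D U t ∅ w0)) (coinT h t)).cond fun w => E (hwm D t I w0.2.1 w))
      (fun I w => BB D t I w.1) (fun I w => LL U I w.1) (fun J w => G J (hwm D t I w0.2.1 w)) J ≤ b) :
    N J0 * ((((D.P h t).cond (xc D U t I w0)).cond E).klc ((D.P h t).cond (xc D U t I w0)) (LL U J0)
        (fun w => (lo (LL U) J0 w, BB D t J0 w)) +
      (((D.P h t).cond (xc D U t I w0)).cond E).I (LL U J0) (lo G J0) (fun w => (lo (LL U) J0 w, BB D t J0 w))) ≤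
      2 * N ∅ * (Real.log (1 / ((D.P h t).cond (xc D U t I w0)).Pr E) + 1) + 2 * b := by
  rw [xc_hwV] at hE0 ⊢
  refine hw_bound hU hs hN hK2 hKS hJ0S hJ0 hIJ (V := xc D U t ∅ w0) ?_ ?_ (w0 := w0) (xc_self U t ∅ w0) (xc_ne hw0)
    (c := w0.2.1) (fun _ _ => rfl) hE hE0 hG hb
  · intro v w hvw
    simp only [Prod.mk.injEq] at hvw
    show (le (LL U) ∅ v = le (LL U) ∅ w0 ∧ BB D t ∅ v = BB D t ∅ w0) =
      (le (LL U) ∅ w = le (LL U) ∅ w0 ∧ BB D t ∅ w = BB D t ∅ w0)
    rw [hvw.1, hvw.2]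
  · intro v w hv hw
    exact hv.2.trans hw.2.symm

/-- event only -/
theorem ex_pub
    (hU : ∀ I x y y', (∀ j ∈ I, y j = y' j) → (∀ j, D.qb t (y j) = D.qb t (y' j)) → U I x y = U I x y')
    (hs : SatA (D.P h t) (BB D t) N S (LL U) (Dep D t)) (hN : ∀ J ∈ S, 0 ≤ N J) (hK2 : ∀ l : K, ¬ univ.erase l ⊆ ∅)
    (hKS : ∅ ∈ S) {I J0 : Finset K} (hJ0S : J0 ∈ S) (hJ0 : J0.Nonempty) (hIJ : Disjoint J0 I)
    {w0 : Pt K X β φ} (hw0 : (D.P h t).p w0 ≠ 0)
    {E : Pt K X β φ → Prop} (hE : EvI D t I E) (hE0 : ((D.P h t).cond (xc D U t I w0)).Pr E ≠ 0) :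
    N J0 * (((D.P h t).cond (xc D U t I w0)).cond E).klc ((D.P h t).cond (xc D U t I w0)) (LL U J0)
        (fun w => (lo (LL U) J0 w, BB D t J0 w)) ≤
      2 * N ∅ * (Real.log (1 / ((D.P h t).cond (xc D U t I w0)).Pr E) + 1) := by
  have h1 := ex_bound hU hs hN hK2 hKS hJ0S hJ0 hIJ hw0 hE hE0 (G := fun _ _ => ()) (fun J v w _ => rfl) (b := 0) (by
    refine le_of_eq (Finset.sum_eq_zero fun J _ => ?_)
    rw [cost_const (fun _ _ => rfl), mul_zero])
  have h2 : 0 ≤ (((D.P h t).cond (xc D U t I w0)).cond E).I (LL U J0) (lo (fun _ _ => ()) J0)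
      (fun w => (lo (LL U) J0 w, BB D t J0 w)) := FP.I_nonneg _ _ _ _
  have h3 := mul_nonneg (hN J0 hJ0S) h2
  rw [mul_add] at h1
  linarith

/-- the event on the class, with the points of `w0` -/
theorem ev_cls {I : Finset K} {w0 : Pt K X β φ} {E : Pt K X β φ → Prop} (hE : EvI D t I E) {v : Pt K X β φ}
    (hv : BB D t I v = BB D t I w0) : E v = E (v.1, w0.2.1, v.2.2) := by
  refine hE _ _ ?_
  rw [BB_eq] at hv
  simp only [Prod.mk.injEq, BB_eq]
  refine ⟨trivial, ⟨hv.1, trivial, hv.2.2⟩, ?_⟩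
  funext l
  unfold tl
  rfl

/-- **the point `j` is independent of (hidden point, label `j`)** in a class with exact points off `j` -/
theorem cls_indep2 {K0 : Finset K} (j : K) {V : Pt K X β φ → Prop} (hV : Fac (fun w => (w.1, BB D t K0 w)) V)
    (hV1 : ∀ v w, V v → V w → BB D t K0 v = BB D t K0 w) {w0 : Pt K X β φ} (hw0 : V w0)
    (hV0 : (D.P h t).Pr V ≠ 0) :
    ((D.P h t).cond V).Indep (fun w => w.2.1 j) (fun w => (w.1, w.2.2 j)) := by
  classical
  intro f g hf hg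
  have hden : (FP.unif X).E (fun x => ind (V (x, w0.2))) ≠ 0 := by
    have h1 := FP.Pr_pos_of (P := FP.unif X) (S := fun x => V (x, w0.2)) (w := w0.1) (by
      show (Fintype.card X : ℝ)⁻¹ ≠ 0
      exact inv_ne_zero (by exact_mod_cast Fintype.card_ne_zero)) hw0
    exact h1.ne'
  have hS := fun j => bxs_ne (D := D) t K0 w0.2.1 j
  set C := (∑ y ∈ Fintype.piFinset (bxs D t K0 w0.2.1), f (w0.1, y, w0.2.2)) / bsz (bxs D t K0 w0.2.1) with hC
  have hf' : ∀ x, (Bx h t x (bxs D t K0 w0.2.1)).E (fun u => f (x, u)) = C := by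
    intro x
    rw [hC, ← Bx_pts h hS t x fun y => f (w0.1, y, w0.2.2)]
    exact (Bx h t x (bxs D t K0 w0.2.1)).E_congr fun u _ => hf (x, u) (w0.1, u.1, w0.2.2) rfl
  have hfg : ∀ x, (Bx h t x (bxs D t K0 w0.2.1)).E (fun u => f (x, u) * g (x, u)) =
      C * (Bx h t x (bxs D t K0 w0.2.1)).E (fun u => g (x, u)) := by
    intro x
    rw [← hf' x]
    refine indep_one h hS (bxs_cell K0 w0.2.1 t) x j (fun u => f (x, u)) (fun u => g (x, u)) ?_ ?_
    · intro u v huv
      exact hf (x, u) (x, v) huv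
    · intro u v huv
      refine hg (x, u) (x, v) ?_
      simp only [Prod.mk.injEq] at huv ⊢
      exact ⟨trivial, huv.2⟩
  rw [cls_law h hV hV1 hw0 hV0, cls_law h hV hV1 hw0 hV0, cls_law h hV hV1 hw0 hV0]
  simp only [hf', hfg]
  have e1 : (FP.unif X).E (fun x => ind (V (x, w0.2)) * (C * (Bx h t x (bxs D t K0 w0.2.1)).E fun u => g (x, u))) =
      C * (FP.unif X).E (fun x => ind (V (x, w0.2)) * (Bx h t x (bxs D t K0 w0.2.1)).E fun u => g (x, u)) := by
    rw [← FP.E_smul]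
    exact (FP.unif X).E_congr fun x _ => by ring
  have e2 : (FP.unif X).E (fun x => ind (V (x, w0.2)) * C) = (FP.unif X).E (fun x => ind (V (x, w0.2))) * C :=
    (FP.unif X).E_mul_const _ _
  rw [e1, e2]
  field_simp

theorem kl_congr_supp {Om κ ι : Type*} [Fintype Om] {P Q : FP Om} (hac : Q.Ac P) {X : Om → κ} {X' : Om → ι}
    (h : ∀ v w, P.p v ≠ 0 → P.p w ≠ 0 → (X v = X w ↔ X' v = X' w)) : Q.kl P X = Q.kl P X' := by
  unfold FP.kl
  refine Q.E_congr fun w hw => ?_
  rw [m_congr_supp (P := Q) (X := X) (X' := X') (fun v u hv hu => h v u (hac v hv) (hac u hu)) hw,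
    m_congr_supp (P := P) (X := X) (X' := X') h (hac w hw)]

/-- **(P1)** : label and point of the vertex `j` under an event known at other exact points -/
theorem ex_vert
    (hU : ∀ I x y y', (∀ j ∈ I, y j = y' j) → (∀ j, D.qb t (y j) = D.qb t (y' j)) → U I x y = U I x y')
    (hs : SatA (D.P h t) (BB D t) N S (LL U) (Dep D t)) (hN : ∀ J ∈ S, 0 ≤ N J) (hK2 : ∀ l : K, ¬ univ.erase l ⊆ ∅)
    (hKS : ∅ ∈ S) {I : Finset K} {j : K} (hjS : {j} ∈ S) (hj : j ∉ I) {w0 : Pt K X β φ} (hw0 : (D.P h t).p w0 ≠ 0)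
    {E : Pt K X β φ → Prop} (hE : EvI D t I E) (hE0 : ((D.P h t).cond (xc D U t I w0)).Pr E ≠ 0) :
    N {j} * (((D.P h t).cond (xc D U t I w0)).cond E).kl ((D.P h t).cond (xc D U t I w0))
        (fun w => (LL U {j} w, lo (LL U) {j} w, BB D t {j} w)) ≤
      2 * N ∅ * (Real.log (1 / ((D.P h t).cond (xc D U t I w0)).Pr E) + 1) := by
  classical
  set Q := (D.P h t).cond (xc D U t I w0) with hQ
  have h1 := ex_pub hU hs hN hK2 hKS hjS (Finset.singleton_nonempty j)
    (Finset.disjoint_singleton_left.2 hj) hw0 hE hE0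
  have hac : (Q.cond E).Ac Q := FP.cond_ac _ _
  have h2 := kl_pair hac (LL U {j}) (fun w => (lo (LL U) {j} w, BB D t {j} w))
  -- the base information is independent of the event
  have hsup : ∀ v, Q.p v ≠ 0 → xc D U t I w0 v := fun v hv => (cond_supp (xc_ne hw0) hv).1
  have hind := cls_indep2 (h := h) j (xc_fac (U := U) I w0 hU hK2)
    (fun v w hv hw => hv.2.trans hw.2.symm) (xc_self U t I w0) (xc_ne hw0)
  set E' : Pt K X β φ → Prop := fun v => E (v.1, w0.2.1, fun l => if l = j then v.2.2 l else w0.2.2 l) with hE'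
  have hEE' : ∀ v, Q.p v ≠ 0 → E v = E' v := by
    intro v hv
    rw [ev_cls hE (hsup v hv).2]
    refine hE _ _ ?_
    simp only [Prod.mk.injEq, BB_eq]
    refine ⟨trivial, ⟨fun _ _ => trivial, trivial, fun _ => trivial⟩, ?_⟩
    funext l
    unfold tl
    by_cases hl : univ.erase l ⊆ I ∧ ∃ i ∈ I, i ≠ l
    · have hlj : l = j := by
        by_contra hlj
        exact hj (hl.1 (Finset.mem_erase.2 ⟨fun hh => hlj hh.symm, mem_univ j⟩))
      rw [if_pos hl, if_pos hl]
      show some (v.2.2 l) = some (if l = j then v.2.2 l else w0.2.2 l)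
      rw [if_pos hlj]
    · rw [if_neg hl, if_neg hl]
  have hE'f : Fac (fun w => (w.1, w.2.2 j)) E' := by
    intro v w hvw
    have hvw' : (v.1, v.2.2 j) = (w.1, w.2.2 j) := hvw
    obtain ⟨e1, e2⟩ := Prod.mk.inj hvw'
    show E (v.1, w0.2.1, fun l => if l = j then v.2.2 l else w0.2.2 l) =
      E (w.1, w0.2.1, fun l => if l = j then w.2.2 l else w0.2.2 l)
    rw [e1]
    have : (fun l => if l = j then v.2.2 l else w0.2.2 l) = fun l => if l = j then w.2.2 l else w0.2.2 l := by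
      funext l
      by_cases hl : l = j
      · rw [if_pos hl, if_pos hl, hl, e2]
      · rw [if_neg hl, if_neg hl]
    rw [this]
  have hPr : Q.Pr E = Q.Pr E' := Q.E_congr fun v hv => by rw [hEE' v hv]
  have hcond : Q.cond E = Q.cond E' := by
    have hp : ∀ v, (Q.cond E).p v = (Q.cond E').p v := by
      intro v
      have a := FP.cond_E hE0 (fun u => ind (u = v))
      have b := FP.cond_E (by rw [← hPr]; exact hE0 : Q.Pr E' ≠ 0) (fun u => ind (u = v))
      rw [E_ind_eq] at a b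
      rw [a, b, hPr]
      congr 1
      exact Q.E_congr fun u hu => by rw [hEE' u hu]
    cases hA : Q.cond E with
    | mk p nn tot =>
      cases hB : Q.cond E' with
      | mk p' nn' tot' =>
        have : p = p' := by
          funext v
          have := hp v
          rw [hA, hB] at this
          exact this
        subst this
        rfl
  have h3 : (Q.cond E).kl Q (fun w => (lo (LL U) {j} w, BB D t {j} w)) = 0 := by
    have e1 : (Q.cond E).kl Q (fun w => (lo (LL U) {j} w, BB D t {j} w)) = (Q.cond E).kl Q (fun w => w.2.1 j) := by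
      refine kl_congr_supp hac fun v w hv hw => ?_
      have hv' := hsup v hv
      have hw' := hsup w hw
      simp only [Prod.mk.injEq]
      constructor
      · rintro ⟨_, hb⟩
        rw [BB_eq] at hb
        exact hb.1 j (Finset.mem_singleton_self j)
      · intro hyj
        refine ⟨?_, ?_⟩
        · rw [lo_eq]
          intro J hJ
          have hJ0 : J = ∅ := Finset.ssubset_singleton_iff.1 hJ
          have := hv'.1.trans hw'.1.symm
          rw [le_eq] at this
          rw [hJ0]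
          exact this ∅ (Finset.Subset.refl _)
        · have hb := hv'.2.trans hw'.2.symm
          rw [BB_eq] at hb ⊢
          refine ⟨fun i hi => ?_, hb.2⟩
          rw [Finset.mem_singleton.1 hi]; exact hyj
    rw [e1, hcond]
    exact cond_kl_of_indep hind.symm hE'f (by rw [← hPr]; exact hE0)
  rw [h2, h3, zero_add]
  exact h1

/-- test functions -/
theorem ex_tv
    (hU : ∀ I x y y', (∀ j ∈ I, y j = y' j) → (∀ j, D.qb t (y j) = D.qb t (y' j)) → U I x y = U I x y')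
    (hs : SatA (D.P h t) (BB D t) N S (LL U) (Dep D t)) (hN : ∀ J ∈ S, 0 ≤ N J) (hK2 : ∀ l : K, ¬ univ.erase l ⊆ ∅)
    (hKS : ∅ ∈ S) {I : Finset K} {j : K} (hjS : {j} ∈ S) (hj : j ∉ I) (hNj : 0 < N {j}) {w0 : Pt K X β φ}
    (hw0 : (D.P h t).p w0 ≠ 0)
    {E : Pt K X β φ → Prop} (hE : EvI D t I E) (hE0 : ((D.P h t).cond (xc D U t I w0)).Pr E ≠ 0)
    {f : Pt K X β φ → ℝ} (hf : Fac (fun w => (LL U {j} w, lo (LL U) {j} w, BB D t {j} w)) f) {a : ℝ}
    (hfa : ∀ w, |f w| ≤ a) :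
    |(((D.P h t).cond (xc D U t I w0)).cond E).E f - ((D.P h t).cond (xc D U t I w0)).E f| ≤
      a * Real.sqrt (4 * N ∅ / N {j} * (Real.log (1 / ((D.P h t).cond (xc D U t I w0)).Pr E) + 1)) := by
  have ha0 : 0 ≤ a := by
    obtain ⟨w, _⟩ := (D.P h t).exists_p_ne
    exact (abs_nonneg _).trans (hfa w)
  refine (FP.pinsker_test (FP.cond_ac _ _) hf hfa).trans ?_
  refine mul_le_mul_of_nonneg_left (Real.sqrt_le_sqrt ?_) ha0
  have h1 := ex_vert hU hs hN hK2 hKS hjS hj hw0 hE hE0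
  rw [div_mul_eq_mul_div, le_div_iff₀ hNj]
  linarith

/-! ## (I3) -/

open Classical in
/-- the label of the face `I ∪ J` as an addition at `J` -/
noncomputable def fl (I J : Finset K) (w : Pt K X β φ) (l : K) : Option φ :=
  if Disjoint J I ∧ univ.erase l = I ∪ J ∧ ∃ i ∈ I, i ≠ l then some (w.2.2 l) else none

theorem fl_GI (I : Finset K) : GI D t I (fl (X := X) (β := β) (φ := φ) I) := by
  classical
  intro J v w hvw
  simp only [Prod.mk.injEq] at hvw
  funext l
  unfold fl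
  by_cases hl : Disjoint J I ∧ univ.erase l = I ∪ J ∧ ∃ i ∈ I, i ≠ l
  · rw [if_pos hl, if_pos hl]
    have h1 := congrFun hvw.2.2 l
    unfold tl at h1
    rw [if_pos ⟨hl.2.1.subset, hl.2.2⟩, if_pos ⟨hl.2.1.subset, hl.2.2⟩] at h1
    exact h1
  · rw [if_neg hl, if_neg hl]

/-- the index sets of the additions `fl` -/
noncomputable def flS (I : Finset K) (S : Finset (Finset K)) : Finset (Finset K) :=
  S.filter fun J => Disjoint J I ∧ ∃ l, univ.erase l = I ∪ J

/-- possible readings -/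
theorem rd_poss {θ : K → Cn K X β φ} (hθ : (coinT h t).p θ ≠ 0) (l : K) {x x' : X} (hx : D.qa t x = D.qa t x')
    {y y' : K → β} (h1 : ∀ j, j ≠ l → y j = y' j) (h2 : ∀ j, D.qb t (y j) = D.qb t (y' j)) :
    al ≤ D.kf t l x' y' (rd D t θ l x y) := by
  have h3 : (coinF h t l).p (θ l) ≠ 0 := FPpi_supp hθ l
  have h4 : D.kf t l x (rep D t (univ.erase l) y) (rd D t θ l x y) ≠ 0 :=
    @FPpi_supp (X × (K → β)) φ _ (decI K X β) _ (fun i => kf1 h t l i.1 i.2) (θ l) h3 (x, rep D t (univ.erase l) y)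
  have h5 := rep_same (D := D) (t := t) (univ.erase l) y
  have h6 : D.kf t l x (rep D t (univ.erase l) y) = D.kf t l x y' :=
    D.dep t l x _ _ (fun j hj => (h5.1 j (Finset.mem_erase.2 ⟨hj, mem_univ j⟩)).trans (h1 j hj)) ((h5.2 l).trans (h2 l))
  rw [h6] at h4
  exact h.thick t l x x' y' _ hx h4

theorem poss_card (h : D.Thick al) (l : K) (x : X) (y : K → β) :
    ((univ.filter fun F => al ≤ D.kf t l x y F).card : ℝ) ≤ 1 / al := by
  classical
  rw [le_div_iff₀ h.pos, ← h.one t l x y]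
  calc ((univ.filter fun F => al ≤ D.kf t l x y F).card : ℝ) * al =
      ∑ _F ∈ univ.filter fun F => al ≤ D.kf t l x y F, al := by rw [Finset.sum_const, nsmul_eq_mul]
    _ ≤ ∑ F ∈ univ.filter fun F => al ≤ D.kf t l x y F, D.kf t l x y F :=
        Finset.sum_le_sum fun F hF => (Finset.mem_filter.1 hF).2
    _ ≤ _ := Finset.sum_le_sum_of_subset_of_nonneg (Finset.subset_univ _) fun F _ _ => h.nn t l _ _ F

/-- cost of the additions `fl` -/
theorem fl_cost {I : Finset K} {c : K → β} {Q : FP (Pt K X β φ)} {E : Pt K X β φ → Prop}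
    (hN : ∀ J ∈ S, 0 ≤ N J) :
    ∑ J ∈ S, N J * cost ((FP.pr Q (coinT h t)).cond fun w => E (hwm D t I c w))
      (fun I w => BB D t I w.1) (fun I w => LL U I w.1) (fun J w => fl I J (hwm D t I c w)) J ≤
      ∑ J ∈ flS I S, N J * Real.log (1 / al) := by
  classical
  unfold flS
  rw [Finset.sum_filter]
  refine Finset.sum_le_sum fun J hJ => ?_
  by_cases hl : Disjoint J I ∧ ∃ l, univ.erase l = I ∪ J
  · rw [if_pos hl]
    obtain ⟨hd, l, hlJ⟩ := hl
    refine mul_le_mul_of_nonneg_left ?_ (hN J hJ)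
    unfold cost
    refine Hc_le_card _ _ _ ?_
    intro w hw
    set y0 := hwy I c w.1.2.1 with hy0
    set s0 : Finset φ := univ.filter fun F => al ≤ D.kf t l w.1.1 y0 F with hs0
    set mk : φ → (K → Option φ) := fun F l' => if l' = l ∧ ∃ i ∈ I, i ≠ l then some F else none with hmk
    refine ⟨s0.image mk, ?_, ?_⟩
    · have h2 : ((s0.image mk).card : ℝ) ≤ s0.card := by exact_mod_cast Finset.card_image_le
      exact h2.trans (poss_card h l w.1.1 y0)
    · intro v hv hvw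
      simp only [Prod.mk.injEq, BB_eq] at hvw
      obtain ⟨-, -, h3, h4, h5⟩ := hvw
      have hv' := (pr_supp Q (coinT h t)).1 (FP.cond_ac _ _ v hv)
      refine Finset.mem_image.2 ⟨rd D t v.2 l v.1.1 (hwy I c v.1.2.1), Finset.mem_filter.2 ⟨mem_univ _, ?_⟩, ?_⟩
      · refine rd_poss hv'.2 l h4 (fun j hj => ?_) fun j => ?_
        · have hjm : j ∈ I ∪ J := by
            rw [← hlJ]; exact Finset.mem_erase.2 ⟨hj, mem_univ j⟩
          rw [hy0]
          unfold hwy
          by_cases hjI : j ∈ I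
          · rw [if_pos hjI, if_pos hjI]
          · rw [if_neg hjI, if_neg hjI]
            exact h3 j ((Finset.mem_union.1 hjm).resolve_left hjI)
        · rw [hy0]
          unfold hwy
          by_cases hjI : j ∈ I
          · rw [if_pos hjI, if_pos hjI]
          · rw [if_neg hjI, if_neg hjI]
            exact h5 j
      · show mk (rd D t v.2 l v.1.1 (hwy I c v.1.2.1)) = fl I J (hwm D t I c v)
        funext l'
        show (if l' = l ∧ ∃ i ∈ I, i ≠ l then some (rd D t v.2 l v.1.1 (hwy I c v.1.2.1)) else none) =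
          if Disjoint J I ∧ univ.erase l' = I ∪ J ∧ ∃ i ∈ I, i ≠ l' then
            some (if ∃ i ∈ I, i ≠ l' then rd D t v.2 l' v.1.1 (hwy I c v.1.2.1) else v.1.2.2 l') else none
        by_cases hl' : l' = l ∧ ∃ i ∈ I, i ≠ l
        · obtain ⟨rfl, hex⟩ := hl'
          rw [if_pos ⟨rfl, hex⟩, if_pos ⟨hd, hlJ, hex⟩, if_pos hex]
        · rw [if_neg hl', if_neg]
          rintro ⟨_, h7, h8⟩
          have h9 : l' = l := by
            by_contra hne
            have : l ∈ univ.erase l' := Finset.mem_erase.2 ⟨fun hh => hne hh.symm, mem_univ l⟩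
            rw [h7, ← hlJ] at this
            exact (Finset.mem_erase.1 this).1 rfl
          exact hl' ⟨h9, h9 ▸ h8⟩
  · rw [if_neg hl, cost_const, mul_zero]
    intro v w
    show fl I J (hwm D t I c v) = fl I J (hwm D t I c w)
    funext l
    unfold fl
    rw [if_neg (fun hh => hl ⟨hh.1, l, hh.2.1⟩), if_neg (fun hh => hl ⟨hh.1, l, hh.2.1⟩)]

/-- **(I3)** : `J0` disjoint from `I`; the labels of the faces `I ∪ J`, `J ⊂ J0`, at the exact points `I` -/
theorem ex_i3
    (hU : ∀ I x y y', (∀ j ∈ I, y j = y' j) → (∀ j, D.qb t (y j) = D.qb t (y' j)) → U I x y = U I x y')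
    (hs : SatA (D.P h t) (BB D t) N S (LL U) (Dep D t)) (hN : ∀ J ∈ S, 0 ≤ N J) (hK2 : ∀ l : K, ¬ univ.erase l ⊆ ∅)
    (hKS : ∅ ∈ S) {I J0 : Finset K} (hJ0S : J0 ∈ S) (hJ0 : J0.Nonempty) (hIJ : Disjoint J0 I)
    {w0 : Pt K X β φ} (hw0 : (D.P h t).p w0 ≠ 0)
    {E : Pt K X β φ → Prop} (hE : EvI D t I E) (hE0 : ((D.P h t).cond (xc D U t I w0)).Pr E ≠ 0) :
    N J0 * ((((D.P h t).cond (xc D U t I w0)).cond E).klc ((D.P h t).cond (xc D U t I w0)) (LL U J0)
        (fun w => (lo (LL U) J0 w, BB D t J0 w)) +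
      (((D.P h t).cond (xc D U t I w0)).cond E).I (LL U J0) (lo (fl I) J0) (fun w => (lo (LL U) J0 w, BB D t J0 w))) ≤
      2 * N ∅ * (Real.log (1 / ((D.P h t).cond (xc D U t I w0)).Pr E) + 1) +
        2 * ∑ J ∈ flS I S, N J * Real.log (1 / al) :=
  ex_bound hU hs hN hK2 hKS hJ0S hJ0 hIJ hw0 hE hE0 (fl_GI I) (fl_cost hN)

/-! ## (RS) -/

theorem lw_le_of {Om κ : Type*} [Fintype Om] {P Q : FP Om} {Z : Om → κ} {r : Om → ℝ} (hr : Fac Z r) {c : ℝ}
    (h0 : ∀ w, 0 ≤ r w) (hc : 0 ≤ c) (h : ∀ w, Q.p w ≠ 0 → r w ≠ 0 → Q.m Z w ≤ c * P.m Z w) : Q.E r ≤ c * P.E r := by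
  classical
  have e : ∀ R : FP Om, R.E r = ∑ z ∈ vals Z, lw R Z z * (if hz : ∃ w, Z w = z then r hz.choose else 0) := by
    intro R
    rw [sum_lw R Z (fun z => if hz : ∃ w, Z w = z then r hz.choose else 0)]
    refine R.E_congr fun w _ => ?_
    have hz : ∃ w', Z w' = Z w := ⟨w, rfl⟩
    rw [dif_pos hz]
    exact (hr _ _ hz.choose_spec).symm
  rw [e Q, e P, Finset.mul_sum]
  refine Finset.sum_le_sum fun z _ => ?_
  by_cases hz : ∃ w, Z w = z
  · rw [dif_pos hz]
    set w1 := hz.choose with hw1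
    have hz1 : Z w1 = z := hz.choose_spec
    by_cases hr0 : r w1 = 0
    · rw [hr0, mul_zero, mul_zero, mul_zero]
    · by_cases hq : lw Q Z z = 0
      · rw [hq, zero_mul]
        exact mul_nonneg hc (mul_nonneg (lw_nonneg P Z z) (h0 w1))
      · -- a point of the support
        obtain ⟨w2, hw2, hz2⟩ : ∃ w2, Q.p w2 ≠ 0 ∧ Z w2 = z := by
          by_contra hcon
          push Not at hcon
          refine hq ?_
          unfold lw
          refine (Q.E_congr fun w hw => ?_).trans (Q.E_const 0)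
          exact ind_not (hcon w hw)
        have hr2 : r w2 ≠ 0 := by rw [hr w2 w1 (hz2.trans hz1.symm)]; exact hr0
        have h3 := h w2 hw2 hr2
        have h4 : Q.m Z w2 = lw Q Z z := by unfold FP.m lw; rw [hz2]
        have h5 : P.m Z w2 = lw P Z z := by unfold FP.m lw; rw [hz2]
        rw [h4, h5] at h3
        calc lw Q Z z * r w1 ≤ (c * lw P Z z) * r w1 := mul_le_mul_of_nonneg_right h3 (h0 w1)
          _ = _ := by ring
  · rw [dif_neg hz, mul_zero, mul_zero, mul_zero]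

/-- **two step Donsker-Varadhan**: `Ps` on `X` over `Z`; `P'` = law of `X` given `Z`, `Q` = reference law of `Z` -/
theorem dv_two {Om κ ι : Type*} [Fintype Om] {Ps P' Q : FP Om} (h1 : Ps.Ac P') (h2 : Ps.Ac Q) (X : Om → κ) (Z : Om → ι)
    {E : Om → Prop} (hE : Fac (fun w => (X w, Z w)) E) {θ : ℝ} (hθ : 0 ≤ θ) :
    θ * Ps.Pr E ≤ Ps.klc P' X Z + Ps.kl Q Z + Q.E (P'.ce Z fun v => ind (E v)) * Real.exp θ := by
  have a := klc_dv h1 X Z (f := fun w => θ * ind (E w)) (fun v w hvw => by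
    show θ * ind (E v) = θ * ind (E w)
    rw [hE v w hvw])
  have hexp : ∀ w, Real.exp (θ * ind (E w)) ≤ 1 + (Real.exp θ - 1) * ind (E w) := by
    intro w
    by_cases hw : E w
    · rw [ind_of hw]; simp
    · rw [ind_not hw]; simp
  set r : Om → ℝ := P'.ce Z fun v => ind (E v) with hr
  have hr0 : ∀ w, 0 ≤ r w := fun w => P'.ce_nonneg (fun _ _ => ind_nonneg _) w
  have hθ1 : 0 ≤ Real.exp θ - 1 := by have := Real.add_one_le_exp θ; linarith
  have b : Ps.E (fun w => Real.log (P'.ce Z (fun v => Real.exp (θ * ind (E v))) w)) ≤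
      Ps.E (fun w => Real.log (1 + (Real.exp θ - 1) * r w)) := by
    refine Ps.E_mono fun w hw => ?_
    have hw' := h1 w hw
    have hle : P'.ce Z (fun v => Real.exp (θ * ind (E v))) w ≤ 1 + (Real.exp θ - 1) * r w := by
      have e1 : 1 + (Real.exp θ - 1) * r w = P'.ce Z (fun v => 1 + (Real.exp θ - 1) * ind (E v)) w := by
        rw [P'.ce_add, P'.ce_const _ _ hw', P'.ce_smul]
      rw [e1]
      exact P'.ce_mono (fun v _ => hexp v) w
    have hpos : 0 < P'.ce Z (fun v => Real.exp (θ * ind (E v))) w := by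
      have : 1 ≤ P'.ce Z (fun v => Real.exp (θ * ind (E v))) w := by
        rw [← P'.ce_const Z 1 hw']
        exact P'.ce_mono (fun v _ => Real.one_le_exp (mul_nonneg hθ (ind_nonneg _))) w
      linarith
    exact Real.log_le_log hpos hle
  have c := FP.dv' h2 (X := Z) (ψ := fun w => Real.log (1 + (Real.exp θ - 1) * r w)) (fun v w hvw => by
    show Real.log (1 + (Real.exp θ - 1) * r v) = Real.log (1 + (Real.exp θ - 1) * r w)
    rw [show r v = r w from P'.ce_fac Z _ v w hvw])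
  have d : Q.E (fun w => Real.exp (Real.log (1 + (Real.exp θ - 1) * r w)) - 1) = (Real.exp θ - 1) * Q.E r := by
    rw [← FP.E_smul]
    refine Q.E_congr fun w _ => ?_
    rw [Real.exp_log (by have := mul_nonneg hθ1 (hr0 w); linarith)]
    ring
  rw [d] at c
  have e : Ps.E (fun w => θ * ind (E w)) = θ * Ps.Pr E := Ps.E_smul θ _
  rw [e] at a
  have f : (Real.exp θ - 1) * Q.E r ≤ Q.E r * Real.exp θ := by
    have := Q.E_nonneg (f := r) fun w _ => hr0 w
    nlinarith
  linarith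

end inx

end Pool.Agent.GMH
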