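import Pool.Agent.GMH.Row
import Pool.Agent.GMH.RunE

/-!
# GMH.RowP: hardwired rows in the process of HARM(k), plain complete split (helper27)

* `FPpi q` : product law (coins); `lift` lemmas for `FP.pr P R` ;
* `Dep D t r` : the partitions `r J` are functions of `x`, `y_J`, node; `Run.dep` : the state after the split is saturated
  against all dependent additions; `SatA.cls` : the same in one class of `K0` (`K0` contains no label);
* `rowL` : the letter of the label `l` at a HARDWIRED exact point `c0` of the vertex `c`, coin `θ`, read at a representative of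
  `(x, y_J, node)`, `J = univ - l - c`; `rowL_cost` : its cost is at most `log (1/al)`;
* `rowP_rare` : rows are rarely larger than the gain of the class.
-/

set_option autoImplicit false
set_option linter.unusedSectionVars false

namespace Pool.Agent.GMH

open Finset Pool.Agent.PWZ Pool.Agent.M3 Pool.Agent.GM Pool.Agent.GM.Harm

/-! ## product laws -/

section pi

variable {I Φ : Type*} [Fintype I] [DecidableEq I] [Fintype Φ]

/-- product law -/
noncomputable def FPpi (q : I → FP Φ) : FP (I → Φ) where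
  p θ := ∏ i, (q i).p (θ i)
  nn θ := Finset.prod_nonneg fun i _ => (q i).nn _
  tot := by
    have h := Finset.prod_univ_sum (fun _ : I => (univ : Finset Φ)) (fun i f => (q i).p f)
    rw [Fintype.piFinset_univ] at h
    rw [← h]
    exact Finset.prod_eq_one fun i _ => (q i).tot

theorem FPpi_E (q : I → FP Φ) (i : I) (g : Φ → ℝ) : (FPpi q).E (fun θ => g (θ i)) = (q i).E g := by
  have h := Finset.prod_univ_sum (fun _ : I => (univ : Finset Φ)) (fun j f => (q j).p f * (if j = i then g f else 1))
  rw [Fintype.piFinset_univ] at h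
  have h1 : (FPpi q).E (fun θ => g (θ i)) = ∑ θ : I → Φ, ∏ j, ((q j).p (θ j) * (if j = i then g (θ j) else 1)) := by
    unfold FP.E
    refine Finset.sum_congr rfl fun θ _ => ?_
    rw [Finset.prod_mul_distrib]
    congr 1
    rw [Finset.prod_ite_eq' univ i, if_pos (mem_univ i)]
  rw [h1, ← h, Finset.prod_eq_single i]
  · simp only [if_true]
    rfl
  · intro j _ hj
    simp only [if_neg hj, mul_one]
    exact (q j).tot
  · intro hi; exact absurd (mem_univ i) hi

theorem FPpi_supp {q : I → FP Φ} {θ : I → Φ} (h : (FPpi q).p θ ≠ 0) (i : I) : (q i).p (θ i) ≠ 0 := by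
  intro h0
  exact h (Finset.prod_eq_zero (mem_univ i) h0)

end pi

/-! ## lifted functions -/

section lift

variable {Om Th : Type*} [Fintype Om] [Fintype Th] (P : FP Om) (R : FP Th) {κ ι : Type*}

theorem lift_E (f : Om → ℝ) : (FP.pr P R).E (fun w => f w.1) = P.E f := by
  rw [FP.pr_E]
  exact P.E_congr fun w _ => R.E_const (f w)

theorem lift_Pr (A : Om → Prop) : (FP.pr P R).Pr (fun w => A w.1) = P.Pr A := lift_E P R fun w => ind (A w)

theorem lift_m (X : Om → κ) (w : Om × Th) : (FP.pr P R).m (fun v => X v.1) w = P.m X w.1 :=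
  lift_E P R fun v => ind (X v = X w.1)

theorem lift_ce (X : Om → κ) (f : Om → ℝ) (w : Om × Th) :
    (FP.pr P R).ce (fun v => X v.1) (fun v => f v.1) w = P.ce X f w.1 := by
  unfold FP.ce
  rw [lift_m]
  congr 1
  exact lift_E P R fun v => ind (X v = X w.1) * f v

/-- conditional mean given a lifted map: the coin is integrated -/
theorem lift_ce' (X : Om → κ) (f : Om × Th → ℝ) (w : Om × Th) :
    (FP.pr P R).ce (fun v => X v.1) f w = P.ce X (fun v => R.E fun t => f (v, t)) w.1 := by
  unfold FP.ce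
  rw [lift_m, FP.pr_E]
  congr 1
  refine P.E_congr fun v _ => ?_
  exact R.E_smul (ind (X v = X w.1)) (fun t => f (v, t))

theorem lift_dens (Q : FP Om) (X : Om → κ) (Z : Om → ι) (w : Om × Th) :
    dens (FP.pr Q R) (FP.pr P R) (fun v => X v.1) (fun v => Z v.1) w = dens Q P X Z w.1 := by
  unfold dens
  rw [lift_m Q R Z, lift_m P R Z, lift_m Q R (fun v => (X v, Z v)), lift_m P R (fun v => (X v, Z v))]

theorem pr_supp {w : Om × Th} : (FP.pr P R).p w ≠ 0 ↔ P.p w.1 ≠ 0 ∧ R.p w.2 ≠ 0 := by
  show P.p w.1 * R.p w.2 ≠ 0 ↔ _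
  exact mul_ne_zero_iff

theorem pr_ac {Q : FP Om} (h : Q.Ac P) : (FP.pr Q R).Ac (FP.pr P R) := fun _ hw =>
  (pr_supp P R).2 ⟨h _ ((pr_supp Q R).1 hw).1, ((pr_supp Q R).1 hw).2⟩

end lift

/-! ## the state after the split -/

section dep

variable {K X β γ φ υ : Type} [Fintype K] [DecidableEq K] [Fintype X] [Fintype β] [Fintype φ]
  {D : HD K X β γ φ}

/-- the partitions are functions of the hidden point, the known points of `J` and the node -/
def Dep (D : HD K X β γ φ) (t : ℕ) (r : Finset K → Pt K X β φ → Pt K X β φ → Prop) : Prop :=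
  ∀ J (v w : Pt K X β φ), v.1 = w.1 → (∀ j ∈ J, v.2.1 j = w.2.1 j) →
    (∀ j, D.qb t (v.2.1 j) = D.qb t (w.2.1 j)) → r J v w

variable [Nonempty X] [Nonempty β] {al : ℝ} {h : D.Thick al} {N : Finset K → ℝ} {S : Finset (Finset K)}

/-- **saturation of the state after the split** -/
theorem Run.dep {v : ℕ → Finset K → X → (K → β) → Pt K X β φ} (R : Run h N S (AdmDep D) v) (hN : ∀ J ∈ S, 0 ≤ N J)
    (t : ℕ) : SatA (D.P h t) (BB D t) N S (LL fun I x y => UU v I t x y) (Dep D t) := by
  intro W hW
  refine R.sat hN t W ?_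
  intro J a b h1 h2 h3
  refine ⟨?_, hW J a b h1 h2 h3⟩
  rw [h1]
  exact R.codes t J b.1 a.2.1 b.2.1 h2 h3

theorem BB_mono (t : ℕ) : BMono (BB (φ := φ) D t) := by
  intro I J hIJ v w hvw
  rw [BB_eq] at hvw ⊢
  exact ⟨fun j hj => hvw.1 j (hIJ hj), hvw.2⟩

/-- additions on the index sets containing `K0` -/
def OnR (K0 : Finset K) (r : Finset K → Pt K X β φ → Pt K X β φ → Prop) : Prop := ∀ J, ¬ K0 ⊆ J → ∀ a b, r J a b

/-- **saturation in one class** -/
theorem SatA.cls {U : Finset K → X → (K → β) → υ} {t : ℕ}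
    (hU : ∀ I x y y', (∀ j ∈ I, y j = y' j) → (∀ j, D.qb t (y j) = D.qb t (y' j)) → U I x y = U I x y')
    (hs : SatA (D.P h t) (BB D t) N S (LL U) (Dep D t)) {K0 : Finset K} (hK : ∀ l, ¬ univ.erase l ⊆ K0)
    {V : Pt K X β φ → Prop} (hV : Fac (fun w => (le (LL U) K0 w, BB D t K0 w)) V) (hV0 : (D.P h t).Pr V ≠ 0) :
    SatA ((D.P h t).cond V) (BB D t) N S (LL U) (fun r => Dep D t r ∧ OnR K0 r) := by
  intro W hW
  refine hs.loc hV0 (BB_mono t) hV (fun J hJ a b => hW.2 J hJ a b) ?_
  intro J a b h1 h2 h3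
  by_cases hKJ : K0 ⊆ J
  · have e : V a = V b := by
      refine hV a b ?_
      simp only [Prod.mk.injEq, BB_eq, le_eq]
      refine ⟨fun I hI => ?_, fun j hj => h2 j (hKJ hj), by rw [h1], h3⟩
      rw [LL_eq]
      refine ⟨?_, fun l hl => ?_⟩
      · rw [h1]
        exact hU I b.1 a.2.1 b.2.1 (fun j hj => h2 j (hKJ (hI hj))) h3
      · exact absurd (hl ▸ hI : univ.erase l ⊆ K0) (hK l)
    by_cases hVa : V a
    · have hVb : V b := by rw [← e]; exact hVa
      exact Or.inl ⟨⟨hKJ, hVa⟩, ⟨hKJ, hVb⟩, hW.1 J a b h1 h2 h3⟩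
    · have hVb : ¬ V b := by rw [← e]; exact hVa
      exact Or.inr ⟨fun hh => hVa hh.2, fun hh => hVb hh.2⟩
  · exact Or.inr ⟨fun hh => hKJ hh.1, fun hh => hKJ hh.1⟩

end dep

/-! ## the hardwired row -/

section rowL

variable {K X β γ φ υ : Type} [Fintype K] [DecidableEq K] [Fintype X] [Fintype β] [Fintype φ]

/-- same points in `J`, same node -/
def sameS (D : HD K X β γ φ) (t : ℕ) (J : Finset K) : Setoid (K → β) where
  r y y' := (∀ j ∈ J, y j = y' j) ∧ ∀ j, D.qb t (y j) = D.qb t (y' j)
  iseqv := ⟨fun _ => ⟨fun _ _ => rfl, fun _ => rfl⟩, fun h => ⟨fun j hj => (h.1 j hj).symm, fun j => (h.2 j).symm⟩,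
    fun h h' => ⟨fun j hj => (h.1 j hj).trans (h'.1 j hj), fun j => (h.2 j).trans (h'.2 j)⟩⟩

/-- representative of the points in `J` and the node -/
noncomputable def rep (D : HD K X β γ φ) (t : ℕ) (J : Finset K) (y : K → β) : K → β :=
  (Quotient.mk (sameS D t J) y).out

variable {D : HD K X β γ φ} {t : ℕ}

theorem rep_same (J : Finset K) (y : K → β) :
    (∀ j ∈ J, rep D t J y j = y j) ∧ ∀ j, D.qb t (rep D t J y j) = D.qb t (y j) :=
  Quotient.exact (s := sameS D t J) (Quotient.out_eq _)

theorem rep_eq {J : Finset K} {y y' : K → β} (h1 : ∀ j ∈ J, y j = y' j) (h2 : ∀ j, D.qb t (y j) = D.qb t (y' j)) :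
    rep D t J y = rep D t J y' :=
  congrArg Quotient.out (Quotient.sound (s := sameS D t J) ⟨h1, h2⟩)

/-- the law of the label at a hardwired point depends on the other points and the node -/
theorem kf_hard {l c : K} (hlc : l ≠ c) (c0 : β) (x : X) {y y' : K → β} (h1 : ∀ j ∈ (univ.erase l).erase c, y j = y' j)
    (h2 : ∀ j, D.qb t (y j) = D.qb t (y' j)) :
    D.kf t l x (Function.update y c c0) = D.kf t l x (Function.update y' c c0) := by
  refine D.dep t l x _ _ ?_ ?_
  · intro j hj
    by_cases hjc : j = c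
    · subst hjc; rw [Function.update_self, Function.update_self]
    · rw [Function.update_of_ne hjc, Function.update_of_ne hjc]
      exact h1 j (Finset.mem_erase.2 ⟨hjc, Finset.mem_erase.2 ⟨hj, mem_univ j⟩⟩)
  · rw [Function.update_of_ne hlc, Function.update_of_ne hlc]
    exact h2 l

variable [Nonempty X] [Nonempty β] {al : ℝ} (h : D.Thick al)

/-- the space of the coins -/
def Cn (K X β φ : Type) : Type := X × (K → β) → φ

/-- decidability of the index type of the coins -/
noncomputable def decI (K X β : Type) : DecidableEq (X × (K → β)) := fun a b => Classical.propDecidable (a = b)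

noncomputable instance : Fintype (Cn K X β φ) := @Pi.instFintype (X × (K → β)) (fun _ => φ) (decI K X β) _ fun _ => inferInstance

/-- the law of one label -/
noncomputable def kf1 (t : ℕ) (l : K) (x : X) (y : K → β) : FP φ where
  p F := D.kf t l x y F
  nn F := h.nn t l x y F
  tot := h.one t l x y

/-- the coins: the label `l` at the hardwired point `c0` of the vertex `c`, for all hidden points and all other points -/
noncomputable def coinR (t : ℕ) (l c : K) (c0 : β) : FP (Cn K X β φ) :=
  @FPpi (X × (K → β)) φ _ (decI K X β) _ fun i => kf1 h t l i.1 (Function.update i.2 c c0)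

/-- the letter -/
noncomputable def rowL (D : HD K X β γ φ) (t : ℕ) (J : Finset K) (w : Pt K X β φ × Cn K X β φ) : φ :=
  w.2 (w.1.1, rep D t J w.1.2.1)

open Classical in
/-- the addition: the letter at the index set `J` -/
noncomputable def rowG (D : HD K X β γ φ) (t : ℕ) (J I : Finset K) (w : Pt K X β φ × Cn K X β φ) : Option φ :=
  if I = J then some (rowL D t J w) else none

/-- mean over the coin -/
theorem coinR_E {l c : K} (hlc : l ≠ c) (c0 : β) (x : X) (y : K → β) (g : φ → ℝ) :
    (coinR h t l c c0).E (fun θ => g (θ (x, rep D t ((univ.erase l).erase c) y))) =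
      ∑ F, D.kf t l x (Function.update y c c0) F * g F := by
  classical
  have h0 : (coinR h t l c c0).E (fun θ => g (θ (x, rep D t ((univ.erase l).erase c) y))) =
      (kf1 h t l x (Function.update (rep D t ((univ.erase l).erase c) y) c c0)).E g := by
    unfold coinR
    exact @FPpi_E (X × (K → β)) φ _ (decI K X β) _ (fun i => kf1 h t l i.1 (Function.update i.2 c c0))
      (x, rep D t ((univ.erase l).erase c) y) g
  rw [h0]
  have h1 := rep_same (D := D) (t := t) ((univ.erase l).erase c) y
  have h2 := kf_hard (D := D) (t := t) hlc c0 x (y := rep D t ((univ.erase l).erase c) y) (y' := y) h1.1 h1.2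
  show ∑ F, D.kf t l x (Function.update (rep D t ((univ.erase l).erase c) y) c c0) F * g F = _
  rw [h2]

variable {N : Finset K → ℝ} {S : Finset (Finset K)}

/-- **the cost of the letter** -/
theorem rowL_cost {l c : K} (hlc : l ≠ c) (c0 : β) {U : Finset K → X → (K → β) → υ} {P : FP (Pt K X β φ)}
    {Q : FP (Pt K X β φ × Cn K X β φ)} (hQ : Q.Ac (FP.pr P (coinR h t l c c0)))
    (hN1 : 0 ≤ N ((univ.erase l).erase c)) :
    ∑ J ∈ S, N J * cost Q (fun I w => BB D t I w.1) (fun I w => LL U I w.1) (rowG D t ((univ.erase l).erase c)) J ≤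
      N ((univ.erase l).erase c) * Real.log (1 / al) := by
  classical
  set J1 : Finset K := (univ.erase l).erase c with hJ1
  have hlog : 0 ≤ Real.log (1 / al) := by
    refine Real.log_nonneg ?_
    rw [le_div_iff₀ h.pos, one_mul]
    obtain ⟨x⟩ := (inferInstance : Nonempty X)
    obtain ⟨b⟩ := (inferInstance : Nonempty β)
    obtain ⟨F, hF⟩ : ∃ F, D.kf t l x (fun _ => b) F ≠ 0 := by
      by_contra hcon
      push Not at hcon
      have := h.one t l x (fun _ => b)
      simp [hcon] at this
    refine (h.thick t l x x (fun _ => b) F rfl hF).trans ?_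
    rw [← h.one t l x (fun _ => b)]
    exact Finset.single_le_sum (f := fun F => D.kf t l x (fun _ => b) F) (fun F _ => h.nn t l x _ F) (mem_univ F)
  have h1 : ∀ J ∈ S, N J * cost Q (fun I w => BB D t I w.1) (fun I w => LL U I w.1) (rowG D t J1) J ≤
      if J = J1 then N J1 * Real.log (1 / al) else 0 := by
    intro J hJ
    by_cases hJJ : J = J1
    · rw [if_pos hJJ, hJJ]
      refine mul_le_mul_of_nonneg_left ?_ hN1
      unfold cost
      refine Hc_le_card Q _ _ ?_
      intro w hw
      have hw' := (pr_supp P (coinR h t l c c0)).1 (hQ w hw)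
      set s0 : Finset φ := univ.filter fun F => al ≤ D.kf t l w.1.1 (Function.update w.1.2.1 c c0) F with hs0
      refine ⟨s0.image some, ?_, ?_⟩
      · have h2 : ((s0.image some).card : ℝ) ≤ s0.card := by exact_mod_cast Finset.card_image_le
        refine h2.trans ?_
        rw [le_div_iff₀ h.pos]
        rw [← h.one t l w.1.1 (Function.update w.1.2.1 c c0)]
        calc (s0.card : ℝ) * al = ∑ _F ∈ s0, al := by rw [Finset.sum_const, nsmul_eq_mul]
          _ ≤ ∑ F ∈ s0, D.kf t l w.1.1 (Function.update w.1.2.1 c c0) F :=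
              Finset.sum_le_sum fun F hF => (Finset.mem_filter.1 hF).2
          _ ≤ _ := Finset.sum_le_sum_of_subset_of_nonneg (Finset.subset_univ _) fun F _ _ => h.nn t l _ _ F
      · intro v hv hvw
        simp only [Prod.mk.injEq, BB_eq] at hvw
        obtain ⟨-, -, h3, h4, h5⟩ := hvw
        have hv' := (pr_supp P (coinR h t l c c0)).1 (hQ v hv)
        have h6 : D.kf t l v.1.1 (Function.update (rep D t J1 v.1.2.1) c c0) (rowL D t J1 v) ≠ 0 := by
          have := @FPpi_supp (X × (K → β)) φ _ (decI K X β) _ (fun i => kf1 h t l i.1 (Function.update i.2 c c0))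
            v.2 hv'.2 (v.1.1, rep D t J1 v.1.2.1)
          exact this
        have h7 := rep_same (D := D) (t := t) J1 v.1.2.1
        rw [kf_hard (D := D) (t := t) hlc c0 v.1.1 (y' := w.1.2.1) (fun j hj => (h7.1 j hj).trans (h3 j hj))
          (fun j => (h7.2 j).trans (h5 j))] at h6
        refine Finset.mem_image.2 ⟨rowL D t J1 v, Finset.mem_filter.2 ⟨mem_univ _, ?_⟩, ?_⟩
        · exact h.thick t l v.1.1 w.1.1 _ _ h4 h6
        · unfold rowG
          rw [if_pos rfl]
    · rw [if_neg hJJ, cost_const, mul_zero]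
      intro v w
      unfold rowG
      rw [if_neg hJJ, if_neg hJJ]
  refine (Finset.sum_le_sum h1).trans ?_
  rw [Finset.sum_ite_eq' S J1]
  by_cases hS : J1 ∈ S
  · rw [if_pos hS]
  · rw [if_neg hS]
    exact mul_nonneg hN1 hlog

/-- **ROWS ARE RARELY LARGER THAN THE GAIN OF THE CLASS** : `V` = class of `K0` at the time `t`, `P0` = an older law,
`psi0 F` = function of the labels at `univ - c` for the letter `F` of the hardwired row -/
theorem rowP_rare {l c : K} (hlc : l ≠ c) (c0 : β) {U : Finset K → X → (K → β) → υ}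
    (hU : ∀ I x y y', (∀ j ∈ I, y j = y' j) → (∀ j, D.qb t (y j) = D.qb t (y' j)) → U I x y = U I x y')
    (hs : SatA (D.P h t) (BB D t) N S (LL U) (Dep D t)) (hN : ∀ J ∈ S, 0 ≤ N J)
    (hN1 : 0 ≤ N ((univ.erase l).erase c)) {K0 : Finset K}
    (hK : ∀ l, ¬ univ.erase l ⊆ K0) (hKS : K0 ∈ S) (hKJ : K0 ⊆ (univ.erase l).erase c) (hNK : 0 < N K0)
    (hJ0 : univ.erase c ∈ S) {V : Pt K X β φ → Prop} (hV : Fac (fun w => (le (LL U) K0 w, BB D t K0 w)) V)
    (hV0 : (D.P h t).Pr V ≠ 0) {P0 : FP (Pt K X β φ)} (hac : ((D.P h t).cond V).Ac P0)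
    {psi0 : φ → Pt K X β φ → ℝ}
    (hpsi : ∀ F, Fac (fun w => (LL U (univ.erase c) w, lo (LL U) (univ.erase c) w, BB D t (univ.erase c) w)) (psi0 F))
    (hone : ∀ w F, ((D.P h t).cond V).p w ≠ 0 →
      P0.ce (fun v => (lo (LL U) (univ.erase c) v, BB D t (univ.erase c) v)) (fun v => Real.exp (psi0 F v)) w ≤ 1)
    {E0 : X → Prop} {lam : ℝ}
    (hl : ∀ w, ((D.P h t).cond V).p w ≠ 0 → E0 w.1 → lam ≤ ((D.P h t).cond V).ce (fun w => w.1)
      (fun v => ∑ F, D.kf t l v.1 (Function.update v.2.1 c c0) F * psi0 F v -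
        dens ((D.P h t).cond V) P0 (LL U (univ.erase c)) (fun w => (lo (LL U) (univ.erase c) w, BB D t (univ.erase c) w)) v)
        w) :
    ((D.P h t).cond V).Pr (fun w => E0 w.1) ≤
      Real.exp (1 - (N (univ.erase c) * lam - 2 * (N ((univ.erase l).erase c) * Real.log (1 / al))) / (2 * N K0)) := by
  classical
  set J1 : Finset K := (univ.erase l).erase c with hJ1
  set J0 : Finset K := univ.erase c with hJ0'
  have hJ10 : J1 ⊂ J0 := by
    rw [Finset.ssubset_iff_of_subset]
    · exact ⟨l, Finset.mem_erase.2 ⟨hlc, mem_univ l⟩, fun hh => (Finset.mem_erase.1 (Finset.mem_erase.1 hh).2).1 rfl⟩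
    · intro j hj
      exact Finset.mem_erase.2 ⟨(Finset.mem_erase.1 hj).1, mem_univ j⟩
  set Q := (D.P h t).cond V with hQ
  set R := coinR h t l c c0 with hR
  have hcls := hs.cls hU hK hV hV0
  have key := row_gain_rare (P := FP.pr Q R) (P0 := FP.pr P0 R) (B := fun I w => BB D t I w.1)
    (L := fun I w => LL U I w.1) (S := S) (N := N) (K0 := K0) (J0 := J0) (E := fun w => E0 w.1.1)
    (G := rowG D t J1) (A := fun w => w.1.1) (lam := lam) (c := N J1 * Real.log (1 / al))
    (psi := fun r v => match r J1 with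
      | some (some F) => psi0 F v.1
      | _ => 0) (pr_ac P0 R hac) ?_ hN hKS hNK ?_ ?_ ?_ ?_ ?_ ?_ ?_
  · have e : (FP.pr Q R).Pr (fun w => E0 w.1.1) = Q.Pr (fun w => E0 w.1) := lift_Pr Q R fun w => E0 w.1
    rw [e] at key
    exact key
  · -- On K0
    intro J hJ v w
    have : J ≠ J1 := fun hh => hJ (hh ▸ hKJ)
    unfold rowG
    rw [if_neg this, if_neg this]
  · exact mem_above.2 ⟨hJ0, lt_of_le_of_lt hKJ hJ10⟩
  · -- psi is a function of the labels
    intro r v w hvw
    rcases hr : r J1 with _ | F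
    · simp only
    · rcases F with _ | F
      · simp only
      · simp only
        refine hpsi F v.1 w.1 ?_
        simp only [Prod.mk.injEq] at hvw ⊢
        refine ⟨hvw.1, ?_, hvw.2.2⟩
        rw [lo_eq] at hvw ⊢
        exact hvw.2.1
  · -- normalisation
    intro w r hw
    have hw1 := ((pr_supp Q R).1 hw).1
    have e1 : (fun v : Pt K X β φ × Cn K X β φ => (lo (fun I (w : Pt K X β φ × Cn K X β φ) => LL U I w.1)
        J0 v, BB D t J0 v.1)) = fun v => (lo (LL U) J0 v.1, BB D t J0 v.1) := rfl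
    rcases hr : r J1 with _ | F
    · simp only [Real.exp_zero]
      rw [e1, FP.ce_const _ _ _ (pr_ac P0 R hac w hw)]
    · rcases F with _ | F
      · simp only [Real.exp_zero]
        rw [e1, FP.ce_const _ _ _ (pr_ac P0 R hac w hw)]
      · simp only
        rw [e1]
        have := lift_ce P0 R (fun v => (lo (LL U) J0 v, BB D t J0 v)) (fun v => Real.exp (psi0 F v)) w
        rw [this]
        exact hone w.1 F hw1
  · intro v w hvw
    show E0 v.1.1 = E0 w.1.1
    have : v.1.1 = w.1.1 := hvw
    rw [this]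
  · -- the conditional mean
    intro w hw hE
    have hw1 := ((pr_supp Q R).1 hw).1
    refine (hl w.1 hw1 hE).trans (le_of_eq ?_)
    have e2 := lift_ce' Q R (fun v : Pt K X β φ => v.1) (fun v => (match lo (rowG D t J1) J0 v J1 with
      | some (some F) => psi0 F v.1
      | _ => 0) - dens (FP.pr Q R) (FP.pr P0 R) (fun w => LL U J0 w.1)
        (fun w => (lo (fun I (w : Pt K X β φ × Cn K X β φ) => LL U I w.1) J0 w, BB D t J0 w.1)) v) w
    refine Eq.trans ?_ e2.symm
    refine Q.ce_congr (fun v _ => ?_) w.1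
    have e3 : ∀ θ, dens (FP.pr Q R) (FP.pr P0 R) (fun w => LL U J0 w.1)
        (fun w => (lo (fun I (w : Pt K X β φ × Cn K X β φ) => LL U I w.1) J0 w, BB D t J0 w.1)) (v, θ) =
        dens Q P0 (LL U J0) (fun w => (lo (LL U) J0 w, BB D t J0 w)) v := fun θ =>
      lift_dens P0 R Q (LL U J0) (fun w => (lo (LL U) J0 w, BB D t J0 w)) (v, θ)
    have e4 : ∀ θ, (match lo (rowG D t J1) J0 (v, θ) J1 with
      | some (some F) => psi0 F v
      | _ => 0) = psi0 (θ (v.1, rep D t J1 v.2.1)) v := by
      intro θ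
      have : lo (rowG D t J1) J0 (v, θ) J1 = some (some (θ (v.1, rep D t J1 v.2.1))) := by
        unfold lo
        rw [if_pos hJ10]
        unfold rowG rowL
        rw [if_pos rfl]
      rw [this]
    simp only [e3, e4]
    rw [R.E_sub, R.E_const]
    congr 1
    exact (coinR_E h hlc c0 v.1 v.2.1 (fun F => psi0 F v)).symm
  · -- admissible
    intro _
    refine hcls.coin hN (cutK K0 (fun w => E0 w.1.1) (rowG D t J1)) ?_
    intro θ
    constructor
    · intro J a b h1 h2 h3
      show cutK K0 (fun w => E0 w.1.1) (rowG D t J1) J (a, θ) = cutK K0 (fun w => E0 w.1.1) (rowG D t J1) J (b, θ)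
      have e : rowG D t J1 J (a, θ) = rowG D t J1 J (b, θ) := by
        unfold rowG
        by_cases hJ : J = J1
        · rw [if_pos hJ, if_pos hJ]
          unfold rowL
          show some (θ (a.1, rep D t J1 a.2.1)) = some (θ (b.1, rep D t J1 b.2.1))
          rw [h1, rep_eq (D := D) (t := t) (y := a.2.1) (y' := b.2.1) (hJ ▸ h2) h3]
        · rw [if_neg hJ, if_neg hJ]
      by_cases hKJ' : K0 ⊆ J
      · by_cases hE : E0 a.1
        · have hE' : E0 b.1 := by rw [← h1]; exact hE
          rw [cutK_in (w := (a, θ)) hKJ' hE, cutK_in (w := (b, θ)) hKJ' hE', e]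
        · have hE' : ¬ E0 b.1 := by rw [← h1]; exact hE
          rw [cutK_off (w := (a, θ)) hE, cutK_off (w := (b, θ)) hE']
      · rw [cutK_out hKJ', cutK_out hKJ']
    · intro J hJ a b
      show cutK K0 (fun w => E0 w.1.1) (rowG D t J1) J (a, θ) = cutK K0 (fun w => E0 w.1.1) (rowG D t J1) J (b, θ)
      rw [cutK_out hJ, cutK_out hJ]
  · intro _
    exact rowL_cost h hlc c0 (fun w hw => FP.cond_ac (FP.pr Q R) _ w hw) hN1

end rowL

end Pool.Agent.GMH
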