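import Pool.Agent.GMH.V3P
import Pool.Agent.GMH.RowP
import Pool.Agent.GMH.InX

/-!
# GMH/RowV: thin level, rows of typical letters in a saturated class and after a digit (helper30, statements of helper91)

* `Pc_E` : in a public cell the hidden point and the three known points are independent (also after the digit);
* `sat_one` : event saturation of one letter; `good_state`, `good_digit` : typical letters have good rows.
-/

set_option autoImplicit false
set_option linter.unusedSectionVars false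

namespace Pool.Agent.GMH.V3

open Finset Pool.Agent.PWZ Pool.Agent.M3 Pool.Agent.GM Pool.Agent.GM.Harm Pool.Agent.GMH Pool.Agent.GMH.NZ

/-! ## the law of the points in a public cell -/

section cell

variable {X β γ φ υ : Type} [Fintype X] [Fintype β] [Fintype φ] [Nonempty X] [Nonempty β]
variable {D : HD (Fin 3) X β γ φ} {al : ℝ} {h : D.Thick al} {v : ℕ → Finset (Fin 3) → X → (Fin 3 → β) → υ}

omit [Fintype φ] in
theorem unif_prod (G : X → ℝ) (u : Fin 3 → β → ℝ) :
    (FP.unif (X × (Fin 3 → β))).E (fun z => G z.1 * ∏ j, u j (z.2 j)) =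
      (FP.unif X).E G * ∏ j, (FP.unif β).E (u j) := by
  classical
  have h1 := Finset.prod_univ_sum (fun _ : Fin 3 => (univ : Finset β)) (fun j b => u j b)
  rw [Fintype.piFinset_univ] at h1
  have hX : (Fintype.card X : ℝ) ≠ 0 := by exact_mod_cast Fintype.card_ne_zero
  have hB : (Fintype.card β : ℝ) ≠ 0 := by exact_mod_cast Fintype.card_ne_zero
  rw [FP.unif_E, FP.unif_E]
  have e1 : ∀ j : Fin 3, (FP.unif β).E (u j) = (∑ b, u j b) / Fintype.card β := fun j => FP.unif_E _ _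
  rw [Finset.prod_congr rfl fun j _ => e1 j, Finset.prod_div_distrib, h1, Finset.prod_const, Finset.card_univ,
    Fintype.card_fin, card_pts, Fintype.card_fin]
  rw [Fintype.sum_prod_type]
  simp only
  rw [Finset.sum_congr rfl fun x _ => (Finset.mul_sum univ (fun y : Fin 3 → β => ∏ j, u j (y j)) (G x)).symm,
    ← Finset.sum_mul]
  field_simp

variable (D v) in
/-- hidden points of the cell of `c` -/
def cX (s n : ℕ) (c : Pt (Fin 3) X β φ) (x : X) : Prop :=
  Um v s ∅ x c.2.1 = Um v s ∅ c.1 c.2.1 ∧ D.qa n x = D.qa n c.1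

variable (D) in
/-- known points of the cell of `c` -/
def cY (n : ℕ) (c : Pt (Fin 3) X β φ) (j : Fin 3) (b : β) : Prop := D.qb n b = D.qb n (c.2.1 j)

theorem Um_codes (hv : Codes D v) {s n : ℕ} (hs : s ≤ n + 1) (I : Finset (Fin 3)) (x : X) {y y' : Fin 3 → β}
    (h1 : ∀ j ∈ I, y j = y' j) (h2 : ∀ j, D.qb n (y j) = D.qb n (y' j)) : Um v s I x y = Um v s I x y' := by
  unfold Um
  rw [List.map_inj_left]
  intro r hr
  have hr' := List.mem_range.1 hr
  exact hv r I x y y' h1 fun j => qb_mono D (by omega) (h2 j)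

theorem NP_iff (hv : Codes D v) {s n : ℕ} (hs : s ≤ n + 1) (c w : Pt (Fin 3) X β φ) :
    NP D v s n w = NP D v s n c ↔ cX D v s n c w.1 ∧ ∀ j, cY D n c j (w.2.1 j) := by
  unfold NP nd cX cY
  rw [Prod.mk.injEq, Prod.mk.injEq, funext_iff]
  constructor
  · rintro ⟨h1, h2, h3⟩
    refine ⟨⟨?_, h2⟩, h3⟩
    rw [← h1]
    exact Um_codes hv hs ∅ w.1 (fun j hj => absurd hj (Finset.notMem_empty j)) fun j => (h3 j).symm
  · rintro ⟨⟨h1, h2⟩, h3⟩
    refine ⟨?_, h2, h3⟩
    rw [← h1]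
    exact Um_codes hv hs ∅ w.1 (fun j hj => absurd hj (Finset.notMem_empty j)) h3

theorem unif_ne {α : Type} [Fintype α] [Nonempty α] {A : α → Prop} {a : α} (ha : A a) : (FP.unif α).Pr A ≠ 0 :=
  (FP.Pr_pos_of (P := FP.unif α) (S := A) (w := a) (by
    show (Fintype.card α : ℝ)⁻¹ ≠ 0
    exact inv_ne_zero (by exact_mod_cast Fintype.card_ne_zero)) ha).ne'

variable (D v) in
/-- law of the hidden point in the cell -/
noncomputable def muC (s n : ℕ) (c : Pt (Fin 3) X β φ) : FP X := (FP.unif X).cond (cX D v s n c)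

variable (D) in
/-- law of a known point in the cell -/
noncomputable def nuC (n : ℕ) (c : Pt (Fin 3) X β φ) (j : Fin 3) : FP β := (FP.unif β).cond (cY D n c j)

theorem cX_self (s n : ℕ) (c : Pt (Fin 3) X β φ) : cX D v s n c c.1 := ⟨rfl, rfl⟩

theorem cY_self (n : ℕ) (c : Pt (Fin 3) X β φ) (j : Fin 3) : cY D n c j (c.2.1 j) := rfl

/-- the size of the cell -/
theorem cell_E (hv : Codes D v) (t : ℕ) {s n : ℕ} (hs : s ≤ n + 1) (c : Pt (Fin 3) X β φ) (G : X → ℝ)
    (u : Fin 3 → β → ℝ) :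
    (D.P h t).E (fun w => ind (NP D v s n w = NP D v s n c) * (G w.1 * ∏ j, u j (w.2.1 j))) =
      ((FP.unif X).Pr (cX D v s n c) * ∏ j, (FP.unif β).Pr (cY D n c j)) *
        ((muC D v s n c).E G * ∏ j, (nuC D n c j).E (u j)) := by
  have e1 : (D.P h t).E (fun w => ind (NP D v s n w = NP D v s n c) * (G w.1 * ∏ j, u j (w.2.1 j))) =
      (D.P h t).E (fun w => (fun z : X × (Fin 3 → β) => (ind (cX D v s n c z.1) * G z.1) *
        ∏ j, (ind (cY D n c j (z.2 j)) * u j (z.2 j))) (w.1, w.2.1)) := by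
    refine (D.P h t).E_congr fun w _ => ?_
    show _ = (ind (cX D v s n c w.1) * G w.1) * ∏ j, (ind (cY D n c j (w.2.1 j)) * u j (w.2.1 j))
    rw [ind_cg (NP_iff hv hs c w), ind_and, Finset.prod_mul_distrib]
    have e2 : ind (∀ j, cY D n c j (w.2.1 j)) = ∏ j, ind (cY D n c j (w.2.1 j)) := by
      by_cases hh : ∀ j, cY D n c j (w.2.1 j)
      · rw [ind_of hh]
        exact (Finset.prod_eq_one fun j _ => ind_of (hh j)).symm
      · rw [ind_not hh]
        push Not at hh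
        obtain ⟨j, hj⟩ := hh
        exact (Finset.prod_eq_zero (mem_univ j) (ind_not hj)).symm
    rw [e2]
    ring
  rw [e1, E_pts h t (fun z : X × (Fin 3 → β) => (ind (cX D v s n c z.1) * G z.1) *
        ∏ j, (ind (cY D n c j (z.2 j)) * u j (z.2 j))),
    unif_prod (fun x => ind (cX D v s n c x) * G x) (fun j b => ind (cY D n c j b) * u j b)]
  have hA : (FP.unif X).Pr (cX D v s n c) ≠ 0 := unif_ne (cX_self s n c)
  have hB : ∀ j, (FP.unif β).Pr (cY D n c j) ≠ 0 := fun j => unif_ne (cY_self n c j)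
  have e3 : (FP.unif X).E (fun x => ind (cX D v s n c x) * G x) = (FP.unif X).Pr (cX D v s n c) * (muC D v s n c).E G :=
    (FP.Pr_mul_cond_E hA G).symm
  have e4 : ∀ j, (FP.unif β).E (fun b => ind (cY D n c j b) * u j b) =
      (FP.unif β).Pr (cY D n c j) * (nuC D n c j).E (u j) := fun j => (FP.Pr_mul_cond_E (hB j) (u j)).symm
  rw [e3, Finset.prod_congr rfl fun j _ => e4 j, Finset.prod_mul_distrib]
  ring

/-- the mass of the cell -/
theorem cell_Pr (hv : Codes D v) (t : ℕ) {s n : ℕ} (hs : s ≤ n + 1) (c : Pt (Fin 3) X β φ) :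
    (D.P h t).Pr (fun w => NP D v s n w = NP D v s n c) =
      (FP.unif X).Pr (cX D v s n c) * ∏ j, (FP.unif β).Pr (cY D n c j) := by
  have h1 := cell_E (h := h) hv t hs c (fun _ => 1) (fun _ _ => 1)
  simp only [FP.E_const, Finset.prod_const_one, mul_one] at h1
  exact h1

theorem cell_ne (hv : Codes D v) (t : ℕ) {s n : ℕ} (hs : s ≤ n + 1) (c : Pt (Fin 3) X β φ) :
    (D.P h t).Pr (fun w => NP D v s n w = NP D v s n c) ≠ 0 := by
  rw [cell_Pr hv t hs c]
  exact mul_ne_zero (unif_ne (cX_self s n c)) (Finset.prod_ne_zero_iff.2 fun j _ => unif_ne (cY_self n c j))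

/-- **the points in a public cell are independent** -/
theorem Pc_E (hv : Codes D v) (t : ℕ) {s n : ℕ} (hs : s ≤ n + 1) (c : Pt (Fin 3) X β φ) (G : X → ℝ)
    (u : Fin 3 → β → ℝ) :
    (Pc h v t s n c).E (fun w => G w.1 * ∏ j, u j (w.2.1 j)) = (muC D v s n c).E G * ∏ j, (nuC D n c j).E (u j) := by
  unfold Pc
  rw [FP.cond_E (cell_ne hv t hs c), cell_E hv t hs c G u, cell_Pr hv t hs c]
  refine mul_div_cancel_left₀ _ ?_
  have := cell_ne (h := h) hv t hs c
  rwa [cell_Pr hv t hs c] at this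

/-! ## letters -/

variable (D) in
/-- mass of a point in its cell -/
noncomputable def mC (n : ℕ) (c : Pt (Fin 3) X β φ) (k : Fin 3) (b : β) : ℝ := (nuC D n c k).E fun b' => ind (b' = b)

variable (v) in
/-- the hidden points with the letter `z` of the vertex `k` -/
def Gl (s : ℕ) (c : Pt (Fin 3) X β φ) (k : Fin 3) (z : β × List υ) (x : X) : Prop :=
  Um v s {k} x (Function.update c.2.1 k z.1) = z.2

theorem mC_nonneg (n : ℕ) (c : Pt (Fin 3) X β φ) (k : Fin 3) (b : β) : 0 ≤ mC D n c k b :=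
  FP.E_nonneg _ fun _ _ => ind_nonneg _

theorem XL_iff (hv : Codes D v) {s n : ℕ} (hs : s ≤ n + 1) {c w : Pt (Fin 3) X β φ}
    (hw : NP D v s n w = NP D v s n c) (k : Fin 3) (z : β × List υ) :
    XL v s k w = z ↔ w.2.1 k = z.1 ∧ Gl v s c k z w.1 := by
  have hq := ((NP_iff hv hs c w).1 hw).2
  unfold XL Gl
  rw [Prod.ext_iff]
  refine and_congr_right fun h1 => ?_
  have e : Um v s {k} w.1 w.2.1 = Um v s {k} w.1 (Function.update c.2.1 k z.1) := by
    refine Um_codes hv hs {k} w.1 (fun j hj => ?_) fun j => ?_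
    · rw [Finset.mem_singleton.1 hj, Function.update_self]
      exact h1
    · by_cases hj : j = k
      · subst hj
        rw [Function.update_self]
        exact congrArg (D.qb n) h1
      · rw [Function.update_of_ne hj]
        exact hq j
  simp only
  rw [e]

theorem Pc_supp (hv : Codes D v) {t s n : ℕ} (hs : s ≤ n + 1) {c w : Pt (Fin 3) X β φ}
    (hw : (Pc h v t s n c).p w ≠ 0) : NP D v s n w = NP D v s n c :=
  (cond_supp (P := D.P h t) (A := fun w => NP D v s n w = NP D v s n c) (cell_ne hv t hs c) hw).1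

/-- a function of the hidden point -/
theorem Pc_E0 (hv : Codes D v) (t : ℕ) {s n : ℕ} (hs : s ≤ n + 1) (c : Pt (Fin 3) X β φ) (G : X → ℝ) :
    (Pc h v t s n c).E (fun w => G w.1) = (muC D v s n c).E G := by
  have h1 := Pc_E (h := h) hv t hs c G (fun _ _ => 1)
  simp only [FP.E_const, Finset.prod_const_one, mul_one] at h1
  exact h1

/-- one letter and the hidden point -/
theorem Pc_L1 (hv : Codes D v) (t : ℕ) {s n : ℕ} (hs : s ≤ n + 1) (c : Pt (Fin 3) X β φ) (E : X → Prop) (k : Fin 3)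
    (z : β × List υ) : (Pc h v t s n c).E (fun w => ind (E w.1) * ind (XL v s k w = z)) =
      mC D n c k z.1 * (muC D v s n c).Pr fun x => E x ∧ Gl v s c k z x := by
  have h1 := Pc_E (h := h) hv t hs c (fun x => ind (E x ∧ Gl v s c k z x)) (fun j b => if j = k then ind (b = z.1) else 1)
  have h2 : ∀ j, (nuC D n c j).E (fun b => if j = k then ind (b = z.1) else 1) = if j = k then mC D n c k z.1 else 1 := by
    intro j
    by_cases hj : j = k
    · subst hj; simp only [if_true]; rfl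
    · simp only [hj, if_false]; exact FP.E_const _ _
  rw [Finset.prod_congr rfl fun j _ => h2 j, Finset.prod_ite_eq' univ k, if_pos (mem_univ k)] at h1
  rw [mul_comm]
  refine Eq.trans ?_ h1
  refine FP.E_congr _ fun w hw => ?_
  rw [Finset.prod_ite_eq' univ k (fun j => ind (w.2.1 j = z.1)), if_pos (mem_univ k),
    ind_cg (XL_iff hv hs (Pc_supp hv hs hw) k z), ind_and, ind_and]
  ring

/-- the law of one letter -/
theorem Pc_lw (hv : Codes D v) (t : ℕ) {s n : ℕ} (hs : s ≤ n + 1) (c : Pt (Fin 3) X β φ) (k : Fin 3)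
    (z : β × List υ) : lw (Pc h v t s n c) (XL v s k) z = mC D n c k z.1 * (muC D v s n c).Pr (Gl v s c k z) := by
  have h1 := Pc_L1 (h := h) hv t hs c (fun _ => True) k z
  simp only [true_and, ind_of trivial, one_mul] at h1
  exact h1

/-- two letters -/
theorem Pc_L2 (hv : Codes D v) (t : ℕ) {s n : ℕ} (hs : s ≤ n + 1) (c : Pt (Fin 3) X β φ) {i k : Fin 3} (hik : i ≠ k)
    (z z' : β × List υ) : (Pc h v t s n c).E (fun w => ind (XL v s i w = z) * ind (XL v s k w = z')) =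
      mC D n c i z.1 * (mC D n c k z'.1 * (muC D v s n c).Pr fun x => Gl v s c i z x ∧ Gl v s c k z' x) := by
  have h1 := Pc_E (h := h) hv t hs c (fun x => ind (Gl v s c i z x ∧ Gl v s c k z' x))
    (fun j b => (if j = i then ind (b = z.1) else 1) * (if j = k then ind (b = z'.1) else 1))
  have h2 : ∀ j, (nuC D n c j).E (fun b => (if j = i then ind (b = z.1) else 1) * (if j = k then ind (b = z'.1) else 1)) =
      (if j = i then mC D n c i z.1 else 1) * (if j = k then mC D n c k z'.1 else 1) := by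
    intro j
    by_cases hj : j = i
    · subst hj
      simp only [if_true, hik, if_false, mul_one]; rfl
    · by_cases hj' : j = k
      · subst hj'
        simp only [if_true, hj, if_false, one_mul]; rfl
      · simp only [hj, hj', if_false, one_mul]; exact FP.E_const _ _
  rw [Finset.prod_congr rfl fun j _ => h2 j, Finset.prod_mul_distrib, Finset.prod_ite_eq' univ i,
    Finset.prod_ite_eq' univ k, if_pos (mem_univ i), if_pos (mem_univ k)] at h1
  have h3 : mC D n c i z.1 * (mC D n c k z'.1 * (muC D v s n c).Pr fun x => Gl v s c i z x ∧ Gl v s c k z' x) =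
      (muC D v s n c).E (fun x => ind (Gl v s c i z x ∧ Gl v s c k z' x)) * (mC D n c i z.1 * mC D n c k z'.1) := by
    unfold FP.Pr; ring
  rw [h3]
  refine Eq.trans ?_ h1
  refine FP.E_congr _ fun w hw => ?_
  rw [Finset.prod_mul_distrib, Finset.prod_ite_eq' univ i (fun j => ind (w.2.1 j = z.1)),
    Finset.prod_ite_eq' univ k (fun j => ind (w.2.1 j = z'.1)), if_pos (mem_univ k), if_pos (mem_univ i),
    ind_cg (XL_iff hv hs (Pc_supp hv hs hw) k z'), ind_cg (XL_iff hv hs (Pc_supp hv hs hw) i z), ind_and, ind_and,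
    ind_and]
  ring

/-- three letters -/
theorem Pc_L3 (hv : Codes D v) (t : ℕ) {s n : ℕ} (hs : s ≤ n + 1) (c : Pt (Fin 3) X β φ) {i k m : Fin 3}
    (hik : i ≠ k) (him : i ≠ m) (hkm : k ≠ m) (z z' z'' : β × List υ) :
    (Pc h v t s n c).E (fun w => ind (XL v s i w = z) * ind (XL v s k w = z') * ind (XL v s m w = z'')) =
      mC D n c i z.1 * (mC D n c k z'.1 * (mC D n c m z''.1 *
        (muC D v s n c).Pr fun x => (Gl v s c i z x ∧ Gl v s c k z' x) ∧ Gl v s c m z'' x)) := by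
  have h1 := Pc_E (h := h) hv t hs c (fun x => ind ((Gl v s c i z x ∧ Gl v s c k z' x) ∧ Gl v s c m z'' x))
    (fun j b => (if j = i then ind (b = z.1) else 1) * ((if j = k then ind (b = z'.1) else 1) *
      (if j = m then ind (b = z''.1) else 1)))
  have h2 : ∀ j, (nuC D n c j).E (fun b => (if j = i then ind (b = z.1) else 1) * ((if j = k then ind (b = z'.1) else 1) *
      (if j = m then ind (b = z''.1) else 1))) =
      (if j = i then mC D n c i z.1 else 1) * ((if j = k then mC D n c k z'.1 else 1) *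
        (if j = m then mC D n c m z''.1 else 1)) := by
    intro j
    by_cases hj : j = i
    · subst hj
      simp only [if_true, hik, him, if_false, mul_one]; rfl
    · by_cases hj' : j = k
      · subst hj'
        simp only [if_true, hj, hkm, if_false, one_mul, mul_one]; rfl
      · by_cases hj'' : j = m
        · subst hj''
          simp only [if_true, hj, hj', if_false, one_mul]; rfl
        · simp only [hj, hj', hj'', if_false, one_mul]; exact FP.E_const _ _
  rw [Finset.prod_congr rfl fun j _ => h2 j, Finset.prod_mul_distrib, Finset.prod_mul_distrib,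
    Finset.prod_ite_eq' univ i, Finset.prod_ite_eq' univ k, Finset.prod_ite_eq' univ m, if_pos (mem_univ i),
    if_pos (mem_univ k), if_pos (mem_univ m)] at h1
  have h3 : mC D n c i z.1 * (mC D n c k z'.1 * (mC D n c m z''.1 *
        (muC D v s n c).Pr fun x => (Gl v s c i z x ∧ Gl v s c k z' x) ∧ Gl v s c m z'' x)) =
      (muC D v s n c).E (fun x => ind ((Gl v s c i z x ∧ Gl v s c k z' x) ∧ Gl v s c m z'' x)) *
        (mC D n c i z.1 * (mC D n c k z'.1 * mC D n c m z''.1)) := by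
    unfold FP.Pr; ring
  rw [h3]
  refine Eq.trans ?_ h1
  refine FP.E_congr _ fun w hw => ?_
  rw [Finset.prod_mul_distrib, Finset.prod_mul_distrib, Finset.prod_ite_eq' univ i (fun j => ind (w.2.1 j = z.1)),
    Finset.prod_ite_eq' univ k (fun j => ind (w.2.1 j = z'.1)), Finset.prod_ite_eq' univ m (fun j => ind (w.2.1 j = z''.1)),
    if_pos (mem_univ k), if_pos (mem_univ i), if_pos (mem_univ m),
    ind_cg (XL_iff hv hs (Pc_supp hv hs hw) k z'), ind_cg (XL_iff hv hs (Pc_supp hv hs hw) i z),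
    ind_cg (XL_iff hv hs (Pc_supp hv hs hw) m z''), ind_and, ind_and, ind_and, ind_and, ind_and]
  ring

/-! ## rows -/

variable (D v) in
/-- distance of the law of the letter `k` under an event of the hidden point -/
noncomputable def dvC (s n : ℕ) (c : Pt (Fin 3) X β φ) (k : Fin 3) (E : X → Prop) : ℝ :=
  ∑ z ∈ vals (XL (φ := φ) v s k), mC D n c k z.1 * |(muC D v s n c).Pr (fun x => E x ∧ Gl v s c k z x) -
    (muC D v s n c).Pr E * (muC D v s n c).Pr (Gl v s c k z)|

theorem row_pair (hv : Codes D v) (t : ℕ) {s n : ℕ} (hs : s ≤ n + 1) (c : Pt (Fin 3) X β φ) {i k : Fin 3}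
    (hik : i ≠ k) (z : β × List υ) : rowd (Pc h v t s n c) (XL v s i) (XL v s k) z =
      mC D n c i z.1 * dvC D v s n c k (Gl v s c i z) := by
  unfold rowd dvC
  rw [Finset.mul_sum]
  refine Finset.sum_congr rfl fun z' _ => ?_
  have h1 := Pc_L2 (h := h) hv t hs c hik z z'
  have h2 : lw2 (Pc h v t s n c) (XL v s i) (XL v s k) z z' = _ := h1
  rw [h2, Pc_lw hv t hs, Pc_lw hv t hs]
  have e : mC D n c i z.1 * (mC D n c k z'.1 * (muC D v s n c).Pr fun x => Gl v s c i z x ∧ Gl v s c k z' x) -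
      mC D n c i z.1 * (muC D v s n c).Pr (Gl v s c i z) * (mC D n c k z'.1 * (muC D v s n c).Pr (Gl v s c k z')) =
      (mC D n c i z.1 * mC D n c k z'.1) * ((muC D v s n c).Pr (fun x => Gl v s c i z x ∧ Gl v s c k z' x) -
        (muC D v s n c).Pr (Gl v s c i z) * (muC D v s n c).Pr (Gl v s c k z')) := by ring
  rw [e, abs_mul, abs_of_nonneg (mul_nonneg (mC_nonneg n c i z.1) (mC_nonneg n c k z'.1))]
  ring

theorem row_triple (hv : Codes D v) (t : ℕ) {s n : ℕ} (hs : s ≤ n + 1) (c : Pt (Fin 3) X β φ) {i k m : Fin 3}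
    (hik : i ≠ k) (him : i ≠ m) (hkm : k ≠ m) (z z' : β × List υ) :
    ∑ z'' ∈ vals (XL (φ := φ) v s m), |(Pc h v t s n c).E (fun w => ind (XL v s i w = z) * ind (XL v s k w = z') *
      ind (XL v s m w = z'')) - (Pc h v t s n c).E (fun w => ind (XL v s i w = z) * ind (XL v s k w = z')) *
        lw (Pc h v t s n c) (XL v s m) z''| =
      mC D n c i z.1 * mC D n c k z'.1 * dvC D v s n c m (fun x => Gl v s c i z x ∧ Gl v s c k z' x) := by
  unfold dvC
  rw [Finset.mul_sum]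
  refine Finset.sum_congr rfl fun z'' _ => ?_
  rw [Pc_L2 hv t hs c hik z z', Pc_lw hv t hs, Pc_L3 hv t hs c hik him hkm]
  have e : mC D n c i z.1 * (mC D n c k z'.1 * (mC D n c m z''.1 *
        (muC D v s n c).Pr fun x => (Gl v s c i z x ∧ Gl v s c k z' x) ∧ Gl v s c m z'' x)) -
      mC D n c i z.1 * (mC D n c k z'.1 * (muC D v s n c).Pr fun x => Gl v s c i z x ∧ Gl v s c k z' x) *
        (mC D n c m z''.1 * (muC D v s n c).Pr (Gl v s c m z'')) =
      (mC D n c i z.1 * mC D n c k z'.1 * mC D n c m z''.1) *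
      ((muC D v s n c).Pr (fun x => (Gl v s c i z x ∧ Gl v s c k z' x) ∧ Gl v s c m z'' x) -
        (muC D v s n c).Pr (fun x => Gl v s c i z x ∧ Gl v s c k z' x) * (muC D v s n c).Pr (Gl v s c m z'')) := by ring
  rw [e, abs_mul, abs_of_nonneg (mul_nonneg (mul_nonneg (mC_nonneg n c i z.1) (mC_nonneg n c k z'.1))
    (mC_nonneg n c m z''.1))]
  ring

/-- **good rows from the distances** -/
theorem good_of (hv : Codes D v) (t : ℕ) {s n : ℕ} (hs : s ≤ n + 1) (c : Pt (Fin 3) X β φ) {L τ : ℝ} (hL : 0 ≤ L)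
    (hτ : Real.exp (-L) ≤ τ) {TT : Fin 3 → β × List υ → Prop}
    (hT : ∀ i z, TT i z → Real.exp (-L) ≤ (muC D v s n c).Pr (Gl v s c i z))
    (hS : ∀ k (E : X → Prop), Real.exp (-(3 * L)) ≤ (muC D v s n c).Pr E →
      dvC D v s n c k E ≤ τ * (muC D v s n c).Pr E) :
    Good3 (Pc h v t s n c) (XL v s 0) (XL v s 1) (XL v s 2) (TT 0) (TT 1) (TT 2) τ := by
  have h3L : Real.exp (-(3 * L)) ≤ Real.exp (-L) := Real.exp_le_exp.2 (by linarith)
  have pair : ∀ (i k : Fin 3), i ≠ k → ∀ z, TT i z →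
      rowd (Pc h v t s n c) (XL v s i) (XL v s k) z ≤ τ * lw (Pc h v t s n c) (XL v s i) z := by
    intro i k hik z hz
    rw [row_pair hv t hs c hik, Pc_lw hv t hs]
    have h1 := mul_le_mul_of_nonneg_left (hS k (Gl v s c i z) (h3L.trans (hT i z hz))) (mC_nonneg n c i z.1 (D := D))
    linarith
  have triple : ∀ (i k m : Fin 3), i ≠ k → i ≠ m → k ≠ m → ∀ z z', TT i z → TT k z' →
      (∑ z'' ∈ vals (XL (φ := φ) v s m), |(Pc h v t s n c).E (fun w => ind (XL v s i w = z) * ind (XL v s k w = z') *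
        ind (XL v s m w = z'')) - lw2 (Pc h v t s n c) (XL v s i) (XL v s k) z z' *
          lw (Pc h v t s n c) (XL v s m) z''| ≤ τ * lw2 (Pc h v t s n c) (XL v s i) (XL v s k) z z') ∨
      lw2 (Pc h v t s n c) (XL v s i) (XL v s k) z z' ≤
        τ * (lw (Pc h v t s n c) (XL v s i) z * lw (Pc h v t s n c) (XL v s k) z') := by
    intro i k m hik him hkm z z' hz hz'
    have h2 : lw2 (Pc h v t s n c) (XL v s i) (XL v s k) z z' = _ := Pc_L2 (h := h) hv t hs c hik z z'
    have hm1 := mC_nonneg (D := D) n c i z.1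
    have hm2 := mC_nonneg (D := D) n c k z'.1
    rcases le_or_gt (Real.exp (-(3 * L))) ((muC D v s n c).Pr fun x => Gl v s c i z x ∧ Gl v s c k z' x) with h3 | h3
    · left
      have h4 := row_triple (h := h) hv t hs c hik him hkm z z'
      have h5 : ∑ z'' ∈ vals (XL (φ := φ) v s m), |(Pc h v t s n c).E (fun w => ind (XL v s i w = z) *
          ind (XL v s k w = z') * ind (XL v s m w = z'')) - lw2 (Pc h v t s n c) (XL v s i) (XL v s k) z z' *
          lw (Pc h v t s n c) (XL v s m) z''| =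
        mC D n c i z.1 * mC D n c k z'.1 * dvC D v s n c m (fun x => Gl v s c i z x ∧ Gl v s c k z' x) := h4
      rw [h5, h2]
      have h6 := mul_le_mul_of_nonneg_left (hS m _ h3) (mul_nonneg hm1 hm2)
      linarith
    · right
      rw [h2, Pc_lw hv t hs, Pc_lw hv t hs]
      have a := hT i z hz
      have b := hT k z' hz'
      have e3 : Real.exp (-(3 * L)) = Real.exp (-L) * (Real.exp (-L) * Real.exp (-L)) := by
        rw [← Real.exp_add, ← Real.exp_add]; congr 1; ring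
      have hx := Real.exp_pos (-L)
      have h7 : (muC D v s n c).Pr (fun x => Gl v s c i z x ∧ Gl v s c k z' x) ≤
          τ * ((muC D v s n c).Pr (Gl v s c i z) * (muC D v s n c).Pr (Gl v s c k z')) := by
        refine h3.le.trans ?_
        rw [e3]
        have hτ0 : 0 ≤ τ := hx.le.trans hτ
        exact mul_le_mul hτ (mul_le_mul a b hx.le (hx.le.trans a)) (mul_nonneg hx.le hx.le) hτ0
      have h8 := mul_le_mul_of_nonneg_left h7 (mul_nonneg hm1 hm2)
      linarith
  have h01 : (0 : Fin 3) ≠ 1 := by decide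
  have h02 : (0 : Fin 3) ≠ 2 := by decide
  have h12 : (1 : Fin 3) ≠ 2 := by decide
  refine ⟨pair 0 1 h01, pair 0 2 h02, pair 1 0 h01.symm, pair 1 2 h12, pair 2 0 h02.symm, pair 2 1 h12.symm,
    ?_, ?_, ?_⟩
  · intro x y hx hy
    exact triple 0 1 2 h01 h02 h12 x y hx hy
  · intro x z hx hz
    have h1 := triple 0 2 1 h02 h01 h12.symm x z hx hz
    refine h1.imp_left fun h2 => ?_
    refine le_trans (le_of_eq ?_) h2
    refine Finset.sum_congr rfl fun y _ => ?_
    congr 2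
    unfold lw3
    exact FP.E_congr _ fun w _ => by ring
  · intro y z hy hz
    have h1 := triple 1 2 0 h12 h01.symm h02.symm y z hy hz
    refine h1.imp_left fun h2 => ?_
    refine le_trans (le_of_eq ?_) h2
    refine Finset.sum_congr rfl fun x _ => ?_
    congr 2
    unfold lw3
    exact FP.E_congr _ fun w _ => by ring

end cell

/-! ## saturation -/

section sat

variable {X β γ φ : Type} [Fintype X] [Fintype β] [Fintype φ] [Nonempty X] [Nonempty β]
variable {D : HD (Fin 3) X β γ φ} {al : ℝ} {h : D.Thick al} {N : Finset (Fin 3) → ℝ} {S : Finset (Finset (Fin 3))}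
  {v : ℕ → Finset (Fin 3) → X → (Fin 3 → β) → Pt (Fin 3) X β φ}

variable (h v) in
/-- the letter of the vertex `i` is typical in the public cell: conditional probability at least `exp (-L)` -/
def typ (t s n : ℕ) (L : ℝ) (i : Fin 3) (w : Pt (Fin 3) X β φ) : Prop :=
  Real.exp (-L) * (D.P h t).m (fun u => (u.2.1 i, NP D v s n u)) w ≤ (D.P h t).m (fun u => (XL v s i u, NP D v s n u)) w

theorem no_face : ∀ l : Fin 3, ¬ univ.erase l ⊆ (∅ : Finset (Fin 3)) := by decide

theorem no_face1 : ∀ l i : Fin 3, univ.erase l ≠ ({i} : Finset (Fin 3)) := by decide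

/-- the public cell of the state after the split -/
theorem NP_xc (t : ℕ) (c : Pt (Fin 3) X β φ) : (fun w => NP D v (t + 1) t w = NP D v (t + 1) t c) =
    xc D (fun I x y => UU v I t x y) t ∅ c := by
  funext w
  refine propext ?_
  unfold NP xc nd
  rw [Prod.mk.injEq, Prod.mk.injEq, BB_eq, le_eq, funext_iff]
  constructor
  · rintro ⟨h1, h2, h3⟩
    refine ⟨fun I hI => ?_, fun j hj => absurd hj (Finset.notMem_empty j), h2, h3⟩
    have hI0 : I = ∅ := Finset.subset_empty.1 hI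
    rw [LL_eq]
    refine ⟨?_, fun l hl => absurd (hl ▸ hI : univ.erase l ⊆ ∅) (no_face l)⟩
    rw [hI0]
    exact h1
  · rintro ⟨h1, -, h2, h3⟩
    exact ⟨(LL_eq.1 (h1 ∅ (Finset.Subset.refl _))).1, h2, h3⟩

/-- **EVENT SATURATION OF ONE LETTER** : `E` = event of the hidden point, `c` = point of the public cell -/
theorem sat_one (R : Run h N S (AdmDep D) v) (hN : ∀ J ∈ S, 0 ≤ N J) (h0 : ∅ ∈ S) (hS : ∀ i : Fin 3, {i} ∈ S)
    (t : ℕ) {c : Pt (Fin 3) X β φ} (hc : (D.P h t).p c ≠ 0) {E : X → Prop}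
    (hE : (Pc h v t (t + 1) t c).Pr (fun w => E w.1) ≠ 0) (i : Fin 3) :
    N {i} * ((Pc h v t (t + 1) t c).cond fun w => E w.1).kl (Pc h v t (t + 1) t c) (XL v (t + 1) i) ≤
      2 * N ∅ * (Real.log (1 / (Pc h v t (t + 1) t c).Pr (fun w => E w.1)) + 1) := by
  set U : Finset (Fin 3) → X → (Fin 3 → β) → List (Pt (Fin 3) X β φ) := fun I x y => UU v I t x y with hUdef
  have hU : ∀ I x (y y' : Fin 3 → β), (∀ j ∈ I, y j = y' j) → (∀ j, D.qb t (y j) = D.qb t (y' j)) → U I x y = U I x y' :=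
    fun I x y y' h1 h2 => (sys_UU R.codes).dep I t x y y' h1 h2
  have e0 : Pc h v t (t + 1) t c = (D.P h t).cond (xc D U t ∅ c) := by
    unfold Pc
    rw [NP_xc]
  have hEv : EvI D t (∅ : Finset (Fin 3)) (fun w : Pt (Fin 3) X β φ => E w.1) := by
    intro a b hab
    have h1 : a.1 = b.1 := congrArg (fun q => q.1) hab
    show E a.1 = E b.1
    rw [h1]
  rw [e0] at hE ⊢
  have key := ex_vert (h := h) (U := U) (t := t) hU (Run.dep R hN t) hN no_face h0 (I := ∅) (j := i) (hS i)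
    (Finset.notMem_empty i) hc hEv hE
  refine le_trans (le_of_eq ?_) key
  congr 1
  refine kl_congr_supp (FP.cond_ac _ _) fun a b ha hb => ?_
  have hac : xc D U t ∅ c a := (cond_supp (xc_ne hc) ha).1
  have hbc : xc D U t ∅ c b := (cond_supp (xc_ne hc) hb).1
  have hB := hac.2.trans hbc.2.symm
  rw [BB_eq] at hB
  simp only [Prod.mk.injEq, LL_eq, lo_eq, BB_eq]
  unfold XL
  rw [Prod.mk.injEq]
  constructor
  · rintro ⟨h1, h2⟩
    refine ⟨⟨h2, fun l hl => absurd hl (no_face1 l i)⟩, fun I hI => ?_, fun j hj => ?_, hB.2⟩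
    · have hI0 : I = ∅ := Finset.ssubset_singleton_iff.1 hI
      rw [hI0]
      have h3 := hac.1.trans hbc.1.symm
      rw [le_eq] at h3
      exact LL_eq.1 (h3 ∅ (Finset.Subset.refl _))
    · rw [Finset.mem_singleton.1 hj]; exact h1
  · rintro ⟨h1, -, h2, -⟩
    exact ⟨h2 i (Finset.mem_singleton_self i), h1.1⟩

/-- Pinsker, `l1` form -/
theorem l1_kl {Om κ : Type*} [Fintype Om] {P Q : FP Om} (hac : Q.Ac P) (Z : Om → κ) :
    ∑ z ∈ vals Z, |lw Q Z z - lw P Z z| ≤ Real.sqrt (2 * Q.kl P Z) := by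
  classical
  set sg : κ → ℝ := fun z => if 0 ≤ lw Q Z z - lw P Z z then 1 else -1 with hsg
  have h1 : ∑ z ∈ vals Z, |lw Q Z z - lw P Z z| = Q.E (fun w => sg (Z w)) - P.E fun w => sg (Z w) := by
    rw [← sum_lw Q Z sg, ← sum_lw P Z sg, ← Finset.sum_sub_distrib]
    refine Finset.sum_congr rfl fun z _ => ?_
    rw [← sub_mul]
    simp only [hsg]
    split_ifs with hz
    · rw [abs_of_nonneg hz, mul_one]
    · rw [abs_of_neg (not_le.1 hz)]; ring
  rw [h1]
  have h2 := FP.pinsker_test (P := Q) (Q := P) hac (X := Z) (f := fun w => sg (Z w)) (a := 1)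
    (fun a b hab => by show sg (Z a) = sg (Z b); rw [hab]) (fun w => by
      simp only [hsg]
      split_ifs
      · rw [abs_one]
      · rw [abs_neg, abs_one])
  rw [one_mul] at h2
  exact (le_abs_self _).trans h2

/-- the distance under an event in the saturated class -/
theorem dvC_le (R : Run h N S (AdmDep D) v) (hN : ∀ J ∈ S, 0 ≤ N J) (h0 : ∅ ∈ S) (hS : ∀ i : Fin 3, {i} ∈ S)
    (hN0 : N ∅ = 1) {N1 : ℝ} (hN1 : ∀ i : Fin 3, N1 ≤ N {i}) (hN1p : 0 < N1) (t : ℕ) {c : Pt (Fin 3) X β φ}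
    (hc : (D.P h t).p c ≠ 0) (k : Fin 3) {E : X → Prop} {a : ℝ} (ha : Real.exp (-a) ≤ (muC D v (t + 1) t c).Pr E) :
    dvC D v (t + 1) t c k E ≤ Real.sqrt (4 * (a + 1) / N1) * (muC D v (t + 1) t c).Pr E := by
  have hv := R.codes
  have hs : t + 1 ≤ t + 1 := le_rfl
  set P := Pc h v t (t + 1) t c with hP
  set q := (muC D v (t + 1) t c).Pr E with hq
  have hq0 : 0 < q := (Real.exp_pos _).trans_le ha
  have hPE : P.Pr (fun w => E w.1) = q := Pc_E0 (h := h) hv t hs c fun x => ind (E x)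
  have hPne : P.Pr (fun w => E w.1) ≠ 0 := by rw [hPE]; exact hq0.ne'
  have hac : (P.cond fun w => E w.1).Ac P := FP.cond_ac _ _
  have h1 := sat_one R hN h0 hS t hc (E := E) hPne k
  rw [← hP, hPE, hN0] at h1
  have hkl : (P.cond fun w => E w.1).kl P (XL v (t + 1) k) ≤ 2 * (a + 1) / N1 := by
    rw [le_div_iff₀ hN1p]
    have h2 : Real.log (1 / q) ≤ a := by
      rw [one_div, Real.log_inv]
      have := Real.log_le_log (Real.exp_pos _) ha
      rw [Real.log_exp] at this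
      linarith
    have h3 := FP.kl_nonneg hac (XL v (t + 1) k)
    have h4 := mul_le_mul_of_nonneg_right (hN1 k) h3
    linarith
  have h5 : dvC D v (t + 1) t c k E = q * ∑ z ∈ vals (XL (φ := φ) v (t + 1) k),
      |lw (P.cond fun w => E w.1) (XL v (t + 1) k) z - lw P (XL v (t + 1) k) z| := by
    unfold dvC
    rw [Finset.mul_sum]
    refine Finset.sum_congr rfl fun z _ => ?_
    have e1 : lw (P.cond fun w => E w.1) (XL v (t + 1) k) z =
        mC D t c k z.1 * (muC D v (t + 1) t c).Pr (fun x => E x ∧ Gl v (t + 1) c k z x) / q := by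
      unfold lw
      rw [FP.cond_E hPne, hPE]
      congr 1
      exact Pc_L1 (h := h) hv t hs c E k z
    rw [e1, Pc_lw hv t hs, ← hq]
    have e2 : mC D t c k z.1 * (muC D v (t + 1) t c).Pr (fun x => E x ∧ Gl v (t + 1) c k z x) / q -
        mC D t c k z.1 * (muC D v (t + 1) t c).Pr (Gl v (t + 1) c k z) =
        (mC D t c k z.1 / q) * ((muC D v (t + 1) t c).Pr (fun x => E x ∧ Gl v (t + 1) c k z x) -
          q * (muC D v (t + 1) t c).Pr (Gl v (t + 1) c k z)) := by
      field_simp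
    rw [e2, abs_mul, abs_of_nonneg (div_nonneg (mC_nonneg t c k z.1) hq0.le)]
    field_simp
  rw [h5, mul_comm]
  refine mul_le_mul_of_nonneg_right ((l1_kl hac _).trans (Real.sqrt_le_sqrt ?_)) hq0.le
  have : 4 * (a + 1) / N1 = 2 * (2 * (a + 1) / N1) := by ring
  rw [this]
  linarith

/-- typical letters -/
theorem typ_q (hv : Codes D v) {t s n : ℕ} (hs : s ≤ n + 1) {L : ℝ} {i : Fin 3} {c : Pt (Fin 3) X β φ}
    {z : β × List (Pt (Fin 3) X β φ)} (hz : TL D v s n i (typ h v t s n L i) c z) :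
    Real.exp (-L) ≤ (muC D v s n c).Pr (Gl v s c i z) := by
  obtain ⟨w, hw, hwz, ht⟩ := hz
  have hz1 : w.2.1 i = z.1 := by rw [← hwz]; rfl
  unfold typ at ht
  set M := (D.P h t).Pr (fun w => NP D v s n w = NP D v s n c) with hM
  have hM0 : 0 < M := lt_of_le_of_ne (FP.Pr_nonneg _ _) (Ne.symm (cell_ne hv t hs c))
  have e1 : (D.P h t).m (fun u => (u.2.1 i, NP D v s n u)) w = M * mC D n c i z.1 := by
    have h1 := Pc_E (h := h) hv t hs c (fun _ => 1) (fun j b => if j = i then ind (b = z.1) else 1)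
    have h2 : ∀ j, (nuC D n c j).E (fun b => if j = i then ind (b = z.1) else 1) =
        if j = i then mC D n c i z.1 else 1 := by
      intro j
      by_cases hj : j = i
      · subst hj; simp only [if_true]; rfl
      · simp only [hj, if_false]; exact FP.E_const _ _
    rw [Finset.prod_congr rfl fun j _ => h2 j, Finset.prod_ite_eq' univ i, if_pos (mem_univ i), FP.E_const, one_mul] at h1
    rw [← h1]
    unfold Pc
    rw [FP.Pr_mul_cond_E (cell_ne hv t hs c)]
    unfold FP.m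
    refine FP.E_congr _ fun u _ => ?_
    rw [Finset.prod_ite_eq' univ i (fun j => ind (u.2.1 j = z.1)), if_pos (mem_univ i), one_mul, ← ind_and]
    refine ind_cg ?_
    rw [Prod.mk.injEq, hw, hz1]
    exact and_comm
  have e2 : (D.P h t).m (fun u => (XL v s i u, NP D v s n u)) w =
      M * (mC D n c i z.1 * (muC D v s n c).Pr (Gl v s c i z)) := by
    rw [← Pc_lw (h := h) hv t hs c i z]
    unfold Pc lw
    rw [FP.Pr_mul_cond_E (cell_ne hv t hs c)]
    unfold FP.m
    refine FP.E_congr _ fun u _ => ?_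
    rw [← ind_and]
    refine ind_cg ?_
    rw [Prod.mk.injEq, hw, hwz]
    exact and_comm
  have hm : 0 < mC D n c i z.1 := by
    have h3 : cY D n c i z.1 := by
      have := ((NP_iff hv hs c w).1 hw).2 i
      rwa [hz1] at this
    have h4 : (nuC D n c i).p z.1 ≠ 0 := by
      unfold nuC
      refine (FP.cond_p_ne (unif_ne (cY_self n c i))).2 ⟨h3, ?_⟩
      show (Fintype.card β : ℝ)⁻¹ ≠ 0
      exact inv_ne_zero (by exact_mod_cast Fintype.card_ne_zero)
    exact FP.Pr_pos_of (P := nuC D n c i) (S := fun b => b = z.1) h4 rfl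
  rw [e1, e2] at ht
  have h5 : 0 < M * mC D n c i z.1 := mul_pos hM0 hm
  have h6 : M * mC D n c i z.1 * Real.exp (-L) ≤ M * mC D n c i z.1 * (muC D v s n c).Pr (Gl v s c i z) := by
    linarith
  exact le_of_mul_le_mul_left h6 h5

/-- **TYPICAL LETTERS HAVE GOOD ROWS**, state of the time `t` after the split -/
theorem good_state (R : Run h N S (AdmDep D) v) (hN : ∀ J ∈ S, 0 ≤ N J) (h0 : ∅ ∈ S) (hS : ∀ i : Fin 3, {i} ∈ S)
    (hN0 : N ∅ = 1) {N1 : ℝ} (hN1 : ∀ i : Fin 3, N1 ≤ N {i}) {L : ℝ} (hL : 1 ≤ L) {τ : ℝ} (hLN : 16 * L ≤ N1 * τ ^ 2)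
    (hτ : Real.exp (-L) ≤ τ) (t : ℕ) {c : Pt (Fin 3) X β φ} (hc : (D.P h t).p c ≠ 0) :
    Good3 (Pc h v t (t + 1) t c) (XL v (t + 1) 0) (XL v (t + 1) 1) (XL v (t + 1) 2)
      (TL D v (t + 1) t 0 (typ h v t (t + 1) t L 0) c) (TL D v (t + 1) t 1 (typ h v t (t + 1) t L 1) c)
      (TL D v (t + 1) t 2 (typ h v t (t + 1) t L 2) c) τ := by
  have hτ0 : 0 < τ := (Real.exp_pos _).trans_le hτ
  have hN1p : 0 < N1 := by
    by_contra hcon
    have := mul_nonpos_of_nonpos_of_nonneg (not_lt.1 hcon) (sq_nonneg τ)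
    linarith
  refine good_of (h := h) R.codes t le_rfl c (by linarith) hτ
    (TT := fun i => TL D v (t + 1) t i (typ h v t (t + 1) t L i) c) (fun i z hz => typ_q R.codes le_rfl hz) ?_
  intro k E hE
  refine (dvC_le R hN h0 hS hN0 hN1 hN1p t hc k hE).trans (mul_le_mul_of_nonneg_right ?_ (FP.Pr_nonneg _ _))
  refine Real.sqrt_le_iff.2 ⟨hτ0.le, ?_⟩
  rw [div_le_iff₀ hN1p]
  linarith

/-! ## after the digit -/

/-- hidden points after the digit -/
theorem cX_succ {s t : ℕ} (c : Pt (Fin 3) X β φ) (x : X) :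
    cX D v s (t + 1) c x ↔ D.qa (t + 1) x = D.qa (t + 1) c.1 ∧ cX D v s t c x := by
  unfold cX
  constructor
  · rintro ⟨h1, h2⟩
    exact ⟨h2, h1, D.ra t x c.1 h2⟩
  · rintro ⟨h2, h1, -⟩
    exact ⟨h1, h2⟩

/-- events after the digit -/
theorem muC_succ {s t : ℕ} (c : Pt (Fin 3) X β φ) (E : X → Prop) :
    (muC D v s t c).Pr (fun x => D.qa (t + 1) x = D.qa (t + 1) c.1) * (muC D v s (t + 1) c).Pr E =
      (muC D v s t c).Pr fun x => D.qa (t + 1) x = D.qa (t + 1) c.1 ∧ E x := by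
  have hA : (FP.unif X).Pr (cX D v s t c) ≠ 0 := unif_ne (cX_self s t c)
  have hA' : (FP.unif X).Pr (cX D v s (t + 1) c) ≠ 0 := unif_ne (cX_self s (t + 1) c)
  unfold muC FP.Pr
  rw [FP.cond_E hA, FP.cond_E hA', FP.cond_E hA]
  have e1 : (FP.unif X).E (fun x => ind (cX D v s t c x) * ind (D.qa (t + 1) x = D.qa (t + 1) c.1)) =
      (FP.unif X).Pr (cX D v s (t + 1) c) := by
    unfold FP.Pr
    refine FP.E_congr _ fun x _ => ?_
    rw [← ind_and]
    exact ind_cg ((and_comm).trans (cX_succ c x).symm)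
  have e2 : (FP.unif X).E (fun x => ind (cX D v s t c x) * ind (D.qa (t + 1) x = D.qa (t + 1) c.1 ∧ E x)) =
      (FP.unif X).E (fun x => ind (cX D v s (t + 1) c x) * ind (E x)) := by
    refine FP.E_congr _ fun x _ => ?_
    rw [ind_cg (cX_succ c x), ind_and, ind_and]
    ring
  rw [e1, e2]
  field_simp

/-- the cells of the known points after the digit -/
theorem cY_succ {t : ℕ} (c : Pt (Fin 3) X β φ) (j : Fin 3) (b : β) : cY D (t + 1) c j b → cY D t c j b :=
  D.rb t b (c.2.1 j)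

theorem cY_half {dg : ℕ → X → ℝ} {prr : ℕ → Fin 3 → φ → φ} {T : ℕ} {Lam : ℝ} (H : D.Hyp dg prr al T Lam) {t : ℕ}
    (ht : t < T) (c : Pt (Fin 3) X β φ) (j : Fin 3) :
    (FP.unif β).Pr (cY D t c j) ≤ 2 * (FP.unif β).Pr (cY D (t + 1) c j) := by
  classical
  have hcard : ∀ r, (FP.unif β).Pr (cY D r c j) = ((D.cB r (c.2.1 j)).card : ℝ) / Fintype.card β := by
    intro r
    unfold FP.Pr
    rw [FP.unif_E]
    congr 1
    have e1 : ∀ b, ind (cY D r c j b) = if D.qb r b = D.qb r (c.2.1 j) then (1 : ℝ) else 0 := by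
      intro b
      unfold ind cY
      split_ifs <;> rfl
    rw [Finset.sum_congr rfl fun b _ => e1 b, ← Finset.sum_filter, Finset.sum_const, nsmul_eq_mul, mul_one]
    congr 2
  rw [hcard, hcard]
  have hB : (0 : ℝ) < Fintype.card β := by exact_mod_cast Fintype.card_pos
  rw [← mul_div_assoc, div_le_div_iff_of_pos_right hB]
  rcases H.half t ht with h1 | h1
  · rw [h1]
    have : (0 : ℝ) ≤ ((D.cB t (c.2.1 j)).card : ℝ) := Nat.cast_nonneg _
    linarith
  · have h2 := h1 (c.2.1 j)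
    have h3 : (2 : ℝ) * ((D.cB (t + 1) (c.2.1 j)).card : ℝ) = ((D.cB t (c.2.1 j)).card : ℝ) := by exact_mod_cast h2
    rw [h3]

theorem mC_succ {dg : ℕ → X → ℝ} {prr : ℕ → Fin 3 → φ → φ} {T : ℕ} {Lam : ℝ} (H : D.Hyp dg prr al T Lam) {t : ℕ}
    (ht : t < T) (c : Pt (Fin 3) X β φ) (j : Fin 3) (b : β) : mC D (t + 1) c j b ≤ 2 * mC D t c j b := by
  have hA : (FP.unif β).Pr (cY D t c j) ≠ 0 := unif_ne (cY_self t c j)
  have hA' : (FP.unif β).Pr (cY D (t + 1) c j) ≠ 0 := unif_ne (cY_self (t + 1) c j)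
  have hAp : 0 < (FP.unif β).Pr (cY D t c j) := lt_of_le_of_ne (FP.Pr_nonneg _ _) (Ne.symm hA)
  have hAp' : 0 < (FP.unif β).Pr (cY D (t + 1) c j) := lt_of_le_of_ne (FP.Pr_nonneg _ _) (Ne.symm hA')
  unfold mC nuC
  rw [FP.cond_E hA, FP.cond_E hA', div_le_iff₀ hAp']
  have h1 : (FP.unif β).E (fun b' => ind (cY D (t + 1) c j b') * ind (b' = b)) ≤
      (FP.unif β).E (fun b' => ind (cY D t c j b') * ind (b' = b)) :=
    FP.E_mono _ fun b' _ => mul_le_mul_of_nonneg_right (ind_mono (cY_succ c j b')) (ind_nonneg _)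
  have h2 := cY_half H ht c j
  set e := (FP.unif β).E (fun b' => ind (cY D t c j b') * ind (b' = b)) with he
  have he0 : 0 ≤ e := FP.E_nonneg _ fun _ _ => mul_nonneg (ind_nonneg _) (ind_nonneg _)
  refine h1.trans ?_
  have h3 : e = e / (FP.unif β).Pr (cY D t c j) * (FP.unif β).Pr (cY D t c j) := by field_simp
  calc e = e / (FP.unif β).Pr (cY D t c j) * (FP.unif β).Pr (cY D t c j) := h3
    _ ≤ e / (FP.unif β).Pr (cY D t c j) * (2 * (FP.unif β).Pr (cY D (t + 1) c j)) :=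
        mul_le_mul_of_nonneg_left h2 (div_nonneg he0 hAp.le)
    _ = _ := by ring

/-- the distance after the digit -/
theorem dvC_succ {dg : ℕ → X → ℝ} {prr : ℕ → Fin 3 → φ → φ} {T : ℕ} {Lam : ℝ} (H : D.Hyp dg prr al T Lam) {s t : ℕ}
    (ht : t < T) (c : Pt (Fin 3) X β φ) (k : Fin 3) {E : X → Prop} {τ1 τ2 : ℝ}
    (h1 : dvC D v s t c k (fun x => D.qa (t + 1) x = D.qa (t + 1) c.1 ∧ E x) ≤
      τ1 * (muC D v s t c).Pr (fun x => D.qa (t + 1) x = D.qa (t + 1) c.1 ∧ E x))
    (h2 : dvC D v s t c k (fun x => D.qa (t + 1) x = D.qa (t + 1) c.1) ≤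
      τ2 * (muC D v s t c).Pr (fun x => D.qa (t + 1) x = D.qa (t + 1) c.1))
    (hF : 0 < (muC D v s t c).Pr (fun x => D.qa (t + 1) x = D.qa (t + 1) c.1)) :
    dvC D v s (t + 1) c k E ≤ 2 * (τ1 + τ2) * (muC D v s (t + 1) c).Pr E := by
  set F : X → Prop := fun x => D.qa (t + 1) x = D.qa (t + 1) c.1 with hFd
  set μ := muC D v s t c with hμ
  set μ' := muC D v s (t + 1) c with hμ'
  have hcond : ∀ G : X → Prop, μ.Pr F * μ'.Pr G = μ.Pr fun x => F x ∧ G x := fun G => muC_succ c G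
  have hq0 : 0 ≤ μ'.Pr E := FP.Pr_nonneg _ _
  have key : μ.Pr F * dvC D v s (t + 1) c k E ≤
      2 * (dvC D v s t c k (fun x => F x ∧ E x) + μ'.Pr E * dvC D v s t c k F) := by
    unfold dvC
    rw [Finset.mul_sum, Finset.mul_sum, ← Finset.sum_add_distrib, Finset.mul_sum]
    refine Finset.sum_le_sum fun z _ => ?_
    rw [← hμ, ← hμ']
    set G := Gl v s c k z with hG
    have hm0 := mC_nonneg (D := D) (t + 1) c k z.1
    have hm1 := mC_succ H ht c k z.1
    have hmt := mC_nonneg (D := D) t c k z.1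
    have e1 := hcond (fun x => E x ∧ G x)
    have e2 := hcond E
    have e3 := hcond G
    have e4 : μ.Pr (fun x => (F x ∧ E x) ∧ G x) = μ.Pr fun x => F x ∧ (E x ∧ G x) := by
      unfold FP.Pr
      exact FP.E_congr _ fun x _ => ind_cg and_assoc
    -- the telescoping
    have e5 : μ.Pr F * (μ'.Pr (fun x => E x ∧ G x) - μ'.Pr E * μ'.Pr G) =
        (μ.Pr (fun x => (F x ∧ E x) ∧ G x) - μ.Pr (fun x => F x ∧ E x) * μ.Pr G) -
          μ'.Pr E * (μ.Pr (fun x => F x ∧ G x) - μ.Pr F * μ.Pr G) := by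
      rw [e4, ← e1, ← e2, ← e3]
      ring
    have e6 : μ.Pr F * |μ'.Pr (fun x => E x ∧ G x) - μ'.Pr E * μ'.Pr G| ≤
        |μ.Pr (fun x => (F x ∧ E x) ∧ G x) - μ.Pr (fun x => F x ∧ E x) * μ.Pr G| +
          μ'.Pr E * |μ.Pr (fun x => F x ∧ G x) - μ.Pr F * μ.Pr G| := by
      have h3 : μ.Pr F * |μ'.Pr (fun x => E x ∧ G x) - μ'.Pr E * μ'.Pr G| =
          |μ.Pr F * (μ'.Pr (fun x => E x ∧ G x) - μ'.Pr E * μ'.Pr G)| := by
        rw [abs_mul, abs_of_pos hF]
      rw [h3, e5]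
      refine (abs_sub _ _).trans ?_
      rw [abs_mul (μ'.Pr E), abs_of_nonneg hq0]
    have h7 : 0 ≤ |μ.Pr (fun x => (F x ∧ E x) ∧ G x) - μ.Pr (fun x => F x ∧ E x) * μ.Pr G| +
        μ'.Pr E * |μ.Pr (fun x => F x ∧ G x) - μ.Pr F * μ.Pr G| :=
      add_nonneg (abs_nonneg _) (mul_nonneg hq0 (abs_nonneg _))
    calc μ.Pr F * (mC D (t + 1) c k z.1 * |μ'.Pr (fun x => E x ∧ G x) - μ'.Pr E * μ'.Pr G|) =
        mC D (t + 1) c k z.1 * (μ.Pr F * |μ'.Pr (fun x => E x ∧ G x) - μ'.Pr E * μ'.Pr G|) := by ring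
      _ ≤ mC D (t + 1) c k z.1 * (|μ.Pr (fun x => (F x ∧ E x) ∧ G x) - μ.Pr (fun x => F x ∧ E x) * μ.Pr G| +
          μ'.Pr E * |μ.Pr (fun x => F x ∧ G x) - μ.Pr F * μ.Pr G|) := mul_le_mul_of_nonneg_left e6 hm0
      _ ≤ 2 * mC D t c k z.1 * (|μ.Pr (fun x => (F x ∧ E x) ∧ G x) - μ.Pr (fun x => F x ∧ E x) * μ.Pr G| +
          μ'.Pr E * |μ.Pr (fun x => F x ∧ G x) - μ.Pr F * μ.Pr G|) := mul_le_mul_of_nonneg_right hm1 h7
      _ = _ := by ring
  have h3 : μ.Pr F * dvC D v s (t + 1) c k E ≤ μ.Pr F * (2 * (τ1 + τ2) * μ'.Pr E) := by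
    refine key.trans ?_
    have h4 := mul_le_mul_of_nonneg_left h2 hq0
    have h5 : μ.Pr (fun x => F x ∧ E x) = μ.Pr F * μ'.Pr E := (hcond E).symm
    have h6 : dvC D v s t c k (fun x => F x ∧ E x) ≤ τ1 * (μ.Pr F * μ'.Pr E) := by rw [← h5]; exact h1
    nlinarith
  exact le_of_mul_le_mul_left h3 hF

/-- **TYPICAL LETTERS HAVE GOOD ROWS**, state of the time `t` after the digit; the digit has probability at least
`exp (-L)` given the class -/
theorem good_digit {dg : ℕ → X → ℝ} {prr : ℕ → Fin 3 → φ → φ} {T : ℕ} {Lam : ℝ} (H : D.Hyp dg prr al T Lam)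
    (R : Run h N S (AdmDep D) v) (hN : ∀ J ∈ S, 0 ≤ N J) (h0 : ∅ ∈ S) (hS : ∀ i : Fin 3, {i} ∈ S)
    (hN0 : N ∅ = 1) {N1 : ℝ} (hN1 : ∀ i : Fin 3, N1 ≤ N {i}) {L : ℝ} (hL : 1 ≤ L) {τ : ℝ} (hLN : 256 * L ≤ N1 * τ ^ 2)
    (hτ : Real.exp (-L) ≤ τ) {t : ℕ} (ht : t < T) {c : Pt (Fin 3) X β φ} (hc : (D.P h t).p c ≠ 0)
    (hdig : Real.exp (-L) * (D.P h t).m (NP D v (t + 1) t) c ≤ (D.P h t).m (NP D v (t + 1) (t + 1)) c) :
    Good3 (Pc h v t (t + 1) (t + 1) c) (XL v (t + 1) 0) (XL v (t + 1) 1) (XL v (t + 1) 2)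
      (TL D v (t + 1) (t + 1) 0 (typ h v t (t + 1) (t + 1) L 0) c)
      (TL D v (t + 1) (t + 1) 1 (typ h v t (t + 1) (t + 1) L 1) c)
      (TL D v (t + 1) (t + 1) 2 (typ h v t (t + 1) (t + 1) L 2) c) τ := by
  have hτ0 : 0 < τ := (Real.exp_pos _).trans_le hτ
  have hN1p : 0 < N1 := by
    by_contra hcon
    have := mul_nonpos_of_nonpos_of_nonneg (not_lt.1 hcon) (sq_nonneg τ)
    linarith
  have hv := R.codes
  have hF : Real.exp (-L) ≤ (muC D v (t + 1) t c).Pr (fun x => D.qa (t + 1) x = D.qa (t + 1) c.1) := by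
    have e1 : (D.P h t).m (NP D v (t + 1) t) c = (FP.unif X).Pr (cX D v (t + 1) t c) *
        ∏ j, (FP.unif β).Pr (cY D t c j) := cell_Pr hv t le_rfl c
    have e2 : (D.P h t).m (NP D v (t + 1) (t + 1)) c = (FP.unif X).Pr (cX D v (t + 1) (t + 1) c) *
        ∏ j, (FP.unif β).Pr (cY D (t + 1) c j) := cell_Pr hv t (by omega) c
    rw [e1, e2] at hdig
    have hA : (FP.unif X).Pr (cX D v (t + 1) t c) ≠ 0 := unif_ne (cX_self (t + 1) t c)
    have e3 : (FP.unif X).Pr (cX D v (t + 1) (t + 1) c) = (FP.unif X).Pr (cX D v (t + 1) t c) *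
        (muC D v (t + 1) t c).Pr (fun x => D.qa (t + 1) x = D.qa (t + 1) c.1) := by
      unfold muC
      show _ = (FP.unif X).Pr (cX D v (t + 1) t c) * ((FP.unif X).cond (cX D v (t + 1) t c)).E
        (fun x => ind (D.qa (t + 1) x = D.qa (t + 1) c.1))
      rw [FP.Pr_mul_cond_E hA]
      unfold FP.Pr
      refine FP.E_congr _ fun x _ => ?_
      rw [← ind_and]
      exact ind_cg ((cX_succ c x).trans and_comm)
    have h1 : ∏ j, (FP.unif β).Pr (cY D (t + 1) c j) ≤ ∏ j, (FP.unif β).Pr (cY D t c j) :=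
      Finset.prod_le_prod (fun j _ => FP.Pr_nonneg _ _) fun j _ => FP.Pr_mono _ fun b _ => cY_succ c j b
    have h2 : 0 < (FP.unif X).Pr (cX D v (t + 1) t c) * ∏ j, (FP.unif β).Pr (cY D t c j) :=
      mul_pos (lt_of_le_of_ne (FP.Pr_nonneg _ _) (Ne.symm hA))
        (Finset.prod_pos fun j _ => lt_of_le_of_ne (FP.Pr_nonneg _ _) (Ne.symm (unif_ne (cY_self t c j))))
    have h4 := mul_le_mul_of_nonneg_left h1 (FP.Pr_nonneg (FP.unif X) (cX D v (t + 1) (t + 1) c))
    rw [e3] at h4 hdig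
    refine le_of_mul_le_mul_left ?_ h2
    linarith
  refine good_of (h := h) hv t (by omega) c (by linarith) hτ
    (TT := fun i => TL D v (t + 1) (t + 1) i (typ h v t (t + 1) (t + 1) L i) c)
    (fun i z hz => typ_q hv (by omega) hz) ?_
  intro k E hE
  have hFE : Real.exp (-(4 * L)) ≤ (muC D v (t + 1) t c).Pr
      (fun x => D.qa (t + 1) x = D.qa (t + 1) c.1 ∧ E x) := by
    rw [← muC_succ c E]
    have e4 : Real.exp (-(4 * L)) = Real.exp (-L) * Real.exp (-(3 * L)) := by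
      rw [← Real.exp_add]; congr 1; ring
    rw [e4]
    exact mul_le_mul hF hE (Real.exp_pos _).le ((Real.exp_pos _).le.trans hF)
  have h1 := dvC_le R hN h0 hS hN0 hN1 hN1p t hc k hFE
  have h2 := dvC_le R hN h0 hS hN0 hN1 hN1p t hc k hF
  have h3 := dvC_succ H ht c k h1 h2 ((Real.exp_pos _).trans_le hF)
  refine h3.trans (mul_le_mul_of_nonneg_right ?_ (FP.Pr_nonneg _ _))
  have s1 : Real.sqrt (4 * (4 * L + 1) / N1) ≤ 3 / 10 * τ := by
    refine Real.sqrt_le_iff.2 ⟨by positivity, ?_⟩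
    rw [div_le_iff₀ hN1p]
    nlinarith
  have s2 : Real.sqrt (4 * (L + 1) / N1) ≤ 1 / 5 * τ := by
    refine Real.sqrt_le_iff.2 ⟨by positivity, ?_⟩
    rw [div_le_iff₀ hN1p]
    nlinarith
  linarith

end sat

end Pool.Agent.GMH.V3
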