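import Pool.Agent.GMH.StmtA

/-!
# GMH/VDyn: the thin dynamics, statement, helper91

`Qr r` = law of the public cell after the half step `r` (child), `Pcr r` = law of the public cell at the half step `r`
(parent), both for the labels and the law of the time `tm r`.  `RPr` = the thin letters of `i`, `k` are strong in the child
and their pair density in the parent is larger than `1 + eta`; `RTr` = all three strong and the triple density is larger than
`1 + eta`.  `ThinDyn` : what the static part of the thin level needs.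
-/

set_option autoImplicit false
set_option linter.unusedSectionVars false

namespace Pool.Agent.GMH.V3

open Finset Pool.Agent.PWZ Pool.Agent.M3 Pool.Agent.GM Pool.Agent.GM.Harm Pool.Agent.GMH Pool.Agent.GMH.NZ

noncomputable section

variable {X β γ φ υ : Type} [Fintype X] [Fintype β] [Fintype φ] [Nonempty X] [Nonempty β]
variable {D : HD (Fin 3) X β γ φ} {al : ℝ} (h : D.Thick al) (v : ℕ → Finset (Fin 3) → X → (Fin 3 → β) → υ)

/-- the public cell at the half step `r` -/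
def Pcr (r : ℕ) (w : Pt (Fin 3) X β φ) : FP (Pt (Fin 3) X β φ) := Pc h v (tm r) (tm r + 1) (nt r) w

/-- the public cell after the half step `r`, law of the time `tm r` -/
def Qcr (r : ℕ) (w : Pt (Fin 3) X β φ) : FP (Pt (Fin 3) X β φ) := Pc h v (tm r) (tm (r + 1) + 1) (nt (r + 1)) w

/-- the letter of `i` is strong in the half step `r` -/
def Str (B : ℝ) (r : ℕ) (i : Fin 3) (w : Pt (Fin 3) X β φ) : Prop :=
  B < rt (Qcr h v r w) (Pcr h v r w) (XLr v r i) (XLr v r i w)

/-- two strong letters and a hot pair -/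
def RPr (B eta : ℝ) (r : ℕ) (i k : Fin 3) (w : Pt (Fin 3) X β φ) : Prop :=
  Str h v B r i w ∧ Str h v B r k w ∧
    1 + eta < Dd (Pcr h v r w) (XLr v r i) (XLr v r k) (XLr v r i w) (XLr v r k w)

/-- three strong letters and a hot triple -/
def RTr (B eta : ℝ) (r : ℕ) (w : Pt (Fin 3) X β φ) : Prop :=
  Str h v B r 0 w ∧ Str h v B r 1 w ∧ Str h v B r 2 w ∧
    1 + eta < D3 (Pcr h v r w) (XLr v r 0) (XLr v r 1) (XLr v r 2) (XLr v r 0 w) (XLr v r 1 w) (XLr v r 2 w)

/-- the events of the thin dynamics at the half step `r` -/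
def Rgr (p : AP) (B eta : ℝ) (r : ℕ) (w : Pt (Fin 3) X β φ) : Prop :=
  PBr h v p r w ∧ ((∃ i k, i ≠ k ∧ TTr h v p r i w ∧ TTr h v p r k w ∧ RPr h v B eta r i k w) ∨
    ((∀ i, TTr h v p r i w) ∧ RTr h v B eta r w))

/-- alive for the thin level, state of the time `t` -/
def aV (p : AP) (t : ℕ) (w : Pt (Fin 3) X β φ) : Prop := PBr h v p (2 * t) w ∧ ∀ i, TTr h v p (2 * t) i w

/-- alive for the thin level, after the digit -/
def aV' (p : AP) (t : ℕ) (w : Pt (Fin 3) X β φ) : Prop := PBr h v p (2 * t + 1) w ∧ ∀ i, TTr h v p (2 * t + 1) i w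

/-- alive for the pair `i`, `k` -/
def aJ (p : AP) (i k : Fin 3) (t : ℕ) (w : Pt (Fin 3) X β φ) : Prop :=
  PBr h v p (2 * t) w ∧ TTr h v p (2 * t) i w ∧ TTr h v p (2 * t) k w

/-- alive for the pair `i`, `k`, after the digit -/
def aJ' (p : AP) (i k : Fin 3) (t : ℕ) (w : Pt (Fin 3) X β φ) : Prop :=
  PBr h v p (2 * t + 1) w ∧ TTr h v p (2 * t + 1) i w ∧ TTr h v p (2 * t + 1) k w

end

/-- **THE THIN DYNAMICS** : `c0` top price / thin price, `cX`, `ce` alive set, `ch` heat threshold, `cS` size of the result,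
`c1` thin price (linear in the others); `B` is a fixed constant -/
def ThinDyn (B : ℝ) : Prop :=
  ∃ C : ℕ, ∀ c0 cX ce ch cS c1 : ℕ, C ≤ c0 → c0 + C ≤ ce → c0 + ce + C ≤ cX → c0 + C ≤ ch → C ≤ cS →
    C * (c0 + cX + ce + ch + cS + 1) ≤ c1 → ∀ (X β γ φ : Type) [Fintype X] [Fintype β] [Fintype φ] [Nonempty X]
    [Nonempty β] (D : HD (Fin 3) X β γ φ) (al : ℝ) (h : D.Thick al) (dg : ℕ → X → ℝ) (prr : ℕ → Fin 3 → φ → φ) (T : ℕ)
    (Lam : ℝ), D.Hyp dg prr al T Lam → 2 ≤ Lam → ∀ v : ℕ → Finset (Fin 3) → X → (Fin 3 → β) → Pt (Fin 3) X β φ,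
    Run h (pr3 (Fin 3) (pw Lam c0) (pw Lam c1)) (SS1 (Fin 3)) (AdmDep D) v →
    ∀ p : AP, p.X0 = pw Lam cX → p.e0 = (pw Lam ce)⁻¹ →
    ∑ r ∈ range (2 * T), (Pr' h r).Pr (fun w => Rgr h v p B (pw Lam ch)⁻¹ r w) ≤ (pw Lam cS)⁻¹

end Pool.Agent.GMH.V3
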