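import Pool.Agent.GMH.DeadY
import Pool.Agent.GMH.VDyn
import Pool.Agent.GMH.RowV
import Pool.Agent.GMH.DeadP

/-! # GMH/BchSum: thin level, children with large dead masses are rare (helper80) -/

set_option autoImplicit false
set_option linter.unusedSectionVars false

namespace Pool.Agent.GMH.V3

open Finset Pool.Agent.PWZ Pool.Agent.M3 Pool.Agent.GM Pool.Agent.GM.Harm Pool.Agent.GMH Pool.Agent.GMH.NZ

variable {X β γ φ υ : Type} [Fintype X] [Fintype β] [Fintype φ] [Nonempty X] [Nonempty β]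
variable {D : HD (Fin 3) X β γ φ} {al : ℝ} (h : D.Thick al) {v : ℕ → Finset (Fin 3) → X → (Fin 3 → β) → υ}
variable {dg : ℕ → X → ℝ} {prr : ℕ → Fin 3 → φ → φ} {T : ℕ} {Lam : ℝ}

namespace BS

/-- two conditionings -/
theorem cond_cond_Pr {Om κ ι : Type*} [Fintype Om] (P : FP Om) (N : Om → κ) (V : Om → ι) (E : Om → Prop) {w : Om}
    (hw : P.p w ≠ 0) : ((P.cond fun u => N u = N w).cond fun u => V u = V w).Pr E =
      P.ce (fun u => (N u, V u)) (fun u => ind (E u)) w := by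
  have h1 : P.Pr (fun u => N u = N w) ≠ 0 := (P.m_pos N hw).ne'
  have hw' : (P.cond fun u => N u = N w).p w ≠ 0 := (FP.cond_p_ne h1).2 ⟨rfl, hw⟩
  have h2 : (P.cond fun u => N u = N w).Pr (fun u => V u = V w) ≠ 0 := (FP.m_pos _ V hw').ne'
  have e1 : (P.cond fun u => N u = N w).Pr (fun u => V u = V w) =
      P.m (fun u => (N u, V u)) w / P.Pr (fun u => N u = N w) := by
    show (P.cond fun u => N u = N w).E (fun u => ind (V u = V w)) = _
    rw [FP.cond_E h1]
    congr 1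
    refine P.E_congr fun u _ => ?_
    show ind (N u = N w) * ind (V u = V w) = ind ((N u, V u) = (N w, V w))
    rw [← ind_and, Prod.mk.injEq]
  show ((P.cond fun u => N u = N w).cond fun u => V u = V w).E (fun u => ind (E u)) = _
  rw [FP.cond_E h2, FP.cond_E h1, e1]
  unfold FP.ce
  have e2 : P.E (fun u => ind (N u = N w) * (ind (V u = V w) * ind (E u))) =
      P.E (fun u => ind ((N u, V u) = (N w, V w)) * ind (E u)) := by
    refine P.E_congr fun u _ => ?_
    rw [Prod.mk.injEq, ind_and]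
    ring
  rw [e2, div_div_div_cancel_right₀ h1]

/-- a decreasing sequence of events: every point is killed at most once -/
theorem kill_tel {Om : Type*} [Fintype Om] (P : FP Om) {a : ℕ → Om → Prop} (ha : ∀ r w, a (r + 1) w → a r w) (n : ℕ) :
    ∑ r ∈ range n, P.Pr (fun w => a r w ∧ ¬ a (r + 1) w) ≤ P.Pr (fun w => ¬ a n w) := by
  induction n with
  | zero => simpa using P.Pr_nonneg _
  | succ n ih =>
    rw [Finset.sum_range_succ]
    refine (add_le_add ih le_rfl).trans (le_of_eq ?_)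
    unfold FP.Pr
    rw [← P.E_add]
    refine P.E_congr fun w _ => ?_
    by_cases h1 : a n w
    · by_cases h2 : a (n + 1) w
      · rw [ind_not (not_not.2 h1), ind_not (fun hc => hc.2 h2), ind_not (not_not.2 h2), add_zero]
      · rw [ind_not (not_not.2 h1), ind_of ⟨h1, h2⟩, ind_of h2, zero_add]
    · have h2 : ¬ a (n + 1) w := fun hc => h1 (ha n w hc)
      rw [ind_of h1, ind_not (fun hc => h1 hc.1), ind_of h2, add_zero]

/-- even and odd terms -/
theorem sum_two (f : ℕ → ℝ) (T : ℕ) : ∑ t ∈ range T, (f (2 * t) + f (2 * t + 1)) = ∑ r ∈ range (2 * T), f r := by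
  induction T with
  | zero => simp
  | succ T ih =>
    rw [Finset.sum_range_succ, ih, show 2 * (T + 1) = 2 * T + 1 + 1 by ring, Finset.sum_range_succ,
      Finset.sum_range_succ]
    ring

theorem TTr_mono (p : AP) {q r : ℕ} (hqr : q ≤ r) {i : Fin 3} {w : Pt (Fin 3) X β φ} (hw : TTr h v p r i w) :
    TTr h v p q i w := fun s hs => hw s (hs.trans hqr)

theorem PBr_mono (p : AP) {q r : ℕ} (hqr : q ≤ r) {w : Pt (Fin 3) X β φ} (hw : PBr h v p r w) : PBr h v p q w :=
  ⟨fun s hs => hw.1 s (hs.trans hqr), fun t ht => hw.2 t (ht.trans hqr)⟩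

theorem xy_TTr (p : AP) (r : ℕ) (i : Fin 3) : XY fun w : Pt (Fin 3) X β φ => TTr h v p r i w := fun x y F F' => by
  show TTr h v p r i (x, y, F) = TTr h v p r i (x, y, F')
  exact propext (TTr_fac h p rfl)

theorem xy_PBr (p : AP) (r : ℕ) : XY fun w : Pt (Fin 3) X β φ => PBr h v p r w := fun x y F F' => by
  show PBr h v p r (x, y, F) = PBr h v p r (x, y, F')
  exact propext (PBr_fac h p rfl)

theorem xy_NPr (q : ℕ) : XY (NPr (φ := φ) v D q) := fun _ _ _ _ => rfl

theorem xy_and {a b : Pt (Fin 3) X β φ → Prop} (ha : XY a) (hb : XY b) : XY fun w => a w ∧ b w := fun x y F F' => by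
  show (a (x, y, F) ∧ b (x, y, F)) = (a (x, y, F') ∧ b (x, y, F'))
  rw [ha x y F F', hb x y F F']

theorem xy_not {a : Pt (Fin 3) X β φ → Prop} (ha : XY a) : XY fun w => ¬ a w := fun x y F F' => by
  show (¬ a (x, y, F)) = ¬ a (x, y, F')
  rw [ha x y F F']

/-- too large a dead mass kills the public cell -/
theorem not_PBr (p : AP) {q : ℕ} {i : Fin 3} (s : ℕ) {w : Pt (Fin 3) X β φ}
    (hw : p.e0 < (D.P h s).ce (NPr v D q) (fun u => ind (¬ TTr h v p q i u)) w) : ¬ PBr h v p q w := by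
  intro hc
  have h1 := hc.1 q le_rfl i
  have e : (Pr' h q).ce (NPr v D q) (fun u => ind (¬ TTr h v p q i u)) w =
      (D.P h s).ce (NPr v D q) (fun u => ind (¬ TTr h v p q i u)) w := by
    refine ce_xy h (xy_NPr q) (fun x y F F' => ?_) (tm q) s w
    show ind (¬ TTr h v p q i (x, y, F)) = ind (¬ TTr h v p q i (x, y, F'))
    rw [TTr_fac h p (show (XLr v q i (x, y, F), NPr v D q (x, y, F)) =
      (XLr v q i (x, y, F'), NPr v D q (x, y, F')) from rfl)]
  rw [e] at h1
  linarith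

end BS

open BS

/-- the class of the codes -/
theorem NPr_code (t : ℕ) (a b : Pt (Fin 3) X β φ) : NPr v D (2 * (t + 1)) a = NPr v D (2 * (t + 1)) b ↔
    (NP D v (t + 1) (t + 1) a, Vt v (t + 1) ∅ a) = (NP D v (t + 1) (t + 1) b, Vt v (t + 1) ∅ b) := by
  rw [NPr_even]
  have hU : ∀ a b : Pt (Fin 3) X β φ, Um v (t + 1 + 1) ∅ a.1 a.2.1 = Um v (t + 1 + 1) ∅ b.1 b.2.1 ↔
      Um v (t + 1) ∅ a.1 a.2.1 = Um v (t + 1) ∅ b.1 b.2.1 ∧ v (t + 1) ∅ a.1 a.2.1 = v (t + 1) ∅ b.1 b.2.1 := by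
    intro a b
    unfold Um
    rw [List.map_inj_left, List.map_inj_left]
    constructor
    · intro hh
      exact ⟨fun r hr => hh r (List.mem_range.2 (by have := List.mem_range.1 hr; omega)),
        hh (t + 1) (List.mem_range.2 (by omega))⟩
    · rintro ⟨h1, h2⟩ r hr
      rcases Nat.lt_or_ge r (t + 1) with hlt | hge
      · exact h1 r (List.mem_range.2 hlt)
      · have : r = t + 1 := by have := List.mem_range.1 hr; omega
        rw [this]
        exact h2
  constructor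
  · intro hh
    have h1 : Um v (t + 1 + 1) ∅ a.1 a.2.1 = Um v (t + 1 + 1) ∅ b.1 b.2.1 := congrArg Prod.fst hh
    have h2 : nd D (t + 1) a = nd D (t + 1) b := congrArg Prod.snd hh
    exact Prod.ext (Prod.ext ((hU a b).1 h1).1 h2) ((hU a b).1 h1).2
  · intro hh
    have h0 : NP D v (t + 1) (t + 1) a = NP D v (t + 1) (t + 1) b := congrArg Prod.fst hh
    have h1 : Um v (t + 1) ∅ a.1 a.2.1 = Um v (t + 1) ∅ b.1 b.2.1 := congrArg Prod.fst h0
    have h2 : nd D (t + 1) a = nd D (t + 1) b := congrArg Prod.snd h0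
    have h3 : v (t + 1) ∅ a.1 a.2.1 = v (t + 1) ∅ b.1 b.2.1 := congrArg Prod.snd hh
    exact Prod.ext ((hU a b).2 ⟨h1, h3⟩) h2

/-- **CODE STEP** : the child is the public cell of the half step `2 (t+1)`; there the dead mass of `¬ TTr (2t+1) i`
is at most the dead mass of `¬ TTr (2(t+1)) i` -/
theorem bch_code (_H : D.Hyp dg prr al T Lam) (_hv : Codes D v) (p : AP) (t : ℕ) :
    (D.P h t).Pr (fun w => PBr h v p (2 * t + 1) w ∧
      Bch h v (Vt v (t + 1) ∅) (TTr h v p (2 * t + 1)) p.e0 t (t + 1) (t + 1) w) ≤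
    (D.P h T).Pr (fun w => PBr h v p (2 * t + 1) w ∧ ¬ PBr h v p (2 * (t + 1)) w) := by
  rw [Pr_xy h (xy_and (xy_PBr h p (2 * t + 1)) (xy_not (xy_PBr h p (2 * (t + 1))))) T t]
  refine FP.Pr_mono _ fun w hw hc => ⟨hc.1, ?_⟩
  obtain ⟨_, i, hi⟩ := hc
  unfold Pc at hi
  rw [cond_cond_Pr (D.P h t) (NP D v (t + 1) (t + 1)) (Vt v (t + 1) ∅) _ hw] at hi
  have e1 : (D.P h t).ce (fun u => (NP D v (t + 1) (t + 1) u, Vt v (t + 1) ∅ u))
      (fun u => ind (¬ TTr h v p (2 * t + 1) i u)) w =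
      (D.P h t).ce (NPr v D (2 * (t + 1))) (fun u => ind (¬ TTr h v p (2 * t + 1) i u)) w :=
    (D.P h t).ce_congr_map (fun a b hab => (NPr_code t a b).2 hab) (fun a b hab => (NPr_code t a b).1 hab) _ w
  rw [e1] at hi
  refine not_PBr h p (i := i) t (lt_of_lt_of_le hi ?_)
  exact (D.P h t).ce_mono (fun u _ => ind_mono fun hu hc => hu (TTr_mono h p (by omega) hc)) w

/-- **DIGIT STEP** : the child (public cell and digit) is a union of at most 8 public cells of the half step `2t+1`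
(halves of the known points, uniform and independent of the hidden point), the dead mass is the mean of their dead
masses -/
theorem bch_dig (H : D.Hyp dg prr al T Lam) (hv : Codes D v) (p : AP) {t : ℕ} (ht : t < T) :
    (D.P h t).Pr (fun w => PBr h v p (2 * t) w ∧
      Bch h v (fun u => dg t u.1) (TTr h v p (2 * t)) p.e0 t (t + 1) t w) ≤
    8 * (D.P h T).Pr (fun w => PBr h v p (2 * t) w ∧ ¬ PBr h v p (2 * t + 1) w) := by
  rw [Pr_xy h (xy_and (xy_PBr h p (2 * t)) (xy_not (xy_PBr h p (2 * t + 1)))) T t]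
  set P := D.P h t with hP
  set Z : Pt (Fin 3) X β φ → (List υ × (γ × (Fin 3 → γ))) × ℝ := fun u => (NP D v (t + 1) t u, dg t u.1) with hZ
  set G : Pt (Fin 3) X β φ → Prop := fun w => PBr h v p (2 * t) w ∧ ¬ PBr h v p (2 * t + 1) w with hG
  have hfac : Fac (NPr (φ := φ) v D (2 * t + 1)) Z := by
    intro a b hab
    rw [NPr_odd] at hab
    have h1 : Um v (t + 1) ∅ a.1 a.2.1 = Um v (t + 1) ∅ b.1 b.2.1 := congrArg Prod.fst hab
    have h2 : nd D (t + 1) a = nd D (t + 1) b := congrArg Prod.snd hab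
    have h3 : D.qa (t + 1) a.1 = D.qa (t + 1) b.1 := congrArg Prod.fst h2
    exact Prod.ext (Prod.ext h1 (nd_older (Nat.le_succ t) h2)) ((H.dg_cell t ht _ _).1 h3).2
  have hpb : ∀ a b, Z a = Z b → (PBr h v p (2 * t) a ↔ PBr h v p (2 * t) b) := by
    intro a b hab
    have h1 : NP D v (t + 1) t a = NP D v (t + 1) t b := congrArg Prod.fst hab
    exact PBr_fac h p (by rw [NPr_even]; exact h1)
  have hmass : ∀ w, P.m Z w ≤ 8 * P.m (NPr v D (2 * t + 1)) w := by
    intro w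
    have h1 := dg_ratio (φ := φ) h H hv ∅ ht w
    have e1 : P.m (fun u => ((ZS v ∅ t u, NP D v (t + 1) t u), dg t u.1)) w = P.m Z w := by
      unfold FP.m
      refine P.E_congr fun u _ => ind_cg ?_
      constructor
      · intro hu
        have k1 : NP D v (t + 1) t u = NP D v (t + 1) t w := congrArg (fun z => z.1.2) hu
        have k2 : dg t u.1 = dg t w.1 := congrArg (fun z => z.2) hu
        exact Prod.ext k1 k2
      · intro hu
        have k1 : NP D v (t + 1) t u = NP D v (t + 1) t w := congrArg Prod.fst hu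
        have k2 : dg t u.1 = dg t w.1 := congrArg Prod.snd hu
        exact Prod.ext (Prod.ext (ZS_eq.2 fun i hi => absurd hi (Finset.notMem_empty i)) k1) k2
    have e2 : P.m (fun u => (ZS v ∅ t u, NP D v (t + 1) (t + 1) u)) w = P.m (NPr v D (2 * t + 1)) w := by
      rw [NPr_odd]
      unfold FP.m
      refine P.E_congr fun u _ => ind_cg ?_
      constructor
      · intro hu
        exact congrArg Prod.snd hu
      · intro hu
        exact Prod.ext (ZS_eq.2 fun i hi => absurd hi (Finset.notMem_empty i)) hu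
    rw [← e1, ← e2]
    exact h1
  have key : ∀ w, P.p w ≠ 0 → (PBr h v p (2 * t) w ∧
      Bch h v (fun u => dg t u.1) (TTr h v p (2 * t)) p.e0 t (t + 1) t w) →
      1 ≤ 8 * P.ce Z (fun u => ind (G u)) w := by
    rintro w hw ⟨hpw, i, hi⟩
    unfold Pc at hi
    rw [cond_cond_Pr (D.P h t) (NP D v (t + 1) t) (fun u => dg t u.1) _ hw] at hi
    have hex : ∃ u0, P.p u0 ≠ 0 ∧ Z u0 = Z w ∧
        p.e0 < P.ce (NPr v D (2 * t + 1)) (fun u => ind (¬ TTr h v p (2 * t) i u)) u0 := by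
      by_contra hc
      push Not at hc
      have h1 : P.ce Z (P.ce (NPr v D (2 * t + 1)) (fun u => ind (¬ TTr h v p (2 * t) i u))) w ≤ p.e0 := by
        unfold FP.ce
        rw [div_le_iff₀ (P.m_pos Z hw)]
        unfold FP.m
        rw [← P.E_smul]
        refine P.E_mono fun u hu => ?_
        by_cases hz : Z u = Z w
        · rw [ind_of hz, one_mul, mul_one]
          exact hc u hu hz
        · rw [ind_not hz, zero_mul, mul_zero]
      rw [P.ce_tower hfac] at h1
      exact absurd hi (not_lt.2 h1)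
    obtain ⟨u0, hu0, hz0, hd0⟩ := hex
    have hbad : ¬ PBr h v p (2 * t + 1) u0 := by
      refine not_PBr h p (i := i) t (lt_of_lt_of_le hd0 ?_)
      exact P.ce_mono (fun u _ => ind_mono fun hu hc => hu (TTr_mono h p (by omega) hc)) u0
    have h1 : P.m (NPr v D (2 * t + 1)) u0 ≤ P.E (fun u => ind (Z u = Z w) * ind (G u)) := by
      unfold FP.m
      refine P.E_mono fun u _ => ?_
      by_cases hu : NPr v D (2 * t + 1) u = NPr v D (2 * t + 1) u0
      · have k1 : Z u = Z w := (hfac u u0 hu).trans hz0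
        have k2 : G u := ⟨(hpb u w k1).2 hpw, fun hc => hbad ((PBr_fac h p hu).1 hc)⟩
        rw [ind_of hu, ind_of k1, ind_of k2, one_mul]
      · rw [ind_not hu]
        exact mul_nonneg (ind_nonneg _) (ind_nonneg _)
    have h2 := hmass u0
    have h3 : P.m Z u0 = P.m Z w := P.Fac_m Z u0 w hz0
    have h4 := P.m_pos Z hw
    unfold FP.ce
    rw [← mul_div_assoc, le_div_iff₀ h4, one_mul]
    linarith
  have h1 : P.Pr (fun w => PBr h v p (2 * t) w ∧
      Bch h v (fun u => dg t u.1) (TTr h v p (2 * t)) p.e0 t (t + 1) t w) ≤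
      P.E (fun w => 8 * P.ce Z (fun u => ind (G u)) w) := by
    refine P.E_mono fun w hw => ?_
    by_cases hb : PBr h v p (2 * t) w ∧ Bch h v (fun u => dg t u.1) (TTr h v p (2 * t)) p.e0 t (t + 1) t w
    · show ind _ ≤ _
      rw [ind_of hb]
      exact key w hw hb
    · show ind _ ≤ _
      rw [ind_not hb]
      exact mul_nonneg (by norm_num) (P.ce_nonneg (fun _ _ => ind_nonneg _) w)
  rw [P.E_smul, P.E_ce] at h1
  exact h1

/-- the sum -/
theorem bch_sum (H : D.Hyp dg prr al T Lam) (hv : Codes D v) (p : AP) :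
    ∑ t ∈ range T, ((D.P h t).Pr (fun w => PBr h v p (2 * t) w ∧
        Bch h v (fun u => dg t u.1) (TTr h v p (2 * t)) p.e0 t (t + 1) t w) +
      (D.P h t).Pr (fun w => PBr h v p (2 * t + 1) w ∧
        Bch h v (Vt v (t + 1) ∅) (TTr h v p (2 * t + 1)) p.e0 t (t + 1) (t + 1) w)) ≤
      8 * (D.P h T).Pr (fun w => ¬ PBr h v p (2 * T) w) := by
  have h1 := kill_tel (D.P h T) (a := fun r w => PBr h v p r w)
    (fun r w hw => PBr_mono h p (Nat.le_succ r) hw) (2 * T)
  rw [← sum_two fun r => (D.P h T).Pr (fun w => PBr h v p r w ∧ ¬ PBr h v p (r + 1) w)] at h1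
  refine le_trans ?_ (mul_le_mul_of_nonneg_left h1 (by norm_num : (0 : ℝ) ≤ 8))
  rw [Finset.mul_sum]
  refine Finset.sum_le_sum fun t ht => ?_
  have h2 := bch_dig h H hv p (mem_range.1 ht)
  have h3 := bch_code h H hv p t
  have h4 := (D.P h T).Pr_nonneg (fun w => PBr h v p (2 * t + 1) w ∧ ¬ PBr h v p (2 * t + 1 + 1) w)
  rw [show 2 * (t + 1) = 2 * t + 1 + 1 by ring] at h3
  linarith

/-- killed points of the four alive sets: every point is killed at most once, law of the time `T` -/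
theorem kill_sum (_H : D.Hyp dg prr al T Lam) (p : AP) :
    ∑ t ∈ range T, ((D.P h t).Pr (fun w => aV h v p t w ∧ ¬ aV' h v p t w) +
      (D.P h (t + 1)).Pr (fun w => aV' h v p t w ∧ ¬ aV h v p (t + 1) w)) ≤
      (D.P h T).Pr (fun w => ¬ Ar h v p (2 * T) w) := by
  set a : ℕ → Pt (Fin 3) X β φ → Prop := fun r w => PBr h v p r w ∧ ∀ i, TTr h v p r i w with ha
  have hxy : ∀ r, XY (a r) := by
    intro r x y F F'
    show (PBr h v p r (x, y, F) ∧ ∀ i, TTr h v p r i (x, y, F)) =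
      (PBr h v p r (x, y, F') ∧ ∀ i, TTr h v p r i (x, y, F'))
    have e1 : PBr h v p r (x, y, F) = PBr h v p r (x, y, F') := xy_PBr h p r x y F F'
    have e2 : ∀ i, TTr h v p r i (x, y, F) = TTr h v p r i (x, y, F') := fun i => xy_TTr h p r i x y F F'
    rw [e1]
    simp only [e2]
  have h1 := kill_tel (D.P h T) (a := a) (fun r w hw => ⟨PBr_mono h p (Nat.le_succ r) hw.1,
    fun i => TTr_mono h p (Nat.le_succ r) (hw.2 i)⟩) (2 * T)
  rw [← sum_two fun r => (D.P h T).Pr (fun w => a r w ∧ ¬ a (r + 1) w)] at h1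
  have h2 : (D.P h T).Pr (fun w => ¬ a (2 * T) w) ≤ (D.P h T).Pr (fun w => ¬ Ar h v p (2 * T) w) :=
    FP.Pr_mono _ fun w _ hw hc => hw ⟨hc.1, hc.2.1⟩
  refine le_trans (le_of_eq ?_) (h1.trans h2)
  refine Finset.sum_congr rfl fun t _ => ?_
  have e1 : (D.P h t).Pr (fun w => aV h v p t w ∧ ¬ aV' h v p t w) =
      (D.P h T).Pr (fun w => a (2 * t) w ∧ ¬ a (2 * t + 1) w) :=
    Pr_xy h (xy_and (hxy (2 * t)) (xy_not (hxy (2 * t + 1)))) t T
  have e2 : (D.P h (t + 1)).Pr (fun w => aV' h v p t w ∧ ¬ aV h v p (t + 1) w) =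
      (D.P h T).Pr (fun w => a (2 * t + 1) w ∧ ¬ a (2 * t + 1 + 1) w) :=
    Pr_xy h (xy_and (hxy (2 * t + 1)) (xy_not (hxy (2 * t + 1 + 1)))) (t + 1) T
  rw [e1, e2]

theorem kill_sumJ (_H : D.Hyp dg prr al T Lam) (p : AP) (i k : Fin 3) :
    ∑ t ∈ range T, ((D.P h t).Pr (fun w => aJ h v p i k t w ∧ ¬ aJ' h v p i k t w) +
      (D.P h (t + 1)).Pr (fun w => aJ' h v p i k t w ∧ ¬ aJ h v p i k (t + 1) w)) ≤
      (D.P h T).Pr (fun w => ¬ Ar h v p (2 * T) w) := by
  set a : ℕ → Pt (Fin 3) X β φ → Prop := fun r w => PBr h v p r w ∧ TTr h v p r i w ∧ TTr h v p r k w with ha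
  have hxy : ∀ r, XY (a r) := fun r => xy_and (xy_PBr h p r) (xy_and (xy_TTr h p r i) (xy_TTr h p r k))
  have h1 := kill_tel (D.P h T) (a := a) (fun r w hw => ⟨PBr_mono h p (Nat.le_succ r) hw.1,
    TTr_mono h p (Nat.le_succ r) hw.2.1, TTr_mono h p (Nat.le_succ r) hw.2.2⟩) (2 * T)
  rw [← sum_two fun r => (D.P h T).Pr (fun w => a r w ∧ ¬ a (r + 1) w)] at h1
  have h2 : (D.P h T).Pr (fun w => ¬ a (2 * T) w) ≤ (D.P h T).Pr (fun w => ¬ Ar h v p (2 * T) w) :=
    FP.Pr_mono _ fun w _ hw hc => hw ⟨hc.1, hc.2.1 i, hc.2.1 k⟩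
  refine le_trans (le_of_eq ?_) (h1.trans h2)
  refine Finset.sum_congr rfl fun t _ => ?_
  have e1 : (D.P h t).Pr (fun w => aJ h v p i k t w ∧ ¬ aJ' h v p i k t w) =
      (D.P h T).Pr (fun w => a (2 * t) w ∧ ¬ a (2 * t + 1) w) :=
    Pr_xy h (xy_and (hxy (2 * t)) (xy_not (hxy (2 * t + 1)))) t T
  have e2 : (D.P h (t + 1)).Pr (fun w => aJ' h v p i k t w ∧ ¬ aJ h v p i k (t + 1) w) =
      (D.P h T).Pr (fun w => a (2 * t + 1) w ∧ ¬ a (2 * t + 1 + 1) w) :=
    Pr_xy h (xy_and (hxy (2 * t + 1)) (xy_not (hxy (2 * t + 1 + 1)))) (t + 1) T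
  rw [e1, e2]

end Pool.Agent.GMH.V3
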