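import Pool.Agent.GMH.GhoA

/-!
# GMH/Bef (helper99): UNDECIDED AT THE END (H3.UNM, U.3, `t* > sigma`), fixed `a`

All vertices of the kind are undecided at the end `σ` (density `< q` at the exact vertex, TIME DEPENDENT relation `R s`) and two
active faces meet at a vertex of the kind.

* `one` : one vertex with two faces (abstract sights `N`, `Yc`, `Yd`, `Blk.CI`), `k s` = event of `N s` (kind of the end);
  `one_w` : with a weight `≤ L`;
* `fam` : a family of vertices;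
* `I3` : three independent points with their cells, `I3.swap`, `I3.rot`, `Fr.i3`, `ci3`;
* `r0` : kind `R0`, vertices `b, c, d`, two active faces : `√q (x_bc + x_bd + x_cd)`;
* `gx` : kind `G_X`, vertices `b, c` : `√q (2 x_bc + x_bd + x_cd)/2`;
* `hxy` : one vertex `b` (kind `H_XY`, and every kind at a private removal of `(a, b)`);
* `r0_w`, `gx_w`, `hxy_w` : with a weight.
-/

set_option autoImplicit false
set_option linter.unusedSectionVars false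

namespace Pool.Agent.GMH.Bef

open Finset Pool.Agent.PWZ Pool.Agent.M3 Pool.Agent.GMH.Gdy Pool.Agent.GMH.CR Pool.Agent.GMH.Three
open Pool.Agent.GMH.Blk
open Pool.Agent.GMH.Tree (stp_le stp_eq)
open Pool.Agent.GMH.Take (xb bc xb_eq bc_eq)

noncomputable section

variable {Om : Type*} [Fintype Om] {P : FP Om} {L : ℝ} {σ : Om → ℕ} {T : ℕ}

/-! ## abstract sights -/

section abs

variable {κ κ' κ'' : ℕ → Type*} {N : ∀ t, Om → κ t} {Yc : ∀ t, Om → κ' t} {Yd : ∀ t, Om → κ'' t} {R : ℕ → Om → Prop} {q : ℝ}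
  {k A A' : ℕ → Om → Prop}

variable (P N R q) in
/-- the relation over an undecided exact vertex -/
def ud (s : ℕ) (w : Om) : Prop := R s w ∧ cp P N s (R s) w < q

theorem Pr_stop (hT : ∀ w, σ w < T) (A : ℕ → Om → Prop) :
    P.Pr (fun w => A (σ w) w) = ∑ s ∈ range T, P.E (fun w => ind (σ w = s) * ind (A s w)) :=
  E_stop hT fun s w => ind (A s w)

/-- **ONE UNDECIDED VERTEX** -/
theorem one (hci : CI P N Yc Yd) (fN : Filt N) (hσ : Stp N σ) (hc : ∀ s, Fac (Yc s) (N s)) (hd : ∀ s, Fac (Yd s) (N s))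
    (hk : ∀ s x w, N s x = N s w → (k s x ↔ k s w)) (hA : ∀ s x w, Yc s x = Yc s w → (A s x ↔ A s w))
    (hA' : ∀ s x w, Yd s x = Yd s w → (A' s x ↔ A' s w)) :
    P.Pr (fun w => ud P N R q (σ w) w ∧ k (σ w) w ∧ A (σ w) w ∧ A' (σ w) w) ≤
      Real.sqrt q * ((P.Pr (fun w => k (σ w) w ∧ A (σ w) w) + P.Pr (fun w => k (σ w) w ∧ A' (σ w) w)) / 2) := by
  obtain ⟨T, hT⟩ : ∃ T, ∀ w, σ w < T := by
    classical
    refine ⟨(univ.sup σ) + 1, fun w => Nat.lt_succ_of_le (Finset.le_sup (f := σ) (mem_univ w))⟩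
  rw [Pr_stop hT (fun s w => ud P N R q s w ∧ k s w ∧ A s w ∧ A' s w), Pr_stop hT (fun s w => k s w ∧ A s w),
    Pr_stop hT (fun s w => k s w ∧ A' s w), ← Finset.sum_add_distrib, Finset.sum_div, Finset.mul_sum]
  refine Finset.sum_le_sum fun s _ => ?_
  have hs : Fac (N s) (fun w => ind (σ w = s)) := Fac.ind fun x w e => stp_eq fN (fun _ => Fac.refl _) hσ e
  have hl : Fac (N s) (fun w => ind (σ w = s) * ind (cp P N s (R s) w < q)) := fun x w e => by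
    show ind (σ x = s) * ind (cp P N s (R s) x < q) = ind (σ w = s) * ind (cp P N s (R s) w < q)
    rw [cp_fac s (R s) x w e, propext (stp_eq fN (fun _ => Fac.refl _) hσ e)]
  have e1 : P.E (fun w => ind (σ w = s) * ind (ud P N R q s w ∧ k s w ∧ A s w ∧ A' s w)) =
      P.E (fun w => (ind (σ w = s) * ind (cp P N s (R s) w < q)) *
        (ind (R s w) * (ind (k s w ∧ A s w) * ind (k s w ∧ A' s w)))) :=
    P.E_congr fun w _ => by
      by_cases h1 : k s w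
      · by_cases h2 : A s w
        · by_cases h3 : A' s w
          · have e2 : (ud P N R q s w ∧ k s w ∧ A s w ∧ A' s w) = (R s w ∧ cp P N s (R s) w < q) :=
              propext ⟨fun h => h.1, fun h => ⟨h, h1, h2, h3⟩⟩
            rw [e2, ind_and, ind_of (show k s w ∧ A s w from ⟨h1, h2⟩), ind_of (show k s w ∧ A' s w from ⟨h1, h3⟩)]
            ring
          · rw [ind_not (fun h : ud P N R q s w ∧ k s w ∧ A s w ∧ A' s w => h3 h.2.2.2),
              ind_not (fun h : k s w ∧ A' s w => h3 h.2)]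
            ring
        · rw [ind_not (fun h : ud P N R q s w ∧ k s w ∧ A s w ∧ A' s w => h2 h.2.2.1),
            ind_not (fun h : k s w ∧ A s w => h2 h.2)]
          ring
      · rw [ind_not (fun h : ud P N R q s w ∧ k s w ∧ A s w ∧ A' s w => h1 h.2.1),
          ind_not (fun h : k s w ∧ A s w => h1 h.1)]
        ring
  rw [e1, ← P.E_mul_ce hl, ← P.E_mul_ce hs (fun w => ind (k s w ∧ A s w)),
    ← P.E_mul_ce hs (fun w => ind (k s w ∧ A' s w)), ← FP.E_add, ← P.E_div_const, ← FP.E_smul]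
  refine P.E_mono fun w hw => ?_
  have x0 : 0 ≤ P.ce (N s) (fun w => ind (k s w ∧ A s w)) w := P.ce_nonneg (fun x _ => ind_nonneg _) w
  have y0 : 0 ≤ P.ce (N s) (fun w => ind (k s w ∧ A' s w)) w := P.ce_nonneg (fun x _ => ind_nonneg _) w
  have hr : 0 ≤ Real.sqrt q * ((ind (σ w = s) * P.ce (N s) (fun w => ind (k s w ∧ A s w)) w +
      ind (σ w = s) * P.ce (N s) (fun w => ind (k s w ∧ A' s w)) w) / 2) := by
    have := ind_nonneg (σ w = s)
    positivity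
  by_cases h1 : cp P N s (R s) w < q
  · have h2 := rect hci (R := R s) (s := s) (f := fun w => ind (k s w ∧ A s w)) (g := fun w => ind (k s w ∧ A' s w))
      (Fac.ind fun x y e => and_congr (hk s x y (hc s x y e)) (hA s x y e))
      (Fac.ind fun x y e => and_congr (hk s x y (hd s x y e)) (hA' s x y e))
      (fun _ => ind_nonneg _) (fun _ => ind_le_one _) (fun _ => ind_nonneg _) (fun _ => ind_le_one _) hw h1.le
    rw [ind_of h1, mul_one]
    have h3 := mul_le_mul_of_nonneg_left h2 (ind_nonneg (σ w = s))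
    linarith
  · rw [ind_not h1, mul_zero, zero_mul]
    exact hr

/-- with a weight -/
theorem Pr_w {E : Om → Prop} {J : Om → ℝ} {b : ℝ} (L0 : 0 ≤ L) (hJ : ∀ w, P.p w ≠ 0 → E w → J w ≤ L)
    (hb : P.Pr E ≤ b) : P.E (fun w => ind (E w) * J w) ≤ L * b := by
  refine le_trans ?_ (mul_le_mul_of_nonneg_left hb L0)
  unfold FP.Pr
  rw [← FP.E_smul]
  refine P.E_mono fun w hw => ?_
  by_cases h : E w
  · rw [ind_of h, one_mul, mul_one]
    exact hJ w hw h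
  · rw [ind_not h, zero_mul, mul_zero]

end abs

/-- union -/
theorem Pr_ex {ι : Type*} [Fintype ι] (E : ι → Om → Prop) : P.Pr (fun w => ∃ i, E i w) ≤ ∑ i, P.Pr (E i) := by
  unfold FP.Pr
  rw [← FP.E_sum]
  refine P.E_mono fun w _ => ?_
  by_cases h : ∃ i, E i w
  · obtain ⟨i, hi⟩ := h
    rw [ind_of ⟨i, hi⟩]
    have h1 : ind (E i w) ≤ ∑ i, ind (E i w) :=
      Finset.single_le_sum (f := fun i => ind (E i w)) (fun _ _ => ind_nonneg _) (mem_univ i)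
    rw [ind_of hi] at h1
    exact h1
  · rw [ind_not h]
    exact Finset.sum_nonneg fun _ _ => ind_nonneg _

section fam

variable {ι : Type*} [Fintype ι] {κ κ' κ'' : ι → ℕ → Type*} {N : ∀ i t, Om → κ i t} {Yc : ∀ i t, Om → κ' i t}
  {Yd : ∀ i t, Om → κ'' i t} {Ri : ι → ℕ → Om → Prop} {k A A' : ι → ℕ → Om → Prop} {qi : ι → ℝ}

/-- **A FAMILY OF VERTICES** -/
theorem fam (hci : ∀ i, CI P (N i) (Yc i) (Yd i)) (fN : ∀ i, Filt (N i)) (hσ : ∀ i, Stp (N i) σ)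
    (hc : ∀ i s, Fac (Yc i s) (N i s)) (hd : ∀ i s, Fac (Yd i s) (N i s))
    (hk : ∀ i s x w, N i s x = N i s w → (k i s x ↔ k i s w))
    (hA : ∀ i s x w, Yc i s x = Yc i s w → (A i s x ↔ A i s w))
    (hA' : ∀ i s x w, Yd i s x = Yd i s w → (A' i s x ↔ A' i s w)) :
    P.Pr (fun w => ∃ i, ud P (N i) (Ri i) (qi i) (σ w) w ∧ k i (σ w) w ∧ A i (σ w) w ∧ A' i (σ w) w) ≤
      ∑ i, Real.sqrt (qi i) * ((P.Pr (fun w => k i (σ w) w ∧ A i (σ w) w) +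
        P.Pr (fun w => k i (σ w) w ∧ A' i (σ w) w)) / 2) :=
  (Pr_ex _).trans (Finset.sum_le_sum fun i _ => one (hci i) (fN i) (hσ i) (hc i) (hd i) (hk i) (hA i) (hA' i))

end fam

/-! ## three points -/

section pts

variable {κ κ' κ'' : ℕ → Type*} {cB : ∀ t, Om → κ t} {cC : ∀ t, Om → κ' t} {cD : ∀ t, Om → κ'' t}
  {α β δ : Type*} {B : Om → α} {C : Om → β} {D : Om → δ}

/-- three independent points and their cells -/
structure I3 (P : FP Om) (B : Om → α) (C : Om → β) (D : Om → δ) (cB : ∀ t, Om → κ t) (cC : ∀ t, Om → κ' t)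
    (cD : ∀ t, Om → κ'' t) : Prop where
  iB : P.Indep B (fun w => (C w, D w))
  iC : P.Indep C (fun w => (B w, D w))
  iD : P.Indep (fun w => (B w, C w)) D
  hB : ∀ s, Fac B (cB s)
  hC : ∀ s, Fac C (cC s)
  hD : ∀ s, Fac D (cD s)
  fB : Filt cB
  fC : Filt cC
  fD : Filt cD

theorem pr2 {α β : Type*} {U : Om → α} {V : Om → β} {v w : Om} (e : (fun x => (U x, V x)) v = (fun x => (U x, V x)) w) :
    U v = U w ∧ V v = V w := (Prod.mk.injEq _ _ _ _ ▸ e : U v = U w ∧ V v = V w)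

theorem I3.swap (H : I3 P B C D cB cC cD) : I3 P C B D cC cB cD where
  iB := H.iC
  iC := H.iB
  iD := H.iD.mono (fun v w e => by
    have e' := pr2 e
    show (C v, B v) = (C w, B w)
    rw [e'.1, e'.2]) (Fac.refl _)
  hB := H.hC
  hC := H.hB
  hD := H.hD
  fB := H.fC
  fC := H.fB
  fD := H.fD

/-- the last point becomes the first one -/
theorem I3.rot (H : I3 P B C D cB cC cD) : I3 P D B C cD cB cC where
  iB := H.iD.symm
  iC := H.iB.mono (Fac.refl _) (fun v w e => by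
    have e' := pr2 e
    show (D v, C v) = (D w, C w)
    rw [e'.1, e'.2])
  iD := (H.iC.mono (Fac.refl _) (fun v w e => by
    have e' := pr2 e
    show (D v, B v) = (D w, B w)
    rw [e'.1, e'.2])).symm
  hB := H.hD
  hC := H.hB
  hD := H.hC
  fB := H.fD
  fC := H.fB
  fD := H.fC

theorem i3 {h : ℝ} (H : Fr P B C D cB cC cD h) : I3 P B C D cB cC cD :=
  ⟨H.iB, H.iC, H.iD, H.hB, H.hC, H.hD, H.fB, H.fC, H.fD⟩

/-- at the exact `b` the points `c` and `d` are independent -/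
theorem ci3 (H : I3 P B C D cB cC cD) : CI P (xb B cC cD) (bc B C cD) (bc B D cC) := by
  have h0 := ci (P := P) (cU := vc B cC) (cV := cD) (U := fun w => (B w, C w)) (V := D) H.iD (vc_hV H.hC) H.hD
  intro s f g hf hg w hw
  have h1 := h0 s f g (fun v w e => hf v w (by
    have e' : (B v, C v) = (B w, C w) ∧ cD s v = cD s w := Prod.mk.injEq _ _ _ _ ▸ e
    have e2 : B v = B w ∧ C v = C w := Prod.mk.injEq _ _ _ _ ▸ e'.1
    exact bc_eq.2 ⟨e2.1, e2.2, e'.2⟩)) (fun v w e => hg v w (by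
    have e' : D v = D w ∧ vc B cC s v = vc B cC s w := Prod.mk.injEq _ _ _ _ ▸ e
    have e2 := vc_eq.1 e'.2
    exact bc_eq.2 ⟨e2.1, e'.1, e2.2⟩)) w hw
  have c1 : ∀ f : Om → ℝ, P.ce (xb B cC cD s) f w = P.ce (pair (vc B cC) cD s) f w := fun f =>
    P.ce_congr_map (fun v w e => by
      have e' := xb_eq.1 e
      exact pair_eq.2 ⟨vc_eq.2 ⟨e'.1, e'.2.1⟩, e'.2.2⟩) (fun v w e => by
      have e' := pair_eq.1 e
      have e2 := vc_eq.1 e'.1
      exact xb_eq.2 ⟨e2.1, e2.2, e'.2⟩) f w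
  rw [c1, c1, c1]
  exact h1

theorem xb_filt (H : I3 P B C D cB cC cD) : Filt (xb B cC cD) := fun s v w e => by
  have e' := xb_eq.1 e
  exact xb_eq.2 ⟨e'.1, H.fC s v w e'.2.1, H.fD s v w e'.2.2⟩

theorem bc_xb (H : I3 P B C D cB cC cD) (s : ℕ) : Fac (bc B C cD s) (xb B cC cD s) := fun v w e => by
  have e' := bc_eq.1 e
  exact xb_eq.2 ⟨e'.1, H.hC s v w e'.2.1, e'.2.2⟩

theorem bd_xb (H : I3 P B C D cB cC cD) (s : ℕ) : Fac (bc B D cC s) (xb B cC cD s) := fun v w e => by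
  have e' := bc_eq.1 e
  exact xb_eq.2 ⟨e'.1, e'.2.2, H.hD s v w e'.2.1⟩

theorem xb_nd (H : I3 P B C D cB cC cD) {s : ℕ} {v w : Om} (e : xb B cC cD s v = xb B cC cD s w) :
    nd cB cC cD s v = nd cB cC cD s w := by
  have e' := xb_eq.1 e
  exact nd_eq.2 ⟨H.hB s v w e'.1, e'.2.1, e'.2.2⟩

/-- seen by two exact points -/
def Sn (B : Om → α) (C : Om → β) (cD : ∀ t, Om → κ'' t) (X : ℕ → Om → Prop) : Prop :=
  ∀ s x w, B x = B w → C x = C w → cD s x = cD s w → (X s x ↔ X s w)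

theorem Sn.swap {X : ℕ → Om → Prop} (h : Sn B C cD X) : Sn C B cD X := fun s x w a b c => h s x w b a c

variable {k X Y Z : ℕ → Om → Prop} {RB RC RD : ℕ → Om → Prop} {K : Om → Prop} {q : ℝ} {J : Om → ℝ}

/-- **VERTEX `b`** : kind `H_XY`; every kind at a private removal of `(a, b)`; `σ` = any stopping time which sees the exact `b` -/
theorem hxy (H : I3 P B C D cB cC cD) (hσ : Stp (xb B cC cD) σ)
    (hk : ∀ s x w, xb B cC cD s x = xb B cC cD s w → (k s x ↔ k s w)) (hX : Sn B C cD X) (hY : Sn B D cC Y)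
    (hK : ∀ w, P.p w ≠ 0 → K w → ud P (xb B cC cD) RB q (σ w) w) :
    P.Pr (fun w => K w ∧ k (σ w) w ∧ X (σ w) w ∧ Y (σ w) w) ≤
      Real.sqrt q * ((P.Pr (fun w => k (σ w) w ∧ X (σ w) w) + P.Pr (fun w => k (σ w) w ∧ Y (σ w) w)) / 2) :=
  (P.Pr_mono fun w hw h => ⟨hK w hw h.1, h.2⟩).trans
    (one (ci3 H) (xb_filt H) hσ (bc_xb H) (bd_xb H) hk
      (fun s x w e => hX s x w (bc_eq.1 e).1 (bc_eq.1 e).2.1 (bc_eq.1 e).2.2)
      (fun s x w e => hY s x w (bc_eq.1 e).1 (bc_eq.1 e).2.1 (bc_eq.1 e).2.2))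

theorem stp_xb (H : I3 P B C D cB cC cD) (hσ : Stp (nd cB cC cD) σ) : Stp (xb B cC cD) σ :=
  fun s v w e => hσ s v w (xb_nd H e)

theorem nd_swap {s : ℕ} {v w : Om} (e : nd cC cB cD s v = nd cC cB cD s w) : nd cB cC cD s v = nd cB cC cD s w := by
  have e' := nd_eq.1 e
  exact nd_eq.2 ⟨e'.2.1, e'.1, e'.2.2⟩

theorem nd_rot {s : ℕ} {v w : Om} (e : nd cD cB cC s v = nd cD cB cC s w) : nd cB cC cD s v = nd cB cC cD s w := by
  have e' := nd_eq.1 e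
  exact nd_eq.2 ⟨e'.2.1, e'.2.2, e'.1⟩

/-- **VERTICES `b`, `c`** : kind `G_X` (`X` = face `bc`, `Y` = face `bd`, `Z` = face `cd`) -/
theorem gx (H : I3 P B C D cB cC cD) (hσ : Stp (nd cB cC cD) σ)
    (hk : ∀ s x w, nd cB cC cD s x = nd cB cC cD s w → (k s x ↔ k s w)) (hX : Sn B C cD X) (hY : Sn B D cC Y)
    (hZ : Sn C D cB Z)
    (hKb : ∀ w, P.p w ≠ 0 → K w → ud P (xb B cC cD) RB q (σ w) w)
    (hKc : ∀ w, P.p w ≠ 0 → K w → ud P (xb C cB cD) RC q (σ w) w) :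
    P.Pr (fun w => K w ∧ k (σ w) w ∧ X (σ w) w ∧ (Y (σ w) w ∨ Z (σ w) w)) ≤
      Real.sqrt q * (P.Pr (fun w => k (σ w) w ∧ X (σ w) w) +
        (P.Pr (fun w => k (σ w) w ∧ Y (σ w) w) + P.Pr (fun w => k (σ w) w ∧ Z (σ w) w)) / 2) := by
  have h1 := hxy (X := X) (Y := Y) H (stp_xb H hσ) (fun s x w e => hk s x w (xb_nd H e)) hX hY hKb
  have h2 := hxy (X := X) (Y := Z) H.swap (stp_xb H.swap (fun s v w e => hσ s v w (nd_swap e)))
    (fun s x w e => hk s x w (nd_swap (xb_nd H.swap e))) hX.swap hZ hKc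
  have h3 : P.Pr (fun w => K w ∧ k (σ w) w ∧ X (σ w) w ∧ (Y (σ w) w ∨ Z (σ w) w)) ≤
      P.Pr (fun w => K w ∧ k (σ w) w ∧ X (σ w) w ∧ Y (σ w) w) +
        P.Pr (fun w => K w ∧ k (σ w) w ∧ X (σ w) w ∧ Z (σ w) w) :=
    (P.Pr_mono fun w _ h => h.2.2.2.elim (fun y => Or.inl ⟨h.1, h.2.1, h.2.2.1, y⟩)
      fun z => Or.inr ⟨h.1, h.2.1, h.2.2.1, z⟩).trans (P.Pr_or_le _ _)
  linarith

/-- **VERTICES `b`, `c`, `d`** : kind `R0`, two active faces -/
theorem r0 (H : I3 P B C D cB cC cD) (hσ : Stp (nd cB cC cD) σ)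
    (hk : ∀ s x w, nd cB cC cD s x = nd cB cC cD s w → (k s x ↔ k s w)) (hX : Sn B C cD X) (hY : Sn B D cC Y)
    (hZ : Sn C D cB Z)
    (hKb : ∀ w, P.p w ≠ 0 → K w → ud P (xb B cC cD) RB q (σ w) w)
    (hKc : ∀ w, P.p w ≠ 0 → K w → ud P (xb C cB cD) RC q (σ w) w)
    (hKd : ∀ w, P.p w ≠ 0 → K w → ud P (xb D cB cC) RD q (σ w) w) :
    P.Pr (fun w => K w ∧ k (σ w) w ∧ ((X (σ w) w ∧ Y (σ w) w) ∨ (X (σ w) w ∧ Z (σ w) w) ∨ (Y (σ w) w ∧ Z (σ w) w))) ≤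
      Real.sqrt q * (P.Pr (fun w => k (σ w) w ∧ X (σ w) w) + P.Pr (fun w => k (σ w) w ∧ Y (σ w) w) +
        P.Pr (fun w => k (σ w) w ∧ Z (σ w) w)) := by
  have h1 := gx H hσ hk hX hY hZ hKb hKc
  have h2 := hxy (X := Y) (Y := Z) H.rot (stp_xb H.rot (fun s v w e => hσ s v w (nd_rot e)))
    (fun s x w e => hk s x w (nd_rot (xb_nd H.rot e))) hY.swap hZ.swap hKd
  have h3 : P.Pr (fun w => K w ∧ k (σ w) w ∧
      ((X (σ w) w ∧ Y (σ w) w) ∨ (X (σ w) w ∧ Z (σ w) w) ∨ (Y (σ w) w ∧ Z (σ w) w))) ≤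
      P.Pr (fun w => K w ∧ k (σ w) w ∧ X (σ w) w ∧ (Y (σ w) w ∨ Z (σ w) w)) +
        P.Pr (fun w => K w ∧ k (σ w) w ∧ Y (σ w) w ∧ Z (σ w) w) :=
    (P.Pr_mono fun w _ h => by
      rcases h with ⟨a, b, ⟨x, y⟩ | ⟨x, z⟩ | ⟨y, z⟩⟩
      · exact Or.inl ⟨a, b, x, Or.inl y⟩
      · exact Or.inl ⟨a, b, x, Or.inr z⟩
      · exact Or.inr ⟨a, b, y, z⟩).trans (P.Pr_or_le _ _)
  linarith

/-! ### with a weight -/

theorem hxy_w (H : I3 P B C D cB cC cD) (hσ : Stp (xb B cC cD) σ)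
    (hk : ∀ s x w, xb B cC cD s x = xb B cC cD s w → (k s x ↔ k s w)) (hX : Sn B C cD X) (hY : Sn B D cC Y)
    (hK : ∀ w, P.p w ≠ 0 → K w → ud P (xb B cC cD) RB q (σ w) w) (L0 : 0 ≤ L)
    (hJ : ∀ w, P.p w ≠ 0 → K w → J w ≤ L) :
    P.E (fun w => ind (K w ∧ k (σ w) w ∧ X (σ w) w ∧ Y (σ w) w) * J w) ≤
      L * (Real.sqrt q * ((P.Pr (fun w => k (σ w) w ∧ X (σ w) w) + P.Pr (fun w => k (σ w) w ∧ Y (σ w) w)) / 2)) :=
  Pr_w L0 (fun w hw h => hJ w hw h.1) (hxy H hσ hk hX hY hK)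

theorem gx_w (H : I3 P B C D cB cC cD) (hσ : Stp (nd cB cC cD) σ)
    (hk : ∀ s x w, nd cB cC cD s x = nd cB cC cD s w → (k s x ↔ k s w)) (hX : Sn B C cD X) (hY : Sn B D cC Y)
    (hZ : Sn C D cB Z)
    (hKb : ∀ w, P.p w ≠ 0 → K w → ud P (xb B cC cD) RB q (σ w) w)
    (hKc : ∀ w, P.p w ≠ 0 → K w → ud P (xb C cB cD) RC q (σ w) w) (L0 : 0 ≤ L)
    (hJ : ∀ w, P.p w ≠ 0 → K w → J w ≤ L) :
    P.E (fun w => ind (K w ∧ k (σ w) w ∧ X (σ w) w ∧ (Y (σ w) w ∨ Z (σ w) w)) * J w) ≤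
      L * (Real.sqrt q * (P.Pr (fun w => k (σ w) w ∧ X (σ w) w) +
        (P.Pr (fun w => k (σ w) w ∧ Y (σ w) w) + P.Pr (fun w => k (σ w) w ∧ Z (σ w) w)) / 2)) :=
  Pr_w L0 (fun w hw h => hJ w hw h.1) (gx H hσ hk hX hY hZ hKb hKc)

theorem r0_w (H : I3 P B C D cB cC cD) (hσ : Stp (nd cB cC cD) σ)
    (hk : ∀ s x w, nd cB cC cD s x = nd cB cC cD s w → (k s x ↔ k s w)) (hX : Sn B C cD X) (hY : Sn B D cC Y)
    (hZ : Sn C D cB Z)
    (hKb : ∀ w, P.p w ≠ 0 → K w → ud P (xb B cC cD) RB q (σ w) w)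
    (hKc : ∀ w, P.p w ≠ 0 → K w → ud P (xb C cB cD) RC q (σ w) w)
    (hKd : ∀ w, P.p w ≠ 0 → K w → ud P (xb D cB cC) RD q (σ w) w) (L0 : 0 ≤ L)
    (hJ : ∀ w, P.p w ≠ 0 → K w → J w ≤ L) :
    P.E (fun w => ind (K w ∧ k (σ w) w ∧ ((X (σ w) w ∧ Y (σ w) w) ∨ (X (σ w) w ∧ Z (σ w) w) ∨
      (Y (σ w) w ∧ Z (σ w) w))) * J w) ≤
      L * (Real.sqrt q * (P.Pr (fun w => k (σ w) w ∧ X (σ w) w) + P.Pr (fun w => k (σ w) w ∧ Y (σ w) w) +
        P.Pr (fun w => k (σ w) w ∧ Z (σ w) w))) :=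
  Pr_w L0 (fun w hw h => hJ w hw h.1) (r0 H hσ hk hX hY hZ hKb hKc hKd)

end pts

end

end Pool.Agent.GMH.Bef
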