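import Pool.Agent.GMH.ActO
import Pool.Agent.GMH.StpT2

/-!
# GMH/Bef2: THE UNRELEASED SUMS OF THE FRAMES TWO (helper77; row BEF of TWO)

Frame two at the vertex `i`, on the table space (names of `GMH/StpT2`):
* `unO2 q` : alive, in the region `Rg` at the true pair, no released kind with its bit; `unrS2_tr` :
  `∑_t ∑_b UnrS2 ≤ (3 Lam + log (1 / eta)) ∑_q Pr (unO2 q)`;
* `ac2 e q` : both tops which see `i` are active; `sgO2` : no released kind with two active tops (static), `hvO2` : heavy private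
  value (empty by `hvO2_zero` if the alive private steps are those where `i` is light), `tnO2 k` : released relation, not `gM`, two active tops, at a removal; `udO2 k` : good, two active tops, at a removal, undecided;
  `unO2_le` : `Pr (unO2 q) ≤ Pr (sgO2 q) + Pr (hvO2 q) + ∑_(k ∈ rk) (Pr (tnO2 k q) + Pr (udO2 k q))`;
* run instance: `stkO2` : undecided at a private removal in the zone (blocked);
  `ud_sum` : `∑_q Pr (udO2 k q) ≤ √uB * (240 Lam / e ^ 2) + ∑_q Pr (stkO2 k q)`;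
* `unrS2_le` : everything together.
-/

set_option autoImplicit false
set_option linter.unusedSectionVars false

namespace Pool.Agent.GMH.TRF

open Finset Pool.Agent.PWZ Pool.Agent.M3 Pool.Agent.GM Pool.Agent.GM.Harm Pool.Agent.GMH Pool.Agent.GMH.NZ
open Pool.Agent.GMH.V3 Pool.Agent.GMH.TP Pool.Agent.GMH.TD Pool.Agent.GMH.Dy Pool.Agent.GMH.MV Pool.Agent.GMH.MVI
open Pool.Agent.GMH.UV Pool.Agent.GMH.KF Pool.Agent.GMH.CK

noncomputable section

variable {X β γ φ : Type} [Fintype X] [Fintype β] [Fintype φ] [Nonempty X] [Nonempty β]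
variable {D : HD (Fin 3) X β γ φ} {al : ℝ} (h : D.Thick al) {prr : ℕ → Fin 3 → φ → φ} {T : ℕ} {W : Type} [Fintype W]
variable (tb : Tab D prr T W) (v : ℕ → Finset (Fin 3) → X → (Fin 3 → β) → Pt (Fin 3) X β φ)
variable (c : KC) (B : ℝ) (i : Fin 3) (rk : Finset (Fin 10)) (A : Bool → ℕ → Pt (Fin 3) X β φ → Prop)
  (Rg : Bool → ℕ → Pt (Fin 3) X β φ → T2 X β φ → Prop) (bO zO gM : Fin 10 → ℕ → Om W X β → Prop)

/-- the true pair is in the region -/
def rgO2 (q : ℕ) (w : Om W X β) : Prop :=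
  Rg (b2 q) (q / 5) (tb.pt (q / 5) w) (tup (Fo (FQ v (q / 5)) i) (tb.pt (q / 5) w))

/-- a substep of the frame -/
def stO2 (q : ℕ) : Prop := q % 5 = 1 ∨ q % 5 = 4

/-- in the region, not released -/
def unO2 (q : ℕ) (w : Om W X β) : Prop := stO2 q ∧ aO2 tb A q w ∧ rgO2 tb v i Rg q w ∧
  ∀ k ∈ rk, ¬ (rO2 h tb v c B i rk k q w ∧ btO2 tb v i bO zO k q w)

/-- both tops which see the vertex `i` are active -/
def ac2 (e : ℝ) (q : ℕ) (w : Om W X β) : Prop := ∀ j, j ≠ i → acO h tb v e j q w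

/-- in the region without a released kind, or with an inert top -/
def sgO2 (e : ℝ) (q : ℕ) (w : Om W X β) : Prop := stO2 q ∧ aO2 tb A q w ∧ rgO2 tb v i Rg q w ∧
  ¬ ∃ k ∈ rk, rO2 h tb v c B i rk k q w ∧ ac2 h tb v i e q w

/-- in the region, at a private step where the value of `i` is heavy -/
def hvO2 (q : ℕ) (w : Om W X β) : Prop :=
  q % 5 = 4 ∧ aO2 tb A q w ∧ rgO2 tb v i Rg q w ∧ ¬ rpO tb v i q w

/-- released relation at a removal, two active tops, not good -/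
def tnO2 (e : ℝ) (k : Fin 10) (q : ℕ) (w : Om W X β) : Prop :=
  (aO2 tb A q w ∧ rO2 h tb v c B i rk k q w ∧ ¬ gM k q w ∧ (rpO tb v i q w ∨ ruO tb v q w)) ∧ ac2 h tb v i e q w

/-- good at a removal, two active tops, undecided -/
def udO2 (e : ℝ) (k : Fin 10) (q : ℕ) (w : Om W X β) : Prop := gdO2 h tb v c B i rk A gM k q w ∧ ac2 h tb v i e q w ∧
  ((rpO tb v i q w ∧ ¬ bO k q w) ∨ (ruO tb v q w ∧ ¬ zO k q w ∧ ¬ bO k q w))

variable {h tb v c B i rk A Rg bO zO gM}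



/-- the integrand of the unreleased sum -/
theorem un_num {a r s m L : ℝ} (ha1 : a ≤ 1) (hr : 0 ≤ r) (hr1 : r ≤ 1) (hs : 0 ≤ s) (hs1 : s ≤ 1)
    (hm : 0 ≤ m) (hmL : m ≤ L) : a * ((1 - r) * (s * m)) ≤ L := by
  have h1 : s * m ≤ L := (mul_le_of_le_one_left hm hs1).trans hmL
  have h2 : 0 ≤ s * m := mul_nonneg hs hm
  have h3 : (1 - r) * (s * m) ≤ L := (mul_le_of_le_one_left h2 (by linarith)).trans h1
  have h4 : 0 ≤ (1 - r) * (s * m) := mul_nonneg (by linarith) h2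
  exact (mul_le_of_le_one_left h4 ha1).trans h3

/-- the joint step -/
theorem unrS2_1 {dg : ℕ → X → ℝ} {Lam : ℝ} (H : D.Hyp dg prr al T Lam) {N : Finset (Fin 3) → ℝ}
    (R : Run h N (SS1 (Fin 3)) (AdmDep D) v) (hN : ∀ l : Fin 3, 0 < N (univ.erase l))
    (hb : ∀ k q, Pos (bO k q)) (hz : ∀ k q, Pos (zO k q)) {t : ℕ} (ht : t ≤ T)
    (hA : ∀ u, A false t u → ¬ HV h v t u) {eta : ℝ} (he : 0 < eta) (he1 : eta ≤ 1) :
    UnrS2 h v c B i rk Rg (fun k q => lft (bO k q)) (fun k q => lft (zO k q)) A eta false t ≤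
      (3 * Lam + Real.log (1 / eta)) * tb.Ps.Pr (unO2 h tb v c B i rk A Rg bO zO (5 * t + 1)) := by
  classical
  have hlog : 0 ≤ Real.log (1 / eta) := Real.log_nonneg (by rw [le_div_iff₀ he]; linarith)
  have hLc : 0 ≤ 3 * Lam + Real.log (1 / eta) := by linarith [H.Lam1]
  unfold UnrS2 FP.Pr
  rw [← (pul_pt h tb ht).E, ← tb.Ps.E_smul]
  refine tb.Ps.E_mono fun w hw => ?_
  have hd : (5 * t + 1) / 5 = t := by omega
  have hp : (D.P h t).p (tb.pt t w) ≠ 0 := (pul_pt h tb ht).ne hw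
  have e2 : psS2 h v i false t (tb.pt t w) ≤ 3 * Lam := psi2_le H R hN ht (show 5 * t ≤ 5 * t + 1 by omega) i hp
  have hm0 : 0 ≤ max (psS2 h v i false t (tb.pt t w)) 0 + Real.log (1 / eta) := add_nonneg (le_max_right _ _) hlog
  have hm1 : max (psS2 h v i false t (tb.pt t w)) 0 + Real.log (1 / eta) ≤ 3 * Lam + Real.log (1 / eta) :=
    add_le_add (max_le e2 (by linarith [H.Lam1])) le_rfl
  obtain ⟨r0, r1⟩ := rw2_01 (h := h) (v := v) (c := c) (B := B) (i := i) (rk := rk)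
    (bt := fun k q => lft (bO k q)) (bz := fun k q => lft (zO k q)) false t (tb.pt t w)
  by_cases hA1 : A false t (tb.pt t w)
  · by_cases hR : Rg false t (tb.pt t w) (tup (Fo (FQ v t) i) (tb.pt t w))
    · have hru : ruO tb v (5 * t + 1) w := by
        refine ⟨by omega, ?_⟩
        have := hA _ hA1
        rw [HV_q ht w, not_le] at this
        exact this
      by_cases hk : ∃ k ∈ rk, rO2 h tb v c B i rk k (5 * t + 1) w ∧ btO2 tb v i bO zO k (5 * t + 1) w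
      · obtain ⟨k, hkr, hk1, hk2⟩ := hk
        have e1 : rel2 h v c B i rk false t k (tb.pt t w) (tup (Fo (FQ v t) i) (tb.pt t w)) := by
          have := hk1
          unfold rO2 at this
          rw [hd, b2_1] at this
          exact this
        have e3 : bit2 h v i rk (fun k q => lft (bO k q)) (fun k q => lft (zO k q)) false t k (tb.pt t w) := by
          rw [bit2_joint]
          simp only [lft_pt (hz k (5 * t + 1)) t w, lft_pt (hb k (5 * t + 1)) t w]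
          rcases hk2 with hh | hh
          · exfalso
            have := hh.1.1
            omega
          · exact ⟨hkr, hh.2⟩
        rw [rw2_eq (bt := fun k q => lft (bO k q)) (bz := fun k q => lft (zO k q)) false t e1, ind_of e3, sub_self,
          zero_mul, mul_zero]
        exact mul_nonneg hLc (ind_nonneg _)
      · have hun : unO2 h tb v c B i rk A Rg bO zO (5 * t + 1) w := by
          refine ⟨Or.inl (by omega), ?_, ?_, fun k hkr hh => hk ⟨k, hkr, hh⟩⟩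
          · unfold aO2; rw [hd, b2_1]; exact hA1
          · unfold rgO2; rw [hd, b2_1]; exact hR
        rw [ind_of hun, mul_one]
        exact un_num (ind_le_one _) r0 r1 (ind_nonneg _) (ind_le_one _) hm0 hm1
    · rw [ind_not hR, zero_mul, mul_zero, mul_zero]
      exact mul_nonneg hLc (ind_nonneg _)
  · rw [ind_not hA1, zero_mul]
    exact mul_nonneg hLc (ind_nonneg _)

/-- the joint private step -/
theorem unrS2_3 {dg : ℕ → X → ℝ} {Lam : ℝ} (H : D.Hyp dg prr al T Lam) {N : Finset (Fin 3) → ℝ}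
    (R : Run h N (SS1 (Fin 3)) (AdmDep D) v) (hN : ∀ l : Fin 3, 0 < N (univ.erase l))
    (hb : ∀ k q, Pos (bO k q)) {t : ℕ} (ht : t ≤ T) {eta : ℝ} (he : 0 < eta) (he1 : eta ≤ 1) :
    UnrS2 h v c B i rk Rg (fun k q => lft (bO k q)) (fun k q => lft (zO k q)) A eta true t ≤
      (3 * Lam + Real.log (1 / eta)) * tb.Ps.Pr (unO2 h tb v c B i rk A Rg bO zO (5 * t + 4)) := by
  classical
  have hlog : 0 ≤ Real.log (1 / eta) := Real.log_nonneg (by rw [le_div_iff₀ he]; linarith)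
  have hLc : 0 ≤ 3 * Lam + Real.log (1 / eta) := by linarith [H.Lam1]
  unfold UnrS2 FP.Pr
  rw [← (pul_pt h tb ht).E, ← tb.Ps.E_smul]
  refine tb.Ps.E_mono fun w hw => ?_
  have hd : (5 * t + 4) / 5 = t := by omega
  have hp : (D.P h t).p (tb.pt t w) ≠ 0 := (pul_pt h tb ht).ne hw
  have e2 : psS2 h v i true t (tb.pt t w) ≤ 3 * Lam := by
    exact psi2_le H R hN ht (show 5 * t ≤ 5 * t + 4 by omega) i hp
  have hm0 : 0 ≤ max (psS2 h v i true t (tb.pt t w)) 0 + Real.log (1 / eta) := add_nonneg (le_max_right _ _) hlog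
  have hm1 : max (psS2 h v i true t (tb.pt t w)) 0 + Real.log (1 / eta) ≤ 3 * Lam + Real.log (1 / eta) :=
    add_le_add (max_le e2 (by linarith [H.Lam1])) le_rfl
  obtain ⟨r0, r1⟩ := rw2_01 (h := h) (v := v) (c := c) (B := B) (i := i) (rk := rk)
    (bt := fun k q => lft (bO k q)) (bz := fun k q => lft (zO k q)) true t (tb.pt t w)
  by_cases hA1 : A true t (tb.pt t w)
  · by_cases hR : Rg true t (tb.pt t w) (tup (Fo (FQ v t) i) (tb.pt t w))
    · by_cases hk : ∃ k ∈ rk, rO2 h tb v c B i rk k (5 * t + 4) w ∧ btO2 tb v i bO zO k (5 * t + 4) w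
      · obtain ⟨k, hkr, hk1, hk2⟩ := hk
        have e1 : rel2 h v c B i rk true t k (tb.pt t w) (tup (Fo (FQ v t) i) (tb.pt t w)) := by
          have := hk1
          unfold rO2 at this
          rw [hd, b2_4 t] at this
          exact this
        have eL : lpv h v i t (tb.pt t w) ↔ 2 * tb.Ps.m (fun u => (XLo tb v i (5 * t + 4 + 1) u,
            NPo tb v (5 * t + 4 + 1) u)) w < tb.Ps.m (fun u => (XLo tb v i (5 * t + 4) u,
            NPo tb v (5 * t + 4) u)) w := by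
          have h1 := LVp_pt h tb v ht i (5 * t + 4) w
          rw [← h1]
          exact Iff.rfl
        have e3 : bit2 h v i rk (fun k q => lft (bO k q)) (fun k q => lft (zO k q)) true t k (tb.pt t w) := by
          rw [bit2_priv]
          simp only [lft_pt (hb k (5 * t + 4)) t w]
          rcases hk2 with hh | hh
          · exact ⟨hkr, hh.2, eL.2 hh.1.2.1⟩
          · exfalso
            have := hh.1.1
            omega
        rw [rw2_eq (bt := fun k q => lft (bO k q)) (bz := fun k q => lft (zO k q)) true t e1, ind_of e3, sub_self,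
          zero_mul, mul_zero]
        exact mul_nonneg hLc (ind_nonneg _)
      · have hun : unO2 h tb v c B i rk A Rg bO zO (5 * t + 4) w := by
          refine ⟨Or.inr (by omega), ?_, ?_, fun k hkr hh => hk ⟨k, hkr, hh⟩⟩
          · unfold aO2; rw [hd, b2_4 t]; exact hA1
          · unfold rgO2; rw [hd, b2_4 t]; exact hR
        rw [ind_of hun, mul_one]
        exact un_num (ind_le_one _) r0 r1 (ind_nonneg _) (ind_le_one _) hm0 hm1
    · rw [ind_not hR, zero_mul, mul_zero, mul_zero]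
      exact mul_nonneg hLc (ind_nonneg _)
  · rw [ind_not hA1, zero_mul]
    exact mul_nonneg hLc (ind_nonneg _)

/-- **THE UNRELEASED SUMS ON THE TABLE SPACE** -/
theorem unrS2_tr {dg : ℕ → X → ℝ} {Lam : ℝ} (H : D.Hyp dg prr al T Lam) {N : Finset (Fin 3) → ℝ}
    (R : Run h N (SS1 (Fin 3)) (AdmDep D) v) (hN : ∀ l : Fin 3, 0 < N (univ.erase l))
    (hb : ∀ k q, Pos (bO k q)) (hz : ∀ k q, Pos (zO k q)) (hA1 : ∀ t < T, ∀ u, A false t u → ¬ HV h v t u)
    {eta : ℝ} (he : 0 < eta) (he1 : eta ≤ 1) :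
    ∑ t ∈ range T, ∑ b, UnrS2 h v c B i rk Rg (fun k q => lft (bO k q)) (fun k q => lft (zO k q)) A eta b t ≤
      (3 * Lam + Real.log (1 / eta)) * ∑ q ∈ range (5 * T), tb.Ps.Pr (unO2 h tb v c B i rk A Rg bO zO q) := by
  have hlog : 0 ≤ Real.log (1 / eta) := Real.log_nonneg (by rw [le_div_iff₀ he]; linarith)
  have hLc : 0 ≤ 3 * Lam + Real.log (1 / eta) := by linarith [H.Lam1]
  rw [sum_five, Finset.mul_sum]
  refine Finset.sum_le_sum fun t ht => ?_
  have ht' := Finset.mem_range.1 ht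
  have k1 := unrS2_1 (h := h) (tb := tb) (v := v) (c := c) (B := B) (i := i) (rk := rk) (A := A) (Rg := Rg) H R hN hb hz ht'.le
    (hA1 t ht') he he1
  have k3 := unrS2_3 (h := h) (tb := tb) (v := v) (c := c) (B := B) (i := i) (rk := rk) (A := A) (Rg := Rg) (zO := zO) H R hN hb
    ht'.le he he1
  have nn : ∀ q, 0 ≤ (3 * Lam + Real.log (1 / eta)) * tb.Ps.Pr (unO2 h tb v c B i rk A Rg bO zO q) := fun q =>
    mul_nonneg hLc (tb.Ps.Pr_nonneg _)
  rw [Fintype.sum_bool]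
  have n0 := nn (5 * t)
  have n2 := nn (5 * t + 2)
  have n3 := nn (5 * t + 3)
  linarith

/-! ### the cases -/

/-- at a private step of the frame the value of `i` is light -/
theorem hvO2_nil {q : ℕ} (hq : q / 5 ≤ T) (hA3 : ∀ u, A true (q / 5) u → lpv h v i (q / 5) u ∧ HV h v (q / 5) u)
    (w : Om W X β) : ¬ hvO2 tb v i A Rg q w := by
  rintro ⟨h1, ha, _, hn⟩
  obtain ⟨t, rfl⟩ : ∃ t, q = 5 * t + 4 := ⟨q / 5, by omega⟩
  have hd : (5 * t + 4) / 5 = t := by omega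
  rw [hd] at hq hA3
  unfold aO2 at ha
  rw [hd, b2_4] at ha
  obtain ⟨h2, h3⟩ := hA3 _ ha
  rw [HV_q hq w] at h3
  refine hn ⟨h1, (LVp_pt h tb v hq i (5 * t + 4) w).1 h2, ?_⟩
  rw [hd]
  exact h3

theorem hvO2_zero {q : ℕ} (hq : q / 5 ≤ T) (hA3 : ∀ u, A true (q / 5) u → lpv h v i (q / 5) u ∧ HV h v (q / 5) u) :
    tb.Ps.Pr (hvO2 tb v i A Rg q) = 0 := by
  unfold FP.Pr
  have e0 : (fun w => ind (hvO2 tb v i A Rg q w)) = fun _ : Om W X β => (0 : ℝ) :=
    funext fun w => ind_not (hvO2_nil hq hA3 w)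
  rw [e0]
  unfold FP.E
  simp

/-- **THE CASES OF THE UNRELEASED PAIRS OF THE REGION** -/
theorem unO2_cases (e : ℝ) {q : ℕ} (hq : q / 5 ≤ T) (hA1 : ∀ u, A false (q / 5) u → ¬ HV h v (q / 5) u) {w : Om W X β}
    (hw : unO2 h tb v c B i rk A Rg bO zO q w) : sgO2 h tb v c B i rk A Rg e q w ∨ hvO2 tb v i A Rg q w ∨
      ∃ k ∈ rk, tnO2 h tb v c B i rk A gM e k q w ∨ udO2 h tb v c B i rk A bO zO gM e k q w := by
  classical
  obtain ⟨hs, ha, hr, hn⟩ := hw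
  by_cases hk : ∃ k ∈ rk, rO2 h tb v c B i rk k q w ∧ ac2 h tb v i e q w
  · obtain ⟨k, hkr, hk1, hk2⟩ := hk
    have hnb : ¬ btO2 tb v i bO zO k q w := fun hh => hn k hkr ⟨hk1, hh⟩
    rcases hs with h1 | h1
    · -- the joint step
      have hru : ruO tb v q w := by
        refine ⟨h1, ?_⟩
        have hb2 : b2 q = false := by unfold b2; rw [if_pos h1]
        have ha' : A false (q / 5) (tb.pt (q / 5) w) := by
          have := ha
          unfold aO2 at this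
          rw [hb2] at this
          exact this
        have h2 := hA1 _ ha'
        rw [HV_q hq w, not_le] at h2
        have e1 : 5 * (q / 5) + 1 = q := by omega
        have e2 : 5 * (q / 5) + 2 = q + 1 := by omega
        rw [e1, e2] at h2
        exact h2
      have hz' : ¬ zO k q w ∧ ¬ bO k q w := ⟨fun hh => hnb (Or.inr ⟨hru, Or.inl hh⟩), fun hh => hnb (Or.inr ⟨hru, Or.inr hh⟩)⟩
      by_cases hg : gM k q w
      · exact Or.inr (Or.inr ⟨k, hkr, Or.inr ⟨⟨ha, hk1, hg⟩, hk2, Or.inr ⟨hru, hz'⟩⟩⟩)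
      · exact Or.inr (Or.inr ⟨k, hkr, Or.inl ⟨⟨ha, hk1, hg, Or.inr hru⟩, hk2⟩⟩)
    · by_cases hrp : rpO tb v i q w
      · by_cases hg : gM k q w
        · exact Or.inr (Or.inr ⟨k, hkr, Or.inr ⟨⟨ha, hk1, hg⟩, hk2, Or.inl ⟨hrp, fun hh => hnb (Or.inl ⟨hrp, hh⟩)⟩⟩⟩)
        · exact Or.inr (Or.inr ⟨k, hkr, Or.inl ⟨⟨ha, hk1, hg, Or.inl hrp⟩, hk2⟩⟩)
      · exact Or.inr (Or.inl ⟨h1, ha, hr, hrp⟩)
  · exact Or.inl ⟨hs, ha, hr, hk⟩

theorem unO2_le (e : ℝ) {q : ℕ} (hq : q / 5 ≤ T) (hA1 : ∀ u, A false (q / 5) u → ¬ HV h v (q / 5) u) :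
    tb.Ps.Pr (unO2 h tb v c B i rk A Rg bO zO q) ≤ tb.Ps.Pr (sgO2 h tb v c B i rk A Rg e q) +
      tb.Ps.Pr (hvO2 tb v i A Rg q) + ∑ k ∈ rk, (tb.Ps.Pr (tnO2 h tb v c B i rk A gM e k q) +
        tb.Ps.Pr (udO2 h tb v c B i rk A bO zO gM e k q)) := by
  have h1 : tb.Ps.Pr (unO2 h tb v c B i rk A Rg bO zO q) ≤ tb.Ps.Pr (fun w => sgO2 h tb v c B i rk A Rg e q w ∨
      (hvO2 tb v i A Rg q w ∨ ∃ k ∈ rk, tnO2 h tb v c B i rk A gM e k q w ∨ udO2 h tb v c B i rk A bO zO gM e k q w)) :=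
    tb.Ps.Pr_mono fun w _ hw => unO2_cases e hq hA1 hw
  have h2 := tb.Ps.Pr_or_le (sgO2 h tb v c B i rk A Rg e q)
    (fun w => hvO2 tb v i A Rg q w ∨ ∃ k ∈ rk, tnO2 h tb v c B i rk A gM e k q w ∨ udO2 h tb v c B i rk A bO zO gM e k q w)
  have h3 := tb.Ps.Pr_or_le (hvO2 tb v i A Rg q)
    (fun w => ∃ k ∈ rk, tnO2 h tb v c B i rk A gM e k q w ∨ udO2 h tb v c B i rk A bO zO gM e k q w)
  have h4 := tb.Ps.Pr_ex_le rk
    (fun k w => tnO2 h tb v c B i rk A gM e k q w ∨ udO2 h tb v c B i rk A bO zO gM e k q w)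
  have h5 : ∑ k ∈ rk, tb.Ps.Pr (fun w => tnO2 h tb v c B i rk A gM e k q w ∨ udO2 h tb v c B i rk A bO zO gM e k q w) ≤
      ∑ k ∈ rk, (tb.Ps.Pr (tnO2 h tb v c B i rk A gM e k q) + tb.Ps.Pr (udO2 h tb v c B i rk A bO zO gM e k q)) :=
    Finset.sum_le_sum fun k _ => tb.Ps.Pr_or_le _ _
  linarith

/-! ### the run instance -/

variable (h tb)
variable (hv : Codes D v) {d1 kb d0 k0 p1 z : ℝ} (hd1 : 0 < d1) (hd11 : d1 ≤ 1) (hkb : 0 < kb) (hd0 : 0 < d0)
  (hd01 : d0 ≤ 1) (hk0 : 0 < k0) (hp1 : 0 < p1) (hz : 0 < z)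

/-- the removals of the frame are seen -/
theorem stS2 (K : ℝ) (k : Fin 10) : StS (USi tb hv d1 kb d0 k0 p1 z hd1 hd11 hkb hd0 hd01 hk0 hp1 hz)
    (stps2 h tb v c B i rk A gM K k) where
  ru := fun q x w e => by
    show ruO tb v q x ↔ ruO tb v q w
    unfold ruO
    refine and_congr_right fun _ => ?_
    have e1 : NPo tb v (q + 1) x = NPo tb v (q + 1) w :=
      MVIp.NPq_sgt tb hv le_rfl (nc_le (q + 1) ∅) ∅ 0 x w e
    have e0 : NPo tb v q x = NPo tb v q w := NPo_fac tb q x w e1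
    rw [tb.Ps.Fac_m (NPo tb v (q + 1)) x w e1, tb.Ps.Fac_m (NPo tb v q) x w e0]
  rp := fun j q x w e => by
    show (j = i ∧ rpO tb v i q x) ↔ (j = i ∧ rpO tb v i q w)
    refine and_congr_right fun hj => ?_
    subst hj
    unfold rpO
    refine and_congr_right fun hq => ?_
    have e1 : NPo tb v (q + 1) x = NPo tb v (q + 1) w :=
      MVIp.NPq_sgt tb hv le_rfl (nc_le (q + 1) ∅) {j} 0 x w e
    have g1 : XLo tb v j (q + 1) x = XLo tb v j (q + 1) w :=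
      MVIp.XLq_sgt tb hv (nc_le (q + 1) {j}) (Finset.mem_singleton_self j) 0 x w e
    have e0 : NPo tb v q x = NPo tb v q w := NPo_fac tb q x w e1
    have g0 : XLo tb v j q x = XLo tb v j q w := XLo_fac tb j q x w g1
    have e5 : NPo tb v (5 * (q / 5) + 1) x = NPo tb v (5 * (q / 5) + 1) w := NPo_le tb v (by omega) x w e0
    have e6 : NPo tb v (5 * (q / 5) + 2) x = NPo tb v (5 * (q / 5) + 2) w := NPo_le tb v (by omega) x w e0
    have m1 := tb.Ps.Fac_m (fun u => (XLo tb v j (q + 1) u, NPo tb v (q + 1) u)) x w (Prod.ext g1 e1)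
    have m0 := tb.Ps.Fac_m (fun u => (XLo tb v j q u, NPo tb v q u)) x w (Prod.ext g0 e0)
    rw [m1, m0, tb.Ps.Fac_m (NPo tb v (5 * (q / 5) + 1)) x w e5, tb.Ps.Fac_m (NPo tb v (5 * (q / 5) + 2)) x w e6]
  ci := fun j j' hjj => Dy.ci_vv tb TP.nn hjj

section fin

variable (Qk : Fin 10 → Kd (Om W X β))

variable (v) in
/-- undecided at a private removal, blocked by the zone, two active tops -/
def stkO2 (M : US (Om W X β)) (c : KC) (B : ℝ) (i : Fin 3) (rk : Finset (Fin 10)) (A : Bool → ℕ → Pt (Fin 3) X β φ → Prop)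
    (gM : Fin 10 → ℕ → Om W X β → Prop) (e : ℝ) (k : Fin 10) (q : ℕ) (w : Om W X β) : Prop :=
  gdO2 h tb v c B i rk A gM k q w ∧ ac2 h tb v i e q w ∧ rpO tb v i q w ∧ ¬ bet M (Qk k) i q w ∧ blk M (Qk k) i q w

/-- the two other vertices -/
theorem two_oth (i : Fin 3) : ∃ j l : Fin 3, i ≠ j ∧ i ≠ l ∧ j ≠ l := by
  have key : ∀ i : Fin 3, ∃ j l : Fin 3, i ≠ j ∧ i ≠ l ∧ j ≠ l := by decide
  exact key i

/-- **THE UNDECIDED PAIRS OF ONE KIND** -/
theorem ud_sum {dg : ℕ → X → ℝ} {Lam : ℝ} (H : D.Hyp dg prr al T Lam) {n N1 : ℝ}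
    (R : Run h (pr3 (Fin 3) n N1) (SS1 (Fin 3)) (AdmDep D) v) (hn : 1 ≤ n) (hN1 : 1 ≤ N1) {e : ℝ} (he : 0 < e) (he1 : e ≤ 1)
    (k : Fin 10) (hVk : (Qk k).Vk = {i})
    (hkd : ∀ w, tb.Ps.p w ≠ 0 → ∀ q, gdO2 h tb v c B i rk A gM k q w → (rpO tb v i q w ∨ ruO tb v q w) →
      (Qk k).kd (some i) (tv (USi tb hv d1 kb d0 k0 p1 z hd1 hd11 hkb hd0 hd01 hk0 hp1 hz) i q w) w) :
    ∑ q ∈ range (5 * T), tb.Ps.Pr (udO2 h tb v c B i rk A
        (bO2 Qk (USi tb hv d1 kb d0 k0 p1 z hd1 hd11 hkb hd0 hd01 hk0 hp1 hz) i)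
        (zO2 Qk (USi tb hv d1 kb d0 k0 p1 z hd1 hd11 hkb hd0 hd01 hk0 hp1 hz)) gM e k q) ≤
      Real.sqrt (Qk k).uB * (240 * Lam / e ^ 2) +
        ∑ q ∈ range (5 * T), tb.Ps.Pr (stkO2 h tb v Qk (USi tb hv d1 kb d0 k0 p1 z hd1 hd11 hkb hd0 hd01 hk0 hp1 hz)
          c B i rk A gM e k q) := by
  classical
  set M := USi tb hv d1 kb d0 k0 p1 z hd1 hd11 hkb hd0 hd01 hk0 hp1 hz with hM
  set S : Stps (Om := Om W X β) := stps2 h tb v c B i rk A gM 0 k with hS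
  have HS : StS M S := stS2 h tb hv hd1 hd11 hkb hd0 hd01 hk0 hp1 hz 0 k
  have HB := bfS_i h tb hv hd1 hd11 hkb hd0 hd01 hk0 hp1 hz e
  have Hs : Seen M := seen_i tb hv hd1 hd11 hkb hd0 hd01 hk0 hp1 hz
  obtain ⟨j, l, hij, hil, hjl⟩ := two_oth i
  have p1' := prv_sum (Q := Qk k) Hs HS HB (fun w _ u q hr => by
    show q % 5 ≠ 0
    have := hr.2.1
    omega) hij hil hjl (5 * T)
  have p2' := pub_hxy (Q := Qk k) Hs HS HB (fun w _ q hr => by
    show q % 5 ≠ 0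
    have := hr.1
    omega) hij hil hjl (by rw [hVk]; exact Finset.mem_singleton_self i) (5 * T)
  have hd : ∀ j', ∑ q ∈ range (5 * T), M.P.Pr (fun w => S.rp i q w ∧ acO h tb v e j' q w) +
      ∑ q ∈ range (5 * T), M.P.Pr (fun w => S.ru q w ∧ acO h tb v e j' q w) ≤ 240 * Lam / e ^ 2 := by
    intro j'
    refine le_trans ?_ (acO_sum h tb H R hn hN1 j' he he1)
    rw [← Finset.sum_add_distrib]
    refine Finset.sum_le_sum fun q _ => ?_
    show tb.Ps.E _ + tb.Ps.E _ ≤ tb.Ps.E _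
    rw [← FP.E_add]
    refine tb.Ps.E_mono fun w _ => ?_
    by_cases h1 : S.rp i q w
    · have h2 : ¬ S.ru q w := rp_ru2 h1.2
      rw [ind_not (fun hh : S.ru q w ∧ _ => h2 hh.1), add_zero]
      exact ind_mono fun hh => hh.2
    · rw [ind_not (fun hh : S.rp i q w ∧ _ => h1 hh.1), zero_add]
      exact ind_mono fun hh => hh.2
  have hq0 : 0 ≤ Real.sqrt (Qk k).uB := Real.sqrt_nonneg _
  have hsum : Real.sqrt (Qk k).uB * ((∑ q ∈ range (5 * T), M.P.Pr (fun w => S.rp i q w ∧ acO h tb v e j q w) +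
        ∑ q ∈ range (5 * T), M.P.Pr (fun w => S.rp i q w ∧ acO h tb v e l q w)) / 2) +
      Real.sqrt (Qk k).uB * ((∑ q ∈ range (5 * T), M.P.Pr (fun w => S.ru q w ∧ acO h tb v e j q w) +
        ∑ q ∈ range (5 * T), M.P.Pr (fun w => S.ru q w ∧ acO h tb v e l q w)) / 2) ≤
      Real.sqrt (Qk k).uB * (240 * Lam / e ^ 2) := by
    rw [← mul_add]
    refine mul_le_mul_of_nonneg_left ?_ hq0
    have := hd j
    have := hd l
    linarith
  have hcov : ∑ q ∈ range (5 * T), tb.Ps.Pr (udO2 h tb v c B i rk A (bO2 Qk M i) (zO2 Qk M) gM e k q) ≤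
      ∑ q ∈ range (5 * T), M.P.Pr (fun w => unv M (Qk k) S i q w ∧ acO h tb v e j q w ∧ acO h tb v e l q w) +
      ∑ q ∈ range (5 * T), M.P.Pr (fun w => unu M (Qk k) S q w ∧ acO h tb v e j q w ∧ acO h tb v e l q w) +
      ∑ q ∈ range (5 * T), tb.Ps.Pr (stkO2 h tb v Qk M c B i rk A gM e k q) := by
    rw [← Finset.sum_add_distrib, ← Finset.sum_add_distrib]
    refine Finset.sum_le_sum fun q _ => ?_
    have h1 := tb.Ps.Pr_or_le (fun w => unv M (Qk k) S i q w ∧ acO h tb v e j q w ∧ acO h tb v e l q w)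
      (fun w => (unu M (Qk k) S q w ∧ acO h tb v e j q w ∧ acO h tb v e l q w) ∨ stkO2 h tb v Qk M c B i rk A gM e k q w)
    have h2 := tb.Ps.Pr_or_le (fun w => unu M (Qk k) S q w ∧ acO h tb v e j q w ∧ acO h tb v e l q w)
      (stkO2 h tb v Qk M c B i rk A gM e k q)
    refine le_trans (tb.Ps.Pr_mono fun w hw hh => ?_) (le_trans h1 ?_)
    · obtain ⟨hg, ha, hr⟩ := hh
      have aj := ha j hij.symm
      have al' := ha l hil.symm
      have hiv : i ∈ (Qk k).Vk := by rw [hVk]; exact Finset.mem_singleton_self i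
      rcases hr with ⟨hr, hnb⟩ | ⟨hr, hnz, hnb⟩
      · have hk1 := (Qk k).hkv i hiv _ _ (hkd w hw q hg (Or.inl hr))
        by_cases hblk : blk M (Qk k) i q w
        · exact Or.inr (Or.inr ⟨hg, ha, hr, hnb, hblk⟩)
        · exact Or.inl ⟨⟨⟨rfl, hr⟩, hk1, ⟨hnb, fun hh => hh⟩, hblk⟩, aj, al'⟩
      · have hk1 := (Qk k).hkv i hiv _ _ (hkd w hw q hg (Or.inr hr))
        refine Or.inr (Or.inl ⟨⟨hr, fun u hu => ?_, fun u hu => ?_, hnz⟩, aj, al'⟩)
        · rw [hVk, Finset.mem_singleton] at hu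
          subst hu
          exact hk1
        · rw [hVk, Finset.mem_singleton] at hu
          subst hu
          exact ⟨hnb, fun hh => hh⟩
    · have e1 : M.P = tb.Ps := rfl
      rw [e1]
      linarith
  linarith

/-- **THE UNRELEASED SUMS OF THE FRAME TWO** -/
theorem unrS2_le {dg : ℕ → X → ℝ} {Lam : ℝ} (H : D.Hyp dg prr al T Lam) {n N1 : ℝ}
    (R : Run h (pr3 (Fin 3) n N1) (SS1 (Fin 3)) (AdmDep D) v) (hn : 1 ≤ n) (hN1 : 1 ≤ N1)
    (hA1 : ∀ t < T, ∀ u, A false t u → ¬ HV h v t u) {e : ℝ} (he : 0 < e) (he1 : e ≤ 1)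
    {eta : ℝ} (heta : 0 < eta) (heta1 : eta ≤ 1) (hVk : ∀ k, (Qk k).Vk = {i})
    (hkd : ∀ k ∈ rk, ∀ w, tb.Ps.p w ≠ 0 → ∀ q, gdO2 h tb v c B i rk A gM k q w → (rpO tb v i q w ∨ ruO tb v q w) →
      (Qk k).kd (some i) (tv (USi tb hv d1 kb d0 k0 p1 z hd1 hd11 hkb hd0 hd01 hk0 hp1 hz) i q w) w) :
    ∑ t ∈ range T, ∑ b, UnrS2 h v c B i rk Rg
        (fun k q => lft (bO2 Qk (USi tb hv d1 kb d0 k0 p1 z hd1 hd11 hkb hd0 hd01 hk0 hp1 hz) i k q))
        (fun k q => lft (zO2 Qk (USi tb hv d1 kb d0 k0 p1 z hd1 hd11 hkb hd0 hd01 hk0 hp1 hz) k q)) A eta b t ≤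
      (3 * Lam + Real.log (1 / eta)) * (∑ k ∈ rk, Real.sqrt (Qk k).uB * (240 * Lam / e ^ 2) +
        ∑ k ∈ rk, ∑ q ∈ range (5 * T), tb.Ps.Pr (stkO2 h tb v Qk
          (USi tb hv d1 kb d0 k0 p1 z hd1 hd11 hkb hd0 hd01 hk0 hp1 hz) c B i rk A gM e k q) +
        ∑ k ∈ rk, ∑ q ∈ range (5 * T), tb.Ps.Pr (tnO2 h tb v c B i rk A gM e k q) +
        ∑ q ∈ range (5 * T), tb.Ps.Pr (hvO2 tb v i A Rg q) +
        ∑ q ∈ range (5 * T), tb.Ps.Pr (sgO2 h tb v c B i rk A Rg e q)) := by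
  classical
  set M := USi tb hv d1 kb d0 k0 p1 z hd1 hd11 hkb hd0 hd01 hk0 hp1 hz with hM
  have hlog : 0 ≤ Real.log (1 / eta) := Real.log_nonneg (by rw [le_div_iff₀ heta]; linarith)
  have hLc : 0 ≤ 3 * Lam + Real.log (1 / eta) := by linarith [H.Lam1]
  have hN : ∀ l : Fin 3, 0 < pr3 (Fin 3) n N1 (univ.erase l) := fun l => zero_lt_one.trans_le (pr3_one hn hN1 _)
  refine (unrS2_tr (h := h) (tb := tb) (v := v) (c := c) (B := B) (i := i) (rk := rk) (A := A) (Rg := Rg) H R hN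
    (bO2_pos tb hv hd1 hd11 hkb hd0 hd01 hk0 hp1 hz Qk) (zO2_pos tb hv hd1 hd11 hkb hd0 hd01 hk0 hp1 hz Qk) hA1 heta
    heta1).trans (mul_le_mul_of_nonneg_left ?_ hLc)
  have h1 : ∑ q ∈ range (5 * T), tb.Ps.Pr (unO2 h tb v c B i rk A Rg (bO2 Qk M i) (zO2 Qk M) q) ≤
      ∑ q ∈ range (5 * T), (tb.Ps.Pr (sgO2 h tb v c B i rk A Rg e q) +
      tb.Ps.Pr (hvO2 tb v i A Rg q) + ∑ k ∈ rk, (tb.Ps.Pr (tnO2 h tb v c B i rk A gM e k q) +
        tb.Ps.Pr (udO2 h tb v c B i rk A (bO2 Qk M i) (zO2 Qk M) gM e k q))) := Finset.sum_le_sum fun q hq => by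
    have hq' := Finset.mem_range.1 hq
    exact unO2_le e (by omega) (hA1 (q / 5) (by omega))
  refine h1.trans ?_
  rw [Finset.sum_add_distrib, Finset.sum_add_distrib, Finset.sum_comm]
  have h2 : ∑ k ∈ rk, ∑ q ∈ range (5 * T), (tb.Ps.Pr (tnO2 h tb v c B i rk A gM e k q) +
        tb.Ps.Pr (udO2 h tb v c B i rk A (bO2 Qk M i) (zO2 Qk M) gM e k q)) ≤
      ∑ k ∈ rk, (∑ q ∈ range (5 * T), tb.Ps.Pr (tnO2 h tb v c B i rk A gM e k q) + (Real.sqrt (Qk k).uB * (240 * Lam / e ^ 2) +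
        ∑ q ∈ range (5 * T), tb.Ps.Pr (stkO2 h tb v Qk M c B i rk A gM e k q))) := Finset.sum_le_sum fun k hk => by
    rw [Finset.sum_add_distrib]
    exact add_le_add le_rfl (ud_sum h tb hv hd1 hd11 hkb hd0 hd01 hk0 hp1 hz Qk H R hn hN1 he he1 k (hVk k) (hkd k hk))
  rw [Finset.sum_add_distrib, Finset.sum_add_distrib] at h2
  linarith

end fin

end

end Pool.Agent.GMH.TRF
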