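import Pool.Agent.GMH.AlrM
import Pool.Agent.GMH.BefU

/-!
# GMH/BefW (helper55): UNRELEASED PAIRS OF FACES WITH REAL WEIGHTS (row C7 of H3.LEAN, T6 of Key3Z)

* `hxy_w` : at a fixed time, relation of density `< q0` at the exact vertex `v`, weights `a`, `b` of the faces `i`, `j` over `v`:
  `E (relation, a b) ≤ √q0 (E a² + E b²) / 2` (Cauchy - Schwarz at the exact vertex);
* `und_sum` : the same for an undecided, not blocked vertex, summed over the steps;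
* `alr_pair` : light value of `i`, a relation of small class mass (moved at a vertex, listed), weights `a` of any face, `b` of the
  face which does not see `i`.
-/

set_option autoImplicit false
set_option linter.unusedSectionVars false

namespace Pool.Agent.GMH.UV

open Finset Pool.Agent.PWZ Pool.Agent.M3 Pool.Agent.GMH.Gdy Pool.Agent.GMH.CR Pool.Agent.GMH.Three
open Pool.Agent.GMH.TD Pool.Agent.GMH.CK Pool.Agent.GMH.MV
open Pool.Agent.GMH.Blk Pool.Agent.GMH.BefT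
open Pool.Agent.GMH.Bef (ud one)

noncomputable section

section abs

variable {Om : Type*} [Fintype Om] {P : FP Om} {ν : ℕ → Type*} {κ κ' : Fin 3 → ℕ → Type*} {nd : ∀ t, Om → ν t}
  {V : ∀ v t, Om → κ v t} {Y : ∀ i t, Om → κ' i t}

/-- **ONE VERTEX, REAL WEIGHTS** -/
theorem hxy_w (H : Tri P nd V Y) {v i j : Fin 3} (hi : v ≠ i) (hj : v ≠ j) (hij : i ≠ j) {R : ℕ → Om → Prop} {q0 : ℝ}
    {s : ℕ} {K : Om → Prop} (hK : ∀ w, P.p w ≠ 0 → K w → Bef.ud P (V v) R q0 s w) {a b : Om → ℝ} (fa : Fac (Y i s) a)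
    (fb : Fac (Y j s) b) (a0 : ∀ w, 0 ≤ a w) (b0 : ∀ w, 0 ≤ b w) :
    P.E (fun w => ind (K w) * (a w * b w)) ≤
      Real.sqrt q0 * ((P.E (fun w => a w ^ 2) + P.E (fun w => b w ^ 2)) / 2) := by
  have hl : Fac (V v s) (fun w => ind (cp P (V v) s (R s) w < q0)) := fun x w e => by
    show ind (cp P (V v) s (R s) x < q0) = ind (cp P (V v) s (R s) w < q0)
    rw [cp_fac s (R s) x w e]
  have e1 : P.E (fun w => ind (K w) * (a w * b w)) ≤
      P.E (fun w => ind (cp P (V v) s (R s) w < q0) * (ind (R s w) * (a w * b w))) := by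
    refine P.E_mono fun w hw => ?_
    have hab : 0 ≤ a w * b w := mul_nonneg (a0 w) (b0 w)
    by_cases h : K w
    · obtain ⟨h1, h2⟩ := hK w hw h
      rw [ind_of h, ind_of h1, ind_of h2]
      linarith
    · rw [ind_not h, zero_mul]
      exact mul_nonneg (ind_nonneg _) (mul_nonneg (ind_nonneg _) hab)
  refine e1.trans ?_
  rw [← P.E_mul_ce hl, ← P.E_ce (V v s) (fun w => a w ^ 2), ← P.E_ce (V v s) (fun w => b w ^ 2), ← P.E_add,
    ← P.E_div_const, ← P.E_smul]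
  refine P.E_mono fun w hw => ?_
  set A := P.ce (V v s) (fun w => a w ^ 2) w with hA
  set B := P.ce (V v s) (fun w => b w ^ 2) w with hB
  have A0 : 0 ≤ A := P.ce_nonneg (fun x _ => sq_nonneg _) w
  have B0 : 0 ≤ B := P.ce_nonneg (fun x _ => sq_nonneg _) w
  have hr : 0 ≤ Real.sqrt q0 * ((A + B) / 2) := mul_nonneg (Real.sqrt_nonneg _) (by linarith)
  by_cases h1 : cp P (V v) s (R s) w < q0
  · rw [ind_of h1, one_mul]
    set z := P.ce (V v s) (fun x => ind (R s x) * (a x * b x)) w with hz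
    have z0 : 0 ≤ z := P.ce_nonneg (fun x _ => mul_nonneg (ind_nonneg _) (mul_nonneg (a0 x) (b0 x))) w
    have c1 := P.ce_mul_sq_le (V v s) (fun x => ind (R s x)) (fun x => a x * b x) w
    have c2 : P.ce (V v s) (fun x => ind (R s x) ^ 2) w = cp P (V v) s (R s) w := by
      show _ = P.ce (V v s) (fun x => ind (R s x)) w
      refine P.ce_congr (fun x _ => ?_) w
      by_cases hx : R s x
      · rw [ind_of hx]; norm_num
      · rw [ind_not hx]; norm_num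
    have c3 : P.ce (V v s) (fun x => (a x * b x) ^ 2) w = A * B := by
      have e2 : (fun x => (a x * b x) ^ 2) = fun x => a x ^ 2 * b x ^ 2 := funext fun x => by ring
      rw [e2, hA, hB]
      exact H.ci v i j hi hj hij s (fun x => a x ^ 2) (fun x => b x ^ 2) (fun x y e => by
        show a x ^ 2 = a y ^ 2
        rw [fa x y e]) (fun x y e => by
        show b x ^ 2 = b y ^ 2
        rw [fb x y e]) w hw
    rw [c2, c3] at c1
    have q1 : 0 ≤ cp P (V v) s (R s) w := P.ce_nonneg (fun x _ => ind_nonneg _) w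
    have c4 : z ^ 2 ≤ q0 * (A * B) := c1.trans (mul_le_mul_of_nonneg_right h1.le (mul_nonneg A0 B0))
    have q2 : 0 ≤ q0 := q1.trans h1.le
    refine le_of_sq_le_sq ?_ hr
    rw [mul_pow, Real.sq_sqrt q2]
    have c5 : A * B ≤ ((A + B) / 2) ^ 2 := by nlinarith [sq_nonneg (A - B)]
    exact c4.trans (mul_le_mul_of_nonneg_left c5 q2)
  · rw [ind_not h1, zero_mul]
    exact hr

end abs

section und

variable {Om : Type} [Fintype Om] {M : US Om} {Q : Kd Om} {η : Fin 3 → ℕ → Type*} {Y : ∀ i t, Om → η i t}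
  {act : Fin 3 → ℕ → Om → Prop}

/-- **UNDECIDED, NOT BLOCKED VERTEX `v`**, real weights of the two faces over `v` -/
theorem und_sum (H : Seen M) (HB : BfS M Y act) {v i j : Fin 3} (hi : v ≠ i) (hj : v ≠ j) (hij : i ≠ j)
    {K : ℕ → Om → Prop}
    (hK : ∀ q w, M.P.p w ≠ 0 → K q w → Q.kv (some v) (tv M v q w) w ∧ ¬ bet M Q v q w ∧ ¬ M.ex v q w ∧ ¬ blk M Q v q w)
    {a b : ℕ → Om → ℝ} (fa : ∀ q, Fac (Y i q) (a q)) (fb : ∀ q, Fac (Y j q) (b q)) (a0 : ∀ q w, 0 ≤ a q w)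
    (b0 : ∀ q w, 0 ≤ b q w) (T : ℕ) :
    ∑ q ∈ range T, M.P.E (fun w => ind (K q w) * (a q w * b q w)) ≤
      Real.sqrt Q.uB * ((∑ q ∈ range T, M.P.E (fun w => a q w ^ 2) + ∑ q ∈ range T, M.P.E (fun w => b q w ^ 2)) / 2) := by
  rw [← Finset.sum_add_distrib, Finset.sum_div, Finset.mul_sum]
  refine Finset.sum_le_sum fun q _ => ?_
  exact hxy_w (R := fun s u => Q.kv (some v) (tv M v s u) u) HB.tri hi hj hij
    (fun w hw h => ud_of H (hK q w hw h).1 ⟨(hK q w hw h).2.1, (hK q w hw h).2.2.1⟩ (hK q w hw h).2.2.2) (fa q) (fb q)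
    (a0 q) (b0 q)

end und

end

end Pool.Agent.GMH.UV

namespace Pool.Agent.GMH.AlrM

open Finset Pool.Agent.PWZ Pool.Agent.M3 Pool.Agent.GM Pool.Agent.GM.Harm Pool.Agent.GMH Pool.Agent.GMH.NZ
open Pool.Agent.GMH.V3 Pool.Agent.GMH.TP Pool.Agent.GMH.TD Pool.Agent.GMH.Dy Pool.Agent.GMH.MV Pool.Agent.GMH.MVI
open Pool.Agent.GMH.TRF Pool.Agent.GMH.UV

noncomputable section

variable {X β γ φ : Type} [Fintype X] [Fintype β] [Fintype φ] [Nonempty X] [Nonempty β]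
variable {D : HD (Fin 3) X β γ φ} {al : ℝ} {h : D.Thick al} {prr : ℕ → Fin 3 → φ → φ} {T : ℕ} {W : Type} [Fintype W]
variable (tb : Tab D prr T W) {v : ℕ → Finset (Fin 3) → X → (Fin 3 → β) → Pt (Fin 3) X β φ}

/-- **LIGHT VALUE OF `i`, RELATION OF SMALL CLASS MASS, TWO WEIGHTS** -/
theorem alr_pair {n N1 : ℝ} (hn : 1 ≤ n) (hN1 : 1 ≤ N1) (R : Run h (pr3 (Fin 3) n N1) (SS1 (Fin 3)) (AdmDep D) v)
    {dg : ℕ → X → ℝ} {Lam : ℝ} (H : D.Hyp dg prr al T Lam) (i : Fin 3) {y : ℝ} (hy0 : 0 < y) (hy1 : y ≤ 1)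
    (hNy : 8 ≤ N1 * y) {ζ : ℕ → Type*} {Zs : ∀ q, Om W X β → ζ q} (hZs : ∀ q, Fac (Zs q) (NPo tb v q))
    {Bq : ℕ → Om W X β → Prop} {m0 : ℝ} (hm0 : 0 ≤ m0)
    (hB : ∀ q < 5 * T, ∀ w, tb.Ps.p w ≠ 0 → tb.Ps.ce (Zs q) (fun u => ind (Bq q u)) w ≤ m0)
    {a b : ℕ → Om W X β → ℝ} {G : ℝ} (fb : ∀ q, Fac (Yt X D W TP.nn i q) (b q)) (b0 : ∀ q w, 0 ≤ b q w)
    (b1 : ∀ q w, b q w ≤ G) :
    ∑ q ∈ range (5 * T), tb.Ps.E (fun w => ind (rpO tb v i q w ∧ Bq q w) * (a q w * b q w)) ≤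
      Real.sqrt y * ((∑ q ∈ range (5 * T), tb.Ps.E (fun w => a q w ^ 2) +
        ∑ q ∈ range (5 * T), tb.Ps.E (fun w => b q w ^ 2)) / 2) +
      G ^ 2 / (2 * Real.sqrt y) * ((16 * m0 / y ^ 2 + Real.exp (2 - N1 * y / 8)) * (6 * n * Lam)) := by
  have h1 := alr_gen tb hn hN1 R H i hy0 hy1 hNy hZs hm0 hB (g := fun q w => b q w ^ 2) (G := G ^ 2) (fun q x z e => by
    show b q x ^ 2 = b q z ^ 2
    rw [fb q x z e]) (fun _ _ => sq_nonneg _) (fun q w => pow_le_pow_left₀ (b0 q w) (b1 q w) 2)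
  set sy := Real.sqrt y with hsy
  have s0 : 0 < sy := Real.sqrt_pos.2 hy0
  have ssq : sy ^ 2 = y := Real.sq_sqrt hy0.le
  have h2 : ∑ q ∈ range (5 * T), tb.Ps.E (fun w => ind (rpO tb v i q w ∧ Bq q w) * (a q w * b q w)) ≤
      ∑ q ∈ range (5 * T), (sy / 2 * tb.Ps.E (fun w => a q w ^ 2) +
        1 / (2 * sy) * tb.Ps.E (fun w => ind (rpO tb v i q w ∧ Bq q w) * b q w ^ 2)) := by
    refine Finset.sum_le_sum fun q _ => ?_
    rw [← tb.Ps.E_smul, ← tb.Ps.E_smul, ← tb.Ps.E_add]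
    refine tb.Ps.E_mono fun w _ => ?_
    by_cases hh : rpO tb v i q w ∧ Bq q w
    · rw [ind_of hh, one_mul, one_mul]
      have h3 : 0 ≤ (sy * a q w - b q w) ^ 2 := sq_nonneg _
      have h4 : sy / 2 * a q w ^ 2 + 1 / (2 * sy) * b q w ^ 2 = (sy ^ 2 * a q w ^ 2 + b q w ^ 2) / (2 * sy) := by
        field_simp
      rw [h4, le_div_iff₀ (by positivity)]
      nlinarith
    · rw [ind_not hh, zero_mul, zero_mul, mul_zero, add_zero]
      exact mul_nonneg (by positivity) (sq_nonneg _)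
  refine h2.trans ?_
  rw [Finset.sum_add_distrib, ← Finset.mul_sum, ← Finset.mul_sum]
  have h5 := mul_le_mul_of_nonneg_left h1 (show 0 ≤ 1 / (2 * sy) by positivity)
  have h6 : 1 / (2 * sy) * (y * ∑ q ∈ range (5 * T), tb.Ps.E (fun w => b q w ^ 2) +
      G ^ 2 * ((16 * m0 / y ^ 2 + Real.exp (2 - N1 * y / 8)) * (6 * n * Lam))) =
      sy / 2 * ∑ q ∈ range (5 * T), tb.Ps.E (fun w => b q w ^ 2) +
        G ^ 2 / (2 * sy) * ((16 * m0 / y ^ 2 + Real.exp (2 - N1 * y / 8)) * (6 * n * Lam)) := by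
    have h7 : 1 / (2 * sy) * y = sy / 2 := by
      rw [← ssq]
      field_simp
    rw [mul_add, ← mul_assoc, h7]
    ring
  rw [h6] at h5
  linarith

end

end Pool.Agent.GMH.AlrM
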