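import Pool.Agent.GMH.P2kl

/-!
# GMH.P2E: two rows of one exact point inside an event (helper56; gm row H3.REL, R.4 (d))

As `P2kl.p2`, for the law `Q' = Q.cond E` of an event `E` of the hidden point `A` inside the class `Q`.  The tests are normalised by
the law of the class, their tails hold in the class (saturation), hence with the factor `1 / Q(E)` inside `E`.

* `cond_ce_event` : conditional means given `A` do not change inside an event of `A`;
* `rt` : density ratio of the conditional law of `F` given `Z`, `rt_norm`, `rt_true`;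
* **`p2E`** : `I_E(F; Y | Z) + klc_(Q_E | Q)(F | Z) <= L / m + 2 (dl + Lam + 3) / m + m (R0 + L / m)^2 / (2 k) + 2 ep`,
  `L >= log (1 / Q(E))`.
-/

set_option autoImplicit false
set_option linter.unusedSectionVars false

namespace Pool.Agent.GMH

open Finset Pool.Agent.PWZ Pool.Agent.M3

section p2e

variable {Om Th : Type*} [Fintype Om] [Fintype Th] {α κ ζ ι ξ : Type*}

/-- conditional means given `A` inside an event of `A` -/
theorem cond_ce_event {Q : FP Om} {A : Om → α} {E : Om → Prop} (hE : Fac A E) (hE0 : Q.Pr E ≠ 0) (f : Om → ℝ) {v : Om}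
    (hv : E v) : (Q.cond E).ce A f v = Q.ce A f v := by
  have key : ∀ g : Om → ℝ, Q.E (fun u => ind (E u) * (ind (A u = A v) * g u)) = Q.E (fun u => ind (A u = A v) * g u) := by
    intro g
    refine Q.E_congr fun u _ => ?_
    by_cases h : A u = A v
    · have h2 : E u := by
        have : E u = E v := hE u v h
        rw [this]; exact hv
      rw [ind_of h2, one_mul]
    · rw [ind_not h, zero_mul, mul_zero]
  unfold FP.ce
  rw [FP.cond_E hE0, FP.cond_m hE0, key f]
  have h1 : Q.E (fun u => ind (E u) * ind (A u = A v)) = Q.m A v := by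
    have := key (fun _ => 1)
    simp only [mul_one] at this
    exact this
  rw [h1, div_div_div_cancel_right₀ hE0]

/-- density ratio of the conditional law of `F` given `Z` -/
noncomputable def rt (P1 Q : FP Om) (F : Om → κ) (Z : Om → ζ) (v : Om) : ℝ :=
  P1.m (fun w => (F w, Z w)) v / P1.m Z v / (Q.m (fun w => (F w, Z w)) v / Q.m Z v)

theorem rt_nonneg (P1 Q : FP Om) (F : Om → κ) (Z : Om → ζ) (v : Om) : 0 ≤ rt P1 Q F Z v :=
  div_nonneg (div_nonneg (FP.m_nonneg _ _ _) (FP.m_nonneg _ _ _)) (div_nonneg (FP.m_nonneg _ _ _) (FP.m_nonneg _ _ _))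

theorem rt_fac (P1 Q : FP Om) (F : Om → κ) (Z : Om → ζ) : Fac (fun w => (F w, Z w)) (rt P1 Q F Z) := by
  intro v w h
  have h1 : Z v = Z w := congrArg Prod.snd h
  unfold rt
  rw [P1.Fac_m (fun v => (F v, Z v)) v w h, Q.Fac_m (fun v => (F v, Z v)) v w h, P1.Fac_m Z v w h1, Q.Fac_m Z v w h1]

/-- the ratio is normalised -/
theorem rt_norm (P1 Q : FP Om) (F : Om → κ) (Z : Om → ζ) {w : Om} (hw : Q.p w ≠ 0) : Q.ce Z (rt P1 Q F Z) w ≤ 1 := by
  have hQ := Q.m_pos Z hw
  unfold FP.ce
  rw [div_le_one hQ]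
  have h0 : ∀ v, Q.p v ≠ 0 → ind (Z v = Z w) * rt P1 Q F Z v =
      Q.m Z w / P1.m Z w * (P1.m (fun w => (F w, Z w)) v / Q.m (fun w => (F w, Z w)) v * ind (Z v = Z w)) := by
    intro v hv
    by_cases hz : Z v = Z w
    · rw [ind_of hz, one_mul, mul_one]
      unfold rt
      rw [P1.Fac_m Z v w hz, Q.Fac_m Z v w hz]
      have a := (Q.m_pos (fun w => (F w, Z w)) hv).ne'
      by_cases hb : P1.m Z w = 0
      · rw [hb, div_zero, div_zero, zero_div, zero_mul]
      · field_simp
    · rw [ind_not hz]; ring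
  rw [Q.E_congr h0, FP.E_smul]
  have h1 := Q.E_ratio_le P1 (X := fun w => (F w, Z w)) (h := fun v => ind (Z v = Z w))
    (fun u v huv => by
      have h2 : Z u = Z v := congrArg Prod.snd huv
      show ind (Z u = Z w) = ind (Z v = Z w)
      rw [h2]) (fun _ _ => ind_nonneg _)
  have h2 : P1.E (fun v => ind (Z v = Z w)) = P1.m Z w := rfl
  rw [h2] at h1
  have h3 : 0 ≤ Q.m Z w / P1.m Z w := div_nonneg (FP.m_nonneg _ _ _) (FP.m_nonneg _ _ _)
  refine (mul_le_mul_of_nonneg_left h1 h3).trans ?_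
  by_cases hb : P1.m Z w = 0
  · rw [hb, mul_zero]; exact hQ.le
  · rw [div_mul_cancel₀ _ hb]

/-- value of the ratio at the true second row -/
theorem rt_true {Q' Q : FP Om} (hac : Q'.Ac Q) (F : Om → κ) (Z : Om → ζ) (Y : Om → ι) {v : Om} (hv : Q'.p v ≠ 0) :
    rt (Q'.cond fun w => Y w = Y v) Q F Z v = Q'.m (fun w => (F w, Y w, Z w)) v * Q.m Z v /
      (Q.m (fun w => (F w, Z w)) v * Q'.m (fun w => (Y w, Z w)) v) := by
  have h0 : Q'.Pr (fun w => Y w = Y v) ≠ 0 := (FP.Pr_pos_of (S := fun w => Y w = Y v) hv rfl).ne'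
  unfold rt
  rw [FP.cond_m h0, FP.cond_m h0]
  have e1 : Q'.E (fun u => ind (Y u = Y v) * ind ((F u, Z u) = (F v, Z v))) = Q'.m (fun w => (F w, Y w, Z w)) v := by
    unfold FP.m
    refine Q'.E_congr fun u _ => ?_
    rw [← ind_and]
    congr 1
    simp only [Prod.mk.injEq]
    exact propext ⟨fun ⟨a, b, c⟩ => ⟨b, a, c⟩, fun ⟨a, b, c⟩ => ⟨b, a, c⟩⟩
  have e2 : Q'.E (fun u => ind (Y u = Y v) * ind (Z u = Z v)) = Q'.m (fun w => (Y w, Z w)) v := by
    unfold FP.m
    refine Q'.E_congr fun u _ => ?_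
    rw [← ind_and]
    congr 1
    simp only [Prod.mk.injEq]
  rw [e1, e2]
  have a := (Q'.m_pos (fun w => (F w, Y w, Z w)) hv).ne'
  have b := (Q'.m_pos (fun w => (Y w, Z w)) hv).ne'
  have c := (Q.m_pos (fun w => (F w, Z w)) (hac v hv)).ne'
  have d := (Q.m_pos Z (hac v hv)).ne'
  field_simp

/-- information and change of the law together -/
theorem I_add_klc {Q' Q : FP Om} (hac : Q'.Ac Q) (F : Om → κ) (Z : Om → ζ) (Y : Om → ι) :
    Q'.I F Y Z + Q'.klc Q F Z = Q'.E (fun v => Real.log (rt (Q'.cond fun w => Y w = Y v) Q F Z v)) := by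
  rw [FP.I_eq_E_log]
  unfold FP.klc
  rw [← FP.E_add]
  refine Q'.E_congr fun w hw => ?_
  rw [rt_true hac F Z Y hw]
  have a := (Q'.m_pos (fun w => (F w, Y w, Z w)) hw).ne'
  have b := (Q'.m_pos (fun w => (Y w, Z w)) hw).ne'
  have c := (Q.m_pos (fun w => (F w, Z w)) (hac w hw)).ne'
  have d := (Q.m_pos Z (hac w hw)).ne'
  have e := (Q'.m_pos (fun w => (F w, Z w)) hw).ne'
  have f := (Q'.m_pos Z hw).ne'
  rw [Real.log_div (mul_ne_zero a f) (mul_ne_zero e b), Real.log_mul a f, Real.log_mul e b,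
    Real.log_div (div_ne_zero e f) (div_ne_zero c d), Real.log_div e f, Real.log_div c d,
    Real.log_div (mul_ne_zero a d) (mul_ne_zero c b), Real.log_mul a d, Real.log_mul c b]
  ring

/-- **TWO ROWS OF ONE EXACT POINT INSIDE AN EVENT** -/
theorem p2E {Q : FP Om} {R : FP Th} {A : Om → α} {F : Om → κ} {Z : Om → ζ} {g : Om → Th → κ × ζ} {Yl : Om → ι}
    {Yf : Om → ξ} {E : Om → Prop} (hE : Fac A E) (hE0 : Q.Pr E ≠ 0) {R0 m dl Lam ep L : ℝ} {k : ℕ} (hk : 0 < k) (hm : 0 < m)
    (hL0 : 0 ≤ L) (hEL : Real.log (1 / Q.Pr E) ≤ L) (hep : 0 < ep) (hep2 : ep ≤ 1 / 2)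
    (hR0 : Real.log (1 / ep) ≤ R0) (hthick : ∀ w, Q.p w ≠ 0 → Q.m Z w ≤ Real.exp R0 * Q.m (fun v => (F v, Z v)) w)
    (hS : ∀ (f : κ × ζ → ℝ) v, (Q.cond E).p v ≠ 0 → R.E (fun θ => f (g v θ)) = (Q.cond E).ce A (fun u => f (F u, Z u)) v)
    (hI : ∀ f : ι → ξ → κ × ζ → ℝ, (Q.cond E).E (fun v => f (Yl v) (Yf v) (F v, Z v)) =
      (Q.cond E).E (fun v => (Q.cond E).ce A (fun u => f (Yl v) (Yf v) (F u, Z u)) v))
    (hkR : m * (R0 + L / m) ≤ 2 * k)
    (hsat : ∀ (S : Om → Prop) (psi : Om → ℝ), Fac A S → Q.Pr S ≠ 0 → Fac (fun w => (F w, Z w)) psi →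
      (∀ w, Q.p w ≠ 0 → Q.ce Z (fun v => Real.exp (psi v)) w ≤ 1) →
      m * (Q.cond S).E psi ≤ Real.log (1 / Q.Pr S) + 1)
    (hd : (FP.pr (Q.cond E) (FPpi fun _ : Fin k => R)).I (fun v => Yl v.1) (fun v i => g v.1 (v.2 i)) (fun _ => ()) ≤ dl)
    (hL : (Q.cond E).Hc Yf Yl ≤ Lam) :
    (Q.cond E).I F (fun w => (Yl w, Yf w)) Z + (Q.cond E).klc Q F Z ≤
      L / m + 2 * (dl + Lam + 3) / m + m * (R0 + L / m) ^ 2 / (2 * k) + 2 * ep := by
  classical
  set Q' := Q.cond E with hQ'
  have hac : Q'.Ac Q := Q.cond_ac E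
  have hR00 : 0 ≤ R0 := by
    refine le_trans (Real.log_nonneg ?_) hR0
    rw [le_div_iff₀ hep]; linarith
  have hLm : 0 ≤ L / m := div_nonneg hL0 hm.le
  set X : Om → κ × ζ := fun w => (F w, Z w) with hX
  set Y : Om → ι × ξ := fun w => (Yl w, Yf w) with hY
  set ra : ι × ξ → Om → ℝ := fun y v => rt (Q'.cond fun w => Y w = y) Q F Z v with hra
  set ys : ι × ξ → Om → ℝ := fun y v => (1 - ep) * ra y v + ep with hys
  set ps : ι × ξ → Om → ℝ := fun y v => min (Real.log (ys y v)) R0 with hps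
  have hys0 : ∀ y v, ep ≤ ys y v := fun y v => by
    have h1 : 0 ≤ ra y v := rt_nonneg _ Q F Z v
    have h2 : 0 ≤ (1 - ep) * ra y v := mul_nonneg (by linarith) h1
    show ep ≤ (1 - ep) * ra y v + ep
    linarith
  have hfac : ∀ y, Fac X (ps y) := fun y v w h => by
    have h1 : ra y v = ra y w := rt_fac _ Q F Z v w h
    show min (Real.log ((1 - ep) * ra y v + ep)) R0 = min (Real.log ((1 - ep) * ra y w + ep)) R0
    rw [h1]
  have hb : ∀ y v, |ps y v| ≤ R0 := by
    intro y v
    rw [abs_le]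
    refine ⟨?_, min_le_right _ _⟩
    refine le_min ?_ (by linarith)
    have h1 := Real.log_le_log hep (hys0 y v)
    rw [one_div, Real.log_inv] at hR0
    linarith
  have hnorm : ∀ y w, Q.p w ≠ 0 → Q.ce Z (fun v => Real.exp (ps y v)) w ≤ 1 := by
    intro y w hw
    have h1 : Q.ce Z (fun v => Real.exp (ps y v)) w ≤ Q.ce Z (ys y) w := by
      refine Q.ce_mono (fun v _ => ?_) w
      have h2 : Real.exp (ps y v) ≤ Real.exp (Real.log (ys y v)) := Real.exp_le_exp.2 (min_le_left _ _)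
      rwa [Real.exp_log (lt_of_lt_of_le hep (hys0 y v))] at h2
    refine h1.trans ?_
    have h3 : Q.ce Z (ys y) w = (1 - ep) * Q.ce Z (ra y) w + ep := by
      rw [hys]
      rw [Q.ce_add Z (fun v => (1 - ep) * ra y v) (fun _ => ep) w, Q.ce_smul, Q.ce_const Z ep hw]
    rw [h3]
    have h4 := mul_le_mul_of_nonneg_left (rt_norm (Q'.cond fun w => Y w = y) Q F Z hw) (show 0 ≤ 1 - ep by linarith)
    linarith
  choose f' hf1 hf2 using fun y => fac_fn (hfac y) hR00 (hb y)
  -- the tests, moved down by `L / m`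
  have key := p2_dv (Q := Q') (R := R) (A := A) (X := X) (g := g) (Yl := Yl) (Yf := Yf)
    (psi := fun l f x => f' (l, f) x - L / m) (R0 := R0 + L / m) (m := m) (dl := dl) (Lam := Lam) hk hm hS hI
    (fun l f x => ?_) hkR ?_ hd hL
  · have h1 : Q'.I F Y Z + Q'.klc Q F Z - 2 * ep - L / m ≤ Q'.E (fun v => f' (Yl v, Yf v) (X v) - L / m) := by
      rw [I_add_klc hac F Z Y]
      have h2 : Q'.E (fun v => Real.log (rt (Q'.cond fun w => Y w = Y v) Q F Z v)) - 2 * ep - L / m =
          Q'.E (fun v => Real.log (rt (Q'.cond fun w => Y w = Y v) Q F Z v) - 2 * ep - L / m) := by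
        rw [FP.E_sub, FP.E_sub, FP.E_const, FP.E_const]
      rw [h2]
      refine Q'.E_mono fun w hw => ?_
      have e0 : f' (Yl w, Yf w) (X w) = ps (Y w) w := hf1 (Y w) w
      rw [e0]
      have hq := hac w hw
      have a := Q'.m_pos (fun w => (F w, Y w, Z w)) hw
      have b := Q'.m_pos (fun w => (Y w, Z w)) hw
      have c := Q.m_pos (fun w => (F w, Z w)) hq
      have d := Q.m_pos Z hq
      have hpos : 0 < ra (Y w) w := by
        show 0 < rt (Q'.cond fun v => Y v = Y w) Q F Z w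
        rw [rt_true hac F Z Y hw]
        exact div_pos (mul_pos a d) (mul_pos c b)
      have hle : ra (Y w) w ≤ Real.exp R0 := by
        show rt (Q'.cond fun v => Y v = Y w) Q F Z w ≤ Real.exp R0
        rw [rt_true hac F Z Y hw, div_le_iff₀ (mul_pos c b)]
        have h3 : Q'.m (fun w => (F w, Y w, Z w)) w ≤ Q'.m (fun w => (Y w, Z w)) w :=
          Q'.m_anti (Fac.snd F fun w => (Y w, Z w)) w
        calc Q'.m (fun w => (F w, Y w, Z w)) w * Q.m Z w ≤
            Q'.m (fun w => (Y w, Z w)) w * (Real.exp R0 * Q.m (fun v => (F v, Z v)) w) :=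
              mul_le_mul h3 (hthick w hq) d.le b.le
          _ = _ := by ring
      have h1ep : 0 < 1 - ep := by linarith
      have hmain : Real.log (ra (Y w) w) - 2 * ep ≤ ps (Y w) w := by
        show Real.log (ra (Y w) w) - 2 * ep ≤ min (Real.log ((1 - ep) * ra (Y w) w + ep)) R0
        refine le_min ?_ ?_
        · have h3 : Real.log ((1 - ep) * ra (Y w) w) ≤ Real.log ((1 - ep) * ra (Y w) w + ep) :=
            Real.log_le_log (mul_pos h1ep hpos) (by linarith)
          rw [Real.log_mul h1ep.ne' hpos.ne'] at h3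
          have h4 : - (2 * ep) ≤ Real.log (1 - ep) := by
            have h5 := Real.one_sub_inv_le_log_of_pos h1ep
            have h6 : (1 - ep)⁻¹ ≤ 1 + 2 * ep := by
              rw [inv_eq_one_div, div_le_iff₀ h1ep]
              nlinarith
            linarith
          linarith
        · have h3 := Real.log_le_log hpos hle
          rw [Real.log_exp] at h3
          linarith
      have e1 : rt (Q'.cond fun v => Y v = Y w) Q F Z w = ra (Y w) w := rfl
      rw [e1]
      linarith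
    have h3 := h1.trans key
    linarith
  · rw [abs_le]
    have h4 := abs_le.1 (hf2 (l, f) x)
    constructor <;> linarith [h4.1, h4.2]
  · intro l f u hu
    have h1 : (fun w => f' (l, f) (X w) - L / m) = fun w => ps (l, f) w - L / m := funext fun w => by rw [hf1 (l, f) w]
    show Q'.Pr (fun v => u ≤ Q'.ce A (fun w => f' (l, f) (X w) - L / m) v) ≤ _
    rw [h1]
    -- tails in the class
    have h2 := tail_of_sat (Q := Q) (A := A) (psi := ps (l, f)) (m := m) (u := u + L / m)
      (fun S hA h0 => hsat S (ps (l, f)) hA h0 (hfac (l, f)) (hnorm (l, f))) hm.le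
    have hp0 : 0 < Q.Pr E := lt_of_le_of_ne (Q.Pr_nonneg _) (Ne.symm hE0)
    -- inside the event
    have h3 : Q'.Pr (fun v => u ≤ Q'.ce A (fun w => ps (l, f) w - L / m) v) ≤
        Q.Pr (fun v => u + L / m ≤ Q.ce A (ps (l, f)) v) / Q.Pr E := by
      unfold FP.Pr
      rw [hQ', FP.cond_E hE0]
      refine div_le_div_of_nonneg_right ?_ hp0.le
      refine Q.E_mono fun v hv => ?_
      by_cases hEv : E v
      · rw [ind_of hEv, one_mul]
        have h4 : (Q.cond E).ce A (fun w => ps (l, f) w - L / m) v = Q.ce A (ps (l, f)) v - L / m := by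
          rw [cond_ce_event hE hE0 _ hEv]
          have := Q.ce_add A (ps (l, f)) (fun _ => - (L / m)) v
          simp only [← sub_eq_add_neg] at this
          rw [this, Q.ce_const A _ hv]
          ring
        show ind (u ≤ (Q.cond E).ce A (fun w => ps (l, f) w - L / m) v) ≤ ind (u + L / m ≤ Q.ce A (ps (l, f)) v)
        rw [h4]
        by_cases h5 : u ≤ Q.ce A (ps (l, f)) v - L / m
        · rw [ind_of h5, ind_of (show u + L / m ≤ Q.ce A (ps (l, f)) v by linarith)]
        · rw [ind_not h5]; exact ind_nonneg _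
      · rw [ind_not hEv, zero_mul]; exact ind_nonneg _
    refine h3.trans ?_
    rw [div_le_iff₀ hp0]
    refine h2.trans ?_
    have h5 : Real.exp (-L) ≤ Q.Pr E := by
      rw [one_div, Real.log_inv] at hEL
      rw [← Real.le_log_iff_exp_le hp0]
      linarith
    have h6 : Real.exp (1 - m * (u + L / m)) = Real.exp (1 - m * u) * Real.exp (-L) := by
      rw [← Real.exp_add]
      congr 1
      field_simp
      ring
    rw [h6]
    exact mul_le_mul_of_nonneg_left h5 (Real.exp_pos _).le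

end p2e

end Pool.Agent.GMH
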