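import Pool.Agent.GMH.P2R
import Pool.Agent.GMH.P2E

/-!
# GMH.P2ER: P2 inside an event of the exact point, one class of the run (helper80; H3.REL R.4 (d))

Class `Q = (D.P h t).cond (clsb U V1 b w0)` as in `P2R.p2R`, event `E` of the hidden point, the exact point `b` and the node
with `E w0`; `F` = letter at the vertices without `d`, truncated with the typical letters of `c`; second row = point and
letter of `d` and the label at the vertices without `c`.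
* `p2RE` : inside `E` the information of the second row about `F` and the relative entropy of `F` against the law of the
  CLASS are at most the bound of (P2), up to `L / m`, `L >= log (1 / Q.Pr E)`;
* `own_in` : probability of own letter and event in the public class = product.
-/

set_option autoImplicit false
set_option linter.unusedSectionVars false

namespace Pool.Agent.GMH

open Finset Pool.Agent.PWZ Pool.Agent.M3 Pool.Agent.GM Pool.Agent.GM.Harm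

namespace P2ER



section cls

variable {K X β γ φ υ : Type} [Fintype K] [DecidableEq K] [Fintype X] [Fintype β] [Fintype φ] [Nonempty X] [Nonempty β]
  {D : HD K X β γ φ} {al : ℝ} (h : D.Thick al)
variable {N : Finset K → ℝ} {S : Finset (Finset K)} {U : Finset K → X → (K → β) → υ}
variable {t : ℕ} {b c d : K} {V1 : Pt K X β φ → Prop} {w0 : Pt K X β φ}

theorem own_pos (hw1 : V1 w0) (hw0 : (D.P h t).p w0 ≠ 0) : 0 < own h t U V1 b w0 := by
  have hV10 : (D.P h t).Pr V1 ≠ 0 := (FP.Pr_pos_of (S := V1) hw0 hw1).ne'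
  exact FP.Pr_pos_of (S := fun w => U {b} w.1 w0.2.1 = U {b} w0.1 w0.2.1) ((FP.cond_p_ne hV10).2 ⟨hw1, hw0⟩) rfl

/-- probability of own letter and event in the public class -/
theorem own_in
    (hU : ∀ I x y y', (∀ j ∈ I, y j = y' j) → (∀ j, D.qb t (y j) = D.qb t (y' j)) → U I x y = U I x y')
    (hdb : d ≠ b) (hp : PubC D t U V1) (hcl : ∀ l : K, ∃ j, j ≠ l) (hw1 : V1 w0) (hw0 : (D.P h t).p w0 ≠ 0)
    {E : Pt K X β φ → Prop} (hE : Fac (Ah D t {b}) E) :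
    ((D.P h t).cond V1).Pr (fun w => U {b} w.1 w0.2.1 = U {b} w0.1 w0.2.1 ∧ E (w.1, w0.2)) =
      own h t U V1 b w0 * ((D.P h t).cond (clsb U V1 b w0)).Pr E := by
  classical
  obtain ⟨f1, f2, f3, f4⟩ := clsb_facts (b := b) hp hw1
  have hVA := clsb_Ah (b := b) (w0 := w0) hU hp hcl
  have hV0 : (D.P h t).Pr (clsb U V1 b w0) ≠ 0 := (FP.Pr_pos_of (S := clsb U V1 b w0) hw0 f1).ne'
  have hV10 : (D.P h t).Pr V1 ≠ 0 := (FP.Pr_pos_of (S := V1) hw0 hw1).ne'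
  have hw01 : ((D.P h t).cond V1).p w0 ≠ 0 := (FP.cond_p_ne hV10).2 ⟨hw1, hw0⟩
  have hE0 : ((D.P h t).cond V1).Pr (fun w => U {b} w.1 w0.2.1 = U {b} w0.1 w0.2.1) ≠ 0 :=
    (FP.Pr_pos_of (S := fun w => U {b} w.1 w0.2.1 = U {b} w0.1 w0.2.1) hw01 rfl).ne'
  have key := law_xd h (d := d) (pub_fac hU hp.fac hcl) hp.nod hVA f3 hw1 f1 hV10 hV0 (Finset.notMem_empty d)
    (fun hh => hdb (Finset.mem_singleton.1 hh)) (E0 := fun x => U {b} x w0.2.1 = U {b} w0.1 w0.2.1)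
    (fun x => ⟨fun hh => ⟨hh.1, hh.2.2⟩, fun hh => ⟨hh.1, rfl, hh.2⟩⟩) hE0 (fun x _ => ind (E (x, w0.2)))
  have e1 : ((D.P h t).cond (clsb U V1 b w0)).E (fun w => ind (E (w.1, w0.2))) =
      ((D.P h t).cond (clsb U V1 b w0)).Pr E := by
    refine FP.E_congr _ fun w hw => ?_
    have h1 := f3 w w0 (cond_supp hV0 hw).1 f1
    rw [BB_eq] at h1
    have h2 : Ah D t {b} (w.1, w0.2) = Ah D t {b} w := by
      unfold Ah
      refine Prod.ext rfl ?_
      rw [BB_eq]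
      exact ⟨fun j hj => (h1.1 j hj).symm, rfl, fun j => (h1.2.2 j).symm⟩
    rw [hE _ _ h2]
  rw [e1, FP.cond_E hE0] at key
  have e2 : ((D.P h t).cond V1).E (fun w => ind (U {b} w.1 w0.2.1 = U {b} w0.1 w0.2.1) * ind (E (w.1, w0.2))) =
      ((D.P h t).cond V1).Pr (fun w => U {b} w.1 w0.2.1 = U {b} w0.1 w0.2.1 ∧ E (w.1, w0.2)) :=
    FP.E_congr _ fun w _ => (ind_and _ _).symm
  rw [e2, div_eq_iff hE0] at key
  rw [key]
  exact mul_comm _ _

/-- **P2 INSIDE AN EVENT OF THE EXACT POINT**, class of `clsb` -/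
theorem p2RE
    (hU : ∀ I x y y', (∀ j ∈ I, y j = y' j) → (∀ j, D.qb t (y j) = D.qb t (y' j)) → U I x y = U I x y')
    (hs : SatA (D.P h t) (BB D t) N S (LL U) (Dep D t)) (hN : ∀ J ∈ S, 0 ≤ N J)
    (hbc : b ≠ c) (hbd : b ≠ d) (hcd : c ≠ d) (hK3 : ∀ j, j = b ∨ j = c ∨ j = d)
    (h0S : ∅ ∈ S) (hbS : {b} ∈ S) (hdS : {d} ∈ S) (heS : univ.erase d ∈ S) (hNb : 0 < N {b}) (hNd : 0 < N {d})
    (hNe : 0 < N (univ.erase d)) (hp : PubC D t U V1) (hw1 : V1 w0) (hw0 : (D.P h t).p w0 ≠ 0)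
    {E : Pt K X β φ → Prop} (hE : Fac (Ah D t {b}) E) (hEw : E w0)
    {Typ : β → υ → Prop} {M : ℝ} (hM : ∀ c', ∃ s : Finset υ, (s.card : ℝ) ≤ M ∧ ∀ u, Typ c' u → u ∈ s)
    {R0 ep L : ℝ} {k : ℕ} (hk : 0 < k) (hep : 0 < ep) (hep2 : ep ≤ 1 / 2) (hR0 : Real.log (1 / ep) ≤ R0)
    (hL : Real.log (1 / ((D.P h t).cond (clsb U V1 b w0)).Pr E) ≤ L)
    (hR1 : Real.log (1 / al) ≤ R0)
    (hkR : N (univ.erase d) / (2 * N {b}) * (R0 + L / (N (univ.erase d) / (2 * N {b}))) ≤ 2 * k) :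
    (((D.P h t).cond (clsb U V1 b w0)).cond E).I (fun w => fc (zt U Typ c w) (w.2.2 d))
        (fun w => ((w.2.1 d, U {d} w.1 w.2.1), w.2.2 c)) (zt U Typ c) +
      (((D.P h t).cond (clsb U V1 b w0)).cond E).klc ((D.P h t).cond (clsb U V1 b w0))
        (fun w => fc (zt U Typ c w) (w.2.2 d)) (zt U Typ c) ≤
      L / (N (univ.erase d) / (2 * N {b})) +
        2 * ((2 * N ∅ * (Real.log (1 / own h t U V1 b w0) + L + 1) +
          2 * N ∅ * (k * Real.log ((M + 1) * (1 / al + 1)))) / N {d} + Real.log (1 / al) + 3) /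
          (N (univ.erase d) / (2 * N {b})) +
        N (univ.erase d) / (2 * N {b}) * (R0 + L / (N (univ.erase d) / (2 * N {b}))) ^ 2 / (2 * k) + 2 * ep := by
  classical
  obtain ⟨f1, f2, f3, f4⟩ := clsb_facts (b := b) hp hw1
  have hcl : ∀ l : K, ∃ j, j ≠ l := by
    intro l
    by_cases hl : b = l
    · exact ⟨c, fun hh => hbc (hl.trans hh.symm)⟩
    · exact ⟨b, hl⟩
  have hVA := clsb_Ah (b := b) (w0 := w0) hU hp hcl
  have hK : ∀ j, j ≠ c → j ≠ d → j ∈ ({b} : Finset K) := by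
    intro j h1 h2
    rw [Finset.mem_singleton]
    rcases hK3 j with h3 | h3 | h3
    · exact h3
    · exact absurd h3 h1
    · exact absurd h3 h2
  have hV0 : (D.P h t).Pr (clsb U V1 b w0) ≠ 0 := (FP.Pr_pos_of (S := clsb U V1 b w0) hw0 f1).ne'
  have hV10 : (D.P h t).Pr V1 ≠ 0 := (FP.Pr_pos_of (S := V1) hw0 hw1).ne'
  have hw01 : ((D.P h t).cond V1).p w0 ≠ 0 := (FP.cond_p_ne hV10).2 ⟨hw1, hw0⟩
  -- the class with the event
  set VE : Pt K X β φ → Prop := fun v => clsb U V1 b w0 v ∧ E v with hVE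
  have g1 : VE w0 := ⟨f1, hEw⟩
  have gA : Fac (Ah D t {b}) VE := fun v w hvw => by
    show (clsb U V1 b w0 v ∧ E v) = (clsb U V1 b w0 w ∧ E w)
    rw [hVA v w hvw, hE v w hvw]
  have g3 : ∀ v w, VE v → VE w → BB D t {b} v = BB D t {b} w := fun v w hv hw => f3 v w hv.1 hw.1
  have hVE0 : (D.P h t).Pr VE ≠ 0 := (FP.Pr_pos_of (S := VE) hw0 g1).ne'
  have hcc : ((D.P h t).cond (clsb U V1 b w0)).cond E = (D.P h t).cond VE := FP.cond_cond hVE0
  have hE00 : ((D.P h t).cond V1).Pr (fun w => U {b} w.1 w0.2.1 = U {b} w0.1 w0.2.1 ∧ E (w.1, w0.2)) ≠ 0 :=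
    (FP.Pr_pos_of (S := fun w => U {b} w.1 w0.2.1 = U {b} w0.1 w0.2.1 ∧ E (w.1, w0.2)) hw01 ⟨rfl, hEw⟩).ne'
  have hE1 : ∀ x, VE (x, w0.2) ↔ V1 (x, w0.2) ∧ (U {b} x w0.2.1 = U {b} w0.1 w0.2.1 ∧ E (x, w0.2)) := fun x =>
    ⟨fun hh => ⟨hh.1.1, hh.1.2.2, hh.2⟩, fun hh => ⟨⟨hh.1, rfl, hh.2.1⟩, hh.2.2⟩⟩
  set Q := (D.P h t).cond (clsb U V1 b w0) with hQ
  have hQE0 : Q.Pr E ≠ 0 := (FP.Pr_pos_of (S := E) ((FP.cond_p_ne hV0).2 ⟨f1, hw0⟩) hEw).ne'
  have hm : 0 < N (univ.erase d) / (2 * N {b}) := by positivity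
  have hal := h.pos
  have hacE : (Q.cond E).Ac Q := FP.cond_ac _ _
  -- the letters in the class
  have hnode : ∀ w, Q.p w ≠ 0 → ∀ j, D.qb t (w.2.1 j) = D.qb t (w0.2.1 j) := fun w hw =>
    (inBox_bxs.1 (supp_cls h f3 f1 hV0 hw).1).2
  have hupd : ∀ (e : K) (w : Pt K X β φ), Q.p w ≠ 0 →
      U {e} w.1 (Function.update w0.2.1 e (w.2.1 e)) = U {e} w.1 w.2.1 := by
    intro e w hw
    refine hU {e} w.1 _ _ (fun j hj => ?_) fun j => ?_
    · rw [Finset.mem_singleton.1 hj, Function.update_self]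
    · by_cases hje : j = e
      · subst hje; rw [Function.update_self]
      · rw [Function.update_of_ne hje]; exact (hnode w hw j).symm
  have hz : ∀ w, Q.p w ≠ 0 → zt U Typ c w = zc U Typ c w0.2.1 w.1 (w.2.1 c) := by
    intro w hw
    unfold zt zc
    rw [hupd c w hw]
  have hud : ∀ w, Q.p w ≠ 0 → ((w.2.1 d, U {d} w.1 w.2.1) : β × υ) = ud U d w0.2.1 w.1 (w.2.1 d) := by
    intro w hw
    unfold ud
    rw [hupd d w hw]
  -- change of the letters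
  have e0 : (Q.cond E).I (fun w => fc (zt U Typ c w) (w.2.2 d)) (fun w => ((w.2.1 d, U {d} w.1 w.2.1), w.2.2 c)) (zt U Typ c) =
      (Q.cond E).I (fun w => fc (zc U Typ c w0.2.1 w.1 (w.2.1 c)) (w.2.2 d))
        (fun w => (ud U d w0.2.1 w.1 (w.2.1 d), w.2.2 c)) (fun w => zc U Typ c w0.2.1 w.1 (w.2.1 c)) := by
    refine I_congr_eq (fun v hv => by rw [hz v (hacE v hv)]) (fun v hv => ?_) fun v hv => hz v (hacE v hv)
    show ((v.2.1 d, U {d} v.1 v.2.1), v.2.2 c) = (ud U d w0.2.1 v.1 (v.2.1 d), v.2.2 c)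
    rw [hud v (hacE v hv)]
  have e1 : (Q.cond E).klc Q (fun w => fc (zt U Typ c w) (w.2.2 d)) (zt U Typ c) =
      (Q.cond E).klc Q (fun w => fc (zc U Typ c w0.2.1 w.1 (w.2.1 c)) (w.2.2 d)) (fun w => zc U Typ c w0.2.1 w.1 (w.2.1 c)) :=
    klc_congr_eq hacE (fun v hv => by rw [hz v hv]) fun v hv => hz v hv
  rw [e0, e1]
  have hdK := split_coins (Q.cond E) (uS (bxs D t {b} w0.2.1 c) (bxs_ne t {b} w0.2.1 c)) (coinF h t d) k
    (fun w => ud U d w0.2.1 w.1 (w.2.1 d)) (fun w => gs D t U Typ c d w0.2.1 w)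
    (fun cs => by
      rw [hcc]
      exact hd_fix h hU hs hN hNd hbd hp.fac hp.nod hp.let0 hw1 hV10 h0S hdS gA g3 g1 hVE0 hM cs
        (E0 := fun x => U {b} x w0.2.1 = U {b} w0.1 w0.2.1 ∧ E (x, w0.2)) hE1 hE00 hcl (c := c))
  have hdl : (2 * N ∅ * (Real.log (1 / ((D.P h t).cond V1).Pr
      (fun w => U {b} w.1 w0.2.1 = U {b} w0.1 w0.2.1 ∧ E (w.1, w0.2))) + 1) +
      2 * N ∅ * (k * Real.log ((M + 1) * (1 / al + 1)))) / N {d} ≤
      (2 * N ∅ * (Real.log (1 / own h t U V1 b w0) + L + 1) +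
      2 * N ∅ * (k * Real.log ((M + 1) * (1 / al + 1)))) / N {d} := by
    have h1 : Real.log (1 / ((D.P h t).cond V1).Pr
        (fun w => U {b} w.1 w0.2.1 = U {b} w0.1 w0.2.1 ∧ E (w.1, w0.2))) ≤ Real.log (1 / own h t U V1 b w0) + L := by
      rw [own_in h hU (fun hh => hbd hh.symm) hp hcl hw1 hw0 hE]
      have h2 : 0 < own h t U V1 b w0 := own_pos h hw1 hw0
      have h3 : 0 < Q.Pr E := lt_of_le_of_ne (Q.Pr_nonneg _) (Ne.symm hQE0)
      rw [one_div, mul_inv, Real.log_mul (inv_pos.2 h2).ne' (inv_pos.2 h3).ne', ← one_div, ← one_div]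
      linarith
    refine div_le_div_of_nonneg_right ?_ hNd.le
    have := mul_le_mul_of_nonneg_left h1 (show 0 ≤ 2 * N ∅ by have := hN ∅ h0S; linarith)
    linarith
  have hL0 : 0 ≤ L := by
    refine le_trans (Real.log_nonneg ?_) hL
    have h3 : 0 < Q.Pr E := lt_of_le_of_ne (Q.Pr_nonneg _) (Ne.symm hQE0)
    rw [le_div_iff₀ h3, one_mul]
    exact Q.Pr_le_one _
  have hHc : (Q.cond E).Hc (fun w => w.2.2 c) (fun w => ud U d w0.2.1 w.1 (w.2.1 d)) ≤ Real.log (1 / al) := by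
    rw [hcc]
    exact HcF h g3 g1 hVE0 hK _ fun v w _ _ hvw => congrArg Prod.fst hvw
  have key := p2E (Q := Q) (E := E) (A := Ah D t {b}) (g := gs D t U Typ c d w0.2.1)
    (F := fun w => fc (zc U Typ c w0.2.1 w.1 (w.2.1 c)) (w.2.2 d)) (Z := fun w => zc U Typ c w0.2.1 w.1 (w.2.1 c))
    (Yl := fun w => ud U d w0.2.1 w.1 (w.2.1 d)) (Yf := fun w => w.2.2 c)
    (R := FP.pr (uS (bxs D t {b} w0.2.1 c) (bxs_ne t {b} w0.2.1 c)) (coinF h t d))
    hE hQE0 hk hm hL0 hL hep hep2 hR0 ?_ ?_ ?_ hkR ?_ (hdK.trans hdl) hHc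
  · exact key
  · intro w hw
    have h1 := thickF h hVA f3 f1 hV0 hcd hK (hal_one h b) U Typ hw
    have h2 : 1 / al ≤ Real.exp R0 := by
      have := Real.exp_le_exp.2 hR1
      rwa [Real.exp_log (by positivity)] at this
    have h3 := Q.m_nonneg (fun w => (fc (zc U Typ c w0.2.1 w.1 (w.2.1 c)) (w.2.2 d), zc U Typ c w0.2.1 w.1 (w.2.1 c))) w
    calc Q.m (fun w => zc U Typ c w0.2.1 w.1 (w.2.1 c)) w = 1 / al * (al * Q.m (fun w => zc U Typ c w0.2.1 w.1 (w.2.1 c)) w) := by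
          field_simp
      _ ≤ 1 / al * Q.m (fun w => (fc (zc U Typ c w0.2.1 w.1 (w.2.1 c)) (w.2.2 d), zc U Typ c w0.2.1 w.1 (w.2.1 c))) w :=
          mul_le_mul_of_nonneg_left h1 (by positivity)
      _ ≤ _ := mul_le_mul_of_nonneg_right h2 h3
  · intro f v hv
    rw [hcc] at hv ⊢
    exact samp h gA g3 g1 hVE0 hcd hK U Typ f hv
  · intro f
    rw [hcc]
    exact row_indep h gA g3 g1 hVE0 hcd hK (fun x y F => (ud U d w0.2.1 x y, F))
      (fun x y F => (fc (zc U Typ c w0.2.1 x y) F, zc U Typ c w0.2.1 x y)) (fun y x => f y.1 y.2 x)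
  · intro S1 psi hS1 hS10 hpsi hone
    exact sat_p2 h hU hs hN hbc hbd hcd hK3 f2 f3 f4 f1 hV0 hbS heS hNb Typ hS1 hS10 hpsi hone

end cls

end P2ER

end Pool.Agent.GMH
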