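import Pool.Agent.GMH.BitKL
import Pool.Agent.GMH.P2ER

/-!
# GMH.BitDev: deviations and deletions of a bit of one exact vertex (helper89; H3.REL R.4, R.5, R.6)

Setting of `GMH.BitKL`: `|K| = 3`, saturated state, `V` = event of (hidden point, exact point of `b`) inside the class
`clsb U (pub0 D t U w0) b w0`, `Lb V <= L`; faces `Fc i w = w.2.2 i`, own lower letters `Zo i`, `W` = a map which inside the
class has the fibres of (point and letter of `c`, point and letter of `d`) (`Wb`); `0 <= al <= 1` lives on typical letters of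
`c` and `d`.
* `kap1`, `kap2`, `kap3`, `kapc`, `kapd` : the five relative entropies; two logarithms: `Lb V <= Lo` (surprise from the public
  class and the exact point, contains the own letter; only over the prices of the letters), `log (1 / QC V) <= L` (surprise
  inside the class);
* `sw1`, `sw2`, `sw3`, `sw_bit` : the three swaps inside `V`;
* `del_one`, `del_two` : test functions of (point and letter of `c`; point and label `Tl` of `d`) inside `V` and in the class;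
* `dev_fin` : **the deviation of the tops**, `TV3_bit` : the tuple law inside `V`;
* `del_all` : deletion for test functions of (tops, `W`); `dev_any` : deviation from the conditional mean over ANY map
  between (class, `a`) and (tops, `W`).
-/

set_option autoImplicit false
set_option linter.unusedSectionVars false

namespace Pool.Agent.GMH

open Finset Pool.Agent.PWZ Pool.Agent.M3 Pool.Agent.GM Pool.Agent.GM.Harm

section gen

variable {Om : Type*} [Fintype Om] {Q P P' : FP Om} {κ κ' ι ι' ζ ζ' : Type*} {X : Om → κ} {Y : Om → ι} {Z : Om → ζ}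

/-- another law of reference -/
theorem E_al_conv (hac' : Q.Ac P') {al : Om → ℝ} (h0 : ∀ w, 0 ≤ al w) (h1 : ∀ w, al w ≤ 1)
    {X' : Om → κ'} {Y' : Om → ι'} {Z' : Om → ζ'} (hYZ' : Fac Y' Z')
    (heq : ∀ w, Q.p w ≠ 0 → al w ≠ 0 → tvp Q P X Y Z w = tvp Q P' X' Y' Z' w) {kap : ℝ}
    (hk : Q.klc P' X' Z' + Q.I X' Y' Z' ≤ kap) : Q.E (fun w => al w * tvp Q P X Y Z w) ≤ Real.sqrt (2 * kap) := by
  refine le_trans (le_of_eq ?_) (E_al_tvp_le (X := X') hac' hYZ' h0 h1 hk)
  refine Q.E_congr fun w hw => ?_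
  by_cases h : al w = 0
  · rw [h, zero_mul, zero_mul]
  · rw [heq w hw h]

/-- to the law of a class, with truncated letters -/
theorem tvp_conv {X' : Om → κ'} {Y' : Om → ι'} {Z' : Om → ζ'} {C0 : Om → Prop} (hC : Fac Z C0) (hC0 : P.Pr C0 ≠ 0)
    (hac : Q.Ac (P.cond C0)) (hYZ : Fac Y Z) {w : Om} (hw : C0 w)
    (hz : ∀ v, (P.cond C0).p v ≠ 0 → (Z v = Z w ↔ Z' v = Z' w)) (hy : ∀ v, Q.p v ≠ 0 → (Y v = Y w ↔ Y' v = Y' w))
    {e : κ → κ'} (he : Function.Injective e) (hx : ∀ v, (P.cond C0).p v ≠ 0 → Z v = Z w → X' v = e (X v)) :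
    tvp Q P X Y Z w = tvp Q (P.cond C0) X' Y' Z' w := by
  rw [← tvp_trunc hac hYZ hz hy he hx]
  unfold tvp
  refine Finset.sum_congr rfl fun f _ => ?_
  rw [cond_pv hC hC0 X hw f]

/-- conditioning on an independent event -/
theorem cond_ind {R : FP Om} {κ0 τ : Type*} {Y0 : Om → κ0} {T : Om → τ} (hI : R.Indep Y0 T) {A : Om → Prop}
    (hA : Fac Y0 A) (hA0 : R.Pr A ≠ 0) {g : Om → ℝ} (hg : Fac T g) : (R.cond A).E g = R.E g := by
  rw [FP.cond_E hA0, hI (fun v => ind (A v)) g (Fac.ind fun v v' hv => by rw [hA v v' hv]) hg]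
  show R.Pr A * R.E g / R.Pr A = R.E g
  rw [mul_div_cancel_left₀ _ hA0]

theorem pv_ind {R : FP Om} {κ0 τ : Type*} {Y0 : Om → κ0} {T : Om → τ} (hI : R.Indep Y0 T) {A : Om → Prop} (hA : Fac Y0 A)
    (hA0 : R.Pr A ≠ 0) {X' : Om → κ} {Z' : Om → ζ} (hX : Fac T X') (hZ : Fac T Z') (eX : ∀ v, R.p v ≠ 0 → X v = X' v)
    (eZ : ∀ v, R.p v ≠ 0 → Z v = Z' v) {w : Om} (hw : R.p w ≠ 0) (f : κ) :
    (R.cond A).pv Z X w f = R.pv Z X w f := by
  have e1 : ∀ g : Om → ℝ, Fac T g → (R.cond A).E g = R.E g := fun g hg => cond_ind hI hA hA0 hg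
  have c1 : (R.cond A).E (fun v => ind (Z v = Z w) * ind (X v = f)) = R.E (fun v => ind (Z v = Z w) * ind (X v = f)) := by
    have k1 : (R.cond A).E (fun v => ind (Z v = Z w) * ind (X v = f)) =
        (R.cond A).E (fun v => ind (Z' v = Z' w) * ind (X' v = f)) :=
      (R.cond A).E_congr fun v hv => by
        have hv' := FP.cond_ac R A v hv
        rw [eZ v hv', eX v hv', eZ w hw]
    have k2 : R.E (fun v => ind (Z v = Z w) * ind (X v = f)) = R.E (fun v => ind (Z' v = Z' w) * ind (X' v = f)) :=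
      R.E_congr fun v hv => by rw [eZ v hv, eX v hv, eZ w hw]
    rw [k1, k2]
    refine e1 _ fun v v' hv => ?_
    have a : Z' v = Z' v' := hZ v v' hv
    have b : X' v = X' v' := hX v v' hv
    show ind (Z' v = Z' w) * ind (X' v = f) = ind (Z' v' = Z' w) * ind (X' v' = f)
    rw [a, b]
  have c2 : (R.cond A).m Z w = R.m Z w := by
    have k1 : (R.cond A).E (fun v => ind (Z v = Z w)) = (R.cond A).E (fun v => ind (Z' v = Z' w)) :=
      (R.cond A).E_congr fun v hv => by rw [eZ v (FP.cond_ac R A v hv), eZ w hw]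
    have k2 : R.E (fun v => ind (Z v = Z w)) = R.E (fun v => ind (Z' v = Z' w)) :=
      R.E_congr fun v hv => by rw [eZ v hv, eZ w hw]
    show (R.cond A).E (fun v => ind (Z v = Z w)) = R.E (fun v => ind (Z v = Z w))
    rw [k1, k2]
    refine e1 _ fun v v' hv => ?_
    have a : Z' v = Z' v' := hZ v v' hv
    show ind (Z' v = Z' w) = ind (Z' v' = Z' w)
    rw [a]
  rw [pv_num, pv_num, c1, c2]

/-- truncated letters: relative entropy -/
theorem klc_trunc {X' : Om → κ'} {Z' : Om → ζ'} (hac : Q.Ac P) {T : Om → Prop} (hT : Fac Z T)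
    (h1 : ∀ v w, P.p v ≠ 0 → P.p w ≠ 0 → T w → (Z' v = Z' w ↔ Z v = Z w))
    (h2 : ∀ v w, P.p v ≠ 0 → P.p w ≠ 0 → T w → Z v = Z w → (X' v = X' w ↔ X v = X w))
    (h3 : ∀ v w, P.p v ≠ 0 → P.p w ≠ 0 → ¬ T w → Z' v = Z' w → X' v = X' w) :
    Q.klc P X' Z' ≤ Q.klc P X Z := by
  classical
  -- fibre by fibre
  have g : ∀ w, Q.p w ≠ 0 → Real.log (Q.m (fun v => (X' v, Z' v)) w / Q.m Z' w / (P.m (fun v => (X' v, Z' v)) w / P.m Z' w)) =
      ind (T w) * Real.log (Q.m (fun v => (X v, Z v)) w / Q.m Z w / (P.m (fun v => (X v, Z v)) w / P.m Z w)) := by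
    intro w hw
    have hp := hac w hw
    have mz : ∀ R : FP Om, R.Ac P → T w → R.m Z' w = R.m Z w := fun R hR hTw =>
      R.E_congr fun v hv => by rw [propext (h1 v w (hR v hv) hp hTw)]
    have mx : ∀ R : FP Om, R.Ac P → T w → R.m (fun v => (X' v, Z' v)) w = R.m (fun v => (X v, Z v)) w := fun R hR hTw =>
      R.E_congr fun v hv => by
        have : ((X' v, Z' v) = (X' w, Z' w)) = ((X v, Z v) = (X w, Z w)) := by
          rw [Prod.mk.injEq, Prod.mk.injEq]
          refine propext ⟨fun hh => ?_, fun hh => ?_⟩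
          · have a := (h1 v w (hR v hv) hp hTw).1 hh.2
            exact ⟨(h2 v w (hR v hv) hp hTw a).1 hh.1, a⟩
          · exact ⟨(h2 v w (hR v hv) hp hTw hh.2).2 hh.1, (h1 v w (hR v hv) hp hTw).2 hh.2⟩
        show ind ((X' v, Z' v) = (X' w, Z' w)) = ind ((X v, Z v) = (X w, Z w))
        rw [this]
    have mo : ∀ R : FP Om, R.Ac P → ¬ T w → R.m (fun v => (X' v, Z' v)) w = R.m Z' w := fun R hR hTw =>
      R.E_congr fun v hv => by
        have : ((X' v, Z' v) = (X' w, Z' w)) = (Z' v = Z' w) := by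
          rw [Prod.mk.injEq]
          exact propext ⟨fun hh => hh.2, fun hh => ⟨h3 v w (hR v hv) hp hTw hh, hh⟩⟩
        show ind ((X' v, Z' v) = (X' w, Z' w)) = ind (Z' v = Z' w)
        rw [this]
    by_cases hTw : T w
    · rw [ind_of hTw, one_mul, mz Q hac hTw, mz P (fun v hv => hv) hTw, mx Q hac hTw, mx P (fun v hv => hv) hTw]
    · rw [ind_not hTw, zero_mul, mo Q hac hTw, mo P (fun v hv => hv) hTw, div_self (Q.m_pos Z' hw).ne',
        div_self (P.m_pos Z' hp).ne', div_one, Real.log_one]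
  have e1 : Q.klc P X' Z' = Q.E (fun w => ind (T w) * Real.log (Q.m (fun v => (X v, Z v)) w / Q.m Z w /
      (P.m (fun v => (X v, Z v)) w / P.m Z w))) := Q.E_congr g
  rw [e1]
  -- outside the set the fibres are nonnegative
  set lr : Om → ℝ := fun w => Real.log (Q.m (fun v => (X v, Z v)) w / Q.m Z w / (P.m (fun v => (X v, Z v)) w / P.m Z w))
    with hlr
  have k : ∀ w, klp Q P X Z Z w = Q.ce Z lr w := by
    intro w
    have a : klp Q P X Z Z w = Q.ce Z (fun u => Real.log (Q.pv Z X u (X u) / P.pv Z X u (X u))) w := by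
      refine Q.sum_pv (W := Z) X (F := fun w f => Real.log (Q.pv Z X w f / P.pv Z X w f)) (fun f v w hvw => ?_) w
      have h1 : Q.pv Z X v f = Q.pv Z X w f := Q.pv_fac Z X f v w hvw
      have h2 : P.pv Z X v f = P.pv Z X w f := P.pv_fac Z X f v w hvw
      show Real.log (Q.pv Z X v f / P.pv Z X v f) = Real.log (Q.pv Z X w f / P.pv Z X w f)
      rw [h1, h2]
    rw [a]
    refine Q.ce_congr (fun u _ => ?_) w
    rw [Q.pv_self, P.pv_self]
  have hT' : Fac Z (fun w => ind (T w)) := Fac.ind fun v w hv => by rw [hT v w hv]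
  have a1 : Q.E (fun w => ind (T w) * lr w) = Q.E (fun w => ind (T w) * klp Q P X Z Z w) := by
    rw [← Q.E_mul_ce hT' lr]
    exact Q.E_congr fun w _ => by rw [k w]
  have a2 : Q.klc P X Z = Q.E (klp Q P X Z Z) := by
    show Q.E lr = _
    rw [← Q.E_ce Z lr]
    exact Q.E_congr fun w _ => (k w).symm
  rw [a1, a2]
  refine Q.E_mono fun w hw => ?_
  have h5 := klp_nonneg (X := X) (Y := Z) (Z := Z) hac (Fac.refl Z) hw
  have h6 := mul_le_mul_of_nonneg_right (ind_le_one (T w)) h5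
  rw [one_mul] at h6
  exact h6

/-- information with the condition repeated -/
theorem I_rep {A : Om → κ'} (R : FP Om) : R.I X (fun w => (A w, Z w)) Z = R.I X A Z := by
  rw [FP.I_eq_Hc, FP.I_eq_Hc]
  congr 1
  refine R.Hc_congr (Fac.fst _ _) ?_ (Fac.fst _ _) ?_
  · intro v w hvw; simp only [Prod.mk.injEq] at hvw ⊢; exact hvw.1
  · intro v w hvw; simp only [Prod.mk.injEq] at hvw ⊢; exact ⟨hvw, hvw.2⟩

/-- from the information about a finer map -/
theorem I_fine {A : Om → κ'} {B : Om → ι'} (R : FP Om) (hB : Fac B (fun w => (X w, Z w))) :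
    R.I X (fun w => (A w, Z w)) Z ≤ R.I A B (fun _ => ()) := by
  rw [I_rep]
  have h1 := R.I_chain X Z A (fun _ => ())
  have h2 : R.I X A (fun w => (Z w, ())) = R.I X A Z :=
    R.I_congr_cond (Fac.fst _ _) ((Fac.refl _).prod (Fac.const _ ()))
  have h3 := R.I_nonneg Z A (fun _ => ())
  have h4 := R.I_mono (X := B) A (Z := fun _ => ()) ((Fac.fst B (fun _ => ())).trans hB)
  rw [R.I_comm A B]
  linarith

/-- a function of `(X, W)` as a test function -/
theorem exists_test1 {W : Om → ι} {g : Om → ℝ} (hg : Fac (fun w => (X w, W w)) g) {a : ℝ} (ha : 0 ≤ a)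
    (hb : ∀ w, |g w| ≤ a) :
    ∃ h : Om → κ → ℝ, (∀ f, Fac W (fun w => h w f)) ∧ (∀ w f, |h w f| ≤ a) ∧ ∀ w, h w (X w) = g w := by
  classical
  set G : ι → κ → ℝ := fun x f => if hx : ∃ u, X u = f ∧ W u = x then g hx.choose else 0 with hG
  refine ⟨fun w f => G (W w) f, fun f v w hvw => ?_, fun w f => ?_, fun w => ?_⟩
  · show G (W v) f = G (W w) f
    rw [hvw]
  · show |G (W w) f| ≤ a
    simp only [hG]
    split_ifs with hx
    · exact hb _
    · rw [abs_zero]; exact ha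
  · show G (W w) (X w) = g w
    have hx : ∃ u, X u = X w ∧ W u = W w := ⟨w, rfl, rfl⟩
    simp only [hG]
    rw [dif_pos hx]
    have h2 := hx.choose_spec
    exact hg _ _ (by rw [Prod.mk.injEq]; exact h2)

/-- a function on a set, as a function of `T` -/
theorem exists_supp {τ : Type*} {A : Om → Prop} {T : Om → τ} {f : Om → ℝ}
    (hf : ∀ u v, A u → A v → T u = T v → f u = f v) {a : ℝ} (ha : 0 ≤ a) (hb : ∀ u, A u → |f u| ≤ a) :
    ∃ f' : Om → ℝ, Fac T f' ∧ (∀ w, |f' w| ≤ a) ∧ ∀ u, A u → f' u = f u := by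
  classical
  set G : τ → ℝ := fun x => if hx : ∃ u, A u ∧ T u = x then f hx.choose else 0 with hG
  refine ⟨fun w => G (T w), fun v w hvw => ?_, fun w => ?_, fun w hw => ?_⟩
  · show G (T v) = G (T w)
    rw [hvw]
  · show |G (T w)| ≤ a
    simp only [hG]
    split_ifs with hx
    · exact hb _ hx.choose_spec.1
    · rw [abs_zero]; exact ha
  · have hx : ∃ u, A u ∧ T u = T w := ⟨w, hw, rfl⟩
    show G (T w) = f w
    simp only [hG]
    rw [dif_pos hx]
    exact hf _ _ hx.choose_spec.1 hw hx.choose_spec.2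

theorem klc_one (hac : Q.Ac P) (X : Om → κ) : Q.klc P X (fun _ => ()) = Q.kl P X := by
  rw [klc_eq hac, FP.kl_congr hac (X := fun w => (X w, ())) (Y := X) (Fac.fst _ _) ((Fac.refl _).prod (Fac.const _ ()))]
  have : Q.kl P (fun _ => ()) = 0 := by
    unfold FP.kl
    have e : ∀ R : FP Om, ∀ w, R.m (fun _ : Om => ()) w = 1 := by
      intro R w
      show R.E (fun v => ind (() = ())) = 1
      rw [show (fun _ : Om => ind (() = ())) = fun _ => (1 : ℝ) from funext fun _ => ind_of rfl]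
      exact R.E_const 1
    rw [show (fun w => Real.log (Q.m (fun _ : Om => ()) w / P.m (fun _ : Om => ()) w)) = fun _ => (0 : ℝ) from
      funext fun w => by rw [e, e, div_one, Real.log_one]]
    exact Q.E_const 0
  rw [this, sub_zero]

/-- **the product of two laws as reference** -/
theorem two_ref (hac : Q.Ac P) {g : Om → κ → ℝ} (hg : ∀ f, Fac Y (fun w => g w f)) (hb : ∀ w f, |g w f| ≤ 1) {kc kd : ℝ}
    (hc : Q.kl P X + Q.I X Y (fun _ => ()) ≤ kc) (hd : Q.kl P Y ≤ kd) :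
    |Q.E (fun w => g w (X w)) - P.E (fun w => ∑ f ∈ vals X, P.pv (fun _ => ()) X w f * g w f)| ≤
      Real.sqrt (2 * kc) + Real.sqrt (2 * kd) := by
  obtain ⟨w1, hw1⟩ := P.exists_p_ne
  set G : Om → ℝ := fun w => ∑ f ∈ vals X, P.pv (fun _ => ()) X w f * g w f with hG
  have hGf : Fac Y G := by
    intro v w hvw
    show ∑ f ∈ vals X, P.pv (fun _ => ()) X v f * g v f = ∑ f ∈ vals X, P.pv (fun _ => ()) X w f * g w f
    refine Finset.sum_congr rfl fun f _ => ?_
    have a : g v f = g w f := hg f v w hvw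
    have b : P.pv (fun _ => ()) X v f = P.pv (fun _ => ()) X w f := P.pv_fac (fun _ => ()) X f v w rfl
    rw [a, b]
  have hGb : ∀ w, |G w| ≤ 1 := by
    intro w
    have e : G w = ∑ f ∈ vals X, P.pv (fun _ => ()) X w1 f * g w f := by
      refine Finset.sum_congr rfl fun f _ => ?_
      have b : P.pv (fun _ => ()) X w f = P.pv (fun _ => ()) X w1 f := P.pv_fac (fun _ => ()) X f w w1 rfl
      rw [b]
    rw [e]
    exact pv_abs_sum hw1 fun x => hb w x
  have k1 := swap_one (Q := Q) (P := P) (X := X) (Y := Y) (Z := fun _ => ()) (al := fun _ => 1) (fun _ _ _ => rfl)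
    (fun _ => zero_le_one) hg (fun w _ f => hb w f)
  have k2 := E_al_tvp_le (Q := Q) (P := P) (X := X) (Y := Y) (Z := fun _ => ()) (al := fun _ => 1) hac
    (Fac.const Y ()) (fun _ => zero_le_one) (fun _ => le_refl _) (kap := kc) (by rw [klc_one hac]; exact hc)
  have k3 := FP.pinsker_test hac hGf hGb
  have k4 : Real.sqrt (2 * Q.kl P Y) ≤ Real.sqrt (2 * kd) := Real.sqrt_le_sqrt (by linarith)
  simp only [one_mul] at k1 k2 k3
  have k5 := abs_sub_le (Q.E (fun w => g w (X w))) (Q.E G) (P.E G)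
  have k6 : |Q.E (fun w => g w (X w)) - Q.E G| ≤ Real.sqrt (2 * kc) := k1.trans k2
  linarith

end gen

section bit

variable {K X β γ φ υ ι : Type} [Fintype K] [DecidableEq K] [Fintype X] [Fintype β] [Fintype φ] [Nonempty X] [Nonempty β]
  {D : HD K X β γ φ} {al : ℝ} {h : D.Thick al} {N : Finset K → ℝ} {S : Finset (Finset K)}
  {U : Finset K → X → (K → β) → υ} {t : ℕ} {b c d : K} {w0 : Pt K X β φ} {V : Pt K X β φ → Prop}

theorem pair_iff {α1 α2 : Type*} {a a' : α1} {b b' : α2} : ((a, b) : α1 × α2) = (a', b') ↔ a = a' ∧ b = b' := by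
  rw [Prod.mk.injEq]

/-- own lower letters of the face without `i` -/
noncomputable def Zo (D : HD K X β γ φ) (U : Finset K → X → (K → β) → υ) (t : ℕ) (i : K) (w : Pt K X β φ) :
    (Finset K → Option (υ × (K → Option φ))) × ((K → Option β) × (γ × (K → γ))) :=
  (lo (LL U) (univ.erase i) w, BB D t (univ.erase i) w)

/-- label of the face without `i` -/
def Fc (i : K) (w : Pt K X β φ) : φ := w.2.2 i

/-- lower letters seen from above -/
theorem lo_le {I J : Finset K} (hIJ : I ⊂ J) :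
    Fac (fun w => (lo (LL U) J w, BB D t J w)) (fun w : Pt K X β φ => (le (LL U) I w, BB D t I w)) := by
  intro v w hvw
  simp only [Prod.mk.injEq, lo_eq, le_eq, BB_eq] at hvw ⊢
  exact ⟨fun I' hI' => hvw.1 I' (lt_of_le_of_lt hI' hIJ), fun j hj => hvw.2.1 j (hIJ.1 hj), hvw.2.2⟩

/-- a map of all lower letters, seen inside the class -/
structure Wb (h : D.Thick al) (U : Finset K → X → (K → β) → υ) (t : ℕ) (b c d : K) (w0 : Pt K X β φ)
    (W : Pt K X β φ → ι) : Prop where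
  zb : ∀ i, Fac W (Zo D U t i)
  fib : ∀ v w, (D.P h t).p v ≠ 0 → (D.P h t).p w ≠ 0 → clsb U (pub0 D t U w0) b w0 v → clsb U (pub0 D t U w0) b w0 w →
    zf U c v = zf U c w → zf U d v = zf U d w → W v = W w

variable {W : Pt K X β φ → ι}

theorem Bk.sing_ss (B : Bk h N S U t b c d) : ({b} : Finset K) ⊂ univ.erase c := by
  rw [Finset.ssubset_iff_of_subset (Finset.singleton_subset_iff.2 (Finset.mem_erase.2 ⟨B.bc, mem_univ b⟩))]
  exact ⟨d, Finset.mem_erase.2 ⟨B.cd.symm, mem_univ d⟩, fun hh => B.bd (Finset.mem_singleton.1 hh).symm⟩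

/-- the class is a function of the lower letters -/
theorem cls_Zc (B : Bk h N S U t b c d) : Fac (Zo D U t c) (clsb U (pub0 D t U w0) b w0) :=
  (lo_le (D := D) (U := U) (t := t) B.sing_ss).trans (clsb_facts (b := b) (pub0_C w0) rfl).2.1

theorem pub_Zb (B : Bk h N S U t b c d) : Fac (Zo D U t b) (pub0 D t U w0) := by
  have h1 : (∅ : Finset K) ⊂ univ.erase b := by
    rw [Finset.empty_ssubset]
    exact ⟨c, Finset.mem_erase.2 ⟨B.bc.symm, mem_univ c⟩⟩
  exact (lo_le (D := D) (U := U) (t := t) h1).trans (pub0_C w0).fac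

theorem Wb.cls (Hw : Wb h U t b c d w0 W) (B : Bk h N S U t b c d) : Fac W (clsb U (pub0 D t U w0) b w0) :=
  (Hw.zb c).trans (cls_Zc B)

/-- two points of the class -/
theorem cls_two {v w : Pt K X β φ} (hv : clsb U (pub0 D t U w0) b w0 v)
    (hw : clsb U (pub0 D t U w0) b w0 w) :
    BB D t ∅ v = BB D t ∅ w ∧ U ∅ v.1 v.2.1 = U ∅ w.1 w.2.1 ∧ zf U b v = zf U b w := by
  have hp := pub0_C (D := D) (t := t) (U := U) w0
  refine ⟨hp.nod v w hv.1 hw.1, hp.let0 v w hv.1 hw.1, ?_⟩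
  unfold zf
  rw [hv.2.1, hw.2.1, hv.2.2, hw.2.2]

/-- fibres of the own lower letters of the face without `c` -/
theorem fibC (B : Bk h N S U t b c d) {v w : Pt K X β φ} (hv : clsb U (pub0 D t U w0) b w0 v)
    (hw : clsb U (pub0 D t U w0) b w0 w) : Zo D U t c v = Zo D U t c w ↔ zf U d v = zf U d w := by
  obtain ⟨h1, h2, h3⟩ := cls_two hv hw
  have := fib2 (D := D) (t := t) (U := U) B.bd B.bc B.cd.symm (fun j => by
    rcases B.all j with h | h | h
    · exact Or.inl h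
    · exact Or.inr (Or.inr h)
    · exact Or.inr (Or.inl h)) h1 h2
  unfold Zo
  rw [this]
  exact ⟨fun hh => hh.2, fun hh => ⟨h3, hh⟩⟩

/-- fibres of all lower letters -/
theorem Wb.iff (Hw : Wb h U t b c d w0 W) (B : Bk h N S U t b c d) {v w : Pt K X β φ}
    (pv : (D.P h t).p v ≠ 0) (pw : (D.P h t).p w ≠ 0) (hv : clsb U (pub0 D t U w0) b w0 v)
    (hw : clsb U (pub0 D t U w0) b w0 w) : W v = W w ↔ zf U c v = zf U c w ∧ zf U d v = zf U d w := by
  refine ⟨fun hh => ⟨?_, (fibC B hv hw).1 (Hw.zb c v w hh)⟩, fun hh => Hw.fib v w pv pw hv hw hh.1 hh.2⟩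
  exact (fibC B.swap hv hw).1 (Hw.zb d v w hh)

theorem Ib.lC (B : Bk h N S U t b c d) (I : Ib h U t b w0 V) :
    Real.log (1 / (QC h U t b w0).Pr V) ≤ Lb h U t b w0 V := by
  have h1 : QC h U t b w0 = (QB h U t b w0).cond (clsb U (pub0 D t U w0) b w0) := (I.cls B).condB.symm
  have h2 : (QB h U t b w0).Pr V ≤ (QC h U t b w0).Pr V := by
    rw [h1]
    show _ ≤ ((QB h U t b w0).cond (clsb U (pub0 D t U w0) b w0)).E (fun v => ind (V v))
    rw [FP.cond_E (I.cls B).neB, le_div_iff₀ (lt_of_le_of_ne ((QB h U t b w0).Pr_nonneg _) (I.cls B).neB.symm)]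
    have h3 : (QB h U t b w0).E (fun v => ind (clsb U (pub0 D t U w0) b w0 v) * ind (V v)) = (QB h U t b w0).Pr V := by
      refine (QB h U t b w0).E_congr fun v _ => ?_
      by_cases hv : V v
      · rw [ind_of hv, ind_of (I.sub v hv), one_mul]
      · rw [ind_not hv, mul_zero]
    rw [h3]
    exact mul_le_of_le_one_right ((QB h U t b w0).Pr_nonneg _) ((QB h U t b w0).Pr_le_one _)
  have h0 : 0 < (QB h U t b w0).Pr V := lt_of_le_of_ne ((QB h U t b w0).Pr_nonneg _) I.neB.symm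
  unfold Lb
  exact Real.log_le_log (one_div_pos.2 (lt_of_lt_of_le h0 h2)) (one_div_le_one_div_of_le h0 h2)

/-- the class has the smaller surprise -/
theorem Ib.lcls (I : Ib h U t b w0 V) :
    Lb h U t b w0 (clsb U (pub0 D t U w0) b w0) ≤ Lb h U t b w0 V := by
  have h0 : 0 < (QB h U t b w0).Pr V := lt_of_le_of_ne ((QB h U t b w0).Pr_nonneg _) I.neB.symm
  have h2 : (QB h U t b w0).Pr V ≤ (QB h U t b w0).Pr (clsb U (pub0 D t U w0) b w0) :=
    (QB h U t b w0).Pr_mono fun v _ hv => I.sub v hv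
  unfold Lb
  exact Real.log_le_log (one_div_pos.2 (lt_of_lt_of_le h0 h2)) (one_div_le_one_div_of_le h0 h2)

/-- the class has the smaller surprise, relative to itself -/
theorem Ib.lcC (I : Ib h U t b w0 V) :
    Real.log (1 / (QC h U t b w0).Pr (clsb U (pub0 D t U w0) b w0)) ≤ Real.log (1 / (QC h U t b w0).Pr V) := by
  have h0 : 0 < (QC h U t b w0).Pr V := lt_of_le_of_ne ((QC h U t b w0).Pr_nonneg _) I.neC.symm
  have h2 : (QC h U t b w0).Pr V ≤ (QC h U t b w0).Pr (clsb U (pub0 D t U w0) b w0) :=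
    (QC h U t b w0).Pr_mono fun v _ hv => I.sub v hv
  exact Real.log_le_log (one_div_pos.2 (lt_of_lt_of_le h0 h2)) (one_div_le_one_div_of_le h0 h2)

/-- truncated letters, on typical ones -/
theorem zt_iff {Typ : β → υ → Prop} {e : K} {v w : Pt K X β φ} (hw : Typ (w.2.1 e) (U {e} w.1 w.2.1)) :
    zt U Typ e v = zt U Typ e w ↔ zf U e v = zf U e w := by
  unfold zt zf tru
  rw [if_pos hw, Prod.mk.injEq, Prod.mk.injEq]
  constructor
  · rintro ⟨h1, h2⟩
    refine ⟨h1, ?_⟩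
    split_ifs at h2 with h3
    · exact Option.some_injective _ h2
  · rintro ⟨h1, h2⟩
    refine ⟨h1, ?_⟩
    rw [if_pos (by rw [h1, h2]; exact hw), h2]

theorem fc_pos {Typ : β → υ → Prop} {e : K} {v : Pt K X β φ} (hv : Typ (v.2.1 e) (U {e} v.1 v.2.1)) (F : φ) :
    fc (zt U Typ e v) F = some F := by
  unfold fc zt tru
  rw [if_pos hv]
  rfl

theorem fc_neg {Typ : β → υ → Prop} {e : K} {v : Pt K X β φ} (hv : ¬ Typ (v.2.1 e) (U {e} v.1 v.2.1)) (F : φ) :
    fc (zt U Typ e v) F = none := by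
  unfold fc zt tru
  rw [if_neg hv]
  rfl

/-- typicality is a function of point and letter -/
theorem typ_zf {Typ : β → υ → Prop} {e : K} : Fac (zf U e) (fun v : Pt K X β φ => Typ (v.2.1 e) (U {e} v.1 v.2.1)) := by
  intro v w hvw
  unfold zf at hvw
  rw [Prod.mk.injEq] at hvw
  show Typ (v.2.1 e) (U {e} v.1 v.2.1) = Typ (w.2.1 e) (U {e} w.1 w.2.1)
  rw [hvw.1, hvw.2]

theorem typ_of {Typ : β → υ → Prop} {e : K} {v w : Pt K X β φ} (hvw : zf U e v = zf U e w)
    (hw : Typ (w.2.1 e) (U {e} w.1 w.2.1)) : Typ (v.2.1 e) (U {e} v.1 v.2.1) :=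
  (iff_of_eq (typ_zf (Typ := Typ) v w hvw)).2 hw

theorem typ_zt {Typ : β → υ → Prop} {e : K} {v w : Pt K X β φ} (hvw : zt U Typ e v = zt U Typ e w) :
    Typ (v.2.1 e) (U {e} v.1 v.2.1) ↔ Typ (w.2.1 e) (U {e} w.1 w.2.1) := by
  unfold zt tru at hvw
  rw [Prod.mk.injEq] at hvw
  have h2 := hvw.2
  by_cases h3 : Typ (v.2.1 e) (U {e} v.1 v.2.1)
  · rw [if_pos h3] at h2
    split_ifs at h2 with h4
    exact ⟨fun _ => h4, fun _ => h3⟩
  · rw [if_neg h3] at h2
    split_ifs at h2 with h4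
    exact ⟨fun hh => absurd hh h3, fun hh => absurd hh h4⟩

/-- relative entropy of truncated letters -/
theorem klc_tr {Q P : FP (Pt K X β φ)} (hac : Q.Ac P) (Typ : β → υ → Prop) (e l : K) :
    Q.klc P (fun w => fc (zt U Typ e w) (w.2.2 l)) (zt U Typ e) ≤ Q.klc P (fun w => w.2.2 l) (zf U e) := by
  refine klc_trunc hac (T := fun v => Typ (v.2.1 e) (U {e} v.1 v.2.1)) typ_zf ?_ ?_ ?_
  · intro v w _ _ hT
    exact zt_iff hT
  · intro v w _ _ hT hz
    have hTv := typ_of hz hT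
    show fc (zt U Typ e v) (v.2.2 l) = fc (zt U Typ e w) (w.2.2 l) ↔ v.2.2 l = w.2.2 l
    rw [fc_pos hTv, fc_pos hT]
    exact ⟨fun hh => Option.some_injective _ hh, fun hh => by rw [hh]⟩
  · intro v w _ _ hT hz
    have hTv : ¬ Typ (v.2.1 e) (U {e} v.1 v.2.1) := fun hh => hT ((typ_zt hz).1 hh)
    show fc (zt U Typ e v) (v.2.2 l) = fc (zt U Typ e w) (w.2.2 l)
    rw [fc_neg hTv, fc_neg hT]

/-- exact relative entropy -/
noncomputable def kap1 (N : Finset K → ℝ) (al M : ℝ) (b c : K) (Lo L : ℝ) : ℝ :=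
  2 * N {b} * (L + 1) / N (univ.erase c) + (2 * N ∅ * (Lo + 1) + 2 * (N ∅ * Real.log ((M + 1) * (1 / al)))) / N {c}

/-- **the first swap** : the face of the exact point -/
theorem sw1 (B : Bk h N S U t b c d) (I : Ib h U t b w0 V) (Hw : Wb h U t b c d w0 W) {Typ : β → υ → Prop} {M Lo L : ℝ}
    (hM : ∀ c', ∃ s : Finset υ, (s.card : ℝ) ≤ M ∧ ∀ u, Typ c' u → u ∈ s) (hL : Lb h U t b w0 V ≤ Lo)
    (hLc : Real.log (1 / (QC h U t b w0).Pr V) ≤ L)
    {a : Pt K X β φ → ℝ} (h0 : ∀ w, 0 ≤ a w) (h1 : ∀ w, a w ≤ 1)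
    (ht : ∀ w, V w → a w ≠ 0 → Typ (w.2.1 d) (U {d} w.1 w.2.1)) :
    ((D.P h t).cond V).E (fun w => a w * tvp ((D.P h t).cond V) (D.P h t) (Fc c) W (Zo D U t c) w) ≤
      Real.sqrt (2 * kap1 N al M b c Lo L) := by
  have hN0 := B.nn ∅ B.s0
  have hNb := (B.n1 b).le
  have hNc := B.n1 c
  have hNe := B.n2 c
  refine E_al_conv (P' := QC h U t b w0) (X' := fun w => fc (zt U Typ d w) (w.2.2 c))
    (Y' := fun w => (zf U c w, zt U Typ d w)) (Z' := zt U Typ d) I.acC h0 h1 (Fac.snd _ _) ?_ ?_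
  · intro w hw haw
    obtain ⟨hVw, hpw⟩ := cond_supp I.ne hw
    have hT := ht w hVw haw
    refine tvp_conv (cls_Zc B) I.cls_ne I.acC (Hw.zb c) (I.sub w hVw) ?_ ?_ (Option.some_injective _) ?_
    · intro v hv
      obtain ⟨hv1, hv2⟩ := cond_supp I.cls_ne hv
      rw [fibC B hv1 (I.sub w hVw)]
      exact (zt_iff hT).symm
    · intro v hv
      obtain ⟨hv1, hv2⟩ := cond_supp I.ne hv
      rw [Hw.iff B hv2 hpw (I.sub v hv1) (I.sub w hVw)]
      exact (and_congr_right fun _ => (zt_iff hT).symm).trans (Prod.mk.injEq _ _ _ _).symm.to_iff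
    · intro v hv hz
      obtain ⟨hv1, hv2⟩ := cond_supp I.cls_ne hv
      have hz' := (fibC B hv1 (I.sub w hVw)).1 hz
      exact fc_pos (typ_of hz' hT) _
  · have k1 := klc_tr (U := U) I.acC Typ d c
    have k2 := face_exact B I
    have k3 := let_two B I (Typ := Typ) hM
    have k4 := I_fine (X := fun w => fc (zt U Typ d w) (w.2.2 c)) (Z := zt U Typ d) (A := zf U c)
      (B := fun w => (w.2.1 d, yd U Typ c d w)) ((D.P h t).cond V) (fun v w hvw => by
        unfold yd at hvw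
        simp only [Prod.mk.injEq] at hvw
        show (fc (zt U Typ d v) (v.2.2 c), zt U Typ d v) = (fc (zt U Typ d w) (w.2.2 c), zt U Typ d w)
        have e1 : zt U Typ d v = zt U Typ d w := Prod.ext hvw.1 hvw.2.1
        rw [e1, hvw.2.2])
    have a1 : ((D.P h t).cond V).klc (QC h U t b w0) (fun w => w.2.2 c) (zf U d) ≤
        2 * N {b} * (L + 1) / N (univ.erase c) := by
      rw [le_div_iff₀ hNe, mul_comm]
      refine k2.trans ?_
      have : Real.log (1 / (QC h U t b w0).Pr V) + 1 ≤ L + 1 := by linarith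
      exact mul_le_mul_of_nonneg_left this (by linarith)
    have a2 : ((D.P h t).cond V).I (zf U c) (fun w => (w.2.1 d, yd U Typ c d w)) (fun _ => ()) ≤
        (2 * N ∅ * (Lo + 1) + 2 * (N ∅ * Real.log ((M + 1) * (1 / al)))) / N {c} := by
      rw [le_div_iff₀ hNc, mul_comm]
      refine k3.trans ?_
      have : 2 * N ∅ * (Lb h U t b w0 V + 1) ≤ 2 * N ∅ * (Lo + 1) :=
        mul_le_mul_of_nonneg_left (by linarith) (by linarith)
      linarith
    unfold kap1
    linarith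

/-! ### the public class and the exact point -/

theorem pub_ne (hw0 : (D.P h t).p w0 ≠ 0) : (D.P h t).Pr (pub0 D t U w0) ≠ 0 :=
  (FP.Pr_pos_of (S := pub0 D t U w0) hw0 rfl).ne'

theorem QB_pub (hw0 : (D.P h t).p w0 ≠ 0) :
    QB h U t b w0 = ((D.P h t).cond (pub0 D t U w0)).cond (fun v => v.2.1 b = w0.2.1 b) := by
  have e : xc D U t {b} w0 = fun v => pub0 D t U w0 v ∧ v.2.1 b = w0.2.1 b := by
    funext v
    show (le (LL U) ∅ v = le (LL U) ∅ w0 ∧ BB D t {b} v = BB D t {b} w0) =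
      ((le (LL U) ∅ v, BB D t ∅ v) = (le (LL U) ∅ w0, BB D t ∅ w0) ∧ v.2.1 b = w0.2.1 b)
    rw [propext (pair_iff (a := le (LL U) ∅ v)), BB_eq, BB_eq]
    refine propext ⟨fun hh => ⟨⟨hh.1, fun j hj => absurd hj (Finset.notMem_empty j), hh.2.2⟩,
      hh.2.1 b (Finset.mem_singleton_self b)⟩, fun hh => ⟨hh.1.1, fun j hj => ?_, hh.1.2.2⟩⟩
    rw [Finset.mem_singleton.1 hj]
    exact hh.2
  have hne : (D.P h t).Pr (fun v => pub0 D t U w0 v ∧ v.2.1 b = w0.2.1 b) ≠ 0 := by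
    rw [← e]; exact xc_ne hw0
  unfold QB
  rw [FP.cond_cond hne, e]

/-- (hidden point, other points, far label) -/
def Tb (b : K) (w : Pt K X β φ) : X × ((K → Option β) × φ) :=
  (w.1, ((fun i => if i = b then none else some (w.2.1 i) : K → Option β), w.2.2 b))

theorem pub_ind (B : Bk h N S U t b c d) (hw0 : (D.P h t).p w0 ≠ 0) :
    ((D.P h t).cond (pub0 D t U w0)).Indep (fun w => w.2.1 b) (Tb b) :=
  cls_indep3 (h := h) (t := t) (K0 := ∅) b (V := pub0 D t U w0) (pub_fac B.dep (pub0_C w0).fac B.oth)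
    (pub0_C w0).nod rfl (pub_ne hw0)

theorem ptb_ne (hw0 : (D.P h t).p w0 ≠ 0) :
    ((D.P h t).cond (pub0 D t U w0)).Pr (fun v => v.2.1 b = w0.2.1 b) ≠ 0 :=
  (FP.Pr_pos_of (S := fun v : Pt K X β φ => v.2.1 b = w0.2.1 b) ((FP.cond_p_ne (pub_ne hw0)).2 ⟨rfl, hw0⟩) rfl).ne'

/-- the letter of another point in the public class -/
theorem let_upd (B : Bk h N S U t b c d) (hw0 : (D.P h t).p w0 ≠ 0) (e : K) {w : Pt K X β φ}
    (hw : ((D.P h t).cond (pub0 D t U w0)).p w ≠ 0) :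
    U {e} w.1 w.2.1 = U {e} w.1 (Function.update w0.2.1 e (w.2.1 e)) := by
  have h1 := (cond_supp (pub_ne hw0) hw).1
  have h2 := (pub0_C (D := D) (t := t) (U := U) w0).nod w w0 h1 rfl
  rw [BB_eq] at h2
  refine B.dep {e} w.1 w.2.1 (Function.update w0.2.1 e (w.2.1 e)) (fun j hj => ?_) fun j => ?_
  · rw [Finset.mem_singleton.1 hj, Function.update_self]
  · by_cases hje : j = e
    · subst hje; rw [Function.update_self]
    · rw [Function.update_of_ne hje]; exact h2.2.2 j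

/-- own letter -/
theorem own_QB (B : Bk h N S U t b c d) (hw0 : (D.P h t).p w0 ≠ 0) :
    (QB h U t b w0).Pr (clsb U (pub0 D t U w0) b w0) = own h t U (pub0 D t U w0) b w0 := by
  have h1 := cond_ind (pub_ind B hw0) (A := fun v => v.2.1 b = w0.2.1 b) (fun v w hvw => by
    have : v.2.1 b = w.2.1 b := hvw
    show (v.2.1 b = w0.2.1 b) = (w.2.1 b = w0.2.1 b)
    rw [this]) (ptb_ne hw0) (g := fun w => ind (U {b} w.1 w0.2.1 = U {b} w0.1 w0.2.1)) (fun v w hvw => by
    have : v.1 = w.1 := (pair_iff.1 (show ((v.1, _) : X × _) = (w.1, _) from hvw)).1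
    show ind (U {b} v.1 w0.2.1 = U {b} w0.1 w0.2.1) = ind (U {b} w.1 w0.2.1 = U {b} w0.1 w0.2.1)
    rw [this])
  rw [← QB_pub hw0] at h1
  unfold own
  show (QB h U t b w0).E (fun v => ind (clsb U (pub0 D t U w0) b w0 v)) = ((D.P h t).cond (pub0 D t U w0)).E
    (fun w => ind (U {b} w.1 w0.2.1 = U {b} w0.1 w0.2.1))
  rw [← h1]
  refine (QB h U t b w0).E_congr fun v hv => ?_
  rw [QB_pub hw0] at hv
  obtain ⟨hv1, hv2⟩ := cond_supp (ptb_ne hw0) hv
  have hv3 := (cond_supp (pub_ne hw0) hv2).1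
  have e1 := let_upd B hw0 b hv2
  have e2 : Function.update w0.2.1 b (v.2.1 b) = w0.2.1 := by
    rw [show v.2.1 b = w0.2.1 b from hv1, Function.update_eq_self]
  rw [e2] at e1
  congr 1
  unfold clsb
  rw [e1]
  exact propext ⟨fun hh => hh.2.2, fun hh => ⟨hv3, hv1, hh⟩⟩

theorem Ib.lown (B : Bk h N S U t b c d) (I : Ib h U t b w0 V) :
    Real.log (1 / own h t U (pub0 D t U w0) b w0) ≤ Lb h U t b w0 V := by
  rw [← own_QB B I.supp]
  exact I.lcls

/-- relative entropy of the pair of rows -/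
noncomputable def kap2 (N : Finset K → ℝ) (al M R0 ep : ℝ) (k : ℕ) (b d : K) (Lo L : ℝ) : ℝ :=
  L / (N (univ.erase d) / (2 * N {b})) +
    2 * ((2 * N ∅ * (Lo + L + 1) + 2 * N ∅ * (k * Real.log ((M + 1) * (1 / al + 1)))) / N {d} + Real.log (1 / al) + 3) /
      (N (univ.erase d) / (2 * N {b})) +
    N (univ.erase d) / (2 * N {b}) * (R0 + L / (N (univ.erase d) / (2 * N {b}))) ^ 2 / (2 * k) + 2 * ep

/-- **the second swap** : the face of the second row -/
theorem sw2 (B : Bk h N S U t b c d) (I : Ib h U t b w0 V) (Hw : Wb h U t b c d w0 W) {Typ : β → υ → Prop} {M Lo L : ℝ}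
    (hM : ∀ c', ∃ s : Finset υ, (s.card : ℝ) ≤ M ∧ ∀ u, Typ c' u → u ∈ s) (hL : Lb h U t b w0 V ≤ Lo)
    (hLc : Real.log (1 / (QC h U t b w0).Pr V) ≤ L)
    {R0 ep : ℝ} {k : ℕ} (hk : 0 < k) (hep : 0 < ep) (hep2 : ep ≤ 1 / 2) (hR0 : Real.log (1 / ep) ≤ R0)
    (hR1 : Real.log (1 / al) ≤ R0)
    (hkR : N (univ.erase d) / (2 * N {b}) * (R0 + L / (N (univ.erase d) / (2 * N {b}))) ≤ 2 * k)
    {a : Pt K X β φ → ℝ} (h0 : ∀ w, 0 ≤ a w) (h1 : ∀ w, a w ≤ 1)
    (ht : ∀ w, V w → a w ≠ 0 → Typ (w.2.1 c) (U {c} w.1 w.2.1)) :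
    ((D.P h t).cond V).E (fun w => a w * tvp ((D.P h t).cond V) (D.P h t) (Fc d) (fun w => (Fc c w, W w)) (Zo D U t d) w) ≤
      Real.sqrt (2 * kap2 N al M R0 ep k b d Lo L) := by
  have hN0 := B.nn ∅ B.s0
  have hNb := B.n1 b
  have hNd := B.n1 d
  have hNe := B.n2 d
  have hm : 0 < N (univ.erase d) / (2 * N {b}) := by positivity
  refine E_al_conv (P' := QC h U t b w0) (X' := fun w => fc (zt U Typ c w) (w.2.2 d))
    (Y' := fun w => (((w.2.1 d, U {d} w.1 w.2.1), w.2.2 c), zt U Typ c w)) (Z' := zt U Typ c) I.acC h0 h1 (Fac.snd _ _)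
    ?_ ?_
  · intro w hw haw
    obtain ⟨hVw, hpw⟩ := cond_supp I.ne hw
    have hT := ht w hVw haw
    refine tvp_conv (cls_Zc B.swap) I.cls_ne I.acC ((Fac.snd _ _).trans (Hw.zb d)) (I.sub w hVw) ?_ ?_
      (Option.some_injective _) ?_
    · intro v hv
      obtain ⟨hv1, hv2⟩ := cond_supp I.cls_ne hv
      rw [fibC B.swap hv1 (I.sub w hVw)]
      exact (zt_iff hT).symm
    · intro v hv
      obtain ⟨hv1, hv2⟩ := cond_supp I.ne hv
      refine pair_iff.trans (((and_congr_right fun _ => Hw.iff B hv2 hpw (I.sub v hv1) (I.sub w hVw))).trans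
        (Iff.trans ?_ pair_iff.symm))
      rw [propext (pair_iff (a := (v.2.1 d, U {d} v.1 v.2.1))), zt_iff hT]
      show (v.2.2 c = w.2.2 c ∧ zf U c v = zf U c w ∧ zf U d v = zf U d w) ↔
        ((zf U d v = zf U d w ∧ v.2.2 c = w.2.2 c) ∧ zf U c v = zf U c w)
      tauto
    · intro v hv hz
      obtain ⟨hv1, hv2⟩ := cond_supp I.cls_ne hv
      have hz' := (fibC B.swap hv1 (I.sub w hVw)).1 hz
      exact fc_pos (typ_of hz' hT) _
  · have k6 := I.lown B
    have k1 := P2ER.p2RE h B.dep B.sat B.nn B.bc B.bd B.cd B.all B.s0 (B.s1 b) (B.s1 d) (B.s2 d) hNb hNd hNe (pub0_C w0)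
      (rfl : pub0 D t U w0 w0) I.supp I.fac I.self hM hk hep hep2 hR0 hLc hR1 hkR
    have e1 : ((D.P h t).cond (clsb U (pub0 D t U w0) b w0)).cond V = (D.P h t).cond V := I.condC
    rw [e1] at k1
    have k2 := I_rep (X := fun w => fc (zt U Typ c w) (w.2.2 d)) (Z := zt U Typ c)
      (A := fun w => ((w.2.1 d, U {d} w.1 w.2.1), w.2.2 c)) ((D.P h t).cond V)
    rw [k2]
    refine le_trans (le_of_eq (add_comm _ _)) (k1.trans ?_)
    unfold kap2
    have a1 : 2 * N ∅ * (Real.log (1 / own h t U (pub0 D t U w0) b w0) + L + 1) ≤ 2 * N ∅ * (Lo + L + 1) :=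
      mul_le_mul_of_nonneg_left (by linarith) (by linarith)
    gcongr

/-- relative entropy of the far face -/
noncomputable def kap3 (N : Finset K → ℝ) (al : ℝ) (b c d : K) (L : ℝ) : ℝ :=
  (2 * N ∅ * (L + 1) + 2 * ((N {c} + N {d}) * Real.log (1 / al))) / N (univ.erase b)

/-- **the third swap** : the far face -/
theorem sw3 (B : Bk h N S U t b c d) (I : Ib h U t b w0 V) (Hw : Wb h U t b c d w0 W) {L : ℝ}
    (hL : Lb h U t b w0 V ≤ L) {a : Pt K X β φ → ℝ} (h0 : ∀ w, 0 ≤ a w) (h1 : ∀ w, a w ≤ 1) :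
    ((D.P h t).cond V).E (fun w => a w * tvp ((D.P h t).cond V) (D.P h t) (Fc b) (fun w => (Fc d w, Fc c w, W w))
      (Zo D U t b) w) ≤ Real.sqrt (2 * kap3 N al b c d L) := by
  have hN0 := B.nn ∅ B.s0
  have hNe := B.n2 b
  refine E_al_conv (P' := QB h U t b w0) (X' := fun w => w.2.2 b)
    (Y' := fun w => ((w.2.2 d, w.2.2 c), (zf U c w, zf U d w))) (Z' := fun w => (zf U c w, zf U d w)) I.acB h0 h1
    (Fac.snd _ _) ?_ ?_
  · intro w hw haw
    obtain ⟨hVw, hpw⟩ := cond_supp I.ne hw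
    have hCw := I.sub w hVw
    have hwR : ((D.P h t).cond (pub0 D t U w0)).p w ≠ 0 := (FP.cond_p_ne (pub_ne I.supp)).2 ⟨hCw.1, hpw⟩
    have hacR : ((D.P h t).cond V).Ac ((D.P h t).cond (pub0 D t U w0)) := by
      intro v hv
      obtain ⟨hv1, hv2⟩ := cond_supp I.ne hv
      exact (FP.cond_p_ne (pub_ne I.supp)).2 ⟨(I.sub v hv1).1, hv2⟩
    have k1 := tvp_conv (P := D.P h t) (Q := (D.P h t).cond V) (X := Fc b) (X' := fun w => w.2.2 b)
      (Y := fun w => (Fc d w, Fc c w, W w)) (Z := Zo D U t b)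
      (Y' := fun w => ((w.2.2 d, w.2.2 c), (zf U c w, zf U d w))) (Z' := fun w => (zf U c w, zf U d w)) (e := id)
      (pub_Zb B) (pub_ne I.supp) hacR (((Fac.snd _ _).trans (Fac.snd _ _)).trans (Hw.zb b)) hCw.1 (w := w) ?_ ?_
      Function.injective_id ?_
    · rw [k1]
      unfold tvp
      refine Finset.sum_congr rfl fun f _ => ?_
      have k2 := pv_ind (pub_ind B I.supp) (A := fun v => v.2.1 b = w0.2.1 b) (fun v w hvw => by
        have : v.2.1 b = w.2.1 b := hvw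
        show (v.2.1 b = w0.2.1 b) = (w.2.1 b = w0.2.1 b)
        rw [this]) (ptb_ne I.supp) (X := fun w => w.2.2 b) (X' := fun w => w.2.2 b) (Z := fun w => (zf U c w, zf U d w))
        (Z' := fun w => (((w.2.1 c, U {c} w.1 (Function.update w0.2.1 c (w.2.1 c))) : β × υ),
          ((w.2.1 d, U {d} w.1 (Function.update w0.2.1 d (w.2.1 d))) : β × υ))) ?_ ?_ (fun _ _ => rfl) ?_ hwR f
      · rw [QB_pub I.supp, k2]
      · intro v w hvw
        unfold Tb at hvw
        simp only [Prod.mk.injEq] at hvw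
        exact hvw.2.2
      · intro v w hvw
        unfold Tb at hvw
        simp only [Prod.mk.injEq] at hvw
        have a1 : v.2.1 c = w.2.1 c := by
          have := congrFun hvw.2.1 c
          simp only [if_neg B.bc.symm] at this
          exact Option.some_injective _ this
        have a2 : v.2.1 d = w.2.1 d := by
          have := congrFun hvw.2.1 d
          simp only [if_neg B.bd.symm] at this
          exact Option.some_injective _ this
        show (((v.2.1 c, U {c} v.1 (Function.update w0.2.1 c (v.2.1 c))) : β × υ),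
          ((v.2.1 d, U {d} v.1 (Function.update w0.2.1 d (v.2.1 d))) : β × υ)) = _
        rw [a1, a2, hvw.1]
      · intro v hv
        show (((v.2.1 c, U {c} v.1 v.2.1) : β × υ), ((v.2.1 d, U {d} v.1 v.2.1) : β × υ)) = _
        rw [let_upd B I.supp c hv, let_upd B I.supp d hv]
    · intro v hv
      have hv1 := (cond_supp (pub_ne I.supp) hv).1
      have hp := pub0_C (D := D) (t := t) (U := U) w0
      have := fib2 (D := D) (t := t) (U := U) (p := c) (q := d) (r := b) B.cd B.bc.symm B.bd.symm (fun j => by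
        rcases B.all j with h | h | h
        · exact Or.inr (Or.inr h)
        · exact Or.inl h
        · exact Or.inr (Or.inl h)) (hp.nod v w hv1 hCw.1) (hp.let0 v w hv1 hCw.1)
      unfold Zo
      rw [this]
      exact (Prod.mk.injEq _ _ _ _).symm.to_iff
    · intro v hv
      obtain ⟨hv1, hv2⟩ := cond_supp I.ne hv
      refine pair_iff.trans ((and_congr_right fun _ => pair_iff.trans (and_congr_right fun _ =>
        Hw.iff B hv2 hpw (I.sub v hv1) hCw)).trans (Iff.trans ?_ (pair_iff.trans (and_congr pair_iff pair_iff)).symm))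
      show (v.2.2 d = w.2.2 d ∧ v.2.2 c = w.2.2 c ∧ zf U c v = zf U c w ∧ zf U d v = zf U d w) ↔
        ((v.2.2 d = w.2.2 d ∧ v.2.2 c = w.2.2 c) ∧ zf U c v = zf U c w ∧ zf U d v = zf U d w)
      tauto
    · intro v _ _
      rfl
  · have k1 := face_far B I
    have k2 := I_rep (X := fun w : Pt K X β φ => w.2.2 b) (Z := fun w => (zf U c w, zf U d w))
      (A := fun w => (w.2.2 d, w.2.2 c)) ((D.P h t).cond V)
    rw [k2]
    unfold kap3
    rw [le_div_iff₀ hNe, mul_comm]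
    refine k1.trans ?_
    have : 2 * N ∅ * (Lb h U t b w0 V + 1) ≤ 2 * N ∅ * (L + 1) := mul_le_mul_of_nonneg_left (by linarith) (by linarith)
    linarith

/-! ### the three swaps -/

theorem sw_bit (B : Bk h N S U t b c d) (I : Ib h U t b w0 V) (Hw : Wb h U t b c d w0 W) {Typ : β → υ → Prop} {M Lo L : ℝ}
    (hM : ∀ c', ∃ s : Finset υ, (s.card : ℝ) ≤ M ∧ ∀ u, Typ c' u → u ∈ s) (hL : Lb h U t b w0 V ≤ Lo)
    (hLc : Real.log (1 / (QC h U t b w0).Pr V) ≤ L)
    {R0 ep : ℝ} {k : ℕ} (hk : 0 < k) (hep : 0 < ep) (hep2 : ep ≤ 1 / 2) (hR0 : Real.log (1 / ep) ≤ R0)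
    (hR1 : Real.log (1 / al) ≤ R0)
    (hkR : N (univ.erase d) / (2 * N {b}) * (R0 + L / (N (univ.erase d) / (2 * N {b}))) ≤ 2 * k)
    {a : Pt K X β φ → ℝ} (h0 : ∀ w, 0 ≤ a w) (h1 : ∀ w, a w ≤ 1)
    (htc : ∀ w, V w → a w ≠ 0 → Typ (w.2.1 c) (U {c} w.1 w.2.1))
    (htd : ∀ w, V w → a w ≠ 0 → Typ (w.2.1 d) (U {d} w.1 w.2.1)) :
    Sw3 ((D.P h t).cond V) (D.P h t) (Zo D U t) Fc W a c d b ≤
      Real.sqrt (2 * kap1 N al M b c Lo L) + Real.sqrt (2 * kap2 N al M R0 ep k b d Lo L) +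
        Real.sqrt (2 * kap3 N al b c d Lo) := by
  have k1 := sw1 B I Hw hM hL hLc h0 h1 htd
  have k2 := sw2 B I Hw hM hL hLc hk hep hep2 hR0 hR1 hkR h0 h1 htc
  have k3 := sw3 B I Hw hL h0 h1
  unfold Sw3
  linarith

/-! ### the deletion -/

/-- relative entropy of the letter of `c` -/
noncomputable def kapc (N : Finset K → ℝ) (al M : ℝ) (c : K) (L : ℝ) : ℝ :=
  2 * N ∅ * (L + 1) / N {c} + (2 * N ∅ * (L + 1) + 2 * (N ∅ * Real.log (M * (1 / al)))) / N {c}

/-- relative entropy of the letter of `d` -/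
noncomputable def kapd (N : Finset K → ℝ) (d : K) (L : ℝ) : ℝ := 2 * N ∅ * (L + 1) / N {d}

/-- the price of deleting the event -/
noncomputable def dl2 (N : Finset K → ℝ) (al M : ℝ) (c d : K) (L : ℝ) : ℝ :=
  2 * (Real.sqrt (2 * kapc N al M c L) + Real.sqrt (2 * kapd N d L))

/-- **deletion of one event**, against the law given the public class and the exact point -/
theorem del_one {τ : Type} (B : Bk h N S U t b c d) (I : Ib h U t b w0 V) {Tl : Pt K X β φ → τ}
    (hTd : Fac (fun w : Pt K X β φ => (zf U d w, BB D t ∅ w)) Tl)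
    {M : ℝ} (hM : ∀ d' : β, ∃ s : Finset τ, (s.card : ℝ) ≤ M ∧ ∀ v : Pt K X β φ, v.2.1 d = d' → Tl v ∈ s) {L : ℝ}
    (hL : Lb h U t b w0 V ≤ L) {g : Pt K X β φ → β × υ → ℝ}
    (hg : ∀ f, Fac (fun w : Pt K X β φ => (w.2.1 d, Tl w)) (fun w => g w f))
    (hb : ∀ w f, |g w f| ≤ 1) :
    |((D.P h t).cond V).E (fun w => g w (zf U c w)) - (QB h U t b w0).E (fun w => ∑ f ∈ vals (zf U c : Pt K X β φ → β × υ),
      (QB h U t b w0).pv (fun _ => ()) (zf U c) w f * g w f)| ≤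
      Real.sqrt (2 * kapc N al M c L) + Real.sqrt (2 * kapd N d L) := by
  have hN0 := B.nn ∅ B.s0
  have hNc := B.n1 c
  have hNd := B.n1 d
  have hTl : ∀ v w : Pt K X β φ, v.1 = w.1 → v.2.1 d = w.2.1 d → (∀ j, D.qb t (v.2.1 j) = D.qb t (w.2.1 j)) →
      Tl v = Tl w := by
    intro v w h1 h2 h3
    refine hTd v w ?_
    have e1 : zf U d v = zf U d w := by
      unfold zf
      rw [h2, h1, B.dep {d} w.1 v.2.1 w.2.1 (fun j hj => by rw [Finset.mem_singleton.1 hj]; exact h2) h3]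
    have e2 : BB D t ∅ v = BB D t ∅ w := by
      rw [BB_eq]
      exact ⟨fun j hj => absurd hj (Finset.notMem_empty j), by rw [h1], h3⟩
    show (zf U d v, BB D t ∅ v) = (zf U d w, BB D t ∅ w)
    rw [e1, e2]
  have k1 := let_one B I
  have k2 := let_twoT B I hTl hM
  have k3 := let_one B.swap I
  have aux : 2 * N ∅ * (Lb h U t b w0 V + 1) ≤ 2 * N ∅ * (L + 1) := mul_le_mul_of_nonneg_left (by linarith) (by linarith)
  refine two_ref I.acB hg hb ?_ ?_
  · have a1 : ((D.P h t).cond V).kl (QB h U t b w0) (zf U c) ≤ 2 * N ∅ * (L + 1) / N {c} := by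
      rw [le_div_iff₀ hNc, mul_comm]
      exact k1.trans aux
    have a2 : ((D.P h t).cond V).I (zf U c) (fun w => (w.2.1 d, Tl w)) (fun _ => ()) ≤
        (2 * N ∅ * (L + 1) + 2 * (N ∅ * Real.log (M * (1 / al)))) / N {c} := by
      rw [le_div_iff₀ hNc, mul_comm]
      have a3 : ((D.P h t).cond V).I (zf U c) (fun w => (w.2.1 d, Tl w)) (fun _ => ()) ≤
          ((D.P h t).cond V).I (zf U c) (fun w => (w.2.1 d, (Tl w, w.2.2 c))) (fun _ => ()) := by
        rw [FP.I_comm _ (zf U c), FP.I_comm _ (zf U c)]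
        refine FP.I_mono _ _ fun v w hvw => ?_
        simp only [Prod.mk.injEq] at hvw
        show (v.2.1 d, Tl v) = (w.2.1 d, Tl w)
        rw [hvw.1.1, hvw.1.2.1]
      have a4 := mul_le_mul_of_nonneg_left a3 hNc.le
      linarith
    unfold kapc
    linarith
  · have a1 : ((D.P h t).cond V).kl (QB h U t b w0) (fun w => (w.2.1 d, Tl w)) ≤
        ((D.P h t).cond V).kl (QB h U t b w0) (zf U d) := by
      have b1 : ((D.P h t).cond V).kl (QB h U t b w0) (fun w => (w.2.1 d, Tl w)) ≤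
          ((D.P h t).cond V).kl (QB h U t b w0) (fun w => ((w.2.1 d, Tl w), zf U d w)) :=
        FP.kl_mono I.acB (Fac.fst _ _)
      refine b1.trans (le_of_eq ?_)
      rw [← klc_one I.acB, ← klc_one I.acB]
      refine klc_congr_supp I.acB (fun _ _ _ _ => Iff.rfl) fun v w hv hw _ => ?_
      have c1 := xc_pub (QB_supp I.supp hv) (QB_supp I.supp hw)
      refine pair_iff.trans ⟨fun hh => hh.2, fun hh => ⟨?_, hh⟩⟩
      have c2 : Tl v = Tl w := hTd v w (by
        show (zf U d v, BB D t ∅ v) = (zf U d w, BB D t ∅ w)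
        rw [hh, c1.1])
      have c3 : v.2.1 d = w.2.1 d := (pair_iff.1 (show ((v.2.1 d, _) : β × υ) = (w.2.1 d, _) from hh)).1
      rw [c2, c3]
    refine a1.trans ?_
    unfold kapd
    rw [le_div_iff₀ hNd, mul_comm]
    exact k3.trans aux

/-- **DELETION** : inside the event and in the class -/
theorem del_two {τ : Type} (B : Bk h N S U t b c d) (I : Ib h U t b w0 V) {Tl : Pt K X β φ → τ}
    (hTd : Fac (fun w : Pt K X β φ => (zf U d w, BB D t ∅ w)) Tl)
    {M : ℝ} (hM : ∀ d' : β, ∃ s : Finset τ, (s.card : ℝ) ≤ M ∧ ∀ v : Pt K X β φ, v.2.1 d = d' → Tl v ∈ s) {L : ℝ}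
    (hL : Lb h U t b w0 V ≤ L) {s : Pt K X β φ → ℝ} (hs : Fac (fun w : Pt K X β φ => (zf U c w, (w.2.1 d, Tl w))) s)
    (hb : ∀ w, |s w| ≤ 1) :
    |((D.P h t).cond V).E s - ((D.P h t).cond (clsb U (pub0 D t U w0) b w0)).E s| ≤ dl2 N al M c d L := by
  obtain ⟨g, hg1, hg2, hg3⟩ := exists_test1 (X := zf U c) (W := fun w : Pt K X β φ => (w.2.1 d, Tl w)) hs zero_le_one hb
  have k1 := del_one B I hTd hM hL hg1 hg2
  have k2 := del_one B (I.cls B) hTd hM (I.lcls.trans hL) hg1 hg2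
  have e1 : (fun w => g w (zf U c w)) = s := funext hg3
  rw [e1] at k1 k2
  rw [abs_sub_comm] at k2
  have k3 := abs_sub_le (((D.P h t).cond V).E s) ((QB h U t b w0).E (fun w => ∑ f ∈ vals (zf U c : Pt K X β φ → β × υ),
      (QB h U t b w0).pv (fun _ => ()) (zf U c) w f * g w f)) (((D.P h t).cond (clsb U (pub0 D t U w0) b w0)).E s)
  unfold dl2
  linarith

/-- deletion of a function of all lower letters -/
theorem del_W (B : Bk h N S U t b c d) (I : Ib h U t b w0 V) (Hw : Wb h U t b c d w0 W) {Typ : β → υ → Prop} {M L : ℝ}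
    (hM : ∀ c', ∃ s : Finset υ, (s.card : ℝ) ≤ M ∧ ∀ u, Typ c' u → u ∈ s) (hL : Lb h U t b w0 V ≤ L)
    {a s : Pt K X β φ → ℝ} (haf : Fac W a) (hsf : Fac W s) (h1 : ∀ w, |a w * s w| ≤ 1)
    (htd : ∀ w, clsb U (pub0 D t U w0) b w0 w → a w ≠ 0 → Typ (w.2.1 d) (U {d} w.1 w.2.1)) :
    |((D.P h t).cond V).E (fun w => a w * s w) -
      ((D.P h t).cond (clsb U (pub0 D t U w0) b w0)).E (fun w => a w * s w)| ≤ dl2 N al (M + 1) c d L := by
  obtain ⟨f, f1, f2, f3⟩ := exists_supp (A := fun w => (D.P h t).p w ≠ 0 ∧ clsb U (pub0 D t U w0) b w0 w)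
    (T := fun w => (zf U c w, (w.2.1 d, tru Typ (w.2.1 d) (U {d} w.1 w.2.1)))) (f := fun w => a w * s w) (by
      rintro u v ⟨u1, u2⟩ ⟨v1, v2⟩ huv
      have e1 := pair_iff.1 huv
      have e2 : zt U Typ d u = zt U Typ d v := e1.2
      show a u * s u = a v * s v
      by_cases hT : Typ (v.2.1 d) (U {d} v.1 v.2.1)
      · have e3 := (zt_iff hT).1 e2
        have e4 := Hw.fib u v u1 v1 u2 v2 e1.1 e3
        have e5 : a u = a v := haf u v e4
        have e6 : s u = s v := hsf u v e4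
        rw [e5, e6]
      · have hTu : ¬ Typ (u.2.1 d) (U {d} u.1 u.2.1) := fun hh => hT ((typ_zt e2).1 hh)
        have e5 : a u = 0 := by
          by_contra hh
          exact hTu (htd u u2 hh)
        have e6 : a v = 0 := by
          by_contra hh
          exact hT (htd v v2 hh)
        rw [e5, e6, zero_mul, zero_mul]) zero_le_one (fun u _ => h1 u)
  have k := del_two B I (Tl := fun w => tru Typ (w.2.1 d) (U {d} w.1 w.2.1)) (fun v w hvw => by
      have e1 := (pair_iff.1 hvw).1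
      have e2 : v.2.1 d = w.2.1 d ∧ U {d} v.1 v.2.1 = U {d} w.1 w.2.1 := pair_iff.1 e1
      show tru Typ (v.2.1 d) (U {d} v.1 v.2.1) = tru Typ (w.2.1 d) (U {d} w.1 w.2.1)
      rw [e2.1, e2.2]) (tru_card hM) hL f1 f2
  have e1 : ((D.P h t).cond V).E f = ((D.P h t).cond V).E (fun w => a w * s w) :=
    ((D.P h t).cond V).E_congr fun w hw => by
      obtain ⟨k1, k2⟩ := cond_supp I.ne hw
      exact f3 w ⟨k2, I.sub w k1⟩
  have e2 : ((D.P h t).cond (clsb U (pub0 D t U w0) b w0)).E f =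
      ((D.P h t).cond (clsb U (pub0 D t U w0) b w0)).E (fun w => a w * s w) :=
    ((D.P h t).cond (clsb U (pub0 D t U w0) b w0)).E_congr fun w hw => by
      obtain ⟨k1, k2⟩ := cond_supp I.cls_ne hw
      exact f3 w ⟨k2, k1⟩
  rw [e1, e2] at k
  exact k

/-- the three swaps -/
noncomputable def sw0 (N : Finset K → ℝ) (al M R0 ep : ℝ) (k : ℕ) (b c d : K) (Lo L : ℝ) : ℝ :=
  Real.sqrt (2 * kap1 N al M b c Lo L) + Real.sqrt (2 * kap2 N al M R0 ep k b d Lo L) +
    Real.sqrt (2 * kap3 N al b c d Lo)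

theorem sw0_nn {M R0 ep : ℝ} {k : ℕ} {Lo L : ℝ} : 0 ≤ sw0 N al M R0 ep k b c d Lo L := by unfold sw0; positivity

theorem dl2_nn {M L : ℝ} : 0 ≤ dl2 N al M c d L := by unfold dl2; positivity

/-- **THE DEVIATION OF THE TOPS INSIDE THE EVENT** -/
theorem dev_fin (B : Bk h N S U t b c d) (I : Ib h U t b w0 V) (Hw : Wb h U t b c d w0 W) {Typ : β → υ → Prop} {M Lo L : ℝ}
    (hM : ∀ c', ∃ s : Finset υ, (s.card : ℝ) ≤ M ∧ ∀ u, Typ c' u → u ∈ s) (hL : Lb h U t b w0 V ≤ Lo)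
    (hLc : Real.log (1 / (QC h U t b w0).Pr V) ≤ L)
    {R0 ep : ℝ} {k : ℕ} (hk : 0 < k) (hep : 0 < ep) (hep2 : ep ≤ 1 / 2) (hR0 : Real.log (1 / ep) ≤ R0)
    (hR1 : Real.log (1 / al) ≤ R0)
    (hkR : N (univ.erase d) / (2 * N {b}) * (R0 + L / (N (univ.erase d) / (2 * N {b}))) ≤ 2 * k)
    {a : Pt K X β φ → ℝ} (haf : Fac W a) (h0 : ∀ w, 0 ≤ a w) (h1 : ∀ w, a w ≤ 1)
    (htc : ∀ w, clsb U (pub0 D t U w0) b w0 w → a w ≠ 0 → Typ (w.2.1 c) (U {c} w.1 w.2.1))
    (htd : ∀ w, clsb U (pub0 D t U w0) b w0 w → a w ≠ 0 → Typ (w.2.1 d) (U {d} w.1 w.2.1))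
    {g : Pt K X β φ → ℝ} (hg : Fac (fun w => (tup Fc w, W w)) g) (hb : ∀ w, |g w| ≤ 1) :
    |(D.P h t).E (fun w => ind (V w) * (a w * (g w - (D.P h t).ce W g w)))| ≤
      (D.P h t).Pr V * (2 * sw0 N al M R0 ep k b c d Lo L + 2 * dl2 N al (M + 1) c d Lo) := by
  set C := clsb U (pub0 D t U w0) b w0 with hC
  have e : (fun w => C w ∧ V w) = V := by
    funext v
    exact propext ⟨fun hh => hh.2, fun hh => ⟨I.sub v hh, hh⟩⟩
  have e' : ∀ w, ind (C w ∧ V w) = ind (V w) := fun w => by rw [show (C w ∧ V w) = V w from congrFun e w]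
  have k1 := dev_class (P := D.P h t) (Zb := Zo D U t) (F := Fc) (W := W) (C := C) (E := V) (al := a) (i1 := c) (i2 := d)
    (i3 := b) (Hw.cls B) (by rw [e]; exact I.ne) B.cd B.bc.symm B.bd.symm (fun j => by
      rcases B.all j with h | h | h
      · exact Or.inr (Or.inr h)
      · exact Or.inl h
      · exact Or.inr (Or.inl h)) Hw.zb haf h0 hg hb (del := 2 * dl2 N al (M + 1) c d Lo) (fun s hs s0 s2 => by
      rw [e]
      have k := del_W B I Hw hM hL (s := fun w => s w / 2) haf (hs.comp fun x => x / 2) (fun w => by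
        have b1 : 0 ≤ a w * (s w / 2) := mul_nonneg (h0 w) (by have := s0 w; linarith)
        rw [abs_of_nonneg b1]
        have b2 : a w * (s w / 2) ≤ 1 * 1 := mul_le_mul (h1 w) (by have := s2 w; linarith)
          (by have := s0 w; linarith) zero_le_one
        linarith) htd
      have c1 : ∀ R : FP (Pt K X β φ), R.E (fun w => a w * (s w / 2)) = R.E (fun w => a w * s w) / 2 := by
        intro R
        rw [← FP.E_div_const]
        exact R.E_congr fun w _ => by ring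
      rw [c1, c1] at k
      have k' := (abs_le.1 k).2
      linarith)
  rw [e] at k1
  simp only [e'] at k1
  have k2 := sw_bit B I Hw hM hL hLc hk hep hep2 hR0 hR1 hkR h0 h1 (fun w hw => htc w (I.sub w hw))
    (fun w hw => htd w (I.sub w hw))
  have k3 := sw_bit B (I.cls B) Hw hM (I.lcls.trans hL) (I.lcC.trans hLc) hk hep hep2 hR0 hR1 hkR h0 h1 htc htd
  refine k1.trans (mul_le_mul_of_nonneg_left ?_ ((D.P h t).Pr_nonneg V))
  unfold sw0
  linarith

/-- **THE TUPLE LAW INSIDE THE EVENT** -/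
theorem TV3_bit (B : Bk h N S U t b c d) (I : Ib h U t b w0 V) (Hw : Wb h U t b c d w0 W) {Typ : β → υ → Prop} {M Lo L : ℝ}
    (hM : ∀ c', ∃ s : Finset υ, (s.card : ℝ) ≤ M ∧ ∀ u, Typ c' u → u ∈ s) (hL : Lb h U t b w0 V ≤ Lo)
    (hLc : Real.log (1 / (QC h U t b w0).Pr V) ≤ L)
    {R0 ep : ℝ} {k : ℕ} (hk : 0 < k) (hep : 0 < ep) (hep2 : ep ≤ 1 / 2) (hR0 : Real.log (1 / ep) ≤ R0)
    (hR1 : Real.log (1 / al) ≤ R0)
    (hkR : N (univ.erase d) / (2 * N {b}) * (R0 + L / (N (univ.erase d) / (2 * N {b}))) ≤ 2 * k)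
    {a : Pt K X β φ → ℝ} (haf : Fac W a) (h0 : ∀ w, 0 ≤ a w) (h1 : ∀ w, a w ≤ 1)
    (htc : ∀ w, clsb U (pub0 D t U w0) b w0 w → a w ≠ 0 → Typ (w.2.1 c) (U {c} w.1 w.2.1))
    (htd : ∀ w, clsb U (pub0 D t U w0) b w0 w → a w ≠ 0 → Typ (w.2.1 d) (U {d} w.1 w.2.1)) :
    (D.P h t).E (fun w => ind (V w) * (a w * TV3 (D.P h t) (Zo D U t) Fc W w)) ≤
      (D.P h t).Pr V * (sw0 N al M R0 ep k b c d Lo L + 2 * dl2 N al (M + 1) c d Lo) := by
  set C := clsb U (pub0 D t U w0) b w0 with hC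
  set s : Pt K X β φ → ℝ := fun w => min (TV3 (D.P h t) (Zo D U t) Fc W w) 2 with hs
  have s0 : ∀ w, 0 ≤ s w := fun w => le_min (TV3_nonneg w) (by norm_num)
  have s2 : ∀ w, s w ≤ 2 := fun w => min_le_right _ _
  have hsf : Fac W s := (TV3_fac Hw.zb).comp fun x => min x 2
  have hse : ∀ w, (D.P h t).p w ≠ 0 → s w = TV3 (D.P h t) (Zo D U t) Fc W w := fun w hw => min_eq_left (TV3_le_two hw)
  have k := del_W B I Hw hM hL (s := fun w => s w / 2) haf (hsf.comp fun x => x / 2) (fun w => by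
    have b1 : 0 ≤ a w * (s w / 2) := mul_nonneg (h0 w) (by have := s0 w; linarith)
    rw [abs_of_nonneg b1]
    have b2 : a w * (s w / 2) ≤ 1 * 1 := mul_le_mul (h1 w) (by have := s2 w; linarith)
      (by have := s0 w; linarith) zero_le_one
    linarith) htd
  have c1 : ∀ R : FP (Pt K X β φ), R.E (fun w => a w * (s w / 2)) = R.E (fun w => a w * s w) / 2 := by
    intro R
    rw [← FP.E_div_const]
    exact R.E_congr fun w _ => by ring
  rw [c1, c1] at k
  have k' := (abs_le.1 k).2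
  have c2 : ∀ A : Pt K X β φ → Prop, ((D.P h t).cond A).E (fun w => a w * s w) =
      ((D.P h t).cond A).E (fun w => a w * TV3 (D.P h t) (Zo D U t) Fc W w) := fun A =>
    ((D.P h t).cond A).E_congr fun w hw => by rw [hse w (FP.cond_ac _ A w hw)]
  have k2 := TV3_le (P := D.P h t) (Zb := Zo D U t) (F := Fc) (W := W) (C := C) (al := a) (i1 := c) (i2 := d) (i3 := b)
    (Hw.cls B) I.cls_ne B.cd B.bc.symm B.bd.symm (fun j => by
      rcases B.all j with h | h | h
      · exact Or.inr (Or.inr h)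
      · exact Or.inl h
      · exact Or.inr (Or.inl h)) Hw.zb haf h0
  have k3 := sw_bit B (I.cls B) Hw hM (I.lcls.trans hL) (I.lcC.trans hLc) hk hep hep2 hR0 hR1 hkR h0 h1 htc htd
  rw [c2, c2] at k'
  have e2 : (D.P h t).E (fun w => ind (V w) * (a w * TV3 (D.P h t) (Zo D U t) Fc W w)) =
      (D.P h t).Pr V * ((D.P h t).cond V).E (fun w => a w * TV3 (D.P h t) (Zo D U t) Fc W w) :=
    (FP.Pr_mul_cond_E I.ne _).symm
  rw [e2]
  refine mul_le_mul_of_nonneg_left ?_ ((D.P h t).Pr_nonneg V)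
  unfold sw0
  linarith

/-- **DELETION OF THE EVENT for test functions of the tops and the lower letters** -/
theorem del_all (B : Bk h N S U t b c d) (I : Ib h U t b w0 V) (Hw : Wb h U t b c d w0 W) {Typ : β → υ → Prop} {M Lo L : ℝ}
    (hM : ∀ c', ∃ s : Finset υ, (s.card : ℝ) ≤ M ∧ ∀ u, Typ c' u → u ∈ s) (hL : Lb h U t b w0 V ≤ Lo)
    (hLc : Real.log (1 / (QC h U t b w0).Pr V) ≤ L)
    {R0 ep : ℝ} {k : ℕ} (hk : 0 < k) (hep : 0 < ep) (hep2 : ep ≤ 1 / 2) (hR0 : Real.log (1 / ep) ≤ R0)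
    (hR1 : Real.log (1 / al) ≤ R0)
    (hkR : N (univ.erase d) / (2 * N {b}) * (R0 + L / (N (univ.erase d) / (2 * N {b}))) ≤ 2 * k)
    {a : Pt K X β φ → ℝ} (haf : Fac W a) (h0 : ∀ w, 0 ≤ a w) (h1 : ∀ w, a w ≤ 1)
    (htc : ∀ w, clsb U (pub0 D t U w0) b w0 w → a w ≠ 0 → Typ (w.2.1 c) (U {c} w.1 w.2.1))
    (htd : ∀ w, clsb U (pub0 D t U w0) b w0 w → a w ≠ 0 → Typ (w.2.1 d) (U {d} w.1 w.2.1))
    {g : Pt K X β φ → ℝ} (hg : Fac (fun w => (tup Fc w, W w)) g) (hb : ∀ w, |g w| ≤ 1) :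
    |((D.P h t).cond V).E (fun w => a w * g w) -
      ((D.P h t).cond (clsb U (pub0 D t U w0) b w0)).E (fun w => a w * g w)| ≤
      2 * sw0 N al M R0 ep k b c d Lo L + dl2 N al (M + 1) c d Lo := by
  obtain ⟨f, hf, hfb, hfg⟩ := exists_test hg zero_le_one hb
  have hI : ∀ i, i = c ∨ i = d ∨ i = b := fun j => by
    rcases B.all j with h | h | h
    · exact Or.inr (Or.inr h)
    · exact Or.inl h
    · exact Or.inr (Or.inl h)
  have j1 := swap_three (Q := (D.P h t).cond V) (P := D.P h t) (F := Fc) (Zb := Zo D U t) (W := W) (al := a) (h := f)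
    (i1 := c) (i2 := d) (i3 := b) (FP.cond_ac _ V) B.cd B.bc.symm B.bd.symm hI Hw.zb haf h0 hf hfb
  have j2 := swap_three (Q := (D.P h t).cond (clsb U (pub0 D t U w0) b w0)) (P := D.P h t) (F := Fc) (Zb := Zo D U t)
    (W := W) (al := a) (h := f) (i1 := c) (i2 := d) (i3 := b) (FP.cond_ac _ _) B.cd B.bc.symm B.bd.symm hI Hw.zb haf h0
    hf hfb
  have k2 := sw_bit B I Hw hM hL hLc hk hep hep2 hR0 hR1 hkR h0 h1 (fun w hw => htc w (I.sub w hw))
    (fun w hw => htd w (I.sub w hw))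
  have k3 := sw_bit B (I.cls B) Hw hM (I.lcls.trans hL) (I.lcC.trans hLc) hk hep hep2 hR0 hR1 hkR h0 h1 htc htd
  -- the product mean as a bounded function
  set s : Pt K X β φ → ℝ := fun w => max (-1) (min (hbar (D.P h t) (Zo D U t) Fc f w) 1) with hs
  have hbf : Fac W (hbar (D.P h t) (Zo D U t) Fc f) := by
    intro v w hvw
    unfold hbar
    refine Finset.sum_congr rfl fun x _ => ?_
    have e1 : f v x = f w x := hf x v w hvw
    rw [e1]
    congr 1
    refine Finset.prod_congr rfl fun i _ => ?_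
    exact (D.P h t).pv_fac (Zo D U t i) (Fc i) (x i) v w (Hw.zb i v w hvw)
  have hsf : Fac W s := hbf.comp fun x => max (-1) (min x 1)
  have s1 : ∀ w, |s w| ≤ 1 := fun w => abs_le.2 ⟨le_max_left _ _, max_le (by norm_num) (min_le_right _ _)⟩
  have hbd : ∀ w, (D.P h t).p w ≠ 0 → |hbar (D.P h t) (Zo D U t) Fc f w| ≤ 1 := by
    intro w hw
    have h2 : ∑ x ∈ let_ (Fc : K → Pt K X β φ → φ), ∏ i, (D.P h t).pv (Zo D U t i) (Fc i) w (x i) = 1 := by
      unfold let_
      rw [← Finset.prod_univ_sum (fun i => vals (Fc i : Pt K X β φ → φ)) fun i x => (D.P h t).pv (Zo D U t i) (Fc i) w x]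
      exact Finset.prod_eq_one fun i _ => (D.P h t).pv_sum (Zo D U t i) (Fc i) hw
    unfold hbar
    refine (Finset.abs_sum_le_sum_abs _ _).trans ?_
    rw [← h2]
    refine Finset.sum_le_sum fun x _ => ?_
    have p0 : 0 ≤ ∏ i, (D.P h t).pv (Zo D U t i) (Fc i) w (x i) := Finset.prod_nonneg fun i _ => (D.P h t).pv_nonneg _ _ _ _
    rw [abs_mul, abs_of_nonneg p0]
    exact mul_le_of_le_one_right p0 (hfb w x)
  have hse : ∀ w, (D.P h t).p w ≠ 0 → s w = hbar (D.P h t) (Zo D U t) Fc f w := by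
    intro w hw
    have := abs_le.1 (hbd w hw)
    show max (-1) (min (hbar (D.P h t) (Zo D U t) Fc f w) 1) = _
    rw [min_eq_left this.2, max_eq_right this.1]
  have k := del_W B I Hw hM hL (s := s) haf hsf (fun w => by
    rw [abs_mul, abs_of_nonneg (h0 w)]
    have := mul_le_mul (h1 w) (s1 w) (abs_nonneg _) zero_le_one
    linarith) htd
  have c2 : ∀ A : Pt K X β φ → Prop, ((D.P h t).cond A).E (fun w => a w * s w) =
      ((D.P h t).cond A).E (fun w => a w * hbar (D.P h t) (Zo D U t) Fc f w) := fun A =>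
    ((D.P h t).cond A).E_congr fun w hw => by rw [hse w (FP.cond_ac _ A w hw)]
  rw [c2, c2] at k
  have c3 : ∀ A : Pt K X β φ → Prop, ((D.P h t).cond A).E (fun w => a w * f w (tup Fc w)) =
      ((D.P h t).cond A).E (fun w => a w * g w) := fun A =>
    ((D.P h t).cond A).E_congr fun w _ => by rw [hfg w]
  rw [c3] at j1 j2
  have t1 := abs_sub_le (((D.P h t).cond V).E (fun w => a w * g w))
    (((D.P h t).cond V).E (fun w => a w * hbar (D.P h t) (Zo D U t) Fc f w))
    (((D.P h t).cond (clsb U (pub0 D t U w0) b w0)).E (fun w => a w * g w))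
  have t2 := abs_sub_le (((D.P h t).cond V).E (fun w => a w * hbar (D.P h t) (Zo D U t) Fc f w))
    (((D.P h t).cond (clsb U (pub0 D t U w0) b w0)).E (fun w => a w * hbar (D.P h t) (Zo D U t) Fc f w))
    (((D.P h t).cond (clsb U (pub0 D t U w0) b w0)).E (fun w => a w * g w))
  rw [abs_sub_comm] at j2
  unfold sw0
  linarith

/-- **THE DEVIATION FROM ANY CONDITIONAL MEAN** : `W1` between (class, `a`) and (tops, `W`) -/
theorem dev_any {ι' : Type} (B : Bk h N S U t b c d) (I : Ib h U t b w0 V) (Hw : Wb h U t b c d w0 W)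
    {Typ : β → υ → Prop} {M Lo L : ℝ}
    (hM : ∀ c', ∃ s : Finset υ, (s.card : ℝ) ≤ M ∧ ∀ u, Typ c' u → u ∈ s) (hL : Lb h U t b w0 V ≤ Lo)
    (hLc : Real.log (1 / (QC h U t b w0).Pr V) ≤ L)
    {R0 ep : ℝ} {k : ℕ} (hk : 0 < k) (hep : 0 < ep) (hep2 : ep ≤ 1 / 2) (hR0 : Real.log (1 / ep) ≤ R0)
    (hR1 : Real.log (1 / al) ≤ R0)
    (hkR : N (univ.erase d) / (2 * N {b}) * (R0 + L / (N (univ.erase d) / (2 * N {b}))) ≤ 2 * k)
    {a : Pt K X β φ → ℝ} (haf : Fac W a) (h0 : ∀ w, 0 ≤ a w) (h1 : ∀ w, a w ≤ 1)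
    (htc : ∀ w, clsb U (pub0 D t U w0) b w0 w → a w ≠ 0 → Typ (w.2.1 c) (U {c} w.1 w.2.1))
    (htd : ∀ w, clsb U (pub0 D t U w0) b w0 w → a w ≠ 0 → Typ (w.2.1 d) (U {d} w.1 w.2.1))
    {W1 : Pt K X β φ → ι'} (hWC : Fac W1 (clsb U (pub0 D t U w0) b w0)) (hWa : Fac W1 a)
    (hW1 : Fac (fun w => (tup Fc w, W w)) W1)
    {g : Pt K X β φ → ℝ} (hg : Fac (fun w => (tup Fc w, W w)) g) (hb : ∀ w, |g w| ≤ 1) :
    |(D.P h t).E (fun w => ind (V w) * (a w * (g w - (D.P h t).ce W1 g w)))| ≤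
      (D.P h t).Pr V * (4 * sw0 N al M R0 ep k b c d Lo L + 2 * dl2 N al (M + 1) c d Lo) := by
  set P := D.P h t with hP
  set C := clsb U (pub0 D t U w0) b w0 with hC
  have g1 : ∀ w, |P.ce W1 g w| ≤ 1 := fun w => P.abs_ce_le_one (fun v _ => hb v) W1 w
  have k1 := del_all B I Hw hM hL hLc hk hep hep2 hR0 hR1 hkR haf h0 h1 htc htd hg hb
  have k2 := del_all B I Hw hM hL hLc hk hep hep2 hR0 hR1 hkR haf h0 h1 htc htd (g := P.ce W1 g)
    (hW1.trans (P.ce_fac W1 g)) g1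
  -- in the class the means agree
  have e1 : (P.cond C).E (fun w => a w * P.ce W1 g w) = (P.cond C).E (fun w => a w * g w) := by
    rw [FP.cond_E I.cls_ne, FP.cond_E I.cls_ne]
    congr 1
    have hh : Fac W1 (fun w => ind (C w) * a w) := by
      intro v w hvw
      have a1 : C v = C w := hWC v w hvw
      have a2 : a v = a w := hWa v w hvw
      show ind (C v) * a v = ind (C w) * a w
      rw [a1, a2]
    have := P.E_mul_ce hh g
    rw [show (fun w => ind (C w) * (a w * P.ce W1 g w)) = fun w => ind (C w) * a w * P.ce W1 g w from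
      funext fun w => by ring, this]
    exact P.E_congr fun w _ => by ring
  have e2 : P.E (fun w => ind (V w) * (a w * (g w - P.ce W1 g w))) =
      P.Pr V * ((P.cond V).E (fun w => a w * g w) - (P.cond V).E (fun w => a w * P.ce W1 g w)) := by
    rw [← FP.E_sub, FP.Pr_mul_cond_E I.ne]
    exact P.E_congr fun w _ => by ring
  rw [e2, abs_mul, abs_of_nonneg (P.Pr_nonneg V)]
  refine mul_le_mul_of_nonneg_left ?_ (P.Pr_nonneg V)
  have k2' : |(P.cond V).E (fun w => a w * P.ce W1 g w) - (P.cond C).E (fun w => a w * g w)| ≤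
      2 * sw0 N al M R0 ep k b c d Lo L + dl2 N al (M + 1) c d Lo := by rw [← e1]; exact k2
  rw [abs_sub_comm] at k2'
  have t1 := abs_sub_le ((P.cond V).E (fun w => a w * g w)) ((P.cond C).E (fun w => a w * g w))
    ((P.cond V).E (fun w => a w * P.ce W1 g w))
  have k1' : |(P.cond V).E (fun w => a w * g w) - (P.cond C).E (fun w => a w * g w)| ≤
      2 * sw0 N al M R0 ep k b c d Lo L + dl2 N al (M + 1) c d Lo := k1
  linarith

end bit

end Pool.Agent.GMH
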