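import Pool.Agent.GMH.RowP

/-!
# GMH.P2kl: two rows of one exact point are independent, abstract part (helper49; note 3933 (A) of helper78)

One class, law `Q`; `A` = hidden point, `X` = (point, label, letter) of the first row, `Z` its part without the letter `F`,
`(Yl, Yf)` = (point and label, letter) of the second row; given `A` the rows are independent.

* `exp_mom` : tails `P(i <= f) <= exp (1 - 2 i)` give `E exp f <= exp 3`;
* `ce_exp_le` : `E(exp (s psi) | A) <= exp (s E(psi | A) + s^2 R^2)`;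
* `FPpi_prod` : mean of a product of functions of independent coins;
* `p2_dv` : **TEST BY SAMPLING** : if events of `A` are saturated (tails of `E(psi_w | A)`), and the sample
  of `k` rows tells at most `dl` about `Yl`, then `E psi_Y(X) <= 2 (dl + Lam + 3) / m + m R^2 / (2 k)`;
* `tail_of_sat` : the tails from the saturation;
* `p2` : the relative entropy of the letter of the first row given the second row.
-/

set_option autoImplicit false
set_option linter.unusedSectionVars false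

namespace Pool.Agent.GMH

open Finset Pool.Agent.PWZ Pool.Agent.M3

section expo

variable {Om : Type*} [Fintype Om] (P : FP Om)

theorem exp_neg_one_le : Real.exp (-1) ≤ 1 / 2 := by
  have h : (2 : ℝ) ≤ Real.exp 1 := by
    have := Real.add_one_le_exp (1 : ℝ)
    linarith
  rw [Real.exp_neg, inv_eq_one_div]
  exact one_div_le_one_div_of_le (by norm_num) h

theorem geo_sum (M : ℕ) : ∑ i ∈ range M, Real.exp (-(i : ℝ)) ≤ 2 := by
  have h1 : ∀ i ∈ range M, Real.exp (-(i : ℝ)) ≤ (1 / 2 : ℝ) ^ i := by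
    intro i _
    have : Real.exp (-(i : ℝ)) = Real.exp (-1) ^ i := by
      rw [← Real.exp_nat_mul]
      congr 1
      ring
    rw [this]
    exact pow_le_pow_left₀ (Real.exp_pos _).le exp_neg_one_le i
  refine (Finset.sum_le_sum h1).trans ?_
  rw [geom_sum_eq (by norm_num)]
  have : 0 ≤ (1 / 2 : ℝ) ^ M := by positivity
  have h2 : ((1 / 2 : ℝ) ^ M - 1) / (1 / 2 - 1) = 2 - 2 * (1 / 2 : ℝ) ^ M := by ring
  rw [h2]
  linarith

/-- layers of the exponential -/
theorem exp_layers {x : ℝ} {M : ℕ} (h : x < M) :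
    Real.exp x ≤ 1 + ∑ i ∈ range M, Real.exp (i + 1) * ind ((i : ℝ) ≤ x) := by
  have h0 : ∀ i ∈ range M, 0 ≤ Real.exp ((i : ℝ) + 1) * ind ((i : ℝ) ≤ x) := fun i _ =>
    mul_nonneg (Real.exp_pos _).le (ind_nonneg _)
  rcases lt_or_ge x 0 with hx | hx
  · have h1 : Real.exp x ≤ 1 := Real.exp_le_one_iff.2 hx.le
    have := Finset.sum_nonneg h0
    linarith
  · have h1 : ⌊x⌋₊ ∈ range M := Finset.mem_range.2 ((Nat.floor_lt hx).2 h)
    have h2 := Finset.single_le_sum h0 h1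
    rw [ind_of (Nat.floor_le hx), mul_one] at h2
    have h3 : Real.exp x ≤ Real.exp ((⌊x⌋₊ : ℝ) + 1) := Real.exp_le_exp.2 (Nat.lt_floor_add_one x).le
    linarith

/-- **exponential moment from the tails** -/
theorem exp_mom {f : Om → ℝ} (h : ∀ i : ℕ, P.Pr (fun w => (i : ℝ) ≤ f w) ≤ Real.exp (1 - 2 * i)) :
    P.E (fun w => Real.exp (f w)) ≤ Real.exp 3 := by
  classical
  obtain ⟨M, hM⟩ : ∃ M : ℕ, ∀ w, f w < M := by
    obtain ⟨C, hC⟩ := (Set.finite_range f).bddAbove
    obtain ⟨M, hM⟩ := exists_nat_gt C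
    exact ⟨M, fun w => lt_of_le_of_lt (hC (Set.mem_range_self w)) hM⟩
  have h1 : P.E (fun w => Real.exp (f w)) ≤
      P.E (fun w => 1 + ∑ i ∈ range M, Real.exp (i + 1) * ind ((i : ℝ) ≤ f w)) :=
    P.E_mono fun w _ => exp_layers (hM w)
  rw [FP.E_add, FP.E_const, FP.E_sum] at h1
  have h2 : ∑ i ∈ range M, P.E (fun w => Real.exp (i + 1) * ind ((i : ℝ) ≤ f w)) ≤
      ∑ i ∈ range M, Real.exp 2 * Real.exp (-(i : ℝ)) := by
    refine Finset.sum_le_sum fun i _ => ?_
    rw [FP.E_smul]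
    have h3 := mul_le_mul_of_nonneg_left (h i) (Real.exp_pos ((i : ℝ) + 1)).le
    refine h3.trans (le_of_eq ?_)
    rw [← Real.exp_add, ← Real.exp_add]
    congr 1
    ring
  rw [← Finset.mul_sum] at h2
  have h4 := mul_le_mul_of_nonneg_left (geo_sum M) (Real.exp_pos 2).le
  have h5 : 1 + Real.exp 2 * 2 ≤ Real.exp 3 := by
    have e1 : Real.exp 3 = Real.exp 1 * Real.exp 2 := by rw [← Real.exp_add]; norm_num
    have e2 : (2.7 : ℝ) ≤ Real.exp 1 := by
      have := Real.exp_one_gt_d9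
      linarith
    have e3 : (7 : ℝ) ≤ Real.exp 2 := by
      have : Real.exp 2 = Real.exp 1 * Real.exp 1 := by rw [← Real.exp_add]; norm_num
      rw [this]
      nlinarith
    rw [e1]
    nlinarith
  linarith

/-- the exponential moment of one sample -/
theorem ce_exp_le {α : Type*} {A : Om → α} {f : Om → ℝ} {s R0 : ℝ} (hs : 0 ≤ s) (hf : ∀ w, |f w| ≤ R0)
    (hsR : s * R0 ≤ 1) {w : Om} (hw : P.p w ≠ 0) :
    P.ce A (fun v => Real.exp (s * f v)) w ≤ Real.exp (s * P.ce A f w + s ^ 2 * R0 ^ 2) := by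
  have h1 : ∀ v, P.p v ≠ 0 → Real.exp (s * f v) ≤ 1 + s * f v + s ^ 2 * R0 ^ 2 := by
    intro v _
    have h2 : |s * f v| ≤ 1 := by
      rw [abs_mul, abs_of_nonneg hs]
      exact (mul_le_mul_of_nonneg_left (hf v) hs).trans hsR
    have h3 := Real.abs_exp_sub_one_sub_id_le h2
    have h4 := (abs_le.1 h3).2
    have h5 : (s * f v) ^ 2 ≤ s ^ 2 * R0 ^ 2 := by
      rw [mul_pow]
      refine mul_le_mul_of_nonneg_left ?_ (sq_nonneg s)
      rw [← sq_abs (f v)]
      exact pow_le_pow_left₀ (abs_nonneg _) (hf v) 2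
    linarith
  have h2 := P.ce_mono (X := A) h1 w
  rw [P.ce_add A (fun v => 1 + s * f v) (fun _ => s ^ 2 * R0 ^ 2), P.ce_add A (fun _ => 1) (fun v => s * f v),
    P.ce_const A _ hw, P.ce_const A _ hw, P.ce_smul] at h2
  have h3 := Real.add_one_le_exp (s * P.ce A f w + s ^ 2 * R0 ^ 2)
  linarith

end expo

section prod

variable {I Φ : Type*} [Fintype I] [DecidableEq I] [Fintype Φ]

/-- mean of a product of functions of independent coins -/
theorem FPpi_prod (q : I → FP Φ) (g : I → Φ → ℝ) :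
    (FPpi q).E (fun θ => ∏ i, g i (θ i)) = ∏ i, (q i).E (g i) := by
  have h := Finset.prod_univ_sum (fun _ : I => (univ : Finset Φ)) (fun i f => (q i).p f * g i f)
  rw [Fintype.piFinset_univ] at h
  unfold FP.E
  rw [h]
  refine Finset.sum_congr rfl fun θ _ => ?_
  rw [Finset.prod_mul_distrib]
  rfl

end prod

section main

variable {Om Th : Type*} [Fintype Om] [Fintype Th] {α ξ ι κ ζ : Type*}

/-- a function of `X` as a function of the values -/
theorem fac_fn {X : Om → ξ} {f : Om → ℝ} (h : Fac X f) {R0 : ℝ} (h0 : 0 ≤ R0) (hb : ∀ w, |f w| ≤ R0) :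
    ∃ f' : ξ → ℝ, (∀ w, f' (X w) = f w) ∧ ∀ x, |f' x| ≤ R0 := by
  classical
  refine ⟨fun x => if hx : ∃ u, X u = x then f hx.choose else 0, fun w => ?_, fun x => ?_⟩
  · have hx : ∃ u, X u = X w := ⟨w, rfl⟩
    show (if hx : ∃ u, X u = X w then f hx.choose else 0) = f w
    rw [dif_pos hx]
    exact h _ _ hx.choose_spec
  · show |if hx : ∃ u, X u = x then f hx.choose else 0| ≤ R0
    by_cases hx : ∃ u, X u = x
    · rw [dif_pos hx]; exact hb _
    · rw [dif_neg hx, abs_zero]; exact h0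

theorem klc_self {τ τ' : Type*} (W : FP Om) (X : Om → τ) (Z : Om → τ') : W.klc W X Z = 0 := by
  rw [klc_eq (FP.Ac.refl W), FP.kl_self, FP.kl_self, sub_zero]

theorem lift_H {τ : Type*} (P : FP Om) (R : FP Th) (Z : Om → τ) : (FP.pr P R).H (fun v => Z v.1) = P.H Z := by
  unfold FP.H
  rw [← lift_E P R]
  exact (FP.pr P R).E_congr fun w _ => by rw [lift_m]

theorem lift_Hc {τ τ' : Type*} (P : FP Om) (R : FP Th) (X : Om → τ) (Z : Om → τ') :
    (FP.pr P R).Hc (fun v => X v.1) (fun v => Z v.1) = P.Hc X Z := by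
  unfold FP.Hc
  rw [lift_H P R Z, lift_H P R (fun v => (X v, Z v))]

/-- **TEST BY SAMPLING** -/
theorem p2_dv {Q : FP Om} {R : FP Th} {A : Om → α} {X : Om → ξ} {g : Om → Th → ξ} {Yl : Om → ι} {Yf : Om → κ}
    {psi : ι → κ → ξ → ℝ} {R0 m dl Lam : ℝ} {k : ℕ} (hk : 0 < k) (hm : 0 < m)
    (hS : ∀ (f : ξ → ℝ) v, Q.p v ≠ 0 → R.E (fun θ => f (g v θ)) = Q.ce A (fun u => f (X u)) v)
    (hI : ∀ f : ι → κ → ξ → ℝ, Q.E (fun v => f (Yl v) (Yf v) (X v)) =
      Q.E (fun v => Q.ce A (fun u => f (Yl v) (Yf v) (X u)) v))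
    (hpsi : ∀ l f x, |psi l f x| ≤ R0) (hkR : m * R0 ≤ 2 * k)
    (htail : ∀ l f (u : ℝ), 0 ≤ u → Q.Pr (fun v => u ≤ Q.ce A (fun w => psi l f (X w)) v) ≤ Real.exp (1 - m * u))
    (hd : (FP.pr Q (FPpi fun _ : Fin k => R)).I (fun v => Yl v.1) (fun v i => g v.1 (v.2 i)) (fun _ => ()) ≤ dl)
    (hL : Q.Hc Yf Yl ≤ Lam) :
    Q.E (fun v => psi (Yl v) (Yf v) (X v)) ≤ 2 * (dl + Lam + 3) / m + m * R0 ^ 2 / (2 * k) := by
  classical
  set W := FP.pr Q (FPpi fun _ : Fin k => R) with hW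
  set Xk : Om × (Fin k → Th) → (Fin k → ξ) := fun v i => g v.1 (v.2 i) with hXk
  have hk0 : (0 : ℝ) < k := by exact_mod_cast hk
  set s : ℝ := m / (2 * k) with hs
  have hs0 : 0 < s := by positivity
  have hsR : s * R0 ≤ 1 := by
    rw [hs, div_mul_eq_mul_div, div_le_one (by positivity)]
    exact hkR
  have hks : k * s = m / 2 := by rw [hs]; field_simp
  -- the statistic
  set T : Om × (Fin k → Th) → κ × ι := fun v => (Yf v.1, Yl v.1) with hT
  set st : κ × ι → Om × (Fin k → Th) → ℝ := fun y v => ∑ i, s * psi y.2 y.1 (Xk v i) with hst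
  have hDV := klc_dv_row (FP.Ac.refl W) Xk (fun _ => ()) T (psi := st)
    (fun r v w hvw => by
      have h1 : Xk v = Xk w := (Prod.mk.injEq _ _ _ _ ▸ hvw : _ ∧ _).1
      show ∑ i, s * psi r.2 r.1 (Xk v i) = ∑ i, s * psi r.2 r.1 (Xk w i)
      rw [h1])
  -- left side
  have hl : W.E (fun w => st (T w) w) = m / 2 * Q.E (fun v => psi (Yl v) (Yf v) (X v)) := by
    rw [hW, FP.pr_E, hI psi, ← FP.E_smul]
    refine Q.E_congr fun v hv => ?_
    show (FPpi fun _ : Fin k => R).E (fun θ => ∑ i, s * psi (Yl v) (Yf v) (g v (θ i))) = _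
    rw [FP.E_sum]
    have h1 : ∀ i : Fin k, (FPpi fun _ : Fin k => R).E (fun θ => s * psi (Yl v) (Yf v) (g v (θ i))) =
        s * Q.ce A (fun u => psi (Yl v) (Yf v) (X u)) v := by
      intro i
      rw [FP.E_smul, FPpi_E (fun _ : Fin k => R) i (fun θ => psi (Yl v) (Yf v) (g v θ)), hS _ v hv]
    rw [Finset.sum_congr rfl fun i _ => h1 i, Finset.sum_const, Finset.card_univ, Fintype.card_fin, nsmul_eq_mul,
      ← mul_assoc, hks]
  -- no relative entropy
  have hk0' : W.klc W Xk (fun _ => ()) = 0 := klc_self W _ _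
  -- the information
  have hi : W.I Xk T (fun _ => ()) ≤ dl + Lam := by
    rw [W.I_comm, hT, W.I_chain]
    have h1 := W.I_le_Hc (fun v => Yf v.1) Xk (fun w => (Yl w.1, ()))
    have h2 : W.Hc (fun v => Yf v.1) (fun w => (Yl w.1, ())) = Q.Hc Yf Yl := by
      have h3 : W.Hc (fun v => Yf v.1) (fun w => (Yl w.1, ())) = W.Hc (fun v => Yf v.1) (fun w => Yl w.1) :=
        W.Hc_congr_right _ (Fac.fst _ _) ((Fac.refl _).prod (Fac.const _ ()))
      rw [h3]
      exact lift_Hc Q _ Yf Yl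
    linarith
  -- right side
  have hr : W.E (fun w => Real.log (W.ce (fun _ => ()) (fun v => Real.exp (st (T w) v)) w)) ≤
      3 + k * (s ^ 2 * R0 ^ 2) := by
    refine W.E_le_const fun w hw => ?_
    set y := T w with hy
    have h1 : W.ce (fun _ => ()) (fun v => Real.exp (st y v)) w = W.E (fun v => Real.exp (st y v)) := by
      unfold FP.ce FP.m
      simp only [ind_of, one_mul, FP.E_const, div_one]
    rw [h1]
    have h2 : W.E (fun v => Real.exp (st y v)) ≤ Real.exp (3 + k * (s ^ 2 * R0 ^ 2)) := by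
      rw [hW, FP.pr_E]
      have h3 : ∀ v, Q.p v ≠ 0 → (FPpi fun _ : Fin k => R).E (fun θ => Real.exp (st y (v, θ))) ≤
          Real.exp (k * (s ^ 2 * R0 ^ 2)) * Real.exp (m / 2 * Q.ce A (fun u => psi y.2 y.1 (X u)) v) := by
        intro v hv
        have h4 : (FPpi fun _ : Fin k => R).E (fun θ => Real.exp (st y (v, θ))) =
            (FPpi fun _ : Fin k => R).E (fun θ => ∏ i, Real.exp (s * psi y.2 y.1 (g v (θ i)))) := by
          refine FP.E_congr _ fun θ _ => ?_
          rw [← Real.exp_sum]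
        rw [h4, FPpi_prod (fun _ : Fin k => R) (fun _ θ => Real.exp (s * psi y.2 y.1 (g v θ)))]
        rw [Finset.prod_const, Finset.card_univ, Fintype.card_fin]
        have h5 := hS (fun x => Real.exp (s * psi y.2 y.1 x)) v hv
        rw [h5]
        have h6 := ce_exp_le Q (A := A) (f := fun u => psi y.2 y.1 (X u)) hs0.le (fun u => hpsi _ _ _) hsR hv
        have h7 : 0 ≤ Q.ce A (fun u => Real.exp (s * psi y.2 y.1 (X u))) v :=
          Q.ce_nonneg (fun _ _ => (Real.exp_pos _).le) v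
        refine (pow_le_pow_left₀ h7 h6 k).trans (le_of_eq ?_)
        rw [← Real.exp_nat_mul, ← Real.exp_add]
        congr 1
        rw [mul_add, ← mul_assoc, hks]
        ring
      refine (Q.E_mono h3).trans ?_
      rw [FP.E_smul, Real.exp_add, mul_comm (Real.exp 3)]
      refine mul_le_mul_of_nonneg_left ?_ (Real.exp_pos _).le
      refine exp_mom Q fun i => ?_
      have h4 := htail y.2 y.1 (2 * i / m) (by positivity)
      have h5 : Q.Pr (fun v => (i : ℝ) ≤ m / 2 * Q.ce A (fun u => psi y.2 y.1 (X u)) v) ≤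
          Q.Pr (fun v => 2 * i / m ≤ Q.ce A (fun w => psi y.2 y.1 (X w)) v) := by
        refine Q.Pr_mono fun v _ hv => ?_
        rw [div_le_iff₀ hm]
        linarith
      refine h5.trans (h4.trans (le_of_eq ?_))
      congr 1
      field_simp
    have h0 : 0 < W.E (fun v => Real.exp (st y v)) := by
      have h8 : 0 < W.p w * Real.exp (st y w) := mul_pos (lt_of_le_of_ne (W.nn w) (Ne.symm hw)) (Real.exp_pos _)
      refine lt_of_lt_of_le h8 ?_
      exact Finset.single_le_sum (f := fun v => W.p v * Real.exp (st y v))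
        (fun v _ => mul_nonneg (W.nn v) (Real.exp_pos _).le) (mem_univ w)
    rw [← Real.log_exp (3 + k * (s ^ 2 * R0 ^ 2))]
    exact Real.log_le_log h0 h2
  rw [hl, hk0'] at hDV
  have hfin : m / 2 * Q.E (fun v => psi (Yl v) (Yf v) (X v)) ≤ dl + Lam + 3 + k * (s ^ 2 * R0 ^ 2) := by linarith
  have h9 : k * (s ^ 2 * R0 ^ 2) = m / 2 * (m * R0 ^ 2 / (2 * k)) := by
    rw [hs]
    field_simp
  rw [h9] at hfin
  have h10 : dl + Lam + 3 = m / 2 * (2 * (dl + Lam + 3) / m) := by field_simp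
  rw [h10, ← mul_add] at hfin
  exact le_of_mul_le_mul_left hfin (by positivity)

/-- the tails from the saturation of the events of `A` -/
theorem tail_of_sat {Q : FP Om} {A : Om → α} {psi : Om → ℝ} {m u : ℝ}
    (h : ∀ S : Om → Prop, Fac A S → Q.Pr S ≠ 0 → m * (Q.cond S).E psi ≤ Real.log (1 / Q.Pr S) + 1) (hm : 0 ≤ m) :
    Q.Pr (fun v => u ≤ Q.ce A psi v) ≤ Real.exp (1 - m * u) := by
  set S : Om → Prop := fun v => u ≤ Q.ce A psi v with hS
  by_cases h0 : Q.Pr S = 0
  · rw [h0]; exact (Real.exp_pos _).le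
  have hfac : Fac A S := fun v w hvw => by
    have : Q.ce A psi v = Q.ce A psi w := Q.ce_fac A psi v w hvw
    show (u ≤ Q.ce A psi v) = (u ≤ Q.ce A psi w)
    rw [this]
  have h1 : u ≤ (Q.cond S).E psi := cond_ce_ge Q h0 hfac fun w _ hw => hw
  have h2 := h S hfac h0
  have h3 := mul_le_mul_of_nonneg_left h1 hm
  have hpos : 0 < Q.Pr S := lt_of_le_of_ne (Q.Pr_nonneg _) (Ne.symm h0)
  rw [← Real.log_le_iff_le_exp hpos]
  rw [one_div, Real.log_inv] at h2
  linarith

/-- the density ratio of the letter, for the value `y` of the second row -/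
noncomputable def rat (Q : FP Om) (F : Om → κ) (Z : Om → ζ) (Y : Om → ι) (y : ι) (v : Om) : ℝ :=
  (Q.cond fun w => Y w = y).m (fun w => (F w, Z w)) v / (Q.cond fun w => Y w = y).m Z v /
    (Q.m (fun w => (F w, Z w)) v / Q.m Z v)

theorem rat_nonneg (Q : FP Om) (F : Om → κ) (Z : Om → ζ) (Y : Om → ι) (y : ι) (v : Om) : 0 ≤ rat Q F Z Y y v :=
  div_nonneg (div_nonneg (FP.m_nonneg _ _ _) (FP.m_nonneg _ _ _)) (div_nonneg (FP.m_nonneg _ _ _) (FP.m_nonneg _ _ _))

theorem rat_fac (Q : FP Om) (F : Om → κ) (Z : Om → ζ) (Y : Om → ι) (y : ι) :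
    Fac (fun w => (F w, Z w)) (rat Q F Z Y y) := by
  intro v w h
  have h1 : Z v = Z w := congrArg Prod.snd h
  unfold rat
  rw [(Q.cond fun w => Y w = y).Fac_m (fun v => (F v, Z v)) v w h, Q.Fac_m (fun v => (F v, Z v)) v w h,
    (Q.cond fun w => Y w = y).Fac_m Z v w h1, Q.Fac_m Z v w h1]

/-- the ratio is normalised -/
theorem rat_norm (Q : FP Om) (F : Om → κ) (Z : Om → ζ) (Y : Om → ι) (y : ι) {w : Om} (hw : Q.p w ≠ 0) :
    Q.ce Z (rat Q F Z Y y) w ≤ 1 := by
  set P1 := Q.cond fun w => Y w = y with hP1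
  have hQ := Q.m_pos Z hw
  unfold FP.ce
  rw [div_le_one hQ]
  have h0 : ∀ v, Q.p v ≠ 0 → ind (Z v = Z w) * rat Q F Z Y y v =
      Q.m Z w / P1.m Z w * (P1.m (fun w => (F w, Z w)) v / Q.m (fun w => (F w, Z w)) v * ind (Z v = Z w)) := by
    intro v hv
    by_cases hz : Z v = Z w
    · rw [ind_of hz, one_mul, mul_one]
      unfold rat
      rw [← hP1, P1.Fac_m Z v w hz, Q.Fac_m Z v w hz]
      have a := (Q.m_pos (fun w => (F w, Z w)) hv).ne'
      by_cases hb : P1.m Z w = 0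
      · rw [hb, div_zero, div_zero, zero_div, zero_mul]
      · field_simp
    · rw [ind_not hz]; ring
  rw [Q.E_congr h0, FP.E_smul]
  have h1 := Q.E_ratio_le P1 (X := fun w => (F w, Z w)) (h := fun v => ind (Z v = Z w))
    (fun u v huv => by
      have h2 : Z u = Z v := congrArg Prod.snd huv
      show ind (Z u = Z w) = ind (Z v = Z w)
      rw [h2]) (fun _ _ => ind_nonneg _)
  have h2 : P1.E (fun v => ind (Z v = Z w)) = P1.m Z w := rfl
  rw [h2] at h1
  have h3 : 0 ≤ Q.m Z w / P1.m Z w := div_nonneg (FP.m_nonneg _ _ _) (FP.m_nonneg _ _ _)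
  refine (mul_le_mul_of_nonneg_left h1 h3).trans ?_
  by_cases hb : P1.m Z w = 0
  · rw [hb, mul_zero]; exact hQ.le
  · rw [div_mul_cancel₀ _ hb]

/-- value of the ratio at the true second row -/
theorem rat_true (Q : FP Om) (F : Om → κ) (Z : Om → ζ) (Y : Om → ι) {v : Om} (hv : Q.p v ≠ 0) :
    rat Q F Z Y (Y v) v = Q.m (fun w => (F w, Y w, Z w)) v * Q.m Z v /
      (Q.m (fun w => (F w, Z w)) v * Q.m (fun w => (Y w, Z w)) v) := by
  have h0 : Q.Pr (fun w => Y w = Y v) ≠ 0 := (FP.Pr_pos_of (S := fun w => Y w = Y v) hv rfl).ne'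
  unfold rat
  rw [FP.cond_m h0, FP.cond_m h0]
  have e1 : Q.E (fun u => ind (Y u = Y v) * ind ((F u, Z u) = (F v, Z v))) = Q.m (fun w => (F w, Y w, Z w)) v := by
    unfold FP.m
    refine Q.E_congr fun u _ => ?_
    rw [← ind_and]
    congr 1
    simp only [Prod.mk.injEq]
    exact propext ⟨fun ⟨a, b, c⟩ => ⟨b, a, c⟩, fun ⟨a, b, c⟩ => ⟨b, a, c⟩⟩
  have e2 : Q.E (fun u => ind (Y u = Y v) * ind (Z u = Z v)) = Q.m (fun w => (Y w, Z w)) v := by
    unfold FP.m
    refine Q.E_congr fun u _ => ?_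
    rw [← ind_and]
    congr 1
    simp only [Prod.mk.injEq]
  rw [e1, e2]
  have a := (Q.m_pos (fun w => (F w, Y w, Z w)) hv).ne'
  have b := (Q.m_pos (fun w => (Y w, Z w)) hv).ne'
  have c := (Q.m_pos (fun w => (F w, Z w)) hv).ne'
  have d := (Q.m_pos Z hv).ne'
  field_simp

/-- **TWO ROWS OF ONE EXACT POINT** (3933 (A)) -/
theorem p2 {Q : FP Om} {R : FP Th} {A : Om → α} {F : Om → κ} {Z : Om → ζ} {g : Om → Th → κ × ζ} {Yl : Om → ι}
    {Yf : Om → ξ} {R0 m dl Lam ep : ℝ} {k : ℕ} (hk : 0 < k) (hm : 0 < m) (hep : 0 < ep) (hep2 : ep ≤ 1 / 2)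
    (hR0 : Real.log (1 / ep) ≤ R0) (hthick : ∀ w, Q.p w ≠ 0 → Q.m Z w ≤ Real.exp R0 * Q.m (fun v => (F v, Z v)) w)
    (hS : ∀ (f : κ × ζ → ℝ) v, Q.p v ≠ 0 → R.E (fun θ => f (g v θ)) = Q.ce A (fun u => f (F u, Z u)) v)
    (hI : ∀ f : ι → ξ → κ × ζ → ℝ, Q.E (fun v => f (Yl v) (Yf v) (F v, Z v)) =
      Q.E (fun v => Q.ce A (fun u => f (Yl v) (Yf v) (F u, Z u)) v))
    (hkR : m * R0 ≤ 2 * k)
    (hsat : ∀ (S : Om → Prop) (psi : Om → ℝ), Fac A S → Q.Pr S ≠ 0 → Fac (fun w => (F w, Z w)) psi →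
      (∀ w, Q.p w ≠ 0 → Q.ce Z (fun v => Real.exp (psi v)) w ≤ 1) →
      m * (Q.cond S).E psi ≤ Real.log (1 / Q.Pr S) + 1)
    (hd : (FP.pr Q (FPpi fun _ : Fin k => R)).I (fun v => Yl v.1) (fun v i => g v.1 (v.2 i)) (fun _ => ()) ≤ dl)
    (hL : Q.Hc Yf Yl ≤ Lam) :
    Q.I F (fun w => (Yl w, Yf w)) Z ≤ 2 * (dl + Lam + 3) / m + m * R0 ^ 2 / (2 * k) + 2 * ep := by
  classical
  have hR00 : 0 ≤ R0 := by
    refine le_trans (Real.log_nonneg ?_) hR0
    rw [le_div_iff₀ hep]; linarith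
  set X : Om → κ × ζ := fun w => (F w, Z w) with hX
  set Y : Om → ι × ξ := fun w => (Yl w, Yf w) with hY
  set ys : ι × ξ → Om → ℝ := fun y v => (1 - ep) * rat Q F Z Y y v + ep with hys
  set ps : ι × ξ → Om → ℝ := fun y v => min (Real.log (ys y v)) R0 with hps
  have hys0 : ∀ y v, ep ≤ ys y v := fun y v => by
    have h1 := rat_nonneg Q F Z Y y v
    have h2 : 0 ≤ (1 - ep) * rat Q F Z Y y v := mul_nonneg (by linarith) h1
    show ep ≤ (1 - ep) * rat Q F Z Y y v + ep
    linarith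
  have hfac : ∀ y, Fac X (ps y) := fun y v w h => by
    show min (Real.log ((1 - ep) * rat Q F Z Y y v + ep)) R0 = min (Real.log ((1 - ep) * rat Q F Z Y y w + ep)) R0
    rw [rat_fac Q F Z Y y v w h]
  have hb : ∀ y v, |ps y v| ≤ R0 := by
    intro y v
    rw [abs_le]
    refine ⟨?_, min_le_right _ _⟩
    refine le_min ?_ (by linarith)
    have h1 := Real.log_le_log hep (hys0 y v)
    rw [one_div, Real.log_inv] at hR0
    linarith
  have hnorm : ∀ y w, Q.p w ≠ 0 → Q.ce Z (fun v => Real.exp (ps y v)) w ≤ 1 := by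
    intro y w hw
    have h1 : Q.ce Z (fun v => Real.exp (ps y v)) w ≤ Q.ce Z (ys y) w := by
      refine Q.ce_mono (fun v _ => ?_) w
      have h2 : Real.exp (ps y v) ≤ Real.exp (Real.log (ys y v)) := Real.exp_le_exp.2 (min_le_left _ _)
      rwa [Real.exp_log (lt_of_lt_of_le hep (hys0 y v))] at h2
    refine h1.trans ?_
    have h3 : Q.ce Z (ys y) w = (1 - ep) * Q.ce Z (rat Q F Z Y y) w + ep := by
      rw [hys]
      rw [Q.ce_add Z (fun v => (1 - ep) * rat Q F Z Y y v) (fun _ => ep) w, Q.ce_smul, Q.ce_const Z ep hw]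
    rw [h3]
    have h4 := mul_le_mul_of_nonneg_left (rat_norm Q F Z Y y hw) (show 0 ≤ 1 - ep by linarith)
    linarith
  choose f' hf1 hf2 using fun y => fac_fn (hfac y) hR00 (hb y)
  have key := p2_dv (Q := Q) (R := R) (A := A) (X := X) (g := g) (Yl := Yl) (Yf := Yf) (psi := fun l f x => f' (l, f) x)
    (R0 := R0) (m := m) (dl := dl) (Lam := Lam) hk hm hS hI (fun l f x => hf2 (l, f) x) hkR ?_ hd hL
  · have h1 : Q.I F Y Z - 2 * ep ≤ Q.E (fun v => f' (Yl v, Yf v) (X v)) := by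
      rw [FP.I_eq_E_log]
      have h2 : Q.E (fun w => Real.log (Q.m (fun v => (F v, Y v, Z v)) w * Q.m Z w /
          (Q.m (fun v => (F v, Z v)) w * Q.m (fun v => (Y v, Z v)) w))) - 2 * ep =
          Q.E (fun w => Real.log (Q.m (fun v => (F v, Y v, Z v)) w * Q.m Z w /
          (Q.m (fun v => (F v, Z v)) w * Q.m (fun v => (Y v, Z v)) w)) - 2 * ep) := by
        rw [FP.E_sub, FP.E_const]
      rw [h2]
      refine Q.E_mono fun w hw => ?_
      rw [hf1 (Y w) w, ← rat_true Q F Z Y hw]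
      have a := Q.m_pos (fun w => (F w, Y w, Z w)) hw
      have b := Q.m_pos (fun w => (Y w, Z w)) hw
      have c := Q.m_pos (fun w => (F w, Z w)) hw
      have d := Q.m_pos Z hw
      have hpos : 0 < rat Q F Z Y (Y w) w := by
        rw [rat_true Q F Z Y hw]
        exact div_pos (mul_pos a d) (mul_pos c b)
      have hle : rat Q F Z Y (Y w) w ≤ Real.exp R0 := by
        rw [rat_true Q F Z Y hw, div_le_iff₀ (mul_pos c b)]
        have h3 : Q.m (fun w => (F w, Y w, Z w)) w ≤ Q.m (fun w => (Y w, Z w)) w :=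
          Q.m_anti (Fac.snd F fun w => (Y w, Z w)) w
        calc Q.m (fun w => (F w, Y w, Z w)) w * Q.m Z w ≤ Q.m (fun w => (Y w, Z w)) w * (Real.exp R0 * Q.m (fun v => (F v, Z v)) w) :=
              mul_le_mul h3 (hthick w hw) d.le b.le
          _ = _ := by ring
      have h1ep : 0 < 1 - ep := by linarith
      show Real.log (rat Q F Z Y (Y w) w) - 2 * ep ≤ min (Real.log ((1 - ep) * rat Q F Z Y (Y w) w + ep)) R0
      refine le_min ?_ ?_
      · have h3 : Real.log ((1 - ep) * rat Q F Z Y (Y w) w) ≤ Real.log ((1 - ep) * rat Q F Z Y (Y w) w + ep) :=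
          Real.log_le_log (mul_pos h1ep hpos) (by linarith)
        rw [Real.log_mul h1ep.ne' hpos.ne'] at h3
        have h4 : - (2 * ep) ≤ Real.log (1 - ep) := by
          have h5 := Real.one_sub_inv_le_log_of_pos h1ep
          have h6 : (1 - ep)⁻¹ ≤ 1 + 2 * ep := by
            rw [inv_eq_one_div, div_le_iff₀ h1ep]
            nlinarith
          linarith
        linarith
      · have h3 := Real.log_le_log hpos hle
        rw [Real.log_exp] at h3
        linarith
    linarith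
  · intro l f u _
    have h1 : Q.ce A (fun w => f' (l, f) (X w)) = Q.ce A (ps (l, f)) := by
      have : (fun w => f' (l, f) (X w)) = ps (l, f) := funext fun w => hf1 (l, f) w
      rw [this]
    show Q.Pr (fun v => u ≤ Q.ce A (fun w => f' (l, f) (X w)) v) ≤ _
    rw [h1]
    exact tail_of_sat (fun S hA h0 => hsat S (ps (l, f)) hA h0 (hfac (l, f)) (hnorm (l, f))) hm.le

end main

end Pool.Agent.GMH
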