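import Pool.Agent.GMH.InP
import Pool.Agent.GMH.P2kl

/-!
# GMH.P2R: two rows of one exact point are independent, for the run (helper49)

`|K| = 3`, vertices `b`, `c`, `d`; `b` exact.  State saturated (`SatA`), prices `N`, letters `U`, labels `w.2.2`.

* `eql_I` : informations depend on the law only; `I_supp`, `I_trunc`, `I_disint`, `E_disint` : tools;
* `row_indep`, `samp`, `thickF`, `HcF`, `sat_p2`, `hd_fix` : the hypotheses of `P2kl.p2` in the class `clsb` = public class,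
  exact point and own letter of `b`;
* `p2R` : **(P2)** in one class: `I(label of (b,c); letter of d, label of (b,d) | truncated letter of c)`;
* `p2R_pair` : `I(label of (b,c); label of (b,d) | letters of c, d)` in one class, full letters;
* `own`, `own_ent` : probability of the own letter, its mean logarithm is `ent {e}`;
* `p2_avg` : **the mean over all classes**, bound `p2b` : `theta = p2b (ent b) + log (1/al) * ent c / log M`.
-/

set_option autoImplicit false
set_option linter.unusedSectionVars false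

namespace Pool.Agent.GMH

open Finset Pool.Agent.PWZ Pool.Agent.M3 Pool.Agent.GM Pool.Agent.GM.Harm

/-! ## equality in law -/

section eql

variable {Om1 Om2 O' κ ι ι' : Type*} [Fintype Om1] [Fintype Om2] {P1 : FP Om1} {P2 : FP Om2} {π1 : Om1 → O'} {π2 : Om2 → O'}

/-- informations depend on the law only -/
theorem eql_I (H : ∀ f : O' → ℝ, P1.E (fun w => f (π1 w)) = P2.E (fun w => f (π2 w))) (X : O' → κ) (Y : O' → ι)
    (Z : O' → ι') : P1.I (fun w => X (π1 w)) (fun w => Y (π1 w)) (fun w => Z (π1 w)) =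
      P2.I (fun w => X (π2 w)) (fun w => Y (π2 w)) (fun w => Z (π2 w)) := by
  rw [FP.I_eq_E_log, FP.I_eq_E_log]
  set F : O' → ℝ := fun o => Real.log (P1.E (fun v => ind ((X (π1 v), Y (π1 v), Z (π1 v)) = (X o, Y o, Z o))) *
    P1.E (fun v => ind (Z (π1 v) = Z o)) / (P1.E (fun v => ind ((X (π1 v), Z (π1 v)) = (X o, Z o))) *
    P1.E (fun v => ind ((Y (π1 v), Z (π1 v)) = (Y o, Z o))))) with hF
  have h1 : P1.E (fun w => Real.log (P1.m (fun v => (X (π1 v), Y (π1 v), Z (π1 v))) w * P1.m (fun v => Z (π1 v)) w /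
      (P1.m (fun v => (X (π1 v), Z (π1 v))) w * P1.m (fun v => (Y (π1 v), Z (π1 v))) w))) = P1.E (fun w => F (π1 w)) := rfl
  rw [h1, H F]
  refine P2.E_congr fun w _ => ?_
  have a := (H fun o => ind ((X o, Y o, Z o) = (X (π2 w), Y (π2 w), Z (π2 w))))
  have b := (H fun o => ind (Z o = Z (π2 w)))
  have c := (H fun o => ind ((X o, Z o) = (X (π2 w), Z (π2 w))))
  have d := (H fun o => ind ((Y o, Z o) = (Y (π2 w), Z (π2 w))))
  rw [hF]
  simp only
  rw [a, b, c, d]
  rfl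

end eql

section indep

variable {Om κ ι : Type*} [Fintype Om] {P : FP Om}

/-- no information between independent maps -/
theorem I_of_indep {X : Om → κ} {Y : Om → ι} (h : P.Indep X Y) : P.I X Y (fun _ => ()) = 0 := by
  rw [FP.I_eq_E_log, P.E_congr (g := fun _ => 0) fun w hw => ?_, FP.E_const]
  have e1 : P.m (fun v => (X v, Y v, ())) w = P.m X w * P.m Y w := by
    rw [← FP.m_mul_indep h (T := X) (Fac.refl X) w]
    unfold FP.m
    refine P.E_congr fun v _ => ?_
    rw [← ind_and]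
    congr 1
    simp only [Prod.mk.injEq, and_true]
  have e2 : P.m (fun _ : Om => ()) w = 1 := by
    unfold FP.m
    simp only [ind_of, FP.E_const]
  have e3 : P.m (fun v => (X v, ())) w = P.m X w := P.m_congr (Fac.fst _ _) ((Fac.refl _).prod (Fac.const _ _)) w
  have e4 : P.m (fun v => (Y v, ())) w = P.m Y w := P.m_congr (Fac.fst _ _) ((Fac.refl _).prod (Fac.const _ _)) w
  rw [e1, e2, e3, e4, mul_one, div_self (mul_pos (P.m_pos X hw) (P.m_pos Y hw)).ne', Real.log_one]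

theorem E_split {X : Om → κ} {Y : Om → ι} (h : P.Indep X Y) (F : κ → ι → ℝ) :
    P.E (fun w => F (X w) (Y w)) = P.E (fun u => P.E (fun w => F (X w) (Y u))) :=
  P.E_freeze h (F := fun c w => F (X w) c) fun c v w hvw => by
    show F (X v) c = F (X w) c
    rw [hvw]

end indep

/-! ## uniform laws -/

section uS

variable {β K : Type} [Fintype β] [Fintype K] [DecidableEq K]

open Classical in
/-- uniform law on a set -/
noncomputable def uS (S : Finset β) (hS : S.Nonempty) : FP β where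
  p b := if b ∈ S then 1 / (S.card : ℝ) else 0
  nn b := by split_ifs <;> positivity
  tot := by
    rw [Finset.sum_ite_mem, univ_inter, Finset.sum_const, nsmul_eq_mul, mul_one_div, div_self]
    exact_mod_cast hS.card_pos.ne'

theorem uS_supp {S : Finset β} {hS : S.Nonempty} {b : β} (h : (uS S hS).p b ≠ 0) : b ∈ S := by
  by_contra hb
  exact h (if_neg hb)

theorem uS_E (S : Finset β) (hS : S.Nonempty) (g : β → ℝ) : (uS S hS).E g = (∑ b ∈ S, g b) / S.card := by
  classical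
  show ∑ b, (if b ∈ S then 1 / (S.card : ℝ) else 0) * g b = _
  simp only [ite_mul, zero_mul]
  rw [Finset.sum_ite_mem, univ_inter, Finset.sum_div]
  exact Finset.sum_congr rfl fun b _ => by ring

theorem pi_uS (S : K → Finset β) (hS : ∀ j, (S j).Nonempty) (Ψ : (K → β) → ℝ) :
    (FPpi fun j => uS (S j) (hS j)).E Ψ = (∑ y ∈ Fintype.piFinset S, Ψ y) / bsz S := by
  classical
  have e1 : ∀ y : K → β, (FPpi fun j => uS (S j) (hS j)).p y = if y ∈ Fintype.piFinset S then 1 / bsz S else 0 := by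
    intro y
    show ∏ j, (if y j ∈ S j then 1 / ((S j).card : ℝ) else 0) = _
    by_cases hy : y ∈ Fintype.piFinset S
    · rw [if_pos hy, Finset.prod_congr rfl fun j _ => if_pos (Fintype.mem_piFinset.1 hy j), Finset.prod_div_distrib,
        Finset.prod_const_one]
      rfl
    · rw [if_neg hy]
      rw [Fintype.mem_piFinset] at hy
      push Not at hy
      obtain ⟨j, hj⟩ := hy
      exact Finset.prod_eq_zero (mem_univ j) (if_neg hj)
  unfold FP.E
  rw [Finset.sum_congr rfl fun y _ => by rw [e1 y]]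
  simp only [ite_mul, zero_mul]
  rw [Finset.sum_ite_mem, univ_inter, Finset.sum_div]
  exact Finset.sum_congr rfl fun y _ => by ring

/-- mean of a function of one coordinate -/
theorem avg_one (S : K → Finset β) (hS : ∀ j, (S j).Nonempty) (c : K) (g : β → ℝ) :
    (∑ y ∈ Fintype.piFinset S, g (y c)) / bsz S = (uS (S c) (hS c)).E g := by
  rw [← pi_uS S hS fun y => g (y c)]
  exact FPpi_E (fun j => uS (S j) (hS j)) c g

end uS

/-! ## one class of an exact point -/

section cls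

variable {K X β γ φ υ : Type} [Fintype K] [DecidableEq K] [Fintype X] [Fintype β] [Fintype φ] [Nonempty X] [Nonempty β]
  {D : HD K X β γ φ} {al : ℝ} (h : D.Thick al)

/-- the box is the same for all points of a class -/
theorem bxs_eq {t : ℕ} {K0 : Finset K} {v w : Pt K X β φ} (hvw : BB D t K0 v = BB D t K0 w) :
    bxs D t K0 v.2.1 = bxs D t K0 w.2.1 := by
  classical
  rw [BB_eq] at hvw
  funext j
  unfold bxs
  by_cases hj : j ∈ K0
  · rw [if_pos hj, if_pos hj, hvw.1 j hj]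
  · rw [if_neg hj, if_neg hj]
    unfold HD.cB
    rw [hvw.2.2 j]

/-- data of the hidden point -/
def Ah (D : HD K X β γ φ) (t : ℕ) (K0 : Finset K) (w : Pt K X β φ) : X × ((K → Option β) × (γ × (K → γ))) :=
  (w.1, BB D t K0 w)

variable {t : ℕ} {b c d : K} {V : Pt K X β φ → Prop} {w0 : Pt K X β φ}

theorem ce_cls {K0 : Finset K} (hV : Fac (Ah D t K0) V) (hV1 : ∀ v w, V v → V w → BB D t K0 v = BB D t K0 w)
    (hw0 : V w0) (hV0 : (D.P h t).Pr V ≠ 0) (f : Pt K X β φ → ℝ) {w : Pt K X β φ} (hw : ((D.P h t).cond V).p w ≠ 0) :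
    ((D.P h t).cond V).ce (Ah D t K0) f w = (Bx h t w.1 (bxs D t K0 w0.2.1)).E fun u => f (w.1, u) := by
  rw [← bxs_eq (hV1 w w0 (cond_supp hV0 hw).1 hw0)]
  exact cls_box h hV hV0 f hw

/-- points of the support -/
theorem supp_cls {K0 : Finset K} (hV1 : ∀ v w, V v → V w → BB D t K0 v = BB D t K0 w)
    (hw0 : V w0) (hV0 : (D.P h t).Pr V ≠ 0) {w : Pt K X β φ} (hw : ((D.P h t).cond V).p w ≠ 0) :
    inBox (bxs D t K0 w0.2.1) w.2 ∧ D.qa t w.1 = D.qa t w0.1 ∧ ∀ l, D.kf t l w.1 w.2.1 (w.2.2 l) ≠ 0 := by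
  obtain ⟨h1, h2⟩ := cond_supp hV0 hw
  have h3 := hV1 w w0 h1 hw0
  rw [BB_eq] at h3
  refine ⟨inBox_bxs.2 ⟨h3.1, h3.2.2⟩, h3.2.1, fun l hl => h2 ?_⟩
  show (∏ l, D.kf t l w.1 w.2.1 (w.2.2 l)) / _ = 0
  rw [Finset.prod_eq_zero (mem_univ l) hl, zero_div]

/-- **independence of the two rows** given the hidden point -/
theorem row_indep {K0 : Finset K} (hV : Fac (Ah D t K0) V) (hV1 : ∀ v w, V v → V w → BB D t K0 v = BB D t K0 w)
    (hw0 : V w0) (hV0 : (D.P h t).Pr V ≠ 0) (hcd : c ≠ d) (hK : ∀ j, j ≠ c → j ≠ d → j ∈ K0)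
    {κ ι : Type*} (Yv : X → β → φ → ι) (Xv : X → β → φ → κ) (f : ι → κ → ℝ) :
    ((D.P h t).cond V).E (fun w => f (Yv w.1 (w.2.1 d) (w.2.2 c)) (Xv w.1 (w.2.1 c) (w.2.2 d))) =
      ((D.P h t).cond V).E (fun w => ((D.P h t).cond V).ce (Ah D t K0)
        (fun u => f (Yv w.1 (w.2.1 d) (w.2.2 c)) (Xv u.1 (u.2.1 c) (u.2.2 d))) w) := by
  classical
  set Q := (D.P h t).cond V with hQ
  set S0 := bxs D t K0 w0.2.1 with hS0
  have hS : ∀ j, (S0 j).Nonempty := fun j => bxs_ne t K0 w0.2.1 j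
  have hin : ∀ x : X, (Bx h t x S0).Indep (fun u => (u.1 c, u.2 d)) (fun u => (u.1 d, u.2 c)) := fun x =>
    indep_two h hS (bxs_cell K0 w0.2.1 t) x hcd fun j hj1 hj2 b hb b' hb' => by
      have hjK := hK j hj1 hj2
      simp only [hS0, bxs, if_pos hjK, Finset.mem_singleton] at hb hb'
      rw [hb, hb']
  have hce : ∀ g : Pt K X β φ → ℝ, ∀ w, Q.p w ≠ 0 → Q.ce (Ah D t K0) g w = (Bx h t w.1 S0).E fun u => g (w.1, u) :=
    fun g w hw => ce_cls h hV hV1 hw0 hV0 g hw
  -- left side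
  rw [← Q.E_ce (Ah D t K0) (fun w => f (Yv w.1 (w.2.1 d) (w.2.2 c)) (Xv w.1 (w.2.1 c) (w.2.2 d)))]
  have h1 : ∀ w, Q.p w ≠ 0 → Q.ce (Ah D t K0) (fun w => f (Yv w.1 (w.2.1 d) (w.2.2 c)) (Xv w.1 (w.2.1 c) (w.2.2 d))) w =
      (Bx h t w.1 S0).E fun u' => (Bx h t w.1 S0).E fun u => f (Yv w.1 (u'.1 d) (u'.2 c)) (Xv w.1 (u.1 c) (u.2 d)) := by
    intro w hw
    rw [hce _ w hw]
    exact E_split (hin w.1) (fun p q => f (Yv w.1 q.1 q.2) (Xv w.1 p.1 p.2))
  rw [Q.E_congr h1]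
  -- right side
  have h2 : ∀ w, Q.p w ≠ 0 → Q.ce (Ah D t K0) (fun u => f (Yv w.1 (w.2.1 d) (w.2.2 c)) (Xv u.1 (u.2.1 c) (u.2.2 d))) w =
      (Bx h t w.1 S0).E fun u => f (Yv w.1 (w.2.1 d) (w.2.2 c)) (Xv w.1 (u.1 c) (u.2 d)) := fun w hw => hce _ w hw
  rw [Q.E_congr h2]
  rw [← Q.E_ce (Ah D t K0) (fun w => (Bx h t w.1 S0).E fun u => f (Yv w.1 (w.2.1 d) (w.2.2 c)) (Xv w.1 (u.1 c) (u.2 d)))]
  refine Q.E_congr fun w hw => ?_
  rw [hce _ w hw]

/-! ### samples -/

open Classical in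
/-- truncated letter -/
noncomputable def tru (Typ : β → υ → Prop) (c' : β) (u : υ) : Option υ := if Typ c' u then some u else none

/-- point and truncated letter at the vertex `c` -/
noncomputable def zc (U : Finset K → X → (K → β) → υ) (Typ : β → υ → Prop) (c : K) (y0 : K → β) (x : X) (c' : β) :
    β × Option υ := (c', tru Typ c' (U {c} x (Function.update y0 c c')))

/-- truncated top letter -/
def fc (z : β × Option υ) (F : φ) : Option φ := z.2.map fun _ => F

/-- point and letter at the vertex `d` -/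
def ud (U : Finset K → X → (K → β) → υ) (d : K) (y0 : K → β) (x : X) (d' : β) : β × υ :=
  (d', U {d} x (Function.update y0 d d'))

/-- the sampled row -/
noncomputable def gs (D : HD K X β γ φ) (t : ℕ) (U : Finset K → X → (K → β) → υ) (Typ : β → υ → Prop) (c d : K)
    (y0 : K → β) (v : Pt K X β φ) (θ : β × Cn K X β φ) : Option φ × (β × Option υ) :=
  (fc (zc U Typ c y0 v.1 θ.1) (θ.2 (v.1, rep D t (univ.erase d) (Function.update y0 c θ.1))), zc U Typ c y0 v.1 θ.1)

theorem p2R_coinF_E (t : ℕ) (l : K) (x : X) (y : K → β) (g : φ → ℝ) :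
    (coinF h t l).E (fun θ => g (θ (x, rep D t (univ.erase l) y))) = ∑ F, D.kf t l x y F * g F := by
  have e2 : (coinF h t l).E (fun θ => g (θ (x, rep D t (univ.erase l) y))) =
      (kf1 h t l x (rep D t (univ.erase l) y)).E g := by
    unfold coinF
    exact @FPpi_E (X × (K → β)) φ _ (decI K X β) _ (fun i => kf1 h t l i.1 i.2) (x, rep D t (univ.erase l) y) g
  rw [e2]
  have h3 := rep_same (D := D) (t := t) (univ.erase l) y
  have h4 : D.kf t l x (rep D t (univ.erase l) y) = D.kf t l x y :=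
    D.dep t l x _ _ (fun j hj => h3.1 j (Finset.mem_erase.2 ⟨hj, mem_univ j⟩)) (h3.2 l)
  show ∑ F, D.kf t l x (rep D t (univ.erase l) y) F * g F = ∑ F, D.kf t l x y F * g F
  rw [h4]

/-- the label `d` in the box -/
theorem kf_box {K0 : Finset K} (hcd : c ≠ d) (hK : ∀ j, j ≠ c → j ≠ d → j ∈ K0) {y0 y : K → β}
    (hy : y ∈ Fintype.piFinset (bxs D t K0 y0)) (x : X) :
    D.kf t d x y = D.kf t d x (Function.update y0 c (y c)) := by
  have h1 : inBox (bxs D t K0 y0) ((y, fun _ => ()) : (K → β) × (K → Unit)) := Fintype.mem_piFinset.1 hy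
  have h2 := (inBox_bxs (φ := Unit) (D := ⟨D.qa, D.qb, fun _ _ _ _ _ => 1, D.ra, D.rb, fun _ _ _ _ _ _ _ => rfl⟩)).1 h1
  refine D.dep t d x _ _ (fun j hj => ?_) ?_
  · by_cases hjc : j = c
    · subst hjc; rw [Function.update_self]
    · rw [Function.update_of_ne hjc]; exact h2.1 j (hK j hjc hj)
  · rw [Function.update_of_ne hcd.symm]; exact h2.2 d

/-- **the sampled row has the law of the row given the hidden point** -/
theorem samp {K0 : Finset K} (hV : Fac (Ah D t K0) V) (hV1 : ∀ v w, V v → V w → BB D t K0 v = BB D t K0 w)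
    (hw0 : V w0) (hV0 : (D.P h t).Pr V ≠ 0) (hcd : c ≠ d) (hK : ∀ j, j ≠ c → j ≠ d → j ∈ K0)
    (U : Finset K → X → (K → β) → υ) (Typ : β → υ → Prop) (f : Option φ × (β × Option υ) → ℝ) {w : Pt K X β φ}
    (hw : ((D.P h t).cond V).p w ≠ 0) :
    (FP.pr (uS (bxs D t K0 w0.2.1 c) (bxs_ne t K0 w0.2.1 c)) (coinF h t d)).E
        (fun θ => f (gs D t U Typ c d w0.2.1 w θ)) =
      ((D.P h t).cond V).ce (Ah D t K0)
        (fun u => f (fc (zc U Typ c w0.2.1 u.1 (u.2.1 c)) (u.2.2 d), zc U Typ c w0.2.1 u.1 (u.2.1 c))) w := by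
  classical
  have hS : ∀ j, (bxs D t K0 w0.2.1 j).Nonempty := fun j => bxs_ne t K0 w0.2.1 j
  rw [ce_cls h hV hV1 hw0 hV0 _ hw, FP.pr_E]
  set y0 := w0.2.1 with hy0
  set G : β → ℝ := fun c' => ∑ F, D.kf t d w.1 (Function.update y0 c c') F *
    f (fc (zc U Typ c y0 w.1 c') F, zc U Typ c y0 w.1 c') with hG
  have h1 : (Bx h t w.1 (bxs D t K0 y0)).E (fun u => f (fc (zc U Typ c y0 w.1 (u.1 c)) (u.2 d), zc U Typ c y0 w.1 (u.1 c))) =
      (uS (bxs D t K0 y0 c) (hS c)).E G := by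
    rw [Bx_lab h hS t w.1 d (fun y F => f (fc (zc U Typ c y0 w.1 (y c)) F, zc U Typ c y0 w.1 (y c))),
      ← avg_one (bxs D t K0 y0) hS c G]
    congr 1
    refine Finset.sum_congr rfl fun y hy => ?_
    rw [kf_box hcd hK hy w.1]
  rw [h1]
  refine (uS (bxs D t K0 y0 c) (hS c)).E_congr fun c' _ => ?_
  exact p2R_coinF_E h t d w.1 (Function.update y0 c c') (fun F => f (fc (zc U Typ c y0 w.1 c') F, zc U Typ c y0 w.1 c'))

/-! ### thickness -/

theorem ce_eq_of {Om ι ι' : Type*} [Fintype Om] {Q : FP Om} {Z : Om → ι} {Z' : Om → ι'} (f : Om → ℝ) {w : Om}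
    (hz : ∀ v, Q.p v ≠ 0 → (Z v = Z w ↔ Z' v = Z' w)) : Q.ce Z f w = Q.ce Z' f w := by
  unfold FP.ce
  have e : ∀ g : Om → ℝ, Q.E (fun v => ind (Z v = Z w) * g v) = Q.E (fun v => ind (Z' v = Z' w) * g v) := fun g =>
    Q.E_congr fun v hv => by rw [propext (hz v hv)]
  have e2 : Q.m Z w = Q.m Z' w := Q.E_congr fun v hv => by rw [propext (hz v hv)]
  rw [e f, e2]

/-- the label at the vertices without `d`: its law at the exact point is thick -/
theorem lab_thick {K0 : Finset K} (hV1 : ∀ v w, V v → V w → BB D t K0 v = BB D t K0 w)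
    (hw0 : V w0) (hV0 : (D.P h t).Pr V ≠ 0) (hcd : c ≠ d) (hK : ∀ j, j ≠ c → j ≠ d → j ∈ K0)
    {v w : Pt K X β φ} (hv : ((D.P h t).cond V).p v ≠ 0) (hw : ((D.P h t).cond V).p w ≠ 0) :
    al ≤ D.kf t d v.1 (Function.update w0.2.1 c (w.2.1 c)) (w.2.2 d) := by
  obtain ⟨a1, a2, a3⟩ := supp_cls h hV1 hw0 hV0 hw
  obtain ⟨b1, b2, b3⟩ := supp_cls h hV1 hw0 hV0 hv
  have h1 : D.kf t d w.1 w.2.1 (w.2.2 d) ≠ 0 := a3 d
  have hy : w.2.1 ∈ Fintype.piFinset (bxs D t K0 w0.2.1) := Fintype.mem_piFinset.2 a1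
  rw [kf_box hcd hK hy w.1] at h1
  exact h.thick t d w.1 v.1 _ _ (a2.trans b2.symm) h1

/-- **thickness of the truncated letter** -/
theorem thickF {K0 : Finset K} (hV : Fac (Ah D t K0) V) (hV1 : ∀ v w, V v → V w → BB D t K0 v = BB D t K0 w)
    (hw0 : V w0) (hV0 : (D.P h t).Pr V ≠ 0) (hcd : c ≠ d) (hK : ∀ j, j ≠ c → j ≠ d → j ∈ K0) (hal : al ≤ 1)
    (U : Finset K → X → (K → β) → υ) (Typ : β → υ → Prop) {w : Pt K X β φ} (hw : ((D.P h t).cond V).p w ≠ 0) :
    al * ((D.P h t).cond V).m (fun w => zc U Typ c w0.2.1 w.1 (w.2.1 c)) w ≤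
      ((D.P h t).cond V).m (fun w => (fc (zc U Typ c w0.2.1 w.1 (w.2.1 c)) (w.2.2 d), zc U Typ c w0.2.1 w.1 (w.2.1 c))) w := by
  classical
  set Q := (D.P h t).cond V with hQ
  set y0 := w0.2.1 with hy0
  have hS : ∀ j, (bxs D t K0 y0 j).Nonempty := fun j => bxs_ne t K0 y0 j
  set Z : Pt K X β φ → β × Option υ := fun w => zc U Typ c y0 w.1 (w.2.1 c) with hZ
  rcases hz : (Z w).2 with _ | u
  · -- no letter
    have e1 : Q.m (fun w => (fc (Z w) (w.2.2 d), Z w)) w = Q.m Z w := by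
      unfold FP.m
      refine Q.E_congr fun v _ => ?_
      congr 1
      refine propext ⟨fun hh => (Prod.mk.injEq _ _ _ _ ▸ hh : _ ∧ _).2, fun hh => ?_⟩
      show (fc (Z v) (v.2.2 d), Z v) = (fc (Z w) (w.2.2 d), Z w)
      rw [hh]
      unfold fc
      rw [hz]
      rfl
    show al * Q.m Z w ≤ Q.m (fun w => (fc (Z w) (w.2.2 d), Z w)) w
    rw [e1]
    have := Q.m_nonneg Z w
    nlinarith
  · show al * Q.m Z w ≤ Q.m (fun w => (fc (Z w) (w.2.2 d), Z w)) w
    have e1 : Q.m (fun w => (fc (Z w) (w.2.2 d), Z w)) w = Q.E (fun v => ind (v.2.2 d = w.2.2 d ∧ Z v = Z w)) := by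
      unfold FP.m
      refine Q.E_congr fun v _ => ?_
      congr 1
      rw [Prod.mk.injEq]
      refine propext ⟨fun hh => ⟨?_, hh.2⟩, fun hh => ⟨?_, hh.2⟩⟩
      · have h1 := hh.1
        rw [hh.2] at h1
        unfold fc at h1
        rw [hz] at h1
        exact Option.some.inj h1
      · rw [hh.2, hh.1]
    rw [e1]
    unfold FP.m
    rw [← FP.E_smul, ← Q.E_ce (Ah D t K0) (fun v => al * ind (Z v = Z w)),
      ← Q.E_ce (Ah D t K0) (fun v => ind (v.2.2 d = w.2.2 d ∧ Z v = Z w))]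
    refine Q.E_mono fun v hv => ?_
    rw [ce_cls h hV hV1 hw0 hV0 _ hv, ce_cls h hV hV1 hw0 hV0 _ hv]
    have e2 : (Bx h t v.1 (bxs D t K0 y0)).E (fun u => ind (u.2 d = w.2.2 d ∧ Z (v.1, u) = Z w)) =
        (∑ y ∈ Fintype.piFinset (bxs D t K0 y0), ∑ F, D.kf t d v.1 y F *
          ind (F = w.2.2 d ∧ zc U Typ c y0 v.1 (y c) = Z w)) / bsz (bxs D t K0 y0) :=
      Bx_lab h hS t v.1 d (fun y F => ind (F = w.2.2 d ∧ zc U Typ c y0 v.1 (y c) = Z w))
    have e3 : (Bx h t v.1 (bxs D t K0 y0)).E (fun u => al * ind (Z (v.1, u) = Z w)) =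
        (∑ y ∈ Fintype.piFinset (bxs D t K0 y0), ∑ F, D.kf t d v.1 y F *
          (al * ind (zc U Typ c y0 v.1 (y c) = Z w))) / bsz (bxs D t K0 y0) :=
      Bx_lab h hS t v.1 d (fun y _ => al * ind (zc U Typ c y0 v.1 (y c) = Z w))
    show (Bx h t v.1 (bxs D t K0 y0)).E (fun u => al * ind (Z (v.1, u) = Z w)) ≤
      (Bx h t v.1 (bxs D t K0 y0)).E (fun u => ind (u.2 d = w.2.2 d ∧ Z (v.1, u) = Z w))
    rw [e2, e3]
    refine div_le_div_of_nonneg_right (Finset.sum_le_sum fun y hy => ?_) (bsz_pos hS).le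
    rw [← Finset.sum_mul, h.one, one_mul]
    rw [Finset.sum_eq_single (w.2.2 d)]
    · by_cases hzy : zc U Typ c y0 v.1 (y c) = Z w
      · rw [ind_of hzy, ind_of (show w.2.2 d = w.2.2 d ∧ zc U Typ c y0 v.1 (y c) = Z w from ⟨rfl, hzy⟩), mul_one, mul_one]
        have hyc : y c = w.2.1 c := congrArg Prod.fst hzy
        rw [kf_box hcd hK hy v.1, hyc]
        exact lab_thick h hV1 hw0 hV0 hcd hK hv hw
      · rw [ind_not hzy, mul_zero]
        exact mul_nonneg (h.nn _ _ _ _ _) (ind_nonneg _)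
    · intro F _ hF
      rw [ind_not (fun hh => hF hh.1), mul_zero]
    · intro hh; exact absurd (mem_univ _) hh

/-- **entropy of the other label** -/
theorem HcF {K0 : Finset K} (hV1 : ∀ v w, V v → V w → BB D t K0 v = BB D t K0 w)
    (hw0 : V w0) (hV0 : (D.P h t).Pr V ≠ 0) (hK : ∀ j, j ≠ c → j ≠ d → j ∈ K0)
    {ι : Type*} (Y : Pt K X β φ → ι) (hY : ∀ v w, ((D.P h t).cond V).p v ≠ 0 → ((D.P h t).cond V).p w ≠ 0 →
      Y v = Y w → v.2.1 d = w.2.1 d) :
    ((D.P h t).cond V).Hc (fun w => w.2.2 c) Y ≤ Real.log (1 / al) := by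
  classical
  refine Hc_le_card _ _ _ fun w hw => ?_
  set s0 : Finset φ := univ.filter fun F => al ≤ D.kf t c w.1 w.2.1 F with hs0
  refine ⟨s0, ?_, fun v hv hvw => ?_⟩
  · rw [le_div_iff₀ h.pos, ← h.one t c w.1 w.2.1]
    calc (s0.card : ℝ) * al = ∑ _F ∈ s0, al := by rw [Finset.sum_const, nsmul_eq_mul]
      _ ≤ ∑ F ∈ s0, D.kf t c w.1 w.2.1 F := Finset.sum_le_sum fun F hF => (Finset.mem_filter.1 hF).2
      _ ≤ _ := Finset.sum_le_sum_of_subset_of_nonneg (Finset.subset_univ _) fun F _ _ => h.nn t c _ _ F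
  · obtain ⟨a1, a2, a3⟩ := supp_cls h hV1 hw0 hV0 hw
    obtain ⟨b1, b2, b3⟩ := supp_cls h hV1 hw0 hV0 hv
    refine Finset.mem_filter.2 ⟨mem_univ _, ?_⟩
    have h1 : D.kf t c v.1 v.2.1 (v.2.2 c) ≠ 0 := b3 c
    have a4 := inBox_bxs.1 a1
    have b4 := inBox_bxs.1 b1
    have h2 : D.kf t c v.1 v.2.1 = D.kf t c v.1 w.2.1 := by
      refine D.dep t c v.1 _ _ (fun j hj => ?_) ?_
      · by_cases hjd : j = d
        · rw [hjd]; exact hY v w hv hw hvw
        · rw [b4.1 j (hK j hj hjd), a4.1 j (hK j hj hjd)]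
      · rw [b4.2 c, a4.2 c]
    rw [h2] at h1
    exact h.thick t c v.1 w.1 _ _ (b2.trans a2.symm) h1

/-! ### saturation in the class of the exact point -/

section satb

variable {N : Finset K → ℝ} {S : Finset (Finset K)} {U : Finset K → X → (K → β) → υ}

/-- **the saturation as it is used in `p2`** -/
theorem sat_p2
    (hU : ∀ I x y y', (∀ j ∈ I, y j = y' j) → (∀ j, D.qb t (y j) = D.qb t (y' j)) → U I x y = U I x y')
    (hs : SatA (D.P h t) (BB D t) N S (LL U) (Dep D t)) (hN : ∀ J ∈ S, 0 ≤ N J)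
    (hbc : b ≠ c) (hbd : b ≠ d) (hcd : c ≠ d) (hK3 : ∀ j, j = b ∨ j = c ∨ j = d)
    (hVf : Fac (fun w => (le (LL U) {b} w, BB D t {b} w)) V)
    (hV1 : ∀ v w, V v → V w → BB D t {b} v = BB D t {b} w) (hV2 : ∀ v w, V v → V w → ∀ I ⊆ {b}, U I v.1 v.2.1 = U I w.1 w.2.1)
    (hw0 : V w0) (hV0 : (D.P h t).Pr V ≠ 0) (hbS : {b} ∈ S) (hdS : univ.erase d ∈ S) (hNb : 0 < N {b})
    (Typ : β → υ → Prop) {S1 : Pt K X β φ → Prop} {psi : Pt K X β φ → ℝ} (hS1 : Fac (Ah D t {b}) S1)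
    (hS10 : ((D.P h t).cond V).Pr S1 ≠ 0)
    (hpsi : Fac (fun w => (fc (zc U Typ c w0.2.1 w.1 (w.2.1 c)) (w.2.2 d), zc U Typ c w0.2.1 w.1 (w.2.1 c))) psi)
    (hone : ∀ w, ((D.P h t).cond V).p w ≠ 0 → ((D.P h t).cond V).ce (fun w => zc U Typ c w0.2.1 w.1 (w.2.1 c))
      (fun v => Real.exp (psi v)) w ≤ 1) :
    N (univ.erase d) / (2 * N {b}) * (((D.P h t).cond V).cond S1).E psi ≤
      Real.log (1 / ((D.P h t).cond V).Pr S1) + 1 := by
  classical
  set Q := (D.P h t).cond V with hQ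
  set y0 := w0.2.1 with hy0
  set Z : Pt K X β φ → β × Option υ := fun w => zc U Typ c y0 w.1 (w.2.1 c) with hZ
  set J : Finset K := univ.erase d with hJ
  have hKb : ∀ l : K, ¬ univ.erase l ⊆ ({b} : Finset K) := by
    intro l hl
    have h1 : ∀ j, j ≠ l → j = b := fun j hj => Finset.mem_singleton.1 (hl (Finset.mem_erase.2 ⟨hj, mem_univ j⟩))
    by_cases hcl : c = l
    · exact hbd (h1 d (fun hh => hcd (hcl.trans hh.symm))).symm
    · exact hbc (h1 c hcl).symm
  -- the node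
  have hnode : ∀ w, Q.p w ≠ 0 → ∀ j, D.qb t (w.2.1 j) = D.qb t (y0 j) := fun w hw =>
    (inBox_bxs.1 (supp_cls h hV1 hw0 hV0 hw).1).2
  have hupd : ∀ (w : Pt K X β φ), (∀ j, D.qb t (w.2.1 j) = D.qb t (y0 j)) →
      U {c} w.1 (Function.update y0 c (w.2.1 c)) = U {c} w.1 w.2.1 := by
    intro w hw
    refine hU {c} w.1 _ _ (fun j hj => ?_) fun j => ?_
    · rw [Finset.mem_singleton.1 hj, Function.update_self]
    · by_cases hjc : j = c
      · subst hjc; rw [Function.update_self]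
      · rw [Function.update_of_ne hjc]; exact (hw j).symm
  set psi' : Pt K X β φ → ℝ := fun w => if ∀ j, D.qb t (w.2.1 j) = D.qb t (y0 j) then psi w else 0 with hpsi'
  have hps : ∀ w, Q.p w ≠ 0 → psi' w = psi w := fun w hw => if_pos (hnode w hw)
  have hcJ : c ∈ J := Finset.mem_erase.2 ⟨hcd, mem_univ c⟩
  have hbJ : b ∈ J := Finset.mem_erase.2 ⟨hbd, mem_univ b⟩
  have hcJ' : ({c} : Finset K) ⊂ J := by
    rw [Finset.ssubset_iff_of_subset (Finset.singleton_subset_iff.2 hcJ)]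
    exact ⟨b, hbJ, fun hh => hbc (Finset.mem_singleton.1 hh)⟩
  have hfac : Fac (fun w => (LL U J w, (lo (LL U) J w, BB D t J w))) psi' := by
    intro v w hvw
    simp only [Prod.mk.injEq, BB_eq, lo_eq, LL_eq] at hvw
    obtain ⟨⟨-, hF⟩, hlo, hy, -, hq⟩ := hvw
    have hyc : v.2.1 c = w.2.1 c := hy c hcJ
    have hUc : U {c} v.1 v.2.1 = U {c} w.1 w.2.1 := (hlo {c} hcJ').1
    have hn : (∀ j, D.qb t (v.2.1 j) = D.qb t (y0 j)) ↔ ∀ j, D.qb t (w.2.1 j) = D.qb t (y0 j) :=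
      ⟨fun hh j => (hq j).symm.trans (hh j), fun hh j => (hq j).trans (hh j)⟩
    show (if _ then psi v else 0) = if _ then psi w else 0
    by_cases hv : ∀ j, D.qb t (v.2.1 j) = D.qb t (y0 j)
    · rw [if_pos hv, if_pos (hn.1 hv)]
      have hw := hn.1 hv
      have e1 : zc U Typ c y0 v.1 (v.2.1 c) = zc U Typ c y0 w.1 (w.2.1 c) := by
        unfold zc
        rw [hupd v hv, hupd w hw, hyc, hUc]
      refine hpsi v w ?_
      show (fc (zc U Typ c y0 v.1 (v.2.1 c)) (v.2.2 d), zc U Typ c y0 v.1 (v.2.1 c)) =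
        (fc (zc U Typ c y0 w.1 (w.2.1 c)) (w.2.2 d), zc U Typ c y0 w.1 (w.2.1 c))
      rw [e1, hF d rfl]
    · rw [if_neg hv, if_neg fun hh => hv (hn.2 hh)]
  have hce : ∀ w, Q.p w ≠ 0 → Q.ce (fun w => (lo (LL U) J w, BB D t J w)) (fun v => Real.exp (psi' v)) w ≤ 1 := by
    intro w hw
    have h1 := hone w hw
    rw [Q.ce_congr (g := fun v => Real.exp (psi v)) (fun v hv => by rw [hps v hv])]
    rcases hz : (Z w).2 with _ | u
    · -- `psi` is constant on the fibre
      have hcst : ∀ v, Z v = Z w → psi v = psi w := by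
        intro v hv
        refine hpsi v w ?_
        show (fc (Z v) (v.2.2 d), Z v) = (fc (Z w) (w.2.2 d), Z w)
        rw [hv]
        unfold fc
        rw [hz]
        rfl
      have e1 : Q.ce Z (fun v => Real.exp (psi v)) w = Real.exp (psi w) := by
        rw [← Q.ce_const Z (Real.exp (psi w)) hw]
        unfold FP.ce
        congr 1
        refine Q.E_congr fun v _ => ?_
        by_cases hv : Z v = Z w
        · show ind (Z v = Z w) * Real.exp (psi v) = ind (Z v = Z w) * Real.exp (psi w)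
          rw [hcst v hv]
        · rw [ind_not hv, zero_mul, zero_mul]
      have e2 : Q.ce (fun w => (lo (LL U) J w, BB D t J w)) (fun v => Real.exp (psi v)) w = Real.exp (psi w) := by
        rw [← Q.ce_const (fun w => (lo (LL U) J w, BB D t J w)) (Real.exp (psi w)) hw]
        unfold FP.ce
        congr 1
        refine Q.E_congr fun v hv => ?_
        by_cases hvw : (lo (LL U) J v, BB D t J v) = (lo (LL U) J w, BB D t J w)
        · have h2 := hvw
          simp only [Prod.mk.injEq, BB_eq, lo_eq, LL_eq] at h2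
          have : Z v = Z w := by
            show zc U Typ c y0 v.1 (v.2.1 c) = zc U Typ c y0 w.1 (w.2.1 c)
            unfold zc
            rw [hupd v (hnode v hv), hupd w (hnode w hw), h2.2.1 c hcJ, (h2.1 {c} hcJ').1]
          show ind _ * Real.exp (psi v) = ind _ * Real.exp (psi w)
          rw [hcst v this]
        · rw [ind_not hvw, zero_mul, zero_mul]
      rw [e2, ← e1]; exact h1
    · refine le_trans (le_of_eq ?_) h1
      refine ce_eq_of _ fun v hv => ?_
      have huw : U {c} w.1 w.2.1 = u ∧ Typ (w.2.1 c) u := by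
        have h2 : tru Typ (w.2.1 c) (U {c} w.1 (Function.update y0 c (w.2.1 c))) = some u := hz
        rw [hupd w (hnode w hw)] at h2
        unfold tru at h2
        split_ifs at h2 with h3
        have h4 := Option.some.inj h2
        exact ⟨h4, h4 ▸ h3⟩
      constructor
      · intro h2
        simp only [Prod.mk.injEq, BB_eq, lo_eq, LL_eq] at h2
        show zc U Typ c y0 v.1 (v.2.1 c) = zc U Typ c y0 w.1 (w.2.1 c)
        unfold zc
        rw [hupd v (hnode v hv), hupd w (hnode w hw), h2.2.1 c hcJ, (h2.1 {c} hcJ').1]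
      · intro h2
        have hyc : v.2.1 c = w.2.1 c := congrArg Prod.fst h2
        have h3 : (Z v).2 = some u := by rw [h2]; exact hz
        have huv : U {c} v.1 v.2.1 = u := by
          have h4 : tru Typ (v.2.1 c) (U {c} v.1 (Function.update y0 c (v.2.1 c))) = some u := h3
          rw [hupd v (hnode v hv)] at h4
          unfold tru at h4
          split_ifs at h4 with h5
          exact Option.some.inj h4
        have hVv := (cond_supp hV0 hv).1
        have hVw := (cond_supp hV0 hw).1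
        have hb := hV1 v w hVv hVw
        rw [BB_eq] at hb
        simp only [Prod.mk.injEq, BB_eq, lo_eq, LL_eq]
        refine ⟨fun I hI => ⟨?_, fun l hl => ?_⟩, fun j hj => ?_, hb.2⟩
        · by_cases hcI : c ∈ I
          · -- `I = {c}`
            have hbI : b ∉ I := by
              intro hbI
              refine hI.2 fun j hj => ?_
              rcases hK3 j with rfl | rfl | rfl
              · exact hbI
              · exact hcI
              · exact absurd rfl (Finset.mem_erase.1 hj).1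
            refine hU I v.1 v.2.1 v.2.1 (fun _ _ => rfl) (fun _ => rfl) |>.trans ?_
            have hIc : I = {c} := by
              ext j
              rw [Finset.mem_singleton]
              constructor
              · intro hj
                rcases hK3 j with rfl | rfl | rfl
                · exact absurd hj hbI
                · rfl
                · exact absurd rfl (Finset.mem_erase.1 (hI.1 hj)).1
              · intro hj; rw [hj]; exact hcI
            rw [hIc, huv, huw.1]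
          · refine hV2 v w hVv hVw I fun j hj => ?_
            rw [Finset.mem_singleton]
            rcases hK3 j with rfl | rfl | rfl
            · rfl
            · exact absurd hj hcI
            · exact absurd rfl (Finset.mem_erase.1 (hI.1 hj)).1
        · exfalso
          -- a label below `J`
          have h5 : ∀ j, j ≠ l → j ∈ I := fun j hj => hl ▸ Finset.mem_erase.2 ⟨hj, mem_univ j⟩
          have hdI : d ∉ I := fun hd => (Finset.mem_erase.1 (hI.1 hd)).1 rfl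
          have hdl : d = l := by
            by_contra hcon
            exact hdI (h5 d hcon)
          refine hI.2 fun j hj => h5 j fun hjl => (Finset.mem_erase.1 hj).1 (hjl.trans hdl.symm)
        · rcases hK3 j with rfl | rfl | rfl
          · exact hb.1 _ (Finset.mem_singleton_self _)
          · exact hyc
          · exact absurd rfl (Finset.mem_erase.1 hj).1
  -- saturation
  have hcls := hs.cls hU hKb hVf hV0
  have hphi : 0 ≤ Phi Q (BB D t) N S (LL U) (cutK {b} S1 (fun _ _ => ())) := by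
    refine hcls.gen _ ⟨?_, ?_⟩
    · intro I v w h1 h2 h3
      by_cases hbI : {b} ⊆ I
      · have e : S1 v = S1 w := by
          refine hS1 v w ?_
          unfold Ah
          simp only [Prod.mk.injEq, BB_eq]
          exact ⟨h1, fun j hj => h2 j (hbI hj), by rw [h1], h3⟩
        show cutK {b} S1 (fun _ _ => ()) I v = cutK {b} S1 (fun _ _ => ()) I w
        by_cases hv : S1 v
        · rw [cutK_in hbI hv, cutK_in hbI (e ▸ hv)]
        · rw [cutK_off hv, cutK_off (e ▸ hv)]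
      · show cutK {b} S1 (fun _ _ => ()) I v = cutK {b} S1 (fun _ _ => ()) I w
        rw [cutK_out hbI, cutK_out hbI]
    · intro I hI v w
      show cutK {b} S1 (fun _ _ => ()) I v = cutK {b} S1 (fun _ _ => ()) I w
      rw [cutK_out hI, cutK_out hI]
  have h1 := event_sat (P := Q) (B := BB D t) (L := LL U) (N := N) (S := S) (K0 := {b}) hS10 hN hbS hphi
  have hac : (Q.cond S1).Ac Q := FP.cond_ac _ _
  have hbJ' : ({b} : Finset K) ⊂ J := by
    rw [Finset.ssubset_iff_of_subset (Finset.singleton_subset_iff.2 hbJ)]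
    exact ⟨c, hcJ, fun hh => hbc (Finset.mem_singleton.1 hh).symm⟩
  have h2 : N J * (Q.cond S1).klc Q (LL U J) (fun w => (lo (LL U) J w, BB D t J w)) ≤
      2 * N {b} * (Real.log (1 / Q.Pr S1) + 1) := by
    refine le_trans ?_ h1
    exact Finset.single_le_sum (f := fun J => N J * (Q.cond S1).klc Q (LL U J) (fun w => (lo (LL U) J w, BB D t J w)))
      (fun I hI => mul_nonneg (hN I (mem_above.1 hI).1) (klc_nonneg hac _ _)) (mem_above.2 ⟨hdS, hbJ'⟩)
  have h3 := klc_dv hac (LL U J) (fun w => (lo (LL U) J w, BB D t J w)) hfac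
  have h4 : (Q.cond S1).E (fun w => Real.log (Q.ce (fun w => (lo (LL U) J w, BB D t J w)) (fun v => Real.exp (psi' v)) w)) ≤ 0 := by
    refine (FP.E_le_const _ fun w hw => ?_)
    have hw' := hac w hw
    refine Real.log_nonpos ?_ (hce w hw')
    exact Q.ce_nonneg (fun v _ => (Real.exp_pos _).le) w
  have h5 : (Q.cond S1).E psi' = (Q.cond S1).E psi := (Q.cond S1).E_congr fun w hw => hps w (hac w hw)
  rw [h5] at h3
  have hNJ := hN J hdS
  have h6 : N J * (Q.cond S1).E psi ≤ 2 * N {b} * (Real.log (1 / Q.Pr S1) + 1) := by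
    refine le_trans (mul_le_mul_of_nonneg_left (by linarith : (Q.cond S1).E psi ≤
      (Q.cond S1).klc Q (LL U J) (fun w => (lo (LL U) J w, BB D t J w))) hNJ) h2
  rw [div_mul_eq_mul_div, div_le_iff₀ (by positivity)]
  linarith

end satb

/-! ### the sampled rows and the other letter, public class -/

section pub

variable {N : Finset K → ℝ} {S : Finset (Finset K)} {U : Finset K → X → (K → β) → υ}

theorem I_supp {Om κ κ' ι ι' ζ ζ' : Type*} [Fintype Om] {P : FP Om} {X1 : Om → κ} {X2 : Om → κ'} {Y1 : Om → ι} {Y2 : Om → ι'}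
    {Z1 : Om → ζ} {Z2 : Om → ζ'} (hX : ∀ v w, P.p v ≠ 0 → P.p w ≠ 0 → (X1 v = X1 w ↔ X2 v = X2 w))
    (hY : ∀ v w, P.p v ≠ 0 → P.p w ≠ 0 → (Y1 v = Y1 w ↔ Y2 v = Y2 w))
    (hZ : ∀ v w, P.p v ≠ 0 → P.p w ≠ 0 → (Z1 v = Z1 w ↔ Z2 v = Z2 w)) : P.I X1 Y1 Z1 = P.I X2 Y2 Z2 := by
  unfold FP.I
  rw [FP.H_congr_supp (P := P) hZ,
    FP.H_congr_supp (P := P) (X := fun w => (X1 w, Z1 w)) (X' := fun w => (X2 w, Z2 w))
      (fun v w hv hw => by simp only [Prod.mk.injEq, hX v w hv hw, hZ v w hv hw]),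
    FP.H_congr_supp (P := P) (X := fun w => (Y1 w, Z1 w)) (X' := fun w => (Y2 w, Z2 w))
      (fun v w hv hw => by simp only [Prod.mk.injEq, hY v w hv hw, hZ v w hv hw]),
    FP.H_congr_supp (P := P) (X := fun w => (X1 w, Y1 w, Z1 w)) (X' := fun w => (X2 w, Y2 w, Z2 w))
      (fun v w hv hw => by simp only [Prod.mk.injEq, hX v w hv hw, hY v w hv hw, hZ v w hv hw])]

/-- the sampled rows with fixed points -/
noncomputable def gk (D : HD K X β γ φ) (t : ℕ) (U : Finset K → X → (K → β) → υ) (Typ : β → υ → Prop) (c d : K)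
    (y0 : K → β) {k : ℕ} (cs : Fin k → β) (w : Pt K X β φ × (Fin k → Cn K X β φ)) (i : Fin k) :
    Option φ × (β × Option υ) :=
  gs D t U Typ c d y0 w.1 (cs i, w.2 i)

/-- coins of the samples -/
noncomputable def coinK (t : ℕ) (d : K) (k : ℕ) : FP (Fin k → Cn K X β φ) := FPpi fun _ => coinF h t d

include h in
theorem hal_one (l : K) : al ≤ 1 := by
  obtain ⟨x⟩ := (inferInstance : Nonempty X)
  obtain ⟨y⟩ := (inferInstance : Nonempty β)
  obtain ⟨F, hF⟩ : ∃ F, D.kf 0 l x (fun _ => y) F ≠ 0 := by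
    by_contra hcon
    push Not at hcon
    have := h.one 0 l x (fun _ => y)
    simp [hcon] at this
  refine (h.thick 0 l x x (fun _ => y) F rfl hF).trans ?_
  rw [← h.one 0 l x (fun _ => y)]
  exact Finset.single_le_sum (f := fun F => D.kf 0 l x (fun _ => y) F) (fun F _ => h.nn 0 l x _ F) (mem_univ F)

/-- **number of values of the sampled rows** -/
theorem gk_card {Typ : β → υ → Prop} {M : ℝ}
    (hM : ∀ c', ∃ s : Finset υ, (s.card : ℝ) ≤ M ∧ ∀ u, Typ c' u → u ∈ s) {k : ℕ} (cs : Fin k → β)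
    {y0 : K → β} {x0 : X} {P' : FP (Pt K X β φ × (Fin k → Cn K X β φ))}
    (hx : ∀ v, P'.p v ≠ 0 → D.qa t v.1.1 = D.qa t x0) (hc : ∀ v, P'.p v ≠ 0 → (coinK h t d k).p v.2 ≠ 0)
    {ι : Type*} (Z : Pt K X β φ × (Fin k → Cn K X β φ) → ι) :
    P'.Hc (gk D t U Typ c d y0 cs) Z ≤ k * Real.log ((M + 1) * (1 / al + 1)) := by
  classical
  have hM0 : 0 ≤ M := by
    obtain ⟨y⟩ := (inferInstance : Nonempty β)
    obtain ⟨s, hs, _⟩ := hM y
    exact le_trans (Nat.cast_nonneg _) hs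
  choose T hT1 hT2 using hM
  have hal := h.pos
  set A : ℝ := (M + 1) * (1 / al + 1) with hA
  have hA0 : 0 < A := by positivity
  rw [← Real.log_pow]
  refine Hc_le_card _ _ _ fun w _ => ?_
  let s0 : Fin k → Finset φ := fun i => univ.filter fun F => al ≤ D.kf t d x0 (Function.update y0 c (cs i)) F
  let s : Fin k → Finset (Option φ × (β × Option υ)) := fun i =>
    (insert none ((s0 i).image some)) ×ˢ (({cs i} : Finset β) ×ˢ (insert none ((T (cs i)).image some)))
  refine ⟨Fintype.piFinset s, ?_, fun v hv _ => ?_⟩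
  · rw [Fintype.card_piFinset, Nat.cast_prod]
    have h1 : ∀ i ∈ (univ : Finset (Fin k)), ((s i).card : ℝ) ≤ A := by
      intro i _
      have e1 : (s i).card = (insert none ((s0 i).image some)).card * (insert none ((T (cs i)).image some)).card := by
        simp only [s, Finset.card_product, Finset.card_singleton, one_mul]
      have e2 : ((insert none ((s0 i).image some) : Finset (Option φ)).card : ℝ) ≤ 1 / al + 1 := by
        have a1 : (insert none ((s0 i).image some) : Finset (Option φ)).card ≤ (s0 i).card + 1 :=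
          (Finset.card_insert_le _ _).trans (Nat.add_le_add_right Finset.card_image_le 1)
        have a2 : ((s0 i).card : ℝ) ≤ 1 / al := by
          rw [le_div_iff₀ h.pos, ← h.one t d x0 (Function.update y0 c (cs i))]
          calc ((s0 i).card : ℝ) * al = ∑ _F ∈ s0 i, al := by rw [Finset.sum_const, nsmul_eq_mul]
            _ ≤ ∑ F ∈ s0 i, D.kf t d x0 (Function.update y0 c (cs i)) F :=
                Finset.sum_le_sum fun F hF => (Finset.mem_filter.1 hF).2
            _ ≤ _ := Finset.sum_le_sum_of_subset_of_nonneg (Finset.subset_univ _) fun F _ _ => h.nn t d _ _ F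
        have a3 : ((insert none ((s0 i).image some) : Finset (Option φ)).card : ℝ) ≤ (s0 i).card + 1 := by
          exact_mod_cast a1
        linarith
      have e3 : ((insert none ((T (cs i)).image some) : Finset (Option υ)).card : ℝ) ≤ M + 1 := by
        have a1 : (insert none ((T (cs i)).image some) : Finset (Option υ)).card ≤ (T (cs i)).card + 1 :=
          (Finset.card_insert_le _ _).trans (Nat.add_le_add_right Finset.card_image_le 1)
        have a3 : ((insert none ((T (cs i)).image some) : Finset (Option υ)).card : ℝ) ≤ (T (cs i)).card + 1 := by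
          exact_mod_cast a1
        have := hT1 (cs i)
        linarith
      rw [e1, Nat.cast_mul, hA, mul_comm (M + 1)]
      exact mul_le_mul e2 e3 (Nat.cast_nonneg _) (by positivity)
    refine (Finset.prod_le_prod (fun i _ => Nat.cast_nonneg _) h1).trans (le_of_eq ?_)
    rw [Finset.prod_const, Finset.card_univ, Fintype.card_fin]
  · rw [Fintype.mem_piFinset]
    intro i
    have hF : D.kf t d v.1.1 (Function.update y0 c (cs i))
        (v.2 i (v.1.1, rep D t (univ.erase d) (Function.update y0 c (cs i)))) ≠ 0 := by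
      have a1 := FPpi_supp (q := fun _ : Fin k => coinF h t d) (hc v hv) i
      have a2 := @FPpi_supp (X × (K → β)) φ _ (decI K X β) _ (fun i => kf1 h t d i.1 i.2) (v.2 i) a1
        (v.1.1, rep D t (univ.erase d) (Function.update y0 c (cs i)))
      have a3 := rep_same (D := D) (t := t) (univ.erase d) (Function.update y0 c (cs i))
      have a4 : D.kf t d v.1.1 (rep D t (univ.erase d) (Function.update y0 c (cs i))) =
          D.kf t d v.1.1 (Function.update y0 c (cs i)) :=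
        D.dep t d v.1.1 _ _ (fun j hj => a3.1 j (Finset.mem_erase.2 ⟨hj, mem_univ j⟩)) (a3.2 d)
      rw [← a4]
      exact a2
    have hF2 := h.thick t d v.1.1 x0 _ _ (hx v hv) hF
    show gs D t U Typ c d y0 v.1 (cs i, v.2 i) ∈ s i
    have e1 : zc U Typ c y0 v.1.1 (cs i) = (cs i, tru Typ (cs i) (U {c} v.1.1 (Function.update y0 c (cs i)))) := rfl
    refine Finset.mem_product.2 ⟨?_, Finset.mem_product.2 ⟨Finset.mem_singleton_self _, ?_⟩⟩
    · show fc (zc U Typ c y0 v.1.1 (cs i)) (v.2 i (v.1.1, rep D t (univ.erase d) (Function.update y0 c (cs i)))) ∈ _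
      rw [e1]
      unfold fc tru
      split_ifs with hT
      · exact Finset.mem_insert_of_mem (Finset.mem_image.2 ⟨_, Finset.mem_filter.2 ⟨mem_univ _, hF2⟩, rfl⟩)
      · exact Finset.mem_insert_self _ _
    · show tru Typ (cs i) (U {c} v.1.1 (Function.update y0 c (cs i))) ∈ _
      unfold tru
      split_ifs with hT
      · exact Finset.mem_insert_of_mem (Finset.mem_image.2 ⟨_, hT2 _ _ hT, rfl⟩)
      · exact Finset.mem_insert_self _ _

/-- **the sampled rows and the letter at `d`** on an event `E0` of the hidden point, public class `V` -/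
theorem row_dl
    (hU : ∀ I x y y', (∀ j ∈ I, y j = y' j) → (∀ j, D.qb t (y j) = D.qb t (y' j)) → U I x y = U I x y')
    (hs : SatA (D.P h t) (BB D t) N S (LL U) (Dep D t)) (hN : ∀ J ∈ S, 0 ≤ N J)
    (hVf : Fac (fun w => (le (LL U) ∅ w, BB D t ∅ w)) V)
    (hV1 : ∀ v w, V v → V w → BB D t ∅ v = BB D t ∅ w) (hV2 : ∀ v w, V v → V w → U ∅ v.1 v.2.1 = U ∅ w.1 w.2.1)
    (hw0 : V w0) (hV0 : (D.P h t).Pr V ≠ 0) (h0S : ∅ ∈ S) (hdS : {d} ∈ S)
    {Typ : β → υ → Prop} {M : ℝ} (hM : ∀ c', ∃ s : Finset υ, (s.card : ℝ) ≤ M ∧ ∀ u, Typ c' u → u ∈ s) {k : ℕ}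
    (cs : Fin k → β) {E0 : X → Prop} (hE0 : ((D.P h t).cond V).Pr (fun w => E0 w.1) ≠ 0) (hcl : ∀ l : K, ∃ j, j ≠ l) :
    N {d} * ((FP.pr ((D.P h t).cond V) (coinK h t d k)).cond fun w => E0 w.1.1).I (fun w => U {d} w.1.1 w.1.2.1)
      (gk D t U Typ c d w0.2.1 cs) (fun w => w.1.2.1 d) ≤
      2 * N ∅ * (Real.log (1 / ((D.P h t).cond V).Pr (fun w => E0 w.1)) + 1) +
        2 * N ∅ * (k * Real.log ((M + 1) * (1 / al + 1))) := by
  classical
  set Q := (D.P h t).cond V with hQ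
  set R := coinK (K := K) (X := X) (β := β) (φ := φ) h t d k with hR
  set G : Finset K → Pt K X β φ × (Fin k → Cn K X β φ) → Option (Fin k → Option φ × (β × Option υ)) :=
    fun J w => if J = ∅ then some (gk D t U Typ c d w0.2.1 cs w) else none with hG
  have hK0 : ∀ l : K, ¬ univ.erase l ⊆ (∅ : Finset K) := by
    intro l hl
    obtain ⟨j, hj⟩ := hcl l
    exact absurd (hl (Finset.mem_erase.2 ⟨hj, mem_univ j⟩)) (Finset.notMem_empty j)
  have hcls := hs.cls hU hK0 hVf hV0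
  have hPr : (FP.pr Q R).Pr (fun w => E0 w.1.1) = Q.Pr (fun w => E0 w.1) := lift_Pr Q R fun w => E0 w.1
  have hE1 : (FP.pr Q R).Pr (fun w => E0 w.1.1) ≠ 0 := by rw [hPr]; exact hE0
  have hphi : 0 ≤ Phi (FP.pr Q R) (fun I w => BB D t I w.1) N S (fun I w => LL U I w.1)
      (cutK ∅ (fun w => E0 w.1.1) G) := by
    refine hcls.coin hN _ fun θ => ?_
    constructor
    · intro J a b h1 h2 h3
      show cutK ∅ (fun w => E0 w.1.1) G J (a, θ) = cutK ∅ (fun w => E0 w.1.1) G J (b, θ)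
      have eG : G J (a, θ) = G J (b, θ) := by
        show (if J = ∅ then some (gk D t U Typ c d w0.2.1 cs (a, θ)) else none) =
          if J = ∅ then some (gk D t U Typ c d w0.2.1 cs (b, θ)) else none
        have : gk D t U Typ c d w0.2.1 cs (a, θ) = gk D t U Typ c d w0.2.1 cs (b, θ) := by
          funext i
          show gs D t U Typ c d w0.2.1 a (cs i, θ i) = gs D t U Typ c d w0.2.1 b (cs i, θ i)
          unfold gs
          rw [h1]
        rw [this]
      by_cases hEa : E0 a.1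
      · have hEb : E0 b.1 := by rw [← h1]; exact hEa
        rw [cutK_in (w := (a, θ)) (Finset.empty_subset J) hEa, cutK_in (w := (b, θ)) (Finset.empty_subset J) hEb, eG]
      · have hEb : ¬ E0 b.1 := by rw [← h1]; exact hEa
        rw [cutK_off (w := (a, θ)) hEa, cutK_off (w := (b, θ)) hEb]
    · intro J hJ
      exact absurd (Finset.empty_subset J) hJ
  have h1 := joint (P := FP.pr Q R) (B := fun I w => BB D t I w.1) (L := fun I w => LL U I w.1) (S := S) (N := N)
    (K0 := ∅) (E := fun w => E0 w.1.1) (G := G) hE1 (fun J hJ => absurd (Finset.empty_subset J) hJ) hN h0S hphi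
  set PE := (FP.pr Q R).cond (fun w => E0 w.1.1) with hPE
  have hac : PE.Ac (FP.pr Q R) := FP.cond_ac _ _
  have h2 : 0 ≤ ∑ J ∈ above S ∅, N J * PE.klc (FP.pr Q R) (fun w => LL U J w.1)
      (fun w => (lo (fun I (w : Pt K X β φ × (Fin k → Cn K X β φ)) => LL U I w.1) J w, BB D t J w.1)) :=
    Finset.sum_nonneg fun J hJ => mul_nonneg (hN J (mem_above.1 hJ).1) (klc_nonneg hac _ _)
  -- support
  have hsup : ∀ w, PE.p w ≠ 0 → V w.1 ∧ (D.P h t).p w.1 ≠ 0 ∧ R.p w.2 ≠ 0 := by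
    intro w hw
    have a1 := (pr_supp Q R).1 (hac w hw)
    exact ⟨(cond_supp hV0 a1.1).1, (cond_supp hV0 a1.1).2, a1.2⟩
  -- the cost
  have hc0 : cost PE (fun I w => BB D t I w.1) (fun I w => LL U I w.1) G ∅ ≤ k * Real.log ((M + 1) * (1 / al + 1)) := by
    unfold cost
    refine le_trans (PE.Hc_mono (X := gk D t U Typ c d w0.2.1 cs) _ ?_) (gk_card h hM cs (x0 := w0.1) ?_ ?_ _)
    · intro v w hvw
      show (if (∅ : Finset K) = ∅ then some (gk D t U Typ c d w0.2.1 cs v) else none) =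
        if (∅ : Finset K) = ∅ then some (gk D t U Typ c d w0.2.1 cs w) else none
      have : gk D t U Typ c d w0.2.1 cs v = gk D t U Typ c d w0.2.1 cs w := congrArg Prod.fst hvw
      rw [this]
    · intro v hv
      have := hV1 v.1 w0 (hsup v hv).1 hw0
      rw [BB_eq] at this
      exact this.2.1
    · intro v hv
      exact (hsup v hv).2.2
  have hcJ : ∀ J, J ≠ ∅ → cost PE (fun I w => BB D t I w.1) (fun I w => LL U I w.1) G J = 0 := by
    intro J hJ
    refine cost_const fun v w => ?_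
    show (if J = ∅ then _ else none) = if J = ∅ then _ else none
    rw [if_neg hJ, if_neg hJ]
  -- the gain
  have hg : PE.I (fun w => U {d} w.1.1 w.1.2.1) (gk D t U Typ c d w0.2.1 cs) (fun w => w.1.2.1 d) ≤
      gain PE (fun I w => BB D t I w.1) (fun I w => LL U I w.1) G {d} := by
    unfold gain
    refine le_trans (PE.I_mono (X := fun w => LL U {d} w.1) _ ?_) (le_of_eq ?_)
    · intro v w hvw
      have := (Prod.mk.injEq _ _ _ _ ▸ hvw : _ ∧ _).1
      rw [LL_eq] at this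
      exact this.1
    · refine I_supp (fun _ _ _ _ => Iff.rfl) (fun v w _ _ => ?_) (fun v w hv hw => ?_)
      · rw [lo_eq]
        constructor
        · intro hvw I hI
          show (if I = ∅ then some _ else none) = if I = ∅ then some _ else none
          rw [hvw]
        · intro hvw
          have := hvw ∅ (Finset.ssubset_singleton_iff.2 rfl)
          have h3 : some (gk D t U Typ c d w0.2.1 cs v) = some (gk D t U Typ c d w0.2.1 cs w) := by
            have h4 : (if (∅ : Finset K) = ∅ then some (gk D t U Typ c d w0.2.1 cs v) else none) =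
              if (∅ : Finset K) = ∅ then some (gk D t U Typ c d w0.2.1 cs w) else none := this
            rwa [if_pos rfl, if_pos rfl] at h4
          exact Option.some.inj h3
      · have hVv := (hsup v hv).1
        have hVw := (hsup w hw).1
        have hb := hV1 v.1 w.1 hVv hVw
        rw [BB_eq] at hb
        simp only [Prod.mk.injEq, BB_eq, lo_eq]
        constructor
        · intro hvw
          refine ⟨fun I hI => ?_, fun j hj => ?_, hb.2⟩
          · have hI0 := Finset.ssubset_singleton_iff.1 hI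
            subst hI0
            rw [LL_eq]
            exact ⟨hV2 _ _ hVv hVw, fun l hl => absurd (hl.le) (hK0 l)⟩
          · rw [Finset.mem_singleton.1 hj]; exact hvw
        · intro hvw
          exact hvw.2.1 d (Finset.mem_singleton_self d)
  -- the functional
  have hd0 : ({d} : Finset K) ≠ ∅ := Finset.singleton_ne_empty d
  have h3 : Phi PE (fun I w => BB D t I w.1) N S (fun I w => LL U I w.1) G ≤
      2 * (N ∅ * (k * Real.log ((M + 1) * (1 / al + 1)))) -
        N {d} * gain PE (fun I w => BB D t I w.1) (fun I w => LL U I w.1) G {d} := by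
    unfold Phi
    have e1 : ∀ J ∈ S, N J * (2 * cost PE (fun I w => BB D t I w.1) (fun I w => LL U I w.1) G J -
        gain PE (fun I w => BB D t I w.1) (fun I w => LL U I w.1) G J) ≤
        (if J = ∅ then 2 * (N ∅ * (k * Real.log ((M + 1) * (1 / al + 1)))) else 0) -
        (if J = {d} then N {d} * gain PE (fun I w => BB D t I w.1) (fun I w => LL U I w.1) G {d} else 0) := by
      intro J hJ
      have hgJ := gain_nonneg (P := PE) (B := fun I w => BB D t I w.1)
        (L := fun I (w : Pt K X β φ × (Fin k → Cn K X β φ)) => LL U I w.1) (V := G) (J := J)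
      have hNJ := hN J hJ
      by_cases hJ0 : J = ∅
      · subst hJ0
        rw [if_pos rfl, if_neg (fun hh => hd0 hh.symm)]
        have := mul_le_mul_of_nonneg_left hc0 hNJ
        nlinarith
      · rw [if_neg hJ0, hcJ J hJ0]
        by_cases hJd : J = {d}
        · subst hJd
          rw [if_pos rfl]
          apply le_of_eq
          ring
        · rw [if_neg hJd]
          nlinarith
    refine (Finset.sum_le_sum e1).trans (le_of_eq ?_)
    rw [Finset.sum_sub_distrib, Finset.sum_ite_eq' S ∅, if_pos h0S, Finset.sum_ite_eq' S {d}, if_pos hdS]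
  have h4 := mul_le_mul_of_nonneg_left hg (hN {d} hdS)
  rw [hPr] at h1
  linarith


/-! ### transfer to the class of the exact point -/

/-- law of the hidden point and of one free vertex in two classes -/
theorem law_xd {K1 K2 : Finset K} {V1 V2 : Pt K X β φ → Prop} (hVf1 : Fac (Ah D t K1) V1)
    (hV11 : ∀ v w, V1 v → V1 w → BB D t K1 v = BB D t K1 w) (hVf2 : Fac (Ah D t K2) V2)
    (hV21 : ∀ v w, V2 v → V2 w → BB D t K2 v = BB D t K2 w) (hw1 : V1 w0) (hw2 : V2 w0) (hV10 : (D.P h t).Pr V1 ≠ 0)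
    (hV20 : (D.P h t).Pr V2 ≠ 0) (hd1 : d ∉ K1) (hd2 : d ∉ K2) {E0 : X → Prop}
    (hE : ∀ x, V2 (x, w0.2) ↔ V1 (x, w0.2) ∧ E0 x) (hE0 : ((D.P h t).cond V1).Pr (fun w => E0 w.1) ≠ 0)
    (f : X → β → ℝ) :
    (((D.P h t).cond V1).cond fun w => E0 w.1).E (fun w => f w.1 (w.2.1 d)) =
      ((D.P h t).cond V2).E (fun w => f w.1 (w.2.1 d)) := by
  classical
  have hbx : bxs D t K1 w0.2.1 d = bxs D t K2 w0.2.1 d := by
    unfold bxs
    rw [if_neg hd1, if_neg hd2]
  have hs1 : ∀ j, (bxs D t K1 w0.2.1 j).Nonempty := fun j => bxs_ne t K1 w0.2.1 j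
  have hs2 : ∀ j, (bxs D t K2 w0.2.1 j).Nonempty := fun j => bxs_ne t K2 w0.2.1 j
  have hB1 : ∀ x (g : β → ℝ), (Bx h t x (bxs D t K1 w0.2.1)).E (fun u => g (u.1 d)) =
      (uS (bxs D t K1 w0.2.1 d) (hs1 d)).E g := by
    intro x g
    rw [Bx_lab h hs1 t x d (fun y _ => g (y d)), ← avg_one (bxs D t K1 w0.2.1) hs1 d g]
    congr 1
    refine Finset.sum_congr rfl fun y _ => ?_
    rw [← Finset.sum_mul, h.one, one_mul]
  have hB2 : ∀ x (g : β → ℝ), (Bx h t x (bxs D t K2 w0.2.1)).E (fun u => g (u.1 d)) =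
      (uS (bxs D t K1 w0.2.1 d) (hs1 d)).E g := by
    intro x g
    rw [Bx_lab h hs2 t x d (fun y _ => g (y d)), uS_E, hbx, ← uS_E _ (hs2 d), ← avg_one (bxs D t K2 w0.2.1) hs2 d g]
    congr 1
    refine Finset.sum_congr rfl fun y _ => ?_
    rw [← Finset.sum_mul, h.one, one_mul]
  have hc : (FP.unif X).E (fun x => ind (V1 (x, w0.2))) ≠ 0 := by
    have h1 := FP.Pr_pos_of (P := FP.unif X) (S := fun x => V1 (x, w0.2)) (w := w0.1) ?_ hw1
    · exact h1.ne'
    · show (Fintype.card X : ℝ)⁻¹ ≠ 0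
      exact inv_ne_zero (by exact_mod_cast Fintype.card_ne_zero)
  have e1 := cls_law h hVf1 hV11 hw1 hV10 fun w => ind (E0 w.1) * f w.1 (w.2.1 d)
  have e2 := cls_law h hVf1 hV11 hw1 hV10 fun w => ind (E0 w.1)
  have e3 := cls_law h hVf2 hV21 hw2 hV20 fun w => f w.1 (w.2.1 d)
  rw [FP.cond_E hE0, e3]
  have e4 : ((D.P h t).cond V1).Pr (fun w => E0 w.1) = (FP.unif X).E (fun x => ind (V2 (x, w0.2))) /
      (FP.unif X).E (fun x => ind (V1 (x, w0.2))) := by
    show ((D.P h t).cond V1).E (fun w => ind (E0 w.1)) = _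
    rw [e2]
    congr 1
    refine (FP.unif X).E_congr fun x _ => ?_
    show ind (V1 (x, w0.2)) * (Bx h t x (bxs D t K1 w0.2.1)).E (fun _ => ind (E0 x)) = ind (V2 (x, w0.2))
    rw [FP.E_const, propext (hE x), ind_and]
  have e5 : ((D.P h t).cond V1).E (fun w => ind (E0 w.1) * f w.1 (w.2.1 d)) =
      (FP.unif X).E (fun x => ind (V2 (x, w0.2)) * (Bx h t x (bxs D t K2 w0.2.1)).E fun u => f x (u.1 d)) /
      (FP.unif X).E (fun x => ind (V1 (x, w0.2))) := by
    rw [e1]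
    congr 1
    refine (FP.unif X).E_congr fun x _ => ?_
    have a1 : (Bx h t x (bxs D t K1 w0.2.1)).E (fun u => ind (E0 x) * f x (u.1 d)) =
        ind (E0 x) * (uS (bxs D t K1 w0.2.1 d) (hs1 d)).E (f x) := by
      rw [FP.E_smul, hB1 x (f x)]
    show ind (V1 (x, w0.2)) * (Bx h t x (bxs D t K1 w0.2.1)).E (fun u => ind (E0 x) * f x (u.1 d)) =
      ind (V2 (x, w0.2)) * (Bx h t x (bxs D t K2 w0.2.1)).E (fun u => f x (u.1 d))
    rw [a1, hB2 x (f x), propext (hE x), ind_and]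
    ring
  rw [e4, e5, div_div_div_cancel_right₀ hc]

/-- the other free point is independent of the hidden point and the coins -/
theorem indep_pt {K0 : Finset K} (hV : Fac (Ah D t K0) V) (hV1 : ∀ v w, V v → V w → BB D t K0 v = BB D t K0 w)
    (hw0 : V w0) (hV0 : (D.P h t).Pr V ≠ 0) {Th : Type*} [Fintype Th] (R : FP Th) :
    (FP.pr ((D.P h t).cond V) R).Indep (fun w => w.1.2.1 d) (fun w => (w.1.1, w.2)) := by
  classical
  intro f g hf hg
  set Q := (D.P h t).cond V with hQ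
  have hS : ∀ j, (bxs D t K0 w0.2.1 j).Nonempty := fun j => bxs_ne t K0 w0.2.1 j
  obtain ⟨θ0, -⟩ := R.exists_p_ne
  set f' : β → ℝ := fun y => f ((w0.1, (fun _ => y), w0.2.2), θ0) with hf'
  have e1 : ∀ w, f w = f' (w.1.2.1 d) := fun w => hf _ _ rfl
  set G : X → ℝ := fun x => R.E fun θ => g ((x, w0.2), θ) with hG
  have e2 : ∀ v θ, g (v, θ) = g ((v.1, w0.2), θ) := fun v θ => hg _ _ rfl
  have hce : ∀ (a : β → ℝ) (G : X → ℝ), Q.E (fun v => a (v.2.1 d) * G v.1) =
      (uS (bxs D t K0 w0.2.1 d) (hS d)).E a * Q.E (fun v => G v.1) := by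
    intro a G
    rw [← Q.E_ce (Ah D t K0) (fun v => a (v.2.1 d) * G v.1), ← FP.E_smul]
    refine Q.E_congr fun v hv => ?_
    rw [ce_cls h hV hV1 hw0 hV0 _ hv]
    have a1 : (Bx h t v.1 (bxs D t K0 w0.2.1)).E (fun u => a (u.1 d) * G v.1) =
        (uS (bxs D t K0 w0.2.1 d) (hS d)).E a * G v.1 := by
      rw [FP.E_mul_const]
      congr 1
      rw [Bx_lab h hS t v.1 d (fun y _ => a (y d)), ← avg_one (bxs D t K0 w0.2.1) hS d a]
      congr 1
      refine Finset.sum_congr rfl fun y _ => ?_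
      rw [← Finset.sum_mul, h.one, one_mul]
    exact a1
  have e3 : (FP.pr Q R).E (fun w => f w * g w) = Q.E (fun v => f' (v.2.1 d) * G v.1) := by
    rw [FP.pr_E]
    refine Q.E_congr fun v _ => ?_
    have : ∀ θ, f (v, θ) * g (v, θ) = f' (v.2.1 d) * g ((v.1, w0.2), θ) := fun θ => by rw [e1, e2]
    simp only [this]
    rw [FP.E_smul]
  have e4 : (FP.pr Q R).E f = (uS (bxs D t K0 w0.2.1 d) (hS d)).E f' := by
    rw [FP.pr_E]
    have := hce f' fun _ => 1
    simp only [mul_one, FP.E_const] at this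
    rw [← this]
    refine Q.E_congr fun v _ => ?_
    have : ∀ θ, f (v, θ) = f' (v.2.1 d) := fun θ => e1 (v, θ)
    simp only [this]
    rw [FP.E_const]
  have e5 : (FP.pr Q R).E g = Q.E (fun v => G v.1) := by
    rw [FP.pr_E]
    refine Q.E_congr fun v _ => ?_
    exact R.E_congr fun θ _ => e2 v θ
  rw [e3, hce f' G, e4, e5]


/-- coins of pairs: the first members are fixed -/
theorem split_coins {Om Φ Ψ κ ι : Type*} [Fintype Om] [Fintype Φ] [Fintype Ψ] (Q : FP Om) (a : FP Φ) (b : FP Ψ) (k : ℕ)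
    (Y : Om → κ) (g : Om → Φ × Ψ → ι) {dl : ℝ}
    (hfix : ∀ cs : Fin k → Φ, (FP.pr Q (FPpi fun _ : Fin k => b)).I (fun w => Y w.1) (fun w i => g w.1 (cs i, w.2 i))
      (fun _ => ()) ≤ dl) :
    (FP.pr Q (FPpi fun _ : Fin k => FP.pr a b)).I (fun w => Y w.1) (fun w i => g w.1 (w.2 i)) (fun _ => ()) ≤ dl := by
  classical
  set R : FP (Fin k → Ψ) := FPpi fun _ : Fin k => b with hR
  set P2 := FP.pr (FP.pr Q R) (FPpi fun _ : Fin k => a) with hP2
  have h5 : (FP.pr Q (FPpi fun _ : Fin k => FP.pr a b)).I (fun w => Y w.1) (fun w i => g w.1 (w.2 i)) (fun _ => ()) =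
      P2.I (fun v => Y v.1.1) (fun v i => g v.1.1 (v.2 i, v.1.2 i)) (fun _ => ()) := by
    have key := eql_I (P1 := FP.pr Q (FPpi fun _ : Fin k => FP.pr a b)) (P2 := P2) (O' := Om × (Fin k → Φ × Ψ))
      (π1 := fun v => v) (π2 := fun v => (v.1.1, fun i => (v.2 i, v.1.2 i))) ?_ (fun o => Y o.1)
      (fun o i => g o.1 (o.2 i)) (fun _ => ())
    · exact key
    intro f
    rw [hP2, FP.pr_E, FP.pr_E, FP.pr_E]
    refine Q.E_congr fun v _ => ?_
    rw [← FPpi_map2 (fun _ : Fin k => a) (fun _ : Fin k => b) (fun _ : Fin k => FP.pr a b)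
      (fun _ x z => (x, z)) (fun _ g => (FP.pr_E _ _ _).symm) (fun θ => f (v, θ)), FP.E_swap]
  rw [h5]
  have h6 : P2.I (fun v => Y v.1.1) (fun v i => g v.1.1 (v.2 i, v.1.2 i)) (fun _ => ()) ≤
      P2.I (fun v => Y v.1.1) (fun v => ((fun i => g v.1.1 (v.2 i, v.1.2 i)), v.2)) (fun _ => ()) := by
    rw [P2.I_comm, P2.I_comm _ (fun v : (Om × (Fin k → Ψ)) × (Fin k → Φ) => ((fun i => g v.1.1 (v.2 i, v.1.2 i)), v.2))]
    exact P2.I_mono _ ((Fac.fst _ _).trans (Fac.fst _ _))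
  refine h6.trans ?_
  rw [P2.I_comm, P2.I_chain, P2.I_comm (fun v : (Om × (Fin k → Ψ)) × (Fin k → Φ) => v.2)]
  have h7 : P2.I (fun v => Y v.1.1) (fun v => v.2) (fun _ => ()) = 0 := by
    refine I_of_indep ((FP.indep_fst_snd (FP.pr Q R) (FPpi fun _ : Fin k => a)).mono ?_ (Fac.refl _))
    intro v w hvw
    have : v.1 = w.1 := hvw
    show Y v.1.1 = Y w.1.1
    rw [this]
  rw [h7, zero_add, P2.I_comm, P2.I_eq_Hc]
  have e8 : P2.Hc (fun v => Y v.1.1) (fun w => (w.2, ())) =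
      (FPpi fun _ : Fin k => a).E (fun _ => (FP.pr Q R).Hc (fun w => Y w.1) (fun _ => ())) :=
    coin_Hc (P := FP.pr Q R) (R := FPpi fun _ : Fin k => a) (fun v => Y v.1.1) (fun _ => ())
  have e9 : P2.Hc (fun v => Y v.1.1) (fun w => ((fun i => g w.1.1 (w.2 i, w.1.2 i)), w.2, ())) =
      (FPpi fun _ : Fin k => a).E (fun cs => (FP.pr Q R).Hc (fun w => Y w.1)
        (fun w => ((fun i => g w.1 (cs i, w.2 i)), ()))) := by
    rw [← coin_Hc (P := FP.pr Q R) (R := FPpi fun _ : Fin k => a) (fun v => Y v.1.1)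
      (fun v => ((fun i => g v.1.1 (v.2 i, v.1.2 i)), ()))]
    refine P2.Hc_congr_right _ ?_ ?_
    · intro v w hvw
      simp only [Prod.mk.injEq] at hvw ⊢
      exact ⟨hvw.2.1, hvw.1, trivial⟩
    · intro v w hvw
      simp only [Prod.mk.injEq] at hvw ⊢
      exact ⟨hvw.2.1, hvw.1, trivial⟩
  rw [e8, e9, ← FP.E_sub]
  refine FP.E_le_const _ fun cs _ => ?_
  have := hfix cs
  rw [FP.I_eq_Hc] at this
  exact this


/-- transfer of the information from the public class to the class of the exact point -/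
theorem I_transfer
    (hU : ∀ I x y y', (∀ j ∈ I, y j = y' j) → (∀ j, D.qb t (y j) = D.qb t (y' j)) → U I x y = U I x y')
    {V1 : Pt K X β φ → Prop} (hbd : b ≠ d) (hVf' : Fac (Ah D t ∅) V1)
    (hV11 : ∀ v w, V1 v → V1 w → BB D t ∅ v = BB D t ∅ w)
    (hw1 : V1 w0) (hV10 : (D.P h t).Pr V1 ≠ 0)
    (hVA : Fac (Ah D t {b}) V) (hVB : ∀ v w, V v → V w → BB D t {b} v = BB D t {b} w) (hw0 : V w0)
    (hV0 : (D.P h t).Pr V ≠ 0) {Typ : β → υ → Prop} {k : ℕ} (cs : Fin k → β)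
    {E0 : X → Prop} (hE : ∀ x, V (x, w0.2) ↔ V1 (x, w0.2) ∧ E0 x)
    (hE0 : ((D.P h t).cond V1).Pr (fun w => E0 w.1) ≠ 0) :
    (FP.pr ((D.P h t).cond V) (coinK h t d k)).I (fun w => U {d} w.1.1 (Function.update w0.2.1 d (w.1.2.1 d)))
      (gk D t U Typ c d w0.2.1 cs) (fun w => w.1.2.1 d) =
    ((FP.pr ((D.P h t).cond V1) (coinK h t d k)).cond fun w => E0 w.1.1).I (fun w => U {d} w.1.1 w.1.2.1)
      (gk D t U Typ c d w0.2.1 cs) (fun w => w.1.2.1 d) := by
  classical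
  set Q := (D.P h t).cond V with hQ
  set Q1 := (D.P h t).cond V1 with hQ1
  set R := coinK (K := K) (X := X) (β := β) (φ := φ) h t d k with hR
  have hPr : (FP.pr Q1 R).Pr (fun w => E0 w.1.1) = Q1.Pr (fun w => E0 w.1) := lift_Pr Q1 R fun w => E0 w.1
  have hE1 : (FP.pr Q1 R).Pr (fun w => E0 w.1.1) ≠ 0 := by rw [hPr]; exact hE0
  set PE := (FP.pr Q1 R).cond (fun w => E0 w.1.1) with hPE
  have e1 : PE.I (fun w => U {d} w.1.1 w.1.2.1) (gk D t U Typ c d w0.2.1 cs) (fun w => w.1.2.1 d) =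
      PE.I (fun w => U {d} w.1.1 (Function.update w0.2.1 d (w.1.2.1 d)))
        (gk D t U Typ c d w0.2.1 cs) (fun w => w.1.2.1 d) := by
    refine I_congr_eq (fun v hv => ?_) (fun _ _ => rfl) fun _ _ => rfl
    have a1 := (pr_supp Q1 R).1 ((FP.cond_ac _ _) v hv)
    have a2 := hV11 v.1 w0 (cond_supp hV10 a1.1).1 hw1
    rw [BB_eq] at a2
    refine hU {d} v.1.1 _ _ (fun j hj => ?_) fun j => ?_
    · rw [Finset.mem_singleton.1 hj, Function.update_self]
    · by_cases hjd : j = d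
      · subst hjd; rw [Function.update_self]
      · rw [Function.update_of_ne hjd]; exact a2.2.2 j
  rw [e1]
  have H : ∀ f : X × β × (Fin k → Cn K X β φ) → ℝ, (FP.pr Q R).E (fun w => f (w.1.1, w.1.2.1 d, w.2)) =
      PE.E (fun w => f (w.1.1, w.1.2.1 d, w.2)) := by
    intro f
    rw [hPE, FP.cond_E hE1, hPr, FP.pr_E, FP.pr_E]
    have a1 : Q1.E (fun v => R.E fun θ => ind (E0 v.1) * f (v.1, v.2.1 d, θ)) =
        Q1.E (fun v => ind (E0 v.1) * R.E fun θ => f (v.1, v.2.1 d, θ)) :=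
      Q1.E_congr fun v _ => FP.E_smul _ _ _
    rw [a1, ← FP.cond_E hE0]
    exact (law_xd h hVf' hV11 hVA hVB hw1 hw0 hV10 hV0 (Finset.notMem_empty d)
      (fun hh => hbd (Finset.mem_singleton.1 hh).symm) hE hE0 fun x y => R.E fun θ => f (x, y, θ)).symm
  exact eql_I (P1 := FP.pr Q R) (P2 := PE)
    (π1 := fun w => (w.1.1, w.1.2.1 d, w.2)) (π2 := fun w => (w.1.1, w.1.2.1 d, w.2)) H
    (fun o => U {d} o.1 (Function.update w0.2.1 d o.2.1))
    (fun o i => gs D t U Typ c d w0.2.1 (o.1, w0.2) (cs i, o.2.2 i)) (fun o => o.2.1)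


theorem pub_fac
    (hU : ∀ I x y y', (∀ j ∈ I, y j = y' j) → (∀ j, D.qb t (y j) = D.qb t (y' j)) → U I x y = U I x y')
    {V1 : Pt K X β φ → Prop} (hVf : Fac (fun w => (le (LL U) ∅ w, BB D t ∅ w)) V1) (hcl : ∀ l : K, ∃ j, j ≠ l) :
    Fac (Ah D t ∅) V1 := by
  intro v w hvw
  unfold Ah at hvw
  simp only [Prod.mk.injEq, BB_eq] at hvw
  refine hVf v w ?_
  simp only [Prod.mk.injEq, le_eq, BB_eq]
  refine ⟨fun I' hI' => ?_, hvw.2⟩
  rw [LL_eq]
  refine ⟨?_, fun l hl => ?_⟩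
  · rw [hvw.1]
    exact hU I' w.1 v.2.1 w.2.1 (fun j hj => absurd (hI' hj) (Finset.notMem_empty j)) hvw.2.2.2
  · obtain ⟨j, hj⟩ := hcl l
    exact absurd (hI' (hl ▸ Finset.mem_erase.2 ⟨hj, mem_univ j⟩)) (Finset.notMem_empty j)

/-- **the sampled rows and the second row**, fixed sample points -/
theorem hd_fix
    (hU : ∀ I x y y', (∀ j ∈ I, y j = y' j) → (∀ j, D.qb t (y j) = D.qb t (y' j)) → U I x y = U I x y')
    (hs : SatA (D.P h t) (BB D t) N S (LL U) (Dep D t)) (hN : ∀ J ∈ S, 0 ≤ N J) (hNd : 0 < N {d})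
    {V1 : Pt K X β φ → Prop} (hbd : b ≠ d) (hVf : Fac (fun w => (le (LL U) ∅ w, BB D t ∅ w)) V1)
    (hV11 : ∀ v w, V1 v → V1 w → BB D t ∅ v = BB D t ∅ w) (hV12 : ∀ v w, V1 v → V1 w → U ∅ v.1 v.2.1 = U ∅ w.1 w.2.1)
    (hw1 : V1 w0) (hV10 : (D.P h t).Pr V1 ≠ 0) (h0S : ∅ ∈ S) (hdS : {d} ∈ S)
    (hVA : Fac (Ah D t {b}) V) (hVB : ∀ v w, V v → V w → BB D t {b} v = BB D t {b} w) (hw0 : V w0)
    (hV0 : (D.P h t).Pr V ≠ 0)
    {Typ : β → υ → Prop} {M : ℝ} (hM : ∀ c', ∃ s : Finset υ, (s.card : ℝ) ≤ M ∧ ∀ u, Typ c' u → u ∈ s) {k : ℕ}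
    (cs : Fin k → β) {E0 : X → Prop} (hE : ∀ x, V (x, w0.2) ↔ V1 (x, w0.2) ∧ E0 x)
    (hE0 : ((D.P h t).cond V1).Pr (fun w => E0 w.1) ≠ 0) (hcl : ∀ l : K, ∃ j, j ≠ l) :
    (FP.pr ((D.P h t).cond V) (coinK h t d k)).I (fun w => ud U d w0.2.1 w.1.1 (w.1.2.1 d))
      (gk D t U Typ c d w0.2.1 cs) (fun _ => ()) ≤
      (2 * N ∅ * (Real.log (1 / ((D.P h t).cond V1).Pr (fun w => E0 w.1)) + 1) +
        2 * N ∅ * (k * Real.log ((M + 1) * (1 / al + 1)))) / N {d} := by
  classical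
  have h4 := row_dl h hU hs hN hVf hV11 hV12 hw1 hV10 h0S hdS hM cs hE0 hcl (c := c) (d := d)
  rw [← I_transfer h hU hbd (pub_fac hU hVf hcl) hV11 hw1 hV10 hVA hVB hw0 hV0 cs hE hE0] at h4
  set P := FP.pr ((D.P h t).cond V) (coinK h t d k) with hP
  set A : Pt K X β φ × (Fin k → Cn K X β φ) → υ := fun w => U {d} w.1.1 (Function.update w0.2.1 d (w.1.2.1 d)) with hA
  set G := gk D t U Typ c d w0.2.1 cs with hG
  have h1 : P.I (fun w => ud U d w0.2.1 w.1.1 (w.1.2.1 d)) G (fun _ => ()) ≤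
      P.I (fun w => (A w, w.1.2.1 d)) G (fun _ => ()) := by
    refine P.I_mono _ fun v w hvw => ?_
    simp only [Prod.mk.injEq] at hvw
    show (v.1.2.1 d, A v) = (w.1.2.1 d, A w)
    rw [hvw.1.1, hvw.1.2]
  have h5 : P.I (fun w => (A w, w.1.2.1 d)) G (fun _ => ()) = P.I (fun w => w.1.2.1 d) G (fun _ => ()) +
      P.I A G (fun w => (w.1.2.1 d, ())) := P.I_chain _ _ _ _
  have h2 : P.I (fun w => w.1.2.1 d) G (fun _ => ()) = 0 := by
    refine I_of_indep ((indep_pt h (d := d) hVA hVB hw0 hV0 (coinK h t d k)).mono (Fac.refl _) ?_)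
    intro v w hvw
    simp only [Prod.mk.injEq] at hvw
    funext i
    show gs D t U Typ c d w0.2.1 v.1 (cs i, v.2 i) = gs D t U Typ c d w0.2.1 w.1 (cs i, w.2 i)
    unfold gs
    rw [hvw.1, hvw.2]
  have h3 : P.I A G (fun w => (w.1.2.1 d, ())) = P.I A G (fun w => w.1.2.1 d) :=
    P.I_congr_cond (Fac.fst _ _) ((Fac.refl _).prod (Fac.const _ ()))
  rw [h5, h2, h3, zero_add] at h1
  refine h1.trans ?_
  rw [le_div_iff₀ hNd, mul_comm]
  exact h4


/-! ### the class of the exact point with its own letter -/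

/-- public class `V1`, exact point and own letter of `b` as at `w0` -/
def clsb (U : Finset K → X → (K → β) → υ) (V1 : Pt K X β φ → Prop) (b : K) (w0 v : Pt K X β φ) : Prop :=
  V1 v ∧ v.2.1 b = w0.2.1 b ∧ U {b} v.1 v.2.1 = U {b} w0.1 w0.2.1

/-- public classes: one node, one public letter, seen by everybody -/
structure PubC (D : HD K X β γ φ) (t : ℕ) (U : Finset K → X → (K → β) → υ) (V1 : Pt K X β φ → Prop) : Prop where
  fac : Fac (fun w => (le (LL U) ∅ w, BB D t ∅ w)) V1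
  nod : ∀ v w, V1 v → V1 w → BB D t ∅ v = BB D t ∅ w
  let0 : ∀ v w, V1 v → V1 w → U ∅ v.1 v.2.1 = U ∅ w.1 w.2.1

/-- typical letter at the vertex `c`, truncated -/
noncomputable def zt (U : Finset K → X → (K → β) → υ) (Typ : β → υ → Prop) (c : K) (w : Pt K X β φ) : β × Option υ :=
  (w.2.1 c, tru Typ (w.2.1 c) (U {c} w.1 w.2.1))

variable {V1 : Pt K X β φ → Prop}

theorem clsb_facts (hp : PubC D t U V1) (hw1 : V1 w0) :
    clsb U V1 b w0 w0 ∧ Fac (fun w => (le (LL U) {b} w, BB D t {b} w)) (clsb U V1 b w0) ∧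
    (∀ v w, clsb U V1 b w0 v → clsb U V1 b w0 w → BB D t {b} v = BB D t {b} w) ∧
    (∀ v w, clsb U V1 b w0 v → clsb U V1 b w0 w → ∀ I ⊆ {b}, U I v.1 v.2.1 = U I w.1 w.2.1) := by
  refine ⟨⟨hw1, rfl, rfl⟩, ?_, ?_, ?_⟩
  · intro v w hvw
    simp only [Prod.mk.injEq, BB_eq, le_eq] at hvw
    obtain ⟨h1, h2, h3⟩ := hvw
    have e1 : V1 v = V1 w := by
      refine hp.fac v w ?_
      simp only [Prod.mk.injEq, BB_eq, le_eq]
      exact ⟨fun I hI => h1 I (hI.trans (Finset.empty_subset _)), fun j hj => absurd hj (Finset.notMem_empty j), h3⟩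
    have e2 := (h1 {b} (Finset.Subset.refl _))
    rw [LL_eq] at e2
    show (V1 v ∧ v.2.1 b = w0.2.1 b ∧ U {b} v.1 v.2.1 = U {b} w0.1 w0.2.1) =
      (V1 w ∧ w.2.1 b = w0.2.1 b ∧ U {b} w.1 w.2.1 = U {b} w0.1 w0.2.1)
    rw [e1, h2 b (Finset.mem_singleton_self b), e2.1]
  · intro v w hv hw
    have := hp.nod v w hv.1 hw.1
    rw [BB_eq] at this ⊢
    exact ⟨fun j hj => by rw [Finset.mem_singleton.1 hj, hv.2.1, hw.2.1], this.2⟩
  · intro v w hv hw I hI
    rcases Finset.subset_singleton_iff.1 hI with rfl | rfl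
    · exact hp.let0 v w hv.1 hw.1
    · rw [hv.2.2, hw.2.2]

theorem clsb_Ah
    (hU : ∀ I x y y', (∀ j ∈ I, y j = y' j) → (∀ j, D.qb t (y j) = D.qb t (y' j)) → U I x y = U I x y')
    (hp : PubC D t U V1) (hcl : ∀ l : K, ∃ j, j ≠ l) : Fac (Ah D t {b}) (clsb U V1 b w0) := by
  intro v w hvw
  unfold Ah at hvw
  simp only [Prod.mk.injEq, BB_eq] at hvw
  obtain ⟨h1, h2, h3⟩ := hvw
  have e1 : V1 v = V1 w := by
    refine pub_fac hU hp.fac hcl v w ?_
    unfold Ah
    simp only [Prod.mk.injEq, BB_eq]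
    exact ⟨h1, fun j hj => absurd hj (Finset.notMem_empty j), h3⟩
  have e2 : U {b} v.1 v.2.1 = U {b} w.1 w.2.1 := by
    rw [h1]
    exact hU {b} w.1 v.2.1 w.2.1 h2 h3.2
  show (V1 v ∧ v.2.1 b = w0.2.1 b ∧ U {b} v.1 v.2.1 = U {b} w0.1 w0.2.1) =
    (V1 w ∧ w.2.1 b = w0.2.1 b ∧ U {b} w.1 w.2.1 = U {b} w0.1 w0.2.1)
  rw [e1, h2 b (Finset.mem_singleton_self b), e2]

/-- **TWO ROWS OF ONE EXACT POINT ARE ALMOST INDEPENDENT** (3933 (A), 3945): public class `V1`, exact point and own letter of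
`b` as at `w0`; `F` = letter at the vertices without `d`, truncated with the typical letters of `c`; second row = point and
letter of `d` and the label at the vertices without `c` -/
theorem p2R
    (hU : ∀ I x y y', (∀ j ∈ I, y j = y' j) → (∀ j, D.qb t (y j) = D.qb t (y' j)) → U I x y = U I x y')
    (hs : SatA (D.P h t) (BB D t) N S (LL U) (Dep D t)) (hN : ∀ J ∈ S, 0 ≤ N J)
    (hbc : b ≠ c) (hbd : b ≠ d) (hcd : c ≠ d) (hK3 : ∀ j, j = b ∨ j = c ∨ j = d)
    (h0S : ∅ ∈ S) (hbS : {b} ∈ S) (hdS : {d} ∈ S) (heS : univ.erase d ∈ S) (hNb : 0 < N {b}) (hNd : 0 < N {d})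
    (hNe : 0 < N (univ.erase d)) (hp : PubC D t U V1) (hw1 : V1 w0) (hw0 : (D.P h t).p w0 ≠ 0)
    {Typ : β → υ → Prop} {M : ℝ} (hM : ∀ c', ∃ s : Finset υ, (s.card : ℝ) ≤ M ∧ ∀ u, Typ c' u → u ∈ s)
    {R0 ep : ℝ} {k : ℕ} (hk : 0 < k) (hep : 0 < ep) (hep2 : ep ≤ 1 / 2) (hR0 : Real.log (1 / ep) ≤ R0)
    (hR1 : Real.log (1 / al) ≤ R0) (hkR : N (univ.erase d) / (2 * N {b}) * R0 ≤ 2 * k) :
    ((D.P h t).cond (clsb U V1 b w0)).I (fun w => fc (zt U Typ c w) (w.2.2 d))
      (fun w => ((w.2.1 d, U {d} w.1 w.2.1), w.2.2 c)) (zt U Typ c) ≤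
      2 * ((2 * N ∅ * (Real.log (1 / ((D.P h t).cond V1).Pr (fun w => U {b} w.1 w0.2.1 = U {b} w0.1 w0.2.1)) + 1) +
        2 * N ∅ * (k * Real.log ((M + 1) * (1 / al + 1)))) / N {d} + Real.log (1 / al) + 3) /
        (N (univ.erase d) / (2 * N {b})) + N (univ.erase d) / (2 * N {b}) * R0 ^ 2 / (2 * k) + 2 * ep := by
  classical
  obtain ⟨f1, f2, f3, f4⟩ := clsb_facts (b := b) hp hw1
  have hcl : ∀ l : K, ∃ j, j ≠ l := by
    intro l
    by_cases hl : b = l
    · exact ⟨c, fun hh => hbc (hl.trans hh.symm)⟩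
    · exact ⟨b, hl⟩
  have hVA := clsb_Ah (b := b) (w0 := w0) hU hp hcl
  have hK : ∀ j, j ≠ c → j ≠ d → j ∈ ({b} : Finset K) := by
    intro j h1 h2
    rw [Finset.mem_singleton]
    rcases hK3 j with h3 | h3 | h3
    · exact h3
    · exact absurd h3 h1
    · exact absurd h3 h2
  have hV0 : (D.P h t).Pr (clsb U V1 b w0) ≠ 0 := (FP.Pr_pos_of (S := clsb U V1 b w0) hw0 f1).ne'
  have hV10 : (D.P h t).Pr V1 ≠ 0 := (FP.Pr_pos_of (S := V1) hw0 hw1).ne'
  have hw01 : ((D.P h t).cond V1).p w0 ≠ 0 := (FP.cond_p_ne hV10).2 ⟨hw1, hw0⟩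
  have hE0 : ((D.P h t).cond V1).Pr (fun w => U {b} w.1 w0.2.1 = U {b} w0.1 w0.2.1) ≠ 0 :=
    (FP.Pr_pos_of (S := fun w => U {b} w.1 w0.2.1 = U {b} w0.1 w0.2.1) hw01 rfl).ne'
  have hE : ∀ x, clsb U V1 b w0 (x, w0.2) ↔ V1 (x, w0.2) ∧ U {b} x w0.2.1 = U {b} w0.1 w0.2.1 := fun x =>
    ⟨fun hh => ⟨hh.1, hh.2.2⟩, fun hh => ⟨hh.1, rfl, hh.2⟩⟩
  set Q := (D.P h t).cond (clsb U V1 b w0) with hQ
  have hm : 0 < N (univ.erase d) / (2 * N {b}) := by positivity
  have hal := h.pos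
  -- the letters in the class
  have hnode : ∀ w, Q.p w ≠ 0 → ∀ j, D.qb t (w.2.1 j) = D.qb t (w0.2.1 j) := fun w hw =>
    (inBox_bxs.1 (supp_cls h f3 f1 hV0 hw).1).2
  have hupd : ∀ (e : K) (w : Pt K X β φ), Q.p w ≠ 0 →
      U {e} w.1 (Function.update w0.2.1 e (w.2.1 e)) = U {e} w.1 w.2.1 := by
    intro e w hw
    refine hU {e} w.1 _ _ (fun j hj => ?_) fun j => ?_
    · rw [Finset.mem_singleton.1 hj, Function.update_self]
    · by_cases hje : j = e
      · subst hje; rw [Function.update_self]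
      · rw [Function.update_of_ne hje]; exact (hnode w hw j).symm
  have hz : ∀ w, Q.p w ≠ 0 → zt U Typ c w = zc U Typ c w0.2.1 w.1 (w.2.1 c) := by
    intro w hw
    unfold zt zc
    rw [hupd c w hw]
  have e0 : Q.I (fun w => fc (zt U Typ c w) (w.2.2 d)) (fun w => ((w.2.1 d, U {d} w.1 w.2.1), w.2.2 c)) (zt U Typ c) =
      Q.I (fun w => fc (zc U Typ c w0.2.1 w.1 (w.2.1 c)) (w.2.2 d))
        (fun w => (ud U d w0.2.1 w.1 (w.2.1 d), w.2.2 c)) (fun w => zc U Typ c w0.2.1 w.1 (w.2.1 c)) := by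
    refine I_congr_eq (fun v hv => by rw [hz v hv]) (fun v hv => ?_) fun v hv => hz v hv
    show ((v.2.1 d, U {d} v.1 v.2.1), v.2.2 c) = ((v.2.1 d, U {d} v.1 (Function.update w0.2.1 d (v.2.1 d))), v.2.2 c)
    rw [hupd d v hv]
  rw [e0]
  have hd := split_coins Q (uS (bxs D t {b} w0.2.1 c) (bxs_ne t {b} w0.2.1 c)) (coinF h t d) k
    (fun w => ud U d w0.2.1 w.1 (w.2.1 d)) (fun w => gs D t U Typ c d w0.2.1 w)
    (fun cs => hd_fix h hU hs hN hNd hbd hp.fac hp.nod hp.let0 hw1 hV10 h0S hdS hVA f3 f1 hV0 hM cs hE hE0 hcl (c := c))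
  refine p2 (Q := Q) (A := Ah D t {b}) (g := gs D t U Typ c d w0.2.1) hk hm hep hep2 hR0 ?_ ?_ ?_ hkR ?_ hd ?_
  · intro w hw
    have h1 := thickF h hVA f3 f1 hV0 hcd hK (hal_one h b) U Typ hw
    have h2 : 1 / al ≤ Real.exp R0 := by
      have := Real.exp_le_exp.2 hR1
      rwa [Real.exp_log (by positivity)] at this
    have h3 := Q.m_nonneg (fun w => (fc (zc U Typ c w0.2.1 w.1 (w.2.1 c)) (w.2.2 d), zc U Typ c w0.2.1 w.1 (w.2.1 c))) w
    calc Q.m (fun w => zc U Typ c w0.2.1 w.1 (w.2.1 c)) w = 1 / al * (al * Q.m (fun w => zc U Typ c w0.2.1 w.1 (w.2.1 c)) w) := by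
          field_simp
      _ ≤ 1 / al * Q.m (fun w => (fc (zc U Typ c w0.2.1 w.1 (w.2.1 c)) (w.2.2 d), zc U Typ c w0.2.1 w.1 (w.2.1 c))) w :=
          mul_le_mul_of_nonneg_left h1 (by positivity)
      _ ≤ _ := mul_le_mul_of_nonneg_right h2 h3
  · intro f v hv
    exact samp h hVA f3 f1 hV0 hcd hK U Typ f hv
  · intro f
    exact row_indep h hVA f3 f1 hV0 hcd hK (fun x y F => (ud U d w0.2.1 x y, F))
      (fun x y F => (fc (zc U Typ c w0.2.1 x y) F, zc U Typ c w0.2.1 x y)) (fun y x => f y.1 y.2 x)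
  · intro S1 psi hS1 hS10 hpsi hone
    exact sat_p2 h hU hs hN hbc hbd hcd hK3 f2 f3 f4 f1 hV0 hbS heS hNb Typ hS1 hS10 hpsi hone
  · refine HcF h f3 f1 hV0 hK _ fun v w _ _ hvw => ?_
    exact congrArg Prod.fst hvw


/-! ### full letters -/

/-- from the truncated to the full letters -/
theorem I_trunc {Om κ κ' ι ζ ζ' : Type*} [Fintype Om] {Q : FP Om} {F : Om → κ} {F' : Om → κ'} {Y : Om → ι} {Z : Om → ζ}
    {Z' : Om → ζ'} {T : Om → Prop} (hT : Fac Z T) (hT' : Fac Z' T)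
    (h1 : ∀ v w, Q.p v ≠ 0 → Q.p w ≠ 0 → T v → T w → (Z v = Z w ↔ Z' v = Z' w))
    (h2 : ∀ v w, Q.p v ≠ 0 → Q.p w ≠ 0 → T v → T w → (F v = F w ↔ F' v = F' w))
    (h3 : ∀ v w, ¬ T v → ¬ T w → F' v = F' w) {r : ℝ} (hr : ∀ w, Q.p w ≠ 0 → Q.m Z w ≤ Real.exp r * Q.m (fun v => (F v, Z v)) w) :
    Q.I F Y Z ≤ Q.I F' Y Z' + r * Q.Pr (fun w => ¬ T w) := by
  rw [FP.I_eq_E_log, FP.I_eq_E_log]
  unfold FP.Pr
  rw [← FP.E_smul, ← FP.E_add]
  refine Q.E_mono fun w hw => ?_
  have a := Q.m_pos (fun v => (F v, Y v, Z v)) hw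
  have b := Q.m_pos Z hw
  have c := Q.m_pos (fun v => (F v, Z v)) hw
  have d := Q.m_pos (fun v => (Y v, Z v)) hw
  by_cases hTw : T w
  · rw [ind_not (fun hh => hh hTw), mul_zero, add_zero]
    apply le_of_eq
    -- the fibres agree
    have hTv : ∀ v, Z v = Z w → T v := fun v hv => by rw [hT v w hv]; exact hTw
    have hTv' : ∀ v, Z' v = Z' w → T v := fun v hv => by rw [hT' v w hv]; exact hTw
    have e1 : ∀ v, Q.p v ≠ 0 → (Z v = Z w ↔ Z' v = Z' w) := fun v hv =>
      ⟨fun hh => (h1 v w hv hw (hTv v hh) hTw).1 hh, fun hh => (h1 v w hv hw (hTv' v hh) hTw).2 hh⟩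
    have e2 : ∀ v, Q.p v ≠ 0 → ((F v = F w ∧ Z v = Z w) ↔ (F' v = F' w ∧ Z' v = Z' w)) := fun v hv =>
      ⟨fun hh => ⟨(h2 v w hv hw (hTv v hh.2) hTw).1 hh.1, (e1 v hv).1 hh.2⟩,
        fun hh => ⟨(h2 v w hv hw (hTv' v hh.2) hTw).2 hh.1, (e1 v hv).2 hh.2⟩⟩
    have m1 : Q.m Z w = Q.m Z' w := Q.E_congr fun v hv => by rw [propext (e1 v hv)]
    have m2 : Q.m (fun v => (F v, Z v)) w = Q.m (fun v => (F' v, Z' v)) w := Q.E_congr fun v hv => by
      rw [Prod.mk.injEq, Prod.mk.injEq, propext (e2 v hv)]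
    have m3 : Q.m (fun v => (Y v, Z v)) w = Q.m (fun v => (Y v, Z' v)) w := Q.E_congr fun v hv => by
      rw [Prod.mk.injEq, Prod.mk.injEq, propext (e1 v hv)]
    have m4 : Q.m (fun v => (F v, Y v, Z v)) w = Q.m (fun v => (F' v, Y v, Z' v)) w := Q.E_congr fun v hv => by
      simp only [Prod.mk.injEq]
      have := e2 v hv
      congr 1
      exact propext ⟨fun hh => ⟨(this.1 ⟨hh.1, hh.2.2⟩).1, hh.2.1, (this.1 ⟨hh.1, hh.2.2⟩).2⟩,
        fun hh => ⟨(this.2 ⟨hh.1, hh.2.2⟩).1, hh.2.1, (this.2 ⟨hh.1, hh.2.2⟩).2⟩⟩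
    rw [m1, m2, m3, m4]
  · rw [ind_of hTw, mul_one]
    have e3 : Q.m (fun v => (F' v, Y v, Z' v)) w = Q.m (fun v => (Y v, Z' v)) w := Q.E_congr fun v _ => by
      simp only [Prod.mk.injEq]
      congr 1
      refine propext ⟨fun hh => hh.2, fun hh => ⟨h3 v w (fun hv => hTw ?_) hTw, hh⟩⟩
      rw [← hT' v w hh.2]; exact hv
    have e4 : Q.m (fun v => (F' v, Z' v)) w = Q.m Z' w := Q.E_congr fun v _ => by
      simp only [Prod.mk.injEq]
      congr 1
      refine propext ⟨fun hh => hh.2, fun hh => ⟨h3 v w (fun hv => hTw ?_) hTw, hh⟩⟩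
      rw [← hT' v w hh]; exact hv
    have b' := Q.m_pos Z' hw
    have d' := Q.m_pos (fun v => (Y v, Z' v)) hw
    rw [e3, e4, mul_comm (Q.m Z' w), div_self (mul_pos d' b').ne', Real.log_one, zero_add]
    rw [Real.log_le_iff_le_exp (div_pos (mul_pos a b) (mul_pos c d)), div_le_iff₀ (mul_pos c d)]
    have h4 : Q.m (fun w => (F w, Y w, Z w)) w ≤ Q.m (fun w => (Y w, Z w)) w :=
      Q.m_anti (Fac.snd F fun w => (Y w, Z w)) w
    calc Q.m (fun v => (F v, Y v, Z v)) w * Q.m Z w ≤ Q.m (fun w => (Y w, Z w)) w * (Real.exp r * Q.m (fun v => (F v, Z v)) w) :=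
          mul_le_mul h4 (hr w hw) b.le d.le
      _ = _ := by ring


/-- the probability of the own letter of `e` in the public class -/
noncomputable def own (h : D.Thick al) (t : ℕ) (U : Finset K → X → (K → β) → υ) (V1 : Pt K X β φ → Prop) (e : K)
    (w0 : Pt K X β φ) : ℝ := ((D.P h t).cond V1).Pr (fun w => U {e} w.1 w0.2.1 = U {e} w0.1 w0.2.1)

/-- the bound `dl` -/
noncomputable def dlb (N : Finset K → ℝ) (al M : ℝ) (k : ℕ) (d : K) (Lb : ℝ) : ℝ :=
  (2 * N ∅ * (Lb + 1) + 2 * N ∅ * (k * Real.log ((M + 1) * (1 / al + 1)))) / N {d}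

/-- the bound of (P2) -/
noncomputable def p2b (N : Finset K → ℝ) (al M R0 ep : ℝ) (k : ℕ) (b d : K) (Lb : ℝ) : ℝ :=
  2 * (dlb N al M k d Lb + Real.log (1 / al) + 3) / (N (univ.erase d) / (2 * N {b})) +
    N (univ.erase d) / (2 * N {b}) * R0 ^ 2 / (2 * k) + 2 * ep

/-- **the two labels of one exact point, given the points and the letters**, class of `clsb` -/
theorem p2R_pair
    (hU : ∀ I x y y', (∀ j ∈ I, y j = y' j) → (∀ j, D.qb t (y j) = D.qb t (y' j)) → U I x y = U I x y')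
    (hs : SatA (D.P h t) (BB D t) N S (LL U) (Dep D t)) (hN : ∀ J ∈ S, 0 ≤ N J)
    (hbc : b ≠ c) (hbd : b ≠ d) (hcd : c ≠ d) (hK3 : ∀ j, j = b ∨ j = c ∨ j = d)
    (h0S : ∅ ∈ S) (hbS : {b} ∈ S) (hdS : {d} ∈ S) (heS : univ.erase d ∈ S) (hNb : 0 < N {b}) (hNd : 0 < N {d})
    (hNe : 0 < N (univ.erase d)) (hp : PubC D t U V1) (hw1 : V1 w0) (hw0 : (D.P h t).p w0 ≠ 0)
    {Typ : β → υ → Prop} {M : ℝ} (hM : ∀ c', ∃ s : Finset υ, (s.card : ℝ) ≤ M ∧ ∀ u, Typ c' u → u ∈ s)
    {R0 ep : ℝ} {k : ℕ} (hk : 0 < k) (hep : 0 < ep) (hep2 : ep ≤ 1 / 2) (hR0 : Real.log (1 / ep) ≤ R0)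
    (hR1 : Real.log (1 / al) ≤ R0) (hkR : N (univ.erase d) / (2 * N {b}) * R0 ≤ 2 * k) :
    ((D.P h t).cond (clsb U V1 b w0)).I (fun w => w.2.2 d) (fun w => w.2.2 c)
      (fun w => ((w.2.1 d, U {d} w.1 w.2.1), (w.2.1 c, U {c} w.1 w.2.1))) ≤
      p2b N al M R0 ep k b d (Real.log (1 / own h t U V1 b w0)) +
        Real.log (1 / al) * ((D.P h t).cond (clsb U V1 b w0)).Pr (fun w => ¬ Typ (w.2.1 c) (U {c} w.1 w.2.1)) := by
  classical
  have key := p2R h hU hs hN hbc hbd hcd hK3 h0S hbS hdS heS hNb hNd hNe hp hw1 hw0 hM hk hep hep2 hR0 hR1 hkR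
  set Q := (D.P h t).cond (clsb U V1 b w0) with hQ
  obtain ⟨f1, f2, f3, f4⟩ := clsb_facts (b := b) hp hw1
  have hcl : ∀ l : K, ∃ j, j ≠ l := by
    intro l
    by_cases hl : b = l
    · exact ⟨c, fun hh => hbc (hl.trans hh.symm)⟩
    · exact ⟨b, hl⟩
  have hVA := clsb_Ah (b := b) (w0 := w0) hU hp hcl
  have hK : ∀ j, j ≠ c → j ≠ d → j ∈ ({b} : Finset K) := by
    intro j h1 h2
    rw [Finset.mem_singleton]
    rcases hK3 j with h3 | h3 | h3
    · exact h3
    · exact absurd h3 h1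
    · exact absurd h3 h2
  have hV0 : (D.P h t).Pr (clsb U V1 b w0) ≠ 0 := (FP.Pr_pos_of (S := clsb U V1 b w0) hw0 f1).ne'
  have hal := h.pos
  -- thickness of the full letter
  have hth : ∀ w, Q.p w ≠ 0 → Q.m (fun w => (w.2.1 c, U {c} w.1 w.2.1)) w ≤
      Real.exp (Real.log (1 / al)) * Q.m (fun w => (w.2.2 d, (w.2.1 c, U {c} w.1 w.2.1))) w := by
    intro w hw
    have h1 := thickF h hVA f3 f1 hV0 hcd hK (hal_one h b) U (fun _ _ => True) hw
    have hnode : ∀ w, Q.p w ≠ 0 → ∀ j, D.qb t (w.2.1 j) = D.qb t (w0.2.1 j) := fun w hw =>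
      (inBox_bxs.1 (supp_cls h f3 f1 hV0 hw).1).2
    have hupd : ∀ (w : Pt K X β φ), Q.p w ≠ 0 →
        zc U (fun _ _ => True) c w0.2.1 w.1 (w.2.1 c) = (w.2.1 c, some (U {c} w.1 w.2.1)) := by
      intro w hw
      unfold zc tru
      rw [if_pos trivial]
      congr 2
      refine hU {c} w.1 _ _ (fun j hj => ?_) fun j => ?_
      · rw [Finset.mem_singleton.1 hj, Function.update_self]
      · by_cases hje : j = c
        · subst hje; rw [Function.update_self]
        · rw [Function.update_of_ne hje]; exact (hnode w hw j).symm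
    have e1 : Q.m (fun w => zc U (fun _ _ => True) c w0.2.1 w.1 (w.2.1 c)) w = Q.m (fun w => (w.2.1 c, U {c} w.1 w.2.1)) w := by
      unfold FP.m
      refine Q.E_congr fun v hv => ?_
      simp only [hupd v hv, hupd w hw, Prod.mk.injEq, Option.some.injEq]
    have e2 : Q.m (fun w => (fc (zc U (fun _ _ => True) c w0.2.1 w.1 (w.2.1 c)) (w.2.2 d),
        zc U (fun _ _ => True) c w0.2.1 w.1 (w.2.1 c))) w =
        Q.m (fun w => (w.2.2 d, (w.2.1 c, U {c} w.1 w.2.1))) w := by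
      unfold FP.m
      refine Q.E_congr fun v hv => ?_
      simp only [hupd v hv, hupd w hw, Prod.mk.injEq, Option.some.injEq, fc, Option.map_some]
    rw [e1, e2] at h1
    rw [Real.exp_log (by positivity)]
    have h3 := mul_le_mul_of_nonneg_left h1 (show 0 ≤ 1 / al by positivity)
    have h4 : 1 / al * (al * Q.m (fun w => (w.2.1 c, U {c} w.1 w.2.1)) w) = Q.m (fun w => (w.2.1 c, U {c} w.1 w.2.1)) w := by
      field_simp
    rw [h4] at h3
    exact h3
  have h1 := I_trunc (Q := Q) (F := fun w => w.2.2 d) (F' := fun w => fc (zt U Typ c w) (w.2.2 d))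
    (Y := fun w => ((w.2.1 d, U {d} w.1 w.2.1), w.2.2 c)) (Z := fun w => (w.2.1 c, U {c} w.1 w.2.1))
    (Z' := zt U Typ c) (T := fun w => Typ (w.2.1 c) (U {c} w.1 w.2.1)) (r := Real.log (1 / al)) ?_ ?_ ?_ ?_ ?_ hth
  · have h2 : Q.I (fun w => w.2.2 d) (fun w => w.2.2 c)
        (fun w => ((w.2.1 d, U {d} w.1 w.2.1), (w.2.1 c, U {c} w.1 w.2.1))) ≤
        Q.I (fun w => w.2.2 d) (fun w => ((w.2.1 d, U {d} w.1 w.2.1), w.2.2 c)) (fun w => (w.2.1 c, U {c} w.1 w.2.1)) := by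
      have a1 : Q.I (fun w => (w.2.2 c, (w.2.1 d, U {d} w.1 w.2.1))) (fun w => w.2.2 d) (fun w => (w.2.1 c, U {c} w.1 w.2.1)) =
          Q.I (fun w => (w.2.1 d, U {d} w.1 w.2.1)) (fun w => w.2.2 d) (fun w => (w.2.1 c, U {c} w.1 w.2.1)) +
          Q.I (fun w => w.2.2 c) (fun w => w.2.2 d) (fun w => ((w.2.1 d, U {d} w.1 w.2.1), (w.2.1 c, U {c} w.1 w.2.1))) :=
        Q.I_chain _ _ _ _
      have a2 := Q.I_nonneg (fun w => (w.2.1 d, U {d} w.1 w.2.1)) (fun w => w.2.2 d) (fun w => (w.2.1 c, U {c} w.1 w.2.1))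
      have a3 : Q.I (fun w => w.2.2 d) (fun w => ((w.2.1 d, U {d} w.1 w.2.1), w.2.2 c)) (fun w => (w.2.1 c, U {c} w.1 w.2.1)) =
          Q.I (fun w => (w.2.2 c, (w.2.1 d, U {d} w.1 w.2.1))) (fun w => w.2.2 d) (fun w => (w.2.1 c, U {c} w.1 w.2.1)) := by
        rw [Q.I_comm (fun w => (w.2.2 c, (w.2.1 d, U {d} w.1 w.2.1)))]
        exact FP.I_congr_supp fun v u _ _ => by simp only [Prod.mk.injEq]; tauto
      rw [Q.I_comm (fun w => w.2.2 d), a3, a1]
      linarith
    have h3 : p2b N al M R0 ep k b d (Real.log (1 / own h t U V1 b w0)) =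
        2 * ((2 * N ∅ * (Real.log (1 / ((D.P h t).cond V1).Pr (fun w => U {b} w.1 w0.2.1 = U {b} w0.1 w0.2.1)) + 1) +
        2 * N ∅ * (k * Real.log ((M + 1) * (1 / al + 1)))) / N {d} + Real.log (1 / al) + 3) /
        (N (univ.erase d) / (2 * N {b})) + N (univ.erase d) / (2 * N {b}) * R0 ^ 2 / (2 * k) + 2 * ep := rfl
    rw [h3]
    linarith
  · intro v w hvw
    simp only [Prod.mk.injEq] at hvw
    show Typ _ _ = Typ _ _
    rw [hvw.1, hvw.2]
  · intro v w hvw
    have e1 : v.2.1 c = w.2.1 c := congrArg Prod.fst hvw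
    have e2 : tru Typ (v.2.1 c) (U {c} v.1 v.2.1) = tru Typ (w.2.1 c) (U {c} w.1 w.2.1) := congrArg Prod.snd hvw
    show Typ _ _ = Typ _ _
    unfold tru at e2
    by_cases h4 : Typ (v.2.1 c) (U {c} v.1 v.2.1)
    · by_cases h5 : Typ (w.2.1 c) (U {c} w.1 w.2.1)
      · exact propext ⟨fun _ => h5, fun _ => h4⟩
      · rw [if_pos h4, if_neg h5] at e2; exact absurd e2 (by simp)
    · by_cases h5 : Typ (w.2.1 c) (U {c} w.1 w.2.1)
      · rw [if_neg h4, if_pos h5] at e2; exact absurd e2 (by simp)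
      · exact propext ⟨fun hh => absurd hh h4, fun hh => absurd hh h5⟩
  · intro v w _ _ hv hw
    unfold zt tru
    rw [if_pos hv, if_pos hw]
    simp only [Prod.mk.injEq, Option.some.injEq]
  · intro v w _ _ hv hw
    unfold zt tru fc
    rw [if_pos hv, if_pos hw]
    simp only [Option.map_some, Option.some.injEq]
  · intro v w hv hw
    unfold zt tru fc
    rw [if_neg hv, if_neg hw]
    rfl


/-! ### mean over the classes -/

/-- the information as a mean over the classes -/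
theorem I_disint {Om κ ι ζ χ : Type*} [Fintype Om] (P : FP Om) (A : Om → κ) (B : Om → ι) (Z : Om → ζ) (C : Om → χ)
    (hC : Fac Z C) : P.I A B Z = P.E (fun w => (P.cond fun v => C v = C w).I A B Z) := by
  set L : Om → ℝ := fun w => Real.log (P.m (fun v => (A v, B v, Z v)) w * P.m Z w /
      (P.m (fun v => (A v, Z v)) w * P.m (fun v => (B v, Z v)) w)) with hL
  have h1 : ∀ w, P.p w ≠ 0 → (P.cond fun v => C v = C w).I A B Z = P.ce C L w := by
    intro w hw
    have h0 : P.Pr (fun v => C v = C w) ≠ 0 := (FP.Pr_pos_of (S := fun v => C v = C w) hw rfl).ne'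
    rw [FP.I_eq_E_log]
    have h2 : (P.cond fun v => C v = C w).E (fun u => Real.log ((P.cond fun v => C v = C w).m (fun v => (A v, B v, Z v)) u *
        (P.cond fun v => C v = C w).m Z u / ((P.cond fun v => C v = C w).m (fun v => (A v, Z v)) u *
        (P.cond fun v => C v = C w).m (fun v => (B v, Z v)) u))) = (P.cond fun v => C v = C w).E L := by
      refine FP.E_congr _ fun u hu => ?_
      obtain ⟨hu1, hu2⟩ := cond_supp h0 hu
      have hZ : Fac Z (fun v => C v = C w) := fun a b hab => by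
        show (C a = C w) = (C b = C w)
        rw [hC a b hab]
      have e1 := cond_m_of_fac h0 (Z := Z) hZ hu1
      have e2 := cond_m_of_fac h0 (Z := fun v => (A v, Z v)) (fun a b hab => hZ a b (congrArg Prod.snd hab)) hu1
      have e3 := cond_m_of_fac h0 (Z := fun v => (B v, Z v)) (fun a b hab => hZ a b (congrArg Prod.snd hab)) hu1
      have e4 := cond_m_of_fac h0 (Z := fun v => (A v, B v, Z v)) (fun a b hab => hZ a b (congrArg (fun q => q.2.2) hab)) hu1
      rw [e1, e2, e3, e4, hL]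
      simp only
      congr 1
      have a1 := P.m_pos Z hu2
      have a2 := P.m_pos (fun v => (A v, Z v)) hu2
      have a3 := P.m_pos (fun v => (B v, Z v)) hu2
      have a4 := P.m_pos (fun v => (A v, B v, Z v)) hu2
      field_simp
    rw [h2, FP.cond_E h0]
    rfl
  rw [P.E_congr h1, P.E_ce, FP.I_eq_E_log]


theorem E_disint {Om χ : Type*} [Fintype Om] (P : FP Om) (C : Om → χ) (f : Om → ℝ) :
    P.E (fun w => (P.cond fun v => C v = C w).E f) = P.E f := by
  rw [← P.E_ce C f]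
  refine P.E_congr fun w hw => ?_
  have h0 : P.Pr (fun v => C v = C w) ≠ 0 := (FP.Pr_pos_of (S := fun v => C v = C w) hw rfl).ne'
  rw [FP.cond_E h0]
  rfl

/-- the public class of a point -/
def pub0 (D : HD K X β γ φ) (t : ℕ) (U : Finset K → X → (K → β) → υ) (w v : Pt K X β φ) : Prop :=
  (le (LL U) ∅ v, BB D t ∅ v) = (le (LL U) ∅ w, BB D t ∅ w)

theorem pub0_C (w : Pt K X β φ) : PubC D t U (pub0 D t U w) where
  fac := fun v v' hv => by
    show ((le (LL U) ∅ v, BB D t ∅ v) = _) = ((le (LL U) ∅ v', BB D t ∅ v') = _)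
    rw [show (le (LL U) ∅ v, BB D t ∅ v) = (le (LL U) ∅ v', BB D t ∅ v') from hv]
  nod := fun v v' hv hv' => congrArg Prod.snd (hv.trans hv'.symm)
  let0 := fun v v' hv hv' => by
    have h1 := congrArg Prod.fst (hv.trans hv'.symm)
    have h2 := le_eq.1 h1 ∅ (Finset.Subset.refl _)
    rw [LL_eq] at h2
    exact h2.1

theorem pub0_eq {v w : Pt K X β φ} (hv : pub0 D t U w v) : pub0 D t U v = pub0 D t U w := by
  funext u
  unfold pub0 at hv ⊢
  rw [hv]

/-- the own letter, in terms of masses -/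
theorem own_eq
    (hU : ∀ I x y y', (∀ j ∈ I, y j = y' j) → (∀ j, D.qb t (y j) = D.qb t (y' j)) → U I x y = U I x y')
    {e : K} (hcl : ∀ l : K, ∃ j, j ≠ l) {w : Pt K X β φ} (hw : (D.P h t).p w ≠ 0) :
    own h t U (pub0 D t U w) e w =
      (D.P h t).m (fun v => (U {e} v.1 v.2.1, ((le (LL U) ∅ v, BB D t ∅ v), v.2.1 e))) w /
      (D.P h t).m (fun v => ((le (LL U) ∅ v, BB D t ∅ v), v.2.1 e)) w := by
  classical
  set P := D.P h t with hP
  set V1 := pub0 D t U w with hV1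
  have hp := pub0_C (D := D) (t := t) (U := U) w
  have hw1 : V1 w := rfl
  have hV10 : P.Pr V1 ≠ 0 := (FP.Pr_pos_of (S := V1) hw hw1).ne'
  set V2 : Pt K X β φ → Prop := fun v => V1 v ∧ v.2.1 e = w.2.1 e with hV2
  have hw2 : V2 w := ⟨hw1, rfl⟩
  have hV20 : P.Pr V2 ≠ 0 := (FP.Pr_pos_of (S := V2) hw hw2).ne'
  obtain ⟨d, hd⟩ := hcl e
  have hVf1 : Fac (Ah D t ∅) V1 := pub_fac hU hp.fac hcl
  have hVf2 : Fac (Ah D t {e}) V2 := by
    intro a b hab
    unfold Ah at hab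
    simp only [Prod.mk.injEq, BB_eq] at hab
    have e1 : V1 a = V1 b := by
      refine hVf1 a b ?_
      unfold Ah
      simp only [Prod.mk.injEq, BB_eq]
      exact ⟨hab.1, fun j hj => absurd hj (Finset.notMem_empty j), hab.2.2⟩
    show (V1 a ∧ a.2.1 e = w.2.1 e) = (V1 b ∧ b.2.1 e = w.2.1 e)
    rw [e1, hab.2.1 e (Finset.mem_singleton_self e)]
  have hV21 : ∀ a b, V2 a → V2 b → BB D t {e} a = BB D t {e} b := by
    intro a b ha hb
    have h1 := hp.nod a b ha.1 hb.1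
    rw [BB_eq] at h1 ⊢
    exact ⟨fun j hj => by rw [Finset.mem_singleton.1 hj, ha.2, hb.2], h1.2⟩
  have hE0 : (P.cond V1).Pr (fun w => (fun _ : X => True) w.1) ≠ 0 := by
    refine (FP.Pr_pos_of (S := fun w => (fun _ : X => True) w.1) ((FP.cond_p_ne hV10).2 ⟨hw1, hw⟩) trivial).ne'
  have h1 := law_xd h (d := d) hVf1 hp.nod hVf2 hV21 hw1 hw2 hV10 hV20 (Finset.notMem_empty d)
    (fun hh => hd (Finset.mem_singleton.1 hh)) (E0 := fun _ => True)
    (fun x => ⟨fun hh => ⟨hh.1, trivial⟩, fun hh => ⟨hh.1, rfl⟩⟩) hE0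
    (fun x _ => ind (U {e} x w.2.1 = U {e} w.1 w.2.1))
  have h2 : ((P.cond V1).cond fun _ => True).E (fun v => ind (U {e} v.1 w.2.1 = U {e} w.1 w.2.1)) =
      own h t U V1 e w := by
    rw [FP.cond_E hE0]
    have a1 : (P.cond V1).Pr (fun _ => True) = 1 := by
      unfold FP.Pr
      rw [(P.cond V1).E_congr (g := fun _ => 1) (fun _ _ => ind_of trivial), FP.E_const]
    have a2 : (P.cond V1).E (fun v => ind True * ind (U {e} v.1 w.2.1 = U {e} w.1 w.2.1)) = own h t U V1 e w := by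
      refine (P.cond V1).E_congr fun v _ => ?_
      rw [ind_of trivial, one_mul]
    show (P.cond V1).E (fun v => ind True * ind (U {e} v.1 w.2.1 = U {e} w.1 w.2.1)) / (P.cond V1).Pr (fun _ => True) = _
    rw [a1, a2, div_one]
  have h3 : (P.cond V2).E (fun v => ind (U {e} v.1 w.2.1 = U {e} w.1 w.2.1)) =
      P.m (fun v => (U {e} v.1 v.2.1, ((le (LL U) ∅ v, BB D t ∅ v), v.2.1 e))) w /
      P.m (fun v => ((le (LL U) ∅ v, BB D t ∅ v), v.2.1 e)) w := by
    rw [FP.cond_E hV20]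
    have b1 : ∀ v : Pt K X β φ, V2 v ↔ ((le (LL U) ∅ v, BB D t ∅ v), v.2.1 e) = ((le (LL U) ∅ w, BB D t ∅ w), w.2.1 e) := by
      intro v
      show (pub0 D t U w v ∧ v.2.1 e = w.2.1 e) ↔ _
      unfold pub0
      rw [Prod.mk.injEq (le (LL U) ∅ v, BB D t ∅ v)]
    congr 1
    · unfold FP.m
      refine P.E_congr fun v _ => ?_
      rw [← ind_and]
      congr 1
      simp only [Prod.mk.injEq (U {e} v.1 v.2.1)]
      rw [← b1 v]
      have c1 : V2 v → U {e} v.1 v.2.1 = U {e} v.1 w.2.1 := by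
        intro hv
        have c2 := hV21 v w hv hw2
        rw [BB_eq] at c2
        exact hU {e} v.1 _ _ c2.1 c2.2.2
      exact propext ⟨fun hh => ⟨(c1 hh.1).trans hh.2, hh.1⟩, fun hh => ⟨hh.2, (c1 hh.2).symm.trans hh.1⟩⟩
    · unfold FP.m FP.Pr
      refine P.E_congr fun v _ => ?_
      rw [propext (b1 v)]
  rw [← h2, ← h3]
  exact h1

/-- the mean of the logarithm of the own letter -/
theorem own_ent
    (hU : ∀ I x y y', (∀ j ∈ I, y j = y' j) → (∀ j, D.qb t (y j) = D.qb t (y' j)) → U I x y = U I x y')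
    {e : K} (hcl : ∀ l : K, ∃ j, j ≠ l) (hc2 : ∀ l : K, ¬ univ.erase l = {e}) :
    (D.P h t).E (fun w => Real.log (1 / own h t U (pub0 D t U w) e w)) = ent (D.P h t) (BB D t) (LL U) {e} := by
  set P := D.P h t with hP
  have h1 : P.E (fun w => Real.log (1 / own h t U (pub0 D t U w) e w)) =
      P.Hc (fun v => U {e} v.1 v.2.1) (fun v => ((le (LL U) ∅ v, BB D t ∅ v), v.2.1 e)) := by
    rw [Hc_eq_E_log]
    refine P.E_congr fun w hw => ?_
    rw [own_eq h hU hcl hw, one_div_div]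
  rw [h1]
  unfold ent
  refine P.Hc_congr ?_ ?_ ?_ ?_
  · intro v w hvw
    simp only [Prod.mk.injEq] at hvw
    rw [LL_eq]
    exact ⟨hvw.1, fun l hl => absurd hl (hc2 l)⟩
  · intro v w hvw
    simp only [Prod.mk.injEq, BB_eq, le_eq] at hvw
    simp only [Prod.mk.injEq, BB_eq, lo_eq]
    obtain ⟨⟨h2, h3⟩, h4⟩ := hvw
    refine ⟨fun I hI => h2 I (Finset.ssubset_singleton_iff.1 hI).subset, fun j hj => ?_, h3.2⟩
    rw [Finset.mem_singleton.1 hj]; exact h4
  · intro v w hvw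
    have := congrArg Prod.fst hvw
    rw [LL_eq] at this
    exact this.1
  · intro v w hvw
    simp only [Prod.mk.injEq, BB_eq, lo_eq] at hvw
    simp only [Prod.mk.injEq, BB_eq, le_eq]
    obtain ⟨h2, h3, h4⟩ := hvw
    refine ⟨⟨fun I hI => h2 I ?_, fun j hj => absurd hj (Finset.notMem_empty j), h4⟩, h3 e (Finset.mem_singleton_self e)⟩
    exact Finset.ssubset_singleton_iff.2 (Finset.subset_empty.1 hI)


/-- the set of the typical letters is small -/
theorem typ_card {Om : Type*} [Fintype Om] (Q : FP Om) (A : Om → υ) {M : ℝ} (hM : 0 < M) :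
    ∃ s : Finset υ, (s.card : ℝ) ≤ M ∧ ∀ u, 1 / M ≤ Q.Pr (fun v => A v = u) → u ∈ s := by
  classical
  set s : Finset υ := (univ.image A).filter fun u => 1 / M ≤ Q.Pr (fun v => A v = u) with hs
  refine ⟨s, ?_, fun u hu => ?_⟩
  · have h1 : (s.card : ℝ) * (1 / M) ≤ 1 := by
      calc (s.card : ℝ) * (1 / M) = ∑ _u ∈ s, 1 / M := by rw [Finset.sum_const, nsmul_eq_mul]
        _ ≤ ∑ u ∈ s, Q.Pr (fun v => A v = u) := Finset.sum_le_sum fun u hu => (Finset.mem_filter.1 hu).2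
        _ = Q.E (fun v => ∑ u ∈ s, ind (A v = u)) := (Q.E_sum _ _).symm
        _ ≤ 1 := by
            refine Q.E_le_const fun v _ => ?_
            by_cases hv : A v ∈ s
            · rw [Finset.sum_eq_single (A v) (fun u _ hu => ind_not fun hh => hu hh.symm) (fun hh => absurd hv hh), ind_of rfl]
            · have h3 : ∑ u ∈ s, ind (A v = u) = 0 := Finset.sum_eq_zero fun u hu => ind_not fun hh => hv (by rw [hh]; exact hu)
              rw [h3]
              exact zero_le_one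
    rw [mul_one_div, div_le_one hM] at h1
    exact h1
  · refine Finset.mem_filter.2 ⟨Finset.mem_image.2 ?_, hu⟩
    by_contra hcon
    have h2 : Q.Pr (fun v => A v = u) = 0 := by
      unfold FP.Pr
      rw [Q.E_congr (g := fun _ => 0) (fun v _ => ind_not fun hh => hcon ⟨v, mem_univ v, hh⟩), FP.E_const]
    rw [h2] at hu
    have := one_div_pos.2 hM
    linarith

theorem E_p2b (P : FP (Pt K X β φ)) (N : Finset K → ℝ) (al M R0 ep : ℝ) (k : ℕ) (b d : K) (f : Pt K X β φ → ℝ) :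
    P.E (fun w => p2b N al M R0 ep k b d (f w)) = p2b N al M R0 ep k b d (P.E f) := by
  have e1 : ∀ x, p2b N al M R0 ep k b d x = 2 * (2 * N ∅ / N {d}) / (N (univ.erase d) / (2 * N {b})) * x +
      p2b N al M R0 ep k b d 0 := by
    intro x
    unfold p2b dlb
    ring
  rw [e1 (P.E f)]
  simp only [e1 (f _)]
  rw [FP.E_add, FP.E_smul, FP.E_const]

/-- **(P2), mean over all classes**: the two labels of the vertex `b` given the letters of the vertices, the points, the node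
and the public letter -/
theorem p2_avg
    (hU : ∀ I x y y', (∀ j ∈ I, y j = y' j) → (∀ j, D.qb t (y j) = D.qb t (y' j)) → U I x y = U I x y')
    (hs : SatA (D.P h t) (BB D t) N S (LL U) (Dep D t)) (hN : ∀ J ∈ S, 0 ≤ N J)
    (hbc : b ≠ c) (hbd : b ≠ d) (hcd : c ≠ d) (hK3 : ∀ j, j = b ∨ j = c ∨ j = d)
    (h0S : ∅ ∈ S) (hbS : {b} ∈ S) (hdS : {d} ∈ S) (heS : univ.erase d ∈ S) (hNb : 0 < N {b}) (hNd : 0 < N {d})
    (hNe : 0 < N (univ.erase d)) {M R0 ep : ℝ} {k : ℕ} (hM : 1 < M) (hk : 0 < k) (hep : 0 < ep) (hep2 : ep ≤ 1 / 2)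
    (hR0 : Real.log (1 / ep) ≤ R0) (hR1 : Real.log (1 / al) ≤ R0) (hkR : N (univ.erase d) / (2 * N {b}) * R0 ≤ 2 * k) :
    (D.P h t).I (fun w => w.2.2 d) (fun w => w.2.2 c)
      (fun w => ((LL U ∅ w, LL U {b} w, LL U {c} w, LL U {d} w), WW D t w)) ≤
      p2b N al M R0 ep k b d (ent (D.P h t) (BB D t) (LL U) {b}) +
        Real.log (1 / al) * (ent (D.P h t) (BB D t) (LL U) {c} / Real.log M) := by
  classical
  set P := D.P h t with hP
  have hcl : ∀ l : K, ∃ j, j ≠ l := by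
    intro l
    by_cases hl : b = l
    · exact ⟨c, fun hh => hbc (hl.trans hh.symm)⟩
    · exact ⟨b, hl⟩
  have hc2 : ∀ e l : K, ¬ univ.erase l = ({e} : Finset K) := by
    intro e l hl
    have h1 : ∀ j, j ≠ l → j = e := fun j hj => Finset.mem_singleton.1 (hl ▸ Finset.mem_erase.2 ⟨hj, mem_univ j⟩)
    by_cases hbl : b = l
    · exact hcd ((h1 c fun hh => hbc (hbl.trans hh.symm)).trans (h1 d fun hh => hbd (hbl.trans hh.symm)).symm)
    · by_cases hcl' : c = l
      · exact hbd ((h1 b hbl).trans (h1 d fun hh => hcd (hcl'.trans hh.symm)).symm)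
      · exact hbc ((h1 b hbl).trans (h1 c hcl').symm)
  have hlogM : 0 < Real.log M := Real.log_pos hM
  have hM0 : 0 < M := by linarith
  have hal1 := hal_one h b
  have hlogal : 0 ≤ Real.log (1 / al) := Real.log_nonneg (by rw [le_div_iff₀ h.pos]; linarith)
  set Z : Pt K X β φ → _ := fun w => ((LL U ∅ w, LL U {b} w, LL U {c} w, LL U {d} w), WW D t w) with hZ
  set Cb : Pt K X β φ → _ := fun w => ((le (LL U) ∅ w, BB D t ∅ w), w.2.1 b, U {b} w.1 w.2.1) with hCb
  have hZC : Fac Z Cb := by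
    intro v w hvw
    simp only [hZ, Prod.mk.injEq] at hvw
    obtain ⟨⟨h0, h1, -, -⟩, h4⟩ := hvw
    have h5 : v.2.1 = w.2.1 ∧ nd D t v = nd D t w := by
      have h6 := h4
      unfold WW at h6
      rw [Prod.mk.injEq] at h6
      exact h6
    rw [LL_eq] at h1
    simp only [hCb, Prod.mk.injEq]
    refine ⟨⟨?_, ?_⟩, by rw [h5.1], h1.1⟩
    · rw [le_eq]
      intro I hI
      rw [Finset.subset_empty.1 hI]
      exact h0
    · show (_, nd D t v) = (_, nd D t w)
      rw [h5.2]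
      simp only [Finset.notMem_empty, if_false]
  rw [I_disint P _ _ Z Cb hZC]
  -- one class
  set T : Pt K X β φ → Prop := fun v => ¬ 1 / M ≤ own h t U (pub0 D t U v) c v with hT
  have hcls : ∀ w, P.p w ≠ 0 → (P.cond fun v => Cb v = Cb w).I (fun w => w.2.2 d) (fun w => w.2.2 c) Z ≤
      p2b N al M R0 ep k b d (Real.log (1 / own h t U (pub0 D t U w) b w)) +
        Real.log (1 / al) * (P.cond fun v => Cb v = Cb w).E (fun v => ind (T v)) := by
    intro w hw
    have eV : (fun v => Cb v = Cb w) = clsb U (pub0 D t U w) b w := by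
      funext v
      refine propext ?_
      show Cb v = Cb w ↔ (pub0 D t U w v ∧ v.2.1 b = w.2.1 b ∧ U {b} v.1 v.2.1 = U {b} w.1 w.2.1)
      unfold pub0
      simp only [hCb, Prod.mk.injEq]
    rw [eV]
    have hp := pub0_C (D := D) (t := t) (U := U) w
    have hw1 : pub0 D t U w w := rfl
    obtain ⟨f1, f2, f3, f4⟩ := clsb_facts (b := b) hp hw1
    have hV0 : P.Pr (clsb U (pub0 D t U w) b w) ≠ 0 := (FP.Pr_pos_of (S := clsb U (pub0 D t U w) b w) hw f1).ne'
    set Q := P.cond (clsb U (pub0 D t U w) b w) with hQ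
    set Typ : β → υ → Prop := fun c' u => 1 / M ≤ (P.cond (pub0 D t U w)).Pr
      (fun v => U {c} v.1 (Function.update w.2.1 c c') = u) with hTyp
    have key := p2R_pair h hU hs hN hbc hbd hcd hK3 h0S hbS hdS heS hNb hNd hNe hp hw1 hw (Typ := Typ)
      (fun c' => typ_card (P.cond (pub0 D t U w)) (fun v => U {c} v.1 (Function.update w.2.1 c c')) hM0)
      hk hep hep2 hR0 hR1 hkR
    have e1 : Q.I (fun w => w.2.2 d) (fun w => w.2.2 c) Z = Q.I (fun w => w.2.2 d) (fun w => w.2.2 c)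
        (fun w => ((w.2.1 d, U {d} w.1 w.2.1), (w.2.1 c, U {c} w.1 w.2.1))) := by
      refine I_supp (fun _ _ _ _ => Iff.rfl) (fun _ _ _ _ => Iff.rfl) fun v u hv hu => ?_
      have hVv := (cond_supp hV0 hv).1
      have hVu := (cond_supp hV0 hu).1
      have hb := f3 v u hVv hVu
      rw [BB_eq] at hb
      have hl0 : LL U ∅ v = LL U ∅ u :=
        le_eq.1 (congrArg Prod.fst (Eq.trans (show (le (LL U) ∅ v, BB D t ∅ v) = _ from hVv.1)
          (Eq.symm (show (le (LL U) ∅ u, BB D t ∅ u) = _ from hVu.1)))) ∅ (Finset.Subset.refl _)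
      simp only [hZ, Prod.mk.injEq]
      constructor
      · rintro ⟨⟨-, -, h2, h3⟩, h4⟩
        have h5 : v.2.1 = u.2.1 := by
          have h6 := h4
          unfold WW at h6
          rw [Prod.mk.injEq] at h6
          exact h6.1
        rw [LL_eq] at h2 h3
        exact ⟨⟨by rw [h5], h3.1⟩, by rw [h5], h2.1⟩
      · rintro ⟨⟨h1, h2⟩, h3, h4⟩
        refine ⟨⟨hl0, ?_, ?_, ?_⟩, ?_⟩
        · rw [LL_eq]; exact ⟨f4 v u hVv hVu {b} (Finset.Subset.refl _), fun l hl => absurd hl (hc2 b l)⟩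
        · rw [LL_eq]; exact ⟨h4, fun l hl => absurd hl (hc2 c l)⟩
        · rw [LL_eq]; exact ⟨h2, fun l hl => absurd hl (hc2 d l)⟩
        · show (v.2.1, nd D t v) = (u.2.1, nd D t u)
          have h5 : v.2.1 = u.2.1 := by
            funext j
            rcases hK3 j with rfl | rfl | rfl
            · exact hb.1 _ (Finset.mem_singleton_self _)
            · exact h3
            · exact h1
          have h6 : nd D t v = nd D t u := congrArg Prod.snd (f3 v u hVv hVu)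
          rw [h5, h6]
    rw [e1]
    refine key.trans (le_of_eq ?_)
    congr 2
    show Q.E (fun v => ind (¬ Typ (v.2.1 c) (U {c} v.1 v.2.1))) = Q.E (fun v => ind (T v))
    refine Q.E_congr fun v hv => ?_
    have hVv := (cond_supp hV0 hv).1
    have hpv : pub0 D t U v = pub0 D t U w := pub0_eq hVv.1
    have hb := f3 v w hVv f1
    rw [BB_eq] at hb
    show ind (¬ 1 / M ≤ (P.cond (pub0 D t U w)).Pr (fun v' => U {c} v'.1 (Function.update w.2.1 c (v.2.1 c)) = U {c} v.1 v.2.1)) =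
      ind (¬ 1 / M ≤ (P.cond (pub0 D t U v)).Pr (fun v' => U {c} v'.1 v.2.1 = U {c} v.1 v.2.1))
    rw [hpv]
    have e3 : ∀ x, U {c} x (Function.update w.2.1 c (v.2.1 c)) = U {c} x v.2.1 := by
      intro x
      refine hU {c} x _ _ (fun j hj => ?_) fun j => ?_
      · rw [Finset.mem_singleton.1 hj, Function.update_self]
      · by_cases hjc : j = c
        · subst hjc; rw [Function.update_self]
        · rw [Function.update_of_ne hjc]; exact (hb.2.2 j).symm
    simp only [e3]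
  refine (P.E_mono hcls).trans ?_
  rw [FP.E_add, E_p2b, FP.E_smul, E_disint P Cb, own_ent h hU hcl (hc2 b)]
  refine add_le_add le_rfl (mul_le_mul_of_nonneg_left ?_ hlogal)
  rw [le_div_iff₀ hlogM, ← own_ent h hU hcl (hc2 c), mul_comm, ← FP.E_smul]
  refine P.E_mono fun w hw => ?_
  have hpos : 0 < own h t U (pub0 D t U w) c w := by
    have hw1 : pub0 D t U w w := rfl
    have h0 : P.Pr (pub0 D t U w) ≠ 0 := (FP.Pr_pos_of (S := pub0 D t U w) hw hw1).ne'
    exact FP.Pr_pos_of (S := fun v => U {c} v.1 w.2.1 = U {c} w.1 w.2.1) ((FP.cond_p_ne h0).2 ⟨hw1, hw⟩) rfl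
  have hle : own h t U (pub0 D t U w) c w ≤ 1 := FP.Pr_le_one _ _
  have hnn : 0 ≤ Real.log (1 / own h t U (pub0 D t U w) c w) :=
    Real.log_nonneg (by rw [le_div_iff₀ hpos]; linarith)
  by_cases hTw : T w
  · rw [ind_of hTw, mul_one]
    have h5 : own h t U (pub0 D t U w) c w < 1 / M := not_le.1 hTw
    refine Real.log_le_log hM0 ?_
    rw [le_div_iff₀ hpos]
    have h6 := mul_lt_mul_of_pos_left h5 hM0
    rw [mul_one_div, div_self hM0.ne'] at h6
    exact h6.le
  · rw [ind_not hTw, mul_zero]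
    exact hnn


end pub

end cls

end Pool.Agent.GMH
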