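import Pool.Agent.GMH.DevL
import Pool.Agent.GMH.InX
import Pool.Agent.GMH.P2R

/-!
# GMH.BitKL: single faces inside an event of one exact vertex (helper89; H3.REL R.4)

`|K| = 3`, vertices `b`, `c`, `d`; state saturated (`Bk`).  `V` = event of (hidden point, exact point of `b`) inside the class
`clsb U (pub0 D t U w0) b w0` (public class, exact point and own letter of `b`), `Q` = law given `V`, `QC` = law given the
class, `QB` = law given the public class and the exact point of `b`, `Lb V = log (1 / QB V)`.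
* `zf e` = point and letter of `e`; `fib1`, `fib2` : what a face sees below;
* `face_exact` : `N klc(Q, QC; F_bd | point and letter of d) <= 2 N b (log (1 / QC V) + 1)`;
* `face_far` : `N (klc(Q, QB; F_cd | ..) + I_Q(F_cd; F_bc, F_bd | ..)) <= 2 N 0 (Lb V + 1) + 2 (N c + N d) log (1/al)`;
* `let_one` : `N c kl(Q, QB; point and letter of c) <= 2 N 0 (Lb V + 1)`;
* `let_two` : `N c I_Q(point and letter of c; point and truncated letter of d, F_bd) <= 2 N 0 (Lb V + 1 + log ((M+1)/al))`;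
  `let_twoT` : the same for a general label of (hidden point, point of `d`).
-/

set_option autoImplicit false
set_option linter.unusedSectionVars false

namespace Pool.Agent.GMH

open Finset Pool.Agent.PWZ Pool.Agent.M3 Pool.Agent.GM Pool.Agent.GM.Harm

section bit

variable {K X β γ φ υ : Type} [Fintype K] [DecidableEq K] [Fintype X] [Fintype β] [Fintype φ] [Nonempty X] [Nonempty β]
  {D : HD K X β γ φ} {al : ℝ} {h : D.Thick al} {N : Finset K → ℝ} {S : Finset (Finset K)}
  {U : Finset K → X → (K → β) → υ} {t : ℕ} {b c d : K} {w0 : Pt K X β φ}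

/-- three vertices, saturated state -/
structure Bk (h : D.Thick al) (N : Finset K → ℝ) (S : Finset (Finset K)) (U : Finset K → X → (K → β) → υ) (t : ℕ)
    (b c d : K) : Prop where
  dep : ∀ I x y y', (∀ j ∈ I, y j = y' j) → (∀ j, D.qb t (y j) = D.qb t (y' j)) → U I x y = U I x y'
  sat : SatA (D.P h t) (BB D t) N S (LL U) (Dep D t)
  nn : ∀ J ∈ S, 0 ≤ N J
  bc : b ≠ c
  bd : b ≠ d
  cd : c ≠ d
  all : ∀ j, j = b ∨ j = c ∨ j = d
  s0 : ∅ ∈ S
  s1 : ∀ j, {j} ∈ S
  s2 : ∀ j, univ.erase j ∈ S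
  n1 : ∀ j, 0 < N {j}
  n2 : ∀ j, 0 < N (univ.erase j)

theorem Bk.all' (B : Bk h N S U t b c d) (j : K) : j = b ∨ j = d ∨ j = c := by
  rcases B.all j with h1 | h1 | h1
  · exact Or.inl h1
  · exact Or.inr (Or.inr h1)
  · exact Or.inr (Or.inl h1)

theorem Bk.swap (B : Bk h N S U t b c d) : Bk h N S U t b d c :=
  ⟨B.dep, B.sat, B.nn, B.bd, B.bc, B.cd.symm, B.all', B.s0, B.s1, B.s2, B.n1, B.n2⟩

theorem Bk.oth (B : Bk h N S U t b c d) (l : K) : ∃ j, j ≠ l := by
  by_cases hl : b = l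
  · exact ⟨c, fun hh => B.bc (hl.trans hh.symm)⟩
  · exact ⟨b, hl⟩

theorem Bk.era (B : Bk h N S U t b c d) (l : K) : ¬ univ.erase l ⊆ (∅ : Finset K) := by
  intro hl
  obtain ⟨j, hj⟩ := B.oth l
  exact absurd (hl (Finset.mem_erase.2 ⟨hj, mem_univ j⟩)) (Finset.notMem_empty j)

/-- point and letter of a vertex -/
def zf (U : Finset K → X → (K → β) → υ) (e : K) (w : Pt K X β φ) : β × υ := (w.2.1 e, U {e} w.1 w.2.1)

theorem erase_ss (l r : K) : ¬ (univ.erase l : Finset K) ⊂ univ.erase r := by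
  intro hh
  have h1 := Finset.card_lt_card hh
  rw [Finset.card_erase_of_mem (mem_univ l), Finset.card_erase_of_mem (mem_univ r)] at h1
  exact lt_irrefl _ h1

/-- what a face sees below -/
theorem fib2 {p q r : K} (hpq : p ≠ q) (hpr : p ≠ r) (hqr : q ≠ r) (hK3 : ∀ j, j = p ∨ j = q ∨ j = r)
    {v w : Pt K X β φ} (hB : BB D t ∅ v = BB D t ∅ w) (h0 : U ∅ v.1 v.2.1 = U ∅ w.1 w.2.1) :
    (lo (LL U) (univ.erase r) v, BB D t (univ.erase r) v) = (lo (LL U) (univ.erase r) w, BB D t (univ.erase r) w) ↔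
      (zf U p v = zf U p w ∧ zf U q v = zf U q w) := by
  rw [BB_eq] at hB
  simp only [Prod.mk.injEq, BB_eq, lo_eq, LL_eq, zf]
  have mp : p ∈ univ.erase r := Finset.mem_erase.2 ⟨hpr, mem_univ p⟩
  have mq : q ∈ univ.erase r := Finset.mem_erase.2 ⟨hqr, mem_univ q⟩
  have sp : ({p} : Finset K) ⊂ univ.erase r := by
    rw [Finset.ssubset_iff_of_subset (Finset.singleton_subset_iff.2 mp)]
    exact ⟨q, mq, fun hh => hpq (Finset.mem_singleton.1 hh).symm⟩
  have sq : ({q} : Finset K) ⊂ univ.erase r := by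
    rw [Finset.ssubset_iff_of_subset (Finset.singleton_subset_iff.2 mq)]
    exact ⟨p, mp, fun hh => hpq (Finset.mem_singleton.1 hh)⟩
  constructor
  · rintro ⟨h1, h2, -, -⟩
    exact ⟨⟨h2 p mp, (h1 {p} sp).1⟩, ⟨h2 q mq, (h1 {q} sq).1⟩⟩
  · rintro ⟨⟨p1, p2⟩, ⟨q1, q2⟩⟩
    refine ⟨fun I hI => ⟨?_, fun l hl => absurd (hl ▸ hI) (erase_ss l r)⟩, fun j hj => ?_, hB.2⟩
    · have hr : r ∉ I := fun hh => (Finset.mem_erase.1 (hI.1 hh)).1 rfl
      by_cases hp : p ∈ I
      · have hq : q ∉ I := by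
          intro hq
          refine hI.2 fun j hj => ?_
          rcases hK3 j with rfl | rfl | rfl
          · exact hp
          · exact hq
          · exact absurd rfl (Finset.mem_erase.1 hj).1
        have e : I = {p} := by
          ext j
          rw [Finset.mem_singleton]
          constructor
          · intro hj
            rcases hK3 j with rfl | rfl | rfl
            · rfl
            · exact absurd hj hq
            · exact absurd hj hr
          · rintro rfl; exact hp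
        rw [e]; exact p2
      · by_cases hq : q ∈ I
        · have e : I = {q} := by
            ext j
            rw [Finset.mem_singleton]
            constructor
            · intro hj
              rcases hK3 j with rfl | rfl | rfl
              · exact absurd hj hp
              · rfl
              · exact absurd hj hr
            · rintro rfl; exact hq
          rw [e]; exact q2
        · have e : I = ∅ := by
            rw [Finset.eq_empty_iff_forall_notMem]
            intro j hj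
            rcases hK3 j with rfl | rfl | rfl
            · exact hp hj
            · exact hq hj
            · exact hr hj
          rw [e]; exact h0
    · rcases hK3 j with rfl | rfl | rfl
      · exact p1
      · exact q1
      · exact absurd rfl (Finset.mem_erase.1 hj).1

/-- what a letter sees below -/
theorem fib1 {p : K} (hcl : ∀ l : K, ∃ j, j ≠ l) {v w : Pt K X β φ} (hB : BB D t ∅ v = BB D t ∅ w)
    (h0 : U ∅ v.1 v.2.1 = U ∅ w.1 w.2.1) :
    (lo (LL U) {p} v, BB D t {p} v) = (lo (LL U) {p} w, BB D t {p} w) ↔ v.2.1 p = w.2.1 p := by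
  rw [BB_eq] at hB
  simp only [Prod.mk.injEq, BB_eq, lo_eq, LL_eq]
  constructor
  · rintro ⟨-, h2, -⟩
    exact h2 p (Finset.mem_singleton_self p)
  · intro h1
    refine ⟨fun I hI => ?_, fun j hj => ?_, hB.2⟩
    · have e := Finset.ssubset_singleton_iff.1 hI
      subst e
      refine ⟨h0, fun l hl => ?_⟩
      obtain ⟨j, hj⟩ := hcl l
      have : j ∈ (∅ : Finset K) := hl ▸ Finset.mem_erase.2 ⟨hj, mem_univ j⟩
      exact absurd this (Finset.notMem_empty j)
    · rw [Finset.mem_singleton.1 hj]; exact h1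

/-- an event of (hidden point, exact point of `b`) inside the class of `w0` -/
structure Ib (h : D.Thick al) (U : Finset K → X → (K → β) → υ) (t : ℕ) (b : K) (w0 : Pt K X β φ)
    (V : Pt K X β φ → Prop) : Prop where
  fac : Fac (Ah D t {b}) V
  self : V w0
  supp : (D.P h t).p w0 ≠ 0
  sub : ∀ v, V v → clsb U (pub0 D t U w0) b w0 v

/-- the law given the public class and the exact point of `b` -/
noncomputable def QB (h : D.Thick al) (U : Finset K → X → (K → β) → υ) (t : ℕ) (b : K) (w0 : Pt K X β φ) :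
    FP (Pt K X β φ) := (D.P h t).cond (xc D U t {b} w0)

/-- the law given the class of the exact point with its own letter -/
noncomputable def QC (h : D.Thick al) (U : Finset K → X → (K → β) → υ) (t : ℕ) (b : K) (w0 : Pt K X β φ) :
    FP (Pt K X β φ) := (D.P h t).cond (clsb U (pub0 D t U w0) b w0)

/-- surprise of the event, from the public class with the exact point -/
noncomputable def Lb (h : D.Thick al) (U : Finset K → X → (K → β) → υ) (t : ℕ) (b : K) (w0 : Pt K X β φ)
    (V : Pt K X β φ → Prop) : ℝ := Real.log (1 / (QB h U t b w0).Pr V)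

variable {V : Pt K X β φ → Prop}

theorem Ib.inx (I : Ib h U t b w0 V) {v : Pt K X β φ} (hv : V v) : xc D U t {b} w0 v := by
  have h1 := I.sub v hv
  have h2 : (le (LL U) ∅ v, BB D t ∅ v) = (le (LL U) ∅ w0, BB D t ∅ w0) := h1.1
  rw [Prod.mk.injEq, BB_eq] at h2
  refine ⟨h2.1, ?_⟩
  rw [BB_eq]
  exact ⟨fun j hj => by rw [Finset.mem_singleton.1 hj]; exact h1.2.1, h2.2.2⟩

theorem Ib.ne (I : Ib h U t b w0 V) : (D.P h t).Pr V ≠ 0 := (FP.Pr_pos_of (S := V) I.supp I.self).ne'

theorem Ib.cls_ne (I : Ib h U t b w0 V) : (D.P h t).Pr (clsb U (pub0 D t U w0) b w0) ≠ 0 :=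
  (FP.Pr_pos_of (S := clsb U (pub0 D t U w0) b w0) I.supp (I.sub _ I.self)).ne'

/-- the whole class -/
theorem Ib.cls (B : Bk h N S U t b c d) (I : Ib h U t b w0 V) : Ib h U t b w0 (clsb U (pub0 D t U w0) b w0) where
  fac := clsb_Ah B.dep (pub0_C w0) B.oth
  self := I.sub _ I.self
  supp := I.supp
  sub := fun _ hv => hv

theorem Ib.condB (I : Ib h U t b w0 V) : (QB h U t b w0).cond V = (D.P h t).cond V := by
  unfold QB
  have e : (fun v => xc D U t {b} w0 v ∧ V v) = V := by
    funext v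
    exact propext ⟨fun hh => hh.2, fun hh => ⟨I.inx hh, hh⟩⟩
  rw [FP.cond_cond (by rw [e]; exact I.ne), e]

theorem Ib.condC (I : Ib h U t b w0 V) : (QC h U t b w0).cond V = (D.P h t).cond V := by
  unfold QC
  have e : (fun v => clsb U (pub0 D t U w0) b w0 v ∧ V v) = V := by
    funext v
    exact propext ⟨fun hh => hh.2, fun hh => ⟨I.sub v hh, hh⟩⟩
  rw [FP.cond_cond (by rw [e]; exact I.ne), e]

theorem Ib.neB (I : Ib h U t b w0 V) : (QB h U t b w0).Pr V ≠ 0 := by
  have h1 : (QB h U t b w0).p w0 ≠ 0 := (FP.cond_p_ne (xc_ne I.supp)).2 ⟨I.inx I.self, I.supp⟩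
  exact (FP.Pr_pos_of (S := V) h1 I.self).ne'

theorem Ib.neC (I : Ib h U t b w0 V) : (QC h U t b w0).Pr V ≠ 0 := by
  have h1 : (QC h U t b w0).p w0 ≠ 0 := (FP.cond_p_ne I.cls_ne).2 ⟨I.sub _ I.self, I.supp⟩
  exact (FP.Pr_pos_of (S := V) h1 I.self).ne'

theorem Ib.acB (I : Ib h U t b w0 V) : ((D.P h t).cond V).Ac (QB h U t b w0) := by
  rw [← I.condB]
  exact FP.cond_ac _ _

theorem Ib.acC (I : Ib h U t b w0 V) : ((D.P h t).cond V).Ac (QC h U t b w0) := by
  rw [← I.condC]
  exact FP.cond_ac _ _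

theorem Ib.ev (I : Ib h U t b w0 V) : EvI D t {b} V := by
  intro v w hvw
  refine I.fac v w ?_
  simp only [Prod.mk.injEq] at hvw
  unfold Ah
  rw [Prod.mk.injEq]
  exact ⟨hvw.1, hvw.2.1⟩

theorem QB_supp {v : Pt K X β φ} (hw0 : (D.P h t).p w0 ≠ 0) (hv : (QB h U t b w0).p v ≠ 0) : xc D U t {b} w0 v :=
  (cond_supp (xc_ne hw0) hv).1

/-- public information and node of two points of the class -/
theorem xc_pub {I : Finset K} {v w : Pt K X β φ} (hv : xc D U t I w0 v) (hw : xc D U t I w0 w) :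
    BB D t ∅ v = BB D t ∅ w ∧ U ∅ v.1 v.2.1 = U ∅ w.1 w.2.1 := by
  constructor
  · have h1 := hv.2.trans hw.2.symm
    rw [BB_eq] at h1 ⊢
    exact ⟨fun j hj => absurd hj (Finset.notMem_empty j), h1.2⟩
  · have h1 := hv.1.trans hw.1.symm
    rw [le_eq] at h1
    exact (LL_eq.1 (h1 ∅ (Finset.Subset.refl _))).1

/-! ### the exact face -/

theorem face_exact (B : Bk h N S U t b c d) (I : Ib h U t b w0 V) :
    N (univ.erase c) * ((D.P h t).cond V).klc (QC h U t b w0) (fun w => w.2.2 c) (zf U d) ≤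
      2 * N {b} * (Real.log (1 / (QC h U t b w0).Pr V) + 1) := by
  classical
  set Q := QC h U t b w0 with hQ
  set C := clsb U (pub0 D t U w0) b w0 with hC
  obtain ⟨f1, f2, f3, f4⟩ := clsb_facts (b := b) (pub0_C (D := D) (U := U) (t := t) w0) (show pub0 D t U w0 w0 from rfl)
  have hV0 : (D.P h t).Pr C ≠ 0 := I.cls_ne
  have hKb : ∀ l : K, ¬ univ.erase l ⊆ ({b} : Finset K) := by
    intro l hl
    have h1 : ∀ j, j ≠ l → j = b := fun j hj => Finset.mem_singleton.1 (hl (Finset.mem_erase.2 ⟨hj, mem_univ j⟩))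
    by_cases hcl : c = l
    · exact B.bd (h1 d (fun hh => B.cd (hcl.trans hh.symm))).symm
    · exact B.bc (h1 c hcl).symm
  have hcls := B.sat.cls B.dep hKb f2 hV0
  have hphi : 0 ≤ Phi Q (BB D t) N S (LL U) (cutK {b} V (fun _ _ => ())) := by
    refine hcls.gen _ ⟨?_, ?_⟩
    · intro J v w h1 h2 h3
      by_cases hbI : {b} ⊆ J
      · have e : V v = V w := by
          refine I.fac v w ?_
          unfold Ah
          simp only [Prod.mk.injEq, BB_eq]
          exact ⟨h1, fun j hj => h2 j (hbI hj), by rw [h1], h3⟩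
        show cutK {b} V (fun _ _ => ()) J v = cutK {b} V (fun _ _ => ()) J w
        by_cases hv : V v
        · rw [cutK_in hbI hv, cutK_in hbI (e ▸ hv)]
        · rw [cutK_off hv, cutK_off (e ▸ hv)]
      · show cutK {b} V (fun _ _ => ()) J v = cutK {b} V (fun _ _ => ()) J w
        rw [cutK_out hbI, cutK_out hbI]
    · intro J hJ v w
      show cutK {b} V (fun _ _ => ()) J v = cutK {b} V (fun _ _ => ()) J w
      rw [cutK_out hJ, cutK_out hJ]
  have h1 := event_sat (P := Q) (B := BB D t) (L := LL U) (N := N) (S := S) (K0 := {b}) I.neC B.nn (B.s1 b) hphi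
  rw [hQ, I.condC] at h1
  set J : Finset K := univ.erase c with hJ
  have hac : ((D.P h t).cond V).Ac (QC h U t b w0) := I.acC
  have hbJ : b ∈ J := Finset.mem_erase.2 ⟨B.bc, mem_univ b⟩
  have hdJ : d ∈ J := Finset.mem_erase.2 ⟨B.cd.symm, mem_univ d⟩
  have hbJ' : ({b} : Finset K) ⊂ J := by
    rw [Finset.ssubset_iff_of_subset (Finset.singleton_subset_iff.2 hbJ)]
    exact ⟨d, hdJ, fun hh => B.bd (Finset.mem_singleton.1 hh).symm⟩
  have h2 : N J * ((D.P h t).cond V).klc (QC h U t b w0) (LL U J) (fun w => (lo (LL U) J w, BB D t J w)) ≤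
      2 * N {b} * (Real.log (1 / (QC h U t b w0).Pr V) + 1) := by
    refine le_trans ?_ h1
    exact Finset.single_le_sum (f := fun J => N J * ((D.P h t).cond V).klc (QC h U t b w0) (LL U J)
      (fun w => (lo (LL U) J w, BB D t J w)))
      (fun J' hJ' => mul_nonneg (B.nn J' (mem_above.1 hJ').1) (klc_nonneg hac _ _)) (mem_above.2 ⟨B.s2 c, hbJ'⟩)
  refine le_trans (mul_le_mul_of_nonneg_left ?_ (B.nn J (B.s2 c))) h2
  have h3 : ((D.P h t).cond V).klc (QC h U t b w0) (fun w => w.2.2 c) (zf U d) =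
      ((D.P h t).cond V).klc (QC h U t b w0) (fun w => w.2.2 c) (fun w => (lo (LL U) J w, BB D t J w)) := by
    refine klc_congr_supp hac (fun v w hv hw => ?_) (fun _ _ _ _ _ => Iff.rfl)
    have hv' := (cond_supp hV0 hv).1
    have hw' := (cond_supp hV0 hw).1
    have hxv : BB D t ∅ v = BB D t ∅ w ∧ U ∅ v.1 v.2.1 = U ∅ w.1 w.2.1 :=
      ⟨(pub0_C w0).nod v w hv'.1 hw'.1, (pub0_C w0).let0 v w hv'.1 hw'.1⟩
    have := fib2 (U := U) (p := b) (q := d) (r := c) B.bd B.bc B.cd.symm (fun j => by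
      rcases B.all j with h1 | h1 | h1
      · exact Or.inl h1
      · exact Or.inr (Or.inr h1)
      · exact Or.inr (Or.inl h1)) hxv.1 hxv.2
    show zf U d v = zf U d w ↔ (lo (LL U) J v, BB D t J v) = (lo (LL U) J w, BB D t J w)
    rw [this]
    have hzb : zf U b v = zf U b w := by
      unfold zf
      rw [hv'.2.1, hw'.2.1, hv'.2.2, hw'.2.2]
    exact ⟨fun hh => ⟨hzb, hh⟩, fun hh => hh.2⟩
  rw [h3]
  refine klc_mono hac fun v w hvw => ?_
  have h4 : LL U J v = LL U J w := congrArg Prod.fst hvw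
  exact (LL_eq.1 h4).2 c rfl

/-! ### the far face -/

theorem face_far (B : Bk h N S U t b c d) (I : Ib h U t b w0 V) :
    N (univ.erase b) * (((D.P h t).cond V).klc (QB h U t b w0) (fun w => w.2.2 b) (fun w => (zf U c w, zf U d w)) +
      ((D.P h t).cond V).I (fun w => w.2.2 b) (fun w => (w.2.2 d, w.2.2 c)) (fun w => (zf U c w, zf U d w))) ≤
      2 * N ∅ * (Lb h U t b w0 V + 1) + 2 * ((N {c} + N {d}) * Real.log (1 / al)) := by
  classical
  set J : Finset K := univ.erase b with hJ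
  have hcJ : c ∈ J := Finset.mem_erase.2 ⟨B.bc.symm, mem_univ c⟩
  have hdJ : d ∈ J := Finset.mem_erase.2 ⟨B.bd.symm, mem_univ d⟩
  have hal0 : 0 ≤ Real.log (1 / al) := Real.log_nonneg (by
    rw [le_div_iff₀ h.pos, one_mul]
    exact hal_one h b)
  have h1 := ex_i3 (h := h) B.dep B.sat B.nn B.era B.s0 (I := {b}) (J0 := J) (B.s2 b) ⟨c, hcJ⟩ (by
    rw [Finset.disjoint_singleton_right]
    exact fun hh => (Finset.mem_erase.1 hh).1 rfl) (w0 := w0) I.supp I.ev I.neB
  have hPQ : ((D.P h t).cond (xc D U t {b} w0)).cond V = (D.P h t).cond V := I.condB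
  rw [hPQ] at h1
  change N J * (((D.P h t).cond V).klc (QB h U t b w0) (LL U J) (fun w => (lo (LL U) J w, BB D t J w)) +
    ((D.P h t).cond V).I (LL U J) (lo (fl {b}) J) (fun w => (lo (LL U) J w, BB D t J w))) ≤
    2 * N ∅ * (Lb h U t b w0 V + 1) + 2 * ∑ J' ∈ flS {b} S, N J' * Real.log (1 / al) at h1
  have hac : ((D.P h t).cond V).Ac (QB h U t b w0) := I.acB
  -- the sum of the costs
  have hsum : ∑ J' ∈ flS {b} S, N J' * Real.log (1 / al) ≤ (N {c} + N {d}) * Real.log (1 / al) := by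
    have hsub : flS {b} S ⊆ {{c}, {d}} := by
      intro J' hJ'
      unfold flS at hJ'
      obtain ⟨-, hd', l, hl⟩ := Finset.mem_filter.1 hJ'
      have hbJ' : b ∉ J' := Finset.disjoint_singleton_right.1 hd'
      have hlb : l ≠ b := by
        intro hh
        have h2 : b ∈ ({b} : Finset K) ∪ J' := Finset.mem_union_left _ (Finset.mem_singleton_self b)
        rw [← hl, hh] at h2
        exact (Finset.mem_erase.1 h2).1 rfl
      rw [Finset.mem_insert, Finset.mem_singleton]
      have key : ∀ {p q : K}, p ≠ q → p ≠ b → l = q → (∀ j, j = b ∨ j = p ∨ j = q) → J' = {p} := by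
        intro p q hpq hpb hlq hall
        ext j
        rw [Finset.mem_singleton]
        constructor
        · intro hj
          have h2 : j ∈ univ.erase l := by rw [hl]; exact Finset.mem_union_right _ hj
          rcases hall j with h3 | h3 | h3
          · exact absurd (h3 ▸ hj) hbJ'
          · exact h3
          · exact absurd (h3.trans hlq.symm) (Finset.mem_erase.1 h2).1
        · rintro rfl
          have h2 : j ∈ univ.erase l := Finset.mem_erase.2 ⟨fun hh => hpq (hh.trans hlq), mem_univ j⟩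
          rw [hl] at h2
          rcases Finset.mem_union.1 h2 with h3 | h3
          · exact absurd (Finset.mem_singleton.1 h3) hpb
          · exact h3
      rcases B.all l with h2 | h2 | h2
      · exact absurd h2 hlb
      · right
        exact key (p := d) (q := c) B.cd.symm B.bd.symm h2 B.swap.all
      · left
        exact key (p := c) (q := d) B.cd B.bc.symm h2 B.all
    refine (Finset.sum_le_sum_of_subset_of_nonneg hsub fun J' hJ' _ => ?_).trans (le_of_eq ?_)
    · rw [Finset.mem_insert, Finset.mem_singleton] at hJ'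
      rcases hJ' with rfl | rfl
      · exact mul_nonneg (B.n1 c).le hal0
      · exact mul_nonneg (B.n1 d).le hal0
    · rw [Finset.sum_insert (by
        rw [Finset.mem_singleton]
        exact fun hh => B.cd (Finset.singleton_injective hh)), Finset.sum_singleton]
      ring
  -- fibres
  have hfib : ∀ v w, (QB h U t b w0).p v ≠ 0 → (QB h U t b w0).p w ≠ 0 →
      ((zf U c v, zf U d v) = (zf U c w, zf U d w) ↔ (lo (LL U) J v, BB D t J v) = (lo (LL U) J w, BB D t J w)) := by
    intro v w hv hw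
    have hx := xc_pub (QB_supp I.supp hv) (QB_supp I.supp hw)
    rw [fib2 (U := U) (p := c) (q := d) (r := b) B.cd B.bc.symm B.bd.symm (fun j => by
      rcases B.all j with h1 | h1 | h1
      · exact Or.inr (Or.inr h1)
      · exact Or.inl h1
      · exact Or.inr (Or.inl h1)) hx.1 hx.2, Prod.mk.injEq]
  have e1 : ((D.P h t).cond V).klc (QB h U t b w0) (fun w => w.2.2 b) (fun w => (zf U c w, zf U d w)) ≤
      ((D.P h t).cond V).klc (QB h U t b w0) (LL U J) (fun w => (lo (LL U) J w, BB D t J w)) := by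
    rw [klc_congr_supp hac (L := fun w => w.2.2 b) (L' := fun w => w.2.2 b) (Z := fun w => (zf U c w, zf U d w))
      (Z' := fun w => (lo (LL U) J w, BB D t J w)) hfib (fun _ _ _ _ _ => Iff.rfl)]
    refine klc_mono hac fun v w hvw => ?_
    have h4 : LL U J v = LL U J w := congrArg Prod.fst hvw
    exact (LL_eq.1 h4).2 b rfl
  have e2 : ((D.P h t).cond V).I (fun w => w.2.2 b) (fun w => (w.2.2 d, w.2.2 c)) (fun w => (zf U c w, zf U d w)) ≤
      ((D.P h t).cond V).I (LL U J) (lo (fl {b}) J) (fun w => (lo (LL U) J w, BB D t J w)) := by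
    rw [I_supp (P := (D.P h t).cond V) (X1 := fun w => w.2.2 b) (X2 := fun w => w.2.2 b)
      (Y1 := fun w => (w.2.2 d, w.2.2 c)) (Y2 := fun w => (w.2.2 d, w.2.2 c)) (Z1 := fun w => (zf U c w, zf U d w))
      (Z2 := fun w => (lo (LL U) J w, BB D t J w)) (fun _ _ _ _ => Iff.rfl) (fun _ _ _ _ => Iff.rfl)
      (fun v w hv hw => hfib v w (hac v hv) (hac w hw))]
    refine le_trans (FP.I_mono _ (X := LL U J) (X' := fun w => w.2.2 b) _ fun v w hvw => ?_) ?_
    · have h4 : LL U J v = LL U J w := congrArg Prod.fst hvw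
      exact (LL_eq.1 h4).2 b rfl
    · rw [FP.I_comm, FP.I_comm _ (LL U J) (lo (fl {b}) J)]
      refine FP.I_mono _ (X := lo (fl {b}) J) (X' := fun w => (w.2.2 d, w.2.2 c)) _ fun v w hvw => ?_
      have h4 : lo (fl (φ := φ) {b}) J v = lo (fl {b}) J w := congrArg Prod.fst hvw
      rw [lo_eq] at h4
      have key : ∀ p l : K, ({p} : Finset K) ⊂ J → p ≠ b → univ.erase l = ({b} : Finset K) ∪ {p} → b ≠ l →
          v.2.2 l = w.2.2 l := by
        intro p l hpJ hpb hl hbl
        have h5 := congrFun (h4 {p} hpJ) l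
        unfold fl at h5
        have hc' : Disjoint ({p} : Finset K) {b} ∧ univ.erase l = ({b} : Finset K) ∪ {p} ∧ ∃ i ∈ ({b} : Finset K), i ≠ l :=
          ⟨Finset.disjoint_singleton.2 hpb, hl, b, Finset.mem_singleton_self b, hbl⟩
        rw [if_pos hc', if_pos hc'] at h5
        exact Option.some.inj h5
      have er : ∀ {p q : K}, p ≠ q → p ≠ b → q ≠ b → (∀ j, j = b ∨ j = p ∨ j = q) →
          univ.erase q = ({b} : Finset K) ∪ {p} := by
        intro p q hpq hpb hqb hall
        ext j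
        rw [Finset.mem_erase, Finset.mem_union, Finset.mem_singleton, Finset.mem_singleton]
        constructor
        · rintro ⟨h5, -⟩
          rcases hall j with h6 | h6 | h6
          · exact Or.inl h6
          · exact Or.inr h6
          · exact absurd h6 h5
        · rintro (rfl | rfl)
          · exact ⟨fun hh => hqb hh.symm, mem_univ _⟩
          · exact ⟨hpq, mem_univ _⟩
      have sc : ({c} : Finset K) ⊂ J := by
        rw [Finset.ssubset_iff_of_subset (Finset.singleton_subset_iff.2 hcJ)]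
        exact ⟨d, hdJ, fun hh => B.cd (Finset.mem_singleton.1 hh).symm⟩
      have sd : ({d} : Finset K) ⊂ J := by
        rw [Finset.ssubset_iff_of_subset (Finset.singleton_subset_iff.2 hdJ)]
        exact ⟨c, hcJ, fun hh => B.cd (Finset.mem_singleton.1 hh)⟩
      show (v.2.2 d, v.2.2 c) = (w.2.2 d, w.2.2 c)
      rw [key c d sc B.bc.symm (er B.cd B.bc.symm B.bd.symm B.all) B.bd,
        key d c sd B.bd.symm (er B.cd.symm B.bd.symm B.bc.symm B.swap.all) B.bc]
  have hNJ := B.nn J (B.s2 b)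
  have h2 := mul_le_mul_of_nonneg_left (add_le_add e1 e2) hNJ
  linarith

/-! ### the letters -/

theorem let_one (B : Bk h N S U t b c d) (I : Ib h U t b w0 V) :
    N {c} * ((D.P h t).cond V).kl (QB h U t b w0) (zf U c) ≤ 2 * N ∅ * (Lb h U t b w0 V + 1) := by
  have h1 := ex_vert (h := h) B.dep B.sat B.nn B.era B.s0 (I := {b}) (j := c) (B.s1 c) (fun hh =>
    B.bc (Finset.mem_singleton.1 hh).symm) (w0 := w0) I.supp I.ev I.neB
  have hPQ : ((D.P h t).cond (xc D U t {b} w0)).cond V = (D.P h t).cond V := I.condB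
  rw [hPQ] at h1
  refine le_trans (mul_le_mul_of_nonneg_left ?_ (B.n1 c).le) h1
  refine FP.kl_mono I.acB fun v w hvw => ?_
  simp only [Prod.mk.injEq, BB_eq, LL_eq] at hvw
  show (v.2.1 c, U {c} v.1 v.2.1) = (w.2.1 c, U {c} w.1 w.2.1)
  rw [hvw.2.2.1 c (Finset.mem_singleton_self c), hvw.1.1]

/-- **the point `j` is independent of (hidden point, other points, label `j`)** in a class -/
theorem cls_indep3 {K0 : Finset K} (j : K) {V : Pt K X β φ → Prop} (hV : Fac (fun w => (w.1, BB D t K0 w)) V)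
    (hV1 : ∀ v w, V v → V w → BB D t K0 v = BB D t K0 w) {w0 : Pt K X β φ} (hw0 : V w0)
    (hV0 : (D.P h t).Pr V ≠ 0) :
    ((D.P h t).cond V).Indep (fun w => w.2.1 j)
      (fun w => (w.1, ((fun i => if i = j then none else some (w.2.1 i) : K → Option β), w.2.2 j))) := by
  classical
  intro f g hf hg
  have hden : (FP.unif X).E (fun x => ind (V (x, w0.2))) ≠ 0 := by
    have h1 := FP.Pr_pos_of (P := FP.unif X) (S := fun x => V (x, w0.2)) (w := w0.1) (by
      show (Fintype.card X : ℝ)⁻¹ ≠ 0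
      exact inv_ne_zero (by exact_mod_cast Fintype.card_ne_zero)) hw0
    exact h1.ne'
  have hS := fun j => bxs_ne (D := D) t K0 w0.2.1 j
  set C := (∑ y ∈ Fintype.piFinset (bxs D t K0 w0.2.1), f (w0.1, y, w0.2.2)) / bsz (bxs D t K0 w0.2.1) with hC
  have hf' : ∀ x, (Bx h t x (bxs D t K0 w0.2.1)).E (fun u => f (x, u)) = C := by
    intro x
    rw [hC, ← Bx_pts h hS t x fun y => f (w0.1, y, w0.2.2)]
    exact (Bx h t x (bxs D t K0 w0.2.1)).E_congr fun u _ => hf (x, u) (w0.1, u.1, w0.2.2) rfl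
  have hfg : ∀ x, (Bx h t x (bxs D t K0 w0.2.1)).E (fun u => f (x, u) * g (x, u)) =
      C * (Bx h t x (bxs D t K0 w0.2.1)).E (fun u => g (x, u)) := by
    intro x
    rw [← hf' x]
    refine indep_one h hS (bxs_cell K0 w0.2.1 t) x j (fun u => f (x, u)) (fun u => g (x, u)) ?_ ?_
    · intro u v huv
      exact hf (x, u) (x, v) huv
    · intro u v huv
      refine hg (x, u) (x, v) ?_
      simp only [Prod.mk.injEq] at huv ⊢
      exact ⟨trivial, huv⟩
  rw [cls_law h hV hV1 hw0 hV0, cls_law h hV hV1 hw0 hV0, cls_law h hV hV1 hw0 hV0]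
  simp only [hf', hfg]
  have e1 : (FP.unif X).E (fun x => ind (V (x, w0.2)) * (C * (Bx h t x (bxs D t K0 w0.2.1)).E fun u => g (x, u))) =
      C * (FP.unif X).E (fun x => ind (V (x, w0.2)) * (Bx h t x (bxs D t K0 w0.2.1)).E fun u => g (x, u)) := by
    rw [← FP.E_smul]
    exact (FP.unif X).E_congr fun x _ => by ring
  have e2 : (FP.unif X).E (fun x => ind (V (x, w0.2)) * C) = (FP.unif X).E (fun x => ind (V (x, w0.2))) * C :=
    (FP.unif X).E_mul_const _ _
  rw [e1, e2]
  field_simp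

theorem Ib.nod (I : Ib h U t b w0 V) {v w : Pt K X β φ} (hv : V v) (hw : V w) : BB D t {b} v = BB D t {b} w :=
  (I.inx hv).2.trans (I.inx hw).2.symm

/-- other points of the event -/
theorem Ib.mv (I : Ib h U t b w0 V) {w1 : Pt K X β φ} (hV : V w1) (hp : (D.P h t).p w1 ≠ 0) : Ib h U t b w1 V where
  fac := I.fac
  self := hV
  supp := hp
  sub := fun v hv => by
    have h1 := I.sub v hv
    have h2 := I.sub w1 hV
    exact ⟨h1.1.trans h2.1.symm, h1.2.1.trans h2.2.1.symm, h1.2.2.trans h2.2.2.symm⟩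

theorem Ib.QB_mv (I : Ib h U t b w0 V) {w1 : Pt K X β φ} (hV : V w1) : QB h U t b w1 = QB h U t b w0 := by
  have h1 := I.inx hV
  unfold QB
  congr 1
  funext v
  show (le (LL U) ∅ v = le (LL U) ∅ w1 ∧ BB D t {b} v = BB D t {b} w1) =
    (le (LL U) ∅ v = le (LL U) ∅ w0 ∧ BB D t {b} v = BB D t {b} w0)
  rw [h1.1, h1.2]

/-- the event in the class, as an event of the hidden point -/
theorem Ib.hid (I : Ib h U t b w0 V) {v : Pt K X β φ} (hv : xc D U t {b} w0 v) : V v = V (v.1, w0.2) := by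
  refine I.fac v (v.1, w0.2) ?_
  have h1 := hv.2
  rw [BB_eq] at h1
  unfold Ah
  simp only [Prod.mk.injEq, BB_eq]
  exact ⟨trivial, h1.1, trivial, h1.2.2⟩

/-- the surprise does not depend on the point of `d` -/
theorem Ib.pr_pt (B : Bk h N S U t b c d) (I : Ib h U t b w0 V) :
    ((D.P h t).cond (xc D U t {b, d} w0)).Pr V = (QB h U t b w0).Pr V := by
  classical
  set A : Pt K X β φ → Prop := fun v => v.2.1 d = w0.2.1 d with hA
  have hx0 : (D.P h t).Pr (xc D U t {b} w0) ≠ 0 := xc_ne I.supp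
  have e1 : xc D U t {b, d} w0 = fun v => xc D U t {b} w0 v ∧ A v := by
    funext v
    show (le (LL U) ∅ v = le (LL U) ∅ w0 ∧ BB D t {b, d} v = BB D t {b, d} w0) =
      ((le (LL U) ∅ v = le (LL U) ∅ w0 ∧ BB D t {b} v = BB D t {b} w0) ∧ v.2.1 d = w0.2.1 d)
    rw [BB_eq, BB_eq]
    refine propext ⟨fun hh => ⟨⟨hh.1, fun j hj => hh.2.1 j (by
      rw [Finset.mem_insert]; exact Or.inl (Finset.mem_singleton.1 hj)), hh.2.2⟩, hh.2.1 d (by simp)⟩,
      fun hh => ⟨hh.1.1, fun j hj => ?_, hh.1.2.2⟩⟩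
    rcases Finset.mem_insert.1 hj with h1 | h1
    · rw [h1]; exact hh.1.2.1 b (Finset.mem_singleton_self b)
    · rw [Finset.mem_singleton.1 h1]; exact hh.2
  have hne : (D.P h t).Pr (fun v => xc D U t {b} w0 v ∧ A v) ≠ 0 :=
    (FP.Pr_pos_of (S := fun v => xc D U t {b} w0 v ∧ A v) I.supp ⟨xc_self U t {b} w0, rfl⟩).ne'
  rw [e1, ← FP.cond_cond hne]
  have hw0 : (QB h U t b w0).p w0 ≠ 0 := (FP.cond_p_ne hx0).2 ⟨xc_self U t {b} w0, I.supp⟩
  have hA0 : (QB h U t b w0).Pr A ≠ 0 := (FP.Pr_pos_of (S := A) hw0 rfl).ne'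
  show ((QB h U t b w0).cond A).Pr V = (QB h U t b w0).Pr V
  have hind := cls_indep3 (h := h) (t := t) (K0 := {b}) d (V := xc D U t {b} w0) (xc_fac {b} w0 B.dep B.era)
    (fun v w hv hw => hv.2.trans hw.2.symm) (xc_self U t {b} w0) hx0
  unfold FP.Pr
  rw [FP.cond_E hA0]
  have e2 : (QB h U t b w0).E (fun v => ind (A v) * ind (V v)) =
      (QB h U t b w0).E (fun v => ind (A v) * ind (V (v.1, w0.2))) :=
    (QB h U t b w0).E_congr fun v hv => by rw [I.hid (QB_supp I.supp hv)]
  have e3 : (QB h U t b w0).E (fun v => ind (V v)) = (QB h U t b w0).E (fun v => ind (V (v.1, w0.2))) :=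
    (QB h U t b w0).E_congr fun v hv => by rw [I.hid (QB_supp I.supp hv)]
  have e4 := hind (fun v => ind (A v)) (fun v => ind (V (v.1, w0.2)))
    (Fac.ind fun v w hvw => by
      have h1 : v.2.1 d = w.2.1 d := hvw
      show v.2.1 d = w0.2.1 d ↔ w.2.1 d = w0.2.1 d
      rw [h1]) (Fac.ind fun v w hvw => by
      simp only [Prod.mk.injEq] at hvw
      rw [hvw.1])
  rw [e2, e3]
  have e5 : (QB h U t b w0).E (fun v => ind (A v) * ind (V (v.1, w0.2))) =
      (QB h U t b w0).E (fun v => ind (A v)) * (QB h U t b w0).E (fun v => ind (V (v.1, w0.2))) := e4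
  rw [e5]
  exact mul_div_cancel_left₀ _ hA0

/-- **the letter of `c` against the second row at one point of `d`**, general label `Tl` of (hidden point, point of `d`) -/
theorem let_twoT_pt {τ : Type} (B : Bk h N S U t b c d) (I : Ib h U t b w0 V) {Tl : Pt K X β φ → τ}
    (hTl : ∀ v w : Pt K X β φ, v.1 = w.1 → v.2.1 d = w.2.1 d → (∀ j, D.qb t (v.2.1 j) = D.qb t (w.2.1 j)) → Tl v = Tl w)
    {M : ℝ} (hM : ∀ d' : β, ∃ s : Finset τ, (s.card : ℝ) ≤ M ∧ ∀ v : Pt K X β φ, v.2.1 d = d' → Tl v ∈ s) :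
    N {c} * (((D.P h t).cond V).cond fun v => v.2.1 d = w0.2.1 d).I (fun w => U {c} w.1 w.2.1) (fun w => (Tl w, w.2.2 c))
      (fun w => w.2.1 c) ≤
      2 * N ∅ * (Lb h U t b w0 V + 1) + 2 * (N ∅ * Real.log (M * (1 / al))) := by
  classical
  have hal := h.pos
  have hM0 : 0 ≤ M := by
    obtain ⟨s, hs, _⟩ := hM (w0.2.1 d)
    exact le_trans (Nat.cast_nonneg _) hs
  set G : Finset K → Pt K X β φ → Option (τ × φ) := fun J w => if J = ∅ then some (Tl w, w.2.2 c) else none with hG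
  have hev : EvI D t {b, d} V := by
    intro v w hvw
    refine I.fac v w ?_
    simp only [Prod.mk.injEq, BB_eq] at hvw
    unfold Ah
    simp only [Prod.mk.injEq, BB_eq]
    exact ⟨hvw.1, fun j hj => hvw.2.1.1 j (by rw [Finset.mem_insert]; exact Or.inl (Finset.mem_singleton.1 hj)),
      hvw.2.1.2⟩
  have hE0 : ((D.P h t).cond (xc D U t {b, d} w0)).Pr V ≠ 0 := by
    rw [I.pr_pt B]
    exact I.neB
  have hGI : GI D t {b, d} G := by
    intro J v w hvw
    simp only [Prod.mk.injEq, BB_eq] at hvw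
    obtain ⟨h1, ⟨h2, -, h3⟩, h4⟩ := hvw
    show (if J = ∅ then some (Tl v, v.2.2 c) else none) = if J = ∅ then some (Tl w, w.2.2 c) else none
    by_cases hJ : J = ∅
    · rw [if_pos hJ, if_pos hJ]
      subst hJ
      have h5 := congrFun h4 c
      unfold tl at h5
      have h6 : univ.erase c ⊆ ({b, d} : Finset K) ∪ ∅ ∧ ∃ i ∈ ({b, d} : Finset K), i ≠ c := by
        refine ⟨fun j hj => ?_, b, by simp, B.bc⟩
        rw [Finset.union_empty, Finset.mem_insert, Finset.mem_singleton]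
        rcases B.all j with h7 | h7 | h7
        · exact Or.inl h7
        · exact absurd h7 (Finset.mem_erase.1 hj).1
        · exact Or.inr h7
      rw [if_pos h6, if_pos h6] at h5
      rw [hTl v w h1 (h2 d (by simp)) h3, Option.some.inj h5]
    · rw [if_neg hJ, if_neg hJ]
  set PE := (FP.pr ((D.P h t).cond (xc D U t ∅ w0)) (coinT h t)).cond fun w => V (hwm D t {b, d} w0.2.1 w) with hPE
  have hcost : ∑ J ∈ S, N J * cost PE (fun I w => BB D t I w.1) (fun I w => LL U I w.1)
      (fun J w => G J (hwm D t {b, d} w0.2.1 w)) J ≤ N ∅ * Real.log (M * (1 / al)) := by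
    have hc0 : cost PE (fun I w => BB D t I w.1) (fun I w => LL U I w.1)
        (fun J w => G J (hwm D t {b, d} w0.2.1 w)) ∅ ≤ Real.log (M * (1 / al)) := by
      unfold cost
      refine Hc_le_card _ _ _ fun w hw => ?_
      obtain ⟨T, hT1, hT2⟩ := hM (w0.2.1 d)
      set s0 : Finset φ := univ.filter fun F => al ≤ D.kf t c w0.1 w0.2.1 F with hs0
      refine ⟨(T ×ˢ s0).image some, ?_, fun v hv _ => ?_⟩
      · have h1 : (((T ×ˢ s0).image some : Finset (Option (τ × φ))).card : ℝ) ≤ (T.card : ℝ) * (s0.card : ℝ) := by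
          rw [← Nat.cast_mul, ← Finset.card_product]
          exact_mod_cast Finset.card_image_le
        exact h1.trans (mul_le_mul hT1 (poss_card h c w0.1 w0.2.1) (Nat.cast_nonneg _) hM0)
      · have hv' := (pr_supp _ _).1 (FP.cond_ac _ _ v hv)
        have hx := (cond_supp (xc_ne (I := ∅) (U := U) I.supp) hv'.1).1
        have hb := hx.2
        rw [BB_eq] at hb
        have hqb : ∀ j, D.qb t (hwy {b, d} w0.2.1 v.1.2.1 j) = D.qb t (w0.2.1 j) := by
          intro j
          unfold hwy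
          split_ifs
          · rfl
          · exact hb.2.2 j
        show (if (∅ : Finset K) = ∅ then some (Tl (hwm D t {b, d} w0.2.1 v), (hwm D t {b, d} w0.2.1 v).2.2 c) else none) ∈ _
        rw [if_pos rfl]
        refine Finset.mem_image_of_mem _ (Finset.mem_product.2 ⟨hT2 _ ?_, Finset.mem_filter.2 ⟨mem_univ _, ?_⟩⟩)
        · show hwy {b, d} w0.2.1 v.1.2.1 d = w0.2.1 d
          unfold hwy
          rw [if_pos (by simp)]
        · show al ≤ D.kf t c w0.1 w0.2.1
            (if ∃ i ∈ ({b, d} : Finset K), i ≠ c then rd D t v.2 c v.1.1 (hwy {b, d} w0.2.1 v.1.2.1) else v.1.2.2 c)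
          rw [if_pos ⟨b, by simp, B.bc⟩]
          refine rd_poss hv'.2 c hb.2.1 (fun j hj => ?_) hqb
          unfold hwy
          rw [if_pos]
          rw [Finset.mem_insert, Finset.mem_singleton]
          rcases B.all j with h7 | h7 | h7
          · exact Or.inl h7
          · exact absurd h7 hj
          · exact Or.inr h7
    have hcJ : ∀ J, J ≠ ∅ → cost PE (fun I w => BB D t I w.1) (fun I w => LL U I w.1)
        (fun J w => G J (hwm D t {b, d} w0.2.1 w)) J = 0 := by
      intro J hJ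
      refine cost_const fun v w => ?_
      show (if J = ∅ then _ else none) = if J = ∅ then _ else none
      rw [if_neg hJ, if_neg hJ]
    have h2 : ∀ J ∈ S, N J * cost PE (fun I w => BB D t I w.1) (fun I w => LL U I w.1)
        (fun J w => G J (hwm D t {b, d} w0.2.1 w)) J ≤ if J = ∅ then N ∅ * Real.log (M * (1 / al)) else 0 := by
      intro J hJ
      by_cases hJ0 : J = ∅
      · subst hJ0
        rw [if_pos rfl]
        exact mul_le_mul_of_nonneg_left hc0 (B.nn ∅ B.s0)
      · rw [if_neg hJ0, hcJ J hJ0, mul_zero]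
    refine (Finset.sum_le_sum h2).trans (le_of_eq ?_)
    rw [Finset.sum_ite_eq' S ∅, if_pos B.s0]
  have hcI : c ∉ ({b, d} : Finset K) := by
    rw [Finset.mem_insert, Finset.mem_singleton]
    rintro (h1 | h1)
    · exact B.bc h1.symm
    · exact B.cd h1
  have h1 := ex_bound (h := h) B.dep B.sat B.nn B.era B.s0 (I := {b, d}) (J0 := {c}) (B.s1 c) (Finset.singleton_nonempty c)
    (Finset.disjoint_singleton_left.2 hcI) (w0 := w0) I.supp hev hE0 hGI hcost
  rw [I.pr_pt B] at h1
  -- the law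
  have hsub : (fun v => xc D U t {b, d} w0 v ∧ V v) = fun v => V v ∧ v.2.1 d = w0.2.1 d := by
    funext v
    refine propext ⟨fun hh => ⟨hh.2, ?_⟩, fun hh => ⟨⟨(I.inx hh.1).1, ?_⟩, hh.1⟩⟩
    · have h2 := hh.1.2
      rw [BB_eq] at h2
      exact h2.1 d (by simp)
    · have h2 := (I.inx hh.1).2
      rw [BB_eq] at h2 ⊢
      refine ⟨fun j hj => ?_, h2.2⟩
      rcases Finset.mem_insert.1 hj with h3 | h3
      · rw [h3]; exact h2.1 b (Finset.mem_singleton_self b)
      · rw [Finset.mem_singleton.1 h3]; exact hh.2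
  have hne : (D.P h t).Pr (fun v => V v ∧ v.2.1 d = w0.2.1 d) ≠ 0 :=
    (FP.Pr_pos_of (S := fun v => V v ∧ v.2.1 d = w0.2.1 d) I.supp ⟨I.self, rfl⟩).ne'
  have hlaw : ((D.P h t).cond (xc D U t {b, d} w0)).cond V = ((D.P h t).cond V).cond fun v => v.2.1 d = w0.2.1 d := by
    rw [FP.cond_cond (by rw [hsub]; exact hne), FP.cond_cond hne, hsub]
  rw [hlaw] at h1
  set Q1 := ((D.P h t).cond V).cond fun v => v.2.1 d = w0.2.1 d with hQ1
  have hQs : ∀ v, Q1.p v ≠ 0 → V v ∧ (D.P h t).p v ≠ 0 := by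
    intro v hv
    have h2 := FP.cond_ac _ _ v hv
    exact cond_supp I.ne h2
  have hac : Q1.Ac ((D.P h t).cond (xc D U t {b, d} w0)) := by
    rw [← hlaw]
    exact FP.cond_ac _ _
  have hklc := klc_nonneg hac (LL U {c}) (fun w => (lo (LL U) {c} w, BB D t {c} w))
  have hI : Q1.I (fun w => U {c} w.1 w.2.1) (fun w => (Tl w, w.2.2 c)) (fun w => w.2.1 c) ≤
      Q1.I (LL U {c}) (lo G {c}) (fun w => (lo (LL U) {c} w, BB D t {c} w)) := by
    have e1 : Q1.I (fun w => U {c} w.1 w.2.1) (fun w => (Tl w, w.2.2 c)) (fun w => w.2.1 c) =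
        Q1.I (fun w => U {c} w.1 w.2.1) (fun w => (Tl w, w.2.2 c)) (fun w => (lo (LL U) {c} w, BB D t {c} w)) := by
      refine I_supp (fun _ _ _ _ => Iff.rfl) (fun _ _ _ _ => Iff.rfl) fun v w hv hw => ?_
      have hx := xc_pub (I.inx (hQs v hv).1) (I.inx (hQs w hw).1)
      exact (fib1 (U := U) (p := c) B.oth hx.1 hx.2).symm
    rw [e1]
    refine le_trans (FP.I_mono _ (X := LL U {c}) (X' := fun w => U {c} w.1 w.2.1) _ fun v w hvw => ?_) ?_
    · have h4 : LL U {c} v = LL U {c} w := congrArg Prod.fst hvw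
      exact (LL_eq.1 h4).1
    · rw [FP.I_comm, FP.I_comm _ (LL U {c}) (lo G {c})]
      refine FP.I_mono _ (X := lo G {c}) (X' := fun w => (Tl w, w.2.2 c)) _ fun v w hvw => ?_
      have h4 : lo G {c} v = lo G {c} w := congrArg Prod.fst hvw
      have h5 := lo_eq.1 h4 ∅ (Finset.ssubset_singleton_iff.2 rfl)
      have h6 : (if (∅ : Finset K) = ∅ then some (Tl v, v.2.2 c) else none) =
        if (∅ : Finset K) = ∅ then some (Tl w, w.2.2 c) else none := h5
      rw [if_pos rfl, if_pos rfl] at h6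
      exact Option.some.inj h6
  have hNc := (B.n1 c).le
  have h2 := mul_le_mul_of_nonneg_left hI hNc
  have h3 := mul_nonneg hNc hklc
  rw [mul_add] at h1
  unfold Lb
  linarith

/-- **the letter of `c` against the second row**, general label `Tl` of (hidden point, point of `d`) -/
theorem let_twoT {τ : Type} (B : Bk h N S U t b c d) (I : Ib h U t b w0 V) {Tl : Pt K X β φ → τ}
    (hTl : ∀ v w : Pt K X β φ, v.1 = w.1 → v.2.1 d = w.2.1 d → (∀ j, D.qb t (v.2.1 j) = D.qb t (w.2.1 j)) → Tl v = Tl w)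
    {M : ℝ} (hM : ∀ d' : β, ∃ s : Finset τ, (s.card : ℝ) ≤ M ∧ ∀ v : Pt K X β φ, v.2.1 d = d' → Tl v ∈ s) :
    N {c} * ((D.P h t).cond V).I (zf U c) (fun w => (w.2.1 d, (Tl w, w.2.2 c))) (fun _ => ()) ≤
      2 * N ∅ * (Lb h U t b w0 V + 1) + 2 * (N ∅ * Real.log (M * (1 / al))) := by
  classical
  set Q := (D.P h t).cond V with hQ
  set Y : Pt K X β φ → β × (τ × φ) := fun w => (w.2.1 d, (Tl w, w.2.2 c)) with hY
  set Uc : Pt K X β φ → υ := fun w => U {c} w.1 w.2.1 with hUc
  have hVf : Fac (fun w => (w.1, BB D t {b} w)) V := I.fac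
  have hsup : ∀ v, Q.p v ≠ 0 → V v ∧ (D.P h t).p v ≠ 0 := fun v hv => cond_supp I.ne hv
  have hnd : ∀ v, Q.p v ≠ 0 → (v.2.1 b = w0.2.1 b) ∧ D.qa t v.1 = D.qa t w0.1 ∧ ∀ j, D.qb t (v.2.1 j) = D.qb t (w0.2.1 j) := by
    intro v hv
    have := (I.inx (hsup v hv).1).2
    rw [BB_eq] at this
    exact ⟨this.1 b (Finset.mem_singleton_self b), this.2⟩
  have hqu : ∀ (e : K) (v : Pt K X β φ), Q.p v ≠ 0 → ∀ j, D.qb t (v.2.1 j) = D.qb t (Function.update w0.2.1 e (v.2.1 e) j) := by
    intro e v hv j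
    by_cases hje : j = e
    · subst hje; rw [Function.update_self]
    · rw [Function.update_of_ne hje]; exact (hnd v hv).2.2 j
  -- chain rules
  have c1 : Q.I (zf U c) Y (fun _ => ()) = Q.I (fun w => (Uc w, w.2.1 c)) Y (fun _ => ()) :=
    I_supp (fun v w _ _ => by
      show ((v.2.1 c, Uc v) = (w.2.1 c, Uc w)) ↔ ((Uc v, v.2.1 c) = (Uc w, w.2.1 c))
      simp only [Prod.mk.injEq]; tauto) (fun _ _ _ _ => Iff.rfl) fun _ _ _ _ => Iff.rfl
  have c2 : Q.I (fun w => (Uc w, w.2.1 c)) Y (fun _ => ()) = Q.I (fun w => w.2.1 c) Y (fun _ => ()) +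
      Q.I Uc Y (fun w => (w.2.1 c, ())) := Q.I_chain _ _ _ _
  have c3 : Q.I Uc Y (fun w => (w.2.1 c, ())) = Q.I (fun w => ((Tl w, w.2.2 c), w.2.1 d)) Uc (fun w => (w.2.1 c, ())) := by
    rw [Q.I_comm]
    exact I_supp (fun v w _ _ => by
      show ((v.2.1 d, (Tl v, v.2.2 c)) = (w.2.1 d, (Tl w, w.2.2 c))) ↔
        (((Tl v, v.2.2 c), v.2.1 d) = ((Tl w, w.2.2 c), w.2.1 d))
      simp only [Prod.mk.injEq]; tauto) (fun _ _ _ _ => Iff.rfl) fun _ _ _ _ => Iff.rfl
  have c4 : Q.I (fun w => ((Tl w, w.2.2 c), w.2.1 d)) Uc (fun w => (w.2.1 c, ())) =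
      Q.I (fun w => w.2.1 d) Uc (fun w => (w.2.1 c, ())) +
        Q.I (fun w => (Tl w, w.2.2 c)) Uc (fun w => (w.2.1 d, w.2.1 c, ())) := Q.I_chain _ _ _ _
  -- the point of `c` is independent of the second row
  have indc := cls_indep3 (h := h) (t := t) (K0 := {b}) c hVf (fun v w hv hw => I.nod hv hw) I.self I.ne
  have indd := cls_indep3 (h := h) (t := t) (K0 := {b}) d hVf (fun v w hv hw => I.nod hv hw) I.self I.ne
  have z1 : Q.I (fun w => w.2.1 c) Y (fun _ => ()) = 0 := by
    set Y' : Pt K X β φ → β × (τ × φ) := fun w =>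
      (w.2.1 d, (Tl (w.1, Function.update w0.2.1 d (w.2.1 d), w0.2.2), w.2.2 c)) with hY'
    have e1 : Q.I (fun w => w.2.1 c) Y (fun _ => ()) = Q.I (fun w => w.2.1 c) Y' (fun _ => ()) := by
      refine I_congr_eq (fun _ _ => rfl) (fun v hv => ?_) fun _ _ => rfl
      have e2 : Tl v = Tl (v.1, Function.update w0.2.1 d (v.2.1 d), w0.2.2) :=
        hTl _ _ rfl (by
          show v.2.1 d = Function.update w0.2.1 d (v.2.1 d) d
          rw [Function.update_self]) (hqu d v hv)
      show (v.2.1 d, (Tl v, v.2.2 c)) = (v.2.1 d, (Tl (v.1, Function.update w0.2.1 d (v.2.1 d), w0.2.2), v.2.2 c))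
      rw [← e2]
    rw [e1]
    refine I_of_indep (indc.mono (Fac.refl _) fun v w hvw => ?_)
    simp only [Prod.mk.injEq] at hvw
    have h2 := congrFun hvw.2.1 d
    simp only [if_neg B.cd.symm] at h2
    have h3 := Option.some.inj h2
    show (v.2.1 d, (Tl (v.1, Function.update w0.2.1 d (v.2.1 d), w0.2.2), v.2.2 c)) =
      (w.2.1 d, (Tl (w.1, Function.update w0.2.1 d (w.2.1 d), w0.2.2), w.2.2 c))
    rw [h3, hvw.1, hvw.2.2]
  have z2 : Q.I (fun w => w.2.1 d) Uc (fun w => (w.2.1 c, ())) = 0 := by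
    have h1 : Q.I (fun w => (Uc w, w.2.1 c)) (fun w => w.2.1 d) (fun _ => ()) = 0 := by
      have e1 : Q.I (fun w => (Uc w, w.2.1 c)) (fun w => w.2.1 d) (fun _ => ()) =
          Q.I (fun w => (U {c} w.1 (Function.update w0.2.1 c (w.2.1 c)), w.2.1 c)) (fun w => w.2.1 d) (fun _ => ()) := by
        refine I_congr_eq (fun v hv => ?_) (fun _ _ => rfl) fun _ _ => rfl
        have e2 : U {c} v.1 v.2.1 = U {c} v.1 (Function.update w0.2.1 c (v.2.1 c)) :=
          B.dep {c} v.1 _ _ (fun j hj => by rw [Finset.mem_singleton.1 hj, Function.update_self]) (hqu c v hv)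
        show (U {c} v.1 v.2.1, v.2.1 c) = (U {c} v.1 (Function.update w0.2.1 c (v.2.1 c)), v.2.1 c)
        rw [e2]
      rw [e1, Q.I_comm]
      refine I_of_indep (indd.mono (Fac.refl _) fun v w hvw => ?_)
      simp only [Prod.mk.injEq] at hvw
      have h2 := congrFun hvw.2.1 c
      simp only [if_neg B.cd] at h2
      have h3 := Option.some.inj h2
      show (U {c} v.1 (Function.update w0.2.1 c (v.2.1 c)), v.2.1 c) =
        (U {c} w.1 (Function.update w0.2.1 c (w.2.1 c)), w.2.1 c)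
      rw [h3, hvw.1]
    have h2 : Q.I (fun w => (Uc w, w.2.1 c)) (fun w => w.2.1 d) (fun _ => ()) =
        Q.I (fun w => w.2.1 c) (fun w => w.2.1 d) (fun _ => ()) + Q.I Uc (fun w => w.2.1 d) (fun w => (w.2.1 c, ())) :=
      Q.I_chain _ _ _ _
    have h3 := Q.I_nonneg (fun w => w.2.1 c) (fun w => w.2.1 d) (fun _ => ())
    have h4 := Q.I_nonneg Uc (fun w => w.2.1 d) (fun w => (w.2.1 c, ()))
    rw [Q.I_comm]
    linarith
  -- disintegration over the point of `d`
  have z3 : Q.I (fun w => (Tl w, w.2.2 c)) Uc (fun w => (w.2.1 d, w.2.1 c, ())) =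
      Q.E (fun w => (Q.cond fun v => v.2.1 d = w.2.1 d).I Uc (fun w => (Tl w, w.2.2 c)) (fun w => w.2.1 c)) := by
    rw [I_disint Q _ _ _ (fun w => w.2.1 d) (Fac.fst _ _)]
    refine Q.E_congr fun w hw => ?_
    rw [FP.I_comm]
    have h0 : Q.Pr (fun v => v.2.1 d = w.2.1 d) ≠ 0 := (FP.Pr_pos_of (S := fun v => v.2.1 d = w.2.1 d) hw rfl).ne'
    refine I_supp (fun _ _ _ _ => Iff.rfl) (fun _ _ _ _ => Iff.rfl) fun u v hu hv => ?_
    have e1 := (cond_supp h0 hu).1
    have e2 := (cond_supp h0 hv).1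
    simp only [Prod.mk.injEq, and_true]
    exact ⟨fun hh => hh.2, fun hh => ⟨e1.trans e2.symm, hh⟩⟩
  rw [c1, c2, c3, c4, z1, z2, z3, zero_add, zero_add, ← FP.E_smul]
  refine Q.E_le_const fun w hw => ?_
  obtain ⟨hVw, hpw⟩ := hsup w hw
  have h1 := let_twoT_pt B (I.mv hVw hpw) hTl hM
  unfold Lb at h1
  rw [I.QB_mv hVw] at h1
  exact h1

/-- truncated letter and label of the face -/
noncomputable def yd (U : Finset K → X → (K → β) → υ) (Typ : β → υ → Prop) (c d : K) (w : Pt K X β φ) : Option υ × φ :=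
  (tru Typ (w.2.1 d) (U {d} w.1 w.2.1), w.2.2 c)

/-- the truncated letter is a label of (hidden point, point of `d`) -/
theorem tru_dep (B : Bk h N S U t b c d) (Typ : β → υ → Prop) (v w : Pt K X β φ) (h1 : v.1 = w.1) (h2 : v.2.1 d = w.2.1 d)
    (h3 : ∀ j, D.qb t (v.2.1 j) = D.qb t (w.2.1 j)) :
    tru Typ (v.2.1 d) (U {d} v.1 v.2.1) = tru Typ (w.2.1 d) (U {d} w.1 w.2.1) := by
  rw [h2, h1]
  congr 1
  exact B.dep {d} w.1 v.2.1 w.2.1 (fun j hj => by rw [Finset.mem_singleton.1 hj]; exact h2) h3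

theorem tru_card {Typ : β → υ → Prop} {M : ℝ} (hM : ∀ c', ∃ s : Finset υ, (s.card : ℝ) ≤ M ∧ ∀ u, Typ c' u → u ∈ s)
    (d' : β) : ∃ s : Finset (Option υ), (s.card : ℝ) ≤ M + 1 ∧
      ∀ v : Pt K X β φ, v.2.1 d = d' → tru Typ (v.2.1 d) (U {d} v.1 v.2.1) ∈ s := by
  classical
  obtain ⟨T, hT1, hT2⟩ := hM d'
  refine ⟨insert none (T.image some), ?_, fun v hv => ?_⟩
  · have a1 : (insert none (T.image some) : Finset (Option υ)).card ≤ T.card + 1 :=
      (Finset.card_insert_le _ _).trans (Nat.add_le_add_right Finset.card_image_le 1)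
    have a2 : ((insert none (T.image some) : Finset (Option υ)).card : ℝ) ≤ (T.card : ℝ) + 1 := by exact_mod_cast a1
    linarith
  · rw [hv]
    unfold tru
    split_ifs with hT
    · exact Finset.mem_insert_of_mem (Finset.mem_image.2 ⟨_, hT2 _ hT, rfl⟩)
    · exact Finset.mem_insert_self _ _

/-- **the letter of `c` against the second row**, truncated final letter of `d` -/
theorem let_two (B : Bk h N S U t b c d) (I : Ib h U t b w0 V) {Typ : β → υ → Prop} {M : ℝ}
    (hM : ∀ c', ∃ s : Finset υ, (s.card : ℝ) ≤ M ∧ ∀ u, Typ c' u → u ∈ s) :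
    N {c} * ((D.P h t).cond V).I (zf U c) (fun w => (w.2.1 d, yd U Typ c d w)) (fun _ => ()) ≤
      2 * N ∅ * (Lb h U t b w0 V + 1) + 2 * (N ∅ * Real.log ((M + 1) * (1 / al))) :=
  let_twoT B I (Tl := fun w => tru Typ (w.2.1 d) (U {d} w.1 w.2.1)) (tru_dep B Typ) (tru_card hM)

end bit

end Pool.Agent.GMH
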