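import Pool.Agent.GMH.BitPrF
import Pool.Agent.M3.Rec

/-!
# GMH.BitOw: products of bits in own classes (helper56; gm row H3.REL, R.5, R.6)

The events `E j` are functions of (hidden point, point `j`, node), `R j` = function of the own class `Co j` (public
letters, node, point and own letter of `j`), `E j ⊂ R j`, whole law of one time.  All bounds are relative to `P(R j)`, not to
the public class: they can be summed over removals of one vertex.
* `face_ow` : the face without `b` : `P(V) (klc + I) <= E 1_(E b) kaph (sur b)`;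
* `E_sur_le` : `E 1_(E b) sur b <= P(E b) (X0 + log (P(R b)/P(E b)))`;
* `two_klc_ow`, `two_I_ow` : the face without `d`, `E d` trivial.
-/

set_option autoImplicit false
set_option linter.unusedSectionVars false

namespace Pool.Agent.GMH

open Finset Pool.Agent.PWZ Pool.Agent.M3 Pool.Agent.GM Pool.Agent.GM.Harm

section ow

variable {K X β γ φ υ : Type} [Fintype K] [DecidableEq K] [Fintype X] [Fintype β] [Fintype φ] [Nonempty X] [Nonempty β]
  {D : HD K X β γ φ} {al : ℝ} {h : D.Thick al} {N : Finset K → ℝ} {S : Finset (Finset K)}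
  {U : Finset K → X → (K → β) → υ} {t : ℕ} {b c d : K} {E : K → Pt K X β φ → Prop}

/-- the own class: public letters, node, point and own letter -/
noncomputable def Co (D : HD K X β γ φ) (U : Finset K → X → (K → β) → υ) (t : ℕ) (b : K) (w : Pt K X β φ) :
    ((Finset K → Option (υ × (K → Option φ))) × ((K → Option β) × (γ × (K → γ)))) × (β × υ) :=
  ((le (LL U) ∅ w, BB D t ∅ w), w.2.1 b, U {b} w.1 w.2.1)

/-- the product event -/
def Vg (E : K → Pt K X β φ → Prop) (b c d : K) (v : Pt K X β φ) : Prop := E b v ∧ (E c v ∧ E d v)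

theorem Vg_rot : Vg E c b d = Vg E b c d := by
  funext v
  exact propext ⟨fun ⟨h1, h2, h3⟩ => ⟨h2, h1, h3⟩, fun ⟨h1, h2, h3⟩ => ⟨h2, h1, h3⟩⟩

theorem Vg_rot' : Vg E d b c = Vg E b c d := by
  funext v
  exact propext ⟨fun ⟨h1, h2, h3⟩ => ⟨h2, h3, h1⟩, fun ⟨h1, h2, h3⟩ => ⟨h3, h1, h2⟩⟩

/-- surprise of the bit with its own letter, exact point -/
noncomputable def sur (h : D.Thick al) (U : Finset K → X → (K → β) → υ) (t : ℕ) (E : K → Pt K X β φ → Prop) (b : K)
    (w : Pt K X β φ) : ℝ := Real.log (1 / (QB h U t b w).Pr (E0w U E b w))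

theorem sur_nn (w : Pt K X β φ) : 0 ≤ sur h U t E b w := log_inv_Pr_nonneg _ _

theorem xc_class {I : Finset K} {v w : Pt K X β φ} (hvw : xc D U t I w v) : xc D U t I v = xc D U t I w := by
  funext u
  show (le (LL U) ∅ u = le (LL U) ∅ v ∧ BB D t I u = BB D t I v) =
    (le (LL U) ∅ u = le (LL U) ∅ w ∧ BB D t I u = BB D t I w)
  rw [hvw.1, hvw.2]

theorem xc_pair {I : Finset K} {v w : Pt K X β φ} : (le (LL U) ∅ v, BB D t I v) = (le (LL U) ∅ w, BB D t I w) ↔
    xc D U t I w v := by rw [pair_iff]; exact Iff.rfl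

/-- **THE FACE WITHOUT `b` INSIDE THE PRODUCT EVENT, own classes** -/
theorem face_ow (B : Bk h N S U t b c d) (hE : ∀ j, Fac (Ah D t {j}) (E j)) (hV0 : (D.P h t).Pr (Vg E b c d) ≠ 0) :
    (D.P h t).Pr (Vg E b c d) *
      (((D.P h t).cond (Vg E b c d)).klc (D.P h t) (fun v => v.2.2 b) (Zf D U t b) +
        ((D.P h t).cond (Vg E b c d)).I (fun v => v.2.2 b) (fun v => ((v.2.2 c, v.2.2 d), Wf D U t v)) (Zf D U t b)) ≤
      (D.P h t).E (fun w => ind (E b w) * kaph N al b c d (sur h U t E b w)) := by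
  classical
  set P := D.P h t with hP
  set C : Pt K X β φ → Prop := fun _ => True with hC
  set V : Pt K X β φ → Prop := fun v => C v ∧ E b v ∧ (E c v ∧ E d v) with hV
  have hVV : Vg E b c d = V := by
    funext v
    exact propext ⟨fun hh => ⟨trivial, hh⟩, fun hh => hh.2⟩
  rw [hVV] at hV0 ⊢
  set Q := P.cond V with hQ
  set Kk : Pt K X β φ → ((Finset K → Option (υ × (K → Option φ))) × ((K → Option β) × (γ × (K → γ)))) × υ :=
    fun v => ((le (LL U) ∅ v, BB D t {b} v), U {b} v.1 v.2.1) with hKk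
  have hsup : ∀ w, Q.p w ≠ 0 → V w ∧ P.p w ≠ 0 := fun w hw => (FP.cond_p_ne hV0).1 hw
  have hQB : ∀ v w : Pt K X β φ, Kk v = Kk w → QB h U t b v = QB h U t b w := by
    intro v w hvw
    have h1 := xc_pair.1 (congrArg Prod.fst hvw)
    unfold QB
    rw [xc_class h1]
  -- fibres of `Kk` inside the event
  have hcell : ∀ w, V w → P.p w ≠ 0 → Q.cond (fun v => Kk v = Kk w) =
      ((QB h U t b w).cond (E0w U E b w)).cond (fun v => E c v ∧ E d v) := by
    intro w hVw hw
    have n1 : P.Pr (fun v => V v ∧ Kk v = Kk w) ≠ 0 := (FP.Pr_pos_of (S := fun v => V v ∧ Kk v = Kk w) hw ⟨hVw, rfl⟩).ne'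
    have n2 : P.Pr (fun v => xc D U t {b} w v ∧ E0w U E b w v) ≠ 0 :=
      (FP.Pr_pos_of (S := fun v => xc D U t {b} w v ∧ E0w U E b w v) hw ⟨xc_self U t {b} w, hVw.2.1, rfl⟩).ne'
    have n3 : P.Pr (fun v => (xc D U t {b} w v ∧ E0w U E b w v) ∧ (E c v ∧ E d v)) ≠ 0 :=
      (FP.Pr_pos_of (S := fun v => (xc D U t {b} w v ∧ E0w U E b w v) ∧ (E c v ∧ E d v)) hw
        ⟨⟨xc_self U t {b} w, hVw.2.1, rfl⟩, hVw.2.2⟩).ne'
    unfold QB
    rw [hQ, FP.cond_cond n1, FP.cond_cond n2, FP.cond_cond n3]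
    congr 1
    funext v
    refine propext ⟨fun hh => ?_, fun hh => ?_⟩
    · obtain ⟨⟨h1, h2, h3⟩, h4⟩ := hh
      have h5 := Prod.mk.inj h4
      exact ⟨⟨xc_pair.1 h5.1, h2, h5.2⟩, h3⟩
    · obtain ⟨⟨h1, h2, h3⟩, h4⟩ := hh
      exact ⟨⟨trivial, h2, h4⟩, pair_iff.2 ⟨xc_pair.2 h1, h3⟩⟩
  have hcell1 : ∀ w, V w → P.p w ≠ 0 → P.cond (fun v => Kk v = Kk w ∧ E b v) = (QB h U t b w).cond (E0w U E b w) := by
    intro w hVw hw
    have n2 : P.Pr (fun v => xc D U t {b} w v ∧ E0w U E b w v) ≠ 0 :=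
      (FP.Pr_pos_of (S := fun v => xc D U t {b} w v ∧ E0w U E b w v) hw ⟨xc_self U t {b} w, hVw.2.1, rfl⟩).ne'
    unfold QB
    rw [FP.cond_cond n2]
    congr 1
    funext v
    refine propext ⟨fun hh => ?_, fun hh => ?_⟩
    · have h5 := Prod.mk.inj hh.1
      exact ⟨xc_pair.1 h5.1, hh.2, h5.2⟩
    · exact ⟨pair_iff.2 ⟨xc_pair.2 hh.1, hh.2.2⟩, hh.2.1⟩
  -- the mean over the classes
  have hYZ : Fac (fun v => ((v.2.2 c, v.2.2 d), Wf D U t v)) (Zf D U t b) := (Fac.snd _ _).trans (Wf_Zf B)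
  have hYK : Fac (fun v => ((v.2.2 c, v.2.2 d), Wf D U t v)) Kk := by
    intro v w hvw
    have h1 : Wf D U t v = Wf D U t w := congrArg Prod.snd hvw
    unfold Wf at h1
    rw [Prod.mk.injEq, Prod.mk.injEq] at h1
    have h2 : zf U b v = zf U b w := congrFun h1.2 b
    unfold zf at h2
    obtain ⟨h3, h4⟩ := Prod.mk.inj h2
    show ((_, _), _) = ((_, _), _)
    rw [Prod.mk.injEq, Prod.mk.injEq]
    refine ⟨⟨h1.1.1, ?_⟩, h4⟩
    have h5 := h1.1.2
    rw [BB_eq] at h5 ⊢
    exact ⟨fun j hj => by rw [Finset.mem_singleton.1 hj]; exact h3, h5.2⟩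
  rw [klp_dis (Q := Q) (P := P) (FP.cond_ac P V) (K := Kk) (R0 := QB h U t b) hYZ hYK hQB (fun w hw => ?_)
    (fun w hw f => pv_hw B (hsup w hw).2 f)]
  swap
  · obtain ⟨hVw, hp⟩ := hsup w hw
    rw [hcell w hVw hp]
    intro v hv
    exact (FP.cond_ac _ _) v ((FP.cond_ac _ _) v hv)
  set T : Pt K X β φ → ℝ := fun w => (Q.cond fun v => Kk v = Kk w).klc (QB h U t b w) (fun v => v.2.2 b) (Zf D U t b) +
    (Q.cond fun v => Kk v = Kk w).I (fun v => v.2.2 b) (fun v => ((v.2.2 c, v.2.2 d), Wf D U t v)) (Zf D U t b) with hT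
  set st : Pt K X β φ → ℝ := fun w => kaph N al b c d (sur h U t E b w) with hst
  have hks : P.Pr (fun w => C w ∧ E b w ∧ (E c w ∧ E d w)) * (P.cond fun w => C w ∧ E b w ∧ (E c w ∧ E d w)).E T ≤
      P.E (fun w => ind (C w ∧ E b w) * st w) := by
    refine klp_sum (K := Kk) (fun v w _ => rfl) hV0 ?_ (fun w => kaph_nn B (sur_nn w)) ?_
    · intro v w hvw
      have h1 := hQB v w hvw
      have h2 : E0w U E b v = E0w U E b w := by
        funext u
        have h3 : U {b} v.1 v.2.1 = U {b} w.1 w.2.1 := (Prod.mk.inj hvw).2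
        show (E b u ∧ U {b} u.1 u.2.1 = U {b} v.1 v.2.1) = (E b u ∧ U {b} u.1 u.2.1 = U {b} w.1 w.2.1)
        rw [h3]
      show kaph N al b c d (Real.log (1 / (QB h U t b v).Pr (E0w U E b v))) =
        kaph N al b c d (Real.log (1 / (QB h U t b w).Pr (E0w U E b w)))
      rw [h1, h2]
    · intro w hw
      obtain ⟨hVw, hp⟩ := hsup w hw
      rw [hcell1 w hVw hp]
      show _ * ((Q.cond fun v => Kk v = Kk w).klc (QB h U t b w) (fun v => v.2.2 b) (Zf D U t b) +
        (Q.cond fun v => Kk v = Kk w).I (fun v => v.2.2 b) (fun v => ((v.2.2 c, v.2.2 d), Wf D U t v)) (Zf D U t b)) ≤ _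
      rw [hcell w hVw hp]
      exact hw_pt B hE hp hVw.2.1 hVw.2.2.1 hVw.2.2.2
  refine hks.trans (le_of_eq (P.E_congr fun w _ => ?_))
  have e : (C w ∧ E b w) = E b w := propext ⟨fun hh => hh.2, fun hh => ⟨trivial, hh⟩⟩
  rw [e]

/-- typical own letters -/
def TyO (h : D.Thick al) (U : Finset K → X → (K → β) → υ) (t : ℕ) (E : K → Pt K X β φ → Prop) (X0 : ℝ) (b : K) : Prop :=
  ∀ w, (D.P h t).p w ≠ 0 → E b w →
    Real.log (1 / (QB h U t b w).Pr fun v => U {b} v.1 v.2.1 = U {b} w.1 w.2.1) ≤ X0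

/-- **the mean surprise of the bit** -/
theorem E_sur_le {R : Pt K X β φ → Prop} (hR : Fac (Co D U t b) R) (hER : ∀ w, (D.P h t).p w ≠ 0 → E b w → R w)
    {X0 : ℝ} (hX : TyO h U t E X0 b) :
    (D.P h t).E (fun w => ind (E b w) * sur h U t E b w) ≤
      (D.P h t).Pr (E b) * (X0 + Real.log ((D.P h t).Pr R / (D.P h t).Pr (E b))) := by
  classical
  set P := D.P h t with hP
  by_cases h0 : P.Pr (E b) = 0
  · rw [h0, zero_mul]
    refine le_of_eq ?_
    rw [← P.E_const 0]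
    refine P.E_congr fun w hw => ?_
    rw [ind_not (fun hh => (FP.Pr_pos_of (S := E b) hw hh).ne' h0), zero_mul]
  have eRE : P.Pr (fun w => R w ∧ E b w) = P.Pr (E b) := P.E_congr fun w hw => by
    congr 1
    exact propext ⟨fun hh => hh.2, fun hh => ⟨hER w hw hh, hh⟩⟩
  have n0 : P.Pr (fun w => R w ∧ E b w) ≠ 0 := by rw [eRE]; exact h0
  have k1 := E_log_surp (P := P) (K := Co D U t b) (C := R) (E := E b) (L := fun _ => ()) (M := 1) hR n0
    (fun w _ _ _ => ⟨{()}, by simp, fun _ _ _ _ _ => by simp⟩)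
  -- pointwise
  have key : ∀ w, P.p w ≠ 0 → E b w → sur h U t E b w ≤ X0 +
      Real.log (1 / (P.cond fun v => Co D U t b v = Co D U t b w).Pr fun v => E b v ∧ () = ()) := by
    intro w hw hEw
    set x := xc D U t {b} w with hx
    set u : Pt K X β φ → Prop := fun v => U {b} v.1 v.2.1 = U {b} w.1 w.2.1 with hu
    have x0 : P.Pr x ≠ 0 := xc_ne hw
    have hcl : (fun v => Co D U t b v = Co D U t b w) = fun v => x v ∧ u v := by
      funext v
      refine propext ⟨fun hh => ?_, fun hh => ?_⟩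
      · obtain ⟨h1, h2⟩ := pair_iff.1 (show (((le (LL U) ∅ v, BB D t ∅ v), (v.2.1 b, U {b} v.1 v.2.1)) : _ × _) =
          ((le (LL U) ∅ w, BB D t ∅ w), (w.2.1 b, U {b} w.1 w.2.1)) from hh)
        obtain ⟨h3, h4⟩ := pair_iff.1 h1
        obtain ⟨h5, h6⟩ := pair_iff.1 h2
        refine ⟨⟨h3, ?_⟩, h6⟩
        rw [BB_eq] at h4 ⊢
        exact ⟨fun j hj => by rw [Finset.mem_singleton.1 hj]; exact h5, h4.2⟩
      · obtain ⟨⟨h3, h4⟩, h6⟩ := hh
        rw [BB_eq] at h4
        have h7 : BB D t ∅ v = BB D t ∅ w := by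
          rw [BB_eq]
          exact ⟨fun j hj => absurd hj (Finset.notMem_empty j), h4.2⟩
        exact pair_iff.2 ⟨pair_iff.2 ⟨h3, h7⟩, pair_iff.2 ⟨h4.1 b (Finset.mem_singleton_self b), h6⟩⟩
    have xu0 : 0 < P.Pr (fun v => x v ∧ u v) := FP.Pr_pos_of (S := fun v => x v ∧ u v) hw ⟨xc_self U t {b} w, rfl⟩
    have xe0 : 0 < P.Pr (fun v => x v ∧ E0w U E b w v) :=
      FP.Pr_pos_of (S := fun v => x v ∧ E0w U E b w v) hw ⟨xc_self U t {b} w, hEw, rfl⟩
    have x1 : 0 < P.Pr x := lt_of_le_of_ne (P.Pr_nonneg _) (Ne.symm x0)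
    have e1 : (QB h U t b w).Pr (E0w U E b w) = P.Pr (fun v => x v ∧ E0w U E b w v) / P.Pr x := FP.cond_Pr x0 _
    have e2 : (QB h U t b w).Pr u = P.Pr (fun v => x v ∧ u v) / P.Pr x := FP.cond_Pr x0 _
    have e3 : (P.cond fun v => Co D U t b v = Co D U t b w).Pr (fun v => E b v ∧ () = ()) =
        P.Pr (fun v => x v ∧ E0w U E b w v) / P.Pr (fun v => x v ∧ u v) := by
      rw [hcl, FP.cond_Pr xu0.ne']
      congr 1
      refine P.E_congr fun v _ => ?_
      congr 1
      exact propext ⟨fun hh => ⟨hh.1.1, hh.2.1, hh.1.2⟩, fun hh => ⟨⟨hh.1, hh.2.2⟩, hh.2.1, rfl⟩⟩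
    have hX1 := hX w hw hEw
    have hX2 : Real.log (1 / (QB h U t b w).Pr u) ≤ X0 := hX1
    unfold sur
    rw [e3, e1]
    rw [e2] at hX2
    refine le_trans (le_of_eq ?_) (add_le_add hX2 le_rfl)
    rw [← Real.log_mul (by positivity) (by positivity)]
    congr 1
    field_simp
  have k2 : P.E (fun w => ind (E b w) * sur h U t E b w) ≤ P.E (fun w => ind (R w ∧ E b w) * (X0 +
      Real.log (1 / (P.cond fun v => Co D U t b v = Co D U t b w).Pr fun v => E b v ∧ () = ()))) := by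
    refine P.E_mono fun w hw => ?_
    by_cases hh : E b w
    · rw [ind_of hh, ind_of (⟨hER w hw hh, hh⟩ : R w ∧ E b w), one_mul, one_mul]
      exact key w hw hh
    · rw [ind_not hh, ind_not (fun h3 : R w ∧ E b w => hh h3.2), zero_mul, zero_mul]
  refine k2.trans ?_
  rw [← FP.Pr_mul_cond_E n0, eRE, FP.E_add, FP.E_const]
  refine mul_le_mul_of_nonneg_left (add_le_add le_rfl ?_) (P.Pr_nonneg _)
  rw [one_mul, eRE] at k1
  exact k1

/-- **the bits in the letters of `b` and `c`**, own classes -/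
theorem two_klc_ow (B : Bk h N S U t b c d) (hE : ∀ j, Fac (Ah D t {j}) (E j)) (hEd : ∀ v, E d v)
    {Rb Rc : Pt K X β φ → Prop} (hRb : Fac (Co D U t b) Rb) (hRc : Fac (Co D U t c) Rc)
    (hb : ∀ w, (D.P h t).p w ≠ 0 → E b w → Rb w) (hc : ∀ w, (D.P h t).p w ≠ 0 → E c w → Rc w)
    (hV0 : (D.P h t).Pr (Vg E b c d) ≠ 0) :
    (D.P h t).Pr (Vg E b c d) *
      ((D.P h t).cond (Vg E b c d)).klc (D.P h t) (fun v => v.2.2 d) (Zf D U t d) ≤
      2 * (N {b} * ((D.P h t).Pr (E b) * (1 + Real.log ((D.P h t).Pr Rb / (D.P h t).Pr (E b)))) +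
        N {c} * ((D.P h t).Pr (E c) * (1 + Real.log ((D.P h t).Pr Rc / (D.P h t).Pr (E c))))) / N (univ.erase d) := by
  classical
  set P := D.P h t with hP
  set A : Pt K X β φ → Prop := Vg E b c d with hA
  refine (klc_event_le P hV0 (fun v => v.2.2 d) (Zf D U t d)).trans ?_
  -- the additions
  set G : Finset K → Pt K X β φ → Prop := fun J w => if J = {b} then E b w else if J = {c} then E c w else True with hG
  have hcb : ({c} : Finset K) ≠ {b} := fun hh => B.bc (Finset.singleton_injective hh).symm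
  have hphi : 0 ≤ Phi P (BB D t) N S (LL U) G := by
    refine B.sat.gen _ ?_
    intro J v w h1 h2 h3
    show G J v = G J w
    simp only [hG]
    have hAh : ∀ j ∈ J, Ah D t {j} v = Ah D t {j} w := by
      intro j hj
      unfold Ah
      simp only [Prod.mk.injEq, BB_eq]
      exact ⟨h1, fun i hi => by rw [Finset.mem_singleton.1 hi]; exact h2 j hj, by rw [h1], h3⟩
    by_cases hJb : J = {b}
    · rw [if_pos hJb, if_pos hJb]
      exact hE b v w (hAh b (by rw [hJb]; exact Finset.mem_singleton_self b))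
    · rw [if_neg hJb, if_neg hJb]
      by_cases hJc : J = {c}
      · rw [if_pos hJc, if_pos hJc]
        exact hE c v w (hAh c (by rw [hJc]; exact Finset.mem_singleton_self c))
      · rw [if_neg hJc, if_neg hJc]
  set J0 : Finset K := univ.erase d with hJ0
  have hsum : ∑ J ∈ S, N J * gain P (BB D t) (LL U) G J ≤ 2 * ∑ J ∈ S, N J * cost P (BB D t) (LL U) G J := by
    unfold Phi at hphi
    rw [Finset.mul_sum, ← sub_nonneg, ← Finset.sum_sub_distrib]
    refine hphi.trans (le_of_eq (Finset.sum_congr rfl fun J _ => ?_))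
    ring
  have hgain : N J0 * gain P (BB D t) (LL U) G J0 ≤ ∑ J ∈ S, N J * gain P (BB D t) (LL U) G J :=
    Finset.single_le_sum (f := fun J => N J * gain P (BB D t) (LL U) G J)
      (fun J hJ => mul_nonneg (B.nn J hJ) gain_nonneg) (B.s2 d)
  -- probabilities of the bits
  have hpos : ∀ F : Pt K X β φ → Prop, (∀ v, A v → F v) → P.Pr F ≠ 0 := by
    intro F hF h1
    exact hV0 (le_antisymm (h1 ▸ P.Pr_mono fun w _ hw => hF w hw) (P.Pr_nonneg _))
  have hpb := hpos (E b) fun v hv => hv.1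
  have hpc := hpos (E c) fun v hv => hv.2.1
  have own : ∀ (j : K) (R : Pt K X β φ → Prop), Fac (Co D U t j) R → ∀ v w : Pt K X β φ,
      (lo G {j} v, le (LL U) {j} v, BB D t {j} v) = (lo G {j} w, le (LL U) {j} w, BB D t {j} w) → (R v ↔ R w) := by
    intro j R hR v w hvw
    obtain ⟨-, h2'⟩ := pair_iff.1 hvw
    obtain ⟨h2, h5⟩ := pair_iff.1 h2'
    rw [BB_eq] at h5
    rw [le_eq] at h2
    have e : R v = R w := by
      refine hR v w ?_
      unfold Co
      refine pair_iff.2 ⟨pair_iff.2 ⟨?_, ?_⟩, pair_iff.2 ⟨h5.1 j (Finset.mem_singleton_self j), ?_⟩⟩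
      · rw [le_eq]
        intro I hI
        exact h2 I (hI.trans (Finset.empty_subset _))
      · rw [BB_eq]
        exact ⟨fun i hi => absurd hi (Finset.notMem_empty i), h5.2⟩
      · exact (LL_eq.1 (h2 {j} (Finset.Subset.refl _))).1
    rw [e]
  have cb : cost P (BB D t) (LL U) G {b} ≤ P.Pr (E b) * (1 + Real.log (P.Pr Rb / P.Pr (E b))) := by
    have h1 : G {b} = E b := by
      funext w
      simp only [hG, if_true]
    unfold cost
    rw [h1]
    exact P.Hc_event_le (s := E b) (C := Rb) (own b Rb hRb) hb hpb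
  have cc : cost P (BB D t) (LL U) G {c} ≤ P.Pr (E c) * (1 + Real.log (P.Pr Rc / P.Pr (E c))) := by
    have h1 : G {c} = E c := by
      funext w
      simp only [hG, if_neg hcb, if_true]
    unfold cost
    rw [h1]
    exact P.Hc_event_le (s := E c) (C := Rc) (own c Rc hRc) hc hpc
  have hcost : ∑ J ∈ S, N J * cost P (BB D t) (LL U) G J ≤
      N {b} * (P.Pr (E b) * (1 + Real.log (P.Pr Rb / P.Pr (E b)))) +
        N {c} * (P.Pr (E c) * (1 + Real.log (P.Pr Rc / P.Pr (E c)))) := by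
    have h2 : ∀ J ∈ S, N J * cost P (BB D t) (LL U) G J ≤
        (if J = {b} then N {b} * (P.Pr (E b) * (1 + Real.log (P.Pr Rb / P.Pr (E b)))) else 0) +
          if J = {c} then N {c} * (P.Pr (E c) * (1 + Real.log (P.Pr Rc / P.Pr (E c)))) else 0 := by
      intro J hJ
      by_cases h3 : J = {b}
      · subst h3
        rw [if_pos rfl, if_neg (Ne.symm hcb), add_zero]
        exact mul_le_mul_of_nonneg_left cb (B.nn _ hJ)
      · by_cases h4 : J = {c}
        · subst h4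
          rw [if_neg h3, if_pos rfl, zero_add]
          exact mul_le_mul_of_nonneg_left cc (B.nn _ hJ)
        · rw [if_neg h3, if_neg h4, add_zero]
          rw [cost_const fun v w => by
            show G J v = G J w
            simp only [hG, if_neg h3, if_neg h4], mul_zero]
    refine (Finset.sum_le_sum h2).trans (le_of_eq ?_)
    rw [Finset.sum_add_distrib, Finset.sum_ite_eq' S {b}, Finset.sum_ite_eq' S {c}, if_pos (B.s1 b), if_pos (B.s1 c)]
  -- data processing
  have hbJ : b ∈ J0 := Finset.mem_erase.2 ⟨B.bd, mem_univ b⟩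
  have hcJ : c ∈ J0 := Finset.mem_erase.2 ⟨B.cd, mem_univ c⟩
  have hsb : ({b} : Finset K) ⊂ J0 := by
    rw [Finset.ssubset_iff_of_subset (Finset.singleton_subset_iff.2 hbJ)]
    exact ⟨c, hcJ, fun hh => B.bc (Finset.mem_singleton.1 hh).symm⟩
  have hsc : ({c} : Finset K) ⊂ J0 := by
    rw [Finset.ssubset_iff_of_subset (Finset.singleton_subset_iff.2 hcJ)]
    exact ⟨b, hbJ, fun hh => B.bc (Finset.mem_singleton.1 hh)⟩
  have hI : P.I (fun v => v.2.2 d) A (Zf D U t d) ≤ gain P (BB D t) (LL U) G J0 := by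
    unfold gain
    refine le_trans (P.I_mono (X := LL U J0) (X' := fun v => v.2.2 d) _ fun v u hvu => ?_) ?_
    · have h4 : LL U J0 v = LL U J0 u := congrArg Prod.fst hvu
      exact (LL_eq.1 h4).2 d rfl
    · rw [P.I_comm, P.I_comm (LL U J0) (lo G J0)]
      refine P.I_mono (X := lo G J0) (X' := A) _ fun v u hvu => ?_
      have h4 : lo G J0 v = lo G J0 u := congrArg Prod.fst hvu
      have hb := lo_eq.1 h4 {b} hsb
      have hc := lo_eq.1 h4 {c} hsc
      simp only [hG, if_true] at hb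
      simp only [hG, if_neg hcb, if_true] at hc
      show (E b v ∧ (E c v ∧ E d v)) = (E b u ∧ (E c u ∧ E d u))
      rw [hb, hc, propext ⟨fun _ => hEd u, fun _ => hEd v⟩]
  refine hI.trans ?_
  rw [le_div_iff₀ (B.n2 d), mul_comm]
  linarith

/-- at most `M` letters of the bit of `c` at every point, in every public class -/
def LetO (h : D.Thick al) (U : Finset K → X → (K → β) → υ) (t : ℕ) (E : K → Pt K X β φ → Prop) (M : ℝ) (c : K) : Prop :=
  ∀ (w0 : Pt K X β φ) (c' : β), ∃ s : Finset υ, (s.card : ℝ) ≤ M ∧ ∀ v, (D.P h t).p v ≠ 0 → xc D U t ∅ w0 v → E c v →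
    v.2.1 c = c' → U {c} v.1 v.2.1 ∈ s

/-- the surprise of the bit does not change when a second point is known -/
theorem pr_two (B : Bk h N S U t b c d) (hE : ∀ j, Fac (Ah D t {j}) (E j)) {w : Pt K X β φ}
    (hw : (D.P h t).p w ≠ 0) : ((D.P h t).cond (xc D U t (univ.erase d) w)).Pr (E0w U E b w) =
      (QB h U t b w).Pr (E0w U E b w) := by
  classical
  set P := D.P h t with hP
  set x := xc D U t {b} w with hx
  have x0 : P.Pr x ≠ 0 := xc_ne hw
  have hind := cls_indep (h := h) (xc_fac (U := U) {b} w B.dep B.era) (fun v u hv hu => hv.2.trans hu.2.symm)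
    (xc_self U t {b} w) (xc_ne hw)
  have hRw : (QB h U t b w).p w ≠ 0 := (FP.cond_p_ne x0).2 ⟨xc_self U t {b} w, hw⟩
  set A : Pt K X β φ → Prop := fun v => v.2.1 c = w.2.1 c with hA
  have hA0 : (QB h U t b w).Pr A ≠ 0 := (FP.Pr_pos_of (S := A) hRw rfl).ne'
  set g : Pt K X β φ → ℝ := fun v => ind (E0w U E b w (v.1, w.2.1, w.2.2)) with hg
  have k := cond_ind (R := QB h U t b w) (Y0 := fun v : Pt K X β φ => v.2.1) (T := fun v : Pt K X β φ => v.1) hind.symm
    (A := A) (fun v u hvu => by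
      have h1 : v.2.1 = u.2.1 := hvu
      show (v.2.1 c = w.2.1 c) = (u.2.1 c = w.2.1 c)
      rw [h1]) hA0 (g := g) (fun v u hvu => by
      have h1 : v.1 = u.1 := hvu
      show ind (E0w U E b w (v.1, w.2.1, w.2.2)) = ind (E0w U E b w (u.1, w.2.1, w.2.2))
      rw [h1])
  have e1 : (QB h U t b w).cond A = P.cond (xc D U t (univ.erase d) w) := by
    have hI0 : (univ.erase d : Finset K) = {b, c} := B.rot'.era2
    have hxx : (fun v => x v ∧ A v) = xc D U t (univ.erase d) w := by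
      funext v
      refine propext ⟨fun hh => ?_, fun hh => ?_⟩
      · obtain ⟨⟨h1, h2⟩, h3⟩ := hh
        rw [BB_eq] at h2
        refine ⟨h1, ?_⟩
        rw [BB_eq, hI0]
        refine ⟨fun j hj => ?_, h2.2⟩
        rw [Finset.mem_insert, Finset.mem_singleton] at hj
        rcases hj with rfl | rfl
        · exact h2.1 _ (Finset.mem_singleton_self _)
        · exact h3
      · obtain ⟨h1, h2⟩ := hh
        rw [BB_eq, hI0] at h2
        refine ⟨⟨h1, ?_⟩, h2.1 c (by simp)⟩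
        rw [BB_eq]
        exact ⟨fun j hj => by rw [Finset.mem_singleton.1 hj]; exact h2.1 b (by simp), h2.2⟩
    have n1 : P.Pr (fun v => x v ∧ A v) ≠ 0 := by rw [hxx]; exact xc_ne hw
    unfold QB
    rw [FP.cond_cond n1, hxx]
  have e2 : ∀ v, x v → (E0w U E b w v) = E0w U E b w (v.1, w.2.1, w.2.2) := by
    intro v hv
    rw [ev_cls (E0w_ev B hE w) hv.2]
    have e3 : E b (v.1, w.2.1, v.2.2) = E b (v.1, w.2.1, w.2.2) := hE b _ _ rfl
    show (E b (v.1, w.2.1, v.2.2) ∧ _) = (E b (v.1, w.2.1, w.2.2) ∧ _)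
    rw [e3]
  have f1 : ∀ R : FP (Pt K X β φ), (∀ v, R.p v ≠ 0 → x v) → R.Pr (E0w U E b w) = R.E g := by
    intro R hR
    refine R.E_congr fun v hv => ?_
    rw [e2 v (hR v hv)]
  rw [← e1, f1 _ (fun v hv => QB_supp hw (FP.cond_ac _ _ v hv)), f1 _ (fun v hv => QB_supp hw hv)]
  exact k

/-- **the foreign letter**, own class of `b` -/
theorem two_I_ow (B : Bk h N S U t b c d) (hE : ∀ j, Fac (Ah D t {j}) (E j)) (hEd : ∀ v, E d v) {M : ℝ}
    (hM0 : 0 ≤ M) (hMc : LetO h U t E M c) (hV0 : (D.P h t).Pr (Vg E b c d) ≠ 0) :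
    (D.P h t).Pr (Vg E b c d) *
      ((D.P h t).cond (Vg E b c d)).I (fun v => v.2.2 d) (Wf D U t) (Zf D U t d) ≤
      2 * N ∅ / N {d} * ((D.P h t).E (fun w => ind (E b w) * sur h U t E b w) +
        (D.P h t).Pr (E b) * (Real.log (M * (1 / al) + 1) + 1)) := by
  classical
  set P := D.P h t with hP
  set V := Vg E b c d with hV
  set Q := P.cond V with hQ
  have B' : Bk h N S U t d b c := B.rot'
  set I0 : Finset K := univ.erase d with hI0
  set Y : Pt K X β φ → _ := fun w => (LL U {d} w, lo (LL U) {d} w, BB D t {d} w) with hY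
  set R : Pt K X β φ → FP (Pt K X β φ) := fun w => P.cond (xc D U t I0 w) with hR
  set L : Pt K X β φ → υ × (υ × φ) := fun v => (U {b} v.1 v.2.1, (U {c} v.1 v.2.1, v.2.2 d)) with hL
  have hsup : ∀ w, Q.p w ≠ 0 → V w ∧ P.p w ≠ 0 := fun w hw => (FP.cond_p_ne hV0).1 hw
  have hbI : b ∈ I0 := Finset.mem_erase.2 ⟨B.bd, mem_univ b⟩
  have hcI : c ∈ I0 := Finset.mem_erase.2 ⟨B.cd, mem_univ c⟩
  have hdI : d ∉ I0 := fun hh => (Finset.mem_erase.1 hh).1 rfl
  -- `Wf` from `(Y, Zf)`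
  have h1 : Q.I (fun v => v.2.2 d) (Wf D U t) (Zf D U t d) ≤ Q.I (fun v => v.2.2 d) Y (Zf D U t d) := by
    rw [Q.I_comm, Q.I_comm (fun v => v.2.2 d) Y]
    refine Q.I_mono _ fun v u hvu => ?_
    obtain ⟨h2, h3⟩ := Prod.mk.inj hvu
    have h4 := Zf_pub B' h3
    have h5 := (Zf_iff B' h4.1 h4.2).1 h3
    simp only [hY, Prod.mk.injEq] at h2
    have h6 := (LL_eq.1 h2.1).1
    have h7 := h2.2.2
    rw [BB_eq] at h7
    unfold Wf
    rw [Prod.mk.injEq, Prod.mk.injEq]
    refine ⟨h4, ?_⟩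
    funext j
    rcases B.all j with hj | hj | hj
    · rw [hj]; exact h5.1
    · rw [hj]; exact h5.2
    · rw [hj]
      unfold zf
      rw [Prod.mk.injEq]
      exact ⟨h7.1 d (Finset.mem_singleton_self d), h6⟩
  have hZx : ∀ v w : Pt K X β φ, Zf D U t d v = Zf D U t d w → xc D U t I0 w v := by
    intro v w hvw
    have h4 := Zf_pub B' hvw
    have h5 : Zf D U t d v = Zf D U t d w := hvw
    unfold Zf at h5
    exact ⟨h4.1, (Prod.mk.inj h5).2⟩
  have h2 := I_le_kl (Q := Q) (X := fun v => v.2.2 d) (Y := Y) (Z := Zf D U t d) (R := R)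
    (fun v w hvw => by
      show P.cond (xc D U t I0 v) = P.cond (xc D U t I0 w)
      rw [xc_class (hZx v w hvw)])
    (fun w hw v hv => by
      have h3 := (FP.cond_p_ne (Q.m_pos (Zf D U t d) hw).ne').1 hv
      exact (FP.cond_p_ne (xc_ne (hsup w hw).2)).2 ⟨hZx v w h3.1, (hsup v h3.2).2⟩)
  -- one class
  have key : ∀ w, Q.p w ≠ 0 → (Q.cond fun v => ((fun v : Pt K X β φ => v.2.2 d) v, Zf D U t d v) =
      ((fun v : Pt K X β φ => v.2.2 d) w, Zf D U t d w)).kl (R w) Y ≤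
      2 * N ∅ / N {d} * (Real.log (1 / (R w).Pr fun v => V v ∧ L v = L w) + 1) := by
    intro w hw
    obtain ⟨hVw, hp⟩ := hsup w hw
    have hxn : P.Pr (xc D U t I0 w) ≠ 0 := xc_ne hp
    have hRw : (R w).p w ≠ 0 := (FP.cond_p_ne hxn).2 ⟨xc_self U t I0 w, hp⟩
    have hE0 : (R w).Pr (fun v => V v ∧ L v = L w) ≠ 0 :=
      (FP.Pr_pos_of (S := fun v => V v ∧ L v = L w) hRw ⟨hVw, rfl⟩).ne'
    have hev : EvI D t I0 (fun v => V v ∧ L v = L w) := by
      intro v u hvu
      simp only [Prod.mk.injEq, BB_eq] at hvu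
      obtain ⟨h3, ⟨h4, h5, h6⟩, h7⟩ := hvu
      have hAh : ∀ j ∈ I0, Ah D t {j} v = Ah D t {j} u := by
        intro j hj
        unfold Ah
        simp only [Prod.mk.injEq, BB_eq]
        exact ⟨h3, fun i hi => by rw [Finset.mem_singleton.1 hi]; exact h4 j hj, h5, h6⟩
      have hd7 := congrFun h7 d
      unfold tl at hd7
      have hc7 : univ.erase d ⊆ I0 ∧ ∃ i ∈ I0, i ≠ d := ⟨Finset.Subset.refl _, b, hbI, B.bd⟩
      rw [if_pos hc7, if_pos hc7] at hd7
      have hUj : ∀ j ∈ I0, U {j} v.1 v.2.1 = U {j} u.1 u.2.1 := by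
        intro j hj
        rw [h3]
        exact B.dep {j} u.1 v.2.1 u.2.1 (fun i hi => by rw [Finset.mem_singleton.1 hi]; exact h4 j hj) h6
      have hLv : L v = L u := by
        show (_, (_, _)) = (_, (_, _))
        rw [Prod.mk.injEq, Prod.mk.injEq]
        exact ⟨hUj b hbI, hUj c hcI, Option.some.inj hd7⟩
      show ((E b v ∧ (E c v ∧ E d v)) ∧ L v = L w) = ((E b u ∧ (E c u ∧ E d u)) ∧ L u = L w)
      rw [hLv, hE b v u (hAh b hbI), hE c v u (hAh c hcI), propext ⟨fun _ => hEd u, fun _ => hEd v⟩]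
    have h8 := ex_vert (h := h) B.dep B.sat B.nn B.era B.s0 (I := I0) (j := d) (B.s1 d) hdI (w0 := w) hp hev hE0
    have hlaw : (Q.cond fun v => ((fun v : Pt K X β φ => v.2.2 d) v, Zf D U t d v) =
        ((fun v : Pt K X β φ => v.2.2 d) w, Zf D U t d w)) = (R w).cond fun v => V v ∧ L v = L w := by
      have n1 : P.Pr (fun v => V v ∧ ((fun v : Pt K X β φ => v.2.2 d) v, Zf D U t d v) =
          ((fun v : Pt K X β φ => v.2.2 d) w, Zf D U t d w)) ≠ 0 :=
        (FP.Pr_pos_of (S := fun v => V v ∧ ((fun v : Pt K X β φ => v.2.2 d) v, Zf D U t d v) =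
          ((fun v : Pt K X β φ => v.2.2 d) w, Zf D U t d w)) hp ⟨hVw, rfl⟩).ne'
      have n2 : P.Pr (fun v => xc D U t I0 w v ∧ (V v ∧ L v = L w)) ≠ 0 :=
        (FP.Pr_pos_of (S := fun v => xc D U t I0 w v ∧ (V v ∧ L v = L w)) hp ⟨xc_self U t I0 w, hVw, rfl⟩).ne'
      rw [hQ, FP.cond_cond n1, FP.cond_cond n2]
      congr 1
      funext v
      refine propext ⟨fun hh => ?_, fun hh => ?_⟩
      · obtain ⟨h3, h4⟩ := hh
        obtain ⟨h5, h6⟩ := Prod.mk.inj h4
        have h7 := Zf_pub B' h6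
        have h9 := (Zf_iff B' h7.1 h7.2).1 h6
        refine ⟨hZx v w h6, h3, ?_⟩
        show (_, (_, _)) = (_, (_, _))
        rw [Prod.mk.injEq, Prod.mk.injEq]
        exact ⟨(Prod.mk.inj h9.1).2, (Prod.mk.inj h9.2).2, h5⟩
      · obtain ⟨h3, h4, h5⟩ := hh
        obtain ⟨h6, h7⟩ := Prod.mk.inj h5
        obtain ⟨h9, h10⟩ := Prod.mk.inj h7
        have hpt := h3.2
        rw [BB_eq] at hpt
        have hn : BB D t ∅ v = BB D t ∅ w := by
          rw [BB_eq]
          exact ⟨fun j hj => absurd hj (Finset.notMem_empty j), hpt.2⟩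
        refine ⟨h4, ?_⟩
        rw [Prod.mk.injEq]
        refine ⟨h10, (Zf_iff B' h3.1 hn).2 ⟨?_, ?_⟩⟩
        · unfold zf
          rw [Prod.mk.injEq]
          exact ⟨hpt.1 b hbI, h6⟩
        · unfold zf
          rw [Prod.mk.injEq]
          exact ⟨hpt.1 c hcI, h9⟩
    rw [hlaw]
    rw [div_mul_eq_mul_div, le_div_iff₀ (B.n1 d), mul_comm]
    exact h8
  have hcN : 0 ≤ 2 * N ∅ / N {d} := div_nonneg (mul_nonneg zero_le_two (B.nn ∅ B.s0)) (B.n1 d).le
  -- the mean over the event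
  have k1 : P.Pr V * Q.I (fun v => v.2.2 d) (Wf D U t) (Zf D U t d) ≤
      2 * N ∅ / N {d} * (P.E (fun w => ind (V w) * Real.log (1 / (R w).Pr fun v => V v ∧ L v = L w)) + P.Pr V) := by
    have k2 := (h1.trans h2).trans (Q.E_mono key)
    have k3 := mul_le_mul_of_nonneg_left k2 (P.Pr_nonneg V)
    refine k3.trans (le_of_eq ?_)
    rw [FP.E_smul, FP.E_add, FP.E_const, ← FP.Pr_mul_cond_E hV0]
    ring
  refine k1.trans (mul_le_mul_of_nonneg_left ?_ hcN)
  set K' : Pt K X β φ → ((Finset K → Option (υ × (K → Option φ))) × ((K → Option β) × (γ × (K → γ)))) × (υ × Prop) :=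
    fun v => ((le (LL U) ∅ v, BB D t I0 v), (U {b} v.1 v.2.1, E b v)) with hK'
  set G : Pt K X β φ → Option (υ × φ) := fun v => if E c v then some (U {c} v.1 v.2.1, v.2.2 d) else none with hG
  set rat : Pt K X β φ → ℝ := fun w => Real.log (P.m K' w / P.m (fun v => (G v, K' v)) w) with hrat
  have rat0 : ∀ w, P.p w ≠ 0 → 0 ≤ rat w := by
    intro w hw
    refine Real.log_nonneg ?_
    rw [le_div_iff₀ (P.m_pos _ hw), one_mul]
    exact P.m_anti (Fac.snd G K') w
  -- pointwise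
  have pt : ∀ w, P.p w ≠ 0 → V w → Real.log (1 / (R w).Pr fun v => V v ∧ L v = L w) = sur h U t E b w + rat w := by
    intro w hw hVw
    have x0 : P.Pr (xc D U t I0 w) ≠ 0 := xc_ne hw
    have x1 : 0 < P.Pr (xc D U t I0 w) := lt_of_le_of_ne (P.Pr_nonneg _) (Ne.symm x0)
    have a1 : (R w).Pr (E0w U E b w) = P.m K' w / P.Pr (xc D U t I0 w) := by
      show (P.cond (xc D U t I0 w)).Pr (E0w U E b w) = _
      rw [FP.cond_Pr x0]
      congr 1
      refine P.E_congr fun v _ => ?_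
      congr 1
      refine propext ⟨fun hh => ?_, fun hh => ?_⟩
      · exact pair_iff.2 ⟨xc_pair.2 hh.1, pair_iff.2 ⟨hh.2.2, propext ⟨fun _ => hVw.1, fun _ => hh.2.1⟩⟩⟩
      · obtain ⟨h3, h4⟩ := pair_iff.1 hh
        obtain ⟨h5, h6⟩ := pair_iff.1 h4
        exact ⟨xc_pair.1 h3, h6 ▸ hVw.1, h5⟩
    have a2 : (R w).Pr (fun v => V v ∧ L v = L w) = P.m (fun v => (G v, K' v)) w / P.Pr (xc D U t I0 w) := by
      show (P.cond (xc D U t I0 w)).Pr (fun v => V v ∧ L v = L w) = _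
      rw [FP.cond_Pr x0]
      congr 1
      refine P.E_congr fun v _ => ?_
      congr 1
      have gw : G w = some (U {c} w.1 w.2.1, w.2.2 d) := if_pos hVw.2.1
      refine propext ⟨fun hh => ?_, fun hh => ?_⟩
      · obtain ⟨h3, h4, h5⟩ := hh
        obtain ⟨h6, h7⟩ := pair_iff.1 (show ((U {b} v.1 v.2.1, (U {c} v.1 v.2.1, v.2.2 d)) : _ × _) = _ from h5)
        refine pair_iff.2 ⟨?_, pair_iff.2 ⟨xc_pair.2 h3, pair_iff.2 ⟨h6, propext ⟨fun _ => hVw.1, fun _ => h4.1⟩⟩⟩⟩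
        have gv : G v = some (U {c} v.1 v.2.1, v.2.2 d) := if_pos h4.2.1
        rw [gv, gw, h7]
      · obtain ⟨h3, h4⟩ := pair_iff.1 hh
        obtain ⟨h5, h6⟩ := pair_iff.1 h4
        obtain ⟨h7, h8⟩ := pair_iff.1 h6
        have hc : E c v := by
          by_contra hn
          have gv : G v = none := if_neg hn
          rw [gv, gw] at h3
          exact Option.some_ne_none _ h3.symm
        have gv : G v = some (U {c} v.1 v.2.1, v.2.2 d) := if_pos hc
        rw [gv, gw] at h3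
        exact ⟨xc_pair.1 h5, ⟨h8 ▸ hVw.1, hc, hEd v⟩, pair_iff.2 ⟨h7, Option.some.inj h3⟩⟩
    have m1 := P.m_pos K' hw
    have m2 := P.m_pos (fun v => (G v, K' v)) hw
    have e0 : sur h U t E b w = Real.log (1 / (R w).Pr (E0w U E b w)) := by
      unfold sur
      rw [← pr_two B hE hw]
    rw [e0, a1, a2]
    show _ = _ + Real.log (P.m K' w / P.m (fun v => (G v, K' v)) w)
    rw [← Real.log_mul (by positivity) (by positivity)]
    congr 1
    field_simp
  have hEb0 : P.Pr (E b) ≠ 0 := by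
    intro h0
    exact hV0 (le_antisymm (h0 ▸ P.Pr_mono fun w _ hw => hw.1) (P.Pr_nonneg _))
  -- the entropy of the addition
  have ent : P.E (fun w => ind (E b w) * rat w) ≤ P.Pr (E b) * Real.log (M * (1 / al) + 1) := by
    rw [← FP.Pr_mul_cond_E hEb0]
    refine mul_le_mul_of_nonneg_left ?_ (P.Pr_nonneg _)
    set Q1 := P.cond (E b) with hQ1
    have fK : Fac K' (E b) := by
      intro v w hvw
      exact (pair_iff.1 (pair_iff.1 hvw).2).2
    have e1 : Q1.E rat = Q1.Hc G K' := by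
      rw [Hc_eq_E_log]
      refine Q1.E_congr fun w hw => ?_
      have hEw := ((FP.cond_p_ne hEb0).1 hw).1
      rw [cond_m_of_fac hEb0 fK hEw, cond_m_of_fac hEb0 (Z := fun v => (G v, K' v)) ((Fac.snd _ _).trans fK) hEw,
        div_div_div_cancel_right₀ hEb0]
    rw [e1]
    refine Hc_le_card Q1 G K' fun w hw => ?_
    obtain ⟨s2, hs2, hs2'⟩ := hMc w (w.2.1 c)
    set s0 : Finset φ := univ.filter fun F => al ≤ D.kf t d w.1 w.2.1 F with hs0
    refine ⟨insert none ((s2 ×ˢ s0).image some), ?_, fun v hv hvw => ?_⟩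
    · have c1 : (insert none ((s2 ×ˢ s0).image some) : Finset (Option (υ × φ))).card ≤ (s2 ×ˢ s0).card + 1 :=
        (Finset.card_insert_le _ _).trans (Nat.add_le_add_right Finset.card_image_le 1)
      have c2 : ((insert none ((s2 ×ˢ s0).image some) : Finset (Option (υ × φ))).card : ℝ) ≤
          ((s2 ×ˢ s0).card : ℝ) + 1 := by exact_mod_cast c1
      refine c2.trans (add_le_add ?_ le_rfl)
      rw [Finset.card_product, Nat.cast_mul]
      exact mul_le_mul hs2 (poss_card (t := t) h d w.1 w.2.1) (Nat.cast_nonneg _) hM0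
    · have hpv := FP.cond_ac P (E b) v hv
      obtain ⟨h5, h6⟩ := pair_iff.1 hvw
      have hx := xc_pair.1 h5
      have hpt := hx.2
      rw [BB_eq] at hpt
      show (if E c v then some (U {c} v.1 v.2.1, v.2.2 d) else none) ∈ _
      by_cases hc : E c v
      · rw [if_pos hc]
        refine Finset.mem_insert_of_mem (Finset.mem_image_of_mem _ (Finset.mem_product.2
          ⟨hs2' v hpv (xc_of hx (xc_self U t ∅ w)) hc (hpt.1 c hcI), Finset.mem_filter.2 ⟨mem_univ _, ?_⟩⟩))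
        have h1 : D.kf t d v.1 v.2.1 (v.2.2 d) ≠ 0 := by
          intro h0
          refine hpv ?_
          show (∏ l, D.kf t l v.1 v.2.1 (v.2.2 l)) / _ = 0
          rw [Finset.prod_eq_zero (mem_univ d) h0, zero_div]
        have h2 : D.kf t d v.1 v.2.1 = D.kf t d v.1 w.2.1 :=
          D.dep t d v.1 _ _ (fun j hj => hpt.1 j (Finset.mem_erase.2 ⟨hj, mem_univ j⟩)) (hpt.2.2 d)
        rw [h2] at h1
        exact h.thick t d v.1 w.1 _ _ hpt.2.1 h1
      · rw [if_neg hc]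
        exact Finset.mem_insert_self _ _
  have last : P.E (fun w => ind (V w) * Real.log (1 / (R w).Pr fun v => V v ∧ L v = L w)) ≤
      P.E (fun w => ind (E b w) * sur h U t E b w) + P.E (fun w => ind (E b w) * rat w) := by
    rw [← P.E_add]
    refine P.E_mono fun w hw => ?_
    have r0 := rat0 w hw
    have s0 : 0 ≤ sur h U t E b w := sur_nn w
    by_cases hVw : V w
    · rw [ind_of hVw, ind_of (show E b w from hVw.1), one_mul, one_mul, one_mul, pt w hw hVw]
    · rw [ind_not hVw, zero_mul]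
      exact add_nonneg (mul_nonneg (ind_nonneg _) s0) (mul_nonneg (ind_nonneg _) r0)
  have hVE : P.Pr V ≤ P.Pr (E b) := P.Pr_mono fun w _ hw => hw.1
  linarith

end ow

end Pool.Agent.GMH
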