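import Pool.Agent.GMH.TriD

/-!
# GMH.TriV: the tuple law inside one bit of one vertex, all times (helper80; H3.REL R.5, products)

`W = ZQ D v (5 t + 5)`, law of the time `t + 1`, `Af` alive points of the final state.
* `TV_cls` : one class, price `prC (Lam + 1) n 26 2 (exp (-n)) e`;
* `H1_one` : the deviation at the final state, one time, price `prC (Lam + 1) n 38 2 (exp (-n)) e`;
* `TV_one`, `TV_sum` : `sum_t P (1_E 1_Af TV3) <= 26 NT sqrt ((log (MT / NT) + Lam + 1) / n) + 2 exp (-n) MT`.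
-/

set_option autoImplicit false
set_option linter.unusedSectionVars false

namespace Pool.Agent.GMH.TP

open Finset Pool.Agent.PWZ Pool.Agent.M3 Pool.Agent.GM Pool.Agent.GM.Harm Pool.Agent.GMH Pool.Agent.GMH.NZ
open Pool.Agent.GMH.V3

noncomputable section

namespace TriB

section run

variable {X β γ φ : Type} [Fintype X] [Fintype β] [Fintype φ] [Nonempty X] [Nonempty β]
variable {D : HD (Fin 3) X β γ φ} {al : ℝ} {h : D.Thick al} {v : ℕ → Finset (Fin 3) → X → (Fin 3 → β) → Pt (Fin 3) X β φ}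
variable {t : ℕ} {b c d : Fin 3} {w0 : Pt (Fin 3) X β φ} {n N1 X0 Lam : ℝ}
variable {dg : ℕ → X → ℝ} {prr : ℕ → Fin 3 → φ → φ} {T : ℕ} {E Af : Pt (Fin 3) X β φ → Prop}

/-- **THE TUPLE LAW INSIDE THE BIT**, one class -/
theorem TV_cls (p : Par n N1 X0 Lam) (ha : Real.exp (-Lam) ≤ al) (ha1 : al ≤ 1)
    (B : Bk h (pr3 (Fin 3) n N1) (SS1 (Fin 3)) (Um v (t + 2)) (t + 1) b c d)
    (hAf : Fac (ZQ (φ := φ) D v (5 * t + 5)) Af)
    (hA : ∀ w, (D.P h (t + 1)).p w ≠ 0 → Af w → ∀ i, ssQ h v (5 * t + 5) i w ≤ X0)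
    (hE : Fac (Ah D (t + 1) {b}) E) (hw : (D.P h (t + 1)).p w0 ≠ 0) (hEw : E w0) :
    (D.P h (t + 1)).E (fun w => ind (TriS.Cb D (Um v (t + 2)) (t + 1) b w = TriS.Cb D (Um v (t + 2)) (t + 1) b w0 ∧
        E w) * (ind (Af w) * TV3 (D.P h (t + 1)) (Zo D (Um v (t + 2)) (t + 1)) Fc (ZQ D v (5 * t + 5)) w)) ≤
      (D.P h (t + 1)).Pr (fun w => TriS.Cb D (Um v (t + 2)) (t + 1) b w = TriS.Cb D (Um v (t + 2)) (t + 1) b w0 ∧ E w) *
        TriE.prC (Lam + 1) n 26 2 (Real.exp (-n))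
          ((D.P h (t + 1)).ce (TriS.Cb D (Um v (t + 2)) (t + 1) b) (fun w => ind (E w)) w0) := by
  have I := Ib_run B hE hw hEw
  refine le_mul_prC ?_ fun he => ?_
  · have e0 : (D.P h (t + 1)).Pr (fun w => TriS.Cb D (Um v (t + 2)) (t + 1) b w =
        TriS.Cb D (Um v (t + 2)) (t + 1) b w0 ∧ E w) * 2 = (D.P h (t + 1)).E (fun w => 2 * ind (TriS.Cb D (Um v (t + 2))
          (t + 1) b w = TriS.Cb D (Um v (t + 2)) (t + 1) b w0 ∧ E w)) := by
      rw [FP.E_smul, mul_comm]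
      rfl
    rw [e0]
    refine FP.E_mono _ fun w hw' => ?_
    rw [mul_comm]
    refine mul_le_mul_of_nonneg_right ?_ (ind_nonneg _)
    have h1 := TV3_le_two (P := D.P h (t + 1)) (Zb := Zo D (Um v (t + 2)) (t + 1)) (F := Fc) (W := ZQ D v (5 * t + 5)) hw'
    have h2 := TV3_nonneg (P := D.P h (t + 1)) (Zb := Zo D (Um v (t + 2)) (t + 1)) (F := Fc) (W := ZQ D v (5 * t + 5)) w
    exact (mul_le_of_le_one_left h2 (ind_le_one _)).trans h1
  have e1 := ce_QC B hE hw hEw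
  obtain ⟨l0, ln⟩ := lg_e he (ce_one w0 hw)
  have hcls : ∀ w, (TriS.Cb D (Um v (t + 2)) (t + 1) b w = TriS.Cb D (Um v (t + 2)) (t + 1) b w0 ∧ E w) →
      clsb (Um v (t + 2)) (pub0 D (t + 1) (Um v (t + 2)) w0) b w0 w := I.sub
  by_cases hd : ssQ h v (5 * t + 5) b w0 ≤ X0
  · have s0 : 0 ≤ ssQ h v (5 * t + 5) b w0 := by
      rw [ssQ_at (5 * t + 5) b w0 (t + 1)]
      exact sp_nonneg _ _ _ hw
    have k1 : Lb h (Um v (t + 2)) (t + 1) b w0
        (fun w => TriS.Cb D (Um v (t + 2)) (t + 1) b w = TriS.Cb D (Um v (t + 2)) (t + 1) b w0 ∧ E w) ≤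
        ssQ h v (5 * t + 5) b w0 + Real.log (1 / (D.P h (t + 1)).ce (TriS.Cb D (Um v (t + 2)) (t + 1) b)
          (fun w => ind (E w)) w0) := by
      rw [Lb_eq I, e1]
    have k2 : Real.log (1 / (QC h (Um v (t + 2)) (t + 1) b w0).Pr
        (fun w => TriS.Cb D (Um v (t + 2)) (t + 1) b w = TriS.Cb D (Um v (t + 2)) (t + 1) b w0 ∧ E w)) ≤
        Real.log (1 / (D.P h (t + 1)).ce (TriS.Cb D (Um v (t + 2)) (t + 1) b) (fun w => ind (E w)) w0) := by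
      rw [e1]
    obtain ⟨-, -, m1, m2⟩ := eM p.x1
    obtain ⟨⟨a1, a2⟩, ⟨b1, b2⟩, b3, b4⟩ := lgs (X0 := X0) ha ha1 m1 m2
    have o1 := p.ok l0 ln (add_nonneg s0 l0) (add_le_add_left hd _) a1 a2 b1 b2
    have hn := p.n2
    have k3 := TV3_bit B I (Wb_run (w0 := w0) B) (Tf_card (h := h) (v := v) (t := t) X0 w0) k1 k2
      (R0 := 3 * n) (ep := 1 / (2 * n)) (TriN.kk0 hn) (by positivity) (by
        rw [div_le_div_iff₀ (by linarith) (by norm_num)]; linarith) (by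
        rw [one_div_one_div]
        have := Real.log_le_sub_one_of_pos (show 0 < 2 * n by linarith)
        linarith) (by linarith [p.Ln]) (by
        rw [pr3_1, pr3_2]
        exact o1.hkR) (aa_fac (c := c) (d := d) (w0 := w0) (X0 := X0) (h := h) hAf) aa_0 aa_1
      (fun w _ hh => (aa_typ hh).1) (fun w _ hh => (aa_typ hh).2)
    have e2 : (D.P h (t + 1)).E (fun w => ind (TriS.Cb D (Um v (t + 2)) (t + 1) b w =
        TriS.Cb D (Um v (t + 2)) (t + 1) b w0 ∧ E w) * (ind (Af w) *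
          TV3 (D.P h (t + 1)) (Zo D (Um v (t + 2)) (t + 1)) Fc (ZQ D v (5 * t + 5)) w)) =
        (D.P h (t + 1)).E (fun w => ind (TriS.Cb D (Um v (t + 2)) (t + 1) b w =
        TriS.Cb D (Um v (t + 2)) (t + 1) b w0 ∧ E w) * (aa h v X0 t c d w0 Af w *
          TV3 (D.P h (t + 1)) (Zo D (Um v (t + 2)) (t + 1)) Fc (ZQ D v (5 * t + 5)) w)) := by
      refine (D.P h (t + 1)).E_congr fun w hw' => ?_
      by_cases hV : TriS.Cb D (Um v (t + 2)) (t + 1) b w = TriS.Cb D (Um v (t + 2)) (t + 1) b w0 ∧ E w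
      · rw [aa_eq hw' (hcls w hV) (hA w hw')]
      · rw [ind_not hV, zero_mul, zero_mul]
    rw [e2]
    refine k3.trans (mul_le_mul_of_nonneg_left ?_ (FP.Pr_nonneg _ _))
    have s1 := sw0_le (b := b) (c := c) (d := d) p ha ha1 l0 ln (add_nonneg s0 l0) (add_le_add_left hd _)
    have s2 := dl2_le (c := c) (d := d) p ha ha1 m1 m2 l0 ln (add_nonneg s0 l0) (add_le_add_left hd _)
    rw [← add_assoc]
    linarith
  · have e2 : (D.P h (t + 1)).E (fun w => ind (TriS.Cb D (Um v (t + 2)) (t + 1) b w =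
        TriS.Cb D (Um v (t + 2)) (t + 1) b w0 ∧ E w) * (ind (Af w) *
          TV3 (D.P h (t + 1)) (Zo D (Um v (t + 2)) (t + 1)) Fc (ZQ D v (5 * t + 5)) w)) =
        (D.P h (t + 1)).E (fun _ => 0) := by
      refine (D.P h (t + 1)).E_congr fun w hw' => ?_
      by_cases hV : TriS.Cb D (Um v (t + 2)) (t + 1) b w = TriS.Cb D (Um v (t + 2)) (t + 1) b w0 ∧ E w
      · rw [ind_not (dead_cls hA hd hw' (hcls w hV)), zero_mul, mul_zero]
      · rw [ind_not hV, zero_mul]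
    rw [e2, FP.E_const]
    exact mul_nonneg (FP.Pr_nonneg _ _) (mul_nonneg (by norm_num) (Real.sqrt_nonneg _))

/-- **the deviation at the final state, one time** -/
theorem H1_one (p : Par n N1 X0 Lam) (ha : Real.exp (-Lam) ≤ al) (ha1 : al ≤ 1)
    (B : Bk h (pr3 (Fin 3) n N1) (SS1 (Fin 3)) (Um v (t + 2)) (t + 1) b c d)
    (hAf : Fac (ZQ (φ := φ) D v (5 * t + 5)) Af)
    (hA : ∀ w, (D.P h (t + 1)).p w ≠ 0 → Af w → ∀ i, ssQ h v (5 * t + 5) i w ≤ X0)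
    (hE : Fac (Ah D (t + 1) {b}) E) {g : Pt (Fin 3) X β φ → ℝ} (hg : Fac (fun w => (w.2.2, ZQ D v (5 * t + 5) w)) g)
    (hb : ∀ w, |g w| ≤ 1) :
    |(D.P h (t + 1)).E (fun w => ind (E w) * (ind (Af w) * (g w - (D.P h (t + 1)).ce (ZQ D v (5 * t + 5)) g w)))| ≤
      (D.P h (t + 1)).E (fun w => ind (E w) * TriE.prC (Lam + 1) n 38 2 (Real.exp (-n)) (eb h v t b E w)) := by
  refine TriA.sum_cls (D.P h (t + 1)) (TriS.Cb D (Um v (t + 2)) (t + 1) b) E _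
    (fun w => TriE.prC (Lam + 1) n 38 2 (Real.exp (-n)) (eb h v t b E w))
    (((D.P h (t + 1)).ce_fac _ _).comp fun x => TriE.prC (Lam + 1) n 38 2 (Real.exp (-n)) x) fun w0 h0 => ?_
  obtain ⟨w1, h1, h2, h3⟩ := pick h0
  have k := H1_cls (w0 := w1) p ha ha1 B hAf hA hE h1 h2 hg hb
  rw [h3] at k
  have e1 : eb h v t b E w0 = eb h v t b E w1 := (D.P h (t + 1)).ce_fac _ _ w0 w1 h3.symm
  rw [e1]
  exact k

/-- one time -/
theorem TV_one (p : Par n N1 X0 Lam) (ha : Real.exp (-Lam) ≤ al) (ha1 : al ≤ 1)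
    (B : Bk h (pr3 (Fin 3) n N1) (SS1 (Fin 3)) (Um v (t + 2)) (t + 1) b c d)
    (hAf : Fac (ZQ (φ := φ) D v (5 * t + 5)) Af)
    (hA : ∀ w, (D.P h (t + 1)).p w ≠ 0 → Af w → ∀ i, ssQ h v (5 * t + 5) i w ≤ X0)
    (hE : Fac (Ah D (t + 1) {b}) E) :
    (D.P h (t + 1)).E (fun w => ind (E w) * (ind (Af w) *
      TV3 (D.P h (t + 1)) (Zo D (Um v (t + 2)) (t + 1)) Fc (ZQ D v (5 * t + 5)) w)) ≤
      (D.P h (t + 1)).E (fun w => ind (E w) * TriE.prC (Lam + 1) n 26 2 (Real.exp (-n)) (eb h v t b E w)) := by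
  refine le_trans (le_abs_self _) (TriA.sum_cls (D.P h (t + 1)) (TriS.Cb D (Um v (t + 2)) (t + 1) b) E _
    (fun w => TriE.prC (Lam + 1) n 26 2 (Real.exp (-n)) (eb h v t b E w))
    (((D.P h (t + 1)).ce_fac _ _).comp fun x => TriE.prC (Lam + 1) n 26 2 (Real.exp (-n)) x) fun w0 h0 => ?_)
  obtain ⟨w1, h1, h2, h3⟩ := pick h0
  have k := TV_cls (w0 := w1) p ha ha1 B hAf hA hE h1 h2
  rw [h3] at k
  have e1 : eb h v t b E w0 = eb h v t b E w1 := (D.P h (t + 1)).ce_fac _ _ w0 w1 h3.symm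
  rw [abs_of_nonneg (FP.E_nonneg _ fun w _ => mul_nonneg (ind_nonneg _) (mul_nonneg (ind_nonneg _) (TV3_nonneg w))), e1]
  exact k

/-- **ALL TIMES** -/
theorem TV_sum (p : Par n N1 X0 Lam) (H : D.Hyp dg prr al T Lam)
    (R : Run h (pr3 (Fin 3) n N1) (SS1 (Fin 3)) (AdmDep D) v) (b : Fin 3) {Af E Rm : ℕ → Pt (Fin 3) X β φ → Prop}
    (hAf : ∀ t < T, Fac (ZQ (φ := φ) D v (5 * t + 5)) (Af t))
    (hA : ∀ t < T, ∀ w, (D.P h (t + 1)).p w ≠ 0 → Af t w → ∀ i, ssQ h v (5 * t + 5) i w ≤ X0)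
    (hE : ∀ t < T, Fac (Ah D (t + 1) {b}) (E t))
    (hRm : ∀ t < T, Fac (TriS.Cb D (Um v (t + 2)) (t + 1) b) (Rm t)) (hER : ∀ t < T, ∀ w, E t w → Rm t w)
    {NT MT : ℝ} (hNT : ∑ t ∈ range T, (D.P h t).Pr (E t) ≤ NT) (hMT : ∑ t ∈ range T, (D.P h t).Pr (Rm t) ≤ MT)
    (hNM : NT ≤ MT) :
    ∑ t ∈ range T, (D.P h (t + 1)).E (fun w => ind (E t w) * (ind (Af t w) *
      TV3 (D.P h (t + 1)) (Zo D (Um v (t + 2)) (t + 1)) Fc (ZQ D v (5 * t + 5)) w)) ≤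
      26 * (NT * Real.sqrt ((Real.log (MT / NT) + (Lam + 1)) / n)) + 2 * Real.exp (-n) * MT := by
  have xE : ∀ t < T, XY (E t) := fun t ht x y F F' => hE t ht _ _ rfl
  have xR : ∀ t < T, XY (Rm t) := fun t ht x y F F' => hRm t ht _ _ (Cb_xy _ _ _ x y F F')
  have n0 : 0 < n := by linarith [p.n2]
  have hn1 : 1 ≤ n := by linarith [p.n2]
  obtain ⟨c, d, bc, bd, cd⟩ := vert b
  refine le_trans (Finset.sum_le_sum fun t ht => TV_one (b := b) (c := c) (d := d) p H.alL (hal_one h b)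
    (Bk_run hn1 p.N1' R bc bd cd (t + 1)) (hAf t (Finset.mem_range.1 ht)) (hA t (Finset.mem_range.1 ht))
    (hE t (Finset.mem_range.1 ht))) ?_
  refine TriE.sum_times (T := T) (fun t => D.P h (t + 1)) (fun t => TriS.Cb D (Um v (t + 2)) (t + 1) b) E Rm
    (fun t w => TriE.prC (Lam + 1) n 26 2 (Real.exp (-n)) (eb h v t b (E t) w))
    (fun t _ => ((D.P h (t + 1)).ce_fac _ _).comp fun x => TriE.prC (Lam + 1) n 26 2 (Real.exp (-n)) x)
    hRm (fun t ht w _ hw => hER t ht w hw) (by linarith [p.L1]) n0 (by norm_num) (by norm_num) (Real.exp_pos _).le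
    (fun t _ w _ _ => le_refl _) ?_ ?_ hNM
  · refine le_trans (le_of_eq (Finset.sum_congr rfl fun t ht => ?_)) hNT
    exact Pr_xy' (xE t (Finset.mem_range.1 ht)) (t + 1) t
  · refine le_trans (le_of_eq (Finset.sum_congr rfl fun t ht => ?_)) hMT
    exact Pr_xy' (xR t (Finset.mem_range.1 ht)) (t + 1) t

end run

end TriB

end

end Pool.Agent.GMH.TP
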