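import Pool.Agent.GMH.BitOwU
import Pool.Agent.GMH.TriV

/-!
# GMH.BitOwR: the price of a union of bits at a joint step, all times (helper56; gm row H3.REL, R.5, R.6)

Joint step of all letters (`5 t + 5 <= qe s t`: `s = 1` and the private step), `Bt` = `z` (bit of the hidden point) or one
of the bits `E j` of the vertices, on the points which stay alive; `Rm j` = removals, functions of the own class `Cb`.
* `un_one` : one time;
* `un_sum` : **deviations `Dv` with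
  `sum Dv <= 4 P(dead) + 400 NT sqrt ((log (MT / NT) + Lam + 1) / n) + 20 exp (-n) MT`**.
-/

set_option autoImplicit false
set_option linter.unusedSectionVars false

namespace Pool.Agent.GMH.TP

open Finset Pool.Agent.PWZ Pool.Agent.M3 Pool.Agent.GM Pool.Agent.GM.Harm Pool.Agent.GMH Pool.Agent.GMH.NZ
open Pool.Agent.GMH.V3

noncomputable section

namespace TriB

section run

variable {X β γ φ : Type} [Fintype X] [Fintype β] [Fintype φ] [Nonempty X] [Nonempty β]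
variable {D : HD (Fin 3) X β γ φ} {al : ℝ} {h : D.Thick al} {v : ℕ → Finset (Fin 3) → X → (Fin 3 → β) → Pt (Fin 3) X β φ}
variable {t : ℕ} {b c d : Fin 3} {n N1 X0 Lam : ℝ}
variable {dg : ℕ → X → ℝ} {prr : ℕ → Fin 3 → φ → φ} {T : ℕ} {A z : Pt (Fin 3) X β φ → Prop}
  {E Rm : Fin 3 → Pt (Fin 3) X β φ → Prop}

/-- the surprise of the final own letter is a function of (hidden point, point) -/
theorem ss_Ah (B : Bk h (pr3 (Fin 3) n N1) (SS1 (Fin 3)) (Um v (t + 2)) (t + 1) b c d) (j : Fin 3) :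
    Fac (Ah D (t + 1) ({j} : Finset (Fin 3))) (ssQ (φ := φ) h v (5 * t + 5) j) := by
  intro a e hae
  have hae' : (a.1, BB D (t + 1) {j} a) = (e.1, BB D (t + 1) {j} e) := hae
  obtain ⟨h1, h2⟩ := pair_iff.1 hae'
  rw [BB_eq] at h2
  have h3 : ∀ J : Finset (Fin 3), (∀ i ∈ J, i = j) → Um v (t + 2) J a.1 a.2.1 = Um v (t + 2) J e.1 e.2.1 := by
    intro J hJ
    rw [h1]
    exact B.dep J e.1 a.2.1 e.2.1 (fun i hi => by
      rw [hJ i hi]; exact h2.1 j (Finset.mem_singleton_self j)) h2.2.2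
  have hy : a.2.1 j = e.2.1 j := h2.1 j (Finset.mem_singleton_self j)
  have hX : XLq v (5 * t + 5) j a = XLq v (5 * t + 5) j e := by
    unfold XLq XL
    rw [nc_5 (by unfold pth; simp)]
    exact pair_iff.2 ⟨hy, h3 {j} fun i hi => Finset.mem_singleton.1 hi⟩
  have hN : NPq D v (5 * t + 5) a = NPq D v (5 * t + 5) e := by
    rw [NPq_5]
    refine ⟨h3 ∅ fun i hi => absurd hi (Finset.notMem_empty i), ?_⟩
    unfold nd
    exact pair_iff.2 ⟨h2.2.1, funext h2.2.2⟩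
  rw [ssQ_at (5 * t + 5) j a (t + 1), ssQ_at (5 * t + 5) j e (t + 1)]
  exact sp_fac _ _ _ a e (pair_iff.2 ⟨hX, pair_iff.2 ⟨hy, hN⟩⟩)

/-- the bits with typical letters in their own classes -/
theorem Ow_run (j : Fin 3) {E' : Fin 3 → Pt (Fin 3) X β φ → Prop} (hE' : ∀ w, E' j w → E j w ∧ ssQ h v (5 * t + 5) j w ≤ X0)
    (hRm : Fac (TriS.Cb D (Um v (t + 2)) (t + 1) j) (Rm j)) (hER : ∀ w, E j w → Rm j w) :
    Ow h (Um v (t + 2)) (t + 1) E' Rm X0 (Real.exp X0) j where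
  fR := hRm
  ER := fun w _ hw => hER w (hE' w hw).1
  ty := by
    intro w hw hEw
    refine le_trans (le_of_eq ?_) (hE' w hEw).2
    rw [← own_ss hw]
    congr 2
    refine FP.E_congr _ fun u hu => ?_
    have hx := QB_supp hw hu
    congr 1
    refine propext ⟨fun hh => ?_, fun hh => hh.2.2⟩
    refine clsb_iff.2 ⟨?_, xc_iff.1 hx⟩
    unfold XLq XL
    rw [nc_5 (by unfold pth; simp)]
    exact pair_iff.2 ⟨(xc_iff.1 hx).1, hh⟩
  le := by
    intro w0 c'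
    obtain ⟨s, h1, h2⟩ := Ty_card (h := h) (v := v) (t := t) X0 (5 * t + 5) j w0 c'
    refine ⟨s, h1, fun u hu hx hEu hc => h2 _ ⟨u, hu, ?_, hc, ?_, (hE' u hEu).2⟩⟩
    · rw [NPq_5]
      have hx1 := hx.1
      have hx2 := hx.2
      rw [BB_eq] at hx2
      rw [le_eq] at hx1
      refine ⟨(LL_eq.1 (hx1 ∅ (Finset.Subset.refl _))).1, ?_⟩
      unfold nd
      exact pair_iff.2 ⟨hx2.2.1, funext hx2.2.2⟩
    · rw [nc_5 (by unfold pth; simp)]

/-- the final thin labels from all thin letters -/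
theorem W_Wf (B : Bk h (pr3 (Fin 3) n N1) (SS1 (Fin 3)) (Um v (t + 2)) (t + 1) b c d) :
    Fac (Wf D (Um v (t + 2)) (t + 1)) (ZQ (φ := φ) D v (5 * t + 5)) := by
  intro a e hae
  unfold Wf at hae
  obtain ⟨h1, h2⟩ := pair_iff.1 hae
  obtain ⟨h3, h4⟩ := pair_iff.1 h1
  have hz : ∀ j, a.2.1 j = e.2.1 j ∧ Um v (t + 2) {j} a.1 a.2.1 = Um v (t + 2) {j} e.1 e.2.1 := by
    intro j
    have h5 : zf (Um v (t + 2)) j a = zf (Um v (t + 2)) j e := congrFun h2 j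
    unfold zf at h5
    exact pair_iff.1 h5
  rw [le_eq] at h3
  rw [BB_eq] at h4
  refine ZQ_5.2 ⟨fun J hJ => ?_, funext fun j => (hz j).1, ?_⟩
  · rcases pth_cases B.bc B.bd B.cd hJ with rfl | rfl | rfl | rfl
    · exact h3 ∅ (Finset.Subset.refl _)
    · rw [LL_thin (by unfold pth; simp)]; exact (hz _).2
    · rw [LL_thin (by unfold pth; simp)]; exact (hz _).2
    · rw [LL_thin (by unfold pth; simp)]; exact (hz _).2
  · unfold nd
    exact pair_iff.2 ⟨h4.2.1, funext h4.2.2⟩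

theorem pairN {n N1 X0 Lam al : ℝ} (p : Par n N1 X0 Lam) (ha : Real.exp (-Lam) ≤ al) (ha1 : al ≤ 1) :
    n * (X0 + Real.log (Real.exp X0 * (1 / al) + 1) + 1) ≤ N1 ∧ n ≤ N1 ∧ X0 + 1 ≤ N1 := by
  have ha0 : 0 < al := (Real.exp_pos _).trans_le ha
  have hn := p.n2
  have hx := p.x1
  have hL := p.Ln
  obtain ⟨m1, m2, -, -⟩ := eM p.x1
  have hM1 : 1 ≤ Real.exp X0 := Real.one_le_exp (by linarith)
  obtain ⟨-, -, l1, l2⟩ := lgs (X0 := X0) (M := Real.exp X0) ha ha1 hM1 (by linarith)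
  have e1 : Real.log (Real.exp X0 * (1 / al) + 1) ≤ X0 + 3 + Lam := by
    refine le_trans (Real.log_le_log (by positivity) ?_) l2
    rw [mul_add, mul_one]
    linarith
  have n5 : n ^ 5 = n * n ^ 4 := by ring
  have n4 : n ≤ n ^ 4 := by
    calc n = n ^ 1 := (pow_one n).symm
      _ ≤ n ^ 4 := pow_le_pow_right₀ (by linarith) (by norm_num)
  have n4' : 2 ≤ n ^ 4 := hn.trans n4
  have k1 : X0 + (X0 + 3 + Lam) + 1 ≤ 30 * n ^ 4 * X0 := by
    have h1 : Lam ≤ n ^ 4 * X0 := (hL.trans n4).trans (le_mul_of_one_le_right (by linarith) hx)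
    have h2 : X0 ≤ n ^ 4 * X0 := le_mul_of_one_le_left (by linarith) (by linarith)
    have h3 : 1 ≤ n ^ 4 * X0 := by linarith
    nlinarith
  have k2 : n * (X0 + (X0 + 3 + Lam) + 1) ≤ N1 := by
    refine (mul_le_mul_of_nonneg_left k1 (by linarith)).trans (le_trans (le_of_eq ?_) p.N)
    ring
  have k3 : n * 1 ≤ n * (X0 + (X0 + 3 + Lam) + 1) := mul_le_mul_of_nonneg_left (by linarith [p.L1]) (by linarith)
  have k4 : 1 * (X0 + (X0 + 3 + Lam) + 1) ≤ n * (X0 + (X0 + 3 + Lam) + 1) :=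
    mul_le_mul_of_nonneg_right (by linarith) (by linarith [p.L1])
  refine ⟨(mul_le_mul_of_nonneg_left (by linarith) (by linarith)).trans k2, by linarith, by linarith [p.L1]⟩

/-- the bit of the vertex `j`, alone and with a typical letter -/
def Ej (h : D.Thick al) (v : ℕ → Finset (Fin 3) → X → (Fin 3 → β) → Pt (Fin 3) X β φ) (X0 : ℝ) (t : ℕ)
    (z : Pt (Fin 3) X β φ → Prop) (E : Fin 3 → Pt (Fin 3) X β φ → Prop) (j : Fin 3) (w : Pt (Fin 3) X β φ) : Prop :=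
  (E j w ∧ ssQ h v (5 * t + 5) j w ≤ X0) ∧ ¬ z w

/-- price of one time -/
def Dt (h : D.Thick al) (v : ℕ → Finset (Fin 3) → X → (Fin 3 → β) → Pt (Fin 3) X β φ) (n Lam X0 : ℝ) (t : ℕ)
    (z : Pt (Fin 3) X β φ → Prop) (E Rm : Fin 3 → Pt (Fin 3) X β φ → Prop) : ℝ :=
  (D.P h (t + 1)).E (fun w => ind (z w) * TriE.prC (Lam + 1) n 38 2 (Real.exp (-n)) (eb h v t 0 z w)) +
  (∑ j, (D.P h (t + 1)).E (fun w => ind (Ej h v X0 t z E j w) *
    TriE.prC (Lam + 1) n 38 2 (Real.exp (-n)) (eb h v t j (Ej h v X0 t z E j) w))) +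
  (3 * (D.P h (t + 1)).E (fun w => ind (Ej h v X0 t z E 0 w) *
    TriE.prC (Lam + 1) n 26 2 (Real.exp (-n)) (eb h v t 0 (Ej h v X0 t z E 0) w)) +
  (D.P h (t + 1)).E (fun w => ind (Ej h v X0 t z E 1 w) *
    TriE.prC (Lam + 1) n 26 2 (Real.exp (-n)) (eb h v t 1 (Ej h v X0 t z E 1) w))) +
  12 * ∑ j, ro h (t + 1) n (1 + 2 * Real.log (1 / al + 1)) (Rm j) (Ej h v X0 t z E j)

/-- **ONE TIME, final state** -/
theorem un_fin (p : Par n N1 X0 Lam) (ha : Real.exp (-Lam) ≤ al)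
    (R : Run h (pr3 (Fin 3) n N1) (SS1 (Fin 3)) (AdmDep D) v) {Af : Pt (Fin 3) X β φ → Prop}
    (hAf : Fac (ZQ (φ := φ) D v (5 * t + 5)) Af)
    (hA : ∀ w, (D.P h (t + 1)).p w ≠ 0 → Af w → ∀ i, ssQ h v (5 * t + 5) i w ≤ X0)
    (hz : Fac (Ah D (t + 1) (∅ : Finset (Fin 3))) z) (hE : ∀ j, Fac (Ah D (t + 1) {j}) (E j))
    (hRm : ∀ j, Fac (TriS.Cb D (Um v (t + 2)) (t + 1) j) (Rm j)) (hER : ∀ j w, E j w → Rm j w)
    {g : Pt (Fin 3) X β φ → ℝ} (hg : Fac (fun w => (w.2.2, ZQ D v (5 * t + 5) w)) g) (hb : ∀ w, |g w| ≤ 1) :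
    |(D.P h (t + 1)).E (fun w => ind (z w ∨ ∃ j, E j w) * (ind (Af w) *
      (g w - (D.P h (t + 1)).ce (ZQ D v (5 * t + 5)) g w)))| ≤ Dt h v n Lam X0 t z E Rm := by
  classical
  obtain ⟨w1, -⟩ := (D.P h (t + 1)).exists_p_ne
  have hn1 : 1 ≤ n := by linarith [p.n2]
  have ha1 : al ≤ 1 := hal_one h (0 : Fin 3)
  obtain ⟨q1, q2, q3⟩ := pairN p ha ha1
  have B : Bk h (pr3 (Fin 3) n N1) (SS1 (Fin 3)) (Um v (t + 2)) (t + 1) 0 1 2 :=
    Bk_run hn1 p.N1' R (by decide) (by decide) (by decide) (t + 1)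
  have hBj : ∀ j : Fin 3, ∃ c d, Bk h (pr3 (Fin 3) n N1) (SS1 (Fin 3)) (Um v (t + 2)) (t + 1) j c d := by
    intro j
    obtain ⟨c, d, bc, bd, cd⟩ := vert j
    exact ⟨c, d, Bk_run hn1 p.N1' R bc bd cd (t + 1)⟩
  have hzj : ∀ j : Fin 3, Fac (Ah D (t + 1) ({j} : Finset (Fin 3))) z := by
    intro j a e hae
    refine hz a e ?_
    have hae' : (a.1, BB D (t + 1) {j} a) = (e.1, BB D (t + 1) {j} e) := hae
    obtain ⟨h1, h2⟩ := pair_iff.1 hae'
    rw [BB_eq] at h2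
    refine pair_iff.2 ⟨h1, ?_⟩
    rw [BB_eq]
    exact ⟨fun i hi => absurd hi (Finset.notMem_empty i), h2.2⟩
  set E1 : Fin 3 → Pt (Fin 3) X β φ → Prop := fun j w => E j w ∧ ssQ h v (5 * t + 5) j w ≤ X0 with hE1
  have hEj : ∀ j, Fac (Ah D (t + 1) ({j} : Finset (Fin 3))) (fun w => E1 j w ∧ ¬ z w) := by
    intro j a e hae
    have h1 : E j a = E j e := hE j a e hae
    have h2 : ssQ h v (5 * t + 5) j a = ssQ h v (5 * t + 5) j e := ss_Ah B j a e hae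
    have h3 : z a = z e := hzj j a e hae
    show ((E j a ∧ ssQ h v (5 * t + 5) j a ≤ X0) ∧ ¬ z a) = ((E j e ∧ ssQ h v (5 * t + 5) j e ≤ X0) ∧ ¬ z e)
    rw [h1, h2, h3]
  have o : ∀ j, Ow h (Um v (t + 2)) (t + 1) (fun j w => E1 j w ∧ ¬ z w) Rm X0 (Real.exp X0) j := fun j =>
    Ow_run (E := E) j (fun w hw => hw.1) (hRm j) (hER j)
  have k := un_ow (h := h) (E := E1) (R := Rm) (z := z) (W := ZQ D v (5 * t + 5)) (a := fun w => ind (Af w)) (g := g)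
    (s0 := (D.P h (t + 1)).E (fun w => ind (z w) * TriE.prC (Lam + 1) n 38 2 (Real.exp (-n)) (eb h v t 0 z w)))
    (s := fun j => (D.P h (t + 1)).E (fun w => ind (Ej h v X0 t z E j w) *
      TriE.prC (Lam + 1) n 38 2 (Real.exp (-n)) (eb h v t j (Ej h v X0 t z E j) w)))
    (T := fun j => (D.P h (t + 1)).E (fun w => ind (Ej h v X0 t z E j w) *
      TriE.prC (Lam + 1) n 26 2 (Real.exp (-n)) (eb h v t j (Ej h v X0 t z E j) w)))
    B (by simp) hn1 (Real.exp_pos X0).le q1 q2 q3 hEj o (Wb_run (w0 := w1) B).zb (W_Wf B)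
    (hAf.comp fun q => ind q) (fun _ => ind_nonneg _) (fun _ => ind_le_one _) hg hb
    (H1_one p ha ha1 B hAf hA (hzj 0) hg hb)
    (fun j => by
      obtain ⟨c, d, Bj⟩ := hBj j
      exact H1_one p ha ha1 Bj hAf hA (hEj j) hg hb)
    (fun j => by
      obtain ⟨c, d, Bj⟩ := hBj j
      exact TV_one p ha ha1 Bj hAf hA (hEj j))
  have e : (D.P h (t + 1)).E (fun w => ind (z w ∨ ∃ j, E j w) * (ind (Af w) *
      (g w - (D.P h (t + 1)).ce (ZQ D v (5 * t + 5)) g w))) =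
      (D.P h (t + 1)).E (fun w => ind (z w ∨ E1 0 w ∨ E1 1 w ∨ E1 2 w) * (ind (Af w) *
      (g w - (D.P h (t + 1)).ce (ZQ D v (5 * t + 5)) g w))) := by
    refine FP.E_congr _ fun w hw => ?_
    by_cases hAw : Af w
    · have h1 : (z w ∨ ∃ j, E j w) = (z w ∨ E1 0 w ∨ E1 1 w ∨ E1 2 w) := by
        refine propext ⟨fun hh => ?_, fun hh => ?_⟩
        · rcases hh with hh | ⟨j, hj⟩
          · exact Or.inl hh
          · right
            have h2 : E1 j w := ⟨hj, hA w hw hAw j⟩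
            fin_cases j
            · exact Or.inl h2
            · exact Or.inr (Or.inl h2)
            · exact Or.inr (Or.inr h2)
        · rcases hh with hh | hh | hh | hh
          · exact Or.inl hh
          · exact Or.inr ⟨0, hh.1⟩
          · exact Or.inr ⟨1, hh.1⟩
          · exact Or.inr ⟨2, hh.1⟩
      rw [h1]
    · rw [ind_not hAw, zero_mul, mul_zero, mul_zero]
  rw [e]
  refine k.trans (le_of_eq ?_)
  unfold Dt
  rw [Fin.sum_univ_three, Fin.sum_univ_three]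
  rfl

/-- **ONE TIME** -/
theorem un_one {ap : AP} (p : Par n N1 ap.X0 Lam) (H : D.Hyp dg prr al T Lam)
    (R : Run h (pr3 (Fin 3) n N1) (SS1 (Fin 3)) (AdmDep D) v) (ht : t < T) (s : Fin 6)
    (hs : 5 * t + 5 ≤ qe s t) (hA : Fac (VZ (φ := φ) D v s t) A)
    (hz : Fac (Ah D (t + 1) (∅ : Finset (Fin 3))) z) (hE : ∀ j, Fac (Ah D (t + 1) {j}) (E j))
    (hRm : ∀ j, Fac (TriS.Cb D (Um v (t + 2)) (t + 1) j) (Rm j)) (hER : ∀ j w, E j w → Rm j w)
    (g : Pt (Fin 3) X β φ → ℝ) (hg : Fac (fun w => (tup (FQ v t) w, VZ D v s t w)) g) (hb : ∀ w, |g w| ≤ 1) :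
    |(D.P h t).E (fun w => ind (A w ∧ (z w ∨ ∃ j, E j w)) * (g w - (D.P h t).ce (VZ D v s t) g w))| ≤
      2 * (D.P h (t + 1)).Pr (fun w => A w ∧ ¬ Ar h v ap (2 * (t + 1)) w) + Dt h v n Lam ap.X0 t z E Rm := by
  have hn1 : 1 ≤ n := by linarith [p.n2]
  have hN : ∀ l : Fin 3, 0 < pr3 (Fin 3) n N1 (univ.erase l) := fun l =>
    zero_lt_one.trans_le (pr3_one hn1 p.N1' _)
  set F : Pt (Fin 3) X β φ → Prop := fun w => z w ∨ ∃ j, E j w with hF
  have hxy : XY F := fun x y F1 F2 => by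
    have h1 : z (x, y, F1) = z (x, y, F2) := hz _ _ rfl
    have h2 : ∀ j, E j (x, y, F1) = E j (x, y, F2) := fun j => hE j _ _ rfl
    show (z (x, y, F1) ∨ ∃ j, E j (x, y, F1)) = (z (x, y, F2) ∨ ∃ j, E j (x, y, F2))
    simp only [h1, h2]
  have hqe : qe s t = 5 * t + 5 := le_antisymm (by fin_cases s <;> simp [qe]) hs
  refine TriT.trans H R hN ht s hA hxy (fun g' hg' hb' => ?_) g hg hb
  set P := D.P h (t + 1) with hP
  set Af : Pt (Fin 3) X β φ → Prop := fun w => A w ∧ Ar h v ap (2 * (t + 1)) w with hAf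
  have fAf : Fac (ZQ (φ := φ) D v (5 * t + 5)) Af := by
    intro a e hae
    have h1 : A a = A e := hA a e (TriS.VZ_final s t a e hae)
    have h2 : Ar h v ap (2 * (t + 1)) a = Ar h v ap (2 * (t + 1)) e := Ar0_fac h ap (t + 1) a e hae
    show (A a ∧ Ar h v ap (2 * (t + 1)) a) = (A e ∧ Ar h v ap (2 * (t + 1)) e)
    rw [h1, h2]
  have a5 : ∀ w, P.p w ≠ 0 → Af w → ∀ i, ssQ h v (5 * t + 5) i w ≤ ap.X0 := fun w _ hw i =>
    (AQ_0 h ap (t := t + 1) hw.2).1 i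
  have k := un_fin p H.alL R fAf a5 hz hE hRm hER hg' hb'
  have ec : ∀ w, P.ce (VZ D v s t) g' w = P.ce (ZQ D v (5 * t + 5)) g' w := fun w =>
    TriT.ce_same P (fun a e hae => by
      have h1 : ZQ D v (qe s t) a = ZQ D v (qe s t) e := congrArg Prod.fst hae
      rw [hqe] at h1
      exact h1) (TriS.VZ_final s t) g' w
  simp only [ec]
  set G : Pt (Fin 3) X β φ → ℝ := fun w => g' w - P.ce (ZQ D v (5 * t + 5)) g' w with hG
  have hG2 : ∀ w, |G w| ≤ 2 := by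
    intro w
    have h3 := abs_sub (g' w) (P.ce (ZQ D v (5 * t + 5)) g' w)
    have h4 := hb' w
    have h5 : |P.ce (ZQ D v (5 * t + 5)) g' w| ≤ 1 := P.abs_ce_le_one (fun u _ => hb' u) _ w
    linarith
  have e1 : P.E (fun w => ind (A w ∧ F w) * G w) = P.E (fun w => ind (F w) * (ind (Af w) * G w)) +
      P.E (fun w => ind (F w) * (ind (A w ∧ ¬ Ar h v ap (2 * (t + 1)) w) * G w)) := by
    rw [← P.E_add]
    refine P.E_congr fun w _ => ?_
    by_cases h1 : A w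
    · by_cases h2 : Ar h v ap (2 * (t + 1)) w
      · rw [ind_and, ind_of h1, ind_of (show Af w from ⟨h1, h2⟩),
          ind_not (fun hh : A w ∧ ¬ Ar h v ap (2 * (t + 1)) w => hh.2 h2)]
        ring
      · rw [ind_and, ind_of h1, ind_not (fun hh : Af w => h2 hh.2),
          ind_of (show A w ∧ ¬ Ar h v ap (2 * (t + 1)) w from ⟨h1, h2⟩)]
        ring
    · rw [ind_and, ind_not h1, ind_not (fun hh : Af w => h1 hh.1),
        ind_not (fun hh : A w ∧ ¬ Ar h v ap (2 * (t + 1)) w => h1 hh.1)]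
      ring
  have e2 : |P.E (fun w => ind (F w) * (ind (A w ∧ ¬ Ar h v ap (2 * (t + 1)) w) * G w))| ≤
      2 * P.Pr (fun w => A w ∧ ¬ Ar h v ap (2 * (t + 1)) w) := by
    have e3 : 2 * P.Pr (fun w => A w ∧ ¬ Ar h v ap (2 * (t + 1)) w) =
        P.E (fun w => 2 * ind (A w ∧ ¬ Ar h v ap (2 * (t + 1)) w)) := (P.E_smul _ _).symm
    have k2 : ∀ w, |ind (F w) * (ind (A w ∧ ¬ Ar h v ap (2 * (t + 1)) w) * G w)| ≤
        2 * ind (A w ∧ ¬ Ar h v ap (2 * (t + 1)) w) := by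
      intro w
      rw [abs_mul, abs_mul, abs_of_nonneg (ind_nonneg _), abs_of_nonneg (ind_nonneg _)]
      have h1 := mul_le_mul_of_nonneg_left (hG2 w) (ind_nonneg (A w ∧ ¬ Ar h v ap (2 * (t + 1)) w))
      have h2 := mul_le_of_le_one_left (mul_nonneg (ind_nonneg (A w ∧ ¬ Ar h v ap (2 * (t + 1)) w)) (abs_nonneg (G w)))
        (ind_le_one (F w))
      linarith
    rw [e3, abs_le, ← P.E_neg]
    exact ⟨P.E_mono fun w _ => (abs_le.1 (k2 w)).1, P.E_mono fun w _ => (abs_le.1 (k2 w)).2⟩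
  show |P.E (fun w => ind (A w ∧ F w) * G w)| ≤ _
  rw [e1]
  refine (abs_add_le _ _).trans ?_
  have k3 : |P.E (fun w => ind (F w) * (ind (Af w) * G w))| ≤ Dt h v n Lam ap.X0 t z E Rm := k
  linarith

/-! ### all times -/

theorem ro_sum {T : ℕ} {e r : ℕ → ℝ} (h0 : ∀ t, 0 ≤ e t) (h1 : ∀ t, e t ≤ r t) {NT MT A n : ℝ}
    (hN : ∑ t ∈ range T, e t ≤ NT) (hM : ∑ t ∈ range T, r t ≤ MT) (hNM : NT ≤ MT) (hA : 1 / 2 ≤ A) (hn : 0 < n) :
    ∑ t ∈ range T, e t * Real.sqrt ((Real.log (r t / e t) + A) / n) ≤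
      NT * Real.sqrt ((Real.log (MT / NT) + A) / n) := by
  have r0 : ∀ t, 0 ≤ r t := fun t => (h0 t).trans (h1 t)
  have er : ∀ t, r t * (e t / r t) = e t := by
    intro t
    by_cases hr : r t = 0
    · have : e t = 0 := le_antisymm (hr ▸ h1 t) (h0 t)
      rw [hr, this]
      ring
    · rw [mul_div_cancel₀ _ hr]
  have k1 := RelSum.sum_sqrt_le (range T) r (fun t => e t / r t) (fun t _ => r0 t) (fun t _ => div_nonneg (h0 t) (r0 t))
    (fun t _ => div_le_one_of_le₀ (h1 t) (r0 t)) (A := A) (n := n) (by linarith) hn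
  have k2 : ∀ t ∈ range T, r t * (e t / r t) * Real.sqrt ((Real.log (1 / (e t / r t)) + A) / n) =
      e t * Real.sqrt ((Real.log (r t / e t) + A) / n) := by
    intro t _
    rw [er, one_div_div]
  rw [Finset.sum_congr rfl k2] at k1
  simp only [er] at k1
  refine k1.trans (RelSum.mono_sqrt (Finset.sum_nonneg fun t _ => h0 t) hN hM
    (Finset.sum_le_sum fun t _ => h1 t) hNM hA hn)

theorem sqrt_A {x A Lam n : ℝ} (hx : 0 ≤ x) (hA : A ≤ 4 * (Lam + 1)) (hn : 0 < n) :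
    Real.sqrt ((x + A) / n) ≤ 2 * Real.sqrt ((x + (Lam + 1)) / n) := by
  have h1 : (x + A) / n ≤ 2 ^ 2 * ((x + (Lam + 1)) / n) := by
    rw [← mul_div_assoc]
    refine div_le_div_of_nonneg_right ?_ hn.le
    linarith
  refine (Real.sqrt_le_sqrt h1).trans (le_of_eq ?_)
  rw [Real.sqrt_mul (by norm_num), Real.sqrt_sq (by norm_num)]

/-- the sum of the prices of the union -/
theorem Dt_sum (p : Par n N1 X0 Lam) (ha : Real.exp (-Lam) ≤ al)
    (R : Run h (pr3 (Fin 3) n N1) (SS1 (Fin 3)) (AdmDep D) v) {z : ℕ → Pt (Fin 3) X β φ → Prop}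
    {E Rm : ℕ → Fin 3 → Pt (Fin 3) X β φ → Prop}
    (hz : ∀ t < T, Fac (Ah D (t + 1) (∅ : Finset (Fin 3))) (z t)) (hE : ∀ t < T, ∀ j, Fac (Ah D (t + 1) {j}) (E t j))
    (hRm : ∀ t < T, ∀ j, Fac (TriS.Cb D (Um v (t + 2)) (t + 1) j) (Rm t j)) (hzR : ∀ t < T, ∀ w, z t w → Rm t 0 w)
    (hER : ∀ t < T, ∀ j w, E t j w → Rm t j w)
    {NT MT : ℝ} (hNz : ∑ t ∈ range T, (D.P h t).Pr (z t) ≤ NT) (hNT : ∀ j, ∑ t ∈ range T, (D.P h t).Pr (E t j) ≤ NT)
    (hMT : ∀ j, ∑ t ∈ range T, (D.P h t).Pr (Rm t j) ≤ MT) (hNM : NT ≤ MT) :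
    ∑ t ∈ range T, Dt h v n Lam X0 t (z t) (E t) (Rm t) ≤
      400 * (NT * Real.sqrt ((Real.log (MT / NT) + (Lam + 1)) / n)) + 20 * Real.exp (-n) * MT := by
  classical
  have n0 : 0 < n := by linarith [p.n2]
  have hn1 : 1 ≤ n := by linarith [p.n2]
  have ha1 : al ≤ 1 := hal_one h (0 : Fin 3)
  have hLam := p.L1
  have NT0 : 0 ≤ NT := (Finset.sum_nonneg fun t _ => FP.Pr_nonneg _ _).trans hNz
  have MT0 : 0 ≤ MT := NT0.trans hNM
  have B : ∀ t, Bk h (pr3 (Fin 3) n N1) (SS1 (Fin 3)) (Um v (t + 2)) (t + 1) 0 1 2 := fun t =>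
    Bk_run hn1 p.N1' R (by decide) (by decide) (by decide) (t + 1)
  have xz : ∀ t < T, XY (z t) := fun t ht x y F F' => hz t ht _ _ rfl
  have xE : ∀ t < T, ∀ j, XY (E t j) := fun t ht j x y F F' => hE t ht j _ _ rfl
  have xR : ∀ t < T, ∀ j, XY (Rm t j) := fun t ht j x y F F' => hRm t ht j _ _ (Cb_xy _ _ _ x y F F')
  have mR : ∀ j, ∑ t ∈ range T, (D.P h (t + 1)).Pr (Rm t j) ≤ MT := fun j =>
    (le_of_eq (Finset.sum_congr rfl fun t ht => Pr_xy' (xR t (Finset.mem_range.1 ht) j) (t + 1) t)).trans (hMT j)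
  have mz : ∑ t ∈ range T, (D.P h (t + 1)).Pr (z t) ≤ NT :=
    (le_of_eq (Finset.sum_congr rfl fun t ht => Pr_xy' (xz t (Finset.mem_range.1 ht)) (t + 1) t)).trans hNz
  have mE : ∀ j, ∑ t ∈ range T, (D.P h (t + 1)).Pr (Ej h v X0 t (z t) (E t) j) ≤ NT := fun j => by
    refine le_trans (Finset.sum_le_sum fun t ht => ?_) (hNT j)
    rw [← Pr_xy' (xE t (Finset.mem_range.1 ht) j) (t + 1) t]
    exact FP.Pr_mono _ fun w _ hw => hw.1.1
  have EjR : ∀ t < T, ∀ j w, Ej h v X0 t (z t) (E t) j w → Rm t j w := fun t ht j w hw => hER t ht j w hw.1.1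
  -- the bits
  have sj : ∀ (Cc : ℝ), 0 ≤ Cc → ∀ j, ∑ t ∈ range T, (D.P h (t + 1)).E (fun w => ind (Ej h v X0 t (z t) (E t) j w) *
      TriE.prC (Lam + 1) n Cc 2 (Real.exp (-n)) (eb h v t j (Ej h v X0 t (z t) (E t) j) w)) ≤
      Cc * (NT * Real.sqrt ((Real.log (MT / NT) + (Lam + 1)) / n)) + 2 * Real.exp (-n) * MT := fun Cc hC j =>
    TriE.sum_times (T := T) (fun t => D.P h (t + 1)) (fun t => TriS.Cb D (Um v (t + 2)) (t + 1) j)
      (fun t => Ej h v X0 t (z t) (E t) j) (fun t => Rm t j)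
      (fun t w => TriE.prC (Lam + 1) n Cc 2 (Real.exp (-n)) (eb h v t j (Ej h v X0 t (z t) (E t) j) w))
      (fun t _ => ((D.P h (t + 1)).ce_fac _ _).comp fun x => TriE.prC (Lam + 1) n Cc 2 (Real.exp (-n)) x)
      (fun t ht => hRm t ht j) (fun t ht w _ hw => EjR t ht j w hw) (by linarith) n0 hC (by norm_num)
      (Real.exp_pos _).le (fun t _ w _ _ => le_refl _) (mE j) (mR j) hNM
  have sz : ∑ t ∈ range T, (D.P h (t + 1)).E (fun w => ind (z t w) *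
      TriE.prC (Lam + 1) n 38 2 (Real.exp (-n)) (eb h v t 0 (z t) w)) ≤
      38 * (NT * Real.sqrt ((Real.log (MT / NT) + (Lam + 1)) / n)) + 2 * Real.exp (-n) * MT :=
    TriE.sum_times (T := T) (fun t => D.P h (t + 1)) (fun t => TriS.Cb D (Um v (t + 2)) (t + 1) 0)
      z (fun t => Rm t 0)
      (fun t w => TriE.prC (Lam + 1) n 38 2 (Real.exp (-n)) (eb h v t 0 (z t) w))
      (fun t _ => ((D.P h (t + 1)).ce_fac _ _).comp fun x => TriE.prC (Lam + 1) n 38 2 (Real.exp (-n)) x)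
      (fun t ht => hRm t ht 0) (fun t ht w _ hw => hzR t ht w hw) (by linarith) n0 (by norm_num) (by norm_num)
      (Real.exp_pos _).le (fun t _ w _ _ => le_refl _) mz (mR 0) hNM
  -- the products
  obtain ⟨l1, l2⟩ := log_al h.pos ha1
  have lA : 1 + 2 * Real.log (1 / al + 1) ≤ 4 * (Lam + 1) := by
    have h3 := (lgs (X0 := 0) (M := 1) ha ha1 le_rfl (Real.one_le_exp (by norm_num))).2.2.2
    have ha0 : 0 < al := h.pos
    have h2 : 1 / al ≤ Real.exp Lam := by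
      rw [div_le_iff₀ ha0]
      have h3 := mul_le_mul_of_nonneg_left ha (Real.exp_pos Lam).le
      rwa [← Real.exp_add, add_neg_cancel, Real.exp_zero] at h3
    have h7 : 1 / al + 1 ≤ Real.exp (Lam + 1) := by
      have h8 := Real.add_one_le_exp (1 : ℝ)
      have h9 : (2 : ℝ) * Real.exp Lam ≤ Real.exp 1 * Real.exp Lam :=
        mul_le_mul_of_nonneg_right (by linarith) (Real.exp_pos _).le
      have h10 : 1 ≤ Real.exp Lam := Real.one_le_exp (by linarith)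
      rw [Real.exp_add]
      linarith
    have h11 : Real.log (1 / al + 1) ≤ Lam + 1 := by
      rw [Real.log_le_iff_le_exp (by positivity)]
      exact h7
    linarith
  have lx : 0 ≤ Real.log (MT / NT) := by
    rcases NT0.eq_or_lt with h3 | h3
    · rw [← h3, div_zero, Real.log_zero]
    · refine Real.log_nonneg ?_
      rwa [le_div_iff₀ h3, one_mul]
  have sr : ∀ j, ∑ t ∈ range T, ro h (t + 1) n (1 + 2 * Real.log (1 / al + 1)) (Rm t j) (Ej h v X0 t (z t) (E t) j) ≤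
      2 * (NT * Real.sqrt ((Real.log (MT / NT) + (Lam + 1)) / n)) := by
    intro j
    have hle : ∀ t ∈ range T, (D.P h (t + 1)).Pr (Ej h v X0 t (z t) (E t) j) ≤ (D.P h (t + 1)).Pr (Rm t j) :=
      fun t ht => FP.Pr_mono _ fun w _ hw => EjR t (Finset.mem_range.1 ht) j w hw
    have k := ro_sum (T := T) (e := fun t => (D.P h (t + 1)).Pr (Ej h v X0 t (z t) (E t) j))
      (r := fun t => max ((D.P h (t + 1)).Pr (Rm t j)) ((D.P h (t + 1)).Pr (Ej h v X0 t (z t) (E t) j)))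
      (fun t => FP.Pr_nonneg _ _) (fun t => le_max_right _ _) (A := 1 + 2 * Real.log (1 / al + 1)) (mE j)
      ((le_of_eq (Finset.sum_congr rfl fun t ht => max_eq_left (hle t ht))).trans (mR j)) hNM (by linarith) n0
    have k' : ∑ t ∈ range T, ro h (t + 1) n (1 + 2 * Real.log (1 / al + 1)) (Rm t j) (Ej h v X0 t (z t) (E t) j) ≤
        NT * Real.sqrt ((Real.log (MT / NT) + (1 + 2 * Real.log (1 / al + 1))) / n) := by
      refine le_trans (le_of_eq (Finset.sum_congr rfl fun t ht => ?_)) k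
      unfold ro
      rw [max_eq_left (hle t ht)]
    have k2 := mul_le_mul_of_nonneg_left (sqrt_A (Lam := Lam) lx lA n0) NT0
    refine k'.trans (k2.trans (le_of_eq ?_))
    ring
  set Q := NT * Real.sqrt ((Real.log (MT / NT) + (Lam + 1)) / n) with hQ
  have Q0 : 0 ≤ Q := mul_nonneg NT0 (Real.sqrt_nonneg _)
  have e0 : 0 ≤ Real.exp (-n) * MT := mul_nonneg (Real.exp_pos _).le MT0
  unfold Dt
  simp only [Fin.sum_univ_three]
  rw [Finset.sum_add_distrib, Finset.sum_add_distrib, Finset.sum_add_distrib, Finset.sum_add_distrib,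
    Finset.sum_add_distrib, Finset.sum_add_distrib, ← Finset.mul_sum, ← Finset.mul_sum, Finset.sum_add_distrib,
    Finset.sum_add_distrib]
  have a0 := sj 38 (by norm_num) 0
  have a1 := sj 38 (by norm_num) 1
  have a2 := sj 38 (by norm_num) 2
  have b0 := sj 26 (by norm_num) 0
  have b1 := sj 26 (by norm_num) 1
  have c0 := sr 0
  have c1 := sr 1
  have c2 := sr 2
  linarith

/-- **THE UNION OF THE BITS, ALL TIMES** -/
theorem un_sum {ap : AP} (p : Par n N1 ap.X0 Lam) (H : D.Hyp dg prr al T Lam)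
    (R : Run h (pr3 (Fin 3) n N1) (SS1 (Fin 3)) (AdmDep D) v) (s : Fin 6) (hs : ∀ t, 5 * t + 5 ≤ qe s t)
    {A Bt z : ℕ → Pt (Fin 3) X β φ → Prop} {E Rm : ℕ → Fin 3 → Pt (Fin 3) X β φ → Prop}
    (hA : ∀ t < T, Fac (VZ (φ := φ) D v s t) (A t)) (hAr : ∀ t < T, ∀ w, A t w → Ar h v ap (2 * t + 1) w)
    (hBt : ∀ t < T, ∀ w, A t w → Ar h v ap (2 * (t + 1)) w → (Bt t w ↔ (z t w ∨ ∃ j, E t j w)))
    (hz : ∀ t < T, Fac (Ah D (t + 1) (∅ : Finset (Fin 3))) (z t)) (hE : ∀ t < T, ∀ j, Fac (Ah D (t + 1) {j}) (E t j))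
    (hRm : ∀ t < T, ∀ j, Fac (TriS.Cb D (Um v (t + 2)) (t + 1) j) (Rm t j)) (hzR : ∀ t < T, ∀ w, z t w → Rm t 0 w)
    (hER : ∀ t < T, ∀ j w, E t j w → Rm t j w)
    {NT MT : ℝ} (hNz : ∑ t ∈ range T, (D.P h t).Pr (z t) ≤ NT) (hNT : ∀ j, ∑ t ∈ range T, (D.P h t).Pr (E t j) ≤ NT)
    (hMT : ∀ j, ∑ t ∈ range T, (D.P h t).Pr (Rm t j) ≤ MT) (hNM : NT ≤ MT) :
    ∃ Dv : ℕ → ℝ, (∀ t, 0 ≤ Dv t) ∧ (∀ t < T, ∀ g : Pt (Fin 3) X β φ → ℝ,
      Fac (fun w => (tup (FQ v t) w, VZ D v s t w)) g → (∀ w, |g w| ≤ 1) →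
        |(D.P h t).E (fun w => ind (A t w ∧ Bt t w) * (g w - (D.P h t).ce (VZ D v s t) g w))| ≤ Dv t) ∧
      ∑ t ∈ range T, Dv t ≤ 4 * (D.P h T).Pr (fun w => ¬ Ar h v ap (2 * T) w) +
        (400 * (NT * Real.sqrt ((Real.log (MT / NT) + (Lam + 1)) / n)) + 20 * Real.exp (-n) * MT) := by
  have xA : ∀ t, XY (fun w => Ar h v ap (2 * t + 1) w ∧ ¬ Ar h v ap (2 * (t + 1)) w) := fun t x y F F' => by
    show (_ ∧ ¬ _) = (_ ∧ ¬ _)
    rw [Ar_xy (h := h) (v := v) ap (2 * t + 1) x y F F', Ar_xy (h := h) (v := v) ap (2 * (t + 1)) x y F F']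
  have D0 : ∀ t, 0 ≤ Dt h v n Lam ap.X0 t (z t) (E t) (Rm t) := by
    intro t
    have pr0 : ∀ (Cc e : ℝ), 0 ≤ Cc → 0 ≤ TriE.prC (Lam + 1) n Cc 2 (Real.exp (-n)) e := fun Cc e hC =>
      TriE.le_prC (by norm_num) fun _ => mul_nonneg hC (Real.sqrt_nonneg _)
    have q0 : ∀ (V : Pt (Fin 3) X β φ → Prop) (f : Pt (Fin 3) X β φ → ℝ) (Cc : ℝ), 0 ≤ Cc →
        0 ≤ (D.P h (t + 1)).E (fun w => ind (V w) * TriE.prC (Lam + 1) n Cc 2 (Real.exp (-n)) (f w)) := fun V f Cc hC =>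
      FP.E_nonneg _ fun w _ => mul_nonneg (ind_nonneg _) (pr0 _ _ hC)
    unfold Dt
    refine add_nonneg (add_nonneg (add_nonneg (q0 _ _ _ (by norm_num)) (Finset.sum_nonneg fun j _ =>
      q0 _ _ _ (by norm_num))) (add_nonneg (mul_nonneg (by norm_num) (q0 _ _ _ (by norm_num)))
      (q0 _ _ _ (by norm_num)))) (mul_nonneg (by norm_num) (Finset.sum_nonneg fun j _ => ro_nn _ _ _ _))
  refine ⟨fun t => (2 * (D.P h (t + 1)).Pr (fun w => Ar h v ap (2 * t + 1) w ∧ ¬ Ar h v ap (2 * (t + 1)) w) +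
      Dt h v n Lam ap.X0 t (z t) (E t) (Rm t)) +
      2 * (D.P h (t + 1)).Pr (fun w => Ar h v ap (2 * t + 1) w ∧ ¬ Ar h v ap (2 * (t + 1)) w), fun t => ?_,
    fun t ht g hg hb => ?_, ?_⟩
  · have h1 := (D.P h (t + 1)).Pr_nonneg (fun w => Ar h v ap (2 * t + 1) w ∧ ¬ Ar h v ap (2 * (t + 1)) w)
    have h2 := D0 t
    show (0 : ℝ) ≤ _
    linarith
  · have k1 := un_one p H R ht s (hs t) (hA t ht) (hz t ht) (hE t ht) (hRm t ht) (hER t ht) g hg hb
    refine (dev_near (ap := ap) (hBt t ht) hb k1).trans ?_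
    have h1 : (D.P h t).Pr (fun w => A t w ∧ ¬ Ar h v ap (2 * (t + 1)) w) ≤
        (D.P h t).Pr (fun w => Ar h v ap (2 * t + 1) w ∧ ¬ Ar h v ap (2 * (t + 1)) w) :=
      FP.Pr_mono _ fun w _ hw => ⟨hAr t ht w hw.1, hw.2⟩
    have h3 : (D.P h (t + 1)).Pr (fun w => A t w ∧ ¬ Ar h v ap (2 * (t + 1)) w) ≤
        (D.P h (t + 1)).Pr (fun w => Ar h v ap (2 * t + 1) w ∧ ¬ Ar h v ap (2 * (t + 1)) w) :=
      FP.Pr_mono _ fun w _ hw => ⟨hAr t ht w hw.1, hw.2⟩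
    have h2 : (D.P h t).Pr (fun w => Ar h v ap (2 * t + 1) w ∧ ¬ Ar h v ap (2 * (t + 1)) w) =
        (D.P h (t + 1)).Pr (fun w => Ar h v ap (2 * t + 1) w ∧ ¬ Ar h v ap (2 * (t + 1)) w) := Pr_xy' (xA t) t (t + 1)
    linarith
  · rw [Finset.sum_add_distrib, Finset.sum_add_distrib, ← Finset.mul_sum]
    have h3 := sum_killT (h := h) (v := v) H ap
    have h4 := Dt_sum (T := T) p H.alL R hz hE hRm hzR hER hNz hNT hMT hNM
    linarith

end run

end TriB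

end

end Pool.Agent.GMH.TP
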