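import Pool.Agent.GMH.ConS3
import Pool.Agent.GMH.RunE
import Pool.Agent.GM.HarmEq

/-!
# GMH.Stmt: the frame of HARM(3) (helper12)

* `surp h v s J w` = surprisal of the label of `J` (state after the split of the time `s`) given everything below and the
  base `BB D s J`; its mean is `ent`;
* `Al X0 h v t w` = all thin letters of all times `≤ t` have surprisal at most `X0` (ALIVE);
* `Al_fac` : a function of the thin labels and of `WW D t`; `Al_mono`;
* `AlOK D v A` = general alive event (function of the thin labels and of the node, decreasing), `GA` = alive and all lower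
  biases at most `1/2`; `dd = ¬ A`;
* `concl3` : the conclusion of HARM(3) from the two numbers which remain (synergy on `GG`, probability of dead letters);
* `pr3 n N1` = the prices `1, N1, n * N1`; `Rest3` = what remains to be proved, `harmW_of_rest : Rest3 K → HarmW K`.
-/

set_option autoImplicit false
set_option linter.unusedSectionVars false

namespace Pool.Agent.GMH

open Finset Pool.Agent.PWZ Pool.Agent.M3 Pool.Agent.GM Pool.Agent.GM.Harm

section defs

variable {K X β γ φ υ : Type} [Fintype K] [DecidableEq K] [Fintype X] [Fintype β] [Fintype φ] [Nonempty X] [Nonempty β]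
  {D : HD K X β γ φ} {al : ℝ} (h : D.Thick al) (v : ℕ → Finset K → X → (K → β) → υ)

/-- surprisal of the label of `J` after the split of the time `s` -/
noncomputable def surp (s : ℕ) (J : Finset K) (w : Pt K X β φ) : ℝ :=
  Real.log ((D.P h s).m (fun w => (lo (LL (Um v (s + 1))) J w, BB D s J w)) w /
    (D.P h s).m (fun w => (LL (Um v (s + 1)) J w, lo (LL (Um v (s + 1))) J w, BB D s J w)) w)

/-- all thin letters of all times `≤ t` are alive -/
def Al (X0 : ℝ) (t : ℕ) (w : Pt K X β φ) : Prop := ∀ s ≤ t, ∀ i : K, surp h v s {i} w ≤ X0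

variable {h v}

theorem surp_fac (s : ℕ) (J : Finset K) :
    Fac (fun w : Pt K X β φ => (LL (Um v (s + 1)) J w, lo (LL (Um v (s + 1))) J w, BB D s J w)) (surp h v s J) := by
  intro a b hab
  have e1 : (lo (LL (Um v (s + 1))) J a, BB D s J a) = (lo (LL (Um v (s + 1))) J b, BB D s J b) := congrArg Prod.snd hab
  unfold surp FP.m
  have h1 : ∀ u : Pt K X β φ, ((lo (LL (Um v (s + 1))) J u, BB D s J u) = (lo (LL (Um v (s + 1))) J a, BB D s J a)) =
      ((lo (LL (Um v (s + 1))) J u, BB D s J u) = (lo (LL (Um v (s + 1))) J b, BB D s J b)) := fun u => by rw [e1]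
  have h2 : ∀ u : Pt K X β φ, ((LL (Um v (s + 1)) J u, lo (LL (Um v (s + 1))) J u, BB D s J u) =
      (LL (Um v (s + 1)) J a, lo (LL (Um v (s + 1))) J a, BB D s J a)) =
      ((LL (Um v (s + 1)) J u, lo (LL (Um v (s + 1))) J u, BB D s J u) =
      (LL (Um v (s + 1)) J b, lo (LL (Um v (s + 1))) J b, BB D s J b)) := fun u => by
    have hab' : (LL (Um v (s + 1)) J a, lo (LL (Um v (s + 1))) J a, BB D s J a) =
      (LL (Um v (s + 1)) J b, lo (LL (Um v (s + 1))) J b, BB D s J b) := hab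
    rw [hab']
  simp only [h1, h2]

theorem Al_mono (X0 : ℝ) {s t : ℕ} (hst : s ≤ t) {w : Pt K X β φ} (hw : Al h v X0 t w) : Al h v X0 s w :=
  fun r hr i => hw r (hr.trans hst) i

/-- equal classes after the split of a later time and equal nodes: equal classes of the earlier time -/
theorem LL_older {s t : ℕ} (hst : s ≤ t) {I : Finset K} {a b : Pt K X β φ}
    (hab : LL (Um v (t + 1)) I a = LL (Um v (t + 1)) I b) : LL (Um v (s + 1)) I a = LL (Um v (s + 1)) I b := by
  rw [LL_eq] at hab ⊢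
  refine ⟨?_, hab.2⟩
  have h1 := hab.1
  unfold Um at h1 ⊢
  rw [List.map_inj_left] at h1 ⊢
  exact fun r hr => h1 r (List.mem_range.2 (by have := List.mem_range.1 hr; omega))

theorem BB_older {s t : ℕ} (hst : s ≤ t) {J : Finset K} {a b : Pt K X β φ} (hab : WW D t a = WW D t b) :
    BB D s J a = BB D s J b := by
  have h1 : a.2.1 = b.2.1 := (Prod.mk.inj hab).1
  have h2 : nd D t a = nd D t b := (Prod.mk.inj hab).2
  have h3 : D.qa t a.1 = D.qa t b.1 := congrArg Prod.fst h2
  rw [BB_eq]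
  exact ⟨fun j _ => congrFun h1 j, qa_mono D hst h3, fun j => by rw [h1]⟩

/-- **alive is a function of the thin labels and of the node** -/
theorem Al_fac (X0 : ℝ) (t : ℕ) :
    Fac (fun w : Pt K X β φ => (all (LP pth (LL (Um v (t + 1)))) w, WW D t w)) (Al h v X0 t) := by
  intro a b hab
  have hab1 : all (LP pth (LL (φ := φ) (Um v (t + 1)))) a = all (LP pth (LL (Um v (t + 1)))) b := congrArg Prod.fst hab
  have hab2 : WW D t a = WW D t b := congrArg Prod.snd hab
  have key : ∀ s ≤ t, ∀ i : K, surp h v s {i} a = surp h v s {i} b := by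
    intro s hs i
    refine surp_fac s {i} a b ?_
    have hl : ∀ I : Finset K, pth I → LL (φ := φ) (Um v (s + 1)) I a = LL (Um v (s + 1)) I b := fun I hI =>
      LL_older hs (congrFun hab1 ⟨I, hI⟩)
    refine Prod.ext (hl {i} ?_) (Prod.ext ?_ (BB_older hs hab2))
    · unfold pth; rw [Finset.card_singleton]
    · show lo (LL (Um v (s + 1))) {i} a = lo (LL (Um v (s + 1))) {i} b
      rw [lo_eq]
      intro I hI
      refine hl I ?_
      unfold pth
      have := Finset.card_lt_card hI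
      rw [Finset.card_singleton] at this
      omega
  refine propext ⟨fun hw s hs i => ?_, fun hw s hs i => ?_⟩
  · rw [← key s hs i]; exact hw s hs i
  · rw [key s hs i]; exact hw s hs i

/-- alive does not depend on the top letters -/
theorem Al_lab (hK : Fintype.card K = 3) (X0 : ℝ) (t : ℕ) (x : X) (y : K → β) (F F' : K → φ) :
    Al h v X0 t (x, y, F) ↔ Al h v X0 t (x, y, F') := by
  have e : Al h v X0 t (x, y, F) = Al h v X0 t (x, y, F') := by
    refine Al_fac X0 t (x, y, F) (x, y, F') ?_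
    refine Prod.ext (funext fun I => ?_) rfl
    show LL (Um v (t + 1)) I.1 (x, y, F) = LL (Um v (t + 1)) I.1 (x, y, F')
    rw [LL_eq]
    refine ⟨rfl, fun l hl => ?_⟩
    exfalso
    have h1 := I.2
    rw [← hl] at h1
    exact pth_er hK l h1
  rw [e]

end defs

section concl

variable {K X β γ φ υ : Type} [Fintype K] [DecidableEq K] [Fintype X] [Fintype β] [Fintype φ] [Nonempty X] [Nonempty β]
  {D : HD K X β γ φ} {al : ℝ} (h : D.Thick al) {dg : ℕ → X → ℝ} {prr : ℕ → K → φ → φ} {T : ℕ} {Lam : ℝ}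
  {v : ℕ → Finset K → X → (K → β) → υ}

/-- the good event of a general alive event `A` -/
def GA (h : D.Thick al) (v : ℕ → Finset K → X → (K → β) → υ) (dg : ℕ → X → ℝ) (A : ℕ → Pt K X β φ → Prop) (t : ℕ)
    (w : Pt K X β φ) : Prop := A t w ∧ ∀ J ∈ SS K, |ul (UU v) h dg J t w| ≤ 1 / 2

/-- an alive event: function of the thin labels and of the node, decreasing -/
structure AlOK (D : HD K X β γ φ) (v : ℕ → Finset K → X → (K → β) → υ) (A : ℕ → Pt K X β φ → Prop) : Prop where
  fac : ∀ t, Fac (fun w : Pt K X β φ => (all (LP pth (LL (Um v (t + 1)))) w, WW D t w)) (A t)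
  mono : ∀ t w, A (t + 1) w → A t w

theorem Al_ok (X0 : ℝ) : AlOK D v (Al h v X0) := ⟨Al_fac X0, fun t _ hw => Al_mono X0 (Nat.le_succ t) hw⟩

/-- an alive event does not depend on the top letters -/
theorem AlOK.lab (hK : Fintype.card K = 3) {A : ℕ → Pt K X β φ → Prop} (hA : AlOK D v A) (t : ℕ) (x : X) (y : K → β)
    (F F' : K → φ) : A t (x, y, F) ↔ A t (x, y, F') := by
  have e : A t (x, y, F) = A t (x, y, F') := by
    refine hA.fac t (x, y, F) (x, y, F') ?_
    refine Prod.ext (funext fun I => ?_) rfl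
    show LL (Um v (t + 1)) I.1 (x, y, F) = LL (Um v (t + 1)) I.1 (x, y, F')
    rw [LL_eq]
    refine ⟨rfl, fun l hl => ?_⟩
    exfalso
    have h1 := I.2
    rw [← hl] at h1
    exact pth_er hK l h1
  rw [e]

theorem GA_fac (hK : Fintype.card K = 3) {A : ℕ → Pt K X β φ → Prop} (hA : AlOK D v A) (t : ℕ) {a b : Pt K X β φ}
    (hab : eA D (UU v) t a = eA D (UU v) t b) : GA h v dg A t a ↔ GA h v dg A t b := by
  rw [eA_eq] at hab
  have hl : ∀ I : Finset K, I ≠ univ → LL (φ := φ) (Um v (t + 1)) I a = LL (Um v (t + 1)) I b := fun I hI =>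
    congrFun hab.1 ⟨I, hI⟩
  have e1 : A t a = A t b :=
    hA.fac t a b (Prod.ext (funext fun I => hl I.1 (pth_sub hK I.1 I.2)) hab.2)
  have e2 : ∀ J ∈ SS K, ul (UU v) h dg J t a = ul (UU v) h dg J t b := by
    intro J hJ
    have hJu : J ≠ univ := (Finset.mem_filter.1 hJ).2.2
    refine (D.P h t).ce_fac _ _ a b ?_
    rw [eL_eq hJu]
    exact ⟨lo_eq.2 fun I hI => hl I fun hh => hJu (Finset.univ_subset_iff.1 (hh ▸ hI.1)), WW_BB D t J a b hab.2⟩
  unfold GA
  rw [e1]
  exact and_congr_right fun _ => forall_congr' fun J => forall_congr' fun hJ => by rw [e2 J hJ]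

/-- **THE CONCLUSION OF HARM(3)** from the two numbers which remain, any alive event -/
theorem concl3 (hK : Fintype.card K = 3) (H : D.Hyp dg prr al T Lam) (hv : Codes D v) {A : ℕ → Pt K X β φ → Prop}
    (hA : AlOK D v A) {e B Ntop : ℝ} {N : Finset K → ℝ}
    (hN : ∀ J, 1 ≤ N J) (hN2 : ∀ l, N (univ.erase l) ≤ Ntop)
    (hPhi : ∀ t ≤ T, Phi (D.P h t) (BB D t) N (SS1 K) (LL (Um v t)) (Vt v t) ≤ 0)
    (hB : 2 * (2 : ℝ) ^ Fintype.card K * (Fintype.card K * (Ntop * Lam) + Lam) ≤ B)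
    (hdead : (D.P h T).Pr (fun w => ¬ A T w) ≤ e)
    (hsyn : ∑ t ∈ range T, (D.P h t).E (fun w => ind (GA h v dg A t w) *
      (ua (UU v) h dg t w - exf (SS K) (mm (UU v) h dg) (uu (UU v) h dg) (ul (UU v) h dg) t w) ^ 2) ≤ e) :
    Concl (UU v) h dg prr T B e (GA h v dg A) (fun t w => ¬ A t w) := by
  obtain ⟨h1, h2, h3⟩ := conM_Phi h H (ne_u hK) hN hN2 hPhi hB
  exact {
    sys := sys_UU hv
    m2 := h1
    u2 := h2
    l2 := h3
    Gm := fun t _ a b hab => GA_fac h hK hA t hab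
    Gl := fun t _ w hw J hJ => hw.2 J hJ
    Gd := fun t _ w _ hd hl => ⟨not_not.1 hd, hl⟩
    inc := fun t _ x y F hd ha => hd ((hA.lab hK t x y F (fun l => prr t l (F l))).1 (hA.mono t _ ha))
    dq := hdead
    syn := hsyn }

/-- the prices -/
noncomputable def pr3 (K : Type) [Fintype K] [DecidableEq K] (n N1 : ℝ) (J : Finset K) : ℝ :=
  if J.card = 0 then 1 else if J.card = 1 then N1 else n * N1

theorem pr3_one {n N1 : ℝ} (hn : 1 ≤ n) (hN1 : 1 ≤ N1) (J : Finset K) : 1 ≤ pr3 K n N1 J := by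
  unfold pr3
  split_ifs
  · exact le_rfl
  · exact hN1
  · exact one_le_mul_of_one_le_of_one_le hn hN1

theorem pr3_top (hK : Fintype.card K = 3) (n N1 : ℝ) (l : K) : pr3 K n N1 (univ.erase l) = n * N1 := by
  unfold pr3
  rw [if_neg (by rw [card_er hK]; norm_num), if_neg (by rw [card_er hK]; norm_num)]

end concl

/-! ## what remains -/

/-- the numbers as powers of `2 Lam` -/
noncomputable def pw (Lam : ℝ) (c : ℕ) : ℝ := (2 * Lam) ^ c

/-- **WHAT REMAINS** : with prices `1`, `N1 = (2 Lam)^c1`, `n N1`, `n = (2 Lam)^c0`, every run (all refinements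
admissible) has an alive event of large probability with little synergy on it -/
def Rest3 (K : Type) [Fintype K] [DecidableEq K] : Prop :=
  ∃ c0 c1 : ℕ, ∀ (X β γ φ : Type) [Fintype X] [Fintype β] [Fintype φ] [Nonempty X] [Nonempty β]
    (D : HD K X β γ φ) (al : ℝ) (h : D.Thick al) (dg : ℕ → X → ℝ) (prr : ℕ → K → φ → φ) (T : ℕ) (Lam : ℝ),
    D.Hyp dg prr al T Lam → 2 ≤ Lam → ∀ v : ℕ → Finset K → X → (K → β) → Pt K X β φ,
    Run h (pr3 K (pw Lam c0) (pw Lam c1)) (SS1 K) (AdmDep D) v →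
    ∃ A : ℕ → Pt K X β φ → Prop, AlOK D v A ∧ (D.P h T).Pr (fun w => ¬ A T w) ≤ Lam⁻¹ ∧
    ∑ t ∈ range T, (D.P h t).E (fun w => ind (GA h v dg A t w) *
      (ua (UU v) h dg t w - exf (SS K) (mm (UU v) h dg) (uu (UU v) h dg) (ul (UU v) h dg) t w) ^ 2) ≤ Lam⁻¹

theorem pw_one {Lam : ℝ} (hL : 2 ≤ Lam) (c : ℕ) : 1 ≤ pw Lam c := one_le_pow₀ (by linarith)

/-- powers are below the bits of the weak form -/
theorem pow_le_exp_log {Lam : ℝ} (hL : 2 ≤ Lam) (c : ℕ) : (2 * Lam) ^ c ≤ Real.exp (Real.log (2 * Lam) ^ (3 * c + 1)) := by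
  have h1 : (0 : ℝ) < 2 * Lam := by linarith
  have h2 : (4 : ℝ) / 3 ≤ Real.log (2 * Lam) := by
    have h4 : Real.log 4 ≤ Real.log (2 * Lam) := Real.log_le_log (by norm_num) (by linarith)
    have h5 : Real.log 4 = 2 * Real.log 2 := by
      rw [show (4 : ℝ) = 2 ^ 2 by norm_num, Real.log_pow]; norm_num
    have := Real.log_two_gt_d9
    linarith
  rw [← Real.log_le_iff_le_exp (pow_pos h1 c), Real.log_pow, pow_succ]
  refine mul_le_mul_of_nonneg_right ?_ (by linarith)
  have h3 := one_add_mul_le_pow (a := (1 : ℝ) / 3) (by norm_num) (3 * c)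
  have h4 : ((1 : ℝ) + 1 / 3) ^ (3 * c) ≤ Real.log (2 * Lam) ^ (3 * c) :=
    pow_le_pow_left₀ (by norm_num) (by linarith) _
  push_cast at h3
  linarith

/-- **HARM(3) from what remains** -/
theorem harmW_of_rest {K : Type} [Fintype K] [DecidableEq K] (hK : Fintype.card K = 3) (R : Rest3 K) : HarmW K := by
  obtain ⟨c0, c1, R⟩ := R
  refine ⟨3 * (c0 + c1 + 4) + 1, ?_⟩
  intro X β γ φ _ _ _ _ _ D al h dg prr T Lam H hL
  obtain ⟨v, hv⟩ := exists_run h (pr3 K (pw Lam c0) (pw Lam c1)) (SS1 K) (admDep_ok D)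
  obtain ⟨A, hA, hd, hs⟩ := R X β γ φ D al h dg prr T Lam H hL v hv
  have h0 := pw_one hL c0
  have h1 := pw_one hL c1
  refine ⟨List (Pt K X β φ), UU v, GA h v dg A, fun t w => ¬ A t w, ?_⟩
  have hL0 : (0 : ℝ) < Lam := by linarith
  refine concl3 h hK H hv.codes hA (N := pr3 K (pw Lam c0) (pw Lam c1)) (Ntop := pw Lam c0 * pw Lam c1)
    (fun J => pr3_one h0 h1 J) (fun l => (pr3_top hK _ _ l).le) (fun t _ => hv.nonpos (admDep_ok D) t) ?_ hd hs
  refine le_trans ?_ (pow_le_exp_log hL (c0 + c1 + 4))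
  rw [hK]
  have e : pw Lam c0 * pw Lam c1 = pw Lam (c0 + c1) := by
    unfold pw
    rw [pow_add]
  rw [e]
  have h2 := pw_one hL (c0 + c1)
  have e2 : (2 * Lam) ^ (c0 + c1 + 4) = pw Lam (c0 + c1) * (2 * Lam) ^ 4 := by
    unfold pw
    rw [pow_add]
  rw [e2]
  have h3 : (16 : ℝ) * 4 * Lam ≤ (2 * Lam) ^ 4 := by
    have h5 : (8 : ℝ) ≤ Lam ^ 3 := by
      have := pow_le_pow_left₀ (by norm_num : (0 : ℝ) ≤ 2) hL 3
      linarith
    nlinarith
  have h4 : 2 * (2 : ℝ) ^ 3 * ((3 : ℕ) * (pw Lam (c0 + c1) * Lam) + Lam) ≤ pw Lam (c0 + c1) * (16 * 4 * Lam) := by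
    have : Lam ≤ pw Lam (c0 + c1) * Lam := le_mul_of_one_le_left hL0.le h2
    push_cast
    nlinarith
  exact h4.trans (mul_le_mul_of_nonneg_left h3 (by linarith))

end Pool.Agent.GMH
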