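import Mathlib

/-!
# The sum of the prices over the removals (H3.REL R.6), abstract

Index `i` = a pair (substep, class of the removal), `w i = P(Cl_i)`, `e i = P_(Cl_i)(E)`.
`N` is the sum of `w i * e i` (the expected number of relevant decisions), `M` the sum of `w i`
(the expected number of removals).

* `sum_log_le` : `sum w e log(1/e) <= N log(M/N)` (concavity, no `K`);
* `sum_log_le'` : the same with `p_t <= R_t` : `sum p log(R/p) <= (sum p) log(sum R/sum p)`;
* `mono_log` : `N log(M/N) <= N_T log(M_T/N_T) + N_T`;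
* `sum_sqrt_le` : `sum w e sqrt((log(1/e) + A)/n) <= N sqrt((log(M/N) + A)/n)`;
* `mono_sqrt` : monotone in `N` and `M`;
* `sum_price` : prices `d_i <= C sqrt((log(1/e_i)+A)/n)` for `e_i >= eta`, `d_i <= K0` always.
-/

open Finset BigOperators

namespace Pool.Agent.GMH.RelSum

variable {ι : Type*}

/-- one term: `e log(1/e) <= e log c + 1/c - e` -/
theorem one_term {e c : ℝ} (he : 0 ≤ e) (hc : 0 < c) :
    e * Real.log (1 / e) ≤ e * Real.log c + (1 / c - e) := by
  rcases he.eq_or_lt with h | h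
  · subst h
    have : 0 ≤ 1 / c := by positivity
    simpa using this
  · have h1 : Real.log (1 / e) = Real.log c + Real.log (1 / (e * c)) := by
      rw [← Real.log_mul hc.ne' (by positivity)]
      congr 1
      field_simp
    have h2 : Real.log (1 / (e * c)) ≤ 1 / (e * c) - 1 := Real.log_le_sub_one_of_pos (by positivity)
    have h3 : e * Real.log (1 / (e * c)) ≤ e * (1 / (e * c) - 1) := mul_le_mul_of_nonneg_left h2 h.le
    have h4 : e * (1 / (e * c) - 1) = 1 / c - e := by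
      field_simp
    rw [h1, mul_add]
    linarith

/-- **the concavity of R.6**: `sum w e log(1/e) <= N log(M/N)`. -/
theorem sum_log_le (s : Finset ι) (w e : ι → ℝ) (hw : ∀ i ∈ s, 0 ≤ w i) (he : ∀ i ∈ s, 0 ≤ e i) :
    ∑ i ∈ s, w i * e i * Real.log (1 / e i)
      ≤ (∑ i ∈ s, w i * e i) * Real.log ((∑ i ∈ s, w i) / ∑ i ∈ s, w i * e i) := by
  have hwe : ∀ i ∈ s, 0 ≤ w i * e i := fun i hi => mul_nonneg (hw i hi) (he i hi)
  rcases (Finset.sum_nonneg hwe).eq_or_lt with h | h
  · have h0 := (Finset.sum_eq_zero_iff_of_nonneg hwe).1 h.symm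
    rw [← h, zero_mul]
    refine (Finset.sum_eq_zero fun i hi => ?_).le
    rw [h0 i hi, zero_mul]
  · have hM : 0 < ∑ i ∈ s, w i := by
      rcases (Finset.sum_nonneg hw).eq_or_lt with h1 | h1
      · have h0 := (Finset.sum_eq_zero_iff_of_nonneg hw).1 h1.symm
        exfalso
        have : ∑ i ∈ s, w i * e i = 0 := Finset.sum_eq_zero fun i hi => by rw [h0 i hi, zero_mul]
        linarith
      · exact h1
    set N := ∑ i ∈ s, w i * e i with hN
    set M := ∑ i ∈ s, w i with hMd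
    have hc : 0 < M / N := by positivity
    calc ∑ i ∈ s, w i * e i * Real.log (1 / e i)
        ≤ ∑ i ∈ s, (w i * e i * Real.log (M / N) + (w i * (1 / (M / N)) - w i * e i)) := by
          refine Finset.sum_le_sum fun i hi => ?_
          have h1 := mul_le_mul_of_nonneg_left (one_term (he i hi) hc) (hw i hi)
          nlinarith [h1]
      _ = N * Real.log (M / N) + (M * (1 / (M / N)) - N) := by
          rw [Finset.sum_add_distrib, Finset.sum_sub_distrib, ← Finset.sum_mul, ← Finset.sum_mul]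
      _ = N * Real.log (M / N) := by
          have h5 : M * (1 / (M / N)) = N := by field_simp
          rw [h5]; ring

/-- the same over the substeps: `sum p_t log(R_t/p_t) <= (sum p) log(sum R / sum p)`. -/
theorem sum_log_le' (s : Finset ι) (R p : ι → ℝ) (hp : ∀ i ∈ s, 0 ≤ p i) (hpR : ∀ i ∈ s, p i ≤ R i) :
    ∑ i ∈ s, p i * Real.log (R i / p i)
      ≤ (∑ i ∈ s, p i) * Real.log ((∑ i ∈ s, R i) / ∑ i ∈ s, p i) := by
  have h1 := sum_log_le s R (fun i => p i / R i) (fun i hi => (hp i hi).trans (hpR i hi))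
    (fun i hi => div_nonneg (hp i hi) ((hp i hi).trans (hpR i hi)))
  have h2 : ∀ i ∈ s, R i * (p i / R i) = p i := by
    intro i hi
    rcases eq_or_ne (R i) 0 with h | h
    · have : p i = 0 := le_antisymm (h ▸ hpR i hi) (hp i hi)
      rw [h, this]; simp
    · field_simp
  rw [Finset.sum_congr rfl h2] at h1
  refine le_trans (le_of_eq (Finset.sum_congr rfl fun i hi => ?_)) h1
  rw [h2 i hi, one_div_div]

/-- `N log(M/N) <= N_T log(M_T/N_T) + N_T` for `N <= N_T`, `M <= M_T`, `N_T <= M_T`. -/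
theorem mono_log {N M NT MT : ℝ} (hN : 0 ≤ N) (hNT : N ≤ NT) (hMT : M ≤ MT) (hNM : N ≤ M) (h : NT ≤ MT) :
    N * Real.log (M / N) ≤ NT * Real.log (MT / NT) + NT := by
  rcases hN.eq_or_lt with h0 | h0
  · subst h0
    rw [zero_mul]
    rcases hNT.eq_or_lt with h1 | h1
    · rw [← h1]; simp
    · have : 0 ≤ Real.log (MT / NT) := Real.log_nonneg (by rwa [le_div_iff₀ h1, one_mul])
      positivity
  · have hNT0 : 0 < NT := h0.trans_le hNT
    have hM0 : 0 < M := h0.trans_le hNM
    have hMT0 : 0 < MT := hM0.trans_le hMT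
    have h1 : Real.log (M / N) ≤ Real.log (MT / N) :=
      Real.log_le_log (by positivity) (div_le_div_of_nonneg_right hMT h0.le)
    have h2 : Real.log (MT / N) = Real.log (MT / NT) + Real.log (NT / N) := by
      rw [← Real.log_mul (by positivity) (by positivity)]
      congr 1
      field_simp
    have h3 : Real.log (NT / N) ≤ NT / N - 1 := Real.log_le_sub_one_of_pos (by positivity)
    have h4 : 0 ≤ Real.log (MT / NT) := Real.log_nonneg (by rwa [le_div_iff₀ hNT0, one_mul])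
    have h5 : N * Real.log (NT / N) ≤ N * (NT / N - 1) := mul_le_mul_of_nonneg_left h3 h0.le
    have h6 : N * (NT / N - 1) = NT - N := by field_simp
    calc N * Real.log (M / N) ≤ N * Real.log (MT / N) := mul_le_mul_of_nonneg_left h1 h0.le
      _ = N * Real.log (MT / NT) + N * Real.log (NT / N) := by rw [h2, mul_add]
      _ ≤ NT * Real.log (MT / NT) + NT := by
          have h7 := mul_le_mul_of_nonneg_right hNT h4
          linarith

/-- `sum w e sqrt((log(1/e) + A)/n) <= N sqrt((log(M/N) + A)/n)`. -/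
theorem sum_sqrt_le (s : Finset ι) (w e : ι → ℝ) (hw : ∀ i ∈ s, 0 ≤ w i) (he : ∀ i ∈ s, 0 ≤ e i)
    (he1 : ∀ i ∈ s, e i ≤ 1) {A n : ℝ} (hA : 0 ≤ A) (hn : 0 < n) :
    ∑ i ∈ s, w i * e i * Real.sqrt ((Real.log (1 / e i) + A) / n)
      ≤ (∑ i ∈ s, w i * e i)
          * Real.sqrt ((Real.log ((∑ i ∈ s, w i) / ∑ i ∈ s, w i * e i) + A) / n) := by
  have hwe : ∀ i ∈ s, 0 ≤ w i * e i := fun i hi => mul_nonneg (hw i hi) (he i hi)
  have hN0 : 0 ≤ ∑ i ∈ s, w i * e i := Finset.sum_nonneg hwe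
  have hL : ∀ i ∈ s, 0 ≤ (Real.log (1 / e i) + A) / n := by
    intro i hi
    refine div_nonneg ?_ hn.le
    rcases (he i hi).eq_or_lt with h | h
    · rw [← h]; simpa using hA
    · have : 0 ≤ Real.log (1 / e i) := Real.log_nonneg (by rw [le_div_iff₀ h, one_mul]; exact he1 i hi)
      linarith
  have h1 : ∑ i ∈ s, w i * e i * Real.sqrt ((Real.log (1 / e i) + A) / n)
      = ∑ i ∈ s, Real.sqrt (w i * e i) * Real.sqrt (w i * e i * ((Real.log (1 / e i) + A) / n)) := by
    refine Finset.sum_congr rfl fun i hi => ?_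
    rw [Real.sqrt_mul (hwe i hi), ← mul_assoc, Real.mul_self_sqrt (hwe i hi)]
  have h2 := Finset.sum_mul_sq_le_sq_mul_sq s (fun i => Real.sqrt (w i * e i))
    (fun i => Real.sqrt (w i * e i * ((Real.log (1 / e i) + A) / n)))
  have h3 : ∑ i ∈ s, Real.sqrt (w i * e i) ^ 2 = ∑ i ∈ s, w i * e i :=
    Finset.sum_congr rfl fun i hi => Real.sq_sqrt (hwe i hi)
  have h4 : ∑ i ∈ s, Real.sqrt (w i * e i * ((Real.log (1 / e i) + A) / n)) ^ 2
      = (∑ i ∈ s, w i * e i * Real.log (1 / e i) + (∑ i ∈ s, w i * e i) * A) / n := by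
    rw [Finset.sum_mul, ← Finset.sum_add_distrib, Finset.sum_div]
    refine Finset.sum_congr rfl fun i hi => ?_
    rw [Real.sq_sqrt (mul_nonneg (hwe i hi) (hL i hi))]
    ring
  rw [h3, h4] at h2
  have h5 := sum_log_le s w e hw he
  rw [h1]
  refine Real.le_sqrt_of_sq_le (h2.trans ?_) |>.trans (le_of_eq ?_) (b := Real.sqrt
    ((∑ i ∈ s, w i * e i) ^ 2 * ((Real.log ((∑ i ∈ s, w i) / ∑ i ∈ s, w i * e i) + A) / n)))
  · have h6 : (∑ i ∈ s, w i * e i * Real.log (1 / e i) + (∑ i ∈ s, w i * e i) * A) / n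
        ≤ ((∑ i ∈ s, w i * e i) * Real.log ((∑ i ∈ s, w i) / ∑ i ∈ s, w i * e i)
            + (∑ i ∈ s, w i * e i) * A) / n := by
      gcongr
    refine (mul_le_mul_of_nonneg_left h6 hN0).trans (le_of_eq ?_)
    ring
  · rw [Real.sqrt_mul (sq_nonneg _), Real.sqrt_sq hN0]

/-- monotone in both: `N sqrt((log(M/N) + A)/n) <= N_T sqrt((log(M_T/N_T) + A)/n)`, `A >= 1/2`. -/
theorem mono_sqrt {N M NT MT A n : ℝ} (hN : 0 ≤ N) (hNT : N ≤ NT) (hMT : M ≤ MT) (hNM : N ≤ M) (h : NT ≤ MT)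
    (hA : 1 / 2 ≤ A) (hn : 0 < n) :
    N * Real.sqrt ((Real.log (M / N) + A) / n) ≤ NT * Real.sqrt ((Real.log (MT / NT) + A) / n) := by
  rcases hN.eq_or_lt with h0 | h0
  · subst h0
    rw [zero_mul]
    exact mul_nonneg hNT (Real.sqrt_nonneg _)
  · have hNT0 : 0 < NT := h0.trans_le hNT
    have hM0 : 0 < M := h0.trans_le hNM
    have hMT0 : 0 < MT := hM0.trans_le hMT
    have h1 : Real.log (M / N) ≤ Real.log (MT / N) :=
      Real.log_le_log (by positivity) (div_le_div_of_nonneg_right hMT h0.le)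
    have h2 : Real.log (MT / N) = Real.log (MT / NT) + Real.log (NT / N) := by
      rw [← Real.log_mul (by positivity) (by positivity)]
      congr 1
      field_simp
    set r := NT / N with hr
    have hr0 : 0 < r := by positivity
    have hr1 : 1 ≤ r := by rw [hr, le_div_iff₀ h0, one_mul]; exact hNT
    have h3 : Real.log r ≤ (r ^ 2 - 1) / 2 := by
      have h31 : Real.log (r ^ 2) ≤ r ^ 2 - 1 := Real.log_le_sub_one_of_pos (by positivity)
      rw [Real.log_pow] at h31
      push_cast at h31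
      linarith
    have h4 : 0 ≤ Real.log (MT / NT) := Real.log_nonneg (by rwa [le_div_iff₀ hNT0, one_mul])
    set L := Real.log (MT / NT) + A with hL
    have hL1 : 1 / 2 ≤ L := by rw [hL]; linarith
    have h5 : L + Real.log r ≤ r ^ 2 * L := by
      have : 0 ≤ r ^ 2 - 1 := by nlinarith
      nlinarith
    have h6 : (Real.log (M / N) + A) / n ≤ r ^ 2 * (L / n) := by
      rw [← mul_div_assoc]
      refine div_le_div_of_nonneg_right ?_ hn.le
      refine le_trans ?_ h5
      rw [hL]; linarith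
    calc N * Real.sqrt ((Real.log (M / N) + A) / n) ≤ N * Real.sqrt (r ^ 2 * (L / n)) :=
          mul_le_mul_of_nonneg_left (Real.sqrt_le_sqrt h6) h0.le
      _ = N * r * Real.sqrt (L / n) := by
          rw [Real.sqrt_mul (sq_nonneg _), Real.sqrt_sq hr0.le]; ring
      _ = NT * Real.sqrt (L / n) := by
          have : N * r = NT := by rw [hr]; field_simp
          rw [this]

/-- **the sum of the prices** (R.6, Cauchy - Schwarz): `d_i <= C sqrt((log(1/e_i)+A)/n)` for
`e_i >= eta`, `d_i <= K0` always. -/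
theorem sum_price (s : Finset ι) (w e d : ι → ℝ) (hw : ∀ i ∈ s, 0 ≤ w i) (he : ∀ i ∈ s, 0 ≤ e i)
    (he1 : ∀ i ∈ s, e i ≤ 1) {A n C K0 eta NT MT : ℝ} (hA : 1 / 2 ≤ A) (hn : 0 < n) (hC : 0 ≤ C)
    (hK : 0 ≤ K0) (heta : 0 ≤ eta)
    (hd : ∀ i ∈ s, eta ≤ e i → d i ≤ C * Real.sqrt ((Real.log (1 / e i) + A) / n))
    (hd1 : ∀ i ∈ s, d i ≤ K0)
    (hNT : ∑ i ∈ s, w i * e i ≤ NT) (hMT : ∑ i ∈ s, w i ≤ MT) (hNM : NT ≤ MT) :
    ∑ i ∈ s, w i * e i * d i
      ≤ C * (NT * Real.sqrt ((Real.log (MT / NT) + A) / n)) + K0 * eta * MT := by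
  have hwe : ∀ i ∈ s, 0 ≤ w i * e i := fun i hi => mul_nonneg (hw i hi) (he i hi)
  have h1 : ∀ i ∈ s, w i * e i * d i
      ≤ C * (w i * e i * Real.sqrt ((Real.log (1 / e i) + A) / n)) + K0 * eta * w i := by
    intro i hi
    rcases le_total eta (e i) with h | h
    · have h2 := mul_le_mul_of_nonneg_left (hd i hi h) (hwe i hi)
      have h3 : 0 ≤ K0 * eta * w i := mul_nonneg (mul_nonneg hK heta) (hw i hi)
      linarith
    · have h2 : w i * e i * d i ≤ w i * e i * K0 := mul_le_mul_of_nonneg_left (hd1 i hi) (hwe i hi)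
      have h3 : w i * e i * K0 ≤ w i * eta * K0 :=
        mul_le_mul_of_nonneg_right (mul_le_mul_of_nonneg_left h (hw i hi)) hK
      have h4 : 0 ≤ C * (w i * e i * Real.sqrt ((Real.log (1 / e i) + A) / n)) :=
        mul_nonneg hC (mul_nonneg (hwe i hi) (Real.sqrt_nonneg _))
      nlinarith
  have h2 := sum_sqrt_le s w e hw he he1 (le_trans (by norm_num) hA) hn
  have hNM' : ∑ i ∈ s, w i * e i ≤ ∑ i ∈ s, w i :=
    Finset.sum_le_sum fun i hi => by
      have := mul_le_mul_of_nonneg_left (he1 i hi) (hw i hi)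
      linarith
  have h3 := mono_sqrt (A := A) (n := n) (Finset.sum_nonneg hwe) hNT hMT hNM' hNM hA hn
  calc ∑ i ∈ s, w i * e i * d i
      ≤ ∑ i ∈ s, (C * (w i * e i * Real.sqrt ((Real.log (1 / e i) + A) / n)) + K0 * eta * w i) :=
        Finset.sum_le_sum h1
    _ = C * ∑ i ∈ s, w i * e i * Real.sqrt ((Real.log (1 / e i) + A) / n) + K0 * eta * ∑ i ∈ s, w i := by
        rw [Finset.sum_add_distrib, Finset.mul_sum, Finset.mul_sum]
    _ ≤ _ := by
        refine add_le_add (mul_le_mul_of_nonneg_left (h2.trans h3) hC) ?_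
        exact mul_le_mul_of_nonneg_left hMT (mul_nonneg hK heta)

end Pool.Agent.GMH.RelSum
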