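import Pool.Agent.GMH.TriA
import Pool.Agent.GMH.RelSum

/-!
# GMH.TriE: sum over the classes and the times of the prices of the bits (helper80; H3.REL R.6)

Laws `P t`, classes `C t`, events `E t`, removals `Rm t` (functions of the class, `E t ⊂ Rm t`), `e = P(E t | class)`.
* `prC` : price of a class, `min K0 (Cc sqrt((log(1/e) + A)/n))` when `e >= eta`, `K0` else;
* `sum_times` : `sum_t P_t.E (1_E d_t) <= Cc NT sqrt((log(MT/NT) + A)/n) + K0 eta MT` for prices `d_t` at most `prC e`.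
-/

set_option autoImplicit false
set_option linter.unusedSectionVars false

namespace Pool.Agent.GMH

open Finset Pool.Agent.PWZ Pool.Agent.M3

noncomputable section

namespace TriE

/-- price of a class with `e = P(E | class)` -/
def prC (A n Cc K0 eta e : ℝ) : ℝ := if eta ≤ e then min K0 (Cc * Real.sqrt ((Real.log (1 / e) + A) / n)) else K0

theorem prC_le {A n Cc K0 eta e : ℝ} : prC A n Cc K0 eta e ≤ K0 := by
  unfold prC
  split_ifs
  · exact min_le_left _ _
  · exact le_rfl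

theorem prC_le2 {A n Cc K0 eta e : ℝ} (h : eta ≤ e) :
    prC A n Cc K0 eta e ≤ Cc * Real.sqrt ((Real.log (1 / e) + A) / n) := by
  unfold prC
  rw [if_pos h]
  exact min_le_right _ _

/-- a bound for the price: `x <= K0` always, `x <= ...` for large `e` -/
theorem le_prC {A n Cc K0 eta e x : ℝ} (h0 : x ≤ K0)
    (h1 : eta ≤ e → x ≤ Cc * Real.sqrt ((Real.log (1 / e) + A) / n)) : x ≤ prC A n Cc K0 eta e := by
  unfold prC
  split_ifs with h
  · exact le_min h0 (h1 h)
  · exact h0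

variable {Om : Type*} [Fintype Om] {χ : Type*}

/-- **THE SUM OVER THE CLASSES AND THE TIMES** -/
theorem sum_times {T : ℕ} (P : ℕ → FP Om) (C : ℕ → Om → χ) (E Rm : ℕ → Om → Prop) (d : ℕ → Om → ℝ)
    (hd : ∀ t < T, Fac (C t) (d t)) (hRm : ∀ t < T, Fac (C t) (Rm t))
    (hER : ∀ t < T, ∀ w, (P t).p w ≠ 0 → E t w → Rm t w)
    {A n Cc K0 eta NT MT : ℝ} (hA : 1 / 2 ≤ A) (hn : 0 < n) (hC : 0 ≤ Cc) (hK : 0 ≤ K0) (heta : 0 ≤ eta)
    (h1 : ∀ t < T, ∀ w, (P t).p w ≠ 0 → Rm t w → d t w ≤ prC A n Cc K0 eta ((P t).ce (C t) (fun v => ind (E t v)) w))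
    (hNT : ∑ t ∈ range T, (P t).Pr (E t) ≤ NT) (hMT : ∑ t ∈ range T, (P t).Pr (Rm t) ≤ MT) (hNM : NT ≤ MT) :
    ∑ t ∈ range T, (P t).E (fun w => ind (E t w) * d t w) ≤
      Cc * (NT * Real.sqrt ((Real.log (MT / NT) + A) / n)) + K0 * eta * MT := by
  classical
  set e : ℕ → Om → ℝ := fun t => (P t).ce (C t) (fun v => ind (E t v)) with he
  have e0 : ∀ t w, 0 ≤ e t w := fun t w => (P t).ce_nonneg (fun v _ => ind_nonneg _) w
  have e1 : ∀ t w, (P t).p w ≠ 0 → e t w ≤ 1 := fun t w hw => (P t).ce_le_const (fun v _ => ind_le_one _) hw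
  have eR : ∀ t < T, ∀ w, ind (Rm t w) * e t w = e t w := by
    intro t ht w
    have h2 : (P t).ce (C t) (fun v => ind (Rm t v) * ind (E t v)) w = ind (Rm t w) * e t w :=
      (P t).ce_mul (X := C t) (h := fun w => ind (Rm t w)) ((hRm t ht).comp fun q => ind q) (fun v => ind (E t v)) w
    rw [← h2]
    refine (P t).ce_congr (fun v hv => ?_) w
    by_cases h3 : E t v
    · rw [ind_of (hER t ht v hv h3), one_mul]
    · rw [ind_not h3, mul_zero]
  set S : Finset (ℕ × Om) := (range T ×ˢ univ).filter fun i => (P i.1).p i.2 ≠ 0 with hS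
  have hSm : ∀ i ∈ S, i.1 < T ∧ (P i.1).p i.2 ≠ 0 := fun i hi => by
    rw [hS, Finset.mem_filter, Finset.mem_product, Finset.mem_range] at hi
    exact ⟨hi.1.1, hi.2⟩
  have key : ∀ F : ℕ → Om → ℝ, ∑ t ∈ range T, (P t).E (F t) = ∑ i ∈ S, (P i.1).p i.2 * F i.1 i.2 := by
    intro F
    have h2 : ∑ t ∈ range T, (P t).E (F t) = ∑ i ∈ range T ×ˢ (univ : Finset Om), (P i.1).p i.2 * F i.1 i.2 := by
      rw [Finset.sum_product]
      rfl
    rw [h2, hS, Finset.sum_filter_of_ne]
    intro i _ hi h3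
    exact hi (by rw [h3, zero_mul])
  have k1 : ∑ t ∈ range T, (P t).E (fun w => ind (E t w) * d t w) =
      ∑ i ∈ S, ((P i.1).p i.2 * ind (Rm i.1 i.2)) * e i.1 i.2 * d i.1 i.2 := by
    have h2 : ∑ t ∈ range T, (P t).E (fun w => ind (E t w) * d t w) =
        ∑ t ∈ range T, (P t).E (fun w => ind (Rm t w) * (e t w * d t w)) := by
      refine Finset.sum_congr rfl fun t ht => ?_
      have ht' := Finset.mem_range.1 ht
      rw [← (P t).E_ce_mul (hd t ht') (fun w => ind (E t w))]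
      refine (P t).E_congr fun w _ => ?_
      rw [← mul_assoc, eR t ht' w]
    rw [h2, key]
    exact Finset.sum_congr rfl fun i _ => by ring
  have k2 : ∑ i ∈ S, ((P i.1).p i.2 * ind (Rm i.1 i.2)) * e i.1 i.2 ≤ NT := by
    refine le_trans (le_of_eq ?_) hNT
    have h2 : ∑ t ∈ range T, (P t).Pr (E t) = ∑ t ∈ range T, (P t).E (fun w => ind (Rm t w) * e t w) := by
      refine Finset.sum_congr rfl fun t ht => ?_
      have ht' := Finset.mem_range.1 ht
      rw [show (P t).Pr (E t) = (P t).E (fun w => ind (E t w)) from rfl, ← (P t).E_ce (C t) (fun w => ind (E t w))]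
      exact (P t).E_congr fun w _ => (eR t ht' w).symm
    rw [h2, key]
    exact Finset.sum_congr rfl fun i _ => by ring
  have k3 : ∑ i ∈ S, (P i.1).p i.2 * ind (Rm i.1 i.2) ≤ MT := by
    refine le_trans (le_of_eq ?_) hMT
    exact (key fun t w => ind (Rm t w)).symm
  -- outside the removals the price does not count
  set d' : ℕ × Om → ℝ := fun i => if Rm i.1 i.2 then d i.1 i.2 else min (d i.1 i.2) 0 with hd'
  have k4 : ∀ i ∈ S, ((P i.1).p i.2 * ind (Rm i.1 i.2)) * e i.1 i.2 * d i.1 i.2 =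
      ((P i.1).p i.2 * ind (Rm i.1 i.2)) * e i.1 i.2 * d' i := by
    intro i _
    by_cases h2 : Rm i.1 i.2
    · simp only [hd']
      rw [if_pos h2]
    · rw [ind_not h2]
      ring
  rw [k1, Finset.sum_congr rfl k4]
  refine RelSum.sum_price S (fun i => (P i.1).p i.2 * ind (Rm i.1 i.2)) (fun i => e i.1 i.2) d'
    (fun i _ => mul_nonneg ((P i.1).nn i.2) (ind_nonneg _)) (fun i _ => e0 i.1 i.2) (fun i hi => e1 i.1 i.2 (hSm i hi).2)
    hA hn hC hK heta (fun i hi h2 => ?_) (fun i hi => ?_) k2 k3 hNM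
  · by_cases h3 : Rm i.1 i.2
    · simp only [hd']
      rw [if_pos h3]
      exact (h1 i.1 (hSm i hi).1 i.2 (hSm i hi).2 h3).trans (prC_le2 h2)
    · simp only [hd']
      rw [if_neg h3]
      exact (min_le_right _ _).trans (mul_nonneg hC (Real.sqrt_nonneg _))
  · by_cases h3 : Rm i.1 i.2
    · simp only [hd']
      rw [if_pos h3]
      exact (h1 i.1 (hSm i hi).1 i.2 (hSm i hi).2 h3).trans prC_le
    · simp only [hd']
      rw [if_neg h3]
      exact (min_le_right _ _).trans hK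

end TriE

end

end Pool.Agent.GMH
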