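import Pool.Agent.GMH.BitPrF
import Pool.Agent.GMH.TriE
import Pool.Agent.GMH.Stmt

/-!
# GMH.BitUn: products of bits, numbers and the sum over the public classes (helper56; gm row H3.REL, R.5, R.6)

Prices `pr3 K n N1`.  `rt0 n A p = sqrt ((log (1/p) + A)/n)`, `A = 1 + 2 log (1/al + 1)`,
`n (2 log M + log (1/al) + 1) <= N1`.
* `Sh_num`, `St_num` : `Sh <= 2 P(C) p rt0 p`, `St <= P(C) (4 p_b rt0 p_b + 2 p_c rt0 p_c)`;
* `sum_pub` : from one public class to the whole law;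
* `Dp` : price `min 2 (c rt0)` of a bit in its public class; `two_dev`, `three_dev` : the deviation inside two and three
  bits, whole law, up to the part of `TV3`;
* `un_dev` : **the deviation inside a union of three bits and one bit of the hidden point**.
-/

set_option autoImplicit false
set_option linter.unusedSectionVars false

namespace Pool.Agent.GMH

open Finset Pool.Agent.PWZ Pool.Agent.M3 Pool.Agent.GM Pool.Agent.GM.Harm

section num

/-- the rate -/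
noncomputable def rt0 (n A p : ℝ) : ℝ := Real.sqrt ((Real.log (1 / p) + A) / n)

theorem rt0_nn (n A p : ℝ) : 0 ≤ rt0 n A p := Real.sqrt_nonneg _

variable {K : Type} [Fintype K] [DecidableEq K]

theorem pr3_0 (n N1 : ℝ) : pr3 K n N1 ∅ = 1 := by
  unfold pr3
  rw [if_pos Finset.card_empty]

theorem pr3_s (n N1 : ℝ) (j : K) : pr3 K n N1 {j} = N1 := by
  unfold pr3
  rw [if_neg (by rw [Finset.card_singleton]; exact one_ne_zero), if_pos (Finset.card_singleton j)]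

theorem log_al {al : ℝ} (h0 : 0 < al) (h1 : al ≤ 1) : 0 ≤ Real.log (1 / al) ∧ 0 ≤ Real.log (1 / al + 1) := by
  have h2 : 1 ≤ 1 / al := by rw [le_div_iff₀ h0]; linarith
  exact ⟨Real.log_nonneg h2, Real.log_nonneg (by linarith)⟩

/-- rate of a face with a hardwired vertex -/
theorem num_h (hK : Fintype.card K = 3) {n N1 al M p : ℝ} (hn : 1 ≤ n) (hM : 1 ≤ M) (h0 : 0 < al) (h1 : al ≤ 1)
    (hN : n * (2 * Real.log M + Real.log (1 / al) + 1) ≤ N1) (hp : 0 < p) (hp1 : p ≤ 1) (b c d : K) :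
    Real.sqrt (2 * kaph (pr3 K n N1) al b c d (Real.log (M / p))) ≤ 2 * rt0 n (1 + 2 * Real.log (1 / al + 1)) p := by
  obtain ⟨l1, l2⟩ := log_al h0 h1
  have lM : 0 ≤ Real.log M := Real.log_nonneg hM
  have lp : 0 ≤ Real.log (1 / p) := Real.log_nonneg (by rw [le_div_iff₀ hp]; linarith)
  have hN1 : 2 * Real.log M + Real.log (1 / al) + 1 ≤ N1 := by
    have h2 : 0 ≤ 2 * Real.log M + Real.log (1 / al) + 1 := by linarith
    nlinarith
  have hN1' : 1 ≤ N1 := by linarith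
  have e1 : Real.log (M / p) = Real.log M + Real.log (1 / p) := by
    rw [← Real.log_mul (by positivity) (by positivity)]
    congr 1
    ring
  have e2 : 2 * rt0 n (1 + 2 * Real.log (1 / al + 1)) p =
      Real.sqrt (4 * ((Real.log (1 / p) + (1 + 2 * Real.log (1 / al + 1))) / n)) := by
    unfold rt0
    rw [show (4 : ℝ) = 2 ^ 2 by norm_num, Real.sqrt_mul (by positivity), Real.sqrt_sq (by norm_num)]
  rw [e2]
  refine Real.sqrt_le_sqrt ?_
  unfold kaph
  rw [pr3_0, pr3_s, pr3_s, pr3_top hK, e1]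
  rw [← mul_div_assoc, ← mul_div_assoc, div_le_div_iff₀ (by positivity) (by positivity)]
  have h3 : Real.log M + 1 ≤ N1 := by linarith
  have h4 : 2 * (2 * 1 * (Real.log M + Real.log (1 / p) + 1) + 2 * ((N1 + N1) * Real.log (1 / al + 1))) ≤
      4 * (Real.log (1 / p) + (1 + 2 * Real.log (1 / al + 1))) * N1 := by
    have h5 : Real.log (1 / p) ≤ Real.log (1 / p) * N1 := le_mul_of_one_le_right lp hN1'
    nlinarith
  have h6 : 0 ≤ n := by linarith
  nlinarith [mul_le_mul_of_nonneg_right h4 h6]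

/-- rate of the bits -/
theorem num_b (hK : Fintype.card K = 3) {n N1 al p : ℝ} (hn : 1 ≤ n) (hN1 : 1 ≤ N1) (h0 : 0 < al) (h1 : al ≤ 1)
    (b d : K) :
    Real.sqrt (pr3 K n N1 {b} * (Real.log (1 / p) + 1) / pr3 K n N1 (univ.erase d)) ≤
      rt0 n (1 + 2 * Real.log (1 / al + 1)) p := by
  obtain ⟨l1, l2⟩ := log_al h0 h1
  unfold rt0
  refine Real.sqrt_le_sqrt ?_
  rw [pr3_s, pr3_top hK, mul_comm n N1, mul_div_mul_left _ _ (by positivity)]
  refine div_le_div_of_nonneg_right ?_ (by linarith)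
  linarith

/-- rate of the foreign letter -/
theorem num_d {n N1 al M p : ℝ} (hn : 1 ≤ n) (hM : 1 ≤ M) (h0 : 0 < al) (h1 : al ≤ 1)
    (hN : n * (2 * Real.log M + Real.log (1 / al) + 1) ≤ N1) (hp : 0 < p) (hp1 : p ≤ 1) (d : K) :
    Real.sqrt (2 * kpd (pr3 K n N1) d (Real.log (M * (M * (1 / al)) / p))) ≤
      2 * rt0 n (1 + 2 * Real.log (1 / al + 1)) p := by
  obtain ⟨l1, l2⟩ := log_al h0 h1
  have lM : 0 ≤ Real.log M := Real.log_nonneg hM
  have lp : 0 ≤ Real.log (1 / p) := Real.log_nonneg (by rw [le_div_iff₀ hp]; linarith)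
  have hN1' : n ≤ N1 := by nlinarith
  have hN1 : 0 < N1 := by linarith
  have e1 : Real.log (M * (M * (1 / al)) / p) = 2 * Real.log M + Real.log (1 / al) + Real.log (1 / p) := by
    have a1 : 0 < M := by linarith
    rw [show M * (M * (1 / al)) / p = M * (M * (1 / al)) * (1 / p) by ring, Real.log_mul (by positivity) (by positivity),
      Real.log_mul (by positivity) (by positivity), Real.log_mul (by positivity) (by positivity)]
    ring
  have e2 : 2 * rt0 n (1 + 2 * Real.log (1 / al + 1)) p =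
      Real.sqrt (4 * ((Real.log (1 / p) + (1 + 2 * Real.log (1 / al + 1))) / n)) := by
    unfold rt0
    rw [show (4 : ℝ) = 2 ^ 2 by norm_num, Real.sqrt_mul (by positivity), Real.sqrt_sq (by norm_num)]
  rw [e2]
  refine Real.sqrt_le_sqrt ?_
  unfold kpd
  rw [pr3_0, pr3_s, e1]
  rw [← mul_div_assoc, ← mul_div_assoc, div_le_div_iff₀ hN1 (by linarith)]
  have h5 : Real.log (1 / p) * n ≤ Real.log (1 / p) * N1 := mul_le_mul_of_nonneg_left hN1' lp
  have h6 : 0 ≤ Real.log (1 / al + 1) * N1 := mul_nonneg l2 hN1.le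
  nlinarith

end num

section un

variable {K X β γ φ υ : Type} [Fintype K] [DecidableEq K] [Fintype X] [Fintype β] [Fintype φ] [Nonempty X] [Nonempty β]
  {D : HD K X β γ φ} {al : ℝ} {h : D.Thick al} {n N1 : ℝ} {S : Finset (Finset K)}
  {U : Finset K → X → (K → β) → υ} {t : ℕ} {b c d : K} {w0 : Pt K X β φ} {E : K → Pt K X β φ → Prop}

/-- probability of the event in the public class -/
noncomputable def pcu (h : D.Thick al) (U : Finset K → X → (K → β) → υ) (t : ℕ) (F : Pt K X β φ → Prop)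
    (w : Pt K X β φ) : ℝ := ((D.P h t).cond (xc D U t ∅ w)).Pr F

theorem pcu_eq (F : Pt K X β φ → Prop) (hC : (D.P h t).Pr (xc D U t ∅ w0) ≠ 0) :
    pcu h U t F w0 = (D.P h t).Pr (fun v => xc D U t ∅ w0 v ∧ F v) / (D.P h t).Pr (xc D U t ∅ w0) :=
  FP.cond_Pr hC F

theorem Sh_num (hK : Fintype.card K = 3) (hn : 1 ≤ n) {M : ℝ} (hM : 1 ≤ M)
    (hN : n * (2 * Real.log M + Real.log (1 / al) + 1) ≤ N1)
    (hC : (D.P h t).Pr (xc D U t ∅ w0) ≠ 0) (hE0 : (D.P h t).Pr (fun v => xc D U t ∅ w0 v ∧ E b v) ≠ 0) :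
    Sh h (pr3 K n N1) U t w0 E M b c d ≤ (D.P h t).Pr (xc D U t ∅ w0) *
      (2 * (pcu h U t (E b) w0 * rt0 n (1 + 2 * Real.log (1 / al + 1)) (pcu h U t (E b) w0))) := by
  have hC1 : 0 < (D.P h t).Pr (xc D U t ∅ w0) := lt_of_le_of_ne (FP.Pr_nonneg _ _) (Ne.symm hC)
  have hE1 : 0 < (D.P h t).Pr (fun v => xc D U t ∅ w0 v ∧ E b v) := lt_of_le_of_ne (FP.Pr_nonneg _ _) (Ne.symm hE0)
  have hp : 0 < pcu h U t (E b) w0 := by rw [pcu_eq _ hC]; positivity
  have hp1 : pcu h U t (E b) w0 ≤ 1 := FP.Pr_le_one _ _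
  have e1 : (D.P h t).Pr (fun v => xc D U t ∅ w0 v ∧ E b v) = (D.P h t).Pr (xc D U t ∅ w0) * pcu h U t (E b) w0 := by
    rw [pcu_eq _ hC, mul_div_cancel₀ _ hC]
  have e2 : Lv h U t w0 E M b = Real.log (M / pcu h U t (E b) w0) := by
    unfold Lv
    rw [e1]
    congr 1
    field_simp
  have h2 := num_h hK hn hM h.pos (hal_one h b) hN hp hp1 b c d
  unfold Sh
  rw [e2, e1]
  have h3 := mul_le_mul_of_nonneg_left h2 (mul_nonneg hC1.le hp.le)
  linarith

theorem St_num (hK : Fintype.card K = 3) (hn : 1 ≤ n) {M : ℝ} (hM : 1 ≤ M)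
    (hN : n * (2 * Real.log M + Real.log (1 / al) + 1) ≤ N1)
    (hV0 : (D.P h t).Pr (Vp D U t w0 E b c d) ≠ 0) :
    St h (pr3 K n N1) U t w0 E M b c d ≤ (D.P h t).Pr (xc D U t ∅ w0) *
      (4 * (pcu h U t (E b) w0 * rt0 n (1 + 2 * Real.log (1 / al + 1)) (pcu h U t (E b) w0)) +
       2 * (pcu h U t (E c) w0 * rt0 n (1 + 2 * Real.log (1 / al + 1)) (pcu h U t (E c) w0))) := by
  set A := 1 + 2 * Real.log (1 / al + 1) with hA
  obtain ⟨l1, l2⟩ := log_al h.pos (hal_one h b)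
  have hC : (D.P h t).Pr (xc D U t ∅ w0) ≠ 0 := by
    intro h1
    refine hV0 (le_antisymm ?_ (FP.Pr_nonneg _ _))
    rw [← h1]
    exact (D.P h t).Pr_mono fun w _ hw => hw.1
  have hC1 : 0 < (D.P h t).Pr (xc D U t ∅ w0) := lt_of_le_of_ne (FP.Pr_nonneg _ _) (Ne.symm hC)
  have hV1 : 0 < (D.P h t).Pr (Vp D U t w0 E b c d) := lt_of_le_of_ne (FP.Pr_nonneg _ _) (Ne.symm hV0)
  have hN1 : 1 ≤ N1 := by
    have lM : 0 ≤ Real.log M := Real.log_nonneg hM
    nlinarith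
  set F : Pt K X β φ → Prop := fun v => E b v ∧ (E c v ∧ E d v) with hF
  have e1 : (D.P h t).Pr (Vp D U t w0 E b c d) = (D.P h t).Pr (xc D U t ∅ w0) * pcu h U t F w0 := by
    rw [pcu_eq _ hC, mul_div_cancel₀ _ hC]
    rfl
  have hp : 0 < pcu h U t F w0 := by
    by_contra hn
    have h1 : pcu h U t F w0 = 0 := le_antisymm (not_lt.1 hn) (FP.Pr_nonneg _ _)
    rw [e1, h1, mul_zero] at hV1
    exact lt_irrefl _ hV1
  have hpb : pcu h U t F w0 ≤ pcu h U t (E b) w0 := FP.Pr_mono _ fun w _ hw => hw.1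
  have hpb0 : 0 < pcu h U t (E b) w0 := lt_of_lt_of_le hp hpb
  have hpb1 : pcu h U t (E b) w0 ≤ 1 := FP.Pr_le_one _ _
  have r1 := num_b (p := pcu h U t (E b) w0) hK hn hN1 h.pos (hal_one h b) b d
  have r2 := num_b (p := pcu h U t (E c) w0) hK hn hN1 h.pos (hal_one h b) c d
  have r3 := num_d (p := pcu h U t F w0) (K := K) hn hM h.pos (hal_one h b) hN hp (hpb.trans hpb1) d
  have e3 : M * (M * (1 / al)) * (D.P h t).Pr (xc D U t ∅ w0) / (D.P h t).Pr (Vp D U t w0 E b c d) =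
      M * (M * (1 / al)) / pcu h U t F w0 := by
    rw [e1]
    field_simp
  -- monotone
  have hmono : pcu h U t F w0 * rt0 n A (pcu h U t F w0) ≤ pcu h U t (E b) w0 * rt0 n A (pcu h U t (E b) w0) := by
    have hxy : ∀ p q : ℝ, 0 < p → p ≤ q → q ≤ 1 → p * rt0 n A p ≤ q * rt0 n A q := by
      intro p q h0 h1 h2
      have hq : 0 < q := lt_of_lt_of_le h0 h1
      have a1 : ∀ x : ℝ, 0 ≤ x → x * rt0 n A x = Real.sqrt (x ^ 2 * ((Real.log (1 / x) + A) / n)) := by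
        intro x hx
        unfold rt0
        rw [Real.sqrt_mul (sq_nonneg x), Real.sqrt_sq hx]
      rw [a1 p h0.le, a1 q hq.le]
      refine Real.sqrt_le_sqrt ?_
      rw [← mul_div_assoc, ← mul_div_assoc]
      refine div_le_div_of_nonneg_right ?_ (by linarith)
      have a2 : Real.log (1 / p) = Real.log (1 / q) + Real.log (q / p) := by
        rw [← Real.log_mul (by positivity) (by positivity)]
        congr 1
        field_simp
      have a3 : Real.log (q / p) ≤ q / p - 1 := Real.log_le_sub_one_of_pos (by positivity)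
      have a4 : 0 ≤ Real.log (1 / q) := Real.log_nonneg (by rw [le_div_iff₀ hq]; linarith)
      have a5 : p ^ 2 * Real.log (q / p) ≤ p ^ 2 * (q / p - 1) := mul_le_mul_of_nonneg_left a3 (sq_nonneg p)
      have a6 : p ^ 2 * (q / p - 1) = p * (q - p) := by field_simp
      have a7 : p ^ 2 ≤ q ^ 2 := by nlinarith
      have a8 : p ^ 2 * (Real.log (1 / q) + A) ≤ q ^ 2 * (Real.log (1 / q) + A) - (q ^ 2 - p ^ 2) := by
        have : 1 ≤ Real.log (1 / q) + A := by linarith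
        nlinarith
      rw [a2]
      nlinarith
    exact hxy _ _ hp hpb hpb1
  unfold St
  rw [e3]
  have e4 : ((D.P h t).cond (xc D U t ∅ w0)).Pr (E b) = pcu h U t (E b) w0 := rfl
  have e5 : ((D.P h t).cond (xc D U t ∅ w0)).Pr (E c) = pcu h U t (E c) w0 := rfl
  rw [e4, e5]
  have hpc0 : 0 ≤ pcu h U t (E c) w0 := FP.Pr_nonneg _ _
  have s1 := mul_le_mul_of_nonneg_left r1 hpb0.le
  have s2 := mul_le_mul_of_nonneg_left r2 hpc0
  have s3 := mul_le_mul_of_nonneg_left r3 hV1.le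
  have s4 : (D.P h t).Pr (Vp D U t w0 E b c d) * (2 * rt0 n A (pcu h U t F w0)) ≤
      (D.P h t).Pr (xc D U t ∅ w0) * (2 * (pcu h U t (E b) w0 * rt0 n A (pcu h U t (E b) w0))) := by
    rw [e1]
    have := mul_le_mul_of_nonneg_left hmono hC1.le
    linarith
  have s5 := mul_le_mul_of_nonneg_left (add_le_add (mul_le_mul_of_nonneg_left s1 (zero_le_two (α := ℝ)))
    (mul_le_mul_of_nonneg_left s2 (zero_le_two (α := ℝ)))) hC1.le
  linarith

/-- public data -/
noncomputable def kp0 (D : HD K X β γ φ) (U : Finset K → X → (K → β) → υ) (t : ℕ) (w : Pt K X β φ) :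
    (Finset K → Option (υ × (K → Option φ))) × ((K → Option β) × (γ × (K → γ))) := (le (LL U) ∅ w, BB D t ∅ w)

theorem xc_kp {w0 w : Pt K X β φ} : xc D U t ∅ w0 w = (kp0 D U t w = kp0 D U t w0) :=
  propext ⟨fun hh => Prod.ext hh.1 hh.2, fun hh => ⟨congrArg Prod.fst hh, congrArg Prod.snd hh⟩⟩

theorem pcu_ce (F : Pt K X β φ → Prop) (hw : (D.P h t).p w0 ≠ 0) :
    (D.P h t).ce (kp0 D U t) (fun v => ind (F v)) w0 = pcu h U t F w0 := by
  have hC : (D.P h t).Pr (xc D U t ∅ w0) ≠ 0 := (FP.Pr_pos_of (S := xc D U t ∅ w0) hw ⟨rfl, rfl⟩).ne'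
  rw [pcu_eq F hC]
  unfold FP.ce FP.m FP.Pr
  have e : ∀ v, (kp0 D U t v = kp0 D U t w0) = xc D U t ∅ w0 v := fun v => xc_kp.symm
  simp only [e, ind_and]

/-- **from one class to the whole law** -/
theorem sum_pub {Om χ : Type*} [Fintype Om] (P : FP Om) {C : Om → χ} {F : Om → Prop} {f G r : Om → ℝ}
    (H : ∀ w0, P.p w0 ≠ 0 → |P.E (fun w => ind (C w = C w0 ∧ F w) * f w)| ≤
      P.Pr (fun w => C w = C w0) * G w0 + P.E (fun w => ind (C w = C w0 ∧ F w) * r w)) :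
    |P.E (fun w => ind (F w) * f w)| ≤ P.E G + P.E (fun w => ind (F w) * r w) := by
  have e1 : ∀ g : Om → ℝ, ∀ w0, P.E (fun w => ind (C w = C w0) * (ind (F w) * g w)) =
      P.E (fun w => ind (C w = C w0 ∧ F w) * g w) := fun g w0 => P.E_congr fun w _ => by rw [ind_and]; ring
  have key : ∀ w0, P.p w0 ≠ 0 → |P.ce C (fun w => ind (F w) * f w) w0| ≤ G w0 + P.ce C (fun w => ind (F w) * r w) w0 := by
    intro w0 hw0
    have hm := P.m_pos C hw0
    have hm' : P.Pr (fun w => C w = C w0) = P.m C w0 := rfl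
    unfold FP.ce
    rw [abs_div, abs_of_pos hm, e1 f, e1 r, div_le_iff₀ hm, add_mul, div_mul_cancel₀ _ hm.ne', ← hm', mul_comm (G w0)]
    exact H w0 hw0
  rw [← P.E_ce C (fun w => ind (F w) * f w), ← P.E_ce C (fun w => ind (F w) * r w), ← P.E_add, abs_le, ← P.E_neg]
  exact ⟨P.E_mono fun w hw => (abs_le.1 (key w hw)).1, P.E_mono fun w hw => (abs_le.1 (key w hw)).2⟩

/-- price of a bit in its public class -/
noncomputable def Dp (h : D.Thick al) (U : Finset K → X → (K → β) → υ) (t : ℕ) (n A c : ℝ) (F : Pt K X β φ → Prop)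
    (w : Pt K X β φ) : ℝ := TriE.prC A n c 2 0 ((D.P h t).ce (kp0 D U t) (fun v => ind (F v)) w)

theorem Dp_fac (n A c : ℝ) (F : Pt K X β φ → Prop) : Fac (kp0 D U t) (Dp h U t n A c F) :=
  ((D.P h t).ce_fac (kp0 D U t) (fun v => ind (F v))).comp fun e => TriE.prC A n c 2 0 e

theorem prC_0 {A n c e : ℝ} (he : 0 ≤ e) : TriE.prC A n c 2 0 e = min 2 (c * rt0 n A e) := by
  unfold TriE.prC rt0
  rw [if_pos he]

theorem Dp_eq {n A c : ℝ} (F : Pt K X β φ → Prop) (hw : (D.P h t).p w0 ≠ 0) :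
    Dp h U t n A c F w0 = min 2 (c * rt0 n A (pcu h U t F w0)) := by
  unfold Dp
  rw [pcu_ce F hw, prC_0 (e := pcu h U t F w0) (FP.Pr_nonneg _ _)]

theorem E_cls_mul (F : Pt K X β φ → Prop) {G : Pt K X β φ → ℝ} (hG : Fac (kp0 D U t) G) :
    (D.P h t).E (fun w => (D.P h t).ce (kp0 D U t) (fun v => ind (F v)) w * G w) =
      (D.P h t).E (fun w => ind (F w) * G w) := (D.P h t).E_ce_mul hG (fun v => ind (F v))

variable {ι : Type} {W : Pt K X β φ → ι} {a g : Pt K X β φ → ℝ}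

/-- the trivial bound -/
theorem dev_triv (V : Pt K X β φ → Prop) (h0 : ∀ w, 0 ≤ a w) (h1 : ∀ w, a w ≤ 1) (hb : ∀ w, |g w| ≤ 1) :
    |(D.P h t).E (fun w => ind (V w) * (a w * (g w - (D.P h t).ce W g w)))| ≤ 2 * (D.P h t).Pr V := by
  have e1 : 2 * (D.P h t).Pr V = (D.P h t).E (fun w => ind (V w) * 2) := by
    rw [FP.Pr, mul_comm, ← (D.P h t).E_mul_const]
  rw [e1, abs_le, ← (D.P h t).E_neg]
  have k : ∀ w, |ind (V w) * (a w * (g w - (D.P h t).ce W g w))| ≤ ind (V w) * 2 := by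
    intro w
    rw [abs_mul, abs_of_nonneg (ind_nonneg _), abs_mul, abs_of_nonneg (h0 w)]
    refine mul_le_mul_of_nonneg_left ?_ (ind_nonneg _)
    have g1 : |(D.P h t).ce W g w| ≤ 1 := (D.P h t).abs_ce_le_one (fun v _ => hb v) W w
    have g2 : |g w - (D.P h t).ce W g w| ≤ 2 := (abs_sub _ _).trans (by linarith [hb w])
    have g3 := mul_le_mul (h1 w) g2 (abs_nonneg _) zero_le_one
    linarith
  exact ⟨(D.P h t).E_mono fun w _ => (abs_le.1 (k w)).1, (D.P h t).E_mono fun w _ => (abs_le.1 (k w)).2⟩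

/-- the smaller of the trivial bound and of the sum of the prices -/
theorem min_two {x V pC T pb pc rb rc : ℝ} (hC : 0 ≤ pC) (hT : 0 ≤ T) (hb0 : 0 ≤ pb) (hc0 : 0 ≤ pc)
    (hVb : V ≤ pC * pb) (hVc : V ≤ pC * pc) (x2 : x ≤ 2 * V) (rb0 : 0 ≤ rb) (rc0 : 0 ≤ rc)
    (x1 : x ≤ pC * (pb * rb + pc * rc) + T) : x ≤ pC * (pb * min 2 rb + pc * min 2 rc) + T := by
  have b0 : 0 ≤ min 2 rb := le_min (by norm_num) rb0
  have c0 : 0 ≤ min 2 rc := le_min (by norm_num) rc0
  have pb0 : 0 ≤ pC * pb := mul_nonneg hC hb0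
  have pc0 : 0 ≤ pC * pc := mul_nonneg hC hc0
  have t1 := mul_nonneg pb0 b0
  have t2 := mul_nonneg pc0 c0
  have e : pC * (pb * min 2 rb + pc * min 2 rc) = pC * pb * min 2 rb + pC * pc * min 2 rc := by ring
  rw [e]
  rcases le_total 2 rb with h1 | h1
  · rw [min_eq_left h1] at t1 ⊢
    nlinarith
  · rcases le_total 2 rc with h2 | h2
    · rw [min_eq_left h2] at t2 ⊢
      nlinarith
    · rw [min_eq_right h1, min_eq_right h2]
      linarith

theorem TV_nn (h0 : ∀ w, 0 ≤ a w) (w0 : Pt K X β φ) :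
    0 ≤ a w0 * TV3 (D.P h t) (Zo D U t) Fc W w0 := mul_nonneg (h0 w0) (TV3_nonneg w0)

/-- **THE DEVIATION INSIDE TWO BITS, whole law** -/
theorem two_dev (B : Bk h (pr3 K n N1) S U t b c d) (hK : Fintype.card K = 3) (hn : 1 ≤ n)
    (hE : ∀ j, Fac (Ah D t {j}) (E j)) (hEd : ∀ v, E d v) {M : ℝ} (hM1 : 1 ≤ M)
    (hN : n * (2 * Real.log M + Real.log (1 / al) + 1) ≤ N1)
    (hMb : ∀ w0, LetM D U t w0 E M b) (hMc : ∀ w0, LetM D U t w0 E M c)
    (hW1 : ∀ i, Fac W (Zo D U t i)) (hW2 : Fac (Wf D U t) W) (ha : Fac W a) (h0 : ∀ w, 0 ≤ a w) (h1 : ∀ w, a w ≤ 1)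
    (hg : Fac (fun w => (tup (Fc : K → Pt K X β φ → φ) w, W w)) g) (hb : ∀ w, |g w| ≤ 1) :
    |(D.P h t).E (fun w => ind (E b w ∧ E c w) * (a w * (g w - (D.P h t).ce W g w)))| ≤
      (D.P h t).E (fun w => ind (E b w) * Dp h U t n (1 + 2 * Real.log (1 / al + 1)) 6 (E b) w) +
      (D.P h t).E (fun w => ind (E c w) * Dp h U t n (1 + 2 * Real.log (1 / al + 1)) 6 (E c) w) +
      (D.P h t).E (fun w => ind (E b w) * (a w * TV3 (D.P h t) (Zo D U t) Fc W w)) := by
  set A := 1 + 2 * Real.log (1 / al + 1) with hA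
  set P := D.P h t with hP
  set F : Pt K X β φ → Prop := fun w => E b w ∧ E c w with hF
  set G : Pt K X β φ → ℝ := fun w => P.ce (kp0 D U t) (fun v => ind (E b v)) w * Dp h U t n A 6 (E b) w +
    P.ce (kp0 D U t) (fun v => ind (E c v)) w * Dp h U t n A 6 (E c) w with hG
  have k := sum_pub P (C := kp0 D U t) (F := F) (f := fun w => a w * (g w - P.ce W g w)) (G := G)
    (r := fun w => a w * TV3 P (Zo D U t) Fc W w) (fun w0 hw0 => by
      have eV : (fun w => kp0 D U t w = kp0 D U t w0 ∧ F w) = Vp D U t w0 E b c d := by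
        funext w
        refine propext ⟨fun hh => ⟨by rw [xc_kp]; exact hh.1, hh.2.1, hh.2.2, hEd w⟩,
          fun hh => ⟨by rw [← xc_kp]; exact hh.1, hh.2.1, hh.2.2.1⟩⟩
      have eC : (fun w => kp0 D U t w = kp0 D U t w0) = xc D U t ∅ w0 := by
        funext w
        exact xc_kp.symm
      have hC1 : 0 < P.Pr (xc D U t ∅ w0) := FP.Pr_pos_of (S := xc D U t ∅ w0) hw0 ⟨rfl, rfl⟩
      have e1 : ∀ f : Pt K X β φ → ℝ, P.E (fun w => ind (kp0 D U t w = kp0 D U t w0 ∧ F w) * f w) =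
          P.E (fun w => ind (Vp D U t w0 E b c d w) * f w) := fun f => P.E_congr fun w _ => by
        have : (kp0 D U t w = kp0 D U t w0 ∧ F w) = Vp D U t w0 E b c d w := congrFun eV w
        rw [this]
      rw [e1, e1, eC]
      have hT : 0 ≤ P.E (fun w => ind (Vp D U t w0 E b c d w) * (a w * TV3 P (Zo D U t) Fc W w)) :=
        P.E_nonneg fun w _ => mul_nonneg (ind_nonneg _) (TV_nn h0 w)
      have g1 : G w0 = pcu h U t (E b) w0 * min 2 (6 * rt0 n A (pcu h U t (E b) w0)) +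
          pcu h U t (E c) w0 * min 2 (6 * rt0 n A (pcu h U t (E c) w0)) := by
        show P.ce (kp0 D U t) (fun v => ind (E b v)) w0 * Dp h U t n A 6 (E b) w0 +
          P.ce (kp0 D U t) (fun v => ind (E c v)) w0 * Dp h U t n A 6 (E c) w0 = _
        rw [Dp_eq (E b) hw0, Dp_eq (E c) hw0, pcu_ce (E b) hw0, pcu_ce (E c) hw0]
      rw [g1]
      have x2 := dev_triv (h := h) (t := t) (W := W) (Vp D U t w0 E b c d) h0 h1 hb
      by_cases hV0 : P.Pr (Vp D U t w0 E b c d) = 0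
      · have x3 : |P.E (fun w => ind (Vp D U t w0 E b c d w) * (a w * (g w - P.ce W g w)))| ≤ 0 := by
          have := x2
          rw [hV0, mul_zero] at this
          exact this
        refine x3.trans (add_nonneg (mul_nonneg hC1.le (add_nonneg (mul_nonneg (FP.Pr_nonneg _ _) ?_)
          (mul_nonneg (FP.Pr_nonneg _ _) ?_))) hT)
        · exact le_min (by norm_num) (mul_nonneg (by norm_num) (rt0_nn _ _ _))
        · exact le_min (by norm_num) (mul_nonneg (by norm_num) (rt0_nn _ _ _))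
      have hPr : ∀ F : Pt K X β φ → Prop, (∀ v, Vp D U t w0 E b c d v → F v) → P.Pr (Vp D U t w0 E b c d) ≤
          P.Pr (xc D U t ∅ w0) * pcu h U t F w0 := by
        intro F hF
        rw [pcu_eq F hC1.ne', mul_div_cancel₀ _ hC1.ne']
        exact P.Pr_mono fun w _ hw => ⟨hw.1, hF w hw⟩
      refine min_two (V := P.Pr (Vp D U t w0 E b c d)) hC1.le hT (FP.Pr_nonneg _ _) (FP.Pr_nonneg _ _)
        (hPr _ fun v hv => hv.2.1) (hPr _ fun v hv => hv.2.2.1) x2 (mul_nonneg (by norm_num) (rt0_nn _ _ _))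
        (mul_nonneg (by norm_num) (rt0_nn _ _ _)) ?_
      have hb0 : P.Pr (fun v => xc D U t ∅ w0 v ∧ E b v) ≠ 0 := fun hh =>
        hV0 (le_antisymm (hh ▸ P.Pr_mono fun w _ hw => ⟨hw.1, hw.2.1⟩) (P.Pr_nonneg _))
      have hc0 : P.Pr (fun v => xc D U t ∅ w0 v ∧ E c v) ≠ 0 := fun hh =>
        hV0 (le_antisymm (hh ▸ P.Pr_mono fun w _ hw => ⟨hw.1, hw.2.2.1⟩) (P.Pr_nonneg _))
      have k1 := dev_two_bits B hE hEd hM1 (hMb w0) (hMc w0) hV0 hW1 hW2 ha h0 h1 hg hb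
      have k2 := Sh_num (N1 := N1) (E := E) (b := b) (c := c) (d := d) hK hn hM1 hN hC1.ne' hb0
      have k3 := Sh_num (N1 := N1) (E := E) (b := c) (c := b) (d := d) hK hn hM1 hN hC1.ne' hc0
      have k4 := St_num (N1 := N1) (E := E) (b := b) (c := c) (d := d) hK hn hM1 hN hV0
      rw [← hA] at k2 k3 k4
      refine k1.trans (add_le_add ?_ le_rfl)
      have r1 : 0 ≤ P.Pr (xc D U t ∅ w0) * (pcu h U t (E c) w0 * rt0 n A (pcu h U t (E c) w0)) :=
        mul_nonneg hC1.le (mul_nonneg (FP.Pr_nonneg _ _) (rt0_nn _ _ _))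
      linarith)
  refine k.trans ?_
  have e2 : P.E G = P.E (fun w => ind (E b w) * Dp h U t n A 6 (E b) w) +
      P.E (fun w => ind (E c w) * Dp h U t n A 6 (E c) w) := by
    rw [← E_cls_mul (E b) (Dp_fac n A 6 (E b)), ← E_cls_mul (E c) (Dp_fac n A 6 (E c)), ← P.E_add]
  rw [e2]
  refine add_le_add le_rfl (P.E_mono fun w _ => ?_)
  exact mul_le_mul_of_nonneg_right (ind_mono fun hh => hh.1) (TV_nn h0 w)

/-- the smaller of the trivial bound and of the sum of three prices -/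
theorem min_three {x V pC T pb pc pd rb rc rd : ℝ} (hC : 0 ≤ pC) (hT : 0 ≤ T) (hb0 : 0 ≤ pb) (hc0 : 0 ≤ pc)
    (hd0 : 0 ≤ pd) (hVb : V ≤ pC * pb) (hVc : V ≤ pC * pc) (hVd : V ≤ pC * pd) (x2 : x ≤ 2 * V) (rb0 : 0 ≤ rb)
    (rc0 : 0 ≤ rc) (rd0 : 0 ≤ rd) (x1 : x ≤ pC * (pb * rb + (pc * rc + pd * rd)) + T) :
    x ≤ pC * (pb * min 2 rb + (pc * min 2 rc + pd * min 2 rd)) + T := by
  have t1 := mul_nonneg (mul_nonneg hC hb0) (le_min (show (0 : ℝ) ≤ 2 by norm_num) rb0)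
  have t2 := mul_nonneg (mul_nonneg hC hc0) (le_min (show (0 : ℝ) ≤ 2 by norm_num) rc0)
  have t3 := mul_nonneg (mul_nonneg hC hd0) (le_min (show (0 : ℝ) ≤ 2 by norm_num) rd0)
  have e : pC * (pb * min 2 rb + (pc * min 2 rc + pd * min 2 rd)) =
      pC * pb * min 2 rb + (pC * pc * min 2 rc + pC * pd * min 2 rd) := by ring
  rw [e]
  rcases le_total 2 rb with h1 | h1
  · rw [min_eq_left h1] at t1 ⊢
    nlinarith
  · rcases le_total 2 rc with h2 | h2
    · rw [min_eq_left h2] at t2 ⊢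
      nlinarith
    · rcases le_total 2 rd with h3 | h3
      · rw [min_eq_left h3] at t3 ⊢
        nlinarith
      · rw [min_eq_right h1, min_eq_right h2, min_eq_right h3]
        linarith

/-- **THE DEVIATION INSIDE THREE BITS, whole law** -/
theorem three_dev (B : Bk h (pr3 K n N1) S U t b c d) (hK : Fintype.card K = 3) (hn : 1 ≤ n)
    (hE : ∀ j, Fac (Ah D t {j}) (E j)) {M : ℝ} (hM1 : 1 ≤ M)
    (hN : n * (2 * Real.log M + Real.log (1 / al) + 1) ≤ N1) (hM : ∀ w0 j, LetM D U t w0 E M j)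
    (hW1 : ∀ i, Fac W (Zo D U t i)) (hW2 : Fac (Wf D U t) W) (ha : Fac W a) (h0 : ∀ w, 0 ≤ a w) (h1 : ∀ w, a w ≤ 1)
    (hg : Fac (fun w => (tup (Fc : K → Pt K X β φ → φ) w, W w)) g) (hb : ∀ w, |g w| ≤ 1) :
    |(D.P h t).E (fun w => ind (E b w ∧ E c w ∧ E d w) * (a w * (g w - (D.P h t).ce W g w)))| ≤
      (D.P h t).E (fun w => ind (E b w) * Dp h U t n (1 + 2 * Real.log (1 / al + 1)) 6 (E b) w) +
      ((D.P h t).E (fun w => ind (E c w) * Dp h U t n (1 + 2 * Real.log (1 / al + 1)) 6 (E c) w) +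
      (D.P h t).E (fun w => ind (E d w) * Dp h U t n (1 + 2 * Real.log (1 / al + 1)) 6 (E d) w)) +
      (D.P h t).E (fun w => ind (E b w) * (a w * TV3 (D.P h t) (Zo D U t) Fc W w)) := by
  set A := 1 + 2 * Real.log (1 / al + 1) with hA
  set P := D.P h t with hP
  set F : Pt K X β φ → Prop := fun w => E b w ∧ E c w ∧ E d w with hF
  set G : Pt K X β φ → ℝ := fun w => P.ce (kp0 D U t) (fun v => ind (E b v)) w * Dp h U t n A 6 (E b) w +
    (P.ce (kp0 D U t) (fun v => ind (E c v)) w * Dp h U t n A 6 (E c) w +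
    P.ce (kp0 D U t) (fun v => ind (E d v)) w * Dp h U t n A 6 (E d) w) with hG
  have k := sum_pub P (C := kp0 D U t) (F := F) (f := fun w => a w * (g w - P.ce W g w)) (G := G)
    (r := fun w => a w * TV3 P (Zo D U t) Fc W w) (fun w0 hw0 => by
      have eV : (fun w => kp0 D U t w = kp0 D U t w0 ∧ F w) = Vp D U t w0 E b c d := by
        funext w
        refine propext ⟨fun hh => ⟨by rw [xc_kp]; exact hh.1, hh.2⟩,
          fun hh => ⟨by rw [← xc_kp]; exact hh.1, hh.2⟩⟩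
      have eC : (fun w => kp0 D U t w = kp0 D U t w0) = xc D U t ∅ w0 := by
        funext w
        exact xc_kp.symm
      have hC1 : 0 < P.Pr (xc D U t ∅ w0) := FP.Pr_pos_of (S := xc D U t ∅ w0) hw0 ⟨rfl, rfl⟩
      have e1 : ∀ f : Pt K X β φ → ℝ, P.E (fun w => ind (kp0 D U t w = kp0 D U t w0 ∧ F w) * f w) =
          P.E (fun w => ind (Vp D U t w0 E b c d w) * f w) := fun f => P.E_congr fun w _ => by
        have : (kp0 D U t w = kp0 D U t w0 ∧ F w) = Vp D U t w0 E b c d w := congrFun eV w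
        rw [this]
      rw [e1, e1, eC]
      have hT : 0 ≤ P.E (fun w => ind (Vp D U t w0 E b c d w) * (a w * TV3 P (Zo D U t) Fc W w)) :=
        P.E_nonneg fun w _ => mul_nonneg (ind_nonneg _) (TV_nn h0 w)
      have g1 : G w0 = pcu h U t (E b) w0 * min 2 (6 * rt0 n A (pcu h U t (E b) w0)) +
          (pcu h U t (E c) w0 * min 2 (6 * rt0 n A (pcu h U t (E c) w0)) +
          pcu h U t (E d) w0 * min 2 (6 * rt0 n A (pcu h U t (E d) w0))) := by
        show P.ce (kp0 D U t) (fun v => ind (E b v)) w0 * Dp h U t n A 6 (E b) w0 +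
          (P.ce (kp0 D U t) (fun v => ind (E c v)) w0 * Dp h U t n A 6 (E c) w0 +
          P.ce (kp0 D U t) (fun v => ind (E d v)) w0 * Dp h U t n A 6 (E d) w0) = _
        rw [Dp_eq (E b) hw0, Dp_eq (E c) hw0, Dp_eq (E d) hw0, pcu_ce (E b) hw0, pcu_ce (E c) hw0, pcu_ce (E d) hw0]
      rw [g1]
      have x2 := dev_triv (h := h) (t := t) (W := W) (Vp D U t w0 E b c d) h0 h1 hb
      by_cases hV0 : P.Pr (Vp D U t w0 E b c d) = 0
      · have x3 : |P.E (fun w => ind (Vp D U t w0 E b c d w) * (a w * (g w - P.ce W g w)))| ≤ 0 := by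
          have := x2
          rw [hV0, mul_zero] at this
          exact this
        have r0 : ∀ F : Pt K X β φ → Prop, 0 ≤ pcu h U t F w0 * min 2 (6 * rt0 n A (pcu h U t F w0)) := fun F =>
          mul_nonneg (FP.Pr_nonneg _ _) (le_min (by norm_num) (mul_nonneg (by norm_num) (rt0_nn _ _ _)))
        exact x3.trans (add_nonneg (mul_nonneg hC1.le (add_nonneg (r0 _) (add_nonneg (r0 _) (r0 _)))) hT)
      have hPr : ∀ F : Pt K X β φ → Prop, (∀ v, Vp D U t w0 E b c d v → F v) → P.Pr (Vp D U t w0 E b c d) ≤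
          P.Pr (xc D U t ∅ w0) * pcu h U t F w0 := by
        intro F hF
        rw [pcu_eq F hC1.ne', mul_div_cancel₀ _ hC1.ne']
        exact P.Pr_mono fun w _ hw => ⟨hw.1, hF w hw⟩
      refine min_three (V := P.Pr (Vp D U t w0 E b c d)) hC1.le hT (FP.Pr_nonneg _ _) (FP.Pr_nonneg _ _)
        (FP.Pr_nonneg _ _) (hPr _ fun v hv => hv.2.1) (hPr _ fun v hv => hv.2.2.1) (hPr _ fun v hv => hv.2.2.2) x2
        (mul_nonneg (by norm_num) (rt0_nn _ _ _)) (mul_nonneg (by norm_num) (rt0_nn _ _ _))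
        (mul_nonneg (by norm_num) (rt0_nn _ _ _)) ?_
      have hb0 : P.Pr (fun v => xc D U t ∅ w0 v ∧ E b v) ≠ 0 := fun hh =>
        hV0 (le_antisymm (hh ▸ P.Pr_mono fun w _ hw => ⟨hw.1, hw.2.1⟩) (P.Pr_nonneg _))
      have hc0 : P.Pr (fun v => xc D U t ∅ w0 v ∧ E c v) ≠ 0 := fun hh =>
        hV0 (le_antisymm (hh ▸ P.Pr_mono fun w _ hw => ⟨hw.1, hw.2.2.1⟩) (P.Pr_nonneg _))
      have hd0 : P.Pr (fun v => xc D U t ∅ w0 v ∧ E d v) ≠ 0 := fun hh =>
        hV0 (le_antisymm (hh ▸ P.Pr_mono fun w _ hw => ⟨hw.1, hw.2.2.2⟩) (P.Pr_nonneg _))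
      have k1 := dev_three_bits B hE hM1 (hM w0) hV0 hW1 hW2 ha h0 h1 hg hb
      have k2 := Sh_num (N1 := N1) (E := E) (b := b) (c := c) (d := d) hK hn hM1 hN hC1.ne' hb0
      have k3 := Sh_num (N1 := N1) (E := E) (b := c) (c := b) (d := d) hK hn hM1 hN hC1.ne' hc0
      have k4 := Sh_num (N1 := N1) (E := E) (b := d) (c := b) (d := c) hK hn hM1 hN hC1.ne' hd0
      rw [← hA] at k2 k3 k4
      refine k1.trans (add_le_add ?_ le_rfl)
      have r1 : ∀ F : Pt K X β φ → Prop, 0 ≤ P.Pr (xc D U t ∅ w0) * (pcu h U t F w0 * rt0 n A (pcu h U t F w0)) :=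
        fun F => mul_nonneg hC1.le (mul_nonneg (FP.Pr_nonneg _ _) (rt0_nn _ _ _))
      have r2 := r1 (E b)
      have r3 := r1 (E c)
      have r4 := r1 (E d)
      linarith)
  refine k.trans ?_
  have e2 : P.E G = P.E (fun w => ind (E b w) * Dp h U t n A 6 (E b) w) +
      (P.E (fun w => ind (E c w) * Dp h U t n A 6 (E c) w) + P.E (fun w => ind (E d w) * Dp h U t n A 6 (E d) w)) := by
    rw [← E_cls_mul (E b) (Dp_fac n A 6 (E b)), ← E_cls_mul (E c) (Dp_fac n A 6 (E c)),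
      ← E_cls_mul (E d) (Dp_fac n A 6 (E d)), ← P.E_add, ← P.E_add]
  rw [e2]
  refine add_le_add le_rfl (P.E_mono fun w _ => ?_)
  exact mul_le_mul_of_nonneg_right (ind_mono fun hh => hh.1) (TV_nn h0 w)

/-- inclusion and exclusion -/
theorem ind_union (z e1 e2 e3 : Prop) : ind (z ∨ e1 ∨ e2 ∨ e3) = ind z + (ind (e1 ∧ ¬ z) + ind (e2 ∧ ¬ z) +
    ind (e3 ∧ ¬ z)) - (ind ((e1 ∧ ¬ z) ∧ (e2 ∧ ¬ z)) + ind ((e1 ∧ ¬ z) ∧ (e3 ∧ ¬ z)) +
    ind ((e2 ∧ ¬ z) ∧ (e3 ∧ ¬ z))) + ind ((e1 ∧ ¬ z) ∧ (e2 ∧ ¬ z) ∧ (e3 ∧ ¬ z)) := by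
  by_cases h0 : z <;> by_cases h1 : e1 <;> by_cases h2 : e2 <;> by_cases h3 : e3 <;> simp [ind, h0, h1, h2, h3]

/-- **THE DEVIATION INSIDE A UNION OF BITS** : a bit `z` of the hidden point and one bit of every vertex -/
theorem un_dev (B : Bk h (pr3 K n N1) S U t b c d) (hK : Fintype.card K = 3) (hn : 1 ≤ n) {z : Pt K X β φ → Prop}
    (hz : Fac (Ah D t (∅ : Finset K)) z) (hE : ∀ j, Fac (Ah D t {j}) (E j)) {M : ℝ} (hM1 : 1 ≤ M)
    (hN : n * (2 * Real.log M + Real.log (1 / al) + 1) ≤ N1) (hM : ∀ w0 j, LetM D U t w0 E M j)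
    (hW1 : ∀ i, Fac W (Zo D U t i)) (hW2 : Fac (Wf D U t) W) (ha : Fac W a) (h0 : ∀ w, 0 ≤ a w) (h1 : ∀ w, a w ≤ 1)
    (hg : Fac (fun w => (tup (Fc : K → Pt K X β φ → φ) w, W w)) g) (hb : ∀ w, |g w| ≤ 1) {s0 : ℝ} {s T : K → ℝ}
    (H0 : |(D.P h t).E (fun w => ind (z w) * (a w * (g w - (D.P h t).ce W g w)))| ≤ s0)
    (Hs : ∀ j, |(D.P h t).E (fun w => ind (E j w ∧ ¬ z w) * (a w * (g w - (D.P h t).ce W g w)))| ≤ s j)
    (HT : ∀ j, (D.P h t).E (fun w => ind (E j w ∧ ¬ z w) * (a w * TV3 (D.P h t) (Zo D U t) Fc W w)) ≤ T j) :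
    |(D.P h t).E (fun w => ind (z w ∨ E b w ∨ E c w ∨ E d w) * (a w * (g w - (D.P h t).ce W g w)))| ≤
      s0 + (s b + s c + s d) + (T b + T b + T c + T b) +
      3 * ((D.P h t).E (fun w => ind (E b w ∧ ¬ z w) *
          Dp h U t n (1 + 2 * Real.log (1 / al + 1)) 6 (fun w => E b w ∧ ¬ z w) w) +
        (D.P h t).E (fun w => ind (E c w ∧ ¬ z w) *
          Dp h U t n (1 + 2 * Real.log (1 / al + 1)) 6 (fun w => E c w ∧ ¬ z w) w) +
        (D.P h t).E (fun w => ind (E d w ∧ ¬ z w) *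
          Dp h U t n (1 + 2 * Real.log (1 / al + 1)) 6 (fun w => E d w ∧ ¬ z w) w)) := by
  classical
  set A := 1 + 2 * Real.log (1 / al + 1) with hA
  set P := D.P h t with hP
  set f : Pt K X β φ → ℝ := fun w => a w * (g w - P.ce W g w) with hf
  set E' : K → Pt K X β φ → Prop := fun j w => E j w ∧ ¬ z w with hE'
  have hzj : ∀ j : K, Fac (Ah D t ({j} : Finset K)) z := by
    intro j v w hvw
    refine hz v w ?_
    unfold Ah at hvw ⊢
    simp only [Prod.mk.injEq, BB_eq] at hvw ⊢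
    exact ⟨hvw.1, fun i hi => absurd hi (Finset.notMem_empty i), hvw.2.2⟩
  have hE1 : ∀ j, Fac (Ah D t ({j} : Finset K)) (E' j) := by
    intro j v w hvw
    have a1 : E j v = E j w := hE j v w hvw
    have a2 : z v = z w := hzj j v w hvw
    show (E j v ∧ ¬ z v) = (E j w ∧ ¬ z w)
    rw [a1, a2]
  have hM' : ∀ w0 j, LetM D U t w0 E' M j := by
    intro w0 j b'
    obtain ⟨s, h2, h3⟩ := hM w0 j b'
    exact ⟨s, h2, fun v hv hE hb => h3 v hv hE.1 hb⟩
  -- two bits: the third one is trivial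
  have two : ∀ b' c' d' : K, Bk h (pr3 K n N1) S U t b' c' d' →
      |P.E (fun w => ind (E' b' w ∧ E' c' w) * f w)| ≤ P.E (fun w => ind (E' b' w) * Dp h U t n A 6 (E' b') w) +
        P.E (fun w => ind (E' c' w) * Dp h U t n A 6 (E' c') w) + T b' := by
    intro b' c' d' B'
    set E2 : K → Pt K X β φ → Prop := fun j w => if j = d' then True else E' j w with hE2
    have e2b : E2 b' = E' b' := by funext w; simp only [hE2]; rw [if_neg B'.bd]
    have e2c : E2 c' = E' c' := by funext w; simp only [hE2]; rw [if_neg B'.cd]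
    have e2d : ∀ w, E2 d' w := fun w => by
      show if d' = d' then True else E' d' w
      rw [if_pos rfl]
      trivial
    have hE3 : ∀ j, Fac (Ah D t ({j} : Finset K)) (E2 j) := by
      intro j
      by_cases hj : j = d'
      · intro v w _
        show (if j = d' then True else E' j v) = (if j = d' then True else E' j w)
        rw [if_pos hj, if_pos hj]
      · have : E2 j = E' j := by funext w; simp only [hE2]; rw [if_neg hj]
        rw [this]
        exact hE1 j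
    have hMj : ∀ j, j ≠ d' → ∀ w0, LetM D U t w0 E2 M j := by
      intro j hj w0 b1
      obtain ⟨s, h2, h3⟩ := hM' w0 j b1
      refine ⟨s, h2, fun v hv hE hb => h3 v hv ?_ hb⟩
      have : E2 j v = E' j v := by simp only [hE2]; rw [if_neg hj]
      rw [← this]
      exact hE
    have k := two_dev B' hK hn hE3 e2d hM1 hN (hMj b' B'.bd) (hMj c' B'.cd) hW1 hW2 ha h0 h1 hg hb
    rw [e2b, e2c] at k
    refine k.trans (add_le_add le_rfl (HT b'))
  have t3 := three_dev B hK hn hE1 hM1 hN hM' hW1 hW2 ha h0 h1 hg hb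
  have t1 := two b c d B
  have t2 := two b d c B.swap
  have t4 := two c d b B.rot.swap
  have e : P.E (fun w => ind (z w ∨ E b w ∨ E c w ∨ E d w) * f w) =
      P.E (fun w => ind (z w) * f w) + (P.E (fun w => ind (E' b w) * f w) + P.E (fun w => ind (E' c w) * f w) +
      P.E (fun w => ind (E' d w) * f w)) - (P.E (fun w => ind (E' b w ∧ E' c w) * f w) +
      P.E (fun w => ind (E' b w ∧ E' d w) * f w) + P.E (fun w => ind (E' c w ∧ E' d w) * f w)) +
      P.E (fun w => ind (E' b w ∧ E' c w ∧ E' d w) * f w) := by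
    rw [← P.E_add, ← P.E_add, ← P.E_add, ← P.E_add, ← P.E_add, ← P.E_sub, ← P.E_add]
    refine P.E_congr fun w _ => ?_
    rw [ind_union]
    ring
  rw [e]
  have s1 := Hs b
  have s2 := Hs c
  have s3 := Hs d
  have u3 := HT b
  have t3' : |P.E (fun w => ind (E' b w ∧ E' c w ∧ E' d w) * f w)| ≤
      P.E (fun w => ind (E' b w) * Dp h U t n A 6 (E' b) w) +
      (P.E (fun w => ind (E' c w) * Dp h U t n A 6 (E' c) w) +
      P.E (fun w => ind (E' d w) * Dp h U t n A 6 (E' d) w)) + T b := t3.trans (add_le_add le_rfl u3)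
  rw [abs_le] at H0 s1 s2 s3 t1 t2 t4 t3' ⊢
  constructor <;> linarith [H0.1, H0.2, s1.1, s1.2, s2.1, s2.2, s3.1, s3.2, t1.1, t1.2, t2.1, t2.2, t4.1, t4.2, t3'.1, t3'.2]

end un

end Pool.Agent.GMH
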