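import Pool.Agent.GMH.BitOw
import Pool.Agent.GMH.BitUn

/-!
# GMH.BitOwU: deviation inside products and unions of bits, own classes (helper56; gm row H3.REL, R.5, R.6)

Prices `pr3 K n N1`, `ro n A R E = P(E) sqrt ((log (P(R)/P(E)) + A)/n)`, `A = 1 + 2 log (1/al + 1)`,
`n (X0 + log (M/al + 1) + 1) <= N1`, whole law of one time.
* `two_ow` : `|dev (E b, E c)| <= 5 ro b + 4 ro c + TV(E b)`; `three_ow` : `2 (ro b + ro c + ro d) + TV(E b)`;
* `un_ow` : **union of a bit of the hidden point and of one bit of every vertex**, from the single bits.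
-/

set_option autoImplicit false
set_option linter.unusedSectionVars false

namespace Pool.Agent.GMH

open Finset Pool.Agent.PWZ Pool.Agent.M3 Pool.Agent.GM Pool.Agent.GM.Harm

section num

theorem sqrt_one {x k p L n : ℝ} (hx : 0 ≤ x) (hxp : x ≤ p) (hL : 0 ≤ L) (hn : 0 < n) (hk : x * k ≤ 2 / n * (p * L)) :
    x * Real.sqrt (2 * k) ≤ 2 * (p * Real.sqrt (L / n)) := by
  have h1 := sqrt_swap (κ := 2 * (L / n)) hx hxp (by positivity) (hk.trans (le_of_eq (by ring)))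
  refine h1.trans (le_of_eq ?_)
  rw [show 2 * (2 * (L / n)) = 2 ^ 2 * (L / n) by ring, Real.sqrt_mul (by positivity), Real.sqrt_sq (by norm_num)]
  ring

theorem sqrt_pair {x k p q L M n : ℝ} (hx : 0 ≤ x) (hxp : x ≤ p) (hxq : x ≤ q) (hL : 0 ≤ L) (hM : 0 ≤ M) (hn : 0 < n)
    (hk : x * k ≤ (4 * (p * L) + 2 * (q * M)) / n) :
    x * Real.sqrt (2 * k) ≤ 3 * (p * Real.sqrt (L / n)) + 2 * (q * Real.sqrt (M / n)) := by
  have hp : 0 ≤ p := hx.trans hxp
  have hq : 0 ≤ q := hx.trans hxq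
  rcases le_or_gt k 0 with h0 | h0
  · rw [Real.sqrt_eq_zero_of_nonpos (by linarith), mul_zero]
    positivity
  · have e1 : x * Real.sqrt (2 * k) = Real.sqrt (2 * x * (x * k)) := by
      rw [show 2 * x * (x * k) = x ^ 2 * (2 * k) by ring, Real.sqrt_mul (sq_nonneg x), Real.sqrt_sq hx]
    have e2 : 2 * x * (x * k) ≤ (3 * p) ^ 2 * (L / n) + (2 * q) ^ 2 * (M / n) := by
      have h1 := mul_le_mul_of_nonneg_left hk (show 0 ≤ 2 * x by positivity)
      refine h1.trans ?_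
      have e3 : 2 * x * ((4 * (p * L) + 2 * (q * M)) / n) = 8 * (x * p) * (L / n) + 4 * (x * q) * (M / n) := by ring
      rw [e3]
      have h2 : x * p ≤ p ^ 2 := by nlinarith
      have h3 : x * q ≤ q ^ 2 := by nlinarith
      have h4 : 0 ≤ L / n := by positivity
      have h5 : 0 ≤ M / n := by positivity
      have h6 : 8 * (x * p) ≤ (3 * p) ^ 2 := by nlinarith [sq_nonneg p]
      have h7 : 4 * (x * q) ≤ (2 * q) ^ 2 := by nlinarith
      exact add_le_add (mul_le_mul_of_nonneg_right h6 h4) (mul_le_mul_of_nonneg_right h7 h5)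
    rw [e1]
    refine (Real.sqrt_le_sqrt e2).trans ((sqrt_add_two (by positivity) (by positivity)).trans (le_of_eq ?_))
    rw [Real.sqrt_mul (sq_nonneg _), Real.sqrt_sq (by positivity), Real.sqrt_mul (sq_nonneg _),
      Real.sqrt_sq (by positivity)]
    ring

theorem num_face {p L S1 X0 N1 n la : ℝ} (hp : 0 ≤ p) (hL : 0 ≤ L) (hS : S1 ≤ p * (X0 + L)) (hN : X0 + 1 ≤ N1)
    (hN1 : 1 ≤ N1) (hn : 0 < n) :
    (2 * (S1 + p) + 2 * ((N1 + N1) * la) * p) / (n * N1) ≤ 2 / n * (p * (L + (1 + 2 * la))) := by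
  have e : 2 / n * (p * (L + (1 + 2 * la))) = (2 * N1 * (p * (L + 1)) + 2 * ((N1 + N1) * la) * p) / (n * N1) := by
    field_simp
    ring
  rw [e]
  refine div_le_div_of_nonneg_right (add_le_add ?_ le_rfl) (by positivity)
  have h1 : X0 + L + 1 ≤ N1 * (L + 1) := by nlinarith
  have h2 : p * (X0 + L + 1) ≤ p * (N1 * (L + 1)) := mul_le_mul_of_nonneg_left h1 hp
  nlinarith

theorem num_two {p q L M S1 X0 lM N1 n : ℝ} (hp : 0 ≤ p) (hL : 0 ≤ L) (hS : S1 ≤ p * (X0 + L))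
    (hN : n * (X0 + lM + 1) ≤ N1) (hnN : n ≤ N1) (hn : 0 < n) :
    2 * (N1 * (p * (1 + L)) + N1 * (q * (1 + M))) / (n * N1) + 2 * 1 / N1 * (S1 + p * (lM + 1)) ≤
      (4 * (p * (L + 1)) + 2 * (q * (M + 1))) / n := by
  have hN1 : 0 < N1 := lt_of_lt_of_le hn hnN
  have e1 : 2 * (N1 * (p * (1 + L)) + N1 * (q * (1 + M))) / (n * N1) = (2 * (p * (L + 1)) + 2 * (q * (M + 1))) / n := by
    field_simp
    ring
  have h1 : 2 * 1 / N1 * (S1 + p * (lM + 1)) ≤ 2 * (p * (L + 1)) / n := by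
    rw [div_mul_eq_mul_div, div_le_div_iff₀ hN1 hn]
    have h2 : (X0 + lM + 1 + L) * n ≤ (L + 1) * N1 := by nlinarith
    have h3 : p * ((X0 + lM + 1 + L) * n) ≤ p * ((L + 1) * N1) := mul_le_mul_of_nonneg_left h2 hp
    have h4 : (S1 + p * (lM + 1)) * n ≤ p * (X0 + lM + 1 + L) * n :=
      mul_le_mul_of_nonneg_right (by nlinarith) hn.le
    nlinarith
  rw [e1]
  have e2 : (4 * (p * (L + 1)) + 2 * (q * (M + 1))) / n = (2 * (p * (L + 1)) + 2 * (q * (M + 1))) / n +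
      2 * (p * (L + 1)) / n := by ring
  rw [e2]
  linarith

end num

section owu

variable {K X β γ φ υ : Type} [Fintype K] [DecidableEq K] [Fintype X] [Fintype β] [Fintype φ] [Nonempty X] [Nonempty β]
  {D : HD K X β γ φ} {al : ℝ} {h : D.Thick al} {n N1 X0 : ℝ} {S : Finset (Finset K)}
  {U : Finset K → X → (K → β) → υ} {t : ℕ} {b c d : K} {E R : K → Pt K X β φ → Prop}

/-- price of a bit -/
noncomputable def ro (h : D.Thick al) (t : ℕ) (n A : ℝ) (R E : Pt K X β φ → Prop) : ℝ :=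
  (D.P h t).Pr E * Real.sqrt ((Real.log ((D.P h t).Pr R / (D.P h t).Pr E) + A) / n)

theorem ro_nn (n A : ℝ) (R E : Pt K X β φ → Prop) : 0 ≤ ro h t n A R E :=
  mul_nonneg (FP.Pr_nonneg _ _) (Real.sqrt_nonneg _)

theorem lg_nn {R E : Pt K X β φ → Prop} (hER : ∀ w, (D.P h t).p w ≠ 0 → E w → R w) (h0 : (D.P h t).Pr E ≠ 0) :
    0 ≤ Real.log ((D.P h t).Pr R / (D.P h t).Pr E) := by
  have h1 : 0 < (D.P h t).Pr E := lt_of_le_of_ne (FP.Pr_nonneg _ _) (Ne.symm h0)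
  refine Real.log_nonneg ?_
  rw [le_div_iff₀ h1, one_mul]
  exact (D.P h t).Pr_mono hER

/-- data of the bits in their own classes -/
structure Ow (h : D.Thick al) (U : Finset K → X → (K → β) → υ) (t : ℕ) (E R : K → Pt K X β φ → Prop) (X0 M : ℝ)
    (b : K) : Prop where
  fR : Fac (Co D U t b) (R b)
  ER : ∀ w, (D.P h t).p w ≠ 0 → E b w → R b w
  ty : TyO h U t E X0 b
  le : LetO h U t E M b

/-- **a face with a hardwired vertex** -/
theorem swh_ow {ι : Type*} {Y : Pt K X β φ → ι} {M : ℝ} (B : Bk h (pr3 K n N1) S U t b c d)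
    (hK : Fintype.card K = 3) (hn : 1 ≤ n) (hN1 : 1 ≤ N1) (hN : X0 + 1 ≤ N1)
    (hE : ∀ j, Fac (Ah D t {j}) (E j)) (o : Ow h U t E R X0 M b) (hV0 : (D.P h t).Pr (Vg E b c d) ≠ 0)
    (hY : Fac (fun v : Pt K X β φ => ((v.2.2 c, v.2.2 d), Wf D U t v)) Y) :
    (D.P h t).Pr (Vg E b c d) *
      Real.sqrt (2 * (((D.P h t).cond (Vg E b c d)).klc (D.P h t) (Fc b) (Zo D U t b) +
        ((D.P h t).cond (Vg E b c d)).I (Fc b) Y (Zo D U t b))) ≤
      2 * ro h t n (1 + 2 * Real.log (1 / al + 1)) (R b) (E b) := by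
  set P := D.P h t with hP
  have n0 : 0 < n := by linarith
  have hVE : P.Pr (Vg E b c d) ≤ P.Pr (E b) := P.Pr_mono fun w _ hw => hw.1
  have hE0 : P.Pr (E b) ≠ 0 := by
    intro h0
    exact hV0 (le_antisymm (h0 ▸ hVE) (P.Pr_nonneg _))
  have L0 := lg_nn o.ER hE0
  obtain ⟨-, l2⟩ := log_al h.pos (hal_one h b)
  have k1 := face_ow B hE hV0
  have k2 := E_sur_le o.fR o.ER o.ty
  have e1 : P.E (fun w => ind (E b w) * kaph (pr3 K n N1) al b c d (sur h U t E b w)) =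
      (2 * (P.E (fun w => ind (E b w) * sur h U t E b w) + P.Pr (E b)) +
        2 * ((N1 + N1) * Real.log (1 / al + 1)) * P.Pr (E b)) / (n * N1) := by
    have e2 : ∀ w, ind (E b w) * kaph (pr3 K n N1) al b c d (sur h U t E b w) =
        (2 / (n * N1)) * (ind (E b w) * sur h U t E b w) +
          ((2 + 2 * ((N1 + N1) * Real.log (1 / al + 1))) / (n * N1)) * ind (E b w) := by
      intro w
      unfold kaph
      rw [pr3_0, pr3_s, pr3_s, pr3_top hK]
      ring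
    rw [P.E_congr fun w _ => e2 w, FP.E_add, FP.E_smul, FP.E_smul]
    show _ + _ * P.Pr (E b) = _
    ring
  have k3 := num_face (n := n) (la := Real.log (1 / al + 1)) (P.Pr_nonneg (E b)) L0 k2 hN hN1 n0
  have k4 : P.Pr (Vg E b c d) * ((P.cond (Vg E b c d)).klc P (Fc b) (Zo D U t b) +
      (P.cond (Vg E b c d)).I (Fc b) Y (Zo D U t b)) ≤
      2 / n * (P.Pr (E b) * (Real.log (P.Pr (R b) / P.Pr (E b)) + (1 + 2 * Real.log (1 / al + 1)))) := by
    refine le_trans (mul_le_mul_of_nonneg_left ?_ (P.Pr_nonneg _)) ((k1.trans (le_of_eq e1)).trans k3)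
    refine add_le_add le_rfl ?_
    rw [FP.I_comm, FP.I_comm _ (fun v : Pt K X β φ => v.2.2 b)]
    exact FP.I_mono _ _ ((Fac.fst _ _).trans hY)
  exact sqrt_one (P.Pr_nonneg _) hVE (by linarith) n0 k4

/-- **the face of the two bits** -/
theorem swt_ow {ι : Type*} {W : Pt K X β φ → ι} {M : ℝ} (B : Bk h (pr3 K n N1) S U t b c d)
    (hK : Fintype.card K = 3) (hn : 1 ≤ n) (hM0 : 0 ≤ M) (hN : n * (X0 + Real.log (M * (1 / al) + 1) + 1) ≤ N1)
    (hnN : n ≤ N1) (hE : ∀ j, Fac (Ah D t {j}) (E j)) (hEd : ∀ v, E d v)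
    (ob : Ow h U t E R X0 M b) (oc : Ow h U t E R X0 M c) (hV0 : (D.P h t).Pr (Vg E b c d) ≠ 0)
    (hW : Fac (Wf D U t) W) :
    (D.P h t).Pr (Vg E b c d) *
      Real.sqrt (2 * (((D.P h t).cond (Vg E b c d)).klc (D.P h t) (Fc d) (Zo D U t d) +
        ((D.P h t).cond (Vg E b c d)).I (Fc d) W (Zo D U t d))) ≤
      3 * ro h t n (1 + 2 * Real.log (1 / al + 1)) (R b) (E b) +
        2 * ro h t n (1 + 2 * Real.log (1 / al + 1)) (R c) (E c) := by
  set P := D.P h t with hP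
  have n0 : 0 < n := by linarith
  have hVb : P.Pr (Vg E b c d) ≤ P.Pr (E b) := P.Pr_mono fun w _ hw => hw.1
  have hVc : P.Pr (Vg E b c d) ≤ P.Pr (E c) := P.Pr_mono fun w _ hw => hw.2.1
  have hb0 : P.Pr (E b) ≠ 0 := fun h0 => hV0 (le_antisymm (h0 ▸ hVb) (P.Pr_nonneg _))
  have hc0 : P.Pr (E c) ≠ 0 := fun h0 => hV0 (le_antisymm (h0 ▸ hVc) (P.Pr_nonneg _))
  have Lb0 := lg_nn ob.ER hb0
  have Lc0 := lg_nn oc.ER hc0
  obtain ⟨-, l2⟩ := log_al h.pos (hal_one h b)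
  have k1 := two_klc_ow B hE hEd ob.fR oc.fR ob.ER oc.ER hV0
  have k2 := two_I_ow B hE hEd hM0 oc.le hV0
  have k3 := E_sur_le ob.fR ob.ER ob.ty
  rw [pr3_s, pr3_s, pr3_top hK] at k1
  rw [pr3_0, pr3_s] at k2
  have k4 := num_two (q := P.Pr (E c)) (M := Real.log (P.Pr (R c) / P.Pr (E c))) (P.Pr_nonneg (E b)) Lb0 k3 hN hnN n0
  have k5 : P.Pr (Vg E b c d) * ((P.cond (Vg E b c d)).klc P (Fc d) (Zo D U t d) +
      (P.cond (Vg E b c d)).I (Fc d) W (Zo D U t d)) ≤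
      (4 * (P.Pr (E b) * (Real.log (P.Pr (R b) / P.Pr (E b)) + (1 + 2 * Real.log (1 / al + 1)))) +
        2 * (P.Pr (E c) * (Real.log (P.Pr (R c) / P.Pr (E c)) + (1 + 2 * Real.log (1 / al + 1))))) / n := by
    have k6 : (P.cond (Vg E b c d)).I (Fc d) W (Zo D U t d) ≤
        (P.cond (Vg E b c d)).I (fun v => v.2.2 d) (Wf D U t) (Zf D U t d) := by
      rw [FP.I_comm, FP.I_comm _ (fun v : Pt K X β φ => v.2.2 d)]
      exact FP.I_mono _ _ ((Fac.fst _ _).trans hW)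
    rw [mul_add]
    refine (add_le_add k1 ((mul_le_mul_of_nonneg_left k6 (P.Pr_nonneg _)).trans k2)).trans (k4.trans ?_)
    refine div_le_div_of_nonneg_right ?_ n0.le
    have h1 : P.Pr (E b) * (Real.log (P.Pr (R b) / P.Pr (E b)) + 1) ≤
        P.Pr (E b) * (Real.log (P.Pr (R b) / P.Pr (E b)) + (1 + 2 * Real.log (1 / al + 1))) :=
      mul_le_mul_of_nonneg_left (by linarith) (P.Pr_nonneg _)
    have h2 : P.Pr (E c) * (Real.log (P.Pr (R c) / P.Pr (E c)) + 1) ≤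
        P.Pr (E c) * (Real.log (P.Pr (R c) / P.Pr (E c)) + (1 + 2 * Real.log (1 / al + 1))) :=
      mul_le_mul_of_nonneg_left (by linarith) (P.Pr_nonneg _)
    linarith
  exact sqrt_pair (P.Pr_nonneg _) hVb hVc (by linarith) (by linarith) n0 k5

variable {ι : Type} {W : Pt K X β φ → ι} {a g : Pt K X β φ → ℝ}

/-- an event of probability zero -/
theorem dev_zero {V : Pt K X β φ → Prop} (hV : (D.P h t).Pr V = 0) (f : Pt K X β φ → ℝ) :
    (D.P h t).E (fun w => ind (V w) * f w) = 0 := by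
  rw [← (D.P h t).E_const 0]
  refine (D.P h t).E_congr fun w hw => ?_
  rw [ind_not (fun hh => (FP.Pr_pos_of (S := V) hw hh).ne' hV), zero_mul]

/-- **TWO BITS** -/
theorem two_ow {M : ℝ} (B : Bk h (pr3 K n N1) S U t b c d) (hK : Fintype.card K = 3) (hn : 1 ≤ n) (hM0 : 0 ≤ M)
    (hN : n * (X0 + Real.log (M * (1 / al) + 1) + 1) ≤ N1) (hnN : n ≤ N1) (hXN : X0 + 1 ≤ N1)
    (hE : ∀ j, Fac (Ah D t {j}) (E j)) (hEd : ∀ v, E d v) (ob : Ow h U t E R X0 M b) (oc : Ow h U t E R X0 M c)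
    (hW1 : ∀ i, Fac W (Zo D U t i)) (hW2 : Fac (Wf D U t) W) (ha : Fac W a) (h0 : ∀ w, 0 ≤ a w) (h1 : ∀ w, a w ≤ 1)
    (hg : Fac (fun w => (tup (Fc : K → Pt K X β φ → φ) w, W w)) g) (hb : ∀ w, |g w| ≤ 1) :
    |(D.P h t).E (fun w => ind (E b w ∧ E c w) * (a w * (g w - (D.P h t).ce W g w)))| ≤
      5 * ro h t n (1 + 2 * Real.log (1 / al + 1)) (R b) (E b) +
        4 * ro h t n (1 + 2 * Real.log (1 / al + 1)) (R c) (E c) +
      (D.P h t).E (fun w => ind (E b w) * (a w * TV3 (D.P h t) (Zo D U t) Fc W w)) := by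
  set P := D.P h t with hP
  have hVV : ∀ f : Pt K X β φ → ℝ, P.E (fun w => ind (E b w ∧ E c w) * f w) =
      P.E (fun w => ind (Vg E b c d w) * f w) := fun f => P.E_congr fun w _ => by
    have : (E b w ∧ E c w) = Vg E b c d w := propext ⟨fun hh => ⟨hh.1, hh.2, hEd w⟩, fun hh => ⟨hh.1, hh.2.1⟩⟩
    rw [this]
  rw [hVV]
  have r1 := ro_nn (h := h) (t := t) n (1 + 2 * Real.log (1 / al + 1)) (R b) (E b)
  have r2 := ro_nn (h := h) (t := t) n (1 + 2 * Real.log (1 / al + 1)) (R c) (E c)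
  have T0 : P.E (fun w => ind (Vg E b c d w) * (a w * TV3 P (Zo D U t) Fc W w)) ≤
      P.E (fun w => ind (E b w) * (a w * TV3 P (Zo D U t) Fc W w)) := P.E_mono fun w _ =>
    mul_le_mul_of_nonneg_right (ind_mono fun hh => hh.1) (TV_nn h0 w)
  by_cases hV0 : P.Pr (Vg E b c d) = 0
  · rw [dev_zero hV0, abs_zero]
    have := P.E_nonneg (f := fun w => ind (E b w) * (a w * TV3 P (Zo D U t) Fc W w))
      (fun w _ => mul_nonneg (ind_nonneg _) (TV_nn h0 w))
    linarith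
  have k1 := dev_ev (P := P) (V := Vg E b c d) (Zb := Zo D U t) (F := Fc) (W := W) (al := a)
    (i1 := d) (i2 := c) (i3 := b) hV0 B.cd.symm B.bd.symm B.bc.symm (tri_all B) hW1 ha h0 hg hb
  have k2 := Sw3_le (Q := P.cond (Vg E b c d)) (P := P) (Zb := Zo D U t) (F := Fc) (W := W)
    (al := a) (i1 := d) (i2 := c) (i3 := b) (FP.cond_ac _ _) hW1 h0 h1 le_rfl le_rfl le_rfl
  have k3 := mul_le_mul_of_nonneg_left k2 (P.Pr_nonneg (Vg E b c d))
  rw [mul_add, mul_add] at k3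
  have hN1 : 1 ≤ N1 := hn.trans hnN
  have s1 := swt_ow B hK hn hM0 hN hnN hE hEd ob oc hV0 hW2
  have s2 := swh_ow (Y := fun w => (Fc d w, W w)) (R := R) B.rot hK hn hN1 hXN hE oc (by rw [Vg_rot]; exact hV0) (by
    intro v w hvw
    simp only [Prod.mk.injEq] at hvw ⊢
    exact ⟨hvw.1.2, hW2 v w hvw.2⟩)
  rw [Vg_rot] at s2
  have s3 := swh_ow (Y := fun w => (Fc c w, Fc d w, W w)) (R := R) B hK hn hN1 hXN hE ob hV0 (by
    intro v w hvw
    simp only [Prod.mk.injEq] at hvw ⊢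
    exact ⟨hvw.1.1, hvw.1.2, hW2 v w hvw.2⟩)
  linarith

/-- **THREE BITS** -/
theorem three_ow {M : ℝ} (B : Bk h (pr3 K n N1) S U t b c d) (hK : Fintype.card K = 3) (hn : 1 ≤ n)
    (hnN : n ≤ N1) (hXN : X0 + 1 ≤ N1)
    (hE : ∀ j, Fac (Ah D t {j}) (E j)) (o : ∀ j, Ow h U t E R X0 M j)
    (hW1 : ∀ i, Fac W (Zo D U t i)) (hW2 : Fac (Wf D U t) W) (ha : Fac W a) (h0 : ∀ w, 0 ≤ a w) (h1 : ∀ w, a w ≤ 1)
    (hg : Fac (fun w => (tup (Fc : K → Pt K X β φ → φ) w, W w)) g) (hb : ∀ w, |g w| ≤ 1) :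
    |(D.P h t).E (fun w => ind (E b w ∧ E c w ∧ E d w) * (a w * (g w - (D.P h t).ce W g w)))| ≤
      2 * ro h t n (1 + 2 * Real.log (1 / al + 1)) (R b) (E b) +
        2 * ro h t n (1 + 2 * Real.log (1 / al + 1)) (R c) (E c) +
        2 * ro h t n (1 + 2 * Real.log (1 / al + 1)) (R d) (E d) +
      (D.P h t).E (fun w => ind (E b w) * (a w * TV3 (D.P h t) (Zo D U t) Fc W w)) := by
  set P := D.P h t with hP
  have r1 := ro_nn (h := h) (t := t) n (1 + 2 * Real.log (1 / al + 1)) (R b) (E b)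
  have r2 := ro_nn (h := h) (t := t) n (1 + 2 * Real.log (1 / al + 1)) (R c) (E c)
  have r3 := ro_nn (h := h) (t := t) n (1 + 2 * Real.log (1 / al + 1)) (R d) (E d)
  have T0 : P.E (fun w => ind (Vg E b c d w) * (a w * TV3 P (Zo D U t) Fc W w)) ≤
      P.E (fun w => ind (E b w) * (a w * TV3 P (Zo D U t) Fc W w)) := P.E_mono fun w _ =>
    mul_le_mul_of_nonneg_right (ind_mono fun hh => hh.1) (TV_nn h0 w)
  show |P.E (fun w => ind (Vg E b c d w) * (a w * (g w - P.ce W g w)))| ≤ _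
  by_cases hV0 : P.Pr (Vg E b c d) = 0
  · rw [dev_zero hV0, abs_zero]
    have := P.E_nonneg (f := fun w => ind (E b w) * (a w * TV3 P (Zo D U t) Fc W w))
      (fun w _ => mul_nonneg (ind_nonneg _) (TV_nn h0 w))
    linarith
  have k1 := dev_ev (P := P) (V := Vg E b c d) (Zb := Zo D U t) (F := Fc) (W := W) (al := a)
    (i1 := d) (i2 := c) (i3 := b) hV0 B.cd.symm B.bd.symm B.bc.symm (tri_all B) hW1 ha h0 hg hb
  have k2 := Sw3_le (Q := P.cond (Vg E b c d)) (P := P) (Zb := Zo D U t) (F := Fc) (W := W)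
    (al := a) (i1 := d) (i2 := c) (i3 := b) (FP.cond_ac _ _) hW1 h0 h1 le_rfl le_rfl le_rfl
  have k3 := mul_le_mul_of_nonneg_left k2 (P.Pr_nonneg (Vg E b c d))
  rw [mul_add, mul_add] at k3
  have hN1 : 1 ≤ N1 := hn.trans hnN
  have s1 := swh_ow (Y := W) (R := R) B.rot' hK hn hN1 hXN hE (o d) (by rw [Vg_rot']; exact hV0)
    ((Fac.snd _ _).trans hW2)
  rw [Vg_rot'] at s1
  have s2 := swh_ow (Y := fun w => (Fc d w, W w)) (R := R) B.rot hK hn hN1 hXN hE (o c) (by rw [Vg_rot]; exact hV0) (by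
    intro v w hvw
    simp only [Prod.mk.injEq] at hvw ⊢
    exact ⟨hvw.1.2, hW2 v w hvw.2⟩)
  rw [Vg_rot] at s2
  have s3 := swh_ow (Y := fun w => (Fc c w, Fc d w, W w)) (R := R) B hK hn hN1 hXN hE (o b) hV0 (by
    intro v w hvw
    simp only [Prod.mk.injEq] at hvw ⊢
    exact ⟨hvw.1.1, hvw.1.2, hW2 v w hvw.2⟩)
  linarith

/-- **UNION** of a bit `z` of the hidden point and of one bit of every vertex -/
theorem un_ow {M : ℝ} {z : Pt K X β φ → Prop} (B : Bk h (pr3 K n N1) S U t b c d) (hK : Fintype.card K = 3) (hn : 1 ≤ n)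
    (hM0 : 0 ≤ M) (hN : n * (X0 + Real.log (M * (1 / al) + 1) + 1) ≤ N1) (hnN : n ≤ N1) (hXN : X0 + 1 ≤ N1)
    (hE : ∀ j, Fac (Ah D t {j}) (fun w => E j w ∧ ¬ z w)) (o : ∀ j, Ow h U t (fun j w => E j w ∧ ¬ z w) R X0 M j)
    (hW1 : ∀ i, Fac W (Zo D U t i)) (hW2 : Fac (Wf D U t) W) (ha : Fac W a) (h0 : ∀ w, 0 ≤ a w) (h1 : ∀ w, a w ≤ 1)
    (hg : Fac (fun w => (tup (Fc : K → Pt K X β φ → φ) w, W w)) g) (hb : ∀ w, |g w| ≤ 1) {s0 : ℝ} {s T : K → ℝ}
    (H0 : |(D.P h t).E (fun w => ind (z w) * (a w * (g w - (D.P h t).ce W g w)))| ≤ s0)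
    (Hs : ∀ j, |(D.P h t).E (fun w => ind (E j w ∧ ¬ z w) * (a w * (g w - (D.P h t).ce W g w)))| ≤ s j)
    (HT : ∀ j, (D.P h t).E (fun w => ind (E j w ∧ ¬ z w) * (a w * TV3 (D.P h t) (Zo D U t) Fc W w)) ≤ T j) :
    |(D.P h t).E (fun w => ind (z w ∨ E b w ∨ E c w ∨ E d w) * (a w * (g w - (D.P h t).ce W g w)))| ≤
      s0 + (s b + s c + s d) + (3 * T b + T c) +
      12 * (ro h t n (1 + 2 * Real.log (1 / al + 1)) (R b) (fun w => E b w ∧ ¬ z w) +
        ro h t n (1 + 2 * Real.log (1 / al + 1)) (R c) (fun w => E c w ∧ ¬ z w) +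
        ro h t n (1 + 2 * Real.log (1 / al + 1)) (R d) (fun w => E d w ∧ ¬ z w)) := by
  classical
  set A := 1 + 2 * Real.log (1 / al + 1) with hA
  set P := D.P h t with hP
  set f : Pt K X β φ → ℝ := fun w => a w * (g w - P.ce W g w) with hf
  set E' : K → Pt K X β φ → Prop := fun j w => E j w ∧ ¬ z w with hE'
  -- two bits: the third one is trivial
  have two : ∀ b' c' d' : K, Bk h (pr3 K n N1) S U t b' c' d' →
      |P.E (fun w => ind (E' b' w ∧ E' c' w) * f w)| ≤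
        5 * ro h t n A (R b') (E' b') + 4 * ro h t n A (R c') (E' c') + T b' := by
    intro b' c' d' B'
    set E2 : K → Pt K X β φ → Prop := fun j w => if j = d' then True else E' j w with hE2
    have e2 : ∀ j, j ≠ d' → E2 j = E' j := fun j hj => by funext w; simp only [hE2]; rw [if_neg hj]
    have e2d : ∀ w, E2 d' w := fun w => by
      show if d' = d' then True else E' d' w
      rw [if_pos rfl]
      trivial
    have hE3 : ∀ j, Fac (Ah D t ({j} : Finset K)) (E2 j) := by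
      intro j
      by_cases hj : j = d'
      · intro v w _
        show (if j = d' then True else E' j v) = (if j = d' then True else E' j w)
        rw [if_pos hj, if_pos hj]
      · rw [e2 j hj]
        exact hE j
    have ow2 : ∀ j, j ≠ d' → Ow h U t E2 R X0 M j := by
      intro j hj
      have o' := o j
      refine ⟨o'.fR, fun w hw hEw => o'.ER w hw ?_, fun w hw hEw => o'.ty w hw ?_, fun w0 c' => ?_⟩
      · rw [e2 j hj] at hEw
        exact hEw
      · rw [e2 j hj] at hEw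
        exact hEw
      · obtain ⟨s, h2, h3⟩ := o'.le w0 c'
        refine ⟨s, h2, fun v hv hx hEw hc => h3 v hv hx ?_ hc⟩
        rw [e2 j hj] at hEw
        exact hEw
    have k := two_ow B' hK hn hM0 hN hnN hXN hE3 e2d (ow2 b' B'.bd) (ow2 c' B'.cd) hW1 hW2 ha h0 h1 hg hb
    rw [e2 b' B'.bd, e2 c' B'.cd] at k
    exact k.trans (add_le_add le_rfl (HT b'))
  have t3 := three_ow (E := E') (R := R) B hK hn hnN hXN hE o hW1 hW2 ha h0 h1 hg hb
  have t1 := two b c d B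
  have t2 := two b d c B.swap
  have t4 := two c d b B.rot.swap
  have e : P.E (fun w => ind (z w ∨ E b w ∨ E c w ∨ E d w) * f w) =
      P.E (fun w => ind (z w) * f w) + (P.E (fun w => ind (E' b w) * f w) + P.E (fun w => ind (E' c w) * f w) +
      P.E (fun w => ind (E' d w) * f w)) - (P.E (fun w => ind (E' b w ∧ E' c w) * f w) +
      P.E (fun w => ind (E' b w ∧ E' d w) * f w) + P.E (fun w => ind (E' c w ∧ E' d w) * f w)) +
      P.E (fun w => ind (E' b w ∧ E' c w ∧ E' d w) * f w) := by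
    rw [← P.E_add, ← P.E_add, ← P.E_add, ← P.E_add, ← P.E_add, ← P.E_sub, ← P.E_add]
    refine P.E_congr fun w _ => ?_
    rw [ind_union]
    ring
  rw [e]
  have s1 := Hs b
  have s2 := Hs c
  have s3 := Hs d
  have t3' := t3.trans (add_le_add le_rfl (HT b))
  have r1 := ro_nn (h := h) (t := t) n A (R b) (E' b)
  have r2 := ro_nn (h := h) (t := t) n A (R c) (E' c)
  have r3 := ro_nn (h := h) (t := t) n A (R d) (E' d)
  rw [abs_le] at H0 s1 s2 s3 t1 t2 t4 t3' ⊢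
  constructor <;> linarith [H0.1, H0.2, s1.1, s1.2, s2.1, s2.2, s3.1, s3.2, t1.1, t1.2, t2.1, t2.2, t4.1, t4.2, t3'.1, t3'.2]

end owu

end Pool.Agent.GMH
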