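import Pool.Agent.GMH.DevL

/-!
# GMH.BitPr: products of bits, abstract part (helper56; gm row H3.REL, R.5)

* `klp_congr` : the relative entropy `klp` of `DevL` under equality of the conditional laws;
* `klp_restrict` : restriction to an event seen by the addition;
* `klp_dis` : the mean relative entropy as a mean over the classes of a map seen by the row;
* `klp_sum` : sum over the classes, the probability of the event inside the class cancels;
* `E_log_surp` : mean surprisal of (event, letter), at most `M` letters: `log (M P(C) / P(C, E))`;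
* `I_le_kl` : information is at most the mean relative entropy to any reference;
* `Sw3_le` : the three swaps from three bounds of `klc + I`;
* `dev_ev` : the deviation inside an event, the swap part and the part of `TV3`.
-/

set_option autoImplicit false
set_option linter.unusedSectionVars false

namespace Pool.Agent.GMH

open Finset Pool.Agent.PWZ Pool.Agent.M3

noncomputable section

section klpa

variable {Om : Type*} [Fintype Om] {κ κ' ι ι' ζ ζ' ν : Type*}

theorem klp_congr {Q Q' P P' : FP Om} {X : Om → κ} {Y : Om → ι} {Y' : Om → ι'} {Z : Om → ζ} {w : Om}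
    (h1 : ∀ f, Q.pv Y X w f = Q'.pv Y' X w f) (h2 : ∀ f, P.pv Z X w f = P'.pv Z X w f) :
    klp Q P X Y Z w = klp Q' P' X Y' Z w := by
  unfold klp
  exact Finset.sum_congr rfl fun f _ => by rw [h1 f, h2 f]

/-- conditional law inside an event -/
theorem pv_event {R : FP Om} {X : Om → κ} {G : Om → ι} {Y : Om → ι'} {A : Om → Prop} (hA0 : R.Pr A ≠ 0)
    (hGA : Fac G A) {w : Om} (hw : A w)
    (h : ∀ v, R.p v ≠ 0 → A v → (G v = G w ↔ Y v = Y w)) (f : κ) :
    (R.cond A).pv Y X w f = R.pv G X w f := by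
  have e : ∀ g : Om → ℝ, R.E (fun v => ind (A v) * (ind (Y v = Y w) * g v)) = R.E (fun v => ind (G v = G w) * g v) := by
    intro g
    refine R.E_congr fun v hv => ?_
    by_cases h1 : A v
    · rw [ind_of h1, one_mul, propext (h v hv h1)]
    · have h2 : ¬ G v = G w := fun h3 => h1 (by rw [hGA v w h3]; exact hw)
      rw [ind_not h1, zero_mul, ind_not h2, zero_mul]
  rw [pv_num, pv_num, FP.cond_E hA0, FP.cond_m hA0, e fun v => ind (X v = f)]
  have e1 := e fun _ => 1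
  simp only [mul_one] at e1
  rw [e1]
  show _ = R.E (fun v => ind (G v = G w) * ind (X v = f)) / R.E (fun v => ind (G v = G w))
  rw [div_div_div_cancel_right₀ hA0]

/-- **restriction to an event seen by the addition** -/
theorem klp_restrict {R1 R0 : FP Om} (hac : R1.Ac R0) {X : Om → κ} {G : Om → ι} {Y : Om → ι'} {Z : Om → ζ}
    {A : Om → Prop} (hA0 : R1.Pr A ≠ 0) (hGA : Fac G A) (hYZ : Fac Y Z)
    (h : ∀ v w, R1.p v ≠ 0 → R1.p w ≠ 0 → A v → A w → ((G v, Z v) = (G w, Z w) ↔ Y v = Y w)) :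
    R1.Pr A * ((R1.cond A).klc R0 X Z + (R1.cond A).I X Y Z) ≤ R1.klc R0 X Z + R1.I X G Z := by
  have hac2 : (R1.cond A).Ac R0 := fun v hv => hac v ((FP.cond_ac _ _) v hv)
  have e1 := E_klp (X := X) hac2 hYZ
  have hGZ : Fac (fun w => (G w, Z w)) Z := Fac.snd _ _
  have e2 := E_klp (X := X) hac hGZ
  have e3 : R1.I X (fun w => (G w, Z w)) Z = R1.I X G Z := by
    have := R1.I_chain (fun w => Z w) (fun w => G w) X Z
    rw [R1.I_comm, R1.I_comm X G Z]
    refine le_antisymm (R1.I_mono X (X := G) (X' := fun w => (G w, Z w)) ?_) (R1.I_mono X (Fac.fst _ _ |>.trans ?_))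
    · exact Fac.refl _
    · exact Fac.fst _ _
  rw [← e1, ← e3, ← e2, FP.Pr_mul_cond_E hA0]
  refine R1.E_mono fun w hw => ?_
  have hk := klp_nonneg (X := X) hac hGZ hw
  by_cases hAw : A w
  · rw [ind_of hAw, one_mul]
    refine le_of_eq (klp_congr (fun f => ?_) fun f => rfl)
    refine pv_event hA0 ((Fac.fst _ _).trans hGA) hAw (fun v hv hAv => ?_) f
    exact h v w hv hw hAv hAw
  · rw [ind_not hAw, zero_mul]; exact hk

/-- **mean over the classes of a map seen by the row** -/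
theorem klp_dis {Q P : FP Om} (hac : Q.Ac P) {X : Om → κ} {Y : Om → ι} {Z : Om → ζ} {K : Om → ν} (hYZ : Fac Y Z)
    (hYK : Fac Y K) {R0 : Om → FP Om} (hR : ∀ v w, K v = K w → R0 v = R0 w)
    (hR0 : ∀ w, Q.p w ≠ 0 → (Q.cond fun v => K v = K w).Ac (R0 w))
    (hpv : ∀ w, Q.p w ≠ 0 → ∀ f, P.pv Z X w f = (R0 w).pv Z X w f) :
    Q.klc P X Z + Q.I X Y Z = Q.E (fun w => (Q.cond fun v => K v = K w).klc (R0 w) X Z +
      (Q.cond fun v => K v = K w).I X Y Z) := by
  rw [← E_klp hac hYZ, ← Q.E_ce K (klp Q P X Y Z)]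
  refine Q.E_congr fun w hw => ?_
  rw [Q.ce_eq_cond K _ hw, ← E_klp (hR0 w hw) hYZ]
  have hm : Q.Pr (fun v => K v = K w) ≠ 0 := (Q.m_pos K hw).ne'
  refine FP.E_congr _ fun v hv => ?_
  have hv' := (FP.cond_p_ne hm).1 hv
  refine klp_congr (fun f => ?_) fun f => ?_
  · have hC : Fac Y (fun u => K u = K w) := fun a b hab => by
      show (K a = K w) = (K b = K w)
      rw [hYK a b hab]
    exact (cond_pv hC hm X hv'.1 f).symm
  · rw [hpv v hv'.2 f, hR v w hv'.1]

/-- **the probability of the event inside the class cancels** -/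
theorem klp_sum {P : FP Om} {K : Om → ν} {C Ee A : Om → Prop} (hC : Fac K C)
    (h0 : P.Pr (fun w => C w ∧ Ee w ∧ A w) ≠ 0) {T st : Om → ℝ} (hst : Fac K st) (hst0 : ∀ w, 0 ≤ st w)
    (hT : ∀ w, (P.cond fun w => C w ∧ Ee w ∧ A w).p w ≠ 0 →
      (P.cond fun v => K v = K w ∧ Ee v).Pr A * T w ≤ st w) :
    P.Pr (fun w => C w ∧ Ee w ∧ A w) * (P.cond fun w => C w ∧ Ee w ∧ A w).E T ≤
      P.E (fun w => ind (C w ∧ Ee w) * st w) := by
  set r : Om → ℝ := fun w => (P.cond fun v => K v = K w ∧ Ee v).Pr A with hr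
  set K1 : Om → ν × Prop := fun w => (K w, Ee w) with hK1
  have hfr : Fac K1 r := by
    intro v w hvw
    have h1 : K v = K w := congrArg Prod.fst hvw
    show (P.cond fun u => K u = K v ∧ Ee u).Pr A = (P.cond fun u => K u = K w ∧ Ee u).Pr A
    rw [h1]
  -- on the event `Ee` the conditional probability is `r`
  have hce : ∀ w, P.p w ≠ 0 → Ee w → P.ce K1 (fun v => ind (A v)) w = r w := by
    intro w hw hE
    rw [P.ce_eq_cond K1 _ hw]
    show (P.cond fun u => K1 u = K1 w).E (fun v => ind (A v)) = (P.cond fun v => K v = K w ∧ Ee v).Pr A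
    have e : (fun u => K1 u = K1 w) = fun v => K v = K w ∧ Ee v := by
      funext u
      simp only [hK1, Prod.mk.injEq]
      exact propext ⟨fun h => ⟨h.1, by rw [h.2]; exact hE⟩, fun h => ⟨h.1, propext ⟨fun _ => hE, fun _ => h.2⟩⟩⟩
    rw [e]
    rfl
  have hrpos : ∀ w, P.p w ≠ 0 → Ee w → A w → 0 < r w := by
    intro w hw hE hA
    refine FP.Pr_pos_of (P := P.cond fun v => K v = K w ∧ Ee v) (S := A) (w := w) ?_ hA
    exact (FP.cond_p_ne (FP.Pr_pos_of (P := P) (S := fun v => K v = K w ∧ Ee v) hw ⟨rfl, hE⟩).ne').2 ⟨⟨rfl, hE⟩, hw⟩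
  rw [FP.Pr_mul_cond_E h0]
  have h1 : P.E (fun w => ind (C w ∧ Ee w ∧ A w) * T w) ≤
      P.E (fun w => (ind (C w ∧ Ee w) * (st w / r w)) * ind (A w)) := by
    refine P.E_mono fun w hw => ?_
    by_cases h : C w ∧ Ee w ∧ A w
    · rw [ind_of h, one_mul, ind_of (show C w ∧ Ee w from ⟨h.1, h.2.1⟩), ind_of h.2.2, one_mul, mul_one,
        le_div_iff₀ (hrpos w hw h.2.1 h.2.2), mul_comm]
      exact hT w ((FP.cond_p_ne h0).2 ⟨h, hw⟩)
    · rw [ind_not h, zero_mul]
      refine mul_nonneg (mul_nonneg (ind_nonneg _) (div_nonneg (hst0 w) (FP.Pr_nonneg _ _))) (ind_nonneg _)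
  refine h1.trans ?_
  have hf : Fac K1 (fun w => ind (C w ∧ Ee w) * (st w / r w)) := by
    intro v w hvw
    have h2 : K v = K w := congrArg Prod.fst hvw
    have h3 : Ee v = Ee w := congrArg Prod.snd hvw
    have h4 : r v = r w := hfr v w hvw
    have h5 : C v = C w := hC v w h2
    have h6 : st v = st w := hst v w h2
    show ind (C v ∧ Ee v) * (st v / r v) = ind (C w ∧ Ee w) * (st w / r w)
    rw [h3, h4, h5, h6]
  rw [← P.E_mul_ce hf fun w => ind (A w)]
  refine P.E_mono fun w hw => ?_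
  by_cases h : C w ∧ Ee w
  · rw [ind_of h, one_mul, one_mul, hce w hw h.2]
    by_cases hr0 : r w = 0
    · rw [hr0, mul_zero]; exact hst0 w
    · rw [div_mul_cancel₀ _ hr0]
  · rw [ind_not h, zero_mul, zero_mul, zero_mul]

/-- **mean surprisal of (event, letter)** -/
theorem E_log_surp {P : FP Om} {K : Om → ν} {C E : Om → Prop} (hC : Fac K C) (h0 : P.Pr (fun w => C w ∧ E w) ≠ 0)
    {L : Om → κ} {M : ℝ} (hM : ∀ w, P.p w ≠ 0 → C w → E w → ∃ s : Finset κ, (s.card : ℝ) ≤ M ∧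
      ∀ v, P.p v ≠ 0 → C v → E v → K v = K w → L v ∈ s) :
    (P.cond fun w => C w ∧ E w).E (fun w => Real.log (1 / (P.cond fun v => K v = K w).Pr fun v => E v ∧ L v = L w)) ≤
      Real.log (M * P.Pr C / P.Pr (fun w => C w ∧ E w)) := by
  set V : Om → Prop := fun w => C w ∧ E w with hV
  set Q := P.cond V with hQ
  have hVp : 0 < P.Pr V := lt_of_le_of_ne (P.Pr_nonneg _) (Ne.symm h0)
  have hC0 : 0 < P.Pr C := lt_of_lt_of_le hVp (P.Pr_mono fun w _ hw => hw.1)
  -- the three masses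
  have hsup : ∀ w, Q.p w ≠ 0 → V w ∧ P.p w ≠ 0 := fun w hw => (FP.cond_p_ne h0).1 hw
  have mQ : ∀ w, V w → Q.m K w = P.Pr (fun v => K v = K w ∧ E v) / P.Pr V := by
    intro w hw
    rw [hQ, FP.cond_m h0]
    congr 1
    refine P.E_congr fun v _ => ?_
    rw [← ind_and]
    congr 1
    refine propext ⟨fun h => ⟨h.2, h.1.2⟩, fun h => ⟨⟨?_, h.2⟩, h.1⟩⟩
    rw [hC v w h.1]; exact hw.1
  have mQL : ∀ w, V w → Q.m (fun v => (L v, K v)) w = P.Pr (fun v => K v = K w ∧ (E v ∧ L v = L w)) / P.Pr V := by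
    intro w hw
    rw [hQ, FP.cond_m h0]
    congr 1
    refine P.E_congr fun v _ => ?_
    rw [← ind_and]
    congr 1
    simp only [Prod.mk.injEq]
    refine propext ⟨fun h => ⟨h.2.2, h.1.2, h.2.1⟩, fun h => ⟨⟨?_, h.2.1⟩, h.2.2, h.1⟩⟩
    rw [hC v w h.1]; exact hw.1
  have mC : ∀ w, C w → (P.cond C).m K w = P.m K w / P.Pr C := by
    intro w hw
    exact cond_m_of_fac hC0.ne' hC hw
  have key : ∀ w, Q.p w ≠ 0 → Real.log (1 / (P.cond fun v => K v = K w).Pr fun v => E v ∧ L v = L w) =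
      Real.log (P.Pr C / P.Pr V * ((P.cond C).m K w / Q.m K w)) +
        Real.log (Q.m K w / Q.m (fun v => (L v, K v)) w) := by
    intro w hw
    obtain ⟨hVw, hp⟩ := hsup w hw
    have a1 : 0 < P.m K w := P.m_pos K hp
    have a2 : 0 < P.Pr (fun v => K v = K w ∧ E v) :=
      FP.Pr_pos_of (P := P) (S := fun v => K v = K w ∧ E v) hp ⟨rfl, hVw.2⟩
    have a3 : 0 < P.Pr (fun v => K v = K w ∧ (E v ∧ L v = L w)) :=
      FP.Pr_pos_of (P := P) (S := fun v => K v = K w ∧ (E v ∧ L v = L w)) hp ⟨rfl, hVw.2, rfl⟩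
    rw [FP.cond_Pr a1.ne', mQ w hVw, mQL w hVw, mC w hVw.1]
    have e0 : P.Pr (fun v => K v = K w) = P.m K w := rfl
    rw [e0, one_div_div, ← Real.log_mul]
    · congr 1
      field_simp
    · positivity
    · positivity
  rw [Q.E_congr key, FP.E_add]
  have t1 : Q.E (fun w => Real.log (P.Pr C / P.Pr V * ((P.cond C).m K w / Q.m K w))) ≤
      Real.log (P.Pr C / P.Pr V) := by
    have hpos : ∀ w, Q.p w ≠ 0 → 0 < P.Pr C / P.Pr V * ((P.cond C).m K w / Q.m K w) := by
      intro w hw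
      obtain ⟨hVw, hp⟩ := hsup w hw
      have b1 : (P.cond C).p w ≠ 0 := (FP.cond_p_ne hC0.ne').2 ⟨hVw.1, hp⟩
      have b2 := (P.cond C).m_pos K b1
      have b3 := Q.m_pos K hw
      positivity
    refine (Q.E_log_le hpos).trans ?_
    have h1 : Q.E (fun w => P.Pr C / P.Pr V * ((P.cond C).m K w / Q.m K w)) ≤ P.Pr C / P.Pr V := by
      rw [FP.E_smul]
      have h2 := Q.E_ratio_le (P.cond C) (X := K) (h := fun _ => 1) (Fac.const K 1) (fun _ _ => zero_le_one)
      simp only [mul_one, FP.E_const] at h2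
      calc P.Pr C / P.Pr V * Q.E (fun w => (P.cond C).m K w / Q.m K w) ≤ P.Pr C / P.Pr V * 1 :=
            mul_le_mul_of_nonneg_left h2 (by positivity)
        _ = _ := mul_one _
    refine Real.log_le_log ?_ h1
    obtain ⟨w0, hw0⟩ := Q.exists_p_ne
    have h3 : Q.p w0 * (P.Pr C / P.Pr V * ((P.cond C).m K w0 / Q.m K w0)) ≤
        Q.E (fun w => P.Pr C / P.Pr V * ((P.cond C).m K w / Q.m K w)) :=
      Finset.single_le_sum (f := fun w => Q.p w * (P.Pr C / P.Pr V * ((P.cond C).m K w / Q.m K w)))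
        (fun w _ => mul_nonneg (Q.nn w) (mul_nonneg (by positivity) (div_nonneg (FP.m_nonneg _ _ _) (FP.m_nonneg _ _ _))))
        (mem_univ w0)
    have h4 : 0 < Q.p w0 := lt_of_le_of_ne (Q.nn w0) (Ne.symm hw0)
    exact lt_of_lt_of_le (mul_pos h4 (hpos w0 hw0)) h3
  have t2 : Q.E (fun w => Real.log (Q.m K w / Q.m (fun v => (L v, K v)) w)) ≤ Real.log M := by
    rw [← Hc_eq_E_log]
    refine Hc_le_card Q L K fun w hw => ?_
    obtain ⟨hVw, hp⟩ := hsup w hw
    obtain ⟨s, hs, hs2⟩ := hM w hp hVw.1 hVw.2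
    refine ⟨s, hs, fun v hv hvw => ?_⟩
    obtain ⟨hVv, hpv⟩ := hsup v hv
    exact hs2 v hpv hVv.1 hVv.2 hvw
  have hMp : 0 < M := by
    obtain ⟨w0, hw0⟩ := Q.exists_p_ne
    obtain ⟨hVw, hp⟩ := hsup w0 hw0
    obtain ⟨s, hs, hs2⟩ := hM w0 hp hVw.1 hVw.2
    have h1 : 0 < s.card := Finset.card_pos.2 ⟨_, hs2 w0 hp hVw.1 hVw.2 rfl⟩
    have h2 : (0 : ℝ) < s.card := by exact_mod_cast h1
    linarith
  have e : M * P.Pr C / P.Pr V = M * (P.Pr C / P.Pr V) := mul_div_assoc _ _ _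
  rw [e, Real.log_mul hMp.ne' (by positivity)]
  linarith

/-- **information is at most the mean relative entropy to any reference** -/
theorem I_le_kl {Q : FP Om} {X : Om → κ} {Y : Om → ι} {Z : Om → ζ} {R : Om → FP Om} (hR : ∀ v w, Z v = Z w → R v = R w)
    (hac : ∀ w, Q.p w ≠ 0 → (Q.cond fun v => Z v = Z w).Ac (R w)) :
    Q.I X Y Z ≤ Q.E (fun w => (Q.cond fun v => (X v, Z v) = (X w, Z w)).kl (R w) Y) := by
  rw [Q.I_comm, Q.I_eq_E_kl]
  set K : Om → κ × ζ := fun w => (X w, Z w) with hK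
  -- the difference is the mean relative entropy of the laws given `Z`
  have key : ∀ w, Q.p w ≠ 0 → (Q.cond fun v => K v = K w).kl (R w) Y =
      (Q.cond fun v => K v = K w).kl (Q.cond fun v => Z v = Z w) Y +
        (Q.cond fun v => K v = K w).E (fun v => Real.log ((Q.cond fun u => Z u = Z v).m Y v / (R v).m Y v)) := by
    intro w hw
    have hm : Q.Pr (fun v => K v = K w) ≠ 0 := (Q.m_pos K hw).ne'
    unfold FP.kl
    rw [← FP.E_add]
    refine FP.E_congr _ fun v hv => ?_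
    obtain ⟨hvK, hvp⟩ := (FP.cond_p_ne hm).1 hv
    have hz : Z v = Z w := congrArg Prod.snd hvK
    have a := FP.m_pos (Q.cond fun u => K u = K w) Y hv
    have hq : (Q.cond fun u => Z u = Z w).p v ≠ 0 :=
      (FP.cond_p_ne (Q.m_pos Z hw).ne').2 ⟨hz, hvp⟩
    have b := FP.m_pos (Q.cond fun u => Z u = Z w) Y hq
    have c := FP.m_pos (R w) Y (hac w hw v hq)
    rw [hR v w hz, hz, ← Real.log_mul (div_ne_zero a.ne' b.ne') (div_ne_zero b.ne' c.ne')]
    congr 1
    field_simp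
  rw [Q.E_congr key, FP.E_add]
  have h2 : 0 ≤ Q.E (fun w => (Q.cond fun v => K v = K w).E
      (fun v => Real.log ((Q.cond fun u => Z u = Z v).m Y v / (R v).m Y v))) := by
    set g : Om → ℝ := fun v => Real.log ((Q.cond fun u => Z u = Z v).m Y v / (R v).m Y v) with hg
    have e1 : Q.E (fun w => (Q.cond fun v => K v = K w).E g) = Q.E g := by
      rw [← Q.E_ce K g]
      exact Q.E_congr fun w hw => (Q.ce_eq_cond K g hw).symm
    have e2 : Q.E g = Q.E (fun w => (Q.cond fun v => Z v = Z w).E g) := by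
      rw [← Q.E_ce Z g]
      exact Q.E_congr fun w hw => Q.ce_eq_cond Z g hw
    rw [e1, e2]
    refine Q.E_nonneg fun w hw => ?_
    have e3 : (Q.cond fun v => Z v = Z w).E g = (Q.cond fun v => Z v = Z w).kl (R w) Y := by
      unfold FP.kl
      refine FP.E_congr _ fun v hv => ?_
      have hz := ((FP.cond_p_ne (Q.m_pos Z hw).ne').1 hv).1
      show Real.log ((Q.cond fun u => Z u = Z v).m Y v / (R v).m Y v) = _
      rw [hR v w hz, hz]
    rw [e3]
    exact FP.kl_nonneg (hac w hw) Y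
  linarith

end klpa

section swp

variable {Om : Type*} [Fintype Om] {I φ α ι : Type*} [Fintype I] [DecidableEq I] {i1 i2 i3 : I}
  {Q P : FP Om} {Zb : I → Om → α} {F : I → Om → φ} {W : Om → ι} {al : Om → ℝ}

/-- **the three swaps** from three bounds -/
theorem Sw3_le (hac : Q.Ac P) (hZ : ∀ i, Fac W (Zb i)) (h0 : ∀ w, 0 ≤ al w) (h1 : ∀ w, al w ≤ 1) {k1 k2 k3 : ℝ}
    (b1 : Q.klc P (F i1) (Zb i1) + Q.I (F i1) W (Zb i1) ≤ k1)
    (b2 : Q.klc P (F i2) (Zb i2) + Q.I (F i2) (fun w => (F i1 w, W w)) (Zb i2) ≤ k2)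
    (b3 : Q.klc P (F i3) (Zb i3) + Q.I (F i3) (fun w => (F i2 w, F i1 w, W w)) (Zb i3) ≤ k3) :
    Sw3 Q P Zb F W al i1 i2 i3 ≤ Real.sqrt (2 * k1) + Real.sqrt (2 * k2) + Real.sqrt (2 * k3) := by
  have c1 := E_al_tvp_le (X := F i1) (Y := W) (Z := Zb i1) hac (hZ i1) h0 h1 b1
  have c2 := E_al_tvp_le (X := F i2) (Y := fun w => (F i1 w, W w)) (Z := Zb i2) hac ((Fac.snd _ _).trans (hZ i2)) h0 h1 b2
  have c3 := E_al_tvp_le (X := F i3) (Y := fun w => (F i2 w, F i1 w, W w)) (Z := Zb i3) hac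
    (((Fac.snd _ _).trans (Fac.snd _ _)).trans (hZ i3)) h0 h1 b3
  unfold Sw3
  linarith

/-- **the deviation inside an event** : swap part and the part of `TV3` -/
theorem dev_ev {V : Om → Prop} (hV0 : P.Pr V ≠ 0) (h12 : i1 ≠ i2)
    (h13 : i1 ≠ i3) (h23 : i2 ≠ i3) (hI : ∀ i, i = i1 ∨ i = i2 ∨ i = i3) (hZ : ∀ i, Fac W (Zb i)) (hal : Fac W al)
    (h0 : ∀ w, 0 ≤ al w) {g : Om → ℝ} (hg : Fac (fun w => (tup F w, W w)) g) (hb : ∀ w, |g w| ≤ 1) :
    |P.E (fun w => ind (V w) * (al w * (g w - P.ce W g w)))| ≤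
      P.Pr V * Sw3 (P.cond V) P Zb F W al i1 i2 i3 + P.E (fun w => ind (V w) * (al w * TV3 P Zb F W w)) := by
  classical
  set Q := P.cond V with hQ
  obtain ⟨h, hf, hhb, hhg⟩ := exists_test hg zero_le_one hb
  have hce : ∀ w, P.ce W g w = ∑ f ∈ let_ F, P.pv W (tup F) w f * h w f := by
    intro w
    rw [sum_tup P (W := W) F (F := h) hf w]
    exact P.ce_congr (fun v _ => (hhg v).symm) w
  have k1 := swap_three (h := h) (FP.cond_ac P V) h12 h13 h23 hI hZ hal h0 hf hhb (F := F)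
  have k2 : ∀ w, |P.ce W g w - hbar P Zb F h w| ≤ TV3 P Zb F W w := by
    intro w
    rw [hce w]
    unfold hbar TV3
    rw [← Finset.sum_sub_distrib]
    refine (Finset.abs_sum_le_sum_abs _ _).trans (Finset.sum_le_sum fun f _ => ?_)
    rw [← sub_mul, abs_mul]
    exact mul_le_of_le_one_right (abs_nonneg _) (hhb w f)
  have k3 : |Q.E (fun w => al w * P.ce W g w) - Q.E (fun w => al w * hbar P Zb F h w)| ≤
      Q.E (fun w => al w * TV3 P Zb F W w) := by
    rw [← Q.E_sub, abs_le, ← Q.E_neg]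
    have k : ∀ w, |al w * P.ce W g w - al w * hbar P Zb F h w| ≤ al w * TV3 P Zb F W w := by
      intro w
      rw [← mul_sub, abs_mul, abs_of_nonneg (h0 w)]
      exact mul_le_mul_of_nonneg_left (k2 w) (h0 w)
    exact ⟨Q.E_mono fun w _ => (abs_le.1 (k w)).1, Q.E_mono fun w _ => (abs_le.1 (k w)).2⟩
  have e2 : P.E (fun w => ind (V w) * (al w * (g w - P.ce W g w))) =
      P.Pr V * (Q.E (fun w => al w * h w (tup F w)) - Q.E (fun w => al w * P.ce W g w)) := by
    rw [← Q.E_sub, hQ, FP.Pr_mul_cond_E hV0]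
    refine P.E_congr fun w _ => ?_
    rw [hhg w]
    ring
  have e3 : P.E (fun w => ind (V w) * (al w * TV3 P Zb F W w)) = P.Pr V * Q.E (fun w => al w * TV3 P Zb F W w) := by
    rw [hQ, FP.Pr_mul_cond_E hV0]
  rw [e2, e3, abs_mul, abs_of_nonneg (P.Pr_nonneg _), ← mul_add]
  refine mul_le_mul_of_nonneg_left ?_ (P.Pr_nonneg _)
  have t1 := abs_sub_le (Q.E (fun w => al w * h w (tup F w))) (Q.E (fun w => al w * hbar P Zb F h w))
    (Q.E (fun w => al w * P.ce W g w))
  rw [abs_sub_comm (Q.E (fun w => al w * hbar P Zb F h w)) (Q.E (fun w => al w * P.ce W g w))] at t1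
  linarith

end swp

end

end Pool.Agent.GMH
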