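import Pool.Agent.GMH.BitPrR

/-!
# GMH.BitPr2: the exact face of two bits (helper56; gm row H3.REL, R.5 (i))

Bits at `b` and `c` only, in a light public class `C`; the face without `d`.
* `klc_cls` : relative entropies with respect to the law of a class;
* `two_klc` : `P(V) klc <= P(C) kpb p_b p_c` (bits into the letters of `b`, `c`);
* `two_I` : `P(V) I(label of (b,c); letters) <= P(V) kpd` (points `b`, `c` hardwired);
* `face_two` : both.
-/

set_option autoImplicit false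
set_option linter.unusedSectionVars false

namespace Pool.Agent.GMH

open Finset Pool.Agent.PWZ Pool.Agent.M3 Pool.Agent.GM Pool.Agent.GM.Harm

section bp2

variable {K X β γ φ υ : Type} [Fintype K] [DecidableEq K] [Fintype X] [Fintype β] [Fintype φ] [Nonempty X] [Nonempty β]
  {D : HD K X β γ φ} {al : ℝ} {h : D.Thick al} {N : Finset K → ℝ} {S : Finset (Finset K)}
  {U : Finset K → X → (K → β) → υ} {t : ℕ} {b c d : K} {w0 : Pt K X β φ} {E : K → Pt K X β φ → Prop}

theorem klc_cls {Om κ ζ : Type*} [Fintype Om] {P : FP Om} {C A : Om → Prop} {X : Om → κ} {Z : Om → ζ} (hC : Fac Z C)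
    (h0 : P.Pr (fun v => C v ∧ A v) ≠ 0) :
    (P.cond fun v => C v ∧ A v).klc P X Z = (P.cond fun v => C v ∧ A v).klc (P.cond C) X Z := by
  have hC0 : P.Pr C ≠ 0 := by
    intro h1
    refine h0 (le_antisymm ?_ (P.Pr_nonneg _))
    rw [← h1]
    exact P.Pr_mono fun w _ hw => hw.1
  unfold FP.klc
  refine FP.E_congr _ fun w hw => ?_
  obtain ⟨⟨hCw, _⟩, _⟩ := (FP.cond_p_ne h0).1 hw
  rw [cond_m_of_fac hC0 (Z := fun v => (X v, Z v)) ((Fac.snd _ _).trans hC) hCw, cond_m_of_fac hC0 hC hCw,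
    div_div_div_cancel_right₀ hC0]

/-- the class of the public information -/
theorem xc_Zf (B : Bk h N S U t b c d) : Fac (Zf D U t b) (xc D U t ∅ w0) := by
  intro v w hvw
  have h1 := Zf_pub B hvw
  show (le (LL U) ∅ v = le (LL U) ∅ w0 ∧ BB D t ∅ v = BB D t ∅ w0) =
    (le (LL U) ∅ w = le (LL U) ∅ w0 ∧ BB D t ∅ w = BB D t ∅ w0)
  rw [h1.1, h1.2]

/-- rate of the bits -/
noncomputable def kpb (N : Finset K → ℝ) (b c d : K) (pb pc : ℝ) : ℝ :=
  2 * (N {b} * (pb * (Real.log (1 / pb) + 1)) + N {c} * (pc * (Real.log (1 / pc) + 1))) / N (univ.erase d)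

/-- rate of the foreign letter -/
noncomputable def kpd (N : Finset K → ℝ) (d : K) (L : ℝ) : ℝ := 2 * N ∅ * (L + 1) / N {d}

/-- **the bits in the letters of `b` and `c`** -/
theorem two_klc (B : Bk h N S U t b c d) (hE : ∀ j, Fac (Ah D t {j}) (E j)) (hEd : ∀ v, E d v)
    (hV0 : (D.P h t).Pr (Vp D U t w0 E b c d) ≠ 0) :
    (D.P h t).Pr (Vp D U t w0 E b c d) *
      ((D.P h t).cond (Vp D U t w0 E b c d)).klc (D.P h t) (fun v => v.2.2 d) (Zf D U t d) ≤
      (D.P h t).Pr (xc D U t ∅ w0) * kpb N b c d (((D.P h t).cond (xc D U t ∅ w0)).Pr (E b))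
        (((D.P h t).cond (xc D U t ∅ w0)).Pr (E c)) := by
  classical
  set P := D.P h t with hP
  set C := xc D U t ∅ w0 with hC
  set V := Vp D U t w0 E b c d with hV
  have hC0 : P.Pr C ≠ 0 := by
    intro h1
    refine hV0 (le_antisymm ?_ (P.Pr_nonneg _))
    rw [← h1]
    exact P.Pr_mono fun w _ hw => hw.1
  set PC := P.cond C with hPC
  set A : Pt K X β φ → Prop := fun v => E b v ∧ (E c v ∧ E d v) with hA
  have hPCV : PC.Pr A ≠ 0 := by
    rw [hPC, FP.cond_Pr hC0]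
    exact div_ne_zero hV0 hC0
  have hcond : PC.cond A = P.cond V := FP.cond_cond (V := C) (A := A) hV0
  have B' : Bk h N S U t d b c := B.rot'
  have e1 : (P.cond V).klc P (fun v => v.2.2 d) (Zf D U t d) = (PC.cond A).klc PC (fun v => v.2.2 d) (Zf D U t d) := by
    rw [hcond]
    exact klc_cls (P := P) (C := C) (A := A) (xc_Zf B') hV0
  have e2 : P.Pr V = P.Pr C * PC.Pr A := by
    rw [hPC, FP.cond_Pr hC0, mul_div_cancel₀ _ hC0]
    rfl
  rw [e1, e2, mul_assoc]
  refine mul_le_mul_of_nonneg_left ?_ (P.Pr_nonneg _)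
  refine (klc_event_le PC hPCV (fun v => v.2.2 d) (Zf D U t d)).trans ?_
  -- the additions
  set G : Finset K → Pt K X β φ → Prop := fun J w => if J = {b} then E b w else if J = {c} then E c w else True with hG
  have hcls := B.sat.cls B.dep B.era (V := C) (K0 := ∅) ?_ hC0
  swap
  · intro v w hvw
    simp only [Prod.mk.injEq] at hvw
    show (le (LL U) ∅ v = le (LL U) ∅ w0 ∧ BB D t ∅ v = BB D t ∅ w0) =
      (le (LL U) ∅ w = le (LL U) ∅ w0 ∧ BB D t ∅ w = BB D t ∅ w0)
    rw [hvw.1, hvw.2]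
  have hcb : ({c} : Finset K) ≠ {b} := fun hh => B.bc (Finset.singleton_injective hh).symm
  have hphi : 0 ≤ Phi PC (BB D t) N S (LL U) G := by
    refine hcls.gen _ ⟨?_, fun J hJ => absurd (Finset.empty_subset J) hJ⟩
    intro J v w h1 h2 h3
    show G J v = G J w
    simp only [hG]
    have hAh : ∀ j ∈ J, Ah D t {j} v = Ah D t {j} w := by
      intro j hj
      unfold Ah
      simp only [Prod.mk.injEq, BB_eq]
      exact ⟨h1, fun i hi => by rw [Finset.mem_singleton.1 hi]; exact h2 j hj, by rw [h1], h3⟩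
    by_cases hJb : J = {b}
    · rw [if_pos hJb, if_pos hJb]
      exact hE b v w (hAh b (by rw [hJb]; exact Finset.mem_singleton_self b))
    · rw [if_neg hJb, if_neg hJb]
      by_cases hJc : J = {c}
      · rw [if_pos hJc, if_pos hJc]
        exact hE c v w (hAh c (by rw [hJc]; exact Finset.mem_singleton_self c))
      · rw [if_neg hJc, if_neg hJc]
  set J0 : Finset K := univ.erase d with hJ0
  have hsum : ∑ J ∈ S, N J * gain PC (BB D t) (LL U) G J ≤ 2 * ∑ J ∈ S, N J * cost PC (BB D t) (LL U) G J := by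
    unfold Phi at hphi
    rw [Finset.mul_sum, ← sub_nonneg, ← Finset.sum_sub_distrib]
    refine hphi.trans (le_of_eq (Finset.sum_congr rfl fun J _ => ?_))
    ring
  have hgain : N J0 * gain PC (BB D t) (LL U) G J0 ≤ ∑ J ∈ S, N J * gain PC (BB D t) (LL U) G J :=
    Finset.single_le_sum (f := fun J => N J * gain PC (BB D t) (LL U) G J)
      (fun J hJ => mul_nonneg (B.nn J hJ) gain_nonneg) (B.s2 d)
  -- probabilities of the bits
  have hpos : ∀ F : Pt K X β φ → Prop, (∀ v, A v → F v) → 0 < PC.Pr F := by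
    intro F hF
    have h1 : 0 < PC.Pr A := lt_of_le_of_ne (PC.Pr_nonneg _) (Ne.symm hPCV)
    exact lt_of_lt_of_le h1 (PC.Pr_mono fun w _ hw => hF w hw)
  have hpb := hpos (E b) fun v hv => hv.1
  have hpc := hpos (E c) fun v hv => hv.2.1
  have cb : cost PC (BB D t) (LL U) G {b} ≤ PC.Pr (E b) * (Real.log (1 / PC.Pr (E b)) + 1) := by
    have h1 : G {b} = E b := by
      funext w
      simp only [hG, if_true]
    unfold cost
    rw [h1]
    exact (PC.Hc_le_H _ _).trans (H_event_le hpb)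
  have cc : cost PC (BB D t) (LL U) G {c} ≤ PC.Pr (E c) * (Real.log (1 / PC.Pr (E c)) + 1) := by
    have h1 : G {c} = E c := by
      funext w
      simp only [hG, if_neg hcb, if_true]
    unfold cost
    rw [h1]
    exact (PC.Hc_le_H _ _).trans (H_event_le hpc)
  have hcost : ∑ J ∈ S, N J * cost PC (BB D t) (LL U) G J ≤
      N {b} * (PC.Pr (E b) * (Real.log (1 / PC.Pr (E b)) + 1)) + N {c} * (PC.Pr (E c) * (Real.log (1 / PC.Pr (E c)) + 1)) := by
    have h2 : ∀ J ∈ S, N J * cost PC (BB D t) (LL U) G J ≤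
        (if J = {b} then N {b} * (PC.Pr (E b) * (Real.log (1 / PC.Pr (E b)) + 1)) else 0) +
          if J = {c} then N {c} * (PC.Pr (E c) * (Real.log (1 / PC.Pr (E c)) + 1)) else 0 := by
      intro J hJ
      by_cases h3 : J = {b}
      · subst h3
        rw [if_pos rfl, if_neg (Ne.symm hcb), add_zero]
        exact mul_le_mul_of_nonneg_left cb (B.nn _ hJ)
      · by_cases h4 : J = {c}
        · subst h4
          rw [if_neg h3, if_pos rfl, zero_add]
          exact mul_le_mul_of_nonneg_left cc (B.nn _ hJ)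
        · rw [if_neg h3, if_neg h4, add_zero]
          rw [cost_const fun v w => by
            show G J v = G J w
            simp only [hG, if_neg h3, if_neg h4], mul_zero]
    refine (Finset.sum_le_sum h2).trans (le_of_eq ?_)
    rw [Finset.sum_add_distrib, Finset.sum_ite_eq' S {b}, Finset.sum_ite_eq' S {c}, if_pos (B.s1 b), if_pos (B.s1 c)]
  -- data processing
  have hbJ : b ∈ J0 := Finset.mem_erase.2 ⟨B.bd, mem_univ b⟩
  have hcJ : c ∈ J0 := Finset.mem_erase.2 ⟨B.cd, mem_univ c⟩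
  have hsb : ({b} : Finset K) ⊂ J0 := by
    rw [Finset.ssubset_iff_of_subset (Finset.singleton_subset_iff.2 hbJ)]
    exact ⟨c, hcJ, fun hh => B.bc (Finset.mem_singleton.1 hh).symm⟩
  have hsc : ({c} : Finset K) ⊂ J0 := by
    rw [Finset.ssubset_iff_of_subset (Finset.singleton_subset_iff.2 hcJ)]
    exact ⟨b, hbJ, fun hh => B.bc (Finset.mem_singleton.1 hh)⟩
  have hI : PC.I (fun v => v.2.2 d) A (Zf D U t d) ≤ gain PC (BB D t) (LL U) G J0 := by
    unfold gain
    refine le_trans (PC.I_mono (X := LL U J0) (X' := fun v => v.2.2 d) _ fun v u hvu => ?_) ?_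
    · have h4 : LL U J0 v = LL U J0 u := congrArg Prod.fst hvu
      exact (LL_eq.1 h4).2 d rfl
    · rw [PC.I_comm, PC.I_comm (LL U J0) (lo G J0)]
      refine PC.I_mono (X := lo G J0) (X' := A) _ fun v u hvu => ?_
      have h4 : lo G J0 v = lo G J0 u := congrArg Prod.fst hvu
      have hb := lo_eq.1 h4 {b} hsb
      have hc := lo_eq.1 h4 {c} hsc
      simp only [hG, if_true] at hb
      simp only [hG, if_neg hcb, if_true] at hc
      show (E b v ∧ (E c v ∧ E d v)) = (E b u ∧ (E c u ∧ E d u))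
      rw [hb, hc, propext ⟨fun _ => hEd u, fun _ => hEd v⟩]
  refine hI.trans ?_
  unfold kpb
  rw [le_div_iff₀ (B.n2 d), mul_comm]
  linarith

/-- **the foreign letter** -/
theorem two_I (B : Bk h N S U t b c d) (hE : ∀ j, Fac (Ah D t {j}) (E j)) (hEd : ∀ v, E d v) {M : ℝ}
    (hMb : LetM D U t w0 E M b) (hMc : LetM D U t w0 E M c)
    (hV0 : (D.P h t).Pr (Vp D U t w0 E b c d) ≠ 0) :
    ((D.P h t).cond (Vp D U t w0 E b c d)).I (fun v => v.2.2 d) (Wf D U t) (Zf D U t d) ≤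
      kpd N d (Real.log (M * (M * (1 / al)) * (D.P h t).Pr (xc D U t ∅ w0) / (D.P h t).Pr (Vp D U t w0 E b c d))) := by
  classical
  set P := D.P h t with hP
  set C := xc D U t ∅ w0 with hC
  set V := Vp D U t w0 E b c d with hV
  set Q := P.cond V with hQ
  have B' : Bk h N S U t d b c := B.rot'
  set I0 : Finset K := univ.erase d with hI0
  set Y : Pt K X β φ → _ := fun w => (LL U {d} w, lo (LL U) {d} w, BB D t {d} w) with hY
  set R : Pt K X β φ → FP (Pt K X β φ) := fun w => P.cond (xc D U t I0 w) with hR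
  set L : Pt K X β φ → υ × (υ × φ) := fun v => (U {b} v.1 v.2.1, (U {c} v.1 v.2.1, v.2.2 d)) with hL
  set A : Pt K X β φ → Prop := fun v => E b v ∧ (E c v ∧ E d v) with hA
  have hsup : ∀ w, Q.p w ≠ 0 → V w ∧ P.p w ≠ 0 := fun w hw => (FP.cond_p_ne hV0).1 hw
  have hbI : b ∈ I0 := Finset.mem_erase.2 ⟨B.bd, mem_univ b⟩
  have hcI : c ∈ I0 := Finset.mem_erase.2 ⟨B.cd, mem_univ c⟩
  have hdI : d ∉ I0 := fun hh => (Finset.mem_erase.1 hh).1 rfl
  -- `Wf` from `(Y, Zf)`
  have h1 : Q.I (fun v => v.2.2 d) (Wf D U t) (Zf D U t d) ≤ Q.I (fun v => v.2.2 d) Y (Zf D U t d) := by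
    rw [Q.I_comm, Q.I_comm (fun v => v.2.2 d) Y]
    refine Q.I_mono _ fun v u hvu => ?_
    obtain ⟨h2, h3⟩ := Prod.mk.inj hvu
    have h4 := Zf_pub B' h3
    have h5 := (Zf_iff B' h4.1 h4.2).1 h3
    simp only [hY, Prod.mk.injEq] at h2
    have h6 := (LL_eq.1 h2.1).1
    have h7 := h2.2.2
    rw [BB_eq] at h7
    unfold Wf
    rw [Prod.mk.injEq, Prod.mk.injEq]
    refine ⟨h4, ?_⟩
    funext j
    rcases B.all j with hj | hj | hj
    · rw [hj]; exact h5.1
    · rw [hj]; exact h5.2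
    · rw [hj]
      unfold zf
      rw [Prod.mk.injEq]
      exact ⟨h7.1 d (Finset.mem_singleton_self d), h6⟩
  refine h1.trans ?_
  -- the class of the exact points `b`, `c`
  have hZx : ∀ v w : Pt K X β φ, Zf D U t d v = Zf D U t d w → xc D U t I0 w v := by
    intro v w hvw
    have h4 := Zf_pub B' hvw
    have h5 : Zf D U t d v = Zf D U t d w := hvw
    unfold Zf at h5
    exact ⟨h4.1, (Prod.mk.inj h5).2⟩
  have hxe : ∀ v w : Pt K X β φ, xc D U t I0 w v → xc D U t I0 v = xc D U t I0 w := by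
    intro v w hvw
    funext u
    show (le (LL U) ∅ u = le (LL U) ∅ v ∧ BB D t I0 u = BB D t I0 v) =
      (le (LL U) ∅ u = le (LL U) ∅ w ∧ BB D t I0 u = BB D t I0 w)
    rw [hvw.1, hvw.2]
  have hCx : ∀ v w : Pt K X β φ, xc D U t I0 w v → (C v ↔ C w) := by
    intro v w hvw
    constructor
    · intro hv
      exact xc_of (⟨hvw.1.symm, hvw.2.symm⟩ : xc D U t I0 v w) hv
    · intro hw
      exact xc_of hvw hw
  have h2 := I_le_kl (Q := Q) (X := fun v => v.2.2 d) (Y := Y) (Z := Zf D U t d) (R := R)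
    (fun v w hvw => by
      show P.cond (xc D U t I0 v) = P.cond (xc D U t I0 w)
      rw [hxe v w (hZx v w hvw)])
    (fun w hw v hv => by
      have h3 := (FP.cond_p_ne (Q.m_pos (Zf D U t d) hw).ne').1 hv
      exact (FP.cond_p_ne (xc_ne (hsup w hw).2)).2 ⟨hZx v w h3.1, (hsup v h3.2).2⟩)
  refine h2.trans ?_
  -- one class
  have key : ∀ w, Q.p w ≠ 0 → (Q.cond fun v => ((fun v : Pt K X β φ => v.2.2 d) v, Zf D U t d v) =
      ((fun v : Pt K X β φ => v.2.2 d) w, Zf D U t d w)).kl (R w) Y ≤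
      kpd N d (Real.log (1 / (R w).Pr fun v => A v ∧ L v = L w)) := by
    intro w hw
    obtain ⟨hVw, hp⟩ := hsup w hw
    have hxn : P.Pr (xc D U t I0 w) ≠ 0 := xc_ne hp
    have hRw : (R w).p w ≠ 0 := (FP.cond_p_ne hxn).2 ⟨xc_self U t I0 w, hp⟩
    have hE0 : (R w).Pr (fun v => A v ∧ L v = L w) ≠ 0 :=
      (FP.Pr_pos_of (S := fun v => A v ∧ L v = L w) hRw ⟨hVw.2, rfl⟩).ne'
    have hev : EvI D t I0 (fun v => A v ∧ L v = L w) := by
      intro v u hvu
      simp only [Prod.mk.injEq, BB_eq] at hvu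
      obtain ⟨h3, ⟨h4, h5, h6⟩, h7⟩ := hvu
      have hAh : ∀ j ∈ I0, Ah D t {j} v = Ah D t {j} u := by
        intro j hj
        unfold Ah
        simp only [Prod.mk.injEq, BB_eq]
        exact ⟨h3, fun i hi => by rw [Finset.mem_singleton.1 hi]; exact h4 j hj, h5, h6⟩
      have hd7 := congrFun h7 d
      unfold tl at hd7
      have hc7 : univ.erase d ⊆ I0 ∧ ∃ i ∈ I0, i ≠ d := ⟨Finset.Subset.refl _, b, hbI, B.bd⟩
      rw [if_pos hc7, if_pos hc7] at hd7
      have hUj : ∀ j ∈ I0, U {j} v.1 v.2.1 = U {j} u.1 u.2.1 := by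
        intro j hj
        rw [h3]
        exact B.dep {j} u.1 v.2.1 u.2.1 (fun i hi => by rw [Finset.mem_singleton.1 hi]; exact h4 j hj) h6
      have hLv : L v = L u := by
        show (_, (_, _)) = (_, (_, _))
        rw [Prod.mk.injEq, Prod.mk.injEq]
        exact ⟨hUj b hbI, hUj c hcI, Option.some.inj hd7⟩
      show ((E b v ∧ (E c v ∧ E d v)) ∧ L v = L w) = ((E b u ∧ (E c u ∧ E d u)) ∧ L u = L w)
      rw [hLv, hE b v u (hAh b hbI), hE c v u (hAh c hcI), propext ⟨fun _ => hEd u, fun _ => hEd v⟩]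
    have h8 := ex_vert (h := h) B.dep B.sat B.nn B.era B.s0 (I := I0) (j := d) (B.s1 d) hdI (w0 := w) hp hev hE0
    have hlaw : (Q.cond fun v => ((fun v : Pt K X β φ => v.2.2 d) v, Zf D U t d v) =
        ((fun v : Pt K X β φ => v.2.2 d) w, Zf D U t d w)) = (R w).cond fun v => A v ∧ L v = L w := by
      have n1 : P.Pr (fun v => V v ∧ ((fun v : Pt K X β φ => v.2.2 d) v, Zf D U t d v) =
          ((fun v : Pt K X β φ => v.2.2 d) w, Zf D U t d w)) ≠ 0 :=
        (FP.Pr_pos_of (S := fun v => V v ∧ ((fun v : Pt K X β φ => v.2.2 d) v, Zf D U t d v) =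
          ((fun v : Pt K X β φ => v.2.2 d) w, Zf D U t d w)) hp ⟨hVw, rfl⟩).ne'
      have n2 : P.Pr (fun v => xc D U t I0 w v ∧ (A v ∧ L v = L w)) ≠ 0 :=
        (FP.Pr_pos_of (S := fun v => xc D U t I0 w v ∧ (A v ∧ L v = L w)) hp ⟨xc_self U t I0 w, hVw.2, rfl⟩).ne'
      rw [hQ, FP.cond_cond n1, FP.cond_cond n2]
      congr 1
      funext v
      refine propext ⟨fun hh => ?_, fun hh => ?_⟩
      · obtain ⟨h3, h4⟩ := hh
        obtain ⟨h5, h6⟩ := Prod.mk.inj h4
        have h7 := Zf_pub B' h6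
        have h9 := (Zf_iff B' h7.1 h7.2).1 h6
        refine ⟨hZx v w h6, h3.2, ?_⟩
        show (_, (_, _)) = (_, (_, _))
        rw [Prod.mk.injEq, Prod.mk.injEq]
        exact ⟨(Prod.mk.inj h9.1).2, (Prod.mk.inj h9.2).2, h5⟩
      · obtain ⟨h3, h4, h5⟩ := hh
        obtain ⟨h6, h7⟩ := Prod.mk.inj h5
        obtain ⟨h9, h10⟩ := Prod.mk.inj h7
        have hpt := h3.2
        rw [BB_eq] at hpt
        have hn : BB D t ∅ v = BB D t ∅ w := by
          rw [BB_eq]
          exact ⟨fun j hj => absurd hj (Finset.notMem_empty j), hpt.2⟩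
        refine ⟨⟨(hCx v w h3).2 hVw.1, h4⟩, ?_⟩
        rw [Prod.mk.injEq]
        refine ⟨h10, (Zf_iff B' h3.1 hn).2 ⟨?_, ?_⟩⟩
        · unfold zf
          rw [Prod.mk.injEq]
          exact ⟨hpt.1 b hbI, h6⟩
        · unfold zf
          rw [Prod.mk.injEq]
          exact ⟨hpt.1 c hcI, h9⟩
    rw [hlaw]
    unfold kpd
    rw [le_div_iff₀ (B.n1 d), mul_comm]
    exact h8
  refine (Q.E_mono key).trans ?_
  have hk : Q.E (fun w => kpd N d (Real.log (1 / (R w).Pr fun v => A v ∧ L v = L w))) =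
      kpd N d (Q.E fun w => Real.log (1 / (R w).Pr fun v => A v ∧ L v = L w)) := by
    have e1 : ∀ w, kpd N d (Real.log (1 / (R w).Pr fun v => A v ∧ L v = L w)) =
        2 * N ∅ / N {d} * Real.log (1 / (R w).Pr fun v => A v ∧ L v = L w) + 2 * N ∅ / N {d} := by
      intro w
      unfold kpd
      ring
    rw [Q.E_congr fun w _ => e1 w, FP.E_add, FP.E_smul, FP.E_const]
    unfold kpd
    ring
  rw [hk]
  have hkm : ∀ L L' : ℝ, L ≤ L' → kpd N d L ≤ kpd N d L' := by
    intro L L' hL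
    unfold kpd
    refine div_le_div_of_nonneg_right ?_ (B.n1 d).le
    have := mul_le_mul_of_nonneg_left hL (mul_nonneg zero_le_two (B.nn ∅ B.s0))
    linarith
  refine hkm _ _ ?_
  have hxK : ∀ v w : Pt K X β φ, (le (LL U) ∅ v, BB D t I0 v) = (le (LL U) ∅ w, BB D t I0 w) ↔
      xc D U t I0 w v := fun v w => by rw [Prod.mk.injEq]; exact Iff.rfl
  have hlo := E_log_surp (P := P) (K := fun v => (le (LL U) ∅ v, BB D t I0 v)) (C := C) (E := A) (L := L)
    (M := M * (M * (1 / al))) ?_ hV0 ?_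
  · refine le_trans (le_of_eq ?_) hlo
    refine Q.E_congr fun w _ => ?_
    have e1 : (fun v : Pt K X β φ => (le (LL U) ∅ v, BB D t I0 v) = (le (LL U) ∅ w, BB D t I0 w)) = xc D U t I0 w := by
      funext v
      exact propext (hxK v w)
    rw [e1]
  · intro v w hvw
    exact propext (hCx v w ((hxK v w).1 hvw))
  · intro w hp hCw hAw
    obtain ⟨s1, hs1, hs1'⟩ := hMb (w.2.1 b)
    obtain ⟨s2, hs2, hs2'⟩ := hMc (w.2.1 c)
    set s0 : Finset φ := univ.filter fun F => al ≤ D.kf t d w.1 w.2.1 F with hs0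
    have hM0 : 0 ≤ M := (Nat.cast_nonneg _).trans hs1
    refine ⟨s1 ×ˢ (s2 ×ˢ s0), ?_, fun v hpv hCv hAv hvw => ?_⟩
    · rw [Finset.card_product, Finset.card_product, Nat.cast_mul, Nat.cast_mul]
      have h3 := poss_card (t := t) h d w.1 w.2.1
      exact mul_le_mul hs1 (mul_le_mul hs2 h3 (Nat.cast_nonneg _) hM0)
        (mul_nonneg (Nat.cast_nonneg _) (Nat.cast_nonneg _)) hM0
    · have hx := (hxK v w).1 hvw
      have hpt := hx.2
      rw [BB_eq] at hpt
      refine Finset.mem_product.2 ⟨hs1' v hCv hAv.1 (hpt.1 b hbI), Finset.mem_product.2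
        ⟨hs2' v hCv hAv.2.1 (hpt.1 c hcI), Finset.mem_filter.2 ⟨mem_univ _, ?_⟩⟩⟩
      have h1 : D.kf t d v.1 v.2.1 (v.2.2 d) ≠ 0 := by
        intro h0
        refine hpv ?_
        show (∏ l, D.kf t l v.1 v.2.1 (v.2.2 l)) / _ = 0
        rw [Finset.prod_eq_zero (mem_univ d) h0, zero_div]
      have h2 : D.kf t d v.1 v.2.1 = D.kf t d v.1 w.2.1 :=
        D.dep t d v.1 _ _ (fun j hj => hpt.1 j (Finset.mem_erase.2 ⟨hj, mem_univ j⟩)) (hpt.2.2 d)
      rw [h2] at h1
      exact h.thick t d v.1 w.1 _ _ hpt.2.1 h1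

/-- **THE FACE WITHOUT `d`, two bits** -/
theorem face_two (B : Bk h N S U t b c d) (hE : ∀ j, Fac (Ah D t {j}) (E j)) (hEd : ∀ v, E d v) {M : ℝ}
    (hMb : LetM D U t w0 E M b) (hMc : LetM D U t w0 E M c)
    (hV0 : (D.P h t).Pr (Vp D U t w0 E b c d) ≠ 0) :
    (D.P h t).Pr (Vp D U t w0 E b c d) *
      (((D.P h t).cond (Vp D U t w0 E b c d)).klc (D.P h t) (fun v => v.2.2 d) (Zf D U t d) +
        ((D.P h t).cond (Vp D U t w0 E b c d)).I (fun v => v.2.2 d) (Wf D U t) (Zf D U t d)) ≤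
      (D.P h t).Pr (xc D U t ∅ w0) * kpb N b c d (((D.P h t).cond (xc D U t ∅ w0)).Pr (E b))
        (((D.P h t).cond (xc D U t ∅ w0)).Pr (E c)) +
      (D.P h t).Pr (Vp D U t w0 E b c d) * kpd N d (Real.log (M * (M * (1 / al)) * (D.P h t).Pr (xc D U t ∅ w0) /
        (D.P h t).Pr (Vp D U t w0 E b c d))) := by
  rw [mul_add]
  exact add_le_add (two_klc B hE hEd hV0)
    (mul_le_mul_of_nonneg_left (two_I B hE hEd hMb hMc hV0) ((D.P h t).Pr_nonneg _))

end bp2

end Pool.Agent.GMH
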