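import Pool.Agent.GMH.BitPr2
import Pool.Agent.GMH.BitDev

/-!
# GMH.BitPrF: deviation inside a product of bits, one public class (helper56; gm row H3.REL, R.5)

`V` = public class of `w0` and all the bits `E b`, `E c`, `E d` (`E d` trivial in the theorems for two bits).
* `swh` : the term of a face with a hardwired vertex `b` : `P(V) sqrt (2 (klc + I)) <= P(C, E b) sqrt (2 kaph)`;
* `swt` : the term of the face of the two bits;
* `dev_two_bits`, `dev_three_bits` : the deviation, up to the part of `TV3` (see `BitDev.TV3_bit`).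
-/

set_option autoImplicit false
set_option linter.unusedSectionVars false

namespace Pool.Agent.GMH

open Finset Pool.Agent.PWZ Pool.Agent.M3 Pool.Agent.GM Pool.Agent.GM.Harm

section bpf

variable {K X β γ φ υ : Type} [Fintype K] [DecidableEq K] [Fintype X] [Fintype β] [Fintype φ] [Nonempty X] [Nonempty β]
  {D : HD K X β γ φ} {al : ℝ} {h : D.Thick al} {N : Finset K → ℝ} {S : Finset (Finset K)}
  {U : Finset K → X → (K → β) → υ} {t : ℕ} {b c d : K} {w0 : Pt K X β φ} {E : K → Pt K X β φ → Prop}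

theorem sqrt_swap {x y k κ : ℝ} (hx : 0 ≤ x) (hxy : x ≤ y) (hκ : 0 ≤ κ) (hk : x * k ≤ y * κ) :
    x * Real.sqrt (2 * k) ≤ y * Real.sqrt (2 * κ) := by
  have hy : 0 ≤ y := hx.trans hxy
  rcases le_or_gt k 0 with h0 | h0
  · rw [Real.sqrt_eq_zero_of_nonpos (by linarith), mul_zero]
    positivity
  · have e1 : x * Real.sqrt (2 * k) = Real.sqrt (x ^ 2 * (2 * k)) := by
      rw [Real.sqrt_mul (sq_nonneg x), Real.sqrt_sq hx]
    have e2 : y * Real.sqrt (2 * κ) = Real.sqrt (y ^ 2 * (2 * κ)) := by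
      rw [Real.sqrt_mul (sq_nonneg y), Real.sqrt_sq hy]
    rw [e1, e2]
    refine Real.sqrt_le_sqrt ?_
    have h1 := mul_le_mul_of_nonneg_left hk hx
    have h2 : x * (y * κ) ≤ y * (y * κ) := mul_le_mul_of_nonneg_right hxy (mul_nonneg hy hκ)
    nlinarith

theorem sqrt_add_two {x y : ℝ} (hx : 0 ≤ x) (hy : 0 ≤ y) : Real.sqrt (x + y) ≤ Real.sqrt x + Real.sqrt y := by
  rw [Real.sqrt_le_iff]
  refine ⟨by positivity, ?_⟩
  have h1 := Real.sq_sqrt hx
  have h2 := Real.sq_sqrt hy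
  have h3 := mul_nonneg (Real.sqrt_nonneg x) (Real.sqrt_nonneg y)
  nlinarith

theorem kaph_nn (B : Bk h N S U t b c d) {L : ℝ} (hL : 0 ≤ L) : 0 ≤ kaph N al b c d L := by
  unfold kaph
  refine div_nonneg ?_ (B.n2 b).le
  have h1 := B.nn ∅ B.s0
  have h2 := (B.n1 c).le
  have h3 := (B.n1 d).le
  have hl0 : 0 ≤ Real.log (1 / al + 1) := Real.log_nonneg (by
    have := h.pos
    have : 0 ≤ 1 / al := by positivity
    linarith)
  positivity

/-- the surprisal of a bit with its letters -/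
noncomputable def Lv (h : D.Thick al) (U : Finset K → X → (K → β) → υ) (t : ℕ) (w0 : Pt K X β φ)
    (E : K → Pt K X β φ → Prop) (M : ℝ) (b : K) : ℝ :=
  Real.log (M * (D.P h t).Pr (xc D U t ∅ w0) / (D.P h t).Pr (fun v => xc D U t ∅ w0 v ∧ E b v))

theorem Lv_nn {M : ℝ} (hM1 : 1 ≤ M) (h0 : (D.P h t).Pr (fun v => xc D U t ∅ w0 v ∧ E b v) ≠ 0) :
    0 ≤ Lv h U t w0 E M b := by
  refine Real.log_nonneg ?_
  have h1 : 0 < (D.P h t).Pr (fun v => xc D U t ∅ w0 v ∧ E b v) := lt_of_le_of_ne (FP.Pr_nonneg _ _) (Ne.symm h0)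
  rw [le_div_iff₀ h1, one_mul]
  have h2 : (D.P h t).Pr (fun v => xc D U t ∅ w0 v ∧ E b v) ≤ (D.P h t).Pr (xc D U t ∅ w0) :=
    (D.P h t).Pr_mono fun w _ hw => hw.1
  nlinarith

theorem Vp_le (w0 : Pt K X β φ) :
    (D.P h t).Pr (Vp D U t w0 E b c d) ≤ (D.P h t).Pr (fun v => xc D U t ∅ w0 v ∧ E b v) :=
  (D.P h t).Pr_mono fun _ _ hw => ⟨hw.1, hw.2.1⟩

/-- **the term of a face with a hardwired vertex** -/
theorem swh {ι : Type*} {Y : Pt K X β φ → ι} (B : Bk h N S U t b c d) (hE : ∀ j, Fac (Ah D t {j}) (E j)) {M : ℝ}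
    (hM1 : 1 ≤ M) (hM : LetM D U t w0 E M b) (hV0 : (D.P h t).Pr (Vp D U t w0 E b c d) ≠ 0)
    (hY : Fac (fun v : Pt K X β φ => ((v.2.2 c, v.2.2 d), Wf D U t v)) Y) :
    (D.P h t).Pr (Vp D U t w0 E b c d) *
      Real.sqrt (2 * (((D.P h t).cond (Vp D U t w0 E b c d)).klc (D.P h t) (Fc b) (Zo D U t b) +
        ((D.P h t).cond (Vp D U t w0 E b c d)).I (Fc b) Y (Zo D U t b))) ≤
      (D.P h t).Pr (fun v => xc D U t ∅ w0 v ∧ E b v) *
        Real.sqrt (2 * kaph N al b c d (Lv h U t w0 E M b)) := by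
  have h0 : (D.P h t).Pr (fun v => xc D U t ∅ w0 v ∧ E b v) ≠ 0 := by
    intro h1
    exact hV0 (le_antisymm (h1 ▸ Vp_le w0) (FP.Pr_nonneg _ _))
  refine sqrt_swap (FP.Pr_nonneg _ _) (Vp_le w0) (kaph_nn B (Lv_nn hM1 h0)) ?_
  refine le_trans (mul_le_mul_of_nonneg_left ?_ (FP.Pr_nonneg _ _)) (face_hw B hE hM hV0)
  refine add_le_add le_rfl ?_
  rw [FP.I_comm, FP.I_comm _ (fun v : Pt K X β φ => v.2.2 b)]
  exact FP.I_mono _ _ ((Fac.fst _ _).trans hY)

theorem kpb_nn (B : Bk h N S U t b c d) {p q : ℝ} (hp : 0 < p) (hp1 : p ≤ 1) (hq : 0 < q) (hq1 : q ≤ 1) :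
    0 ≤ kpb N b c d p q := by
  have a : 0 ≤ Real.log (1 / p) := Real.log_nonneg (by rw [le_div_iff₀ hp]; linarith)
  have b' : 0 ≤ Real.log (1 / q) := Real.log_nonneg (by rw [le_div_iff₀ hq]; linarith)
  have h1 := (B.n1 b).le
  have h2 := (B.n1 c).le
  unfold kpb
  refine div_nonneg ?_ (B.n2 d).le
  positivity

/-- **the term of the face of two bits** -/
theorem swt {ι : Type*} {W : Pt K X β φ → ι} (B : Bk h N S U t b c d) (hE : ∀ j, Fac (Ah D t {j}) (E j))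
    (hEd : ∀ v, E d v) {M : ℝ} (hM1 : 1 ≤ M)
    (hMb : LetM D U t w0 E M b) (hMc : LetM D U t w0 E M c)
    (hV0 : (D.P h t).Pr (Vp D U t w0 E b c d) ≠ 0) (hW : Fac (Wf D U t) W) :
    (D.P h t).Pr (Vp D U t w0 E b c d) *
      Real.sqrt (2 * (((D.P h t).cond (Vp D U t w0 E b c d)).klc (D.P h t) (Fc d) (Zo D U t d) +
        ((D.P h t).cond (Vp D U t w0 E b c d)).I (Fc d) W (Zo D U t d))) ≤
      (D.P h t).Pr (xc D U t ∅ w0) *
        (2 * (((D.P h t).cond (xc D U t ∅ w0)).Pr (E b) *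
            Real.sqrt (N {b} * (Real.log (1 / ((D.P h t).cond (xc D U t ∅ w0)).Pr (E b)) + 1) / N (univ.erase d))) +
          2 * (((D.P h t).cond (xc D U t ∅ w0)).Pr (E c) *
            Real.sqrt (N {c} * (Real.log (1 / ((D.P h t).cond (xc D U t ∅ w0)).Pr (E c)) + 1) / N (univ.erase d)))) +
      (D.P h t).Pr (Vp D U t w0 E b c d) * Real.sqrt (2 * kpd N d (Real.log (M * (M * (1 / al)) *
        (D.P h t).Pr (xc D U t ∅ w0) / (D.P h t).Pr (Vp D U t w0 E b c d)))) := by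
  classical
  set P := D.P h t with hP
  set C := xc D U t ∅ w0 with hC
  set V := Vp D U t w0 E b c d with hV
  set PC := P.cond C with hPC
  set k := (P.cond V).klc P (Fc d) (Zo D U t d) + (P.cond V).I (Fc d) W (Zo D U t d) with hk
  set kd := kpd N d (Real.log (M * (M * (1 / al)) * P.Pr C / P.Pr V)) with hkd
  set pb := PC.Pr (E b) with hpb
  set pc := PC.Pr (E c) with hpc
  have hV1 : 0 < P.Pr V := lt_of_le_of_ne (FP.Pr_nonneg _ _) (Ne.symm hV0)
  have hC0 : P.Pr C ≠ 0 := by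
    intro h1
    refine hV0 (le_antisymm ?_ (P.Pr_nonneg _))
    rw [← h1]
    exact P.Pr_mono fun w _ hw => hw.1
  have hC1 : 0 < P.Pr C := lt_of_le_of_ne (FP.Pr_nonneg _ _) (Ne.symm hC0)
  have hPr : ∀ F : Pt K X β φ → Prop, (∀ v, V v → F v) → P.Pr V ≤ P.Pr C * PC.Pr F := by
    intro F hF
    rw [hPC, FP.cond_Pr hC0, mul_div_cancel₀ _ hC0]
    exact P.Pr_mono fun w _ hw => ⟨hw.1, hF w hw⟩
  have hVb := hPr (E b) fun v hv => hv.2.1
  have hVc := hPr (E c) fun v hv => hv.2.2.1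
  have hpb0 : 0 < pb := by
    by_contra hn
    have : pb = 0 := le_antisymm (not_lt.1 hn) (FP.Pr_nonneg _ _)
    have h1 : P.Pr C * PC.Pr (E b) = 0 := by rw [← hpb, this, mul_zero]
    linarith
  have hpc0 : 0 < pc := by
    by_contra hn
    have : pc = 0 := le_antisymm (not_lt.1 hn) (FP.Pr_nonneg _ _)
    have h1 : P.Pr C * PC.Pr (E c) = 0 := by rw [← hpc, this, mul_zero]
    linarith
  have hpb1 : pb ≤ 1 := FP.Pr_le_one _ _
  have hpc1 : pc ≤ 1 := FP.Pr_le_one _ _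
  have hVC : P.Pr V ≤ P.Pr C := P.Pr_mono fun w _ hw => hw.1
  -- the bound of `face_two`
  have hf : P.Pr V * k ≤ P.Pr C * kpb N b c d pb pc + P.Pr V * kd := by
    refine le_trans (mul_le_mul_of_nonneg_left ?_ hV1.le) (face_two B hE hEd hMb hMc hV0)
    refine add_le_add le_rfl ?_
    rw [FP.I_comm, FP.I_comm _ (fun v : Pt K X β φ => v.2.2 d)]
    exact FP.I_mono _ _ ((Fac.fst _ _).trans hW)
  have hkd0 : 0 ≤ kd := by
    rw [hkd]
    unfold kpd
    refine div_nonneg ?_ (B.n1 d).le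
    have h1 := B.nn ∅ B.s0
    have h2 : 0 ≤ Real.log (M * (M * (1 / al)) * P.Pr C / P.Pr V) := by
      refine Real.log_nonneg ?_
      rw [le_div_iff₀ hV1, one_mul]
      have h3 : 1 ≤ 1 / al := by rw [le_div_iff₀ h.pos, one_mul]; exact hal_one h b
      have h4 : 1 ≤ M * (M * (1 / al)) := by
        have := one_le_mul_of_one_le_of_one_le hM1 h3
        exact one_le_mul_of_one_le_of_one_le hM1 this
      nlinarith
    positivity
  -- the two parts
  set kb := kpb N b c d pb pc with hkb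
  have hkb0 : 0 ≤ kb := kpb_nn B hpb0 hpb1 hpc0 hpc1
  have h1 : P.Pr V * Real.sqrt (2 * k) ≤ Real.sqrt (2 * P.Pr V * (P.Pr C * kb)) + P.Pr V * Real.sqrt (2 * kd) := by
    have e1 : P.Pr V * Real.sqrt (2 * k) ≤ Real.sqrt (2 * P.Pr V * (P.Pr C * kb) + (P.Pr V) ^ 2 * (2 * kd)) := by
      rcases le_or_gt k 0 with h2 | h2
      · rw [Real.sqrt_eq_zero_of_nonpos (by linarith), mul_zero]
        exact Real.sqrt_nonneg _
      · have e2 : P.Pr V * Real.sqrt (2 * k) = Real.sqrt ((P.Pr V) ^ 2 * (2 * k)) := by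
          rw [Real.sqrt_mul (sq_nonneg _), Real.sqrt_sq hV1.le]
        rw [e2]
        refine Real.sqrt_le_sqrt ?_
        have := mul_le_mul_of_nonneg_left hf (show 0 ≤ 2 * P.Pr V by positivity)
        nlinarith
    refine e1.trans ((sqrt_add_two (by positivity) (by positivity)).trans (add_le_add le_rfl (le_of_eq ?_)))
    rw [Real.sqrt_mul (sq_nonneg _), Real.sqrt_sq hV1.le]
  refine h1.trans (add_le_add ?_ le_rfl)
  -- the bits
  have lb : 0 ≤ Real.log (1 / pb) + 1 := by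
    have : 0 ≤ Real.log (1 / pb) := Real.log_nonneg (by rw [le_div_iff₀ hpb0]; linarith)
    linarith
  have lc : 0 ≤ Real.log (1 / pc) + 1 := by
    have : 0 ≤ Real.log (1 / pc) := Real.log_nonneg (by rw [le_div_iff₀ hpc0]; linarith)
    linarith
  have hNd := B.n2 d
  have hNb := B.n1 b
  have hNc := B.n1 c
  have one : ∀ p l Nv : ℝ, 0 ≤ p → 0 ≤ l → 0 ≤ Nv → P.Pr V ≤ P.Pr C * p →
      Real.sqrt (2 * P.Pr V * (P.Pr C * (2 * (Nv * (p * l)) / N (univ.erase d)))) ≤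
        P.Pr C * (2 * (p * Real.sqrt (Nv * l / N (univ.erase d)))) := by
    intro p l Nv hp hl hNv hVp
    have e1 : P.Pr C * (2 * (p * Real.sqrt (Nv * l / N (univ.erase d)))) =
        Real.sqrt ((2 * (P.Pr C * p)) ^ 2 * (Nv * l / N (univ.erase d))) := by
      rw [Real.sqrt_mul (sq_nonneg _), Real.sqrt_sq (by positivity)]
      ring
    rw [e1]
    refine Real.sqrt_le_sqrt ?_
    have h2 : 0 ≤ Nv * l / N (univ.erase d) := by positivity
    have e2 : 2 * P.Pr V * (P.Pr C * (2 * (Nv * (p * l)) / N (univ.erase d))) =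
        (4 * (P.Pr C * p) * P.Pr V) * (Nv * l / N (univ.erase d)) := by
      field_simp
      ring
    rw [e2]
    refine mul_le_mul_of_nonneg_right ?_ h2
    have h3 : 0 ≤ P.Pr C * p := by positivity
    nlinarith
  have e3 : 2 * P.Pr V * (P.Pr C * kb) =
      2 * P.Pr V * (P.Pr C * (2 * (N {b} * (pb * (Real.log (1 / pb) + 1))) / N (univ.erase d))) +
      2 * P.Pr V * (P.Pr C * (2 * (N {c} * (pc * (Real.log (1 / pc) + 1))) / N (univ.erase d))) := by
    rw [hkb]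
    unfold kpb
    ring
  rw [e3]
  refine (sqrt_add_two (by positivity) (by positivity)).trans ?_
  have r1 := one pb _ _ hpb0.le lb hNb.le hVb
  have r2 := one pc _ _ hpc0.le lc hNc.le hVc
  refine (add_le_add r1 r2).trans (le_of_eq ?_)
  ring

variable {ι : Type} {W : Pt K X β φ → ι} {a g : Pt K X β φ → ℝ}

/-- the terms of the faces with a hardwired vertex -/
noncomputable def Sh (h : D.Thick al) (N : Finset K → ℝ) (U : Finset K → X → (K → β) → υ) (t : ℕ) (w0 : Pt K X β φ)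
    (E : K → Pt K X β φ → Prop) (M : ℝ) (b c d : K) : ℝ :=
  (D.P h t).Pr (fun v => xc D U t ∅ w0 v ∧ E b v) * Real.sqrt (2 * kaph N al b c d (Lv h U t w0 E M b))

/-- the term of the face of two bits -/
noncomputable def St (h : D.Thick al) (N : Finset K → ℝ) (U : Finset K → X → (K → β) → υ) (t : ℕ) (w0 : Pt K X β φ)
    (E : K → Pt K X β φ → Prop) (M : ℝ) (b c d : K) : ℝ :=
  (D.P h t).Pr (xc D U t ∅ w0) *
        (2 * (((D.P h t).cond (xc D U t ∅ w0)).Pr (E b) *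
            Real.sqrt (N {b} * (Real.log (1 / ((D.P h t).cond (xc D U t ∅ w0)).Pr (E b)) + 1) / N (univ.erase d))) +
          2 * (((D.P h t).cond (xc D U t ∅ w0)).Pr (E c) *
            Real.sqrt (N {c} * (Real.log (1 / ((D.P h t).cond (xc D U t ∅ w0)).Pr (E c)) + 1) / N (univ.erase d)))) +
      (D.P h t).Pr (Vp D U t w0 E b c d) * Real.sqrt (2 * kpd N d (Real.log (M * (M * (1 / al)) *
        (D.P h t).Pr (xc D U t ∅ w0) / (D.P h t).Pr (Vp D U t w0 E b c d))))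

theorem tri_all (B : Bk h N S U t b c d) (i : K) : i = d ∨ i = c ∨ i = b := by
  rcases B.all i with h1 | h1 | h1
  · exact Or.inr (Or.inr h1)
  · exact Or.inr (Or.inl h1)
  · exact Or.inl h1

/-- **THE DEVIATION INSIDE THREE BITS**, one public class -/
theorem dev_three_bits (B : Bk h N S U t b c d) (hE : ∀ j, Fac (Ah D t {j}) (E j)) {M : ℝ} (hM1 : 1 ≤ M)
    (hM : ∀ j, LetM D U t w0 E M j) (hV0 : (D.P h t).Pr (Vp D U t w0 E b c d) ≠ 0)
    (hW1 : ∀ i, Fac W (Zo D U t i)) (hW2 : Fac (Wf D U t) W) (ha : Fac W a) (h0 : ∀ w, 0 ≤ a w) (h1 : ∀ w, a w ≤ 1)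
    (hg : Fac (fun w => (tup (Fc : K → Pt K X β φ → φ) w, W w)) g) (hb : ∀ w, |g w| ≤ 1) :
    |(D.P h t).E (fun w => ind (Vp D U t w0 E b c d w) * (a w * (g w - (D.P h t).ce W g w)))| ≤
      (Sh h N U t w0 E M d b c + Sh h N U t w0 E M c b d + Sh h N U t w0 E M b c d) +
        (D.P h t).E (fun w => ind (Vp D U t w0 E b c d w) * (a w * TV3 (D.P h t) (Zo D U t) Fc W w)) := by
  have k1 := dev_ev (P := D.P h t) (V := Vp D U t w0 E b c d) (Zb := Zo D U t) (F := Fc) (W := W) (al := a)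
    (i1 := d) (i2 := c) (i3 := b) hV0 B.cd.symm B.bd.symm B.bc.symm (tri_all B) hW1 ha h0 hg hb
  refine k1.trans (add_le_add ?_ le_rfl)
  have k2 := Sw3_le (Q := (D.P h t).cond (Vp D U t w0 E b c d)) (P := D.P h t) (Zb := Zo D U t) (F := Fc) (W := W)
    (al := a) (i1 := d) (i2 := c) (i3 := b) (FP.cond_ac _ _) hW1 h0 h1 le_rfl le_rfl le_rfl
  refine (mul_le_mul_of_nonneg_left k2 (FP.Pr_nonneg _ _)).trans ?_
  rw [mul_add, mul_add]
  have er : Vp D U t w0 E d b c = Vp D U t w0 E b c d := by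
    funext v
    exact propext ⟨fun ⟨x1, x2, x3, x4⟩ => ⟨x1, x3, x4, x2⟩, fun ⟨x1, x2, x3, x4⟩ => ⟨x1, x4, x2, x3⟩⟩
  have ec : Vp D U t w0 E c b d = Vp D U t w0 E b c d := Vp_rot
  refine add_le_add (add_le_add ?_ ?_) ?_
  · have := swh (Y := W) B.rot' hE hM1 (hM d) (by rw [er]; exact hV0) ((Fac.snd _ _).trans hW2)
    rw [er] at this
    exact this
  · have := swh (Y := fun w => (Fc d w, W w)) B.rot hE hM1 (hM c) (by rw [ec]; exact hV0) (by
      intro v w hvw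
      simp only [Prod.mk.injEq] at hvw ⊢
      exact ⟨hvw.1.2, hW2 v w hvw.2⟩)
    rw [ec] at this
    exact this
  · refine swh (Y := fun w => (Fc c w, Fc d w, W w)) B hE hM1 (hM b) hV0 ?_
    intro v w hvw
    simp only [Prod.mk.injEq] at hvw ⊢
    exact ⟨hvw.1.1, hvw.1.2, hW2 v w hvw.2⟩

/-- **THE DEVIATION INSIDE TWO BITS**, one public class -/
theorem dev_two_bits (B : Bk h N S U t b c d) (hE : ∀ j, Fac (Ah D t {j}) (E j)) (hEd : ∀ v, E d v) {M : ℝ}
    (hM1 : 1 ≤ M) (hMb : LetM D U t w0 E M b) (hMc : LetM D U t w0 E M c)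
    (hV0 : (D.P h t).Pr (Vp D U t w0 E b c d) ≠ 0)
    (hW1 : ∀ i, Fac W (Zo D U t i)) (hW2 : Fac (Wf D U t) W) (ha : Fac W a) (h0 : ∀ w, 0 ≤ a w) (h1 : ∀ w, a w ≤ 1)
    (hg : Fac (fun w => (tup (Fc : K → Pt K X β φ → φ) w, W w)) g) (hb : ∀ w, |g w| ≤ 1) :
    |(D.P h t).E (fun w => ind (Vp D U t w0 E b c d w) * (a w * (g w - (D.P h t).ce W g w)))| ≤
      (St h N U t w0 E M b c d + Sh h N U t w0 E M c b d + Sh h N U t w0 E M b c d) +
        (D.P h t).E (fun w => ind (Vp D U t w0 E b c d w) * (a w * TV3 (D.P h t) (Zo D U t) Fc W w)) := by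
  have k1 := dev_ev (P := D.P h t) (V := Vp D U t w0 E b c d) (Zb := Zo D U t) (F := Fc) (W := W) (al := a)
    (i1 := d) (i2 := c) (i3 := b) hV0 B.cd.symm B.bd.symm B.bc.symm (tri_all B) hW1 ha h0 hg hb
  refine k1.trans (add_le_add ?_ le_rfl)
  have k2 := Sw3_le (Q := (D.P h t).cond (Vp D U t w0 E b c d)) (P := D.P h t) (Zb := Zo D U t) (F := Fc) (W := W)
    (al := a) (i1 := d) (i2 := c) (i3 := b) (FP.cond_ac _ _) hW1 h0 h1 le_rfl le_rfl le_rfl
  refine (mul_le_mul_of_nonneg_left k2 (FP.Pr_nonneg _ _)).trans ?_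
  rw [mul_add, mul_add]
  have ec : Vp D U t w0 E c b d = Vp D U t w0 E b c d := Vp_rot
  refine add_le_add (add_le_add ?_ ?_) ?_
  · exact swt B hE hEd hM1 hMb hMc hV0 hW2
  · have := swh (Y := fun w => (Fc d w, W w)) B.rot hE hM1 hMc (by rw [ec]; exact hV0) (by
      intro v w hvw
      simp only [Prod.mk.injEq] at hvw ⊢
      exact ⟨hvw.1.2, hW2 v w hvw.2⟩)
    rw [ec] at this
    exact this
  · refine swh (Y := fun w => (Fc c w, Fc d w, W w)) B hE hM1 hMb hV0 ?_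
    intro v w hvw
    simp only [Prod.mk.injEq] at hvw ⊢
    exact ⟨hvw.1.1, hvw.1.2, hW2 v w hvw.2⟩

end bpf

end Pool.Agent.GMH
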