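import Pool.Agent.GMH.BitPr
import Pool.Agent.GMH.BitKL

/-!
# GMH.BitPrR: products of bits for the run (helper56; gm row H3.REL, R.5)

`|K| = 3`, saturated state (`Bk`).  `E j` = bit of (hidden point, point of `j`).
* `Zf r`, `Wf` : what the face without `r` sees below, all thin letters;
* `pv_hw` : the law of a face given what it sees does not change if the foreign point is exact;
* `hw_pt` : one class, the vertex `b` hardwired with its letter, additions = bits and labels at the other vertices;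
* `face_hw` : the face without `b` inside the product event, `P(V) (klc + I) <= P(C, E b) ..`;
-/

set_option autoImplicit false
set_option linter.unusedSectionVars false

namespace Pool.Agent.GMH

open Finset Pool.Agent.PWZ Pool.Agent.M3 Pool.Agent.GM Pool.Agent.GM.Harm

section bpr

variable {K X β γ φ υ : Type} [Fintype K] [DecidableEq K] [Fintype X] [Fintype β] [Fintype φ] [Nonempty X] [Nonempty β]
  {D : HD K X β γ φ} {al : ℝ} {h : D.Thick al} {N : Finset K → ℝ} {S : Finset (Finset K)}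
  {U : Finset K → X → (K → β) → υ} {t : ℕ} {b c d : K} {w0 : Pt K X β φ}

/-- what the face without `r` sees below -/
noncomputable def Zf (D : HD K X β γ φ) (U : Finset K → X → (K → β) → υ) (t : ℕ) (r : K) (w : Pt K X β φ) :
    (Finset K → Option (υ × (K → Option φ))) × ((K → Option β) × (γ × (K → γ))) :=
  (lo (LL U) (univ.erase r) w, BB D t (univ.erase r) w)

/-- all thin letters -/
noncomputable def Wf (D : HD K X β γ φ) (U : Finset K → X → (K → β) → υ) (t : ℕ) (w : Pt K X β φ) :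
    ((Finset K → Option (υ × (K → Option φ))) × ((K → Option β) × (γ × (K → γ)))) × (K → β × υ) :=
  ((le (LL U) ∅ w, BB D t ∅ w), fun j => zf U j w)

/-! ### roles -/

theorem Bk.rot (B : Bk h N S U t b c d) : Bk h N S U t c b d where
  dep := B.dep
  sat := B.sat
  nn := B.nn
  bc := B.bc.symm
  bd := B.cd
  cd := B.bd
  all := fun j => by
    rcases B.all j with h1 | h1 | h1
    · exact Or.inr (Or.inl h1)
    · exact Or.inl h1
    · exact Or.inr (Or.inr h1)
  s0 := B.s0
  s1 := B.s1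
  s2 := B.s2
  n1 := B.n1
  n2 := B.n2

theorem Bk.rot' (B : Bk h N S U t b c d) : Bk h N S U t d b c := B.swap.rot

theorem Bk.era2 (B : Bk h N S U t b c d) : (univ.erase b : Finset K) = {c, d} := by
  ext j
  simp only [Finset.mem_erase, mem_univ, and_true, Finset.mem_insert, Finset.mem_singleton]
  constructor
  · intro hj
    rcases B.all j with h1 | h1 | h1
    · exact absurd h1 hj
    · exact Or.inl h1
    · exact Or.inr h1
  · rintro (rfl | rfl)
    · exact B.bc.symm
    · exact B.bd.symm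

/-- public information and node -/
theorem pubU {v w : Pt K X β φ} (h1 : le (LL U) ∅ v = le (LL U) ∅ w) : U ∅ v.1 v.2.1 = U ∅ w.1 w.2.1 := by
  rw [le_eq] at h1
  exact (LL_eq.1 (h1 ∅ (Finset.Subset.refl _))).1

theorem Zf_iff (B : Bk h N S U t b c d) {v w : Pt K X β φ} (h1 : le (LL U) ∅ v = le (LL U) ∅ w)
    (h2 : BB D t ∅ v = BB D t ∅ w) : Zf D U t b v = Zf D U t b w ↔ (zf U c v = zf U c w ∧ zf U d v = zf U d w) :=
  fib2 B.cd B.bc.symm B.bd.symm (fun j => by
    rcases B.all j with h1 | h1 | h1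
    · exact Or.inr (Or.inr h1)
    · exact Or.inl h1
    · exact Or.inr (Or.inl h1)) h2 (pubU h1)

theorem Zf_pub (B : Bk h N S U t b c d) {v w : Pt K X β φ} (h1 : Zf D U t b v = Zf D U t b w) :
    le (LL U) ∅ v = le (LL U) ∅ w ∧ BB D t ∅ v = BB D t ∅ w := by
  unfold Zf at h1
  rw [Prod.mk.injEq, lo_eq, BB_eq] at h1
  constructor
  · rw [le_eq]
    intro I hI
    have hI0 : I = ∅ := Finset.subset_empty.1 hI
    subst hI0
    refine h1.1 ∅ ?_
    rw [Finset.ssubset_iff_of_subset (Finset.empty_subset _)]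
    exact ⟨c, Finset.mem_erase.2 ⟨B.bc.symm, mem_univ c⟩, Finset.notMem_empty c⟩
  · rw [BB_eq]
    exact ⟨fun j hj => absurd hj (Finset.notMem_empty j), h1.2.2⟩

theorem Wf_Zf (B : Bk h N S U t b c d) : Fac (Wf D U t) (Zf D U t b) := by
  intro v w hvw
  unfold Wf at hvw
  rw [Prod.mk.injEq, Prod.mk.injEq] at hvw
  exact (Zf_iff B hvw.1.1 hvw.1.2).2 ⟨congrFun hvw.2 c, congrFun hvw.2 d⟩

/-- what a face sees is a function of the hidden point and the base information -/
theorem Zf_fac (B : Bk h N S U t b c d) : Fac (fun w => (w.1, BB D t (univ.erase b) w)) (Zf D U t b) := by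
  intro v w hvw
  rw [Prod.mk.injEq] at hvw
  obtain ⟨h1, h2⟩ := hvw
  have h3 := h2
  rw [BB_eq] at h3
  unfold Zf
  rw [Prod.mk.injEq]
  refine ⟨?_, h2⟩
  rw [lo_eq]
  intro I hI
  rw [LL_eq]
  refine ⟨?_, fun l hl => absurd (hl ▸ hI) (erase_ss l b)⟩
  rw [h1]
  exact B.dep I w.1 v.2.1 w.2.1 (fun j hj => h3.1 j (hI.1 hj)) h3.2.2

/-! ### the exact foreign point -/

theorem pv_hw (B : Bk h N S U t b c d) {w : Pt K X β φ} (hw : (D.P h t).p w ≠ 0) (f : φ) :
    (D.P h t).pv (Zf D U t b) (fun v => v.2.2 b) w f = (QB h U t b w).pv (Zf D U t b) (fun v => v.2.2 b) w f := by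
  classical
  set P := D.P h t with hP
  set V0 := xc D U t (univ.erase b) w with hV0
  have hV0n : P.Pr V0 ≠ 0 := xc_ne hw
  have hxn : P.Pr (xc D U t {b} w) ≠ 0 := xc_ne hw
  have hin := cls_indep2 (h := h) b (xc_fac (U := U) (univ.erase b) w B.dep B.era)
    (fun v u hv hu => hv.2.trans hu.2.symm) (xc_self U t (univ.erase b) w) hV0n
  set P0 := P.cond V0 with hP0
  -- the fibre of `Zf b` in the class
  set Sz : Pt K X β φ → Prop := fun v => Zf D U t b v = Zf D U t b w with hSz
  set Sz' : Pt K X β φ → Prop := fun v => Zf D U t b (v.1, w.2.1, w.2.2) = Zf D U t b w with hSz'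
  have hSS : ∀ v, V0 v → (Sz v ↔ Sz' v) := by
    intro v hv
    have e : Zf D U t b v = Zf D U t b (v.1, w.2.1, w.2.2) := by
      refine Zf_fac B v _ ?_
      have h2 := hv.2
      rw [BB_eq] at h2
      simp only [Prod.mk.injEq, BB_eq]
      exact ⟨trivial, h2.1, trivial, h2.2.2⟩
    show Zf D U t b v = Zf D U t b w ↔ Zf D U t b (v.1, w.2.1, w.2.2) = Zf D U t b w
    rw [e]
  have hZV : ∀ v, Sz v → V0 v := by
    intro v hv
    have h1 := Zf_pub B hv
    refine ⟨h1.1, ?_⟩
    have h2 : Zf D U t b v = Zf D U t b w := hv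
    unfold Zf at h2
    exact (Prod.mk.inj h2).2
  have hxz : ∀ v, Sz v → (xc D U t {b} w v ↔ v.2.1 b = w.2.1 b) := by
    intro v hv
    have h1 := Zf_pub B hv
    constructor
    · intro hh
      have h2 := hh.2
      rw [BB_eq] at h2
      exact h2.1 b (Finset.mem_singleton_self b)
    · intro hh
      refine ⟨h1.1, ?_⟩
      have h2 := h1.2
      rw [BB_eq] at h2 ⊢
      exact ⟨fun j hj => by rw [Finset.mem_singleton.1 hj]; exact hh, h2.2⟩
  -- masses
  have key : ∀ g : φ → ℝ, P.E (fun v => ind (xc D U t {b} w v) * (ind (Sz v) * g (v.2.2 b))) =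
      P0.Pr (fun v => v.2.1 b = w.2.1 b) * P.E (fun v => ind (Sz v) * g (v.2.2 b)) := by
    intro g
    have a1 : P.E (fun v => ind (xc D U t {b} w v) * (ind (Sz v) * g (v.2.2 b))) =
        P.Pr V0 * P0.E (fun v => ind (v.2.1 b = w.2.1 b) * (ind (Sz' v) * g (v.2.2 b))) := by
      rw [hP0, FP.Pr_mul_cond_E hV0n]
      refine P.E_congr fun v _ => ?_
      by_cases h1 : V0 v
      · rw [ind_of h1, one_mul, ← propext (hSS v h1)]
        by_cases h2 : Sz v
        · rw [propext (hxz v h2)]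
        · rw [ind_not h2, zero_mul, mul_zero, mul_zero]
      · rw [ind_not h1, zero_mul, ind_not (fun h2 => h1 (hZV v h2)), zero_mul, mul_zero]
    have a2 : P.E (fun v => ind (Sz v) * g (v.2.2 b)) = P.Pr V0 * P0.E (fun v => ind (Sz' v) * g (v.2.2 b)) := by
      rw [hP0, FP.Pr_mul_cond_E hV0n]
      refine P.E_congr fun v _ => ?_
      by_cases h1 : V0 v
      · rw [ind_of h1, one_mul, ← propext (hSS v h1)]
      · rw [ind_not h1, zero_mul, ind_not (fun h2 => h1 (hZV v h2)), zero_mul]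
    rw [a1, a2, hin (fun v => ind (v.2.1 b = w.2.1 b)) (fun v => ind (Sz' v) * g (v.2.2 b))]
    · show _ * (P0.E (fun v => ind (v.2.1 b = w.2.1 b)) * _) = P0.E (fun v => ind (v.2.1 b = w.2.1 b)) * _
      ring
    · intro v u hvu
      have h1 : v.2.1 b = u.2.1 b := hvu
      show ind (v.2.1 b = w.2.1 b) = ind (u.2.1 b = w.2.1 b)
      rw [h1]
    · intro v u hvu
      obtain ⟨h1, h2⟩ := Prod.mk.inj (show (v.1, v.2.2 b) = (u.1, u.2.2 b) from hvu)
      show ind (Zf D U t b (v.1, w.2.1, w.2.2) = Zf D U t b w) * g (v.2.2 b) =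
        ind (Zf D U t b (u.1, w.2.1, w.2.2) = Zf D U t b w) * g (u.2.2 b)
      rw [h1, h2]
  have hpt : P0.Pr (fun v => v.2.1 b = w.2.1 b) ≠ 0 := by
    have h1 : P0.p w ≠ 0 := (FP.cond_p_ne hV0n).2 ⟨xc_self U t (univ.erase b) w, hw⟩
    exact (FP.Pr_pos_of (S := fun v => v.2.1 b = w.2.1 b) h1 rfl).ne'
  unfold QB
  rw [pv_num, pv_num, FP.cond_E hxn, FP.cond_m hxn, div_div_div_cancel_right₀ hxn]
  have k1 := key fun F => ind (F = f)
  have k2 := key fun _ => 1
  simp only [mul_one] at k2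
  have e1 : P.m (Zf D U t b) w = P.E (fun v => ind (Sz v)) := rfl
  rw [e1]
  show P.E (fun v => ind (Sz v) * ind (v.2.2 b = f)) / P.E (fun v => ind (Sz v)) =
    P.E (fun v => ind (xc D U t {b} w v) * (ind (Sz v) * ind (v.2.2 b = f))) /
      P.E (fun v => ind (xc D U t {b} w v) * ind (Sz v))
  rw [k1, k2, mul_div_mul_left _ _ hpt]

/-! ### additions -/

open Classical in
/-- bit and label of the face with the hardwired vertex `e` -/
noncomputable def gb (E : K → Pt K X β φ → Prop) (e : K) (J : Finset K) (w : Pt K X β φ) : Option (K → Option φ) :=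
  if ∃ j, j ≠ e ∧ J = {j} ∧ E j w then some (fl {e} J w) else none

variable {E : K → Pt K X β φ → Prop}

theorem gb_in {e j : K} (hj : j ≠ e) {w : Pt K X β φ} (hE : E j w) : gb E e {j} w = some (fl {e} {j} w) :=
  if_pos ⟨j, hj, rfl, hE⟩

theorem gb_out {e j : K} {w : Pt K X β φ} (hE : ¬ E j w) : gb E e {j} w = none := by
  refine if_neg ?_
  rintro ⟨j', -, h2, h3⟩
  rw [← Finset.singleton_injective h2] at h3
  exact hE h3

theorem gb_non {e : K} {J : Finset K} (hJ : ∀ j, j ≠ e → J ≠ {j}) {w : Pt K X β φ} : gb E e J w = none := by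
  refine if_neg ?_
  rintro ⟨j', h1, h2, -⟩
  exact hJ j' h1 h2

theorem gb_iff {e j : K} (hj : j ≠ e) {v w : Pt K X β φ} (h1 : gb E e {j} v = gb E e {j} w) : E j v ↔ E j w := by
  constructor
  · intro hv
    by_contra hw
    rw [gb_in hj hv, gb_out hw] at h1
    exact Option.some_ne_none _ h1
  · intro hw
    by_contra hv
    rw [gb_in hj hw, gb_out hv] at h1
    exact Option.some_ne_none _ h1.symm

theorem gb_GI (hE : ∀ j, Fac (Ah D t {j}) (E j)) (e : K) : GI D t {e} (gb E e) := by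
  intro J v w hvw
  have hfl := fl_GI (D := D) (t := t) (φ := φ) {e} J v w hvw
  simp only [Prod.mk.injEq, BB_eq] at hvw
  obtain ⟨h1, ⟨h2, h3, h4⟩, -⟩ := hvw
  by_cases hJ : ∃ j, j ≠ e ∧ J = {j}
  · obtain ⟨j, hj, rfl⟩ := hJ
    have e1 : E j v = E j w := by
      refine hE j v w ?_
      unfold Ah
      simp only [Prod.mk.injEq, BB_eq]
      exact ⟨h1, fun i hi => h2 i (Finset.mem_union_right _ hi), h3, h4⟩
    by_cases hv : E j v
    · rw [gb_in hj hv, gb_in hj (e1 ▸ hv), hfl]
    · rw [gb_out hv, gb_out (e1 ▸ hv)]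
  · have hJ' : ∀ j, j ≠ e → J ≠ {j} := fun j h5 h6 => hJ ⟨j, h5, h6⟩
    rw [gb_non hJ', gb_non hJ']

/-- cost of the additions -/
theorem gb_cost (B : Bk h N S U t b c d) {y : K → β} {Q : FP (Pt K X β φ)} {E0 : Pt K X β φ → Prop} :
    ∑ J ∈ S, N J * cost ((FP.pr Q (coinT h t)).cond fun w => E0 (hwm D t {b} y w))
      (fun I w => BB D t I w.1) (fun I w => LL U I w.1) (fun J w => gb E b J (hwm D t {b} y w)) J ≤
      (N {c} + N {d}) * Real.log (1 / al + 1) := by
  classical
  set PE := (FP.pr Q (coinT h t)).cond fun w => E0 (hwm D t {b} y w) with hPE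
  have hl0 : 0 ≤ Real.log (1 / al + 1) := Real.log_nonneg (by
    have := h.pos
    have : 0 ≤ 1 / al := by positivity
    linarith)
  -- one vertex
  have key : ∀ j l : K, j ≠ b → univ.erase l = ({b} : Finset K) ∪ {j} → b ≠ l →
      cost PE (fun I w => BB D t I w.1) (fun I w => LL U I w.1) (fun J w => gb E b J (hwm D t {b} y w)) {j} ≤
        Real.log (1 / al + 1) := by
    intro j l hj hlJ hbl
    unfold cost
    refine Hc_le_card _ _ _ ?_
    intro w hw
    set y0 := hwy {b} y w.1.2.1 with hy0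
    set s0 : Finset φ := univ.filter fun F => al ≤ D.kf t l w.1.1 y0 F with hs0
    set mk : φ → (K → Option φ) := fun F l' => if l' = l then some F else none with hmk
    refine ⟨insert none (s0.image fun F => some (mk F)), ?_, ?_⟩
    · have h1 : (insert none (s0.image fun F => some (mk F)) : Finset (Option (K → Option φ))).card ≤ s0.card + 1 :=
        (Finset.card_insert_le _ _).trans (Nat.add_le_add_right Finset.card_image_le 1)
      have h2 : ((insert none (s0.image fun F => some (mk F)) : Finset (Option (K → Option φ))).card : ℝ) ≤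
          (s0.card : ℝ) + 1 := by exact_mod_cast h1
      have h3 := poss_card (t := t) h l w.1.1 y0
      linarith
    · intro v hv hvw
      simp only [Prod.mk.injEq, BB_eq] at hvw
      obtain ⟨-, -, h3, h4, h5⟩ := hvw
      have hv' := (pr_supp Q (coinT h t)).1 (FP.cond_ac _ _ v hv)
      by_cases hEv : E j (hwm D t {b} y v)
      · refine Finset.mem_insert_of_mem (Finset.mem_image.2
          ⟨rd D t v.2 l v.1.1 (hwy {b} y v.1.2.1), Finset.mem_filter.2 ⟨mem_univ _, ?_⟩, ?_⟩)
        · refine rd_poss hv'.2 l h4 (fun j' hj' => ?_) fun j' => ?_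
          · have hjm : j' ∈ ({b} : Finset K) ∪ {j} := by
              rw [← hlJ]; exact Finset.mem_erase.2 ⟨hj', mem_univ j'⟩
            rw [hy0]
            unfold hwy
            by_cases hjI : j' ∈ ({b} : Finset K)
            · rw [if_pos hjI, if_pos hjI]
            · rw [if_neg hjI, if_neg hjI]
              exact h3 j' ((Finset.mem_union.1 hjm).resolve_left hjI)
          · rw [hy0]
            unfold hwy
            by_cases hjI : j' ∈ ({b} : Finset K)
            · rw [if_pos hjI, if_pos hjI]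
            · rw [if_neg hjI, if_neg hjI]
              exact h5 j'
        · show some (mk (rd D t v.2 l v.1.1 (hwy {b} y v.1.2.1))) = gb E b {j} (hwm D t {b} y v)
          rw [gb_in hj hEv]
          congr 1
          funext l'
          show (if l' = l then some (rd D t v.2 l v.1.1 (hwy {b} y v.1.2.1)) else none) =
            if Disjoint {j} {b} ∧ univ.erase l' = {b} ∪ {j} ∧ ∃ i ∈ ({b} : Finset K), i ≠ l' then
              some (if ∃ i ∈ ({b} : Finset K), i ≠ l' then rd D t v.2 l' v.1.1 (hwy {b} y v.1.2.1) else v.1.2.2 l')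
              else none
          by_cases hl' : l' = l
          · subst hl'
            have hex : ∃ i ∈ ({b} : Finset K), i ≠ l' := ⟨b, Finset.mem_singleton_self b, hbl⟩
            have hdj : Disjoint ({j} : Finset K) {b} := by
              rw [Finset.disjoint_singleton]; exact hj
            rw [if_pos rfl, if_pos ⟨hdj, hlJ, hex⟩, if_pos hex]
          · rw [if_neg hl', if_neg]
            rintro ⟨_, h7, _⟩
            refine hl' ?_
            by_contra hne
            have : l ∈ univ.erase l' := Finset.mem_erase.2 ⟨fun hh => hne hh.symm, mem_univ l⟩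
            rw [h7, ← hlJ] at this
            exact (Finset.mem_erase.1 this).1 rfl
      · show gb E b {j} (hwm D t {b} y v) ∈ _
        rw [gb_out hEv]
        exact Finset.mem_insert_self _ _
  have hbc : univ.erase d = ({b} : Finset K) ∪ {c} := by
    rw [B.rot'.era2]; rfl
  have hbd : univ.erase c = ({b} : Finset K) ∪ {d} := by
    rw [B.rot.era2]; rfl
  have kc := key c d B.bc.symm hbc B.bd
  have kd := key d c B.bd.symm hbd B.bc
  have h2 : ∀ J ∈ S, N J * cost PE (fun I w => BB D t I w.1) (fun I w => LL U I w.1)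
      (fun J w => gb E b J (hwm D t {b} y w)) J ≤
        (if J = {c} then N {c} * Real.log (1 / al + 1) else 0) + if J = {d} then N {d} * Real.log (1 / al + 1) else 0 := by
    intro J hJ
    by_cases h3 : J = {c}
    · subst h3
      rw [if_pos rfl, if_neg (fun hh => B.cd (Finset.singleton_injective hh)), add_zero]
      exact mul_le_mul_of_nonneg_left kc (B.nn _ hJ)
    · by_cases h4 : J = {d}
      · subst h4
        rw [if_neg h3, if_pos rfl, zero_add]
        exact mul_le_mul_of_nonneg_left kd (B.nn _ hJ)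
      · rw [if_neg h3, if_neg h4, add_zero]
        have h5 : ∀ j, j ≠ b → J ≠ {j} := by
          intro j hj hJj
          rcases B.all j with h6 | h6 | h6
          · exact hj h6
          · exact h3 (h6 ▸ hJj)
          · exact h4 (h6 ▸ hJj)
        rw [cost_const fun v w => by
          show gb E b J (hwm D t {b} y v) = gb E b J (hwm D t {b} y w)
          rw [gb_non h5, gb_non h5], mul_zero]
  refine (Finset.sum_le_sum h2).trans (le_of_eq ?_)
  rw [Finset.sum_add_distrib, Finset.sum_ite_eq' S {c}, Finset.sum_ite_eq' S {d}, if_pos (B.s1 c), if_pos (B.s1 d)]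
  ring

/-! ### one class -/

/-- the event of the hardwired vertex with its letter -/
def E0w (U : Finset K → X → (K → β) → υ) (E : K → Pt K X β φ → Prop) (b : K) (w v : Pt K X β φ) : Prop :=
  E b v ∧ U {b} v.1 v.2.1 = U {b} w.1 w.2.1

theorem E0w_ev (B : Bk h N S U t b c d) (hE : ∀ j, Fac (Ah D t {j}) (E j)) (w : Pt K X β φ) :
    EvI D t {b} (E0w U E b w) := by
  intro v u hvu
  simp only [Prod.mk.injEq, BB_eq] at hvu
  obtain ⟨h1, ⟨h2, h3, h4⟩, -⟩ := hvu
  have e1 : E b v = E b u := by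
    refine hE b v u ?_
    unfold Ah
    simp only [Prod.mk.injEq, BB_eq]
    exact ⟨h1, h2, h3, h4⟩
  have e2 : U {b} v.1 v.2.1 = U {b} u.1 u.2.1 := by
    rw [h1]
    exact B.dep {b} u.1 v.2.1 u.2.1 h2 h4
  show (E b v ∧ _) = (E b u ∧ _)
  rw [e1, e2]

/-- **one class, the vertex `b` hardwired with its letter** -/
theorem hw_pt (B : Bk h N S U t b c d) (hE : ∀ j, Fac (Ah D t {j}) (E j)) {w : Pt K X β φ} (hw : (D.P h t).p w ≠ 0)
    (hb : E b w) (hc : E c w) (hd : E d w) :
    ((QB h U t b w).cond (E0w U E b w)).Pr (fun v => E c v ∧ E d v) *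
      ((((QB h U t b w).cond (E0w U E b w)).cond fun v => E c v ∧ E d v).klc (QB h U t b w) (fun v => v.2.2 b)
          (Zf D U t b) +
        (((QB h U t b w).cond (E0w U E b w)).cond fun v => E c v ∧ E d v).I (fun v => v.2.2 b)
          (fun v => ((v.2.2 c, v.2.2 d), Wf D U t v)) (Zf D U t b)) ≤
      (2 * N ∅ * (Real.log (1 / (QB h U t b w).Pr (E0w U E b w)) + 1) +
        2 * ((N {c} + N {d}) * Real.log (1 / al + 1))) / N (univ.erase b) := by
  classical
  set R0 := QB h U t b w with hR0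
  have hxn : (D.P h t).Pr (xc D U t {b} w) ≠ 0 := xc_ne hw
  have hR0w : R0.p w ≠ 0 := (FP.cond_p_ne hxn).2 ⟨xc_self U t {b} w, hw⟩
  have hE0 : R0.Pr (E0w U E b w) ≠ 0 := (FP.Pr_pos_of (S := E0w U E b w) hR0w ⟨hb, rfl⟩).ne'
  set R1 := R0.cond (E0w U E b w) with hR1
  have hR1w : R1.p w ≠ 0 := (FP.cond_p_ne hE0).2 ⟨⟨hb, rfl⟩, hR0w⟩
  have hA0 : R1.Pr (fun v => E c v ∧ E d v) ≠ 0 :=
    (FP.Pr_pos_of (S := fun v => E c v ∧ E d v) hR1w ⟨hc, hd⟩).ne'
  have hac : R1.Ac R0 := FP.cond_ac _ _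
  set J0 : Finset K := univ.erase b with hJ0
  have hcJ : c ∈ J0 := Finset.mem_erase.2 ⟨B.bc.symm, mem_univ c⟩
  have hdJ : d ∈ J0 := Finset.mem_erase.2 ⟨B.bd.symm, mem_univ d⟩
  have hsc : ({c} : Finset K) ⊂ J0 := by
    rw [Finset.ssubset_iff_of_subset (Finset.singleton_subset_iff.2 hcJ)]
    exact ⟨d, hdJ, fun hh => B.cd (Finset.mem_singleton.1 hh).symm⟩
  have hsd : ({d} : Finset K) ⊂ J0 := by
    rw [Finset.ssubset_iff_of_subset (Finset.singleton_subset_iff.2 hdJ)]
    exact ⟨c, hcJ, fun hh => B.cd (Finset.mem_singleton.1 hh)⟩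
  have k1 := ex_bound (h := h) B.dep B.sat B.nn B.era B.s0 (I := {b}) (J0 := J0) (B.s2 b) ⟨c, hcJ⟩ (by
    rw [Finset.disjoint_singleton_right]
    exact fun hh => (Finset.mem_erase.1 hh).1 rfl) (w0 := w) hw (E0w_ev B hE w) hE0 (gb_GI hE b) (gb_cost B)
  have hbc : univ.erase d = ({b} : Finset K) ∪ {c} := by
    rw [B.rot'.era2]; rfl
  have hbd : univ.erase c = ({b} : Finset K) ∪ {d} := by
    rw [B.rot.era2]; rfl
  -- labels from the additions
  have lab : ∀ j l : K, j ≠ b → univ.erase l = ({b} : Finset K) ∪ {j} → b ≠ l → ∀ v u : Pt K X β φ,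
      (fl (X := X) (β := β) (φ := φ) {b} {j} v = fl {b} {j} u ↔ v.2.2 l = u.2.2 l) := by
    intro j l hj hl hbl v u
    have hc1 : Disjoint ({j} : Finset K) {b} ∧ univ.erase l = ({b} : Finset K) ∪ {j} ∧
        ∃ i ∈ ({b} : Finset K), i ≠ l :=
      ⟨by rw [Finset.disjoint_singleton]; exact hj, hl, b, Finset.mem_singleton_self b, hbl⟩
    constructor
    · intro hh
      have h1 := congrFun hh l
      unfold fl at h1
      rw [if_pos hc1, if_pos hc1] at h1
      exact Option.some.inj h1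
    · intro hh
      funext l'
      unfold fl
      by_cases h2 : Disjoint ({j} : Finset K) {b} ∧ univ.erase l' = ({b} : Finset K) ∪ {j} ∧
          ∃ i ∈ ({b} : Finset K), i ≠ l'
      · rw [if_pos h2, if_pos h2]
        have h3 : l' = l := by
          by_contra hne
          have : l ∈ univ.erase l' := Finset.mem_erase.2 ⟨fun hh => hne hh.symm, mem_univ l⟩
          rw [h2.2.1, ← hl] at this
          exact (Finset.mem_erase.1 this).1 rfl
        rw [h3, hh]
      · rw [if_neg h2, if_neg h2]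
  have labc := lab c d B.bc.symm hbc B.bd
  have labd := lab d c B.bd.symm hbd B.bc
  -- supports
  have hsup : ∀ v, R1.p v ≠ 0 → xc D U t {b} w v ∧ E0w U E b w v := fun v hv =>
    ⟨QB_supp hw (hac v hv), (cond_supp hE0 hv).1⟩
  have hlow : ∀ J, J ⊂ J0 → J ≠ ∅ → J = {c} ∨ J = {d} := by
    intro J hJ hJ0'
    obtain ⟨j, hj⟩ := Finset.nonempty_iff_ne_empty.2 hJ0'
    have hJe : J0 = {c, d} := B.era2
    have hjJ : ∀ i ∈ J, i = c ∨ i = d := by
      intro i hi
      have := hJ.1 hi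
      rw [hJe, Finset.mem_insert, Finset.mem_singleton] at this
      exact this
    by_cases hcJ' : c ∈ J
    · left
      ext i
      rw [Finset.mem_singleton]
      constructor
      · intro hi
        rcases hjJ i hi with h1 | h1
        · exact h1
        · exfalso
          refine hJ.2 ?_
          rw [hJe]
          intro k hk
          rw [Finset.mem_insert, Finset.mem_singleton] at hk
          rcases hk with h2 | h2
          · rw [h2]; exact hcJ'
          · rw [h2, ← h1]; exact hi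
      · rintro rfl; exact hcJ'
    · right
      ext i
      rw [Finset.mem_singleton]
      constructor
      · intro hi
        rcases hjJ i hi with h1 | h1
        · exact absurd (h1 ▸ hi) hcJ'
        · exact h1
      · rintro rfl
        rcases hjJ j hj with h1 | h1
        · exact absurd (h1 ▸ hj) hcJ'
        · rw [← h1]; exact hj
  have key := klp_restrict (R1 := R1) (R0 := R0) hac (X := fun v => v.2.2 b) (G := lo (gb E b) J0)
    (Y := fun v => ((v.2.2 c, v.2.2 d), Wf D U t v)) (Z := Zf D U t b) (A := fun v => E c v ∧ E d v) hA0 ?_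
    ((Fac.snd _ _).trans (Wf_Zf B)) ?_
  · refine key.trans ?_
    rw [le_div_iff₀ (B.n2 b), mul_comm]
    have h1 : R1.klc R0 (fun v => v.2.2 b) (Zf D U t b) ≤
        R1.klc R0 (LL U J0) (fun w => (lo (LL U) J0 w, BB D t J0 w)) := by
      refine klc_mono hac fun v u hvu => ?_
      have h4 : LL U J0 v = LL U J0 u := congrArg Prod.fst hvu
      exact (LL_eq.1 h4).2 b rfl
    have h2 : R1.I (fun v => v.2.2 b) (lo (gb E b) J0) (Zf D U t b) ≤
        R1.I (LL U J0) (lo (gb E b) J0) (fun w => (lo (LL U) J0 w, BB D t J0 w)) := by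
      refine FP.I_mono _ _ fun v u hvu => ?_
      have h4 : LL U J0 v = LL U J0 u := congrArg Prod.fst hvu
      exact (LL_eq.1 h4).2 b rfl
    have h3 := mul_le_mul_of_nonneg_left (add_le_add h1 h2) (B.n2 b).le
    exact h3.trans k1
  · intro v u hvu
    have h1 := lo_eq.1 hvu {c} hsc
    have h2 := lo_eq.1 hvu {d} hsd
    exact propext (and_congr (gb_iff B.bc.symm h1) (gb_iff B.bd.symm h2))
  · intro v u hv hu hAv hAu
    obtain ⟨xv, ev⟩ := hsup v hv
    obtain ⟨xu, eu⟩ := hsup u hu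
    have hpub := xv.1.trans xu.1.symm
    have hnode : BB D t ∅ v = BB D t ∅ u := (xc_pub xv xu).1
    simp only [Prod.mk.injEq]
    constructor
    · rintro ⟨h1, h2⟩
      have c1 := lo_eq.1 h1 {c} hsc
      have d1 := lo_eq.1 h1 {d} hsd
      rw [gb_in B.bc.symm hAv.1, gb_in B.bc.symm hAu.1] at c1
      rw [gb_in B.bd.symm hAv.2, gb_in B.bd.symm hAu.2] at d1
      have c2 := (labc v u).1 (Option.some.inj c1)
      have d2 := (labd v u).1 (Option.some.inj d1)
      have z := (Zf_iff B hpub hnode).1 h2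
      refine ⟨⟨d2, c2⟩, ?_⟩
      unfold Wf
      rw [Prod.mk.injEq, Prod.mk.injEq]
      refine ⟨⟨hpub, hnode⟩, ?_⟩
      funext j
      rcases B.all j with hj | hj | hj
      · rw [hj]
        have h5 := xv.2.trans xu.2.symm
        rw [BB_eq] at h5
        unfold zf
        rw [Prod.mk.injEq]
        exact ⟨h5.1 b (Finset.mem_singleton_self b), ev.2.trans eu.2.symm⟩
      · rw [hj]; exact z.1
      · rw [hj]; exact z.2
    · rintro ⟨⟨h1, h2⟩, h3⟩
      refine ⟨?_, Wf_Zf B v u h3⟩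
      rw [lo_eq]
      intro J hJ
      by_cases hJe : J = ∅
      · subst hJe
        have hn : ∀ j, j ≠ b → (∅ : Finset K) ≠ {j} := fun j _ hh => (Finset.singleton_ne_empty j) hh.symm
        rw [gb_non hn, gb_non hn]
      · rcases hlow J hJ hJe with rfl | rfl
        · rw [gb_in B.bc.symm hAv.1, gb_in B.bc.symm hAu.1, (labc v u).2 h2]
        · rw [gb_in B.bd.symm hAv.2, gb_in B.bd.symm hAu.2, (labd v u).2 h1]

/-! ### the face inside the product event -/

/-- the product event in the public class of `w0` -/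
def Vp (D : HD K X β γ φ) (U : Finset K → X → (K → β) → υ) (t : ℕ) (w0 : Pt K X β φ) (E : K → Pt K X β φ → Prop)
    (b c d : K) (v : Pt K X β φ) : Prop := xc D U t ∅ w0 v ∧ E b v ∧ (E c v ∧ E d v)

theorem Vp_rot : Vp D U t w0 E c b d = Vp D U t w0 E b c d := by
  funext v
  exact propext ⟨fun ⟨h1, h2, h3, h4⟩ => ⟨h1, h3, h2, h4⟩, fun ⟨h1, h2, h3, h4⟩ => ⟨h1, h3, h2, h4⟩⟩

theorem Vp_swap : Vp D U t w0 E b d c = Vp D U t w0 E b c d := by
  funext v
  exact propext ⟨fun ⟨h1, h2, h3, h4⟩ => ⟨h1, h2, h4, h3⟩, fun ⟨h1, h2, h3, h4⟩ => ⟨h1, h2, h4, h3⟩⟩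

/-- the letters of the bit of `b`: at most `M` at every point -/
def LetM (D : HD K X β γ φ) (U : Finset K → X → (K → β) → υ) (t : ℕ) (w0 : Pt K X β φ) (E : K → Pt K X β φ → Prop)
    (M : ℝ) (b : K) : Prop :=
  ∀ b' : β, ∃ s : Finset υ, (s.card : ℝ) ≤ M ∧ ∀ v, xc D U t ∅ w0 v → E b v → v.2.1 b = b' → U {b} v.1 v.2.1 ∈ s

/-- the rate of a face with the hardwired vertex `b` -/
noncomputable def kaph (N : Finset K → ℝ) (al : ℝ) (b c d : K) (L : ℝ) : ℝ :=
  (2 * N ∅ * (L + 1) + 2 * ((N {c} + N {d}) * Real.log (1 / al + 1))) / N (univ.erase b)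

theorem xc_of {I : Finset K} {v w u : Pt K X β φ} (h1 : xc D U t I w v) (h2 : xc D U t ∅ u w) : xc D U t ∅ u v := by
  refine ⟨h1.1.trans h2.1, ?_⟩
  have a := h1.2
  have b' := h2.2
  rw [BB_eq] at a b' ⊢
  exact ⟨fun j hj => absurd hj (Finset.notMem_empty j), a.2.1.trans b'.2.1, fun j => (a.2.2 j).trans (b'.2.2 j)⟩

theorem log_inv_Pr_nonneg {Om : Type*} [Fintype Om] (P : FP Om) (A : Om → Prop) : 0 ≤ Real.log (1 / P.Pr A) := by
  rcases eq_or_lt_of_le (P.Pr_nonneg A) with h0 | h0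
  · rw [← h0, div_zero, Real.log_zero]
  · refine Real.log_nonneg ?_
    rw [le_div_iff₀ h0, one_mul]
    exact P.Pr_le_one A

/-- **THE FACE WITHOUT `b` INSIDE THE PRODUCT EVENT** -/
theorem face_hw (B : Bk h N S U t b c d) (hE : ∀ j, Fac (Ah D t {j}) (E j)) {M : ℝ} (hM : LetM D U t w0 E M b)
    (hV0 : (D.P h t).Pr (Vp D U t w0 E b c d) ≠ 0) :
    (D.P h t).Pr (Vp D U t w0 E b c d) *
      (((D.P h t).cond (Vp D U t w0 E b c d)).klc (D.P h t) (fun v => v.2.2 b) (Zf D U t b) +
        ((D.P h t).cond (Vp D U t w0 E b c d)).I (fun v => v.2.2 b) (fun v => ((v.2.2 c, v.2.2 d), Wf D U t v))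
          (Zf D U t b)) ≤
      (D.P h t).Pr (fun v => xc D U t ∅ w0 v ∧ E b v) * kaph N al b c d (Real.log (M * (D.P h t).Pr (xc D U t ∅ w0) /
        (D.P h t).Pr (fun v => xc D U t ∅ w0 v ∧ E b v))) := by
  classical
  set P := D.P h t with hP
  set C := xc D U t ∅ w0 with hC
  set V := Vp D U t w0 E b c d with hV
  set Q := P.cond V with hQ
  set Kk : Pt K X β φ → ((Finset K → Option (υ × (K → Option φ))) × ((K → Option β) × (γ × (K → γ)))) × υ :=
    fun v => ((le (LL U) ∅ v, BB D t {b} v), U {b} v.1 v.2.1) with hKk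
  have hsup : ∀ w, Q.p w ≠ 0 → V w ∧ P.p w ≠ 0 := fun w hw => (FP.cond_p_ne hV0).1 hw
  -- the classes
  have hxK : ∀ v w : Pt K X β φ, (le (LL U) ∅ v, BB D t {b} v) = (le (LL U) ∅ w, BB D t {b} w) ↔
      xc D U t {b} w v := fun v w => by rw [Prod.mk.injEq]; exact Iff.rfl
  have hxe : ∀ v w : Pt K X β φ, xc D U t {b} w v → xc D U t {b} v = xc D U t {b} w := by
    intro v w hvw
    funext u
    show (le (LL U) ∅ u = le (LL U) ∅ v ∧ BB D t {b} u = BB D t {b} v) =
      (le (LL U) ∅ u = le (LL U) ∅ w ∧ BB D t {b} u = BB D t {b} w)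
    rw [hvw.1, hvw.2]
  have hQB : ∀ v w : Pt K X β φ, Kk v = Kk w → QB h U t b v = QB h U t b w := by
    intro v w hvw
    have h1 := (hxK v w).1 (congrArg Prod.fst hvw)
    unfold QB
    rw [hxe v w h1]
  have hCK : ∀ v w : Pt K X β φ, xc D U t {b} w v → (C v ↔ C w) := by
    intro v w hvw
    constructor
    · intro hv
      have : xc D U t {b} v w := by
        refine ⟨hvw.1.symm, hvw.2.symm⟩
      exact xc_of this hv
    · intro hw
      exact xc_of hvw hw
  have hCfac : Fac Kk C := by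
    intro v w hvw
    exact propext (hCK v w ((hxK v w).1 (congrArg Prod.fst hvw)))
  -- fibres of `Kk` inside the event
  have hcell : ∀ w, V w → P.p w ≠ 0 → Q.cond (fun v => Kk v = Kk w) =
      ((QB h U t b w).cond (E0w U E b w)).cond (fun v => E c v ∧ E d v) := by
    intro w hVw hw
    have n1 : P.Pr (fun v => V v ∧ Kk v = Kk w) ≠ 0 := (FP.Pr_pos_of (S := fun v => V v ∧ Kk v = Kk w) hw ⟨hVw, rfl⟩).ne'
    have n2 : P.Pr (fun v => xc D U t {b} w v ∧ E0w U E b w v) ≠ 0 :=
      (FP.Pr_pos_of (S := fun v => xc D U t {b} w v ∧ E0w U E b w v) hw ⟨xc_self U t {b} w, hVw.2.1, rfl⟩).ne'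
    have n3 : P.Pr (fun v => (xc D U t {b} w v ∧ E0w U E b w v) ∧ (E c v ∧ E d v)) ≠ 0 :=
      (FP.Pr_pos_of (S := fun v => (xc D U t {b} w v ∧ E0w U E b w v) ∧ (E c v ∧ E d v)) hw
        ⟨⟨xc_self U t {b} w, hVw.2.1, rfl⟩, hVw.2.2⟩).ne'
    unfold QB
    rw [hQ, FP.cond_cond n1, FP.cond_cond n2, FP.cond_cond n3]
    congr 1
    funext v
    refine propext ⟨fun hh => ?_, fun hh => ?_⟩
    · obtain ⟨⟨h1, h2, h3⟩, h4⟩ := hh
      have h5 := Prod.mk.inj h4
      exact ⟨⟨(hxK v w).1 h5.1, h2, h5.2⟩, h3⟩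
    · obtain ⟨⟨h1, h2, h3⟩, h4⟩ := hh
      refine ⟨⟨(hCK v w h1).2 hVw.1, h2, h4⟩, ?_⟩
      show (_, _) = (_, _)
      rw [Prod.mk.injEq]
      exact ⟨(hxK v w).2 h1, h3⟩
  have hcell1 : ∀ w, V w → P.p w ≠ 0 → P.cond (fun v => Kk v = Kk w ∧ E b v) = (QB h U t b w).cond (E0w U E b w) := by
    intro w hVw hw
    have n2 : P.Pr (fun v => xc D U t {b} w v ∧ E0w U E b w v) ≠ 0 :=
      (FP.Pr_pos_of (S := fun v => xc D U t {b} w v ∧ E0w U E b w v) hw ⟨xc_self U t {b} w, hVw.2.1, rfl⟩).ne'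
    unfold QB
    rw [FP.cond_cond n2]
    congr 1
    funext v
    refine propext ⟨fun hh => ?_, fun hh => ?_⟩
    · have h5 := Prod.mk.inj hh.1
      exact ⟨(hxK v w).1 h5.1, hh.2, h5.2⟩
    · refine ⟨?_, hh.2.1⟩
      show (_, _) = (_, _)
      rw [Prod.mk.injEq]
      exact ⟨(hxK v w).2 hh.1, hh.2.2⟩
  -- the mean over the classes
  have hYZ : Fac (fun v => ((v.2.2 c, v.2.2 d), Wf D U t v)) (Zf D U t b) := (Fac.snd _ _).trans (Wf_Zf B)
  have hYK : Fac (fun v => ((v.2.2 c, v.2.2 d), Wf D U t v)) Kk := by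
    intro v w hvw
    have h1 : Wf D U t v = Wf D U t w := congrArg Prod.snd hvw
    unfold Wf at h1
    rw [Prod.mk.injEq, Prod.mk.injEq] at h1
    have h2 : zf U b v = zf U b w := congrFun h1.2 b
    unfold zf at h2
    obtain ⟨h3, h4⟩ := Prod.mk.inj h2
    show ((_, _), _) = ((_, _), _)
    rw [Prod.mk.injEq, Prod.mk.injEq]
    refine ⟨⟨h1.1.1, ?_⟩, h4⟩
    have h5 := h1.1.2
    rw [BB_eq] at h5 ⊢
    exact ⟨fun j hj => by rw [Finset.mem_singleton.1 hj]; exact h3, h5.2⟩
  rw [klp_dis (Q := Q) (P := P) (FP.cond_ac P V) (K := Kk) (R0 := QB h U t b) hYZ hYK hQB (fun w hw => ?_)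
    (fun w hw f => pv_hw B (hsup w hw).2 f)]
  swap
  · obtain ⟨hVw, hp⟩ := hsup w hw
    rw [hcell w hVw hp]
    intro v hv
    exact (FP.cond_ac _ _) v ((FP.cond_ac _ _) v hv)
  set T : Pt K X β φ → ℝ := fun w => (Q.cond fun v => Kk v = Kk w).klc (QB h U t b w) (fun v => v.2.2 b) (Zf D U t b) +
    (Q.cond fun v => Kk v = Kk w).I (fun v => v.2.2 b) (fun v => ((v.2.2 c, v.2.2 d), Wf D U t v)) (Zf D U t b) with hT
  set st : Pt K X β φ → ℝ := fun w => kaph N al b c d (Real.log (1 / (QB h U t b w).Pr (E0w U E b w))) with hst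
  have hl0 : 0 ≤ Real.log (1 / al + 1) := Real.log_nonneg (by
    have := h.pos
    have : 0 ≤ 1 / al := by positivity
    linarith)
  have hkm : ∀ L L' : ℝ, L ≤ L' → kaph N al b c d L ≤ kaph N al b c d L' := by
    intro L L' hL
    unfold kaph
    refine div_le_div_of_nonneg_right ?_ (B.n2 b).le
    have := mul_le_mul_of_nonneg_left hL (mul_nonneg zero_le_two (B.nn ∅ B.s0))
    nlinarith
  have hk0 : ∀ L : ℝ, 0 ≤ L → 0 ≤ kaph N al b c d L := by
    intro L hL
    unfold kaph
    refine div_nonneg ?_ (B.n2 b).le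
    have h1 := B.nn ∅ B.s0
    have h2 := (B.n1 c).le
    have h3 := (B.n1 d).le
    positivity
  have hks : P.Pr (fun w => C w ∧ E b w ∧ (E c w ∧ E d w)) * (P.cond fun w => C w ∧ E b w ∧ (E c w ∧ E d w)).E T ≤
      P.E (fun w => ind (C w ∧ E b w) * st w) := by
    refine klp_sum (K := Kk) hCfac hV0 ?_ (fun w => hk0 _ (log_inv_Pr_nonneg _ _)) ?_
    · intro v w hvw
      have h1 := hQB v w hvw
      have h2 : E0w U E b v = E0w U E b w := by
        funext u
        have h3 : U {b} v.1 v.2.1 = U {b} w.1 w.2.1 := (Prod.mk.inj hvw).2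
        show (E b u ∧ U {b} u.1 u.2.1 = U {b} v.1 v.2.1) = (E b u ∧ U {b} u.1 u.2.1 = U {b} w.1 w.2.1)
        rw [h3]
      show kaph N al b c d (Real.log (1 / (QB h U t b v).Pr (E0w U E b v))) =
        kaph N al b c d (Real.log (1 / (QB h U t b w).Pr (E0w U E b w)))
      rw [h1, h2]
    · intro w hw
      obtain ⟨hVw, hp⟩ := hsup w hw
      rw [hcell1 w hVw hp]
      show _ * ((Q.cond fun v => Kk v = Kk w).klc (QB h U t b w) (fun v => v.2.2 b) (Zf D U t b) +
        (Q.cond fun v => Kk v = Kk w).I (fun v => v.2.2 b) (fun v => ((v.2.2 c, v.2.2 d), Wf D U t v)) (Zf D U t b)) ≤ _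
      rw [hcell w hVw hp]
      exact hw_pt B hE hp hVw.2.1 hVw.2.2.1 hVw.2.2.2
  refine hks.trans ?_
  -- the mean surprisal
  have hCE0 : P.Pr (fun w => C w ∧ E b w) ≠ 0 := by
    intro h0
    refine hV0 (le_antisymm ?_ (P.Pr_nonneg _))
    rw [← h0]
    exact P.Pr_mono fun w _ hw => ⟨hw.1, hw.2.1⟩
  rw [← FP.Pr_mul_cond_E hCE0]
  refine mul_le_mul_of_nonneg_left ?_ (P.Pr_nonneg _)
  set Qe := P.cond fun w => C w ∧ E b w with hQe
  have hlin : Qe.E st = kaph N al b c d (Qe.E fun w => Real.log (1 / (QB h U t b w).Pr (E0w U E b w))) := by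
    have e1 : ∀ w, st w = 2 * N ∅ / N (univ.erase b) * Real.log (1 / (QB h U t b w).Pr (E0w U E b w)) +
        (2 * N ∅ + 2 * ((N {c} + N {d}) * Real.log (1 / al + 1))) / N (univ.erase b) := by
      intro w
      simp only [hst]
      unfold kaph
      ring
    rw [Qe.E_congr fun w _ => e1 w, FP.E_add, FP.E_smul, FP.E_const]
    unfold kaph
    ring
  rw [hlin]
  refine hkm _ _ ?_
  have hlo := E_log_surp (P := P) (K := fun v => (le (LL U) ∅ v, BB D t {b} v)) (C := C) (E := E b)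
    (L := fun v => U {b} v.1 v.2.1) (M := M) ?_ hCE0 ?_
  · refine le_trans (le_of_eq ?_) hlo
    refine Qe.E_congr fun w _ => ?_
    have e1 : (fun v : Pt K X β φ => (le (LL U) ∅ v, BB D t {b} v) = (le (LL U) ∅ w, BB D t {b} w)) = xc D U t {b} w := by
      funext v
      exact propext (hxK v w)
    rw [e1]
    rfl
  · intro v w hvw
    exact propext (hCK v w ((hxK v w).1 hvw))
  · intro w _ hCw hEw
    obtain ⟨s, hs1, hs2⟩ := hM (w.2.1 b)
    refine ⟨s, hs1, fun v _ hCv hEv hvw => hs2 v hCv hEv ?_⟩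
    have h1 := ((hxK v w).1 hvw).2
    rw [BB_eq] at h1
    exact h1.1 b (Finset.mem_singleton_self b)

end bpr

end Pool.Agent.GMH
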