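import Pool.Agent.GMH.Tree3

/-!
# GMH/Blk (helper99): UNMOVED TWO-BODY TUPLES AT THE EXACT VERTEX, ONE VERTEX TIME (decision 43561 of the chair, note 3986 (B))

Exact `b`, fixed `a`.  `N s` = node, `Yc s` = what is seen at the exact `c`, `Yd s` = at the exact `d`; `CI` : given the node
the two sights are independent.  `R` = relation (event), `ψ` signed, `σ` stopping time of the nodes.
`Tb s` : the density `P (R | N s)` is at least `q` for the first time.  `Cc s`, `Cd s` : covered `c`, covered `d` (any events of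
the two sights), `Bc s`, `Bd s` : bad rows, bad columns.  RELEASED: `R`, `Tb s`, `s ≤ σ`, not (`Cc s` and `Cd s`).

* `ci` : `CI` for two independent vertices `U`, `V` with their cells;
* `before` : `σ < T^b` : `E 1_R Xa Yb ≤ √q (E Xa + E Yb)/2`;
* `rel_signed` : `lam P (R, T^b ≤ σ) + 2 kap P (T^b ≤ σ) + L (P (bad row) + P (bad column))`;
* `block` : `√(h q) (P (Cc at T^b ≤ σ) + P (Cd at T^b ≤ σ))/2 + P (R, heavy at the time 0)`;
* `blk_unsigned` : everything which is not released.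
-/

set_option autoImplicit false
set_option linter.unusedSectionVars false

namespace Pool.Agent.GMH.Blk

open Finset Pool.Agent.PWZ Pool.Agent.M3 Pool.Agent.GMH.Gdy Pool.Agent.GMH.CR Pool.Agent.GMH.Three
open Pool.Agent.GMH.Tree (stp_le stp_eq one_sum one_cnt)
open Pool.Agent.GMH.Tree3 (ev_le)

noncomputable section

variable {Om : Type*} [Fintype Om] {P : FP Om}

/-! ## conditional independence -/

section ci

/-- given the node the two sights are independent -/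
def CI {κ κ' κ'' : ℕ → Type*} (P : FP Om) (N : ∀ t, Om → κ t) (Yc : ∀ t, Om → κ' t) (Yd : ∀ t, Om → κ'' t) : Prop :=
  ∀ s, ∀ f g : Om → ℝ, Fac (Yc s) f → Fac (Yd s) g → ∀ w, P.p w ≠ 0 →
    P.ce (N s) (fun x => f x * g x) w = P.ce (N s) f w * P.ce (N s) g w

theorem rep {α β : Type*} {X : Om → α} {Z : Om → β} {f : Om → ℝ} (hf : Fac (fun w => (X w, Z w)) f) :
    ∃ F : α → β → ℝ, ∀ x, f x = F (X x) (Z x) := by
  classical
  refine ⟨fun a b => if h : ∃ v, X v = a ∧ Z v = b then f h.choose else 0, fun w => ?_⟩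
  have h : ∃ v, X v = X w ∧ Z v = Z w := ⟨w, rfl, rfl⟩
  simp only [dif_pos h]
  refine (hf _ _ ?_).symm
  simp only [Prod.mk.injEq]
  exact h.choose_spec

variable {κ κ' : ℕ → Type*} {cU : ∀ t, Om → κ t} {cV : ∀ t, Om → κ' t} {α ω : Type*} {U : Om → α} {V : Om → ω}

/-- two independent vertices and their cells -/
theorem ci (hI : P.Indep U V) (hU : ∀ s, Fac U (cU s)) (hV : ∀ s, Fac V (cV s)) :
    CI P (pair cU cV) (fun s w => (U w, cV s w)) (fun s w => (V w, cU s w)) := by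
  intro s f g hf hg w hw
  obtain ⟨F, hF⟩ := rep hf
  obtain ⟨G, hG⟩ := rep hg
  set A : Om → ℝ := fun x => ind (cU s x = cU s w) * F (U x) (cV s w) with hA
  set B : Om → ℝ := fun x => ind (cV s x = cV s w) * G (V x) (cU s w) with hB
  set a : Om → ℝ := fun x => ind (cU s x = cU s w) with ha
  set b : Om → ℝ := fun x => ind (cV s x = cV s w) with hb
  have fA : Fac U A := fun x y e => by
    show ind (cU s x = cU s w) * F (U x) (cV s w) = ind (cU s y = cU s w) * F (U y) (cV s w)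
    rw [hU s x y e, e]
  have fB : Fac V B := fun x y e => by
    show ind (cV s x = cV s w) * G (V x) (cU s w) = ind (cV s y = cV s w) * G (V y) (cU s w)
    rw [hV s x y e, e]
  have fa : Fac U a := fun x y e => by
    show ind (cU s x = cU s w) = ind (cU s y = cU s w)
    rw [hU s x y e]
  have fb : Fac V b := fun x y e => by
    show ind (cV s x = cV s w) = ind (cV s y = cV s w)
    rw [hV s x y e]
  have hi : ∀ x, ind (pair cU cV s x = pair cU cV s w) = a x * b x := fun x => by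
    rw [show (pair cU cV s x = pair cU cV s w) = (cU s x = cU s w ∧ cV s x = cV s w) from propext pair_eq, ind_and]
  have e1 : P.E (fun x => ind (pair cU cV s x = pair cU cV s w) * (f x * g x)) = P.E A * P.E B := by
    rw [← hI A B fA fB]
    refine P.E_congr fun x _ => ?_
    rw [hi x]
    show ind (cU s x = cU s w) * ind (cV s x = cV s w) * (f x * g x) =
      ind (cU s x = cU s w) * F (U x) (cV s w) * (ind (cV s x = cV s w) * G (V x) (cU s w))
    by_cases h1 : cU s x = cU s w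
    · by_cases h2 : cV s x = cV s w
      · rw [hF x, hG x, h1, h2]
        ring
      · rw [ind_not h2]
        ring
    · rw [ind_not h1]
      ring
  have e2 : P.E (fun x => ind (pair cU cV s x = pair cU cV s w) * f x) = P.E A * P.E b := by
    rw [← hI A b fA fb]
    refine P.E_congr fun x _ => ?_
    rw [hi x]
    show ind (cU s x = cU s w) * ind (cV s x = cV s w) * f x =
      ind (cU s x = cU s w) * F (U x) (cV s w) * ind (cV s x = cV s w)
    by_cases h2 : cV s x = cV s w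
    · rw [hF x, h2]
      ring
    · rw [ind_not h2]
      ring
  have e3 : P.E (fun x => ind (pair cU cV s x = pair cU cV s w) * g x) = P.E a * P.E B := by
    rw [← hI a B fa fB]
    refine P.E_congr fun x _ => ?_
    rw [hi x]
    show ind (cU s x = cU s w) * ind (cV s x = cV s w) * g x =
      ind (cU s x = cU s w) * (ind (cV s x = cV s w) * G (V x) (cU s w))
    by_cases h1 : cU s x = cU s w
    · rw [hG x, h1]
      ring
    · rw [ind_not h1]
      ring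
  have e4 : P.m (pair cU cV s) w = P.E a * P.E b := by
    rw [← hI a b fa fb]
    exact P.E_congr fun x _ => hi x
  have p1 : 0 < P.E a := P.m_pos (cU s) hw
  have p2 : 0 < P.E b := P.m_pos (cV s) hw
  unfold FP.ce
  rw [e1, e2, e3, e4]
  field_simp

end ci

section main

variable {κ κ' κ'' : ℕ → Type*} {N : ∀ t, Om → κ t} {Yc : ∀ t, Om → κ' t} {Yd : ∀ t, Om → κ'' t}
  {R : Om → Prop} {q h lam kap L : ℝ} {Cc Cd : ℕ → Om → Prop} {σ : Om → ℕ} {T : ℕ}

variable (P N R q) in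
/-- the vertex time: the density is at least `q` for the first time -/
def Tb (s : ℕ) (w : Om) : Prop := fst (fun s w => q ≤ cp P N s R w) s w

variable (P N R q Cc Cd σ) in
/-- released at the time `s` -/
def rl (s : ℕ) (w : Om) : Prop := (Tb P N R q s w ∧ s ≤ σ w) ∧ ¬ (Cc s w ∧ Cd s w)

variable (P N R q Cc Cd σ) in
/-- released -/
def Rl (w : Om) : Prop := ∃ s, rl P N R q Cc Cd σ s w

theorem Tb_one (w : Om) (s s' : ℕ) (a : Tb P N R q s w) (b : Tb P N R q s' w) : s = s' := fst_one s s' a b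

theorem Tb_fac (fN : Filt N) (s : ℕ) {x w : Om} (e : N s x = N s w) : Tb P N R q s x ↔ Tb P N R q s w := by
  show (q ≤ cp P N s R x ∧ ∀ s' < s, ¬ q ≤ cp P N s' R x) ↔ (q ≤ cp P N s R w ∧ ∀ s' < s, ¬ q ≤ cp P N s' R w)
  rw [cp_fac s R x w e]
  exact and_congr_right fun _ => forall_congr' fun s' => forall_congr' fun hs' => by
    rw [cp_fac s' R x w (fN.le hs'.le x w e)]

/-- a relation against a rectangle -/
theorem rect (hci : CI P N Yc Yd) {s : ℕ} {f g : Om → ℝ} (hf : Fac (Yc s) f) (hg : Fac (Yd s) g)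
    (f0 : ∀ w, 0 ≤ f w) (f1 : ∀ w, f w ≤ 1) (g0 : ∀ w, 0 ≤ g w) (g1 : ∀ w, g w ≤ 1) {b : ℝ} {w : Om}
    (hw : P.p w ≠ 0) (hb : cp P N s R w ≤ b) :
    P.ce (N s) (fun x => ind (R x) * (f x * g x)) w ≤ Real.sqrt b * ((P.ce (N s) f w + P.ce (N s) g w) / 2) := by
  have x0 : 0 ≤ P.ce (N s) f w := P.ce_nonneg (fun x _ => f0 x) w
  have y0 : 0 ≤ P.ce (N s) g w := P.ce_nonneg (fun x _ => g0 x) w
  set z := P.ce (N s) (fun x => ind (R x) * (f x * g x)) w with hz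
  have z0 : 0 ≤ z := P.ce_nonneg (fun x _ => mul_nonneg (ind_nonneg _) (mul_nonneg (f0 x) (g0 x))) w
  have z1 : z ≤ b := by
    refine le_trans (P.ce_mono (fun x _ => ?_) w) hb
    exact mul_le_of_le_one_right (ind_nonneg _) (mul_le_one₀ (f1 x) (g0 x) (g1 x))
  have z2 : z ≤ P.ce (N s) f w * P.ce (N s) g w := by
    rw [← hci s f g hf hg w hw]
    exact P.ce_mono (fun x _ => mul_le_of_le_one_left (mul_nonneg (f0 x) (g0 x)) (ind_le_one _)) w
  have b0 : 0 ≤ b := z0.trans z1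
  have h1 : z ^ 2 ≤ b * ((P.ce (N s) f w + P.ce (N s) g w) / 2) ^ 2 := by
    have h2 : P.ce (N s) f w * P.ce (N s) g w ≤ ((P.ce (N s) f w + P.ce (N s) g w) / 2) ^ 2 := by
      nlinarith [sq_nonneg (P.ce (N s) f w - P.ce (N s) g w)]
    calc z ^ 2 = z * z := by ring
      _ ≤ b * (P.ce (N s) f w * P.ce (N s) g w) := mul_le_mul z1 z2 z0 b0
      _ ≤ b * ((P.ce (N s) f w + P.ce (N s) g w) / 2) ^ 2 := mul_le_mul_of_nonneg_left h2 b0
  have h3 : b * ((P.ce (N s) f w + P.ce (N s) g w) / 2) ^ 2 =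
      (Real.sqrt b * ((P.ce (N s) f w + P.ce (N s) g w) / 2)) ^ 2 := by
    rw [mul_pow, Real.sq_sqrt b0]
  rw [h3] at h1
  exact le_of_sq_le_sq₀ h1 (by positivity)
where
  le_of_sq_le_sq₀ {a b : ℝ} (h : a ^ 2 ≤ b ^ 2) (hb : 0 ≤ b) : a ≤ b := abs_le_of_sq_le_sq' h hb |>.2

/-- **before the vertex time** -/
theorem before (hci : CI P N Yc Yd) (fN : Filt N)
    (hσ : Stp N σ) (hT : ∀ w, σ w < T) {Xa Yb : ℕ → Om → ℝ} (hX : ∀ s, Fac (Yc s) (Xa s))
    (hY : ∀ s, Fac (Yd s) (Yb s)) (X0 : ∀ s w, 0 ≤ Xa s w) (X1 : ∀ s w, Xa s w ≤ 1) (Y0 : ∀ s w, 0 ≤ Yb s w)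
    (Y1 : ∀ s w, Yb s w ≤ 1) :
    P.E (fun w => ind (R w ∧ cp P N (σ w) R w < q) * (Xa (σ w) w * Yb (σ w) w)) ≤
      Real.sqrt q * ((P.E (fun w => Xa (σ w) w) + P.E (fun w => Yb (σ w) w)) / 2) := by
  rw [E_stop hT (fun s w => ind (R w ∧ cp P N s R w < q) * (Xa s w * Yb s w)), E_stop hT Xa, E_stop hT Yb,
    ← Finset.sum_add_distrib, Finset.sum_div, Finset.mul_sum]
  refine Finset.sum_le_sum fun s _ => ?_
  have hs : Fac (N s) (fun w => ind (σ w = s)) := Fac.ind fun x w e => stp_eq fN (fun _ => Fac.refl _) hσ e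
  have hl : Fac (N s) (fun w => ind (σ w = s) * ind (cp P N s R w < q)) := fun x w e => by
    show ind (σ x = s) * ind (cp P N s R x < q) = ind (σ w = s) * ind (cp P N s R w < q)
    rw [cp_fac s R x w e, propext (stp_eq fN (fun _ => Fac.refl _) hσ e)]
  have e1 : P.E (fun w => ind (σ w = s) * (ind (R w ∧ cp P N s R w < q) * (Xa s w * Yb s w))) =
      P.E (fun w => (ind (σ w = s) * ind (cp P N s R w < q)) * (ind (R w) * (Xa s w * Yb s w))) :=
    P.E_congr fun w _ => by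
      rw [ind_and]
      ring
  rw [e1, ← P.E_mul_ce hl, ← P.E_mul_ce hs (Xa s), ← P.E_mul_ce hs (Yb s), ← FP.E_add, ← P.E_div_const, ← FP.E_smul]
  refine P.E_mono fun w hw => ?_
  have x0 : 0 ≤ P.ce (N s) (Xa s) w := P.ce_nonneg (fun x _ => X0 s x) w
  have y0 : 0 ≤ P.ce (N s) (Yb s) w := P.ce_nonneg (fun x _ => Y0 s x) w
  have hr : 0 ≤ Real.sqrt q * ((ind (σ w = s) * P.ce (N s) (Xa s) w + ind (σ w = s) * P.ce (N s) (Yb s) w) / 2) := by
    have := ind_nonneg (σ w = s)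
    positivity
  by_cases h1 : cp P N s R w < q
  · have h2 := rect hci (hX s) (hY s) (X0 s) (X1 s) (Y0 s) (Y1 s) hw h1.le
    rw [ind_of h1, mul_one]
    have h3 := mul_le_mul_of_nonneg_left h2 (ind_nonneg (σ w = s))
    linarith
  · rw [ind_not h1, mul_zero, zero_mul]
    exact hr

/-- **THE SIGNED PART** -/
theorem rel_signed (hc : ∀ s, Fac (Yc s) (N s)) (hd : ∀ s, Fac (Yd s) (N s)) (fN : Filt N)
    (hσ : Stp N σ) (hT : ∀ w, σ w < T) (l0 : 0 ≤ lam) (k0 : 0 ≤ kap) (L0 : 0 ≤ L)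
    (hCd : ∀ s x w, Yd s x = Yd s w → (Cd s x ↔ Cd s w))
    {ψ : Om → ℝ} {Bc Bd : ℕ → Om → Prop}
    (hrow : ∀ s w, P.p w ≠ 0 → Tb P N R q s w → s ≤ σ w →
      P.ce (Yc s) (fun x => ind (R x ∧ ¬ Cd s x) * ψ x) w ≤
        lam * P.ce (Yc s) (fun x => ind (R x ∧ ¬ Cd s x)) w + kap + L * ind (Bc s w))
    (hcol : ∀ s w, P.p w ≠ 0 → Tb P N R q s w → s ≤ σ w → Cd s w →
      P.ce (Yd s) (fun x => ind (R x ∧ ¬ Cc s x) * ψ x) w ≤
        lam * P.ce (Yd s) (fun x => ind (R x ∧ ¬ Cc s x)) w + kap + L * ind (Bd s w)) :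
    P.E (fun w => ind (R w ∧ Rl P N R q Cc Cd σ w) * ψ w) ≤
      lam * P.Pr (fun w => R w ∧ ∃ s ≤ σ w, Tb P N R q s w) + 2 * kap * P.Pr (fun w => ∃ s ≤ σ w, Tb P N R q s w) +
        L * (P.Pr (fun w => ∃ s ≤ σ w, Tb P N R q s w ∧ Bc s w) + P.Pr (fun w => ∃ s ≤ σ w, Tb P N R q s w ∧ Bd s w)) := by
  classical
  -- one time
  have key : ∀ s ∈ range T, P.E (fun w => ind (Tb P N R q s w ∧ s ≤ σ w) * (ind (R w ∧ ¬ (Cc s w ∧ Cd s w)) * ψ w)) ≤
      P.E (fun w => ind (Tb P N R q s w ∧ s ≤ σ w) *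
        (lam * ind (R w) + 2 * kap + L * (ind (Bc s w) + ind (Bd s w)))) := by
    intro s _
    have hF : Fac (N s) (fun w => ind (Tb P N R q s w ∧ s ≤ σ w)) := Fac.ind fun x w e => by
      rw [Tb_fac fN s e, stp_le fN (fun _ => Fac.refl _) hσ e]
    have e1 : P.E (fun w => ind (Tb P N R q s w ∧ s ≤ σ w) * (ind (R w ∧ ¬ (Cc s w ∧ Cd s w)) * ψ w)) =
        P.E (fun w => ind (Tb P N R q s w ∧ s ≤ σ w) * (ind (R w ∧ ¬ Cd s w) * ψ w)) +
        P.E (fun w => (ind (Tb P N R q s w ∧ s ≤ σ w) * ind (Cd s w)) * (ind (R w ∧ ¬ Cc s w) * ψ w)) := by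
      rw [← FP.E_add]
      refine P.E_congr fun w _ => ?_
      by_cases a1 : Cd s w
      · by_cases a2 : Cc s w
        · rw [ind_not (fun h => h.2 ⟨a2, a1⟩ : ¬ (R w ∧ ¬ (Cc s w ∧ Cd s w))), ind_not (fun h => h.2 a1 : ¬ (R w ∧ ¬ Cd s w)),
            ind_not (fun h => h.2 a2 : ¬ (R w ∧ ¬ Cc s w))]
          ring
        · have b1 : (R w ∧ ¬ (Cc s w ∧ Cd s w)) = (R w ∧ ¬ Cc s w) :=
            propext ⟨fun h => ⟨h.1, a2⟩, fun h => ⟨h.1, fun h' => a2 h'.1⟩⟩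
          rw [b1, ind_not (fun h => h.2 a1 : ¬ (R w ∧ ¬ Cd s w)), ind_of a1]
          ring
      · have b1 : (R w ∧ ¬ (Cc s w ∧ Cd s w)) = (R w ∧ ¬ Cd s w) :=
          propext ⟨fun h => ⟨h.1, a1⟩, fun h => ⟨h.1, fun h' => a1 h'.2⟩⟩
        rw [b1, ind_not a1]
        ring
    have fc : Fac (Yc s) (fun w => ind (Tb P N R q s w ∧ s ≤ σ w)) := (hc s).trans hF
    have fd : Fac (Yd s) (fun w => ind (Tb P N R q s w ∧ s ≤ σ w) * ind (Cd s w)) :=
      ((hd s).trans hF).mul (Fac.ind fun x w e => hCd s x w e)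
    have e2 : P.E (fun w => ind (Tb P N R q s w ∧ s ≤ σ w) * (ind (R w ∧ ¬ Cd s w) * ψ w)) ≤
        P.E (fun w => ind (Tb P N R q s w ∧ s ≤ σ w) * (lam * ind (R w ∧ ¬ Cd s w) + kap + L * ind (Bc s w))) := by
      rw [← P.E_mul_ce fc]
      have e3 : P.E (fun w => ind (Tb P N R q s w ∧ s ≤ σ w) * (lam * ind (R w ∧ ¬ Cd s w) + kap + L * ind (Bc s w))) =
          P.E (fun w => ind (Tb P N R q s w ∧ s ≤ σ w) *
            (lam * P.ce (Yc s) (fun x => ind (R x ∧ ¬ Cd s x)) w + kap + L * ind (Bc s w))) := by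
        have e4 : P.E (fun w => ind (Tb P N R q s w ∧ s ≤ σ w) * ind (R w ∧ ¬ Cd s w)) =
            P.E (fun w => ind (Tb P N R q s w ∧ s ≤ σ w) * P.ce (Yc s) (fun x => ind (R x ∧ ¬ Cd s x)) w) :=
          (P.E_mul_ce fc _).symm
        have e5 : ∀ g : Om → ℝ, P.E (fun w => ind (Tb P N R q s w ∧ s ≤ σ w) * (lam * g w + kap + L * ind (Bc s w))) =
            lam * P.E (fun w => ind (Tb P N R q s w ∧ s ≤ σ w) * g w) +
            P.E (fun w => ind (Tb P N R q s w ∧ s ≤ σ w) * (kap + L * ind (Bc s w))) := fun g => by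
          rw [← FP.E_smul, ← FP.E_add]
          exact P.E_congr fun w _ => by ring
        rw [e5, e5, e4]
      rw [e3]
      refine P.E_mono fun w hw => ?_
      by_cases a1 : Tb P N R q s w ∧ s ≤ σ w
      · exact mul_le_mul_of_nonneg_left (hrow s w hw a1.1 a1.2) (ind_nonneg _)
      · rw [ind_not a1, zero_mul, zero_mul]
    have e6 : P.E (fun w => (ind (Tb P N R q s w ∧ s ≤ σ w) * ind (Cd s w)) * (ind (R w ∧ ¬ Cc s w) * ψ w)) ≤
        P.E (fun w => (ind (Tb P N R q s w ∧ s ≤ σ w) * ind (Cd s w)) *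
          (lam * ind (R w ∧ ¬ Cc s w) + kap + L * ind (Bd s w))) := by
      rw [← P.E_mul_ce fd]
      have e4 : P.E (fun w => (ind (Tb P N R q s w ∧ s ≤ σ w) * ind (Cd s w)) * ind (R w ∧ ¬ Cc s w)) =
          P.E (fun w => (ind (Tb P N R q s w ∧ s ≤ σ w) * ind (Cd s w)) *
            P.ce (Yd s) (fun x => ind (R x ∧ ¬ Cc s x)) w) := (P.E_mul_ce fd _).symm
      have e5 : ∀ g : Om → ℝ, P.E (fun w => (ind (Tb P N R q s w ∧ s ≤ σ w) * ind (Cd s w)) *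
          (lam * g w + kap + L * ind (Bd s w))) =
          lam * P.E (fun w => (ind (Tb P N R q s w ∧ s ≤ σ w) * ind (Cd s w)) * g w) +
          P.E (fun w => (ind (Tb P N R q s w ∧ s ≤ σ w) * ind (Cd s w)) * (kap + L * ind (Bd s w))) := fun g => by
        rw [← FP.E_smul, ← FP.E_add]
        exact P.E_congr fun w _ => by ring
      rw [e5, e4, ← e5]
      refine P.E_mono fun w hw => ?_
      by_cases a1 : Tb P N R q s w ∧ s ≤ σ w
      · by_cases a2 : Cd s w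
        · exact mul_le_mul_of_nonneg_left (hcol s w hw a1.1 a1.2 a2) (mul_nonneg (ind_nonneg _) (ind_nonneg _))
        · rw [ind_not a2, mul_zero, zero_mul, zero_mul]
      · rw [ind_not a1, zero_mul, zero_mul, zero_mul]
    rw [e1]
    refine (add_le_add e2 e6).trans ?_
    rw [← FP.E_add]
    refine P.E_mono fun w hw => ?_
    have a0 := ind_nonneg (Tb P N R q s w ∧ s ≤ σ w)
    have h1 : ind (R w ∧ ¬ Cd s w) + ind (Cd s w) * ind (R w ∧ ¬ Cc s w) ≤ ind (R w) := by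
      by_cases a1 : Cd s w
      · rw [ind_not (fun h => h.2 a1 : ¬ (R w ∧ ¬ Cd s w)), ind_of a1, zero_add, one_mul]
        exact ind_mono fun h => h.1
      · rw [ind_not a1, zero_mul, add_zero]
        exact ind_mono fun h => h.1
    have h2 := ind_le_one (Cd s w)
    have h2' := ind_nonneg (Cd s w)
    have h3 := ind_nonneg (Bd s w)
    have h4 : ind (Cd s w) * (lam * ind (R w ∧ ¬ Cc s w) + kap + L * ind (Bd s w)) ≤
        lam * (ind (Cd s w) * ind (R w ∧ ¬ Cc s w)) + kap + L * ind (Bd s w) := by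
      have h5 : ind (Cd s w) * kap ≤ kap := mul_le_of_le_one_left k0 h2
      have h6 : ind (Cd s w) * (L * ind (Bd s w)) ≤ L * ind (Bd s w) := mul_le_of_le_one_left (mul_nonneg L0 h3) h2
      nlinarith
    have h7 : lam * ind (R w ∧ ¬ Cd s w) + kap + L * ind (Bc s w) +
        ind (Cd s w) * (lam * ind (R w ∧ ¬ Cc s w) + kap + L * ind (Bd s w)) ≤
        lam * ind (R w) + 2 * kap + L * (ind (Bc s w) + ind (Bd s w)) := by
      have := mul_le_mul_of_nonneg_left h1 l0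
      nlinarith
    have := mul_le_mul_of_nonneg_left h7 a0
    linarith
  -- sum
  have e1 : P.E (fun w => ind (R w ∧ Rl P N R q Cc Cd σ w) * ψ w) =
      ∑ s ∈ range T, P.E (fun w => ind (Tb P N R q s w ∧ s ≤ σ w) * (ind (R w ∧ ¬ (Cc s w ∧ Cd s w)) * ψ w)) := by
    rw [← FP.E_sum]
    refine P.E_congr fun w _ => ?_
    have e2 := sum_ind' (A := fun s => (Tb P N R q s w ∧ s ≤ σ w) ∧ (R w ∧ ¬ (Cc s w ∧ Cd s w))) (T := T)
      (fun s s' a b => Tb_one w s s' a.1.1 b.1.1) (fun s a => lt_of_le_of_lt a.1.2 (hT w))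
    have e3 : (∃ s, (Tb P N R q s w ∧ s ≤ σ w) ∧ (R w ∧ ¬ (Cc s w ∧ Cd s w))) = (R w ∧ Rl P N R q Cc Cd σ w) :=
      propext ⟨fun ⟨s, a⟩ => ⟨a.2.1, s, a.1, a.2.2⟩, fun ⟨a, s, b⟩ => ⟨s, b.1, a, b.2⟩⟩
    rw [← e3, ← e2, Finset.sum_mul]
    exact Finset.sum_congr rfl fun s _ => by rw [ind_and]; ring
  rw [e1]
  refine (Finset.sum_le_sum key).trans (le_of_eq ?_)
  have cnt : ∀ Q : ℕ → Om → Prop, ∑ s ∈ range T, P.E (fun w => ind (Tb P N R q s w ∧ s ≤ σ w) * ind (Q s w)) =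
      P.Pr (fun w => ∃ s ≤ σ w, Tb P N R q s w ∧ Q s w) := fun Q => by
    rw [← FP.E_sum]
    unfold FP.Pr
    refine P.E_congr fun w _ => ?_
    have e2 := sum_ind' (A := fun s => (Tb P N R q s w ∧ s ≤ σ w) ∧ Q s w) (T := T)
      (fun s s' a b => Tb_one w s s' a.1.1 b.1.1) (fun s a => lt_of_le_of_lt a.1.2 (hT w))
    have e3 : (∃ s, (Tb P N R q s w ∧ s ≤ σ w) ∧ Q s w) = (∃ s ≤ σ w, Tb P N R q s w ∧ Q s w) :=
      propext ⟨fun ⟨s, a⟩ => ⟨s, a.1.2, a.1.1, a.2⟩, fun ⟨s, a, b, c⟩ => ⟨s, ⟨b, a⟩, c⟩⟩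
    show _ = ind (∃ s ≤ σ w, Tb P N R q s w ∧ Q s w)
    rw [← e3, ← e2]
    exact Finset.sum_congr rfl fun s _ => (ind_and _ _).symm
  have c0 : P.Pr (fun w => R w ∧ ∃ s ≤ σ w, Tb P N R q s w) = P.Pr (fun w => ∃ s ≤ σ w, Tb P N R q s w ∧ R w) := by
    unfold FP.Pr
    refine P.E_congr fun w _ => ?_
    congr 1
    exact propext ⟨fun ⟨a, s, b, c⟩ => ⟨s, b, c, a⟩, fun ⟨s, b, c, a⟩ => ⟨a, s, b, c⟩⟩
  have c1 : P.Pr (fun w => ∃ s ≤ σ w, Tb P N R q s w) = ∑ s ∈ range T, P.E (fun w => ind (Tb P N R q s w ∧ s ≤ σ w)) :=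
    (one_cnt hT (f := Tb P N R q) (fun w s s' a b => Tb_one w s s' a b)).symm
  rw [c0, ← cnt, ← cnt, ← cnt, c1, ← Finset.sum_add_distrib, Finset.mul_sum, Finset.mul_sum, Finset.mul_sum,
    ← Finset.sum_add_distrib, ← Finset.sum_add_distrib]
  refine Finset.sum_congr rfl fun s _ => ?_
  rw [← FP.E_add, ← FP.E_smul, ← FP.E_smul, ← FP.E_smul, ← FP.E_add, ← FP.E_add]
  exact P.E_congr fun w _ => by ring

/-- **THE BLOCK** -/
theorem block (hci : CI P N Yc Yd) (fN : Filt N) (hσ : Stp N σ) (hT : ∀ w, σ w < T) (h0 : 0 ≤ h)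
    (hm : ∀ s w, P.p w ≠ 0 → P.m (N s) w ≤ h * P.m (N (s + 1)) w)
    (hCc : ∀ s x w, Yc s x = Yc s w → (Cc s x ↔ Cc s w)) (hCd : ∀ s x w, Yd s x = Yd s w → (Cd s x ↔ Cd s w)) :
    P.Pr (fun w => R w ∧ ∃ s ≤ σ w, Tb P N R q s w ∧ Cc s w ∧ Cd s w) ≤
      Real.sqrt (h * q) * ((P.Pr (fun w => ∃ s ≤ σ w, Tb P N R q s w ∧ Cc s w) +
        P.Pr (fun w => ∃ s ≤ σ w, Tb P N R q s w ∧ Cd s w)) / 2) + P.Pr (fun w => R w ∧ q ≤ cp P N 0 R w) := by
  classical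
  have cnt : ∀ Q : ℕ → Om → Prop, P.Pr (fun w => ∃ s ≤ σ w, Tb P N R q s w ∧ Q s w) =
      ∑ s ∈ range T, P.E (fun w => ind (Tb P N R q s w ∧ s ≤ σ w) * ind (Q s w)) := fun Q => by
    rw [← FP.E_sum]
    unfold FP.Pr
    refine P.E_congr fun w _ => ?_
    have e2 := sum_ind' (A := fun s => (Tb P N R q s w ∧ s ≤ σ w) ∧ Q s w) (T := T)
      (fun s s' a b => Tb_one w s s' a.1.1 b.1.1) (fun s a => lt_of_le_of_lt a.1.2 (hT w))
    have e3 : (∃ s, (Tb P N R q s w ∧ s ≤ σ w) ∧ Q s w) = (∃ s ≤ σ w, Tb P N R q s w ∧ Q s w) :=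
      propext ⟨fun ⟨s, a⟩ => ⟨s, a.1.2, a.1.1, a.2⟩, fun ⟨s, a, b, c⟩ => ⟨s, ⟨b, a⟩, c⟩⟩
    show ind (∃ s ≤ σ w, Tb P N R q s w ∧ Q s w) = _
    rw [← e3, ← e2]
    exact Finset.sum_congr rfl fun s _ => ind_and _ _
  have c0 : P.Pr (fun w => R w ∧ ∃ s ≤ σ w, Tb P N R q s w ∧ Cc s w ∧ Cd s w) =
      P.Pr (fun w => ∃ s ≤ σ w, Tb P N R q s w ∧ (R w ∧ Cc s w ∧ Cd s w)) := by
    unfold FP.Pr
    refine P.E_congr fun w _ => ?_
    congr 1
    exact propext ⟨fun ⟨a, s, b, c, d⟩ => ⟨s, b, c, a, d⟩, fun ⟨s, b, c, a, d⟩ => ⟨a, s, b, c, d⟩⟩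
  rw [c0, cnt, cnt, cnt, ← Finset.sum_add_distrib, Finset.sum_div, Finset.mul_sum]
  have key : ∀ s ∈ range T, P.E (fun w => ind (Tb P N R q s w ∧ s ≤ σ w) * ind (R w ∧ Cc s w ∧ Cd s w)) ≤
      Real.sqrt (h * q) * ((P.E (fun w => ind (Tb P N R q s w ∧ s ≤ σ w) * ind (Cc s w)) +
        P.E (fun w => ind (Tb P N R q s w ∧ s ≤ σ w) * ind (Cd s w))) / 2) +
      (if s = 0 then P.Pr (fun w => R w ∧ q ≤ cp P N 0 R w) else 0) := by
    intro s _
    have pos : 0 ≤ Real.sqrt (h * q) * ((P.E (fun w => ind (Tb P N R q s w ∧ s ≤ σ w) * ind (Cc s w)) +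
        P.E (fun w => ind (Tb P N R q s w ∧ s ≤ σ w) * ind (Cd s w))) / 2) := by
      have a1 : 0 ≤ P.E (fun w => ind (Tb P N R q s w ∧ s ≤ σ w) * ind (Cc s w)) :=
        P.E_nonneg fun _ _ => mul_nonneg (ind_nonneg _) (ind_nonneg _)
      have a2 : 0 ≤ P.E (fun w => ind (Tb P N R q s w ∧ s ≤ σ w) * ind (Cd s w)) :=
        P.E_nonneg fun _ _ => mul_nonneg (ind_nonneg _) (ind_nonneg _)
      positivity
    rcases Nat.eq_zero_or_pos s with rfl | hs0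
    · rw [if_pos rfl]
      have : P.E (fun w => ind (Tb P N R q 0 w ∧ 0 ≤ σ w) * ind (R w ∧ Cc 0 w ∧ Cd 0 w)) ≤
          P.Pr (fun w => R w ∧ q ≤ cp P N 0 R w) := P.E_mono fun w _ => by
        rw [← ind_and]
        exact ind_mono fun a => ⟨a.2.1, a.1.1.1⟩
      linarith
    · obtain ⟨s', rfl⟩ : ∃ s', s = s' + 1 := ⟨s - 1, by omega⟩
      rw [if_neg (by omega), add_zero]
      have hF : Fac (N (s' + 1)) (fun w => ind (Tb P N R q (s' + 1) w ∧ s' + 1 ≤ σ w)) := Fac.ind fun x w e => by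
        rw [Tb_fac fN (s' + 1) e, stp_le fN (fun _ => Fac.refl _) hσ e]
      rw [← P.E_mul_ce hF (fun w => ind (R w ∧ Cc (s' + 1) w ∧ Cd (s' + 1) w)),
        ← P.E_mul_ce hF (fun w => ind (Cc (s' + 1) w)), ← P.E_mul_ce hF (fun w => ind (Cd (s' + 1) w)), ← FP.E_add,
        ← P.E_div_const, ← FP.E_smul]
      refine P.E_mono fun w hw => ?_
      by_cases a1 : Tb P N R q (s' + 1) w ∧ s' + 1 ≤ σ w
      · rw [ind_of a1, one_mul, one_mul, one_mul]
        have h4 := cp_ratio (P := P) (Y := N) (h := h) (s := s') (t := s' + 1) (fN s') hw (hm s' w hw) R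
        have h5 : cp P N (s' + 1) R w ≤ h * q :=
          h4.trans (mul_le_mul_of_nonneg_left (not_le.1 (a1.1.2 s' (Nat.lt_succ_self s'))).le h0)
        have h6 := rect hci (s := s' + 1) (f := fun x => ind (Cc (s' + 1) x)) (g := fun x => ind (Cd (s' + 1) x))
          (Fac.ind fun x w e => hCc _ x w e) (Fac.ind fun x w e => hCd _ x w e) (fun _ => ind_nonneg _)
          (fun _ => ind_le_one _) (fun _ => ind_nonneg _) (fun _ => ind_le_one _) hw h5
        refine le_trans (le_of_eq ?_) h6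
        congr 1
        funext x
        rw [ind_and, ind_and]
      · rw [ind_not a1, zero_mul, zero_mul, zero_mul]
        simp
  refine (Finset.sum_le_sum key).trans ?_
  rw [Finset.sum_add_distrib, Finset.sum_ite_eq' (range T) 0]
  have := P.Pr_nonneg (fun w => R w ∧ q ≤ cp P N 0 R w)
  split_ifs <;> linarith

/-- **EVERYTHING WHICH IS NOT RELEASED** -/
theorem blk_unsigned (hci : CI P N Yc Yd) (fN : Filt N) (hσ : Stp N σ) (hT : ∀ w, σ w < T) (h0 : 0 ≤ h)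
    (hm : ∀ s w, P.p w ≠ 0 → P.m (N s) w ≤ h * P.m (N (s + 1)) w)
    (hCc : ∀ s x w, Yc s x = Yc s w → (Cc s x ↔ Cc s w)) (hCd : ∀ s x w, Yd s x = Yd s w → (Cd s x ↔ Cd s w))
    {Xa Yb : ℕ → Om → ℝ} (hX : ∀ s, Fac (Yc s) (Xa s)) (hY : ∀ s, Fac (Yd s) (Yb s)) (X0 : ∀ s w, 0 ≤ Xa s w)
    (X1 : ∀ s w, Xa s w ≤ 1) (Y0 : ∀ s w, 0 ≤ Yb s w) (Y1 : ∀ s w, Yb s w ≤ 1) {W : Om → ℝ} (W1 : ∀ w, W w ≤ 1)
    (hW : ∀ w, W w ≤ Xa (σ w) w * Yb (σ w) w) :
    P.E (fun w => ind (R w ∧ ¬ Rl P N R q Cc Cd σ w) * W w) ≤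
      Real.sqrt q * ((P.E (fun w => Xa (σ w) w) + P.E (fun w => Yb (σ w) w)) / 2) +
      (Real.sqrt (h * q) * ((P.Pr (fun w => ∃ s ≤ σ w, Tb P N R q s w ∧ Cc s w) +
        P.Pr (fun w => ∃ s ≤ σ w, Tb P N R q s w ∧ Cd s w)) / 2) + P.Pr (fun w => R w ∧ q ≤ cp P N 0 R w)) := by
  classical
  have pw : ∀ w, ind (R w ∧ ¬ Rl P N R q Cc Cd σ w) * W w ≤
      ind (R w ∧ cp P N (σ w) R w < q) * (Xa (σ w) w * Yb (σ w) w) +
        ind (R w ∧ ∃ s ≤ σ w, Tb P N R q s w ∧ Cc s w ∧ Cd s w) := by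
    intro w
    have p1 : 0 ≤ ind (R w ∧ cp P N (σ w) R w < q) * (Xa (σ w) w * Yb (σ w) w) :=
      mul_nonneg (ind_nonneg _) (mul_nonneg (X0 _ _) (Y0 _ _))
    have p2 := ind_nonneg (R w ∧ ∃ s ≤ σ w, Tb P N R q s w ∧ Cc s w ∧ Cd s w)
    by_cases h1 : R w ∧ ¬ Rl P N R q Cc Cd σ w
    · rw [ind_of h1, one_mul]
      by_cases h2 : ∃ s ≤ σ w, q ≤ cp P N s R w
      · obtain ⟨s1, hs1, h3⟩ := h2
        obtain ⟨s, hs, hf⟩ := fst_ex (A := fun s w => q ≤ cp P N s R w) h3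
        have h4 : Cc s w ∧ Cd s w := by
          by_contra h5
          exact h1.2 ⟨s, ⟨hf, hs.trans hs1⟩, h5⟩
        rw [ind_of (show R w ∧ ∃ s ≤ σ w, Tb P N R q s w ∧ Cc s w ∧ Cd s w from ⟨h1.1, s, hs.trans hs1, hf, h4⟩)]
        have := W1 w
        linarith
      · have h3 : cp P N (σ w) R w < q := not_le.1 fun h4 => h2 ⟨σ w, le_rfl, h4⟩
        rw [ind_of ⟨h1.1, h3⟩, one_mul]
        have := hW w
        linarith
    · rw [ind_not h1, zero_mul]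
      linarith
  refine (P.E_mono fun w _ => pw w).trans ?_
  rw [FP.E_add]
  exact add_le_add (before hci fN hσ hT hX hY X0 X1 Y0 Y1) (block hci fN hσ hT h0 hm hCc hCd)

end main

end

end Pool.Agent.GMH.Blk
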