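import Pool.Agent.GMH.Grs

/-!
# GMH/BlkG (helper99): THE VERTEX TIME WITH GREEDY COVERS BY LISTED ROWS AND COLUMNS (decision 43561)

`U`, `V` independent vertices (exact `c`, exact `d` at the exact `b`), `R0` relation, `ψ0 ≤ L` signed, static.  Listed rows:
sections `Hd r` in `V`, weights `fd r` (functions of `V`); listed columns `Hc r`, `fc r` (functions of `U`).  At the vertex
time `T^b` (`Blk.Tb`) the covers `Cd s`, `Cc s` = greedy covers of `GMH/Grs` at the node.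

* `okr` : the own row is still acceptable for the greedy = BAD ROW; `okr_iff` : with `U` frozen, at the node;
* `g_signed` : `E 1_(R, Rl) ψ ≤ lam P (R, T^b ≤ σ) + 2 L kap P (T^b ≤ σ) + L (P (bad row) + P (bad column))`;
* `g_pay`, `g_pay'` : `lam P (Cd at T^b ≤ σ) ≤ E payD`, `lam P (Cc at T^b ≤ σ) ≤ E payC`;
* `g_unsigned` : what is not released.
-/

set_option autoImplicit false
set_option linter.unusedSectionVars false

namespace Pool.Agent.GMH.BlkG

open Finset Pool.Agent.PWZ Pool.Agent.M3 Pool.Agent.GMH.Gdy Pool.Agent.GMH.CR Pool.Agent.GMH.Three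
open Pool.Agent.GMH.Blk Pool.Agent.GMH.Grs
open Pool.Agent.GMH.Tree (stp_le one_cnt)

noncomputable section

variable {Om : Type*} [Fintype Om] {P : FP Om}

section two

variable {κ κ' : ℕ → Type*} {cU : ∀ t, Om → κ t} {cV : ∀ t, Om → κ' t} {α ω : Type*} {U : Om → α} {V : Om → ω}

variable (cU cV U V) in
/-- what is seen at the exact `U` -/
def yU (s : ℕ) (w : Om) : α × κ' s := (U w, cV s w)

/-- freezing `U` in a function of `U` and of what is seen at the exact `V` -/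
theorem freeze (hI : P.Indep U V) (hU : ∀ s, Fac U (cU s)) (hV : ∀ s, Fac V (cV s)) (s : ℕ) {F : α → Om → ℝ}
    (hF : ∀ a, Fac (fun w => (V w, cU s w)) (F a)) {w : Om} (hw : P.p w ≠ 0) :
    P.ce (fun x => (U x, cV s x)) (fun x => F (U x) x) w = P.ce (pair cU cV s) (F (U w)) w := by
  obtain ⟨G, hG⟩ := rep (hF (U w))
  set A : Om → ℝ := fun x => ind (U x = U w) with hA
  set B : Om → ℝ := fun x => ind (cV s x = cV s w) * G (V x) (cU s w) with hB
  set a : Om → ℝ := fun x => ind (cU s x = cU s w) with ha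
  set b : Om → ℝ := fun x => ind (cV s x = cV s w) with hb
  have fA : Fac U A := fun x y e => by
    show ind (U x = U w) = ind (U y = U w)
    rw [e]
  have fB : Fac V B := fun x y e => by
    show ind (cV s x = cV s w) * G (V x) (cU s w) = ind (cV s y = cV s w) * G (V y) (cU s w)
    rw [hV s x y e, e]
  have fa : Fac U a := fun x y e => by
    show ind (cU s x = cU s w) = ind (cU s y = cU s w)
    rw [hU s x y e]
  have fb : Fac V b := fun x y e => by
    show ind (cV s x = cV s w) = ind (cV s y = cV s w)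
    rw [hV s x y e]
  have e1 : P.E (fun x => ind ((U x, cV s x) = (U w, cV s w)) * F (U x) x) = P.E A * P.E B := by
    rw [← hI A B fA fB]
    refine P.E_congr fun x _ => ?_
    rw [show ((U x, cV s x) = (U w, cV s w)) = (U x = U w ∧ cV s x = cV s w) from by rw [Prod.mk.injEq], ind_and]
    show ind (U x = U w) * ind (cV s x = cV s w) * F (U x) x =
      ind (U x = U w) * (ind (cV s x = cV s w) * G (V x) (cU s w))
    by_cases h1 : U x = U w
    · have h2 : cU s x = cU s w := hU s x w h1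
      rw [h1, hG x, h2]
      ring
    · rw [ind_not h1]
      ring
  have e2 : P.m (fun x => (U x, cV s x)) w = P.E A * P.E b := by
    rw [← hI A b fA fb]
    refine P.E_congr fun x _ => ?_
    rw [show ((U x, cV s x) = (U w, cV s w)) = (U x = U w ∧ cV s x = cV s w) from by rw [Prod.mk.injEq], ind_and]
  have e3 : P.E (fun x => ind (pair cU cV s x = pair cU cV s w) * F (U w) x) = P.E a * P.E B := by
    rw [← hI a B fa fB]
    refine P.E_congr fun x _ => ?_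
    rw [show (pair cU cV s x = pair cU cV s w) = (cU s x = cU s w ∧ cV s x = cV s w) from propext pair_eq, ind_and]
    show ind (cU s x = cU s w) * ind (cV s x = cV s w) * F (U w) x =
      ind (cU s x = cU s w) * (ind (cV s x = cV s w) * G (V x) (cU s w))
    by_cases h1 : cU s x = cU s w
    · rw [hG x, h1]
      ring
    · rw [ind_not h1]
      ring
  have e4 : P.m (pair cU cV s) w = P.E a * P.E b := by
    rw [← hI a b fa fb]
    refine P.E_congr fun x _ => ?_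
    rw [show (pair cU cV s x = pair cU cV s w) = (cU s x = cU s w ∧ cV s x = cV s w) from propext pair_eq, ind_and]
  have p1 : 0 < P.E a := P.m_pos (cU s) hw
  have p2 : 0 < P.E b := P.m_pos (cV s) hw
  have p3 : 0 < P.E A := P.m_pos U hw
  unfold FP.ce
  rw [e1, e2, e3, e4, mul_div_mul_left _ _ p3.ne', mul_div_mul_left _ _ p1.ne']

variable {R0 : α → ω → Prop} {ψ0 : α → ω → ℝ} {kap lam : ℝ}

/-- **the own row, with `U` frozen** -/
theorem okr_iff (hI : P.Indep U V) (hU : ∀ s, Fac U (cU s)) (hV : ∀ s, Fac V (cV s)) (s : ℕ) {Cd : Om → Prop}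
    (hCd : ∀ x w, (V x, cU s x) = (V w, cU s w) → (Cd x ↔ Cd w)) {w : Om} (hw : P.p w ≠ 0) :
    ok P (fun x => (U x, cV s x)) kap lam (fun x => R0 (U x) (V x) ∧ ¬ Cd x) (fun x => ψ0 (U x) (V x)) w ↔
      ok P (pair cU cV s) kap lam (fun x => R0 (U w) (V x) ∧ ¬ Cd x) (fun x => ψ0 (U w) (V x)) w := by
  have hV' : ∀ x y, (V x, cU s x) = (V y, cU s y) → V x = V y := fun x y e => (Prod.mk.injEq _ _ _ _ ▸ e : _ ∧ _).1
  have e1 : P.ce (fun x => (U x, cV s x)) (fun x => ind (R0 (U x) (V x) ∧ ¬ Cd x)) w =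
      P.ce (pair cU cV s) (fun x => ind (R0 (U w) (V x) ∧ ¬ Cd x)) w :=
    freeze hI hU hV s (F := fun a x => ind (R0 a (V x) ∧ ¬ Cd x)) (fun a => Fac.ind fun x y e => by
      rw [hV' x y e, hCd x y e]) hw
  have e2 : P.ce (fun x => (U x, cV s x)) (fun x => ind (R0 (U x) (V x) ∧ ¬ Cd x) * ψ0 (U x) (V x)) w =
      P.ce (pair cU cV s) (fun x => ind (R0 (U w) (V x) ∧ ¬ Cd x) * ψ0 (U w) (V x)) w :=
    freeze hI hU hV s (F := fun a x => ind (R0 a (V x) ∧ ¬ Cd x) * ψ0 a (V x)) (fun a x y e => by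
      show ind (R0 a (V x) ∧ ¬ Cd x) * ψ0 a (V x) = ind (R0 a (V y) ∧ ¬ Cd y) * ψ0 a (V y)
      rw [hV' x y e, propext (hCd x y e)]) hw
  unfold ok
  rw [e1, e2]

end two

section main

variable {κ κ' κ'' : ℕ → Type*} {N : ∀ t, Om → κ t} {Yc : ∀ t, Om → κ' t} {Yd : ∀ t, Om → κ'' t}
  {R : Om → Prop} {q h lam kap L : ℝ} {σ : Om → ℕ} {T : ℕ} {ψ : Om → ℝ}
  {Hc Hd : ℕ → Om → Prop} {fc fd : ℕ → Om → ℝ} {Mc Md K : ℕ}

variable (P N kap lam K) in
/-- the cover at the time `s` by the listed rows (columns) `H`, `f` -/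
def cvr (H : ℕ → Om → Prop) (f : ℕ → Om → ℝ) (M : ℕ) (s : ℕ) (w : Om) : Prop :=
  gs P (N s) H f kap lam M (M * K) w

variable (P N kap lam K) in
/-- the payment functional of the cover at the time `s` -/
def pf (H : ℕ → Om → Prop) (f : ℕ → Om → ℝ) (M : ℕ) (s : ℕ) (w : Om) : ℝ :=
  ∑ i ∈ range (M * K), ind (pc P (N s) H f kap lam M i w) * f (i % M) w

theorem cvr_fac {ρ : ℕ → Type*} {Z : ∀ t, Om → ρ t} (hZ : ∀ s, Fac (Z s) (N s)) {H : ℕ → Om → Prop} {f : ℕ → Om → ℝ}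
    {M : ℕ} (hH : ∀ r s x w, Z s x = Z s w → (H r x ↔ H r w)) (s : ℕ) (x w : Om) (e : Z s x = Z s w) :
    cvr P N lam kap K H f M s x ↔ cvr P N lam kap K H f M s w :=
  gs_fac (hZ s) (fun r => hH r s) _ e

/-- **a row which is not acceptable** -/
theorem row_le {ρ : Type*} {Z : Om → ρ} {A : Om → Prop} {g : Om → ℝ} {w : Om} (hw : P.p w ≠ 0) (l0 : 0 ≤ lam)
    (k0 : 0 ≤ kap) (L0 : 0 ≤ L) (hL : ∀ x, g x ≤ L) :
    P.ce Z (fun x => ind (A x) * g x) w ≤
      lam * P.ce Z (fun x => ind (A x)) w + L * kap + L * ind (ok P Z kap lam A g w) := by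
  have h0 : 0 ≤ P.ce Z (fun x => ind (A x)) w := P.ce_nonneg (fun _ _ => ind_nonneg _) w
  have h1 : P.ce Z (fun x => ind (A x) * g x) w ≤ L * P.ce Z (fun x => ind (A x)) w := by
    rw [← P.ce_smul]
    refine P.ce_mono (fun x _ => ?_) w
    have := mul_le_mul_of_nonneg_left (hL x) (ind_nonneg (A x))
    linarith
  have h2 : P.ce Z (fun x => ind (A x)) w ≤ 1 := P.ce_le_const (fun _ _ => ind_le_one _) hw
  by_cases h3 : ok P Z kap lam A g w
  · rw [ind_of h3, mul_one]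
    have a1 := mul_le_mul_of_nonneg_left h2 L0
    have a2 := mul_nonneg l0 h0
    have a3 := mul_nonneg L0 k0
    linarith
  · rw [ind_not h3, mul_zero, add_zero]
    by_cases h4 : kap ≤ P.ce Z (fun x => ind (A x)) w
    · have h5 : P.ce Z (fun x => ind (A x) * g x) w < lam * P.ce Z (fun x => ind (A x)) w :=
        not_le.1 fun h6 => h3 ⟨h4, h6⟩
      have a3 := mul_nonneg L0 k0
      linarith
    · have a1 := mul_le_mul_of_nonneg_left (not_le.1 h4).le L0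
      have a2 := mul_nonneg l0 h0
      linarith

variable (P Yc R kap lam ψ) in
/-- the own row is acceptable for the greedy (BAD), `C` = covered points of the row -/
def okr (C : ℕ → Om → Prop) (s : ℕ) (w : Om) : Prop :=
  ok P (Yc s) kap lam (fun x => R x ∧ ¬ C s x) ψ w

/-- **THE SIGNED PART** -/
theorem g_signed (hc : ∀ s, Fac (Yc s) (N s)) (hd : ∀ s, Fac (Yd s) (N s)) (fN : Filt N) (hσ : Stp N σ)
    (hT : ∀ w, σ w < T) (l0 : 0 ≤ lam) (k0 : 0 ≤ kap) (L0 : 0 ≤ L) (hL : ∀ x, ψ x ≤ L)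
    (hHd : ∀ r s x w, Yd s x = Yd s w → (Hd r x ↔ Hd r w)) :
    P.E (fun w => ind (R w ∧ Rl P N R q (cvr P N lam kap K Hc fc Mc) (cvr P N lam kap K Hd fd Md) σ w) * ψ w) ≤
      lam * P.Pr (fun w => R w ∧ ∃ s ≤ σ w, Tb P N R q s w) +
        2 * (L * kap) * P.Pr (fun w => ∃ s ≤ σ w, Tb P N R q s w) +
        L * (P.Pr (fun w => ∃ s ≤ σ w, Tb P N R q s w ∧ okr P Yc R lam kap ψ (cvr P N lam kap K Hd fd Md) s w) +
          P.Pr (fun w => ∃ s ≤ σ w, Tb P N R q s w ∧ okr P Yd R lam kap ψ (cvr P N lam kap K Hc fc Mc) s w)) :=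
  rel_signed hc hd fN hσ hT l0 (mul_nonneg L0 k0) L0 (fun s x w e => cvr_fac hd hHd s x w e)
    (fun _ _ hw _ _ => row_le hw l0 k0 L0 hL) (fun _ _ hw _ _ _ => row_le hw l0 k0 L0 hL)

/-- **THE PAYMENT** -/
theorem g_pay (fN : Filt N) (hσ : Stp N σ) (hT : ∀ w, σ w < T) (H : ℕ → Om → Prop) (f : ℕ → Om → ℝ) (M : ℕ) :
    lam * P.Pr (fun w => ∃ s ≤ σ w, Tb P N R q s w ∧ cvr P N lam kap K H f M s w) ≤
      ∑ s ∈ range T, P.E (fun w => ind (Tb P N R q s w ∧ s ≤ σ w) * pf P N lam kap K H f M s w) := by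
  classical
  have c0 : P.Pr (fun w => ∃ s ≤ σ w, Tb P N R q s w ∧ cvr P N lam kap K H f M s w) =
      ∑ s ∈ range T, P.E (fun w => ind (Tb P N R q s w ∧ s ≤ σ w) * ind (cvr P N lam kap K H f M s w)) := by
    rw [← FP.E_sum]
    unfold FP.Pr
    refine P.E_congr fun w _ => ?_
    have e2 := sum_ind' (A := fun s => (Tb P N R q s w ∧ s ≤ σ w) ∧ cvr P N lam kap K H f M s w) (T := T)
      (fun s s' a b => Tb_one w s s' a.1.1 b.1.1) (fun s a => lt_of_le_of_lt a.1.2 (hT w))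
    have e3 : (∃ s, (Tb P N R q s w ∧ s ≤ σ w) ∧ cvr P N lam kap K H f M s w) =
        (∃ s ≤ σ w, Tb P N R q s w ∧ cvr P N lam kap K H f M s w) :=
      propext ⟨fun ⟨s, a⟩ => ⟨s, a.1.2, a.1.1, a.2⟩, fun ⟨s, a, b, c⟩ => ⟨s, ⟨b, a⟩, c⟩⟩
    show ind (∃ s ≤ σ w, Tb P N R q s w ∧ cvr P N lam kap K H f M s w) = _
    rw [← e3, ← e2]
    exact Finset.sum_congr rfl fun s _ => ind_and _ _
  rw [c0, Finset.mul_sum]
  refine Finset.sum_le_sum fun s _ => ?_
  have hF : Fac (N s) (fun w => ind (Tb P N R q s w ∧ s ≤ σ w)) := Fac.ind fun x w e => by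
    rw [Tb_fac fN s e, stp_le fN (fun _ => Fac.refl _) hσ e]
  rw [← P.E_mul_ce hF, ← P.E_mul_ce hF (pf P N lam kap K H f M s), ← FP.E_smul]
  refine P.E_mono fun w _ => ?_
  have h1 := pay_node (P := P) (X := N s) (H := H) (f := f) (kap := kap) (lam := lam) (M := M) (M * K) w
  have h2 := mul_le_mul_of_nonneg_left h1 (ind_nonneg (Tb P N R q s w ∧ s ≤ σ w))
  show lam * (ind (Tb P N R q s w ∧ s ≤ σ w) * P.ce (N s) (fun w => ind (gs P (N s) H f kap lam M (M * K) w)) w) ≤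
    ind (Tb P N R q s w ∧ s ≤ σ w) *
      P.ce (N s) (fun x => ∑ i ∈ range (M * K), ind (pc P (N s) H f kap lam M i x) * f (i % M) x) w
  linarith

/-- **WHAT IS NOT RELEASED** -/
theorem g_unsigned (hci : CI P N Yc Yd) (hc : ∀ s, Fac (Yc s) (N s)) (hd : ∀ s, Fac (Yd s) (N s)) (fN : Filt N)
    (hσ : Stp N σ) (hT : ∀ w, σ w < T) (h0 : 0 ≤ h) (hm : ∀ s w, P.p w ≠ 0 → P.m (N s) w ≤ h * P.m (N (s + 1)) w)
    (hHc : ∀ r s x w, Yc s x = Yc s w → (Hc r x ↔ Hc r w)) (hHd : ∀ r s x w, Yd s x = Yd s w → (Hd r x ↔ Hd r w))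
    {Xa Yb : ℕ → Om → ℝ} (hX : ∀ s, Fac (Yc s) (Xa s)) (hY : ∀ s, Fac (Yd s) (Yb s)) (X0 : ∀ s w, 0 ≤ Xa s w)
    (X1 : ∀ s w, Xa s w ≤ 1) (Y0 : ∀ s w, 0 ≤ Yb s w) (Y1 : ∀ s w, Yb s w ≤ 1) {W : Om → ℝ} (W1 : ∀ w, W w ≤ 1)
    (hW : ∀ w, W w ≤ Xa (σ w) w * Yb (σ w) w) :
    P.E (fun w => ind (R w ∧ ¬ Rl P N R q (cvr P N lam kap K Hc fc Mc) (cvr P N lam kap K Hd fd Md) σ w) * W w) ≤
      Real.sqrt q * ((P.E (fun w => Xa (σ w) w) + P.E (fun w => Yb (σ w) w)) / 2) +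
      (Real.sqrt (h * q) * ((P.Pr (fun w => ∃ s ≤ σ w, Tb P N R q s w ∧ cvr P N lam kap K Hc fc Mc s w) +
        P.Pr (fun w => ∃ s ≤ σ w, Tb P N R q s w ∧ cvr P N lam kap K Hd fd Md s w)) / 2) +
        P.Pr (fun w => R w ∧ q ≤ cp P N 0 R w)) :=
  blk_unsigned hci fN hσ hT h0 hm (fun s x w e => cvr_fac hc hHc s x w e) (fun s x w e => cvr_fac hd hHd s x w e)
    hX hY X0 X1 Y0 Y1 W1 hW

/-- pieces of the cover: at most `1/kap` at the node -/
theorem pieces_le (H : ℕ → Om → Prop) (f : ℕ → Om → ℝ) (M : ℕ) (s : ℕ) {w : Om} (hw : P.p w ≠ 0) :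
    kap * ∑ i ∈ range (M * K), ind (tkn P (N s) H f kap lam M i w) ≤ 1 := tkn_le _ hw

/-- no listed row can be taken any more -/
theorem listed (H : ℕ → Om → Prop) (f : ℕ → Om → ℝ) {M : ℕ} (hM : 0 < M) (k0 : 0 ≤ kap) (hK : 1 < kap * K) (s : ℕ)
    {w : Om} (hw : P.p w ≠ 0) (r : ℕ) (hr : r < M) :
    ¬ ok P (N s) kap lam (fun x => H r x ∧ ¬ cvr P N lam kap K H f M s x) (f r) w := stable hM k0 hK hw r hr

end main

end

end Pool.Agent.GMH.BlkG
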