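import Pool.Agent.M3.FP

/-!
# GMH/Bmo (helper3, note 4072 (2)): THE SECOND MOMENT OF THE TOTAL ACTIVITY

`P : FP Om`, a filtration `G s` (`Fac (G (s + 1)) (G s)`), activities `a s` in `[0, 1]`, functions of `G (s + 1)`, `s < T`,
`A = sum_(s < T) a s`, and a constant `K` with

  (H)  `E[sum_(s < r < T) a r | G (s + 1)] ≤ K` at the points of the support at which `a s ≠ 0` (active points only).

* `tail` : `E (a s * sum_(r > s) a r) ≤ K E (a s)`;
* **`bmo`** : `E A^2 ≤ 2 (K + 1) E A`;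
* **`mean_le`** : `E A ≤ (K + 1) P (some a s ≠ 0)`, `mean_le'` : `E A ≤ K + 1`;
* **`bmo_sq`** : `E A^2 ≤ 2 (K + 1)^2`;
* **`bmo_ev`** : `E (1_H A) ≤ P(H)^(1/2) * (2 (K + 1))` for every event `H`;
* **`bmo_sum`** : `sum_(s < T) E (1_(H s) * a s) ≤ P(H)^(1/2) * (2 (K + 1))` if all `H s` are contained in `H`.

`hyp_of_all` : (H) follows from `E[sum_(s ≤ r < T) a r | G s] ≤ K` for all `s` (pointwise on the support).
-/

set_option autoImplicit false
set_option linter.unusedSectionVars false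

namespace Pool.Agent.GMH.Bmo

open Finset Pool.Agent.PWZ Pool.Agent.M3

noncomputable section

variable {Om : Type*} [Fintype Om] {κ : ℕ → Type*} {P : FP Om} {G : ∀ s, Om → κ s} {a : ℕ → Om → ℝ} {T : ℕ} {K : ℝ}

/-- hypothesis (H), with the measurability and the bounds of the activities -/
structure Hyp (P : FP Om) (G : ∀ s, Om → κ s) (a : ℕ → Om → ℝ) (T : ℕ) (K : ℝ) : Prop where
  fac : ∀ s < T, Fac (G (s + 1)) (a s)
  nn : ∀ s < T, ∀ w, P.p w ≠ 0 → 0 ≤ a s w
  le : ∀ s < T, ∀ w, P.p w ≠ 0 → a s w ≤ 1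
  tl : ∀ s < T, ∀ w, P.p w ≠ 0 → a s w ≠ 0 → P.ce (G (s + 1)) (fun v => ∑ r ∈ Ico (s + 1) T, a r v) w ≤ K

/-- the version with the bound at all points and all times -/
theorem hyp_of_all (fac : ∀ s < T, Fac (G (s + 1)) (a s)) (nn : ∀ s < T, ∀ w, P.p w ≠ 0 → 0 ≤ a s w)
    (le : ∀ s < T, ∀ w, P.p w ≠ 0 → a s w ≤ 1)
    (tl : ∀ s ≤ T, ∀ w, P.p w ≠ 0 → P.ce (G s) (fun v => ∑ r ∈ Ico s T, a r v) w ≤ K) : Hyp P G a T K :=
  ⟨fac, nn, le, fun s hs w hw _ => tl (s + 1) hs w hw⟩

/-- pointwise: the square of a sum -/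
theorem sq_sum_le (b : ℕ → ℝ) (T : ℕ) (h0 : ∀ s < T, 0 ≤ b s) (h1 : ∀ s < T, b s ≤ 1) :
    (∑ s ∈ range T, b s) ^ 2 ≤ ∑ s ∈ range T, (b s + 2 * (b s * ∑ r ∈ Ico (s + 1) T, b r)) := by
  induction T with
  | zero => simp
  | succ T ih =>
    have ih := ih (fun s hs => h0 s (by omega)) (fun s hs => h1 s (by omega))
    have e1 : ∑ s ∈ range (T + 1), (b s + 2 * (b s * ∑ r ∈ Ico (s + 1) (T + 1), b r)) =
        ∑ s ∈ range T, (b s + 2 * (b s * ∑ r ∈ Ico (s + 1) T, b r)) + 2 * (∑ s ∈ range T, b s) * b T + b T := by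
      rw [sum_range_succ, Ico_self, sum_empty, mul_zero, mul_zero, add_zero]
      congr 1
      rw [mul_assoc, sum_mul, mul_sum, ← sum_add_distrib]
      refine sum_congr rfl (fun s hs => ?_)
      rw [sum_Ico_succ_top (by have := mem_range.1 hs; omega)]
      ring
    rw [e1, sum_range_succ]
    have h2 := h0 T (by omega)
    have h3 := h1 T (by omega)
    nlinarith [mul_nonneg h2 (sub_nonneg.2 h3)]

namespace Hyp

variable (h : Hyp P G a T K)

include h

theorem tail {s : ℕ} (hs : s < T) :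
    P.E (fun w => a s w * ∑ r ∈ Ico (s + 1) T, a r w) ≤ K * P.E (a s) := by
  rw [← P.E_mul_ce (h.fac s hs), ← FP.E_smul]
  refine P.E_mono (fun w hw => ?_)
  by_cases h0 : a s w = 0
  · rw [h0]; simp
  · rw [mul_comm K]
    exact mul_le_mul_of_nonneg_left (h.tl s hs w hw h0) (h.nn s hs w hw)

theorem sum_nn {w : Om} (hw : P.p w ≠ 0) : 0 ≤ ∑ s ∈ range T, a s w :=
  sum_nonneg (fun s hs => h.nn s (mem_range.1 hs) w hw)

theorem EA_nn : 0 ≤ P.E (fun w => ∑ s ∈ range T, a s w) := P.E_nonneg (fun _ hw => h.sum_nn hw)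

/-- the sharp form -/
theorem bmo' : P.E (fun w => (∑ s ∈ range T, a s w) ^ 2) ≤ (1 + 2 * K) * P.E (fun w => ∑ s ∈ range T, a s w) := by
  have h1 : P.E (fun w => (∑ s ∈ range T, a s w) ^ 2) ≤
      P.E (fun w => ∑ s ∈ range T, (a s w + 2 * (a s w * ∑ r ∈ Ico (s + 1) T, a r w))) :=
    P.E_mono (fun w hw => sq_sum_le _ T (fun s hs => h.nn s hs w hw) (fun s hs => h.le s hs w hw))
  refine h1.trans ?_
  rw [FP.E_sum, FP.E_sum, mul_sum]
  refine sum_le_sum (fun s hs => ?_)
  rw [FP.E_add, FP.E_smul]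
  have := h.tail (mem_range.1 hs)
  nlinarith

/-- **the second moment** -/
theorem bmo : P.E (fun w => (∑ s ∈ range T, a s w) ^ 2) ≤ 2 * (K + 1) * P.E (fun w => ∑ s ∈ range T, a s w) := by
  refine h.bmo'.trans (mul_le_mul_of_nonneg_right (by linarith) h.EA_nn)

/-- no activity before the time `t` -/
theorem fac_pre (hG : ∀ s, Fac (G (s + 1)) (G s)) {t : ℕ} (ht : t ≤ T) :
    Fac (G t) (fun w => ind (∀ r < t, a r w = 0)) := by
  have hst : ∀ s d, Fac (G (s + d)) (G s) := by
    intro s d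
    induction d with
    | zero => exact Fac.refl _
    | succ d ih => exact (hG (s + d)).trans ih
  refine Fac.ind (fun v w hv => ?_)
  have h2 : ∀ r < t, a r v = a r w := by
    intro r hr
    have h3 := hst (r + 1) (t - (r + 1))
    have e : r + 1 + (t - (r + 1)) = t := by omega
    rw [e] at h3
    exact h.fac r (by omega) v w (h3 v w hv)
  exact forall₂_congr (fun r hr => by rw [h2 r hr])

theorem mean_step (hG : ∀ s, Fac (G (s + 1)) (G s)) {t : ℕ} (ht : t < T) :
    P.E (fun w => ind (∀ r < t, a r w = 0) * ∑ r ∈ Ico t T, a r w) ≤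
      (K + 1) * P.E (fun w => ind (∀ r < t, a r w = 0) * ind (a t w ≠ 0)) +
        P.E (fun w => ind (∀ r < t + 1, a r w = 0) * ∑ r ∈ Ico (t + 1) T, a r w) := by
  set u : Om → ℝ := fun w => ind (∀ r < t, a r w = 0) with hu
  set f : Om → ℝ := fun w => ind (a t w ≠ 0) with hf
  set R : Om → ℝ := fun w => ∑ r ∈ Ico (t + 1) T, a r w with hR
  have e1 : ∀ w, ind (∀ r < t + 1, a r w = 0) = u w * (1 - f w) := by
    intro w
    simp only [hu, hf]
    by_cases h1 : ∀ r < t, a r w = 0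
    · by_cases h2 : a t w = 0
      · rw [ind_of (fun r hr => ?_), ind_of h1, ind_not (fun hn => hn h2)]
        · ring
        · rcases Nat.lt_succ_iff_lt_or_eq.1 hr with h3 | h3
          · exact h1 r h3
          · rw [h3]; exact h2
      · rw [ind_not (fun hn => h2 (hn t (by omega))), ind_of (show a t w ≠ 0 from h2)]
        ring
    · rw [ind_not (fun hn => h1 (fun r hr => hn r (by omega))), ind_not h1]
      ring
  have e2 : ∀ w, ∑ r ∈ Ico t T, a r w = a t w + R w := fun w => sum_eq_sum_Ico_succ_bot ht _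
  have e3 : ∀ w, a t w = f w * a t w := by
    intro w
    simp only [hf]
    by_cases h2 : a t w = 0
    · rw [h2]; ring
    · rw [ind_of (show a t w ≠ 0 from h2)]; ring
  -- the active part
  have hfu : Fac (G (t + 1)) (fun w => u w * f w) := by
    refine Fac.mul ((hG t).trans (h.fac_pre hG ht.le)) ?_
    exact Fac.ind (fun v w hv => by rw [h.fac t ht v w hv])
  have h1 : P.E (fun w => u w * f w * R w) ≤ K * P.E (fun w => u w * f w) := by
    rw [← P.E_mul_ce hfu, ← FP.E_smul]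
    refine P.E_mono (fun w hw => ?_)
    have hnn : 0 ≤ u w * f w := mul_nonneg (ind_nonneg _) (ind_nonneg _)
    by_cases h0 : a t w = 0
    · have : f w = 0 := ind_not (fun hn => hn h0)
      rw [this]; simp
    · rw [mul_comm K]
      exact mul_le_mul_of_nonneg_left (h.tl t ht w hw h0) hnn
  have h2 : P.E (fun w => u w * f w * a t w) ≤ P.E (fun w => u w * f w) := by
    refine P.E_mono (fun w hw => ?_)
    have hnn : 0 ≤ u w * f w := mul_nonneg (ind_nonneg _) (ind_nonneg _)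
    exact mul_le_of_le_one_right hnn (h.le t ht w hw)
  have h3 : P.E (fun w => u w * ∑ r ∈ Ico t T, a r w) =
      P.E (fun w => u w * f w * R w) + P.E (fun w => u w * f w * a t w) +
        P.E (fun w => ind (∀ r < t + 1, a r w = 0) * R w) := by
    rw [← FP.E_add, ← FP.E_add]
    refine P.E_congr (fun w _ => ?_)
    rw [e1, e2]
    have := e3 w
    calc u w * (a t w + R w) = u w * a t w + u w * R w := by ring
      _ = u w * (f w * a t w) + u w * R w := by rw [← this]
      _ = _ := by ring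
  rw [h3]
  nlinarith

/-- **the first moment**, through the probability that anything is active -/
theorem mean_le (hG : ∀ s, Fac (G (s + 1)) (G s)) :
    P.E (fun w => ∑ s ∈ range T, a s w) ≤ (K + 1) * P.Pr (fun w => ∃ s < T, a s w ≠ 0) := by
  have key : ∀ t ≤ T, P.E (fun w => ∑ s ∈ range T, a s w) ≤
      (K + 1) * P.E (fun w => ∑ s ∈ range t, ind (∀ r < s, a r w = 0) * ind (a s w ≠ 0)) +
        P.E (fun w => ind (∀ r < t, a r w = 0) * ∑ r ∈ Ico t T, a r w) := by
    intro t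
    induction t with
    | zero =>
      intro _
      simp only [range_zero, sum_empty, FP.E_const, mul_zero, zero_add]
      refine le_of_eq (P.E_congr (fun w _ => ?_))
      rw [ind_of (fun r hr => absurd hr (by omega)), one_mul, range_eq_Ico]
    | succ t ih =>
      intro ht
      refine (ih (by omega)).trans ?_
      have h1 := h.mean_step hG (show t < T by omega)
      simp only [sum_range_succ]
      rw [FP.E_add, mul_add]
      linarith
  have h1 := key T le_rfl
  simp only [Ico_self, sum_empty, mul_zero, FP.E_const, add_zero] at h1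
  have e : ∀ (w : Om) (t : ℕ), ∑ s ∈ range t, ind (∀ r < s, a r w = 0) * ind (a s w ≠ 0) =
      ind (∃ s < t, a s w ≠ 0) := by
    intro w t
    induction t with
    | zero => rw [ind_not (fun ⟨s, hs, _⟩ => absurd hs (by omega))]; simp
    | succ t ih =>
      rw [sum_range_succ, ih]
      by_cases h2 : ∃ s < t, a s w ≠ 0
      · rw [ind_of h2, ind_not, ind_of (show ∃ s < t + 1, a s w ≠ 0 from ?_)]
        · ring
        · obtain ⟨s, hs, hh⟩ := h2
          exact ⟨s, by omega, hh⟩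
        · obtain ⟨s, hs, hh⟩ := h2
          exact fun hn => hh (hn s hs)
      · have h3 : ∀ r < t, a r w = 0 := by
          intro r hr
          by_contra hc
          exact h2 ⟨r, hr, hc⟩
        rw [ind_not h2, ind_of h3, zero_add, one_mul]
        congr 1
        refine propext ⟨fun h4 => ⟨t, by omega, h4⟩, fun ⟨s, hs, hh⟩ => ?_⟩
        have : s = t := by
          by_contra hc
          exact hh (h3 s (by omega))
        rw [← this]; exact hh
  unfold FP.Pr
  simpa only [e] using h1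

theorem mean_le' (hG : ∀ s, Fac (G (s + 1)) (G s)) (hK : 0 ≤ K) :
    P.E (fun w => ∑ s ∈ range T, a s w) ≤ K + 1 := by
  refine (h.mean_le hG).trans ?_
  have := P.Pr_le_one (fun w => ∃ s < T, a s w ≠ 0)
  nlinarith

/-- **the second moment, absolute** -/
theorem bmo_sq (hG : ∀ s, Fac (G (s + 1)) (G s)) (hK : 0 ≤ K) :
    P.E (fun w => (∑ s ∈ range T, a s w) ^ 2) ≤ 2 * (K + 1) ^ 2 := by
  refine h.bmo.trans ?_
  have := h.mean_le' hG hK
  nlinarith

/-- **the total activity on an event** -/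
theorem bmo_ev (hG : ∀ s, Fac (G (s + 1)) (G s)) (hK : 0 ≤ K) (H : Om → Prop) :
    P.E (fun w => ind (H w) * ∑ s ∈ range T, a s w) ≤ Real.sqrt (P.Pr H) * (2 * (K + 1)) := by
  refine (le_abs_self _).trans ((P.abs_E_mul_le _ _).trans ?_)
  have e1 : P.E (fun w => ind (H w) ^ 2) = P.Pr H := by
    unfold FP.Pr
    refine P.E_congr (fun w _ => ?_)
    by_cases hq : H w
    · rw [ind_of hq]; ring
    · rw [ind_not hq]; ring
  rw [e1]
  refine mul_le_mul_of_nonneg_left ?_ (Real.sqrt_nonneg _)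
  refine Real.sqrt_le_iff.2 ⟨by positivity, (h.bmo_sq hG hK).trans ?_⟩
  nlinarith [sq_nonneg (K + 1)]

/-- **the sum over the times of the activities on events contained in `H`** -/
theorem bmo_sum (hG : ∀ s, Fac (G (s + 1)) (G s)) (hK : 0 ≤ K) (H : Om → Prop) (Hs : ℕ → Om → Prop)
    (hH : ∀ s < T, ∀ w, P.p w ≠ 0 → a s w ≠ 0 → Hs s w → H w) :
    ∑ s ∈ range T, P.E (fun w => ind (Hs s w) * a s w) ≤ Real.sqrt (P.Pr H) * (2 * (K + 1)) := by
  refine le_trans ?_ (h.bmo_ev hG hK H)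
  rw [← FP.E_sum]
  refine P.E_mono (fun w hw => ?_)
  rw [mul_sum]
  refine sum_le_sum (fun s hs => ?_)
  by_cases h0 : a s w = 0
  · rw [h0]; simp
  · exact mul_le_mul_of_nonneg_right (ind_mono (hH s (mem_range.1 hs) w hw h0)) (h.nn s (mem_range.1 hs) w hw)

/-- the same with the probability of activity -/
theorem bmo_pr (hG : ∀ s, Fac (G (s + 1)) (G s)) (hK : 0 ≤ K) (H : Om → Prop) (Hs : ℕ → Om → Prop)
    (h01 : ∀ s < T, ∀ w, P.p w ≠ 0 → a s w ≠ 0 → a s w = 1)
    (hH : ∀ s < T, ∀ w, P.p w ≠ 0 → a s w ≠ 0 → Hs s w → H w) :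
    ∑ s ∈ range T, P.Pr (fun w => a s w ≠ 0 ∧ Hs s w) ≤ Real.sqrt (P.Pr H) * (2 * (K + 1)) := by
  refine le_trans (le_of_eq (sum_congr rfl (fun s hs => ?_))) (h.bmo_sum hG hK H Hs hH)
  unfold FP.Pr
  refine P.E_congr (fun w hw => ?_)
  by_cases h0 : a s w = 0
  · rw [ind_not (fun hn => hn.1 h0), h0]; ring
  · have h1 : ind (a s w ≠ 0 ∧ Hs s w) = ind (Hs s w) :=
      congrArg ind (propext ⟨fun hh => hh.2, fun hh => ⟨h0, hh⟩⟩)
    rw [h1, h01 s (mem_range.1 hs) w hw h0, mul_one]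

end Hyp

end

end Pool.Agent.GMH.Bmo
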