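import Pool.Agent.GMH.Proc

/-!
# GMH.Bud: the budget of the process of HARM(k) (helper91)

State before the split at the time `t`: law `D.P h t`, base `BB D t`, labels `LL (Um v t)`, `Um v t` = lists of the codes
`s < t` (`Um v (t+1) = UU v t`); the split adds the codes `Vt v t`.

* `birth0 l = H(F_l | y, node 0)`, `birth t l = H(F_l(t+1) | F_l(t), y, node t+1)`; `birth_le` : their sum is at most `Lam`
  ((H2) of `HD.Hyp`);
* `step_ent` : from the state after the split at `t` to the state before the split at `t+1` the entropies of the index sets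
  fall, except for the births of the top letters;
* `budget_sum` : if `Phi <= 0` at every node then
  `∑_(t ≤ T) ∑_J N_J cost_J(t) + Psi after the last split ≤ ∑_l N_(univ.erase l) (birth0 l + ∑_(t<T) birth t l)`;
* `budget_Lam` : `≤ |K| Ntop Lam`.
-/

set_option autoImplicit false
set_option linter.unusedSectionVars false

namespace Pool.Agent.GMH

open Finset Pool.Agent.PWZ Pool.Agent.M3 Pool.Agent.GM Pool.Agent.GM.Harm
open Pool.Agent.M3.S3 (avg law ent)

/-! ## sums over cells -/

section cells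

variable {A κ : Type*} [Fintype A] [DecidableEq κ]

theorem sum_cell (c : A → κ) (g φ : A → ℝ) (hφ : ∀ a a', c a = c a' → φ a = φ a') :
    ∑ a, avg (univ.filter fun a' => c a' = c a) g * φ a = ∑ a, g a * φ a := by
  have h1 : ∀ a, avg (univ.filter fun a' => c a' = c a) g * φ a =
      ∑ a', (if c a' = c a then g a' * φ a' / ((univ.filter fun b => c b = c a').card : ℝ) else 0) := by
    intro a
    unfold avg
    rw [div_mul_eq_mul_div, Finset.sum_mul, Finset.sum_div, Finset.sum_filter]
    refine Finset.sum_congr rfl fun a' _ => ?_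
    by_cases h : c a' = c a
    · rw [if_pos h, if_pos h, hφ a' a h, h]
    · rw [if_neg h, if_neg h]
  rw [Finset.sum_congr rfl fun a _ => h1 a, Finset.sum_comm]
  refine Finset.sum_congr rfl fun a' _ => ?_
  rw [← Finset.sum_filter, Finset.sum_const, nsmul_eq_mul]
  have h2 : (univ.filter fun a => c a' = c a) = univ.filter fun b => c b = c a' := by
    ext b; simp only [Finset.mem_filter, Finset.mem_univ, true_and]; exact eq_comm
  rw [h2]
  have h3 : ((univ.filter fun b => c b = c a').card : ℝ) ≠ 0 := by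
    have : (univ.filter fun b => c b = c a').Nonempty := ⟨a', by simp⟩
    exact_mod_cast this.card_pos.ne'
  field_simp

end cells

section bud

variable {K X β γ φ υ : Type} [Fintype K] [DecidableEq K] [Fintype X] [Fintype β] [Fintype φ] [Nonempty X] [Nonempty β]
  {D : HD K X β γ φ} {al : ℝ} (h : D.Thick al)

theorem sum_cA (s : ℕ) (g φ' : X → ℝ) (hφ : ∀ a a', D.qa s a = D.qa s a' → φ' a = φ' a') :
    ∑ x, avg (D.cA s x) g * φ' x = ∑ x, g x * φ' x := by
  exact @sum_cell X γ _ (fun a b => Classical.propDecidable (a = b)) (D.qa s) g φ' hφ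

/-- means over the cells do not change the total mean -/
theorem sum_mean (s : ℕ) (l : K) (g : X → (K → β) → ℝ) :
    ∑ x, ∑ y, D.mean s l x y g = ∑ x, ∑ y, g x y := by
  classical
  have h1 : ∀ x y, D.mean s l x y g = avg (D.cA s x) fun x' => avg (D.cB s (y l)) fun b => g x' (Function.update y l b) :=
    fun _ _ => rfl
  have h2 : ∀ x', ∑ y : K → β, avg (D.cB s (y l)) (fun b => g x' (Function.update y l b)) = ∑ y, g x' y := by
    intro x'
    let _ : DecidableEq ((K → Option β) × γ) := fun a b => Classical.propDecidable (a = b)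
    set c : (K → β) → (K → Option β) × γ := fun y => (fun j => if j = l then none else some (y j), D.qb s (y l)) with hc
    have h3 := sum_cell c (g x') (fun _ => 1) (fun _ _ _ => rfl)
    simp only [mul_one] at h3
    rw [← h3]
    refine Finset.sum_congr rfl fun y _ => ?_
    have hcy : ∀ y', c y' = c y ↔ (∀ j, j ≠ l → y' j = y j) ∧ D.qb s (y' l) = D.qb s (y l) := by
      intro y'
      simp only [hc, Prod.mk.injEq, funext_iff]
      refine and_congr_left fun _ => forall_congr' fun j => ?_
      by_cases hj : j = l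
      · simp [hj]
      · simp [hj]
    unfold avg
    have hcard : (D.cB s (y l)).card = (univ.filter fun a' => c a' = c y).card := by
      refine Finset.card_bij (fun b _ => Function.update y l b) ?_ ?_ ?_
      · intro b hb
        rw [Finset.mem_filter, hcy]
        refine ⟨mem_univ _, fun j hj => Function.update_of_ne hj _ _, ?_⟩
        rw [Function.update_self]
        exact (Finset.mem_filter.1 hb).2
      · intro b _ b' _ hbb
        have := congrFun hbb l
        rwa [Function.update_self, Function.update_self] at this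
      · intro y' hy'
        rw [Finset.mem_filter, hcy] at hy'
        refine ⟨y' l, Finset.mem_filter.2 ⟨mem_univ _, hy'.2.2⟩, ?_⟩
        funext j
        by_cases hj : j = l
        · subst hj; rw [Function.update_self]
        · rw [Function.update_of_ne hj, hy'.2.1 j hj]
    rw [hcard]
    congr 1
    refine Finset.sum_bij (fun b _ => Function.update y l b) ?_ ?_ ?_ (fun _ _ => rfl)
    · intro b hb
      rw [Finset.mem_filter, hcy]
      refine ⟨mem_univ _, fun j hj => Function.update_of_ne hj _ _, ?_⟩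
      rw [Function.update_self]
      exact (Finset.mem_filter.1 hb).2
    · intro b _ b' _ hbb
      have := congrFun hbb l
      rwa [Function.update_self, Function.update_self] at this
    · intro y' hy'
      rw [Finset.mem_filter, hcy] at hy'
      refine ⟨y' l, Finset.mem_filter.2 ⟨mem_univ _, hy'.2.2⟩, ?_⟩
      funext j
      by_cases hj : j = l
      · subst hj; rw [Function.update_self]
      · rw [Function.update_of_ne hj, hy'.2.1 j hj]
  have h4 : ∀ y : K → β, ∑ x, D.mean s l x y g = ∑ x, avg (D.cB s (y l)) fun b => g x (Function.update y l b) := by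
    intro y
    have := sum_cA (D := D) s (fun x' => avg (D.cB s (y l)) fun b => g x' (Function.update y l b)) (fun _ => 1)
      (fun _ _ _ => rfl)
    simp only [mul_one] at this
    exact this
  rw [Finset.sum_comm, Finset.sum_congr rfl fun y _ => h4 y, Finset.sum_comm]
  exact Finset.sum_congr rfl fun x _ => h2 x

/-- mean of a function of the points and of one label -/
theorem E_one (t : ℕ) (l : K) (g : X → (K → β) → φ → ℝ) :
    (D.P h t).E (fun w => g w.1 w.2.1 (w.2.2 l)) = (∑ x, ∑ y, ∑ f, g x y f * D.kf t l x y f) / nn X β K := by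
  classical
  obtain ⟨w0, _⟩ := (D.P h t).exists_p_ne
  have e1 : (D.P h t).E (fun w => g w.1 w.2.1 (w.2.2 l)) =
      ∑ f, (D.P h t).E (fun w => g w.1 w.2.1 f * ind (∀ i ∈ ({l} : Finset K), w.2.2 i = (fun _ => f) i)) := by
    rw [← FP.E_sum]
    refine (D.P h t).E_congr fun w _ => ?_
    rw [Finset.sum_eq_single (w.2.2 l)]
    · rw [ind_of (by simp), mul_one]
    · intro f _ hf
      rw [ind_not (by simp only [Finset.mem_singleton, forall_eq]; exact Ne.symm hf), mul_zero]
    · intro hh; exact absurd (mem_univ _) hh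
  rw [e1, Finset.sum_congr rfl fun f _ => E_labels h {l} t (fun x y => g x y f) (fun _ => f), ← Finset.sum_div]
  congr 1
  rw [Finset.sum_comm]
  refine Finset.sum_congr rfl fun x _ => ?_
  rw [Finset.sum_comm]
  refine Finset.sum_congr rfl fun y _ => ?_
  exact Finset.sum_congr rfl fun f _ => by rw [Finset.prod_singleton]

/-- entropy of a label given the points and the node -/
theorem Hc_label (s t : ℕ) (l : K) :
    (D.P h t).Hc (fun w => w.2.2 l) (WW D s) = (∑ x, ∑ y, D.H s t l x y) / nn X β K := by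
  classical
  have hm : ∀ w : Pt K X β φ, (D.P h t).m (fun v => (v.2.2 l, WW D s v)) w =
      (∑ x' ∈ D.cA s w.1, D.kf t l x' w.2.1 (w.2.2 l)) / nn X β K := by
    intro w
    have e : (D.P h t).m (fun v => (v.2.2 l, WW D s v)) w = (D.P h t).E (fun v =>
        ind (v.2.1 = w.2.1 ∧ D.qa s v.1 = D.qa s w.1) * ind (∀ i ∈ ({l} : Finset K), v.2.2 i = w.2.2 i)) := by
      unfold FP.m
      refine (D.P h t).E_congr fun v _ => ?_
      rw [← ind_and]
      refine ind_cg ?_
      simp only [Prod.mk.injEq, WW_eq, Finset.mem_singleton, forall_eq]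
      tauto
    rw [e, E_labels h {l} t (fun x y => ind (y = w.2.1 ∧ D.qa s x = D.qa s w.1)) w.2.2]
    show _ / nn X β K = _ / nn X β K
    congr 1
    rw [HD.cA, Finset.sum_filter]
    refine Finset.sum_congr rfl fun x _ => ?_
    rw [Finset.sum_eq_single w.2.1]
    · rw [Finset.prod_singleton]
      by_cases hx : D.qa s x = D.qa s w.1
      · rw [if_pos hx, ind_of ⟨rfl, hx⟩, one_mul]
      · rw [if_neg hx, ind_not (fun hh => hx hh.2), zero_mul]
    · intro y _ hy
      rw [ind_not (fun hh => hy hh.1), zero_mul]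
    · intro hh; exact absurd (mem_univ _) hh
  have hm2 : ∀ w : Pt K X β φ, (D.P h t).m (WW D s) w = ((D.cA s w.1).card : ℝ) / nn X β K := by
    intro w
    have e : (D.P h t).m (WW D s) w = (D.P h t).E (fun v => ind (v.2.1 = w.2.1 ∧ D.qa s v.1 = D.qa s w.1)) := by
      unfold FP.m
      exact (D.P h t).E_congr fun v _ => ind_cg WW_eq
    rw [e, E_labels0 h t (fun x y => ind (y = w.2.1 ∧ D.qa s x = D.qa s w.1))]
    congr 1
    rw [HD.cA, Finset.card_filter]
    push_cast
    refine Finset.sum_congr rfl fun x _ => ?_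
    rw [Finset.sum_eq_single w.2.1]
    · by_cases hx : D.qa s x = D.qa s w.1
      · rw [if_pos hx, ind_of ⟨rfl, hx⟩]
      · rw [if_neg hx, ind_not (fun hh => hx hh.2)]
    · intro y _ hy
      rw [ind_not (fun hh => hy hh.1)]
    · intro hh; exact absurd (mem_univ _) hh
  have e1 : (D.P h t).Hc (fun w => w.2.2 l) (WW D s) =
      (D.P h t).E (fun w => -Real.log (law (D.cA s w.1) (fun x' => D.kf t l x' w.2.1) (w.2.2 l))) := by
    unfold FP.Hc FP.H
    rw [← FP.E_sub]
    refine (D.P h t).E_congr fun w hw => ?_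
    have p1 := (D.P h t).m_pos (fun v => (v.2.2 l, WW D s v)) hw
    have p2 := (D.P h t).m_pos (WW D s) hw
    have e2 : law (D.cA s w.1) (fun x' => D.kf t l x' w.2.1) (w.2.2 l) =
        (D.P h t).m (fun v => (v.2.2 l, WW D s v)) w / (D.P h t).m (WW D s) w := by
      rw [hm, hm2]
      unfold law avg
      have := (nn_pos (K := K) (X := X) (β := β)).ne'
      field_simp
    rw [e2, Real.log_div p1.ne' p2.ne']
    ring
  rw [e1, E_one h t l (fun x y f => -Real.log (law (D.cA s x) (fun x' => D.kf t l x' y) f))]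
  congr 1
  rw [Finset.sum_comm, Finset.sum_comm (s := univ) (t := univ) (f := fun x y => D.H s t l x y)]
  refine Finset.sum_congr rfl fun y _ => ?_
  rw [Finset.sum_comm]
  have e3 : ∀ f, ∑ x, -Real.log (law (D.cA s x) (fun x' => D.kf t l x' y) f) * D.kf t l x y f =
      ∑ x, Real.negMulLog (law (D.cA s x) (fun x' => D.kf t l x' y) f) := by
    intro f
    have h2 := sum_cA (D := D) s (fun x => D.kf t l x y f)
      (fun x => -Real.log (law (D.cA s x) (fun x' => D.kf t l x' y) f)) (by
        intro a a' haa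
        have : D.cA s a = D.cA s a' := by
          unfold HD.cA; rw [haa]
        rw [this])
    rw [Finset.sum_congr rfl fun x _ => mul_comm _ _, ← h2]
    refine Finset.sum_congr rfl fun x _ => ?_
    unfold Real.negMulLog law
    ring
  rw [Finset.sum_congr rfl fun f _ => e3 f, Finset.sum_comm]
  rfl

/-! ## births -/

/-- entropy of the label at the start -/
noncomputable def birth0 (l : K) : ℝ := (D.P h 0).Hc (fun w => w.2.2 l) (WW D 0)

/-- entropy created at the time `t + 1` -/
noncomputable def birth (prr : ℕ → K → φ → φ) (t : ℕ) (l : K) : ℝ :=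
  (D.P h (t + 1)).Hc (fun w => w.2.2 l) (fun w => (prr t l (w.2.2 l), WW D (t + 1) w))

variable {dg : ℕ → X → ℝ} {prr : ℕ → K → φ → φ} {T : ℕ} {Lam : ℝ}

theorem old_fst (prr : ℕ → K → φ → φ) (t : ℕ) (w : Pt K X β φ) : (old prr t w).1 = w.1 := rfl

theorem WW_old (prr : ℕ → K → φ → φ) (s t : ℕ) (w : Pt K X β φ) : WW D s (old prr t w) = WW D s w := rfl

theorem BB_old (prr : ℕ → K → φ → φ) (s t : ℕ) (J : Finset K) (w : Pt K X β φ) :
    BB D s J (old prr t w) = BB D s J w := rfl

theorem birth_eq (hh : D.Hyp dg prr al T Lam) {t : ℕ} (ht : t < T) (l : K) :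
    birth h prr t l = (∑ x, ∑ y, (D.H (t + 1) (t + 1) l x y - D.H (t + 1) t l x y)) / nn X β K := by
  have h1 := Hc_label h (t + 1) (t + 1) l
  have h2 := Hc_label h (t + 1) t l
  have h3 := push_Hc h (hh.kf_pr t ht) (fun w => w.2.2 l) (WW D (t + 1))
  have h4 : birth h prr t l = (D.P h (t + 1)).Hc (fun w => w.2.2 l) (WW D (t + 1)) -
      (D.P h (t + 1)).Hc (fun w => prr t l (w.2.2 l)) (WW D (t + 1)) := by
    have h5 := (D.P h (t + 1)).Hc_chain (fun w => w.2.2 l) (fun w => prr t l (w.2.2 l)) (WW D (t + 1))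
    have h6 : (D.P h (t + 1)).Hc (fun w => (w.2.2 l, prr t l (w.2.2 l))) (WW D (t + 1)) =
        (D.P h (t + 1)).Hc (fun w => w.2.2 l) (WW D (t + 1)) := by
      refine (D.P h (t + 1)).Hc_congr ?_ (Fac.refl _) ?_ (Fac.refl _)
      · intro v w hvw; simp only [Prod.mk.injEq] at hvw; exact hvw.1.1
      · intro v w hvw
        simp only [Prod.mk.injEq] at hvw ⊢
        exact ⟨hvw.1, by rw [hvw.1]⟩
    unfold birth
    linarith
  have h7 : (D.P h (t + 1)).Hc (fun w => prr t l (w.2.2 l)) (WW D (t + 1)) =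
      (D.P h t).Hc (fun w => w.2.2 l) (WW D (t + 1)) := h3
  rw [h4, h7, h1, h2, ← sub_div, ← Finset.sum_sub_distrib]
  congr 1
  exact Finset.sum_congr rfl fun x _ => by rw [← Finset.sum_sub_distrib]

theorem birth_nonneg (t : ℕ) (l : K) : 0 ≤ birth h prr t l := FP.Hc_nonneg _ _ _

theorem birth0_nonneg (l : K) : 0 ≤ birth0 h l := FP.Hc_nonneg _ _ _

/-- **(H2)** : the entropies created are at most `Lam` -/
theorem birth_le (hh : D.Hyp dg prr al T Lam) (l : K) :
    birth0 h l + ∑ t ∈ range T, birth h prr t l ≤ Lam := by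
  have e1 : birth0 h l + ∑ t ∈ range T, birth h prr t l =
      (∑ x, ∑ y, D.mean 0 l x y (fun x' y' => D.H 0 0 l x' y' +
        ∑ t ∈ Ico 0 T, (D.H (t + 1) (t + 1) l x' y' - D.H (t + 1) t l x' y'))) / nn X β K := by
    rw [sum_mean, birth0, Hc_label h 0 0 l, Finset.sum_congr rfl fun t ht => birth_eq h hh (Finset.mem_range.1 ht) l,
      ← Finset.sum_div, ← add_div]
    congr 1
    rw [Finset.sum_comm (s := range T), Finset.sum_congr rfl fun x _ => Finset.sum_comm, ← Finset.sum_add_distrib]
    refine Finset.sum_congr rfl fun x _ => ?_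
    rw [← Finset.sum_add_distrib]
    refine Finset.sum_congr rfl fun y _ => ?_
    rw [Nat.Ico_zero_eq_range]
  rw [e1, div_le_iff₀ nn_pos]
  have h2 : ∀ x ∈ (univ : Finset X), ∑ y, D.mean 0 l x y (fun x' y' => D.H 0 0 l x' y' +
        ∑ t ∈ Ico 0 T, (D.H (t + 1) (t + 1) l x' y' - D.H (t + 1) t l x' y')) ≤
      (Fintype.card β : ℝ) ^ Fintype.card K * Lam := by
    intro x _
    refine (Finset.sum_le_card_nsmul _ _ Lam fun y _ => hh.H2 0 (Nat.zero_le T) l x y).trans (le_of_eq ?_)
    rw [Finset.card_univ, nsmul_eq_mul, Fintype.card_fun]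
    push_cast
    ring
  refine (Finset.sum_le_card_nsmul _ _ _ h2).trans (le_of_eq ?_)
  rw [Finset.card_univ, nsmul_eq_mul, nn]
  ring

/-! ## the states -/

/-- old classes at the time `t` -/
def Um (v : ℕ → Finset K → X → (K → β) → υ) (t : ℕ) (I : Finset K) (x : X) (y : K → β) : List υ :=
  (List.range t).map fun s => v s I x y

/-- the codes of the time `t` as additions -/
def Vt (v : ℕ → Finset K → X → (K → β) → υ) (t : ℕ) (I : Finset K) (w : Pt K X β φ) : υ := v t I w.1 w.2.1

variable {v : ℕ → Finset K → X → (K → β) → υ}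

theorem Um_succ (v : ℕ → Finset K → X → (K → β) → υ) (t : ℕ) : Um v (t + 1) = fun I x y => UU v I t x y := rfl

theorem Um_eq {t : ℕ} {I : Finset K} {x x' : X} {y y' : K → β} :
    Um v (t + 1) I x y = Um v (t + 1) I x' y' ↔ Um v t I x y = Um v t I x' y' ∧ v t I x y = v t I x' y' := by
  unfold Um
  rw [List.map_inj_left, List.map_inj_left]
  constructor
  · intro h
    exact ⟨fun s hs => h s (List.mem_range.2 (by have := List.mem_range.1 hs; omega)),
      h t (List.mem_range.2 (by omega))⟩
  · rintro ⟨h1, h2⟩ s hs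
    rcases Nat.lt_or_ge s t with h | h
    · exact h1 s (List.mem_range.2 h)
    · have : s = t := by have := List.mem_range.1 hs; omega
      rw [this]; exact h2

/-- the state after the split = the labels with the additions -/
theorem pr_fac {t : ℕ} {J : Finset K} : Fac (pr (LL (φ := φ) (Um v t)) (Vt v t) J) (LL (Um v (t + 1)) J) := by
  intro a b hab
  rw [pr_eq, LL_eq] at hab
  rw [LL_eq, Um_eq]
  exact ⟨⟨hab.1.1, hab.2⟩, hab.1.2⟩

theorem fac_pr {t : ℕ} {J : Finset K} : Fac (LL (φ := φ) (Um v (t + 1)) J) (pr (LL (Um v t)) (Vt v t) J) := by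
  intro a b hab
  rw [LL_eq, Um_eq] at hab
  rw [pr_eq, LL_eq]
  exact ⟨⟨hab.1.1, hab.2⟩, hab.1.2⟩

theorem lo_congr {Om υ' υ'' : Type*} {L : Finset K → Om → υ'} {L' : Finset K → Om → υ''} (h1 : ∀ J, Fac (L J) (L' J))
    (J : Finset K) : Fac (lo L J) (lo L' J) := by
  intro a b hab
  rw [lo_eq] at hab ⊢
  exact fun I hI => h1 I a b (hab I hI)

theorem ent_congr {Om υ' υ'' β' : Type*} [Fintype Om] (P : FP Om) {B : Finset K → Om → β'} {L : Finset K → Om → υ'}
    {L' : Finset K → Om → υ''} (h1 : ∀ J, Fac (L J) (L' J)) (h2 : ∀ J, Fac (L' J) (L J)) (J : Finset K) :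
    GMH.ent P B L J = GMH.ent P B L' J := by
  unfold GMH.ent
  exact P.Hc_congr ((Fac.fst _ _).trans (h1 J)) (((Fac.fst _ _).trans (lo_congr h1 J)).prod (Fac.snd _ _))
    ((Fac.fst _ _).trans (h2 J)) (((Fac.fst _ _).trans (lo_congr h2 J)).prod (Fac.snd _ _))

theorem ent_split (t : ℕ) (J : Finset K) :
    GMH.ent (D.P h t) (BB D t) (pr (LL (Um v t)) (Vt v t)) J = GMH.ent (D.P h t) (BB D t) (LL (Um v (t + 1))) J :=
  ent_congr (D.P h t) (fun _ => pr_fac) (fun _ => fac_pr) J

theorem lo_noLabel {U : Finset K → X → (K → β) → υ} {J : Finset K} (hJ : J ≠ univ) {a b : Pt K X β φ}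
    (h1 : a.1 = b.1) (h2 : a.2.1 = b.2.1) : lo (LL U) J a = lo (LL U) J b := by
  rw [lo_eq]
  intro I hI
  rw [LL_eq]
  refine ⟨by rw [h1, h2], fun l hl => ?_⟩
  exfalso
  subst hl
  refine hJ (Finset.eq_univ_iff_forall.2 fun j => ?_)
  by_cases hj : j = l
  · subst hj
    obtain ⟨i, hi, hi2⟩ := Finset.exists_of_ssubset hI
    have : i = j := by
      by_contra hne
      exact hi2 (Finset.mem_erase.2 ⟨hne, mem_univ i⟩)
    rw [← this]; exact hi
  · exact hI.subset (Finset.mem_erase.2 ⟨hj, mem_univ j⟩)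

/-- missing vertices of an index set (none or one) -/
noncomputable def miss (J : Finset K) : Finset K := univ.filter fun l => univ.erase l = J

theorem mem_miss {J : Finset K} {l : K} : l ∈ miss J ↔ univ.erase l = J := by
  unfold miss
  rw [Finset.mem_filter]
  exact ⟨fun h => h.2, fun h => ⟨mem_univ l, h⟩⟩

theorem erase_inj' {l l' : K} (hl : univ.erase l = univ.erase l') : l = l' := by
  by_contra hne
  have h1 : l ∈ univ.erase l' := Finset.mem_erase.2 ⟨hne, mem_univ l⟩
  rw [← hl] at h1
  exact Finset.notMem_erase l univ h1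

/-- **from the state after the split at `t` to the state before the split at `t + 1`** -/
theorem step_ent (hh : D.Hyp dg prr al T Lam) {t : ℕ} (ht : t < T) {J : Finset K} (hJ : J ≠ univ) :
    GMH.ent (D.P h (t + 1)) (BB D (t + 1)) (LL (Um v (t + 1))) J ≤
      GMH.ent (D.P h t) (BB D t) (LL (Um v (t + 1))) J + ∑ l ∈ miss J, birth h prr t l := by
  set U := Um v (t + 1) with hU
  have hpr := hh.kf_pr t ht
  -- conditioning on the finer node
  have hfin : Fac (BB (φ := φ) D (t + 1) J) (BB D t J) := by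
    intro a b hab
    rw [BB_eq] at hab ⊢
    exact ⟨hab.1, D.ra t _ _ hab.2.1, fun j => D.rb t _ _ (hab.2.2 j)⟩
  have h1 : (D.P h t).Hc (LL U J) (fun w => (lo (LL U) J w, BB D (t + 1) J w)) ≤ GMH.ent (D.P h t) (BB D t) (LL U) J := by
    unfold GMH.ent
    exact (D.P h t).Hc_anti _ ((Fac.fst _ _).prod ((Fac.snd _ _).trans hfin))
  -- the same with the law of the time t+1 and old labels
  have h2 : (D.P h (t + 1)).Hc (fun w => LL U J (old prr t w)) (fun w => (lo (LL U) J w, BB D (t + 1) J w)) =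
      (D.P h t).Hc (LL U J) (fun w => (lo (LL U) J w, BB D (t + 1) J w)) := by
    rw [← push_Hc h hpr (LL U J) (fun w => (lo (LL U) J w, BB D (t + 1) J w))]
    congr 1
    funext w
    have e : lo (LL U) J (old prr t w) = lo (LL U) J w := lo_noLabel hJ rfl rfl
    rw [e, BB_old]
  have h3 : (D.P h (t + 1)).Hc (LL U J) (fun w => (lo (LL U) J w, BB D (t + 1) J w)) ≤
      (D.P h (t + 1)).Hc (fun w => LL U J (old prr t w)) (fun w => (lo (LL U) J w, BB D (t + 1) J w)) +
        ∑ l ∈ miss J, birth h prr t l := by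
    rcases (miss J).eq_empty_or_nonempty with hm | ⟨l, hl⟩
    · rw [hm, Finset.sum_empty, add_zero]
      refine (D.P h (t + 1)).Hc_mono _ ?_
      intro a b hab
      simp only [Prod.mk.injEq, LL_eq] at hab
      rw [LL_eq]
      refine ⟨hab.1.1, fun l hl => ?_⟩
      exact absurd (mem_miss.2 hl) (by rw [hm]; exact Finset.notMem_empty l)
    · have hl' := mem_miss.1 hl
      have hs : miss J = {l} := by
        ext l'
        rw [mem_miss, Finset.mem_singleton]
        constructor
        · intro hl2; exact erase_inj' (hl2.trans hl'.symm)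
        · rintro rfl; exact hl'
      rw [hs, Finset.sum_singleton]
      have h4 := (D.P h (t + 1)).Hc_chain (fun w => w.2.2 l) (fun w => LL U J (old prr t w))
        (fun w => (lo (LL U) J w, BB D (t + 1) J w))
      have h5 : (D.P h (t + 1)).Hc (LL U J) (fun w => (lo (LL U) J w, BB D (t + 1) J w)) ≤
          (D.P h (t + 1)).Hc (fun w => (w.2.2 l, LL U J (old prr t w))) (fun w => (lo (LL U) J w, BB D (t + 1) J w)) := by
        refine (D.P h (t + 1)).Hc_mono _ ?_
        intro a b hab
        simp only [Prod.mk.injEq, LL_eq] at hab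
        rw [LL_eq]
        refine ⟨hab.1.2.1, fun l' hl2 => ?_⟩
        have : l' = l := erase_inj' (hl2.trans hl'.symm)
        subst this
        exact hab.1.1
      have h6 : (D.P h (t + 1)).Hc (fun w => w.2.2 l)
          (fun w => (LL U J (old prr t w), lo (LL U) J w, BB D (t + 1) J w)) ≤
          (D.P h (t + 1)).Hc (fun w => w.2.2 l) (fun w => (prr t l (w.2.2 l), BB D (t + 1) J w)) := by
        refine (D.P h (t + 1)).Hc_anti _ ?_
        intro a b hab
        simp only [Prod.mk.injEq, LL_eq] at hab ⊢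
        exact ⟨hab.1.2 l hl', hab.2.2⟩
      have h7 : (D.P h (t + 1)).Hc (fun w => w.2.2 l) (fun w => (prr t l (w.2.2 l), BB D (t + 1) J w)) =
          birth h prr t l := by
        unfold birth
        refine (Hc_base h (J := J) (t := t + 1) (s := t + 1) le_rfl ?_ ?_).symm
        · intro a b hab
          simp only [Prod.mk.injEq, AA_eq] at hab
          exact hab.1.2 l (by rw [hl'])
        · intro a b hab
          simp only [Prod.mk.injEq, AA_eq] at hab
          show prr t l (a.2.2 l) = prr t l (b.2.2 l)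
          rw [hab.1.2 l (by rw [hl'])]
      linarith
  calc GMH.ent (D.P h (t + 1)) (BB D (t + 1)) (LL U) J =
      (D.P h (t + 1)).Hc (LL U J) (fun w => (lo (LL U) J w, BB D (t + 1) J w)) := rfl
    _ ≤ _ := h3
    _ ≤ _ := by rw [h2]; linarith

/-! ## the budget -/

/-- the index sets of the labels -/
def SS1 (K : Type) [Fintype K] [DecidableEq K] : Finset (Finset K) := univ.filter fun J => J ≠ univ

theorem mem_SS1 {J : Finset K} : J ∈ SS1 K ↔ J ≠ univ := by
  unfold SS1
  rw [Finset.mem_filter]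
  exact ⟨fun h => h.2, fun h => ⟨mem_univ J, h⟩⟩

/-- cost of the split at the time `t` -/
noncomputable def cst (v : ℕ → Finset K → X → (K → β) → υ) (t : ℕ) (J : Finset K) : ℝ :=
  cost (D.P h t) (BB D t) (LL (Um v t)) (Vt v t) J

theorem cst_nonneg (t : ℕ) (J : Finset K) : 0 ≤ cst h v t J := cost_nonneg

/-- the entropies at the start -/
theorem ent_start {J : Finset K} (hJ : J ≠ univ) :
    GMH.ent (D.P h 0) (BB D 0) (LL (Um v 0)) J ≤ ∑ l ∈ miss J, birth0 h l := by
  have hlo : Fac (fun w : Pt K X β φ => BB D 0 J w) (fun w => (lo (LL (Um v 0)) J w, BB D 0 J w)) := by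
    intro a b hab
    refine Prod.ext ?_ hab
    show lo (LL (Um v 0)) J a = lo (LL (Um v 0)) J b
    rw [lo_eq]
    intro I hI
    rw [LL_eq]
    refine ⟨rfl, fun l hl => ?_⟩
    exfalso
    subst hl
    refine hJ (Finset.eq_univ_iff_forall.2 fun j => ?_)
    by_cases hj : j = l
    · subst hj
      obtain ⟨i, hi, hi2⟩ := Finset.exists_of_ssubset hI
      have : i = j := by
        by_contra hne
        exact hi2 (Finset.mem_erase.2 ⟨hne, mem_univ i⟩)
      rw [← this]; exact hi
    · exact hI.subset (Finset.mem_erase.2 ⟨hj, mem_univ j⟩)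
  have e0 : GMH.ent (D.P h 0) (BB D 0) (LL (Um v 0)) J = (D.P h 0).Hc (LL (Um v 0) J) (BB D 0 J) := by
    unfold GMH.ent
    exact (D.P h 0).Hc_congr_right _ (Fac.snd _ _) hlo
  rw [e0]
  rcases (miss J).eq_empty_or_nonempty with hm | ⟨l, hl⟩
  · rw [hm, Finset.sum_empty]
    have e1 : (D.P h 0).Hc (LL (Um v 0) J) (BB D 0 J) ≤ (D.P h 0).Hc (fun _ => ()) (BB D 0 J) := by
      refine (D.P h 0).Hc_mono _ ?_
      intro a b _
      rw [LL_eq]
      exact ⟨rfl, fun l hl => absurd (mem_miss.2 hl) (by rw [hm]; exact Finset.notMem_empty l)⟩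
    have e2 : (D.P h 0).Hc (fun _ => ()) (BB D 0 J) ≤ 0 := by
      refine ((D.P h 0).Hc_le_H _ _).trans (le_of_eq ?_)
      exact (D.P h 0).H_const ()
    exact e1.trans e2
  · have hl' := mem_miss.1 hl
    have hs : miss J = {l} := by
      ext l'
      rw [mem_miss, Finset.mem_singleton]
      constructor
      · intro hl2; exact erase_inj' (hl2.trans hl'.symm)
      · rintro rfl; exact hl'
    rw [hs, Finset.sum_singleton]
    have e1 : (D.P h 0).Hc (LL (Um v 0) J) (BB D 0 J) ≤ (D.P h 0).Hc (fun w => w.2.2 l) (BB D 0 J) := by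
      refine (D.P h 0).Hc_mono _ ?_
      intro a b hab
      simp only [Prod.mk.injEq] at hab
      rw [LL_eq]
      refine ⟨rfl, fun l' hl2 => ?_⟩
      have : l' = l := erase_inj' (hl2.trans hl'.symm)
      subst this
      exact hab.1
    have e2 := Hc_base h (t := 0) (s := 0) (J := J) le_rfl (T := fun w : Pt K X β φ => w.2.2 l) (R := fun _ => ())
      (by
        intro a b hab
        simp only [Prod.mk.injEq, AA_eq] at hab
        exact hab.1.2 l (by rw [hl'])) (Fac.const _ ())
    have e3 : (D.P h 0).Hc (fun w => w.2.2 l) (fun w => ((), BB D 0 J w)) =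
        (D.P h 0).Hc (fun w => w.2.2 l) (BB D 0 J) :=
      (D.P h 0).Hc_congr_right _ (Fac.snd _ _) ((Fac.const _ ()).prod (Fac.refl _))
    have e4 : (D.P h 0).Hc (fun w => w.2.2 l) (fun w => ((), WW D 0 w)) = birth0 h l :=
      (D.P h 0).Hc_congr_right _ (Fac.snd _ _) ((Fac.const _ ()).prod (Fac.refl _))
    rw [e3, e4] at e2
    linarith

/-- **THE BUDGET**: `N J` = prices -/
theorem budget_sum (hh : D.Hyp dg prr al T Lam) {N : Finset K → ℝ} (hN : ∀ J, 0 ≤ N J)
    (hv : ∀ t ≤ T, Phi (D.P h t) (BB D t) N (SS1 K) (LL (Um v t)) (Vt v t) ≤ 0) (n : ℕ) (hn : n ≤ T) :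
    Psi (D.P h n) (BB D n) N (SS1 K) (LL (Um v (n + 1))) + ∑ t ∈ range (n + 1), ∑ J ∈ SS1 K, N J * cst h v t J ≤
      ∑ J ∈ SS1 K, N J * ∑ l ∈ miss J, (birth0 h l + ∑ t ∈ range n, birth h prr t l) := by
  induction n with
  | zero =>
    have h1 := budget (hv 0 (Nat.zero_le T))
    have h2 : Psi (D.P h 0) (BB D 0) N (SS1 K) (pr (LL (Um v 0)) (Vt v 0)) =
        Psi (D.P h 0) (BB D 0) N (SS1 K) (LL (Um v 1)) := by
      unfold Psi
      exact Finset.sum_congr rfl fun J _ => by rw [ent_split]
    rw [h2] at h1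
    have h3 : Psi (D.P h 0) (BB D 0) N (SS1 K) (LL (Um v 0)) ≤ ∑ J ∈ SS1 K, N J * ∑ l ∈ miss J, birth0 h l :=
      Finset.sum_le_sum fun J hJ => mul_le_mul_of_nonneg_left (ent_start h (mem_SS1.1 hJ)) (hN J)
    simp only [zero_add, Finset.range_one, Finset.sum_singleton, Finset.range_zero, Finset.sum_empty, add_zero]
    exact h1.trans h3
  | succ n ih =>
    have hi := ih (by omega)
    have h1 := budget (hv (n + 1) hn)
    have h2 : Psi (D.P h (n + 1)) (BB D (n + 1)) N (SS1 K) (pr (LL (Um v (n + 1))) (Vt v (n + 1))) =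
        Psi (D.P h (n + 1)) (BB D (n + 1)) N (SS1 K) (LL (Um v (n + 1 + 1))) := by
      unfold Psi
      exact Finset.sum_congr rfl fun J _ => by rw [ent_split]
    rw [h2] at h1
    have h3 : Psi (D.P h (n + 1)) (BB D (n + 1)) N (SS1 K) (LL (Um v (n + 1))) ≤
        Psi (D.P h n) (BB D n) N (SS1 K) (LL (Um v (n + 1))) + ∑ J ∈ SS1 K, N J * ∑ l ∈ miss J, birth h prr n l := by
      unfold Psi
      rw [← Finset.sum_add_distrib]
      refine Finset.sum_le_sum fun J hJ => ?_
      rw [← mul_add]
      exact mul_le_mul_of_nonneg_left (step_ent h hh (by omega) (mem_SS1.1 hJ)) (hN J)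
    rw [Finset.sum_range_succ _ (n + 1)]
    have h4 : ∑ J ∈ SS1 K, N J * ∑ l ∈ miss J, (birth0 h l + ∑ t ∈ range (n + 1), birth h prr t l) =
        ∑ J ∈ SS1 K, N J * ∑ l ∈ miss J, (birth0 h l + ∑ t ∈ range n, birth h prr t l) +
          ∑ J ∈ SS1 K, N J * ∑ l ∈ miss J, birth h prr n l := by
      rw [← Finset.sum_add_distrib]
      refine Finset.sum_congr rfl fun J _ => ?_
      rw [← mul_add, ← Finset.sum_add_distrib]
      congr 1
      refine Finset.sum_congr rfl fun l _ => ?_
      rw [Finset.sum_range_succ]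
      ring
    rw [h4]
    have h5 : ∑ J ∈ SS1 K, N J * cst h v (n + 1) J =
        ∑ J ∈ SS1 K, N J * cost (D.P h (n + 1)) (BB D (n + 1)) (LL (Um v (n + 1))) (Vt v (n + 1)) J := rfl
    rw [h5]
    linarith

theorem birth_sum_le (hh : D.Hyp dg prr al T Lam) {n : ℕ} (hn : n ≤ T) (l : K) :
    birth0 h l + ∑ t ∈ range n, birth h prr t l ≤ Lam := by
  refine le_trans ?_ (birth_le h hh l)
  have : ∑ t ∈ range n, birth h prr t l ≤ ∑ t ∈ range T, birth h prr t l :=
    Finset.sum_le_sum_of_subset_of_nonneg (Finset.range_mono hn) fun t _ _ => birth_nonneg h t l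
  linarith

/-- the input of the budget, top prices at most `Ntop` -/
theorem input_le (hh : D.Hyp dg prr al T Lam) {N : Finset K → ℝ} {Ntop : ℝ} (hN : ∀ J, 0 ≤ N J)
    (hN2 : ∀ l, N (univ.erase l) ≤ Ntop) {n : ℕ} (hn : n ≤ T) :
    ∑ J ∈ SS1 K, N J * ∑ l ∈ miss J, (birth0 h l + ∑ t ∈ range n, birth h prr t l) ≤
      Fintype.card K * (Ntop * Lam) := by
  have hL : 0 ≤ Lam := le_trans zero_le_one hh.Lam1
  have h1 : ∀ J ∈ SS1 K, N J * ∑ l ∈ miss J, (birth0 h l + ∑ t ∈ range n, birth h prr t l) ≤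
      ∑ l ∈ miss J, Ntop * Lam := by
    intro J _
    rw [Finset.mul_sum]
    refine Finset.sum_le_sum fun l hl => ?_
    have h2 := birth_sum_le h hh hn l
    have h3 : N J ≤ Ntop := by rw [← mem_miss.1 hl]; exact hN2 l
    exact (mul_le_mul_of_nonneg_left h2 (hN J)).trans (mul_le_mul_of_nonneg_right h3 hL)
  refine (Finset.sum_le_sum h1).trans (le_of_eq ?_)
  have h2 : ∑ J ∈ SS1 K, ∑ l ∈ miss J, Ntop * Lam = ∑ l : K, ∑ J ∈ SS1 K, (if univ.erase l = J then Ntop * Lam else 0) := by
    rw [Finset.sum_comm]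
    refine Finset.sum_congr rfl fun J _ => ?_
    unfold miss
    rw [Finset.sum_filter]
  rw [h2]
  have h3 : ∀ l : K, ∑ J ∈ SS1 K, (if univ.erase l = J then Ntop * Lam else 0) = Ntop * Lam := by
    intro l
    rw [Finset.sum_ite_eq, if_pos (mem_SS1.2 (ne_univ l))]
  rw [Finset.sum_congr rfl fun l _ => h3 l, Finset.sum_const, Finset.card_univ, nsmul_eq_mul]

/-- **costs of every index set** -/
theorem cost_le (hh : D.Hyp dg prr al T Lam) {N : Finset K → ℝ} {Ntop : ℝ} (hN : ∀ J, 0 < N J)
    (hN2 : ∀ l, N (univ.erase l) ≤ Ntop)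
    (hv : ∀ t ≤ T, Phi (D.P h t) (BB D t) N (SS1 K) (LL (Um v t)) (Vt v t) ≤ 0) {J : Finset K} (hJ : J ≠ univ) :
    ∑ t ∈ range (T + 1), cst h v t J ≤ Fintype.card K * (Ntop * Lam) / N J := by
  have h1 := budget_sum h hh (fun J => (hN J).le) hv T le_rfl
  have h2 := input_le h hh (fun J => (hN J).le) hN2 (le_refl T)
  have h3 : 0 ≤ Psi (D.P h T) (BB D T) N (SS1 K) (LL (Um v (T + 1))) :=
    Finset.sum_nonneg fun J _ => mul_nonneg (hN J).le ent_nonneg
  rw [le_div_iff₀ (hN J), Finset.sum_mul]
  have h4 : ∑ t ∈ range (T + 1), cst h v t J * N J ≤ ∑ t ∈ range (T + 1), ∑ J ∈ SS1 K, N J * cst h v t J := by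
    refine Finset.sum_le_sum fun t _ => ?_
    rw [mul_comm]
    exact Finset.single_le_sum (f := fun J => N J * cst h v t J)
      (fun J _ => mul_nonneg (hN J).le (cst_nonneg h t J)) (mem_SS1.2 hJ)
  linarith

end bud

end Pool.Agent.GMH
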