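import Pool.Agent.M3.FPInfo
import Pool.Agent.M3.FPMart

/-!
# GMH.CK1: clocks with an arbitrary end condition (helper27)

`C ν k w` : the epoch which started at `ν` ends at `k`.  `stg C k` : start of the current epoch (`stg 0 = 0`).
Epochs, measurability, sum over the epochs.  `ends_mass` : ends at which the conditional mass of a list is at least `kp`: the
true point is in the list with probability at least `kp`.  `cnt_in` : epochs which contain an event are at most the events.
`up_le` : epochs which start with `X < a` and reach `X ≥ b` (upcrossings).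
-/

set_option autoImplicit false
set_option linter.unusedSectionVars false

namespace Pool.Agent.GMH.CK

open Finset Pool.Agent.PWZ Pool.Agent.M3

section clock

variable {Om : Type*} (C : ℕ → ℕ → Om → Prop)

open Classical in
/-- start of the current epoch -/
noncomputable def stg : ℕ → Om → ℕ
  | 0 => fun _ => 0
  | k + 1 => fun w => if C (stg k w) (k + 1) w then k + 1 else stg k w

variable {C}

theorem stg_zero (w : Om) : stg C 0 w = 0 := rfl

theorem stg_pos {k : ℕ} {w : Om} (h : C (stg C k w) (k + 1) w) : stg C (k + 1) w = k + 1 := by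
  classical
  show (if _ then _ else _) = _
  exact if_pos h

theorem stg_neg {k : ℕ} {w : Om} (h : ¬ C (stg C k w) (k + 1) w) : stg C (k + 1) w = stg C k w := by
  classical
  show (if _ then _ else _) = _
  exact if_neg h

theorem stg_or (k : ℕ) (w : Om) : stg C (k + 1) w = k + 1 ∨ stg C (k + 1) w = stg C k w := by
  by_cases h : C (stg C k w) (k + 1) w
  · exact Or.inl (stg_pos h)
  · exact Or.inr (stg_neg h)

theorem stg_le (k : ℕ) (w : Om) : stg C k w ≤ k := by
  induction k with
  | zero => exact le_of_eq (stg_zero w)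
  | succ k ih =>
    rcases stg_or (C := C) k w with h | h
    · exact le_of_eq h
    · rw [h]
      omega

theorem stg_end {k : ℕ} {w : Om} (h : stg C (k + 1) w = k + 1) : C (stg C k w) (k + 1) w := by
  by_contra h2
  have h3 := stg_neg h2
  have h4 := stg_le (C := C) k w
  omega

theorem stg_iff {k : ℕ} {w : Om} : stg C (k + 1) w = k + 1 ↔ C (stg C k w) (k + 1) w := ⟨stg_end, stg_pos⟩

theorem stg_idem (k : ℕ) (w : Om) : stg C (stg C k w) w = stg C k w := by
  induction k with
  | zero => rw [stg_zero, stg_zero]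
  | succ k ih =>
    rcases stg_or (C := C) k w with h | h
    · rw [h, h]
    · rw [h, ih]

theorem stg_mid {k ν j : ℕ} {w : Om} (h : stg C k w = ν) (h1 : ν ≤ j) (h2 : j ≤ k) : stg C j w = ν := by
  induction k with
  | zero =>
    obtain rfl : j = 0 := by omega
    exact h
  | succ k ih =>
    rcases Nat.eq_or_lt_of_le h2 with h3 | h3
    · rw [h3]
      exact h
    · rcases stg_or (C := C) k w with h4 | h4
      · omega
      · exact ih (by rw [← h4]; exact h) (by omega)

/-- inside an epoch the end condition fails -/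
theorem stg_in {k j : ℕ} {w : Om} (h1 : stg C k w < j) (h2 : j ≤ k) : ¬ C (stg C k w) j w := by
  intro h
  obtain ⟨i, rfl⟩ : ∃ i, j = i + 1 := ⟨j - 1, by omega⟩
  have h3 : stg C i w = stg C k w := stg_mid rfl (by omega) (by omega)
  have h4 : stg C (i + 1) w = stg C k w := stg_mid rfl (by omega) h2
  have h5 := stg_pos (C := C) (k := i) (w := w) (by rw [h3]; exact h)
  omega

theorem stg_mono {j k : ℕ} (hjk : j ≤ k) (w : Om) : stg C j w ≤ stg C k w := by
  induction k, hjk using Nat.le_induction with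
  | base => exact le_rfl
  | succ k hk ih =>
    rcases stg_or (C := C) k w with h | h
    · rw [h]
      exact (stg_le j w).trans (by omega)
    · rw [h]
      exact ih

theorem stg_fac {κ : Type*} {N : ℕ → Om → κ} (hN : ∀ k, Fac (N (k + 1)) (N k))
    (hC : ∀ ν k, ν ≤ k → ∀ a b, N (k + 1) a = N (k + 1) b → (C ν (k + 1) a ↔ C ν (k + 1) b)) (k : ℕ) : Fac (N k) (stg C k) := by
  induction k with
  | zero =>
    intro a b _
    rw [stg_zero, stg_zero]
  | succ k ih =>
    intro a b hab
    have h0 := ih a b (hN k a b hab)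
    have h1 := hC (stg C k a) k (stg_le k a) a b hab
    by_cases h : C (stg C k a) (k + 1) a
    · have h2 : C (stg C k b) (k + 1) b := by
        rw [← h0]
        exact h1.1 h
      rw [stg_pos h, stg_pos h2]
    · have h2 : ¬ C (stg C k b) (k + 1) b := by
        rw [← h0]
        exact fun hh => h (h1.2 hh)
      rw [stg_neg h, stg_neg h2]
      exact h0

/-- every time belongs to one epoch -/
theorem sum_epochs (T : ℕ) (f : ℕ → ℝ) (w : Om) : ∑ k ∈ range T, f k =
    ∑ ν ∈ range T, ind (stg C ν w = ν) * ∑ k ∈ Ico ν T, ind (stg C k w = ν) * f k := by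
  have h1 : ∀ ν ∈ range T, ind (stg C ν w = ν) *
      ∑ k ∈ Ico ν T, ind (stg C k w = ν) * f k =
      ∑ k ∈ range T, ind (stg C k w = ν) * f k := by
    intro ν hν
    have hν' := Finset.mem_range.1 hν
    have h2 : ∑ k ∈ Ico ν T, ind (stg C k w = ν) * f k = ∑ k ∈ range T, ind (stg C k w = ν) * f k := by
      refine Finset.sum_subset (fun k hk => Finset.mem_range.2 (Finset.mem_Ico.1 hk).2) fun k hk hk2 => ?_
      have hk' := Finset.mem_range.1 hk
      have h3 : k < ν := by
        by_contra h4
        exact hk2 (Finset.mem_Ico.2 ⟨not_lt.1 h4, hk'⟩)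
      have h4 := stg_le (C := C) k w
      rw [ind_not (by omega), zero_mul]
    rw [h2]
    by_cases h3 : stg C ν w = ν
    · rw [ind_of h3, one_mul]
    · rw [ind_not h3, zero_mul]
      symm
      refine Finset.sum_eq_zero fun k _ => ?_
      by_cases h4 : stg C k w = ν
      · exfalso
        refine h3 ?_
        have h5 := stg_idem (C := C) k w
        rw [h4] at h5
        exact h5
      · rw [ind_not h4, zero_mul]
  rw [Finset.sum_congr rfl h1, Finset.sum_comm]
  refine Finset.sum_congr rfl fun k hk => ?_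
  have hk' := Finset.mem_range.1 hk
  have h4 := stg_le (C := C) k w
  rw [Finset.sum_eq_single (stg C k w), ind_of rfl, one_mul]
  · intro ν _ hν
    rw [ind_not fun h => hν h.symm, zero_mul]
  · intro h
    exact absurd (Finset.mem_range.2 (by omega)) h

/-- **epochs which contain an event are at most the events** : at the end `k + 1` of the epoch there is an event `R j` with
`stg k < j ≤ k + 1` -/
theorem cnt_in (T : ℕ) (R : ℕ → Prop) (w : Om) :
    ∑ k ∈ range T, ind (stg C (k + 1) w = k + 1 ∧ ∃ j, stg C k w < j ∧ j ≤ k + 1 ∧ R j) ≤ ∑ j ∈ range T, ind (R (j + 1)) := by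
  have h1 : ∀ k ∈ range T, ind (stg C (k + 1) w = k + 1 ∧ ∃ j, stg C k w < j ∧ j ≤ k + 1 ∧ R j) ≤
      ∑ j ∈ range T, ind (stg C (k + 1) w = k + 1 ∧ stg C k w ≤ j ∧ j ≤ k) * ind (R (j + 1)) := by
    intro k hk
    have hk' := mem_range.1 hk
    by_cases h : stg C (k + 1) w = k + 1 ∧ ∃ j, stg C k w < j ∧ j ≤ k + 1 ∧ R j
    · obtain ⟨h2, j, h3, h4, h5⟩ := h
      obtain ⟨i, rfl⟩ : ∃ i, j = i + 1 := ⟨j - 1, by omega⟩
      rw [ind_of ⟨h2, i + 1, h3, h4, h5⟩]
      have h6 : ind (stg C (k + 1) w = k + 1 ∧ stg C k w ≤ i ∧ i ≤ k) * ind (R (i + 1)) = 1 := by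
        rw [ind_of ⟨h2, by omega, by omega⟩, ind_of h5, one_mul]
      rw [← h6]
      exact single_le_sum (f := fun j => ind (stg C (k + 1) w = k + 1 ∧ stg C k w ≤ j ∧ j ≤ k) * ind (R (j + 1)))
        (fun j _ => mul_nonneg (ind_nonneg _) (ind_nonneg _)) (mem_range.2 (by omega))
    · rw [ind_not h]
      exact sum_nonneg fun j _ => mul_nonneg (ind_nonneg _) (ind_nonneg _)
  refine (sum_le_sum h1).trans ?_
  rw [sum_comm]
  refine sum_le_sum fun j _ => ?_
  rw [← sum_mul]
  have h2 : ∑ k ∈ range T, ind (stg C (k + 1) w = k + 1 ∧ stg C k w ≤ j ∧ j ≤ k) ≤ 1 := by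
    by_cases h : ∃ k ∈ range T, stg C (k + 1) w = k + 1 ∧ stg C k w ≤ j ∧ j ≤ k
    · obtain ⟨k0, hk0, h3, h4, h5⟩ := h
      rw [sum_eq_single k0]
      · exact ind_le_one _
      · intro k _ hne
        refine ind_not ?_
        rintro ⟨h6, h7, h8⟩
        rcases Nat.lt_or_gt_of_ne hne with h9 | h9
        · have := stg_mono (C := C) (show k + 1 ≤ k0 by omega) w
          omega
        · have := stg_mono (C := C) (show k0 + 1 ≤ k by omega) w
          omega
      · intro h6
        exact absurd hk0 h6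
    · refine le_trans (le_of_eq (sum_eq_zero fun k hk => ?_)) zero_le_one
      exact ind_not fun hh => h ⟨k, hk, hh⟩
  calc _ ≤ 1 * ind (R (j + 1)) := mul_le_mul_of_nonneg_right h2 (ind_nonneg _)
    _ = _ := one_mul _

end clock

section mass

variable {Om : Type*} [Fintype Om] {P : FP Om} {κ : Type*} {N : ℕ → Om → κ} {C : ℕ → ℕ → Om → Prop}
  {Ls : ℕ → ℕ → Om → Prop} {kp : ℝ}

/-- **ends of the first kind** : the conditional mass of the list is at least `kp`, so the true point is in the list -/
theorem ends_mass (hN : ∀ k, Fac (N (k + 1)) (N k)) (hs : ∀ k, Fac (N k) (stg C k)) (k : ℕ) :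
    kp * P.Pr (fun w => stg C (k + 1) w = k + 1 ∧ kp ≤ P.ce (N (k + 1)) (fun u => ind (Ls (stg C k w) (k + 1) u)) w) ≤
      P.Pr (fun w => stg C (k + 1) w = k + 1 ∧ Ls (stg C k w) (k + 1) w) := by
  set E : Om → Prop := fun w => stg C (k + 1) w = k + 1 ∧
    kp ≤ P.ce (N (k + 1)) (fun u => ind (Ls (stg C k w) (k + 1) u)) w with hE
  have hsk : Fac (N (k + 1)) (stg C k) := fun a b hab => hs k a b (hN k a b hab)
  have fE : Fac (N (k + 1)) E := by
    intro a b hab
    have h1 := hs (k + 1) a b hab
    have h2 := hsk a b hab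
    show (stg C (k + 1) a = k + 1 ∧ kp ≤ P.ce (N (k + 1)) (fun u => ind (Ls (stg C k a) (k + 1) u)) a) =
      (stg C (k + 1) b = k + 1 ∧ kp ≤ P.ce (N (k + 1)) (fun u => ind (Ls (stg C k b) (k + 1) u)) b)
    rw [h1, h2, P.ce_fac (N (k + 1)) _ a b hab]
  have h1 : P.E (fun w => ind (E w) * P.ce (N (k + 1)) (fun u => ind (Ls (stg C k u) (k + 1) u)) w) =
      P.E (fun w => ind (E w) * ind (Ls (stg C k w) (k + 1) w)) :=
    P.E_mul_ce (Fac.ind fun a b hab => by rw [fE a b hab]) _
  have h2 : kp * P.Pr E ≤ P.E (fun w => ind (E w) * P.ce (N (k + 1)) (fun u => ind (Ls (stg C k u) (k + 1) u)) w) := by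
    unfold FP.Pr
    rw [← P.E_smul]
    refine P.E_mono fun w _ => ?_
    by_cases hw : E w
    · rw [ind_of hw, mul_one, one_mul]
      refine hw.2.trans (le_of_eq ?_)
      unfold FP.ce
      congr 1
      refine P.E_congr fun u _ => ?_
      by_cases hu : N (k + 1) u = N (k + 1) w
      · show _ * ind (Ls (stg C k w) (k + 1) u) = _ * ind (Ls (stg C k u) (k + 1) u)
        rw [hsk u w hu]
      · rw [ind_not hu]
        ring
    · rw [ind_not hw, mul_zero, zero_mul]
  refine h2.trans ((le_of_eq h1).trans ?_)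
  unfold FP.Pr
  refine P.E_mono fun w _ => ?_
  rw [← ind_and]
  exact ind_mono fun hh => ⟨hh.1.1, hh.2⟩

end mass

end Pool.Agent.GMH.CK
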