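import Pool.Agent.GMH.CK1
import Pool.Agent.GMH.TD1

/-!
# GMH.CK2: number of the ends of a clock (helper27)

* `cnt_st` : a property of the starts, counted at the ends; `ends_p2` : ends at which the conditional probability of a fixed
  (read at the start) event has reached `z`; `ends_mv` : ends at which the conditional mass of the moved points is at least
  `kp`, bounded by the totals (`TD1.moves_a`, `moves_b`).
-/

set_option autoImplicit false
set_option linter.unusedSectionVars false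

namespace Pool.Agent.GMH.CK

open Finset Pool.Agent.PWZ Pool.Agent.M3 Pool.Agent.GMH.TD

section starts

variable {Om : Type*} {C : ℕ → ℕ → Om → Prop}

theorem cnt_st (T : ℕ) (A : ℕ → Prop) (w : Om) :
    ∑ k ∈ range T, ind (stg C (k + 1) w = k + 1 ∧ A (stg C k w)) ≤ ∑ ν ∈ range T, ind (stg C ν w = ν ∧ A ν) := by
  have h1 : ∀ k ∈ range T, ind (stg C (k + 1) w = k + 1 ∧ A (stg C k w)) ≤
      ∑ ν ∈ range T, ind (stg C (k + 1) w = k + 1 ∧ stg C k w = ν) * ind (stg C ν w = ν ∧ A ν) := by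
    intro k hk
    have hk' := mem_range.1 hk
    by_cases h : stg C (k + 1) w = k + 1 ∧ A (stg C k w)
    · rw [ind_of h]
      have h2 := stg_le (C := C) k w
      have h6 : ind (stg C (k + 1) w = k + 1 ∧ stg C k w = stg C k w) *
          ind (stg C (stg C k w) w = stg C k w ∧ A (stg C k w)) = 1 := by
        rw [ind_of ⟨h.1, rfl⟩, ind_of ⟨stg_idem k w, h.2⟩, one_mul]
      rw [← h6]
      exact single_le_sum (f := fun ν => ind (stg C (k + 1) w = k + 1 ∧ stg C k w = ν) * ind (stg C ν w = ν ∧ A ν))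
        (fun j _ => mul_nonneg (ind_nonneg _) (ind_nonneg _)) (mem_range.2 (by omega))
    · rw [ind_not h]
      exact sum_nonneg fun j _ => mul_nonneg (ind_nonneg _) (ind_nonneg _)
  refine (sum_le_sum h1).trans ?_
  rw [sum_comm]
  refine sum_le_sum fun ν _ => ?_
  rw [← sum_mul]
  have h2 : ∑ k ∈ range T, ind (stg C (k + 1) w = k + 1 ∧ stg C k w = ν) ≤ 1 := by
    by_cases h : ∃ k ∈ range T, stg C (k + 1) w = k + 1 ∧ stg C k w = ν
    · obtain ⟨k0, hk0, h3, h4⟩ := h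
      rw [sum_eq_single k0]
      · exact ind_le_one _
      · intro k _ hne
        refine ind_not ?_
        rintro ⟨h6, h7⟩
        rcases Nat.lt_or_gt_of_ne hne with h9 | h9
        · have := stg_mono (C := C) (show k + 1 ≤ k0 by omega) w
          have := stg_le (C := C) k w
          omega
        · have := stg_mono (C := C) (show k0 + 1 ≤ k by omega) w
          have := stg_le (C := C) k0 w
          omega
      · intro h6
        exact absurd hk0 h6
    · refine le_trans (le_of_eq (sum_eq_zero fun k hk => ?_)) zero_le_one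
      exact ind_not fun hh => h ⟨k, hk, hh⟩
  calc _ ≤ 1 * ind (stg C ν w = ν ∧ A ν) := mul_le_mul_of_nonneg_right h2 (ind_nonneg _)
    _ = _ := one_mul _

end starts

section mass

variable {Om : Type*} [Fintype Om] {P : FP Om} {κ : Type*} {N : ℕ → Om → κ} {C : ℕ → ℕ → Om → Prop}

/-- **ends at which the probability of an event read at the start has reached `z`** -/
theorem ends_p2 (hN : ∀ k, Fac (N (k + 1)) (N k)) (hs : ∀ k, Fac (N k) (stg C k)) (A : ℕ → Om → Prop) {z : ℝ} (T : ℕ) :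
    z * ∑ k ∈ range T, P.Pr (fun w => stg C (k + 1) w = k + 1 ∧
      z ≤ P.ce (N (k + 1)) (fun u => ind (A (stg C k w) u)) w) ≤
      ∑ ν ∈ range T, P.Pr (fun w => stg C ν w = ν ∧ A ν w) := by
  rw [mul_sum]
  have h1 : ∀ k ∈ range T, z * P.Pr (fun w => stg C (k + 1) w = k + 1 ∧
      z ≤ P.ce (N (k + 1)) (fun u => ind (A (stg C k w) u)) w) ≤
      P.Pr (fun w => stg C (k + 1) w = k + 1 ∧ A (stg C k w) w) := fun k _ =>
    ends_mass (Ls := fun ν _ u => A ν u) hN hs k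
  refine (sum_le_sum h1).trans ?_
  unfold FP.Pr
  rw [← P.E_sum, ← P.E_sum]
  exact P.E_mono fun w _ => cnt_st T (fun ν => A ν w) w

/-- the growing list is entered by a restart of another clock -/
theorem ends_in (R : ℕ → Om → Prop) (T : ℕ) :
    ∑ k ∈ range T, P.Pr (fun w => stg C (k + 1) w = k + 1 ∧ ∃ j, stg C k w < j ∧ j ≤ k + 1 ∧ R j w) ≤
      ∑ j ∈ range T, P.Pr (R (j + 1)) := by
  unfold FP.Pr
  rw [← P.E_sum, ← P.E_sum]
  exact P.E_mono fun w _ => cnt_in T (fun j => R j w) w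

variable {ι : Type*} {lam' η' : ι → Type*} {Lf : ∀ i, ℕ → Om → lam' i} {Yf : ∀ i, Om → η' i} {δ : ℝ}

/-- **ends at which the true point has moved** (finite family of letters) -/
theorem ends_mv [Fintype ι] (hN : ∀ k, Fac (N (k + 1)) (N k)) (hs : ∀ k, Fac (N k) (stg C k))
    (hL : ∀ i k, Fac (Lf i (k + 1)) (Lf i k)) (hY : ∀ i k, Fac (Lf i k) (Yf i)) (hδ : 0 < δ) (hδ1 : δ ≤ 1) (T : ℕ)
    {Tot : ℝ} (hA : ∀ i, ∑ k ∈ range T, P.E (ai P N (Lf i) (Yf i) k) ≤ Tot)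
    (hB : ∀ i, ∑ k ∈ range T, P.E (bi P N (Lf i) (Yf i) k) ≤ Tot) :
    ∑ k ∈ range T, P.Pr (fun w => stg C (k + 1) w = k + 1 ∧ Mvd P N Lf Yf δ (stg C k w) (k + 1) w) ≤
      Fintype.card ι * (4 / δ ^ 2 * Tot) := by
  classical
  have h0 : ∀ k ∈ range T, P.Pr (fun w => stg C (k + 1) w = k + 1 ∧ Mvd P N Lf Yf δ (stg C k w) (k + 1) w) ≤
      ∑ i, (P.Pr (fun w => stg C (k + 1) w = k + 1 ∧ δ ≤ |∑ j ∈ Ico (stg C k w) (k + 1), ai P N (Lf i) (Yf i) j w|) +
        P.Pr (fun w => stg C (k + 1) w = k + 1 ∧ δ ≤ ∑ j ∈ Ico (stg C k w) (k + 1), bi P N (Lf i) (Yf i) j w)) := by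
    intro k _
    unfold FP.Pr
    have e1 : ∀ i, P.E (fun w => ind (stg C (k + 1) w = k + 1 ∧ δ ≤ |∑ j ∈ Ico (stg C k w) (k + 1), ai P N (Lf i) (Yf i) j w|)) +
        P.E (fun w => ind (stg C (k + 1) w = k + 1 ∧ δ ≤ ∑ j ∈ Ico (stg C k w) (k + 1), bi P N (Lf i) (Yf i) j w)) =
        P.E (fun w => ind (stg C (k + 1) w = k + 1 ∧ δ ≤ |∑ j ∈ Ico (stg C k w) (k + 1), ai P N (Lf i) (Yf i) j w|) +
          ind (stg C (k + 1) w = k + 1 ∧ δ ≤ ∑ j ∈ Ico (stg C k w) (k + 1), bi P N (Lf i) (Yf i) j w)) := fun i =>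
      (P.E_add _ _).symm
    rw [sum_congr rfl fun i _ => e1 i, ← P.E_sum]
    refine P.E_mono fun w _ => ?_
    by_cases h : stg C (k + 1) w = k + 1 ∧ Mvd P N Lf Yf δ (stg C k w) (k + 1) w
    · obtain ⟨h1, i, h2⟩ := h
      rw [ind_of ⟨h1, i, h2⟩]
      refine le_trans ?_ (single_le_sum (f := fun i =>
        ind (stg C (k + 1) w = k + 1 ∧ δ ≤ |∑ j ∈ Ico (stg C k w) (k + 1), ai P N (Lf i) (Yf i) j w|) +
          ind (stg C (k + 1) w = k + 1 ∧ δ ≤ ∑ j ∈ Ico (stg C k w) (k + 1), bi P N (Lf i) (Yf i) j w))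
        (fun i _ => add_nonneg (ind_nonneg _) (ind_nonneg _)) (mem_univ i))
      show 1 ≤ ind (stg C (k + 1) w = k + 1 ∧ δ ≤ |∑ j ∈ Ico (stg C k w) (k + 1), ai P N (Lf i) (Yf i) j w|) +
          ind (stg C (k + 1) w = k + 1 ∧ δ ≤ ∑ j ∈ Ico (stg C k w) (k + 1), bi P N (Lf i) (Yf i) j w)
      rcases h2 with h2 | h2
      · rw [ind_of ⟨h1, h2⟩]
        linarith [ind_nonneg (stg C (k + 1) w = k + 1 ∧ δ ≤ ∑ j ∈ Ico (stg C k w) (k + 1), bi P N (Lf i) (Yf i) j w)]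
      · rw [ind_of (⟨h1, h2⟩ : stg C (k + 1) w = k + 1 ∧
          δ ≤ ∑ j ∈ Ico (stg C k w) (k + 1), bi P N (Lf i) (Yf i) j w)]
        linarith [ind_nonneg (stg C (k + 1) w = k + 1 ∧ δ ≤ |∑ j ∈ Ico (stg C k w) (k + 1), ai P N (Lf i) (Yf i) j w|)]
    · rw [ind_not h]
      exact sum_nonneg fun i _ => add_nonneg (ind_nonneg _) (ind_nonneg _)
  refine (sum_le_sum h0).trans ?_
  rw [sum_comm]
  have h2 : ∀ i ∈ (univ : Finset ι), ∑ k ∈ range T,
      (P.Pr (fun w => stg C (k + 1) w = k + 1 ∧ δ ≤ |∑ j ∈ Ico (stg C k w) (k + 1), ai P N (Lf i) (Yf i) j w|) +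
        P.Pr (fun w => stg C (k + 1) w = k + 1 ∧ δ ≤ ∑ j ∈ Ico (stg C k w) (k + 1), bi P N (Lf i) (Yf i) j w)) ≤
      4 / δ ^ 2 * Tot := by
    intro i _
    rw [sum_add_distrib]
    have h3 := moves_a (P := P) (N := N) (L := Lf i) (Y := Yf i) (st := stg C) hN (hL i) (hY i) (fun w => stg_zero w)
      (fun k w => stg_or k w) hs hδ hδ1 T
    have h4 := moves_b (P := P) (N := N) (L := Lf i) (Y := Yf i) (st := stg C) (hL i) (fun w => stg_zero w)
      (fun k w => stg_or k w) hδ T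
    have hd2 : 0 < δ ^ 2 := by positivity
    have hT0 : 0 ≤ Tot := le_trans (sum_nonneg fun k _ => P.E_nonneg fun w hw => bi_nonneg P (hL i) k hw) (hB i)
    have h5 : 3 / δ ^ 2 * ∑ k ∈ range T, P.E (ai P N (Lf i) (Yf i) k) ≤ 3 / δ ^ 2 * Tot :=
      mul_le_mul_of_nonneg_left (hA i) (by positivity)
    have h6 : 1 / δ * ∑ k ∈ range T, P.E (bi P N (Lf i) (Yf i) k) ≤ 1 / δ ^ 2 * Tot := by
      have h7 : 1 / δ ≤ 1 / δ ^ 2 := by
        refine one_div_le_one_div_of_le hd2 ?_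
        nlinarith
      exact (mul_le_mul_of_nonneg_left (hB i) (by positivity)).trans (mul_le_mul_of_nonneg_right h7 hT0)
    have h7 : 4 / δ ^ 2 * Tot = 3 / δ ^ 2 * Tot + 1 / δ ^ 2 * Tot := by ring
    rw [h7]
    exact add_le_add (h3.trans h5) (h4.trans h6)
  refine (sum_le_sum h2).trans (le_of_eq ?_)
  rw [sum_const, card_univ, nsmul_eq_mul]

end mass

end Pool.Agent.GMH.CK
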