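import Pool.Agent.GMH.CK1

/-!
# GMH.CK2U: upcrossings of the epochs (helper7, stub of helper27)

`X k` (seen by `M k`), between `0` and `1`, its conditional mean grows at most by the conditional mean of `g k ≥ 0`.  An epoch
which starts with `X < a` and contains a time with `X ≥ b` contains a part of an upcrossing of `[a, b]`; the upcrossings of
different epochs are disjoint.  PROOF: `H k` (seen by `M k`) : switched on at a start of an epoch with `X < a` (or at `0`),
switched off at the first time with `X ≥ b`; `(b - a) * (number of switching off) ≤ sum of H k (X (k + 1) - X k) + a`.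
-/

set_option autoImplicit false
set_option linter.unusedSectionVars false

namespace Pool.Agent.GMH.CK

open Finset Pool.Agent.PWZ Pool.Agent.M3

/-- an upcrossing of `[a, b]` is in progress -/
def upS {Om : Type*} (C : ℕ → ℕ → Om → Prop) (X : ℕ → Om → ℝ) (a b : ℝ) : ℕ → Om → Prop
  | 0 => fun w => X 0 w < a
  | k + 1 => fun w => (upS C X a b k w ∧ X (k + 1) w < b) ∨ (stg C (k + 1) w = k + 1 ∧ X (k + 1) w < a)

section

variable {Om : Type*} {C : ℕ → ℕ → Om → Prop} {X : ℕ → Om → ℝ} {a b : ℝ}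

theorem upS_start {ν : ℕ} {w : Om} (h : stg C ν w = ν) (hX : X ν w < a) : upS C X a b ν w := by
  cases ν with
  | zero => exact hX
  | succ ν => exact Or.inr ⟨h, hX⟩

theorem upS_stay {ν : ℕ} {w : Om} (h : stg C ν w = ν) (hX : X ν w < a) {i : ℕ} (hi : ν ≤ i)
    (hb : ∀ l, ν < l → l ≤ i → X l w < b) : upS C X a b i w := by
  induction i, hi using Nat.le_induction with
  | base => exact upS_start h hX
  | succ i hi ih => exact Or.inl ⟨ih fun l h1 h2 => hb l h1 (by omega), hb (i + 1) (by omega) le_rfl⟩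

theorem upS_off {ν : ℕ} {w : Om} (h : stg C ν w = ν) (hX : X ν w < a) {j : ℕ} (hj : ν < j) (hb : b ≤ X j w) :
    ∃ i, ν < i ∧ i ≤ j ∧ (upS C X a b (i - 1) w ∧ b ≤ X i w) := by
  classical
  have hex : ∃ i, ν < i ∧ b ≤ X i w := ⟨j, hj, hb⟩
  have h1 := Nat.find_spec hex
  have h2 : ∀ l, l < Nat.find hex → ¬ (ν < l ∧ b ≤ X l w) := fun l hl => Nat.find_min hex hl
  have h3 : Nat.find hex ≤ j := Nat.find_min' hex ⟨hj, hb⟩
  refine ⟨Nat.find hex, h1.1, h3, ?_, h1.2⟩
  refine upS_stay h hX (by omega) fun l hl1 hl2 => ?_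
  have h4 := h2 l (by omega)
  by_contra h5
  exact h4 ⟨hl1, not_lt.1 h5⟩

theorem upS_sum (hab : a < b) (h0 : ∀ k w, 0 ≤ X k w) (ha : 0 ≤ a) (T : ℕ) (w : Om) :
    (b - a) * ∑ k ∈ range T, ind (upS C X a b k w ∧ b ≤ X (k + 1) w) ≤
      a + ∑ k ∈ range T, ind (upS C X a b k w) * (X (k + 1) w - X k w) := by
  have key : ∀ T : ℕ, (upS C X a b T w → X T w - a ≤ ∑ k ∈ range T, ind (upS C X a b k w) * (X (k + 1) w - X k w) -
      (b - a) * ∑ k ∈ range T, ind (upS C X a b k w ∧ b ≤ X (k + 1) w)) ∧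
      (¬ upS C X a b T w → 0 ≤ ∑ k ∈ range T, ind (upS C X a b k w) * (X (k + 1) w - X k w) -
      (b - a) * ∑ k ∈ range T, ind (upS C X a b k w ∧ b ≤ X (k + 1) w)) := by
    intro T
    induction T with
    | zero =>
      refine ⟨fun h => ?_, fun _ => ?_⟩
      · have h2 : X 0 w < a := h
        simp only [range_zero, sum_empty, mul_zero, sub_zero]
        linarith
      · simp
    | succ T ih =>
      rw [sum_range_succ, sum_range_succ, mul_add]
      by_cases hT : upS C X a b T w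
      · have i1 := ih.1 hT
        by_cases hb : b ≤ X (T + 1) w
        · have h3 : ¬ upS C X a b (T + 1) w := by
            rintro (h | h)
            · exact absurd h.2 (not_lt.2 hb)
            · exact absurd h.2 (not_lt.2 (hab.le.trans hb))
          refine ⟨fun h => absurd h h3, fun _ => ?_⟩
          rw [ind_of hT, ind_of ⟨hT, hb⟩]
          linarith
        · rw [ind_of hT, ind_not (show ¬ (upS C X a b T w ∧ b ≤ X (T + 1) w) from fun h => hb h.2)]
          have h3 : upS C X a b (T + 1) w := Or.inl ⟨hT, not_le.1 hb⟩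
          refine ⟨fun _ => by linarith, fun h => absurd h3 h⟩
      · have i1 := ih.2 hT
        rw [ind_not hT, ind_not (show ¬ (upS C X a b T w ∧ b ≤ X (T + 1) w) from fun h => hT h.1)]
        refine ⟨fun h => ?_, fun _ => by linarith⟩
        rcases h with h | h
        · exact absurd h.1 hT
        · have := h.2
          linarith
  by_cases hT : upS C X a b T w
  · have h1 := (key T).1 hT
    have h2 := h0 T w
    linarith
  · have h1 := (key T).2 hT
    linarith

theorem upS_fac {κ : Type*} {M : ℕ → Om → κ} (hM : ∀ k, Fac (M (k + 1)) (M k)) (hs : ∀ k, Fac (M k) (stg C k))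
    (hX : ∀ k, Fac (M k) (X k)) (k : ℕ) : Fac (M k) (upS C X a b k) := by
  induction k with
  | zero =>
    intro u w huw
    show (X 0 u < a) = (X 0 w < a)
    rw [hX 0 u w huw]
  | succ k ih =>
    intro u w huw
    show ((upS C X a b k u ∧ X (k + 1) u < b) ∨ (stg C (k + 1) u = k + 1 ∧ X (k + 1) u < a)) =
      ((upS C X a b k w ∧ X (k + 1) w < b) ∨ (stg C (k + 1) w = k + 1 ∧ X (k + 1) w < a))
    rw [ih u w (hM k u w huw), hX (k + 1) u w huw, hs (k + 1) u w huw]

end

theorem up_le {Om : Type*} [Fintype Om] {P : FP Om} {κ : Type*} {M : ℕ → Om → κ} {C : ℕ → ℕ → Om → Prop}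
    (hM : ∀ k, Fac (M (k + 1)) (M k)) (hs : ∀ k, Fac (M k) (stg C k)) {X g : ℕ → Om → ℝ} (hX : ∀ k, Fac (M k) (X k))
    (h0 : ∀ k w, 0 ≤ X k w) (h1 : ∀ k w, X k w ≤ 1) (hg0 : ∀ k w, 0 ≤ g k w)
    (hg : ∀ k w, P.p w ≠ 0 → P.ce (M k) (X (k + 1)) w ≤ X k w + P.ce (M k) (g k) w) {a b : ℝ} (ha : 0 ≤ a) (hab : a < b)
    (T : ℕ) :
    (b - a) * ∑ k ∈ range T, P.Pr (fun w => stg C (k + 1) w = k + 1 ∧ X (stg C k w) w < a ∧
      ∃ j, stg C k w < j ∧ j ≤ k + 1 ∧ b ≤ X j w) ≤ a + ∑ k ∈ range T, P.E (g k) := by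
  have hfac : ∀ k, Fac (M k) (fun w => ind (upS C X a b k w)) := fun k =>
    Fac.ind fun u w huw => by rw [upS_fac hM hs hX k u w huw]
  -- counting
  have c1 : ∀ w, ∑ k ∈ range T, ind (stg C (k + 1) w = k + 1 ∧ X (stg C k w) w < a ∧
      ∃ j, stg C k w < j ∧ j ≤ k + 1 ∧ b ≤ X j w) ≤ ∑ k ∈ range T, ind (upS C X a b k w ∧ b ≤ X (k + 1) w) := by
    intro w
    refine le_trans ?_ (cnt_in (C := C) T (fun j => upS C X a b (j - 1) w ∧ b ≤ X j w) w)
    refine sum_le_sum fun k _ => ind_mono fun hh => ?_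
    obtain ⟨h2, h3, j, h4, h5, h6⟩ := hh
    obtain ⟨i, hi1, hi2, hi3⟩ := upS_off (C := C) (X := X) (a := a) (b := b) (stg_idem k w) h3 h4 h6
    exact ⟨h2, i, hi1, by omega, hi3⟩
  -- one step
  have c2 : ∀ k ∈ range T, P.E (fun w => ind (upS C X a b k w) * (X (k + 1) w - X k w)) ≤ P.E (g k) := by
    intro k _
    have e1 : P.E (fun w => ind (upS C X a b k w) * P.ce (M k) (X (k + 1)) w) =
        P.E (fun w => ind (upS C X a b k w) * X (k + 1) w) := P.E_mul_ce (hfac k) _
    have e2 : P.E (fun w => ind (upS C X a b k w) * P.ce (M k) (g k) w) =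
        P.E (fun w => ind (upS C X a b k w) * g k w) := P.E_mul_ce (hfac k) _
    have e3 : P.E (fun w => ind (upS C X a b k w) * P.ce (M k) (X (k + 1)) w) ≤
        P.E (fun w => ind (upS C X a b k w) * X k w + ind (upS C X a b k w) * P.ce (M k) (g k) w) := by
      refine P.E_mono fun w hw => ?_
      rw [← mul_add]
      exact mul_le_mul_of_nonneg_left (hg k w hw) (ind_nonneg _)
    have e4 : P.E (fun w => ind (upS C X a b k w) * g k w) ≤ P.E (g k) := by
      refine P.E_mono fun w _ => ?_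
      have h5 := ind_le_one (upS C X a b k w)
      have h6 := hg0 k w
      nlinarith
    have e5 : P.E (fun w => ind (upS C X a b k w) * (X (k + 1) w - X k w)) =
        P.E (fun w => ind (upS C X a b k w) * X (k + 1) w) - P.E (fun w => ind (upS C X a b k w) * X k w) := by
      rw [← P.E_sub]
      refine P.E_congr fun w _ => ?_
      ring
    rw [P.E_add] at e3
    rw [e5]
    linarith
  have c3 : P.E (fun w => (b - a) * ∑ k ∈ range T, ind (stg C (k + 1) w = k + 1 ∧ X (stg C k w) w < a ∧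
      ∃ j, stg C k w < j ∧ j ≤ k + 1 ∧ b ≤ X j w)) ≤
      P.E (fun w => a + ∑ k ∈ range T, ind (upS C X a b k w) * (X (k + 1) w - X k w)) := by
    refine P.E_mono fun w _ => ?_
    exact (mul_le_mul_of_nonneg_left (c1 w) (by linarith)).trans (upS_sum hab h0 ha T w)
  rw [P.E_smul, P.E_sum, P.E_add, P.E_const, P.E_sum] at c3
  refine c3.trans ?_
  have := sum_le_sum c2
  linarith

end Pool.Agent.GMH.CK
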