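import Pool.Agent.GMH.CK2

/-!
# GMH.CK3: points which have ever moved in an epoch (helper27)

* `moves_al` : `TD1.moves_a` for a clock which is seen by the letter and the public part;
* `Evm` : the point has moved at some time of the epoch; `ever_mv` : expected number of epochs in which the true point moves.
-/

set_option autoImplicit false
set_option linter.unusedSectionVars false

namespace Pool.Agent.GMH.CK

open Finset Pool.Agent.PWZ Pool.Agent.M3 Pool.Agent.GMH.TD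

section moves

variable {Om : Type*} [Fintype Om] {P : FP Om} {κ lam η : Type*} {N : ℕ → Om → κ} {L : ℕ → Om → lam} {Y : Om → η}
  {st : ℕ → Om → ℕ}

/-- **number of restarts after a move of the public part**, the clock is seen by the letter and the public part -/
theorem moves_al (hN : ∀ k, Fac (N (k + 1)) (N k)) (hL : ∀ k, Fac (L (k + 1)) (L k)) (hY : ∀ k, Fac (L k) Y)
    (h0 : ∀ w, st 0 w = 0) (h1 : ∀ k w, st (k + 1) w = k + 1 ∨ st (k + 1) w = st k w)
    (hst : ∀ k, Fac (fun w => (L k w, N k w)) (st k)) {δ : ℝ} (hd0 : 0 < δ) (hd1 : δ ≤ 1) (T : ℕ) :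
    ∑ k ∈ range T, P.Pr (fun w => st (k + 1) w = k + 1 ∧ δ ≤ |∑ i ∈ Ico (st k w) (k + 1), ai P N L Y i w|) ≤
      3 / δ ^ 2 * ∑ k ∈ range T, P.E (ai P N L Y k) := by
  have hle := st_le h0 h1
  set A : ℕ → Om → ℝ := since (ai P N L Y) st with hA
  have hAs : ∀ k w, ∑ i ∈ Ico (st k w) (k + 1), ai P N L Y i w = A k w + ai P N L Y k w := fun k w =>
    since_succ _ (hle k w)
  have hNle : ∀ {i k : ℕ}, i ≤ k → Fac (N k) (N i) := fun {i k} hik => by
    induction k, hik using Nat.le_induction with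
    | base => exact Fac.refl _
    | succ k _ ih => exact (hN k).trans ih
  have hLle : ∀ {i k : ℕ}, i ≤ k → Fac (L k) (L i) := fun {i k} hik => by
    induction k, hik using Nat.le_induction with
    | base => exact Fac.refl _
    | succ k _ ih => exact (hL k).trans ih
  have hAfac : ∀ k, Fac (fun w => (L k w, N k w)) (A k) := by
    intro k a b hab
    have e1 := (Prod.mk.inj hab).1
    have e2 := (Prod.mk.inj hab).2
    rw [hA]
    unfold since
    rw [hst k a b hab]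
    refine Finset.sum_congr rfl fun i hi => ?_
    have hi2 : i < k := (Finset.mem_Ico.1 hi).2
    refine ai_fac P hN hY i a b ?_
    show (L i a, N (i + 1) a) = (L i b, N (i + 1) b)
    rw [hLle hi2.le a b e1, hNle (Nat.succ_le_of_lt hi2) a b e2]
  have hstep : ∀ k, δ ^ 2 / 3 * P.Pr (fun w => st (k + 1) w = k + 1 ∧
      δ ≤ |∑ i ∈ Ico (st k w) (k + 1), ai P N L Y i w|) ≤
      P.E (fun w => phi (A k w)) + P.E (ai P N L Y k) - P.E (fun w => phi (A (k + 1) w)) := by
    intro k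
    have s1 : δ ^ 2 / 3 * P.Pr (fun w => st (k + 1) w = k + 1 ∧
        δ ≤ |∑ i ∈ Ico (st k w) (k + 1), ai P N L Y i w|) ≤
        P.E (fun w => phi (A k w + ai P N L Y k w) - phi (A (k + 1) w)) := by
      unfold FP.Pr
      rw [← P.E_smul]
      refine P.E_mono fun w _ => ?_
      rcases h1 k w with h | h
      · have e1 : A (k + 1) w = 0 := by
          rw [hA]
          unfold since
          rw [h, Finset.Ico_self, Finset.sum_empty]
        rw [e1, phi_zero, sub_zero]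
        by_cases hh : δ ≤ |∑ i ∈ Ico (st k w) (k + 1), ai P N L Y i w|
        · rw [ind_of ⟨h, hh⟩, mul_one]
          rw [hAs] at hh
          exact phi_ge hd0 hd1 hh
        · rw [ind_not fun hc => hh hc.2, mul_zero]
          exact phi_nonneg _
      · have e1 : A (k + 1) w = A k w + ai P N L Y k w := by
          rw [← hAs k w, hA]
          unfold since
          rw [h]
        rw [e1, sub_self]
        rw [ind_not, mul_zero]
        rintro ⟨h2, _⟩
        have := hle k w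
        omega
    rw [P.E_sub] at s1
    have s2 : P.E (fun w => phi (A k w + ai P N L Y k w)) ≤ P.E (fun w => phi (A k w)) + P.E (ai P N L Y k) := by
      have e1 : ∀ w, phi (A k w + ai P N L Y k w) =
          Real.exp (- A k w) * Real.exp (- ai P N L Y k w) + ((-1 + A k w) + ai P N L Y k w) := by
        intro w
        unfold phi
        rw [neg_add, Real.exp_add]
        ring
      have e2 : P.E (fun w => Real.exp (- A k w) * Real.exp (- ai P N L Y k w)) ≤ P.E (fun w => Real.exp (- A k w)) := by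
        have hf : Fac (fun w => (L k w, N k w)) (fun w => Real.exp (- A k w)) := (hAfac k).comp fun x => Real.exp (-x)
        rw [← P.E_mul_ce hf]
        refine P.E_mono fun w hw => ?_
        have := ce_exp_ai P hN hY k hw
        have h2 := Real.exp_pos (- A k w)
        nlinarith
      have e3 : P.E (fun w => phi (A k w)) = P.E (fun w => Real.exp (- A k w)) + P.E (fun w => -1 + A k w) := by
        rw [← P.E_add]
        refine P.E_congr fun w _ => ?_
        unfold phi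
        ring
      rw [P.E_congr fun w _ => e1 w, P.E_add, P.E_add, e3]
      linarith
    linarith
  have htel : ∀ T, ∑ k ∈ range T, (P.E (fun w => phi (A k w)) + P.E (ai P N L Y k) - P.E (fun w => phi (A (k + 1) w))) =
      P.E (fun w => phi (A 0 w)) - P.E (fun w => phi (A T w)) + ∑ k ∈ range T, P.E (ai P N L Y k) := by
    intro T
    induction T with
    | zero => simp
    | succ T ih =>
      rw [Finset.sum_range_succ, ih, Finset.sum_range_succ]
      ring
  have hA0 : P.E (fun w => phi (A 0 w)) = 0 := by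
    rw [← P.E_const 0]
    refine P.E_congr fun w _ => ?_
    rw [hA]
    unfold since
    rw [h0 w, Finset.Ico_self, Finset.sum_empty, phi_zero]
  have hAT : 0 ≤ P.E (fun w => phi (A T w)) := P.E_nonneg fun w _ => phi_nonneg _
  have hsum := Finset.sum_le_sum fun k (_ : k ∈ range T) => hstep k
  rw [← Finset.mul_sum, htel, hA0] at hsum
  have hd2 : 0 < δ ^ 2 := by positivity
  have e4 : ∀ x : ℝ, 3 / δ ^ 2 * (δ ^ 2 / 3 * x) = x := fun x => by field_simp
  calc _ = 3 / δ ^ 2 * (δ ^ 2 / 3 * ∑ k ∈ range T, P.Pr (fun w => st (k + 1) w = k + 1 ∧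
      δ ≤ |∑ i ∈ Ico (st k w) (k + 1), ai P N L Y i w|)) := (e4 _).symm
    _ ≤ _ := by
      refine mul_le_mul_of_nonneg_left ?_ (by positivity)
      linarith


end moves

section ever

variable {Om : Type*} [Fintype Om] (P : FP Om) {κ : Type*} (N : ℕ → Om → κ) {ι : Type*} {lam' η' : ι → Type*}
  (Lf : ∀ i, ℕ → Om → lam' i) (Yf : ∀ i, Om → η' i)

/-- the point has moved at some time of `(ν, k]` -/
def Evm (δ : ℝ) (ν k : ℕ) (w : Om) : Prop := ∃ j, ν < j ∧ j ≤ k ∧ Mvd P N Lf Yf δ ν j w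

variable {P N Lf Yf} {C : ℕ → ℕ → Om → Prop}

theorem Evm_mono {δ : ℝ} {ν k l : ℕ} (hkl : k ≤ l) {w : Om} (h : Evm P N Lf Yf δ ν k w) : Evm P N Lf Yf δ ν l w := by
  obtain ⟨j, h1, h2, h3⟩ := h
  exact ⟨j, h1, h2.trans hkl, h3⟩

theorem not_Evm_self {δ : ℝ} (k : ℕ) (w : Om) : ¬ Evm P N Lf Yf δ k k w := by
  rintro ⟨j, h1, h2, _⟩
  omega

/-- the own clock of the letter `i` : restarts of `C` and own moves of the letter -/
def Cow (P : FP Om) (N : ℕ → Om → κ) (C : ℕ → ℕ → Om → Prop) {lam η : Type*} (L : ℕ → Om → lam) (Y : Om → η) (δ : ℝ)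
    (ν k : ℕ) (w : Om) : Prop := stg C k w = k ∨ Mv1 P N L Y δ ν k w

theorem own_eq {lam η : Type*} {L : ℕ → Om → lam} {Y : Om → η} {δ : ℝ} {ν k : ℕ} {w : Om} (hk : stg C k w = ν)
    (hm : ∀ j, ν < j → j ≤ k → ¬ Mv1 P N L Y δ ν j w) : stg (Cow P N C L Y δ) k w = ν := by
  have h0 : ν ≤ k := by rw [← hk]; exact stg_le k w
  have h1 : stg (Cow P N C L Y δ) ν w = ν := by
    rcases Nat.eq_zero_or_pos ν with h | h
    · rw [h]
      exact stg_zero w
    · obtain ⟨i, rfl⟩ : ∃ i, ν = i + 1 := ⟨ν - 1, by omega⟩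
      refine stg_pos (Or.inl ?_)
      exact stg_mid hk le_rfl h0
  have h2 : ∀ j, ν ≤ j → j ≤ k → stg (Cow P N C L Y δ) j w = ν := by
    intro j hj
    induction j, hj using Nat.le_induction with
    | base => exact fun _ => h1
    | succ j hj ih =>
      intro hjk
      have h3 := ih (by omega)
      have h4 : ¬ Cow P N C L Y δ (stg (Cow P N C L Y δ) j w) (j + 1) w := by
        rw [h3]
        rintro (h5 | h5)
        · have h6 := stg_mid hk (show ν ≤ j + 1 by omega) hjk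
          omega
        · exact hm (j + 1) (by omega) hjk h5
      rw [stg_neg h4, h3]
  exact h2 k h0 le_rfl

theorem own_fac (hN : ∀ k, Fac (N (k + 1)) (N k)) (hs : ∀ k, Fac (N k) (stg C k)) {lam η : Type*} {L : ℕ → Om → lam}
    {Y : Om → η} (hL : ∀ k, Fac (L (k + 1)) (L k)) (hY : ∀ k, Fac (L k) Y) {δ : ℝ} (k : ℕ) :
    Fac (fun w => (L k w, N k w)) (stg (Cow P N C L Y δ) k) := by
  have hNle : ∀ {i k : ℕ}, i ≤ k → Fac (N k) (N i) := fun {i k} hik => by
    induction k, hik using Nat.le_induction with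
    | base => exact Fac.refl _
    | succ k _ ih => exact (hN k).trans ih
  have hLle : ∀ {i k : ℕ}, i ≤ k → Fac (L k) (L i) := fun {i k} hik => by
    induction k, hik using Nat.le_induction with
    | base => exact Fac.refl _
    | succ k _ ih => exact (hL k).trans ih
  refine stg_fac (N := fun k w => (L k w, N k w)) (fun k a b hab => ?_) (fun ν k hν a b hab => ?_) k
  · have h1 := (Prod.mk.inj hab).1
    have h2 := (Prod.mk.inj hab).2
    exact Prod.ext (hL k a b h1) (hN k a b h2)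
  · have h1 := (Prod.mk.inj hab).1
    have h2 := (Prod.mk.inj hab).2
    have ea : ∀ j ∈ Ico ν (k + 1), ai P N L Y j a = ai P N L Y j b := by
      intro j hj
      have hj2 := (mem_Ico.1 hj).2
      refine ai_fac P hN hY j a b ?_
      show (L j a, N (j + 1) a) = (L j b, N (j + 1) b)
      rw [hLle hj2.le a b h1, hNle (Nat.succ_le_of_lt hj2) a b h2]
    have eb : ∀ j ∈ Ico ν (k + 1), bi P N L Y j a = bi P N L Y j b := by
      intro j hj
      have hj2 := (mem_Ico.1 hj).2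
      refine bi_fac P hL hY j a b ?_
      show (L (j + 1) a, N (j + 1) a) = (L (j + 1) b, N (j + 1) b)
      rw [hLle (Nat.succ_le_of_lt hj2) a b h1, hNle (Nat.succ_le_of_lt hj2) a b h2]
    unfold Cow Mv1
    rw [hs (k + 1) a b h2, sum_congr rfl ea, sum_congr rfl eb]

variable {δ : ℝ}

/-- **number of the epochs in which the true point moves** -/
theorem ever_mv [Fintype ι] (hN : ∀ k, Fac (N (k + 1)) (N k)) (hs : ∀ k, Fac (N k) (stg C k))
    (hL : ∀ i k, Fac (Lf i (k + 1)) (Lf i k)) (hY : ∀ i k, Fac (Lf i k) (Yf i)) (hδ : 0 < δ) (hδ1 : δ ≤ 1) (T : ℕ)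
    {Tot : ℝ} (hA : ∀ i, ∑ k ∈ range T, P.E (ai P N (Lf i) (Yf i) k) ≤ Tot)
    (hB : ∀ i, ∑ k ∈ range T, P.E (bi P N (Lf i) (Yf i) k) ≤ Tot) :
    ∑ k ∈ range T, P.Pr (fun w => Evm P N Lf Yf δ (stg C (k + 1) w) (k + 1) w ∧ ¬ Evm P N Lf Yf δ (stg C k w) k w) ≤
      Fintype.card ι * (4 / δ ^ 2 * Tot) := by
  classical
  have h0 : ∀ k ∈ range T, P.Pr (fun w => Evm P N Lf Yf δ (stg C (k + 1) w) (k + 1) w ∧ ¬ Evm P N Lf Yf δ (stg C k w) k w) ≤
      ∑ i, (P.Pr (fun w => stg (Cow P N C (Lf i) (Yf i) δ) (k + 1) w = k + 1 ∧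
          δ ≤ |∑ j ∈ Ico (stg (Cow P N C (Lf i) (Yf i) δ) k w) (k + 1), ai P N (Lf i) (Yf i) j w|) +
        P.Pr (fun w => stg (Cow P N C (Lf i) (Yf i) δ) (k + 1) w = k + 1 ∧
          δ ≤ ∑ j ∈ Ico (stg (Cow P N C (Lf i) (Yf i) δ) k w) (k + 1), bi P N (Lf i) (Yf i) j w)) := by
    intro k _
    unfold FP.Pr
    have e1 : ∀ i, P.E (fun w => ind (stg (Cow P N C (Lf i) (Yf i) δ) (k + 1) w = k + 1 ∧
          δ ≤ |∑ j ∈ Ico (stg (Cow P N C (Lf i) (Yf i) δ) k w) (k + 1), ai P N (Lf i) (Yf i) j w|)) +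
        P.E (fun w => ind (stg (Cow P N C (Lf i) (Yf i) δ) (k + 1) w = k + 1 ∧
          δ ≤ ∑ j ∈ Ico (stg (Cow P N C (Lf i) (Yf i) δ) k w) (k + 1), bi P N (Lf i) (Yf i) j w)) =
        P.E (fun w => ind (stg (Cow P N C (Lf i) (Yf i) δ) (k + 1) w = k + 1 ∧
          δ ≤ |∑ j ∈ Ico (stg (Cow P N C (Lf i) (Yf i) δ) k w) (k + 1), ai P N (Lf i) (Yf i) j w|) +
          ind (stg (Cow P N C (Lf i) (Yf i) δ) (k + 1) w = k + 1 ∧
          δ ≤ ∑ j ∈ Ico (stg (Cow P N C (Lf i) (Yf i) δ) k w) (k + 1), bi P N (Lf i) (Yf i) j w)) := fun i =>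
      (P.E_add _ _).symm
    rw [sum_congr rfl fun i _ => e1 i, ← P.E_sum]
    refine P.E_mono fun w _ => ?_
    by_cases h : Evm P N Lf Yf δ (stg C (k + 1) w) (k + 1) w ∧ ¬ Evm P N Lf Yf δ (stg C k w) k w
    · obtain ⟨h1, h2⟩ := h
      rw [ind_of ⟨h1, h2⟩]
      have h3 : stg C (k + 1) w = stg C k w := by
        rcases stg_or (C := C) k w with h3 | h3
        · rw [h3] at h1
          exact absurd h1 (not_Evm_self (k + 1) w)
        · exact h3
      obtain ⟨j, q1, q2, q3⟩ := h1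
      rw [h3] at q1 q3
      have h4 : j = k + 1 := by
        by_contra hne
        exact h2 ⟨j, q1, by omega, q3⟩
      rw [h4] at q3
      obtain ⟨i, q4⟩ := q3
      have h5 : stg (Cow P N C (Lf i) (Yf i) δ) k w = stg C k w :=
        own_eq rfl fun j h6 h7 h8 => h2 ⟨j, h6, h7, i, h8⟩
      have h6 : stg (Cow P N C (Lf i) (Yf i) δ) (k + 1) w = k + 1 := by
        refine stg_pos (Or.inr ?_)
        rw [h5]
        exact q4
      refine le_trans ?_ (single_le_sum (f := fun i => ind (stg (Cow P N C (Lf i) (Yf i) δ) (k + 1) w = k + 1 ∧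
          δ ≤ |∑ j ∈ Ico (stg (Cow P N C (Lf i) (Yf i) δ) k w) (k + 1), ai P N (Lf i) (Yf i) j w|) +
          ind (stg (Cow P N C (Lf i) (Yf i) δ) (k + 1) w = k + 1 ∧
          δ ≤ ∑ j ∈ Ico (stg (Cow P N C (Lf i) (Yf i) δ) k w) (k + 1), bi P N (Lf i) (Yf i) j w))
        (fun i _ => add_nonneg (ind_nonneg _) (ind_nonneg _)) (mem_univ i))
      simp only [h5, h6]
      rcases q4 with q5 | q5
      · rw [ind_of (⟨trivial, q5⟩ : True ∧ _)]
        have := ind_nonneg (True ∧ δ ≤ ∑ j ∈ Ico (stg C k w) (k + 1), bi P N (Lf i) (Yf i) j w)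
        linarith
      · rw [ind_of (⟨trivial, q5⟩ : True ∧ δ ≤ ∑ j ∈ Ico (stg C k w) (k + 1), bi P N (Lf i) (Yf i) j w)]
        have := ind_nonneg (True ∧ δ ≤ |∑ j ∈ Ico (stg C k w) (k + 1), ai P N (Lf i) (Yf i) j w|)
        linarith
    · rw [ind_not h]
      exact sum_nonneg fun i _ => add_nonneg (ind_nonneg _) (ind_nonneg _)
  refine (sum_le_sum h0).trans ?_
  rw [sum_comm]
  have h2 : ∀ i ∈ (univ : Finset ι), ∑ k ∈ range T,
      (P.Pr (fun w => stg (Cow P N C (Lf i) (Yf i) δ) (k + 1) w = k + 1 ∧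
          δ ≤ |∑ j ∈ Ico (stg (Cow P N C (Lf i) (Yf i) δ) k w) (k + 1), ai P N (Lf i) (Yf i) j w|) +
        P.Pr (fun w => stg (Cow P N C (Lf i) (Yf i) δ) (k + 1) w = k + 1 ∧
          δ ≤ ∑ j ∈ Ico (stg (Cow P N C (Lf i) (Yf i) δ) k w) (k + 1), bi P N (Lf i) (Yf i) j w)) ≤
      4 / δ ^ 2 * Tot := by
    intro i _
    rw [sum_add_distrib]
    have h3 := moves_al (P := P) (N := N) (L := Lf i) (Y := Yf i) (st := stg (Cow P N C (Lf i) (Yf i) δ)) hN (hL i) (hY i)
      (fun w => stg_zero w) (fun k w => stg_or k w) (fun k => own_fac hN hs (hL i) (hY i) k) hδ hδ1 T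
    have h4 := moves_b (P := P) (N := N) (L := Lf i) (Y := Yf i) (st := stg (Cow P N C (Lf i) (Yf i) δ)) (hL i)
      (fun w => stg_zero w) (fun k w => stg_or k w) hδ T
    have hd2 : 0 < δ ^ 2 := by positivity
    have hT0 : 0 ≤ Tot := le_trans (sum_nonneg fun k _ => P.E_nonneg fun w hw => bi_nonneg P (hL i) k hw) (hB i)
    have h5 : 3 / δ ^ 2 * ∑ k ∈ range T, P.E (ai P N (Lf i) (Yf i) k) ≤ 3 / δ ^ 2 * Tot :=
      mul_le_mul_of_nonneg_left (hA i) (by positivity)
    have h6 : 1 / δ * ∑ k ∈ range T, P.E (bi P N (Lf i) (Yf i) k) ≤ 1 / δ ^ 2 * Tot := by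
      have h7 : 1 / δ ≤ 1 / δ ^ 2 := by
        refine one_div_le_one_div_of_le hd2 ?_
        nlinarith
      exact (mul_le_mul_of_nonneg_left (hB i) (by positivity)).trans (mul_le_mul_of_nonneg_right h7 hT0)
    have h7 : 4 / δ ^ 2 * Tot = 3 / δ ^ 2 * Tot + 1 / δ ^ 2 * Tot := by ring
    rw [h7]
    exact add_le_add (h3.trans h5) (h4.trans h6)
  refine (sum_le_sum h2).trans (le_of_eq ?_)
  rw [sum_const, card_univ, nsmul_eq_mul]

/-- **ends of epochs in which the true point has moved** -/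
theorem ends_ev [Fintype ι] (hN : ∀ k, Fac (N (k + 1)) (N k)) (hs : ∀ k, Fac (N k) (stg C k))
    (hL : ∀ i k, Fac (Lf i (k + 1)) (Lf i k)) (hY : ∀ i k, Fac (Lf i k) (Yf i)) (hδ : 0 < δ) (hδ1 : δ ≤ 1) (T : ℕ)
    {Tot : ℝ} (hA : ∀ i, ∑ k ∈ range T, P.E (ai P N (Lf i) (Yf i) k) ≤ Tot)
    (hB : ∀ i, ∑ k ∈ range T, P.E (bi P N (Lf i) (Yf i) k) ≤ Tot) :
    ∑ k ∈ range T, P.Pr (fun w => stg C (k + 1) w = k + 1 ∧ Evm P N Lf Yf δ (stg C k w) (k + 1) w) ≤
      2 * (Fintype.card ι * (4 / δ ^ 2 * Tot)) := by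
  have h1 := ends_mv (C := C) hN hs hL hY hδ hδ1 T hA hB
  have h2 := ever_mv (C := C) hN hs hL hY hδ hδ1 T hA hB
  set R : ℕ → Om → Prop := fun j w => ∃ i, j = i + 1 ∧ Evm P N Lf Yf δ (stg C (i + 1) w) (i + 1) w ∧
    ¬ Evm P N Lf Yf δ (stg C i w) i w with hR
  have h3 := ends_in (P := P) (C := C) R T
  have h4 : ∑ j ∈ range T, P.Pr (R (j + 1)) ≤ Fintype.card ι * (4 / δ ^ 2 * Tot) := by
    refine le_trans (sum_le_sum fun j _ => ?_) h2
    refine P.Pr_mono fun w _ hw => ?_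
    obtain ⟨i, hi, hw2⟩ := hw
    obtain rfl : i = j := by omega
    exact hw2
  have key : ∀ k ∈ range T, P.Pr (fun w => stg C (k + 1) w = k + 1 ∧ Evm P N Lf Yf δ (stg C k w) (k + 1) w) ≤
      P.Pr (fun w => stg C (k + 1) w = k + 1 ∧ Mvd P N Lf Yf δ (stg C k w) (k + 1) w) +
      P.Pr (fun w => stg C (k + 1) w = k + 1 ∧ ∃ j, stg C k w < j ∧ j ≤ k + 1 ∧ R j w) := by
    intro k _
    refine le_trans (P.Pr_mono fun w _ hw => ?_) (P.Pr_or_le _ _)
    obtain ⟨h5, h6⟩ := hw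
    by_cases h7 : Mvd P N Lf Yf δ (stg C k w) (k + 1) w
    · exact Or.inl ⟨h5, h7⟩
    refine Or.inr ⟨h5, ?_⟩
    have h8 : Evm P N Lf Yf δ (stg C k w) k w := by
      obtain ⟨j, q1, q2, q3⟩ := h6
      refine ⟨j, q1, ?_, q3⟩
      by_contra hh
      obtain rfl : j = k + 1 := by omega
      exact h7 q3
    have h9 : ∃ i, Evm P N Lf Yf δ (stg C (i + 1) w) (i + 1) w ∧ ¬ Evm P N Lf Yf δ (stg C i w) i w ∧
        stg C k w ≤ i ∧ i + 1 ≤ k := by
      classical
      have h10 : ∃ m, stg C k w ≤ m ∧ m ≤ k ∧ Evm P N Lf Yf δ (stg C k w) m w := ⟨k, stg_le k w, le_rfl, h8⟩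
      obtain ⟨q1, q2, q3⟩ := Nat.find_spec h10
      have q4 : stg C k w < Nat.find h10 := by
        rcases Nat.eq_or_lt_of_le q1 with q5 | q5
        · rw [← q5] at q3
          exact absurd q3 (not_Evm_self _ w)
        · exact q5
      obtain ⟨i, hi⟩ : ∃ i, Nat.find h10 = i + 1 := ⟨Nat.find h10 - 1, by omega⟩
      rw [hi] at q2 q3 q4
      have e1 : stg C (i + 1) w = stg C k w := stg_mid rfl (by omega) q2
      have e2 : stg C i w = stg C k w := stg_mid rfl (by omega) (by omega)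
      refine ⟨i, by rw [e1]; exact q3, ?_, by omega, q2⟩
      rw [e2]
      intro hh
      exact Nat.find_min h10 (show i < Nat.find h10 by omega) ⟨by omega, by omega, hh⟩
    obtain ⟨i, q1, q2, q3, q4⟩ := h9
    exact ⟨i + 1, by omega, by omega, i, rfl, q1, q2⟩
  refine (sum_le_sum key).trans ?_
  rw [sum_add_distrib]
  linarith

end ever

end Pool.Agent.GMH.CK
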