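import Pool.Agent.GMH.CK3

/-!
# GMH.CK4: moves of a public part inside the epochs of any clock (helper27)

The clock `C` is arbitrary.  The free clock of a letter restarts when the letter has moved by `δ / 2` since its last restart; it
does not see `C`.  An epoch of `C` in which the true point moves by `δ` contains a restart of a free clock.
* `mv_free` : a move contains a restart of the free clock; `free_cnt` : number of the restarts;
* `cnt_new` : epochs in which a monotone event begins;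
* `ever_free`, `ends_free` : number of the epochs of `C` in which the true point moves.
-/

set_option autoImplicit false
set_option linter.unusedSectionVars false

namespace Pool.Agent.GMH.CK

open Finset Pool.Agent.PWZ Pool.Agent.M3 Pool.Agent.GMH.TD

section

variable {Om : Type*} [Fintype Om]

/-- the clock which never restarts -/
def Cno (_ _ : ℕ) (_ : Om) : Prop := False

theorem stg_no (k : ℕ) (w : Om) : stg (Cno (Om := Om)) k w = 0 := by
  induction k with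
  | zero => exact stg_zero w
  | succ k ih =>
    rw [stg_neg (C := Cno (Om := Om)) (fun hh => hh), ih]

/-- the free clock of a letter -/
def Cfr (P : FP Om) {κ lam η : Type*} (N : ℕ → Om → κ) (L : ℕ → Om → lam) (Y : Om → η) (δ : ℝ) : ℕ → ℕ → Om → Prop :=
  Cow P N Cno L Y (δ / 2)

variable {P : FP Om} {κ lam η : Type*} {N : ℕ → Om → κ} {L : ℕ → Om → lam} {Y : Om → η} {δ : ℝ}

/-- a restart of the free clock is an own move -/
theorem free_mv1 {k : ℕ} {w : Om} (h : stg (Cfr P N L Y δ) (k + 1) w = k + 1) :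
    Mv1 P N L Y (δ / 2) (stg (Cfr P N L Y δ) k w) (k + 1) w := by
  have h1 : Cfr P N L Y δ (stg (Cfr P N L Y δ) k w) (k + 1) w := stg_end h
  rcases h1 with h2 | h2
  · rw [stg_no] at h2
    omega
  · exact h2

/-- without restart the letter has not moved by `δ / 2` since the last restart -/
theorem free_not {k : ℕ} {w : Om} (hδ : 0 < δ) (h : stg (Cfr P N L Y δ) k w ≠ k ∨ k = 0) :
    ¬ Mv1 P N L Y (δ / 2) (stg (Cfr P N L Y δ) k w) k w := by
  cases k with
  | zero =>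
    rw [stg_zero]
    unfold Mv1
    rw [Finset.Ico_self, Finset.sum_empty, Finset.sum_empty, abs_zero]
    rintro (h2 | h2) <;> linarith
  | succ k =>
    have h0 : stg (Cfr P N L Y δ) (k + 1) w ≠ k + 1 := by
      rcases h with h | h
      · exact h
      · exact absurd h (Nat.succ_ne_zero k)
    have h1 : stg (Cfr P N L Y δ) (k + 1) w = stg (Cfr P N L Y δ) k w := by
      rcases stg_or (C := Cfr P N L Y δ) k w with h2 | h2
      · exact absurd h2 h0
      · exact h2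
    rw [h1]
    intro h2
    exact h0 (stg_pos (Or.inr h2))

/-- **a move contains a restart of the free clock** -/
theorem mv_free (hL : ∀ k, Fac (L (k + 1)) (L k)) (hδ : 0 < δ) {w : Om} (hw : P.p w ≠ 0) {ν j : ℕ} (hj : ν < j)
    (hm : Mv1 P N L Y δ ν j w) : ∃ l, ν < l ∧ l ≤ j ∧ stg (Cfr P N L Y δ) l w = l := by
  by_contra hc
  push Not at hc
  set r := stg (Cfr P N L Y δ) ν w with hr
  have hrν : r ≤ ν := stg_le ν w
  have h1 : ∀ l, ν ≤ l → l ≤ j → stg (Cfr P N L Y δ) l w = r := by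
    intro l hl
    induction l, hl using Nat.le_induction with
    | base => exact fun _ => hr.symm
    | succ l hl ih =>
      intro hlj
      rcases stg_or (C := Cfr P N L Y δ) l w with h2 | h2
      · exact absurd h2 (hc (l + 1) (by omega) hlj)
      · rw [h2, ih (by omega)]
  have hb : ∀ k, 0 ≤ bi P N L Y k w := fun k => bi_nonneg P hL k hw
  -- at the end
  have h2 : ¬ Mv1 P N L Y (δ / 2) r j w := by
    have h3 := free_not (P := P) (N := N) (L := L) (Y := Y) (k := j) (w := w) hδ (Or.inl (hc j hj le_rfl))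
    rwa [h1 j hj.le le_rfl] at h3
  -- at the start
  have h3 : |∑ i ∈ Ico r ν, ai P N L Y i w| < δ / 2 := by
    by_cases h4 : r = ν
    · rw [h4, Finset.Ico_self, Finset.sum_empty, abs_zero]
      linarith
    · have h5 := free_not (P := P) (N := N) (L := L) (Y := Y) (k := ν) (w := w) hδ (Or.inl (by rw [← hr]; exact h4))
      rw [← hr] at h5
      exact lt_of_not_ge fun h6 => h5 (Or.inl h6)
  have h4 : |∑ i ∈ Ico r j, ai P N L Y i w| < δ / 2 := lt_of_not_ge fun h6 => h2 (Or.inl h6)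
  have h5 : ∑ i ∈ Ico r j, bi P N L Y i w < δ / 2 := lt_of_not_ge fun h6 => h2 (Or.inr h6)
  rcases hm with h6 | h6
  · have e1 := Finset.sum_Ico_consecutive (fun i => ai P N L Y i w) hrν hj.le
    rw [abs_lt] at h3 h4
    rcases le_abs.1 h6 with h7 | h7 <;> linarith [h3.1, h3.2, h4.1, h4.2]
  · have e1 := Finset.sum_Ico_consecutive (fun i => bi P N L Y i w) hrν hj.le
    have e2 : 0 ≤ ∑ i ∈ Ico r ν, bi P N L Y i w := Finset.sum_nonneg fun k _ => hb k
    linarith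

end

/-! ### counts -/

section cnt

variable {Om : Type*} {C : ℕ → ℕ → Om → Prop}

/-- **epochs in which an event begins are at most the marks** -/
theorem cnt_new (T : ℕ) (w : Om) (E R : ℕ → Prop) (hE : ∀ k, stg C (k + 1) w = k + 1 → ¬ E (k + 1))
    (hM : ∀ k, stg C (k + 1) w = stg C k w → E k → E (k + 1))
    (hR : ∀ k, E (k + 1) → ¬ E k → ∃ l, stg C (k + 1) w < l ∧ l ≤ k + 1 ∧ R l) :
    ∑ k ∈ range T, ind (E (k + 1) ∧ ¬ E k) + ind (¬ E T ∧ ∃ l, stg C T w < l ∧ l ≤ T ∧ R l) ≤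
      ∑ j ∈ range T, ind (R (j + 1)) := by
  induction T with
  | zero =>
    rw [Finset.range_zero, Finset.sum_empty, Finset.sum_empty, zero_add]
    refine le_of_eq (ind_not ?_)
    rintro ⟨_, l, h1, h2, _⟩
    omega
  | succ T ih =>
    rw [Finset.sum_range_succ, Finset.sum_range_succ]
    have n1 := ind_nonneg (R (T + 1))
    have n2 := ind_nonneg (¬ E T ∧ ∃ l, stg C T w < l ∧ l ≤ T ∧ R l)
    rcases stg_or (C := C) T w with h1 | h1
    · have h2 := hE T h1
      rw [ind_not (fun hh : E (T + 1) ∧ ¬ E T => h2 hh.1), ind_not (fun hh : ¬ E (T + 1) ∧ ∃ l, stg C (T + 1) w < l ∧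
        l ≤ T + 1 ∧ R l => by
          obtain ⟨_, l, h3, h4, _⟩ := hh
          omega)]
      linarith
    · by_cases h2 : E (T + 1) ∧ ¬ E T
      · rw [ind_of h2, ind_not (fun hh : ¬ E (T + 1) ∧ ∃ l, stg C (T + 1) w < l ∧ l ≤ T + 1 ∧ R l => hh.1 h2.1)]
        obtain ⟨l, h3, h4, h5⟩ := hR T h2.1 h2.2
        rcases Nat.lt_or_ge l (T + 1) with h6 | h6
        · rw [h1] at h3
          rw [ind_of (⟨h2.2, l, h3, by omega, h5⟩ : ¬ E T ∧ ∃ l, stg C T w < l ∧ l ≤ T ∧ R l)] at ih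
          linarith
        · obtain rfl : l = T + 1 := by omega
          rw [ind_of h5]
          linarith
      · rw [ind_not h2]
        by_cases h3 : ¬ E (T + 1) ∧ ∃ l, stg C (T + 1) w < l ∧ l ≤ T + 1 ∧ R l
        · rw [ind_of h3]
          obtain ⟨h4, l, h5, h6, h7⟩ := h3
          have h8 : ¬ E T := fun hh => h4 (hM T h1 hh)
          rcases Nat.lt_or_ge l (T + 1) with h9 | h9
          · rw [h1] at h5
            rw [ind_of (⟨h8, l, h5, by omega, h7⟩ : ¬ E T ∧ ∃ l, stg C T w < l ∧ l ≤ T ∧ R l)] at ih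
            linarith
          · obtain rfl : l = T + 1 := by omega
            rw [ind_of h7]
            linarith
        · rw [ind_not h3]
          linarith

end cnt

section ever

variable {Om : Type*} [Fintype Om] {P : FP Om} {κ : Type*} {N : ℕ → Om → κ} {C : ℕ → ℕ → Om → Prop}
variable {ι : Type*} {lam' η' : ι → Type*} {Lf : ∀ i, ℕ → Om → lam' i} {Yf : ∀ i, Om → η' i} {δ : ℝ}

/-- some free clock restarts -/
def Rfr (P : FP Om) (N : ℕ → Om → κ) (Lf : ∀ i, ℕ → Om → lam' i) (Yf : ∀ i, Om → η' i) (δ : ℝ) (j : ℕ) (w : Om) : Prop :=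
  ∃ i, stg (Cfr P N (Lf i) (Yf i) δ) j w = j

/-- **number of the restarts of the free clocks** -/
theorem free_cnt [Fintype ι] (hN : ∀ k, Fac (N (k + 1)) (N k)) (hL : ∀ i k, Fac (Lf i (k + 1)) (Lf i k))
    (hY : ∀ i k, Fac (Lf i k) (Yf i)) (hδ : 0 < δ) (hδ1 : δ ≤ 1) (T : ℕ)
    {Tot : ℝ} (hA : ∀ i, ∑ k ∈ range T, P.E (ai P N (Lf i) (Yf i) k) ≤ Tot)
    (hB : ∀ i, ∑ k ∈ range T, P.E (bi P N (Lf i) (Yf i) k) ≤ Tot) :
    ∑ k ∈ range T, P.Pr (Rfr P N Lf Yf δ (k + 1)) ≤ Fintype.card ι * (16 / δ ^ 2 * Tot) := by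
  classical
  have h0 : ∀ k ∈ range T, P.Pr (Rfr P N Lf Yf δ (k + 1)) ≤
      ∑ i, (P.Pr (fun w => stg (Cfr P N (Lf i) (Yf i) δ) (k + 1) w = k + 1 ∧
          δ / 2 ≤ |∑ j ∈ Ico (stg (Cfr P N (Lf i) (Yf i) δ) k w) (k + 1), ai P N (Lf i) (Yf i) j w|) +
        P.Pr (fun w => stg (Cfr P N (Lf i) (Yf i) δ) (k + 1) w = k + 1 ∧
          δ / 2 ≤ ∑ j ∈ Ico (stg (Cfr P N (Lf i) (Yf i) δ) k w) (k + 1), bi P N (Lf i) (Yf i) j w)) := by
    intro k _
    refine (P.Pr_mono (t := fun w => ∃ i ∈ (univ : Finset ι), stg (Cfr P N (Lf i) (Yf i) δ) (k + 1) w = k + 1)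
      fun w _ hw => ?_).trans ((P.Pr_ex_le univ fun i w => stg (Cfr P N (Lf i) (Yf i) δ) (k + 1) w = k + 1).trans
        (sum_le_sum fun i _ => ?_))
    · obtain ⟨i, hi⟩ := hw
      exact ⟨i, mem_univ i, hi⟩
    · refine le_trans (P.Pr_mono fun w _ hw => ?_) (P.Pr_or_le _ _)
      rcases free_mv1 hw with h2 | h2
      · exact Or.inl ⟨hw, h2⟩
      · exact Or.inr ⟨hw, h2⟩
  refine (sum_le_sum h0).trans ?_
  rw [sum_comm]
  have h2 : ∀ i ∈ (univ : Finset ι), ∑ k ∈ range T,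
      (P.Pr (fun w => stg (Cfr P N (Lf i) (Yf i) δ) (k + 1) w = k + 1 ∧
          δ / 2 ≤ |∑ j ∈ Ico (stg (Cfr P N (Lf i) (Yf i) δ) k w) (k + 1), ai P N (Lf i) (Yf i) j w|) +
        P.Pr (fun w => stg (Cfr P N (Lf i) (Yf i) δ) (k + 1) w = k + 1 ∧
          δ / 2 ≤ ∑ j ∈ Ico (stg (Cfr P N (Lf i) (Yf i) δ) k w) (k + 1), bi P N (Lf i) (Yf i) j w)) ≤
      16 / δ ^ 2 * Tot := by
    intro i _
    rw [sum_add_distrib]
    have hsn : ∀ k, Fac (N k) (stg (Cno (Om := Om)) k) := fun k a b _ => by rw [stg_no, stg_no]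
    have h3 := moves_al (P := P) (N := N) (L := Lf i) (Y := Yf i) (st := stg (Cfr P N (Lf i) (Yf i) δ)) hN (hL i) (hY i)
      (fun w => stg_zero w) (fun k w => stg_or k w) (fun k => own_fac hN hsn (hL i) (hY i) k) (half_pos hδ)
      (by linarith) T
    have h4 := moves_b (P := P) (N := N) (L := Lf i) (Y := Yf i) (st := stg (Cfr P N (Lf i) (Yf i) δ)) (hL i)
      (fun w => stg_zero w) (fun k w => stg_or k w) (half_pos hδ) T
    have hd2 : 0 < δ ^ 2 := by positivity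
    have hT0 : 0 ≤ Tot := le_trans (sum_nonneg fun k _ => P.E_nonneg fun w hw => bi_nonneg P (hL i) k hw) (hB i)
    have h5 : 3 / (δ / 2) ^ 2 * ∑ k ∈ range T, P.E (ai P N (Lf i) (Yf i) k) ≤ 12 / δ ^ 2 * Tot := by
      have e1 : 3 / (δ / 2) ^ 2 = 12 / δ ^ 2 := by
        rw [div_pow, div_div_eq_mul_div]
        norm_num
      rw [e1]
      exact mul_le_mul_of_nonneg_left (hA i) (by positivity)
    have h6 : 1 / (δ / 2) * ∑ k ∈ range T, P.E (bi P N (Lf i) (Yf i) k) ≤ 4 / δ ^ 2 * Tot := by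
      have h7 : 1 / (δ / 2) ≤ 4 / δ ^ 2 := by
        rw [div_le_div_iff₀ (by positivity) hd2]
        nlinarith
      exact (mul_le_mul_of_nonneg_left (hB i) (by positivity)).trans (mul_le_mul_of_nonneg_right h7 hT0)
    have h8 : 16 / δ ^ 2 * Tot = 12 / δ ^ 2 * Tot + 4 / δ ^ 2 * Tot := by ring
    rw [h8]
    exact add_le_add (h3.trans h5) (h4.trans h6)
  refine (sum_le_sum h2).trans (le_of_eq ?_)
  rw [sum_const, card_univ, nsmul_eq_mul]

/-- a move of the point contains a restart of a free clock -/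
theorem mvd_free (hL : ∀ i k, Fac (Lf i (k + 1)) (Lf i k)) (hδ : 0 < δ) {w : Om} (hw : P.p w ≠ 0) {ν k : ℕ}
    (hm : Evm P N Lf Yf δ ν k w) : ∃ l, ν < l ∧ l ≤ k ∧ Rfr P N Lf Yf δ l w := by
  obtain ⟨j, h1, h2, i, h3⟩ := hm
  obtain ⟨l, h4, h5, h6⟩ := mv_free (hL i) hδ hw h1 h3
  exact ⟨l, h4, h5.trans h2, i, h6⟩

/-- **epochs of any clock in which the true point moves** -/
theorem ever_free [Fintype ι] (hN : ∀ k, Fac (N (k + 1)) (N k)) (hL : ∀ i k, Fac (Lf i (k + 1)) (Lf i k))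
    (hY : ∀ i k, Fac (Lf i k) (Yf i)) (hδ : 0 < δ) (hδ1 : δ ≤ 1) (T : ℕ)
    {Tot : ℝ} (hA : ∀ i, ∑ k ∈ range T, P.E (ai P N (Lf i) (Yf i) k) ≤ Tot)
    (hB : ∀ i, ∑ k ∈ range T, P.E (bi P N (Lf i) (Yf i) k) ≤ Tot) :
    ∑ k ∈ range T, P.Pr (fun w => Evm P N Lf Yf δ (stg C (k + 1) w) (k + 1) w ∧ ¬ Evm P N Lf Yf δ (stg C k w) k w) ≤
      Fintype.card ι * (16 / δ ^ 2 * Tot) := by
  refine le_trans ?_ (free_cnt hN hL hY hδ hδ1 T hA hB)
  unfold FP.Pr
  rw [← P.E_sum, ← P.E_sum]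
  refine P.E_mono fun w hw => ?_
  have h1 := cnt_new (C := C) T w (fun k => Evm P N Lf Yf δ (stg C k w) k w) (fun j => Rfr P N Lf Yf δ j w)
    (fun k hk => by
      show ¬ Evm P N Lf Yf δ (stg C (k + 1) w) (k + 1) w
      rw [hk]
      exact not_Evm_self (k + 1) w)
    (fun k hk h => by
      show Evm P N Lf Yf δ (stg C (k + 1) w) (k + 1) w
      rw [hk]
      exact Evm_mono (Nat.le_succ k) h)
    (fun k h _ => mvd_free hL hδ hw h)
  have h2 := ind_nonneg (¬ Evm P N Lf Yf δ (stg C T w) T w ∧ ∃ l, stg C T w < l ∧ l ≤ T ∧ Rfr P N Lf Yf δ l w)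
  linarith

/-- **ends of any clock after a move of the true point** -/
theorem ends_free [Fintype ι] (hN : ∀ k, Fac (N (k + 1)) (N k)) (hL : ∀ i k, Fac (Lf i (k + 1)) (Lf i k))
    (hY : ∀ i k, Fac (Lf i k) (Yf i)) (hδ : 0 < δ) (hδ1 : δ ≤ 1) (T : ℕ)
    {Tot : ℝ} (hA : ∀ i, ∑ k ∈ range T, P.E (ai P N (Lf i) (Yf i) k) ≤ Tot)
    (hB : ∀ i, ∑ k ∈ range T, P.E (bi P N (Lf i) (Yf i) k) ≤ Tot) :
    ∑ k ∈ range T, P.Pr (fun w => stg C (k + 1) w = k + 1 ∧ Evm P N Lf Yf δ (stg C k w) (k + 1) w) ≤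
      Fintype.card ι * (16 / δ ^ 2 * Tot) := by
  refine le_trans ?_ ((ends_in (P := P) (C := C) (Rfr P N Lf Yf δ) T).trans (free_cnt hN hL hY hδ hδ1 T hA hB))
  refine sum_le_sum fun k _ => P.Pr_mono fun w hw h => ?_
  exact ⟨h.1, mvd_free hL hδ hw h.2⟩

end ever

end Pool.Agent.GMH.CK
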