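import Pool.Agent.GMH.TopDef
import Pool.Agent.GMH.TD5
import Pool.Agent.GMH.CK2

/-!
# GMH/CKB: births of the thin letters on substeps (helper34)

`LJt J q` = letters of the vertices of `J` before the substep `q`, `NVq v q` = letter of the vertex `v` and the public information.
For every finer sight `N` : created entropies `≤ 3 |J| n Lam` (`births_thin`), totals for `CK.ends_mv` (`tot_thin`), light
public and private values (`light_pub`, `light_priv`).
-/

set_option autoImplicit false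
set_option linter.unusedSectionVars false

namespace Pool.Agent.GMH.CKB

open Finset Pool.Agent.PWZ Pool.Agent.M3 Pool.Agent.GM Pool.Agent.GM.Harm Pool.Agent.GMH Pool.Agent.GMH.NZ
open Pool.Agent.GMH.V3 Pool.Agent.GMH.TP Pool.Agent.GMH.TD
open Pool.Agent.GMH.Dead (Dry E_time m_time Pr_time H_time Hc_time Thin thin_one cst_eq)

noncomputable section

variable {X β γ φ υ : Type} [Fintype X] [Fintype β] [Fintype φ] [Nonempty X] [Nonempty β]

/-- letters of the vertices in `J` before the substep `q` -/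
def LJt (v : ℕ → Finset (Fin 3) → X → (Fin 3 → β) → υ) (J : Finset (Fin 3)) (q : ℕ) (w : Pt (Fin 3) X β φ) :
    Fin 3 → Option (β × List υ) := fun j => if j ∈ J then some (XLq v q j w) else Option.none

/-- sight of the vertex `i` -/
def NVq (D : HD (Fin 3) X β γ φ) (v : ℕ → Finset (Fin 3) → X → (Fin 3 → β) → υ) (i : Fin 3) (q : ℕ)
    (w : Pt (Fin 3) X β φ) : (β × List υ) × (List υ × (γ × (Fin 3 → γ))) := (XLq v q i w, NPq D v q w)

variable {D : HD (Fin 3) X β γ φ} {al : ℝ} (h : D.Thick al) {v : ℕ → Finset (Fin 3) → X → (Fin 3 → β) → υ}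

/-! ### points only, monotone -/

theorem dry_XLq (q : ℕ) (i : Fin 3) : Dry (φ := φ) (XLq v q i) := fun a b h1 h2 =>
  Prod.ext (congrFun h2 i) (by
    show Um v (nc q {i}) {i} a.1 a.2.1 = Um v (nc q {i}) {i} b.1 b.2.1
    rw [h1, h2])

theorem dry_NPq (q : ℕ) : Dry (φ := φ) (NPq D v q) := fun a b h1 h2 => by
  show (Um v (nc q ∅) ∅ a.1 a.2.1, (D.qa (TP.nn q) a.1, fun j => D.qb (TP.nn q) (a.2.1 j))) =
    (Um v (nc q ∅) ∅ b.1 b.2.1, (D.qa (TP.nn q) b.1, fun j => D.qb (TP.nn q) (b.2.1 j)))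
  rw [h1, h2]

theorem pth_one (i : Fin 3) : pth ({i} : Finset (Fin 3)) := by
  show ({i} : Finset (Fin 3)).card ≤ 1
  rw [Finset.card_singleton]

theorem pth_emp : pth (∅ : Finset (Fin 3)) := by
  show (∅ : Finset (Fin 3)).card ≤ 1
  rw [Finset.card_empty]
  exact Nat.zero_le 1

theorem XLq_fac (q : ℕ) (i : Fin 3) : Fac (XLq (φ := φ) v (q + 1) i) (XLq v q i) := by
  intro a b hab
  have h1 := Prod.mk.inj hab
  exact Prod.ext h1.1 (Um_older (nc_succ q (pth_one i)) h1.2)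

theorem NPq_fac (q : ℕ) : Fac (NPq (φ := φ) D v (q + 1)) (NPq D v q) := by
  intro a b hab
  have h1 := Prod.mk.inj hab
  exact Prod.ext (Um_older (nc_succ q pth_emp) h1.1) (nd_mono' (nn_succ q) a b h1.2)

theorem NVq_fac (i : Fin 3) (q : ℕ) : Fac (NVq (φ := φ) D v i (q + 1)) (NVq D v i q) := by
  intro a b hab
  have h1 := Prod.mk.inj hab
  exact Prod.ext (XLq_fac q i a b h1.1) (NPq_fac q a b h1.2)

theorem NVq_NPq (i : Fin 3) (q : ℕ) : Fac (NVq (φ := φ) D v i q) (NPq D v q) := fun _ _ hab => (Prod.mk.inj hab).2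

theorem LJt_eq {J : Finset (Fin 3)} {q : ℕ} {a b : Pt (Fin 3) X β φ} :
    LJt v J q a = LJt v J q b ↔ ∀ j ∈ J, XLq v q j a = XLq v q j b := by
  unfold LJt
  rw [funext_iff]
  constructor
  · intro hh j hj
    have := hh j
    rw [if_pos hj, if_pos hj] at this
    exact Option.some.inj this
  · intro hh j
    by_cases hj : j ∈ J
    · rw [if_pos hj, if_pos hj, hh j hj]
    · rw [if_neg hj, if_neg hj]

theorem LJt_fac (J : Finset (Fin 3)) (q : ℕ) : Fac (LJt (φ := φ) v J (q + 1)) (LJt v J q) := fun _ _ hab =>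
  LJt_eq.2 fun j hj => XLq_fac q j _ _ (LJt_eq.1 hab j hj)

theorem LJt_pts (J : Finset (Fin 3)) (q : ℕ) : Fac (LJt (φ := φ) v J q) (PJ J) := fun _ _ hab =>
  C5.PJ_eq.2 fun j hj => congrArg Prod.fst (LJt_eq.1 hab j hj)

theorem dry_LJt (J : Finset (Fin 3)) (q : ℕ) : Dry (φ := φ) (LJt v J q) := fun a b h1 h2 => by
  refine LJt_eq.2 fun j _ => dry_XLq q j a b h1 h2

theorem dry_NVq (i : Fin 3) (q : ℕ) : Dry (φ := φ) (NVq D v i q) := fun a b h1 h2 =>
  Prod.ext (dry_XLq q i a b h1 h2) (dry_NPq q a b h1 h2)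

/-! ### the letter of one vertex -/

theorem rk_one (i : Fin 3) : 2 ≤ rk {i} ∧ rk {i} ≤ 4 := by
  have key : ∀ i : Fin 3, 2 ≤ rk {i} ∧ rk {i} ≤ 4 := by decide
  exact key i

theorem rk_emp : rk ∅ = 1 := by decide

theorem XLq_ne {t j : ℕ} (hj : j < 5) {i : Fin 3} (hne : j ≠ rk {i}) :
    XLq (φ := φ) v (5 * t + j + 1) i = XLq v (5 * t + j) i := by
  unfold XLq
  rw [show 5 * t + j + 1 = 5 * t + (j + 1) by ring, nc_add t (j + 1) (pth_one i) (by omega),
    nc_add t j (pth_one i) (by omega)]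
  unfold ncj
  have e : (rk {i} < j + 1) ↔ (rk {i} < j) := by omega
  by_cases h1 : rk {i} < j
  · rw [if_pos h1, if_pos (e.2 h1)]
  · rw [if_neg h1, if_neg fun h2 => h1 (e.1 h2)]

theorem XLq_old {t : ℕ} {i : Fin 3} : XLq (φ := φ) v (5 * t + rk {i}) i = XL v (t + 1) i := by
  unfold XLq
  have h2 := rk_one i
  rw [nc_add t (rk {i}) (pth_one i) (by omega)]
  unfold ncj
  rw [if_neg (lt_irrefl _), add_zero]

theorem XLq_new {t : ℕ} {i : Fin 3} : XLq (φ := φ) v (5 * t + rk {i} + 1) i = XL v (t + 2) i := by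
  unfold XLq
  have h2 := rk_one i
  rw [show 5 * t + rk {i} + 1 = 5 * t + (rk {i} + 1) by ring, nc_add t (rk {i} + 1) (pth_one i) (by omega)]
  unfold ncj
  rw [if_pos (by omega)]

theorem NPq_new {t j : ℕ} (h1 : 1 ≤ j) (h4 : j ≤ 4) : NPq (φ := φ) D v (5 * t + j + 1) = NP D v (t + 2) (t + 1) := by
  unfold NPq
  rw [show 5 * t + j + 1 = 5 * t + (j + 1) by ring, nc_add t (j + 1) pth_emp (by omega), nn_add t (j + 1) (by omega)]
  unfold ncj nnj
  rw [rk_emp, if_pos (by omega), if_neg (by omega)]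

theorem NPq_one (t : ℕ) : NPq (φ := φ) D v (5 * t + 1) = NP D v (t + 1) (t + 1) := by
  unfold NPq
  rw [nc_add t 1 pth_emp (by omega), nn_add t 1 (by omega)]
  unfold ncj nnj
  rw [rk_emp, if_neg (by omega), if_neg (by omega), add_zero]

theorem NPq_zero : NPq (φ := φ) D v 0 = NP D v 1 0 := by
  unfold NPq
  have h1 := nc_add 0 0 pth_emp (by omega)
  have h2 := nn_add 0 0 (by omega)
  rw [show 5 * 0 + 0 = 0 by norm_num] at h1 h2
  rw [h1, h2]
  unfold ncj nnj
  rw [rk_emp, if_neg (by omega), if_pos rfl]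

theorem XLq_zero (i : Fin 3) : XLq (φ := φ) v 0 i = XL v 1 i := by
  unfold XLq
  have h1 := nc_add 0 0 (pth_one i) (by omega)
  rw [show 5 * 0 + 0 = 0 by norm_num] at h1
  rw [h1]
  unfold ncj
  rw [if_neg (Nat.not_lt_zero _)]

/-- the created entropy of one letter in one substep -/
def cq (v : ℕ → Finset (Fin 3) → X → (Fin 3 → β) → υ) (q : ℕ) (i : Fin 3) : ℝ :=
  ind (q % 5 = rk {i}) * cst h v (q / 5 + 1) {i}

theorem cq_nonneg (q : ℕ) (i : Fin 3) : 0 ≤ cq h v q i := mul_nonneg (ind_nonneg _) (cst_nonneg h _ _)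

theorem step_q (R q : ℕ) (i : Fin 3) :
    (D.P h R).Hc (XLq v (q + 1) i) (fun w => (XLq v q i w, w.2.1 i, NPq D v (q + 1) w)) ≤ cq h v q i := by
  obtain ⟨t, j, hj, rfl⟩ : ∃ t j, j < 5 ∧ q = 5 * t + j := ⟨q / 5, q % 5, Nat.mod_lt _ (by norm_num), by omega⟩
  unfold cq
  rw [show (5 * t + j) % 5 = j by omega, show (5 * t + j) / 5 = t by omega]
  by_cases hji : j = rk {i}
  · rw [ind_of hji, one_mul, hji]
    have h2 := rk_one i
    rw [XLq_new, XLq_old, NPq_new (by omega) (by omega), cst_one]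
    refine le_of_eq ?_
    have d1 : Dry (φ := φ) (XL v (t + 2) i) := fun a b e1 e2 => Prod.ext (congrFun e2 i) (by
      show Um v (t + 2) {i} a.1 a.2.1 = Um v (t + 2) {i} b.1 b.2.1
      rw [e1, e2])
    have d2 : Dry (φ := φ) (fun w => (XL v (t + 1) i w, w.2.1 i, NP D v (t + 2) (t + 1) w)) := fun a b e1 e2 => by
      show ((a.2.1 i, Um v (t + 1) {i} a.1 a.2.1), a.2.1 i, Um v (t + 2) ∅ a.1 a.2.1, D.qa (t + 1) a.1,
          fun j => D.qb (t + 1) (a.2.1 j)) =
        ((b.2.1 i, Um v (t + 1) {i} b.1 b.2.1), b.2.1 i, Um v (t + 2) ∅ b.1 b.2.1, D.qa (t + 1) b.1,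
          fun j => D.qb (t + 1) (b.2.1 j))
      rw [e1, e2]
    exact Hc_time h d1 d2 R (t + 1)
  · rw [ind_not hji, zero_mul, XLq_ne hj hji]
    refine (Hc_of_fac _ ?_).le
    intro a b hab
    exact (Prod.mk.inj hab).1

theorem start_q (R : ℕ) (i : Fin 3) :
    (D.P h R).Hc (XLq v 0 i) (fun w => (w.2.1 i, NPq D v 0 w)) = cst h v 0 {i} := by
  have h1 := start_one h (v := v) R i
  have e1 : XLr (φ := φ) v 0 i = XL v (0 + 1) i := XLr_even 0 i
  have e2 : NPr (φ := φ) v D 0 = NP D v (0 + 1) 0 := NPr_even 0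
  rw [e1, e2] at h1
  rw [XLq_zero, NPq_zero]
  exact h1

theorem sum_cq (T : ℕ) (i : Fin 3) : ∑ q ∈ range (5 * T), cq h v q i = ∑ t ∈ range T, cst h v (t + 1) {i} := by
  have h2 := rk_one i
  induction T with
  | zero => simp
  | succ T ih =>
    rw [show 5 * (T + 1) = 5 * T + 1 + 1 + 1 + 1 + 1 by ring, Finset.sum_range_succ, Finset.sum_range_succ,
      Finset.sum_range_succ, Finset.sum_range_succ, Finset.sum_range_succ, ih, Finset.sum_range_succ]
    unfold cq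
    rw [show (5 * T) % 5 = 0 by omega, show (5 * T + 1) % 5 = 1 by omega, show (5 * T + 1 + 1) % 5 = 2 by omega,
      show (5 * T + 1 + 1 + 1) % 5 = 3 by omega, show (5 * T + 1 + 1 + 1 + 1) % 5 = 4 by omega,
      show (5 * T) / 5 = T by omega, show (5 * T + 1) / 5 = T by omega, show (5 * T + 1 + 1) / 5 = T by omega,
      show (5 * T + 1 + 1 + 1) / 5 = T by omega, show (5 * T + 1 + 1 + 1 + 1) / 5 = T by omega]
    have h3 : rk {i} = 2 ∨ rk {i} = 3 ∨ rk {i} = 4 := by omega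
    rcases h3 with h3 | h3 | h3 <;> rw [h3]
    · rw [ind_not (by norm_num), ind_not (by norm_num), ind_of rfl, ind_not (by norm_num), ind_not (by norm_num)]
      ring
    · rw [ind_not (by norm_num), ind_not (by norm_num), ind_not (by norm_num), ind_of rfl, ind_not (by norm_num)]
      ring
    · rw [ind_not (by norm_num), ind_not (by norm_num), ind_not (by norm_num), ind_not (by norm_num), ind_of rfl]
      ring

/-! ### the letters of a set of vertices -/

theorem Hc_LJt_le {ι : Type*} {κ : Fin 3 → Type*} (P : FP (Pt (Fin 3) X β φ)) {Z : Pt (Fin 3) X β φ → ι} (q : ℕ)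
    (S : Finset (Fin 3)) (Zj : ∀ j : Fin 3, Pt (Fin 3) X β φ → κ j) (hZ : ∀ j ∈ S, Fac Z (Zj j)) :
    P.Hc (LJt v S q) Z ≤ ∑ j ∈ S, P.Hc (XLq v q j) (Zj j) := by
  induction S using Finset.induction_on with
  | empty =>
    rw [Finset.sum_empty]
    refine (Hc_of_fac P ?_).le
    intro a b _
    exact LJt_eq.2 fun j hj => absurd hj (Finset.notMem_empty j)
  | insert i S hi ih =>
    rw [Finset.sum_insert hi]
    have h1 : P.Hc (LJt v (insert i S) q) Z ≤ P.Hc (fun w => (XLq v q i w, LJt v S q w)) Z := by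
      refine P.Hc_mono Z ?_
      intro a b hab
      simp only [Prod.mk.injEq] at hab
      refine LJt_eq.2 fun j hj => ?_
      rcases Finset.mem_insert.1 hj with h2 | h2
      · rw [h2]; exact hab.1.1
      · exact LJt_eq.1 hab.1.2 j h2
    refine (h1.trans (Hc_pair_le P (hZ i (Finset.mem_insert_self i S)) (Fac.refl Z))).trans ?_
    exact add_le_add le_rfl (ih fun j hj => hZ j (Finset.mem_insert_of_mem hj))

/-- **created entropies of the letters of `J`, any finer sight** -/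
theorem Hc_LJt_sum (R T : ℕ) (J : Finset (Fin 3)) {κ : Type*} {N : ℕ → Pt (Fin 3) X β φ → κ}
    (hN : ∀ q, Fac (N q) (NPq D v q)) :
    (D.P h R).Hc (LJt v J 0) (fun w => (PJ J w, N 0 w)) +
      ∑ q ∈ range (5 * T), (D.P h R).Hc (LJt v J (q + 1)) (fun w => (LJt v J q w, N (q + 1) w)) ≤
      ∑ j ∈ J, ∑ t ∈ range (T + 1), cst h v t {j} := by
  have h0 : (D.P h R).Hc (LJt v J 0) (fun w => (PJ J w, N 0 w)) ≤ ∑ j ∈ J, cst h v 0 {j} := by
    have h1 := Hc_LJt_le (v := v) (D.P h R) (Z := fun w => (PJ J w, N 0 w)) 0 J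
      (fun j w => (w.2.1 j, NPq D v 0 w)) (by
        intro j hj a b hab
        have h2 := Prod.mk.inj hab
        simp only [Prod.mk.injEq]
        exact ⟨C5.PJ_eq.1 h2.1 j hj, hN 0 a b h2.2⟩)
    exact h1.trans (le_of_eq (Finset.sum_congr rfl fun j _ => start_q h R j))
  have h3 : ∀ q, (D.P h R).Hc (LJt v J (q + 1)) (fun w => (LJt v J q w, N (q + 1) w)) ≤ ∑ j ∈ J, cq h v q j := by
    intro q
    have h1 := Hc_LJt_le (v := v) (D.P h R) (Z := fun w => (LJt v J q w, N (q + 1) w)) (q + 1) J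
      (fun j w => (XLq v q j w, w.2.1 j, NPq D v (q + 1) w)) (by
        intro j hj a b hab
        have h2 := Prod.mk.inj hab
        have h4 := LJt_eq.1 h2.1 j hj
        simp only [Prod.mk.injEq]
        exact ⟨h4, congrArg Prod.fst h4, hN (q + 1) a b h2.2⟩)
    exact h1.trans (Finset.sum_le_sum fun j _ => step_q h R q j)
  refine (add_le_add h0 (Finset.sum_le_sum fun q _ => h3 q)).trans (le_of_eq ?_)
  rw [Finset.sum_comm, ← Finset.sum_add_distrib]
  refine Finset.sum_congr rfl fun j _ => ?_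
  rw [sum_cq, Finset.sum_range_succ', add_comm]

/-! ### totals -/

/-- finer sights, births -/
theorem bi_thin (R T : ℕ) (J : Finset (Fin 3)) {κ : Type*} {N : ℕ → Pt (Fin 3) X β φ → κ}
    (hN : ∀ q, Fac (N q) (NPq D v q)) :
    (D.P h R).Hc (LJt v J 0) (fun w => (PJ J w, N 0 w)) +
      ∑ q ∈ range (5 * T), (D.P h R).E (bi (D.P h R) N (LJt v J) (PJ J) q) ≤
      ∑ j ∈ J, ∑ t ∈ range (T + 1), cst h v t {j} := by
  have h1 : ∑ q ∈ range (5 * T), (D.P h R).E (bi (D.P h R) N (LJt v J) (PJ J) q) =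
      ∑ q ∈ range (5 * T), (D.P h R).Hc (LJt v J (q + 1)) (fun w => (LJt v J q w, N (q + 1) w)) :=
    Finset.sum_congr rfl fun q _ => E_bi (D.P h R) (N := N) (Y := PJ J) (LJt_fac J) q
  rw [h1]
  exact Hc_LJt_sum h R T J hN

theorem ai_thin (R T : ℕ) (J : Finset (Fin 3)) {κ : Type*} {N : ℕ → Pt (Fin 3) X β φ → κ}
    (hN : ∀ q, Fac (N q) (NPq D v q)) :
    ∑ q ∈ range (5 * T), (D.P h R).E (ai (D.P h R) N (LJt v J) (PJ J) q) ≤
      ∑ j ∈ J, ∑ t ∈ range (T + 1), cst h v t {j} :=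
  (sum_ai (D.P h R) (N := N) (L := LJt v J) (Y := PJ J) (LJt_pts J) (5 * T)).trans (bi_thin h R T J hN)

/-- the light values of a refinement, one substep -/
theorem light_step {κ : Type*} (R : ℕ) {N : ℕ → Pt (Fin 3) X β φ → κ} (hN : ∀ q, Fac (N (q + 1)) (N q)) {A : ℕ → Prop} (q : ℕ) :
    (D.P h R).Pr (fun w => A q ∧ 2 * (D.P h R).m (N (q + 1)) w < (D.P h R).m (N q) w) ≤
      ind (A q) * (D.P h R).Hc (N (q + 1)) (N q) / Real.log 2 := by
  by_cases hA : A q
  · rw [ind_of hA, one_mul]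
    exact ((D.P h R).Pr_mono fun w _ hw => hw.2).trans (C5.Pr_light (D.P h R) (N q) (N (q + 1)) (hN q))
  · rw [ind_not hA, zero_mul, zero_div]
    refine le_of_eq ?_
    show (D.P h R).E (fun w => ind (A q ∧ _)) = 0
    refine ((D.P h R).E_congr (g := fun _ => 0) fun w _ => ind_not fun hh => hA hh.1).trans ((D.P h R).E_const 0)

theorem Hc_NPq (R t : ℕ) : (D.P h R).Hc (NPq D v (5 * t + 1 + 1)) (NPq D v (5 * t + 1)) = cst h v (t + 1) ∅ := by
  rw [NPq_new (by omega) (by omega), NPq_one, C5.cst_cls]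
  have d1 : ∀ s n : ℕ, Dry (φ := φ) (NP D v s n) := fun s n a b e1 e2 => by
    show (Um v s ∅ a.1 a.2.1, D.qa n a.1, fun j => D.qb n (a.2.1 j)) =
      (Um v s ∅ b.1 b.2.1, D.qa n b.1, fun j => D.qb n (b.2.1 j))
    rw [e1, e2]
  exact Hc_time h (d1 _ _) (d1 _ _) R (t + 1)

/-- **light public values** -/
theorem sum_light_pub (R T : ℕ) : ∑ q ∈ range (5 * T), (D.P h R).Pr (fun w => q % 5 = 1 ∧
      2 * (D.P h R).m (NPq D v (q + 1)) w < (D.P h R).m (NPq D v q) w) ≤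
    (∑ t ∈ range (T + 1), cst h v t ∅) / Real.log 2 := by
  have hl : 0 < Real.log 2 := Real.log_pos (by norm_num)
  have h1 : ∀ T : ℕ, ∑ q ∈ range (5 * T), ind (q % 5 = 1) * (D.P h R).Hc (NPq D v (q + 1)) (NPq D v q) =
      ∑ t ∈ range T, cst h v (t + 1) ∅ := by
    intro T
    induction T with
    | zero => simp
    | succ T ih =>
      rw [show 5 * (T + 1) = 5 * T + 1 + 1 + 1 + 1 + 1 by ring, Finset.sum_range_succ, Finset.sum_range_succ,
        Finset.sum_range_succ, Finset.sum_range_succ, Finset.sum_range_succ, ih, Finset.sum_range_succ,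
        ind_not (by omega), ind_of (by omega), ind_not (by omega), ind_not (by omega), ind_not (by omega), Hc_NPq]
      ring
  refine (Finset.sum_le_sum fun q _ => light_step h R (N := NPq D v) NPq_fac (A := fun q => q % 5 = 1) q).trans ?_
  rw [← Finset.sum_div, h1 T]
  refine div_le_div_of_nonneg_right ?_ hl.le
  rw [Finset.sum_range_succ' _ T]
  have := cst_nonneg h (v := v) 0 ∅
  linarith

theorem Hc_NVq (R q : ℕ) (i : Fin 3) (hq : q % 5 = rk {i}) :
    (D.P h R).Hc (NVq D v i (q + 1)) (NVq D v i q) ≤ cst h v (q / 5 + 1) {i} := by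
  have h2 := rk_one i
  obtain ⟨t, ht⟩ : ∃ t, q = 5 * t + rk {i} := ⟨q / 5, by omega⟩
  have eN : NPq (φ := φ) D v (q + 1) = NPq D v q := by
    rw [ht, NPq_new (by omega) (by omega)]
    obtain ⟨j, hj⟩ : ∃ j, rk {i} = j + 1 := ⟨rk {i} - 1, by omega⟩
    rw [hj, show 5 * t + (j + 1) = 5 * t + j + 1 by ring, NPq_new (by omega) (by omega)]
  have h3 := step_q h (v := v) R q i
  unfold cq at h3
  rw [ind_of hq, one_mul] at h3
  have h4 : (D.P h R).Hc (NVq D v i (q + 1)) (NVq D v i q) ≤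
      (D.P h R).Hc (fun w => (XLq v (q + 1) i w, NPq D v (q + 1) w)) (fun w => (XLq v q i w, w.2.1 i, NPq D v (q + 1) w)) := by
    refine (D.P h R).Hc_anti _ ?_
    intro a b hab
    have h5 : NVq D v i q a = NVq D v i q b := hab
    have h6 := Prod.mk.inj h5
    show (XLq v q i a, a.2.1 i, NPq D v (q + 1) a) = (XLq v q i b, b.2.1 i, NPq D v (q + 1) b)
    rw [h6.1, eN, h6.2, show a.2.1 i = b.2.1 i from congrArg Prod.fst h6.1]
  refine h4.trans (le_trans ?_ h3)
  refine (D.P h R).Hc_mono _ ?_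
  intro a b hab
  have h5 := (Prod.mk.inj hab).1
  have h6 := (Prod.mk.inj hab).2
  simp only [Prod.mk.injEq] at h6
  show (XLq v (q + 1) i a, NPq D v (q + 1) a) = (XLq v (q + 1) i b, NPq D v (q + 1) b)
  rw [h5, h6.2.2]

/-- **light private values** -/
theorem sum_light_priv (R T : ℕ) (i : Fin 3) : ∑ q ∈ range (5 * T), (D.P h R).Pr (fun w => q % 5 = rk {i} ∧
      2 * (D.P h R).m (NVq D v i (q + 1)) w < (D.P h R).m (NVq D v i q) w) ≤
    (∑ t ∈ range (T + 1), cst h v t {i}) / Real.log 2 := by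
  have hl : 0 < Real.log 2 := Real.log_pos (by norm_num)
  refine (Finset.sum_le_sum fun q _ => light_step h R (N := NVq D v i) (NVq_fac i) (A := fun q => q % 5 = rk {i}) q).trans ?_
  rw [← Finset.sum_div]
  refine div_le_div_of_nonneg_right ?_ hl.le
  have h1 : ∀ q ∈ range (5 * T), ind (q % 5 = rk {i}) * (D.P h R).Hc (NVq D v i (q + 1)) (NVq D v i q) ≤ cq h v q i := by
    intro q _
    unfold cq
    by_cases hq : q % 5 = rk {i}
    · rw [ind_of hq, one_mul, one_mul]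
      exact Hc_NVq h R q i hq
    · rw [ind_not hq, zero_mul, zero_mul]
  refine (Finset.sum_le_sum h1).trans ?_
  rw [sum_cq, Finset.sum_range_succ' _ T]
  have := cst_nonneg h (v := v) 0 {i}
  linarith

end

/-! ### the run -/

variable {X β γ φ : Type} [Fintype X] [Fintype β] [Fintype φ] [Nonempty X] [Nonempty β]
variable {D : HD (Fin 3) X β γ φ} {al : ℝ} {h : D.Thick al} {v : ℕ → Finset (Fin 3) → X → (Fin 3 → β) → Pt (Fin 3) X β φ}

theorem cost_J {n N1 : ℝ} (hn : 1 ≤ n) (hN1 : 1 ≤ N1) (R : Run h (pr3 (Fin 3) n N1) (SS1 (Fin 3)) (AdmDep D) v)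
    {dg : ℕ → X → ℝ} {prr : ℕ → Fin 3 → φ → φ} {T : ℕ} {Lam : ℝ} (H : D.Hyp dg prr al T Lam) (J : Finset (Fin 3)) :
    ∑ j ∈ J, ∑ t ∈ range (T + 1), cst h v t {j} ≤ J.card * (3 * (n * Lam)) := by
  have h3 : ∀ j ∈ J, ∑ t ∈ range (T + 1), cst h v t {j} ≤ 3 * (n * Lam) := fun j _ =>
    GMH.cost_thin rfl H hn hN1 R j
  refine (Finset.sum_le_card_nsmul _ _ _ h3).trans ?_
  rw [nsmul_eq_mul]

/-- **totals of the thin letters of `J`, any finer sight** -/
theorem tot_thin {n N1 : ℝ} (hn : 1 ≤ n) (hN1 : 1 ≤ N1) (R : Run h (pr3 (Fin 3) n N1) (SS1 (Fin 3)) (AdmDep D) v)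
    {dg : ℕ → X → ℝ} {prr : ℕ → Fin 3 → φ → φ} {T : ℕ} {Lam : ℝ} (H : D.Hyp dg prr al T Lam) (J : Finset (Fin 3)) (S : ℕ)
    {κ : Type*} {N : ℕ → Pt (Fin 3) X β φ → κ} (hN : ∀ q, Fac (N q) (NPq D v q)) :
    ∑ q ∈ range (5 * T), (D.P h S).E (ai (D.P h S) N (LJt v J) (PJ J) q) ≤ 9 * n * Lam ∧
      ∑ q ∈ range (5 * T), (D.P h S).E (bi (D.P h S) N (LJt v J) (PJ J) q) ≤ 9 * n * Lam := by
  have h1 := ai_thin h (v := v) S T J hN
  have h2 := bi_thin h (v := v) S T J hN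
  have h3 := cost_J hn hN1 R H J
  have h4 : (J.card : ℝ) ≤ 3 := by exact_mod_cast (Finset.card_le_univ J)
  have h5 : 0 ≤ 3 * (n * Lam) := by
    have := H.Lam1
    positivity
  have h6 : (J.card : ℝ) * (3 * (n * Lam)) ≤ 9 * n * Lam := by nlinarith
  have h7 := (D.P h S).Hc_nonneg (LJt v J 0) (fun w => (PJ J w, N 0 w))
  constructor
  · linarith
  · linarith

/-- **light public values of the run** -/
theorem light_pub {n N1 : ℝ} (hn : 1 ≤ n) (hN1 : 1 ≤ N1) (R : Run h (pr3 (Fin 3) n N1) (SS1 (Fin 3)) (AdmDep D) v)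
    {dg : ℕ → X → ℝ} {prr : ℕ → Fin 3 → φ → φ} {T : ℕ} {Lam : ℝ} (H : D.Hyp dg prr al T Lam) (S : ℕ) :
    ∑ q ∈ range (5 * T), (D.P h S).Pr (fun w => q % 5 = 1 ∧
      2 * (D.P h S).m (NPq D v (q + 1)) w < (D.P h S).m (NPq D v q) w) ≤ 6 * n * N1 * Lam := by
  have h1 := sum_light_pub h (v := v) S T
  have h2 := cost_le h H (N := pr3 (Fin 3) n N1) (Ntop := n * N1)
    (fun J => lt_of_lt_of_le zero_lt_one (pr3_one hn hN1 J)) (fun l => (pr3_top rfl n N1 l).le)
    (fun t _ => R.nonpos (admDep_ok D) t) (J := ∅) (ne_u rfl)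
  have e : pr3 (Fin 3) n N1 ∅ = 1 := by
    unfold pr3
    rw [if_pos Finset.card_empty]
  rw [e, div_one, Fintype.card_fin] at h2
  push_cast at h2
  refine h1.trans ?_
  rw [div_le_iff₀ (Real.log_pos (by norm_num))]
  have h3 := Real.log_two_gt_d9
  have h4 : 0 ≤ n * N1 * Lam := by
    have := H.Lam1
    positivity
  nlinarith

/-- **light private values of the run** -/
theorem light_priv {n N1 : ℝ} (hn : 1 ≤ n) (hN1 : 1 ≤ N1) (R : Run h (pr3 (Fin 3) n N1) (SS1 (Fin 3)) (AdmDep D) v)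
    {dg : ℕ → X → ℝ} {prr : ℕ → Fin 3 → φ → φ} {T : ℕ} {Lam : ℝ} (H : D.Hyp dg prr al T Lam) (S : ℕ) (i : Fin 3) :
    ∑ q ∈ range (5 * T), (D.P h S).Pr (fun w => q % 5 = rk {i} ∧
      2 * (D.P h S).m (NVq D v i (q + 1)) w < (D.P h S).m (NVq D v i q) w) ≤ 6 * n * Lam := by
  have h1 := sum_light_priv h (v := v) S T i
  have h2 : ∑ t ∈ range (T + 1), cst h v t {i} ≤ 3 * (n * Lam) := GMH.cost_thin rfl H hn hN1 R i
  refine h1.trans ?_
  rw [div_le_iff₀ (Real.log_pos (by norm_num))]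
  have h3 := Real.log_two_gt_d9
  have h4 : 0 ≤ n * Lam := by
    have := H.Lam1
    positivity
  nlinarith

end Pool.Agent.GMH.CKB
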