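import Pool.Agent.GMH.Cov2

/-!
# GMH/CR (helper91): LEMMA CR, cover one side and release the covered rows SIGNED (note 3926 (B))

`U` (side `C`), `V` (side `Y`) independent, `cU`, `cV` their cells, `pair cU cV` = the node, `σ` a stopping time of the
nodes, `R` the static relation, `F : α → ω → ℝ` signed, `F ≤ L` (in the applications `F c y = 1_R ψ`).
`ru c s` = mean of `F c (V)` in the cell of `V` at the time `s` (row `c`), `dv c s` = the row `c` has deviated (`ru > lam`)
at a time `≤ s`, `dY x s` = a row of the sample `x : Fin M → α` has deviated at a time `≤ s`.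
`U` is covered by the columns of a sample of `V` (`cov P cU u HU M'`), `nc s` = newly covered at the time `s`,
`rl x s` = released before the time `s` = covered at a time `s' < s` with no deviation of the sampled rows up to `s'`.

* `first_le` : the true row is the first deviator with probability `≤ 1/(M+1)` in the mean over the sample;
* `rel_le`, `rl_le` : (2) released, signed: `E [F 1(released at σ)] ≤ lam P(covered at σ) + L P(first deviator)`;
* `unc_le`, `late_le` : (3) `P (R, U not covered at the time T_Y, 1 ≤ T_Y ≤ σ) ≤ h u / 2 P(T_Y ≤ σ) + P(bad)`;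
* `unc1` : (1) `E 1_R 1[U not covered at σ] g(σ) ≤ u/2 E g(σ) + E 1[bad] g(σ)`, `g_s` sees the node and `V`;
* `E_opt`, `pay_le` : payment of `T_Y`: `lam/2 P(T_Y ≤ σ) ≤ E g` for every `g ≥ 0` above all `ru (x i) σ - lam/2`;
* `cr_main` : everything together at a stopping time.
-/

set_option autoImplicit false
set_option linter.unusedSectionVars false

namespace Pool.Agent.GMH.CR

open Finset Pool.Agent.PWZ Pool.Agent.M3 Pool.Agent.GMH.Gdy

noncomputable section

variable {Om : Type*} [Fintype Om] {P : FP Om} {κ κ' : ℕ → Type*} {cU : ∀ t, Om → κ t} {cV : ∀ t, Om → κ' t}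
  {α ω : Type*} {U : Om → α} {V : Om → ω} {R : α → ω → Prop} {F : α → ω → ℝ} {u lam L : ℝ}

/-- disjoint events -/
theorem sum_ind {A : ℕ → Prop} (h1 : ∀ s s', A s → A s' → s = s') (T : ℕ) :
    ∑ s ∈ range T, ind (A s) = ind (∃ s < T, A s) := by
  by_cases h : ∃ s < T, A s
  · obtain ⟨s, hs, hA⟩ := h
    rw [ind_of ⟨s, hs, hA⟩, Finset.sum_eq_single s, ind_of hA]
    · intro b _ hb
      exact ind_not fun h => hb (h1 b s h hA)
    · intro h
      exact absurd (mem_range.2 hs) h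
  · rw [ind_not h]
    refine Finset.sum_eq_zero fun s hs => ind_not fun hA => h ⟨s, mem_range.1 hs, hA⟩

/-! ## exchangeability -/

/-- **the first deviator**: `dev c s` an event of `V`; the true row is the first one with probability `≤ 1/(M+1)` -/
theorem first_le [Fintype α] (hI : P.Indep U V) {dev : α → ℕ → Om → Prop}
    (hd : ∀ c s v w, V v = V w → (dev c s v ↔ dev c s w)) (M T : ℕ) :
    ∑ x : Fin M → α, sw (fun a => P.Pr (fun w => U w = a)) x *
      P.Pr (fun w => ∃ s < T, dev (U w) s w ∧ ∀ i, ∀ s' ≤ s, ¬ dev (x i) s' w) ≤ 1 / ((M : ℝ) + 1) := by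
  classical
  set q : α → ℝ := fun a => P.Pr (fun w => U w = a) with hq
  have hq0 : ∀ a, 0 ≤ q a := fun a => P.Pr_nonneg _
  have hq1 : ∑ a, q a = 1 := by
    rw [hq]
    unfold FP.Pr
    rw [← FP.E_sum]
    have : ∀ w, ∑ a, ind (U w = a) = (1 : ℝ) := by
      intro w
      rw [Finset.sum_eq_single (U w) (fun b _ hb => ind_not (fun h => hb h.symm)) (fun h => absurd (mem_univ _) h),
        ind_of rfl]
    simp only [this]
    exact P.E_const 1
  -- the event with the true row replaced by `a`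
  set Ev : α → (Fin M → α) → Om → Prop := fun a x w => ∃ s < T, dev a s w ∧ ∀ i, ∀ s' ≤ s, ¬ dev (x i) s' w with hEv
  have hEvf : ∀ a x v w, V v = V w → (Ev a x v ↔ Ev a x w) := by
    intro a x v w h
    rw [hEv]
    refine exists_congr fun s => and_congr_right fun _ => ?_
    rw [hd a s v w h]
    refine and_congr_right fun _ => forall_congr' fun i => forall_congr' fun s' => forall_congr' fun _ => ?_
    rw [hd (x i) s' v w h]
  have e1 : ∀ x : Fin M → α, P.Pr (fun w => ∃ s < T, dev (U w) s w ∧ ∀ i, ∀ s' ≤ s, ¬ dev (x i) s' w) =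
      ∑ a, q a * P.Pr (Ev a x) := by
    intro x
    have h1 : ∀ a, q a * P.Pr (Ev a x) = P.E (fun w => ind (U w = a) * ind (Ev a x w)) := by
      intro a
      exact (hI _ _ (Fac.ind fun v w h => by rw [h]) (Fac.ind fun v w h => hEvf a x v w h)).symm
    rw [Finset.sum_congr rfl fun a _ => h1 a, ← FP.E_sum]
    refine P.E_congr fun w _ => ?_
    rw [Finset.sum_eq_single (U w)]
    · rw [ind_of rfl, one_mul]
    · intro b _ hb
      rw [ind_not (fun h => hb h.symm), zero_mul]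
    · intro h
      exact absurd (mem_univ _) h
  have e2 : ∀ x : Fin M → α, sw q x * P.Pr (fun w => ∃ s < T, dev (U w) s w ∧ ∀ i, ∀ s' ≤ s, ¬ dev (x i) s' w) =
      sw q x * ∑ a, q a * P.Pr (Ev a x) := fun x => by rw [e1 x]
  rw [Finset.sum_congr rfl fun x _ => e2 x]
  have h1 : ∀ j : Fin (M + 1), ∑ x : Fin M → α, sw q x * ∑ a, q a * P.Pr (Ev a x) =
      ∑ z : Fin (M + 1) → α, sw q z * P.Pr (Ev (z j) (fun i => z (j.succAbove i))) := fun j =>
    (sw_split q j (fun a x => P.Pr (Ev a x))).symm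
  have h2 : ∑ j : Fin (M + 1), ∑ z : Fin (M + 1) → α, sw q z * P.Pr (Ev (z j) (fun i => z (j.succAbove i))) ≤ 1 := by
    rw [Finset.sum_comm, ← sw_sum hq1 (M + 1)]
    refine Finset.sum_le_sum fun z _ => ?_
    rw [← Finset.mul_sum]
    refine mul_le_of_le_one_right (sw_nonneg hq0 z) ?_
    unfold FP.Pr
    rw [← FP.E_sum]
    refine (P.E_mono fun w _ => ?_).trans (le_of_eq (P.E_const 1))
    -- at most one first deviator
    have hone : ∀ j j' : Fin (M + 1), Ev (z j) (fun i => z (j.succAbove i)) w →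
        Ev (z j') (fun i => z (j'.succAbove i)) w → j = j' := by
      rintro j j' ⟨s, _, hs1, hs2⟩ ⟨s', _, hs1', hs2'⟩
      by_contra hne
      rcases le_total s s' with h | h
      · obtain ⟨i, hi⟩ := Fin.exists_succAbove_eq hne
        exact hs2' i s h (by simp only [hi]; exact hs1)
      · obtain ⟨i, hi⟩ := Fin.exists_succAbove_eq (Ne.symm hne)
        exact hs2 i s' h (by simp only [hi]; exact hs1')
    by_cases hex : ∃ j, Ev (z j) (fun i => z (j.succAbove i)) w
    · obtain ⟨j, hj⟩ := hex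
      rw [Finset.sum_eq_single j]
      · exact ind_le_one _
      · intro b _ hb
        exact ind_not fun h => hb (hone b j h hj)
      · intro h
        exact absurd (mem_univ _) h
    · rw [Finset.sum_eq_zero fun j _ => ind_not fun h => hex ⟨j, h⟩]
      exact zero_le_one
  rw [← Finset.sum_congr rfl fun j _ => h1 j, Finset.sum_const, Finset.card_univ, Fintype.card_fin,
    nsmul_eq_mul] at h2
  push_cast at h2
  rw [le_div_iff₀ (by positivity)]
  linarith

/-! ## rows -/

variable (P cV V F) in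
/-- the mean of the row `c` at the time `s` -/
def ru (c : α) (s : ℕ) (w : Om) : ℝ := P.ce (cV s) (fun v => F c (V v)) w

theorem ru_fac (c : α) (s : ℕ) : Fac (cV s) (ru P cV V F c s) := P.ce_fac _ _

theorem ru_le (hL : ∀ c y, F c y ≤ L) (c : α) (s : ℕ) {w : Om} (hw : P.p w ≠ 0) : ru P cV V F c s w ≤ L :=
  P.ce_le_const (fun _ _ => hL _ _) hw

/-- the conditional mean of `F` given the node and `U` is the mean of the row -/
theorem ce_ru (hI : P.Indep U V) (hU : ∀ s, Fac U (cU s)) (hV : ∀ s, Fac V (cV s)) (s : ℕ) {w : Om}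
    (hw : P.p w ≠ 0) :
    P.ce (fun v => (pair cU cV s v, U v)) (fun v => F (U v) (V v)) w = ru P cV V F (U w) s w :=
  ce_freeze hI hU hV s F hw

/-- **released rows, signed**, one time -/
theorem rel_one (hI : P.Indep U V) (hU : ∀ s, Fac U (cU s)) (hV : ∀ s, Fac V (cV s)) (hL : ∀ c y, F c y ≤ L)
    (hlam : 0 ≤ lam) {s : ℕ} {e : Om → ℝ} (he : Fac (fun w => (pair cU cV s w, U w)) e) (he0 : ∀ w, 0 ≤ e w) :
    P.E (fun w => e w * F (U w) (V w)) ≤
      lam * P.E e + L * P.E (fun w => e w * ind (lam < ru P cV V F (U w) s w)) := by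
  rw [← FP.E_smul, ← FP.E_smul, ← FP.E_add]
  rw [← P.E_mul_ce he (fun w => F (U w) (V w))]
  refine P.E_mono fun w hw => ?_
  rw [ce_ru hI hU hV s hw]
  by_cases h : lam < ru P cV V F (U w) s w
  · rw [ind_of h, mul_one]
    have h1 := ru_le (P := P) (cV := cV) (V := V) hL (U w) s hw
    nlinarith [he0 w, mul_le_mul_of_nonneg_left h1 (he0 w), mul_nonneg hlam (he0 w)]
  · rw [ind_not h, mul_zero, mul_zero, add_zero]
    have h1 := mul_le_mul_of_nonneg_left (not_lt.1 h) (he0 w)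
    linarith

/-- **released rows, signed**, all times -/
theorem rel_le (hI : P.Indep U V) (hU : ∀ s, Fac U (cU s)) (hV : ∀ s, Fac V (cV s)) (hL : ∀ c y, F c y ≤ L)
    (hlam : 0 ≤ lam) {e : ℕ → Om → ℝ} (he : ∀ s, Fac (fun w => (pair cU cV s w, U w)) (e s))
    (he0 : ∀ s w, 0 ≤ e s w) (T : ℕ) :
    P.E (fun w => (∑ s ∈ range T, e s w) * F (U w) (V w)) ≤
      lam * P.E (fun w => ∑ s ∈ range T, e s w) +
        L * P.E (fun w => ∑ s ∈ range T, e s w * ind (lam < ru P cV V F (U w) s w)) := by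
  simp only [Finset.sum_mul]
  rw [FP.E_sum, FP.E_sum, FP.E_sum, Finset.mul_sum, Finset.mul_sum, ← Finset.sum_add_distrib]
  exact Finset.sum_le_sum fun s _ => rel_one hI hU hV hL hlam (he s) (he0 s)

/-! ## the sampled rows -/

variable (P cV V F lam) in
/-- a row of the sample has deviated at a time `≤ s` -/
def dY {M : ℕ} (x : Fin M → α) (s : ℕ) (w : Om) : Prop := ∃ s' ≤ s, ∃ i, lam < ru P cV V F (x i) s' w

variable (P cV U V F lam) in
/-- the true row is the first deviator -/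
def fd {M : ℕ} (x : Fin M → α) (T : ℕ) (w : Om) : Prop :=
  ∃ s < T, lam < ru P cV V F (U w) s w ∧ ¬ dY P cV V F lam x s w

theorem dY_mono {M : ℕ} {x : Fin M → α} {s s' : ℕ} (h : s ≤ s') {w : Om} (hw : dY P cV V F lam x s w) :
    dY P cV V F lam x s' w := by
  obtain ⟨t, ht, h'⟩ := hw
  exact ⟨t, ht.trans h, h'⟩

theorem dY_iff (fV : Filt cV) {M : ℕ} {x : Fin M → α} {s : ℕ} {v w : Om} (h : cV s v = cV s w) :
    dY P cV V F lam x s v ↔ dY P cV V F lam x s w := by
  unfold dY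
  refine exists_congr fun s' => and_congr_right fun hs' => exists_congr fun i => ?_
  rw [ru_fac (P := P) (V := V) (F := F) (x i) s' v w (fV.le hs' v w h)]

/-- the first deviator: rarity -/
theorem fd_le [Fintype α] (hI : P.Indep U V) (hV : ∀ s, Fac V (cV s)) (M T : ℕ) :
    ∑ x : Fin M → α, sw (fun a => P.Pr (fun w => U w = a)) x * P.Pr (fd P cV U V F lam x T) ≤ 1 / ((M : ℝ) + 1) := by
  refine le_trans (le_of_eq ?_) (first_le (P := P) (U := U) (V := V) hI
    (dev := fun c s w => lam < ru P cV V F c s w) (fun c s v w h => by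
      rw [ru_fac (P := P) (V := V) (F := F) c s v w (hV s v w h)]) M T)
  refine Finset.sum_congr rfl fun x _ => ?_
  congr 2
  funext w
  unfold fd dY
  refine propext (exists_congr fun s => and_congr_right fun _ => and_congr_right fun _ => ?_)
  push Not
  exact ⟨fun h i s' hs' => h s' hs' i, fun h s' hs' i => h i s' hs'⟩

/-- first deviation at the time `s` -/
def fY (P : FP Om) (cV : ∀ t, Om → κ' t) (V : Om → ω) (F : α → ω → ℝ) (lam : ℝ) {M : ℕ} (x : Fin M → α) (s : ℕ)
    (w : Om) : Prop := dY P cV V F lam x s w ∧ ∀ s' < s, ¬ dY P cV V F lam x s' w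

theorem fY_iff (fV : Filt cV) {M : ℕ} {x : Fin M → α} {s : ℕ} {v w : Om} (h : cV s v = cV s w) :
    fY P cV V F lam x s v ↔ fY P cV V F lam x s w := by
  unfold fY
  rw [dY_iff fV h]
  refine and_congr_right fun _ => forall_congr' fun s' => forall_congr' fun hs' => ?_
  rw [dY_iff fV (fV.le hs'.le v w h)]

theorem fY_one {M : ℕ} {x : Fin M → α} {w : Om} (s s' : ℕ) (h : fY P cV V F lam x s w)
    (h' : fY P cV V F lam x s' w) : s = s' := by
  rcases lt_trichotomy s s' with h1 | h1 | h1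
  · exact absurd h.1 (h'.2 s h1)
  · exact h1
  · exact absurd h'.1 (h.2 s' h1)

theorem dY_first {M : ℕ} {x : Fin M → α} {s : ℕ} {w : Om} (h : dY P cV V F lam x s w) :
    ∃ s' ≤ s, fY P cV V F lam x s' w := by
  classical
  have hex : ∃ t, dY P cV V F lam x t w := ⟨s, h⟩
  exact ⟨Nat.find hex, Nat.find_min' hex h, Nat.find_spec hex, fun s' hs' => Nat.find_min hex hs'⟩

theorem dY_sum {M : ℕ} {x : Fin M → α} {σ : ℕ} {T : ℕ} (hσ : σ < T) (w : Om) :
    ∑ s ∈ range T, ind (fY P cV V F lam x s w ∧ s ≤ σ) = ind (dY P cV V F lam x σ w) := by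
  rw [sum_ind (A := fun s => fY P cV V F lam x s w ∧ s ≤ σ) (fun s s' h h' => fY_one s s' h.1 h'.1) T]
  congr 1
  refine propext ⟨fun ⟨s, _, h, hs⟩ => dY_mono hs h.1, fun h => ?_⟩
  obtain ⟨s, hs, h'⟩ := dY_first h
  exact ⟨s, by omega, h', hs⟩

/-- the event `s ≤ σ` -/
theorem Stp.le_fac {κ : ℕ → Type*} {X : ∀ t, Om → κ t} (hX : Filt X) {σ : Om → ℕ} (h : Stp X σ) (s : ℕ) {v w : Om}
    (hvw : X s v = X s w) : s ≤ σ v ↔ s ≤ σ w := by
  rcases Nat.eq_zero_or_pos s with rfl | hs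
  · simp
  · have h2 := h (s - 1) v w (hX.le (Nat.sub_le s 1) v w hvw)
    omega

/-! ## covers of the other side -/

variable (P cU u) in
/-- newly covered at the time `s` -/
def nc (HU : ℕ → Om → Prop) (M' : ℕ) (s : ℕ) (w : Om) : Prop :=
  cov P cU u HU M' (s + 1) w ∧ ¬ cov P cU u HU M' s w

variable (P cU cV V F u lam) in
/-- released before the time `s` -/
def rl (HU : ℕ → Om → Prop) (M' : ℕ) {M : ℕ} (x : Fin M → α) (s : ℕ) (w : Om) : Prop :=
  ∃ s' < s, nc P cU u HU M' s' w ∧ ¬ dY P cV V F lam x s' w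

theorem nc_one {HU : ℕ → Om → Prop} {M' : ℕ} {w : Om} (s s' : ℕ) (h : nc P cU u HU M' s w)
    (h' : nc P cU u HU M' s' w) : s = s' := by
  rcases lt_trichotomy s s' with h1 | h1 | h1
  · exact absurd (cov_mono h1 h.1) h'.2
  · exact h1
  · exact absurd (cov_mono h1 h'.1) h.2

theorem cov_ex {HU : ℕ → Om → Prop} {M' : ℕ} {w : Om} {s : ℕ} (h : cov P cU u HU M' s w) :
    ∃ s' < s, nc P cU u HU M' s' w := by
  induction s with
  | zero => exact h.elim
  | succ s ih =>
    by_cases h1 : cov P cU u HU M' s w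
    · obtain ⟨s', h2, h3⟩ := ih h1
      exact ⟨s', by omega, h3⟩
    · exact ⟨s, by omega, h, h1⟩

/-- (2) **released rows at a stopping time, signed** -/
theorem rl_le (hI : P.Indep U V) (hU : ∀ s, Fac U (cU s)) (hV : ∀ s, Fac V (cV s)) (fU : Filt cU) (fV : Filt cV)
    (hL : ∀ c y, F c y ≤ L) (hL0 : 0 ≤ L) (hlam : 0 ≤ lam) {HU : ℕ → Om → Prop} {M' : ℕ}
    (hH' : ∀ r v w, U v = U w → (HU r v ↔ HU r w)) {M : ℕ} (x : Fin M → α) {σ : Om → ℕ}
    (hσ : Stp (pair cU cV) σ) {T : ℕ} (hT : ∀ w, σ w < T) :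
    P.E (fun w => ind (rl P cU cV V F u lam HU M' x (σ w + 1) w) * F (U w) (V w)) ≤
      lam * P.Pr (fun w => rl P cU cV V F u lam HU M' x (σ w + 1) w) + L * P.Pr (fd P cV U V F lam x T) := by
  set A : ℕ → Om → Prop := fun s w => (nc P cU u HU M' s w ∧ ¬ dY P cV V F lam x s w) ∧ s ≤ σ w with hA
  have h1 : ∀ w, ∑ s ∈ range T, ind (A s w) = ind (rl P cU cV V F u lam HU M' x (σ w + 1) w) := by
    intro w
    rw [sum_ind (A := fun s => A s w) (fun s s' h h' => nc_one s s' h.1.1 h'.1.1) T]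
    congr 1
    refine propext ⟨fun ⟨s, _, h, hs⟩ => ⟨s, by omega, h⟩, fun ⟨s, hs, h⟩ => ⟨s, ?_, h, by omega⟩⟩
    have := hT w
    omega
  have he : ∀ s, Fac (fun w => (pair cU cV s w, U w)) (fun w => ind (A s w)) := by
    intro s
    refine Fac.ind fun v w hvw => ?_
    have h3 : pair cU cV s v = pair cU cV s w ∧ U v = U w := Prod.mk.injEq _ _ _ _ ▸ hvw
    rw [hA]
    simp only
    rw [Stp.le_fac (pair_filt fU fV) hσ s h3.1, dY_iff fV (pair_eq.1 h3.1).2]
    unfold nc
    rw [cov_fac hU hH' (s + 1) v w h3.2, cov_fac hU hH' s v w h3.2]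
  have h2 := rel_le (P := P) (cU := cU) (cV := cV) (L := L) (lam := lam) hI hU hV hL hlam he
    (fun s w => ind_nonneg _) T
  simp only [h1] at h2
  refine h2.trans ?_
  have h3 : P.E (fun w => ∑ s ∈ range T, ind (A s w) * ind (lam < ru P cV V F (U w) s w)) ≤
      P.Pr (fd P cV U V F lam x T) := by
    refine P.E_mono fun w _ => ?_
    by_cases hf : fd P cV U V F lam x T w
    · rw [ind_of hf]
      calc ∑ s ∈ range T, ind (A s w) * ind (lam < ru P cV V F (U w) s w) ≤ ∑ s ∈ range T, ind (A s w) :=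
            Finset.sum_le_sum fun s _ => mul_le_of_le_one_right (ind_nonneg _) (ind_le_one _)
        _ = _ := h1 w
        _ ≤ 1 := ind_le_one _
    · rw [ind_not hf]
      refine le_of_eq (Finset.sum_eq_zero fun s hs => ?_)
      by_cases h4 : A s w
      · rw [ind_not (p := lam < ru P cV V F (U w) s w) (fun h5 => hf ⟨s, mem_range.1 hs, h5, h4.1.2⟩), mul_zero]
      · rw [ind_not h4, zero_mul]
  have h4 := mul_le_mul_of_nonneg_left h3 hL0
  have h5 : P.E (fun w => ind (rl P cU cV V F u lam HU M' x (σ w + 1) w)) =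
      P.Pr (fun w => rl P cU cV V F u lam HU M' x (σ w + 1) w) := rfl
  rw [h5]
  linarith

/-- (1) **the uncovered rest** of the side `C` -/
theorem unc1 (hI : P.Indep U V) (hU : ∀ s, Fac U (cU s)) (hV : ∀ s, Fac V (cV s)) (fU : Filt cU) (fV : Filt cV)
    {HU : ℕ → Om → Prop} {M' : ℕ} (hH' : ∀ r v w, U v = U w → (HU r v ↔ HU r w)) (hu : 0 < u) {σ : Om → ℕ}
    (hσ : Stp (pair cU cV) σ) {T : ℕ} (hT : ∀ w, σ w < T) {g : ℕ → Om → ℝ}
    (hg : ∀ s, Fac (fun w => (pair cV cU s w, V w)) (g s)) (hg0 : ∀ s w, 0 ≤ g s w) :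
    P.E (fun w => ind (R (U w) (V w) ∧ ¬ cov P cU u HU M' (σ w + 1) w) * g (σ w) w) ≤
      u / 2 * P.E (fun w => g (σ w) w) +
        P.E (fun w => ind (badV P cU V U (fun v a => R a v) u HU M' T w) * g (σ w) w) :=
  rest2 (P := P) (U := V) (V := U) (cU := cV) (cV := cU) (R := fun v a => R a v) hI.symm hV hU fV fU hH' hu hσ.swap hT
    hg hg0

/-- the uncovered part at the previous cover, weights which see the node and `V` -/
theorem unc_le (hI : P.Indep U V) (hU : ∀ s, Fac U (cU s)) (hV : ∀ s, Fac V (cV s)) (fU : Filt cU)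
    {HU : ℕ → Om → Prop} {M' : ℕ} (hH' : ∀ r v w, U v = U w → (HU r v ↔ HU r w)) (hu : 0 < u) {h : ℝ} (h0 : 0 ≤ h)
    {s T : ℕ} (hs : s < T) (hm : ∀ w, P.p w ≠ 0 → P.m (cU s) w ≤ h * P.m (cU (s + 1)) w) {e : Om → ℝ}
    (he : Fac (fun w => (pair cV cU (s + 1) w, V w)) e) (he0 : ∀ w, 0 ≤ e w) :
    P.E (fun w => e w * ind (R (U w) (V w) ∧ ¬ cov P cU u HU M' (s + 1) w)) ≤
      h * u / 2 * P.E e + P.E (fun w => e w * ind (badV P cU V U (fun v a => R a v) u HU M' T w)) := by
  have h1 := P.E_mul_ce he (fun w => ind (R (U w) (V w) ∧ ¬ cov P cU u HU M' (s + 1) w))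
  rw [← FP.E_smul, ← FP.E_add, ← h1]
  refine P.E_mono fun w hw => ?_
  have h3 : P.ce (fun w => (pair cV cU (s + 1) w, V w))
      (fun w => ind (R (U w) (V w) ∧ ¬ cov P cU u HU M' (s + 1) w)) w =
      cp P cU (s + 1) (fun v => row U (fun v a => R a v) (V w) v ∧ ¬ cov P cU u HU M' (s + 1) v) w :=
    ce_unc (P := P) (U := V) (V := U) (cU := cV) (cV := cU) (R := fun v a => R a v) (u := u) (H := HU)
      (M := M') hI.symm hV hU hH' (s + 1) (s + 1) hw
  rw [h3]
  have h4 := he0 w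
  by_cases hb : badV P cU V U (fun v a => R a v) u HU M' T w
  · rw [ind_of hb]
    have h5 : cp P cU (s + 1) (fun v => row U (fun v a => R a v) (V w) v ∧ ¬ cov P cU u HU M' (s + 1) v) w ≤ 1 :=
      P.ce_le_const (fun _ _ => ind_le_one _) hw
    have h6 : 0 ≤ h * u / 2 := by positivity
    nlinarith [mul_nonneg h6 h4]
  · rw [ind_not hb]
    have h5 : cp P cU s (fun v => row U (fun v a => R a v) (V w) v ∧ ¬ cov P cU u HU M' (s + 1) v) w ≤ u / 2 := by
      by_contra hcon
      exact hb ⟨s, hs, (not_le.1 hcon).le⟩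
    have h6 := cp_ratio (P := P) (Y := cU) (h := h) (s := s) (t := s + 1) (fU s) hw (hm w hw)
      (fun v => row U (fun v a => R a v) (V w) v ∧ ¬ cov P cU u HU M' (s + 1) v)
    have h7 : cp P cU (s + 1) (fun v => row U (fun v a => R a v) (V w) v ∧ ¬ cov P cU u HU M' (s + 1) v) w ≤
        h * u / 2 := by
      refine h6.trans ?_
      have := mul_le_mul_of_nonneg_left h5 h0
      linarith
    nlinarith

/-- uncovered at a random time `f` (disjoint events `f s`, `s ≥ 1`, which see the node and `V`) -/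
theorem late_gen (hI : P.Indep U V) (hU : ∀ s, Fac U (cU s)) (hV : ∀ s, Fac V (cV s)) (fU : Filt cU)
    {HU : ℕ → Om → Prop} {M' : ℕ} (hH' : ∀ r v w, U v = U w → (HU r v ↔ HU r w)) (hu : 0 < u) {h : ℝ} (h0 : 0 ≤ h)
    {T : ℕ} (hm : ∀ s w, P.p w ≠ 0 → P.m (cU s) w ≤ h * P.m (cU (s + 1)) w) {f : ℕ → Om → Prop}
    (hf : ∀ s v w, pair cV cU s v = pair cV cU s w → V v = V w → (f s v ↔ f s w))
    (hf1 : ∀ w s s', f s w → f s' w → s = s') :
    P.Pr (fun w => R (U w) (V w) ∧ ∃ s < T, f (s + 1) w ∧ ¬ cov P cU u HU M' (s + 1) w) ≤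
      h * u / 2 * P.Pr (fun w => ∃ s < T, f (s + 1) w) +
        P.Pr (fun w => (∃ s < T, f (s + 1) w) ∧ badV P cU V U (fun v a => R a v) u HU M' T w) := by
  have h1 : ∀ w, ∑ s ∈ range T, ind (f (s + 1) w) = ind (∃ s < T, f (s + 1) w) := fun w =>
    sum_ind (A := fun s => f (s + 1) w) (fun s s' h h' => by have := hf1 w _ _ h h'; omega) T
  have h2 : ∀ w, ind (R (U w) (V w) ∧ ∃ s < T, f (s + 1) w ∧ ¬ cov P cU u HU M' (s + 1) w) =
      ∑ s ∈ range T, ind (f (s + 1) w) * ind (R (U w) (V w) ∧ ¬ cov P cU u HU M' (s + 1) w) := by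
    intro w
    have h3 : ∀ s ∈ range T, ind (f (s + 1) w) * ind (R (U w) (V w) ∧ ¬ cov P cU u HU M' (s + 1) w) =
        ind (f (s + 1) w ∧ (R (U w) (V w) ∧ ¬ cov P cU u HU M' (s + 1) w)) := by
      intro s _
      by_cases a : f (s + 1) w
      · rw [ind_of a, one_mul, propext (and_iff_right a)]
      · rw [ind_not a, zero_mul, ind_not (fun h => a h.1)]
    rw [Finset.sum_congr rfl h3, sum_ind (A := fun s => f (s + 1) w ∧ (R (U w) (V w) ∧ ¬ cov P cU u HU M' (s + 1) w))
      (fun s s' h h' => by have := hf1 w _ _ h.1 h'.1; omega) T]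
    congr 1
    exact propext ⟨fun ⟨hR, s, hs, hf, hc⟩ => ⟨s, hs, hf, hR, hc⟩, fun ⟨s, hs, hf, hR, hc⟩ => ⟨hR, s, hs, hf, hc⟩⟩
  unfold FP.Pr
  have h3 : ∀ w, ind ((∃ s < T, f (s + 1) w) ∧ badV P cU V U (fun v a => R a v) u HU M' T w) =
      ∑ s ∈ range T, ind (f (s + 1) w) * ind (badV P cU V U (fun v a => R a v) u HU M' T w) := by
    intro w
    rw [← Finset.sum_mul, h1 w]
    by_cases a : ∃ s < T, f (s + 1) w
    · rw [ind_of a, one_mul, propext (and_iff_right a)]
    · rw [ind_not a, zero_mul, ind_not (fun h => a h.1)]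
  simp only [h2, h3, ← h1]
  rw [FP.E_sum, FP.E_sum, FP.E_sum, Finset.mul_sum, ← Finset.sum_add_distrib]
  refine Finset.sum_le_sum fun s hs => ?_
  refine unc_le hI hU hV fU hH' hu h0 (mem_range.1 hs) (hm s) (e := fun w => ind (f (s + 1) w)) ?_
    (fun w => ind_nonneg _)
  refine Fac.ind fun v w hvw => ?_
  have h3 : pair cV cU (s + 1) v = pair cV cU (s + 1) w ∧ V v = V w := Prod.mk.injEq _ _ _ _ ▸ hvw
  exact hf (s + 1) v w h3.1 h3.2

/-- (3) **a sampled row deviates before `U` is covered** -/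
theorem late_le (hI : P.Indep U V) (hU : ∀ s, Fac U (cU s)) (hV : ∀ s, Fac V (cV s)) (fU : Filt cU) (fV : Filt cV)
    {HU : ℕ → Om → Prop} {M' : ℕ} (hH' : ∀ r v w, U v = U w → (HU r v ↔ HU r w)) (hu : 0 < u) {h : ℝ} (h0 : 0 ≤ h)
    {T : ℕ} (hm : ∀ s w, P.p w ≠ 0 → P.m (cU s) w ≤ h * P.m (cU (s + 1)) w) {M : ℕ} (x : Fin M → α) {σ : Om → ℕ}
    (hσ : Stp (pair cU cV) σ) (hT : ∀ w, σ w < T) :
    P.Pr (fun w => R (U w) (V w) ∧ ∃ s ≤ σ w, fY P cV V F lam x s w ∧ ¬ cov P cU u HU M' s w) ≤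
      h * u / 2 * P.Pr (fun w => dY P cV V F lam x (σ w) w) +
        P.Pr (badV P cU V U (fun v a => R a v) u HU M' T) + P.Pr (fun w => dY P cV V F lam x 0 w) := by
  set f : ℕ → Om → Prop := fun s w => fY P cV V F lam x s w ∧ s ≤ σ w with hf
  have h1 := late_gen (P := P) (cU := cU) (cV := cV) (R := R) (u := u) (HU := HU) (M' := M') hI hU hV fU hH' hu h0
    (T := T) hm (f := f) (fun s v w hvw _ => by
      have h3 : pair cU cV s v = pair cU cV s w := pair_eq.2 ⟨(pair_eq.1 hvw).2, (pair_eq.1 hvw).1⟩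
      rw [hf]
      simp only
      rw [fY_iff fV (pair_eq.1 h3).2, Stp.le_fac (pair_filt fU fV) hσ s h3]) (fun w s s' a b => fY_one s s' a.1 b.1)
  have h2 : P.Pr (fun w => R (U w) (V w) ∧ ∃ s ≤ σ w, fY P cV V F lam x s w ∧ ¬ cov P cU u HU M' s w) ≤
      P.Pr (fun w => R (U w) (V w) ∧ ∃ s < T, f (s + 1) w ∧ ¬ cov P cU u HU M' (s + 1) w) +
        P.Pr (fun w => dY P cV V F lam x 0 w) := by
    unfold FP.Pr
    rw [← FP.E_add]
    refine P.E_mono fun w _ => ?_
    by_cases hw : R (U w) (V w) ∧ ∃ s ≤ σ w, fY P cV V F lam x s w ∧ ¬ cov P cU u HU M' s w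
    · rw [ind_of hw]
      obtain ⟨hR, s, hs, hfs, hc⟩ := hw
      rcases Nat.eq_zero_or_pos s with rfl | hs0
      · rw [ind_of (show dY P cV V F lam x 0 w from hfs.1)]
        have := ind_nonneg (R (U w) (V w) ∧ ∃ s < T, f (s + 1) w ∧ ¬ cov P cU u HU M' (s + 1) w)
        linarith
      · obtain ⟨s', rfl⟩ : ∃ s', s = s' + 1 := ⟨s - 1, by omega⟩
        rw [ind_of (show R (U w) (V w) ∧ ∃ s < T, f (s + 1) w ∧ ¬ cov P cU u HU M' (s + 1) w from
          ⟨hR, s', by have := hT w; omega, ⟨hfs, hs⟩, hc⟩)]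
        have := ind_nonneg (dY P cV V F lam x 0 w)
        linarith
    · rw [ind_not hw]
      exact add_nonneg (ind_nonneg _) (ind_nonneg _)
  have h3 : P.Pr (fun w => ∃ s < T, f (s + 1) w) ≤ P.Pr (fun w => dY P cV V F lam x (σ w) w) := by
    refine P.Pr_mono fun w _ => ?_
    rintro ⟨s, _, h4, h5⟩
    exact dY_mono h5 h4.1
  have h4 : P.Pr (fun w => (∃ s < T, f (s + 1) w) ∧ badV P cU V U (fun v a => R a v) u HU M' T w) ≤
      P.Pr (badV P cU V U (fun v a => R a v) u HU M' T) := P.Pr_mono fun w _ h => h.2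
  have h5 : 0 ≤ h * u / 2 := by positivity
  have h6 := mul_le_mul_of_nonneg_left h3 h5
  linarith

/-! ## the payment of the deviations -/

/-- the mean of a row at a stopping time, weights of the time `s` -/
theorem E_opt (hI : P.Indep U V) (hU : ∀ s, Fac U (cU s)) (hV : ∀ s, Fac V (cV s)) (fU : Filt cU) (fV : Filt cV)
    {σ : Om → ℕ} (hσ : Stp (pair cU cV) σ) {T : ℕ} (hT : ∀ w, σ w < T) (c : α) {s : ℕ} {e : Om → ℝ}
    (he : Fac (pair cU cV s) e) :
    P.E (fun w => e w * ind (s ≤ σ w) * ru P cV V F c (σ w) w) =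
      P.E (fun w => e w * ind (s ≤ σ w) * ru P cV V F c s w) := by
  have hfF : Fac V (fun v => F c (V v)) := fun v w h => by
    show F c (V v) = F c (V w)
    rw [h]
  -- both sides are the mean of `F c V`
  have h1 : ∀ (t : ℕ) (e' : Om → ℝ), Fac (pair cU cV t) e' →
      P.E (fun w => e' w * ru P cV V F c t w) = P.E (fun w => e' w * F c (V w)) := by
    intro t e' he'
    rw [← P.E_mul_ce he' (fun w => F c (V w))]
    refine P.E_congr fun w hw => ?_
    rw [ce_pair hI hU hV t hfF hw]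
    rfl
  have hle : Fac (pair cU cV s) (fun w => e w * ind (s ≤ σ w)) :=
    he.mul (Fac.ind fun v w hvw => Stp.le_fac (pair_filt fU fV) hσ s hvw)
  rw [h1 s _ hle]
  rw [E_stop hT (fun t w => e w * ind (s ≤ σ w) * ru P cV V F c t w)]
  have h2 : ∀ t ∈ range T, P.E (fun w => ind (σ w = t) * (e w * ind (s ≤ σ w) * ru P cV V F c t w)) =
      P.E (fun w => ind (σ w = t) * (e w * ind (s ≤ σ w) * F c (V w))) := by
    intro t _
    by_cases hst : s ≤ t
    · have hf : Fac (pair cU cV t) (fun w => ind (σ w = t) * (e w * ind (s ≤ σ w))) := by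
        have h3 : Fac (pair cU cV t) (pair cU cV s) := (pair_filt fU fV).le hst
        exact (hσ.eq_fac (pair_filt fU fV) t).mul (h3.trans hle)
      have h3 := h1 t _ hf
      calc P.E (fun w => ind (σ w = t) * (e w * ind (s ≤ σ w) * ru P cV V F c t w))
          = P.E (fun w => ind (σ w = t) * (e w * ind (s ≤ σ w)) * ru P cV V F c t w) :=
            P.E_congr fun w _ => by ring
        _ = P.E (fun w => ind (σ w = t) * (e w * ind (s ≤ σ w)) * F c (V w)) := h3
        _ = _ := P.E_congr fun w _ => by ring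
    · refine P.E_congr fun w _ => ?_
      by_cases h4 : σ w = t
      · rw [ind_not (show ¬ s ≤ σ w by omega)]
        ring
      · rw [ind_not h4]
        ring
  rw [Finset.sum_congr rfl h2, ← E_stop hT (fun t w => e w * ind (s ≤ σ w) * F c (V w))]

/-- (4) **the payment of the deviations of the sampled rows** -/
theorem pay_le (hI : P.Indep U V) (hU : ∀ s, Fac U (cU s)) (hV : ∀ s, Fac V (cV s)) (fU : Filt cU) (fV : Filt cV)
    {M : ℕ} (x : Fin M → α) {σ : Om → ℕ} (hσ : Stp (pair cU cV) σ) {T : ℕ} (hT : ∀ w, σ w < T) {g : Om → ℝ}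
    (hg0 : ∀ w, P.p w ≠ 0 → 0 ≤ g w) (hg : ∀ i w, P.p w ≠ 0 → ru P cV V F (x i) (σ w) w - lam / 2 ≤ g w) :
    lam / 2 * P.Pr (fun w => dY P cV V F lam x (σ w) w) ≤ P.E g := by
  classical
  -- the first index which deviates at the first time
  set B : ℕ → Fin M → Om → Prop := fun s i w => (∀ s' < s, ¬ dY P cV V F lam x s' w) ∧
    lam < ru P cV V F (x i) s w ∧ ∀ j < i, ¬ lam < ru P cV V F (x j) s w with hB
  have hBi : ∀ s i v w, cV s v = cV s w → (B s i v ↔ B s i w) := by
    intro s i v w h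
    rw [hB]
    simp only
    rw [ru_fac (P := P) (V := V) (F := F) (x i) s v w h]
    refine and_congr (forall_congr' fun s' => forall_congr' fun hs' => ?_) (and_congr_right fun _ =>
      forall_congr' fun j => forall_congr' fun _ => ?_)
    · rw [dY_iff fV (fV.le hs'.le v w h)]
    · rw [ru_fac (P := P) (V := V) (F := F) (x j) s v w h]
  have hBY : ∀ s i w, B s i w → fY P cV V F lam x s w := fun s i w h =>
    ⟨⟨s, le_rfl, i, h.2.1⟩, h.1⟩
  have hB1 : ∀ s i i' w, B s i w → B s i' w → i = i' := by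
    intro s i i' w h h'
    rcases lt_trichotomy i i' with h1 | h1 | h1
    · exact absurd h.2.1 (h'.2.2 i h1)
    · exact h1
    · exact absurd h'.2.1 (h.2.2 i' h1)
  have hBex : ∀ s w, fY P cV V F lam x s w → ∃ i, B s i w := by
    intro s w h
    obtain ⟨⟨s', hs', i, hi⟩, h2⟩ := h
    have hs : s' = s := by
      rcases lt_or_eq_of_le hs' with h3 | h3
      · exact absurd ⟨s', le_rfl, i, hi⟩ (h2 s' h3)
      · exact h3
    subst hs
    have hne : (univ.filter fun j => lam < ru P cV V F (x j) s' w).Nonempty := ⟨i, by simpa using hi⟩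
    refine ⟨(univ.filter fun j => lam < ru P cV V F (x j) s' w).min' hne, h2, ?_, fun j hj hj' => ?_⟩
    · have := Finset.min'_mem _ hne
      simpa using this
    · have := Finset.min'_le (univ.filter fun j => lam < ru P cV V F (x j) s' w) j (by simpa using hj')
      exact absurd hj (not_lt.2 this)
  have hBs : ∀ s w, ∑ i, ind (B s i w) = ind (fY P cV V F lam x s w) := by
    intro s w
    by_cases h : fY P cV V F lam x s w
    · obtain ⟨i, hi⟩ := hBex s w h
      rw [ind_of h, Finset.sum_eq_single i, ind_of hi]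
      · intro b _ hb
        exact ind_not fun h' => hb (hB1 s b i w h' hi)
      · intro h'
        exact absurd (mem_univ _) h'
    · rw [ind_not h]
      exact Finset.sum_eq_zero fun i _ => ind_not fun h' => h (hBY s i w h')
  -- one time, one index
  have hone : ∀ s i, lam / 2 * P.E (fun w => ind (B s i w) * ind (s ≤ σ w)) ≤
      P.E (fun w => ind (B s i w) * ind (s ≤ σ w) * g w) := by
    intro s i
    have he : Fac (pair cU cV s) (fun w => ind (B s i w)) := Fac.ind fun v w h => hBi s i v w (pair_eq.1 h).2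
    have h1 := E_opt (P := P) (F := F) hI hU hV fU fV hσ hT (x i) he
    have h2 : P.E (fun w => ind (B s i w) * ind (s ≤ σ w) * ru P cV V F (x i) (σ w) w) -
        lam / 2 * P.E (fun w => ind (B s i w) * ind (s ≤ σ w)) ≤
        P.E (fun w => ind (B s i w) * ind (s ≤ σ w) * g w) := by
      rw [← FP.E_smul, ← FP.E_sub]
      refine P.E_mono fun w hw => ?_
      have h3 := hg i w hw
      have h4 : 0 ≤ ind (B s i w) * ind (s ≤ σ w) := mul_nonneg (ind_nonneg _) (ind_nonneg _)
      nlinarith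
    have h3 : lam * P.E (fun w => ind (B s i w) * ind (s ≤ σ w)) ≤
        P.E (fun w => ind (B s i w) * ind (s ≤ σ w) * ru P cV V F (x i) s w) := by
      rw [← FP.E_smul]
      refine P.E_mono fun w _ => ?_
      by_cases h4 : B s i w
      · have h5 : 0 ≤ ind (s ≤ σ w) := ind_nonneg _
        rw [ind_of h4]
        nlinarith [h4.2.1]
      · rw [ind_not h4]
        simp
    linarith
  have hsum : ∀ w, ∑ s ∈ range T, ∑ i, ind (B s i w) * ind (s ≤ σ w) = ind (dY P cV V F lam x (σ w) w) := by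
    intro w
    rw [← dY_sum (hT w) w]
    refine Finset.sum_congr rfl fun s _ => ?_
    rw [← Finset.sum_mul, hBs s w]
    by_cases a : fY P cV V F lam x s w
    · rw [ind_of a, one_mul, propext (and_iff_right a)]
    · rw [ind_not a, zero_mul, ind_not (fun h => a h.1)]
  have h1 : lam / 2 * P.Pr (fun w => dY P cV V F lam x (σ w) w) ≤
      P.E (fun w => ind (dY P cV V F lam x (σ w) w) * g w) := by
    unfold FP.Pr
    simp only [← hsum]
    rw [FP.E_sum, Finset.mul_sum]
    simp only [Finset.sum_mul]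
    rw [FP.E_sum]
    refine Finset.sum_le_sum fun s _ => ?_
    rw [FP.E_sum, FP.E_sum, Finset.mul_sum]
    exact Finset.sum_le_sum fun i _ => hone s i
  refine h1.trans (P.E_mono fun w hw => ?_)
  exact mul_le_of_le_one_left (hg0 w hw) (ind_le_one _)

/-! ## everything together -/

/-- not released: uncovered, or a sampled row deviated before -/
theorem not_rl {HU : ℕ → Om → Prop} {M' M : ℕ} {x : Fin M → α} {s : ℕ} {w : Om}
    (h : ¬ rl P cU cV V F u lam HU M' x (s + 1) w) :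
    ¬ cov P cU u HU M' (s + 1) w ∨ ∃ s' ≤ s, fY P cV V F lam x s' w ∧ ¬ cov P cU u HU M' s' w := by
  by_cases hc : cov P cU u HU M' (s + 1) w
  · right
    obtain ⟨t, ht, hn⟩ := cov_ex hc
    have hd : dY P cV V F lam x t w := by
      by_contra hcon
      exact h ⟨t, ht, hn, hcon⟩
    obtain ⟨s', hs', hf⟩ := dY_first hd
    exact ⟨s', by omega, hf, fun h' => hn.2 (cov_mono hs' h')⟩
  · exact Or.inl hc

/-- **LEMMA CR**: at a stopping time `σ`.  `G` = weights (at most 1) which see the node and `V` (`y` is not inert); `gY` =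
what the side `Y` pays.  The unreleased part of `R` with the weight `G`, unsigned, and the released part of `F`, signed. -/
theorem cr_main (hI : P.Indep U V) (hU : ∀ s, Fac U (cU s)) (hV : ∀ s, Fac V (cV s)) (fU : Filt cU) (fV : Filt cV)
    (hL : ∀ c y, F c y ≤ L) (hL0 : 0 ≤ L) (hlam : 0 < lam) (hu : 0 < u) {h : ℝ} (h0 : 0 ≤ h)
    {HU : ℕ → Om → Prop} {M' : ℕ} (hH' : ∀ r v w, U v = U w → (HU r v ↔ HU r w)) {M : ℕ} (x : Fin M → α)
    {σ : Om → ℕ} (hσ : Stp (pair cU cV) σ) {T : ℕ} (hT : ∀ w, σ w < T)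
    (hm : ∀ s w, P.p w ≠ 0 → P.m (cU s) w ≤ h * P.m (cU (s + 1)) w)
    {G : ℕ → Om → ℝ} (hG : ∀ s, Fac (fun w => (pair cV cU s w, V w)) (G s)) (hG0 : ∀ s w, 0 ≤ G s w)
    (hG1 : ∀ s w, G s w ≤ 1) {gY : Om → ℝ} (hg0 : ∀ w, P.p w ≠ 0 → 0 ≤ gY w)
    (hg : ∀ i w, P.p w ≠ 0 → ru P cV V F (x i) (σ w) w - lam / 2 ≤ gY w) :
    L * P.E (fun w => ind (R (U w) (V w) ∧ ¬ rl P cU cV V F u lam HU M' x (σ w + 1) w) * G (σ w) w) +
        P.E (fun w => ind (rl P cU cV V F u lam HU M' x (σ w + 1) w) * F (U w) (V w)) ≤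
      L * (u / 2) * P.E (fun w => G (σ w) w) + 2 * lam * P.E (fun w => Phi P cU u HU M' (σ w) w) +
        L * (h * u / lam) * P.E gY +
        L * (2 * P.Pr (badV P cU V U (fun v a => R a v) u HU M' T) + P.Pr (fd P cV U V F lam x T) +
          P.Pr (fun w => dY P cV V F lam x 0 w)) := by
  have h1 := unc1 (P := P) (R := R) (M' := M') hI hU hV fU fV hH' hu hσ hT hG hG0
  have h2 := rl_le (P := P) (F := F) (u := u) (lam := lam) (M' := M') hI hU hV fU fV hL hL0 hlam.le hH' x hσ hT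
  have h3 := late_le (P := P) (F := F) (R := R) (lam := lam) (M' := M') hI hU hV fU fV hH' hu h0 hm x hσ hT
  have h4 := pay_le (P := P) (F := F) (lam := lam) hI hU hV fU fV x hσ hT hg0 hg
  have h5 : P.E (fun w => ind (R (U w) (V w) ∧ ¬ rl P cU cV V F u lam HU M' x (σ w + 1) w) * G (σ w) w) ≤
      P.E (fun w => ind (R (U w) (V w) ∧ ¬ cov P cU u HU M' (σ w + 1) w) * G (σ w) w) +
      P.Pr (fun w => R (U w) (V w) ∧ ∃ s ≤ σ w, fY P cV V F lam x s w ∧ ¬ cov P cU u HU M' s w) := by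
    unfold FP.Pr
    rw [← FP.E_add]
    refine P.E_mono fun w _ => ?_
    have g0 := hG0 (σ w) w
    have g1 := hG1 (σ w) w
    by_cases hw : R (U w) (V w) ∧ ¬ rl P cU cV V F u lam HU M' x (σ w + 1) w
    · rw [ind_of hw, one_mul]
      rcases not_rl hw.2 with h6 | h6
      · rw [ind_of (show R (U w) (V w) ∧ ¬ cov P cU u HU M' (σ w + 1) w from ⟨hw.1, h6⟩), one_mul]
        have := ind_nonneg (R (U w) (V w) ∧ ∃ s ≤ σ w, fY P cV V F lam x s w ∧ ¬ cov P cU u HU M' s w)
        linarith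
      · rw [ind_of (show R (U w) (V w) ∧ ∃ s ≤ σ w, fY P cV V F lam x s w ∧ ¬ cov P cU u HU M' s w from
          ⟨hw.1, h6⟩)]
        have := mul_nonneg (ind_nonneg (R (U w) (V w) ∧ ¬ cov P cU u HU M' (σ w + 1) w)) g0
        linarith
    · rw [ind_not hw, zero_mul]
      exact add_nonneg (mul_nonneg (ind_nonneg _) g0) (ind_nonneg _)
  have h6 : P.E (fun w => ind (badV P cU V U (fun v a => R a v) u HU M' T w) * G (σ w) w) ≤
      P.Pr (badV P cU V U (fun v a => R a v) u HU M' T) :=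
    P.E_mono fun w _ => mul_le_of_le_one_right (ind_nonneg _) (hG1 _ _)
  have h7 : P.Pr (fun w => rl P cU cV V F u lam HU M' x (σ w + 1) w) ≤
      P.Pr (fun w => cov P cU u HU M' (σ w + 1) w) := by
    refine P.Pr_mono fun w _ => ?_
    rintro ⟨s, hs, hn, _⟩
    exact cov_mono (by omega) hn.1
  have h8 := covV_le (P := P) (u := u) (H := HU) (M := M') (cU := cV) (cV := cU) hI.symm hV hU fV fU hH' hu hσ.swap
  have h9 : P.Pr (fun w => dY P cV V F lam x (σ w) w) ≤ 2 / lam * P.E gY := by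
    rw [div_mul_eq_mul_div, le_div_iff₀ hlam]
    linarith
  have h10 : h * u / 2 * P.Pr (fun w => dY P cV V F lam x (σ w) w) ≤ h * u / lam * P.E gY := by
    have := mul_le_mul_of_nonneg_left h9 (show 0 ≤ h * u / 2 by positivity)
    refine this.trans (le_of_eq ?_)
    field_simp
  have h11 : lam * P.Pr (fun w => rl P cU cV V F u lam HU M' x (σ w + 1) w) ≤
      2 * lam * P.E (fun w => Phi P cU u HU M' (σ w) w) := by
    have := mul_le_mul_of_nonneg_left (h7.trans h8) hlam.le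
    linarith
  have h12 := mul_le_mul_of_nonneg_left (h5.trans (add_le_add h1 h3)) hL0
  have h13 := mul_le_mul_of_nonneg_left h6 hL0
  have h14 := mul_le_mul_of_nonneg_left h10 hL0
  linarith

end

end Pool.Agent.GMH.CR
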