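import Pool.Agent.GMH.KinF

/-!
# GMH/KinMs: the conditional masses of the kinds (helper7; H3.UNM U.1)

Frame of `GMH/KinF`, `D0 w` = `l1` distance of the law of the tops given all thin letters from the product of the marginals
(`= tvn ∅`).
* `one_S` : the product of the marginals, given the tops of `S`, has mass one;
* `mass_gen` : a relation of the tops of `S` on which `pS ≤ A |pS - ∏ m| + B tvn S` has conditional mass at most
  `(A + 2 B) D0`;
* `bad_mass`, `pair_mass`, `ht_mass` : bad top `D0 / e2`, bad pair `(1 / dH + 1 + 1 / e3) D0`, `HT`: `(1 / (4 dH) + 1) D0`;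
* `kd_mass`, `kd_mass_cls` : every kind `k ≥ 2` has conditional mass at most `qK c = 2 e1 (2 / e2 + 1 / dH + 1 + 1 / e3)` given all
  thin letters, hence in every class.
-/

set_option autoImplicit false
set_option linter.unusedSectionVars false

namespace Pool.Agent.GMH.KF

open Finset Pool.Agent.PWZ Pool.Agent.M3 Pool.Agent.GMH

noncomputable section

variable {Om : Type*} [Fintype Om] (P : FP Om) {β φ : Type*} {Z : Om → β} (F : Fin 3 → Om → φ)

/-- distance of the tops from the product of their marginals -/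
def D0 (Z : Om → β) (w : Om) : ℝ := ∑ g ∈ let_ F, |pF P Z F w g - ∏ i, mF P Z F i w (g i)|

theorem D0_nn (w : Om) : 0 ≤ D0 P F Z w := Finset.sum_nonneg fun _ _ => abs_nonneg _

/-- product of the marginals of the tops outside `S` -/
def mS (Z : Om → β) (S : Finset (Fin 3)) (w : Om) (g : Fin 3 → φ) : ℝ := ∏ i ∈ univ \ S, mF P Z F i w (g i)

theorem mS_nn (S : Finset (Fin 3)) (w : Om) (g : Fin 3 → φ) : 0 ≤ mS P F Z S w g :=
  Finset.prod_nonneg fun i _ => mF_nn P F i w (g i)

theorem prod_split (S : Finset (Fin 3)) (w : Om) (g : Fin 3 → φ) :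
    ∏ i, mF P Z F i w (g i) = (∏ i ∈ S, mF P Z F i w (g i)) * mS P F Z S w g := by
  classical
  unfold mS
  rw [← Finset.prod_sdiff (Finset.subset_univ S), mul_comm]

/-- **the product of the other marginals has mass one** -/
theorem one_S (S : Finset (Fin 3)) {w : Om} (hw : P.p w ≠ 0) {g : Fin 3 → φ} (hg : g ∈ let_ F) :
    ∑ f ∈ let_ F, ind (∀ i ∈ S, g i = f i) * mS P F Z S w f = 1 := by
  classical
  have h1 := Finset.prod_univ_sum (fun l => vals (F l)) (fun (i : Fin 3) (x : φ) => if i ∈ S then ind (g i = x) else mF P Z F i w x)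
  have h2 : ∏ i, ∑ x ∈ vals (F i), (if i ∈ S then ind (g i = x) else mF P Z F i w x) = 1 := by
    refine Finset.prod_eq_one fun i _ => ?_
    by_cases hi : i ∈ S
    · simp only [if_pos hi]
      have hgi : g i ∈ vals (F i) := Fintype.mem_piFinset.1 hg i
      rw [Finset.sum_eq_single (g i) (fun y _ hy => ind_not fun e => hy e.symm) (fun h' => absurd hgi h'), ind_of rfl]
    · simp only [if_neg hi]
      exact P.pv_sum Z (F i) hw
  rw [← h2, h1]
  unfold let_
  refine Finset.sum_congr rfl fun f _ => ?_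
  have e1 : ∏ i, (if i ∈ S then ind (g i = f i) else mF P Z F i w (f i)) =
      (∏ i ∈ S, ind (g i = f i)) * mS P F Z S w f := by
    rw [← Finset.prod_sdiff (Finset.subset_univ S), mul_comm]
    refine congrArg₂ (· * ·) (Finset.prod_congr rfl fun i hi => if_pos hi) ?_
    exact Finset.prod_congr rfl fun i hi => if_neg (Finset.mem_sdiff.1 hi).2
  rw [e1]
  congr 1
  by_cases h : ∀ i ∈ S, g i = f i
  · rw [ind_of h]
    exact (Finset.prod_eq_one fun i hi => ind_of (h i hi)).symm
  · rw [ind_not h]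
    push Not at h
    obtain ⟨i, hi, hne⟩ := h
    exact (Finset.prod_eq_zero hi (ind_not hne)).symm

/-- `pS` as a sum -/
theorem pS_sum (S : Finset (Fin 3)) (w : Om) (f : Fin 3 → φ) :
    pS P Z F S w f = ∑ g ∈ let_ F, ind (∀ i ∈ S, g i = f i) * pF P Z F w g := by
  have h := sum_fun P (Z := Z) F (fun g => ind (∀ i ∈ S, g i = f i)) w
  unfold pS
  rw [show (fun u => ind (∀ i ∈ S, F i u = f i)) = (fun u => ind (∀ i ∈ S, tup F u i = f i)) from rfl, ← h]
  exact Finset.sum_congr rfl fun g _ => mul_comm _ _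

theorem pS_cong {S : Finset (Fin 3)} (w : Om) {f g : Fin 3 → φ} (h : ∀ i ∈ S, g i = f i) :
    pS P Z F S w g = pS P Z F S w f := by
  unfold pS
  refine P.ce_congr (fun u _ => ?_) w
  congr 1
  exact propext ⟨fun h1 i hi => (h1 i hi).trans (h i hi), fun h1 i hi => (h1 i hi).trans (h i hi).symm⟩

/-- the distance of `pS` from the product -/
theorem pS_dist (S : Finset (Fin 3)) {w : Om} (hw : P.p w ≠ 0) {f : Fin 3 → φ} (hf : f ∈ let_ F) :
    |pS P Z F S w f - ∏ i ∈ S, mF P Z F i w (f i)| ≤
      ∑ g ∈ let_ F, ind (∀ i ∈ S, g i = f i) * |pF P Z F w g - ∏ i, mF P Z F i w (g i)| := by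
  have h1 : ∏ i ∈ S, mF P Z F i w (f i) = ∑ g ∈ let_ F, ind (∀ i ∈ S, g i = f i) * ∏ i, mF P Z F i w (g i) := by
    have h2 : ∑ g ∈ let_ F, ind (∀ i ∈ S, f i = g i) * mS P F Z S w g = 1 := one_S P F S hw hf
    rw [← mul_one (∏ i ∈ S, mF P Z F i w (f i)), ← h2, Finset.mul_sum]
    refine Finset.sum_congr rfl fun g _ => ?_
    by_cases h : ∀ i ∈ S, f i = g i
    · have h' : ∀ i ∈ S, g i = f i := fun i hi => (h i hi).symm
      rw [ind_of h, ind_of h', one_mul, one_mul, prod_split P F S w g]
      congr 1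
      exact Finset.prod_congr rfl fun i hi => by rw [h i hi]
    · have h' : ¬ ∀ i ∈ S, g i = f i := fun hh => h fun i hi => (hh i hi).symm
      rw [ind_not h, ind_not h', zero_mul, zero_mul, mul_zero]
  rw [pS_sum P F S w f, h1, ← Finset.sum_sub_distrib]
  refine (Finset.abs_sum_le_sum_abs _ _).trans (Finset.sum_le_sum fun g _ => ?_)
  rw [← mul_sub, abs_mul, abs_of_nonneg (ind_nonneg _)]

/-- the mean of the distances of `pS` -/
theorem pS_mean (S : Finset (Fin 3)) {w : Om} (hw : P.p w ≠ 0) :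
    ∑ f ∈ let_ F, mS P F Z S w f * |pS P Z F S w f - ∏ i ∈ S, mF P Z F i w (f i)| ≤ D0 P F Z w := by
  have h1 : ∑ f ∈ let_ F, mS P F Z S w f * |pS P Z F S w f - ∏ i ∈ S, mF P Z F i w (f i)| ≤
      ∑ f ∈ let_ F, ∑ g ∈ let_ F, (ind (∀ i ∈ S, g i = f i) * mS P F Z S w f) *
        |pF P Z F w g - ∏ i, mF P Z F i w (g i)| := by
    refine Finset.sum_le_sum fun f hf => ?_
    refine (mul_le_mul_of_nonneg_left (pS_dist P F S hw hf) (mS_nn P F S w f)).trans (le_of_eq ?_)
    rw [Finset.mul_sum]
    exact Finset.sum_congr rfl fun g _ => by ring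
  refine h1.trans ?_
  rw [Finset.sum_comm]
  refine le_of_eq (Finset.sum_congr rfl fun g hg => ?_)
  rw [← Finset.sum_mul, one_S P F S hw hg, one_mul]

/-- the mean of `tvn S` -/
theorem tvn_mean (S : Finset (Fin 3)) {w : Om} (hw : P.p w ≠ 0) :
    ∑ f ∈ let_ F, mS P F Z S w f * tvn P Z F S w f ≤ 2 * D0 P F Z w := by
  have h1 : ∑ f ∈ let_ F, mS P F Z S w f * tvn P Z F S w f =
      ∑ g ∈ let_ F, |pF P Z F w g - pS P Z F S w g * mS P F Z S w g| := by
    unfold tvn
    have h2 : ∀ f, mS P F Z S w f * ∑ g ∈ let_ F, ind (∀ i ∈ S, g i = f i) *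
        |pF P Z F w g - pS P Z F S w g * ∏ i ∈ univ \ S, mF P Z F i w (g i)| =
        ∑ g ∈ let_ F, (ind (∀ i ∈ S, g i = f i) * mS P F Z S w f) *
          |pF P Z F w g - pS P Z F S w g * ∏ i ∈ univ \ S, mF P Z F i w (g i)| := fun f => by
      rw [Finset.mul_sum]
      exact Finset.sum_congr rfl fun g _ => by ring
    rw [Finset.sum_congr rfl fun f _ => h2 f, Finset.sum_comm]
    refine Finset.sum_congr rfl fun g hg => ?_
    rw [← Finset.sum_mul, one_S P F S hw hg, one_mul]
    rfl
  rw [h1]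
  have h3 : ∀ g, |pF P Z F w g - pS P Z F S w g * mS P F Z S w g| ≤
      |pF P Z F w g - ∏ i, mF P Z F i w (g i)| +
        mS P F Z S w g * |pS P Z F S w g - ∏ i ∈ S, mF P Z F i w (g i)| := by
    intro g
    have e1 : pF P Z F w g - pS P Z F S w g * mS P F Z S w g = (pF P Z F w g - ∏ i, mF P Z F i w (g i)) +
        -(mS P F Z S w g * (pS P Z F S w g - ∏ i ∈ S, mF P Z F i w (g i))) := by
      rw [prod_split P F S w g]
      ring
    rw [e1]
    refine (abs_add_le _ _).trans (le_of_eq ?_)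
    rw [abs_neg, abs_mul, abs_of_nonneg (mS_nn P F S w g)]
  refine (Finset.sum_le_sum fun g _ => h3 g).trans ?_
  rw [Finset.sum_add_distrib]
  have h4 := pS_mean P F S hw (Z := Z)
  unfold D0 at h4 ⊢
  linarith

/-- **mass of a relation of the tops of `S`** -/
theorem mass_gen (S : Finset (Fin 3)) {w : Om} (hw : P.p w ≠ 0) {H : (Fin 3 → φ) → Prop}
    (hH : ∀ f g, (∀ i ∈ S, g i = f i) → (H g ↔ H f)) {A B : ℝ} (hA : 0 ≤ A) (hB : 0 ≤ B)
    (hp : ∀ f, f ∈ let_ F → H f → pS P Z F S w f ≤ A * |pS P Z F S w f - ∏ i ∈ S, mF P Z F i w (f i)| +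
      B * tvn P Z F S w f) :
    P.ce Z (fun u => ind (H (tup F u))) w ≤ (A + 2 * B) * D0 P F Z w := by
  have h0 : P.ce Z (fun u => ind (H (tup F u))) w = ∑ g ∈ let_ F, pF P Z F w g * ind (H g) :=
    (sum_fun P (Z := Z) F (fun g => ind (H g)) w).symm
  have h1 : ∑ g ∈ let_ F, pF P Z F w g * ind (H g) = ∑ f ∈ let_ F, mS P F Z S w f * (ind (H f) * pS P Z F S w f) := by
    have h2 : ∀ g ∈ let_ F, pF P Z F w g * ind (H g) =
        ∑ f ∈ let_ F, ind (∀ i ∈ S, g i = f i) * (mS P F Z S w f * (ind (H f) * pF P Z F w g)) := by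
      intro g hg
      have h3 := one_S P F (Z := Z) S hw hg
      calc pF P Z F w g * ind (H g) = (∑ f ∈ let_ F, ind (∀ i ∈ S, g i = f i) * mS P F Z S w f) *
            (pF P Z F w g * ind (H g)) := by rw [h3, one_mul]
        _ = _ := by
          rw [Finset.sum_mul]
          refine Finset.sum_congr rfl fun f _ => ?_
          by_cases h : ∀ i ∈ S, g i = f i
          · rw [ind_of h, show H g = H f from propext (hH f g h)]
            ring
          · rw [ind_not h]
            ring
    rw [Finset.sum_congr rfl h2, Finset.sum_comm]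
    refine Finset.sum_congr rfl fun f _ => ?_
    rw [pS_sum P F S w f, Finset.mul_sum, Finset.mul_sum]
    exact Finset.sum_congr rfl fun g _ => by ring
  rw [h0, h1]
  have h4 : ∀ f ∈ let_ F, mS P F Z S w f * (ind (H f) * pS P Z F S w f) ≤
      A * (mS P F Z S w f * |pS P Z F S w f - ∏ i ∈ S, mF P Z F i w (f i)|) + B * (mS P F Z S w f * tvn P Z F S w f) := by
    intro f hf
    have m0 := mS_nn P F (Z := Z) S w f
    have t0 : 0 ≤ tvn P Z F S w f := Finset.sum_nonneg fun _ _ => mul_nonneg (ind_nonneg _) (abs_nonneg _)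
    by_cases h : H f
    · rw [ind_of h, one_mul]
      refine (mul_le_mul_of_nonneg_left (hp f hf h) m0).trans (le_of_eq (by ring))
    · rw [ind_not h, zero_mul, mul_zero]
      have := abs_nonneg (pS P Z F S w f - ∏ i ∈ S, mF P Z F i w (f i))
      positivity
  refine (Finset.sum_le_sum h4).trans ?_
  rw [Finset.sum_add_distrib, ← Finset.mul_sum, ← Finset.mul_sum]
  have h5 := mul_le_mul_of_nonneg_left (pS_mean P F S hw (Z := Z)) hA
  have h6 := mul_le_mul_of_nonneg_left (tvn_mean P F S hw (Z := Z)) hB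
  linarith

/-! ### the kinds -/

theorem tvn_cong {S : Finset (Fin 3)} (w : Om) {f g : Fin 3 → φ} (h : ∀ i ∈ S, g i = f i) :
    tvn P Z F S w g = tvn P Z F S w f := by
  unfold tvn
  refine Finset.sum_congr rfl fun x _ => ?_
  congr 2
  exact propext ⟨fun h1 i hi => (h1 i hi).trans (h i hi), fun h1 i hi => (h1 i hi).trans (h i hi).symm⟩

theorem dens_cong {S : Finset (Fin 3)} (w : Om) {f g : Fin 3 → φ} (h : ∀ i ∈ S, g i = f i) :
    dens P Z F S w g = dens P Z F S w f := by
  unfold dens
  rw [pS_cong P F w h]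
  congr 1
  exact Finset.prod_congr rfl fun i hi => by rw [h i hi]

/-- mass of a bad top -/
theorem bad_mass {c : KC} (h2 : 0 < c.e2) (i : Fin 3) {w : Om} (hw : P.p w ≠ 0) :
    P.ce Z (fun u => ind (bad P Z F c i w (tup F u))) w ≤ 1 / c.e2 * D0 P F Z w := by
  refine (mass_gen P F {i} hw (H := fun f => bad P Z F c i w f) (A := 0) (B := 1 / (2 * c.e2)) ?_ le_rfl (by positivity)
    ?_).trans (le_of_eq ?_)
  · intro f g h
    unfold bad
    rw [pS_cong P F w h, tvn_cong P F w h]
  · intro f _ hb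
    rw [zero_mul, zero_add, one_div, ← div_eq_inv_mul, le_div_iff₀ (by positivity)]
    linarith [hb.2]
  · field_simp
    ring

/-- a positive `pS` has positive marginals -/
theorem prod_pos_of {S : Finset (Fin 3)} {w : Om} {f : Fin 3 → φ} (h : 0 < pS P Z F S w f) :
    0 < ∏ i ∈ S, mF P Z F i w (f i) := by
  refine Finset.prod_pos fun i hi => ?_
  rw [← pS_one P F]
  exact lt_of_lt_of_le h (pS_anti P F (Finset.singleton_subset_iff.2 hi) w f)

/-- mass of a bad pair -/
theorem pair_mass {c : KC} (h3 : 0 < c.e3) (hd : 0 < c.dH) (j : Fin 3) {w : Om} (hw : P.p w ≠ 0) :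
    P.ce Z (fun u => ind (0 < pS P Z F (opp j) w (tup F u) ∧ (c.dH ≤ |dens P Z F (opp j) w (tup F u) - 1| ∨
      2 * c.e3 * pS P Z F (opp j) w (tup F u) ≤ tvn P Z F (opp j) w (tup F u)))) w ≤
      (1 / c.dH + 1 + 1 / c.e3) * D0 P F Z w := by
  refine (mass_gen P F (opp j) hw (H := fun f => 0 < pS P Z F (opp j) w f ∧ (c.dH ≤ |dens P Z F (opp j) w f - 1| ∨
      2 * c.e3 * pS P Z F (opp j) w f ≤ tvn P Z F (opp j) w f)) (A := 1 / c.dH + 1) (B := 1 / (2 * c.e3)) ?_
      (by positivity) (by positivity) ?_).trans (le_of_eq ?_)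
  · intro f g h
    rw [pS_cong P F w h, tvn_cong P F w h, dens_cong P F w h]
  · rintro f _ ⟨hp, h | h⟩
    · have hm := prod_pos_of P F hp
      set p := pS P Z F (opp j) w f with hpd
      set m := ∏ i ∈ opp j, mF P Z F i w (f i) with hmd
      have t0 : 0 ≤ tvn P Z F (opp j) w f := Finset.sum_nonneg fun _ _ => mul_nonneg (ind_nonneg _) (abs_nonneg _)
      have e1 : dens P Z F (opp j) w f - 1 = (p - m) / m := by
        unfold dens
        rw [← hpd, ← hmd]
        field_simp
      rw [e1, abs_div, abs_of_pos hm, le_div_iff₀ hm] at h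
      have h4 : p ≤ m + |p - m| := by linarith [le_abs_self (p - m)]
      have h5 : m ≤ 1 / c.dH * |p - m| := by
        rw [one_div, ← div_eq_inv_mul, le_div_iff₀ hd]
        linarith
      have h6 : 0 ≤ 1 / (2 * c.e3) * tvn P Z F (opp j) w f := by positivity
      nlinarith
    · have h4 : pS P Z F (opp j) w f ≤ 1 / (2 * c.e3) * tvn P Z F (opp j) w f := by
        rw [one_div, ← div_eq_inv_mul, le_div_iff₀ (by positivity)]
        linarith
      have h5 : 0 ≤ (1 / c.dH + 1) * |pS P Z F (opp j) w f - ∏ i ∈ opp j, mF P Z F i w (f i)| := by positivity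
      linarith
  · field_simp

/-- mass of `HT` -/
theorem ht_mass {c : KC} (hd : 0 < c.dH) {w : Om} (hw : P.p w ≠ 0) :
    P.ce Z (fun u => ind (1 + 4 * c.dH ≤ dens P Z F univ w (tup F u))) w ≤ (1 / (4 * c.dH) + 1) * D0 P F Z w := by
  refine (mass_gen P F univ hw (H := fun f => 1 + 4 * c.dH ≤ dens P Z F univ w f) (A := 1 / (4 * c.dH) + 1) (B := 0) ?_
      (by positivity) le_rfl ?_).trans (le_of_eq ?_)
  · intro f g h
    rw [dens_cong P F w h]
  · intro f _ h
    rw [zero_mul, add_zero]
    have hm0 : 0 ≤ ∏ i, mF P Z F i w (f i) := Finset.prod_nonneg fun i _ => mF_nn P F i w (f i)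
    rcases hm0.eq_or_lt with hm | hm
    · exfalso
      unfold dens at h
      rw [← hm, div_zero] at h
      linarith
    · set p := pS P Z F univ w f with hpd
      set m := ∏ i, mF P Z F i w (f i) with hmd
      unfold dens at h
      rw [← hpd, ← hmd, le_div_iff₀ hm] at h
      have h4 : 4 * c.dH * m ≤ p - m := by linarith
      have h5 : p - m ≤ |p - m| := le_abs_self _
      have h6 : m ≤ 1 / (4 * c.dH) * |p - m| := by
        rw [one_div, ← div_eq_inv_mul, le_div_iff₀ (by positivity)]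
        linarith
      nlinarith
  · ring

/-- bound of the masses of the kinds `≥ 2` -/
def qK (c : KC) : ℝ := 2 * c.e1 * (2 / c.e2 + 1 / c.dH + 1 + 1 / c.e3)

theorem qK_nn {c : KC} (h1 : 0 ≤ c.e1) (h2 : 0 < c.e2) (h3 : 0 < c.e3) (hd : 0 < c.dH) : 0 ≤ qK c := by
  unfold qK
  positivity

/-- **masses of the kinds `≥ 2`**, given all thin letters -/
theorem kd_mass {c : KC} (h1 : 0 ≤ c.e1) (h2 : 0 < c.e2) (h3 : 0 < c.e3) (hd : 0 < c.dH) {k : Fin 10} (hk : 2 ≤ k.1)
    {w : Om} (hw : P.p w ≠ 0) : P.ce Z (fun u => ind (kdF P Z F c k u (tup F u))) w ≤ qK c := by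
  classical
  by_cases hA : Ap P Z F c 1 w (tup F w)
  · -- everything over the thin letters is in `R0`
    have h0 : P.ce Z (fun u => ind (kdF P Z F c k u (tup F u))) w = 0 := by
      unfold FP.ce
      have : P.E (fun v => ind (Z v = Z w) * ind (kdF P Z F c k v (tup F v))) = 0 := by
        rw [← P.E_const 0]
        refine P.E_congr fun v hv => ?_
        by_cases hz : Z v = Z w
        · have h4 : Ap P Z F c 1 v (tup F v) := by
            have h5 : Ap P Z F c 1 v (tup F v) = Ap P Z F c 1 w (tup F v) := Ap_fac P F c 1 (tup F v) v w hz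
            rw [h5, Ap1_iff P F c hw]
            exact (Ap1_iff P F c hw (tup F w)).1 hA
          rw [ind_not (fun hh : kdF P Z F c k v (tup F v) => hh.2 1 (by omega) h4), mul_zero]
        · rw [ind_not hz, zero_mul]
      rw [this, zero_div]
    rw [h0]
    exact qK_nn h1 h2 h3 hd
  · have hD : D0 P F Z w ≤ 2 * c.e1 := by
      rw [Ap1_iff P F c hw] at hA
      exact (not_le.1 hA).le
    have hD0 := D0_nn P F (Z := Z) w
    have key : ∀ {H : Om → (Fin 3 → φ) → Prop}, (∀ f, Fac Z (fun w => H w f)) → (∀ u, kdF P Z F c k u (tup F u) → H u (tup F u)) →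
        P.ce Z (fun u => ind (kdF P Z F c k u (tup F u))) w ≤ P.ce Z (fun u => ind (H w (tup F u))) w := by
      intro H hH hi
      unfold FP.ce
      refine div_le_div_of_nonneg_right (P.E_mono fun v _ => ?_) (P.m_nonneg _ _)
      by_cases hz : Z v = Z w
      · refine mul_le_mul_of_nonneg_left (ind_mono fun hh => ?_) (ind_nonneg _)
        have h5 : H v (tup F v) = H w (tup F v) := hH (tup F v) v w hz
        rw [← h5]
        exact hi v hh
      · rw [ind_not hz, zero_mul, zero_mul]
    have hbad : ∀ i, P.ce Z (fun u => ind (bad P Z F c i w (tup F u))) w ≤ 2 * c.e1 * (1 / c.e2) := fun i => by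
      refine (bad_mass P F h2 i hw).trans ?_
      rw [mul_comm]
      exact mul_le_mul_of_nonneg_right hD (by positivity)
    have hpair : ∀ j, P.ce Z (fun u => ind (0 < pS P Z F (opp j) w (tup F u) ∧ (c.dH ≤ |dens P Z F (opp j) w (tup F u) - 1| ∨
        2 * c.e3 * pS P Z F (opp j) w (tup F u) ≤ tvn P Z F (opp j) w (tup F u)))) w ≤
        2 * c.e1 * (1 / c.dH + 1 + 1 / c.e3) := fun j => by
      refine (pair_mass P F h3 hd j hw).trans ?_
      rw [mul_comm]
      exact mul_le_mul_of_nonneg_right hD (by positivity)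
    have q1 : 2 * c.e1 * (1 / c.e2) ≤ qK c := by
      unfold qK
      have e2 : 2 / c.e2 = 1 / c.e2 + 1 / c.e2 := by ring
      have a1 : 0 ≤ 1 / c.e2 := by positivity
      have a2 : 0 ≤ 1 / c.dH := by positivity
      have a3 : 0 ≤ 1 / c.e3 := by positivity
      refine mul_le_mul_of_nonneg_left ?_ (by positivity)
      linarith
    have q2 : 2 * c.e1 * (1 / c.dH + 1 + 1 / c.e3) ≤ qK c := by
      unfold qK
      have a1 : 0 ≤ 2 / c.e2 := by positivity
      refine mul_le_mul_of_nonneg_left ?_ (by positivity)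
      linarith
    have hk9 : k.1 = 2 ∨ k.1 = 3 ∨ k.1 = 4 ∨ k.1 = 5 ∨ k.1 = 6 ∨ k.1 = 7 ∨ k.1 = 8 ∨ k.1 = 9 := by omega
    rcases hk9 with e | e | e | e | e | e | e | e
    · refine (key (H := fun u f => bad P Z F c 0 u f) (fun f => bad_fac P F c 0 f) fun u hu => ?_).trans ((hbad 0).trans q1)
      have := hu.1
      rw [e] at this
      exact this.1
    · refine (key (H := fun u f => bad P Z F c 1 u f) (fun f => bad_fac P F c 1 f) fun u hu => ?_).trans ((hbad 1).trans q1)
      have := hu.1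
      rw [e] at this
      exact this.1
    · refine (key (H := fun u f => bad P Z F c 2 u f) (fun f => bad_fac P F c 2 f) fun u hu => ?_).trans ((hbad 2).trans q1)
      have := hu.1
      rw [e] at this
      exact this.1
    · refine (key (H := fun u f => bad P Z F c 0 u f ∨ bad P Z F c 1 u f)
        (fun f a b hab => by
          show (bad P Z F c 0 a f ∨ bad P Z F c 1 a f) = (bad P Z F c 0 b f ∨ bad P Z F c 1 b f)
          have e1 : bad P Z F c 0 a f = bad P Z F c 0 b f := bad_fac P F c 0 f a b hab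
          have e2 : bad P Z F c 1 a f = bad P Z F c 1 b f := bad_fac P F c 1 f a b hab
          rw [e1, e2]) fun u hu => ?_).trans ?_
      · have := hu.1
        rw [e] at this
        rcases this with h | h | h
        · exact Or.inl h.1
        · exact Or.inl h.1
        · exact Or.inr h.1
      · have h6 : P.ce Z (fun u => ind (bad P Z F c 0 w (tup F u) ∨ bad P Z F c 1 w (tup F u))) w ≤
            P.ce Z (fun u => ind (bad P Z F c 0 w (tup F u))) w + P.ce Z (fun u => ind (bad P Z F c 1 w (tup F u))) w := by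
          rw [← P.ce_add]
          exact P.ce_mono (fun u _ => ind_or_le _ _) w
        have h7 := hbad 0
        have h8 := hbad 1
        have h9 : 2 * c.e1 * (1 / c.e2) + 2 * c.e1 * (1 / c.e2) ≤ qK c := by
          unfold qK
          have a2 : 0 ≤ 1 / c.dH := by positivity
          have a3 : 0 ≤ 1 / c.e3 := by positivity
          have : 2 * c.e1 * (1 / c.e2) + 2 * c.e1 * (1 / c.e2) = 2 * c.e1 * (2 / c.e2) := by ring
          rw [this]
          refine mul_le_mul_of_nonneg_left ?_ (by positivity)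
          linarith
        linarith
    · refine (key (H := fun u f => 0 < pS P Z F (opp 0) u f ∧ (c.dH ≤ |dens P Z F (opp 0) u f - 1| ∨
        2 * c.e3 * pS P Z F (opp 0) u f ≤ tvn P Z F (opp 0) u f)) (fun f => Ap_fac P F c 6 f) fun u hu => ?_).trans
        ((hpair 0).trans q2)
      have := hu.1
      rw [e] at this
      exact this
    · refine (key (H := fun u f => 0 < pS P Z F (opp 1) u f ∧ (c.dH ≤ |dens P Z F (opp 1) u f - 1| ∨
        2 * c.e3 * pS P Z F (opp 1) u f ≤ tvn P Z F (opp 1) u f)) (fun f => Ap_fac P F c 7 f) fun u hu => ?_).trans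
        ((hpair 1).trans q2)
      have := hu.1
      rw [e] at this
      exact this
    · refine (key (H := fun u f => 0 < pS P Z F (opp 2) u f ∧ (c.dH ≤ |dens P Z F (opp 2) u f - 1| ∨
        2 * c.e3 * pS P Z F (opp 2) u f ≤ tvn P Z F (opp 2) u f)) (fun f => Ap_fac P F c 8 f) fun u hu => ?_).trans
        ((hpair 2).trans q2)
      have := hu.1
      rw [e] at this
      exact this
    · refine (key (H := fun u f => 1 + 4 * c.dH ≤ dens P Z F univ u f) (fun f => Ap_fac P F c 9 f) fun u hu => ?_).trans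
        ((ht_mass P F hd hw).trans ?_)
      · have := hu.1
        rw [e] at this
        exact this
      · rw [mul_comm]
        refine (mul_le_mul_of_nonneg_right hD (by positivity)).trans ?_
        unfold qK
        have a1 : 0 ≤ 2 / c.e2 := by positivity
        have a3 : 0 ≤ 1 / c.e3 := by positivity
        have a4 : 1 / (4 * c.dH) ≤ 1 / c.dH := one_div_le_one_div_of_le hd (by linarith)
        refine mul_le_mul_of_nonneg_left ?_ (by positivity)
        linarith

/-- **masses of the kinds `≥ 2`** in a class -/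
theorem kd_mass_cls {c : KC} (h1 : 0 ≤ c.e1) (h2 : 0 < c.e2) (h3 : 0 < c.e3) (hd : 0 < c.dH) {k : Fin 10} (hk : 2 ≤ k.1)
    {γ : Type*} {C : Om → γ} (hC : Fac Z C) {w : Om} (hw : P.p w ≠ 0) :
    P.ce C (fun u => ind (kdF P Z F c k u (tup F u))) w ≤ qK c := by
  rw [← P.ce_tower hC (fun u => ind (kdF P Z F c k u (tup F u))) w]
  exact P.ce_le_const (fun u hu => kd_mass P F h1 h2 h3 hd hk hu) hw

end

end Pool.Agent.GMH.KF
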