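import Pool.Agent.GMH.ConT2
import Pool.Agent.GMH.KinMs

/-!
# GMH/ConT3 (helper42): THE THRESHOLDS OF THE KINDS (`KC`) AND THE ROUNDS (row A5)

* `kc0 R Lam eF` : `e1 = x^(-eta1)`, `e2 = x^(-eta2)`, `e3 = x^(-eta3)`, `dH = x^(-kd)`, `eS = x^(-ks)`; `KcB R Lam c` : every
  threshold of `c` is between its value in `kc0` and twice that value (pigeonhole, `GMH/PigK`); `KcB.of_thr`;
* `KcB.qK_le` : `qK c ≤ 4^3 x^(-q)`, `q` of the round G (all kinds `≥ 2` off `R0`); also `q` of H, HT;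
* `KcB.ex1`, `ex2`, `ex3`, `exd` : the weights of the exits `K Lam / eta^2 ≤ x^km` of the four rounds (`K ≤ 4^4000`);
* `rd R k` : the round of the kind `k` : `1` R0, `2 - 5` G, `6 - 8` H, `9` HT.
-/

set_option autoImplicit false
set_option linter.unusedSectionVars false

namespace Pool.Agent.GMH.CT

open Pool.Agent.GMH Pool.Agent.GMH.V3 Finset Pool.Agent.GMH.KF

noncomputable section

/-- the round of a kind -/
def rd (R : Rounds) (k : ℕ) : Rd := if k ≤ 1 then R.R0 else if k ≤ 5 then R.G else if k ≤ 8 then R.H else R.HT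

theorem rd_mem (R : Rounds) (k : ℕ) : rd R k ∈ [R.HT, R.H, R.G, R.R0] := by
  unfold rd
  split_ifs <;> simp

/-- `R0` has the largest exponents -/
theorem R0_max (R : Rounds) : ∀ r ∈ [R.HT, R.H, R.G, R.R0], r.T ≤ R.R0.T ∧ r.Z ≤ R.R0.Z ∧ r.m1 ≤ R.R0.m1 ∧ r.q ≤ R.R0.q := by
  have o := R.eta_ord
  have hm : ∀ a b a' b' : ℕ, a ≤ a' → b ≤ b' → (Rd.mk R.kL R.kg a b).T ≤ (Rd.mk R.kL R.kg a' b').T ∧
      (Rd.mk R.kL R.kg a b).Z ≤ (Rd.mk R.kL R.kg a' b').Z ∧ (Rd.mk R.kL R.kg a b).m1 ≤ (Rd.mk R.kL R.kg a' b').m1 ∧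
      (Rd.mk R.kL R.kg a b).q ≤ (Rd.mk R.kL R.kg a' b').q := fun a b a' b' h h' => by
    unfold Rd.q Rd.m1 Rd.Z Rd.u0 Rd.uc Rd.TC Rd.kf Rd.mu Rd.g0 Rd.T Rd.uB Rd.sB Rd.lm
    dsimp only
    omega
  intro r hr
  simp only [List.mem_cons, List.not_mem_nil, or_false] at hr
  rcases hr with rfl | rfl | rfl | rfl
  · exact hm _ _ _ _ (by omega) (by omega)
  · exact hm _ _ _ _ (by omega) (by omega)
  · exact hm _ _ _ _ (by omega) (by omega)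
  · exact ⟨le_rfl, le_rfl, le_rfl, le_rfl⟩

/-- the thresholds before the pigeonhole -/
def kc0 (R : Rounds) (Lam eF : ℝ) : KC :=
  ⟨eF, ix Lam R.eta1, ix Lam R.eta2, ix Lam R.eta3, ix Lam R.kd, ix Lam R.ks⟩

/-- the thresholds after the pigeonhole -/
structure KcB (R : Rounds) (Lam : ℝ) (c : KC) : Prop where
  l1 : ix Lam R.eta1 ≤ c.e1
  u1 : c.e1 ≤ 2 * ix Lam R.eta1
  l2 : ix Lam R.eta2 ≤ c.e2
  u2 : c.e2 ≤ 2 * ix Lam R.eta2
  l3 : ix Lam R.eta3 ≤ c.e3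
  u3 : c.e3 ≤ 2 * ix Lam R.eta3
  ld : ix Lam R.kd ≤ c.dH
  ud : c.dH ≤ 2 * ix Lam R.kd
  lS : ix Lam R.ks ≤ c.eS
  uS : c.eS ≤ 2 * ix Lam R.ks

theorem KcB.of_thr {R : Rounds} {Lam : ℝ} (hL : 2 ≤ Lam) {eF : ℝ} {c : KC} (hS : c.eS = (kc0 R Lam eF).eS)
    (h1 : (kc0 R Lam eF).e1 ≤ c.e1 ∧ c.e1 ≤ 2 * (kc0 R Lam eF).e1) (h2 : (kc0 R Lam eF).e2 ≤ c.e2 ∧ c.e2 ≤ 2 * (kc0 R Lam eF).e2)
    (h3 : (kc0 R Lam eF).e3 ≤ c.e3 ∧ c.e3 ≤ 2 * (kc0 R Lam eF).e3)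
    (hd : (kc0 R Lam eF).dH ≤ c.dH ∧ c.dH ≤ 2 * (kc0 R Lam eF).dH) : KcB R Lam c :=
  ⟨h1.1, h1.2, h2.1, h2.2, h3.1, h3.2, hd.1, hd.2, hS.ge, hS.le.trans (by
    show ix Lam R.ks ≤ 2 * ix Lam R.ks
    have := ix_nn hL R.ks
    linarith)⟩

theorem kc0_B (R : Rounds) {Lam : ℝ} (hL : 2 ≤ Lam) (eF : ℝ) : KcB R Lam (kc0 R Lam eF) := by
  have h : ∀ k, ix Lam k ≤ 2 * ix Lam k := fun k => by
    have := ix_nn hL k
    linarith
  exact ⟨le_rfl, h _, le_rfl, h _, le_rfl, h _, le_rfl, h _, le_rfl, h _⟩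

namespace KcB

variable {R : Rounds} {Lam : ℝ} {c : KC} (h : KcB R Lam c) (hL : 2 ≤ Lam)

include h hL

theorem p1 : 0 < c.e1 := (ix_pos hL _).trans_le h.l1
theorem p2 : 0 < c.e2 := (ix_pos hL _).trans_le h.l2
theorem p3 : 0 < c.e3 := (ix_pos hL _).trans_le h.l3
theorem pd : 0 < c.dH := (ix_pos hL _).trans_le h.ld
theorem pS : 0 < c.eS := (ix_pos hL _).trans_le h.lS

theorem b1 : c.e1 ≤ ix Lam (R.eta1 - 1) := by
  have h1 : 1 ≤ R.eta1 := by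
    have e7 : R.eta1 = R.eta2 + R.G.q + 1 := rfl
    omega
  refine h.u1.trans ?_
  have := cst_ix hL (c := 2) (j := 1) (s := R.eta1 - 1) (by norm_num)
  rwa [show 1 + (R.eta1 - 1) = R.eta1 by omega] at this

/-- **THE CLASS MASS OF THE KINDS OFF `R0`** -/
theorem qK_le : qK c ≤ 4 ^ 3 * ix Lam R.G.q := by
  have o := R.eta_ord
  have i2 : 1 / c.e2 ≤ pw Lam R.eta2 := by
    rw [one_div, ← inv_ix hL]
    exact inv_anti₀ (ix_pos hL _) h.l2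
  have i3 : 1 / c.e3 ≤ pw Lam R.eta2 := by
    rw [one_div, ← inv_ix hL]
    exact inv_anti₀ (ix_pos hL _) ((ix_anti hL o.2.1).trans h.l3)
  have id : 1 / c.dH ≤ pw Lam R.eta2 := by
    rw [one_div, ← inv_ix hL]
    exact inv_anti₀ (ix_pos hL _) ((ix_anti hL (o.1.trans o.2.1)).trans h.ld)
  have p := pw_ge1 hL R.eta2
  have hs : 2 / c.e2 + 1 / c.dH + 1 + 1 / c.e3 ≤ 5 * pw Lam R.eta2 := by
    have e : 2 / c.e2 = 2 * (1 / c.e2) := by ring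
    rw [e]
    linarith
  have h1 := h.p1 hL
  unfold qK
  have e1 : ix Lam R.eta1 * pw Lam R.eta2 = ix Lam (R.G.q + 1) := by
    have e7 : R.eta1 = R.eta2 + (R.G.q + 1) := by unfold Rounds.eta1; omega
    rw [e7, mul_comm, pw_ix_add hL]
  have e2 : 4 * ix Lam (R.G.q + 1) ≤ ix Lam R.G.q := by
    have := cst_ix hL (c := 4) (j := 1) (s := R.G.q) (by norm_num)
    rwa [add_comm 1 R.G.q] at this
  calc 2 * c.e1 * (2 / c.e2 + 1 / c.dH + 1 + 1 / c.e3) ≤ 2 * (2 * ix Lam R.eta1) * (5 * pw Lam R.eta2) := by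
        refine mul_le_mul (by linarith [h.u1]) hs ?_ (by have := ix_nn hL R.eta1; linarith)
        have := h.p2 hL
        have := h.p3 hL
        have := h.pd hL
        positivity
    _ = 20 * ix Lam (R.G.q + 1) := by
        rw [← e1]
        ring
    _ ≤ 4 ^ 3 * ix Lam R.G.q := by
        have := ix_nn hL R.G.q
        linarith

theorem qK_le' {r : Rd} (hr : r ∈ [R.HT, R.H, R.G]) : qK c ≤ 4 ^ 3 * ix Lam r.q := by
  refine (h.qK_le hL).trans (mul_le_mul_of_nonneg_left (ix_anti hL ?_) (by norm_num))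
  have o := R.eta_ord
  have hq : ∀ a b : ℕ, a ≤ b → (Rd.mk R.kL R.kg (R.kp + 2 * a) (R.kz + 2 * a)).q ≤
      (Rd.mk R.kL R.kg (R.kp + 2 * b) (R.kz + 2 * b)).q := fun a b hab => by
    unfold Rd.q Rd.m1 Rd.Z Rd.u0 Rd.uc Rd.TC Rd.kf Rd.mu Rd.g0 Rd.T Rd.uB Rd.sB Rd.lm
    dsimp only
    omega
  simp only [List.mem_cons, List.not_mem_nil, or_false] at hr
  rcases hr with rfl | rfl | rfl
  · exact hq _ _ (o.1.trans o.2.1)
  · exact hq _ _ o.2.1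
  · exact le_rfl

/-- square root of the class mass -/
theorem sqrt_qK {r : Rd} (hr : r ∈ [R.HT, R.H, R.G]) : Real.sqrt (qK c) ≤ 4 ^ 2 * Real.sqrt (ix Lam r.q) := by
  refine (Real.sqrt_le_sqrt (h.qK_le' hL hr)).trans ?_
  rw [Real.sqrt_mul (by norm_num)]
  refine mul_le_mul_of_nonneg_right ?_ (Real.sqrt_nonneg _)
  rw [Real.sqrt_le_left (by norm_num)]
  norm_num

/-! ### exits -/

theorem ex_gen {e K : ℝ} {eta kp km : ℕ} (he : ix Lam eta ≤ e) (hK : K ≤ 4 ^ kp) (hm : kp + 1 + 2 * eta ≤ km) :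
    K * Lam / e ^ 2 ≤ pw Lam km := by
  have p := ix_pos hL eta
  have e0 : 0 < e := p.trans_le he
  have h1 : (e ^ 2)⁻¹ ≤ pw Lam (2 * eta) := by
    have h2 : ix Lam (2 * eta) ≤ e ^ 2 := by
      rw [mul_comm, ix_mul]
      exact pow_le_pow_left₀ p.le he 2
    have h3 := inv_anti₀ (ix_pos hL _) h2
    rwa [inv_ix hL] at h3
  rw [div_eq_mul_inv]
  have h4 : K * Lam ≤ pw Lam (kp + 1) := cLam hL kp hK
  have h5 := mul_pw hL (inv_nonneg.2 (sq_nonneg e)) h4 h1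
  exact h5.trans (pw_mono hL hm)

theorem ex1 {K : ℝ} {j : ℕ} (hj : j + 1 ≤ R.kp + 4) (hK : K ≤ 4 ^ j) : K * Lam / c.e1 ^ 2 ≤ pw Lam R.R0.km :=
  h.ex_gen hL h.l1 hK (by
    have e4 : R.R0.km = R.kp + 2 * R.eta1 + 4 := rfl
    omega)

theorem ex2 {K : ℝ} {j : ℕ} (hj : j + 1 ≤ R.kp) (hK : K ≤ 4 ^ j) : K * Lam / c.e2 ^ 2 ≤ pw Lam R.G.km :=
  h.ex_gen hL h.l2 hK (by
    have e4 : R.G.km = R.kp + 2 * R.eta2 := rfl
    omega)

theorem ex3 {K : ℝ} {j : ℕ} (hj : j + 1 ≤ R.kp) (hK : K ≤ 4 ^ j) : K * Lam / c.e3 ^ 2 ≤ pw Lam R.H.km :=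
  h.ex_gen hL h.l3 hK (by
    have e4 : R.H.km = R.kp + 2 * R.eta3 := rfl
    omega)

theorem exd {K : ℝ} {j : ℕ} (hj : j + 1 ≤ R.kp) (hK : K ≤ 4 ^ j) : K * Lam / c.dH ^ 2 ≤ pw Lam R.HT.km :=
  h.ex_gen hL h.ld hK (by
    have e4 : R.HT.km = R.kp + 2 * R.kd := rfl
    omega)

/-- the largest weight: every exit of a kind `k` is at most `x^km` of its round, even with `min (e2, dH, ..)` -/
theorem ex_all {K e : ℝ} {j : ℕ} (hj : j + 1 ≤ R.kp) (hK : K ≤ 4 ^ j) :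
    (c.e1 ≤ e → K * Lam / e ^ 2 ≤ pw Lam R.R0.km) ∧ (c.e2 ≤ e → K * Lam / e ^ 2 ≤ pw Lam R.G.km) ∧
      (c.e3 ≤ e → K * Lam / e ^ 2 ≤ pw Lam R.H.km) ∧ (c.dH ≤ e → K * Lam / e ^ 2 ≤ pw Lam R.HT.km) := by
  refine ⟨fun he => h.ex_gen hL (h.l1.trans he) hK ?_, fun he => h.ex_gen hL (h.l2.trans he) hK ?_,
    fun he => h.ex_gen hL (h.l3.trans he) hK ?_, fun he => h.ex_gen hL (h.ld.trans he) hK ?_⟩
  · have e4 : R.R0.km = R.kp + 2 * R.eta1 + 4 := rfl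
    omega
  · have e4 : R.G.km = R.kp + 2 * R.eta2 := rfl
    omega
  · have e4 : R.H.km = R.kp + 2 * R.eta3 := rfl
    omega
  · have e4 : R.HT.km = R.kp + 2 * R.kd := rfl
    omega

/-- order of the thresholds -/
theorem ord21 : 4 ^ 8 * c.e1 ≤ c.e2 := by
  have o := R.eta_ord
  have e7 : R.eta1 = R.eta2 + (R.G.q + 1) := by unfold Rounds.eta1; omega
  have hq : 400 * R.eta2 ≤ R.G.q := o.2.2.2.2.2.1
  have hg : 64 ≤ R.G.q := by
    have := R.G.ord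
    omega
  have h1 := fin hL (u := 4 ^ 8 * 2) (a := 9) (k := R.eta1) (s := R.eta2) (cst hL 9 (by norm_num)) (by omega)
  have := h.u1
  have := h.l2
  linarith

theorem ord32 : 4 ^ 8 * c.e2 ≤ c.e3 := by
  have e7 : R.eta2 = R.kd + R.eta3 + R.H.q + 2 := rfl
  have hg : 64 ≤ R.H.q := by
    have := R.H.ord
    omega
  have h1 := fin hL (u := 4 ^ 8 * 2) (a := 9) (k := R.eta2) (s := R.eta3) (cst hL 9 (by norm_num)) (by omega)
  have := h.u2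
  have := h.l3
  linarith

theorem ordd3 : 4 ^ 8 * c.e3 ≤ c.dH := by
  have e7 : R.eta3 = R.kd + R.HT.q := rfl
  have hg : 64 ≤ R.HT.q := by
    have := R.HT.ord
    omega
  have h1 := fin hL (u := 4 ^ 8 * 2) (a := 9) (k := R.eta3) (s := R.kd) (cst hL 9 (by norm_num)) (by omega)
  have := h.u3
  have := h.ld
  linarith

theorem dH_le (hk : 1 ≤ R.kd) : c.dH ≤ ix Lam (R.kd - 1) := by
  refine h.ud.trans ?_
  have := cst_ix hL (c := 2) (j := 1) (s := R.kd - 1) (by norm_num)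
  rwa [show 1 + (R.kd - 1) = R.kd by omega] at this

/-- the loss `delta` of the relations at a release : `eS N_T`, `eS N_0` in every round -/
theorem eS_T {r : Rd} (hr : r ∈ [R.HT, R.H, R.G, R.R0]) {c' N : ℝ} (hc0 : 0 ≤ c') (hc : c' ≤ 4 ^ 10) (hN0 : 0 ≤ N)
    (hN : N ≤ pw Lam (r.T + r.Z)) : c' * c.eS * N ≤ ix Lam 44 := by
  have hk := R0_max R r hr
  have h1 : c' * c.eS * N ≤ c' * (2 * ix Lam R.ks) * N :=
    mul_le_mul_of_nonneg_right (mul_le_mul_of_nonneg_left h.uS hc0) hN0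
  refine h1.trans ?_
  have h2 := fin2 hL (u := c' * 2) (a := 11) (k := R.ks) (s := 44) hN0 (cst hL 11 (by norm_num at hc ⊢; linarith)) hN
    (by unfold Rounds.ks; omega)
  refine le_trans (le_of_eq ?_) h2
  ring

end KcB

end

end Pool.Agent.GMH.CT
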