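import Pool.Agent.GMH.MVN

/-!
# GMH/ConT0 (helper42): CONSTANTS OF HARM(3), FULL; exponents and tools (row A5)

`x = 2 Lam`, `pw Lam k = x^k`, `ix Lam k = x^(-k)`.
* tools: `le_pw_mul` (products of bounds), `fin`, `fin2`, .. : `u v x^(-k) ≤ x^(-s)` if `u ≤ x^a`, `v ≤ x^b`, `a + b + s ≤ k`;
* `Rd` = one round: `kL` (cost of a measure: `L ≤ x^kL`), `kg` (`GA ≤ x^kg`), `km` (`MM ≤ x^km`: weight of the decisions),
  `kz` (the same for the zones); exponents `lm` (`lam_r = x^(-lm)`), `sB`, `uB = 2 sB`, `T` (`N_T ≤ x^T`), `g0`, `mu`, `kX`, `kf`,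
  `TC`, `uc`, `u3`, `u0`, `Z` (`N_0 ≤ x^Z`), `m1`, `q`.  SLACK 64, every term of the final sum is at most `x^(-44)`;
* `Rounds` = the four rounds HT, H, G, R0 with `eta3`, `eta2`, `eta1` (exponents), the common `ka`, `ks`, the cut `K` of the tests;
* `Rc` : THE CONSTANTS; `Rc_L4` : `3 Lam + 4 K + 4 ≤ x^kL`.
-/

set_option autoImplicit false
set_option linter.unusedSectionVars false

namespace Pool.Agent.GMH.CT

open Pool.Agent.GMH Pool.Agent.GMH.V3 Finset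

noncomputable section

/-- `x^(-k)` -/
def ix (Lam : ℝ) (k : ℕ) : ℝ := (pw Lam k)⁻¹

section tools

variable {Lam : ℝ} (hL : 2 ≤ Lam)

include hL

theorem pw_pos (k : ℕ) : 0 < pw Lam k := MVN.pw_pos hL k

theorem pw_mono {a b : ℕ} (h : a ≤ b) : pw Lam a ≤ pw Lam b := MVN.pw_mono hL h

theorem pw_ge (k : ℕ) : (4 : ℝ) ^ k ≤ pw Lam k := MVN.pw_four hL k

theorem pw_ge1 (k : ℕ) : (1 : ℝ) ≤ pw Lam k := pw_one hL k

theorem ix_pos (k : ℕ) : 0 < ix Lam k := inv_pos.2 (pw_pos hL k)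

theorem ix_nn (k : ℕ) : 0 ≤ ix Lam k := (ix_pos hL k).le

theorem ix_le_one (k : ℕ) : ix Lam k ≤ 1 := inv_le_one_of_one_le₀ (pw_ge1 hL k)

theorem ix_anti {a b : ℕ} (h : a ≤ b) : ix Lam b ≤ ix Lam a := inv_anti₀ (pw_pos hL a) (pw_mono hL h)

theorem ix_four (k : ℕ) : ix Lam k ≤ (4 ^ k : ℝ)⁻¹ := inv_anti₀ (by positivity) (pw_ge hL k)

end tools

theorem pw_zero (Lam : ℝ) : pw Lam 0 = 1 := by
  unfold pw
  rw [pow_zero]

theorem pw_succ (Lam : ℝ) (k : ℕ) : pw Lam (k + 1) = pw Lam k * (2 * Lam) := by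
  unfold pw
  rw [pow_succ]

theorem pw_one' (Lam : ℝ) : pw Lam 1 = 2 * Lam := by
  unfold pw
  rw [pow_one]

theorem pw_add (Lam : ℝ) (a b : ℕ) : pw Lam (a + b) = pw Lam a * pw Lam b := by
  unfold pw
  exact pow_add _ _ _

theorem pw_mul (Lam : ℝ) (a b : ℕ) : pw Lam (a * b) = pw Lam a ^ b := by
  unfold pw
  exact pow_mul _ _ _

theorem ix_zero (Lam : ℝ) : ix Lam 0 = 1 := by
  unfold ix
  rw [pw_zero, inv_one]

theorem ix_add (Lam : ℝ) (a b : ℕ) : ix Lam (a + b) = ix Lam a * ix Lam b := by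
  unfold ix
  rw [pw_add, mul_inv]

theorem ix_mul (Lam : ℝ) (a b : ℕ) : ix Lam (a * b) = ix Lam a ^ b := by
  unfold ix
  rw [pw_mul, inv_pow]

section tools

variable {Lam : ℝ} (hL : 2 ≤ Lam)

include hL

/-- `x^a x^(-a) = 1` -/
theorem pw_ix (a : ℕ) : pw Lam a * ix Lam a = 1 := mul_inv_cancel₀ (pw_pos hL a).ne'

theorem pw_ix_add (a b : ℕ) : pw Lam a * ix Lam (a + b) = ix Lam b := by
  rw [ix_add, ← mul_assoc, pw_ix hL, one_mul]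

theorem pw_add_ix (a b : ℕ) : pw Lam (a + b) * ix Lam a = pw Lam b := by
  rw [pw_add, mul_right_comm, pw_ix hL, one_mul]

/-- `√(x^(-2k)) = x^(-k)` -/
theorem sqrt_ix (k : ℕ) : Real.sqrt (ix Lam (2 * k)) = ix Lam k := by
  rw [two_mul, ix_add, Real.sqrt_mul_self (ix_nn hL k)]

theorem inv_ix (k : ℕ) : (ix Lam k)⁻¹ = pw Lam k := inv_inv _

theorem div_ix (y : ℝ) (k : ℕ) : y / ix Lam k = y * pw Lam k := by
  rw [div_eq_mul_inv, inv_ix hL]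

/-- `x^(-a) / x^(-b) ≤ x^(-s)` -/
theorem ix_div {a b s : ℕ} (h : b + s ≤ a) : ix Lam a / ix Lam b ≤ ix Lam s := by
  rw [div_ix hL]
  have h1 : ix Lam a ≤ ix Lam (b + s) := ix_anti hL h
  have h2 := mul_le_mul_of_nonneg_right h1 (pw_pos hL b).le
  refine h2.trans (le_of_eq ?_)
  rw [mul_comm, pw_ix_add hL]

theorem cst (k : ℕ) {c : ℝ} (h : c ≤ 4 ^ k) : c ≤ pw Lam k := h.trans (pw_ge hL k)

/-- a natural number -/
theorem nat_le (k : ℕ) : (k : ℝ) ≤ pw Lam k := by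
  refine le_trans ?_ (pw_ge hL k)
  have h1 : k < 4 ^ k := Nat.lt_pow_self (by norm_num)
  exact_mod_cast h1.le

theorem Lam_le : Lam ≤ pw Lam 1 := by
  rw [pw_one']
  linarith

/-- product of bounds -/
theorem mul_pw {u v : ℝ} {a b : ℕ} (hv : 0 ≤ v) (h1 : u ≤ pw Lam a) (h2 : v ≤ pw Lam b) : u * v ≤ pw Lam (a + b) := by
  rw [pw_add]
  exact mul_le_mul h1 h2 hv (pw_pos hL a).le

theorem cLam {c : ℝ} (k : ℕ) (h : c ≤ 4 ^ k) : c * Lam ≤ pw Lam (k + 1) :=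
  mul_pw hL (by linarith) (cst hL k h) (Lam_le hL)

theorem add_pw {u v : ℝ} {a : ℕ} (h1 : u ≤ pw Lam a) (h2 : v ≤ pw Lam a) : u + v ≤ pw Lam (a + 1) := by
  rw [pw_succ]
  have := pw_pos hL a
  nlinarith

/-- one factor -/
theorem fin {u : ℝ} {a k s : ℕ} (h1 : u ≤ pw Lam a) (h : a + s ≤ k) : u * ix Lam k ≤ ix Lam s := by
  have h2 : ix Lam k ≤ ix Lam (a + s) := ix_anti hL h
  have h3 : u * ix Lam k ≤ pw Lam a * ix Lam k := mul_le_mul_of_nonneg_right h1 (ix_nn hL k)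
  have h4 : pw Lam a * ix Lam k ≤ pw Lam a * ix Lam (a + s) := mul_le_mul_of_nonneg_left h2 (pw_pos hL a).le
  rw [pw_ix_add hL] at h4
  exact h3.trans h4

/-- two factors -/
theorem fin2 {u v : ℝ} {a b k s : ℕ} (hv : 0 ≤ v) (h1 : u ≤ pw Lam a) (h2 : v ≤ pw Lam b) (h : a + b + s ≤ k) :
    u * v * ix Lam k ≤ ix Lam s := fin hL (mul_pw hL hv h1 h2) h

/-- three factors -/
theorem fin3 {u v w : ℝ} {a b c k s : ℕ} (hv : 0 ≤ v) (hw : 0 ≤ w) (h1 : u ≤ pw Lam a) (h2 : v ≤ pw Lam b)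
    (h3 : w ≤ pw Lam c) (h : a + b + c + s ≤ k) : u * v * w * ix Lam k ≤ ix Lam s :=
  fin hL (mul_pw hL hw (mul_pw hL hv h1 h2) h3) h

/-- four factors -/
theorem fin4 {u v w z : ℝ} {a b c d k s : ℕ} (hv : 0 ≤ v) (hw : 0 ≤ w) (hz : 0 ≤ z) (h1 : u ≤ pw Lam a)
    (h2 : v ≤ pw Lam b) (h3 : w ≤ pw Lam c) (h4 : z ≤ pw Lam d) (h : a + b + c + d + s ≤ k) :
    u * v * w * z * ix Lam k ≤ ix Lam s :=
  fin hL (mul_pw hL hz (mul_pw hL hw (mul_pw hL hv h1 h2) h3) h4) h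

/-- a sum of at most `4^j` terms -/
theorem sum_ix {ι : Type*} (I : Finset ι) {f : ι → ℝ} {j s : ℕ} (hI : (I.card : ℝ) ≤ 4 ^ j)
    (hf : ∀ i ∈ I, f i ≤ ix Lam (j + s)) : ∑ i ∈ I, f i ≤ ix Lam s := by
  refine (Finset.sum_le_sum hf).trans ?_
  rw [Finset.sum_const, nsmul_eq_mul]
  exact fin hL (cst hL j hI) le_rfl

theorem add_ix {u v : ℝ} {s : ℕ} (h1 : u ≤ ix Lam (s + 1)) (h2 : v ≤ ix Lam (s + 1)) : u + v ≤ ix Lam s := by
  have h3 := pw_ix_add hL 1 s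
  rw [add_comm 1 s, pw_one'] at h3
  have h4 := ix_pos hL (s + 1)
  nlinarith

/-- number of terms times `x^(-(s+j))` -/
theorem cst_ix {c : ℝ} {j s : ℕ} (h : c ≤ 4 ^ j) : c * ix Lam (j + s) ≤ ix Lam s := fin hL (cst hL j h) le_rfl

/-- logarithms -/
theorem log_pw (k : ℕ) : Real.log (pw Lam k) ≤ pw Lam (k + 1) := by
  have h1 := Real.log_le_sub_one_of_pos (pw_pos hL k)
  have h2 := pw_mono hL (Nat.le_succ k)
  linarith

theorem log_two : Real.log (2 * Lam) ≤ 2 * Lam := by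
  have h1 := Real.log_le_sub_one_of_pos (show 0 < 2 * Lam by linarith)
  linarith

/-- `log 1/eta ≤ k x` for `eta = x^(-k)` -/
theorem log_inv_ix (k : ℕ) : Real.log (1 / ix Lam k) ≤ k * (2 * Lam) := by
  rw [one_div, inv_ix hL]
  unfold pw
  rw [Real.log_pow]
  exact mul_le_mul_of_nonneg_left (log_two hL) (Nat.cast_nonneg k)

/-- the cost of a measure : `3 Lam + log 1/eta` -/
theorem cost_le (k : ℕ) {j : ℕ} (hj : (k : ℝ) + 2 ≤ 4 ^ j) : 3 * Lam + Real.log (1 / ix Lam k) ≤ pw Lam (j + 1) := by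
  have h1 := log_inv_ix hL k
  have h2 : 3 * Lam + (k : ℝ) * (2 * Lam) ≤ ((k : ℝ) + 2) * (2 * Lam) := by nlinarith
  rw [pw_succ]
  have h3 := mul_le_mul_of_nonneg_right (cst hL j hj) (show (0 : ℝ) ≤ 2 * Lam by linarith)
  linarith

end tools

/-! ## one round -/

/-- **ONE ROUND** : bounds `L ≤ x^kL`, `GA ≤ x^kg`, `MM ≤ x^km`, zones `x^kz` -/
structure Rd where
  kL : ℕ
  kg : ℕ
  km : ℕ
  kz : ℕ

namespace Rd

variable (r : Rd)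

/-- `lam_r = x^(-lm)` -/
def lm : ℕ := r.km + 64
/-- `√u_B = x^(-sB)` -/
def sB : ℕ := r.kL + r.kg + r.lm + 64
/-- `u_B = x^(-uB)` -/
def uB : ℕ := 2 * r.sB
/-- `N_T ≤ x^T` -/
def T : ℕ := r.km + r.uB + 4
/-- `g_0 = u_C = u_ex = x^(-g0)` -/
def g0 : ℕ := r.kL + r.T + 64
/-- `mu_0 = x^(-mu)` (pieces at the exact vertex) -/
def mu : ℕ := r.lm + 2 * r.g0 + r.kL + r.T + 64
/-- `kap_X = theta = u_3 = x^(-sB)` -/
def kX : ℕ := r.sB
/-- lists : `m_f = n / x^kf` -/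
def kf : ℕ := r.T + r.mu + r.lm + r.kL + 64
/-- covered mass `≤ x^TC` -/
def TC : ℕ := r.kf + 16
/-- `u_c = x^(-uc)` -/
def uc : ℕ := r.TC + r.kL + 64
/-- `u_0 = x^(-u0)` -/
def u0 : ℕ := (r.uc + r.g0 + r.TC) + (r.sB + r.mu + r.kg + r.lm) + (r.g0 + r.T) + 3 * (r.kg + r.lm) + 3 * (r.kL + 64)
/-- `N_0 ≤ x^Z` -/
def Z : ℕ := r.km + r.kz + r.u0 + 4
/-- `mu_1 = x^(-m1)` (pieces at the zone) -/
def m1 : ℕ := r.u0 + r.Z + r.kL + 64
/-- `q = x^(-q)` : class mass of the relation (against the lists of the public payments) -/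
def q : ℕ := 16 * (r.mu + r.m1 + r.kL + 32)

theorem ord : r.km + 64 ≤ r.lm ∧ r.lm + r.kL + r.kg + 64 ≤ r.sB ∧ r.sB ≤ r.uB ∧ r.uB + r.km + 4 ≤ r.T ∧
    r.T + r.kL + 64 ≤ r.g0 ∧ r.g0 ≤ r.mu ∧ r.mu ≤ r.kf ∧ r.kf ≤ r.TC ∧ r.TC ≤ r.uc ∧ r.uc ≤ r.u0 ∧ r.u0 ≤ r.Z ∧
    r.Z ≤ r.m1 ∧ r.m1 ≤ r.q := by
  unfold q m1 Z u0 uc TC kf mu g0 T uB sB lm
  omega

end Rd

/-! ## the four rounds -/

/-- data : cost `kL`, activity `kg`, threshold of the hot pairs `d = x^(-kd)`; weight of the decisions of a kind (exits,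
helper99): `C Lam / eta^2 ≤ x^(kp + 2 eta)`, `eta` = threshold of the kind; of the zones `x^(kz + 2 eta)` -/
structure Rounds where
  kL : ℕ
  kg : ℕ
  kd : ℕ
  kp : ℕ
  kz : ℕ

namespace Rounds

variable (c : Rounds)

/-- kind HT (threshold `d`) -/
def HT : Rd := ⟨c.kL, c.kg, c.kp + 2 * c.kd, c.kz + 2 * c.kd⟩
/-- `eta_3 = d q_T` -/
def eta3 : ℕ := c.kd + c.HT.q
/-- kind H (threshold `min (d, eta_3)`) -/
def H : Rd := ⟨c.kL, c.kg, c.kp + 2 * c.eta3, c.kz + 2 * c.eta3⟩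
/-- `eta_2 = d eta_3 q_H / 16` -/
def eta2 : ℕ := c.kd + c.eta3 + c.H.q + 2
/-- kind G (threshold `eta_2`) -/
def G : Rd := ⟨c.kL, c.kg, c.kp + 2 * c.eta2, c.kz + 2 * c.eta2⟩
/-- `eta_1 = eta_2 q_G / 4` -/
def eta1 : ℕ := c.eta2 + c.G.q + 1
/-- kind R0 (threshold `eta_1`) -/
def R0 : Rd := ⟨c.kL, c.kg, c.kp + 2 * c.eta1 + 4, c.kz + 2 * c.eta1 + 4⟩
/-- the exponent which bounds everything -/
def m : ℕ := c.HT.q + c.H.q + c.G.q + c.R0.q + c.eta1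
/-- clocks -/
def ka : ℕ := c.m + 64
/-- singles (`eS = x^(-ks)`, the loss `delta` of the relations at a release) -/
def ks : ℕ := c.R0.T + c.R0.Z + 128
/-- `A ≥ c.bd` in `TopKin` -/
def bd : ℕ := 100 * (c.ka + c.ks + 100)

theorem m_ge : c.HT.m1 ≤ c.m ∧ c.H.m1 ≤ c.m ∧ c.G.m1 ≤ c.m ∧ c.R0.m1 ≤ c.m ∧ c.eta3 ≤ c.m ∧ c.eta2 ≤ c.m ∧
    c.eta1 ≤ c.m := by
  have h1 := c.HT.ord
  have h2 := c.H.ord
  have h3 := c.G.ord
  have h4 := c.R0.ord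
  have h5 : c.eta3 ≤ c.eta2 := by unfold eta2; omega
  have h6 : c.eta2 ≤ c.eta1 := by unfold eta1; omega
  unfold m
  omega

/-- all exponents of the rounds are at most `m` -/
theorem all_le : (∀ r ∈ [c.HT, c.H, c.G, c.R0], r.q ≤ c.m ∧ r.m1 ≤ c.m ∧ r.T ≤ c.m ∧ r.Z ≤ c.m) ∧ c.m + 64 ≤ c.ka ∧
    c.ks ≤ 2 * c.m + 128 := by
  have h1 := c.HT.ord
  have h2 := c.H.ord
  have h3 := c.G.ord
  have h4 := c.R0.ord
  refine ⟨?_, ?_, ?_⟩
  · intro r hr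
    simp only [List.mem_cons, List.not_mem_nil, or_false] at hr
    rcases hr with rfl | rfl | rfl | rfl <;> (unfold m; omega)
  · unfold ka
    omega
  · unfold ks m
    omega

/-- the order of the thresholds: `kd ≤ eta3 ≤ eta2 ≤ eta1`, every `q` is large against the thresholds before it -/
theorem eta_ord : c.kd ≤ c.eta3 ∧ c.eta3 ≤ c.eta2 ∧ c.eta2 ≤ c.eta1 ∧ 400 * c.kd ≤ c.HT.q ∧ 400 * c.eta3 ≤ c.H.q ∧
    400 * c.eta2 ≤ c.G.q ∧ 400 * c.eta1 ≤ c.R0.q := by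
  have hq : ∀ r : Rd, 200 * r.km ≤ r.q := fun r => by
    unfold Rd.q Rd.m1 Rd.Z Rd.u0 Rd.uc Rd.TC Rd.kf Rd.mu Rd.g0 Rd.T Rd.uB Rd.sB Rd.lm
    omega
  have h1 := hq c.HT
  have h2 := hq c.H
  have h3 := hq c.G
  have h4 := hq c.R0
  have e1 : c.HT.km = c.kp + 2 * c.kd := rfl
  have e2 : c.H.km = c.kp + 2 * c.eta3 := rfl
  have e3 : c.G.km = c.kp + 2 * c.eta2 := rfl
  have e4 : c.R0.km = c.kp + 2 * c.eta1 + 4 := rfl
  have e5 : c.eta3 = c.kd + c.HT.q := rfl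
  have e6 : c.eta2 = c.kd + c.eta3 + c.H.q + 2 := rfl
  have e7 : c.eta1 = c.eta2 + c.G.q + 1 := rfl
  omega

/-- zones are counted with at most the same weight -/
theorem kz_le (h : c.kz ≤ c.kp) : ∀ r ∈ [c.HT, c.H, c.G, c.R0], r.kz ≤ r.km := by
  intro r hr
  simp only [List.mem_cons, List.not_mem_nil, or_false] at hr
  have e1 : c.HT.km = c.kp + 2 * c.kd := rfl
  have e2 : c.H.km = c.kp + 2 * c.eta3 := rfl
  have e3 : c.G.km = c.kp + 2 * c.eta2 := rfl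
  have e4 : c.R0.km = c.kp + 2 * c.eta1 + 4 := rfl
  have f1 : c.HT.kz = c.kz + 2 * c.kd := rfl
  have f2 : c.H.kz = c.kz + 2 * c.eta3 := rfl
  have f3 : c.G.kz = c.kz + 2 * c.eta2 := rfl
  have f4 : c.R0.kz = c.kz + 2 * c.eta1 + 4 := rfl
  rcases hr with rfl | rfl | rfl | rfl <;> omega

/-- cost and activity are the same in all rounds -/
theorem kL_eq : ∀ r ∈ [c.HT, c.H, c.G, c.R0], r.kL = c.kL ∧ r.kg = c.kg := by
  intro r hr
  simp only [List.mem_cons, List.not_mem_nil, or_false] at hr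
  rcases hr with rfl | rfl | rfl | rfl <;> exact ⟨rfl, rfl⟩

end Rounds

/-- **THE CONSTANTS** (`kg` : helper76, GMH/ConTK; `kd` : behind the kind HOT, GMH/ConTH; `kL` : the cut `K` below) -/
def Rc : Rounds := ⟨64, 60, 100000000, 5000, 5000⟩

namespace Rounds

variable (c : Rounds)

/-- exponent of the cut of the tests, `exp (-K) = x^(-kK)` : larger than all exponents of the rounds -/
def kK : ℕ := c.m + c.ks + 64

/-- **THE CUT `K`** : tests `max psi (-K)` in every kind -/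
def K (Lam : ℝ) : ℝ := Real.log (pw Lam c.kK)

theorem kK_ge : c.m + 64 ≤ c.kK ∧ c.ks + 64 ≤ c.kK ∧ c.ka ≤ c.kK := by
  unfold kK ka
  omega

variable {Lam : ℝ} (hL : 2 ≤ Lam)

include hL

theorem exp_K : Real.exp (-(c.K Lam)) = ix Lam c.kK := by
  unfold K ix
  rw [Real.exp_neg, Real.exp_log (pw_pos hL _)]

theorem exp_K_le {k : ℕ} (h : k ≤ c.m + 64) : Real.exp (-(c.K Lam)) ≤ ix Lam k := by
  rw [c.exp_K hL]
  exact ix_anti hL (h.trans c.kK_ge.1)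

theorem K_nn : 0 ≤ c.K Lam := Real.log_nonneg (pw_ge1 hL _)

theorem K_pos (h : 0 < c.kK) : 0 < c.K Lam := by
  refine Real.log_pos ?_
  have h1 : pw Lam 1 ≤ pw Lam c.kK := pw_mono hL h
  rw [pw_one'] at h1
  linarith

/-- the size of the tests -/
theorem K_le {j : ℕ} (h : 4 * c.kK + 4 ≤ 4 ^ j) (hj : j + 1 ≤ c.kL) : 3 * Lam + 4 * c.K Lam + 4 ≤ pw Lam c.kL := by
  have h1 : c.K Lam ≤ c.kK * (2 * Lam) := by
    have := log_inv_ix hL c.kK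
    rwa [one_div, inv_ix hL] at this
  have h2 : (4 * (c.kK : ℝ) + 4) ≤ 4 ^ j := by exact_mod_cast h
  have h3 := mul_le_mul_of_nonneg_right (cst hL j h2) (show (0 : ℝ) ≤ 2 * Lam by linarith)
  have h4 : pw Lam (j + 1) ≤ pw Lam c.kL := pw_mono hL hj
  rw [pw_succ] at h4
  nlinarith

end Rounds

theorem Rc_kK : 4 * Rc.kK + 4 ≤ 4 ^ 63 := by decide +kernel

/-- **`3 Lam + 4 K + 4 ≤ x^kL`** -/
theorem Rc_L4 {Lam : ℝ} (hL : 2 ≤ Lam) : 3 * Lam + 4 * Rc.K Lam + 4 ≤ pw Lam Rc.kL := Rc.K_le hL Rc_kK le_rfl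

/-- **`L = 3 Lam + K + 1 ≤ x^kL`** -/
theorem Rc_L {Lam : ℝ} (hL : 2 ≤ Lam) : 3 * Lam + Rc.K Lam + 1 ≤ pw Lam Rc.kL := by
  have h1 := Rc_L4 hL
  have h2 := Rc.K_nn hL
  linarith

end

end Pool.Agent.GMH.CT
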