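import Pool.Agent.GMH.Bal
import Pool.Agent.M3.S3Rob

/-!
# GMH.LemS: Lemma S (3539 (A1), 3554 (4)), any number of labels (helper12)

TABLES: `LTab S` = for the index type `I` and finite sets `S i` of letters the laws `p`, `p'` of the tuple (before and after
the addition) and the laws `q i`, `q' i` of the single letters given less (the experts, before and after);
`loss = ∑ p' (∑_i log (q'_i / q_i) - log (p' / p))`.
* `LTab.lemS` : `loss ≤ ∑ p' log (p / (q G)) + (∑ q' G - 1)` for every `G ≥ 0`, positive on the support;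
* `LTab.lemS_st` : statuses `s i x` of the letters, `U F` = set of the indices with status:
  `loss ≤ ∑ p' log (p_U / q_U) + ∑ q'_U ∏_(i ∉ U) r_i (p / p_U - ∏_(i ∉ U) q_i)`, `r_i = q'_i / q_i`.

PROBABILITY SPACES: `lossF P v f A N w` = loss of the table of the laws of the labels `f i` given `N`, `(v, N)` resp. `A i`,
`(v, A i)`; `E_lossF` : its mean is `∑_i I(v; f_i | A_i) - I(v; f | N)` (`N` finer than `A i`).
* `lemS_fp`, `lemS_fp_st` : the two forms of Lemma S.
* `MP_split` : one addition at `k` in two levels `S` (upper labels) and the rest.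
-/

set_option autoImplicit false
set_option linter.unusedSectionVars false
set_option linter.unusedVariables false

namespace Pool.Agent.GMH

open Finset Pool.Agent.PWZ Pool.Agent.M3 Pool.Agent.GM

noncomputable section

/-! ## tables -/

section Tab

variable {I φ : Type*} [Fintype I] [DecidableEq I]

/-- the tables -/
structure LTab (S : I → Finset φ) where
  p : (I → φ) → ℝ
  p' : (I → φ) → ℝ
  q : I → φ → ℝ
  q' : I → φ → ℝ
  p_nn : ∀ F ∈ Fintype.piFinset S, 0 ≤ p F
  p'_nn : ∀ F ∈ Fintype.piFinset S, 0 ≤ p' F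
  q_nn : ∀ i, ∀ x ∈ S i, 0 ≤ q i x
  q'_nn : ∀ i, ∀ x ∈ S i, 0 ≤ q' i x
  p'_one : ∑ F ∈ Fintype.piFinset S, p' F = 1
  q'_one : ∀ i, ∑ x ∈ S i, q' i x = 1
  ac : ∀ F ∈ Fintype.piFinset S, p F = 0 → p' F = 0
  acq : ∀ i, ∀ x ∈ S i, q i x = 0 → q' i x = 0
  acp : ∀ F ∈ Fintype.piFinset S, ∀ i, q i (F i) = 0 → p F = 0
  acp' : ∀ F ∈ Fintype.piFinset S, ∀ i, q' i (F i) = 0 → p' F = 0

variable {S : I → Finset φ} (t : LTab S)

/-- the loss of one value -/
def LTab.loss : ℝ :=
  ∑ F ∈ Fintype.piFinset S, t.p' F * (∑ i, Real.log (t.q' i (F i) / t.q i (F i)) - Real.log (t.p' F / t.p F))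

open Classical in
/-- marginal of the tuple law on `U` -/
def pU (p : (I → φ) → ℝ) (S : I → Finset φ) (U : Finset I) (F : I → φ) : ℝ :=
  ∑ F' ∈ (Fintype.piFinset S).filter (fun F' => ∀ i ∈ U, F' i = F i), p F'

open Classical in
/-- the set of the indices with status -/
def stU (s : I → φ → Prop) (F : I → φ) : Finset I := univ.filter fun i => s i (F i)

namespace LTab

theorem q_pos {F : I → φ} (hF : F ∈ Fintype.piFinset S) (hp : t.p' F ≠ 0) (i : I) : 0 < t.q i (F i) := by
  have hx := Fintype.mem_piFinset.1 hF i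
  refine lt_of_le_of_ne (t.q_nn i _ hx) (fun h => hp ?_)
  exact t.acp' F hF i (t.acq i _ hx h.symm)

theorem q'_pos {F : I → φ} (hF : F ∈ Fintype.piFinset S) (hp : t.p' F ≠ 0) (i : I) : 0 < t.q' i (F i) := by
  have hx := Fintype.mem_piFinset.1 hF i
  exact lt_of_le_of_ne (t.q'_nn i _ hx) (fun h => hp (t.acp' F hF i h.symm))

theorem p_pos {F : I → φ} (hF : F ∈ Fintype.piFinset S) (hp : t.p' F ≠ 0) : 0 < t.p F :=
  lt_of_le_of_ne (t.p_nn F hF) (fun h => hp (t.ac F hF h.symm))

theorem p'_pos {F : I → φ} (hF : F ∈ Fintype.piFinset S) (hp : t.p' F ≠ 0) : 0 < t.p' F :=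
  lt_of_le_of_ne (t.p'_nn F hF) hp.symm

theorem prod_q'_one : ∑ F ∈ Fintype.piFinset S, ∏ i, t.q' i (F i) = 1 := by
  rw [← Finset.prod_univ_sum]
  exact Finset.prod_eq_one fun i _ => t.q'_one i

/-- LEMMA S, general form -/
theorem lemS (G : (I → φ) → ℝ) (hG : ∀ F ∈ Fintype.piFinset S, 0 ≤ G F)
    (hGp : ∀ F ∈ Fintype.piFinset S, t.p' F ≠ 0 → 0 < G F) :
    t.loss ≤ ∑ F ∈ Fintype.piFinset S, t.p' F * Real.log (t.p F / ((∏ i, t.q i (F i)) * G F)) +
      (∑ F ∈ Fintype.piFinset S, (∏ i, t.q' i (F i)) * G F - 1) := by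
  have h1 : ∀ F ∈ Fintype.piFinset S, t.p' F * (∑ i, Real.log (t.q' i (F i) / t.q i (F i)) - Real.log (t.p' F / t.p F)) ≤
      t.p' F * Real.log (t.p F / ((∏ i, t.q i (F i)) * G F)) + ((∏ i, t.q' i (F i)) * G F - t.p' F) := by
    intro F hF
    by_cases hp : t.p' F = 0
    · rw [hp, zero_mul, zero_mul, zero_add, sub_zero]
      exact mul_nonneg (Finset.prod_nonneg fun i _ => t.q'_nn i _ (Fintype.mem_piFinset.1 hF i)) (hG F hF)
    · have p1 := t.p_pos hF hp
      have p2 := t.p'_pos hF hp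
      have p3 := hGp F hF hp
      have p4 : 0 < ∏ i, t.q i (F i) := Finset.prod_pos fun i _ => t.q_pos hF hp i
      have p5 : 0 < ∏ i, t.q' i (F i) := Finset.prod_pos fun i _ => t.q'_pos hF hp i
      have e1 : ∑ i, Real.log (t.q' i (F i) / t.q i (F i)) = Real.log (∏ i, t.q' i (F i)) - Real.log (∏ i, t.q i (F i)) := by
        rw [Real.log_prod (fun i _ => (t.q'_pos hF hp i).ne'), Real.log_prod (fun i _ => (t.q_pos hF hp i).ne'),
          ← Finset.sum_sub_distrib]
        refine Finset.sum_congr rfl fun i _ => ?_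
        rw [Real.log_div (t.q'_pos hF hp i).ne' (t.q_pos hF hp i).ne']
      have e2 : Real.log (t.p' F / t.p F) = Real.log (t.p' F) - Real.log (t.p F) := Real.log_div p2.ne' p1.ne'
      have e3 : Real.log (t.p F / ((∏ i, t.q i (F i)) * G F)) = Real.log (t.p F) - (Real.log (∏ i, t.q i (F i)) +
          Real.log (G F)) := by
        rw [Real.log_div p1.ne' (by positivity), Real.log_mul p4.ne' p3.ne']
      have e4 : Real.log ((∏ i, t.q' i (F i)) * G F / t.p' F) ≤ (∏ i, t.q' i (F i)) * G F / t.p' F - 1 :=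
        Real.log_le_sub_one_of_pos (by positivity)
      have e5 : Real.log ((∏ i, t.q' i (F i)) * G F / t.p' F) = Real.log (∏ i, t.q' i (F i)) + Real.log (G F) -
          Real.log (t.p' F) := by
        rw [Real.log_div (by positivity) p2.ne', Real.log_mul p5.ne' p3.ne']
      have e6 : t.p' F * ((∏ i, t.q' i (F i)) * G F / t.p' F - 1) = (∏ i, t.q' i (F i)) * G F - t.p' F := by
        field_simp
      have e7 := mul_le_mul_of_nonneg_left e4 p2.le
      rw [e6, e5] at e7
      rw [e1, e2, e3]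
      nlinarith [e7]
  calc t.loss ≤ ∑ F ∈ Fintype.piFinset S, (t.p' F * Real.log (t.p F / ((∏ i, t.q i (F i)) * G F)) +
        ((∏ i, t.q' i (F i)) * G F - t.p' F)) := Finset.sum_le_sum h1
    _ = _ := by
      rw [Finset.sum_add_distrib, Finset.sum_sub_distrib, t.p'_one]

theorem pU_nn {U : Finset I} (F : I → φ) : 0 ≤ pU t.p S U F := by
  classical
  unfold pU
  exact Finset.sum_nonneg fun F' hF' => t.p_nn F' (Finset.mem_filter.1 hF').1

theorem p_le_pU {U : Finset I} {F : I → φ} (hF : F ∈ Fintype.piFinset S) : t.p F ≤ pU t.p S U F := by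
  classical
  unfold pU
  exact Finset.single_le_sum (f := t.p) (fun F' hF' => t.p_nn F' (Finset.mem_filter.1 hF').1)
    (Finset.mem_filter.2 ⟨hF, fun _ _ => rfl⟩)

/-- LEMMA S with statuses -/
theorem lemS_st (s : I → φ → Prop) :
    t.loss ≤ ∑ F ∈ Fintype.piFinset S, t.p' F * Real.log (pU t.p S (stU s F) F / ∏ i ∈ stU s F, t.q i (F i)) +
      ∑ F ∈ Fintype.piFinset S, (∏ i ∈ stU s F, t.q' i (F i)) * (∏ i ∈ (stU s F)ᶜ, t.q' i (F i) / t.q i (F i)) *
        (t.p F / pU t.p S (stU s F) F - ∏ i ∈ (stU s F)ᶜ, t.q i (F i)) := by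
  classical
  set G : (I → φ) → ℝ := fun F => t.p F / (pU t.p S (stU s F) F * ∏ i ∈ (stU s F)ᶜ, t.q i (F i)) with hGdef
  have hG : ∀ F ∈ Fintype.piFinset S, 0 ≤ G F := by
    intro F hF
    refine div_nonneg (t.p_nn F hF) (mul_nonneg (t.pU_nn F) ?_)
    exact Finset.prod_nonneg fun i _ => t.q_nn i _ (Fintype.mem_piFinset.1 hF i)
  have hGp : ∀ F ∈ Fintype.piFinset S, t.p' F ≠ 0 → 0 < G F := by
    intro F hF hp
    have p1 := t.p_pos hF hp
    have p2 : 0 < pU t.p S (stU s F) F := p1.trans_le (t.p_le_pU hF)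
    have p3 : 0 < ∏ i ∈ (stU s F)ᶜ, t.q i (F i) := Finset.prod_pos fun i _ => t.q_pos hF hp i
    exact div_pos p1 (mul_pos p2 p3)
  have key := t.lemS G hG hGp
  have e1 : ∑ F ∈ Fintype.piFinset S, t.p' F * Real.log (t.p F / ((∏ i, t.q i (F i)) * G F)) =
      ∑ F ∈ Fintype.piFinset S, t.p' F * Real.log (pU t.p S (stU s F) F / ∏ i ∈ stU s F, t.q i (F i)) := by
    refine Finset.sum_congr rfl fun F hF => ?_
    by_cases hp : t.p' F = 0
    · rw [hp, zero_mul, zero_mul]
    · congr 2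
      have p1 := t.p_pos hF hp
      have p2 : 0 < pU t.p S (stU s F) F := p1.trans_le (t.p_le_pU hF)
      have p3 : 0 < ∏ i ∈ (stU s F)ᶜ, t.q i (F i) := Finset.prod_pos fun i _ => t.q_pos hF hp i
      have p4 : 0 < ∏ i ∈ stU s F, t.q i (F i) := Finset.prod_pos fun i _ => t.q_pos hF hp i
      rw [← Finset.prod_mul_prod_compl (stU s F) (fun i => t.q i (F i))]
      simp only [hGdef]
      field_simp
  have e2 : ∑ F ∈ Fintype.piFinset S, (∏ i, t.q' i (F i)) * G F - 1 =
      ∑ F ∈ Fintype.piFinset S, (∏ i ∈ stU s F, t.q' i (F i)) * (∏ i ∈ (stU s F)ᶜ, t.q' i (F i) / t.q i (F i)) *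
        (t.p F / pU t.p S (stU s F) F - ∏ i ∈ (stU s F)ᶜ, t.q i (F i)) := by
    rw [← t.prod_q'_one, ← Finset.sum_sub_distrib]
    refine Finset.sum_congr rfl fun F hF => ?_
    have hx := Fintype.mem_piFinset.1 hF
    have f1 : ∏ i, t.q' i (F i) = (∏ i ∈ stU s F, t.q' i (F i)) * ∏ i ∈ (stU s F)ᶜ, t.q' i (F i) :=
      (Finset.prod_mul_prod_compl (stU s F) (fun i => t.q' i (F i))).symm
    have f2 : ∏ i ∈ (stU s F)ᶜ, t.q' i (F i) = (∏ i ∈ (stU s F)ᶜ, t.q' i (F i) / t.q i (F i)) *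
        ∏ i ∈ (stU s F)ᶜ, t.q i (F i) := by
      rw [← Finset.prod_mul_distrib]
      refine Finset.prod_congr rfl fun i _ => ?_
      by_cases h0 : t.q i (F i) = 0
      · rw [h0, t.acq i _ (hx i) h0]; simp
      · field_simp
    have f3 : (∏ i ∈ (stU s F)ᶜ, t.q' i (F i)) * G F = (∏ i ∈ (stU s F)ᶜ, t.q' i (F i) / t.q i (F i)) *
        (t.p F / pU t.p S (stU s F) F) := by
      rw [f2]
      simp only [hGdef]
      by_cases h0 : ∏ i ∈ (stU s F)ᶜ, t.q i (F i) = 0
      · obtain ⟨i, hi, h1⟩ := Finset.prod_eq_zero_iff.1 h0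
        have : t.p F = 0 := t.acp F hF i h1
        rw [this]; simp
      · field_simp
    rw [f1, mul_assoc, f3, f2]
    ring
  rw [e1, e2] at key
  exact key

end LTab

end Tab

/-! ## probability spaces -/

section FPart

variable {Om : Type*} [Fintype Om] (P : FP Om) {I φ α β ν : Type*} [Fintype I] [DecidableEq I]

/-- the tuple of the labels -/
def tup (f : I → Om → φ) (w : Om) : I → φ := fun i => f i w

/-- the letters -/
def let_ (f : I → Om → φ) : Finset (I → φ) := Fintype.piFinset fun i => vals (f i)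

theorem tup_mem (f : I → Om → φ) (w : Om) : tup f w ∈ let_ f :=
  Fintype.mem_piFinset.2 fun i => FP.mem_vals (f i) w

theorem exists_of_vals {κ : Type*} {V : Om → κ} {x : κ} (h : x ∈ vals V) : ∃ w, V w = x := by
  unfold vals at h
  simp only [Finset.mem_image, Finset.mem_univ, true_and] at h
  exact h

theorem vals_sub (f : I → Om → φ) : vals (tup f) ⊆ let_ f := by
  intro F hF
  obtain ⟨w, rfl⟩ := exists_of_vals hF
  exact tup_mem f w

theorem pv_out {κ ι : Type*} (W : Om → ι) (V : Om → κ) (w : Om) {x : κ} (hx : x ∉ vals V) : P.pv W V w x = 0 := by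
  unfold FP.pv
  have : (fun u => ind (V u = x)) = fun _ => (0 : ℝ) := by
    funext u
    refine ind_not (fun h => hx ?_)
    rw [← h]; exact FP.mem_vals V u
  rw [this]
  unfold FP.ce
  have e : (fun v => ind (W v = W w) * (0 : ℝ)) = fun _ => (0 : ℝ) := by funext v; ring
  rw [e, P.E_const, zero_div]

/-- sums over the tuples -/
theorem sum_tup {ι : Type*} {W : Om → ι} (f : I → Om → φ) {F : Om → (I → φ) → ℝ} (hF : ∀ x, Fac W (fun w => F w x))
    (w : Om) : ∑ x ∈ let_ f, P.pv W (tup f) w x * F w x = P.ce W (fun u => F u (tup f u)) w := by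
  classical
  rw [← P.sum_pv (tup f) hF w]
  symm
  refine Finset.sum_subset (vals_sub f) fun x _ hx => ?_
  rw [pv_out P W (tup f) w hx, zero_mul]

variable (v : Om → β) (f : I → Om → φ) (A : I → Om → α) (N : Om → ν)

/-- the table at the point `w` -/
def tabP (hNA : ∀ i, Fac N (A i)) {w : Om} (hw : P.p w ≠ 0) : LTab (fun i => vals (f i)) where
  p F := P.pv N (tup f) w F
  p' F := P.pv (fun u => (v u, N u)) (tup f) w F
  q i x := P.pv (A i) (f i) w x
  q' i x := P.pv (fun u => (v u, A i u)) (f i) w x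
  p_nn F _ := P.pv_nonneg _ _ _ _
  p'_nn F _ := P.pv_nonneg _ _ _ _
  q_nn i x _ := P.pv_nonneg _ _ _ _
  q'_nn i x _ := P.pv_nonneg _ _ _ _
  p'_one := by
    have h := sum_tup P (W := fun u => (v u, N u)) f (F := fun _ _ => 1) (fun _ _ _ _ => rfl) w
    simp only [mul_one] at h
    rw [P.ce_const _ 1 hw] at h
    exact h
  q'_one i := P.pv_sum _ _ hw
  ac F _ h := P.pv_ac (Fac.snd _ _) (tup f) h
  acq i x _ h := P.pv_ac (Fac.snd _ _) (f i) h
  acp F _ i h := by
    have h1 : P.pv N (f i) w (F i) = 0 := P.pv_ac (hNA i) (f i) h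
    refine le_antisymm ?_ (P.pv_nonneg _ _ _ _)
    rw [← h1]
    refine P.ce_mono (fun u _ => ?_) w
    by_cases h2 : tup f u = F
    · rw [ind_of h2, ind_of (show f i u = F i by rw [← h2]; rfl)]
    · rw [ind_not h2]; exact ind_nonneg _
  acp' F _ i h := by
    have h1 : P.pv (fun u => (v u, N u)) (f i) w (F i) = 0 :=
      P.pv_ac (W := fun u => (v u, N u)) (Z := fun u => (v u, A i u))
        (fun a b hab => by simp only [Prod.mk.injEq] at hab ⊢; exact ⟨hab.1, hNA i a b hab.2⟩) (f i) h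
    refine le_antisymm ?_ (P.pv_nonneg _ _ _ _)
    rw [← h1]
    refine P.ce_mono (fun u _ => ?_) w
    by_cases h2 : tup f u = F
    · rw [ind_of h2, ind_of (show f i u = F i by rw [← h2]; rfl)]
    · rw [ind_not h2]; exact ind_nonneg _

/-- the loss at the point `w` -/
def lossF (w : Om) : ℝ :=
  ∑ F ∈ let_ f, P.pv (fun u => (v u, N u)) (tup f) w F *
    (∑ i, Real.log (P.pv (fun u => (v u, A i u)) (f i) w (F i) / P.pv (A i) (f i) w (F i)) -
      Real.log (P.pv (fun u => (v u, N u)) (tup f) w F / P.pv N (tup f) w F))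

theorem lossF_eq (hNA : ∀ i, Fac N (A i)) {w : Om} (hw : P.p w ≠ 0) :
    lossF P v f A N w = (tabP P v f A N hNA hw).loss := rfl

/-- mutual information as a mean of log ratios -/
theorem I_pv {κ ι ι' : Type*} (X : Om → κ) (Y : Om → ι) (Z : Om → ι') :
    P.I X Y Z = P.E (fun w => Real.log (P.pv (fun u => (X u, Z u)) Y w (Y w) / P.pv Z Y w (Y w))) := by
  unfold FP.I FP.H
  rw [← FP.E_add, ← FP.E_sub, ← FP.E_sub]
  refine P.E_congr (fun w hw => ?_)
  have p1 := P.m_pos (fun u => (X u, Z u)) hw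
  have p2 := P.m_pos (fun u => (Y u, Z u)) hw
  have p3 := P.m_pos (fun u => (X u, Y u, Z u)) hw
  have p4 := P.m_pos Z hw
  rw [P.pv_self, P.pv_self]
  have e : P.m (fun u => (Y u, X u, Z u)) w = P.m (fun u => (X u, Y u, Z u)) w :=
    P.m_congr (fun a b hab => by simp only [Prod.mk.injEq] at hab ⊢; tauto)
      (fun a b hab => by simp only [Prod.mk.injEq] at hab ⊢; tauto) w
  rw [e, Real.log_div (div_pos p3 p1).ne' (div_pos p2 p4).ne', Real.log_div p3.ne' p1.ne', Real.log_div p2.ne' p4.ne']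
  ring

/-- THE MEAN OF THE LOSS -/
theorem E_lossF (hNA : ∀ i, Fac N (A i)) :
    P.E (lossF P v f A N) = ∑ i, P.I v (f i) (A i) - P.I v (tup f) N := by
  have h1 : P.E (lossF P v f A N) = P.E (P.ce (fun u => (v u, N u)) (fun u =>
      ∑ i, Real.log (P.pv (fun a => (v a, A i a)) (f i) u (f i u) / P.pv (A i) (f i) u (f i u)) -
        Real.log (P.pv (fun a => (v a, N a)) (tup f) u (tup f u) / P.pv N (tup f) u (tup f u)))) := by
    refine P.E_congr (fun w _ => ?_)
    unfold lossF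
    refine sum_tup P (W := fun u => (v u, N u)) f (F := fun w F =>
      ∑ i, Real.log (P.pv (fun u => (v u, A i u)) (f i) w (F i) / P.pv (A i) (f i) w (F i)) -
        Real.log (P.pv (fun u => (v u, N u)) (tup f) w F / P.pv N (tup f) w F)) (fun F => ?_) w
    intro a b hab
    simp only [Prod.mk.injEq] at hab
    have g1 : ∀ i, P.pv (fun u => (v u, A i u)) (f i) a (F i) = P.pv (fun u => (v u, A i u)) (f i) b (F i) := fun i =>
      P.pv_fac _ _ _ a b (by simp only [Prod.mk.injEq]; exact ⟨hab.1, hNA i a b hab.2⟩)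
    have g2 : ∀ i, P.pv (A i) (f i) a (F i) = P.pv (A i) (f i) b (F i) := fun i =>
      P.pv_fac _ _ _ a b (hNA i a b hab.2)
    have g3 : P.pv (fun u => (v u, N u)) (tup f) a F = P.pv (fun u => (v u, N u)) (tup f) b F :=
      P.pv_fac _ _ _ a b (by simp only [Prod.mk.injEq]; exact hab)
    have g4 : P.pv N (tup f) a F = P.pv N (tup f) b F := P.pv_fac _ _ _ a b hab.2
    simp only [g1, g2, g3, g4]
  rw [h1, P.E_ce, P.E_sub, P.E_sum, ← I_pv P v (tup f) N]
  congr 1
  refine Finset.sum_congr rfl fun i _ => ?_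
  rw [← I_pv P v (f i) (A i)]

/-- LEMMA S on a probability space, general form -/
theorem lemS_fp (hNA : ∀ i, Fac N (A i)) (G : Om → (I → φ) → ℝ) (hGf : ∀ F, Fac (fun u => (v u, N u)) (fun w => G w F))
    (hG : ∀ w F, 0 ≤ G w F) (hGp : ∀ w, P.p w ≠ 0 → ∀ F ∈ let_ f, P.pv (fun u => (v u, N u)) (tup f) w F ≠ 0 → 0 < G w F) :
    ∑ i, P.I v (f i) (A i) - P.I v (tup f) N ≤
      P.E (fun w => Real.log (P.pv N (tup f) w (tup f w) / ((∏ i, P.pv (A i) (f i) w (f i w)) * G w (tup f w)))) +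
        P.E (fun w => ∑ F ∈ let_ f, (∏ i, P.pv (fun u => (v u, A i u)) (f i) w (F i)) * G w F - 1) := by
  rw [← E_lossF P v f A N hNA]
  have e1 : P.E (fun w => Real.log (P.pv N (tup f) w (tup f w) / ((∏ i, P.pv (A i) (f i) w (f i w)) * G w (tup f w)))) =
      P.E (fun w => ∑ F ∈ let_ f, P.pv (fun u => (v u, N u)) (tup f) w F *
        Real.log (P.pv N (tup f) w F / ((∏ i, P.pv (A i) (f i) w (F i)) * G w F))) := by
    rw [← P.E_ce (fun u => (v u, N u)) (fun w => Real.log (P.pv N (tup f) w (tup f w) /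
      ((∏ i, P.pv (A i) (f i) w (f i w)) * G w (tup f w))))]
    refine P.E_congr (fun w _ => ?_)
    symm
    refine sum_tup P (W := fun u => (v u, N u)) f (F := fun w F =>
      Real.log (P.pv N (tup f) w F / ((∏ i, P.pv (A i) (f i) w (F i)) * G w F))) (fun F => ?_) w
    intro a b hab
    simp only [Prod.mk.injEq] at hab
    have g2 : ∀ i, P.pv (A i) (f i) a (F i) = P.pv (A i) (f i) b (F i) := fun i =>
      P.pv_fac _ _ _ a b (hNA i a b hab.2)
    have g4 : P.pv N (tup f) a F = P.pv N (tup f) b F := P.pv_fac _ _ _ a b hab.2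
    have g5 : G a F = G b F := hGf F a b (by simp only [Prod.mk.injEq]; exact hab)
    simp only [g2, g4, g5]
  rw [e1, ← P.E_add]
  refine P.E_mono (fun w hw => ?_)
  rw [lossF_eq P v f A N hNA hw]
  exact (tabP P v f A N hNA hw).lemS (G w) (fun F _ => hG w F) (fun F hF hp => hGp w hw F hF hp)

/-- LEMMA S on a probability space, with statuses (a status of a letter may depend on `(v, N)`) -/
theorem lemS_fp_st (hNA : ∀ i, Fac N (A i)) (s : I → Om → φ → Prop)
    (hs : ∀ i x a b, (v a, N a) = (v b, N b) → (s i a x ↔ s i b x)) :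
    ∑ i, P.I v (f i) (A i) - P.I v (tup f) N ≤
      P.E (fun w => Real.log (pU (P.pv N (tup f) w) (fun i => vals (f i)) (stU (fun i => s i w) (tup f w)) (tup f w) /
        ∏ i ∈ stU (fun i => s i w) (tup f w), P.pv (A i) (f i) w (f i w))) +
        P.E (fun w => ∑ F ∈ let_ f, (∏ i ∈ stU (fun i => s i w) F, P.pv (fun u => (v u, A i u)) (f i) w (F i)) *
          (∏ i ∈ (stU (fun i => s i w) F)ᶜ, P.pv (fun u => (v u, A i u)) (f i) w (F i) / P.pv (A i) (f i) w (F i)) *
          (P.pv N (tup f) w F / pU (P.pv N (tup f) w) (fun i => vals (f i)) (stU (fun i => s i w) F) F -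
            ∏ i ∈ (stU (fun i => s i w) F)ᶜ, P.pv (A i) (f i) w (F i))) := by
  classical
  rw [← E_lossF P v f A N hNA]
  have e1 : P.E (fun w => Real.log (pU (P.pv N (tup f) w) (fun i => vals (f i)) (stU (fun i => s i w) (tup f w)) (tup f w) /
        ∏ i ∈ stU (fun i => s i w) (tup f w), P.pv (A i) (f i) w (f i w))) =
      P.E (fun w => ∑ F ∈ let_ f, P.pv (fun u => (v u, N u)) (tup f) w F *
        Real.log (pU (P.pv N (tup f) w) (fun i => vals (f i)) (stU (fun i => s i w) F) F /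
          ∏ i ∈ stU (fun i => s i w) F, P.pv (A i) (f i) w (F i))) := by
    rw [← P.E_ce (fun u => (v u, N u)) (fun w => Real.log (pU (P.pv N (tup f) w) (fun i => vals (f i))
      (stU (fun i => s i w) (tup f w)) (tup f w) / ∏ i ∈ stU (fun i => s i w) (tup f w), P.pv (A i) (f i) w (f i w)))]
    refine P.E_congr (fun w _ => ?_)
    symm
    refine sum_tup P (W := fun u => (v u, N u)) f (F := fun w F =>
      Real.log (pU (P.pv N (tup f) w) (fun i => vals (f i)) (stU (fun i => s i w) F) F /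
          ∏ i ∈ stU (fun i => s i w) F, P.pv (A i) (f i) w (F i))) (fun F => ?_) w
    intro a b hab
    have hab' := hab
    simp only [Prod.mk.injEq] at hab'
    have g2 : ∀ i, P.pv (A i) (f i) a (F i) = P.pv (A i) (f i) b (F i) := fun i =>
      P.pv_fac _ _ _ a b (hNA i a b hab'.2)
    have g4 : P.pv N (tup f) a = P.pv N (tup f) b := by
      funext x
      exact P.pv_fac _ _ _ a b hab'.2
    have g5 : stU (fun i => s i a) F = stU (fun i => s i b) F := by
      unfold stU
      refine Finset.filter_congr fun i _ => hs i (F i) a b hab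
    simp only [g2, g4, g5]
  rw [e1, ← P.E_add]
  refine P.E_mono (fun w hw => ?_)
  rw [lossF_eq P v f A N hNA hw]
  exact (tabP P v f A N hNA hw).lemS_st (fun i => s i w)

end FPart

/-! ## one addition in two levels -/

section Split

variable {Om : Type*} [Fintype Om] (P : FP Om) {ι υ κ : Type*} [Fintype ι] [PartialOrder ι] [DecidableEq ι]

/-- one addition at `k`: `T` = upper labels (an arbitrary set without labels below or equal to `k`), the others -/
theorem MP_split {υ' ν : Type*} {L : ι → Om → υ} {L' : ι → Om → υ'} {k o : ι} (ho : ∀ i, o ≤ i) {v : Om → ν}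
    (h : Add L L' k v) (W : Om → κ) [DecidableRel (fun a b : ι => a < b)] (T : Finset ι) (hT : ∀ i ∈ T, ¬ i ≤ k) :
    MP P L o W - MP P L' o W =
      (∑ i ∈ (univ.filter (fun i => k < i)) \ T, P.I v (L i) (fun w => (bel L i w, W w)) -
        P.I v (fam L Tᶜ) (fun w => (ble L k w, W w))) +
      (∑ i ∈ (univ.filter (fun i => k < i)) ∩ T, P.I v (L i) (fun w => (bel L i w, W w)) -
        P.I v (fam L T) (fun w => (fam L Tᶜ w, W w))) := by
  classical
  rw [MP_step P ho h W]
  have e1 : P.I v (all L) (fun w => (ble L k w, W w)) = P.I v (fun w => (fam L T w, fam L Tᶜ w)) (fun w => (ble L k w, W w)) := by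
    rw [P.I_comm, P.I_comm v]
    refine le_antisymm (P.I_mono v ?_) (P.I_mono v ?_)
    · intro a b hab
      simp only [Prod.mk.injEq] at hab
      funext i
      by_cases hi : i ∈ T
      · exact fam_fac hi a b hab.1.1
      · exact fam_fac (Finset.mem_compl.2 hi) a b hab.1.2
    · intro a b hab
      simp only [Prod.mk.injEq] at hab ⊢
      exact ⟨fac_fam (fun i _ => all_fac i) a b hab.1, fac_fam (fun i _ => all_fac i) a b hab.1⟩
  have e2 : P.I v (fun w => (fam L T w, fam L Tᶜ w)) (fun w => (ble L k w, W w)) =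
      P.I v (fam L Tᶜ) (fun w => (ble L k w, W w)) + P.I v (fam L T) (fun w => (fam L Tᶜ w, W w)) := by
    rw [P.I_comm, P.I_chain, P.I_comm (fam L Tᶜ) v, P.I_comm (fam L T) v]
    congr 1
    refine P.I_congr_cond ?_ ?_
    · intro a b hab
      simp only [Prod.mk.injEq] at hab ⊢
      exact ⟨hab.1, hab.2.2⟩
    · intro a b hab
      simp only [Prod.mk.injEq] at hab ⊢
      refine ⟨hab.1, fac_ble (fun i hi => fam_fac (Finset.mem_compl.2 fun hiT => hT i hiT hi)) a b hab.1, hab.2⟩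
  have e3 : ∑ i ∈ univ.filter (fun i => k < i), P.I v (L i) (fun w => (bel L i w, W w)) =
      ∑ i ∈ (univ.filter (fun i => k < i)) \ T, P.I v (L i) (fun w => (bel L i w, W w)) +
        ∑ i ∈ (univ.filter (fun i => k < i)) ∩ T, P.I v (L i) (fun w => (bel L i w, W w)) := by
    rw [add_comm]; exact (Finset.sum_inter_add_sum_sdiff _ _ _).symm
  rw [e1, e2, e3]
  ring

end Split

end

end Pool.Agent.GMH
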