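import Pool.Agent.GMH.Key3U
import Pool.Agent.GMH.LemS
import Pool.Agent.M3.S3KeyF

/-!
# GMH.Key3P: KEY for the tops over the thin letters, one top (helper78)

`Zb` = the thin letters which the top `F` sees (with owners and node), `Z` = all thin letters and node, `Y` = the additions
which the top sees.  `rr w y x` = `P(F = x | Zb, Y = y) / P(F = x | Zb)`, `tau w y` = `P(Y = y | Z) / P(Y = y | Zb)`,
`gn` = `I(Y ; F | Zb)`, `Dt` = `I(Z ; Y | Zb)`, `Gd` = the gain weighted with `|P(F | Z) - P(F | Zb)|`.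
* `gn_eq`, `Dt_eq`, `E_real`, `strong_gain`, `thin_strong`;
* `first_le` : the first order term is at most `Gd + B (8 Gd Dt)^(1/2)`;
* `Gd_le` : `Gd ≤ d gn` if the laws of the missing letter given `F` are `d`-close in the mean.
-/

set_option autoImplicit false
set_option linter.unusedSectionVars false
set_option linter.unusedVariables false

namespace Pool.Agent.GMH

open Finset Pool.Agent.PWZ Pool.Agent.M3

noncomputable section

/-- Cauchy-Schwarz for sums under the mean -/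
theorem E_sum_cs {Om : Type*} [Fintype Om] (P : FP Om) {κ : Type*} (s : Finset κ) (c u v : Om → κ → ℝ)
    (hc : ∀ w, P.p w ≠ 0 → ∀ y ∈ s, 0 ≤ c w y) :
    |P.E (fun w => ∑ y ∈ s, c w y * (u w y * v w y))| ≤
      Real.sqrt (P.E (fun w => ∑ y ∈ s, c w y * u w y ^ 2) * P.E (fun w => ∑ y ∈ s, c w y * v w y ^ 2)) := by
  classical
  have hp : ∀ w, 0 ≤ P.p w := P.nn
  have hf : ∀ g : Om → κ → ℝ, P.E (fun w => ∑ y ∈ s, c w y * g w y) =
      ∑ z ∈ (univ : Finset Om) ×ˢ s, (P.p z.1 * c z.1 z.2) * g z.1 z.2 := by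
    intro g
    unfold FP.E
    rw [Finset.sum_product]
    refine Finset.sum_congr rfl fun w _ => ?_
    rw [Finset.mul_sum]
    exact Finset.sum_congr rfl fun y _ => by ring
  have hc0 : ∀ z ∈ (univ : Finset Om) ×ˢ s, 0 ≤ P.p z.1 * c z.1 z.2 := by
    intro z hz
    by_cases h : P.p z.1 = 0
    · rw [h, zero_mul]
    · exact mul_nonneg (hp _) (hc _ h _ (Finset.mem_product.1 hz).2)
  rw [hf (fun w y => u w y * v w y), hf (fun w y => u w y ^ 2), hf (fun w y => v w y ^ 2)]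
  refine Real.abs_le_sqrt ?_
  have h := Finset.sum_mul_sq_le_sq_mul_sq ((univ : Finset Om) ×ˢ s)
    (fun z => Real.sqrt (P.p z.1 * c z.1 z.2) * u z.1 z.2) (fun z => Real.sqrt (P.p z.1 * c z.1 z.2) * v z.1 z.2)
  have e1 : ∑ z ∈ (univ : Finset Om) ×ˢ s, Real.sqrt (P.p z.1 * c z.1 z.2) * u z.1 z.2 *
      (Real.sqrt (P.p z.1 * c z.1 z.2) * v z.1 z.2) =
      ∑ z ∈ (univ : Finset Om) ×ˢ s, P.p z.1 * c z.1 z.2 * (u z.1 z.2 * v z.1 z.2) := by
    refine Finset.sum_congr rfl fun z hz => ?_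
    have := Real.mul_self_sqrt (hc0 z hz)
    calc _ = (Real.sqrt (P.p z.1 * c z.1 z.2) * Real.sqrt (P.p z.1 * c z.1 z.2)) * (u z.1 z.2 * v z.1 z.2) := by ring
      _ = _ := by rw [this]
  have e2 : ∀ g : Om → κ → ℝ, ∑ z ∈ (univ : Finset Om) ×ˢ s, (Real.sqrt (P.p z.1 * c z.1 z.2) * g z.1 z.2) ^ 2 =
      ∑ z ∈ (univ : Finset Om) ×ˢ s, P.p z.1 * c z.1 z.2 * g z.1 z.2 ^ 2 := by
    intro g
    refine Finset.sum_congr rfl fun z hz => ?_
    rw [mul_pow, Real.sq_sqrt (hc0 z hz)]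
  rw [e1, e2 u, e2 v] at h
  exact h

section one

variable {Om : Type*} [Fintype Om] (P : FP Om) {α β γ φ : Type*} (Zb : Om → α) (Z : Om → β) (F : Om → φ) (Y : Om → γ)

/-- joint law of the additions and the top -/
def qy (w : Om) (y : γ) (x : φ) : ℝ := P.pv Zb (fun u => (Y u, F u)) w (y, x)

/-- ratio of the top -/
def rr (w : Om) (y : γ) (x : φ) : ℝ := qy P Zb F Y w y x / (P.pv Zb Y w y * P.pv Zb F w x)

/-- ratio of the missing thin letter -/
def tau (w : Om) (y : γ) : ℝ := P.pv Z Y w y / P.pv Zb Y w y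

theorem qy_nn (w : Om) (y : γ) (x : φ) : 0 ≤ qy P Zb F Y w y x := P.pv_nonneg _ _ _ _

theorem rr_nn (w : Om) (y : γ) (x : φ) : 0 ≤ rr P Zb F Y w y x :=
  div_nonneg (P.pv_nonneg _ _ _ _) (mul_nonneg (P.pv_nonneg _ _ _ _) (P.pv_nonneg _ _ _ _))

theorem tau_nn (w : Om) (y : γ) : 0 ≤ tau P Zb Z Y w y := div_nonneg (P.pv_nonneg _ _ _ _) (P.pv_nonneg _ _ _ _)

omit P in
theorem pvc (P : FP Om) {ι κ : Type*} {W : Om → ι} (V : Om → κ) {a b : Om} (h : W a = W b) (v : κ) :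
    P.pv W V a v = P.pv W V b v := P.pv_fac W V v a b h

variable {Zb} in
theorem rrc {a b : Om} (hab : Zb a = Zb b) (y : γ) (x : φ) : rr P Zb F Y a y x = rr P Zb F Y b y x := by
  unfold rr qy
  rw [pvc P _ hab (y, x), pvc P Y hab y, pvc P F hab x]

theorem rr_fac (y : γ) (x : φ) : Fac Zb (fun w => rr P Zb F Y w y x) := fun a b hab => rrc P F Y hab y x

variable {Zb Z} in
theorem tauc (hZ : Fac Z Zb) {a b : Om} (hab : Z a = Z b) (y : γ) : tau P Zb Z Y a y = tau P Zb Z Y b y := by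
  unfold tau
  rw [pvc P Y hab y, pvc P Y (hZ a b hab) y]

variable {Zb Z} in
theorem tau_fac (hZ : Fac Z Zb) (y : γ) : Fac Z (fun w => tau P Zb Z Y w y) := fun a b hab => tauc P Y hZ hab y

theorem qy_le_y (w : Om) (y : γ) (x : φ) : qy P Zb F Y w y x ≤ P.pv Zb Y w y := by
  refine P.ce_mono (fun u _ => ind_mono fun h => ?_) w
  exact congrArg Prod.fst h

theorem qy_le_x (w : Om) (y : γ) (x : φ) : qy P Zb F Y w y x ≤ P.pv Zb F w x := by
  refine P.ce_mono (fun u _ => ind_mono fun h => ?_) w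
  exact congrArg Prod.snd h

theorem yq_rr (w : Om) (y : γ) (x : φ) : P.pv Zb Y w y * (P.pv Zb F w x * rr P Zb F Y w y x) = qy P Zb F Y w y x := by
  have h0 := qy_nn P Zb F Y w y x
  have h1 := qy_le_y P Zb F Y w y x
  have h2 := qy_le_x P Zb F Y w y x
  unfold rr
  by_cases hy : P.pv Zb Y w y = 0
  · rw [hy] at h1 ⊢
    rw [zero_mul]; linarith
  · by_cases hx : P.pv Zb F w x = 0
    · rw [hx] at h2 ⊢
      rw [zero_mul, mul_zero]; linarith
    · field_simp

variable {Zb Z} in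
theorem yz_eq (hZ : Fac Z Zb) (w : Om) (y : γ) : P.pv Z Y w y = tau P Zb Z Y w y * P.pv Zb Y w y := by
  unfold tau
  by_cases h : P.pv Zb Y w y = 0
  · rw [h, mul_zero]
    exact P.pv_ac hZ Y h
  · field_simp

/-- the ratio at the true additions -/
theorem real_r {w : Om} (hw : P.p w ≠ 0) (x : φ) :
    P.pv (fun u => (Y u, Zb u)) F w x / P.pv Zb F w x = rr P Zb F Y w (Y w) x := by
  have e1 : P.pv (fun u => (Y u, Zb u)) F w x = qy P Zb F Y w (Y w) x / P.pv Zb Y w (Y w) := by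
    have m1 := (P.m_pos Zb hw).ne'
    have h1 : P.pv Zb Y w (Y w) = P.m (fun u => (Y u, Zb u)) w / P.m Zb w := P.pv_self Zb Y w
    have h2 : qy P Zb F Y w (Y w) x = P.E (fun u => ind (Zb u = Zb w) * ind ((Y u, F u) = (Y w, x))) / P.m Zb w := rfl
    have h3 : P.pv (fun u => (Y u, Zb u)) F w x =
        P.E (fun u => ind ((Y u, Zb u) = (Y w, Zb w)) * ind (F u = x)) / P.m (fun u => (Y u, Zb u)) w := rfl
    have h4 : P.E (fun u => ind ((Y u, Zb u) = (Y w, Zb w)) * ind (F u = x)) =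
        P.E (fun u => ind (Zb u = Zb w) * ind ((Y u, F u) = (Y w, x))) := by
      refine P.E_congr fun u _ => ?_
      rw [← ind_and, ← ind_and]
      congr 1
      simp only [Prod.mk.injEq]
      exact propext ⟨fun h => ⟨h.1.2, h.1.1, h.2⟩, fun h => ⟨⟨h.2.1, h.1⟩, h.2.2⟩⟩
    rw [h3, h4, h2, h1, div_div_div_cancel_right₀ m1]
  rw [e1]
  unfold rr
  rw [div_div]

theorem real_tau {w : Om} (hw : P.p w ≠ 0) (hZ : Fac Z Zb) :
    P.pv (fun u => (Z u, Zb u)) Y w (Y w) / P.pv Zb Y w (Y w) = tau P Zb Z Y w (Y w) := by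
  unfold tau
  congr 1
  exact P.ce_congr_map (fun a b h => (by simp only [Prod.mk.injEq] at h; exact h.1))
    (fun a b h => by simp only [Prod.mk.injEq]; exact ⟨h, hZ a b h⟩) _ w

/-- mean at the true additions -/
theorem E_real {ι : Type*} {W : Om → ι} {f : Om → γ → ℝ} (hf : ∀ y, Fac W (fun w => f w y)) :
    P.E (fun w => f w (Y w)) = P.E (fun w => ∑ y ∈ vals Y, P.pv W Y w y * f w y) := by
  rw [← P.E_ce W (fun w => f w (Y w))]
  refine P.E_congr fun w _ => ?_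
  exact (P.sum_pv Y hf w).symm

/-- gain of the top -/
def gn : ℝ := P.E (fun w => ∑ y ∈ vals Y, ∑ x ∈ vals F, P.pv Zb Y w y * (P.pv Zb F w x * hphi (rr P Zb F Y w y x)))

/-- information of the missing thin letter -/
def Dt : ℝ := P.E (fun w => ∑ y ∈ vals Y, P.pv Zb Y w y * hphi (tau P Zb Z Y w y))

theorem gn_nn : 0 ≤ gn P Zb F Y := P.E_nonneg fun w _ => Finset.sum_nonneg fun y _ => Finset.sum_nonneg fun x _ =>
  mul_nonneg (P.pv_nonneg _ _ _ _) (mul_nonneg (P.pv_nonneg _ _ _ _) (hphi_nonneg (rr_nn P Zb F Y w y x)))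

theorem Dt_nn : 0 ≤ Dt P Zb Z Y := P.E_nonneg fun w _ => Finset.sum_nonneg fun y _ =>
  mul_nonneg (P.pv_nonneg _ _ _ _) (hphi_nonneg (tau_nn P Zb Z Y w y))

theorem gn_eq : gn P Zb F Y = P.I Y F Zb := by
  rw [I_pv P Y F Zb]
  have e1 : P.E (fun w => Real.log (P.pv (fun u => (Y u, Zb u)) F w (F w) / P.pv Zb F w (F w))) =
      P.E (fun w => ∑ y ∈ vals Y, ∑ x ∈ vals F, P.pv Zb (fun u => (Y u, F u)) w (y, x) * Real.log (rr P Zb F Y w y x)) := by
    rw [← P.E_ce Zb (fun w => Real.log (P.pv (fun u => (Y u, Zb u)) F w (F w) / P.pv Zb F w (F w)))]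
    refine P.E_congr fun w _ => ?_
    rw [P.sum2 Y F (F := fun w y x => Real.log (rr P Zb F Y w y x)) (fun y x a b hab => by
      show Real.log (rr P Zb F Y a y x) = Real.log (rr P Zb F Y b y x)
      rw [rrc P F Y hab y x]) w]
    refine P.ce_congr (fun u hu => ?_) w
    rw [real_r P Zb F Y hu]
  rw [e1]
  unfold gn
  refine P.E_congr fun w hw => ?_
  have s1 : ∑ y ∈ vals Y, ∑ x ∈ vals F, P.pv Zb (fun u => (Y u, F u)) w (y, x) = 1 := by
    have h := P.sum2 (N := Zb) Y F (F := fun _ _ _ => 1) (fun _ _ _ _ _ => rfl) w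
    simp only [mul_one] at h
    rw [h, P.ce_const Zb 1 hw]
  have s2 : ∑ y ∈ vals Y, ∑ x ∈ vals F, P.pv Zb Y w y * P.pv Zb F w x = 1 := by
    rw [← Finset.sum_mul_sum, P.pv_sum Zb Y hw, P.pv_sum Zb F hw, one_mul]
  have e2 : ∀ y ∈ vals Y, ∑ x ∈ vals F, P.pv Zb Y w y * (P.pv Zb F w x * hphi (rr P Zb F Y w y x)) =
      ∑ x ∈ vals F, P.pv Zb (fun u => (Y u, F u)) w (y, x) * Real.log (rr P Zb F Y w y x) -
      ∑ x ∈ vals F, P.pv Zb (fun u => (Y u, F u)) w (y, x) + ∑ x ∈ vals F, P.pv Zb Y w y * P.pv Zb F w x := by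
    intro y _
    rw [← Finset.sum_sub_distrib, ← Finset.sum_add_distrib]
    refine Finset.sum_congr rfl fun x _ => ?_
    have h := yq_rr P Zb F Y w y x
    have h' : qy P Zb F Y w y x = P.pv Zb (fun u => (Y u, F u)) w (y, x) := rfl
    rw [← h', ← h]
    unfold hphi
    ring
  rw [Finset.sum_congr rfl e2, Finset.sum_add_distrib, Finset.sum_sub_distrib, s1, s2]
  ring

theorem Dt_eq (hZ : Fac Z Zb) : Dt P Zb Z Y = P.I Z Y Zb := by
  rw [I_pv P Z Y Zb]
  have e1 : P.E (fun w => Real.log (P.pv (fun u => (Z u, Zb u)) Y w (Y w) / P.pv Zb Y w (Y w))) =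
      P.E (fun w => ∑ y ∈ vals Y, P.pv Z Y w y * Real.log (tau P Zb Z Y w y)) := by
    rw [← E_real P Y (W := Z) (f := fun w y => Real.log (tau P Zb Z Y w y)) (fun y a b hab => by
      show Real.log (tau P Zb Z Y a y) = Real.log (tau P Zb Z Y b y)
      rw [tauc P Y hZ hab y])]
    exact P.E_congr fun w hw => by rw [real_tau P Zb Z Y hw hZ]
  rw [e1]
  unfold Dt
  refine P.E_congr fun w hw => ?_
  have e2 : ∀ y ∈ vals Y, P.pv Zb Y w y * hphi (tau P Zb Z Y w y) =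
      P.pv Z Y w y * Real.log (tau P Zb Z Y w y) - P.pv Z Y w y + P.pv Zb Y w y := by
    intro y _
    have h := yz_eq P Y hZ w y
    unfold hphi
    rw [h]
    ring
  rw [Finset.sum_congr rfl e2, Finset.sum_add_distrib, Finset.sum_sub_distrib, P.pv_sum Z Y hw, P.pv_sum Zb Y hw]
  ring

variable {B : ℝ}

/-- mass of the strong letters at the true additions -/
theorem strong_gain (hB : Real.exp 2 ≤ B) :
    P.E (fun w => ∑ x ∈ vals F, P.pv Zb F w x * hsg B (rr P Zb F Y w (Y w) x)) ≤ gn P Zb F Y := by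
  rw [E_real P Y (W := Zb) (f := fun w y => ∑ x ∈ vals F, P.pv Zb F w x * hsg B (rr P Zb F Y w y x))
    (fun y => Fac.finsum _ fun x _ => by
      intro a b hab
      show P.pv Zb F a x * hsg B (rr P Zb F Y a y x) = P.pv Zb F b x * hsg B (rr P Zb F Y b y x)
      rw [pvc P F hab x, rrc P F Y hab y x])]
  unfold gn
  refine P.E_mono fun w _ => Finset.sum_le_sum fun y _ => ?_
  rw [Finset.mul_sum]
  refine Finset.sum_le_sum fun x _ => mul_le_mul_of_nonneg_left ?_ (P.pv_nonneg _ _ _ _)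
  exact mul_le_mul_of_nonneg_left (sg_le_hphi hB (rr_nn P Zb F Y w y x)) (P.pv_nonneg _ _ _ _)

/-- second moment of the weak ratio at the true additions -/
theorem weak_gain (hB : Real.exp 2 ≤ B) :
    P.E (fun w => ∑ x ∈ vals F, P.pv Zb F w x * (hwk B (rr P Zb F Y w (Y w) x) - 1) ^ 2) ≤ 2 * B * gn P Zb F Y := by
  rw [E_real P Y (W := Zb) (f := fun w y => ∑ x ∈ vals F, P.pv Zb F w x * (hwk B (rr P Zb F Y w y x) - 1) ^ 2)
    (fun y => Fac.finsum _ fun x _ => by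
      intro a b hab
      show P.pv Zb F a x * (hwk B (rr P Zb F Y a y x) - 1) ^ 2 = P.pv Zb F b x * (hwk B (rr P Zb F Y b y x) - 1) ^ 2
      rw [pvc P F hab x, rrc P F Y hab y x])]
  unfold gn
  rw [← P.E_smul]
  refine P.E_mono fun w _ => ?_
  rw [Finset.mul_sum]
  refine Finset.sum_le_sum fun y _ => ?_
  rw [Finset.mul_sum, Finset.mul_sum]
  refine Finset.sum_le_sum fun x _ => ?_
  have h1 := wk_sub_sq_le hB (rr_nn P Zb F Y w y x)
  have h2 := mul_le_mul_of_nonneg_left h1 (mul_nonneg (P.pv_nonneg Zb Y w y) (P.pv_nonneg Zb F w x))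
  linarith

/-- probability of a strong thin ratio -/
theorem thin_strong (hZ : Fac Z Zb) (hB : Real.exp 2 ≤ B) :
    P.E (fun w => ind (B < tau P Zb Z Y w (Y w))) ≤ Dt P Zb Z Y := by
  rw [E_real P Y (W := Z) (f := fun w y => ind (B < tau P Zb Z Y w y)) (fun y a b hab => by
      show ind (B < tau P Zb Z Y a y) = ind (B < tau P Zb Z Y b y)
      rw [tauc P Y hZ hab y])]
  unfold Dt
  refine P.E_mono fun w _ => Finset.sum_le_sum fun y _ => ?_
  have h1 := sg_le_hphi hB (tau_nn P Zb Z Y w y)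
  have h2 := mul_le_mul_of_nonneg_left h1 (P.pv_nonneg Zb Y w y)
  refine le_trans (le_of_eq ?_) h2
  rw [yz_eq P Y hZ w y]
  unfold hsg
  ring

/-- weighted gain -/
def Gd (al : Om → ℝ) : ℝ := P.E (fun w => ∑ y ∈ vals Y, ∑ x ∈ vals F, P.pv Zb Y w y *
  (al w * |P.pv Z F w x - P.pv Zb F w x| * hphi (rr P Zb F Y w y x)))

variable {al : Om → ℝ}

theorem Gd_nn (h0 : ∀ w, 0 ≤ al w) : 0 ≤ Gd P Zb Z F Y al := P.E_nonneg fun w _ => Finset.sum_nonneg fun y _ =>
  Finset.sum_nonneg fun x _ => mul_nonneg (P.pv_nonneg _ _ _ _) (mul_nonneg (mul_nonneg (h0 w) (abs_nonneg _))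
    (hphi_nonneg (rr_nn P Zb F Y w y x)))

/-- the weighted gain, the missing letter integrated out -/
theorem Gd_le {D : Om → φ → ℝ} (hD : ∀ w, P.p w ≠ 0 → ∀ x ∈ vals F,
      P.ce Zb (fun u => al u * |P.pv Z F u x - P.pv Zb F u x|) w ≤ D w x) :
    Gd P Zb Z F Y al ≤ P.E (fun w => ∑ y ∈ vals Y, ∑ x ∈ vals F, P.pv Zb Y w y * (D w x * hphi (rr P Zb F Y w y x))) := by
  unfold Gd
  have e1 : P.E (fun w => ∑ y ∈ vals Y, ∑ x ∈ vals F, P.pv Zb Y w y *
      (al w * |P.pv Z F w x - P.pv Zb F w x| * hphi (rr P Zb F Y w y x))) =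
      P.E (fun w => ∑ y ∈ vals Y, ∑ x ∈ vals F, P.pv Zb Y w y *
        (P.ce Zb (fun u => al u * |P.pv Z F u x - P.pv Zb F u x|) w * hphi (rr P Zb F Y w y x))) := by
    rw [P.E_sum, P.E_sum]
    refine Finset.sum_congr rfl fun y _ => ?_
    rw [P.E_sum, P.E_sum]
    refine Finset.sum_congr rfl fun x _ => ?_
    have hf : Fac Zb (fun w => P.pv Zb Y w y * hphi (rr P Zb F Y w y x)) := by
      intro a b hab
      show P.pv Zb Y a y * hphi (rr P Zb F Y a y x) = P.pv Zb Y b y * hphi (rr P Zb F Y b y x)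
      rw [pvc P Y hab y, rrc P F Y hab y x]
    have h := P.E_mul_ce hf (fun u => al u * |P.pv Z F u x - P.pv Zb F u x|)
    refine Eq.trans (P.E_congr fun w _ => ?_) (h.symm.trans (P.E_congr fun w _ => ?_))
    · ring
    · ring
  rw [e1]
  refine P.E_mono fun w hw => Finset.sum_le_sum fun y _ => Finset.sum_le_sum fun x hx => ?_
  exact mul_le_mul_of_nonneg_left (mul_le_mul_of_nonneg_right (hD w hw x hx) (hphi_nonneg (rr_nn P Zb F Y w y x)))
    (P.pv_nonneg _ _ _ _)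

theorem Gd_le_gn {d1 : ℝ} (hD : ∀ w, P.p w ≠ 0 → ∀ x ∈ vals F,
      P.ce Zb (fun u => al u * |P.pv Z F u x - P.pv Zb F u x|) w ≤ d1 * P.pv Zb F w x) :
    Gd P Zb Z F Y al ≤ d1 * gn P Zb F Y := by
  refine (Gd_le P Zb Z F Y hD).trans (le_of_eq ?_)
  unfold gn
  rw [← P.E_smul]
  refine P.E_congr fun w _ => ?_
  rw [Finset.mul_sum]
  refine Finset.sum_congr rfl fun y _ => ?_
  rw [Finset.mul_sum]
  exact Finset.sum_congr rfl fun x _ => by ring

/-- the first order term of one top at the additions `y` -/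
def phi1 (B : ℝ) (w : Om) (y : γ) : ℝ :=
  ∑ x ∈ vals F, (P.pv Z F w x - P.pv Zb F w x) * (hwk B (rr P Zb F Y w y x) - 1)

theorem phi1_fac (hZ : Fac Z Zb) (y : γ) : Fac Z (fun w => phi1 P Zb Z F Y B w y) := by
  refine Fac.finsum _ fun x _ => ?_
  intro a b hab
  show (P.pv Z F a x - P.pv Zb F a x) * (hwk B (rr P Zb F Y a y x) - 1) =
    (P.pv Z F b x - P.pv Zb F b x) * (hwk B (rr P Zb F Y b y x) - 1)
  rw [pvc P F hab x, pvc P F (hZ a b hab) x, rrc P F Y (hZ a b hab) y x]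

theorem sum_y_rr {w : Om} (hw : P.p w ≠ 0) {x : φ} (hx : P.pv Zb F w x ≠ 0) :
    ∑ y ∈ vals Y, P.pv Zb Y w y * rr P Zb F Y w y x = 1 := by
  have h1 : ∑ y ∈ vals Y, P.pv Zb (fun u => (Y u, F u)) w (y, x) = P.pv Zb F w x :=
    P.pv_marg Zb (A := F) (B := Y) (C := fun u => (Y u, F u)) x (fun y => (y, x)) (fun u b => by
      simp only [Prod.mk.injEq]; tauto) w
  have h2 : P.pv Zb F w x * ∑ y ∈ vals Y, P.pv Zb Y w y * rr P Zb F Y w y x = P.pv Zb F w x * 1 := by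
    rw [mul_one, Finset.mul_sum]
    refine Eq.trans (Finset.sum_congr rfl fun y _ => ?_) h1
    have h := yq_rr P Zb F Y w y x
    have h' : qy P Zb F Y w y x = P.pv Zb (fun u => (Y u, F u)) w (y, x) := rfl
    rw [← h', ← h]
    ring
  exact mul_left_cancel₀ hx h2

/-- mean of the first order term over independent additions -/
theorem sum_phi1 (hZ : Fac Z Zb) (hB : 0 ≤ B) {w : Om} (hw : P.p w ≠ 0) :
    ∑ y ∈ vals Y, P.pv Zb Y w y * phi1 P Zb Z F Y B w y =
      -∑ y ∈ vals Y, ∑ x ∈ vals F, P.pv Zb Y w y * ((P.pv Z F w x - P.pv Zb F w x) * hsg B (rr P Zb F Y w y x)) := by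
  have e1 : ∑ y ∈ vals Y, P.pv Zb Y w y * phi1 P Zb Z F Y B w y +
      ∑ y ∈ vals Y, ∑ x ∈ vals F, P.pv Zb Y w y * ((P.pv Z F w x - P.pv Zb F w x) * hsg B (rr P Zb F Y w y x)) =
      ∑ x ∈ vals F, (P.pv Z F w x - P.pv Zb F w x) *
        (∑ y ∈ vals Y, P.pv Zb Y w y * rr P Zb F Y w y x - ∑ y ∈ vals Y, P.pv Zb Y w y) := by
    have e2 : ∀ x ∈ vals F, (P.pv Z F w x - P.pv Zb F w x) *
        (∑ y ∈ vals Y, P.pv Zb Y w y * rr P Zb F Y w y x - ∑ y ∈ vals Y, P.pv Zb Y w y) =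
        ∑ y ∈ vals Y, P.pv Zb Y w y * ((P.pv Z F w x - P.pv Zb F w x) * (rr P Zb F Y w y x - 1)) := by
      intro x _
      rw [← Finset.sum_sub_distrib, Finset.mul_sum]
      exact Finset.sum_congr rfl fun y _ => by ring
    rw [Finset.sum_congr rfl e2, Finset.sum_comm (s := vals F) (t := vals Y), ← Finset.sum_add_distrib]
    refine Finset.sum_congr rfl fun y _ => ?_
    unfold phi1
    rw [Finset.mul_sum, ← Finset.sum_add_distrib]
    refine Finset.sum_congr rfl fun x _ => ?_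
    have h := hwk_add_hsg B (rr P Zb F Y w y x)
    have h' : rr P Zb F Y w y x - 1 = (hwk B (rr P Zb F Y w y x) - 1) + hsg B (rr P Zb F Y w y x) := by linarith
    rw [h']
    ring
  have e3 : ∑ x ∈ vals F, (P.pv Z F w x - P.pv Zb F w x) *
      (∑ y ∈ vals Y, P.pv Zb Y w y * rr P Zb F Y w y x - ∑ y ∈ vals Y, P.pv Zb Y w y) = 0 := by
    refine Finset.sum_eq_zero fun x _ => ?_
    by_cases hx : P.pv Zb F w x = 0
    · rw [hx, P.pv_ac hZ F hx]; ring
    · rw [sum_y_rr P Zb F Y hw hx, P.pv_sum Zb Y hw]; ring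
  rw [e3] at e1
  linarith

/-- **FIRST ORDER TERM OF ONE TOP** -/
theorem first_le (hZ : Fac Z Zb) (hB : Real.exp 2 ≤ B) (hal : Fac Z al) (h0 : ∀ w, 0 ≤ al w) (h1 : ∀ w, al w ≤ 1) :
    |P.E (fun w => al w * (ind (¬ B < tau P Zb Z Y w (Y w)) * phi1 P Zb Z F Y B w (Y w)))| ≤
      Gd P Zb Z F Y al + B * Real.sqrt (8 * (Gd P Zb Z F Y al * Dt P Zb Z Y)) := by
  have hB1 : 1 ≤ B := by
    have := Real.add_one_le_exp 2
    linarith
  have hB0 : 0 ≤ B := by linarith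
  have fτ := tau_fac P Y hZ
  have fφ := phi1_fac P Zb Z F Y (B := B) hZ
  -- mean at independent additions
  have e1 : P.E (fun w => al w * (ind (¬ B < tau P Zb Z Y w (Y w)) * phi1 P Zb Z F Y B w (Y w))) =
      P.E (fun w => al w * ∑ y ∈ vals Y, P.pv Zb Y w y * phi1 P Zb Z F Y B w y) +
      P.E (fun w => ∑ y ∈ vals Y, P.pv Zb Y w y * ((hwk B (tau P Zb Z Y w y) - 1) * (al w * phi1 P Zb Z F Y B w y))) := by
    rw [E_real P Y (W := Z) (f := fun w y => al w * (ind (¬ B < tau P Zb Z Y w y) * phi1 P Zb Z F Y B w y))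
      (fun y a b hab => by
        show al a * (ind (¬ B < tau P Zb Z Y a y) * phi1 P Zb Z F Y B a y) =
          al b * (ind (¬ B < tau P Zb Z Y b y) * phi1 P Zb Z F Y B b y)
        have g1 : al a = al b := hal a b hab
        have g2 := fτ y a b hab
        have g3 := fφ y a b hab
        simp only at g2 g3
        rw [g1, g2, g3]), ← P.E_add]
    refine P.E_congr fun w _ => ?_
    rw [Finset.mul_sum, ← Finset.sum_add_distrib]
    refine Finset.sum_congr rfl fun y _ => ?_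
    rw [yz_eq P Y hZ w y]
    unfold hwk
    ring
  -- first part
  have k1 : |P.E (fun w => al w * ∑ y ∈ vals Y, P.pv Zb Y w y * phi1 P Zb Z F Y B w y)| ≤ Gd P Zb Z F Y al := by
    refine (P.abs_E_le _).trans ?_
    unfold Gd
    refine P.E_mono fun w hw => ?_
    rw [sum_phi1 P Zb Z F Y hZ hB0 hw, abs_mul, abs_neg, abs_of_nonneg (h0 w)]
    have g1 : |∑ y ∈ vals Y, ∑ x ∈ vals F, P.pv Zb Y w y * ((P.pv Z F w x - P.pv Zb F w x) *
        hsg B (rr P Zb F Y w y x))| ≤ ∑ y ∈ vals Y, ∑ x ∈ vals F, P.pv Zb Y w y * (|P.pv Z F w x - P.pv Zb F w x| *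
          hphi (rr P Zb F Y w y x)) := by
      refine (Finset.abs_sum_le_sum_abs _ _).trans (Finset.sum_le_sum fun y _ => ?_)
      refine (Finset.abs_sum_le_sum_abs _ _).trans (Finset.sum_le_sum fun x _ => ?_)
      rw [abs_mul, abs_mul, abs_of_nonneg (P.pv_nonneg Zb Y w y), abs_of_nonneg (hsg_nonneg (rr_nn P Zb F Y w y x))]
      exact mul_le_mul_of_nonneg_left (mul_le_mul_of_nonneg_left (sg_le_hphi hB (rr_nn P Zb F Y w y x)) (abs_nonneg _))
        (P.pv_nonneg _ _ _ _)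
    refine (mul_le_mul_of_nonneg_left g1 (h0 w)).trans (le_of_eq ?_)
    rw [Finset.mul_sum]
    refine Finset.sum_congr rfl fun y _ => ?_
    rw [Finset.mul_sum]
    exact Finset.sum_congr rfl fun x _ => by ring
  -- second part
  have k2 := E_sum_cs P (vals Y) (fun w y => P.pv Zb Y w y) (fun w y => hwk B (tau P Zb Z Y w y) - 1)
    (fun w y => al w * phi1 P Zb Z F Y B w y) (fun w _ y _ => P.pv_nonneg _ _ _ _)
  have k3 : P.E (fun w => ∑ y ∈ vals Y, P.pv Zb Y w y * (hwk B (tau P Zb Z Y w y) - 1) ^ 2) ≤ 2 * B * Dt P Zb Z Y := by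
    unfold Dt
    rw [← P.E_smul]
    refine P.E_mono fun w _ => ?_
    rw [Finset.mul_sum]
    refine Finset.sum_le_sum fun y _ => ?_
    have g1 := wk_sub_sq_le hB (tau_nn P Zb Z Y w y)
    have g2 := mul_le_mul_of_nonneg_left g1 (P.pv_nonneg Zb Y w y)
    linarith
  have k4 : P.E (fun w => ∑ y ∈ vals Y, P.pv Zb Y w y * (al w * phi1 P Zb Z F Y B w y) ^ 2) ≤
      4 * B * Gd P Zb Z F Y al := by
    unfold Gd
    rw [← P.E_smul]
    refine P.E_mono fun w hw => ?_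
    rw [Finset.mul_sum]
    refine Finset.sum_le_sum fun y _ => ?_
    have g0 := P.pv_nonneg Zb Y w y
    have g1 : phi1 P Zb Z F Y B w y ^ 2 ≤ 2 * ∑ x ∈ vals F, |P.pv Z F w x - P.pv Zb F w x| *
        (hwk B (rr P Zb F Y w y x) - 1) ^ 2 := by
      have c := Finset.sum_mul_sq_le_sq_mul_sq (vals F) (fun x => Real.sqrt |P.pv Z F w x - P.pv Zb F w x|)
        (fun x => Real.sqrt |P.pv Z F w x - P.pv Zb F w x| * |hwk B (rr P Zb F Y w y x) - 1|)
      have c1 : |phi1 P Zb Z F Y B w y| ≤ ∑ x ∈ vals F, Real.sqrt |P.pv Z F w x - P.pv Zb F w x| *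
          (Real.sqrt |P.pv Z F w x - P.pv Zb F w x| * |hwk B (rr P Zb F Y w y x) - 1|) := by
        unfold phi1
        refine (Finset.abs_sum_le_sum_abs _ _).trans (Finset.sum_le_sum fun x _ => ?_)
        rw [← mul_assoc, Real.mul_self_sqrt (abs_nonneg _), abs_mul]
      have c2 : ∑ x ∈ vals F, Real.sqrt |P.pv Z F w x - P.pv Zb F w x| ^ 2 ≤ 2 := by
        have c3 : ∑ x ∈ vals F, Real.sqrt |P.pv Z F w x - P.pv Zb F w x| ^ 2 ≤
            ∑ x ∈ vals F, (P.pv Z F w x + P.pv Zb F w x) := by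
          refine Finset.sum_le_sum fun x _ => ?_
          rw [Real.sq_sqrt (abs_nonneg _), abs_le]
          have a1 := P.pv_nonneg Z F w x
          have a2 := P.pv_nonneg Zb F w x
          constructor <;> linarith
        rw [Finset.sum_add_distrib, P.pv_sum Z F hw, P.pv_sum Zb F hw] at c3
        linarith
      have c4 : ∑ x ∈ vals F, (Real.sqrt |P.pv Z F w x - P.pv Zb F w x| * |hwk B (rr P Zb F Y w y x) - 1|) ^ 2 =
          ∑ x ∈ vals F, |P.pv Z F w x - P.pv Zb F w x| * (hwk B (rr P Zb F Y w y x) - 1) ^ 2 := by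
        refine Finset.sum_congr rfl fun x _ => ?_
        rw [mul_pow, Real.sq_sqrt (abs_nonneg _), sq_abs]
      rw [c4] at c
      have c5 : 0 ≤ ∑ x ∈ vals F, |P.pv Z F w x - P.pv Zb F w x| * (hwk B (rr P Zb F Y w y x) - 1) ^ 2 :=
        Finset.sum_nonneg fun x _ => mul_nonneg (abs_nonneg _) (sq_nonneg _)
      have c6 := pow_le_pow_left₀ (abs_nonneg _) c1 2
      rw [sq_abs] at c6
      exact c6.trans (c.trans (mul_le_mul_of_nonneg_right c2 c5))
    have g2 : ∑ x ∈ vals F, |P.pv Z F w x - P.pv Zb F w x| * (hwk B (rr P Zb F Y w y x) - 1) ^ 2 ≤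
        2 * B * ∑ x ∈ vals F, |P.pv Z F w x - P.pv Zb F w x| * hphi (rr P Zb F Y w y x) := by
      rw [Finset.mul_sum]
      refine Finset.sum_le_sum fun x _ => ?_
      have a1 := mul_le_mul_of_nonneg_left (wk_sub_sq_le hB (rr_nn P Zb F Y w y x)) (abs_nonneg (P.pv Z F w x - P.pv Zb F w x))
      linarith
    have g3 : al w ^ 2 ≤ al w := by nlinarith [h0 w, h1 w]
    have g4 : (al w * phi1 P Zb Z F Y B w y) ^ 2 ≤ al w * (4 * B * ∑ x ∈ vals F, |P.pv Z F w x - P.pv Zb F w x| *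
        hphi (rr P Zb F Y w y x)) := by
      rw [mul_pow]
      refine mul_le_mul g3 (by linarith) (sq_nonneg _) (h0 w)
    refine (mul_le_mul_of_nonneg_left g4 g0).trans (le_of_eq ?_)
    have e9 : P.pv Zb Y w y * (al w * (4 * B * ∑ x ∈ vals F, |P.pv Z F w x - P.pv Zb F w x| *
        hphi (rr P Zb F Y w y x))) = 4 * B * ((P.pv Zb Y w y * al w) * ∑ x ∈ vals F, |P.pv Z F w x - P.pv Zb F w x| *
        hphi (rr P Zb F Y w y x)) := by ring
    rw [e9, Finset.mul_sum]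
    congr 1
    exact Finset.sum_congr rfl fun x _ => by ring
  have hG := Gd_nn P Zb Z F Y (al := al) h0
  have hD := Dt_nn P Zb Z Y
  have k5 : Real.sqrt (P.E (fun w => ∑ y ∈ vals Y, P.pv Zb Y w y * (hwk B (tau P Zb Z Y w y) - 1) ^ 2) *
      P.E (fun w => ∑ y ∈ vals Y, P.pv Zb Y w y * (al w * phi1 P Zb Z F Y B w y) ^ 2)) ≤
      B * Real.sqrt (8 * (Gd P Zb Z F Y al * Dt P Zb Z Y)) := by
    have a1 : 0 ≤ P.E (fun w => ∑ y ∈ vals Y, P.pv Zb Y w y * (al w * phi1 P Zb Z F Y B w y) ^ 2) :=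
      P.E_nonneg fun w _ => Finset.sum_nonneg fun y _ => mul_nonneg (P.pv_nonneg _ _ _ _) (sq_nonneg _)
    have a2 := mul_le_mul k3 k4 a1 (by positivity)
    have a3 : B * Real.sqrt (8 * (Gd P Zb Z F Y al * Dt P Zb Z Y)) =
        Real.sqrt (B ^ 2 * (8 * (Gd P Zb Z F Y al * Dt P Zb Z Y))) := by
      rw [Real.sqrt_mul (sq_nonneg B), Real.sqrt_sq hB0]
    rw [a3]
    refine Real.sqrt_le_sqrt (a2.trans (le_of_eq ?_))
    ring
  rw [e1]
  refine (abs_add_le _ _).trans ?_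
  linarith

/-- the part of the strong letters weighted with the difference of the laws, thin ratio at most `B` -/
theorem strong_diff_le (hZ : Fac Z Zb) (hB : Real.exp 2 ≤ B) (hal : Fac Z al) (h0 : ∀ w, 0 ≤ al w) :
    P.E (fun w => al w * (ind (¬ B < tau P Zb Z Y w (Y w)) *
      ∑ x ∈ vals F, |P.pv Z F w x - P.pv Zb F w x| * hsg B (rr P Zb F Y w (Y w) x))) ≤ B * Gd P Zb Z F Y al := by
  have hB1 : 1 ≤ B := by
    have := Real.add_one_le_exp 2
    linarith
  have hB0 : 0 ≤ B := by linarith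
  rw [E_real P Y (W := Z) (f := fun w y => al w * (ind (¬ B < tau P Zb Z Y w y) *
      ∑ x ∈ vals F, |P.pv Z F w x - P.pv Zb F w x| * hsg B (rr P Zb F Y w y x)))
      (fun y a b hab => by
        show al a * (ind (¬ B < tau P Zb Z Y a y) * ∑ x ∈ vals F, |P.pv Z F a x - P.pv Zb F a x| *
            hsg B (rr P Zb F Y a y x)) =
          al b * (ind (¬ B < tau P Zb Z Y b y) * ∑ x ∈ vals F, |P.pv Z F b x - P.pv Zb F b x| *
            hsg B (rr P Zb F Y b y x))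
        have g1 : al a = al b := hal a b hab
        have g2 := tau_fac P Y hZ y a b hab
        simp only at g2
        rw [g1, g2]
        congr 2
        refine Finset.sum_congr rfl fun x _ => ?_
        rw [rrc P F Y (hZ a b hab) y x, pvc P F hab x, pvc P F (hZ a b hab) x])]
  unfold Gd
  rw [← P.E_smul]
  refine P.E_mono fun w _ => ?_
  rw [Finset.mul_sum]
  refine Finset.sum_le_sum fun y _ => ?_
  have g0 := P.pv_nonneg Zb Y w y
  have e1 : P.pv Z Y w y * (al w * (ind (¬ B < tau P Zb Z Y w y) *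
      ∑ x ∈ vals F, |P.pv Z F w x - P.pv Zb F w x| * hsg B (rr P Zb F Y w y x))) =
      hwk B (tau P Zb Z Y w y) * ((P.pv Zb Y w y * al w) *
        ∑ x ∈ vals F, |P.pv Z F w x - P.pv Zb F w x| * hsg B (rr P Zb F Y w y x)) := by
    rw [yz_eq P Y hZ w y]
    unfold hwk
    ring
  rw [e1]
  have g1 : ∑ x ∈ vals F, |P.pv Z F w x - P.pv Zb F w x| * hsg B (rr P Zb F Y w y x) ≤
      ∑ x ∈ vals F, |P.pv Z F w x - P.pv Zb F w x| * hphi (rr P Zb F Y w y x) :=
    Finset.sum_le_sum fun x _ => mul_le_mul_of_nonneg_left (sg_le_hphi hB (rr_nn P Zb F Y w y x)) (abs_nonneg _)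
  have g2 := mul_le_mul_of_nonneg_left g1 (mul_nonneg g0 (h0 w))
  have g3 : 0 ≤ P.pv Zb Y w y * al w * ∑ x ∈ vals F, |P.pv Z F w x - P.pv Zb F w x| * hphi (rr P Zb F Y w y x) :=
    mul_nonneg (mul_nonneg g0 (h0 w)) (Finset.sum_nonneg fun x _ => mul_nonneg (abs_nonneg _)
      (hphi_nonneg (rr_nn P Zb F Y w y x)))
  have g4 := hwk_nonneg (B := B) (tau_nn P Zb Z Y w y)
  have g5 := hwk_le (B := B) (x := tau P Zb Z Y w y) hB0
  have g6 := (mul_le_mul_of_nonneg_left g2 g4).trans (mul_le_mul_of_nonneg_right g5 g3)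
  refine g6.trans (le_of_eq ?_)
  rw [Finset.mul_sum]
  congr 1
  exact Finset.sum_congr rfl fun x _ => by ring

/-- root of the conditional second moment of the weak ratio -/
def lam (B : ℝ) (w : Om) (x : φ) : ℝ :=
  Real.sqrt (∑ y ∈ vals Y, P.pv Zb Y w y * (hwk B (rr P Zb F Y w y x) - 1) ^ 2)

theorem lam_nn (w : Om) (x : φ) : 0 ≤ lam P Zb F Y B w x := Real.sqrt_nonneg _

theorem lam_fac (x : φ) : Fac Zb (fun w => lam P Zb F Y B w x) := by
  intro a b hab
  show Real.sqrt _ = Real.sqrt _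
  congr 1
  refine Finset.sum_congr rfl fun y _ => ?_
  rw [rrc P F Y hab y x, pvc P Y hab y]

theorem lam_sq (w : Om) (x : φ) : lam P Zb F Y B w x ^ 2 =
    ∑ y ∈ vals Y, P.pv Zb Y w y * (hwk B (rr P Zb F Y w y x) - 1) ^ 2 :=
  Real.sq_sqrt (Finset.sum_nonneg fun y _ => mul_nonneg (P.pv_nonneg _ _ _ _) (sq_nonneg _))

/-- second moment of `lam` -/
theorem E_lam (hB : Real.exp 2 ≤ B) : P.E (fun w => ∑ x ∈ vals F, P.pv Zb F w x * lam P Zb F Y B w x ^ 2) ≤
    2 * B * gn P Zb F Y := by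
  unfold gn
  rw [← P.E_smul]
  refine P.E_mono fun w _ => ?_
  have e1 : ∑ x ∈ vals F, P.pv Zb F w x * lam P Zb F Y B w x ^ 2 =
      ∑ y ∈ vals Y, ∑ x ∈ vals F, P.pv Zb Y w y * (P.pv Zb F w x * (hwk B (rr P Zb F Y w y x) - 1) ^ 2) := by
    rw [Finset.sum_comm]
    refine Finset.sum_congr rfl fun x _ => ?_
    rw [lam_sq, Finset.mul_sum]
    exact Finset.sum_congr rfl fun y _ => by ring
  rw [e1, Finset.mul_sum]
  refine Finset.sum_le_sum fun y _ => ?_
  rw [Finset.mul_sum]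
  refine Finset.sum_le_sum fun x _ => ?_
  have h1 := wk_sub_sq_le hB (rr_nn P Zb F Y w y x)
  have h2 := mul_le_mul_of_nonneg_left h1 (mul_nonneg (P.pv_nonneg Zb Y w y) (P.pv_nonneg Zb F w x))
  linarith

/-- change of the class: mean given all thin letters, thin ratio at most `B` -/
theorem ce_lam_le (hZ : Fac Z Zb) (hB : 0 ≤ B) (w : Om) (x : φ) :
    P.ce Z (fun u => ind (¬ B < tau P Zb Z Y u (Y u)) * (hwk B (rr P Zb F Y u (Y u) x) - 1) ^ 2) w ≤
      B * lam P Zb F Y B w x ^ 2 := by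
  have h := P.sum_pv (W := Z) Y (F := fun u y => ind (¬ B < tau P Zb Z Y u y) * (hwk B (rr P Zb F Y u y x) - 1) ^ 2)
    (fun y a b hab => by
      show ind (¬ B < tau P Zb Z Y a y) * (hwk B (rr P Zb F Y a y x) - 1) ^ 2 =
        ind (¬ B < tau P Zb Z Y b y) * (hwk B (rr P Zb F Y b y x) - 1) ^ 2
      have g2 := tau_fac P Y hZ y a b hab
      have g3 := rr_fac P Zb F Y y x a b (hZ a b hab)
      simp only at g2 g3
      rw [g2, g3]) w
  rw [← h, lam_sq, Finset.mul_sum]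
  refine Finset.sum_le_sum fun y _ => ?_
  have e1 : P.pv Z Y w y * (ind (¬ B < tau P Zb Z Y w y) * (hwk B (rr P Zb F Y w y x) - 1) ^ 2) =
      hwk B (tau P Zb Z Y w y) * (P.pv Zb Y w y * (hwk B (rr P Zb F Y w y x) - 1) ^ 2) := by
    rw [yz_eq P Y hZ w y]
    unfold hwk
    ring
  rw [e1]
  exact mul_le_mul_of_nonneg_right (hwk_le hB) (mul_nonneg (P.pv_nonneg _ _ _ _) (sq_nonneg _))

end one

end

end Pool.Agent.GMH
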