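import Pool.Agent.GMH.TopG
import Pool.Agent.GMH.TopKinV
import Pool.Agent.GMH.Key3P

/-!
# GMH/TopAct: THE ACTIVITY SUMS OF THE TOPS (helper49, row C8 of H3.LEAN)

A letter `x` of a top is ACTIVE in a step if the ratio `r = q' / q` of its probabilities after and before the step satisfies
`e < |r - 1|`.
* one step: `act_old` (letters of the old law `q`), `act_new` (letters of the new law `q'`), `act_real` (the true letter):
  the mass of the active letters is at most `120 / e^2` times the gain `gn = I(Y; F | Zb)`;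
* run: `gn_six`, `gn_sum` : the gains of a top in the six steps of all times are at most `2 Lam`;
* `ga_real`, `ga_new`, `ga_old` : the three activity sums over the run, any weight with values in `[0, 1]`.
-/

set_option autoImplicit false
set_option linter.unusedSectionVars false

namespace Pool.Agent.GMH.TP

open Finset Pool.Agent.PWZ Pool.Agent.M3 Pool.Agent.GM Pool.Agent.GM.Harm Pool.Agent.GMH Pool.Agent.GMH.NZ
open Pool.Agent.GMH.V3

noncomputable section

/-! ### numbers -/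

/-- an active ratio costs -/
theorem act_num {e x : ℝ} (he : 0 < e) (he1 : e ≤ 1) (hx : 0 ≤ x) (ha : e < |x - 1|) :
    1 ≤ 120 / e ^ 2 * hphi x ∧ x ≤ 120 / e ^ 2 * hphi x := by
  have h1 := Real.exp_one_lt_d9
  have h2 : Real.exp 2 = Real.exp 1 * Real.exp 1 := by rw [← Real.exp_add]; norm_num
  have h3 : Real.exp 2 < 7.4 := by
    rw [h2]
    have := Real.exp_pos 1
    nlinarith
  have he2 : 0 < e ^ 2 := by positivity
  have he3 : e ^ 2 ≤ 1 := by nlinarith
  have hp := hphi_nonneg hx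
  by_cases hB : Real.exp 2 < x
  · have h4 : hsg (Real.exp 2) x ≤ hphi x := sg_le_hphi le_rfl hx
    unfold hsg at h4
    rw [ind_of hB, one_mul] at h4
    have h5 : hphi x ≤ 120 / e ^ 2 * hphi x := by
      refine le_mul_of_one_le_left hp ?_
      rw [le_div_iff₀ he2]
      linarith
    have h6 : (1 : ℝ) ≤ Real.exp 2 := Real.one_le_exp (by norm_num)
    exact ⟨by linarith, by linarith⟩
  · have hB' := not_lt.1 hB
    have h4 := hphi_sq hx
    have h5 : e ^ 2 ≤ (x - 1) ^ 2 := by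
      rw [← sq_abs (x - 1)]
      exact pow_le_pow_left₀ he.le ha.le 2
    have h6 : max 1 x ≤ 7.4 := max_le (by norm_num) (hB'.trans h3.le)
    have h7 : (x - 1) ^ 2 ≤ 15 * hphi x := by nlinarith
    have h8 : e ^ 2 ≤ 15 * hphi x := h5.trans h7
    have h9 : 1 ≤ 15 / e ^ 2 * hphi x := by
      rw [div_mul_eq_mul_div, le_div_iff₀ he2]
      linarith
    have h10 : 15 / e ^ 2 * hphi x ≤ 120 / e ^ 2 * hphi x := by
      refine mul_le_mul_of_nonneg_right ?_ hp
      exact div_le_div_of_nonneg_right (by norm_num) he2.le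
    have h11 : 120 / e ^ 2 * hphi x = 8 * (15 / e ^ 2 * hphi x) := by ring
    refine ⟨h9.trans h10, ?_⟩
    rw [h11]
    linarith

/-! ### one step -/

section one

variable {Om : Type*} [Fintype Om] (P : FP Om) {α β γ φ : Type*} (Zb : Om → α) (F : Om → φ) (Y : Om → γ)

variable {e : ℝ}

/-- **old law** -/
theorem act_old (he : 0 < e) (he1 : e ≤ 1) :
    P.E (fun w => ∑ x ∈ vals F, P.pv Zb F w x * ind (e < |rr P Zb F Y w (Y w) x - 1|)) ≤ 120 / e ^ 2 * gn P Zb F Y := by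
  rw [E_real P Y (W := Zb) (f := fun w y => ∑ x ∈ vals F, P.pv Zb F w x * ind (e < |rr P Zb F Y w y x - 1|))
    (fun y => Fac.finsum _ fun x _ => by
      intro a b hab
      show P.pv Zb F a x * ind (e < |rr P Zb F Y a y x - 1|) = P.pv Zb F b x * ind (e < |rr P Zb F Y b y x - 1|)
      rw [pvc P F hab x, rrc P F Y hab y x])]
  unfold gn
  rw [← P.E_smul]
  refine P.E_mono fun w _ => ?_
  rw [Finset.mul_sum]
  refine Finset.sum_le_sum fun y _ => ?_
  rw [Finset.mul_sum, Finset.mul_sum]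
  refine Finset.sum_le_sum fun x _ => ?_
  have h0 := mul_nonneg (P.pv_nonneg Zb Y w y) (P.pv_nonneg Zb F w x)
  have hp := hphi_nonneg (rr_nn P Zb F Y w y x)
  have hc : 0 ≤ 120 / e ^ 2 := by positivity
  have key : ind (e < |rr P Zb F Y w y x - 1|) ≤ 120 / e ^ 2 * hphi (rr P Zb F Y w y x) := by
    by_cases ha : e < |rr P Zb F Y w y x - 1|
    · rw [ind_of ha]
      exact (act_num he he1 (rr_nn P Zb F Y w y x) ha).1
    · rw [ind_not ha]
      exact mul_nonneg hc hp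
  have := mul_le_mul_of_nonneg_left key h0
  calc P.pv Zb Y w y * (P.pv Zb F w x * ind (e < |rr P Zb F Y w y x - 1|)) =
      P.pv Zb Y w y * P.pv Zb F w x * ind (e < |rr P Zb F Y w y x - 1|) := by ring
    _ ≤ _ := this
    _ = _ := by ring

/-- the true pair -/
theorem E_pair {f : Om → γ → φ → ℝ} (hf : ∀ y x, Fac Zb (fun w => f w y x)) :
    P.E (fun w => f w (Y w) (F w)) = P.E (fun w => ∑ y ∈ vals Y, ∑ x ∈ vals F, qy P Zb F Y w y x * f w y x) := by
  rw [← P.E_ce Zb (fun w => f w (Y w) (F w))]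
  refine P.E_congr fun w _ => ?_
  exact (P.sum2 Y F (F := f) hf w).symm

/-- **the true letter** -/
theorem act_real (he : 0 < e) (he1 : e ≤ 1) :
    P.E (fun w => ind (e < |rr P Zb F Y w (Y w) (F w) - 1|)) ≤ 120 / e ^ 2 * gn P Zb F Y := by
  rw [E_pair P Zb F Y (f := fun w y x => ind (e < |rr P Zb F Y w y x - 1|)) (fun y x a b hab => by
    show ind (e < |rr P Zb F Y a y x - 1|) = ind (e < |rr P Zb F Y b y x - 1|)
    rw [rrc P F Y hab y x])]
  unfold gn
  rw [← P.E_smul]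
  refine P.E_mono fun w _ => ?_
  rw [Finset.mul_sum]
  refine Finset.sum_le_sum fun y _ => ?_
  rw [Finset.mul_sum]
  refine Finset.sum_le_sum fun x _ => ?_
  have h0 := mul_nonneg (P.pv_nonneg Zb Y w y) (P.pv_nonneg Zb F w x)
  have hp := hphi_nonneg (rr_nn P Zb F Y w y x)
  have hc : 0 ≤ 120 / e ^ 2 := by positivity
  have key : rr P Zb F Y w y x * ind (e < |rr P Zb F Y w y x - 1|) ≤ 120 / e ^ 2 * hphi (rr P Zb F Y w y x) := by
    by_cases ha : e < |rr P Zb F Y w y x - 1|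
    · rw [ind_of ha, mul_one]
      exact (act_num he he1 (rr_nn P Zb F Y w y x) ha).2
    · rw [ind_not ha, mul_zero]
      exact mul_nonneg hc hp
  have := mul_le_mul_of_nonneg_left key h0
  rw [← yq_rr P Zb F Y w y x]
  calc P.pv Zb Y w y * (P.pv Zb F w x * rr P Zb F Y w y x) * ind (e < |rr P Zb F Y w y x - 1|) =
      P.pv Zb Y w y * P.pv Zb F w x * (rr P Zb F Y w y x * ind (e < |rr P Zb F Y w y x - 1|)) := by ring
    _ ≤ _ := this
    _ = _ := by ring

/-- the new law is the conditional law of the true letter -/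
theorem act_new_eq : P.E (fun w => ∑ x ∈ vals F, P.pv (fun u => (Y u, Zb u)) F w x *
    ind (e < |rr P Zb F Y w (Y w) x - 1|)) = P.E (fun w => ind (e < |rr P Zb F Y w (Y w) (F w) - 1|)) := by
  rw [← P.E_ce (fun u => (Y u, Zb u)) (fun w => ind (e < |rr P Zb F Y w (Y w) (F w) - 1|))]
  refine P.E_congr fun w _ => ?_
  exact P.sum_pv F (F := fun w x => ind (e < |rr P Zb F Y w (Y w) x - 1|)) (fun x a b hab => by
    have h1 := (Prod.mk.inj hab).1
    have h2 := (Prod.mk.inj hab).2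
    show ind (e < |rr P Zb F Y a (Y a) x - 1|) = ind (e < |rr P Zb F Y b (Y b) x - 1|)
    rw [h1, rrc P F Y h2 (Y b) x]) w

/-- **new law** -/
theorem act_new (he : 0 < e) (he1 : e ≤ 1) :
    P.E (fun w => ∑ x ∈ vals F, P.pv (fun u => (Y u, Zb u)) F w x * ind (e < |rr P Zb F Y w (Y w) x - 1|)) ≤
      120 / e ^ 2 * gn P Zb F Y := (act_new_eq P Zb F Y).le.trans (act_real P Zb F Y he he1)

end one

/-! ### the run -/

section hd

variable {X β γ φ : Type} [Fintype X] [Fintype β] [Fintype φ] [Nonempty X] [Nonempty β]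
variable {D : HD (Fin 3) X β γ φ} {al : ℝ} (h : D.Thick al)
  (v : ℕ → Finset (Fin 3) → X → (Fin 3 → β) → Pt (Fin 3) X β φ)
variable {dg : ℕ → X → ℝ} {prr : ℕ → Fin 3 → φ → φ} {T : ℕ} {Lam : ℝ}

/-- entropy of the top `i` in the state `q`, law of the time `t` -/
def hQ (t q : ℕ) (i : Fin 3) : ℝ := (D.P h t).Hc (FQ v t i) (ZbQ D v q i)

/-- the gain of the top `i` in the step `(s, t)` -/
def gS (s : Fin 6) (t : ℕ) (i : Fin 3) : ℝ := gn (D.P h t) (ZbQ D v (qs s t) i) (FQ v t i) (ZbQ D v (qe s t) i)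

/-- the ratio of the letter `x` of the top `i` in the step `(s, t)` -/
def rS (s : Fin 6) (t : ℕ) (i : Fin 3) (w : Pt (Fin 3) X β φ) (x : Tt X β φ) : ℝ :=
  rr (D.P h t) (ZbQ D v (qs s t) i) (FQ v t i) (ZbQ D v (qe s t) i) w (ZbQ D v (qe s t) i w) x

variable {v}

theorem hQ_anti {q q' : ℕ} (hq : q ≤ q') (t : ℕ) (i : Fin 3) : hQ h v t q' i ≤ hQ h v t q i :=
  (D.P h t).Hc_anti _ (ZbQ_mono hq i)

/-- the law after the step -/
theorem pv_qe {t q q' : ℕ} (hq : q ≤ q') (i : Fin 3) (w : Pt (Fin 3) X β φ) (x : Tt X β φ) :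
    (D.P h t).pv (fun u => (ZbQ D v q' i u, ZbQ D v q i u)) (FQ v t i) w x =
      (D.P h t).pv (ZbQ D v q' i) (FQ v t i) w x :=
  (D.P h t).ce_congr_map (fun a b hab => (Prod.mk.inj hab).1)
    (fun a b hab => by simp only [Prod.mk.injEq]; exact ⟨hab, ZbQ_mono hq i a b hab⟩) _ w

/-- the ratio is `q' / q` -/
theorem rS_eq (s : Fin 6) (t : ℕ) (i : Fin 3) {w : Pt (Fin 3) X β φ} (hw : (D.P h t).p w ≠ 0) (x : Tt X β φ) :
    rS h v s t i w x = (D.P h t).pv (ZbQ D v (qe s t) i) (FQ v t i) w x / (D.P h t).pv (ZbQ D v (qs s t) i) (FQ v t i) w x := by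
  unfold rS
  rw [← real_r (D.P h t) (ZbQ D v (qs s t) i) (FQ v t i) (ZbQ D v (qe s t) i) hw x, pv_qe h (qs_le_qe s t) i w x]

theorem gS_eq (s : Fin 6) (t : ℕ) (i : Fin 3) : gS h v s t i = hQ h v t (qs s t) i - hQ h v t (qe s t) i := by
  unfold gS hQ
  rw [gn_eq, (D.P h t).I_eq_Hc']
  congr 1
  refine le_antisymm ((D.P h t).Hc_anti _ fun a b hab => ?_) ((D.P h t).Hc_anti _ fun a b hab => ?_)
  · exact (Prod.mk.inj hab).1
  · simp only [Prod.mk.injEq]
    exact ⟨hab, ZbQ_mono (qs_le_qe s t) i a b hab⟩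

theorem gS_nn (s : Fin 6) (t : ℕ) (i : Fin 3) : 0 ≤ gS h v s t i := gn_nn _ _ _ _

/-- the six steps of one time -/
theorem gn_six (t : ℕ) (i : Fin 3) : ∑ s, gS h v s t i ≤ 2 * (hQ h v t (5 * t) i - hQ h v t (5 * t + 5) i) := by
  have e0 := gS_eq h (v := v) 0 t i
  have e1 := gS_eq h (v := v) 1 t i
  have e2 := gS_eq h (v := v) 2 t i
  have e3 := gS_eq h (v := v) 3 t i
  have e4 := gS_eq h (v := v) 4 t i
  have e5 := gS_eq h (v := v) 5 t i
  have k0 : gS h v 0 t i = hQ h v t (5 * t) i - hQ h v t (5 * t + 1) i := e0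
  have k1 : gS h v 1 t i = hQ h v t (5 * t + 1) i - hQ h v t (5 * t + 5) i := e1
  have k2 : gS h v 2 t i = hQ h v t (5 * t + 1) i - hQ h v t (5 * t + 2) i := e2
  have k3 : gS h v 3 t i = hQ h v t (5 * t + 2) i - hQ h v t (5 * t + 3) i := e3
  have k4 : gS h v 4 t i = hQ h v t (5 * t + 3) i - hQ h v t (5 * t + 4) i := e4
  have k5 : gS h v 5 t i = hQ h v t (5 * t + 4) i - hQ h v t (5 * t + 5) i := e5
  have h1 := hQ_anti h (v := v) (show 5 * t ≤ 5 * t + 1 by omega) t i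
  rw [Fin.sum_univ_six, k0, k1, k2, k3, k4, k5]
  linarith

theorem hQ_0 (t : ℕ) (i : Fin 3) : hQ h v t (5 * t) i = TG.E0 h v i t := by
  unfold hQ TG.E0 FQ
  rw [ZbQ_0]

theorem hQ_5 (t : ℕ) (i : Fin 3) : hQ h v t (5 * t + 5) i = TG.E2 h v i t := by
  unfold hQ TG.E2 FQ
  rw [ZbQ_5]

/-- **THE GAINS OF A TOP** in the six steps of all times -/
theorem gn_sum (H : D.Hyp dg prr al T Lam) {n N1 : ℝ} (R : Run h (pr3 (Fin 3) n N1) (SS1 (Fin 3)) (AdmDep D) v)
    (hn : 1 ≤ n) (hN1 : 1 ≤ N1) (i : Fin 3) : ∑ t ∈ range T, ∑ s, gS h v s t i ≤ 2 * Lam := by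
  have key : ∀ S ≤ T, ∑ t ∈ range S, (TG.E0 h v i t - TG.E2 h v i t) + TG.E0 h v i S ≤
      birth0 h i + ∑ t ∈ range S, birth h prr t i := by
    intro S
    induction S with
    | zero =>
      intro _
      rw [Finset.sum_range_zero, Finset.sum_range_zero, zero_add, add_zero]
      exact TG.start_le h R hn hN1 i
    | succ S ih =>
      intro hS
      have h0 := ih (by omega)
      have h2 := TG.gain_codes h H R hn hN1 (show S < T by omega) i
      rw [Finset.sum_range_succ, Finset.sum_range_succ]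
      linarith
  have h1 := key T le_rfl
  have h2 := birth_le h H i
  have h3 : 0 ≤ TG.E0 h v i T := FP.Hc_nonneg _ _ _
  have h4 : ∑ t ∈ range T, ∑ s, gS h v s t i ≤ ∑ t ∈ range T, 2 * (TG.E0 h v i t - TG.E2 h v i t) :=
    Finset.sum_le_sum fun t _ => (gn_six h t i).trans (by rw [hQ_0, hQ_5])
  rw [← Finset.mul_sum] at h4
  linarith

/-- **ACTIVITY, true letter** : any weights with values in `[0, 1]` -/
theorem ga_real (H : D.Hyp dg prr al T Lam) {n N1 : ℝ} (R : Run h (pr3 (Fin 3) n N1) (SS1 (Fin 3)) (AdmDep D) v)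
    (hn : 1 ≤ n) (hN1 : 1 ≤ N1) (i : Fin 3) {e : ℝ} (he : 0 < e) (he1 : e ≤ 1)
    {aw : Fin 6 → ℕ → Pt (Fin 3) X β φ → ℝ} (h1 : ∀ s t w, aw s t w ≤ 1) :
    ∑ t ∈ range T, ∑ s, (D.P h t).E (fun w => aw s t w * ind (e < |rS h v s t i w (FQ v t i w) - 1|)) ≤
      240 * Lam / e ^ 2 := by
  have k1 : ∀ t s, (D.P h t).E (fun w => aw s t w * ind (e < |rS h v s t i w (FQ v t i w) - 1|)) ≤
      120 / e ^ 2 * gS h v s t i := fun t s => by
    refine le_trans ((D.P h t).E_mono fun w _ => ?_) (act_real (D.P h t) (ZbQ D v (qs s t) i) (FQ v t i)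
      (ZbQ D v (qe s t) i) he he1)
    exact mul_le_of_le_one_left (ind_nonneg _) (h1 s t w)
  have k2 := Finset.sum_le_sum fun t (_ : t ∈ range T) => Finset.sum_le_sum fun s (_ : s ∈ (univ : Finset (Fin 6))) =>
    k1 t s
  simp only [← Finset.mul_sum] at k2
  have k3 := mul_le_mul_of_nonneg_left (gn_sum h H R hn hN1 i) (show 0 ≤ 120 / e ^ 2 by positivity)
  have k4 : 120 / e ^ 2 * (2 * Lam) = 240 * Lam / e ^ 2 := by ring
  linarith

/-- **ACTIVITY, letters of the new law** -/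
theorem ga_new (H : D.Hyp dg prr al T Lam) {n N1 : ℝ} (R : Run h (pr3 (Fin 3) n N1) (SS1 (Fin 3)) (AdmDep D) v)
    (hn : 1 ≤ n) (hN1 : 1 ≤ N1) (i : Fin 3) {e : ℝ} (he : 0 < e) (he1 : e ≤ 1)
    {aw : Fin 6 → ℕ → Pt (Fin 3) X β φ → ℝ} (h1 : ∀ s t w, aw s t w ≤ 1) :
    ∑ t ∈ range T, ∑ s, (D.P h t).E (fun w => aw s t w * ∑ x ∈ vals (FQ v t i),
      (D.P h t).pv (ZbQ D v (qe s t) i) (FQ v t i) w x * ind (e < |rS h v s t i w x - 1|)) ≤ 240 * Lam / e ^ 2 := by
  have k1 : ∀ t s, (D.P h t).E (fun w => aw s t w * ∑ x ∈ vals (FQ v t i),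
      (D.P h t).pv (ZbQ D v (qe s t) i) (FQ v t i) w x * ind (e < |rS h v s t i w x - 1|)) ≤
      120 / e ^ 2 * gS h v s t i := fun t s => by
    refine le_trans ((D.P h t).E_mono fun w _ => ?_) (act_new (D.P h t) (ZbQ D v (qs s t) i) (FQ v t i)
      (ZbQ D v (qe s t) i) he he1)
    have e1 : ∑ x ∈ vals (FQ v t i), (D.P h t).pv (ZbQ D v (qe s t) i) (FQ v t i) w x *
        ind (e < |rS h v s t i w x - 1|) = ∑ x ∈ vals (FQ v t i),
        (D.P h t).pv (fun u => (ZbQ D v (qe s t) i u, ZbQ D v (qs s t) i u)) (FQ v t i) w x *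
        ind (e < |rr (D.P h t) (ZbQ D v (qs s t) i) (FQ v t i) (ZbQ D v (qe s t) i) w (ZbQ D v (qe s t) i w) x - 1|) :=
      Finset.sum_congr rfl fun x _ => by rw [pv_qe h (qs_le_qe s t) i w x]; rfl
    rw [e1]
    exact mul_le_of_le_one_left (Finset.sum_nonneg fun x _ => mul_nonneg ((D.P h t).pv_nonneg _ _ _ _) (ind_nonneg _))
      (h1 s t w)
  have k2 := Finset.sum_le_sum fun t (_ : t ∈ range T) => Finset.sum_le_sum fun s (_ : s ∈ (univ : Finset (Fin 6))) =>
    k1 t s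
  simp only [← Finset.mul_sum] at k2
  have k3 := mul_le_mul_of_nonneg_left (gn_sum h H R hn hN1 i) (show 0 ≤ 120 / e ^ 2 by positivity)
  have k4 : 120 / e ^ 2 * (2 * Lam) = 240 * Lam / e ^ 2 := by ring
  linarith

/-- **ACTIVITY, letters of the old law** -/
theorem ga_old (H : D.Hyp dg prr al T Lam) {n N1 : ℝ} (R : Run h (pr3 (Fin 3) n N1) (SS1 (Fin 3)) (AdmDep D) v)
    (hn : 1 ≤ n) (hN1 : 1 ≤ N1) (i : Fin 3) {e : ℝ} (he : 0 < e) (he1 : e ≤ 1)
    {aw : Fin 6 → ℕ → Pt (Fin 3) X β φ → ℝ} (h1 : ∀ s t w, aw s t w ≤ 1) :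
    ∑ t ∈ range T, ∑ s, (D.P h t).E (fun w => aw s t w * ∑ x ∈ vals (FQ v t i),
      (D.P h t).pv (ZbQ D v (qs s t) i) (FQ v t i) w x * ind (e < |rS h v s t i w x - 1|)) ≤ 240 * Lam / e ^ 2 := by
  have k1 : ∀ t s, (D.P h t).E (fun w => aw s t w * ∑ x ∈ vals (FQ v t i),
      (D.P h t).pv (ZbQ D v (qs s t) i) (FQ v t i) w x * ind (e < |rS h v s t i w x - 1|)) ≤
      120 / e ^ 2 * gS h v s t i := fun t s => by
    refine le_trans ((D.P h t).E_mono fun w _ => ?_) (act_old (D.P h t) (ZbQ D v (qs s t) i) (FQ v t i)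
      (ZbQ D v (qe s t) i) he he1)
    exact mul_le_of_le_one_left (Finset.sum_nonneg fun x _ => mul_nonneg ((D.P h t).pv_nonneg _ _ _ _) (ind_nonneg _))
      (h1 s t w)
  have k2 := Finset.sum_le_sum fun t (_ : t ∈ range T) => Finset.sum_le_sum fun s (_ : s ∈ (univ : Finset (Fin 6))) =>
    k1 t s
  simp only [← Finset.mul_sum] at k2
  have k3 := mul_le_mul_of_nonneg_left (gn_sum h H R hn hN1 i) (show 0 ≤ 120 / e ^ 2 by positivity)
  have k4 : 120 / e ^ 2 * (2 * Lam) = 240 * Lam / e ^ 2 := by ring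
  linarith

end hd

end

end Pool.Agent.GMH.TP
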