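import Pool.Agent.GMH.TopFin
import Pool.Agent.GMH.KinF
import Pool.Agent.GMH.TopAct

/-!
# GMH/TopSplit: `FullOK` from explicit kinds and four sums (helper11)

Parameters: thresholds `c : KC` of the kinds, `B` strong letters, region `Rg s t w f` of the cut, bits `bt k i q` (kind `k`,
exact vertex `i`, state `q`), `bz k q` (node), price `Dv`.
* `rel3 s t k w f` : released relation: kind `k ∈ {1, ..., 5}` of the state `qs s t`; for `k ≠ 1` a bad top is strong in the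
  step; `lpv i t` : light private value of `i`; `bit3 s t k` : step `1`: `bz k` or some `bt k i`, `i ∈ vk k`; step `5` (the
  private codes together): some `bt k i` with `lpv i t`, `i ∈ vk k`; nothing at the digit and at heavy public values;
  `om3 = ind Rg`;
* `RelS` (released, signed) and `UnrS` (not released, in the region) : `DyS = RelS + UnrS`;
* `fullOK3` : `FullOK` from `RelS`, `UnrS`, the prices and `NoS`.
-/

set_option autoImplicit false
set_option linter.unusedSectionVars false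

namespace Pool.Agent.GMH.TP

open Finset Pool.Agent.PWZ Pool.Agent.M3 Pool.Agent.GM Pool.Agent.GM.Harm Pool.Agent.GMH Pool.Agent.GMH.NZ
open Pool.Agent.GMH.V3 Pool.Agent.GMH.KF

noncomputable section

/-- the exact vertices of the kinds -/
def vk (k : Fin 10) : Finset (Fin 3) := ![∅, univ, {1, 2}, {0, 2}, {0, 1}, univ, {0}, {1}, {2}, ∅] k

/-- the released kinds -/
def rK : Finset (Fin 10) := {1, 2, 3, 4, 5}

variable {X β γ φ : Type} [Fintype X] [Fintype β] [Fintype φ] [Nonempty X] [Nonempty β]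
variable {D : HD (Fin 3) X β γ φ} {al : ℝ} (h : D.Thick al) (v : ℕ → Finset (Fin 3) → X → (Fin 3 → β) → Pt (Fin 3) X β φ)
variable (c : KC) (B : ℝ)

/-- a bad top is strong in the step -/
def sbd (s : Fin 6) (t : ℕ) (i : Fin 3) (w : Pt (Fin 3) X β φ) (f : Tu X β φ) : Prop :=
  bad (D.P h t) (ZQ D v (qs s t)) (FQ v t) c i w f ∧ B < rS h v s t i w (f i)

/-- **RELEASED RELATIONS** -/
def rel3 (s : Fin 6) (t : ℕ) (k : Fin 10) (w : Pt (Fin 3) X β φ) (f : Tu X β φ) : Prop :=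
  k ∈ rK ∧ kdF (D.P h t) (ZQ D v (qs s t)) (FQ v t) c k w f ∧ (k = 1 ∨ ∃ i, sbd h v c B s t i w f)

/-- light private value of the vertex `i` in the code of the time `t` -/
def lpv (i : Fin 3) (t : ℕ) (w : Pt (Fin 3) X β φ) : Prop :=
  2 * (D.P h t).m (fun u => (XLq v (5 * t + 5) i u, NPq D v (5 * t + 5) u)) w <
    (D.P h t).m (fun u => (XLq v (5 * t + 4) i u, NPq D v (5 * t + 4) u)) w

variable (Rg : Fin 6 → ℕ → Pt (Fin 3) X β φ → Tu X β φ → Prop)
  (bt : Fin 10 → Fin 3 → ℕ → Pt (Fin 3) X β φ → Prop) (bz : Fin 10 → ℕ → Pt (Fin 3) X β φ → Prop)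

/-- **THE BITS** -/
def bit3 (s : Fin 6) (t : ℕ) (k : Fin 10) (w : Pt (Fin 3) X β φ) : Prop :=
  k ∈ rK ∧ ((s = 1 ∧ (bz k (5 * t + 1) w ∨ ∃ i ∈ vk k, bt k i (5 * t + 1) w)) ∨
    (s = 5 ∧ ∃ i ∈ vk k, bt k i (5 * t + 4) w ∧ lpv h v i t w))

/-- the cut -/
def om3 (s : Fin 6) (t : ℕ) (w : Pt (Fin 3) X β φ) (f : Tu X β φ) : ℝ := ind (Rg s t w f)

/-- the weight of the released kinds at the true tuple -/
def rw3 (s : Fin 6) (t : ℕ) (w : Pt (Fin 3) X β φ) : ℝ :=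
  ∑ k, ind (rel3 h v c B s t k w (tup (FQ v t) w)) * ind (bit3 h v bt bz s t k w)

/-- log density of the true tuple in the state before the step -/
def psS (s : Fin 6) (t : ℕ) (w : Pt (Fin 3) X β φ) : ℝ :=
  psC (D.P h t) (ZQ D v (qs s t)) (ZbQ D v (qs s t)) (FQ v t) w (tup (FQ v t) w)

/-- **RELEASED, SIGNED** -/
def RelS (A : Fin 6 → ℕ → Pt (Fin 3) X β φ → Prop) (K : ℝ) (s : Fin 6) (t : ℕ) : ℝ :=
  (D.P h t).E (fun w => ind (A s t w) * (rw3 h v c B bt bz s t w * max (psS h v s t w) (-K)))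

/-- **NOT RELEASED, IN THE REGION** -/
def UnrS (A : Fin 6 → ℕ → Pt (Fin 3) X β φ → Prop) (eta : ℝ) (s : Fin 6) (t : ℕ) : ℝ :=
  (D.P h t).E (fun w => ind (A s t w) * ((1 - rw3 h v c B bt bz s t w) *
    (ind (Rg s t w (tup (FQ v t) w)) * (max (psS h v s t w) 0 + Real.log (1 / eta)))))

variable {h v c B Rg bt bz}

theorem DyS_eq (A : Fin 6 → ℕ → Pt (Fin 3) X β φ → Prop) (eta K : ℝ) (s : Fin 6) (t : ℕ) :
    DyS h v A (rel3 h v c B) (bit3 h v bt bz) (om3 Rg) eta K s t = RelS h v c B bt bz A K s t +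
      UnrS h v c B Rg bt bz A eta s t := by
  unfold DyS RelS UnrS
  rw [← (D.P h t).E_add]
  refine (D.P h t).E_congr fun w _ => ?_
  show _ * ((∑ k, ind (rel3 h v c B s t k w (tup (FQ v t) w)) * ind (bit3 h v bt bz s t k w)) * _ +
    (1 - ∑ k, ind (rel3 h v c B s t k w (tup (FQ v t) w)) * ind (bit3 h v bt bz s t k w)) *
      (ind (Rg s t w (tup (FQ v t) w)) * _)) = _
  unfold rw3 psS
  ring

theorem rS_fac (s : Fin 6) (t : ℕ) (i : Fin 3) (x : Tt X β φ) :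
    Fac (VZ (φ := φ) D v s t) (fun w => rS h v s t i w x) := by
  intro a b hab
  have h1 : ZQ D v (qe s t) a = ZQ D v (qe s t) b ∧ ZQ D v (qs s t) a = ZQ D v (qs s t) b := Prod.mk.inj hab
  have g1 : ZbQ D v (qe s t) i a = ZbQ D v (qe s t) i b := ZQ_Zb _ i a b h1.1
  have g2 : ZbQ D v (qs s t) i a = ZbQ D v (qs s t) i b := ZQ_Zb _ i a b h1.2
  show rS h v s t i a x = rS h v s t i b x
  unfold rS
  rw [g1]
  exact rr_fac (D.P h t) (ZbQ D v (qs s t) i) (FQ v t i) (ZbQ D v (qe s t) i) _ x a b g2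

theorem VZ_Z (s : Fin 6) (t : ℕ) : Fac (VZ (φ := φ) D v s t) (ZQ D v (qs s t)) := fun _ _ hab => (Prod.mk.inj hab).2

theorem sbd_fac (s : Fin 6) (t : ℕ) (i : Fin 3) (f : Tu X β φ) :
    Fac (VZ (φ := φ) D v s t) (fun w => sbd h v c B s t i w f) := by
  intro a b hab
  have h1 : rS h v s t i a (f i) = rS h v s t i b (f i) := rS_fac s t i (f i) a b hab
  have h2 : bad (D.P h t) (ZQ D v (qs s t)) (FQ v t) c i a f = bad (D.P h t) (ZQ D v (qs s t)) (FQ v t) c i b f :=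
    bad_fac (D.P h t) (FQ v t) c i f a b (VZ_Z s t a b hab)
  show sbd h v c B s t i a f = sbd h v c B s t i b f
  unfold sbd
  rw [h1, h2]

theorem rel3_fac (s : Fin 6) (t : ℕ) (k : Fin 10) (f : Tu X β φ) :
    Fac (VZ (φ := φ) D v s t) (fun w => rel3 h v c B s t k w f) := by
  intro a b hab
  have h1 : ∀ i, sbd h v c B s t i a f = sbd h v c B s t i b f := fun i => sbd_fac s t i f a b hab
  have h2 : kdF (D.P h t) (ZQ D v (qs s t)) (FQ v t) c k a f = kdF (D.P h t) (ZQ D v (qs s t)) (FQ v t) c k b f :=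
    kdF_fac (D.P h t) (FQ v t) c k f a b (VZ_Z s t a b hab)
  show rel3 h v c B s t k a f = rel3 h v c B s t k b f
  unfold rel3
  simp only [h1, h2]

theorem rw3_01 (s : Fin 6) (t : ℕ) (w : Pt (Fin 3) X β φ) : 0 ≤ rw3 h v c B bt bz s t w ∧ rw3 h v c B bt bz s t w ≤ 1 := by
  classical
  refine ⟨Finset.sum_nonneg fun _ _ => mul_nonneg (ind_nonneg _) (ind_nonneg _), ?_⟩
  by_cases hex : ∃ k, rel3 h v c B s t k w (tup (FQ v t) w)
  · obtain ⟨k, hk⟩ := hex
    unfold rw3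
    rw [Finset.sum_eq_single k (fun k' _ hne => by
      rw [ind_not fun hk' => hne (kdF_dis hk'.2.1 hk.2.1), zero_mul]) (fun hh => absurd (mem_univ k) hh)]
    calc _ ≤ 1 * 1 := mul_le_mul (ind_le_one _) (ind_le_one _) (ind_nonneg _) zero_le_one
      _ = 1 := one_mul 1
  · push Not at hex
    unfold rw3
    rw [Finset.sum_eq_zero fun k _ => by rw [ind_not (hex k), zero_mul]]
    exact zero_le_one

/-- **`FullOK` FROM FOUR SUMS** -/
theorem fullOK3 {T : ℕ} {Lam : ℝ} (hL : 2 ≤ Lam) {p : AP} {Gd : ℕ → Pt (Fin 3) X β φ → Prop}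
    {st sp : ℕ → Pt (Fin 3) X β φ → Option (Fin 3)}
    (fR : ∀ s t f, Fac (VZ (φ := φ) D v s t) (fun w => Rg s t w f)) {eta K : ℝ} (heta : 0 < eta) (heta1 : eta ≤ 1)
    (hK : 0 ≤ K) (hK1 : K ≤ 3 * Lam) {Dv : Fin 6 → ℕ → Fin 10 → ℝ}
    (dev : ∀ t < T, ∀ s k, ∀ g : Pt (Fin 3) X β φ → ℝ, Fac (fun w => (tup (FQ v t) w, VZ D v s t w)) g →
      (∀ w, |g w| ≤ 1) → |(D.P h t).E (fun w => ind (aN h v p Gd st sp s t w ∧ bit3 h v bt bz s t k w) *
        (g w - (D.P h t).ce (VZ D v s t) g w))| ≤ Dv s t k)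
    (hRel : ∑ t ∈ range T, ∑ s, RelS h v c B bt bz (aN h v p Gd st sp) K s t ≤ (pw Lam 17)⁻¹)
    (hUnr : ∑ t ∈ range T, ∑ s, UnrS h v c B Rg bt bz (aN h v p Gd st sp) eta s t ≤ (pw Lam 17)⁻¹)
    (hPr : ∑ t ∈ range T, ∑ s, ∑ k, (3 * Lam + Real.log (1 / eta)) * Dv s t k ≤ (pw Lam 16)⁻¹)
    {E : ℝ} (hNo : ∑ t ∈ range T, ∑ s, NoS h v (aN h v p Gd st sp) (rel3 h v c B) (bit3 h v bt bz) (om3 Rg) eta s t ≤
      E) : FullOK h v p Gd st sp T Lam E := by
  refine ⟨Fin 10, inferInstance, rel3 h v c B, bit3 h v bt bz, om3 Rg, Dv, eta, K, heta, heta1, hK, hK1, ?_, ?_, hPr, hNo⟩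
  · exact { relf := fun s t k f => rel3_fac s t k f
            dis := fun s t w f k k' h1 h2 => kdF_dis h1.2.1 h2.2.1
            omf := fun s t f => (fR s t f).comp fun q => ind q
            om0 := fun _ _ _ _ => ind_nonneg _
            om1 := fun _ _ _ _ => ind_le_one _
            dev := dev }
  · simp only [DyS_eq, Finset.sum_add_distrib]
    have h1 : 2 * (pw Lam 17)⁻¹ ≤ (pw Lam 16)⁻¹ := by
      have h2 : pw Lam 17 = pw Lam 16 * (2 * Lam) := by unfold pw; ring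
      have h3 : 0 < pw Lam 16 := by unfold pw; positivity
      rw [h2, mul_inv]
      have h4 : 2 * (2 * Lam)⁻¹ ≤ 1 := by
        rw [← div_eq_mul_inv, div_le_one (by linarith)]
        linarith
      have h5 : 0 < (pw Lam 16)⁻¹ := inv_pos.2 h3
      nlinarith
    linarith

end

end Pool.Agent.GMH.TP
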