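import Pool.Agent.GMH.Dyn
import Pool.Agent.GMH.TopSplit

/-!
# GMH/DynF: visible relations of the kinds, aliveness (helper12)

* `Alv p q` : all letters and pairs are typical at all states up to `q` (decreasing in `q`);
* `kvF c κ o` : the relation of the densities, `o = some i` at the exact vertex `i` (a top seen by `i` is bad), `none` at the
  node; `κ ≥ 6` : visible tops not bad, not `R0`; `kd_kv`, `kd_kn` : the kind implies it at its vertices and at the node;
  `kv0F` = its core; `kvF_fac`;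
* `kv3`, `kv2` : with the tables of the start `τ` and alive; `ka3`, `ka2` : the kinds and alive.
-/

set_option autoImplicit false
set_option linter.unusedSectionVars false

namespace Pool.Agent.GMH.KF

open Finset Pool.Agent.PWZ Pool.Agent.M3 Pool.Agent.GMH

section fr

variable {Om : Type*} [Fintype Om] (P : FP Om) {β φ : Type*} (Z : Om → β) (F : Fin 3 → Om → φ)

/-- core of the relation of the densities -/
def kv0F (c : KC) (κ : Fin 10) (o : Option (Fin 3)) (w : Om) (f : Fin 3 → φ) : Prop :=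
  if 2 ≤ κ.1 ∧ κ.1 ≤ 5 then ¬ Ap P Z F c 1 w f ∧ ∃ j, some j ≠ o ∧ bad P Z F c j w f else Ap P Z F c κ.1 w f

/-- relation of the densities; pair kinds and `HT` : no visible top is bad, `HT` : no bad pair (helper83) -/
def kvF (c : KC) (κ : Fin 10) (o : Option (Fin 3)) (w : Om) (f : Fin 3 → φ) : Prop :=
  kv0F P Z F c κ o w f ∧ (6 ≤ κ.1 → ¬ Ap P Z F c 1 w f ∧ ∀ j, (κ.1 = 9 ∨ some j ≠ o) → ¬ bad P Z F c j w f) ∧
    (κ.1 = 9 → ∀ k, 6 ≤ k → k ≤ 8 → ¬ Ap P Z F c k w f)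

variable {P Z F}

theorem kvF_fac (c : KC) (κ : Fin 10) (o : Option (Fin 3)) (f : Fin 3 → φ) : Fac Z (fun w => kvF P Z F c κ o w f) := by
  intro a b hab
  have h1 : ∀ k, Ap P Z F c k a f = Ap P Z F c k b f := fun k => Ap_fac P F c k f a b hab
  have h2 : ∀ i, bad P Z F c i a f = bad P Z F c i b f := fun i => bad_fac P F c i f a b hab
  show kvF P Z F c κ o a f = kvF P Z F c κ o b f
  unfold kvF kv0F
  simp only [h1, h2]

/-- the further conditions hold for a kind -/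
theorem kd_ext {c : KC} {κ : Fin 10} (o : Option (Fin 3)) {w : Om} {f : Fin 3 → φ} (h : kdF P Z F c κ w f) :
    (6 ≤ κ.1 → ¬ Ap P Z F c 1 w f ∧ ∀ j, (κ.1 = 9 ∨ some j ≠ o) → ¬ bad P Z F c j w f) ∧
    (κ.1 = 9 → ∀ k, 6 ≤ k → k ≤ 8 → ¬ Ap P Z F c k w f) := by
  have h2 := h.2
  refine ⟨fun h6 => ⟨h2 1 (by omega), fun j _ hb => ?_⟩, fun h9 k _ hk => h2 k (by omega)⟩
  rcases bad_kd hb with h3 | h3 | h3 | h3 | h3
  · exact h2 1 (by omega) h3.1
  · exact h2 2 (by omega) h3.1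
  · exact h2 3 (by omega) h3.1
  · exact h2 4 (by omega) h3.1
  · exact h2 5 (by omega) h3.1

/-- the kind implies the relation at its vertices -/
theorem kd_kv {c : KC} {κ : Fin 10} {i : Fin 3} (hi : i ∈ TP.vk κ) {w : Om} {f : Fin 3 → φ} (h : kdF P Z F c κ w f) :
    kvF P Z F c κ (some i) w f := by
  have h1 := h.1
  have h2 := h.2
  refine ⟨?_, kd_ext (some i) h⟩
  unfold kv0F
  by_cases hk : 2 ≤ κ.1 ∧ κ.1 ≤ 5
  · rw [if_pos hk]
    refine ⟨h2 1 (by omega), ?_⟩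
    have key : ∀ κ : Fin 10, 2 ≤ κ.1 → κ.1 ≤ 5 → κ = 2 ∨ κ = 3 ∨ κ = 4 ∨ κ = 5 := by decide
    rcases key κ hk.1 hk.2 with rfl | rfl | rfl | rfl
    · refine ⟨0, fun e => ?_, h1.1⟩
      have e' := Option.some_injective _ e
      subst e'
      exact absurd hi (by decide)
    · refine ⟨1, fun e => ?_, h1.1⟩
      have e' := Option.some_injective _ e
      subst e'
      exact absurd hi (by decide)
    · refine ⟨2, fun e => ?_, h1.1⟩
      have e' := Option.some_injective _ e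
      subst e'
      exact absurd hi (by decide)
    · have g : ∀ j k : Fin 3, j ≠ k → bad P Z F c j w f → bad P Z F c k w f → ∃ l, some l ≠ some i ∧ bad P Z F c l w f := by
        intro j k hjk hj hk
        by_cases hji : j = i
        · exact ⟨k, fun e => hjk (hji.trans (Option.some_injective _ e).symm), hk⟩
        · exact ⟨j, fun e => hji (Option.some_injective _ e), hj⟩
      rcases h1 with ⟨a, b⟩ | ⟨a, b⟩ | ⟨a, b⟩
      · exact g 0 1 (by decide) a b
      · exact g 0 2 (by decide) a b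
      · exact g 1 2 (by decide) a b
  · rw [if_neg hk]
    exact h1

/-- the kind implies the relation at the node -/
theorem kd_kn {c : KC} {κ : Fin 10} {w : Om} {f : Fin 3 → φ} (h : kdF P Z F c κ w f) : kvF P Z F c κ Option.none w f := by
  have h1 := h.1
  have h2 := h.2
  refine ⟨?_, kd_ext Option.none h⟩
  unfold kv0F
  by_cases hk : 2 ≤ κ.1 ∧ κ.1 ≤ 5
  · rw [if_pos hk]
    refine ⟨h2 1 (by omega), ?_⟩
    have key : ∀ κ : Fin 10, 2 ≤ κ.1 → κ.1 ≤ 5 → κ = 2 ∨ κ = 3 ∨ κ = 4 ∨ κ = 5 := by decide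
    rcases key κ hk.1 hk.2 with rfl | rfl | rfl | rfl
    · exact ⟨0, fun e => Option.some_ne_none _ e, h1.1⟩
    · exact ⟨1, fun e => Option.some_ne_none _ e, h1.1⟩
    · exact ⟨2, fun e => Option.some_ne_none _ e, h1.1⟩
    · rcases h1 with ⟨a, _⟩ | ⟨a, _⟩ | ⟨a, _⟩
      · exact ⟨0, fun e => Option.some_ne_none _ e, a⟩
      · exact ⟨0, fun e => Option.some_ne_none _ e, a⟩
      · exact ⟨1, fun e => Option.some_ne_none _ e, a⟩
  · rw [if_neg hk]
    exact h1

/-- the core of a vertex implies the core of the node -/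
theorem kv_kn {c : KC} {κ : Fin 10} {o : Option (Fin 3)} {w : Om} {f : Fin 3 → φ} (h : kv0F P Z F c κ o w f) :
    kv0F P Z F c κ Option.none w f := by
  unfold kv0F at h ⊢
  by_cases hk : 2 ≤ κ.1 ∧ κ.1 ≤ 5
  · rw [if_pos hk] at h ⊢
    obtain ⟨h0, j, _, h2⟩ := h
    exact ⟨h0, j, fun e => Option.some_ne_none _ e, h2⟩
  · rw [if_neg hk] at h ⊢
    exact h

/-- the relation of a vertex is contained in the kinds `2 .. 5` -/
theorem kv_kd {c : KC} {κ : Fin 10} (hk : 2 ≤ κ.1 ∧ κ.1 ≤ 5) {o : Option (Fin 3)} {w : Om} {f : Fin 3 → φ}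
    (h : kvF P Z F c κ o w f) : kdF P Z F c 2 w f ∨ kdF P Z F c 3 w f ∨ kdF P Z F c 4 w f ∨ kdF P Z F c 5 w f := by
  replace h := h.1
  unfold kv0F at h
  rw [if_pos hk] at h
  obtain ⟨h0, j, _, h2⟩ := h
  rcases bad_kd h2 with h3 | h3
  · exact absurd h3.1 h0
  · exact h3

end fr

end Pool.Agent.GMH.KF

namespace Pool.Agent.GMH.Dy

open Finset Pool.Agent.PWZ Pool.Agent.M3 Pool.Agent.GM Pool.Agent.GM.Harm Pool.Agent.GMH
open Pool.Agent.GMH.TP Pool.Agent.GMH.TD Pool.Agent.GMH.CK Pool.Agent.GMH.MV Pool.Agent.GMH.MVI Pool.Agent.GMH.UV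
open Pool.Agent.GMH.KF Pool.Agent.GMH.V3

noncomputable section

variable {X β γ φ υ : Type} [Fintype X] [Fintype β] [Fintype φ] [Nonempty X] [Nonempty β]
variable {D : HD (Fin 3) X β γ φ} {al : ℝ} (h : D.Thick al) (v : ℕ → Finset (Fin 3) → X → (Fin 3 → β) → υ)
variable {prr : ℕ → Fin 3 → φ → φ} {T : ℕ} {W : Type} [Fintype W] (tb : Tab D prr T W)

/-- all letters and pairs are typical at all states up to `q` -/
def Alv (p : AP) (q : ℕ) (w : Om W X β) : Prop := ∀ q' ≤ q, AQ h v p q' (tb.pt (q' / 5) w)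

theorem Alv_anti {p : AP} {q q' : ℕ} (hq : q' ≤ q) {w : Om W X β} (hA : Alv h v tb p q w) : Alv h v tb p q' w :=
  fun r hr => hA r (hr.trans hq)

/-- relation of the densities at the true tuple, tables of the state `q`, three tops -/
def kvq3 (c : KC) (κ : Fin 10) (o : Option (Fin 3)) (q : ℕ) (w : Om W X β) : Prop :=
  kvF (D.P h (q / 5)) (ZQ D v q) (FQ v (q / 5)) c κ o (tb.pt (q / 5) w) (tup (FQ v (q / 5)) (tb.pt (q / 5) w))

/-- the same for the two tops which see the vertex `i` -/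
def kvq2 (c : KC) (i : Fin 3) (κ : Fin 10) (o : Option (Fin 3)) (q : ℕ) (w : Om W X β) : Prop :=
  kvF (D.P h (q / 5)) (ZQ D v q) (Fo (FQ v (q / 5)) i) c κ o (tb.pt (q / 5) w)
    (tup (Fo (FQ v (q / 5)) i) (tb.pt (q / 5) w))

/-- the kind with the tables of the start `τ`, alive -/
def ka3 (p : AP) (c : KC) (κ : Fin 10) (τ : ℕ) (w : Om W X β) : Prop :=
  kd3 h v tb c κ τ w ∧ Alv h v tb p (eT v tb τ w) w

/-- the relation of the densities with the tables of the start `τ`, alive -/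
def kv3 (p : AP) (c : KC) (κ : Fin 10) (o : Option (Fin 3)) (τ : ℕ) (w : Om W X β) : Prop :=
  kvq3 h v tb c κ o (eT v tb τ w) w ∧ Alv h v tb p (eT v tb τ w) w

/-- two tops -/
def ka2 (p : AP) (c : KC) (i : Fin 3) (κ : Fin 10) (τ : ℕ) (w : Om W X β) : Prop :=
  kd2 h v tb c i κ τ w ∧ Alv h v tb p (eT v tb τ w) w

def kv2 (p : AP) (c : KC) (i : Fin 3) (κ : Fin 10) (o : Option (Fin 3)) (τ : ℕ) (w : Om W X β) : Prop :=
  kvq2 h v tb c i κ o (eT v tb τ w) w ∧ Alv h v tb p (eT v tb τ w) w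

variable {h v tb}

theorem ka3_kv {p : AP} {c : KC} {κ : Fin 10} {i : Fin 3} (hi : i ∈ vk κ) {τ : ℕ} {w : Om W X β}
    (hk : ka3 h v tb p c κ τ w) : kv3 h v tb p c κ (Option.some i) τ w := ⟨kd_kv hi hk.1, hk.2⟩

theorem ka3_kn {p : AP} {c : KC} {κ : Fin 10} {τ : ℕ} {w : Om W X β} (hk : ka3 h v tb p c κ τ w) :
    kv3 h v tb p c κ Option.none τ w := ⟨kd_kn hk.1, hk.2⟩

/-- in the frame of the vertex `i` the missing top is never bad, so every bad top is visible -/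
theorem ka2_kv {p : AP} {c : KC} {κ : Fin 10} {i j : Fin 3} (hi : j ∈ vk κ) {τ : ℕ} {w : Om W X β}
    (hk : ka2 h v tb p c i κ τ w) : kv2 h v tb p c i κ (Option.some j) τ w := ⟨kd_kv hi hk.1, hk.2⟩

theorem ka2_kn {p : AP} {c : KC} {i : Fin 3} {κ : Fin 10} {τ : ℕ} {w : Om W X β} (hk : ka2 h v tb p c i κ τ w) :
    kv2 h v tb p c i κ Option.none τ w := ⟨kd_kn hk.1, hk.2⟩

end

end Pool.Agent.GMH.Dy
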