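import Pool.Agent.GMH.RelD

/-!
# GMH/RarS (helper58): SUMS OF RARE EVENTS OVER THE ENDS (row UnmX, generic)

* `split_le`, `split_sum` : a relation of large density: its part inside `G` (alive) has density above `y / 2`, or its part
  outside `G` costs `2 / y` times its mass;
* `rare_sum` : rarity per step inside events `C q`, summed; `rare_split` : both together;
* `rare_once` : the ends of the lives of a clock: rarity of the alive part, and at most one death per point;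
* `fin_le` : the same at one time.
-/

set_option autoImplicit false
set_option linter.unusedSectionVars false

namespace Pool.Agent.GMH.RarS

open Finset Pool.Agent.PWZ Pool.Agent.M3 Pool.Agent.GMH Pool.Agent.GMH.CK

variable {Om : Type*} [Fintype Om] {P : FP Om}

/-- **one relation, inside and outside `G`** -/
theorem split_le {κ : Type*} {X : Om → κ} {E : Om → Prop} (hE : ∀ a b, X a = X b → (E a ↔ E b)) (R G : Om → Prop) {y : ℝ}
    (hy : 0 < y) :
    P.Pr (fun w => E w ∧ y < P.ce X (fun u => ind (R u)) w) ≤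
      P.Pr (fun w => E w ∧ y / 2 < P.ce X (fun u => ind (R u ∧ G u)) w) + 2 / y * P.Pr (fun w => E w ∧ R w ∧ ¬ G w) := by
  have h1 : P.Pr (fun w => E w ∧ y < P.ce X (fun u => ind (R u)) w) ≤
      P.Pr (fun w => E w ∧ y / 2 < P.ce X (fun u => ind (R u ∧ G u)) w) +
        P.Pr (fun w => E w ∧ y / 2 < P.ce X (fun u => ind (R u ∧ ¬ G u)) w) := by
    refine le_trans (P.Pr_mono fun w _ h => ?_) (P.Pr_or_le _ _)
    have h2 : P.ce X (fun u => ind (R u)) w = P.ce X (fun u => ind (R u ∧ G u)) w + P.ce X (fun u => ind (R u ∧ ¬ G u)) w := by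
      rw [← P.ce_add]
      refine congrArg (fun f => P.ce X f w) (funext fun u => ?_)
      by_cases a : R u
      · by_cases b : G u
        · rw [ind_of a, ind_of ⟨a, b⟩, ind_not (fun c : R u ∧ ¬ G u => c.2 b), add_zero]
        · rw [ind_of a, ind_not (fun c : R u ∧ G u => b c.2), ind_of ⟨a, b⟩, zero_add]
      · rw [ind_not a, ind_not (fun c : R u ∧ G u => a c.1), ind_not (fun c : R u ∧ ¬ G u => a c.1), add_zero]
    have h3 := h.2
    rw [h2] at h3
    by_cases h4 : y / 2 < P.ce X (fun u => ind (R u ∧ G u)) w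
    · exact Or.inl ⟨h.1, h4⟩
    · refine Or.inr ⟨h.1, ?_⟩
      have := not_lt.1 h4
      linarith
  have h2 : y / 2 * P.Pr (fun w => E w ∧ y / 2 < P.ce X (fun u => ind (R u ∧ ¬ G u)) w) ≤
      P.Pr (fun w => E w ∧ R w ∧ ¬ G w) := by
    have e1 : P.Pr (fun w => E w ∧ R w ∧ ¬ G w) = P.E (fun w => ind (E w) * P.ce X (fun u => ind (R u ∧ ¬ G u)) w) := by
      rw [P.E_mul_ce (Fac.ind fun x w e => hE x w e)]
      exact P.E_congr fun w _ => ind_and _ _
    rw [e1]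
    unfold FP.Pr
    rw [← FP.E_smul]
    refine P.E_mono fun w _ => ?_
    have c0 : 0 ≤ P.ce X (fun u => ind (R u ∧ ¬ G u)) w := P.ce_nonneg (fun _ _ => ind_nonneg _) w
    by_cases h : E w ∧ y / 2 < P.ce X (fun u => ind (R u ∧ ¬ G u)) w
    · rw [ind_of h, ind_of h.1, mul_one, one_mul]
      exact h.2.le
    · rw [ind_not h, mul_zero]
      exact mul_nonneg (ind_nonneg _) c0
  have h3 : P.Pr (fun w => E w ∧ y / 2 < P.ce X (fun u => ind (R u ∧ ¬ G u)) w) ≤
      2 / y * P.Pr (fun w => E w ∧ R w ∧ ¬ G w) := by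
    have h4 := mul_le_mul_of_nonneg_left h2 (show 0 ≤ 2 / y by positivity)
    refine le_trans (le_of_eq ?_) h4
    field_simp
  linarith

/-- the sum over the steps -/
theorem split_sum {κ : Type*} {X : ℕ → Om → κ} {E : ℕ → Om → Prop} (hE : ∀ q a b, X q a = X q b → (E q a ↔ E q b))
    (R G : ℕ → Om → Prop) {y : ℝ} (hy : 0 < y) (T : ℕ) :
    ∑ q ∈ range T, P.Pr (fun w => E q w ∧ y < P.ce (X q) (fun u => ind (R q u)) w) ≤
      ∑ q ∈ range T, P.Pr (fun w => E q w ∧ y / 2 < P.ce (X q) (fun u => ind (R q u ∧ G q u)) w) +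
        2 / y * ∑ q ∈ range T, P.Pr (fun w => E q w ∧ R q w ∧ ¬ G q w) := by
  rw [Finset.mul_sum, ← Finset.sum_add_distrib]
  exact Finset.sum_le_sum fun q _ => split_le (hE q) (R q) (G q) hy

/-- **rarity per step, summed** -/
theorem rare_sum {C F : ℕ → Om → Prop} {ε N : ℝ} (hε : 0 ≤ ε) {T : ℕ} (h : ∀ q < T, P.Pr (F q) ≤ ε * P.Pr (C q))
    (hN : ∑ q ∈ range T, P.Pr (C q) ≤ N) : ∑ q ∈ range T, P.Pr (F q) ≤ ε * N := by
  refine (Finset.sum_le_sum fun q hq => h q (mem_range.1 hq)).trans ?_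
  rw [← Finset.mul_sum]
  exact mul_le_mul_of_nonneg_left hN hε

/-- **rarity of the alive part, and the mass of the dead part** -/
theorem rare_split {κ : Type*} {X : ℕ → Om → κ} {E C : ℕ → Om → Prop} (hE : ∀ q a b, X q a = X q b → (E q a ↔ E q b))
    (hEC : ∀ q w, E q w → C q w) {R G : ℕ → Om → Prop} {y ε N d : ℝ} (hy : 0 < y) (hε : 0 ≤ ε) {T : ℕ}
    (hr : ∀ q < T, P.Pr (fun w => C q w ∧ y / 2 < P.ce (X q) (fun u => ind (R q u ∧ G q u)) w) ≤ ε * P.Pr (C q))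
    (hN : ∑ q ∈ range T, P.Pr (C q) ≤ N) (hd : ∑ q ∈ range T, P.Pr (fun w => E q w ∧ R q w ∧ ¬ G q w) ≤ d) :
    ∑ q ∈ range T, P.Pr (fun w => E q w ∧ y < P.ce (X q) (fun u => ind (R q u)) w) ≤ ε * N + 2 / y * d := by
  have h1 := split_sum (P := P) hE R G hy T
  have h2 : ∑ q ∈ range T, P.Pr (fun w => E q w ∧ y / 2 < P.ce (X q) (fun u => ind (R q u ∧ G q u)) w) ≤ ε * N :=
    (Finset.sum_le_sum fun q _ => P.Pr_mono fun w _ h => ⟨hEC q w h.1, h.2⟩).trans (rare_sum hε hr hN)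
  have h3 := mul_le_mul_of_nonneg_left hd (show 0 ≤ 2 / y by positivity)
  linarith

/-- **THE ENDS OF THE LIVES** : `E q` inside `C q`, an end of the life of the clock `K`; alive at the tables of the start -/
theorem rare_once {κ : Type*} {X : ℕ → Om → κ} {K : ℕ → ℕ → Om → Prop} {E C : ℕ → Om → Prop}
    (hE : ∀ q a b, X q a = X q b → (E q a ↔ E q b)) (hEC : ∀ q w, E q w → C q w)
    (hK : ∀ q w, E q w → stg K (q + 1) w = q + 1) {R G : ℕ → Om → Prop}
    (hG : ∀ w, P.p w ≠ 0 → ∀ q, G (q + 1) w → G q w) {e : ℕ → Om → ℕ} (he : ∀ w, P.p w ≠ 0 → ∀ q, stg K q w ≤ e q w)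
    (hR : ∀ w, P.p w ≠ 0 → ∀ q, R q w → G (e q w) w) {y ε N : ℝ} (hy : 0 < y) (hε : 0 ≤ ε) {T : ℕ}
    (hr : ∀ q < T, P.Pr (fun w => C q w ∧ y / 2 < P.ce (X q) (fun u => ind (R q u ∧ G q u)) w) ≤ ε * P.Pr (C q))
    (hN : ∑ q ∈ range T, P.Pr (C q) ≤ N) :
    ∑ q ∈ range T, P.Pr (fun w => E q w ∧ y < P.ce (X q) (fun u => ind (R q u)) w) ≤
      ε * N + 2 / y * P.Pr (fun w => ¬ G T w) :=
  rare_split hE hEC hy hε hr hN ((Finset.sum_le_sum fun q _ => P.Pr_mono fun w hw h =>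
    ⟨hK q w h.1, hR w hw q h.2.1, h.2.2⟩).trans (RelD.dead_once hG he T))

/-- **one time** -/
theorem fin_le {κ : Type*} {X : Om → κ} {E C : Om → Prop} (hE : ∀ a b, X a = X b → (E a ↔ E b)) (hEC : ∀ w, E w → C w)
    {R G : Om → Prop} {y ε : ℝ} (hy : 0 < y)
    (hr : P.Pr (fun w => C w ∧ y / 2 < P.ce X (fun u => ind (R u ∧ G u)) w) ≤ ε) :
    P.Pr (fun w => E w ∧ y < P.ce X (fun u => ind (R u)) w) ≤ ε + 2 / y * P.Pr (fun w => ¬ G w) := by
  have h1 := split_le (P := P) hE R G hy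
  have h2 : P.Pr (fun w => E w ∧ y / 2 < P.ce X (fun u => ind (R u ∧ G u)) w) ≤ ε :=
    (P.Pr_mono fun w _ h => ⟨hEC w h.1, h.2⟩).trans hr
  have h3 : P.Pr (fun w => E w ∧ R w ∧ ¬ G w) ≤ P.Pr (fun w => ¬ G w) := P.Pr_mono fun w _ h => h.2.2
  have h4 := mul_le_mul_of_nonneg_left h3 (show 0 ≤ 2 / y by positivity)
  linarith

end Pool.Agent.GMH.RarS
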