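import Pool.Agent.GMH.CtxN
import Pool.Agent.GMH.DynF
import Pool.Agent.GMH.RarS
import Pool.Agent.GMH.ConT0

/-!
# GMH/CtxD (helper58): THE DEAD POINTS OF THE RUN on the table space, and the final numbers of the rare sums

* `alv_of`, `dead_le` : alive at the end (`hd` of `Ctx`) gives `Alv` at all states; `P (not Alv (5 T)) ≤ 1 / x^(c0 + A)`;
* `rar_num` : `e^(-8 n^8) N + (2 / y) d ≤ x^(-K)` for all numbers `N` of ends and thresholds `y ≥ x^(-k)`, `K`, `k` fixed.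
-/

set_option autoImplicit false
set_option linter.unusedSectionVars false

namespace Pool.Agent.GMH.CX

open Finset Pool.Agent.PWZ Pool.Agent.M3 Pool.Agent.GM Pool.Agent.GM.Harm Pool.Agent.GMH Pool.Agent.GMH.NZ
open Pool.Agent.GMH.V3 Pool.Agent.GMH.TP Pool.Agent.GMH.TD Pool.Agent.GMH.Dy Pool.Agent.GMH.CTM
open Pool.Agent.GMH.MVN (pe pQ)
open Pool.Agent.GMH.CT (ix)

noncomputable section

namespace Ctx

variable (C : Ctx)

/-- **alive at the end, alive at all states** -/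
theorem alv_of {w : C.O} (hw : C.tb.Ps.p w ≠ 0) (hA : Ar C.h C.v C.p (2 * C.T) (C.tb.pt C.T w)) :
    Alv C.h C.v C.tb C.p (5 * C.T) w := by
  intro q hq
  have hA' : ∀ r ≤ 2 * C.T, ∀ t, Ar C.h C.v C.p r (C.tb.pt t w) := fun r hr t =>
    (Ar_lab C.h C.p r _ _ _ _).1 (Ar_mono C.h C.p hr hA)
  obtain ⟨t, j, hj, rfl⟩ : ∃ t j, j < 5 ∧ q = 5 * t + j := ⟨q / 5, q % 5, Nat.mod_lt _ (by norm_num), by omega⟩
  have e1 : (5 * t + j) / 5 = t := by omega
  rw [e1]
  have hs : ∀ t ≤ C.T, (C.D.P C.h t).p (C.tb.pt t w) ≠ 0 := fun t ht => (pul_pt C.h C.tb ht).ne hw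
  rcases Nat.eq_zero_or_pos j with h0 | h0
  · subst h0
    exact AQ_0 C.h C.p (hA' _ (by omega) t)
  · rcases Nat.lt_or_ge j 2 with h1 | h1
    · obtain rfl : j = 1 := by omega
      exact AQ_1 C.h C.p (hA' _ (by omega) t)
    · exact AQ_of C.h C.p h1 (by omega) (hs t (by omega)) (hA' _ (by omega) t)

/-- **the dead points** -/
theorem dead_le : C.tb.Ps.Pr (fun w => ¬ Alv C.h C.v C.tb C.p (5 * C.T) w) ≤ (pw C.Lam (C.c0 + C.A))⁻¹ := by
  refine le_trans (C.tb.Ps.Pr_mono (t := fun w => ¬ Ar C.h C.v C.p (2 * C.T) (C.tb.pt C.T w)) fun w hw h hA =>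
    h (C.alv_of hw hA)) (le_trans (le_of_eq ?_) C.hd)
  exact (pul_pt C.h C.tb le_rfl).E fun w => ind (¬ Ar C.h C.v C.p (2 * C.T) w)

end Ctx

/-- **NUMBERS OF THE RARE SUMS** -/
theorem rar_num (A k K : ℕ) : Ev (fun c0 Lam => ∀ N y d : ℝ, N ≤ 1 + Real.exp (4 * pQ Lam c0) → ix Lam k ≤ y → 0 ≤ d →
    d ≤ (pw Lam (c0 + A))⁻¹ → Real.exp (-(8 * pQ Lam c0)) * N + 2 / y * d ≤ ix Lam K) := by
  refine (Ev.ge (k + K + 8)).mono fun c0 Lam hL hc N y d hN hy hd0 hd => ?_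
  have hL0 : (0 : ℝ) < Lam := by linarith
  have i1 := CT.ix_pos hL (K + 1)
  have i0 := CT.ix_pos hL k
  -- the exponential part
  have q0 : (c0 : ℝ) * Lam + 1 ≤ pQ Lam c0 := by
    unfold MVN.pQ
    have a1 : pw Lam (8 * c0) = pw Lam (7 * c0) * pw Lam c0 := by
      rw [← CT.pw_add]
      congr 1
      omega
    have a2 : (c0 : ℝ) ≤ pw Lam c0 := CT.nat_le hL c0
    have a3 : 2 * Lam ≤ pw Lam (7 * c0) := by
      have h1 : pw Lam 1 ≤ pw Lam (7 * c0) := CT.pw_mono hL (by omega)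
      rwa [CT.pw_one'] at h1
    have a4 : (1 : ℝ) ≤ pw Lam c0 := CT.pw_ge1 hL c0
    rw [a1]
    nlinarith
  have e1 : Real.exp (-(8 * pQ Lam c0)) * N ≤ ix Lam (K + 1) := by
    have p0 : 0 ≤ pQ Lam c0 := by
      have : (0 : ℝ) ≤ c0 := Nat.cast_nonneg _
      nlinarith
    have b1 : Real.exp (-(8 * pQ Lam c0)) * N ≤ Real.exp (-(8 * pQ Lam c0)) * (2 * Real.exp (4 * pQ Lam c0)) := by
      refine mul_le_mul_of_nonneg_left (hN.trans ?_) (Real.exp_pos _).le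
      have := Real.one_le_exp (show 0 ≤ 4 * pQ Lam c0 by positivity)
      linarith
    have b2 : Real.exp (-(8 * pQ Lam c0)) * (2 * Real.exp (4 * pQ Lam c0)) = 2 * Real.exp (-(4 * pQ Lam c0)) := by
      rw [mul_left_comm, ← Real.exp_add]
      congr 2
      ring
    have b3 : (2 : ℝ) ≤ Real.exp 1 := by
      have := Real.add_one_le_exp (1 : ℝ)
      linarith
    have b4 : pw Lam (K + 1) ≤ Real.exp (((K + 1 : ℕ) : ℝ) * Lam) := MVN.pw_exp hL _
    have b5 : Real.exp (-(((K + 1 : ℕ) : ℝ) * Lam)) ≤ ix Lam (K + 1) := by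
      unfold CT.ix
      rw [Real.exp_neg]
      exact inv_anti₀ (CT.pw_pos hL _) b4
    refine b1.trans ((le_of_eq b2).trans (le_trans ?_ b5))
    calc 2 * Real.exp (-(4 * pQ Lam c0)) ≤ Real.exp 1 * Real.exp (-(4 * pQ Lam c0)) :=
          mul_le_mul_of_nonneg_right b3 (Real.exp_pos _).le
      _ = Real.exp (1 - 4 * pQ Lam c0) := by rw [← Real.exp_add]; congr 1
      _ ≤ _ := by
        refine Real.exp_le_exp.2 ?_
        have c1 : ((K + 1 : ℕ) : ℝ) * Lam ≤ (c0 : ℝ) * Lam := by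
          refine mul_le_mul_of_nonneg_right ?_ hL0.le
          exact_mod_cast (by omega : K + 1 ≤ c0)
        linarith
  -- the dead part
  have e2 : 2 / y * d ≤ ix Lam (K + 1) := by
    have hy0 : 0 < y := i0.trans_le hy
    have b1 : 2 / y ≤ 2 * pw Lam k := by
      rw [div_le_iff₀ hy0]
      have := mul_le_mul_of_nonneg_left hy (show 0 ≤ 2 * pw Lam k by have := CT.pw_pos hL k; positivity)
      rw [mul_assoc, CT.pw_ix hL] at this
      linarith
    have b2 : 2 / y * d ≤ 2 * pw Lam k * (pw Lam (c0 + A))⁻¹ := by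
      refine mul_le_mul b1 hd hd0 ?_
      have := CT.pw_pos hL k
      positivity
    refine b2.trans ?_
    have b3 : (2 : ℝ) ≤ pw Lam 1 := by
      rw [CT.pw_one']
      linarith
    have b4 : (pw Lam (c0 + A))⁻¹ ≤ ix Lam (k + 1 + (K + 1)) := inv_anti₀ (CT.pw_pos hL _) (CT.pw_mono hL (by omega))
    have b5 : 2 * pw Lam k ≤ pw Lam (k + 1) := by
      rw [CT.pw_add, mul_comm]
      exact mul_le_mul_of_nonneg_left b3 (CT.pw_pos hL k).le
    refine (mul_le_mul b5 b4 (inv_nonneg.2 (CT.pw_pos hL _).le) (CT.pw_pos hL _).le).trans (le_of_eq ?_)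
    exact CT.pw_ix_add hL (k + 1) (K + 1)
  have e3 : 2 * ix Lam (K + 1) ≤ ix Lam K := by
    rw [CT.ix_add]
    have h1 : ix Lam 1 ≤ 1 / 2 := by
      unfold CT.ix
      rw [CT.pw_one', one_div]
      exact inv_anti₀ (by norm_num) (by linarith)
    have h2 := CT.ix_pos hL K
    nlinarith
  linarith

end

end Pool.Agent.GMH.CX
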