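import Pool.Agent.GMH.ClsM
import Pool.Agent.GMH.CtxD
import Pool.Agent.GMH.ConT3

/-!
# GMH/ClsC (helper7): THE CLASS MASSES OF THE OLD RELATIONS OVER `Ctx`, with numbers

* `hf c` : the halved thresholds; `qK_hf : qK (hf c) ≤ qK c`; `gap_hf`;
* `mov_num` : the moved and listed masses `e^(4 Lam) (kb + k0) + k0 ≤ x^(-K)` (all runs with large `c0`);
* **`cls_all`** : for thresholds `c` of the rounds (`KcB`), `R0B` at `hf c`: the masses of the relations `SR fr p c κ o` of the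
  life at the exact vertex, of the life of the public start at the node, of the public relation at the node, at every state
  `q ≤ 5 T`, are at most `x^(-K) + bK r0 (hf c) κ` (last: light levels, class of `5 (t + 1)`); `bK_one` : `bK = r0` for `κ ≤ 1`; `bK_two` : `bK ≤ r0 + 4^5 x^(-q)`, `q` of the
  round of `κ ≥ 2`.
-/

set_option autoImplicit false
set_option linter.unusedSectionVars false

namespace Pool.Agent.GMH.CLM

open Finset Pool.Agent.PWZ Pool.Agent.M3 Pool.Agent.GM Pool.Agent.GM.Harm Pool.Agent.GMH Pool.Agent.GMH.NZ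
open Pool.Agent.GMH.V3 Pool.Agent.GMH.TP Pool.Agent.GMH.TD Pool.Agent.GMH.Dy Pool.Agent.GMH.MV Pool.Agent.GMH.MVI
open Pool.Agent.GMH.KF Pool.Agent.GMH.ExK Pool.Agent.GMH.CTM Pool.Agent.GMH.CX
open Pool.Agent.GMH.MVN (pe pQ)
open Pool.Agent.GMH.CT (ix)

noncomputable section

/-- halved thresholds -/
def hf (c : KC) : KC := { c with e1 := c.e1 / 2, e2 := c.e2 / 2, e3 := c.e3 / 2, dH := c.dH / 2 }

theorem qK_hf {c : KC} (h1 : 0 ≤ c.e1) (h2 : 0 < c.e2) (h3 : 0 < c.e3) (hd : 0 < c.dH) : qK (hf c) ≤ qK c := by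
  unfold qK hf
  dsimp only
  have e2 : 2 / (c.e2 / 2) = 2 * (2 / c.e2) := by field_simp
  have e3 : 1 / (c.e3 / 2) = 2 * (1 / c.e3) := by field_simp
  have ed : 1 / (c.dH / 2) = 2 * (1 / c.dH) := by field_simp
  rw [e2, e3, ed]
  nlinarith

theorem gap_hf {c : KC} {η : ℝ} (k : ℕ) (h1 : 2 * η ≤ c.e1) (h2 : 2 * η ≤ c.e2) (h3 : 2 * η ≤ c.e3) (hd : 4 * η ≤ c.dH)
    (hd1 : c.dH ≤ 1) (hd0 : 0 ≤ c.dH) : Gap η c (hf c) k :=
  ⟨fun _ => by show c.e1 / 2 + η ≤ c.e1; linarith, fun _ _ => by show c.e2 / 2 + η ≤ c.e2; linarith,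
    fun _ _ => by show c.e3 / 2 + η ≤ c.e3; linarith,
    fun _ _ => ⟨by show c.dH / 2 + 2 * η ≤ c.dH; linarith, hd1, by show 0 ≤ c.dH / 2; linarith⟩⟩

/-- the exponent of the clocks is large -/
theorem pe_ge (ka K : ℕ) : Ev (fun c0 Lam => (K : ℝ) * Lam ≤ pe Lam ka c0) := by
  refine (Ev.ge (ka + K + 1)).mono fun c0 Lam hL hc => ?_
  unfold MVN.pe
  have h1 : pw Lam c0 = pw Lam (c0 - ka) * pw Lam ka := by
    rw [← CT.pw_add]
    congr 1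
    omega
  rw [h1, mul_div_cancel_right₀ _ (CT.pw_pos hL ka).ne']
  have h2 : (K : ℝ) ≤ pw Lam K := CT.nat_le hL K
  have h3 : Lam ≤ pw Lam 1 := CT.Lam_le hL
  have h4 : (K : ℝ) * Lam ≤ pw Lam (K + 1) := CT.mul_pw hL (by linarith) h2 h3
  exact h4.trans (CT.pw_mono hL (by omega))

theorem exp_ix {Lam : ℝ} (hL : 2 ≤ Lam) (K : ℕ) : Real.exp (-((K : ℝ) * Lam)) ≤ ix Lam K := by
  unfold CT.ix
  rw [Real.exp_neg]
  exact inv_anti₀ (CT.pw_pos hL _) (MVN.pw_exp hL K)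

theorem pQ_pe {Lam : ℝ} (hL : 2 ≤ Lam) (ka c0 : ℕ) : pe Lam ka c0 ≤ pQ Lam c0 := by
  unfold MVN.pe MVN.pQ
  refine (div_le_self (CT.pw_pos hL c0).le (CT.pw_ge1 hL ka)).trans (CT.pw_mono hL (by omega))

/-- **THE MOVED AND THE LISTED MASSES** -/
theorem mov_num (ka K : ℕ) : Ev (fun c0 Lam => Real.exp (4 * Lam) * (MVN.kb Lam ka c0 + MVN.d0 Lam c0) + MVN.d0 Lam c0 ≤
    ix Lam K) := by
  refine (pe_ge ka (K + 2 + 4)).mono fun c0 Lam hL hp => ?_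
  have hq := pQ_pe hL ka c0
  have b1 : MVN.kb Lam ka c0 = Real.exp (-pe Lam ka c0) := rfl
  have b2 : MVN.d0 Lam c0 ≤ Real.exp (-pe Lam ka c0) := Real.exp_le_exp.2 (neg_le_neg hq)
  have b3 : Real.exp (4 * Lam) * Real.exp (-pe Lam ka c0) ≤ ix Lam (K + 2) := by
    rw [← Real.exp_add]
    refine le_trans (Real.exp_le_exp.2 ?_) (exp_ix hL (K + 2))
    push_cast at hp ⊢
    linarith
  have b4 : Real.exp (-pe Lam ka c0) ≤ Real.exp (4 * Lam) * Real.exp (-pe Lam ka c0) := by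
    have h1 := Real.one_le_exp (show 0 ≤ 4 * Lam by linarith)
    have h2 := (Real.exp_pos (-pe Lam ka c0)).le
    nlinarith
  have b5 : Real.exp (4 * Lam) * MVN.d0 Lam c0 ≤ Real.exp (4 * Lam) * Real.exp (-pe Lam ka c0) :=
    mul_le_mul_of_nonneg_left b2 (Real.exp_pos _).le
  have b6 : 4 * ix Lam (K + 2) ≤ ix Lam K := by
    have := CT.cst_ix hL (c := 4) (j := 1) (s := K) (by norm_num)
    refine le_trans (mul_le_mul_of_nonneg_left (CT.ix_anti hL (show 1 + K ≤ K + 2 by omega)) (by norm_num)) this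
  have b7 := CT.ix_nn hL (K + 2)
  rw [mul_add, b1]
  linarith

/-- small clock constants against the thresholds -/
theorem d_num (ka K : ℕ) : Ev (fun c0 Lam => 8000 * MVN.d1 Lam ka c0 ≤ ix Lam K ∧ 16000 * MVN.d0 Lam c0 ≤ ix Lam K) := by
  refine (pe_ge ka (K + 7)).mono fun c0 Lam hL hp => ?_
  have hq := pQ_pe hL ka c0
  have hp0 : 0 ≤ pe Lam ka c0 := by
    have : (0 : ℝ) ≤ ((K + 7 : ℕ) : ℝ) * Lam := mul_nonneg (Nat.cast_nonneg _) (by linarith)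
    linarith
  have b1 : MVN.d1 Lam ka c0 ≤ Real.exp (-pe Lam ka c0) := Real.exp_le_exp.2 (by linarith)
  have b2 : MVN.d0 Lam c0 ≤ Real.exp (-pe Lam ka c0) := Real.exp_le_exp.2 (neg_le_neg hq)
  have b3 : Real.exp (-pe Lam ka c0) ≤ ix Lam (K + 7) := (Real.exp_le_exp.2 (neg_le_neg hp)).trans (exp_ix hL (K + 7))
  have b4 : 16000 * ix Lam (K + 7) ≤ ix Lam K := by
    have := CT.cst_ix hL (c := 16000) (j := 7) (s := K) (by norm_num)
    rwa [add_comm 7 K] at this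
  have b5 := CT.ix_nn hL (K + 7)
  constructor <;> linarith

theorem bK_one {r0 : ℝ} {c : KC} {κ : Fin 10} (h : κ.1 ≤ 1) : bK r0 c κ = r0 := by
  unfold bK
  rw [if_pos h, add_zero]

theorem bK_two {RR : CT.Rounds} {Lam r0 : ℝ} (hL : 2 ≤ Lam) {c : KC} (hc : CT.KcB RR Lam c) {κ : Fin 10} (h : 2 ≤ κ.1) :
    bK r0 (hf c) κ ≤ r0 + 4 ^ 5 * ix Lam (CT.rd RR κ.1).q := by
  unfold bK
  rw [if_neg (by omega)]
  have h1 := qK_hf (hc.p1 hL).le (hc.p2 hL) (hc.p3 hL) (hc.pd hL)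
  have h2 : CT.rd RR κ.1 ∈ [RR.HT, RR.H, RR.G] := by
    unfold CT.rd
    rw [if_neg (by omega)]
    split_ifs <;> simp
  have h3 := hc.qK_le' hL h2
  have h4 := CT.ix_nn hL (CT.rd RR κ.1).q
  linarith

/-- **THE CLASS MASSES OVER `Ctx`** -/
theorem cls_all (A ka : ℕ) (RR : CT.Rounds) (K : ℕ) : AllC A (fun C => ∀ c, CT.KcB RR C.Lam c → c.dH ≤ 1 → ∀ r0,
    R0B C.v C.h C.tb C.p (hf c) r0 → ∀ (κ : Fin 10) (fr o : Option (Fin 3)), ∀ q ≤ 5 * C.T, ∀ w, C.tb.Ps.p w ≠ 0 →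
      (∀ i, C.tb.Ps.ce (CN (C.M ka) i q) (fun u => ind (SR C.h C.v C.tb fr C.p c κ o (tauS (C.M ka) i q u) u ∧
        Alv C.h C.v C.tb C.p q u)) w ≤ ix C.Lam K + bK r0 (hf c) κ) ∧
      (∀ i, C.tb.Ps.ce (NPo C.tb C.v q) (fun u => ind (SR C.h C.v C.tb fr C.p c κ o (tauS (C.M ka) i (MV.nu (C.M ka) q u) u) u ∧
        Alv C.h C.v C.tb C.p q u)) w ≤ ix C.Lam K + bK r0 (hf c) κ) ∧
      C.tb.Ps.ce (NPo C.tb C.v q) (fun u => ind (SR C.h C.v C.tb fr C.p c κ o (MV.nu (C.M ka) q u) u ∧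
        Alv C.h C.v C.tb C.p q u)) w ≤ ix C.Lam K + bK r0 (hf c) κ ∧
      (ltL C.v C.tb q w → ∀ i, C.tb.Ps.ce (CN (C.M ka) i (5 * (q / 5) + 5)) (fun u => ind (SR C.h C.v C.tb fr C.p c κ o
        (tauS (C.M ka) i q u) u ∧ Alv C.h C.v C.tb C.p q u)) w ≤ bK r0 (hf c) κ)) := by
  refine (((AllC.of_Ev (mov_num ka K)).and (AllC.of_Ev (d_num ka (RR.eta1 + RR.eta2 + RR.eta3 + RR.kd + 1))))).mono
    fun C hh c hc hd1 r0 hr κ fr o q hq w hw => ?_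
  obtain ⟨n1, n2, n3⟩ := hh
  have hL := C.hL
  have p1 := hc.p1 hL
  have p2 := hc.p2 hL
  have p3 := hc.p3 hL
  have pd := hc.pd hL
  have hj : ∀ j ≤ RR.eta1 + RR.eta2 + RR.eta3 + RR.kd + 1, ix C.Lam (RR.eta1 + RR.eta2 + RR.eta3 + RR.kd + 1) ≤ ix C.Lam j :=
    fun j hj => CT.ix_anti hL hj
  have g1 : ∀ η, 4 * η ≤ ix C.Lam (RR.eta1 + RR.eta2 + RR.eta3 + RR.kd + 1) → 0 ≤ η → Gap η c (hf c) κ.1 := by
    intro η h4 h0
    refine gap_hf κ.1 ?_ ?_ ?_ ?_ hd1 pd.le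
    · have := hj RR.eta1 (by omega)
      linarith [hc.l1]
    · have := hj RR.eta2 (by omega)
      linarith [hc.l2]
    · have := hj RR.eta3 (by omega)
      linarith [hc.l3]
    · have := hj RR.kd (by omega)
      linarith [hc.ld]
  have d1p := C.d1_pos ka
  have d0p := C.d0_pos
  have hx1 : ix C.Lam (RR.eta1 + RR.eta2 + RR.eta3 + RR.kd + 1) ≤ 1 := CT.ix_le_one hL _
  have gA : Gap (2000 * MVN.d1 C.Lam ka C.c0) c (hf c) κ.1 := g1 _ (by linarith) (by positivity)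
  have gB : Gap (4000 * MVN.d0 C.Lam C.c0) c (hf c) κ.1 := g1 _ (by linarith) (by positivity)
  have hS : ∀ l : Fin 3, univ.erase l ∈ SS1 (Fin 3) := fun l => mem_SS1.2 (Finset.erase_ne_self.2 (mem_univ l))
  have hU : (univ : Finset (Fin 3)) ∉ SS1 (Fin 3) := fun hh => (mem_SS1.1 hh) rfl
  have hN : ∀ l : Fin 3, 0 < pr3 (Fin 3) (pw C.Lam C.c0) (pw C.Lam (c1F C.A C.c0)) (univ.erase l) := fun l =>
    zero_lt_one.trans_le (pr3_one C.n1 C.N11 _)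
  have m1 : (hf c).e1 ≤ c.e1 := by show c.e1 / 2 ≤ c.e1; linarith
  have m2 : (hf c).e2 ≤ c.e2 := by show c.e2 / 2 ≤ c.e2; linarith
  have m3 : (hf c).e3 ≤ c.e3 := by show c.e3 / 2 ≤ c.e3; linarith
  have md : (hf c).dH ≤ c.dH := by show c.dH / 2 ≤ c.dH; linarith
  have s1 : 0 ≤ (hf c).e1 := by show 0 ≤ c.e1 / 2; linarith
  have s2 : 0 < (hf c).e2 := by show 0 < c.e2 / 2; linarith
  have s3 : 0 < (hf c).e3 := by show 0 < c.e3 / 2; linarith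
  have sd : 0 < (hf c).dH := by show 0 < c.dH / 2; linarith
  have ek : 0 ≤ Real.exp (4 * C.Lam) * MVN.kb C.Lam ka C.c0 := mul_nonneg (Real.exp_pos _).le (C.kb_pos ka).le
  have e0 : 0 ≤ Real.exp (4 * C.Lam) * MVN.d0 C.Lam C.c0 := mul_nonneg (Real.exp_pos _).le d0p.le
  rw [mul_add] at n1
  refine ⟨fun i => ?_, fun i => ?_, ?_, fun hl i => cls_vL C.tb (C.d1_pos ka) (C.d1_le ka) (C.kb_pos ka) C.d0_pos C.d0_le
    C.d0_pos C.p1_pos (C.z_pos ka) C.H C.R hS hU hN m1 m2 m3 md s1 s2 s3 sd hr hq i fr o hw hl⟩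
  · have := cls_v C.tb (C.d1_pos ka) (C.d1_le ka) (C.kb_pos ka) C.d0_pos C.d0_le C.d0_pos C.p1_pos (C.z_pos ka) C.H C.R hS hU hN
      (by linarith) gA m1 m2 m3 md s1 s2 s3 sd hr hq i fr o hw
    refine this.trans (add_le_add ?_ le_rfl)
    linarith
  · have := cls_n C.tb (C.d1_pos ka) (C.d1_le ka) (C.kb_pos ka) C.d0_pos C.d0_le C.d0_pos C.p1_pos (C.z_pos ka) C.H C.R hS hU hN
      (by linarith) gA m1 m2 m3 md s1 s2 s3 sd hr hq i fr o hw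
    refine this.trans ?_
    linarith
  · have := cls_0 C.tb (C.d1_pos ka) (C.d1_le ka) (C.kb_pos ka) C.d0_pos C.d0_le C.d0_pos C.p1_pos (C.z_pos ka) C.H C.R hS hU hN
      (by linarith) gB m1 m2 m3 md s1 s2 s3 sd hr hq fr o hw
    refine this.trans (add_le_add ?_ le_rfl)
    linarith

end

end Pool.Agent.GMH.CLM
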