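import Pool.Agent.GMH.ExitQ
import Pool.Agent.GMH.DynF

/-!
# GMH/ExitV (helper99): THE EXITS FOR THE RELATIONS OF THE DENSITIES (row C6, kinds of GMH/DynF)

* `cv fr c κ o q` : core of the relation `kvF c κ o` of the true tuple, tables of the state `q`, in the frame `fr` (`none` :
  three tops, `some i` : the two tops which see the vertex `i`); `kvq3_cv`, `kvq2_cv`;
* `SR fr p c κ o τ` : **the relation of the STAYS** : core with the tables of the start `τ` (RULE L), alive; `SR_kd3`, `SR_kd2` :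
  it is contained in the union of the kinds up to `max κ 5`, alive; `kv3_SR`, `kv2_SR`;
* `alive_five` : the alive part of the tables is lost at most five times;
* **`exit_sum`** : for any events `R q` (removals) which imply the core at the state `q` with thresholds `c` and alive (or the
  stay): the sum over `q` of `P (R q, not SR c' at q + 1)` is at most `180000 Lam/e^2 + 5`.
-/

set_option autoImplicit false
set_option linter.unusedSectionVars false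

namespace Pool.Agent.GMH.ExK

open Finset Pool.Agent.PWZ Pool.Agent.M3 Pool.Agent.GMH Pool.Agent.GMH.Exit3 Pool.Agent.GMH.KF
open Pool.Agent.GM Pool.Agent.GM.Harm Pool.Agent.GMH.NZ Pool.Agent.GMH.TP Pool.Agent.GMH.V3 Pool.Agent.GMH.Dy

noncomputable section

variable {X β γ φ : Type} [Fintype X] [Fintype β] [Fintype φ] [Nonempty X] [Nonempty β]
variable {D : HD (Fin 3) X β γ φ} {al : ℝ} (h : D.Thick al)
  (v : ℕ → Finset (Fin 3) → X → (Fin 3 → β) → Pt (Fin 3) X β φ)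
variable {dg : ℕ → X → ℝ} {prr : ℕ → Fin 3 → φ → φ} {T : ℕ} {Lam : ℝ} {W : Type} [Fintype W] (tb : Tab D prr T W)

/-- core of the relation of the densities, tables of the state `q` -/
def cv (fr : Option (Fin 3)) (c : KC) (κ : Fin 10) (o : Option (Fin 3)) (q : ℕ) (w : Om W X β) : Prop :=
  if 2 ≤ κ.1 ∧ κ.1 ≤ 5 then ∃ j : Fin 3, some j ≠ o ∧ ck h v tb fr c (j.1 + 2) q w else ck h v tb fr c κ.1 q w

/-- **the relation of the stays** -/
def SR (fr : Option (Fin 3)) (p : AP) (c : KC) (κ : Fin 10) (o : Option (Fin 3)) (τ : ℕ) (w : Om W X β) : Prop :=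
  cv h v tb fr c κ o (eT v tb τ w) w ∧ Alv h v tb p (eT v tb τ w) w

variable {h v tb}

theorem co_bad {Om' υ' φ' : Type*} [Fintype Om'] {P : FP Om'} {Z : Om' → υ'} {F : Fin 3 → Om' → φ'} {c : KC} (j : Fin 3)
    {w : Om'} {f : Fin 3 → φ'} : co P Z F c (j.1 + 2) w f ↔ bad P Z F c j w f := by
  unfold co
  fin_cases j <;> simp

theorem co_Ap {Om' υ' φ' : Type*} [Fintype Om'] {P : FP Om'} {Z : Om' → υ'} {F : Fin 3 → Om' → φ'} {c : KC} {k : ℕ}
    (hk : ¬ (2 ≤ k ∧ k ≤ 4)) {w : Om'} {f : Fin 3 → φ'} : co P Z F c k w f ↔ Ap P Z F c k w f := by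
  unfold co
  rw [if_neg (by omega), if_neg (by omega), if_neg (by omega)]

theorem kvq3_cv {c : KC} {κ : Fin 10} {o : Option (Fin 3)} {q : ℕ} {w : Om W X β} (hk : kvq3 h v tb c κ o q w) :
    cv h v tb Option.none c κ o q w := by
  replace hk := hk.1
  unfold kv0F at hk
  unfold cv
  by_cases h1 : 2 ≤ κ.1 ∧ κ.1 ≤ 5
  · rw [if_pos h1] at hk ⊢
    obtain ⟨_, j, h2, h3⟩ := hk
    exact ⟨j, h2, (co_bad j).2 h3⟩
  · rw [if_neg h1] at hk ⊢
    exact (co_Ap (by omega)).2 hk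

theorem kvq2_cv {c : KC} {i : Fin 3} {κ : Fin 10} {o : Option (Fin 3)} {q : ℕ} {w : Om W X β}
    (hk : kvq2 h v tb c i κ o q w) : cv h v tb (Option.some i) c κ o q w := by
  replace hk := hk.1
  unfold kv0F at hk
  unfold cv
  by_cases h1 : 2 ≤ κ.1 ∧ κ.1 ≤ 5
  · rw [if_pos h1] at hk ⊢
    obtain ⟨_, j, h2, h3⟩ := hk
    exact ⟨j, h2, (co_bad j).2 h3⟩
  · rw [if_neg h1] at hk ⊢
    exact (co_Ap (by omega)).2 hk

/-- smaller thresholds -/
theorem cv_mono {fr : Option (Fin 3)} {c c' : KC} {κ : Fin 10} {o : Option (Fin 3)} {q : ℕ} {w : Om W X β}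
    (h1 : c'.e1 ≤ c.e1) (h2 : c'.e2 ≤ c.e2) (h3 : c'.e3 ≤ c.e3) (hd : c'.dH ≤ c.dH)
    (hc : cv h v tb fr c κ o q w) : cv h v tb fr c' κ o q w := by
  have hm : ∀ k, ck h v tb fr c k q w → ck h v tb fr c' k q w := fun k hk => by
    cases fr with
    | none => exact co_mono h1 h2 h3 hd hk
    | some i => exact co_mono h1 h2 h3 hd hk
  unfold cv at hc ⊢
  split_ifs at hc ⊢
  · obtain ⟨j, a, b⟩ := hc
    exact ⟨j, a, hm _ b⟩
  · exact hm _ hc

theorem kv3_SR {p : AP} {c c' : KC} (h1 : c'.e1 ≤ c.e1) (h2 : c'.e2 ≤ c.e2) (h3 : c'.e3 ≤ c.e3) (hd : c'.dH ≤ c.dH)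
    {κ : Fin 10} {o : Option (Fin 3)} {τ : ℕ} {w : Om W X β} (hk : kv3 h v tb p c κ o τ w) :
    SR h v tb Option.none p c' κ o τ w := ⟨cv_mono h1 h2 h3 hd (kvq3_cv hk.1), hk.2⟩

theorem kv2_SR {p : AP} {c c' : KC} (h1 : c'.e1 ≤ c.e1) (h2 : c'.e2 ≤ c.e2) (h3 : c'.e3 ≤ c.e3) (hd : c'.dH ≤ c.dH)
    {i : Fin 3} {κ : Fin 10} {o : Option (Fin 3)} {τ : ℕ} {w : Om W X β} (hk : kv2 h v tb p c i κ o τ w) :
    SR h v tb (Option.some i) p c' κ o τ w := ⟨cv_mono h1 h2 h3 hd (kvq2_cv hk.1), hk.2⟩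

/-- **the stays are in the kinds up to `max κ 5`, three tops** -/
theorem SR_kd3 {p : AP} {c : KC} {κ : Fin 10} {o : Option (Fin 3)} {τ : ℕ} {w : Om W X β}
    (hs : SR h v tb Option.none p c κ o τ w) : ∃ j : Fin 10, (j ≤ κ ∨ j ≤ 5) ∧ ka3 h v tb p c j τ w := by
  obtain ⟨h1, h2⟩ := hs
  unfold cv at h1
  have key : ∀ k : Fin 10, ck h v tb Option.none c k.1 (eT v tb τ w) w → (k ≤ κ ∨ k ≤ 5) →
      ∃ j : Fin 10, (j ≤ κ ∨ j ≤ 5) ∧ ka3 h v tb p c j τ w := fun k hk hl => by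
    obtain ⟨j, h3, h4⟩ := co_kd _ hk
    refine ⟨j, ?_, h4, h2⟩
    rcases h3 with h3 | h3
    · exact hl.imp (fun h => h3.trans h) fun h => h3.trans h
    · exact Or.inr h3
  split_ifs at h1 with hk
  · obtain ⟨j, _, h3⟩ := h1
    have hj : j.1 + 2 ≤ 4 := by omega
    exact key ⟨j.1 + 2, by omega⟩ h3 (Or.inr (by rw [Fin.le_def]; show j.1 + 2 ≤ 5; omega))
  · exact key κ h1 (Or.inl le_rfl)

/-- the same for two tops -/
theorem SR_kd2 {p : AP} {c : KC} {i : Fin 3} {κ : Fin 10} {o : Option (Fin 3)} {τ : ℕ} {w : Om W X β}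
    (hs : SR h v tb (Option.some i) p c κ o τ w) : ∃ j : Fin 10, (j ≤ κ ∨ j ≤ 5) ∧ ka2 h v tb p c i j τ w := by
  obtain ⟨h1, h2⟩ := hs
  unfold cv at h1
  have key : ∀ k : Fin 10, ck h v tb (Option.some i) c k.1 (eT v tb τ w) w → (k ≤ κ ∨ k ≤ 5) →
      ∃ j : Fin 10, (j ≤ κ ∨ j ≤ 5) ∧ ka2 h v tb p c i j τ w := fun k hk hl => by
    obtain ⟨j, h3, h4⟩ := co_kd _ hk
    refine ⟨j, ?_, h4, h2⟩
    rcases h3 with h3 | h3
    · exact hl.imp (fun h => h3.trans h) fun h => h3.trans h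
    · exact Or.inr h3
  split_ifs at h1 with hk
  · obtain ⟨j, _, h3⟩ := h1
    have hj : j.1 + 2 ≤ 4 := by omega
    exact key ⟨j.1 + 2, by omega⟩ h3 (Or.inr (by rw [Fin.le_def]; show j.1 + 2 ≤ 5; omega))
  · exact key κ h1 (Or.inl le_rfl)

variable (h tb)

/-- **exits of the cores of the relations** -/
theorem exit_cv {n N1 : ℝ} (H : D.Hyp dg prr al T Lam) (R : Run h (pr3 (Fin 3) n N1) (SS1 (Fin 3)) (AdmDep D) v)
    (hn : 1 ≤ n) (hN1 : 1 ≤ N1) (fr : Option (Fin 3)) {c c' : KC} {κ : Fin 10} (o : Option (Fin 3)) {e : ℝ} (e0 : 0 < e)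
    (hg : Gap e c c' κ.1) :
    ∑ q ∈ range (5 * T), tb.Ps.Pr (fun w => cv h v tb fr c κ o q w ∧ ¬ cv h v tb fr c' κ o (eT v tb (q + 1) w) w) ≤
      180000 * Lam / e ^ 2 := by
  have hL := H.Lam1
  by_cases hk : 2 ≤ κ.1 ∧ κ.1 ≤ 5
  · have hg' : ∀ j : Fin 3, Gap e c c' (j.1 + 2) := fun j =>
      ⟨fun e => by omega, fun _ _ => hg.g2 hk.1 hk.2, fun e => by omega, fun e => by omega⟩
    have h1 : ∀ q ∈ range (5 * T), tb.Ps.Pr (fun w => cv h v tb fr c κ o q w ∧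
        ¬ cv h v tb fr c' κ o (eT v tb (q + 1) w) w) ≤
        ∑ j : Fin 3, tb.Ps.Pr (fun w => ck h v tb fr c (j.1 + 2) q w ∧
          ¬ ck h v tb fr c' (j.1 + 2) (eT v tb (q + 1) w) w) := by
      intro q _
      refine (tb.Ps.Pr_mono fun w _ hw => ?_).trans (tb.Ps.Pr_ex_le univ fun (j : Fin 3) w =>
        ck h v tb fr c (j.1 + 2) q w ∧ ¬ ck h v tb fr c' (j.1 + 2) (eT v tb (q + 1) w) w)
      obtain ⟨h2, h3⟩ := hw
      unfold cv at h2 h3
      rw [if_pos hk] at h2 h3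
      obtain ⟨j, h4, h5⟩ := h2
      exact ⟨j, mem_univ j, h5, fun h6 => h3 ⟨j, h4, h6⟩⟩
    refine (Finset.sum_le_sum h1).trans ?_
    rw [Finset.sum_comm]
    refine (Finset.sum_le_card_nsmul _ _ _ fun j _ => exit_eT h tb H R hn hN1 fr e0 (hg' j)).trans ?_
    rw [nsmul_eq_mul, Finset.card_univ, Fintype.card_fin]
    apply le_of_eq
    push_cast
    ring
  · have h1 := exit_eT h tb H R hn hN1 fr (k := κ.1) e0 hg
    have h2 : ∀ (c : KC) q w, cv h v tb fr c κ o q w ↔ ck h v tb fr c κ.1 q w := fun c q w => by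
      unfold cv
      rw [if_neg hk]
    simp only [h2]
    refine h1.trans (div_le_div_of_nonneg_right ?_ (by positivity))
    linarith

variable {h tb}

/-- the alive part is lost at most five times -/
theorem alive_five {p : AP} (S : ℕ) (w : Om W X β) :
    ∑ q ∈ range S, ind (Alv h v tb p q w ∧ ¬ Alv h v tb p (eT v tb (q + 1) w) w) ≤ 5 := by
  classical
  have h0 : ∀ q, (Alv h v tb p q w ∧ ¬ Alv h v tb p (eT v tb (q + 1) w) w) →
      ¬ Alv h v tb p (q + 5) w := fun q hq h1 => hq.2 (Alv_anti h v tb (by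
    rcases eT_succ tb q w (v := v) with h2 | h2
    · rw [h2]; omega
    · rw [h2]; omega) h1)
  by_cases hex : ∃ q, ¬ Alv h v tb p q w
  · set q0 := Nat.find hex with hq0
    have h1 : ∀ q, (Alv h v tb p q w ∧ ¬ Alv h v tb p (eT v tb (q + 1) w) w) → q ∈ Finset.Ico (q0 - 5) q0 := by
      intro q hq
      rw [Finset.mem_Ico]
      constructor
      · have := Nat.find_min' hex (h0 q hq)
        omega
      · by_contra hc
        exact Nat.find_spec hex (Alv_anti h v tb (not_lt.1 hc) hq.1)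
    have h2 : ∑ q ∈ range S, ind (Alv h v tb p q w ∧ ¬ Alv h v tb p (eT v tb (q + 1) w) w) ≤
        ∑ q ∈ Finset.Ico (q0 - 5) q0, (1 : ℝ) := by
      have h3 : ∑ q ∈ range S, ind (Alv h v tb p q w ∧ ¬ Alv h v tb p (eT v tb (q + 1) w) w) ≤
          ∑ q ∈ range S, if q ∈ Finset.Ico (q0 - 5) q0 then (1 : ℝ) else 0 := by
        refine Finset.sum_le_sum fun q _ => ?_
        by_cases hq : Alv h v tb p q w ∧ ¬ Alv h v tb p (eT v tb (q + 1) w) w
        · rw [ind_of hq, if_pos (h1 q hq)]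
        · rw [ind_not hq]
          split_ifs
          · exact zero_le_one
          · exact le_rfl
      refine h3.trans ?_
      rw [← Finset.sum_filter]
      exact Finset.sum_le_sum_of_subset_of_nonneg (fun q hq => (Finset.mem_filter.1 hq).2) fun _ _ _ => zero_le_one
    refine h2.trans ?_
    rw [Finset.sum_const, Nat.card_Ico, nsmul_eq_mul, mul_one]
    have : q0 - (q0 - 5) ≤ 5 := by omega
    exact_mod_cast this
  · push Not at hex
    rw [Finset.sum_eq_zero fun q _ => ind_not fun hq => hq.2 (hex _)]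
    norm_num

variable (h tb)

/-- **THE EXITS AT THE REMOVALS** -/
theorem exit_sum {n N1 : ℝ} (H : D.Hyp dg prr al T Lam) (R : Run h (pr3 (Fin 3) n N1) (SS1 (Fin 3)) (AdmDep D) v)
    (hn : 1 ≤ n) (hN1 : 1 ≤ N1) (fr : Option (Fin 3)) (p : AP) {c c' : KC} {κ : Fin 10} (o : Option (Fin 3)) {e : ℝ}
    (e0 : 0 < e) (hg : Gap e c c' κ.1) {Rm : ℕ → Om W X β → Prop}
    (hR : ∀ q w, tb.Ps.p w ≠ 0 → Rm q w → (cv h v tb fr c κ o q w ∧ Alv h v tb p q w) ∨ SR h v tb fr p c' κ o (q + 1) w) :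
    ∑ q ∈ range (5 * T), tb.Ps.Pr (fun w => Rm q w ∧ ¬ SR h v tb fr p c' κ o (q + 1) w) ≤
      180000 * Lam / e ^ 2 + 5 := by
  have h1 : ∀ q ∈ range (5 * T), tb.Ps.Pr (fun w => Rm q w ∧ ¬ SR h v tb fr p c' κ o (q + 1) w) ≤
      tb.Ps.Pr (fun w => cv h v tb fr c κ o q w ∧ ¬ cv h v tb fr c' κ o (eT v tb (q + 1) w) w) +
      tb.Ps.Pr (fun w => Alv h v tb p q w ∧ ¬ Alv h v tb p (eT v tb (q + 1) w) w) := by
    intro q _
    refine (tb.Ps.Pr_mono fun w hw hh => ?_).trans (tb.Ps.Pr_or_le _ _)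
    obtain ⟨a, b⟩ := hh
    rcases hR q w hw a with ⟨c1, c2⟩ | c1
    · by_cases h2 : cv h v tb fr c' κ o (eT v tb (q + 1) w) w
      · exact Or.inr ⟨c2, fun h3 => b ⟨h2, h3⟩⟩
      · exact Or.inl ⟨c1, h2⟩
    · exact absurd c1 b
  refine (Finset.sum_le_sum h1).trans ?_
  rw [Finset.sum_add_distrib]
  refine add_le_add (exit_cv h tb H R hn hN1 fr o e0 hg) ?_
  unfold FP.Pr
  rw [← tb.Ps.E_sum]
  exact tb.Ps.E_le_const fun w _ => alive_five (5 * T) w

end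

end Pool.Agent.GMH.ExK
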