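import Pool.Agent.GMH.KDT1

/-!
# GMH/KDT2 (helper63, over the stub of helper27): transfer of the static kinds from the start of the life to the removal

Frame of `KinF` on the data `MS`: law `M.P`, `Z = TH M s`, marginals given all thin letters, tops `M.TF i s`.
* `vp S s w` = probability of the true tops of `S`, `vt S s w` = `tvn / pS` at the true tuple, `vd S s w` = density;
* `vt_st`, `vd_st` : they are stable; `kdM c κ s` the kind of the state `s` at the true tuple;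
* `nrT c x s w` : one of the values is near its threshold; `kd_iff`.
-/

set_option autoImplicit false
set_option linter.unusedSectionVars false

namespace Pool.Agent.GMH.KDT

open Finset Pool.Agent.PWZ Pool.Agent.M3 Pool.Agent.GMH.TD Pool.Agent.GMH.CK Pool.Agent.GMH.MV Pool.Agent.GMH.KF

noncomputable section

/-! ### two finite laws and their pushed copies -/

theorem abs_abs_sub4 (a b a' b' : ℝ) : |(|a - b| - |a' - b'|)| ≤ |a' - a| + |b' - b| := by
  have h1 : |(|a - b| - |a' - b'|)| ≤ |(a - b) - (a' - b')| := abs_abs_sub_abs_le_abs_sub _ _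
  have h2 : |(a - b) - (a' - b')| ≤ |a - a'| + |b - b'| := by
    rw [show (a - b) - (a' - b') = (a - a') - (b - b') by ring]
    exact abs_sub _ _
  rw [abs_sub_comm a a', abs_sub_comm b b'] at h2
  exact h1.trans h2

/-- two finite laws and their pushed copies, on finite sets -/
theorem tv_push_fin {G G' : Type*} (s : Finset G) (s' : Finset G') (par : G → G') {p q : G → ℝ} {p' q' : G' → ℝ} {e : ℝ}
    (he : 0 ≤ e) (p0 : ∀ g ∈ s, 0 ≤ p g) (q0 : ∀ g ∈ s, 0 ≤ q g) (p0' : ∀ g ∈ s', 0 ≤ p' g) (q0' : ∀ g ∈ s', 0 ≤ q' g)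
    {c c' : ℝ} (p1 : ∑ g ∈ s, p g = c) (q1 : ∑ g ∈ s, q g = c) (p1' : ∑ g ∈ s', p' g = c') (q1' : ∑ g ∈ s', q' g = c')
    (hs : ∀ g ∈ s, (0 < p g ∨ 0 < q g) → par g ∈ s')
    (hinj : ∀ a ∈ s, ∀ b ∈ s, (0 < p a ∨ 0 < q a) → (0 < p b ∨ 0 < q b) → par a = par b → a = b)
    (hp : ∀ g ∈ s, 0 < p g → Real.exp (-e) * p g ≤ p' (par g)) (hq : ∀ g ∈ s, 0 < q g → Real.exp (-e) * q g ≤ q' (par g))
    (hc : c' ≤ Real.exp e * c) :
    |(∑ g ∈ s, |p g - q g|) - (∑ g ∈ s', |p' g - q' g|)| ≤ 8 * (Real.exp e - Real.exp (-e)) * c := by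
  classical
  set A := s.filter fun g => 0 < p g ∨ 0 < q g with hA
  have hAs : ∀ g ∈ A, g ∈ s ∧ (0 < p g ∨ 0 < q g) := fun g hg => Finset.mem_filter.1 hg
  have hout : ∀ g ∈ s, g ∉ A → p g = 0 ∧ q g = 0 := by
    intro g hg hgA
    have h1 : ¬ (0 < p g ∨ 0 < q g) := fun h => hgA (Finset.mem_filter.2 ⟨hg, h⟩)
    push Not at h1
    exact ⟨le_antisymm h1.1 (p0 g hg), le_antisymm h1.2 (q0 g hg)⟩
  set B := A.image par with hB
  have hBs : B ⊆ s' := by
    intro x hx
    obtain ⟨g, hg, rfl⟩ := Finset.mem_image.1 hx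
    exact hs g (hAs g hg).1 (hAs g hg).2
  have hinjA : Set.InjOn par (A : Set G) := by
    intro a ha b hb hab
    exact hinj a (hAs a ha).1 b (hAs b hb).1 (hAs a ha).2 (hAs b hb).2 hab
  have sB : ∀ F : G' → ℝ, ∑ x ∈ B, F x = ∑ g ∈ A, F (par g) := fun F => Finset.sum_image hinjA
  have sA : ∀ F : G → ℝ, (∀ g ∈ s, g ∉ A → F g = 0) → ∑ g ∈ s, F g = ∑ g ∈ A, F g := fun F hF =>
    (Finset.sum_subset (Finset.filter_subset _ s) fun g hg hgA => hF g hg hgA).symm
  have spl : ∀ F : G' → ℝ, ∑ x ∈ s', F x = ∑ g ∈ A, F (par g) + ∑ x ∈ s' \ B, F x := by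
    intro F
    rw [← sB F, add_comm]
    exact (Finset.sum_sdiff hBs).symm
  have pA : ∑ g ∈ A, p g = c := by rw [← p1, sA p fun g hg hgA => (hout g hg hgA).1]
  have qA : ∑ g ∈ A, q g = c := by rw [← q1, sA q fun g hg hgA => (hout g hg hgA).2]
  have ex1 : 1 ≤ Real.exp e := Real.one_le_exp he
  have ex2 : Real.exp (-e) ≤ 1 := Real.exp_le_one_iff.2 (by linarith)
  have ex3 := Real.exp_pos (-e)
  have c0 : 0 ≤ c := by rw [← p1]; exact Finset.sum_nonneg p0
  -- one law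
  have one : ∀ (r : G → ℝ) (r' : G' → ℝ), (∀ g ∈ s, 0 ≤ r g) → (∀ g ∈ s', 0 ≤ r' g) → ∑ g ∈ A, r g = c →
      ∑ g ∈ s', r' g = c' → (∀ g ∈ s, 0 < r g → Real.exp (-e) * r g ≤ r' (par g)) →
      ∑ g ∈ A, |r' (par g) - r g| ≤ 2 * ((Real.exp e - Real.exp (-e)) * c) ∧
        ∑ x ∈ s' \ B, r' x ≤ (Real.exp e - Real.exp (-e)) * c := by
    intro r r' r0 r0' hr hr' hh
    have h1 : ∀ g ∈ A, Real.exp (-e) * r g ≤ r' (par g) := by
      intro g hg
      rcases lt_or_eq_of_le (r0 g (hAs g hg).1) with h2 | h2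
      · exact hh g (hAs g hg).1 h2
      · rw [← h2, mul_zero]
        exact r0' _ (hs g (hAs g hg).1 (hAs g hg).2)
    have h2 := spl r'
    rw [hr'] at h2
    have h3 : Real.exp (-e) * c ≤ ∑ g ∈ A, r' (par g) := by
      rw [← hr, Finset.mul_sum]
      exact Finset.sum_le_sum h1
    have h4 : 0 ≤ ∑ x ∈ s' \ B, r' x := Finset.sum_nonneg fun x hx => r0' x (Finset.mem_sdiff.1 hx).1
    constructor
    · have h5 : ∀ g ∈ A, |r' (par g) - r g| ≤ (r' (par g) - Real.exp (-e) * r g) + (1 - Real.exp (-e)) * r g := by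
        intro g hg
        have h6 := h1 g hg
        have h7 := r0 g (hAs g hg).1
        rw [abs_le]
        constructor
        · nlinarith
        · nlinarith
      refine (Finset.sum_le_sum h5).trans ?_
      rw [Finset.sum_add_distrib, Finset.sum_sub_distrib, ← Finset.mul_sum, ← Finset.mul_sum, hr]
      nlinarith
    · nlinarith
  obtain ⟨g1, g2⟩ := one p p' p0 p0' pA p1' hp
  obtain ⟨g3, g4⟩ := one q q' q0 q0' qA q1' hq
  have e1 : ∑ g ∈ s, |p g - q g| = ∑ g ∈ A, |p g - q g| := sA _ fun g hg hgA => by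
    obtain ⟨h1, h2⟩ := hout g hg hgA
    rw [h1, h2, sub_zero, abs_zero]
  have e2 := spl fun x => |p' x - q' x|
  have e3 : |(∑ g ∈ A, |p g - q g|) - (∑ g ∈ A, |p' (par g) - q' (par g)|)| ≤
      ∑ g ∈ A, |p' (par g) - p g| + ∑ g ∈ A, |q' (par g) - q g| := by
    rw [← Finset.sum_sub_distrib, ← Finset.sum_add_distrib]
    exact (Finset.abs_sum_le_sum_abs _ _).trans (Finset.sum_le_sum fun g _ => abs_abs_sub4 _ _ _ _)
  have e4 : ∑ x ∈ s' \ B, |p' x - q' x| ≤ ∑ x ∈ s' \ B, p' x + ∑ x ∈ s' \ B, q' x := by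
    rw [← Finset.sum_add_distrib]
    refine Finset.sum_le_sum fun x hx => ?_
    have h1 := p0' x (Finset.mem_sdiff.1 hx).1
    have h2 := q0' x (Finset.mem_sdiff.1 hx).1
    rw [abs_le]
    constructor <;> linarith
  have e5 : 0 ≤ ∑ x ∈ s' \ B, |p' x - q' x| := Finset.sum_nonneg fun x _ => abs_nonneg _
  have hD : 0 ≤ (Real.exp e - Real.exp (-e)) * c := mul_nonneg (by linarith) c0
  rw [e1, e2]
  have h5 := abs_le.1 e3
  rw [abs_le]
  constructor <;> nlinarith [h5.1, h5.2]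

/-- two finite laws and their pushed copies (abstract) -/
theorem tv_push {G G' : Type*} [Fintype G] [Fintype G'] (par : G → G') {p q : G → ℝ} {p' q' : G' → ℝ} {e : ℝ} (he : 0 ≤ e)
    (p0 : ∀ g, 0 ≤ p g) (q0 : ∀ g, 0 ≤ q g) (p0' : ∀ g, 0 ≤ p' g) (q0' : ∀ g, 0 ≤ q' g) {c c' : ℝ}
    (p1 : ∑ g, p g = c) (q1 : ∑ g, q g = c) (p1' : ∑ g, p' g = c') (q1' : ∑ g, q' g = c')
    (hinj : ∀ a b, (0 < p a ∨ 0 < q a) → (0 < p b ∨ 0 < q b) → par a = par b → a = b)
    (hp : ∀ g, 0 < p g → Real.exp (-e) * p g ≤ p' (par g)) (hq : ∀ g, 0 < q g → Real.exp (-e) * q g ≤ q' (par g))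
    (hc : c' ≤ Real.exp e * c) :
    |(∑ g, |p g - q g|) - (∑ g, |p' g - q' g|)| ≤ 8 * (Real.exp e - Real.exp (-e)) * c :=
  tv_push_fin univ univ par he (fun g _ => p0 g) (fun g _ => q0 g) (fun g _ => p0' g) (fun g _ => q0' g) p1 q1 p1' q1'
    (fun _ _ _ => mem_univ _) (fun a _ b _ => hinj a b) (fun g _ => hp g) (fun g _ => hq g) hc

variable {Om : Type} [Fintype Om] (M : MS Om)

/-- the tops of the state `s` -/
def Ft (s : ℕ) (i : Fin 3) (w : Om) : M.ph := M.TF i s w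

/-- probability of the true tops of `S` -/
def vp (S : Finset (Fin 3)) (s : ℕ) (w : Om) : ℝ := pS M.P (TH M s) (Ft M s) S w (tup (Ft M s) w)

/-- distance of the other tops from independence, given the true tops of `S` -/
def vt (S : Finset (Fin 3)) (s : ℕ) (w : Om) : ℝ :=
  tvn M.P (TH M s) (Ft M s) S w (tup (Ft M s) w) / vp M S s w

/-- density of the true tops of `S` against the product of the marginals -/
def vd (S : Finset (Fin 3)) (s : ℕ) (w : Om) : ℝ := KF.dens M.P (TH M s) (Ft M s) S w (tup (Ft M s) w)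

/-- **the static kind of the state `s`** at the true tuple -/
def kdM (c : KC) (κ : Fin 10) (s : ℕ) (w : Om) : Prop :=
  kdF M.P (TH M s) (Ft M s) c κ w (tup (Ft M s) w)

/-- one of the values is near its threshold -/
def nrT (c : KC) (x : ℝ) (s : ℕ) (w : Om) : Prop :=
  |vt M ∅ s w - 2 * c.e1| ≤ x ∨ (∃ i, |vt M {i} s w - 2 * c.e2| ≤ x) ∨ (∃ i, |vt M (opp i) s w - 2 * c.e3| ≤ x) ∨
    (∃ i, |vd M (opp i) s w - 1 - c.dH| ≤ x) ∨ (∃ i, |1 - vd M (opp i) s w - c.dH| ≤ x) ∨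
    |(vd M univ s w - 1) / 4 - c.dH| ≤ x

variable {M}

/-! ### the probabilities -/

theorem pv_ex {κ ι : Type*} {P : FP Om} {W : Om → ι} {V : Om → κ} {w : Om} {x : κ} (h : 0 < P.pv W V w x) :
    ∃ u, P.p u ≠ 0 ∧ W u = W w ∧ V u = x := by
  by_contra hc
  push Not at hc
  refine absurd h (not_lt.2 (le_of_eq ?_))
  unfold FP.pv FP.ce
  rw [P.E_congr (g := fun _ => 0) fun u hu => ?_, P.E_const, zero_div]
  by_cases h1 : W u = W w
  · have h2 : ind (V u = x) = 0 := ind_not (hc u hu h1)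
    show ind (W u = W w) * ind (V u = x) = 0
    rw [h2, mul_zero]
  · rw [ind_not h1, zero_mul]

theorem pS_pos {κ ι : Type*} {P : FP Om} {W : Om → ι} {V : Fin 3 → Om → κ} (S : Finset (Fin 3)) {w : Om} (hw : P.p w ≠ 0) :
    0 < pS P W V S w (tup V w) := by
  unfold pS FP.ce
  refine div_pos ?_ (P.m_pos W hw)
  have h1 : P.p w * (ind (W w = W w) * ind (∀ i ∈ S, V i w = tup V w i)) ≤
      P.E (fun v => ind (W v = W w) * ind (∀ i ∈ S, V i v = tup V w i)) := by
    unfold FP.E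
    exact Finset.single_le_sum (f := fun v => P.p v * (ind (W v = W w) * ind (∀ i ∈ S, V i v = tup V w i)))
      (fun v _ => mul_nonneg (P.nn v) (mul_nonneg (ind_nonneg _) (ind_nonneg _))) (Finset.mem_univ w)
  rw [ind_of rfl, ind_of (show ∀ i ∈ S, V i w = tup V w i from fun i _ => rfl), mul_one, mul_one] at h1
  exact lt_of_lt_of_le (lt_of_le_of_ne (P.nn w) (Ne.symm hw)) h1

theorem vp_pos (S : Finset (Fin 3)) (s : ℕ) {w : Om} (hw : M.P.p w ≠ 0) : 0 < vp M S s w := pS_pos S hw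

/-- the families with all thin letters -/
theorem LFu_iff {S : Finset (Fin 3)} {s : ℕ} {a b : Om} :
    ((LF M (univ, S) s a, M.NP s a) = (LF M (univ, S) s b, M.NP s b)) ↔
      TH M s a = TH M s b ∧ ∀ i ∈ S, Ft M s i a = Ft M s i b := by
  constructor
  · intro hab
    have h1 := (Prod.mk.inj hab).1
    have h2 := (Prod.mk.inj hab).2
    have h3 := congrArg Prod.fst h1
    have h4 := congrArg Prod.fst (congrArg Prod.snd h1)
    refine ⟨Prod.ext (funext fun j => ?_) h2, fun i hi => ?_⟩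
    · have h5 := congrFun h3 j
      unfold LF at h5
      simp only [mem_univ, if_true, Option.some.injEq] at h5
      exact h5
    · have h5 := congrFun h4 i
      unfold LF at h5
      simp only [if_pos hi, Option.some.injEq] at h5
      exact h5
  · rintro ⟨h1, h2⟩
    have h3 : ∀ j, M.XL j s a = M.XL j s b := fun j => congrFun (Prod.mk.inj h1).1 j
    refine Prod.ext ?_ (Prod.mk.inj h1).2
    refine Prod.ext (funext fun j => ?_) (Prod.ext (funext fun i => ?_) (funext fun j => ?_))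
    · show (if j ∈ (univ : Finset (Fin 3)) then some (M.XL j s a) else none) =
        if j ∈ (univ : Finset (Fin 3)) then some (M.XL j s b) else none
      rw [h3 j]
    · show (if i ∈ S then some (M.TF i s a) else none) = if i ∈ S then some (M.TF i s b) else none
      by_cases hi : i ∈ S
      · rw [if_pos hi, if_pos hi, show M.TF i s a = M.TF i s b from h2 i hi]
      · rw [if_neg hi, if_neg hi]
    · exact M.hXY j s a b (h3 j)

theorem vp_m (S : Finset (Fin 3)) (s : ℕ) (w : Om) :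
    vp M S s w = M.P.m (fun x => (LF M (univ, S) s x, M.NP s x)) w / M.P.m (TH M s) w := by
  unfold vp pS FP.ce
  congr 1
  unfold FP.m
  refine M.P.E_congr fun u _ => ?_
  rw [← ind_and]
  exact congrArg ind (propext (LFu_iff (M := M) (S := S) (s := s) (a := u) (b := w)).symm)

/-- the same over the same thin triple -/
theorem vp_of {S : Finset (Fin 3)} {s : ℕ} {u w : Om} (h : TH M s u = TH M s w) :
    pS M.P (TH M s) (Ft M s) S w (tup (Ft M s) u) = vp M S s u :=
  pS_fac M.P (Ft M s) S _ w u h.symm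

theorem vp_cmp {v : Fin 3} {e : ℝ} {s t : ℕ} {w : Om} (h : Stb M v e t s w) (S : Finset (Fin 3)) {u : Om}
    (hu : M.P.p u ≠ 0) (h1 : TH M s u = TH M s w) :
    Real.exp (-(2 * e)) * vp M S t u ≤ vp M S s u ∧ vp M S s u ≤ Real.exp (2 * e) * vp M S t u := by
  rw [vp_m, vp_m]
  exact cond_st h hu h1

theorem vp_st {v : Fin 3} {e : ℝ} {s t : ℕ} (_hts : t ≤ s) {w : Om} (hw : M.P.p w ≠ 0) (h : Stb M v e t s w)
    (S : Finset (Fin 3)) : Real.exp (-(2 * e)) * vp M S t w ≤ vp M S s w ∧ vp M S s w ≤ Real.exp (2 * e) * vp M S t w :=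
  vp_cmp h S hw rfl

theorem mF_vp (i : Fin 3) (s : ℕ) (w : Om) :
    mF M.P (TH M s) (Ft M s) i w (tup (Ft M s) w i) = vp M {i} s w := by
  unfold vp
  rw [pS_one M.P (Ft M s)]

theorem vd_eq (S : Finset (Fin 3)) (s : ℕ) (w : Om) : vd M S s w = vp M S s w / ∏ i ∈ S, vp M {i} s w := by
  unfold vd KF.dens
  rw [Finset.prod_congr rfl fun i _ => mF_vp i s w]
  rfl

theorem vd_pos (S : Finset (Fin 3)) (s : ℕ) {w : Om} (hw : M.P.p w ≠ 0) : 0 < vd M S s w := by
  rw [vd_eq]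
  exact div_pos (vp_pos S s hw) (Finset.prod_pos fun i _ => vp_pos {i} s hw)

/-- products of three factors -/
theorem prod_cmp {S : Finset (Fin 3)} {a b : Fin 3 → ℝ} {e : ℝ} (he : 0 ≤ e) (ha : ∀ i, 0 ≤ a i)
    (h : ∀ i ∈ S, a i ≤ Real.exp e * b i) (hb : ∀ i, 0 ≤ b i) : ∏ i ∈ S, a i ≤ Real.exp (3 * e) * ∏ i ∈ S, b i := by
  have h1 : ∏ i ∈ S, a i ≤ ∏ i ∈ S, (Real.exp e * b i) := Finset.prod_le_prod (fun i _ => ha i) h
  rw [Finset.prod_mul_distrib, Finset.prod_const] at h1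
  refine h1.trans (mul_le_mul_of_nonneg_right ?_ (Finset.prod_nonneg fun i _ => hb i))
  rw [← Real.exp_nat_mul]
  refine Real.exp_le_exp.2 (mul_le_mul_of_nonneg_right ?_ he)
  have h2 : S.card ≤ 3 := by
    have := Finset.card_le_univ S
    rwa [Fintype.card_fin] at this
  exact_mod_cast h2

/-- the constant of a stable triple is nonnegative -/
theorem e_nn {v : Fin 3} {e : ℝ} {s t : ℕ} {w : Om} (hw : M.P.p w ≠ 0) (h : Stb M v e t s w) : 0 ≤ e :=
  (abs_nonneg _).trans (h w hw rfl (∅, ∅)).1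

theorem vd_st {v : Fin 3} {e : ℝ} {s t : ℕ} (hts : t ≤ s) {w : Om} (hw : M.P.p w ≠ 0) (h : Stb M v e t s w)
    (S : Finset (Fin 3)) : Real.exp (-(8 * e)) * vd M S t w ≤ vd M S s w ∧ vd M S s w ≤ Real.exp (8 * e) * vd M S t w := by
  have he := e_nn hw h
  have hpos : ∀ (S : Finset (Fin 3)) r, 0 < vp M S r w := fun S r => vp_pos S r hw
  have hE : ∀ x : ℝ, Real.exp (-x) * Real.exp x = 1 := fun x => by rw [← Real.exp_add, neg_add_cancel, Real.exp_zero]
  have hts2 : ∀ S : Finset (Fin 3), vp M S t w ≤ Real.exp (2 * e) * vp M S s w := fun S => by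
    have h1 := (vp_st hts hw h S).1
    have h2 := mul_le_mul_of_nonneg_left h1 (Real.exp_pos (2 * e)).le
    rw [← mul_assoc, mul_comm (Real.exp (2 * e)), hE, one_mul] at h2
    exact h2
  have hst2 : ∀ S : Finset (Fin 3), vp M S s w ≤ Real.exp (2 * e) * vp M S t w := fun S => (vp_st hts hw h S).2
  have key : ∀ r r' : ℕ, (∀ S : Finset (Fin 3), vp M S r w ≤ Real.exp (2 * e) * vp M S r' w) →
      (∀ S : Finset (Fin 3), vp M S r' w ≤ Real.exp (2 * e) * vp M S r w) →
      vd M S r w ≤ Real.exp (8 * e) * vd M S r' w := by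
    intro r r' h1 h2
    rw [vd_eq, vd_eq]
    have p1 : 0 < ∏ i ∈ S, vp M {i} r w := Finset.prod_pos fun i _ => hpos {i} r
    have p2 : 0 < ∏ i ∈ S, vp M {i} r' w := Finset.prod_pos fun i _ => hpos {i} r'
    have h3 : ∏ i ∈ S, vp M {i} r' w ≤ Real.exp (3 * (2 * e)) * ∏ i ∈ S, vp M {i} r w :=
      prod_cmp (by linarith) (fun i => (hpos {i} r').le) (fun i _ => h2 {i}) fun i => (hpos {i} r).le
    rw [div_le_iff₀ p1, ← mul_div_assoc, div_mul_eq_mul_div, le_div_iff₀ p2]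
    have h4 : vp M S r w * ∏ i ∈ S, vp M {i} r' w ≤
        (Real.exp (2 * e) * vp M S r' w) * (Real.exp (3 * (2 * e)) * ∏ i ∈ S, vp M {i} r w) :=
      mul_le_mul (h1 S) h3 p2.le (mul_nonneg (Real.exp_pos _).le (hpos S r').le)
    refine h4.trans (le_of_eq ?_)
    rw [show (8 : ℝ) * e = 2 * e + 3 * (2 * e) by ring, Real.exp_add]
    ring
  refine ⟨?_, key s t hst2 hts2⟩
  have h5 := key t s hts2 hst2
  have h6 := mul_le_mul_of_nonneg_left h5 (Real.exp_pos (-(8 * e))).le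
  rw [← mul_assoc, hE, one_mul] at h6
  exact h6

/-! ### the distances -/

theorem Ft_le {t s : ℕ} (hts : t ≤ s) (i : Fin 3) : Fac (Ft M s i) (Ft M t i) := by
  induction s, hts using Nat.le_induction with
  | base => exact Fac.refl _
  | succ s _ ih => exact Fac.trans (M.hT i s) ih

theorem TH_le' {t s : ℕ} (hts : t ≤ s) : Fac (TH M s) (TH M t) := by
  induction s, hts using Nat.le_induction with
  | base => exact Fac.refl _
  | succ s _ ih => exact Fac.trans (TH_step M s) ih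

variable (M) in
open Classical in
/-- the parent of a top -/
def prn (t s : ℕ) (i : Fin 3) (x : M.ph) : M.ph := if h : ∃ u, Ft M s i u = x then Ft M t i h.choose else x

theorem prn_eq {t s : ℕ} (hts : t ≤ s) (i : Fin 3) (u : Om) : prn M t s i (Ft M s i u) = Ft M t i u := by
  have h : ∃ u', Ft M s i u' = Ft M s i u := ⟨u, rfl⟩
  unfold prn
  rw [dif_pos h]
  exact Ft_le hts i _ _ h.choose_spec

section law

variable (M) (S : Finset (Fin 3)) (s : ℕ) (w : Om)

/-- law of the tops given the true tops of `S` -/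
def lp (g : Fin 3 → M.ph) : ℝ :=
  ind (∀ i ∈ S, g i = tup (Ft M s) w i) * pF M.P (TH M s) (Ft M s) w g / vp M S s w

/-- one factor of the product law -/
def lf (i : Fin 3) (x : M.ph) : ℝ :=
  if i ∈ S then ind (x = tup (Ft M s) w i) else mF M.P (TH M s) (Ft M s) i w x

/-- product law, with the true tops of `S` -/
def lr (g : Fin 3 → M.ph) : ℝ := ∏ i, lf M S s w i (g i)

variable {M S s w}

theorem lf_nn (i : Fin 3) (x : M.ph) : 0 ≤ lf M S s w i x := by
  unfold lf
  split_ifs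
  · exact ind_nonneg _
  · exact M.P.pv_nonneg _ _ _ _

theorem lr_nn (g : Fin 3 → M.ph) : 0 ≤ lr M S s w g := Finset.prod_nonneg fun i _ => lf_nn i _

theorem lp_nn (hw : M.P.p w ≠ 0) (g : Fin 3 → M.ph) : 0 ≤ lp M S s w g :=
  div_nonneg (mul_nonneg (ind_nonneg _) (M.P.pv_nonneg _ _ _ _)) (vp_pos S s hw).le

theorem lr_eq (g : Fin 3 → M.ph) : lr M S s w g = ind (∀ i ∈ S, g i = tup (Ft M s) w i) *
    ∏ i ∈ univ \ S, mF M.P (TH M s) (Ft M s) i w (g i) := by
  have h1 : lr M S s w g = (∏ i ∈ univ \ S, lf M S s w i (g i)) * ∏ i ∈ S, lf M S s w i (g i) :=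
    (Finset.prod_sdiff (Finset.subset_univ S)).symm
  have h2 : ∏ i ∈ univ \ S, lf M S s w i (g i) =
      ∏ i ∈ univ \ S, mF M.P (TH M s) (Ft M s) i w (g i) :=
    Finset.prod_congr rfl fun i hi => if_neg (Finset.mem_sdiff.1 hi).2
  have h3 : ∏ i ∈ S, lf M S s w i (g i) = ind (∀ i ∈ S, g i = tup (Ft M s) w i) := by
    have h5 : ∀ i ∈ S, lf M S s w i (g i) = ind (g i = tup (Ft M s) w i) := fun i hi => if_pos hi
    rw [Finset.prod_congr rfl h5]
    by_cases h : ∀ i ∈ S, g i = tup (Ft M s) w i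
    · rw [ind_of h]
      exact Finset.prod_eq_one fun i hi => ind_of (h i hi)
    · rw [ind_not h]
      push Not at h
      obtain ⟨i, hi, h4⟩ := h
      exact Finset.prod_eq_zero hi (ind_not h4)
  rw [h1, h2, h3, mul_comm]

theorem lf_sum (hw : M.P.p w ≠ 0) (i : Fin 3) : ∑ x ∈ vals (Ft M s i), lf M S s w i x = 1 := by
  unfold lf
  by_cases hi : i ∈ S
  · simp only [if_pos hi]
    rw [Finset.sum_eq_single (tup (Ft M s) w i)]
    · exact ind_of rfl
    · intro x _ hx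
      exact ind_not hx
    · intro h
      exact absurd (FP.mem_vals (Ft M s i) w) h
  · simp only [if_neg hi]
    exact M.P.pv_sum (TH M s) (Ft M s i) hw

theorem lr_sum (hw : M.P.p w ≠ 0) : ∑ g ∈ let_ (Ft M s), lr M S s w g = 1 := by
  unfold lr let_
  rw [← Finset.prod_univ_sum]
  exact Finset.prod_eq_one fun i _ => lf_sum hw i

theorem lp_sum (hw : M.P.p w ≠ 0) : ∑ g ∈ let_ (Ft M s), lp M S s w g = 1 := by
  unfold lp
  rw [← Finset.sum_div, div_eq_one_iff_eq (vp_pos S s hw).ne']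
  have h1 := sum_tup M.P (W := TH M s) (Ft M s) (F := fun _ g => ind (∀ i ∈ S, g i = tup (Ft M s) w i))
    (fun _ => Fac.const _ _) w
  have h2 : ∑ g ∈ let_ (Ft M s), ind (∀ i ∈ S, g i = tup (Ft M s) w i) * pF M.P (TH M s) (Ft M s) w g =
      ∑ g ∈ let_ (Ft M s), M.P.pv (TH M s) (tup (Ft M s)) w g * ind (∀ i ∈ S, g i = tup (Ft M s) w i) :=
    Finset.sum_congr rfl fun g _ => mul_comm _ _
  rw [h2, h1]
  rfl

theorem vt_sum (hw : M.P.p w ≠ 0) : vt M S s w = ∑ g ∈ let_ (Ft M s), |lp M S s w g - lr M S s w g| := by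
  have hp := vp_pos (M := M) S s hw
  unfold vt tvn
  rw [Finset.sum_div]
  refine Finset.sum_congr rfl fun g _ => ?_
  rw [lr_eq]
  unfold lp
  by_cases h : ∀ i ∈ S, g i = tup (Ft M s) w i
  · have e0 : pS M.P (TH M s) (Ft M s) S w g = vp M S s w := by
      unfold vp pS
      refine M.P.ce_congr (fun u _ => ?_) w
      congr 1
      exact propext ⟨fun h' i hi => (h' i hi).trans (h i hi), fun h' i hi => (h' i hi).trans (h i hi).symm⟩
    rw [e0, ind_of h, one_mul, one_mul, one_mul]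
    have e1 : pF M.P (TH M s) (Ft M s) w g / vp M S s w -
        ∏ i ∈ univ \ S, mF M.P (TH M s) (Ft M s) i w (g i) =
        (pF M.P (TH M s) (Ft M s) w g - vp M S s w *
          ∏ i ∈ univ \ S, mF M.P (TH M s) (Ft M s) i w (g i)) / vp M S s w := by
      field_simp
    rw [e1, abs_div, abs_of_pos hp]
  · rw [ind_not h]
    simp

/-- the points over a value of positive probability -/
theorem sup_p {g : Fin 3 → M.ph} (h : 0 < lp M S s w g) :
    (∀ i ∈ S, g i = tup (Ft M s) w i) ∧ ∃ u, M.P.p u ≠ 0 ∧ TH M s u = TH M s w ∧ tup (Ft M s) u = g := by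
  have h1 : ∀ i ∈ S, g i = tup (Ft M s) w i := by
    by_contra hc
    unfold lp at h
    rw [ind_not hc, zero_mul, zero_div] at h
    exact lt_irrefl _ h
  refine ⟨h1, pv_ex (P := M.P) (W := TH M s) (V := tup (Ft M s)) (x := g) ?_⟩
  by_contra hc
  have h2 : pF M.P (TH M s) (Ft M s) w g = 0 := le_antisymm (not_lt.1 hc) (M.P.pv_nonneg _ _ _ _)
  unfold lp at h
  rw [h2, mul_zero, zero_div] at h
  exact lt_irrefl _ h

theorem sup_f (hw : M.P.p w ≠ 0) {i : Fin 3} {x : M.ph} (h : 0 < lf M S s w i x) :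
    ∃ u, M.P.p u ≠ 0 ∧ TH M s u = TH M s w ∧ Ft M s i u = x := by
  unfold lf at h
  by_cases hi : i ∈ S
  · rw [if_pos hi] at h
    have h1 : x = tup (Ft M s) w i := by
      by_contra hc
      rw [ind_not hc] at h
      exact lt_irrefl _ h
    exact ⟨w, hw, rfl, h1.symm⟩
  · rw [if_neg hi] at h
    exact pv_ex h

theorem lf_pos {g : Fin 3 → M.ph} (h : 0 < lr M S s w g) (i : Fin 3) : 0 < lf M S s w i (g i) := by
  refine lt_of_le_of_ne (lf_nn i _) fun hc => ?_
  have h1 : lr M S s w g = 0 := Finset.prod_eq_zero (mem_univ i) hc.symm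
  rw [h1] at h
  exact lt_irrefl _ h

theorem sup_i (hw : M.P.p w ≠ 0) {g : Fin 3 → M.ph} (h : 0 < lp M S s w g ∨ 0 < lr M S s w g) (i : Fin 3) :
    ∃ u, M.P.p u ≠ 0 ∧ TH M s u = TH M s w ∧ Ft M s i u = g i := by
  rcases h with h | h
  · obtain ⟨-, u, h1, h2, h3⟩ := sup_p h
    exact ⟨u, h1, h2, congrFun h3 i⟩
  · exact sup_f hw (lf_pos h i)

end law

/-- the singles are stable -/
theorem lf_cmp {v : Fin 3} {e : ℝ} {s t : ℕ} (hts : t ≤ s) {w : Om} (hw : M.P.p w ≠ 0) (h : Stb M v e t s w)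
    {S : Finset (Fin 3)} {i : Fin 3} {x : M.ph} (hx : 0 < lf M S s w i x) :
    lf M S s w i x ≤ Real.exp (2 * e) * lf M S t w i (prn M t s i x) := by
  have he := e_nn hw h
  obtain ⟨u, h1, h2, h3⟩ := sup_f hw hx
  subst h3
  rw [prn_eq hts]
  unfold lf at hx ⊢
  by_cases hi : i ∈ S
  · rw [if_pos hi] at hx
    rw [if_pos hi, if_pos hi]
    have h4 : Ft M s i u = tup (Ft M s) w i := by
      by_contra hc
      rw [ind_not hc] at hx
      exact lt_irrefl _ hx
    have h5 : Ft M t i u = tup (Ft M t) w i := Ft_le hts i u w h4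
    rw [ind_of h4, ind_of h5, mul_one]
    exact Real.one_le_exp (by linarith)
  · rw [if_neg hi, if_neg hi]
    have h4 := (vp_cmp h {i} h1 h2).2
    have h5 : mF M.P (TH M s) (Ft M s) i w (Ft M s i u) = vp M {i} s u := by
      rw [← mF_vp i s u]
      exact mF_fac M.P (Z := TH M s) (Ft M s) i _ w u h2.symm
    have h6 : mF M.P (TH M t) (Ft M t) i w (Ft M t i u) = vp M {i} t u := by
      rw [← mF_vp i t u]
      exact mF_fac M.P (Z := TH M t) (Ft M t) i _ w u (TH_le' hts u w h2).symm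
    rw [h5, h6]
    exact h4

theorem exp_gap {x : ℝ} (h0 : 0 ≤ x) (h1 : x ≤ 1) : Real.exp x - Real.exp (-x) ≤ 3 * x := by
  have h2 := Real.abs_exp_sub_one_sub_id_le (x := x) (by rw [abs_of_nonneg h0]; exact h1)
  have h3 := (abs_le.1 h2).2
  have h4 := Real.add_one_le_exp (-x)
  nlinarith

theorem vt_st {v : Fin 3} {e : ℝ} (he0 : 0 ≤ e) (he : e ≤ 1 / 100) {s t : ℕ} (hts : t ≤ s) {w : Om} (hw : M.P.p w ≠ 0)
    (h : Stb M v e t s w) (S : Finset (Fin 3)) : |vt M S s w - vt M S t w| ≤ 1000 * e := by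
  have hE : ∀ x : ℝ, Real.exp (-x) * Real.exp x = 1 := fun x => by rw [← Real.exp_add, neg_add_cancel, Real.exp_zero]
  rw [vt_sum hw, vt_sum hw]
  have hlog : e < Real.log 2 := by
    have := Real.log_two_gt_d9
    linarith
  have c1 : ∀ g ∈ let_ (Ft M s), (0 < lp M S s w g ∨ 0 < lr M S s w g) →
      (fun i => prn M t s i (g i)) ∈ let_ (Ft M t) := by
    intro g _ hg
    refine Fintype.mem_piFinset.2 fun i => ?_
    obtain ⟨u, h1, h2, h3⟩ := sup_i hw hg i
    show prn M t s i (g i) ∈ vals (Ft M t i)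
    rw [← h3, prn_eq hts]
    exact FP.mem_vals _ _
  have c2 : ∀ a ∈ let_ (Ft M s), ∀ b ∈ let_ (Ft M s), (0 < lp M S s w a ∨ 0 < lr M S s w a) →
      (0 < lp M S s w b ∨ 0 < lr M S s w b) → (fun i => prn M t s i (a i)) = (fun i => prn M t s i (b i)) → a = b := by
    intro a _ b _ ha hb hab
    funext i
    obtain ⟨u, h1, h2, h3⟩ := sup_i hw ha i
    obtain ⟨u', h1', h2', h3'⟩ := sup_i hw hb i
    have h4 : prn M t s i (a i) = prn M t s i (b i) := congrFun hab i
    rw [← h3, ← h3', prn_eq hts, prn_eq hts] at h4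
    have h5 : (LF M (univ, {i}) t u, M.NP t u) = (LF M (univ, {i}) t u', M.NP t u') :=
      LFu_iff.2 ⟨(TH_le' hts u w h2).trans (TH_le' hts u' w h2').symm, fun j hj => by
        rw [Finset.mem_singleton.1 hj]
        exact h4⟩
    have h6 := child_one hlog hts h (univ, {i}) h1 h1' h2 h2' (Prod.mk.inj h5).1
    have h7 : (LF M (univ, {i}) s u, M.NP s u) = (LF M (univ, {i}) s u', M.NP s u') :=
      Prod.ext h6 (Prod.mk.inj (h2.trans h2'.symm)).2
    rw [← h3, ← h3']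
    exact (LFu_iff.1 h7).2 i (Finset.mem_singleton_self i)
  have c3 : ∀ g ∈ let_ (Ft M s), 0 < lp M S s w g →
      Real.exp (-(6 * e)) * lp M S s w g ≤ lp M S t w (fun i => prn M t s i (g i)) := by
    intro g _ hg
    obtain ⟨h0, u, h1, h2, h3⟩ := sup_p hg
    have ht := TH_le' hts u w h2
    have e1 : (fun i => prn M t s i (g i)) = tup (Ft M t) u := by
      funext i
      rw [← h3]
      exact prn_eq hts i u
    have e2 : lp M S s w g = vp M univ s u / vp M S s w := by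
      unfold lp
      rw [ind_of h0, one_mul, ← h3, ← pS_univ M.P (Ft M s), vp_of h2]
    have e3 : lp M S t w (tup (Ft M t) u) = vp M univ t u / vp M S t w := by
      unfold lp
      rw [ind_of fun i hi => ?_, one_mul, ← pS_univ M.P (Ft M t), vp_of ht]
      have h5 := h0 i hi
      rw [← h3] at h5
      exact Ft_le hts i u w h5
    rw [e1, e2, e3]
    have g1 := (vp_cmp h univ h1 h2).2
    have g2 := (vp_cmp h S hw rfl).1
    have p1 := vp_pos (M := M) S s hw
    have p2 := vp_pos (M := M) S t hw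
    have p3 := vp_pos (M := M) univ t h1
    rw [← mul_div_assoc, div_le_div_iff₀ p1 p2]
    have g3 : Real.exp (-(6 * e)) ≤ Real.exp (-(2 * e)) * Real.exp (-(2 * e)) := by
      rw [← Real.exp_add]
      exact Real.exp_le_exp.2 (by linarith)
    have g4 : Real.exp (-(2 * e)) * vp M univ s u ≤ vp M univ t u := by
      have := mul_le_mul_of_nonneg_left g1 (Real.exp_pos (-(2 * e))).le
      rwa [← mul_assoc, hE, one_mul] at this
    calc Real.exp (-(6 * e)) * vp M univ s u * vp M S t w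
        ≤ (Real.exp (-(2 * e)) * Real.exp (-(2 * e))) * vp M univ s u * vp M S t w :=
          mul_le_mul_of_nonneg_right (mul_le_mul_of_nonneg_right g3 (vp_pos univ s h1).le) p2.le
      _ = (Real.exp (-(2 * e)) * vp M univ s u) * (Real.exp (-(2 * e)) * vp M S t w) := by ring
      _ ≤ vp M univ t u * vp M S s w := mul_le_mul g4 g2 (mul_nonneg (Real.exp_pos _).le p2.le) p3.le
  have c4 : ∀ g ∈ let_ (Ft M s), 0 < lr M S s w g →
      Real.exp (-(6 * e)) * lr M S s w g ≤ lr M S t w (fun i => prn M t s i (g i)) := by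
    intro g _ hg
    have h1 : lr M S s w g ≤ Real.exp (3 * (2 * e)) * lr M S t w (fun i => prn M t s i (g i)) := by
      unfold lr
      exact prod_cmp (by linarith) (fun i => lf_nn i _) (fun i _ => lf_cmp hts hw h (lf_pos hg i)) fun i => lf_nn i _
    have h2 := mul_le_mul_of_nonneg_left h1 (Real.exp_pos (-(6 * e))).le
    rw [← mul_assoc, show (3 : ℝ) * (2 * e) = 6 * e by ring, hE, one_mul] at h2
    exact h2
  have key := tv_push_fin (let_ (Ft M s)) (let_ (Ft M t)) (fun g i => prn M t s i (g i)) (p := lp M S s w)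
    (q := lr M S s w) (p' := lp M S t w) (q' := lr M S t w) (e := 6 * e) (c := 1) (c' := 1) (by linarith)
    (fun g _ => lp_nn hw g) (fun g _ => lr_nn g) (fun g _ => lp_nn hw g) (fun g _ => lr_nn g) (lp_sum hw) (lr_sum hw)
    (lp_sum hw) (lr_sum hw) c1 c2 c3 c4 (by
      rw [mul_one]
      exact Real.one_le_exp (by linarith))
  refine key.trans ?_
  have h1 := exp_gap (x := 6 * e) (by linarith) (by linarith)
  rw [mul_one]
  linarith

/-! ### the kinds -/

theorem vt_iff {S : Finset (Fin 3)} {s : ℕ} {w : Om} (hw : M.P.p w ≠ 0) (a : ℝ) :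
    2 * a * pS M.P (TH M s) (Ft M s) S w (tup (Ft M s) w) ≤
      tvn M.P (TH M s) (Ft M s) S w (tup (Ft M s) w) ↔ 2 * a ≤ vt M S s w := by
  unfold vt
  rw [le_div_iff₀ (vp_pos S s hw)]
  exact Iff.rfl

/-- a value which is stable and not near its threshold -/
theorem thr_iff {a b c x : ℝ} (h : |a - b| ≤ x) (hn : ¬ |a - c| ≤ x) : c ≤ a ↔ c ≤ b := by
  have h1 := abs_le.1 h
  have h2 := not_le.1 hn
  rcases lt_abs.1 h2 with h3 | h3
  · constructor <;> intro _ <;> linarith [h1.1, h1.2]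
  · constructor <;> intro _ <;> linarith [h1.1, h1.2]

theorem exp_small {e : ℝ} (he0 : 0 ≤ e) (he : e ≤ 1 / 100) : Real.exp (8 * e) ≤ 1 + 16 * e ∧ 1 - 8 * e ≤ Real.exp (-(8 * e)) := by
  have h2 := Real.abs_exp_sub_one_sub_id_le (x := 8 * e) (by rw [abs_of_nonneg (by linarith)]; linarith)
  have h3 := (abs_le.1 h2).2
  have h4 := Real.add_one_le_exp (-(8 * e))
  constructor <;> nlinarith

/-- `1 + a` is reached -/
theorem up_iff {a x y e : ℝ} (ha : 0 < a) (ha1 : a ≤ 1) (he0 : 0 ≤ e) (he : e ≤ 1 / 100) (hy : 0 < y)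
    (h1 : Real.exp (-(8 * e)) * y ≤ x) (h2 : x ≤ Real.exp (8 * e) * y) (hn : ¬ |x - 1 - a| ≤ 1000 * e) :
    1 + a ≤ x ↔ 1 + a ≤ y := by
  obtain ⟨g1, g2⟩ := exp_small he0 he
  have h3 := not_le.1 hn
  have h4 : (1 - 8 * e) * y ≤ x := (mul_le_mul_of_nonneg_right g2 hy.le).trans h1
  have h5 : x ≤ (1 + 16 * e) * y := h2.trans (mul_le_mul_of_nonneg_right g1 hy.le)
  rcases lt_abs.1 h3 with h6 | h6
  · refine ⟨fun _ => ?_, fun _ => by nlinarith⟩
    by_contra hc
    have h7 := not_le.1 hc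
    nlinarith
  · refine ⟨fun h7 => by nlinarith, fun h7 => ?_⟩
    exfalso
    nlinarith

/-- `1 - a` is reached -/
theorem dn_iff {a x y e : ℝ} (ha : 0 < a) (ha1 : a ≤ 1) (he0 : 0 ≤ e) (he : e ≤ 1 / 100) (hy : 0 < y)
    (h1 : Real.exp (-(8 * e)) * y ≤ x) (h2 : x ≤ Real.exp (8 * e) * y) (hn : ¬ |1 - x - a| ≤ 1000 * e) :
    a ≤ 1 - x ↔ a ≤ 1 - y := by
  obtain ⟨g1, g2⟩ := exp_small he0 he
  have h3 := not_le.1 hn
  have h4 : (1 - 8 * e) * y ≤ x := (mul_le_mul_of_nonneg_right g2 hy.le).trans h1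
  have h5 : x ≤ (1 + 16 * e) * y := h2.trans (mul_le_mul_of_nonneg_right g1 hy.le)
  rcases lt_abs.1 h3 with h6 | h6
  · refine ⟨fun _ => ?_, fun _ => by nlinarith⟩
    by_contra hc
    have h7 := not_le.1 hc
    nlinarith
  · refine ⟨fun h7 => by nlinarith, fun h7 => ?_⟩
    exfalso
    nlinarith

/-- the kinds transfer -/
theorem kd_iff {c : KC} (h3 : 0 < c.dH) (h4 : c.dH ≤ 1 / 4) {v : Fin 3} {e : ℝ}
    (he0 : 0 ≤ e) (he : e ≤ 1 / 100) {s t : ℕ} (hts : t ≤ s) {w : Om} (hw : M.P.p w ≠ 0) (h : Stb M v e t s w)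
    (hn : ¬ nrT M c (1000 * e) s w) (κ : Fin 10) : kdM M c κ s w ↔ kdM M c κ t w := by
  unfold nrT at hn
  push Not at hn
  obtain ⟨n1, n2, n3, n4, n5, n6⟩ := hn
  have t1 : ∀ (S : Finset (Fin 3)) (a : ℝ), 1000 * e < |vt M S s w - 2 * a| → (2 * a ≤ vt M S s w ↔ 2 * a ≤ vt M S t w) :=
    fun S a ha => thr_iff (vt_st he0 he hts hw h S) (not_le.2 ha)
  have t2 : ∀ S : Finset (Fin 3), Real.exp (-(8 * e)) * vd M S t w ≤ vd M S s w ∧
      vd M S s w ≤ Real.exp (8 * e) * vd M S t w := fun S => vd_st hts hw h S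
  have t3 : ∀ i : Fin 3, (c.dH ≤ |vd M (opp i) s w - 1| ↔ c.dH ≤ |vd M (opp i) t w - 1|) := by
    intro i
    have a1 := up_iff h3 (by linarith) he0 he (vd_pos (M := M) (opp i) t hw) (t2 (opp i)).1 (t2 (opp i)).2
      (not_le.2 (n4 i))
    have a2 := dn_iff h3 (by linarith) he0 he (vd_pos (M := M) (opp i) t hw) (t2 (opp i)).1 (t2 (opp i)).2
      (not_le.2 (n5 i))
    rw [le_abs, le_abs]
    constructor
    · rintro (a3 | a3)
      · left
        have := a1.1 (by linarith)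
        linarith
      · right
        have := a2.1 (by linarith)
        linarith
    · rintro (a3 | a3)
      · left
        have := a1.2 (by linarith)
        linarith
      · right
        have := a2.2 (by linarith)
        linarith
  have t4 : 1 + 4 * c.dH ≤ vd M univ s w ↔ 1 + 4 * c.dH ≤ vd M univ t w := by
    refine up_iff (by linarith) (by linarith) he0 he (vd_pos (M := M) univ t hw) (t2 univ).1 (t2 univ).2 (not_le.2 ?_)
    have e1 : (vd M univ s w - 1) / 4 - c.dH = (vd M univ s w - 1 - 4 * c.dH) / 4 := by ring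
    rw [e1, abs_div, abs_of_pos (show (0 : ℝ) < 4 by norm_num)] at n6
    have := (lt_div_iff₀ (show (0 : ℝ) < 4 by norm_num)).1 n6
    linarith
  -- the bad tops
  have tb : ∀ i : Fin 3, bad M.P (TH M s) (Ft M s) c i w (tup (Ft M s) w) ↔
      bad M.P (TH M t) (Ft M t) c i w (tup (Ft M t) w) := fun i =>
    ((and_iff_right (pS_pos {i} hw)).trans (vt_iff hw c.e2)).trans ((t1 {i} c.e2 (n2 i)).trans
      ((and_iff_right (pS_pos {i} hw)).trans (vt_iff hw c.e2)).symm)
  have th : ∀ i : Fin 3, (0 < pS M.P (TH M s) (Ft M s) (opp i) w (tup (Ft M s) w) ∧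
      (c.dH ≤ |KF.dens M.P (TH M s) (Ft M s) (opp i) w (tup (Ft M s) w) - 1| ∨
        2 * c.e3 * pS M.P (TH M s) (Ft M s) (opp i) w (tup (Ft M s) w) ≤
          tvn M.P (TH M s) (Ft M s) (opp i) w (tup (Ft M s) w))) ↔
      (0 < pS M.P (TH M t) (Ft M t) (opp i) w (tup (Ft M t) w) ∧
      (c.dH ≤ |KF.dens M.P (TH M t) (Ft M t) (opp i) w (tup (Ft M t) w) - 1| ∨
        2 * c.e3 * pS M.P (TH M t) (Ft M t) (opp i) w (tup (Ft M t) w) ≤
          tvn M.P (TH M t) (Ft M t) (opp i) w (tup (Ft M t) w))) := fun i =>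
    (and_iff_right (pS_pos (opp i) hw)).trans ((or_congr (t3 i) ((vt_iff hw c.e3).trans
      ((t1 (opp i) c.e3 (n3 i)).trans (vt_iff hw c.e3).symm))).trans (and_iff_right (pS_pos (opp i) hw)).symm)
  -- all properties
  have key : ∀ j : ℕ, Ap M.P (TH M s) (Ft M s) c j w (tup (Ft M s) w) ↔
      Ap M.P (TH M t) (Ft M t) c j w (tup (Ft M t) w) := by
    intro j
    match j with
    | 0 => exact Iff.rfl
    | 1 =>
      have e1 : ∀ r, Ap M.P (TH M r) (Ft M r) c 1 w (tup (Ft M r) w) ↔ 2 * c.e1 ≤ vt M ∅ r w := by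
        intro r
        rw [← vt_iff hw c.e1, pS_empty M.P (Ft M r) hw, mul_one]
        exact Iff.rfl
      rw [e1 s, e1 t]
      exact t1 ∅ c.e1 n1
    | 2 => exact and_congr (tb 0) (and_congr (not_congr (tb 1)) (not_congr (tb 2)))
    | 3 => exact and_congr (tb 1) (and_congr (not_congr (tb 0)) (not_congr (tb 2)))
    | 4 => exact and_congr (tb 2) (and_congr (not_congr (tb 0)) (not_congr (tb 1)))
    | 5 => exact or_congr (and_congr (tb 0) (tb 1)) (or_congr (and_congr (tb 0) (tb 2)) (and_congr (tb 1) (tb 2)))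
    | 6 => exact th 0
    | 7 => exact th 1
    | 8 => exact th 2
    | 9 => exact t4
    | (n + 10) => exact Iff.rfl
  unfold kdM kdF
  exact and_congr (key κ.1) (forall_congr' fun j => forall_congr' fun _ => not_congr (key j))

end

end Pool.Agent.GMH.KDT
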