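import Pool.Agent.GMH.Pig
import Pool.Agent.GMH.KDT2

/-!
# GMH/PigK: thresholds of the kinds by pigeonhole (helper41, order of helper27)

`nrT_thr` : constants `c` with `c0 ≤ c ≤ 2 c0` (fields `e1`, `e2`, `e3`, `dH`) such that the sum of the probabilities
that one of the values of `KDT.nrT` is within `x` of its threshold is at most `28 / m` times the sum of the probabilities of the
events `b k` (the removals), if `4 m x ≤ e1, e2, e3, dH`.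
-/

set_option autoImplicit false
set_option linter.unusedSectionVars false

namespace Pool.Agent.GMH.KDT

open Finset Pool.Agent.PWZ Pool.Agent.M3 Pool.Agent.GMH.TD Pool.Agent.GMH.CK Pool.Agent.GMH.MV Pool.Agent.GMH.KF
open Pool.Agent.GMH.Pig

/-- several values with one threshold -/
theorem thr_many {Om : Type*} [Fintype Om] (P : FP Om) {κ ι : Type*} [Fintype ι] (s : Finset κ) (b : κ → Om → Prop)
    (X : ι → κ → Om → ℝ) {eta0 x : ℝ} (h0 : 0 < eta0) {m : ℕ} (hm : 1 ≤ m) (hx : 4 * m * x ≤ eta0) :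
    ∃ eta, eta0 ≤ eta ∧ eta ≤ 2 * eta0 ∧
      ∑ k ∈ s, P.Pr (fun w => b k w ∧ ∃ i, |X i k w - eta| ≤ x) ≤
        (2 * Fintype.card ι / (m : ℝ)) * ∑ k ∈ s, P.Pr (b k) := by
  classical
  have hm' : (0 : ℝ) < m := by exact_mod_cast hm
  obtain ⟨eta, h1, h2, h3⟩ := thr P (s ×ˢ (univ : Finset ι)) (fun k w => b k.1 w) (fun k w => X k.2 k.1 w) h0 hm
  refine ⟨eta, h1, h2, ?_⟩
  have hx' : x ≤ eta0 / (4 * m) := by
    rw [le_div_iff₀ (by positivity)]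
    linarith
  rw [sum_product, sum_product] at h3
  have e1 : ∑ k ∈ s, ∑ _i : ι, P.Pr (fun w => b k w) = Fintype.card ι * ∑ k ∈ s, P.Pr (b k) := by
    rw [mul_sum]
    refine sum_congr rfl fun k _ => ?_
    rw [sum_const, card_univ, nsmul_eq_mul]
  have e2 : ∑ k ∈ s, P.Pr (fun w => b k w ∧ ∃ i, |X i k w - eta| ≤ x) ≤
      ∑ k ∈ s, ∑ i : ι, P.Pr (fun w => b k w ∧ |X i k w - eta| ≤ eta0 / (4 * m)) := by
    refine sum_le_sum fun k _ => ?_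
    have e3 : ∑ i : ι, P.Pr (fun w => b k w ∧ |X i k w - eta| ≤ eta0 / (4 * m)) =
        P.E (fun w => ∑ i : ι, ind (b k w ∧ |X i k w - eta| ≤ eta0 / (4 * m))) := by
      unfold FP.Pr
      rw [FP.E_sum]
    rw [e3]
    refine P.E_mono fun w _ => ?_
    by_cases h : b k w ∧ ∃ i, |X i k w - eta| ≤ x
    · obtain ⟨hb, i, hi⟩ := h
      rw [ind_of ⟨hb, i, hi⟩]
      refine le_trans (le_of_eq (ind_of ⟨hb, hi.trans hx'⟩).symm)
        (single_le_sum (f := fun i => ind (b k w ∧ |X i k w - eta| ≤ eta0 / (4 * m))) (fun i _ => ind_nonneg _) (mem_univ i))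
    · rw [ind_not h]
      exact sum_nonneg fun i _ => ind_nonneg _
  refine (e2.trans h3).trans (le_of_eq ?_)
  rw [e1]
  ring

variable {Om : Type} [Fintype Om] (M : MS Om)

/-- **THE THRESHOLDS OF THE KINDS** -/
theorem nrT_thr {κ : Type*} (J : Finset κ) (b : κ → Om → Prop) (st : κ → ℕ) (c0 : KC) (h1 : 0 < c0.e1) (h2 : 0 < c0.e2)
    (h3 : 0 < c0.e3) (h4 : 0 < c0.dH) {m : ℕ} (hm : 1 ≤ m) {x : ℝ} (hx0 : 0 ≤ x) (x1 : 4 * m * x ≤ c0.e1)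
    (x2 : 4 * m * x ≤ c0.e2) (x3 : 4 * m * x ≤ c0.e3) (x4 : 4 * m * x ≤ c0.dH) :
    ∃ c : KC, c.eF = c0.eF ∧ c.eS = c0.eS ∧ (c0.e1 ≤ c.e1 ∧ c.e1 ≤ 2 * c0.e1) ∧ (c0.e2 ≤ c.e2 ∧ c.e2 ≤ 2 * c0.e2) ∧
      (c0.e3 ≤ c.e3 ∧ c.e3 ≤ 2 * c0.e3) ∧ (c0.dH ≤ c.dH ∧ c.dH ≤ 2 * c0.dH) ∧
      ∑ k ∈ J, M.P.Pr (fun w => b k w ∧ nrT M c x (st k) w) ≤ (28 / (m : ℝ)) * ∑ k ∈ J, M.P.Pr (b k) := by
  classical
  have hm' : (0 : ℝ) < m := by exact_mod_cast hm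
  obtain ⟨a1, b1, d1, s1⟩ := thr_many (ι := Unit) M.P J b (fun _ k w => vt M ∅ (st k) w / 2) h1 hm x1
  obtain ⟨a2, b2, d2, s2⟩ := thr_many (ι := Fin 3) M.P J b (fun i k w => vt M {i} (st k) w / 2) h2 hm x2
  obtain ⟨a3, b3, d3, s3⟩ := thr_many (ι := Fin 3) M.P J b (fun i k w => vt M (opp i) (st k) w / 2) h3 hm x3
  obtain ⟨a4, b4, d4, s4⟩ := thr_many (ι := Fin 3 ⊕ Fin 3 ⊕ Unit) M.P J b (fun i k w => Sum.elim
    (fun i => vd M (opp i) (st k) w - 1) (Sum.elim (fun i => 1 - vd M (opp i) (st k) w)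
      (fun _ => (vd M univ (st k) w - 1) / 4)) i) h4 hm x4
  refine ⟨⟨c0.eF, a1, a2, a3, a4, c0.eS⟩, rfl, rfl, ⟨b1, d1⟩, ⟨b2, d2⟩, ⟨b3, d3⟩, ⟨b4, d4⟩, ?_⟩
  have hf : ∀ (S : Finset (Fin 3)) (a : ℝ) (k : κ) (w : Om), |vt M S (st k) w - 2 * a| ≤ x →
      |vt M S (st k) w / 2 - a| ≤ x := by
    intro S a k w h
    have e : vt M S (st k) w / 2 - a = (vt M S (st k) w - 2 * a) / 2 := by ring
    rw [e, abs_div, abs_of_pos (by norm_num : (0 : ℝ) < 2)]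
    linarith
  have hle : ∀ k ∈ J, M.P.Pr (fun w => b k w ∧ nrT M ⟨c0.eF, a1, a2, a3, a4, c0.eS⟩ x (st k) w) ≤
      M.P.Pr (fun w => b k w ∧ ∃ _ : Unit, |vt M ∅ (st k) w / 2 - a1| ≤ x) +
      M.P.Pr (fun w => b k w ∧ ∃ i, |vt M {i} (st k) w / 2 - a2| ≤ x) +
      M.P.Pr (fun w => b k w ∧ ∃ i, |vt M (opp i) (st k) w / 2 - a3| ≤ x) +
      M.P.Pr (fun w => b k w ∧ ∃ i : Fin 3 ⊕ Fin 3 ⊕ Unit, |Sum.elim (fun i => vd M (opp i) (st k) w - 1)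
        (Sum.elim (fun i => 1 - vd M (opp i) (st k) w) (fun _ => (vd M univ (st k) w - 1) / 4)) i - a4| ≤ x) := by
    intro k _
    unfold FP.Pr
    rw [← M.P.E_add, ← M.P.E_add, ← M.P.E_add]
    refine M.P.E_mono fun w _ => ?_
    have n1 := ind_nonneg (b k w ∧ ∃ _ : Unit, |vt M ∅ (st k) w / 2 - a1| ≤ x)
    have n2 := ind_nonneg (b k w ∧ ∃ i, |vt M {i} (st k) w / 2 - a2| ≤ x)
    have n3 := ind_nonneg (b k w ∧ ∃ i, |vt M (opp i) (st k) w / 2 - a3| ≤ x)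
    have n4 := ind_nonneg (b k w ∧ ∃ i : Fin 3 ⊕ Fin 3 ⊕ Unit, |Sum.elim (fun i => vd M (opp i) (st k) w - 1)
        (Sum.elim (fun i => 1 - vd M (opp i) (st k) w) (fun _ => (vd M univ (st k) w - 1) / 4)) i - a4| ≤ x)
    by_cases h : b k w ∧ nrT M ⟨c0.eF, a1, a2, a3, a4, c0.eS⟩ x (st k) w
    · rw [ind_of h]
      obtain ⟨hb, hn⟩ := h
      rcases hn with hn | ⟨i, hn⟩ | ⟨i, hn⟩ | ⟨i, hn⟩ | ⟨i, hn⟩ | hn
      · rw [ind_of (show b k w ∧ ∃ _ : Unit, |vt M ∅ (st k) w / 2 - a1| ≤ x from ⟨hb, (), hf _ _ _ _ hn⟩)]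
        linarith
      · rw [ind_of (show b k w ∧ ∃ i, |vt M {i} (st k) w / 2 - a2| ≤ x from ⟨hb, i, hf _ _ _ _ hn⟩)]
        linarith
      · rw [ind_of (show b k w ∧ ∃ i, |vt M (opp i) (st k) w / 2 - a3| ≤ x from ⟨hb, i, hf _ _ _ _ hn⟩)]
        linarith
      · rw [ind_of (show b k w ∧ ∃ i : Fin 3 ⊕ Fin 3 ⊕ Unit, |Sum.elim (fun i => vd M (opp i) (st k) w - 1)
          (Sum.elim (fun i => 1 - vd M (opp i) (st k) w) (fun _ => (vd M univ (st k) w - 1) / 4)) i - a4| ≤ x from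
            ⟨hb, Sum.inl i, hn⟩)]
        linarith
      · rw [ind_of (show b k w ∧ ∃ i : Fin 3 ⊕ Fin 3 ⊕ Unit, |Sum.elim (fun i => vd M (opp i) (st k) w - 1)
          (Sum.elim (fun i => 1 - vd M (opp i) (st k) w) (fun _ => (vd M univ (st k) w - 1) / 4)) i - a4| ≤ x from
            ⟨hb, Sum.inr (Sum.inl i), hn⟩)]
        linarith
      · rw [ind_of (show b k w ∧ ∃ i : Fin 3 ⊕ Fin 3 ⊕ Unit, |Sum.elim (fun i => vd M (opp i) (st k) w - 1)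
          (Sum.elim (fun i => 1 - vd M (opp i) (st k) w) (fun _ => (vd M univ (st k) w - 1) / 4)) i - a4| ≤ x from
            ⟨hb, Sum.inr (Sum.inr ()), hn⟩)]
        linarith
    · rw [ind_not h]
      linarith
  refine (sum_le_sum hle).trans ?_
  rw [sum_add_distrib, sum_add_distrib, sum_add_distrib]
  have c1 : (Fintype.card Unit : ℝ) = 1 := by simp
  have c2 : (Fintype.card (Fin 3) : ℝ) = 3 := by simp
  have c3 : (Fintype.card (Fin 3 ⊕ Fin 3 ⊕ Unit) : ℝ) = 7 := by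
    rw [Fintype.card_sum, Fintype.card_sum]
    norm_num
  rw [c1] at s1
  rw [c2] at s2 s3
  rw [c3] at s4
  refine (add_le_add (add_le_add (add_le_add s1 s2) s3) s4).trans (le_of_eq ?_)
  ring

end Pool.Agent.GMH.KDT
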