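import Pool.Agent.GMH.KDT3
import Pool.Agent.GMH.PigK

/-!
# GMH/KDTw: the two visible tops at the exact vertex `i0` (helper21)

The two tops which see the vertex `i0` are the three tops of the data `tw M i0` (the top `i0` is a constant), so the theory of
`KDT1`, `KDT2`, `PigK` applies; no new computation. For any data `M : MS` :
* `tw M i0`, `lx_tw`, `bi_tw`, `stb_tw` : a stable triple is stable for `tw M i0`;
* `kdW c i0 κ s` the static kind of the two tops, `nrW` : one of its values is near its threshold; `kdW_iff`, `nrW_thr`;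
* `o2` = log density of the two tops against their own laws: `o2_stb` (any state of the exact epoch of `i0`), `o2_unl` (any
  state of the public epoch).
For the run (same shape as `GMH/KDT3`, `r` = any state of the life, at or before the removal `q`):
* `kq2_prv`, `p2_prv` : private removal of `i0`; `kq2_pub`, `p2_pub` : public removal, exact vertex `i0`; `kq2_nu`, `p2_nu` :
  public removal, node;
* `kd2_prv`, `kd2_pub`, `kd2_nu` : the same for the tables `eT τ` of a start `τ` (RULE L), in the form of the fields `gdv`, `gd0`.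
-/

set_option autoImplicit false
set_option linter.unusedSectionVars false

namespace Pool.Agent.GMH.KDTw

open Finset Pool.Agent.PWZ Pool.Agent.M3 Pool.Agent.GM Pool.Agent.GM.Harm Pool.Agent.GMH Pool.Agent.GMH.NZ
open Pool.Agent.GMH.V3 Pool.Agent.GMH.TP Pool.Agent.GMH.TD Pool.Agent.GMH.Dy Pool.Agent.GMH.MV Pool.Agent.GMH.MVI
open Pool.Agent.GMH.CK Pool.Agent.GMH.KF Pool.Agent.GMH.KDT Pool.Agent.GMH.KDL

noncomputable section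

/-! ### any data -/

section ms

variable {Om : Type} [Fintype Om] (M : MS Om)

/-- the data with the tops other than `i0` -/
def tw (i0 : Fin 3) : MS Om :=
  { M with
    ph := Option M.ph
    TF := fun i s w => Fo (fun j => M.TF j s) i0 i w
    hT := fun i s a b hab => by
      by_cases hi : i = i0
      · show Fo (fun j => M.TF j s) i0 i a = Fo (fun j => M.TF j s) i0 i b
        unfold Fo
        rw [if_pos hi, if_pos hi]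
      · have h1 : Fo (fun j => M.TF j (s + 1)) i0 i a = Fo (fun j => M.TF j (s + 1)) i0 i b := hab
        unfold Fo at h1
        rw [if_neg hi, if_neg hi] at h1
        show Fo (fun j => M.TF j s) i0 i a = Fo (fun j => M.TF j s) i0 i b
        unfold Fo
        rw [if_neg hi, if_neg hi]
        exact congrArg some (M.hT i s a b (Option.some.inj h1)) }

/-- the tops of the state `s` which see `i0` -/
def Fw (i0 : Fin 3) (s : ℕ) : Fin 3 → Om → Option M.ph := Fo (fun j => M.TF j s) i0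

/-- **the static kind of the two tops**, state `s`, at the true tuple -/
def kdW (c : KC) (i0 : Fin 3) (κ : Fin 10) (s : ℕ) (w : Om) : Prop :=
  kdF M.P (TH M s) (Fw M i0 s) c κ w (tup (Fw M i0 s) w)

/-- one of the values of the two tops is near its threshold -/
def nrW (c : KC) (i0 : Fin 3) (x : ℝ) (s : ℕ) (w : Om) : Prop := nrT (tw M i0) c x s w

/-- log density of the two true tops which see `i0` against their own laws -/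
def o2 (i0 : Fin 3) (q : ℕ) (w : Om) : ℝ :=
  lt M univ (univ.erase i0) q w - ∑ i ∈ univ.erase i0, lt M (univ.erase i) {i} q w

variable {M}

theorem kdW_tw (c : KC) (i0 : Fin 3) (κ : Fin 10) (s : ℕ) (w : Om) : kdW M c i0 κ s w ↔ kdM (tw M i0) c κ s w := Iff.rfl

theorem TF_tw {i0 i : Fin 3} {s : ℕ} {a b : Om} :
    (tw M i0).TF i s a = (tw M i0).TF i s b ↔ (i ≠ i0 → M.TF i s a = M.TF i s b) := by
  show Fo (fun j => M.TF j s) i0 i a = Fo (fun j => M.TF j s) i0 i b ↔ _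
  unfold Fo
  by_cases hi : i = i0
  · rw [if_pos hi, if_pos hi]
    exact ⟨fun _ h => absurd hi h, fun _ => rfl⟩
  · rw [if_neg hi, if_neg hi]
    exact ⟨fun h _ => Option.some.inj h, fun h => congrArg some (h hi)⟩

theorem LF_tw {i0 : Fin 3} {i : Finset (Fin 3) × Finset (Fin 3)} {s : ℕ} {a b : Om} :
    LF (tw M i0) i s a = LF (tw M i0) i s b ↔ LF M (i.1, i.2.erase i0) s a = LF M (i.1, i.2.erase i0) s b := by
  rw [LF_eq, LF_eq]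
  refine and_congr Iff.rfl (and_congr ?_ Iff.rfl)
  constructor
  · intro h t ht
    have h1 := Finset.mem_erase.1 ht
    exact TF_tw.1 (h t h1.2) h1.1
  · intro h t ht
    exact TF_tw.2 fun hne => h t (Finset.mem_erase.2 ⟨hne, ht⟩)

theorem m_tw {i0 : Fin 3} (i : Finset (Fin 3) × Finset (Fin 3)) (s : ℕ) {κ : Type*} (N : Om → κ) (w : Om) :
    M.P.m (fun u => (LF (tw M i0) i s u, N u)) w = M.P.m (fun u => (LF M (i.1, i.2.erase i0) s u, N u)) w := by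
  refine M.P.m_congr ?_ ?_ w
  · intro a b hab
    exact Prod.ext (LF_tw.1 (Prod.mk.inj hab).1) (Prod.mk.inj hab).2
  · intro a b hab
    exact Prod.ext (LF_tw.2 (Prod.mk.inj hab).1) (Prod.mk.inj hab).2

theorem lq_tw {i0 : Fin 3} (i : Finset (Fin 3) × Finset (Fin 3)) {κ : Type*} (N : ℕ → Om → κ) (s : ℕ) (w : Om) :
    lq M.P N (LF (tw M i0) i) (YF (tw M i0) i) s w =
      lq M.P N (LF M (i.1, i.2.erase i0)) (YF M (i.1, i.2.erase i0)) s w := by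
  unfold lq
  rw [m_tw i s (N s) w]
  rfl

theorem lqn_tw {i0 : Fin 3} (i : Finset (Fin 3) × Finset (Fin 3)) {κ : Type*} (N : ℕ → Om → κ) (s : ℕ) (w : Om) :
    lqn M.P N (LF (tw M i0) i) (YF (tw M i0) i) s w =
      lqn M.P N (LF M (i.1, i.2.erase i0)) (YF M (i.1, i.2.erase i0)) s w := by
  unfold lqn
  rw [m_tw i s (N (s + 1)) w]
  rfl

theorem lx_tw (i0 v : Fin 3) (i : Finset (Fin 3) × Finset (Fin 3)) (s : ℕ) (w : Om) :
    lx (tw M i0) v i s w = lx M v (i.1, i.2.erase i0) s w := by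
  have h1 := lq_tw (M := M) (i0 := i0) i (CN M v) s w
  exact h1

theorem bi_tw (i0 v : Fin 3) (i : Finset (Fin 3) × Finset (Fin 3)) (s : ℕ) (w : Om) :
    bi (tw M i0).P (CN (tw M i0) v) (LF (tw M i0) i) (YF (tw M i0) i) s w =
      bi M.P (CN M v) (LF M (i.1, i.2.erase i0)) (YF M (i.1, i.2.erase i0)) s w := by
  have h1 := lqn_tw (M := M) (i0 := i0) i (CN M v) s w
  have h2 := lq_tw (M := M) (i0 := i0) i (CN M v) (s + 1) w
  unfold bi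
  exact congrArg₂ (· - ·) h1 h2

/-- a stable triple is stable for the two tops -/
theorem stb_tw (i0 : Fin 3) {v : Fin 3} {e : ℝ} {t s : ℕ} {w : Om} (h : Stb M v e t s w) : Stb (tw M i0) v e t s w := by
  intro u hu huw i
  have h1 := h u hu huw (i.1, i.2.erase i0)
  rw [lx_tw, lx_tw]
  refine ⟨h1.1, ?_⟩
  refine le_trans (le_of_eq ?_) h1.2
  exact Finset.sum_congr rfl fun j _ => bi_tw i0 v i j u

/-- **the kinds of the two tops transfer** -/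
theorem kdW_iff {c : KC} (h3 : 0 < c.dH) (h4 : c.dH ≤ 1 / 4) {i0 v : Fin 3} {e : ℝ} (he0 : 0 ≤ e) (he : e ≤ 1 / 100)
    {s t : ℕ} (hts : t ≤ s) {w : Om} (hw : M.P.p w ≠ 0) (h : Stb M v e t s w) (hn : ¬ nrW M c i0 (1000 * e) s w)
    (κ : Fin 10) : kdW M c i0 κ s w ↔ kdW M c i0 κ t w :=
  kd_iff (M := tw M i0) h3 h4 he0 he hts hw (stb_tw i0 h) hn κ

/-- **the thresholds of the two tops** -/
theorem nrW_thr (i0 : Fin 3) {κ : Type*} (J : Finset κ) (b : κ → Om → Prop) (st : κ → ℕ) (c0 : KC) (h1 : 0 < c0.e1)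
    (h2 : 0 < c0.e2) (h3 : 0 < c0.e3) (h4 : 0 < c0.dH) {m : ℕ} (hm : 1 ≤ m) {x : ℝ} (hx0 : 0 ≤ x)
    (x1 : 4 * m * x ≤ c0.e1) (x2 : 4 * m * x ≤ c0.e2) (x3 : 4 * m * x ≤ c0.e3) (x4 : 4 * m * x ≤ c0.dH) :
    ∃ c : KC, c.eF = c0.eF ∧ c.eS = c0.eS ∧ (c0.e1 ≤ c.e1 ∧ c.e1 ≤ 2 * c0.e1) ∧ (c0.e2 ≤ c.e2 ∧ c.e2 ≤ 2 * c0.e2) ∧
      (c0.e3 ≤ c.e3 ∧ c.e3 ≤ 2 * c0.e3) ∧ (c0.dH ≤ c.dH ∧ c.dH ≤ 2 * c0.dH) ∧
      ∑ k ∈ J, M.P.Pr (fun w => b k w ∧ nrW M c i0 x (st k) w) ≤ (28 / (m : ℝ)) * ∑ k ∈ J, M.P.Pr (b k) :=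
  nrT_thr (tw M i0) J b st c0 h1 h2 h3 h4 hm hx0 x1 x2 x3 x4

theorem nrW_mono {c : KC} {i0 : Fin 3} {x y : ℝ} (hxy : x ≤ y) {s : ℕ} {w : Om} (hn : ¬ nrW M c i0 y s w) :
    ¬ nrW M c i0 x s w := nrT_mono (M := tw M i0) hxy hn

/-! ### log densities -/

/-- three tables -/
theorem o2_of {i0 : Fin 3} {s t : ℕ} {w : Om} {x : ℝ}
    (h0 : |lt M univ (univ.erase i0) s w - lt M univ (univ.erase i0) t w| ≤ x)
    (h1 : ∀ i, i ≠ i0 → |lt M (univ.erase i) {i} s w - lt M (univ.erase i) {i} t w| ≤ x) :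
    |o2 M i0 s w - o2 M i0 t w| ≤ 3 * x := by
  have hc : (univ.erase i0 : Finset (Fin 3)).card = 2 := by
    have key : ∀ i0 : Fin 3, (univ.erase i0 : Finset (Fin 3)).card = 2 := by decide
    exact key i0
  have h2 : |(∑ i ∈ univ.erase i0, lt M (univ.erase i) {i} s w) - ∑ i ∈ univ.erase i0, lt M (univ.erase i) {i} t w| ≤
      2 * x := by
    rw [← Finset.sum_sub_distrib]
    refine (Finset.abs_sum_le_sum_abs _ _).trans ?_
    refine (Finset.sum_le_sum fun i hi => h1 i (Finset.ne_of_mem_erase hi)).trans (le_of_eq ?_)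
    rw [Finset.sum_const, hc, nsmul_eq_mul]
    norm_num
  unfold o2
  have h3 := abs_le.1 h0
  have h4 := abs_le.1 h2
  rw [abs_le]
  constructor <;> linarith [h3.1, h3.2, h4.1, h4.2]

/-- **the log density of the two tops over a triple which is stable at `i0`** -/
theorem o2_stb {i0 : Fin 3} {e : ℝ} {t s : ℕ} {w : Om} (hw : M.P.p w ≠ 0) (h : Stb M i0 e t s w) :
    |o2 M i0 s w - o2 M i0 t w| ≤ 6 * e := by
  have h1 := o2_of (M := M) (i0 := i0) (lt_stb (mem_univ i0) (univ.erase i0) hw h)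
    fun i hi => lt_stb (Finset.mem_erase.2 ⟨Ne.symm hi, mem_univ i0⟩) {i} hw h
  linarith

/-- **the log density of the two tops at an unlisted point**, any state of the public epoch -/
theorem o2_unl (i0 : Fin 3) {r s : ℕ} {w : Om} (hw : M.P.p w ≠ 0) (hl : ¬ Lst M (nu M s w) s w) (hr : nu M s w ≤ r)
    (hrs : r ≤ s) : |o2 M i0 s w - o2 M i0 r w| ≤ 24 * M.d0 := by
  have h1 := o2_of (M := M) (i0 := i0) (lt_unl univ (univ.erase i0) hw hl hr hrs)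
    fun i _ => lt_unl (univ.erase i) {i} hw hl hr hrs
  linarith

end ms

/-! ### the run -/

section run

variable {X β γ φ : Type} [Fintype X] [Fintype β] [Fintype φ] [Nonempty X] [Nonempty β]
variable {D : HD (Fin 3) X β γ φ} {al : ℝ} {h : D.Thick al} {N : Finset (Fin 3) → ℝ} {SS : Finset (Finset (Fin 3))}
  {v : ℕ → Finset (Fin 3) → X → (Fin 3 → β) → Pt (Fin 3) X β φ}
variable {dg : ℕ → X → ℝ} {prr : ℕ → Fin 3 → φ → φ} {T : ℕ} {Lam : ℝ} {W : Type} [Fintype W] (tb : Tab D prr T W)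
variable {d1 kb d0 k0 p1 z : ℝ} (hd1 : 0 < d1) (hd11 : d1 ≤ 1) (hkb : 0 < kb) (hd0 : 0 < d0) (hd01 : d0 ≤ 1) (hk0 : 0 < k0)
  (hp1 : 0 < p1) (hz : 0 < z)

/-- kinds of `GMH/Dyn` on `MS` -/
theorem kq2_kdW (H : D.Hyp dg prr al T Lam) (R : Run h N SS (AdmDep D) v) (hS : ∀ l, univ.erase l ∈ SS) (hu : univ ∉ SS)
    (hN : ∀ l, 0 < N (univ.erase l)) {q : ℕ} (hq : q / 5 ≤ T) {w : Om W X β} (hw : tb.Ps.p w ≠ 0) (c : KC) (i0 : Fin 3)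
    (κ : Fin 10) : kq2 h v tb c i0 κ q w ↔
      kdW (MSi tb (v := v) d1 kb d0 k0 p1 z hd1 hd11 hkb hd0 hd01 hk0 hp1 hz) c i0 κ q w :=
  kq2_iff tb hd1 hd11 hkb hd0 hd01 hk0 hp1 hz H R hS hu hN hq hw c i0 κ

/-- log densities of `GMH/Dyn` on `MS` -/
theorem pq2_o2 (H : D.Hyp dg prr al T Lam) (R : Run h N SS (AdmDep D) v) (hS : ∀ l, univ.erase l ∈ SS) (hu : univ ∉ SS)
    (hN : ∀ l, 0 < N (univ.erase l)) {q : ℕ} (hq : q / 5 ≤ T) {w : Om W X β} (hw : tb.Ps.p w ≠ 0) (i0 : Fin 3) :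
    pq2 h v tb i0 q w = o2 (MSi tb (v := v) d1 kb d0 k0 p1 z hd1 hd11 hkb hd0 hd01 hk0 hp1 hz) i0 q w :=
  pq2_lt tb hd1 hd11 hkb hd0 hd01 hk0 hp1 hz H R hS hu hN hq i0 hw

/-- **TRANSFER OF THE KINDS OF THE TWO TOPS** under stability -/
theorem kq2_stb (H : D.Hyp dg prr al T Lam) (R : Run h N SS (AdmDep D) v) (hS : ∀ l, univ.erase l ∈ SS) (hu : univ ∉ SS)
    (hN : ∀ l, 0 < N (univ.erase l)) {c : KC} (h3 : 0 < c.dH) (h4 : c.dH ≤ 1 / 4) {e : ℝ} (he0 : 0 ≤ e) (he : e ≤ 1 / 100)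
    {q r : ℕ} (hq : q / 5 ≤ T) {w : Om W X β} (hw : tb.Ps.p w ≠ 0) {i0 u : Fin 3} (h2 : r ≤ q)
    (hs : Stb (MSi tb (v := v) d1 kb d0 k0 p1 z hd1 hd11 hkb hd0 hd01 hk0 hp1 hz) u e r q w)
    (hn : ¬ nrW (MSi tb (v := v) d1 kb d0 k0 p1 z hd1 hd11 hkb hd0 hd01 hk0 hp1 hz) c i0 (1000 * e) q w) (κ : Fin 10) :
    kq2 h v tb c i0 κ q w ↔ kq2 h v tb c i0 κ r w := by
  rw [kq2_kdW tb hd1 hd11 hkb hd0 hd01 hk0 hp1 hz H R hS hu hN hq hw c i0 κ,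
    kq2_kdW tb hd1 hd11 hkb hd0 hd01 hk0 hp1 hz H R hS hu hN ((Nat.div_le_div_right h2).trans hq) hw c i0 κ]
  exact kdW_iff h3 h4 he0 he h2 hw hs hn κ

/-- **TRANSFER OF THE LOG DENSITY OF THE TWO TOPS** under stability at `i0` -/
theorem p2_stb (H : D.Hyp dg prr al T Lam) (R : Run h N SS (AdmDep D) v) (hS : ∀ l, univ.erase l ∈ SS) (hu : univ ∉ SS)
    (hN : ∀ l, 0 < N (univ.erase l)) {e : ℝ} {q r : ℕ} (hq : q / 5 ≤ T) {w : Om W X β} (hw : tb.Ps.p w ≠ 0) {i0 : Fin 3}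
    (h2 : r ≤ q) (hs : Stb (MSi tb (v := v) d1 kb d0 k0 p1 z hd1 hd11 hkb hd0 hd01 hk0 hp1 hz) i0 e r q w) :
    |pq2 h v tb i0 q w - pq2 h v tb i0 r w| ≤ 6 * e := by
  rw [pq2_o2 tb hd1 hd11 hkb hd0 hd01 hk0 hp1 hz H R hS hu hN hq hw i0,
    pq2_o2 tb hd1 hd11 hkb hd0 hd01 hk0 hp1 hz H R hS hu hN ((Nat.div_le_div_right h2).trans hq) hw i0]
  exact o2_stb hw hs

/-! ### private removal of `i0`, state `q` -/

/-- **PRIVATE REMOVAL** : log density at the removal and at any state of the exact epoch of `i0` -/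
theorem p2_prv (H : D.Hyp dg prr al T Lam) (R : Run h N SS (AdmDep D) v) (hS : ∀ l, univ.erase l ∈ SS) (hu : univ ∉ SS)
    (hN : ∀ l, 0 < N (univ.erase l)) {q : ℕ} (hq : q / 5 ≤ T) {w : Om W X β} (hw : tb.Ps.p w ≠ 0) {i : Fin 3}
    (hm : ¬ MV.Mv (MSi tb (v := v) d1 kb d0 k0 p1 z hd1 hd11 hkb hd0 hd01 hk0 hp1 hz) i q w) {r : ℕ}
    (h1 : MV.tau (MSi tb (v := v) d1 kb d0 k0 p1 z hd1 hd11 hkb hd0 hd01 hk0 hp1 hz) i q w ≤ r) (h2 : r ≤ q) :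
    |pq2 h v tb i q w - pq2 h v tb i r w| ≤ 24 * d1 := by
  have h3 := p2_stb tb hd1 hd11 hkb hd0 hd01 hk0 hp1 hz H R hS hu hN hq hw h2
    (stb_of (M := MSi tb (v := v) d1 kb d0 k0 p1 z hd1 hd11 hkb hd0 hd01 hk0 hp1 hz) hw hm h1 h2)
  refine h3.trans (le_of_eq ?_)
  show 6 * (4 * d1) = _
  ring

/-- **PRIVATE REMOVAL** : the kinds of the two tops at the removal and at any state of the exact epoch of `i` -/
theorem kq2_prv (H : D.Hyp dg prr al T Lam) (R : Run h N SS (AdmDep D) v) (hS : ∀ l, univ.erase l ∈ SS) (hu : univ ∉ SS)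
    (hN : ∀ l, 0 < N (univ.erase l)) {c : KC} (h3 : 0 < c.dH) (h4 : c.dH ≤ 1 / 4) (he : d1 ≤ 1 / 400) {q : ℕ}
    (hq : q / 5 ≤ T) {w : Om W X β} (hw : tb.Ps.p w ≠ 0) {i : Fin 3}
    (hm : ¬ MV.Mv (MSi tb (v := v) d1 kb d0 k0 p1 z hd1 hd11 hkb hd0 hd01 hk0 hp1 hz) i q w) {r : ℕ}
    (h1 : MV.tau (MSi tb (v := v) d1 kb d0 k0 p1 z hd1 hd11 hkb hd0 hd01 hk0 hp1 hz) i q w ≤ r) (h2 : r ≤ q)
    (hn : ¬ nrW (MSi tb (v := v) d1 kb d0 k0 p1 z hd1 hd11 hkb hd0 hd01 hk0 hp1 hz) c i (4000 * d1) q w) (κ : Fin 10) :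
    kq2 h v tb c i κ q w ↔ kq2 h v tb c i κ r w :=
  kq2_stb tb hd1 hd11 hkb hd0 hd01 hk0 hp1 hz H R hS hu hN h3 h4 (show 0 ≤ 4 * d1 by linarith)
    (show 4 * d1 ≤ 1 / 100 by linarith) hq hw h2
    (stb_of (M := MSi tb (v := v) d1 kb d0 k0 p1 z hd1 hd11 hkb hd0 hd01 hk0 hp1 hz) hw hm h1 h2)
    (by rw [show 1000 * (4 * d1) = 4000 * d1 by ring]; exact hn) κ

/-! ### public removal, state `q` -/

/-- **PUBLIC REMOVAL** : log density at the removal and at any state of the exact epoch of `i` -/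
theorem p2_pub (H : D.Hyp dg prr al T Lam) (R : Run h N SS (AdmDep D) v) (hS : ∀ l, univ.erase l ∈ SS) (hu : univ ∉ SS)
    (hN : ∀ l, 0 < N (univ.erase l)) {q : ℕ} (hq : q / 5 ≤ T) {w : Om W X β} (hw : tb.Ps.p w ≠ 0) {i : Fin 3}
    (hm : ¬ MV.Mv (MSi tb (v := v) d1 kb d0 k0 p1 z hd1 hd11 hkb hd0 hd01 hk0 hp1 hz) i
      (nu (MSi tb (v := v) d1 kb d0 k0 p1 z hd1 hd11 hkb hd0 hd01 hk0 hp1 hz) q w) w)
    (hL : ¬ 0 < tb.Ps.ce (TH (MSi tb (v := v) d1 kb d0 k0 p1 z hd1 hd11 hkb hd0 hd01 hk0 hp1 hz) q) (fun u =>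
      ind (Lst (MSi tb (v := v) d1 kb d0 k0 p1 z hd1 hd11 hkb hd0 hd01 hk0 hp1 hz)
        (nu (MSi tb (v := v) d1 kb d0 k0 p1 z hd1 hd11 hkb hd0 hd01 hk0 hp1 hz) q w) q u)) w) {r : ℕ}
    (h1 : MV.tau (MSi tb (v := v) d1 kb d0 k0 p1 z hd1 hd11 hkb hd0 hd01 hk0 hp1 hz) i q w ≤ r) (h2 : r ≤ q) :
    |pq2 h v tb i q w - pq2 h v tb i r w| ≤ 24 * d1 + 96 * d0 := by
  have h3 := p2_stb tb hd1 hd11 hkb hd0 hd01 hk0 hp1 hz H R hS hu hN hq hw h2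
    (stb_pub (M := MSi tb (v := v) d1 kb d0 k0 p1 z hd1 hd11 hkb hd0 hd01 hk0 hp1 hz) hw hm hL h1 h2).2
  refine h3.trans (le_of_eq ?_)
  show 6 * (4 * d1 + 16 * d0) = _
  ring

/-- **PUBLIC REMOVAL** : the kinds of the two tops at the removal and at any state of the exact epoch of `i` -/
theorem kq2_pub (H : D.Hyp dg prr al T Lam) (R : Run h N SS (AdmDep D) v) (hS : ∀ l, univ.erase l ∈ SS) (hu : univ ∉ SS)
    (hN : ∀ l, 0 < N (univ.erase l)) {c : KC} (h3 : 0 < c.dH) (h4 : c.dH ≤ 1 / 4) (he : 4 * d1 + 16 * d0 ≤ 1 / 100) {q : ℕ}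
    (hq : q / 5 ≤ T) {w : Om W X β} (hw : tb.Ps.p w ≠ 0) {i : Fin 3}
    (hm : ¬ MV.Mv (MSi tb (v := v) d1 kb d0 k0 p1 z hd1 hd11 hkb hd0 hd01 hk0 hp1 hz) i
      (nu (MSi tb (v := v) d1 kb d0 k0 p1 z hd1 hd11 hkb hd0 hd01 hk0 hp1 hz) q w) w)
    (hL : ¬ 0 < tb.Ps.ce (TH (MSi tb (v := v) d1 kb d0 k0 p1 z hd1 hd11 hkb hd0 hd01 hk0 hp1 hz) q) (fun u =>
      ind (Lst (MSi tb (v := v) d1 kb d0 k0 p1 z hd1 hd11 hkb hd0 hd01 hk0 hp1 hz)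
        (nu (MSi tb (v := v) d1 kb d0 k0 p1 z hd1 hd11 hkb hd0 hd01 hk0 hp1 hz) q w) q u)) w) {r : ℕ}
    (h1 : MV.tau (MSi tb (v := v) d1 kb d0 k0 p1 z hd1 hd11 hkb hd0 hd01 hk0 hp1 hz) i q w ≤ r) (h2 : r ≤ q)
    (hn : ¬ nrW (MSi tb (v := v) d1 kb d0 k0 p1 z hd1 hd11 hkb hd0 hd01 hk0 hp1 hz) c i (1000 * (4 * d1 + 16 * d0)) q w)
    (κ : Fin 10) : kq2 h v tb c i κ q w ↔ kq2 h v tb c i κ r w :=
  kq2_stb tb hd1 hd11 hkb hd0 hd01 hk0 hp1 hz H R hS hu hN h3 h4 (show 0 ≤ 4 * d1 + 16 * d0 by linarith) he hq hw h2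
    (stb_pub (M := MSi tb (v := v) d1 kb d0 k0 p1 z hd1 hd11 hkb hd0 hd01 hk0 hp1 hz) hw hm hL h1 h2).2 hn κ

/-- **PUBLIC REMOVAL** : log density at the removal and at any state of the public epoch -/
theorem p2_nu (H : D.Hyp dg prr al T Lam) (R : Run h N SS (AdmDep D) v) (hS : ∀ l, univ.erase l ∈ SS) (hu : univ ∉ SS)
    (hN : ∀ l, 0 < N (univ.erase l)) {q : ℕ} (hq : q / 5 ≤ T) {w : Om W X β} (hw : tb.Ps.p w ≠ 0) (i : Fin 3)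
    (hL : ¬ Lst (MSi tb (v := v) d1 kb d0 k0 p1 z hd1 hd11 hkb hd0 hd01 hk0 hp1 hz)
        (nu (MSi tb (v := v) d1 kb d0 k0 p1 z hd1 hd11 hkb hd0 hd01 hk0 hp1 hz) q w) q w) {r : ℕ}
    (h1 : nu (MSi tb (v := v) d1 kb d0 k0 p1 z hd1 hd11 hkb hd0 hd01 hk0 hp1 hz) q w ≤ r) (h2 : r ≤ q) :
    |pq2 h v tb i q w - pq2 h v tb i r w| ≤ 24 * d0 := by
  rw [pq2_o2 tb hd1 hd11 hkb hd0 hd01 hk0 hp1 hz H R hS hu hN hq hw i,
    pq2_o2 tb hd1 hd11 hkb hd0 hd01 hk0 hp1 hz H R hS hu hN ((Nat.div_le_div_right h2).trans hq) hw i]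
  exact o2_unl (M := MSi tb (v := v) d1 kb d0 k0 p1 z hd1 hd11 hkb hd0 hd01 hk0 hp1 hz) i hw hL h1 h2

/-- **PUBLIC REMOVAL** : the kinds of the two tops at the removal and at any state of the public epoch -/
theorem kq2_nu (H : D.Hyp dg prr al T Lam) (R : Run h N SS (AdmDep D) v) (hS : ∀ l, univ.erase l ∈ SS) (hu : univ ∉ SS)
    (hN : ∀ l, 0 < N (univ.erase l)) {c : KC} (h3 : 0 < c.dH) (h4 : c.dH ≤ 1 / 4) (he : 8 * d0 ≤ 1 / 100) {q : ℕ}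
    (hq : q / 5 ≤ T) {w : Om W X β} (hw : tb.Ps.p w ≠ 0) {i : Fin 3}
    (hL : ¬ 0 < tb.Ps.ce (TH (MSi tb (v := v) d1 kb d0 k0 p1 z hd1 hd11 hkb hd0 hd01 hk0 hp1 hz) q) (fun u =>
      ind (Lst (MSi tb (v := v) d1 kb d0 k0 p1 z hd1 hd11 hkb hd0 hd01 hk0 hp1 hz)
        (nu (MSi tb (v := v) d1 kb d0 k0 p1 z hd1 hd11 hkb hd0 hd01 hk0 hp1 hz) q w) q u)) w) {r : ℕ}
    (h1 : nu (MSi tb (v := v) d1 kb d0 k0 p1 z hd1 hd11 hkb hd0 hd01 hk0 hp1 hz) q w ≤ r) (h2 : r ≤ q)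
    (hn : ¬ nrW (MSi tb (v := v) d1 kb d0 k0 p1 z hd1 hd11 hkb hd0 hd01 hk0 hp1 hz) c i (8000 * d0) q w)
    (κ : Fin 10) : kq2 h v tb c i κ q w ↔ kq2 h v tb c i κ r w :=
  kq2_stb tb hd1 hd11 hkb hd0 hd01 hk0 hp1 hz H R hS hu hN h3 h4 (show 0 ≤ 8 * d0 by linarith) he hq hw (u := i) h2
    (stb_nu (M := MSi tb (v := v) d1 kb d0 k0 p1 z hd1 hd11 hkb hd0 hd01 hk0 hp1 hz) hw hL h1 h2)
    (by rw [show 1000 * (8 * d0) = 8000 * d0 by ring]; exact hn) κ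

/-! ### the tables of a start (RULE L), life of the status clock -/

/-- **PRIVATE REMOVAL of `i`, start of the life of `i`** (outside the levels with a light public value) -/
theorem kd2_prv (H : D.Hyp dg prr al T Lam) (R : Run h N SS (AdmDep D) v) (hS : ∀ l, univ.erase l ∈ SS) (hu : univ ∉ SS)
    (hN : ∀ l, 0 < N (univ.erase l)) {c : KC} (h3 : 0 < c.dH) (h4 : c.dH ≤ 1 / 4) (he : d1 ≤ 1 / 400) {q : ℕ}
    (hq : q / 5 ≤ T) {w : Om W X β} (hw : tb.Ps.p w ≠ 0) (hL : ¬ ltL v tb q w) {i : Fin 3}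
    (hm : ¬ MV.Mv (MSi tb (v := v) d1 kb d0 k0 p1 z hd1 hd11 hkb hd0 hd01 hk0 hp1 hz) i q w)
    (hn : ¬ nrW (MSi tb (v := v) d1 kb d0 k0 p1 z hd1 hd11 hkb hd0 hd01 hk0 hp1 hz) c i (4000 * d1) q w) :
    (∀ κ, kq2 h v tb c i κ q w ↔
      kq2 h v tb c i κ (eT v tb (tauS (MSi tb (v := v) d1 kb d0 k0 p1 z hd1 hd11 hkb hd0 hd01 hk0 hp1 hz) i q w) w) w) ∧
    |pq2 h v tb i q w -
      pq2 h v tb i (eT v tb (tauS (MSi tb (v := v) d1 kb d0 k0 p1 z hd1 hd11 hkb hd0 hd01 hk0 hp1 hz) i q w) w) w| ≤ 24 * d1 := by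
  have g1 := (tau_tauS (M := MSi tb (v := v) d1 kb d0 k0 p1 z hd1 hd11 hkb hd0 hd01 hk0 hp1 hz) i q w).trans
    (le_eT (v := v) tb _ w)
  have g2 := eT_le (v := v) tb (tauS_le (M := MSi tb (v := v) d1 kb d0 k0 p1 z hd1 hd11 hkb hd0 hd01 hk0 hp1 hz) i q w) hL
  exact ⟨fun κ => kq2_prv tb hd1 hd11 hkb hd0 hd01 hk0 hp1 hz H R hS hu hN h3 h4 he hq hw hm g1 g2 hn κ,
    p2_prv tb hd1 hd11 hkb hd0 hd01 hk0 hp1 hz H R hS hu hN hq hw hm g1 g2⟩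

/-- **PUBLIC REMOVAL, start of the life of `i`** -/
theorem kd2_pub (H : D.Hyp dg prr al T Lam) (R : Run h N SS (AdmDep D) v) (hS : ∀ l, univ.erase l ∈ SS) (hu : univ ∉ SS)
    (hN : ∀ l, 0 < N (univ.erase l)) {c : KC} (h3 : 0 < c.dH) (h4 : c.dH ≤ 1 / 4) (he : 4 * d1 + 16 * d0 ≤ 1 / 100) {q : ℕ}
    (hq : q / 5 ≤ T) {w : Om W X β} (hw : tb.Ps.p w ≠ 0) (hl : ¬ ltL v tb q w) {i : Fin 3}
    (hm : ¬ MV.Mv (MSi tb (v := v) d1 kb d0 k0 p1 z hd1 hd11 hkb hd0 hd01 hk0 hp1 hz) i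
      (nu (MSi tb (v := v) d1 kb d0 k0 p1 z hd1 hd11 hkb hd0 hd01 hk0 hp1 hz) q w) w)
    (hL : ¬ 0 < tb.Ps.ce (TH (MSi tb (v := v) d1 kb d0 k0 p1 z hd1 hd11 hkb hd0 hd01 hk0 hp1 hz) q) (fun u =>
      ind (Lst (MSi tb (v := v) d1 kb d0 k0 p1 z hd1 hd11 hkb hd0 hd01 hk0 hp1 hz)
        (nu (MSi tb (v := v) d1 kb d0 k0 p1 z hd1 hd11 hkb hd0 hd01 hk0 hp1 hz) q w) q u)) w)
    (hn : ¬ nrW (MSi tb (v := v) d1 kb d0 k0 p1 z hd1 hd11 hkb hd0 hd01 hk0 hp1 hz) c i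
      (1000 * (4 * d1 + 16 * d0)) q w) :
    (∀ κ, kq2 h v tb c i κ q w ↔
      kq2 h v tb c i κ (eT v tb (tauS (MSi tb (v := v) d1 kb d0 k0 p1 z hd1 hd11 hkb hd0 hd01 hk0 hp1 hz) i q w) w) w) ∧
    |pq2 h v tb i q w -
      pq2 h v tb i (eT v tb (tauS (MSi tb (v := v) d1 kb d0 k0 p1 z hd1 hd11 hkb hd0 hd01 hk0 hp1 hz) i q w) w) w| ≤
        24 * d1 + 96 * d0 := by
  have g1 := (tau_tauS (M := MSi tb (v := v) d1 kb d0 k0 p1 z hd1 hd11 hkb hd0 hd01 hk0 hp1 hz) i q w).trans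
    (le_eT (v := v) tb _ w)
  have g2 := eT_le (v := v) tb (tauS_le (M := MSi tb (v := v) d1 kb d0 k0 p1 z hd1 hd11 hkb hd0 hd01 hk0 hp1 hz) i q w) hl
  exact ⟨fun κ => kq2_pub tb hd1 hd11 hkb hd0 hd01 hk0 hp1 hz H R hS hu hN h3 h4 he hq hw hm hL g1 g2 hn κ,
    p2_pub tb hd1 hd11 hkb hd0 hd01 hk0 hp1 hz H R hS hu hN hq hw hm hL g1 g2⟩

/-- **PUBLIC REMOVAL, public start** -/
theorem kd2_nu (H : D.Hyp dg prr al T Lam) (R : Run h N SS (AdmDep D) v) (hS : ∀ l, univ.erase l ∈ SS) (hu : univ ∉ SS)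
    (hN : ∀ l, 0 < N (univ.erase l)) {c : KC} (h3 : 0 < c.dH) (h4 : c.dH ≤ 1 / 4) (he : 8 * d0 ≤ 1 / 100) {q : ℕ}
    (hq : q / 5 ≤ T) {w : Om W X β} (hw : tb.Ps.p w ≠ 0) (hl : ¬ ltL v tb q w) {i : Fin 3}
    (hL : ¬ 0 < tb.Ps.ce (TH (MSi tb (v := v) d1 kb d0 k0 p1 z hd1 hd11 hkb hd0 hd01 hk0 hp1 hz) q) (fun u =>
      ind (Lst (MSi tb (v := v) d1 kb d0 k0 p1 z hd1 hd11 hkb hd0 hd01 hk0 hp1 hz)
        (nu (MSi tb (v := v) d1 kb d0 k0 p1 z hd1 hd11 hkb hd0 hd01 hk0 hp1 hz) q w) q u)) w)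
    (hn : ¬ nrW (MSi tb (v := v) d1 kb d0 k0 p1 z hd1 hd11 hkb hd0 hd01 hk0 hp1 hz) c i (8000 * d0) q w) :
    (∀ κ, kq2 h v tb c i κ q w ↔
      kq2 h v tb c i κ (eT v tb (nu (MSi tb (v := v) d1 kb d0 k0 p1 z hd1 hd11 hkb hd0 hd01 hk0 hp1 hz) q w) w) w) ∧
    |pq2 h v tb i q w -
      pq2 h v tb i (eT v tb (nu (MSi tb (v := v) d1 kb d0 k0 p1 z hd1 hd11 hkb hd0 hd01 hk0 hp1 hz) q w) w) w| ≤ 24 * d0 := by
  have g1 := le_eT (v := v) tb (nu (MSi tb (v := v) d1 kb d0 k0 p1 z hd1 hd11 hkb hd0 hd01 hk0 hp1 hz) q w) w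
  have g2 := eT_le (v := v) tb (nu_le (M := MSi tb (v := v) d1 kb d0 k0 p1 z hd1 hd11 hkb hd0 hd01 hk0 hp1 hz) q w) hl
  exact ⟨fun κ => kq2_nu tb hd1 hd11 hkb hd0 hd01 hk0 hp1 hz H R hS hu hN h3 h4 he hq hw hL g1 g2 hn κ,
    p2_nu tb hd1 hd11 hkb hd0 hd01 hk0 hp1 hz H R hS hu hN hq hw i
      (unl_self (M := MSi tb (v := v) d1 kb d0 k0 p1 z hd1 hd11 hkb hd0 hd01 hk0 hp1 hz) hw hL) g1 g2⟩

end run

end

end Pool.Agent.GMH.KDTw
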