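import Pool.Agent.GMH.StpJ
import Pool.Agent.GMH.KDTw
import Pool.Agent.GMH.ExitV

/-!
# GMH/KDV (helper64): transfer of the relations of the densities from the start of the life to the removal, ONE SIDED

No `near a threshold`: the thresholds `c` at the start, smaller thresholds `c'` at the removal (`Gap` of `GMH/ExitK`).
* `bad_st`, `co_st` : over a stable triple (`Stb`), the core `co c k` at the time `t` implies `co c' k` at the time `s`;
* `ck_iff` : the core `ck` of the run on the data `MSi` (frames: three tops, two tops which see `i`);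
* `cv_stb` : the core `cv fr c κ o` at the state `r` implies `cv fr c' κ o` at the state `q`;
* `cv_prv` (not moved at `i`), `cv_pub` (public removal, exact vertex `i`), `cv_nu` (public removal, node), for any state `r` of
  the life; `SR_prv`, `SR_pub`, `SR_nu` : from the relation `SR` of the start of the life (RULE L), outside the levels with a
  light public value; `SR_lt` : inside such a level.
-/

set_option autoImplicit false
set_option linter.unusedSectionVars false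

namespace Pool.Agent.GMH.KDV

open Finset Pool.Agent.PWZ Pool.Agent.M3 Pool.Agent.GM Pool.Agent.GM.Harm Pool.Agent.GMH Pool.Agent.GMH.NZ
open Pool.Agent.GMH.V3 Pool.Agent.GMH.TP Pool.Agent.GMH.TD Pool.Agent.GMH.Dy Pool.Agent.GMH.MV Pool.Agent.GMH.MVI
open Pool.Agent.GMH.CK Pool.Agent.GMH.KF Pool.Agent.GMH.KDT Pool.Agent.GMH.KDTw Pool.Agent.GMH.KDL Pool.Agent.GMH.ExK
open Pool.Agent.GMH.KFR Pool.Agent.GMH.TRF

noncomputable section

/-! ### any data -/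

section ms

variable {Om : Type} [Fintype Om] {M : MS Om}

/-- the core of the kind at the true tuple, state `s` -/
def coM (M : MS Om) (c : KC) (k s : ℕ) (w : Om) : Prop := co M.P (TH M s) (Ft M s) c k w (tup (Ft M s) w)

theorem vt_le {v : Fin 3} {e : ℝ} (he0 : 0 ≤ e) (he : e ≤ 1 / 100) {s t : ℕ} (hts : t ≤ s) {w : Om} (hw : M.P.p w ≠ 0)
    (h : Stb M v e t s w) (S : Finset (Fin 3)) {a b : ℝ} (hab : b + 500 * e ≤ a)
    (ht : 2 * a * pS M.P (TH M t) (Ft M t) S w (tup (Ft M t) w) ≤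
      tvn M.P (TH M t) (Ft M t) S w (tup (Ft M t) w)) :
    2 * b * pS M.P (TH M s) (Ft M s) S w (tup (Ft M s) w) ≤
      tvn M.P (TH M s) (Ft M s) S w (tup (Ft M s) w) := by
  have h1 := (vt_iff hw a).1 ht
  have h2 := (abs_le.1 (vt_st he0 he hts hw h S)).1
  exact (vt_iff hw b).2 (by linarith)

theorem bad_st {v : Fin 3} {e : ℝ} (he0 : 0 ≤ e) (he : e ≤ 1 / 100) {s t : ℕ} (hts : t ≤ s) {w : Om} (hw : M.P.p w ≠ 0)
    (h : Stb M v e t s w) {c c' : KC} (hc : c'.e2 + 500 * e ≤ c.e2) (i : Fin 3)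
    (hb : bad M.P (TH M t) (Ft M t) c i w (tup (Ft M t) w)) : bad M.P (TH M s) (Ft M s) c' i w (tup (Ft M s) w) :=
  ⟨pS_pos {i} hw, vt_le he0 he hts hw h {i} hc hb.2⟩

/-- **ONE SIDED TRANSFER OF THE CORES** -/
theorem co_st {v : Fin 3} {e : ℝ} (he0 : 0 ≤ e) (he : e ≤ 1 / 100) {s t : ℕ} (hts : t ≤ s) {w : Om} (hw : M.P.p w ≠ 0)
    (h : Stb M v e t s w) {c c' : KC} {k : ℕ} (hg : Gap (500 * e) c c' k) (hc : coM M c k t w) : coM M c' k s w := by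
  have hb : c'.e2 + 500 * e ≤ c.e2 → ∀ i, bad M.P (TH M t) (Ft M t) c i w (tup (Ft M t) w) →
      bad M.P (TH M s) (Ft M s) c' i w (tup (Ft M s) w) := fun h2 i => bad_st he0 he hts hw h h2 i
  have hd : ∀ S : Finset (Fin 3), (1 - 8 * e) * vd M S t w ≤ vd M S s w ∧ vd M S s w ≤ (1 + 16 * e) * vd M S t w := by
    intro S
    obtain ⟨g1, g2⟩ := exp_small he0 he
    obtain ⟨g3, g4⟩ := vd_st hts hw h S
    have g5 := (vd_pos (M := M) S t hw).le
    exact ⟨(mul_le_mul_of_nonneg_right g2 g5).trans g3, g4.trans (mul_le_mul_of_nonneg_right g1 g5)⟩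
  -- the pairs
  have hH : ∀ i : Fin 3, c'.e3 + 500 * e ≤ c.e3 → c'.dH + 2 * (500 * e) ≤ c.dH → c.dH ≤ 1 → 0 ≤ c'.dH →
      (0 < pS M.P (TH M t) (Ft M t) (opp i) w (tup (Ft M t) w) ∧
        (c.dH ≤ |KF.dens M.P (TH M t) (Ft M t) (opp i) w (tup (Ft M t) w) - 1| ∨
          2 * c.e3 * pS M.P (TH M t) (Ft M t) (opp i) w (tup (Ft M t) w) ≤
            tvn M.P (TH M t) (Ft M t) (opp i) w (tup (Ft M t) w))) →
      (0 < pS M.P (TH M s) (Ft M s) (opp i) w (tup (Ft M s) w) ∧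
        (c'.dH ≤ |KF.dens M.P (TH M s) (Ft M s) (opp i) w (tup (Ft M s) w) - 1| ∨
          2 * c'.e3 * pS M.P (TH M s) (Ft M s) (opp i) w (tup (Ft M s) w) ≤
            tvn M.P (TH M s) (Ft M s) (opp i) w (tup (Ft M s) w))) := by
    rintro i h3 h4 h5 h6 ⟨-, h7 | h7⟩
    · refine ⟨pS_pos (opp i) hw, Or.inl ?_⟩
      obtain ⟨g1, g2⟩ := hd (opp i)
      have g3 := vd_pos (M := M) (opp i) t hw
      have e1 : KF.dens M.P (TH M t) (Ft M t) (opp i) w (tup (Ft M t) w) = vd M (opp i) t w := rfl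
      have e2 : KF.dens M.P (TH M s) (Ft M s) (opp i) w (tup (Ft M s) w) = vd M (opp i) s w := rfl
      rw [e1] at h7
      rw [e2]
      rcases le_abs.1 h7 with h8 | h8
      · refine le_trans ?_ (le_abs_self _)
        nlinarith
      · refine le_trans ?_ (neg_le_abs _)
        nlinarith
    · exact ⟨pS_pos (opp i) hw, Or.inr (vt_le he0 he hts hw h (opp i) h3 h7)⟩
  unfold coM co at hc ⊢
  match k, hg with
  | 0, _ => exact absurd hc (by simp [Ap])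
  | 1, hg =>
    have e1 : ∀ (c : KC) (r : ℕ), Ap M.P (TH M r) (Ft M r) c 1 w (tup (Ft M r) w) ↔
        2 * c.e1 * pS M.P (TH M r) (Ft M r) ∅ w (tup (Ft M r) w) ≤ tvn M.P (TH M r) (Ft M r) ∅ w (tup (Ft M r) w) := by
      intro c r
      rw [KF.pS_empty M.P (Ft M r) hw, mul_one]
      exact Iff.rfl
    rw [if_neg (by omega), if_neg (by omega), if_neg (by omega)] at hc ⊢
    exact (e1 c' s).2 (vt_le he0 he hts hw h ∅ (hg.g1 rfl) ((e1 c t).1 hc))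
  | 2, hg =>
    rw [if_pos rfl] at hc ⊢
    exact hb (hg.g2 (by omega) (by omega)) 0 hc
  | 3, hg =>
    rw [if_neg (by omega), if_pos rfl] at hc ⊢
    exact hb (hg.g2 (by omega) (by omega)) 1 hc
  | 4, hg =>
    rw [if_neg (by omega), if_neg (by omega), if_pos rfl] at hc ⊢
    exact hb (hg.g2 (by omega) (by omega)) 2 hc
  | 5, hg =>
    rw [if_neg (by omega), if_neg (by omega), if_neg (by omega)] at hc ⊢
    have h2 := hb (hg.g2 (by omega) (by omega))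
    exact hc.imp (And.imp (h2 0) (h2 1)) (Or.imp (And.imp (h2 0) (h2 2)) (And.imp (h2 1) (h2 2)))
  | 6, hg =>
    rw [if_neg (by omega), if_neg (by omega), if_neg (by omega)] at hc ⊢
    obtain ⟨a, b, d⟩ := hg.gd (by omega) (by omega)
    exact hH 0 (hg.g3 (by omega) (by omega)) a b d hc
  | 7, hg =>
    rw [if_neg (by omega), if_neg (by omega), if_neg (by omega)] at hc ⊢
    obtain ⟨a, b, d⟩ := hg.gd (by omega) (by omega)
    exact hH 1 (hg.g3 (by omega) (by omega)) a b d hc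
  | 8, hg =>
    rw [if_neg (by omega), if_neg (by omega), if_neg (by omega)] at hc ⊢
    obtain ⟨a, b, d⟩ := hg.gd (by omega) (by omega)
    exact hH 2 (hg.g3 (by omega) (by omega)) a b d hc
  | 9, hg =>
    rw [if_neg (by omega), if_neg (by omega), if_neg (by omega)] at hc ⊢
    obtain ⟨a, b, d⟩ := hg.gd (by omega) (by omega)
    obtain ⟨g1, g2⟩ := hd univ
    have g3 := vd_pos (M := M) univ t hw
    have h8 : 1 + 4 * c.dH ≤ vd M univ t w := hc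
    show 1 + 4 * c'.dH ≤ vd M univ s w
    nlinarith
  | (n + 10), _ =>
    rw [if_neg (by omega), if_neg (by omega), if_neg (by omega)] at hc
    exact absurd hc (by simp [Ap])

end ms

/-! ### the run -/

section run

variable {X β γ φ : Type} [Fintype X] [Fintype β] [Fintype φ] [Nonempty X] [Nonempty β]
variable {D : HD (Fin 3) X β γ φ} {al : ℝ} {h : D.Thick al} {N : Finset (Fin 3) → ℝ} {SS : Finset (Finset (Fin 3))}
  {v : ℕ → Finset (Fin 3) → X → (Fin 3 → β) → Pt (Fin 3) X β φ}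
variable {dg : ℕ → X → ℝ} {prr : ℕ → Fin 3 → φ → φ} {T : ℕ} {Lam : ℝ} {W : Type} [Fintype W] (tb : Tab D prr T W)
variable {d1 kb d0 k0 p1 z : ℝ} (hd1 : 0 < d1) (hd11 : d1 ≤ 1) (hkb : 0 < kb) (hd0 : 0 < d0) (hd01 : d0 ≤ 1) (hk0 : 0 < k0)
  (hp1 : 0 < p1) (hz : 0 < z)

/-- the data of the frame: three tops or the two tops which see `i` -/
def fM {Om : Type} [Fintype Om] (M : MS Om) (fr : Option (Fin 3)) : MS Om :=
  match fr with
  | Option.none => M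
  | Option.some i => tw M i

theorem co_push {Om Om' : Type*} [Fintype Om] [Fintype Om'] {P : FP Om} {P' : FP Om'} {π : Om → Om'} {υ υ' φ φ' : Type*}
    {Z : Om → υ} {Z' : Om' → υ'} {F : Fin 3 → Om → φ} {F' : Fin 3 → Om' → φ'} (H : Rnm P P' π Z Z' F F') {w : Om}
    (hw : P.p w ≠ 0) (c : KC) (k : ℕ) : co P Z F c k w (tup F w) ↔ co P' Z' F' c k (π w) (tup F' (π w)) := by
  have h1 := bad_push H hw c
  have h2 := Ap_push H hw c k
  unfold co
  simp only [h1, h2]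

/-- **the cores of the run on the data `MSi`** -/
theorem ck_iff (H : D.Hyp dg prr al T Lam) (R : Run h N SS (AdmDep D) v) (hS : ∀ l, univ.erase l ∈ SS) (hu : univ ∉ SS)
    (hN : ∀ l, 0 < N (univ.erase l)) {q : ℕ} (hq : q / 5 ≤ T) {w : Om W X β} (hw : tb.Ps.p w ≠ 0) (fr : Option (Fin 3))
    (c : KC) (k : ℕ) : ck h v tb fr c k q w ↔
      coM (fM (MSi tb (v := v) d1 kb d0 k0 p1 z hd1 hd11 hkb hd0 hd01 hk0 hp1 hz) fr) c k q w := by
  cases fr with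
  | none => exact (co_push (rnm3 tb hd1 hd11 hkb hd0 hd01 hk0 hp1 hz H R hS hu hN hq) hw c k).symm
  | some i => exact (co_push (rnm2 tb hd1 hd11 hkb hd0 hd01 hk0 hp1 hz H R hS hu hN hq i) hw c k).symm

theorem gap_j {x : ℝ} {c c' : KC} {k : ℕ} (hk : 2 ≤ k ∧ k ≤ 5) (hg : Gap x c c' k) (j : Fin 3) : Gap x c c' (j.1 + 2) :=
  ⟨fun e => by omega, fun _ _ => hg.g2 hk.1 hk.2, fun e => by omega, fun e => by omega⟩

/-- **ONE SIDED TRANSFER OF THE RELATIONS OF THE DENSITIES** over a stable triple, frames `fr` -/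
theorem cv_stb (H : D.Hyp dg prr al T Lam) (R : Run h N SS (AdmDep D) v) (hS : ∀ l, univ.erase l ∈ SS) (hu : univ ∉ SS)
    (hN : ∀ l, 0 < N (univ.erase l)) {c c' : KC} {κ : Fin 10} {e : ℝ} (he0 : 0 ≤ e) (he : e ≤ 1 / 100)
    (hg : Gap (500 * e) c c' κ.1) {q r : ℕ} (hq : q / 5 ≤ T) {w : Om W X β} (hw : tb.Ps.p w ≠ 0) (h2 : r ≤ q) {u : Fin 3}
    (hs : Stb (MSi tb (v := v) d1 kb d0 k0 p1 z hd1 hd11 hkb hd0 hd01 hk0 hp1 hz) u e r q w) (fr o : Option (Fin 3))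
    (hc : cv h v tb fr c κ o r w) : cv h v tb fr c' κ o q w := by
  have hr : r / 5 ≤ T := (Nat.div_le_div_right h2).trans hq
  have key : ∀ k, Gap (500 * e) c c' k → ck h v tb fr c k r w → ck h v tb fr c' k q w := by
    intro k hk h3
    rw [ck_iff tb hd1 hd11 hkb hd0 hd01 hk0 hp1 hz H R hS hu hN hr hw fr c k] at h3
    rw [ck_iff tb hd1 hd11 hkb hd0 hd01 hk0 hp1 hz H R hS hu hN hq hw fr c' k]
    cases fr with
    | none => exact co_st he0 he h2 hw hs hk h3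
    | some i =>
      exact co_st (M := tw (MSi tb (v := v) d1 kb d0 k0 p1 z hd1 hd11 hkb hd0 hd01 hk0 hp1 hz) i) he0 he h2 hw
        (stb_tw i hs) hk h3
  unfold cv at hc ⊢
  by_cases hk : 2 ≤ κ.1 ∧ κ.1 ≤ 5
  · rw [if_pos hk] at hc ⊢
    obtain ⟨j, h3, h4⟩ := hc
    exact ⟨j, h3, key _ (gap_j hk hg j) h4⟩
  · rw [if_neg hk] at hc ⊢
    exact key _ hg hc

/-- **PRIVATE REMOVAL of `i`** (or any time at which the triple is not moved at `i`), `r` any state of the exact epoch -/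
theorem cv_prv (H : D.Hyp dg prr al T Lam) (R : Run h N SS (AdmDep D) v) (hS : ∀ l, univ.erase l ∈ SS) (hu : univ ∉ SS)
    (hN : ∀ l, 0 < N (univ.erase l)) {c c' : KC} {κ : Fin 10} (he : d1 ≤ 1 / 400) (hg : Gap (2000 * d1) c c' κ.1) {q : ℕ}
    (hq : q / 5 ≤ T) {w : Om W X β} (hw : tb.Ps.p w ≠ 0) {i : Fin 3}
    (hm : ¬ MV.Mv (MSi tb (v := v) d1 kb d0 k0 p1 z hd1 hd11 hkb hd0 hd01 hk0 hp1 hz) i q w) {r : ℕ}
    (h1 : MV.tau (MSi tb (v := v) d1 kb d0 k0 p1 z hd1 hd11 hkb hd0 hd01 hk0 hp1 hz) i q w ≤ r) (h2 : r ≤ q)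
    (fr o : Option (Fin 3)) (hc : cv h v tb fr c κ o r w) : cv h v tb fr c' κ o q w :=
  cv_stb tb hd1 hd11 hkb hd0 hd01 hk0 hp1 hz H R hS hu hN (show 0 ≤ 4 * d1 by linarith) (show 4 * d1 ≤ 1 / 100 by linarith)
    (by rw [show 500 * (4 * d1) = 2000 * d1 by ring]; exact hg) hq hw h2
    (stb_of (M := MSi tb (v := v) d1 kb d0 k0 p1 z hd1 hd11 hkb hd0 hd01 hk0 hp1 hz) hw hm h1 h2) fr o hc

/-- **PUBLIC REMOVAL, exact vertex `i`** : not moved at the public start, nothing listed over the triple -/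
theorem cv_pub (H : D.Hyp dg prr al T Lam) (R : Run h N SS (AdmDep D) v) (hS : ∀ l, univ.erase l ∈ SS) (hu : univ ∉ SS)
    (hN : ∀ l, 0 < N (univ.erase l)) {c c' : KC} {κ : Fin 10} (he : 4 * d1 + 16 * d0 ≤ 1 / 100)
    (hg : Gap (500 * (4 * d1 + 16 * d0)) c c' κ.1) {q : ℕ}
    (hq : q / 5 ≤ T) {w : Om W X β} (hw : tb.Ps.p w ≠ 0) {i : Fin 3}
    (hm : ¬ MV.Mv (MSi tb (v := v) d1 kb d0 k0 p1 z hd1 hd11 hkb hd0 hd01 hk0 hp1 hz) i
      (nu (MSi tb (v := v) d1 kb d0 k0 p1 z hd1 hd11 hkb hd0 hd01 hk0 hp1 hz) q w) w)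
    (hL : ¬ 0 < tb.Ps.ce (TH (MSi tb (v := v) d1 kb d0 k0 p1 z hd1 hd11 hkb hd0 hd01 hk0 hp1 hz) q) (fun u =>
      ind (Lst (MSi tb (v := v) d1 kb d0 k0 p1 z hd1 hd11 hkb hd0 hd01 hk0 hp1 hz)
        (nu (MSi tb (v := v) d1 kb d0 k0 p1 z hd1 hd11 hkb hd0 hd01 hk0 hp1 hz) q w) q u)) w) {r : ℕ}
    (h1 : MV.tau (MSi tb (v := v) d1 kb d0 k0 p1 z hd1 hd11 hkb hd0 hd01 hk0 hp1 hz) i q w ≤ r) (h2 : r ≤ q)
    (fr o : Option (Fin 3)) (hc : cv h v tb fr c κ o r w) : cv h v tb fr c' κ o q w :=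
  cv_stb tb hd1 hd11 hkb hd0 hd01 hk0 hp1 hz H R hS hu hN (show 0 ≤ 4 * d1 + 16 * d0 by linarith) he hg hq hw h2
    (stb_pub (M := MSi tb (v := v) d1 kb d0 k0 p1 z hd1 hd11 hkb hd0 hd01 hk0 hp1 hz) hw hm hL h1 h2).2 fr o hc

/-- **PUBLIC REMOVAL, node** : nothing listed over the triple, `r` any state of the public epoch -/
theorem cv_nu (H : D.Hyp dg prr al T Lam) (R : Run h N SS (AdmDep D) v) (hS : ∀ l, univ.erase l ∈ SS) (hu : univ ∉ SS)
    (hN : ∀ l, 0 < N (univ.erase l)) {c c' : KC} {κ : Fin 10} (he : 8 * d0 ≤ 1 / 100) (hg : Gap (4000 * d0) c c' κ.1) {q : ℕ}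
    (hq : q / 5 ≤ T) {w : Om W X β} (hw : tb.Ps.p w ≠ 0)
    (hL : ¬ 0 < tb.Ps.ce (TH (MSi tb (v := v) d1 kb d0 k0 p1 z hd1 hd11 hkb hd0 hd01 hk0 hp1 hz) q) (fun u =>
      ind (Lst (MSi tb (v := v) d1 kb d0 k0 p1 z hd1 hd11 hkb hd0 hd01 hk0 hp1 hz)
        (nu (MSi tb (v := v) d1 kb d0 k0 p1 z hd1 hd11 hkb hd0 hd01 hk0 hp1 hz) q w) q u)) w) {r : ℕ}
    (h1 : nu (MSi tb (v := v) d1 kb d0 k0 p1 z hd1 hd11 hkb hd0 hd01 hk0 hp1 hz) q w ≤ r) (h2 : r ≤ q)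
    (fr o : Option (Fin 3)) (hc : cv h v tb fr c κ o r w) : cv h v tb fr c' κ o q w :=
  cv_stb tb hd1 hd11 hkb hd0 hd01 hk0 hp1 hz H R hS hu hN (show 0 ≤ 8 * d0 by linarith) he
    (by rw [show 500 * (8 * d0) = 4000 * d0 by ring]; exact hg) hq hw h2
    (stb_nu (M := MSi tb (v := v) d1 kb d0 k0 p1 z hd1 hd11 hkb hd0 hd01 hk0 hp1 hz) (v := 0) hw hL h1 h2) fr o hc

/-! ### the tables of the start of a life (RULE L), with aliveness -/

/-- a smaller gap -/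
theorem gap_mono {x y : ℝ} (hxy : x ≤ y) {c c' : KC} {k : ℕ} (hg : Gap y c c' k) : Gap x c c' k :=
  ⟨fun e => by linarith [hg.g1 e], fun a b => by linarith [hg.g2 a b], fun a b => by linarith [hg.g3 a b],
    fun a b => ⟨by linarith [(hg.gd a b).1], (hg.gd a b).2.1, (hg.gd a b).2.2⟩⟩

/-- **not moved at `i`, start of the life of `i`** : outside the levels with a light public value the core holds at `q` -/
theorem SR_prv (H : D.Hyp dg prr al T Lam) (R : Run h N SS (AdmDep D) v) (hS : ∀ l, univ.erase l ∈ SS) (hu : univ ∉ SS)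
    (hN : ∀ l, 0 < N (univ.erase l)) {p : AP} {c c' : KC} {κ : Fin 10} (he : d1 ≤ 1 / 400) (hg : Gap (2000 * d1) c c' κ.1)
    {q : ℕ} (hq : q / 5 ≤ T) {w : Om W X β} (hw : tb.Ps.p w ≠ 0) (hl : ¬ ltL v tb q w) {i : Fin 3}
    (hm : ¬ MV.Mv (MSi tb (v := v) d1 kb d0 k0 p1 z hd1 hd11 hkb hd0 hd01 hk0 hp1 hz) i q w) {fr o : Option (Fin 3)}
    (hc : SR h v tb fr p c κ o (MV.tauS (MSi tb (v := v) d1 kb d0 k0 p1 z hd1 hd11 hkb hd0 hd01 hk0 hp1 hz) i q w) w) :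
    cv h v tb fr c' κ o q w := by
  obtain ⟨g1, g2⟩ := st_rm tb hd1 hd11 hkb hd0 hd01 hk0 hp1 hz i hl
  exact cv_prv tb hd1 hd11 hkb hd0 hd01 hk0 hp1 hz H R hS hu hN he hg hq hw hm g1 g2 fr o hc.1

/-- **public removal, start of the life of `i`** -/
theorem SR_pub (H : D.Hyp dg prr al T Lam) (R : Run h N SS (AdmDep D) v) (hS : ∀ l, univ.erase l ∈ SS) (hu : univ ∉ SS)
    (hN : ∀ l, 0 < N (univ.erase l)) {p : AP} {c c' : KC} {κ : Fin 10} (he : 4 * d1 + 16 * d0 ≤ 1 / 100)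
    (hg : Gap (500 * (4 * d1 + 16 * d0)) c c' κ.1) {q : ℕ} (hq : q / 5 ≤ T) {w : Om W X β} (hw : tb.Ps.p w ≠ 0)
    (hl : ¬ ltL v tb q w) {i : Fin 3}
    (hm : ¬ MV.Mv (MSi tb (v := v) d1 kb d0 k0 p1 z hd1 hd11 hkb hd0 hd01 hk0 hp1 hz) i
      (nu (MSi tb (v := v) d1 kb d0 k0 p1 z hd1 hd11 hkb hd0 hd01 hk0 hp1 hz) q w) w)
    (hL : ¬ 0 < tb.Ps.ce (TH (MSi tb (v := v) d1 kb d0 k0 p1 z hd1 hd11 hkb hd0 hd01 hk0 hp1 hz) q) (fun u =>
      ind (Lst (MSi tb (v := v) d1 kb d0 k0 p1 z hd1 hd11 hkb hd0 hd01 hk0 hp1 hz)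
        (nu (MSi tb (v := v) d1 kb d0 k0 p1 z hd1 hd11 hkb hd0 hd01 hk0 hp1 hz) q w) q u)) w) {fr o : Option (Fin 3)}
    (hc : SR h v tb fr p c κ o (MV.tauS (MSi tb (v := v) d1 kb d0 k0 p1 z hd1 hd11 hkb hd0 hd01 hk0 hp1 hz) i q w) w) :
    cv h v tb fr c' κ o q w := by
  obtain ⟨g1, g2⟩ := st_rm tb hd1 hd11 hkb hd0 hd01 hk0 hp1 hz i hl
  exact cv_pub tb hd1 hd11 hkb hd0 hd01 hk0 hp1 hz H R hS hu hN he hg hq hw hm hL g1 g2 fr o hc.1

/-- **public removal, public start** -/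
theorem SR_nu (H : D.Hyp dg prr al T Lam) (R : Run h N SS (AdmDep D) v) (hS : ∀ l, univ.erase l ∈ SS) (hu : univ ∉ SS)
    (hN : ∀ l, 0 < N (univ.erase l)) {p : AP} {c c' : KC} {κ : Fin 10} (he : 8 * d0 ≤ 1 / 100)
    (hg : Gap (4000 * d0) c c' κ.1) {q : ℕ} (hq : q / 5 ≤ T) {w : Om W X β} (hw : tb.Ps.p w ≠ 0)
    (hl : ¬ ltL v tb q w)
    (hL : ¬ 0 < tb.Ps.ce (TH (MSi tb (v := v) d1 kb d0 k0 p1 z hd1 hd11 hkb hd0 hd01 hk0 hp1 hz) q) (fun u =>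
      ind (Lst (MSi tb (v := v) d1 kb d0 k0 p1 z hd1 hd11 hkb hd0 hd01 hk0 hp1 hz)
        (nu (MSi tb (v := v) d1 kb d0 k0 p1 z hd1 hd11 hkb hd0 hd01 hk0 hp1 hz) q w) q u)) w) {fr o : Option (Fin 3)}
    (hc : SR h v tb fr p c κ o (MV.nu (MSi tb (v := v) d1 kb d0 k0 p1 z hd1 hd11 hkb hd0 hd01 hk0 hp1 hz) q w) w) :
    cv h v tb fr c' κ o q w := by
  obtain ⟨g1, g2⟩ := st_nu tb hd1 hd11 hkb hd0 hd01 hk0 hp1 hz hl
  exact cv_nu tb hd1 hd11 hkb hd0 hd01 hk0 hp1 hz H R hS hu hN he hg hq hw hL g1 g2 fr o hc.1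

/-- inside a level with a light public value the life has started in this level -/
theorem ltL_tauS {q : ℕ} {w : Om W X β} (hl : ltL v tb q w) (i : Fin 3) :
    ltL v tb (MV.tauS (MSi tb (v := v) d1 kb d0 k0 p1 z hd1 hd11 hkb hd0 hd01 hk0 hp1 hz) i q w) w ∧
      MV.tauS (MSi tb (v := v) d1 kb d0 k0 p1 z hd1 hd11 hkb hd0 hd01 hk0 hp1 hz) i q w / 5 = q / 5 := by
  set M := MSi tb (v := v) d1 kb d0 k0 p1 z hd1 hd11 hkb hd0 hd01 hk0 hp1 hz with hM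
  have h1 : lt5 M M.NP (5 * (q / 5) + 1) w := ⟨by show (5 * (q / 5) + 1) % 5 ≠ 0; omega, hl.2⟩
  have h2 : MV.tauS M i (5 * (q / 5) + 1 + 1) w = 5 * (q / 5) + 1 + 1 := tauS_lt M (Or.inl h1)
  have h0 := hl.1
  have h3 : MV.tauS M i (5 * (q / 5) + 1 + 1) w ≤ MV.tauS M i q w := stg_mono (by omega) w
  have h4 : MV.tauS M i q w ≤ q := tauS_le i q w
  have h5 : MV.tauS M i q w / 5 = q / 5 := by omega
  refine ⟨⟨by omega, ?_⟩, h5⟩
  rw [h5]
  exact hl.2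

/-- the same for the public clock -/
theorem ltL_nu {q : ℕ} {w : Om W X β} (hl : ltL v tb q w) :
    ltL v tb (MV.nu (MSi tb (v := v) d1 kb d0 k0 p1 z hd1 hd11 hkb hd0 hd01 hk0 hp1 hz) q w) w ∧
      MV.nu (MSi tb (v := v) d1 kb d0 k0 p1 z hd1 hd11 hkb hd0 hd01 hk0 hp1 hz) q w / 5 = q / 5 := by
  set M := MSi tb (v := v) d1 kb d0 k0 p1 z hd1 hd11 hkb hd0 hd01 hk0 hp1 hz with hM
  have h1 : lt5 M M.NP (5 * (q / 5) + 1) w := ⟨by show (5 * (q / 5) + 1) % 5 ≠ 0; omega, hl.2⟩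
  have h2 : MV.nu M (5 * (q / 5) + 1 + 1) w = 5 * (q / 5) + 1 + 1 := nu_lt M h1
  have h0 := hl.1
  have h3 : MV.nu M (5 * (q / 5) + 1 + 1) w ≤ MV.nu M q w := stg_mono (by omega) w
  have h4 : MV.nu M q w ≤ q := MV.nu_le q w
  have h5 : MV.nu M q w / 5 = q / 5 := by omega
  refine ⟨⟨by omega, ?_⟩, h5⟩
  rw [h5]
  exact hl.2

/-- **inside a level with a light public value the relation of the life is the stay at once** -/
theorem SR_lt {p : AP} {c : KC} {κ : Fin 10} {τ q : ℕ} {w : Om W X β} (hl : ltL v tb q w) (hlt : ltL v tb τ w)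
    (hd : τ / 5 = q / 5) {fr o : Option (Fin 3)} (hc : SR h v tb fr p c κ o τ w) : SR h v tb fr p c κ o (q + 1) w := by
  have e1 : eT v tb τ w = 5 * (q / 5) + 5 := by
    unfold eT
    rw [if_pos hlt, hd]
  have h5 : q % 5 < 5 := Nat.mod_lt q (by omega)
  have e2 : eT v tb (q + 1) w = 5 * (q / 5) + 5 := by
    by_cases h4 : q % 5 = 4
    · have hn : ¬ ltL v tb (q + 1) w := fun hh => by
        have := hh.1
        omega
      unfold eT
      rw [if_neg hn]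
      omega
    · have hy : ltL v tb (q + 1) w := by
        have h6 : (q + 1) / 5 = q / 5 := by omega
        refine ⟨?_, ?_⟩
        · have := hl.1
          omega
        · rw [h6]
          exact hl.2
      unfold eT
      rw [if_pos hy]
      omega
  unfold SR at hc ⊢
  rw [e1] at hc
  rw [e2]
  exact hc

/-- **INPUT OF `exit_sum` AT AN END OF THE LIFE OF `i`, not moved at `i`** -/
theorem hR_prv (H : D.Hyp dg prr al T Lam) (R : Run h N SS (AdmDep D) v) (hS : ∀ l, univ.erase l ∈ SS) (hu : univ ∉ SS)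
    (hN : ∀ l, 0 < N (univ.erase l)) {p : AP} {c c' : KC} {κ : Fin 10} (he : d1 ≤ 1 / 400) (hg : Gap (2000 * d1) c c' κ.1)
    {q : ℕ} (hq : q / 5 ≤ T) {w : Om W X β} (hw : tb.Ps.p w ≠ 0) {i : Fin 3}
    (hm : ¬ MV.Mv (MSi tb (v := v) d1 kb d0 k0 p1 z hd1 hd11 hkb hd0 hd01 hk0 hp1 hz) i q w)
    (hA : Alv h v tb p q w) {fr o : Option (Fin 3)}
    (hc : SR h v tb fr p c κ o (MV.tauS (MSi tb (v := v) d1 kb d0 k0 p1 z hd1 hd11 hkb hd0 hd01 hk0 hp1 hz) i q w) w) :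
    (cv h v tb fr c' κ o q w ∧ Alv h v tb p q w) ∨ SR h v tb fr p c κ o (q + 1) w := by
  by_cases hl : ltL v tb q w
  · obtain ⟨g1, g2⟩ := ltL_tauS tb hd1 hd11 hkb hd0 hd01 hk0 hp1 hz hl i
    exact Or.inr (SR_lt tb hl g1 g2 hc)
  · exact Or.inl ⟨SR_prv tb hd1 hd11 hkb hd0 hd01 hk0 hp1 hz H R hS hu hN he hg hq hw hl hm hc, hA⟩

end run

end

end Pool.Agent.GMH.KDV
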