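import Pool.Agent.GMH.RarN6
import Pool.Agent.GMH.KDV

/-!
# GMH/RarN7 (helper88): THE NODE, EVERY STEP OF THE RUN (row C5, node)

* **`node_step`** : `q ≤ s ≤ q + 1`, relation of the start `τ ≤ q` (kinds of the tables of `eT τ`) cut by `Alv p q`, event `C` of the
  public class at `s`: `Pr (C, y ≤ density at (hidden point, cells of nn s)) ≤ exp (-L1) Pr C + Pr (light digit of the level)`;
  heavy and light levels together;
* `tauO` : the starts `nu q`, `tv i (nu q)` of the run instance; `tauO_es`, `tauO_le`, `tauO_lt`;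
* **`node_us`** : `node_step` for the relation of `Rn o (nu q)` and `Alv p q` of `USi`.
-/

set_option autoImplicit false
set_option linter.unusedSectionVars false

namespace Pool.Agent.GMH.RarN

open Finset Pool.Agent.PWZ Pool.Agent.M3 Pool.Agent.GM Pool.Agent.GM.Harm Pool.Agent.GMH
open Pool.Agent.GMH.Dy Pool.Agent.GMH.MVI Pool.Agent.GMH.MVIp Pool.Agent.GMH.KF

section om

variable {X β γ φ : Type} [Fintype X] [Fintype β] [Fintype φ] [Nonempty X] [Nonempty β]
variable {D : HD (Fin 3) X β γ φ} {al : ℝ} {h : D.Thick al} {prr : ℕ → Fin 3 → φ → φ} {T : ℕ} {W : Type} [Fintype W]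
variable {tb : Tab D prr T W} {v : ℕ → Finset (Fin 3) → X → (Fin 3 → β) → Pt (Fin 3) X β φ}

theorem hvy_NP {dg : ℕ → X → ℝ} {Lam : ℝ} (H : D.Hyp dg prr al T Lam) {t s : ℕ} (ht : t < T) (hs : 5 * t < s) {lam : ℝ}
    {u w : Om W X β} (e : NPo tb v s u = NPo tb v s w) : GamR.hvy tb v dg lam t u ↔ GamR.hvy tb v dg lam t w := by
  have e1 : NPo tb v (5 * t + 1) u = NPo tb v (5 * t + 1) w := NPo_mono tb (by omega) e
  exact GamR.hvy_fac (Prod.mk.inj ((GamR.NP51_dig tb H ht).1 e1)).2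

/-- where the class mass is used: inside a level with a light public value, or the public class at `q` is not a small part of
the class at `5 t` -/
def okq (tb : Tab D prr T W) (v : ℕ → Finset (Fin 3) → X → (Fin 3 → β) → Pt (Fin 3) X β φ) (lam : ℝ) (q : ℕ)
    (w : Om W X β) : Prop :=
  ltL v tb q w ∨ Real.exp (-(lam + 4)) * tb.Ps.m (NPo tb v (5 * (q / 5))) w ≤ tb.Ps.m (NPo tb v q) w

/-- **EVERY STEP** -/
theorem node_step {n N1 : ℝ} (hn : 1 ≤ n) (hN1 : 1 ≤ N1) (R : Run h (pr3 (Fin 3) n N1) (SS1 (Fin 3)) (AdmDep D) v)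
    {dg : ℕ → X → ℝ} {Lam : ℝ} (H : D.Hyp dg prr al T Lam) {q s : ℕ} (hqs : q ≤ s) (hs : s ≤ q + 1) (hsT : s ≤ 5 * T)
    {p : V3.AP} (hX0 : 0 ≤ p.X0) {lam L1 eta y : ℝ} (hlam : 0 ≤ lam) (hL1 : 0 ≤ L1) {τ : Om W X β → ℕ}
    (hτ : ∀ u w, tb.Ps.p u ≠ 0 → tb.Ps.p w ≠ 0 → Es tb v q u w → τ u = τ w) (hle : ∀ w, τ w ≤ q)
    (hτl : ∀ u, ltL v tb q u → ltL v tb (τ u) u ∧ τ u / 5 = q / 5)
    {B : ℕ → Om W X β → Prop} (hB : ∀ e ≤ 5 * T, Sn tb v e (B e)) (hBal : ∀ e w, B e w → Alv h v tb p e w)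
    {C : Om W X β → Prop} (hC : Fac (NPo tb v s) C)
    (hCl : q % 5 = 1 → s = q + 1 → ∀ w, tb.Ps.p w ≠ 0 → C w → hz tb v (q / 5) w)
    (hm : ∀ w, tb.Ps.p w ≠ 0 → C w → okq tb v lam q w →
      tb.Ps.ce (NPo tb v q) (fun u => ind (At' tb v τ B u ∧ Alv h v tb p q u)) w ≤ eta)
    (hy : 54 * (L1 + 2 * (lam + 4) + 2 * p.X0 + 5) / N1 + 54 * Lam / n + 2 * eta < y / 8) :
    tb.Ps.Pr (fun w => C w ∧ y ≤ tb.Ps.ce (sgt D ∅ (TP.nn s)) (fun u => ind (At' tb v τ B u ∧ Alv h v tb p q u)) w) ≤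
      Real.exp (-L1) * tb.Ps.Pr C +
        tb.Ps.Pr (fun w => 5 * (q / 5) < s ∧ ¬ GamR.hvy tb v dg lam (q / 5) w) := by
  classical
  have hv := R.codes
  set t := q / 5 with ht
  have hsT' : s = 5 * t ∧ t ≤ T ∨ t < T := by omega
  have hs5 : s ≤ 5 * t + 5 := by omega
  have hBq : ∀ e ≤ q, Sn tb v q (B e) := fun e he => (hB e (by omega)).mono he (by omega)
  set CH : Om W X β → Prop := fun w => C w ∧ (5 * t < s → GamR.hvy tb v dg lam t w) ∧ (5 * t + 1 < s → hz tb v t w) with hCH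
  set CL : Om W X β → Prop := fun w => C w ∧ 5 * t + 1 < s ∧ ¬ hz tb v t w with hCLd
  set bad : Om W X β → Prop := fun w =>
    y ≤ tb.Ps.ce (sgt D ∅ (TP.nn s)) (fun u => ind (At' tb v τ B u ∧ Alv h v tb p q u)) w with hbad
  have fCH : Fac (NPo tb v s) CH := by
    intro u w e
    have e1 := hC u w e
    show (_ ∧ (_ → _) ∧ (_ → _)) = (_ ∧ (_ → _) ∧ (_ → _))
    rw [e1]
    refine propext (and_congr_right fun _ => and_congr ?_ ?_)
    · refine forall_congr' fun h1 => ?_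
      rcases hsT' with h2 | h2
      · exact absurd h1 (by omega)
      · exact hvy_NP H h2 h1 e
    · exact forall_congr' fun h1 => hz_fac (by omega) e
  -- heavy
  have k1 := step_B (h := h) (tb := tb) hn hN1 R H (q := q) (s := s) hsT' hqs hs5 hX0 hlam hL1 hτ hle hBq fCH
    (fun w hw hc h1 => hc.2.1 h1) (fun w hw hc h1 => hc.2.2 h1) (fun w hw hc => hm w hw hc.1 (Or.inr (by
      rw [← ht]
      rcases Nat.lt_or_ge t T with htT | htT
      · obtain ⟨j, hj⟩ := Nat.exists_eq_add_of_le (show 5 * t ≤ q by omega)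
        rw [hj]
        exact low5 (tb := tb) hv H htT (by omega) hw hlam (fun h1 => hc.2.1 (by omega)) fun h1 => hc.2.2 (by omega)
      · have e : q = 5 * t := by omega
        rw [e]
        have p0 := (tb.Ps.m_pos (NPo tb v (5 * t)) hw).le
        have h1 : Real.exp (-(lam + 4)) ≤ 1 := Real.exp_le_one_iff.2 (by linarith)
        have := mul_le_mul_of_nonneg_right h1 p0
        linarith))) hy
  -- light
  have k2 : tb.Ps.Pr (fun w => CL w ∧ bad w) ≤ Real.exp (-L1) * tb.Ps.Pr CL := by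
    by_cases h2 : 5 * t + 2 ≤ q
    · have htT : t < T := by omega
      have eN : ∀ r, 5 * t + 2 ≤ r → r ≤ 5 * t + 5 → NPo tb v r = NPo tb v (5 * t + 2) := fun r h3 h4 => by
        obtain ⟨j, rfl⟩ := Nat.exists_eq_add_of_le (show 5 * t ≤ r by omega)
        exact NPo_2 (by omega) (by omega)
      have fCL : Fac (NPo tb v (5 * t + 2)) CL := by
        intro u w e
        have e1 := hC u w (by rw [eN s (by omega) hs5]; exact e)
        show (_ ∧ _ ∧ _) = (_ ∧ _ ∧ _)
        rw [e1]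
        exact propext (and_congr_right fun _ => and_congr_right fun _ => not_congr (hz_fac le_rfl e))
      have hlt : ∀ w, tb.Ps.p w ≠ 0 → CL w → ∀ u, tb.Ps.p u ≠ 0 → NPo tb v (5 * t + 2) u = NPo tb v (5 * t + 2) w →
          eT v tb (τ u) u = 5 * (t + 1) := by
        intro w hw hc u hu e
        have h3 : ¬ hz tb v t u := fun hh => hc.2.2 ((hz_fac le_rfl e).1 hh)
        have h4 : ltL v tb q u := by
          refine ⟨by omega, ?_⟩
          rw [← ht]
          exact not_le.1 h3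
        obtain ⟨h5, h6⟩ := hτl u h4
        unfold eT
        rw [if_pos h5, h6]
        ring
      have hAA : ∀ w, tb.Ps.p w ≠ 0 → CL w → ∀ u, tb.Ps.p u ≠ 0 → NPo tb v q u = NPo tb v q w →
          ((At' tb v τ B u ∧ Alv h v tb p q u) ↔ At' tb v τ B u) := by
        intro w hw hc u hu e
        refine ⟨fun hh => hh.1, fun hh => ⟨hh, ?_⟩⟩
        rw [eN q h2 (by omega)] at e
        have h3 := hlt w hw hc u hu e
        unfold At' at hh
        rw [h3] at hh
        exact Alv_anti (h := h) (v := v) (tb := tb) (show q ≤ 5 * (t + 1) by omega) (hBal _ u hh)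
      have k3 := step_L (h := h) (tb := tb) hn hN1 R H htT hX0 hlam hL1 (τ := τ) (B := B) (hB _ (by omega))
        (hBal _) fCL hlt (eta := eta) (fun w hw hc => by
          have hlw : ltL v tb q w := ⟨by omega, by
            rw [← ht]
            exact not_le.1 hc.2.2⟩
          refine le_trans (le_of_eq ?_) (hm w hw hc.1 (Or.inl hlw))
          rw [← eN q h2 (by omega)]
          exact GamR.ce_sup tb.Ps fun u hu e => by rw [propext (hAA w hw hc u hu e)]) hy (s := s) (by omega) hs5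
      refine le_trans (le_of_eq ?_) k3
      refine tb.Ps.Pr_congr fun w hw => ?_
      by_cases hc : CL w
      · show CL w ∧ y ≤ _ ↔ _
        rw [ce_cls_congr hv hqs (hAA w hw hc)]
      · exact ⟨fun hh => absurd hh.1 hc, fun hh => absurd hh.1 hc⟩
    · have h3 : ∀ w, tb.Ps.p w ≠ 0 → ¬ CL w := fun w hw hc => by
        have h4 := hc.2.1
        exact hc.2.2 (hCl (by omega) (by omega) w hw hc.1)
      have h4 : tb.Ps.Pr (fun w => CL w ∧ bad w) = 0 := by
        unfold FP.Pr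
        rw [tb.Ps.E_congr (g := fun _ => 0) fun w hw => ind_not fun hh => h3 w hw hh.1, tb.Ps.E_const]
      rw [h4]
      exact mul_nonneg (Real.exp_pos _).le (tb.Ps.Pr_nonneg _)
  have k4 : tb.Ps.Pr (fun w => C w ∧ bad w) ≤ tb.Ps.Pr (fun w => CH w ∧ bad w) + tb.Ps.Pr (fun w => CL w ∧ bad w) +
      tb.Ps.Pr (fun w => 5 * t < s ∧ ¬ GamR.hvy tb v dg lam t w) := by
    unfold FP.Pr
    rw [← FP.E_add, ← FP.E_add]
    refine tb.Ps.E_mono fun w _ => ?_
    have n1 := ind_nonneg (CH w ∧ bad w)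
    have n2 := ind_nonneg (CL w ∧ bad w)
    have n3 := ind_nonneg (5 * t < s ∧ ¬ GamR.hvy tb v dg lam t w)
    by_cases h1 : C w ∧ bad w
    · rw [ind_of h1]
      by_cases h2 : 5 * t < s ∧ ¬ GamR.hvy tb v dg lam t w
      · rw [ind_of h2]
        linarith
      · by_cases h3 : 5 * t + 1 < s ∧ ¬ hz tb v t w
        · rw [ind_of (⟨⟨h1.1, h3.1, h3.2⟩, h1.2⟩ : CL w ∧ bad w)]
          linarith
        · have h4 : CH w := ⟨h1.1, fun a => by_contra fun b => h2 ⟨a, b⟩, fun a => by_contra fun b => h3 ⟨a, b⟩⟩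
          rw [ind_of (⟨h4, h1.2⟩ : CH w ∧ bad w)]
          linarith
    · rw [ind_not h1]
      linarith
  have k5 : tb.Ps.Pr CH + tb.Ps.Pr CL ≤ tb.Ps.Pr C := by
    unfold FP.Pr
    rw [← FP.E_add]
    refine tb.Ps.E_mono fun w _ => ?_
    by_cases h1 : C w
    · rw [ind_of h1]
      by_cases h3 : 5 * t + 1 < s ∧ ¬ hz tb v t w
      · rw [ind_not (fun hh => h3.2 (hh.2.2 h3.1) : ¬ CH w)]
        have := ind_le_one (CL w)
        linarith
      · rw [ind_not (fun hh => h3 hh.2 : ¬ CL w)]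
        have := ind_le_one (CH w)
        linarith
    · rw [ind_not h1, ind_not (fun hh => h1 hh.1 : ¬ CH w), ind_not (fun hh => h1 hh.1 : ¬ CL w), add_zero]
  have k6 := mul_le_mul_of_nonneg_left k5 (Real.exp_pos (-L1)).le
  have k1' : tb.Ps.Pr (fun w => CH w ∧ bad w) ≤ Real.exp (-L1) * tb.Ps.Pr CH := k1
  rw [mul_add] at k6
  show tb.Ps.Pr (fun w => C w ∧ bad w) ≤ _
  linarith

end om

end Pool.Agent.GMH.RarN
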