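import Pool.Agent.GMH.TD3

/-!
# GMH/Thr (helper37): WHAT IS THROWN AWAY AT A REMOVAL, GENERAL FORM (H3.MOV, M.4, M.7, M.11)

`N k` = information, `La k` = letters, `Ya` = their points, `ai k` = increment of the log probability of the letters (`TD0`).
`b k` = any event of `N (k + 1)` (removal), `a k` = a weight in `[0, 1]` (an event `A k`), function of the letters and of `N k`,
with conditional mean `≤ q` given `N k` on `b k`; on `b k` the points have the same law given `N k` and given `N (k + 1)`.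
Then `(1/2) log (1/q) E (1_(b k) a k) ≤ E ai k + √q P (b k)` (`thr_w`), for events `thr_ev`, sums `thr_sum_w`, `thr_sum`,
`thr_div` (divided form), `thr_lev` (removals at which the child has conditional probability `≥ p`); `ai_nonneg`.
-/

set_option autoImplicit false
set_option linter.unusedSectionVars false

namespace Pool.Agent.GMH.TD

open Finset Pool.Agent.PWZ Pool.Agent.M3

variable {Om : Type*} [Fintype Om] {P : FP Om} {κ lam η : Type*} {N : ℕ → Om → κ} {La : ℕ → Om → lam} {Ya : Om → η}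

/-- the mean of the increment is nonnegative -/
theorem ai_nonneg (hN : ∀ k, Fac (N (k + 1)) (N k)) (hY : ∀ k, Fac (La k) Ya) (k : ℕ) : 0 ≤ P.E (ai P N La Ya k) := by
  have hE1 := E_exp_ai (P := P) (La := La) hN hY k
  have h4 : P.E (fun w => 1 - Real.exp (- ai P N La Ya k w)) ≤ P.E (ai P N La Ya k) := by
    refine P.E_mono fun w _ => ?_
    have := Real.add_one_le_exp (- ai P N La Ya k w)
    linarith
  rw [P.E_sub, P.E_const] at h4
  linarith

/-- a removal and a weight of the letters -/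
theorem E_b_exp (hN : ∀ k, Fac (N (k + 1)) (N k)) (hY : ∀ k, Fac (La k) Ya) {k : ℕ} {b : Om → Prop} {a : Om → ℝ}
    (hprod : ∀ w, P.p w ≠ 0 → b w → P.m (fun u => (Ya u, N (k + 1) u)) w * P.m (N k) w =
      P.m (fun u => (Ya u, N k u)) w * P.m (N (k + 1)) w)
    (ha : Fac (fun w => (La k w, N k w)) a) (ha0 : ∀ w, 0 ≤ a w) (hb : Fac (N (k + 1)) b) {q : ℝ}
    (hq : ∀ w, P.p w ≠ 0 → b w → P.ce (N k) a w ≤ q) :
    P.E (fun w => ind (b w) * (a w * Real.exp (- ai P N La Ya k w))) ≤ q * P.Pr b := by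
  set g : Om → ℝ := fun w => ind (b w) * (P.m (N (k + 1)) w / P.m (N k) w) with hg
  have hgf : Fac (N (k + 1)) g := by
    intro u w huw
    rw [hg]
    simp only
    rw [hb u w huw, P.Fac_m (N (k + 1)) u w huw, P.Fac_m (N k) u w (hN k u w huw)]
  have e1 : P.E (fun w => ind (b w) * (a w * Real.exp (- ai P N La Ya k w))) =
      P.E (fun w => g w * (a w * (P.m (fun u => (La k u, N k u)) w / P.m (fun u => (La k u, N (k + 1) u)) w))) := by
    refine P.E_congr fun w hw => ?_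
    by_cases hbw : b w
    · have e : ∀ j w, P.m (fun v => (La k v, Ya v, N j v)) w = P.m (fun v => (La k v, N j v)) w := fun j =>
        P.m_congr (fun a b hab => by simp only [Prod.mk.injEq] at hab ⊢; exact ⟨hab.1, hab.2.2⟩)
          (fun a b hab => by simp only [Prod.mk.injEq] at hab ⊢; exact ⟨hab.1, hY k a b hab.1, hab.2⟩)
      rw [exp_neg_ai P hY k hw]
      unfold Dead.rr
      rw [e, e, hg]
      simp only
      have p1 := (P.m_pos (fun w => (La k w, N (k + 1) w)) hw).ne'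
      have p2 := (P.m_pos (fun w => (Ya w, N (k + 1) w)) hw).ne'
      have p3 := (P.m_pos (fun w => (La k w, N k w)) hw).ne'
      have p4 := (P.m_pos (fun w => (Ya w, N k w)) hw).ne'
      have p5 := (P.m_pos (N k) hw).ne'
      have p6 := (P.m_pos (N (k + 1)) hw).ne'
      have h1 : P.m (fun w => (Ya w, N (k + 1) w)) w / P.m (fun w => (Ya w, N k w)) w =
          P.m (N (k + 1)) w / P.m (N k) w := by
        rw [div_eq_div_iff p4 p5]
        have := hprod w hw hbw
        linarith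
      rw [← h1, mul_div_mul_comm]
      ring
    · rw [hg]
      simp only
      rw [ind_not hbw, zero_mul, zero_mul, zero_mul]
  rw [e1, ← P.E_mul_ce hgf]
  have h2 : P.E (fun w => g w * P.ce (N (k + 1)) (fun w => a w *
      (P.m (fun u => (La k u, N k u)) w / P.m (fun u => (La k u, N (k + 1) u)) w)) w) ≤ P.E (fun w => q * ind (b w)) := by
    refine P.E_mono fun w hw => ?_
    have p5 := P.m_pos (N k) hw
    have p6 := P.m_pos (N (k + 1)) hw
    have h3 := ce_rat (P := P) (L := La k) (U := N k) (U' := N (k + 1)) (hN k) (a := a) ha ha0 hw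
    have hg0 : 0 ≤ g w := mul_nonneg (ind_nonneg _) (div_nonneg p6.le p5.le)
    refine (mul_le_mul_of_nonneg_left h3 hg0).trans ?_
    have h4 : g w * (P.m (N k) w / P.m (N (k + 1)) w * P.ce (N k) a w) = ind (b w) * P.ce (N k) a w := by
      rw [hg]
      simp only
      have := p5.ne'
      have := p6.ne'
      field_simp
    rw [h4, mul_comm q]
    by_cases hbw : b w
    · exact mul_le_mul_of_nonneg_left (hq w hw hbw) (ind_nonneg _)
    · rw [ind_not hbw, zero_mul, zero_mul]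
  refine h2.trans (le_of_eq ?_)
  rw [P.E_smul]
  rfl

/-- **ONE STEP, WEIGHT** -/
theorem thr_w (hN : ∀ k, Fac (N (k + 1)) (N k)) (hY : ∀ k, Fac (La k) Ya) {k : ℕ} {b : Om → Prop} {a : Om → ℝ}
    (hprod : ∀ w, P.p w ≠ 0 → b w → P.m (fun u => (Ya u, N (k + 1) u)) w * P.m (N k) w =
      P.m (fun u => (Ya u, N k u)) w * P.m (N (k + 1)) w)
    (ha : Fac (fun w => (La k w, N k w)) a) (ha0 : ∀ w, 0 ≤ a w) (ha1 : ∀ w, a w ≤ 1) (hb : Fac (N (k + 1)) b) {q : ℝ}
    (hq0 : 0 < q) (hq1 : q < 1) (hq : ∀ w, P.p w ≠ 0 → b w → P.ce (N k) a w ≤ q) :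
    1 / 2 * Real.log (1 / q) * P.E (fun w => ind (b w) * a w) ≤ P.E (ai P N La Ya k) + Real.sqrt q * P.Pr b := by
  set t : ℝ := 1 / 2 * Real.log (1 / q) with ht
  have hlog : 0 < Real.log (1 / q) := Real.log_pos (by rw [lt_div_iff₀ hq0]; linarith)
  have ht0 : 0 < t := by rw [ht]; linarith
  have hE1 := E_exp_ai (P := P) (La := La) hN hY k
  have h1 := E_b_exp (P := P) (La := La) (Ya := Ya) hN hY hprod ha ha0 hb hq
  have h2 : P.E (fun w => t * (ind (b w) * a w) + 1 - (Real.exp (- ai P N La Ya k w) +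
      (Real.exp t - 1) * (ind (b w) * (a w * Real.exp (- ai P N La Ya k w))))) ≤ P.E (ai P N La Ya k) := by
    refine P.E_mono fun w _ => ?_
    have h3 := Real.add_one_le_exp (t * (ind (b w) * a w) - ai P N La Ya k w)
    have hc0 : 0 ≤ ind (b w) * a w := mul_nonneg (ind_nonneg _) (ha0 w)
    have hc1 : ind (b w) * a w ≤ 1 := mul_le_one₀ (ind_le_one _) (ha0 w) (ha1 w)
    have h5 : Real.exp (t * (ind (b w) * a w)) ≤ 1 + (Real.exp t - 1) * (ind (b w) * a w) := by
      have h6 := convexOn_exp.2 (Set.mem_univ (0 : ℝ)) (Set.mem_univ t) (sub_nonneg.2 hc1) hc0 (by ring)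
      simp only [smul_eq_mul, mul_zero, zero_add, Real.exp_zero, mul_one] at h6
      rw [mul_comm t]
      linarith
    have h4 : Real.exp (t * (ind (b w) * a w) - ai P N La Ya k w) ≤ Real.exp (- ai P N La Ya k w) +
        (Real.exp t - 1) * (ind (b w) * (a w * Real.exp (- ai P N La Ya k w))) := by
      rw [sub_eq_add_neg, Real.exp_add]
      have h6 := mul_le_mul_of_nonneg_right h5 (Real.exp_pos (- ai P N La Ya k w)).le
      refine h6.trans (le_of_eq ?_)
      ring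
    linarith
  rw [P.E_sub, P.E_add, P.E_const, P.E_add, P.E_smul, P.E_smul] at h2
  have het : 0 ≤ Real.exp t - 1 := by
    have := Real.add_one_le_exp t
    linarith
  have h4 := mul_le_mul_of_nonneg_left h1 het
  have hsq : Real.exp t * q = Real.sqrt q := by
    have h5 : Real.exp t = (Real.sqrt q)⁻¹ := by
      rw [ht, Real.sqrt_eq_rpow, ← Real.rpow_neg hq0.le, Real.rpow_def_of_pos hq0, one_div q, Real.log_inv]
      congr 1
      ring
    rw [h5, inv_mul_eq_div]
    exact Real.div_sqrt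
  have h5 : (Real.exp t - 1) * (q * P.Pr b) ≤ Real.sqrt q * P.Pr b := by
    have h6 : (Real.exp t - 1) * q ≤ Real.sqrt q := by
      rw [sub_mul, hsq]
      linarith
    have h7 := mul_le_mul_of_nonneg_right h6 (P.Pr_nonneg b)
    linarith
  linarith

/-- **ONE STEP, EVENT** -/
theorem thr_ev (hN : ∀ k, Fac (N (k + 1)) (N k)) (hY : ∀ k, Fac (La k) Ya) {k : ℕ} {b A : Om → Prop}
    (hprod : ∀ w, P.p w ≠ 0 → b w → P.m (fun u => (Ya u, N (k + 1) u)) w * P.m (N k) w =
      P.m (fun u => (Ya u, N k u)) w * P.m (N (k + 1)) w)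
    (hA : Fac (fun w => (La k w, N k w)) A) (hb : Fac (N (k + 1)) b) {q : ℝ} (hq0 : 0 < q) (hq1 : q < 1)
    (hq : ∀ w, P.p w ≠ 0 → b w → P.ce (N k) (fun u => ind (A u)) w ≤ q) :
    1 / 2 * Real.log (1 / q) * P.Pr (fun w => b w ∧ A w) ≤ P.E (ai P N La Ya k) + Real.sqrt q * P.Pr b := by
  have h1 := thr_w (P := P) (La := La) (Ya := Ya) (k := k) (b := b) (a := fun w => ind (A w)) hN hY hprod
    (fun u w huw => by simp only [hA u w huw]) (fun _ => ind_nonneg _) (fun _ => ind_le_one _) hb hq0 hq1 hq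
  have e1 : P.Pr (fun w => b w ∧ A w) = P.E (fun w => ind (b w) * ind (A w)) :=
    P.E_congr fun w _ => ind_and _ _
  rw [e1]
  exact h1

/-- **ALL STEPS, WEIGHTS** -/
theorem thr_sum_w (hN : ∀ k, Fac (N (k + 1)) (N k)) (hY : ∀ k, Fac (La k) Ya) {b : ℕ → Om → Prop} {a : ℕ → Om → ℝ}
    {T : ℕ} (hprod : ∀ k < T, ∀ w, P.p w ≠ 0 → b k w → P.m (fun u => (Ya u, N (k + 1) u)) w * P.m (N k) w =
      P.m (fun u => (Ya u, N k u)) w * P.m (N (k + 1)) w)
    (ha : ∀ k < T, Fac (fun w => (La k w, N k w)) (a k)) (ha0 : ∀ k w, 0 ≤ a k w) (ha1 : ∀ k w, a k w ≤ 1)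
    (hb : ∀ k < T, Fac (N (k + 1)) (b k)) {q : ℝ} (hq0 : 0 < q) (hq1 : q < 1)
    (hq : ∀ k < T, ∀ w, P.p w ≠ 0 → b k w → P.ce (N k) (a k) w ≤ q) :
    1 / 2 * Real.log (1 / q) * ∑ k ∈ range T, P.E (fun w => ind (b k w) * a k w) ≤
      ∑ k ∈ range T, P.E (ai P N La Ya k) + Real.sqrt q * ∑ k ∈ range T, P.Pr (b k) := by
  rw [Finset.mul_sum, Finset.mul_sum, ← Finset.sum_add_distrib]
  refine Finset.sum_le_sum fun k hk => ?_
  have hk' := mem_range.1 hk
  exact thr_w hN hY (hprod k hk') (ha k hk') (ha0 k) (ha1 k) (hb k hk') hq0 hq1 (hq k hk')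

/-- **ALL STEPS, EVENTS** -/
theorem thr_sum (hN : ∀ k, Fac (N (k + 1)) (N k)) (hY : ∀ k, Fac (La k) Ya) {b A : ℕ → Om → Prop} {T : ℕ}
    (hprod : ∀ k < T, ∀ w, P.p w ≠ 0 → b k w → P.m (fun u => (Ya u, N (k + 1) u)) w * P.m (N k) w =
      P.m (fun u => (Ya u, N k u)) w * P.m (N (k + 1)) w)
    (hA : ∀ k < T, Fac (fun w => (La k w, N k w)) (A k)) (hb : ∀ k < T, Fac (N (k + 1)) (b k)) {q : ℝ} (hq0 : 0 < q)
    (hq1 : q < 1) (hq : ∀ k < T, ∀ w, P.p w ≠ 0 → b k w → P.ce (N k) (fun u => ind (A k u)) w ≤ q) :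
    1 / 2 * Real.log (1 / q) * ∑ k ∈ range T, P.Pr (fun w => b k w ∧ A k w) ≤
      ∑ k ∈ range T, P.E (ai P N La Ya k) + Real.sqrt q * ∑ k ∈ range T, P.Pr (b k) := by
  rw [Finset.mul_sum, Finset.mul_sum, ← Finset.sum_add_distrib]
  refine Finset.sum_le_sum fun k hk => ?_
  have hk' := mem_range.1 hk
  exact thr_ev hN hY (hprod k hk') (hA k hk') (hb k hk') hq0 hq1 (hq k hk')

/-- **DIVIDED FORM** : `∑ P (b k, A k) ≤ 2 / log (1/q) (S + √q B)`, `S` a bound of the increments, `B` of the removals -/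
theorem thr_div (hN : ∀ k, Fac (N (k + 1)) (N k)) (hY : ∀ k, Fac (La k) Ya) {b A : ℕ → Om → Prop} {T : ℕ}
    (hprod : ∀ k < T, ∀ w, P.p w ≠ 0 → b k w → P.m (fun u => (Ya u, N (k + 1) u)) w * P.m (N k) w =
      P.m (fun u => (Ya u, N k u)) w * P.m (N (k + 1)) w)
    (hA : ∀ k < T, Fac (fun w => (La k w, N k w)) (A k)) (hb : ∀ k < T, Fac (N (k + 1)) (b k)) {q S B : ℝ} (hq0 : 0 < q)
    (hq1 : q < 1) (hq : ∀ k < T, ∀ w, P.p w ≠ 0 → b k w → P.ce (N k) (fun u => ind (A k u)) w ≤ q)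
    (hS : ∑ k ∈ range T, P.E (ai P N La Ya k) ≤ S) (hB : ∑ k ∈ range T, P.Pr (b k) ≤ B) :
    ∑ k ∈ range T, P.Pr (fun w => b k w ∧ A k w) ≤ 2 / Real.log (1 / q) * (S + Real.sqrt q * B) := by
  have h1 := thr_sum hN hY hprod hA hb hq0 hq1 hq
  have hlog : 0 < Real.log (1 / q) := Real.log_pos (by rw [lt_div_iff₀ hq0]; linarith)
  have h2 := mul_le_mul_of_nonneg_left hB (Real.sqrt_nonneg q)
  have h3 : 1 / 2 * Real.log (1 / q) * ∑ k ∈ range T, P.Pr (fun w => b k w ∧ A k w) ≤ S + Real.sqrt q * B := by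
    linarith
  have h4 := mul_le_mul_of_nonneg_left h3 (show 0 ≤ 2 / Real.log (1 / q) by positivity)
  have h5 : 2 / Real.log (1 / q) * (1 / 2 * Real.log (1 / q) * ∑ k ∈ range T, P.Pr (fun w => b k w ∧ A k w)) =
      ∑ k ∈ range T, P.Pr (fun w => b k w ∧ A k w) := by
    field_simp
  rw [h5] at h4
  exact h4

/-- **A CONDITIONAL MEAN ABOVE A LEVEL** : the parent has conditional probability `≤ q` of `A`; removals at which the child
has conditional probability `≥ p` of `A` are few: `p ∑ P (b k, p ≤ P (A k | N (k + 1)))` is at most the same bound -/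
theorem thr_lev (hN : ∀ k, Fac (N (k + 1)) (N k)) (hY : ∀ k, Fac (La k) Ya) {b A : ℕ → Om → Prop} {T : ℕ}
    (hprod : ∀ k < T, ∀ w, P.p w ≠ 0 → b k w → P.m (fun u => (Ya u, N (k + 1) u)) w * P.m (N k) w =
      P.m (fun u => (Ya u, N k u)) w * P.m (N (k + 1)) w)
    (hA : ∀ k < T, Fac (fun w => (La k w, N k w)) (A k)) (hb : ∀ k < T, Fac (N (k + 1)) (b k)) {q p : ℝ} (hq0 : 0 < q)
    (hq1 : q < 1) (hq : ∀ k < T, ∀ w, P.p w ≠ 0 → b k w → P.ce (N k) (fun u => ind (A k u)) w ≤ q) :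
    1 / 2 * Real.log (1 / q) * (p * ∑ k ∈ range T, P.Pr (fun w => b k w ∧
      p ≤ P.ce (N (k + 1)) (fun u => ind (A k u)) w)) ≤
      ∑ k ∈ range T, P.E (ai P N La Ya k) + Real.sqrt q * ∑ k ∈ range T, P.Pr (b k) := by
  have hlog : 0 < Real.log (1 / q) := Real.log_pos (by rw [lt_div_iff₀ hq0]; linarith)
  refine le_trans (mul_le_mul_of_nonneg_left ?_ (by positivity)) (thr_sum hN hY hprod hA hb hq0 hq1 hq)
  rw [Finset.mul_sum]
  refine Finset.sum_le_sum fun k hk => ?_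
  have hbk := hb k (mem_range.1 hk)
  have e1 : P.Pr (fun w => b k w ∧ A k w) = P.E (fun w => ind (b k w) * P.ce (N (k + 1)) (fun u => ind (A k u)) w) := by
    have h1 : P.Pr (fun w => b k w ∧ A k w) = P.E (fun w => ind (b k w) * ind (A k w)) :=
      P.E_congr fun w _ => ind_and _ _
    rw [h1]
    exact (P.E_mul_ce (fun u w huw => by simp only [hbk u w huw]) _).symm
  have e2 : p * P.Pr (fun w => b k w ∧ p ≤ P.ce (N (k + 1)) (fun u => ind (A k u)) w) =
      P.E (fun w => p * ind (b k w ∧ p ≤ P.ce (N (k + 1)) (fun u => ind (A k u)) w)) := by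
    rw [P.E_smul]
    rfl
  rw [e1, e2]
  refine P.E_mono fun w _ => ?_
  have h0 : 0 ≤ P.ce (N (k + 1)) (fun u => ind (A k u)) w := P.ce_nonneg (fun _ _ => ind_nonneg _) w
  by_cases h : b k w ∧ p ≤ P.ce (N (k + 1)) (fun u => ind (A k u)) w
  · rw [ind_of h, ind_of h.1, mul_one, one_mul]
    exact h.2
  · rw [ind_not h, mul_zero]
    exact mul_nonneg (ind_nonneg _) h0

end Pool.Agent.GMH.TD
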