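import Pool.Agent.GMH.MV1
import Pool.Agent.GMH.Thr

/-!
# GMH.MV9: what is thrown away at the public light values (helper55; M.4, M.7 of H3.MOV over MVdef)

`NP_thr` : any event `A s` of the tuple with conditional probability `≤ q` in the public class: at the public light values it
has total probability at most `2 / log (1 / q) (Tot + √q NL)`; `NP_thr_w` : weights; `NP_lev` : light values at which the child
has conditional probability `≥ p` of `A s`.  Instances: `Lst_thr` (listed tuples), `hys_thr` (status at the start of the public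
epoch), with `Lst_fac`, `hysnu_fac`, `Lst_mass'`, `hysnu_mass`.
-/

set_option autoImplicit false
set_option linter.unusedSectionVars false

namespace Pool.Agent.GMH.MV

open Finset Pool.Agent.PWZ Pool.Agent.M3 Pool.Agent.GMH.TD Pool.Agent.GMH.CK

variable {Om : Type} [Fintype Om] (M : MS Om)

/-! ## measurability of the list and of the status at the start -/

/-- the tuple at the time `k` sees the class of `v` at the times `j ≤ k` -/
theorem LU_CN_le (v : Fin 3) {j k : ℕ} (hjk : j ≤ k) : Fac (fun w => (LF M (univ, univ) k w, M.NP k w)) (CN M v j) :=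
  (LU_CN M v k).trans (CN_le M v hjk)

/-- moves of the point in the public class are seen by the tuple -/
theorem Evm_NP_fac (δ : ℝ) (ν k : ℕ) : Fac (fun w => (LF M (univ, univ) k w, M.NP k w)) (Evm M.P M.NP (LF M) (YF M) δ ν k) := by
  intro a b hab
  obtain ⟨h1, h2⟩ := Prod.mk.inj hab
  have hC : ∀ j, j ≤ k → M.NP j a = M.NP j b := fun j hj => NP_le M hj a b h2
  have hL : ∀ i j, j ≤ k → LF M i j a = LF M i j b := fun i j hj => LF_le M i hj a b (LU_LF M i k a b h1)
  have key : ∀ j, j ≤ k → ∀ i, Mv1 M.P M.NP (LF M i) (YF M i) δ ν j a = Mv1 M.P M.NP (LF M i) (YF M i) δ ν j b := by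
    intro j hj i
    have ea : ∀ l ∈ Ico ν j, ai M.P M.NP (LF M i) (YF M i) l a = ai M.P M.NP (LF M i) (YF M i) l b := by
      intro l hl
      have hl2 := (mem_Ico.1 hl).2
      refine ai_fac M.P M.hN (LF_YF M i) l a b ?_
      show (LF M i l a, M.NP (l + 1) a) = (LF M i l b, M.NP (l + 1) b)
      rw [hL i l (by omega), hC (l + 1) (by omega)]
    have eb : ∀ l ∈ Ico ν j, bi M.P M.NP (LF M i) (YF M i) l a = bi M.P M.NP (LF M i) (YF M i) l b := by
      intro l hl
      have hl2 := (mem_Ico.1 hl).2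
      refine bi_fac M.P (LF_step M i) (LF_YF M i) l a b ?_
      show (LF M i (l + 1) a, M.NP (l + 1) a) = (LF M i (l + 1) b, M.NP (l + 1) b)
      rw [hL i (l + 1) (by omega), hC (l + 1) (by omega)]
    unfold Mv1
    rw [sum_congr rfl ea, sum_congr rfl eb]
  refine propext ⟨?_, ?_⟩
  · rintro ⟨j, q1, q2, i, q3⟩
    exact ⟨j, q1, q2, i, (key j q2 i) ▸ q3⟩
  · rintro ⟨j, q1, q2, i, q3⟩
    exact ⟨j, q1, q2, i, (key j q2 i).symm ▸ q3⟩

/-- the list is seen by the tuple -/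
theorem Lst_fac (ν k : ℕ) : Fac (fun w => (LF M (univ, univ) k w, M.NP k w)) (Lst M ν k) := by
  have key : ∀ a b, (LF M (univ, univ) k a, M.NP k a) = (LF M (univ, univ) k b, M.NP k b) → Lst M ν k a → Lst M ν k b := by
    intro a b hab
    rintro (h | ⟨v, j, h1, h2, h3⟩ | ⟨c, h0, j, h1, h2, h3⟩)
    · exact Or.inl ((Evm_NP_fac M M.d0 ν k a b hab) ▸ h)
    · refine Or.inr (Or.inl ⟨v, j, h1, h2, ?_⟩)
      rw [← tau_fac M v j a b (LU_CN_le M v h2 a b hab)]
      exact h3
    · refine Or.inr (Or.inr ⟨c, ?_, j, h1, h2, ?_⟩)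
      · rw [← hys_fac M c ν a b (LU_CN_le M c (by omega) a b hab)]
        exact h0
      · rw [← pic_fac M c j a b (LU_CN_le M c h2 a b hab)]
        exact h3
  intro a b hab
  exact propext ⟨key a b hab, key b a hab.symm⟩

theorem nu_le9 (s : ℕ) (w : Om) : nu M s w ≤ s := stg_le s w

theorem tau_le9 (v : Fin 3) (s : ℕ) (w : Om) : tau M v s w ≤ s := stg_le s w

theorem LU_nu (s : ℕ) : Fac (fun w => (LF M (univ, univ) s w, M.NP s w)) (nu M s) :=
  (Fac.snd _ _).trans (nu_fac M s)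

/-- the list of the current public epoch -/
theorem Lstnu_fac (s : ℕ) : Fac (fun w => (LF M (univ, univ) s w, M.NP s w)) (fun w => Lst M (nu M s w) s w) := by
  intro a b hab
  show Lst M (nu M s a) s a = Lst M (nu M s b) s b
  rw [LU_nu M s a b hab]
  exact Lst_fac M (nu M s b) s a b hab

/-- the status at the start of the current public epoch is seen by the class of `c` -/
theorem hysnu_CN (c : Fin 3) (s : ℕ) : Fac (CN M c s) (fun w => hys M c (nu M s w) w) := by
  intro a b hab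
  show hys M c (nu M s a) a = hys M c (nu M s b) b
  rw [nu_fac M s a b (CN_NP M c s a b hab)]
  exact hys_fac M c (nu M s b) a b (CN_le M c (nu_le9 M s b) a b hab)

theorem hysnu_fac (c : Fin 3) (s : ℕ) : Fac (fun w => (LF M (univ, univ) s w, M.NP s w)) (fun w => hys M c (nu M s w) w) :=
  (LU_CN M c s).trans (hysnu_CN M c s)

/-! ## masses -/

/-- the mass of the list, the start of the epoch moves with the point -/
theorem Lst_mass' (s : ℕ) {w : Om} (hw : M.P.p w ≠ 0) :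
    M.P.ce (M.NP s) (fun u => ind (Lst M (nu M s u) s u)) w < M.k0 := by
  refine lt_of_le_of_lt (le_of_eq ?_) (Lst_mass M s hw)
  refine ce_fib M.P fun u hu => ?_
  rw [nu_fac M s u w hu]

/-- **the vertices with status at the start of the public epoch have small mass in the public class** -/
theorem hysnu_mass {Lam : ℝ} (hT : Thk M Lam) (hz : 8 * Real.exp (4 * Lam) * M.kb / M.p1 ≤ M.z) (c : Fin 3) (s : ℕ) {w : Om}
    (hw : M.P.p w ≠ 0) : M.P.ce (M.NP s) (fun u => ind (hys M c (nu M s w) u)) w ≤ M.z := by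
  have h0 : ∀ k, nu M k w = k → M.P.ce (M.NP k) (fun u => ind (hys M c (nu M k w) u)) w ≤ M.z := by
    intro k hk
    rw [hk]
    exact (hys_mass M hT c k hw).trans hz
  rcases s with _ | s
  · exact h0 0 rfl
  · by_cases h : C0 M (nu M s w) (s + 1) w
    · exact h0 (s + 1) (stg_pos h)
    · have h1 : nu M (s + 1) w = nu M s w := stg_neg h
      rw [h1]
      exact (not_le.1 fun h2 => h (Or.inr (Or.inr ⟨c, h2⟩))).le

theorem hysnu_mass' {Lam : ℝ} (hT : Thk M Lam) (hz : 8 * Real.exp (4 * Lam) * M.kb / M.p1 ≤ M.z) (c : Fin 3) (s : ℕ) {w : Om}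
    (hw : M.P.p w ≠ 0) : M.P.ce (M.NP s) (fun u => ind (hys M c (nu M s u) u)) w ≤ M.z := by
  refine le_trans (le_of_eq ?_) (hysnu_mass M hT hz c s hw)
  refine ce_fib M.P fun u hu => ?_
  rw [nu_fac M s u w hu]

/-! ## thrown -/

theorem lt5_fac (s : ℕ) : Fac (M.NP (s + 1)) (lt5 M M.NP s) := fun _ _ hab => lt5_eq M M.hN s hab

variable {M}

/-- **any event of the tuple, public light values** -/
theorem NP_thr (hP : PrN M) {T : ℕ} {Tot : ℝ} (hT : Tot0 M T Tot) {A : ℕ → Om → Prop}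
    (hA : ∀ s < T, Fac (fun w => (LF M (univ, univ) s w, M.NP s w)) (A s)) {q : ℝ} (hq0 : 0 < q) (hq1 : q < 1)
    (hq : ∀ s < T, ∀ w, M.P.p w ≠ 0 → lt5 M M.NP s w → M.P.ce (M.NP s) (fun u => ind (A s u)) w ≤ q) :
    ∑ s ∈ range T, M.P.Pr (fun w => lt5 M M.NP s w ∧ A s w) ≤ 2 / Real.log (1 / q) * (Tot + Real.sqrt q * NL M T) :=
  thr_div (P := M.P) (N := M.NP) (La := LF M (univ, univ)) (Ya := YF M (univ, univ)) M.hN (LF_YF M (univ, univ))
    (fun s _ w hw hb => hP s hb.1 w hw) hA (fun s _ => lt5_fac M s) hq0 hq1 hq (hT (univ, univ)).1 le_rfl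

/-- the same for weights in `[0, 1]` -/
theorem NP_thr_w (hP : PrN M) {T : ℕ} {Tot : ℝ} (hT : Tot0 M T Tot) {a : ℕ → Om → ℝ}
    (ha : ∀ s < T, Fac (fun w => (LF M (univ, univ) s w, M.NP s w)) (a s)) (ha0 : ∀ s w, 0 ≤ a s w)
    (ha1 : ∀ s w, a s w ≤ 1) {q : ℝ} (hq0 : 0 < q) (hq1 : q < 1)
    (hq : ∀ s < T, ∀ w, M.P.p w ≠ 0 → lt5 M M.NP s w → M.P.ce (M.NP s) (a s) w ≤ q) :
    ∑ s ∈ range T, M.P.E (fun w => ind (lt5 M M.NP s w) * a s w) ≤
      2 / Real.log (1 / q) * (Tot + Real.sqrt q * NL M T) := by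
  have h1 := thr_sum_w (P := M.P) (N := M.NP) (La := LF M (univ, univ)) (Ya := YF M (univ, univ)) M.hN
    (LF_YF M (univ, univ)) (b := fun s => lt5 M M.NP s) (fun s _ w hw hb => hP s hb.1 w hw) ha ha0 ha1
    (fun s _ => lt5_fac M s) hq0 hq1 hq
  have hlog : 0 < Real.log (1 / q) := Real.log_pos (by rw [lt_div_iff₀ hq0]; linarith)
  have h2 := (hT (univ, univ)).1
  have h3 : 1 / 2 * Real.log (1 / q) * ∑ s ∈ range T, M.P.E (fun w => ind (lt5 M M.NP s w) * a s w) ≤
      Tot + Real.sqrt q * NL M T := by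
    unfold NL
    linarith
  have h4 := mul_le_mul_of_nonneg_left h3 (show 0 ≤ 2 / Real.log (1 / q) by positivity)
  refine le_trans (le_of_eq ?_) h4
  field_simp

/-- **light values at which the child has conditional probability `≥ p` of the event** -/
theorem NP_lev (hP : PrN M) {T : ℕ} {Tot : ℝ} (hT : Tot0 M T Tot) {A : ℕ → Om → Prop}
    (hA : ∀ s < T, Fac (fun w => (LF M (univ, univ) s w, M.NP s w)) (A s)) {q p : ℝ} (hq0 : 0 < q) (hq1 : q < 1) (hp : 0 < p)
    (hq : ∀ s < T, ∀ w, M.P.p w ≠ 0 → lt5 M M.NP s w → M.P.ce (M.NP s) (fun u => ind (A s u)) w ≤ q) :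
    ∑ s ∈ range T, M.P.Pr (fun w => lt5 M M.NP s w ∧ p ≤ M.P.ce (M.NP (s + 1)) (fun u => ind (A s u)) w) ≤
      2 / (p * Real.log (1 / q)) * (Tot + Real.sqrt q * NL M T) := by
  have h1 := thr_lev (P := M.P) (N := M.NP) (La := LF M (univ, univ)) (Ya := YF M (univ, univ)) M.hN
    (LF_YF M (univ, univ)) (b := fun s => lt5 M M.NP s) (A := A) (T := T) (p := p) (fun s _ w hw hb => hP s hb.1 w hw) hA
    (fun s _ => lt5_fac M s) hq0 hq1 hq
  have hlog : 0 < Real.log (1 / q) := Real.log_pos (by rw [lt_div_iff₀ hq0]; linarith)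
  have h2 := (hT (univ, univ)).1
  have h3 : 1 / 2 * Real.log (1 / q) * (p * ∑ s ∈ range T, M.P.Pr (fun w => lt5 M M.NP s w ∧
      p ≤ M.P.ce (M.NP (s + 1)) (fun u => ind (A s u)) w)) ≤ Tot + Real.sqrt q * NL M T := by
    unfold NL
    linarith
  have h4 := mul_le_mul_of_nonneg_left h3 (show 0 ≤ 2 / (p * Real.log (1 / q)) by positivity)
  refine le_trans (le_of_eq ?_) h4
  field_simp

/-- **listed tuples which are thrown away** -/
theorem Lst_thr (hP : PrN M) {T : ℕ} {Tot : ℝ} (hT : Tot0 M T Tot) (hk : M.k0 < 1) :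
    ∑ s ∈ range T, M.P.Pr (fun w => lt5 M M.NP s w ∧ Lst M (nu M s w) s w) ≤
      2 / Real.log (1 / M.k0) * (Tot + Real.sqrt M.k0 * NL M T) :=
  NP_thr hP hT (fun s _ => Lstnu_fac M s) M.hk0 hk fun s _ w hw _ => (Lst_mass' M s hw).le

/-- **status at the start of the public epoch, public light values** -/
theorem hys_thr (hP : PrN M) {T : ℕ} {Tot Lam : ℝ} (hT : Tot0 M T Tot) (hTh : Thk M Lam)
    (hz : 8 * Real.exp (4 * Lam) * M.kb / M.p1 ≤ M.z) (hz1 : M.z < 1) (c : Fin 3) :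
    ∑ s ∈ range T, M.P.Pr (fun w => lt5 M M.NP s w ∧ hys M c (nu M s w) w) ≤
      2 / Real.log (1 / M.z) * (Tot + Real.sqrt M.z * NL M T) :=
  NP_thr hP hT (fun s _ => hysnu_fac M c s) M.hz hz1 fun s _ w hw _ => hysnu_mass' M hTh hz c s hw

/-- some vertex has status at the start of the public epoch -/
theorem hys_thr_ex (hP : PrN M) {T : ℕ} {Tot Lam : ℝ} (hT : Tot0 M T Tot) (hTh : Thk M Lam)
    (hz : 8 * Real.exp (4 * Lam) * M.kb / M.p1 ≤ M.z) (hz1 : M.z < 1) :
    ∑ s ∈ range T, M.P.Pr (fun w => lt5 M M.NP s w ∧ ∃ c, hys M c (nu M s w) w) ≤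
      3 * (2 / Real.log (1 / M.z) * (Tot + Real.sqrt M.z * NL M T)) := by
  have h1 : ∀ s ∈ range T, M.P.Pr (fun w => lt5 M M.NP s w ∧ ∃ c, hys M c (nu M s w) w) ≤
      ∑ c ∈ (univ : Finset (Fin 3)), M.P.Pr (fun w => lt5 M M.NP s w ∧ hys M c (nu M s w) w) := by
    intro s _
    refine le_trans (M.P.Pr_mono fun w _ hw => ?_) (M.P.Pr_ex_le univ fun c w => lt5 M M.NP s w ∧ hys M c (nu M s w) w)
    obtain ⟨h2, c, h3⟩ := hw
    exact ⟨c, mem_univ c, h2, h3⟩
  refine (sum_le_sum h1).trans ?_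
  rw [sum_comm]
  refine (sum_le_sum fun c _ => hys_thr hP hT hTh hz hz1 c).trans (le_of_eq ?_)
  rw [sum_const, card_univ, Fintype.card_fin, nsmul_eq_mul]
  norm_num

end Pool.Agent.GMH.MV
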