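import Pool.Agent.GMH.KDV
import Pool.Agent.GMH.KinMs
import Pool.Agent.GMH.MV9

/-!
# GMH/ClsM (helper7): CLASS MASSES OF THE OLD RELATIONS (rows C5, UnmX)

* `D0_push`, `Ap1_Fo` : the distance from independence decreases under maps of the tops; `R0` of the two tops is in `R0`;
* `co_mass`, `base_v` : class mass of the relations with the tables of the same state, from `R0B` (mass of `R0` of the three
  tops, alive, at most `r0`) : `bK r0 c κ` = `r0` for `κ = 1`, `r0 + 8 qK c` for `κ ≥ 2`;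
* **`cls_v`** : at every state `q ≤ 5 T`, class of the exact vertex `i` : mass of (relation `SR` of the life of `i`, alive at
  `q`) at most `e^(4 Lam) kb + bK r0 c' κ`; **`cls_n`** : at the node, life of the public start: `+ k0`; **`cls_0`** : the public
  relation at the node: `e^(4 Lam) k0 + bK r0 c' κ`; `cls_vL` : light levels, class of the state `5 (t + 1)`. Every frame, every kind, light levels included; no condition on the class.
-/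

set_option autoImplicit false
set_option linter.unusedSectionVars false

namespace Pool.Agent.GMH.CLM

open Finset Pool.Agent.PWZ Pool.Agent.M3 Pool.Agent.GM Pool.Agent.GM.Harm Pool.Agent.GMH Pool.Agent.GMH.NZ
open Pool.Agent.GMH.V3 Pool.Agent.GMH.TP Pool.Agent.GMH.TD Pool.Agent.GMH.Dy Pool.Agent.GMH.MV Pool.Agent.GMH.MVI
open Pool.Agent.GMH.CK Pool.Agent.GMH.KF Pool.Agent.GMH.KDT Pool.Agent.GMH.KDTw Pool.Agent.GMH.KDL Pool.Agent.GMH.ExK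
open Pool.Agent.GMH.KFR Pool.Agent.GMH.TRF Pool.Agent.GMH.KDV

noncomputable section

/-! ### maps of the tops -/

section push

variable {Om : Type*} [Fintype Om] (P : FP Om) {β φ φ' : Type*} {Z : Om → β} (F : Fin 3 → Om → φ) (g : Fin 3 → φ → φ')

theorem mF_map (i : Fin 3) (w : Om) (z : φ') : mF P Z (fun i u => g i (F i u)) i w z =
    ∑ x ∈ vals (F i), mF P Z F i w x * ind (g i x = z) :=
  (P.sum_pv (W := Z) (F i) (F := fun _ x => ind (g i x = z)) (fun _ _ _ _ => rfl) w).symm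

theorem sum_let {f : (Fin 3 → φ) → ℝ} (w : Om) : ∑ a ∈ let_ F, pF P Z F w a * f a = P.ce Z (fun u => f (tup F u)) w := by
  have h1 : ∀ a ∈ let_ F, pF P Z F w a * f a = P.ce Z (fun u => ind (tup F u = a) * f a) w := by
    intro a _
    unfold pF FP.pv
    rw [P.ce_mul' (fun _ _ _ => rfl : Fac Z (fun _ => f a))]
  rw [Finset.sum_congr rfl h1, ← P.ce_sum]
  refine congrArg (fun q => P.ce Z q w) (funext fun u => ?_)
  rw [Finset.sum_eq_single (tup F u)]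
  · rw [ind_of rfl, one_mul]
  · intro b _ hb
    rw [ind_not (fun h => hb h.symm), zero_mul]
  · intro h
    exact absurd (tup_mem F u) h

theorem pF_map (w : Om) (z : Fin 3 → φ') : pF P Z (fun i u => g i (F i u)) w z =
    ∑ a ∈ let_ F, pF P Z F w a * ind ((fun i => g i (a i)) = z) :=
  (sum_let P F (f := fun a => ind ((fun i => g i (a i)) = z)) w).symm

/-- **the distance from independence decreases under maps of the tops** -/
theorem D0_push (w : Om) : D0 P (fun i u => g i (F i u)) Z w ≤ D0 P F Z w := by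
  classical
  unfold D0
  have h1 : ∀ z : Fin 3 → φ', ∏ i, mF P Z (fun i u => g i (F i u)) i w (z i) =
      ∑ a ∈ let_ F, (∏ i, mF P Z F i w (a i)) * ind ((fun i => g i (a i)) = z) := by
    intro z
    simp only [mF_map]
    rw [Finset.prod_univ_sum]
    unfold let_
    refine Finset.sum_congr rfl fun a _ => ?_
    rw [Finset.prod_mul_distrib]
    congr 1
    by_cases hz : (fun i => g i (a i)) = z
    · rw [ind_of hz]
      exact Finset.prod_eq_one fun i _ => ind_of (congrFun hz i)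
    · rw [ind_not hz]
      obtain ⟨i, hi⟩ := Function.ne_iff.1 hz
      exact Finset.prod_eq_zero (Finset.mem_univ i) (ind_not hi)
  have h2 : ∀ z ∈ let_ (fun i u => g i (F i u)), |pF P Z (fun i u => g i (F i u)) w z -
      ∏ i, mF P Z (fun i u => g i (F i u)) i w (z i)| ≤
      ∑ a ∈ let_ F, |pF P Z F w a - ∏ i, mF P Z F i w (a i)| * ind ((fun i => g i (a i)) = z) := by
    intro z _
    rw [pF_map, h1 z, ← Finset.sum_sub_distrib]
    refine (Finset.abs_sum_le_sum_abs _ _).trans (Finset.sum_le_sum fun a _ => ?_)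
    rw [← sub_mul, abs_mul, abs_of_nonneg (ind_nonneg _)]
  refine (Finset.sum_le_sum h2).trans ?_
  rw [Finset.sum_comm]
  refine Finset.sum_le_sum fun a _ => ?_
  rw [← Finset.mul_sum]
  refine mul_le_of_le_one_right (abs_nonneg _) ?_
  by_cases hz : (fun i => g i (a i)) ∈ let_ (fun i u => g i (F i u))
  · rw [Finset.sum_eq_single (fun i => g i (a i))]
    · exact ind_le_one _
    · intro b _ hb
      exact ind_not fun e => hb e.symm
    · intro e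
      exact absurd hz e
  · have h0 : ∀ z ∈ let_ (fun i u => g i (F i u)), ind ((fun i => g i (a i)) = z) = 0 := fun z hzz =>
      ind_not fun e => hz (by rw [e]; exact hzz)
    rw [Finset.sum_eq_zero h0]
    exact zero_le_one

/-- `R0` of the two tops is contained in `R0` of the three tops -/
theorem Ap1_Fo (c : KC) (i0 : Fin 3) {w : Om} (hw : P.p w ≠ 0) {f : Fin 3 → Option φ} {f' : Fin 3 → φ}
    (h : Ap P Z (Fo F i0) c 1 w f) : Ap P Z F c 1 w f' := by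
  rw [Ap1_iff P (Fo F i0) c hw] at h
  rw [Ap1_iff P F c hw]
  exact h.trans (D0_push P F (fun i x => if i = i0 then Option.none else some x) w)

end push

/-! ### the class mass of the cores, any data -/

section ms

variable {Om : Type} [Fintype Om] {M : MS Om}

/-- `R0` of the three tops at the state `q` -/
def R0M (M : MS Om) (c : KC) (q : ℕ) (w : Om) : Prop := Ap M.P (TH M q) (Ft M q) c 1 w (tup (Ft M q) w)

theorem ind_or {A B : Prop} : ind (A ∨ B) ≤ ind A + ind B := ind_or_le _ _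

/-- **THE CLASS MASS OF THE CORES**, tables of the state `q`, class `C` seen by the thin letters -/
theorem co_mass {κ' : Type*} {C : Om → κ'} {q : ℕ} (hC : Fac (TH M q) C) {c : KC} (h1 : 0 ≤ c.e1) (h2 : 0 < c.e2)
    (h3 : 0 < c.e3) (hd : 0 < c.dH) (fr : Option (Fin 3)) {A : Om → Prop}
    (hA : ∀ u, M.P.p u ≠ 0 → A u → ∃ k ≤ 9, coM (fM M fr) c k q u) {G : Om → Prop} {r0 : ℝ} {w : Om}
    (hw : M.P.p w ≠ 0) (h0 : M.P.ce C (fun u => ind (R0M M c q u ∧ G u)) w ≤ r0) :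
    M.P.ce C (fun u => ind (A u ∧ G u)) w ≤ r0 + 8 * qK c := by
  classical
  have key : ∃ K : Fin 10 → Om → Prop, (∀ j : Fin 10, 2 ≤ j.1 → M.P.ce C (fun u => ind (K j u)) w ≤ qK c) ∧
      ∀ u, M.P.p u ≠ 0 → A u → R0M M c q u ∨ ∃ j : Fin 10, 2 ≤ j.1 ∧ K j u := by
    cases fr with
    | none =>
      refine ⟨fun j u => kdF M.P (TH M q) (Ft M q) c j u (tup (Ft M q) u), fun j hj =>
        kd_mass_cls M.P (Ft M q) h1 h2 h3 hd hj hC hw, fun u hu hc => ?_⟩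
      obtain ⟨k, hk, hc⟩ := hA u hu hc
      obtain ⟨j, -, hj⟩ := co_kd (k := ⟨k, by omega⟩) _ hc
      rcases Nat.lt_or_ge j.1 2 with hj2 | hj2
      · left
        rcases Nat.lt_or_ge j.1 1 with h5 | h5
        · have e0 : j.1 = 0 := by omega
          have := hj.1
          rw [e0] at this
          exact absurd this (by simp [Ap])
        · have e1 : j.1 = 1 := by omega
          have := hj.1
          rw [e1] at this
          exact this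
      · exact Or.inr ⟨j, hj2, hj⟩
    | some i =>
      refine ⟨fun j u => kdF M.P (TH M q) (Ft (tw M i) q) c j u (tup (Ft (tw M i) q) u), fun j hj =>
        kd_mass_cls M.P (Ft (tw M i) q) h1 h2 h3 hd hj hC hw, fun u hu hc => ?_⟩
      obtain ⟨k, hk, hc⟩ := hA u hu hc
      obtain ⟨j, -, hj⟩ := co_kd (k := ⟨k, by omega⟩) _ hc
      rcases Nat.lt_or_ge j.1 2 with hj2 | hj2
      · left
        rcases Nat.lt_or_ge j.1 1 with h5 | h5
        · have e0 : j.1 = 0 := by omega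
          have := hj.1
          rw [e0] at this
          exact absurd this (by simp [Ap])
        · have e1 : j.1 = 1 := by omega
          have := hj.1
          rw [e1] at this
          exact Ap1_Fo M.P (Ft M q) c i hu this
      · exact Or.inr ⟨j, hj2, hj⟩
  obtain ⟨K, hK, hc⟩ := key
  have e1 : M.P.ce C (fun u => ind (A u ∧ G u)) w ≤
      M.P.ce C (fun u => ind (R0M M c q u ∧ G u)) w +
        ∑ j ∈ univ.filter (fun j : Fin 10 => 2 ≤ j.1), M.P.ce C (fun u => ind (K j u)) w := by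
    rw [← M.P.ce_sum, ← M.P.ce_add]
    refine M.P.ce_mono (fun u hu => ?_) w
    by_cases hAG : A u ∧ G u
    · rw [ind_of hAG]
      have s0 : ∀ j ∈ univ.filter (fun j : Fin 10 => 2 ≤ j.1), 0 ≤ ind (K j u) := fun _ _ => ind_nonneg _
      rcases hc u hu hAG.1 with h5 | ⟨j, h5, h6⟩
      · rw [ind_of ⟨h5, hAG.2⟩]
        linarith [Finset.sum_nonneg s0]
      · have h7 := Finset.single_le_sum s0 (Finset.mem_filter.2 ⟨mem_univ j, h5⟩)
        rw [ind_of h6] at h7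
        linarith [ind_nonneg (R0M M c q u ∧ G u)]
    · rw [ind_not hAG]
      exact add_nonneg (ind_nonneg _) (Finset.sum_nonneg fun _ _ => ind_nonneg _)
  have e2 : ∑ j ∈ univ.filter (fun j : Fin 10 => 2 ≤ j.1), M.P.ce C (fun u => ind (K j u)) w ≤ 8 * qK c := by
    refine (Finset.sum_le_card_nsmul _ _ (qK c) fun j hj => hK j (Finset.mem_filter.1 hj).2).trans ?_
    rw [nsmul_eq_mul]
    have h9 : (univ.filter (fun j : Fin 10 => 2 ≤ j.1)).card = 8 := by decide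
    rw [h9]
    norm_num
  linarith

/-- the cores `0`, `1` of a frame are in `R0` of the three tops -/
theorem coM_one {c : KC} (fr : Option (Fin 3)) {k q : ℕ} (hk : k ≤ 1) {w : Om} (hw : M.P.p w ≠ 0)
    (hc : coM (fM M fr) c k q w) : R0M M c q w := by
  unfold coM at hc
  rw [co_Ap (by omega)] at hc
  rcases Nat.lt_or_ge k 1 with h1 | h1
  · obtain rfl : k = 0 := by omega
    exact absurd hc (by simp [Ap])
  · obtain rfl : k = 1 := by omega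
    cases fr with
    | none => exact hc
    | some i => exact Ap1_Fo M.P (Ft M q) c i hw hc

/-- bound of the class masses: `r0` for `R0`, `r0 + 8 qK` for the other kinds -/
def bK (r0 : ℝ) (c : KC) (κ : Fin 10) : ℝ := r0 + if κ.1 ≤ 1 then 0 else 8 * qK c

end ms

/-! ### general class masses -/

section cls

variable {Om : Type} [Fintype Om] {P : FP Om}

/-- monotone on the class -/
theorem ce_mono_cls {κ' : Type*} {C : Om → κ'} {f g : Om → ℝ} {w : Om} (h : ∀ u, P.p u ≠ 0 → C u = C w → f u ≤ g u) :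
    P.ce C f w ≤ P.ce C g w := by
  unfold FP.ce
  refine div_le_div_of_nonneg_right (P.E_mono fun u hu => ?_) (P.m_nonneg _ _)
  by_cases hc : C u = C w
  · rw [ind_of hc, one_mul, one_mul]
    exact h u hu hc
  · rw [ind_not hc, zero_mul, zero_mul]

/-- union bound on the class -/
theorem ce_or_cls {κ' : Type*} {C : Om → κ'} {A B D : Om → Prop} {w : Om}
    (h : ∀ u, P.p u ≠ 0 → C u = C w → A u → B u ∨ D u) :
    P.ce C (fun u => ind (A u)) w ≤ P.ce C (fun u => ind (B u)) w + P.ce C (fun u => ind (D u)) w := by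
  rw [← P.ce_add]
  refine ce_mono_cls fun u hu hc => ?_
  by_cases hA : A u
  · rw [ind_of hA]
    rcases h u hu hc hA with h1 | h1
    · rw [ind_of h1]
      linarith [ind_nonneg (D u)]
    · rw [ind_of h1]
      linarith [ind_nonneg (B u)]
  · rw [ind_not hA]
    exact add_nonneg (ind_nonneg _) (ind_nonneg _)

/-- a bound in the finer classes -/
theorem ce_fine {κ' κ'' : Type*} {C : Om → κ'} {C' : Om → κ''} (hC : Fac C' C) {A : Om → Prop} {b : ℝ} {w : Om}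
    (hw : P.p w ≠ 0) (h : ∀ u, P.p u ≠ 0 → P.ce C' (fun u => ind (A u)) u ≤ b) : P.ce C (fun u => ind (A u)) w ≤ b := by
  rw [← P.ce_tower hC (fun u => ind (A u)) w]
  exact P.ce_le_const h hw

end cls

/-! ### the run -/

section run

variable {X β γ φ : Type} [Fintype X] [Fintype β] [Fintype φ] [Nonempty X] [Nonempty β]
variable {D : HD (Fin 3) X β γ φ} {al : ℝ} {h : D.Thick al} {N : Finset (Fin 3) → ℝ} {SS : Finset (Finset (Fin 3))}
  {v : ℕ → Finset (Fin 3) → X → (Fin 3 → β) → Pt (Fin 3) X β φ}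
variable {dg : ℕ → X → ℝ} {prr : ℕ → Fin 3 → φ → φ} {T : ℕ} {Lam : ℝ} {W : Type} [Fintype W] (tb : Tab D prr T W)
variable {d1 kb d0 k0 p1 z : ℝ} (hd1 : 0 < d1) (hd11 : d1 ≤ 1) (hkb : 0 < kb) (hd0 : 0 < d0) (hd01 : d0 ≤ 1) (hk0 : 0 < k0)
  (hp1 : 0 < p1) (hz : 0 < z)

variable (v) in
/-- the masses of `R0` (three tops), alive, in the classes of the exact vertices, are at most `r0` -/
def R0B (h : D.Thick al) (tb : Tab D prr T W) (p : AP) (c : KC) (r0 : ℝ) : Prop :=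
  ∀ q ≤ 5 * T, ∀ i, ∀ w, tb.Ps.p w ≠ 0 →
    tb.Ps.ce (fun u => (XLo tb v i q u, NPo tb v q u)) (fun u => ind (ck h v tb Option.none c 1 q u ∧ Alv h v tb p q u)) w ≤ r0

/-- a core of the relations is a core -/
theorem cv_ck {fr o : Option (Fin 3)} {c : KC} {κ : Fin 10} {q : ℕ} {w : Om W X β} (hc : cv h v tb fr c κ o q w) :
    ∃ k ≤ 9, ck h v tb fr c k q w := by
  unfold cv at hc
  split_ifs at hc with hk
  · obtain ⟨j, -, h2⟩ := hc
    exact ⟨j.1 + 2, by omega, h2⟩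
  · exact ⟨κ.1, by omega, hc⟩

theorem q5 {q : ℕ} (hq : q ≤ 5 * T) : q / 5 ≤ T := by omega

variable (H : D.Hyp dg prr al T Lam) (R : Run h N SS (AdmDep D) v) (hS : ∀ l, univ.erase l ∈ SS) (hU : univ ∉ SS)
  (hN : ∀ l, 0 < N (univ.erase l))

include H R hS hU hN

/-- **BASE: THE CLASS MASS OF THE RELATIONS WITH THE TABLES OF THE SAME STATE** -/
theorem base_v {p : AP} {c : KC} (h1 : 0 ≤ c.e1) (h2 : 0 < c.e2)
    (h3 : 0 < c.e3) (hd : 0 < c.dH) {r0 : ℝ} (hr : R0B v h tb p c r0) {q : ℕ} (hq : q ≤ 5 * T) (i : Fin 3)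
    (fr o : Option (Fin 3)) (κ : Fin 10) {w : Om W X β} (hw : tb.Ps.p w ≠ 0) :
    tb.Ps.ce (CN (MSi tb (v := v) d1 kb d0 k0 p1 z hd1 hd11 hkb hd0 hd01 hk0 hp1 hz) i q) (fun u => ind (cv h v tb fr c κ o q u ∧ Alv h v tb p q u)) w ≤ bK r0 c κ := by
  have h0 : tb.Ps.ce (CN (MSi tb (v := v) d1 kb d0 k0 p1 z hd1 hd11 hkb hd0 hd01 hk0 hp1 hz) i q) (fun u => ind (R0M (MSi tb (v := v) d1 kb d0 k0 p1 z hd1 hd11 hkb hd0 hd01 hk0 hp1 hz) c q u ∧ Alv h v tb p q u)) w ≤ r0 := by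
    refine le_trans (le_of_eq ?_) (hr q hq i w hw)
    refine tb.Ps.ce_congr (fun u hu => ?_) w
    congr 1
    refine propext (and_congr_left fun _ => ?_)
    rw [ck_iff tb hd1 hd11 hkb hd0 hd01 hk0 hp1 hz H R hS hU hN (q5 hq) hu Option.none c 1]
    exact (co_Ap (by omega)).symm
  unfold bK
  by_cases hκ : κ.1 ≤ 1
  · rw [if_pos hκ, add_zero]
    have h7 : ∀ u, tb.Ps.p u ≠ 0 → ind (cv h v tb fr c κ o q u ∧ Alv h v tb p q u) ≤
        ind (R0M (MSi tb (v := v) d1 kb d0 k0 p1 z hd1 hd11 hkb hd0 hd01 hk0 hp1 hz) c q u ∧ Alv h v tb p q u) := fun u hu => ind_mono fun hh => by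
      refine ⟨?_, hh.2⟩
      have hc := hh.1
      unfold cv at hc
      rw [if_neg (by omega), ck_iff tb hd1 hd11 hkb hd0 hd01 hk0 hp1 hz H R hS hU hN (q5 hq) hu fr c κ.1] at hc
      exact coM_one (M := (MSi tb (v := v) d1 kb d0 k0 p1 z hd1 hd11 hkb hd0 hd01 hk0 hp1 hz)) fr hκ hu hc
    exact (tb.Ps.ce_mono h7 w).trans h0
  · rw [if_neg hκ]
    refine co_mass (M := (MSi tb (v := v) d1 kb d0 k0 p1 z hd1 hd11 hkb hd0 hd01 hk0 hp1 hz)) (TH_CN (MSi tb (v := v) d1 kb d0 k0 p1 z hd1 hd11 hkb hd0 hd01 hk0 hp1 hz) i q) h1 h2 h3 hd fr (A := fun u => cv h v tb fr c κ o q u) (fun u hu hc => ?_) hw h0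
    obtain ⟨k, hk, hk2⟩ := cv_ck tb hc
    exact ⟨k, hk, (ck_iff tb hd1 hd11 hkb hd0 hd01 hk0 hp1 hz H R hS hU hN (q5 hq) hu fr c k).1 hk2⟩

/-- base for the relations with larger thresholds -/
theorem base_v' {p : AP} {c c' : KC} (m1 : c'.e1 ≤ c.e1) (m2 : c'.e2 ≤ c.e2) (m3 : c'.e3 ≤ c.e3) (md : c'.dH ≤ c.dH)
    (h1 : 0 ≤ c'.e1) (h2 : 0 < c'.e2)
    (h3 : 0 < c'.e3) (hd : 0 < c'.dH) {r0 : ℝ} (hr : R0B v h tb p c' r0) {q : ℕ} (hq : q ≤ 5 * T) (i : Fin 3)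
    (fr o : Option (Fin 3)) (κ : Fin 10) {w : Om W X β} (hw : tb.Ps.p w ≠ 0) :
    tb.Ps.ce (CN (MSi tb (v := v) d1 kb d0 k0 p1 z hd1 hd11 hkb hd0 hd01 hk0 hp1 hz) i q) (fun u => ind (cv h v tb fr c κ o q u ∧ Alv h v tb p q u)) w ≤ bK r0 c' κ :=
  (tb.Ps.ce_mono (fun _ _ => ind_mono fun hh => ⟨cv_mono m1 m2 m3 md hh.1, hh.2⟩) w).trans
    (base_v tb hd1 hd11 hkb hd0 hd01 hk0 hp1 hz H R hS hU hN h1 h2 h3 hd hr hq i fr o κ hw)

omit H R hS hU hN in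
/-- inside a light level is seen by the public information -/
theorem ltL_fac {q : ℕ} {a b : Om W X β} (e : NPo tb v q a = NPo tb v q b) : ltL v tb q a ↔ ltL v tb q b := by
  unfold ltL
  refine and_congr_right fun h2 => ?_
  have a1 : NPo tb v (5 * (q / 5) + 1) a = NPo tb v (5 * (q / 5) + 1) b := NPo_le tb v (by omega) a b e
  have a2 : NPo tb v (5 * (q / 5) + 2) a = NPo tb v (5 * (q / 5) + 2) b := NPo_le tb v (by omega) a b e
  have e1 : tb.Ps.m (NPo tb v (5 * (q / 5) + 1)) a = tb.Ps.m (NPo tb v (5 * (q / 5) + 1)) b := by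
    unfold FP.m
    rw [a1]
  have e2 : tb.Ps.m (NPo tb v (5 * (q / 5) + 2)) a = tb.Ps.m (NPo tb v (5 * (q / 5) + 2)) b := by
    unfold FP.m
    rw [a2]
  rw [e1, e2]

omit H R hS hU hN in
/-- the tables of a start in the light level of `q` -/
theorem eT_lt {τ q : ℕ} {w : Om W X β} (hl : ltL v tb τ w) (hd : τ / 5 = q / 5) : eT v tb τ w = 5 * (q / 5) + 5 := by
  unfold eT
  rw [if_pos hl, hd]

/-- **THE CLASS MASS OF THE RELATION OF THE LIFE, exact vertex** -/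
theorem cls_v {p : AP} {c c' : KC} {κ : Fin 10} (he : d1 ≤ 1 / 400) (hg : Gap (2000 * d1) c c' κ.1)
    (m1 : c'.e1 ≤ c.e1) (m2 : c'.e2 ≤ c.e2) (m3 : c'.e3 ≤ c.e3) (md : c'.dH ≤ c.dH)
    (h1 : 0 ≤ c'.e1) (h2 : 0 < c'.e2) (h3 : 0 < c'.e3) (hd : 0 < c'.dH) {r0 : ℝ} (hr : R0B v h tb p c' r0)
    {q : ℕ} (hq : q ≤ 5 * T) (i : Fin 3) (fr o : Option (Fin 3)) {w : Om W X β} (hw : tb.Ps.p w ≠ 0) :
    tb.Ps.ce (CN (MSi tb (v := v) d1 kb d0 k0 p1 z hd1 hd11 hkb hd0 hd01 hk0 hp1 hz) i q) (fun u => ind (SR h v tb fr p c κ o (tauS (MSi tb (v := v) d1 kb d0 k0 p1 z hd1 hd11 hkb hd0 hd01 hk0 hp1 hz) i q u) u ∧ Alv h v tb p q u)) w ≤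
      Real.exp (4 * Lam) * kb + bK r0 c' κ := by
  have hTk : Thk (MSi tb (v := v) d1 kb d0 k0 p1 z hd1 hd11 hkb hd0 hd01 hk0 hp1 hz) Lam := (thks h tb v hd1 hd11 hkb hd0 hd01 hk0 hp1 hz H).thk
  have e0 : 0 ≤ Real.exp (4 * Lam) * kb := mul_nonneg (Real.exp_pos _).le hkb.le
  by_cases hl : ltL v tb q w
  · -- inside a light level
    have h5 : 5 * (q / 5) + 5 ≤ 5 * T := by
      have := hl.1
      omega
    have hle : q ≤ 5 * (q / 5) + 5 := by omega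
    have s1 : tb.Ps.ce (CN (MSi tb (v := v) d1 kb d0 k0 p1 z hd1 hd11 hkb hd0 hd01 hk0 hp1 hz) i q) (fun u => ind (SR h v tb fr p c κ o (tauS (MSi tb (v := v) d1 kb d0 k0 p1 z hd1 hd11 hkb hd0 hd01 hk0 hp1 hz) i q u) u ∧ Alv h v tb p q u)) w ≤
        tb.Ps.ce (CN (MSi tb (v := v) d1 kb d0 k0 p1 z hd1 hd11 hkb hd0 hd01 hk0 hp1 hz) i q) (fun u => ind (cv h v tb fr c κ o (5 * (q / 5) + 5) u ∧ Alv h v tb p (5 * (q / 5) + 5) u)) w := by
      refine ce_mono_cls fun u hu hc => ind_mono fun hh => ?_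
      have hlu : ltL v tb q u := (ltL_fac tb (CN_NP (MSi tb (v := v) d1 kb d0 k0 p1 z hd1 hd11 hkb hd0 hd01 hk0 hp1 hz) i q u w hc)).2 hl
      obtain ⟨g1, g2⟩ := ltL_tauS tb hd1 hd11 hkb hd0 hd01 hk0 hp1 hz hlu i
      have g3 := hh.1
      unfold SR at g3
      rw [eT_lt tb g1 g2] at g3
      exact g3
    have s2 : tb.Ps.ce (CN (MSi tb (v := v) d1 kb d0 k0 p1 z hd1 hd11 hkb hd0 hd01 hk0 hp1 hz) i q) (fun u => ind (cv h v tb fr c κ o (5 * (q / 5) + 5) u ∧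
        Alv h v tb p (5 * (q / 5) + 5) u)) w ≤ bK r0 c' κ :=
      ce_fine (CN_le (MSi tb (v := v) d1 kb d0 k0 p1 z hd1 hd11 hkb hd0 hd01 hk0 hp1 hz) i hle) hw fun u hu =>
        base_v' tb hd1 hd11 hkb hd0 hd01 hk0 hp1 hz H R hS hU hN m1 m2 m3 md h1 h2 h3 hd hr h5 i fr o κ hu
    linarith
  · have s1 : tb.Ps.ce (CN (MSi tb (v := v) d1 kb d0 k0 p1 z hd1 hd11 hkb hd0 hd01 hk0 hp1 hz) i q) (fun u => ind (SR h v tb fr p c κ o (tauS (MSi tb (v := v) d1 kb d0 k0 p1 z hd1 hd11 hkb hd0 hd01 hk0 hp1 hz) i q u) u ∧ Alv h v tb p q u)) w ≤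
        tb.Ps.ce (CN (MSi tb (v := v) d1 kb d0 k0 p1 z hd1 hd11 hkb hd0 hd01 hk0 hp1 hz) i q) (fun u => ind (Mv (MSi tb (v := v) d1 kb d0 k0 p1 z hd1 hd11 hkb hd0 hd01 hk0 hp1 hz) i q u)) w +
          tb.Ps.ce (CN (MSi tb (v := v) d1 kb d0 k0 p1 z hd1 hd11 hkb hd0 hd01 hk0 hp1 hz) i q) (fun u => ind (cv h v tb fr c' κ o q u ∧ Alv h v tb p q u)) w := by
      refine ce_or_cls fun u hu hc hh => ?_
      have hlu : ¬ ltL v tb q u := fun h6 => hl ((ltL_fac tb (CN_NP (MSi tb (v := v) d1 kb d0 k0 p1 z hd1 hd11 hkb hd0 hd01 hk0 hp1 hz) i q u w hc)).1 h6)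
      by_cases hm : Mv (MSi tb (v := v) d1 kb d0 k0 p1 z hd1 hd11 hkb hd0 hd01 hk0 hp1 hz) i q u
      · exact Or.inl hm
      · exact Or.inr ⟨SR_prv tb hd1 hd11 hkb hd0 hd01 hk0 hp1 hz H R hS hU hN he hg (q5 hq) hu hlu hm hh.1, hh.2⟩
    have s2 := Mv_mass (MSi tb (v := v) d1 kb d0 k0 p1 z hd1 hd11 hkb hd0 hd01 hk0 hp1 hz) hTk i q hw
    have s3 := base_v tb hd1 hd11 hkb hd0 hd01 hk0 hp1 hz H R hS hU hN h1 h2 h3 hd hr hq i fr o κ hw
    exact s1.trans (add_le_add s2 s3)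

/-- **light levels** : the relation of the life in the class of the end of the level (state `5 (t + 1)`) -/
theorem cls_vL {p : AP} {c c' : KC} {κ : Fin 10}
    (m1 : c'.e1 ≤ c.e1) (m2 : c'.e2 ≤ c.e2) (m3 : c'.e3 ≤ c.e3) (md : c'.dH ≤ c.dH)
    (h1 : 0 ≤ c'.e1) (h2 : 0 < c'.e2) (h3 : 0 < c'.e3) (hd : 0 < c'.dH) {r0 : ℝ} (hr : R0B v h tb p c' r0)
    {q : ℕ} (hq : q ≤ 5 * T) (i : Fin 3) (fr o : Option (Fin 3)) {w : Om W X β} (hw : tb.Ps.p w ≠ 0) (hl : ltL v tb q w) :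
    tb.Ps.ce (CN (MSi tb (v := v) d1 kb d0 k0 p1 z hd1 hd11 hkb hd0 hd01 hk0 hp1 hz) i (5 * (q / 5) + 5)) (fun u => ind (SR h v tb fr p c κ o (tauS (MSi tb (v := v) d1 kb d0 k0 p1 z hd1 hd11 hkb hd0 hd01 hk0 hp1 hz) i q u) u ∧ Alv h v tb p q u)) w ≤
      bK r0 c' κ := by
  have h5 : 5 * (q / 5) + 5 ≤ 5 * T := by
    have := hl.1
    omega
  have hle : q ≤ 5 * (q / 5) + 5 := by omega
  refine le_trans (ce_mono_cls fun u hu hc => ind_mono fun hh => ?_)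
    (base_v' tb hd1 hd11 hkb hd0 hd01 hk0 hp1 hz H R hS hU hN m1 m2 m3 md h1 h2 h3 hd hr h5 i fr o κ hw)
  have hlu : ltL v tb q u := (ltL_fac tb (NP_le (MSi tb (v := v) d1 kb d0 k0 p1 z hd1 hd11 hkb hd0 hd01 hk0 hp1 hz) hle u w (CN_NP (MSi tb (v := v) d1 kb d0 k0 p1 z hd1 hd11 hkb hd0 hd01 hk0 hp1 hz) i _ u w hc))).2 hl
  obtain ⟨g1, g2⟩ := ltL_tauS tb hd1 hd11 hkb hd0 hd01 hk0 hp1 hz hlu i
  have g3 := hh.1
  unfold SR at g3
  rw [eT_lt tb g1 g2] at g3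
  exact g3

/-- **THE CLASS MASS OF THE RELATION OF THE LIFE OF `i` AT THE NODE** (life of the public start) -/
theorem cls_n {p : AP} {c c' : KC} {κ : Fin 10} (he : d1 ≤ 1 / 400) (hg : Gap (2000 * d1) c c' κ.1)
    (m1 : c'.e1 ≤ c.e1) (m2 : c'.e2 ≤ c.e2) (m3 : c'.e3 ≤ c.e3) (md : c'.dH ≤ c.dH)
    (h1 : 0 ≤ c'.e1) (h2 : 0 < c'.e2) (h3 : 0 < c'.e3) (hd : 0 < c'.dH) {r0 : ℝ} (hr : R0B v h tb p c' r0)
    {q : ℕ} (hq : q ≤ 5 * T) (i : Fin 3) (fr o : Option (Fin 3)) {w : Om W X β} (hw : tb.Ps.p w ≠ 0) :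
    tb.Ps.ce (NPo tb v q) (fun u => ind (SR h v tb fr p c κ o (tauS (MSi tb (v := v) d1 kb d0 k0 p1 z hd1 hd11 hkb hd0 hd01 hk0 hp1 hz) i (MV.nu (MSi tb (v := v) d1 kb d0 k0 p1 z hd1 hd11 hkb hd0 hd01 hk0 hp1 hz) q u) u) u ∧ Alv h v tb p q u)) w ≤
      k0 + (Real.exp (4 * Lam) * kb + bK r0 c' κ) := by
  have s1 : tb.Ps.ce (NPo tb v q) (fun u => ind (SR h v tb fr p c κ o (tauS (MSi tb (v := v) d1 kb d0 k0 p1 z hd1 hd11 hkb hd0 hd01 hk0 hp1 hz) i (MV.nu (MSi tb (v := v) d1 kb d0 k0 p1 z hd1 hd11 hkb hd0 hd01 hk0 hp1 hz) q u) u) u ∧ Alv h v tb p q u)) w ≤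
      tb.Ps.ce (NPo tb v q) (fun u => ind (Lst (MSi tb (v := v) d1 kb d0 k0 p1 z hd1 hd11 hkb hd0 hd01 hk0 hp1 hz) (MV.nu (MSi tb (v := v) d1 kb d0 k0 p1 z hd1 hd11 hkb hd0 hd01 hk0 hp1 hz) q u) q u)) w +
        tb.Ps.ce (NPo tb v q) (fun u => ind (SR h v tb fr p c κ o (tauS (MSi tb (v := v) d1 kb d0 k0 p1 z hd1 hd11 hkb hd0 hd01 hk0 hp1 hz) i q u) u ∧ Alv h v tb p q u)) w := by
    refine ce_or_cls fun u hu hc hh => ?_
    by_cases hL : Lst (MSi tb (v := v) d1 kb d0 k0 p1 z hd1 hd11 hkb hd0 hd01 hk0 hp1 hz) (MV.nu (MSi tb (v := v) d1 kb d0 k0 p1 z hd1 hd11 hkb hd0 hd01 hk0 hp1 hz) q u) q u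
    · exact Or.inl hL
    · right
      have g1 : tauS (MSi tb (v := v) d1 kb d0 k0 p1 z hd1 hd11 hkb hd0 hd01 hk0 hp1 hz) i q u ≤ MV.nu (MSi tb (v := v) d1 kb d0 k0 p1 z hd1 hd11 hkb hd0 hd01 hk0 hp1 hz) q u := tauS_lst hL
      have g2 : tauS (MSi tb (v := v) d1 kb d0 k0 p1 z hd1 hd11 hkb hd0 hd01 hk0 hp1 hz) i (MV.nu (MSi tb (v := v) d1 kb d0 k0 p1 z hd1 hd11 hkb hd0 hd01 hk0 hp1 hz) q u) u = tauS (MSi tb (v := v) d1 kb d0 k0 p1 z hd1 hd11 hkb hd0 hd01 hk0 hp1 hz) i q u := stg_mid rfl g1 (MV.nu_le q u)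
      rw [g2] at hh
      exact hh
  have s2 : tb.Ps.ce (NPo tb v q) (fun u => ind (Lst (MSi tb (v := v) d1 kb d0 k0 p1 z hd1 hd11 hkb hd0 hd01 hk0 hp1 hz) (MV.nu (MSi tb (v := v) d1 kb d0 k0 p1 z hd1 hd11 hkb hd0 hd01 hk0 hp1 hz) q u) q u)) w ≤ k0 := (Lst_mass' (MSi tb (v := v) d1 kb d0 k0 p1 z hd1 hd11 hkb hd0 hd01 hk0 hp1 hz) q hw).le
  have s3 : tb.Ps.ce (NPo tb v q) (fun u => ind (SR h v tb fr p c κ o (tauS (MSi tb (v := v) d1 kb d0 k0 p1 z hd1 hd11 hkb hd0 hd01 hk0 hp1 hz) i q u) u ∧ Alv h v tb p q u)) w ≤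
      Real.exp (4 * Lam) * kb + bK r0 c' κ :=
    ce_fine (CN_NP (MSi tb (v := v) d1 kb d0 k0 p1 z hd1 hd11 hkb hd0 hd01 hk0 hp1 hz) i q) hw fun u hu =>
      cls_v tb hd1 hd11 hkb hd0 hd01 hk0 hp1 hz H R hS hU hN he hg m1 m2 m3 md h1 h2 h3 hd hr hq i fr o hu
  exact s1.trans (add_le_add s2 s3)

/-- **THE CLASS MASS OF THE PUBLIC RELATION AT THE NODE** -/
theorem cls_0 {p : AP} {c c' : KC} {κ : Fin 10} (he : 8 * d0 ≤ 1 / 100) (hg : Gap (4000 * d0) c c' κ.1)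
    (m1 : c'.e1 ≤ c.e1) (m2 : c'.e2 ≤ c.e2) (m3 : c'.e3 ≤ c.e3) (md : c'.dH ≤ c.dH)
    (h1 : 0 ≤ c'.e1) (h2 : 0 < c'.e2) (h3 : 0 < c'.e3) (hd : 0 < c'.dH) {r0 : ℝ} (hr : R0B v h tb p c' r0)
    {q : ℕ} (hq : q ≤ 5 * T) (fr o : Option (Fin 3)) {w : Om W X β} (hw : tb.Ps.p w ≠ 0) :
    tb.Ps.ce (NPo tb v q) (fun u => ind (SR h v tb fr p c κ o (MV.nu (MSi tb (v := v) d1 kb d0 k0 p1 z hd1 hd11 hkb hd0 hd01 hk0 hp1 hz) q u) u ∧ Alv h v tb p q u)) w ≤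
      Real.exp (4 * Lam) * k0 + bK r0 c' κ := by
  have hTk : Thk (MSi tb (v := v) d1 kb d0 k0 p1 z hd1 hd11 hkb hd0 hd01 hk0 hp1 hz) Lam := (thks h tb v hd1 hd11 hkb hd0 hd01 hk0 hp1 hz H).thk
  have e0 : 0 ≤ Real.exp (4 * Lam) * k0 := mul_nonneg (Real.exp_pos _).le hk0.le
  by_cases hl : ltL v tb q w
  · have h5 : 5 * (q / 5) + 5 ≤ 5 * T := by
      have := hl.1
      omega
    have hle : q ≤ 5 * (q / 5) + 5 := by omega
    have s1 : tb.Ps.ce (NPo tb v q) (fun u => ind (SR h v tb fr p c κ o (MV.nu (MSi tb (v := v) d1 kb d0 k0 p1 z hd1 hd11 hkb hd0 hd01 hk0 hp1 hz) q u) u ∧ Alv h v tb p q u)) w ≤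
        tb.Ps.ce (NPo tb v q) (fun u => ind (cv h v tb fr c κ o (5 * (q / 5) + 5) u ∧ Alv h v tb p (5 * (q / 5) + 5) u)) w := by
      refine ce_mono_cls fun u hu hc => ind_mono fun hh => ?_
      have hlu : ltL v tb q u := (ltL_fac tb hc).2 hl
      obtain ⟨g1, g2⟩ := ltL_nu tb hd1 hd11 hkb hd0 hd01 hk0 hp1 hz hlu
      have g3 := hh.1
      unfold SR at g3
      rw [eT_lt tb g1 g2] at g3
      exact g3
    have s2 : tb.Ps.ce (NPo tb v q) (fun u => ind (cv h v tb fr c κ o (5 * (q / 5) + 5) u ∧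
        Alv h v tb p (5 * (q / 5) + 5) u)) w ≤ bK r0 c' κ :=
      ce_fine ((CN_NP (MSi tb (v := v) d1 kb d0 k0 p1 z hd1 hd11 hkb hd0 hd01 hk0 hp1 hz) 0 _).trans (NP_le (MSi tb (v := v) d1 kb d0 k0 p1 z hd1 hd11 hkb hd0 hd01 hk0 hp1 hz) hle)) hw fun u hu =>
        base_v' tb hd1 hd11 hkb hd0 hd01 hk0 hp1 hz H R hS hU hN m1 m2 m3 md h1 h2 h3 hd hr h5 0 fr o κ hu
    linarith
  · have s1 : tb.Ps.ce (NPo tb v q) (fun u => ind (SR h v tb fr p c κ o (MV.nu (MSi tb (v := v) d1 kb d0 k0 p1 z hd1 hd11 hkb hd0 hd01 hk0 hp1 hz) q u) u ∧ Alv h v tb p q u)) w ≤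
        tb.Ps.ce (NPo tb v q) (fun u => ind (0 < tb.Ps.ce (TH (MSi tb (v := v) d1 kb d0 k0 p1 z hd1 hd11 hkb hd0 hd01 hk0 hp1 hz) q) (fun u => ind (Lst (MSi tb (v := v) d1 kb d0 k0 p1 z hd1 hd11 hkb hd0 hd01 hk0 hp1 hz) (MV.nu (MSi tb (v := v) d1 kb d0 k0 p1 z hd1 hd11 hkb hd0 hd01 hk0 hp1 hz) q u) q u)) u)) w +
          tb.Ps.ce (NPo tb v q) (fun u => ind (cv h v tb fr c' κ o q u ∧ Alv h v tb p q u)) w := by
      refine ce_or_cls fun u hu hc hh => ?_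
      have hlu : ¬ ltL v tb q u := fun h6 => hl ((ltL_fac tb hc).1 h6)
      have eL : tb.Ps.ce (TH (MSi tb (v := v) d1 kb d0 k0 p1 z hd1 hd11 hkb hd0 hd01 hk0 hp1 hz) q) (fun x => ind (Lst (MSi tb (v := v) d1 kb d0 k0 p1 z hd1 hd11 hkb hd0 hd01 hk0 hp1 hz) (MV.nu (MSi tb (v := v) d1 kb d0 k0 p1 z hd1 hd11 hkb hd0 hd01 hk0 hp1 hz) q u) q x)) u =
          tb.Ps.ce (TH (MSi tb (v := v) d1 kb d0 k0 p1 z hd1 hd11 hkb hd0 hd01 hk0 hp1 hz) q) (fun x => ind (Lst (MSi tb (v := v) d1 kb d0 k0 p1 z hd1 hd11 hkb hd0 hd01 hk0 hp1 hz) (MV.nu (MSi tb (v := v) d1 kb d0 k0 p1 z hd1 hd11 hkb hd0 hd01 hk0 hp1 hz) q x) q x)) u := by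
        refine ce_fib tb.Ps fun x hx => ?_
        have h7 : MV.nu (MSi tb (v := v) d1 kb d0 k0 p1 z hd1 hd11 hkb hd0 hd01 hk0 hp1 hz) q x = MV.nu (MSi tb (v := v) d1 kb d0 k0 p1 z hd1 hd11 hkb hd0 hd01 hk0 hp1 hz) q u := nu_fac (MSi tb (v := v) d1 kb d0 k0 p1 z hd1 hd11 hkb hd0 hd01 hk0 hp1 hz) q x u (CN_NP (MSi tb (v := v) d1 kb d0 k0 p1 z hd1 hd11 hkb hd0 hd01 hk0 hp1 hz) 0 q x u (TH_CN (MSi tb (v := v) d1 kb d0 k0 p1 z hd1 hd11 hkb hd0 hd01 hk0 hp1 hz) 0 q x u hx))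
        rw [h7]
      by_cases hm : 0 < tb.Ps.ce (TH (MSi tb (v := v) d1 kb d0 k0 p1 z hd1 hd11 hkb hd0 hd01 hk0 hp1 hz) q) (fun x => ind (Lst (MSi tb (v := v) d1 kb d0 k0 p1 z hd1 hd11 hkb hd0 hd01 hk0 hp1 hz) (MV.nu (MSi tb (v := v) d1 kb d0 k0 p1 z hd1 hd11 hkb hd0 hd01 hk0 hp1 hz) q x) q x)) u
      · exact Or.inl hm
      · refine Or.inr ⟨SR_nu tb hd1 hd11 hkb hd0 hd01 hk0 hp1 hz H R hS hU hN he hg (q5 hq) hu hlu ?_ hh.1, hh.2⟩
        rw [eL]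
        exact hm
    have s2 : tb.Ps.ce (NPo tb v q) (fun u => ind (0 < tb.Ps.ce (TH (MSi tb (v := v) d1 kb d0 k0 p1 z hd1 hd11 hkb hd0 hd01 hk0 hp1 hz) q) (fun u => ind (Lst (MSi tb (v := v) d1 kb d0 k0 p1 z hd1 hd11 hkb hd0 hd01 hk0 hp1 hz) (MV.nu (MSi tb (v := v) d1 kb d0 k0 p1 z hd1 hd11 hkb hd0 hd01 hk0 hp1 hz) q u) q u)) u)) w ≤
        Real.exp (4 * Lam) * k0 := by
      have g1 : ∀ u, tb.Ps.p u ≠ 0 → ind (0 < tb.Ps.ce (TH (MSi tb (v := v) d1 kb d0 k0 p1 z hd1 hd11 hkb hd0 hd01 hk0 hp1 hz) q) (fun u => ind (Lst (MSi tb (v := v) d1 kb d0 k0 p1 z hd1 hd11 hkb hd0 hd01 hk0 hp1 hz) (MV.nu (MSi tb (v := v) d1 kb d0 k0 p1 z hd1 hd11 hkb hd0 hd01 hk0 hp1 hz) q u) q u)) u) ≤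
          Real.exp (4 * Lam) * tb.Ps.ce (TH (MSi tb (v := v) d1 kb d0 k0 p1 z hd1 hd11 hkb hd0 hd01 hk0 hp1 hz) q) (fun u => ind (Lst (MSi tb (v := v) d1 kb d0 k0 p1 z hd1 hd11 hkb hd0 hd01 hk0 hp1 hz) (MV.nu (MSi tb (v := v) d1 kb d0 k0 p1 z hd1 hd11 hkb hd0 hd01 hk0 hp1 hz) q u) q u)) u := by
        intro u hu
        by_cases hm : 0 < tb.Ps.ce (TH (MSi tb (v := v) d1 kb d0 k0 p1 z hd1 hd11 hkb hd0 hd01 hk0 hp1 hz) q) (fun u => ind (Lst (MSi tb (v := v) d1 kb d0 k0 p1 z hd1 hd11 hkb hd0 hd01 hk0 hp1 hz) (MV.nu (MSi tb (v := v) d1 kb d0 k0 p1 z hd1 hd11 hkb hd0 hd01 hk0 hp1 hz) q u) q u)) u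
        · rw [ind_of hm]
          have h6 := hTk q _ (Lstnu_fac (MSi tb (v := v) d1 kb d0 k0 p1 z hd1 hd11 hkb hd0 hd01 hk0 hp1 hz) q) u hu hm
          calc (1 : ℝ) = Real.exp (4 * Lam) * Real.exp (-(4 * Lam)) := by
                rw [← Real.exp_add, add_neg_cancel, Real.exp_zero]
            _ ≤ _ := mul_le_mul_of_nonneg_left h6 (Real.exp_pos _).le
        · rw [ind_not hm]
          exact mul_nonneg (Real.exp_pos _).le (tb.Ps.ce_nonneg (fun _ _ => ind_nonneg _) u)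
      refine (tb.Ps.ce_mono g1 w).trans ?_
      have e9 : tb.Ps.ce (NPo tb v q) (tb.Ps.ce (TH (MSi tb (v := v) d1 kb d0 k0 p1 z hd1 hd11 hkb hd0 hd01 hk0 hp1 hz) q) (fun u => ind (Lst (MSi tb (v := v) d1 kb d0 k0 p1 z hd1 hd11 hkb hd0 hd01 hk0 hp1 hz) (MV.nu (MSi tb (v := v) d1 kb d0 k0 p1 z hd1 hd11 hkb hd0 hd01 hk0 hp1 hz) q u) q u))) w =
          tb.Ps.ce (NPo tb v q) (fun u => ind (Lst (MSi tb (v := v) d1 kb d0 k0 p1 z hd1 hd11 hkb hd0 hd01 hk0 hp1 hz) (MV.nu (MSi tb (v := v) d1 kb d0 k0 p1 z hd1 hd11 hkb hd0 hd01 hk0 hp1 hz) q u) q u)) w :=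
        tb.Ps.ce_tower ((TH_CN (MSi tb (v := v) d1 kb d0 k0 p1 z hd1 hd11 hkb hd0 hd01 hk0 hp1 hz) 0 q).trans (CN_NP (MSi tb (v := v) d1 kb d0 k0 p1 z hd1 hd11 hkb hd0 hd01 hk0 hp1 hz) 0 q)) _ w
      rw [tb.Ps.ce_smul, e9]
      exact mul_le_mul_of_nonneg_left (Lst_mass' (MSi tb (v := v) d1 kb d0 k0 p1 z hd1 hd11 hkb hd0 hd01 hk0 hp1 hz) q hw).le (Real.exp_pos _).le
    have s3 : tb.Ps.ce (NPo tb v q) (fun u => ind (cv h v tb fr c' κ o q u ∧ Alv h v tb p q u)) w ≤ bK r0 c' κ :=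
      ce_fine (CN_NP (MSi tb (v := v) d1 kb d0 k0 p1 z hd1 hd11 hkb hd0 hd01 hk0 hp1 hz) 0 q) hw fun u hu =>
        base_v tb hd1 hd11 hkb hd0 hd01 hk0 hp1 hz H R hS hU hN h1 h2 h3 hd hr hq 0 fr o κ hu
    exact s1.trans (add_le_add s2 s3)

end run

end

end Pool.Agent.GMH.CLM
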