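import Pool.Agent.GMH.RarR0
import Pool.Agent.GMH.ClsM

/-!
# GMH/RarR0B: the class mass of `R0` in the form of `GMH/ClsM` (helper34)

* `gdc L i q w` : the class of the exact vertex `i` at the state `q` has at least the share `exp (-L)` in its class at the
  state `5 (q / 5)`; `gdc_zero` : no condition at `q = 5 t`; `gdc_fac`; `gdc_of` from a logarithm;
* **`R0B_of`** : `gdc L i q w` implies that the mass of `R0` (three tops, thresholds `c`, alive) in the class is at most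
  `r0L = 2 ELr (L, X0 + L) / e1 ^ 2`; `bad_n` : the mass of `¬ gdc` in the public class: `exp (lw - L)`.
-/

set_option autoImplicit false
set_option linter.unusedSectionVars false

namespace Pool.Agent.GMH.RarR0

open Finset Pool.Agent.PWZ Pool.Agent.M3 Pool.Agent.GM Pool.Agent.GM.Harm Pool.Agent.GMH
open Pool.Agent.GMH.TP Pool.Agent.GMH.TD Pool.Agent.GMH.Dy Pool.Agent.GMH.MVI Pool.Agent.GMH.MVIp Pool.Agent.GMH.GamR
open Pool.Agent.GMH.RarC Pool.Agent.GMH.KF Pool.Agent.GMH.ExK Pool.Agent.GMH.V3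

noncomputable section

variable {X β γ φ : Type} [Fintype X] [Fintype β] [Fintype φ] [Nonempty X] [Nonempty β]
  {D : HD (Fin 3) X β γ φ} {al : ℝ} {h : D.Thick al}
  {v : ℕ → Finset (Fin 3) → X → (Fin 3 → β) → Pt (Fin 3) X β φ}
  {dg : ℕ → X → ℝ} {prr : ℕ → Fin 3 → φ → φ} {T : ℕ} {Lam : ℝ} {W : Type} [Fintype W] (tb : Tab D prr T W)

/-- the class of `i` is not small in its class at the beginning of the level -/
def gdc (v : ℕ → Finset (Fin 3) → X → (Fin 3 → β) → Pt (Fin 3) X β φ) (L : ℝ) (i : Fin 3) (q : ℕ) (w : Om W X β) : Prop :=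
  tb.Ps.m (XN tb v i (5 * (q / 5))) w ≤ Real.exp L * tb.Ps.m (XN tb v i q) w

theorem gdc_zero {L : ℝ} (hL : 0 ≤ L) (i : Fin 3) {q : ℕ} (hq : q % 5 = 0) (w : Om W X β) : gdc tb v L i q w := by
  unfold gdc
  rw [show 5 * (q / 5) = q by omega]
  have h1 := tb.Ps.m_nonneg (XN tb v i q) w
  have h2 : 1 ≤ Real.exp L := Real.one_le_exp hL
  nlinarith

theorem gdc_fac (L : ℝ) (i : Fin 3) (q : ℕ) : Fac (XN tb v i q) (gdc tb v L i q) := fun a b e => by
  have h1 := tb.Ps.Fac_m (XN tb v i q) a b e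
  have h2 := tb.Ps.Fac_m (XN tb v i (5 * (q / 5))) a b (XN_mono tb i (by omega) a b e)
  unfold gdc
  rw [h1, h2]

theorem gdc_of {L : ℝ} {i : Fin 3} {q : ℕ} {w : Om W X β} (hw : tb.Ps.p w ≠ 0)
    (hL : Real.log (tb.Ps.m (XN tb v i (5 * (q / 5))) w / tb.Ps.m (XN tb v i q) w) ≤ L) : gdc tb v L i q w := by
  have p1 := tb.Ps.m_pos (XN tb v i q) hw
  have p2 := tb.Ps.m_pos (XN tb v i (5 * (q / 5))) hw
  rw [Real.log_le_iff_le_exp (div_pos p2 p1), div_le_iff₀ p1] at hL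
  exact hL

/-- the bound -/
def r0L (n N1 al X0 R0 ep : ℝ) (k : ℕ) (L e : ℝ) : ℝ := 2 * ELr n N1 al (3 * Real.exp X0) R0 ep k L (X0 + L) / e ^ 2

/-- **`R0B`** with its condition -/
theorem R0B_of {n N1 : ℝ} (hn : 1 ≤ n) (hN1 : 1 ≤ N1) (H : D.Hyp dg prr al T Lam)
    (R : Run h (pr3 (Fin 3) n N1) (SS1 (Fin 3)) (AdmDep D) v) {p : V3.AP} (hX0 : 0 ≤ p.X0) {R0 ep : ℝ} {k : ℕ} {L : ℝ}
    (K : Cst n al (3 * Real.exp p.X0) R0 ep k L) {c : KC} (he : 0 < c.e1) :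
    ∀ q ≤ 5 * T, ∀ i, ∀ w, tb.Ps.p w ≠ 0 → gdc tb v L i q w →
      tb.Ps.ce (fun u => (XLo tb v i q u, NPo tb v q u))
        (fun u => ind (ck h v tb Option.none c 1 q u ∧ Alv h v tb p q u)) w ≤ r0L n N1 al p.X0 R0 ep k L c.e1 := by
  intro q hq i w hw hg
  have p1 := tb.Ps.m_pos (XN tb v i q) hw
  have p2 := tb.Ps.m_pos (XN tb v i (5 * (q / 5))) hw
  refine r0_x (t := q / 5) tb hn hN1 H R i rfl (by omega) (fun h0 => by omega) hX0 hw K ?_ he (o := Option.none)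
    (fun a ha => ha.2) fun a ha hA => ?_
  · rw [Real.log_le_iff_le_exp (div_pos p2 p1), div_le_iff₀ p1]
    exact hg
  · have hp := (pul_pt h tb (show q / 5 ≤ T by omega)).ne ha
    have h2 : co (D.P h (q / 5)) (ZQ D v q) (FQ v (q / 5)) c 1 (tb.pt (q / 5) a) (tup (FQ v (q / 5)) (tb.pt (q / 5) a)) := hA.1
    rw [co_Ap (by omega)] at h2
    exact (Ap1_iff (D.P h (q / 5)) (FQ v (q / 5)) c hp _).1 h2

/-- **the bad classes in the public class** -/
theorem bad_n {q : ℕ} (i : Fin 3) {L lw : ℝ} {w : Om W X β} (hw : tb.Ps.p w ≠ 0)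
    (hlw : Real.exp (-lw) * tb.Ps.m (NPo tb v (5 * (q / 5))) w ≤ tb.Ps.m (NPo tb v q) w) :
    tb.Ps.ce (NPo tb v q) (fun u => ind (¬ gdc tb v L i q u)) w ≤ Real.exp (lw - L) := by
  have hm := tb.Ps.m_pos (NPo tb v q) hw
  rw [ce_ind, div_le_iff₀ hm]
  have h3 := small_cls (v := v) tb i (t := q / 5) (q := q) rfl w L
  have h5 : Real.exp (-L) * tb.Ps.m (NPo tb v (5 * (q / 5))) w ≤ Real.exp (lw - L) * tb.Ps.m (NPo tb v q) w := by
    have h6 := mul_le_mul_of_nonneg_left hlw (Real.exp_pos (lw - L)).le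
    rw [← mul_assoc, ← Real.exp_add] at h6
    rwa [show lw - L + -lw = -L by ring] at h6
  refine le_trans (tb.Ps.Pr_mono fun u _ hu => ⟨hu.1, not_le.1 hu.2⟩) (h3.trans h5)

end

end Pool.Agent.GMH.RarR0
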