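import Pool.Agent.GMH.ClsM
import Pool.Agent.GMH.RarR0B
import Pool.Agent.GMH.RarN7

/-!
# GMH/ClsG (helper7): CLASS MASSES OF THE OLD RELATIONS, classes which are not small (rows C5, UnmX)

The statements of `GMH/ClsM` with the true input `R0G` (`RarR0.R0B_of`): the masses of `R0` are small only in the classes of the
exact vertex with share at least `exp (-L)` in the class at the beginning of the level (`RarR0.gdc`).
* `base_g` : relations with the tables of the same state; **`cls_gv`** : relation of the life at the exact vertex (condition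
  `gdc` outside the light levels); `cls_gL` : light levels, class of `5 (t + 1)` (no condition);
* **`cls_gn`**, **`cls_g0`** : at the node, life of the public start and public relation, at the classes `okq` (`GMH/RarN7`):
  `+ exp (lam + 4 - L)`.
-/

set_option autoImplicit false
set_option linter.unusedSectionVars false

namespace Pool.Agent.GMH.CLM

open Finset Pool.Agent.PWZ Pool.Agent.M3 Pool.Agent.GM Pool.Agent.GM.Harm Pool.Agent.GMH Pool.Agent.GMH.NZ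
open Pool.Agent.GMH.V3 Pool.Agent.GMH.TP Pool.Agent.GMH.TD Pool.Agent.GMH.Dy Pool.Agent.GMH.MV Pool.Agent.GMH.MVI
open Pool.Agent.GMH.CK Pool.Agent.GMH.KF Pool.Agent.GMH.KDT Pool.Agent.GMH.KDTw Pool.Agent.GMH.KDL Pool.Agent.GMH.ExK
open Pool.Agent.GMH.KFR Pool.Agent.GMH.TRF Pool.Agent.GMH.KDV
open Pool.Agent.GMH.RarR0 (gdc gdc_zero)
open Pool.Agent.GMH.RarN (okq)

noncomputable section

section cls

variable {Om : Type} [Fintype Om] {P : FP Om}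

theorem ce_ind_le_one {κ' : Type*} {C : Om → κ'} {A : Om → Prop} {w : Om} (hw : P.p w ≠ 0) :
    P.ce C (fun u => ind (A u)) w ≤ 1 := P.ce_le_const (fun _ _ => ind_le_one _) hw

/-- a bound in the finer classes outside a bad event -/
theorem ce_fine2 {κ' κ'' : Type*} {C : Om → κ'} {C' : Om → κ''} (hC : Fac C' C) {A B : Om → Prop} {b : ℝ} (hb : 0 ≤ b) {w : Om}
    (hw : P.p w ≠ 0) (h : ∀ u, P.p u ≠ 0 → C u = C w → ¬ B u → P.ce C' (fun u => ind (A u)) u ≤ b) :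
    P.ce C (fun u => ind (A u)) w ≤ b + P.ce C (fun u => ind (B u)) w := by
  rw [← P.ce_tower hC (fun u => ind (A u)) w]
  have h1 : P.ce C (fun _ => b) w = b := P.ce_const C b hw
  calc P.ce C (P.ce C' fun u => ind (A u)) w ≤ P.ce C (fun u => b + ind (B u)) w := by
        refine ce_mono_cls fun u hu hc => ?_
        by_cases hB : B u
        · rw [ind_of hB]
          linarith [ce_ind_le_one (P := P) (C := C') (A := A) hu]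
        · rw [ind_not hB, add_zero]
          exact h u hu hc hB
    _ = P.ce C (fun _ => b) w + P.ce C (fun u => ind (B u)) w := P.ce_add _ _ _ _
    _ = _ := by rw [h1]

end cls

section nn

theorem bK_nn {r0 : ℝ} (hr0 : 0 ≤ r0) {c : KC} (h1 : 0 ≤ c.e1) (h2 : 0 < c.e2) (h3 : 0 < c.e3) (hd : 0 < c.dH) (κ : Fin 10) :
    0 ≤ bK r0 c κ := by
  unfold bK
  have := qK_nn h1 h2 h3 hd
  split_ifs <;> linarith

end nn

/-! ### the run -/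

section run

variable {X β γ φ : Type} [Fintype X] [Fintype β] [Fintype φ] [Nonempty X] [Nonempty β]
variable {D : HD (Fin 3) X β γ φ} {al : ℝ} {h : D.Thick al} {N : Finset (Fin 3) → ℝ} {SS : Finset (Finset (Fin 3))}
  {v : ℕ → Finset (Fin 3) → X → (Fin 3 → β) → Pt (Fin 3) X β φ}
variable {dg : ℕ → X → ℝ} {prr : ℕ → Fin 3 → φ → φ} {T : ℕ} {Lam : ℝ} {W : Type} [Fintype W] (tb : Tab D prr T W)
variable {d1 kb d0 k0 p1 z : ℝ} (hd1 : 0 < d1) (hd11 : d1 ≤ 1) (hkb : 0 < kb) (hd0 : 0 < d0) (hd01 : d0 ≤ 1) (hk0 : 0 < k0)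
  (hp1 : 0 < p1) (hz : 0 < z)

variable (v) in
/-- the masses of `R0` (three tops), alive, in the classes of the exact vertices which are not small, are at most `r0` -/
def R0G (h : D.Thick al) (tb : Tab D prr T W) (p : AP) (c : KC) (L r0 : ℝ) : Prop :=
  0 ≤ L ∧ 0 ≤ r0 ∧ ∀ q ≤ 5 * T, ∀ i, ∀ w, tb.Ps.p w ≠ 0 → gdc tb v L i q w →
    tb.Ps.ce (fun u => (XLo tb v i q u, NPo tb v q u)) (fun u => ind (ck h v tb Option.none c 1 q u ∧ Alv h v tb p q u)) w ≤ r0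

variable (H : D.Hyp dg prr al T Lam) (R : Run h N SS (AdmDep D) v) (hS : ∀ l, univ.erase l ∈ SS) (hU : univ ∉ SS)
  (hN : ∀ l, 0 < N (univ.erase l))

include H R hS hU hN

/-- **BASE: THE CLASS MASS OF THE RELATIONS WITH THE TABLES OF THE SAME STATE** -/
theorem base_g {p : AP} {c : KC} (h1 : 0 ≤ c.e1) (h2 : 0 < c.e2)
    (h3 : 0 < c.e3) (hd : 0 < c.dH) {L r0 : ℝ} (hr : R0G v h tb p c L r0) {q : ℕ} (hq : q ≤ 5 * T) (i : Fin 3)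
    (fr o : Option (Fin 3)) (κ : Fin 10) {w : Om W X β} (hw : tb.Ps.p w ≠ 0) (hgd : gdc tb v L i q w) :
    tb.Ps.ce (CN (MSi tb (v := v) d1 kb d0 k0 p1 z hd1 hd11 hkb hd0 hd01 hk0 hp1 hz) i q) (fun u => ind (cv h v tb fr c κ o q u ∧ Alv h v tb p q u)) w ≤ bK r0 c κ := by
  have h0 : tb.Ps.ce (CN (MSi tb (v := v) d1 kb d0 k0 p1 z hd1 hd11 hkb hd0 hd01 hk0 hp1 hz) i q) (fun u => ind (R0M (MSi tb (v := v) d1 kb d0 k0 p1 z hd1 hd11 hkb hd0 hd01 hk0 hp1 hz) c q u ∧ Alv h v tb p q u)) w ≤ r0 := by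
    refine le_trans (le_of_eq ?_) (hr.2.2 q hq i w hw hgd)
    refine tb.Ps.ce_congr (fun u hu => ?_) w
    congr 1
    refine propext (and_congr_left fun _ => ?_)
    rw [ck_iff tb hd1 hd11 hkb hd0 hd01 hk0 hp1 hz H R hS hU hN (q5 hq) hu Option.none c 1]
    exact (co_Ap (by omega)).symm
  unfold bK
  by_cases hκ : κ.1 ≤ 1
  · rw [if_pos hκ, add_zero]
    have h7 : ∀ u, tb.Ps.p u ≠ 0 → ind (cv h v tb fr c κ o q u ∧ Alv h v tb p q u) ≤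
        ind (R0M (MSi tb (v := v) d1 kb d0 k0 p1 z hd1 hd11 hkb hd0 hd01 hk0 hp1 hz) c q u ∧ Alv h v tb p q u) := fun u hu => ind_mono fun hh => by
      refine ⟨?_, hh.2⟩
      have hc := hh.1
      unfold cv at hc
      rw [if_neg (by omega), ck_iff tb hd1 hd11 hkb hd0 hd01 hk0 hp1 hz H R hS hU hN (q5 hq) hu fr c κ.1] at hc
      exact coM_one (M := (MSi tb (v := v) d1 kb d0 k0 p1 z hd1 hd11 hkb hd0 hd01 hk0 hp1 hz)) fr hκ hu hc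
    exact (tb.Ps.ce_mono h7 w).trans h0
  · rw [if_neg hκ]
    refine co_mass (M := (MSi tb (v := v) d1 kb d0 k0 p1 z hd1 hd11 hkb hd0 hd01 hk0 hp1 hz)) (TH_CN (MSi tb (v := v) d1 kb d0 k0 p1 z hd1 hd11 hkb hd0 hd01 hk0 hp1 hz) i q) h1 h2 h3 hd fr (A := fun u => cv h v tb fr c κ o q u) (fun u hu hc => ?_) hw h0
    obtain ⟨k, hk, hk2⟩ := cv_ck tb hc
    exact ⟨k, hk, (ck_iff tb hd1 hd11 hkb hd0 hd01 hk0 hp1 hz H R hS hU hN (q5 hq) hu fr c k).1 hk2⟩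

/-- base for the relations with larger thresholds -/
theorem base_g' {p : AP} {c c' : KC} (m1 : c'.e1 ≤ c.e1) (m2 : c'.e2 ≤ c.e2) (m3 : c'.e3 ≤ c.e3) (md : c'.dH ≤ c.dH)
    (h1 : 0 ≤ c'.e1) (h2 : 0 < c'.e2)
    (h3 : 0 < c'.e3) (hd : 0 < c'.dH) {L r0 : ℝ} (hr : R0G v h tb p c' L r0) {q : ℕ} (hq : q ≤ 5 * T) (i : Fin 3)
    (fr o : Option (Fin 3)) (κ : Fin 10) {w : Om W X β} (hw : tb.Ps.p w ≠ 0) (hgd : gdc tb v L i q w) :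
    tb.Ps.ce (CN (MSi tb (v := v) d1 kb d0 k0 p1 z hd1 hd11 hkb hd0 hd01 hk0 hp1 hz) i q) (fun u => ind (cv h v tb fr c κ o q u ∧ Alv h v tb p q u)) w ≤ bK r0 c' κ :=
  (tb.Ps.ce_mono (fun _ _ => ind_mono fun hh => ⟨cv_mono m1 m2 m3 md hh.1, hh.2⟩) w).trans
    (base_g tb hd1 hd11 hkb hd0 hd01 hk0 hp1 hz H R hS hU hN h1 h2 h3 hd hr hq i fr o κ hw hgd)

/-- **THE CLASS MASS OF THE RELATION OF THE LIFE, exact vertex** -/
theorem cls_gv {p : AP} {c c' : KC} {κ : Fin 10} (he : d1 ≤ 1 / 400) (hg : Gap (2000 * d1) c c' κ.1)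
    (m1 : c'.e1 ≤ c.e1) (m2 : c'.e2 ≤ c.e2) (m3 : c'.e3 ≤ c.e3) (md : c'.dH ≤ c.dH)
    (h1 : 0 ≤ c'.e1) (h2 : 0 < c'.e2) (h3 : 0 < c'.e3) (hd : 0 < c'.dH) {L r0 : ℝ} (hr : R0G v h tb p c' L r0)
    {q : ℕ} (hq : q ≤ 5 * T) (i : Fin 3) (fr o : Option (Fin 3)) {w : Om W X β} (hw : tb.Ps.p w ≠ 0)
    (hgd : ¬ ltL v tb q w → gdc tb v L i q w) :
    tb.Ps.ce (CN (MSi tb (v := v) d1 kb d0 k0 p1 z hd1 hd11 hkb hd0 hd01 hk0 hp1 hz) i q) (fun u => ind (SR h v tb fr p c κ o (tauS (MSi tb (v := v) d1 kb d0 k0 p1 z hd1 hd11 hkb hd0 hd01 hk0 hp1 hz) i q u) u ∧ Alv h v tb p q u)) w ≤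
      Real.exp (4 * Lam) * kb + bK r0 c' κ := by
  have hTk : Thk (MSi tb (v := v) d1 kb d0 k0 p1 z hd1 hd11 hkb hd0 hd01 hk0 hp1 hz) Lam := (thks h tb v hd1 hd11 hkb hd0 hd01 hk0 hp1 hz H).thk
  have e0 : 0 ≤ Real.exp (4 * Lam) * kb := mul_nonneg (Real.exp_pos _).le hkb.le
  by_cases hl : ltL v tb q w
  · -- inside a light level
    have h5 : 5 * (q / 5) + 5 ≤ 5 * T := by
      have := hl.1
      omega
    have hle : q ≤ 5 * (q / 5) + 5 := by omega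
    have s1 : tb.Ps.ce (CN (MSi tb (v := v) d1 kb d0 k0 p1 z hd1 hd11 hkb hd0 hd01 hk0 hp1 hz) i q) (fun u => ind (SR h v tb fr p c κ o (tauS (MSi tb (v := v) d1 kb d0 k0 p1 z hd1 hd11 hkb hd0 hd01 hk0 hp1 hz) i q u) u ∧ Alv h v tb p q u)) w ≤
        tb.Ps.ce (CN (MSi tb (v := v) d1 kb d0 k0 p1 z hd1 hd11 hkb hd0 hd01 hk0 hp1 hz) i q) (fun u => ind (cv h v tb fr c κ o (5 * (q / 5) + 5) u ∧ Alv h v tb p (5 * (q / 5) + 5) u)) w := by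
      refine ce_mono_cls fun u hu hc => ind_mono fun hh => ?_
      have hlu : ltL v tb q u := (ltL_fac tb (CN_NP (MSi tb (v := v) d1 kb d0 k0 p1 z hd1 hd11 hkb hd0 hd01 hk0 hp1 hz) i q u w hc)).2 hl
      obtain ⟨g1, g2⟩ := ltL_tauS tb hd1 hd11 hkb hd0 hd01 hk0 hp1 hz hlu i
      have g3 := hh.1
      unfold SR at g3
      rw [eT_lt tb g1 g2] at g3
      exact g3
    have s2 : tb.Ps.ce (CN (MSi tb (v := v) d1 kb d0 k0 p1 z hd1 hd11 hkb hd0 hd01 hk0 hp1 hz) i q) (fun u => ind (cv h v tb fr c κ o (5 * (q / 5) + 5) u ∧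
        Alv h v tb p (5 * (q / 5) + 5) u)) w ≤ bK r0 c' κ :=
      ce_fine (CN_le (MSi tb (v := v) d1 kb d0 k0 p1 z hd1 hd11 hkb hd0 hd01 hk0 hp1 hz) i hle) hw fun u hu =>
        base_g' tb hd1 hd11 hkb hd0 hd01 hk0 hp1 hz H R hS hU hN m1 m2 m3 md h1 h2 h3 hd hr h5 i fr o κ hu
          (gdc_zero tb hr.1 i (by omega) u)
    linarith
  · have s1 : tb.Ps.ce (CN (MSi tb (v := v) d1 kb d0 k0 p1 z hd1 hd11 hkb hd0 hd01 hk0 hp1 hz) i q) (fun u => ind (SR h v tb fr p c κ o (tauS (MSi tb (v := v) d1 kb d0 k0 p1 z hd1 hd11 hkb hd0 hd01 hk0 hp1 hz) i q u) u ∧ Alv h v tb p q u)) w ≤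
        tb.Ps.ce (CN (MSi tb (v := v) d1 kb d0 k0 p1 z hd1 hd11 hkb hd0 hd01 hk0 hp1 hz) i q) (fun u => ind (Mv (MSi tb (v := v) d1 kb d0 k0 p1 z hd1 hd11 hkb hd0 hd01 hk0 hp1 hz) i q u)) w +
          tb.Ps.ce (CN (MSi tb (v := v) d1 kb d0 k0 p1 z hd1 hd11 hkb hd0 hd01 hk0 hp1 hz) i q) (fun u => ind (cv h v tb fr c' κ o q u ∧ Alv h v tb p q u)) w := by
      refine ce_or_cls fun u hu hc hh => ?_
      have hlu : ¬ ltL v tb q u := fun h6 => hl ((ltL_fac tb (CN_NP (MSi tb (v := v) d1 kb d0 k0 p1 z hd1 hd11 hkb hd0 hd01 hk0 hp1 hz) i q u w hc)).1 h6)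
      by_cases hm : Mv (MSi tb (v := v) d1 kb d0 k0 p1 z hd1 hd11 hkb hd0 hd01 hk0 hp1 hz) i q u
      · exact Or.inl hm
      · exact Or.inr ⟨SR_prv tb hd1 hd11 hkb hd0 hd01 hk0 hp1 hz H R hS hU hN he hg (q5 hq) hu hlu hm hh.1, hh.2⟩
    have s2 := Mv_mass (MSi tb (v := v) d1 kb d0 k0 p1 z hd1 hd11 hkb hd0 hd01 hk0 hp1 hz) hTk i q hw
    have s3 := base_g tb hd1 hd11 hkb hd0 hd01 hk0 hp1 hz H R hS hU hN h1 h2 h3 hd hr hq i fr o κ hw (hgd hl)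
    exact s1.trans (add_le_add s2 s3)

/-- **light levels** : the relation of the life in the class of the end of the level (state `5 (t + 1)`) -/
theorem cls_gL {p : AP} {c c' : KC} {κ : Fin 10}
    (m1 : c'.e1 ≤ c.e1) (m2 : c'.e2 ≤ c.e2) (m3 : c'.e3 ≤ c.e3) (md : c'.dH ≤ c.dH)
    (h1 : 0 ≤ c'.e1) (h2 : 0 < c'.e2) (h3 : 0 < c'.e3) (hd : 0 < c'.dH) {L r0 : ℝ} (hr : R0G v h tb p c' L r0)
    {q : ℕ} (hq : q ≤ 5 * T) (i : Fin 3) (fr o : Option (Fin 3)) {w : Om W X β} (hw : tb.Ps.p w ≠ 0) (hl : ltL v tb q w) :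
    tb.Ps.ce (CN (MSi tb (v := v) d1 kb d0 k0 p1 z hd1 hd11 hkb hd0 hd01 hk0 hp1 hz) i (5 * (q / 5) + 5)) (fun u => ind (SR h v tb fr p c κ o (tauS (MSi tb (v := v) d1 kb d0 k0 p1 z hd1 hd11 hkb hd0 hd01 hk0 hp1 hz) i q u) u ∧ Alv h v tb p q u)) w ≤
      bK r0 c' κ := by
  have h5 : 5 * (q / 5) + 5 ≤ 5 * T := by
    have := hl.1
    omega
  have hle : q ≤ 5 * (q / 5) + 5 := by omega
  refine le_trans (ce_mono_cls fun u hu hc => ind_mono fun hh => ?_)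
    (base_g' tb hd1 hd11 hkb hd0 hd01 hk0 hp1 hz H R hS hU hN m1 m2 m3 md h1 h2 h3 hd hr h5 i fr o κ hw
      (gdc_zero tb hr.1 i (by omega) w))
  have hlu : ltL v tb q u := (ltL_fac tb (NP_le (MSi tb (v := v) d1 kb d0 k0 p1 z hd1 hd11 hkb hd0 hd01 hk0 hp1 hz) hle u w (CN_NP (MSi tb (v := v) d1 kb d0 k0 p1 z hd1 hd11 hkb hd0 hd01 hk0 hp1 hz) i _ u w hc))).2 hl
  obtain ⟨g1, g2⟩ := ltL_tauS tb hd1 hd11 hkb hd0 hd01 hk0 hp1 hz hlu i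
  have g3 := hh.1
  unfold SR at g3
  rw [eT_lt tb g1 g2] at g3
  exact g3

/-- **THE CLASS MASS OF THE RELATION OF THE LIFE OF `i` AT THE NODE** (life of the public start) -/
theorem cls_gn' {p : AP} {c c' : KC} {κ : Fin 10} (he : d1 ≤ 1 / 400) (hg : Gap (2000 * d1) c c' κ.1)
    (m1 : c'.e1 ≤ c.e1) (m2 : c'.e2 ≤ c.e2) (m3 : c'.e3 ≤ c.e3) (md : c'.dH ≤ c.dH)
    (h1 : 0 ≤ c'.e1) (h2 : 0 < c'.e2) (h3 : 0 < c'.e3) (hd : 0 < c'.dH) {L r0 : ℝ} (hr : R0G v h tb p c' L r0)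
    {q : ℕ} (hq : q ≤ 5 * T) (i : Fin 3) (fr o : Option (Fin 3)) {w : Om W X β} (hw : tb.Ps.p w ≠ 0) {b : ℝ}
    (hbd : tb.Ps.ce (NPo tb v q) (fun u => ind (¬ ltL v tb q u ∧ ¬ gdc tb v L i q u)) w ≤ b) :
    tb.Ps.ce (NPo tb v q) (fun u => ind (SR h v tb fr p c κ o (tauS (MSi tb (v := v) d1 kb d0 k0 p1 z hd1 hd11 hkb hd0 hd01 hk0 hp1 hz) i (MV.nu (MSi tb (v := v) d1 kb d0 k0 p1 z hd1 hd11 hkb hd0 hd01 hk0 hp1 hz) q u) u) u ∧ Alv h v tb p q u)) w ≤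
      k0 + (Real.exp (4 * Lam) * kb + bK r0 c' κ + b) := by
  have s1 : tb.Ps.ce (NPo tb v q) (fun u => ind (SR h v tb fr p c κ o (tauS (MSi tb (v := v) d1 kb d0 k0 p1 z hd1 hd11 hkb hd0 hd01 hk0 hp1 hz) i (MV.nu (MSi tb (v := v) d1 kb d0 k0 p1 z hd1 hd11 hkb hd0 hd01 hk0 hp1 hz) q u) u) u ∧ Alv h v tb p q u)) w ≤
      tb.Ps.ce (NPo tb v q) (fun u => ind (Lst (MSi tb (v := v) d1 kb d0 k0 p1 z hd1 hd11 hkb hd0 hd01 hk0 hp1 hz) (MV.nu (MSi tb (v := v) d1 kb d0 k0 p1 z hd1 hd11 hkb hd0 hd01 hk0 hp1 hz) q u) q u)) w +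
        tb.Ps.ce (NPo tb v q) (fun u => ind (SR h v tb fr p c κ o (tauS (MSi tb (v := v) d1 kb d0 k0 p1 z hd1 hd11 hkb hd0 hd01 hk0 hp1 hz) i q u) u ∧ Alv h v tb p q u)) w := by
    refine ce_or_cls fun u hu hc hh => ?_
    by_cases hL : Lst (MSi tb (v := v) d1 kb d0 k0 p1 z hd1 hd11 hkb hd0 hd01 hk0 hp1 hz) (MV.nu (MSi tb (v := v) d1 kb d0 k0 p1 z hd1 hd11 hkb hd0 hd01 hk0 hp1 hz) q u) q u
    · exact Or.inl hL
    · right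
      have g1 : tauS (MSi tb (v := v) d1 kb d0 k0 p1 z hd1 hd11 hkb hd0 hd01 hk0 hp1 hz) i q u ≤ MV.nu (MSi tb (v := v) d1 kb d0 k0 p1 z hd1 hd11 hkb hd0 hd01 hk0 hp1 hz) q u := tauS_lst hL
      have g2 : tauS (MSi tb (v := v) d1 kb d0 k0 p1 z hd1 hd11 hkb hd0 hd01 hk0 hp1 hz) i (MV.nu (MSi tb (v := v) d1 kb d0 k0 p1 z hd1 hd11 hkb hd0 hd01 hk0 hp1 hz) q u) u = tauS (MSi tb (v := v) d1 kb d0 k0 p1 z hd1 hd11 hkb hd0 hd01 hk0 hp1 hz) i q u := stg_mid rfl g1 (MV.nu_le q u)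
      rw [g2] at hh
      exact hh
  have s2 : tb.Ps.ce (NPo tb v q) (fun u => ind (Lst (MSi tb (v := v) d1 kb d0 k0 p1 z hd1 hd11 hkb hd0 hd01 hk0 hp1 hz) (MV.nu (MSi tb (v := v) d1 kb d0 k0 p1 z hd1 hd11 hkb hd0 hd01 hk0 hp1 hz) q u) q u)) w ≤ k0 := (Lst_mass' (MSi tb (v := v) d1 kb d0 k0 p1 z hd1 hd11 hkb hd0 hd01 hk0 hp1 hz) q hw).le
  have s3 : tb.Ps.ce (NPo tb v q) (fun u => ind (SR h v tb fr p c κ o (tauS (MSi tb (v := v) d1 kb d0 k0 p1 z hd1 hd11 hkb hd0 hd01 hk0 hp1 hz) i q u) u ∧ Alv h v tb p q u)) w ≤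
      Real.exp (4 * Lam) * kb + bK r0 c' κ + b := by
    have e0 : 0 ≤ Real.exp (4 * Lam) * kb + bK r0 c' κ :=
      add_nonneg (mul_nonneg (Real.exp_pos _).le hkb.le) (bK_nn hr.2.1 h1 h2 h3 hd κ)
    refine (ce_fine2 (P := tb.Ps) (CN_NP (MSi tb (v := v) d1 kb d0 k0 p1 z hd1 hd11 hkb hd0 hd01 hk0 hp1 hz) i q) (B := fun u => ¬ ltL v tb q u ∧ ¬ gdc tb v L i q u) e0 hw
      fun u hu hc hB => cls_gv tb hd1 hd11 hkb hd0 hd01 hk0 hp1 hz H R hS hU hN he hg m1 m2 m3 md h1 h2 h3 hd hr hq i fr o hu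
        fun hl => by
          by_contra h9
          exact hB ⟨hl, h9⟩).trans (add_le_add le_rfl hbd)
  exact s1.trans (add_le_add s2 s3)

/-- **THE CLASS MASS OF THE PUBLIC RELATION AT THE NODE** -/
theorem cls_g0' {p : AP} {c c' : KC} {κ : Fin 10} (he : 8 * d0 ≤ 1 / 100) (hg : Gap (4000 * d0) c c' κ.1)
    (m1 : c'.e1 ≤ c.e1) (m2 : c'.e2 ≤ c.e2) (m3 : c'.e3 ≤ c.e3) (md : c'.dH ≤ c.dH)
    (h1 : 0 ≤ c'.e1) (h2 : 0 < c'.e2) (h3 : 0 < c'.e3) (hd : 0 < c'.dH) {L r0 : ℝ} (hr : R0G v h tb p c' L r0)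
    {q : ℕ} (hq : q ≤ 5 * T) (i : Fin 3) (fr o : Option (Fin 3)) {w : Om W X β} (hw : tb.Ps.p w ≠ 0) {b : ℝ}
    (hbd : tb.Ps.ce (NPo tb v q) (fun u => ind (¬ ltL v tb q u ∧ ¬ gdc tb v L i q u)) w ≤ b) :
    tb.Ps.ce (NPo tb v q) (fun u => ind (SR h v tb fr p c κ o (MV.nu (MSi tb (v := v) d1 kb d0 k0 p1 z hd1 hd11 hkb hd0 hd01 hk0 hp1 hz) q u) u ∧ Alv h v tb p q u)) w ≤
      Real.exp (4 * Lam) * k0 + (bK r0 c' κ + b) := by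
  have hTk : Thk (MSi tb (v := v) d1 kb d0 k0 p1 z hd1 hd11 hkb hd0 hd01 hk0 hp1 hz) Lam := (thks h tb v hd1 hd11 hkb hd0 hd01 hk0 hp1 hz H).thk
  have e0 : 0 ≤ Real.exp (4 * Lam) * k0 := mul_nonneg (Real.exp_pos _).le hk0.le
  have b0 : 0 ≤ b := (tb.Ps.ce_nonneg (fun _ _ => ind_nonneg _) w).trans hbd
  by_cases hl : ltL v tb q w
  · have h5 : 5 * (q / 5) + 5 ≤ 5 * T := by
      have := hl.1
      omega
    have hle : q ≤ 5 * (q / 5) + 5 := by omega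
    have s1 : tb.Ps.ce (NPo tb v q) (fun u => ind (SR h v tb fr p c κ o (MV.nu (MSi tb (v := v) d1 kb d0 k0 p1 z hd1 hd11 hkb hd0 hd01 hk0 hp1 hz) q u) u ∧ Alv h v tb p q u)) w ≤
        tb.Ps.ce (NPo tb v q) (fun u => ind (cv h v tb fr c κ o (5 * (q / 5) + 5) u ∧ Alv h v tb p (5 * (q / 5) + 5) u)) w := by
      refine ce_mono_cls fun u hu hc => ind_mono fun hh => ?_
      have hlu : ltL v tb q u := (ltL_fac tb hc).2 hl
      obtain ⟨g1, g2⟩ := ltL_nu tb hd1 hd11 hkb hd0 hd01 hk0 hp1 hz hlu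
      have g3 := hh.1
      unfold SR at g3
      rw [eT_lt tb g1 g2] at g3
      exact g3
    have s2 : tb.Ps.ce (NPo tb v q) (fun u => ind (cv h v tb fr c κ o (5 * (q / 5) + 5) u ∧
        Alv h v tb p (5 * (q / 5) + 5) u)) w ≤ bK r0 c' κ :=
      ce_fine ((CN_NP (MSi tb (v := v) d1 kb d0 k0 p1 z hd1 hd11 hkb hd0 hd01 hk0 hp1 hz) 0 _).trans (NP_le (MSi tb (v := v) d1 kb d0 k0 p1 z hd1 hd11 hkb hd0 hd01 hk0 hp1 hz) hle)) hw fun u hu =>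
        base_g' tb hd1 hd11 hkb hd0 hd01 hk0 hp1 hz H R hS hU hN m1 m2 m3 md h1 h2 h3 hd hr h5 0 fr o κ hu
          (gdc_zero tb hr.1 0 (by omega) u)
    linarith
  · have s1 : tb.Ps.ce (NPo tb v q) (fun u => ind (SR h v tb fr p c κ o (MV.nu (MSi tb (v := v) d1 kb d0 k0 p1 z hd1 hd11 hkb hd0 hd01 hk0 hp1 hz) q u) u ∧ Alv h v tb p q u)) w ≤
        tb.Ps.ce (NPo tb v q) (fun u => ind (0 < tb.Ps.ce (TH (MSi tb (v := v) d1 kb d0 k0 p1 z hd1 hd11 hkb hd0 hd01 hk0 hp1 hz) q) (fun u => ind (Lst (MSi tb (v := v) d1 kb d0 k0 p1 z hd1 hd11 hkb hd0 hd01 hk0 hp1 hz) (MV.nu (MSi tb (v := v) d1 kb d0 k0 p1 z hd1 hd11 hkb hd0 hd01 hk0 hp1 hz) q u) q u)) u)) w +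
          tb.Ps.ce (NPo tb v q) (fun u => ind (cv h v tb fr c' κ o q u ∧ Alv h v tb p q u)) w := by
      refine ce_or_cls fun u hu hc hh => ?_
      have hlu : ¬ ltL v tb q u := fun h6 => hl ((ltL_fac tb hc).1 h6)
      have eL : tb.Ps.ce (TH (MSi tb (v := v) d1 kb d0 k0 p1 z hd1 hd11 hkb hd0 hd01 hk0 hp1 hz) q) (fun x => ind (Lst (MSi tb (v := v) d1 kb d0 k0 p1 z hd1 hd11 hkb hd0 hd01 hk0 hp1 hz) (MV.nu (MSi tb (v := v) d1 kb d0 k0 p1 z hd1 hd11 hkb hd0 hd01 hk0 hp1 hz) q u) q x)) u =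
          tb.Ps.ce (TH (MSi tb (v := v) d1 kb d0 k0 p1 z hd1 hd11 hkb hd0 hd01 hk0 hp1 hz) q) (fun x => ind (Lst (MSi tb (v := v) d1 kb d0 k0 p1 z hd1 hd11 hkb hd0 hd01 hk0 hp1 hz) (MV.nu (MSi tb (v := v) d1 kb d0 k0 p1 z hd1 hd11 hkb hd0 hd01 hk0 hp1 hz) q x) q x)) u := by
        refine ce_fib tb.Ps fun x hx => ?_
        have h7 : MV.nu (MSi tb (v := v) d1 kb d0 k0 p1 z hd1 hd11 hkb hd0 hd01 hk0 hp1 hz) q x = MV.nu (MSi tb (v := v) d1 kb d0 k0 p1 z hd1 hd11 hkb hd0 hd01 hk0 hp1 hz) q u := nu_fac (MSi tb (v := v) d1 kb d0 k0 p1 z hd1 hd11 hkb hd0 hd01 hk0 hp1 hz) q x u (CN_NP (MSi tb (v := v) d1 kb d0 k0 p1 z hd1 hd11 hkb hd0 hd01 hk0 hp1 hz) 0 q x u (TH_CN (MSi tb (v := v) d1 kb d0 k0 p1 z hd1 hd11 hkb hd0 hd01 hk0 hp1 hz) 0 q x u hx))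
        rw [h7]
      by_cases hm : 0 < tb.Ps.ce (TH (MSi tb (v := v) d1 kb d0 k0 p1 z hd1 hd11 hkb hd0 hd01 hk0 hp1 hz) q) (fun x => ind (Lst (MSi tb (v := v) d1 kb d0 k0 p1 z hd1 hd11 hkb hd0 hd01 hk0 hp1 hz) (MV.nu (MSi tb (v := v) d1 kb d0 k0 p1 z hd1 hd11 hkb hd0 hd01 hk0 hp1 hz) q x) q x)) u
      · exact Or.inl hm
      · refine Or.inr ⟨SR_nu tb hd1 hd11 hkb hd0 hd01 hk0 hp1 hz H R hS hU hN he hg (q5 hq) hu hlu ?_ hh.1, hh.2⟩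
        rw [eL]
        exact hm
    have s2 : tb.Ps.ce (NPo tb v q) (fun u => ind (0 < tb.Ps.ce (TH (MSi tb (v := v) d1 kb d0 k0 p1 z hd1 hd11 hkb hd0 hd01 hk0 hp1 hz) q) (fun u => ind (Lst (MSi tb (v := v) d1 kb d0 k0 p1 z hd1 hd11 hkb hd0 hd01 hk0 hp1 hz) (MV.nu (MSi tb (v := v) d1 kb d0 k0 p1 z hd1 hd11 hkb hd0 hd01 hk0 hp1 hz) q u) q u)) u)) w ≤
        Real.exp (4 * Lam) * k0 := by
      have g1 : ∀ u, tb.Ps.p u ≠ 0 → ind (0 < tb.Ps.ce (TH (MSi tb (v := v) d1 kb d0 k0 p1 z hd1 hd11 hkb hd0 hd01 hk0 hp1 hz) q) (fun u => ind (Lst (MSi tb (v := v) d1 kb d0 k0 p1 z hd1 hd11 hkb hd0 hd01 hk0 hp1 hz) (MV.nu (MSi tb (v := v) d1 kb d0 k0 p1 z hd1 hd11 hkb hd0 hd01 hk0 hp1 hz) q u) q u)) u) ≤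
          Real.exp (4 * Lam) * tb.Ps.ce (TH (MSi tb (v := v) d1 kb d0 k0 p1 z hd1 hd11 hkb hd0 hd01 hk0 hp1 hz) q) (fun u => ind (Lst (MSi tb (v := v) d1 kb d0 k0 p1 z hd1 hd11 hkb hd0 hd01 hk0 hp1 hz) (MV.nu (MSi tb (v := v) d1 kb d0 k0 p1 z hd1 hd11 hkb hd0 hd01 hk0 hp1 hz) q u) q u)) u := by
        intro u hu
        by_cases hm : 0 < tb.Ps.ce (TH (MSi tb (v := v) d1 kb d0 k0 p1 z hd1 hd11 hkb hd0 hd01 hk0 hp1 hz) q) (fun u => ind (Lst (MSi tb (v := v) d1 kb d0 k0 p1 z hd1 hd11 hkb hd0 hd01 hk0 hp1 hz) (MV.nu (MSi tb (v := v) d1 kb d0 k0 p1 z hd1 hd11 hkb hd0 hd01 hk0 hp1 hz) q u) q u)) u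
        · rw [ind_of hm]
          have h6 := hTk q _ (Lstnu_fac (MSi tb (v := v) d1 kb d0 k0 p1 z hd1 hd11 hkb hd0 hd01 hk0 hp1 hz) q) u hu hm
          calc (1 : ℝ) = Real.exp (4 * Lam) * Real.exp (-(4 * Lam)) := by
                rw [← Real.exp_add, add_neg_cancel, Real.exp_zero]
            _ ≤ _ := mul_le_mul_of_nonneg_left h6 (Real.exp_pos _).le
        · rw [ind_not hm]
          exact mul_nonneg (Real.exp_pos _).le (tb.Ps.ce_nonneg (fun _ _ => ind_nonneg _) u)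
      refine (tb.Ps.ce_mono g1 w).trans ?_
      have e9 : tb.Ps.ce (NPo tb v q) (tb.Ps.ce (TH (MSi tb (v := v) d1 kb d0 k0 p1 z hd1 hd11 hkb hd0 hd01 hk0 hp1 hz) q) (fun u => ind (Lst (MSi tb (v := v) d1 kb d0 k0 p1 z hd1 hd11 hkb hd0 hd01 hk0 hp1 hz) (MV.nu (MSi tb (v := v) d1 kb d0 k0 p1 z hd1 hd11 hkb hd0 hd01 hk0 hp1 hz) q u) q u))) w =
          tb.Ps.ce (NPo tb v q) (fun u => ind (Lst (MSi tb (v := v) d1 kb d0 k0 p1 z hd1 hd11 hkb hd0 hd01 hk0 hp1 hz) (MV.nu (MSi tb (v := v) d1 kb d0 k0 p1 z hd1 hd11 hkb hd0 hd01 hk0 hp1 hz) q u) q u)) w :=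
        tb.Ps.ce_tower ((TH_CN (MSi tb (v := v) d1 kb d0 k0 p1 z hd1 hd11 hkb hd0 hd01 hk0 hp1 hz) 0 q).trans (CN_NP (MSi tb (v := v) d1 kb d0 k0 p1 z hd1 hd11 hkb hd0 hd01 hk0 hp1 hz) 0 q)) _ w
      rw [tb.Ps.ce_smul, e9]
      exact mul_le_mul_of_nonneg_left (Lst_mass' (MSi tb (v := v) d1 kb d0 k0 p1 z hd1 hd11 hkb hd0 hd01 hk0 hp1 hz) q hw).le (Real.exp_pos _).le
    have s3 : tb.Ps.ce (NPo tb v q) (fun u => ind (cv h v tb fr c' κ o q u ∧ Alv h v tb p q u)) w ≤ bK r0 c' κ + b := by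
      refine (ce_fine2 (P := tb.Ps) (CN_NP (MSi tb (v := v) d1 kb d0 k0 p1 z hd1 hd11 hkb hd0 hd01 hk0 hp1 hz) i q) (B := fun u => ¬ ltL v tb q u ∧ ¬ gdc tb v L i q u)
        (bK_nn hr.2.1 h1 h2 h3 hd κ) hw fun u hu hc hB =>
          base_g tb hd1 hd11 hkb hd0 hd01 hk0 hp1 hz H R hS hU hN h1 h2 h3 hd hr hq i fr o κ hu ?_).trans
          (add_le_add le_rfl hbd)
      by_contra h9
      exact hB ⟨fun hlu => hl ((ltL_fac tb hc).1 hlu), h9⟩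
    exact s1.trans (add_le_add s2 s3)

omit H R hS hU hN in
/-- the small classes of a vertex at the classes `okq` -/
theorem bad_ok {lam L : ℝ} {q : ℕ} (i : Fin 3) {w : Om W X β} (hw : tb.Ps.p w ≠ 0) (hok : okq tb v lam q w) :
    tb.Ps.ce (NPo tb v q) (fun u => ind (¬ ltL v tb q u ∧ ¬ gdc tb v L i q u)) w ≤ Real.exp (lam + 4 - L) := by
  rcases hok with hl | hl
  · have h1 : tb.Ps.ce (NPo tb v q) (fun u => ind (¬ ltL v tb q u ∧ ¬ gdc tb v L i q u)) w ≤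
        tb.Ps.ce (NPo tb v q) (fun _ => 0) w :=
      ce_mono_cls fun u hu hc => le_of_eq (ind_not fun hh => hh.1 ((ltL_fac tb hc).2 hl))
    rw [tb.Ps.ce_const (NPo tb v q) 0 hw] at h1
    exact h1.trans (Real.exp_pos _).le
  · exact (tb.Ps.ce_mono (fun _ _ => ind_mono fun hh => hh.2) w).trans (RarR0.bad_n tb i hw hl)

/-- **THE CLASS MASS OF THE RELATION OF THE LIFE OF `i` AT THE NODE** (life of the public start), at the classes `okq` -/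
theorem cls_gn {p : AP} {c c' : KC} {κ : Fin 10} (he : d1 ≤ 1 / 400) (hg : Gap (2000 * d1) c c' κ.1)
    (m1 : c'.e1 ≤ c.e1) (m2 : c'.e2 ≤ c.e2) (m3 : c'.e3 ≤ c.e3) (md : c'.dH ≤ c.dH)
    (h1 : 0 ≤ c'.e1) (h2 : 0 < c'.e2) (h3 : 0 < c'.e3) (hd : 0 < c'.dH) {L r0 : ℝ} (hr : R0G v h tb p c' L r0)
    {q : ℕ} (hq : q ≤ 5 * T) (i : Fin 3) (fr o : Option (Fin 3)) {w : Om W X β} (hw : tb.Ps.p w ≠ 0) {lam : ℝ}
    (hok : okq tb v lam q w) :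
    tb.Ps.ce (NPo tb v q) (fun u => ind (SR h v tb fr p c κ o
      (tauS (MSi tb (v := v) d1 kb d0 k0 p1 z hd1 hd11 hkb hd0 hd01 hk0 hp1 hz) i
        (MV.nu (MSi tb (v := v) d1 kb d0 k0 p1 z hd1 hd11 hkb hd0 hd01 hk0 hp1 hz) q u) u) u ∧ Alv h v tb p q u)) w ≤
      k0 + (Real.exp (4 * Lam) * kb + bK r0 c' κ + Real.exp (lam + 4 - L)) :=
  cls_gn' tb hd1 hd11 hkb hd0 hd01 hk0 hp1 hz H R hS hU hN he hg m1 m2 m3 md h1 h2 h3 hd hr hq i fr o hw (bad_ok tb i hw hok)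

/-- **THE CLASS MASS OF THE PUBLIC RELATION AT THE NODE**, at the classes `okq` -/
theorem cls_g0 {p : AP} {c c' : KC} {κ : Fin 10} (he : 8 * d0 ≤ 1 / 100) (hg : Gap (4000 * d0) c c' κ.1)
    (m1 : c'.e1 ≤ c.e1) (m2 : c'.e2 ≤ c.e2) (m3 : c'.e3 ≤ c.e3) (md : c'.dH ≤ c.dH)
    (h1 : 0 ≤ c'.e1) (h2 : 0 < c'.e2) (h3 : 0 < c'.e3) (hd : 0 < c'.dH) {L r0 : ℝ} (hr : R0G v h tb p c' L r0)
    {q : ℕ} (hq : q ≤ 5 * T) (fr o : Option (Fin 3)) {w : Om W X β} (hw : tb.Ps.p w ≠ 0) {lam : ℝ}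
    (hok : okq tb v lam q w) :
    tb.Ps.ce (NPo tb v q) (fun u => ind (SR h v tb fr p c κ o
      (MV.nu (MSi tb (v := v) d1 kb d0 k0 p1 z hd1 hd11 hkb hd0 hd01 hk0 hp1 hz) q u) u ∧ Alv h v tb p q u)) w ≤
      Real.exp (4 * Lam) * k0 + (bK r0 c' κ + Real.exp (lam + 4 - L)) :=
  cls_g0' tb hd1 hd11 hkb hd0 hd01 hk0 hp1 hz H R hS hU hN he hg m1 m2 m3 md h1 h2 h3 hd hr hq 0 fr o hw (bad_ok tb 0 hw hok)

end run

end

end Pool.Agent.GMH.CLM
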