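import Pool.Agent.GMH.ClsG
import Pool.Agent.GMH.ClsC

/-!
# GMH/ClsH (helper7): THE CLASS MASSES OVER `Ctx` (the statements of `GMH/ClsG` with the numbers of `GMH/ClsC`)
-/

set_option autoImplicit false
set_option linter.unusedSectionVars false

namespace Pool.Agent.GMH.CLM

open Finset Pool.Agent.PWZ Pool.Agent.M3 Pool.Agent.GM Pool.Agent.GM.Harm Pool.Agent.GMH Pool.Agent.GMH.NZ
open Pool.Agent.GMH.V3 Pool.Agent.GMH.TP Pool.Agent.GMH.TD Pool.Agent.GMH.Dy Pool.Agent.GMH.MV Pool.Agent.GMH.MVI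
open Pool.Agent.GMH.KF Pool.Agent.GMH.ExK Pool.Agent.GMH.CTM Pool.Agent.GMH.CX
open Pool.Agent.GMH.MVN (pe pQ)
open Pool.Agent.GMH.CT (ix)
open Pool.Agent.GMH.RarR0 (gdc gdc_zero)
open Pool.Agent.GMH.RarN (okq)

noncomputable section

/-- **THE CLASS MASSES OVER `Ctx`** -/
theorem cls_gall (A ka : ℕ) (RR : CT.Rounds) (K : ℕ) : AllC A (fun C => ∀ c, CT.KcB RR C.Lam c → c.dH ≤ 1 → ∀ L r0,
    R0G C.v C.h C.tb C.p (hf c) L r0 → ∀ (κ : Fin 10) (fr o : Option (Fin 3)), ∀ q ≤ 5 * C.T, ∀ w, C.tb.Ps.p w ≠ 0 →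
      (∀ i, (¬ ltL C.v C.tb q w → gdc C.tb C.v L i q w) →
        C.tb.Ps.ce (CN (C.M ka) i q) (fun u => ind (SR C.h C.v C.tb fr C.p c κ o (tauS (C.M ka) i q u) u ∧
        Alv C.h C.v C.tb C.p q u)) w ≤ ix C.Lam K + bK r0 (hf c) κ) ∧
      (∀ i lam, okq C.tb C.v lam q w →
        C.tb.Ps.ce (NPo C.tb C.v q) (fun u => ind (SR C.h C.v C.tb fr C.p c κ o (tauS (C.M ka) i (MV.nu (C.M ka) q u) u) u ∧
        Alv C.h C.v C.tb C.p q u)) w ≤ ix C.Lam K + (bK r0 (hf c) κ + Real.exp (lam + 4 - L))) ∧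
      (∀ lam, okq C.tb C.v lam q w →
        C.tb.Ps.ce (NPo C.tb C.v q) (fun u => ind (SR C.h C.v C.tb fr C.p c κ o (MV.nu (C.M ka) q u) u ∧
        Alv C.h C.v C.tb C.p q u)) w ≤ ix C.Lam K + (bK r0 (hf c) κ + Real.exp (lam + 4 - L))) ∧
      (ltL C.v C.tb q w → ∀ i, C.tb.Ps.ce (CN (C.M ka) i (5 * (q / 5) + 5)) (fun u => ind (SR C.h C.v C.tb fr C.p c κ o
        (tauS (C.M ka) i q u) u ∧ Alv C.h C.v C.tb C.p q u)) w ≤ bK r0 (hf c) κ)) := by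
  refine (((AllC.of_Ev (mov_num ka K)).and (AllC.of_Ev (d_num ka (RR.eta1 + RR.eta2 + RR.eta3 + RR.kd + 1))))).mono
    fun C hh c hc hd1 L r0 hr κ fr o q hq w hw => ?_
  obtain ⟨n1, n2, n3⟩ := hh
  have hL := C.hL
  have p1 := hc.p1 hL
  have p2 := hc.p2 hL
  have p3 := hc.p3 hL
  have pd := hc.pd hL
  have hj : ∀ j ≤ RR.eta1 + RR.eta2 + RR.eta3 + RR.kd + 1, ix C.Lam (RR.eta1 + RR.eta2 + RR.eta3 + RR.kd + 1) ≤ ix C.Lam j :=
    fun j hj => CT.ix_anti hL hj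
  have g1 : ∀ η, 4 * η ≤ ix C.Lam (RR.eta1 + RR.eta2 + RR.eta3 + RR.kd + 1) → 0 ≤ η → Gap η c (hf c) κ.1 := by
    intro η h4 h0
    refine gap_hf κ.1 ?_ ?_ ?_ ?_ hd1 pd.le
    · have := hj RR.eta1 (by omega)
      linarith [hc.l1]
    · have := hj RR.eta2 (by omega)
      linarith [hc.l2]
    · have := hj RR.eta3 (by omega)
      linarith [hc.l3]
    · have := hj RR.kd (by omega)
      linarith [hc.ld]
  have d1p := C.d1_pos ka
  have d0p := C.d0_pos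
  have hx1 : ix C.Lam (RR.eta1 + RR.eta2 + RR.eta3 + RR.kd + 1) ≤ 1 := CT.ix_le_one hL _
  have gA : Gap (2000 * MVN.d1 C.Lam ka C.c0) c (hf c) κ.1 := g1 _ (by linarith) (by positivity)
  have gB : Gap (4000 * MVN.d0 C.Lam C.c0) c (hf c) κ.1 := g1 _ (by linarith) (by positivity)
  have hS : ∀ l : Fin 3, univ.erase l ∈ SS1 (Fin 3) := fun l => mem_SS1.2 (Finset.erase_ne_self.2 (mem_univ l))
  have hU : (univ : Finset (Fin 3)) ∉ SS1 (Fin 3) := fun hh => (mem_SS1.1 hh) rfl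
  have hN : ∀ l : Fin 3, 0 < pr3 (Fin 3) (pw C.Lam C.c0) (pw C.Lam (c1F C.A C.c0)) (univ.erase l) := fun l =>
    zero_lt_one.trans_le (pr3_one C.n1 C.N11 _)
  have m1 : (hf c).e1 ≤ c.e1 := by show c.e1 / 2 ≤ c.e1; linarith
  have m2 : (hf c).e2 ≤ c.e2 := by show c.e2 / 2 ≤ c.e2; linarith
  have m3 : (hf c).e3 ≤ c.e3 := by show c.e3 / 2 ≤ c.e3; linarith
  have md : (hf c).dH ≤ c.dH := by show c.dH / 2 ≤ c.dH; linarith
  have s1 : 0 ≤ (hf c).e1 := by show 0 ≤ c.e1 / 2; linarith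
  have s2 : 0 < (hf c).e2 := by show 0 < c.e2 / 2; linarith
  have s3 : 0 < (hf c).e3 := by show 0 < c.e3 / 2; linarith
  have sd : 0 < (hf c).dH := by show 0 < c.dH / 2; linarith
  have ek : 0 ≤ Real.exp (4 * C.Lam) * MVN.kb C.Lam ka C.c0 := mul_nonneg (Real.exp_pos _).le (C.kb_pos ka).le
  have e0 : 0 ≤ Real.exp (4 * C.Lam) * MVN.d0 C.Lam C.c0 := mul_nonneg (Real.exp_pos _).le d0p.le
  rw [mul_add] at n1
  refine ⟨fun i hgd => ?_, fun i lam hb => ?_, fun lam hb => ?_, fun hl i => cls_gL C.tb (C.d1_pos ka) (C.d1_le ka) (C.kb_pos ka)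
    C.d0_pos C.d0_le C.d0_pos C.p1_pos (C.z_pos ka) C.H C.R hS hU hN m1 m2 m3 md s1 s2 s3 sd hr hq i fr o hw hl⟩
  · have := cls_gv C.tb (C.d1_pos ka) (C.d1_le ka) (C.kb_pos ka) C.d0_pos C.d0_le C.d0_pos C.p1_pos (C.z_pos ka) C.H C.R hS hU hN
      (by linarith) gA m1 m2 m3 md s1 s2 s3 sd hr hq i fr o hw hgd
    refine this.trans (add_le_add ?_ le_rfl)
    linarith
  · have := cls_gn C.tb (C.d1_pos ka) (C.d1_le ka) (C.kb_pos ka) C.d0_pos C.d0_le C.d0_pos C.p1_pos (C.z_pos ka) C.H C.R hS hU hN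
      (by linarith) gA m1 m2 m3 md s1 s2 s3 sd hr hq i fr o hw hb
    refine this.trans ?_
    linarith
  · have := cls_g0 C.tb (C.d1_pos ka) (C.d1_le ka) (C.kb_pos ka) C.d0_pos C.d0_le C.d0_pos C.p1_pos (C.z_pos ka) C.H C.R hS hU hN
      (by linarith) gB m1 m2 m3 md s1 s2 s3 sd hr hq fr o hw hb
    refine this.trans (add_le_add ?_ le_rfl)
    linarith

end

end Pool.Agent.GMH.CLM
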