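import Pool.Agent.GMH.StpT2

/-!
# GMH/CntB (helper45): the removals at decided vertices and in zones are counted by the decisions and the zones

* `cnt_clock` : a removal ends the life, in each life at most one removal is counted against one event `b` of the life;
* `cnt_bet` : `∑_q Pr (ruO q, bet i q) ≤ ∑_s Pr (tkx i s)`, `cnt_zone` : `∑_q Pr (ruO q, Z0 q) ≤ ∑_s Pr (zt s)`.
-/

set_option autoImplicit false
set_option linter.unusedSectionVars false

namespace Pool.Agent.GMH.RSA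

open Finset Pool.Agent.PWZ Pool.Agent.M3 Pool.Agent.GM Pool.Agent.GM.Harm Pool.Agent.GMH Pool.Agent.GMH.NZ
open Pool.Agent.GMH.V3 Pool.Agent.GMH.TP Pool.Agent.GMH.TD Pool.Agent.GMH.Dy Pool.Agent.GMH.MV Pool.Agent.GMH.MVI
open Pool.Agent.GMH.UV Pool.Agent.GMH.KF Pool.Agent.GMH.TRF Pool.Agent.GMH.CK

noncomputable section

/-- one point -/
theorem cnt_pt {C : ℕ → ℕ → Unit → Prop} {r b : ℕ → Prop} (T : ℕ)
    (hr : ∀ q, r q → stg C (q + 1) () = q + 1 ∧ ∃ s, stg C q () ≤ s ∧ s ≤ q ∧ b s) :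
    ∑ q ∈ range T, ind (r q) ≤ ∑ s ∈ range T, ind (b s) := by
  classical
  have e1 : ∀ a : ℕ → Prop, ∑ q ∈ range T, ind (a q) = (((range T).filter fun q => a q).card : ℝ) := fun a => by
    rw [Finset.card_filter]
    push_cast
    exact Finset.sum_congr rfl fun q _ => by
      by_cases hq : a q
      · rw [ind_of hq, if_pos hq]
      · rw [ind_not hq, if_neg hq]
  rw [e1, e1]
  refine Nat.cast_le.2 ?_
  have hf : ∀ q, ∃ s, r q → stg C q () ≤ s ∧ s ≤ q ∧ b s := fun q => by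
    by_cases hq : r q
    · obtain ⟨s, h1⟩ := (hr q hq).2
      exact ⟨s, fun _ => h1⟩
    · exact ⟨0, fun h => absurd h hq⟩
  choose f hf using hf
  refine Finset.card_le_card_of_injOn f (fun q hq => ?_) fun q hq q' hq' e => ?_
  · have h1 := Finset.mem_filter.1 hq
    have h2 := hf q h1.2
    have h3 := Finset.mem_range.1 h1.1
    exact Finset.mem_filter.2 ⟨Finset.mem_range.2 (by omega), h2.2.2⟩
  · have h1 := (Finset.mem_filter.1 (Finset.mem_coe.1 hq)).2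
    have h1' := (Finset.mem_filter.1 (Finset.mem_coe.1 hq')).2
    have g := hf q h1
    have g' := hf q' h1'
    rcases lt_trichotomy q q' with h4 | h4 | h4
    · have h5 := stg_mono (C := C) (show q + 1 ≤ q' by omega) ()
      have h6 := (hr q h1).1
      omega
    · exact h4
    · have h5 := stg_mono (C := C) (show q' + 1 ≤ q by omega) ()
      have h6 := (hr q' h1').1
      omega

section gen

variable {Om : Type*} [Fintype Om] (P : FP Om)

/-- **removals against events of the lives** -/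
theorem cnt_clock {C : ℕ → ℕ → Om → Prop} {r b : ℕ → Om → Prop} (T : ℕ)
    (hr : ∀ q w, P.p w ≠ 0 → r q w → stg C (q + 1) w = q + 1 ∧ ∃ s, stg C q w ≤ s ∧ s ≤ q ∧ b s w) :
    ∑ q ∈ range T, P.Pr (r q) ≤ ∑ s ∈ range T, P.Pr (b s) := by
  have e1 : ∀ a : ℕ → Om → Prop, ∑ q ∈ range T, P.Pr (a q) = P.E (fun w => ∑ q ∈ range T, ind (a q w)) := fun a => by
    unfold FP.Pr
    rw [← P.E_sum]
  rw [e1, e1]
  refine P.E_mono fun w hw => ?_
  have e2 : ∀ k, stg (fun a b (_ : Unit) => C a b w) k () = stg C k w := by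
    intro k
    induction k with
    | zero => rfl
    | succ k ih =>
      by_cases h1 : C (stg C k w) (k + 1) w
      · rw [stg_pos h1]
        refine stg_pos ?_
        rw [ih]
        exact h1
      · rw [stg_neg h1, ← ih]
        refine stg_neg ?_
        rw [ih]
        exact h1
  refine cnt_pt (C := fun a b _ => C a b w) T fun q hq => ?_
  rw [e2, e2]
  exact hr q w hw hq

end gen

variable {X β γ φ : Type} [Fintype X] [Fintype β] [Fintype φ] [Nonempty X] [Nonempty β]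
variable {D : HD (Fin 3) X β γ φ} {al : ℝ} {h : D.Thick al} {prr : ℕ → Fin 3 → φ → φ} {T : ℕ} {W : Type} [Fintype W]
variable (tb : Tab D prr T W) {v : ℕ → Finset (Fin 3) → X → (Fin 3 → β) → Pt (Fin 3) X β φ}
variable (hv : Codes D v) {d1 kb d0 k0 p1 z : ℝ} (hd1 : 0 < d1) (hd11 : d1 ≤ 1) (hkb : 0 < kb) (hd0 : 0 < d0)
  (hd01 : d0 ≤ 1) (hk0 : 0 < k0) (hp1 : 0 < p1) (hz : 0 < z) (Q : Kd (Om W X β))

/-- **public removals at decided vertices** -/
theorem cnt_bet (i : Fin 3) (n : ℕ) : ∑ q ∈ range n, tb.Ps.Pr (fun w => ruO tb v q w ∧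
      bet (USi tb hv d1 kb d0 k0 p1 z hd1 hd11 hkb hd0 hd01 hk0 hp1 hz) Q i q w) ≤
    ∑ s ∈ range n, tb.Ps.Pr (tkx (USi tb hv d1 kb d0 k0 p1 z hd1 hd11 hkb hd0 hd01 hk0 hp1 hz) Q i s) :=
  cnt_clock tb.Ps (C := (USi tb hv d1 kb d0 k0 p1 z hd1 hd11 hkb hd0 hd01 hk0 hp1 hz).Cv i) n fun _ _ _ hw =>
    ⟨endu2 tb hv hd1 hd11 hkb hd0 hd01 hk0 hp1 hz i hw.1, bet_iff.1 hw.2⟩

/-- the public epoch ends at a public removal -/
theorem endn {q : ℕ} {w : Om W X β} (hr : ruO tb v q w) :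
    nu (USi tb hv d1 kb d0 k0 p1 z hd1 hd11 hkb hd0 hd01 hk0 hp1 hz).toMS (q + 1) w = q + 1 := by
  refine stg_pos (Or.inl ?_)
  show lt5 _ _ (q + 1 - 1) w
  rw [Nat.add_sub_cancel]
  refine ⟨?_, hr.2⟩
  show q % 5 ≠ 0
  have := hr.1
  omega

/-- **public removals in zones** -/
theorem cnt_zone (n : ℕ) : ∑ q ∈ range n, tb.Ps.Pr (fun w => ruO tb v q w ∧
      Z0 (USi tb hv d1 kb d0 k0 p1 z hd1 hd11 hkb hd0 hd01 hk0 hp1 hz) Q q w) ≤
    ∑ s ∈ range n, tb.Ps.Pr (zt (USi tb hv d1 kb d0 k0 p1 z hd1 hd11 hkb hd0 hd01 hk0 hp1 hz) Q s) :=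
  cnt_clock tb.Ps (C := C0 (USi tb hv d1 kb d0 k0 p1 z hd1 hd11 hkb hd0 hd01 hk0 hp1 hz).toMS) n fun _ _ _ hw =>
    ⟨endn tb hv hd1 hd11 hkb hd0 hd01 hk0 hp1 hz hw.1, Z0_iff.1 hw.2⟩

end

end Pool.Agent.GMH.RSA
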