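import Pool.Agent.GMH.UV0

/-!
# GMH/PayP1 (helper75): PUBLIC COVERS BY OWN ROWS, THE COINS

The sample of a world is the hidden point of the world with points and tables which depend only on the start and on the cell of
the sampled vertex (a coin table).  For a fixed table the named points are known to the public class.
* `rp` : representative of a cell; `WE_cell` : points and tables of a world see only their own cells;
* `hid`, `q0` : the law of a sample out of the coin; `pi_map` : images of product laws;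
* `Ct`, `cL` : the coin table and its law; `smp` : the sample of a world; `SW_coin` : a sum over the starts in the mean over the
  samples is the mean over the coin table.
-/

set_option autoImplicit false
set_option linter.unusedSectionVars false

namespace Pool.Agent.GMH.PayP

open Finset Pool.Agent.PWZ Pool.Agent.M3 Pool.Agent.GM Pool.Agent.GM.Harm Pool.Agent.GMH
open Pool.Agent.GMH.Gdy Pool.Agent.GMH.Dy Pool.Agent.GMH.TabF Pool.Agent.GMH.TabZ
open Pool.Agent.GMH.Crd (Ind Rel Sg rel_top rel_zero rel_succ can sg_can)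

noncomputable section

variable {X β γ φ : Type} [Fintype X] [Fintype β] [Fintype φ] [Nonempty X] [Nonempty β]
variable {D : HD (Fin 3) X β γ φ} {al : ℝ} {prr : ℕ → Fin 3 → φ → φ} {T0 : ℕ} {W : Type} [Fintype W]

/-! ### cells -/

variable (D) in
/-- representative of the cell of the time `m` -/
def rp (m : ℕ) (b : β) : β := Classical.choose (⟨b, rfl⟩ : ∃ b', D.qb m b' = D.qb m b)

theorem rp_qb (m : ℕ) (b : β) : D.qb m (rp D m b) = D.qb m b :=
  Classical.choose_spec (⟨b, rfl⟩ : ∃ b', D.qb m b' = D.qb m b)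

theorem rp_cell {m : ℕ} {b b' : β} (e : D.qb m b = D.qb m b') : rp D m b = rp D m b' := by
  have h : ∀ (c c' : γ) (h1 : ∃ b', D.qb m b' = c) (h2 : ∃ b', D.qb m b' = c'), c = c' →
      Classical.choose h1 = Classical.choose h2 := by
    intro c c' h1 h2 e
    subst e
    rfl
  exact h _ _ _ _ e

/-- levels of a function of the tables `S` and of the point `i` -/
def qY (S : Finset (Fin 3)) (i : Fin 3) : Unit ⊕ (Fin 3 ⊕ Fin 3) → ℕ∞
  | Sum.inl _ => 0
  | Sum.inr (Sum.inl j) => eS S j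
  | Sum.inr (Sum.inr j) => eS {i} j

/-- **points and tables of a world see only their own cells** -/
theorem WE_cell (tb : Tab D prr T0 W) {m : ℕ} {i : Fin 3} {S : Finset (Fin 3)} {G : Om W X β → ℝ}
    (hG : ∀ v w : Om W X β, (∀ j ∈ S, v.2.1 j = w.2.1 j) → v.2.2 i = w.2.2 i → G v = G w) {z z' : Om W X β}
    (e : D.qb m (z.2.2 i) = D.qb m (z'.2.2 i)) : (WE tb ∅ m z).E G = (WE tb ∅ m z').E G := by
  set p : Unit ⊕ (Fin 3 ⊕ Fin 3) → ℕ∞ := lvl (eS ∅) (eC ∅ fun _ => m) with hp
  set r : Unit ⊕ (Fin 3 ⊕ Fin 3) → ℕ∞ := fun i' => min (p i') (qY S i i') with hr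
  have hg : Fac (can (Dy.nn (W := W) D) CC (qY S i)) G := by
    intro v w hvw
    have h1 := (sg_can (n := Dy.nn (W := W) D) (C := CC (W := W) (X := X) (β := β)) (qY S i) v w).1 hvw
    refine hG v w (fun j hj => ?_) ?_
    · have h2 := h1 (Sum.inr (Sum.inl j))
      have h3 : qY S i (Sum.inr (Sum.inl j)) = ⊤ := if_pos hj
      rw [h3] at h2
      exact rel_top.1 h2
    · have h2 := h1 (Sum.inr (Sum.inr i))
      have h3 : qY S i (Sum.inr (Sum.inr i)) = ⊤ := if_pos (mem_singleton_self i)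
      rw [h3] at h2
      exact rel_top.1 h2
  have key : ∀ z : Om W X β, ∃ z1, tb.Ps.p z1 ≠ 0 ∧ sgt D ∅ m z1 = sgt D ∅ m z ∧
      (WE tb ∅ m z).E G = tb.Ps.ce (can (Dy.nn (W := W) D) CC r) G z1 := by
    intro z
    obtain ⟨z1, h1, h2⟩ := sgt_ex tb ∅ m z
    refine ⟨z1, h1, h2, ?_⟩
    have h3 : (WE tb ∅ m z).E G = tb.Ps.ce (sgt D ∅ m) G z1 := by
      rw [tb.Ps.ce_eq_cond _ _ h1]
      unfold WE
      rw [h2]
    rw [h3]
    exact Crd.ce_min (ind_Ps (tb := tb)) (sg_sgt ∅ m) (sg_can _) (sg_can r) (fun _ => rfl) hg h1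
  obtain ⟨z1, a1, a2, a3⟩ := key z
  obtain ⟨z2, b1, b2, b3⟩ := key z'
  rw [a3, b3]
  refine tb.Ps.ce_fac _ _ z1 z2 ((sg_can (n := Dy.nn (W := W) D) (C := CC (W := W) (X := X) (β := β)) r z1 z2).2 fun i' => ?_)
  rw [hr]
  match i' with
  | Sum.inl _ =>
    show Rel _ _ (min _ 0) _ _
    rw [min_eq_right (zero_le)]
    exact rel_zero
  | Sum.inr (Sum.inl j) =>
    show Rel _ _ (min (eS ∅ j) _) _ _
    have h0 : eS ∅ j = 0 := if_neg (notMem_empty j)
    rw [h0, min_eq_left (zero_le)]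
    exact rel_zero
  | Sum.inr (Sum.inr j) =>
    show Rel (Dy.nn (W := W) D) (Sum.inr (Sum.inr j)) (min (eC ∅ (fun _ : Fin 3 => m) j) (eS {i} j)) _ _
    have h0 : eC ∅ (fun _ : Fin 3 => m) j = ((m + 1 : ℕ) : ℕ∞) := if_neg (notMem_empty j)
    rw [h0]
    by_cases hj : j = i
    · subst hj
      have h1 : eS {j} j = ⊤ := if_pos (mem_singleton_self j)
      rw [h1, min_eq_left le_top]
      refine (rel_succ (fun s x y => nn_filt (W := W) (Sum.inr (Sum.inr j)) s x y)).2 ?_
      show D.qb m (z1.2.2 j) = D.qb m (z2.2.2 j)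
      rw [(sgt_eq.1 a2).2.2 j, (sgt_eq.1 b2).2.2 j, e]
    · have h1 : eS {i} j = 0 := if_neg (fun hh => hj (mem_singleton.1 hh))
      rw [h1, min_eq_right (zero_le)]
      exact rel_zero

/-! ### samples out of coins -/

/-- the hidden point of the world -/
def hid (x : X) (a : Om W X β) : Om W X β := (x, a.2)

theorem hid_hid (x x' : X) (a : Om W X β) : hid x (hid x' a) = hid x a := rfl

theorem qF_E (P : FP (Om W X β)) (w0 : Om W X β) (G S : Finset (Fin 3)) (F : Om W X β → ℝ) :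
    (qF P w0 G S).E F = P.E (fun w => F (TabF.pj w0 G S w)) := by
  classical
  have h1 : (qF P w0 G S).E F = ∑ a, P.E (fun w => ind (TabF.pj w0 G S w = a) * F a) := by
    unfold FP.E
    refine Finset.sum_congr rfl fun a _ => ?_
    show P.Pr (fun w => TabF.pj w0 G S w = a) * F a = _
    unfold FP.Pr FP.E
    rw [Finset.sum_mul]
    exact Finset.sum_congr rfl fun w _ => by ring
  rw [h1, ← FP.E_sum]
  refine P.E_congr fun w _ => ?_
  rw [Finset.sum_eq_single (TabF.pj w0 G S w)]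
  · rw [ind_of rfl, one_mul]
  · intro a _ ha
    rw [ind_not fun e => ha e.symm, zero_mul]
  · intro ha
    exact absurd (mem_univ _) ha

variable (tb : Tab D prr T0 W)

/-- the world of a cell -/
def cw (w0 : Om W X β) (b : β) : Om W X β := (w0.1, w0.2.1, fun _ => b)

/-- law of the coin of a sample, cell of `b` at the time `m` -/
def q0 (w0 : Om W X β) (i : Fin 3) (S : Finset (Fin 3)) (m : ℕ) (b : β) : FP (Om W X β) :=
  qF (WE tb ∅ m (cw w0 b)) w0 {i} S

theorem q0_E (w0 : Om W X β) (i : Fin 3) (S : Finset (Fin 3)) (m : ℕ) {b : β} (z : Om W X β)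
    (hb : D.qb m b = D.qb m (z.2.2 i)) (F : Om W X β → ℝ) :
    (q0 tb w0 i S m b).E (fun a => F (hid z.1 a)) = (qF (WE tb ∅ m z) w0 {i} S).E F := by
  unfold q0
  rw [qF_E, qF_E]
  have h1 : (WE tb ∅ m z).E (fun w => F (TabF.pj w0 {i} S w)) =
      (WE tb ∅ m z).E (fun w => F (hid z.1 (TabF.pj w0 {i} S w))) := by
    refine FP.E_congr _ fun w hw => ?_
    have h2 := (sgt_eq.1 ((WE_supp tb).1 hw).2).1
    congr 1
    show TabF.pj w0 {i} S w = (z.1, (TabF.pj w0 {i} S w).2)
    rw [← h2]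
    rfl
  rw [h1]
  refine WE_cell tb (i := i) (S := S) (fun v w hv hi => ?_) hb
  congr 1
  unfold hid TabF.pj
  refine Prod.ext rfl (Prod.ext (funext fun j => ?_) (funext fun j => ?_))
  · show (if j ∈ S then v.2.1 j else w0.2.1 j) = if j ∈ S then w.2.1 j else w0.2.1 j
    by_cases h : j ∈ S
    · rw [if_pos h, if_pos h, hv j h]
    · rw [if_neg h, if_neg h]
  · show (if j ∈ ({i} : Finset (Fin 3)) then v.2.2 j else w0.2.2 j) =
      if j ∈ ({i} : Finset (Fin 3)) then w.2.2 j else w0.2.2 j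
    by_cases h : j ∈ ({i} : Finset (Fin 3))
    · rw [if_pos h, if_pos h, mem_singleton.1 h, hi]
    · rw [if_neg h, if_neg h]

/-- images of product laws -/
theorem pi_map {A : Type*} [Fintype A] {M : ℕ} {q1 q2 : FP A} {g : A → A}
    (h : ∀ F : A → ℝ, q1.E (fun a => F (g a)) = q2.E F) (c : (Fin M → A) → ℝ) :
    (FPpi fun _ : Fin M => q1).E (fun y => c fun j => g (y j)) = (FPpi fun _ : Fin M => q2).E c := by
  classical
  have h2 : ∀ a, q2.p a = ∑ b, ind (g b = a) * q1.p b := by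
    intro a
    have h3 := h fun x => ind (x = a)
    have h4 : q2.E (fun x => ind (x = a)) = q2.p a := by
      unfold FP.E
      rw [Finset.sum_eq_single a]
      · show q2.p a * ind (a = a) = _
        rw [ind_of rfl, mul_one]
      · intro b _ hb
        show q2.p b * ind (b = a) = 0
        rw [ind_not hb, mul_zero]
      · intro hh
        exact absurd (mem_univ _) hh
    rw [h4] at h3
    rw [← h3]
    unfold FP.E
    exact Finset.sum_congr rfl fun b _ => mul_comm _ _
  have h5 : ∀ x : Fin M → A, (FPpi fun _ : Fin M => q2).p x = ∑ y : Fin M → A,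
      (FPpi fun _ : Fin M => q1).p y * ind ((fun j => g (y j)) = x) := by
    intro x
    show ∏ j, q2.p (x j) = ∑ y : Fin M → A, (∏ j, q1.p (y j)) * ind ((fun j => g (y j)) = x)
    have h6 := Finset.prod_univ_sum (fun _ : Fin M => (univ : Finset A)) (fun j b => ind (g b = x j) * q1.p b)
    rw [Fintype.piFinset_univ] at h6
    simp only [h2]
    rw [h6]
    refine Finset.sum_congr rfl fun y _ => ?_
    rw [Finset.prod_mul_distrib, mul_comm]
    congr 1
    rw [← ind_forall]
    congr 1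
    exact propext (funext_iff).symm
  unfold FP.E
  simp only [h5, Finset.sum_mul]
  rw [Finset.sum_comm]
  refine Finset.sum_congr rfl fun y _ => ?_
  rw [Finset.sum_eq_single fun j => g (y j)]
  · rw [ind_of rfl, mul_one]
  · intro x _ hx
    rw [ind_not fun e => hx e.symm, mul_zero, zero_mul]
  · intro hh
    exact absurd (mem_univ _) hh

instance ctF (M : ℕ) : Fintype (Fin M → Om W X β) := inferInstanceAs (Fintype (Fin M → X × (Fin 3 → W) × (Fin 3 → β)))

/-- start, cell of the sampled vertex -/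
def Ixc (β : Type) (Ts : ℕ) : Type := Fin Ts × β

instance ixD (Ts : ℕ) : DecidableEq (Ixc β Ts) := Classical.decEq _

instance ixF (Ts : ℕ) : Fintype (Ixc β Ts) := inferInstanceAs (Fintype (Fin Ts × β))

/-- the coin table -/
abbrev Ct (W X β : Type) (Ts M : ℕ) : Type := Ixc β Ts → Fin M → Om W X β

/-- law of the coin table -/
def cL (w0 : Om W X β) (i : Fin 3) (S : Finset (Fin 3)) (tm : ℕ → ℕ) (Ts M : ℕ) : FP (Ct W X β Ts M) :=
  FPpi fun p : Ixc β Ts => FPpi fun _ : Fin M => q0 tb w0 i S (tm p.1.1) p.2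

open Classical in
variable (D) in
/-- the sample of a world -/
def smp (w0 : Om W X β) (i : Fin 3) (S : Finset (Fin 3)) (tm : ℕ → ℕ) {Ts M : ℕ} (θ : Ct W X β Ts M) (n : ℕ)
    (z : Om W X β) (j : Fin M) : Om W X β :=
  hid z.1 (TabF.pj w0 {i} S (if h : n < Ts then θ (⟨n, h⟩, rp D (tm n) (z.2.2 i)) j else w0))

theorem smp_sgt (w0 : Om W X β) (i : Fin 3) (S : Finset (Fin 3)) (tm : ℕ → ℕ) {Ts M : ℕ} (θ : Ct W X β Ts M) (n : ℕ)
    {z z' : Om W X β} (e : sgt D ∅ (tm n) z = sgt D ∅ (tm n) z') : smp D w0 i S tm θ n z = smp D w0 i S tm θ n z' := by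
  obtain ⟨h1, -, h2⟩ := sgt_eq.1 e
  funext j
  unfold smp
  rw [h1, rp_cell (h2 i)]

theorem pj_pj (w0 : Om W X β) (G S : Finset (Fin 3)) (w : Om W X β) :
    TabF.pj w0 G S (TabF.pj w0 G S w) = TabF.pj w0 G S w := by
  unfold TabF.pj
  refine Prod.ext rfl (Prod.ext (funext fun j => ?_) (funext fun j => ?_))
  · show (if j ∈ S then (if j ∈ S then w.2.1 j else w0.2.1 j) else w0.2.1 j) = if j ∈ S then w.2.1 j else w0.2.1 j
    by_cases h : j ∈ S
    · rw [if_pos h]
    · rw [if_neg h, if_neg h]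
  · show (if j ∈ G then (if j ∈ G then w.2.2 j else w0.2.2 j) else w0.2.2 j) = if j ∈ G then w.2.2 j else w0.2.2 j
    by_cases h : j ∈ G
    · rw [if_pos h]
    · rw [if_neg h, if_neg h]

/-- **A SUM OVER THE STARTS IN THE MEAN OVER THE SAMPLES IS A MEAN OVER THE COIN TABLE** -/
theorem coin_avg (w0 : Om W X β) (i : Fin 3) (S : Finset (Fin 3)) (tm : ℕ → ℕ) (Ts : ℕ) (k : Nm)
    (P : FP (Om W X β)) (c : ℕ → Om W X β → ℝ) (f : ℕ → Om W X β → Sml (Om W X β) k → ℝ) :
    ∑ n ∈ range Ts, P.E (fun z => c n z * (Sp (WE tb ∅ (tm n) z) w0 {i} S k).E (f n z)) =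
      (cL tb w0 i S tm Ts k.M).E (fun θ => ∑ n ∈ range Ts, P.E (fun z => c n z * f n z (smp D w0 i S tm θ n z))) := by
  rw [FP.E_sum]
  refine Finset.sum_congr rfl fun n hn => ?_
  have hn' : n < Ts := mem_range.1 hn
  rw [FP.E_swap]
  refine P.E_congr fun z _ => ?_
  rw [FP.E_smul]
  congr 1
  unfold cL
  have e1 : ∀ θ : Ct W X β Ts k.M, f n z (smp D w0 i S tm θ n z) =
      (fun y : Fin k.M → Om W X β => f n z fun j => hid z.1 (TabF.pj w0 {i} S (y j))) (θ (⟨n, hn'⟩, rp D (tm n) (z.2.2 i))) := by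
    intro θ
    show f n z _ = f n z _
    congr 1
    funext j
    unfold smp
    rw [dif_pos hn']
  rw [FP.E_congr _ fun θ _ => e1 θ]
  rw [FPpi_E (fun p : Ixc β Ts => FPpi fun _ : Fin k.M => q0 tb w0 i S (tm p.1.1) p.2) (⟨n, hn'⟩, rp D (tm n) (z.2.2 i))
    (fun y : Fin k.M → Om W X β => f n z fun j => hid z.1 (TabF.pj w0 {i} S (y j)))]
  refine (pi_map (g := fun a => hid z.1 (TabF.pj w0 {i} S a)) (fun F => ?_) (f n z)).symm
  show (q0 tb w0 i S (tm n) (rp D (tm n) (z.2.2 i))).E (fun a => F (hid z.1 (TabF.pj w0 {i} S a))) = _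
  rw [← q0_E tb w0 i S (tm n) z (rp_qb (tm n) (z.2.2 i)) F]
  unfold q0
  rw [qF_E, qF_E]
  refine FP.E_congr _ fun w _ => ?_
  rw [pj_pj]

end

end Pool.Agent.GMH.PayP
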