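import Pool.Agent.GMH.GhoL
import Pool.Agent.GMH.PayP1

/-!
# GMH/CoinF (helper85): COIN TABLES FOR LISTS WHICH ARE DRAWN IN THE WORLDS OF THE STARTS

`q r z` = law of the list in the world of `z` at the start `r`, seen by the sight `S r`; coin table `θ` = one list for every start and
every point, the list of the world `z` is that of the representative of its class.
* `lst`, `lst_S` : the list of a world, a function of the sight;
* `coin_sum`, `coin_sum'` : a sum over the starts in the mean over the lists is a mean over the coin table;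
* `qHf` : the law `GhoL.qH` of one row, `qHf_sw`.
-/

set_option autoImplicit false
set_option linter.unusedSectionVars false

namespace Pool.Agent.GMH.CoinF

open Finset Pool.Agent.PWZ Pool.Agent.M3 Pool.Agent.GM Pool.Agent.GM.Harm Pool.Agent.GMH
open Pool.Agent.GMH.Gdy

noncomputable section

variable {Om : Type} [Fintype Om] {ι : Type} [Fintype ι] [Nonempty ι] {κ : ℕ → Type*}

/-- representative of a class -/
def rp (S : ∀ r, Om → κ r) (r : ℕ) (z : Om) : Om := Classical.choose (⟨z, rfl⟩ : ∃ z', S r z' = S r z)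

theorem rp_S (S : ∀ r, Om → κ r) (r : ℕ) (z : Om) : S r (rp S r z) = S r z :=
  Classical.choose_spec (⟨z, rfl⟩ : ∃ z', S r z' = S r z)

theorem rp_eq (S : ∀ r, Om → κ r) (r : ℕ) {z z' : Om} (e : S r z = S r z') : rp S r z = rp S r z' := by
  have h : ∀ (c c' : κ r) (h1 : ∃ b', S r b' = c) (h2 : ∃ b', S r b' = c'), c = c' →
      Classical.choose h1 = Classical.choose h2 := by
    intro c c' h1 h2 e
    subst e
    rfl
  exact h _ _ _ _ e

/-- start and point -/
def Ix (Om : Type) (T : ℕ) : Type := Fin T × Om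

instance ixD (T : ℕ) : DecidableEq (Ix Om T) := Classical.decEq _

instance ixF (T : ℕ) : Fintype (Ix Om T) := inferInstanceAs (Fintype (Fin T × Om))

/-- law of the coin table -/
def cL (q : ℕ → Om → FP ι) (T : ℕ) : FP (Ix Om T → ι) := FPpi fun p : Ix Om T => q p.1.1 p.2

open Classical in
/-- the list of the world of `z` at the start `r` -/
def lst (S : ∀ r, Om → κ r) {T : ℕ} (θ : Ix Om T → ι) (r : ℕ) (z : Om) : ι :=
  if h : r < T then θ (⟨r, h⟩, rp S r z) else Classical.arbitrary ι

theorem lst_S (S : ∀ r, Om → κ r) {T : ℕ} (θ : Ix Om T → ι) (r : ℕ) {z z' : Om} (e : S r z = S r z') :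
    lst S θ r z = lst S θ r z' := by
  unfold lst
  rw [rp_eq S r e]

/-- **A SUM OVER THE STARTS IN THE MEAN OVER THE LISTS IS A MEAN OVER THE COIN TABLE** -/
theorem coin_sum (P : FP Om) (S : ∀ r, Om → κ r) (q : ℕ → Om → FP ι)
    (hq : ∀ r z z', S r z = S r z' → q r z = q r z') (T : ℕ) (c : ℕ → Om → ℝ) (f : ℕ → Om → ι → ℝ) :
    ∑ r ∈ range T, P.E (fun z => c r z * (q r z).E (f r z)) =
      (cL q T).E (fun θ => ∑ r ∈ range T, P.E (fun z => c r z * f r z (lst S θ r z))) := by
  rw [FP.E_sum]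
  refine Finset.sum_congr rfl fun r hr => ?_
  have hr' : r < T := mem_range.1 hr
  rw [FP.E_swap]
  refine P.E_congr fun z _ => ?_
  rw [FP.E_smul]
  congr 1
  have e1 : ∀ θ : Ix Om T → ι, f r z (lst S θ r z) = f r z (θ (⟨r, hr'⟩, rp S r z)) := by
    intro θ
    unfold lst
    rw [dif_pos hr']
  rw [FP.E_congr _ fun θ _ => e1 θ]
  unfold cL
  rw [FPpi_E (fun p : Ix Om T => q p.1.1 p.2) (⟨r, hr'⟩, rp S r z) (fun y => f r z y)]
  rw [hq r _ _ (rp_S S r z)]

/-- the same, sum over the lists outside -/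
theorem coin_sum' (P : FP Om) (S : ∀ r, Om → κ r) (q : ℕ → Om → FP ι)
    (hq : ∀ r z z', S r z = S r z' → q r z = q r z') (T : ℕ) (c : ℕ → Om → ℝ) (f : ℕ → Om → ι → ℝ) :
    ∑ r ∈ range T, ∑ x : ι, P.E (fun z => c r z * (q r z).p x * f r z x) =
      (cL q T).E (fun θ => ∑ r ∈ range T, P.E (fun z => c r z * f r z (lst S θ r z))) := by
  rw [← coin_sum P S q hq T c f]
  refine Finset.sum_congr rfl fun r _ => ?_
  rw [← FP.E_sum]
  refine P.E_congr fun z _ => ?_
  unfold FP.E
  rw [Finset.mul_sum]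
  exact Finset.sum_congr rfl fun x _ => by ring

/-! ### the law of the lists of foreign rows -/

section lists

variable {α β Xi : Type} [Fintype β] [Fintype Xi] (P : FP Om) (Q : FP Xi) (C : Om → β)

/-- law of one foreign row -/
def qHf : FP (β × Xi) where
  p := GhoL.qH P Q C
  nn := GhoL.qH_nn
  tot := GhoL.qH_one

/-- law of a list of `M` foreign rows -/
def qHl (M : ℕ) : FP (Fin M → β × Xi) := FPpi fun _ : Fin M => qHf P Q C

theorem qHl_p (M : ℕ) (x : Fin M → β × Xi) : (qHl P Q C M).p x = sw (GhoL.qH P Q C) x := rfl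

end lists

end

end Pool.Agent.GMH.CoinF
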