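import Pool.Agent.GMH.ConA

/-!
# GMH.ConB: the pointwise relative potential on arbitrary events (helper30)

* `ratio_le` : `E g P(X|Z0)/P(X|Z) ≤ E g` for `g ≥ 0` a function of `Z`, `Z0` a function of `Z`;
* `E_exp_iR` : `E exp (-iR) ≤ 1`;
* `iR_ev_ge`, `iR_ev_le` : `-2 √MR ≤ E ind(S) iR ≤ MR + 2 √MR` for EVERY event `S`;
* `top_sp_le` : the label of a maximal index set has `sp ≤ log (1/al)` on the support (any node `s ≥ t`);
* `iR_top_le` : tops over thin: `iR ≤ 3 log (1/al)` on the support; `killD_top`, `killA_top` : the `kill` terms.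
-/

set_option autoImplicit false
set_option linter.unusedSectionVars false

namespace Pool.Agent.GMH

open Finset Pool.Agent.PWZ Pool.Agent.M3 Pool.Agent.GM Pool.Agent.GM.Harm

section ratio

variable {Om : Type*} [Fintype Om] (P : FP Om) {κ ι ι' : Type*} {X : Om → κ} {Z : Om → ι} {Z0 : Om → ι'}

/-- sum over the letters in the support -/
theorem fib_term (F : Om → ℝ) (hF : Fac (fun w => (X w, Z w)) F) (v : Om) (x : κ) :
    (∃ w0, P.p w0 ≠ 0 ∧ X w0 = x ∧ Z w0 = Z v ∧
      P.E (fun w => ind (X w = x) * (ind (Z w = Z v) * (F w / P.m (fun u => (X u, Z u)) w))) = F w0) ∨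
    P.E (fun w => ind (X w = x) * (ind (Z w = Z v) * (F w / P.m (fun u => (X u, Z u)) w))) = 0 ∧
      ∀ w0, P.p w0 ≠ 0 → X w0 = x → Z w0 ≠ Z v := by
  by_cases h : ∃ w0, P.p w0 ≠ 0 ∧ X w0 = x ∧ Z w0 = Z v
  · left
    obtain ⟨w0, h1, h2, h3⟩ := h
    refine ⟨w0, h1, h2, h3, ?_⟩
    have e : P.E (fun w => ind (X w = x) * (ind (Z w = Z v) * (F w / P.m (fun u => (X u, Z u)) w))) =
        P.E (fun w => ind ((X w, Z w) = (X w0, Z w0)) * (F w0 / P.m (fun u => (X u, Z u)) w0)) := by
      refine P.E_congr fun w _ => ?_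
      rw [← mul_assoc, ← ind_and]
      by_cases hw : (X w, Z w) = (X w0, Z w0)
      · have hw' := (Prod.mk.injEq _ _ _ _ ▸ hw : _ ∧ _)
        rw [ind_of hw, ind_of ⟨by rw [hw'.1, h2], by rw [hw'.2, h3]⟩, hF w w0 hw, P.Fac_m _ w w0 hw]
      · rw [ind_not hw, ind_not, zero_mul, zero_mul]
        rintro ⟨h4, h5⟩
        exact hw (by rw [h4, h5, h2, h3])
    rw [e, FP.E_mul_const]
    have h4 := P.m_pos (fun u => (X u, Z u)) h1
    have h5 : P.E (fun w => ind ((X w, Z w) = (X w0, Z w0))) = P.m (fun u => (X u, Z u)) w0 := rfl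
    rw [h5]
    field_simp
  · right
    push Not at h
    refine ⟨?_, h⟩
    rw [← P.E_const 0]
    refine P.E_congr fun w hw => ?_
    by_cases hx : X w = x
    · rw [ind_not (h w hw hx), zero_mul, mul_zero]
    · rw [ind_not hx, zero_mul]

theorem fib_le (h0 : Fac Z Z0) {F : Om → ℝ} (hF : Fac (fun w => (X w, Z0 w)) F) (hF0 : ∀ w, 0 ≤ F w) (v : Om) :
    P.E (fun w => ind (Z w = Z v) * (F w / P.m (fun u => (X u, Z u)) w)) ≤
      P.E (fun w => ind (Z0 w = Z0 v) * (F w / P.m (fun u => (X u, Z0 u)) w)) := by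
  have e : ∀ {ι0 : Type _} (Y : Om → ι0), P.E (fun w => ind (Y w = Y v) * (F w / P.m (fun u => (X u, Y u)) w)) =
      ∑ x ∈ vals X, P.E (fun w => ind (X w = x) * (ind (Y w = Y v) * (F w / P.m (fun u => (X u, Y u)) w))) := by
    intro ι0 Y
    rw [← P.E_sum]
    refine P.E_congr fun w _ => ?_
    have := FP.sum_vals X (fun _ => ind (Y w = Y v) * (F w / P.m (fun u => (X u, Y u)) w)) w
    exact this.symm
  have e1 := e Z
  have e2 : P.E (fun w => ind (Z0 w = Z0 v) * (F w / P.m (fun u => (X u, Z0 u)) w)) =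
      ∑ x ∈ vals X, P.E (fun w => ind (X w = x) * (ind (Z0 w = Z0 v) * (F w / P.m (fun u => (X u, Z0 u)) w))) := by
    rw [← P.E_sum]
    refine P.E_congr fun w _ => ?_
    have := FP.sum_vals X (fun _ => ind (Z0 w = Z0 v) * (F w / P.m (fun u => (X u, Z0 u)) w)) w
    exact this.symm
  rw [e1, e2]
  refine Finset.sum_le_sum fun x _ => ?_
  have hF' : Fac (fun w => (X w, Z w)) F := by
    intro a b hab
    have hab' := (Prod.mk.injEq _ _ _ _ ▸ hab : _ ∧ _)
    exact hF a b (by rw [Prod.mk.injEq]; exact ⟨hab'.1, h0 a b hab'.2⟩)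
  rcases fib_term P F hF' v x with ⟨w0, h1, h2, h3, h4⟩ | ⟨h4, h5⟩
  · rw [h4]
    rcases fib_term P F hF v x with ⟨w1, g1, g2, g3, g4⟩ | ⟨_, g5⟩
    · rw [g4]
      refine le_of_eq (hF w0 w1 ?_)
      rw [Prod.mk.injEq]
      exact ⟨by rw [h2, g2], by rw [g3, h0 w0 v h3]⟩
    · exact absurd (h0 w0 v h3) (g5 w0 h1 h2)
  · rw [h4]
    exact P.E_nonneg fun w _ => mul_nonneg (ind_nonneg _) (mul_nonneg (ind_nonneg _)
      (div_nonneg (hF0 w) (P.m_nonneg _ w)))

/-- **change of the condition**, with a weight -/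
theorem ratio_le (h0 : Fac Z Z0) {g : Om → ℝ} (hg : Fac Z g) (hg0 : ∀ w, 0 ≤ g w) :
    P.E (fun w => g w * Real.exp (sp P X Z w - sp P X Z0 w)) ≤ P.E g := by
  set q : Om → ℝ := fun w => P.m (fun u => (X u, Z0 u)) w / P.m Z0 w with hq
  have hq0 : ∀ w, 0 ≤ q w := fun w => div_nonneg (P.m_nonneg _ w) (P.m_nonneg _ w)
  have hqF : Fac (fun w => (X w, Z0 w)) q :=
    (P.Fac_m _).comp₂ ((Fac.snd X Z0).trans (P.Fac_m Z0)) (fun a b => a / b)
  have e1 : P.E (fun w => g w * Real.exp (sp P X Z w - sp P X Z0 w)) =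
      P.E (fun w => P.E (fun v => ind (Z v = Z w) * (g w * (q w / P.m (fun u => (X u, Z u)) w)))) := by
    refine P.E_congr fun w hw => ?_
    rw [FP.E_mul_const]
    have a := P.m_pos Z hw
    have b := P.m_pos Z0 hw
    have c := P.m_pos (fun u => (X u, Z u)) hw
    have d := P.m_pos (fun u => (X u, Z0 u)) hw
    have h1 : Real.exp (sp P X Z w - sp P X Z0 w) = P.m Z w * (q w / P.m (fun u => (X u, Z u)) w) := by
      unfold sp
      rw [Real.exp_sub, Real.exp_sub, Real.exp_sub, Real.exp_log a, Real.exp_log b, Real.exp_log c, Real.exp_log d, hq]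
      field_simp
    rw [h1]
    show g w * (P.m Z w * _) = P.m Z w * _
    ring
  rw [e1, FP.E_swap]
  refine P.E_mono fun v hv => ?_
  have e2 : P.E (fun w => ind (Z v = Z w) * (g w * (q w / P.m (fun u => (X u, Z u)) w))) =
      g v * P.E (fun w => ind (Z w = Z v) * (q w / P.m (fun u => (X u, Z u)) w)) := by
    rw [← FP.E_smul]
    refine P.E_congr fun w _ => ?_
    by_cases h1 : Z w = Z v
    · rw [ind_of h1, ind_of h1.symm, hg w v h1]; ring
    · rw [ind_not h1, ind_not (fun hh => h1 hh.symm)]; ring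
  rw [e2]
  have h2 := fib_le P (X := X) h0 hqF hq0 v
  have h3 : P.E (fun w => ind (Z0 w = Z0 v) * (q w / P.m (fun u => (X u, Z0 u)) w)) = 1 := by
    have e3 : P.E (fun w => ind (Z0 w = Z0 v) * (q w / P.m (fun u => (X u, Z0 u)) w)) =
        P.E (fun w => ind (Z0 w = Z0 v) * (1 / P.m Z0 v)) := by
      refine P.E_congr fun w hw => ?_
      by_cases h4 : Z0 w = Z0 v
      · rw [ind_of h4, ← P.Fac_m Z0 w v h4, hq]
        have a := (P.m_pos Z0 hw).ne'
        have b := (P.m_pos (fun u => (X u, Z0 u)) hw).ne'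
        field_simp
      · rw [ind_not h4, zero_mul, zero_mul]
    rw [e3, FP.E_mul_const]
    show P.m Z0 v * (1 / P.m Z0 v) = 1
    have := (P.m_pos Z0 hv).ne'
    field_simp
  have h4 : P.E (fun w => ind (Z w = Z v) * (q w / P.m (fun u => (X u, Z u)) w)) ≤ 1 := by linarith
  have := mul_le_mul_of_nonneg_left h4 (hg0 v)
  linarith

end ratio

section expn

variable {K : Type} {Om υ κ : Type*} [Fintype Om] [Fintype K] [DecidableEq K] (P : FP Om) (p p' : Finset K → Prop)
  [DecidablePred p] [DecidablePred p']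

theorem exp_fam {ι : Type*} (L : Finset K → Om → υ) (W : Om → κ) (Z : Om → ι) (hZW : Fac Z W) (n : ℕ) :
    ∀ S : Finset (Finset K), S.card = n → (∀ I ∈ S, ∀ I', I' ⊂ I → I' ∈ S ∨ Fac Z (L I')) →
      P.E (fun w => Real.exp (sp P (fun w => (fun I => if I ∈ S then some (L I w) else none : Finset K → Option υ)) Z w -
        ∑ I ∈ S, sp P (L I) (fun w => (lo L I w, W w)) w)) ≤ 1 := by
  classical
  induction n with
  | zero =>
    intro S hS _
    rw [Finset.card_eq_zero] at hS
    subst hS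
    refine le_of_eq ?_
    rw [← P.E_const 1]
    refine P.E_congr fun w _ => ?_
    rw [Finset.sum_empty, sub_zero, sp_const P, Real.exp_zero]
    intro a b _
    funext I
    simp
  | succ n ih =>
    intro S hS hdown
    have hne : S.Nonempty := by
      rw [← Finset.card_pos]; omega
    obtain ⟨j, hj, hmax⟩ := S.exists_maximal hne
    have hcard : (S.erase j).card = n := by rw [Finset.card_erase_of_mem hj]; omega
    have k := ih (S.erase j) hcard (by
      intro I hI I' hI'
      rcases hdown I (Finset.mem_of_mem_erase hI) I' hI' with h1 | h1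
      · left
        refine Finset.mem_erase.2 ⟨?_, h1⟩
        rintro rfl
        exact absurd (hmax (Finset.mem_of_mem_erase hI) hI'.le) (not_le_of_gt hI')
      · exact Or.inr h1)
    set fS : Om → Finset K → Option υ := fun w => (fun I => if I ∈ S then some (L I w) else none) with hfS
    set fE : Om → Finset K → Option υ := fun w => (fun I => if I ∈ S.erase j then some (L I w) else none) with hfE
    have hfE_eq : ∀ a b, fE a = fE b → ∀ I ∈ S.erase j, L I a = L I b := by
      intro a b hab I hI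
      have := congrFun hab I
      simp only [hfE, if_pos hI] at this
      exact Option.some.inj this
    have e1 : ∀ w, sp P fS Z w = sp P fE Z w + sp P (L j) (fun w => (fE w, Z w)) w := by
      intro w
      rw [← sp_chain P (L j) fE Z w]
      refine sp_congr P ?_ (Fac.refl _) ?_ (Fac.refl _) w
      · intro a b hab
        simp only [Prod.mk.injEq] at hab ⊢
        have h1 : ∀ I ∈ S, L I a = L I b := by
          intro I hI
          have := congrFun hab.1 I
          simp only [hfS, if_pos hI] at this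
          exact Option.some.inj this
        refine ⟨h1 j hj, ?_⟩
        funext I
        simp only [hfE]
        by_cases hI : I ∈ S.erase j
        · rw [if_pos hI, if_pos hI, h1 I (Finset.mem_of_mem_erase hI)]
        · rw [if_neg hI, if_neg hI]
      · intro a b hab
        simp only [Prod.mk.injEq] at hab
        funext I
        simp only [hfS]
        by_cases hI : I ∈ S
        · rw [if_pos hI, if_pos hI]
          by_cases hij : I = j
          · rw [hij, hab.1.1]
          · rw [hfE_eq a b hab.1.2 I (Finset.mem_erase.2 ⟨hij, hI⟩)]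
        · rw [if_neg hI, if_neg hI]
    have hlow : ∀ I ∈ S, Fac (fun w => (fE w, Z w)) (lo L I) := by
      intro I hI a b hab
      simp only [Prod.mk.injEq] at hab
      rw [lo_eq]
      intro I' hI'
      rcases hdown I hI I' hI' with h1 | h1
      · refine hfE_eq a b hab.1 I' (Finset.mem_erase.2 ⟨?_, h1⟩)
        rintro rfl
        exact absurd (hmax hI hI'.le) (not_le_of_gt hI')
      · exact h1 a b hab.2
    have h0 : Fac (fun w => (fE w, Z w)) (fun w => (lo L j w, W w)) :=
      (hlow j hj).prod ((Fac.snd fE Z).trans hZW)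
    set g : Om → ℝ := fun w => Real.exp (sp P fE Z w - ∑ I ∈ S.erase j, sp P (L I) (fun w => (lo L I w, W w)) w) with hg
    have fsp1 : Fac (fun w => (fE w, Z w)) (sp P fE Z) :=
      ((Fac.snd fE Z).trans (P.Fac_m Z)).comp₂ (P.Fac_m (fun v => (fE v, Z v))) (fun a b => Real.log a - Real.log b)
    have fsp2 : ∀ I ∈ S.erase j, Fac (fun w => (fE w, Z w)) (sp P (L I) (fun w => (lo L I w, W w))) := by
      intro I hI a b hab
      have hI' := Finset.mem_of_mem_erase hI
      have h2 := hlow I hI' a b hab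
      have hab' := (Prod.mk.injEq _ _ _ _ ▸ hab : _ ∧ _)
      have h3 := hfE_eq a b hab'.1 I hI
      have h4 := hZW a b hab'.2
      unfold sp
      rw [P.Fac_m (fun w => (lo L I w, W w)) a b (Prod.ext h2 h4),
        P.Fac_m (fun v => (L I v, lo L I v, W v)) a b (Prod.ext h3 (Prod.ext h2 h4))]
    have hgF : Fac (fun w => (fE w, Z w)) g := by
      intro a b hab
      show Real.exp _ = Real.exp _
      rw [fsp1 a b hab, Finset.sum_congr rfl fun I hI => fsp2 I hI a b hab]
    have h5 := ratio_le P (X := L j) h0 hgF (fun w => (Real.exp_pos _).le)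
    refine le_trans (le_of_eq ?_) (h5.trans k)
    refine P.E_congr fun w _ => ?_
    show Real.exp (sp P fS Z w - _) = g w * _
    rw [hg, ← Real.exp_add, e1 w, ← Finset.add_sum_erase S _ hj]
    congr 1
    ring

/-- **`E exp (-iR) ≤ 1`** -/
theorem E_exp_iR (hp : ∀ I J : Finset K, I ⊆ J → p J → p I) (L : Finset K → Om → υ)
    (W : Om → κ) : P.E (fun w => Real.exp (-iR P p p' L W w)) ≤ 1 := by
  classical
  have h1 := exp_fam P L W (fun w => (all (LP p' L) w, W w)) (Fac.snd _ _) _ (univ.filter (fun J => p J ∧ ¬ p' J)) rfl (by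
    intro I hI I' hI'
    obtain ⟨_, h1, _⟩ := Finset.mem_filter.1 hI
    have h3 := hp I' I hI'.subset h1
    by_cases h4 : p' I'
    · right
      intro a b hab
      simp only [Prod.mk.injEq] at hab
      exact congrFun hab.1 ⟨I', h4⟩
    · exact Or.inl (Finset.mem_filter.2 ⟨mem_univ _, h3, h4⟩))
  refine le_trans (P.E_mono fun w hw => ?_) h1
  refine Real.exp_le_exp.2 ?_
  unfold iR
  have h2 : sp P (all (LP p L)) (fun w => (all (LP p' L) w, W w)) w ≤
      sp P (fun w => (fun I => if I ∈ univ.filter (fun J => p J ∧ ¬ p' J) then some (L I w) else none :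
        Finset K → Option υ)) (fun w => (all (LP p' L) w, W w)) w := by
    have h3 := sp_chain P (fun w => (fun I => if I ∈ univ.filter (fun J => p J ∧ ¬ p' J) then some (L I w) else none :
        Finset K → Option υ)) (all (LP p L)) (fun w => (all (LP p' L) w, W w)) w
    have h4 := sp_nonneg P (fun w => (fun I => if I ∈ univ.filter (fun J => p J ∧ ¬ p' J) then some (L I w) else none :
        Finset K → Option υ)) (fun w => (all (LP p L) w, (all (LP p' L) w, W w))) hw
    have h5 : sp P (fun w => ((fun I => if I ∈ univ.filter (fun J => p J ∧ ¬ p' J) then some (L I w) else none :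
        Finset K → Option υ), all (LP p L) w)) (fun w => (all (LP p' L) w, W w)) w =
        sp P (fun w => (fun I => if I ∈ univ.filter (fun J => p J ∧ ¬ p' J) then some (L I w) else none :
        Finset K → Option υ)) (fun w => (all (LP p' L) w, W w)) w := by
      refine sp_congr P ?_ (Fac.refl _) ?_ (Fac.refl _) w
      · intro a b hab
        simp only [Prod.mk.injEq] at hab
        exact hab.1.1
      · intro a b hab
        simp only [Prod.mk.injEq] at hab ⊢
        refine ⟨hab.1, ?_⟩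
        funext i
        by_cases h4 : p' i.1
        · exact congrFun hab.2.1 ⟨i.1, h4⟩
        · have h5 := congrFun hab.1 i.1
          have hm : i.1 ∈ univ.filter (fun J => p J ∧ ¬ p' J) := Finset.mem_filter.2 ⟨mem_univ i.1, i.2, h4⟩
          simp only [if_pos hm] at h5
          exact Option.some.inj h5
    linarith
  linarith

end expn

/-! ## every event -/

section ev

variable {Om : Type*} [Fintype Om] (P : FP Om)

/-- a function with `E exp (-f) ≤ 1` -/
theorem neg_part_le {f : Om → ℝ} (h1 : P.E (fun w => Real.exp (-f w)) ≤ 1) (S : Om → Prop) :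
    -(2 * Real.sqrt (P.E f)) ≤ P.E (fun w => ind (S w) * f w) := by
  set x : Om → ℝ := fun w => Real.exp (-f w) with hx
  have hx0 : ∀ w, 0 < x w := fun w => Real.exp_pos _
  -- the positive part of `1 - x`
  set y : Om → ℝ := fun w => max (1 - x w) 0 with hy
  have hphi : ∀ w, y w ^ 2 ≤ 4 * (f w + x w - 1) := by
    intro w
    have hs := Real.sqrt_nonneg (x w)
    have hs2 := Real.sq_sqrt (hx0 w).le
    have hlog : Real.log (x w) ≤ 2 * (Real.sqrt (x w) - 1) := by
      have h2 := Real.log_le_sub_one_of_pos (Real.sqrt_pos.2 (hx0 w))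
      rw [Real.log_sqrt (hx0 w).le] at h2
      linarith
    have hf : Real.log (x w) = -f w := Real.log_exp _
    have h3 : (1 - Real.sqrt (x w)) ^ 2 ≤ f w + x w - 1 := by nlinarith
    rcases le_total (1 - x w) 0 with h4 | h4
    · have : y w = 0 := max_eq_right h4
      rw [this]
      nlinarith [sq_nonneg (1 - Real.sqrt (x w))]
    · have : y w = 1 - x w := max_eq_left h4
      rw [this]
      have h5 : 1 - x w = (1 - Real.sqrt (x w)) * (1 + Real.sqrt (x w)) := by nlinarith
      have h6 : Real.sqrt (x w) ≤ 1 := by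
        rw [Real.sqrt_le_iff]; constructor <;> linarith
      have h7 : (1 + Real.sqrt (x w)) ^ 2 ≤ 4 := by nlinarith
      rw [h5, mul_pow]
      nlinarith [sq_nonneg (1 - Real.sqrt (x w))]
  have hy0 : ∀ w, 0 ≤ y w := fun w => le_max_right _ _
  have hE : P.E (fun w => y w ^ 2) ≤ 4 * P.E f := by
    have h2 := P.E_mono (fun w _ => hphi w)
    have h3 : P.E (fun w => 4 * (f w + x w - 1)) = 4 * (P.E f + P.E x - 1) := by
      rw [P.E_smul, P.E_sub, P.E_add, P.E_const]
    rw [h3] at h2
    have h4 : P.E x ≤ 1 := h1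
    linarith
  have hEy : P.E y ≤ 2 * Real.sqrt (P.E f) := by
    have h2 : P.E y ≤ Real.sqrt (P.E (fun w => y w ^ 2)) := by
      refine Real.le_sqrt_of_sq_le ?_
      exact P.sq_E_le y
    refine h2.trans ?_
    have h3 : Real.sqrt (P.E (fun w => y w ^ 2)) ≤ Real.sqrt (4 * P.E f) := Real.sqrt_le_sqrt hE
    rw [Real.sqrt_mul (by norm_num) (P.E f), show (4 : ℝ) = 2 ^ 2 by norm_num, Real.sqrt_sq (by norm_num)] at h3
    exact h3
  have hpt : ∀ w, 1 - x w - y w ≤ ind (S w) * f w := by
    intro w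
    have h2 : 1 - x w ≤ f w := by
      have := Real.add_one_le_exp (-f w)
      linarith
    have h3 : 1 - x w ≤ y w := le_max_left _ _
    by_cases hS : S w
    · rw [ind_of hS, one_mul]
      have := hy0 w
      linarith
    · rw [ind_not hS, zero_mul]
      linarith
  have h2 := P.E_mono (fun w _ => hpt w)
  have h3 : P.E (fun w => 1 - x w - y w) = 1 - P.E x - P.E y := by
    rw [P.E_sub, P.E_sub, P.E_const]
  rw [h3] at h2
  have h4 : P.E x ≤ 1 := h1
  linarith

theorem pos_part_le {f : Om → ℝ} (h1 : P.E (fun w => Real.exp (-f w)) ≤ 1) (S : Om → Prop) :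
    P.E (fun w => ind (S w) * f w) ≤ P.E f + 2 * Real.sqrt (P.E f) := by
  have h2 := neg_part_le P h1 (fun w => ¬ S w)
  have h3 : P.E f = P.E (fun w => ind (S w) * f w) + P.E (fun w => ind (¬ S w) * f w) := by
    rw [← P.E_add]
    refine P.E_congr fun w _ => ?_
    rw [FP.ind_not_eq]
    ring
  linarith

end ev

section evR

variable {K : Type} {Om υ κ : Type*} [Fintype Om] [Fintype K] [DecidableEq K] (P : FP Om) {p p' : Finset K → Prop}
  [DecidablePred p] [DecidablePred p']

/-- **lower bound on every event** -/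
theorem iR_ev_ge (hp : ∀ I J : Finset K, I ⊆ J → p J → p I) (L : Finset K → Om → υ) (W : Om → κ) (S : Om → Prop) :
    -(2 * Real.sqrt (MR P p p' L W)) ≤ P.E (fun w => ind (S w) * iR P p p' L W w) := by
  rw [← E_iR]
  exact neg_part_le P (E_exp_iR P p p' hp L W) S

/-- **upper bound on every event** -/
theorem iR_ev_le (hp : ∀ I J : Finset K, I ⊆ J → p J → p I) (L : Finset K → Om → υ) (W : Om → κ) (S : Om → Prop) :
    P.E (fun w => ind (S w) * iR P p p' L W w) ≤ MR P p p' L W + 2 * Real.sqrt (MR P p p' L W) := by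
  rw [← E_iR]
  exact pos_part_le P (E_exp_iR P p p' hp L W) S

end evR

/-! ## the tops -/

section top

variable {K X β γ φ : Type} [Fintype K] [DecidableEq K] [Fintype X] [Fintype β] [Fintype φ]
  [Nonempty X] [Nonempty β] {D : HD K X β γ φ} {al : ℝ} {h : D.Thick al} {N : Finset K → ℝ} {S : Finset (Finset K)}
  {v : ℕ → Finset K → X → (K → β) → Pt K X β φ} {dg : ℕ → X → ℝ} {prr : ℕ → K → φ → φ} {T : ℕ} {Lam : ℝ}

/-- a letter is thick given the points, the node and functions of the points -/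
theorem letter_thick (h : D.Thick al) {t s : ℕ} (hts : t ≤ s) (l : K) {κ : Type*} {Z : Pt K X β φ → κ}
    (hZ1 : ∀ a b : Pt K X β φ, a.1 = b.1 → a.2.1 = b.2.1 → Z a = Z b) (hZ2 : Fac Z (WW D s)) {w : Pt K X β φ}
    (hw : (D.P h t).p w ≠ 0) : al * (D.P h t).m Z w ≤ (D.P h t).m (fun u => (u.2.2 l, Z u)) w := by
  classical
  obtain ⟨F0⟩ : Nonempty (K → φ) := ⟨w.2.2⟩
  have e1 : (D.P h t).m (fun u => (u.2.2 l, Z u)) w =
      (∑ x, ∑ y, ind (Z (x, y, w.2.2) = Z w) * D.kf t l x y (w.2.2 l)) / nn X β K := by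
    have h1 := E_labels h {l} t (fun x y => ind (Z (x, y, w.2.2) = Z w)) w.2.2
    simp only [Finset.mem_singleton, forall_eq, Finset.prod_singleton] at h1
    rw [show nn X β K = (Fintype.card X * (Fintype.card β : ℝ) ^ Fintype.card K) from rfl, ← h1]
    unfold FP.m
    refine (D.P h t).E_congr fun u _ => ?_
    rw [← ind_and]
    refine ind_cg ?_
    rw [Prod.mk.injEq, hZ1 u (u.1, u.2.1, w.2.2) rfl rfl]
    tauto
  have e2 : (D.P h t).m Z w = (∑ x, ∑ y, ind (Z (x, y, w.2.2) = Z w)) / nn X β K := by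
    rw [← E_labels0 h t (fun x y => ind (Z (x, y, w.2.2) = Z w))]
    unfold FP.m
    refine (D.P h t).E_congr fun u _ => ?_
    rw [hZ1 u (u.1, u.2.1, w.2.2) rfl rfl]
  rw [e1, e2, mul_div_assoc']
  have hnn : 0 ≤ nn X β K := by unfold nn; positivity
  refine div_le_div_of_nonneg_right ?_ hnn
  rw [Finset.mul_sum]
  refine Finset.sum_le_sum fun x _ => ?_
  rw [Finset.mul_sum]
  refine Finset.sum_le_sum fun y _ => ?_
  by_cases hz : Z (x, y, w.2.2) = Z w
  · rw [ind_of hz, mul_one, one_mul]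
    have h1 := hZ2 _ _ hz
    rw [WW_eq] at h1
    have h2 : D.kf t l w.1 w.2.1 (w.2.2 l) ≠ 0 := by
      have h3 : (∏ l, D.kf t l w.1 w.2.1 (w.2.2 l)) / (Fintype.card X * (Fintype.card β : ℝ) ^ Fintype.card K) ≠ 0 := hw
      exact Finset.prod_ne_zero_iff.1 (div_ne_zero_iff.1 h3).1 l (mem_univ l)
    have h4 : y = w.2.1 := h1.1
    rw [h4]
    exact h.thick t l w.1 x w.2.1 (w.2.2 l) (qa_mono D hts h1.2.symm) h2
  · rw [ind_not hz, mul_zero, zero_mul]

/-- **the label of a maximal index set** : pointwise information at most `log (1/al)` -/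
theorem top_sp_le (H : D.Hyp dg prr al T Lam) (R : Run h N S (AdmDep D) v) {l : K} (hJ : univ.erase l ∈ S)
    (hu : univ ∉ S) (hN : 0 < N (univ.erase l)) {t s : ℕ} (ht : t ≤ T) (hts : t ≤ s)
    {κ : Type*} {Z : Pt K X β φ → κ}
    (hZ1 : ∀ a b : Pt K X β φ, a.1 = b.1 → a.2.1 = b.2.1 → Z a = Z b) (hZ2 : Fac Z (WW D s))
    (hZ3 : Fac Z (lo (LL (Um v (t + 1))) (univ.erase l))) {w : Pt K X β φ} (hw : (D.P h t).p w ≠ 0) :
    sp (D.P h t) (LL (Um v (t + 1)) (univ.erase l)) Z w ≤ Real.log (1 / al) := by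
  have e1 : (D.P h t).m (fun u => (LL (Um v (t + 1)) (univ.erase l) u, Z u)) w =
      (D.P h t).m (fun u => (u.2.2 l, Z u)) w := by
    unfold FP.m
    refine (D.P h t).E_congr fun u hu' => ?_
    refine ind_cg ?_
    have hcl : ∀ {α1 β1 γ1 : Type _} (a a' : α1) (b b' : β1) (c c' : γ1), (c = c' → (a = a' ↔ b = b')) →
        ((a, c) = (a', c') ↔ (b, c) = (b', c')) := by
      intro α1 β1 γ1 a a' b b' c c' hh
      rw [Prod.mk.injEq, Prod.mk.injEq]
      exact and_congr_left hh
    refine hcl _ _ _ _ _ _ fun hz => ?_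
    have h1 := hZ2 _ _ hz
    have h2 := hZ3 _ _ hz
    refine R.top_LL H hJ hu hN ht hu' hw ?_
    refine Prod.ext h2 ?_
    show BB D t (univ.erase l) u = BB D t (univ.erase l) w
    rw [WW_eq] at h1
    rw [BB_eq]
    exact ⟨fun j _ => congrFun h1.1 j, qa_mono D hts h1.2, fun j => by rw [h1.1]⟩
  unfold sp
  rw [e1]
  have h3 := letter_thick h hts l hZ1 hZ2 hw
  have h4 := (D.P h t).m_pos Z hw
  have h5 := mul_pos h.pos h4
  have h6 := Real.log_le_log h5 h3
  rw [Real.log_mul h.pos.ne' h4.ne'] at h6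
  rw [one_div, Real.log_inv]
  linarith

/-- **tops over thin**: upper bound on every event -/
theorem iR_top_le (hK : Fintype.card K = 3) (H : D.Hyp dg prr al T Lam) (R : Run h N S (AdmDep D) v)
    (hS : ∀ l : K, univ.erase l ∈ S) (hu : univ ∉ S) (hN : ∀ l : K, 0 < N (univ.erase l)) {t s : ℕ} (ht : t ≤ T)
    (hts : t ≤ s) {w : Pt K X β φ} (hw : (D.P h t).p w ≠ 0) :
    iR (D.P h t) (fun J => J ≠ univ) pth (LL (Um v (t + 1))) (WW D s) w ≤ 3 * Real.log (1 / al) := by
  classical
  unfold iR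
  have h1 := sp_nonneg (D.P h t) (all (LP (fun J => J ≠ univ) (LL (Um v (t + 1)))))
    (fun w => (all (LP pth (LL (Um v (t + 1)))) w, WW D s w)) hw
  have h2 : ∑ J ∈ univ.filter (fun J : Finset K => J ≠ univ ∧ ¬ pth J),
      sp (D.P h t) (LL (Um v (t + 1)) J) (fun w => (lo (LL (Um v (t + 1))) J w, WW D s w)) w ≤
      ∑ _l : K, Real.log (1 / al) := by
    have e : ∑ J ∈ univ.filter (fun J : Finset K => J ≠ univ ∧ ¬ pth J),
        sp (D.P h t) (LL (Um v (t + 1)) J) (fun w => (lo (LL (Um v (t + 1))) J w, WW D s w)) w =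
        ∑ l : K, sp (D.P h t) (LL (Um v (t + 1)) (univ.erase l))
          (fun w => (lo (LL (Um v (t + 1))) (univ.erase l) w, WW D s w)) w := by
      refine (Finset.sum_bij (fun j _ => univ.erase j) ?_ ?_ ?_ (fun _ _ => rfl)).symm
      · intro j _
        exact Finset.mem_filter.2 ⟨mem_univ _, ne_univ j, pth_er hK j⟩
      · intro i _ i' _ hij
        exact erase_inj' hij
      · intro J hJ
        obtain ⟨_, h1, h2⟩ := Finset.mem_filter.1 hJ
        unfold pth at h2
        have h3 : ∃ j, j ∉ J := by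
          by_contra hc
          push Not at hc
          exact h1 (Finset.eq_univ_of_forall hc)
        obtain ⟨j, hj⟩ := h3
        refine ⟨j, mem_univ j, ?_⟩
        refine (Finset.eq_of_subset_of_card_le (fun i hi => Finset.mem_erase.2 ⟨by rintro rfl; exact hj hi, mem_univ i⟩)
          ?_).symm
        rw [card_er hK]
        omega
    rw [e]
    refine Finset.sum_le_sum fun l _ => ?_
    refine top_sp_le H R (hS l) hu (hN l) ht hts ?_ (Fac.snd _ _) (Fac.fst _ _) hw
    intro a b h3 h4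
    refine Prod.ext ?_ ?_
    · show lo (LL (Um v (t + 1))) (univ.erase l) a = lo (LL (Um v (t + 1))) (univ.erase l) b
      rw [lo_eq]
      intro I hI
      rw [LL_eq]
      refine ⟨by rw [h3, h4], fun l' hl' => ?_⟩
      exact absurd hl' (lt_no (ne_univ l) hI)
    · show WW D s a = WW D s b
      rw [WW_eq]
      exact ⟨h4, by rw [h3]⟩
  rw [Finset.sum_const, Finset.card_univ, hK, nsmul_eq_mul] at h2
  push_cast at h2
  linarith

/-- points killed by the digit -/
theorem killD_top (hK : Fintype.card K = 3) (H : D.Hyp dg prr al T Lam) (R : Run h N S (AdmDep D) v)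
    (hS : ∀ l : K, univ.erase l ∈ S) (hu : univ ∉ S) (hN : ∀ l : K, 0 < N (univ.erase l)) {t : ℕ} (ht : t ≤ T)
    {a a' : ℕ → Pt K X β φ → Prop} (hs : ∀ w, a' t w → a t w) :
    killD h v (fun J => J ≠ univ) pth a a' t ≤
      3 * Real.log (1 / al) * (D.P h t).Pr (fun w => a t w ∧ ¬ a' t w) := by
  unfold killD FP.Pr
  rw [← FP.E_smul]
  refine (D.P h t).E_mono fun w hw => ?_
  have h1 := iR_top_le hK H R hS hu hN ht (Nat.le_succ t) hw
  by_cases h2 : a' t w
  · rw [ind_of h2, ind_of (hs w h2), ind_not (fun hh => hh.2 h2), sub_self, zero_mul, mul_zero]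
  · by_cases h3 : a t w
    · rw [ind_of h3, ind_not h2, ind_of ⟨h3, h2⟩, sub_zero, one_mul, mul_one]
      exact h1
    · rw [ind_not h3, ind_not h2, ind_not (fun hh => h3 hh.1), sub_self, zero_mul, mul_zero]

/-- points killed by the additions -/
theorem killA_top (hK : Fintype.card K = 3) (H : D.Hyp dg prr al T Lam) (R : Run h N S (AdmDep D) v)
    (hS : ∀ l : K, univ.erase l ∈ S) (hu : univ ∉ S) (hN : ∀ l : K, 0 < N (univ.erase l)) {t : ℕ} (ht : t + 1 ≤ T)
    {a a' : ℕ → Pt K X β φ → Prop} (hs : ∀ w, a (t + 1) w → a' t (old prr t w)) :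
    killA h prr v (fun J => J ≠ univ) pth a a' t ≤
      3 * Real.log (1 / al) * (D.P h (t + 1)).Pr (fun w => a' t (old prr t w) ∧ ¬ a (t + 1) w) := by
  unfold killA FP.Pr
  rw [← FP.E_smul]
  refine (D.P h (t + 1)).E_mono fun w hw => ?_
  have h1 := iR_top_le hK H R hS hu hN ht le_rfl hw
  by_cases h2 : a (t + 1) w
  · rw [ind_of h2, ind_of (hs w h2), ind_not (fun hh => hh.2 h2), sub_self, zero_mul, mul_zero]
  · by_cases h3 : a' t (old prr t w)
    · rw [ind_of h3, ind_not h2, ind_of ⟨h3, h2⟩, sub_zero, one_mul, mul_one]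
      exact h1
    · rw [ind_not h3, ind_not h2, ind_not (fun hh => h3 hh.1), sub_self, zero_mul, mul_zero]

end top

end Pool.Agent.GMH
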