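import Pool.Agent.GMH.ConTR

/-!
# GMH/ConTH: the kind HOT in front of the rounds (A5 CON, helper76)

Order: `B = x^kB`, `del1 = x^(-kdl)` (activity of HOT `1 + del1`, `GA(del1) ≤ x^kgH`), the round `rH` of HOT (count by payment),
`D0 = x^kh`, `kh = rH.q + 64` (class mass `1 / D0` of a row of HOT), `k'` = `kh`, then `kd = 4 kh + 4000`, the rounds HT, H, G, R0.
* `kgH_le` : the activity sum with the threshold `del1`; `qH_le` : `1 / D0 ≤ x^(-64) q_HOT`;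
* `ordH` : the order; `cR` : the `Rounds`;
* `hot_e1`, `hot_uB` : `D0^3 eta_1` and `D0^3 u_B(R0)` are at most `x^(-20 kd)`;
* `two_gains`, `one_gain` : pairs which are not hot; `del_hot`, `inv_hot` : the terms `C_B del1 x^C`, `C_B (3 / D0)^(1/2)`;
* `quiet1`, `quiet2` : heavy steps (`kappa = x^(-kka)`);
* `kdH_le` : `kd = 10^8` for `kp = kz = 5000`; `Rc_hot` : the rounds `CT.Rc` of helper42 are behind HOT; `Rc_e1`, `Rc_uB`,
  `Rc_two` : the same bounds for `CT.Rc` (any rounds `c` with `4 kh + 4000 ≤ c.kd` : `gH_e1`, `gH_uB`, `gH_two`).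
-/

set_option autoImplicit false
set_option linter.unusedSectionVars false

namespace Pool.Agent.GMH.CTK

open Pool.Agent.GMH Pool.Agent.GMH.V3 Pool.Agent.GMH.CT

noncomputable section

/-- `del1 = e3 = x^(-kdl)` : `B^k del1` times the hot mass `x^C` is small for `160 k + C + 54 ≤ kdl` -/
def kdl : ℕ := 2000

/-- `GA(del1) ≤ x^kgH` -/
def kgH : ℕ := 2 * kdl + 20

/-- `kappa = x^(-kka)` (quiet steps) -/
def kka : ℕ := 5000

variable (kp kz : ℕ)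

/-- the round of HOT -/
def rH : Rd := ⟨kL, kgH, kp, kz⟩

/-- `D0 = x^kh` -/
def kh : ℕ := (rH kp kz).q + 64

/-- `dH = x^(-kdH)` -/
def kdH : ℕ := 4 * kh kp kz + 4000

/-- **THE ROUNDS** -/
def cR : Rounds := ⟨kL, kg, kdH kp kz, kp, kz⟩

theorem cR_kd : (cR kp kz).kd = kdH kp kz := rfl

theorem ordH : kd ≤ (cR kp kz).kd ∧ 4 * kh kp kz + 4000 ≤ (cR kp kz).kd ∧ (rH kp kz).q + 64 = kh kp kz ∧
    80 * (4 * kh kp kz + 4000) ≤ (cR kp kz).eta1 ∧ 80 * (4 * kh kp kz + 4000) ≤ (cR kp kz).R0.uB ∧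
    80 * (4 * kh kp kz + 4000) ≤ (cR kp kz).G.q := by
  have h1 := rounds_big (cR kp kz)
  have h2 : (cR kp kz).R0.uB = 2 * (cR kp kz).R0.sB := rfl
  have h3 := (cR kp kz).R0.ord
  have e3 : (cR kp kz).R0.km = kp + 2 * (cR kp kz).eta1 + 4 := rfl
  have e4 : (cR kp kz).kd = 4 * kh kp kz + 4000 := rfl
  have e5 : (rH kp kz).q + 64 = kh kp kz := rfl
  unfold kd
  omega

variable {kp kz} {Lam : ℝ} (hL : 2 ≤ Lam)

include hL

/-- the activity sum with the threshold `del1` -/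
theorem kgH_le {c : ℝ} (hc : c ≤ 4 ^ 6) : c * Lam / ix Lam kdl ^ 2 ≤ pw Lam kgH := by
  have e : ix Lam kdl ^ 2 = ix Lam (2 * kdl) := by
    rw [mul_comm, ix_mul]
  rw [e, div_ix hL]
  have h1 := mul_pw hL (pw_pos hL (2 * kdl)).le (cLam hL 6 hc) le_rfl
  exact h1.trans (pw_mono hL (by unfold kgH kdl; norm_num))

/-- the class mass of a row of HOT -/
theorem qH_le : 1 / pw Lam (kh kp kz) ≤ ix Lam 64 * ix Lam (rH kp kz).q := by
  rw [one_div, ← ix_add]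
  exact ix_anti hL (by unfold kh; omega)

/-- `D0` against `eta_1` -/
theorem hot_e1 {c : ℝ} (hc : c ≤ 4 ^ 10) : c * pw Lam (kh kp kz) ^ 3 * ix Lam (cR kp kz).eta1 ≤ ix Lam (20 * kd) := by
  have h := ordH kp kz
  have e : pw Lam (kh kp kz) ^ 3 = pw Lam (kh kp kz * 3) := (pw_mul _ _ _).symm
  rw [e]
  exact fin2 hL (pw_pos hL _).le (CT.cst hL 10 hc) le_rfl (by unfold kd; omega)

/-- `D0` against `u_B` of `R0` -/
theorem hot_uB {c : ℝ} (hc : c ≤ 4 ^ 10) : c * pw Lam (kh kp kz) ^ 3 * ix Lam (cR kp kz).R0.uB ≤ ix Lam (20 * kd) := by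
  have h := ordH kp kz
  have e : pw Lam (kh kp kz) ^ 3 = pw Lam (kh kp kz * 3) := (pw_mul _ _ _).symm
  rw [e]
  exact fin2 hL (pw_pos hL _).le (CT.cst hL 10 hc) le_rfl (by unfold kd; omega)

/-- both gains at least `x^(-k')`, `k' = kh + 64` : `c Lam x^(2 k') D0 eta_1` -/
theorem two_gains {c : ℝ} (hc : c ≤ 4 ^ 10) :
    c * Lam * pw Lam (2 * (kh kp kz + 64)) * pw Lam (kh kp kz) * ix Lam (cR kp kz).eta1 ≤ ix Lam (10 * kd) := by
  have h := ordH kp kz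
  have h1 := fin4 hL (by linarith : (0 : ℝ) ≤ Lam) (pw_pos hL (2 * (kh kp kz + 64))).le (pw_pos hL (kh kp kz)).le
    (CT.cst hL 10 hc) (Lam_le hL) (le_refl (pw Lam (2 * (kh kp kz + 64)))) (le_refl (pw Lam (kh kp kz)))
    (k := (cR kp kz).eta1) (s := 10 * kd) (by unfold kd; omega)
  exact h1

/-- not hot, one gain small: `D0 x^(-k')` with `k' = kh + 64` -/
theorem one_gain {c : ℝ} (hc : c ≤ 4 ^ 10) : c * pw Lam (kh kp kz) * ix Lam (kh kp kz + 64) ≤ ix Lam 54 :=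
  fin2 hL (pw_pos hL _).le (CT.cst hL 10 hc) le_rfl (by omega)

/-- `C_B del1` times the hot mass -/
theorem del_hot {c S : ℝ} {k C : ℕ} (hc : c ≤ 4 ^ 10) (hS0 : 0 ≤ S) (hS : S ≤ pw Lam C) (hk : kB * k + C + 54 ≤ kdl) :
    c * pw Lam kB ^ k * S * ix Lam kdl ≤ ix Lam 44 := by
  have e : pw Lam kB ^ k = pw Lam (kB * k) := (pw_mul _ _ _).symm
  rw [e]
  exact fin3 hL (pw_pos hL _).le hS0 (CT.cst hL 10 hc) le_rfl hS (by omega)

/-- `C_B (3 / D0)^(1/2)` times gains -/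
theorem inv_hot {c G : ℝ} {k : ℕ} (hc : c ≤ 4 ^ 10) (hG0 : 0 ≤ G) (hG : G ≤ pw Lam 8) (hk : k ≤ 100) :
    c * pw Lam kB ^ k * G * Real.sqrt (3 / pw Lam (kh kp kz)) ≤ ix Lam 44 := by
  have e : pw Lam kB ^ k = pw Lam (kB * k) := (pw_mul _ _ _).symm
  have h2 := (rH kp kz).ord
  have h3 : (rH kp kz).q = 16 * ((rH kp kz).mu + (rH kp kz).m1 + (rH kp kz).kL + 32) := rfl
  have h4 : (rH kp kz).kg = kgH := rfl
  have h5 : kgH = 4020 := rfl
  have h6 : (rH kp kz).kz = kz := rfl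
  have hk' : kB * k ≤ 16000 := by unfold kB; omega
  have hq : 2 * 20000 ≤ kh kp kz := by
    have h7 : (rH kp kz).mu = (rH kp kz).lm + 2 * (rH kp kz).g0 + (rH kp kz).kL + (rH kp kz).T + 64 := rfl
    have h8 : (rH kp kz).T = (rH kp kz).km + (rH kp kz).uB + 4 := rfl
    have h9 : (rH kp kz).uB = 2 * (rH kp kz).sB := rfl
    have h10 : (rH kp kz).q + 64 = kh kp kz := rfl
    omega
  have s1 : Real.sqrt (3 / pw Lam (kh kp kz)) ≤ ix Lam 19999 := by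
    have s2 : 3 / pw Lam (kh kp kz) ≤ ix Lam (2 * 19999) := by
      rw [div_eq_mul_inv]
      exact fin hL (CT.cst hL 1 (c := 3) (by norm_num)) (k := kh kp kz) (by omega)
    exact (Real.sqrt_le_sqrt s2).trans (le_of_eq (sqrt_ix hL _))
  rw [e]
  have hc0 : 0 ≤ c ∨ c < 0 := le_or_gt 0 c
  rcases hc0 with hc0 | hc0
  · have h1 : 0 ≤ c * pw Lam (kB * k) * G := mul_nonneg (mul_nonneg hc0 (pw_pos hL _).le) hG0
    refine (mul_le_mul_of_nonneg_left s1 h1).trans ?_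
    exact fin3 hL (pw_pos hL _).le hG0 (CT.cst hL 10 hc) le_rfl hG (by omega)
  · have h1 : c * pw Lam (kB * k) * G ≤ 0 :=
      mul_nonpos_of_nonpos_of_nonneg (mul_nonpos_of_nonpos_of_nonneg hc0.le (pw_pos hL _).le) hG0
    exact (mul_nonpos_of_nonpos_of_nonneg h1 (Real.sqrt_nonneg _)).trans (ix_nn hL _)

/-- quiet steps: `kappa GA(del1)`, `kappa = x^(-kka)` -/
theorem quiet1 {c : ℝ} (hc : c ≤ 4 ^ 6) : c * Lam / ix Lam kdl ^ 2 * ix Lam kka ≤ ix Lam 900 :=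
  fin hL (kgH_le hL hc) (by unfold kgH kdl kka; norm_num)

/-- not quiet and sparse: `u GA(del1) / kappa^2`, `u = u_B` of HOT -/
theorem quiet2 {c : ℝ} (hc : c ≤ 4 ^ 6) (hkp : 5000 ≤ kp) :
    c * Lam / ix Lam kdl ^ 2 * pw Lam kka ^ 2 * ix Lam (rH kp kz).uB ≤ ix Lam 900 := by
  have e : pw Lam kka ^ 2 = pw Lam (kka * 2) := (pw_mul _ _ _).symm
  have h9 : (rH kp kz).uB = 2 * ((rH kp kz).kL + (rH kp kz).kg + (rH kp kz).lm + 64) := rfl
  have h4 : (rH kp kz).kg = kgH := rfl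
  rw [e]
  refine fin2 hL (pw_pos hL _).le (kgH_le hL hc) le_rfl ?_
  have h5 : kgH = 4020 := by norm_num [kgH, kdl]
  have h6 : kka * 2 = 10000 := by norm_num [kka]
  rw [h9, h4, h5, h6]
  have h7 : 0 ≤ (rH kp kz).kL := Nat.zero_le _
  have h8 : (rH kp kz).lm = kp + 64 := rfl
  rw [h8]
  omega

omit hL in
/-- with `kp = kz = 5000` the value `kd = 10^8` is large enough -/
theorem kdH_le : kdH 5000 5000 ≤ 100000000 := by
  unfold kdH kh rH Rd.q Rd.m1 Rd.Z Rd.u0 Rd.uc Rd.TC Rd.kf Rd.mu Rd.g0 Rd.T Rd.uB Rd.sB Rd.lm kL kgH kdl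
  norm_num

omit hL in
/-- **THE ROUNDS `Rc` ARE BEHIND THE KIND HOT** -/
theorem Rc_hot : 4 * kh 5000 5000 + 4000 ≤ Rc.kd := kdH_le

omit hL in
/-- any rounds behind HOT -/
theorem gH_ord (c : Rounds) {K : ℕ} (hc : 4 * K + 4000 ≤ c.kd) : kd ≤ c.kd ∧
    80 * (4 * K + 4000) ≤ c.eta1 ∧ 80 * (4 * K + 4000) ≤ c.R0.uB ∧ 80 * (4 * K + 4000) ≤ c.G.q := by
  have h1 := rounds_big c
  have h2 : c.R0.uB = 2 * c.R0.sB := rfl
  have h3 := c.R0.ord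
  have e3 : c.R0.km = c.kp + 2 * c.eta1 + 4 := rfl
  unfold kd
  omega

/-- `D0` against `eta_1`, any rounds -/
theorem gH_e1 (r : Rounds) {K : ℕ} (hr : 4 * K + 4000 ≤ r.kd) {c : ℝ} (hc : c ≤ 4 ^ 10) :
    c * pw Lam K ^ 3 * ix Lam r.eta1 ≤ ix Lam (20 * kd) := by
  have h := gH_ord r hr
  have e : pw Lam K ^ 3 = pw Lam (K * 3) := (pw_mul _ _ _).symm
  rw [e]
  exact fin2 hL (pw_pos hL _).le (CT.cst hL 10 hc) le_rfl (by unfold kd; omega)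

/-- `D0` against `u_B` of `R0`, any rounds -/
theorem gH_uB (r : Rounds) {K : ℕ} (hr : 4 * K + 4000 ≤ r.kd) {c : ℝ} (hc : c ≤ 4 ^ 10) :
    c * pw Lam K ^ 3 * ix Lam r.R0.uB ≤ ix Lam (20 * kd) := by
  have h := gH_ord r hr
  have e : pw Lam K ^ 3 = pw Lam (K * 3) := (pw_mul _ _ _).symm
  rw [e]
  exact fin2 hL (pw_pos hL _).le (CT.cst hL 10 hc) le_rfl (by unfold kd; omega)

/-- both gains at least `x^(-k')`, `k' = K + 64`, any rounds -/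
theorem gH_two (r : Rounds) {K : ℕ} (hr : 4 * K + 4000 ≤ r.kd) {c : ℝ} (hc : c ≤ 4 ^ 10) :
    c * Lam * pw Lam (2 * (K + 64)) * pw Lam K * ix Lam r.eta1 ≤ ix Lam (10 * kd) := by
  have h := gH_ord r hr
  exact fin4 hL (by linarith : (0 : ℝ) ≤ Lam) (pw_pos hL (2 * (K + 64))).le (pw_pos hL K).le
    (CT.cst hL 10 hc) (Lam_le hL) (le_refl (pw Lam (2 * (K + 64)))) (le_refl (pw Lam K))
    (k := r.eta1) (s := 10 * kd) (by unfold kd; omega)

/-- `D0` against `eta_1` of `Rc` -/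
theorem Rc_e1 {c : ℝ} (hc : c ≤ 4 ^ 10) : c * pw Lam (kh 5000 5000) ^ 3 * ix Lam Rc.eta1 ≤ ix Lam (20 * kd) :=
  gH_e1 hL Rc Rc_hot hc

/-- `D0` against `u_B` of the round `R0` of `Rc` -/
theorem Rc_uB {c : ℝ} (hc : c ≤ 4 ^ 10) : c * pw Lam (kh 5000 5000) ^ 3 * ix Lam Rc.R0.uB ≤ ix Lam (20 * kd) :=
  gH_uB hL Rc Rc_hot hc

/-- both gains at least `x^(-k')` against `eta_1` of `Rc` -/
theorem Rc_two {c : ℝ} (hc : c ≤ 4 ^ 10) :
    c * Lam * pw Lam (2 * (kh 5000 5000 + 64)) * pw Lam (kh 5000 5000) * ix Lam Rc.eta1 ≤ ix Lam (10 * kd) :=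
  gH_two hL Rc Rc_hot hc

end

end Pool.Agent.GMH.CTK
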