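import Pool.Agent.GMH.ConTM
import Pool.Agent.GMH.ConTH

/-!
# GMH/ConEF: the threshold `e_F = n^(-2) x^(-300)` of the hot values (A5 CON, helper76; request of helper12, 52243)

* `eFn_ix` : `e_F ≤ x^(-k)` for every `k` (so `2 e_2 + 4 e_F ≤ x^(-3900)` : `e2F_le`, and `e_F ≤ x^(-q)`);
* `eFn_nL`, `eFn_n2` : `c n Lam e_F ≤ x^(-(c0 + 293))`, `c (n Lam)^2 e_F ≤ x^(-292)`;
* `eFn_z` : everything below `exp (- pe/2)` times any power of `N1`, `n`, `exp Lam` is below `e_F`; `eFn_d` : the conditions on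
  `d1`, `d0`;
* `eFn_N`, `eFn_sq`, `eFn_X` : `(X + 1) / (N1 e_F^2)`, `√((X + 1)/N1) / e_F` for `X ≤ x^(cXF + K)`;
* `eFn_pQ` : `4^20 pQ^2 ≤ N1 e_F^2 x^(-(20 c0 + K))` (rarity at the clocks).
-/

set_option autoImplicit false
set_option linter.unusedSectionVars false

namespace Pool.Agent.GMH.CTK

open Pool.Agent.GMH Pool.Agent.GMH.V3 Pool.Agent.GMH.CT Pool.Agent.GMH.CTM Pool.Agent.GMH.MVN

noncomputable section

/-- `e_F = n^(-2) x^(-300)` -/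
def eFn (Lam : ℝ) (c0 : ℕ) : ℝ := ix Lam (2 * c0 + 300)

theorem eFn_ix (k : ℕ) : CTM.Ev (fun c0 Lam => eFn Lam c0 ≤ ix Lam k) :=
  (CTM.Ev.ge k).mono fun c0 Lam hL h => ix_anti hL (by omega)

/-- `2 e_2 + 4 e_F` -/
theorem e2F_le {Lam e2 eF : ℝ} (hL : 2 ≤ Lam) {k : ℕ} (h2 : e2 ≤ ix Lam (k + 3)) (hF : eF ≤ ix Lam (k + 3)) :
    2 * e2 + 4 * eF ≤ ix Lam k := by
  have h3 := cst_ix hL (c := 6) (j := 3) (s := k) (by norm_num)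
  rw [add_comm 3 k] at h3
  linarith

section basic

variable {Lam : ℝ} (hL : 2 ≤ Lam)

include hL

theorem eFn_pos (c0 : ℕ) : 0 < eFn Lam c0 := ix_pos hL _

theorem eFn_le1 (c0 : ℕ) : eFn Lam c0 ≤ 1 := ix_le_one hL _

theorem nL_le (c0 : ℕ) : pw Lam c0 * Lam ≤ pw Lam (c0 + 1) :=
  mul_pw hL (by linarith) le_rfl (Lam_le hL)

theorem nL_nn (c0 : ℕ) : 0 ≤ pw Lam c0 * Lam := mul_nonneg (CT.pw_pos hL _).le (by linarith)

theorem eFn_nL (c0 : ℕ) {c : ℝ} (hc : c ≤ 4 ^ 6) : c * (pw Lam c0 * Lam) * eFn Lam c0 ≤ ix Lam (c0 + 293) :=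
  fin2 hL (nL_nn hL c0) (CT.cst hL 6 hc) (nL_le hL c0) (by omega)

theorem eFn_n2 (c0 : ℕ) {c : ℝ} (hc : c ≤ 4 ^ 6) : c * (pw Lam c0 * Lam) ^ 2 * eFn Lam c0 ≤ ix Lam 292 := by
  have h1 : (pw Lam c0 * Lam) ^ 2 ≤ pw Lam ((c0 + 1) * 2) := by
    rw [CT.pw_mul]
    exact pow_le_pow_left₀ (nL_nn hL c0) (nL_le hL c0) 2
  exact fin2 hL (sq_nonneg _) (CT.cst hL 6 hc) h1 (by omega)

end basic

/-- everything below `exp (- pe/2)` -/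
theorem eFn_z (A ka K : ℕ) : CTM.Ev (fun c0 Lam => ∀ y : ℝ, 0 ≤ y → y ≤ Real.exp (-(pe Lam ka c0 / 2)) →
    Real.exp (K * Lam) * pw Lam (K * (c1F A c0 + c0)) * y ≤ eFn Lam c0 ∧
    Real.exp (K * Lam) * pw Lam (K * (c1F A c0 + c0)) * y ≤ (pw Lam (K * (c1F A c0 + c0)))⁻¹) := by
  refine (scales A ka (8 * K + 700)).mono fun c0 Lam hL ⟨h1, _, _, h4⟩ y hy0 hy => ?_
  have o := one_ell hL A c0
  have l := Lam_ell hL A (c0 := c0) (by omega)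
  have a1 : pw Lam (K * (c1F A c0 + c0)) ≤ Real.exp (K * ell Lam A c0) := pw_ell hL A c0 le_rfl
  have a2 : Real.exp (K * Lam) ≤ Real.exp (K * ell Lam A c0) :=
    leE (mul_le_mul_of_nonneg_left l (Nat.cast_nonneg K))
  have a3 := mulE hy0 (mulE (CT.pw_pos hL _).le a2 a1) hy
  have hK : (0 : ℝ) ≤ K := Nat.cast_nonneg K
  push_cast at h1
  have hK' : 0 ≤ (K : ℝ) * ell Lam A c0 := mul_nonneg hK (by linarith)
  constructor
  · refine a3.trans (le_trans (leE ?_) (inv_ell hL A c0 (a := 2 * c0 + 300) (k := 302) (by omega)))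
    push_cast
    nlinarith
  · refine a3.trans (le_trans (leE ?_) (inv_ell hL A c0 (a := K * (c1F A c0 + c0)) (k := K) le_rfl))
    nlinarith

theorem d1_z {Lam : ℝ} (hL : 2 ≤ Lam) (ka c0 : ℕ) : d1 Lam ka c0 ≤ Real.exp (-(pe Lam ka c0 / 2)) := by
  have p := pe_pos hL ka c0
  exact leE (by linarith)

theorem kb_z {Lam : ℝ} (hL : 2 ≤ Lam) (ka c0 : ℕ) : kb Lam ka c0 ≤ Real.exp (-(pe Lam ka c0 / 2)) := by
  have p := pe_pos hL ka c0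
  exact leE (by linarith)

theorem d0_z {Lam : ℝ} (hL : 2 ≤ Lam) (ka : ℕ) {c0 : ℕ} (hc : 1 ≤ c0) : d0 Lam c0 ≤ Real.exp (-(pe Lam ka c0 / 2)) := by
  have p := pe_pos hL ka c0
  have q := pQ_big hL ka hc
  exact leE (by linarith)

theorem z_z {Lam : ℝ} (ka c0 : ℕ) : z Lam ka c0 ≤ Real.exp (-(pe Lam ka c0 / 2)) := le_rfl

/-- **the conditions on `d1`, `d0`** (`c` any constant up to `4^20`) -/
theorem eFn_d (A ka : ℕ) : CTM.Ev (fun c0 Lam => 4 ^ 20 * d1 Lam ka c0 ≤ eFn Lam c0 ∧ 4 ^ 20 * d0 Lam c0 ≤ eFn Lam c0 ∧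
    4 ^ 20 * kb Lam ka c0 ≤ eFn Lam c0 ∧
    12 * (4 * d1 Lam ka c0 + 4 * d0 Lam c0) ≤ 2 * eFn Lam c0 ∧ 48 * d0 Lam c0 < eFn Lam c0 / 2) := by
  refine ((eFn_z A ka 20).and (CTM.Ev.ge 1)).mono fun c0 Lam hL ⟨h, hc⟩ => ?_
  have b : ∀ y : ℝ, 0 ≤ y → y ≤ Real.exp (-(pe Lam ka c0 / 2)) → 4 ^ 20 * y ≤ eFn Lam c0 := by
    intro y hy0 hy
    refine le_trans ?_ (h y hy0 hy).1
    refine mul_le_mul_of_nonneg_right ?_ hy0
    have e1 : (1 : ℝ) ≤ Real.exp ((20 : ℕ) * Lam) := Real.one_le_exp (by push_cast; linarith)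
    have e2 : (4 : ℝ) ^ 20 ≤ pw Lam (20 * (c1F A c0 + c0)) := (CT.pw_ge hL 20).trans (CT.pw_mono hL (by omega))
    have e3 := (CT.pw_pos hL (20 * (c1F A c0 + c0)))
    nlinarith
  have b1 := b _ (Real.exp_pos _).le (d1_z hL ka c0)
  have b0 := b _ (Real.exp_pos _).le (d0_z hL ka hc)
  have bk := b _ (Real.exp_pos _).le (kb_z hL ka c0)
  have ef := eFn_pos hL c0
  have p1 : 0 < d1 Lam ka c0 := Real.exp_pos _
  have p0 : 0 < d0 Lam c0 := Real.exp_pos _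
  have c1 : 48 * d1 Lam ka c0 ≤ eFn Lam c0 := (mul_le_mul_of_nonneg_right (by norm_num) p1.le).trans b1
  have c0' : 480 * d0 Lam c0 ≤ eFn Lam c0 := (mul_le_mul_of_nonneg_right (by norm_num) p0.le).trans b0
  exact ⟨b1, b0, bk, by linarith, by linarith⟩

/-- numerators over `N1` : `u ≤ x^(50 c0 + 4 A + K)` -/
theorem c1_room {A : ℕ} (hA : 80 ≤ A) {c0 K : ℕ} (h : K + 700 ≤ c0) :
    50 * c0 + 4 * A + 4 * K + 1000 + (60 * c0) ≤ c1F A c0 := by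
  unfold c1F
  have h1 : 80 * 80 ≤ A * A := Nat.mul_le_mul hA hA
  have h2 : 80 * A ≤ A * A := Nat.mul_le_mul_right A hA
  have h3 : 80 * 80 * c0 ≤ A * A * c0 := Nat.mul_le_mul_right c0 h1
  rw [mul_add, mul_one]
  omega

theorem eFn_sq' (Lam : ℝ) (c0 : ℕ) : eFn Lam c0 ^ 2 = ix Lam (4 * c0 + 600) := by
  unfold eFn
  rw [← ix_mul]
  exact congrArg (ix Lam) (by ring)

/-- **`(X + 1) / (N1 e_F^2)`** : any numerator up to `x^(20 c0 + 4 A + K)` -/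
theorem eFn_X {A : ℕ} (hA : 80 ≤ A) (K : ℕ) : CTM.Ev (fun c0 Lam => ∀ u : ℝ, u ≤ pw Lam (20 * c0 + 4 * A + K) →
    u / (pw Lam (c1F A c0) * eFn Lam c0 ^ 2) ≤ ix Lam (60 * c0 + K) ∧
    u / (pw Lam (c1F A c0) * eFn Lam c0) ≤ ix Lam (60 * c0 + K) ∧
    u / pw Lam (c1F A c0) ≤ ix Lam (60 * c0 + K)) := by
  refine (CTM.Ev.ge (K + 700)).mono fun c0 Lam hL hc u hu => ?_
  have hr := c1_room hA hc
  have N0 := CT.pw_pos hL (c1F A c0)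
  have key : ∀ m : ℕ, m ≤ 4 * c0 + 600 → u / (pw Lam (c1F A c0) * ix Lam m) ≤ ix Lam (60 * c0 + K) := by
    intro m hm
    have i0 := ix_pos hL m
    have e : u / (pw Lam (c1F A c0) * ix Lam m) = (u * pw Lam m) * ix Lam (c1F A c0) := by
      rw [div_eq_mul_inv, mul_inv, inv_ix hL]
      unfold ix
      ring
    rw [e]
    exact fin hL (mul_pw hL (CT.pw_pos hL m).le hu le_rfl) (by omega)
  refine ⟨?_, ?_, ?_⟩
  · rw [eFn_sq']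
    exact key _ le_rfl
  · exact key _ (by omega)
  · have := key 0 (by omega)
    rwa [ix_zero, mul_one] at this

/-- **the private part** : `4^10 (n Lam)^3 (X + 1) / (N1 e_F^2)` for `X ≤ x^(cXF + K)` -/
theorem eFn_N {A : ℕ} (hA : 80 ≤ A) (K : ℕ) : CTM.Ev (fun c0 Lam => ∀ X c : ℝ, 0 ≤ X → X ≤ pw Lam (cXF A c0 + K) → 0 ≤ c → c ≤ 4 ^ 10 →
    c * (pw Lam c0 * Lam) ^ 3 * (X + 1) / (pw Lam (c1F A c0) * eFn Lam c0 ^ 2) ≤ ix Lam (50 * c0 + K)) := by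
  refine ((eFn_X hA (K + 20)).and (CTM.Ev.ge 1)).mono fun c0 Lam hL ⟨h, hc⟩ X c hX0 hX hc0 hc1 => ?_
  have h1 : (pw Lam c0 * Lam) ^ 3 ≤ pw Lam ((c0 + 1) * 3) := by
    rw [CT.pw_mul]
    exact pow_le_pow_left₀ (nL_nn hL c0) (nL_le hL c0) 3
  have h2 : X + 1 ≤ pw Lam (cXF A c0 + K + 1) := add_pw hL hX (pw_ge1 hL _)
  have h3 : c * (pw Lam c0 * Lam) ^ 3 * (X + 1) ≤ pw Lam (20 * c0 + 4 * A + (K + 20)) := by
    refine (mul_pw hL (by linarith) (mul_pw hL (pow_nonneg (nL_nn hL c0) 3) (CT.cst hL 10 hc1) h1) h2).trans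
      (CT.pw_mono hL ?_)
    unfold cXF
    omega
  exact ((h _ h3).1).trans (ix_anti hL (by omega))

/-- **square roots** : `√(u / N1) ≤ x^(-(20 c0 + K))` and `√(u / N1) / e_F ≤ x^(-(20 c0 + K))` -/
theorem eFn_sqrt {A : ℕ} (hA : 80 ≤ A) (K : ℕ) : CTM.Ev (fun c0 Lam => ∀ u : ℝ, u ≤ pw Lam (20 * c0 + 4 * A + 2 * K) →
    Real.sqrt (u / pw Lam (c1F A c0)) ≤ ix Lam (30 * c0 + K) ∧
    Real.sqrt (u / pw Lam (c1F A c0)) / eFn Lam c0 ≤ ix Lam (20 * c0 + K)) := by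
  refine ((eFn_X hA (2 * K)).and (CTM.Ev.ge 300)).mono fun c0 Lam hL ⟨h, hc⟩ u hu => ?_
  have h1 := (h u hu).2.2
  have h2 : Real.sqrt (u / pw Lam (c1F A c0)) ≤ ix Lam (30 * c0 + K) := by
    refine (Real.sqrt_le_sqrt h1).trans (le_of_eq ?_)
    rw [show 60 * c0 + 2 * K = 2 * (30 * c0 + K) by ring]
    exact sqrt_ix hL _
  refine ⟨h2, ?_⟩
  unfold eFn
  rw [div_ix hL]
  refine (mul_le_mul_of_nonneg_right h2 (CT.pw_pos hL _).le).trans ?_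
  rw [mul_comm]
  exact fin hL le_rfl (by omega)

/-- **rarity at the clocks** -/
theorem eFn_pQ {A : ℕ} (hA : 80 ≤ A) (K : ℕ) : CTM.Ev (fun c0 Lam =>
    4 ^ 20 * pQ Lam c0 ^ 2 ≤ pw Lam (c1F A c0) * eFn Lam c0 ^ 2 * ix Lam (20 * c0 + K) ∧
    (∀ u : ℝ, u ≤ pw Lam (20 * c0 + K) → 0 < u → Real.exp (-(pw Lam (c1F A c0) * eFn Lam c0 ^ 2 / u)) ≤
      Real.exp (-(4 ^ 20 * pQ Lam c0 ^ 2)))) := by
  refine (CTM.Ev.ge (K + 700)).mono fun c0 Lam hL hc => ?_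
  have hr := c1_room hA hc
  have N0 := CT.pw_pos hL (c1F A c0)
  obtain ⟨m, hm⟩ : ∃ m, c1F A c0 = m + (4 * c0 + 600 + (20 * c0 + K)) := ⟨c1F A c0 - (24 * c0 + 600 + K), by omega⟩
  have e : pw Lam (c1F A c0) * eFn Lam c0 ^ 2 * ix Lam (20 * c0 + K) = pw Lam m := by
    rw [eFn_sq', mul_assoc, ← ix_add, hm, CT.pw_add, mul_assoc, CT.pw_ix hL, mul_one]
  have hh : 4 ^ 20 * pQ Lam c0 ^ 2 ≤ pw Lam (c1F A c0) * eFn Lam c0 ^ 2 * ix Lam (20 * c0 + K) := by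
    rw [e, pQ_sq]
    exact (mul_pw hL (CT.pw_pos hL _).le (CT.pw_ge hL 20) le_rfl).trans (CT.pw_mono hL (by omega))
  refine ⟨hh, fun u hu hu0 => leE (neg_le_neg ?_)⟩
  refine hh.trans ?_
  rw [div_eq_mul_inv]
  exact mul_le_mul_of_nonneg_left (inv_anti₀ hu0 hu) (mul_nonneg N0.le (sq_nonneg _))

end

end Pool.Agent.GMH.CTK
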