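import Pool.Agent.GMH.ConT2

/-!
# GMH/ConTK: the numbers of the statics (A5 CON, helper76)

Order of choice (all absolute): `B = x^kB`, activity `1 + ea`, `ea = x^(-ke)`, cut `eta = x^(-ke)`, cost of a measure `x^kL`,
activity sum `x^kg`, `dH = x^(-kd)`; `e3`, `e2`, `e1` come from the rounds.
* `kg_le`, `kL_le`, `B_ge` : the data of `Rounds`;
* `c1_le`, `c2_le`, `gn_le` : the coefficient of the gains in `key3r` / `key3h`;
* `gd_le`, `gdt_le` : the terms with `Gd` and `√(8 Gd Dt)`.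
-/

set_option autoImplicit false
set_option linter.unusedSectionVars false

namespace Pool.Agent.GMH.CTK

open Pool.Agent.GMH Pool.Agent.GMH.V3 Pool.Agent.GMH.CT

noncomputable section

/-- `B = x^kB` -/
def kB : ℕ := 160
/-- `ea = eta = x^(-ke)` -/
def ke : ℕ := 24
/-- `3 Lam + log 1/eta ≤ x^kL` -/
def kL : ℕ := 4
/-- `GA ≤ x^kg` -/
def kg : ℕ := 60
/-- `dH = x^(-kd)` -/
def kd : ℕ := 4000

variable {Lam : ℝ} (hL : 2 ≤ Lam)

include hL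

/-- the strong letters -/
theorem B_ge : Real.exp 2 ≤ pw Lam kB := by
  have h1 : Real.exp 2 < 7.4 := by
    have h1 := Real.exp_one_lt_d9
    have h2 : Real.exp 2 = Real.exp 1 * Real.exp 1 := by rw [← Real.exp_add]; norm_num
    rw [h2]
    have := Real.exp_pos 1
    nlinarith
  have h2 : (4 : ℝ) ^ 2 ≤ pw Lam 2 := pw_ge hL 2
  have h3 : pw Lam 2 ≤ pw Lam kB := pw_mono hL (by unfold kB; norm_num)
  norm_num at h2
  linarith

/-- the cost of a measure -/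
theorem kL_le : 3 * Lam + Real.log (1 / ix Lam ke) ≤ pw Lam kL := CT.cost_le hL ke (j := 3) (by unfold ke; norm_num)

/-- the activity sum: three tops, three forms -/
theorem kg_le {c : ℝ} (hc : c ≤ 4 ^ 6) : c * Lam / ix Lam ke ^ 2 ≤ pw Lam kg := by
  have e : ix Lam ke ^ 2 = ix Lam (2 * ke) := by
    rw [mul_comm, ix_mul]
  rw [e, div_ix hL]
  have h1 := mul_pw hL (pw_pos hL (2 * ke)).le (cLam hL 6 hc) le_rfl
  exact h1.trans (pw_mono hL (by unfold kg ke; norm_num))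

/-- `x^a x^(-b) ≤ x^(-s)` with a constant -/
theorem mul_ix_le {u y : ℝ} {a b s : ℕ} (hu0 : 0 ≤ u) (hu : u ≤ pw Lam a) (hy : y ≤ ix Lam b) (h : a + s ≤ b) :
    u * y ≤ ix Lam s := (mul_le_mul_of_nonneg_left hy hu0).trans (fin hL hu h)

/-- the coefficient of the gains -/
theorem gn_le {d dd eps G : ℝ} (hd : 0 ≤ d) (hd1 : d ≤ ix Lam 3900) (hdd : 0 ≤ dd) (hdd1 : dd ≤ ix Lam 3900)
    (he : 0 ≤ eps) (he1 : eps ≤ ix Lam 520) (hG0 : 0 ≤ G) (hG : G ≤ 6 * Lam) :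
    (((1 + ix Lam ke) ^ 2 - 1 + ix Lam ke + (pw Lam kB ^ 2 * dd + d)) +
      ((1 + ix Lam ke) ^ 2 + (pw Lam kB ^ 2 * dd + 1)) * d +
      (4 + 2 * pw Lam kB + pw Lam kB * dd) * (pw Lam kB ^ 2 * eps) + 2 * (pw Lam kB ^ 2 * dd)) * G ≤ ix Lam 20 := by
  have x0 := ix_pos hL ke
  have x1 := ix_le_one hL ke
  have b0 := pw_pos hL kB
  have b1 := pw_ge1 hL kB
  have y0 := ix_pos hL 24
  have d1 : d ≤ ix Lam 28 := hd1.trans (ix_anti hL (by norm_num))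
  have e1 : pw Lam kB ^ 2 = pw Lam 320 := by
    rw [← pw_mul]
    rfl
  have t1 : pw Lam kB ^ 2 * dd ≤ ix Lam 28 := by
    rw [e1]
    exact mul_ix_le hL (pw_pos hL _).le le_rfl hdd1 (by norm_num)
  have t2 : 4 + 2 * pw Lam kB + pw Lam kB * dd ≤ pw Lam 162 := by
    have h1 : dd ≤ 1 := hdd1.trans (ix_le_one hL _)
    have h2 : pw Lam kB * dd ≤ pw Lam kB := mul_le_of_le_one_right b0.le h1
    have h3 : pw Lam 162 = pw Lam kB * pw Lam 2 := by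
      rw [← pw_add]
      rfl
    have h4 : (16 : ℝ) ≤ pw Lam 2 := by
      have := pw_ge hL 2
      norm_num at this
      exact this
    rw [h3]
    nlinarith
  have t3 : (4 + 2 * pw Lam kB + pw Lam kB * dd) * (pw Lam kB ^ 2 * eps) ≤ ix Lam 28 := by
    have h1 : pw Lam kB ^ 2 * eps ≤ pw Lam 320 * ix Lam 520 := by
      rw [e1]
      exact mul_le_mul_of_nonneg_left he1 (pw_pos hL _).le
    have h0 : 0 ≤ pw Lam kB ^ 2 * eps := mul_nonneg (sq_nonneg _) he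
    calc (4 + 2 * pw Lam kB + pw Lam kB * dd) * (pw Lam kB ^ 2 * eps) ≤ pw Lam 162 * (pw Lam 320 * ix Lam 520) :=
          mul_le_mul t2 h1 h0 (pw_pos hL _).le
      _ = pw Lam 162 * pw Lam 320 * ix Lam 520 := by ring
      _ ≤ ix Lam 28 := fin hL (mul_pw hL (pw_pos hL _).le le_rfl le_rfl) (by norm_num)
  have t4 : (1 + ix Lam ke) ^ 2 + (pw Lam kB ^ 2 * dd + 1) ≤ 6 := by
    have := ix_le_one hL 28
    nlinarith
  have t5 : ((1 + ix Lam ke) ^ 2 + (pw Lam kB ^ 2 * dd + 1)) * d ≤ 6 * ix Lam 28 :=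
    mul_le_mul t4 d1 hd (by norm_num)
  have t6 : 16 * ix Lam 28 ≤ ix Lam 24 := by
    have h1 := cst_ix hL (c := 16) (j := 2) (s := 26) (by norm_num)
    exact h1.trans (ix_anti hL (by norm_num))
  have e24 : ix Lam ke = ix Lam 24 := rfl
  have t7 : ((1 + ix Lam ke) ^ 2 - 1 + ix Lam ke + (pw Lam kB ^ 2 * dd + d)) +
      ((1 + ix Lam ke) ^ 2 + (pw Lam kB ^ 2 * dd + 1)) * d +
      (4 + 2 * pw Lam kB + pw Lam kB * dd) * (pw Lam kB ^ 2 * eps) + 2 * (pw Lam kB ^ 2 * dd) ≤ 6 * ix Lam 24 := by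
    have h1 : ix Lam ke * ix Lam ke ≤ ix Lam ke := mul_le_of_le_one_left x0.le x1
    rw [e24] at *
    nlinarith
  have h8 : 0 ≤ 6 * ix Lam 24 := by positivity
  calc _ ≤ (6 * ix Lam 24) * G := mul_le_mul_of_nonneg_right t7 hG0
    _ ≤ (6 * ix Lam 24) * (6 * Lam) := mul_le_mul_of_nonneg_left hG h8
    _ = 36 * Lam * ix Lam 24 := by ring
    _ ≤ ix Lam 20 := fin hL (cLam hL 3 (c := 36) (by norm_num)) (by norm_num)

/-- the term with `Gd` -/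
theorem gd_le {dd S : ℝ} (hdd : 0 ≤ dd) (hdd1 : dd ≤ ix Lam 3900) (hS0 : 0 ≤ S) (hS : S ≤ ix Lam 200) :
    (((1 + ix Lam ke) ^ 2 + (pw Lam kB ^ 2 * dd + 1)) * pw Lam kB + 1) * S ≤ ix Lam 30 := by
  have x0 := ix_pos hL ke
  have x1 := ix_le_one hL ke
  have b0 := pw_pos hL kB
  have b1 := pw_ge1 hL kB
  have e1 : pw Lam kB ^ 2 = pw Lam 320 := by
    rw [← pw_mul]
    rfl
  have t1 : pw Lam kB ^ 2 * dd ≤ 1 := by
    rw [e1]
    exact (mul_ix_le hL (pw_pos hL _).le le_rfl hdd1 (s := 28) (by norm_num)).trans (ix_le_one hL _)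
  have t4 : (1 + ix Lam ke) ^ 2 + (pw Lam kB ^ 2 * dd + 1) ≤ 6 := by nlinarith
  have t5 : ((1 + ix Lam ke) ^ 2 + (pw Lam kB ^ 2 * dd + 1)) * pw Lam kB + 1 ≤ pw Lam 162 := by
    have h3 : pw Lam 162 = pw Lam kB * pw Lam 2 := by
      rw [← pw_add]
      rfl
    have h4 : (16 : ℝ) ≤ pw Lam 2 := by
      have := pw_ge hL 2
      norm_num at this
      exact this
    rw [h3]
    nlinarith
  calc _ ≤ pw Lam 162 * S := mul_le_mul_of_nonneg_right t5 hS0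
    _ ≤ ix Lam 30 := mul_ix_le hL (pw_pos hL _).le le_rfl hS (by norm_num)

/-- the terms with `√(8 Gd Dt)`, summed by Cauchy - Schwarz -/
theorem gdt_le {ι : Type*} (s : Finset ι) (Gd Dt : ι → ℝ) (hG : ∀ i ∈ s, 0 ≤ Gd i) (hD : ∀ i ∈ s, 0 ≤ Dt i) {S N : ℝ}
    (hS : ∑ i ∈ s, Gd i ≤ S) (hN : ∑ i ∈ s, Dt i ≤ N) :
    ∑ i ∈ s, Real.sqrt (8 * (Gd i * Dt i)) ≤ Real.sqrt (8 * (S * N)) := by
  have h1 : ∀ i ∈ s, Real.sqrt (8 * (Gd i * Dt i)) = Real.sqrt 8 * (Real.sqrt (Gd i) * Real.sqrt (Dt i)) := by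
    intro i hi
    rw [Real.sqrt_mul (by norm_num), Real.sqrt_mul (hG i hi)]
  rw [Finset.sum_congr rfl h1, ← Finset.mul_sum, Real.sqrt_mul (by norm_num)]
  refine mul_le_mul_of_nonneg_left ?_ (Real.sqrt_nonneg _)
  have h2 := Finset.sum_mul_sq_le_sq_mul_sq s (fun i => Real.sqrt (Gd i)) (fun i => Real.sqrt (Dt i))
  have h3 : ∑ i ∈ s, Real.sqrt (Gd i) ^ 2 = ∑ i ∈ s, Gd i := Finset.sum_congr rfl fun i hi => Real.sq_sqrt (hG i hi)
  have h4 : ∑ i ∈ s, Real.sqrt (Dt i) ^ 2 = ∑ i ∈ s, Dt i := Finset.sum_congr rfl fun i hi => Real.sq_sqrt (hD i hi)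
  rw [h3, h4] at h2
  refine Real.le_sqrt_of_sq_le (h2.trans ?_)
  exact mul_le_mul hS hN (Finset.sum_nonneg hD) ((Finset.sum_nonneg hG).trans hS)

end

/-! ## the exponents of the rounds are large -/

/-- one round -/
theorem rd_big (r : Rd) : 40 * r.km ≤ r.q ∧ r.km ≤ r.lm := by
  unfold Rd.q Rd.m1 Rd.Z Rd.u0 Rd.uc Rd.TC Rd.kf Rd.mu Rd.g0 Rd.T Rd.uB Rd.sB Rd.lm
  omega

/-- the class masses and the thresholds after `kd` -/
theorem rounds_big (c : Rounds) : c.kd ≤ c.eta3 ∧ c.kd + c.eta3 ≤ c.eta2 ∧ 80 * c.eta3 ≤ c.H.q ∧ 80 * c.eta2 ≤ c.G.q ∧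
    80 * c.eta3 ≤ c.eta2 ∧ 80 * c.eta2 ≤ c.eta1 ∧ 80 * c.eta1 ≤ c.R0.q := by
  have h1 := rd_big c.H
  have h2 := rd_big c.G
  have h3 := rd_big c.R0
  have e1 : c.H.km = c.kp + 2 * c.eta3 := rfl
  have e2 : c.G.km = c.kp + 2 * c.eta2 := rfl
  have e3 : c.R0.km = c.kp + 2 * c.eta1 + 4 := rfl
  have e4 : c.eta3 = c.kd + c.HT.q := rfl
  have e5 : c.eta2 = c.kd + c.eta3 + c.H.q + 2 := rfl
  have e6 : c.eta1 = c.eta2 + c.G.q + 1 := rfl
  omega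

/-- constants of `(gamma)` : `e^(3 a) q_G`, `eta_1` against `e^(-2 a) th_B^2`, the vertex times of `R0` -/
theorem gam_big {c : Rounds} (h : kd ≤ c.kd) : 20 * kd ≤ c.G.q ∧ 20 * kd ≤ c.eta1 ∧ 20 * kd ≤ c.R0.q ∧ kd ≤ c.eta2 := by
  have := rounds_big c
  omega

end Pool.Agent.GMH.CTK
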