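import Pool.Agent.GMH.ConTM
import Pool.Agent.GMH.ConTK
import Pool.Agent.GMH.RelSum

/-!
# GMH/ConTP: the numbers of the prices (A5 CON, helper76)

* `nsqrt_le` : one sum of square roots;
* `price_num` : the sum of the prices of the removals, `NT` = expected number of decisions, `MT` = expected number of removals:
  `x^ke (Cc NT √((log (MT / NT) + Lam + 1) / n) + K0 exp (-n) MT) ≤ x^(-K)` for every `K`;
* `bit_num` : one bit: `m (2 PD + Cc NT √((log (MT / NT) + (Lam + 1)) / n) + K0 exp (-n) MT) ≤ x^(-40)`;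
* `pr_fam`, `pr_full`, `pr_two`, `pr_one` : the last sums of `FullOK`, `TwoOK`, `OneOK`.
-/

set_option autoImplicit false
set_option linter.unusedSectionVars false

namespace Pool.Agent.GMH.CTP

open Pool.Agent.GMH Pool.Agent.GMH.V3

/-- the two forms of `Ev` -/
theorem ev_of {p : ℕ → ℝ → Prop} (h : CTM.Ev p) : CT.Ev p := by
  obtain ⟨m, h⟩ := h
  exact CT.Ev.of m h

theorem ev_to {p : ℕ → ℝ → Prop} (h : CT.Ev p) : CTM.Ev p := h.ex

/-- `N log (M / N) ≤ N a + 1` for `M ≤ exp a` -/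
theorem nlog_le {N M a : ℝ} (hN : 0 ≤ N) (hM0 : 0 ≤ M) (hM : M ≤ Real.exp a) (ha : 0 ≤ a) :
    N * Real.log (M / N) ≤ N * a + 1 := by
  rcases hN.eq_or_lt with h0 | h0
  · subst h0
    simp
  rcases hM0.eq_or_lt with h1 | h1
  · subst h1
    simp only [zero_div, Real.log_zero, mul_zero]
    positivity
  rw [Real.log_div h1.ne' h0.ne', mul_sub]
  have h2 : Real.log M ≤ a := by
    rw [← Real.log_exp a]
    exact Real.log_le_log h1 hM
  have h3 : -Real.log N ≤ 1 / N - 1 := by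
    rw [← Real.log_inv, inv_eq_one_div]
    exact Real.log_le_sub_one_of_pos (by positivity)
  have h4 : N * (-Real.log N) ≤ N * (1 / N - 1) := mul_le_mul_of_nonneg_left h3 h0.le
  have h5 : N * (1 / N - 1) = 1 - N := by field_simp
  have h6 := mul_le_mul_of_nonneg_left h2 h0.le
  nlinarith

/-- one square root -/
theorem nsqrt_le {N M a b n P : ℝ} (hN : 0 ≤ N) (hNP : N ≤ P) (hP : 1 ≤ P) (hM0 : 0 ≤ M) (hM : M ≤ Real.exp a)
    (ha : 0 ≤ a) (hb : 0 ≤ b) (hn : 0 < n) :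
    N * Real.sqrt ((Real.log (M / N) + b) / n) ≤ Real.sqrt (P ^ 2 * (a + b + 1) / n) := by
  have e : N * Real.sqrt ((Real.log (M / N) + b) / n) = Real.sqrt (N ^ 2 * ((Real.log (M / N) + b) / n)) := by
    rw [Real.sqrt_mul (sq_nonneg N), Real.sqrt_sq hN]
  rw [e]
  refine Real.sqrt_le_sqrt ?_
  rw [← mul_div_assoc]
  refine div_le_div_of_nonneg_right ?_ hn.le
  have h1 := nlog_le hN hM0 hM ha
  have h2 : N ^ 2 * (Real.log (M / N) + b) = N * (N * Real.log (M / N)) + N ^ 2 * b := by ring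
  rw [h2]
  have h3 : N * (N * Real.log (M / N)) ≤ N * (N * a + 1) := mul_le_mul_of_nonneg_left h1 hN
  have h4 : N ^ 2 ≤ P ^ 2 := pow_le_pow_left₀ hN hNP 2
  have h5 : N ≤ P ^ 2 := by nlinarith
  have h6 : N ^ 2 * a ≤ P ^ 2 * a := mul_le_mul_of_nonneg_right h4 ha
  have h7 : N ^ 2 * b ≤ P ^ 2 * b := mul_le_mul_of_nonneg_right h4 hb
  nlinarith

/-- **THE SUM OF THE PRICES** -/
theorem price_num (A kT ke K j : ℕ) : CT.Ev (fun c0 Lam => ∀ Cc K0 NT MT : ℝ, 0 ≤ Cc → Cc ≤ 2 ^ j → 0 ≤ K0 → K0 ≤ 2 ^ j →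
    0 ≤ NT → NT ≤ pw Lam kT → 0 ≤ MT → MT ≤ 100 * (pw Lam c0 * pw Lam (c1F A c0) * Lam) →
    pw Lam ke * (Cc * NT * Real.sqrt ((Real.log (MT / NT) + Lam + 1) / pw Lam c0) +
      K0 * Real.exp (-pw Lam c0) * MT) ≤ (pw Lam K)⁻¹) := by
  set q : ℕ := ke + K + j + 1 with hq
  refine (ev_of ((CTM.ell_pe A (2 * kT + 2 * q) 12).and ((CTM.ell_pe A 0 (9 + j + 1 + ke + K + 2)).and
    (CTM.Ev.ge 1)))).mono fun c0 Lam hL h => ?_
  obtain ⟨h1, h2, hc⟩ := h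
  intro Cc K0 NT MT hC0 hC hK0 hK hN0 hN hM0 hM
  have hl1 := CTM.one_ell hL A c0
  have hMe := CTM.NL_ell hL A hc hM
  have hLe := CTM.Lam_ell hL A hc
  have hp : ∀ k, 0 < pw Lam k := fun k => MVN.pw_pos hL k
  have hn : 0 < pw Lam c0 := hp c0
  have hP1 : (1 : ℝ) ≤ pw Lam kT := by
    unfold pw
    exact one_le_pow₀ (by linarith)
  -- the square root
  have s1 : NT * Real.sqrt ((Real.log (MT / NT) + Lam + 1) / pw Lam c0) ≤ (pw Lam q)⁻¹ := by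
    have s2 := nsqrt_le (b := Lam + 1) hN0 hN hP1 hM0 hMe (by linarith) (by linarith) hn
    rw [← add_assoc] at s2
    refine s2.trans ?_
    have s3 : pw Lam kT ^ 2 * (9 * CTM.ell Lam A c0 + (Lam + 1) + 1) / pw Lam c0 ≤ (pw Lam q)⁻¹ ^ 2 := by
      have e1 : pw Lam kT ^ 2 = pw Lam (2 * kT) := by unfold pw; rw [← pow_mul]; ring_nf
      have e2 : (pw Lam q)⁻¹ ^ 2 = (pw Lam (2 * q))⁻¹ := by unfold pw; rw [inv_pow, ← pow_mul]; ring_nf
      rw [e1, e2, div_le_iff₀ hn]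
      have s4 : 9 * CTM.ell Lam A c0 + (Lam + 1) + 1 ≤ (12 : ℕ) * CTM.ell Lam A c0 := by push_cast; linarith
      have s5 : pw Lam (2 * kT) * (9 * CTM.ell Lam A c0 + (Lam + 1) + 1) ≤
          pw Lam (2 * kT) * MVN.pe Lam (2 * kT + 2 * q) c0 :=
        mul_le_mul_of_nonneg_left (s4.trans h1) (hp _).le
      refine s5.trans (le_of_eq ?_)
      unfold MVN.pe
      rw [MVN.pw_add hL]
      have := (hp (2 * kT)).ne'
      have := (hp (2 * q)).ne'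
      field_simp
    refine (Real.sqrt_le_sqrt s3).trans ?_
    rw [Real.sqrt_sq (inv_nonneg.2 (hp _).le)]
  have hj : (2 : ℝ) ^ j ≤ pw Lam j := by
    unfold pw
    exact pow_le_pow_left₀ (by norm_num) (by linarith) j
  have t1 : pw Lam ke * (Cc * NT * Real.sqrt ((Real.log (MT / NT) + Lam + 1) / pw Lam c0)) ≤ (pw Lam (K + 1))⁻¹ := by
    have t2 : Cc * (NT * Real.sqrt ((Real.log (MT / NT) + Lam + 1) / pw Lam c0)) ≤ pw Lam j * (pw Lam q)⁻¹ :=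
      mul_le_mul (hC.trans hj) s1 (mul_nonneg hN0 (Real.sqrt_nonneg _)) (hp _).le
    have t3 := mul_le_mul_of_nonneg_left t2 (hp ke).le
    rw [← mul_assoc Cc] at t3
    refine t3.trans (le_of_eq ?_)
    have e3 : pw Lam q = pw Lam ke * pw Lam j * pw Lam (K + 1) := by
      rw [← MVN.pw_add hL, ← MVN.pw_add hL]
      congr 1
      omega
    rw [e3]
    have := (hp ke).ne'
    have := (hp j).ne'
    have := (hp (K + 1)).ne'
    field_simp
  have t4 : pw Lam ke * (K0 * Real.exp (-pw Lam c0) * MT) ≤ (pw Lam (K + 1))⁻¹ := by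
    have u1 : K0 ≤ Real.exp (j * CTM.ell Lam A c0) := hK.trans (CTM.cst_ell hL A c0 le_rfl)
    have u2 := CTM.mulE (Real.exp_pos _).le u1 (le_refl (Real.exp (-pw Lam c0)))
    have u3 := CTM.mulE hM0 u2 hMe
    have u4 : pw Lam ke ≤ Real.exp (ke * CTM.ell Lam A c0) :=
      CTM.pw_ell hL A c0 (le_mul_of_one_le_right (Nat.zero_le _) (by omega))
    have u5 := CTM.mulE (mul_nonneg (mul_nonneg hK0 (Real.exp_pos _).le) hM0) u4 u3
    refine u5.trans ?_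
    have u6 := CTM.inv_ell hL A c0 (a := K + 1) (k := K + 1) (le_mul_of_one_le_right (Nat.zero_le _) (by omega))
    refine le_trans (Real.exp_le_exp.2 ?_) u6
    have u7 : MVN.pe Lam 0 c0 = pw Lam c0 := by unfold MVN.pe pw; simp
    rw [u7] at h2
    push_cast at h2 ⊢
    have hj0 : (0 : ℝ) ≤ j := Nat.cast_nonneg j
    nlinarith
  have t5 : (pw Lam (K + 1))⁻¹ + (pw Lam (K + 1))⁻¹ ≤ (pw Lam K)⁻¹ := by
    have e4 : pw Lam (K + 1) = pw Lam K * (2 * Lam) := by unfold pw; ring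
    rw [e4, mul_inv]
    have h3 : 0 < (pw Lam K)⁻¹ := inv_pos.2 (hp K)
    have h4 : 2 * (2 * Lam)⁻¹ ≤ 1 := by
      rw [← div_eq_mul_inv, div_le_one (by linarith)]
      linarith
    nlinarith
  rw [mul_add]
  linarith

/-- **ONE BIT** (helper80) : `PD` = probability of the dead points, `NT` and `MT` the two counts, `m` pieces -/
theorem bit_num (A kT K j : ℕ) : CT.Ev (fun c0 Lam => ∀ m Cc K0 PD NT MT : ℝ, 0 ≤ m → m ≤ 2 ^ j → 0 ≤ Cc → Cc ≤ 2 ^ j →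
    0 ≤ K0 → K0 ≤ 2 ^ j → PD ≤ (pw Lam (c0 + A))⁻¹ →
    0 ≤ NT → NT ≤ pw Lam kT → 0 ≤ MT → MT ≤ 100 * (pw Lam c0 * pw Lam (c1F A c0) * Lam) →
    m * (2 * PD + Cc * (NT * Real.sqrt ((Real.log (MT / NT) + (Lam + 1)) / pw Lam c0)) +
      K0 * Real.exp (-pw Lam c0) * MT) ≤ (pw Lam K)⁻¹) := by
  refine ((price_num A kT j (K + 1) j).and (CT.Ev.ge (j + K + 2))).mono fun c0 Lam hL h => ?_
  obtain ⟨h1, hc⟩ := h
  intro m Cc K0 PD NT MT hm0 hm hC0 hC hK0 hK hP hN0 hN hM0 hM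
  have a1 := h1 Cc K0 NT MT hC0 hC hK0 hK hN0 hN hM0 hM
  have hp : ∀ k, 0 < pw Lam k := fun k => MVN.pw_pos hL k
  have hj : (2 : ℝ) ^ j ≤ pw Lam j := by
    unfold pw
    exact pow_le_pow_left₀ (by norm_num) (by linarith) j
  have hmj : m ≤ pw Lam j := hm.trans hj
  have e0 : Cc * (NT * Real.sqrt ((Real.log (MT / NT) + (Lam + 1)) / pw Lam c0)) =
      Cc * NT * Real.sqrt ((Real.log (MT / NT) + Lam + 1) / pw Lam c0) := by
    rw [← mul_assoc, ← add_assoc]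
  have hx0 : 0 ≤ Cc * NT * Real.sqrt ((Real.log (MT / NT) + Lam + 1) / pw Lam c0) + K0 * Real.exp (-pw Lam c0) * MT := by
    have := Real.sqrt_nonneg ((Real.log (MT / NT) + Lam + 1) / pw Lam c0)
    have := Real.exp_pos (-pw Lam c0)
    positivity
  have a2 : m * (Cc * NT * Real.sqrt ((Real.log (MT / NT) + Lam + 1) / pw Lam c0) + K0 * Real.exp (-pw Lam c0) * MT) ≤
      (pw Lam (K + 1))⁻¹ := (mul_le_mul_of_nonneg_right hmj hx0).trans a1
  have a3 : m * (2 * PD) ≤ (pw Lam (K + 1))⁻¹ := by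
    have b1 : m * (2 * PD) ≤ m * (2 * (pw Lam (c0 + A))⁻¹) :=
      mul_le_mul_of_nonneg_left (mul_le_mul_of_nonneg_left hP (by norm_num)) hm0
    have b2 : m * (2 * (pw Lam (c0 + A))⁻¹) ≤ pw Lam j * (2 * (pw Lam (c0 + A))⁻¹) :=
      mul_le_mul_of_nonneg_right hmj (by have := hp (c0 + A); positivity)
    have b3 : pw Lam j * 2 * CT.ix Lam (c0 + A) ≤ CT.ix Lam (K + 1) :=
      CT.fin hL (CT.mul_pw hL (by norm_num) le_rfl (CT.cst hL 1 (c := 2) (by norm_num))) (by omega)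
    have b4 : pw Lam j * (2 * (pw Lam (c0 + A))⁻¹) = pw Lam j * 2 * CT.ix Lam (c0 + A) := by
      unfold CT.ix
      ring
    rw [b4] at b2
    exact b1.trans (b2.trans b3)
  have t5 : (pw Lam (K + 1))⁻¹ + (pw Lam (K + 1))⁻¹ ≤ (pw Lam K)⁻¹ := CT.add_ix hL (s := K) le_rfl le_rfl
  rw [e0]
  have e1 : m * (2 * PD + Cc * NT * Real.sqrt ((Real.log (MT / NT) + Lam + 1) / pw Lam c0) +
      K0 * Real.exp (-pw Lam c0) * MT) = m * (2 * PD) +
      m * (Cc * NT * Real.sqrt ((Real.log (MT / NT) + Lam + 1) / pw Lam c0) + K0 * Real.exp (-pw Lam c0) * MT) := by ring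
  rw [e1]
  linarith

/-- the form of `TriB.dev_sum'` -/
theorem bit_num4 (A kT K j : ℕ) : CT.Ev (fun c0 Lam => ∀ m Cc K0 PD NT MT : ℝ, 0 ≤ m → m ≤ 2 ^ j → 0 ≤ Cc → Cc ≤ 2 ^ j →
    0 ≤ K0 → K0 ≤ 2 ^ j → 0 ≤ PD → PD ≤ (pw Lam (c0 + A))⁻¹ →
    0 ≤ NT → NT ≤ pw Lam kT → 0 ≤ MT → MT ≤ 100 * (pw Lam c0 * pw Lam (c1F A c0) * Lam) →
    m * (4 * PD + (Cc * (NT * Real.sqrt ((Real.log (MT / NT) + (Lam + 1)) / pw Lam c0)) +
      K0 * Real.exp (-pw Lam c0) * MT)) ≤ (pw Lam K)⁻¹) := by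
  refine (bit_num A kT K (j + 1)).mono fun c0 Lam hL h => ?_
  intro m Cc K0 PD NT MT hm0 hm hC0 hC hK0 hK hP0 hP hN0 hN hM0 hM
  have h2 : (2 : ℝ) ^ (j + 1) = 2 * 2 ^ j := by ring
  have h3 : (0 : ℝ) < 2 ^ j := by positivity
  have h1 := h (2 * m) Cc K0 PD NT MT (by linarith) (by rw [h2]; linarith) hC0 (by rw [h2]; linarith) hK0
    (by rw [h2]; linarith) hP hN0 hN hM0 hM
  refine le_trans ?_ h1
  have h4 : 0 ≤ Cc * (NT * Real.sqrt ((Real.log (MT / NT) + (Lam + 1)) / pw Lam c0)) + K0 * Real.exp (-pw Lam c0) * MT := by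
    have := Real.sqrt_nonneg ((Real.log (MT / NT) + (Lam + 1)) / pw Lam c0)
    have := Real.exp_pos (-pw Lam c0)
    positivity
  have h5 := mul_nonneg hm0 h4
  nlinarith

section fin

variable {Lam : ℝ} (hL : 2 ≤ Lam) {T : ℕ}

include hL

/-- the cost is nonnegative -/
theorem cost_nn : 0 ≤ 3 * Lam + Real.log (1 / CT.ix Lam CTK.ke) := by
  have h1 : 0 ≤ Real.log (1 / CT.ix Lam CTK.ke) := by
    refine Real.log_nonneg ?_
    rw [one_div, CT.inv_ix hL]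
    exact CT.pw_ge1 hL _
  linarith

/-- **A FAMILY OF PRICES** -/
theorem pr_fam {ι : Type*} [Fintype ι] (hc : (Fintype.card ι : ℝ) ≤ 4 ^ 16) {Dv : ι → ℕ → ℝ}
    (h : ∀ i, ∑ t ∈ Finset.range T, Dv i t ≤ CT.ix Lam 40) :
    ∑ t ∈ Finset.range T, ∑ i, (3 * Lam + Real.log (1 / CT.ix Lam CTK.ke)) * Dv i t ≤ (pw Lam 16)⁻¹ := by
  have h0 := cost_nn hL
  have h1 := CTK.kL_le hL
  rw [Finset.sum_comm]
  simp only [← Finset.mul_sum]
  have h2 : ∑ i, ∑ t ∈ Finset.range T, Dv i t ≤ CT.ix Lam 24 :=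
    CT.sum_ix hL (j := 16) Finset.univ (by rw [Finset.card_univ]; exact hc) fun i _ => h i
  have h3 : (3 * Lam + Real.log (1 / CT.ix Lam CTK.ke)) * ∑ i, ∑ t ∈ Finset.range T, Dv i t ≤
      (3 * Lam + Real.log (1 / CT.ix Lam CTK.ke)) * CT.ix Lam 24 := mul_le_mul_of_nonneg_left h2 h0
  refine h3.trans ((CT.fin hL h1 (k := 24) (s := 16) ?_).trans (le_of_eq rfl))
  unfold CTK.kL
  norm_num

/-- the prices of `FullOK` -/
theorem pr_full {κ : Type*} [Fintype κ] (hc : (Fintype.card κ : ℝ) ≤ 4 ^ 13) {Dv : Fin 6 → ℕ → κ → ℝ}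
    (h : ∀ s k, ∑ t ∈ Finset.range T, Dv s t k ≤ CT.ix Lam 40) :
    ∑ t ∈ Finset.range T, ∑ s, ∑ k, (3 * Lam + Real.log (1 / CT.ix Lam CTK.ke)) * Dv s t k ≤ (pw Lam 16)⁻¹ := by
  have h1 := pr_fam hL (T := T) (ι := Fin 6 × κ) (Dv := fun i t => Dv i.1 t i.2) (by
    rw [Fintype.card_prod, Fintype.card_fin]
    push_cast
    have : (6 : ℝ) * 4 ^ 13 ≤ 4 ^ 16 := by norm_num
    linarith) fun i => h i.1 i.2
  refine le_trans (le_of_eq ?_) h1
  exact Finset.sum_congr rfl fun t _ => (Fintype.sum_prod_type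
    (fun i : Fin 6 × κ => (3 * Lam + Real.log (1 / CT.ix Lam CTK.ke)) * Dv i.1 t i.2)).symm

/-- the prices of `TwoOK` -/
theorem pr_two {κ : Type*} [Fintype κ] (hc : (Fintype.card κ : ℝ) ≤ 4 ^ 13) {Dv : Bool → ℕ → κ → ℝ}
    (h : ∀ b k, ∑ t ∈ Finset.range T, Dv b t k ≤ CT.ix Lam 40) :
    ∑ t ∈ Finset.range T, ∑ b, ∑ k, (3 * Lam + Real.log (1 / CT.ix Lam CTK.ke)) * Dv b t k ≤ (pw Lam 16)⁻¹ := by
  have h1 := pr_fam hL (T := T) (ι := Bool × κ) (Dv := fun i t => Dv i.1 t i.2) (by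
    rw [Fintype.card_prod, Fintype.card_bool]
    push_cast
    have : (2 : ℝ) * 4 ^ 13 ≤ 4 ^ 16 := by norm_num
    linarith) fun i => h i.1 i.2
  refine le_trans (le_of_eq ?_) h1
  exact Finset.sum_congr rfl fun t _ => (Fintype.sum_prod_type
    (fun i : Bool × κ => (3 * Lam + Real.log (1 / CT.ix Lam CTK.ke)) * Dv i.1 t i.2)).symm

/-- the prices of `OneOK` -/
theorem pr_one {κ : Type*} [Fintype κ] (hc : (Fintype.card κ : ℝ) ≤ 4 ^ 13) {Dv : ℕ → κ → ℝ}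
    (h : ∀ k, ∑ t ∈ Finset.range T, Dv t k ≤ CT.ix Lam 40) :
    ∑ t ∈ Finset.range T, ∑ k, (3 * Lam + Real.log (1 / CT.ix Lam CTK.ke)) * Dv t k ≤ (pw Lam 16)⁻¹ :=
  pr_fam hL (T := T) (ι := κ) (Dv := fun k t => Dv t k) (by
    have : (4 : ℝ) ^ 13 ≤ 4 ^ 16 := by norm_num
    linarith) h

end fin

end Pool.Agent.GMH.CTP
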