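import Pool.Agent.GMH.Gdy

/-!
# GMH/CovI (helper63): the rows which carry the potential of a greedy cover (note 3454 (4))

In a node: `I s w` = the rows whose newly covered part has density `> u/4`, `kp s w` = the sum of these densities.
`Phi ≤ kp`, `|I| u/4 ≤ kp`, `kp ≤ P (some row of I | node)`, `I` is not empty and `u/4 < kp` if `Phi > 0`.
-/

set_option autoImplicit false
set_option linter.unusedSectionVars false

namespace Pool.Agent.GMH.Gdy

open Finset Pool.Agent.PWZ Pool.Agent.M3

noncomputable section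

variable {Om : Type*} [Fintype Om] {P : FP Om} {κ : ℕ → Type*} {X : ∀ t, Om → κ t} {u : ℝ} {H : ℕ → Om → Prop} {M : ℕ}

/-- a point is covered once -/
theorem nw_unique {s s' r r' : ℕ} (hr : r < M) (hr' : r' < M) {w : Om} (h : nw P X u H M s r w)
    (h' : nw P X u H M s' r' w) : r = r' := by
  have key : ∀ {s s' r r' : ℕ}, r < M → nw P X u H M s r w → nw P X u H M s' r' w → s ≤ s' →
      (s = s' → r ≤ r') → r = r' := by
    intro s s' r r' hr h h' hs h1
    rcases hs.lt_or_eq with h2 | h2
    · exact absurd (cov_Cv (r := r') (show s + 1 ≤ s' by omega) (nw_cov hr h)) h'.2.1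
    · have h3 := h1 h2
      subst h2
      rcases h3.lt_or_eq with h4 | h4
      · exact absurd (Cv_le (show r + 1 ≤ r' by omega) (tk_Cv h.2.2 h.1)) h'.2.1
      · exact h4
  rcases lt_trichotomy s s' with hs | hs | hs
  · exact key hr h h' hs.le (fun h => absurd h (by omega))
  · rcases le_total r r' with h2 | h2
    · exact key hr h h' hs.le (fun _ => h2)
    · exact (key hr' h' h hs.ge (fun _ => h2)).symm
  · exact (key hr' h' h hs.le (fun h => absurd h (by omega))).symm

theorem Nn_unique {s r r' : ℕ} (hr : r < M) (hr' : r' < M) {w : Om} (h : Nn P X u H M r s w)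
    (h' : Nn P X u H M r' s w) : r = r' := by
  obtain ⟨s1, _, h1⟩ := Nn_ex h
  obtain ⟨s2, _, h2⟩ := Nn_ex h'
  exact nw_unique hr hr' h1 h2

theorem Nn_sub {s r : ℕ} {w : Om} (h : Nn P X u H M r s w) : H r w := by
  obtain ⟨s1, _, h1⟩ := Nn_ex h
  exact h1.1

variable (P X u H M) in
open Classical in
/-- the rows which carry the potential -/
def Iset (s : ℕ) (w : Om) : Finset ℕ := (range M).filter fun r => u / 4 < cp P X s (Nn P X u H M r (s + 1)) w

variable (P X u H M) in
/-- the sum of their densities -/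
def kp (s : ℕ) (w : Om) : ℝ := ∑ r ∈ Iset P X u H M s w, cp P X s (Nn P X u H M r (s + 1)) w

theorem mem_Iset {s : ℕ} {w : Om} {r : ℕ} :
    r ∈ Iset P X u H M s w ↔ r < M ∧ u / 4 < cp P X s (Nn P X u H M r (s + 1)) w := by
  unfold Iset
  rw [mem_filter, mem_range]

theorem Phi_le_kp (hu : 0 < u) (s : ℕ) (w : Om) : Phi P X u H M s w ≤ kp P X u H M s w := by
  classical
  unfold Phi kp Iset
  rw [Finset.sum_filter]
  refine Finset.sum_le_sum fun r _ => ?_
  split_ifs with h
  · exact max_le (by linarith) (cp_nonneg _ _ _)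
  · exact max_le (by linarith [not_lt.1 h]) le_rfl

theorem card_le_kp (s : ℕ) (w : Om) : (Iset P X u H M s w).card * (u / 4) ≤ kp P X u H M s w := by
  unfold kp
  rw [← nsmul_eq_mul, ← Finset.sum_const]
  exact Finset.sum_le_sum fun r hr => (mem_Iset.1 hr).2.le

theorem Iset_nonempty {s : ℕ} {w : Om} (h : 0 < Phi P X u H M s w) : (Iset P X u H M s w).Nonempty := by
  by_contra hcon
  rw [Finset.not_nonempty_iff_eq_empty] at hcon
  have h1 : Phi P X u H M s w = 0 := by
    unfold Phi
    refine Finset.sum_eq_zero fun r hr => ?_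
    refine max_eq_right ?_
    by_contra h2
    have : r ∈ Iset P X u H M s w := mem_Iset.2 ⟨mem_range.1 hr, by linarith [not_le.1 h2]⟩
    rw [hcon] at this
    exact absurd this (notMem_empty r)
  linarith

theorem kp_gt {s : ℕ} {w : Om} (h : 0 < Phi P X u H M s w) (hu : 0 < u) : u / 4 ≤ kp P X u H M s w := by
  have h1 := card_le_kp (P := P) (X := X) (u := u) (H := H) (M := M) s w
  have h2 : (1 : ℝ) ≤ (Iset P X u H M s w).card := by
    exact_mod_cast Finset.card_pos.2 (Iset_nonempty h)
  nlinarith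

/-- the rows of `I` cover a set of density at least `kp` -/
theorem kp_le (s : ℕ) (w : Om) :
    kp P X u H M s w ≤ cp P X s (fun v => ∃ r ∈ Iset P X u H M s w, H r v) w := by
  unfold kp cp
  rw [← P.ce_sum]
  refine P.ce_mono (fun v _ => ?_) w
  by_cases h : ∃ r ∈ Iset P X u H M s w, Nn P X u H M r (s + 1) v
  · obtain ⟨r, hr, h1⟩ := h
    rw [Finset.sum_eq_single r, ind_of h1, ind_of ⟨r, hr, Nn_sub h1⟩]
    · intro r' hr' hne
      exact ind_not fun h2 => hne (Nn_unique (mem_Iset.1 hr').1 (mem_Iset.1 hr).1 h2 h1)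
    · intro h2
      exact absurd hr h2
  · rw [Finset.sum_eq_zero fun r hr => ind_not fun h1 => h ⟨r, hr, h1⟩]
    exact ind_nonneg _

theorem kp_le_one {s : ℕ} {w : Om} (hw : P.p w ≠ 0) : kp P X u H M s w ≤ 1 :=
  (kp_le s w).trans (P.ce_le_const (fun _ _ => ind_le_one _) hw)

end

end Pool.Agent.GMH.Gdy
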