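import Pool.Agent.GMH.Cov2
import Pool.Agent.GMH.CovI

/-!
# GMH.TD10: thin dynamics, one world (helper52, statement of helper27)

`cover2` + `rest2` of `GMH/Cov2` with the mean over both samples (`badV_le`).
-/

set_option autoImplicit false
set_option linter.unusedSectionVars false

namespace Pool.Agent.GMH.Gdy

open Finset Pool.Agent.PWZ Pool.Agent.M3

noncomputable section

variable {Om : Type*} [Fintype Om] {P : FP Om} {κ κ' : ℕ → Type*} {cU : ∀ t, Om → κ t} {cV : ∀ t, Om → κ' t}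
  {α ω : Type*} {U : Om → α} {V : Om → ω} {R : α → ω → Prop} {u : ℝ}

/-- a covered point after the first pass is newly covered by some row -/
theorem pass_ex {κ : ℕ → Type*} {X : ∀ t, Om → κ t} {H : ℕ → Om → Prop} {M : ℕ} {w : Om} :
    ∀ r, Cv P X u H M 0 r w → ∃ r' < r, nw P X u H M 0 r' w := by
  intro r
  induction r with
  | zero => exact fun h => False.elim h
  | succ r ih =>
    intro h
    rcases (Cv_succ 0 r w).1 h with h1 | h1
    · obtain ⟨r', hr', h2⟩ := ih h1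
      exact ⟨r', by omega, h2⟩
    · exact ⟨r, by omega, h1⟩

/-- covered after the first pass: the potential is positive -/
theorem cov_one_pos {κ : ℕ → Type*} {X : ∀ t, Om → κ t} {H : ℕ → Om → Prop} {M : ℕ} (hu : 0 < u) {w : Om}
    (h : cov P X u H M 1 w) : 0 < Phi P X u H M 0 w := by
  obtain ⟨r, hr, h1⟩ := pass_ex (P := P) (X := X) (u := u) (H := H) M h
  have h2 : cp P X 0 (nw P X u H M 0 r) w ≤ cp P X 0 (Nn P X u H M r (0 + 1)) w := cp_mono (fun v hv => Or.inr hv) w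
  have h3 := cp_nw_ge (w := w) h1.2.2
  have h4 : u / 4 ≤ max (cp P X 0 (Nn P X u H M r (0 + 1)) w - u / 4) 0 := le_max_of_le_left (by linarith)
  have h5 : max (cp P X 0 (Nn P X u H M r (0 + 1)) w - u / 4) 0 ≤ Phi P X u H M 0 w :=
    Finset.single_le_sum (f := fun r => max (cp P X 0 (Nn P X u H M r (0 + 1)) w - u / 4) 0)
      (fun _ _ => le_max_right _ _) (mem_range.2 hr)
  linarith

/-- the potential is at most `1` -/
theorem Phi_le_one {κ : ℕ → Type*} {X : ∀ t, Om → κ t} {H : ℕ → Om → Prop} {M : ℕ} (hu : 0 < u) {s : ℕ} {w : Om}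
    (hw : P.p w ≠ 0) : Phi P X u H M s w ≤ 1 :=
  (Phi_le_kp hu s w).trans (kp_le_one hw)

/-- total mass of a law -/
theorem sum_law {δ : Type*} [Fintype δ] (W : Om → δ) : ∑ a, P.Pr (fun w => W w = a) = 1 := by
  classical
  unfold FP.Pr
  rw [← FP.E_sum]
  have : ∀ w, ∑ a, ind (W w = a) = (1 : ℝ) := by
    intro w
    rw [Finset.sum_eq_single (W w) (fun b _ hb => ind_not (fun h => hb h.symm)) (fun h => absurd (mem_univ _) h),
      ind_of rfl]
  simp only [this]
  exact P.E_const 1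

/-- one world, given samples -/
theorem world_pt (hI : P.Indep U V) (hU : ∀ s, Fac U (cU s)) (hV : ∀ s, Fac V (cV s))
    (fU : Filt cU) (fV : Filt cV) (hu : 0 < u) {h : ℝ} (h0 : 0 ≤ h)
    (hmU : ∀ s w, P.p w ≠ 0 → P.m (cU s) w ≤ h * P.m (cU (s + 1)) w)
    (hmV : ∀ s w, P.p w ≠ 0 → P.m (cV s) w ≤ h * P.m (cV (s + 1)) w) {σ : Om → ℕ} (hσ : Stp (pair cU cV) σ) {T : ℕ}
    (hT : ∀ w, σ w < T) {g : ℕ → Om → ℝ} (hg : ∀ s, Fac (fun w => (pair cU cV s w, U w)) (g s)) (hg0 : ∀ s w, 0 ≤ g s w)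
    (hg1 : ∀ s w, g s w ≤ 1) (M : ℕ) {HV HU : ℕ → Om → Prop} (hH : ∀ r v w, V v = V w → (HV r v ↔ HV r w))
    (hH' : ∀ r v w, U v = U w → (HU r v ↔ HU r w)) :
    P.E (fun w => ind (R (U w) (V w)) * g (σ w) w) ≤
      u / 2 * P.E (fun w => g (σ w) w) +
      (h * u * P.E (fun w => Phi P cV u HV M (σ w) w) + P.Pr (fun w => 0 < Phi P cV u HV M 0 w)) +
      (h * u * P.E (fun w => Phi P cU u HU M (σ w) w) + P.Pr (fun w => 0 < Phi P cU u HU M 0 w)) +
      2 * P.Pr (badV P cV U V R u HV M T) + P.Pr (badV P cU V U (fun v a => R a v) u HU M T) := by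
  have h1 := cover2 (R := R) (M := M) (M' := M) hI hU hV fU fV hH hH' hu h0 hmU hmV hσ hT
  have h2 := rest2 (R := R) (M := M) hI hU hV fU fV hH hu hσ hT hg hg0
  have h3 : P.E (fun w => ind (badV P cV U V R u HV M T w) * g (σ w) w) ≤ P.Pr (badV P cV U V R u HV M T) :=
    P.E_mono fun w _ => mul_le_of_le_one_right (ind_nonneg _) (hg1 _ _)
  have h4 : P.E (fun w => ind (R (U w) (V w)) * g (σ w) w) ≤
      P.E (fun w => ind (R (U w) (V w) ∧ ¬ cov P cV u HV M (σ w + 1) w) * g (σ w) w) +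
      (P.Pr (fun w => R (U w) (V w) ∧ (cov P cV u HV M (σ w + 1) w ∨ cov P cU u HU M (σ w + 1) w) ∧
        ¬ (cov P cV u HV M 1 w ∨ cov P cU u HU M 1 w)) +
      (P.Pr (fun w => 0 < Phi P cV u HV M 0 w) + P.Pr (fun w => 0 < Phi P cU u HU M 0 w))) := by
    unfold FP.Pr
    rw [← FP.E_add, ← FP.E_add, ← FP.E_add]
    refine P.E_mono fun w _ => ?_
    have a1 : 0 ≤ ind (R (U w) (V w) ∧ ¬ cov P cV u HV M (σ w + 1) w) * g (σ w) w :=
      mul_nonneg (ind_nonneg _) (hg0 _ _)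
    have a2 := ind_nonneg (R (U w) (V w) ∧ (cov P cV u HV M (σ w + 1) w ∨ cov P cU u HU M (σ w + 1) w) ∧
        ¬ (cov P cV u HV M 1 w ∨ cov P cU u HU M 1 w))
    have a3 := ind_nonneg (0 < Phi P cV u HV M 0 w)
    have a4 := ind_nonneg (0 < Phi P cU u HU M 0 w)
    by_cases hR : R (U w) (V w)
    · rw [ind_of hR, one_mul]
      have hg1' := hg1 (σ w) w
      by_cases hc : cov P cV u HV M (σ w + 1) w
      · by_cases c1 : cov P cV u HV M 1 w
        · rw [ind_of (cov_one_pos hu c1)]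
          linarith
        · by_cases c2 : cov P cU u HU M 1 w
          · rw [ind_of (cov_one_pos hu c2)]
            linarith
          · rw [ind_of (show R (U w) (V w) ∧ (cov P cV u HV M (σ w + 1) w ∨ cov P cU u HU M (σ w + 1) w) ∧
              ¬ (cov P cV u HV M 1 w ∨ cov P cU u HU M 1 w) from ⟨hR, Or.inl hc, not_or.2 ⟨c1, c2⟩⟩)]
            linarith
      · rw [ind_of (show R (U w) (V w) ∧ ¬ cov P cV u HV M (σ w + 1) w from ⟨hR, hc⟩), one_mul]
        linarith
    · rw [ind_not hR, zero_mul]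
      linarith
  linarith

/-- **ONE WORLD** -/
theorem world_le [Fintype α] [Fintype ω] (hI : P.Indep U V) (hU : ∀ s, Fac U (cU s)) (hV : ∀ s, Fac V (cV s))
    (fU : Filt cU) (fV : Filt cV) (hu : 0 < u) {h : ℝ} (h0 : 0 ≤ h)
    (hmU : ∀ s w, P.p w ≠ 0 → P.m (cU s) w ≤ h * P.m (cU (s + 1)) w)
    (hmV : ∀ s w, P.p w ≠ 0 → P.m (cV s) w ≤ h * P.m (cV (s + 1)) w) {σ : Om → ℕ} (hσ : Stp (pair cU cV) σ) {T : ℕ}
    (hT : ∀ w, σ w < T) {g : ℕ → Om → ℝ} (hg : ∀ s, Fac (fun w => (pair cU cV s w, U w)) (g s)) (hg0 : ∀ s w, 0 ≤ g s w)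
    (hg1 : ∀ s w, g s w ≤ 1) (M : ℕ) :
    P.E (fun w => ind (R (U w) (V w)) * g (σ w) w) ≤
      u / 2 * P.E (fun w => g (σ w) w) +
      ∑ us : Fin M → α, sw (fun a => P.Pr (fun w => U w = a)) us *
        (h * u * P.E (fun w => Phi P cV u (rows (row V R) us) M (σ w) w) +
          P.Pr (fun w => 0 < Phi P cV u (rows (row V R) us) M 0 w)) +
      ∑ vs : Fin M → ω, sw (fun b => P.Pr (fun w => V w = b)) vs *
        (h * u * P.E (fun w => Phi P cU u (rows (row U (fun b a => R a b)) vs) M (σ w) w) +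
          P.Pr (fun w => 0 < Phi P cU u (rows (row U (fun b a => R a b)) vs) M 0 w)) +
      6 / (u * (M + 1)) := by
  classical
  set qU : α → ℝ := fun a => P.Pr (fun w => U w = a) with hqU
  set qV : ω → ℝ := fun b => P.Pr (fun w => V w = b) with hqV
  have oneU : ∑ us : Fin M → α, sw qU us = 1 := sw_sum (sum_law U) M
  have oneV : ∑ vs : Fin M → ω, sw qV vs = 1 := sw_sum (sum_law V) M
  have nU : ∀ us : Fin M → α, 0 ≤ sw qU us := sw_nonneg (fun a => P.Pr_nonneg _)
  have nV : ∀ vs : Fin M → ω, 0 ≤ sw qV vs := sw_nonneg (fun a => P.Pr_nonneg _)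
  set L := P.E (fun w => ind (R (U w) (V w)) * g (σ w) w) with hL
  set G0 := u / 2 * P.E (fun w => g (σ w) w) with hG0
  set A : (Fin M → α) → ℝ := fun us => h * u * P.E (fun w => Phi P cV u (rows (row V R) us) M (σ w) w) +
          P.Pr (fun w => 0 < Phi P cV u (rows (row V R) us) M 0 w) with hA
  set B : (Fin M → ω) → ℝ := fun vs => h * u * P.E (fun w => Phi P cU u (rows (row U (fun b a => R a b)) vs) M (σ w) w) +
          P.Pr (fun w => 0 < Phi P cU u (rows (row U (fun b a => R a b)) vs) M 0 w) with hB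
  set bA : (Fin M → α) → ℝ := fun us => P.Pr (badV P cV U V R u (rows (row V R) us) M T) with hbA
  set bB : (Fin M → ω) → ℝ := fun vs =>
    P.Pr (badV P cU V U (fun v a => R a v) u (rows (row U (fun b a => R a b)) vs) M T) with hbB
  have key : ∀ us vs, L ≤ G0 + A us + B vs + 2 * bA us + bB vs := fun us vs =>
    world_pt (R := R) hI hU hV fU fV hu h0 hmU hmV hσ hT hg hg0 hg1 M (rows_fac us) (rows_fac vs)
  have bad1 : ∑ us, sw qU us * bA us ≤ 2 / (u * (M + 1)) := badV_le (R := R) hI hV fV hu M T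
  have bad2 : ∑ vs, sw qV vs * bB vs ≤ 2 / (u * (M + 1)) := badV_le (R := fun b a => R a b) hI.symm hU fU hu M T
  -- mean over `us`
  have s1 : ∀ vs, L ≤ G0 + ∑ us, sw qU us * A us + B vs + 2 * ∑ us, sw qU us * bA us + bB vs := by
    intro vs
    have h1 : ∑ us, sw qU us * L ≤ ∑ us, sw qU us * (G0 + A us + B vs + 2 * bA us + bB vs) :=
      Finset.sum_le_sum fun us _ => mul_le_mul_of_nonneg_left (key us vs) (nU us)
    rw [← Finset.sum_mul, oneU, one_mul] at h1
    refine h1.trans (le_of_eq ?_)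
    have h2 : ∀ us, sw qU us * (G0 + A us + B vs + 2 * bA us + bB vs) =
        sw qU us * (G0 + B vs + bB vs) + sw qU us * A us + 2 * (sw qU us * bA us) := fun us => by ring
    rw [Finset.sum_congr rfl fun us _ => h2 us, Finset.sum_add_distrib, Finset.sum_add_distrib, ← Finset.sum_mul,
      oneU, ← Finset.mul_sum]
    ring
  have s2 : L ≤ G0 + ∑ us, sw qU us * A us + ∑ vs, sw qV vs * B vs + 2 * ∑ us, sw qU us * bA us +
      ∑ vs, sw qV vs * bB vs := by
    have h1 : ∑ vs, sw qV vs * L ≤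
        ∑ vs, sw qV vs * (G0 + ∑ us, sw qU us * A us + B vs + 2 * ∑ us, sw qU us * bA us + bB vs) :=
      Finset.sum_le_sum fun vs _ => mul_le_mul_of_nonneg_left (s1 vs) (nV vs)
    rw [← Finset.sum_mul, oneV, one_mul] at h1
    refine h1.trans (le_of_eq ?_)
    have h2 : ∀ vs, sw qV vs * (G0 + ∑ us, sw qU us * A us + B vs + 2 * ∑ us, sw qU us * bA us + bB vs) =
        sw qV vs * (G0 + ∑ us, sw qU us * A us + 2 * ∑ us, sw qU us * bA us) + sw qV vs * B vs +
          sw qV vs * bB vs := fun vs => by ring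
    rw [Finset.sum_congr rfl fun vs _ => h2 vs, Finset.sum_add_distrib, Finset.sum_add_distrib, ← Finset.sum_mul,
      oneV]
    ring
  have h6 : 6 / (u * (M + 1)) = 2 * (2 / (u * (M + 1))) + 2 / (u * (M + 1) : ℝ) := by ring
  rw [h6]
  linarith

end

end Pool.Agent.GMH.Gdy
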