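import Pool.Agent.GMH.OneKL

/-!
# GMH/Rare (helper63): rarity and gain of a covered state in one class (note 3454 (4))

`P` = law of the class, `E` = an event, `L` = label, `Z` = what is below it (points, lower letters), `A` = event of `(L, Z)`.

* `klc_lin` : `t Q(A) ≤ klc + (exp t - 1) E_Q P(A | Z)`;
* `rare_le` : if `N klc (P_E, P; L | Z) ≤ 2 (log (1/P(E)) + 1)` (saturation), `k ≤ P (A | X)` on `E`, `E_(P_E) P(A | Z) ≤ k/4`,
  then `P(E) ≤ exp (1 - N k / 4)`;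
* `union_rare` : union over families, `B` families for every element: `P (∃ φ, E φ) ≤ 2 e B exp (-x)` if
  `P (E φ) ≤ exp (1 - |φ| x)` and `2 B exp (-x) ≤ 1`;
* `gain_ge` : `k/4 ≤ Q(A)`, `E_Q P(A | Z) ≤ k / 2^7` give `k/3 ≤ klc (Q, P; L | Z)`;
* `exc_le` : a class saturated against the events of the hidden point `X`, `Z` independent of `X`: outside a set of
  probability `2 e B exp (-x)` every family `φ` has `P (A φ | X) < max (|φ| u/4) (4 P (A φ))`;
* `paid` : a covered state is paid: `kp ≤ 3 klc (Q, P0; L | Z)` for all points outside the exceptional set;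
* `none` : no cover in a class in which the rows are rare.
-/

set_option autoImplicit false
set_option linter.unusedSectionVars false

namespace Pool.Agent.GMH

open Finset Pool.Agent.PWZ Pool.Agent.M3

variable {Om : Type*} [Fintype Om] {P Q : FP Om} {χ κ ι : Type*}

/-- Donsker-Varadhan for a multiple of an event -/
theorem klc_lin (hac : Q.Ac P) {L : Om → κ} {Z : Om → ι} {A : Om → Prop} (hA : Fac (fun w => (L w, Z w)) A) {t : ℝ}
    (ht : 0 ≤ t) : t * Q.Pr A ≤ Q.klc P L Z + (Real.exp t - 1) * Q.E (P.ce Z (fun v => ind (A v))) := by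
  have h := klc_dv hac L Z (f := fun w => t * ind (A w)) (hA.comp (fun q => t * ind q))
  rw [FP.E_smul] at h
  have he : 0 ≤ Real.exp t - 1 := by
    have := Real.add_one_le_exp t
    linarith
  have h2 : Q.E (fun w => Real.log (P.ce Z (fun v => Real.exp (t * ind (A v))) w)) ≤
      (Real.exp t - 1) * Q.E (P.ce Z (fun v => ind (A v))) := by
    rw [← FP.E_smul]
    refine Q.E_mono fun w hw => ?_
    have hp := hac w hw
    have h1 : P.ce Z (fun v => Real.exp (t * ind (A v))) w = 1 + (Real.exp t - 1) * P.ce Z (fun v => ind (A v)) w := by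
      rw [P.ce_congr (g := fun v => 1 + (Real.exp t - 1) * ind (A v)) (fun v _ => ?_), P.ce_add, P.ce_smul,
        P.ce_const _ _ hp]
      by_cases hv : A v
      · rw [ind_of hv, mul_one]; ring
      · rw [ind_not hv, mul_zero, Real.exp_zero]; ring
    have h0 : 0 ≤ P.ce Z (fun v => ind (A v)) w := P.ce_nonneg (fun _ _ => ind_nonneg _) w
    rw [h1]
    have h3 := Real.log_le_sub_one_of_pos (show 0 < 1 + (Real.exp t - 1) * P.ce Z (fun v => ind (A v)) w by
      have := mul_nonneg he h0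
      linarith)
    linarith
  have h3 : Q.Pr A = Q.E (fun w => ind (A w)) := rfl
  rw [h3]
  linarith

/-- **rarity** -/
theorem rare_le {X : Om → χ} {L : Om → κ} {Z : Om → ι} {N k : ℝ} {E A : Om → Prop} (hE : Fac X E)
    (hE0 : P.Pr E ≠ 0) (hsat : N * (P.cond E).klc P L Z ≤ 2 * (Real.log (1 / P.Pr E) + 1)) (hN : 0 ≤ N)
    (hA : Fac (fun w => (L w, Z w)) A) (hk : ∀ w, P.p w ≠ 0 → E w → k ≤ P.ce X (fun v => ind (A v)) w)
    (hq : (P.cond E).E (P.ce Z (fun v => ind (A v))) ≤ k / 4) : P.Pr E ≤ Real.exp (1 - N * k / 4) := by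
  have h1 := klc_lin (P.cond_ac E) hA zero_le_one
  have he := Real.exp_one_lt_d9
  have h2 : k ≤ (P.cond E).Pr A := by
    unfold FP.Pr
    rw [FP.cond_E hE0, le_div_iff₀ (lt_of_le_of_ne (P.Pr_nonneg E) (Ne.symm hE0))]
    have h3 := P.E_mul_ce (Fac.ind (s := E) fun v w h => by rw [hE v w h]) (fun v => ind (A v))
    rw [← h3]
    unfold FP.Pr
    rw [← FP.E_smul]
    refine P.E_mono fun w hw => ?_
    by_cases hw1 : E w
    · rw [ind_of hw1, mul_one, one_mul]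
      exact hk w hw hw1
    · rw [ind_not hw1]
      simp
  have h0 : 0 ≤ (P.cond E).E (P.ce Z (fun v => ind (A v))) :=
    (P.cond E).E_nonneg fun w _ => P.ce_nonneg (fun _ _ => ind_nonneg _) w
  have h4 : k / 2 ≤ (P.cond E).klc P L Z := by
    have h5 : (Real.exp 1 - 1) * (P.cond E).E (P.ce Z (fun v => ind (A v))) ≤ 2 * (k / 4) := by
      nlinarith
    linarith
  have h5 := mul_le_mul_of_nonneg_left h4 hN
  have hE' : 0 < P.Pr E := lt_of_le_of_ne (P.Pr_nonneg E) (Ne.symm hE0)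
  have h6 : Real.log (P.Pr E) ≤ 1 - N * k / 4 := by
    have h7 : Real.log (1 / P.Pr E) = - Real.log (P.Pr E) := by rw [one_div, Real.log_inv]
    rw [h7] at hsat
    linarith
  exact (Real.log_le_iff_le_exp hE').1 h6

/-- union over families: a family `φ` has `j φ ≥ 1` elements, there are at most `B ^ i` families with `i` elements -/
theorem union_rare {Φ : Type*} (F : Finset Φ) (j : Φ → ℕ) (hj : ∀ φ ∈ F, 1 ≤ j φ) {B x : ℝ} (hB : 0 ≤ B)
    (hc : ∀ i, ((F.filter fun φ => j φ = i).card : ℝ) ≤ B ^ i) (hx : 2 * B * Real.exp (-x) ≤ 1)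
    (E : Φ → Om → Prop) (hE : ∀ φ ∈ F, P.Pr (E φ) ≤ Real.exp (1 - j φ * x)) :
    P.Pr (fun w => ∃ φ ∈ F, E φ w) ≤ 2 * Real.exp 1 * (B * Real.exp (-x)) := by
  classical
  refine (P.Pr_ex_le F E).trans ((Finset.sum_le_sum hE).trans ?_)
  set y := B * Real.exp (-x) with hy
  have hy0 : 0 ≤ y := mul_nonneg hB (Real.exp_pos _).le
  have hy1 : y ≤ 1 / 2 := by
    have : 2 * y ≤ 1 := by rw [hy]; linarith
    linarith
  -- group by the size
  have h1 : ∑ φ ∈ F, Real.exp (1 - j φ * x) =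
      ∑ i ∈ F.image j, ((F.filter fun φ => j φ = i).card : ℝ) * Real.exp (1 - i * x) := by
    rw [← Finset.sum_fiberwise_of_maps_to (fun φ hφ => Finset.mem_image_of_mem j hφ)]
    refine Finset.sum_congr rfl fun i _ => ?_
    rw [Finset.sum_congr rfl fun φ hφ => by rw [(mem_filter.1 hφ).2], Finset.sum_const, nsmul_eq_mul]
  rw [h1]
  have h2 : ∀ i ∈ F.image j, ((F.filter fun φ => j φ = i).card : ℝ) * Real.exp (1 - i * x) ≤
      Real.exp 1 * y ^ i := by
    intro i _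
    have h3 : Real.exp (1 - i * x) = Real.exp 1 * Real.exp (-x) ^ i := by
      rw [← Real.exp_nat_mul, ← Real.exp_add]
      congr 1
      ring
    rw [h3, hy, mul_pow]
    have := mul_le_mul_of_nonneg_right (hc i) (show 0 ≤ Real.exp 1 * Real.exp (-x) ^ i by positivity)
    refine this.trans (le_of_eq (by ring))
  refine (Finset.sum_le_sum h2).trans ?_
  rw [← Finset.mul_sum]
  obtain ⟨n, hn⟩ : ∃ n, ∀ i ∈ F.image j, i ∈ (Finset.Icc 1 n) := by
    refine ⟨(F.image j).sup id, fun i hi => ?_⟩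
    obtain ⟨φ, hφ, rfl⟩ := Finset.mem_image.1 hi
    exact Finset.mem_Icc.2 ⟨hj φ hφ, Finset.le_sup (f := id) hi⟩
  have h4 : ∑ i ∈ F.image j, y ^ i ≤ ∑ i ∈ Finset.Icc 1 n, y ^ i :=
    Finset.sum_le_sum_of_subset_of_nonneg (fun i hi => hn i hi) fun i _ _ => pow_nonneg hy0 i
  have h5 : ∑ i ∈ Finset.Icc 1 n, y ^ i ≤ 2 * y := by
    have h6 : ∀ n : ℕ, ∑ i ∈ Finset.Icc 1 n, y ^ i ≤ 2 * y * (1 - (1 / 2) ^ n) := by
      intro n
      induction n with
      | zero => simp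
      | succ n ih =>
        rw [Finset.sum_Icc_succ_top (by omega)]
        have h7 : y ^ (n + 1) ≤ y * (1 / 2) ^ n := by
          rw [pow_succ, mul_comm]
          exact mul_le_mul_of_nonneg_left (pow_le_pow_left₀ hy0 hy1 n) hy0
        have h8 : (2 : ℝ) * y * (1 - (1 / 2) ^ (n + 1)) = 2 * y * (1 - (1 / 2) ^ n) + y * (1 / 2) ^ n := by
          rw [pow_succ]
          ring
        rw [h8]
        exact add_le_add ih h7
    refine (h6 n).trans ?_
    have h7 : 0 ≤ y * (1 / 2) ^ n := by positivity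
    nlinarith
  have h6 := mul_le_mul_of_nonneg_left (h4.trans h5) (Real.exp_pos 1).le
  linarith

/-- **gain** -/
theorem gain_ge (hac : Q.Ac P) {L : Om → κ} {Z : Om → ι} {A : Om → Prop} (hA : Fac (fun w => (L w, Z w)) A) {k : ℝ}
    (h1 : k / 4 ≤ Q.Pr A) (h2 : Q.E (P.ce Z (fun v => ind (A v))) ≤ k / 128) (hk : 0 ≤ k) :
    k / 3 ≤ Q.klc P L Z := by
  have h3 := klc_lin hac hA (show (0 : ℝ) ≤ 2 by norm_num)
  have h4 : Real.exp 2 ≤ 8 := by
    have h5 : Real.exp 2 = Real.exp 1 ^ 2 := by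
      rw [← Real.exp_nat_mul]
      norm_num
    rw [h5]
    have := Real.exp_one_lt_d9
    have h6 := Real.exp_pos 1
    nlinarith
  have h0 : 0 ≤ Q.E (P.ce Z (fun v => ind (A v))) := Q.E_nonneg fun w _ => P.ce_nonneg (fun _ _ => ind_nonneg _) w
  have h5 : (Real.exp 2 - 1) * Q.E (P.ce Z (fun v => ind (A v))) ≤ 7 * (k / 128) := by
    have h6 : Real.exp 2 - 1 ≤ 7 := by linarith
    nlinarith
  linarith

/-! ## one class -/

/-- the exceptional set: some family is too large -/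
def exc (Q : FP Om) {Φ : Type*} (X : Om → χ) (F : Finset Φ) (j : Φ → ℕ) (u : ℝ) (A : Φ → Om → Prop) (w : Om) : Prop :=
  ∃ φ ∈ F, max (j φ * u / 4) (4 * Q.Pr (A φ)) ≤ Q.ce X (fun v => ind (A φ v)) w

theorem exc_le {Φ : Type*} {X : Om → χ} {L : Om → κ} {Z : Om → ι} {F : Finset Φ} {j : Φ → ℕ}
    (hj : ∀ φ ∈ F, 1 ≤ j φ) {B x u N : ℝ} (hB : 0 ≤ B) (hc : ∀ i, ((F.filter fun φ => j φ = i).card : ℝ) ≤ B ^ i)
    (hx : 2 * B * Real.exp (-x) ≤ 1) (hN : 0 ≤ N) (hxN : x ≤ N * u / 16) {A : Φ → Om → Prop}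
    (hA : ∀ φ ∈ F, Fac (fun w => (L w, Z w)) (A φ)) (hi : Q.Indep X Z)
    (hsat : ∀ E : Om → Prop, Fac X E → Q.Pr E ≠ 0 → N * (Q.cond E).klc Q L Z ≤ 2 * (Real.log (1 / Q.Pr E) + 1)) :
    Q.Pr (exc Q X F j u A) ≤ 2 * Real.exp 1 * (B * Real.exp (-x)) := by
  refine union_rare F j hj hB hc hx (fun φ w => max (j φ * u / 4) (4 * Q.Pr (A φ)) ≤ Q.ce X (fun v => ind (A φ v)) w)
    fun φ hφ => ?_
  set k := max (j φ * u / 4) (4 * Q.Pr (A φ)) with hk
  set E : Om → Prop := fun w => k ≤ Q.ce X (fun v => ind (A φ v)) w with hEdef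
  by_cases hE0 : Q.Pr E = 0
  · rw [hE0]
    exact (Real.exp_pos _).le
  have hE : Fac X E := fun v w h => by
    show (k ≤ Q.ce X _ v) = (k ≤ Q.ce X _ w)
    rw [Q.ce_fac X _ v w h]
  have h1 : (Q.cond E).E (Q.ce Z (fun v => ind (A φ v))) = Q.Pr (A φ) := by
    rw [FP.cond_E hE0, hi (fun w => ind (E w)) (Q.ce Z (fun v => ind (A φ v))) (Fac.ind fun v w h => by rw [hE v w h])
      (Q.ce_fac Z _)]
    have h2 : Q.E (Q.ce Z (fun v => ind (A φ v))) = Q.Pr (A φ) := Q.E_ce Z _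
    rw [h2]
    exact mul_div_cancel_left₀ _ hE0
  have h2 := rare_le (k := k) hE hE0 (hsat E hE hE0) hN (hA φ hφ) (fun w _ hw => hw) (by
    rw [h1]
    have := le_max_right (j φ * u / 4) (4 * Q.Pr (A φ))
    rw [← hk] at this
    linarith)
  refine h2.trans (Real.exp_le_exp.2 ?_)
  have h3 : (j φ : ℝ) * u / 4 ≤ k := le_max_left _ _
  have h4 : (0 : ℝ) ≤ j φ := Nat.cast_nonneg _
  have h5 := mul_le_mul_of_nonneg_left h3 hN
  have h6 := mul_le_mul_of_nonneg_left hxN h4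
  nlinarith

/-- **a covered state is paid** -/
theorem paid {Φ : Type*} {X : Om → χ} {L : Om → κ} {Z : Om → ι} {F : Finset Φ} {j : Φ → ℕ} {u : ℝ}
    {A : Φ → Om → Prop} (hac : Q.Ac P) {φ : Φ} (hφ : φ ∈ F) (hA : Fac (fun w => (L w, Z w)) (A φ)) {w : Om}
    (hw : ¬ exc Q X F j u A w) {k p1 : ℝ} (hk0 : 0 ≤ k) (hk : k ≤ Q.ce X (fun v => ind (A φ v)) w)
    (hju : j φ * u / 4 ≤ k) (hp : Q.E (P.ce Z (fun v => ind (A φ v))) ≤ j φ * p1) (hp1 : 512 * p1 ≤ u) :
    k / 3 ≤ Q.klc P L Z := by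
  refine gain_ge hac hA ?_ ?_ hk0
  · by_contra hcon
    refine hw ⟨φ, hφ, max_le (hju.trans hk) ?_⟩
    linarith [not_le.1 hcon]
  · refine hp.trans ?_
    have h4 : (0 : ℝ) ≤ j φ := Nat.cast_nonneg _
    have h5 := mul_le_mul_of_nonneg_left hp1 h4
    linarith

/-- **no cover in a class in which the rows are rare** -/
theorem none {Φ : Type*} {X : Om → χ} {F : Finset Φ} {j : Φ → ℕ} {u : ℝ} {A : Φ → Om → Prop} {φ : Φ} (hφ : φ ∈ F)
    {w : Om} (hw : ¬ exc Q X F j u A w) {k p1 : ℝ} (hk : k ≤ Q.ce X (fun v => ind (A φ v)) w) (hju : j φ * u / 4 ≤ k)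
    (hp : Q.Pr (A φ) ≤ j φ * p1) (hp1 : 16 * p1 ≤ u) : False := by
  refine hw ⟨φ, hφ, max_le (hju.trans hk) ?_⟩
  have h4 : (0 : ℝ) ≤ j φ := Nat.cast_nonneg _
  have h5 := mul_le_mul_of_nonneg_left hp1 h4
  linarith

end Pool.Agent.GMH
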