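import Pool.Agent.GMH.TD1
import Pool.Agent.GMH.Rare

/-!
# GMH.TD3: thin dynamics, what is thrown away at a removal (plan helper27, proof helper18)

An event `A k` of the letters with probability `≤ q` in every public class: at the light values its total probability is at
most `2 / log (1/q)` times the total information.  Proof: `x ≥ f + 1 - exp (f - x)` with `x = ai`, `f = t ind (lit ∧ A)`,
`t = log (1/q) / 2`, `E exp (- ai) ≤ 1` and `E ind (lit) ind (A) exp (- ai) ≤ E ind (lit) P(A | N k)` (`ce_rat`; the points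
have the same law in the child: `hprod`).
-/

set_option autoImplicit false
set_option linter.unusedSectionVars false

namespace Pool.Agent.GMH.TD

open Finset Pool.Agent.PWZ Pool.Agent.M3

variable {Om : Type*} [Fintype Om] {P : FP Om} {κ lam η : Type*} {N : ℕ → Om → κ} {La : ℕ → Om → lam} {Ya : Om → η}

/-- change of the public class for a function of the letter and of the old class -/
theorem ce_rat {α γ γ' : Type*} {L : Om → α} {U : Om → γ} {U' : Om → γ'} (hU : Fac U' U) {a : Om → ℝ}
    (ha : Fac (fun w => (L w, U w)) a) (ha0 : ∀ w, 0 ≤ a w) {w : Om} (hw : P.p w ≠ 0) :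
    P.ce U' (fun v => a v * (P.m (fun u => (L u, U u)) v / P.m (fun u => (L u, U' u)) v)) w ≤
      P.m U w / P.m U' w * P.ce U a w := by
  have p1 := P.m_pos U hw
  have p2 := P.m_pos U' hw
  have key : P.E (fun v => ind (U' v = U' w) * (a v * (P.m (fun u => (L u, U u)) v / P.m (fun u => (L u, U' u)) v))) ≤
      P.E (fun u => ind (U u = U w) * a u) := by
    have h1 : P.E (fun v => ind (U' v = U' w) * (a v * (P.m (fun u => (L u, U u)) v / P.m (fun u => (L u, U' u)) v))) =
        P.E (fun v => P.E (fun u => ind (U' v = U' w) * (a v *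
          (ind ((L u, U u) = (L v, U v)) / P.m (fun u => (L u, U' u)) v)))) := by
      refine P.E_congr fun v _ => ?_
      rw [P.E_smul, P.E_smul, P.E_div_const]
      rfl
    rw [h1, P.E_swap]
    refine P.E_mono fun u _ => ?_
    by_cases hu : U u = U w
    · rw [ind_of hu, one_mul]
      have h2 : a u * P.E (fun v => ind ((L v, U' v) = (L u, U' w)) / P.m (fun u => (L u, U' u)) v) ≤ a u * 1 :=
        mul_le_mul_of_nonneg_left (P.E_ind_div_m_le _ _) (ha0 u)
      rw [mul_one] at h2
      refine le_trans ?_ h2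
      rw [← P.E_smul]
      refine P.E_mono fun v _ => ?_
      have hm := P.m_nonneg (fun u => (L u, U' u)) v
      by_cases h3 : U' v = U' w ∧ (L u, U u) = (L v, U v)
      · obtain ⟨h4, h5⟩ := h3
        have h6 : a v = a u := (ha u v h5).symm
        have h7 : (L v, U' v) = (L u, U' w) := by rw [h4, (Prod.mk.inj h5).1]
        rw [ind_of h4, ind_of h5, ind_of h7, one_mul, h6]
      · have h4 : ind (U' v = U' w) * (a v * (ind ((L u, U u) = (L v, U v)) / P.m (fun u => (L u, U' u)) v)) = 0 := by
          rcases not_and_or.1 h3 with h | h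
          · rw [ind_not h, zero_mul]
          · rw [ind_not h, zero_div, mul_zero, mul_zero]
        rw [h4]
        exact mul_nonneg (ha0 u) (div_nonneg (ind_nonneg _) hm)
    · rw [ind_not hu, zero_mul]
      refine le_of_eq ?_
      have h2 : P.E (fun v => ind (U' v = U' w) * (a v *
          (ind ((L u, U u) = (L v, U v)) / P.m (fun u => (L u, U' u)) v))) = P.E (fun _ => 0) := by
        refine P.E_congr fun v _ => ?_
        by_cases h3 : U' v = U' w ∧ (L u, U u) = (L v, U v)
        · exact absurd ((Prod.mk.inj h3.2).2.trans (hU v w h3.1)) hu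
        · rcases not_and_or.1 h3 with h | h
          · rw [ind_not h, zero_mul]
          · rw [ind_not h, zero_div, mul_zero, mul_zero]
      rw [h2, P.E_const]
  have e1 : P.m U w / P.m U' w * P.ce U a w = P.E (fun u => ind (U u = U w) * a u) / P.m U' w := by
    unfold FP.ce
    field_simp
  rw [e1]
  exact div_le_div_of_nonneg_right key p2.le

/-- the mean of the factor -/
theorem E_exp_ai (hN : ∀ k, Fac (N (k + 1)) (N k)) (hY : ∀ k, Fac (La k) Ya) (k : ℕ) :
    P.E (fun w => Real.exp (- ai P N La Ya k w)) ≤ 1 := by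
  rw [← P.E_ce (fun w => (La k w, N k w))]
  exact P.E_le_const fun w hw => ce_exp_ai P hN hY k hw

/-- light values and an event of the letters -/
theorem E_lit_exp (hN : ∀ k, Fac (N (k + 1)) (N k)) (hY : ∀ k, Fac (La k) Ya) {k : ℕ}
    (hprod : ∀ w, P.p w ≠ 0 → P.m (fun u => (Ya u, N (k + 1) u)) w * P.m (N k) w =
      P.m (fun u => (Ya u, N k u)) w * P.m (N (k + 1)) w)
    {A b : Om → Prop} (hA : Fac (fun w => (La k w, N k w)) A) (hb : Fac (N (k + 1)) b) {q : ℝ}
    (hq : ∀ w, P.p w ≠ 0 → P.ce (N k) (fun u => ind (A u)) w ≤ q) :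
    P.E (fun w => ind (b w) * (ind (A w) * Real.exp (- ai P N La Ya k w))) ≤ q * P.Pr b := by
  set g : Om → ℝ := fun w => ind (b w) * (P.m (N (k + 1)) w / P.m (N k) w) with hg
  have hgf : Fac (N (k + 1)) g := by
    intro u w huw
    rw [hg]
    simp only
    rw [hb u w huw, P.Fac_m (N (k + 1)) u w huw, P.Fac_m (N k) u w (hN k u w huw)]
  have e1 : P.E (fun w => ind (b w) * (ind (A w) * Real.exp (- ai P N La Ya k w))) =
      P.E (fun w => g w * (ind (A w) * (P.m (fun u => (La k u, N k u)) w / P.m (fun u => (La k u, N (k + 1) u)) w))) := by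
    refine P.E_congr fun w hw => ?_
    have e : ∀ j w, P.m (fun v => (La k v, Ya v, N j v)) w = P.m (fun v => (La k v, N j v)) w := fun j =>
      P.m_congr (fun a b hab => by simp only [Prod.mk.injEq] at hab ⊢; exact ⟨hab.1, hab.2.2⟩)
        (fun a b hab => by simp only [Prod.mk.injEq] at hab ⊢; exact ⟨hab.1, hY k a b hab.1, hab.2⟩)
    rw [exp_neg_ai P hY k hw]
    unfold Dead.rr
    rw [e, e, hg]
    simp only
    have p1 := (P.m_pos (fun w => (La k w, N (k + 1) w)) hw).ne'
    have p2 := (P.m_pos (fun w => (Ya w, N (k + 1) w)) hw).ne'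
    have p3 := (P.m_pos (fun w => (La k w, N k w)) hw).ne'
    have p4 := (P.m_pos (fun w => (Ya w, N k w)) hw).ne'
    have p5 := (P.m_pos (N k) hw).ne'
    have p6 := (P.m_pos (N (k + 1)) hw).ne'
    have h1 : P.m (fun w => (Ya w, N (k + 1) w)) w / P.m (fun w => (Ya w, N k w)) w =
        P.m (N (k + 1)) w / P.m (N k) w := by
      rw [div_eq_div_iff p4 p5]
      have := hprod w hw
      linarith
    rw [← h1, mul_div_mul_comm]
    ring
  rw [e1, ← P.E_mul_ce hgf]
  have h2 : P.E (fun w => g w * P.ce (N (k + 1)) (fun w => ind (A w) *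
      (P.m (fun u => (La k u, N k u)) w / P.m (fun u => (La k u, N (k + 1) u)) w)) w) ≤ P.E (fun w => q * ind (b w)) := by
    refine P.E_mono fun w hw => ?_
    have p5 := P.m_pos (N k) hw
    have p6 := P.m_pos (N (k + 1)) hw
    have h3 := ce_rat (P := P) (L := La k) (U := N k) (U' := N (k + 1)) (hN k) (a := fun u => ind (A u))
      (fun u w huw => by simp only [hA u w huw]) (fun _ => ind_nonneg _) hw
    have hg0 : 0 ≤ g w := mul_nonneg (ind_nonneg _) (div_nonneg p6.le p5.le)
    refine (mul_le_mul_of_nonneg_left h3 hg0).trans ?_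
    have h4 : g w * (P.m (N k) w / P.m (N (k + 1)) w * P.ce (N k) (fun u => ind (A u)) w) =
        ind (b w) * P.ce (N k) (fun u => ind (A u)) w := by
      rw [hg]
      simp only
      have := p5.ne'
      have := p6.ne'
      field_simp
    rw [h4, mul_comm q]
    exact mul_le_mul_of_nonneg_left (hq w hw) (ind_nonneg _)
  refine h2.trans (le_of_eq ?_)
  rw [P.E_smul]
  rfl

theorem thrown (hN : ∀ k, Fac (N (k + 1)) (N k)) (hL : ∀ k, Fac (La (k + 1)) (La k)) (hY : ∀ k, Fac (La k) Ya)
    (hprod : ∀ k, k % 2 = 1 → ∀ w, P.p w ≠ 0 → P.m (fun u => (Ya u, N (k + 1) u)) w * P.m (N k) w =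
      P.m (fun u => (Ya u, N k u)) w * P.m (N (k + 1)) w)
    {A : ℕ → Om → Prop} (hA : ∀ k, Fac (fun w => (La k w, N k w)) (A k)) {q : ℝ} (hq0 : 0 < q) (hq1 : q < 1)
    (hq : ∀ k w, P.p w ≠ 0 → P.ce (N k) (fun u => ind (A k u)) w ≤ q) (B : ℝ) (T : ℕ) :
    1 / 2 * Real.log (1 / q) * ∑ k ∈ range T, P.Pr (fun w => lit P N B k w ∧ A k w) ≤
      ∑ k ∈ range T, P.E (ai P N La Ya k) + Real.sqrt q * ∑ k ∈ range T, P.Pr (lit P N B k) := by
  rw [Finset.mul_sum, Finset.mul_sum, ← Finset.sum_add_distrib]
  refine Finset.sum_le_sum fun k _ => ?_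
  set t : ℝ := 1 / 2 * Real.log (1 / q) with ht
  have hlog : 0 < Real.log (1 / q) := Real.log_pos (by rw [lt_div_iff₀ hq0]; linarith)
  have ht0 : 0 < t := by rw [ht]; linarith
  have hE1 := E_exp_ai (P := P) (La := La) hN hY k
  by_cases hk : k % 2 = 1
  · have hlitf : Fac (N (k + 1)) (lit P N B k) := by
      intro u w huw
      unfold lit
      rw [P.Fac_m (N (k + 1)) u w huw, P.Fac_m (N k) u w (hN k u w huw)]
    have h1 := E_lit_exp (P := P) (La := La) (Ya := Ya) hN hY (hprod k hk) (hA k) hlitf (hq k)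
    -- pointwise inequality
    have h2 : P.E (fun w => t * ind (lit P N B k w ∧ A k w) + 1 - (Real.exp (- ai P N La Ya k w) +
        (Real.exp t - 1) * (ind (lit P N B k w) * (ind (A k w) * Real.exp (- ai P N La Ya k w))))) ≤
        P.E (ai P N La Ya k) := by
      refine P.E_mono fun w _ => ?_
      have h3 := Real.add_one_le_exp (t * ind (lit P N B k w ∧ A k w) - ai P N La Ya k w)
      have h4 : Real.exp (t * ind (lit P N B k w ∧ A k w) - ai P N La Ya k w) = Real.exp (- ai P N La Ya k w) +
          (Real.exp t - 1) * (ind (lit P N B k w) * (ind (A k w) * Real.exp (- ai P N La Ya k w))) := by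
        rw [sub_eq_add_neg, Real.exp_add]
        by_cases h5 : lit P N B k w
        · by_cases h6 : A k w
          · rw [ind_of (show lit P N B k w ∧ A k w from ⟨h5, h6⟩), ind_of h5, ind_of h6, mul_one]
            ring
          · rw [ind_not (fun h => h6 h.2), ind_not h6, mul_zero, Real.exp_zero]
            ring
        · rw [ind_not (fun h => h5 h.1), ind_not h5, mul_zero, Real.exp_zero]
          ring
      linarith
    rw [P.E_sub, P.E_add, P.E_const, P.E_add, P.E_smul, P.E_smul] at h2
    have h3 : P.E (fun w => ind (lit P N B k w ∧ A k w)) = P.Pr (fun w => lit P N B k w ∧ A k w) := rfl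
    rw [h3] at h2
    have het : 0 ≤ Real.exp t - 1 := by
      have := Real.add_one_le_exp t
      linarith
    have h4 := mul_le_mul_of_nonneg_left h1 het
    have hsq : Real.exp t * q = Real.sqrt q := by
      have h5 : Real.exp t = (Real.sqrt q)⁻¹ := by
        rw [ht, Real.sqrt_eq_rpow, ← Real.rpow_neg hq0.le, Real.rpow_def_of_pos hq0, one_div q, Real.log_inv]
        congr 1
        ring
      rw [h5, inv_mul_eq_div]
      exact Real.div_sqrt
    have h5 : (Real.exp t - 1) * (q * P.Pr (lit P N B k)) ≤ Real.sqrt q * P.Pr (lit P N B k) := by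
      have h6 : (Real.exp t - 1) * q ≤ Real.sqrt q := by
        rw [sub_mul, hsq]
        linarith
      have h7 := mul_le_mul_of_nonneg_right h6 (P.Pr_nonneg (lit P N B k))
      linarith
    linarith
  · have h1 : P.Pr (fun w => lit P N B k w ∧ A k w) = 0 := by
      have h2 : P.Pr (fun w => lit P N B k w ∧ A k w) = P.E (fun _ => 0) :=
        P.E_congr fun w _ => ind_not fun h => hk h.1.1
      rw [h2, P.E_const]
    have h3 : 0 ≤ P.E (ai P N La Ya k) := by
      have h4 : P.E (fun w => 1 - Real.exp (- ai P N La Ya k w)) ≤ P.E (ai P N La Ya k) := by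
        refine P.E_mono fun w _ => ?_
        have := Real.add_one_le_exp (- ai P N La Ya k w)
        linarith
      rw [P.E_sub, P.E_const] at h4
      linarith
    rw [h1, mul_zero]
    exact add_nonneg h3 (mul_nonneg (Real.sqrt_nonneg _) (P.Pr_nonneg _))

/-- strong letters are paid -/
theorem strong_le (hN : ∀ k, Fac (N (k + 1)) (N k)) (hL : ∀ k, Fac (La (k + 1)) (La k)) (hY : ∀ k, Fac (La k) Ya) (T : ℕ) :
    ∑ k ∈ range T, P.Pr (fun w => 2 ≤ ai P N La Ya k w) ≤ ∑ k ∈ range T, P.E (ai P N La Ya k) := by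
  refine Finset.sum_le_sum fun k _ => ?_
  have hE1 := E_exp_ai (P := P) (La := La) hN hY k
  have h4 : P.E (fun w => ind (2 ≤ ai P N La Ya k w) + (1 - Real.exp (- ai P N La Ya k w))) ≤ P.E (ai P N La Ya k) := by
    refine P.E_mono fun w _ => ?_
    by_cases h : 2 ≤ ai P N La Ya k w
    · rw [ind_of h]
      have := Real.exp_pos (- ai P N La Ya k w)
      linarith
    · rw [ind_not h]
      have := Real.add_one_le_exp (- ai P N La Ya k w)
      linarith
  rw [P.E_add, P.E_sub, P.E_const] at h4
  have h5 : P.E (fun w => ind (2 ≤ ai P N La Ya k w)) = P.Pr (fun w => 2 ≤ ai P N La Ya k w) := rfl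
  linarith

end Pool.Agent.GMH.TD
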