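import Pool.Agent.GMH.TDdef

/-!
# GMH.TD6S: event saturation of one thin letter at the even half steps, law of the time `0` (helper80)

* `SQ.LE`: two laws with the same means of functions of the positions; stable under conditioning on events of the positions,
  the relative entropies of functions of the positions agree; `SQ.LE_P`: the laws of the times `t` and `0`.
* `sat_q`: `RowV.sat_one` under the law of the time `0`.
-/

set_option autoImplicit false
set_option linter.unusedSectionVars false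

namespace Pool.Agent.GMH.TD

open Finset Pool.Agent.PWZ Pool.Agent.M3 Pool.Agent.GM Pool.Agent.GM.Harm Pool.Agent.GMH Pool.Agent.GMH.NZ
open Pool.Agent.GMH.V3 Pool.Agent.GMH.Gdy

namespace SQ

section gen

variable {Om ζ κ : Type*} [Fintype Om]

/-- the same means of the functions of `Z` -/
def LE (Z : Om → ζ) (P Q : FP Om) : Prop := ∀ f : Om → ℝ, Fac Z f → P.E f = Q.E f

variable {Z : Om → ζ} {P Q P' Q' : FP Om}

theorem LE.pr (H : LE Z P Q) {S : Om → Prop} (hS : Fac Z S) : P.Pr S = Q.Pr S :=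
  H _ fun a b hab => by rw [hS a b hab]

theorem LE.cond (H : LE Z P Q) {S : Om → Prop} (hS : Fac Z S) : LE Z (P.cond S) (Q.cond S) := by
  intro f hf
  have h1 := H.pr hS
  by_cases h0 : P.Pr S = 0
  · have e1 : P.cond S = P := by unfold FP.cond; rw [dif_pos h0]
    have e2 : Q.cond S = Q := by unfold FP.cond; rw [dif_pos (h1 ▸ h0)]
    rw [e1, e2]
    exact H f hf
  · have h0' : Q.Pr S ≠ 0 := h1 ▸ h0
    rw [FP.cond_E h0, FP.cond_E h0', h1]
    congr 1
    exact H _ fun a b hab => by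
      show ind (S a) * f a = ind (S b) * f b
      rw [hS a b hab, hf a b hab]

theorem LE.m (H : LE Z P Q) {Y : Om → κ} (hY : Fac Z Y) (w : Om) : P.m Y w = Q.m Y w :=
  H _ fun a b hab => by
    show ind (Y a = Y w) = ind (Y b = Y w)
    rw [hY a b hab]

theorem LE.kl (H : LE Z P Q) (H' : LE Z P' Q') {Y : Om → κ} (hY : Fac Z Y) : P.kl P' Y = Q.kl Q' Y := by
  unfold FP.kl
  have e1 : (fun w => Real.log (P.m Y w / P'.m Y w)) = fun w => Real.log (Q.m Y w / Q'.m Y w) := by
    funext w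
    rw [H.m hY, H'.m hY]
  rw [e1]
  refine H _ fun a b hab => ?_
  show Real.log (Q.m Y a / Q'.m Y a) = Real.log (Q.m Y b / Q'.m Y b)
  rw [Q.Fac_m Y a b (hY a b hab), Q'.Fac_m Y a b (hY a b hab)]

end gen

variable {X β γ φ : Type} [Fintype X] [Fintype β] [Fintype φ] [Nonempty X] [Nonempty β]
variable {D : HD (Fin 3) X β γ φ} {al : ℝ} {h : D.Thick al}

/-- the positions -/
def pos (w : Pt (Fin 3) X β φ) : X × (Fin 3 → β) := (w.1, w.2.1)

theorem LE_P (t s : ℕ) : LE pos (D.P h t) (D.P h s) := by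
  intro f hf
  obtain ⟨w0, -⟩ := (D.P h t).exists_p_ne
  have e1 : f = fun w => (fun z : X × (Fin 3 → β) => f (z.1, z.2, w0.2.2)) (w.1, w.2.1) := by
    funext w
    exact hf w (w.1, w.2.1, w0.2.2) rfl
  rw [e1, E_pts h t (fun z : X × (Fin 3 → β) => f (z.1, z.2, w0.2.2)),
    E_pts h s (fun z : X × (Fin 3 → β) => f (z.1, z.2, w0.2.2))]

/-- a point of the time `t` at given positions -/
theorem pos_ex (t : ℕ) {w : Pt (Fin 3) X β φ} (hw : (D.P h 0).p w ≠ 0) :
    ∃ c : Pt (Fin 3) X β φ, (D.P h t).p c ≠ 0 ∧ pos c = pos w := by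
  have h1 : (D.P h t).Pr (fun u => pos u = pos w) = (D.P h 0).Pr fun u => pos u = pos w :=
    (LE_P t 0).pr fun a b hab => by rw [hab]
  have h2 : 0 < (D.P h 0).Pr fun u => pos u = pos w := FP.Pr_pos_of hw rfl
  rw [← h1] at h2
  by_contra hcon
  push Not at hcon
  refine h2.ne' ?_
  unfold FP.Pr
  rw [← (D.P h t).E_const 0]
  exact FP.E_congr _ fun u hu => ind_not (hcon u hu)

end SQ

section main

variable {X β γ φ : Type} [Fintype X] [Fintype β] [Fintype φ] [Nonempty X] [Nonempty β]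
variable {D : HD (Fin 3) X β γ φ} {al : ℝ} {h : D.Thick al} {v : ℕ → Finset (Fin 3) → X → (Fin 3 → β) → Pt (Fin 3) X β φ}
  {N : Finset (Fin 3) → ℝ} {S : Finset (Finset (Fin 3))} {N1 : ℝ}

theorem sat_q (R : Run h N S (AdmDep D) v) (hp : Prc N S N1) {r : ℕ} (hr : r % 2 = 0) {w : Pt (Fin 3) X β φ}
    (hw : (D.P h 0).p w ≠ 0) {E : X → Prop} (hE : (clq h v r w).Pr (fun u => E u.1) ≠ 0) (d : Fin 3) :
    N1 * ((clq h v r w).cond fun u => E u.1).kl (clq h v r w) (XLr v r d) ≤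
      2 * (Real.log (1 / (clq h v r w).Pr (fun u => E u.1)) + 1) := by
  obtain ⟨c, hc, hcw⟩ := SQ.pos_ex (h := h) (r / 2) hw
  have ht : nt r = r / 2 := by unfold nt; omega
  have hfac : ∀ a b : Pt (Fin 3) X β φ, SQ.pos a = SQ.pos b → a.1 = b.1 ∧ a.2.1 = b.2.1 := fun a b hab =>
    ⟨(Prod.mk.inj hab).1, (Prod.mk.inj hab).2⟩
  have hNP : Fac SQ.pos (NP (φ := φ) D v (r / 2 + 1) (r / 2)) := fun a b hab => by
    unfold NP nd
    rw [(hfac a b hab).1, (hfac a b hab).2]
  have hXL : Fac SQ.pos (XL (φ := φ) v (r / 2 + 1) d) := fun a b hab => by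
    unfold XL
    rw [(hfac a b hab).1, (hfac a b hab).2]
  have e1 : clq h v r w = (D.P h 0).cond fun u => NP D v (r / 2 + 1) (r / 2) u = NP D v (r / 2 + 1) (r / 2) c := by
    unfold clq Pc tm
    rw [ht, hNP c w hcw]
  have hS : Fac SQ.pos (fun u : Pt (Fin 3) X β φ => NP D v (r / 2 + 1) (r / 2) u = NP D v (r / 2 + 1) (r / 2) c) :=
    fun a b hab => by beta_reduce; rw [hNP a b hab]
  have L1 : SQ.LE SQ.pos (Pc h v (r / 2) (r / 2 + 1) (r / 2) c) (clq h v r w) := by
    rw [e1]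
    exact (SQ.LE_P (h := h) (r / 2) 0).cond hS
  have hEf : Fac SQ.pos (fun u : Pt (Fin 3) X β φ => E u.1) := fun a b hab => by beta_reduce; rw [(hfac a b hab).1]
  have hE' : (Pc h v (r / 2) (r / 2 + 1) (r / 2) c).Pr (fun w => E w.1) ≠ 0 := by
    rw [L1.pr hEf]
    exact hE
  have key := sat_one R hp.nn hp.e0 hp.s1 (r / 2) hc hE' d
  rw [L1.pr hEf, (L1.cond hEf).kl L1 hXL, hp.n0, mul_one] at key
  refine le_trans (mul_le_mul_of_nonneg_right (hp.n1 d) (FP.kl_nonneg (FP.cond_ac _ _) _)) key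

end main

end Pool.Agent.GMH.TD
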