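import Pool.Agent.GMH.TD9
import Pool.Agent.GMH.TD6S

/-!
# GMH.TD9A: thin dynamics, exceptional positions are rare (statement of helper27, proof of helper80)

One class `Q = clq (last even half step)`, one point of `e`: `Rare.exc_le` with `X` = hidden point, `L = XLr v r d`,
`Z` trivial, `A φ` = the rows of a family `φ` and the point of `d` in the cell of the half step `r`, `F` = lists of
alive rows `(i, letters of J0, c)`: at most `(M exp X1) ^ n` lists of length `n`.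
-/

set_option autoImplicit false
set_option linter.unusedSectionVars false

namespace Pool.Agent.GMH.TD

open Finset Pool.Agent.PWZ Pool.Agent.M3 Pool.Agent.GM Pool.Agent.GM.Harm Pool.Agent.GMH Pool.Agent.GMH.NZ
open Pool.Agent.GMH.V3 Pool.Agent.GMH.Gdy

namespace NA

section gen

theorem klc_unit {Om κ : Type*} [Fintype Om] (Q P : FP Om) (X : Om → κ) : Q.klc P X (fun _ => ()) = Q.kl P X := by
  unfold FP.klc FP.kl
  refine Q.E_congr fun w _ => ?_
  have h1 : ∀ P : FP Om, P.m (fun v => (X v, ())) w = P.m X w := fun P => by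
    unfold FP.m
    exact P.E_congr fun v _ => ind_cg (by rw [Prod.mk.injEq]; exact and_iff_left rfl)
  have h2 : ∀ P : FP Om, P.m (fun _ => ()) w = 1 := fun P => by
    unfold FP.m
    rw [P.E_congr (g := fun _ => (1 : ℝ)) fun v _ => ind_of rfl, P.E_const]
  rw [h1, h1, h2, h2, div_one, div_one]

theorem indep_unit {Om κ : Type*} [Fintype Om] (P : FP Om) (X : Om → κ) : P.Indep X (fun _ => ()) := by
  intro f g _ hg
  obtain ⟨w0, hw0⟩ := P.exists_p_ne
  have h1 : g = fun _ => g w0 := funext fun w => hg w w0 rfl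
  rw [h1, P.E_mul_const, P.E_const]

/-- lists of rows from a finite set -/
noncomputable def lst {R : Type*} (G : Finset R) (M : ℕ) : Finset (Σ n : ℕ, Fin n → R) := by
  classical
  exact (Finset.Icc 1 M).sigma fun n => Fintype.piFinset fun _ : Fin n => G

theorem mem_lst {R : Type*} {G : Finset R} {M : ℕ} {φ : Σ n : ℕ, Fin n → R} :
    φ ∈ lst G M ↔ (1 ≤ φ.1 ∧ φ.1 ≤ M) ∧ ∀ k, φ.2 k ∈ G := by
  classical
  unfold lst
  rw [Finset.mem_sigma, Finset.mem_Icc, Fintype.mem_piFinset]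

theorem card_lst {R : Type*} (G : Finset R) (M : ℕ) {B : ℝ} (hB : (G.card : ℝ) ≤ B) (i : ℕ) :
    (((lst G M).filter fun φ => φ.1 = i).card : ℝ) ≤ B ^ i := by
  classical
  have h1 : ((lst G M).filter fun φ => φ.1 = i) ⊆
      (Fintype.piFinset fun _ : Fin i => G).image fun f => (⟨i, f⟩ : Σ n : ℕ, Fin n → R) := by
    rintro ⟨n, f⟩ hf
    obtain ⟨h1, h2⟩ := Finset.mem_filter.1 hf
    have h3 : n = i := h2
    subst h3
    exact Finset.mem_image.2 ⟨f, Fintype.mem_piFinset.2 (mem_lst.1 h1).2, rfl⟩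
  have h2 := (Finset.card_le_card h1).trans Finset.card_image_le
  rw [Fintype.card_piFinset_const] at h2
  have h3 : (((lst G M).filter fun φ => φ.1 = i).card : ℝ) ≤ (G.card : ℝ) ^ i := by exact_mod_cast h2
  exact h3.trans (pow_le_pow_left₀ (Nat.cast_nonneg _) hB i)

end gen

section pos

variable {X β γ φ υ : Type} [Fintype X] [Fintype β] [Fintype φ] [Nonempty X] [Nonempty β]
variable {D : HD (Fin 3) X β γ φ} {al : ℝ} (h : D.Thick al) {v : ℕ → Finset (Fin 3) → X → (Fin 3 → β) → υ}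

/-- masses of functions of the positions are positive everywhere -/
theorem m_pos_pos {κ : Type*} {Z : Pt (Fin 3) X β φ → κ} (hZ : ∀ (x : X) (y : Fin 3 → β) (F F' : Fin 3 → φ),
    Z (x, y, F) = Z (x, y, F')) (t : ℕ) (w : Pt (Fin 3) X β φ) : 0 < (D.P h t).m Z w := by
  obtain ⟨w0, _⟩ := (D.P h t).exists_p_ne
  have e : (D.P h t).m Z w = (∑ x, ∑ y, ind (Z (x, y, w0.2.2) = Z w)) / nn X β (Fin 3) := by
    rw [← E_labels0 h t fun x y => ind (Z (x, y, w0.2.2) = Z w)]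
    unfold FP.m
    refine (D.P h t).E_congr fun u _ => ?_
    show ind (Z u = Z w) = ind (Z (u.1, u.2.1, w0.2.2) = Z w)
    rw [hZ u.1 u.2.1 w0.2.2 u.2.2]
  rw [e]
  refine div_pos ?_ nn_pos
  refine Finset.sum_pos' (fun x _ => Finset.sum_nonneg fun y _ => ind_nonneg _) ⟨w.1, mem_univ _, ?_⟩
  refine Finset.sum_pos' (fun y _ => ind_nonneg _) ⟨w.2.1, mem_univ _, ?_⟩
  rw [ind_of (hZ w.1 w.2.1 w0.2.2 w.2.2)]
  exact one_pos

open Classical in
/-- the alive letters of `J0`, `c` at the point `b'` of `c` and the point `b` of `e` -/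
noncomputable def ALs (v : ℕ → Finset (Fin 3) → X → (Fin 3 → β) → υ) (θ X1 p1 : ℝ) (J0 : Finset (Fin 3))
    (e c d : Fin 3) (ν : ℕ) (w0 : Pt (Fin 3) X β φ) (b b' : β) : Finset (Fin 3 → Option (β × List υ)) :=
  ((univ : Finset (Pt (Fin 3) X β φ)).filter fun z => NPr v D ν z = NPr v D ν w0 ∧ HRq h v θ X1 p1 J0 c d ν z ∧
    z.2.1 c = b' ∧ (e ∈ J0 → z.2.1 e = b)).image (LJ v (insert c J0) ν)

theorem mem_ALs {θ X1 p1 : ℝ} {J0 : Finset (Fin 3)} {e c d : Fin 3} {ν : ℕ} {w0 : Pt (Fin 3) X β φ} {b b' : β}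
    {l : Fin 3 → Option (β × List υ)} : l ∈ ALs h v θ X1 p1 J0 e c d ν w0 b b' ↔
      ∃ z, (NPr v D ν z = NPr v D ν w0 ∧ HRq h v θ X1 p1 J0 c d ν z ∧ z.2.1 c = b' ∧ (e ∈ J0 → z.2.1 e = b)) ∧
        LJ v (insert c J0) ν z = l := by
  classical
  unfold ALs
  rw [Finset.mem_image]
  simp only [Finset.mem_filter, mem_univ, true_and]

theorem LJ_at {J : Finset (Fin 3)} {ν : ℕ} {a b : Pt (Fin 3) X β φ} (hab : LJ v J ν a = LJ v J ν b) {j : Fin 3}
    (hj : j ∈ J) : XLr v ν j a = XLr v ν j b := by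
  have h1 := congrFun hab j
  unfold LJ at h1
  rw [if_pos hj, if_pos hj] at h1
  exact Option.some.inj h1

theorem PJ_iff {J : Finset (Fin 3)} {a b : Pt (Fin 3) X β φ} : PJ J a = PJ J b ↔ ∀ j ∈ J, a.2.1 j = b.2.1 j := by
  constructor
  · intro hab j hj
    have h1 := congrFun hab j
    unfold PJ at h1
    rw [if_pos hj, if_pos hj] at h1
    exact Option.some.inj h1
  · intro hh
    funext j
    unfold PJ
    by_cases hj : j ∈ J
    · rw [if_pos hj, if_pos hj, hh j hj]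
    · rw [if_neg hj, if_neg hj]

/-- **at most `exp X1` alive letters** -/
theorem card_ALs {θ X1 p1 : ℝ} {J0 : Finset (Fin 3)} {e c d : Fin 3} (ht : Tri3 J0 e c d) {ν : ℕ}
    {w0 : Pt (Fin 3) X β φ} {b b' : β} : ((ALs h v θ X1 p1 J0 e c d ν w0 b b').card : ℝ) ≤ Real.exp X1 := by
  classical
  set P := D.P h 0 with hP
  set A := ALs h v θ X1 p1 J0 e c d ν w0 b b' with hA
  rcases A.eq_empty_or_nonempty with h0 | ⟨l0, hl0⟩
  · rw [h0, Finset.card_empty, Nat.cast_zero]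
    exact (Real.exp_pos _).le
  set m0 := P.Pr (fun u => NPr v D ν u = NPr v D ν w0 ∧ u.2.1 c = b' ∧ (e ∈ J0 → u.2.1 e = b)) with hm0
  have hsub : ∀ j ∈ J0, j = e := fun j hj => Finset.mem_singleton.1 (ht.sub hj)
  have key : ∀ z : Pt (Fin 3) X β φ, NPr v D ν z = NPr v D ν w0 → z.2.1 c = b' → (e ∈ J0 → z.2.1 e = b) →
      P.m (fun u => (PJ (insert c J0) u, NPr v D ν u)) z = m0 := by
    intro z h1 h2 h3
    rw [hm0]
    unfold FP.m FP.Pr
    refine P.E_congr fun u _ => ind_cg ?_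
    rw [Prod.mk.injEq, PJ_iff, h1]
    constructor
    · rintro ⟨k1, k2⟩
      refine ⟨k2, (k1 c (Finset.mem_insert_self c J0)).trans h2, fun he => ?_⟩
      exact (k1 e (Finset.mem_insert_of_mem he)).trans (h3 he)
    · rintro ⟨k2, k1, k3⟩
      refine ⟨fun j hj => ?_, k2⟩
      rcases Finset.mem_insert.1 hj with hj | hj
      · rw [hj, k1, h2]
      · have := hsub j hj
        subst this
        rw [k3 hj, h3 hj]
  have hmass : ∀ l ∈ A, Real.exp (-X1) * m0 ≤
      P.Pr (fun u => NPr v D ν u = NPr v D ν w0 ∧ LJ v (insert c J0) ν u = l) := by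
    intro l hl
    obtain ⟨z, ⟨h1, h2, h3, h4⟩, h5⟩ := (mem_ALs h).1 hl
    have e1 := key z h1 h3 h4
    have e2 : P.m (fun u => (LJ v (insert c J0) ν u, NPr v D ν u)) z =
        P.Pr (fun u => NPr v D ν u = NPr v D ν w0 ∧ LJ v (insert c J0) ν u = l) := by
      unfold FP.m FP.Pr
      refine P.E_congr fun u _ => ind_cg ?_
      rw [Prod.mk.injEq, h1, h5]
      exact and_comm
    have hg : -X1 ≤ lJq h v (insert c J0) ν z := h2.2.2.1.1
    have p1 : 0 < P.m (fun u => (LJ v (insert c J0) ν u, NPr v D ν u)) z :=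
      m_pos_pos h (fun _ _ _ _ => rfl) 0 z
    have p2 : 0 < P.m (fun u => (PJ (insert c J0) u, NPr v D ν u)) z :=
      m_pos_pos h (fun _ _ _ _ => rfl) 0 z
    have h6 : Real.exp (-X1) ≤ P.m (fun u => (LJ v (insert c J0) ν u, NPr v D ν u)) z /
        P.m (fun u => (PJ (insert c J0) u, NPr v D ν u)) z := by
      have h7 := Real.exp_le_exp.2 hg
      unfold lJq lq at h7
      rwa [Real.exp_log (div_pos p1 p2)] at h7
    rw [le_div_iff₀ p2, e1, e2] at h6
    exact h6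
  have hm0p : 0 < m0 := by
    obtain ⟨z, ⟨h1, _, h3, h4⟩, _⟩ := (mem_ALs h).1 hl0
    rw [← key z h1 h3 h4]
    exact m_pos_pos h (fun _ _ _ _ => rfl) 0 z
  have hsum : ∑ l ∈ A, P.Pr (fun u => NPr v D ν u = NPr v D ν w0 ∧ LJ v (insert c J0) ν u = l) ≤ m0 := by
    unfold FP.Pr at hm0 ⊢
    rw [← P.E_sum, hm0]
    refine P.E_mono fun u _ => ?_
    by_cases hu : NPr v D ν u = NPr v D ν w0 ∧ LJ v (insert c J0) ν u ∈ A
    · have h1 : ∑ l ∈ A, ind (NPr v D ν u = NPr v D ν w0 ∧ LJ v (insert c J0) ν u = l) = 1 := by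
        rw [Finset.sum_eq_single (LJ v (insert c J0) ν u)]
        · exact ind_of ⟨hu.1, rfl⟩
        · intro l _ hl
          exact ind_not fun hc => hl hc.2.symm
        · intro hc
          exact absurd hu.2 hc
      rw [h1]
      obtain ⟨z, ⟨_, _, h3, h4⟩, h5⟩ := (mem_ALs h).1 hu.2
      refine le_of_eq (Eq.symm (ind_of ⟨hu.1, ?_, fun he => ?_⟩))
      · have h6 := LJ_at h5 (Finset.mem_insert_self c J0)
        exact (congrArg Prod.fst h6).symm.trans h3
      · have h6 := LJ_at h5 (Finset.mem_insert_of_mem he)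
        exact (congrArg Prod.fst h6).symm.trans (h4 he)
    · have h1 : ∑ l ∈ A, ind (NPr v D ν u = NPr v D ν w0 ∧ LJ v (insert c J0) ν u = l) = 0 :=
        Finset.sum_eq_zero fun l hl => ind_not fun hc => hu ⟨hc.1, hc.2 ▸ hl⟩
      rw [h1]
      exact ind_nonneg _
  have h1 := Finset.sum_le_sum hmass
  rw [Finset.sum_const, nsmul_eq_mul] at h1
  have h2 : (A.card : ℝ) * Real.exp (-X1) ≤ 1 := by
    by_contra hc
    have := mul_lt_mul_of_pos_right (not_le.1 hc) hm0p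
    linarith
  rw [Real.exp_neg, ← div_eq_mul_inv, div_le_one (Real.exp_pos _)] at h2
  exact h2

theorem prod_two {e d : Fin 3} (a b : ℝ) :
    ∏ j : Fin 3, ((if j = e then a else 1) * (if j = d then b else 1)) = a * b := by
  rw [Finset.prod_mul_distrib, Finset.prod_ite_eq' univ e, Finset.prod_ite_eq' univ d, if_pos (mem_univ e),
    if_pos (mem_univ d)]

theorem prod_pt {e d : Fin 3} (p q : β → ℝ) (y : Fin 3 → β) :
    ∏ j : Fin 3, ((if j = e then p (y j) else 1) * (if j = d then q (y j) else 1)) = p (y e) * q (y d) := by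
  rw [Finset.prod_mul_distrib]
  congr 1
  · rw [Finset.prod_eq_single e]
    · rw [if_pos rfl]
    · intro j _ hj
      rw [if_neg hj]
    · intro hc; exact absurd (mem_univ _) hc
  · rw [Finset.prod_eq_single d]
    · rw [if_pos rfl]
    · intro j _ hj
      rw [if_neg hj]
    · intro hc; exact absurd (mem_univ _) hc

theorem prod_nu {e d : Fin 3} (hed : e ≠ d) (n : ℕ) (c : Pt (Fin 3) X β φ) (p q : β → ℝ) :
    ∏ j : Fin 3, (nuC D n c j).E (fun b => (if j = e then p b else 1) * (if j = d then q b else 1)) =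
      (nuC D n c e).E p * (nuC D n c d).E q := by
  rw [← prod_two (e := e) (d := d) ((nuC D n c e).E p) ((nuC D n c d).E q)]
  refine Finset.prod_congr rfl fun j _ => ?_
  by_cases h1 : j = e
  · subst h1
    simp only [if_true, hed, if_false, mul_one]
  · by_cases h2 : j = d
    · subst h2
      simp only [if_true, h1, if_false, one_mul]
    · simp only [h1, h2, if_false, mul_one, FP.E_const]

theorem cell_two (hv : Codes D v) {s n : ℕ} (hs : s ≤ n + 1) (c : Pt (Fin 3) X β φ) {e d : Fin 3} (hed : e ≠ d)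
    (G : X → ℝ) (p q : β → ℝ) :
    (D.P h 0).E (fun w => ind (NP D v s n w = NP D v s n c) * (G w.1 * (p (w.2.1 e) * q (w.2.1 d)))) =
      ((FP.unif X).Pr (cX D v s n c) * ∏ j, (FP.unif β).Pr (cY D n c j)) *
        ((muC D v s n c).E G * ((nuC D n c e).E p * (nuC D n c d).E q)) := by
  have h1 := cell_E (h := h) hv 0 hs c G fun j b => (if j = e then p b else 1) * (if j = d then q b else 1)
  rw [prod_nu hed n c p q] at h1
  rw [← h1]
  refine (D.P h 0).E_congr fun w _ => ?_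
  rw [prod_pt p q w.2.1]

theorem Pc_two (hv : Codes D v) {s n : ℕ} (hs : s ≤ n + 1) (c : Pt (Fin 3) X β φ) {e d : Fin 3} (hed : e ≠ d)
    (G : X → ℝ) (p q : β → ℝ) :
    (Pc h v 0 s n c).E (fun w => G w.1 * (p (w.2.1 e) * q (w.2.1 d))) =
      (muC D v s n c).E G * ((nuC D n c e).E p * (nuC D n c d).E q) := by
  have h1 := Pc_E (h := h) hv 0 hs c G fun j b => (if j = e then p b else 1) * (if j = d then q b else 1)
  rw [prod_nu hed n c p q] at h1
  rw [← h1]
  refine (Pc h v 0 s n c).E_congr fun w _ => ?_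
  rw [prod_pt p q w.2.1]

theorem tm_nt (r : ℕ) : tm r + 1 ≤ nt r + 1 := by
  unfold tm nt
  omega

/-- mean given the hidden point, the point of `e` and the public cell -/
theorem ce_pt (hv : Codes D v) {e d : Fin 3} (hed : e ≠ d) (r : ℕ) (w : Pt (Fin 3) X β φ) {f : Pt (Fin 3) X β φ → ℝ}
    {g : β → ℝ} (hf : ∀ z, NPr v D r z = NPr v D r w → z.1 = w.1 → f z = g (z.2.1 d)) :
    (D.P h 0).ce (fun z => (z.1, z.2.1 e, NPr v D r z)) f w = (nuC D (nt r) w d).E g := by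
  have hs := tm_nt r
  have hm : 0 < (D.P h 0).m (fun z => (z.1, z.2.1 e, NPr v D r z)) w := m_pos_pos h (fun _ _ _ _ => rfl) 0 w
  have e1 := cell_two h hv hs w hed (fun x => ind (x = w.1)) (fun b => ind (b = w.2.1 e)) g
  have e2 := cell_two h hv hs w hed (fun x => ind (x = w.1)) (fun b => ind (b = w.2.1 e)) (fun _ => (1 : ℝ))
  rw [FP.E_const, mul_one] at e2
  have e3 : (D.P h 0).m (fun z => (z.1, z.2.1 e, NPr v D r z)) w =
      (D.P h 0).E (fun z => ind (NP D v (tm r + 1) (nt r) z = NP D v (tm r + 1) (nt r) w) *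
        (ind (z.1 = w.1) * (ind (z.2.1 e = w.2.1 e) * 1))) := by
    unfold FP.m
    refine (D.P h 0).E_congr fun z _ => ?_
    show ind ((z.1, z.2.1 e, NPr v D r z) = (w.1, w.2.1 e, NPr v D r w)) = _
    rw [Prod.mk.injEq, Prod.mk.injEq, ind_and, ind_and]
    unfold NPr
    ring
  have e4 : (D.P h 0).E (fun z => ind ((z.1, z.2.1 e, NPr v D r z) = (w.1, w.2.1 e, NPr v D r w)) * f z) =
      (D.P h 0).E (fun z => ind (NP D v (tm r + 1) (nt r) z = NP D v (tm r + 1) (nt r) w) *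
        (ind (z.1 = w.1) * (ind (z.2.1 e = w.2.1 e) * g (z.2.1 d)))) := by
    refine (D.P h 0).E_congr fun z _ => ?_
    rw [Prod.mk.injEq, Prod.mk.injEq, ind_and, ind_and]
    by_cases h1 : NPr v D r z = NPr v D r w
    · by_cases h2 : z.1 = w.1
      · rw [hf z h1 h2]
        unfold NPr
        ring
      · rw [ind_not h2]
        ring
    · rw [ind_not h1]
      have h1' : ¬ NP D v (tm r + 1) (nt r) z = NP D v (tm r + 1) (nt r) w := h1
      rw [ind_not h1']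
      ring
  unfold FP.ce
  rw [e4, e1]
  rw [e3, e2] at hm ⊢
  rw [div_eq_iff hm.ne']
  ring

/-- mean given the hidden point in a public cell -/
theorem ce_pt' (hv : Codes D v) {d : Fin 3} {s n : ℕ} (hs : s ≤ n + 1) (c : Pt (Fin 3) X β φ)
    {w : Pt (Fin 3) X β φ} (hw : (Pc h v 0 s n c).p w ≠ 0) {f : Pt (Fin 3) X β φ → ℝ} {g : β → ℝ}
    (hf : ∀ z, NP D v s n z = NP D v s n c → z.1 = w.1 → f z = g (z.2.1 d)) :
    (Pc h v 0 s n c).ce (fun z => z.1) f w = (nuC D n c d).E g := by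
  have hm : 0 < (Pc h v 0 s n c).m (fun z => z.1) w := FP.m_pos _ _ hw
  obtain ⟨e, hed⟩ := exists_ne d
  have e1 := Pc_two h hv hs c hed (fun x => ind (x = w.1)) (fun _ => (1 : ℝ)) g
  rw [FP.E_const, one_mul] at e1
  have e2 : (Pc h v 0 s n c).m (fun z => z.1) w = (muC D v s n c).E fun x => ind (x = w.1) :=
    Pc_E0 (h := h) hv 0 hs c fun x => ind (x = w.1)
  have e4 : (Pc h v 0 s n c).E (fun z => ind (z.1 = w.1) * f z) =
      (Pc h v 0 s n c).E (fun z => ind (z.1 = w.1) * (1 * g (z.2.1 d))) := by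
    refine (Pc h v 0 s n c).E_congr fun z hz => ?_
    by_cases h2 : z.1 = w.1
    · rw [hf z (Pc_supp hv hs hz) h2]
      ring
    · rw [ind_not h2]
      ring
  unfold FP.ce
  show (Pc h v 0 s n c).E (fun z => ind (z.1 = w.1) * f z) / _ = _
  rw [e4, e1]
  rw [e2] at hm ⊢
  rw [div_eq_iff hm.ne']
  ring

theorem unif_cB (n : ℕ) (c : Pt (Fin 3) X β φ) (j : Fin 3) :
    (FP.unif β).Pr (cY D n c j) = (Fintype.card β : ℝ)⁻¹ * ((D.cB n (c.2.1 j)).card : ℝ) := by
  classical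
  unfold FP.Pr FP.E HD.cB
  rw [Finset.card_filter]
  push_cast
  rw [Finset.mul_sum]
  refine Finset.sum_congr rfl fun b _ => ?_
  show (Fintype.card β : ℝ)⁻¹ * ind (cY D n c j b) = _
  unfold cY
  by_cases hb : D.qb n b = D.qb n (c.2.1 j)
  · rw [ind_of hb, if_pos hb]
  · rw [ind_not hb, if_neg hb]

/-- the last even half step -/
theorem last_even (r : ℕ) : tm (r - r % 2) = tm r ∧ nt (r - r % 2) = tm r ∧ (r - r % 2) % 2 = 0 := by
  unfold tm nt
  omega

/-- law of a point in the cell of `r` and in the cell of the last even half step -/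
theorem nu_le {dg : ℕ → X → ℝ} {prr : ℕ → Fin 3 → φ → φ} {T : ℕ} {Lam : ℝ} (H : D.Hyp dg prr al T Lam) {r : ℕ}
    (hr : r ≤ 2 * T) {w0 w : Pt (Fin 3) X β φ} (hw : NPr v D r w = NPr v D r w0) (d : Fin 3) {g : β → ℝ}
    (hg : ∀ b, 0 ≤ g b) :
    (nuC D (nt r) w d).E g ≤ (1 + ((r % 2 : ℕ) : ℝ)) *
      (nuC D (nt (r - r % 2)) w0 d).E (fun b => g b * ind (D.qb (nt r) b = D.qb (nt r) (w0.2.1 d))) := by
  have hc : D.qb (nt r) (w.2.1 d) = D.qb (nt r) (w0.2.1 d) := by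
    have h1 : nd D (nt r) w = nd D (nt r) w0 := congrArg Prod.snd hw
    exact congrFun (congrArg Prod.snd h1) d
  set U := FP.unif β with hU
  have e1 : (nuC D (nt r) w d).E g = U.E (fun b => ind (D.qb (nt r) b = D.qb (nt r) (w0.2.1 d)) * g b) /
      U.Pr (cY D (nt r) w0 d) := by
    have h0 : U.Pr (cY D (nt r) w d) ≠ 0 := unif_ne (cY_self (nt r) w d)
    unfold nuC
    rw [FP.cond_E h0]
    unfold cY
    rw [hc]
  have hle : nt (r - r % 2) ≤ nt r := by
    unfold nt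
    omega
  have e2 : (nuC D (nt (r - r % 2)) w0 d).E (fun b => g b * ind (D.qb (nt r) b = D.qb (nt r) (w0.2.1 d))) =
      U.E (fun b => ind (D.qb (nt r) b = D.qb (nt r) (w0.2.1 d)) * g b) / U.Pr (cY D (nt (r - r % 2)) w0 d) := by
    have h0 : U.Pr (cY D (nt (r - r % 2)) w0 d) ≠ 0 := unif_ne (cY_self (nt (r - r % 2)) w0 d)
    unfold nuC
    rw [FP.cond_E h0]
    congr 1
    refine U.E_congr fun b _ => ?_
    unfold cY
    by_cases hb : D.qb (nt r) b = D.qb (nt r) (w0.2.1 d)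
    · rw [ind_of hb, ind_of (qb_mono D hle hb)]
      ring
    · rw [ind_not hb]
      ring
  rw [e1, e2]
  have hn : 0 ≤ U.E (fun b => ind (D.qb (nt r) b = D.qb (nt r) (w0.2.1 d)) * g b) :=
    U.E_nonneg fun b _ => mul_nonneg (ind_nonneg _) (hg b)
  have p1 : 0 < U.Pr (cY D (nt r) w0 d) := lt_of_le_of_ne (U.Pr_nonneg _) (Ne.symm (unif_ne (cY_self (nt r) w0 d)))
  have p2 : 0 < U.Pr (cY D (nt (r - r % 2)) w0 d) :=
    lt_of_le_of_ne (U.Pr_nonneg _) (Ne.symm (unif_ne (cY_self (nt (r - r % 2)) w0 d)))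
  have h3 : U.Pr (cY D (nt (r - r % 2)) w0 d) ≤ (1 + ((r % 2 : ℕ) : ℝ)) * U.Pr (cY D (nt r) w0 d) := by
    rcases Nat.mod_two_eq_zero_or_one r with h4 | h4
    · rw [h4]
      simp
    · have h5 : nt r = nt (r - 1) + 1 := by
        unfold nt
        omega
      have h6 : nt (r - 1) < T := by
        unfold nt
        omega
      rw [h4, unif_cB, unif_cB, h5]
      push_cast
      have h7 : ((D.cB (nt (r - 1)) (w0.2.1 d)).card : ℝ) ≤ 2 * ((D.cB (nt (r - 1) + 1) (w0.2.1 d)).card : ℝ) := by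
        rcases H.half (nt (r - 1)) h6 with h8 | h8
        · rw [h8]
          have : (0 : ℝ) ≤ ((D.cB (nt (r - 1)) (w0.2.1 d)).card : ℝ) := Nat.cast_nonneg _
          linarith
        · rw [← h8 (w0.2.1 d)]
          push_cast
          exact le_rfl
      have h9 : (0 : ℝ) ≤ (Fintype.card β : ℝ)⁻¹ := by positivity
      nlinarith
  rw [← mul_div_assoc, div_le_div_iff₀ p1 p2]
  nlinarith

/-! ### rows as functions of the letters -/

/-- the row of the letter `l` -/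
def rowL (v : ℕ → Finset (Fin 3) → X → (Fin 3 → β) → υ) (θ X1 p1 : ℝ) (J0 : Finset (Fin 3)) (c d : Fin 3) (ν : ℕ)
    (w0 : Pt (Fin 3) X β φ) (l : Fin 3 → Option (β × List υ)) (z : Pt (Fin 3) X β φ) : Prop :=
  ∃ z', NPr v D ν z' = NPr v D ν w0 ∧ LJ v (insert c J0) ν z' = l ∧ XLr v ν d z' = XLr v ν d z ∧
    HRq h v θ X1 p1 J0 c d ν z'

/-- the list of rows `ψ`, the point of `d` in the cell of `w0` at `r` -/
def AF (v : ℕ → Finset (Fin 3) → X → (Fin 3 → β) → υ) (θ X1 p1 : ℝ) (J0 : Finset (Fin 3)) (c d : Fin 3) (ν r : ℕ)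
    (w0 : Pt (Fin 3) X β φ) {M : ℕ} (ψ : Σ n : ℕ, Fin n → (Σ _ : Fin M, (Fin 3 → Option (β × List υ))))
    (z : Pt (Fin 3) X β φ) : Prop :=
  (∃ k, rowL h v θ X1 p1 J0 c d ν w0 (ψ.2 k).2 z) ∧ D.qb (nt r) (z.2.1 d) = D.qb (nt r) (w0.2.1 d)

/-- the alive rows -/
noncomputable def GR (v : ℕ → Finset (Fin 3) → X → (Fin 3 → β) → υ) (θ X1 p1 : ℝ) (J0 : Finset (Fin 3))
    (e c d : Fin 3) (ν : ℕ) (w0 : Pt (Fin 3) X β φ) {M : ℕ} (us : Fin M → β) (b : β) :
    Finset (Σ _ : Fin M, (Fin 3 → Option (β × List υ))) :=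
  (univ : Finset (Fin M)).sigma fun i => ALs h v θ X1 p1 J0 e c d ν w0 b (us i)

theorem card_GR {θ X1 p1 : ℝ} {J0 : Finset (Fin 3)} {e c d : Fin 3} (ht : Tri3 J0 e c d) {ν : ℕ}
    {w0 : Pt (Fin 3) X β φ} {M : ℕ} (us : Fin M → β) (b : β) :
    ((GR h v θ X1 p1 J0 e c d ν w0 us b).card : ℝ) ≤ M * Real.exp X1 := by
  unfold GR
  rw [Finset.card_sigma]
  push_cast
  refine (Finset.sum_le_sum fun i _ => card_ALs h ht).trans (le_of_eq ?_)
  rw [Finset.sum_const, Finset.card_univ, Fintype.card_fin, nsmul_eq_mul]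

theorem rowL_congr {θ X1 p1 : ℝ} {J0 : Finset (Fin 3)} {c d : Fin 3} {ν : ℕ} {w0 : Pt (Fin 3) X β φ}
    {l : Fin 3 → Option (β × List υ)} {z z2 : Pt (Fin 3) X β φ} (hz : XLr v ν d z = XLr v ν d z2) :
    rowL h v θ X1 p1 J0 c d ν w0 l z ↔ rowL h v θ X1 p1 J0 c d ν w0 l z2 := by
  unfold rowL
  rw [hz]

theorem rwA_iff {θ X1 p1 : ℝ} {J0 : Finset (Fin 3)} {c d : Fin 3} {ν : ℕ} {M : ℕ} {us : Fin M → β}
    {I : Finset (Fin M)} {w0 w z : Pt (Fin 3) X β φ} (hw : NPr v D ν w = NPr v D ν w0) :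
    rwA h v θ X1 p1 J0 c d ν us I w z ↔
      ∃ i ∈ I, rowL h v θ X1 p1 J0 c d ν w0 (LJ v (insert c J0) ν (up1 c w (us i))) z := by
  unfold rwA rowL
  rw [hw]

/-- the letter of `d` is a function of its point, given the hidden point and the cells -/
theorem XLr_up (hv : Codes D v) {d : Fin 3} {ν n : ℕ} (hn : tm ν ≤ n) {z w : Pt (Fin 3) X β φ} (h1 : z.1 = w.1)
    (h2 : ∀ j, D.qb n (z.2.1 j) = D.qb n (w.2.1 j)) : XLr v ν d z = XLr v ν d (up1 d w (z.2.1 d)) := by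
  unfold XLr XL up1
  refine Prod.ext ?_ ?_
  · show z.2.1 d = Function.update w.2.1 d (z.2.1 d) d
    rw [Function.update_self]
  · show Um v (tm ν + 1) {d} z.1 z.2.1 = Um v (tm ν + 1) {d} w.1 (Function.update w.2.1 d (z.2.1 d))
    rw [h1]
    refine Um_codes hv (n := n) (by omega) {d} w.1 (fun j hj => ?_) fun j => ?_
    · rw [Finset.mem_singleton.1 hj, Function.update_self]
    · by_cases hj : j = d
      · rw [hj, Function.update_self]
      · rw [Function.update_of_ne hj]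
        exact h2 j

/-- **the exceptional positions of one public cell and one point of `e`** -/
theorem exq_exc (hv : Codes D v) {dg : ℕ → X → ℝ} {prr : ℕ → Fin 3 → φ → φ} {T : ℕ} {Lam : ℝ}
    (H : D.Hyp dg prr al T Lam) {J0 : Finset (Fin 3)} {e c d : Fin 3} (ht : Tri3 J0 e c d) {θ X1 p1 u : ℝ}
    (hu : 0 < u) {M : ℕ} (us : Fin M → β) {ν r : ℕ} (hν : ν ≤ r) (hr : r ≤ 2 * T) {w0 w : Pt (Fin 3) X β φ}
    (hw : (D.P h 0).p w ≠ 0) (hN : NPr v D r w = NPr v D r w0) (hex : exq h v θ X1 p1 J0 e c d ν u us r w) :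
    exc (clq h v (r - r % 2) w0) (fun z => z.1) (lst (GR h v θ X1 p1 J0 e c d ν w0 us (w.2.1 e)) M) (fun ψ => ψ.1)
      (u / 2) (fun ψ => AF h v θ X1 p1 J0 c d ν r w0 ψ) w := by
  classical
  obtain ⟨I, hI, h1, h2⟩ := hex
  obtain ⟨r1, r2, r3⟩ := last_even r
  set r' := r - r % 2 with hr'
  have hr'r : r' ≤ r := Nat.sub_le _ _
  have hNν : NPr v D ν w = NPr v D ν w0 := NPr_older hν hN
  have hNr' : NPr v D r' w = NPr v D r' w0 := NPr_older hr'r hN
  have hcl : clq h v r' w = clq h v r' w0 := by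
    unfold clq Pc
    have h3 : NP D v (tm r' + 1) (nt r') w = NP D v (tm r' + 1) (nt r') w0 := hNr'
    rw [h3]
  rw [hcl] at h2
  -- cells
  have cell : ∀ (n : ℕ) (a b : Pt (Fin 3) X β φ), NPr v D n a = NPr v D n b → ∀ j, D.qb (nt n) (a.2.1 j) =
      D.qb (nt n) (b.2.1 j) := by
    intro n a b hab j
    have h3 : nd D (nt n) a = nd D (nt n) b := congrArg Prod.snd hab
    exact congrFun (congrArg Prod.snd h3) j
  have htmν : tm ν ≤ tm r := tm_mono hν
  have htr : tm r ≤ nt r := by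
    unfold tm nt
    omega
  set g : β → ℝ := fun b => ind (rwA h v θ X1 p1 J0 c d ν us I w (up1 d w b)) with hg
  have hrw : ∀ z z2, XLr v ν d z = XLr v ν d z2 →
      (rwA h v θ X1 p1 J0 c d ν us I w z ↔ rwA h v θ X1 p1 J0 c d ν us I w z2) := by
    intro z z2 hz
    rw [rwA_iff h hNν, rwA_iff h hNν]
    exact exists_congr fun i => and_congr_right fun _ => rowL_congr h hz
  -- the conditional mass
  have hcm : cm h v θ X1 p1 J0 e c d ν us I r w = (nuC D (nt r) w d).E g := by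
    refine ce_pt h hv ht.ed r w fun z hz1 hz2 => ?_
    exact ind_cg (hrw z _ (XLr_up hv (htmν.trans htr) hz2 (cell r z w hz1)))
  -- the alive rows
  set I' := I.filter fun i => ∃ z', NPr v D ν z' = NPr v D ν w0 ∧
    LJ v (insert c J0) ν z' = LJ v (insert c J0) ν (up1 c w (us i)) ∧ HRq h v θ X1 p1 J0 c d ν z' with hI'
  have hI'I : I' ⊆ I := Finset.filter_subset _ _
  have hcard : I'.card ≤ I.card := Finset.card_le_card hI'I
  set f : Fin I'.card → Fin M := fun k => ((I'.equivFin).symm k).1 with hf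
  have hfm : ∀ k, f k ∈ I' := fun k => ((I'.equivFin).symm k).2
  have hfs : ∀ i ∈ I', ∃ k, f k = i := fun i hi => ⟨I'.equivFin ⟨i, hi⟩, by
    show ((I'.equivFin).symm (I'.equivFin ⟨i, hi⟩)).1 = i
    rw [Equiv.symm_apply_apply]⟩
  set ψ : Σ n : ℕ, Fin n → (Σ _ : Fin M, (Fin 3 → Option (β × List υ))) :=
    ⟨I'.card, fun k => ⟨f k, LJ v (insert c J0) ν (up1 c w (us (f k)))⟩⟩ with hψ
  have hrows : ∀ z, (∃ k, rowL h v θ X1 p1 J0 c d ν w0 (ψ.2 k).2 z) ↔ rwA h v θ X1 p1 J0 c d ν us I w z := by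
    intro z
    rw [rwA_iff h hNν]
    constructor
    · rintro ⟨k, hk⟩
      exact ⟨f k, hI'I (hfm k), hk⟩
    · rintro ⟨i, hi, hk⟩
      obtain ⟨z', k1, k2, k3, k4⟩ := hk
      obtain ⟨k, hk'⟩ := hfs i (Finset.mem_filter.2 ⟨hi, z', k1, k2, k4⟩)
      refine ⟨k, z', k1, ?_, k3, k4⟩
      show LJ v (insert c J0) ν z' = LJ v (insert c J0) ν (up1 c w (us (f k)))
      rw [hk', k2]
  -- the conditional mass in the last even cell
  have hwQ : (Pc h v 0 (tm r' + 1) (nt r') w0).p w ≠ 0 := by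
    unfold Pc
    exact (FP.cond_p_ne (cell_ne hv 0 (tm_nt r') w0)).2 ⟨hNr', hw⟩
  have hce : (clq h v r' w0).ce (fun z => z.1) (fun z => ind (AF h v θ X1 p1 J0 c d ν r w0 ψ z)) w =
      (nuC D (nt r') w0 d).E fun b => g b * ind (D.qb (nt r) b = D.qb (nt r) (w0.2.1 d)) := by
    refine ce_pt' h hv (tm_nt r') w0 hwQ (f := fun z => ind (AF h v θ X1 p1 J0 c d ν r w0 ψ z))
      (g := fun b => g b * ind (D.qb (nt r) b = D.qb (nt r) (w0.2.1 d))) fun z hz1 hz2 => ?_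
    show ind (AF h v θ X1 p1 J0 c d ν r w0 ψ z) = ind (rwA h v θ X1 p1 J0 c d ν us I w (up1 d w (z.2.1 d))) * ind _
    rw [← ind_and]
    refine ind_cg (and_congr ?_ Iff.rfl)
    rw [hrows z]
    refine hrw z _ (XLr_up hv (n := nt r') (by rw [r2]; exact htmν) hz2 fun j => ?_)
    exact cell r' z w ((show NPr v D r' z = NPr v D r' w0 from hz1).trans hNr'.symm) j
  have hgn : ∀ b, 0 ≤ g b := fun b => ind_nonneg _
  have hle := nu_le (v := v) H hr hN d hgn
  rw [← hcm, ← hce] at hle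
  have hce0 : 0 ≤ (clq h v r' w0).ce (fun z => z.1) (fun z => ind (AF h v θ X1 p1 J0 c d ν r w0 ψ z)) w :=
    FP.ce_nonneg _ (fun _ _ => ind_nonneg _) w
  have hIc : (0 : ℝ) < I.card := by exact_mod_cast Finset.card_pos.2 hI
  have hcm0 : 0 < cm h v θ X1 p1 J0 e c d ν us I r w := lt_of_lt_of_le (by positivity) h1
  -- the list is not empty
  have hI'ne : 1 ≤ I'.card := by
    rw [Nat.one_le_iff_ne_zero]
    intro h0
    have h3 : I' = ∅ := Finset.card_eq_zero.1 h0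
    have h4 : ∀ b, g b = 0 := by
      intro b
      refine ind_not fun hc => ?_
      obtain ⟨i, hi, z', k1, k2, k3, k4⟩ := (rwA_iff h hNν).1 hc
      have h5 : i ∈ I' := Finset.mem_filter.2 ⟨hi, z', k1, k2, k4⟩
      rw [h3] at h5
      exact absurd h5 (Finset.notMem_empty i)
    rw [hcm] at hcm0
    have h5 : g = fun _ => (0 : ℝ) := funext h4
    rw [h5, FP.E_const] at hcm0
    exact lt_irrefl _ hcm0
  have hF : ψ ∈ lst (GR h v θ X1 p1 J0 e c d ν w0 us (w.2.1 e)) M := by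
    refine mem_lst.2 ⟨⟨hI'ne, ?_⟩, fun k => ?_⟩
    · have := Finset.card_le_univ I'
      rwa [Fintype.card_fin] at this
    · unfold GR
      refine Finset.mem_sigma.2 ⟨mem_univ _, ?_⟩
      obtain ⟨_, z', k1, k2, k4⟩ := Finset.mem_filter.1 (hfm k)
      refine (mem_ALs h).2 ⟨z', ⟨k1, k4, ?_, fun he => ?_⟩, k2⟩
      · have h6 := congrArg Prod.fst (LJ_at k2 (Finset.mem_insert_self c J0))
        have h7 : (XLr v ν c (up1 c w (us (f k)))).1 = us (f k) := by
          show Function.update w.2.1 c (us (f k)) c = us (f k)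
          rw [Function.update_self]
        exact h6.trans h7
      · have h6 := congrArg Prod.fst (LJ_at k2 (Finset.mem_insert_of_mem he))
        have h7 : (XLr v ν e (up1 c w (us (f k)))).1 = w.2.1 e := by
          show Function.update w.2.1 c (us (f k)) e = w.2.1 e
          rw [Function.update_of_ne ht.ec]
        exact h6.trans h7
  refine ⟨ψ, hF, ?_⟩
  have hQ : (clq h v r' w0).Pr (AF h v θ X1 p1 J0 c d ν r w0 ψ) ≤
      (clq h v r' w0).Pr (rwA h v θ X1 p1 J0 c d ν us I w) :=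
    FP.Pr_mono _ fun z _ hz => (hrows z).1 hz.1
  have hQ0 := (clq h v r' w0).Pr_nonneg (AF h v θ X1 p1 J0 c d ν r w0 ψ)
  have hρ : (0 : ℝ) ≤ ((r % 2 : ℕ) : ℝ) := Nat.cast_nonneg _
  have hρ1 : ((r % 2 : ℕ) : ℝ) ≤ 1 := by
    have : r % 2 ≤ 1 := by omega
    exact_mod_cast this
  have hjc : ((I'.card : ℕ) : ℝ) ≤ I.card := by exact_mod_cast hcard
  set ρ : ℝ := ((r % 2 : ℕ) : ℝ) with hρd
  set q := (clq h v r' w0).ce (fun z => z.1) (fun z => ind (AF h v θ X1 p1 J0 c d ν r w0 ψ z)) w with hq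
  refine max_le ?_ ?_
  · show (I'.card : ℝ) * (u / 2) / 4 ≤ q
    have h3 : (I'.card : ℝ) * (u / 2) / 4 ≤ (I.card * u / 4) / 2 := by nlinarith
    have h4 : (1 + ρ) * q ≤ 2 * q := by nlinarith
    linarith
  · show 4 * (clq h v r' w0).Pr (AF h v θ X1 p1 J0 c d ν r w0 ψ) ≤ q
    have h3 : (4 + 4 * ρ) * (clq h v r' w0).Pr (AF h v θ X1 p1 J0 c d ν r w0 ψ) ≤ (1 + ρ) * q :=
      (mul_le_mul_of_nonneg_left hQ (by linarith)).trans (h2.trans hle)
    have h4 : (1 + ρ) * (4 * (clq h v r' w0).Pr (AF h v θ X1 p1 J0 c d ν r w0 ψ)) ≤ (1 + ρ) * q := by linarith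
    exact le_of_mul_le_mul_left h4 (by linarith)

theorem AF_fac {θ X1 p1 : ℝ} {J0 : Finset (Fin 3)} {c d : Fin 3} {ν r : ℕ} (hν : ν ≤ r) {w0 : Pt (Fin 3) X β φ}
    {M : ℕ} (ψ : Σ n : ℕ, Fin n → (Σ _ : Fin M, (Fin 3 → Option (β × List υ)))) :
    Fac (fun w : Pt (Fin 3) X β φ => (XLr v (r - r % 2) d w, ())) (AF h v θ X1 p1 J0 c d ν r w0 ψ) := by
  intro a b hab
  have h1 : XLr v (r - r % 2) d a = XLr v (r - r % 2) d b := congrArg Prod.fst hab
  have h2 : XLr v r d a = XLr v r d b := by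
    unfold XLr at h1 ⊢
    rwa [(last_even r).1] at h1
  have h3 : XLr v ν d a = XLr v ν d b := XLr_older hν h2
  have h4 : a.2.1 d = b.2.1 d := congrArg Prod.fst h1
  refine propext ?_
  unfold AF
  rw [h4]
  exact and_congr_left' (exists_congr fun k => rowL_congr h h3)

/-- mean over the point of `e` -/
theorem Pr_mix (hv : Codes D v) {s n : ℕ} (hs : s ≤ n + 1) (c : Pt (Fin 3) X β φ) (e : Fin 3) {Ev : β → X → Prop}
    {B : ℝ} (hB : ∀ b, (Pc h v 0 s n c).Pr (fun z => Ev b z.1) ≤ B) :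
    (Pc h v 0 s n c).Pr (fun z => Ev (z.2.1 e) z.1) ≤ B := by
  classical
  obtain ⟨d, hed⟩ := exists_ne e
  have h1 : (Pc h v 0 s n c).Pr (fun z => Ev (z.2.1 e) z.1) =
      ∑ b, (Pc h v 0 s n c).E (fun z => ind (Ev b z.1) * (ind (z.2.1 e = b) * 1)) := by
    rw [← FP.E_sum]
    refine (Pc h v 0 s n c).E_congr fun z _ => ?_
    show ind (Ev (z.2.1 e) z.1) = _
    rw [Finset.sum_eq_single (z.2.1 e)]
    · rw [ind_of rfl, one_mul, mul_one]
    · intro b _ hb
      rw [ind_not (Ne.symm hb), zero_mul, mul_zero]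
    · intro hc; exact absurd (mem_univ _) hc
  have h2 : ∀ b, (Pc h v 0 s n c).E (fun z => ind (Ev b z.1) * (ind (z.2.1 e = b) * 1)) =
      (muC D v s n c).E (fun x => ind (Ev b x)) * (nuC D n c e).E fun b' => ind (b' = b) := by
    intro b
    have h3 := Pc_two h hv hs c hed.symm (fun x => ind (Ev b x)) (fun b' => ind (b' = b)) (fun _ => (1 : ℝ))
    rw [FP.E_const, mul_one] at h3
    exact h3
  have h3 : ∀ b, (muC D v s n c).E (fun x => ind (Ev b x)) ≤ B := by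
    intro b
    rw [← Pc_E0 (h := h) hv 0 hs c fun x => ind (Ev b x)]
    exact hB b
  rw [h1, Finset.sum_congr rfl fun b _ => h2 b]
  have h4 : ∑ b, (nuC D n c e).E (fun b' => ind (b' = b)) = 1 := by
    rw [← FP.E_sum]
    refine ((nuC D n c e).E_congr fun b' _ => ?_).trans ((nuC D n c e).E_const 1)
    rw [Finset.sum_eq_single b']
    · exact ind_of rfl
    · intro b _ hb
      exact ind_not (Ne.symm hb)
    · intro hc; exact absurd (mem_univ _) hc
  calc ∑ b, (muC D v s n c).E (fun x => ind (Ev b x)) * (nuC D n c e).E (fun b' => ind (b' = b))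
      ≤ ∑ b, B * (nuC D n c e).E (fun b' => ind (b' = b)) := Finset.sum_le_sum fun b _ =>
        mul_le_mul_of_nonneg_right (h3 b) (FP.E_nonneg _ fun _ _ => ind_nonneg _)
    _ = B := by rw [← Finset.mul_sum, h4, mul_one]

end pos

end NA

variable {X β γ φ : Type} [Fintype X] [Fintype β] [Fintype φ] [Nonempty X] [Nonempty β]
variable {D : HD (Fin 3) X β γ φ} {al : ℝ} {h : D.Thick al}
  {v : ℕ → Finset (Fin 3) → X → (Fin 3 → β) → Pt (Fin 3) X β φ} {N : Finset (Fin 3) → ℝ} {S : Finset (Finset (Fin 3))}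
  {N1 : ℝ}

/-- **EXCEPTIONAL POSITIONS ARE RARE** -/
theorem exq_le (R : Run h N S (AdmDep D) v) (hp : Prc N S N1) {dg : ℕ → X → ℝ} {prr : ℕ → Fin 3 → φ → φ} {T : ℕ}
    {Lam : ℝ} (H : D.Hyp dg prr al T Lam) {J0 : Finset (Fin 3)} {e c d : Fin 3} (ht : Tri3 J0 e c d)
    {θ X1 p1 u dl : ℝ} (hX1 : 0 ≤ X1) (hu : 0 < u) (hdl : 0 < dl) (hdl1 : dl ≤ 1) {M : ℕ}
    (hsm : 2 * (M * Real.exp (2 * X1)) * Real.exp (-(N1 * u / 64)) ≤ 1) (us : Fin M → β) {ν r : ℕ} (hν : ν ≤ r)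
    (hr : r ≤ 2 * T) {w0 : Pt (Fin 3) X β φ} (hw : (D.P h 0).p w0 ≠ 0) (hd : dgq h v dl r w0) :
    (D.P h 0).ce (NPr v D r) (fun w => ind (exq h v θ X1 p1 J0 e c d ν u us r w)) w0 ≤ e9 N1 X1 u dl M := by
  classical
  have hv := R.codes
  obtain ⟨r1, r2, r3⟩ := NA.last_even r
  set r' := r - r % 2 with hr'
  have hr'r : r' ≤ r := Nat.sub_le _ _
  set Q := clq h v r' w0 with hQ
  set B : ℝ := M * Real.exp (2 * X1) with hB
  have hB0 : 0 ≤ B := by positivity
  have hN1 : 0 ≤ N1 := by have := hp.pos; linarith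
  have hNu : 0 ≤ N1 * u := mul_nonneg hN1 hu.le
  have hcls : (D.P h 0).Pr (fun z => NPr v D r' z = NPr v D r' w0) ≠ 0 := cell_ne hv 0 (NA.tm_nt r') w0
  -- one point of `e`
  have h1 : ∀ b, Q.Pr (exc Q (fun z => z.1) (NA.lst (NA.GR h v θ X1 p1 J0 e c d ν w0 us b) M) (fun ψ => ψ.1) (u / 2)
      (fun ψ => NA.AF h v θ X1 p1 J0 c d ν r w0 ψ)) ≤ 2 * Real.exp 1 * (B * Real.exp (-(N1 * u / 64))) := by
    intro b
    refine exc_le (L := XLr v r' d) (Z := fun _ => ()) (N := N1) (fun ψ hψ => (NA.mem_lst.1 hψ).1.1) hB0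
      (fun i => NA.card_lst _ M ?_ i) hsm hN1 (by linarith) (fun ψ _ => NA.AF_fac h hν ψ) (NA.indep_unit Q _) ?_
    · refine (NA.card_GR h ht us b).trans ?_
      refine mul_le_mul_of_nonneg_left (Real.exp_le_exp.2 (by linarith)) (Nat.cast_nonneg _)
    · intro E hE hE0
      rw [NA.klc_unit]
      have h2 : E = fun z => E (z.1, w0.2.1, w0.2.2) := funext fun z => hE z (z.1, w0.2.1, w0.2.2) rfl
      have h3 := sat_q R hp r3 hw (E := fun x => E (x, w0.2.1, w0.2.2)) (by rw [← h2]; exact hE0) d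
      rw [← h2] at h3
      exact h3
  -- mean over the point of `e`
  have h2 : Q.Pr (fun w => exc Q (fun z => z.1) (NA.lst (NA.GR h v θ X1 p1 J0 e c d ν w0 us (w.2.1 e)) M)
      (fun ψ => ψ.1) (u / 2) (fun ψ => NA.AF h v θ X1 p1 J0 c d ν r w0 ψ) w) ≤
      2 * Real.exp 1 * (B * Real.exp (-(N1 * u / 64))) := by
    have h3 : ∀ b w, exc Q (fun z => z.1) (NA.lst (NA.GR h v θ X1 p1 J0 e c d ν w0 us b) M) (fun ψ => ψ.1) (u / 2)
        (fun ψ => NA.AF h v θ X1 p1 J0 c d ν r w0 ψ) w =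
        exc Q (fun z => z.1) (NA.lst (NA.GR h v θ X1 p1 J0 e c d ν w0 us b) M) (fun ψ => ψ.1) (u / 2)
          (fun ψ => NA.AF h v θ X1 p1 J0 c d ν r w0 ψ) (w.1, w0.2.1, w0.2.2) := by
      intro b w
      unfold exc
      refine propext (exists_congr fun ψ => and_congr_right fun _ => ?_)
      rw [Q.ce_fac (fun z => z.1) _ w (w.1, w0.2.1, w0.2.2) rfl]
    have h4 := NA.Pr_mix h hv (NA.tm_nt r') w0 e
      (Ev := fun b x => exc Q (fun z => z.1) (NA.lst (NA.GR h v θ X1 p1 J0 e c d ν w0 us b) M) (fun ψ => ψ.1) (u / 2)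
        (fun ψ => NA.AF h v θ X1 p1 J0 c d ν r w0 ψ) (x, w0.2.1, w0.2.2))
      (B := 2 * Real.exp 1 * (B * Real.exp (-(N1 * u / 64)))) (fun b => by
        have h5 := h1 b
        have h6 : (exc Q (fun z => z.1) (NA.lst (NA.GR h v θ X1 p1 J0 e c d ν w0 us b) M) (fun ψ => ψ.1) (u / 2)
            (fun ψ => NA.AF h v θ X1 p1 J0 c d ν r w0 ψ)) = fun w =>
            exc Q (fun z => z.1) (NA.lst (NA.GR h v θ X1 p1 J0 e c d ν w0 us b) M) (fun ψ => ψ.1) (u / 2)
              (fun ψ => NA.AF h v θ X1 p1 J0 c d ν r w0 ψ) (w.1, w0.2.1, w0.2.2) := funext fun w => h3 b w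
        rw [h6] at h5
        exact h5)
    refine le_trans (le_of_eq ?_) h4
    exact Q.E_congr fun w _ => congrArg ind (h3 (w.2.1 e) w)
  -- the digit
  have hmass : dl * (D.P h 0).m (NPr v D r') w0 ≤ (D.P h 0).m (NPr v D r) w0 := by
    rcases Nat.mod_two_eq_zero_or_one r with h4 | h4
    · have h5 : r' = r := by omega
      rw [h5]
      exact mul_le_of_le_one_left (FP.m_nonneg _ _ _) hdl1
    · have h5 : r' = r - 1 := by omega
      rw [h5]
      exact hd h4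
  have hm0 : 0 < (D.P h 0).m (NPr v D r) w0 := FP.m_pos _ _ hw
  have hm1 : 0 < (D.P h 0).m (NPr v D r') w0 := FP.m_pos _ _ hw
  have h5 : (D.P h 0).E (fun z => ind (NPr v D r z = NPr v D r w0) *
      ind (exq h v θ X1 p1 J0 e c d ν u us r z)) ≤ (D.P h 0).m (NPr v D r') w0 *
        (2 * Real.exp 1 * (B * Real.exp (-(N1 * u / 64)))) := by
    refine le_trans ?_ (mul_le_mul_of_nonneg_left h2 hm1.le)
    have h6 : Q.Pr (fun w => exc Q (fun z => z.1) (NA.lst (NA.GR h v θ X1 p1 J0 e c d ν w0 us (w.2.1 e)) M)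
        (fun ψ => ψ.1) (u / 2) (fun ψ => NA.AF h v θ X1 p1 J0 c d ν r w0 ψ) w) =
        (D.P h 0).E (fun z => ind (NPr v D r' z = NPr v D r' w0) * ind (exc Q (fun z => z.1)
          (NA.lst (NA.GR h v θ X1 p1 J0 e c d ν w0 us (z.2.1 e)) M) (fun ψ => ψ.1) (u / 2)
          (fun ψ => NA.AF h v θ X1 p1 J0 c d ν r w0 ψ) z)) / (D.P h 0).m (NPr v D r') w0 := by
      show ((D.P h 0).cond fun z => NPr v D r' z = NPr v D r' w0).E _ = _
      rw [FP.cond_E hcls]
      rfl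
    rw [h6, mul_div_cancel₀ _ hm1.ne']
    refine (D.P h 0).E_mono fun z hz => ?_
    by_cases h7 : NPr v D r z = NPr v D r w0
    · rw [ind_of h7, ind_of (NPr_older hr'r h7), one_mul, one_mul]
      exact ind_mono fun hex => NA.exq_exc h hv H ht hu us hν hr hz h7 hex
    · rw [ind_not h7, zero_mul]
      exact mul_nonneg (ind_nonneg _) (ind_nonneg _)
  unfold FP.ce
  rw [div_le_iff₀ hm0]
  refine h5.trans ?_
  have h6 : 0 ≤ 2 * Real.exp 1 * (B * Real.exp (-(N1 * u / 64))) := by positivity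
  have h7 : e9 N1 X1 u dl M = (2 * Real.exp 1 * (B * Real.exp (-(N1 * u / 64)))) / dl := by
    unfold e9
    rw [hB]
    ring
  rw [h7, div_mul_eq_mul_div, le_div_iff₀ hdl]
  have h8 := mul_le_mul_of_nonneg_left hmass h6
  linarith

end Pool.Agent.GMH.TD
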