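import Pool.Agent.GMH.TD6S

/-!
# GMH.TD6D: an event of one thin letter in the public cells before and after a digit which is not tiny (helper80)

* `SQ.F_ge`: the digit has probability at least `dl` in the public cell before the digit;
* `SQ.A_ge`: an event of the letter of `d` which fixes the cell of its point is at least as likely after the digit as
  before the digit given the digit of the hidden point;
* `dig_base`: with event saturation of one letter (`sat_q`) and Pinsker.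
-/

set_option autoImplicit false
set_option linter.unusedSectionVars false

namespace Pool.Agent.GMH.TD

open Finset Pool.Agent.PWZ Pool.Agent.M3 Pool.Agent.GM Pool.Agent.GM.Harm Pool.Agent.GMH Pool.Agent.GMH.NZ
open Pool.Agent.GMH.V3 Pool.Agent.GMH.Gdy

variable {X β γ φ : Type} [Fintype X] [Fintype β] [Fintype φ] [Nonempty X] [Nonempty β]
variable {D : HD (Fin 3) X β γ φ} {al : ℝ} {h : D.Thick al}
  {v : ℕ → Finset (Fin 3) → X → (Fin 3 → β) → Pt (Fin 3) X β φ}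
  {N : Finset (Fin 3) → ℝ} {S : Finset (Finset (Fin 3))} {N1 : ℝ}

namespace SQ

variable (D) in
/-- the digit of the hidden point as in `c` -/
def Fd (t : ℕ) (c : Pt (Fin 3) X β φ) (x : X) : Prop := D.qa (t + 1) x = D.qa (t + 1) c.1

theorem F_ge (hv : Codes D v) {t : ℕ} {c : Pt (Fin 3) X β φ} {dl : ℝ}
    (hdig : dl * (D.P h 0).m (NP D v (t + 1) t) c ≤ (D.P h 0).m (NP D v (t + 1) (t + 1)) c) :
    dl ≤ (muC D v (t + 1) t c).Pr (Fd D t c) := by
  have e1 : (D.P h 0).m (NP D v (t + 1) t) c = (FP.unif X).Pr (cX D v (t + 1) t c) *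
      ∏ j, (FP.unif β).Pr (cY D t c j) := cell_Pr hv 0 le_rfl c
  have e2 : (D.P h 0).m (NP D v (t + 1) (t + 1)) c = (FP.unif X).Pr (cX D v (t + 1) (t + 1) c) *
      ∏ j, (FP.unif β).Pr (cY D (t + 1) c j) := cell_Pr hv 0 (by omega) c
  rw [e1, e2] at hdig
  have hA : (FP.unif X).Pr (cX D v (t + 1) t c) ≠ 0 := unif_ne (cX_self (t + 1) t c)
  have e3 : (FP.unif X).Pr (cX D v (t + 1) (t + 1) c) = (FP.unif X).Pr (cX D v (t + 1) t c) *
      (muC D v (t + 1) t c).Pr (Fd D t c) := by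
    unfold muC
    show _ = (FP.unif X).Pr (cX D v (t + 1) t c) * ((FP.unif X).cond (cX D v (t + 1) t c)).E
      (fun x => ind (D.qa (t + 1) x = D.qa (t + 1) c.1))
    rw [FP.Pr_mul_cond_E hA]
    unfold FP.Pr
    refine FP.E_congr _ fun x _ => ?_
    rw [← ind_and]
    exact ind_cg ((cX_succ c x).trans and_comm)
  have h1 : ∏ j, (FP.unif β).Pr (cY D (t + 1) c j) ≤ ∏ j, (FP.unif β).Pr (cY D t c j) :=
    Finset.prod_le_prod (fun j _ => FP.Pr_nonneg _ _) fun j _ => FP.Pr_mono _ fun b _ => cY_succ c j b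
  have h2 : 0 < (FP.unif X).Pr (cX D v (t + 1) t c) * ∏ j, (FP.unif β).Pr (cY D t c j) :=
    mul_pos (lt_of_le_of_ne (FP.Pr_nonneg _ _) (Ne.symm hA))
      (Finset.prod_pos fun j _ => lt_of_le_of_ne (FP.Pr_nonneg _ _) (Ne.symm (unif_ne (cY_self t c j))))
  have h4 := mul_le_mul_of_nonneg_left h1 (FP.Pr_nonneg (FP.unif X) (cX D v (t + 1) (t + 1) c))
  rw [e3] at h4 hdig
  refine le_of_mul_le_mul_left ?_ h2
  linarith

/-- a point of the new cell has a larger mass in it -/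
theorem mC_le (t : ℕ) (c : Pt (Fin 3) X β φ) (k : Fin 3) {b : β} (hb : D.qb (t + 1) b = D.qb (t + 1) (c.2.1 k)) :
    mC D t c k b ≤ mC D (t + 1) c k b := by
  have hA : (FP.unif β).Pr (cY D t c k) ≠ 0 := unif_ne (cY_self t c k)
  have hA' : (FP.unif β).Pr (cY D (t + 1) c k) ≠ 0 := unif_ne (cY_self (t + 1) c k)
  have hAp' : 0 < (FP.unif β).Pr (cY D (t + 1) c k) := lt_of_le_of_ne (FP.Pr_nonneg _ _) (Ne.symm hA')
  unfold mC nuC
  rw [FP.cond_E hA, FP.cond_E hA']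
  have e1 : (FP.unif β).E (fun b' => ind (cY D t c k b') * ind (b' = b)) =
      (FP.unif β).E (fun b' => ind (cY D (t + 1) c k b') * ind (b' = b)) := by
    refine FP.E_congr _ fun b' _ => ?_
    by_cases h1 : b' = b
    · rw [h1, ind_of (show cY D (t + 1) c k b from hb), ind_of (show cY D t c k b from cY_succ c k b hb)]
    · rw [ind_not h1, mul_zero, mul_zero]
  rw [e1]
  exact div_le_div_of_nonneg_left (FP.E_nonneg _ fun _ _ => mul_nonneg (ind_nonneg _) (ind_nonneg _)) hAp'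
    (FP.Pr_mono _ fun b _ => cY_succ c k b)

/-- the event given the digit of the hidden point, and after the digit -/
theorem A_ge (hv : Codes D v) {t : ℕ} {c : Pt (Fin 3) X β φ} {d : Fin 3} {A : Pt (Fin 3) X β φ → Prop}
    (hA : Fac (XL v (t + 1) d) A) (hc : ∀ u, A u → D.qb (t + 1) (u.2.1 d) = D.qb (t + 1) (c.2.1 d)) :
    (Pc h v 0 (t + 1) t c).E (fun w => ind (Fd D t c w.1) * ind (A w)) ≤
      (muC D v (t + 1) t c).Pr (Fd D t c) * (Pc h v 0 (t + 1) (t + 1) c).Pr A := by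
  classical
  set sg : β × List (Pt (Fin 3) X β φ) → ℝ := fun z => if ∃ u, XL v (t + 1) d u = z ∧ A u then 1 else 0 with hsg
  have hs0 : ∀ z, 0 ≤ sg z := fun z => by simp only [hsg]; split_ifs <;> norm_num
  have hAs : ∀ u, ind (A u) = sg (XL v (t + 1) d u) := by
    intro u
    simp only [hsg]
    by_cases hu : A u
    · rw [ind_of hu, if_pos ⟨u, rfl, hu⟩]
    · rw [ind_not hu, if_neg]
      rintro ⟨a, ha, ha'⟩
      exact hu ((hA a u ha) ▸ ha')
  have e1 : (Pc h v 0 (t + 1) t c).E (fun w => ind (Fd D t c w.1) * ind (A w)) =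
      ∑ z ∈ vals (XL (φ := φ) v (t + 1) d), sg z *
        (mC D t c d z.1 * (muC D v (t + 1) t c).Pr fun x => Fd D t c x ∧ Gl v (t + 1) c d z x) := by
    have e2 : ∀ z ∈ vals (XL (φ := φ) v (t + 1) d), sg z *
        (mC D t c d z.1 * (muC D v (t + 1) t c).Pr fun x => Fd D t c x ∧ Gl v (t + 1) c d z x) =
        (Pc h v 0 (t + 1) t c).E fun w => ind (XL v (t + 1) d w = z) * (sg z * ind (Fd D t c w.1)) := by
      intro z _
      rw [← Pc_L1 (h := h) hv 0 le_rfl c (Fd D t c) d z, ← FP.E_smul]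
      exact FP.E_congr _ fun w _ => by ring
    rw [Finset.sum_congr rfl e2, ← FP.E_sum]
    refine FP.E_congr _ fun w _ => ?_
    rw [FP.sum_vals (XL (φ := φ) v (t + 1) d) (fun z => sg z * ind (Fd D t c w.1)) w, hAs w]
    ring
  have e3 : (Pc h v 0 (t + 1) (t + 1) c).Pr A = ∑ z ∈ vals (XL (φ := φ) v (t + 1) d),
      (mC D (t + 1) c d z.1 * (muC D v (t + 1) (t + 1) c).Pr (Gl v (t + 1) c d z)) * sg z := by
    unfold FP.Pr
    rw [FP.E_congr _ fun u _ => hAs u, ← sum_lw]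
    exact Finset.sum_congr rfl fun z _ => by rw [Pc_lw (h := h) hv 0 (by omega) c d z]; rfl
  rw [e1, e3, Finset.mul_sum]
  refine Finset.sum_le_sum fun z _ => ?_
  have e4 := muC_succ (D := D) (v := v) (s := t + 1) (t := t) c (Gl v (t + 1) c d z)
  have e5 : (muC D v (t + 1) t c).Pr (Fd D t c) * (mC D (t + 1) c d z.1 *
      (muC D v (t + 1) (t + 1) c).Pr (Gl v (t + 1) c d z) * sg z) = sg z * (mC D (t + 1) c d z.1 *
        (muC D v (t + 1) t c).Pr fun x => Fd D t c x ∧ Gl v (t + 1) c d z x) := by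
    have e6 : (muC D v (t + 1) t c).Pr (Fd D t c) * (muC D v (t + 1) (t + 1) c).Pr (Gl v (t + 1) c d z) =
        (muC D v (t + 1) t c).Pr fun x => Fd D t c x ∧ Gl v (t + 1) c d z x := e4
    rw [← e6]
    ring
  rw [e5]
  by_cases hz : ∃ u, XL v (t + 1) d u = z ∧ A u
  · obtain ⟨u, hu, hAu⟩ := hz
    have h1 : D.qb (t + 1) z.1 = D.qb (t + 1) (c.2.1 d) := by
      rw [← hc u hAu, ← hu]
      rfl
    exact mul_le_mul_of_nonneg_left (mul_le_mul_of_nonneg_right (mC_le t c d h1) (FP.Pr_nonneg _ _)) (hs0 z)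
  · have h2 : sg z = 0 := by simp only [hsg]; rw [if_neg hz]
    rw [h2, zero_mul, zero_mul]

end SQ

theorem dig_base (R : Run h N S (AdmDep D) v) (hp : Prc N S N1) {dg : ℕ → X → ℝ} {prr : ℕ → Fin 3 → φ → φ} {T : ℕ}
    {Lam : ℝ} (H : D.Hyp dg prr al T Lam) {dl : ℝ} (hdl : 0 < dl) (hdl1 : dl ≤ 1) {r : ℕ} (hr1 : r % 2 = 1)
    (hr : r ≤ 2 * T) {w : Pt (Fin 3) X β φ} (hw : (D.P h 0).p w ≠ 0) (hd : dgq h v dl r w) {d : Fin 3}
    {A : Pt (Fin 3) X β φ → Prop} (hA : Fac (XLr v r d) A) (hc : ∀ u, A u → D.qb (nt r) (u.2.1 d) = D.qb (nt r) (w.2.1 d)) :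
    (clq h v (r - 1) w).Pr A ≤ (clq h v r w).Pr A + 16 * Real.sqrt ((Real.log (1 / dl) + 1) / N1) := by
  have hv := R.codes
  obtain ⟨t, rfl⟩ : ∃ t, r = 2 * t + 1 := ⟨r / 2, by omega⟩
  have n1 : nt (2 * t + 1) = t + 1 := by unfold nt; omega
  have n2 : tm (2 * t + 1) = t := by unfold tm; omega
  have n3 : nt (2 * t + 1 - 1) = t := by unfold nt; omega
  have n4 : tm (2 * t + 1 - 1) = t := by unfold tm; omega
  have eP : clq h v (2 * t + 1 - 1) w = Pc h v 0 (t + 1) t w := by unfold clq; rw [n3, n4]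
  have eQ : clq h v (2 * t + 1) w = Pc h v 0 (t + 1) (t + 1) w := by unfold clq; rw [n1, n2]
  have eX : XLr (φ := φ) v (2 * t + 1) d = XL v (t + 1) d := by unfold XLr; rw [n2]
  have eX' : XLr (φ := φ) v (2 * t + 1 - 1) d = XL v (t + 1) d := by unfold XLr; rw [n4]
  rw [eX] at hA
  rw [n1] at hc
  have hdig : dl * (D.P h 0).m (NP D v (t + 1) t) w ≤ (D.P h 0).m (NP D v (t + 1) (t + 1)) w := by
    have h1 := hd (by omega)
    have e1 : NPr v D (2 * t + 1 - 1) = NP D v (t + 1) t := by unfold NPr; rw [n3, n4]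
    have e2 : NPr v D (2 * t + 1) = NP D v (t + 1) (t + 1) := by unfold NPr; rw [n1, n2]
    rwa [e1, e2] at h1
  have hF := SQ.F_ge hv hdig
  have hPF : (Pc h v 0 (t + 1) t w).Pr (fun u => SQ.Fd D t w u.1) = (muC D v (t + 1) t w).Pr (SQ.Fd D t w) :=
    Pc_E0 (h := h) hv 0 le_rfl w fun x => ind (SQ.Fd D t w x)
  have hF0 : 0 < (muC D v (t + 1) t w).Pr (SQ.Fd D t w) := hdl.trans_le hF
  have hPF0 : (Pc h v 0 (t + 1) t w).Pr (fun u => SQ.Fd D t w u.1) ≠ 0 := by rw [hPF]; exact hF0.ne'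
  have key := SQ.A_ge (h := h) hv hA hc
  have h1 : ((Pc h v 0 (t + 1) t w).cond fun u => SQ.Fd D t w u.1).E (fun u => ind (A u)) ≤
      (Pc h v 0 (t + 1) (t + 1) w).Pr A := by
    rw [FP.cond_E hPF0, hPF, div_le_iff₀ hF0, mul_comm]
    exact key
  have hE : (clq h v (2 * t + 1 - 1) w).Pr (fun u => SQ.Fd D t w u.1) ≠ 0 := by rw [eP]; exact hPF0
  have hs := sat_q R hp (r := 2 * t + 1 - 1) (by omega) hw hE d
  rw [eP, eX', hPF] at hs
  have hN : 0 < N1 := lt_of_lt_of_le one_pos hp.pos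
  have hkl : ((Pc h v 0 (t + 1) t w).cond fun u => SQ.Fd D t w u.1).kl (Pc h v 0 (t + 1) t w) (XL v (t + 1) d) ≤
      2 * ((Real.log (1 / dl) + 1) / N1) := by
    have h2 : Real.log (1 / (muC D v (t + 1) t w).Pr (SQ.Fd D t w)) ≤ Real.log (1 / dl) :=
      Real.log_le_log (by positivity) (one_div_le_one_div_of_le hdl hF)
    rw [mul_div_assoc', le_div_iff₀ hN]
    linarith
  have hpin := FP.pinsker_test (P := (Pc h v 0 (t + 1) t w).cond fun u => SQ.Fd D t w u.1)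
    (Q := Pc h v 0 (t + 1) t w) (FP.cond_ac _ _) (X := XL v (t + 1) d) (f := fun u => ind (A u)) (a := 1)
    (fun a b hab => by beta_reduce; rw [hA a b hab]) (fun u => by
      rw [abs_of_nonneg (ind_nonneg _)]
      exact ind_le_one _)
  rw [one_mul] at hpin
  have h3 := (abs_le.1 hpin).1
  have h4 : Real.sqrt (2 * ((Pc h v 0 (t + 1) t w).cond fun u => SQ.Fd D t w u.1).kl (Pc h v 0 (t + 1) t w)
      (XL v (t + 1) d)) ≤ 2 * Real.sqrt ((Real.log (1 / dl) + 1) / N1) := by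
    have h5 : (2 : ℝ) * Real.sqrt ((Real.log (1 / dl) + 1) / N1) =
        Real.sqrt (2 ^ 2 * ((Real.log (1 / dl) + 1) / N1)) := by
      rw [Real.sqrt_mul (by norm_num), Real.sqrt_sq (by norm_num)]
    rw [h5]
    exact Real.sqrt_le_sqrt (by linarith)
  have h6 := Real.sqrt_nonneg ((Real.log (1 / dl) + 1) / N1)
  rw [eP, eQ]
  show (Pc h v 0 (t + 1) t w).E (fun u => ind (A u)) ≤ _
  linarith

end Pool.Agent.GMH.TD
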