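import Pool.Agent.GMH.TD6S
import Pool.Agent.GMH.TD6D

/-!
# GMH.TD6: thin dynamics, rows of the thin letters (helper83, stub of helper27)

* `sat_q` (GMH/TD6S, helper80), `dig_base` (GMH/TD6D, helper80);
* `row_tv` : at typical letters of `J` the letter of `d` has nearly the law of the public cell;
* `RT.cell_J`, `RT.m_LJ`, `RT.exp_lJq`, `RT.lw_QF`, `RT.tv_dvC` : the law with the letters of `J` fixed as an event of the
  hidden point.
-/

set_option autoImplicit false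
set_option linter.unusedSectionVars false

namespace Pool.Agent.GMH.TD

open Finset Pool.Agent.PWZ Pool.Agent.M3 Pool.Agent.GM Pool.Agent.GM.Harm Pool.Agent.GMH Pool.Agent.GMH.NZ
open Pool.Agent.GMH.V3 Pool.Agent.GMH.Gdy

variable {X β γ φ : Type} [Fintype X] [Fintype β] [Fintype φ] [Nonempty X] [Nonempty β]
variable {D : HD (Fin 3) X β γ φ} {al : ℝ} {h : D.Thick al} {v : ℕ → Finset (Fin 3) → X → (Fin 3 → β) → Pt (Fin 3) X β φ}
  {N : Finset (Fin 3) → ℝ} {S : Finset (Finset (Fin 3))} {N1 : ℝ}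

namespace RT

section gen

variable {υ : Type} {v : ℕ → Finset (Fin 3) → X → (Fin 3 → β) → υ}

/-- labels of positive probability at given points -/
theorem ex_lab (h : D.Thick al) (t : ℕ) (x : X) (y : Fin 3 → β) : ∃ F : Fin 3 → φ, (D.P h t).p (x, y, F) ≠ 0 := by
  have h1 : ∀ l : Fin 3, ∃ F, D.kf t l x y F ≠ 0 := by
    intro l
    by_contra hcon
    push Not at hcon
    have := h.one t l x y
    rw [Finset.sum_eq_zero fun F _ => hcon F] at this
    exact zero_ne_one this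
  choose F hF using h1
  refine ⟨F, ?_⟩
  show (∏ l, D.kf t l x y (F l)) / (Fintype.card X * (Fintype.card β : ℝ) ^ Fintype.card (Fin 3)) ≠ 0
  refine div_ne_zero (Finset.prod_ne_zero_iff.2 fun l _ => hF l) (mul_ne_zero ?_ (pow_ne_zero _ ?_))
  · exact_mod_cast Fintype.card_ne_zero
  · exact_mod_cast Fintype.card_ne_zero

theorem mC_self_pos (n : ℕ) (c : Pt (Fin 3) X β φ) (j : Fin 3) : 0 < mC D n c j (c.2.1 j) := by
  have h4 : (nuC D n c j).p (c.2.1 j) ≠ 0 := by
    unfold nuC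
    refine (FP.cond_p_ne (unif_ne (cY_self n c j))).2 ⟨cY_self n c j, ?_⟩
    show (Fintype.card β : ℝ)⁻¹ ≠ 0
    exact inv_ne_zero (by exact_mod_cast Fintype.card_ne_zero)
  exact FP.Pr_pos_of (P := nuC D n c j) (S := fun b => b = c.2.1 j) h4 rfl

/-- mass of the points of `J` -/
noncomputable def AJ (D : HD (Fin 3) X β γ φ) (n : ℕ) (w : Pt (Fin 3) X β φ) (J : Finset (Fin 3)) : ℝ :=
  ∏ j, (if j ∈ J then mC D n w j (w.2.1 j) else 1)

theorem AJ_pos (n : ℕ) (w : Pt (Fin 3) X β φ) (J : Finset (Fin 3)) : 0 < AJ D n w J := by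
  refine Finset.prod_pos fun j _ => ?_
  split_ifs
  · exact mC_self_pos n w j
  · exact one_pos

/-- hidden points with the letters of `J` as at `w` -/
def EJ (v : ℕ → Finset (Fin 3) → X → (Fin 3 → β) → υ) (s : ℕ) (w : Pt (Fin 3) X β φ) (J : Finset (Fin 3)) (x : X) :
    Prop := ∀ j ∈ J, Gl v s w j (XL v s j w) x

variable (h) in
/-- mean over the cell with the points of `J` and the letter of `d` fixed -/
theorem cell_J (hv : Codes D v) (t : ℕ) {s n : ℕ} (hs : s ≤ n + 1) (w : Pt (Fin 3) X β φ) (G : X → ℝ)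
    (J : Finset (Fin 3)) {d : Fin 3} (hd : d ∉ J) (b : β) :
    (D.P h t).E (fun u => ind (NP D v s n u = NP D v s n w) * (G u.1 * (ind (∀ j ∈ J, u.2.1 j = w.2.1 j) *
      ind (u.2.1 d = b)))) =
      ((FP.unif X).Pr (cX D v s n w) * ∏ j, (FP.unif β).Pr (cY D n w j)) *
        (AJ D n w J * (mC D n w d b * (muC D v s n w).E G)) := by
  have h1 := cell_E (h := h) hv t hs w G
    (fun j b' => (if j ∈ J then ind (b' = w.2.1 j) else 1) * (if j = d then ind (b' = b) else 1))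
  have h2 : ∀ j, (nuC D n w j).E (fun b' => (if j ∈ J then ind (b' = w.2.1 j) else 1) *
      (if j = d then ind (b' = b) else 1)) =
      (if j ∈ J then mC D n w j (w.2.1 j) else 1) * (if j = d then mC D n w d b else 1) := by
    intro j
    by_cases hj : j = d
    · subst hj
      simp only [hd, if_false, if_true, one_mul]; rfl
    · by_cases hj' : j ∈ J
      · simp only [hj, hj', if_true, if_false, mul_one]; rfl
      · simp only [hj, hj', if_false, mul_one]; exact FP.E_const _ _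
  rw [Finset.prod_congr rfl fun j _ => h2 j, Finset.prod_mul_distrib, Finset.prod_ite_eq' univ d,
    if_pos (mem_univ d)] at h1
  have e1 : (D.P h t).E (fun u => ind (NP D v s n u = NP D v s n w) * (G u.1 * (ind (∀ j ∈ J, u.2.1 j = w.2.1 j) *
      ind (u.2.1 d = b)))) = (D.P h t).E (fun u => ind (NP D v s n u = NP D v s n w) * (G u.1 *
        ∏ j, ((if j ∈ J then ind (u.2.1 j = w.2.1 j) else 1) * (if j = d then ind (u.2.1 j = b) else 1)))) := by
    refine (D.P h t).E_congr fun u _ => ?_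
    rw [Finset.prod_mul_distrib, Finset.prod_ite_eq' univ d (fun j => ind (u.2.1 j = b)), if_pos (mem_univ d)]
    congr 3
    by_cases hh : ∀ j ∈ J, u.2.1 j = w.2.1 j
    · rw [ind_of hh]
      refine (Finset.prod_eq_one fun j _ => ?_).symm
      split_ifs with hj
      · exact ind_of (hh j hj)
      · rfl
    · rw [ind_not hh]
      push Not at hh
      obtain ⟨j, hj, hne⟩ := hh
      refine (Finset.prod_eq_zero (mem_univ j) ?_).symm
      rw [if_pos hj]
      exact ind_not hne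
  rw [e1, h1]
  unfold AJ
  ring

variable (h) in
theorem cell_J0 (hv : Codes D v) (t : ℕ) {s n : ℕ} (hs : s ≤ n + 1) (w : Pt (Fin 3) X β φ) (G : X → ℝ)
    (J : Finset (Fin 3)) :
    (D.P h t).E (fun u => ind (NP D v s n u = NP D v s n w) * (G u.1 * ind (∀ j ∈ J, u.2.1 j = w.2.1 j))) =
      ((FP.unif X).Pr (cX D v s n w) * ∏ j, (FP.unif β).Pr (cY D n w j)) *
        (AJ D n w J * (muC D v s n w).E G) := by
  have h1 := cell_E (h := h) hv t hs w G (fun j b' => if j ∈ J then ind (b' = w.2.1 j) else 1)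
  have h2 : ∀ j, (nuC D n w j).E (fun b' => if j ∈ J then ind (b' = w.2.1 j) else 1) =
      (if j ∈ J then mC D n w j (w.2.1 j) else 1) := by
    intro j
    by_cases hj' : j ∈ J
    · simp only [hj', if_true]; rfl
    · simp only [hj', if_false]; exact FP.E_const _ _
  rw [Finset.prod_congr rfl fun j _ => h2 j] at h1
  have e1 : (D.P h t).E (fun u => ind (NP D v s n u = NP D v s n w) * (G u.1 * ind (∀ j ∈ J, u.2.1 j = w.2.1 j))) =
      (D.P h t).E (fun u => ind (NP D v s n u = NP D v s n w) * (G u.1 *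
        ∏ j, (if j ∈ J then ind (u.2.1 j = w.2.1 j) else 1))) := by
    refine (D.P h t).E_congr fun u _ => ?_
    congr 2
    by_cases hh : ∀ j ∈ J, u.2.1 j = w.2.1 j
    · rw [ind_of hh]
      refine (Finset.prod_eq_one fun j _ => ?_).symm
      split_ifs with hj
      · exact ind_of (hh j hj)
      · rfl
    · rw [ind_not hh]
      push Not at hh
      obtain ⟨j, hj, hne⟩ := hh
      refine (Finset.prod_eq_zero (mem_univ j) ?_).symm
      rw [if_pos hj]
      exact ind_not hne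
  rw [e1, h1]
  unfold AJ
  ring

/-- equal letters of `J` in a cell -/
theorem XL_J (hv : Codes D v) {s n : ℕ} (hs : s ≤ n + 1) {w u : Pt (Fin 3) X β φ}
    (hu : NP D v s n u = NP D v s n w) (J : Finset (Fin 3)) :
    (∀ j ∈ J, XL v s j u = XL v s j w) ↔ EJ v s w J u.1 ∧ ∀ j ∈ J, u.2.1 j = w.2.1 j := by
  constructor
  · intro H
    exact ⟨fun j hj => ((XL_iff hv hs hu j _).1 (H j hj)).2, fun j hj => ((XL_iff hv hs hu j _).1 (H j hj)).1⟩
  · rintro ⟨H1, H2⟩ j hj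
    exact (XL_iff hv hs hu j _).2 ⟨H2 j hj, H1 j hj⟩

theorem LJ_iff (J : Finset (Fin 3)) (r : ℕ) (u w : Pt (Fin 3) X β φ) :
    LJ v J r u = LJ v J r w ↔ ∀ j ∈ J, XLr v r j u = XLr v r j w := by
  unfold LJ
  rw [funext_iff]
  constructor
  · intro H j hj
    have := H j
    simp only [hj, if_true, Option.some.injEq] at this
    exact this
  · intro H j
    by_cases hj : j ∈ J
    · simp only [hj, if_true, Option.some.injEq]; exact H j hj
    · simp only [hj, if_false]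

theorem PJ_iff (J : Finset (Fin 3)) (u w : Pt (Fin 3) X β φ) :
    PJ J u = PJ J w ↔ ∀ j ∈ J, u.2.1 j = w.2.1 j := by
  unfold PJ
  rw [funext_iff]
  constructor
  · intro H j hj
    have := H j
    simp only [hj, if_true, Option.some.injEq] at this
    exact this
  · intro H j
    by_cases hj : j ∈ J
    · simp only [hj, if_true, Option.some.injEq]; exact H j hj
    · simp only [hj, if_false]

theorem hsr (r : ℕ) : tm r + 1 ≤ nt r + 1 := by unfold tm nt; omega

variable (h) in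
/-- mass of the cell with the letters of `J` -/
theorem m_LJ (hv : Codes D v) (r : ℕ) (w : Pt (Fin 3) X β φ) (J : Finset (Fin 3)) :
    (D.P h 0).m (fun u => (LJ v J r u, NPr v D r u)) w =
      ((FP.unif X).Pr (cX D v (tm r + 1) (nt r) w) * ∏ j, (FP.unif β).Pr (cY D (nt r) w j)) *
        (AJ D (nt r) w J * (muC D v (tm r + 1) (nt r) w).Pr (EJ v (tm r + 1) w J)) := by
  rw [show (muC D v (tm r + 1) (nt r) w).Pr (EJ v (tm r + 1) w J) =
    (muC D v (tm r + 1) (nt r) w).E (fun x => ind (EJ v (tm r + 1) w J x)) from rfl,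
    ← cell_J0 h hv 0 (hsr r) w (fun x => ind (EJ v (tm r + 1) w J x)) J]
  unfold FP.m
  refine FP.E_congr _ fun u _ => ?_
  rw [← ind_and, ← ind_and]
  refine ind_cg ?_
  rw [Prod.mk.injEq, LJ_iff]
  constructor
  · rintro ⟨h1, h2⟩
    exact ⟨h2, (XL_J hv (hsr r) h2 J).1 h1⟩
  · rintro ⟨h2, h1⟩
    exact ⟨(XL_J hv (hsr r) h2 J).2 h1, h2⟩

variable (h) in
theorem m_PJ (hv : Codes D v) (r : ℕ) (w : Pt (Fin 3) X β φ) (J : Finset (Fin 3)) :
    (D.P h 0).m (fun u => (PJ J u, NPr v D r u)) w =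
      ((FP.unif X).Pr (cX D v (tm r + 1) (nt r) w) * ∏ j, (FP.unif β).Pr (cY D (nt r) w j)) * AJ D (nt r) w J := by
  have h1 := cell_J0 h hv 0 (hsr r) w (fun _ => 1) J
  rw [FP.E_const, mul_one] at h1
  rw [← h1]
  unfold FP.m
  refine FP.E_congr _ fun u _ => ?_
  rw [one_mul, ← ind_and]
  refine ind_cg ?_
  rw [Prod.mk.injEq, PJ_iff]
  exact and_comm

theorem cell_pos {s n : ℕ} (w : Pt (Fin 3) X β φ) :
    0 < (FP.unif X).Pr (cX D v s n w) * ∏ j, (FP.unif β).Pr (cY D n w j) :=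
  mul_pos (lt_of_le_of_ne (FP.Pr_nonneg _ _) (Ne.symm (unif_ne (cX_self s n w))))
    (Finset.prod_pos fun j _ => lt_of_le_of_ne (FP.Pr_nonneg _ _) (Ne.symm (unif_ne (cY_self n w j))))

/-- the letters of `w` have positive probability -/
theorem EJ_pos {s n : ℕ} (hv : Codes D v) (hs : s ≤ n + 1) (w : Pt (Fin 3) X β φ) (J : Finset (Fin 3)) :
    0 < (muC D v s n w).Pr (EJ v s w J) := by
  have h1 : (muC D v s n w).p w.1 ≠ 0 := by
    unfold muC
    refine (FP.cond_p_ne (unif_ne (cX_self s n w))).2 ⟨cX_self s n w, ?_⟩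
    show (Fintype.card X : ℝ)⁻¹ ≠ 0
    exact inv_ne_zero (by exact_mod_cast Fintype.card_ne_zero)
  exact FP.Pr_pos_of h1 ((XL_J hv hs rfl J).1 fun j _ => rfl).1

variable (h) in
theorem exp_lJq (hv : Codes D v) (r : ℕ) (w : Pt (Fin 3) X β φ) (J : Finset (Fin 3)) :
    Real.exp (lJq h v J r w) = (muC D v (tm r + 1) (nt r) w).Pr (EJ v (tm r + 1) w J) := by
  unfold lJq lq
  have hC := cell_pos (D := D) (v := v) (s := tm r + 1) (n := nt r) w
  have hA := AJ_pos (D := D) (nt r) w J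
  have hE := EJ_pos hv (hsr r) w J
  rw [m_LJ h hv, m_PJ h hv, Real.exp_log]
  · generalize (FP.unif X).Pr (cX D v (tm r + 1) (nt r) w) * ∏ j, (FP.unif β).Pr (cY D (nt r) w j) = C at hC
    field_simp
  · exact div_pos (mul_pos hC (mul_pos hA hE)) (mul_pos hC hA)

variable (h) in
/-- law of the letter of `d` given the letters of `J` -/
theorem lw_QF (hv : Codes D v) (r : ℕ) (w : Pt (Fin 3) X β φ) (J : Finset (Fin 3)) {d : Fin 3} (hd : d ∉ J)
    (z : β × List υ) :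
    lw (QF h v J r w) (XLr v r d) z = mC D (nt r) w d z.1 * (muC D v (tm r + 1) (nt r) w).Pr
      (fun x => EJ v (tm r + 1) w J x ∧ Gl v (tm r + 1) w d z x) /
        (muC D v (tm r + 1) (nt r) w).Pr (EJ v (tm r + 1) w J) := by
  have hC := cell_pos (D := D) (v := v) (s := tm r + 1) (n := nt r) w
  have hA := AJ_pos (D := D) (nt r) w J
  have hE := EJ_pos hv (hsr r) w J
  have hm : (D.P h 0).Pr (fun u => NPr v D r u = NPr v D r w ∧ LJ v J r u = LJ v J r w) =
      (D.P h 0).m (fun u => (LJ v J r u, NPr v D r u)) w := by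
    unfold FP.m FP.Pr
    refine FP.E_congr _ fun u _ => ind_cg ?_
    rw [Prod.mk.injEq]
    exact and_comm
  have hm0 : (D.P h 0).Pr (fun u => NPr v D r u = NPr v D r w ∧ LJ v J r u = LJ v J r w) ≠ 0 := by
    rw [hm, m_LJ h hv]
    exact (mul_pos hC (mul_pos hA hE)).ne'
  unfold QF lw
  rw [FP.cond_E hm0, hm, m_LJ h hv]
  have e1 : (D.P h 0).E (fun u => ind (NPr v D r u = NPr v D r w ∧ LJ v J r u = LJ v J r w) *
      ind (XLr v r d u = z)) = ((FP.unif X).Pr (cX D v (tm r + 1) (nt r) w) * ∏ j, (FP.unif β).Pr (cY D (nt r) w j)) *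
        (AJ D (nt r) w J * (mC D (nt r) w d z.1 * (muC D v (tm r + 1) (nt r) w).Pr
          (fun x => EJ v (tm r + 1) w J x ∧ Gl v (tm r + 1) w d z x))) := by
    rw [show (muC D v (tm r + 1) (nt r) w).Pr (fun x => EJ v (tm r + 1) w J x ∧ Gl v (tm r + 1) w d z x) =
      (muC D v (tm r + 1) (nt r) w).E (fun x => ind (EJ v (tm r + 1) w J x ∧ Gl v (tm r + 1) w d z x)) from rfl,
      ← cell_J h hv 0 (hsr r) w (fun x => ind (EJ v (tm r + 1) w J x ∧ Gl v (tm r + 1) w d z x)) J hd z.1]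
    refine FP.E_congr _ fun u _ => ?_
    rw [← ind_and, ← ind_and, ← ind_and, ← ind_and]
    refine ind_cg ?_
    rw [LJ_iff]
    constructor
    · rintro ⟨⟨h1, h2⟩, h3⟩
      have h4 := (XL_J hv (hsr r) h1 J).1 h2
      have h5 := (XL_iff hv (hsr r) h1 d z).1 h3
      exact ⟨h1, ⟨h4.1, h5.2⟩, h4.2, h5.1⟩
    · rintro ⟨h1, ⟨h2, h3⟩, h4, h5⟩
      exact ⟨⟨h1, (XL_J hv (hsr r) h1 J).2 ⟨h2, h4⟩⟩, (XL_iff hv (hsr r) h1 d z).2 ⟨h5, h3⟩⟩
  rw [e1]
  generalize (FP.unif X).Pr (cX D v (tm r + 1) (nt r) w) * ∏ j, (FP.unif β).Pr (cY D (nt r) w j) = C at hC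
  field_simp

variable (h) in
/-- the distance as `dvC` -/
theorem tv_dvC (hv : Codes D v) (r : ℕ) (w : Pt (Fin 3) X β φ) (J : Finset (Fin 3)) {d : Fin 3} (hd : d ∉ J) :
    ∑ μ ∈ vals (XLr (φ := φ) v r d), |lw (QF h v J r w) (XLr v r d) μ - lw (clq h v r w) (XLr v r d) μ| =
      dvC D v (tm r + 1) (nt r) w d (EJ v (tm r + 1) w J) /
        (muC D v (tm r + 1) (nt r) w).Pr (EJ v (tm r + 1) w J) := by
  have hE := EJ_pos hv (hsr r) w J
  unfold dvC
  rw [Finset.sum_div]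
  refine Finset.sum_congr rfl fun z _ => ?_
  rw [lw_QF h hv r w J hd z]
  have e1 : lw (clq h v r w) (XLr v r d) z = mC D (nt r) w d z.1 *
      (muC D v (tm r + 1) (nt r) w).Pr (Gl v (tm r + 1) w d z) := Pc_lw (h := h) hv 0 (hsr r) w d z
  rw [e1]
  have e2 : mC D (nt r) w d z.1 * (muC D v (tm r + 1) (nt r) w).Pr
      (fun x => EJ v (tm r + 1) w J x ∧ Gl v (tm r + 1) w d z x) /
        (muC D v (tm r + 1) (nt r) w).Pr (EJ v (tm r + 1) w J) - mC D (nt r) w d z.1 *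
      (muC D v (tm r + 1) (nt r) w).Pr (Gl v (tm r + 1) w d z) =
      (mC D (nt r) w d z.1 / (muC D v (tm r + 1) (nt r) w).Pr (EJ v (tm r + 1) w J)) *
      ((muC D v (tm r + 1) (nt r) w).Pr (fun x => EJ v (tm r + 1) w J x ∧ Gl v (tm r + 1) w d z x) -
        (muC D v (tm r + 1) (nt r) w).Pr (EJ v (tm r + 1) w J) *
          (muC D v (tm r + 1) (nt r) w).Pr (Gl v (tm r + 1) w d z)) := by
    field_simp
  rw [e2, abs_mul, abs_of_nonneg (div_nonneg (mC_nonneg _ w d z.1) hE.le)]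
  ring

end gen

/-- the digit event -/
theorem dig_pr (hv : Codes D v) {t : ℕ} {w : Pt (Fin 3) X β φ} {dl : ℝ}
    (hd : dl * (D.P h 0).m (NPr v D (2 * t)) w ≤ (D.P h 0).m (NPr v D (2 * t + 1)) w) :
    dl ≤ (muC D v (t + 1) t w).Pr (fun x => D.qa (t + 1) x = D.qa (t + 1) w.1) := by
  rw [NPr_even, NPr_odd] at hd
  have e1 : (D.P h 0).m (NP D v (t + 1) t) w = (FP.unif X).Pr (cX D v (t + 1) t w) *
      ∏ j, (FP.unif β).Pr (cY D t w j) := cell_Pr hv 0 le_rfl w
  have e2 : (D.P h 0).m (NP D v (t + 1) (t + 1)) w = (FP.unif X).Pr (cX D v (t + 1) (t + 1) w) *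
      ∏ j, (FP.unif β).Pr (cY D (t + 1) w j) := cell_Pr hv 0 (by omega) w
  rw [e1, e2] at hd
  have hA : (FP.unif X).Pr (cX D v (t + 1) t w) ≠ 0 := unif_ne (cX_self (t + 1) t w)
  have e3 : (FP.unif X).Pr (cX D v (t + 1) (t + 1) w) = (FP.unif X).Pr (cX D v (t + 1) t w) *
      (muC D v (t + 1) t w).Pr (fun x => D.qa (t + 1) x = D.qa (t + 1) w.1) := by
    unfold muC
    show _ = (FP.unif X).Pr (cX D v (t + 1) t w) * ((FP.unif X).cond (cX D v (t + 1) t w)).E
      (fun x => ind (D.qa (t + 1) x = D.qa (t + 1) w.1))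
    rw [FP.Pr_mul_cond_E hA]
    unfold FP.Pr
    refine FP.E_congr _ fun x _ => ?_
    rw [← ind_and]
    exact ind_cg ((cX_succ w x).trans and_comm)
  have h1 : ∏ j, (FP.unif β).Pr (cY D (t + 1) w j) ≤ ∏ j, (FP.unif β).Pr (cY D t w j) :=
    Finset.prod_le_prod (fun j _ => FP.Pr_nonneg _ _) fun j _ => FP.Pr_mono _ fun b _ => cY_succ w j b
  have h2 : 0 < (FP.unif X).Pr (cX D v (t + 1) t w) * ∏ j, (FP.unif β).Pr (cY D t w j) :=
    mul_pos (lt_of_le_of_ne (FP.Pr_nonneg _ _) (Ne.symm hA))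
      (Finset.prod_pos fun j _ => lt_of_le_of_ne (FP.Pr_nonneg _ _) (Ne.symm (unif_ne (cY_self t w j))))
  have h4 := mul_le_mul_of_nonneg_left h1 (FP.Pr_nonneg (FP.unif X) (cX D v (t + 1) (t + 1) w))
  rw [e3] at h4 hd
  refine le_of_mul_le_mul_left ?_ h2
  linarith

end RT

theorem row_tv (R : Run h N S (AdmDep D) v) (hp : Prc N S N1) {dg : ℕ → X → ℝ} {prr : ℕ → Fin 3 → φ → φ} {T : ℕ}
    {Lam : ℝ} (H : D.Hyp dg prr al T Lam) {dl X1 : ℝ} (hdl : 0 < dl) (hdl1 : dl ≤ 1) (hX1 : 0 ≤ X1) {r : ℕ}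
    (hr : r ≤ 2 * T) {w : Pt (Fin 3) X β φ} (_hw : (D.P h 0).p w ≠ 0) (hd : dgq h v dl r w) {J : Finset (Fin 3)}
    {d : Fin 3} (hJ : d ∉ J) (hX : -X1 ≤ lJq h v J r w) :
    ∑ μ ∈ vals (XLr (φ := φ) v r d), |lw (QF h v J r w) (XLr v r d) μ - lw (clq h v r w) (XLr v r d) μ| ≤
      32 * Real.sqrt ((X1 + Real.log (1 / dl) + 1) / N1) := by
  have hv := R.codes
  have hN1p : 0 < N1 := one_pos.trans_le hp.pos
  have hlog : 0 ≤ Real.log (1 / dl) := Real.log_nonneg (by rw [le_div_iff₀ hdl]; linarith)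
  have hE := RT.EJ_pos hv (RT.hsr r) w J
  have hEX : Real.exp (-X1) ≤ (muC D v (tm r + 1) (nt r) w).Pr (RT.EJ v (tm r + 1) w J) := by
    rw [← RT.exp_lJq h hv r w J]
    exact Real.exp_le_exp.2 hX
  rw [RT.tv_dvC h hv r w J hJ, div_le_iff₀ hE]
  have sq4 : ∀ a, 0 ≤ a → a ≤ X1 + Real.log (1 / dl) → Real.sqrt (4 * (a + 1) / N1) ≤
      2 * Real.sqrt ((X1 + Real.log (1 / dl) + 1) / N1) := by
    intro a ha ha2
    have e2 : (2 : ℝ) = Real.sqrt 4 := by
      rw [show (4 : ℝ) = 2 ^ 2 by norm_num, Real.sqrt_sq (by norm_num)]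
    rw [e2, ← Real.sqrt_mul (by norm_num)]
    refine Real.sqrt_le_sqrt ?_
    rw [← mul_div_assoc]
    refine div_le_div_of_nonneg_right ?_ hN1p.le
    linarith
  have hsq0 : 0 ≤ Real.sqrt ((X1 + Real.log (1 / dl) + 1) / N1) := Real.sqrt_nonneg _
  obtain ⟨t, rfl | rfl⟩ : ∃ t, r = 2 * t ∨ r = 2 * t + 1 := ⟨r / 2, by omega⟩
  · have et : tm (2 * t) = t := by unfold tm; omega
    have en : nt (2 * t) = t := by unfold nt; omega
    rw [et, en] at hE hEX ⊢
    obtain ⟨F, hF⟩ := RT.ex_lab h t w.1 w.2.1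
    have key := dvC_le R hp.nn hp.e0 hp.s1 hp.n0 hp.n1 hN1p t (c := (w.1, w.2.1, F)) hF d
      (E := RT.EJ v (t + 1) w J) (a := X1) hEX
    refine (key : dvC D v (t + 1) t w d (RT.EJ v (t + 1) w J) ≤ _ * (muC D v (t + 1) t w).Pr (RT.EJ v (t + 1) w J)).trans ?_
    refine mul_le_mul_of_nonneg_right ((sq4 X1 hX1 (by linarith)).trans (by linarith)) hE.le
  · have et : tm (2 * t + 1) = t := by unfold tm; omega
    have en : nt (2 * t + 1) = t + 1 := by unfold nt; omega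
    rw [et, en] at hE hEX ⊢
    have htT : t < T := by omega
    have hd' := hd (by omega)
    rw [show 2 * t + 1 - 1 = 2 * t by omega] at hd'
    have hFd := RT.dig_pr hv hd'
    have hFp : 0 < (muC D v (t + 1) t w).Pr (fun x => D.qa (t + 1) x = D.qa (t + 1) w.1) := hdl.trans_le hFd
    obtain ⟨F, hF⟩ := RT.ex_lab h t w.1 w.2.1
    have edl : Real.exp (-Real.log (1 / dl)) = dl := by
      rw [one_div, Real.log_inv, neg_neg, Real.exp_log hdl]
    have hFE : Real.exp (-(X1 + Real.log (1 / dl))) ≤ (muC D v (t + 1) t w).Pr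
        (fun x => D.qa (t + 1) x = D.qa (t + 1) w.1 ∧ RT.EJ v (t + 1) w J x) := by
      rw [← muC_succ w (RT.EJ v (t + 1) w J), neg_add, Real.exp_add, edl, mul_comm]
      exact mul_le_mul hFd hEX (Real.exp_pos _).le hFp.le
    have h1 := dvC_le R hp.nn hp.e0 hp.s1 hp.n0 hp.n1 hN1p t (c := (w.1, w.2.1, F)) hF d
      (E := fun x => D.qa (t + 1) x = D.qa (t + 1) w.1 ∧ RT.EJ v (t + 1) w J x) hFE
    have h2 := dvC_le R hp.nn hp.e0 hp.s1 hp.n0 hp.n1 hN1p t (c := (w.1, w.2.1, F)) hF d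
      (E := fun x => D.qa (t + 1) x = D.qa (t + 1) w.1) (a := Real.log (1 / dl)) (by rw [edl]; exact hFd)
    have h3 := dvC_succ H htT w d (E := RT.EJ v (t + 1) w J) h1 h2 hFp
    refine h3.trans (mul_le_mul_of_nonneg_right ?_ hE.le)
    have s1 := sq4 (X1 + Real.log (1 / dl)) (by linarith) le_rfl
    have s2 := sq4 (Real.log (1 / dl)) hlog (by linarith)
    linarith

end Pool.Agent.GMH.TD
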