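import Pool.Agent.GMH.TDdef
import Pool.Agent.GMH.TD1

/-!
# GMH.TD4: thin dynamics, positions, classes, worlds (helper30, statements of helper27)

Everything is a function of the positions.
* `m_PJ` : mass of the points of `J` in a public cell; `rdev_self`, `prod_code`, `kl_code`;
* `Wd_E` : law of the points in a world (product law over the vertices other than `e`); `Wd_indep`, `cel_half`, `NPr_wd`,
  `Wd_pt`;
* `HRq_fac`, `Rel_wd` : the static relation.
-/

set_option autoImplicit false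
set_option linter.unusedSectionVars false

namespace Pool.Agent.GMH.TD

open Finset Pool.Agent.PWZ Pool.Agent.M3 Pool.Agent.GM Pool.Agent.GM.Harm Pool.Agent.GMH Pool.Agent.GMH.NZ
open Pool.Agent.GMH.V3 Pool.Agent.GMH.Gdy

variable {X β γ φ υ : Type} [Fintype X] [Fintype β] [Fintype φ] [Nonempty X] [Nonempty β]
variable {D : HD (Fin 3) X β γ φ} {al : ℝ} {h : D.Thick al} {v : ℕ → Finset (Fin 3) → X → (Fin 3 → β) → υ}

/-! ### filtrations, positions -/

theorem NPr_step (r : ℕ) : Fac (NPr (φ := φ) v D (r + 1)) (NPr v D r) := fun _ _ hab => NPr_older (Nat.le_succ r) hab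

theorem LJ_iff {J : Finset (Fin 3)} {r : ℕ} {a b : Pt (Fin 3) X β φ} :
    LJ v J r a = LJ v J r b ↔ ∀ j ∈ J, XLr v r j a = XLr v r j b := by
  unfold LJ
  rw [funext_iff]
  constructor
  · intro hh j hj
    have := hh j
    rw [if_pos hj, if_pos hj] at this
    exact Option.some.inj this
  · intro hh j
    by_cases hj : j ∈ J
    · rw [if_pos hj, if_pos hj, hh j hj]
    · rw [if_neg hj, if_neg hj]

theorem PJ_iff {J : Finset (Fin 3)} {a b : Pt (Fin 3) X β φ} : PJ J a = PJ J b ↔ ∀ j ∈ J, a.2.1 j = b.2.1 j := by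
  unfold PJ
  rw [funext_iff]
  constructor
  · intro hh j hj
    have := hh j
    rw [if_pos hj, if_pos hj] at this
    exact Option.some.inj this
  · intro hh j
    by_cases hj : j ∈ J
    · rw [if_pos hj, if_pos hj, hh j hj]
    · rw [if_neg hj, if_neg hj]

theorem LJ_step (J : Finset (Fin 3)) (r : ℕ) : Fac (LJ (φ := φ) v J (r + 1)) (LJ v J r) := fun _ _ hab =>
  LJ_iff.2 fun j hj => XLr_older (Nat.le_succ r) (LJ_iff.1 hab j hj)

theorem LJ_PJ (J : Finset (Fin 3)) (r : ℕ) : Fac (LJ (φ := φ) v J r) (PJ J) := fun _ _ hab =>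
  PJ_iff.2 fun j hj => congrArg Prod.fst (LJ_iff.1 hab j hj)

theorem LJ_sub {I J : Finset (Fin 3)} (hIJ : I ⊆ J) (r : ℕ) : Fac (LJ (φ := φ) v J r) (LJ v I r) := fun _ _ hab =>
  LJ_iff.2 fun j hj => LJ_iff.1 hab j (hIJ hj)

theorem XLr_LJ {J : Finset (Fin 3)} {j : Fin 3} (hj : j ∈ J) (r : ℕ) : Fac (LJ (φ := φ) v J r) (XLr v r j) :=
  fun _ _ hab => LJ_iff.1 hab j hj

theorem XLr_eq {r : ℕ} {j : Fin 3} {a b : Pt (Fin 3) X β φ} (h1 : a.1 = b.1) (h2 : a.2.1 = b.2.1) :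
    XLr v r j a = XLr v r j b := by
  unfold XLr XL
  rw [h1, h2]

/-- everything is a function of the positions -/
theorem NPr_pos (r : ℕ) : Fac (fun w : Pt (Fin 3) X β φ => (w.1, w.2.1)) (NPr v D r) := by
  intro a b hab
  have hab' : (a.1, a.2.1) = (b.1, b.2.1) := hab
  have h1 : a.1 = b.1 := (Prod.mk.inj hab').1
  have h2 : a.2.1 = b.2.1 := (Prod.mk.inj hab').2
  unfold NPr NP nd
  rw [h1, h2]

theorem LJ_pos (J : Finset (Fin 3)) (r : ℕ) : Fac (fun w : Pt (Fin 3) X β φ => (w.1, w.2.1)) (LJ v J r) := by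
  intro a b hab
  have hab' : (a.1, a.2.1) = (b.1, b.2.1) := hab
  exact LJ_iff.2 fun j _ => XLr_eq (Prod.mk.inj hab').1 (Prod.mk.inj hab').2

/-- functions of the positions have the same mean at all times -/
theorem law0 (t : ℕ) {f : Pt (Fin 3) X β φ → ℝ} (hf : Fac (fun w : Pt (Fin 3) X β φ => (w.1, w.2.1)) f) :
    (D.P h t).E f = (D.P h 0).E f :=
  Dead.E_time h (F := f) (fun a b h1 h2 => hf a b (Prod.ext h1 h2)) t 0

theorem tm_nt (r : ℕ) : tm r ≤ nt r := Nat.div_le_div_right (Nat.le_succ r)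

/-! ### masses of points -/

theorem mC_self {n : ℕ} {a b : Pt (Fin 3) X β φ} {j : Fin 3} (hab : D.qb n (a.2.1 j) = D.qb n (b.2.1 j)) :
    nuC D n a j = nuC D n b j := by
  unfold nuC cY
  rw [hab]

/-- **the points of `J` in a public cell** -/
theorem m_PJ (hv : Codes D v) (t : ℕ) {s n : ℕ} (hs : s ≤ n + 1) (J : Finset (Fin 3)) (w : Pt (Fin 3) X β φ) :
    (D.P h t).m (fun u => (PJ J u, NP D v s n u)) w =
      (D.P h t).m (NP D v s n) w * ∏ j ∈ J, mC D n w j (w.2.1 j) := by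
  have h1 := cell_E (h := h) hv t hs w (fun _ => 1) (fun j b => if j ∈ J then ind (b = w.2.1 j) else 1)
  have h2 := cell_Pr (h := h) hv t hs w
  have e1 : (D.P h t).m (fun u => (PJ J u, NP D v s n u)) w = (D.P h t).E (fun u => ind (NP D v s n u = NP D v s n w) *
      (1 * ∏ j, if j ∈ J then ind (u.2.1 j = w.2.1 j) else 1)) := by
    unfold FP.m
    refine (D.P h t).E_congr fun u _ => ?_
    have e2 : ind ((fun u => (PJ J u, NP D v s n u)) u = (fun u => (PJ J u, NP D v s n u)) w) =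
        ind (NP D v s n u = NP D v s n w ∧ ∀ j ∈ J, u.2.1 j = w.2.1 j) := by
      refine ind_cg ?_
      show (PJ J u, NP D v s n u) = (PJ J w, NP D v s n w) ↔ _
      rw [Prod.mk.injEq, PJ_iff]
      exact and_comm
    rw [e2, ind_and, one_mul]
    congr 1
    by_cases hh : ∀ j ∈ J, u.2.1 j = w.2.1 j
    · rw [ind_of hh]
      refine (Finset.prod_eq_one fun j _ => ?_).symm
      by_cases hj : j ∈ J
      · rw [if_pos hj, ind_of (hh j hj)]
      · rw [if_neg hj]
    · rw [ind_not hh]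
      push Not at hh
      obtain ⟨j, hj, hne⟩ := hh
      refine (Finset.prod_eq_zero (mem_univ j) ?_).symm
      rw [if_pos hj, ind_not hne]
  have e3 : (D.P h t).m (NP D v s n) w = (D.P h t).Pr (fun u => NP D v s n u = NP D v s n w) := rfl
  rw [e1, h1, e3, h2, FP.E_const, one_mul]
  congr 1
  rw [← Finset.prod_subset (Finset.subset_univ J) (f := fun j => (nuC D n w j).E (fun b =>
    if j ∈ J then ind (b = w.2.1 j) else 1)) (fun j _ hj => by
      simp only [if_neg hj]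
      exact FP.E_const _ _)]
  refine Finset.prod_congr rfl fun j hj => ?_
  unfold mC
  simp only [if_pos hj]

theorem mC_pos (n : ℕ) (w : Pt (Fin 3) X β φ) (j : Fin 3) : 0 < mC D n w j (w.2.1 j) := by
  have h1 : (FP.unif β).Pr (cY D n w j) ≠ 0 := V3.unif_ne (cY_self n w j)
  have h2 : ((FP.unif β).cond (cY D n w j)).p (w.2.1 j) ≠ 0 :=
    (FP.cond_p_ne h1).2 ⟨cY_self n w j, FP.unif_ne β _⟩
  exact FP.Pr_pos_of (P := (FP.unif β).cond (cY D n w j)) (S := fun b => b = w.2.1 j) h2 rfl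

/-- mass of the letters of `J` and one more letter in the class of the letters of `J` -/
theorem QF_lw (J : Finset (Fin 3)) (d : Fin 3) (r : ℕ) {w : Pt (Fin 3) X β φ} (hw : (D.P h 0).p w ≠ 0) :
    lw (QF h v J r w) (XLr v r d) (XLr v r d w) =
      (D.P h 0).m (fun u => (LJ v (insert d J) r u, NPr v D r u)) w / (D.P h 0).m (fun u => (LJ v J r u, NPr v D r u)) w := by
  have e1 : (D.P h 0).Pr (fun u => NPr v D r u = NPr v D r w ∧ LJ v J r u = LJ v J r w) =
      (D.P h 0).m (fun u => (LJ v J r u, NPr v D r u)) w := by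
    refine (D.P h 0).E_congr fun u _ => ind_cg ?_
    show _ ↔ (LJ v J r u, NPr v D r u) = (LJ v J r w, NPr v D r w)
    rw [Prod.mk.injEq]
    exact and_comm
  have h0 : (D.P h 0).Pr (fun u => NPr v D r u = NPr v D r w ∧ LJ v J r u = LJ v J r w) ≠ 0 := by
    rw [e1]
    exact ((D.P h 0).m_pos _ hw).ne'
  unfold lw QF
  rw [FP.cond_E h0, e1]
  congr 1
  refine (D.P h 0).E_congr fun u _ => ?_
  rw [← ind_and]
  refine ind_cg ?_
  show _ ↔ (LJ v (insert d J) r u, NPr v D r u) = (LJ v (insert d J) r w, NPr v D r w)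
  constructor
  · rintro ⟨⟨a1, a2⟩, a3⟩
    refine Prod.ext (LJ_iff.2 fun j hj => ?_) a1
    rcases Finset.mem_insert.1 hj with rfl | hj
    · exact a3
    · exact LJ_iff.1 a2 j hj
  · intro hh
    have a1 := LJ_iff.1 (congrArg Prod.fst hh)
    exact ⟨⟨congrArg Prod.snd hh, LJ_iff.2 fun j hj => a1 j (Finset.mem_insert_of_mem hj)⟩,
      a1 d (Finset.mem_insert_self _ _)⟩

theorem Tri3.nc {J0 : Finset (Fin 3)} {e c d : Fin 3} (ht : Tri3 J0 e c d) : c ∉ J0 := fun hh =>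
  ht.ec (Finset.mem_singleton.1 (ht.sub hh)).symm

theorem Tri3.nd {J0 : Finset (Fin 3)} {e c d : Fin 3} (ht : Tri3 J0 e c d) : d ∉ J0 := fun hh =>
  ht.ed (Finset.mem_singleton.1 (ht.sub hh)).symm

theorem Tri3.all {J0 : Finset (Fin 3)} {e c d : Fin 3} (ht : Tri3 J0 e c d) (j : Fin 3) : j = e ∨ j = c ∨ j = d := by
  have key : ∀ e c d j : Fin 3, e ≠ c → e ≠ d → c ≠ d → j = e ∨ j = c ∨ j = d := by decide
  exact key e c d j ht.ec ht.ed ht.cd

/-- **the density in terms of the log probabilities** -/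
theorem rdev_self (hv : Codes D v) {J0 : Finset (Fin 3)} {e c d : Fin 3} (ht : Tri3 J0 e c d) (r : ℕ)
    {w : Pt (Fin 3) X β φ} (hw : (D.P h 0).p w ≠ 0) :
    rdev h v J0 c d r w w = Real.exp (lJq h v (insert c (insert d J0)) r w + lJq h v J0 r w -
      lJq h v (insert c J0) r w - lJq h v (insert d J0) r w) := by
  have hs : tm r + 1 ≤ nt r + 1 := Nat.succ_le_succ (tm_nt r)
  have P : ∀ J : Finset (Fin 3), (D.P h 0).m (fun u => (PJ J u, NPr v D r u)) w =
      (D.P h 0).m (NPr v D r) w * ∏ j ∈ J, mC D (nt r) w j (w.2.1 j) := fun J => m_PJ hv 0 hs J w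
  have pL : ∀ J : Finset (Fin 3), 0 < (D.P h 0).m (fun u => (LJ v J r u, NPr v D r u)) w := fun J =>
    (D.P h 0).m_pos _ hw
  have pP : ∀ J : Finset (Fin 3), 0 < (D.P h 0).m (fun u => (PJ J u, NPr v D r u)) w := fun J =>
    (D.P h 0).m_pos _ hw
  have hcd : c ∉ insert d J0 := by
    rw [Finset.mem_insert, not_or]
    exact ⟨ht.cd, ht.nc⟩
  have k : (D.P h 0).m (fun u => (PJ (insert c (insert d J0)) u, NPr v D r u)) w *
      (D.P h 0).m (fun u => (PJ J0 u, NPr v D r u)) w =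
      (D.P h 0).m (fun u => (PJ (insert c J0) u, NPr v D r u)) w *
        (D.P h 0).m (fun u => (PJ (insert d J0) u, NPr v D r u)) w := by
    rw [P, P, P, P, Finset.prod_insert hcd, Finset.prod_insert ht.nd, Finset.prod_insert ht.nc]
    ring
  have a1 := pL (insert c (insert d J0))
  have a2 := pL J0
  have a3 := pL (insert c J0)
  have a4 := pL (insert d J0)
  have b1 := pP (insert c (insert d J0))
  have b2 := pP J0
  have b3 := pP (insert c J0)
  have b4 := pP (insert d J0)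
  unfold rdev rt lJq lq
  rw [QF_lw J0 d r hw, QF_lw (insert c J0) d r hw, Finset.insert_comm d c J0, Real.exp_sub, Real.exp_sub, Real.exp_add,
    Real.exp_log (div_pos a1 b1), Real.exp_log (div_pos a2 b2), Real.exp_log (div_pos a3 b3), Real.exp_log (div_pos a4 b4)]
  generalize (D.P h 0).m (fun u => (LJ v (insert c (insert d J0)) r u, NPr v D r u)) w = x1 at *
  generalize (D.P h 0).m (fun u => (LJ v J0 r u, NPr v D r u)) w = x2 at *
  generalize (D.P h 0).m (fun u => (LJ v (insert c J0) r u, NPr v D r u)) w = x3 at *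
  generalize (D.P h 0).m (fun u => (LJ v (insert d J0) r u, NPr v D r u)) w = x4 at *
  generalize (D.P h 0).m (fun u => (PJ (insert c (insert d J0)) u, NPr v D r u)) w = y1 at *
  generalize (D.P h 0).m (fun u => (PJ J0 u, NPr v D r u)) w = y2 at *
  generalize (D.P h 0).m (fun u => (PJ (insert c J0) u, NPr v D r u)) w = y3 at *
  generalize (D.P h 0).m (fun u => (PJ (insert d J0) u, NPr v D r u)) w = y4 at *
  field_simp
  linear_combination k

/-- the points are not seen by the codes -/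
theorem prod_code (hv : Codes D v) {r : ℕ} (hr : r % 2 = 1) (J : Finset (Fin 3)) {w : Pt (Fin 3) X β φ}
    (_hw : (D.P h 0).p w ≠ 0) :
    (D.P h 0).m (fun u => (PJ J u, NPr v D (r + 1) u)) w * (D.P h 0).m (NPr v D r) w =
      (D.P h 0).m (fun u => (PJ J u, NPr v D r u)) w * (D.P h 0).m (NPr v D (r + 1)) w := by
  have e1 : (D.P h 0).m (fun u => (PJ J u, NPr v D (r + 1) u)) w =
      (D.P h 0).m (NPr v D (r + 1)) w * ∏ j ∈ J, mC D (nt (r + 1)) w j (w.2.1 j) :=
    m_PJ hv 0 (Nat.succ_le_succ (tm_nt (r + 1))) J w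
  have e2 : (D.P h 0).m (fun u => (PJ J u, NPr v D r u)) w =
      (D.P h 0).m (NPr v D r) w * ∏ j ∈ J, mC D (nt r) w j (w.2.1 j) :=
    m_PJ hv 0 (Nat.succ_le_succ (tm_nt r)) J w
  have e3 : nt (r + 1) = nt r := by unfold nt; omega
  rw [e1, e2, e3]
  ring

theorem m_XLr (d : Fin 3) (r : ℕ) {κ : Type*} (Z : Pt (Fin 3) X β φ → κ) (w : Pt (Fin 3) X β φ) :
    (D.P h 0).m (fun u => (XLr v r d u, Z u)) w = (D.P h 0).m (fun u => (LJ v {d} r u, Z u)) w := by
  refine (D.P h 0).E_congr fun u _ => ind_cg ?_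
  show (XLr v r d u, Z u) = (XLr v r d w, Z w) ↔ (LJ v {d} r u, Z u) = (LJ v {d} r w, Z w)
  constructor
  · intro hh
    refine Prod.ext (LJ_iff.2 fun j hj => ?_) (Prod.mk.inj hh).2
    rw [Finset.mem_singleton.1 hj]
    exact (Prod.mk.inj hh).1
  · intro hh
    exact Prod.ext (LJ_iff.1 (Prod.mk.inj hh).1 d (Finset.mem_singleton_self d)) (Prod.mk.inj hh).2

/-- relative entropy of the letter `d` in a code step -/
theorem kl_code (hv : Codes D v) {r : ℕ} (hr : r % 2 = 1) (d : Fin 3) {w : Pt (Fin 3) X β φ}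
    (hw : (D.P h 0).p w ≠ 0) :
    (clq h v (r + 1) w).kl (clq h v r w) (XLr v r d) = (D.P h 0).ce (NPr v D (r + 1)) (aJq h v {d} r) w := by
  rw [FP.ce_eq_cond (D.P h 0) (NPr v D (r + 1)) (aJq h v {d} r) hw]
  have e0 : clq h v (r + 1) w = (D.P h 0).cond fun u => NPr v D (r + 1) u = NPr v D (r + 1) w := rfl
  have e1 : clq h v r w = (D.P h 0).cond fun u => NPr v D r u = NPr v D r w := rfl
  unfold FP.kl
  rw [e0, e1]
  refine FP.E_congr _ fun u hu => ?_
  have hu' := (FP.cond_p_ne ((D.P h 0).m_pos (NPr v D (r + 1)) hw).ne').1 hu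
  have hu0 := hu'.2
  have hN1 : NPr v D (r + 1) u = NPr v D (r + 1) w := hu'.1
  have hN0 : NPr v D r u = NPr v D r w := NPr_step r u w hN1
  rw [FP.cond_m_fibre (P := D.P h 0) (XLr v r d) (NPr v D (r + 1)) hw hN1,
    FP.cond_m_fibre (P := D.P h 0) (XLr v r d) (NPr v D r) hw hN0, m_XLr, m_XLr,
    ← (D.P h 0).Fac_m (NPr v D (r + 1)) u w hN1, ← (D.P h 0).Fac_m (NPr v D r) u w hN0]
  have k := prod_code (h := h) hv hr {d} hu0
  have a1 := (D.P h 0).m_pos (fun x => (LJ v {d} r x, NPr v D (r + 1) x)) hu0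
  have a2 := (D.P h 0).m_pos (fun x => (LJ v {d} r x, NPr v D r x)) hu0
  have b1 := (D.P h 0).m_pos (fun x => (PJ {d} x, NPr v D (r + 1) x)) hu0
  have b2 := (D.P h 0).m_pos (fun x => (PJ {d} x, NPr v D r x)) hu0
  have c1 := (D.P h 0).m_pos (NPr v D (r + 1)) hu0
  have c2 := (D.P h 0).m_pos (NPr v D r) hu0
  unfold aJq ai lqn lq
  rw [← Real.log_div (div_ne_zero a1.ne' b1.ne') (div_ne_zero a2.ne' b2.ne')]
  congr 1
  generalize (D.P h 0).m (fun x => (LJ v {d} r x, NPr v D (r + 1) x)) u = x1 at *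
  generalize (D.P h 0).m (fun x => (LJ v {d} r x, NPr v D r x)) u = x2 at *
  generalize (D.P h 0).m (fun x => (PJ {d} x, NPr v D (r + 1) x)) u = y1 at *
  generalize (D.P h 0).m (fun x => (PJ {d} x, NPr v D r x)) u = y2 at *
  generalize (D.P h 0).m (NPr v D (r + 1)) u = z1 at *
  generalize (D.P h 0).m (NPr v D r) u = z2 at *
  field_simp
  linear_combination k

/-! ### worlds -/

/-- every world has positive mass -/
theorem Wd_ne (e : Fin 3) (ν : ℕ) (w : Pt (Fin 3) X β φ) :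
    (D.P h 0).Pr (fun u => (u.1, u.2.1 e, NPr v D ν u) = (w.1, w.2.1 e, NPr v D ν w)) ≠ 0 := by
  have h1 : (D.P h 0).Pr (fun u => (u.1, u.2.1 e, NPr v D ν u) = (w.1, w.2.1 e, NPr v D ν w)) =
      (FP.unif (X × (Fin 3 → β))).Pr (fun z => (z.1, z.2 e, NPr v D ν (z.1, z.2, w.2.2)) =
        (w.1, w.2.1 e, NPr v D ν w)) := by
    refine Eq.trans ?_ (E_pts h 0 (fun z => ind ((z.1, z.2 e, NPr v D ν (z.1, z.2, w.2.2)) =
        (w.1, w.2.1 e, NPr v D ν w))))
    refine (D.P h 0).E_congr fun u _ => ?_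
    have e1 : NPr v D ν u = NPr v D ν (u.1, u.2.1, w.2.2) := NPr_pos ν u (u.1, u.2.1, w.2.2) rfl
    show ind ((u.1, u.2.1 e, NPr v D ν u) = (w.1, w.2.1 e, NPr v D ν w)) =
      ind ((u.1, u.2.1 e, NPr v D ν (u.1, u.2.1, w.2.2)) = (w.1, w.2.1 e, NPr v D ν w))
    rw [e1]
  rw [h1]
  exact V3.unif_ne (A := fun z : X × (Fin 3 → β) => (z.1, z.2 e, NPr v D ν (z.1, z.2, w.2.2)) =
    (w.1, w.2.1 e, NPr v D ν w)) (a := (w.1, w.2.1)) rfl

theorem Wd_supp {e : Fin 3} {ν : ℕ} {w u : Pt (Fin 3) X β φ} (hu : (Wd h v e ν w).p u ≠ 0) :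
    u.1 = w.1 ∧ u.2.1 e = w.2.1 e ∧ NPr v D ν u = NPr v D ν w ∧ (D.P h 0).p u ≠ 0 := by
  have h1 := (FP.cond_p_ne (Wd_ne e ν w)).1 hu
  have h2 := h1.1
  have h3 := (Prod.mk.inj h2).2
  exact ⟨(Prod.mk.inj h2).1, (Prod.mk.inj h3).1, (Prod.mk.inj h3).2, h1.2⟩

/-- **the law of the points in a world** -/
theorem Wd_E (hv : Codes D v) (e : Fin 3) (ν : ℕ) (w : Pt (Fin 3) X β φ) (F : Fin 3 → β → ℝ) :
    (Wd h v e ν w).E (fun u => ∏ j ∈ univ.erase e, F j (u.2.1 j)) =
      ∏ j ∈ univ.erase e, (nuC D (nt ν) w j).E (F j) := by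
  have hs : tm ν + 1 ≤ nt ν + 1 := Nat.succ_le_succ (tm_nt ν)
  have h0 := Wd_ne (h := h) (v := v) e ν w
  set Z : ℝ := ((FP.unif X).Pr (cX D v (tm ν + 1) (nt ν) w) * ∏ j, (FP.unif β).Pr (cY D (nt ν) w j)) *
    ((muC D v (tm ν + 1) (nt ν) w).E (fun x => ind (x = w.1)) * (nuC D (nt ν) w e).E fun b => ind (b = w.2.1 e)) with hZ
  have key : ∀ G : Fin 3 → β → ℝ, (D.P h 0).E (fun u => ind ((u.1, u.2.1 e, NPr v D ν u) = (w.1, w.2.1 e, NPr v D ν w)) *
      ∏ j ∈ univ.erase e, G j (u.2.1 j)) = Z * ∏ j ∈ univ.erase e, (nuC D (nt ν) w j).E (G j) := by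
    intro G
    have h1 := cell_E (h := h) hv 0 hs w (fun x => ind (x = w.1)) (fun j b => if j = e then ind (b = w.2.1 e) else G j b)
    have e1 : ∀ (A : Fin 3 → ℝ) (a : ℝ), ∏ j, (if j = e then a else A j) = a * ∏ j ∈ univ.erase e, A j := by
      intro A a
      rw [← Finset.mul_prod_erase univ _ (Finset.mem_univ e), if_pos rfl]
      congr 1
      exact Finset.prod_congr rfl fun j hj => if_neg (Finset.ne_of_mem_erase hj)
    have e2 : ∏ j, (nuC D (nt ν) w j).E (fun b => if j = e then ind (b = w.2.1 e) else G j b) =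
        (nuC D (nt ν) w e).E (fun b => ind (b = w.2.1 e)) * ∏ j ∈ univ.erase e, (nuC D (nt ν) w j).E (G j) := by
      rw [← e1 (fun j => (nuC D (nt ν) w j).E (G j))]
      refine Finset.prod_congr rfl fun j _ => ?_
      by_cases hj : j = e
      · subst hj
        simp only [if_true]
      · simp only [if_neg hj]
    rw [e2] at h1
    have e3 : Z * ∏ j ∈ univ.erase e, (nuC D (nt ν) w j).E (G j) =
        ((FP.unif X).Pr (cX D v (tm ν + 1) (nt ν) w) * ∏ j, (FP.unif β).Pr (cY D (nt ν) w j)) *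
        ((muC D v (tm ν + 1) (nt ν) w).E (fun x => ind (x = w.1)) * ((nuC D (nt ν) w e).E (fun b => ind (b = w.2.1 e)) *
          ∏ j ∈ univ.erase e, (nuC D (nt ν) w j).E (G j))) := by
      rw [hZ]; ring
    rw [e3, ← h1]
    refine (D.P h 0).E_congr fun u _ => ?_
    have e4 : ∏ j, (fun j b => if j = e then ind (b = w.2.1 e) else G j b) j (u.2.1 j) =
        ind (u.2.1 e = w.2.1 e) * ∏ j ∈ univ.erase e, G j (u.2.1 j) := by
      rw [← e1 (fun j => G j (u.2.1 j))]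
      refine Finset.prod_congr rfl fun j _ => ?_
      by_cases hj : j = e
      · subst hj
        simp only [if_true]
      · simp only [if_neg hj]
    rw [e4]
    have e5 : ind ((u.1, u.2.1 e, NPr v D ν u) = (w.1, w.2.1 e, NPr v D ν w)) =
        ind (NP D v (tm ν + 1) (nt ν) u = NP D v (tm ν + 1) (nt ν) w) * (ind (u.1 = w.1) * ind (u.2.1 e = w.2.1 e)) := by
      rw [← ind_and, ← ind_and]
      refine ind_cg ?_
      rw [Prod.mk.injEq, Prod.mk.injEq]
      exact ⟨fun hh => ⟨hh.2.2, hh.1, hh.2.1⟩, fun hh => ⟨hh.2.1, hh.2.2, hh.1⟩⟩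
    rw [e5]
    ring
  have k1 := key F
  have k0 := key fun _ _ => 1
  simp only [FP.E_const, Finset.prod_const_one, mul_one] at k0
  have k0' : (D.P h 0).Pr (fun u => (u.1, u.2.1 e, NPr v D ν u) = (w.1, w.2.1 e, NPr v D ν w)) = Z := k0
  unfold Wd
  rw [FP.cond_E h0, k1, k0']
  rw [k0'] at h0
  field_simp

/-- one point -/
theorem Wd_E1 (hv : Codes D v) {e j : Fin 3} (hj : e ≠ j) (ν : ℕ) (w : Pt (Fin 3) X β φ) (F : β → ℝ) : (Wd h v e ν w).E (fun u => F (u.2.1 j)) = (nuC D (nt ν) w j).E F := by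
  have h1 := Wd_E (h := h) hv e ν w (fun i b => if i = j then F b else 1)
  have hje : j ∈ (univ : Finset (Fin 3)).erase e := Finset.mem_erase.2 ⟨hj.symm, Finset.mem_univ j⟩
  have e1 : ∏ i ∈ univ.erase e, (nuC D (nt ν) w i).E (fun b => if i = j then F b else 1) =
      (nuC D (nt ν) w j).E F := by
    rw [← Finset.mul_prod_erase _ _ hje]
    simp only [if_true]
    rw [Finset.prod_eq_one fun i hi => ?_, mul_one]
    simp only [if_neg (Finset.ne_of_mem_erase hi)]
    exact FP.E_const _ _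
  rw [← e1, ← h1]
  refine FP.E_congr _ fun u _ => ?_
  rw [← Finset.mul_prod_erase _ _ hje, if_pos rfl, Finset.prod_eq_one fun i hi => if_neg (Finset.ne_of_mem_erase hi),
    mul_one]

theorem Wd_indep (hv : Codes D v) {J0 : Finset (Fin 3)} {e c d : Fin 3} (ht : Tri3 J0 e c d) (ν : ℕ)
    {w : Pt (Fin 3) X β φ} (_hw : (D.P h 0).p w ≠ 0) :
    (Wd h v e ν w).Indep (fun u => u.2.1 c) (fun u => u.2.1 d) := by
  classical
  intro f g hf hg
  -- functions of the points
  have ex : ∀ (j : Fin 3) (f : Pt (Fin 3) X β φ → ℝ), Fac (fun u : Pt (Fin 3) X β φ => u.2.1 j) f →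
      ∃ F : β → ℝ, ∀ u, f u = F (u.2.1 j) := by
    intro j f hf
    refine ⟨fun b => if hb : ∃ x : Pt (Fin 3) X β φ, x.2.1 j = b then f hb.choose else 0, fun u => ?_⟩
    have hb : ∃ x : Pt (Fin 3) X β φ, x.2.1 j = u.2.1 j := ⟨u, rfl⟩
    simp only [dif_pos hb]
    exact (hf _ _ hb.choose_spec).symm
  obtain ⟨F, hF⟩ := ex c f hf
  obtain ⟨G, hG⟩ := ex d g hg
  have hfe : f = fun u => F (u.2.1 c) := funext hF
  have hge : g = fun u => G (u.2.1 d) := funext hG
  have hcd : univ.erase e = ({c, d} : Finset (Fin 3)) := by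
    ext j
    rw [Finset.mem_erase, Finset.mem_insert, Finset.mem_singleton]
    constructor
    · rintro ⟨h1, _⟩
      rcases ht.all j with h2 | h2 | h2
      · exact absurd h2 h1
      · exact Or.inl h2
      · exact Or.inr h2
    · rintro (h1 | h1)
      · exact ⟨h1 ▸ ht.ec.symm, Finset.mem_univ _⟩
      · exact ⟨h1 ▸ ht.ed.symm, Finset.mem_univ _⟩
  have h1 := Wd_E (h := h) hv e ν w (fun i b => if i = c then F b else G b)
  rw [hcd, Finset.prod_pair ht.cd] at h1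
  simp only [if_true, if_neg ht.cd.symm] at h1
  rw [← Wd_E1 (h := h) hv ht.ec ν w F, ← Wd_E1 (h := h) hv ht.ed ν w G] at h1
  rw [hfe, hge, ← h1]
  refine FP.E_congr _ fun u _ => ?_
  rw [Finset.prod_pair ht.cd, if_pos rfl, if_neg ht.cd.symm]

theorem cel_fac (T : ℕ) (j : Fin 3) (ν s : ℕ) : Fac (fun u : Pt (Fin 3) X β φ => u.2.1 j) (cel D T j ν s) := by
  intro a b hab
  have h1 : a.2.1 j = b.2.1 j := hab
  unfold cel
  rw [h1]

theorem cel_filt (T : ℕ) (j : Fin 3) (ν : ℕ) : Filt (cel (φ := φ) D T j ν) := by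
  intro s a b hab
  exact qb_mono D (nt_mono (min_le_min_right _ (by omega))) hab

/-- the cells shrink at most by the factor `2` -/
theorem cel_half {dg : ℕ → X → ℝ} {prr : ℕ → Fin 3 → φ → φ} {T : ℕ} {Lam : ℝ} (H : D.Hyp dg prr al T Lam)
    (hv : Codes D v) {e j : Fin 3} (hj : e ≠ j) (ν : ℕ) {w : Pt (Fin 3) X β φ} (_hw : (D.P h 0).p w ≠ 0) (s : ℕ)
    {u : Pt (Fin 3) X β φ} (hu : (Wd h v e ν w).p u ≠ 0) :
    (Wd h v e ν w).m (cel D T j ν s) u ≤ 2 * (Wd h v e ν w).m (cel D T j ν (s + 1)) u := by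
  classical
  by_cases hn : nt (min (ν + (s + 1)) (2 * T)) = nt (min (ν + s) (2 * T))
  · have e1 : cel (φ := φ) D T j ν (s + 1) = cel D T j ν s := by
      funext x
      unfold cel
      rw [hn]
    rw [e1]
    have := (Wd h v e ν w).m_nonneg (cel D T j ν s) u
    linarith
  · have hlt : ν + s < 2 * T := by
      by_contra hc
      refine hn ?_
      rw [min_eq_right (by omega), min_eq_right (by omega)]
    have e0 : min (ν + s) (2 * T) = ν + s := min_eq_left (by omega)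
    have e1 : min (ν + (s + 1)) (2 * T) = ν + s + 1 := min_eq_left (by omega)
    rw [e0, e1] at hn
    have hn1 : nt (ν + s + 1) = nt (ν + s) + 1 := by
      unfold nt at hn ⊢
      omega
    have hT : nt (ν + s) < T := by
      unfold nt at hn1 ⊢
      omega
    have hνn : nt ν ≤ nt (ν + s) := nt_mono (by omega)
    obtain ⟨u1, u2, u3, _⟩ := Wd_supp hu
    have hq : D.qb (nt ν) (u.2.1 j) = D.qb (nt ν) (w.2.1 j) := congrFun (congrArg Prod.snd (congrArg Prod.snd u3)) j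
    have hY : (FP.unif β).Pr (cY D (nt ν) w j) ≠ 0 := V3.unif_ne (cY_self (nt ν) w j)
    have mass : ∀ n, nt ν ≤ n → (Wd h v e ν w).E (fun x => ind (D.qb n (x.2.1 j) = D.qb n (u.2.1 j))) =
        ((D.cB n (u.2.1 j)).card : ℝ) / Fintype.card β / (FP.unif β).Pr (cY D (nt ν) w j) := by
      intro n hn
      rw [Wd_E1 hv hj ν w (fun b => ind (D.qb n b = D.qb n (u.2.1 j)))]
      unfold nuC
      rw [FP.cond_E hY]
      congr 1
      rw [FP.unif_E]
      congr 1
      unfold HD.cB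
      rw [Finset.card_filter]
      push_cast
      refine Finset.sum_congr rfl fun b _ => ?_
      by_cases hb : D.qb n b = D.qb n (u.2.1 j)
      · have : cY D (nt ν) w j b := by
          show D.qb (nt ν) b = D.qb (nt ν) (w.2.1 j)
          rw [qb_mono D hn hb, hq]
        rw [ind_of this, ind_of hb, if_pos hb, one_mul]
      · rw [ind_not hb, if_neg hb, mul_zero]
    have m0 : (Wd h v e ν w).m (cel D T j ν s) u = (Wd h v e ν w).E (fun x => ind (D.qb (nt (ν + s)) (x.2.1 j) =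
        D.qb (nt (ν + s)) (u.2.1 j))) := by
      unfold FP.m cel
      rw [e0]
    have m1 : (Wd h v e ν w).m (cel D T j ν (s + 1)) u = (Wd h v e ν w).E (fun x => ind (D.qb (nt (ν + s) + 1) (x.2.1 j) =
        D.qb (nt (ν + s) + 1) (u.2.1 j))) := by
      unfold FP.m cel
      rw [e1, hn1]
    rw [m0, m1, mass _ hνn, mass _ (by omega), ← mul_div_assoc, ← mul_div_assoc]
    refine div_le_div_of_nonneg_right (div_le_div_of_nonneg_right ?_ (Nat.cast_nonneg _)) ((FP.unif β).Pr_nonneg _)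
    rcases H.half (nt (ν + s)) hT with h1 | h1
    · rw [h1 (u.2.1 j)]
      have : (0 : ℝ) ≤ (D.cB (nt (ν + s)) (u.2.1 j)).card := Nat.cast_nonneg _
      linarith
    · have := h1 (u.2.1 j)
      rw [← this]
      push_cast
      exact le_rfl

/-- in a world the public information is a function of the cells of `c` and `d` -/
theorem NPr_wd (hv : Codes D v) {J0 : Finset (Fin 3)} {e c d : Fin 3} (ht : Tri3 J0 e c d) {T ν s : ℕ}
    (hs : ν + s ≤ 2 * T) {w u u' : Pt (Fin 3) X β φ} (_hw : (D.P h 0).p w ≠ 0) (hu : (Wd h v e ν w).p u ≠ 0)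
    (hu' : (Wd h v e ν w).p u' ≠ 0) (hc : pair (cel D T c ν) (cel D T d ν) s u = pair (cel D T c ν) (cel D T d ν) s u') :
    NPr v D (ν + s) u = NPr v D (ν + s) u' := by
  obtain ⟨u1, u2, _, _⟩ := Wd_supp hu
  obtain ⟨u1', u2', _, _⟩ := Wd_supp hu'
  have hc1 : cel D T c ν s u = cel D T c ν s u' := congrArg Prod.fst hc
  have hc2 : cel D T d ν s u = cel D T d ν s u' := congrArg Prod.snd hc
  unfold cel at hc1 hc2
  rw [min_eq_left hs] at hc1 hc2
  have hq : ∀ j, D.qb (nt (ν + s)) (u.2.1 j) = D.qb (nt (ν + s)) (u'.2.1 j) := by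
    intro j
    rcases ht.all j with rfl | rfl | rfl
    · rw [u2, u2']
    · exact hc1
    · exact hc2
  have h1 : u.1 = u'.1 := u1.trans u1'.symm
  unfold NPr NP nd
  rw [h1]
  refine Prod.ext ?_ (Prod.ext rfl (funext hq))
  exact Um_codes hv (Nat.succ_le_succ (tm_nt (ν + s))) ∅ u'.1 (fun j hj => absurd hj (Finset.notMem_empty j)) hq

/-- the law of a point in a world depends on the public cell only -/
theorem Wd_pt (hv : Codes D v) {e j : Fin 3} (hj : e ≠ j) (ν : ℕ) {w w' : Pt (Fin 3) X β φ}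
    (_hw : (D.P h 0).p w ≠ 0) (_hw' : (D.P h 0).p w' ≠ 0) (hN : NPr v D ν w = NPr v D ν w') (b : β) :
    (Wd h v e ν w).Pr (fun u => u.2.1 j = b) = (Wd h v e ν w').Pr (fun u => u.2.1 j = b) := by
  have h1 : D.qb (nt ν) (w.2.1 j) = D.qb (nt ν) (w'.2.1 j) := congrFun (congrArg Prod.snd (congrArg Prod.snd hN)) j
  have e1 : (Wd h v e ν w).Pr (fun u => u.2.1 j = b) = (nuC D (nt ν) w j).E fun b' => ind (b' = b) :=
    Wd_E1 hv hj ν w fun b' => ind (b' = b)
  have e2 : (Wd h v e ν w').Pr (fun u => u.2.1 j = b) = (nuC D (nt ν) w' j).E fun b' => ind (b' = b) :=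
    Wd_E1 hv hj ν w' fun b' => ind (b' = b)
  rw [e1, e2, mC_self h1]

/-! ### the relation -/

theorem QF_eq {J : Finset (Fin 3)} {r : ℕ} {w w' : Pt (Fin 3) X β φ} (h1 : NPr v D r w = NPr v D r w')
    (h2 : LJ v J r w = LJ v J r w') : QF h v J r w = QF h v J r w' := by
  unfold QF
  rw [h1, h2]

theorem rdev_eq {J0 : Finset (Fin 3)} {c d : Fin 3} {r : ℕ} {w w' x x' : Pt (Fin 3) X β φ}
    (h1 : NPr v D r w = NPr v D r w') (h2 : LJ v (insert c J0) r w = LJ v (insert c J0) r w')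
    (h3 : XLr v r d x = XLr v r d x') : rdev h v J0 c d r w x = rdev h v J0 c d r w' x' := by
  unfold rdev
  rw [QF_eq h1 h2, QF_eq h1 (LJ_sub (Finset.subset_insert c J0) r w w' h2), h3]

theorem dvp_eq {θ : ℝ} {J0 : Finset (Fin 3)} {c d : Fin 3} {r : ℕ} {w w' x x' : Pt (Fin 3) X β φ}
    (h1 : NPr v D r w = NPr v D r w') (h2 : LJ v (insert c J0) r w = LJ v (insert c J0) r w')
    (h3 : XLr v r d x = XLr v r d x') : dvp h v θ J0 c d r w x ↔ dvp h v θ J0 c d r w' x' := by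
  unfold dvp
  rw [rdev_eq h1 h2 h3]

theorem rowm_eq {θ : ℝ} {J0 : Finset (Fin 3)} {c d : Fin 3} {r : ℕ} {w w' : Pt (Fin 3) X β φ}
    (h1 : NPr v D r w = NPr v D r w') (h2 : LJ v (insert c J0) r w = LJ v (insert c J0) r w')
    (h3 : w.2.1 d = w'.2.1 d) : rowm h v θ J0 c d r w = rowm h v θ J0 c d r w' := by
  unfold rowm
  rw [(D.P h 0).ce_fac (fun u => (u.2.1 d, NPr v D r u)) _ w w' (Prod.ext h3 h1)]
  congr 1
  funext u
  exact ind_cg (dvp_eq h1 h2 rfl)

theorem lJq_eq {J : Finset (Fin 3)} {r : ℕ} {w w' : Pt (Fin 3) X β φ} (h1 : NPr v D r w = NPr v D r w')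
    (h2 : LJ v J r w = LJ v J r w') : lJq h v J r w = lJq h v J r w' :=
  lq_fac (D.P h 0) (fun k => LJ_PJ J k) r w w' (Prod.ext h2 h1)

/-- the static relation is a function of the letters and of the public information -/
theorem HRq_fac {θ X1 p1 : ℝ} {J0 : Finset (Fin 3)} {e c d : Fin 3} (_ht : Tri3 J0 e c d) {ν : ℕ}
    {u u' : Pt (Fin 3) X β φ} (h1 : NPr v D ν u = NPr v D ν u')
    (h2 : LJ v (insert c (insert d J0)) ν u = LJ v (insert c (insert d J0)) ν u') :
    HRq h v θ X1 p1 J0 c d ν u ↔ HRq h v θ X1 p1 J0 c d ν u' := by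
  have hc : LJ v (insert c J0) ν u = LJ v (insert c J0) ν u' :=
    LJ_sub (Finset.insert_subset_insert c (Finset.subset_insert d J0)) ν u u' h2
  have hd : LJ v (insert d J0) ν u = LJ v (insert d J0) ν u' := LJ_sub (Finset.subset_insert c _) ν u u' h2
  have xc : XLr v ν c u = XLr v ν c u' := LJ_iff.1 h2 c (Finset.mem_insert_self _ _)
  have xd : XLr v ν d u = XLr v ν d u' := LJ_iff.1 h2 d (Finset.mem_insert_of_mem (Finset.mem_insert_self _ _))
  unfold HRq Gd
  rw [dvp_eq h1 hc xd, dvp_eq h1 hd xc, lJq_eq h1 hc, lJq_eq h1 hd, rowm_eq h1 hc (congrArg Prod.fst xd),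
    rowm_eq h1 hd (congrArg Prod.fst xc)]

theorem Rel_wd {θ X1 p1 : ℝ} {J0 : Finset (Fin 3)} {e c d : Fin 3} (ht : Tri3 J0 e c d) {ν : ℕ}
    {w u : Pt (Fin 3) X β φ} (hu : (Wd h v e ν w).p u ≠ 0) :
    Rel h v θ X1 p1 J0 c d ν w (u.2.1 c) (u.2.1 d) ↔ HRq h v θ X1 p1 J0 c d ν u := by
  obtain ⟨u1, u2, u3, _⟩ := Wd_supp hu
  have h2 : (upd c d w (u.2.1 c) (u.2.1 d)).2.1 = u.2.1 := by
    funext j
    show Function.update (Function.update w.2.1 c (u.2.1 c)) d (u.2.1 d) j = u.2.1 j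
    rcases ht.all j with rfl | rfl | rfl
    · rw [Function.update_of_ne ht.ed, Function.update_of_ne ht.ec, u2]
    · rw [Function.update_of_ne ht.cd, Function.update_self]
    · rw [Function.update_self]
  have hp : ((upd c d w (u.2.1 c) (u.2.1 d)).1, (upd c d w (u.2.1 c) (u.2.1 d)).2.1) = (u.1, u.2.1) :=
    Prod.ext u1.symm h2
  unfold Rel
  rw [and_iff_right ((NPr_pos ν _ _ hp).trans u3)]
  exact HRq_fac ht (NPr_pos ν _ _ hp) (LJ_pos _ ν _ _ hp)

end Pool.Agent.GMH.TD
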