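import Pool.Agent.GMH.TD9
import Pool.Agent.GMH.TD4

/-!
# GMH/TD9BP: thin dynamics, the potential of a cover (helper34, part of the stub TD9B of helper27)

`PhV_cm` : if the potential of the cover is positive there is a nonempty `I` with `PhV ≤ cm I` and `|I| u / 4 ≤ cm I`.
-/

set_option autoImplicit false
set_option linter.unusedSectionVars false

namespace Pool.Agent.GMH.TD

open Finset Pool.Agent.PWZ Pool.Agent.M3 Pool.Agent.GM Pool.Agent.GM.Harm Pool.Agent.GMH Pool.Agent.GMH.NZ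
open Pool.Agent.GMH.V3 Pool.Agent.GMH.Gdy

variable {X β γ φ : Type} [Fintype X] [Fintype β] [Fintype φ] [Nonempty X] [Nonempty β]
variable {D : HD (Fin 3) X β γ φ} {al : ℝ} {h : D.Thick al} {v : ℕ → Finset (Fin 3) → X → (Fin 3 → β) → Pt (Fin 3) X β φ}

namespace BP

/-- conditional expectation in a class -/
theorem cond_ce_eq {Om κ ι : Type*} [Fintype Om] (P : FP Om) (Z : Om → κ) (Y : Om → ι) (f : Om → ℝ) {w : Om}
    (hw : P.p w ≠ 0) : (P.cond (fun u => Z u = Z w)).ce Y f w = P.ce (fun u => (Z u, Y u)) f w := by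
  have hne : P.Pr (fun u => Z u = Z w) ≠ 0 := (FP.Pr_pos_of (P := P) (S := fun u => Z u = Z w) hw rfl).ne'
  have e0 : ∀ u, ind ((Z u, Y u) = (Z w, Y w)) = ind (Z u = Z w) * ind (Y u = Y w) := fun u => by
    rw [← ind_and]
    exact ind_cg (by rw [Prod.mk.injEq])
  unfold FP.ce
  rw [FP.cond_E hne, FP.cond_m hne, div_div_div_cancel_right₀ hne]
  congr 1
  · refine P.E_congr fun u _ => ?_
    rw [e0]
    ring
  · unfold FP.m
    refine P.E_congr fun u _ => ?_
    rw [e0]

theorem ce_mono_on {Om ι : Type*} [Fintype Om] (P : FP Om) {Y : Om → ι} {f g : Om → ℝ} {w : Om}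
    (hfg : ∀ u, Y u = Y w → f u ≤ g u) : P.ce Y f w ≤ P.ce Y g w := by
  unfold FP.ce
  refine div_le_div_of_nonneg_right (P.E_mono fun u _ => ?_) (P.m_nonneg _ _)
  by_cases hu : Y u = Y w
  · rw [ind_of hu, one_mul, one_mul]
    exact hfg u hu
  · rw [ind_not hu, zero_mul, zero_mul]

/-- hidden point, point of `e` and public information at `ν + s` in terms of the cells -/
theorem node_fac (hv : Codes D v) {J0 : Finset (Fin 3)} {e c d : Fin 3} (ht : Tri3 J0 e c d) {T ν s : ℕ}
    (hs : ν + s ≤ 2 * T) : Fac (fun u : Pt (Fin 3) X β φ => ((u.1, u.2.1 e, NPr v D ν u), (cel D T d ν s u, cel D T c ν s u)))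
      (fun u => (u.1, u.2.1 e, NPr v D (ν + s) u)) := by
  intro a b hab
  have hm : min (ν + s) (2 * T) = ν + s := by omega
  simp only [Prod.mk.injEq] at hab
  obtain ⟨⟨h1, h2, -⟩, h4, h5⟩ := hab
  unfold cel at h4 h5
  rw [hm] at h4 h5
  have hq : ∀ j, D.qb (nt (ν + s)) (a.2.1 j) = D.qb (nt (ν + s)) (b.2.1 j) := by
    intro j
    rcases ht.all j with rfl | rfl | rfl
    · rw [h2]
    · exact h5
    · exact h4
  have h6 : NPr v D (ν + s) a = NPr v D (ν + s) b := by
    refine (NP_iff (v := v) (D := D) hv (Nat.succ_le_succ (tm_nt (ν + s))) b a).2 ?_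
    exact ⟨⟨by rw [h1], by rw [h1]⟩, fun j => hq j⟩
  show (a.1, a.2.1 e, NPr v D (ν + s) a) = (b.1, b.2.1 e, NPr v D (ν + s) b)
  rw [h1, h2, h6]

theorem node_fac' {e c d : Fin 3} {T ν s : ℕ}
    (hs : ν + s ≤ 2 * T) : Fac (fun u : Pt (Fin 3) X β φ => (u.1, u.2.1 e, NPr v D (ν + s) u))
      (fun u => ((u.1, u.2.1 e, NPr v D ν u), (cel D T d ν s u, cel D T c ν s u))) := by
  intro a b hab
  have hm : min (ν + s) (2 * T) = ν + s := by omega
  rw [Prod.mk.injEq, Prod.mk.injEq] at hab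
  obtain ⟨h1, h2, h3⟩ := hab
  have h4 : NPr v D ν a = NPr v D ν b := NPr_older (by omega) h3
  have h5 : nd D (nt (ν + s)) a = nd D (nt (ν + s)) b := congrArg Prod.snd h3
  have h6 : ∀ j, D.qb (nt (ν + s)) (a.2.1 j) = D.qb (nt (ν + s)) (b.2.1 j) := fun j =>
    congrFun (congrArg Prod.snd h5) j
  show ((a.1, a.2.1 e, NPr v D ν a), (cel D T d ν s a, cel D T c ν s a)) =
    ((b.1, b.2.1 e, NPr v D ν b), (cel D T d ν s b, cel D T c ν s b))
  unfold cel
  rw [hm, h1, h2, h4, h6, h6]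

/-- in the world of `w` the event of the relation is an event of the rows -/
theorem rel_rw (hv : Codes D v) {J0 : Finset (Fin 3)} {e c d : Fin 3} (ht : Tri3 J0 e c d) {θ X1 p1 : ℝ} {ν : ℕ}
    {w z : Pt (Fin 3) X β φ} (h1 : z.1 = w.1) (h2 : z.2.1 e = w.2.1 e) (h3 : NPr v D ν z = NPr v D ν w) {b : β}
    (hR : Rel h v θ X1 p1 J0 c d ν w b (z.2.1 d)) :
    ∃ z', NPr v D ν z' = NPr v D ν w ∧ LJ v (insert c J0) ν z' = LJ v (insert c J0) ν (up1 c w b) ∧
      XLr v ν d z' = XLr v ν d z ∧ HRq h v θ X1 p1 J0 c d ν z' := by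
  obtain ⟨hN, hH⟩ := hR
  refine ⟨upd c d w b (z.2.1 d), hN, ?_, ?_, hH⟩
  · -- letters of `c` and `J0`
    have hd : D.qb (nt ν) (z.2.1 d) = D.qb (nt ν) (w.2.1 d) := by
      have h5 : nd D (nt ν) z = nd D (nt ν) w := congrArg Prod.snd h3
      exact congrFun (congrArg Prod.snd h5) d
    rw [LJ_iff]
    intro j hj
    have hjd : j ≠ d := by
      rcases Finset.mem_insert.1 hj with hj1 | hj1
      · rw [hj1]; exact ht.cd
      · exact fun hh => ht.nd (hh ▸ hj1)
    have hpt : (upd c d w b (z.2.1 d)).2.1 j = (up1 c w b).2.1 j := by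
      show Function.update (Function.update w.2.1 c b) d (z.2.1 d) j = Function.update w.2.1 c b j
      rw [Function.update_of_ne hjd]
    refine Prod.ext hpt ?_
    show Um v (tm ν + 1) {j} w.1 (Function.update (Function.update w.2.1 c b) d (z.2.1 d)) =
      Um v (tm ν + 1) {j} w.1 (Function.update w.2.1 c b)
    refine Um_codes hv (Nat.succ_le_succ (tm_nt ν)) {j} w.1 (fun k hk => ?_) fun k => ?_
    · rw [Finset.mem_singleton.1 hk, Function.update_of_ne hjd]
    · by_cases hk : k = d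
      · rw [hk, Function.update_self, Function.update_of_ne (Ne.symm ht.cd)]
        exact hd
      · rw [Function.update_of_ne hk]
  · -- letter of `d`
    have hc : D.qb (nt ν) b = D.qb (nt ν) (z.2.1 c) := by
      have h5 : nd D (nt ν) (upd c d w b (z.2.1 d)) = nd D (nt ν) w := congrArg Prod.snd hN
      have h6 := congrFun (congrArg Prod.snd h5) c
      have h7 : D.qb (nt ν) ((upd c d w b (z.2.1 d)).2.1 c) = D.qb (nt ν) (w.2.1 c) := h6
      have h8 : (upd c d w b (z.2.1 d)).2.1 c = b := by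
        show Function.update (Function.update w.2.1 c b) d (z.2.1 d) c = b
        rw [Function.update_of_ne ht.cd, Function.update_self]
      rw [h8] at h7
      have h9 : nd D (nt ν) z = nd D (nt ν) w := congrArg Prod.snd h3
      have h10 : D.qb (nt ν) (z.2.1 c) = D.qb (nt ν) (w.2.1 c) := congrFun (congrArg Prod.snd h9) c
      rw [h7, h10]
    refine Prod.ext ?_ ?_
    · show Function.update (Function.update w.2.1 c b) d (z.2.1 d) d = z.2.1 d
      rw [Function.update_self]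
    · show Um v (tm ν + 1) {d} w.1 (Function.update (Function.update w.2.1 c b) d (z.2.1 d)) =
        Um v (tm ν + 1) {d} z.1 z.2.1
      rw [h1]
      refine Um_codes hv (Nat.succ_le_succ (tm_nt ν)) {d} w.1 (fun k hk => ?_) fun k => ?_
      · rw [Finset.mem_singleton.1 hk, Function.update_self]
      · rcases ht.all k with rfl | rfl | rfl
        · rw [Function.update_of_ne ht.ed, Function.update_of_ne ht.ec, h2]
        · rw [Function.update_of_ne ht.cd, Function.update_self]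
          exact hc
        · rw [Function.update_self]

end BP

/-- **the potential of the cover** -/
theorem PhV_cm (hv : Codes D v) {J0 : Finset (Fin 3)} {e c d : Fin 3} (ht : Tri3 J0 e c d) {T : ℕ} {θ X1 p1 u : ℝ}
    (hu : 0 < u) {M : ℕ} (us : Fin M → β) {ν s : ℕ} (hs : ν + s ≤ 2 * T) {w : Pt (Fin 3) X β φ}
    (hw : (D.P h 0).p w ≠ 0) (hP : 0 < PhV h v T θ X1 p1 J0 e c d ν u us s w) :
    ∃ I : Finset (Fin M), I.Nonempty ∧ PhV h v T θ X1 p1 J0 e c d ν u us s w ≤ cm h v θ X1 p1 J0 e c d ν us I (ν + s) w ∧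
      I.card * u / 4 ≤ cm h v θ X1 p1 J0 e c d ν us I (ν + s) w := by
  classical
  set P0 := Wd h v e ν w with hP0
  set H0 := Rws h v θ X1 p1 J0 c d ν us w with hH0
  set I0 := Iset P0 (cel D T d ν) u H0 M s w with hI0
  have hIM : ∀ r ∈ I0, r < M := fun r hr => (mem_Iset.1 hr).1
  set I : Finset (Fin M) := univ.filter fun i => i.1 ∈ I0 with hI
  have himg : I.image Fin.val = I0 := by
    ext r
    simp only [Finset.mem_image, hI, Finset.mem_filter, Finset.mem_univ, true_and]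
    constructor
    · rintro ⟨i, hi, rfl⟩
      exact hi
    · intro hr
      exact ⟨⟨r, hIM r hr⟩, hr, rfl⟩
  have hcard : I.card = I0.card := by
    rw [← himg, Finset.card_image_of_injective _ Fin.val_injective]
  have hne0 : I0.Nonempty := Iset_nonempty hP
  have hne : I.Nonempty := by
    obtain ⟨r, hr⟩ := hne0
    exact ⟨⟨r, hIM r hr⟩, Finset.mem_filter.2 ⟨Finset.mem_univ _, hr⟩⟩
  have hww : P0.p w ≠ 0 := by
    have hne1 : (D.P h 0).Pr (fun u : Pt (Fin 3) X β φ => (u.1, u.2.1 e, NPr v D ν u) = (w.1, w.2.1 e, NPr v D ν w)) ≠ 0 :=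
      (FP.Pr_pos_of (P := D.P h 0) (S := fun u : Pt (Fin 3) X β φ =>
        (u.1, u.2.1 e, NPr v D ν u) = (w.1, w.2.1 e, NPr v D ν w)) hw rfl).ne'
    exact (FP.cond_p_ne hne1).2 ⟨rfl, hw⟩
  -- the event
  set A : Pt (Fin 3) X β φ → Prop := fun z => ∃ r ∈ I0, H0 r z with hA
  have hAfac : Fac (fun z : Pt (Fin 3) X β φ => z.2.1 d) (fun z => ind (A z)) := by
    refine Fac.ind fun a b hab => ?_
    rw [hA]
    simp only
    refine exists_congr fun r => and_congr_right fun _ => ?_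
    rw [hH0]
    unfold Rws rows row
    have hab' : a.2.1 d = b.2.1 d := hab
    simp only [hab']
  have hkp : Gdy.kp P0 (cel D T d ν) u H0 M s w ≤ cm h v θ X1 p1 J0 e c d ν us I (ν + s) w := by
    refine (kp_le s w).trans ?_
    show P0.ce (cel D T d ν s) (fun z => ind (A z)) w ≤ _
    have e1 : P0.ce (cel D T d ν s) (fun z => ind (A z)) w =
        P0.ce (fun z => (cel D T d ν s z, cel D T c ν s z)) (fun z => ind (A z)) w := by
      have h1 := P0.ce_indep_eq (X := fun z : Pt (Fin 3) X β φ => z.2.1 d) (Y := fun z : Pt (Fin 3) X β φ => z.2.1 c)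
        (Wd_indep hv ht ν hw).symm (ζ := cel D T d ν s) (φ := fun _ => ()) (ψ := cel D T c ν s)
        (cel_fac T d ν s) (cel_fac T c ν s) (Fac.const _ ()) (f := fun z => ind (A z)) (fun a b hab =>
          hAfac a b (congrArg Prod.fst hab)) hww
      rw [h1]
      exact P0.ce_congr_map (X := cel D T d ν s) (Y := fun z => (cel D T d ν s z, ()))
        (fun a b hab => by simp only [hab]) (fun a b hab => (Prod.mk.inj hab).1) _ w
    have e2 : P0.ce (fun z => (cel D T d ν s z, cel D T c ν s z)) (fun z => ind (A z)) w =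
        (D.P h 0).ce (fun u : Pt (Fin 3) X β φ => ((u.1, u.2.1 e, NPr v D ν u), (cel D T d ν s u, cel D T c ν s u)))
          (fun z => ind (A z)) w :=
      BP.cond_ce_eq (D.P h 0) (fun u : Pt (Fin 3) X β φ => (u.1, u.2.1 e, NPr v D ν u))
        (fun z => (cel D T d ν s z, cel D T c ν s z)) _ hw
    rw [e1, e2, (D.P h 0).ce_congr_map (BP.node_fac hv ht hs) (BP.node_fac' hs)]
    unfold cm
    refine BP.ce_mono_on _ fun z hz => ind_mono fun hz1 => ?_
    rw [Prod.mk.injEq, Prod.mk.injEq] at hz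
    obtain ⟨z1, z2, z3⟩ := hz
    obtain ⟨r, hr, hH⟩ := hz1
    obtain ⟨hrM, hrel⟩ := hH
    have h4 : NPr v D ν z = NPr v D ν w := NPr_older (by omega) z3
    exact ⟨⟨r, hrM⟩, Finset.mem_filter.2 ⟨Finset.mem_univ _, hr⟩, BP.rel_rw hv ht z1 z2 h4 hrel⟩
  refine ⟨I, hne, (Phi_le_kp hu s w).trans hkp, ?_⟩
  rw [hcard]
  have h5 := card_le_kp (P := P0) (X := cel D T d ν) (u := u) (H := H0) (M := M) s w
  have h6 : (I0.card : ℝ) * u / 4 = I0.card * (u / 4) := by ring
  rw [h6]
  exact h5.trans hkp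

end Pool.Agent.GMH.TD
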