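import Pool.Agent.GMH.TD9B
import Pool.Agent.GMH.TD9BP
import Pool.Agent.GMH.TD6

/-!
# GMH.TD9BE: thin dynamics, a positive potential at the start or at an odd end is exceptional (helper75)

Statements of helper27 (`start_ex`, `end_ex` of the stub TD9B), over `thin_row`, `thin_later`, `PhV_cm`, `TD6.dig_base`.
-/

set_option autoImplicit false
set_option linter.unusedSectionVars false

namespace Pool.Agent.GMH.TD

open Finset Pool.Agent.PWZ Pool.Agent.M3 Pool.Agent.GM Pool.Agent.GM.Harm Pool.Agent.GMH Pool.Agent.GMH.NZ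
open Pool.Agent.GMH.V3 Pool.Agent.GMH.Gdy

variable {X β γ φ : Type} [Fintype X] [Fintype β] [Fintype φ] [Nonempty X] [Nonempty β]
variable {D : HD (Fin 3) X β γ φ} {al : ℝ} {h : D.Thick al} {v : ℕ → Finset (Fin 3) → X → (Fin 3 → β) → Pt (Fin 3) X β φ}

namespace BE

/-- probability in the public cell -/
theorem clq_Pr (r : ℕ) {w : Pt (Fin 3) X β φ} (hw : (D.P h 0).p w ≠ 0) (A : Pt (Fin 3) X β φ → Prop) :
    (clq h v r w).Pr A = (D.P h 0).ce (NPr v D r) (fun u => ind (A u)) w :=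
  ((D.P h 0).ce_eq_cond (NPr v D r) (fun u => ind (A u)) hw).symm

/-- `rwA` is a function of the letter of `d` -/
theorem rwA_fac {θ X1 p1 : ℝ} {J0 : Finset (Fin 3)} {c d : Fin 3} {ν : ℕ} {M : ℕ} (us : Fin M → β) (I : Finset (Fin M))
    (w : Pt (Fin 3) X β φ) : Fac (XLr v ν d) (rwA h v θ X1 p1 J0 c d ν us I w) := by
  intro a b hab
  unfold rwA
  rw [hab]

/-- `rwA` fixes the cell of the point of `d` -/
theorem rwA_cell {θ X1 p1 : ℝ} {J0 : Finset (Fin 3)} {c d : Fin 3} {ν : ℕ} {M : ℕ} {us : Fin M → β} {I : Finset (Fin M)}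
    {w u : Pt (Fin 3) X β φ} (hA : rwA h v θ X1 p1 J0 c d ν us I w u) :
    D.qb (nt ν) (u.2.1 d) = D.qb (nt ν) (w.2.1 d) := by
  obtain ⟨i, _, z, h1, _, h3, _⟩ := hA
  have h4 : z.2.1 d = u.2.1 d := congrArg Prod.fst h3
  have h5 : (fun j => D.qb (nt ν) (z.2.1 j)) = fun j => D.qb (nt ν) (w.2.1 j) := congrArg (fun q => q.2.2) h1
  rw [← h4]
  exact congrFun h5 d

/-- a bound on the support of a class -/
theorem ce_le_cls {Om κ : Type*} [Fintype Om] (P : FP Om) {f : Om → ℝ} {c : ℝ} {Z : Om → κ} {w : Om} (hw : P.p w ≠ 0)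
    (h : ∀ v, P.p v ≠ 0 → Z v = Z w → f v ≤ c) : P.ce Z f w ≤ c := by
  unfold FP.ce
  rw [div_le_iff₀ (P.m_pos Z hw)]
  unfold FP.m
  rw [← FP.E_smul]
  refine P.E_mono fun v hv => ?_
  by_cases hz : Z v = Z w
  · rw [ind_of hz, one_mul, mul_one]; exact h v hv hz
  · rw [ind_not hz, zero_mul, mul_zero]

/-- the rows are thin at the start -/
theorem thin_start (hv : Codes D v) {J0 : Finset (Fin 3)} {e c d : Fin 3} (ht : Tri3 J0 e c d) {θ X1 p1 : ℝ}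
    (hp0 : 0 ≤ p1) {M : ℕ} (us : Fin M → β) (I : Finset (Fin M)) (ν : ℕ) {w : Pt (Fin 3) X β φ}
    (hw : (D.P h 0).p w ≠ 0) : (clq h v ν w).Pr (rwA h v θ X1 p1 J0 c d ν us I w) ≤ I.card * p1 := by
  rw [clq_Pr ν hw]
  have h1 : (D.P h 0).ce (NPr v D ν) (fun y => ind (rwA h v θ X1 p1 J0 c d ν us I w y)) w =
      (D.P h 0).ce (NPr v D ν) ((D.P h 0).ce (fun y => (y.2.1 d, NPr v D ν y))
        (fun y => ind (rwA h v θ X1 p1 J0 c d ν us I w y))) w :=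
    ((D.P h 0).ce_tower (X := fun y => (y.2.1 d, NPr v D ν y)) (fun a b hab => congrArg Prod.snd hab) _ w).symm
  rw [h1]
  exact ce_le_cls _ hw fun z hz hzw => thin_row hv ht hp0 us I ν w hz hzw

/-- moved letters of `d` are moved letters -/
theorem mv_le {δ kp : ℝ} {ν r : ℕ} (d : Fin 3) {w : Pt (Fin 3) X β φ} (hw : (D.P h 0).p w ≠ 0)
    (hm : (D.P h 0).ce (NPr v D r) (fun y => ind (MAq h v δ ν r y)) w < kp) :
    (clq h v r w).Pr (MJq h v δ {d} ν r) ≤ kp := by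
  rw [clq_Pr r hw]
  exact ((D.P h 0).ce_mono (fun y _ => ind_mono fun hy => ⟨{d}, hy⟩) w).trans hm.le

end BE

variable {N : Finset (Fin 3) → ℝ} {S : Finset (Finset (Fin 3))} {N1 : ℝ}

theorem start_ex (R : Run h N S (AdmDep D) v) (hp : Prc N S N1) {dg : ℕ → X → ℝ} {prr : ℕ → Fin 3 → φ → φ} {T : ℕ}
    {Lam : ℝ} (H : D.Hyp dg prr al T Lam) {J0 : Finset (Fin 3)} {e c d : Fin 3} (ht : Tri3 J0 e c d)
    {θ X1 p1 u dl : ℝ} (hp0 : 0 ≤ p1) (hu : 0 < u) (hup : 2 ^ 12 * p1 ≤ u) (hdl : 0 < dl) (hdl1 : dl ≤ 1)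
    (hNu : 2 ^ 12 * Real.sqrt ((Real.log (1 / dl) + 1) / N1) ≤ u) {M : ℕ} (us : Fin M → β) {ν : ℕ} (hν : ν ≤ 2 * T)
    {w : Pt (Fin 3) X β φ} (hw : (D.P h 0).p w ≠ 0) (hd : dgq h v dl ν w)
    (hP : 0 < PhV h v T θ X1 p1 J0 e c d ν u us 0 w) : exq h v θ X1 p1 J0 e c d ν u us ν w := by
  obtain ⟨I, hI, _, h2⟩ := PhV_cm R.codes ht hu us (show ν + 0 ≤ 2 * T by omega) hw hP
  rw [Nat.add_zero] at h2
  refine ⟨I, hI, h2, le_trans ?_ h2⟩
  have h3 := BE.thin_start (h := h) (θ := θ) (X1 := X1) R.codes ht hp0 us I ν hw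
  have hc : (1 : ℝ) ≤ I.card := by exact_mod_cast Finset.card_pos.2 hI
  have hcp : (I.card : ℝ) * (2 ^ 12 * p1) ≤ I.card * u := mul_le_mul_of_nonneg_left hup (by linarith)
  have hcu : u ≤ I.card * u := le_mul_of_one_le_left hu.le hc
  rcases Nat.mod_two_eq_zero_or_one ν with hm | hm
  · rw [hm, Nat.sub_zero]
    push_cast
    have h4 : (0 : ℝ) ≤ (clq h v ν w).Pr (rwA h v θ X1 p1 J0 c d ν us I w) := FP.Pr_nonneg _ _
    linarith
  · rw [hm]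
    push_cast
    have h4 := dig_base R hp H hdl hdl1 hm hν hw hd (d := d) (BE.rwA_fac (h := h) (θ := θ) (X1 := X1) (p1 := p1)
      (J0 := J0) (c := c) us I w) (fun u hu => BE.rwA_cell hu)
    linarith

theorem end_ex (hv : Codes D v) {J0 : Finset (Fin 3)} {e c d : Fin 3} (ht : Tri3 J0 e c d) {T : ℕ}
    {θ X1 p1 u δ kp : ℝ} (hp0 : 0 ≤ p1) (hu : 0 < u) (hup : 2 ^ 12 * p1 ≤ u) (hkp : 2 ^ 12 * kp ≤ u) (hδ : δ ≤ 1 / 2)
    {M : ℕ} (us : Fin M → β) {ν s : ℕ} (hs1 : 1 ≤ s) (hs : ν + s ≤ 2 * T) (hodd : (ν + s) % 2 = 1)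
    {w : Pt (Fin 3) X β φ} (hw : (D.P h 0).p w ≠ 0)
    (hm : (D.P h 0).ce (NPr v D (ν + s - 1)) (fun y => ind (MAq h v δ ν (ν + s - 1) y)) w < kp)
    (hP : 0 < PhV h v T θ X1 p1 J0 e c d ν u us s w) : exq h v θ X1 p1 J0 e c d ν u us (ν + s) w := by
  obtain ⟨I, hI, _, h2⟩ := PhV_cm hv ht hu us hs hw hP
  refine ⟨I, hI, h2, le_trans ?_ h2⟩
  have hc : (1 : ℝ) ≤ I.card := by exact_mod_cast Finset.card_pos.2 hI
  have hcp : (I.card : ℝ) * (2 ^ 12 * p1) ≤ I.card * u := mul_le_mul_of_nonneg_left hup (by linarith)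
  have hcu : u ≤ I.card * u := le_mul_of_one_le_left hu.le hc
  have h3 := thin_later (h := h) (θ := θ) (X1 := X1) hv ht hp0 hδ us I (show ν ≤ ν + s - 1 by omega) w hw rfl
  have h4 := BE.mv_le (h := h) (v := v) d hw hm
  rw [hodd]
  push_cast
  linarith

end Pool.Agent.GMH.TD
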