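import Pool.Agent.GMH.TD9B

/-!
# GMH.TD9C: thin dynamics, payment of a cover at an even end (helper13, statement of helper27)

Even `r = ν + s`: outside the exceptional positions `cm I < 4 Q(rwA I)`, `Q = clq r`, and in the public cell `P = clq (r - 1)`
the rows are thin (`thin_later`), so `2 Q(A) ≤ kl + 7 P(A)` gives `PhV ≤ cm I ≤ 3 kl (Q, P; XLr v (r-1) d)`, which is
the conditional mean of `aJq {d}` (`TD4.kl_code`).
-/

set_option autoImplicit false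
set_option linter.unusedSectionVars false

namespace Pool.Agent.GMH.TD

open Finset Pool.Agent.PWZ Pool.Agent.M3 Pool.Agent.GM Pool.Agent.GM.Harm Pool.Agent.GMH Pool.Agent.GMH.NZ
open Pool.Agent.GMH.V3 Pool.Agent.GMH.Gdy

namespace C9

/-- linear change of law for an event -/
theorem lin_kl {Om : Type*} [Fintype Om] {κ : Type*} {P Q : FP Om} (hac : Q.Ac P) {X : Om → κ} {A : Om → Prop}
    (hA : Fac X A) : 2 * Q.Pr A ≤ Q.kl P X + 7 * P.Pr A := by
  have h1 := FP.dv' hac (X := X) (ψ := fun w => 2 * ind (A w)) (hA.comp (fun q => 2 * ind q))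
  rw [FP.E_smul] at h1
  have h4 : Real.exp 2 ≤ 8 := by
    have h5 : Real.exp 2 = Real.exp 1 ^ 2 := by
      rw [← Real.exp_nat_mul]
      norm_num
    rw [h5]
    have := Real.exp_one_lt_d9
    have h6 := Real.exp_pos 1
    nlinarith
  have h2 : P.E (fun w => Real.exp (2 * ind (A w)) - 1) ≤ 7 * P.Pr A := by
    have h3 : (7 : ℝ) * P.Pr A = P.E (fun w => 7 * ind (A w)) := (P.E_smul 7 _).symm
    rw [h3]
    refine P.E_mono fun w _ => ?_
    by_cases hw : A w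
    · rw [ind_of hw, mul_one, mul_one]; linarith
    · rw [ind_not hw, mul_zero, mul_zero, Real.exp_zero]; linarith
  have h5 : Q.Pr A = Q.E (fun w => ind (A w)) := rfl
  rw [h5]
  linarith

variable {X β γ φ υ : Type} [Fintype X] [Fintype β] [Fintype φ] [Nonempty X] [Nonempty β]
variable {D : HD (Fin 3) X β γ φ} {al : ℝ} {h : D.Thick al} {v : ℕ → Finset (Fin 3) → X → (Fin 3 → β) → υ}

theorem clq_def (r : ℕ) (w : Pt (Fin 3) X β φ) : clq h v r w = (D.P h 0).cond fun u => NPr v D r u = NPr v D r w := rfl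

/-- probability in the public cell -/
theorem clq_Pr (r : ℕ) {w : Pt (Fin 3) X β φ} (hw : (D.P h 0).p w ≠ 0) (A : Pt (Fin 3) X β φ → Prop) :
    (clq h v r w).Pr A = (D.P h 0).ce (NPr v D r) (fun u => ind (A u)) w :=
  ((D.P h 0).ce_eq_cond (NPr v D r) (fun u => ind (A u)) hw).symm

theorem clq_ac {q r : ℕ} (hqr : q ≤ r) {w : Pt (Fin 3) X β φ} (hw : (D.P h 0).p w ≠ 0) :
    (clq h v r w).Ac (clq h v q w) := by
  intro u hu
  have h1 : (D.P h 0).Pr (fun u => NPr v D r u = NPr v D r w) ≠ 0 := ((D.P h 0).m_pos (NPr v D r) hw).ne'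
  have h2 : (D.P h 0).Pr (fun u => NPr v D q u = NPr v D q w) ≠ 0 := ((D.P h 0).m_pos (NPr v D q) hw).ne'
  have h3 := (FP.cond_p_ne h1).1 hu
  exact (FP.cond_p_ne h2).2 ⟨NPr_older hqr h3.1, h3.2⟩

theorem rwA_fac {θ X1 p1 : ℝ} {J0 : Finset (Fin 3)} {c d : Fin 3} {ν r : ℕ} (hν : ν ≤ r) {M : ℕ} (us : Fin M → β)
    (I : Finset (Fin M)) (w : Pt (Fin 3) X β φ) :
    Fac (XLr (φ := φ) v r d) (rwA h v θ X1 p1 J0 c d ν us I w) := by
  intro a b hab
  have h1 : XLr v ν d a = XLr v ν d b := XLr_older hν hab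
  unfold rwA
  rw [h1]

end C9

variable {X β γ φ : Type} [Fintype X] [Fintype β] [Fintype φ] [Nonempty X] [Nonempty β]
variable {D : HD (Fin 3) X β γ φ} {al : ℝ} {h : D.Thick al} {v : ℕ → Finset (Fin 3) → X → (Fin 3 → β) → Pt (Fin 3) X β φ}

theorem end_pay (hv : Codes D v) {J0 : Finset (Fin 3)} {e c d : Fin 3} (ht : Tri3 J0 e c d) {T : ℕ}
    {θ X1 p1 u δ kp : ℝ} (hp0 : 0 ≤ p1) (hu : 0 < u) (hup : 2 ^ 12 * p1 ≤ u) (hkp : 2 ^ 12 * kp ≤ u) (hδ : δ ≤ 1 / 2)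
    {M : ℕ} (us : Fin M → β) {ν s : ℕ} (hs1 : 1 ≤ s) (hs : ν + s ≤ 2 * T) (hev : (ν + s) % 2 = 0)
    {w : Pt (Fin 3) X β φ} (hw : (D.P h 0).p w ≠ 0)
    (hm : (D.P h 0).ce (NPr v D (ν + s - 1)) (fun y => ind (MAq h v δ ν (ν + s - 1) y)) w < kp)
    (hex : ¬ exq h v θ X1 p1 J0 e c d ν u us (ν + s) w) :
    PhV h v T θ X1 p1 J0 e c d ν u us s w ≤
      3 * (D.P h 0).ce (NPr v D (ν + s)) (aJq h v {d} (ν + s - 1)) w := by
  have hr1 : (ν + s - 1) % 2 = 1 := by omega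
  have hr2 : ν + s - 1 + 1 = ν + s := by omega
  have hkl := kl_code (h := h) hv hr1 d hw
  rw [hr2] at hkl
  rw [← hkl]
  have hac : (clq h v (ν + s) w).Ac (clq h v (ν + s - 1) w) := C9.clq_ac (by omega) hw
  have hk0 := FP.kl_nonneg hac (XLr (φ := φ) v (ν + s - 1) d)
  rcases le_or_gt (PhV h v T θ X1 p1 J0 e c d ν u us s w) 0 with hP | hP
  · linarith
  obtain ⟨I, hI, h1, h2⟩ := PhV_cm hv ht hu us hs hw hP
  set A := rwA h v θ X1 p1 J0 c d ν us I w with hA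
  have h3 : cm h v θ X1 p1 J0 e c d ν us I (ν + s) w < 4 * (clq h v (ν + s) w).Pr A := by
    by_contra hcon
    refine hex ⟨I, hI, h2, ?_⟩
    rw [hev]
    simp only [Nat.cast_zero, mul_zero, add_zero, Nat.sub_zero]
    exact not_lt.1 hcon
  have h4 := thin_later hv ht (θ := θ) (X1 := X1) hp0 hδ us I (show ν ≤ ν + s - 1 by omega) w hw rfl
  rw [← hA] at h4
  have h5 : (clq h v (ν + s - 1) w).Pr (MJq h v δ {d} ν (ν + s - 1)) < kp := by
    rw [C9.clq_Pr _ hw]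
    refine lt_of_le_of_lt ((D.P h 0).ce_mono (fun y _ => ?_) w) hm
    exact ind_mono fun hy => ⟨{d}, hy⟩
  have h6 := C9.lin_kl hac (X := XLr (φ := φ) v (ν + s - 1) d) (A := A)
    (C9.rwA_fac (show ν ≤ ν + s - 1 by omega) us I w)
  have hI1 : (1 : ℝ) ≤ I.card := by exact_mod_cast hI.card_pos
  have h7 : (I.card : ℝ) * p1 * 2 ^ 12 ≤ I.card * u := by nlinarith
  have h8 : u ≤ (I.card : ℝ) * u := by nlinarith
  nlinarith

end Pool.Agent.GMH.TD
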