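import Pool.Agent.GMH.TD11
import Pool.Agent.GMH.TD10
import Pool.Agent.GMH.TD9A
import Pool.Agent.GMH.TD9C
import Pool.Agent.GMH.TD9BE
import Pool.Agent.GMH.TD3

/-!
# GMH.TD11B: thin dynamics, the potentials are paid (helper7, statements of helper27)

For every sample `us` (weights depend on `NPr ν` only, sum `1`): end `ν + sgm` odd: `end_ex`; even: `end_pay` outside the
exceptional positions; exceptional: `PhV ≤ 1` (`Phi_le_one`) and `exq_le`; a given half step is the end of at most one epoch;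
the conditional mean of `aJq {d}` is nonnegative at odd steps (`kl_code`); `stt_inv` gives `hm`; tiny digits: `Tny`.
-/

set_option autoImplicit false
set_option linter.unusedSectionVars false

namespace Pool.Agent.GMH.TD

open Finset Pool.Agent.PWZ Pool.Agent.M3 Pool.Agent.GM Pool.Agent.GM.Harm Pool.Agent.GMH Pool.Agent.GMH.NZ
open Pool.Agent.GMH.V3 Pool.Agent.GMH.Gdy

namespace PB

section abs

/-- a weight which is a function of `X` on the support -/
theorem E_mul_ce_on {Om : Type*} [Fintype Om] (P : FP Om) {κ : Type*} {X : Om → κ} {f : Om → ℝ}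
    (hf : ∀ v w, P.p v ≠ 0 → P.p w ≠ 0 → X v = X w → f v = f w) (g : Om → ℝ) :
    P.E (fun w => f w * P.ce X g w) = P.E (fun w => f w * g w) := by
  have e : ∀ w, P.p w ≠ 0 → f w = P.ce X f w := by
    intro w hw
    have h1 : P.ce X f w = P.ce X (fun _ => f w) w := ce_congr_on fun v hv hy => hf v w hv hw hy
    rw [h1, P.ce_const _ _ hw]
  have h2 : P.E (fun w => f w * P.ce X g w) = P.E (fun w => P.ce X f w * P.ce X g w) :=
    P.E_congr fun w hw => by rw [← e w hw]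
  have h3 : P.E (fun w => f w * g w) = P.E (fun w => P.ce X f w * g w) :=
    P.E_congr fun w hw => by rw [← e w hw]
  rw [h2, h3, P.E_mul_ce (P.ce_fac X f)]

/-- even and odd half steps -/
theorem sum_two (F : ℕ → ℝ) (T : ℕ) : ∑ r ∈ range (2 * T), F r = ∑ t ∈ range T, (F (2 * t) + F (2 * t + 1)) := by
  induction T with
  | zero => simp
  | succ T ih =>
    rw [show 2 * (T + 1) = 2 * T + 1 + 1 by ring, Finset.sum_range_succ, Finset.sum_range_succ, ih,
      Finset.sum_range_succ]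
    ring

end abs

variable {X β γ φ υ : Type} [Fintype X] [Fintype β] [Fintype φ] [Nonempty X] [Nonempty β]
variable {D : HD (Fin 3) X β γ φ} {al : ℝ} {h : D.Thick al} {v : ℕ → Finset (Fin 3) → X → (Fin 3 → β) → υ}

/-! ### the clock of the run -/

theorem ST_or {δ kp : ℝ} (k : ℕ) (w : Pt (Fin 3) X β φ) : STq h v δ kp (k + 1) w = k + 1 ∨
    STq h v δ kp (k + 1) w = STq h v δ kp k w := stt_or k w

theorem ST_fac {δ kp : ℝ} (k : ℕ) : Fac (NPr v D k) (STq h v δ kp k) := stt_fac NPr_step k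

theorem sgm_spec {δ kp : ℝ} {T : ℕ} (ν : ℕ) (w : Pt (Fin 3) X β φ) :
    EndE h v δ kp T ν (sgm h v δ kp T ν w) w := by
  classical
  unfold sgm
  exact Nat.find_spec (exists_EndE h v δ kp T ν w)

theorem sgm_min {δ kp : ℝ} {T : ℕ} {ν s : ℕ} {w : Pt (Fin 3) X β φ} (hs : s < sgm h v δ kp T ν w) :
    ¬ EndE h v δ kp T ν s w := by
  classical
  unfold sgm at hs
  exact Nat.find_min (exists_EndE h v δ kp T ν w) hs

theorem sgm_le {δ kp : ℝ} {T : ℕ} {ν s : ℕ} {w : Pt (Fin 3) X β φ} (hs : EndE h v δ kp T ν s w) :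
    sgm h v δ kp T ν w ≤ s := by
  by_contra hc
  exact sgm_min (not_le.1 hc) hs

theorem sgm_cap {δ kp : ℝ} {T : ℕ} {ν : ℕ} (hν : ν < 2 * T) (w : Pt (Fin 3) X β φ) :
    ν + sgm h v δ kp T ν w ≤ 2 * T := by
  have h1 : EndE h v δ kp T ν (2 * T - ν) w := ⟨by omega, Or.inr (by omega)⟩
  have h2 := sgm_le h1
  omega

/-- inside the epoch -/
theorem st_in {δ kp : ℝ} {T : ℕ} {ν : ℕ} {w : Pt (Fin 3) X β φ} (hν : STq h v δ kp ν w = ν) {s : ℕ}
    (hs : s < sgm h v δ kp T ν w) : STq h v δ kp (ν + s) w = ν := by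
  induction s with
  | zero => exact hν
  | succ s ih =>
    have h1 := ih (by omega)
    rcases ST_or (h := h) (v := v) (δ := δ) (kp := kp) (ν + s) w with h2 | h2
    · exact absurd (⟨by omega, Or.inl h2⟩ : EndE h v δ kp T ν (s + 1) w) (sgm_min hs)
    · rw [← add_assoc, h2, h1]

/-- the epoch `ν` ends at `q` -/
def En (h : D.Thick al) (v : ℕ → Finset (Fin 3) → X → (Fin 3 → β) → υ) (δ kp : ℝ) (T ν q : ℕ)
    (w : Pt (Fin 3) X β φ) : Prop := ν < q ∧ STq h v δ kp ν w = ν ∧ sgm h v δ kp T ν w = q - ν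

theorem En_st {δ kp : ℝ} {T ν q : ℕ} {w : Pt (Fin 3) X β φ} (hE : En h v δ kp T ν (q + 1) w) :
    STq h v δ kp q w = ν := by
  obtain ⟨h1, h2, h3⟩ := hE
  have h4 := st_in (T := T) h2 (s := q - ν) (by omega)
  rwa [show ν + (q - ν) = q by omega] at h4

theorem En_iff {δ kp : ℝ} {T ν q : ℕ} {w : Pt (Fin 3) X β φ} : En h v δ kp T ν q w ↔
    ν < q ∧ STq h v δ kp ν w = ν ∧ EndE h v δ kp T ν (q - ν) w ∧ ∀ s < q - ν, ¬ EndE h v δ kp T ν s w := by
  constructor
  · rintro ⟨h1, h2, h3⟩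
    refine ⟨h1, h2, ?_, fun s hs => sgm_min (by omega)⟩
    rw [← h3]
    exact sgm_spec ν w
  · rintro ⟨h1, h2, h3, h4⟩
    refine ⟨h1, h2, le_antisymm (sgm_le h3) ?_⟩
    by_contra h5
    exact h4 _ (not_le.1 h5) (sgm_spec ν w)

theorem EndE_fac {δ kp : ℝ} {T ν s q : ℕ} (hq : ν + s ≤ q) {a b : Pt (Fin 3) X β φ}
    (hab : NPr v D q a = NPr v D q b) : EndE h v δ kp T ν s a ↔ EndE h v δ kp T ν s b := by
  unfold EndE
  rw [ST_fac (h := h) (δ := δ) (kp := kp) (ν + s) a b (NPr_older hq hab)]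

theorem En_fac {δ kp : ℝ} {T ν q : ℕ} {a b : Pt (Fin 3) X β φ}
    (hab : NPr v D q a = NPr v D q b) : En h v δ kp T ν q a ↔ En h v δ kp T ν q b := by
  rw [En_iff, En_iff]
  by_cases hν : ν < q
  · have h1 : STq h v δ kp ν a = STq h v δ kp ν b := ST_fac ν a b (NPr_older hν.le hab)
    have h2 : EndE h v δ kp T ν (q - ν) a ↔ EndE h v δ kp T ν (q - ν) b := EndE_fac (by omega) hab
    have h3 : (∀ s < q - ν, ¬ EndE h v δ kp T ν s a) ↔ ∀ s < q - ν, ¬ EndE h v δ kp T ν s b := by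
      refine forall_congr' fun s => forall_congr' fun hs => not_congr ?_
      exact EndE_fac (by omega) hab
    rw [h1, h2, h3]
  · exact ⟨fun hh => absurd hh.1 hν, fun hh => absurd hh.1 hν⟩

/-- the epoch ends at one half step -/
theorem En_sum {δ kp : ℝ} {T ν : ℕ} (hν : ν < 2 * T) (w : Pt (Fin 3) X β φ) (f : ℕ → ℝ) :
    ∑ r ∈ range (2 * T), ind (En h v δ kp T ν (r + 1) w) * f (r + 1 - ν) =
      ind (STq h v δ kp ν w = ν) * f (sgm h v δ kp T ν w) := by
  by_cases h1 : STq h v δ kp ν w = ν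
  · have h2 := sgm_cap (h := h) (v := v) (δ := δ) (kp := kp) hν w
    have h3 : 1 ≤ sgm h v δ kp T ν w := (sgm_spec (h := h) (v := v) (δ := δ) (kp := kp) (T := T) ν w).1
    rw [ind_of h1, one_mul, Finset.sum_eq_single (ν + sgm h v δ kp T ν w - 1)]
    · have e1 : ν + sgm h v δ kp T ν w - 1 + 1 = ν + sgm h v δ kp T ν w := by omega
      have e2 : ν + sgm h v δ kp T ν w - ν = sgm h v δ kp T ν w := by omega
      rw [e1, e2, ind_of ⟨by omega, h1, by omega⟩, one_mul]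
    · intro r _ hr
      rw [ind_not, zero_mul]
      rintro ⟨a1, a2, a3⟩
      omega
    · intro hh
      exact absurd (Finset.mem_range.2 (by omega)) hh
  · rw [ind_not h1, zero_mul]
    refine Finset.sum_eq_zero fun r _ => ?_
    rw [ind_not (fun hh => h1 hh.2.1), zero_mul]

/-- at most one epoch ends at a half step -/
theorem En_one {δ kp : ℝ} {T q : ℕ} (n : ℕ) (w : Pt (Fin 3) X β φ) :
    ∑ ν ∈ range n, ind (En h v δ kp T ν (q + 1) w) ≤ 1 := by
  have h1 : ∀ ν ∈ range n, ν ≠ STq h v δ kp q w → ind (En h v δ kp T ν (q + 1) w) = 0 := fun ν _ hne =>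
    ind_not fun hh => hne (En_st hh).symm
  by_cases h2 : STq h v δ kp q w ∈ range n
  · rw [Finset.sum_eq_single_of_mem _ h2 h1]
    exact ind_le_one _
  · rw [Finset.sum_eq_zero fun ν hν => h1 ν hν fun hh => h2 (hh ▸ hν)]
    exact zero_le_one

/-! ### weights -/

theorem wt_nonneg {e c : Fin 3} {ν M : ℕ} (us : Fin M → β) (w : Pt (Fin 3) X β φ) : 0 ≤ wt h v e c ν us w :=
  sw_nonneg (fun _ => FP.Pr_nonneg _ _) us

theorem wt_sum (e c : Fin 3) (ν M : ℕ) (w : Pt (Fin 3) X β φ) : ∑ us : Fin M → β, wt h v e c ν us w = 1 :=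
  sw_sum (Gdy.sum_law (P := Wd h v e ν w) fun y => y.2.1 c) M

theorem wt_fac (hv : Codes D v) {e c : Fin 3} (hc : e ≠ c) {ν M : ℕ} (us : Fin M → β) {w w' : Pt (Fin 3) X β φ}
    (hw : (D.P h 0).p w ≠ 0) (hw' : (D.P h 0).p w' ≠ 0) (hN : NPr v D ν w = NPr v D ν w') :
    wt h v e c ν us w = wt h v e c ν us w' := by
  unfold wt
  congr 1
  funext a
  exact Wd_pt hv hc ν hw hw' hN a

theorem Wd_self {e : Fin 3} {ν : ℕ} {w : Pt (Fin 3) X β φ} (hw : (D.P h 0).p w ≠ 0) : (Wd h v e ν w).p w ≠ 0 :=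
  (FP.cond_p_ne (Wd_ne e ν w)).2 ⟨rfl, hw⟩

theorem PhV_le_one {T : ℕ} {θ X1 p1 : ℝ} {J0 : Finset (Fin 3)} {e c d : Fin 3} {ν : ℕ} {u : ℝ} (hu : 0 < u) {M : ℕ}
    (us : Fin M → β) (s : ℕ) {w : Pt (Fin 3) X β φ} (hw : (D.P h 0).p w ≠ 0) :
    PhV h v T θ X1 p1 J0 e c d ν u us s w ≤ 1 := Phi_le_one hu (Wd_self hw)

theorem PhV_nonneg {T : ℕ} {θ X1 p1 : ℝ} {J0 : Finset (Fin 3)} {e c d : Fin 3} {ν : ℕ} {u : ℝ} {M : ℕ}
    (us : Fin M → β) (s : ℕ) (w : Pt (Fin 3) X β φ) : 0 ≤ PhV h v T θ X1 p1 J0 e c d ν u us s w := Phi_nonneg s w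

theorem ce_aJ_nonneg (hv : Codes D v) {r : ℕ} (hr : r % 2 = 1) (d : Fin 3) {w : Pt (Fin 3) X β φ}
    (hw : (D.P h 0).p w ≠ 0) : 0 ≤ (D.P h 0).ce (NPr v D (r + 1)) (aJq h v {d} r) w := by
  rw [← kl_code hv hr d hw]
  refine FP.kl_nonneg (fun u hu => ?_) _
  have h1 := (FP.cond_p_ne ((D.P h 0).m_pos (NPr v D (r + 1)) hw).ne').1 hu
  refine (FP.cond_p_ne ((D.P h 0).m_pos (NPr v D r) hw).ne').2 ⟨?_, h1.2⟩
  exact NPr_step r u w h1.1

theorem E_aJ_nonneg (J : Finset (Fin 3)) (r : ℕ) : 0 ≤ (D.P h 0).E (aJq h v J r) := by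
  have h1 := E_ai (D.P h 0) (L := LJ v J) (Y := PJ J) (NPr_step (v := v) (D := D)) (LJ_PJ J) r
  have h2 : (D.P h 0).E (aJq h v J r) = (D.P h 0).I (LJ v J r) (NPr v D (r + 1)) (fun w => (PJ J w, NPr v D r w)) := h1
  rw [h2]
  exact (D.P h 0).I_nonneg _ _ _

end PB

open PB

variable {X β γ φ : Type} [Fintype X] [Fintype β] [Fintype φ] [Nonempty X] [Nonempty β]
variable {D : HD (Fin 3) X β γ φ} {al : ℝ} {h : D.Thick al} {v : ℕ → Finset (Fin 3) → X → (Fin 3 → β) → Pt (Fin 3) X β φ}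
  {N : Finset (Fin 3) → ℝ} {S : Finset (Finset (Fin 3))} {N1 : ℝ}

theorem e9_nonneg {X1 u dl : ℝ} (hdl : 0 < dl) (M : ℕ) : 0 ≤ e9 N1 X1 u dl M := by
  unfold e9
  positivity

/-- exceptional positions, weighted -/
theorem PB.wsum (R : Run h N S (AdmDep D) v) (hp : Prc N S N1) {dg : ℕ → X → ℝ} {prr : ℕ → Fin 3 → φ → φ} {T : ℕ}
    {Lam : ℝ} (H : D.Hyp dg prr al T Lam) {J0 : Finset (Fin 3)} {e c d : Fin 3} (ht : Tri3 J0 e c d)
    {θ X1 p1 u dl : ℝ} (hX1 : 0 ≤ X1) (hu : 0 < u) (hdl : 0 < dl) (hdl1 : dl ≤ 1) {M : ℕ}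
    (hsm : 2 * (M * Real.exp (2 * X1)) * Real.exp (-(N1 * u / 64)) ≤ 1) {ν q : ℕ} (hν : ν ≤ q) (hq : q ≤ 2 * T)
    {W : Pt (Fin 3) X β φ → Prop} (hW : ∀ a b, NPr v D q a = NPr v D q b → (W a ↔ W b)) :
    (D.P h 0).E (fun w => ind (W w) * ∑ us : Fin M → β, wt h v e c ν us w *
      ind (exq h v θ X1 p1 J0 e c d ν u us q w)) ≤
      (D.P h 0).E (fun w => ind (W w) * (e9 N1 X1 u dl M + ind (¬ dgq h v dl q w))) := by
  have e1 : (D.P h 0).E (fun w => ind (W w) * ∑ us : Fin M → β, wt h v e c ν us w *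
      ind (exq h v θ X1 p1 J0 e c d ν u us q w)) = ∑ us : Fin M → β, (D.P h 0).E (fun w =>
        (ind (W w) * wt h v e c ν us w) * (D.P h 0).ce (NPr v D q)
          (fun y => ind (exq h v θ X1 p1 J0 e c d ν u us q y)) w) := by
    have e2 : ∀ us : Fin M → β, (D.P h 0).E (fun w => (ind (W w) * wt h v e c ν us w) * (D.P h 0).ce (NPr v D q)
          (fun y => ind (exq h v θ X1 p1 J0 e c d ν u us q y)) w) = (D.P h 0).E (fun w =>
            (ind (W w) * wt h v e c ν us w) * ind (exq h v θ X1 p1 J0 e c d ν u us q w)) := by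
      intro us
      refine E_mul_ce_on (D.P h 0) (fun a b ha hb hab => ?_) _
      rw [propext (hW a b hab), wt_fac R.codes ht.ec us ha hb (NPr_older hν hab)]
    rw [Finset.sum_congr rfl fun us _ => e2 us, ← FP.E_sum]
    refine (D.P h 0).E_congr fun w _ => ?_
    rw [Finset.mul_sum]
    exact Finset.sum_congr rfl fun us _ => by ring
  rw [e1]
  have e3 : (D.P h 0).E (fun w => ind (W w) * (e9 N1 X1 u dl M + ind (¬ dgq h v dl q w))) =
      ∑ us : Fin M → β, (D.P h 0).E (fun w => (ind (W w) * wt h v e c ν us w) *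
        (e9 N1 X1 u dl M + ind (¬ dgq h v dl q w))) := by
    rw [← FP.E_sum]
    refine (D.P h 0).E_congr fun w _ => ?_
    rw [← Finset.sum_mul, ← Finset.mul_sum, wt_sum, mul_one]
  rw [e3]
  refine Finset.sum_le_sum fun us _ => (D.P h 0).E_mono fun w hw => ?_
  refine mul_le_mul_of_nonneg_left ?_ (mul_nonneg (ind_nonneg _) (wt_nonneg us w))
  by_cases hd : dgq h v dl q w
  · have h1 := exq_le (θ := θ) (p1 := p1) R hp H ht hX1 hu hdl hdl1 hsm us hν hq hw hd
    have h2 := ind_nonneg (¬ dgq h v dl q w)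
    linarith
  · rw [ind_of hd]
    have h1 : (D.P h 0).ce (NPr v D q) (fun y => ind (exq h v θ X1 p1 J0 e c d ν u us q y)) w ≤ 1 :=
      (D.P h 0).ce_le_const (fun y _ => ind_le_one _) hw
    have h2 := e9_nonneg (N1 := N1) (X1 := X1) (u := u) hdl M
    linarith

/-- what pays at the end `q` -/
noncomputable def PB.pay (h : D.Thick al) (v : ℕ → Finset (Fin 3) → X → (Fin 3 → β) → Pt (Fin 3) X β φ) (d : Fin 3)
    (r : ℕ) (w : Pt (Fin 3) X β φ) : ℝ :=
  if r % 2 = 1 then (D.P h 0).ce (NPr v D (r + 1)) (aJq h v {d} r) w else 0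

theorem PB.pay_nonneg (hv : Codes D v) (d : Fin 3) (r : ℕ) {w : Pt (Fin 3) X β φ} (hw : (D.P h 0).p w ≠ 0) :
    0 ≤ PB.pay h v d r w := by
  unfold PB.pay
  split_ifs with hr
  · exact ce_aJ_nonneg hv hr d hw
  · exact le_rfl

theorem PB.E_pay (d : Fin 3) (r : ℕ) : (D.P h 0).E (PB.pay h v d r) ≤ (D.P h 0).E (aJq h v {d} r) := by
  unfold PB.pay
  by_cases hr : r % 2 = 1
  · simp only [if_pos hr]
    exact le_of_eq ((D.P h 0).E_ce _ _)
  · simp only [if_neg hr]
    rw [FP.E_const]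
    exact E_aJ_nonneg {d} r

/-- potential at the end of an epoch, one sample -/
theorem PB.end_pt (R : Run h N S (AdmDep D) v) {J0 : Finset (Fin 3)} {e c d : Fin 3} (ht : Tri3 J0 e c d) {T : ℕ}
    {θ X1 p1 u δ kp : ℝ} (hp0 : 0 ≤ p1) (hu : 0 < u) (hup : 2 ^ 12 * p1 ≤ u) (hkp0 : 0 < kp)
    (hkp : 2 ^ 12 * kp ≤ u) (hδ0 : 0 < δ) (hδ : δ ≤ 1 / 2) {M : ℕ} (us : Fin M → β) {ν r : ℕ} (hr : r < 2 * T)
    {w : Pt (Fin 3) X β φ} (hw : (D.P h 0).p w ≠ 0) (hE : En h v δ kp T ν (r + 1) w) :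
    PhV h v T θ X1 p1 J0 e c d ν u us (r + 1 - ν) w ≤
      3 * PB.pay h v d r w + ind (exq h v θ X1 p1 J0 e c d ν u us (r + 1) w) := by
  have hst := En_st hE
  have hνr : ν ≤ r := Nat.lt_succ_iff.1 hE.1
  obtain ⟨s, rfl⟩ : ∃ s, r = ν + s := ⟨r - ν, by omega⟩
  have e1 : ν + s + 1 - ν = s + 1 := by omega
  rw [e1]
  have hm : (D.P h 0).ce (NPr v D (ν + (s + 1) - 1)) (fun y => ind (MAq h v δ ν (ν + (s + 1) - 1) y)) w < kp := by
    have h1 := stt_inv (P := D.P h 0) (N := NPr v D) (Lf := LJ v) (Yf := fun J => PJ J) (B := 2) (δ := δ) (kp := kp)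
      NPr_step hδ0 hkp0 (ν + s) hw
    have h2 : stt (D.P h 0) (NPr v D) (LJ v) (fun J => PJ J) 2 δ kp (ν + s) w = ν := hst
    rw [h2] at h1
    exact h1
  have hpay := PB.pay_nonneg R.codes d (ν + s) hw
  have h1le := PhV_le_one (h := h) (v := v) (T := T) (θ := θ) (X1 := X1) (p1 := p1) (J0 := J0) (e := e) (c := c)
    (d := d) (ν := ν) hu us (s + 1) hw
  by_cases hex : exq h v θ X1 p1 J0 e c d ν u us (ν + s + 1) w
  · rw [ind_of hex]
    linarith
  · rw [ind_not hex, add_zero]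
    by_cases hodd : (ν + s) % 2 = 1
    · have h3 := end_pay R.codes ht (T := T) hp0 hu hup hkp hδ us (ν := ν) (s := s + 1) (by omega) (by omega)
        (by omega) hw hm hex
      unfold PB.pay
      rw [if_pos hodd]
      exact h3
    · by_contra hc
      have hP : 0 < PhV h v T θ X1 p1 J0 e c d ν u us (s + 1) w := by linarith [not_le.1 hc]
      exact hex (end_ex R.codes ht (T := T) hp0 hu hup hkp hδ us (ν := ν) (s := s + 1) (by omega) (by omega)
        (by omega) hw hm hP)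

theorem pot_end (R : Run h N S (AdmDep D) v) (hp : Prc N S N1) {dg : ℕ → X → ℝ} {prr : ℕ → Fin 3 → φ → φ} {T : ℕ}
    {Lam : ℝ} (H : D.Hyp dg prr al T Lam) {J0 : Finset (Fin 3)} {e c d : Fin 3} (ht : Tri3 J0 e c d)
    {θ X1 p1 u dl δ kp : ℝ} (hX1 : 0 ≤ X1) (hp0 : 0 ≤ p1) (hu : 0 < u) (hup : 2 ^ 12 * p1 ≤ u) (hkp0 : 0 < kp)
    (hkp : 2 ^ 12 * kp ≤ u) (hδ0 : 0 < δ) (hδ : δ ≤ 1 / 2) (hdl : 0 < dl) (hdl1 : dl ≤ 1) {M : ℕ}
    (hsm : 2 * (M * Real.exp (2 * X1)) * Real.exp (-(N1 * u / 64)) ≤ 1) :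
    ∑ ν ∈ range (2 * T), (D.P h 0).E (fun w => ind (STq h v δ kp ν w = ν) * ∑ us : Fin M → β, wt h v e c ν us w *
        PhV h v T θ X1 p1 J0 e c d ν u us (sgm h v δ kp T ν w) w) ≤
      3 * ∑ r ∈ range (2 * T), (D.P h 0).E (aJq h v {d} r) + e9 N1 X1 u dl M * Nep h v δ kp T + Tny h v dl T := by
  -- one epoch, one end
  have h1 : ∀ ν ∈ range (2 * T), (D.P h 0).E (fun w => ind (STq h v δ kp ν w = ν) * ∑ us : Fin M → β,
      wt h v e c ν us w * PhV h v T θ X1 p1 J0 e c d ν u us (sgm h v δ kp T ν w) w) ≤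
      ∑ r ∈ range (2 * T), (D.P h 0).E (fun w => ind (En h v δ kp T ν (r + 1) w) *
        (3 * PB.pay h v d r w + ind (¬ dgq h v dl (r + 1) w))) +
        e9 N1 X1 u dl M * (D.P h 0).Pr (fun w => STq h v δ kp ν w = ν) := by
    intro ν hν
    have hν' := Finset.mem_range.1 hν
    have e1 : (D.P h 0).E (fun w => ind (STq h v δ kp ν w = ν) * ∑ us : Fin M → β,
        wt h v e c ν us w * PhV h v T θ X1 p1 J0 e c d ν u us (sgm h v δ kp T ν w) w) =
        ∑ r ∈ range (2 * T), (D.P h 0).E (fun w => ind (En h v δ kp T ν (r + 1) w) * ∑ us : Fin M → β,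
          wt h v e c ν us w * PhV h v T θ X1 p1 J0 e c d ν u us (r + 1 - ν) w) := by
      rw [← FP.E_sum]
      refine (D.P h 0).E_congr fun w _ => ?_
      exact (En_sum hν' w fun s => ∑ us : Fin M → β, wt h v e c ν us w * PhV h v T θ X1 p1 J0 e c d ν u us s w).symm
    have e2 : (D.P h 0).Pr (fun w => STq h v δ kp ν w = ν) =
        ∑ r ∈ range (2 * T), (D.P h 0).Pr (En h v δ kp T ν (r + 1)) := by
      unfold FP.Pr
      rw [← FP.E_sum]
      refine (D.P h 0).E_congr fun w _ => ?_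
      have := En_sum (h := h) (v := v) (δ := δ) (kp := kp) hν' w fun _ => 1
      simp only [mul_one] at this
      exact this.symm
    rw [e1, e2, Finset.mul_sum, ← Finset.sum_add_distrib]
    refine Finset.sum_le_sum fun r hr => ?_
    have hr' := Finset.mem_range.1 hr
    by_cases hνr : ν ≤ r
    · have h2 := PB.wsum (θ := θ) (p1 := p1) R hp H ht hX1 hu hdl hdl1 hsm (show ν ≤ r + 1 by omega)
        (show r + 1 ≤ 2 * T by omega) (W := En h v δ kp T ν (r + 1)) (fun a b hab => En_fac hab)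
      have h3 : (D.P h 0).E (fun w => ind (En h v δ kp T ν (r + 1) w) * ∑ us : Fin M → β,
          wt h v e c ν us w * PhV h v T θ X1 p1 J0 e c d ν u us (r + 1 - ν) w) ≤
          (D.P h 0).E (fun w => ind (En h v δ kp T ν (r + 1) w) * (3 * PB.pay h v d r w) +
            ind (En h v δ kp T ν (r + 1) w) * ∑ us : Fin M → β, wt h v e c ν us w *
              ind (exq h v θ X1 p1 J0 e c d ν u us (r + 1) w)) := by
        refine (D.P h 0).E_mono fun w hw => ?_
        rw [← mul_add]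
        by_cases hE : En h v δ kp T ν (r + 1) w
        · refine mul_le_mul_of_nonneg_left ?_ (ind_nonneg _)
          have h4 : ∑ us : Fin M → β, wt h v e c ν us w * PhV h v T θ X1 p1 J0 e c d ν u us (r + 1 - ν) w ≤
              ∑ us : Fin M → β, wt h v e c ν us w * (3 * PB.pay h v d r w +
                ind (exq h v θ X1 p1 J0 e c d ν u us (r + 1) w)) := Finset.sum_le_sum fun us _ =>
            mul_le_mul_of_nonneg_left (PB.end_pt R ht hp0 hu hup hkp0 hkp hδ0 hδ us hr' hw hE) (wt_nonneg us w)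
          refine h4.trans (le_of_eq ?_)
          simp only [mul_add, Finset.sum_add_distrib]
          rw [← Finset.sum_mul, wt_sum, one_mul]
        · rw [ind_not hE, zero_mul, zero_mul]
      rw [FP.E_add] at h3
      have h5 : (D.P h 0).E (fun w => ind (En h v δ kp T ν (r + 1) w) * (e9 N1 X1 u dl M +
          ind (¬ dgq h v dl (r + 1) w))) = e9 N1 X1 u dl M * (D.P h 0).Pr (En h v δ kp T ν (r + 1)) +
          (D.P h 0).E (fun w => ind (En h v δ kp T ν (r + 1) w) * ind (¬ dgq h v dl (r + 1) w)) := by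
        unfold FP.Pr
        rw [← FP.E_smul, ← FP.E_add]
        exact (D.P h 0).E_congr fun w _ => by ring
      have h6 : (D.P h 0).E (fun w => ind (En h v δ kp T ν (r + 1) w) *
          (3 * PB.pay h v d r w + ind (¬ dgq h v dl (r + 1) w))) =
          (D.P h 0).E (fun w => ind (En h v δ kp T ν (r + 1) w) * (3 * PB.pay h v d r w)) +
          (D.P h 0).E (fun w => ind (En h v δ kp T ν (r + 1) w) * ind (¬ dgq h v dl (r + 1) w)) := by
        rw [← FP.E_add]
        exact (D.P h 0).E_congr fun w _ => by ring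
      rw [h6]
      linarith
    · have h2 : ∀ w, ¬ En h v δ kp T ν (r + 1) w := fun w hE => hνr (Nat.lt_succ_iff.1 hE.1)
      have h3 : (D.P h 0).Pr (En h v δ kp T ν (r + 1)) = 0 := by
        unfold FP.Pr
        rw [(D.P h 0).E_congr fun w _ => ind_not (h2 w), FP.E_const]
      rw [h3, mul_zero, add_zero]
      refine (D.P h 0).E_mono fun w _ => ?_
      rw [ind_not (h2 w), zero_mul, zero_mul]
  refine (Finset.sum_le_sum h1).trans ?_
  rw [Finset.sum_add_distrib, ← Finset.mul_sum]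
  have h2 : ∑ ν ∈ range (2 * T), ∑ r ∈ range (2 * T), (D.P h 0).E (fun w => ind (En h v δ kp T ν (r + 1) w) *
        (3 * PB.pay h v d r w + ind (¬ dgq h v dl (r + 1) w))) ≤
      3 * ∑ r ∈ range (2 * T), (D.P h 0).E (aJq h v {d} r) + Tny h v dl T := by
    rw [Finset.sum_comm]
    have h3 : ∀ r ∈ range (2 * T), ∑ ν ∈ range (2 * T), (D.P h 0).E (fun w => ind (En h v δ kp T ν (r + 1) w) *
        (3 * PB.pay h v d r w + ind (¬ dgq h v dl (r + 1) w))) ≤
        3 * (D.P h 0).E (aJq h v {d} r) + (D.P h 0).Pr (fun w => ¬ dgq h v dl (r + 1) w) := by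
      intro r _
      rw [← FP.E_sum]
      have h4 : (D.P h 0).E (fun w => ∑ ν ∈ range (2 * T), ind (En h v δ kp T ν (r + 1) w) *
          (3 * PB.pay h v d r w + ind (¬ dgq h v dl (r + 1) w))) ≤
          (D.P h 0).E (fun w => 3 * PB.pay h v d r w + ind (¬ dgq h v dl (r + 1) w)) := by
        refine (D.P h 0).E_mono fun w hw => ?_
        rw [← Finset.sum_mul]
        refine mul_le_of_le_one_left ?_ (En_one _ w)
        exact add_nonneg (mul_nonneg (by norm_num) (PB.pay_nonneg R.codes d r hw)) (ind_nonneg _)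
      rw [FP.E_add, FP.E_smul] at h4
      have h5 := PB.E_pay (h := h) (v := v) d r
      have h6 : (D.P h 0).Pr (fun w => ¬ dgq h v dl (r + 1) w) = (D.P h 0).E (fun w => ind (¬ dgq h v dl (r + 1) w)) := rfl
      rw [h6]
      linarith
    refine (Finset.sum_le_sum h3).trans ?_
    rw [Finset.sum_add_distrib, ← Finset.mul_sum]
    refine add_le_add le_rfl (le_of_eq ?_)
    rw [sum_two]
    unfold Tny
    refine Finset.sum_congr rfl fun t _ => ?_
    have h7 : (D.P h 0).Pr (fun w => ¬ dgq h v dl (2 * t + 1 + 1) w) = 0 := by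
      unfold FP.Pr
      rw [(D.P h 0).E_congr fun w _ => ind_not (p := ¬ dgq h v dl (2 * t + 1 + 1) w) (fun hh => hh fun h8 => by omega),
        FP.E_const]
    rw [h7, add_zero]
  have h8 : ∑ ν ∈ range (2 * T), (D.P h 0).Pr (fun w => STq h v δ kp ν w = ν) = Nep h v δ kp T := rfl
  rw [h8]
  linarith

theorem pot_start (R : Run h N S (AdmDep D) v) (hp : Prc N S N1) {dg : ℕ → X → ℝ} {prr : ℕ → Fin 3 → φ → φ} {T : ℕ}
    {Lam : ℝ} (H : D.Hyp dg prr al T Lam) {J0 : Finset (Fin 3)} {e c d : Fin 3} (ht : Tri3 J0 e c d)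
    {θ X1 p1 u dl δ kp : ℝ} (hX1 : 0 ≤ X1) (hp0 : 0 ≤ p1) (hu : 0 < u) (hup : 2 ^ 12 * p1 ≤ u) (hdl : 0 < dl)
    (hdl1 : dl ≤ 1) (hNu : 2 ^ 12 * Real.sqrt ((Real.log (1 / dl) + 1) / N1) ≤ u) {M : ℕ}
    (hsm : 2 * (M * Real.exp (2 * X1)) * Real.exp (-(N1 * u / 64)) ≤ 1) :
    ∑ ν ∈ range (2 * T), (D.P h 0).E (fun w => ind (STq h v δ kp ν w = ν) * ∑ us : Fin M → β, wt h v e c ν us w *
        ind (0 < PhV h v T θ X1 p1 J0 e c d ν u us 0 w)) ≤
      e9 N1 X1 u dl M * Nep h v δ kp T + Tny h v dl T := by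
  have h1 : ∀ ν ∈ range (2 * T), (D.P h 0).E (fun w => ind (STq h v δ kp ν w = ν) * ∑ us : Fin M → β,
      wt h v e c ν us w * ind (0 < PhV h v T θ X1 p1 J0 e c d ν u us 0 w)) ≤
      e9 N1 X1 u dl M * (D.P h 0).Pr (fun w => STq h v δ kp ν w = ν) +
        (D.P h 0).Pr (fun w => ¬ dgq h v dl ν w) := by
    intro ν hν
    have hν' := Finset.mem_range.1 hν
    have h2 := PB.wsum (θ := θ) (p1 := p1) R hp H ht hX1 hu hdl hdl1 hsm (le_refl ν)
      (show ν ≤ 2 * T by omega) (W := fun w => STq h v δ kp ν w = ν ∧ dgq h v dl ν w) (fun a b hab => by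
        have a1 : STq h v δ kp ν a = STq h v δ kp ν b := ST_fac ν a b hab
        have a2 : dgq h v dl ν a ↔ dgq h v dl ν b := by
          unfold dgq
          rw [(D.P h 0).Fac_m (NPr v D ν) a b hab,
            (D.P h 0).Fac_m (NPr v D (ν - 1)) a b (NPr_older (Nat.sub_le ν 1) hab)]
        rw [a1, a2])
    have h3 : (D.P h 0).E (fun w => ind (STq h v δ kp ν w = ν) * ∑ us : Fin M → β, wt h v e c ν us w *
        ind (0 < PhV h v T θ X1 p1 J0 e c d ν u us 0 w)) ≤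
        (D.P h 0).E (fun w => ind (STq h v δ kp ν w = ν ∧ dgq h v dl ν w) * (∑ us : Fin M → β, wt h v e c ν us w *
          ind (exq h v θ X1 p1 J0 e c d ν u us ν w)) + ind (¬ dgq h v dl ν w)) := by
      refine (D.P h 0).E_mono fun w hw => ?_
      by_cases hd : dgq h v dl ν w
      · by_cases hs : STq h v δ kp ν w = ν
        · rw [ind_of hs, ind_of ⟨hs, hd⟩, one_mul, one_mul]
          have h4 := ind_nonneg (¬ dgq h v dl ν w)
          refine le_trans ?_ (le_add_of_nonneg_right h4)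
          refine Finset.sum_le_sum fun us _ => mul_le_mul_of_nonneg_left (ind_mono fun hP => ?_) (wt_nonneg us w)
          exact start_ex R hp H ht hp0 hu hup hdl hdl1 hNu us hν'.le hw hd hP
        · rw [ind_not hs, ind_not (p := STq h v δ kp ν w = ν ∧ dgq h v dl ν w) (fun hh => hs hh.1), zero_mul,
            zero_mul, zero_add]
          exact ind_nonneg _
      · rw [ind_of (p := ¬ dgq h v dl ν w) hd, ind_not (p := STq h v δ kp ν w = ν ∧ dgq h v dl ν w) (fun hh => hd hh.2),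
          zero_mul, zero_add]
        have h5 : ∑ us : Fin M → β, wt h v e c ν us w * ind (0 < PhV h v T θ X1 p1 J0 e c d ν u us 0 w) ≤ 1 := by
          rw [← wt_sum (h := h) (v := v) e c ν M w]
          exact Finset.sum_le_sum fun us _ => mul_le_of_le_one_right (wt_nonneg us w) (ind_le_one _)
        have h6 : 0 ≤ ∑ us : Fin M → β, wt h v e c ν us w * ind (0 < PhV h v T θ X1 p1 J0 e c d ν u us 0 w) :=
          Finset.sum_nonneg fun us _ => mul_nonneg (wt_nonneg us w) (ind_nonneg _)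
        exact (mul_le_of_le_one_left h6 (ind_le_one _)).trans h5
    rw [FP.E_add] at h3
    have h7 : (D.P h 0).E (fun w => ind (STq h v δ kp ν w = ν ∧ dgq h v dl ν w) *
        (e9 N1 X1 u dl M + ind (¬ dgq h v dl ν w))) ≤
        e9 N1 X1 u dl M * (D.P h 0).Pr (fun w => STq h v δ kp ν w = ν) := by
      unfold FP.Pr
      rw [← FP.E_smul]
      refine (D.P h 0).E_mono fun w _ => ?_
      have h8 := e9_nonneg (N1 := N1) (X1 := X1) (u := u) hdl M
      by_cases hh : STq h v δ kp ν w = ν ∧ dgq h v dl ν w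
      · rw [ind_of hh, ind_of hh.1, ind_not (p := ¬ dgq h v dl ν w) (fun h9 => h9 hh.2)]
        linarith
      · rw [ind_not hh, zero_mul]
        exact mul_nonneg h8 (ind_nonneg _)
    have h9 : (D.P h 0).Pr (fun w => ¬ dgq h v dl ν w) = (D.P h 0).E (fun w => ind (¬ dgq h v dl ν w)) := rfl
    rw [h9]
    linarith
  refine (Finset.sum_le_sum h1).trans ?_
  rw [Finset.sum_add_distrib, ← Finset.mul_sum]
  refine add_le_add le_rfl (le_of_eq ?_)
  rw [sum_two]
  unfold Tny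
  refine Finset.sum_congr rfl fun t _ => ?_
  have h7 : (D.P h 0).Pr (fun w => ¬ dgq h v dl (2 * t) w) = 0 := by
    unfold FP.Pr
    rw [(D.P h 0).E_congr fun w _ => ind_not (p := ¬ dgq h v dl (2 * t) w) (fun hh => hh fun h8 => by omega),
      FP.E_const]
  rw [h7, zero_add]

end Pool.Agent.GMH.TD
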