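import Pool.Agent.GMH.RZ5
import Pool.Agent.GMH.TD11B
import Pool.Agent.GMH.TD5

/-!
# GMH/RZ6 (helper36): thin static relations between two groups, the sum over all epochs

`FamZ` : a finite family of epochs `k`: start half step `r0 k`, start event `S k`, length `σ k`, static relation `Hr k`, the
moved mass at `r0 + σ - 1` is below `kp`, at most `m` epochs have the same start (end) half step.
`rest_sum` : `∑ E 1_S 1_Hr g(σ) ≤ x/2 ∑ E 1_S g(σ) + 24 m x (increments of the two groups) + errors`.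
-/

set_option autoImplicit false
set_option linter.unusedSectionVars false

namespace Pool.Agent.GMH.RZ

open Finset Pool.Agent.PWZ Pool.Agent.M3 Pool.Agent.GM Pool.Agent.GM.Harm Pool.Agent.GMH Pool.Agent.GMH.NZ
open Pool.Agent.GMH.V3 Pool.Agent.GMH.Gdy Pool.Agent.GMH.TD

section gen

variable {X β γ φ υ : Type} [Fintype X] [Fintype β] [Fintype φ] [Nonempty X] [Nonempty β]
variable {D : HD (Fin 3) X β γ φ} {al : ℝ} {h : D.Thick al} {v : ℕ → Finset (Fin 3) → X → (Fin 3 → β) → υ}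

/-- **a finite family of epochs with thin static relations** -/
structure FamZ {ι : Type} [Fintype ι] (h : D.Thick al) (v : ℕ → Finset (Fin 3) → X → (Fin 3 → β) → υ) (T : ℕ)
    (C E : Finset (Fin 3)) (r0 : ι → ℕ) (S : ι → Pt (Fin 3) X β φ → Prop) (σ : ι → Pt (Fin 3) X β φ → ℕ)
    (Hr : ι → Pt (Fin 3) X β φ → Prop) (δ kp p1 X1 m : ℝ) : Prop where
  ep : ∀ k, Epz v D T (r0 k) (S k) (σ k)
  rel : ∀ k, RelZ h v C E (r0 k) p1 X1 (Hr k)
  mvC : ∀ k w, (D.P h 0).p w ≠ 0 → S k w → (D.P h 0).ce (NPr v D (r0 k + σ k w - 1))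
    (fun y => ind (MJq h v δ C (r0 k) (r0 k + σ k w - 1) y)) w < kp
  mvE : ∀ k w, (D.P h 0).p w ≠ 0 → S k w → (D.P h 0).ce (NPr v D (r0 k + σ k w - 1))
    (fun y => ind (MJq h v δ E (r0 k) (r0 k + σ k w - 1) y)) w < kp
  st : ∀ w r, ∑ k, ind (S k w ∧ r0 k = r) ≤ m
  en : ∀ w r, ∑ k, ind (S k w ∧ r0 k + σ k w = r) ≤ m

theorem FamZ.swap {ι : Type} [Fintype ι] {T : ℕ} {C E : Finset (Fin 3)} {r0 : ι → ℕ} {S : ι → Pt (Fin 3) X β φ → Prop}
    {σ : ι → Pt (Fin 3) X β φ → ℕ} {Hr : ι → Pt (Fin 3) X β φ → Prop} {δ kp p1 X1 m : ℝ}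
    (F : FamZ h v T C E r0 S σ Hr δ kp p1 X1 m) : FamZ h v T E C r0 S σ Hr δ kp p1 X1 m :=
  ⟨F.ep, fun k => (F.rel k).swap, F.mvE, F.mvC, F.st, F.en⟩

/-- the law of a point in its cell -/
theorem nuC_cell {n : ℕ} {a b : Pt (Fin 3) X β φ} {j : Fin 3} (hab : D.qb n (a.2.1 j) = D.qb n (b.2.1 j)) :
    nuC D n a j = nuC D n b j := by
  unfold nuC cY
  rw [hab]

/-- the weights of the samples are functions of the public cell -/
theorem wz_fac (hv : Codes D v) (C : Finset (Fin 3)) (ν : ℕ) {M : ℕ} (us : Fin M → Fin 3 → Option β)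
    {w w' : Pt (Fin 3) X β φ} (hN : NPr v D ν w = NPr v D ν w') : wz h v C ν us w = wz h v C ν us w' := by
  unfold wz
  congr 1
  funext a
  have key : ∀ w : Pt (Fin 3) X β φ, (Wz h v ν w).Pr (fun y => PJ C y = a) =
      ind (∀ j, j ∉ C → a j = Option.none) * ∏ j, (nuC D (nt ν) w j).E (fun b => if j ∈ C then ind (a j = some b) else 1) := by
    intro w
    rw [← Wz_E hv ν w fun j b => if j ∈ C then ind (a j = some b) else 1, ← FP.E_smul]
    refine FP.E_congr _ fun u _ => ?_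
    by_cases h1 : ∀ j, j ∉ C → a j = Option.none
    · rw [ind_of h1, one_mul]
      by_cases h2 : ∀ j ∈ C, a j = some (u.2.1 j)
      · rw [ind_of]
        · refine (Finset.prod_eq_one fun j _ => ?_).symm
          by_cases hj : j ∈ C
          · rw [if_pos hj, ind_of (h2 j hj)]
          · rw [if_neg hj]
        · funext j
          unfold PJ
          by_cases hj : j ∈ C
          · rw [if_pos hj, h2 j hj]
          · rw [if_neg hj, h1 j hj]
      · push Not at h2
        obtain ⟨j, hj, hne⟩ := h2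
        rw [ind_not]
        · refine (Finset.prod_eq_zero (mem_univ j) ?_).symm
          rw [if_pos hj, ind_not hne]
        · intro hh
          refine hne ?_
          have h3 := congrFun hh j
          unfold PJ at h3
          rw [if_pos hj] at h3
          exact h3.symm
    · rw [ind_not h1, zero_mul, ind_not]
      intro hh
      refine h1 fun j hj => ?_
      have h3 := congrFun hh j
      unfold PJ at h3
      rw [if_neg hj] at h3
      exact h3.symm
  rw [key w, key w']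
  congr 1
  refine Finset.prod_congr rfl fun j _ => ?_
  rw [nuC_cell (congrFun (congrArg Prod.snd (congrArg Prod.snd hN)) j)]

theorem wz_nonneg {C : Finset (Fin 3)} {ν M : ℕ} (us : Fin M → Fin 3 → Option β) (w : Pt (Fin 3) X β φ) :
    0 ≤ wz h v C ν us w := sw_nonneg (fun _ => FP.Pr_nonneg _ _) us

theorem wz_sum (C : Finset (Fin 3)) (ν M : ℕ) (w : Pt (Fin 3) X β φ) :
    ∑ us : Fin M → Fin 3 → Option β, wz h v C ν us w = 1 :=
  sw_sum (Gdy.sum_law (P := Wz h v ν w) fun y => PJ C y) M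

theorem Phz_le_one {T : ℕ} {C E : Finset (Fin 3)} {ν : ℕ} {Hr : Pt (Fin 3) X β φ → Prop} {x : ℝ} (hx : 0 < x) {M : ℕ}
    (us : Fin M → Fin 3 → Option β) (s : ℕ) {w : Pt (Fin 3) X β φ} (hw : (D.P h 0).p w ≠ 0) :
    Phz h v T C E ν Hr x us s w ≤ 1 := Phi_le_one hx (Wz_self hw)

/-! ### ends -/

/-- the epoch ends at `q` -/
def Enz (r0 : ℕ) (S : Pt (Fin 3) X β φ → Prop) (σ : Pt (Fin 3) X β φ → ℕ) (q : ℕ) (w : Pt (Fin 3) X β φ) : Prop :=
  S w ∧ r0 + σ w = q

theorem Enz_fac {T r0 q : ℕ} {S : Pt (Fin 3) X β φ → Prop} {σ : Pt (Fin 3) X β φ → ℕ} (hE : Epz v D T r0 S σ)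
    {a b : Pt (Fin 3) X β φ} (hab : NPr v D q a = NPr v D q b) : Enz r0 S σ q a ↔ Enz r0 S σ q b := by
  unfold Enz
  by_cases hq : r0 < q
  · obtain ⟨s, rfl⟩ : ∃ s, q = r0 + (s + 1) := ⟨q - r0 - 1, by omega⟩
    have h1 := hE.fS a b (NPr_older (by omega) hab)
    have h2 := hE.stp (s + 1) a b hab
    have h3 := hE.stp s a b (NPr_older (by omega) hab)
    constructor
    · rintro ⟨k1, k2⟩
      have k3 : ¬ σ b ≤ s := fun hh => by
        have := h3.2 hh
        omega
      have k4 := h2.1 (by omega)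
      exact ⟨h1.1 k1, by omega⟩
    · rintro ⟨k1, k2⟩
      have k3 : ¬ σ a ≤ s := fun hh => by
        have := h3.1 hh
        omega
      have k4 := h2.2 (by omega)
      exact ⟨h1.2 k1, by omega⟩
  · have h1 := hE.one a
    have h2 := hE.one b
    constructor
    · rintro ⟨_, k2⟩
      omega
    · rintro ⟨_, k2⟩
      omega

/-- the epoch ends at one half step -/
theorem Enz_sum {T r0 : ℕ} {S : Pt (Fin 3) X β φ → Prop} {σ : Pt (Fin 3) X β φ → ℕ} (hE : Epz v D T r0 S σ)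
    (w : Pt (Fin 3) X β φ) (f : ℕ → ℝ) :
    ∑ r ∈ range (2 * T), ind (Enz r0 S σ (r + 1) w) * f (r + 1 - r0) = ind (S w) * f (σ w) := by
  have h2 := hE.cap w
  have h3 := hE.one w
  by_cases h1 : S w
  · rw [ind_of h1, one_mul, Finset.sum_eq_single (r0 + σ w - 1)]
    · have e1 : r0 + σ w - 1 + 1 = r0 + σ w := by omega
      have e2 : r0 + σ w - r0 = σ w := by omega
      rw [e1, e2, ind_of ⟨h1, rfl⟩, one_mul]
    · intro r _ hr
      rw [ind_not, zero_mul]
      rintro ⟨a1, a2⟩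
      omega
    · intro hh
      exact absurd (Finset.mem_range.2 (by omega)) hh
  · rw [ind_not h1, zero_mul]
    refine Finset.sum_eq_zero fun r _ => ?_
    rw [ind_not (fun hh => h1 hh.1), zero_mul]

/-- what pays at the end `r + 1` -/
noncomputable def payz (h : D.Thick al) (v : ℕ → Finset (Fin 3) → X → (Fin 3 → β) → υ) (E : Finset (Fin 3)) (r : ℕ)
    (w : Pt (Fin 3) X β φ) : ℝ := if r % 2 = 1 then (D.P h 0).ce (NPr v D (r + 1)) (aJq h v E r) w else 0

theorem payz_nonneg (hv : Codes D v) (E : Finset (Fin 3)) (r : ℕ) {w : Pt (Fin 3) X β φ} (hw : (D.P h 0).p w ≠ 0) :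
    0 ≤ payz h v E r w := by
  unfold payz
  split_ifs with hr
  · rw [← kl_code_z hv hr E hw]
    exact FP.kl_nonneg (C9.clq_ac (Nat.le_succ r) hw) _
  · exact le_rfl

theorem E_payz (E : Finset (Fin 3)) (r : ℕ) : (D.P h 0).E (payz h v E r) ≤ (D.P h 0).E (aJq h v E r) := by
  unfold payz
  by_cases hr : r % 2 = 1
  · simp only [if_pos hr]
    exact le_of_eq ((D.P h 0).E_ce _ _)
  · simp only [if_neg hr]
    rw [FP.E_const]
    exact PB.E_aJ_nonneg E r

end gen

section run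

variable {X β γ φ : Type} [Fintype X] [Fintype β] [Fintype φ] [Nonempty X] [Nonempty β]
variable {D : HD (Fin 3) X β γ φ} {al : ℝ} {h : D.Thick al}
  {v : ℕ → Finset (Fin 3) → X → (Fin 3 → β) → Pt (Fin 3) X β φ} {N : Finset (Fin 3) → ℝ} {S : Finset (Finset (Fin 3))}
  {N1 : ℝ}

theorem e9z_nonneg {X1 X2 x dl : ℝ} (hdl : 0 < dl) (M : ℕ) : 0 ≤ e9z N1 X1 X2 x dl M := by
  unfold e9z
  positivity

/-- the conditions on the parameters -/
structure ParZ (N1 x p1 X1 X2 δ kp dl : ℝ) (M : ℕ) : Prop where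
  p0 : 0 ≤ p1
  X20 : 0 ≤ X2
  x0 : 0 < x
  xp : 2 ^ 10 * p1 ≤ x
  xk : 2 ^ 10 * kp ≤ x
  xX : 128 * Real.exp (X1 - X2) ≤ x
  dl0 : 0 < dl
  dl1 : dl ≤ 1
  xd : 2 ^ 10 * edz N1 X1 X2 dl ≤ x
  dd : δ ≤ 1 / 2
  sm : 2 * (M * Real.exp X1) * Real.exp (-(N1 * x ^ 2 / 2 ^ 18 - X2 - 1)) ≤ 1

/-- exceptional positions, weighted -/
theorem wsumz (R : Run h N S (AdmDep D) v) (hp : Prc N S N1) {dg : ℕ → X → ℝ} {prr : ℕ → Fin 3 → φ → φ} {T : ℕ}
    {Lam : ℝ} (H : D.Hyp dg prr al T Lam) {C E : Finset (Fin 3)} (hc : Cpl C E) (hEc : E.card ≤ 2) {ν : ℕ}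
    {Hr : Pt (Fin 3) X β φ → Prop} {p1 X1 X2 x δ kp dl : ℝ} {M : ℕ} (hpar : ParZ N1 x p1 X1 X2 δ kp dl M)
    (hR : RelZ h v C E ν p1 X1 Hr) {q : ℕ} (hν : ν ≤ q) (hq : q ≤ 2 * T)
    {W : Pt (Fin 3) X β φ → Prop} (hW : ∀ a b, NPr v D q a = NPr v D q b → (W a ↔ W b)) :
    (D.P h 0).E (fun w => ind (W w) * ∑ us : Fin M → Fin 3 → Option β, wz h v C ν us w *
      ind (exz h v C E ν Hr x us q w)) ≤
      (D.P h 0).E (fun w => ind (W w) * (e9z N1 X1 X2 x dl M + ind (¬ dgq h v dl q w))) := by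
  have e1 : (D.P h 0).E (fun w => ind (W w) * ∑ us : Fin M → Fin 3 → Option β, wz h v C ν us w *
      ind (exz h v C E ν Hr x us q w)) = ∑ us : Fin M → Fin 3 → Option β, (D.P h 0).E (fun w =>
        (ind (W w) * wz h v C ν us w) * (D.P h 0).ce (NPr v D q)
          (fun y => ind (exz h v C E ν Hr x us q y)) w) := by
    have e2 : ∀ us : Fin M → Fin 3 → Option β, (D.P h 0).E (fun w => (ind (W w) * wz h v C ν us w) *
        (D.P h 0).ce (NPr v D q) (fun y => ind (exz h v C E ν Hr x us q y)) w) = (D.P h 0).E (fun w =>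
            (ind (W w) * wz h v C ν us w) * ind (exz h v C E ν Hr x us q w)) := by
      intro us
      refine PB.E_mul_ce_on (D.P h 0) (fun a b ha hb hab => ?_) _
      rw [propext (hW a b hab), wz_fac R.codes C ν us (NPr_older hν hab)]
    rw [Finset.sum_congr rfl fun us _ => e2 us, ← FP.E_sum]
    refine (D.P h 0).E_congr fun w _ => ?_
    rw [Finset.mul_sum]
    exact Finset.sum_congr rfl fun us _ => by ring
  rw [e1]
  have e3 : (D.P h 0).E (fun w => ind (W w) * (e9z N1 X1 X2 x dl M + ind (¬ dgq h v dl q w))) =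
      ∑ us : Fin M → Fin 3 → Option β, (D.P h 0).E (fun w => (ind (W w) * wz h v C ν us w) *
        (e9z N1 X1 X2 x dl M + ind (¬ dgq h v dl q w))) := by
    rw [← FP.E_sum]
    refine (D.P h 0).E_congr fun w _ => ?_
    rw [← Finset.sum_mul, ← Finset.mul_sum, wz_sum, mul_one]
  rw [e3]
  refine Finset.sum_le_sum fun us _ => (D.P h 0).E_mono fun w hw => ?_
  refine mul_le_mul_of_nonneg_left ?_ (mul_nonneg (ind_nonneg _) (wz_nonneg us w))
  by_cases hd : dgq h v dl q w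
  · have h1 := exz_le R hp H hc hEc hR hpar.X20 hpar.x0 hpar.xX hpar.dl0 hpar.dl1 hpar.sm us hν hq hw hd
    have h2 := ind_nonneg (¬ dgq h v dl q w)
    linarith
  · rw [ind_of hd]
    have h1 : (D.P h 0).ce (NPr v D q) (fun y => ind (exz h v C E ν Hr x us q y)) w ≤ 1 :=
      (D.P h 0).ce_le_const (fun y _ => ind_le_one _) hw
    have h2 := e9z_nonneg (N1 := N1) (X1 := X1) (X2 := X2) (x := x) hpar.dl0 M
    linarith

/-- potential at the end of an epoch, one sample -/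
theorem end_ptz (R : Run h N S (AdmDep D) v) {C E : Finset (Fin 3)} (hc : Cpl C E) {T ν : ℕ}
    {Hr : Pt (Fin 3) X β φ → Prop} {p1 X1 X2 x δ kp dl : ℝ} {M : ℕ} (hpar : ParZ N1 x p1 X1 X2 δ kp dl M)
    (hR : RelZ h v C E ν p1 X1 Hr) (us : Fin M → Fin 3 → Option β) {r : ℕ} (hνr : ν ≤ r) (hr : r < 2 * T)
    {w : Pt (Fin 3) X β φ} (hw : (D.P h 0).p w ≠ 0)
    (hm : (D.P h 0).ce (NPr v D r) (fun y => ind (MJq h v δ E ν r y)) w < kp) :
    Phz h v T C E ν Hr x us (r + 1 - ν) w ≤ 3 * payz h v E r w + ind (exz h v C E ν Hr x us (r + 1) w) := by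
  obtain ⟨s, rfl⟩ : ∃ s, r = ν + s := ⟨r - ν, by omega⟩
  have e1 : ν + s + 1 - ν = s + 1 := by omega
  rw [e1]
  have e2 : ν + (s + 1) - 1 = ν + s := by omega
  have hm' : (D.P h 0).ce (NPr v D (ν + (s + 1) - 1)) (fun y => ind (MJq h v δ E ν (ν + (s + 1) - 1) y)) w < kp := by
    rw [e2]
    exact hm
  have hpay := payz_nonneg (h := h) R.codes E (ν + s) hw
  have h1le := Phz_le_one (h := h) (v := v) (T := T) (C := C) (E := E) (ν := ν) (Hr := Hr) hpar.x0 us (s + 1) hw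
  by_cases hex : exz h v C E ν Hr x us (ν + s + 1) w
  · rw [ind_of hex]
    linarith
  · rw [ind_not hex, add_zero]
    by_cases hodd : (ν + s) % 2 = 1
    · have h3 := end_pay_z R.codes hc (T := T) hR hpar.p0 hpar.x0 hpar.xp hpar.xk hpar.dd us (s := s + 1) (by omega)
        (by omega) (by omega) hw hm' hex
      unfold payz
      rw [if_pos hodd]
      exact h3
    · by_contra hcc
      have hP : 0 < Phz h v T C E ν Hr x us (s + 1) w := by linarith [not_le.1 hcc]
      exact hex (end_ex_z R.codes hc (T := T) hR hpar.p0 hpar.x0 hpar.xp hpar.xk hpar.dd us (s := s + 1) (by omega)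
        (by omega) (by omega) hw hm' hP)

variable {ι : Type} [Fintype ι]

/-- **the potentials at the ends** -/
theorem pot_end_z (R : Run h N S (AdmDep D) v) (hp : Prc N S N1) {dg : ℕ → X → ℝ} {prr : ℕ → Fin 3 → φ → φ} {T : ℕ}
    {Lam : ℝ} (H : D.Hyp dg prr al T Lam) {C E : Finset (Fin 3)} (hc : Cpl C E) (hEc : E.card ≤ 2)
    {p1 X1 X2 x δ kp dl m : ℝ} {M : ℕ} (hpar : ParZ N1 x p1 X1 X2 δ kp dl M) {r0 : ι → ℕ}
    {St : ι → Pt (Fin 3) X β φ → Prop} {σ : ι → Pt (Fin 3) X β φ → ℕ} {Hr : ι → Pt (Fin 3) X β φ → Prop}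
    (F : FamZ h v T C E r0 St σ Hr δ kp p1 X1 m) :
    ∑ k, (D.P h 0).E (fun w => ind (St k w) * ∑ us : Fin M → Fin 3 → Option β, wz h v C (r0 k) us w *
        Phz h v T C E (r0 k) (Hr k) x us (σ k w) w) ≤
      3 * m * ∑ r ∈ range (2 * T), (D.P h 0).E (aJq h v E r) + e9z N1 X1 X2 x dl M * ∑ k, (D.P h 0).Pr (St k) +
        m * Tny h v dl T := by
  classical
  have hm0 : 0 ≤ m := by
    obtain ⟨w, _⟩ := (D.P h 0).exists_p_ne
    exact (Finset.sum_nonneg fun k _ => ind_nonneg _).trans (F.st w 0)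
  have h1 : ∀ k, (D.P h 0).E (fun w => ind (St k w) * ∑ us : Fin M → Fin 3 → Option β,
      wz h v C (r0 k) us w * Phz h v T C E (r0 k) (Hr k) x us (σ k w) w) ≤
      ∑ r ∈ range (2 * T), (D.P h 0).E (fun w => ind (Enz (r0 k) (St k) (σ k) (r + 1) w) *
        (3 * payz h v E r w + ind (¬ dgq h v dl (r + 1) w))) +
        e9z N1 X1 X2 x dl M * (D.P h 0).Pr (St k) := by
    intro k
    have e1 : (D.P h 0).E (fun w => ind (St k w) * ∑ us : Fin M → Fin 3 → Option β,
        wz h v C (r0 k) us w * Phz h v T C E (r0 k) (Hr k) x us (σ k w) w) =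
        ∑ r ∈ range (2 * T), (D.P h 0).E (fun w => ind (Enz (r0 k) (St k) (σ k) (r + 1) w) *
          ∑ us : Fin M → Fin 3 → Option β, wz h v C (r0 k) us w * Phz h v T C E (r0 k) (Hr k) x us (r + 1 - r0 k) w) := by
      rw [← FP.E_sum]
      refine (D.P h 0).E_congr fun w _ => ?_
      exact (Enz_sum (F.ep k) w fun s => ∑ us : Fin M → Fin 3 → Option β, wz h v C (r0 k) us w *
        Phz h v T C E (r0 k) (Hr k) x us s w).symm
    have e2 : (D.P h 0).Pr (St k) = ∑ r ∈ range (2 * T), (D.P h 0).Pr (Enz (r0 k) (St k) (σ k) (r + 1)) := by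
      unfold FP.Pr
      rw [← FP.E_sum]
      refine (D.P h 0).E_congr fun w _ => ?_
      have := Enz_sum (F.ep k) w fun _ => 1
      simp only [mul_one] at this
      exact this.symm
    rw [e1, e2, Finset.mul_sum, ← Finset.sum_add_distrib]
    refine Finset.sum_le_sum fun r hr => ?_
    have hr' := Finset.mem_range.1 hr
    by_cases hνr : r0 k ≤ r
    · have h2 := wsumz R hp H hc hEc hpar (F.rel k) (show r0 k ≤ r + 1 by omega)
        (show r + 1 ≤ 2 * T by omega) (W := Enz (r0 k) (St k) (σ k) (r + 1)) (fun a b hab => Enz_fac (F.ep k) hab)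
      have h3 : (D.P h 0).E (fun w => ind (Enz (r0 k) (St k) (σ k) (r + 1) w) * ∑ us : Fin M → Fin 3 → Option β,
          wz h v C (r0 k) us w * Phz h v T C E (r0 k) (Hr k) x us (r + 1 - r0 k) w) ≤
          (D.P h 0).E (fun w => ind (Enz (r0 k) (St k) (σ k) (r + 1) w) * (3 * payz h v E r w) +
            ind (Enz (r0 k) (St k) (σ k) (r + 1) w) * ∑ us : Fin M → Fin 3 → Option β, wz h v C (r0 k) us w *
              ind (exz h v C E (r0 k) (Hr k) x us (r + 1) w)) := by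
        refine (D.P h 0).E_mono fun w hw => ?_
        rw [← mul_add]
        by_cases hE : Enz (r0 k) (St k) (σ k) (r + 1) w
        · refine mul_le_mul_of_nonneg_left ?_ (ind_nonneg _)
          have hmE := F.mvE k w hw hE.1
          have e5 : r0 k + σ k w - 1 = r := by
            have := hE.2
            omega
          rw [e5] at hmE
          have h4 : ∑ us : Fin M → Fin 3 → Option β, wz h v C (r0 k) us w *
              Phz h v T C E (r0 k) (Hr k) x us (r + 1 - r0 k) w ≤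
              ∑ us : Fin M → Fin 3 → Option β, wz h v C (r0 k) us w * (3 * payz h v E r w +
                ind (exz h v C E (r0 k) (Hr k) x us (r + 1) w)) := Finset.sum_le_sum fun us _ =>
            mul_le_mul_of_nonneg_left (end_ptz R hc hpar (F.rel k) us hνr hr' hw hmE) (wz_nonneg us w)
          refine h4.trans (le_of_eq ?_)
          simp only [mul_add, Finset.sum_add_distrib]
          rw [← Finset.sum_mul, wz_sum, one_mul]
        · rw [ind_not hE, zero_mul, zero_mul]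
      rw [FP.E_add] at h3
      have h5 : (D.P h 0).E (fun w => ind (Enz (r0 k) (St k) (σ k) (r + 1) w) * (e9z N1 X1 X2 x dl M +
          ind (¬ dgq h v dl (r + 1) w))) = e9z N1 X1 X2 x dl M * (D.P h 0).Pr (Enz (r0 k) (St k) (σ k) (r + 1)) +
          (D.P h 0).E (fun w => ind (Enz (r0 k) (St k) (σ k) (r + 1) w) * ind (¬ dgq h v dl (r + 1) w)) := by
        unfold FP.Pr
        rw [← FP.E_smul, ← FP.E_add]
        exact (D.P h 0).E_congr fun w _ => by ring
      have h6 : (D.P h 0).E (fun w => ind (Enz (r0 k) (St k) (σ k) (r + 1) w) *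
          (3 * payz h v E r w + ind (¬ dgq h v dl (r + 1) w))) =
          (D.P h 0).E (fun w => ind (Enz (r0 k) (St k) (σ k) (r + 1) w) * (3 * payz h v E r w)) +
          (D.P h 0).E (fun w => ind (Enz (r0 k) (St k) (σ k) (r + 1) w) * ind (¬ dgq h v dl (r + 1) w)) := by
        rw [← FP.E_add]
        exact (D.P h 0).E_congr fun w _ => by ring
      rw [h6]
      linarith
    · have h2 : ∀ w, ¬ Enz (r0 k) (St k) (σ k) (r + 1) w := fun w hE => by
        have h4 := (F.ep k).one w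
        have h5 := hE.2
        omega
      have h3 : (D.P h 0).Pr (Enz (r0 k) (St k) (σ k) (r + 1)) = 0 := by
        unfold FP.Pr
        rw [(D.P h 0).E_congr fun w _ => ind_not (h2 w), FP.E_const]
      rw [h3, mul_zero, add_zero]
      refine (D.P h 0).E_mono fun w _ => ?_
      rw [ind_not (h2 w), zero_mul, zero_mul]
  refine (Finset.sum_le_sum fun k _ => h1 k).trans ?_
  rw [Finset.sum_add_distrib, ← Finset.mul_sum]
  have h2 : ∑ k, ∑ r ∈ range (2 * T), (D.P h 0).E (fun w => ind (Enz (r0 k) (St k) (σ k) (r + 1) w) *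
        (3 * payz h v E r w + ind (¬ dgq h v dl (r + 1) w))) ≤
      3 * m * ∑ r ∈ range (2 * T), (D.P h 0).E (aJq h v E r) + m * Tny h v dl T := by
    rw [Finset.sum_comm]
    have h3 : ∀ r ∈ range (2 * T), ∑ k, (D.P h 0).E (fun w => ind (Enz (r0 k) (St k) (σ k) (r + 1) w) *
        (3 * payz h v E r w + ind (¬ dgq h v dl (r + 1) w))) ≤
        3 * m * (D.P h 0).E (aJq h v E r) + m * (D.P h 0).Pr (fun w => ¬ dgq h v dl (r + 1) w) := by
      intro r _
      rw [← FP.E_sum]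
      have h4 : (D.P h 0).E (fun w => ∑ k, ind (Enz (r0 k) (St k) (σ k) (r + 1) w) *
          (3 * payz h v E r w + ind (¬ dgq h v dl (r + 1) w))) ≤
          (D.P h 0).E (fun w => m * (3 * payz h v E r w + ind (¬ dgq h v dl (r + 1) w))) := by
        refine (D.P h 0).E_mono fun w hw => ?_
        rw [← Finset.sum_mul]
        refine mul_le_mul_of_nonneg_right (F.en w (r + 1)) ?_
        exact add_nonneg (mul_nonneg (by norm_num) (payz_nonneg R.codes E r hw)) (ind_nonneg _)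
      rw [FP.E_smul, FP.E_add, FP.E_smul] at h4
      have h5 := mul_le_mul_of_nonneg_left (E_payz (h := h) (v := v) E r) hm0
      have h6 : (D.P h 0).Pr (fun w => ¬ dgq h v dl (r + 1) w) = (D.P h 0).E (fun w => ind (¬ dgq h v dl (r + 1) w)) := rfl
      rw [h6]
      linarith
    refine (Finset.sum_le_sum h3).trans ?_
    rw [Finset.sum_add_distrib, ← Finset.mul_sum, ← Finset.mul_sum]
    refine add_le_add le_rfl (mul_le_mul_of_nonneg_left (le_of_eq ?_) hm0)
    rw [PB.sum_two]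
    unfold Tny
    refine Finset.sum_congr rfl fun t _ => ?_
    have h7 : (D.P h 0).Pr (fun w => ¬ dgq h v dl (2 * t + 1 + 1) w) = 0 := by
      unfold FP.Pr
      rw [(D.P h 0).E_congr fun w _ => ind_not (p := ¬ dgq h v dl (2 * t + 1 + 1) w) (fun hh => hh fun h8 => by omega),
        FP.E_const]
    rw [h7, add_zero]
  linarith

/-- **the potentials at the starts** -/
theorem pot_start_z (R : Run h N S (AdmDep D) v) (hp : Prc N S N1) {dg : ℕ → X → ℝ} {prr : ℕ → Fin 3 → φ → φ} {T : ℕ}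
    {Lam : ℝ} (H : D.Hyp dg prr al T Lam) {C E : Finset (Fin 3)} (hc : Cpl C E) (hEc : E.card ≤ 2)
    {p1 X1 X2 x δ kp dl m : ℝ} {M : ℕ} (hpar : ParZ N1 x p1 X1 X2 δ kp dl M) {r0 : ι → ℕ}
    {St : ι → Pt (Fin 3) X β φ → Prop} {σ : ι → Pt (Fin 3) X β φ → ℕ} {Hr : ι → Pt (Fin 3) X β φ → Prop}
    (F : FamZ h v T C E r0 St σ Hr δ kp p1 X1 m) :
    ∑ k, (D.P h 0).E (fun w => ind (St k w) * ∑ us : Fin M → Fin 3 → Option β, wz h v C (r0 k) us w *
        ind (0 < Phz h v T C E (r0 k) (Hr k) x us 0 w)) ≤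
      e9z N1 X1 X2 x dl M * ∑ k, (D.P h 0).Pr (St k) + m * Tny h v dl T := by
  classical
  have hlt : ∀ k, r0 k < 2 * T := by
    intro k
    obtain ⟨w, _⟩ := (D.P h 0).exists_p_ne
    have h1 := (F.ep k).one w
    have h2 := (F.ep k).cap w
    omega
  have h1 : ∀ k, (D.P h 0).E (fun w => ind (St k w) * ∑ us : Fin M → Fin 3 → Option β,
      wz h v C (r0 k) us w * ind (0 < Phz h v T C E (r0 k) (Hr k) x us 0 w)) ≤
      e9z N1 X1 X2 x dl M * (D.P h 0).Pr (St k) +
        (D.P h 0).E (fun w => ind (St k w) * ind (¬ dgq h v dl (r0 k) w)) := by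
    intro k
    set ν := r0 k with hν
    have hνT : ν ≤ 2 * T := (hlt k).le
    have hWf : ∀ a b, NPr v D ν a = NPr v D ν b → ((St k a ∧ dgq h v dl ν a) ↔ (St k b ∧ dgq h v dl ν b)) := by
      intro a b hab
      have a1 := (F.ep k).fS a b hab
      have a2 : dgq h v dl ν a ↔ dgq h v dl ν b := by
        unfold dgq
        rw [(D.P h 0).Fac_m (NPr v D ν) a b hab,
          (D.P h 0).Fac_m (NPr v D (ν - 1)) a b (NPr_older (Nat.sub_le ν 1) hab)]
      rw [a1, a2]
    have h2 := wsumz R hp H hc hEc hpar (F.rel k) (le_refl ν) hνT (W := fun w => St k w ∧ dgq h v dl ν w) hWf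
    have h3 : (D.P h 0).E (fun w => ind (St k w) * ∑ us : Fin M → Fin 3 → Option β, wz h v C ν us w *
        ind (0 < Phz h v T C E ν (Hr k) x us 0 w)) ≤
        (D.P h 0).E (fun w => ind (St k w ∧ dgq h v dl ν w) * (∑ us : Fin M → Fin 3 → Option β, wz h v C ν us w *
          ind (exz h v C E ν (Hr k) x us ν w)) + ind (St k w) * ind (¬ dgq h v dl ν w)) := by
      refine (D.P h 0).E_mono fun w hw => ?_
      by_cases hd : dgq h v dl ν w
      · by_cases hs : St k w
        · rw [ind_of hs, ind_of (p := St k w ∧ dgq h v dl ν w) ⟨hs, hd⟩, one_mul, one_mul, one_mul]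
          have h4 := ind_nonneg (¬ dgq h v dl ν w)
          refine le_trans ?_ (le_add_of_nonneg_right h4)
          refine Finset.sum_le_sum fun us _ => mul_le_mul_of_nonneg_left (ind_mono fun hP => ?_) (wz_nonneg us w)
          exact start_ex_z R hp hc hEc (F.rel k) hpar.p0 hpar.X20 hpar.x0 hpar.xp hpar.dl0 hpar.xd us hνT hw hd hP
        · rw [ind_not hs, ind_not (p := St k w ∧ dgq h v dl ν w) (fun hh => hs hh.1), zero_mul,
            zero_mul, zero_mul, zero_add]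
      · rw [ind_of (p := ¬ dgq h v dl ν w) hd, ind_not (p := St k w ∧ dgq h v dl ν w) (fun hh => hd hh.2),
          zero_mul, zero_add]
        refine mul_le_mul_of_nonneg_left ?_ (ind_nonneg _)
        rw [← wz_sum (h := h) (v := v) C ν M w]
        exact Finset.sum_le_sum fun us _ => mul_le_of_le_one_right (wz_nonneg us w) (ind_le_one _)
    rw [FP.E_add] at h3
    have h7 : (D.P h 0).E (fun w => ind (St k w ∧ dgq h v dl ν w) *
        (e9z N1 X1 X2 x dl M + ind (¬ dgq h v dl ν w))) ≤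
        e9z N1 X1 X2 x dl M * (D.P h 0).Pr (St k) := by
      unfold FP.Pr
      rw [← FP.E_smul]
      refine (D.P h 0).E_mono fun w _ => ?_
      have h8 := e9z_nonneg (N1 := N1) (X1 := X1) (X2 := X2) (x := x) hpar.dl0 M
      by_cases hh : St k w ∧ dgq h v dl ν w
      · rw [ind_of hh, ind_of hh.1, ind_not (p := ¬ dgq h v dl ν w) (fun h9 => h9 hh.2)]
        linarith
      · rw [ind_not hh, zero_mul]
        exact mul_nonneg h8 (ind_nonneg _)
    linarith
  refine (Finset.sum_le_sum fun k _ => h1 k).trans ?_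
  rw [Finset.sum_add_distrib, ← Finset.mul_sum]
  refine add_le_add le_rfl ?_
  have hm0 : 0 ≤ m := by
    obtain ⟨w, _⟩ := (D.P h 0).exists_p_ne
    exact (Finset.sum_nonneg fun k _ => ind_nonneg _).trans (F.st w 0)
  have e1 : ∀ k, (D.P h 0).E (fun w => ind (St k w) * ind (¬ dgq h v dl (r0 k) w)) =
      ∑ r ∈ range (2 * T), (D.P h 0).E (fun w => ind (St k w ∧ r0 k = r) * ind (¬ dgq h v dl r w)) := by
    intro k
    rw [← FP.E_sum]
    refine (D.P h 0).E_congr fun w _ => ?_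
    rw [Finset.sum_eq_single_of_mem (r0 k) (Finset.mem_range.2 (hlt k))]
    · rw [ind_cg (show St k w ↔ St k w ∧ r0 k = r0 k from ⟨fun hh => ⟨hh, rfl⟩, fun hh => hh.1⟩)]
    · intro r _ hr
      rw [ind_not (fun hh : St k w ∧ r0 k = r => hr hh.2.symm), zero_mul]
  rw [Finset.sum_congr rfl fun k _ => e1 k, Finset.sum_comm]
  have h3 : ∀ r ∈ range (2 * T), ∑ k, (D.P h 0).E (fun w => ind (St k w ∧ r0 k = r) * ind (¬ dgq h v dl r w)) ≤
      m * (D.P h 0).Pr (fun w => ¬ dgq h v dl r w) := by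
    intro r _
    rw [← FP.E_sum]
    unfold FP.Pr
    rw [← FP.E_smul]
    refine (D.P h 0).E_mono fun w _ => ?_
    rw [← Finset.sum_mul]
    exact mul_le_mul_of_nonneg_right (F.st w r) (ind_nonneg _)
  refine (Finset.sum_le_sum h3).trans ?_
  rw [← Finset.mul_sum]
  refine mul_le_mul_of_nonneg_left (le_of_eq ?_) hm0
  rw [PB.sum_two]
  unfold Tny
  refine Finset.sum_congr rfl fun t _ => ?_
  have h7 : (D.P h 0).Pr (fun w => ¬ dgq h v dl (2 * t) w) = 0 := by
    unfold FP.Pr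
    rw [(D.P h 0).E_congr fun w _ => ind_not (p := ¬ dgq h v dl (2 * t) w) (fun hh => hh fun h8 => by omega),
      FP.E_const]
  rw [h7, zero_add]

/-- **REST: THIN STATIC RELATIONS, THE SUM OVER ALL EPOCHS** -/
theorem rest_sum (R : Run h N S (AdmDep D) v) (hp : Prc N S N1) {dg : ℕ → X → ℝ} {prr : ℕ → Fin 3 → φ → φ} {T : ℕ}
    {Lam : ℝ} (H : D.Hyp dg prr al T Lam) {C E : Finset (Fin 3)} (hc : Cpl C E) (hCc : C.card ≤ 2) (hEc : E.card ≤ 2)
    {p1 X1 X2 x δ kp dl m : ℝ} {M : ℕ} (hpar : ParZ N1 x p1 X1 X2 δ kp dl M) {r0 : ι → ℕ}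
    {St : ι → Pt (Fin 3) X β φ → Prop} {σ : ι → Pt (Fin 3) X β φ → ℕ} {Hr : ι → Pt (Fin 3) X β φ → Prop}
    (F : FamZ h v T C E r0 St σ Hr δ kp p1 X1 m) {g : ι → ℕ → Pt (Fin 3) X β φ → ℝ}
    (hg : ∀ k s, Fac (fun w : Pt (Fin 3) X β φ => (w.1, PJ C w, NPr v D (r0 k + s) w)) (g k s))
    (hg0 : ∀ k s w, 0 ≤ g k s w) (hg1 : ∀ k s w, g k s w ≤ 1) :
    ∑ k, (D.P h 0).E (fun w => ind (St k w) * (ind (Hr k w) * g k (σ k w) w)) ≤
      x / 2 * ∑ k, (D.P h 0).E (fun w => ind (St k w) * g k (σ k w) w) +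
      24 * m * x * (∑ r ∈ range (2 * T), (D.P h 0).E (aJq h v C r) + ∑ r ∈ range (2 * T), (D.P h 0).E (aJq h v E r)) +
      2 * (1 + 8 * x) * (e9z N1 X1 X2 x dl M * ∑ k, (D.P h 0).Pr (St k) + m * Tny h v dl T) +
      6 / (x * (M + 1)) * ∑ k, (D.P h 0).Pr (St k) := by
  classical
  have hx := hpar.x0
  have h1 : ∀ k, (D.P h 0).E (fun w => ind (St k w) * (ind (Hr k w) * g k (σ k w) w)) ≤
      x / 2 * (D.P h 0).E (fun w => ind (St k w) * g k (σ k w) w) +
      ((8 * x) * (D.P h 0).E (fun w => ind (St k w) * ∑ us : Fin M → Fin 3 → Option β, wz h v C (r0 k) us w *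
        Phz h v T C E (r0 k) (Hr k) x us (σ k w) w) +
        (D.P h 0).E (fun w => ind (St k w) * ∑ us : Fin M → Fin 3 → Option β, wz h v C (r0 k) us w *
          ind (0 < Phz h v T C E (r0 k) (Hr k) x us 0 w))) +
      ((8 * x) * (D.P h 0).E (fun w => ind (St k w) * ∑ us : Fin M → Fin 3 → Option β, wz h v E (r0 k) us w *
        Phz h v T E C (r0 k) (Hr k) x us (σ k w) w) +
        (D.P h 0).E (fun w => ind (St k w) * ∑ us : Fin M → Fin 3 → Option β, wz h v E (r0 k) us w *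
          ind (0 < Phz h v T E C (r0 k) (Hr k) x us 0 w))) +
      6 / (x * (M + 1)) * (D.P h 0).Pr (St k) := by
    intro k
    have h2 := epoch_z (h := h) R.codes H hc (F.rel k).stz (F.ep k) (hg k) (hg0 k) (hg1 k) hx M
    refine h2.trans (le_of_eq ?_)
    have e1 : ∀ (A B : Finset (Fin 3)), (D.P h 0).E (fun w => ind (St k w) * ∑ us : Fin M → Fin 3 → Option β,
        wz h v A (r0 k) us w * (8 * x * Phz h v T A B (r0 k) (Hr k) x us (σ k w) w +
          ind (0 < Phz h v T A B (r0 k) (Hr k) x us 0 w))) =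
        (8 * x) * (D.P h 0).E (fun w => ind (St k w) * ∑ us : Fin M → Fin 3 → Option β, wz h v A (r0 k) us w *
          Phz h v T A B (r0 k) (Hr k) x us (σ k w) w) +
        (D.P h 0).E (fun w => ind (St k w) * ∑ us : Fin M → Fin 3 → Option β, wz h v A (r0 k) us w *
          ind (0 < Phz h v T A B (r0 k) (Hr k) x us 0 w)) := by
      intro A B
      rw [← FP.E_smul, ← FP.E_add]
      refine (D.P h 0).E_congr fun w _ => ?_
      have e2 : ∑ us : Fin M → Fin 3 → Option β, wz h v A (r0 k) us w *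
          (8 * x * Phz h v T A B (r0 k) (Hr k) x us (σ k w) w + ind (0 < Phz h v T A B (r0 k) (Hr k) x us 0 w)) =
          8 * x * ∑ us : Fin M → Fin 3 → Option β, wz h v A (r0 k) us w *
            Phz h v T A B (r0 k) (Hr k) x us (σ k w) w +
          ∑ us : Fin M → Fin 3 → Option β, wz h v A (r0 k) us w *
            ind (0 < Phz h v T A B (r0 k) (Hr k) x us 0 w) := by
        rw [Finset.mul_sum, ← Finset.sum_add_distrib]
        exact Finset.sum_congr rfl fun us _ => by ring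
      rw [e2]
      ring
    rw [e1 C E, e1 E C]
  refine (Finset.sum_le_sum fun k _ => h1 k).trans ?_
  rw [Finset.sum_add_distrib, Finset.sum_add_distrib, Finset.sum_add_distrib, Finset.sum_add_distrib,
    Finset.sum_add_distrib, ← Finset.mul_sum, ← Finset.mul_sum, ← Finset.mul_sum, ← Finset.mul_sum]
  have a1 := pot_end_z R hp H hc hEc hpar F
  have a2 := pot_start_z R hp H hc hEc hpar F
  have a3 := pot_end_z R hp H hc.swap hCc hpar F.swap
  have a4 := pot_start_z R hp H hc.swap hCc hpar F.swap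
  have h8 : 0 ≤ 8 * x := by linarith
  have b1 := mul_le_mul_of_nonneg_left a1 h8
  have b3 := mul_le_mul_of_nonneg_left a3 h8
  nlinarith

end run

/-- **REST in the run of the thin level** : increments `9 n Lam` -/
theorem rest_le {X β γ φ : Type} [Fintype X] [Fintype β] [Fintype φ] [Nonempty X] [Nonempty β]
    {D : HD (Fin 3) X β γ φ} {al : ℝ} {h : D.Thick al} {v : ℕ → Finset (Fin 3) → X → (Fin 3 → β) → Pt (Fin 3) X β φ}
    {ι : Type} [Fintype ι] {n N1 : ℝ} (hn : 1 ≤ n) (hN1 : 1 ≤ N1)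
    (R : Run h (pr3 (Fin 3) n N1) (SS1 (Fin 3)) (AdmDep D) v) (hp : Prc (pr3 (Fin 3) n N1) (SS1 (Fin 3)) N1)
    {dg : ℕ → X → ℝ} {prr : ℕ → Fin 3 → φ → φ} {T : ℕ}
    {Lam : ℝ} (H : D.Hyp dg prr al T Lam) {C E : Finset (Fin 3)} (hc : Cpl C E) (hCc : C.card ≤ 2) (hEc : E.card ≤ 2)
    {p1 X1 X2 x δ kp dl m : ℝ} {M : ℕ} (hpar : ParZ N1 x p1 X1 X2 δ kp dl M) {r0 : ι → ℕ}
    {St : ι → Pt (Fin 3) X β φ → Prop} {σ : ι → Pt (Fin 3) X β φ → ℕ} {Hr : ι → Pt (Fin 3) X β φ → Prop}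
    (F : FamZ h v T C E r0 St σ Hr δ kp p1 X1 m) {g : ι → ℕ → Pt (Fin 3) X β φ → ℝ}
    (hg : ∀ k s, Fac (fun w : Pt (Fin 3) X β φ => (w.1, PJ C w, NPr v D (r0 k + s) w)) (g k s))
    (hg0 : ∀ k s w, 0 ≤ g k s w) (hg1 : ∀ k s w, g k s w ≤ 1) :
    ∑ k, (D.P h 0).E (fun w => ind (St k w) * (ind (Hr k w) * g k (σ k w) w)) ≤
      x / 2 * ∑ k, (D.P h 0).E (fun w => ind (St k w) * g k (σ k w) w) + 432 * m * x * n * Lam +
      2 * (1 + 8 * x) * (e9z N1 X1 X2 x dl M * ∑ k, (D.P h 0).Pr (St k) + m * Tny h v dl T) +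
      6 / (x * (M + 1)) * ∑ k, (D.P h 0).Pr (St k) := by
  have h1 := rest_sum R hp H hc hCc hEc hpar F hg hg0 hg1
  have hm0 : 0 ≤ m := by
    obtain ⟨w, _⟩ := (D.P h 0).exists_p_ne
    exact (Finset.sum_nonneg fun k _ => ind_nonneg _).trans (F.st w 0)
  have h2 := incr hn hN1 R H C
  have h3 := incr hn hN1 R H E
  have h4 : 0 ≤ 24 * m * x := mul_nonneg (mul_nonneg (by norm_num) hm0) hpar.x0.le
  have h5 := mul_le_mul_of_nonneg_left (add_le_add h2 h3) h4
  linarith

end Pool.Agent.GMH.RZ
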