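import Pool.Agent.GMH.MVN
import Pool.Agent.GMH.RZ6
import Pool.Agent.GMH.TDP

/-!
# GMH/ConTM: the numbers of the clocks, the moved tuples, the vertex sets, REST, stretches (A5 CON, helper41)

`Ev P` : for all large `c0` and all `Lam ≥ 2`; `ell` = the logarithmic scale of everything polynomial in `N1`, `n`, `exp Lam`;
`ell ≪ pe ≪ pQ ≪ pQ ^ 2` : `ell_pe`, `pe_pQ`, `pQ_sq`.
* parameters `y0 = pQ ^ 3 / N1`, `yp = n ^ 4 y0`, `pi2 = N1 ^ -4`, `k2 = kb ^ (1/2)`, `k4 = kb ^ (1/4)`, `kl = exp (- pQ / 2)`,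
  `e0 = N1 ^ 2`, `uR = n ^ -2`, `lamV = x ^ -(ka + 60)`, `uV = x ^ -(ka + kg + 120)`, `uex = x ^ -m1`;
* every final term is `≤ (pw Lam K)⁻¹`, `K` arbitrary.
-/

set_option autoImplicit false
set_option linter.unusedSectionVars false

namespace Pool.Agent.GMH.CTM

open Pool.Agent.GMH Pool.Agent.GMH.V3 Pool.Agent.GMH.MVN

/-- for all large `c0`, uniformly in `Lam` -/
def Ev (P : ℕ → ℝ → Prop) : Prop := ∃ c0m : ℕ, ∀ c0 ≥ c0m, ∀ Lam : ℝ, 2 ≤ Lam → P c0 Lam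

theorem Ev.and {P Q : ℕ → ℝ → Prop} (hP : Ev P) (hQ : Ev Q) : Ev (fun c0 Lam => P c0 Lam ∧ Q c0 Lam) := by
  obtain ⟨a, ha⟩ := hP
  obtain ⟨b, hb⟩ := hQ
  exact ⟨max a b, fun c0 hc Lam hL => ⟨ha c0 (le_trans (le_max_left _ _) hc) Lam hL,
    hb c0 (le_trans (le_max_right _ _) hc) Lam hL⟩⟩

theorem Ev.mono {P Q : ℕ → ℝ → Prop} (hP : Ev P) (h : ∀ c0 Lam, 2 ≤ Lam → P c0 Lam → Q c0 Lam) : Ev Q := by
  obtain ⟨a, ha⟩ := hP
  exact ⟨a, fun c0 hc Lam hL => h c0 Lam hL (ha c0 hc Lam hL)⟩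

theorem Ev.of {P : ℕ → ℝ → Prop} (h : ∀ c0 Lam, 2 ≤ Lam → P c0 Lam) : Ev P := ⟨0, fun c0 _ Lam hL => h c0 Lam hL⟩

theorem Ev.ge (k : ℕ) : Ev (fun c0 _ => k ≤ c0) := ⟨k, fun _ hc _ _ => hc⟩

noncomputable section

/-- the logarithmic scale -/
def ell (Lam : ℝ) (A c0 : ℕ) : ℝ := (c1F A c0 : ℝ) * Lam + (c0 : ℝ) * Lam + 1

def y0 (Lam : ℝ) (A c0 : ℕ) : ℝ := pw Lam (24 * c0) / pw Lam (c1F A c0)
def yp (Lam : ℝ) (A c0 : ℕ) : ℝ := pw Lam (28 * c0) / pw Lam (c1F A c0)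
def pi2 (Lam : ℝ) (A c0 : ℕ) : ℝ := (pw Lam (4 * c1F A c0))⁻¹
def k2 (Lam : ℝ) (ka c0 : ℕ) : ℝ := Real.exp (-(pe Lam ka c0 / 2))
def k4 (Lam : ℝ) (ka c0 : ℕ) : ℝ := Real.exp (-(pe Lam ka c0 / 4))
def kl (Lam : ℝ) (c0 : ℕ) : ℝ := Real.exp (-(pQ Lam c0 / 2))
def e0 (Lam : ℝ) (A c0 : ℕ) : ℝ := pw Lam (2 * c1F A c0)
def uR (Lam : ℝ) (c0 : ℕ) : ℝ := (pw Lam (2 * c0))⁻¹
def lamV (Lam : ℝ) (ka : ℕ) : ℝ := (pw Lam (ka + 60))⁻¹
def uV (Lam : ℝ) (ka kg : ℕ) : ℝ := (pw Lam (ka + kg + 120))⁻¹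
def uex (Lam : ℝ) (m1 : ℕ) : ℝ := (pw Lam m1)⁻¹
/-- the number of the samples -/
def MQ (Lam : ℝ) (c0 : ℕ) : ℕ := ⌈Real.exp (pQ Lam c0 ^ 2)⌉₊

end

section scale

variable {Lam : ℝ} (hL : 2 ≤ Lam)

include hL

theorem one_ell (A c0 : ℕ) : 1 ≤ ell Lam A c0 := by
  unfold ell
  have : 0 ≤ (c1F A c0 : ℝ) * Lam + (c0 : ℝ) * Lam := by positivity
  linarith

/-- powers of `N1` and `n` -/
theorem pw_ell (A c0 : ℕ) {a k : ℕ} (h : a ≤ k * (c1F A c0 + c0)) : pw Lam a ≤ Real.exp (k * ell Lam A c0) := by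
  refine (pw_mono hL h).trans ((pw_exp hL _).trans (Real.exp_le_exp.2 ?_))
  unfold ell
  push_cast
  have hk : (0 : ℝ) ≤ k := Nat.cast_nonneg k
  nlinarith

theorem inv_ell (A c0 : ℕ) {a k : ℕ} (h : a ≤ k * (c1F A c0 + c0)) : Real.exp (-(k * ell Lam A c0)) ≤ (pw Lam a)⁻¹ := by
  rw [Real.exp_neg]
  exact inv_anti₀ (pw_pos hL _) (pw_ell hL A c0 h)

theorem cst_ell (A c0 : ℕ) {c : ℝ} {k : ℕ} (hc : c ≤ 2 ^ k) : c ≤ Real.exp (k * ell Lam A c0) := by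
  refine (cexp k hc).trans (Real.exp_le_exp.2 ?_)
  have hk : (0 : ℝ) ≤ k := Nat.cast_nonneg k
  nlinarith [one_ell hL A c0]

theorem Lam_ell (A : ℕ) {c0 : ℕ} (hc : 1 ≤ c0) : Lam ≤ ell Lam A c0 := by
  unfold ell
  have h1 : (1 : ℝ) ≤ c0 := by exact_mod_cast hc
  have h2 : 0 ≤ (c1F A c0 : ℝ) * Lam := by positivity
  nlinarith

end scale

/-- `K ell ≤ pe` -/
theorem ell_pe (A ka K : ℕ) : Ev (fun c0 Lam => (K : ℝ) * ell Lam A c0 ≤ pe Lam ka c0) := by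
  obtain ⟨c0m, h⟩ := big A ka K
  exact ⟨c0m, fun c0 hc Lam hL => (h c0 hc).2 Lam hL⟩

/-- `K pe ≤ pQ` -/
theorem pe_pQ (ka K : ℕ) : Ev (fun c0 Lam => (K : ℝ) * pe Lam ka c0 ≤ pQ Lam c0) := by
  refine ⟨K + 1, fun c0 hc Lam hL => ?_⟩
  have h1 := pe_le_n hL ka c0
  have h2 : (K : ℝ) ≤ pw Lam (7 * c0) := by
    refine le_trans ?_ (pw_four hL (7 * c0))
    have h3 : K < 4 ^ K := Nat.lt_pow_self (by norm_num)
    have h4 : (4 : ℕ) ^ K ≤ 4 ^ (7 * c0) := Nat.pow_le_pow_right (by norm_num) (by omega)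
    exact_mod_cast h3.le.trans h4
  calc (K : ℝ) * pe Lam ka c0 ≤ pw Lam (7 * c0) * pw Lam c0 := by
        refine mul_le_mul h2 h1 ?_ (pw_pos hL _).le
        unfold pe
        exact div_nonneg (pw_pos hL _).le (pw_pos hL _).le
    _ = pQ Lam c0 := by
      unfold pQ
      rw [← pw_add hL]
      congr 1
      ring

/-- `K ≤ pQ`, so `K pQ ≤ pQ ^ 2` -/
theorem K_pQ (K : ℕ) : Ev (fun c0 Lam => (K : ℝ) ≤ pQ Lam c0) := by
  refine ⟨K + 1, fun c0 hc Lam hL => ?_⟩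
  unfold pQ
  refine le_trans ?_ (pw_four hL (8 * c0))
  have h3 : K < 4 ^ K := Nat.lt_pow_self (by norm_num)
  have h4 : (4 : ℕ) ^ K ≤ 4 ^ (8 * c0) := Nat.pow_le_pow_right (by norm_num) (by omega)
  exact_mod_cast h3.le.trans h4

theorem pQ_pos {Lam : ℝ} (hL : 2 ≤ Lam) (c0 : ℕ) : 0 < pQ Lam c0 := pw_pos hL _

theorem pe_pos {Lam : ℝ} (hL : 2 ≤ Lam) (ka c0 : ℕ) : 0 < pe Lam ka c0 := div_pos (pw_pos hL _) (pw_pos hL _)

/-- all scales -/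
theorem scales (A ka K : ℕ) : Ev (fun c0 Lam => (K : ℝ) * ell Lam A c0 ≤ pe Lam ka c0 ∧
    (K : ℝ) * pe Lam ka c0 ≤ pQ Lam c0 ∧ (K : ℝ) * pQ Lam c0 ≤ pQ Lam c0 ^ 2 ∧ K + 1 ≤ c0) := by
  refine (((ell_pe A ka K).and (pe_pQ ka K)).and ((K_pQ K).and (Ev.ge (K + 1)))).mono fun c0 Lam hL h => ?_
  obtain ⟨⟨h1, h2⟩, h3, h4⟩ := h
  refine ⟨h1, h2, ?_, h4⟩
  rw [sq]
  exact mul_le_mul_of_nonneg_right h3 (pQ_pos hL c0).le

/-! ## small constants -/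

/-- the conditions on `d0` -/
theorem d0_small (A ka : ℕ) : Ev (fun c0 Lam => 12 * d0 Lam c0 ≤ Real.exp (-(4 * Lam)) ∧ 12 * d0 Lam c0 ≤ k2 Lam ka c0 ∧
    12 * d0 Lam c0 ≤ pi2 Lam A c0 ∧ d0 Lam c0 ≤ 1 / 12 ∧ d0 Lam c0 < Real.log 2 ∧ d0 Lam c0 ≤ 1) := by
  refine (scales A ka 16).mono fun c0 Lam hL ⟨h1, h2, _, h4⟩ => ?_
  have o := one_ell hL A c0
  have l := Lam_ell hL A (c0 := c0) (by omega)
  have p := pe_pos hL ka c0
  push_cast at h1 h2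
  have key : ∀ y : ℝ, 4 * ell Lam A c0 + y ≤ pQ Lam c0 → 12 * d0 Lam c0 ≤ Real.exp (-y) := by
    intro y hy
    unfold d0
    have h5 : (12 : ℝ) ≤ Real.exp ((4 : ℕ) * ell Lam A c0) := cst_ell hL A c0 (k := 4) (by norm_num)
    calc 12 * Real.exp (-pQ Lam c0) ≤ Real.exp ((4 : ℕ) * ell Lam A c0) * Real.exp (-pQ Lam c0) :=
          mul_le_mul_of_nonneg_right h5 (Real.exp_pos _).le
      _ = Real.exp (4 * ell Lam A c0 - pQ Lam c0) := by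
        rw [← Real.exp_add]
        push_cast
        rfl
      _ ≤ Real.exp (-y) := Real.exp_le_exp.2 (by linarith)
  have a0 : 12 * d0 Lam c0 ≤ 1 := by
    have := key 0 (by linarith)
    simpa using this
  refine ⟨key _ (by linarith), key _ (by linarith), ?_, by linarith, ?_, by linarith⟩
  · refine (key (4 * ell Lam A c0) (by linarith)).trans ?_
    have := inv_ell hL A c0 (a := 4 * c1F A c0) (k := 4) (by omega)
    push_cast at this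
    exact this
  · have := Real.log_two_gt_d9
    linarith

theorem kl_eq {Lam : ℝ} (c0 : ℕ) : d0 Lam c0 / kl Lam c0 = Real.exp (-(pQ Lam c0 / 2)) := by
  unfold d0 kl
  rw [← Real.exp_sub]
  congr 1
  ring

/-! ## the calculus of exponentials -/

theorem mulE {u v a b : ℝ} (hv0 : 0 ≤ v) (hu : u ≤ Real.exp a) (hv : v ≤ Real.exp b) : u * v ≤ Real.exp (a + b) := by
  rw [Real.exp_add]
  exact mul_le_mul hu hv hv0 (Real.exp_pos _).le

theorem addE {u v a b c : ℝ} (hu : u ≤ Real.exp a) (hv : v ≤ Real.exp b) (ha : a + 1 ≤ c) (hb : b + 1 ≤ c) :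
    u + v ≤ Real.exp c := by
  have h1 : (2 : ℝ) ≤ Real.exp 1 := by
    have := Real.add_one_le_exp (1 : ℝ)
    linarith
  have h2 : Real.exp a ≤ Real.exp (c - 1) := Real.exp_le_exp.2 (by linarith)
  have h3 : Real.exp b ≤ Real.exp (c - 1) := Real.exp_le_exp.2 (by linarith)
  have h4 : Real.exp c = Real.exp 1 * Real.exp (c - 1) := by
    rw [← Real.exp_add]
    congr 1
    ring
  have h5 := Real.exp_pos (c - 1)
  rw [h4]
  nlinarith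

theorem leE {a b : ℝ} (h : a ≤ b) : Real.exp a ≤ Real.exp b := Real.exp_le_exp.2 h

/-- the number of the removals -/
theorem NL_ell {Lam : ℝ} (hL : 2 ≤ Lam) (A : ℕ) {c0 : ℕ} (hc : 1 ≤ c0) {NL : ℝ}
    (hN : NL ≤ 100 * (pw Lam c0 * pw Lam (c1F A c0) * Lam)) : NL ≤ Real.exp (9 * ell Lam A c0) := by
  have l := Lam_ell hL A (c0 := c0) hc
  refine hN.trans ?_
  have b1 : (100 : ℝ) ≤ Real.exp ((7 : ℕ) * ell Lam A c0) := cst_ell hL A c0 (k := 7) (by norm_num)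
  have b2 := pw_exp hL c0
  have b3 := pw_exp hL (c1F A c0)
  have b4 := Lam_le_exp hL
  have c1 := pw_pos hL c0
  have c2 := pw_pos hL (c1F A c0)
  have hL0 : 0 ≤ Lam := by linarith
  refine (mulE (by positivity) b1 (mulE hL0 (mulE c2.le b2 b3) b4)).trans (leE ?_)
  have : (c0 : ℝ) * Lam + c1F A c0 * Lam ≤ ell Lam A c0 := by unfold ell; linarith
  push_cast
  linarith

theorem To_ell {Lam : ℝ} (hL : 2 ≤ Lam) (A : ℕ) {c0 : ℕ} (hc : 1 ≤ c0) {To : ℝ}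
    (hN : To ≤ 100 * (pw Lam c0 * Lam)) : To ≤ Real.exp (9 * ell Lam A c0) := by
  refine NL_ell hL A hc (hN.trans ?_)
  have hL0 : 0 ≤ Lam := by linarith
  have h1 := pw_one hL (c1F A c0)
  have h2 := pw_pos hL c0
  have h3 : pw Lam c0 * Lam ≤ pw Lam c0 * pw Lam (c1F A c0) * Lam :=
    mul_le_mul_of_nonneg_right (le_mul_of_one_le_right h2.le h1) hL0
  linarith

/-- `(1 + 2 exp (4 Lam)) kl` -/
theorem kl_ell {Lam : ℝ} (hL : 2 ≤ Lam) (A : ℕ) {c0 : ℕ} (hc : 1 ≤ c0) :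
    (1 + 2 * Real.exp (4 * Lam)) * kl Lam c0 ≤ Real.exp (6 * ell Lam A c0 - pQ Lam c0 / 2) := by
  have l := Lam_ell hL A (c0 := c0) hc
  have o := one_ell hL A c0
  have h5 : (1 : ℝ) ≤ Real.exp (4 * Lam) := Real.one_le_exp (by linarith)
  have h6 : 1 + 2 * Real.exp (4 * Lam) ≤ Real.exp (2 + 4 * ell Lam A c0) := by
    have h7 := leE (show 4 * Lam ≤ 4 * ell Lam A c0 by linarith)
    have h8 : (3 : ℝ) ≤ Real.exp ((2 : ℕ) : ℝ) := cexp 2 (by norm_num)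
    have h9 := mulE (Real.exp_pos _).le h8 h7
    push_cast at h9
    linarith
  unfold kl
  refine (mulE (Real.exp_pos _).le h6 le_rfl).trans (leE ?_)
  linarith

/-! ## sums over the public removals -/

/-- (F2) -/
theorem f2_num (A ka : ℕ) : Ev (fun c0 Lam => ∀ NL : ℝ, 0 ≤ NL → NL ≤ 100 * (pw Lam c0 * pw Lam (c1F A c0) * Lam) →
    2 / k2 Lam ka c0 * (Real.exp (4 * Lam) * kb Lam ka c0 + (1 + 2 * Real.exp (4 * Lam)) * kl Lam c0) * NL ≤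
      (pw Lam (40 * (c1F A c0 + c0)))⁻¹) := by
  refine (scales A ka 256).mono fun c0 Lam hL ⟨h1, h2, _, h4⟩ NL hN0 hN => ?_
  have o := one_ell hL A c0
  have l := Lam_ell hL A (c0 := c0) (by omega)
  have p := pe_pos hL ka c0
  push_cast at h1 h2
  have e1 : 2 / k2 Lam ka c0 ≤ Real.exp (1 + pe Lam ka c0 / 2) := by
    unfold k2
    rw [Real.exp_neg, div_inv_eq_mul]
    exact (mulE (Real.exp_pos _).le (cexp 1 (c := 2) (by norm_num)) le_rfl).trans (leE (by push_cast; linarith))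
  have e2 : Real.exp (4 * Lam) * kb Lam ka c0 ≤ Real.exp (4 * ell Lam A c0 - pe Lam ka c0) := by
    unfold kb
    rw [← Real.exp_add]
    exact leE (by linarith)
  have e3 := kl_ell hL A (c0 := c0) (by omega)
  have e4 := NL_ell hL A (by omega) hN
  have e5 := addE (c := 7 * ell Lam A c0 - pe Lam ka c0) e2 e3 (by linarith) (by linarith)
  have e6 : 0 ≤ Real.exp (4 * Lam) * kb Lam ka c0 + (1 + 2 * Real.exp (4 * Lam)) * kl Lam c0 := by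
    unfold kb kl
    positivity
  refine (mulE hN0 (mulE e6 e1 e5) e4).trans ((leE ?_).trans (inv_ell hL A c0 (k := 40) (by omega)))
  push_cast
  linarith

/-- anti-hot tuples, threshold `exp (pe / 8)` -/
theorem ah1_num (A ka : ℕ) : Ev (fun c0 Lam => ∀ NL To : ℝ, 0 ≤ NL → 0 ≤ To →
    NL ≤ 100 * (pw Lam c0 * pw Lam (c1F A c0) * Lam) → To ≤ 100 * (pw Lam c0 * Lam) →
    4 / Real.exp (pe Lam ka c0 / 8) * (1 + NL + 2 * To) ≤ (pw Lam (40 * (c1F A c0 + c0)))⁻¹) := by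
  refine (scales A ka 1024).mono fun c0 Lam hL ⟨h1, h2, _, h4⟩ NL To hN0 hT0 hN hT => ?_
  have o := one_ell hL A c0
  push_cast at h1 h2
  have e4 := NL_ell hL A (by omega) hN
  have e5 := To_ell hL A (by omega) hT
  have e1 : 4 / Real.exp (pe Lam ka c0 / 8) ≤ Real.exp (2 + -(pe Lam ka c0 / 8)) := by
    rw [div_eq_mul_inv, ← Real.exp_neg]
    exact (mulE (Real.exp_pos _).le (cexp 2 (c := 4) (by norm_num)) le_rfl).trans (leE (by push_cast; linarith))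
  have e6 : 1 + NL ≤ Real.exp (10 * ell Lam A c0) :=
    addE (a := 0) (by rw [Real.exp_zero]) e4 (by linarith) (by linarith)
  have e7 : 2 * To ≤ Real.exp (10 * ell Lam A c0) :=
    (mulE hT0 (cexp 1 (c := 2) (by norm_num)) e5).trans (leE (by push_cast; linarith))
  have e8 := addE (c := 11 * ell Lam A c0) e6 e7 (by linarith) (by linarith)
  refine (mulE (by positivity) e1 e8).trans ((leE ?_).trans (inv_ell hL A c0 (k := 40) (by omega)))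
  push_cast
  linarith

/-! ## powers -/

theorem pz (Lam : ℝ) (c : ℕ) : pw Lam c = (2 * Lam) ^ (c : ℤ) := by unfold pw; rw [zpow_natCast]

theorem ipz (Lam : ℝ) (c : ℕ) : (pw Lam c)⁻¹ = (2 * Lam) ^ (-(c : ℤ)) := by rw [pz, zpow_neg]

theorem NL_z {Lam : ℝ} (hL : 2 ≤ Lam) (A c0 : ℕ) {NL : ℝ}
    (hN : NL ≤ 100 * (pw Lam c0 * pw Lam (c1F A c0) * Lam)) : NL ≤ (2 * Lam) ^ ((c1F A c0 : ℤ) + c0 + 5) := by
  have hx : (4 : ℝ) ≤ 2 * Lam := by linarith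
  have hL0 : (0 : ℝ) ≤ Lam := by linarith
  have hLx : Lam ≤ (2 * Lam) ^ (1 : ℤ) := by rw [zpow_one]; linarith
  rw [pz, pz] at hN
  refine hN.trans ((Fn.mul2 hx (by have := Fn.zpos hx (c0 : ℤ); have := Fn.zpos hx (c1F A c0 : ℤ); positivity)
    (Fn.cst hx 4 (c := 100) (by norm_num)) (Fn.mul2 hx hL0 (Fn.mul2 hx (Fn.zpos hx _).le le_rfl le_rfl) hLx)).trans
      (Fn.zle hx ?_))
  push_cast
  omega

theorem To_z {Lam : ℝ} (hL : 2 ≤ Lam) (c0 : ℕ) {To : ℝ} (hN : To ≤ 100 * (pw Lam c0 * Lam)) :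
    To ≤ (2 * Lam) ^ ((c0 : ℤ) + 5) := by
  have hx : (4 : ℝ) ≤ 2 * Lam := by linarith
  have hL0 : (0 : ℝ) ≤ Lam := by linarith
  have hLx : Lam ≤ (2 * Lam) ^ (1 : ℤ) := by rw [zpow_one]; linarith
  rw [pz] at hN
  refine hN.trans ((Fn.mul2 hx (by have := Fn.zpos hx (c0 : ℤ); positivity)
    (Fn.cst hx 4 (c := 100) (by norm_num)) (Fn.mul2 hx hL0 le_rfl hLx)).trans (Fn.zle hx ?_))
  push_cast
  omega

/-- (F3) -/
theorem f3_num {A : ℕ} (hA : 80 ≤ A) : Ev (fun c0 Lam => ∀ NL : ℝ, 0 ≤ NL →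
    NL ≤ 100 * (pw Lam c0 * pw Lam (c1F A c0) * Lam) →
    2 / pi2 Lam A c0 * (p1 Lam A c0 + (1 + 2 * Real.exp (4 * Lam)) * kl Lam c0) * NL ≤ (pw Lam (60 * (c0 + A)))⁻¹) := by
  refine (scales A 0 256).mono fun c0 Lam hL ⟨h1, h2, _, h4⟩ NL hN0 hN => ?_
  have hx : (4 : ℝ) ≤ 2 * Lam := by linarith
  have o := one_ell hL A c0
  push_cast at h1 h2
  have hc := c1_big (c0 := c0) hA
  have e3 : (1 + 2 * Real.exp (4 * Lam)) * kl Lam c0 ≤ (2 * Lam) ^ (-(6 * c1F A c0 : ℤ)) := by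
    refine (kl_ell hL A (c0 := c0) (by omega)).trans ((leE (b := -((8 : ℕ) * ell Lam A c0)) ?_).trans
      ((inv_ell hL A c0 (k := 8) (a := 6 * c1F A c0) (by omega)).trans ?_))
    · push_cast
      linarith
    · rw [ipz]
      push_cast
      rfl
  have e2 : p1 Lam A c0 ≤ (2 * Lam) ^ (-(6 * c1F A c0 : ℤ)) := by
    unfold p1
    rw [ipz]
    push_cast
    rfl
  have e1 : 2 / pi2 Lam A c0 ≤ (2 * Lam) ^ ((1 : ℤ) + 4 * c1F A c0) := by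
    unfold pi2
    rw [div_inv_eq_mul, pz]
    refine (Fn.mul2 hx (Fn.zpos hx _).le (Fn.cst hx 1 (c := 2) (by norm_num)) le_rfl).trans (Fn.zle hx ?_)
    push_cast
    omega
  have e5 := Fn.add2 hx e2 e3
  have e6 : 0 ≤ p1 Lam A c0 + (1 + 2 * Real.exp (4 * Lam)) * kl Lam c0 := by
    have := pw_pos hL (6 * c1F A c0)
    unfold p1 kl
    positivity
  refine (Fn.mul2 hx hN0 (Fn.mul2 hx e6 e1 e5) (NL_z hL A c0 hN)).trans ?_
  rw [ipz]
  refine Fn.zle hx ?_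
  push_cast
  omega

/-- anti-hot tuples, threshold `N1 ^ 2` -/
theorem ah0_num {A : ℕ} (hA : 80 ≤ A) : Ev (fun c0 Lam => ∀ NL To : ℝ, 0 ≤ NL → 0 ≤ To →
    NL ≤ 100 * (pw Lam c0 * pw Lam (c1F A c0) * Lam) → To ≤ 100 * (pw Lam c0 * Lam) →
    4 / e0 Lam A c0 * (1 + NL + 2 * To) ≤ (pw Lam (60 * (c0 + A)))⁻¹) := by
  refine (Ev.ge 1).mono fun c0 Lam hL h1 NL To hN0 hT0 hN hT => ?_
  have hx : (4 : ℝ) ≤ 2 * Lam := by linarith
  have hc := c1_big (c0 := c0) hA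
  have e1 : 4 / e0 Lam A c0 ≤ (2 * Lam) ^ ((1 : ℤ) + -(2 * c1F A c0 : ℤ)) := by
    unfold e0
    rw [div_eq_mul_inv, ipz]
    refine (Fn.mul2 hx (Fn.zpos hx _).le (Fn.cst hx 1 (c := 4) (by norm_num)) le_rfl).trans (Fn.zle hx ?_)
    push_cast
    omega
  have e2 := Fn.add2 hx ((Fn.one hx).trans (Fn.zle hx (show (0 : ℤ) ≤ (c1F A c0 : ℤ) + c0 + 5 by positivity)))
    (NL_z hL A c0 hN)
  have e3 : 2 * To ≤ (2 * Lam) ^ ((c1F A c0 : ℤ) + c0 + 5 + 1) :=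
    (Fn.mul2 hx hT0 (Fn.cst hx 1 (c := 2) (by norm_num)) (To_z hL c0 hT)).trans (Fn.zle hx (by push_cast; omega))
  refine (Fn.mul2 hx (by positivity) e1 (Fn.add2 hx e2 e3)).trans ?_
  rw [ipz]
  refine Fn.zle hx ?_
  push_cast
  omega

/-- private removals -/
theorem mv8_num {A : ℕ} (hA : 80 ≤ A) (ka k : ℕ) : Ev (fun c0 Lam => ∀ NP ep : ℝ, 0 ≤ NP → 0 ≤ ep →
    NP ≤ 100 * (pw Lam c0 * Lam) → ep ≤ pw Lam k * Real.sqrt (pw Lam (cXF A c0 + k) / pw Lam (c1F A c0)) →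
    (e0 Lam A c0 * (Real.exp (4 * Lam) * kb Lam ka c0) + 2 * z Lam ka c0 + 3 * ep) * NP ≤ (pw Lam (20 * (c0 + A)))⁻¹) := by
  refine ((scales A ka 1024).and (Ev.ge (4 * k + 20))).mono fun c0 Lam hL ⟨⟨h1, h2, _, h4⟩, h5⟩ NP ep hN0 he0 hN he => ?_
  have hx : (4 : ℝ) ≤ 2 * Lam := by linarith
  have o := one_ell hL A c0
  have l := Lam_ell hL A (c0 := c0) (by omega)
  push_cast at h1 h2
  have hc := c1_big (c0 := c0) hA
  have toz : ∀ {u : ℝ}, u ≤ Real.exp (-((4 : ℕ) * ell Lam A c0)) → u ≤ (2 * Lam) ^ (-(4 * c1F A c0 : ℤ)) := by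
    intro u hu
    refine hu.trans ((inv_ell hL A c0 (k := 4) (a := 4 * c1F A c0) (by omega)).trans ?_)
    rw [ipz]
    push_cast
    rfl
  have e1 : e0 Lam A c0 * (Real.exp (4 * Lam) * kb Lam ka c0) ≤ (2 * Lam) ^ (-(4 * c1F A c0 : ℤ)) := by
    refine toz ?_
    have b1 : e0 Lam A c0 ≤ Real.exp ((2 : ℕ) * ell Lam A c0) := pw_ell hL A c0 (by omega)
    have b2 : Real.exp (4 * Lam) ≤ Real.exp (4 * ell Lam A c0) := leE (by linarith)
    unfold kb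
    refine (mulE (by positivity) b1 (mulE (Real.exp_pos _).le b2 le_rfl)).trans (leE ?_)
    push_cast
    linarith
  have e2 : 2 * z Lam ka c0 ≤ (2 * Lam) ^ (-(4 * c1F A c0 : ℤ)) := by
    refine toz ?_
    unfold z
    refine (mulE (Real.exp_pos _).le (cexp 1 (c := 2) (by norm_num)) le_rfl).trans (leE ?_)
    push_cast
    linarith
  have e3 : ep ≤ (2 * Lam) ^ (-(33 * (c0 + A) : ℤ)) := by
    have b1 : pw Lam (cXF A c0 + k) / pw Lam (c1F A c0) ≤ (2 * Lam) ^ (2 * (-(35 * (c0 + A) : ℤ))) := by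
      rw [div_eq_mul_inv, ipz, pz]
      refine (Fn.mul2 hx (Fn.zpos hx _).le le_rfl le_rfl).trans (Fn.zle hx ?_)
      unfold cXF
      push_cast
      omega
    refine he.trans ((Fn.mul2 hx (Real.sqrt_nonneg _) (le_of_eq (pz Lam k)) (Fn.sqrt_le hx b1)).trans (Fn.zle hx ?_))
    omega
  have e4 : 3 * ep ≤ (2 * Lam) ^ (-(32 * (c0 + A) : ℤ)) :=
    (Fn.mul2 hx he0 (Fn.cst hx 1 (c := 3) (by norm_num)) e3).trans (Fn.zle hx (by push_cast; omega))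
  have e5 := Fn.add2 hx e1 e2
  have e6 := Fn.add2 hx (e5.trans (Fn.zle hx (show -(4 * c1F A c0 : ℤ) + 1 ≤ -(32 * (c0 + A) : ℤ) by omega))) e4
  refine (Fn.mul2 hx hN0 e6 (To_z hL c0 hN)).trans ?_
  rw [ipz]
  refine Fn.zle hx ?_
  push_cast
  omega

/-! ## types, REST -/

/-- the thin relations of REST have row and column masses at most `N1 ^ -2` -/
theorem typ_num (A ka : ℕ) : Ev (fun c0 Lam => e0 Lam A c0 * k4 Lam ka c0 ≤ (pw Lam (2 * c1F A c0))⁻¹ ∧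
    e0 Lam A c0 * pi2 Lam A c0 ≤ (pw Lam (2 * c1F A c0))⁻¹ ∧
    e0 Lam A c0 * (k2 Lam ka c0 / k4 Lam ka c0) ≤ (pw Lam (2 * c1F A c0))⁻¹) := by
  refine (scales A ka 64).mono fun c0 Lam hL ⟨h1, h2, _, h4⟩ => ?_
  have hx : (4 : ℝ) ≤ 2 * Lam := by linarith
  have o := one_ell hL A c0
  push_cast at h1 h2
  have b1 : e0 Lam A c0 ≤ Real.exp ((2 : ℕ) * ell Lam A c0) := pw_ell hL A c0 (by omega)
  have key : ∀ y, y ≤ Real.exp (-(pe Lam ka c0 / 4)) → 0 ≤ y → e0 Lam A c0 * y ≤ (pw Lam (2 * c1F A c0))⁻¹ := by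
    intro y hy hy0
    refine (mulE hy0 b1 hy).trans ((leE ?_).trans (inv_ell hL A c0 (k := 2) (by omega)))
    push_cast
    linarith
  refine ⟨key _ le_rfl (Real.exp_pos _).le, ?_, key _ ?_ (by unfold k2 k4; positivity)⟩
  · unfold e0 pi2
    rw [ipz, ipz, pz, ← zpow_add₀ (by linarith)]
    refine Fn.zle hx ?_
    push_cast
    omega
  · unfold k2 k4
    rw [← Real.exp_sub]
    exact leE (by linarith)

/-- the exponent of the rarity of the covers -/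
theorem big_z {A : ℕ} (hA : 80 ≤ A) {Lam : ℝ} (hL : 2 ≤ Lam) (c0 : ℕ) :
    pw Lam (16 * c0 + 3 * A + 8) ≤ pw Lam (c1F A c0) * uR Lam c0 ^ 2 / 2 ^ 18 := by
  have hx : (4 : ℝ) ≤ 2 * Lam := by linarith
  have hx0 : (2 * Lam : ℝ) ≠ 0 := by linarith
  have hc := c1_big (c0 := c0) hA
  rw [le_div_iff₀ (by norm_num)]
  have e1 : pw Lam (c1F A c0) * uR Lam c0 ^ 2 = (2 * Lam) ^ ((c1F A c0 : ℤ) - 4 * c0) := by
    unfold uR
    rw [ipz, pz, ← zpow_natCast, ← zpow_mul, ← zpow_add₀ hx0]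
    congr 1
    push_cast
    ring
  rw [e1, pz]
  refine (Fn.mul2 hx (by norm_num) le_rfl (Fn.cst hx 9 (c := 2 ^ 18) (by norm_num))).trans (Fn.zle hx ?_)
  push_cast
  omega

/-- sums of powers -/
theorem pw_sum {Lam : ℝ} (hL : 2 ≤ Lam) {a b c : ℕ} {u v : ℝ} (hu : u ≤ pw Lam a) (hv : v ≤ pw Lam b) (ha : a < c) (hb : b < c) :
    u + v ≤ pw Lam c := by
  have hx : (4 : ℝ) ≤ 2 * Lam := by linarith
  rw [pz] at hu hv ⊢
  exact (Fn.add2 hx (hu.trans (Fn.zle hx (show (a : ℤ) ≤ (c : ℤ) - 1 by omega)))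
    (hv.trans (Fn.zle hx (show (b : ℤ) ≤ (c : ℤ) - 1 by omega)))).trans (Fn.zle hx (by omega))

theorem pQ_sq {Lam : ℝ} (c0 : ℕ) : pQ Lam c0 ^ 2 = pw Lam (16 * c0) := by
  unfold pQ pw
  rw [← pow_mul]
  congr 1
  ring

theorem ell_pw (A : ℕ) : ∃ c0m : ℕ, ∀ c0 ≥ c0m, ∀ Lam : ℝ, 2 ≤ Lam → 64 * ell Lam A c0 ≤ pw Lam c0 := by
  obtain ⟨c, h⟩ := ell_pe A 0 64
  refine ⟨c, fun c0 hc Lam hL => ?_⟩
  have h1 := h c0 hc Lam hL
  have h2 := pe_le_n hL 0 c0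
  push_cast at h1
  linarith

theorem MQ_le (Lam : ℝ) (c0 : ℕ) : (MQ Lam c0 : ℝ) ≤ Real.exp (pQ Lam c0 ^ 2 + 1) := by
  unfold MQ
  have h1 := Nat.ceil_lt_add_one (Real.exp_pos (pQ Lam c0 ^ 2)).le
  have h2 : (1 : ℝ) ≤ Real.exp (pQ Lam c0 ^ 2) := Real.one_le_exp (sq_nonneg _)
  have h3 : (2 : ℝ) ≤ Real.exp 1 := by
    have := Real.add_one_le_exp (1 : ℝ)
    linarith
  rw [Real.exp_add]
  nlinarith

theorem le_MQ (Lam : ℝ) (c0 : ℕ) : Real.exp (pQ Lam c0 ^ 2) ≤ (MQ Lam c0 : ℝ) := Nat.le_ceil _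

/-- the bound of the letters and its square -/
noncomputable def X2f (Lam : ℝ) (c0 : ℕ) (X1 : ℝ) : ℝ := X1 + pw Lam c0

/-- **the conditions of REST** -/
theorem parz_num {A : ℕ} (hA : 80 ≤ A) : Ev (fun c0 Lam => ∀ p δ kp X1 : ℝ, 0 ≤ p → p ≤ (pw Lam (c1F A c0))⁻¹ →
    δ ≤ 1 / 2 → kp ≤ Real.exp (-(pQ Lam c0 / 2)) → 0 ≤ X1 → X1 ≤ pw Lam (cXF A c0 + 2) →
    RZ.ParZ (pw Lam (c1F A c0)) (uR Lam c0) p X1 (X2f Lam c0 X1) δ kp (pw Lam (4 * c1F A c0))⁻¹ (MQ Lam c0)) := by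
  refine (scales A 0 1024).mono fun c0 Lam hL ⟨h1, h2, _, h4⟩ p δ kp X1 hp0 hp hδ hkp hX0 hX => ?_
  have hx : (4 : ℝ) ≤ 2 * Lam := by linarith
  have hx0 : (2 * Lam : ℝ) ≠ 0 := by linarith
  have hc := c1_big (c0 := c0) hA
  have o := one_ell hL A c0
  have hpe : pe Lam 0 c0 = pw Lam c0 := by unfold pe pw; rw [pow_zero, div_one]
  rw [hpe] at h1 h2
  push_cast at h1 h2
  have hn := pw_pos hL c0
  have uz : uR Lam c0 = (2 * Lam) ^ (-(2 * c0 : ℤ)) := by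
    unfold uR
    rw [ipz]
    push_cast
    rfl
  have toz : ∀ {u : ℝ}, u ≤ Real.exp (-((8 : ℕ) * ell Lam A c0)) → u ≤ (2 * Lam) ^ (-(8 * c1F A c0 : ℤ)) := by
    intro u hu
    refine hu.trans ((inv_ell hL A c0 (k := 8) (a := 8 * c1F A c0) (by omega)).trans ?_)
    rw [ipz]
    push_cast
    rfl
  have hexp : Real.exp (-pw Lam c0) ≤ (2 * Lam) ^ (-(8 * c1F A c0 : ℤ)) := toz (leE (by push_cast; linarith))
  have hX12 : X1 - X2f Lam c0 X1 = -pw Lam c0 := by unfold X2f; ring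
  refine ⟨hp0, by unfold X2f; linarith, ?_, ?_, ?_, ?_, inv_pos.2 (pw_pos hL _), inv_le_one_of_one_le₀ (pw_one hL _), ?_, hδ, ?_⟩
  · rw [uz]
    exact Fn.zpos hx _
  · rw [uz]
    rw [ipz] at hp
    exact (Fn.mul2 hx hp0 (Fn.cst hx 5 (c := 2 ^ 10) (by norm_num)) hp).trans (Fn.zle hx (by push_cast; omega))
  · rw [uz]
    have b : kp ≤ (2 * Lam) ^ (-(8 * c1F A c0 : ℤ)) := by
      refine toz (hkp.trans (leE ?_))
      push_cast
      linarith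
    rcases le_total 0 kp with hk | hk
    · exact (Fn.mul2 hx hk (Fn.cst hx 5 (c := 2 ^ 10) (by norm_num)) b).trans (Fn.zle hx (by push_cast; omega))
    · have := Fn.zpos hx (-(2 * c0 : ℤ))
      linarith
  · rw [uz, hX12]
    exact (Fn.mul2 hx (Real.exp_pos _).le (Fn.cst hx 4 (c := 128) (by norm_num)) hexp).trans (Fn.zle hx (by push_cast; omega))
  · rw [uz]
    unfold RZ.edz
    rw [hX12]
    have q1 : Real.log (1 / (pw Lam (4 * c1F A c0))⁻¹) ≤ (2 * Lam) ^ ((c1F A c0 : ℤ) / 2 + 4) := by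
      rw [one_div, inv_inv]
      unfold pw
      rw [Real.log_pow]
      have a1 : Real.log (2 * Lam) ≤ 2 * Lam := (Real.log_le_sub_one_of_pos (by linarith)).trans (by linarith)
      have a2 : (0 : ℝ) ≤ Real.log (2 * Lam) := Real.log_nonneg (by linarith)
      have a3 := Fn.nat hx (c1F A c0)
      push_cast
      have a4 : (4 : ℝ) * (c1F A c0 : ℝ) * Real.log (2 * Lam) ≤ (2 * Lam) ^ ((1 : ℤ) + ((c1F A c0 : ℤ) / 2 + 1) + 1) :=
        Fn.mul2 hx a2 (Fn.mul2 hx (Nat.cast_nonneg _) (by simpa using Fn.cst hx 1 (c := 4) (by norm_num)) a3)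
          (by rw [zpow_one]; exact a1)
      exact a4.trans (Fn.zle hx (by omega))
    have q2 : X2f Lam c0 X1 + 2 ≤ (2 * Lam) ^ ((3 * c0 : ℤ) + 3 * A + 4) := by
      unfold X2f
      have a1 : X1 + pw Lam c0 ≤ pw Lam (3 * c0 + 3 * A + 3) := pw_sum hL hX le_rfl (by unfold cXF; omega) (by omega)
      have a2 : (2 : ℝ) ≤ pw Lam 1 := by
        have := pw_four hL 1
        norm_num at this
        linarith
      have a3 := pw_sum (c := 3 * c0 + 3 * A + 4) hL a1 a2 (by omega) (by omega)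
      rw [pz Lam (3 * c0 + 3 * A + 4)] at a3
      refine a3.trans (Fn.zle hx ?_)
      push_cast
      omega
    have q3 : (Real.log (1 / (pw Lam (4 * c1F A c0))⁻¹) + X2f Lam c0 X1 + 2) / pw Lam (c1F A c0) ≤
        (2 * Lam) ^ (2 * (-(10 * (c0 + A) : ℤ))) := by
      rw [div_eq_mul_inv, ipz Lam (c1F A c0), add_assoc]
      have a1 := Fn.add2 hx (q1.trans (Fn.zle hx (le_max_left _ ((3 * c0 : ℤ) + 3 * A + 4))))
        (q2.trans (Fn.zle hx (le_max_right ((c1F A c0 : ℤ) / 2 + 4) _)))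
      refine (Fn.mul2 hx (Fn.zpos hx _).le a1 le_rfl).trans (Fn.zle hx ?_)
      rcases le_total ((c1F A c0 : ℤ) / 2 + 4) ((3 * c0 : ℤ) + 3 * A + 4) with h | h
      · rw [max_eq_right h]
        omega
      · rw [max_eq_left h]
        omega
    have q4 : 8 * Real.sqrt ((Real.log (1 / (pw Lam (4 * c1F A c0))⁻¹) + X2f Lam c0 X1 + 2) / pw Lam (c1F A c0)) ≤
        (2 * Lam) ^ (((2 : ℕ) : ℤ) + -(10 * (c0 + A) : ℤ)) :=
      Fn.mul2 hx (Real.sqrt_nonneg _) (Fn.cst hx 2 (c := 8) (by norm_num)) (Fn.sqrt_le hx q3)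
    have q5 := Fn.add2 hx (hexp.trans (Fn.zle hx (show -(8 * c1F A c0 : ℤ) ≤ ((2 : ℕ) : ℤ) + -(10 * (c0 + A) : ℤ) by
      push_cast; omega))) q4
    refine (Fn.mul2 hx (by positivity) (Fn.cst hx 5 (c := 2 ^ 10) (by norm_num)) q5).trans (Fn.zle hx ?_)
    push_cast
    omega
  · have b1 := big_z hA hL c0
    have b2 : pQ Lam c0 ^ 2 ≤ pw Lam (16 * c0 + 3 * A) := by rw [pQ_sq]; exact pw_mono hL (by omega)
    have b3 : X1 ≤ pw Lam (16 * c0 + 3 * A) := hX.trans (pw_mono hL (by unfold cXF; omega))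
    have b4 : pw Lam c0 ≤ pw Lam (16 * c0 + 3 * A) := pw_mono hL (by omega)
    have b5 : (8 : ℝ) * pw Lam (16 * c0 + 3 * A) ≤ pw Lam (16 * c0 + 3 * A + 8) := by
      rw [pw_add hL (16 * c0 + 3 * A) 8, mul_comm]
      refine mul_le_mul_of_nonneg_left ?_ (pw_pos hL _).le
      have := pw_four hL 8
      linarith
    have b6 : 1 ≤ pw Lam c0 := pw_one hL c0
    have b7 := MQ_le Lam c0
    have b8 : 2 * ((MQ Lam c0 : ℝ) * Real.exp X1) ≤ Real.exp (1 + (pQ Lam c0 ^ 2 + 1 + X1)) :=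
      mulE (by positivity) (by have := cexp 1 (c := 2) (by norm_num); simpa using this) (mulE (Real.exp_pos _).le b7 le_rfl)
    refine (mulE (Real.exp_pos _).le b8 le_rfl).trans (Real.exp_le_one_iff.2 ?_)
    unfold X2f
    linarith

/-- the exceptional positions of all epochs -/
theorem e9z_num {A : ℕ} (hA : 80 ≤ A) : Ev (fun c0 Lam => ∀ S X1 : ℝ, 0 ≤ S → S ≤ Real.exp (8 * pQ Lam c0) →
    0 ≤ X1 → X1 ≤ pw Lam (cXF A c0 + 2) →
    RZ.e9z (pw Lam (c1F A c0)) X1 (X2f Lam c0 X1) (uR Lam c0) (pw Lam (4 * c1F A c0))⁻¹ (MQ Lam c0) * S ≤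
      Real.exp (-(pQ Lam c0 ^ 2))) := by
  refine (scales A 0 1024).mono fun c0 Lam hL ⟨h1, h2, h3, h4⟩ S X1 hS0 hS hX0 hX => ?_
  have hc := c1_big (c0 := c0) hA
  have o := one_ell hL A c0
  have hpe : pe Lam 0 c0 = pw Lam c0 := by unfold pe pw; rw [pow_zero, div_one]
  rw [hpe] at h1 h2
  push_cast at h1 h2 h3
  have b1 := big_z hA hL c0
  have b2 : pQ Lam c0 ^ 2 ≤ pw Lam (16 * c0 + 3 * A) := by rw [pQ_sq]; exact pw_mono hL (by omega)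
  have b3 : X1 ≤ pw Lam (16 * c0 + 3 * A) := hX.trans (pw_mono hL (by unfold cXF; omega))
  have b4 : pw Lam c0 ≤ pw Lam (16 * c0 + 3 * A) := pw_mono hL (by omega)
  have b5 : (64 : ℝ) * pw Lam (16 * c0 + 3 * A) ≤ pw Lam (16 * c0 + 3 * A + 8) := by
    rw [pw_add hL (16 * c0 + 3 * A) 8, mul_comm]
    refine mul_le_mul_of_nonneg_left ?_ (pw_pos hL _).le
    have := pw_four hL 8
    linarith
  have b6 : 1 ≤ pw Lam c0 := pw_one hL c0
  have b7 := MQ_le Lam c0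
  have b8 := pQ_pos hL c0
  have b9 : pw Lam (4 * c1F A c0) ≤ Real.exp ((4 : ℕ) * ell Lam A c0) := pw_ell hL A c0 (by omega)
  have c1 : (2 : ℝ) * Real.exp 1 ≤ Real.exp 2 :=
    (mulE (Real.exp_pos _).le (by have := cexp 1 (c := 2) (by norm_num); simpa using this) le_rfl).trans (leE (by norm_num))
  have c2 : (MQ Lam c0 : ℝ) * Real.exp X1 ≤ Real.exp (pQ Lam c0 ^ 2 + 1 + X1) := mulE (Real.exp_pos _).le b7 le_rfl
  unfold RZ.e9z
  rw [div_inv_eq_mul]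
  refine (mulE hS0 (mulE (pw_pos hL _).le (mulE (Real.exp_pos _).le (mulE (by positivity) c1 c2) le_rfl) b9) hS).trans (leE ?_)
  unfold X2f
  push_cast
  linarith

/-- **REST, the sum** : activity `G`, `S` epochs, multiplicity `m` -/
theorem rest_num {A : ℕ} (hA : 80 ≤ A) (kG km K : ℕ) : Ev (fun c0 Lam => ∀ G S m X1 : ℝ, 0 ≤ G → G ≤ pw Lam kG → 0 ≤ S →
    S ≤ Real.exp (8 * pQ Lam c0) → 0 ≤ m → m ≤ pw Lam km → 0 ≤ X1 → X1 ≤ pw Lam (cXF A c0 + 2) →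
    uR Lam c0 / 2 * G + 432 * m * uR Lam c0 * pw Lam c0 * Lam +
      2 * (1 + 8 * uR Lam c0) * (RZ.e9z (pw Lam (c1F A c0)) X1 (X2f Lam c0 X1) (uR Lam c0) (pw Lam (4 * c1F A c0))⁻¹
        (MQ Lam c0) * S + m * TD.TnB (pw Lam c0) (pw Lam (c1F A c0)) Lam (pw Lam (4 * c1F A c0))⁻¹) +
      6 / (uR Lam c0 * (MQ Lam c0 + 1)) * S ≤ (pw Lam K)⁻¹) := by
  refine (((scales A 0 1024).and (e9z_num hA)).and (Ev.ge (K + kG + km + 20))).mono
    fun c0 Lam hL ⟨⟨⟨h1, h2, h3, h4⟩, he⟩, h5⟩ G S m X1 hG0 hG hS0 hS hm0 hm hX0 hX => ?_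
  have hx : (4 : ℝ) ≤ 2 * Lam := by linarith
  have hL0 : (0 : ℝ) ≤ Lam := by linarith
  have hLx : Lam ≤ (2 * Lam) ^ (1 : ℤ) := by rw [zpow_one]; linarith
  have hc := c1_big (c0 := c0) hA
  have o := one_ell hL A c0
  have hpe : pe Lam 0 c0 = pw Lam c0 := by unfold pe pw; rw [pow_zero, div_one]
  rw [hpe] at h1 h2
  push_cast at h1 h2 h3
  have uz : uR Lam c0 = (2 * Lam) ^ (-(2 * c0 : ℤ)) := by
    unfold uR
    rw [ipz]
    push_cast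
    rfl
  have u0 : 0 < uR Lam c0 := by rw [uz]; exact Fn.zpos hx _
  have u1 : uR Lam c0 ≤ 1 := by
    unfold uR
    exact inv_le_one_of_one_le₀ (pw_one hL _)
  rw [pz] at hG hm
  have goal : ∀ {a : ℤ}, a ≤ -(K : ℤ) - 3 → (2 * Lam) ^ a ≤ (2 * Lam) ^ (-(K : ℤ) - 3) := fun h => Fn.zle hx h
  have t1 : uR Lam c0 / 2 * G ≤ (2 * Lam) ^ (-(K : ℤ) - 3) := by
    have a1 : uR Lam c0 / 2 ≤ (2 * Lam) ^ (-(2 * c0 : ℤ)) := by rw [← uz]; linarith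
    exact (Fn.mul2 hx hG0 a1 hG).trans (goal (by omega))
  have t2 : 432 * m * uR Lam c0 * pw Lam c0 * Lam ≤ (2 * Lam) ^ (-(K : ℤ) - 3) := by
    refine (Fn.mul2 hx hL0 (Fn.mul2 hx (pw_pos hL c0).le (Fn.mul2 hx u0.le (Fn.mul2 hx hm0
      (Fn.cst hx 5 (c := 432) (by norm_num)) hm) (le_of_eq uz)) (le_of_eq (pz Lam c0))) hLx).trans (goal ?_)
    push_cast
    omega
  have e1 := he S X1 hS0 hS hX0 hX
  have toz : ∀ {u : ℝ}, u ≤ Real.exp (-((8 : ℕ) * ell Lam A c0)) → u ≤ (2 * Lam) ^ (-(8 * c1F A c0 : ℤ)) := by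
    intro u hu
    refine hu.trans ((inv_ell hL A c0 (k := 8) (a := 8 * c1F A c0) (by omega)).trans ?_)
    rw [ipz]
    push_cast
    rfl
  have b8 := pQ_pos hL c0
  have e2 := e1.trans (toz (u := Real.exp (-(pQ Lam c0 ^ 2))) (leE (by push_cast; linarith)))
  have e3 : m * TD.TnB (pw Lam c0) (pw Lam (c1F A c0)) Lam (pw Lam (4 * c1F A c0))⁻¹ ≤ (2 * Lam) ^ (-(2 * c1F A c0 : ℤ)) := by
    unfold TD.TnB
    have a1 : 64 * (pw Lam (4 * c1F A c0))⁻¹ ≤ (2 * Lam) ^ (((3 : ℕ) : ℤ) + -((4 * c1F A c0 : ℕ) : ℤ)) :=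
      Fn.mul2 hx (inv_pos.2 (pw_pos hL _)).le (Fn.cst hx 3 (c := 64) (by norm_num)) (le_of_eq (ipz Lam _))
    have a2 : 64 * pw Lam c0 * pw Lam (c1F A c0) * Lam ≤ (2 * Lam) ^ (((3 : ℕ) : ℤ) + c0 + c1F A c0 + 1) :=
      Fn.mul2 hx hL0 (Fn.mul2 hx (pw_pos hL _).le (Fn.mul2 hx (pw_pos hL _).le (Fn.cst hx 3 (c := 64) (by norm_num))
        (le_of_eq (pz Lam c0))) (le_of_eq (pz Lam _))) hLx
    have q1 := pw_pos hL c0
    have q2 := pw_pos hL (c1F A c0)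
    have q3 := pw_pos hL (4 * c1F A c0)
    refine (Fn.mul2 hx (by positivity) hm (Fn.mul2 hx (by positivity) a1 a2)).trans (Fn.zle hx ?_)
    push_cast
    omega
  have e4 : 2 * (1 + 8 * uR Lam c0) ≤ (2 * Lam) ^ ((3 : ℕ) : ℤ) := Fn.cst hx 3 (by linarith)
  have t3 : 2 * (1 + 8 * uR Lam c0) * (RZ.e9z (pw Lam (c1F A c0)) X1 (X2f Lam c0 X1) (uR Lam c0) (pw Lam (4 * c1F A c0))⁻¹
        (MQ Lam c0) * S + m * TD.TnB (pw Lam c0) (pw Lam (c1F A c0)) Lam (pw Lam (4 * c1F A c0))⁻¹) ≤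
      (2 * Lam) ^ (-(K : ℤ) - 3) := by
    have a1 := Fn.add2 hx (e2.trans (Fn.zle hx (show -(8 * c1F A c0 : ℤ) ≤ -(2 * c1F A c0 : ℤ) by omega))) e3
    refine le_trans (mul_le_mul_of_nonneg_left a1 (by positivity)) ?_
    refine (Fn.mul2 hx (Fn.zpos hx _).le e4 le_rfl).trans (goal ?_)
    push_cast
    omega
  have t4 : 6 / (uR Lam c0 * (MQ Lam c0 + 1)) * S ≤ (2 * Lam) ^ (-(K : ℤ) - 3) := by
    have a1 : 6 / (uR Lam c0 * (MQ Lam c0 + 1)) ≤ Real.exp (3 + 2 * ell Lam A c0 + -(pQ Lam c0 ^ 2)) := by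
      have b1 := le_MQ Lam c0
      have b2 : (uR Lam c0)⁻¹ ≤ Real.exp ((2 : ℕ) * ell Lam A c0) := by
        unfold uR
        rw [inv_inv]
        exact pw_ell hL A c0 (by omega)
      have b3 : ((MQ Lam c0 : ℝ) + 1)⁻¹ ≤ Real.exp (-(pQ Lam c0 ^ 2)) := by
        rw [Real.exp_neg]
        exact inv_anti₀ (Real.exp_pos _) (by linarith)
      have b4 : (6 : ℝ) ≤ Real.exp ((3 : ℕ) : ℝ) := cexp 3 (by norm_num)
      rw [div_eq_mul_inv, mul_inv, ← mul_assoc]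
      refine (mulE (inv_nonneg.2 (by positivity)) (mulE (inv_nonneg.2 u0.le) b4 b2) b3).trans (leE ?_)
      push_cast
      linarith
    refine (toz ((mulE hS0 a1 hS).trans (leE ?_))).trans (goal (show -(8 * c1F A c0 : ℤ) ≤ -(K : ℤ) - 3 by omega))
    push_cast
    linarith
  have s1 := Fn.add2 hx t1 t2
  have s2 := Fn.add2 hx s1 (t3.trans (Fn.zle hx (show -(K : ℤ) - 3 ≤ -(K : ℤ) - 3 + 1 by omega)))
  have s3 := Fn.add2 hx s2 (t4.trans (Fn.zle hx (show -(K : ℤ) - 3 ≤ -(K : ℤ) - 3 + 1 + 1 by omega)))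
  rw [ipz Lam K]
  exact s3.trans (Fn.zle hx (by omega))

/-! ## rarities at `y0` -/

/-- constants are powers -/
theorem cst_pw {Lam : ℝ} (hL : 2 ≤ Lam) (k : ℕ) : (k : ℝ) ≤ pw Lam k := by
  refine le_trans ?_ (pw_four hL k)
  have h1 : k < 4 ^ k := Nat.lt_pow_self (by norm_num)
  exact_mod_cast h1.le

/-- `N1 y0 n / x ^ (ka + k)` and `N1 y0 uR ^ 2 / x ^ k` are larger than `k n ^ 2 (pQ ^ 2 + X1 + 1)` -/
theorem y0_rar (A ka k : ℕ) : Ev (fun c0 Lam =>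
    (k : ℝ) * (pw Lam (2 * c0) * (pQ Lam c0 ^ 2 + pw Lam (cXF A c0 + 2) + 1)) ≤
      pw Lam (c1F A c0) * y0 Lam A c0 * pw Lam c0 / pw Lam (ka + k) ∧
    (k : ℝ) * (pw Lam (2 * c0) * (pQ Lam c0 ^ 2 + pw Lam (cXF A c0 + 2) + 1)) ≤
      pw Lam (c1F A c0) * y0 Lam A c0 * uR Lam c0 ^ 2 / pw Lam k) := by
  refine (Ev.ge (3 * A + ka + 2 * k + 20)).mono fun c0 Lam hL hc => ?_
  have hx : (4 : ℝ) ≤ 2 * Lam := by linarith
  have hx0 : (2 * Lam : ℝ) ≠ 0 := by linarith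
  have hN := pw_pos hL (c1F A c0)
  have e0' : pw Lam (c1F A c0) * y0 Lam A c0 = pw Lam (24 * c0) := by
    unfold y0
    field_simp
  have a1 : pQ Lam c0 ^ 2 + pw Lam (cXF A c0 + 2) ≤ pw Lam (16 * c0 + 1) := by
    rw [pQ_sq]
    exact pw_sum hL le_rfl le_rfl (by omega) (by unfold cXF; omega)
  have a2 : pQ Lam c0 ^ 2 + pw Lam (cXF A c0 + 2) + 1 ≤ pw Lam (16 * c0 + 2) :=
    pw_sum hL a1 (pw_one hL 0) (by omega) (by omega)
  have a3 : (k : ℝ) * (pw Lam (2 * c0) * (pQ Lam c0 ^ 2 + pw Lam (cXF A c0 + 2) + 1)) ≤ pw Lam (k + (2 * c0 + (16 * c0 + 2))) := by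
    rw [pw_add hL k, pw_add hL (2 * c0) (16 * c0 + 2)]
    have q1 := pw_pos hL (2 * c0)
    have q2 := pw_pos hL (cXF A c0 + 2)
    refine mul_le_mul (cst_pw hL k) (mul_le_mul_of_nonneg_left a2 q1.le) ?_ (pw_pos hL _).le
    positivity
  rw [e0']
  constructor
  · rw [le_div_iff₀ (pw_pos hL _)]
    refine (mul_le_mul_of_nonneg_right a3 (pw_pos hL _).le).trans ?_
    rw [← pw_add hL, ← pw_add hL]
    exact pw_mono hL (by omega)
  · rw [le_div_iff₀ (pw_pos hL _)]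
    refine (mul_le_mul_of_nonneg_right a3 (pw_pos hL _).le).trans ?_
    have e1 : pw Lam (24 * c0) * uR Lam c0 ^ 2 = pw Lam (20 * c0) := by
      unfold uR
      rw [ipz, pz, pz, ← zpow_natCast, ← zpow_mul, ← zpow_add₀ hx0]
      congr 1
      push_cast
      ring
    rw [e1, ← pw_add hL]
    exact pw_mono hL (by omega)

/-- `exp (k n ^ 2 (pQ ^ 2 + X1 + 1))` is beaten at `y ≥ y0`, rate `n / x ^ ka` -/
theorem y0_exp (A ka k : ℕ) : Ev (fun c0 Lam => ∀ y : ℝ, y0 Lam A c0 ≤ y →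
    Real.exp (-(pw Lam (c1F A c0) * y * pw Lam c0 / pw Lam (ka + k)) +
      (k : ℝ) * (pw Lam (2 * c0) * (pQ Lam c0 ^ 2 + pw Lam (cXF A c0 + 2) + 1))) ≤
      Real.exp (-(pw Lam (2 * c0) * (pQ Lam c0 ^ 2 + pw Lam (cXF A c0 + 2) + 1)))) := by
  refine (y0_rar A ka (k + 1)).mono fun c0 Lam hL ⟨h1, _⟩ y hy => leE ?_
  have q1 := pw_pos hL (c1F A c0)
  have q2 := pw_pos hL c0
  have q3 := pw_pos hL (ka + k)
  have h2 : pw Lam (c1F A c0) * y0 Lam A c0 * pw Lam c0 / pw Lam (ka + (k + 1)) ≤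
      pw Lam (c1F A c0) * y * pw Lam c0 / pw Lam (ka + k) := by
    have h3 : pw Lam (ka + k) ≤ pw Lam (ka + (k + 1)) := pw_mono hL (by omega)
    have h4 : 0 < y0 Lam A c0 := div_pos (pw_pos hL _) q1
    have h5 : 0 < y := h4.trans_le hy
    have h6 : 0 ≤ uR Lam c0 := inv_nonneg.2 (pw_pos hL _).le
    gcongr
  push_cast at h1
  linarith

/-- the same with the rate `uR ^ 2` -/
theorem y0_exp' (A k : ℕ) : Ev (fun c0 Lam => ∀ y : ℝ, y0 Lam A c0 ≤ y →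
    Real.exp (-(pw Lam (c1F A c0) * y * uR Lam c0 ^ 2 / pw Lam k) +
      (k : ℝ) * (pw Lam (2 * c0) * (pQ Lam c0 ^ 2 + pw Lam (cXF A c0 + 2) + 1))) ≤
      Real.exp (-(pw Lam (2 * c0) * (pQ Lam c0 ^ 2 + pw Lam (cXF A c0 + 2) + 1)))) := by
  refine (y0_rar A 0 (k + 1)).mono fun c0 Lam hL ⟨_, h1⟩ y hy => leE ?_
  have q1 := pw_pos hL (c1F A c0)
  have q3 := pw_pos hL k
  have h2 : pw Lam (c1F A c0) * y0 Lam A c0 * uR Lam c0 ^ 2 / pw Lam (k + 1) ≤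
      pw Lam (c1F A c0) * y * uR Lam c0 ^ 2 / pw Lam k := by
    have h3 : pw Lam k ≤ pw Lam (k + 1) := pw_mono hL (by omega)
    have h4 : 0 < y0 Lam A c0 := div_pos (pw_pos hL _) q1
    have h5 : 0 < y := h4.trans_le hy
    have h6 : 0 ≤ uR Lam c0 := inv_nonneg.2 (pw_pos hL _).le
    gcongr
  push_cast at h1
  linarith

/-- **status changes at an exact vertex** : `exp (8 pe)` lives, rarity `exp (- n uex / x ^ C)` -/
theorem stat_num {ka m1 C : ℕ} (h : m1 + C + 3 ≤ ka) : Ev (fun c0 Lam =>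
    Real.exp (8 * pe Lam ka c0) * Real.exp (-(pw Lam c0 * uex Lam m1 / pw Lam C)) ≤ Real.exp (-(8 * pe Lam ka c0))) := by
  refine Ev.of fun c0 Lam hL => ?_
  rw [← Real.exp_add]
  refine leE ?_
  have h1 : 16 * pe Lam ka c0 ≤ pw Lam c0 * uex Lam m1 / pw Lam C := by
    unfold pe uex
    have h2 : pw Lam ka = pw Lam (m1 + C) * pw Lam (ka - (m1 + C)) := by
      rw [← pw_add hL]
      congr 1
      omega
    have h3 : (16 : ℝ) ≤ pw Lam (ka - (m1 + C)) := by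
      refine le_trans ?_ (pw_mono hL (show 3 ≤ ka - (m1 + C) by omega))
      have := pw_four hL 3
      norm_num at this
      linarith
    have q1 := pw_pos hL m1
    have q2 := pw_pos hL C
    have q3 := pw_pos hL (ka - (m1 + C))
    have q4 := pw_pos hL c0
    rw [h2, pw_add hL m1 C]
    rw [show 16 * (pw Lam c0 / (pw Lam m1 * pw Lam C * pw Lam (ka - (m1 + C)))) =
      pw Lam c0 * (pw Lam m1)⁻¹ / pw Lam C * (16 / pw Lam (ka - (m1 + C))) by field_simp]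
    refine mul_le_of_le_one_right (by positivity) ?_
    rw [div_le_one q3]
    exact h3
  linarith

/-! ## the vertex sets, stretches -/

theorem y0_z (Lam : ℝ) (A c0 : ℕ) (hx : (2 * Lam : ℝ) ≠ 0) : y0 Lam A c0 = (2 * Lam) ^ ((24 * c0 : ℤ) - c1F A c0) := by
  unfold y0
  rw [div_eq_mul_inv, ipz, pz, ← zpow_add₀ hx]
  congr 1

theorem yp_z (Lam : ℝ) (A c0 : ℕ) (hx : (2 * Lam : ℝ) ≠ 0) : yp Lam A c0 = (2 * Lam) ^ ((28 * c0 : ℤ) - c1F A c0) := by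
  unfold yp
  rw [div_eq_mul_inv, ipz, pz, ← zpow_add₀ hx]
  congr 1

/-- **the part `V`** : activity `GA`, mass at the removals `GV`, `gY`-sum `GY` -/
theorem V_num {A : ℕ} (hA : 80 ≤ A) (ka kg : ℕ) : Ev (fun c0 Lam => ∀ GA GV Bd GY dY S L K h : ℝ,
    0 ≤ GA → GA ≤ pw Lam kg → 0 ≤ GV → GV ≤ pw Lam (ka + 13) → 0 ≤ Bd → Bd ≤ (pw Lam c0)⁻¹ → 0 ≤ GY → GY ≤ pw Lam 10 →
    0 ≤ dY → dY ≤ (pw Lam c0)⁻¹ → 0 ≤ S → S ≤ Real.exp (8 * pQ Lam c0) → 0 ≤ L → L ≤ pw Lam 2 → 0 ≤ K → K ≤ pw Lam 2 →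
    0 ≤ h → h ≤ pw Lam 2 →
    L * (uV Lam ka kg / 2) * GA + (lamV Lam ka + (lamV Lam ka + K) * (4 * y0 Lam A c0 / uV Lam ka kg)) * GV +
      2 * (lamV Lam ka + K) * Bd + L * (h * uV Lam ka kg / lamV Lam ka) * GY + L * dY +
        L / ((MQ Lam c0 : ℝ) + 1) * S ≤ (pw Lam 40)⁻¹) := by
  refine ((scales A 0 1024).and (Ev.ge (ka + kg + 200))).mono fun c0 Lam hL ⟨⟨h1, h2, h3, h4⟩, h5⟩
    GA GV Bd GY dY S L K h a0 a1 b0 b1 c0' c1' d0' d1' e0' e1' f0 f1 g0 g1 h0' i1 j0 j1 => ?_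
  obtain ⟨g, hg⟩ : ∃ g : ℤ, g = -43 := ⟨_, rfl⟩
  have hx : (4 : ℝ) ≤ 2 * Lam := by linarith
  have hx0 : (2 * Lam : ℝ) ≠ 0 := by linarith
  have hc := c1_big (c0 := c0) hA
  have o := one_ell hL A c0
  have hpe : pe Lam 0 c0 = pw Lam c0 := by unfold pe pw; rw [pow_zero, div_one]
  rw [hpe] at h1 h2
  push_cast at h1 h2 h3
  have b8 := pQ_pos hL c0
  have uz : uV Lam ka kg = (2 * Lam) ^ (-(ka + kg + 120 : ℤ)) := by
    unfold uV
    rw [ipz]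
    push_cast
    rfl
  have lz : lamV Lam ka = (2 * Lam) ^ (-(ka + 60 : ℤ)) := by
    unfold lamV
    rw [ipz]
    push_cast
    rfl
  have l0 : 0 < lamV Lam ka := by rw [lz]; exact Fn.zpos hx _
  have u0 : 0 < uV Lam ka kg := by rw [uz]; exact Fn.zpos hx _
  have y0' : 0 < y0 Lam A c0 := by rw [y0_z Lam A c0 hx0]; exact Fn.zpos hx _
  rw [pz] at a1 b1 d1' g1 i1 j1
  rw [ipz] at c1' e1'
  have t1 : L * (uV Lam ka kg / 2) * GA ≤ (2 * Lam) ^ g := by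
    have a2 : uV Lam ka kg / 2 ≤ (2 * Lam) ^ (-(ka + kg + 120 : ℤ)) := by rw [← uz]; linarith
    exact (Fn.mul2 hx a0 (Fn.mul2 hx (half_pos u0).le g1 a2) a1).trans (Fn.zle hx (by push_cast; omega))
  have q1 : lamV Lam ka + K ≤ (2 * Lam) ^ (3 : ℤ) :=
    Fn.add2 hx ((le_of_eq lz).trans (Fn.zle hx (show -(ka + 60 : ℤ) ≤ ((2 : ℕ) : ℤ) by push_cast; omega))) i1
  have q2 : 4 * y0 Lam A c0 / uV Lam ka kg ≤ (2 * Lam) ^ (-(ka + 70 : ℤ)) := by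
    have e1 : (uV Lam ka kg)⁻¹ = (2 * Lam) ^ (ka + kg + 120 : ℤ) := by rw [uz, ← zpow_neg, neg_neg]
    rw [div_eq_mul_inv, e1, y0_z Lam A c0 hx0]
    refine (Fn.mul2 hx (Fn.zpos hx _).le (Fn.mul2 hx (Fn.zpos hx _).le (Fn.cst hx 1 (c := 4) (by norm_num)) le_rfl)
      le_rfl).trans (Fn.zle hx ?_)
    push_cast
    omega
  have t2 : (lamV Lam ka + (lamV Lam ka + K) * (4 * y0 Lam A c0 / uV Lam ka kg)) * GV ≤ (2 * Lam) ^ g := by
    have a2 := (Fn.mul2 hx (div_nonneg (by linarith) u0.le) q1 q2).trans (Fn.zle hx (show (3 : ℤ) + -(ka + 70 : ℤ) ≤ -(ka + 60 : ℤ) by omega))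
    exact (Fn.mul2 hx b0 (Fn.add2 hx (le_of_eq lz) a2) b1).trans (Fn.zle hx (by push_cast; omega))
  have t3 : 2 * (lamV Lam ka + K) * Bd ≤ (2 * Lam) ^ g :=
    (Fn.mul2 hx c0' (Fn.mul2 hx (add_nonneg l0.le h0') (Fn.cst hx 1 (c := 2) (by norm_num)) q1) c1').trans
      (Fn.zle hx (by push_cast; omega))
  have t4 : L * (h * uV Lam ka kg / lamV Lam ka) * GY ≤ (2 * Lam) ^ g := by
    have e1 : (lamV Lam ka)⁻¹ = (2 * Lam) ^ (ka + 60 : ℤ) := by rw [lz, ← zpow_neg, neg_neg]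
    have a2 : h * uV Lam ka kg / lamV Lam ka ≤ (2 * Lam) ^ (((2 : ℕ) : ℤ) + -(ka + kg + 120 : ℤ) + (ka + 60 : ℤ)) := by
      rw [div_eq_mul_inv]
      exact Fn.mul2 hx (by rw [e1]; exact (Fn.zpos hx _).le) (Fn.mul2 hx u0.le j1 (le_of_eq uz)) (le_of_eq e1)
    exact (Fn.mul2 hx d0' (Fn.mul2 hx (div_nonneg (mul_nonneg j0 u0.le) l0.le) g1 a2) d1').trans (Fn.zle hx (by push_cast; omega))
  have t5 : L * dY ≤ (2 * Lam) ^ g := (Fn.mul2 hx e0' g1 e1').trans (Fn.zle hx (by push_cast; omega))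
  have t6 : L / ((MQ Lam c0 : ℝ) + 1) * S ≤ (2 * Lam) ^ g := by
    have b1 := le_MQ Lam c0
    have b2 : ((MQ Lam c0 : ℝ) + 1)⁻¹ ≤ Real.exp (-(pQ Lam c0 ^ 2)) := by
      rw [Real.exp_neg]
      exact inv_anti₀ (Real.exp_pos _) (by linarith)
    have b3 : L ≤ Real.exp ((1 : ℕ) * ell Lam A c0) := by
      rw [← pz] at g1
      exact g1.trans (pw_ell hL A c0 (by omega))
    rw [div_eq_mul_inv]
    refine (mulE f0 (mulE (by positivity) b3 b2) f1).trans ((leE (b := -((1 : ℕ) * ell Lam A c0)) ?_).trans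
      ((inv_ell hL A c0 (k := 1) (a := 43) (by omega)).trans ?_))
    · push_cast
      linarith
    · rw [ipz]
      refine Fn.zle hx ?_
      rw [hg]
      norm_num
  have s1 := Fn.add2 hx t1 t2
  have s2 := Fn.add2 hx t3 t4
  have s3 := Fn.add2 hx t5 t6
  have s4 := Fn.add2 hx (Fn.add2 hx s1 s2) (s3.trans (Fn.zle hx (show g + 1 ≤ g + 1 + 1 by omega)))
  rw [ipz Lam 40]
  refine le_trans (le_of_eq ?_) (s4.trans (Fn.zle hx (by push_cast; omega)))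
  ring

/-- the number of the stretches -/
theorem srt_num (A ka km m1 : ℕ) : Ev (fun c0 Lam => ∀ S1 S2 GV MM Bd y1 : ℝ, 0 ≤ S1 → 0 ≤ S2 →
    (yp Lam A c0 - y0 Lam A c0) * S1 ≤ GV + Bd → (uex Lam m1 - y1) * (yp Lam A c0 * S2) ≤ MM + Bd →
    GV ≤ pw Lam (ka + 13) → MM ≤ pw Lam km → Bd ≤ 1 → y1 ≤ uex Lam m1 / 2 →
    (S1 + S2) * yp Lam A c0 ≤ pw Lam (ka + km + m1 + 18)) := by
  refine (Ev.ge 2).mono fun c0 Lam hL hc2 S1 S2 GV MM Bd y1 s1 s2 h1 h2 h3 h4 h5 h6 => ?_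
  have hx : (4 : ℝ) ≤ 2 * Lam := by linarith
  have hx0 : (2 * Lam : ℝ) ≠ 0 := by linarith
  have hyp : 0 < yp Lam A c0 := by rw [yp_z Lam A c0 hx0]; exact Fn.zpos hx _
  have hy0 : y0 Lam A c0 ≤ yp Lam A c0 / 2 := by
    rw [le_div_iff₀ (by norm_num), y0_z Lam A c0 hx0, yp_z Lam A c0 hx0]
    refine (Fn.mul2 hx (by norm_num) le_rfl (Fn.cst hx 1 (c := 2) (by norm_num))).trans (Fn.zle hx ?_)
    push_cast
    omega
  have hux : 0 < uex Lam m1 := inv_pos.2 (pw_pos hL _)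
  have a1 : S1 * yp Lam A c0 ≤ pw Lam (ka + km + m1 + 17) := by
    have b1 : S1 * yp Lam A c0 ≤ 2 * (GV + Bd) := by
      have : yp Lam A c0 / 2 * S1 ≤ (yp Lam A c0 - y0 Lam A c0) * S1 := mul_le_mul_of_nonneg_right (by linarith) s1
      linarith
    have b2 : GV + Bd ≤ pw Lam (ka + 14) := pw_sum hL h3 (h5.trans (pw_one hL 0)) (by omega) (by omega)
    have b3 : 2 * (GV + Bd) ≤ pw Lam (ka + 15) := by
      have := pw_sum (c := ka + 15) hL b2 b2 (by omega) (by omega)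
      linarith
    exact (b1.trans b3).trans (pw_mono hL (by omega))
  have a2 : S2 * yp Lam A c0 ≤ pw Lam (ka + km + m1 + 17) := by
    have b1 : uex Lam m1 / 2 * (yp Lam A c0 * S2) ≤ MM + Bd := by
      refine le_trans (mul_le_mul_of_nonneg_right ?_ (mul_nonneg hyp.le s2)) h2
      linarith
    have b2 : MM + Bd ≤ pw Lam (km + 1) := pw_sum hL h4 (h5.trans (pw_one hL 0)) (by omega) (by omega)
    have b3 : S2 * yp Lam A c0 = (2 * pw Lam m1) * (uex Lam m1 / 2 * (yp Lam A c0 * S2)) := by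
      have := pw_pos hL m1
      unfold uex
      field_simp
    rw [b3]
    have b4 : (2 : ℝ) ≤ pw Lam 1 := by
      have := pw_four hL 1
      norm_num at this
      linarith
    have c1 := pw_pos hL m1
    have c2 := pw_pos hL 1
    calc (2 * pw Lam m1) * (uex Lam m1 / 2 * (yp Lam A c0 * S2)) ≤ (pw Lam 1 * pw Lam m1) * pw Lam (km + 1) :=
          mul_le_mul (mul_le_mul_of_nonneg_right b4 c1.le) (b1.trans b2) (by positivity) (by positivity)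
      _ = pw Lam (1 + m1 + (km + 1)) := by rw [pw_add hL (1 + m1) (km + 1), pw_add hL 1 m1]
      _ ≤ _ := pw_mono hL (by omega)
  rw [add_mul]
  exact pw_sum hL a1 a2 (by omega) (by omega)

/-- **what a stretch costs** : `k` = the exponent of `srt_num` -/
theorem str_num {A : ℕ} (hA : 80 ≤ A) (k K : ℕ) : Ev (fun c0 Lam => ∀ S L h NL N0 : ℝ, 0 ≤ S → S * yp Lam A c0 ≤ pw Lam k →
    0 ≤ L → L ≤ pw Lam 2 → 0 ≤ h → h ≤ pw Lam 2 → 0 ≤ NL → NL ≤ 100 * (pw Lam c0 * pw Lam (c1F A c0) * Lam) →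
    0 ≤ N0 → N0 ≤ pw Lam k →
    L * ((h * yp Lam A c0) ^ 2 * S) ≤ (pw Lam K)⁻¹ ∧ L * (y0 Lam A c0 * S) ≤ (pw Lam K)⁻¹ ∧
      L * (yp Lam A c0 ^ 2 * NL) ≤ (pw Lam K)⁻¹ ∧ L * (yp Lam A c0 * N0) ≤ (pw Lam K)⁻¹) := by
  refine (Ev.ge (k + K + 20)).mono fun c0 Lam hL hck S L h NL N0 s0 s1 l0 l1 h0 h1 n0 n1 m0 m1 => ?_
  have hx : (4 : ℝ) ≤ 2 * Lam := by linarith
  have hx0 : (2 * Lam : ℝ) ≠ 0 := by linarith
  have hc := c1_big (c0 := c0) hA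
  have hyp : 0 < yp Lam A c0 := by rw [yp_z Lam A c0 hx0]; exact Fn.zpos hx _
  rw [pz] at s1 l1 h1 m1
  have ey := yp_z Lam A c0 hx0
  rw [ipz Lam K]
  refine ⟨?_, ?_, ?_, ?_⟩
  · have e1 : L * ((h * yp Lam A c0) ^ 2 * S) = L * (h * (h * (yp Lam A c0 * (S * yp Lam A c0)))) := by ring
    rw [e1]
    refine (Fn.mul2 hx (by positivity) l1 (Fn.mul2 hx (by positivity) h1 (Fn.mul2 hx (by positivity) h1
      (Fn.mul2 hx (by positivity) (le_of_eq ey) s1)))).trans (Fn.zle hx ?_)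
    push_cast
    omega
  · have e1 : y0 Lam A c0 * S = (2 * Lam) ^ (-(4 * c0 : ℤ)) * (S * yp Lam A c0) := by
      rw [y0_z Lam A c0 hx0, ey, show (24 * c0 : ℤ) - c1F A c0 = -(4 * c0 : ℤ) + ((28 * c0 : ℤ) - c1F A c0) by ring,
        zpow_add₀ hx0]
      ring
    rw [e1]
    refine (Fn.mul2 hx (mul_nonneg (Fn.zpos hx _).le (by positivity)) l1 (Fn.mul2 hx (by positivity) le_rfl s1)).trans
      (Fn.zle hx ?_)
    push_cast
    omega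
  · have e1 : L * (yp Lam A c0 ^ 2 * NL) = L * (yp Lam A c0 * (yp Lam A c0 * NL)) := by ring
    rw [e1]
    refine (Fn.mul2 hx (by positivity) l1 (Fn.mul2 hx (by positivity) (le_of_eq ey) (Fn.mul2 hx n0 (le_of_eq ey)
      (NL_z hL A c0 n1)))).trans (Fn.zle hx ?_)
    push_cast
    omega
  · refine (Fn.mul2 hx (by positivity) l1 (Fn.mul2 hx m0 (le_of_eq ey) m1)).trans (Fn.zle hx ?_)
    push_cast
    omega

/-- **dropping** : `uex` per decision -/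
theorem drop_num {m1 kd : ℕ} (h : kd + 50 ≤ m1) {Lam : ℝ} (hL : 2 ≤ Lam) {L Nd : ℝ} (hL1 : L ≤ pw Lam 2)
    (hd0 : 0 ≤ Nd) (hd : Nd ≤ pw Lam kd) : L * (uex Lam m1 * Nd) ≤ (pw Lam 48)⁻¹ := by
  have hx : (4 : ℝ) ≤ 2 * Lam := by linarith
  rw [pz] at hL1 hd
  unfold uex
  rw [ipz Lam 48]
  refine (Fn.mul2 hx (mul_nonneg (inv_pos.2 (pw_pos hL _)).le hd0) hL1 (Fn.mul2 hx hd0 (le_of_eq (ipz Lam m1)) hd)).trans
    (Fn.zle hx ?_)
  push_cast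
  omega

/-! ## near thresholds (`PigK.nrT_thr`) -/

/-- the number of the intervals -/
noncomputable def mT (Lam : ℝ) (ka c0 : ℕ) : ℕ := ⌈Real.exp (pe Lam ka c0)⌉₊

/-- **thresholds** : `x = 1000 (4 d1 + 16 d0)`, `4 mT x` is smaller than every power of `N1`, `28 / mT` too -/
theorem nr_num (A ka : ℕ) : Ev (fun c0 Lam => 1 ≤ mT Lam ka c0 ∧
    4 * (mT Lam ka c0 : ℝ) * (1000 * (4 * d1 Lam ka c0 + 16 * d0 Lam c0)) ≤ (pw Lam (40 * (c1F A c0 + c0)))⁻¹ ∧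
    ∀ NL : ℝ, 0 ≤ NL → NL ≤ 100 * (pw Lam c0 * pw Lam (c1F A c0) * Lam) →
      28 / (mT Lam ka c0 : ℝ) * NL ≤ (pw Lam (40 * (c1F A c0 + c0)))⁻¹) := by
  refine (scales A ka 256).mono fun c0 Lam hL ⟨h1, h2, _, h4⟩ => ?_
  have o := one_ell hL A c0
  have p := pe_pos hL ka c0
  push_cast at h1 h2
  have hm1 : Real.exp (pe Lam ka c0) ≤ (mT Lam ka c0 : ℝ) := Nat.le_ceil _
  have hm2 : (mT Lam ka c0 : ℝ) ≤ Real.exp (1 + pe Lam ka c0) := by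
    unfold mT
    have a1 := Nat.ceil_lt_add_one (Real.exp_pos (pe Lam ka c0)).le
    have a2 : (1 : ℝ) ≤ Real.exp (pe Lam ka c0) := Real.one_le_exp p.le
    have a3 := cexp 1 (c := 2) (by norm_num)
    push_cast at a3
    rw [Real.exp_add]
    nlinarith
  refine ⟨Nat.ceil_pos.2 (Real.exp_pos _), ?_, fun NL hN0 hN => ?_⟩
  · have a1 : 4 * d1 Lam ka c0 ≤ Real.exp (2 + -(2 * pe Lam ka c0)) := by
      unfold d1
      exact (mulE (Real.exp_pos _).le (cexp 2 (c := 4) (by norm_num)) le_rfl).trans (leE (by push_cast; linarith))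
    have a2 : 16 * d0 Lam c0 ≤ Real.exp (4 + -pQ Lam c0) := by
      unfold d0
      exact (mulE (Real.exp_pos _).le (cexp 4 (c := 16) (by norm_num)) le_rfl).trans (leE (by push_cast; linarith))
    have a3 := addE (c := 5 + -(2 * pe Lam ka c0)) a1 a2 (by linarith) (by linarith)
    have a4 : 0 ≤ 4 * d1 Lam ka c0 + 16 * d0 Lam c0 := by
      unfold d1 d0
      positivity
    refine (mulE (by positivity) (mulE (Nat.cast_nonneg _) (cexp 2 (c := 4) (by norm_num)) hm2)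
      (mulE a4 (cexp 10 (c := 1000) (by norm_num)) a3)).trans ((leE ?_).trans (inv_ell hL A c0 (k := 40) (by omega)))
    push_cast
    linarith
  · have a1 : 28 / (mT Lam ka c0 : ℝ) ≤ Real.exp (5 + -pe Lam ka c0) := by
      rw [div_eq_mul_inv]
      refine (mulE (inv_nonneg.2 (Nat.cast_nonneg _)) (cexp 5 (c := 28) (by norm_num)) (b := -pe Lam ka c0) ?_).trans
        (leE (by push_cast; linarith))
      rw [Real.exp_neg]
      exact inv_anti₀ (Real.exp_pos _) hm1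
    refine (mulE hN0 a1 (NL_ell hL A (by omega) hN)).trans ((leE ?_).trans (inv_ell hL A c0 (k := 40) (by omega)))
    push_cast
    linarith

end Pool.Agent.GMH.CTM
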