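import Pool.Agent.GMH.HLaw
import Pool.Agent.GMH.Path

/-!
# GMH/Tab: label tables (helper12)

One finite table `W` for each label type `i : Fin 3` (the label which misses the vertex `i`).  With the tables the labels of all
times are FUNCTIONS: `lab t i ω x y` sees `y` through `y j`, `j ≠ i`, and the cell of `y i` at `t`, is cumulative, and for fixed
`x`, `y` it has the law `D.kf t i x y`.

* `Om W X β` = hidden point, tables, known points; `Ps` its law; `pt t` = the sample point of the time `t`;
* `pul_pt` : the law of the time `t` is the image of `Ps` under `pt t`, every `t ≤ T`;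
* `sgt E n` : the sight = hidden point, exact points of `E`, cells of the time `n`;
* `crd S S'` : the tables of `S` and the points of `S'`; `Wl n z` = law with the hidden point and the cells of the time `n` as
  at `z` (a product law); `Wl_indep` : functions of complementary coordinates are independent.
-/

set_option autoImplicit false
set_option linter.unusedSectionVars false

namespace Pool.Agent.GMH.Dy

open Finset Pool.Agent.PWZ Pool.Agent.M3 Pool.Agent.GM Pool.Agent.GM.Harm Pool.Agent.GMH

variable {X β γ φ : Type} [Fintype X] [Fintype β] [Fintype φ] [Nonempty X] [Nonempty β]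

/-- label tables -/
structure Tab (D : HD (Fin 3) X β γ φ) (prr : ℕ → Fin 3 → φ → φ) (T : ℕ) (W : Type) [Fintype W] where
  Q : Fin 3 → FP W
  lab : ℕ → Fin 3 → W → X → (Fin 3 → β) → φ
  pr : ∀ t < T, ∀ i ω x y, (Q i).p ω ≠ 0 → prr t i (lab (t + 1) i ω x y) = lab t i ω x y
  dep : ∀ t i ω x y y', (∀ j, j ≠ i → y j = y' j) → D.qb t (y i) = D.qb t (y' i) → lab t i ω x y = lab t i ω x y'
  law : ∀ t ≤ T, ∀ i x y (g : φ → ℝ), (Q i).E (fun ω => g (lab t i ω x y)) = ∑ G, D.kf t i x y G * g G

/-- the sample points with tables -/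
abbrev Om (W X β : Type) := X × (Fin 3 → W) × (Fin 3 → β)

noncomputable section

variable {D : HD (Fin 3) X β γ φ} {al : ℝ} (h : D.Thick al) {prr : ℕ → Fin 3 → φ → φ} {T : ℕ} {W : Type} [Fintype W]

namespace Tab

variable (tb : Tab D prr T W)

/-- the product law -/
def Ps : FP (Om W X β) where
  p w := (∏ i, (tb.Q i).p (w.2.1 i)) / (Fintype.card X * (Fintype.card β : ℝ) ^ 3)
  nn w := by
    have := fun i => (tb.Q i).nn (w.2.1 i)
    exact div_nonneg (Finset.prod_nonneg fun i _ => this i) (by positivity)
  tot := by
    classical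
    have h1 : ∑ ω : Fin 3 → W, ∏ i, (tb.Q i).p (ω i) = 1 := by
      have h2 := Finset.prod_univ_sum (fun _ : Fin 3 => (univ : Finset W)) (fun i ω => (tb.Q i).p ω)
      rw [Fintype.piFinset_univ] at h2
      rw [← h2]
      exact Finset.prod_eq_one fun i _ => (tb.Q i).tot
    rw [← Finset.sum_div, Fintype.sum_prod_type]
    have h3 : ∀ x : X, ∑ w : (Fin 3 → W) × (Fin 3 → β), ∏ i, (tb.Q i).p (w.1 i) = (Fintype.card β : ℝ) ^ 3 := by
      intro x
      rw [Fintype.sum_prod_type, Finset.sum_comm]
      simp only [h1]
      rw [Finset.sum_const, Finset.card_univ, nsmul_eq_mul, mul_one, Fintype.card_fun, Fintype.card_fin]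
      push_cast
      rfl
    rw [Finset.sum_congr rfl fun x _ => h3 x, Finset.sum_const, Finset.card_univ, nsmul_eq_mul]
    have h4 : (Fintype.card X : ℝ) ≠ 0 := by exact_mod_cast Fintype.card_ne_zero
    have h5 : (Fintype.card β : ℝ) ≠ 0 := by exact_mod_cast Fintype.card_ne_zero
    exact div_self (mul_ne_zero h4 (pow_ne_zero _ h5))

/-- the sample point of the time `t` -/
def pt (t : ℕ) (w : Om W X β) : Pt (Fin 3) X β φ := (w.1, w.2.2, fun i => tb.lab t i (w.2.1 i) w.1 w.2.2)

end Tab

/-- the tables `S` and the points `S'` -/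
def crd (S S' : Finset (Fin 3)) (w : Om W X β) : (Fin 3 → Option W) × (Fin 3 → Option β) :=
  (fun i => if i ∈ S then some (w.2.1 i) else none, fun j => if j ∈ S' then some (w.2.2 j) else none)

/-- hidden point and cells of the known points at the time `n` -/
def cll (D : HD (Fin 3) X β γ φ) (n : ℕ) (w : Om W X β) : X × (Fin 3 → γ) := (w.1, fun j => D.qb n (w.2.2 j))

/-- the sight: hidden point, exact points of `E`, cells of all points at the time `n` -/
def sgt (D : HD (Fin 3) X β γ φ) (E : Finset (Fin 3)) (n : ℕ) (w : Om W X β) : X × (Fin 3 → Option β) × (Fin 3 → γ) :=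
  (w.1, (fun j => if j ∈ E then some (w.2.2 j) else none), fun j => D.qb n (w.2.2 j))

/-- law with the hidden point and the cells of the time `n` as at `z` -/
def Tab.Wl (tb : Tab D prr T W) (n : ℕ) (z : Om W X β) : FP (Om W X β) := tb.Ps.cond fun w => cll D n w = cll D n z

end

end Pool.Agent.GMH.Dy
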