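import Pool.Agent.GMH.RowC
import Pool.Agent.GMH.Tab

/-!
# GMH/TabE: existence of the LABEL TABLES (helper46)

One table `ω : W` for every label `l`; `lab t l ω x y` = the label `l` of the time `t` at `(x, y)`:
* it sees `y` through `y j`, `j ≠ l`, and the cell of `y l` of the time `t` (`dep`);
* it is cumulative for every `ω` (`cum`);
* for fixed `(x, y)` its law over `ω` is `D.kf t l x y` (`law`);
* tables over disjoint sets of `(x, y off l)` are independent (`sec`).
`exists_tab` : existence; `tab_push` : the law of `(x, y, labels of t)` is `D.P h t`.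
-/

set_option autoImplicit false
set_option linter.unusedSectionVars false

namespace Pool.Agent.GMH.TabE

open Finset Pool.Agent.PWZ Pool.Agent.M3 Pool.Agent.GM Pool.Agent.GM.Harm Pool.Agent.GMH Pool.Agent.GMH.RC

noncomputable section

section pi

variable {I Φ : Type*} [Fintype I] [DecidableEq I] [Fintype Φ]

/-- functions of disjoint sets of coordinates are independent -/
theorem FPpi_indep (q : I → FP Φ) (S : I → Prop) {f g : (I → Φ) → ℝ}
    (hf : ∀ θ θ' : I → Φ, (∀ i, S i → θ i = θ' i) → f θ = f θ')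
    (hg : ∀ θ θ' : I → Φ, (∀ i, ¬ S i → θ i = θ' i) → g θ = g θ') :
    (FPpi q).E (fun θ => f θ * g θ) = (FPpi q).E f * (FPpi q).E g := by
  classical
  have h1 := FPpi_mix q (univ.filter S) (fun θ => f θ * g θ)
  rw [← h1]
  have h2 : ∀ F' F : I → Φ, f (fun i => if i ∈ univ.filter S then F' i else F i) *
      g (fun i => if i ∈ univ.filter S then F' i else F i) = f F' * g F := by
    intro F' F
    congr 1
    · refine hf _ _ fun i hi => ?_
      show (if i ∈ univ.filter S then F' i else F i) = F' i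
      rw [if_pos (mem_filter.2 ⟨mem_univ i, hi⟩)]
    · refine hg _ _ fun i hi => ?_
      show (if i ∈ univ.filter S then F' i else F i) = F i
      rw [if_neg fun hh => hi (mem_filter.1 hh).2]
  have h3 : ∀ F' : I → Φ, (FPpi q).E (fun F => f (fun i => if i ∈ univ.filter S then F' i else F i) *
      g (fun i => if i ∈ univ.filter S then F' i else F i)) = f F' * (FPpi q).E g := by
    intro F'
    rw [← FP.E_smul]
    exact (FPpi q).E_congr fun F _ => h2 F' F
  rw [(FPpi q).E_congr fun F' _ => h3 F', FP.E_mul_const]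

end pi

section tab

variable {K X β γ φ : Type} [Fintype K] [DecidableEq K] [Fintype X] [Fintype β] [Fintype φ] [Nonempty X] [Nonempty β]
  {D : HD K X β γ φ} {al : ℝ} (h : D.Thick al) (prr : ℕ → K → φ → φ) (T : ℕ)

/-- coarser cells -/
theorem qb_anti (D : HD K X β γ φ) {s t : ℕ} (hst : s ≤ t) {b b' : β} (hb : D.qb t b = D.qb t b') :
    D.qb s b = D.qb s b' := by
  induction hst with
  | refl => exact hb
  | step _ ih => exact ih (D.rb _ _ _ hb)

theorem kf_rep' (D : HD K X β γ φ) {s t : ℕ} (hst : s ≤ t) (l : K) (x : X) (y : K → β) :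
    D.kf s l x (rep D t (univ.erase l) y) = D.kf s l x y := by
  have h1 := rep_same (D := D) (t := t) (univ.erase l) y
  exact D.dep s l x _ _ (fun j hj => h1.1 j (Finset.mem_erase.2 ⟨hj, mem_univ j⟩)) (qb_anti D hst (h1.2 l))

/-- compatibility of the kernels -/
def Comp (D : HD K X β γ φ) (prr : ℕ → K → φ → φ) (T : ℕ) : Prop :=
  ∀ t < T, ∀ l x y F, D.kf t l x y F = ∑ F', ind (prr t l F' = F) * D.kf (t + 1) l x y F'

/-- the new label given the old one -/
def cK (hc : Comp D prr T) (t : ℕ) (l : K) (x : X) (y : K → β) (F : φ) : FP φ :=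
  open Classical in
  if hh : t < T ∧ D.kf t l x y F ≠ 0 then
    { p := fun F' => ind (prr t l F' = F) * D.kf (t + 1) l x y F' / D.kf t l x y F
      nn := fun F' => div_nonneg (mul_nonneg (ind_nonneg _) (h.nn _ _ _ _ _)) (h.nn _ _ _ _ _)
      tot := by
        rw [← Finset.sum_div, ← hc t hh.1 l x y F]
        exact div_self hh.2 }
  else kf1 h (t + 1) l x y

variable {prr T} (hc : Comp D prr T)

theorem cK_pos {t : ℕ} {l : K} {x : X} {y : K → β} {F : φ} (ht : t < T) (hF : D.kf t l x y F ≠ 0) (F' : φ) :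
    (cK h prr T hc t l x y F).p F' = ind (prr t l F' = F) * D.kf (t + 1) l x y F' / D.kf t l x y F := by
  unfold cK
  rw [dif_pos ⟨ht, hF⟩]

/-- the step of the law -/
theorem cK_law {t : ℕ} (ht : t < T) (l : K) (x : X) (y : K → β) (F' : φ) :
    ∑ F, D.kf t l x y F * (cK h prr T hc t l x y F).p F' = D.kf (t + 1) l x y F' := by
  classical
  have hle : D.kf (t + 1) l x y F' ≤ D.kf t l x y (prr t l F') := by
    rw [hc t ht l x y]
    have h1 : ind (prr t l F' = prr t l F') * D.kf (t + 1) l x y F' ≤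
        ∑ G, ind (prr t l G = prr t l F') * D.kf (t + 1) l x y G :=
      Finset.single_le_sum (f := fun G => ind (prr t l G = prr t l F') * D.kf (t + 1) l x y G)
        (fun G _ => mul_nonneg (ind_nonneg _) (h.nn _ _ _ _ _)) (mem_univ F')
    rw [ind_of rfl, one_mul] at h1
    exact h1
  rw [Finset.sum_eq_single (prr t l F')]
  · by_cases h0 : D.kf t l x y (prr t l F') = 0
    · rw [h0, zero_mul]
      have := h.nn (t + 1) l x y F'
      linarith
    · rw [cK_pos h hc ht h0, ind_of rfl, one_mul, mul_div_assoc', mul_div_cancel_left₀ _ h0]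
  · intro F _ hF
    by_cases h0 : D.kf t l x y F = 0
    · rw [h0, zero_mul]
    · rw [cK_pos h hc ht h0, ind_not fun hh => hF hh.symm, zero_mul, zero_div, mul_zero]
  · intro hh; exact absurd (mem_univ _) hh

variable (K X β φ T) in
/-- a coordinate of a table: point, time, old label -/
def Ix : Type := (X × (K → β)) × (Fin (T + 1) × Option φ)

instance : DecidableEq (Ix K X β φ T) := Classical.decEq _

instance : Fintype (Ix K X β φ T) := inferInstanceAs (Fintype ((X × (K → β)) × (Fin (T + 1) × Option φ)))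

/-- the law of a coordinate, as a function of the time and of the old label -/
def qk0 (l : K) (x : X) (y : K → β) : ℕ → Option φ → FP φ
  | 0, _ => kf1 h 0 l x y
  | t + 1, none => kf1 h (t + 1) l x y
  | t + 1, some F => cK h prr T hc t l x y F

/-- the law of a coordinate -/
def qk (l : K) (i : Ix K X β φ T) : FP φ := qk0 h hc l i.1.1 i.1.2 i.2.1.1 i.2.2

/-- the law of the tables of the label `l` -/
def QT (l : K) : FP (Ix K X β φ T → φ) := FPpi (qk h hc l)

variable (D) in
/-- the label read from a table -/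
def lb (l : K) (ω : Ix K X β φ T → φ) : ℕ → X → (K → β) → φ
  | 0, x, y => ω ((x, rep D 0 (univ.erase l) y), (⟨0, Nat.succ_pos T⟩, none))
  | t + 1, x, y =>
    if ht : t + 1 < T + 1 then ω ((x, rep D (t + 1) (univ.erase l) y), (⟨t + 1, ht⟩, some (lb l ω t x y)))
    else lb l ω t x y

theorem lb_dep (l : K) (ω : Ix K X β φ T → φ) (t : ℕ) (x : X) {y y' : K → β} (h1 : ∀ j, j ≠ l → y j = y' j)
    (h2 : D.qb t (y l) = D.qb t (y' l)) : lb D l ω t x y = lb D l ω t x y' := by
  have key : ∀ s ≤ t, rep D s (univ.erase l) y = rep D s (univ.erase l) y' := by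
    intro s hs
    refine rep_eq (fun j hj => h1 j (Finset.ne_of_mem_erase hj)) fun j => ?_
    by_cases hj : j = l
    · rw [hj]
      exact qb_anti D hs h2
    · rw [h1 j hj]
  have main : ∀ s ≤ t, lb D l ω s x y = lb D l ω s x y' := by
    intro s
    induction s with
    | zero =>
      intro hs
      show ω _ = ω _
      rw [key 0 hs]
    | succ s ih =>
      intro hs
      unfold lb
      rw [key (s + 1) hs, ih (by omega)]
  exact main t le_rfl

/-- the coordinates which are read -/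
theorem lb_coord (l : K) {ω ω' : Ix K X β φ T → φ} (t : ℕ) (x : X) (y : K → β)
    (hω : ∀ i : Ix K X β φ T, i.1.1 = x → (∀ j, j ≠ l → i.1.2 j = y j) → (i.2.1.1 ≤ t) → ω i = ω' i) :
    lb D l ω t x y = lb D l ω' t x y := by
  have hr : ∀ s, ∀ j, j ≠ l → rep D s (univ.erase l) y j = y j := fun s j hj =>
    (rep_same (D := D) (t := s) (univ.erase l) y).1 j (Finset.mem_erase.2 ⟨hj, mem_univ j⟩)
  have main : ∀ s ≤ t, lb D l ω s x y = lb D l ω' s x y := by
    intro s
    induction s with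
    | zero => exact fun hs => hω _ rfl (hr 0) (Nat.zero_le _)
    | succ s ih =>
      intro hs
      unfold lb
      rw [ih (by omega)]
      split_ifs with ht
      · exact hω _ rfl (hr (s + 1)) hs
      · rfl
  exact main t le_rfl

theorem lb_law {t : ℕ} (ht : t ≤ T) (l : K) (x : X) (y : K → β) (F : φ) :
    (QT h hc l).E (fun ω => ind (lb D l ω t x y = F)) = D.kf t l x y F := by
  classical
  induction t generalizing F with
  | zero =>
    have h1 := FPpi_E (qk h hc l) ((x, rep D 0 (univ.erase l) y), (⟨0, Nat.succ_pos T⟩, none)) (fun z => ind (z = F))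
    refine h1.trans ?_
    rw [RC.E_ind_eq]
    show D.kf 0 l x (rep D 0 (univ.erase l) y) F = _
    rw [kf_rep' D le_rfl]
  | succ t ih =>
    have ht' : t + 1 < T + 1 := by omega
    have e1 : ∀ ω : Ix K X β φ T → φ, ind (lb D l ω (t + 1) x y = F) = ∑ G, ind (lb D l ω t x y = G) *
        ind (ω ((x, rep D (t + 1) (univ.erase l) y), (⟨t + 1, ht'⟩, some G)) = F) := by
      intro ω
      rw [Finset.sum_eq_single (lb D l ω t x y)]
      · rw [ind_of rfl, one_mul]
        conv_lhs => unfold lb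
        rw [dif_pos ht']
      · intro G _ hG
        rw [ind_not fun hh => hG hh.symm, zero_mul]
      · intro hh; exact absurd (mem_univ _) hh
    have e2 : (QT h hc l).E (fun ω => ind (lb D l ω (t + 1) x y = F)) = ∑ G, (QT h hc l).E (fun ω =>
        ind (lb D l ω t x y = G) * ind (ω ((x, rep D (t + 1) (univ.erase l) y), (⟨t + 1, ht'⟩, some G)) = F)) := by
      rw [← FP.E_sum]
      exact (QT h hc l).E_congr fun ω _ => e1 ω
    rw [e2, ← cK_law h hc (by omega) l x y F]
    refine Finset.sum_congr rfl fun G _ => ?_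
    have e3 := FPpi_indep (qk h hc l) (fun i => i.2.1.1 ≤ t) (f := fun ω => ind (lb D l ω t x y = G))
      (g := fun ω => ind (ω ((x, rep D (t + 1) (univ.erase l) y), (⟨t + 1, ht'⟩, some G)) = F))
      (fun θ θ' hθ => by
        show ind _ = ind _
        rw [lb_coord l t x y fun i _ _ hi => hθ i hi])
      (fun θ θ' hθ => by
        have e0 : θ ((x, rep D (t + 1) (univ.erase l) y), (⟨t + 1, ht'⟩, some G)) =
            θ' ((x, rep D (t + 1) (univ.erase l) y), (⟨t + 1, ht'⟩, some G)) :=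
          hθ _ (fun hh => absurd (show t + 1 ≤ t from hh) (by omega))
        show ind _ = ind _
        rw [e0])
    have e4 := FPpi_E (qk h hc l) ((x, rep D (t + 1) (univ.erase l) y), (⟨t + 1, ht'⟩, some G)) (fun z => ind (z = F))
    have e5 : (qk h hc l ((x, rep D (t + 1) (univ.erase l) y), (⟨t + 1, ht'⟩, some G))).E (fun z => ind (z = F)) =
        (cK h prr T hc t l x (rep D (t + 1) (univ.erase l) y) G).p F := RC.E_ind_eq _ F
    have e6 : (QT h hc l).E (fun ω => ind (lb D l ω t x y = G)) = D.kf t l x y G := ih (by omega) G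
    have e7 : (cK h prr T hc t l x (rep D (t + 1) (univ.erase l) y) G).p F = (cK h prr T hc t l x y G).p F := by
      by_cases h0 : D.kf t l x y G = 0
      · unfold cK
        rw [dif_neg (fun hh => hh.2 (by rw [kf_rep' D (Nat.le_succ t)]; exact h0)), dif_neg (fun hh => hh.2 h0)]
        show D.kf (t + 1) l x _ F = D.kf (t + 1) l x y F
        rw [kf_rep' D le_rfl]
      · rw [cK_pos h hc (by omega) h0, cK_pos h hc (by omega) (by rw [kf_rep' D (Nat.le_succ t)]; exact h0),
          kf_rep' D (Nat.le_succ t), kf_rep' D le_rfl]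
    refine e3.trans ?_
    rw [← e7, ← e5, ← e4]
    exact congrArg (· * _) e6

/-- on the support the labels of the table have positive probability -/
theorem lb_supp {l : K} {ω : Ix K X β φ T → φ} (hω : (QT h hc l).p ω ≠ 0) {t : ℕ} (ht : t ≤ T) (x : X) (y : K → β) :
    D.kf t l x y (lb D l ω t x y) ≠ 0 := by
  rw [← lb_law h hc ht l x y]
  have h1 : (QT h hc l).p ω ≤ (QT h hc l).E (fun ω' => ind (lb D l ω' t x y = lb D l ω t x y)) := by
    unfold FP.E
    have h2 : (QT h hc l).p ω * ind (lb D l ω t x y = lb D l ω t x y) ≤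
        ∑ ω' : Ix K X β φ T → φ, (QT h hc l).p ω' * ind (lb D l ω' t x y = lb D l ω t x y) :=
      Finset.single_le_sum (f := fun ω' => (QT h hc l).p ω' * ind (lb D l ω' t x y = lb D l ω t x y))
        (fun ω' _ => mul_nonneg ((QT h hc l).nn ω') (ind_nonneg _)) (mem_univ ω)
    rw [ind_of rfl, mul_one] at h2
    exact h2
  have h3 : 0 < (QT h hc l).p ω := lt_of_le_of_ne ((QT h hc l).nn ω) (Ne.symm hω)
  exact (h3.trans_le h1).ne'

/-- cumulative on the support -/
theorem lb_cum {l : K} {ω : Ix K X β φ T → φ} (hω : (QT h hc l).p ω ≠ 0) {t : ℕ} (ht : t < T) (x : X) (y : K → β) :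
    prr t l (lb D l ω (t + 1) x y) = lb D l ω t x y := by
  classical
  have ht' : t + 1 < T + 1 := by omega
  set i : Ix K X β φ T := ((x, rep D (t + 1) (univ.erase l) y), (⟨t + 1, ht'⟩, some (lb D l ω t x y))) with hi
  have h1 : (qk h hc l i).p (ω i) ≠ 0 := FPpi_supp (q := qk h hc l) hω i
  have h2 : (qk h hc l i).p (ω i) = (cK h prr T hc t l x (rep D (t + 1) (univ.erase l) y) (lb D l ω t x y)).p (ω i) := rfl
  have h0 : D.kf t l x (rep D (t + 1) (univ.erase l) y) (lb D l ω t x y) ≠ 0 := by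
    rw [kf_rep' D (Nat.le_succ t)]
    exact lb_supp h hc hω (by omega) x y
  rw [h2, cK_pos h hc ht h0] at h1
  have h3 : ind (prr t l (ω i) = lb D l ω t x y) ≠ 0 := by
    intro hh
    rw [hh, zero_mul, zero_div] at h1
    exact h1 rfl
  have h4 : prr t l (ω i) = lb D l ω t x y := by
    by_contra hh
    exact h3 (ind_not hh)
  have h5 : lb D l ω (t + 1) x y = ω i := by
    conv_lhs => unfold lb
    rw [dif_pos ht']
  rw [h5, h4]

/-- the repaired table -/
def fx (l : K) (ω : Ix K X β φ T → φ) : Ix K X β φ T → φ :=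
  open Classical in if (QT h hc l).p ω ≠ 0 then ω else (QT h hc l).exists_p_ne.choose

theorem fx_supp (l : K) (ω : Ix K X β φ T → φ) : (QT h hc l).p (fx h hc l ω) ≠ 0 := by
  unfold fx
  split_ifs with hh
  · exact hh
  · exact (QT h hc l).exists_p_ne.choose_spec

theorem fx_eq {l : K} {ω : Ix K X β φ T → φ} (hω : (QT h hc l).p ω ≠ 0) : fx h hc l ω = ω := by
  unfold fx
  rw [if_pos hω]

/-- the label read from the repaired table, constant after `T` -/
def lab (t : ℕ) (l : K) (ω : Ix K X β φ T → φ) (x : X) (y : K → β) : φ := lb D l (fx h hc l ω) t x y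

/-- independence of the tables over disjoint sets of points -/
theorem lab_sec (l : K) (A : X → (K → β) → Prop) (hA : ∀ x y y', (∀ j, j ≠ l → y j = y' j) → A x y → A x y')
    {f g : (Ix K X β φ T → φ) → ℝ}
    (hf : ∀ ω ω' : Ix K X β φ T → φ, (∀ t x y, A x y → lab h hc t l ω x y = lab h hc t l ω' x y) → f ω = f ω')
    (hg : ∀ ω ω' : Ix K X β φ T → φ, (∀ t x y, ¬ A x y → lab h hc t l ω x y = lab h hc t l ω' x y) → g ω = g ω') :
    (QT h hc l).E (fun ω => f ω * g ω) = (QT h hc l).E f * (QT h hc l).E g := by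
  classical
  -- the part of the values on a set of points
  have key : ∀ (B : X → (K → β) → Prop) (F : (Ix K X β φ T → φ) → ℝ),
      (∀ ω ω' : Ix K X β φ T → φ, (∀ t x y, B x y → lab h hc t l ω x y = lab h hc t l ω' x y) → F ω = F ω') →
      ∃ F' : (Ix K X β φ T → φ) → ℝ, (∀ ω, (QT h hc l).p ω ≠ 0 → F ω = F' ω) ∧
        ∀ ω ω' : Ix K X β φ T → φ, (∀ i : Ix K X β φ T, B i.1.1 i.1.2 → ω i = ω' i) →
          (∀ x y y', (∀ j, j ≠ l → y j = y' j) → B x y → B x y') → F' ω = F' ω' := by
    intro B F hF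
    refine ⟨fun ω => if hh : ∃ ω0, (QT h hc l).p ω0 ≠ 0 ∧ ∀ t x y, B x y → lb D l ω0 t x y = lb D l ω t x y then
      F hh.choose else 0, fun ω hω => ?_, fun ω ω' hω hB => ?_⟩
    · have hh : ∃ ω0, (QT h hc l).p ω0 ≠ 0 ∧ ∀ t x y, B x y → lb D l ω0 t x y = lb D l ω t x y := ⟨ω, hω, fun _ _ _ _ => rfl⟩
      show F ω = if hh : ∃ ω0, (QT h hc l).p ω0 ≠ 0 ∧ ∀ t x y, B x y → lb D l ω0 t x y = lb D l ω t x y then
        F hh.choose else 0
      rw [dif_pos hh]
      refine hF _ _ fun t x y hxy => ?_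
      have h1 := hh.choose_spec.2 t x y hxy
      unfold lab
      rw [fx_eq h hc hω, fx_eq h hc hh.choose_spec.1, h1]
    · have e : ∀ t x y, B x y → lb D l ω t x y = lb D l ω' t x y := by
        intro t x y hxy
        refine lb_coord l t x y fun i h1 h2 _ => hω i ?_
        have h3 := hB x y i.1.2 (fun j hj => (h2 j hj).symm) hxy
        rw [h1]
        exact h3
      have e2 : (fun ω0 : Ix K X β φ T → φ => (QT h hc l).p ω0 ≠ 0 ∧ ∀ t x y, B x y → lb D l ω0 t x y = lb D l ω t x y) =
          fun ω0 => (QT h hc l).p ω0 ≠ 0 ∧ ∀ t x y, B x y → lb D l ω0 t x y = lb D l ω' t x y := by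
        funext ω0
        refine propext (and_congr_right fun _ => ?_)
        constructor
        · intro hh t x y hxy
          rw [hh t x y hxy, e t x y hxy]
        · intro hh t x y hxy
          rw [hh t x y hxy, e t x y hxy]
      show (if hh : ∃ ω0, (fun ω0 : Ix K X β φ T → φ => (QT h hc l).p ω0 ≠ 0 ∧
          ∀ t x y, B x y → lb D l ω0 t x y = lb D l ω t x y) ω0 then F hh.choose else 0) =
        if hh : ∃ ω0, (fun ω0 : Ix K X β φ T → φ => (QT h hc l).p ω0 ≠ 0 ∧
          ∀ t x y, B x y → lb D l ω0 t x y = lb D l ω' t x y) ω0 then F hh.choose else 0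
      simp only [e2]
  obtain ⟨f', hf1, hf2⟩ := key A f hf
  obtain ⟨g', hg1, hg2⟩ := key (fun x y => ¬ A x y) g hg
  rw [(QT h hc l).E_congr fun ω hω => by rw [hf1 ω hω, hg1 ω hω], (QT h hc l).E_congr fun ω hω => hf1 ω hω,
    (QT h hc l).E_congr (f := g) fun ω hω => hg1 ω hω]
  exact FPpi_indep (qk h hc l) (fun i => A i.1.1 i.1.2) (fun θ θ' hθ => hf2 θ θ' hθ hA)
    fun θ θ' hθ => hg2 θ θ' hθ fun x y y' hy hn hh => hn (hA x y' y (fun j hj => (hy j hj).symm) hh)

include h hc in
/-- **EXISTENCE OF THE LABEL TABLES** -/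
theorem exists_tab : ∃ (W : Type) (_ : Fintype W) (Q : K → FP W) (lab : ℕ → K → W → X → (K → β) → φ),
    (∀ t l ω x y y', (∀ j, j ≠ l → y j = y' j) → D.qb t (y l) = D.qb t (y' l) → lab t l ω x y = lab t l ω x y') ∧
    (∀ t < T, ∀ l ω x y, prr t l (lab (t + 1) l ω x y) = lab t l ω x y) ∧
    (∀ t ≤ T, ∀ l x y F, (Q l).E (fun ω => ind (lab t l ω x y = F)) = D.kf t l x y F) ∧
    (∀ t ≤ T, ∀ l ω x y, D.kf t l x y (lab t l ω x y) ≠ 0) ∧
    ∀ l (A : X → (K → β) → Prop), (∀ x y y', (∀ j, j ≠ l → y j = y' j) → A x y → A x y') → ∀ f g : W → ℝ,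
      (∀ ω ω', (∀ t x y, A x y → lab t l ω x y = lab t l ω' x y) → f ω = f ω') →
      (∀ ω ω', (∀ t x y, ¬ A x y → lab t l ω x y = lab t l ω' x y) → g ω = g ω') →
      (Q l).E (fun ω => f ω * g ω) = (Q l).E f * (Q l).E g := by
  refine ⟨Ix K X β φ T → φ, inferInstance, QT h hc, lab h hc, fun t l ω x y y' h1 h2 => lb_dep l _ t x h1 h2,
    fun t ht l ω x y => lb_cum h hc (fx_supp h hc l ω) ht x y, fun t ht l x y F => ?_,
    fun t ht l ω x y => lb_supp h hc (fx_supp h hc l ω) ht x y, fun l A hA f g hf hg => lab_sec h hc l A hA hf hg⟩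
  rw [← lb_law h hc ht l x y F]
  refine (QT h hc l).E_congr fun ω hω => ?_
  show ind (lb D l (fx h hc l ω) t x y = F) = _
  rw [fx_eq h hc hω]

end tab

end

end Pool.Agent.GMH.TabE

namespace Pool.Agent.GMH.Dy

open Finset Pool.Agent.PWZ Pool.Agent.M3 Pool.Agent.GM Pool.Agent.GM.Harm Pool.Agent.GMH

variable {X β γ φ : Type} [Fintype X] [Fintype β] [Fintype φ] [Nonempty X] [Nonempty β]
variable {D : HD (Fin 3) X β γ φ} {al : ℝ} (h : D.Thick al) {prr : ℕ → Fin 3 → φ → φ} {T : ℕ}

include h in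
/-- **THE TABLES EXIST**, with independence of the tables over disjoint sets of points -/
theorem exists_tab_sec {dg : ℕ → X → ℝ} {Lam : ℝ} (H : D.Hyp dg prr al T Lam) :
    ∃ (W : Type) (_ : Fintype W) (_ : Nonempty W) (tb : Tab D prr T W),
      (∀ t < T, ∀ i ω x y, prr t i (tb.lab (t + 1) i ω x y) = tb.lab t i ω x y) ∧
      (∀ t ≤ T, ∀ i ω x y, D.kf t i x y (tb.lab t i ω x y) ≠ 0) ∧
      ∀ i (A : X → (Fin 3 → β) → Prop), (∀ x y y', (∀ j, j ≠ i → y j = y' j) → A x y → A x y') → ∀ f g : W → ℝ,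
        (∀ ω ω', (∀ t x y, A x y → tb.lab t i ω x y = tb.lab t i ω' x y) → f ω = f ω') →
        (∀ ω ω', (∀ t x y, ¬ A x y → tb.lab t i ω x y = tb.lab t i ω' x y) → g ω = g ω') →
        (tb.Q i).E (fun ω => f ω * g ω) = (tb.Q i).E f * (tb.Q i).E g := by
  classical
  obtain ⟨W, i1, Q, lab, h1, h2, h3, h4, h5⟩ := TabE.exists_tab (K := Fin 3) h (prr := prr) (T := T) H.kf_pr
  obtain ⟨ω0, _⟩ := (Q 0).exists_p_ne
  refine ⟨W, i1, ⟨ω0⟩, ⟨Q, lab, fun t ht i ω x y _ => h2 t ht i ω x y, h1, fun t ht i x y g => ?_⟩, h2, h4, h5⟩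
  have e1 : ∀ ω, g (lab t i ω x y) = ∑ G, ind (lab t i ω x y = G) * g G := by
    intro ω
    rw [Finset.sum_eq_single (lab t i ω x y)]
    · rw [ind_of rfl, one_mul]
    · intro G _ hG
      rw [ind_not fun hh => hG hh.symm, zero_mul]
    · intro hh; exact absurd (mem_univ _) hh
  rw [(Q i).E_congr fun ω _ => e1 ω, FP.E_sum]
  refine Finset.sum_congr rfl fun G _ => ?_
  rw [FP.E_mul_const, h3 t ht i x y G]

include h in
/-- **THE TABLES EXIST** -/
theorem exists_tab {dg : ℕ → X → ℝ} {Lam : ℝ} (H : D.Hyp dg prr al T Lam) :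
    ∃ (W : Type) (_ : Fintype W) (_ : Nonempty W), Nonempty (Tab D prr T W) := by
  obtain ⟨W, i1, i2, tb, _⟩ := exists_tab_sec h H
  exact ⟨W, i1, i2, ⟨tb⟩⟩

end Pool.Agent.GMH.Dy
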