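import Pool.Agent.GMH.Dyn
import Pool.Agent.GMH.ConTM
import Pool.Agent.GMH.MVS
import Pool.Agent.GMH.TabE

/-!
# GMH/Ctx: one run with its label tables, all constants, as one object (helper12)

* `Ctx` : a run as in `TopKin` together with label tables; `AllC A P` : `P` for all runs of parameter `A` with large `c0`;
  `AllC.and`, `AllC.mono`;
* `kin_ctx` : see `GMH/CtxG`;
* concrete constants of the clocks (`GMH/MVN`) : `UC C ka` : the run instance of `US` with `d1, kb, d0, k0, p1, z` of H3.MOV.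
-/

set_option autoImplicit false
set_option linter.unusedSectionVars false

namespace Pool.Agent.GMH.CX

open Finset Pool.Agent.PWZ Pool.Agent.M3 Pool.Agent.GM Pool.Agent.GM.Harm Pool.Agent.GMH Pool.Agent.GMH.NZ
open Pool.Agent.GMH.V3 Pool.Agent.GMH.TP Pool.Agent.GMH.TD Pool.Agent.GMH.Dy Pool.Agent.GMH.CTM

noncomputable section

/-- a run with its label tables -/
structure Ctx where
  A : ℕ
  c0 : ℕ
  Lam : ℝ
  X : Type
  β : Type
  γ : Type
  φ : Type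
  W : Type
  [iX : Fintype X]
  [iβ : Fintype β]
  [iφ : Fintype φ]
  [iW : Fintype W]
  [nX : Nonempty X]
  [nβ : Nonempty β]
  [nW : Nonempty W]
  D : HD (Fin 3) X β γ φ
  al : ℝ
  h : D.Thick al
  dg : ℕ → X → ℝ
  prr : ℕ → Fin 3 → φ → φ
  T : ℕ
  v : ℕ → Finset (Fin 3) → X → (Fin 3 → β) → Pt (Fin 3) X β φ
  tb : Tab D prr T W
  H : D.Hyp dg prr al T Lam
  hL : 2 ≤ Lam
  R : Run h (pr3 (Fin 3) (pw Lam c0) (pw Lam (c1F A c0))) (SS1 (Fin 3)) (AdmDep D) v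
  hd : (D.P h T).Pr (fun w => ¬ Ar h v (apF Lam A c0) (2 * T) w) ≤ (pw Lam (c0 + A))⁻¹

attribute [instance] Ctx.iX Ctx.iβ Ctx.iφ Ctx.iW Ctx.nX Ctx.nβ Ctx.nW

namespace Ctx

variable (C : Ctx)

/-- price of the thin letters, of the tops -/
def n : ℝ := pw C.Lam C.c0
def N1 : ℝ := pw C.Lam (c1F C.A C.c0)

/-- thresholds of the alive points -/
def p : AP := apF C.Lam C.A C.c0

/-- the points -/
abbrev Q : Type := Pt (Fin 3) C.X C.β C.φ

/-- the points of the table space -/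
abbrev O : Type := Om C.W C.X C.β

theorem n1 : 1 ≤ C.n := pw_one C.hL _
theorem N11 : 1 ≤ C.N1 := pw_one C.hL _
theorem codes : Codes C.D C.v := C.R.codes

end Ctx

/-- for all runs of parameter `A` with large `c0` -/
def AllC (A : ℕ) (P : Ctx → Prop) : Prop := ∃ c0m : ℕ, ∀ C : Ctx, C.A = A → c0m ≤ C.c0 → P C

theorem AllC.and {A : ℕ} {P Q : Ctx → Prop} (hP : AllC A P) (hQ : AllC A Q) : AllC A (fun C => P C ∧ Q C) := by
  obtain ⟨a, ha⟩ := hP
  obtain ⟨b, hb⟩ := hQ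
  exact ⟨max a b, fun C hC hc => ⟨ha C hC ((le_max_left _ _).trans hc), hb C hC ((le_max_right _ _).trans hc)⟩⟩

theorem AllC.mono {A : ℕ} {P Q : Ctx → Prop} (hP : AllC A P) (h : ∀ C, P C → Q C) : AllC A Q := by
  obtain ⟨a, ha⟩ := hP
  exact ⟨a, fun C hC hc => h C (ha C hC hc)⟩

theorem AllC.all {A : ℕ} {P : Ctx → Prop} (h : ∀ C : Ctx, C.A = A → P C) : AllC A P := ⟨0, fun C hC _ => h C hC⟩

/-- numbers hold for all runs -/
theorem AllC.of_Ev {A : ℕ} {P : ℕ → ℝ → Prop} (h : Ev P) : AllC A (fun C => P C.c0 C.Lam) := by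
  obtain ⟨a, ha⟩ := h
  exact ⟨a, fun C _ hc => ha C.c0 hc C.Lam C.hL⟩

theorem AllC.and3 {A : ℕ} {P Q R : Ctx → Prop} (hP : AllC A P) (hQ : AllC A Q) (hR : AllC A R) :
    AllC A (fun C => P C ∧ Q C ∧ R C) := hP.and (hQ.and hR)

/-- finitely many properties -/
theorem AllC.fin {A : ℕ} {ι : Type} [Fintype ι] {P : ι → Ctx → Prop} (h : ∀ i, AllC A (P i)) : AllC A (fun C => ∀ i, P i C) := by
  classical
  choose a ha using h
  exact ⟨univ.sup a, fun C hC hc i => ha i C hC ((Finset.le_sup (mem_univ i)).trans hc)⟩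

namespace Ctx

variable (C : Ctx)

theorem d1_pos (ka : ℕ) : 0 < MVN.d1 C.Lam ka C.c0 := Real.exp_pos _
theorem pe_nn (ka : ℕ) : 0 ≤ MVN.pe C.Lam ka C.c0 := div_nonneg (zero_le_one.trans (pw_one C.hL _)) (zero_le_one.trans (pw_one C.hL _))
theorem d1_le (ka : ℕ) : MVN.d1 C.Lam ka C.c0 ≤ 1 := by
  have := C.pe_nn ka
  exact Real.exp_le_one_iff.2 (by linarith)
theorem kb_pos (ka : ℕ) : 0 < MVN.kb C.Lam ka C.c0 := Real.exp_pos _
theorem d0_pos : 0 < MVN.d0 C.Lam C.c0 := Real.exp_pos _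
theorem d0_le : MVN.d0 C.Lam C.c0 ≤ 1 := Real.exp_le_one_iff.2 (neg_nonpos.2 (zero_le_one.trans (pw_one C.hL _)))
theorem p1_pos : 0 < MVN.p1 C.Lam C.A C.c0 := inv_pos.2 (zero_lt_one.trans_le (pw_one C.hL _))
theorem z_pos (ka : ℕ) : 0 < MVN.z C.Lam ka C.c0 := Real.exp_pos _

/-- **the run instance of `US` with the constants of H3.MOV** (`k0 = d0`) -/
def U (ka : ℕ) : UV.US C.O :=
  USi C.tb C.codes (MVN.d1 C.Lam ka C.c0) (MVN.kb C.Lam ka C.c0) (MVN.d0 C.Lam C.c0) (MVN.d0 C.Lam C.c0)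
    (MVN.p1 C.Lam C.A C.c0) (MVN.z C.Lam ka C.c0) (C.d1_pos ka) (C.d1_le ka) (C.kb_pos ka) C.d0_pos C.d0_le C.d0_pos
    C.p1_pos (C.z_pos ka)

end Ctx

end

end Pool.Agent.GMH.CX
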