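import Pool.Agent.GMH.ConT3
import Pool.Agent.GMH.ConTH
import Pool.Agent.GMH.ConTP
import Pool.Agent.GMH.Ctx
import Pool.Agent.GMH.KDTw

/-!
# GMH/ConKC: the numbers of the thresholds of the kinds (A5 CON, helper24)

`R : CT.Rounds` arbitrary. `xT = 1000 (4 d1 + 16 d0)` = the largest distance of the transfer theorems of `KDT3`, `KDTw`.
* `TN`, `thr_num` : the bounds `4 mT xT ≤ e1, e2, e3, dH` of `kc0`, `28 / mT NL ≤ x^(-40 (c1 + c0))`; `tr_num`, `tr_all` : the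
  conditions of `KDT3`, `KDTw` (with `KcB.dH4`); `d1_xT`, `d0_xT` : the distances `4000 d1`, `8000 d0` are at most `xT`;
* `nrK_thr`, `thr_R` : one `c` for several data (`nrO M c o` : three tops, the two tops of each vertex) at once;
* over `Ctx` : `nr_all`, `nr_all_K` (every key with its own data `o k`, one `c`), `nrT_all` (three tops), `nrW_all` (two tops),
  for finitely many events with total probability at most `100 n N1 Lam`; result `≤ x^(-40 (c1 + c0))`, `≤ x^(-K)`;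
* `KcB.pw_e1`, .., `pw_eS` : `u e ≤ x^(-s)`; `KcB.dH4`, `e2F`, `e3F`, `dH3900`, `e1p` : the numbers for `CTK.gn_le`, `gd_le`.
-/

set_option autoImplicit false
set_option linter.unusedSectionVars false

namespace Pool.Agent.GMH.CTK

open Finset Pool.Agent.PWZ Pool.Agent.M3 Pool.Agent.GMH Pool.Agent.GMH.V3 Pool.Agent.GMH.TD Pool.Agent.GMH.CK
open Pool.Agent.GMH.MV Pool.Agent.GMH.KF Pool.Agent.GMH.CT Pool.Agent.GMH.KDT Pool.Agent.GMH.KDTw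

noncomputable section

/-- the largest distance of the transfer -/
def xT (Lam : ℝ) (ka c0 : ℕ) : ℝ := 1000 * (4 * MVN.d1 Lam ka c0 + 16 * MVN.d0 Lam c0)

theorem xT_nn (Lam : ℝ) (ka c0 : ℕ) : 0 ≤ xT Lam ka c0 := by
  have h1 : 0 < MVN.d1 Lam ka c0 := Real.exp_pos _
  have h2 : 0 < MVN.d0 Lam c0 := Real.exp_pos _
  unfold xT
  positivity

/-- `4 mT xT` against every fixed power and the loss `28 / mT` -/
structure TN (R : Rounds) (A ka c0 : ℕ) (Lam : ℝ) : Prop where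
  hm : 1 ≤ CTM.mT Lam ka c0
  x1 : 4 * (CTM.mT Lam ka c0 : ℝ) * xT Lam ka c0 ≤ ix Lam R.eta1
  x2 : 4 * (CTM.mT Lam ka c0 : ℝ) * xT Lam ka c0 ≤ ix Lam R.eta2
  x3 : 4 * (CTM.mT Lam ka c0 : ℝ) * xT Lam ka c0 ≤ ix Lam R.eta3
  xd : 4 * (CTM.mT Lam ka c0 : ℝ) * xT Lam ka c0 ≤ ix Lam R.kd
  xS : 4 * (CTM.mT Lam ka c0 : ℝ) * xT Lam ka c0 ≤ ix Lam R.ks
  nl : ∀ NL : ℝ, 0 ≤ NL → NL ≤ 100 * (pw Lam c0 * pw Lam (c1F A c0) * Lam) →
    28 / (CTM.mT Lam ka c0 : ℝ) * NL ≤ ix Lam (40 * (c1F A c0 + c0))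

/-- **the numbers of the thresholds** -/
theorem thr_num (R : Rounds) (A ka : ℕ) : CTM.Ev (fun c0 Lam => TN R A ka c0 Lam) := by
  refine ((CTM.nr_num A ka).and (CTM.Ev.ge (R.eta1 + R.ks))).mono fun c0 Lam hL h => ?_
  obtain ⟨⟨h1, h2, h3⟩, h4⟩ := h
  have o := R.eta_ord
  have key : ∀ k, k ≤ R.eta1 + R.ks → 4 * (CTM.mT Lam ka c0 : ℝ) * xT Lam ka c0 ≤ ix Lam k := fun k hk =>
    h2.trans (ix_anti hL (by omega))
  exact ⟨h1, key _ (by omega), key _ (by omega), key _ (by omega), key _ (by omega), key _ (by omega), h3⟩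

/-- **the conditions of the transfer** (`KDT3`, `KDTw`), every `K` -/
theorem tr_num (ka K : ℕ) : CTM.Ev (fun c0 Lam => xT Lam ka c0 ≤ ix Lam K ∧
    4 * MVN.d1 Lam ka c0 + 16 * MVN.d0 Lam c0 ≤ 1 / 100 ∧ MVN.d1 Lam ka c0 ≤ 1 / 400 ∧ 8 * MVN.d0 Lam c0 ≤ 1 / 100 ∧
    24 * MVN.d1 Lam ka c0 + 96 * MVN.d0 Lam c0 ≤ ix Lam K) := by
  refine ((CTM.nr_num 0 ka).and (CTM.Ev.ge (K + 10))).mono fun c0 Lam hL h => ?_
  obtain ⟨⟨h1, h2, -⟩, h4⟩ := h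
  have hm : (1 : ℝ) ≤ CTM.mT Lam ka c0 := by exact_mod_cast h1
  have hx := xT_nn Lam ka c0
  have p1 : 0 < MVN.d1 Lam ka c0 := Real.exp_pos _
  have p2 : 0 < MVN.d0 Lam c0 := Real.exp_pos _
  have h5 : xT Lam ka c0 ≤ 4 * (CTM.mT Lam ka c0 : ℝ) * xT Lam ka c0 := by nlinarith
  have h6 : xT Lam ka c0 ≤ ix Lam (K + 10) := h5.trans (h2.trans (ix_anti hL (by omega)))
  have h7 : ix Lam (K + 10) ≤ 1 := ix_le_one hL _
  have h8 : xT Lam ka c0 = 1000 * (4 * MVN.d1 Lam ka c0 + 16 * MVN.d0 Lam c0) := rfl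
  have h9 : ix Lam (K + 10) ≤ ix Lam K := ix_anti hL (by omega)
  have h10 : 4 * MVN.d1 Lam ka c0 + 16 * MVN.d0 Lam c0 ≤ 1 / 1000 := by linarith
  refine ⟨h6.trans h9, by linarith, by linarith, by linarith, ?_⟩
  refine le_trans ?_ (h6.trans h9)
  rw [h8]
  linarith

theorem d1_xT (Lam : ℝ) (ka c0 : ℕ) : 4000 * MVN.d1 Lam ka c0 ≤ xT Lam ka c0 := by
  have p2 : 0 < MVN.d0 Lam c0 := Real.exp_pos _
  unfold xT
  linarith

theorem d0_xT (Lam : ℝ) (ka c0 : ℕ) : 8000 * MVN.d0 Lam c0 ≤ xT Lam ka c0 := by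
  have p1 : 0 < MVN.d1 Lam ka c0 := Real.exp_pos _
  have p2 : 0 < MVN.d0 Lam c0 := Real.exp_pos _
  unfold xT
  linarith

/-! ## several data with one set of thresholds -/

section many

variable {Om : Type} [Fintype Om]

/-- **one `c` for several data** `Mk k` on the same space -/
theorem nrK_thr (P : FP Om) {κ : Type*} (Mk : κ → MS Om) (J : Finset κ) (b : κ → Om → Prop)
    (st : κ → ℕ) (c0 : KC) (h1 : 0 < c0.e1) (h2 : 0 < c0.e2) (h3 : 0 < c0.e3) (h4 : 0 < c0.dH) {m : ℕ} (hm : 1 ≤ m)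
    {x : ℝ} (hx0 : 0 ≤ x) (x1 : 4 * m * x ≤ c0.e1) (x2 : 4 * m * x ≤ c0.e2) (x3 : 4 * m * x ≤ c0.e3)
    (x4 : 4 * m * x ≤ c0.dH) :
    ∃ c : KC, c.eF = c0.eF ∧ c.eS = c0.eS ∧ (c0.e1 ≤ c.e1 ∧ c.e1 ≤ 2 * c0.e1) ∧ (c0.e2 ≤ c.e2 ∧ c.e2 ≤ 2 * c0.e2) ∧
      (c0.e3 ≤ c.e3 ∧ c.e3 ≤ 2 * c0.e3) ∧ (c0.dH ≤ c.dH ∧ c.dH ≤ 2 * c0.dH) ∧
      ∑ k ∈ J, P.Pr (fun w => b k w ∧ nrT (Mk k) c x (st k) w) ≤ (28 / (m : ℝ)) * ∑ k ∈ J, P.Pr (b k) := by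
  classical
  have hm' : (0 : ℝ) < m := by exact_mod_cast hm
  obtain ⟨a1, b1, d1, s1⟩ := thr_many (ι := Unit) P J b (fun _ k w => vt (Mk k) ∅ (st k) w / 2) h1 hm x1
  obtain ⟨a2, b2, d2, s2⟩ := thr_many (ι := Fin 3) P J b (fun i k w => vt (Mk k) {i} (st k) w / 2) h2 hm x2
  obtain ⟨a3, b3, d3, s3⟩ := thr_many (ι := Fin 3) P J b (fun i k w => vt (Mk k) (opp i) (st k) w / 2) h3 hm x3
  obtain ⟨a4, b4, d4, s4⟩ := thr_many (ι := Fin 3 ⊕ Fin 3 ⊕ Unit) P J b (fun i k w => Sum.elim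
    (fun i => vd (Mk k) (opp i) (st k) w - 1) (Sum.elim (fun i => 1 - vd (Mk k) (opp i) (st k) w)
      (fun _ => (vd (Mk k) univ (st k) w - 1) / 4)) i) h4 hm x4
  refine ⟨⟨c0.eF, a1, a2, a3, a4, c0.eS⟩, rfl, rfl, ⟨b1, d1⟩, ⟨b2, d2⟩, ⟨b3, d3⟩, ⟨b4, d4⟩, ?_⟩
  have hf : ∀ (S : Finset (Fin 3)) (a : ℝ) (k : κ) (w : Om), |vt (Mk k) S (st k) w - 2 * a| ≤ x →
      |vt (Mk k) S (st k) w / 2 - a| ≤ x := by
    intro S a k w h
    have e : vt (Mk k) S (st k) w / 2 - a = (vt (Mk k) S (st k) w - 2 * a) / 2 := by ring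
    rw [e, abs_div, abs_of_pos (by norm_num : (0 : ℝ) < 2)]
    linarith
  have hle : ∀ k ∈ J, P.Pr (fun w => b k w ∧ nrT (Mk k) ⟨c0.eF, a1, a2, a3, a4, c0.eS⟩ x (st k) w) ≤
      P.Pr (fun w => b k w ∧ ∃ _ : Unit, |vt (Mk k) ∅ (st k) w / 2 - a1| ≤ x) +
      P.Pr (fun w => b k w ∧ ∃ i, |vt (Mk k) {i} (st k) w / 2 - a2| ≤ x) +
      P.Pr (fun w => b k w ∧ ∃ i, |vt (Mk k) (opp i) (st k) w / 2 - a3| ≤ x) +
      P.Pr (fun w => b k w ∧ ∃ i : Fin 3 ⊕ Fin 3 ⊕ Unit, |Sum.elim (fun i => vd (Mk k) (opp i) (st k) w - 1)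
        (Sum.elim (fun i => 1 - vd (Mk k) (opp i) (st k) w) (fun _ => (vd (Mk k) univ (st k) w - 1) / 4)) i - a4| ≤ x) := by
    intro k _
    unfold FP.Pr
    rw [← P.E_add, ← P.E_add, ← P.E_add]
    refine P.E_mono fun w _ => ?_
    have n1 := ind_nonneg (b k w ∧ ∃ _ : Unit, |vt (Mk k) ∅ (st k) w / 2 - a1| ≤ x)
    have n2 := ind_nonneg (b k w ∧ ∃ i, |vt (Mk k) {i} (st k) w / 2 - a2| ≤ x)
    have n3 := ind_nonneg (b k w ∧ ∃ i, |vt (Mk k) (opp i) (st k) w / 2 - a3| ≤ x)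
    have n4 := ind_nonneg (b k w ∧ ∃ i : Fin 3 ⊕ Fin 3 ⊕ Unit, |Sum.elim (fun i => vd (Mk k) (opp i) (st k) w - 1)
        (Sum.elim (fun i => 1 - vd (Mk k) (opp i) (st k) w) (fun _ => (vd (Mk k) univ (st k) w - 1) / 4)) i - a4| ≤ x)
    by_cases h : b k w ∧ nrT (Mk k) ⟨c0.eF, a1, a2, a3, a4, c0.eS⟩ x (st k) w
    · rw [ind_of h]
      obtain ⟨hb, hn⟩ := h
      rcases hn with hn | ⟨i, hn⟩ | ⟨i, hn⟩ | ⟨i, hn⟩ | ⟨i, hn⟩ | hn
      · rw [ind_of (show b k w ∧ ∃ _ : Unit, |vt (Mk k) ∅ (st k) w / 2 - a1| ≤ x from ⟨hb, (), hf _ _ _ _ hn⟩)]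
        linarith
      · rw [ind_of (show b k w ∧ ∃ i, |vt (Mk k) {i} (st k) w / 2 - a2| ≤ x from ⟨hb, i, hf _ _ _ _ hn⟩)]
        linarith
      · rw [ind_of (show b k w ∧ ∃ i, |vt (Mk k) (opp i) (st k) w / 2 - a3| ≤ x from ⟨hb, i, hf _ _ _ _ hn⟩)]
        linarith
      · rw [ind_of (show b k w ∧ ∃ i : Fin 3 ⊕ Fin 3 ⊕ Unit, |Sum.elim (fun i => vd (Mk k) (opp i) (st k) w - 1)
          (Sum.elim (fun i => 1 - vd (Mk k) (opp i) (st k) w) (fun _ => (vd (Mk k) univ (st k) w - 1) / 4)) i - a4| ≤ x from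
            ⟨hb, Sum.inl i, hn⟩)]
        linarith
      · rw [ind_of (show b k w ∧ ∃ i : Fin 3 ⊕ Fin 3 ⊕ Unit, |Sum.elim (fun i => vd (Mk k) (opp i) (st k) w - 1)
          (Sum.elim (fun i => 1 - vd (Mk k) (opp i) (st k) w) (fun _ => (vd (Mk k) univ (st k) w - 1) / 4)) i - a4| ≤ x from
            ⟨hb, Sum.inr (Sum.inl i), hn⟩)]
        linarith
      · rw [ind_of (show b k w ∧ ∃ i : Fin 3 ⊕ Fin 3 ⊕ Unit, |Sum.elim (fun i => vd (Mk k) (opp i) (st k) w - 1)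
          (Sum.elim (fun i => 1 - vd (Mk k) (opp i) (st k) w) (fun _ => (vd (Mk k) univ (st k) w - 1) / 4)) i - a4| ≤ x from
            ⟨hb, Sum.inr (Sum.inr ()), hn⟩)]
        linarith
    · rw [ind_not h]
      linarith
  refine (sum_le_sum hle).trans ?_
  rw [sum_add_distrib, sum_add_distrib, sum_add_distrib]
  have c1 : (Fintype.card Unit : ℝ) = 1 := by simp
  have c2 : (Fintype.card (Fin 3) : ℝ) = 3 := by simp
  have c3 : (Fintype.card (Fin 3 ⊕ Fin 3 ⊕ Unit) : ℝ) = 7 := by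
    rw [Fintype.card_sum, Fintype.card_sum]
    norm_num
  rw [c1] at s1
  rw [c2] at s2 s3
  rw [c3] at s4
  refine (add_le_add (add_le_add (add_le_add s1 s2) s3) s4).trans (le_of_eq ?_)
  ring

/-- the data of the three tops (`none`) and of the two tops of the vertex `i` (`some i`) -/
def Mo (M : MS Om) : Option (Fin 3) → MS Om
  | Option.none => M
  | Option.some i => tw M i

/-- one of the values of the tops of `o` is near its threshold -/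
def nrO (M : MS Om) (c : KC) (o : Option (Fin 3)) (x : ℝ) (s : ℕ) (w : Om) : Prop := nrT (Mo M o) c x s w

theorem nrO_full (M : MS Om) (c : KC) (x : ℝ) (s : ℕ) (w : Om) : nrO M c Option.none x s w ↔ nrT M c x s w := Iff.rfl

theorem nrO_two (M : MS Om) (c : KC) (i : Fin 3) (x : ℝ) (s : ℕ) (w : Om) : nrO M c (some i) x s w ↔ nrW M c i x s w :=
  Iff.rfl

theorem Mo_P (M : MS Om) (o : Option (Fin 3)) : (Mo M o).P = M.P := by
  cases o <;> rfl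

/-- **the thresholds of the tables `Rounds`** : one set of thresholds, at every key `k` the data `o k` -/
theorem thr_R (M : MS Om) {κ : Type*} (J : Finset κ) (b : κ → Om → Prop) (st : κ → ℕ) (o : κ → Option (Fin 3))
    (R : Rounds) {A ka c0 : ℕ} {Lam : ℝ} (hL : 2 ≤ Lam) (n : TN R A ka c0 Lam) (eF : ℝ) :
    ∃ c : KC, c.eF = eF ∧ KcB R Lam c ∧
      ∑ k ∈ J, M.P.Pr (fun w => b k w ∧ nrO M c (o k) (xT Lam ka c0) (st k) w) ≤
        (28 / (CTM.mT Lam ka c0 : ℝ)) * ∑ k ∈ J, M.P.Pr (b k) := by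
  obtain ⟨c, g1, g2, g3, g4, g5, g6, g7⟩ := nrK_thr M.P (fun k => Mo M (o k)) J b st
    (kc0 R Lam eF) (ix_pos hL _) (ix_pos hL _) (ix_pos hL _) (ix_pos hL _) n.hm (xT_nn Lam ka c0) n.x1 n.x2 n.x3 n.xd
  exact ⟨c, g1, KcB.of_thr hL g2 g3 g4 g5 g6, g7⟩

/-- smaller distance -/
theorem nrO_mono {M : MS Om} {c : KC} {o : Option (Fin 3)} {x y : ℝ} (hxy : x ≤ y) {s : ℕ} {w : Om}
    (hn : ¬ nrO M c o y s w) : ¬ nrO M c o x s w := nrT_mono (M := Mo M o) hxy hn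

end many

/-! ## over `Ctx` -/

section ctx

open Pool.Agent.GMH.CX

/-- **THE THRESHOLDS OF THE KINDS OVER `Ctx`**, every key `k` with its own data `o k` (`none` : three tops, `some i` : the two
tops of `i`) -/
theorem nr_all (R : Rounds) (A ka : ℕ) : AllC A fun C => ∀ {κ : Type} (J : Finset κ) (b : κ → C.O → Prop) (st : κ → ℕ)
    (o : κ → Option (Fin 3)) (eF : ℝ),
    ∑ k ∈ J, C.tb.Ps.Pr (b k) ≤ 100 * (pw C.Lam C.c0 * pw C.Lam (c1F A C.c0) * C.Lam) →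
    ∃ c : KC, c.eF = eF ∧ KcB R C.Lam c ∧
      ∑ k ∈ J, C.tb.Ps.Pr (fun w => b k w ∧ nrO (C.U ka).toMS c (o k) (xT C.Lam ka C.c0) (st k) w) ≤
        ix C.Lam (40 * (c1F A C.c0 + C.c0)) := by
  refine (AllC.of_Ev (thr_num R A ka)).mono fun C n => ?_
  intro κ J b st o eF hb
  obtain ⟨c, g1, g2, g3⟩ := thr_R (C.U ka).toMS J b st o R C.hL n eF
  exact ⟨c, g1, g2, g3.trans (n.nl _ (sum_nonneg fun k _ => FP.Pr_nonneg _ _) hb)⟩

/-- the same, every `K` -/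
theorem nr_all_K (R : Rounds) (A ka K : ℕ) : AllC A fun C => ∀ {κ : Type} (J : Finset κ) (b : κ → C.O → Prop) (st : κ → ℕ)
    (o : κ → Option (Fin 3)) (eF : ℝ),
    ∑ k ∈ J, C.tb.Ps.Pr (b k) ≤ 100 * (pw C.Lam C.c0 * pw C.Lam (c1F A C.c0) * C.Lam) →
    ∃ c : KC, c.eF = eF ∧ KcB R C.Lam c ∧
      ∑ k ∈ J, C.tb.Ps.Pr (fun w => b k w ∧ nrO (C.U ka).toMS c (o k) (xT C.Lam ka C.c0) (st k) w) ≤ ix C.Lam K := by
  refine ((nr_all R A ka).and (AllC.of_Ev (CTM.Ev.ge K))).mono fun C h => ?_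
  obtain ⟨h1, h2⟩ := h
  intro κ J b st o eF hb
  obtain ⟨c, g1, g2, g3⟩ := h1 J b st o eF hb
  exact ⟨c, g1, g2, g3.trans (ix_anti C.hL (by omega))⟩

/-- three tops -/
theorem nrT_all (R : Rounds) (A ka K : ℕ) : AllC A fun C => ∀ {κ : Type} (J : Finset κ) (b : κ → C.O → Prop) (st : κ → ℕ)
    (eF : ℝ), ∑ k ∈ J, C.tb.Ps.Pr (b k) ≤ 100 * (pw C.Lam C.c0 * pw C.Lam (c1F A C.c0) * C.Lam) →
    ∃ c : KC, c.eF = eF ∧ KcB R C.Lam c ∧
      ∑ k ∈ J, C.tb.Ps.Pr (fun w => b k w ∧ nrT (C.U ka).toMS c (xT C.Lam ka C.c0) (st k) w) ≤ ix C.Lam K :=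
  (nr_all_K R A ka K).mono fun _ h _ J b st eF hb => h J b st (fun _ => Option.none) eF hb

/-- the two tops of `i` -/
theorem nrW_all (R : Rounds) (A ka K : ℕ) : AllC A fun C => ∀ (i : Fin 3) {κ : Type} (J : Finset κ) (b : κ → C.O → Prop)
    (st : κ → ℕ) (eF : ℝ),
    ∑ k ∈ J, C.tb.Ps.Pr (b k) ≤ 100 * (pw C.Lam C.c0 * pw C.Lam (c1F A C.c0) * C.Lam) →
    ∃ c : KC, c.eF = eF ∧ KcB R C.Lam c ∧
      ∑ k ∈ J, C.tb.Ps.Pr (fun w => b k w ∧ nrW (C.U ka).toMS c i (xT C.Lam ka C.c0) (st k) w) ≤ ix C.Lam K :=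
  (nr_all_K R A ka K).mono fun _ h i _ J b st eF hb => h J b st (fun _ => some i) eF hb

/-- the conditions of the transfer over `Ctx` -/
theorem tr_all (A ka K : ℕ) : AllC A fun C => xT C.Lam ka C.c0 ≤ ix C.Lam K ∧
    4 * MVN.d1 C.Lam ka C.c0 + 16 * MVN.d0 C.Lam C.c0 ≤ 1 / 100 ∧ MVN.d1 C.Lam ka C.c0 ≤ 1 / 400 ∧
    8 * MVN.d0 C.Lam C.c0 ≤ 1 / 100 ∧ 24 * MVN.d1 C.Lam ka C.c0 + 96 * MVN.d0 C.Lam C.c0 ≤ ix C.Lam K :=
  AllC.of_Ev (tr_num ka K)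

end ctx

end

end Pool.Agent.GMH.CTK

/-! ## the thresholds in the numbers of the statics -/

namespace Pool.Agent.GMH.CT.KcB

open Pool.Agent.GMH Pool.Agent.GMH.V3 Pool.Agent.GMH.KF Pool.Agent.GMH.CT

variable {R : Rounds} {Lam : ℝ} {c : KC} (h : KcB R Lam c) (hL : 2 ≤ Lam)

include h hL

/-- powers of `x` against a threshold -/
theorem pw_e1 {u : ℝ} {a s : ℕ} (hu0 : 0 ≤ u) (hu : u ≤ pw Lam a) (hk : a + s + 1 ≤ R.eta1) : u * c.e1 ≤ ix Lam s := by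
  have h1 := mul_le_mul_of_nonneg_left h.u1 hu0
  have h2 := fin2 hL (u := 2) (v := u) (a := 1) (b := a) (k := R.eta1) (s := s) hu0 (cst hL 1 (by norm_num)) hu (by omega)
  refine h1.trans (le_trans (le_of_eq ?_) h2)
  ring

theorem pw_e2 {u : ℝ} {a s : ℕ} (hu0 : 0 ≤ u) (hu : u ≤ pw Lam a) (hk : a + s + 1 ≤ R.eta2) : u * c.e2 ≤ ix Lam s := by
  have h1 := mul_le_mul_of_nonneg_left h.u2 hu0
  have h2 := fin2 hL (u := 2) (v := u) (a := 1) (b := a) (k := R.eta2) (s := s) hu0 (cst hL 1 (by norm_num)) hu (by omega)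
  refine h1.trans (le_trans (le_of_eq ?_) h2)
  ring

theorem pw_e3 {u : ℝ} {a s : ℕ} (hu0 : 0 ≤ u) (hu : u ≤ pw Lam a) (hk : a + s + 1 ≤ R.eta3) : u * c.e3 ≤ ix Lam s := by
  have h1 := mul_le_mul_of_nonneg_left h.u3 hu0
  have h2 := fin2 hL (u := 2) (v := u) (a := 1) (b := a) (k := R.eta3) (s := s) hu0 (cst hL 1 (by norm_num)) hu (by omega)
  refine h1.trans (le_trans (le_of_eq ?_) h2)
  ring

theorem pw_d {u : ℝ} {a s : ℕ} (hu0 : 0 ≤ u) (hu : u ≤ pw Lam a) (hk : a + s + 1 ≤ R.kd) : u * c.dH ≤ ix Lam s := by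
  have h1 := mul_le_mul_of_nonneg_left h.ud hu0
  have h2 := fin2 hL (u := 2) (v := u) (a := 1) (b := a) (k := R.kd) (s := s) hu0 (cst hL 1 (by norm_num)) hu (by omega)
  refine h1.trans (le_trans (le_of_eq ?_) h2)
  ring

theorem pw_eS {u : ℝ} {a s : ℕ} (hu0 : 0 ≤ u) (hu : u ≤ pw Lam a) (hk : a + s + 1 ≤ R.ks) : u * c.eS ≤ ix Lam s := by
  have h1 := mul_le_mul_of_nonneg_left h.uS hu0
  have h2 := fin2 hL (u := 2) (v := u) (a := 1) (b := a) (k := R.ks) (s := s) hu0 (cst hL 1 (by norm_num)) hu (by omega)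
  refine h1.trans (le_trans (le_of_eq ?_) h2)
  ring

/-- `dH ≤ 1/4` -/
theorem dH4 (hk : 2 ≤ R.kd) : c.dH ≤ 1 / 4 := by
  have h1 := h.pw_d hL (u := 1) (a := 0) (s := 1) (by norm_num) (pw_ge1 hL 0) (by omega)
  have h2 := ix_four hL 1
  norm_num at h1 h2
  linarith

/-- the coefficient `d` with one bad top -/
theorem e2F (hk : CTK.kd ≤ R.kd) (hF : c.eF ≤ ix Lam 3990) : 2 * c.e2 + 4 * c.eF ≤ ix Lam 3900 := by
  have hk' : 4000 ≤ R.kd := hk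
  have o := R.eta_ord
  have h1 := h.pw_e2 hL (u := 1) (a := 0) (s := 3990) (by norm_num) (pw_ge1 hL 0) (by omega)
  have h2 := cst_ix hL (c := 6) (j := 2) (s := 3988) (by norm_num)
  have h3 : ix Lam 3988 ≤ ix Lam 3900 := ix_anti hL (by norm_num)
  have e : (2 + 3988 : ℕ) = 3990 := by norm_num
  rw [e] at h2
  linarith

/-- the same for a pair -/
theorem e3F (hk : CTK.kd ≤ R.kd) (hF : c.eF ≤ ix Lam 3990) : 2 * c.e3 + 2 * c.eF ≤ ix Lam 3900 := by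
  have hk' : 4000 ≤ R.kd := hk
  have o := R.eta_ord
  have h1 := h.pw_e3 hL (u := 1) (a := 0) (s := 3990) (by norm_num) (pw_ge1 hL 0) (by omega)
  have h2 := cst_ix hL (c := 6) (j := 2) (s := 3988) (by norm_num)
  have h3 : ix Lam 3988 ≤ ix Lam 3900 := ix_anti hL (by norm_num)
  have e : (2 + 3988 : ℕ) = 3990 := by norm_num
  rw [e] at h2
  have h4 := ix_nn hL 3990
  linarith

/-- the coefficient `dd` -/
theorem dH3900 (hk : CTK.kd ≤ R.kd) : 4 * c.dH ≤ ix Lam 3900 := by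
  have hk' : 4000 ≤ R.kd := hk
  exact h.pw_d hL (u := 4) (a := 1) (s := 3900) (by norm_num) (cst hL 1 (by norm_num)) (by omega)

/-- `e1` against a fixed power -/
theorem e1p {a : ℕ} (hk : CTK.kd ≤ R.kd) (ha : a ≤ 80 * R.eta2 - 20 * CTK.kd - 1) : c.e1 * pw Lam a ≤ ix Lam (20 * CTK.kd) := by
  have hk' : 4000 ≤ R.kd := hk
  have ekd : CTK.kd = 4000 := rfl
  have o := CTK.rounds_big R
  rw [mul_comm]
  exact h.pw_e1 hL (pw_pos hL a).le le_rfl (by omega)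

end Pool.Agent.GMH.CT.KcB
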