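import Pool.Agent.GMH.Bud

/-!
# GMH.ConM: the squares of the biases of HARM(K) from the budget (helper30)

`P_t = D.P h t`, classes `UU v` (codes of the times `≤ t`), `Um v t` = codes of the times `< t`, `Um v (t + 1) = UU v t`;
`Vt v t` = additions of the time `t` (GMH.Bud).

* `tel` : telescoping;
* `ent_add` : `ent (LL (Um v (t+1))) J ≤ ent (LL (Um v t)) J + cst h v t J` (law and base of the time `t`);
* `ent_birth` : entropy of `LL (Um v (t+1))` under `P_(t+1)` ≤ its entropy given the digit under `P_t` + the births;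
* `lo_add`, `lo_birth` : the same for everything strictly below `J` (no births);
* `ce_dig` : the digit is balanced given the known points and the node;
* `tot h pr T v J` = total cost and births at `J`; `conM` : m2, u2, l2 of `Harm.Concl` from `tot J ≤ b J`;
* `tot_le`, `conM_Phi` : the numbers, from `Phi ≤ 0` at every node.
-/

set_option autoImplicit false
set_option linter.unusedSectionVars false

namespace Pool.Agent.GMH

open Finset Pool.Agent.PWZ Pool.Agent.M3 Pool.Agent.GM Pool.Agent.GM.Harm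

/-! ## telescoping -/

theorem tel {T : ℕ} {i e m a c β : ℕ → ℝ} {β0 : ℝ} (hi : ∀ t < T, i t ≤ e t - a t) (hc : ∀ t < T, e t ≤ m t + c t)
    (hm : ∀ t < T, m (t + 1) ≤ a t + β t) (h0 : m 0 ≤ β0) (hT : 0 ≤ m T) :
    ∑ t ∈ range T, i t ≤ β0 + ∑ t ∈ range T, c t + ∑ t ∈ range T, β t := by
  have key : ∀ n ≤ T, ∑ t ∈ range n, i t + m n ≤ β0 + ∑ t ∈ range n, c t + ∑ t ∈ range n, β t := by
    intro n
    induction n with
    | zero => intro _; simpa using h0
    | succ n ih =>
      intro hn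
      have h1 := ih (by omega)
      have h2 := hi n (by omega)
      have h3 := hc n (by omega)
      have h4 := hm n (by omega)
      rw [Finset.sum_range_succ, Finset.sum_range_succ, Finset.sum_range_succ]
      linarith
  have := key T le_rfl
  linarith

/-- subadditivity over all sets strictly below `J` -/
theorem Hc_lo_le {Om K υ ι : Type*} [Fintype Om] [DecidableEq K] (P : FP Om) (V : Finset K → Om → υ) (J : Finset K)
    (Z : Om → ι) : P.Hc (lo V J) Z ≤ ∑ I ∈ J.ssubsets, P.Hc (V I) (fun w => (lo V I w, Z w)) := by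
  classical
  have key : ∀ n : ℕ, ∀ S : Finset (Finset K), S.card = n → (∀ I ∈ S, ∀ I', I' ⊂ I → I' ∈ S) →
      P.Hc (fun w => (fun I => if I ∈ S then some (V I w) else none : Finset K → Option υ)) Z ≤
        ∑ I ∈ S, P.Hc (V I) (fun w => (lo V I w, Z w)) := by
    intro n
    induction n with
    | zero =>
      intro S hS _
      rw [Finset.card_eq_zero] at hS
      subst hS
      rw [Finset.sum_empty]
      have h1 : P.Hc (fun w => (fun I => if I ∈ (∅ : Finset (Finset K)) then some (V I w) else none :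
          Finset K → Option υ)) Z ≤ P.Hc (fun _ => ()) Z := by
        refine P.Hc_mono _ ?_
        intro _ _ _
        funext I
        simp
      have h2 : P.Hc (fun _ => ()) Z ≤ 0 := (P.Hc_le_H _ _).trans (le_of_eq (P.H_const ()))
      exact h1.trans h2
    | succ n ih =>
      intro S hS hdown
      have hne : S.Nonempty := by
        rw [← Finset.card_pos]; omega
      obtain ⟨j, hj, hmax⟩ := S.exists_maximal hne
      have hcard : (S.erase j).card = n := by rw [Finset.card_erase_of_mem hj]; omega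
      have k := ih (S.erase j) hcard (by
        intro I hI I' hI'
        refine Finset.mem_erase.2 ⟨?_, hdown I (Finset.mem_of_mem_erase hI) I' hI'⟩
        rintro rfl
        exact absurd (hmax (Finset.mem_of_mem_erase hI) hI'.le) (not_le_of_gt hI'))
      rw [← Finset.add_sum_erase S _ hj]
      have h1 : P.Hc (fun w => (fun I => if I ∈ S then some (V I w) else none : Finset K → Option υ)) Z ≤
          P.Hc (fun w => (V j w, (fun I => if I ∈ S.erase j then some (V I w) else none : Finset K → Option υ))) Z := by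
        refine P.Hc_mono _ ?_
        intro v w hv
        simp only [Prod.mk.injEq] at hv
        funext I
        show (if I ∈ S then some (V I v) else none) = (if I ∈ S then some (V I w) else none)
        by_cases hI : I ∈ S
        · rw [if_pos hI, if_pos hI]
          by_cases hij : I = j
          · rw [hij, hv.1.1]
          · have := congrFun hv.1.2 I
            simpa only [if_pos (Finset.mem_erase.2 ⟨hij, hI⟩)] using this
        · rw [if_neg hI, if_neg hI]
      have h2 := P.Hc_chain (V j)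
        (fun w => (fun I => if I ∈ S.erase j then some (V I w) else none : Finset K → Option υ)) Z
      have h3 : P.Hc (V j) (fun w => ((fun I => if I ∈ S.erase j then some (V I w) else none : Finset K → Option υ), Z w)) ≤
          P.Hc (V j) (fun w => (lo V j w, Z w)) := by
        refine P.Hc_anti (V j) ?_
        intro v w hv
        simp only [Prod.mk.injEq] at hv ⊢
        refine ⟨lo_eq.2 fun I hI => ?_, hv.2⟩
        have h4 : I ∈ S.erase j := Finset.mem_erase.2 ⟨hI.ne, hdown j hj I hI⟩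
        have h5 := congrFun hv.1 I
        simp only [if_pos h4] at h5
        exact Option.some.inj h5
      linarith
  have h := key _ J.ssubsets rfl (by
    intro I hI I' hI'
    rw [Finset.mem_ssubsets] at hI ⊢
    exact hI'.trans hI)
  refine le_trans (P.Hc_mono Z ?_) h
  intro v w hv
  simp only [Prod.mk.injEq] at hv
  refine lo_eq.2 fun I hI => ?_
  have h5 := congrFun hv.1 I
  simp only [if_pos (Finset.mem_ssubsets.2 hI)] at h5
  exact Option.some.inj h5

/-! ## the labels of the process -/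

section labels

variable {K X β γ φ υ : Type} [Fintype K] [DecidableEq K] [Fintype X] [Fintype β] [Fintype φ] [Nonempty X] [Nonempty β]

variable {v : ℕ → Finset K → X → (K → β) → υ} {t : ℕ} {J : Finset K}

theorem LN_fac {a b : Pt K X β φ} : LL (Um v (t + 1)) J a = LL (Um v (t + 1)) J b ↔
    pr (LL (Um v t)) (Vt v t) J a = pr (LL (Um v t)) (Vt v t) J b :=
  ⟨fun h => fac_pr a b h, fun h => pr_fac a b h⟩

theorem LN_lo {a b : Pt K X β φ} : lo (LL (Um v (t + 1))) J a = lo (LL (Um v (t + 1))) J b ↔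
    lo (pr (LL (Um v t)) (Vt v t)) J a = lo (pr (LL (Um v t)) (Vt v t)) J b := by
  rw [lo_eq, lo_eq]
  exact forall₂_congr fun I _ => LN_fac

/-- everything strictly below `J` after the additions -/
theorem lo_add (P : FP (Pt K X β φ)) (D : HD K X β γ φ) :
    P.Hc (lo (LL (Um v (t + 1))) J) (BB D t J) ≤ P.Hc (lo (LL (Um v t)) J) (BB D t J) +
      ∑ I ∈ J.ssubsets, cost P (BB D t) (LL (Um v t)) (Vt v t) I := by
  have h1 : P.Hc (lo (LL (Um v (t + 1))) J) (BB D t J) ≤
      P.Hc (fun w => (lo (Vt v t) J w, lo (LL (Um v t)) J w)) (BB D t J) := by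
    refine P.Hc_mono _ ?_
    intro a b h
    simp only [Prod.mk.injEq] at h
    rw [LN_lo, lo_pr_eq]
    exact ⟨h.1.2, h.1.1⟩
  have h2 := P.Hc_chain (lo (Vt v t) J) (lo (LL (Um v t)) J) (BB D t J)
  have h3 := Hc_lo_le P (Vt v t) J (fun w => (lo (LL (Um v t)) J w, BB D t J w))
  have h4 : ∑ I ∈ J.ssubsets, P.Hc (Vt v t I) (fun w => (lo (Vt v t) I w, lo (LL (Um v t)) J w, BB D t J w)) ≤
      ∑ I ∈ J.ssubsets, cost P (BB D t) (LL (Um v t)) (Vt v t) I := by
    refine Finset.sum_le_sum fun I hI => ?_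
    rw [Finset.mem_ssubsets] at hI
    unfold cost
    refine P.Hc_anti _ ?_
    intro a b h
    simp only [Prod.mk.injEq] at h ⊢
    refine ⟨h.1, ?_, ?_⟩
    · rw [le_eq]
      intro I' hI'
      exact lo_eq.1 h.2.1 I' (lt_of_le_of_lt hI' hI)
    · have h5 := h.2.2
      rw [BB_eq] at h5 ⊢
      exact ⟨fun j hj => h5.1 j (hI.subset hj), h5.2⟩
  linarith

theorem lt_no {l : K} {I : Finset K} (hJ : J ≠ univ) (hI : I ⊂ J) : univ.erase l ≠ I := by
  intro hl
  subst hl
  refine hJ (Finset.eq_univ_iff_forall.2 fun j => ?_)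
  by_cases hj : j = l
  · subst hj
    obtain ⟨i, hi, hi2⟩ := Finset.exists_of_ssubset hI
    have : i = j := by
      by_contra hne
      exact hi2 (Finset.mem_erase.2 ⟨hne, mem_univ i⟩)
    rw [← this]; exact hi
  · exact hI.subset (Finset.mem_erase.2 ⟨hj, mem_univ j⟩)

end labels

/-! ## one digit -/

section proc

variable {K X β γ φ υ : Type} [Fintype K] [DecidableEq K] [Fintype X] [Fintype β] [Fintype φ] [Nonempty X] [Nonempty β]
  {D : HD K X β γ φ} {al : ℝ} (h : D.Thick al) {dg : ℕ → X → ℝ} {prr : ℕ → K → φ → φ} {T : ℕ} {Lam : ℝ}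
  {v : ℕ → Finset K → X → (K → β) → υ} {t : ℕ} {J : Finset K}

/-- labels with new letters determine the labels with old letters -/
theorem LO_old {w w' : Pt K X β φ} (h1 : LL (Um v (t + 1)) J w = LL (Um v (t + 1)) J w') :
    LL (Um v (t + 1)) J (old prr t w) = LL (Um v (t + 1)) J (old prr t w') := by
  rw [LL_eq] at h1 ⊢
  exact ⟨h1.1, fun l hl => congrArg (prr t l) (h1.2 l hl)⟩

theorem ent_add : GMH.ent (D.P h t) (BB D t) (LL (Um v (t + 1))) J ≤
    GMH.ent (D.P h t) (BB D t) (LL (Um v t)) J + cst h v t J := by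
  rw [← ent_split, ent_pr]
  have := gain_nonneg (P := D.P h t) (B := BB D t) (L := LL (Um v t)) (V := Vt v t) (J := J)
  unfold cst
  linarith

theorem birth_BB {l : K} (hl : univ.erase l = J) :
    (D.P h (t + 1)).Hc (fun w => w.2.2 l) (fun w => (prr t l (w.2.2 l), BB D (t + 1) J w)) = birth h prr t l := by
  unfold birth
  refine (Hc_base h (J := J) (t := t + 1) (s := t + 1) le_rfl ?_ ?_).symm
  · intro a b hab
    simp only [Prod.mk.injEq, AA_eq] at hab
    exact hab.1.2 l (by rw [hl])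
  · intro a b hab
    simp only [Prod.mk.injEq, AA_eq] at hab
    show prr t l (a.2.2 l) = prr t l (b.2.2 l)
    rw [hab.1.2 l (by rw [hl])]

theorem ent_birth (hpr : ∀ l x y F, D.kf t l x y F = ∑ F', ind (prr t l F' = F) * D.kf (t + 1) l x y F') :
    GMH.ent (D.P h (t + 1)) (BB D (t + 1)) (LL (Um v (t + 1))) J ≤
      (D.P h t).Hc (LL (Um v (t + 1)) J) (fun w => (lo (LL (Um v (t + 1))) J w, BB D (t + 1) J w)) +
        ∑ l ∈ miss J, birth h prr t l := by
  have e1 : (D.P h t).Hc (LL (Um v (t + 1)) J) (fun w => (lo (LL (Um v (t + 1))) J w, BB D (t + 1) J w)) =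
      (D.P h (t + 1)).Hc (fun w => LL (Um v (t + 1)) J (old prr t w))
        (fun w => (lo (LL (Um v (t + 1))) J (old prr t w), BB D (t + 1) J w)) :=
    (push_Hc h hpr (LL (Um v (t + 1)) J) (fun w => (lo (LL (Um v (t + 1))) J w, BB D (t + 1) J w))).symm
  rw [e1]
  have hlo : (D.P h (t + 1)).Hc (fun w => LL (Um v (t + 1)) J (old prr t w))
      (fun w => (lo (LL (Um v (t + 1))) J w, BB D (t + 1) J w)) ≤
      (D.P h (t + 1)).Hc (fun w => LL (Um v (t + 1)) J (old prr t w))
        (fun w => (lo (LL (Um v (t + 1))) J (old prr t w), BB D (t + 1) J w)) := by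
    refine (D.P h (t + 1)).Hc_anti _ ?_
    intro a b hab
    simp only [Prod.mk.injEq] at hab ⊢
    refine ⟨lo_eq.2 fun I hI => ?_, hab.2⟩
    exact LO_old (lo_eq.1 hab.1 I hI)
  by_cases hex : ∃ l, univ.erase l = J
  · obtain ⟨l, hl⟩ := hex
    have hf : miss J = {l} := by
      ext l'
      rw [mem_miss, Finset.mem_singleton]
      exact ⟨fun hh => erase_inj' (hh.trans hl.symm), fun hh => by rw [hh]; exact hl⟩
    rw [hf, Finset.sum_singleton]
    have h1 : GMH.ent (D.P h (t + 1)) (BB D (t + 1)) (LL (Um v (t + 1))) J ≤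
        (D.P h (t + 1)).Hc (fun w => (w.2.2 l, LL (Um v (t + 1)) J (old prr t w)))
          (fun w => (lo (LL (Um v (t + 1))) J w, BB D (t + 1) J w)) := by
      refine (D.P h (t + 1)).Hc_mono _ ?_
      intro a b hab
      simp only [Prod.mk.injEq] at hab
      obtain ⟨⟨h2, h3⟩, _⟩ := hab
      rw [LL_eq] at h3 ⊢
      refine ⟨h3.1, fun l' hl' => ?_⟩
      have : l' = l := erase_inj' (hl'.trans hl.symm)
      rw [this]; exact h2
    have h2 := (D.P h (t + 1)).Hc_chain (fun w => w.2.2 l) (fun w => LL (Um v (t + 1)) J (old prr t w))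
      (fun w => (lo (LL (Um v (t + 1))) J w, BB D (t + 1) J w))
    have h3 : (D.P h (t + 1)).Hc (fun w => w.2.2 l)
        (fun w => (LL (Um v (t + 1)) J (old prr t w), lo (LL (Um v (t + 1))) J w, BB D (t + 1) J w)) ≤
        (D.P h (t + 1)).Hc (fun w => w.2.2 l) (fun w => (prr t l (w.2.2 l), BB D (t + 1) J w)) := by
      refine (D.P h (t + 1)).Hc_anti _ ?_
      intro a b hab
      simp only [Prod.mk.injEq] at hab ⊢
      have h4 := hab.1
      rw [LL_eq] at h4
      exact ⟨h4.2 l hl, hab.2.2⟩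
    have h4 := birth_BB h (prr := prr) (t := t) hl
    linarith
  · have hf : miss J = ∅ := by
      refine Finset.eq_empty_of_forall_notMem fun l hl => hex ⟨l, mem_miss.1 hl⟩
    rw [hf, Finset.sum_empty, add_zero]
    refine le_trans ?_ hlo
    refine (D.P h (t + 1)).Hc_mono _ ?_
    intro a b hab
    simp only [Prod.mk.injEq] at hab
    have h3 := hab.1
    rw [LL_eq] at h3 ⊢
    exact ⟨h3.1, fun l hl => absurd ⟨l, hl⟩ hex⟩

/-- everything strictly below `J` : no births -/
theorem lo_birth (hpr : ∀ l x y F, D.kf t l x y F = ∑ F', ind (prr t l F' = F) * D.kf (t + 1) l x y F')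
    (hJ : J ≠ univ) : (D.P h (t + 1)).Hc (lo (LL (Um v (t + 1))) J) (BB D (t + 1) J) ≤
      (D.P h t).Hc (lo (LL (Um v (t + 1))) J) (BB D (t + 1) J) := by
  have e1 : (D.P h t).Hc (lo (LL (Um v (t + 1))) J) (BB D (t + 1) J) =
      (D.P h (t + 1)).Hc (fun w => lo (LL (Um v (t + 1))) J (old prr t w)) (BB D (t + 1) J) :=
    (push_Hc h hpr (lo (LL (Um v (t + 1))) J) (BB D (t + 1) J)).symm
  rw [e1]
  refine (D.P h (t + 1)).Hc_mono _ ?_
  intro a b hab
  simp only [Prod.mk.injEq] at hab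
  refine lo_eq.2 fun I hI => ?_
  have h3 := lo_eq.1 hab.1 I hI
  rw [LL_eq] at h3 ⊢
  exact ⟨h3.1, fun l hl => absurd hl (lt_no hJ hI)⟩

/-- the node of the time `t + 1` contains the digit -/
theorem BB_succ (H : D.Hyp dg prr al T Lam) (ht : t < T) {w w' : Pt K X β φ} (h1 : BB D (t + 1) J w = BB D (t + 1) J w') :
    dg t w.1 = dg t w'.1 ∧ BB D t J w = BB D t J w' := by
  rw [BB_eq] at h1 ⊢
  have h2 := (H.dg_cell t ht w.1 w'.1).1 h1.2.1
  exact ⟨h2.2, h1.1, h2.1, fun j => D.rb t _ _ (h1.2.2 j)⟩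

/-- information of a digit -/
theorem I_dig (H : D.Hyp dg prr al T Lam) (ht : t < T) {κ ι : Type*} (A : Pt K X β φ → κ) (R : Pt K X β φ → ι) :
    (D.P h t).I (fun w => dg t w.1) A (fun w => (R w, BB D t J w)) ≤
      (D.P h t).Hc A (fun w => (R w, BB D t J w)) - (D.P h t).Hc A (fun w => (R w, BB D (t + 1) J w)) := by
  rw [FP.I_eq_Hc']
  have : (D.P h t).Hc A (fun w => (R w, BB D (t + 1) J w)) ≤
      (D.P h t).Hc A (fun w => (dg t w.1, R w, BB D t J w)) := by
    refine (D.P h t).Hc_anti _ ?_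
    intro a b hab
    simp only [Prod.mk.injEq] at hab ⊢
    have h2 := BB_succ H ht hab.2
    exact ⟨h2.1, hab.1, h2.2⟩
  linarith

/-- the digit is balanced given the known points of `J` and the node -/
theorem ce_dig (H : D.Hyp dg prr al T Lam) (ht : t < T) (w : Pt K X β φ) :
    (D.P h t).ce (BB D t J) (fun v => dg t v.1) w = 0 := by
  classical
  unfold FP.ce
  have e : (D.P h t).E (fun v => ind (BB D t J v = BB D t J w) * dg t v.1) = 0 := by
    have e1 : (D.P h t).E (fun v => ind (BB D t J v = BB D t J w) * dg t v.1) =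
        (D.P h t).E (fun v => (fun (x : X) (y : K → β) => ind ((∀ j ∈ J, y j = w.2.1 j) ∧
          ∀ j, D.qb t (y j) = D.qb t (w.2.1 j)) * (ind (D.qa t x = D.qa t w.1) * dg t x)) v.1 v.2.1) := by
      refine (D.P h t).E_congr fun v _ => ?_
      show ind (BB D t J v = BB D t J w) * dg t v.1 = ind ((∀ j ∈ J, v.2.1 j = w.2.1 j) ∧
          ∀ j, D.qb t (v.2.1 j) = D.qb t (w.2.1 j)) * (ind (D.qa t v.1 = D.qa t w.1) * dg t v.1)
      rw [← mul_assoc, ← ind_and]
      congr 1
      refine ind_cg ?_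
      rw [BB_eq]
      tauto
    rw [e1, E_labels0 h t (fun (x : X) (y : K → β) => ind ((∀ j ∈ J, y j = w.2.1 j) ∧
          ∀ j, D.qb t (y j) = D.qb t (w.2.1 j)) * (ind (D.qa t x = D.qa t w.1) * dg t x))]
    have e2 : ∑ x : X, ∑ y : K → β, ind ((∀ j ∈ J, y j = w.2.1 j) ∧
          ∀ j, D.qb t (y j) = D.qb t (w.2.1 j)) * (ind (D.qa t x = D.qa t w.1) * dg t x) = 0 := by
      rw [Finset.sum_comm]
      refine Finset.sum_eq_zero fun y _ => ?_
      rw [← Finset.mul_sum]
      have e3 : ∑ x : X, ind (D.qa t x = D.qa t w.1) * dg t x = 0 := by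
        have e4 := H.dg_bal t ht w.1
        unfold HD.cA at e4
        rw [Finset.sum_filter] at e4
        rw [← e4]
        refine Finset.sum_congr rfl fun x _ => ?_
        by_cases hx : D.qa t x = D.qa t w.1
        · rw [ind_of hx, if_pos hx, one_mul]
        · rw [ind_not hx, if_neg hx, zero_mul]
      rw [e3, mul_zero]
    rw [e2, zero_div]
  rw [e, zero_div]

/-! ## the experts of `GM/Harm` -/

theorem dgD (H : D.Hyp dg prr al T Lam) (w : Pt K X β φ) : dg t w.1 = 1 ∨ dg t w.1 = -1 := H.dg_val t w.1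

theorem uu_ce (w : Pt K X β φ) : uu (UU v) h dg J t w =
    (D.P h t).ce (fun w => (LL (Um v (t + 1)) J w, lo (LL (Um v (t + 1))) J w, BB D t J w)) (fun v => dg t v.1) w := by
  unfold uu
  refine (D.P h t).ce_congr_map ?_ ?_ _ w
  · intro a b hab
    rw [eJ_eq, le_eq'] at hab
    simp only [Prod.mk.injEq]
    exact ⟨hab.1.1, hab.1.2, hab.2⟩
  · intro a b hab
    rw [eJ_eq, le_eq']
    simp only [Prod.mk.injEq] at hab
    exact ⟨⟨hab.1, hab.2.1⟩, hab.2.2⟩

theorem ul_ce (hJ : J ≠ univ) (w : Pt K X β φ) : ul (UU v) h dg J t w =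
    (D.P h t).ce (fun w => (lo (LL (Um v (t + 1))) J w, BB D t J w)) (fun v => dg t v.1) w := by
  unfold ul
  refine (D.P h t).ce_congr_map ?_ ?_ _ w
  · intro a b hab
    rw [eL_eq hJ] at hab
    simp only [Prod.mk.injEq]
    exact hab
  · intro a b hab
    rw [eL_eq hJ]
    simp only [Prod.mk.injEq] at hab
    exact hab

theorem uu_sq (H : D.Hyp dg prr al T Lam) (ht : t < T) (hJ : J ≠ univ) :
    (D.P h t).E (fun w => (uu (UU v) h dg J t w - ul (UU v) h dg J t w) ^ 2) ≤
      2 * (GMH.ent (D.P h t) (BB D t) (LL (Um v (t + 1))) J -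
        (D.P h t).Hc (LL (Um v (t + 1)) J) (fun w => (lo (LL (Um v (t + 1))) J w, BB D (t + 1) J w))) := by
  have h1 := (D.P h t).I_digit_ge (D := fun w => dg t w.1) (fun w _ => dgD H w) (LL (Um v (t + 1)) J)
    (fun w => (lo (LL (Um v (t + 1))) J w, BB D t J w))
  have h2 := I_dig h (J := J) H ht (LL (Um v (t + 1)) J) (lo (LL (Um v (t + 1))) J)
  have e : (D.P h t).E (fun w => (uu (UU v) h dg J t w - ul (UU v) h dg J t w) ^ 2) =
      (D.P h t).E (fun w => ((D.P h t).ce (fun v_1 => (LL (Um v (t + 1)) J v_1, lo (LL (Um v (t + 1))) J v_1, BB D t J v_1))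
        (fun w => dg t w.1) w - (D.P h t).ce (fun w => (lo (LL (Um v (t + 1))) J w, BB D t J w)) (fun w => dg t w.1) w) ^ 2) :=
    (D.P h t).E_congr fun w _ => by rw [uu_ce, ul_ce h hJ]
  rw [e]
  unfold GMH.ent
  linarith

theorem ul_sq (H : D.Hyp dg prr al T Lam) (ht : t < T) (hJ : J ≠ univ) :
    (D.P h t).E (fun w => ul (UU v) h dg J t w ^ 2) ≤
      2 * ((D.P h t).Hc (lo (LL (Um v (t + 1))) J) (BB D t J) - (D.P h t).Hc (lo (LL (Um v (t + 1))) J) (BB D (t + 1) J)) := by
  have h1 := (D.P h t).I_digit_ge (D := fun w => dg t w.1) (fun w _ => dgD H w) (lo (LL (Um v (t + 1))) J) (BB D t J)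
  have h2 : (D.P h t).I (fun w => dg t w.1) (lo (LL (Um v (t + 1))) J) (BB D t J) ≤
      (D.P h t).Hc (lo (LL (Um v (t + 1))) J) (BB D t J) - (D.P h t).Hc (lo (LL (Um v (t + 1))) J) (BB D (t + 1) J) := by
    rw [FP.I_eq_Hc']
    have : (D.P h t).Hc (lo (LL (Um v (t + 1))) J) (BB D (t + 1) J) ≤
        (D.P h t).Hc (lo (LL (Um v (t + 1))) J) (fun w => (dg t w.1, BB D t J w)) := by
      refine (D.P h t).Hc_anti _ ?_
      intro a b hab
      simp only [Prod.mk.injEq]
      exact BB_succ H ht hab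
    linarith
  have e : (D.P h t).E (fun w => ul (UU v) h dg J t w ^ 2) =
      (D.P h t).E (fun w => ((D.P h t).ce (fun w => (lo (LL (Um v (t + 1))) J w, BB D t J w)) (fun w => dg t w.1) w -
        (D.P h t).ce (BB D t J) (fun w => dg t w.1) w) ^ 2) :=
    (D.P h t).E_congr fun w _ => by rw [ul_ce h hJ, ce_dig h H ht, sub_zero]
  rw [e]
  linarith

theorem mm_eq (H : D.Hyp dg prr al T Lam) (ht : t < T) (hK : (∅ : Finset K) ≠ univ) (w : Pt K X β φ) :
    mm (UU v) h dg t w = uu (UU v) h dg ∅ t w - ul (UU v) h dg ∅ t w := by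
  have h1 : ul (UU v) h dg ∅ t w = 0 := by
    unfold ul
    rw [← ce_dig h (J := ∅) H ht w]
    refine (D.P h t).ce_congr_map ?_ ?_ _ w
    · intro a b hab
      exact ((eL_eq hK).1 hab).2
    · intro a b hab
      exact (eL_eq hK).2 ⟨lo_eq.2 fun I hI => absurd hI (Finset.not_ssubset_empty I), hab⟩
  rw [h1, sub_zero]
  rfl

/-! ## the sums -/

variable (D) (v) (prr) (T) in
/-- total cost and births at `J` -/
noncomputable def tot (J : Finset K) : ℝ :=
  ∑ t ∈ range (T + 1), cst h v t J + ∑ l ∈ miss J, (birth0 h l + ∑ t ∈ range T, birth h prr t l)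

theorem cost_sum_le (J : Finset K) : ∑ t ∈ range T, cst h v t J ≤ ∑ t ∈ range (T + 1), cst h v t J := by
  rw [Finset.sum_range_succ]
  have := cst_nonneg h (v := v) T J
  linarith

theorem u_sum (H : D.Hyp dg prr al T Lam) (hJ : J ≠ univ) :
    ∑ t ∈ range T, (D.P h t).E (fun w => (uu (UU v) h dg J t w - ul (UU v) h dg J t w) ^ 2) ≤
      2 * tot D h prr T v J := by
  have h1 := tel (T := T)
    (i := fun t => (D.P h t).E (fun w => (uu (UU v) h dg J t w - ul (UU v) h dg J t w) ^ 2) / 2)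
    (e := fun t => GMH.ent (D.P h t) (BB D t) (LL (Um v (t + 1))) J)
    (m := fun t => GMH.ent (D.P h t) (BB D t) (LL (Um v t)) J)
    (a := fun t => (D.P h t).Hc (LL (Um v (t + 1)) J) (fun w => (lo (LL (Um v (t + 1))) J w, BB D (t + 1) J w)))
    (c := fun t => cst h v t J) (β := fun t => ∑ l ∈ miss J, birth h prr t l) (β0 := ∑ l ∈ miss J, birth0 h l)
    (fun t ht => by have := uu_sq h (v := v) H ht hJ; linarith)
    (fun t _ => ent_add h)
    (fun t ht => ent_birth h (H.kf_pr t ht))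
    (ent_start h hJ) ent_nonneg
  have h2 := cost_sum_le h (v := v) (T := T) J
  rw [← Finset.sum_div] at h1
  unfold tot
  rw [Finset.sum_add_distrib]
  have h3 : ∑ l ∈ miss J, ∑ t ∈ range T, birth h prr t l = ∑ t ∈ range T, ∑ l ∈ miss J, birth h prr t l :=
    Finset.sum_comm
  rw [h3]
  linarith

theorem births_nonneg (J : Finset K) : 0 ≤ ∑ l ∈ miss J, (birth0 h l + ∑ t ∈ range T, birth h prr t l) :=
  Finset.sum_nonneg fun l _ => add_nonneg (birth0_nonneg h l) (Finset.sum_nonneg fun t _ => birth_nonneg h t l)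

theorem l_sum (H : D.Hyp dg prr al T Lam) (hJ : J ≠ univ) :
    ∑ t ∈ range T, (D.P h t).E (fun w => ul (UU v) h dg J t w ^ 2) ≤ 2 * ∑ I ∈ J.ssubsets, tot D h prr T v I := by
  have h0 : (D.P h 0).Hc (lo (LL (Um v 0)) J) (BB D 0 J) ≤ 0 := by
    refine ((D.P h 0).Hc_mono (X := fun _ => ()) _ ?_).trans
      (((D.P h 0).Hc_le_H _ _).trans (le_of_eq ((D.P h 0).H_const ())))
    intro a b _
    refine lo_eq.2 fun I hI => ?_
    rw [LL_eq]
    exact ⟨rfl, fun l hl => absurd hl (lt_no hJ hI)⟩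
  have h1 := tel (T := T)
    (i := fun t => (D.P h t).E (fun w => ul (UU v) h dg J t w ^ 2) / 2)
    (e := fun t => (D.P h t).Hc (lo (LL (Um v (t + 1))) J) (BB D t J))
    (m := fun t => (D.P h t).Hc (lo (LL (Um v t)) J) (BB D t J))
    (a := fun t => (D.P h t).Hc (lo (LL (Um v (t + 1))) J) (BB D (t + 1) J))
    (c := fun t => ∑ I ∈ J.ssubsets, cst h v t I)
    (β := fun _ => 0) (β0 := 0)
    (fun t ht => by have := ul_sq h (v := v) H ht hJ; linarith)
    (fun t _ => lo_add (D.P h t) D)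
    (fun t ht => by rw [add_zero]; exact lo_birth h (H.kf_pr t ht) hJ)
    h0 ((D.P h T).Hc_nonneg _ _)
  rw [← Finset.sum_div] at h1
  simp only [Finset.sum_const_zero, add_zero, zero_add] at h1
  rw [Finset.sum_comm] at h1
  have h2 : ∑ I ∈ J.ssubsets, ∑ t ∈ range T, cst h v t I ≤ ∑ I ∈ J.ssubsets, tot D h prr T v I := by
    refine Finset.sum_le_sum fun I _ => ?_
    have h3 := cost_sum_le h (v := v) (T := T) I
    have h4 := births_nonneg h (prr := prr) (T := T) I
    unfold tot
    linarith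
  linarith

/-- **the squares of the biases** -/
theorem conM (H : D.Hyp dg prr al T Lam) (hK : (∅ : Finset K) ≠ univ) {b : Finset K → ℝ}
    (hb : ∀ J, J ≠ univ → tot D h prr T v J ≤ b J) :
    (∑ t ∈ range T, (D.P h t).E (fun w => mm (UU v) h dg t w ^ 2) ≤ 2 * b ∅) ∧
    (∀ J ∈ SS K, ∑ t ∈ range T, (D.P h t).E (fun w => (uu (UU v) h dg J t w - ul (UU v) h dg J t w) ^ 2) ≤ 2 * b J) ∧
    (∀ J ∈ SS K, ∑ t ∈ range T, (D.P h t).E (fun w => ul (UU v) h dg J t w ^ 2) ≤ 2 * ∑ I ∈ J.ssubsets, b I) := by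
  refine ⟨?_, ?_, ?_⟩
  · have h1 := u_sum h (v := v) H hK
    have h2 := hb ∅ hK
    have h3 : ∑ t ∈ range T, (D.P h t).E (fun w => mm (UU v) h dg t w ^ 2) =
        ∑ t ∈ range T, (D.P h t).E (fun w => (uu (UU v) h dg ∅ t w - ul (UU v) h dg ∅ t w) ^ 2) :=
      Finset.sum_congr rfl fun t ht => (D.P h t).E_congr fun w _ => by rw [mm_eq h H (Finset.mem_range.1 ht) hK]
    rw [h3]
    linarith
  · intro J hJ
    have hJ' : J ≠ univ := (Finset.mem_filter.1 hJ).2.2
    have h1 := u_sum h (v := v) H hJ'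
    have h2 := hb J hJ'
    linarith
  · intro J hJ
    have hJ' : J ≠ univ := (Finset.mem_filter.1 hJ).2.2
    have h1 := l_sum h (v := v) H hJ'
    have h2 : ∑ I ∈ J.ssubsets, tot D h prr T v I ≤ ∑ I ∈ J.ssubsets, b I := by
      refine Finset.sum_le_sum fun I hI => hb I ?_
      rintro rfl
      rw [Finset.mem_ssubsets] at hI
      exact absurd (Finset.subset_univ J) hI.2
    linarith

/-- the births at one index set -/
theorem miss_le (hh : D.Hyp dg prr al T Lam) (J : Finset K) :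
    ∑ l ∈ miss J, (birth0 h l + ∑ t ∈ range T, birth h prr t l) ≤ Lam := by
  rcases (miss J).eq_empty_or_nonempty with hm | ⟨l, hl⟩
  · rw [hm, Finset.sum_empty]
    exact le_trans zero_le_one hh.Lam1
  · have hl' := mem_miss.1 hl
    have hs : miss J = {l} := by
      ext l'
      rw [mem_miss, Finset.mem_singleton]
      exact ⟨fun hl2 => erase_inj' (hl2.trans hl'.symm), fun hl2 => by rw [hl2]; exact hl'⟩
    rw [hs, Finset.sum_singleton]
    exact birth_le h hh l

/-- the numbers: prices `N`, top prices at most `Ntop` -/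
theorem tot_le (hh : D.Hyp dg prr al T Lam) {N : Finset K → ℝ} {Ntop : ℝ} (hN : ∀ J, 0 < N J)
    (hN2 : ∀ l, N (univ.erase l) ≤ Ntop)
    (hv : ∀ t ≤ T, Phi (D.P h t) (BB D t) N (SS1 K) (LL (Um v t)) (Vt v t) ≤ 0) {J : Finset K} (hJ : J ≠ univ) :
    tot D h prr T v J ≤ Fintype.card K * (Ntop * Lam) / N J + Lam := by
  have h1 := cost_le h hh hN hN2 hv hJ
  have h2 := miss_le h hh J
  unfold tot
  linarith

/-- **m2, u2, l2 of `Harm.Concl`** : all prices at least `1` -/
theorem conM_Phi (hh : D.Hyp dg prr al T Lam) (hK : (∅ : Finset K) ≠ univ) {N : Finset K → ℝ} {Ntop B : ℝ}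
    (hN : ∀ J, 1 ≤ N J) (hN2 : ∀ l, N (univ.erase l) ≤ Ntop)
    (hv : ∀ t ≤ T, Phi (D.P h t) (BB D t) N (SS1 K) (LL (Um v t)) (Vt v t) ≤ 0)
    (hB : 2 * (2 : ℝ) ^ Fintype.card K * (Fintype.card K * (Ntop * Lam) + Lam) ≤ B) :
    (∑ t ∈ range T, (D.P h t).E (fun w => mm (UU v) h dg t w ^ 2) ≤ B) ∧
    (∀ J ∈ SS K, ∑ t ∈ range T, (D.P h t).E (fun w => (uu (UU v) h dg J t w - ul (UU v) h dg J t w) ^ 2) ≤ B) ∧
    (∀ J ∈ SS K, ∑ t ∈ range T, (D.P h t).E (fun w => ul (UU v) h dg J t w ^ 2) ≤ B) := by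
  have hL : 0 ≤ Lam := le_trans zero_le_one hh.Lam1
  have hKc : 0 < Fintype.card K := by
    rcases Nat.eq_zero_or_pos (Fintype.card K) with h0 | h0
    · exfalso
      refine hK ?_
      have := Fintype.card_eq_zero_iff.1 h0
      exact Finset.eq_univ_of_forall fun j => (this.false j).elim
    · exact h0
  obtain ⟨l0⟩ : Nonempty K := Fintype.card_pos_iff.1 hKc
  have hNt : 1 ≤ Ntop := (hN _).trans (hN2 l0)
  set c : ℝ := Fintype.card K * (Ntop * Lam) + Lam with hc
  have hc0 : 0 ≤ c := by positivity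
  have hb : ∀ J, J ≠ univ → tot D h prr T v J ≤ c := by
    intro J hJ
    refine (tot_le h hh (fun J => zero_lt_one.trans_le (hN J)) hN2 hv hJ).trans ?_
    have : Fintype.card K * (Ntop * Lam) / N J ≤ Fintype.card K * (Ntop * Lam) := by
      refine div_le_self (by positivity) (hN J)
    rw [hc]; linarith
  obtain ⟨h1, h2, h3⟩ := conM h hh hK (b := fun _ => c) hb
  have hp : (1 : ℝ) ≤ 2 ^ Fintype.card K := one_le_pow₀ one_le_two
  have h4 : 2 * c ≤ B := by
    refine le_trans ?_ hB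
    rw [hc] at hc0 ⊢
    nlinarith
  refine ⟨h1.trans h4, fun J hJ => (h2 J hJ).trans h4, fun J hJ => (h3 J hJ).trans ?_⟩
  rw [Finset.sum_const, nsmul_eq_mul]
  have h5 : (J.ssubsets.card : ℝ) ≤ 2 ^ Fintype.card K := by
    have h6 : J.ssubsets.card ≤ 2 ^ Fintype.card K := by
      refine (Finset.card_le_univ _).trans (le_of_eq ?_)
      rw [Fintype.card_finset]
    exact_mod_cast h6
  refine le_trans ?_ hB
  have : (J.ssubsets.card : ℝ) * c ≤ 2 ^ Fintype.card K * c := mul_le_mul_of_nonneg_right h5 hc0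
  linarith

end proc

end Pool.Agent.GMH
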