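import Pool.Agent.GMH.CK4

/-!
# GMH.MVdef: exact clocks, moved triples, status of a vertex, public clock (helper27; text H3.MOV of helper2)

The exact clocks see the moves with respect to the class of the exact vertex AND the moves with respect to the public class
(`Ex`), so the public tables over a triple which is not moved at `v` are stable too, in the whole exact epoch.

`MS` : a finite probability space with public information `NP s`, thin letters `XL v s` (they contain the point `YP v`), tops
`TF i s`; `cd s` = the step `s` is a code step (the points are not seen); parameters `d1, kb` (exact clocks), `d0, k0` (public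
clock), `p1` (status of a vertex), `z` (ends by the status).
* `LF i`, `YF i` : letters and points of the family `i = (thin letters, tops)`;
* `CN v s` : class of the exact vertex `v`; `TH s` : all thin letters; `lt5 N s` : light value in the step `s`;
* `Ex v ν k` : the point has moved at some time of `(ν, k]` with respect to the class of `v`; `tau v` : exact clock;
* `Mv v s` : the thin triple has moved at `v` (some point over it has); `Mo c s` : at a vertex `≠ c`;
  `pic c s` : its conditional probability in the class of `c`; `hys c s` : status (hysteresis, thresholds `p1 / 2`, `p1 / 4`);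
* `Lst ν k` : the list of the public epoch; `nu` : public clock (ends P1: list, P2: status).
-/

set_option autoImplicit false
set_option linter.unusedSectionVars false

namespace Pool.Agent.GMH.MV

open Finset Pool.Agent.PWZ Pool.Agent.M3 Pool.Agent.GMH.TD Pool.Agent.GMH.CK

/-- the data of the moved part -/
structure MS (Om : Type) [Fintype Om] where
  P : FP Om
  κ : Type
  lam : Type
  η : Type
  ph : Type
  NP : ℕ → Om → κ
  XL : Fin 3 → ℕ → Om → lam
  YP : Fin 3 → Om → η
  TF : Fin 3 → ℕ → Om → ph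
  cd : ℕ → Prop
  d1 : ℝ
  kb : ℝ
  d0 : ℝ
  k0 : ℝ
  p1 : ℝ
  z : ℝ
  hN : ∀ s, Fac (NP (s + 1)) (NP s)
  hX : ∀ v s, Fac (XL v (s + 1)) (XL v s)
  hXY : ∀ v s, Fac (XL v s) (YP v)
  hT : ∀ i s, Fac (TF i (s + 1)) (TF i s)
  hd1 : 0 < d1
  hd11 : d1 ≤ 1
  hkb : 0 < kb
  hd0 : 0 < d0
  hd01 : d0 ≤ 1
  hk0 : 0 < k0
  hp1 : 0 < p1
  hz : 0 < z

noncomputable section

variable {Om : Type} [Fintype Om] (M : MS Om)

/-- points of a family of letters: all the points (everything is at exact points) -/
def YF (_i : Finset (Fin 3) × Finset (Fin 3)) (w : Om) : Fin 3 → M.η := fun j => M.YP j w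

open Classical in
/-- a family of letters, with its points -/
def LF (i : Finset (Fin 3) × Finset (Fin 3)) (s : ℕ) (w : Om) :
    (Fin 3 → Option M.lam) × ((Fin 3 → Option M.ph) × (Fin 3 → M.η)) :=
  (fun j => if j ∈ i.1 then some (M.XL j s w) else Option.none,
    fun t => if t ∈ i.2 then some (M.TF t s w) else Option.none, YF M i w)

/-- class of the exact vertex `v` -/
def CN (v : Fin 3) (s : ℕ) (w : Om) : M.lam × M.κ := (M.XL v s w, M.NP s w)

/-- all thin letters and the public information -/
def TH (s : ℕ) (w : Om) : (Fin 3 → M.lam) × M.κ := (fun j => M.XL j s w, M.NP s w)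

/-- light value in the code step `s` -/
def lt5 {κ' : Type} (N : ℕ → Om → κ') (s : ℕ) (w : Om) : Prop := M.cd s ∧ 2 * M.P.m (N (s + 1)) w < M.P.m (N s) w

/-- the point has moved at some time of `(ν, k]` with respect to the class of `v` or with respect to the public class -/
def Ex (v : Fin 3) (ν k : ℕ) (w : Om) : Prop :=
  Evm M.P (CN M v) (LF M) (YF M) M.d1 ν k w ∨ Evm M.P M.NP (LF M) (YF M) M.d1 ν k w

/-- end of an exact epoch -/
def Cx (v : Fin 3) (ν k : ℕ) (w : Om) : Prop :=
  lt5 M M.NP (k - 1) w ∨ lt5 M (CN M v) (k - 1) w ∨ M.kb ≤ M.P.ce (CN M v k) (fun u => ind (Ex M v ν k u)) w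

/-- the exact clock of the vertex `v` -/
def tau (v : Fin 3) : ℕ → Om → ℕ := stg (Cx M v)

/-- the thin triple has moved at the vertex `v` -/
def Mv (v : Fin 3) (s : ℕ) (w : Om) : Prop := 0 < M.P.ce (TH M s) (fun u => ind (Ex M v (tau M v s u) s u)) w

/-- moved at a vertex different from `c` -/
def Mo (c : Fin 3) (s : ℕ) (w : Om) : Prop := ∃ v, v ≠ c ∧ Mv M v s w

/-- mass of the moved triples in the class of `c` -/
def pic (c : Fin 3) (s : ℕ) (w : Om) : ℝ := M.P.ce (CN M c s) (fun u => ind (Mo M c s u)) w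

/-- status of the vertex `c` -/
def hys (c : Fin 3) : ℕ → Om → Prop
  | 0 => fun w => M.p1 / 2 ≤ pic M c 0 w
  | s + 1 => fun w => M.p1 / 2 ≤ pic M c (s + 1) w ∨ (hys c s w ∧ M.p1 / 4 ≤ pic M c (s + 1) w)

/-- the list of the public epoch which starts at `ν` -/
def Lst (ν k : ℕ) (w : Om) : Prop :=
  Evm M.P M.NP (LF M) (YF M) M.d0 ν k w ∨ (∃ v j, ν < j ∧ j ≤ k ∧ tau M v j w = j) ∨
    ∃ c, ¬ hys M c ν w ∧ ∃ j, ν < j ∧ j ≤ k ∧ M.p1 ≤ pic M c j w

/-- end of a public epoch -/
def C0 (ν k : ℕ) (w : Om) : Prop :=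
  lt5 M M.NP (k - 1) w ∨ M.k0 ≤ M.P.ce (M.NP k) (fun u => ind (Lst M ν k u)) w ∨
    ∃ v, M.z ≤ M.P.ce (M.NP k) (fun u => ind (hys M v ν u)) w

/-- the public clock -/
def nu : ℕ → Om → ℕ := stg (C0 M)

/-- thick tops: an event of the tuples over a thin triple is empty or has probability at least `exp (-(4 Lam))` -/
def Thk (Lam : ℝ) : Prop := ∀ s (A : Om → Prop), Fac (fun w => (LF M (univ, univ) s w, M.NP s w)) A → ∀ w, M.P.p w ≠ 0 →
  0 < M.P.ce (TH M s) (fun u => ind (A u)) w → Real.exp (-(4 * Lam)) ≤ M.P.ce (TH M s) (fun u => ind (A u)) w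

/-- thick tops, for all later times: an event of the tuples of the time `s` which is possible over a thin triple has probability
at least `exp (-(4 Lam))` over it at every later time -/
def Thks (Lam : ℝ) : Prop := ∀ s s', s ≤ s' → ∀ A : Om → Prop, Fac (fun w => (LF M (univ, univ) s w, M.NP s w)) A →
  ∀ w, M.P.p w ≠ 0 → 0 < M.P.ce (TH M s) (fun u => ind (A u)) w →
    Real.exp (-(4 * Lam)) ≤ M.P.ce (TH M s') (fun u => ind (A u)) w

variable {M} in
theorem Thks.thk {Lam : ℝ} (h : Thks M Lam) : Thk M Lam := fun s A hA w hw h0 => h s s le_rfl A hA w hw h0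

/-- the points do not see the value of a code step, public class -/
def PrN : Prop := ∀ s, M.cd s → ∀ w, M.P.p w ≠ 0 →
  M.P.m (fun u => (YF M (univ, univ) u, M.NP (s + 1) u)) w * M.P.m (M.NP s) w =
    M.P.m (fun u => (YF M (univ, univ) u, M.NP s u)) w * M.P.m (M.NP (s + 1)) w

/-- the points do not see the public value of a code step, class of an exact vertex -/
def PrX : Prop := ∀ v s, M.cd s → ∀ w, M.P.p w ≠ 0 →
  M.P.m (fun u => (YF M (univ, univ) u, (M.NP (s + 1) u, CN M v s u))) w * M.P.m (CN M v s) w =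
    M.P.m (fun u => (YF M (univ, univ) u, CN M v s u)) w * M.P.m (fun u => (M.NP (s + 1) u, CN M v s u)) w

/-- totals of the increments and births of all families, public -/
def Tot0 (T : ℕ) (Tot : ℝ) : Prop := ∀ i, ∑ k ∈ range T, M.P.E (ai M.P M.NP (LF M i) (YF M i) k) ≤ Tot ∧
  ∑ k ∈ range T, M.P.E (bi M.P M.NP (LF M i) (YF M i) k) ≤ Tot

/-- totals of the increments and births of all families, class of `v` and public (a fifth of the bound each) -/
def TotX (T : ℕ) (Tot : ℝ) : Prop := (∀ v i, ∑ k ∈ range T, M.P.E (ai M.P (CN M v) (LF M i) (YF M i) k) ≤ Tot / 5 ∧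
  ∑ k ∈ range T, M.P.E (bi M.P (CN M v) (LF M i) (YF M i) k) ≤ Tot / 5) ∧ Tot0 M T (Tot / 5)

/-- expected number of light values -/
def NL (T : ℕ) : ℝ := ∑ s ∈ range T, M.P.Pr (lt5 M M.NP s)

def NLx (v : Fin 3) (T : ℕ) : ℝ := ∑ s ∈ range T, M.P.Pr (lt5 M (CN M v) s)

/-- expected number of the starts -/
def Nx (v : Fin 3) (T : ℕ) : ℝ := ∑ s ∈ range T, M.P.Pr (fun w => tau M v (s + 1) w = s + 1)

def N0 (T : ℕ) : ℝ := ∑ s ∈ range T, M.P.Pr (fun w => nu M (s + 1) w = s + 1)

end

end Pool.Agent.GMH.MV
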