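import Pool.Agent.GMH.Blk
import Pool.Agent.M3.HKey

/-!
# GMH/Crd (helper21): INDEPENDENT COORDINATES, SIGHTS AND CONDITIONAL INDEPENDENCE

`Ind P C` : the coordinates `C i : Om → E i` are independent (products of functions of single coordinates).
`Rel n i m x y` : the points `x, y` of the coordinate `i` agree at the LEVEL `m : ℕ∞` : `⊤` = they are equal, `s + 1` = they
have the same cell `n i s`, `0` = no condition.  A SIGHT of level `p : ι → ℕ∞` is any map `A` with
`A v = A w ↔ ∀ i, Rel n i (p i) (C i v) (C i w)` (`Sg n C p A`).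

* `ci` : sights of levels `p` and `q` are conditionally independent given the sight of level `min p q`;
* `indep` : they are independent if `min (p i) (q i) = 0` for all `i`;
* `ce_min` : `ce A f = ce M f` for `f` a function of the sight of level `q`, `M` of level `min p q`;
* `m_sg` : the mass of a sight is the product of the masses of its coordinates; `can` the canonical sight of a level;
* `ind_pi`, `ind_pr` : product spaces.
-/

set_option autoImplicit false
set_option linter.unusedSectionVars false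

namespace Pool.Agent.GMH.Crd

open Finset Pool.Agent.PWZ Pool.Agent.M3

noncomputable section

variable {Om : Type*} [Fintype Om] {P : FP Om}

private theorem ind_all {α : Type*} [Fintype α] (C : α → Prop) : ind (∀ a, C a) = ∏ a, ind (C a) := by
  classical
  by_cases h : ∀ a, C a
  · rw [ind_of h]
    exact (Finset.prod_eq_one fun a _ => ind_of (h a)).symm
  · rw [ind_not h]
    obtain ⟨a, ha⟩ := not_forall.1 h
    exact (Finset.prod_eq_zero (mem_univ a) (ind_not ha)).symm

/-! ## conditional independence from the masses of the fibres -/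

section masses

variable {α κ κ' : Type*} {A : Om → α} {X : Om → κ} {Y : Om → κ'}

theorem ci_of_m (hX : Fac X A) (hY : Fac Y A)
    (h : ∀ w v, P.p w ≠ 0 → P.p v ≠ 0 → A w = A v →
      P.m A w * P.E (fun u => ind (X u = X w) * ind (Y u = Y v)) = P.m X w * P.m Y v) : P.CI A X Y := by
  classical
  intro f g hf hg w0 hw0
  have hm0 := P.m_pos A hw0
  have e1 : P.E (fun u => ind (A u = A w0) * (f u * g u)) = P.E (fun u => P.E (fun w => P.E (fun v =>
      ind (A w = A w0) * ind (A v = A w0) * (f w * g v) / (P.m X w * P.m Y v) *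
        (ind (X u = X w) * ind (Y u = Y v))))) := by
    refine P.E_congr fun u hu => ?_
    have hfu := P.eq_E_fibre hf hu
    have hgu := P.eq_E_fibre hg hu
    have key : ∀ w v, ind (A w = A w0) * ind (A v = A w0) * (f w * g v) / (P.m X w * P.m Y v) *
        (ind (X u = X w) * ind (Y u = Y v)) =
        ind (A u = A w0) * ((f w * ind (X u = X w) / P.m X w) * (g v * ind (Y u = Y v) / P.m Y v)) := by
      intro w v
      by_cases hx : X u = X w
      · by_cases hy : Y u = Y v
        · rw [hX u w hx, show A v = A w by rw [← hX u w hx, hY u v hy]]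
          by_cases ha : A w = A w0
          · rw [ind_of hx, ind_of hy, ind_of ha]; ring
          · rw [ind_not ha]; ring
        · rw [ind_not hy]; ring
      · rw [ind_not hx]; ring
    simp only [key]
    conv_lhs => rw [hfu, hgu]
    rw [← P.E_mul_const, ← P.E_smul]
    refine P.E_congr fun w _ => ?_
    rw [← P.E_smul, ← P.E_smul]
  have e2 : P.E (fun u => P.E (fun w => P.E (fun v =>
      ind (A w = A w0) * ind (A v = A w0) * (f w * g v) / (P.m X w * P.m Y v) *
        (ind (X u = X w) * ind (Y u = Y v))))) = P.E (fun w => P.E (fun v =>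
      ind (A w = A w0) * ind (A v = A w0) * (f w * g v) / P.m A w0)) := by
    rw [P.E_swap P]
    refine P.E_congr fun w hw => ?_
    rw [P.E_swap P]
    refine P.E_congr fun v hv => ?_
    rw [P.E_smul]
    by_cases ha : A w = A w0
    · by_cases hb : A v = A w0
      · have h1 := h w v hw hv (ha.trans hb.symm)
        have h2 : P.m A w = P.m A w0 := P.Fac_m A w w0 ha
        have h3 := (P.m_pos X hw).ne'
        have h4 := (P.m_pos Y hv).ne'
        rw [h2] at h1
        field_simp
        linear_combination (ind (A w = A w0) * ind (A v = A w0) * (f w * g v)) * h1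
      · rw [ind_not hb]; ring
    · rw [ind_not ha]; ring
  have e3 : P.E (fun w => P.E (fun v => ind (A w = A w0) * ind (A v = A w0) * (f w * g v) / P.m A w0)) =
      P.E (fun w => ind (A w = A w0) * f w) * P.E (fun v => ind (A v = A w0) * g v) / P.m A w0 := by
    rw [mul_div_assoc, ← P.E_mul_const]
    refine P.E_congr fun w _ => ?_
    rw [← P.E_div_const, ← P.E_smul]
    refine P.E_congr fun v _ => ?_
    ring
  show P.E (fun u => ind (A u = A w0) * (f u * g u)) / P.m A w0 =
    P.E (fun u => ind (A u = A w0) * f u) / P.m A w0 * (P.E (fun u => ind (A u = A w0) * g u) / P.m A w0)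
  rw [e1, e2, e3]
  field_simp

/-- conditional independence depends only on the partitions -/
theorem ci_congr {α' κ1 κ2 : Type*} {A' : Om → α'} {X' : Om → κ1} {Y' : Om → κ2} (h : P.CI A X Y) (a1 : Fac A A')
    (a2 : Fac A' A) (hX : Fac X X') (hY : Fac Y Y') : P.CI A' X' Y' := by
  intro f g hf hg w hw
  have e : ∀ q : Om → ℝ, P.ce A' q w = P.ce A q w := fun q => P.ce_congr_map a2 a1 q w
  rw [e, e, e]
  exact h f g (hX.trans hf) (hY.trans hg) w hw

/-- a function of `Y` does not see more than `A` of `X` -/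
theorem ce_ci (h : P.CI A X Y) (hX : Fac X A) {g : Om → ℝ} (hg : Fac Y g) {w : Om} (hw : P.p w ≠ 0) :
    P.ce X g w = P.ce A g w := by
  refine P.ce_unique (hX.trans (P.ce_fac A g)) (fun k hk => ?_) hw
  rw [h.E2 hk hg]
  exact P.E_ce_mul (P.ce_fac A g) k

end masses

/-! ## independent coordinates -/

section coord

variable {ι : Type*} [Fintype ι] {E : ι → Type*}

variable (P) in
/-- the coordinates are independent -/
def Ind (C : ∀ i, Om → E i) : Prop :=
  ∀ f : ∀ i, E i → ℝ, P.E (fun w => ∏ i, f i (C i w)) = ∏ i, P.E (fun w => f i (C i w))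

/-- functions of independent coordinates are independent -/
theorem Ind.comp {E' : ι → Type*} {C : ∀ i, Om → E i} (h : Ind P C) (g : ∀ i, E i → E' i) :
    Ind P (fun i w => g i (C i w)) := fun f => h fun i x => f i (g i x)

/-- agreement at the level `m` -/
def Rel {ν : ι → ℕ → Type*} (n : ∀ i s, E i → ν i s) (i : ι) (m : ℕ∞) (x y : E i) : Prop :=
  (m = ⊤ → x = y) ∧ ∀ s : ℕ, (s : ℕ∞) < m → n i s x = n i s y

variable {ν : ι → ℕ → Type*} {n : ∀ i s, E i → ν i s} {C : ∀ i, Om → E i}

theorem Rel.refl (i : ι) (m : ℕ∞) (x : E i) : Rel n i m x x := ⟨fun _ => rfl, fun _ _ => rfl⟩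

theorem Rel.symm {i : ι} {m : ℕ∞} {x y : E i} (h : Rel n i m x y) : Rel n i m y x :=
  ⟨fun hm => (h.1 hm).symm, fun s hs => (h.2 s hs).symm⟩

theorem Rel.trans {i : ι} {m : ℕ∞} {x y z : E i} (h : Rel n i m x y) (h' : Rel n i m y z) : Rel n i m x z :=
  ⟨fun hm => (h.1 hm).trans (h'.1 hm), fun s hs => (h.2 s hs).trans (h'.2 s hs)⟩

theorem Rel.mono {i : ι} {m m' : ℕ∞} (hm : m ≤ m') {x y : E i} (h : Rel n i m' x y) : Rel n i m x y :=
  ⟨fun h1 => h.1 (top_le_iff.1 (h1 ▸ hm)), fun s hs => h.2 s (lt_of_lt_of_le hs hm)⟩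

theorem rel_top {i : ι} {x y : E i} : Rel n i ⊤ x y ↔ x = y :=
  ⟨fun h => h.1 rfl, fun h => h ▸ Rel.refl i ⊤ x⟩

theorem rel_zero {i : ι} {x y : E i} : Rel n i 0 x y :=
  ⟨fun h => absurd h (by simp), fun s hs => absurd hs (by simp)⟩

theorem cell_le {i : ι} (hn : ∀ s x y, n i (s + 1) x = n i (s + 1) y → n i s x = n i s y) {s t : ℕ} (hst : s ≤ t)
    {x y : E i} (h : n i t x = n i t y) : n i s x = n i s y := by
  induction t, hst using Nat.le_induction with
  | base => exact h
  | succ t _ ih => exact ih (hn t x y h)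

theorem rel_succ {i : ι} (hn : ∀ s x y, n i (s + 1) x = n i (s + 1) y → n i s x = n i s y) {s : ℕ} {x y : E i} :
    Rel n i ((s + 1 : ℕ) : ℕ∞) x y ↔ n i s x = n i s y := by
  constructor
  · intro h
    exact h.2 s (by exact_mod_cast Nat.lt_succ_self s)
  · intro h
    refine ⟨fun h1 => absurd h1 (ENat.natCast_ne_top _), fun r hr => ?_⟩
    have hr' : r < s + 1 := by exact_mod_cast hr
    exact cell_le hn (by omega) h

variable (n C) in
/-- `A` is a sight of level `p` -/
def Sg {α : Type*} (p : ι → ℕ∞) (A : Om → α) : Prop :=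
  ∀ v w, A v = A w ↔ ∀ i, Rel n i (p i) (C i v) (C i w)

variable {α κ κ' : Type*} {A : Om → α} {X : Om → κ} {Y : Om → κ'} {p q r : ι → ℕ∞}

theorem Sg.fac (hX : Sg n C p X) (hA : Sg n C q A) (h : ∀ i, q i ≤ p i) : Fac X A := fun v w e =>
  (hA v w).2 fun i => ((hX v w).1 e i).mono (h i)

variable (n C) in
/-- the canonical sight of a level -/
def can (p : ι → ℕ∞) (w : Om) : Set Om := {v | ∀ i, Rel n i (p i) (C i v) (C i w)}

theorem sg_can (p : ι → ℕ∞) : Sg n C p (can n C p) := by
  intro v w
  constructor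
  · intro e
    have h1 : v ∈ can n C p v := fun i => Rel.refl i _ _
    rw [e] at h1
    exact h1
  · intro e
    ext u
    exact ⟨fun hu i => (hu i).trans (e i), fun hu i => (hu i).trans (e i).symm⟩

/-- the mass of a sight -/
theorem m_sg (h : Ind P C) (hX : Sg n C p X) (w : Om) :
    P.m X w = ∏ i, P.E (fun u => ind (Rel n i (p i) (C i u) (C i w))) := by
  rw [← h fun i x => ind (Rel n i (p i) x (C i w))]
  refine P.E_congr fun u _ => ?_
  rw [show (X u = X w) = _ from propext (hX u w), ind_all]

/-- **CONDITIONAL INDEPENDENCE OF SIGHTS** -/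
theorem ci (h : Ind P C) (hX : Sg n C p X) (hY : Sg n C q Y) (hA : Sg n C r A) (hr : ∀ i, r i = min (p i) (q i)) :
    P.CI A X Y := by
  refine ci_of_m (hX.fac hA fun i => (hr i).le.trans (min_le_left _ _))
    (hY.fac hA fun i => (hr i).le.trans (min_le_right _ _)) fun w v _ _ hwv => ?_
  have hwv' := (hA w v).1 hwv
  have e2 : P.E (fun u => ind (X u = X w) * ind (Y u = Y v)) =
      ∏ i, P.E (fun u => ind (Rel n i (p i) (C i u) (C i w)) * ind (Rel n i (q i) (C i u) (C i v))) := by
    rw [← h fun i x => ind (Rel n i (p i) x (C i w)) * ind (Rel n i (q i) x (C i v))]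
    refine P.E_congr fun u _ => ?_
    rw [show (X u = X w) = _ from propext (hX u w), show (Y u = Y v) = _ from propext (hY u v), ind_all, ind_all,
      Finset.prod_mul_distrib]
  rw [m_sg h hA, m_sg h hX, m_sg h hY, e2, ← Finset.prod_mul_distrib, ← Finset.prod_mul_distrib]
  refine Finset.prod_congr rfl fun i _ => ?_
  have hi : Rel n i (r i) (C i w) (C i v) := hwv' i
  rw [hr i] at hi ⊢
  rcases le_total (p i) (q i) with hpq | hpq
  · rw [min_eq_left hpq] at hi ⊢
    congr 1
    refine P.E_congr fun u _ => ?_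
    by_cases hu : Rel n i (q i) (C i u) (C i v)
    · rw [ind_of hu, ind_of ((hu.mono hpq).trans hi.symm), one_mul]
    · rw [ind_not hu, mul_zero]
  · rw [min_eq_right hpq] at hi ⊢
    rw [mul_comm]
    congr 1
    · refine P.E_congr fun u _ => ?_
      by_cases hu : Rel n i (p i) (C i u) (C i w)
      · rw [ind_of hu, ind_of ((hu.mono hpq).trans hi), mul_one]
      · rw [ind_not hu, zero_mul]
    · refine P.E_congr fun u _ => ?_
      congr 1
      exact propext ⟨fun hu => hu.trans hi, fun hu => hu.trans hi.symm⟩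

/-- what a function of the sight `Y` sees of the sight `X` -/
theorem ce_min (h : Ind P C) (hX : Sg n C p X) (hY : Sg n C q Y) (hA : Sg n C r A) (hr : ∀ i, r i = min (p i) (q i))
    {g : Om → ℝ} (hg : Fac Y g) {w : Om} (hw : P.p w ≠ 0) : P.ce X g w = P.ce A g w :=
  ce_ci (ci h hX hY hA hr) (hX.fac hA fun i => (hr i).le.trans (min_le_left _ _)) hg hw

/-- sights without a common coordinate are independent -/
theorem indep (h : Ind P C) (hX : Sg n C p X) (hY : Sg n C q Y) (hpq : ∀ i, p i = 0 ∨ q i = 0) : P.Indep X Y := by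
  have hA : Sg n C (fun _ => 0) (fun _ : Om => ()) := fun v w => ⟨fun _ i => rel_zero, fun _ => rfl⟩
  have hc := ci h hX hY hA (fun i => by
    rcases hpq i with h0 | h0
    · rw [h0]; simp
    · rw [h0]; simp)
  intro f g hf hg
  have e : ∀ (k : Om → ℝ) (w : Om), P.ce (fun _ : Om => ()) k w = P.E k := fun k w => by
    unfold FP.ce FP.m
    rw [show (fun v : Om => ind ((fun _ : Om => ()) v = (fun _ : Om => ()) w) * k v) = k from funext fun v => by
      rw [ind_of rfl, one_mul], show (fun v : Om => ind ((fun _ : Om => ()) v = (fun _ : Om => ()) w)) = fun _ => 1 from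
      funext fun v => ind_of rfl, P.E_const, div_one]
  rw [hc.E2 hf hg]
  simp only [e]
  rw [P.E_const]

end coord

/-! ## product spaces -/

section prod

/-- a product law on functions -/
theorem ind_pi {I Φ : Type*} [Fintype I] [DecidableEq I] [Fintype Φ] (q : I → FP Φ) {P : FP (I → Φ)}
    (hP : ∀ θ, P.p θ = ∏ i, (q i).p (θ i)) : Ind P (fun (i : I) (θ : I → Φ) => θ i) := by
  have key : ∀ f : I → Φ → ℝ, P.E (fun θ => ∏ i, f i (θ i)) = ∏ i, (q i).E (f i) := by
    intro f
    have h := Finset.prod_univ_sum (fun _ : I => (univ : Finset Φ)) (fun i x => (q i).p x * f i x)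
    rw [Fintype.piFinset_univ] at h
    unfold FP.E
    rw [h]
    refine Finset.sum_congr rfl fun θ _ => ?_
    rw [hP, Finset.prod_mul_distrib]
  intro f
  rw [key f]
  refine Finset.prod_congr rfl fun i _ => ?_
  have h1 := key fun j x => if j = i then f i x else 1
  have h2 : (fun θ : I → Φ => ∏ j, (if j = i then f i (θ j) else 1)) = fun θ => f i (θ i) := by
    funext θ
    rw [Finset.prod_ite_eq' univ i, if_pos (mem_univ i)]
  rw [h2] at h1
  rw [h1, Finset.prod_eq_single i]
  · rw [show (fun x => if i = i then f i x else 1) = f i from funext fun x => if_pos rfl]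
  · intro j _ hj
    rw [show (fun x => if j = i then f i x else (1 : ℝ)) = fun _ => 1 from funext fun x => if_neg hj]
    exact FP.E_const _ _
  · intro hi
    exact absurd (mem_univ i) hi

/-- one coordinate -/
theorem ind_id (P : FP Om) : Ind P (fun (_ : Unit) (w : Om) => w) := by
  intro f
  rw [Fintype.prod_unique]
  refine P.E_congr fun w _ => ?_
  rw [Fintype.prod_unique]

/-- two independent families of coordinates -/
theorem ind_sum {ι1 ι2 : Type*} [Fintype ι1] [Fintype ι2] {E : ι1 ⊕ ι2 → Type*} {C : ∀ i, Om → E i}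
    (h1 : Ind P (fun i : ι1 => C (Sum.inl i))) (h2 : Ind P (fun i : ι2 => C (Sum.inr i)))
    (h : P.Indep (fun w (i : ι1) => C (Sum.inl i) w) (fun w (i : ι2) => C (Sum.inr i) w)) : Ind P C := by
  intro f
  simp only [Fintype.prod_sum_type]
  rw [h (fun w => ∏ i : ι1, f (Sum.inl i) (C (Sum.inl i) w)) (fun w => ∏ i : ι2, f (Sum.inr i) (C (Sum.inr i) w))
    (fun v w e => Finset.prod_congr rfl fun i _ => congrArg (f (Sum.inl i)) (congrFun e i))
    (fun v w e => Finset.prod_congr rfl fun i _ => congrArg (f (Sum.inr i)) (congrFun e i))]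
  rw [h1 fun i => f (Sum.inl i), h2 fun i => f (Sum.inr i)]

/-- coordinates of the first factor -/
theorem ind_fst {O1 O2 ι : Type*} [Fintype O1] [Fintype O2] [Fintype ι] {E : ι → Type*} {P1 : FP O1} (P2 : FP O2)
    {C : ∀ i, O1 → E i} (h : Ind P1 C) : Ind (FP.pr P1 P2) (fun i w => C i w.1) := by
  have e : ∀ f : O1 → ℝ, (FP.pr P1 P2).E (fun w => f w.1) = P1.E f := fun f => by
    rw [FP.pr_E]
    exact P1.E_congr fun x _ => P2.E_const (f x)
  intro f
  rw [e fun w => ∏ i, f i (C i w), h f]
  exact Finset.prod_congr rfl fun i _ => (e fun w => f i (C i w)).symm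

/-- coordinates of the second factor -/
theorem ind_snd {O1 O2 ι : Type*} [Fintype O1] [Fintype O2] [Fintype ι] {E : ι → Type*} (P1 : FP O1) {P2 : FP O2}
    {C : ∀ i, O2 → E i} (h : Ind P2 C) : Ind (FP.pr P1 P2) (fun i w => C i w.2) := by
  have e : ∀ f : O2 → ℝ, (FP.pr P1 P2).E (fun w => f w.2) = P2.E f := fun f => by
    rw [FP.pr_E]
    exact P1.E_const (P2.E f)
  intro f
  rw [e fun w => ∏ i, f i (C i w), h f]
  exact Finset.prod_congr rfl fun i _ => (e fun w => f i (C i w)).symm

/-- **PRODUCT OF TWO SPACES** -/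
theorem ind_pr {O1 O2 ι1 ι2 : Type*} [Fintype O1] [Fintype O2] [Fintype ι1] [Fintype ι2] {P1 : FP O1} {P2 : FP O2}
    {E : ι1 ⊕ ι2 → Type*} {C : ∀ i, O1 × O2 → E i} {C1 : ∀ i, O1 → E (Sum.inl i)} {C2 : ∀ i, O2 → E (Sum.inr i)}
    (h1 : Ind P1 C1) (h2 : Ind P2 C2) (e1 : ∀ i w, C (Sum.inl i) w = C1 i w.1) (e2 : ∀ i w, C (Sum.inr i) w = C2 i w.2) :
    Ind (FP.pr P1 P2) C := by
  refine ind_sum ?_ ?_ ?_
  · rw [show (fun i : ι1 => C (Sum.inl i)) = fun i w => C1 i w.1 from funext fun i => funext fun w => e1 i w]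
    exact ind_fst P2 h1
  · rw [show (fun i : ι2 => C (Sum.inr i)) = fun i w => C2 i w.2 from funext fun i => funext fun w => e2 i w]
    exact ind_snd P1 h2
  · refine (FP.indep_fst_snd P1 P2).mono (fun v w e => funext fun i => ?_) (fun v w e => funext fun i => ?_)
    · rw [e1, e1, show v.1 = w.1 from e]
    · rw [e2, e2, show v.2 = w.2 from e]

end prod

end

end Pool.Agent.GMH.Crd
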