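import Pool.Agent.GMH.Tab
import Pool.Agent.GMH.Crd
import Pool.Agent.GMH.RowP

/-!
# GMH/TabP: product facts of the space with tables (statements helper12, proofs helper21)

* `pul_pt`, `old_pt`, `Ps_pos`, `Wl_ne`, `Wl_supp`, `Wl_indep`, `sgt_indep`, `ce_forget`;
* `CC` the seven coordinates, `ind_Ps` : they are independent, `nn` the cells; `sg_sgt`, `sg_crd`, .. : the sights as sights
  of `GMH/Crd`.
-/

set_option autoImplicit false
set_option linter.unusedSectionVars false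

namespace Pool.Agent.GMH.Dy

open Finset Pool.Agent.PWZ Pool.Agent.M3 Pool.Agent.GM Pool.Agent.GM.Harm Pool.Agent.GMH
open Pool.Agent.GMH.Gdy
open Pool.Agent.GMH.Crd (Ind Rel Sg rel_top rel_zero rel_succ)

variable {X β γ φ : Type} [Fintype X] [Fintype β] [Fintype φ] [Nonempty X] [Nonempty β]
variable {D : HD (Fin 3) X β γ φ} {al : ℝ} (h : D.Thick al) {prr : ℕ → Fin 3 → φ → φ} {T : ℕ} {W : Type} [Fintype W]
variable (tb : Tab D prr T W)

noncomputable section

/-! ## the law as a product law -/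

/-- the product law -/
def Pq (tb : Tab D prr T W) : FP (Om W X β) := FP.pr (FP.unif X) (FP.pr (FPpi tb.Q) (FP.unif (Fin 3 → β)))

theorem Ps_p (w : Om W X β) : tb.Ps.p w = (Pq tb).p w := by
  show (∏ i, (tb.Q i).p (w.2.1 i)) / (Fintype.card X * (Fintype.card β : ℝ) ^ 3) =
    (Fintype.card X : ℝ)⁻¹ * ((∏ i, (tb.Q i).p (w.2.1 i)) * (Fintype.card (Fin 3 → β) : ℝ)⁻¹)
  have h4 : (Fintype.card X : ℝ) ≠ 0 := by exact_mod_cast Fintype.card_ne_zero
  have h5 : (Fintype.card β : ℝ) ≠ 0 := by exact_mod_cast Fintype.card_ne_zero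
  rw [Fintype.card_fun, Fintype.card_fin]
  push_cast
  field_simp

theorem Ps_E (f : Om W X β → ℝ) : tb.Ps.E f =
    (FP.unif X).E fun x => (FPpi tb.Q).E fun ω => (FP.unif (Fin 3 → β)).E fun y => f (x, ω, y) := by
  have e : tb.Ps.E f = (Pq tb).E f := by
    unfold FP.E
    exact Finset.sum_congr rfl fun w _ => by rw [Ps_p]
  rw [e]
  unfold Pq
  rw [FP.pr_E]
  refine FP.E_congr _ fun x _ => ?_
  rw [FP.pr_E]

theorem Ps_E' (f : Om W X β → ℝ) : tb.Ps.E f =
    (FP.unif (X × (Fin 3 → β))).E fun z => (FPpi tb.Q).E fun ω => f (z.1, ω, z.2) := by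
  rw [Ps_E, show FP.E (FP.unif (X × (Fin 3 → β))) (fun z => (FPpi tb.Q).E fun ω => f (z.1, ω, z.2)) =
    (FP.unif X).E fun x => (FP.unif (Fin 3 → β)).E fun y => (FPpi tb.Q).E fun ω => f (x, ω, y) from ?_]
  · refine FP.E_congr _ fun x _ => ?_
    rw [FP.E_swap]
  · rw [FP.unif_E, FP.unif_E, Fintype.sum_prod_type]
    simp only [FP.unif_E]
    rw [← Finset.sum_div, div_div, Fintype.card_prod]
    push_cast
    rw [mul_comm (Fintype.card (Fin 3 → β) : ℝ)]

/-! ## the law of the time `t` -/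

variable {tb}

/-- product of functions of the labels -/
theorem E_labs {t : ℕ} (ht : t ≤ T) (x : X) (y : Fin 3 → β) (g : (Fin 3 → φ) → ℝ) :
    (FPpi tb.Q).E (fun ω => g fun i => tb.lab t i (ω i) x y) = ∑ F : Fin 3 → φ, (∏ l, D.kf t l x y (F l)) * g F := by
  classical
  have h1 : ∀ ω : Fin 3 → W, g (fun i => tb.lab t i (ω i) x y) =
      ∑ F : Fin 3 → φ, (∏ l, ind (tb.lab t l (ω l) x y = F l)) * g F := by
    intro ω
    rw [Finset.sum_eq_single fun i => tb.lab t i (ω i) x y]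
    · rw [Finset.prod_eq_one fun l _ => ind_of rfl, one_mul]
    · intro F _ hF
      obtain ⟨l, hl⟩ : ∃ l, tb.lab t l (ω l) x y ≠ F l := by
        by_contra hcon
        push Not at hcon
        exact hF (funext fun l => (hcon l).symm)
      rw [Finset.prod_eq_zero (mem_univ l) (ind_not hl), zero_mul]
    · intro hn
      exact absurd (mem_univ _) hn
  have h2 : ∀ F : Fin 3 → φ, (FPpi tb.Q).E (fun ω => ∏ l, ind (tb.lab t l (ω l) x y = F l)) =
      ∏ l, D.kf t l x y (F l) := by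
    intro F
    rw [Crd.ind_pi tb.Q (P := FPpi tb.Q) (fun θ => rfl) fun l ω => ind (tb.lab t l ω x y = F l)]
    refine Finset.prod_congr rfl fun l _ => ?_
    rw [FPpi_E tb.Q l fun ω => ind (tb.lab t l ω x y = F l), tb.law t ht l x y fun G => ind (G = F l),
      Finset.sum_eq_single (F l)]
    · rw [ind_of rfl, mul_one]
    · intro G _ hG
      rw [ind_not hG, mul_zero]
    · intro hn
      exact absurd (mem_univ _) hn
  simp only [h1]
  rw [FP.E_sum]
  refine Finset.sum_congr rfl fun F _ => ?_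
  rw [FP.E_mul_const, h2]

variable (tb)

/-- the law of the time `t` -/
theorem pul_pt {t : ℕ} (ht : t ≤ T) : Pul tb.Ps (D.P h t) (tb.pt t) where
  E f := by
    rw [E_law, Ps_E']
    refine FP.E_congr _ fun z _ => ?_
    exact E_labs (tb := tb) ht z.1 z.2 fun F => f (z.1, z.2, F)

/-- earlier labels: on the support `pt t` is the point of the time `t` of `pt (t + 1)` -/
theorem old_pt {t : ℕ} (ht : t < T) {w : Om W X β} (hw : tb.Ps.p w ≠ 0) : old prr t (tb.pt (t + 1) w) = tb.pt t w := by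
  have h1 : ∀ i, (tb.Q i).p (w.2.1 i) ≠ 0 := by
    intro i hi
    refine hw ?_
    show (∏ i, (tb.Q i).p (w.2.1 i)) / (Fintype.card X * (Fintype.card β : ℝ) ^ 3) = 0
    rw [Finset.prod_eq_zero (mem_univ i) hi, zero_div]
  unfold old Tab.pt
  simp only [Prod.mk.injEq, true_and]
  exact funext fun i => tb.pr t ht i _ _ _ (h1 i)

/-- means of functions of the positions -/
theorem Ps_pos (f : X × (Fin 3 → β) → ℝ) : tb.Ps.E (fun w => f (w.1, w.2.2)) = (FP.unif (X × (Fin 3 → β))).E f := by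
  rw [Ps_E']
  exact FP.E_congr _ fun z _ => FP.E_const _ (f z)

/-! ## the seven coordinates -/

/-- types of the coordinates: hidden point, tables, known points -/
def CE (W X β : Type) : Unit ⊕ (Fin 3 ⊕ Fin 3) → Type
  | Sum.inl _ => X
  | Sum.inr (Sum.inl _) => W
  | Sum.inr (Sum.inr _) => β

/-- types of the cells -/
def Cν (γ : Type) : Unit ⊕ (Fin 3 ⊕ Fin 3) → ℕ → Type
  | Sum.inl _ => fun _ => Unit
  | Sum.inr (Sum.inl _) => fun _ => Unit
  | Sum.inr (Sum.inr _) => fun _ => γ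

/-- coordinates -/
def CC : ∀ i : Unit ⊕ (Fin 3 ⊕ Fin 3), Om W X β → CE W X β i
  | Sum.inl _ => fun w => w.1
  | Sum.inr (Sum.inl i) => fun w => w.2.1 i
  | Sum.inr (Sum.inr j) => fun w => w.2.2 j

/-- cells -/
def nn (D : HD (Fin 3) X β γ φ) : ∀ (i : Unit ⊕ (Fin 3 ⊕ Fin 3)) (s : ℕ), CE W X β i → Cν γ i s
  | Sum.inl _ => fun _ _ => ()
  | Sum.inr (Sum.inl _) => fun _ _ => ()
  | Sum.inr (Sum.inr _) => fun s b => D.qb s b

theorem nn_filt (i : Unit ⊕ (Fin 3 ⊕ Fin 3)) (s : ℕ) (x y : CE W X β i)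
    (hxy : nn (W := W) D i (s + 1) x = nn D i (s + 1) y) : nn (W := W) D i s x = nn D i s y := by
  match i, x, y, hxy with
  | Sum.inl _, _, _, _ => rfl
  | Sum.inr (Sum.inl _), _, _, _ => rfl
  | Sum.inr (Sum.inr _), x, y, hxy => exact D.rb s x y hxy

variable {tb} in
theorem ind_Ps : Ind tb.Ps (CC (W := W) (X := X) (β := β)) := by
  have h1 : Ind (Pq tb) (CC (W := W) (X := X) (β := β)) := by
    refine Crd.ind_pr (C := CC (W := W) (X := X) (β := β)) (C1 := fun _ x => x)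
      (C2 := fun i w => CC (W := W) (X := X) (β := β) (Sum.inr i) (Classical.arbitrary X, w)) (Crd.ind_id _) ?_
      (fun _ _ => rfl) (fun i w => ?_)
    · refine Crd.ind_pr (ι1 := Fin 3) (ι2 := Fin 3) (C1 := fun i ω => ω i) (C2 := fun i y => y i)
        (Crd.ind_pi tb.Q fun _ => rfl) (Crd.ind_pi (fun _ => FP.unif β) fun θ => ?_) (fun _ _ => rfl) fun _ _ => rfl
      show ((Fintype.card (Fin 3 → β) : ℝ))⁻¹ = ∏ _i : Fin 3, (Fintype.card β : ℝ)⁻¹
      rw [Finset.prod_const, Finset.card_univ, Fintype.card_fin, Fintype.card_fun, Fintype.card_fin]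
      push_cast
      rw [inv_pow]
    · match i with
      | Sum.inl _ => rfl
      | Sum.inr _ => rfl
  intro f
  have e : ∀ k : Om W X β → ℝ, tb.Ps.E k = (Pq tb).E k := fun k => by
    unfold FP.E
    exact Finset.sum_congr rfl fun w _ => by rw [Ps_p]
  simp only [e]
  exact h1 f

/-! ## sights -/

/-- levels of the coordinates -/
def lvl (b c : Fin 3 → ℕ∞) : Unit ⊕ (Fin 3 ⊕ Fin 3) → ℕ∞
  | Sum.inl _ => ⊤
  | Sum.inr (Sum.inl i) => b i
  | Sum.inr (Sum.inr j) => c j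

theorem lvl_min (b c b' c' : Fin 3 → ℕ∞) (i : Unit ⊕ (Fin 3 ⊕ Fin 3)) :
    lvl (fun i => min (b i) (b' i)) (fun i => min (c i) (c' i)) i = min (lvl b c i) (lvl b' c' i) := by
  match i with
  | Sum.inl _ => exact (min_self _).symm
  | Sum.inr (Sum.inl _) => rfl
  | Sum.inr (Sum.inr _) => rfl

/-- exact on `S`, nothing outside -/
def eS (S : Finset (Fin 3)) (i : Fin 3) : ℕ∞ := if i ∈ S then ⊤ else 0

/-- exact on `E`, cells of the time `m j` outside -/
def eC (E : Finset (Fin 3)) (m : Fin 3 → ℕ) (j : Fin 3) : ℕ∞ := if j ∈ E then ⊤ else ((m j + 1 : ℕ) : ℕ∞)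

variable (D) in
/-- agreement of the points `j` at the level `m` -/
def Rp (m : ℕ∞) (a b : β) : Prop := (m = ⊤ → a = b) ∧ ∀ s : ℕ, (s : ℕ∞) < m → D.qb s a = D.qb s b

theorem rp_eS {S : Finset (Fin 3)} {j : Fin 3} {a b : β} : Rp D (eS S j) a b ↔ (j ∈ S → a = b) := by
  unfold eS
  by_cases hj : j ∈ S
  · rw [if_pos hj]
    exact ⟨fun hr _ => hr.1 rfl, fun hr => by rw [hr hj]; exact ⟨fun _ => rfl, fun _ _ => rfl⟩⟩
  · rw [if_neg hj]
    exact ⟨fun _ hh => absurd hh hj, fun _ => ⟨fun hh => absurd hh (by simp), fun s hs => absurd hs (by simp)⟩⟩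

theorem rp_eC {E : Finset (Fin 3)} {m : Fin 3 → ℕ} {j : Fin 3} {a b : β} :
    Rp D (eC E m j) a b ↔ (j ∈ E → a = b) ∧ D.qb (m j) a = D.qb (m j) b := by
  unfold eC
  by_cases hj : j ∈ E
  · rw [if_pos hj]
    exact ⟨fun hr => ⟨fun _ => hr.1 rfl, by rw [hr.1 rfl]⟩, fun hr => by rw [hr.1 hj]; exact ⟨fun _ => rfl, fun _ _ => rfl⟩⟩
  · rw [if_neg hj]
    constructor
    · intro hr
      exact ⟨fun hh => absurd hh hj, hr.2 (m j) (by exact_mod_cast Nat.lt_succ_self _)⟩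
    · intro hr
      refine ⟨fun hh => absurd hh (ENat.natCast_ne_top _), fun s hs => ?_⟩
      have hs' : s < m j + 1 := by exact_mod_cast hs
      exact qb_le (D := D) (show s ≤ m j by omega) hr.2

/-- a sight in coordinates -/
theorem sg_iff {α : Type*} {S : Finset (Fin 3)} {c : Fin 3 → ℕ∞} {A : Om W X β → α} :
    Sg (nn (W := W) D) CC (lvl (eS S) c) A ↔
      ∀ v w, A v = A w ↔ (v.1 = w.1 ∧ (∀ i ∈ S, v.2.1 i = w.2.1 i) ∧ ∀ j, Rp D (c j) (v.2.2 j) (w.2.2 j)) := by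
  unfold Sg
  refine forall_congr' fun v => forall_congr' fun w => ?_
  have e : (∀ i, Rel (nn (W := W) D) i (lvl (eS S) c i) (CC i v) (CC i w)) ↔
      (v.1 = w.1 ∧ (∀ i ∈ S, v.2.1 i = w.2.1 i) ∧ ∀ j, Rp D (c j) (v.2.2 j) (w.2.2 j)) := by
    constructor
    · intro hr
      refine ⟨rel_top.1 (hr (Sum.inl ())), fun i hi => ?_, fun j => hr (Sum.inr (Sum.inr j))⟩
      have h1 := hr (Sum.inr (Sum.inl i))
      have h2 : lvl (eS S) c (Sum.inr (Sum.inl i)) = ⊤ := if_pos hi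
      rw [h2] at h1
      exact rel_top.1 h1
    · rintro ⟨h1, h2, h3⟩ i
      match i with
      | Sum.inl _ => exact rel_top.2 h1
      | Sum.inr (Sum.inl i) =>
        by_cases hi : i ∈ S
        · have h4 : lvl (eS S) c (Sum.inr (Sum.inl i)) = ⊤ := if_pos hi
          rw [h4]
          exact rel_top.2 (h2 i hi)
        · have h4 : lvl (eS S) c (Sum.inr (Sum.inl i)) = 0 := if_neg hi
          rw [h4]
          exact rel_zero
      | Sum.inr (Sum.inr j) => exact h3 j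
  rw [e]

theorem opt_eq {B : Type} {E : Finset (Fin 3)} {f g : Fin 3 → B} :
    ((fun j => if j ∈ E then some (f j) else none) = fun j => if j ∈ E then some (g j) else none) ↔
      ∀ j ∈ E, f j = g j := by
  rw [funext_iff]
  refine forall_congr' fun j => ?_
  by_cases hj : j ∈ E
  · simp [hj]
  · simp [hj]

theorem sgt_eq {E : Finset (Fin 3)} {n : ℕ} {v w : Om W X β} : sgt D E n v = sgt D E n w ↔
    v.1 = w.1 ∧ (∀ j ∈ E, v.2.2 j = w.2.2 j) ∧ ∀ j, D.qb n (v.2.2 j) = D.qb n (w.2.2 j) := by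
  unfold sgt
  rw [Prod.mk.injEq, Prod.mk.injEq, opt_eq, funext_iff]

theorem crd_eq {S S' : Finset (Fin 3)} {v w : Om W X β} : crd S S' v = crd S S' w ↔
    (∀ i ∈ S, v.2.1 i = w.2.1 i) ∧ ∀ j ∈ S', v.2.2 j = w.2.2 j := by
  unfold crd
  rw [Prod.mk.injEq, opt_eq, opt_eq]

theorem cll_eq {n : ℕ} {v w : Om W X β} : cll D n v = cll D n w ↔
    v.1 = w.1 ∧ ∀ j, D.qb n (v.2.2 j) = D.qb n (w.2.2 j) := by
  unfold cll
  rw [Prod.mk.injEq, funext_iff]

theorem sg_sgt (E : Finset (Fin 3)) (n : ℕ) :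
    Sg (nn (W := W) D) CC (lvl (eS ∅) (eC E fun _ => n)) (sgt (W := W) D E n) := by
  rw [sg_iff]
  intro v w
  rw [sgt_eq]
  simp only [rp_eC, notMem_empty, false_implies, implies_true, true_and]
  exact and_congr_right fun _ => ⟨fun hh j => ⟨hh.1 j, hh.2 j⟩, fun hh => ⟨fun j => (hh j).1, fun j => (hh j).2⟩⟩

theorem sg_sgt_crd (E : Finset (Fin 3)) (n : ℕ) (S S' : Finset (Fin 3)) :
    Sg (nn (W := W) D) CC (lvl (eS S) (eC (E ∪ S') fun _ => n)) (fun w => (sgt (W := W) D E n w, crd S S' w)) := by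
  rw [sg_iff]
  intro v w
  rw [Prod.mk.injEq, sgt_eq, crd_eq]
  simp only [rp_eC, mem_union]
  constructor
  · rintro ⟨⟨h1, h2, h3⟩, h4, h5⟩
    exact ⟨h1, h4, fun j => ⟨fun hj => hj.elim (h2 j) (h5 j), h3 j⟩⟩
  · rintro ⟨h1, h2, h3⟩
    exact ⟨⟨h1, fun j hj => (h3 j).1 (Or.inl hj), fun j => (h3 j).2⟩, h2, fun j hj => (h3 j).1 (Or.inr hj)⟩

theorem sg_crd (S S' : Finset (Fin 3)) :
    Sg (nn (W := W) D) CC (lvl (eS S) (eS S')) (fun w : Om W X β => (w.1, crd S S' w)) := by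
  rw [sg_iff]
  intro v w
  rw [Prod.mk.injEq, crd_eq]
  simp only [rp_eS]

theorem min_eS (S S' : Finset (Fin 3)) (i : Fin 3) : eS (S ∩ S') i = min (eS S i) (eS S' i) := by
  unfold eS
  by_cases h1 : i ∈ S <;> by_cases h2 : i ∈ S' <;> simp [h1, h2]

theorem min_eC (E E' : Finset (Fin 3)) (m : Fin 3 → ℕ) (j : Fin 3) : eC (E ∩ E') m j = min (eC E m j) (eC E' m j) := by
  unfold eC
  by_cases h1 : j ∈ E <;> by_cases h2 : j ∈ E' <;> simp [h1, h2]

/-- **conditional independence given exact points of `E` and the cells**: tables `S`, points `S'` against the others -/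
theorem sgt_ci (E : Finset (Fin 3)) (n : ℕ) (S S' : Finset (Fin 3)) :
    tb.Ps.CI (sgt D E n) (fun w => (sgt D E n w, crd S S' w)) (fun w => (sgt D E n w, crd Sᶜ S'ᶜ w)) := by
  refine Crd.ci (ind_Ps (tb := tb)) (sg_sgt_crd E n S S') (sg_sgt_crd E n Sᶜ S'ᶜ) (sg_sgt E n) fun i => ?_
  rw [← lvl_min]
  congr 1
  · funext i
    rw [← min_eS, Finset.inter_compl]
  · funext j
    rw [← min_eC, ← Finset.union_inter_distrib_left, Finset.inter_compl, Finset.union_empty]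

theorem sgt_indep (E : Finset (Fin 3)) (n : ℕ) (S S' : Finset (Fin 3)) {f g : Om W X β → ℝ}
    (hf : Fac (fun w => (sgt D E n w, crd S S' w)) f) (hg : Fac (fun w => (sgt D E n w, crd Sᶜ S'ᶜ w)) g) {w : Om W X β}
    (hw : tb.Ps.p w ≠ 0) :
    tb.Ps.ce (sgt D E n) (fun u => f u * g u) w = tb.Ps.ce (sgt D E n) f w * tb.Ps.ce (sgt D E n) g w :=
  sgt_ci tb E n S S' f g hf hg w hw

/-- **forgetting a cell** : a function of the tables `S` and of the points `S'` does not see the cells of the other points -/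
theorem ce_forget (E : Finset (Fin 3)) (n : ℕ) (S S' : Finset (Fin 3)) {f : Om W X β → ℝ}
    (hf : Fac (fun w => (w.1, crd S S' w)) f) {m : ℕ} (_hmn : m ≤ n) {w : Om W X β} (hw : tb.Ps.p w ≠ 0) :
    tb.Ps.ce (sgt D E n) f w = tb.Ps.ce (fun u => (u.1, (fun j => if j ∈ E ∩ S' then some (u.2.2 j) else none),
      fun j => if j ∈ S' then D.qb n (u.2.2 j) else D.qb m (u.2.2 j))) f w := by
  set r : Unit ⊕ (Fin 3 ⊕ Fin 3) → ℕ∞ := fun i => min (lvl (eS ∅) (eC E fun _ => n) i) (lvl (eS S) (eS S') i) with hr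
  have hA : Sg (nn (W := W) D) CC (lvl (eS ∅) (eC (E ∩ S') fun j => if j ∈ S' then n else m))
      (fun u : Om W X β => (u.1, (fun j => if j ∈ E ∩ S' then some (u.2.2 j) else none),
        fun j => if j ∈ S' then D.qb n (u.2.2 j) else D.qb m (u.2.2 j))) := by
    rw [sg_iff]
    intro v w
    rw [Prod.mk.injEq, Prod.mk.injEq, opt_eq, funext_iff]
    simp only [rp_eC, notMem_empty, false_implies, implies_true, true_and]
    have key : ∀ (j : Fin 3) (b : β), (if j ∈ S' then D.qb n b else D.qb m b) = D.qb (if j ∈ S' then n else m) b := by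
      intro j b
      by_cases hj : j ∈ S'
      · rw [if_pos hj, if_pos hj]
      · rw [if_neg hj, if_neg hj]
    simp only [key]
    exact and_congr_right fun _ => ⟨fun hh j => ⟨hh.1 j, hh.2 j⟩, fun hh => ⟨fun j => (hh j).1, fun j => (hh j).2⟩⟩
  rw [Crd.ce_min (ind_Ps (tb := tb)) (sg_sgt E n) (sg_crd S S') (Crd.sg_can r) (fun _ => rfl) hf hw,
    Crd.ce_min (ind_Ps (tb := tb)) hA (sg_crd S S') (Crd.sg_can r) (fun i => ?_) hf hw]
  rw [hr]
  match i with
  | Sum.inl _ => rfl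
  | Sum.inr (Sum.inl _) => rfl
  | Sum.inr (Sum.inr j) =>
    show min (eC E (fun _ => n) j) (eS S' j) = min (eC (E ∩ S') (fun j => if j ∈ S' then n else m) j) (eS S' j)
    unfold eC eS
    by_cases h1 : j ∈ S'
    · by_cases h2 : j ∈ E <;> simp [h1, h2]
    · simp [h1]

/-! ## worlds -/

variable {tb} in
theorem exists_supp (z : Om W X β) : ∃ z' : Om W X β, tb.Ps.p z' ≠ 0 ∧ z'.1 = z.1 ∧ z'.2.2 = z.2.2 := by
  have h1 : ∀ i, ∃ ω, (tb.Q i).p ω ≠ 0 := by
    intro i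
    by_contra hcon
    push Not at hcon
    have h2 := (tb.Q i).tot
    rw [Finset.sum_eq_zero fun ω _ => hcon ω] at h2
    exact zero_ne_one h2
  choose ω hω using h1
  refine ⟨(z.1, ω, z.2.2), ?_, rfl, rfl⟩
  have h4 : (Fintype.card X : ℝ) ≠ 0 := by exact_mod_cast Fintype.card_ne_zero
  have h5 : (Fintype.card β : ℝ) ≠ 0 := by exact_mod_cast Fintype.card_ne_zero
  exact div_ne_zero (Finset.prod_ne_zero_iff.2 fun i _ => hω i) (mul_ne_zero h4 (pow_ne_zero _ h5))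

/-- the world law: the event has positive mass at every `z` -/
theorem Wl_ne (n : ℕ) (z : Om W X β) : tb.Ps.Pr (fun w => cll D n w = cll D n z) ≠ 0 := by
  obtain ⟨z', h1, h2, h3⟩ := exists_supp (tb := tb) z
  have h4 : cll D n z' = cll D n z := cll_eq.2 ⟨h2, fun j => by rw [h3]⟩
  have h5 := tb.Ps.m_pos (cll D n) h1
  have h6 : tb.Ps.Pr (fun w => cll D n w = cll D n z) = tb.Ps.m (cll D n) z' := by
    unfold FP.Pr FP.m
    rw [h4]
  rw [h6]
  exact h5.ne'

/-- support of the world law -/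
theorem Wl_supp {n : ℕ} {z w : Om W X β} : (tb.Wl n z).p w ≠ 0 ↔ tb.Ps.p w ≠ 0 ∧ cll D n w = cll D n z := by
  unfold Tab.Wl
  rw [FP.cond_p_ne (Wl_ne tb n z)]
  exact and_comm

/-- means in a world -/
theorem Wl_E (n : ℕ) (z : Om W X β) (f : Om W X β → ℝ) : (tb.Wl n z).E f = tb.Ps.ce (cll D n) f z := by
  unfold Tab.Wl
  rw [FP.cond_E (Wl_ne tb n z)]
  rfl

theorem cll_sgt (n : ℕ) {v w : Om W X β} : cll D n v = cll D n w ↔ sgt D ∅ n v = sgt D ∅ n w := by
  rw [cll_eq, sgt_eq]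
  simp only [notMem_empty, false_implies, implies_true, true_and]

/-- **complementary coordinates are independent in a world** -/
theorem Wl_indep (n : ℕ) (z : Om W X β) (S S' : Finset (Fin 3)) :
    (tb.Wl n z).Indep (fun w => (w.1, crd S S' w)) (fun w => (w.1, crd Sᶜ S'ᶜ w)) := by
  intro f g hf hg
  obtain ⟨z', h1, h2, h3⟩ := exists_supp (tb := tb) z
  have h4 : cll D n z = cll D n z' := cll_eq.2 ⟨h2.symm, fun j => by rw [h3]⟩
  have e : ∀ k : Om W X β → ℝ, (tb.Wl n z).E k = tb.Ps.ce (sgt D ∅ n) k z' := fun k => by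
    rw [Wl_E, tb.Ps.ce_fac (cll D n) k z z' h4]
    exact tb.Ps.ce_congr_map (fun _ _ hh => (cll_sgt n).1 hh) (fun _ _ hh => (cll_sgt n).2 hh) k z'
  rw [e, e, e]
  refine sgt_indep tb ∅ n S S' (fun v w hvw => hf v w ?_) (fun v w hvw => hg v w ?_) h1
  · have h5 : sgt D ∅ n v = sgt D ∅ n w ∧ crd S S' v = crd S S' w := Prod.mk.injEq _ _ _ _ ▸ hvw
    exact Prod.ext (sgt_eq.1 h5.1).1 h5.2
  · have h5 : sgt D ∅ n v = sgt D ∅ n w ∧ crd Sᶜ S'ᶜ v = crd Sᶜ S'ᶜ w := Prod.mk.injEq _ _ _ _ ▸ hvw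
    exact Prod.ext (sgt_eq.1 h5.1).1 h5.2

end

end Pool.Agent.GMH.Dy
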