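import Pool.Agent.GMH.TopStep

/-!
# GMH/TopAl: alive points at the substates of the top level (helper91)

The states `5t+2, 5t+3, 5t+4` contain new codes: `Ar (2t+1)` does not bound the surprisals there, `Ar (2t+2)` does.
* `ssQ`, `spQ`, `AQ p q` : surprisals of the letters and pairs at the state `q`; `AQ_0`, `AQ_1` (from `Ar (2t)`, `Ar (2t+1)`),
  `AQ_of` (from `Ar (2t+2)`, states `5t+2 .. 5t+5`);
* `top_name` : given what the top sees, the top is the label of the data; `Zb_thick`, `Z_thick` : thickness;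
* `loss6` : the loss of a step is at most `6 Lam`;
* `aT s t` = `aS s t` and `AQ (qs s t)`; `aT_fac`; `step_sumT`, `sum_killT`, `sum_stepT` : the sum over all times of the codes and
  the digits is at most the six steps on `aT` and `18 Lam P(dead)`.
-/

set_option autoImplicit false
set_option linter.unusedSectionVars false

namespace Pool.Agent.GMH.TP

open Finset Pool.Agent.PWZ Pool.Agent.M3 Pool.Agent.GM Pool.Agent.GM.Harm Pool.Agent.GMH Pool.Agent.GMH.NZ
open Pool.Agent.GMH.V3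

noncomputable section

/-! ### surprisals -/

section gen

variable {Om : Type*} [Fintype Om] (P : FP Om) {κ κ' ι : Type*}

/-- a finer letter has a larger surprisal -/
theorem sp_coarse {X : Om → κ} {X' : Om → κ'} (Z : Om → ι) {w : Om} (hw : P.p w ≠ 0)
    (h : ∀ u, P.p u ≠ 0 → X' u = X' w → Z u = Z w → X u = X w) : sp P X Z w ≤ sp P X' Z w := by
  unfold sp
  have h1 : P.m (fun u => (X' u, Z u)) w ≤ P.m (fun u => (X u, Z u)) w := by
    unfold FP.m
    refine P.E_mono fun u hu => ?_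
    refine ind_mono fun hh => ?_
    simp only [Prod.mk.injEq] at hh ⊢
    exact ⟨h u hu hh.1 hh.2, hh.2⟩
  have h2 := Real.log_le_log (P.m_pos (fun v => (X' v, Z v)) hw) h1
  linarith

end gen

section hd

variable {X β γ φ υ : Type} [Fintype X] [Fintype β] [Fintype φ] [Nonempty X] [Nonempty β]
variable {D : HD (Fin 3) X β γ φ} {al : ℝ} (h : D.Thick al) (v : ℕ → Finset (Fin 3) → X → (Fin 3 → β) → υ)

/-- surprisal of the letter of `i` at the state `q` -/
def ssQ (q : ℕ) (i : Fin 3) (w : Pt (Fin 3) X β φ) : ℝ :=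
  sp (D.P h (q / 5)) (XLq v q i) (fun u => (u.2.1 i, NPq D v q u)) w

/-- surprisal of the pair of letters of `i`, `k` at the state `q` -/
def spQ (q : ℕ) (i k : Fin 3) (w : Pt (Fin 3) X β φ) : ℝ :=
  sp (D.P h (q / 5)) (fun u => (XLq v q i u, XLq v q k u)) (fun u => (u.2.1 i, u.2.1 k, NPq D v q u)) w

/-- alive at the state `q` -/
def AQ (p : AP) (q : ℕ) (w : Pt (Fin 3) X β φ) : Prop :=
  (∀ i, ssQ h v q i w ≤ p.X0) ∧ ∀ i k, i ≠ k → spQ h v q i k w ≤ p.X1

variable {v}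

theorem ZQ_XLq (q : ℕ) (i : Fin 3) : Fac (ZQ (φ := φ) D v q) (XLq v q i) := by
  intro a b hab
  unfold ZQ WW at hab
  unfold XLq XL
  simp only [Prod.mk.injEq] at hab ⊢
  have h1 := congrFun hab.1 ⟨{i}, by unfold pth; simp⟩
  have h2 : LL (φ := φ) (Um v (nc q {i})) {i} a = LL (Um v (nc q {i})) {i} b := h1
  exact ⟨congrFun hab.2.1 i, (LL_eq.1 h2).1⟩

theorem AQ_fac (p : AP) (q : ℕ) : Fac (ZQ (φ := φ) D v q) (AQ h v p q) := by
  intro a b hab
  have hn := ZQ_NPq (φ := φ) (D := D) (v := v) q a b hab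
  have hx := fun i => ZQ_XLq (φ := φ) (D := D) (v := v) q i a b hab
  have hy : ∀ i, a.2.1 i = b.2.1 i := fun i => congrArg Prod.fst (hx i)
  have e1 : ∀ i, ssQ h v q i a = ssQ h v q i b := fun i =>
    sp_fac _ _ _ a b (Prod.ext (hx i) (Prod.ext (hy i) hn))
  have e2 : ∀ i k, spQ h v q i k a = spQ h v q i k b := fun i k =>
    sp_fac _ _ _ a b (Prod.ext (Prod.ext (hx i) (hx k)) (Prod.ext (hy i) (Prod.ext (hy k) hn)))
  show (_ ∧ _) = (_ ∧ _)
  simp only [e1, e2]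

/-- functions of the points only have the same masses at all times -/
theorem m_xy {κ : Type*} {f : Pt (Fin 3) X β φ → κ} (hf : XY f) (s t : ℕ) (w : Pt (Fin 3) X β φ) :
    (D.P h s).m f w = (D.P h t).m f w := by
  unfold FP.m
  refine E_xy h (fun x y F F' => ?_) s t
  show ind (f (x, y, F) = f w) = ind (f (x, y, F') = f w)
  rw [hf x y F F']

theorem sp_xy {κ ι : Type*} {f : Pt (Fin 3) X β φ → κ} {g : Pt (Fin 3) X β φ → ι} (hf : XY f) (hg : XY g) (s t : ℕ)
    (w : Pt (Fin 3) X β φ) : sp (D.P h s) f g w = sp (D.P h t) f g w := by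
  unfold sp
  rw [m_xy h hg s t, m_xy h (f := fun v => (f v, g v)) (fun x y F F' => by
    show (f (x, y, F), g (x, y, F)) = (f (x, y, F'), g (x, y, F'))
    rw [hf x y F F', hg x y F F']) s t]

omit [Nonempty X] [Nonempty β] in
theorem xy_XLq (q : ℕ) (i : Fin 3) : XY (XLq (φ := φ) v q i) := fun _ _ _ _ => rfl

omit [Nonempty X] [Nonempty β] in
theorem xy_NPq (q : ℕ) : XY (NPq (φ := φ) D v q) := fun _ _ _ _ => rfl

theorem AQ_xy (p : AP) (q : ℕ) : XY (AQ h v p q) := by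
  intro x y F F'
  have e1 : ∀ i, ssQ h v q i (x, y, F) = ssQ h v q i (x, y, F') := fun i => sp_fac _ _ _ _ _ rfl
  have e2 : ∀ i k, spQ h v q i k (x, y, F) = spQ h v q i k (x, y, F') := fun i k => sp_fac _ _ _ _ _ rfl
  show (_ ∧ _) = (_ ∧ _)
  simp only [e1, e2]

theorem ss_0 (t : ℕ) (i : Fin 3) (w : Pt (Fin 3) X β φ) : ssQ h v (5 * t) i w = sps h v (2 * t) i w := by
  have e1 : 5 * t / 5 = t := by omega
  have hn : nc (5 * t) ∅ = t + 1 := by
    have h1 := nc_add t 0 (J := ∅) (by unfold pth; simp) (by omega)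
    rw [add_zero] at h1
    rw [h1]
    unfold ncj
    rw [if_neg (Nat.not_lt_zero _), add_zero]
  have hi : nc (5 * t) {i} = t + 1 := by
    have h1 := nc_add t 0 (J := {i}) (by unfold pth; simp) (by omega)
    rw [add_zero] at h1
    rw [h1]
    unfold ncj
    rw [if_neg (Nat.not_lt_zero _), add_zero]
  unfold ssQ sps XLq NPq
  rw [e1, hn, hi, nn_0]
  have f1 : ∀ u : Pt (Fin 3) X β φ, NPr v D (2 * t) u = NP D v (t + 1) t u := fun u => by rw [NPr_even]
  have f2 : XLr (φ := φ) v (2 * t) i = XL v (t + 1) i := XLr_even t i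
  rw [f2, Pr_even]
  simp only [f1]

theorem sp_0 (t : ℕ) (i k : Fin 3) (w : Pt (Fin 3) X β φ) : spQ h v (5 * t) i k w = spp h v (2 * t) i k w := by
  have e1 : 5 * t / 5 = t := by omega
  have hn : nc (5 * t) ∅ = t + 1 := by
    have h1 := nc_add t 0 (J := ∅) (by unfold pth; simp) (by omega)
    rw [add_zero] at h1
    rw [h1]
    unfold ncj
    rw [if_neg (Nat.not_lt_zero _), add_zero]
  have hi : ∀ i : Fin 3, nc (5 * t) {i} = t + 1 := fun i => by
    have h1 := nc_add t 0 (J := {i}) (by unfold pth; simp) (by omega)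
    rw [add_zero] at h1
    rw [h1]
    unfold ncj
    rw [if_neg (Nat.not_lt_zero _), add_zero]
  unfold spQ spp XLq NPq
  rw [e1, hn, hi, hi, nn_0]
  have f1 : ∀ u : Pt (Fin 3) X β φ, NPr v D (2 * t) u = NP D v (t + 1) t u := fun u => by rw [NPr_even]
  have f2 : ∀ i, XLr (φ := φ) v (2 * t) i = XL v (t + 1) i := fun i => XLr_even t i
  rw [f2, f2, Pr_even]
  simp only [f1]

theorem nc_1 (t : ℕ) {J : Finset (Fin 3)} (hJ : pth J) : nc (5 * t + 1) J = t + 1 := by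
  rw [nc_add t 1 hJ (by omega)]
  unfold ncj
  have key : ∀ J : Finset (Fin 3), ¬ rk J < 1 := by decide
  rw [if_neg (key J), add_zero]

theorem pth_sing (i : Fin 3) : pth ({i} : Finset (Fin 3)) := by unfold pth; simp

theorem pth_emp : pth (∅ : Finset (Fin 3)) := by unfold pth; simp

theorem ss_1 (t : ℕ) (i : Fin 3) (w : Pt (Fin 3) X β φ) : ssQ h v (5 * t + 1) i w = sps h v (2 * t + 1) i w := by
  have e1 : (5 * t + 1) / 5 = t := by omega
  unfold ssQ sps XLq NPq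
  rw [e1, nc_1 t pth_emp, nc_1 t (pth_sing i), nn_1]
  have f1 : ∀ u : Pt (Fin 3) X β φ, NPr v D (2 * t + 1) u = NP D v (t + 1) (t + 1) u := fun u => by rw [NPr_odd]
  have f2 : XLr (φ := φ) v (2 * t + 1) i = XL v (t + 1) i := XLr_odd t i
  rw [f2, Pr_odd]
  simp only [f1]

theorem sp_1 (t : ℕ) (i k : Fin 3) (w : Pt (Fin 3) X β φ) : spQ h v (5 * t + 1) i k w = spp h v (2 * t + 1) i k w := by
  have e1 : (5 * t + 1) / 5 = t := by omega
  unfold spQ spp XLq NPq
  rw [e1, nc_1 t pth_emp, nc_1 t (pth_sing i), nc_1 t (pth_sing k), nn_1]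
  have f1 : ∀ u : Pt (Fin 3) X β φ, NPr v D (2 * t + 1) u = NP D v (t + 1) (t + 1) u := fun u => by rw [NPr_odd]
  have f2 : ∀ i, XLr (φ := φ) v (2 * t + 1) i = XL v (t + 1) i := fun i => XLr_odd t i
  rw [f2, f2, Pr_odd]
  simp only [f1]

/-- alive at the half step `2t` = alive at the state `5t` -/
theorem AQ_0 (p : AP) {t : ℕ} {w : Pt (Fin 3) X β φ} (hA : Ar h v p (2 * t) w) : AQ h v p (5 * t) w :=
  ⟨fun i => by rw [ss_0]; exact hA.2.1 i _ le_rfl, fun i k hik => by rw [sp_0]; exact hA.2.2.1 _ le_rfl i k hik⟩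

/-- alive at the half step `2t+1` = alive at the state `5t+1` -/
theorem AQ_1 (p : AP) {t : ℕ} {w : Pt (Fin 3) X β φ} (hA : Ar h v p (2 * t + 1) w) : AQ h v p (5 * t + 1) w :=
  ⟨fun i => by rw [ss_1]; exact hA.2.1 i _ le_rfl, fun i k hik => by rw [sp_1]; exact hA.2.2.1 _ le_rfl i k hik⟩

theorem nc_emp (t : ℕ) {j : ℕ} (h2 : 2 ≤ j) (h5 : j ≤ 5) : nc (5 * t + j) ∅ = t + 2 := by
  rw [nc_add t j pth_emp h5]
  unfold ncj
  have key : rk ∅ = 1 := by decide
  rw [key, if_pos (by omega)]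

theorem nc_le2 (t : ℕ) {j : ℕ} (h5 : j ≤ 5) {J : Finset (Fin 3)} (hJ : pth J) : nc (5 * t + j) J ≤ t + 2 := by
  rw [nc_add t j hJ h5]
  unfold ncj
  split_ifs <;> omega

theorem nn_j (t : ℕ) {j : ℕ} (h1 : 1 ≤ j) (h5 : j ≤ 5) : nn (5 * t + j) = t + 1 := by
  rw [nn_add t j h5]
  unfold nnj
  rw [if_neg (by omega)]

/-- alive at the half step `2t+2` : alive at the states `5t+2, .., 5t+4` -/
theorem AQ_of (p : AP) {t j : ℕ} (h2 : 2 ≤ j) (h4 : j ≤ 4) {w : Pt (Fin 3) X β φ} (hw : (D.P h t).p w ≠ 0)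
    (hA : Ar h v p (2 * (t + 1)) w) : AQ h v p (5 * t + j) w := by
  have e1 : (5 * t + j) / 5 = t := by omega
  have f1 : ∀ u : Pt (Fin 3) X β φ, NPr v D (2 * (t + 1)) u = NP D v (t + 2) (t + 1) u := fun u => by rw [NPr_even]
  have f2 : ∀ i, XLr (φ := φ) v (2 * (t + 1)) i = XL v (t + 2) i := fun i => XLr_even (t + 1) i
  have n1 : NPq (φ := φ) D v (5 * t + j) = NP D v (t + 2) (t + 1) := by
    funext u
    unfold NPq
    rw [nc_emp t h2 (by omega), nn_j t (by omega) (by omega)]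
  have c1 : ∀ (i : Fin 3) (a b : Pt (Fin 3) X β φ), XL v (t + 2) i a = XL v (t + 2) i b →
      XLq v (5 * t + j) i a = XLq v (5 * t + j) i b := by
    intro i a b hab
    have g1 : a.2.1 i = b.2.1 i := congrArg Prod.fst hab
    have g2 : Um v (t + 2) {i} a.1 a.2.1 = Um v (t + 2) {i} b.1 b.2.1 := congrArg Prod.snd hab
    exact Prod.ext g1 (Um_older (nc_le2 t (by omega) (pth_sing i)) g2)
  constructor
  · intro i
    have h1 := hA.2.1 i _ le_rfl
    unfold sps at h1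
    rw [f2, Pr_even] at h1
    simp only [f1] at h1
    refine le_trans ?_ h1
    unfold ssQ
    rw [e1, n1]
    have e3 : sp (D.P h (t + 1)) (XL v (t + 2) i) (fun u => (u.2.1 i, NP D v (t + 2) (t + 1) u)) w =
        sp (D.P h t) (XL v (t + 2) i) (fun u => (u.2.1 i, NP D v (t + 2) (t + 1) u)) w :=
      sp_xy h (fun _ _ _ _ => rfl) (fun _ _ _ _ => rfl) (t + 1) t w
    rw [e3]
    exact sp_coarse (D.P h t) _ hw fun u _ hu _ => c1 i u w hu
  · intro i k hik
    have h1 := hA.2.2.1 _ le_rfl i k hik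
    unfold spp at h1
    rw [f2, f2, Pr_even] at h1
    simp only [f1] at h1
    refine le_trans ?_ h1
    unfold spQ
    rw [e1, n1]
    have e3 : sp (D.P h (t + 1)) (fun u => (XL v (t + 2) i u, XL v (t + 2) k u))
          (fun u => (u.2.1 i, u.2.1 k, NP D v (t + 2) (t + 1) u)) w =
        sp (D.P h t) (fun u => (XL v (t + 2) i u, XL v (t + 2) k u))
          (fun u => (u.2.1 i, u.2.1 k, NP D v (t + 2) (t + 1) u)) w :=
      sp_xy h (fun _ _ _ _ => rfl) (fun _ _ _ _ => rfl) (t + 1) t w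
    rw [e3]
    refine sp_coarse (D.P h t) _ hw fun u _ hu _ => ?_
    exact Prod.ext (c1 i u w (congrArg Prod.fst hu)) (c1 k u w (congrArg Prod.snd hu))

omit [Nonempty X] [Nonempty β] in
theorem SL_xy (q : ℕ) {J : Finset (Fin 3)} (hJ : pth J) : XY (SL (φ := φ) v q J) := by
  intro x y F F'
  unfold SL
  rw [LL_eq]
  refine ⟨rfl, fun l hl => ?_⟩
  exfalso
  have key : ∀ l : Fin 3, ¬ (univ.erase l).card ≤ 1 := by decide
  unfold pth at hJ
  rw [← hl] at hJ
  exact key l hJ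

omit [Nonempty X] [Nonempty β] in
theorem ZQ_xy (q : ℕ) : XY (ZQ (φ := φ) D v q) := by
  intro x y F F'
  unfold ZQ
  refine Prod.ext (funext fun J => SL_xy q J.2 x y F F') rfl

theorem ZbQ_xy (q : ℕ) (i : Fin 3) : XY (ZbQ (φ := φ) D v q i) := fun x y F F' =>
  ZQ_Zb q i _ _ (ZQ_xy q x y F F')

omit [Nonempty X] [Nonempty β] in
/-- the node and the points other than `i` -/
theorem Zb_pts {q : ℕ} {i : Fin 3} {a b : Pt (Fin 3) X β φ} (hab : ZbQ D v q i a = ZbQ D v q i b) :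
    (∀ j, j ≠ i → a.2.1 j = b.2.1 j) ∧ D.qa (nn q) a.1 = D.qa (nn q) b.1 ∧
      ∀ j, D.qb (nn q) (a.2.1 j) = D.qb (nn q) (b.2.1 j) := by
  unfold ZbQ at hab
  simp only [Prod.mk.injEq] at hab
  have h1 := BB_eq.1 hab.2
  exact ⟨fun j hj => h1.1 j (Finset.mem_erase.2 ⟨hj, mem_univ j⟩), h1.2.1, h1.2.2⟩

end hd

/-! ### thickness of the tops -/

section run

variable {X β γ φ : Type} [Fintype X] [Fintype β] [Fintype φ] [Nonempty X] [Nonempty β]
variable {D : HD (Fin 3) X β γ φ} {al : ℝ} {h : D.Thick al} {N : Finset (Fin 3) → ℝ} {S : Finset (Finset (Fin 3))}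
  {v : ℕ → Finset (Fin 3) → X → (Fin 3 → β) → Pt (Fin 3) X β φ} {dg : ℕ → X → ℝ} {prr : ℕ → Fin 3 → φ → φ} {T : ℕ}
  {Lam : ℝ}

/-- **given what the top sees, the top is the label of the data** -/
theorem top_name (H : D.Hyp dg prr al T Lam) (R : Run h N S (AdmDep D) v) (hS : ∀ l, univ.erase l ∈ S) (hu : univ ∉ S)
    (hN : ∀ l, 0 < N (univ.erase l)) {t q : ℕ} (ht : t ≤ T) (hq : 5 * t ≤ q) {i : Fin 3} {a b : Pt (Fin 3) X β φ}
    (ha : (D.P h t).p a ≠ 0) (hb : (D.P h t).p b ≠ 0) (hab : ZbQ D v q i a = ZbQ D v q i b) :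
    FQ v t i a = FQ v t i b ↔ a.2.2 i = b.2.2 i := by
  have h0 := ZbQ_mono hq i a b hab
  rw [ZbQ_0] at h0
  exact R.top_LL H (hS i) hu (hN i) ht ha hb h0

/-- labels in a set of vertices are thick given functions of the points which see the node -/
theorem labels_thick (h : D.Thick al) (A : Finset (Fin 3)) {t s : ℕ} (hts : t ≤ s) {κ : Type*}
    {Z : Pt (Fin 3) X β φ → κ} (hZ1 : XY Z)
    (hZ2 : ∀ a b : Pt (Fin 3) X β φ, Z a = Z b → (∀ l ∈ A, ∀ j, j ≠ l → a.2.1 j = b.2.1 j) ∧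
      D.qa s a.1 = D.qa s b.1 ∧ ∀ j, D.qb s (a.2.1 j) = D.qb s (b.2.1 j)) {w : Pt (Fin 3) X β φ}
    (hw : (D.P h t).p w ≠ 0) :
    al ^ A.card * (D.P h t).m Z w ≤ (D.P h t).E (fun u => ind (Z u = Z w) * ind (∀ l ∈ A, u.2.2 l = w.2.2 l)) := by
  classical
  have e1 : (D.P h t).E (fun u => ind (Z u = Z w) * ind (∀ l ∈ A, u.2.2 l = w.2.2 l)) =
      (∑ x, ∑ y, ind (Z (x, y, w.2.2) = Z w) * ∏ l ∈ A, D.kf t l x y (w.2.2 l)) / Pool.Agent.GMH.nn X β (Fin 3) := by
    have h1 := E_labels h A t (fun x y => ind (Z (x, y, w.2.2) = Z w)) w.2.2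
    rw [show Pool.Agent.GMH.nn X β (Fin 3) = (Fintype.card X * (Fintype.card β : ℝ) ^ Fintype.card (Fin 3)) from rfl, ← h1]
    refine (D.P h t).E_congr fun u _ => ?_
    show ind (Z (u.1, u.2.1, u.2.2) = Z w) * _ = _
    rw [hZ1 u.1 u.2.1 u.2.2 w.2.2]
  have e2 : (D.P h t).m Z w = (∑ x, ∑ y, ind (Z (x, y, w.2.2) = Z w)) / Pool.Agent.GMH.nn X β (Fin 3) := by
    rw [← E_labels0 h t (fun x y => ind (Z (x, y, w.2.2) = Z w))]
    unfold FP.m
    refine (D.P h t).E_congr fun u _ => ?_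
    show ind (Z (u.1, u.2.1, u.2.2) = Z w) = _
    rw [hZ1 u.1 u.2.1 u.2.2 w.2.2]
  rw [e1, e2, mul_div_assoc']
  have hnn : 0 ≤ Pool.Agent.GMH.nn X β (Fin 3) := by unfold Pool.Agent.GMH.nn; positivity
  refine div_le_div_of_nonneg_right ?_ hnn
  rw [Finset.mul_sum]
  refine Finset.sum_le_sum fun x _ => ?_
  rw [Finset.mul_sum]
  refine Finset.sum_le_sum fun y _ => ?_
  by_cases hz : Z (x, y, w.2.2) = Z w
  · rw [ind_of hz, mul_one, one_mul]
    obtain ⟨h1, h2, h3⟩ := hZ2 _ _ hz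
    rw [← Finset.prod_const]
    refine Finset.prod_le_prod (fun l _ => h.pos.le) fun l hl => ?_
    have h5 : D.kf t l w.1 w.2.1 (w.2.2 l) ≠ 0 := by
      have h3 : (∏ l, D.kf t l w.1 w.2.1 (w.2.2 l)) / (Fintype.card X * (Fintype.card β : ℝ) ^ Fintype.card (Fin 3)) ≠ 0 := hw
      exact Finset.prod_ne_zero_iff.1 (div_ne_zero_iff.1 h3).1 l (mem_univ l)
    have h6 : D.kf t l x y = D.kf t l x w.2.1 := D.dep t l x y w.2.1 (h1 l hl) (qb_mono D hts (h3 l))
    rw [h6]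
    exact h.thick t l w.1 x w.2.1 (w.2.2 l) (qa_mono D hts h2.symm) h5
  · rw [ind_not hz, mul_zero, zero_mul]

/-- thickness of one top given what it sees -/
theorem Zb_thick (H : D.Hyp dg prr al T Lam) (R : Run h N S (AdmDep D) v) (hS : ∀ l, univ.erase l ∈ S) (hu : univ ∉ S)
    (hN : ∀ l, 0 < N (univ.erase l)) {t q : ℕ} (ht : t ≤ T) (hq : 5 * t ≤ q) (i : Fin 3) {w : Pt (Fin 3) X β φ}
    (hw : (D.P h t).p w ≠ 0) :
    al * (D.P h t).m (ZbQ D v q i) w ≤ (D.P h t).m (fun u => (FQ v t i u, ZbQ D v q i u)) w := by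
  have hn : t ≤ nn q := by
    have := nn_mono hq
    rwa [nn_0] at this
  have h1 := labels_thick h {i} hn (Z := ZbQ D v q i) (ZbQ_xy q i) (fun a b hab => by
    obtain ⟨g1, g2, g3⟩ := Zb_pts hab
    exact ⟨fun l hl j hj => g1 j (by rw [← Finset.mem_singleton.1 hl]; exact hj), g2, g3⟩) hw
  rw [Finset.card_singleton, pow_one] at h1
  refine h1.trans (le_of_eq ?_)
  unfold FP.m
  refine (D.P h t).E_congr fun u hu' => ?_
  rw [← ind_and]
  refine ind_cg ?_
  simp only [Finset.mem_singleton, forall_eq, Prod.mk.injEq]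
  constructor
  · rintro ⟨g1, g2⟩
    exact ⟨(top_name H R hS hu hN ht hq hu' hw g1).2 g2, g1⟩
  · rintro ⟨g1, g2⟩
    exact ⟨g2, (top_name H R hS hu hN ht hq hu' hw g2).1 g1⟩

theorem sp_Zb_le (H : D.Hyp dg prr al T Lam) (R : Run h N S (AdmDep D) v) (hS : ∀ l, univ.erase l ∈ S) (hu : univ ∉ S)
    (hN : ∀ l, 0 < N (univ.erase l)) {t q : ℕ} (ht : t ≤ T) (hq : 5 * t ≤ q) (i : Fin 3) {w : Pt (Fin 3) X β φ}
    (hw : (D.P h t).p w ≠ 0) : sp (D.P h t) (FQ v t i) (ZbQ D v q i) w ≤ Real.log (1 / al) := by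
  unfold sp
  have h3 := Zb_thick H R hS hu hN ht hq i hw
  have h4 := (D.P h t).m_pos (ZbQ D v q i) hw
  have h5 := mul_pos h.pos h4
  have h6 := Real.log_le_log h5 h3
  rw [Real.log_mul h.pos.ne' h4.ne'] at h6
  rw [one_div, Real.log_inv]
  linarith

/-- thickness of the three tops given all thin labels -/
theorem sp_Z_le (H : D.Hyp dg prr al T Lam) (R : Run h N S (AdmDep D) v) (hS : ∀ l, univ.erase l ∈ S) (hu : univ ∉ S)
    (hN : ∀ l, 0 < N (univ.erase l)) {t q : ℕ} (ht : t ≤ T) (hq : 5 * t ≤ q) {w : Pt (Fin 3) X β φ}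
    (hw : (D.P h t).p w ≠ 0) : sp (D.P h t) (tup (FQ v t)) (ZQ D v q) w ≤ 3 * Real.log (1 / al) := by
  have hn : t ≤ nn q := by
    have := nn_mono hq
    rwa [nn_0] at this
  have h1 := labels_thick h univ hn (Z := ZQ D v q) (ZQ_xy q) (fun a b hab => by
    have g1 : WW D (nn q) a = WW D (nn q) b := congrArg Prod.snd hab
    have g2 := WW_eq.1 g1
    exact ⟨fun l _ j _ => by rw [g2.1], g2.2, fun j => by rw [g2.1]⟩) hw
  have h2 : (D.P h t).E (fun u => ind (ZQ D v q u = ZQ D v q w) * ind (∀ l ∈ univ, u.2.2 l = w.2.2 l)) ≤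
      (D.P h t).m (fun u => (tup (FQ v t) u, ZQ D v q u)) w := by
    unfold FP.m
    refine (D.P h t).E_mono fun u hu' => ?_
    rw [← ind_and]
    refine ind_mono fun hh => ?_
    simp only [Prod.mk.injEq]
    refine ⟨funext fun i => ?_, hh.1⟩
    exact (top_name H R hS hu hN ht hq hu' hw (ZQ_Zb q i _ _ hh.1)).2 (hh.2 i (mem_univ i))
  have h3 := h1.trans h2
  have hc : (univ : Finset (Fin 3)).card = 3 := rfl
  rw [hc] at h3
  unfold sp
  have h4 := (D.P h t).m_pos (ZQ D v q) hw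
  have h5 := mul_pos (pow_pos h.pos 3) h4
  have h6 := Real.log_le_log h5 h3
  rw [Real.log_mul (pow_pos h.pos 3).ne' h4.ne', Real.log_pow] at h6
  rw [one_div, Real.log_inv]
  push_cast at h6
  linarith

/-- **the loss of a step is at most `6 log (1/al)`** -/
theorem loss6 (H : D.Hyp dg prr al T Lam) (R : Run h N S (AdmDep D) v) (hS : ∀ l, univ.erase l ∈ S) (hu : univ ∉ S)
    (hN : ∀ l, 0 < N (univ.erase l)) {t q q' : ℕ} (ht : t ≤ T) (hq : 5 * t ≤ q) (hq' : q ≤ q') {w : Pt (Fin 3) X β φ}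
    (hw : (D.P h t).p w ≠ 0) : lsQ v h t q q' w ≤ 6 * Real.log (1 / al) := by
  rw [lsQ_eq h hq' hw]
  unfold iQ
  have h1 := Finset.sum_le_sum fun i (_ : i ∈ (univ : Finset (Fin 3))) => sp_Zb_le H R hS hu hN ht hq i hw
  have h2 := sp_Z_le H R hS hu hN ht (hq.trans hq') hw
  have h3 := sp_nonneg (D.P h t) (tup (FQ v t)) (ZQ D v q) hw
  have h4 := Finset.sum_nonneg fun i (_ : i ∈ (univ : Finset (Fin 3))) =>
    sp_nonneg (D.P h t) (FQ v t i) (ZbQ D v q' i) hw
  rw [Finset.sum_const, Finset.card_univ, nsmul_eq_mul] at h1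
  have hc : ((Fintype.card (Fin 3) : ℕ) : ℝ) = 3 := by simp
  rw [hc] at h1
  linarith

/-- the alive points of the step, alive at the state before the step -/
def aT (h : D.Thick al) (v : ℕ → Finset (Fin 3) → X → (Fin 3 → β) → Pt (Fin 3) X β φ) (p : AP)
    (Gd : ℕ → Pt (Fin 3) X β φ → Prop) (s : Fin 6) (t : ℕ) (w : Pt (Fin 3) X β φ) : Prop :=
  aS h v p Gd s t w ∧ AQ h v p (qs s t) w

/-- the alive set of the step is seen after the step -/
theorem aT_fac (p : AP) {Gd : ℕ → Pt (Fin 3) X β φ → Prop} {t : ℕ} (fG : Fac (ZT D v (t + 1) t) (Gd t)) (s : Fin 6) :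
    Fac (fun w : Pt (Fin 3) X β φ => (ZQ D v (qe s t) w, ZQ D v (qs s t) w)) (aT h v p Gd s t) := by
  intro a b hab
  have e1 := aS_fac h p fG s a b hab
  have e2 := AQ_fac h p (qs s t) a b (congrArg Prod.snd hab)
  show (_ ∧ _) = (_ ∧ _)
  rw [e1, e2]

theorem aT_small (p : AP) {Gd : ℕ → Pt (Fin 3) X β φ → Prop} {t : ℕ} {s : Fin 6} (hs : s.1 ≤ 2) {w : Pt (Fin 3) X β φ}
    (hw : aS h v p Gd s t w) : aT h v p Gd s t w := by
  refine ⟨hw, ?_⟩
  fin_cases s
  · exact AQ_0 h p hw.1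
  · exact AQ_1 h p hw.1
  · exact AQ_1 h p hw.1
  all_goals exact absurd hs (by decide)

theorem aT_kill (p : AP) {Gd : ℕ → Pt (Fin 3) X β φ → Prop} {t : ℕ} {s : Fin 6} {w : Pt (Fin 3) X β φ}
    (hp : (D.P h t).p w ≠ 0) (hw : aS h v p Gd s t w) (hn : ¬ aT h v p Gd s t w) :
    Ar h v p (2 * t + 1) w ∧ ¬ Ar h v p (2 * (t + 1)) w := by
  have h3 : 3 ≤ s.1 := by
    by_contra hh
    exact hn (aT_small p (by omega) hw)
  have hA : ∀ {j : ℕ}, 2 ≤ j → j ≤ 4 → qs s t = 5 * t + j → ¬ Ar h v p (2 * (t + 1)) w := fun h2 h4 hq hA =>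
    hn ⟨hw, by rw [hq]; exact AQ_of h p h2 h4 hp hA⟩
  fin_cases s
  · exact absurd h3 (by decide)
  · exact absurd h3 (by decide)
  · exact absurd h3 (by decide)
  · exact ⟨hw.1, hA (j := 2) le_rfl (by omega) rfl⟩
  · exact ⟨hw.1, hA (j := 3) (by omega) (by omega) rfl⟩
  · exact ⟨hw.1, hA (j := 4) (by omega) le_rfl rfl⟩

theorem qs_ge (s : Fin 6) (t : ℕ) : 5 * t ≤ qs s t := by
  fin_cases s <;> simp [qs]

/-- **ONE TIME** : the six steps on the alive points of the states -/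
theorem step_sumT (H : D.Hyp dg prr al T Lam) (R : Run h N S (AdmDep D) v) (hS : ∀ l, univ.erase l ∈ S) (hu : univ ∉ S)
    (hN : ∀ l, 0 < N (univ.erase l)) {t : ℕ} (ht : t < T) (p : AP) (Gd : ℕ → Pt (Fin 3) X β φ → Prop) :
    V3.LT h v t (Ar h v p (2 * t + 1)) + DT h v dg t (fun w => Ar h v p (2 * t) w ∧ ¬ Gd t w) ≤
      ∑ s, (D.P h t).E (fun w => ind (aT h v p Gd s t w) * lossS h v s t w) +
        18 * Real.log (1 / al) * (D.P h (t + 1)).Pr (fun w => Ar h v p (2 * t + 1) w ∧ ¬ Ar h v p (2 * (t + 1)) w) := by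
  rw [step_sum h H R.codes ht p Gd]
  have hal1 : 0 ≤ Real.log (1 / al) := by
    obtain ⟨w, hw⟩ := (D.P h t).exists_p_ne
    have h1 := sp_Zb_le H R hS hu hN ht.le (le_refl (5 * t)) 0 hw
    exact (sp_nonneg (D.P h t) (FQ v t 0) (ZbQ D v (5 * t) 0) hw).trans h1
  have hk : (D.P h t).Pr (fun w => Ar h v p (2 * t + 1) w ∧ ¬ Ar h v p (2 * (t + 1)) w) =
      (D.P h (t + 1)).Pr (fun w => Ar h v p (2 * t + 1) w ∧ ¬ Ar h v p (2 * (t + 1)) w) := by
    refine Pr_xy h (fun x y F F' => ?_) t (t + 1)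
    show (_ ∧ ¬ _) = (_ ∧ ¬ _)
    rw [propext (Ar_lab h p (2 * t + 1) x y F F'), propext (Ar_lab h p (2 * (t + 1)) x y F F')]
  have one : ∀ s : Fin 6, (D.P h t).E (fun w => ind (aS h v p Gd s t w) * lossS h v s t w) ≤
      (D.P h t).E (fun w => ind (aT h v p Gd s t w) * lossS h v s t w) + (if s.1 ≤ 2 then 0 else
        6 * Real.log (1 / al) * (D.P h t).Pr (fun w => Ar h v p (2 * t + 1) w ∧ ¬ Ar h v p (2 * (t + 1)) w)) := by
    intro s
    by_cases hs : s.1 ≤ 2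
    · rw [if_pos hs, add_zero]
      refine le_of_eq ((D.P h t).E_congr fun w _ => ?_)
      by_cases hw : aS h v p Gd s t w
      · rw [ind_of hw, ind_of (aT_small p hs hw)]
      · rw [ind_not hw, ind_not (fun hh => hw hh.1)]
    · rw [if_neg hs]
      unfold FP.Pr
      rw [← FP.E_smul, ← FP.E_add]
      refine (D.P h t).E_mono fun w hw => ?_
      have hl : lossS h v s t w ≤ 6 * Real.log (1 / al) := loss6 H R hS hu hN ht.le (qs_ge s t) (qs_le_qe s t) hw
      by_cases h1 : aS h v p Gd s t w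
      · by_cases h2 : aT h v p Gd s t w
        · rw [ind_of h1, ind_of h2]
          have := mul_nonneg (mul_nonneg (show (0 : ℝ) ≤ 6 by norm_num) hal1)
            (ind_nonneg (Ar h v p (2 * t + 1) w ∧ ¬ Ar h v p (2 * (t + 1)) w))
          linarith
        · rw [ind_of h1, ind_not h2, ind_of (aT_kill p hw h1 h2), one_mul, zero_mul, mul_one, zero_add]
          exact hl
      · rw [ind_not h1, ind_not (fun hh => h1 hh.1), zero_mul, zero_add]
        exact mul_nonneg (mul_nonneg (by norm_num) hal1) (ind_nonneg _)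
  refine (Finset.sum_le_sum fun s _ => one s).trans ?_
  rw [Finset.sum_add_distrib, ← hk]
  refine add_le_add le_rfl (le_of_eq ?_)
  rw [Fin.sum_univ_six]
  simp
  ring

/-- the killed points of all times -/
theorem sum_killT (H : D.Hyp dg prr al T Lam) (p : AP) :
    ∑ t ∈ range T, (D.P h (t + 1)).Pr (fun w => Ar h v p (2 * t + 1) w ∧ ¬ Ar h v p (2 * (t + 1)) w) ≤
      (D.P h T).Pr (fun w => ¬ Ar h v p (2 * T) w) := by
  have h1 := TT.killT (h := h) (T := T) H (a := Ar h v p) (fun r w hw => Ar_mono h p (Nat.le_succ r) hw)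
    (fun r x y F F' => propext (Ar_lab h p r x y F F'))
  refine le_trans (Finset.sum_le_sum fun t _ => ?_) h1
  have := (D.P h t).Pr_nonneg (fun w => Ar h v p (2 * t) w ∧ ¬ Ar h v p (2 * t + 1) w)
  linarith

/-- **ALL TIMES** : the codes and the digits are at most the six steps on the alive points -/
theorem sum_stepT (H : D.Hyp dg prr al T Lam) (R : Run h N S (AdmDep D) v) (hS : ∀ l, univ.erase l ∈ S) (hu : univ ∉ S)
    (hN : ∀ l, 0 < N (univ.erase l)) (p : AP) (Gd : ℕ → Pt (Fin 3) X β φ → Prop) :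
    ∑ t ∈ range T, (V3.LT h v t (Ar h v p (2 * t + 1)) + DT h v dg t (fun w => Ar h v p (2 * t) w ∧ ¬ Gd t w)) ≤
      ∑ t ∈ range T, ∑ s, (D.P h t).E (fun w => ind (aT h v p Gd s t w) * lossS h v s t w) +
        18 * Lam * (D.P h T).Pr (fun w => ¬ Ar h v p (2 * T) w) := by
  have hL : Real.log (1 / al) ≤ Lam := TT.log_al H h.pos
  have h1 := Finset.sum_le_sum fun t (ht : t ∈ range T) => step_sumT H R hS hu hN (Finset.mem_range.1 ht) p Gd
  refine h1.trans ?_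
  rw [Finset.sum_add_distrib, ← Finset.mul_sum]
  refine add_le_add le_rfl ?_
  have h2 := sum_killT (h := h) (v := v) H p
  have h3 : 0 ≤ ∑ t ∈ range T, (D.P h (t + 1)).Pr (fun w => Ar h v p (2 * t + 1) w ∧ ¬ Ar h v p (2 * (t + 1)) w) :=
    Finset.sum_nonneg fun t _ => FP.Pr_nonneg _ _
  have h4 := H.Lam1
  nlinarith

end run

end

end Pool.Agent.GMH.TP
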