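import Pool.Agent.GMH.CKB
import Pool.Agent.GMH.MVdef
import Pool.Agent.GMH.TabP
import Pool.Agent.GMH.TopAl

/-!
# GMH/MVI: the data `MS` of the moved part on the space with label tables (helper34)

`MSi` : law `tb.Ps`, public information `NPo`, thin letters `XLo`, tops = HISTORY `TFo` of the labels (on the support the label of
the current time), code steps `s % 5 ≠ 0`.
* `totX` : totals `60 n Lam` (`TotX`), `tot0` : `12 n Lam` (`Tot0`); `nl`, `nlx` : light values; `thks` : thick tops (`Thks`).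
-/

set_option autoImplicit false
set_option linter.unusedSectionVars false

namespace Pool.Agent.GMH.MVI

open Finset Pool.Agent.PWZ Pool.Agent.M3 Pool.Agent.GM Pool.Agent.GM.Harm Pool.Agent.GMH Pool.Agent.GMH.NZ
open Pool.Agent.GMH.V3 Pool.Agent.GMH.TP Pool.Agent.GMH.TD Pool.Agent.GMH.Dy Pool.Agent.GMH.CKB Pool.Agent.GMH.MV
open Pool.Agent.GMH.Dead (Dry E_time m_time Pr_time H_time Hc_time Thin thin_one cst_eq)

noncomputable section

/-! ### entropies: pull back, congruence on the support, families -/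

section gen

variable {Om Om' : Type*} [Fintype Om] [Fintype Om'] {P : FP Om} {P' : FP Om'} {π : Om → Om'}

theorem pul_Hc (H : Pul P P' π) {κ ι : Type*} (F : Om' → κ) (Z : Om' → ι) :
    P.Hc (fun w => F (π w)) (fun w => Z (π w)) = P'.Hc F Z := by
  rw [Hc_eq_E_log, Hc_eq_E_log, ← H.E]
  refine P.E_congr fun w _ => ?_
  have a := H.m (fun v => (F v, Z v)) w
  have b := H.m Z w
  rw [← a, ← b]

theorem Hc_congr_eq {κ ι : Type*} {F F' : Om → κ} {Z Z' : Om → ι} (hF : ∀ v, P.p v ≠ 0 → F v = F' v)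
    (hZ : ∀ v, P.p v ≠ 0 → Z v = Z' v) : P.Hc F Z = P.Hc F' Z' := by
  rw [Hc_eq_E_log, Hc_eq_E_log]
  refine P.E_congr fun w hw => ?_
  rw [m_congr_eq (P := P) (X := fun v => (F v, Z v)) (X' := fun v => (F' v, Z' v))
      (fun v hv => by rw [hF v hv, hZ v hv]) hw,
    m_congr_eq (P := P) (X := Z) (X' := Z') hZ hw]

theorem fin_eq {κ : Type*} {F : Fin 3 → Om → κ} {S : Finset (Fin 3)} {a b : Om} :
    (fun j => if j ∈ S then some (F j a) else Option.none) = (fun j => if j ∈ S then some (F j b) else Option.none) ↔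
      ∀ j ∈ S, F j a = F j b := by
  rw [funext_iff]
  constructor
  · intro hh j hj
    have := hh j
    rw [if_pos hj, if_pos hj] at this
    exact Option.some.inj this
  · intro hh j
    by_cases hj : j ∈ S
    · rw [if_pos hj, if_pos hj, hh j hj]
    · rw [if_neg hj, if_neg hj]

/-- entropies of a family -/
theorem Hc_fin_le {κ ι : Type*} {κ' : Fin 3 → Type*} (P : FP Om) (F : Fin 3 → Om → κ) {Z : Om → ι} (S : Finset (Fin 3))
    (Zj : ∀ j : Fin 3, Om → κ' j) (hZ : ∀ j ∈ S, Fac Z (Zj j)) :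
    P.Hc (fun w j => if j ∈ S then some (F j w) else Option.none) Z ≤ ∑ j ∈ S, P.Hc (F j) (Zj j) := by
  induction S using Finset.induction_on with
  | empty =>
    rw [Finset.sum_empty]
    refine (Hc_of_fac P ?_).le
    intro a b _
    exact fin_eq.2 fun j hj => absurd hj (Finset.notMem_empty j)
  | insert i S hi ih =>
    rw [Finset.sum_insert hi]
    have h1 : P.Hc (fun w j => if j ∈ insert i S then some (F j w) else Option.none) Z ≤
        P.Hc (fun w => (F i w, fun j => if j ∈ S then some (F j w) else Option.none)) Z := by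
      refine P.Hc_mono Z ?_
      intro a b hab
      have g1 := (Prod.mk.inj (Prod.mk.inj hab).1).1
      have g2 := (Prod.mk.inj (Prod.mk.inj hab).1).2
      refine fin_eq.2 fun j hj => ?_
      rcases Finset.mem_insert.1 hj with h2 | h2
      · rw [h2]; exact g1
      · exact fin_eq.1 g2 j h2
    refine (h1.trans (Hc_pair_le P (hZ i (Finset.mem_insert_self i S)) (Fac.refl Z))).trans ?_
    exact add_le_add le_rfl (ih fun j hj => hZ j (Finset.mem_insert_of_mem hj))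

end gen

variable {X β γ φ υ : Type} [Fintype X] [Fintype β] [Fintype φ] [Nonempty X] [Nonempty β]
variable {D : HD (Fin 3) X β γ φ} {al : ℝ} (h : D.Thick al) {prr : ℕ → Fin 3 → φ → φ} {T : ℕ} {W : Type} [Fintype W]
variable (tb : Tab D prr T W) (v : ℕ → Finset (Fin 3) → X → (Fin 3 → β) → υ)

/-! ### the data -/

/-- public information -/
def NPo (s : ℕ) (w : Om W X β) : List υ × (γ × (Fin 3 → γ)) := NPq D v s (tb.pt 0 w)

/-- thin letter of the vertex `i` -/
def XLo (i : Fin 3) (s : ℕ) (w : Om W X β) : β × List υ := XLq v s i (tb.pt 0 w)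

/-- history of the label `i` up to the time `s / 5` -/
def TFo (i : Fin 3) (s : ℕ) (w : Om W X β) : ℕ → Option φ := fun t =>
  if t ≤ s / 5 ∧ t ≤ T then some (tb.lab t i (w.2.1 i) w.1 w.2.2) else Option.none

variable {v}

theorem NPo_fac (s : ℕ) : Fac (NPo tb v (s + 1)) (NPo tb v s) := fun a b hab =>
  NPq_fac s (tb.pt 0 a) (tb.pt 0 b) hab

theorem XLo_fac (i : Fin 3) (s : ℕ) : Fac (XLo tb v i (s + 1)) (XLo tb v i s) := fun a b hab =>
  XLq_fac s i (tb.pt 0 a) (tb.pt 0 b) hab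

theorem TFo_fac (i : Fin 3) (s : ℕ) : Fac (TFo tb i (s + 1)) (TFo tb i s) := by
  intro a b hab
  funext t
  have h1 := congrFun hab t
  unfold TFo at h1 ⊢
  by_cases h2 : t ≤ s / 5 ∧ t ≤ T
  · have h3 : t ≤ (s + 1) / 5 ∧ t ≤ T := ⟨h2.1.trans (Nat.div_le_div_right (Nat.le_succ s)), h2.2⟩
    rw [if_pos h3, if_pos h3] at h1
    rw [if_pos h2, if_pos h2, h1]
  · rw [if_neg h2, if_neg h2]

/-- the data of the moved part -/
def MSi (d1 kb d0 k0 p1 z : ℝ) (hd1 : 0 < d1) (hd11 : d1 ≤ 1) (hkb : 0 < kb) (hd0 : 0 < d0) (hd01 : d0 ≤ 1) (hk0 : 0 < k0)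
    (hp1 : 0 < p1) (hz : 0 < z) : MS (Om W X β) where
  P := tb.Ps
  κ := List υ × (γ × (Fin 3 → γ))
  lam := β × List υ
  η := β
  ph := ℕ → Option φ
  NP := NPo tb v
  XL := XLo tb v
  YP := fun i w => w.2.2 i
  TF := TFo tb
  cd := fun s => s % 5 ≠ 0
  d1 := d1
  kb := kb
  d0 := d0
  k0 := k0
  p1 := p1
  z := z
  hN := NPo_fac tb
  hX := XLo_fac tb
  hXY := fun i s a b hab => congrArg Prod.fst hab
  hT := TFo_fac tb
  hd1 := hd1
  hd11 := hd11
  hkb := hkb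
  hd0 := hd0
  hd01 := hd01
  hk0 := hk0
  hp1 := hp1
  hz := hz

/-! ### labels -/

/-- the history of the labels on the support -/
theorem lab_old {t : ℕ} (ht : t < T) (i : Fin 3) {w : Om W X β} (hw : tb.Ps.p w ≠ 0) :
    tb.lab t i (w.2.1 i) w.1 w.2.2 = prr t i (tb.lab (t + 1) i (w.2.1 i) w.1 w.2.2) := by
  have h1 := old_pt tb ht hw
  exact (congrFun (congrArg (fun u : Pt (Fin 3) X β φ => u.2.2) h1) i).symm

theorem lab_hist {t t' : ℕ} (htt : t' ≤ t) (ht : t ≤ T) (i : Fin 3) {a b : Om W X β} (ha : tb.Ps.p a ≠ 0)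
    (hb : tb.Ps.p b ≠ 0) (hab : tb.lab t i (a.2.1 i) a.1 a.2.2 = tb.lab t i (b.2.1 i) b.1 b.2.2) :
    tb.lab t' i (a.2.1 i) a.1 a.2.2 = tb.lab t' i (b.2.1 i) b.1 b.2.2 := by
  induction t, htt using Nat.le_induction with
  | base => exact hab
  | succ t h1 ih =>
    refine ih (by omega) ?_
    rw [lab_old tb (by omega) i ha, lab_old tb (by omega) i hb, hab]

/-- sight of the birth of a label -/
def sgl (tb : Tab D prr T W) (v : ℕ → Finset (Fin 3) → X → (Fin 3 → β) → υ) (l : Fin 3) (s : ℕ) (w : Om W X β) :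
    (Fin 3 → Option β) × (List υ × (γ × (Fin 3 → γ))) := (PJ (univ.erase l) (tb.pt 0 w), NPo tb v s w)

/-- the points of the label and the node give the base -/
theorem sgl_BB (l : Fin 3) (t : ℕ) {s : ℕ} (hs : t ≤ TP.nn s) {a b : Pt (Fin 3) X β φ}
    (h1 : PJ (univ.erase l) a = PJ (univ.erase l) b) (h2 : NPq D v s a = NPq D v s b) :
    BB D t (univ.erase l) a = BB D t (univ.erase l) b := by
  have h3 : nd D (TP.nn s) a = nd D (TP.nn s) b := congrArg Prod.snd h2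
  have h4 : nd D t a = nd D t b := nd_mono' hs a b h3
  rw [BB_eq]
  exact ⟨C5.PJ_eq.1 h1, congrArg Prod.fst h4, fun j => congrFun (congrArg Prod.snd h4) j⟩

theorem birth0_BB (l : Fin 3) : (D.P h 0).Hc (fun w => w.2.2 l) (BB D 0 (univ.erase l)) = birth0 h l := by
  have h1 := Hc_base h (J := univ.erase l) (t := 0) (s := 0) le_rfl (T := fun w : Pt (Fin 3) X β φ => w.2.2 l)
    (R := fun _ => ()) (fun a b hab => by
      simp only [Prod.mk.injEq, AA_eq] at hab
      exact hab.1.2 l (Finset.Subset.refl _)) (fun _ _ _ => rfl)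
  have e1 : (D.P h 0).Hc (fun w => w.2.2 l) (BB D 0 (univ.erase l)) =
      (D.P h 0).Hc (fun w => w.2.2 l) (fun w => ((), BB D 0 (univ.erase l) w)) :=
    (D.P h 0).Hc_congr_right _ (fun a b hab => Prod.ext rfl hab) (fun a b hab => (Prod.mk.inj hab).2)
  have e2 : (D.P h 0).Hc (fun w => w.2.2 l) (WW D 0) =
      (D.P h 0).Hc (fun w => w.2.2 l) (fun w => ((), WW D 0 w)) :=
    (D.P h 0).Hc_congr_right _ (fun a b hab => Prod.ext rfl hab) (fun a b hab => (Prod.mk.inj hab).2)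
  unfold birth0
  rw [e1, e2]
  exact h1.symm

/-- **births of one label** -/
theorem step_lab {k : ℕ} (hk : k < 5 * T) (l : Fin 3) :
    tb.Ps.Hc (TFo tb l (k + 1)) (fun w => (TFo tb l k w, sgl tb v l (k + 1) w)) ≤
      ind (k % 5 = 4) * birth h prr (k / 5) l := by
  by_cases hk4 : k % 5 = 4
  · rw [ind_of hk4, one_mul]
    obtain ⟨t, rfl⟩ : ∃ t, k = 5 * t + 4 := ⟨k / 5, by omega⟩
    have htT : t < T := by omega
    rw [show (5 * t + 4) / 5 = t by omega]
    have e0 : (5 * t + 4 + 1) / 5 = t + 1 := by omega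
    have e1 : (5 * t + 4) / 5 = t := by omega
    -- new entry
    have h1 : tb.Ps.Hc (TFo tb l (5 * t + 4 + 1)) (fun w => (TFo tb l (5 * t + 4) w, sgl tb v l (5 * t + 4 + 1) w)) ≤
        tb.Ps.Hc (fun w => tb.lab (t + 1) l (w.2.1 l) w.1 w.2.2)
          (fun w => (TFo tb l (5 * t + 4) w, sgl tb v l (5 * t + 4 + 1) w)) := by
      refine tb.Ps.Hc_mono _ ?_
      intro a b hab
      have h2 := (Prod.mk.inj hab).1
      have h3 := (Prod.mk.inj (Prod.mk.inj hab).2).1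
      funext t'
      have h4 := congrFun h3 t'
      unfold TFo at h4 ⊢
      rw [e1] at h4
      rw [e0]
      by_cases h5 : t' ≤ t
      · have h6 : t' ≤ t ∧ t' ≤ T := ⟨h5, by omega⟩
        rw [if_pos h6, if_pos h6] at h4
        have h7 : t' ≤ t + 1 ∧ t' ≤ T := ⟨by omega, h6.2⟩
        rw [if_pos h7, if_pos h7, h4]
      · by_cases h6 : t' = t + 1
        · subst h6
          have h7 : t + 1 ≤ t + 1 ∧ t + 1 ≤ T := ⟨le_rfl, by omega⟩
          rw [if_pos h7, if_pos h7, h2]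
        · have h7 : ¬ (t' ≤ t + 1 ∧ t' ≤ T) := fun hh => h6 (by omega)
          rw [if_neg h7, if_neg h7]
    have h2 : tb.Ps.Hc (fun w => tb.lab (t + 1) l (w.2.1 l) w.1 w.2.2)
          (fun w => (TFo tb l (5 * t + 4) w, sgl tb v l (5 * t + 4 + 1) w)) ≤
        tb.Ps.Hc (fun w => tb.lab (t + 1) l (w.2.1 l) w.1 w.2.2)
          (fun w => (tb.lab t l (w.2.1 l) w.1 w.2.2, sgl tb v l (5 * t + 4 + 1) w)) := by
      refine tb.Ps.Hc_anti _ ?_
      intro a b hab
      have h3 := (Prod.mk.inj hab).1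
      have h4 := congrFun h3 t
      unfold TFo at h4
      rw [e1] at h4
      have h6 : t ≤ t ∧ t ≤ T := ⟨le_rfl, htT.le⟩
      rw [if_pos h6, if_pos h6] at h4
      exact Prod.ext (Option.some.inj h4) (Prod.mk.inj hab).2
    have h3 : tb.Ps.Hc (fun w => tb.lab (t + 1) l (w.2.1 l) w.1 w.2.2)
          (fun w => (tb.lab t l (w.2.1 l) w.1 w.2.2, sgl tb v l (5 * t + 4 + 1) w)) =
        tb.Ps.Hc (fun w => (tb.pt (t + 1) w).2.2 l)
          (fun w => (prr t l ((tb.pt (t + 1) w).2.2 l), PJ (univ.erase l) (tb.pt (t + 1) w),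
            NPq D v (5 * t + 4 + 1) (tb.pt (t + 1) w))) := by
      refine Hc_congr_eq (fun w _ => rfl) (fun w hw => ?_)
      rw [lab_old tb htT l hw]
      rfl
    have h4 := pul_Hc (pul_pt h tb (show t + 1 ≤ T by omega)) (P' := D.P h (t + 1)) (fun u => u.2.2 l)
      (fun u => (prr t l (u.2.2 l), PJ (univ.erase l) u, NPq D v (5 * t + 4 + 1) u))
    have h5 : (D.P h (t + 1)).Hc (fun u => u.2.2 l)
        (fun u => (prr t l (u.2.2 l), PJ (univ.erase l) u, NPq D v (5 * t + 4 + 1) u)) ≤ birth h prr t l := by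
      rw [← birth_BB h (prr := prr) (t := t) (J := univ.erase l) (l := l) rfl]
      refine (D.P h (t + 1)).Hc_anti _ ?_
      intro a b hab
      have g1 := (Prod.mk.inj hab).1
      have g2 := (Prod.mk.inj (Prod.mk.inj hab).2).1
      have g3 := (Prod.mk.inj (Prod.mk.inj hab).2).2
      have hn : t + 1 ≤ TP.nn (5 * t + 4 + 1) := by
        rw [show 5 * t + 4 + 1 = 5 * t + 5 by ring, nn_5]
      exact Prod.ext g1 (sgl_BB l (t + 1) hn g2 g3)
    exact h1.trans (h2.trans ((h3.trans h4).le.trans h5))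
  · rw [ind_not hk4, zero_mul]
    refine (Hc_of_fac _ ?_).le
    intro a b hab
    have h3 := (Prod.mk.inj hab).1
    have e : (k + 1) / 5 = k / 5 := by omega
    have e2 : TFo tb l (k + 1) = TFo tb l k := by
      unfold TFo
      rw [e]
    rw [e2]
    exact h3

theorem start_lab (l : Fin 3) : tb.Ps.Hc (TFo tb l 0) (sgl tb v l 0) ≤ birth0 h l := by
  have h1 : tb.Ps.Hc (TFo tb l 0) (sgl tb v l 0) ≤
      tb.Ps.Hc (fun w => tb.lab 0 l (w.2.1 l) w.1 w.2.2) (sgl tb v l 0) := by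
    refine tb.Ps.Hc_mono _ ?_
    intro a b hab
    have h2 := (Prod.mk.inj hab).1
    funext t'
    unfold TFo
    by_cases h5 : t' ≤ 0 / 5 ∧ t' ≤ T
    · have h6 : t' = 0 := by omega
      subst h6
      rw [if_pos h5, if_pos h5, h2]
    · rw [if_neg h5, if_neg h5]
  have h4 := pul_Hc (pul_pt h tb (show 0 ≤ T by omega)) (P' := D.P h 0) (fun u => u.2.2 l)
      (fun u => (PJ (univ.erase l) u, NPq D v 0 u))
  have h5 : (D.P h 0).Hc (fun u => u.2.2 l) (fun u => (PJ (univ.erase l) u, NPq D v 0 u)) ≤ birth0 h l := by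
    rw [← birth0_BB h l]
    refine (D.P h 0).Hc_anti _ ?_
    intro a b hab
    have g2 := (Prod.mk.inj hab).1
    have g3 := (Prod.mk.inj hab).2
    exact sgl_BB l 0 (Nat.zero_le _) g2 g3
  exact h1.trans ((le_of_eq h4).trans h5)

/-! ### families of letters -/

section fam

variable {Om : Type} [Fintype Om] {M : MS Om}

theorem YF_eq {i : Finset (Fin 3) × Finset (Fin 3)} {a b : Om} :
    YF M i a = YF M i b ↔ ∀ j, M.YP j a = M.YP j b := by
  unfold YF
  rw [funext_iff]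

theorem LF_eq {i : Finset (Fin 3) × Finset (Fin 3)} {s : ℕ} {a b : Om} : LF M i s a = LF M i s b ↔
    (∀ j ∈ i.1, M.XL j s a = M.XL j s b) ∧ (∀ t ∈ i.2, M.TF t s a = M.TF t s b) ∧ YF M i a = YF M i b := by
  unfold LF
  rw [Prod.mk.injEq, Prod.mk.injEq]
  refine and_congr ?_ (and_congr ?_ Iff.rfl)
  · rw [funext_iff]
    refine forall_congr' fun j => ?_
    by_cases hj : j ∈ i.1
    · rw [if_pos hj, if_pos hj]
      exact ⟨fun hh _ => Option.some.inj hh, fun hh => by rw [hh hj]⟩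
    · rw [if_neg hj, if_neg hj]
      exact ⟨fun _ h2 => absurd h2 hj, fun _ => rfl⟩
  · rw [funext_iff]
    refine forall_congr' fun j => ?_
    by_cases hj : j ∈ i.2
    · rw [if_pos hj, if_pos hj]
      exact ⟨fun hh _ => Option.some.inj hh, fun hh => by rw [hh hj]⟩
    · rw [if_neg hj, if_neg hj]
      exact ⟨fun _ h2 => absurd h2 hj, fun _ => rfl⟩

theorem LF_fac (i : Finset (Fin 3) × Finset (Fin 3)) (s : ℕ) : Fac (LF M i (s + 1)) (LF M i s) := fun a b hab => by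
  obtain ⟨h1, h2, h3⟩ := LF_eq.1 hab
  exact LF_eq.2 ⟨fun j hj => M.hX j s a b (h1 j hj), fun t ht => M.hT t s a b (h2 t ht), h3⟩

theorem LF_YF (i : Finset (Fin 3) × Finset (Fin 3)) (s : ℕ) : Fac (LF M i s) (YF M i) := fun _ _ hab => (LF_eq.1 hab).2.2

/-- created entropy of a family -/
theorem Hc_LF_le {ι : Type*} {κ1 κ2 : Fin 3 → Type*} (i : Finset (Fin 3) × Finset (Fin 3)) (s : ℕ) {Z : Om → ι}
    (hZ : Fac Z (YF M i)) (Z1 : ∀ j : Fin 3, Om → κ1 j) (Z2 : ∀ j : Fin 3, Om → κ2 j) (h1 : ∀ j ∈ i.1, Fac Z (Z1 j))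
    (h2 : ∀ j ∈ i.2, Fac Z (Z2 j)) :
    M.P.Hc (LF M i s) Z ≤ ∑ j ∈ i.1, M.P.Hc (M.XL j s) (Z1 j) + ∑ j ∈ i.2, M.P.Hc (M.TF j s) (Z2 j) := by
  have e1 := Hc_fin_le M.P (fun j => M.XL j s) i.1 Z1 h1
  have e2 := Hc_fin_le M.P (fun j => M.TF j s) i.2 Z2 h2
  have e3 := Hc_pair_le M.P (F := fun w j => if j ∈ i.1 then some (M.XL j s w) else Option.none)
    (G := fun w j => if j ∈ i.2 then some (M.TF j s w) else Option.none) (Fac.refl Z) (Fac.refl Z)
  have e4 : M.P.Hc (LF M i s) Z ≤ M.P.Hc (fun w => (fun j => if j ∈ i.1 then some (M.XL j s w) else Option.none,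
      fun j => if j ∈ i.2 then some (M.TF j s w) else Option.none)) Z := by
    refine M.P.Hc_mono Z ?_
    intro a b hab
    have g1 := (Prod.mk.inj (Prod.mk.inj hab).1).1
    have g2 := (Prod.mk.inj (Prod.mk.inj hab).1).2
    have g3 := (Prod.mk.inj hab).2
    exact LF_eq.2 ⟨fin_eq.1 g1, fin_eq.1 g2, hZ a b g3⟩
  linarith

end fam

/-! ### totals -/

section tot

variable {d1 kb d0 k0 p1 z : ℝ} (hd1 : 0 < d1) (hd11 : d1 ≤ 1) (hkb : 0 < kb) (hd0 : 0 < d0) (hd01 : d0 ≤ 1) (hk0 : 0 < k0)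
  (hp1 : 0 < p1) (hz : 0 < z)

/-- births of one thin letter in the space with tables -/
theorem step_thin (k : ℕ) (j : Fin 3) :
    tb.Ps.Hc (XLo tb v j (k + 1)) (fun w => (XLo tb v j k w, w.2.2 j, NPo tb v (k + 1) w)) ≤ cq h v k j := by
  have h1 := pul_Hc (pul_pt h tb (Nat.zero_le T)) (XLq v (k + 1) j) (fun w => (XLq v k j w, w.2.1 j, NPq D v (k + 1) w))
  exact (le_of_eq h1).trans (step_q h 0 k j)

theorem start_thin (j : Fin 3) :
    tb.Ps.Hc (XLo tb v j 0) (fun w => (w.2.2 j, NPo tb v 0 w)) ≤ cst h v 0 {j} := by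
  have h1 := pul_Hc (pul_pt h tb (Nat.zero_le T)) (XLq v 0 j) (fun w => (w.2.1 j, NPq D v 0 w))
  exact (le_of_eq h1).trans (start_q h 0 j).le

theorem sum_birth (T : ℕ) (l : Fin 3) :
    ∑ k ∈ range (5 * T), ind (k % 5 = 4) * birth h prr (k / 5) l = ∑ t ∈ range T, birth h prr t l := by
  induction T with
  | zero => simp
  | succ T ih =>
    rw [show 5 * (T + 1) = 5 * T + 1 + 1 + 1 + 1 + 1 by ring, Finset.sum_range_succ, Finset.sum_range_succ,
      Finset.sum_range_succ, Finset.sum_range_succ, Finset.sum_range_succ, ih, Finset.sum_range_succ,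
      ind_not (by omega), ind_not (by omega), ind_not (by omega), ind_not (by omega), ind_of (by omega),
      show (5 * T + 1 + 1 + 1 + 1) / 5 = T by omega]
    ring

variable (v)

/-- **created entropies of a family, any finer sight** -/
theorem Hc_LF_sum (i : Finset (Fin 3) × Finset (Fin 3)) {κ : Type*} {N : ℕ → Om W X β → κ}
    (hN : ∀ s, Fac (N s) (NPo tb v s)) :
    tb.Ps.Hc (LF (MSi tb (v := v) d1 kb d0 k0 p1 z hd1 hd11 hkb hd0 hd01 hk0 hp1 hz) i 0)
        (fun w => (YF (MSi tb (v := v) d1 kb d0 k0 p1 z hd1 hd11 hkb hd0 hd01 hk0 hp1 hz) i w, N 0 w)) +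
      ∑ k ∈ range (5 * T), tb.Ps.Hc (LF (MSi tb (v := v) d1 kb d0 k0 p1 z hd1 hd11 hkb hd0 hd01 hk0 hp1 hz) i (k + 1))
        (fun w => (LF (MSi tb (v := v) d1 kb d0 k0 p1 z hd1 hd11 hkb hd0 hd01 hk0 hp1 hz) i k w, N (k + 1) w)) ≤
      ∑ j ∈ i.1, ∑ t ∈ range (T + 1), cst h v t {j} +
        ∑ l ∈ i.2, (birth0 h l + ∑ t ∈ range T, birth h prr t l) := by
  set M := MSi tb (v := v) d1 kb d0 k0 p1 z hd1 hd11 hkb hd0 hd01 hk0 hp1 hz with hM
  have pts : ∀ {a b : Om W X β}, YF M i a = YF M i b → ∀ l ∈ i.2, PJ (univ.erase l) (tb.pt 0 a) = PJ (univ.erase l) (tb.pt 0 b) := by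
    intro a b hab l hl
    refine C5.PJ_eq.2 fun j hj => ?_
    exact YF_eq.1 hab j
  have h0 : tb.Ps.Hc (LF M i 0) (fun w => (YF M i w, N 0 w)) ≤
      ∑ j ∈ i.1, cst h v 0 {j} + ∑ l ∈ i.2, birth0 h l := by
    have h1 := Hc_LF_le (M := M) i 0 (Z := fun w => (YF M i w, N 0 w)) (fun a b hab => (Prod.mk.inj hab).1)
      (fun j w => (w.2.2 j, NPo tb v 0 w)) (fun l => sgl tb v l 0)
      (fun j hj a b hab => by
        have g1 := (Prod.mk.inj hab).1
        have g2 := (Prod.mk.inj hab).2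
        exact Prod.ext (YF_eq.1 g1 j) (hN 0 a b g2))
      (fun l hl a b hab => by
        have g1 := (Prod.mk.inj hab).1
        have g2 := (Prod.mk.inj hab).2
        exact Prod.ext (pts g1 l hl) (hN 0 a b g2))
    refine h1.trans (add_le_add ?_ ?_)
    · exact Finset.sum_le_sum fun j _ => start_thin h tb j
    · exact Finset.sum_le_sum fun l _ => start_lab h tb l
  have h3 : ∀ k ∈ range (5 * T), tb.Ps.Hc (LF M i (k + 1)) (fun w => (LF M i k w, N (k + 1) w)) ≤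
      ∑ j ∈ i.1, cq h v k j + ∑ l ∈ i.2, ind (k % 5 = 4) * birth h prr (k / 5) l := by
    intro k hk
    have hk' := Finset.mem_range.1 hk
    have h1 := Hc_LF_le (M := M) i (k + 1) (Z := fun w => (LF M i k w, N (k + 1) w))
      (fun a b hab => LF_YF i k a b (Prod.mk.inj hab).1)
      (fun j w => (XLo tb v j k w, w.2.2 j, NPo tb v (k + 1) w)) (fun l w => (TFo tb l k w, sgl tb v l (k + 1) w))
      (fun j hj a b hab => by
        have g1 := LF_eq.1 (Prod.mk.inj hab).1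
        have g2 := hN (k + 1) a b (Prod.mk.inj hab).2
        exact Prod.ext (g1.1 j hj) (Prod.ext (YF_eq.1 g1.2.2 j) g2))
      (fun l hl a b hab => by
        have g1 := LF_eq.1 (Prod.mk.inj hab).1
        have g2 := hN (k + 1) a b (Prod.mk.inj hab).2
        exact Prod.ext (g1.2.1 l hl) (Prod.ext (pts g1.2.2 l hl) g2))
    refine h1.trans (add_le_add ?_ ?_)
    · exact Finset.sum_le_sum fun j _ => step_thin h tb k j
    · exact Finset.sum_le_sum fun l _ => step_lab h tb hk' l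
  refine (add_le_add h0 (Finset.sum_le_sum h3)).trans (le_of_eq ?_)
  rw [Finset.sum_add_distrib, Finset.sum_comm, Finset.sum_comm (t := i.2)]
  have e1 : ∑ j ∈ i.1, ∑ k ∈ range (5 * T), cq h v k j = ∑ j ∈ i.1, ∑ t ∈ range T, cst h v (t + 1) {j} :=
    Finset.sum_congr rfl fun j _ => sum_cq h T j
  have e2 : ∑ l ∈ i.2, ∑ k ∈ range (5 * T), ind (k % 5 = 4) * birth h prr (k / 5) l =
      ∑ l ∈ i.2, ∑ t ∈ range T, birth h prr t l := Finset.sum_congr rfl fun l _ => sum_birth h T l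
  rw [e1, e2, Finset.sum_add_distrib]
  have e3 : ∑ j ∈ i.1, ∑ t ∈ range (T + 1), cst h v t {j} =
      ∑ j ∈ i.1, ∑ t ∈ range T, cst h v (t + 1) {j} + ∑ j ∈ i.1, cst h v 0 {j} := by
    rw [← Finset.sum_add_distrib]
    exact Finset.sum_congr rfl fun j _ => Finset.sum_range_succ' _ T
  rw [e3]
  ring

/-- increments and births of a family, any finer sight -/
theorem tot_gen (i : Finset (Fin 3) × Finset (Fin 3)) {κ : Type*} {N : ℕ → Om W X β → κ}
    (hN : ∀ s, Fac (N s) (NPo tb v s)) {Tot : ℝ}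
    (hT : ∑ j ∈ i.1, ∑ t ∈ range (T + 1), cst h v t {j} + ∑ l ∈ i.2, (birth0 h l + ∑ t ∈ range T, birth h prr t l) ≤ Tot) :
    ∑ k ∈ range (5 * T), tb.Ps.E (ai tb.Ps N (LF (MSi tb (v := v) d1 kb d0 k0 p1 z hd1 hd11 hkb hd0 hd01 hk0 hp1 hz) i)
        (YF (MSi tb (v := v) d1 kb d0 k0 p1 z hd1 hd11 hkb hd0 hd01 hk0 hp1 hz) i) k) ≤ Tot ∧
      ∑ k ∈ range (5 * T), tb.Ps.E (bi tb.Ps N (LF (MSi tb (v := v) d1 kb d0 k0 p1 z hd1 hd11 hkb hd0 hd01 hk0 hp1 hz) i)
        (YF (MSi tb (v := v) d1 kb d0 k0 p1 z hd1 hd11 hkb hd0 hd01 hk0 hp1 hz) i) k) ≤ Tot := by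
  set M := MSi tb (v := v) d1 kb d0 k0 p1 z hd1 hd11 hkb hd0 hd01 hk0 hp1 hz with hM
  have h1 : ∑ k ∈ range (5 * T), tb.Ps.E (bi tb.Ps N (LF M i) (YF M i) k) =
      ∑ k ∈ range (5 * T), tb.Ps.Hc (LF M i (k + 1)) (fun w => (LF M i k w, N (k + 1) w)) :=
    Finset.sum_congr rfl fun k _ => E_bi tb.Ps (N := N) (Y := YF M i) (LF_fac i) k
  have h2 := Hc_LF_sum h tb v hd1 hd11 hkb hd0 hd01 hk0 hp1 hz i hN
  have h3 := sum_ai tb.Ps (N := N) (L := LF M i) (Y := YF M i) (LF_YF i) (5 * T)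
  have h4 := tb.Ps.Hc_nonneg (LF M i 0) (fun w => (YF M i w, N 0 w))
  rw [h1] at h3
  refine ⟨h3.trans (h2.trans hT), ?_⟩
  rw [h1]
  linarith

/-! ### light values -/

theorem NPq_code {q : ℕ} (h2 : 2 ≤ q % 5) : NPq (φ := φ) D v (q + 1) = NPq D v q := by
  obtain ⟨t, j, hj, hj1, rfl⟩ : ∃ t j, j + 1 ≤ 4 ∧ 1 ≤ j ∧ q = 5 * t + j + 1 :=
    ⟨q / 5, q % 5 - 1, by omega, by omega, by omega⟩
  rw [show 5 * t + j + 1 + 1 = 5 * t + (j + 1) + 1 by ring, NPq_new (by omega) (by omega), NPq_new hj1 (by omega)]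

theorem Hc_NPq_any (R q : ℕ) (hq : q % 5 ≠ 0) :
    (D.P h R).Hc (NPq D v (q + 1)) (NPq D v q) ≤ ind (q % 5 = 1) * cst h v (q / 5 + 1) ∅ := by
  by_cases h1 : q % 5 = 1
  · obtain ⟨t, rfl⟩ : ∃ t, q = 5 * t + 1 := ⟨q / 5, by omega⟩
    rw [ind_of h1, one_mul, Hc_NPq h R t, show (5 * t + 1) / 5 = t by omega]
  · rw [ind_not h1, zero_mul, NPq_code (v := v) (D := D) (show 2 ≤ q % 5 by omega)]
    exact (Hc_of_fac _ (Fac.refl _)).le

theorem Hc_NVq_any (R q : ℕ) (hq : q % 5 ≠ 0) (i : Fin 3) :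
    (D.P h R).Hc (NVq D v i (q + 1)) (NVq D v i q) ≤ ind (q % 5 = 1) * cst h v (q / 5 + 1) ∅ + cq h v q i := by
  have h2 := rk_one i
  have hc := cq_nonneg h (v := v) q i
  have hc0 := cst_nonneg h (v := v) (q / 5 + 1) ∅
  by_cases h1 : q % 5 = 1
  · have hX : XLq (φ := φ) v (q + 1) i = XLq v q i := by
      have := XLq_ne (v := v) (φ := φ) (t := q / 5) (j := q % 5) (by omega) (i := i) (by omega)
      rwa [show 5 * (q / 5) + q % 5 = q by omega] at this
    have h3 : (D.P h R).Hc (NVq D v i (q + 1)) (NVq D v i q) ≤ (D.P h R).Hc (NPq D v (q + 1)) (NPq D v q) := by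
      refine le_trans ((D.P h R).Hc_mono _ (X := NPq D v (q + 1)) ?_) ((D.P h R).Hc_anti _ (NVq_NPq i q))
      intro a b hab
      have g1 := (Prod.mk.inj hab).1
      have g2 := (Prod.mk.inj (Prod.mk.inj hab).2).1
      show (XLq v (q + 1) i a, NPq D v (q + 1) a) = (XLq v (q + 1) i b, NPq D v (q + 1) b)
      rw [hX, g1, g2]
    have h4 := Hc_NPq_any h (v := v) R q hq
    linarith
  · by_cases h3 : q % 5 = rk {i}
    · have h4 := Hc_NVq h (v := v) R q i h3
      unfold cq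
      rw [ind_of h3, one_mul]
      have := mul_nonneg (ind_nonneg (q % 5 = 1)) hc0
      linarith
    · have hX : XLq (φ := φ) v (q + 1) i = XLq v q i := by
        have := XLq_ne (v := v) (φ := φ) (t := q / 5) (j := q % 5) (by omega) (i := i) h3
        rwa [show 5 * (q / 5) + q % 5 = q by omega] at this
      have hN := NPq_code (v := v) (D := D) (φ := φ) (show 2 ≤ q % 5 by omega)
      have h5 : (D.P h R).Hc (NVq D v i (q + 1)) (NVq D v i q) = 0 := by
        refine Hc_of_fac _ ?_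
        intro a b hab
        show (XLq v (q + 1) i a, NPq D v (q + 1) a) = (XLq v (q + 1) i b, NPq D v (q + 1) b)
        rw [hX, hN]
        exact hab
      rw [h5]
      have := mul_nonneg (ind_nonneg (q % 5 = 1)) hc0
      linarith

theorem sum_pub (T : ℕ) : ∑ q ∈ range (5 * T), ind (q % 5 = 1) * cst h v (q / 5 + 1) ∅ = ∑ t ∈ range T, cst h v (t + 1) ∅ := by
  induction T with
  | zero => simp
  | succ T ih =>
    rw [show 5 * (T + 1) = 5 * T + 1 + 1 + 1 + 1 + 1 by ring, Finset.sum_range_succ, Finset.sum_range_succ,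
      Finset.sum_range_succ, Finset.sum_range_succ, Finset.sum_range_succ, ih, Finset.sum_range_succ,
      ind_not (by omega), ind_of (by omega), ind_not (by omega), ind_not (by omega), ind_not (by omega),
      show (5 * T + 1) / 5 = T by omega]
    ring

/-- light values of a sight of the positions -/
theorem light_gen {κ : Type*} {N' : ℕ → Pt (Fin 3) X β φ → κ} (hN : ∀ q, Fac (N' (q + 1)) (N' q)) (q : ℕ) :
    tb.Ps.Pr (fun w => q % 5 ≠ 0 ∧ 2 * tb.Ps.m (fun u => N' (q + 1) (tb.pt 0 u)) w < tb.Ps.m (fun u => N' q (tb.pt 0 u)) w) ≤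
      ind (q % 5 ≠ 0) * (D.P h 0).Hc (N' (q + 1)) (N' q) / Real.log 2 := by
  have h1 := light_step h 0 (N := N') hN (A := fun q => q % 5 ≠ 0) q
  refine le_trans (le_of_eq ?_) h1
  have H := pul_pt h tb (Nat.zero_le T)
  rw [← H.Pr]
  unfold FP.Pr
  refine tb.Ps.E_congr fun w _ => ?_
  have e1 := H.m (N' (q + 1)) w
  have e2 := H.m (N' q) w
  show ind (q % 5 ≠ 0 ∧ 2 * tb.Ps.m (fun u => N' (q + 1) (tb.pt 0 u)) w < tb.Ps.m (fun u => N' q (tb.pt 0 u)) w) =
    ind (q % 5 ≠ 0 ∧ 2 * (D.P h 0).m (N' (q + 1)) (tb.pt 0 w) < (D.P h 0).m (N' q) (tb.pt 0 w))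
  rw [e1, e2]

theorem nl_sum : NL (MSi tb (v := v) d1 kb d0 k0 p1 z hd1 hd11 hkb hd0 hd01 hk0 hp1 hz) (5 * T) ≤
    (∑ t ∈ range (T + 1), cst h v t ∅) / Real.log 2 := by
  have hl : 0 < Real.log 2 := Real.log_pos (by norm_num)
  unfold NL
  have h1 : ∀ q ∈ range (5 * T), tb.Ps.Pr (lt5 (MSi tb (v := v) d1 kb d0 k0 p1 z hd1 hd11 hkb hd0 hd01 hk0 hp1 hz)
      (NPo tb v) q) ≤ ind (q % 5 = 1) * cst h v (q / 5 + 1) ∅ / Real.log 2 := by
    intro q _
    refine (light_gen h tb (N' := NPq D v) NPq_fac q).trans ?_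
    refine div_le_div_of_nonneg_right ?_ hl.le
    by_cases hq : q % 5 = 0
    · rw [ind_not fun hh => hh hq, zero_mul]
      exact mul_nonneg (ind_nonneg _) (cst_nonneg h _ _)
    · rw [ind_of hq, one_mul]
      exact Hc_NPq_any h v 0 q hq
  refine (Finset.sum_le_sum h1).trans ?_
  rw [← Finset.sum_div, sum_pub]
  refine div_le_div_of_nonneg_right ?_ hl.le
  rw [Finset.sum_range_succ' _ T]
  have := cst_nonneg h (v := v) 0 ∅
  linarith

theorem nlx_sum (i : Fin 3) : NLx (MSi tb (v := v) d1 kb d0 k0 p1 z hd1 hd11 hkb hd0 hd01 hk0 hp1 hz) i (5 * T) ≤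
    (∑ t ∈ range (T + 1), cst h v t ∅ + ∑ t ∈ range (T + 1), cst h v t {i}) / Real.log 2 := by
  have hl : 0 < Real.log 2 := Real.log_pos (by norm_num)
  unfold NLx
  have h1 : ∀ q ∈ range (5 * T), tb.Ps.Pr (lt5 (MSi tb (v := v) d1 kb d0 k0 p1 z hd1 hd11 hkb hd0 hd01 hk0 hp1 hz)
      (CN (MSi tb (v := v) d1 kb d0 k0 p1 z hd1 hd11 hkb hd0 hd01 hk0 hp1 hz) i) q) ≤
      (ind (q % 5 = 1) * cst h v (q / 5 + 1) ∅ + cq h v q i) / Real.log 2 := by
    intro q _
    refine (light_gen h tb (N' := NVq D v i) (NVq_fac i) q).trans ?_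
    refine div_le_div_of_nonneg_right ?_ hl.le
    by_cases hq : q % 5 = 0
    · rw [ind_not fun hh => hh hq, zero_mul]
      exact add_nonneg (mul_nonneg (ind_nonneg _) (cst_nonneg h _ _)) (cq_nonneg h _ _)
    · rw [ind_of hq, one_mul]
      exact Hc_NVq_any h v 0 q hq i
  refine (Finset.sum_le_sum h1).trans ?_
  rw [← Finset.sum_div, Finset.sum_add_distrib, sum_pub, sum_cq]
  refine div_le_div_of_nonneg_right ?_ hl.le
  rw [Finset.sum_range_succ' _ T, Finset.sum_range_succ' _ T]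
  have := cst_nonneg h (v := v) 0 ∅
  have := cst_nonneg h (v := v) 0 {i}
  linarith

/-! ### thick tops -/

theorem XLo_le (i : Fin 3) {s s' : ℕ} (hss : s ≤ s') : Fac (XLo tb v i s') (XLo tb v i s) := by
  induction s', hss using Nat.le_induction with
  | base => exact Fac.refl _
  | succ k _ ih => exact (XLo_fac tb i k).trans ih

theorem NPo_le {s s' : ℕ} (hss : s ≤ s') : Fac (NPo tb v s') (NPo tb v s) := by
  induction s', hss using Nat.le_induction with
  | base => exact Fac.refl _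
  | succ k _ ih => exact (NPo_fac tb k).trans ih

/-- all thin letters and the public information, on the sample points -/
def THp (D : HD (Fin 3) X β γ φ) (v : ℕ → Finset (Fin 3) → X → (Fin 3 → β) → υ) (s : ℕ) (u : Pt (Fin 3) X β φ) :
    (Fin 3 → β × List υ) × (List υ × (γ × (Fin 3 → γ))) := (fun j => XLq v s j u, NPq D v s u)

omit [Nonempty X] [Nonempty β] in
theorem THp_xy (s : ℕ) : XY (THp D v s) := fun _ _ _ _ => rfl

omit [Nonempty X] [Nonempty β] in
theorem THp_nd {s : ℕ} {a b : Pt (Fin 3) X β φ} (hab : THp D v s a = THp D v s b) :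
    (∀ j, a.2.1 j = b.2.1 j) ∧ D.qa (TP.nn s) a.1 = D.qa (TP.nn s) b.1 ∧
      ∀ j, D.qb (TP.nn s) (a.2.1 j) = D.qb (TP.nn s) (b.2.1 j) := by
  have g1 : ∀ j, XLq v s j a = XLq v s j b := fun j => congrFun (Prod.mk.inj hab).1 j
  have g2 : nd D (TP.nn s) a = nd D (TP.nn s) b := congrArg Prod.snd (Prod.mk.inj hab).2
  exact ⟨fun j => congrArg Prod.fst (g1 j), congrArg Prod.fst g2, fun j => congrFun (congrArg Prod.snd g2) j⟩

include h in
/-- **thick tops for all later times** -/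
theorem thks {dg : ℕ → X → ℝ} {Lam : ℝ} (H : D.Hyp dg prr al T Lam) :
    Thks (MSi tb (v := v) d1 kb d0 k0 p1 z hd1 hd11 hkb hd0 hd01 hk0 hp1 hz) Lam := by
  set M := MSi tb (v := v) d1 kb d0 k0 p1 z hd1 hd11 hkb hd0 hd01 hk0 hp1 hz with hM
  intro s s' hss A hA w hw h0
  have hP : M.P = tb.Ps := rfl
  rw [hP] at hw h0 ⊢
  have hal : 0 < al := h.pos
  set t0 : ℕ := min (s / 5) T with ht0
  have ht0T : t0 ≤ T := min_le_right _ _
  have ht0s : t0 ≤ TP.nn s := (min_le_left _ _).trans (nn_le s)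
  have Hp := pul_pt h tb ht0T
  have mono : ∀ {a b : Om W X β}, TH M s' a = TH M s' b → TH M s a = TH M s b := by
    intro a b hab
    have g1 := (Prod.mk.inj hab).1
    have g2 := (Prod.mk.inj hab).2
    exact Prod.ext (funext fun j => XLo_le tb v j hss a b (congrFun g1 j)) (NPo_le tb v hss a b g2)
  -- a tuple of the event
  obtain ⟨w0, hw0, hT0, hA0⟩ : ∃ w0, tb.Ps.p w0 ≠ 0 ∧ TH M s w0 = TH M s w ∧ A w0 := by
    by_contra hcon
    have h1 : tb.Ps.ce (TH M s) (fun u => ind (A u)) w = 0 := by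
      unfold FP.ce
      rw [(tb.Ps.E_congr (g := fun _ => 0) fun u hu => ?_).trans (tb.Ps.E_const 0), zero_div]
      show ind (TH M s u = TH M s w) * ind (A u) = 0
      by_cases hz2 : TH M s u = TH M s w
      · rw [ind_not (fun hh : A u => hcon ⟨u, hu, hz2, hh⟩), mul_zero]
      · rw [ind_not hz2, zero_mul]
    rw [h1] at h0
    exact lt_irrefl _ h0
  have hTp : THp D v s (tb.pt t0 w0) = THp D v s (tb.pt t0 w) := hT0
  obtain ⟨k1, k2, k3⟩ := THp_nd v hTp
  have hy : w0.2.2 = w.2.2 := funext k1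
  -- the same labels are possible at `w`
  set w1 : Pt (Fin 3) X β φ := (w.1, w.2.2, (tb.pt t0 w0).2.2) with hw1
  have hkf : ∀ l, al ≤ D.kf t0 l w.1 w.2.2 ((tb.pt t0 w0).2.2 l) := by
    intro l
    have h1 : (D.P h t0).p (tb.pt t0 w0) ≠ 0 := Hp.ne hw0
    have h2 : D.kf t0 l w0.1 w0.2.2 ((tb.pt t0 w0).2.2 l) ≠ 0 := by
      intro h3
      refine h1 ?_
      show (∏ l, D.kf t0 l w0.1 w0.2.2 ((tb.pt t0 w0).2.2 l)) / _ = 0
      rw [Finset.prod_eq_zero (mem_univ l) h3, zero_div]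
    rw [← hy]
    exact h.thick t0 l w0.1 w.1 w0.2.2 _ (qa_mono D ht0s k2) h2
  have hp1w : (D.P h t0).p w1 ≠ 0 := by
    show (∏ l, D.kf t0 l w.1 w.2.2 ((tb.pt t0 w0).2.2 l)) / (Fintype.card X * (Fintype.card β : ℝ) ^ Fintype.card (Fin 3)) ≠ 0
    have h4 : (Fintype.card X : ℝ) ≠ 0 := by exact_mod_cast Fintype.card_ne_zero
    have h5 : (Fintype.card β : ℝ) ≠ 0 := by exact_mod_cast Fintype.card_ne_zero
    exact div_ne_zero (Finset.prod_ne_zero_iff.2 fun l _ => (hal.trans_le (hkf l)).ne') (mul_ne_zero h4 (pow_ne_zero _ h5))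
  have key := labels_thick h univ (s := TP.nn s') (ht0s.trans (nn_mono hss)) (Z := THp D v s') (THp_xy v s')
    (fun a b hab => by
      obtain ⟨g1, g2, g3⟩ := THp_nd v hab
      exact ⟨fun _ _ j _ => g1 j, g2, g3⟩) hp1w
  have em : (D.P h t0).m (THp D v s') w1 = tb.Ps.m (TH M s') w := by
    have e1 := Hp.m (THp D v s') w
    have e2 : (D.P h t0).m (THp D v s') w1 = (D.P h t0).m (THp D v s') (tb.pt t0 w) := by
      unfold FP.m
      rfl
    rw [e2, ← e1]
    rfl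
  have eE := Hp.E (fun u => ind (THp D v s' u = THp D v s' w1) * ind (∀ l ∈ (univ : Finset (Fin 3)), u.2.2 l = w1.2.2 l))
  rw [em, ← eE] at key
  have hle : tb.Ps.E (fun u => ind (THp D v s' (tb.pt t0 u) = THp D v s' w1) *
      ind (∀ l ∈ (univ : Finset (Fin 3)), (tb.pt t0 u).2.2 l = w1.2.2 l)) ≤
      tb.Ps.E (fun u => ind (TH M s' u = TH M s' w) * ind (A u)) := by
    refine tb.Ps.E_mono fun u hu => ?_
    have e1 : (THp D v s' (tb.pt t0 u) = THp D v s' w1) ↔ (TH M s' u = TH M s' w) := Iff.rfl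
    by_cases h1 : TH M s' u = TH M s' w
    · rw [ind_of (e1.2 h1), ind_of h1, one_mul, one_mul]
      by_cases h2 : ∀ l ∈ (univ : Finset (Fin 3)), (tb.pt t0 u).2.2 l = w1.2.2 l
      · have hTu : TH M s u = TH M s w0 := (mono h1).trans hT0.symm
        have g1 := (Prod.mk.inj hTu).1
        have g2 := (Prod.mk.inj hTu).2
        have hF : (LF M (univ, univ) s u, M.NP s u) = (LF M (univ, univ) s w0, M.NP s w0) := by
          refine Prod.ext (LF_eq.2 ⟨fun j _ => congrFun g1 j, fun l _ => ?_, YF_eq.2 fun j => ?_⟩) g2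
          · funext t'
            show TFo tb l s u t' = TFo tb l s w0 t'
            unfold TFo
            by_cases h3 : t' ≤ s / 5 ∧ t' ≤ T
            · rw [if_pos h3, if_pos h3, lab_hist tb (t := t0) (le_min h3.1 h3.2) ht0T l hu hw0 (h2 l (mem_univ l))]
            · rw [if_neg h3, if_neg h3]
          · exact congrArg Prod.fst (congrFun g1 j)
        have hAu : A u := by
          have := hA u w0 hF
          rw [this]
          exact hA0
        rw [ind_of hAu]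
        exact ind_le_one _
      · rw [ind_not h2]
        exact ind_nonneg _
    · rw [ind_not fun hh => h1 (e1.1 hh), ind_not h1, zero_mul, zero_mul]
  have hm : 0 < tb.Ps.m (TH M s') w := tb.Ps.m_pos _ hw
  have h3 : al ^ 3 ≤ tb.Ps.ce (TH M s') (fun u => ind (A u)) w := by
    unfold FP.ce
    rw [le_div_iff₀ hm]
    rw [Finset.card_univ, Fintype.card_fin] at key
    exact key.trans hle
  refine le_trans ?_ h3
  have h5 : Real.exp (-Lam) ^ 3 ≤ al ^ 3 := pow_le_pow_left₀ (Real.exp_pos _).le H.alL 3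
  refine le_trans ?_ h5
  rw [← Real.exp_nat_mul]
  refine Real.exp_le_exp.2 ?_
  have := H.Lam1
  push_cast
  linarith

end tot

end

/-! ### the run -/

section run

variable {X β γ φ : Type} [Fintype X] [Fintype β] [Fintype φ] [Nonempty X] [Nonempty β]
variable {D : HD (Fin 3) X β γ φ} {al : ℝ} {h : D.Thick al} {v : ℕ → Finset (Fin 3) → X → (Fin 3 → β) → Pt (Fin 3) X β φ}
variable {dg : ℕ → X → ℝ} {prr : ℕ → Fin 3 → φ → φ} {T : ℕ} {Lam : ℝ} {W : Type} [Fintype W] (tb : Tab D prr T W)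
variable {d1 kb d0 k0 p1 z : ℝ} (hd1 : 0 < d1) (hd11 : d1 ≤ 1) (hkb : 0 < kb) (hd0 : 0 < d0) (hd01 : d0 ≤ 1) (hk0 : 0 < k0)
  (hp1 : 0 < p1) (hz : 0 < z)

/-- the total of a family -/
theorem total_le {n N1 : ℝ} (hn : 1 ≤ n) (hN1 : 1 ≤ N1) (R : Run h (pr3 (Fin 3) n N1) (SS1 (Fin 3)) (AdmDep D) v)
    (H : D.Hyp dg prr al T Lam) (i : Finset (Fin 3) × Finset (Fin 3)) :
    ∑ j ∈ i.1, ∑ t ∈ range (T + 1), cst h v t {j} + ∑ l ∈ i.2, (birth0 h l + ∑ t ∈ range T, birth h prr t l) ≤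
      12 * n * Lam := by
  have h1 := cost_J hn hN1 R H i.1
  have h2 : ∑ l ∈ i.2, (birth0 h l + ∑ t ∈ range T, birth h prr t l) ≤ i.2.card * Lam := by
    refine (Finset.sum_le_card_nsmul _ _ Lam fun l _ => birth_le h H l).trans ?_
    rw [nsmul_eq_mul]
  have h3 : (i.1.card : ℝ) ≤ 3 := by exact_mod_cast (Finset.card_le_univ i.1)
  have h4 : (i.2.card : ℝ) ≤ 3 := by exact_mod_cast (Finset.card_le_univ i.2)
  have hL := H.Lam1
  have h5 : 0 ≤ n * Lam := by positivity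
  have h6 : Lam ≤ n * Lam := by nlinarith
  have h7 : (i.1.card : ℝ) * (3 * (n * Lam)) ≤ 9 * (n * Lam) := by nlinarith
  have h8 : (i.2.card : ℝ) * Lam ≤ 3 * Lam := by nlinarith
  nlinarith

/-- **totals at the exact vertices** -/
theorem totX {n N1 : ℝ} (hn : 1 ≤ n) (hN1 : 1 ≤ N1) (R : Run h (pr3 (Fin 3) n N1) (SS1 (Fin 3)) (AdmDep D) v)
    (H : D.Hyp dg prr al T Lam) :
    TotX (MSi tb (v := v) d1 kb d0 k0 p1 z hd1 hd11 hkb hd0 hd01 hk0 hp1 hz) (5 * T) (60 * n * Lam) := by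
  have e : 60 * n * Lam / 5 = 12 * n * Lam := by ring
  refine ⟨fun v' i => ?_, fun i => ?_⟩
  · rw [e]
    exact tot_gen h tb v hd1 hd11 hkb hd0 hd01 hk0 hp1 hz i
      (N := CN (MSi tb (v := v) d1 kb d0 k0 p1 z hd1 hd11 hkb hd0 hd01 hk0 hp1 hz) v')
      (fun _ _ _ hab => (Prod.mk.inj hab).2) (total_le hn hN1 R H i)
  · rw [e]
    exact tot_gen h tb v hd1 hd11 hkb hd0 hd01 hk0 hp1 hz i (N := NPo tb v) (fun _ => Fac.refl _) (total_le hn hN1 R H i)

/-- **public totals** -/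
theorem tot0 {n N1 : ℝ} (hn : 1 ≤ n) (hN1 : 1 ≤ N1) (R : Run h (pr3 (Fin 3) n N1) (SS1 (Fin 3)) (AdmDep D) v)
    (H : D.Hyp dg prr al T Lam) :
    Tot0 (MSi tb (v := v) d1 kb d0 k0 p1 z hd1 hd11 hkb hd0 hd01 hk0 hp1 hz) (5 * T) (12 * n * Lam) := fun i =>
  tot_gen h tb v hd1 hd11 hkb hd0 hd01 hk0 hp1 hz i (N := NPo tb v) (fun _ => Fac.refl _) (total_le hn hN1 R H i)

theorem cost_pub {n N1 : ℝ} (hn : 1 ≤ n) (hN1 : 1 ≤ N1) (R : Run h (pr3 (Fin 3) n N1) (SS1 (Fin 3)) (AdmDep D) v)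
    (H : D.Hyp dg prr al T Lam) : ∑ t ∈ range (T + 1), cst h v t ∅ ≤ 3 * (n * N1 * Lam) := by
  have h2 := cost_le h H (N := pr3 (Fin 3) n N1) (Ntop := n * N1)
    (fun J => lt_of_lt_of_le zero_lt_one (pr3_one hn hN1 J)) (fun l => (pr3_top rfl n N1 l).le)
    (fun t _ => R.nonpos (admDep_ok D) t) (J := ∅) (ne_u rfl)
  have e : pr3 (Fin 3) n N1 ∅ = 1 := by
    unfold pr3
    rw [if_pos Finset.card_empty]
  rw [e, div_one, Fintype.card_fin] at h2
  push_cast at h2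
  linarith

/-- **light public values** -/
theorem nl {n N1 : ℝ} (hn : 1 ≤ n) (hN1 : 1 ≤ N1) (R : Run h (pr3 (Fin 3) n N1) (SS1 (Fin 3)) (AdmDep D) v)
    (H : D.Hyp dg prr al T Lam) :
    NL (MSi tb (v := v) d1 kb d0 k0 p1 z hd1 hd11 hkb hd0 hd01 hk0 hp1 hz) (5 * T) ≤ 6 * n * N1 * Lam := by
  have h1 := nl_sum h tb v hd1 hd11 hkb hd0 hd01 hk0 hp1 hz
  have h2 := cost_pub hn hN1 R H
  refine h1.trans ?_
  rw [div_le_iff₀ (Real.log_pos (by norm_num))]
  have h3 := Real.log_two_gt_d9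
  have h4 : 0 ≤ n * N1 * Lam := by
    have := H.Lam1
    positivity
  nlinarith

/-- **light values at the exact vertices** -/
theorem nlx {n N1 : ℝ} (hn : 1 ≤ n) (hN1 : 1 ≤ N1) (R : Run h (pr3 (Fin 3) n N1) (SS1 (Fin 3)) (AdmDep D) v)
    (H : D.Hyp dg prr al T Lam) (i : Fin 3) :
    NLx (MSi tb (v := v) d1 kb d0 k0 p1 z hd1 hd11 hkb hd0 hd01 hk0 hp1 hz) i (5 * T) ≤ 12 * n * N1 * Lam := by
  have h1 := nlx_sum h tb v hd1 hd11 hkb hd0 hd01 hk0 hp1 hz i
  have h2 := cost_pub hn hN1 R H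
  have h5 : ∑ t ∈ range (T + 1), cst h v t {i} ≤ 3 * (n * Lam) := GMH.cost_thin rfl H hn hN1 R i
  refine h1.trans ?_
  rw [div_le_iff₀ (Real.log_pos (by norm_num))]
  have h3 := Real.log_two_gt_d9
  have hL := H.Lam1
  have h4 : 0 ≤ n * Lam := by positivity
  have h6 : n * Lam ≤ n * N1 * Lam := by nlinarith
  have h7 : 0 ≤ n * N1 * Lam := h4.trans h6
  nlinarith

end run

end Pool.Agent.GMH.MVI
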