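import Pool.Agent.GMH.TD0

/-!
# GMH/TD8 (helper80): mass of the unmoved letters

`unm_le` : the unmoved refinements of the letters of the time `nu` with a property `A` have at the time `k` at most
`exp delta` times the mass of `A` at the time `nu` (every birth on the way has conditional probability larger than
`1/2`, so the unmoved refinement of a letter of the time `nu` is unique).
-/

set_option autoImplicit false
set_option linter.unusedSectionVars false

namespace Pool.Agent.GMH.TD

open Finset Pool.Agent.PWZ Pool.Agent.M3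

section core

variable {Om : Type*} [Fintype Om] (P : FP Om) {κ lam η : Type*}

/-- two different refinements of one class cannot both have conditional probability larger than `1/2` -/
theorem half_uniq {ι ι' : Type*} {Z : Om → ι} {Z' : Om → ι'} (hZ : Fac Z' Z) {u u' : Om} (h0 : Z u = Z u')
    (h1 : P.m Z u < 2 * P.m Z' u) (h2 : P.m Z u' < 2 * P.m Z' u') : Z' u = Z' u' := by
  by_contra hne
  have e1 : P.m Z u' = P.m Z u := by
    unfold FP.m
    rw [h0]
  have h3 : P.m Z' u + P.m Z' u' ≤ P.m Z u := by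
    unfold FP.m
    rw [← P.E_add]
    refine P.E_mono fun v _ => ?_
    by_cases c1 : Z' v = Z' u
    · have c2 : ¬ Z' v = Z' u' := fun hc => hne (c1.symm.trans hc)
      rw [ind_of c1, ind_not c2, ind_of (hZ v u c1), add_zero]
    · by_cases c2 : Z' v = Z' u'
      · rw [ind_not c1, ind_of c2, ind_of ((hZ v u' c2).trans h0.symm), zero_add]
      · rw [ind_not c1, ind_not c2, add_zero]
        exact ind_nonneg _
  linarith

/-- **mass of a set of fine classes through coarse classes**: `G` a set of fine classes inside the cell `C`, at most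
one in every coarse class, with mass at most `c` times the mass of the coarse class -/
theorem mass_fine {ι ι' : Type*} {Z : Om → ι} {Z' : Om → ι'} {G C A : Om → Prop} {c : ℝ} (hc : 0 ≤ c)
    (hG : ∀ u v, P.p u ≠ 0 → P.p v ≠ 0 → G u → G v → Z u = Z v → Z' u = Z' v)
    (hGm : ∀ u, P.p u ≠ 0 → G u → P.m Z' u ≤ c * P.m Z u)
    (hA : ∀ u v, P.p u ≠ 0 → P.p v ≠ 0 → G u → Z u = Z v → C v ∧ A v) :
    P.Pr G ≤ c * P.Pr (fun v => C v ∧ A v) := by
  have h1 : P.Pr G ≤ P.E (fun u => c * P.E (fun v => ind (G u) * ind (Z v = Z u) / P.m Z' u)) := by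
    refine P.E_mono fun u hu => ?_
    show ind (G u) ≤ c * P.E (fun v => ind (G u) * ind (Z v = Z u) / P.m Z' u)
    have hm := P.m_pos Z' hu
    have e : P.E (fun v => ind (G u) * ind (Z v = Z u) / P.m Z' u) = ind (G u) * P.m Z u / P.m Z' u := by
      rw [P.E_div_const, P.E_smul]
      rfl
    rw [e]
    by_cases hg : G u
    · rw [ind_of hg, one_mul, ← mul_div_assoc, le_div_iff₀ hm, one_mul]
      exact hGm u hu hg
    · rw [ind_not hg]
      simp
  have h2 : P.E (fun u => c * P.E (fun v => ind (G u) * ind (Z v = Z u) / P.m Z' u)) =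
      c * P.E (fun v => P.E (fun u => ind (G u) * ind (Z v = Z u) / P.m Z' u)) := by
    rw [P.E_smul, P.E_swap P]
  rw [h2] at h1
  refine h1.trans (mul_le_mul_of_nonneg_left (P.E_mono fun v hv => ?_) hc)
  show P.E (fun u => ind (G u) * ind (Z v = Z u) / P.m Z' u) ≤ ind (C v ∧ A v)
  by_cases hex : ∃ u0, P.p u0 ≠ 0 ∧ G u0 ∧ Z v = Z u0
  · obtain ⟨u0, hu0, hg0, hz0⟩ := hex
    rw [ind_of (hA u0 v hu0 hv hg0 hz0.symm)]
    have hm := P.m_pos Z' hu0
    have h3 : P.E (fun u => ind (G u) * ind (Z v = Z u) / P.m Z' u) ≤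
        P.E (fun u => ind (Z' u = Z' u0) / P.m Z' u0) := by
      refine P.E_mono fun u hu => ?_
      by_cases hg : G u ∧ Z v = Z u
      · have h4 : Z' u = Z' u0 := hG u u0 hu hu0 hg.1 hg0 (hg.2.symm.trans hz0)
        have h5 : P.m Z' u = P.m Z' u0 := by
          unfold FP.m
          rw [h4]
        rw [ind_of hg.1, ind_of hg.2, one_mul, ind_of h4, h5]
      · rw [← ind_and, ind_not hg, zero_div]
        exact div_nonneg (ind_nonneg _) hm.le
    refine h3.trans (le_of_eq ?_)
    rw [P.E_div_const]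
    exact div_self hm.ne'
  · have h3 : P.E (fun u => ind (G u) * ind (Z v = Z u) / P.m Z' u) = P.E (fun _ => (0 : ℝ)) := by
      refine P.E_congr fun u hu => ?_
      have h4 : ¬ (G u ∧ Z v = Z u) := fun hc => hex ⟨u, hu, hc.1, hc.2⟩
      rw [← ind_and, ind_not h4, zero_div]
    rw [h3, P.E_const]
    exact ind_nonneg _

end core

section unm

variable {Om : Type*} [Fintype Om] (P : FP Om) {κ lam η : Type*} {N : ℕ → Om → κ} {L : ℕ → Om → lam} {Y : Om → η}

theorem fac_le {κ : Type*} {N : ℕ → Om → κ} (hN : ∀ k, Fac (N (k + 1)) (N k)) {s t : ℕ} (hst : s ≤ t) :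
    Fac (N t) (N s) := by
  induction t, hst using Nat.le_induction with
  | base => exact fun _ _ h => h
  | succ t _ ih => exact fun v w h => ih v w (hN t v w h)

theorem bi_log8 (k : ℕ) {w : Om} (hw : P.p w ≠ 0) : bi P N L Y k w =
    Real.log (P.m (fun w => (L k w, N (k + 1) w)) w / P.m (fun w => (L (k + 1) w, N (k + 1) w)) w) := by
  have h1 := P.m_pos (fun w => (L k w, N (k + 1) w)) hw
  have h2 := P.m_pos (fun w => (L (k + 1) w, N (k + 1) w)) hw
  have h3 := P.m_pos (fun w => (Y w, N (k + 1) w)) hw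
  unfold bi lqn lq
  rw [Real.log_div h1.ne' h3.ne', Real.log_div h2.ne' h3.ne', Real.log_div h1.ne' h2.ne']
  ring

theorem bi_nonneg' (hL : ∀ k, Fac (L (k + 1)) (L k)) (k : ℕ) {w : Om} (hw : P.p w ≠ 0) : 0 ≤ bi P N L Y k w := by
  rw [bi_log8 P k hw]
  refine Real.log_nonneg ?_
  rw [le_div_iff₀ (P.m_pos _ hw), one_mul]
  refine P.E_mono fun v _ => ind_mono fun hv => ?_
  have h1 : L (k + 1) v = L (k + 1) w := congrArg Prod.fst hv
  have h2 : N (k + 1) v = N (k + 1) w := congrArg Prod.snd hv
  exact Prod.ext (hL k v w h1) h2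

theorem lq_tel8 {nu k : ℕ} (h : nu ≤ k) (w : Om) : lq P N L Y k w =
    lq P N L Y nu w + ∑ i ∈ Ico nu k, ai P N L Y i w - ∑ i ∈ Ico nu k, bi P N L Y i w := by
  induction k, h using Nat.le_induction with
  | base => simp
  | succ k hk ih =>
    rw [Finset.sum_Ico_succ_top hk, Finset.sum_Ico_succ_top hk]
    have : lq P N L Y (k + 1) w = lq P N L Y k w + ai P N L Y k w - bi P N L Y k w := by
      unfold bi ai
      ring
    rw [this, ih]
    ring

/-- unmoved letters with the same start and the same public information are equal -/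
theorem unm_uniq (hN : ∀ k, Fac (N (k + 1)) (N k)) (hL : ∀ k, Fac (L (k + 1)) (L k)) {delta : ℝ}
    (hd : delta < Real.log 2) {nu k : ℕ} (hnk : nu ≤ k) {u v : Om} (hu : P.p u ≠ 0) (hv : P.p v ≠ 0)
    (h1 : ¬ Mv1 P N L Y delta nu k u) (h2 : ¬ Mv1 P N L Y delta nu k v) (hl : L nu u = L nu v) (hn : N k u = N k v) :
    L k u = L k v := by
  have key : ∀ w, P.p w ≠ 0 → ¬ Mv1 P N L Y delta nu k w → ∀ j, nu ≤ j → j < k →
      P.m (fun w => (L j w, N (j + 1) w)) w < 2 * P.m (fun w => (L (j + 1) w, N (j + 1) w)) w := by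
    intro w hw hm j hj hjk
    have h3 : bi P N L Y j w < Real.log 2 := by
      have h4 : bi P N L Y j w ≤ ∑ i ∈ Ico nu k, bi P N L Y i w :=
        Finset.single_le_sum (f := fun i => bi P N L Y i w) (fun i _ => bi_nonneg' P hL i hw) (mem_Ico.2 ⟨hj, hjk⟩)
      have h5 : ∑ i ∈ Ico nu k, bi P N L Y i w < delta := lt_of_not_ge fun hc => hm (Or.inr hc)
      linarith
    rw [bi_log8 P j hw] at h3
    have hp1 := P.m_pos (fun w => (L j w, N (j + 1) w)) hw
    have hp2 := P.m_pos (fun w => (L (j + 1) w, N (j + 1) w)) hw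
    have h6 := (Real.log_lt_log_iff (div_pos hp1 hp2) (by norm_num)).1 h3
    rwa [div_lt_iff₀ hp2] at h6
  have main : ∀ j, nu ≤ j → j ≤ k → L j u = L j v := by
    intro j hj
    induction j, hj using Nat.le_induction with
    | base => exact fun _ => hl
    | succ j hj ih =>
      intro hjk
      have h3 := ih (by omega)
      have h4 : N (j + 1) u = N (j + 1) v := fac_le hN hjk u v hn
      have h5 := half_uniq P (Z := fun w => (L j w, N (j + 1) w)) (Z' := fun w => (L (j + 1) w, N (j + 1) w))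
        (fun a b hab => by
          have q1 : L (j + 1) a = L (j + 1) b := congrArg Prod.fst hab
          have q2 : N (j + 1) a = N (j + 1) b := congrArg Prod.snd hab
          exact Prod.ext (hL j a b q1) q2) (Prod.ext h3 h4)
        (key u hu h1 j hj (by omega)) (key v hv h2 j hj (by omega))
      exact congrArg Prod.fst h5
  exact main k hnk le_rfl

/-- **MASS OF THE UNMOVED LETTERS** -/
theorem unm_le (hN : ∀ k, Fac (N (k + 1)) (N k)) (hL : ∀ k, Fac (L (k + 1)) (L k)) (hY : ∀ k, Fac (L k) Y) {delta : ℝ}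
    (hd : delta < Real.log 2) {nu k : ℕ} (hnk : nu ≤ k) {A : Om → Prop} (hA : Fac (fun w => (L nu w, N nu w)) A)
    {w : Om} (hw : P.p w ≠ 0) :
    P.ce (fun u => (Y u, N k u)) (fun u => ind (¬ Mv1 P N L Y delta nu k u ∧ A u)) w ≤
      Real.exp delta * P.ce (fun u => (Y u, N nu u)) (fun u => ind (A u)) w := by
  have hmk := P.m_pos (fun u => (Y u, N k u)) hw
  have hmn := P.m_pos (fun u => (Y u, N nu u)) hw
  set c : ℝ := Real.exp delta * P.m (fun u => (Y u, N k u)) w / P.m (fun u => (Y u, N nu u)) w with hc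
  have h1 := mass_fine P (Z := fun u => (L nu u, N nu u)) (Z' := fun u => (L k u, N k u))
    (G := fun u => (Y u, N k u) = (Y w, N k w) ∧ ¬ Mv1 P N L Y delta nu k u ∧ A u)
    (C := fun u => (Y u, N nu u) = (Y w, N nu w)) (A := A) (c := c) (by positivity)
    (by
      rintro u v hu hv ⟨g1, g2, _⟩ ⟨k1, k2, _⟩ hz
      have e1 : N k u = N k v := (congrArg Prod.snd g1).trans (congrArg Prod.snd k1).symm
      exact Prod.ext (unm_uniq P hN hL hd hnk hu hv g2 k2 (congrArg Prod.fst hz) e1) e1)
    (by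
      rintro u hu ⟨g1, g2, _⟩
      have e1 : P.m (fun u => (Y u, N k u)) u = P.m (fun u => (Y u, N k u)) w :=
        P.Fac_m (fun u => (Y u, N k u)) u w g1
      have q1 : Y u = Y w := congrArg Prod.fst g1
      have q2 : N k u = N k w := congrArg Prod.snd g1
      have e2 : (Y u, N nu u) = (Y w, N nu w) := Prod.ext q1 (fac_le hN hnk u w q2)
      have e3 : P.m (fun u => (Y u, N nu u)) u = P.m (fun u => (Y u, N nu u)) w :=
        P.Fac_m (fun u => (Y u, N nu u)) u w e2
      have h3 : lq P N L Y k u ≤ lq P N L Y nu u + delta := by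
        rw [lq_tel8 P hnk u]
        have h4 : ∑ i ∈ Ico nu k, ai P N L Y i u < delta :=
          lt_of_le_of_lt (le_abs_self _) (lt_of_not_ge fun hc => g2 (Or.inl hc))
        have h5 : 0 ≤ ∑ i ∈ Ico nu k, bi P N L Y i u := Finset.sum_nonneg fun i _ => bi_nonneg' P hL i hu
        linarith
      have p1 := P.m_pos (fun u => (L k u, N k u)) hu
      have p2 := P.m_pos (fun u => (L nu u, N nu u)) hu
      have p3 := P.m_pos (fun u => (Y u, N k u)) hu
      have p4 := P.m_pos (fun u => (Y u, N nu u)) hu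
      have h6 : P.m (fun u => (L k u, N k u)) u / P.m (fun u => (Y u, N k u)) u ≤
          Real.exp delta * (P.m (fun u => (L nu u, N nu u)) u / P.m (fun u => (Y u, N nu u)) u) := by
        have h7 := Real.exp_le_exp.2 h3
        unfold lq at h7
        rw [Real.exp_add, Real.exp_log (div_pos p1 p3), Real.exp_log (div_pos p2 p4)] at h7
        linarith
      rw [e1, e3, div_le_iff₀ hmk] at h6
      refine h6.trans (le_of_eq ?_)
      rw [hc]
      ring)
    (by
      rintro u v hu hv ⟨g1, _, g3⟩ hz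
      have hz1 : L nu u = L nu v := congrArg Prod.fst hz
      have hz2 : N nu u = N nu v := congrArg Prod.snd hz
      have e1 : Y u = Y v := hY nu u v hz1
      refine ⟨Prod.ext (e1.symm.trans (congrArg Prod.fst g1))
        (hz2.symm.trans (fac_le hN hnk u w (congrArg Prod.snd g1))), ?_⟩
      have : A u = A v := hA u v hz
      exact this ▸ g3)
  have e1 : P.ce (fun u => (Y u, N k u)) (fun u => ind (¬ Mv1 P N L Y delta nu k u ∧ A u)) w =
      P.Pr (fun u => (Y u, N k u) = (Y w, N k w) ∧ ¬ Mv1 P N L Y delta nu k u ∧ A u) /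
        P.m (fun u => (Y u, N k u)) w := by
    unfold FP.ce FP.Pr
    congr 1
    exact P.E_congr fun u _ => (ind_and _ _).symm
  have e2 : P.ce (fun u => (Y u, N nu u)) (fun u => ind (A u)) w =
      P.Pr (fun u => (Y u, N nu u) = (Y w, N nu w) ∧ A u) / P.m (fun u => (Y u, N nu u)) w := by
    unfold FP.ce FP.Pr
    congr 1
    exact P.E_congr fun u _ => (ind_and _ _).symm
  rw [e1, e2, div_le_iff₀ hmk]
  refine h1.trans (le_of_eq ?_)
  rw [hc]
  ring

end unm

end Pool.Agent.GMH.TD
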