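import Pool.Agent.GMH.MVI
import Pool.Agent.GMH.TD8

/-!
# GMH/KDL: the tables of the run and the log probabilities of the clocks (helper34)

* `lt M S A q w` : logarithm of the conditional probability of the tops `A` given the letters of `S`, all points, `NP q`;
  difference of two `lq` with respect to `NP` (`lt_pub`) and to the class of an exact vertex of `S` (`lt_exa`);
* `lt_move`, `lt_move_pub` : an unmoved point has the same tables up to `4 d1` (`4 d0`);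
* for the instance `MSi` : `tab_Z` : `P(tops of A | ZQ)` at the true point (law of the time `q / 5`) is `exp (lt univ A)`;
  `tab_Zb` : `P(top i | ZbQ i)` is `exp (lt (univ.erase i) {i})`.
-/

set_option autoImplicit false
set_option linter.unusedSectionVars false

namespace Pool.Agent.GMH.KDL

open Finset Pool.Agent.PWZ Pool.Agent.M3 Pool.Agent.GM Pool.Agent.GM.Harm Pool.Agent.GMH Pool.Agent.GMH.NZ
open Pool.Agent.GMH.V3 Pool.Agent.GMH.TP Pool.Agent.GMH.TD Pool.Agent.GMH.Dy Pool.Agent.GMH.MV Pool.Agent.GMH.MVI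
open Pool.Agent.GMH.CK

noncomputable section

/-! ### any data -/

section ms

variable {Om : Type} [Fintype Om] (M : MS Om)

/-- log probability of the tops `A` given the letters of `S`, the points and the public information -/
def lt (S A : Finset (Fin 3)) (q : ℕ) (w : Om) : ℝ :=
  Real.log (M.P.m (fun u => (LF M (S, A) q u, M.NP q u)) w / M.P.m (fun u => (LF M (S, ∅) q u, M.NP q u)) w)

variable {M}

theorem lt_eq {w : Om} (hw : M.P.p w ≠ 0) (S A : Finset (Fin 3)) (q : ℕ) : lt M S A q w =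
    Real.log (M.P.m (fun u => (LF M (S, A) q u, M.NP q u)) w) -
      Real.log (M.P.m (fun u => (LF M (S, ∅) q u, M.NP q u)) w) := by
  unfold lt
  rw [Real.log_div (M.P.m_pos _ hw).ne' (M.P.m_pos _ hw).ne']

theorem lt_pub {w : Om} (hw : M.P.p w ≠ 0) (S A : Finset (Fin 3)) (q : ℕ) : lt M S A q w =
    lq M.P M.NP (LF M (S, A)) (YF M (S, A)) q w - lq M.P M.NP (LF M (S, ∅)) (YF M (S, ∅)) q w := by
  rw [lt_eq hw]
  unfold lq
  rw [Real.log_div (M.P.m_pos _ hw).ne' (M.P.m_pos _ hw).ne', Real.log_div (M.P.m_pos _ hw).ne' (M.P.m_pos _ hw).ne']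
  have e : (fun u => (YF M (S, A) u, M.NP q u)) = fun u => (YF M (S, ∅) u, M.NP q u) := rfl
  rw [e]
  ring

/-- the letters of a family with the class of an exact vertex -/
theorem m_exa {v : Fin 3} {S : Finset (Fin 3)} (hv : v ∈ S) (A : Finset (Fin 3)) (q : ℕ) (w : Om) :
    M.P.m (fun u => (LF M (S, A) q u, CN M v q u)) w = M.P.m (fun u => (LF M (S, A) q u, M.NP q u)) w := by
  refine M.P.m_congr ?_ ?_ w
  · intro a b hab
    exact Prod.ext (Prod.mk.inj hab).1 (Prod.mk.inj (Prod.mk.inj hab).2).2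
  · intro a b hab
    have h1 := LF_eq.1 (Prod.mk.inj hab).1
    exact Prod.ext (Prod.mk.inj hab).1 (Prod.ext (h1.1 v hv) (Prod.mk.inj hab).2)

theorem lt_exa {v : Fin 3} {S : Finset (Fin 3)} (hv : v ∈ S) {w : Om} (hw : M.P.p w ≠ 0) (A : Finset (Fin 3)) (q : ℕ) :
    lt M S A q w = lq M.P (CN M v) (LF M (S, A)) (YF M (S, A)) q w - lq M.P (CN M v) (LF M (S, ∅)) (YF M (S, ∅)) q w := by
  rw [lt_eq hw]
  unfold lq
  rw [Real.log_div (M.P.m_pos _ hw).ne' (M.P.m_pos _ hw).ne', Real.log_div (M.P.m_pos _ hw).ne' (M.P.m_pos _ hw).ne',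
    m_exa hv, m_exa hv]
  have e : (fun u => (YF M (S, A) u, CN M v q u)) = fun u => (YF M (S, ∅) u, CN M v q u) := rfl
  rw [e]
  ring

/-- an unmoved letter -/
theorem lq_unm {κ lam η : Type*} {P : FP Om} {N : ℕ → Om → κ} {L : ℕ → Om → lam} {Y : Om → η}
    (hL : ∀ k, Fac (L (k + 1)) (L k)) {δ : ℝ} {ν s : ℕ} (hs : ν ≤ s) {w : Om} (hw : P.p w ≠ 0)
    (h : ¬ Mv1 P N L Y δ ν s w) : |lq P N L Y s w - lq P N L Y ν w| ≤ 2 * δ := by
  have h1 : |∑ j ∈ Ico ν s, ai P N L Y j w| < δ := lt_of_not_ge fun hc => h (Or.inl hc)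
  have h2 : ∑ j ∈ Ico ν s, bi P N L Y j w < δ := lt_of_not_ge fun hc => h (Or.inr hc)
  have h3 : 0 ≤ ∑ j ∈ Ico ν s, bi P N L Y j w := Finset.sum_nonneg fun j _ => bi_nonneg P hL j hw
  rw [lq_tel8 P hs w, abs_le]
  have h4 := abs_lt.1 h1
  constructor <;> linarith [h4.1, h4.2]

theorem not_Mv1 {κ : Type*} {N : ℕ → Om → κ} {δ : ℝ} (hδ : 0 < δ) {ν s : ℕ} (hs : ν ≤ s) {w : Om}
    (h : ¬ Evm M.P N (LF M) (YF M) δ ν s w) (i : Finset (Fin 3) × Finset (Fin 3)) :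
    ¬ Mv1 M.P N (LF M i) (YF M i) δ ν s w := by
  rcases Nat.eq_or_lt_of_le hs with rfl | h1
  · unfold Mv1
    rw [Finset.Ico_self, Finset.sum_empty, Finset.sum_empty, abs_zero]
    rintro (h2 | h2) <;> linarith
  · exact fun h2 => h ⟨s, h1, le_rfl, i, h2⟩

/-- **the tables of a point which is not moved at the exact vertex `v`** -/
theorem lt_move {v : Fin 3} {S : Finset (Fin 3)} (hv : v ∈ S) (A : Finset (Fin 3)) {ν s : ℕ} (hs : ν ≤ s) {w : Om}
    (hw : M.P.p w ≠ 0) (h : ¬ Ex M v ν s w) : |lt M S A s w - lt M S A ν w| ≤ 4 * M.d1 := by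
  have h1 := lq_unm (P := M.P) (N := CN M v) (L := LF M (S, A)) (Y := YF M (S, A)) (LF_fac (S, A)) hs hw
    (not_Mv1 M.hd1 hs (fun g => h (Or.inl g)) (S, A))
  have h2 := lq_unm (P := M.P) (N := CN M v) (L := LF M (S, ∅)) (Y := YF M (S, ∅)) (LF_fac (S, ∅)) hs hw
    (not_Mv1 M.hd1 hs (fun g => h (Or.inl g)) (S, ∅))
  rw [lt_exa hv hw, lt_exa hv hw]
  have h3 := abs_le.1 h1
  have h4 := abs_le.1 h2
  rw [abs_le]
  constructor <;> linarith [h3.1, h3.2, h4.1, h4.2]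

/-- **all tables (with the exact vertex or without) of a point which is not moved at a vertex** -/
theorem lt_move_x {v : Fin 3} (S A : Finset (Fin 3)) {ν s : ℕ} (hs : ν ≤ s) {w : Om} (hw : M.P.p w ≠ 0)
    (h : ¬ Ex M v ν s w) : |lt M S A s w - lt M S A ν w| ≤ 4 * M.d1 := by
  have h0 : ¬ Evm M.P M.NP (LF M) (YF M) M.d1 ν s w := fun hh => h (Or.inr hh)
  have h1 := lq_unm (P := M.P) (N := M.NP) (L := LF M (S, A)) (Y := YF M (S, A)) (LF_fac (S, A)) hs hw
    (not_Mv1 M.hd1 hs h0 (S, A))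
  have h2 := lq_unm (P := M.P) (N := M.NP) (L := LF M (S, ∅)) (Y := YF M (S, ∅)) (LF_fac (S, ∅)) hs hw
    (not_Mv1 M.hd1 hs h0 (S, ∅))
  rw [lt_pub hw, lt_pub hw]
  have h3 := abs_le.1 h1
  have h4 := abs_le.1 h2
  rw [abs_le]
  constructor <;> linarith [h3.1, h3.2, h4.1, h4.2]

/-- **the tables of an unlisted point** -/
theorem lt_move_pub (S A : Finset (Fin 3)) {ν s : ℕ} (hs : ν ≤ s) {w : Om} (hw : M.P.p w ≠ 0) (h : ¬ Lst M ν s w) :
    |lt M S A s w - lt M S A ν w| ≤ 4 * M.d0 := by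
  have h0 : ¬ Evm M.P M.NP (LF M) (YF M) M.d0 ν s w := fun hh => h (Or.inl hh)
  have h1 := lq_unm (P := M.P) (N := M.NP) (L := LF M (S, A)) (Y := YF M (S, A)) (LF_fac (S, A)) hs hw
    (not_Mv1 M.hd0 hs h0 (S, A))
  have h2 := lq_unm (P := M.P) (N := M.NP) (L := LF M (S, ∅)) (Y := YF M (S, ∅)) (LF_fac (S, ∅)) hs hw
    (not_Mv1 M.hd0 hs h0 (S, ∅))
  rw [lt_pub hw, lt_pub hw]
  have h3 := abs_le.1 h1
  have h4 := abs_le.1 h2
  rw [abs_le]
  constructor <;> linarith [h3.1, h3.2, h4.1, h4.2]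

end ms

/-! ### the instance -/

section run

variable {X β γ φ : Type} [Fintype X] [Fintype β] [Fintype φ] [Nonempty X] [Nonempty β]
variable {D : HD (Fin 3) X β γ φ} {al : ℝ} {h : D.Thick al} {N : Finset (Fin 3) → ℝ} {SS : Finset (Finset (Fin 3))}
  {v : ℕ → Finset (Fin 3) → X → (Fin 3 → β) → Pt (Fin 3) X β φ}
variable {dg : ℕ → X → ℝ} {prr : ℕ → Fin 3 → φ → φ} {T : ℕ} {Lam : ℝ} {W : Type} [Fintype W] (tb : Tab D prr T W)
variable {d1 kb d0 k0 p1 z : ℝ} (hd1 : 0 < d1) (hd11 : d1 ≤ 1) (hkb : 0 < kb) (hd0 : 0 < d0) (hd01 : d0 ≤ 1) (hk0 : 0 < k0)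
  (hp1 : 0 < p1) (hz : 0 < z)

/-- the tops of `A` of the time `t` -/
def FA (v : ℕ → Finset (Fin 3) → X → (Fin 3 → β) → Pt (Fin 3) X β φ) (t : ℕ) (A : Finset (Fin 3)) (w : Pt (Fin 3) X β φ) :
    Fin 3 → Option (List (Pt (Fin 3) X β φ) × (Fin 3 → Option φ)) := fun i => if i ∈ A then some (FQ v t i w) else Option.none

omit [Nonempty X] [Nonempty β] in
/-- all thin labels are the thin letters, the points and the public information -/
theorem ZQ_TH {q : ℕ} {a b : Pt (Fin 3) X β φ} : ZQ D v q a = ZQ D v q b ↔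
    (∀ j, XLq v q j a = XLq v q j b) ∧ NPq D v q a = NPq D v q b := by
  have hno : ∀ (J : Finset (Fin 3)), pth J → ∀ l, univ.erase l ≠ J := fun J hJ l hh => by
    have key : ∀ l : Fin 3, ¬ (univ.erase l).card ≤ 1 := by decide
    unfold pth at hJ
    rw [← hh] at hJ
    exact key l hJ
  constructor
  · intro hab
    have g1 := (Prod.mk.inj hab).1
    have g2 := WW_eq.1 (Prod.mk.inj hab).2
    have g3 : ∀ (J : Finset (Fin 3)), pth J → Um v (nc q J) J a.1 a.2.1 = Um v (nc q J) J b.1 b.2.1 := fun J hJ =>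
      (LL_eq.1 (congrFun g1 ⟨J, hJ⟩)).1
    have gn : nd D (TP.nn q) a = nd D (TP.nn q) b := (Prod.mk.inj (Prod.mk.inj hab).2).2
    exact ⟨fun j => Prod.ext (congrFun g2.1 j) (g3 {j} (CKB.pth_one j)), Prod.ext (g3 ∅ CKB.pth_emp) gn⟩
  · rintro ⟨g1, g2⟩
    have gn : nd D (TP.nn q) a = nd D (TP.nn q) b := congrArg Prod.snd g2
    refine Prod.ext (funext fun J => ?_) (Prod.ext (funext fun j => congrArg Prod.fst (g1 j)) gn)
    show SL v q J.1 a = SL v q J.1 b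
    unfold SL
    rw [LL_eq]
    refine ⟨?_, fun l hl => absurd hl (hno J.1 J.2 l)⟩
    have hJ : J.1.card ≤ 1 := J.2
    rcases Finset.card_le_one_iff_subset_singleton.1 hJ with ⟨j, hj⟩
    rcases Finset.subset_singleton_iff.1 hj with h1 | h1
    · rw [h1]
      exact congrArg Prod.fst g2
    · rw [h1]
      exact congrArg Prod.snd (g1 j)

/-- the tops of `A` given all thin labels are the labels -/
theorem FA_lab (H : D.Hyp dg prr al T Lam) (R : Run h N SS (AdmDep D) v) (hS : ∀ l, univ.erase l ∈ SS) (hu : univ ∉ SS)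
    (hN : ∀ l, 0 < N (univ.erase l)) {q : ℕ} (hq : q / 5 ≤ T) (A : Finset (Fin 3)) {a b : Om W X β}
    (ha : tb.Ps.p a ≠ 0) (hb : tb.Ps.p b ≠ 0) :
    ((FA v (q / 5) A (tb.pt (q / 5) a), ZQ D v q (tb.pt (q / 5) a)) =
        (FA v (q / 5) A (tb.pt (q / 5) b), ZQ D v q (tb.pt (q / 5) b))) ↔
      ((∀ j, XLo tb v j q a = XLo tb v j q b) ∧ (∀ i ∈ A, TFo tb i q a = TFo tb i q b) ∧ NPo tb v q a = NPo tb v q b) := by
  have hp := pul_pt h tb hq
  have hTF : ∀ i, TFo tb i q a = TFo tb i q b ↔ (tb.pt (q / 5) a).2.2 i = (tb.pt (q / 5) b).2.2 i := by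
    intro i
    constructor
    · intro hh
      have h1 := congrFun hh (q / 5)
      unfold TFo at h1
      rw [if_pos ⟨le_rfl, hq⟩, if_pos ⟨le_rfl, hq⟩] at h1
      exact Option.some.inj h1
    · intro hh
      funext t'
      unfold TFo
      by_cases h3 : t' ≤ q / 5 ∧ t' ≤ T
      · rw [if_pos h3, if_pos h3, lab_hist tb h3.1 hq i ha hb hh]
      · rw [if_neg h3, if_neg h3]
  have hq5 : 5 * (q / 5) ≤ q := Nat.mul_div_le q 5
  have key : ZQ D v q (tb.pt (q / 5) a) = ZQ D v q (tb.pt (q / 5) b) → ∀ i,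
      (FQ v (q / 5) i (tb.pt (q / 5) a) = FQ v (q / 5) i (tb.pt (q / 5) b) ↔ TFo tb i q a = TFo tb i q b) := by
    intro hz i
    rw [hTF i]
    exact top_name H R hS hu hN hq hq5 (hp.ne ha) (hp.ne hb) (ZQ_Zb q i _ _ hz)
  constructor
  · intro hab
    have g1 := (Prod.mk.inj hab).1
    have g2 := (Prod.mk.inj hab).2
    have g3 := ZQ_TH.1 g2
    refine ⟨g3.1, fun i hi => ?_, g3.2⟩
    have h1 := congrFun g1 i
    unfold FA at h1
    rw [if_pos hi, if_pos hi] at h1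
    exact (key g2 i).1 (Option.some.inj h1)
  · rintro ⟨g1, g2, g3⟩
    have g4 : ZQ D v q (tb.pt (q / 5) a) = ZQ D v q (tb.pt (q / 5) b) := ZQ_TH.2 ⟨g1, g3⟩
    refine Prod.ext (funext fun i => ?_) g4
    show FA v (q / 5) A (tb.pt (q / 5) a) i = FA v (q / 5) A (tb.pt (q / 5) b) i
    unfold FA
    by_cases hi : i ∈ A
    · rw [if_pos hi, if_pos hi, (key g4 i).2 (g2 i hi)]
    · rw [if_neg hi, if_neg hi]

/-- masses of the tops and all thin labels -/
theorem m_top (H : D.Hyp dg prr al T Lam) (R : Run h N SS (AdmDep D) v) (hS : ∀ l, univ.erase l ∈ SS) (hu : univ ∉ SS)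
    (hN : ∀ l, 0 < N (univ.erase l)) {q : ℕ} (hq : q / 5 ≤ T) (A : Finset (Fin 3)) {w : Om W X β} (hw : tb.Ps.p w ≠ 0) :
    (D.P h (q / 5)).m (fun u => (FA v (q / 5) A u, ZQ D v q u)) (tb.pt (q / 5) w) =
      tb.Ps.m (fun u => (LF (MSi tb (v := v) d1 kb d0 k0 p1 z hd1 hd11 hkb hd0 hd01 hk0 hp1 hz) (univ, A) q u,
        NPo tb v q u)) w := by
  rw [← (pul_pt h tb hq).m (fun u => (FA v (q / 5) A u, ZQ D v q u)) w]
  unfold FP.m
  refine tb.Ps.E_congr fun u hu' => ?_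
  refine congrArg ind (propext ?_)
  rw [FA_lab tb H R hS hu hN hq A hu' hw]
  constructor
  · rintro ⟨g1, g2, g3⟩
    exact Prod.ext (LF_eq.2 ⟨fun j _ => g1 j, g2, YF_eq.2 fun j => congrArg Prod.fst (g1 j)⟩) g3
  · intro hab
    have g1 := LF_eq.1 (Prod.mk.inj hab).1
    exact ⟨fun j => g1.1 j (mem_univ j), g1.2.1, (Prod.mk.inj hab).2⟩

/-- **the table of the tops `A` given all thin labels** -/
theorem tab_Z (H : D.Hyp dg prr al T Lam) (R : Run h N SS (AdmDep D) v) (hS : ∀ l, univ.erase l ∈ SS) (hu : univ ∉ SS)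
    (hN : ∀ l, 0 < N (univ.erase l)) {q : ℕ} (hq : q / 5 ≤ T) (A : Finset (Fin 3)) {w : Om W X β} (hw : tb.Ps.p w ≠ 0) :
    Real.log ((D.P h (q / 5)).m (fun u => (FA v (q / 5) A u, ZQ D v q u)) (tb.pt (q / 5) w) /
        (D.P h (q / 5)).m (ZQ D v q) (tb.pt (q / 5) w)) =
      lt (MSi tb (v := v) d1 kb d0 k0 p1 z hd1 hd11 hkb hd0 hd01 hk0 hp1 hz) univ A q w := by
  have h1 := m_top tb hd1 hd11 hkb hd0 hd01 hk0 hp1 hz H R hS hu hN hq A hw
  have h2 := m_top tb hd1 hd11 hkb hd0 hd01 hk0 hp1 hz H R hS hu hN hq ∅ hw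
  have h3 : (D.P h (q / 5)).m (ZQ D v q) (tb.pt (q / 5) w) =
      (D.P h (q / 5)).m (fun u => (FA v (q / 5) ∅ u, ZQ D v q u)) (tb.pt (q / 5) w) := by
    refine (D.P h (q / 5)).m_congr ?_ (Fac.snd _ _) _
    intro a b hab
    refine Prod.ext (funext fun i => ?_) hab
    show FA v (q / 5) ∅ a i = FA v (q / 5) ∅ b i
    unfold FA
    rw [if_neg (Finset.notMem_empty i), if_neg (Finset.notMem_empty i)]
  rw [h3, h1, h2]
  rfl

/-! ### what one top sees -/

omit [Nonempty X] [Nonempty β] in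
/-- what the top `i` sees, with all points -/
theorem RW_eq {q : ℕ} {i : Fin 3} {a b : Pt (Fin 3) X β φ} :
    ((lo (SL v q) (univ.erase i) a, WW D (TP.nn q) a) = (lo (SL v q) (univ.erase i) b, WW D (TP.nn q) b)) ↔
      ((∀ j ∈ univ.erase i, XLq v q j a = XLq v q j b) ∧ (∀ j, a.2.1 j = b.2.1 j) ∧ NPq D v q a = NPq D v q b) := by
  have hno : ∀ (J : Finset (Fin 3)), pth J → ∀ l, univ.erase l ≠ J := fun J hJ l hh => by
    have key : ∀ l : Fin 3, ¬ (univ.erase l).card ≤ 1 := by decide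
    unfold pth at hJ
    rw [← hh] at hJ
    exact key l hJ
  have hsub : ∀ j ∈ univ.erase i, ({j} : Finset (Fin 3)) ⊂ univ.erase i := by
    have key : ∀ i : Fin 3, ∀ j ∈ univ.erase i, ({j} : Finset (Fin 3)) ⊂ univ.erase i := by decide
    exact key i
  have hemp : (∅ : Finset (Fin 3)) ⊂ univ.erase i := by
    have key : ∀ i : Fin 3, (∅ : Finset (Fin 3)) ⊂ univ.erase i := by decide
    exact key i
  constructor
  · intro hab
    have g1 := lo_eq.1 (Prod.mk.inj hab).1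
    have g2 := WW_eq.1 (Prod.mk.inj hab).2
    have gn : nd D (TP.nn q) a = nd D (TP.nn q) b := (Prod.mk.inj (Prod.mk.inj hab).2).2
    have g3 : ∀ I, I ⊂ univ.erase i → Um v (nc q I) I a.1 a.2.1 = Um v (nc q I) I b.1 b.2.1 := fun I hI =>
      (LL_eq.1 (g1 I hI)).1
    exact ⟨fun j hj => Prod.ext (congrFun g2.1 j) (g3 {j} (hsub j hj)), fun j => congrFun g2.1 j,
      Prod.ext (g3 ∅ hemp) gn⟩
  · rintro ⟨g1, g0, g2⟩
    have gn : nd D (TP.nn q) a = nd D (TP.nn q) b := congrArg Prod.snd g2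
    refine Prod.ext (lo_eq.2 fun I hI => ?_) (Prod.ext (funext g0) gn)
    have hI1 : pth I := lt_pth card3 (ne_univ i) hI
    unfold SL
    rw [LL_eq]
    refine ⟨?_, fun l hl => absurd hl (hno I hI1 l)⟩
    have hJ : I.card ≤ 1 := hI1
    rcases Finset.card_le_one_iff_subset_singleton.1 hJ with ⟨j, hj⟩
    rcases Finset.subset_singleton_iff.1 hj with h1 | h1
    · rw [h1]
      exact congrArg Prod.fst g2
    · rw [h1] at hI ⊢
      exact congrArg Prod.snd (g1 j (hI.subset (Finset.mem_singleton_self j)))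

/-- the mass of the top `i` and of what it sees, with all points -/
theorem m_one (H : D.Hyp dg prr al T Lam) (R : Run h N SS (AdmDep D) v) (hS : ∀ l, univ.erase l ∈ SS) (hu : univ ∉ SS)
    (hN : ∀ l, 0 < N (univ.erase l)) {q : ℕ} (hq : q / 5 ≤ T) (i : Fin 3) {w : Om W X β} (hw : tb.Ps.p w ≠ 0) :
    (D.P h (q / 5)).m (fun u => (FQ v (q / 5) i u, (lo (SL v q) (univ.erase i) u, WW D (TP.nn q) u))) (tb.pt (q / 5) w) =
      tb.Ps.m (fun u => (LF (MSi tb (v := v) d1 kb d0 k0 p1 z hd1 hd11 hkb hd0 hd01 hk0 hp1 hz) (univ.erase i, {i}) q u,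
        NPo tb v q u)) w := by
  have hp := pul_pt h tb hq
  rw [← hp.m (fun u => (FQ v (q / 5) i u, (lo (SL v q) (univ.erase i) u, WW D (TP.nn q) u))) w]
  unfold FP.m
  refine tb.Ps.E_congr fun u hu' => ?_
  refine congrArg ind (propext ?_)
  have hq5 : 5 * (q / 5) ≤ q := Nat.mul_div_le q 5
  have hTF : TFo tb i q u = TFo tb i q w ↔ (tb.pt (q / 5) u).2.2 i = (tb.pt (q / 5) w).2.2 i := by
    constructor
    · intro hh
      have h1 := congrFun hh (q / 5)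
      unfold TFo at h1
      rw [if_pos ⟨le_rfl, hq⟩, if_pos ⟨le_rfl, hq⟩] at h1
      exact Option.some.inj h1
    · intro hh
      funext t'
      unfold TFo
      by_cases h3 : t' ≤ q / 5 ∧ t' ≤ T
      · rw [if_pos h3, if_pos h3, lab_hist tb h3.1 hq i hu' hw hh]
      · rw [if_neg h3, if_neg h3]
  have key : (lo (SL v q) (univ.erase i) (tb.pt (q / 5) u), WW D (TP.nn q) (tb.pt (q / 5) u)) =
      (lo (SL v q) (univ.erase i) (tb.pt (q / 5) w), WW D (TP.nn q) (tb.pt (q / 5) w)) →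
      (FQ v (q / 5) i (tb.pt (q / 5) u) = FQ v (q / 5) i (tb.pt (q / 5) w) ↔ TFo tb i q u = TFo tb i q w) := by
    intro hz'
    rw [hTF]
    refine top_name H R hS hu hN hq hq5 (hp.ne hu') (hp.ne hw) ?_
    exact Prod.ext (Prod.mk.inj hz').1 (WW_BB D (TP.nn q) _ _ _ (Prod.mk.inj hz').2)
  constructor
  · intro hab
    have g1 := (Prod.mk.inj hab).1
    have g2 := (Prod.mk.inj hab).2
    have g3 := RW_eq.1 g2
    refine Prod.ext (LF_eq.2 ⟨g3.1, fun j hj => ?_, YF_eq.2 g3.2.1⟩) g3.2.2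
    rw [Finset.mem_singleton.1 hj]
    exact (key g2).1 g1
  · intro hab
    have g1 := LF_eq.1 (Prod.mk.inj hab).1
    have g2 : (lo (SL v q) (univ.erase i) (tb.pt (q / 5) u), WW D (TP.nn q) (tb.pt (q / 5) u)) =
        (lo (SL v q) (univ.erase i) (tb.pt (q / 5) w), WW D (TP.nn q) (tb.pt (q / 5) w)) :=
      RW_eq.2 ⟨g1.1, YF_eq.1 g1.2.2, (Prod.mk.inj hab).2⟩
    exact Prod.ext ((key g2).2 (g1.2.1 i (Finset.mem_singleton_self i))) g2

/-- the mass of what the top `i` sees, with all points -/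
theorem m_zero {q : ℕ} (hq : q / 5 ≤ T) (i : Fin 3) {w : Om W X β} :
    (D.P h (q / 5)).m (fun u => (lo (SL v q) (univ.erase i) u, WW D (TP.nn q) u)) (tb.pt (q / 5) w) =
      tb.Ps.m (fun u => (LF (MSi tb (v := v) d1 kb d0 k0 p1 z hd1 hd11 hkb hd0 hd01 hk0 hp1 hz) (univ.erase i, ∅) q u,
        NPo tb v q u)) w := by
  have hp := pul_pt h tb hq
  rw [← hp.m (fun u => (lo (SL v q) (univ.erase i) u, WW D (TP.nn q) u)) w]
  unfold FP.m
  refine tb.Ps.E_congr fun u hu' => ?_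
  refine congrArg ind (propext ?_)
  constructor
  · intro hab
    have g3 := RW_eq.1 hab
    exact Prod.ext (LF_eq.2 ⟨g3.1, fun j hj => absurd hj (Finset.notMem_empty j), YF_eq.2 g3.2.1⟩) g3.2.2
  · intro hab
    have g1 := LF_eq.1 (Prod.mk.inj hab).1
    exact RW_eq.2 ⟨g1.1, YF_eq.1 g1.2.2, (Prod.mk.inj hab).2⟩

/-- **the table of one top over its own thin letters** -/
theorem tab_Zb (H : D.Hyp dg prr al T Lam) (R : Run h N SS (AdmDep D) v) (hS : ∀ l, univ.erase l ∈ SS) (hu : univ ∉ SS)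
    (hN : ∀ l, 0 < N (univ.erase l)) {q : ℕ} (hq : q / 5 ≤ T) (i : Fin 3) {w : Om W X β} (hw : tb.Ps.p w ≠ 0) :
    Real.log ((D.P h (q / 5)).m (fun u => (FQ v (q / 5) i u, ZbQ D v q i u)) (tb.pt (q / 5) w) /
        (D.P h (q / 5)).m (ZbQ D v q i) (tb.pt (q / 5) w)) =
      lt (MSi tb (v := v) d1 kb d0 k0 p1 z hd1 hd11 hkb hd0 hd01 hk0 hp1 hz) (univ.erase i) {i} q w := by
  have hpw := (pul_pt h tb hq).ne hw
  have hq5 : 5 * (q / 5) ≤ q := Nat.mul_div_le q 5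
  have hnn : q / 5 ≤ TP.nn q := TP.nn_le q
  have h0 := pv_base h hnn (J := univ.erase i) (X' := FQ v (q / 5) i) (R := lo (SL v q) (univ.erase i))
    (LL_AA R.codes (by omega) (Finset.Subset.refl _))
    (fun a b hab => lo_eq.2 fun I hI => LL_AA R.codes (TP.nc_le q I) hI.subset a b hab) hpw
    (FQ v (q / 5) i (tb.pt (q / 5) w))
  rw [FP.pv_self, FP.pv_self] at h0
  have h1 := m_one tb hd1 hd11 hkb hd0 hd01 hk0 hp1 hz H R hS hu hN hq i hw
  have h2 := m_zero (h := h) tb hd1 hd11 hkb hd0 hd01 hk0 hp1 hz (v := v) hq i (w := w)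
  have h3 : (D.P h (q / 5)).m (fun u => (FQ v (q / 5) i u, ZbQ D v q i u)) (tb.pt (q / 5) w) /
      (D.P h (q / 5)).m (ZbQ D v q i) (tb.pt (q / 5) w) =
      tb.Ps.m (fun u => (LF (MSi tb (v := v) d1 kb d0 k0 p1 z hd1 hd11 hkb hd0 hd01 hk0 hp1 hz) (univ.erase i, {i}) q u,
        NPo tb v q u)) w /
      tb.Ps.m (fun u => (LF (MSi tb (v := v) d1 kb d0 k0 p1 z hd1 hd11 hkb hd0 hd01 hk0 hp1 hz) (univ.erase i, ∅) q u,
        NPo tb v q u)) w := by
    rw [← h1, ← h2]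
    exact h0.symm
  exact congrArg Real.log h3

end run

end

end Pool.Agent.GMH.KDL
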