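import Pool.Agent.GMH.TopAl
import Pool.Agent.GMH.RowV

/-!
# GMH/TopRow: a top and the missing thin letter (helper91)

Hypothesis `hD` of `Key3P.Gd_le_gn` for the states of the run: for an alive point `w`
`E (|P(F_d = x | Z) - P(F_d = x | Zb_d)| given Zb_d) ≤ d1 P(F_d = x | Zb_d)`, `F_d` = top without the vertex `d`.
* `dvW` : distance of the law of the letter of `k` under a weight of the hidden point (`RowV.dvC` for events);
  `dvW_le` : weights are means of events (coins); `dvW_test` : test functions of the letter;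
* `dvC_all`, `dvC_dig` : the distance of all events, state of the time `t`, and after the digit;
* `row_tv` : the row hypothesis from the distances.
-/

set_option autoImplicit false
set_option linter.unusedSectionVars false

namespace Pool.Agent.GMH.TP

open Finset Pool.Agent.PWZ Pool.Agent.M3 Pool.Agent.GM Pool.Agent.GM.Harm Pool.Agent.GMH Pool.Agent.GMH.NZ
open Pool.Agent.GMH.V3

noncomputable section

/-! ### coins -/

/-- a coin -/
def bern (p : ℝ) (h0 : 0 ≤ p) (h1 : p ≤ 1) : FP Bool where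
  p b := if b then p else 1 - p
  nn b := by
    cases b
    · simpa using h1
    · simpa using h0
  tot := by simp

theorem bern_E (p : ℝ) (h0 : 0 ≤ p) (h1 : p ≤ 1) : (bern p h0 h1).E (fun b => ind (b = true)) = p := by
  unfold FP.E
  rw [Fintype.sum_bool]
  show p * ind (true = true) + (1 - p) * ind (false = true) = p
  rw [ind_of rfl, ind_not (by simp)]
  ring

section wt

variable {X β γ φ υ : Type} [Fintype X] [Fintype β] [Fintype φ] [Nonempty X] [Nonempty β]
variable {D : HD (Fin 3) X β γ φ} {al : ℝ} {h : D.Thick al} {v : ℕ → Finset (Fin 3) → X → (Fin 3 → β) → υ}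

/-- codes of the vertex `k` at the point `b`, the other points as in `c` -/
def code (v : ℕ → Finset (Fin 3) → X → (Fin 3 → β) → υ) (s : ℕ) (c : Pt (Fin 3) X β φ) (k : Fin 3) (x : X) (b : β) :
    List υ := Um v s {k} x (Function.update c.2.1 k b)

variable (D v) in
/-- distance of the law of the letter of `k` under a weight of the hidden point -/
def dvW (s n : ℕ) (c : Pt (Fin 3) X β φ) (k : Fin 3) (g : X → ℝ) : ℝ :=
  ∑ z ∈ vals (XL (φ := φ) v s k), mC D n c k z.1 * |(muC D v s n c).E (fun x => g x * ind (Gl v s c k z x)) -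
    (muC D v s n c).E g * (muC D v s n c).Pr (Gl v s c k z)|

theorem dvW_ind (s n : ℕ) (c : Pt (Fin 3) X β φ) (k : Fin 3) (E : X → Prop) :
    dvW D v s n c k (fun x => ind (E x)) = dvC D v s n c k E := by
  unfold dvW dvC
  refine Finset.sum_congr rfl fun z _ => ?_
  have e : (muC D v s n c).E (fun x => ind (E x) * ind (Gl v s c k z x)) =
      (muC D v s n c).Pr (fun x => E x ∧ Gl v s c k z x) :=
    FP.E_congr _ fun x _ => (ind_and _ _).symm
  rw [e]
  rfl

/-- **weights are means of events** -/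
theorem dvW_le {s n : ℕ} {c : Pt (Fin 3) X β φ} {k : Fin 3} {κ B : ℝ}
    (hE : ∀ E : X → Prop, dvC D v s n c k E ≤ κ * (muC D v s n c).Pr E + B) {g : X → ℝ} (g0 : ∀ x, 0 ≤ g x)
    (g1 : ∀ x, g x ≤ 1) : dvW D v s n c k g ≤ κ * (muC D v s n c).E g + B := by
  classical
  set μ := muC D v s n c with hμ
  set R : FP (X → Bool) := FPpi fun x => bern (g x) (g0 x) (g1 x) with hR
  have e0 : ∀ x, R.E (fun θ => ind (θ x = true)) = g x := fun x => by
    rw [hR, FPpi_E (fun x => bern (g x) (g0 x) (g1 x)) x (fun b => ind (b = true))]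
    exact bern_E _ _ _
  have e1 : ∀ f : X → ℝ, μ.E (fun x => g x * f x) = R.E (fun θ => μ.E (fun x => ind (θ x = true) * f x)) := by
    intro f
    rw [← FP.E_swap μ R (fun x θ => ind (θ x = true) * f x)]
    refine μ.E_congr fun x _ => ?_
    rw [FP.E_mul_const, e0]
  have e2 : μ.E g = R.E (fun θ => μ.Pr (fun x => θ x = true)) := by
    have := e1 fun _ => 1
    simp only [mul_one] at this
    exact this
  have h1 : dvW D v s n c k g ≤ R.E (fun θ => dvC D v s n c k (fun x => θ x = true)) := by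
    unfold dvW dvC
    rw [FP.E_sum]
    refine Finset.sum_le_sum fun z _ => ?_
    rw [FP.E_smul]
    refine mul_le_mul_of_nonneg_left ?_ (mC_nonneg n c k z.1)
    rw [← hμ, e1 fun x => ind (Gl v s c k z x), e2, ← FP.E_mul_const, ← FP.E_sub]
    refine (FP.abs_E_le _ _).trans (le_of_eq (FP.E_congr _ fun θ _ => ?_))
    congr 2
    exact FP.E_congr _ fun x _ => (ind_and _ _).symm
  refine h1.trans ?_
  refine (FP.E_mono _ fun θ _ => hE fun x => θ x = true).trans (le_of_eq ?_)
  rw [FP.E_add, FP.E_smul, ← e2, FP.E_const]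

theorem mem_valsOf {Om κ : Type*} [Fintype Om] (f : Om → κ) (w : Om) : f w ∈ vals f := by
  classical
  unfold vals
  exact Finset.mem_image_of_mem f (mem_univ w)

/-- test functions of the letter as sums over the letters -/
theorem E_gl [Nonempty φ] (s n : ℕ) (c : Pt (Fin 3) X β φ) (k : Fin 3) (μ : FP X) (g : X → ℝ) (f : β × List υ → ℝ) :
    μ.E (fun x => g x * (nuC D n c k).E (fun b => f (b, code v s c k x b))) =
      ∑ z ∈ vals (XL (φ := φ) v s k), mC D n c k z.1 * (f z * μ.E (fun x => g x * ind (Gl v s c k z x))) := by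
  classical
  have h1 : ∀ x b, f (b, code v s c k x b) =
      ∑ z ∈ vals (XL (φ := φ) v s k), ind (b = z.1) * (f z * ind (Gl v s c k z x)) := by
    intro x b
    rw [Finset.sum_eq_single (b, code v s c k x b)]
    · have e1 : Gl v s c k (b, code v s c k x b) x := rfl
      rw [ind_of (rfl : b = (b, code v s c k x b).1), ind_of e1, one_mul, mul_one]
    · intro z _ hz
      by_cases hb : b = z.1
      · have e2 : ¬ Gl v s c k z x := by
          intro hh
          refine hz (Prod.ext hb.symm ?_)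
          show z.2 = code v s c k x b
          unfold code
          rw [hb]
          exact hh.symm
        rw [ind_not e2, mul_zero, mul_zero]
      · rw [ind_not hb, zero_mul]
    · intro hn
      exfalso
      apply hn
      obtain ⟨F0⟩ := ‹Nonempty φ›
      have := mem_valsOf (XL (φ := φ) v s k) (x, Function.update c.2.1 k b, fun _ => F0)
      have e3 : XL (φ := φ) v s k (x, Function.update c.2.1 k b, fun _ => F0) = (b, code v s c k x b) := by
        unfold XL code
        simp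
      rwa [e3] at this
  have h2 : ∀ x, (nuC D n c k).E (fun b => f (b, code v s c k x b)) =
      ∑ z ∈ vals (XL (φ := φ) v s k), mC D n c k z.1 * (f z * ind (Gl v s c k z x)) := by
    intro x
    simp only [h1 x]
    rw [FP.E_sum]
    refine Finset.sum_congr rfl fun z _ => ?_
    rw [FP.E_mul_const]
    rfl
  simp only [h2, Finset.mul_sum]
  rw [FP.E_sum]
  refine Finset.sum_congr rfl fun z _ => ?_
  rw [← FP.E_smul, ← FP.E_smul]
  exact FP.E_congr _ fun x _ => by ring

/-- **test functions** -/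
theorem dvW_test [Nonempty φ] (s n : ℕ) (c : Pt (Fin 3) X β φ) (k : Fin 3) (g : X → ℝ) {f : β × List υ → ℝ}
    (hf : ∀ z, |f z| ≤ 1) :
    |(muC D v s n c).E (fun x => g x * (nuC D n c k).E (fun b => f (b, code v s c k x b))) -
      (muC D v s n c).E g * (muC D v s n c).E (fun x => (nuC D n c k).E (fun b => f (b, code v s c k x b)))| ≤
      dvW D v s n c k g := by
  classical
  set μ := muC D v s n c with hμ
  have e1 := E_gl (D := D) (v := v) s n c k μ g f
  have e2 := E_gl (D := D) (v := v) s n c k μ (fun _ => 1) f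
  simp only [one_mul] at e2
  rw [e1, e2, Finset.mul_sum, ← Finset.sum_sub_distrib]
  refine (Finset.abs_sum_le_sum_abs _ _).trans ?_
  unfold dvW
  refine Finset.sum_le_sum fun z _ => ?_
  have e3 : mC D n c k z.1 * (f z * μ.E (fun x => g x * ind (Gl v s c k z x))) -
      μ.E g * (mC D n c k z.1 * (f z * μ.E (fun x => ind (Gl v s c k z x)))) =
      mC D n c k z.1 * (f z * (μ.E (fun x => g x * ind (Gl v s c k z x)) - μ.E g * μ.Pr (Gl v s c k z))) := by
    unfold FP.Pr
    ring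
  rw [e3, abs_mul, abs_mul, abs_of_nonneg (mC_nonneg n c k z.1)]
  refine mul_le_mul_of_nonneg_left ?_ (mC_nonneg n c k z.1)
  have := mul_le_mul_of_nonneg_right (hf z)
    (abs_nonneg (μ.E (fun x => g x * ind (Gl v s c k z x)) - μ.E g * μ.Pr (Gl v s c k z)))
  rw [one_mul] at this
  exact this

/-- trivial bound -/
theorem dvC_two [Nonempty φ] (s n : ℕ) (c : Pt (Fin 3) X β φ) (k : Fin 3) (E : X → Prop) :
    dvC D v s n c k E ≤ 2 * (muC D v s n c).Pr E := by
  classical
  set μ := muC D v s n c with hμ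
  have e1 := E_gl (D := D) (v := v) s n c k μ (fun x => ind (E x)) (fun _ => 1)
  have e2 := E_gl (D := D) (v := v) s n c k μ (fun _ => 1) (fun _ => 1)
  simp only [one_mul, FP.E_const, mul_one] at e1 e2
  have h1 : dvC D v s n c k E ≤ ∑ z ∈ vals (XL (φ := φ) v s k),
      (mC D n c k z.1 * μ.E (fun x => ind (E x) * ind (Gl v s c k z x)) +
        μ.Pr E * (mC D n c k z.1 * μ.E (fun x => ind (Gl v s c k z x)))) := by
    unfold dvC
    refine Finset.sum_le_sum fun z _ => ?_
    have e3 : μ.Pr (fun x => E x ∧ Gl v s c k z x) = μ.E (fun x => ind (E x) * ind (Gl v s c k z x)) :=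
      FP.E_congr _ fun x _ => ind_and _ _
    rw [← hμ, e3]
    have n1 : 0 ≤ μ.E (fun x => ind (E x) * ind (Gl v s c k z x)) :=
      FP.E_nonneg _ fun _ _ => mul_nonneg (ind_nonneg _) (ind_nonneg _)
    have n2 : 0 ≤ μ.Pr E * μ.Pr (Gl v s c k z) := mul_nonneg (FP.Pr_nonneg _ _) (FP.Pr_nonneg _ _)
    have n3 : |μ.E (fun x => ind (E x) * ind (Gl v s c k z x)) - μ.Pr E * μ.Pr (Gl v s c k z)| ≤
        μ.E (fun x => ind (E x) * ind (Gl v s c k z x)) + μ.Pr E * μ.Pr (Gl v s c k z) := by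
      refine (abs_sub _ _).trans ?_
      rw [abs_of_nonneg n1, abs_of_nonneg n2]
    have n4 := mul_le_mul_of_nonneg_left n3 (mC_nonneg (D := D) n c k z.1)
    have e4 : μ.E (fun x => ind (Gl v s c k z x)) = μ.Pr (Gl v s c k z) := rfl
    rw [e4]
    linarith
  rw [Finset.sum_add_distrib, ← Finset.mul_sum, ← e1, ← e2] at h1
  have e5 : μ.E (fun x => ind (E x)) = μ.Pr E := rfl
  rw [e5] at h1
  linarith

/-! ### the class of what the top sees -/

theorem Zb_idx : ∀ (d : Fin 3) (I : Finset (Fin 3)), I ⊂ univ.erase d ↔ I = ∅ ∨ ∃ j, j ≠ d ∧ I = {j} := by decide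

theorem no_top : ∀ (l : Fin 3) (I : Finset (Fin 3)), I.card ≤ 1 → univ.erase l ≠ I := by decide

variable (v) in
/-- the hidden points with the letters of `c` at the vertices other than `d` -/
def K0 (q : ℕ) (d : Fin 3) (c : Pt (Fin 3) X β φ) (x : X) : Prop :=
  ∀ j, j ≠ d → Um v (nc q {j}) {j} x c.2.1 = Um v (nc q {j}) {j} c.1 c.2.1

/-- what the top sees : public cell, exact points, letters -/
theorem Zb_iff (hv : Codes D v) (q : ℕ) (d : Fin 3) (c u : Pt (Fin 3) X β φ) : ZbQ D v q d u = ZbQ D v q d c ↔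
    NP D v (nc q ∅) (nn q) u = NP D v (nc q ∅) (nn q) c ∧ (∀ j, j ≠ d → u.2.1 j = c.2.1 j) ∧ K0 v q d c u.1 := by
  have hle : ∀ J, nc q J ≤ nn q + 1 := nc_le q
  have e1 : ZbQ D v q d u = ZbQ D v q d c ↔ (∀ I, I ⊂ univ.erase d → SL v q I u = SL v q I c) ∧
      BB D (nn q) (univ.erase d) u = BB D (nn q) (univ.erase d) c := by
    unfold ZbQ
    rw [Prod.mk.injEq, lo_eq]
  have e2 : ∀ I, I ⊂ univ.erase d → (SL v q I u = SL v q I c ↔ Um v (nc q I) I u.1 u.2.1 = Um v (nc q I) I c.1 c.2.1) := by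
    intro I hI
    unfold SL
    rw [LL_eq]
    refine ⟨fun hh => hh.1, fun hh => ⟨hh, fun l hl => ?_⟩⟩
    exfalso
    refine no_top l I ?_ hl
    have := Finset.card_lt_card hI
    have h3 : (univ.erase d : Finset (Fin 3)).card = 2 := by
      have key : ∀ d : Fin 3, (univ.erase d : Finset (Fin 3)).card = 2 := by decide
      exact key d
    omega
  rw [e1, BB_eq]
  unfold NP nd K0
  rw [Prod.mk.injEq, Prod.mk.injEq, funext_iff]
  constructor
  · rintro ⟨h1, h2, h3, h4⟩
    have hy : ∀ j, j ≠ d → u.2.1 j = c.2.1 j := fun j hj => h2 j (Finset.mem_erase.2 ⟨hj, mem_univ j⟩)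
    refine ⟨⟨(e2 ∅ ((Zb_idx d ∅).2 (Or.inl rfl))).1 (h1 ∅ ((Zb_idx d ∅).2 (Or.inl rfl))), h3, h4⟩, hy, fun j hj => ?_⟩
    have hI : ({j} : Finset (Fin 3)) ⊂ univ.erase d := (Zb_idx d {j}).2 (Or.inr ⟨j, hj, rfl⟩)
    rw [← (e2 {j} hI).1 (h1 {j} hI)]
    exact (Um_codes hv (hle {j}) {j} u.1 (fun i hi => by rw [Finset.mem_singleton.1 hi]; exact (hy j hj).symm)
      fun i => (h4 i).symm)
  · rintro ⟨⟨h1, h3, h4⟩, hy, h5⟩
    refine ⟨fun I hI => (e2 I hI).2 ?_, fun j hj => hy j (Finset.ne_of_mem_erase hj), h3, h4⟩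
    rcases (Zb_idx d I).1 hI with rfl | ⟨j, hj, rfl⟩
    · exact h1
    · rw [← h5 j hj]
      exact (Um_codes hv (hle {j}) {j} u.1 (fun i hi => by rw [Finset.mem_singleton.1 hi]; exact hy j hj) h4)

/-- exact points off `d` in a public cell -/
theorem cell_G (hv : Codes D v) (t : ℕ) {s n : ℕ} (hs : s ≤ n + 1) (c : Pt (Fin 3) X β φ) (d : Fin 3) (G : X → β → ℝ) :
    (D.P h t).E (fun u => ind (NP D v s n u = NP D v s n c) *
      (G u.1 (u.2.1 d) * ∏ j ∈ univ.erase d, ind (u.2.1 j = c.2.1 j))) =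
    (((FP.unif X).Pr (cX D v s n c) * ∏ j, (FP.unif β).Pr (cY D n c j)) * ∏ j ∈ univ.erase d, mC D n c j (c.2.1 j)) *
      (muC D v s n c).E (fun x => (nuC D n c d).E (G x)) := by
  classical
  set M := (FP.unif X).Pr (cX D v s n c) * ∏ j, (FP.unif β).Pr (cY D n c j) with hM
  have e1 : ∀ x b', G x b' = ∑ b : β, ind (b' = b) * G x b := by
    intro x b'
    rw [Finset.sum_eq_single b']
    · rw [ind_of rfl, one_mul]
    · intro b _ hb; rw [ind_not (Ne.symm hb), zero_mul]
    · intro hn; exact absurd (mem_univ _) hn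
  have e2 : (D.P h t).E (fun u => ind (NP D v s n u = NP D v s n c) *
      (G u.1 (u.2.1 d) * ∏ j ∈ univ.erase d, ind (u.2.1 j = c.2.1 j))) =
      ∑ b : β, (D.P h t).E (fun u => ind (NP D v s n u = NP D v s n c) *
        (G u.1 b * ∏ j, (if j = d then ind (u.2.1 j = b) else ind (u.2.1 j = c.2.1 j)))) := by
    rw [← FP.E_sum]
    refine FP.E_congr _ fun u _ => ?_
    rw [← Finset.mul_sum]
    congr 1
    conv_lhs => rw [e1 u.1 (u.2.1 d)]
    rw [Finset.sum_mul]
    refine Finset.sum_congr rfl fun b _ => ?_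
    rw [← Finset.mul_prod_erase univ (fun j => if j = d then ind (u.2.1 j = b) else ind (u.2.1 j = c.2.1 j)) (mem_univ d),
      if_pos rfl]
    have e3 : ∏ j ∈ univ.erase d, (if j = d then ind (u.2.1 j = b) else ind (u.2.1 j = c.2.1 j)) =
        ∏ j ∈ univ.erase d, ind (u.2.1 j = c.2.1 j) :=
      Finset.prod_congr rfl fun j hj => by rw [if_neg (Finset.ne_of_mem_erase hj)]
    rw [e3]
    ring
  rw [e2]
  have e4 : ∀ b : β, (D.P h t).E (fun u => ind (NP D v s n u = NP D v s n c) *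
        (G u.1 b * ∏ j, (if j = d then ind (u.2.1 j = b) else ind (u.2.1 j = c.2.1 j)))) =
      M * (∏ j ∈ univ.erase d, mC D n c j (c.2.1 j)) * (mC D n c d b * (muC D v s n c).E (fun x => G x b)) := by
    intro b
    have h1 := cell_E (h := h) hv t hs c (fun x => G x b)
      (fun j b' => if j = d then ind (b' = b) else ind (b' = c.2.1 j))
    rw [h1, ← hM]
    have h2 : ∏ j, (nuC D n c j).E (fun b' => if j = d then ind (b' = b) else ind (b' = c.2.1 j)) =
        mC D n c d b * ∏ j ∈ univ.erase d, mC D n c j (c.2.1 j) := by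
      rw [← Finset.mul_prod_erase univ _ (mem_univ d)]
      congr 1
      · simp only [if_true]; rfl
      · refine Finset.prod_congr rfl fun j hj => ?_
        simp only [Finset.ne_of_mem_erase hj, if_false]
        rfl
    rw [h2]
    ring
  rw [Finset.sum_congr rfl fun b _ => e4 b, ← Finset.mul_sum]
  congr 1
  have e5 : ∀ x, (nuC D n c d).E (G x) = ∑ b : β, mC D n c d b * G x b := by
    intro x
    have h3 : (nuC D n c d).E (G x) = (nuC D n c d).E (fun b' => ∑ b : β, ind (b' = b) * G x b) :=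
      FP.E_congr _ fun b' _ => e1 x b'
    rw [h3, FP.E_sum]
    exact Finset.sum_congr rfl fun b _ => FP.E_mul_const _ _ _
  simp only [e5]
  rw [FP.E_sum]
  exact Finset.sum_congr rfl fun b _ => (FP.E_smul _ _ _).symm

variable (D v) in
/-- the mass of the public cell and of the exact points -/
def Mz (q : ℕ) (d : Fin 3) (c : Pt (Fin 3) X β φ) : ℝ :=
  ((FP.unif X).Pr (cX D v (nc q ∅) (nn q) c) * ∏ j, (FP.unif β).Pr (cY D (nn q) c j)) *
    ∏ j ∈ univ.erase d, mC D (nn q) c j (c.2.1 j)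

/-- a function of the hidden point and of the point of `d` in the class of `c` -/
theorem cls_E (hv : Codes D v) (t q : ℕ) (c : Pt (Fin 3) X β φ) (d : Fin 3) (G : X → β → ℝ) :
    (D.P h t).E (fun u => ind (ZbQ D v q d u = ZbQ D v q d c) * G u.1 (u.2.1 d)) =
    Mz D v q d c * (muC D v (nc q ∅) (nn q) c).E (fun x => ind (K0 v q d c x) * (nuC D (nn q) c d).E (G x)) := by
  classical
  have h1 := cell_G (h := h) hv t (nc_le q ∅) c d (fun x b => ind (K0 v q d c x) * G x b)
  simp only [FP.E_smul] at h1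
  unfold Mz
  rw [← h1]
  refine FP.E_congr _ fun u _ => ?_
  have e1 : ∏ j ∈ univ.erase d, ind (u.2.1 j = c.2.1 j) = ind (∀ j, j ≠ d → u.2.1 j = c.2.1 j) := by
    by_cases hh : ∀ j, j ≠ d → u.2.1 j = c.2.1 j
    · rw [ind_of hh]
      exact Finset.prod_eq_one fun j hj => ind_of (hh j (Finset.ne_of_mem_erase hj))
    · rw [ind_not hh]
      push Not at hh
      obtain ⟨j, hj, hne⟩ := hh
      exact Finset.prod_eq_zero (Finset.mem_erase.2 ⟨hj, mem_univ j⟩) (ind_not hne)
  rw [e1, ind_cg (Zb_iff hv q d c u), ind_and, ind_and]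
  ring

/-- the same with the label of `d` -/
theorem cls_lab (hv : Codes D v) {t q : ℕ} (hq : t ≤ nn q) (c : Pt (Fin 3) X β φ) (d : Fin 3) (G : X → β → ℝ) (F0 : φ) :
    (D.P h t).E (fun u => ind (ZbQ D v q d u = ZbQ D v q d c) * (ind (u.2.2 d = F0) * G u.1 (u.2.1 d))) =
    Mz D v q d c * (muC D v (nc q ∅) (nn q) c).E
      (fun x => ind (K0 v q d c x) * (D.kf t d x c.2.1 F0 * (nuC D (nn q) c d).E (G x))) := by
  classical
  obtain ⟨w1, _⟩ := (D.P h t).exists_p_ne
  have e1 : (D.P h t).E (fun u => ind (ZbQ D v q d u = ZbQ D v q d c) * (ind (u.2.2 d = F0) * G u.1 (u.2.1 d))) =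
      (D.P h t).E (fun u => ind (ZbQ D v q d u = ZbQ D v q d c) * (D.kf t d u.1 c.2.1 F0 * G u.1 (u.2.1 d))) := by
    have h1 := E_labels h {d} t (fun x y => ind (ZbQ D v q d (x, y, w1.2.2) = ZbQ D v q d c) * G x (y d)) (fun _ => F0)
    have h2 := E_labels0 h t (fun x y => ind (ZbQ D v q d (x, y, w1.2.2) = ZbQ D v q d c) * G x (y d) * D.kf t d x y F0)
    simp only [Finset.mem_singleton, forall_eq, Finset.prod_singleton] at h1
    have h3 : (D.P h t).E (fun w => ind (ZbQ D v q d (w.1, w.2.1, w1.2.2) = ZbQ D v q d c) * G w.1 (w.2.1 d) *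
        ind (w.2.2 d = F0)) = (D.P h t).E (fun w => ind (ZbQ D v q d (w.1, w.2.1, w1.2.2) = ZbQ D v q d c) *
          G w.1 (w.2.1 d) * D.kf t d w.1 w.2.1 F0) := by
      rw [h1, h2]
      rfl
    have e3 : ∀ u : Pt (Fin 3) X β φ, ZbQ D v q d (u.1, u.2.1, w1.2.2) = ZbQ D v q d u := fun u =>
      ZbQ_xy q d u.1 u.2.1 w1.2.2 u.2.2
    simp only [e3] at h3
    calc _ = (D.P h t).E (fun w => ind (ZbQ D v q d w = ZbQ D v q d c) * G w.1 (w.2.1 d) * ind (w.2.2 d = F0)) :=
          FP.E_congr _ fun u _ => by ring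
      _ = _ := h3
      _ = _ := FP.E_congr _ fun u _ => by
          by_cases hz : ZbQ D v q d u = ZbQ D v q d c
          · have h5 := Zb_pts hz
            rw [ind_of hz, D.dep t d u.1 u.2.1 c.2.1 h5.1 (qb_mono D hq (h5.2.2 d))]
            ring
          · rw [ind_not hz]; ring
  rw [e1]
  have h6 := cls_E (h := h) hv t q c d (fun x b => D.kf t d x c.2.1 F0 * G x b)
  simp only [FP.E_smul] at h6
  exact h6

end wt

/-! ### distance of the conditional laws -/

section gen

variable {Om : Type*} [Fintype Om] (P : FP Om) {α β' φ' : Type*} {Zb : Om → α} {Z : Om → β'} (F : Om → φ')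

/-- the mean distance from the deviation of events -/
theorem tv_class (hZ : Fac Z Zb) {w : Om} (hw : P.p w ≠ 0) (x : φ') {δ : ℝ}
    (hδ : ∀ A : Om → Prop, Fac Z A → P.ce Zb (fun u => ind (F u = x) * ind (A u)) w -
      P.pv Zb F w x * P.ce Zb (fun u => ind (A u)) w ≤ δ * P.pv Zb F w x) :
    P.ce Zb (fun u => |P.pv Z F u x - P.pv Zb F u x|) w ≤ 2 * δ * P.pv Zb F w x := by
  classical
  set A : Om → Prop := fun u => P.pv Zb F u x < P.pv Z F u x with hA
  have fz : Fac Z (fun u => P.pv Z F u x) := P.pv_fac _ _ _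
  have fb : Fac Zb (fun u => P.pv Zb F u x) := P.pv_fac _ _ _
  have fA : Fac Z A := fun a b hab => by
    show (P.pv Zb F a x < P.pv Z F a x) = (P.pv Zb F b x < P.pv Z F b x)
    rw [show P.pv Z F a x = P.pv Z F b x from fz a b hab, show P.pv Zb F a x = P.pv Zb F b x from fb a b (hZ a b hab)]
  have fI : Fac Z (fun u => ind (A u)) := fA.comp fun q => ind q
  have e1 : ∀ u, |P.pv Z F u x - P.pv Zb F u x| =
      2 * (ind (A u) * (P.pv Z F u x - P.pv Zb F u x)) - (P.pv Z F u x - P.pv Zb F u x) := by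
    intro u
    by_cases h : A u
    · have h' : P.pv Zb F u x < P.pv Z F u x := h
      rw [ind_of h, abs_of_nonneg (by linarith)]; ring
    · have h' : ¬ P.pv Zb F u x < P.pv Z F u x := h
      rw [ind_not h, abs_of_nonpos (by linarith)]; ring
  have t1 : P.ce Zb (fun u => P.pv Z F u x) w = P.pv Zb F w x := P.ce_tower hZ (fun u => ind (F u = x)) w
  have t2 : P.ce Zb (fun u => P.pv Zb F u x) w = P.pv Zb F w x := P.ce_of_fac fb hw
  have t3 : P.ce Zb (fun u => ind (A u) * P.pv Z F u x) w = P.ce Zb (fun u => ind (F u = x) * ind (A u)) w := by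
    have h1 := P.ce_tower hZ (fun u => ind (A u) * ind (F u = x)) w
    have h2 : P.ce Z (fun u => ind (A u) * ind (F u = x)) = fun u => ind (A u) * P.pv Z F u x := by
      funext u
      exact P.ce_mul fI (fun u => ind (F u = x)) u
    rw [h2] at h1
    rw [h1]
    exact P.ce_congr (fun u _ => by ring) w
  have t4 : P.ce Zb (fun u => ind (A u) * P.pv Zb F u x) w = P.pv Zb F w x * P.ce Zb (fun u => ind (A u)) w := by
    rw [← P.ce_mul fb]
    exact P.ce_congr (fun u _ => by ring) w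
  have e2 : P.ce Zb (fun u => |P.pv Z F u x - P.pv Zb F u x|) w =
      2 * (P.ce Zb (fun u => ind (F u = x) * ind (A u)) w - P.pv Zb F w x * P.ce Zb (fun u => ind (A u)) w) := by
    simp only [e1]
    rw [P.ce_sub, P.ce_smul, P.ce_sub, t1, t2]
    have e3 : P.ce Zb (fun u => ind (A u) * (P.pv Z F u x - P.pv Zb F u x)) w =
        P.ce Zb (fun u => ind (A u) * P.pv Z F u x) w - P.ce Zb (fun u => ind (A u) * P.pv Zb F u x) w := by
      rw [← P.ce_sub]
      exact P.ce_congr (fun u _ => by ring) w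
    rw [e3, t3, t4]
    ring
  rw [e2]
  have := hδ A fA
  linarith

end gen

/-! ### the row of a top -/

section row

variable {X β γ φ : Type} [Fintype X] [Fintype β] [Fintype φ] [Nonempty X] [Nonempty β]
variable {D : HD (Fin 3) X β γ φ} {al : ℝ} {h : D.Thick al} {N : Finset (Fin 3) → ℝ} {S : Finset (Finset (Fin 3))}
  {v : ℕ → Finset (Fin 3) → X → (Fin 3 → β) → Pt (Fin 3) X β φ} {dg : ℕ → X → ℝ} {prr : ℕ → Fin 3 → φ → φ} {T : ℕ}
  {Lam : ℝ}

theorem nuC_p_nonneg (n : ℕ) (c : Pt (Fin 3) X β φ) (j : Fin 3) : 0 < mC D n c j (c.2.1 j) := by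
  have h4 : (nuC D n c j).p (c.2.1 j) ≠ 0 := by
    unfold nuC
    refine (FP.cond_p_ne (unif_ne (cY_self n c j))).2 ⟨cY_self n c j, ?_⟩
    show (Fintype.card β : ℝ)⁻¹ ≠ 0
    exact inv_ne_zero (by exact_mod_cast Fintype.card_ne_zero)
  exact FP.Pr_pos_of (P := nuC D n c j) (S := fun b => b = c.2.1 j) h4 rfl

theorem Mz_pos (q : ℕ) (d : Fin 3) (c : Pt (Fin 3) X β φ) : 0 < Mz D v q d c := by
  unfold Mz
  refine mul_pos (mul_pos ?_ ?_) ?_
  · exact lt_of_le_of_ne (FP.Pr_nonneg _ _) (Ne.symm (unif_ne (cX_self _ _ c)))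
  · exact Finset.prod_pos fun j _ => lt_of_le_of_ne (FP.Pr_nonneg _ _) (Ne.symm (unif_ne (cY_self _ c j)))
  · exact Finset.prod_pos fun j _ => nuC_p_nonneg _ c j

/-- a prefix of the codes -/
theorem take_Um {s s' : ℕ} (hs : s' ≤ s) (I : Finset (Fin 3)) (x : X) (y : Fin 3 → β) :
    (Um v s I x y).take s' = Um v s' I x y := by
  unfold Um
  rw [← List.map_take, List.take_range, min_eq_left hs]

/-- kernels are at most one -/
theorem kf_le_one (h : D.Thick al) (t : ℕ) (l : Fin 3) (x : X) (y : Fin 3 → β) (F : φ) : D.kf t l x y F ≤ 1 := by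
  classical
  rw [← h.one t l x y]
  exact Finset.single_le_sum (f := fun F => D.kf t l x y F) (fun F _ => h.nn t l x y F) (mem_univ F)

/-- **THE ROW OF A TOP** : `κ`, `B` from the distances of the events, `p0` = mass of the pair of letters -/
theorem row_tv (H : D.Hyp dg prr al T Lam) (R : Run h N S (AdmDep D) v) (hS : ∀ l, univ.erase l ∈ S) (hu : univ ∉ S)
    (hN : ∀ l, 0 < N (univ.erase l)) {t q : ℕ} (ht : t ≤ T) (hq : 5 * t ≤ q) {d : Fin 3} (hsd : nc q {d} ≤ nc q ∅)
    {w : Pt (Fin 3) X β φ} (hw : (D.P h t).p w ≠ 0) {κ B p0 : ℝ} (hB : 0 ≤ B) (hp0 : 0 < p0)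
    (hE : ∀ E : X → Prop, dvC D v (nc q ∅) (nn q) w d E ≤ κ * (muC D v (nc q ∅) (nn q) w).Pr E + B)
    (hpr : p0 ≤ (muC D v (nc q ∅) (nn q) w).Pr (K0 v q d w)) (x : List (Pt (Fin 3) X β φ) × (Fin 3 → Option φ)) :
    (D.P h t).ce (ZbQ D v q d) (fun u => |(D.P h t).pv (ZQ D v q) (FQ v t d) u x -
      (D.P h t).pv (ZbQ D v q d) (FQ v t d) u x|) w ≤
      (4 * κ + 4 * B / (al * p0)) * (D.P h t).pv (ZbQ D v q d) (FQ v t d) w x := by
  classical
  have : Nonempty φ := ⟨w.2.2 0⟩
  set P := D.P h t with hP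
  set s := nc q ∅ with hs
  set n := nn q with hn
  set μ := muC D v s n w with hμ
  set ν := nuC D n w d with hν
  have hv := R.codes
  have htn : t ≤ n := by
    have := nn_mono hq
    rwa [nn_0] at this
  by_cases hx0 : P.pv (ZbQ D v q d) (FQ v t d) w x = 0
  · rw [hx0, mul_zero]
    have e1 : P.ce (ZbQ D v q d) (fun u => |P.pv (ZQ D v q) (FQ v t d) u x - P.pv (ZbQ D v q d) (FQ v t d) u x|) w = 0 := by
      unfold FP.ce
      have e2 : P.E (fun u => ind (ZbQ D v q d u = ZbQ D v q d w) *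
          |P.pv (ZQ D v q) (FQ v t d) u x - P.pv (ZbQ D v q d) (FQ v t d) u x|) = 0 := by
        refine (P.E_congr fun u _ => ?_).trans (P.E_const 0)
        by_cases hz : ZbQ D v q d u = ZbQ D v q d w
        · have e3 : P.pv (ZbQ D v q d) (FQ v t d) u x = 0 := by
            have h1 : P.pv (ZbQ D v q d) (FQ v t d) u x = P.pv (ZbQ D v q d) (FQ v t d) w x := P.pv_fac _ _ _ u w hz
            rw [h1, hx0]
          have e4 : P.pv (ZQ D v q) (FQ v t d) u x = 0 := P.pv_ac (ZQ_Zb q d) (FQ v t d) e3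
          rw [e3, e4, sub_self, abs_zero, mul_zero]
        · rw [ind_not hz, zero_mul]
      rw [e2, zero_div]
    rw [e1]
  · -- a point with this value
    obtain ⟨u0, hu0, hz0, hx⟩ : ∃ u0, P.p u0 ≠ 0 ∧ ZbQ D v q d u0 = ZbQ D v q d w ∧ FQ v t d u0 = x := by
      by_contra hcon
      push Not at hcon
      apply hx0
      unfold FP.pv FP.ce
      have e2 : P.E (fun u => ind (ZbQ D v q d u = ZbQ D v q d w) * ind (FQ v t d u = x)) = 0 := by
        refine (P.E_congr fun u hu' => ?_).trans (P.E_const 0)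
        by_cases hz : ZbQ D v q d u = ZbQ D v q d w
        · rw [ind_not (hcon u hu' hz), mul_zero]
        · rw [ind_not hz, zero_mul]
      rw [e2, zero_div]
    set F0 := u0.2.2 d with hF0
    have hlab : ∀ u, P.p u ≠ 0 → ZbQ D v q d u = ZbQ D v q d w → (FQ v t d u = x ↔ u.2.2 d = F0) := by
      intro u hu' hz
      rw [← hx]
      exact top_name H R hS hu hN ht hq hu' hu0 (hz.trans hz0.symm)
    -- weights
    set g1 : X → ℝ := fun x' => ind (K0 v q d w x') with hg1
    set g2 : X → ℝ := fun x' => ind (K0 v q d w x') * D.kf t d x' w.2.1 F0 with hg2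
    have g10 : ∀ x', 0 ≤ g1 x' := fun x' => ind_nonneg _
    have g11 : ∀ x', g1 x' ≤ 1 := fun x' => ind_le_one _
    have g20 : ∀ x', 0 ≤ g2 x' := fun x' => mul_nonneg (ind_nonneg _) (h.nn _ _ _ _ _)
    have g21 : ∀ x', g2 x' ≤ 1 := fun x' =>
      mul_le_one₀ (ind_le_one _) (h.nn _ _ _ _ _) (kf_le_one h t d x' w.2.1 F0)
    have k1 := dvW_le hE g10 g11
    have k2 := dvW_le hE g20 g21
    have hc1 : p0 ≤ μ.E g1 := hpr
    have hc2 : al * p0 ≤ μ.E g2 := by
      refine (mul_le_mul_of_nonneg_left hpr h.pos.le).trans ?_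
      unfold FP.Pr
      rw [← FP.E_smul]
      refine FP.E_mono _ fun x' hx' => ?_
      by_cases hk : K0 v q d w x'
      · simp only [hg2]
        rw [ind_of hk, mul_one, one_mul]
        have h1 : cX D v s n w x' := (cond_supp (P := FP.unif X) (A := cX D v s n w) (unif_ne (cX_self s n w)) hx').1
        have h2 := Zb_pts hz0
        have h3 : D.kf t d u0.1 u0.2.1 F0 ≠ 0 := by
          have h4 : (∏ l, D.kf t l u0.1 u0.2.1 (u0.2.2 l)) /
            (Fintype.card X * (Fintype.card β : ℝ) ^ Fintype.card (Fin 3)) ≠ 0 := hu0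
          exact Finset.prod_ne_zero_iff.1 (div_ne_zero_iff.1 h4).1 d (mem_univ d)
        have h5 := h.thick t d u0.1 x' u0.2.1 F0 (qa_mono D htn (h2.2.1.trans h1.2.symm)) h3
        rwa [D.dep t d x' u0.2.1 w.2.1 h2.1 (qb_mono D htn (h2.2.2 d))] at h5
      · simp only [hg2]
        rw [ind_not hk, mul_zero, zero_mul]
    have hc1p : 0 < μ.E g1 := hp0.trans_le hc1
    have hc2p : 0 < μ.E g2 := (mul_pos h.pos hp0).trans_le hc2
    have hM := Mz_pos (D := D) (v := v) q d w
    -- masses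
    have m0 : P.m (ZbQ D v q d) w = Mz D v q d w * μ.E g1 := by
      have h1 := cls_E (h := h) hv t q w d (fun _ _ => 1)
      simp only [FP.E_const, mul_one] at h1
      exact h1
    have hm0 : 0 < P.m (ZbQ D v q d) w := P.m_pos _ hw
    have m1 : P.pv (ZbQ D v q d) (FQ v t d) w x = μ.E g2 / μ.E g1 := by
      have h1 := cls_lab (h := h) hv htn w d (fun _ _ => 1) F0
      simp only [FP.E_const, mul_one] at h1
      have h2 : P.E (fun u => ind (ZbQ D v q d u = ZbQ D v q d w) * ind (FQ v t d u = x)) =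
          Mz D v q d w * μ.E g2 := by
        rw [← h1]
        refine P.E_congr fun u hu' => ?_
        by_cases hz : ZbQ D v q d u = ZbQ D v q d w
        · rw [ind_cg (hlab u hu' hz)]
        · rw [ind_not hz, zero_mul, zero_mul]
      unfold FP.pv FP.ce
      rw [h2, m0]
      exact mul_div_mul_left _ _ hM.ne'
    -- events
    refine (tv_class P (Z := ZQ D v q) (Zb := ZbQ D v q d) (FQ v t d) (ZQ_Zb q d) hw x
      (δ := 2 * κ + 2 * B / (al * p0)) (fun A fA => ?_)).trans (le_of_eq (by ring))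
    -- the event as a set of letters
    set a : β × List (Pt (Fin 3) X β φ) → Prop := fun z => ∃ u', ZbQ D v q d u' = ZbQ D v q d w ∧ A u' ∧
      XLq v q d u' = z with ha
    have hAa : ∀ u, ZbQ D v q d u = ZbQ D v q d w → (A u ↔ a (XLq v q d u)) := by
      intro u hz
      refine ⟨fun hh => ⟨u, hz, hh, rfl⟩, ?_⟩
      rintro ⟨u', hz', hA', hxl⟩
      have e1 : ZQ D v q u' = ZQ D v q u := by
        have e2 := hz'.trans hz.symm
        have e3 := Zb_pts e2
        have e4 : u'.2.1 d = u.2.1 d := congrArg Prod.fst hxl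
        have e5 : Um v (nc q {d}) {d} u'.1 u'.2.1 = Um v (nc q {d}) {d} u.1 u.2.1 := congrArg Prod.snd hxl
        unfold ZQ
        refine Prod.ext (funext fun J => ?_) ?_
        · show SL v q J.1 u' = SL v q J.1 u
          have hJ := J.2
          by_cases hJd : J.1 = {d}
          · rw [hJd]
            unfold SL
            rw [LL_eq]
            refine ⟨e5, fun l hl => absurd hl (no_top l {d} (by simp))⟩
          · have hsub : J.1 ⊂ univ.erase d := by
              have key : ∀ (d : Fin 3) (J : Finset (Fin 3)), J.card ≤ 1 → J ≠ {d} → J ⊂ univ.erase d := by decide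
              exact key d J.1 hJ hJd
            unfold ZbQ at e2
            simp only [Prod.mk.injEq] at e2
            exact lo_eq.1 e2.1 J.1 hsub
        · show WW D (nn q) u' = WW D (nn q) u
          rw [WW_eq]
          refine ⟨funext fun j => ?_, e3.2.1⟩
          by_cases hj : j = d
          · rw [hj]; exact e4
          · exact e3.1 j hj
      exact (iff_of_eq (fA u' u e1)).1 hA'
    set f : β × List (Pt (Fin 3) X β φ) → ℝ := fun z => ind (a (z.1, z.2.take (nc q {d}))) with hf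
    have hf1 : ∀ z, |f z| ≤ 1 := fun z => by
      simp only [hf]
      rw [abs_of_nonneg (ind_nonneg _)]
      exact ind_le_one _
    set Ψ : X → β → ℝ := fun x' b => f (b, code v s w d x' b) with hΨ
    have hAΨ : ∀ u, ZbQ D v q d u = ZbQ D v q d w → ind (A u) = Ψ u.1 (u.2.1 d) := by
      intro u hz
      simp only [hΨ, hf]
      refine ind_cg ((hAa u hz).trans (iff_of_eq ?_))
      congr 1
      unfold XLq XL code
      rw [take_Um hsd]
      refine Prod.ext rfl ?_
      show Um v (nc q {d}) {d} u.1 u.2.1 = Um v (nc q {d}) {d} u.1 (Function.update w.2.1 d (u.2.1 d))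
      have h2 := Zb_pts hz
      refine Um_codes hv (nc_le q {d}) {d} u.1 (fun j hj => ?_) fun j => ?_
      · rw [Finset.mem_singleton.1 hj, Function.update_self]
      · by_cases hj : j = d
        · subst hj; rw [Function.update_self]
        · rw [Function.update_of_ne hj]; exact h2.2.2 j
    have n1 : P.ce (ZbQ D v q d) (fun u => ind (A u)) w = μ.E (fun x' => g1 x' * ν.E (Ψ x')) / μ.E g1 := by
      have h1 := cls_E (h := h) hv t q w d Ψ
      have h2 : P.E (fun u => ind (ZbQ D v q d u = ZbQ D v q d w) * ind (A u)) =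
          Mz D v q d w * μ.E (fun x' => g1 x' * ν.E (Ψ x')) := by
        rw [← h1]
        refine P.E_congr fun u _ => ?_
        by_cases hz : ZbQ D v q d u = ZbQ D v q d w
        · rw [hAΨ u hz]
        · rw [ind_not hz, zero_mul, zero_mul]
      unfold FP.ce
      rw [h2, m0]
      exact mul_div_mul_left _ _ hM.ne'
    have n2 : P.ce (ZbQ D v q d) (fun u => ind (FQ v t d u = x) * ind (A u)) w =
        μ.E (fun x' => g2 x' * ν.E (Ψ x')) / μ.E g1 := by
      have h1 := cls_lab (h := h) hv htn w d Ψ F0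
      have h2 : P.E (fun u => ind (ZbQ D v q d u = ZbQ D v q d w) * (ind (FQ v t d u = x) * ind (A u))) =
          Mz D v q d w * μ.E (fun x' => g2 x' * ν.E (Ψ x')) := by
        have h3 : μ.E (fun x' => g2 x' * ν.E (Ψ x')) =
            μ.E (fun x' => ind (K0 v q d w x') * (D.kf t d x' w.2.1 F0 * ν.E (Ψ x'))) :=
          FP.E_congr _ fun x' _ => by simp only [hg2]; ring
        rw [h3, ← h1]
        refine P.E_congr fun u hu' => ?_
        by_cases hz : ZbQ D v q d u = ZbQ D v q d w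
        · rw [hAΨ u hz, ind_cg (hlab u hu' hz)]
        · rw [ind_not hz, zero_mul, zero_mul]
      unfold FP.ce
      rw [h2, m0]
      exact mul_div_mul_left _ _ hM.ne'
    have t1 := dvW_test (D := D) (v := v) s n w d g1 hf1
    have t2 := dvW_test (D := D) (v := v) s n w d g2 hf1
    set cc := μ.E (fun x' => ν.E (fun b => f (b, code v s w d x' b))) with hcc
    set a1 := μ.E (fun x' => g1 x' * ν.E (Ψ x')) with ha1
    set a2 := μ.E (fun x' => g2 x' * ν.E (Ψ x')) with ha2
    set e1 := μ.E g1 with he1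
    set e2 := μ.E g2 with he2
    have u1 : |a1 - e1 * cc| ≤ κ * e1 + B := t1.trans k1
    have u2 : |a2 - e2 * cc| ≤ κ * e2 + B := t2.trans k2
    rw [n1, n2, m1]
    have v1 := (abs_le.1 u1).1
    have v2 := (abs_le.1 u2).2
    have w1 : B / e1 ≤ B / (al * p0) := by
      have hal1 : al ≤ 1 := by
        have h3 : D.kf t d u0.1 u0.2.1 F0 ≠ 0 := by
          have h4 : (∏ l, D.kf t l u0.1 u0.2.1 (u0.2.2 l)) /
            (Fintype.card X * (Fintype.card β : ℝ) ^ Fintype.card (Fin 3)) ≠ 0 := hu0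
          exact Finset.prod_ne_zero_iff.1 (div_ne_zero_iff.1 h4).1 d (mem_univ d)
        exact (h.thick t d u0.1 u0.1 u0.2.1 F0 rfl h3).trans (kf_le_one h t d u0.1 u0.2.1 F0)
      refine div_le_div_of_nonneg_left hB (mul_pos h.pos hp0) ?_
      nlinarith
    have w2 : B / e2 ≤ B / (al * p0) := div_le_div_of_nonneg_left hB (mul_pos h.pos hp0) hc2
    have z1 : a2 / e1 - e2 / e1 * (a1 / e1) = (a2 - e2 * (a1 / e1)) / e1 := by ring
    have z2 : a2 - e2 * (a1 / e1) ≤ (2 * κ + B / e2 + B / e1) * e2 := by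
      have y1 : cc - κ - B / e1 ≤ a1 / e1 := by
        rw [le_div_iff₀ hc1p]
        have : B / e1 * e1 = B := div_mul_cancel₀ B hc1p.ne'
        nlinarith
      have y2 := mul_le_mul_of_nonneg_left y1 hc2p.le
      have y3 : B / e2 * e2 = B := div_mul_cancel₀ B hc2p.ne'
      nlinarith
    rw [z1]
    have z3 : (a2 - e2 * (a1 / e1)) / e1 ≤ (2 * κ + B / e2 + B / e1) * e2 / e1 :=
      div_le_div_of_nonneg_right z2 hc1p.le
    refine z3.trans ?_
    have z4 : (2 * κ + B / e2 + B / e1) * e2 / e1 = (2 * κ + B / e2 + B / e1) * (e2 / e1) := by ring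
    rw [z4]
    refine mul_le_mul_of_nonneg_right ?_ (div_nonneg hc2p.le hc1p.le)
    have z5 : 2 * B / (al * p0) = B / (al * p0) + B / (al * p0) := by ring
    rw [z5]
    linarith

/-! ### the distances of the events -/

/-- all events, state of the time `t` -/
theorem dvC_all (R : Run h N S (AdmDep D) v) (hN : ∀ J ∈ S, 0 ≤ N J) (h0 : ∅ ∈ S) (hS : ∀ i : Fin 3, {i} ∈ S)
    (hN0 : N ∅ = 1) {N1 : ℝ} (hN1 : ∀ i : Fin 3, N1 ≤ N {i}) (hN1p : 0 < N1) (t : ℕ) {c : Pt (Fin 3) X β φ}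
    (hc : (D.P h t).p c ≠ 0) (k : Fin 3) (a : ℝ) (E : X → Prop) :
    dvC D v (t + 1) t c k E ≤ Real.sqrt (4 * (a + 1) / N1) * (muC D v (t + 1) t c).Pr E + 2 * Real.exp (-a) := by
  have : Nonempty φ := ⟨c.2.2 0⟩
  have h1 := FP.Pr_nonneg (muC D v (t + 1) t c) E
  rcases le_or_gt (Real.exp (-a)) ((muC D v (t + 1) t c).Pr E) with h2 | h2
  · have h3 := dvC_le R hN h0 hS hN0 hN1 hN1p t hc k h2
    have := Real.exp_pos (-a)
    linarith
  · have h3 := dvC_two (D := D) (v := v) (t + 1) t c k E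
    have h4 := mul_nonneg (Real.sqrt_nonneg (4 * (a + 1) / N1)) h1
    linarith

/-- all events, after the digit -/
theorem dvC_dig (H : D.Hyp dg prr al T Lam) (R : Run h N S (AdmDep D) v) (hN : ∀ J ∈ S, 0 ≤ N J) (h0 : ∅ ∈ S)
    (hS : ∀ i : Fin 3, {i} ∈ S) (hN0 : N ∅ = 1) {N1 : ℝ} (hN1 : ∀ i : Fin 3, N1 ≤ N {i}) (hN1p : 0 < N1) {t : ℕ}
    (ht : t < T) {c : Pt (Fin 3) X β φ} (hc : (D.P h t).p c ≠ 0) {dl a : ℝ} (hdl : 0 < dl) (hda : Real.exp (-a) ≤ dl)
    (hdig : dl ≤ (muC D v (t + 1) t c).Pr (fun x => D.qa (t + 1) x = D.qa (t + 1) c.1)) (k : Fin 3) (E : X → Prop) :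
    dvC D v (t + 1) (t + 1) c k E ≤ 4 * Real.sqrt (4 * (a + 1) / N1) * (muC D v (t + 1) (t + 1) c).Pr E +
      2 * Real.exp (-a) / dl := by
  have : Nonempty φ := ⟨c.2.2 0⟩
  set F : X → Prop := fun x => D.qa (t + 1) x = D.qa (t + 1) c.1 with hF
  have hFp : 0 < (muC D v (t + 1) t c).Pr F := hdl.trans_le hdig
  have h1 := FP.Pr_nonneg (muC D v (t + 1) (t + 1) c) E
  have hx := Real.exp_pos (-a)
  rcases le_or_gt (Real.exp (-a)) ((muC D v (t + 1) t c).Pr (fun x => F x ∧ E x)) with h2 | h2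
  · have h3 := dvC_le R hN h0 hS hN0 hN1 hN1p t hc k h2
    have h4 := dvC_le R hN h0 hS hN0 hN1 hN1p t hc k (hda.trans hdig)
    have h5 := dvC_succ H ht c k h3 h4 hFp
    refine h5.trans ?_
    have h6 : 0 ≤ 2 * Real.exp (-a) / dl := by positivity
    have h7 : 2 * (Real.sqrt (4 * (a + 1) / N1) + Real.sqrt (4 * (a + 1) / N1)) * (muC D v (t + 1) (t + 1) c).Pr E =
        4 * Real.sqrt (4 * (a + 1) / N1) * (muC D v (t + 1) (t + 1) c).Pr E := by ring
    rw [h7]
    linarith
  · have h3 := dvC_two (D := D) (v := v) (t + 1) (t + 1) c k E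
    have h4 : (muC D v (t + 1) t c).Pr F * (muC D v (t + 1) (t + 1) c).Pr E < Real.exp (-a) := by
      rw [muC_succ c E]; exact h2
    have h5 : (muC D v (t + 1) (t + 1) c).Pr E ≤ Real.exp (-a) / dl := by
      rw [le_div_iff₀ hdl]
      have := mul_le_mul_of_nonneg_right hdig h1
      linarith
    have h6 := mul_nonneg (mul_nonneg (show (0 : ℝ) ≤ 4 by norm_num) (Real.sqrt_nonneg (4 * (a + 1) / N1))) h1
    have h7 : 2 * Real.exp (-a) / dl = 2 * (Real.exp (-a) / dl) := by ring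
    rw [h7]
    linarith

/-- the digit of the hidden point is likely -/
theorem dig_mu (hv : Codes D v) {t : ℕ} {c : Pt (Fin 3) X β φ} {dl : ℝ}
    (hdig : dl * (D.P h t).m (NP D v (t + 1) t) c ≤ (D.P h t).m (NP D v (t + 1) (t + 1)) c) :
    dl ≤ (muC D v (t + 1) t c).Pr (fun x => D.qa (t + 1) x = D.qa (t + 1) c.1) := by
  have e1 : (D.P h t).m (NP D v (t + 1) t) c = (FP.unif X).Pr (cX D v (t + 1) t c) *
      ∏ j, (FP.unif β).Pr (cY D t c j) := cell_Pr hv t le_rfl c
  have e2 : (D.P h t).m (NP D v (t + 1) (t + 1)) c = (FP.unif X).Pr (cX D v (t + 1) (t + 1) c) *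
      ∏ j, (FP.unif β).Pr (cY D (t + 1) c j) := cell_Pr hv t (by omega) c
  rw [e1, e2] at hdig
  have hA : (FP.unif X).Pr (cX D v (t + 1) t c) ≠ 0 := unif_ne (cX_self (t + 1) t c)
  have e3 : (FP.unif X).Pr (cX D v (t + 1) (t + 1) c) = (FP.unif X).Pr (cX D v (t + 1) t c) *
      (muC D v (t + 1) t c).Pr (fun x => D.qa (t + 1) x = D.qa (t + 1) c.1) := by
    unfold muC
    show _ = (FP.unif X).Pr (cX D v (t + 1) t c) * ((FP.unif X).cond (cX D v (t + 1) t c)).E
      (fun x => ind (D.qa (t + 1) x = D.qa (t + 1) c.1))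
    rw [FP.Pr_mul_cond_E hA]
    unfold FP.Pr
    refine FP.E_congr _ fun x _ => ?_
    rw [← ind_and]
    exact ind_cg ((cX_succ c x).trans and_comm)
  have h1 : ∏ j, (FP.unif β).Pr (cY D (t + 1) c j) ≤ ∏ j, (FP.unif β).Pr (cY D t c j) :=
    Finset.prod_le_prod (fun j _ => FP.Pr_nonneg _ _) fun j _ => FP.Pr_mono _ fun b _ => cY_succ c j b
  have h2 : 0 < (FP.unif X).Pr (cX D v (t + 1) t c) * ∏ j, (FP.unif β).Pr (cY D t c j) :=
    mul_pos (lt_of_le_of_ne (FP.Pr_nonneg _ _) (Ne.symm hA))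
      (Finset.prod_pos fun j _ => lt_of_le_of_ne (FP.Pr_nonneg _ _) (Ne.symm (unif_ne (cY_self t c j))))
  have h4 := mul_le_mul_of_nonneg_left h1 (FP.Pr_nonneg (FP.unif X) (cX D v (t + 1) (t + 1) c))
  rw [e3] at h4 hdig
  refine le_of_mul_le_mul_left ?_ h2
  linarith

/-- the mass of the pair of letters -/
theorem K0_mass (hv : Codes D v) {t q : ℕ} (hq : q / 5 = t) {d i k : Fin 3} (hik : i ≠ k) (hid : i ≠ d) (hkd : k ≠ d)
    {w : Pt (Fin 3) X β φ} (hw : (D.P h t).p w ≠ 0) :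
    Real.exp (-spQ h v q i k w) = (muC D v (nc q ∅) (nn q) w).Pr (K0 v q d w) := by
  classical
  set P := D.P h t with hP
  have hM := Mz_pos (D := D) (v := v) q d w
  have hjj : ∀ j : Fin 3, j ≠ d → j = i ∨ j = k := by
    have key : ∀ d i k j : Fin 3, i ≠ k → i ≠ d → k ≠ d → j ≠ d → j = i ∨ j = k := by decide
    exact fun j hj => key d i k j hik hid hkd hj
  have m2 : P.m (fun u => ((XLq v q i u, XLq v q k u), (u.2.1 i, u.2.1 k, NPq D v q u))) w =
      Mz D v q d w * (muC D v (nc q ∅) (nn q) w).Pr (K0 v q d w) := by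
    have h1 := cls_E (h := h) hv t q w d (fun _ _ => 1)
    simp only [FP.E_const, mul_one] at h1
    show _ = Mz D v q d w * (muC D v (nc q ∅) (nn q) w).E (fun x => ind (K0 v q d w x))
    rw [← h1]
    unfold FP.m
    refine P.E_congr fun u _ => ind_cg ?_
    rw [Zb_iff hv]
    simp only [Prod.mk.injEq]
    have hN : NPq D v q u = NPq D v q w ↔ NP D v (nc q ∅) (nn q) u = NP D v (nc q ∅) (nn q) w := Iff.rfl
    have hx : ∀ j, NPq D v q u = NPq D v q w → u.2.1 j = w.2.1 j →
        (XLq v q j u = XLq v q j w ↔ Um v (nc q {j}) {j} u.1 w.2.1 = Um v (nc q {j}) {j} w.1 w.2.1) := by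
      intro j hnp hy
      unfold XLq XL
      rw [Prod.mk.injEq]
      have e1 : Um v (nc q {j}) {j} u.1 u.2.1 = Um v (nc q {j}) {j} u.1 w.2.1 := by
        refine Um_codes hv (nc_le q {j}) {j} u.1 (fun l hl => by rw [Finset.mem_singleton.1 hl]; exact hy) ?_
        exact ((NP_iff hv (nc_le q ∅) w u).1 hnp).2
      rw [e1]
      exact ⟨fun hh => hh.2, fun hh => ⟨hy, hh⟩⟩
    constructor
    · rintro ⟨⟨h1, h2⟩, h3, h4, h5⟩
      refine ⟨h5, fun j hj => ?_, fun j hj => ?_⟩
      · rcases hjj j hj with rfl | rfl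
        · exact h3
        · exact h4
      · rcases hjj j hj with rfl | rfl
        · exact (hx j h5 h3).1 h1
        · exact (hx j h5 h4).1 h2
    · rintro ⟨h5, h6, h7⟩
      exact ⟨⟨(hx i h5 (h6 i hid)).2 (h7 i hid), (hx k h5 (h6 k hkd)).2 (h7 k hkd)⟩, h6 i hid, h6 k hkd, h5⟩
  have m1 : P.m (fun u => (u.2.1 i, u.2.1 k, NPq D v q u)) w = Mz D v q d w := by
    have h1 := cell_G (h := h) hv t (nc_le q ∅) w d (fun _ _ => 1)
    simp only [FP.E_const, mul_one, one_mul] at h1
    show _ = ((FP.unif X).Pr (cX D v (nc q ∅) (nn q) w) * ∏ j, (FP.unif β).Pr (cY D (nn q) w j)) *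
      ∏ j ∈ univ.erase d, mC D (nn q) w j (w.2.1 j)
    rw [← h1]
    unfold FP.m
    refine P.E_congr fun u _ => ?_
    have e1 : ∏ j ∈ univ.erase d, ind (u.2.1 j = w.2.1 j) = ind (u.2.1 i = w.2.1 i ∧ u.2.1 k = w.2.1 k) := by
      have h2 : (univ.erase d : Finset (Fin 3)) = {i, k} := by
        have key : ∀ d i k : Fin 3, i ≠ k → i ≠ d → k ≠ d → (univ.erase d : Finset (Fin 3)) = {i, k} := by decide
        exact key d i k hik hid hkd
      rw [h2, Finset.prod_pair hik, ind_and]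
    rw [e1, ← ind_and]
    refine ind_cg ?_
    simp only [Prod.mk.injEq]
    have hN : NPq D v q u = NPq D v q w ↔ NP D v (nc q ∅) (nn q) u = NP D v (nc q ∅) (nn q) w := Iff.rfl
    rw [hN]
    tauto
  unfold spQ sp
  rw [hq, ← hP, m1, m2]
  have hp2 : 0 < (muC D v (nc q ∅) (nn q) w).Pr (K0 v q d w) := by
    have h3 := P.m_pos (fun u => ((XLq v q i u, XLq v q k u), (u.2.1 i, u.2.1 k, NPq D v q u))) hw
    rw [m2] at h3
    exact (pos_iff_pos_of_mul_pos h3).1 hM
  rw [Real.log_mul hM.ne' hp2.ne']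
  have e : -(Real.log (Mz D v q d w) - (Real.log (Mz D v q d w) +
      Real.log ((muC D v (nc q ∅) (nn q) w).Pr (K0 v q d w)))) =
      Real.log ((muC D v (nc q ∅) (nn q) w).Pr (K0 v q d w)) := by ring
  rw [e, Real.exp_log hp2]

/-- the distance of a top and of the missing letter -/
def d1T (N1 al X1 dl a : ℝ) : ℝ := 32 * Real.sqrt ((a + 1) / N1) + 8 * Real.exp (X1 - a) / (dl * al)

/-- **THE ROWS OF THE RUN** : weights on alive points, states `5t + j`, `j ≤ 4` -/
theorem row_al (H : D.Hyp dg prr al T Lam) (R : Run h N S (AdmDep D) v) (hN : ∀ J ∈ S, 0 ≤ N J) (h0 : ∅ ∈ S)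
    (hS1 : ∀ i : Fin 3, {i} ∈ S) (hN0 : N ∅ = 1) {N1 : ℝ} (hN1 : ∀ i : Fin 3, N1 ≤ N {i}) (hN1p : 0 < N1)
    (hS : ∀ l, univ.erase l ∈ S) (hu : univ ∉ S) (hN2 : ∀ l, 0 < N (univ.erase l)) {t j : ℕ} (ht : t < T) (hj : j ≤ 4)
    {X1 dl a : ℝ} (hdl : 0 < dl) (hdl1 : dl ≤ 1) (hda : Real.exp (-a) ≤ dl) {aw : Pt (Fin 3) X β φ → ℝ}
    (a1 : ∀ u, aw u ≤ 1)
    (hal : ∀ u, (D.P h t).p u ≠ 0 → aw u ≠ 0 → (∀ i k, i ≠ k → spQ h v (5 * t + j) i k u ≤ X1) ∧
      (j = 1 → dl * (D.P h t).m (NP D v (t + 1) t) u ≤ (D.P h t).m (NP D v (t + 1) (t + 1)) u)) (d : Fin 3)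
    (w : Pt (Fin 3) X β φ) (x : List (Pt (Fin 3) X β φ) × (Fin 3 → Option φ)) :
    (D.P h t).ce (ZbQ D v (5 * t + j) d) (fun u => aw u * |(D.P h t).pv (ZQ D v (5 * t + j)) (FQ v t d) u x -
      (D.P h t).pv (ZbQ D v (5 * t + j) d) (FQ v t d) u x|) w ≤
      d1T N1 al X1 dl a * (D.P h t).pv (ZbQ D v (5 * t + j) d) (FQ v t d) w x := by
  classical
  set q := 5 * t + j with hq
  set P := D.P h t with hP
  have hq5 : q / 5 = t := by omega
  have hv := R.codes
  have hx := Real.exp_pos (-a)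
  have hd0 : 0 ≤ d1T N1 al X1 dl a := by
    unfold d1T
    have := h.pos
    positivity
  by_cases hex : ∃ u, P.p u ≠ 0 ∧ aw u ≠ 0 ∧ ZbQ D v q d u = ZbQ D v q d w
  · obtain ⟨u, hu', hau, hzu⟩ := hex
    obtain ⟨hsp, hdg⟩ := hal u hu' hau
    obtain ⟨i, k, hik, hid, hkd⟩ : ∃ i k : Fin 3, i ≠ k ∧ i ≠ d ∧ k ≠ d := by
      have key : ∀ d : Fin 3, ∃ i k : Fin 3, i ≠ k ∧ i ≠ d ∧ k ≠ d := by decide
      exact key d
    have hpr : Real.exp (-X1) ≤ (muC D v (nc q ∅) (nn q) u).Pr (K0 v q d u) := by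
      rw [← K0_mass (h := h) hv hq5 hik hid hkd hu']
      exact Real.exp_le_exp.2 (neg_le_neg (hsp i k hik))
    -- the distances
    have hE : ∀ E : X → Prop, dvC D v (nc q ∅) (nn q) u d E ≤
        (4 * Real.sqrt (4 * (a + 1) / N1)) * (muC D v (nc q ∅) (nn q) u).Pr E + 2 * Real.exp (-a) / dl := by
      intro E
      have hB1 : 2 * Real.exp (-a) ≤ 2 * Real.exp (-a) / dl := by
        rw [le_div_iff₀ hdl]
        nlinarith
      have hs0 := Real.sqrt_nonneg (4 * (a + 1) / N1)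
      rcases Nat.lt_or_ge j 1 with hj0 | hj1
      · have hj' : j = 0 := by omega
        have e1 : nc q ∅ = t + 1 := by
          rw [hq, nc_add t j pth_emp (by omega), hj']
          unfold ncj
          rw [if_neg (Nat.not_lt_zero _), add_zero]
        have e2 : nn q = t := by rw [hq, hj', add_zero]; exact nn_0 t
        rw [e1, e2]
        have h1 := dvC_all R hN h0 hS1 hN0 hN1 hN1p t hu' d a E
        have h2 := FP.Pr_nonneg (muC D v (t + 1) t u) E
        have h3 := mul_nonneg hs0 h2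
        linarith
      · rcases Nat.lt_or_ge j 2 with hj2 | hj2
        · have hj' : j = 1 := by omega
          have e1 : nc q ∅ = t + 1 := by rw [hq, hj']; exact nc_1 t pth_emp
          have e2 : nn q = t + 1 := by rw [hq, hj']; exact nn_1 t
          rw [e1, e2]
          exact dvC_dig H R hN h0 hS1 hN0 hN1 hN1p ht hu' hdl hda (dig_mu hv (hdg hj')) d E
        · have e1 : nc q ∅ = t + 2 := nc_emp t hj2 (by omega)
          have e2 : nn q = t + 1 := nn_j t (by omega) (by omega)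
          rw [e1, e2]
          obtain ⟨F', hF'⟩ : ∃ F' : Fin 3 → φ, ∀ l, D.kf (t + 1) l u.1 u.2.1 (F' l) ≠ 0 := by
            have h1 : ∀ l : Fin 3, ∃ F : φ, D.kf (t + 1) l u.1 u.2.1 F ≠ 0 := by
              intro l
              by_contra hcon
              push Not at hcon
              have h2 := h.one (t + 1) l u.1 u.2.1
              rw [Finset.sum_eq_zero fun F _ => hcon F] at h2
              exact absurd h2 (by norm_num)
            choose F' hF' using h1
            exact ⟨F', hF'⟩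
          have hc : (D.P h (t + 1)).p (u.1, u.2.1, F') ≠ 0 := by
            show (∏ l, D.kf (t + 1) l u.1 u.2.1 (F' l)) /
              (Fintype.card X * (Fintype.card β : ℝ) ^ Fintype.card (Fin 3)) ≠ 0
            refine div_ne_zero (Finset.prod_ne_zero_iff.2 fun l _ => hF' l) (mul_ne_zero ?_ (pow_ne_zero _ ?_))
            · exact_mod_cast Fintype.card_ne_zero
            · exact_mod_cast Fintype.card_ne_zero
          have h1 := dvC_all R hN h0 hS1 hN0 hN1 hN1p (t + 1) hc d a E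
          have h1' : dvC D v (t + 2) (t + 1) u d E ≤
              Real.sqrt (4 * (a + 1) / N1) * (muC D v (t + 2) (t + 1) u).Pr E + 2 * Real.exp (-a) := h1
          have h2 := FP.Pr_nonneg (muC D v (t + 2) (t + 1) u) E
          have h3 := mul_nonneg hs0 h2
          linarith
    have hsd : nc q {d} ≤ nc q ∅ := by
      rcases Nat.lt_or_ge j 2 with hj2 | hj2
      · rw [hq, nc_add t j pth_emp (by omega), nc_add t j (pth_sing d) (by omega)]
        have k1 : ∀ j < 2, ∀ J : Finset (Fin 3), ¬ rk J < j := by decide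
        unfold ncj
        rw [if_neg (k1 j hj2 _), if_neg (k1 j hj2 _)]
      · rw [hq, nc_emp t hj2 (by omega)]
        exact nc_le2 t (by omega) (pth_sing d)
    have hB : 0 ≤ 2 * Real.exp (-a) / dl := by positivity
    have key := row_tv H R hS hu hN2 ht.le (show 5 * t ≤ q by omega) hsd hu' hB (Real.exp_pos (-X1)) hE hpr x
    have e3 : (D.P h t).ce (ZbQ D v q d) (fun u => aw u * |(D.P h t).pv (ZQ D v q) (FQ v t d) u x -
        (D.P h t).pv (ZbQ D v q d) (FQ v t d) u x|) w ≤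
        (D.P h t).ce (ZbQ D v q d) (fun u => |(D.P h t).pv (ZQ D v q) (FQ v t d) u x -
          (D.P h t).pv (ZbQ D v q d) (FQ v t d) u x|) u := by
      have e4 := (D.P h t).ce_fac (ZbQ D v q d) (fun u => aw u * |(D.P h t).pv (ZQ D v q) (FQ v t d) u x -
        (D.P h t).pv (ZbQ D v q d) (FQ v t d) u x|) u w hzu
      rw [← e4]
      refine (D.P h t).ce_mono (fun u' _ => ?_) u
      have := mul_le_mul_of_nonneg_right (a1 u') (abs_nonneg ((D.P h t).pv (ZQ D v q) (FQ v t d) u' x -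
        (D.P h t).pv (ZbQ D v q d) (FQ v t d) u' x))
      rwa [one_mul] at this
    have e5 : (D.P h t).pv (ZbQ D v q d) (FQ v t d) u x = (D.P h t).pv (ZbQ D v q d) (FQ v t d) w x :=
      (D.P h t).pv_fac _ _ _ u w hzu
    refine e3.trans (key.trans ?_)
    rw [e5]
    refine mul_le_mul_of_nonneg_right (le_of_eq ?_) ((D.P h t).pv_nonneg _ _ _ _)
    unfold d1T
    have s1 : Real.sqrt (4 * (a + 1) / N1) = 2 * Real.sqrt ((a + 1) / N1) := by
      rw [show 4 * (a + 1) / N1 = 2 ^ 2 * ((a + 1) / N1) by ring, Real.sqrt_mul (by norm_num),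
        Real.sqrt_sq (by norm_num)]
    rw [s1]
    have s2 : Real.exp (X1 - a) = Real.exp (-a) / Real.exp (-X1) := by
      rw [← Real.exp_sub]; congr 1; ring
    rw [s2]
    have hal0 := h.pos
    have hx1 := Real.exp_pos (-X1)
    field_simp
    ring
  · push Not at hex
    have e1 : P.ce (ZbQ D v q d) (fun u => aw u * |P.pv (ZQ D v q) (FQ v t d) u x -
        P.pv (ZbQ D v q d) (FQ v t d) u x|) w = 0 := by
      unfold FP.ce
      have e2 : P.E (fun u => ind (ZbQ D v q d u = ZbQ D v q d w) *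
          (aw u * |P.pv (ZQ D v q) (FQ v t d) u x - P.pv (ZbQ D v q d) (FQ v t d) u x|)) = 0 := by
        refine (P.E_congr fun u hu' => ?_).trans (P.E_const 0)
        by_cases hz : ZbQ D v q d u = ZbQ D v q d w
        · by_cases ha : aw u = 0
          · rw [ha, zero_mul, mul_zero]
          · exact absurd hz (hex u hu' ha)
        · rw [ind_not hz, zero_mul]
      rw [e2, zero_div]
    rw [e1]
    exact mul_nonneg hd0 (P.pv_nonneg _ _ _ _)

/-- facts of the alive points of a step -/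
theorem aT_facts (p : AP) {Gd : ℕ → Pt (Fin 3) X β φ → Prop} {s : Fin 6} {t : ℕ} {w : Pt (Fin 3) X β φ}
    (hw : aT h v p Gd s t w) : (∀ i k, i ≠ k → spQ h v (qs s t) i k w ≤ p.X1) ∧ (∀ i, ssQ h v (qs s t) i w ≤ p.X0) ∧
      (s ≠ 0 → p.dl * (D.P h t).m (NP D v (t + 1) t) w ≤ (D.P h t).m (NP D v (t + 1) (t + 1)) w) := by
  refine ⟨hw.2.2, hw.2.1, fun hs => ?_⟩
  have hA : Ar h v p (2 * t + 1) w := by
    have := hw.1
    fin_cases s
    · exact absurd rfl hs
    all_goals exact this.1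
  have h1 : p.dl * (D.P h t).m (fun u => ((), NP D v (t + 1) t u)) w ≤
    (D.P h t).m (fun u => ((), NP D v (t + 1) (t + 1) u)) w := hA.1.2 t le_rfl
  have e1 : ∀ n, (D.P h t).m (fun u => ((), NP D v (t + 1) n u)) w = (D.P h t).m (NP D v (t + 1) n) w := fun n =>
    (D.P h t).m_congr (fun a b hab => congrArg Prod.snd hab) (fun a b hab => Prod.ext rfl hab) w
  rwa [e1, e1] at h1

/-- **THE ROWS OF THE SIX STEPS** = hypothesis `hD` of `Gd_le_gn` for every weight on the alive points of the step -/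
theorem row_aT (H : D.Hyp dg prr al T Lam) (R : Run h N S (AdmDep D) v) (hN : ∀ J ∈ S, 0 ≤ N J) (h0 : ∅ ∈ S)
    (hS1 : ∀ i : Fin 3, {i} ∈ S) (hN0 : N ∅ = 1) {N1 : ℝ} (hN1 : ∀ i : Fin 3, N1 ≤ N {i}) (hN1p : 0 < N1)
    (hS : ∀ l, univ.erase l ∈ S) (hu : univ ∉ S) (hN2 : ∀ l, 0 < N (univ.erase l)) {t : ℕ} (ht : t < T) (s : Fin 6)
    (p : AP) {Gd : ℕ → Pt (Fin 3) X β φ → Prop} {a : ℝ} (hdl : 0 < p.dl) (hdl1 : p.dl ≤ 1) (hda : Real.exp (-a) ≤ p.dl)
    {aw : Pt (Fin 3) X β φ → ℝ} (a1 : ∀ u, aw u ≤ 1)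
    (hal : ∀ u, (D.P h t).p u ≠ 0 → aw u ≠ 0 → aT h v p Gd s t u) (d : Fin 3)
    (w : Pt (Fin 3) X β φ) (x : List (Pt (Fin 3) X β φ) × (Fin 3 → Option φ)) :
    (D.P h t).ce (ZbQ D v (qs s t) d) (fun u => aw u * |(D.P h t).pv (ZQ D v (qs s t)) (FQ v t d) u x -
      (D.P h t).pv (ZbQ D v (qs s t) d) (FQ v t d) u x|) w ≤
      d1T N1 al p.X1 p.dl a * (D.P h t).pv (ZbQ D v (qs s t) d) (FQ v t d) w x := by
  have key : ∀ j, j ≤ 4 → qs s t = 5 * t + j → (j = 1 → s ≠ 0) →
      (D.P h t).ce (ZbQ D v (qs s t) d) (fun u => aw u * |(D.P h t).pv (ZQ D v (qs s t)) (FQ v t d) u x -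
        (D.P h t).pv (ZbQ D v (qs s t) d) (FQ v t d) u x|) w ≤
      d1T N1 al p.X1 p.dl a * (D.P h t).pv (ZbQ D v (qs s t) d) (FQ v t d) w x := by
    intro j hj hq hs
    rw [hq]
    refine row_al H R hN h0 hS1 hN0 hN1 hN1p hS hu hN2 ht hj hdl hdl1 hda a1 (fun u hp hau => ?_) d w x
    have h1 := aT_facts p (hal u hp hau)
    rw [hq] at h1
    exact ⟨h1.1, fun hj1 => h1.2.2 (hs hj1)⟩
  fin_cases s
  · exact key 0 (by omega) rfl (fun hh => absurd hh (by decide))
  · exact key 1 (by omega) rfl (fun _ => by decide)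
  · exact key 1 (by omega) rfl (fun _ => by decide)
  · exact key 2 (by omega) rfl (fun hh => absurd hh (by decide))
  · exact key 3 (by omega) rfl (fun hh => absurd hh (by decide))
  · exact key 4 (by omega) rfl (fun hh => absurd hh (by decide))

end row

end

end Pool.Agent.GMH.TP
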