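import Pool.Agent.GMH.One3d
import Pool.Agent.GMH.KDL
import Pool.Agent.GMH.TopRow

/-!
# GMH/One3a (helper63, stub of helper2): the test of the payment of OneOK: a function of what the top sees, normalised, equal to
the function of the sampled point

* `Zb_dat` : what the top sees = the letters of the other vertices and the public information; `Lw_Zb` : the lower letters of
  `PayS` are `ZbQ (5 s)`;
* `Fq_congr` : `Fq` is a function of the thin labels and the labels of the tops; `psi0_dat` : `psi0 = Fq q` for every point `q`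
  with the data;
* `psi_fac`, `psi_one`, `psi_eq`, `ro_le` : (A1) - (A4) of helper2.
-/

set_option autoImplicit false
set_option linter.unusedSectionVars false

namespace Pool.Agent.GMH.One

open Finset Pool.Agent.PWZ Pool.Agent.M3 Pool.Agent.GM Pool.Agent.GM.Harm Pool.Agent.GMH Pool.Agent.GMH.NZ
open Pool.Agent.GMH.V3 Pool.Agent.GMH.TP Pool.Agent.GMH.Dy Pool.Agent.GMH.PayS

noncomputable section

variable {X β γ φ : Type} [Fintype X] [Fintype β] [Fintype φ] [Nonempty X] [Nonempty β]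
variable {D : HD (Fin 3) X β γ φ} {al : ℝ} {h : D.Thick al} {v : ℕ → Finset (Fin 3) → X → (Fin 3 → β) → Pt (Fin 3) X β φ}
variable {dg : ℕ → X → ℝ} {prr : ℕ → Fin 3 → φ → φ} {T : ℕ} {Lam : ℝ} {W : Type} [Fintype W] (tb : Tab D prr T W)
variable {p : AP} {i : Fin 3}

/-! ### what the top sees -/

/-- what the top sees = letters of the other vertices, public information -/
theorem Zb_dat {q : ℕ} {i : Fin 3} {a b : Pt (Fin 3) X β φ} : ZbQ D v q i a = ZbQ D v q i b ↔
    (∀ j, j ≠ i → XLq v q j a = XLq v q j b) ∧ NPq D v q a = NPq D v q b := by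
  have e1 : ZbQ D v q i a = ZbQ D v q i b ↔ (∀ I, I ⊂ univ.erase i → TP.SL v q I a = TP.SL v q I b) ∧
      BB D (TP.nn q) (univ.erase i) a = BB D (TP.nn q) (univ.erase i) b := by
    unfold ZbQ
    rw [Prod.mk.injEq, lo_eq]
  have e2 : ∀ I, I ⊂ univ.erase i → (TP.SL v q I a = TP.SL v q I b ↔ Um v (nc q I) I a.1 a.2.1 = Um v (nc q I) I b.1 b.2.1) := by
    intro I hI
    unfold TP.SL
    rw [LL_eq]
    refine ⟨fun hh => hh.1, fun hh => ⟨hh, fun l hl => ?_⟩⟩
    exfalso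
    refine no_top l I ?_ hl
    have := Finset.card_lt_card hI
    have h3 : (univ.erase i : Finset (Fin 3)).card = 2 := by
      have key : ∀ d : Fin 3, (univ.erase d : Finset (Fin 3)).card = 2 := by decide
      exact key i
    omega
  rw [e1, BB_eq]
  have hI : ∀ j, j ≠ i → ({j} : Finset (Fin 3)) ⊂ univ.erase i := fun j hj => (Zb_idx i {j}).2 (Or.inr ⟨j, hj, rfl⟩)
  have h0 : (∅ : Finset (Fin 3)) ⊂ univ.erase i := (Zb_idx i ∅).2 (Or.inl rfl)
  constructor
  · rintro ⟨h1, h2, h3, h4⟩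
    refine ⟨fun j hj => Prod.ext (h2 j (Finset.mem_erase.2 ⟨hj, mem_univ j⟩)) ((e2 {j} (hI j hj)).1 (h1 {j} (hI j hj))),
      Prod.ext ((e2 ∅ h0).1 (h1 ∅ h0)) (Prod.ext h3 (funext h4))⟩
  · rintro ⟨g1, g2⟩
    have gn : nd D (TP.nn q) a = nd D (TP.nn q) b := congrArg Prod.snd g2
    refine ⟨fun I hI' => (e2 I hI').2 ?_, fun j hj => congrArg Prod.fst (g1 j (Finset.ne_of_mem_erase hj)),
      congrArg Prod.fst gn, fun j => congrFun (congrArg Prod.snd gn) j⟩
    rcases (Zb_idx i I).1 hI' with rfl | ⟨j, hj, rfl⟩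
    · exact congrArg Prod.fst g2
    · exact congrArg Prod.snd (g1 j hj)

theorem Lw_Zb (s : ℕ) (i : Fin 3) : Lw (φ := φ) D v s i = ZbQ D v (5 * s) i := by
  rw [ZbQ_0]
  rfl

theorem Tp_lab {s : ℕ} {i : Fin 3} {a b : Pt (Fin 3) X β φ} (hab : Tp v s i a = Tp v s i b) : a.2.2 i = b.2.2 i :=
  (LL_eq.1 hab).2 i rfl

theorem nn_5s (s : ℕ) : TP.nn (5 * s) = s := nn_0 s

theorem nc_5s (s : ℕ) {J : Finset (Fin 3)} (hJ : pth J) : nc (5 * s) J = s + 1 := by
  have h1 := nc_add s 0 hJ (by omega)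
  rw [add_zero] at h1
  rw [h1]
  unfold ncj
  rw [if_neg (Nat.not_lt_zero _), add_zero]

/-! ### `Fq` is a function of the data -/

section dat

variable {N : Finset (Fin 3) → ℝ} {SS : Finset (Finset (Fin 3))}

theorem F_congr (H : D.Hyp dg prr al T Lam) (R : Run h N SS (AdmDep D) v) (hS : ∀ l, univ.erase l ∈ SS) (hu : univ ∉ SS)
    (hN : ∀ l, 0 < N (univ.erase l)) {s : ℕ} (hs : s ≤ T) {q q' : Pt (Fin 3) X β φ} (hq : (D.P h s).p q ≠ 0)
    (hq' : (D.P h s).p q' ≠ 0) (hZ : ZQ D v (5 * s) q = ZQ D v (5 * s) q') {j : Fin 3} (hl : q.2.2 j = q'.2.2 j) :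
    FQ v s j q = FQ v s j q' := (top_name H R hS hu hN hs le_rfl hq hq' (ZQ_Zb _ j q q' hZ)).2 hl

theorem Z1_congr (H : D.Hyp dg prr al T Lam) (R : Run h N SS (AdmDep D) v) (hS : ∀ l, univ.erase l ∈ SS) (hu : univ ∉ SS)
    (hN : ∀ l, 0 < N (univ.erase l)) {s : ℕ} (hs : s ≤ T) {q q' : Pt (Fin 3) X β φ} (hq : (D.P h s).p q ≠ 0)
    (hq' : (D.P h s).p q' ≠ 0) (hZ : ZQ D v (5 * s) q = ZQ D v (5 * s) q') (hl : ∀ j, j ≠ i → q.2.2 j = q'.2.2 j) :
    (tup (Fo (FQ v s) i) q, ZQ D v (5 * s) q) = (tup (Fo (FQ v s) i) q', ZQ D v (5 * s) q') := by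
  refine Prod.ext (funext fun j => ?_) hZ
  show Fo (FQ v s) i j q = Fo (FQ v s) i j q'
  unfold Fo
  by_cases hj : j = i
  · rw [if_pos hj, if_pos hj]
  · rw [if_neg hj, if_neg hj, F_congr H R hS hu hN hs hq hq' hZ (hl j hj)]

theorem Fq_congr (H : D.Hyp dg prr al T Lam) (R : Run h N SS (AdmDep D) v) (hS : ∀ l, univ.erase l ∈ SS) (hu : univ ∉ SS)
    (hN : ∀ l, 0 < N (univ.erase l)) {s : ℕ} (hs : s ≤ T) {q q' : Pt (Fin 3) X β φ} (hq : (D.P h s).p q ≠ 0)
    (hq' : (D.P h s).p q' ≠ 0) (hZ : ZQ D v (5 * s) q = ZQ D v (5 * s) q') (hl : ∀ j, q.2.2 j = q'.2.2 j) :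
    Fq h v p i s q = Fq h v p i s q' := by
  have h1 : Ar h v p (2 * s) q = Ar h v p (2 * s) q' := Ar0_fac h p s q q' hZ
  have h2 := Z1_congr (i := i) H R hS hu hN hs hq hq' hZ fun j _ => hl j
  have h3 := F_congr H R hS hu hN hs hq hq' hZ (hl i)
  have h4 : (D.P h s).pv (fun u => (tup (Fo (FQ v s) i) u, ZQ D v (5 * s) u)) (FQ v s i) q (FQ v s i q') =
      (D.P h s).pv (fun u => (tup (Fo (FQ v s) i) u, ZQ D v (5 * s) u)) (FQ v s i) q' (FQ v s i q') :=
    FP.pv_fac _ _ _ _ _ _ h2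
  have h5 : (D.P h s).pv (ZbQ D v (5 * s) i) (FQ v s i) q (FQ v s i q') =
      (D.P h s).pv (ZbQ D v (5 * s) i) (FQ v s i) q' (FQ v s i q') := FP.pv_fac _ _ _ _ _ _ (ZQ_Zb _ i q q' hZ)
  unfold Fq ro
  rw [h1, h3, h4, h5]

/-- two points with the data have the same thin labels -/
theorem Dat_Z {s : ℕ} {a : List (Pt (Fin 3) X β φ)} {f : Fin 3 → φ} {b : β} {u q q' : Pt (Fin 3) X β φ}
    (h1 : Dat h v i s a f b u q) (h2 : Dat h v i s a f b u q') : ZQ D v (5 * s) q = ZQ D v (5 * s) q' := by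
  rw [KDL.ZQ_TH]
  refine ⟨fun j => ?_, h1.2.2.2.2.2.2.trans h2.2.2.2.2.2.2.symm⟩
  by_cases hj : j = i
  · subst hj
    refine Prod.ext (h1.2.1.trans h2.2.1.symm) ?_
    show Um v (nc (5 * s) {j}) {j} q.1 q.2.1 = Um v (nc (5 * s) {j}) {j} q'.1 q'.2.1
    rw [nc_5s s (pth_sing j)]
    exact h1.2.2.1.trans h2.2.2.1.symm
  · exact (h1.2.2.2.2.2.1 j hj).trans (h2.2.2.2.2.2.1 j hj).symm

theorem Dat_l {s : ℕ} {a : List (Pt (Fin 3) X β φ)} {f : Fin 3 → φ} {b : β} {u q q' : Pt (Fin 3) X β φ}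
    (h1 : Dat h v i s a f b u q) (h2 : Dat h v i s a f b u q') (j : Fin 3) : q.2.2 j = q'.2.2 j := by
  by_cases hj : j = i
  · subst hj
    exact h1.2.2.2.2.1.trans h2.2.2.2.2.1.symm
  · exact (h1.2.2.2.1 j hj).trans (h2.2.2.2.1 j hj).symm

/-- **the function of the sampled point** -/
theorem psi0_dat (H : D.Hyp dg prr al T Lam) (R : Run h N SS (AdmDep D) v) (hS : ∀ l, univ.erase l ∈ SS) (hu : univ ∉ SS)
    (hN : ∀ l, 0 < N (univ.erase l)) {s : ℕ} (hs : s ≤ T) {a : List (Pt (Fin 3) X β φ)} {f : Fin 3 → φ} {b : β}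
    {u q : Pt (Fin 3) X β φ} (hq : Dat h v i s a f b u q) : psi0 h v p i s (some a) f b u = Fq h v p i s q := by
  classical
  have hh : ∃ q, Dat h v i s a f b u q := ⟨q, hq⟩
  have e : psi0 h v p i s (some a) f b u = Fq h v p i s (Classical.choose hh) := by
    unfold psi0
    exact dif_pos hh
  rw [e]
  have h1 := Classical.choose_spec hh
  exact Fq_congr H R hS hu hN hs h1.1 hq.1 (Dat_Z h1 hq) (Dat_l h1 hq)

theorem psi0_no {s : ℕ} {a : List (Pt (Fin 3) X β φ)} {f : Fin 3 → φ} {b : β} {u : Pt (Fin 3) X β φ}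
    (hq : ¬ ∃ q, Dat h v i s a f b u q) : psi0 h v p i s (some a) f b u = 0 := by
  classical
  unfold psi0
  exact dif_neg hq

/-- the data see the label of `i` and what the top sees -/
theorem Dat_fac {s : ℕ} {a : List (Pt (Fin 3) X β φ)} {f : Fin 3 → φ} {b : β} {u u' : Pt (Fin 3) X β φ}
    (hl : u.2.2 i = u'.2.2 i) (hL : Lw D v s i u = Lw D v s i u') : Dat h v i s a f b u = Dat h v i s a f b u' := by
  rw [Lw_Zb] at hL
  obtain ⟨g1, g2⟩ := Zb_dat.1 hL
  funext q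
  have e1 : (∀ j, j ≠ i → XLq v (5 * s) j q = XLq v (5 * s) j u) = ∀ j, j ≠ i → XLq v (5 * s) j q = XLq v (5 * s) j u' :=
    propext (forall_congr' fun j => forall_congr' fun hj => by rw [g1 j hj])
  unfold Dat
  rw [e1, hl, g2]

/-- (A1), without hypotheses -/
theorem psi_fac0 (s : ℕ) (a : Option (List (Pt (Fin 3) X β φ))) (f : Fin 3 → φ) (b : β) :
    Fac (fun u => (Tp v s i u, Lw D v s i u)) (psi0 h v p i s a f b) := by
  classical
  intro x y e
  have e1 : Tp v s i x = Tp v s i y := congrArg Prod.fst e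
  have e2 : Lw D v s i x = Lw D v s i y := congrArg Prod.snd e
  cases a with
  | none => rfl
  | some a =>
    have e3 : Dat h v i s a f b x = Dat h v i s a f b y := Dat_fac (Tp_lab e1) e2
    have key : ∀ P Q : Pt (Fin 3) X β φ → Prop, P = Q →
        (if hh : ∃ q, P q then Fq h v p i s (Classical.choose hh) else 0) =
          if hh : ∃ q, Q q then Fq h v p i s (Classical.choose hh) else 0 := by
      rintro P _ rfl
      rfl
    unfold psi0
    exact key _ _ e3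

/-- (A1) -/
theorem psi_fac (_ : D.Hyp dg prr al T Lam) (_ : Run h N SS (AdmDep D) v) (_ : ∀ l, univ.erase l ∈ SS) (_ : univ ∉ SS)
    (_ : ∀ l, 0 < N (univ.erase l)) {s : ℕ} (_ : s ≤ T) (a : Option (List (Pt (Fin 3) X β φ))) (f : Fin 3 → φ) (b : β) :
    Fac (fun u => (Tp v s i u, Lw D v s i u)) (psi0 h v p i s a f b) := psi_fac0 s a f b

/-- (A4) -/
theorem ro_le (H : D.Hyp dg prr al T Lam) (R : Run h N SS (AdmDep D) v) (hS : ∀ l, univ.erase l ∈ SS) (hu : univ ∉ SS)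
    (hN : ∀ l, 0 < N (univ.erase l)) {s : ℕ} (hs : s ≤ T) {q : Pt (Fin 3) X β φ} (hp : (D.P h s).p q ≠ 0) :
    ro h v i s q ≤ Lam ∧ - (3 * Lam) ≤ ro h v i s q := by
  have hL : Real.log (1 / al) ≤ Lam := TT.log_al H h.pos
  have e : ro h v i s q = sp (D.P h s) (FQ v s i) (ZbQ D v (5 * s) i) q -
      sp (D.P h s) (FQ v s i) (fun u => (tup (Fo (FQ v s) i) u, ZQ D v (5 * s) u)) q := log_ratio_sp (D.P h s) hp
  have h1 := sp_Zb_le H R hS hu hN hs (le_refl (5 * s)) i hp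
  have h2 := sp_Z_le H R hS hu hN hs (le_refl (5 * s)) hp
  have h3 := sp_nonneg (D.P h s) (FQ v s i) (ZbQ D v (5 * s) i) hp
  have h4 := sp_nonneg (D.P h s) (FQ v s i) (fun u => (tup (Fo (FQ v s) i) u, ZQ D v (5 * s) u)) hp
  have h5 := Fo_chain (D.P h s) (FQ v s) i (ZQ D v (5 * s)) q
  have h6 := sp_nonneg (D.P h s) (tup (Fo (FQ v s) i)) (ZQ D v (5 * s)) hp
  have h7 : sp (D.P h s) (tup fun _ : Unit => FQ v s i) (fun u => (tup (Fo (FQ v s) i) u, ZQ D v (5 * s) u)) q =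
      sp (D.P h s) (FQ v s i) (fun u => (tup (Fo (FQ v s) i) u, ZQ D v (5 * s) u)) q := by
    refine sp_congr (D.P h s) (fun x y e => ?_) (Fac.refl _) (fun x y e => ?_) (Fac.refl _) q
    · exact congrFun (Prod.mk.inj e).1 ()
    · exact funext fun _ => (Prod.mk.inj e).1
  rw [h7] at h5
  rw [e]
  constructor
  · linarith
  · linarith

/-! ### normalised -/

/-- the point with the data and the label of another point of the class -/
def qn (i : Fin 3) (q w : Pt (Fin 3) X β φ) : Pt (Fin 3) X β φ := (q.1, q.2.1, fun j => if j = i then w.2.2 i else q.2.2 j)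

/-- **one label is possible, all labels of the class are possible** -/
theorem Dat_qn {s : ℕ} {a : List (Pt (Fin 3) X β φ)} {f : Fin 3 → φ} {b : β} {u q w : Pt (Fin 3) X β φ}
    (hq : Dat h v i s a f b u q) (hw : (D.P h s).p w ≠ 0) (hL : Lw D v s i w = Lw D v s i u) :
    Dat h v i s a f b w (qn i q w) := by
  rw [Lw_Zb] at hL
  obtain ⟨g1, g2⟩ := Zb_dat.1 hL
  obtain ⟨k0, k1, k2, k3, k4, k5, k6⟩ := hq
  refine ⟨?_, k1, k2, fun j hj => ?_, ?_, fun j hj => ?_, ?_⟩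
  · have hn : ((Fintype.card X : ℝ) * (Fintype.card β : ℝ) ^ Fintype.card (Fin 3)) ≠ 0 := by
      have h1 : (Fintype.card X : ℝ) ≠ 0 := by exact_mod_cast Fintype.card_ne_zero
      have h2 : (Fintype.card β : ℝ) ≠ 0 := by exact_mod_cast Fintype.card_ne_zero
      exact mul_ne_zero h1 (pow_ne_zero _ h2)
    have e0 : (∏ l, D.kf s l q.1 q.2.1 (q.2.2 l)) / (Fintype.card X * (Fintype.card β : ℝ) ^ Fintype.card (Fin 3)) ≠ 0 := k0
    have ew : (∏ l, D.kf s l w.1 w.2.1 (w.2.2 l)) / (Fintype.card X * (Fintype.card β : ℝ) ^ Fintype.card (Fin 3)) ≠ 0 := hw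
    have p0 := Finset.prod_ne_zero_iff.1 (div_ne_zero_iff.1 e0).1
    have pw := Finset.prod_ne_zero_iff.1 (div_ne_zero_iff.1 ew).1
    show (∏ l, D.kf s l q.1 q.2.1 ((qn i q w).2.2 l)) /
      (Fintype.card X * (Fintype.card β : ℝ) ^ Fintype.card (Fin 3)) ≠ 0
    refine div_ne_zero (Finset.prod_ne_zero_iff.2 fun l _ => ?_) hn
    by_cases hl : l = i
    · subst hl
      have e1 : (qn l q w).2.2 l = w.2.2 l := if_pos rfl
      rw [e1]
      -- cells of `q` and `w`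
      have hnd : nd D (TP.nn (5 * s)) q = nd D (TP.nn (5 * s)) w :=
        (congrArg Prod.snd k6).trans (congrArg Prod.snd g2).symm
      rw [nn_5s] at hnd
      have hxa : D.qa s q.1 = D.qa s w.1 := congrArg Prod.fst hnd
      have hyb : ∀ j, D.qb s (q.2.1 j) = D.qb s (w.2.1 j) := fun j => congrFun (congrArg Prod.snd hnd) j
      have hy : ∀ j, j ≠ l → q.2.1 j = w.2.1 j := fun j hj => by
        have a1 : XLq v (5 * s) j q = XLq v (5 * s) j w := (k5 j hj).trans (g1 j hj).symm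
        exact congrArg Prod.fst a1
      have h1 : D.kf s l q.1 q.2.1 = D.kf s l q.1 w.2.1 := D.dep s l q.1 q.2.1 w.2.1 hy (hyb l)
      rw [h1]
      have h2 := h.thick s l w.1 q.1 w.2.1 (w.2.2 l) hxa.symm (pw l (mem_univ l))
      exact (h.pos.trans_le h2).ne'
    · have e1 : (qn i q w).2.2 l = q.2.2 l := if_neg hl
      rw [e1]
      exact p0 l (mem_univ l)
  · show (if j = i then w.2.2 i else q.2.2 j) = f j
    rw [if_neg hj]
    exact k3 j hj
  · show (if i = i then w.2.2 i else q.2.2 i) = w.2.2 i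
    rw [if_pos rfl]
  · exact (k5 j hj).trans (g1 j hj).symm
  · exact k6.trans g2.symm

/-- (A2) -/
theorem psi_one (H : D.Hyp dg prr al T Lam) (R : Run h N SS (AdmDep D) v) (hS : ∀ l, univ.erase l ∈ SS) (hu : univ ∉ SS)
    (hN : ∀ l, 0 < N (univ.erase l)) {s : ℕ} (hs : s ≤ T) (a : Option (List (Pt (Fin 3) X β φ))) (f : Fin 3 → φ) (b : β)
    {u : Pt (Fin 3) X β φ} (hp : (D.P h s).p u ≠ 0) :
    (D.P h s).ce (Lw D v s i) (fun w => Real.exp (psi0 h v p i s a f b w)) u ≤ 1 := by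
  classical
  have hone : (D.P h s).ce (Lw D v s i) (fun _ => (1 : ℝ)) u = 1 := FP.ce_const _ _ 1 hp
  by_cases hex : ∃ a', a = some a' ∧ ∃ q w, (D.P h s).p w ≠ 0 ∧ Lw D v s i w = Lw D v s i u ∧ Dat h v i s a' f b w q ∧
      Ar h v p (2 * s) q
  · obtain ⟨a', rfl, q, w0, hw0, hLw, hD, hA⟩ := hex
    -- the law of the letter of `i` given the others, at the data
    set Z1 := fun u' : Pt (Fin 3) X β φ => (tup (Fo (FQ v s) i) u', ZQ D v (5 * s) u') with hZ1
    set Φ : List (Pt (Fin 3) X β φ) × (Fin 3 → Option φ) → ℝ := fun g =>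
      (D.P h s).pv Z1 (FQ v s i) q g / (D.P h s).pv (ZbQ D v (5 * s) i) (FQ v s i) q g with hΦ
    have hq0 : (D.P h s).p q ≠ 0 := hD.1
    -- what the top sees at `q`
    have hZbq : ∀ w, (D.P h s).p w ≠ 0 → Lw D v s i w = Lw D v s i u → ZbQ D v (5 * s) i (qn i q w) =
        ZbQ D v (5 * s) i w := by
      intro w hw hL
      have hDn := Dat_qn hD hw (hL.trans hLw.symm)
      exact Zb_dat.2 ⟨hDn.2.2.2.2.2.1, hDn.2.2.2.2.2.2⟩
    have hval : ∀ w, (D.P h s).p w ≠ 0 → Lw D v s i w = Lw D v s i u →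
        Real.exp (psi0 h v p i s (some a') f b w) = Φ (FQ v s i w) := by
      intro w hw hL
      have hDn := Dat_qn hD hw (hL.trans hLw.symm)
      have hn0 := hDn.1
      have hZ : ZQ D v (5 * s) (qn i q w) = ZQ D v (5 * s) q := by
        rw [KDL.ZQ_TH]
        exact ⟨fun j => rfl, rfl⟩
      have hZ1q : Z1 (qn i q w) = Z1 q := Z1_congr (i := i) H R hS hu hN hs hn0 hq0 hZ fun j hj => by
        show (if j = i then w.2.2 i else q.2.2 j) = q.2.2 j
        rw [if_neg hj]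
      have hF : FQ v s i (qn i q w) = FQ v s i w := by
        refine (top_name H R hS hu hN hs le_rfl hn0 hw (hZbq w hw hL)).2 ?_
        show (if i = i then w.2.2 i else q.2.2 i) = w.2.2 i
        rw [if_pos rfl]
      rw [psi0_dat H R hS hu hN hs hDn]
      have hAn : Ar h v p (2 * s) (qn i q w) := (Ar_lab h p (2 * s) q.1 q.2.1 _ _).1 hA
      unfold Fq ro
      rw [ind_of hAn, one_mul]
      have m1 := (D.P h s).m_pos (ZbQ D v (5 * s) i) hn0
      have m2 := (D.P h s).m_pos Z1 hn0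
      have m3 := (D.P h s).m_pos (fun u' => (FQ v s i u', ZbQ D v (5 * s) i u')) hn0
      have m4 := (D.P h s).m_pos (fun u' => (FQ v s i u', Z1 u')) hn0
      have p1 : 0 < (D.P h s).pv Z1 (FQ v s i) (qn i q w) (FQ v s i (qn i q w)) := by
        rw [FP.pv_self]
        exact div_pos m4 m2
      have p2 : 0 < (D.P h s).pv (ZbQ D v (5 * s) i) (FQ v s i) (qn i q w) (FQ v s i (qn i q w)) := by
        rw [FP.pv_self]
        exact div_pos m3 m1
      rw [Real.exp_log (div_pos p1 p2), hΦ]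
      show _ = (D.P h s).pv Z1 (FQ v s i) q (FQ v s i w) / (D.P h s).pv (ZbQ D v (5 * s) i) (FQ v s i) q (FQ v s i w)
      rw [hF]
      have c1 : (D.P h s).pv Z1 (FQ v s i) (qn i q w) (FQ v s i w) = (D.P h s).pv Z1 (FQ v s i) q (FQ v s i w) :=
        FP.pv_fac _ _ _ _ _ _ hZ1q
      have c2 : (D.P h s).pv (ZbQ D v (5 * s) i) (FQ v s i) (qn i q w) (FQ v s i w) =
          (D.P h s).pv (ZbQ D v (5 * s) i) (FQ v s i) q (FQ v s i w) := FP.pv_fac _ _ _ _ _ _ (ZQ_Zb _ i _ _ hZ)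
      rw [c1, c2]
    have hqu : Lw D v s i q = Lw D v s i u := by
      have h1 := hZbq u hp rfl
      have h2 : ZQ D v (5 * s) (qn i q u) = ZQ D v (5 * s) q := by
        rw [KDL.ZQ_TH]
        exact ⟨fun j => rfl, rfl⟩
      rw [Lw_Zb]
      rw [← h1]
      exact (ZQ_Zb _ i _ _ h2).symm
    have e1 : (D.P h s).ce (Lw D v s i) (fun w => Real.exp (psi0 h v p i s (some a') f b w)) u =
        (D.P h s).ce (Lw D v s i) (fun w => Φ (FQ v s i w)) u := Gdy.ce_congr_on fun w hw hL => hval w hw hL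
    have e2 : (D.P h s).ce (Lw D v s i) (fun w => Φ (FQ v s i w)) u =
        ∑ g ∈ vals (FQ v s i), (D.P h s).pv (Lw D v s i) (FQ v s i) u g * Φ g :=
      ((D.P h s).sum_pv (W := Lw D v s i) (FQ v s i) (F := fun _ g => Φ g) (fun _ _ _ _ => rfl) u).symm
    have e3 : ∑ g ∈ vals (FQ v s i), (D.P h s).pv Z1 (FQ v s i) q g = 1 := by
      have k1 := (D.P h s).sum_pv (W := Z1) (FQ v s i) (F := fun _ _ => (1 : ℝ)) (fun _ _ _ _ => rfl) q
      rw [FP.ce_const _ _ 1 hq0] at k1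
      simpa using k1
    rw [e1, e2, ← e3]
    refine Finset.sum_le_sum fun g _ => ?_
    have c1 : (D.P h s).pv (Lw D v s i) (FQ v s i) u g = (D.P h s).pv (ZbQ D v (5 * s) i) (FQ v s i) q g := by
      have c2 : (D.P h s).pv (Lw D v s i) (FQ v s i) u g = (D.P h s).pv (Lw D v s i) (FQ v s i) q g :=
        FP.pv_fac _ _ _ _ _ _ hqu.symm
      rw [c2, Lw_Zb]
    have c3 : 0 ≤ (D.P h s).pv Z1 (FQ v s i) q g := FP.pv_nonneg _ _ _ _ _
    rw [c1, hΦ]
    show (D.P h s).pv (ZbQ D v (5 * s) i) (FQ v s i) q g * ((D.P h s).pv Z1 (FQ v s i) q g /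
      (D.P h s).pv (ZbQ D v (5 * s) i) (FQ v s i) q g) ≤ _
    by_cases hz : (D.P h s).pv (ZbQ D v (5 * s) i) (FQ v s i) q g = 0
    · rw [hz, zero_mul]
      exact c3
    · rw [mul_div_cancel₀ _ hz]
  · -- no contribution
    push Not at hex
    rw [← hone]
    refine le_of_eq (Gdy.ce_congr_on fun w hw hL => ?_)
    have h0 : psi0 h v p i s a f b w = 0 := by
      cases a with
      | none => rfl
      | some a' =>
        by_cases hD : ∃ q, Dat h v i s a' f b w q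
        · obtain ⟨q, hq⟩ := hD
          rw [psi0_dat H R hS hu hN hs hq]
          unfold Fq
          rw [ind_not (hex a' rfl q w hw hL hq), zero_mul]
        · exact psi0_no hD
    rw [h0, Real.exp_zero]

/-! ### the sampled point -/

/-- (A3) -/
theorem psi_eq (H : D.Hyp dg prr al T Lam) (R : Run h N SS (AdmDep D) v) (hS : ∀ l, univ.erase l ∈ SS) (hu : univ ∉ SS)
    (hN : ∀ l, 0 < N (univ.erase l)) {s : ℕ} (hs : s ≤ T) {w : Om W X β} (hw : tb.Ps.p w ≠ 0) {r : (Fin 3 → W) × β}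
    (hr : ∀ j, (tb.Q j).p (r.1 j) ≠ 0) (hb : D.qb s r.2 = D.qb s (w.2.2 i)) :
    psi0 h v p i s (gA h v p i s r.2 (tb.pt s w)) (fun j => (tb.pt s (sub i r w)).2.2 j) r.2 (tb.pt s w) =
      Fq h v p i s (tb.pt s (sub i r w)) := by
  classical
  set u := tb.pt s w with hu'
  set q := tb.pt s (sub i r w) with hq'
  have hv : Codes D v := R.codes
  have eq1 : q.1 = u.1 := rfl
  have eq2 : q.2.1 = Function.update u.2.1 i r.2 := by
    funext j
    show (if j = i then r.2 else w.2.2 j) = Function.update w.2.2 i r.2 j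
    by_cases hj : j = i
    · subst hj
      rw [if_pos rfl, Function.update_self]
    · rw [if_neg hj, Function.update_of_ne hj]
  have hyi : q.2.1 i = r.2 := by rw [eq2, Function.update_self]
  have hyj : ∀ j, j ≠ i → q.2.1 j = u.2.1 j := fun j hj => by rw [eq2, Function.update_of_ne hj]
  have hcell : ∀ j, D.qb s (q.2.1 j) = D.qb s (u.2.1 j) := fun j => by
    by_cases hj : j = i
    · subst hj
      rw [hyi]
      exact hb
    · rw [hyj j hj]
  have hsup : (D.P h s).p q ≠ 0 := by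
    have hwt : ∀ j, (tb.Q j).p (w.2.1 j) ≠ 0 := by
      have h3 : (∏ j, (tb.Q j).p (w.2.1 j)) / (Fintype.card X * (Fintype.card β : ℝ) ^ 3) ≠ 0 := hw
      exact fun j => Finset.prod_ne_zero_iff.1 (div_ne_zero_iff.1 h3).1 j (mem_univ j)
    have hn : ((Fintype.card X : ℝ) * (Fintype.card β : ℝ) ^ Fintype.card (Fin 3)) ≠ 0 := by
      have h1 : (Fintype.card X : ℝ) ≠ 0 := by exact_mod_cast Fintype.card_ne_zero
      have h2 : (Fintype.card β : ℝ) ≠ 0 := by exact_mod_cast Fintype.card_ne_zero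
      exact mul_ne_zero h1 (pow_ne_zero _ h2)
    show (∏ l, D.kf s l q.1 q.2.1 (q.2.2 l)) / (Fintype.card X * (Fintype.card β : ℝ) ^ Fintype.card (Fin 3)) ≠ 0
    refine div_ne_zero (Finset.prod_ne_zero_iff.2 fun l _ => ?_) hn
    exact Tab.supp tb hs l (ω := (sub i r w).2.1 l) (by
      show (tb.Q l).p (if l = i then w.2.1 l else r.1 l) ≠ 0
      by_cases hl : l = i
      · rw [if_pos hl]
        exact hwt l
      · rw [if_neg hl]
        exact hr l) q.1 q.2.1
  by_cases hX : ssQ h v (5 * s) i (u.1, Function.update u.2.1 i r.2, u.2.2) ≤ p.X0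
  · have eg : gA h v p i s r.2 u = some (Um v (s + 1) {i} u.1 (Function.update u.2.1 i r.2)) := if_pos hX
    rw [eg]
    refine psi0_dat H R hS hu hN hs ⟨hsup, hyi, ?_, fun j _ => rfl, ?_, fun j hj => ?_, ?_⟩
    · rw [eq1, eq2]
    · -- the label of `i`
      show tb.lab s i ((sub i r w).2.1 i) w.1 (sub i r w).2.2 = tb.lab s i (w.2.1 i) w.1 w.2.2
      have e1 : (sub i r w).2.1 i = w.2.1 i := if_pos rfl
      rw [e1]
      exact tb.dep s i (w.2.1 i) w.1 _ _ (fun j hj => hyj j hj) (hcell i)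
    · refine Prod.ext (hyj j hj) ?_
      show Um v (nc (5 * s) {j}) {j} q.1 q.2.1 = Um v (nc (5 * s) {j}) {j} u.1 u.2.1
      rw [nc_5s s (pth_sing j), eq1]
      exact Um_codes hv (n := s) le_rfl {j} u.1 (fun k hk => by
        rw [Finset.mem_singleton.1 hk]
        exact hyj j hj) hcell
    · show (Um v (nc (5 * s) ∅) ∅ q.1 q.2.1, nd D (TP.nn (5 * s)) q) = (Um v (nc (5 * s) ∅) ∅ u.1 u.2.1, nd D (TP.nn (5 * s)) u)
      rw [nc_5s s pth_emp, nn_5s, eq1]
      refine Prod.ext ?_ ?_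
      · exact Um_codes hv (n := s) le_rfl ∅ u.1 (fun k hk => absurd hk (Finset.notMem_empty k)) hcell
      · show (D.qa s q.1, fun j => D.qb s (q.2.1 j)) = (D.qa s u.1, fun j => D.qb s (u.2.1 j))
        rw [eq1]
        exact Prod.ext rfl (funext hcell)
  · have eg : gA h v p i s r.2 u = Option.none := if_neg hX
    rw [eg]
    show (0 : ℝ) = Fq h v p i s q
    unfold Fq
    rw [ind_not, zero_mul]
    intro hA
    refine hX ?_
    have h1 := (AQ_0 h p hA).1 i
    refine le_trans (le_of_eq ?_) h1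
    have e1 : q = (u.1, Function.update u.2.1 i r.2, q.2.2) := by
      rw [← eq2]
      rfl
    rw [e1]
    exact sp_fac _ _ _ _ _ rfl

end dat

end

end Pool.Agent.GMH.One
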