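import Pool.Agent.GMH.One3d

/-!
# GMH/One3b (helper93): the hints of the payment of OneOK and their cost

* `typ_card` : a map has at most `e^c` values of surprisal at most `c` in a fibre;
* `Gh_dep`, `Gh_on`, `Gh_cost` : the hints `Gh` (name, code list at the named point, two labels read in the tables) depend on the
  hidden point, the points of the index set and the node; their cost.
-/

set_option autoImplicit false
set_option linter.unusedSectionVars false

namespace Pool.Agent.GMH.One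

open Finset Pool.Agent.PWZ Pool.Agent.M3 Pool.Agent.GM Pool.Agent.GM.Harm Pool.Agent.GMH Pool.Agent.GMH.NZ
open Pool.Agent.GMH.V3 Pool.Agent.GMH.TP Pool.Agent.GMH.Dy Pool.Agent.GMH.PayS

noncomputable section

/-- number of the values of surprisal at most `c` -/
theorem typ_card {Om κ ι : Type*} [Fintype Om] (P : FP Om) (X : Om → κ) (Z : Om → ι)
    (hpos : ∀ w, 0 < P.m (fun v => (X v, Z v)) w) (z : ι) (c : ℝ) :
    ∃ s : Finset κ, (s.card : ℝ) ≤ Real.exp c ∧ ∀ w, Z w = z → sp P X Z w ≤ c → X w ∈ s := by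
  classical
  set F : Finset Om := univ.filter fun w => Z w = z ∧ sp P X Z w ≤ c with hF
  refine ⟨F.image X, ?_, fun w h1 h2 => Finset.mem_image.2 ⟨w, Finset.mem_filter.2 ⟨mem_univ _, h1, h2⟩, rfl⟩⟩
  rcases F.eq_empty_or_nonempty with he | ⟨w0, hw0⟩
  · rw [he, Finset.image_empty, Finset.card_empty]
    exact_mod_cast (Real.exp_pos c).le
  obtain ⟨_, hz0, _⟩ := Finset.mem_filter.1 hw0
  set M : ℝ := P.E (fun v => ind (Z v = z)) with hM
  have hZm : ∀ w, Z w = z → P.m Z w = M := fun w hw => by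
    unfold FP.m
    rw [hw]
  have hMpos : 0 < M := by
    rw [← hZm w0 hz0]
    exact lt_of_lt_of_le (hpos w0) (P.m_anti (Fac.snd X Z) w0)
  have h1 : ∀ x ∈ F.image X, Real.exp (-c) * M ≤ P.E (fun v => ind (X v = x ∧ Z v = z)) := by
    intro x hx
    obtain ⟨w, hw, rfl⟩ := Finset.mem_image.1 hx
    obtain ⟨_, hz, hs⟩ := Finset.mem_filter.1 hw
    have e1 : P.E (fun v => ind (X v = X w ∧ Z v = z)) = P.m (fun v => (X v, Z v)) w := by
      unfold FP.m
      refine P.E_congr fun v _ => ?_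
      congr 1
      rw [Prod.mk.injEq, hz]
    rw [e1]
    unfold sp at hs
    rw [hZm w hz] at hs
    have h2 : Real.log M - c ≤ Real.log (P.m (fun v => (X v, Z v)) w) := by linarith
    have h3 := Real.exp_le_exp.2 h2
    rw [Real.exp_log (hpos w), sub_eq_add_neg, Real.exp_add, Real.exp_log hMpos] at h3
    linarith
  have h2 : ∑ x ∈ F.image X, P.E (fun v => ind (X v = x ∧ Z v = z)) ≤ M := by
    rw [← FP.E_sum]
    refine P.E_mono fun v _ => ?_
    have e : ∀ x, ind (X v = x ∧ Z v = z) = (if X v = x then ind (Z v = z) else 0) := by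
      intro x
      by_cases hx : X v = x
      · rw [if_pos hx]
        congr 1
        exact propext ⟨fun hh => hh.2, fun hh => ⟨hx, hh⟩⟩
      · rw [if_neg hx, ind_not (fun hh => hx hh.1)]
    rw [Finset.sum_congr rfl fun x _ => e x, Finset.sum_ite_eq (F.image X) (X v)]
    split_ifs
    · exact le_rfl
    · exact ind_nonneg _
  have h3 : ((F.image X).card : ℝ) * (Real.exp (-c) * M) ≤ M := by
    refine le_trans ?_ h2
    rw [← nsmul_eq_mul]
    exact Finset.card_nsmul_le_sum _ _ _ h1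
  have h4 : ((F.image X).card : ℝ) * Real.exp (-c) ≤ 1 := by
    have h5 : ((F.image X).card : ℝ) * Real.exp (-c) * M ≤ 1 * M := by rw [one_mul, mul_assoc]; exact h3
    exact le_of_mul_le_mul_right h5 hMpos
  have h5 := mul_le_mul_of_nonneg_right h4 (Real.exp_pos c).le
  rw [mul_assoc, ← Real.exp_add, neg_add_cancel, Real.exp_zero, mul_one, one_mul] at h5
  exact h5

variable {X β γ φ : Type} [Fintype X] [Fintype β] [Fintype φ] [Nonempty X] [Nonempty β]
variable {D : HD (Fin 3) X β γ φ} {al : ℝ} {h : D.Thick al} {v : ℕ → Finset (Fin 3) → X → (Fin 3 → β) → Pt (Fin 3) X β φ}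
variable {dg : ℕ → X → ℝ} {prr : ℕ → Fin 3 → φ → φ} {T : ℕ} {Lam : ℝ} {W : Type} [Fintype W] (tb : Tab D prr T W)
variable {p : AP} {i : Fin 3}

/-! ### codes and cells -/

theorem rep_spec (n : ℕ) (b : β) : D.qb n (rep D n b) = D.qb n b := by
  unfold rep
  exact Classical.epsilon_spec (p := fun b' => D.qb n b' = D.qb n b) ⟨b, rfl⟩

theorem rep_congr {n : ℕ} {b b' : β} (hb : D.qb n b = D.qb n b') : rep D n b = rep D n b' := by
  unfold rep
  rw [hb]

theorem Um_dep (hv : Codes D v) {m s : ℕ} (hm : m ≤ s + 1) {I : Finset (Fin 3)} (x : X) {y y' : Fin 3 → β}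
    (h1 : ∀ j ∈ I, y j = y' j) (h2 : ∀ j, D.qb s (y j) = D.qb s (y' j)) : Um v m I x y = Um v m I x y' := by
  unfold Um
  rw [List.map_inj_left]
  intro τ hτ
  have hτ' : τ ≤ s := by have := List.mem_range.1 hτ; omega
  exact hv τ I x y y' h1 fun j => qb_mono D hτ' (h2 j)

theorem nn_5 (s : ℕ) : TP.nn (5 * s) = s := by
  have h1 := nn_add s 0 (by omega)
  rw [add_zero] at h1
  rw [h1]
  unfold nnj
  rw [if_pos rfl]

theorem nc_5 (s : ℕ) {J : Finset (Fin 3)} (hJ : pth J) : TP.nc (5 * s) J = s + 1 := by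
  have h1 := nc_add s 0 hJ (by omega)
  rw [add_zero] at h1
  rw [h1]
  unfold ncj
  rw [if_neg (Nat.not_lt_zero _), add_zero]

theorem pth_0 : pth (∅ : Finset (Fin 3)) := by
  unfold pth
  simp

theorem pth_1 (j : Fin 3) : pth ({j} : Finset (Fin 3)) := by
  unfold pth
  simp

/-- a point in the cell of `y_i` in the place of `y_i` -/
theorem upd_qb {s : ℕ} {y : Fin 3 → β} {b : β} (hb : D.qb s b = D.qb s (y i)) (j : Fin 3) :
    D.qb s (Function.update y i b j) = D.qb s (y j) := by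
  by_cases hj : j = i
  · subst hj
    rw [Function.update_self]
    exact hb
  · rw [Function.update_of_ne hj]

theorem upd_eq {s : ℕ} {y y' : Fin 3 → β} (b : β) (hy : ∀ j, D.qb s (y j) = D.qb s (y' j)) (j : Fin 3) :
    D.qb s (Function.update y i b j) = D.qb s (Function.update y' i b j) := by
  by_cases hj : j = i
  · subst hj
    rw [Function.update_self, Function.update_self]
  · rw [Function.update_of_ne hj, Function.update_of_ne hj]
    exact hy j

/-- the code list at the point `b` -/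
theorem gA_dep (hv : Codes D v) (s : ℕ) (b : β) {a c : Pt (Fin 3) X β φ} (hx : a.1 = c.1)
    (hy : ∀ j, D.qb s (a.2.1 j) = D.qb s (c.2.1 j)) : gA h v p i s b a = gA h v p i s b c := by
  have e1 : Um v (s + 1) {i} a.1 (Function.update a.2.1 i b) = Um v (s + 1) {i} c.1 (Function.update c.2.1 i b) := by
    rw [hx]
    refine Um_dep hv (s := s) le_rfl c.1 (fun j hj => ?_) (upd_eq b hy)
    rw [Finset.mem_singleton.1 hj, Function.update_self, Function.update_self]
  have e2 : NPq D v (5 * s) (a.1, Function.update a.2.1 i b, a.2.2) = NPq D v (5 * s) (c.1, Function.update c.2.1 i b, c.2.2) := by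
    unfold NPq NP nd
    rw [nn_5, nc_5 s pth_0]
    refine Prod.ext ?_ (Prod.ext ?_ ?_)
    · show Um v (s + 1) ∅ a.1 _ = Um v (s + 1) ∅ c.1 _
      rw [hx]
      exact Um_dep hv (s := s) le_rfl c.1 (fun j hj => absurd hj (Finset.notMem_empty j)) (upd_eq b hy)
    · show D.qa s a.1 = D.qa s c.1
      rw [hx]
    · show (fun j => D.qb s (Function.update a.2.1 i b j)) = fun j => D.qb s (Function.update c.2.1 i b j)
      exact funext fun j => upd_eq b hy j
  have e3 : ssQ h v (5 * s) i (a.1, Function.update a.2.1 i b, a.2.2) =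
      ssQ h v (5 * s) i (c.1, Function.update c.2.1 i b, c.2.2) := by
    unfold ssQ
    refine sp_fac _ _ _ _ _ (Prod.ext ?_ (Prod.ext ?_ e2))
    · show XLq v (5 * s) i _ = XLq v (5 * s) i _
      unfold XLq XL
      rw [nc_5 s (pth_1 i)]
      refine Prod.ext ?_ e1
      show Function.update a.2.1 i b i = Function.update c.2.1 i b i
      rw [Function.update_self, Function.update_self]
    · show Function.update a.2.1 i b i = Function.update c.2.1 i b i
      rw [Function.update_self, Function.update_self]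
  unfold gA
  rw [e3, e1]

variable {M : ℕ} {θ : ℕ → β → Fin (M + 1) → (Fin 3 → W) × β} {nS : Pt (Fin 3) X β φ → ℕ}
  {kn : Pt (Fin 3) X β φ → Fin (M + 1)}

theorem smp_eq {a c : Pt (Fin 3) X β φ} (h1 : nS a = nS c) (h2 : kn a = kn c)
    (h3 : D.qb (TP.nn (nS c)) (a.2.1 i) = D.qb (TP.nn (nS c)) (c.2.1 i)) : smp D i θ nS kn a = smp D i θ nS kn c := by
  unfold smp
  rw [h1, h2, rep_congr h3]

/-- the labels read in the tables -/
theorem lbl_dep {l : Fin 3} (hl : l ≠ i) {a c : Pt (Fin 3) X β φ} (h1 : nS a = nS c) (h2 : kn a = kn c) (hx : a.1 = c.1)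
    (hy : ∀ j, D.qb (TP.nn (nS c)) (a.2.1 j) = D.qb (TP.nn (nS c)) (c.2.1 j))
    (hj : ∀ j, j ≠ l → j ≠ i → a.2.1 j = c.2.1 j) : lbl tb i θ nS kn l a = lbl tb i θ nS kn l c := by
  unfold lbl
  rw [smp_eq h1 h2 (hy i), h1, hx]
  refine tb.dep _ _ _ _ _ _ (fun j hjl => ?_) (upd_eq _ hy l)
  by_cases hji : j = i
  · subst hji
    rw [Function.update_self, Function.update_self]
  · rw [Function.update_of_ne hji, Function.update_of_ne hji]
    exact hj j hjl hji

private theorem f1 (i : Fin 3) : i + 1 ≠ i := by revert i; decide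
private theorem f2 (i : Fin 3) : i + 2 ≠ i := by revert i; decide
private theorem f3 (i : Fin 3) : i + 1 ≠ i + 2 := by revert i; decide
private theorem f4 (i j : Fin 3) : j ≠ i + 2 → j ≠ i → j = i + 1 := by revert i j; decide
private theorem f5 (i j : Fin 3) : j ≠ i + 1 → j ≠ i → j = i + 2 := by revert i j; decide
private theorem f6 (i j l : Fin 3) : j ≠ l → j ≠ i → l ≠ i → (univ.erase l).erase i = ({j} : Finset (Fin 3)) := by
  revert i j l; decide

/-- (B1) -/
theorem Gh_dep {t : ℕ} (hv : Codes D v) (hn : Fac (fun w : Pt (Fin 3) X β φ => (w.1, BB D t ∅ w)) nS)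
    (hk : Fac (fun w : Pt (Fin 3) X β φ => (w.1, BB D t ∅ w)) kn) (hs : ∀ w, TP.nn (nS w) ≤ t) :
    DepC D t (Gh h v tb p i θ nS kn) := by
  intro θ' J a c hx hJ hy
  have hB : (a.1, BB D t ∅ a) = (c.1, BB D t ∅ c) := by
    refine Prod.ext hx (BB_eq.2 ⟨fun j hj => absurd hj (Finset.notMem_empty j), ?_, hy⟩)
    rw [hx]
  have h1 : nS a = nS c := hn a c hB
  have h2 : kn a = kn c := hk a c hB
  have hy' : ∀ j, D.qb (TP.nn (nS c)) (a.2.1 j) = D.qb (TP.nn (nS c)) (c.2.1 j) := fun j => qb_mono D (hs c) (hy j)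
  unfold Gh
  by_cases hJ0 : J = ∅
  · rw [if_pos hJ0, if_pos hJ0]
    show (kn a, (gA h v p i (TP.nn (nS a)) (smp D i θ nS kn a).2 a, none)) =
      (kn c, (gA h v p i (TP.nn (nS c)) (smp D i θ nS kn c).2 c, none))
    rw [h2, smp_eq h1 h2 (hy' i), h1, gA_dep hv _ _ hx hy']
  rw [if_neg hJ0, if_neg hJ0]
  by_cases hJ1 : J = {i + 1}
  · rw [if_pos hJ1, if_pos hJ1]
    have e : lbl tb i θ nS kn (i + 2) a = lbl tb i θ nS kn (i + 2) c := by
      refine lbl_dep tb (f2 i) h1 h2 hx hy' fun j hj1 hj2 => hJ j ?_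
      rw [hJ1, Finset.mem_singleton]
      exact f4 i j hj1 hj2
    rw [e]
  rw [if_neg hJ1, if_neg hJ1]
  by_cases hJ2 : J = {i + 2}
  · rw [if_pos hJ2, if_pos hJ2]
    have e : lbl tb i θ nS kn (i + 1) a = lbl tb i θ nS kn (i + 1) c := by
      refine lbl_dep tb (f1 i) h1 h2 hx hy' fun j hj1 hj2 => hJ j ?_
      rw [hJ2, Finset.mem_singleton]
      exact f5 i j hj1 hj2
    rw [e]
  rw [if_neg hJ2, if_neg hJ2]

/-- (B2) -/
theorem Gh_on : On ∅ (Gh h v tb p i θ nS kn) := fun J hJ => absurd (Finset.empty_subset J) hJ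

/-! ### the cost -/

/-- masses of functions of the points are positive everywhere -/
theorem mpos_xy {κ : Type*} {Z : Pt (Fin 3) X β φ → κ} (hZ : XY Z) (t : ℕ) (w : Pt (Fin 3) X β φ) :
    0 < (D.P h t).m Z w := by
  obtain ⟨w0, _⟩ := (D.P h t).exists_p_ne
  have e : (D.P h t).m Z w = (∑ x, ∑ y, ind (Z (x, y, w0.2.2) = Z w)) / GMH.nn X β (Fin 3) := by
    rw [← E_labels0 h t fun x y => ind (Z (x, y, w0.2.2) = Z w)]
    unfold FP.m
    refine (D.P h t).E_congr fun u _ => ?_
    show ind (Z u = Z w) = ind (Z (u.1, u.2.1, w0.2.2) = Z w)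
    rw [hZ u.1 u.2.1 w0.2.2 u.2.2]
  rw [e]
  refine div_pos ?_ nn_pos
  refine Finset.sum_pos' (fun x _ => Finset.sum_nonneg fun y _ => ind_nonneg _) ⟨w.1, mem_univ _, ?_⟩
  refine Finset.sum_pos' (fun y _ => ind_nonneg _) ⟨w.2.1, mem_univ _, ?_⟩
  rw [ind_of (hZ w.1 w.2.1 w0.2.2 w.2.2)]
  exact one_pos

/-- public information with a point of the cell in the place of `y_i` -/
theorem NPq_upd (hv : Codes D v) {s : ℕ} {u : Pt (Fin 3) X β φ} {b : β} (hb : D.qb s b = D.qb s (u.2.1 i)) :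
    NPq D v (5 * s) (u.1, Function.update u.2.1 i b, u.2.2) = NPq D v (5 * s) u := by
  unfold NPq NP nd
  rw [nn_5, nc_5 s pth_0]
  refine Prod.ext ?_ (Prod.ext rfl ?_)
  · exact Um_dep hv (s := s) le_rfl u.1 (fun j hj => absurd hj (Finset.notMem_empty j)) (upd_qb hb)
  · exact funext fun j => upd_qb hb j

/-- the typical code lists at a hardwired point in a fibre of the public information -/
theorem gA_card (hv : Codes D v) (s : ℕ) (b : β) (w : Pt (Fin 3) X β φ) :
    ∃ A : Finset (Option (List (Pt (Fin 3) X β φ))), (A.card : ℝ) ≤ Real.exp p.X0 + 1 ∧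
      ∀ u : Pt (Fin 3) X β φ, NPq D v (5 * s) u = NPq D v (5 * s) w → D.qb s b = D.qb s (u.2.1 i) →
        gA h v p i s b u ∈ A := by
  classical
  obtain ⟨S, hS, hS2⟩ := typ_card (D.P h (5 * s / 5)) (XLq v (5 * s) i) (fun u => (u.2.1 i, NPq D v (5 * s) u))
    (fun w => mpos_xy (h := h) (Z := fun u => (XLq v (5 * s) i u, (u.2.1 i, NPq D v (5 * s) u)))
      (fun _ _ _ _ => rfl) _ w) (b, NPq D v (5 * s) w) p.X0
  refine ⟨insert none ((S.image Prod.snd).image some), ?_, fun u hu hb => ?_⟩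
  · have h1 : ((insert none ((S.image Prod.snd).image some)).card : ℝ) ≤ (((S.image Prod.snd).image some).card : ℝ) + 1 := by
      exact_mod_cast Finset.card_insert_le _ _
    have h2 : (((S.image Prod.snd).image some).card : ℝ) ≤ (S.card : ℝ) := by
      exact_mod_cast Finset.card_image_le.trans Finset.card_image_le
    linarith
  · unfold gA
    split_ifs with h1
    · refine Finset.mem_insert_of_mem (Finset.mem_image.2 ⟨_, Finset.mem_image.2
        ⟨XLq v (5 * s) i (u.1, Function.update u.2.1 i b, u.2.2), hS2 _ ?_ h1, ?_⟩, rfl⟩)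
      · rw [NPq_upd hv hb, hu]
        show (Function.update u.2.1 i b i, _) = _
        rw [Function.update_self]
      · unfold XLq XL
        rw [nc_5 s (pth_1 i)]
    · exact Finset.mem_insert_self _ _

variable {Q : FP (Pt (Fin 3) X β φ × Unit)} {t : ℕ}

theorem lo_hint {ν : Type*} {G : Finset (Fin 3) → Pt (Fin 3) X β φ × Unit → ν} {j : Fin 3} {a c : Pt (Fin 3) X β φ × Unit}
    (hl : lo G {j} a = lo G {j} c) : G ∅ a = G ∅ c :=
  lo_eq.1 hl ∅ ⟨Finset.empty_subset _, fun hh => absurd (hh (Finset.mem_singleton_self j)) (Finset.notMem_empty j)⟩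

/-- labels and node below `J` determine the class of the empty set -/
theorem cls_0 {J : Finset (Fin 3)} {a c : Pt (Fin 3) X β φ × Unit}
    (hl : le (fun I (w : Pt (Fin 3) X β φ × Unit) => LL (φ := φ) (Um v (t + 1)) I w.1) J a =
      le (fun I (w : Pt (Fin 3) X β φ × Unit) => LL (Um v (t + 1)) I w.1) J c) (hB : BB D t J a.1 = BB D t J c.1) :
    Cls D v t ∅ a.1 = Cls D v t ∅ c.1 := by
  refine Prod.ext (le_eq.2 fun I hI => ?_) ?_
  · exact le_eq.1 hl I (hI.trans (Finset.empty_subset J))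
  · rw [BB_eq] at hB
    exact BB_eq.2 ⟨fun j hj => absurd hj (Finset.notMem_empty j), hB.2⟩

/-- the class of the empty set determines the public information of the earlier levels -/
theorem cls_NPq {s : ℕ} (hs : s ≤ t) {a c : Pt (Fin 3) X β φ} (hc : Cls D v t ∅ a = Cls D v t ∅ c) :
    NPq D v (5 * s) a = NPq D v (5 * s) c := by
  have h1 : Um v (t + 1) ∅ a.1 a.2.1 = Um v (t + 1) ∅ c.1 c.2.1 :=
    (LL_eq.1 (le_eq.1 (Prod.mk.inj hc).1 ∅ (Finset.Subset.refl _))).1
  have h2 := (BB_eq.1 (Prod.mk.inj hc).2).2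
  unfold NPq NP nd
  rw [nn_5, nc_5 s pth_0]
  refine Prod.ext ?_ (Prod.ext (qa_mono D hs h2.1) (funext fun j => qb_mono D hs (h2.2 j)))
  show Um v (s + 1) ∅ a.1 a.2.1 = Um v (s + 1) ∅ c.1 c.2.1
  unfold Um at h1 ⊢
  rw [List.map_inj_left] at h1 ⊢
  exact fun τ hτ => h1 τ (List.mem_range.2 (by have := List.mem_range.1 hτ; omega))

theorem cost_pub (hv : Codes D v) (hnS : Fac (Cls D v t ∅) nS) (hs : ∀ w, TP.nn (nS w) ≤ t)
    (hθb : ∀ n b k, D.qb (TP.nn n) (θ n b k).2 = D.qb (TP.nn n) b) :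
    cost Q (fun I w => BB D t I w.1) (fun I w => LL (Um v (t + 1)) I w.1) (Gh h v tb p i θ nS kn) ∅ ≤
      Real.log (((M : ℝ) + 1) * (Real.exp p.X0 + 1)) := by
  classical
  refine PayC.cost_card fun w _ => ?_
  set s : ℕ := TP.nn (nS w.1) with hs0
  set b0 : β := rep D s (w.1.2.1 i) with hb0
  choose A hA hA2 using fun k : Fin (M + 1) => gA_card (h := h) (p := p) (i := i) hv s (θ (nS w.1) b0 k).2 w.1
  refine ⟨univ.biUnion fun k => (A k).image fun a => (k, (a, none)), ?_, fun u _ _ hle hB => ?_⟩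
  · have e1 : ((univ.biUnion fun k => (A k).image fun a => (k, (a, (none : Option φ)))).card : ℝ) ≤
        ∑ k, (((A k).image fun a => (k, (a, (none : Option φ)))).card : ℝ) := by
      exact_mod_cast Finset.card_biUnion_le
    have e2 : ∑ k, (((A k).image fun a => (k, (a, (none : Option φ)))).card : ℝ) ≤
        ∑ _k : Fin (M + 1), (Real.exp p.X0 + 1) := by
      refine Finset.sum_le_sum fun k _ => le_trans ?_ (hA k)
      exact_mod_cast Finset.card_image_le
    have e3 : ∑ _k : Fin (M + 1), (Real.exp p.X0 + 1) = ((M : ℝ) + 1) * (Real.exp p.X0 + 1) := by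
      rw [Finset.sum_const, Finset.card_univ, Fintype.card_fin, nsmul_eq_mul]
      push_cast
      ring
    linarith
  · have hc := cls_0 (D := D) (v := v) (t := t) hle hB
    have hn : nS u.1 = nS w.1 := hnS u.1 w.1 hc
    have hq : ∀ j, D.qb s (u.1.2.1 j) = D.qb s (w.1.2.1 j) := fun j => qb_mono D (hs w.1) ((BB_eq.1 hB).2.2 j)
    have hsm : smp D i θ nS kn u.1 = θ (nS w.1) b0 (kn u.1) := by
      unfold smp
      rw [hn, rep_congr (hq i)]
    have hG : Gh h v tb p i θ nS kn ∅ u =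
        (kn u.1, (gA h v p i s (θ (nS w.1) b0 (kn u.1)).2 u.1, none)) := by
      unfold Gh
      rw [if_pos rfl, hn, hsm]
    rw [hG]
    refine Finset.mem_biUnion.2 ⟨kn u.1, mem_univ _, Finset.mem_image.2 ⟨_, hA2 (kn u.1) u.1 (cls_NPq (hs w.1) hc) ?_, rfl⟩⟩
    rw [hθb, hb0, ← hs0, rep_spec, hq i]

/-- the labels at the named point -/
theorem cost_lbl (ht : t ≤ T) (hnS : Fac (Cls D v t ∅) nS)
    (hs : ∀ w, TP.nn (nS w) ≤ t) (hθ : ∀ n b k j, (tb.Q j).p ((θ n b k).1 j) ≠ 0) {j l : Fin 3} (hjl : j ≠ l)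
    (hji : j ≠ i) (hli : l ≠ i)
    (hG : ∀ w : Pt (Fin 3) X β φ × Unit, Gh h v tb p i θ nS kn {j} w = (0, (none, some (lbl tb i θ nS kn l w.1)))) :
    cost Q (fun I w => BB D t I w.1) (fun I w => LL (Um v (t + 1)) I w.1) (Gh h v tb p i θ nS kn) {j} ≤
      Real.log (1 / al) := by
  classical
  refine PayC.cost_card fun w _ => ?_
  set s : ℕ := TP.nn (nS w.1) with hs0
  set r : (Fin 3 → W) × β := smp D i θ nS kn w.1 with hr
  refine ⟨(lts D s al l w.1.1 (Function.update w.1.2.1 i r.2)).image fun F => (0, (none, some F)), ?_,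
    fun u _ hlo hle hB => ?_⟩
  · refine le_trans ?_ (lts_card h s l w.1.1 (Function.update w.1.2.1 i r.2))
    exact_mod_cast Finset.card_image_le
  · have hc := cls_0 (D := D) (v := v) (t := t) hle hB
    have hn : nS u.1 = nS w.1 := hnS u.1 w.1 hc
    have hq : ∀ j, D.qb s (u.1.2.1 j) = D.qb s (w.1.2.1 j) := fun j => qb_mono D (hs w.1) ((BB_eq.1 hB).2.2 j)
    have hk : kn u.1 = kn w.1 := by
      have h1 := lo_hint hlo
      unfold Gh at h1
      rw [if_pos rfl, if_pos rfl] at h1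
      exact (Prod.mk.inj h1).1
    have hsm : smp D i θ nS kn u.1 = r := smp_eq hn hk (hq i)
    rw [hG]
    refine Finset.mem_image.2 ⟨_, ?_, rfl⟩
    unfold lbl
    rw [hsm, hn]
    refine PayC.ltr_mem (K := Fin 3) h (hs w.1) (l := l) (c := i) r.2 (v := u.1) ?_ ?_
    · rw [f6 i j l hjl hji hli]
      exact hB
    · refine tb.supp ((hs w.1).trans ht) l ?_ _ _
      rw [hr]
      exact hθ _ _ _ l

set_option linter.unusedVariables false in
/-- (B3) -/
theorem Gh_cost {n N1 : ℝ} (H : D.Hyp dg prr al T Lam) (R : Run h (pr3 (Fin 3) n N1) (SS1 (Fin 3)) (AdmDep D) v)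
    (hn : 1 ≤ n) (hN1 : 1 ≤ N1) {t : ℕ} (ht : t ≤ T) (hnS : Fac (Cls D v t ∅) nS) (hs : ∀ w, TP.nn (nS w) ≤ t)
    (hθ : ∀ n b k j, (tb.Q j).p ((θ n b k).1 j) ≠ 0)
    (hθb : ∀ n b k, D.qb (TP.nn n) (θ n b k).2 = D.qb (TP.nn n) b)
    {Q : FP (Pt (Fin 3) X β φ × Unit)} (hQ : ∀ w, Q.p w ≠ 0 → (D.P h t).p w.1 ≠ 0) :
    ∑ J ∈ SS1 (Fin 3), pr3 (Fin 3) n N1 J * cost Q (fun I w => BB D t I w.1) (fun I w => LL (Um v (t + 1)) I w.1)
      (Gh h v tb p i θ nS kn) J ≤ Real.log (((M : ℝ) + 1) * (Real.exp p.X0 + 1)) + 2 * N1 * Real.log (1 / al) := by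
  classical
  set A : ℝ := Real.log (((M : ℝ) + 1) * (Real.exp p.X0 + 1)) with hA
  set B : ℝ := N1 * Real.log (1 / al) with hB
  have h12 : ({i + 2} : Finset (Fin 3)) ≠ {i + 1} := fun hh => f3 i (Finset.singleton_injective hh).symm
  have hA0 : 0 ≤ A := by
    refine Real.log_nonneg ?_
    have h1 : (0 : ℝ) ≤ (M : ℝ) := Nat.cast_nonneg _
    have h2 := (Real.exp_pos p.X0).le
    nlinarith [mul_nonneg h1 h2]
  have hL0 : 0 ≤ Real.log (1 / al) := PayC.log_al_nonneg h (0 : Fin 3)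
  have hB0 : 0 ≤ B := mul_nonneg (by linarith) hL0
  have hp1 : ∀ j : Fin 3, pr3 (Fin 3) n N1 {j} = N1 := by
    intro j
    unfold pr3
    rw [Finset.card_singleton, if_neg one_ne_zero, if_pos rfl]
  have key : ∀ J ∈ SS1 (Fin 3), pr3 (Fin 3) n N1 J * cost Q (fun I w => BB D t I w.1)
      (fun I w => LL (Um v (t + 1)) I w.1) (Gh h v tb p i θ nS kn) J ≤
        (if J = ∅ then A else 0) + ((if J = {i + 1} then B else 0) + (if J = {i + 2} then B else 0)) := by
    intro J _
    by_cases hJ0 : J = ∅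
    · subst hJ0
      rw [if_pos rfl, if_neg (fun hh => absurd hh.symm (Finset.singleton_ne_empty _)),
        if_neg (fun hh => absurd hh.symm (Finset.singleton_ne_empty _)), add_zero, add_zero]
      have e : pr3 (Fin 3) n N1 ∅ = 1 := by
        unfold pr3
        rw [Finset.card_empty, if_pos rfl]
      rw [e, one_mul]
      exact cost_pub tb R.codes hnS hs hθb
    · by_cases hJ1 : J = {i + 1}
      · subst hJ1
        rw [if_neg hJ0, if_pos rfl, if_neg (fun hh => h12 hh.symm), zero_add, add_zero, hp1]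
        refine mul_le_mul_of_nonneg_left ?_ (by linarith)
        refine cost_lbl tb ht hnS hs hθ (j := i + 1) (l := i + 2) (f3 i) (f1 i) (f2 i) fun w => ?_
        unfold Gh
        rw [if_neg (Finset.singleton_ne_empty _), if_pos rfl]
      · by_cases hJ2 : J = {i + 2}
        · subst hJ2
          rw [if_neg hJ0, if_neg hJ1, if_pos rfl, zero_add, zero_add, hp1]
          refine mul_le_mul_of_nonneg_left ?_ (by linarith)
          refine cost_lbl tb ht hnS hs hθ (j := i + 2) (l := i + 1) (f3 i).symm (f2 i) (f1 i) fun w => ?_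
          unfold Gh
          rw [if_neg (Finset.singleton_ne_empty _), if_neg h12, if_pos rfl]
        · rw [if_neg hJ0, if_neg hJ1, if_neg hJ2, add_zero, add_zero, cost_const, mul_zero]
          intro a c
          unfold Gh
          rw [if_neg hJ0, if_neg hJ1, if_neg hJ2, if_neg hJ0, if_neg hJ1, if_neg hJ2]
  refine (Finset.sum_le_sum key).trans ?_
  rw [Finset.sum_add_distrib, Finset.sum_add_distrib, Finset.sum_ite_eq' (SS1 (Fin 3)) ∅,
    Finset.sum_ite_eq' (SS1 (Fin 3)) {i + 1}, Finset.sum_ite_eq' (SS1 (Fin 3)) {i + 2}]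
  have e1 : (if (∅ : Finset (Fin 3)) ∈ SS1 (Fin 3) then A else 0) ≤ A := by split_ifs <;> linarith
  have e2 : (if ({i + 1} : Finset (Fin 3)) ∈ SS1 (Fin 3) then B else 0) ≤ B := by split_ifs <;> linarith
  have e3 : (if ({i + 2} : Finset (Fin 3)) ∈ SS1 (Fin 3) then B else 0) ≤ B := by split_ifs <;> linarith
  have e4 : 2 * N1 * Real.log (1 / al) = B + B := by rw [hB]; ring
  linarith

end

end Pool.Agent.GMH.One
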