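import Pool.Agent.GMH.One2
import Pool.Agent.GMH.One3a
import Pool.Agent.GMH.One3b
import Pool.Agent.GMH.MVI

/-!
# GMH/One3c (helper93): the payments of OneOK (D7): ends of the public epochs at a later level (pay_end of GMH/PayS), ends at
the level of the start and deviation at the start (pay_def of GMH/PayR)
-/

set_option autoImplicit false
set_option linter.unusedSectionVars false

namespace Pool.Agent.GMH.One

open Finset Pool.Agent.PWZ Pool.Agent.M3 Pool.Agent.GM Pool.Agent.GM.Harm Pool.Agent.GMH Pool.Agent.GMH.NZ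
open Pool.Agent.GMH.V3 Pool.Agent.GMH.TP Pool.Agent.GMH.Dy Pool.Agent.GMH.PayS Pool.Agent.GMH.MVI
open Pool.Agent.GMH.Gdy

noncomputable section

/-- a point of the support with at least the mean -/
theorem exists_ge_E {Ω : Type*} [Fintype Ω] (P : FP Ω) (f : Ω → ℝ) : ∃ w, P.p w ≠ 0 ∧ P.E f ≤ f w := by
  classical
  obtain ⟨w0, hw0⟩ := P.exists_p_ne
  obtain ⟨w, hw, hmax⟩ := Finset.exists_max_image (univ.filter fun w => P.p w ≠ 0) f
    ⟨w0, Finset.mem_filter.2 ⟨mem_univ _, hw0⟩⟩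
  exact ⟨w, (Finset.mem_filter.1 hw).2, P.E_le_const fun u hu => hmax u (Finset.mem_filter.2 ⟨mem_univ _, hu⟩)⟩

variable {X β γ φ : Type} [Fintype X] [Fintype β] [Fintype φ] [Nonempty X] [Nonempty β]
variable {D : HD (Fin 3) X β γ φ} {al : ℝ} (h : D.Thick al) (v : ℕ → Finset (Fin 3) → X → (Fin 3 → β) → Pt (Fin 3) X β φ)
variable {dg : ℕ → X → ℝ} {prr : ℕ → Fin 3 → φ → φ} {T : ℕ} (Lam : ℝ) {W : Type} [Fintype W] (tb : Tab D prr T W)
variable (p : AP) (i : Fin 3)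

/-- the signed function of the start `n`, clipped (the clip is not active on the support) -/
def Fn (n : ℕ) (w : Om W X β) : ℝ := max (-(3 * Lam)) (min Lam (Fq h v p i (TP.nn n) (tb.pt (TP.nn n) w)))

variable {h v tb p i Lam}

/-- cost of the hints -/
def cG (p : AP) (M : ℕ) (N1 al : ℝ) : ℝ := Real.log (((M : ℝ) + 1) * (Real.exp p.X0 + 1)) + 2 * N1 * Real.log (1 / al)

/-! ### averages over the samples -/

variable (tb) in
theorem SL_supp {n : ℕ} {b : β} {r : (Fin 3 → W) × β} (hr : (SL tb n b).p r ≠ 0) :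
    (∀ j, (tb.Q j).p (r.1 j) ≠ 0) ∧ D.qb n r.2 = D.qb n b := by
  unfold SL at hr
  obtain ⟨h1, h2⟩ := (pr_supp _ _).1 hr
  exact ⟨fun j => FPpi_supp h1 j, (cond_supp (cell_ne n b) h2).1⟩

/-- **fixed samples suffice** : a bound for all fixed families of samples is a bound for the mean over the samples -/
theorem avg_le {K M : ℕ} {no : Om W X β → ℕ} (hno : ∀ w, no w < K) {A : Om W X β → ℝ}
    {g : ℕ → (Fin (M + 1) → (Fin 3 → W) × β) → Om W X β → ℝ} {R : ℝ}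
    (hR : ∀ θ : ℕ → β → Fin (M + 1) → (Fin 3 → W) × β, (∀ n b k j, (tb.Q j).p ((θ n b k).1 j) ≠ 0) →
      (∀ n b k, D.qb (TP.nn n) (θ n b k).2 = D.qb (TP.nn n) b) →
      tb.Ps.E (fun w => A w * g (no w) (θ (no w) (rep D (TP.nn (no w)) (w.2.2 i))) w) ≤ R) :
    tb.Ps.E (fun w => A w * Es tb (i := i) M (no w) w (fun ρ => g (no w) ρ w)) ≤ R := by
  classical
  set f : ℕ → β → (Fin (M + 1) → (Fin 3 → W) × β) → ℝ := fun n b ρ =>
    tb.Ps.E (fun w => ind (no w = n ∧ rep D (TP.nn n) (w.2.2 i) = b) * (A w * g n ρ w)) with hf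
  have hch : ∀ n b, ∃ ρ, (FPpi fun _ : Fin (M + 1) => SL tb (TP.nn n) b).p ρ ≠ 0 ∧
      (FPpi fun _ : Fin (M + 1) => SL tb (TP.nn n) b).E (f n b) ≤ f n b ρ := fun n b => exists_ge_E _ _
  choose θ h1 h2 using hch
  have hs : ∀ F : ℕ → β → Om W X β → ℝ, tb.Ps.E (fun w => F (no w) (rep D (TP.nn (no w)) (w.2.2 i)) w) =
      ∑ n ∈ range K, ∑ b, tb.Ps.E (fun w => ind (no w = n ∧ rep D (TP.nn n) (w.2.2 i) = b) * F n b w) := by
    intro F
    have e1 : ∀ n ∈ range K, ∑ b, tb.Ps.E (fun w => ind (no w = n ∧ rep D (TP.nn n) (w.2.2 i) = b) * F n b w) =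
        tb.Ps.E (fun w => ind (no w = n) * F n (rep D (TP.nn n) (w.2.2 i)) w) := by
      intro n _
      rw [← FP.E_sum]
      refine FP.E_congr _ fun w _ => ?_
      rw [Finset.sum_eq_single (rep D (TP.nn n) (w.2.2 i)) (fun b _ hb => by
        rw [ind_not (fun hh => hb hh.2.symm), zero_mul]) (fun hh => absurd (mem_univ _) hh)]
      congr 1
      exact ind_cg ⟨fun hh => hh.1, fun hh => ⟨hh, rfl⟩⟩
    rw [Finset.sum_congr rfl e1, ← FP.E_sum]
    refine FP.E_congr _ fun w _ => ?_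
    rw [Finset.sum_eq_single (no w) (fun n _ hn => by rw [ind_not (fun hh => hn hh.symm), zero_mul])
      (fun hh => absurd (Finset.mem_range.2 (hno w)) hh), ind_of rfl, one_mul]
  have e2 : tb.Ps.E (fun w => A w * Es tb (i := i) M (no w) w (fun ρ => g (no w) ρ w)) =
      ∑ n ∈ range K, ∑ b, (FPpi fun _ : Fin (M + 1) => SL tb (TP.nn n) b).E (f n b) := by
    rw [hs fun n _ w => A w * Es tb (i := i) M n w (fun ρ => g n ρ w)]
    refine Finset.sum_congr rfl fun n _ => Finset.sum_congr rfl fun b _ => ?_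
    rw [hf, FP.E_swap]
    refine FP.E_congr _ fun w _ => ?_
    rw [FP.E_smul, FP.E_smul]
    by_cases hw : no w = n ∧ rep D (TP.nn n) (w.2.2 i) = b
    · have e3 : D.qb (TP.nn n) (w.2.2 i) = D.qb (TP.nn n) b := by
        rw [← hw.2, rep_spec]
      unfold Es
      rw [SL_cell tb e3]
    · rw [ind_not hw, zero_mul, zero_mul]
  rw [e2]
  refine le_trans (Finset.sum_le_sum fun n _ => Finset.sum_le_sum fun b _ => h2 n b) ?_
  have e4 := hs fun n b w => A w * g n (θ n b) w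
  refine le_trans (le_of_eq e4.symm) ?_
  exact hR θ (fun n b k => (SL_supp tb (FPpi_supp (h1 n b) k)).1) (fun n b k => (SL_supp tb (FPpi_supp (h1 n b) k)).2)

/-! ### the test read from the hints -/

section hints

variable {M : ℕ} {θ : ℕ → β → Fin (M + 1) → (Fin 3 → W) × β} {nS : Pt (Fin 3) X β φ → ℕ}
  {kn : Pt (Fin 3) X β φ → Fin (M + 1)}

/-- the name -/
def nm (r : Finset (Fin 3) → Option (Fin (M + 1) × (Option (List (Pt (Fin 3) X β φ)) × Option φ))) : Fin (M + 1) :=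
  ((r ∅).map fun a => a.1).getD 0

/-- the code list -/
def cl (r : Finset (Fin 3) → Option (Fin (M + 1) × (Option (List (Pt (Fin 3) X β φ)) × Option φ))) :
    Option (List (Pt (Fin 3) X β φ)) := ((r ∅).map fun a => a.2.1).getD Option.none

/-- the labels -/
def fl (i : Fin 3) (d : φ) (r : Finset (Fin 3) → Option (Fin (M + 1) × (Option (List (Pt (Fin 3) X β φ)) × Option φ)))
    (j : Fin 3) : φ :=
  if j = i + 1 then ((r {i + 2}).bind fun a => a.2.2).getD d else ((r {i + 1}).bind fun a => a.2.2).getD d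

variable (h v p i θ) in
/-- the test of the level `s`, start `n` -/
def psH (d : φ) (s n : ℕ) (r : Finset (Fin 3) → Option (Fin (M + 1) × (Option (List (Pt (Fin 3) X β φ)) × Option φ)))
    (u : Pt (Fin 3) X β φ) : ℝ :=
  psi0 h v p i s (cl r) (fl i d r) (θ n (rep D s (u.2.1 i)) (nm r)).2 u

theorem dif_cg {Ω : Type*} {P Q : Ω → Prop} (e : P = Q) (f : Ω → ℝ) [d1 : Decidable (∃ q, P q)]
    [d2 : Decidable (∃ q, Q q)] :
    (if hh : ∃ q, P q then f (Classical.choose hh) else 0) = if hh : ∃ q, Q q then f (Classical.choose hh) else 0 := by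
  subst e
  have : d1 = d2 := Subsingleton.elim _ _
  subst this
  rfl

theorem psi0_congr {s : ℕ} {a : Option (List (Pt (Fin 3) X β φ))} {f f' : Fin 3 → φ} (hf : ∀ j, j ≠ i → f j = f' j)
    (b : β) (u : Pt (Fin 3) X β φ) : psi0 h v p i s a f b u = psi0 h v p i s a f' b u := by
  cases a with
  | none => rfl
  | some a =>
    have e : Dat h v i s a f b u = Dat h v i s a f' b u := by
      funext q
      unfold Dat
      have e1 : (∀ j, j ≠ i → q.2.2 j = f j) = ∀ j, j ≠ i → q.2.2 j = f' j :=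
        propext ⟨fun hh j hj => (hh j hj).trans (hf j hj), fun hh j hj => (hh j hj).trans (hf j hj).symm⟩
      rw [e1]
    unfold psi0
    exact dif_cg (d1 := _) (d2 := _) e (Fq h v p i s)

theorem Lw_cell {s : ℕ} {a b : Pt (Fin 3) X β φ} (hab : Lw D v s i a = Lw D v s i b) :
    ∀ j, D.qb s (a.2.1 j) = D.qb s (b.2.1 j) := (BB_eq.1 (Prod.mk.inj hab).2).2.2

variable {n N1 : ℝ}

theorem hS3 : ∀ l : Fin 3, univ.erase l ∈ SS1 (Fin 3) := fun l => mem_SS1.2 (ne_univ l)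

theorem hu3 : (univ : Finset (Fin 3)) ∉ SS1 (Fin 3) := fun hh => mem_SS1.1 hh rfl

theorem hN3 (hn : 1 ≤ n) (hN1 : 1 ≤ N1) (l : Fin 3) : 0 < pr3 (Fin 3) n N1 (univ.erase l) :=
  zero_lt_one.trans_le (pr3_one hn hN1 _)

theorem psH_fac (H : D.Hyp dg prr al T Lam) (R : Run h (pr3 (Fin 3) n N1) (SS1 (Fin 3)) (AdmDep D) v)
    (hn : 1 ≤ n) (hN1 : 1 ≤ N1) {s : ℕ} (hs : s ≤ T) (d : φ) (n' : ℕ)
    (r : Finset (Fin 3) → Option (Fin (M + 1) × (Option (List (Pt (Fin 3) X β φ)) × Option φ))) :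
    Fac (fun u => (Tp v s i u, Lw D v s i u)) (psH h v p i θ d s n' r) := by
  intro a b hab
  have h1 := Lw_cell (Prod.mk.inj hab).2 i
  unfold psH
  rw [rep_congr h1]
  exact psi_fac H R hS3 hu3 (hN3 hn hN1) hs _ _ _ a b hab

theorem psH_one (H : D.Hyp dg prr al T Lam) (R : Run h (pr3 (Fin 3) n N1) (SS1 (Fin 3)) (AdmDep D) v)
    (hn : 1 ≤ n) (hN1 : 1 ≤ N1) {s : ℕ} (hs : s ≤ T) (d : φ) {n' : Pt (Fin 3) X β φ → ℕ} (hn' : Fac (Lw D v s i) n')
    (r : Finset (Fin 3) → Option (Fin (M + 1) × (Option (List (Pt (Fin 3) X β φ)) × Option φ)))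
    {u : Pt (Fin 3) X β φ} (hp : (D.P h s).p u ≠ 0) :
    (D.P h s).ce (Lw D v s i) (fun w => Real.exp (psH h v p i θ d s (n' w) r w)) u ≤ 1 := by
  refine le_trans (le_of_eq ?_) (psi_one (h := h) (v := v) (p := p) (i := i) H R hS3 hu3 (hN3 hn hN1) hs (cl r)
    (fl i d r) (θ (n' u) (rep D s (u.2.1 i)) (nm r)).2 hp)
  refine ce_congr_on fun w _ hw => ?_
  have h1 := Lw_cell hw i
  unfold psH
  rw [rep_congr h1, hn' w u hw]

private theorem sI0 (i : Fin 3) : (∅ : Finset (Fin 3)) ⊂ univ.erase i := by revert i; decide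
private theorem sI1 (i : Fin 3) : ({i + 1} : Finset (Fin 3)) ⊂ univ.erase i := by revert i; decide
private theorem sI2 (i : Fin 3) : ({i + 2} : Finset (Fin 3)) ⊂ univ.erase i := by revert i; decide
private theorem g1 (i : Fin 3) : i + 2 ≠ i + 1 := by revert i; decide
private theorem g2 (i j : Fin 3) : j ≠ i + 1 → j ≠ i → j = i + 2 := by revert i j; decide

theorem lo_at {ν Ω : Type*} {G : Finset (Fin 3) → Ω → ν} {J J' : Finset (Fin 3)} (hJ : J ⊂ J') (w : Ω) :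
    lo G J' w J = some (G J w) := by
  unfold lo
  rw [if_pos hJ]

theorem sub_pts (r : (Fin 3 → W) × β) (w : Om W X β) : (sub i r w).2.2 = Function.update w.2.2 i r.2 := by
  funext j
  by_cases hj : j = i
  · subst hj
    rw [Function.update_self]
    show (if j = j then r.2 else w.2.2 j) = r.2
    rw [if_pos rfl]
  · rw [Function.update_of_ne hj]
    show (if j = i then r.2 else w.2.2 j) = w.2.2 j
    rw [if_neg hj]

/-- **the value of the test** -/
theorem psH_eval (H : D.Hyp dg prr al T Lam) (R : Run h (pr3 (Fin 3) n N1) (SS1 (Fin 3)) (AdmDep D) v)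
    (hn : 1 ≤ n) (hN1 : 1 ≤ N1) (d : φ) {w : Om W X β} (hw : tb.Ps.p w ≠ 0) (t : ℕ) {n' s : ℕ}
    (hn' : nS (tb.pt t w) = n') (hs' : TP.nn n' = s) (hs : s ≤ T)
    (hθ : ∀ n b k j, (tb.Q j).p ((θ n b k).1 j) ≠ 0) (hθb : ∀ n b k, D.qb (TP.nn n) (θ n b k).2 = D.qb (TP.nn n) b) :
    psH h v p i θ d s n' (lo (Gh h v tb p i θ nS kn) (univ.erase i) (tb.pt t w, ())) (tb.pt s w) =
      Fq h v p i s (tb.pt s (sub i (θ n' (rep D s (w.2.2 i)) (kn (tb.pt t w))) w)) := by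
  set r := lo (Gh h v tb p i θ nS kn) (univ.erase i) (tb.pt t w, ()) with hr
  set r0 := θ n' (rep D s (w.2.2 i)) (kn (tb.pt t w)) with hr0
  have hsm : smp D i θ nS kn (tb.pt t w) = r0 := by
    unfold smp
    rw [hn', hs']
    rfl
  have e0 : r ∅ = some (kn (tb.pt t w), (gA h v p i s r0.2 (tb.pt t w), Option.none)) := by
    rw [hr, lo_at (sI0 i)]
    unfold Gh
    rw [if_pos rfl, hsm, hn', hs']
  have e1 : r {i + 1} = some (0, (Option.none, some (lbl tb i θ nS kn (i + 2) (tb.pt t w)))) := by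
    rw [hr, lo_at (sI1 i)]
    unfold Gh
    rw [if_neg (Finset.singleton_ne_empty _), if_pos rfl]
  have e2 : r {i + 2} = some (0, (Option.none, some (lbl tb i θ nS kn (i + 1) (tb.pt t w)))) := by
    rw [hr, lo_at (sI2 i)]
    unfold Gh
    rw [if_neg (Finset.singleton_ne_empty _), if_neg (fun hh => g1 i (Finset.singleton_injective hh)), if_pos rfl]
  have hnm : nm r = kn (tb.pt t w) := by
    unfold nm
    rw [e0]
    rfl
  have hcl : cl r = gA h v p i s r0.2 (tb.pt s w) := by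
    unfold cl
    rw [e0]
    show gA h v p i s r0.2 (tb.pt t w) = _
    exact gA_dep R.codes s r0.2 rfl fun _ => rfl
  have hlb : ∀ l, l ≠ i → lbl tb i θ nS kn l (tb.pt t w) = (tb.pt s (sub i r0 w)).2.2 l := by
    intro l hl
    unfold lbl
    rw [hsm, hn', hs']
    show tb.lab s l (r0.1 l) w.1 (Function.update w.2.2 i r0.2) =
      tb.lab s l (if l = i then w.2.1 l else r0.1 l) w.1 (sub i r0 w).2.2
    rw [if_neg hl, sub_pts]
  have hfl : ∀ j, j ≠ i → fl i d r j = (tb.pt s (sub i r0 w)).2.2 j := by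
    intro j hj
    unfold fl
    by_cases h1 : j = i + 1
    · rw [if_pos h1, e2, h1]
      exact hlb (i + 1) (h1 ▸ hj)
    · rw [if_neg h1, e1, g2 i j h1 hj]
      exact hlb (i + 2) ((g2 i j h1 hj) ▸ hj)
  unfold psH
  rw [hnm, hcl, psi0_congr hfl]
  exact psi_eq tb H R hS3 hu3 (hN3 hn hN1) hs hw (fun j => hθ n' _ _ j) (by
    have := hθb n' (rep D s (w.2.2 i)) (kn (tb.pt t w))
    rw [hs'] at this
    rw [hr0, this, rep_spec])

end hints

/-! ### the values of the samples at a level -/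

/-- a point of `Pt` on the space with tables -/
def lf (w0 : Om W X β) (q : Pt (Fin 3) X β φ) : Om W X β := (q.1, w0.2.1, q.2.1)

theorem lf_sgt (w0 : Om W X β) {t : ℕ} {q q' : Pt (Fin 3) X β φ} (h1 : q.1 = q'.1)
    (h2 : ∀ j, D.qb t (q.2.1 j) = D.qb t (q'.2.1 j)) : sgt D ∅ t (lf w0 q) = sgt D ∅ t (lf w0 q') :=
  sgt_eq.2 ⟨h1, fun j hj => absurd hj (Finset.notMem_empty j), h2⟩

/-- functions of the sight of the level `t`, on `Pt` -/
theorem lf_fac (w0 : Om W X β) {t : ℕ} {α : Type*} {f : Om W X β → α} (hf : Fac (sgt D ∅ t) f) :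
    Fac (fun q : Pt (Fin 3) X β φ => (q.1, BB D t ∅ q)) (fun q => f (lf w0 q)) := by
  intro a b hab
  have h1 := Prod.mk.inj hab
  exact hf _ _ (lf_sgt w0 h1.1 (BB_eq.1 h1.2).2.2)

theorem lf_pt (w0 : Om W X β) {t : ℕ} {α : Type*} {f : Om W X β → α} (hf : Fac (sgt D ∅ t) f) (s : ℕ) (w : Om W X β) :
    f (lf w0 (tb.pt s w)) = f w := hf _ _ rfl

/-- the class of the empty set sees the public information of the earlier states -/
theorem cls_NP {m t : ℕ} (hm : m ≤ 5 * t) : Fac (Cls (φ := φ) D v t ∅) (NPq D v m) := by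
  intro a b hab
  have h1 : Um v (t + 1) ∅ a.1 a.2.1 = Um v (t + 1) ∅ b.1 b.2.1 :=
    (LL_eq.1 (le_eq.1 (Prod.mk.inj hab).1 ∅ (Finset.Subset.refl _))).1
  have h2 := (BB_eq.1 (Prod.mk.inj hab).2).2
  have h3 : TP.nc m ∅ ≤ t + 1 := by
    have := nc_mono hm pth_0
    rw [nc_5 t pth_0] at this
    exact this
  have h4 : TP.nn m ≤ t := by
    have := nn_mono hm
    rw [nn_5 t] at this
    exact this
  unfold NPq NP nd
  refine Prod.ext ?_ (Prod.ext (qa_mono D h4 h2.1) (funext fun j => qb_mono D h4 (h2.2 j)))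
  show Um v (TP.nc m ∅) ∅ a.1 a.2.1 = Um v (TP.nc m ∅) ∅ b.1 b.2.1
  unfold Um at h1 ⊢
  rw [List.map_inj_left] at h1 ⊢
  exact fun τ hτ => h1 τ (List.mem_range.2 (by have := List.mem_range.1 hτ; omega))

/-- a function of the public information of the state `m`, on `Pt` -/
theorem lf_cls (w0 : Om W X β) {m t : ℕ} (hm : m ≤ 5 * t) {α : Type*} {f : Om W X β → α} (hf : Fac (NPo tb v m) f) :
    Fac (Cls (φ := φ) D v t ∅) (fun q => f (lf w0 q)) := by
  intro a b hab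
  refine hf _ _ ?_
  show NPq D v m (tb.pt 0 (lf w0 a)) = NPq D v m (tb.pt 0 (lf w0 b))
  exact cls_NP hm a b hab

theorem sub_supp {r : (Fin 3 → W) × β} (hr : ∀ j, (tb.Q j).p (r.1 j) ≠ 0) {w : Om W X β} (hw : tb.Ps.p w ≠ 0) :
    tb.Ps.p (sub i r w) ≠ 0 := by
  have h1 : (∏ j, (tb.Q j).p (w.2.1 j)) / (Fintype.card X * (Fintype.card β : ℝ) ^ 3) ≠ 0 := hw
  show (∏ j, (tb.Q j).p (if j = i then w.2.1 j else r.1 j)) / (Fintype.card X * (Fintype.card β : ℝ) ^ 3) ≠ 0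
  have h2 := div_ne_zero_iff.1 h1
  refine div_ne_zero (Finset.prod_ne_zero_iff.2 fun j _ => ?_) h2.2
  split_ifs
  · exact Finset.prod_ne_zero_iff.1 h2.1 j (mem_univ j)
  · exact hr j

variable {n N1 : ℝ}

/-- the clip is not active -/
theorem Fn_eq (H : D.Hyp dg prr al T Lam) (R : Run h (pr3 (Fin 3) n N1) (SS1 (Fin 3)) (AdmDep D) v)
    (hn : 1 ≤ n) (hN1 : 1 ≤ N1) {m : ℕ} (hm : TP.nn m ≤ T) {w : Om W X β} (hw : tb.Ps.p w ≠ 0) :
    Fn h v Lam tb p i m w = Fq h v p i (TP.nn m) (tb.pt (TP.nn m) w) := by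
  have h1 := ro_le (h := h) (v := v) (i := i) H R hS3 hu3 (hN3 hn hN1) hm ((pul_pt h tb hm).ne hw)
  have hL := H.Lam1
  have h2 : Fq h v p i (TP.nn m) (tb.pt (TP.nn m) w) ≤ Lam ∧ -(3 * Lam) ≤ Fq h v p i (TP.nn m) (tb.pt (TP.nn m) w) := by
    unfold Fq
    by_cases hA : Ar h v p (2 * TP.nn m) (tb.pt (TP.nn m) w)
    · rw [ind_of hA, one_mul]
      exact h1
    · rw [ind_not hA, zero_mul]
      constructor <;> linarith
  unfold Fn
  rw [min_eq_right h2.1, max_eq_right h2.2]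

section lev

variable {M : ℕ} (θ : ℕ → β → Fin (M + 1) → (Fin 3 → W) × β) (no : Om W X β → ℕ) (t : ℕ)

variable (h v Lam tb p i) in
/-- the values of the samples -/
def fk (w : Om W X β) (k : Fin (M + 1)) : ℝ :=
  rr tb i (Fn h v Lam tb p i) (no w) (θ (no w) (rep D (TP.nn (no w)) (w.2.2 i)) k) t w

variable {θ no t}

theorem fk_fac (hno : Fac (sgt D ∅ t) no) (hnt : ∀ w, TP.nn (no w) ≤ t) : Fac (sgt D ∅ t) (fk h v Lam tb p i θ no t) := by
  intro a b hab
  funext k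
  have h1 : no a = no b := hno a b hab
  have h2 : D.qb (TP.nn (no b)) (a.2.2 i) = D.qb (TP.nn (no b)) (b.2.2 i) := qb_mono D (hnt b) ((sgt_eq.1 hab).2.2 i)
  unfold fk rr
  rw [h1, rep_congr h2]
  exact tb.Ps.ce_fac _ _ a b hab

/-- **the mean of the test is the mean of the largest value** -/
theorem Y_eq (H : D.Hyp dg prr al T Lam) (R : Run h (pr3 (Fin 3) n N1) (SS1 (Fin 3)) (AdmDep D) v)
    (hn : 1 ≤ n) (hN1 : 1 ≤ N1) (hno : Fac (sgt D ∅ t) no) (hnt : ∀ w, TP.nn (no w) ≤ t) (ht : t ≤ T)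
    (hθ : ∀ n b k j, (tb.Q j).p ((θ n b k).1 j) ≠ 0) {A : Om W X β → Prop} (hA : Fac (sgt D ∅ t) A) (lam : ℝ) :
    tb.Ps.E (fun w => ind (A w ∧ lam / 2 ≤ fk h v Lam tb p i θ no t w (amax (fk h v Lam tb p i θ no t w))) *
        Fq h v p i (TP.nn (no w)) (tb.pt (TP.nn (no w)) (sub i (θ (no w) (rep D (TP.nn (no w)) (w.2.2 i))
          (amax (fk h v Lam tb p i θ no t w))) w))) =
      tb.Ps.E (fun w => ind (A w) * gp lam (fk h v Lam tb p i θ no t w)) := by
  have hf := fk_fac (h := h) (v := v) (Lam := Lam) (tb := tb) (p := p) (i := i) (θ := θ) hno hnt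
  set f := fk h v Lam tb p i θ no t with hfd
  set E : Om W X β → Prop := fun w => A w ∧ lam / 2 ≤ f w (amax (f w)) with hE
  have hEf : Fac (sgt D ∅ t) (fun w => ind (E w)) := by
    intro a b hab
    show ind (A a ∧ lam / 2 ≤ f a (amax (f a))) = ind (A b ∧ lam / 2 ≤ f b (amax (f b)))
    rw [hA a b hab, hf a b hab]
  have e1 : ∀ w, ind (A w) * gp lam (f w) = ind (E w) * tb.Ps.ce (sgt D ∅ t) (fun u =>
      Fn h v Lam tb p i (no u) (sub i (θ (no u) (rep D (TP.nn (no u)) (u.2.2 i)) (amax (f u))) u)) w := by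
    intro w
    have e2 : tb.Ps.ce (sgt D ∅ t) (fun u =>
        Fn h v Lam tb p i (no u) (sub i (θ (no u) (rep D (TP.nn (no u)) (u.2.2 i)) (amax (f u))) u)) w =
        f w (amax (f w)) := by
      have e3 : f w (amax (f w)) = tb.Ps.ce (sgt D ∅ t) (fun u => Fn h v Lam tb p i (no w)
        (sub i (θ (no w) (rep D (TP.nn (no w)) (w.2.2 i)) (amax (f w))) u)) w := rfl
      rw [e3]
      refine ce_congr_on fun u _ hu => ?_
      have h1 : no u = no w := hno u w hu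
      have h2 : D.qb (TP.nn (no w)) (u.2.2 i) = D.qb (TP.nn (no w)) (w.2.2 i) :=
        qb_mono D (hnt w) ((sgt_eq.1 hu).2.2 i)
      have h3 : f u = f w := hf u w hu
      rw [h1, rep_congr h2, h3]
    rw [e2]
    by_cases h1 : A w
    · by_cases h2 : lam / 2 ≤ f w (amax (f w))
      · rw [ind_of h1, ind_of (show E w from ⟨h1, h2⟩), one_mul, one_mul]
        unfold gp
        rw [if_pos h2]
      · rw [ind_of h1, ind_not (show ¬ E w from fun hh => h2 hh.2), one_mul, zero_mul]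
        unfold gp
        rw [if_neg h2]
    · rw [ind_not h1, ind_not (show ¬ E w from fun hh => h1 hh.1), zero_mul, zero_mul]
  rw [tb.Ps.E_congr (fun w _ => e1 w), tb.Ps.E_mul_ce hEf]
  refine tb.Ps.E_congr fun w hw => ?_
  rw [Fn_eq H R hn hN1 ((hnt w).trans ht) (sub_supp (hθ _ _ _) hw)]

theorem Y_ge {A : Om W X β → Prop} {lam : ℝ} (hl : 0 ≤ lam) (f : Om W X β → Fin (M + 1) → ℝ) :
    lam / 2 * tb.Ps.Pr (fun w => A w ∧ lam / 2 ≤ f w (amax (f w))) ≤ tb.Ps.E (fun w => ind (A w) * gp lam (f w)) := by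
  unfold FP.Pr
  rw [← FP.E_smul]
  refine FP.E_mono _ fun w _ => ?_
  by_cases h1 : A w
  · by_cases h2 : lam / 2 ≤ f w (amax (f w))
    · rw [ind_of h1, ind_of (show A w ∧ lam / 2 ≤ f w (amax (f w)) from ⟨h1, h2⟩), one_mul, mul_one]
      unfold gp
      rw [if_pos h2]
      exact h2
    · rw [ind_not (show ¬ (A w ∧ lam / 2 ≤ f w (amax (f w))) from fun hh => h2 hh.2), mul_zero]
      exact mul_nonneg (ind_nonneg _) (gp_nonneg hl _)
  · rw [ind_not h1, ind_not (show ¬ (A w ∧ lam / 2 ≤ f w (amax (f w))) from fun hh => h1 hh.1), mul_zero, zero_mul]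

theorem pay_alg {N0 Y G Hc PE PF L1 sq c cc lam : ℝ} (hY : N0 * Y ≤ N0 * G + cc * Hc + 2 * c * PE)
    (hH : Hc ≤ L1 * PE + sq * PF) (hPE : lam / 2 * PE ≤ Y) (hc : 2 / lam * (cc * L1 + 2 * c) ≤ N0 / 2) (hlam : 0 < lam)
    (hN0 : 1 ≤ N0) (hcc : 0 ≤ cc) (hPE0 : 0 ≤ PE) (hL : 0 ≤ cc * L1 + 2 * c) (hX : 0 ≤ sq * PF) :
    Y ≤ 2 * G + 2 * cc * (sq * PF) := by
  have h1 : PE ≤ 2 / lam * Y := by
    rw [div_mul_eq_mul_div, le_div_iff₀ hlam]
    linarith
  have hY0 : 0 ≤ Y := le_trans (mul_nonneg (by positivity) hPE0) hPE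
  have h2 : (cc * L1 + 2 * c) * PE ≤ N0 / 2 * Y := by
    calc (cc * L1 + 2 * c) * PE ≤ (cc * L1 + 2 * c) * (2 / lam * Y) := mul_le_mul_of_nonneg_left h1 hL
      _ = 2 / lam * (cc * L1 + 2 * c) * Y := by ring
      _ ≤ N0 / 2 * Y := mul_le_mul_of_nonneg_right hc hY0
  have h3 := mul_le_mul_of_nonneg_left hH hcc
  have h4 : N0 * Y ≤ N0 * (2 * G) + 2 * cc * (sq * PF) := by nlinarith
  have h5 : 0 ≤ 2 * cc * (sq * PF) := mul_nonneg (by linarith) hX
  have h6 : N0 * Y ≤ N0 * (2 * G + 2 * cc * (sq * PF)) := by nlinarith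
  exact le_of_mul_le_mul_left h6 (by linarith)

theorem nn_iff {m s : ℕ} : TP.nn m ≤ s ↔ m ≤ 5 * s := by
  constructor
  · intro h0
    by_contra hcon
    have h1 := nn_mono (show 5 * s + 1 ≤ m by omega)
    have h2 : TP.nn (5 * s + 1) = s + 1 := by
      rw [nn_add _ 1 (by omega)]
      unfold nnj
      rw [if_neg (by omega)]
    omega
  · intro h0
    have h1 := nn_mono h0
    rw [nn_5] at h1
    exact h1

theorem pr3_2 (i : Fin 3) : pr3 (Fin 3) n N1 (univ.erase i) = n * N1 := by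
  unfold pr3
  rw [Finset.card_erase_of_mem (mem_univ _), Finset.card_univ, Fintype.card_fin]
  rw [if_neg (by norm_num), if_neg (by norm_num)]

theorem pr3_0 : pr3 (Fin 3) n N1 ∅ = 1 := by
  unfold pr3
  rw [Finset.card_empty, if_pos rfl]

theorem log_th {th : ℝ} (ht : 0 < th) (ht1 : th ≤ 1) : 0 ≤ Real.log (1 / th) :=
  Real.log_nonneg (by rw [le_div_iff₀ ht]; linarith)

include h in
theorem cG_nonneg (hN1 : 1 ≤ N1) (M : ℕ) : 0 ≤ cG p M N1 al := by
  have h1 : 0 ≤ Real.log (((M : ℝ) + 1) * (Real.exp p.X0 + 1)) := by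
    refine Real.log_nonneg ?_
    have h1 : (0 : ℝ) ≤ (M : ℝ) := Nat.cast_nonneg _
    have h2 := (Real.exp_pos p.X0).le
    nlinarith [mul_nonneg h1 h2]
  have h2 : 0 ≤ Real.log (1 / al) := PayC.log_al_nonneg h (0 : Fin 3)
  have h3 : 0 ≤ 2 * N1 * Real.log (1 / al) := mul_nonneg (by linarith) h2
  unfold cG
  linarith

/-- the event on `Pt` -/
def EP (w0 : Om W X β) (A : Om W X β → Prop) (f : Om W X β → Fin (M + 1) → ℝ) (lam : ℝ) (q : Pt (Fin 3) X β φ) : Prop :=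
  A (lf w0 q) ∧ lam / 2 ≤ f (lf w0 q) (amax (f (lf w0 q)))

theorem EP_fac (w0 : Om W X β) {A : Om W X β → Prop} (hA : Fac (sgt D ∅ t) A) {f : Om W X β → Fin (M + 1) → ℝ}
    (hf : Fac (sgt D ∅ t) f) (lam : ℝ) : Fac (fun q : Pt (Fin 3) X β φ => (q.1, BB D t ∅ q)) (EP w0 A f lam) := by
  have h1 : Fac (sgt D ∅ t) (fun w => A w ∧ lam / 2 ≤ f w (amax (f w))) := by
    intro a b hab
    show (A a ∧ lam / 2 ≤ f a (amax (f a))) = (A b ∧ lam / 2 ≤ f b (amax (f b)))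
    rw [hA a b hab, hf a b hab]
  exact lf_fac w0 h1

theorem EP_pt (w0 : Om W X β) {A : Om W X β → Prop} (hA : Fac (sgt D ∅ t) A) {f : Om W X β → Fin (M + 1) → ℝ}
    (hf : Fac (sgt D ∅ t) f) (lam : ℝ) (s : ℕ) (w : Om W X β) :
    EP w0 A f lam (tb.pt s w) = (A w ∧ lam / 2 ≤ f w (amax (f w))) := by
  unfold EP
  rw [lf_pt w0 hA s w, lf_pt w0 hf s w]

/-- **ENDS AT THE LEVEL OF THE START, one start** -/
theorem lev_b (H : D.Hyp dg prr al T Lam) (R : Run h (pr3 (Fin 3) n N1) (SS1 (Fin 3)) (AdmDep D) v)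
    (hn : 1 ≤ n) (hN1 : 1 ≤ N1) (C : Clk D W i) {m : ℕ} (hcl : Fac (NPo tb v m) (C.nu m)) (hm : TP.nn m ≤ T) {lam th : ℝ}
    (hlam : 0 < lam) (ht : 0 < th) (ht1 : th ≤ 1)
    (hc : 2 / lam * (4 * (Real.log (1 / th) + 1) + 2 * cG p M N1 al) ≤ n * N1 / 2)
    (hθ : ∀ n b k j, (tb.Q j).p ((θ n b k).1 j) ≠ 0) (hθb : ∀ n b k, D.qb (TP.nn n) (θ n b k).2 = D.qb (TP.nn n) b) :
    tb.Ps.E (fun w => ind (C.nu m w = m) * gp lam (fk h v Lam tb p i θ (fun _ => m) (TP.nn m) w)) ≤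
      4 * Real.sqrt th * tb.Ps.Pr (fun w => C.nu m w = m) := by
  classical
  obtain ⟨w0, _⟩ := tb.Ps.exists_p_ne
  set s := TP.nn m with hs
  set A : Om W X β → Prop := fun w => C.nu m w = m with hAd
  have hA : Fac (sgt D ∅ s) A := fun a b hab => by
    show (C.nu m a = m) = (C.nu m b = m)
    rw [C.nuF m a b hab]
  have hno : Fac (sgt (W := W) D ∅ s) (fun _ : Om W X β => m) := fun _ _ _ => rfl
  have hnt : ∀ w : Om W X β, TP.nn ((fun _ : Om W X β => m) w) ≤ s := fun _ => le_rfl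
  have hf := fk_fac (h := h) (v := v) (Lam := Lam) (tb := tb) (p := p) (i := i) (θ := θ) hno hnt
  have hYe := Y_eq (h := h) (v := v) (tb := tb) (p := p) (i := i) (θ := θ) H R hn hN1 hno hnt hm hθ hA lam
  set f := fk h v Lam tb p i θ (fun _ => m) s with hfd
  set d : φ := tb.lab 0 0 (w0.2.1 0) w0.1 w0.2.2
  set kn : Pt (Fin 3) X β φ → Fin (M + 1) := fun q => amax (f (lf w0 q)) with hkn
  have hknf : Fac (fun q : Pt (Fin 3) X β φ => (q.1, BB D s ∅ q)) kn := lf_fac w0 (fun a b hab => by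
    show amax (f a) = amax (f b)
    rw [hf a b hab])
  have hknp : ∀ w, kn (tb.pt s w) = amax (f w) := fun w => by
    show amax (f (lf w0 (tb.pt s w))) = _
    rw [lf_pt w0 hf s w]
  set G := Gh h v tb p i θ (fun _ => m) kn with hG
  have hAc : Fac (Cls (φ := φ) D v s ∅) (fun q => A (lf w0 q)) := by
    refine lf_cls (tb := tb) w0 (m := m) (t := s) (nn_iff.1 le_rfl) (f := A) (fun a b hab => ?_)
    show (C.nu m a = m) = (C.nu m b = m)
    rw [hcl a b hab]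
  have hN : ∀ J ∈ SS1 (Fin 3), 0 ≤ pr3 (Fin 3) n N1 J := fun J _ => zero_le_one.trans (pr3_one hn hN1 J)
  have hJ0 : univ.erase i ∈ above (SS1 (Fin 3)) ∅ := mem_above.2 ⟨mem_SS1.2 (ne_univ i), sI0 i⟩
  have key := PayR.pay_def (h := h) (U := Um v (s + 1)) (t := s) (R.dep hN s) hN (K0 := ∅) (J0 := univ.erase i)
    (mem_SS1.2 (by decide)) hJ0 (FP.unif Unit) (G := G)
    (Gh_dep tb R.codes (fun _ _ _ => rfl) hknf fun _ => le_rfl) (Gh_on tb)
    (psi := psH h v p i θ d s m) (fun r => psH_fac H R hn hN1 hm d m r)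
    (E := fun w => EP w0 A f lam w.1) (fun a b hab => EP_fac w0 hA hf lam a.1 b.1 (Prod.mk.inj hab).1)
    (df := fun _ => 0) (fun w hw _ _ => by
      rw [Real.exp_zero]
      exact psH_one H R hn hN1 hm d (n' := fun _ => m) (fun _ _ _ => rfl) _ hw)
    (c := cG p M N1 al) (fun hE => Gh_cost tb H R hn hN1 hm (fun _ _ _ => rfl) (fun _ => le_rfl) hθ hθb
      (fun w hw => ((pr_supp _ _).1 (cond_supp hE hw).2).1))
  -- the left side
  have e1 : (FP.pr (D.P h s) (FP.unif Unit)).E (fun w => ind (EP w0 A f lam w.1) *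
      psH h v p i θ d s m (lo G (univ.erase i) w) w.1) = tb.Ps.E (fun w => ind (A w) * gp lam (f w)) := by
    have e2 : (FP.pr (D.P h s) (FP.unif Unit)).E (fun w => ind (EP w0 A f lam w.1) *
        psH h v p i θ d s m (lo G (univ.erase i) w) w.1) = (D.P h s).E (fun q => ind (EP w0 A f lam q) *
        psH h v p i θ d s m (lo G (univ.erase i) (q, ())) q) :=
      lift_E (D.P h s) (FP.unif Unit) (fun q => ind (EP w0 A f lam q) * psH h v p i θ d s m (lo G (univ.erase i) (q, ())) q)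
    rw [e2, ← (pul_pt h tb hm).E, ← hYe]
    refine tb.Ps.E_congr fun w hw => ?_
    rw [EP_pt w0 hA hf lam s w, hG, psH_eval H R hn hN1 d hw s (n' := m) rfl rfl hm hθ hθb, hknp]
  have e3 : (FP.pr (D.P h s) (FP.unif Unit)).Pr (fun w => EP w0 A f lam w.1) =
      tb.Ps.Pr (fun w => A w ∧ lam / 2 ≤ f w (amax (f w))) := by
    rw [lift_Pr (D.P h s) (FP.unif Unit) (EP w0 A f lam), ← (pul_pt h tb hm).Pr]
    unfold FP.Pr
    exact tb.Ps.E_congr fun w _ => congrArg ind (EP_pt (tb := tb) w0 hA hf lam s w)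
  have e4 : (FP.pr (D.P h s) (FP.unif Unit)).Pr (fun w => A (lf w0 w.1)) = tb.Ps.Pr A := by
    rw [lift_Pr (D.P h s) (FP.unif Unit) (fun q => A (lf w0 q)), ← (pul_pt h tb hm).Pr]
    unfold FP.Pr
    exact tb.Ps.E_congr fun w _ => congrArg ind (lf_pt (tb := tb) w0 hA s w)
  have hH := PayR.Hc_ev_thF (FP.pr (D.P h s) (FP.unif Unit)) (fun w => EP w0 A f lam w.1)
    (F := fun w => A (lf w0 w.1)) (fun w : Pt (Fin 3) X β φ × Unit => Cls D v s ∅ w.1)
    (fun a b hab => hAc a.1 b.1 hab) (fun w hw => hw.1) ht ht1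
  rw [e1, pr3_2, pr3_0, e3] at key
  rw [e3, e4] at hH
  have hz : (FP.pr (D.P h s) (FP.unif Unit)).E (fun w => ind (EP w0 A f lam w.1) * 0) = 0 := by
    simp only [mul_zero, FP.E_const]
  rw [hz, mul_zero, add_zero] at key
  have hL1 := log_th ht ht1
  have hc0 := cG_nonneg (h := h) (p := p) hN1 M
  have hPE0 : 0 ≤ tb.Ps.Pr (fun w => A w ∧ lam / 2 ≤ f w (amax (f w))) := tb.Ps.Pr_nonneg _
  have hPF0 : 0 ≤ tb.Ps.Pr A := tb.Ps.Pr_nonneg _
  have h4 := pay_alg (N0 := n * N1) (Y := tb.Ps.E (fun w => ind (A w) * gp lam (f w))) (G := 0)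
    (Hc := (FP.pr (D.P h s) (FP.unif Unit)).Hc (fun w => EP w0 A f lam w.1)
      (fun w : Pt (Fin 3) X β φ × Unit => Cls D v s ∅ w.1))
    (PE := tb.Ps.Pr (fun w => A w ∧ lam / 2 ≤ f w (amax (f w)))) (PF := tb.Ps.Pr A)
    (L1 := Real.log (1 / th) + 1) (sq := Real.sqrt th) (c := cG p M N1 al) (cc := 2) (lam := lam) (by
      rw [mul_zero, zero_add]
      refine key.trans (le_of_eq ?_)
      rw [mul_one]
      rfl) hH (Y_ge hlam.le f) (by
      refine le_trans (mul_le_mul_of_nonneg_left ?_ (by positivity)) hc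
      linarith) hlam (one_le_mul_of_one_le_of_one_le hn hN1) (by norm_num) hPE0 (by linarith)
    (mul_nonneg (Real.sqrt_nonneg _) hPF0)
  calc _ ≤ 2 * 0 + 2 * 2 * (Real.sqrt th * tb.Ps.Pr A) := h4
    _ = _ := by ring

/-! ### ends at a later level -/

private theorem bk_pt {s t : ℕ} (hst : s ≤ t) (ht : t ≤ T) {w : Om W X β} (hw : tb.Ps.p w ≠ 0) :
    bk prr s t (tb.pt t w) = tb.pt s w := by
  induction t, hst using Nat.le_induction with
  | base => exact bk_self s _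
  | succ t hst ih =>
    rw [← bk_bk hst (Nat.le_succ t), bk_succ, old_pt tb (by omega) hw, ih (by omega)]

/-- the public epoch of the state `5 (t - 1)` ends in the level `t` -/
def Bo (C : Clk D W i) (T t : ℕ) (w : Om W X β) : Prop := t = T ∨ (1 ≤ t ∧ 5 * (t - 1) < C.nu (5 * t) w)

theorem st_Bo (C : Clk D W i) (w0 : Om W X β) (q : Pt (Fin 3) X β φ) {t : ℕ} (ht : 1 ≤ t) (htT : t ≤ T) :
    EpG.st (fun t (q : Pt (Fin 3) X β φ) => Bo C T t (lf w0 q)) t q = TP.nn (C.nu (5 * (t - 1)) (lf w0 q)) := by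
  induction t, ht using Nat.le_induction with
  | base =>
    have h1 := EpG.st_le' (fun t (q : Pt (Fin 3) X β φ) => Bo C T t (lf w0 q)) 0 q
    have h2 := C.nu_le (5 * (1 - 1)) (lf w0 q)
    have h3 : TP.nn (C.nu (5 * (1 - 1)) (lf w0 q)) ≤ 0 := nn_iff.2 h2
    have h4 : EpG.st (fun t (q : Pt (Fin 3) X β φ) => Bo C T t (lf w0 q)) 1 q ≤ 0 := h1
    omega
  | succ t ht ih =>
    have ih' := ih (by omega)
    have h1 := C.nu_le (5 * t) (lf w0 q)
    have e : t + 1 - 1 = t := by omega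
    rw [e]
    by_cases hb : Bo C T t (lf w0 q)
    · rw [EpG.st_pos (e := fun t (q : Pt (Fin 3) X β φ) => Bo C T t (lf w0 q)) (show Bo C T t (lf w0 q) from hb)]
      rcases hb with hb | hb
      · omega
      · have h2 : TP.nn (C.nu (5 * t) (lf w0 q)) ≤ t := nn_iff.2 h1
        have h3 : ¬ TP.nn (C.nu (5 * t) (lf w0 q)) ≤ t - 1 := fun hh => by
          have := nn_iff.1 hh
          omega
        omega
    · rw [EpG.st_neg (e := fun t (q : Pt (Fin 3) X β φ) => Bo C T t (lf w0 q)) (show ¬ Bo C T t (lf w0 q) from hb), ih']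
      have h2 : C.nu (5 * t) (lf w0 q) ≤ 5 * (t - 1) := by
        by_contra hcon
        exact hb (Or.inr ⟨ht, by omega⟩)
      rw [C.nu_mid (k := 5 * t) (n := C.nu (5 * t) (lf w0 q)) (j := 5 * (t - 1)) rfl h2 (by omega)]

theorem sgt_mono {s t : ℕ} (hst : s ≤ t) : Fac (sgt (W := W) D ∅ t) (sgt D ∅ s) := by
  intro a b hab
  have h1 := sgt_eq.1 hab
  exact sgt_eq.2 ⟨h1.1, h1.2.1, fun j => Dy.qb_mono hst (h1.2.2 j)⟩

theorem nu_sgt (C : Clk D W i) {m t : ℕ} (hm : m ≤ 5 * t) : Fac (sgt D ∅ t) (C.nu m) :=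
  (sgt_mono (nn_iff.2 hm)).trans (C.nuF m)

theorem Bo_sgt (C : Clk D W i) (t : ℕ) : Fac (sgt D ∅ t) (Bo C T t) := by
  intro a b hab
  show (t = T ∨ (1 ≤ t ∧ 5 * (t - 1) < C.nu (5 * t) a)) = (t = T ∨ (1 ≤ t ∧ 5 * (t - 1) < C.nu (5 * t) b))
  rw [nu_sgt C le_rfl a b hab]

theorem Bo_cls (w0 : Om W X β) (C : Clk D W i) (hcl : ∀ s ≤ 5 * T, Fac (NPo tb v s) (C.nu s)) {t : ℕ} (ht : t ≤ T) :
    Fac (Cls (φ := φ) D v t ∅) (fun q => Bo C T t (lf w0 q)) := by
  refine lf_cls (tb := tb) w0 (m := 5 * t) le_rfl (f := Bo C T t) fun a b hab => ?_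
  show (t = T ∨ (1 ≤ t ∧ 5 * (t - 1) < C.nu (5 * t) a)) = (t = T ∨ (1 ≤ t ∧ 5 * (t - 1) < C.nu (5 * t) b))
  rw [hcl (5 * t) (by omega) a b hab]

/-- **ENDS AT A LATER LEVEL, one level** -/
theorem lev_a (H : D.Hyp dg prr al T Lam) (R : Run h (pr3 (Fin 3) n N1) (SS1 (Fin 3)) (AdmDep D) v)
    (hn : 1 ≤ n) (hN1 : 1 ≤ N1) (C : Clk D W i) (hcl : ∀ s ≤ 5 * T, Fac (NPo tb v s) (C.nu s)) (w0 : Om W X β) {t : ℕ}
    (h1t : 1 ≤ t) (htT : t ≤ T) {lam th : ℝ} (hlam : 0 < lam) (ht : 0 < th) (ht1 : th ≤ 1)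
    (hc : 2 / lam * (4 * (Real.log (1 / th) + 1) + 2 * cG p M N1 al) ≤ n * N1 / 2)
    (hθ : ∀ n b k j, (tb.Q j).p ((θ n b k).1 j) ≠ 0) (hθb : ∀ n b k, D.qb (TP.nn n) (θ n b k).2 = D.qb (TP.nn n) b) :
    tb.Ps.E (fun w => ind (Bo C T t w) * gp lam (fk h v Lam tb p i θ (C.nu (5 * (t - 1))) t w)) ≤
      2 * (D.P h t).E (fun q => ind (Bo C T t (lf w0 q)) *
        gd h v prr i t (EpG.st (fun t (q : Pt (Fin 3) X β φ) => Bo C T t (lf w0 q)) t q) q) +
      8 * Real.sqrt th * tb.Ps.Pr (Bo C T t) := by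
  classical
  set B : ℕ → Pt (Fin 3) X β φ → Prop := fun t q => Bo C T t (lf w0 q) with hBd
  set A : Om W X β → Prop := Bo C T t with hAd
  set no : Om W X β → ℕ := C.nu (5 * (t - 1)) with hnod
  have hA : Fac (sgt D ∅ t) A := Bo_sgt C t
  have hno : Fac (sgt (W := W) D ∅ t) no := nu_sgt C (by omega)
  have hno1 : ∀ w : Om W X β, TP.nn (no w) ≤ t - 1 := fun w => nn_iff.2 (C.nu_le _ w)
  have hnt : ∀ w : Om W X β, TP.nn (no w) ≤ t := fun w => (hno1 w).trans (by omega)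
  have hf := fk_fac (h := h) (v := v) (Lam := Lam) (tb := tb) (p := p) (i := i) (θ := θ) hno hnt
  have hYe := Y_eq (h := h) (v := v) (tb := tb) (p := p) (i := i) (θ := θ) H R hn hN1 hno hnt htT hθ hA lam
  set f := fk h v Lam tb p i θ no t with hfd
  set d : φ := tb.lab 0 0 (w0.2.1 0) w0.1 w0.2.2
  set nS : Pt (Fin 3) X β φ → ℕ := fun q => no (lf w0 q) with hnS
  have hnSf : Fac (fun q : Pt (Fin 3) X β φ => (q.1, BB D t ∅ q)) nS := lf_fac w0 hno
  have hnSp : ∀ s w, nS (tb.pt s w) = no w := fun s w => lf_pt w0 hno s w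
  have hnS5 : ∀ q, TP.nn (nS q) ≤ t := fun q => hnt _
  have hnSc : Fac (Cls (φ := φ) D v t ∅) nS := lf_cls (tb := tb) w0 (m := 5 * (t - 1)) (by omega) (hcl _ (by omega))
  set kn : Pt (Fin 3) X β φ → Fin (M + 1) := fun q => amax (f (lf w0 q)) with hkn
  have hknf : Fac (fun q : Pt (Fin 3) X β φ => (q.1, BB D t ∅ q)) kn := lf_fac w0 (fun a b hab => by
    show amax (f a) = amax (f b)
    rw [hf a b hab])
  have hknp : ∀ w, kn (tb.pt t w) = amax (f w) := fun w => by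
    show amax (f (lf w0 (tb.pt t w))) = _
    rw [lf_pt w0 hf t w]
  set G := Gh h v tb p i θ nS kn with hG
  have hBc : ∀ t ≤ T, Fac (Cls (φ := φ) D v t ∅) (B t) := fun t ht => Bo_cls w0 C hcl ht
  have hBl : ∀ t ≤ T, Fac (Lw (φ := φ) D v t i) (B t) := fun t ht => (Cls_Lw (sI0 i)).trans (hBc t ht)
  have hcs : ∀ s ≤ t, Fac (Lw (φ := φ) D v s i) (fun u => C.nu (5 * s) (lf w0 u)) := fun s hs =>
    (Cls_Lw (sI0 i)).trans (lf_cls (tb := tb) w0 (m := 5 * s) le_rfl (hcl _ (by omega)))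
  have hE : EvC D t ∅ (fun w : Pt (Fin 3) X β φ × Unit => EP w0 A f lam w.1) := fun a b hab =>
    EP_fac w0 hA hf lam a.1 b.1 (Prod.mk.inj hab).1
  have key := pay_end h H R hn hN1 hBl (sI0 i) htT (FP.unif Unit) (G := G)
    (Gh_dep tb R.codes hnSf hknf hnS5) (Gh_on tb)
    (psi0 := fun s r u => psH h v p i θ d s (C.nu (5 * s) (lf w0 u)) r u) (fun s hs r a b hab => by
      show psH h v p i θ d s (C.nu (5 * s) (lf w0 a)) r a = psH h v p i θ d s (C.nu (5 * s) (lf w0 b)) r b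
      have h1 : C.nu (5 * s) (lf w0 a) = C.nu (5 * s) (lf w0 b) := hcs s hs a b (Prod.mk.inj hab).2
      rw [h1]
      exact psH_fac H R hn hN1 (hs.trans htT) d _ r a b hab)
    hE (fun w hw _ _ => psH_one H R hn hN1 ((EpG.st_le B t w.1).trans htT) d (hcs _ (EpG.st_le B t w.1)) _
      ((pul_bk h H (EpG.st_le B t w.1) htT).ne hw))
    (c := cG p M N1 al) (fun hE => Gh_cost tb H R hn hN1 htT hnSc hnS5 hθ hθb
      (fun w hw => ((pr_supp _ _).1 (cond_supp hE hw).2).1))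
  have key2 := gain_on h H R hn hN1 hBl (sI0 i) htT (FP.unif Unit) (B' := B t) (hBc t htT) hE (fun w hw => hw.1)
  -- the left side
  have e1 : (FP.pr (D.P h t) (FP.unif Unit)).E (fun w => ind (EP w0 A f lam w.1) *
      psH h v p i θ d (EpG.st B t w.1) (C.nu (5 * EpG.st B t w.1) (lf w0 (bk prr (EpG.st B t w.1) t w.1)))
        (lo G (univ.erase i) w) (bk prr (EpG.st B t w.1) t w.1)) = tb.Ps.E (fun w => ind (A w) * gp lam (f w)) := by
    have e2 : (FP.pr (D.P h t) (FP.unif Unit)).E (fun w => ind (EP w0 A f lam w.1) *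
      psH h v p i θ d (EpG.st B t w.1) (C.nu (5 * EpG.st B t w.1) (lf w0 (bk prr (EpG.st B t w.1) t w.1)))
        (lo G (univ.erase i) w) (bk prr (EpG.st B t w.1) t w.1)) = (D.P h t).E (fun q => ind (EP w0 A f lam q) *
      psH h v p i θ d (EpG.st B t q) (C.nu (5 * EpG.st B t q) (lf w0 (bk prr (EpG.st B t q) t q)))
        (lo G (univ.erase i) (q, ())) (bk prr (EpG.st B t q) t q)) :=
      lift_E (D.P h t) (FP.unif Unit) (fun q => ind (EP w0 A f lam q) *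
        psH h v p i θ d (EpG.st B t q) (C.nu (5 * EpG.st B t q) (lf w0 (bk prr (EpG.st B t q) t q)))
        (lo G (univ.erase i) (q, ())) (bk prr (EpG.st B t q) t q))
    rw [e2, ← (pul_pt h tb htT).E, ← hYe]
    refine tb.Ps.E_congr fun w hw => ?_
    have hst : EpG.st B t (tb.pt t w) = TP.nn (no w) := by
      have h1 := st_Bo C w0 (tb.pt t w) h1t htT
      have h2 : C.nu (5 * (t - 1)) (lf w0 (tb.pt t w)) = no w := lf_pt w0 hno t w
      rw [h2] at h1
      exact h1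
    have hsT : TP.nn (no w) ≤ t - 1 := hno1 w
    have hbk : bk prr (TP.nn (no w)) t (tb.pt t w) = tb.pt (TP.nn (no w)) w := bk_pt (hnt w) htT hw
    have hnu : C.nu (5 * TP.nn (no w)) (lf w0 (tb.pt (TP.nn (no w)) w)) = no w := by
      rw [lf_pt w0 (C.nuF (5 * TP.nn (no w))) (TP.nn (no w)) w]
      exact C.nu_mid (k := 5 * (t - 1)) rfl (nn_iff.1 le_rfl) (by omega)
    show ind (EP w0 A f lam (tb.pt t w)) * psH h v p i θ d (EpG.st B t (tb.pt t w))
      (C.nu (5 * EpG.st B t (tb.pt t w)) (lf w0 (bk prr (EpG.st B t (tb.pt t w)) t (tb.pt t w))))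
        (lo G (univ.erase i) (tb.pt t w, ())) (bk prr (EpG.st B t (tb.pt t w)) t (tb.pt t w)) = _
    rw [hst, hbk, hnu, EP_pt w0 hA hf lam t w, hG, psH_eval H R hn hN1 d hw t (n' := no w) (hnSp t w) rfl
      ((hnt w).trans htT) hθ hθb, hknp]
  have e3 : (FP.pr (D.P h t) (FP.unif Unit)).Pr (fun w => EP w0 A f lam w.1) =
      tb.Ps.Pr (fun w => A w ∧ lam / 2 ≤ f w (amax (f w))) := by
    rw [lift_Pr (D.P h t) (FP.unif Unit) (EP w0 A f lam), ← (pul_pt h tb htT).Pr]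
    unfold FP.Pr
    exact tb.Ps.E_congr fun w _ => congrArg ind (EP_pt (tb := tb) w0 hA hf lam t w)
  have e4 : (FP.pr (D.P h t) (FP.unif Unit)).Pr (fun w => B t w.1) = tb.Ps.Pr A := by
    rw [lift_Pr (D.P h t) (FP.unif Unit) (B t), ← (pul_pt h tb htT).Pr]
    unfold FP.Pr
    exact tb.Ps.E_congr fun w _ => congrArg ind (lf_pt (tb := tb) w0 hA t w)
  have hH := PayR.Hc_ev_thF (FP.pr (D.P h t) (FP.unif Unit)) (fun w => EP w0 A f lam w.1)
    (F := fun w => B t w.1) (fun w : Pt (Fin 3) X β φ × Unit => Cls D v t ∅ w.1)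
    (fun a b hab => hBc t htT a.1 b.1 hab) (fun w hw => hw.1) ht ht1
  rw [e1, pr3_2, pr3_0, e3] at key
  rw [pr3_2, pr3_0] at key2
  rw [e3, e4] at hH
  have hL1 := log_th ht ht1
  have hc0 := cG_nonneg (h := h) (p := p) hN1 M
  have hPE0 : 0 ≤ tb.Ps.Pr (fun w => A w ∧ lam / 2 ≤ f w (amax (f w))) := tb.Ps.Pr_nonneg _
  have hPF0 : 0 ≤ tb.Ps.Pr A := tb.Ps.Pr_nonneg _
  have h4 := pay_alg (N0 := n * N1) (Y := tb.Ps.E (fun w => ind (A w) * gp lam (f w)))
    (G := (D.P h t).E (fun w => ind (B t w) * gd h v prr i t (EpG.st B t w) w))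
    (Hc := (FP.pr (D.P h t) (FP.unif Unit)).Hc (fun w => EP w0 A f lam w.1)
      (fun w : Pt (Fin 3) X β φ × Unit => Cls D v t ∅ w.1))
    (PE := tb.Ps.Pr (fun w => A w ∧ lam / 2 ≤ f w (amax (f w)))) (PF := tb.Ps.Pr A)
    (L1 := Real.log (1 / th) + 1) (sq := Real.sqrt th) (c := cG p M N1 al) (cc := 4) (lam := lam) (by
      linarith) hH (Y_ge hlam.le f) hc hlam (one_le_mul_of_one_le_of_one_le hn hN1) (by norm_num) hPE0 (by linarith)
    (mul_nonneg (Real.sqrt_nonneg _) hPF0)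
  refine h4.trans (le_of_eq ?_)
  ring

/-! ### sums -/

theorem Es_nonneg {m : ℕ} {w : Om W X β} {F : (Fin (M + 1) → (Fin 3 → W) × β) → ℝ} (hF : ∀ ρ, 0 ≤ F ρ) :
    0 ≤ Es tb (i := i) M m w F := by
  unfold Es
  exact FP.E_nonneg _ fun ρ _ => hF ρ

/-- one start, same level, mean over the samples -/
theorem zn_le (H : D.Hyp dg prr al T Lam) (R : Run h (pr3 (Fin 3) n N1) (SS1 (Fin 3)) (AdmDep D) v)
    (hn : 1 ≤ n) (hN1 : 1 ≤ N1) (C : Clk D W i) {m : ℕ} (hcl : Fac (NPo tb v m) (C.nu m)) (hm : TP.nn m ≤ T) {lam th : ℝ}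
    (hlam : 0 < lam) (ht : 0 < th) (ht1 : th ≤ 1)
    (hc : 2 / lam * (4 * (Real.log (1 / th) + 1) + 2 * cG p M N1 al) ≤ n * N1 / 2) :
    tb.Ps.E (fun w => ind (C.nu m w = m) * Es tb (i := i) M m w (fun ρ => gp lam fun k =>
      rr tb i (Fn h v Lam tb p i) m (ρ k) (TP.nn m) w)) ≤ 4 * Real.sqrt th * tb.Ps.Pr (fun w => C.nu m w = m) :=
  avg_le (tb := tb) (i := i) (K := m + 1) (no := fun _ => m) (fun _ => Nat.lt_succ_self m)
    (A := fun w => ind (C.nu m w = m)) (g := fun m ρ w => gp lam fun k => rr tb i (Fn h v Lam tb p i) m (ρ k) (TP.nn m) w)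
    fun _ h1 h2 => lev_b H R hn hN1 C hcl hm hlam ht ht1 hc h1 h2

/-- one level, mean over the samples -/
theorem yt_le (H : D.Hyp dg prr al T Lam) (R : Run h (pr3 (Fin 3) n N1) (SS1 (Fin 3)) (AdmDep D) v)
    (hn : 1 ≤ n) (hN1 : 1 ≤ N1) (C : Clk D W i) (hcl : ∀ s ≤ 5 * T, Fac (NPo tb v s) (C.nu s)) (w0 : Om W X β) {t : ℕ}
    (h1t : 1 ≤ t) (htT : t ≤ T) {lam th : ℝ} (hlam : 0 < lam) (ht : 0 < th) (ht1 : th ≤ 1)
    (hc : 2 / lam * (4 * (Real.log (1 / th) + 1) + 2 * cG p M N1 al) ≤ n * N1 / 2) :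
    tb.Ps.E (fun w => ind (Bo C T t w) * Es tb (i := i) M (C.nu (5 * (t - 1)) w) w (fun ρ => gp lam fun k =>
        rr tb i (Fn h v Lam tb p i) (C.nu (5 * (t - 1)) w) (ρ k) t w)) ≤
      2 * (D.P h t).E (fun q => ind (Bo C T t (lf w0 q)) *
        gd h v prr i t (EpG.st (fun t (q : Pt (Fin 3) X β φ) => Bo C T t (lf w0 q)) t q) q) +
      8 * Real.sqrt th * tb.Ps.Pr (Bo C T t) :=
  avg_le (tb := tb) (i := i) (K := 5 * T) (no := C.nu (5 * (t - 1)))
    (fun w => lt_of_le_of_lt (C.nu_le _ w) (by omega)) (A := fun w => ind (Bo C T t w))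
    (g := fun m ρ w => gp lam fun k => rr tb i (Fn h v Lam tb p i) m (ρ k) t w)
    fun _ h1 h2 => lev_a H R hn hN1 C hcl w0 h1t htT hlam ht ht1 hc h1 h2

/-- the ends of the epochs, level by level -/
theorem sum_lev (C : Clk D W i) {g : ℕ → ℕ → Om W X β → ℝ} (hg : ∀ m t w, 0 ≤ g m t w) (w : Om W X β) :
    ∑ m ∈ range (5 * T), ind (C.nu m w = m) * g m (TP.nn (m + C.sg (5 * T) m w)) w ≤
      ∑ m ∈ range (5 * T), ind (C.nu m w = m) * g m (TP.nn m) w +
        ∑ t ∈ range (T + 1), ind (1 ≤ t ∧ Bo C T t w) * g (C.nu (5 * (t - 1)) w) t w := by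
  set e : ℕ → ℕ := fun m => TP.nn (m + C.sg (5 * T) m w) with he
  have heT : ∀ m < 5 * T, e m ≤ T := fun m hm => nn_iff.2 (C.sg_le (5 * T) hm w)
  have hme : ∀ m, TP.nn m ≤ e m := fun m => nn_mono (by omega)
  have h1 : ∀ m ∈ range (5 * T), ind (C.nu m w = m) * g m (e m) w ≤ ind (C.nu m w = m) * g m (TP.nn m) w +
      ∑ t ∈ range (T + 1), ind ((C.nu m w = m ∧ TP.nn m < t) ∧ e m = t) * g m t w := by
    intro m hm
    have hm' := Finset.mem_range.1 hm
    have h0 : 0 ≤ ∑ t ∈ range (T + 1), ind ((C.nu m w = m ∧ TP.nn m < t) ∧ e m = t) * g m t w :=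
      Finset.sum_nonneg fun t _ => mul_nonneg (ind_nonneg _) (hg m t w)
    rcases (hme m).eq_or_lt with h2 | h2
    · have e5 : ind (C.nu m w = m) * g m (e m) w = ind (C.nu m w = m) * g m (TP.nn m) w := by rw [h2]
      linarith
    · by_cases h3 : C.nu m w = m
      · have h4 : ind ((C.nu m w = m ∧ TP.nn m < e m) ∧ e m = e m) * g m (e m) w ≤
            ∑ t ∈ range (T + 1), ind ((C.nu m w = m ∧ TP.nn m < t) ∧ e m = t) * g m t w :=
          Finset.single_le_sum (f := fun t => ind ((C.nu m w = m ∧ TP.nn m < t) ∧ e m = t) * g m t w)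
            (fun t _ => mul_nonneg (ind_nonneg _) (hg m t w)) (Finset.mem_range.2 (by have := heT m hm'; omega))
        rw [ind_of (show (C.nu m w = m ∧ TP.nn m < e m) ∧ e m = e m from ⟨⟨h3, h2⟩, rfl⟩)] at h4
        rw [ind_of h3, one_mul, one_mul]
        have h5 := hg m (TP.nn m) w
        linarith
      · rw [ind_not h3, zero_mul, zero_mul]
        linarith
  refine (Finset.sum_le_sum h1).trans ?_
  rw [Finset.sum_add_distrib, Finset.sum_comm]
  refine add_le_add le_rfl (Finset.sum_le_sum fun t _ => ?_)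
  set n0 := C.nu (5 * (t - 1)) w with hn0
  have h2 : ∀ m ∈ range (5 * T), ind ((C.nu m w = m ∧ TP.nn m < t) ∧ e m = t) * g m t w ≤
      if m = n0 then ind (1 ≤ t ∧ Bo C T t w) * g n0 t w else 0 := by
    intro m hm
    have hm' := Finset.mem_range.1 hm
    by_cases h3 : (C.nu m w = m ∧ TP.nn m < t) ∧ e m = t
    · obtain ⟨⟨h4, h5⟩, h6⟩ := h3
      have h7 : m ≤ 5 * (t - 1) := nn_iff.1 (by omega)
      have h8 : 5 * (t - 1) < m + C.sg (5 * T) m w := by
        by_contra hcon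
        have h9 : e m ≤ t - 1 := nn_iff.2 (by omega)
        omega
      have h9 : n0 = m := by
        have := C.nu_in (5 * T) (n := m) (s := 5 * (t - 1) - m) h4 (by omega)
        rw [show m + (5 * (t - 1) - m) = 5 * (t - 1) by omega] at this
        exact this
      have h10 : Bo C T t w := by
        rcases (C.sg_spec (5 * T) m w).2 with h11 | h11
        · right
          refine ⟨by omega, ?_⟩
          have h12 : m + C.sg (5 * T) m w ≤ 5 * t := nn_iff.1 (le_of_eq h6)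
          have h13 := C.nu_mono h12 w
          rw [h11] at h13
          omega
        · left
          have h12 := C.sg_le (5 * T) hm' w
          have h13 : m + C.sg (5 * T) m w = 5 * T := by omega
          rw [← h6, he]
          show TP.nn (m + C.sg (5 * T) m w) = T
          rw [h13, nn_5]
      rw [if_pos h9.symm, h9, ind_of (show 1 ≤ t ∧ Bo C T t w from ⟨by omega, h10⟩),
        ind_of (show (C.nu m w = m ∧ TP.nn m < t) ∧ e m = t from ⟨⟨h4, h5⟩, h6⟩)]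
    · rw [ind_not h3, zero_mul]
      split_ifs
      · exact mul_nonneg (ind_nonneg _) (hg _ _ _)
      · exact le_rfl
  refine (Finset.sum_le_sum h2).trans ?_
  rw [Finset.sum_ite_eq' (range (5 * T)) n0]
  split_ifs
  · exact le_rfl
  · exact mul_nonneg (ind_nonneg _) (hg _ _ _)

/-- the number of the levels in which a public epoch ends -/
theorem sum_Bo (C : Clk D W i) (w : Om W X β) :
    ∑ t ∈ range (T + 1), ind (1 ≤ t ∧ Bo C T t w) ≤ 1 + ∑ m ∈ range (5 * T), ind (C.nu m w = m) := by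
  have h1 : ∀ t ∈ range (T + 1), ind (1 ≤ t ∧ Bo C T t w) ≤ (if t = T then (1 : ℝ) else 0) +
      ∑ m ∈ range (5 * T), ind (C.nu m w = m ∧ TP.nn m = t) := by
    intro t ht
    have ht' := Finset.mem_range.1 ht
    have h0 : 0 ≤ ∑ m ∈ range (5 * T), ind (C.nu m w = m ∧ TP.nn m = t) := Finset.sum_nonneg fun _ _ => ind_nonneg _
    by_cases h2 : t = T
    · rw [if_pos h2]
      have := ind_le_one (1 ≤ t ∧ Bo C T t w)
      linarith
    · rw [if_neg h2, zero_add]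
      by_cases h3 : 1 ≤ t ∧ Bo C T t w
      · obtain ⟨h4, h5⟩ := h3
        rcases h5 with h5 | h5
        · exact absurd h5 h2
        · have h6 := C.nu_le (5 * t) w
          have h7 : TP.nn (C.nu (5 * t) w) ≤ t := nn_iff.2 h6
          have h8 : ¬ TP.nn (C.nu (5 * t) w) ≤ t - 1 := fun hh => by
            have := nn_iff.1 hh
            omega
          have h9 : ind (C.nu (C.nu (5 * t) w) w = C.nu (5 * t) w ∧ TP.nn (C.nu (5 * t) w) = t) ≤
              ∑ m ∈ range (5 * T), ind (C.nu m w = m ∧ TP.nn m = t) :=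
            Finset.single_le_sum (f := fun m => ind (C.nu m w = m ∧ TP.nn m = t)) (fun _ _ => ind_nonneg _)
              (Finset.mem_range.2 (by omega))
          rw [ind_of (show C.nu (C.nu (5 * t) w) w = C.nu (5 * t) w ∧ TP.nn (C.nu (5 * t) w) = t from
            ⟨C.nu_idem _ w, by omega⟩)] at h9
          exact (ind_le_one _).trans h9
      · rw [ind_not h3]
        exact h0
  refine (Finset.sum_le_sum h1).trans ?_
  rw [Finset.sum_add_distrib, Finset.sum_comm]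
  refine add_le_add ?_ (Finset.sum_le_sum fun m _ => ?_)
  · rw [Finset.sum_ite_eq' (range (T + 1)) T]
    split_ifs <;> norm_num
  · have h2 : ∀ t ∈ range (T + 1), ind (C.nu m w = m ∧ TP.nn m = t) = if t = TP.nn m then ind (C.nu m w = m) else 0 := by
      intro t _
      split_ifs with h3
      · exact ind_cg ⟨fun hh => hh.1, fun hh => ⟨hh, h3.symm⟩⟩
      · exact ind_not fun hh => h3 hh.2.symm
    rw [Finset.sum_congr rfl h2, Finset.sum_ite_eq' (range (T + 1)) (TP.nn m)]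
    split_ifs
    · exact le_rfl
    · exact ind_nonneg _

end lev

/-- **DEVIATION AT THE START** -/
theorem pay_T2 {n N1 : ℝ} (H : D.Hyp dg prr al T Lam) (R : Run h (pr3 (Fin 3) n N1) (SS1 (Fin 3)) (AdmDep D) v)
    (hn : 1 ≤ n) (hN1 : 1 ≤ N1) (C : Clk D W i) (hcl : ∀ s ≤ 5 * T, Fac (NPo tb v s) (C.nu s)) (M : ℕ) {lam th : ℝ}
    (hlam : 0 < lam) (ht : 0 < th) (ht1 : th ≤ 1)
    (hc : 2 / lam * (4 * (Real.log (1 / th) + 1) + 2 * cG p M N1 al) ≤ n * N1 / 2) :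
    ∑ n ∈ range (5 * T), tb.Ps.E (fun w => ind (C.nu n w = n) *
      Es tb (i := i) M n w (fun ρ => ind (∃ k, lam < rr tb i (Fn h v Lam tb p i) n (ρ k) (TP.nn n) w))) ≤
      4 * Real.sqrt th / lam * ∑ n ∈ range (5 * T), tb.Ps.Pr (fun w => C.nu n w = n) := by
  rw [Finset.mul_sum]
  refine Finset.sum_le_sum fun m hm => ?_
  have hm' := Finset.mem_range.1 hm
  have h1 := zn_le (h := h) (v := v) (tb := tb) (p := p) (i := i) (M := M) (m := m) H R hn hN1 C (hcl m hm'.le)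
    (nn_iff.2 hm'.le) hlam ht ht1 hc
  have h2 : tb.Ps.E (fun w => ind (C.nu m w = m) *
      Es tb (i := i) M m w (fun ρ => ind (∃ k, lam < rr tb i (Fn h v Lam tb p i) m (ρ k) (TP.nn m) w))) ≤
      1 / lam * tb.Ps.E (fun w => ind (C.nu m w = m) * Es tb (i := i) M m w (fun ρ => gp lam fun k =>
      rr tb i (Fn h v Lam tb p i) m (ρ k) (TP.nn m) w)) := by
    rw [← FP.E_smul]
    refine FP.E_mono _ fun w _ => ?_
    have e : 1 / lam * (ind (C.nu m w = m) * Es tb (i := i) M m w (fun ρ => gp lam fun k =>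
        rr tb i (Fn h v Lam tb p i) m (ρ k) (TP.nn m) w)) = ind (C.nu m w = m) * Es tb (i := i) M m w (fun ρ =>
        1 / lam * gp lam fun k => rr tb i (Fn h v Lam tb p i) m (ρ k) (TP.nn m) w) := by
      unfold Es
      rw [FP.E_smul]
      ring
    rw [e]
    refine mul_le_mul_of_nonneg_left ?_ (ind_nonneg _)
    unfold Es
    refine FP.E_mono _ fun ρ _ => ?_
    rw [one_div_mul_eq_div, le_div_iff₀ hlam]
    by_cases h3 : ∃ k, lam < rr tb i (Fn h v Lam tb p i) m (ρ k) (TP.nn m) w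
    · obtain ⟨k, hk⟩ := h3
      have h4 := amax_le (fun k => rr tb i (Fn h v Lam tb p i) m (ρ k) (TP.nn m) w) k
      have h5 : lam ≤ (fun k => rr tb i (Fn h v Lam tb p i) m (ρ k) (TP.nn m) w)
          (amax fun k => rr tb i (Fn h v Lam tb p i) m (ρ k) (TP.nn m) w) := hk.le.trans h4
      rw [ind_of ⟨k, hk⟩, one_mul]
      unfold gp
      rw [if_pos (by linarith)]
      exact h5
    · rw [ind_not h3, zero_mul]
      exact gp_nonneg hlam.le _
  refine h2.trans ?_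
  have h3 := mul_le_mul_of_nonneg_left h1 (show (0 : ℝ) ≤ 1 / lam by positivity)
  refine h3.trans (le_of_eq ?_)
  ring

/-- **ENDS** -/
theorem pay_T1 {n N1 : ℝ} (H : D.Hyp dg prr al T Lam) (R : Run h (pr3 (Fin 3) n N1) (SS1 (Fin 3)) (AdmDep D) v)
    (hn : 1 ≤ n) (hN1 : 1 ≤ N1) (C : Clk D W i) (hcl : ∀ s ≤ 5 * T, Fac (NPo tb v s) (C.nu s)) (M : ℕ) {lam th : ℝ}
    (hlam : 0 < lam) (ht : 0 < th) (ht1 : th ≤ 1)
    (hc : 2 / lam * (4 * (Real.log (1 / th) + 1) + 2 * cG p M N1 al) ≤ n * N1 / 2) :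
    ∑ n ∈ range (5 * T), tb.Ps.E (fun w => ind (C.nu n w = n) *
      Es tb (i := i) M n w (fun ρ => gp lam fun k =>
        rr tb i (Fn h v Lam tb p i) n (ρ k) (TP.nn (n + C.sg (5 * T) n w)) w)) ≤
      2 * Lam + 12 * Real.sqrt th * (1 + ∑ n ∈ range (5 * T), tb.Ps.Pr (fun w => C.nu n w = n)) := by
  classical
  obtain ⟨w0, _⟩ := tb.Ps.exists_p_ne
  set g : ℕ → ℕ → Om W X β → ℝ := fun m t w => Es tb (i := i) M m w (fun ρ => gp lam fun k =>
    rr tb i (Fn h v Lam tb p i) m (ρ k) t w) with hg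
  have hg0 : ∀ m t w, 0 ≤ g m t w := fun m t w => Es_nonneg fun ρ => gp_nonneg hlam.le _
  set B : ℕ → Pt (Fin 3) X β φ → Prop := fun t q => Bo C T t (lf w0 q) with hBd
  have hBl : ∀ t ≤ T, Fac (Lw (φ := φ) D v t i) (B t) := fun t ht => (Cls_Lw (sI0 i)).trans (Bo_cls w0 C hcl ht)
  have hsq := Real.sqrt_nonneg th
  -- the pointwise bound
  have h1 : ∑ m ∈ range (5 * T), tb.Ps.E (fun w => ind (C.nu m w = m) * g m (TP.nn (m + C.sg (5 * T) m w)) w) ≤
      ∑ m ∈ range (5 * T), tb.Ps.E (fun w => ind (C.nu m w = m) * g m (TP.nn m) w) +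
        ∑ t ∈ range (T + 1), tb.Ps.E (fun w => ind (1 ≤ t ∧ Bo C T t w) * g (C.nu (5 * (t - 1)) w) t w) := by
    rw [← FP.E_sum, ← FP.E_sum, ← FP.E_sum, ← FP.E_add]
    exact FP.E_mono _ fun w _ => sum_lev C hg0 w
  have h2 : ∑ m ∈ range (5 * T), tb.Ps.E (fun w => ind (C.nu m w = m) * g m (TP.nn m) w) ≤
      4 * Real.sqrt th * ∑ m ∈ range (5 * T), tb.Ps.Pr (fun w => C.nu m w = m) := by
    rw [Finset.mul_sum]
    refine Finset.sum_le_sum fun m hm => ?_
    have hm' := Finset.mem_range.1 hm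
    exact zn_le H R hn hN1 C (hcl m hm'.le) (nn_iff.2 hm'.le) hlam ht ht1 hc
  have h3 : ∀ t ∈ range (T + 1), tb.Ps.E (fun w => ind (1 ≤ t ∧ Bo C T t w) * g (C.nu (5 * (t - 1)) w) t w) ≤
      2 * (D.P h t).E (fun q => ind (B t q) * gd h v prr i t (EpG.st B t q) q) +
        8 * Real.sqrt th * tb.Ps.Pr (fun w => 1 ≤ t ∧ Bo C T t w) := by
    intro t htr
    have htT : t ≤ T := Nat.lt_succ_iff.1 (Finset.mem_range.1 htr)
    rcases Nat.eq_zero_or_pos t with h0 | h0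
    · have e : tb.Ps.E (fun w => ind (1 ≤ t ∧ Bo C T t w) * g (C.nu (5 * (t - 1)) w) t w) = 0 := by
        rw [← tb.Ps.E_const 0]
        refine FP.E_congr _ fun w _ => ?_
        rw [ind_not (fun hh => by omega), zero_mul]
      rw [e]
      have h4 := gain_nn h H hBl htT (B' := B t) (hBl t htT)
      have h5 : 0 ≤ tb.Ps.Pr (fun w => 1 ≤ t ∧ Bo C T t w) := tb.Ps.Pr_nonneg _
      have h6 := mul_nonneg (mul_nonneg (show (0 : ℝ) ≤ 8 by norm_num) hsq) h5
      linarith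
    · have e1 : ∀ w, (1 ≤ t ∧ Bo C T t w) = Bo C T t w := fun w => propext ⟨fun hh => hh.2, fun hh => ⟨h0, hh⟩⟩
      simp only [e1]
      exact yt_le H R hn hN1 C hcl w0 h0 htT hlam ht ht1 hc
  have h4 := Finset.sum_le_sum h3
  rw [Finset.sum_add_distrib, ← Finset.mul_sum, ← Finset.mul_sum] at h4
  have h5 := gains_le h H R hn hN1 hBl
  have h6 : ∑ t ∈ range (T + 1), tb.Ps.Pr (fun w => 1 ≤ t ∧ Bo C T t w) ≤
      1 + ∑ m ∈ range (5 * T), tb.Ps.Pr (fun w => C.nu m w = m) := by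
    unfold FP.Pr
    rw [← FP.E_sum, ← FP.E_sum, ← tb.Ps.E_const 1, ← FP.E_add]
    exact FP.E_mono _ fun w _ => sum_Bo C w
  have h7 := mul_le_mul_of_nonneg_left h6 (mul_nonneg (show (0 : ℝ) ≤ 8 by norm_num) hsq)
  have h8 : 0 ≤ ∑ m ∈ range (5 * T), tb.Ps.Pr (fun w => C.nu m w = m) := Finset.sum_nonneg fun m _ => tb.Ps.Pr_nonneg _
  have h9 := mul_nonneg hsq h8
  refine h1.trans ?_
  nlinarith

end

end Pool.Agent.GMH.One
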