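import Pool.Agent.GMH.ConTM2
import Pool.Agent.GMH.ConT0
import Pool.Agent.GMH.One3c

/-!
# GMH/ConO: the numbers of the dynamic term of ONE (`One.one_dyn`, helper2), helper41

`e = eta = lam = eO = x ^ -(ka + 40)`, `u = uO = x ^ -(3 ka + 120)`, `th = thO = exp (-(20 pQ))`, `Mn = MO = ceil (exp (6 pQ))`,
`x = 2 Lam`; `one_num` : all side conditions and the right side.
-/

set_option autoImplicit false
set_option linter.unusedSectionVars false

namespace Pool.Agent.GMH.CTO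

open Pool.Agent.GMH Pool.Agent.GMH.V3 Pool.Agent.GMH.MVN Pool.Agent.GMH.CTM

noncomputable section

def eO (Lam : ℝ) (ka : ℕ) : ℝ := CT.ix Lam (ka + 40)
def uO (Lam : ℝ) (ka : ℕ) : ℝ := CT.ix Lam (3 * ka + 120)
def thO (Lam : ℝ) (c0 : ℕ) : ℝ := Real.exp (-(20 * pQ Lam c0))
/-- the number of the samples -/
def MO (Lam : ℝ) (c0 : ℕ) : ℕ := ⌈Real.exp (6 * pQ Lam c0)⌉₊

/-- the right side of `One.one_dyn` -/
def rhO (Lam d0 e eta lam u y0 th : ℝ) (Mn : ℕ) (GV LS VV S0 Rr Pd : ℝ) : ℝ :=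
  24 * d0 * GV + 4 * Lam * LS + 4 * Lam * Rr + 3 * Lam * Pd + 3 * Lam * (2 * VV) +
      ((Lam + Real.log (1 / eta)) * (u / 2) * (240 * Lam / e ^ 2) + (lam + (lam + 3 * Lam) * (4 * y0 / u)) * GV +
        2 * (lam + 3 * Lam) * Rr +
        (Lam + Real.log (1 / eta)) * (2 * u / lam) * (2 * Lam + 12 * Real.sqrt th * (1 + S0)) +
        (Lam + Real.log (1 / eta)) * (4 * Real.sqrt th / lam * S0) + (Lam + Real.log (1 / eta)) / ((Mn : ℝ) + 2) * S0)

section one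

variable {Lam : ℝ} (hL : 2 ≤ Lam)

include hL

theorem eO_z (ka : ℕ) : eO Lam ka = (2 * Lam) ^ (-((ka : ℤ) + 40)) := by
  unfold eO CT.ix
  rw [ipz]
  push_cast
  ring_nf

theorem uO_z (ka : ℕ) : uO Lam ka = (2 * Lam) ^ (-(3 * (ka : ℤ) + 120)) := by
  unfold uO CT.ix
  rw [ipz]
  push_cast
  ring_nf

theorem eO_pos (ka : ℕ) : 0 < eO Lam ka := inv_pos.2 (pw_pos hL _)

theorem uO_pos (ka : ℕ) : 0 < uO Lam ka := inv_pos.2 (pw_pos hL _)

/-- the bound of the truncated logarithm -/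
theorem Lp_z (ka : ℕ) : 0 ≤ Lam + Real.log (1 / eO Lam ka) ∧ Lam + Real.log (1 / eO Lam ka) ≤ (2 * Lam) ^ ((ka : ℤ) + 4) := by
  have hx : (4 : ℝ) ≤ 2 * Lam := by linarith
  have e1 : Real.log (1 / eO Lam ka) = ((ka : ℝ) + 40) * Real.log (2 * Lam) := by
    unfold eO CT.ix pw
    rw [one_div, inv_inv, Real.log_pow]
    push_cast
    ring
  have hl : 0 ≤ Real.log (2 * Lam) := Real.log_nonneg (by linarith)
  have hl2 : Real.log (2 * Lam) ≤ 2 * Lam := by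
    have := Real.log_le_sub_one_of_pos (show 0 < 2 * Lam by linarith)
    linarith
  have hk : (0 : ℝ) ≤ (ka : ℝ) := Nat.cast_nonneg ka
  rw [e1]
  refine ⟨by positivity, ?_⟩
  have h1 : Lam + ((ka : ℝ) + 40) * Real.log (2 * Lam) ≤ ((ka : ℝ) + 41) * (2 * Lam) := by
    have := mul_le_mul_of_nonneg_left hl2 (show 0 ≤ (ka : ℝ) + 40 by linarith)
    nlinarith
  have h2 : (ka : ℝ) + 41 ≤ 4 ^ (ka + 3) := by
    have h3 : ka < 4 ^ ka := Nat.lt_pow_self (by norm_num)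
    have h4 : ka + 41 ≤ 4 ^ (ka + 3) := by
      rw [pow_add]
      omega
    exact_mod_cast h4
  refine h1.trans ?_
  have h5 := Fn.mul2 hx (show 0 ≤ 2 * Lam by linarith) (Fn.cst hx (ka + 3) h2)
    (show 2 * Lam ≤ (2 * Lam) ^ (1 : ℤ) by rw [zpow_one])
  refine h5.trans (Fn.zle hx ?_)
  push_cast
  omega

end one

/-- **THE NUMBERS OF ONE** -/
theorem one_num {A : ℕ} (hA : 80 ≤ A) (ka : ℕ) : Ev (fun c0 Lam =>
    (0 < thO Lam c0 ∧ thO Lam c0 ≤ 1 ∧ y0 Lam A c0 ≤ uO Lam ka / 4) ∧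
    (∀ a : ℝ, Real.log (1 / a) ≤ Lam → 2 / eO Lam ka * (4 * (Real.log (1 / thO Lam c0) + 1) +
      2 * One.cG (apF Lam A c0) (MO Lam c0) (pw Lam (c1F A c0)) a) ≤ pw Lam c0 * pw Lam (c1F A c0) / 2) ∧
    (∀ GV LS VV S0 Rr Pd : ℝ, 0 ≤ GV → 0 ≤ LS → 0 ≤ VV → 0 ≤ S0 → 0 ≤ Rr → 0 ≤ Pd → GV ≤ pw Lam (ka + 12) →
      LS ≤ CT.ix Lam 40 → VV ≤ CT.ix Lam 40 → Rr ≤ CT.ix Lam 40 → S0 ≤ 1 + Real.exp (4 * pQ Lam c0) →
      Pd ≤ (pw Lam (c0 + A))⁻¹ →
      rhO Lam (d0 Lam c0) (eO Lam ka) (eO Lam ka) (eO Lam ka) (uO Lam ka) (y0 Lam A c0) (thO Lam c0) (MO Lam c0) GV LS VV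
        S0 Rr Pd ≤ (pw Lam 16)⁻¹) ∧
    (∀ GV Rr : ℝ, 0 ≤ GV → 0 ≤ Rr → GV ≤ pw Lam (ka + 12) → Rr ≤ CT.ix Lam 40 →
      4 / uO Lam ka * (GV + Rr) ≤ pw Lam (4 * ka + 140)) ∧
    (∀ GV : ℝ, 0 ≤ GV → GV ≤ pw Lam (ka + 12) → (eO Lam ka + eO Lam ka) * GV ≤ CT.ix Lam 24)) := by
  refine Ev.mono ((scales A ka 256).and (Ev.ge (ka + 60))) fun c0 Lam hL ⟨⟨h1, h2, _, _⟩, hc0⟩ => ?_
  have hx : (4 : ℝ) ≤ 2 * Lam := by linarith
  have hx0 : (2 * Lam : ℝ) ≠ 0 := by linarith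
  have hL0 : (0 : ℝ) ≤ Lam := by linarith
  have o := one_ell hL A c0
  have l := Lam_ell hL A (c0 := c0) (by omega)
  have p := pe_pos hL ka c0
  have q := pQ_pos hL c0
  push_cast at h1 h2
  have big : 65536 * ell Lam A c0 ≤ pQ Lam c0 := by linarith
  have hc1 : 6400 * (c0 + 1) ≤ c1F A c0 := by
    unfold c1F
    have : 80 * 80 ≤ A * A := Nat.mul_le_mul hA hA
    exact Nat.mul_le_mul this le_rfl
  have hc1' : 3 * A + 3 * c0 + 20 ≤ c1F A c0 := by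
    unfold c1F
    have g1 : 80 * A * (c0 + 1) ≤ A * A * (c0 + 1) := Nat.mul_le_mul (Nat.mul_le_mul hA le_rfl) le_rfl
    have g2 : 80 * c0 ≤ A * c0 := Nat.mul_le_mul hA le_rfl
    have g3 : 80 * A * (c0 + 1) = 80 * (A * c0) + 80 * A := by ring
    omega
  have zp := fun a : ℤ => Fn.zpos hx a
  obtain ⟨Lp0, Lp1⟩ := Lp_z hL ka
  have e_p := eO_pos hL ka
  have u_p := uO_pos hL ka
  have ez := eO_z hL ka
  have uz := uO_z hL ka
  have xz : 2 * Lam ≤ (2 * Lam) ^ (1 : ℤ) := by rw [zpow_one]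
  have ey : y0 Lam A c0 = (2 * Lam) ^ (24 * (c0 : ℤ) - (c1F A c0 : ℤ)) := by
    unfold y0
    rw [pz, pz, ← zpow_sub₀ hx0]
    push_cast
    ring_nf
  have y_p : 0 < y0 Lam A c0 := by rw [ey]; exact zp _
  have iez : 1 / eO Lam ka = (2 * Lam) ^ ((ka : ℤ) + 40) := by
    rw [ez, zpow_neg, one_div, inv_inv]
  have iuz : 1 / uO Lam ka = (2 * Lam) ^ (3 * (ka : ℤ) + 120) := by
    rw [uz, zpow_neg, one_div, inv_inv]
  have gz : ∀ GV : ℝ, GV ≤ pw Lam (ka + 12) → GV ≤ (2 * Lam) ^ ((ka : ℤ) + 12) := by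
    intro GV hG
    rw [pz] at hG
    push_cast at hG
    exact hG
  have iz40 : ∀ R : ℝ, R ≤ CT.ix Lam 40 → R ≤ (2 * Lam) ^ (-40 : ℤ) := by
    intro R hR
    unfold CT.ix at hR
    rw [ipz] at hR
    push_cast at hR
    exact hR
  -- tiny terms
  have tiny : ∀ y : ℝ, y ≤ Real.exp (100 * ell Lam A c0 - pQ Lam c0) → y ≤ (2 * Lam) ^ (-28 : ℤ) := by
    intro y hy
    have b1 := inv_ell hL A c0 (a := 28) (k := 28) (by omega)
    rw [ipz] at b1
    push_cast at b1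
    refine hy.trans (le_trans (leE ?_) b1)
    linarith
  have Lpe : Lam + Real.log (1 / eO Lam ka) ≤ Real.exp (ell Lam A c0) := by
    have b1 := pw_ell hL A c0 (a := ka + 4) (k := 1) (by omega)
    rw [pz] at b1
    push_cast at b1
    rw [one_mul] at b1
    exact Lp1.trans b1
  have iee : 1 / eO Lam ka ≤ Real.exp (ell Lam A c0) := by
    have b1 := pw_ell hL A c0 (a := ka + 40) (k := 1) (by omega)
    rw [pz] at b1
    push_cast at b1
    rw [one_mul] at b1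
    rw [iez]
    exact b1
  have sq : Real.sqrt (thO Lam c0) = Real.exp (-(10 * pQ Lam c0)) := by
    unfold thO
    rw [← Real.exp_half]
    congr 1
    ring
  have S0e : ∀ S0 : ℝ, S0 ≤ 1 + Real.exp (4 * pQ Lam c0) → S0 ≤ Real.exp (4 * pQ Lam c0 + 1) := by
    intro S0 hS
    refine hS.trans (addE (a := 0) (b := 4 * pQ Lam c0) (by rw [Real.exp_zero]) le_rfl (by linarith) (by linarith))
  refine ⟨⟨Real.exp_pos _, Real.exp_le_one_iff.2 (by linarith), ?_⟩, ?_, ?_, ?_, ?_⟩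
  · -- y0 ≤ u / 4
    have b1 : 4 * y0 Lam A c0 ≤ uO Lam ka := by
      rw [ey, uz]
      refine (Fn.mul2 hx (zp _).le (Fn.cst hx 1 (c := 4) (by norm_num)) le_rfl).trans (Fn.zle hx ?_)
      push_cast
      omega
    linarith
  · -- the condition on the samples
    intro a ha
    have t1 : Real.log (1 / thO Lam c0) = 20 * pQ Lam c0 := by
      unfold thO
      rw [Real.exp_neg, one_div, inv_inv, Real.log_exp]
    have hX0 : (apF Lam A c0).X0 = pw Lam (cXF A c0) := rfl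
    have N1p := pw_pos hL (c1F A c0)
    have Xp := pw_pos hL (cXF A c0)
    have g1 : One.cG (apF Lam A c0) (MO Lam c0) (pw Lam (c1F A c0)) a ≤
        6 * pQ Lam c0 + pw Lam (cXF A c0) + 3 + 2 * pw Lam (c1F A c0) * Lam := by
      unfold One.cG
      rw [hX0]
      have m1 : ((MO Lam c0 : ℕ) : ℝ) ≤ Real.exp (6 * pQ Lam c0) + 1 := (Nat.ceil_lt_add_one (Real.exp_pos _).le).le
      have m2 : ((MO Lam c0 : ℕ) : ℝ) + 1 ≤ Real.exp (6 * pQ Lam c0 + 2) := by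
        have m3 : (1 : ℝ) ≤ Real.exp (6 * pQ Lam c0) := Real.one_le_exp (by linarith)
        have m4 : (3 : ℝ) ≤ Real.exp 2 := by
          have := Real.add_one_le_exp (2 : ℝ)
          linarith
        rw [Real.exp_add]
        nlinarith [Real.exp_pos (6 * pQ Lam c0)]
      have m5 : Real.exp (pw Lam (cXF A c0)) + 1 ≤ Real.exp (pw Lam (cXF A c0) + 1) :=
        addE (b := 0) le_rfl (by rw [Real.exp_zero]) le_rfl (by linarith)
      have m6 : (((MO Lam c0 : ℕ) : ℝ) + 1) * (Real.exp (pw Lam (cXF A c0)) + 1) ≤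
          Real.exp (6 * pQ Lam c0 + 2 + (pw Lam (cXF A c0) + 1)) := mulE (by positivity) m2 m5
      have m7 := Real.log_le_log (by positivity) m6
      rw [Real.log_exp] at m7
      have m8 : 2 * pw Lam (c1F A c0) * Real.log (1 / a) ≤ 2 * pw Lam (c1F A c0) * Lam :=
        mul_le_mul_of_nonneg_left ha (by positivity)
      linarith
    rw [t1]
    have g2 : 4 * (20 * pQ Lam c0 + 1) + 2 * One.cG (apF Lam A c0) (MO Lam c0) (pw Lam (c1F A c0)) a ≤
        (92 * pQ Lam c0 + 10) + (2 * pw Lam (cXF A c0) + 4 * pw Lam (c1F A c0) * Lam) := by linarith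
    have w1 : 92 * pQ Lam c0 ≤ (2 * Lam) ^ ((c1F A c0 : ℤ) + 2) := by
      unfold pQ
      rw [pz]
      refine (Fn.mul2 hx (zp _).le (Fn.cst hx 4 (c := 92) (by norm_num)) le_rfl).trans (Fn.zle hx ?_)
      push_cast
      omega
    have w2 : (10 : ℝ) ≤ (2 * Lam) ^ ((c1F A c0 : ℤ) + 2) :=
      (Fn.cst hx 2 (c := 10) (by norm_num)).trans (Fn.zle hx (by push_cast; omega))
    have w3 : 2 * pw Lam (cXF A c0) ≤ (2 * Lam) ^ ((c1F A c0 : ℤ) + 2) := by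
      rw [pz]
      refine (Fn.mul2 hx (zp _).le (Fn.cst hx 1 (c := 2) (by norm_num)) le_rfl).trans (Fn.zle hx ?_)
      unfold cXF
      push_cast
      omega
    have w4 : 4 * pw Lam (c1F A c0) * Lam ≤ (2 * Lam) ^ ((c1F A c0 : ℤ) + 2) := by
      have : 4 * pw Lam (c1F A c0) * Lam = 2 * (2 * Lam) * pw Lam (c1F A c0) := by ring
      rw [this, pz]
      refine (Fn.mul2 hx (zp _).le (Fn.mul2 hx (by linarith) (Fn.cst hx 1 (c := 2) (by norm_num)) xz) le_rfl).trans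
        (Fn.zle hx ?_)
      push_cast
      omega
    have w5 := Fn.add2 hx (Fn.add2 hx w1 w2) (Fn.add2 hx w3 w4)
    have g3 := g2.trans w5
    have g4 : 2 / eO Lam ka ≤ (2 * Lam) ^ ((ka : ℤ) + 41) := by
      have : 2 / eO Lam ka = 2 * (1 / eO Lam ka) := by ring
      rw [this, iez]
      refine (Fn.mul2 hx (zp _).le (Fn.cst hx 1 (c := 2) (by norm_num)) le_rfl).trans (Fn.zle hx ?_)
      push_cast
      omega
    have g5 : 2 / eO Lam ka * (4 * (20 * pQ Lam c0 + 1) + 2 * One.cG (apF Lam A c0) (MO Lam c0) (pw Lam (c1F A c0)) a) ≤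
        (2 * Lam) ^ ((ka : ℤ) + 41 + ((c1F A c0 : ℤ) + 2 + 1 + 1)) := by
      have g6 := mul_le_mul_of_nonneg_left g3 (show 0 ≤ 2 / eO Lam ka by positivity)
      refine g6.trans ?_
      exact Fn.mul2 hx (zp _).le g4 le_rfl
    have g7 : 2 * (2 * Lam) ^ ((ka : ℤ) + 41 + ((c1F A c0 : ℤ) + 2 + 1 + 1)) ≤ pw Lam c0 * pw Lam (c1F A c0) := by
      rw [pz, pz, ← zpow_add₀ hx0]
      refine (Fn.mul2 hx (zp _).le (Fn.cst hx 1 (c := 2) (by norm_num)) le_rfl).trans (Fn.zle hx ?_)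
      push_cast
      omega
    linarith
  · intro GV LS VV S0 Rr Pd hGV hLS hVV hS0 hRr hPd GV1 LS1 VV1 Rr1 S01 Pd1
    have GVz := gz GV GV1
    have LSz := iz40 LS LS1
    have VVz := iz40 VV VV1
    have Rrz := iz40 Rr Rr1
    have GVe : GV ≤ Real.exp (ell Lam A c0) := by
      have b1 := pw_ell hL A c0 (a := ka + 12) (k := 1) (by omega)
      push_cast at b1
      rw [one_mul] at b1
      exact GV1.trans b1
    have S0e' := S0e S0 S01
    have Pdz : Pd ≤ (2 * Lam) ^ (-40 : ℤ) := by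
      rw [ipz] at Pd1
      exact Pd1.trans (Fn.zle hx (by push_cast; omega))
    have sm : ∀ (c R : ℝ), 0 ≤ R → c ≤ 4 * Lam → R ≤ (2 * Lam) ^ (-40 : ℤ) → c * R ≤ (2 * Lam) ^ (-28 : ℤ) := by
      intro c R hR hc hR1
      have b1 : c ≤ (2 * Lam) ^ (2 : ℤ) := by
        refine hc.trans ?_
        have : (2 * Lam) ^ (2 : ℤ) = (2 * Lam) * (2 * Lam) := by
          rw [show (2 : ℤ) = 1 + 1 by norm_num, zpow_add₀ hx0, zpow_one]
        rw [this]
        nlinarith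
      exact (Fn.mul2 hx hR b1 hR1).trans (Fn.zle hx (by norm_num))
    have Ta : 24 * d0 Lam c0 * GV ≤ (2 * Lam) ^ (-28 : ℤ) := by
      refine tiny _ ?_
      unfold d0
      have b1 : (24 : ℝ) ≤ Real.exp ((5 : ℕ) : ℝ) := cexp 5 (by norm_num)
      refine (mulE hGV (mulE (Real.exp_pos _).le b1 le_rfl) GVe).trans (leE ?_)
      push_cast
      linarith
    have Tb := sm (4 * Lam) LS hLS le_rfl LSz
    have Tc := sm (4 * Lam) Rr hRr le_rfl Rrz
    have Td := sm (3 * Lam) Pd hPd (by linarith) Pdz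
    have Te : 3 * Lam * (2 * VV) ≤ (2 * Lam) ^ (-28 : ℤ) := by
      have b1 : 3 * Lam * (2 * VV) ≤ (2 * Lam) ^ (1 : ℤ) * ((2 * Lam) ^ (1 : ℤ) * (2 * Lam) ^ (-40 : ℤ)) := by
        rw [zpow_one]
        have c1 : 2 * Lam * VV ≤ 2 * Lam * (2 * Lam) ^ (-40 : ℤ) := mul_le_mul_of_nonneg_left VVz (by linarith)
        have c2 : 3 * Lam * (2 * VV) = 3 * (2 * Lam * VV) := by ring
        rw [c2]
        have c3 : 0 ≤ 2 * Lam * VV := by positivity
        have c4 : 3 * (2 * Lam * VV) ≤ 2 * Lam * (2 * Lam * VV) := mul_le_mul_of_nonneg_right (by linarith) c3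
        exact c4.trans (mul_le_mul_of_nonneg_left c1 (by linarith))
      refine b1.trans (le_of_eq_of_le ?_ (Fn.zle hx (show (1 : ℤ) + (1 + -40) ≤ -28 by norm_num)))
      rw [zpow_add₀ hx0, zpow_add₀ hx0]
    have Tf : (Lam + Real.log (1 / eO Lam ka)) * (uO Lam ka / 2) * (240 * Lam / eO Lam ka ^ 2) ≤ (2 * Lam) ^ (-28 : ℤ) := by
      have b1 : uO Lam ka / 2 ≤ (2 * Lam) ^ (-(3 * (ka : ℤ) + 120)) := by
        rw [← uz]
        linarith
      have b2 : 240 * Lam / eO Lam ka ^ 2 ≤ (2 * Lam) ^ ((4 : ℕ) + (1 + (((ka : ℤ) + 40) + ((ka : ℤ) + 40)))) := by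
        have : 240 * Lam / eO Lam ka ^ 2 = 120 * (2 * Lam * (1 / eO Lam ka * (1 / eO Lam ka))) := by
          field_simp
          ring
        rw [this, iez]
        have z1 := zp ((ka : ℤ) + 40)
        exact Fn.mul2 hx (by positivity) (Fn.cst hx 4 (c := 120) (by norm_num))
          (Fn.mul2 hx (by positivity) xz (Fn.mul2 hx z1.le le_rfl le_rfl))
      refine (Fn.mul2 hx (by positivity) (Fn.mul2 hx (by positivity) Lp1 b1) b2).trans (Fn.zle hx ?_)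
      push_cast
      omega
    have Tg : eO Lam ka * GV ≤ (2 * Lam) ^ (-28 : ℤ) := by
      rw [ez]
      exact (Fn.mul2 hx hGV le_rfl GVz).trans (Fn.zle hx (by omega))
    have lz : eO Lam ka + 3 * Lam ≤ (2 * Lam) ^ (2 : ℤ) := by
      have e1 : eO Lam ka ≤ 1 := by
        rw [ez, ← zpow_zero (2 * Lam)]
        exact Fn.zle hx (by omega)
      have : (2 * Lam) ^ (2 : ℤ) = (2 * Lam) * (2 * Lam) := by
        rw [show (2 : ℤ) = 1 + 1 by norm_num, zpow_add₀ hx0, zpow_one]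
      rw [this]
      nlinarith
    have Th : (eO Lam ka + 3 * Lam) * (4 * y0 Lam A c0 / uO Lam ka) * GV ≤ (2 * Lam) ^ (-28 : ℤ) := by
      have b1 : 4 * y0 Lam A c0 / uO Lam ka ≤ (2 * Lam) ^ (((1 : ℕ) : ℤ) + (24 * (c0 : ℤ) - (c1F A c0 : ℤ)) +
          (3 * (ka : ℤ) + 120)) := by
        have : 4 * y0 Lam A c0 / uO Lam ka = 4 * y0 Lam A c0 * (1 / uO Lam ka) := by ring
        rw [this, iuz, ey]
        exact Fn.mul2 hx (zp _).le (Fn.mul2 hx (zp _).le (Fn.cst hx 1 (c := 4) (by norm_num)) le_rfl) le_rfl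
      refine (Fn.mul2 hx hGV (Fn.mul2 hx (by positivity) lz b1) GVz).trans (Fn.zle hx ?_)
      push_cast
      omega
    have Ti : 2 * (eO Lam ka + 3 * Lam) * Rr ≤ (2 * Lam) ^ (-28 : ℤ) := by
      exact (Fn.mul2 hx hRr (Fn.mul2 hx (by positivity) (Fn.cst hx 1 (c := 2) (by norm_num)) lz) Rrz).trans
        (Fn.zle hx (by norm_num))
    have Tj : (Lam + Real.log (1 / eO Lam ka)) * (2 * uO Lam ka / eO Lam ka) *
        (2 * Lam + 12 * Real.sqrt (thO Lam c0) * (1 + S0)) ≤ (2 * Lam) ^ (-28 : ℤ) := by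
      have b1 : 2 * uO Lam ka / eO Lam ka ≤ (2 * Lam) ^ (((1 : ℕ) : ℤ) + -(3 * (ka : ℤ) + 120) + ((ka : ℤ) + 40)) := by
        have : 2 * uO Lam ka / eO Lam ka = 2 * uO Lam ka * (1 / eO Lam ka) := by ring
        rw [this, iez, uz]
        exact Fn.mul2 hx (zp _).le (Fn.mul2 hx (zp _).le (Fn.cst hx 1 (c := 2) (by norm_num)) le_rfl) le_rfl
      have b2 : 12 * Real.sqrt (thO Lam c0) * (1 + S0) ≤ (2 * Lam) ^ (1 : ℤ) := by
        rw [sq]
        have c1 : (12 : ℝ) ≤ Real.exp ((4 : ℕ) : ℝ) := cexp 4 (by norm_num)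
        have c2 : 1 + S0 ≤ Real.exp (4 * pQ Lam c0 + 2) :=
          addE (a := 0) (by rw [Real.exp_zero]) S0e' (by linarith) (by linarith)
        have c3 := mulE (by positivity) (mulE (Real.exp_pos _).le c1 (le_refl (Real.exp (-(10 * pQ Lam c0))))) c2
        have c4 : Real.exp (((4 : ℕ) : ℝ) + -(10 * pQ Lam c0) + (4 * pQ Lam c0 + 2)) ≤ 1 := by
          refine Real.exp_le_one_iff.2 ?_
          push_cast
          linarith
        exact (c3.trans c4).trans (by rw [zpow_one]; linarith)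
      have b3 := Fn.add2 hx xz b2
      have s0 := Real.sqrt_nonneg (thO Lam c0)
      refine (Fn.mul2 hx (by positivity) (Fn.mul2 hx (by positivity) Lp1 b1) b3).trans (Fn.zle hx ?_)
      push_cast
      omega
    have Tk : (Lam + Real.log (1 / eO Lam ka)) * (4 * Real.sqrt (thO Lam c0) / eO Lam ka * S0) ≤ (2 * Lam) ^ (-28 : ℤ) := by
      refine tiny _ ?_
      have : 4 * Real.sqrt (thO Lam c0) / eO Lam ka * S0 = 4 * Real.sqrt (thO Lam c0) * (1 / eO Lam ka) * S0 := by ring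
      rw [this, sq]
      have c1 : (4 : ℝ) ≤ Real.exp ((2 : ℕ) : ℝ) := cexp 2 (by norm_num)
      have ie0 : 0 ≤ 1 / eO Lam ka := by positivity
      refine (mulE (by positivity) Lpe (mulE hS0 (mulE ie0 (mulE (Real.exp_pos _).le c1 le_rfl) iee) S0e')).trans (leE ?_)
      push_cast
      linarith
    have Tl : (Lam + Real.log (1 / eO Lam ka)) / (((MO Lam c0 : ℕ) : ℝ) + 2) * S0 ≤ (2 * Lam) ^ (-28 : ℤ) := by
      refine tiny _ ?_
      have m1 : Real.exp (6 * pQ Lam c0) ≤ ((MO Lam c0 : ℕ) : ℝ) := Nat.le_ceil _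
      have m2 : (Lam + Real.log (1 / eO Lam ka)) / (((MO Lam c0 : ℕ) : ℝ) + 2) ≤
          (Lam + Real.log (1 / eO Lam ka)) / Real.exp (6 * pQ Lam c0) :=
        div_le_div_of_nonneg_left Lp0 (Real.exp_pos _) (by linarith)
      have m3 : (Lam + Real.log (1 / eO Lam ka)) / Real.exp (6 * pQ Lam c0) ≤
          Real.exp (ell Lam A c0 + -(6 * pQ Lam c0)) := by
        rw [div_eq_mul_inv, ← Real.exp_neg]
        exact mulE (Real.exp_pos _).le Lpe le_rfl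
      refine (mulE hS0 (m2.trans m3) S0e').trans (leE ?_)
      linarith
    have fin : ∀ a b c d e f g h' i j k l' : ℝ, a ≤ (2 * Lam) ^ (-28 : ℤ) → b ≤ (2 * Lam) ^ (-28 : ℤ) →
        c ≤ (2 * Lam) ^ (-28 : ℤ) → d ≤ (2 * Lam) ^ (-28 : ℤ) → e ≤ (2 * Lam) ^ (-28 : ℤ) → f ≤ (2 * Lam) ^ (-28 : ℤ) →
        g ≤ (2 * Lam) ^ (-28 : ℤ) → h' ≤ (2 * Lam) ^ (-28 : ℤ) → i ≤ (2 * Lam) ^ (-28 : ℤ) → j ≤ (2 * Lam) ^ (-28 : ℤ) →
        k ≤ (2 * Lam) ^ (-28 : ℤ) → l' ≤ (2 * Lam) ^ (-28 : ℤ) →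
        a + b + c + d + e + (f + (g + h') + i + j + k + l') ≤ (pw Lam 16)⁻¹ := by
      intro a b c d e f g h' i j k l' H1 H2 H3 H4 H5 H6 H7 H8 H9 H10 H11 H12
      have b1 : 12 * (2 * Lam) ^ (-28 : ℤ) ≤ (pw Lam 16)⁻¹ := by
        rw [ipz]
        refine (Fn.mul2 hx (zp _).le (Fn.cst hx 2 (c := 12) (by norm_num)) le_rfl).trans (Fn.zle hx ?_)
        norm_num
      linarith
    unfold rhO
    rw [add_mul (eO Lam ka) _ GV]
    exact fin _ _ _ _ _ _ _ _ _ _ _ _ Ta Tb Tc Td Te Tf Tg Th Ti Tj Tk Tl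
  · intro GV Rr hGV hRr GV1 Rr1
    have GVz := gz GV GV1
    have Rrz : Rr ≤ (2 * Lam) ^ ((ka : ℤ) + 12) := (iz40 Rr Rr1).trans (Fn.zle hx (by omega))
    have b1 := Fn.add2 hx GVz Rrz
    have : 4 / uO Lam ka * (GV + Rr) = 4 * (1 / uO Lam ka) * (GV + Rr) := by ring
    rw [this, iuz, pz]
    refine (Fn.mul2 hx (by positivity) (Fn.mul2 hx (zp _).le (Fn.cst hx 1 (c := 4) (by norm_num)) le_rfl) b1).trans
      (Fn.zle hx ?_)
    push_cast
    omega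
  · intro GV hGV GV1
    have GVz := gz GV GV1
    have b1 : eO Lam ka + eO Lam ka ≤ (2 * Lam) ^ (-((ka : ℤ) + 40) + 1) := by
      rw [ez]
      exact Fn.add2 hx le_rfl le_rfl
    unfold CT.ix
    rw [ipz]
    refine (Fn.mul2 hx hGV b1 GVz).trans (Fn.zle hx ?_)
    push_cast
    omega

end

end Pool.Agent.GMH.CTO
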