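import Pool.Agent.GMH.ConT6

/-!
# GMH/ConT7 (helper42): NUMBERS OF THE PUBLIC PAYMENTS (row A5; PayP5)

`kap = x^(-k1)`, `lam = x^(-k2)`, `ep1 = x^(-kep)`, `th = x^(-kth)`, lists of `Nn = Jf` rows, `E = k1 + k2 + kth`.
* `payp_num` : the conditions of `payp` from `log M0 ≤ n N_1 x^(-(E+8))`, `log M1 + log M2 ≤ n x^(-(E+8))`, `eps ≤ x^(-(E+8))`;
* `lM1_le`, `lM0_le` : lists of `Nn` values; `eps_half` : `Nn √q ≤ x^(-(E+8))` in a round; `lv_num` : `Lam + 6 pe + 4 ≤ ..`.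
-/

set_option autoImplicit false
set_option linter.unusedSectionVars false

namespace Pool.Agent.GMH.CT

open Pool.Agent.GMH Pool.Agent.GMH.V3 Finset

noncomputable section

/-- `lam th kap = x^(-kE)` -/
def kE (kL k1 k2 : ℕ) : ℕ := k1 + k2 + kth kL k1 k2

/-- `th1` of the public payments : `exp (-(n N_1 x^(-(kE + 8))))` -/
def th2f (Lam : ℝ) (A kL k1 k2 c0 : ℕ) : ℝ :=
  Real.exp (-(pw Lam c0 * pw Lam (c1F A c0) * ix Lam (kE kL k1 k2 + 8)))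

section pp

variable {Lam : ℝ} (hL : 2 ≤ Lam) (A kL k1 k2 : ℕ)

include hL

theorem th2_pos (c0 : ℕ) : 0 < th2f Lam A kL k1 k2 c0 := Real.exp_pos _

theorem nN_pos (c0 k : ℕ) : 0 < pw Lam c0 * pw Lam (c1F A c0) * ix Lam k :=
  mul_pos (mul_pos (pw_pos hL _) (pw_pos hL _)) (ix_pos hL _)

theorem th2_le (c0 : ℕ) : th2f Lam A kL k1 k2 c0 ≤ 1 :=
  Real.exp_le_one_iff.2 (neg_nonpos.2 (nN_pos hL A c0 _).le)

theorem log_th2 (c0 : ℕ) : Real.log (1 / th2f Lam A kL k1 k2 c0) =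
    pw Lam c0 * pw Lam (c1F A c0) * ix Lam (kE kL k1 k2 + 8) := by
  unfold th2f
  rw [one_div, ← Real.exp_neg, neg_neg, Real.log_exp]

theorem sqrt_th2 (c0 : ℕ) : Real.sqrt (th2f Lam A kL k1 k2 c0) ≤
    Real.exp (-(2 * (pw Lam c0 * pw Lam (c1F A c0) * ix Lam (kE kL k1 k2 + 9)))) := by
  have y0 := (nN_pos hL A c0 (kE kL k1 k2 + 8)).le
  have e : th2f Lam A kL k1 k2 c0 = Real.exp (-(pw Lam c0 * pw Lam (c1F A c0) * ix Lam (kE kL k1 k2 + 8)) / 2) *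
      Real.exp (-(pw Lam c0 * pw Lam (c1F A c0) * ix Lam (kE kL k1 k2 + 8)) / 2) := by
    unfold th2f
    rw [← Real.exp_add]
    congr 1
    ring
  rw [e, Real.sqrt_mul_self (Real.exp_pos _).le]
  refine Real.exp_le_exp.2 ?_
  have h2 := four_ix hL (mul_pos (pw_pos hL c0) (pw_pos hL (c1F A c0))).le (kE kL k1 k2 + 8)
  rw [show kE kL k1 k2 + 8 + 1 = kE kL k1 k2 + 9 by ring] at h2
  linarith

theorem ltk : ix Lam k2 * ix Lam (kth kL k1 k2) * ix Lam k1 = ix Lam (kE kL k1 k2) := by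
  rw [← ix_add, ← ix_add]
  congr 1
  unfold kE
  ring

/-- the price of one name -/
theorem payp_A {c0 : ℕ} (hc : kE kL k1 k2 + 4 ≤ c0) {lM0 lM12 eps : ℝ}
    (h0 : lM0 ≤ pw Lam c0 * pw Lam (c1F A c0) * ix Lam (kE kL k1 k2 + 8))
    (h1 : lM12 ≤ pw Lam c0 * ix Lam (kE kL k1 k2 + 8)) (he : eps ≤ ix Lam (kE kL k1 k2 + 8)) :
    8 * (4 * (Real.log (1 / th2f Lam A kL k1 k2 c0) + 1) + 2 * (lM0 + pw Lam (c1F A c0) * lM12) +
      pw Lam c0 * pw Lam (c1F A c0) * eps) ≤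
      ix Lam k2 * ix Lam (kth kL k1 k2) * ix Lam k1 * (pw Lam c0 * pw Lam (c1F A c0)) := by
  rw [log_th2 hL, ltk hL]
  have n0 := pw_pos hL c0
  have n1 := pw_pos hL (c1F A c0)
  have q5 : ix Lam (kE kL k1 k2 + 8) ≤ ix Lam (kE kL k1 k2) * (1 / 4096) := by
    have h5 : ix Lam (kE kL k1 k2 + 8) ≤ ix Lam (kE kL k1 k2 + 6) := ix_anti hL (by omega)
    have h6 : ix Lam 6 ≤ 1 / 4096 := by
      have := ix_four hL 6
      norm_num at this ⊢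
      exact this
    refine h5.trans ?_
    rw [ix_add]
    exact mul_le_mul_of_nonneg_left h6 (ix_nn hL _)
  have g0 : 0 ≤ pw Lam c0 * pw Lam (c1F A c0) := (mul_pos n0 n1).le
  have g1 := mul_le_mul_of_nonneg_left q5 g0
  have g2 := mul_le_mul_of_nonneg_left h1 n1.le
  have g3 := mul_le_mul_of_nonneg_left he g0
  have g5 : (256 : ℝ) ≤ pw Lam c0 * pw Lam (c1F A c0) * ix Lam (kE kL k1 k2) := by
    have h5 : pw Lam (4 + kE kL k1 k2) ≤ pw Lam c0 := pw_mono hL (by omega)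
    have h6 := mul_le_mul_of_nonneg_right h5 (ix_nn hL (kE kL k1 k2))
    have h7 := pw_ge hL 4
    rw [show 4 + kE kL k1 k2 = kE kL k1 k2 + 4 by ring, pw_add_ix hL] at h6
    norm_num at h7
    have h8 : pw Lam c0 * ix Lam (kE kL k1 k2) * 1 ≤ pw Lam c0 * ix Lam (kE kL k1 k2) * pw Lam (c1F A c0) :=
      mul_le_mul_of_nonneg_left (pw_ge1 hL _) (mul_nonneg n0.le (ix_nn hL _))
    linarith
  generalize ix Lam (kE kL k1 k2 + 8) = z at *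
  generalize ix Lam (kE kL k1 k2) = y at *
  generalize pw Lam (c1F A c0) = N at *
  generalize pw Lam c0 = n at *
  have e1 : N * (n * z) = n * N * z := by ring
  have e2 : y * (n * N) = n * N * y := by ring
  rw [e1] at g2
  rw [e2]
  linarith

/-- lists of `Nn` values, private -/
theorem lM1_le {c0 : ℕ} {y : ℝ} (hy : y ≤ pw Lam c0 * ix Lam (kE kL k1 k2 + 8 + (kth kL k1 k2 + k1 + 2))) (y0 : 0 ≤ y) :
    ((Jf Lam kL k1 k2 : ℝ) + 1) * y ≤ pw Lam c0 * ix Lam (kE kL k1 k2 + 8) := by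
  have h1 := Jf_le hL kL k1 k2
  calc ((Jf Lam kL k1 k2 : ℝ) + 1) * y ≤ pw Lam (kth kL k1 k2 + k1 + 2) * y := mul_le_mul_of_nonneg_right h1 y0
    _ ≤ pw Lam (kth kL k1 k2 + k1 + 2) * (pw Lam c0 * ix Lam (kE kL k1 k2 + 8 + (kth kL k1 k2 + k1 + 2))) :=
        mul_le_mul_of_nonneg_left hy (pw_pos hL _).le
    _ = pw Lam c0 * (pw Lam (kth kL k1 k2 + k1 + 2) * ix Lam (kth kL k1 k2 + k1 + 2 + (kE kL k1 k2 + 8))) := by
        rw [show kE kL k1 k2 + 8 + (kth kL k1 k2 + k1 + 2) = kth kL k1 k2 + k1 + 2 + (kE kL k1 k2 + 8) by ring]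
        ring
    _ = _ := by rw [pw_ix_add hL]

/-- lists of `Nn` values, public -/
theorem lM0_le {c0 : ℕ} (hA : 80 ≤ A) (hc : kE kL k1 k2 + 8 + (kth kL k1 k2 + k1 + 2) ≤ c0) {y : ℝ}
    (hy : y ≤ pw Lam (80 * c0)) (y0 : 0 ≤ y) :
    ((Jf Lam kL k1 k2 : ℝ) + 1) * y ≤ pw Lam c0 * pw Lam (c1F A c0) * ix Lam (kE kL k1 k2 + 8) := by
  have h1 := Jf_le hL kL k1 k2
  have h2 : pw Lam (80 * c0) ≤ pw Lam (c1F A c0) := N1_ge hL hA _ (by omega)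
  have h3 : pw Lam (kth kL k1 k2 + k1 + 2) ≤ pw Lam c0 * ix Lam (kE kL k1 k2 + 8) := by
    have h4 : pw Lam (kth kL k1 k2 + k1 + 2 + (kE kL k1 k2 + 8)) ≤ pw Lam c0 := pw_mono hL (by omega)
    have h5 := mul_le_mul_of_nonneg_right h4 (ix_nn hL (kE kL k1 k2 + 8))
    rw [show kth kL k1 k2 + k1 + 2 + (kE kL k1 k2 + 8) = (kE kL k1 k2 + 8) + (kth kL k1 k2 + k1 + 2) by ring,
      pw_add_ix hL] at h5
    exact h5
  calc ((Jf Lam kL k1 k2 : ℝ) + 1) * y ≤ pw Lam (kth kL k1 k2 + k1 + 2) * y := mul_le_mul_of_nonneg_right h1 y0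
    _ ≤ pw Lam (kth kL k1 k2 + k1 + 2) * pw Lam (c1F A c0) := mul_le_mul_of_nonneg_left (hy.trans h2) (pw_pos hL _).le
    _ ≤ pw Lam c0 * ix Lam (kE kL k1 k2 + 8) * pw Lam (c1F A c0) := mul_le_mul_of_nonneg_right h3 (pw_pos hL _).le
    _ = _ := by ring

end pp

/-- the error of the public payments : `V` = number of the public epochs -/
theorem payp_err (A kL k1 k2 s : ℕ) : Ev fun c0 Lam => ∀ V : ℝ, 0 ≤ V →
    V ≤ Real.exp (pw Lam c0 * pw Lam (c1F A c0) * ix Lam (kE kL k1 k2 + 9)) →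
    32 * Real.sqrt (th2f Lam A kL k1 k2 c0) * V ≤ ix Lam s := by
  refine ((exp_n A (kE kL k1 k2 + 9) (s + 3)).and (Ev.ge 1)).mono fun c0 Lam hL h V V0 hV => ?_
  obtain ⟨h, hc⟩ := h
  set y := pw Lam c0 * pw Lam (c1F A c0) * ix Lam (kE kL k1 k2 + 9) with hy
  have y1 : pw Lam c0 * ix Lam (kE kL k1 k2 + 9) ≤ y := by
    have h0 : 0 ≤ pw Lam c0 * ix Lam (kE kL k1 k2 + 9) := mul_nonneg (pw_pos hL _).le (ix_nn hL _)
    have := mul_le_mul_of_nonneg_left (pw_ge1 hL (c1F A c0)) h0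
    rw [hy]
    linarith
  have s1 : Real.sqrt (th2f Lam A kL k1 k2 c0) * V ≤ ix Lam ((s + 3) * (c1F A c0 + c0 + 1)) := by
    calc Real.sqrt (th2f Lam A kL k1 k2 c0) * V ≤ Real.exp (-(2 * y)) * Real.exp y :=
          mul_le_mul (sqrt_th2 hL A kL k1 k2 c0) hV V0 (Real.exp_pos _).le
      _ = Real.exp (-y) := by
          rw [← Real.exp_add]
          congr 1
          ring
      _ ≤ Real.exp (-(pw Lam c0 * ix Lam (kE kL k1 k2 + 9))) := Real.exp_le_exp.2 (by linarith)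
      _ ≤ _ := h
  calc 32 * Real.sqrt (th2f Lam A kL k1 k2 c0) * V = 32 * (Real.sqrt (th2f Lam A kL k1 k2 c0) * V) := by ring
    _ ≤ 32 * ix Lam ((s + 3) * (c1F A c0 + c0 + 1)) := mul_le_mul_of_nonneg_left s1 (by norm_num)
    _ ≤ ix Lam s := by
        refine fin hL (a := 3) (cst hL 3 (by norm_num)) ?_
        have e2 : (s + 3) * 1 ≤ (s + 3) * (c1F A c0 + c0 + 1) := Nat.mul_le_mul_left _ (by omega)
        omega

/-- the number of the public epochs -/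
theorem n0_exp (A kL k1 k2 : ℕ) (hA : 80 ≤ A) : Ev fun c0 Lam =>
    Real.exp (pw Lam (15 * c0)) ≤ Real.exp (pw Lam c0 * pw Lam (c1F A c0) * ix Lam (kE kL k1 k2 + 9)) := by
  refine ((N1_big hA (kE kL k1 k2 + 9) 15 (by norm_num)).and (Ev.ge 1)).mono fun c0 Lam hL h => ?_
  obtain ⟨h, hc⟩ := h
  refine Real.exp_le_exp.2 ?_
  have h0 := pw_pos hL (cXF A c0)
  have h1 : pw Lam (c1F A c0) * ix Lam (kE kL k1 k2 + 9) * 1 ≤ pw Lam (c1F A c0) * ix Lam (kE kL k1 k2 + 9) * pw Lam c0 :=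
    mul_le_mul_of_nonneg_left (pw_ge1 hL _) (mul_nonneg (pw_pos hL _).le (ix_nn hL _))
  linarith

/-- **ALL CONDITIONS OF THE PUBLIC PAYMENTS** -/
theorem payp_num (A kL k1 k2 s : ℕ) : Ev fun c0 Lam => ∀ L lM0 lM12 eps V : ℝ, L ≤ pw Lam kL →
    lM0 ≤ pw Lam c0 * pw Lam (c1F A c0) * ix Lam (kE kL k1 k2 + 8) →
    lM12 ≤ pw Lam c0 * ix Lam (kE kL k1 k2 + 8) → eps ≤ ix Lam (kE kL k1 k2 + 8) →
    0 ≤ V → V ≤ Real.exp (pw Lam c0 * pw Lam (c1F A c0) * ix Lam (kE kL k1 k2 + 9)) →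
    0 < Kf Lam k1 ∧ 1 < ix Lam k1 * (Kf Lam k1 : ℝ) ∧
    1 < ix Lam (kth kL k1 k2) * ix Lam k1 * ((Jf Lam kL k1 k2 : ℝ) + 1) ∧
    0 < ix Lam (kep kL k1 k2) ∧ 4 * L * ix Lam (kep kL k1 k2) ≤ ix Lam k2 * ix Lam k1 ∧
    4 * L * ix Lam (kth kL k1 k2) ≤ ix Lam k2 * ix Lam (kep kL k1 k2) ∧
    0 < th2f Lam A kL k1 k2 c0 ∧ th2f Lam A kL k1 k2 c0 ≤ 1 ∧
    8 * (4 * (Real.log (1 / th2f Lam A kL k1 k2 c0) + 1) + 2 * (lM0 + pw Lam (c1F A c0) * lM12) +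
      pw Lam c0 * pw Lam (c1F A c0) * eps) ≤
      ix Lam k2 * ix Lam (kth kL k1 k2) * ix Lam k1 * (pw Lam c0 * pw Lam (c1F A c0)) ∧
    32 * Real.sqrt (th2f Lam A kL k1 k2 c0) * V ≤ ix Lam s := by
  refine ((payp_err A kL k1 k2 s).and (Ev.ge (kE kL k1 k2 + 4))).mono fun c0 Lam hL h L lM0 lM12 eps V hLb h0 h1 he V0
    hV => ?_
  obtain ⟨h2, h3⟩ := h
  exact ⟨Kf_pos hL _, Kf_gt hL _, pay_J hL _ _ _, ix_pos hL _, pay_ep hL _ _ _ hLb, pay_th hL _ _ _ hLb, th2_pos hL _ _ _ _ _,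
    th2_le hL _ _ _ _ _, payp_A hL _ _ _ _ h3 h0 h1 he, h2 V V0 hV⟩

/-! ## in a round -/

section rr

variable (r : Rd) {Lam : ℝ} (hL : 2 ≤ Lam)

include hL

/-- exponent of `√q` against the lists -/
theorem kE_sq {k2 : ℕ} (h2 : k2 ≤ r.lm) : kE r.kL r.m1 k2 + 8 + (kth r.kL r.m1 k2 + r.m1 + 2) + 64 ≤
    8 * (r.mu + r.m1 + r.kL + 32) := by
  have := r.ord
  unfold kE kth
  omega

/-- **lists against the class mass** : `c (Nn + 1) √q ≤ x^(-(E + 8))`, `c ≤ 4^32` -/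
theorem eps_half {k2 : ℕ} {c : ℝ} (hc : c ≤ 4 ^ 32) (h2 : k2 ≤ r.lm) :
    c * ((Jf Lam r.kL r.m1 k2 : ℝ) + 1) * Real.sqrt (ix Lam r.q) ≤ ix Lam (kE r.kL r.m1 k2 + 8) := by
  have e : r.q = 2 * (8 * (r.mu + r.m1 + r.kL + 32)) := by unfold Rd.q; ring
  rw [e, sqrt_ix hL]
  have h3 := kE_sq r hL h2
  exact fin2 hL (by positivity) (cst hL 32 hc) (Jf_le hL _ _ _) (by omega)

/-- the same with `q` -/
theorem eps_q {k2 : ℕ} {c : ℝ} (hc0 : 0 ≤ c) (hc : c ≤ 4 ^ 32) (h2 : k2 ≤ r.lm) :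
    c * ((Jf Lam r.kL r.m1 k2 : ℝ) + 1) * ix Lam r.q ≤ ix Lam (kE r.kL r.m1 k2 + 8) := by
  refine le_trans (mul_le_mul_of_nonneg_left (q_le_sqrt r hL) (by positivity)) (eps_half r hL hc h2)

/-- the number of a life : `y ≤ C n x^(-ka)`, `ka ≥ m + 64` -/
theorem lv_num {ka k2 c0 : ℕ} (hka : r.q + 64 ≤ ka) (h2 : k2 ≤ r.lm) {c : ℝ} (hc : c ≤ 4 ^ 32) :
    c * (pw Lam c0 * ix Lam ka) ≤ pw Lam c0 * ix Lam (kE r.kL r.m1 k2 + 8 + (kth r.kL r.m1 k2 + r.m1 + 2)) := by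
  have h3 := kE_sq r hL h2
  have h4 : r.q = 16 * (r.mu + r.m1 + r.kL + 32) := rfl
  have h5 : c * ix Lam ka ≤ ix Lam (kE r.kL r.m1 k2 + 8 + (kth r.kL r.m1 k2 + r.m1 + 2)) :=
    fin hL (cst hL 32 hc) (by omega)
  calc c * (pw Lam c0 * ix Lam ka) = pw Lam c0 * (c * ix Lam ka) := by ring
    _ ≤ _ := mul_le_mul_of_nonneg_left h5 (pw_pos hL _).le

/-- constants and `Lam` against `n` -/
theorem lv_Lam {k2 c0 : ℕ} (h2 : k2 ≤ r.lm) {c : ℝ} (hc : c ≤ 4 ^ 32) (hc0 : r.q + 64 ≤ c0) :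
    c * Lam ≤ pw Lam c0 * ix Lam (kE r.kL r.m1 k2 + 8 + (kth r.kL r.m1 k2 + r.m1 + 2)) := by
  have h3 := kE_sq r hL h2
  have h4 : r.q = 16 * (r.mu + r.m1 + r.kL + 32) := rfl
  set z := kE r.kL r.m1 k2 + 8 + (kth r.kL r.m1 k2 + r.m1 + 2) with hz
  have h5 : pw Lam (33 + z) ≤ pw Lam c0 := pw_mono hL (by omega)
  have h6 := mul_le_mul_of_nonneg_right h5 (ix_nn hL z)
  rw [show 33 + z = z + 33 by ring, pw_add_ix hL] at h6
  exact (cLam hL 32 hc).trans h6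

end rr

end

end Pool.Agent.GMH.CT
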