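import Pool.Agent.GMH.ConT1

/-!
# GMH/RelN (helper28): THE NUMBERS OF THE RELEASED SUM OF ONE KIND (row A6)

One round `r : Rd`, `L` the cost of a measure.  `sq r Lam = x^(-8 (mu + m1 + kL + 32))` the class mass `√q`.
* `NT_cl`, `Nz_cl` : the number of decisions, of zones, from `GMH/UnmSt` (`NT_le`, `Nz_le`);
* `mass_cl`, `mass0_cl` : the mass of the tuples at the decisions, at the zones (`NB`, `NA`) is at most `16 x^km`;
* `lost_cl`, `lost0_cl` : the lost lives, the lost zones (`GMH/UnmP2`);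
* `rel_cl` : the released sum of one kind.
-/

set_option autoImplicit false

namespace Pool.Agent.GMH.CT

open Pool.Agent.GMH Pool.Agent.GMH.V3 Finset

noncomputable section

namespace Rd

variable (r : Rd)

/-- exponent of `√q` -/
def sq : ℕ := 8 * (r.mu + r.m1 + r.kL + 32)

end Rd

section nums

variable (r : Rd) {Lam : ℝ} (hL : 2 ≤ Lam)

include hL

theorem sqrt_q : Real.sqrt (ix Lam r.q) = ix Lam r.sq := by
  have e : r.q = 2 * r.sq := by unfold Rd.q Rd.sq; ring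
  rw [e, sqrt_ix hL]

/-- `c x^(-sq) ≤ u_B / 8` -/
theorem sq_uB {c : ℝ} (hc : c ≤ 4 ^ 10) : c * ix Lam r.sq ≤ ix Lam r.uB / 8 := by
  have h := fin hL (k := r.sq) (s := r.uB) (u := 8 * c) (a := 12) (by
    have := cst hL 12 (c := 8 * c) (by norm_num at hc ⊢; linarith)
    exact this) (by have := r.ord; unfold Rd.sq Rd.m1; omega)
  linarith

/-- `c x^(-sq) ≤ u_0 / 8` -/
theorem sq_u0 {c : ℝ} (hc : c ≤ 4 ^ 10) : c * ix Lam r.sq ≤ ix Lam r.u0 / 8 := by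
  have h := fin hL (k := r.sq) (s := r.u0) (u := 8 * c) (a := 12) (by
    have := cst hL 12 (c := 8 * c) (by norm_num at hc ⊢; linarith)
    exact this) (by have := r.ord; unfold Rd.sq Rd.m1; omega)
  linarith

/-- **THE NUMBER OF THE DECISIONS** -/
theorem NT_cl {NT X rr ng ra fi c e : ℝ} (hN0 : 0 ≤ NT) (hc : c ≤ 4 ^ 10) (he : e ≤ 1)
    (h : NT ≤ 2 / ix Lam r.uB * (X + rr + ng + ra + fi)) (hX : X ≤ pw Lam r.km) (hrr : rr ≤ e)
    (hng : ng ≤ c * ix Lam r.sq * NT + e) (hra : ra ≤ e) (hfi : fi ≤ 1 + e) : NT ≤ pw Lam r.T := by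
  have hu := ix_pos hL r.uB
  have h1 : ix Lam r.uB * NT ≤ 2 * (X + rr + ng + ra + fi) := by
    have := mul_le_mul_of_nonneg_left h hu.le
    refine this.trans (le_of_eq ?_)
    field_simp
  have h2 := mul_le_mul_of_nonneg_right (sq_uB r hL hc) hN0
  have p1 := pw_ge1 hL r.km
  have h3 : ix Lam r.uB * NT ≤ 4 * pw Lam r.km + 20 := by linarith
  have h5 : ix Lam r.uB * NT ≤ pw Lam (r.km + 3) := by
    have e3 : pw Lam (r.km + 3) = pw Lam r.km * pw Lam 3 := pw_add Lam r.km 3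
    have e4 : (4 : ℝ) ^ 3 ≤ pw Lam 3 := pw_ge hL 3
    have e5 := pw_ge1 hL r.km
    have e6 := mul_le_mul_of_nonneg_left e4 (pw_pos hL r.km).le
    rw [e3]
    norm_num at e6
    linarith
  have h6 : NT = pw Lam r.uB * (ix Lam r.uB * NT) := by
    rw [← mul_assoc, pw_ix hL, one_mul]
  rw [h6]
  refine (mul_le_mul_of_nonneg_left h5 (pw_pos hL _).le).trans ?_
  rw [← pw_add]
  exact pw_mono hL (by unfold Rd.T; omega)

/-- **THE NUMBER OF THE ZONES** -/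
theorem Nz_cl {ι : Type*} [Fintype ι] (hι : Fintype.card ι ≤ 4) {Nz X rr c e : ℝ} {ng ra fi : ι → ℝ} (hN0 : 0 ≤ Nz)
    (hc0 : 0 ≤ c) (hc : c ≤ 4 ^ 8) (he0 : 0 ≤ e) (he : e ≤ 1)
    (h : Nz ≤ 2 / ix Lam r.u0 * (4 * (X + rr) + ∑ o, (ng o + ra o + fi o))) (hX : X ≤ pw Lam r.kz) (hrr : rr ≤ e)
    (hng : ∀ o, ng o ≤ c * ix Lam r.sq * Nz + e) (hra : ∀ o, ra o ≤ e) (hfi : ∀ o, fi o ≤ 1 + e) :
    Nz ≤ pw Lam r.Z := by
  have hu := ix_pos hL r.u0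
  have h1 : ix Lam r.u0 * Nz ≤ 2 * (4 * (X + rr) + ∑ o, (ng o + ra o + fi o)) := by
    have := mul_le_mul_of_nonneg_left h hu.le
    refine this.trans (le_of_eq ?_)
    field_simp
  have h2 : ∑ o, (ng o + ra o + fi o) ≤ 4 * (c * ix Lam r.sq * Nz + 4) := by
    have g1 : ∀ o ∈ (univ : Finset ι), ng o + ra o + fi o ≤ c * ix Lam r.sq * Nz + 4 := fun o _ => by
      have := hng o
      have := hra o
      have := hfi o
      linarith
    refine (Finset.sum_le_card_nsmul _ _ _ g1).trans ?_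
    rw [nsmul_eq_mul, Finset.card_univ]
    have g2 : 0 ≤ c * ix Lam r.sq * Nz + 4 := by
      have := mul_nonneg (mul_nonneg hc0 (ix_nn hL r.sq)) hN0
      linarith
    exact mul_le_mul_of_nonneg_right (by exact_mod_cast hι) g2
  have h3 : 4 * (c * ix Lam r.sq * Nz) ≤ ix Lam r.u0 / 8 * Nz := by
    have g1 := mul_le_mul_of_nonneg_right (sq_u0 r hL (c := 4 * c) (by norm_num at hc ⊢; linarith)) hN0
    linarith
  have p1 := pw_ge1 hL r.kz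
  have h4 : ix Lam r.u0 * Nz ≤ 16 * pw Lam r.kz + 64 := by linarith
  have h5 : ix Lam r.u0 * Nz ≤ pw Lam (r.kz + 4) := by
    have e3 : pw Lam (r.kz + 4) = pw Lam r.kz * pw Lam 4 := pw_add Lam r.kz 4
    have e4 : (4 : ℝ) ^ 4 ≤ pw Lam 4 := pw_ge hL 4
    have e5 := pw_ge1 hL r.kz
    have e6 := mul_le_mul_of_nonneg_left e4 (pw_pos hL r.kz).le
    rw [e3]
    norm_num at e6
    linarith
  have h6 : Nz = pw Lam r.u0 * (ix Lam r.u0 * Nz) := by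
    rw [← mul_assoc, pw_ix hL, one_mul]
  rw [h6]
  refine (mul_le_mul_of_nonneg_left h5 (pw_pos hL _).le).trans ?_
  rw [← pw_add]
  exact pw_mono hL (by unfold Rd.Z; omega)

/-- `c L N x^(-sq)` -/
theorem t_sq {c L NT : ℝ} (hc : c ≤ 4 ^ 10) (hL0 : 0 ≤ L) (hLb : L ≤ pw Lam r.kL) (hN0 : 0 ≤ NT) (hN : NT ≤ pw Lam r.T) :
    c * L * NT * ix Lam r.sq ≤ ix Lam 44 := by
  rw [← sqrt_q r hL]
  exact t_q r hL hc hL0 hLb hN0 hN

theorem t_sqz {c L Nz : ℝ} (hc : c ≤ 4 ^ 10) (hL0 : 0 ≤ L) (hLb : L ≤ pw Lam r.kL) (hN0 : 0 ≤ Nz) (hN : Nz ≤ pw Lam r.Z) :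
    c * L * Nz * ix Lam r.sq ≤ ix Lam 44 := by
  rw [← sqrt_q r hL]
  exact t_qz r hL hc hL0 hLb hN0 hN

/-- **THE NUMBERS OF THE DECISIONS AND OF THE ZONES TOGETHER** : the tuples which are not good are bounded by all of them -/
theorem NN_cl {ι κ : Type*} [Fintype κ] (hκ : Fintype.card κ ≤ 4) {Vk : Finset ι} (hV : Vk.card ≤ 3) {NT : ι → ℝ}
    {Nz X0 rr0 c e : ℝ} {X rr ng ra fi : ι → ℝ} {ng0 ra0 fi0 : κ → ℝ} (hN0 : ∀ i, 0 ≤ NT i) (hz0 : 0 ≤ Nz)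
    (hc0 : 0 ≤ c) (hc : c ≤ 4 ^ 8) (he : e ≤ 1)
    (h : ∀ i ∈ Vk, NT i ≤ 2 / ix Lam r.uB * (X i + rr i + ng i + ra i + fi i))
    (h0 : Nz ≤ 2 / ix Lam r.u0 * (4 * (X0 + rr0) + ∑ o, (ng0 o + ra0 o + fi0 o)))
    (hX : ∀ i ∈ Vk, X i ≤ pw Lam r.km) (hrr : ∀ i ∈ Vk, rr i ≤ e)
    (hng : ∀ i ∈ Vk, ng i ≤ c * ix Lam r.sq * (∑ i ∈ Vk, NT i + Nz) + e) (hra : ∀ i ∈ Vk, ra i ≤ e)
    (hfi : ∀ i ∈ Vk, fi i ≤ 1 + e) (hX0 : X0 ≤ pw Lam r.kz) (hrr0 : rr0 ≤ e)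
    (hng0 : ∀ o, ng0 o ≤ c * ix Lam r.sq * (∑ i ∈ Vk, NT i + Nz) + e) (hra0 : ∀ o, ra0 o ≤ e) (hfi0 : ∀ o, fi0 o ≤ 1 + e) :
    (∀ i ∈ Vk, NT i ≤ pw Lam r.T) ∧ Nz ≤ pw Lam r.Z ∧ ∑ i ∈ Vk, NT i + Nz ≤ pw Lam r.Z := by
  set N := ∑ i ∈ Vk, NT i + Nz with hN
  have s0 : 0 ≤ ∑ i ∈ Vk, NT i := Finset.sum_nonneg fun i _ => hN0 i
  have hNn : 0 ≤ N := add_nonneg s0 hz0
  have hu := ix_pos hL r.u0
  have hB := ix_pos hL r.uB
  have huB : ix Lam r.u0 ≤ ix Lam r.uB := ix_anti hL (by have := r.ord; omega)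
  set a := c * ix Lam r.sq * N with ha
  have a0 : 0 ≤ a := mul_nonneg (mul_nonneg hc0 (ix_nn hL r.sq)) hNn
  have p1 := pw_ge1 hL r.km
  have p2 := pw_ge1 hL r.kz
  -- one vertex
  have v1 : ∀ i ∈ Vk, ix Lam r.uB * NT i ≤ 2 * (pw Lam r.km + a + 5) := fun i hi => by
    have g1 := mul_le_mul_of_nonneg_left (h i hi) hB.le
    have g2 : ix Lam r.uB * (2 / ix Lam r.uB * (X i + rr i + ng i + ra i + fi i)) = 2 * (X i + rr i + ng i + ra i + fi i) := by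
      field_simp
    have := hX i hi
    have := hrr i hi
    have := hng i hi
    have := hra i hi
    have := hfi i hi
    linarith
  have v2 : ∑ i ∈ Vk, ix Lam r.u0 * NT i ≤ 3 * (2 * (pw Lam r.km + a + 5)) := by
    refine (Finset.sum_le_card_nsmul Vk _ (2 * (pw Lam r.km + a + 5)) fun i hi =>
      (mul_le_mul_of_nonneg_right huB (hN0 i)).trans (v1 i hi)).trans ?_
    rw [nsmul_eq_mul]
    exact mul_le_mul_of_nonneg_right (by exact_mod_cast hV) (by linarith)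
  -- the zones
  have z1 : ix Lam r.u0 * Nz ≤ 8 * pw Lam r.kz + 8 + 8 * (a + 4) := by
    have g1 := mul_le_mul_of_nonneg_left h0 hu.le
    have g2 : ix Lam r.u0 * (2 / ix Lam r.u0 * (4 * (X0 + rr0) + ∑ o, (ng0 o + ra0 o + fi0 o))) =
        2 * (4 * (X0 + rr0) + ∑ o, (ng0 o + ra0 o + fi0 o)) := by
      field_simp
    have g3 : ∑ o, (ng0 o + ra0 o + fi0 o) ≤ 4 * (a + 4) := by
      have g4 : ∀ o ∈ (univ : Finset κ), ng0 o + ra0 o + fi0 o ≤ a + 4 := fun o _ => by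
        have := hng0 o
        have := hra0 o
        have := hfi0 o
        linarith
      refine (Finset.sum_le_card_nsmul _ _ _ g4).trans ?_
      rw [nsmul_eq_mul, Finset.card_univ]
      exact mul_le_mul_of_nonneg_right (by exact_mod_cast hκ) (by linarith)
    linarith
  have h3 : 14 * a ≤ ix Lam r.u0 / 8 * N := by
    have g1 := mul_le_mul_of_nonneg_right (sq_u0 r hL (c := 14 * c) (by norm_num at hc ⊢; linarith)) hNn
    refine le_trans (le_of_eq ?_) g1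
    rw [ha]
    ring
  have h4 : ix Lam r.u0 * N ≤ 7 * pw Lam r.km + 10 * pw Lam r.kz + 90 := by
    have e1 : ix Lam r.u0 * N = ∑ i ∈ Vk, ix Lam r.u0 * NT i + ix Lam r.u0 * Nz := by
      rw [hN, mul_add, Finset.mul_sum]
    have : ix Lam r.u0 / 8 * N = (ix Lam r.u0 * N) / 8 := by ring
    linarith
  have h5 : ix Lam r.u0 * N ≤ pw Lam (r.km + r.kz + 4) := by
    have e3 : pw Lam (r.km + r.kz + 4) = pw Lam (r.km + r.kz) * pw Lam 4 := pw_add Lam _ 4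
    have e4 : (4 : ℝ) ^ 4 ≤ pw Lam 4 := pw_ge hL 4
    have e5 : pw Lam (r.km + r.kz) = pw Lam r.km * pw Lam r.kz := pw_add Lam _ _
    have e6 := mul_le_mul_of_nonneg_left e4 (pw_pos hL (r.km + r.kz)).le
    have e7 : pw Lam r.km ≤ pw Lam (r.km + r.kz) := pw_mono hL (by omega)
    have e8 : pw Lam r.kz ≤ pw Lam (r.km + r.kz) := pw_mono hL (by omega)
    have e9 := pw_ge1 hL (r.km + r.kz)
    rw [e3]
    norm_num at e6
    linarith
  have h6 : N ≤ pw Lam r.Z := by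
    have e1 : N = pw Lam r.u0 * (ix Lam r.u0 * N) := by
      rw [← mul_assoc, pw_ix hL, one_mul]
    rw [e1]
    refine (mul_le_mul_of_nonneg_left h5 (pw_pos hL _).le).trans ?_
    rw [← pw_add]
    exact pw_mono hL (by unfold Rd.Z; omega)
  have h7 : a ≤ 1 := by
    have g1 := t_sqz r hL (c := c) (L := 1) (hc.trans (by norm_num)) zero_le_one (pw_ge1 hL _) hNn h6
    have g2 := ix_le_one hL 44
    have e1 : a = c * 1 * N * ix Lam r.sq := by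
      rw [ha]
      ring
    linarith
  refine ⟨fun i hi => ?_, le_trans (by linarith) h6, h6⟩
  have g1 := v1 i hi
  have g2 : ix Lam r.uB * NT i ≤ pw Lam (r.km + 4) := by
    have e3 : pw Lam (r.km + 4) = pw Lam r.km * pw Lam 4 := pw_add Lam _ 4
    have e4 : (4 : ℝ) ^ 4 ≤ pw Lam 4 := pw_ge hL 4
    have e6 := mul_le_mul_of_nonneg_left e4 (pw_pos hL r.km).le
    rw [e3]
    norm_num at e6
    linarith
  have e1 : NT i = pw Lam r.uB * (ix Lam r.uB * NT i) := by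
    rw [← mul_assoc, pw_ix hL, one_mul]
  rw [e1]
  refine (mul_le_mul_of_nonneg_left g2 (pw_pos hL _).le).trans ?_
  rw [← pw_add]
  exact pw_mono hL (by unfold Rd.T; omega)

/-- `x^(-2 uB) N_T ≤ 1` -/
theorem us_T {NT : ℝ} (hN : NT ≤ pw Lam r.T) : ix Lam r.uB ^ 2 * NT ≤ 1 := by
  have h1 := mul_le_mul_of_nonneg_left hN (sq_nonneg (ix Lam r.uB))
  refine h1.trans ?_
  rw [← ix_mul, mul_comm]
  have h2 : pw Lam r.T * ix Lam (r.uB * 2) ≤ ix Lam 0 := fin hL (u := pw Lam r.T) (a := r.T) le_rfl (by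
    have := r.ord
    unfold Rd.T
    omega)
  rwa [ix_zero] at h2

/-- `x^(-2 u0) N_0 ≤ 1` -/
theorem us_Z (hkz : r.kz ≤ r.km) {Nz : ℝ} (hN : Nz ≤ pw Lam r.Z) : ix Lam r.u0 ^ 2 * Nz ≤ 1 := by
  have h1 := mul_le_mul_of_nonneg_left hN (sq_nonneg (ix Lam r.u0))
  refine h1.trans ?_
  rw [← ix_mul, mul_comm]
  have h2 : pw Lam r.Z * ix Lam (r.u0 * 2) ≤ ix Lam 0 := fin hL (u := pw Lam r.Z) (a := r.Z) le_rfl (by
    have := r.ord
    unfold Rd.Z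
    omega)
  rwa [ix_zero] at h2

/-- **THE MASS OF THE DECIDED TUPLES** at the decisions -/
theorem mass_cl {ka : ℕ} (hka : r.m1 + 64 ≤ ka) {NT N x ng ra fi c e y m : ℝ} (hN0 : 0 ≤ NT) (hN : NT ≤ pw Lam r.T)
    (hn0 : 0 ≤ N) (hn : N ≤ pw Lam r.Z)
    (hc : c ≤ 4 ^ 10) (he : e ≤ 1) (hy : y ≤ c * ix Lam ka) (hx : x ≤ pw Lam r.km + e)
    (hng : ng ≤ c * ix Lam r.sq * N + e) (hra : ra ≤ e) (hfi : fi ≤ y + e)
    (hm : m ≤ x + ix Lam r.uB ^ 2 * NT + ng + (y * NT + ra) + fi) : m ≤ 16 * pw Lam r.km := by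
  have hu := us_T r hL hN
  have a1 := t_sqz r hL (L := 1) hc zero_le_one (pw_ge1 hL _) hn0 hn
  have a2 := t_y r hL (L := 1) hka hc zero_le_one (pw_ge1 hL _) hN0 hN
  have a3 := t_y r hL (L := 1) (NT := 1) hka hc zero_le_one (pw_ge1 hL _) zero_le_one (pw_ge1 hL _)
  have b1 := mul_le_mul_of_nonneg_right hy hN0
  have i44 := ix_le_one hL 44
  have p1 := pw_ge1 hL r.km
  linarith

/-- **THE MASS OF THE TUPLES OF THE ZONES** -/
theorem mass0_cl {ka : ℕ} (hkz : r.kz ≤ r.km) (hka : r.m1 + 64 ≤ ka) {Nz N x ng ra fi c e y m : ℝ} (hN0 : 0 ≤ Nz)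
    (hN : Nz ≤ pw Lam r.Z) (hn0 : 0 ≤ N) (hn : N ≤ pw Lam r.Z) (hc : c ≤ 4 ^ 10) (he : e ≤ 1) (hy : y ≤ c * ix Lam ka) (hx : x ≤ pw Lam r.kz + e)
    (hng : ng ≤ c * ix Lam r.sq * N + e) (hra : ra ≤ e) (hfi : fi ≤ y + e)
    (hm : m ≤ x + ix Lam r.u0 ^ 2 * Nz + ng + (y * Nz + ra) + fi) : m ≤ 16 * pw Lam r.km := by
  have hu := us_Z r hL hkz hN
  have a1 := t_sqz r hL (L := 1) hc zero_le_one (pw_ge1 hL _) hn0 hn
  have a2 := t_yz r hL (L := 1) hka hc zero_le_one (pw_ge1 hL _) hN0 hN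
  have a3 := t_y r hL (L := 1) (NT := 1) hka hc zero_le_one (pw_ge1 hL _) zero_le_one (pw_ge1 hL _)
  have b1 := mul_le_mul_of_nonneg_right hy hN0
  have i44 := ix_le_one hL 44
  have p1 := pw_ge1 hL r.km
  have p2 := pw_mono hL hkz
  linarith

variable {ka : ℕ} (hka : r.m1 + 64 ≤ ka) {c L e : ℝ} (hL0 : 0 ≤ L) (hLb : L ≤ pw Lam r.kL) (hc : c ≤ 4 ^ 10)
  (heL : L * e ≤ ix Lam 44)

include hL0 hLb hc heL hka

/-- **THE LOST LIVES OF ONE VERTEX** times the cost -/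
theorem lost_cl {ι : Type*} {E : Finset ι} (hE : E.card ≤ 2) {NT : ℝ} {NT' : ι → ℝ} (hN0 : 0 ≤ NT) (hN : NT ≤ pw Lam r.T)
    (hN0' : ∀ i ∈ E, 0 ≤ NT' i) (hN' : ∀ i ∈ E, NT' i ≤ pw Lam r.T) {N lo ng ra y y0 fi : ℝ} {rs : ι → ℝ} (hn0 : 0 ≤ N)
    (hn : N ≤ pw Lam r.Z) (hy : y ≤ c * ix Lam ka)
    (hy0 : y0 ≤ c * ix Lam ka) (hng : ng ≤ c * ix Lam r.sq * N + e) (hra : ra ≤ e) (hrs : ∀ i ∈ E, rs i ≤ e)
    (hlo : lo ≤ ng + (y * NT + ra) + ∑ i ∈ E, (ix Lam r.g0 * NT' i + ix Lam r.u0 / ix Lam r.g0 * NT +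
      (y0 / ix Lam r.g0 * NT + rs i))) (hfi : fi ≤ y + e) : L * (lo + fi) ≤ 16 * ix Lam 44 := by
  have a1 := t_sqz r hL hc hL0 hLb hn0 hn
  have a2 := t_y r hL hka hc hL0 hLb hN0 hN
  have a4 := t_ex r hL (c := 1) (by norm_num) hL0 hLb hN0 hN
  have a5 := t_yex r hL hka hc hL0 hLb hN0 hN
  have a6 := t_y r hL (NT := 1) hka hc hL0 hLb zero_le_one (pw_ge1 hL _)
  have a7 := mul_le_mul_of_nonneg_left hy hL0
  have hg := ix_pos hL r.g0
  have i44 := ix_pos hL 44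
  have b1 : L * ng ≤ 2 * ix Lam 44 := by
    have := mul_le_mul_of_nonneg_left hng hL0
    linarith
  have b2 : L * (y * NT) ≤ ix Lam 44 := by
    have := mul_le_mul_of_nonneg_left (mul_le_mul_of_nonneg_right hy hN0) hL0
    linarith
  have b3 : L * ra ≤ ix Lam 44 := (mul_le_mul_of_nonneg_left hra hL0).trans heL
  have b4 : ∀ i ∈ E, L * (ix Lam r.g0 * NT' i + ix Lam r.u0 / ix Lam r.g0 * NT + (y0 / ix Lam r.g0 * NT + rs i)) ≤
      4 * ix Lam 44 := by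
    intro i hi
    have a3 := t_g0 r hL (c := 1) (by norm_num) hL0 hLb (hN0' i hi) (hN' i hi)
    have g1 : y0 / ix Lam r.g0 ≤ c * (ix Lam ka / ix Lam r.g0) := by
      rw [← mul_div_assoc]
      exact div_le_div_of_nonneg_right hy0 hg.le
    have g2 := mul_le_mul_of_nonneg_left (mul_le_mul_of_nonneg_right g1 hN0) hL0
    have g3 := mul_le_mul_of_nonneg_left (hrs i hi) hL0
    linarith
  have b5 : L * ∑ i ∈ E, (ix Lam r.g0 * NT' i + ix Lam r.u0 / ix Lam r.g0 * NT + (y0 / ix Lam r.g0 * NT + rs i)) ≤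
      8 * ix Lam 44 := by
    rw [Finset.mul_sum]
    refine (Finset.sum_le_card_nsmul _ _ _ b4).trans ?_
    rw [nsmul_eq_mul]
    have g1 : (E.card : ℝ) ≤ 2 := by exact_mod_cast hE
    nlinarith
  have b6 : L * fi ≤ 2 * ix Lam 44 := by
    have := mul_le_mul_of_nonneg_left hfi hL0
    linarith
  have b7 := mul_le_mul_of_nonneg_left hlo hL0
  linarith

/-- **THE LOST ZONES** times the cost -/
theorem lost0_cl {Nz N : ℝ} (hN0 : 0 ≤ Nz) (hN : Nz ≤ pw Lam r.Z) (hn0 : 0 ≤ N) (hn : N ≤ pw Lam r.Z) {lo ng ra y fi : ℝ}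
    (hy : y ≤ c * ix Lam ka) (hng : ng ≤ c * ix Lam r.sq * N + e) (hra : ra ≤ e) (hlo : lo ≤ ng + (y * Nz + ra)) (hfi : fi ≤ y + e) :
    L * (lo + fi) ≤ 8 * ix Lam 44 := by
  have a1 := t_sqz r hL hc hL0 hLb hn0 hn
  have a2 := t_yz r hL hka hc hL0 hLb hN0 hN
  have a6 := t_y r hL (NT := 1) hka hc hL0 hLb zero_le_one (pw_ge1 hL _)
  have a7 := mul_le_mul_of_nonneg_left hy hL0
  have i44 := ix_pos hL 44
  have b1 : L * ng ≤ 2 * ix Lam 44 := by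
    have := mul_le_mul_of_nonneg_left hng hL0
    linarith
  have b2 : L * (y * Nz) ≤ ix Lam 44 := by
    have := mul_le_mul_of_nonneg_left (mul_le_mul_of_nonneg_right hy hN0) hL0
    linarith
  have b3 : L * ra ≤ ix Lam 44 := (mul_le_mul_of_nonneg_left hra hL0).trans heL
  have b6 : L * fi ≤ 2 * ix Lam 44 := by
    have := mul_le_mul_of_nonneg_left hfi hL0
    linarith
  have b7 := mul_le_mul_of_nonneg_left hlo hL0
  linarith

end nums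

/-- **THE RELEASED SUM OF ONE KIND** : all vertices and the zones -/
theorem rel_cl {Lam : ℝ} (hL : 2 ≤ Lam) {ι : Type*} {Vk : Finset ι} (hV : Vk.card ≤ 3) {I1 lo R : ι → ℝ} {I2 lo0 R0 L del S c1 : ℝ}
    (hS : S ≤ ∑ v ∈ Vk, (I1 v + L * lo v + del * R v) + (I2 + L * lo0 + del * R0)) (hI1 : ∀ v ∈ Vk, I1 v ≤ c1 * ix Lam 44)
    (hlo : ∀ v ∈ Vk, L * lo v ≤ 16 * ix Lam 44) (hR : ∀ v ∈ Vk, del * R v ≤ ix Lam 44) (hI2 : I2 ≤ c1 * ix Lam 44)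
    (hlo0 : L * lo0 ≤ 8 * ix Lam 44) (hR0 : del * R0 ≤ ix Lam 44) (hc1 : 0 ≤ c1) (hc : c1 ≤ 4 ^ 18) : S ≤ ix Lam 24 := by
  have i44 := ix_pos hL 44
  have b1 : ∑ v ∈ Vk, (I1 v + L * lo v + del * R v) ≤ 3 * ((c1 + 17) * ix Lam 44) := by
    have g1 : ∀ v ∈ Vk, I1 v + L * lo v + del * R v ≤ (c1 + 17) * ix Lam 44 := fun v hv => by
      have := hI1 v hv
      have := hlo v hv
      have := hR v hv
      linarith
    refine (Finset.sum_le_card_nsmul _ _ _ g1).trans ?_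
    rw [nsmul_eq_mul]
    refine mul_le_mul_of_nonneg_right (by exact_mod_cast hV) (mul_nonneg (by linarith) i44.le)
  have b2 : S ≤ (4 * c1 + 60) * ix Lam 44 := by linarith
  exact b2.trans (tot hL (by norm_num at hc ⊢; linarith))

end

end Pool.Agent.GMH.CT
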