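import Pool.Agent.GMH.ConT3
import Pool.Agent.GMH.ConT7
import Pool.Agent.GMH.RelN

/-!
# GMH/ConT8 (helper42): SMALL LEMMAS ON REQUEST (row A5)

* `pw_sq` : `c x^j y ≤ √q` for `y ≤ 4^4 q`, `j ≤ 200`; `KcB.e12`, `KcB.inert` : own mass of a visible bad top, `B (2 e1/e2 + 4 eF)`
  against `√q_G` (helper58, Inert).
-/

set_option autoImplicit false
set_option linter.unusedSectionVars false

namespace Pool.Agent.GMH.CT

open Pool.Agent.GMH Pool.Agent.GMH.V3 Finset Pool.Agent.GMH.KF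

noncomputable section

section one

variable (r : Rd) {Lam : ℝ} (hL : 2 ≤ Lam)

include hL

/-- strong letters against the class mass -/
theorem pw_sq {c y : ℝ} {j : ℕ} (c0 : 0 ≤ c) (hc : c ≤ 4 ^ 10) (hj : j ≤ 200) (hy : y ≤ 4 ^ 4 * ix Lam r.q) :
    c * pw Lam j * y ≤ ix Lam r.sq := by
  have h1 : c * pw Lam j * y ≤ c * pw Lam j * (4 ^ 4 * ix Lam r.q) :=
    mul_le_mul_of_nonneg_left hy (mul_nonneg c0 (pw_pos hL _).le)
  refine h1.trans ?_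
  have h2 := fin2 hL (u := c * 4 ^ 4) (v := pw Lam j) (a := 14) (b := j) (k := r.q) (s := r.sq) (pw_pos hL _).le
    (cst hL 14 (by norm_num at hc ⊢; linarith)) le_rfl (by unfold Rd.q Rd.sq; omega)
  refine le_trans (le_of_eq ?_) h2
  ring

end one

namespace KcB

variable {R : Rounds} {Lam : ℝ} {c : KC} (h : KcB R Lam c) (hL : 2 ≤ Lam)

include h hL

theorem e12 : c.e1 / c.e2 ≤ ix Lam R.G.q := by
  have i2 : 1 / c.e2 ≤ pw Lam R.eta2 := by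
    rw [one_div, ← inv_ix hL]
    exact inv_anti₀ (ix_pos hL _) h.l2
  have e7 : R.eta1 = R.eta2 + (R.G.q + 1) := by unfold Rounds.eta1; omega
  have e1 : ix Lam R.eta1 * pw Lam R.eta2 = ix Lam (R.G.q + 1) := by
    rw [e7, mul_comm, pw_ix_add hL]
  have e2 : 4 * ix Lam (R.G.q + 1) ≤ ix Lam R.G.q := by
    have := cst_ix hL (c := 4) (j := 1) (s := R.G.q) (by norm_num)
    rwa [add_comm 1 R.G.q] at this
  have h0 := (h.p1 hL).le
  calc c.e1 / c.e2 = c.e1 * (1 / c.e2) := by ring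
    _ ≤ c.e1 * pw Lam R.eta2 := mul_le_mul_of_nonneg_left i2 h0
    _ ≤ 2 * ix Lam R.eta1 * pw Lam R.eta2 := mul_le_mul_of_nonneg_right h.u1 (pw_pos hL _).le
    _ = 2 * ix Lam (R.G.q + 1) := by rw [← e1]; ring
    _ ≤ ix Lam R.G.q := by
        have := ix_nn hL (R.G.q + 1)
        linarith

/-- `e2 / e3 ≤ q_H` -/
theorem e23 : c.e2 / c.e3 ≤ ix Lam R.H.q := by
  have i3 : 1 / c.e3 ≤ pw Lam R.eta3 := by
    rw [one_div, ← inv_ix hL]
    exact inv_anti₀ (ix_pos hL _) h.l3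
  have e7 : R.eta2 = R.eta3 + (R.H.q + (R.kd + 2)) := by unfold Rounds.eta2; omega
  have e1 : ix Lam R.eta2 * pw Lam R.eta3 = ix Lam (R.H.q + (R.kd + 2)) := by
    rw [e7, mul_comm, pw_ix_add hL]
  have e2 : 2 * ix Lam (R.H.q + (R.kd + 2)) ≤ ix Lam R.H.q := fin hL (cst hL 1 (by norm_num)) (by omega)
  have h0 := (h.p2 hL).le
  calc c.e2 / c.e3 = c.e2 * (1 / c.e3) := by ring
    _ ≤ c.e2 * pw Lam R.eta3 := mul_le_mul_of_nonneg_left i3 h0
    _ ≤ 2 * ix Lam R.eta2 * pw Lam R.eta3 := mul_le_mul_of_nonneg_right h.u2 (pw_pos hL _).le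
    _ = 2 * ix Lam (R.H.q + (R.kd + 2)) := by rw [← e1]; ring
    _ ≤ ix Lam R.H.q := e2

/-- `e3 / dH ≤ 2 q_HT` -/
theorem e3d : c.e3 / c.dH ≤ 2 * ix Lam R.HT.q := by
  have id : 1 / c.dH ≤ pw Lam R.kd := by
    rw [one_div, ← inv_ix hL]
    exact inv_anti₀ (ix_pos hL _) h.ld
  have e7 : R.eta3 = R.kd + R.HT.q := rfl
  have e1 : ix Lam R.eta3 * pw Lam R.kd = ix Lam R.HT.q := by
    rw [e7, mul_comm, pw_ix_add hL]
  have h0 := (h.p3 hL).le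
  calc c.e3 / c.dH = c.e3 * (1 / c.dH) := by ring
    _ ≤ c.e3 * pw Lam R.kd := mul_le_mul_of_nonneg_left id h0
    _ ≤ 2 * ix Lam R.eta3 * pw Lam R.kd := mul_le_mul_of_nonneg_right h.u3 (pw_pos hL _).le
    _ = 2 * ix Lam R.HT.q := by rw [← e1]; ring

/-- **a visible bad top is inert** : kinds 2 - 5 (round G) -/
theorem inert {j : ℕ} (hj : j ≤ 200) {c' : ℝ} (c0 : 0 ≤ c') (hc : c' ≤ 4 ^ 10) (hF : c.eF ≤ ix Lam R.G.q) :
    c' * pw Lam j * (2 * (c.e1 / c.e2) + 4 * c.eF) ≤ ix Lam R.G.sq := by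
  refine pw_sq R.G hL c0 hc hj ?_
  have h1 := h.e12 hL
  have h2 := ix_nn hL R.G.q
  norm_num
  linarith

end KcB

end

end Pool.Agent.GMH.CT
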