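import Pool.Agent.GMH.TopStep

/-!
# GMH/TopPsi: the log density of the tops is at most `3 Lam` (helper11)

* `spF_le` : the surprisal of a top given what it sees is at most `Lam` (every state, every point of the support);
* `psi_le` : `psC ≤ 3 Lam` at the true tuple, for the six steps.
-/

set_option autoImplicit false
set_option linter.unusedSectionVars false

namespace Pool.Agent.GMH.TP

open Finset Pool.Agent.PWZ Pool.Agent.M3 Pool.Agent.GM Pool.Agent.GM.Harm Pool.Agent.GMH Pool.Agent.GMH.NZ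
open Pool.Agent.GMH.V3

noncomputable section

variable {X β γ φ : Type} [Fintype X] [Fintype β] [Fintype φ] [Nonempty X] [Nonempty β]
variable {D : HD (Fin 3) X β γ φ} {al : ℝ} {h : D.Thick al} {v : ℕ → Finset (Fin 3) → X → (Fin 3 → β) → Pt (Fin 3) X β φ}
variable {dg : ℕ → X → ℝ} {prr : ℕ → Fin 3 → φ → φ} {T : ℕ} {Lam : ℝ}

theorem nc_ge {t q : ℕ} (hq : 5 * t ≤ q) {J : Finset (Fin 3)} (hJ : pth J) : t + 1 ≤ nc q J := by
  have h1 := nc_mono hq hJ
  have h2 := nc_add t 0 hJ (by omega)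
  rw [add_zero] at h2
  rw [h2] at h1
  unfold ncj at h1
  rw [if_neg (Nat.not_lt_zero _)] at h1
  exact h1

/-- the surprisal of a top given what it sees -/
theorem spF_le (H : D.Hyp dg prr al T Lam) {N : Finset (Fin 3) → ℝ} (R : Run h N (SS1 (Fin 3)) (AdmDep D) v)
    (hN : ∀ l : Fin 3, 0 < N (univ.erase l)) {t q : ℕ} (ht : t ≤ T) (hq : 5 * t ≤ q) (i : Fin 3)
    {w : Pt (Fin 3) X β φ} (hw : (D.P h t).p w ≠ 0) : sp (D.P h t) (FQ v t i) (ZbQ D v q i) w ≤ Lam := by
  have hv := R.codes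
  have hts : t ≤ nn q := by
    have h2 := nn_mono hq
    rw [nn_0] at h2
    exact h2
  have e1 : sp (D.P h t) (FQ v t i) (ZbQ D v q i) w =
      sp (D.P h t) (FQ v t i) (fun u => (lo (SL v q) (univ.erase i) u, WW D (nn q) u)) w :=
    (sp_base h hts (J := univ.erase i) (X' := FQ (φ := φ) v t i) (R := lo (SL (φ := φ) v q) (univ.erase i))
      (LL_AA hv (by omega) (Finset.Subset.refl _))
      (fun a b hab => lo_eq.2 fun I hI => LL_AA hv (nc_le q I) hI.subset a b hab) hw).symm
  rw [e1]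
  have hSl : univ.erase i ∈ SS1 (Fin 3) := mem_SS1.2 (Finset.erase_ne_self.2 (mem_univ i))
  have hSu : (univ : Finset (Fin 3)) ∉ SS1 (Fin 3) := fun hh => mem_SS1.1 hh rfl
  have hl := top_sp_le (h := h) H R hSl hSu (hN i) ht hts
    (Z := fun u : Pt (Fin 3) X β φ => (lo (SL v q) (univ.erase i) u, WW D (nn q) u)) (w := w) ?_ (Fac.snd _ _) ?_ hw
  · refine hl.trans ?_
    exact TT.log_al H h.pos
  · intro a b h1 h2
    have g1 : WW D (nn q) a = WW D (nn q) b := by
      unfold WW nd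
      rw [h1, h2]
    have g2 : lo (SL (φ := φ) v q) (univ.erase i) a = lo (SL v q) (univ.erase i) b := by
      refine lo_eq.2 fun I hI => ?_
      unfold SL
      rw [LL_eq]
      refine ⟨by rw [h1, h2], fun l hl => ?_⟩
      exfalso
      have hI' : I.card ≤ 1 := lt_pth card3 (ne_univ i) hI
      have h3 : (univ.erase l : Finset (Fin 3)).card = 2 := by
        rw [Finset.card_erase_of_mem (mem_univ l)]
        rfl
      rw [hl] at h3
      omega
    show (_, _) = (_, _)
    rw [g1, g2]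
  · intro a b hab
    simp only [Prod.mk.injEq] at hab
    refine lo_eq.2 fun I hI => ?_
    have hI' : pth I := lt_pth card3 (ne_univ i) hI
    exact LL_mono (nc_ge hq hI') (lo_eq.1 hab.1 I hI)

/-- **the log density of the tops** -/
theorem psi_le (H : D.Hyp dg prr al T Lam) {N : Finset (Fin 3) → ℝ} (R : Run h N (SS1 (Fin 3)) (AdmDep D) v)
    (hN : ∀ l : Fin 3, 0 < N (univ.erase l)) {t q : ℕ} (ht : t ≤ T) (hq : 5 * t ≤ q)
    {w : Pt (Fin 3) X β φ} (hw : (D.P h t).p w ≠ 0) :
    psC (D.P h t) (ZQ D v q) (ZbQ D v q) (FQ v t) w (tup (FQ v t) w) ≤ 3 * Lam := by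
  rw [psC_true (D.P h t) (FQ v t) hw]
  have h1 := sp_nonneg (D.P h t) (tup (FQ v t)) (ZQ D v q) hw
  have h3 := Finset.sum_le_sum fun i (_ : i ∈ (univ : Finset (Fin 3))) => spF_le H R hN ht hq i hw
  rw [Finset.sum_const, Finset.card_univ, Fintype.card_fin, nsmul_eq_mul] at h3
  push_cast at h3
  linarith

end

end Pool.Agent.GMH.TP
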