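import Pool.Agent.GMH.Ctx
import Pool.Agent.GMH.TopPsi
import Pool.Agent.GMH.TopAl
import Pool.Agent.GMH.ConT0

/-!
# GMH/CtxL: lower bounds of the log densities, the cut of the run (helper12)

* `Ctx.q3_low`, `Ctx.q2_low` : the log density of the three tops (of the two tops which see `i`) is at least `-3 Lam` on the
  support; `q3_le`, `q2_le` : at most `3 Lam`;
* `Ctx.Kc` : the cut of the rounds (`2 Rc.K`), `Ctx.Kf = min Kc (3 Lam)` : the cut of `FullOK`; `cut3`, `cut2` : both cuts give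
  the same test on the support.
-/

set_option autoImplicit false
set_option linter.unusedSectionVars false

namespace Pool.Agent.GMH.CX

open Finset Pool.Agent.PWZ Pool.Agent.M3 Pool.Agent.GM Pool.Agent.GM.Harm Pool.Agent.GMH Pool.Agent.GMH.NZ
open Pool.Agent.GMH.V3 Pool.Agent.GMH.TP Pool.Agent.GMH.TD Pool.Agent.GMH.Dy

noncomputable section

namespace Ctx

variable (C : Ctx)

theorem hNe (l : Fin 3) : 0 < pr3 (Fin 3) C.n C.N1 (univ.erase l) := zero_lt_one.trans_le (pr3_one C.n1 C.N11 _)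

theorem hSe (l : Fin 3) : univ.erase l ∈ SS1 (Fin 3) := mem_SS1.2 (by revert l; decide)

theorem hSu : (univ : Finset (Fin 3)) ∉ SS1 (Fin 3) := fun hh => absurd (mem_SS1.1 hh) (by decide)

theorem log_al : Real.log (1 / C.al) ≤ C.Lam := TT.log_al C.H C.h.pos

theorem pt_ne {t : ℕ} (ht : t ≤ C.T) {w : C.O} (hw : C.tb.Ps.p w ≠ 0) : (C.D.P C.h t).p (C.tb.pt t w) ≠ 0 :=
  (pul_pt C.h C.tb ht).ne hw

theorem q3_le {q : ℕ} (hq : q / 5 ≤ C.T) {w : C.O} (hw : C.tb.Ps.p w ≠ 0) : pq3 C.h C.v C.tb q w ≤ 3 * C.Lam :=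
  psi_le C.H C.R C.hNe hq (by omega) (C.pt_ne hq hw)

theorem q3_low {q : ℕ} (hq : q / 5 ≤ C.T) {w : C.O} (hw : C.tb.Ps.p w ≠ 0) : -(3 * C.Lam) ≤ pq3 C.h C.v C.tb q w := by
  have hp := C.pt_ne hq hw
  unfold pq3
  rw [psC_true (C.D.P C.h (q / 5)) (FQ C.v (q / 5)) hp]
  have h1 := sp_Z_le C.H C.R hSe hSu C.hNe hq (show 5 * (q / 5) ≤ q by omega) hp
  have h2 := Finset.sum_nonneg fun i (_ : i ∈ (univ : Finset (Fin 3))) =>
    sp_nonneg (C.D.P C.h (q / 5)) (FQ C.v (q / 5) i) (ZbQ C.D C.v q i) hp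
  have h3 := C.log_al
  linarith

theorem q2_le (i : Fin 3) {q : ℕ} (hq : q / 5 ≤ C.T) {w : C.O} (hw : C.tb.Ps.p w ≠ 0) :
    pq2 C.h C.v C.tb i q w ≤ 3 * C.Lam := by
  have hp := C.pt_ne hq hw
  have hL := C.H.Lam1
  refine (psC_le_sum (P := C.D.P C.h (q / 5)) (Z := ZQ C.D C.v q) (Zb := ZbQ C.D C.v q) (F := Fo (FQ C.v (q / 5)) i)
    (L := C.Lam) hp (univ.erase i) (fun j hj => ?_) (fun j hj => ?_)).trans ?_
  · obtain rfl : j = i := by
      by_contra hne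
      exact hj (Finset.mem_erase.2 ⟨hne, mem_univ j⟩)
    exact Fo_self (C.D.P C.h (q / 5)) (FQ C.v (q / 5)) _ _
  · rw [Fo_ne (C.D.P C.h (q / 5)) (FQ C.v (q / 5)) (Finset.ne_of_mem_erase hj)]
    exact spF_le C.H C.R C.hNe hq (by omega) j hp
  · rw [Finset.card_erase_of_mem (mem_univ i), Finset.card_univ, Fintype.card_fin]
    push_cast
    linarith

theorem q2_low (i : Fin 3) {q : ℕ} (hq : q / 5 ≤ C.T) {w : C.O} (hw : C.tb.Ps.p w ≠ 0) :
    -(3 * C.Lam) ≤ pq2 C.h C.v C.tb i q w := by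
  have hp := C.pt_ne hq hw
  unfold pq2
  rw [psC_true (C.D.P C.h (q / 5)) (Fo (FQ C.v (q / 5)) i) hp]
  have h1 := sp_Z_le C.H C.R hSe hSu C.hNe hq (show 5 * (q / 5) ≤ q by omega) hp
  have h2 := Finset.sum_nonneg fun j (_ : j ∈ (univ : Finset (Fin 3))) =>
    sp_nonneg (C.D.P C.h (q / 5)) (Fo (FQ C.v (q / 5)) i j) (ZbQ C.D C.v q j) hp
  have h3 := C.log_al
  have h5 := Fo_chain (C.D.P C.h (q / 5)) (FQ C.v (q / 5)) i (ZQ C.D C.v q) (C.tb.pt (q / 5) w)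
  have h6 := sp_nonneg (C.D.P C.h (q / 5)) (tup fun _ : Unit => FQ C.v (q / 5) i)
    (fun u => (tup (Fo (FQ C.v (q / 5)) i) u, ZQ C.D C.v q u)) hp
  linarith

/-- the cut of the rounds -/
def Kc : ℝ := 2 * CT.Rounds.K CT.Rc C.Lam

/-- the cut of `FullOK` -/
def Kf : ℝ := min C.Kc (3 * C.Lam)

theorem Kc_nn : 0 ≤ C.Kc := mul_nonneg (by norm_num) (CT.Rounds.K_nn _ C.hL)

theorem Kf_nn : 0 ≤ C.Kf := le_min C.Kc_nn (by linarith [C.hL])

theorem Kf_le : C.Kf ≤ 3 * C.Lam := min_le_right _ _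

theorem cut_eq {x : ℝ} (hx : -(3 * C.Lam) ≤ x) : max x (-C.Kf) = max x (-C.Kc) := by
  unfold Kf
  rcases le_total C.Kc (3 * C.Lam) with h | h
  · rw [min_eq_left h]
  · rw [min_eq_right h, max_eq_left hx, max_eq_left (by linarith)]

/-- both cuts give the same test -/
theorem cut3 {q : ℕ} (hq : q / 5 ≤ C.T) {w : C.O} (hw : C.tb.Ps.p w ≠ 0) :
    max (pq3 C.h C.v C.tb q w) (-C.Kf) = max (pq3 C.h C.v C.tb q w) (-C.Kc) := C.cut_eq (C.q3_low hq hw)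

theorem cut2 (i : Fin 3) {q : ℕ} (hq : q / 5 ≤ C.T) {w : C.O} (hw : C.tb.Ps.p w ≠ 0) :
    max (pq2 C.h C.v C.tb i q w) (-C.Kf) = max (pq2 C.h C.v C.tb i q w) (-C.Kc) := C.cut_eq (C.q2_low i hq hw)

end Ctx

end

end Pool.Agent.GMH.CX
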