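import Pool.Agent.GMH.PayI
import Pool.Agent.GMH.CtxL
import Pool.Agent.GMH.ConT8

/-!
# GMH/ConPn (helper42): NUMBERS OVER `Ctx` OF THE PAYMENTS AT THE EXACT VERTEX (row A5)

* `of_Ev` : numbers of `GMH/ConT*` (`CT.Ev`) hold for all runs;
* `rd_q` : the rounds of `Rc`; `eps_le`, `L_le` : the error and the size of the tests; `num_G`, `num_GU` : all conditions of
  `PayG.pay_foreign`, `pay_foreign_u` in a round.
-/

set_option autoImplicit false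
set_option linter.unusedSectionVars false

namespace Pool.Agent.GMH.CX

open Pool.Agent.GMH Pool.Agent.GMH.CT

noncomputable section

/-- numbers hold for all runs -/
theorem of_Ev {A : ℕ} {P : ℕ → ℝ → Prop} (h : CT.Ev P) : AllC A (fun C => P C.c0 C.Lam) := by
  obtain ⟨a, ha⟩ := CT.Ev.ex h
  exact ⟨a, fun C _ hc => ha C.c0 hc C.Lam C.hL⟩

/-- the rounds of `Rc` -/
theorem rd_q (k : ℕ) : (CT.rd Rc k).q ≤ Rc.m ∧ (CT.rd Rc k).m1 ≤ Rc.m ∧ (CT.rd Rc k).T ≤ Rc.m ∧ (CT.rd Rc k).Z ≤ Rc.m :=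
  Rc.all_le.1 _ (CT.rd_mem Rc k)

theorem q_ka {r : Rd} (hr : r.q ≤ Rc.m) : r.mu + r.lm + 400 ≤ Rc.ka ∧ r.kf + 400 ≤ Rc.ka ∧ r.mu + r.lm + 4 + 14 ≤ r.q ∧
    r.mu + r.lm + 4 ≤ Rc.m + 64 := by
  have h1 := r.ord
  have h2 : r.q = 16 * (r.mu + r.m1 + r.kL + 32) := rfl
  have h3 : Rc.ka = Rc.m + 64 := rfl
  omega

/-- the error of the tests -/
theorem eps_le {r : Rd} (hr : r.q ≤ Rc.m) {Lam : ℝ} (hL : 2 ≤ Lam) {r1 : ℝ} (h1 : r1 ≤ 4 ^ 10 * ix Lam r.q) :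
    r1 + Real.exp (-(2 * Rounds.K Rc Lam)) ≤ ix Lam (r.mu + r.lm + 0 + 3) := by
  have h2 := q_ka hr
  have h3 : Real.exp (-(2 * Rounds.K Rc Lam)) ≤ ix Lam (r.mu + r.lm + 4) := by
    have h4 := Rounds.K_nn Rc hL
    exact (Real.exp_le_exp.2 (by linarith)).trans (Rounds.exp_K_le Rc hL h2.2.2.2)
  have h5 : 4 ^ 10 * ix Lam r.q ≤ ix Lam (r.mu + r.lm + 4) := fin hL (CT.cst hL 10 le_rfl) (by omega)
  exact add_ix hL (h1.trans h5) h3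

/-- the size of the tests -/
theorem L_le {Lam : ℝ} (hL : 2 ≤ Lam) : max Lam (2 * Rounds.K Rc Lam) ≤ pw Lam Rc.kL := by
  have h1 := Rc_L4 hL
  have h2 := Rounds.K_nn Rc hL
  exact max_le (by linarith) (by linarith)

/-- the covered mass, `c0` of PayI `= 1` -/
theorem cov1 {Lam : ℝ} (hL : 2 ≤ Lam) {k2 : ℕ} {S e : ℝ} (he : e ≤ Lam) (h : ix Lam k2 * S ≤ 8 * (5 * Lam) + e) :
    S ≤ pw Lam (k2 + 4) := by
  have h2 : 41 * Lam ≤ pw Lam 4 := cLam hL (c := 41) 3 (by norm_num)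
  have h4 : S = pw Lam k2 * (ix Lam k2 * S) := by
    rw [← mul_assoc, pw_ix hL, one_mul]
  rw [h4, pw_add Lam k2 4]
  exact mul_le_mul_of_nonneg_left (by linarith) (pw_pos hL _).le

/-- all numbers of the signed payments in a round, lives `≤ exp (6 pe)` -/
theorem num_G (A : ℕ) {r : Rd} (hr : r.q ≤ Rc.m) : AllC A (fun C => ∀ r1 V : ℝ, r1 ≤ 4 ^ 10 * ix C.Lam r.q → 0 ≤ V →
    V ≤ Real.exp (6 * MVN.pe C.Lam Rc.ka C.c0) →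
    0 < ix C.Lam (kep Rc.kL r.mu r.lm) ∧
    4 * max C.Lam C.Kc * ix C.Lam (kep Rc.kL r.mu r.lm) ≤ ix C.Lam r.lm * ix C.Lam r.mu ∧
    4 * max C.Lam C.Kc * ix C.Lam (kth Rc.kL r.mu r.lm) ≤ ix C.Lam r.lm * ix C.Lam (kep Rc.kL r.mu r.lm) ∧
    1 < ix C.Lam (kth Rc.kL r.mu r.lm) * ix C.Lam r.mu * ((Jf C.Lam Rc.kL r.mu r.lm : ℝ) + 1) ∧
    0 < th1f C.Lam (r.mu + r.lm + 0 + 8) C.c0 ∧ th1f C.Lam (r.mu + r.lm + 0 + 8) C.c0 ≤ 1 ∧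
    8 * PayI.A1 C.n (r1 + Real.exp (-C.Kc)) (th1f C.Lam (r.mu + r.lm + 0 + 8) C.c0) (CT.Mf C.Lam r.kf C.c0) ≤
      C.n * ix C.Lam r.lm * ix C.Lam r.mu ∧
    16 * ((Jf C.Lam Rc.kL r.mu r.lm : ℝ) + 1) * Real.sqrt (th1f C.Lam (r.mu + r.lm + 0 + 8) C.c0) / C.n * V ≤ 1) := by
  have hq := q_ka hr
  have hkf : r.mu + r.lm + 0 + 8 ≤ r.kf := by
    unfold Rd.kf
    omega
  refine (of_Ev (pay_num A Rc.kL r.mu r.lm 0 r.kf hkf 0)).mono fun C hC r1 V h1 V0 hV => ?_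
  have hL := C.hL
  have e6 : 6 * MVN.pe C.Lam Rc.ka C.c0 = 6 * (pw C.Lam C.c0 * ix C.Lam Rc.ka) := by
    unfold MVN.pe ix
    rw [div_eq_mul_inv]
  obtain ⟨_, _, _, a4, a5, a6, a7, a8, a9, a10, a11⟩ := hC (max C.Lam C.Kc) 1 (r1 + Real.exp (-C.Kc)) V
    (L_le hL) (by rw [ix_zero]) (eps_le hr hL h1) V0
    (hV.trans (by
      rw [e6]
      exact pe_exp hL (by omega) (by norm_num)))
  refine ⟨a4, a5, a6, a7, a8, a9, ?_, ?_⟩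
  · have e : pw C.Lam C.c0 * 1 * ix C.Lam r.lm * ix C.Lam r.mu = C.n * ix C.Lam r.lm * ix C.Lam r.mu := by
      rw [mul_one]
      rfl
    rw [e] at a10
    exact a10
  · rw [ix_zero] at a11
    exact a11

/-- all numbers of the unsigned payments in a round, lives `≤ exp (6 pe)`, `c0` of PayI `= 1`, `lam = 1` -/
theorem num_GU (A : ℕ) {r : Rd} (hr : r.q ≤ Rc.m) : AllC A (fun C => ∀ q V : ℝ, q ≤ 4 ^ 10 * ix C.Lam r.q → 0 ≤ V →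
    V ≤ Real.exp (6 * MVN.pe C.Lam Rc.ka C.c0) →
    0 < ix C.Lam (kep Rc.kL r.mu 0) ∧ 4 * ix C.Lam (kep Rc.kL r.mu 0) ≤ ix C.Lam r.mu ∧
    4 * ix C.Lam (kth Rc.kL r.mu 0) ≤ ix C.Lam (kep Rc.kL r.mu 0) ∧
    1 < ix C.Lam (kth Rc.kL r.mu 0) * ix C.Lam r.mu * ((Jf C.Lam Rc.kL r.mu 0 : ℝ) + 1) ∧
    0 < th1f C.Lam (r.mu + 0 + 0 + 8) C.c0 ∧ th1f C.Lam (r.mu + 0 + 0 + 8) C.c0 ≤ 1 ∧
    Real.exp 1 * q ≤ ix C.Lam (r.mu + 0 + 0 + 3) ∧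
    8 * PayI.A1 C.n (ix C.Lam (r.mu + 0 + 0 + 3)) (th1f C.Lam (r.mu + 0 + 0 + 8) C.c0) (CT.Mf C.Lam r.kf C.c0) ≤
      C.n * 1 * ix C.Lam r.mu ∧
    16 * ((Jf C.Lam Rc.kL r.mu 0 : ℝ) + 1) * Real.sqrt (th1f C.Lam (r.mu + 0 + 0 + 8) C.c0) / C.n * V ≤ 1) := by
  have hq := q_ka hr
  have hkf : r.mu + 0 + 0 + 8 ≤ r.kf := by
    unfold Rd.kf
    omega
  refine (of_Ev (pay_num A Rc.kL r.mu 0 0 r.kf hkf 0)).mono fun C hC q V h1 V0 hV => ?_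
  have hL := C.hL
  have e6 : 6 * MVN.pe C.Lam Rc.ka C.c0 = 6 * (pw C.Lam C.c0 * ix C.Lam Rc.ka) := by
    unfold MVN.pe ix
    rw [div_eq_mul_inv]
  obtain ⟨_, _, _, a4, a5, a6, a7, a8, a9, a10, a11⟩ := hC 1 1 (ix C.Lam (r.mu + 0 + 0 + 3)) V
    (pw_ge1 hL _) (by rw [ix_zero]) le_rfl V0
    (hV.trans (by
      rw [e6]
      exact pe_exp hL (by omega) (by norm_num)))
  have e3 : Real.exp 1 ≤ 4 := by
    have := Real.exp_one_lt_d9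
    linarith
  rw [ix_zero, one_mul, mul_one] at a5
  rw [ix_zero, one_mul, mul_one] at a6
  rw [ix_zero] at a11
  refine ⟨a4, a5, a6, a7, a8, a9, ?_, ?_, a11⟩
  · have h4 : Real.exp 1 * q ≤ 4 ^ 11 * ix C.Lam r.q := by
      have h5 := ix_nn hL r.q
      have h6 : Real.exp 1 * q ≤ Real.exp 1 * (4 ^ 10 * ix C.Lam r.q) := mul_le_mul_of_nonneg_left h1 (Real.exp_pos _).le
      have h7 : Real.exp 1 * (4 ^ 10 * ix C.Lam r.q) ≤ 4 * (4 ^ 10 * ix C.Lam r.q) :=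
        mul_le_mul_of_nonneg_right e3 (mul_nonneg (by norm_num) h5)
      have e : (4 : ℝ) ^ 11 * ix C.Lam r.q = 4 * (4 ^ 10 * ix C.Lam r.q) := by ring
      rw [e]
      exact h6.trans h7
    exact h4.trans (fin hL (CT.cst hL 11 le_rfl) (by omega))
  · have e : pw C.Lam C.c0 * 1 * ix C.Lam 0 * ix C.Lam r.mu = C.n * 1 * ix C.Lam r.mu := by
      rw [ix_zero, mul_one (pw C.Lam C.c0 * 1)]
      rfl
    rw [e] at a10
    exact a10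

end

end Pool.Agent.GMH.CX
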