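import Pool.Agent.GMH.PayGU
import Pool.Agent.GMH.ConPn

/-!
# GMH/ConPay (helper42): THE PAYMENTS AT THE EXACT VERTEX OVER `Ctx`, ALL NUMBERS (row A5)

In a round `r` (`r.q ≤ Rc.m`): `kap = x^(-mu)`, `lam = x^(-lm)`, lists of length `Mf Lam r.kf c0`, `Kf Lam r.mu` levels, cut `C.Kc`,
number of the starts at most `exp (6 n / x^ka)`.
* `pay_G` : signed, covered mass of all lives `≤ x^(lm + 4)`; `pay_GU` : unsigned, `≤ x^4`.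
-/

set_option autoImplicit false
set_option linter.unusedSectionVars false

namespace Pool.Agent.GMH.CX

open Finset Pool.Agent.PWZ Pool.Agent.M3 Pool.Agent.GM Pool.Agent.GM.Harm Pool.Agent.GMH
open Pool.Agent.GMH.Gdy Pool.Agent.GMH.GdyN Pool.Agent.GMH.PayW Pool.Agent.GMH.PayQ Pool.Agent.GMH.PayI
open Pool.Agent.GMH.Dy Pool.Agent.GMH.TP Pool.Agent.GMH.PayG
open Pool.Agent.GMH.GhoL (CvH qH qH_nn qH_one)
open Pool.Agent.GMH.TabF (si WE)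
open Pool.Agent.GMH.CT (Rd Rc kep kth Jf Kf th1f ix_pos ix_nn Kf_pos ix_zero)

noncomputable section

/-- **SIGNED PAYMENTS AT THE EXACT VERTEX `b`, ROUND `r`** : the covered mass of all lives is at most `x^(lm + 4)` -/
theorem pay_G (A : ℕ) {r : Rd} (hr : r.q ≤ Rc.m) : AllC A (fun C => ∀ {b c d : Fin 3}, b ≠ c → b ≠ d → c ≠ d →
    ∀ {en tl : ℕ → C.O → Prop}, (∀ s, Fac (cn C.tb C.v b s) (en s)) → (∀ s, Fac (cn C.tb C.v b s) (tl s)) →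
    (∀ q w, tl q w → q % 5 ≠ 0) →
    ∑ q ∈ range (5 * C.T), C.tb.Ps.Pr (en q) ≤ Real.exp (6 * MVN.pe C.Lam Rc.ka C.c0) →
    ∀ {kv : ℕ → C.Q → Prop}, (∀ e, Fac (fun p => (XZ C.D C.v e d p, FQ C.v (e / 5) c p)) (kv e)) →
    ∀ {r1 : ℝ}, 0 ≤ r1 → r1 ≤ 4 ^ 10 * CT.ix C.Lam r.q → (∀ e, e / 5 ≤ C.T → TwoT C.h C.v (kv e) e c d r1) →
    ∀ {Xi : Type} [Fintype Xi] (rwf : ℕ → (C.γ × (Fin 3 → C.γ)) → C.β → (C.β × C.W) → Xi → C.X × C.φ)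
      (Qc : ℕ → C.O → FP Xi), (∀ q t, Fac (cn C.tb C.v b q) (fun z => (Qc q z).p t)) →
    ∑ q ∈ range (5 * C.T), ∑ x : Fin (CT.Mf C.Lam r.kf C.c0) → (C.β × C.W) × Xi, C.tb.Ps.E (fun z => ind (en q z) *
      sw (qH (WE C.tb {b} (TP.nn q) z) (Qc q z) (Cx c d)) x * (WE C.tb {b} (TP.nn q) z).Pr (fun w =>
        CvH (WE C.tb {b} (TP.nn q) z) (fun s => si C.D {b} {d} ∅ (TP.nn s)) (PayG.Bx b) (Cx d c)
          (Gr C.h C.tb C.v (kv (etl tl q z)) (etl tl q z) b c d)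
          (psO C.h C.tb C.v C.Kc (kv (etl tl q z)) (etl tl q z) b c d)
          (fun B C' t => rwf (etl tl q z) (ndO C.D (TP.nn q) z) B.2 C' t) (CT.ix C.Lam r.lm) (CT.ix C.Lam r.mu)
          (Kf C.Lam r.mu) x (nx en (5 * C.T) q w) w)) ≤ pw C.Lam (r.lm + 4)) := by
  refine (num_G A hr).mono fun C hC b c d hbc hbd hcd en tl hen htl ht0 hV kv hk0 r1 r0 h1 hk Xi _ rwf Qc hQ => ?_
  have hL := C.hL
  have V0 : 0 ≤ ∑ q ∈ range (5 * C.T), C.tb.Ps.Pr (en q) := Finset.sum_nonneg fun q _ => C.tb.Ps.Pr_nonneg _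
  obtain ⟨a4, a5, a6, a7, a8, a9, a10, a11⟩ := hC r1 _ h1 V0 hV
  have key := pay_foreign (h := C.h) (tb := C.tb) C.H C.R C.n1 C.N11 hbc hbd hcd hen htl ht0 hk0 r0 hk C.Kc_nn rwf Qc
    hQ (M := CT.Mf C.Lam r.kf C.c0) (CT.Mf_one _ _) (kap := CT.ix C.Lam r.mu) (lam := CT.ix C.Lam r.lm)
    (th := CT.ix C.Lam (kth Rc.kL r.mu r.lm)) (ep1 := CT.ix C.Lam (kep Rc.kL r.mu r.lm)) (K := Kf C.Lam r.mu)
    (J := Jf C.Lam Rc.kL r.mu r.lm) (Kf_pos hL _) (ix_pos hL _) (ix_pos hL _) (ix_nn hL _) a4 a5 a6 a7 a8 a9 a10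
  exact cov1 hL (a11.trans (by linarith)) key

/-- **UNSIGNED PAYMENTS AT THE EXACT VERTEX `b`, ROUND `r`** : the covered mass of all lives is at most `x^4` -/
theorem pay_GU (A : ℕ) {r : Rd} (hr : r.q ≤ Rc.m) : AllC A (fun C => ∀ {b c d : Fin 3}, b ≠ c → b ≠ d → c ≠ d →
    ∀ {en tl : ℕ → C.O → Prop}, (∀ s, Fac (cn C.tb C.v b s) (en s)) → (∀ s, Fac (cn C.tb C.v b s) (tl s)) →
    (∀ q w, tl q w → q % 5 ≠ 0) →
    ∑ q ∈ range (5 * C.T), C.tb.Ps.Pr (en q) ≤ Real.exp (6 * MVN.pe C.Lam Rc.ka C.c0) →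
    ∀ {kv : ℕ → C.Q → Prop} {q1 : ℝ}, 0 ≤ q1 → q1 ≤ 4 ^ 10 * CT.ix C.Lam r.q →
      (∀ e, e / 5 ≤ C.T → OneM C.h C.v (kv e) e c d q1) →
    ∀ {Xi : Type} [Fintype Xi] (rwf : ℕ → (C.γ × (Fin 3 → C.γ)) → C.β → (C.β × C.W) → Xi → C.X × C.φ)
      (Qc : ℕ → C.O → FP Xi), (∀ q t, Fac (cn C.tb C.v b q) (fun z => (Qc q z).p t)) →
    ∑ q ∈ range (5 * C.T), ∑ x : Fin (CT.Mf C.Lam r.kf C.c0) → (C.β × C.W) × Xi, C.tb.Ps.E (fun z => ind (en q z) *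
      sw (qH (WE C.tb {b} (TP.nn q) z) (Qc q z) (Cx c d)) x * (WE C.tb {b} (TP.nn q) z).Pr (fun w =>
        CvH (WE C.tb {b} (TP.nn q) z) (fun s => si C.D {b} {d} ∅ (TP.nn s)) (PayG.Bx b) (Cx d c)
          (Gr C.h C.tb C.v (kv (etl tl q z)) (etl tl q z) b c d) (fun _ _ _ _ => 1)
          (fun B C' t => rwf (etl tl q z) (ndO C.D (TP.nn q) z) B.2 C' t) 1 (CT.ix C.Lam r.mu)
          (Kf C.Lam r.mu) x (nx en (5 * C.T) q w) w)) ≤ pw C.Lam 4) := by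
  refine (num_GU A hr).mono fun C hC b c d hbc hbd hcd en tl hen htl ht0 hV kv q1 q0 h1 hk Xi _ rwf Qc hQ => ?_
  have hL := C.hL
  have V0 : 0 ≤ ∑ q ∈ range (5 * C.T), C.tb.Ps.Pr (en q) := Finset.sum_nonneg fun q _ => C.tb.Ps.Pr_nonneg _
  obtain ⟨a4, a5, a6, a7, a8, a9, a10, a11, a12⟩ := hC q1 _ h1 V0 hV
  have key := pay_foreign_u (h := C.h) (tb := C.tb) C.H C.R C.n1 C.N11 hbc hbd hcd hen htl ht0 q0 hk zero_le_one a10 rwf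
    Qc hQ (M := CT.Mf C.Lam r.kf C.c0) (CT.Mf_one _ _) (kap := CT.ix C.Lam r.mu)
    (th := CT.ix C.Lam (kth Rc.kL r.mu 0)) (ep1 := CT.ix C.Lam (kep Rc.kL r.mu 0)) (K := Kf C.Lam r.mu)
    (J := Jf C.Lam Rc.kL r.mu 0) (Kf_pos hL _) (ix_pos hL _) (ix_pos hL _) a4 a5 a6 a7 a8 a9 a11
  refine cov1 hL (k2 := 0) (a12.trans (by linarith)) ?_
  rw [ix_zero]
  exact key

end

end Pool.Agent.GMH.CX
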