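import Pool.Agent.GMH.ConT8

/-!
# GMH/ConRn (helper42): THE NUMBERS OF THE RARITIES (row A5; C5, helper30 RarC5, helper88 RarN8)

`sq` = exponent of the threshold `y = x^(-sq)`, class mass `eta ≤ 4^8 x^(-2 sq)`, `l = n x^(-(sq + 20))`.
* `rx_num` : exact vertex, `L1 = lam = l`, `R0 = (c0 + 1) 2 Lam`, `L = 3 l + 3` : everything needed for `Cst_of`, `ELr_le`;
* `rx_y` : `4 (1025 E + 1024 eta) < x^(-sq)`; `rx_V`, `rx_e` : `exp (-l) V`, `800 exp (-l) n N_1 Lam`;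
* `rn_num` : node, `L1 = lam = n^16`; `rn_V`, `rn_e`.
-/

set_option autoImplicit false
set_option linter.unusedSectionVars false

namespace Pool.Agent.GMH.CT

open Pool.Agent.GMH Pool.Agent.GMH.V3 Finset Filter

noncomputable section

/-- squares of `(c0 + 1) x` against `n` -/
theorem sq_big (k : ℕ) : Ev fun c0 Lam => (((c0 : ℝ) + 1) * (2 * Lam) + 2) ^ 2 ≤ pw Lam c0 * ix Lam k := by
  have h1 : Tendsto (fun c : ℕ => (c : ℝ) ^ 2 / (4 : ℝ) ^ c) atTop (nhds 0) :=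
    tendsto_pow_const_div_const_pow_of_one_lt 2 (by norm_num)
  have h2 : Tendsto (fun c : ℕ => ((c + 2 : ℕ) : ℝ) ^ 2 / (4 : ℝ) ^ (c + 2)) atTop (nhds 0) :=
    h1.comp (tendsto_add_atTop_nat 2)
  have h3 : (0 : ℝ) < ((4 : ℝ) ^ (k + 6))⁻¹ := by positivity
  have h4 := h2.eventually_le_const h3
  filter_upwards [h4, eventually_ge_atTop (k + 8)] with c0 h5 h6 Lam hL
  rw [div_le_iff₀ (by positivity)] at h5
  have e1 : ((4 : ℝ) ^ (k + 6))⁻¹ * 4 ^ (c0 + 2) = 4 ^ (c0 - k - 4) := by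
    have e0 : (4 : ℝ) ^ (c0 + 2) = 4 ^ (k + 6) * 4 ^ (c0 - k - 4) := by
      rw [← pow_add]
      congr 1
      omega
    rw [e0, ← mul_assoc, inv_mul_cancel₀ (by positivity), one_mul]
  rw [e1] at h5
  have h7 : (((c0 : ℝ) + 1) * (2 * Lam) + 2) ^ 2 ≤ ((c0 + 2 : ℕ) : ℝ) ^ 2 * pw Lam 2 := by
    have e2 : pw Lam 2 = (2 * Lam) ^ 2 := rfl
    rw [e2, ← mul_pow]
    push_cast
    exact pow_le_pow_left₀ (by positivity) (by nlinarith) 2
  have h8 : ((c0 + 2 : ℕ) : ℝ) ^ 2 * pw Lam 2 ≤ pw Lam (c0 - k - 4) * pw Lam 2 :=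
    mul_le_mul_of_nonneg_right (h5.trans (pw_ge hL _)) (pw_pos hL _).le
  have h9 : pw Lam (c0 - k - 4) * pw Lam 2 ≤ pw Lam c0 * ix Lam k := by
    rw [← pw_add]
    have e3 : pw Lam c0 * ix Lam k = pw Lam (c0 - k) := by
      have e4 : c0 = k + (c0 - k) := by omega
      rw [e4, pw_add_ix hL]
      congr 1
      omega
    rw [e3]
    exact pw_mono hL (by omega)
  exact (h7.trans h8).trans h9

/-- `l = n x^(-(sq + 20))` -/
def lr (Lam : ℝ) (sq c0 : ℕ) : ℝ := pw Lam c0 * ix Lam (sq + 20)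

/-- `R0` -/
def R0r (Lam : ℝ) (c0 : ℕ) : ℝ := ((c0 : ℝ) + 1) * (2 * Lam)

theorem lr_pos {Lam : ℝ} (hL : 2 ≤ Lam) (sq c0 : ℕ) : 0 < lr Lam sq c0 := mul_pos (pw_pos hL _) (ix_pos hL _)

/-- **THE EXACT VERTEX** -/
theorem rx_num {A : ℕ} (hA : 80 ≤ A) (sq : ℕ) : Ev fun c0 Lam => 2 ≤ pw Lam c0 ∧ 3 ≤ lr Lam sq c0 ∧
    Real.log (pw Lam c0) ≤ R0r Lam c0 ∧ Lam ≤ R0r Lam c0 ∧ R0r Lam c0 ≤ pw Lam c0 ∧ 0 ≤ R0r Lam c0 ∧
    lr Lam sq c0 + (2 * lr Lam sq c0 + 3) ≤ pw Lam c0 ∧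
    (4 * (lr Lam sq c0 + (2 * lr Lam sq c0 + 3)) + 12 * Lam + 28 + (R0r Lam c0 + 2) ^ 2) / pw Lam c0 +
      (40 * (pw Lam (cXF A c0) + (lr Lam sq c0 + (2 * lr Lam sq c0 + 3)) + 1) +
        40 * pw Lam c0 * (pw Lam (cXF A c0) + Lam + 3)) / pw Lam (c1F A c0) ≤ ix Lam (sq + 12) := by
  refine ((sq_big (sq + 20)).and (Ev.ge (3 * A + sq + 40))).mono fun c0 Lam hL h => ?_
  obtain ⟨h, hc⟩ := h
  have n0 := pw_pos hL c0
  have N0 := pw_pos hL (c1F A c0)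
  have c1 : (1 : ℝ) ≤ (c0 : ℝ) + 1 := by
    have : (0 : ℝ) ≤ (c0 : ℝ) := Nat.cast_nonneg _
    linarith
  have r0 : 2 * Lam ≤ R0r Lam c0 := by
    unfold R0r
    nlinarith
  have e1 : lr Lam sq c0 = pw Lam (c0 - (sq + 20)) := by
    unfold lr
    have e4 : c0 = (sq + 20) + (c0 - (sq + 20)) := by omega
    conv_lhs => rw [e4]
    rw [pw_add_ix hL]
  have l3 : 3 ≤ lr Lam sq c0 := by
    rw [e1]
    have := pw_ge hL 1
    have h2 : pw Lam 1 ≤ pw Lam (c0 - (sq + 20)) := pw_mono hL (by omega)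
    norm_num at this
    linarith
  have l4 : lr Lam sq c0 + (2 * lr Lam sq c0 + 3) ≤ 4 * lr Lam sq c0 := by linarith
  have l5 : 4 * lr Lam sq c0 ≤ pw Lam c0 := by
    rw [e1]
    have h2 : 4 * pw Lam (c0 - (sq + 20)) ≤ pw Lam (1 + (c0 - (sq + 20))) :=
      mul_pw hL (pw_pos hL _).le (cst hL 1 (by norm_num)) le_rfl
    exact h2.trans (pw_mono hL (by omega))
  have hsq : (R0r Lam c0 + 2) ^ 2 ≤ pw Lam c0 * ix Lam (sq + 20) := h
  have x1 := ix_le_one hL (sq + 20)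
  have hR : R0r Lam c0 ≤ pw Lam c0 := by
    have h2 : R0r Lam c0 + 2 ≤ (R0r Lam c0 + 2) ^ 2 := by nlinarith
    have h3 : pw Lam c0 * ix Lam (sq + 20) ≤ pw Lam c0 := mul_le_of_le_one_right n0.le x1
    linarith
  refine ⟨by linarith, l3, ?_, by linarith, hR, by linarith, l4.trans l5, ?_⟩
  · unfold pw R0r
    rw [Real.log_pow]
    have h2 := log_two hL
    have h3 : 0 ≤ Real.log (2 * Lam) := Real.log_nonneg (by linarith)
    have h4 : (0 : ℝ) ≤ (c0 : ℝ) := Nat.cast_nonneg _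
    nlinarith
  · have a1 : (4 * (lr Lam sq c0 + (2 * lr Lam sq c0 + 3)) + 12 * Lam + 28 + (R0r Lam c0 + 2) ^ 2) / pw Lam c0 ≤
        ix Lam (sq + 13) := by
      rw [div_le_iff₀ n0]
      have b1 : 12 * Lam + 28 ≤ 4 ^ 4 * (pw Lam c0 * ix Lam (sq + 20)) := by
        have b2 : 12 * Lam + 28 ≤ 14 * (R0r Lam c0 + 2) ^ 2 := by nlinarith
        linarith
      have b3 : 4 * (lr Lam sq c0 + (2 * lr Lam sq c0 + 3)) ≤ 16 * (pw Lam c0 * ix Lam (sq + 20)) := by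
        have : lr Lam sq c0 = pw Lam c0 * ix Lam (sq + 20) := rfl
        linarith
      have b4 : 4 ^ 5 * ix Lam (sq + 20) ≤ ix Lam (sq + 13) := fin hL (cst hL 5 le_rfl) (by omega)
      have b5 := mul_le_mul_of_nonneg_left b4 n0.le
      have b6 : 0 ≤ pw Lam c0 * ix Lam (sq + 20) := mul_nonneg n0.le (ix_nn hL _)
      norm_num at b5
      linarith
    have a2 : (40 * (pw Lam (cXF A c0) + (lr Lam sq c0 + (2 * lr Lam sq c0 + 3)) + 1) +
        40 * pw Lam c0 * (pw Lam (cXF A c0) + Lam + 3)) / pw Lam (c1F A c0) ≤ ix Lam (sq + 13) := by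
      rw [div_le_iff₀ N0]
      have X1 := X0_le hL (A := A) (c0 := c0) (by omega)
      have p4 := pw_ge1 hL (4 * c0)
      have p1 := pw_ge1 hL c0
      have q1 : pw Lam c0 ≤ pw Lam (4 * c0) := pw_mono hL (by omega)
      have q2 : Lam ≤ pw Lam (4 * c0) := (Lam_le hL).trans (pw_mono hL (by omega))
      have b1 : 40 * (pw Lam (cXF A c0) + (lr Lam sq c0 + (2 * lr Lam sq c0 + 3)) + 1) +
          40 * pw Lam c0 * (pw Lam (cXF A c0) + Lam + 3) ≤ 4 ^ 5 * (pw Lam c0 * pw Lam (4 * c0)) := by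
        have g1 : 40 * (pw Lam (cXF A c0) + (lr Lam sq c0 + (2 * lr Lam sq c0 + 3)) + 1) ≤ 120 * pw Lam (4 * c0) := by
          linarith
        have g2 : 40 * pw Lam c0 * (pw Lam (cXF A c0) + Lam + 3) ≤ 40 * pw Lam c0 * (5 * pw Lam (4 * c0)) :=
          mul_le_mul_of_nonneg_left (by linarith) (by linarith)
        have g3 : pw Lam (4 * c0) ≤ pw Lam c0 * pw Lam (4 * c0) := le_mul_of_one_le_left (pw_pos hL _).le p1
        norm_num
        linarith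
      have b2 : 4 ^ 5 * (pw Lam c0 * pw Lam (4 * c0)) ≤ pw Lam (5 + (c0 + 4 * c0)) :=
        mul_pw hL (mul_pos n0 (pw_pos hL _)).le (cst hL 5 le_rfl) (mul_pw hL (pw_pos hL _).le le_rfl le_rfl)
      have b3 : pw Lam (5 + (c0 + 4 * c0)) ≤ ix Lam (sq + 13) * pw Lam (c1F A c0) := by
        have g1 : pw Lam ((sq + 13) + (5 + (c0 + 4 * c0))) ≤ pw Lam (c1F A c0) := N1_ge hL hA _ (by omega)
        have g2 := mul_le_mul_of_nonneg_left g1 (ix_nn hL (sq + 13))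
        have e5 : ix Lam (sq + 13) * pw Lam ((sq + 13) + (5 + (c0 + 4 * c0))) = pw Lam (5 + (c0 + 4 * c0)) := by
          rw [mul_comm, pw_add_ix hL]
        rw [e5] at g2
        exact g2
      exact (b1.trans b2).trans b3
    exact add_ix hL a1 a2

/-- **THE THRESHOLD** -/
theorem rx_y {Lam : ℝ} (hL : 2 ≤ Lam) {sq : ℕ} (hs : 20 ≤ sq) {E eta : ℝ} (hE : E ≤ ix Lam (sq + 12))
    (he : eta ≤ 4 ^ 8 * ix Lam (2 * sq)) : 4 * (1025 * E + 1024 * eta) < ix Lam sq := by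
  have h1 : 4 ^ 7 * ix Lam (sq + 12) ≤ ix Lam (sq + 1) := fin hL (cst hL 7 le_rfl) (by omega)
  have h2 : 4 ^ 15 * ix Lam (2 * sq) ≤ ix Lam (sq + 1) := fin hL (cst hL 15 le_rfl) (by omega)
  have h3 : 4 * ix Lam (1 + sq) ≤ ix Lam sq := cst_ix hL (c := 4) (j := 1) (by norm_num)
  rw [show 1 + sq = sq + 1 by ring] at h3
  have h4 := ix_pos hL (sq + 1)
  norm_num at h1 h2 he
  have h5 : 4100 * E ≤ 4100 * ix Lam (sq + 12) := by linarith
  have h6 := ix_pos hL (sq + 12)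
  have h7 := ix_pos hL (2 * sq)
  linarith

/-- rare against the number of the lives -/
theorem rx_V (A sq s : ℕ) : Ev fun c0 Lam => ∀ V : ℝ, V ≤ Real.exp (pw Lam c0 * ix Lam (sq + 21)) →
    Real.exp (-(lr Lam sq c0)) * V ≤ ix Lam s := by
  refine ((exp_n A (sq + 21) (s + 1)).and (Ev.ge 1)).mono fun c0 Lam hL h V hV => ?_
  obtain ⟨h, hc⟩ := h
  have h3 := four_ix hL (pw_pos hL c0).le (sq + 20)
  have y0 : 0 ≤ pw Lam c0 * ix Lam (sq + 21) := mul_nonneg (pw_pos hL _).le (ix_nn hL _)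
  calc Real.exp (-(lr Lam sq c0)) * V ≤ Real.exp (-(lr Lam sq c0)) * Real.exp (pw Lam c0 * ix Lam (sq + 21)) :=
        mul_le_mul_of_nonneg_left hV (Real.exp_pos _).le
    _ = Real.exp (-(lr Lam sq c0) + pw Lam c0 * ix Lam (sq + 21)) := by rw [Real.exp_add]
    _ ≤ Real.exp (-(pw Lam c0 * ix Lam (sq + 21))) := Real.exp_le_exp.2 (by
        unfold lr
        rw [show sq + 20 + 1 = sq + 21 by ring] at h3
        linarith)
    _ ≤ ix Lam ((s + 1) * (c1F A c0 + c0 + 1)) := h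
    _ ≤ ix Lam s := ix_anti hL (by
        have e2 : (s + 1) * 1 ≤ (s + 1) * (c1F A c0 + c0 + 1) := Nat.mul_le_mul_left _ (by omega)
        omega)

/-- the light digits and values -/
theorem rx_e (A sq s : ℕ) {c : ℝ} (hc : c ≤ 4 ^ 10) : Ev fun c0 Lam =>
    c * Real.exp (-(lr Lam sq c0)) * (pw Lam c0 * pw Lam (c1F A c0) * Lam) ≤ ix Lam s := by
  refine ((exp_n A (sq + 20) (s + 11)).and (Ev.ge 1)).mono fun c0 Lam hL h => ?_
  obtain ⟨h, hc1⟩ := h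
  have h1 := N2_le hL (A := A) (c0 := c0) hc
  have h2 := V_rare hL (V := c * (pw Lam c0 * pw Lam (c1F A c0) * Lam)) (e := Real.exp (-(lr Lam sq c0)))
    (N := c1F A c0 + c0 + 11) (s := s)
  rcases le_or_gt 0 c with h0 | h0
  · have h3 := h2 (mul_nonneg h0 (mul_nonneg (mul_nonneg (pw_pos hL _).le (pw_pos hL _).le) (by linarith))) h1
      (h.trans (ix_anti hL (by
        have e : (s + 11) * (c1F A c0 + c0 + 1) = s * (c1F A c0 + c0 + 1) + 11 * (c1F A c0 + c0 + 1) := by ring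
        have e2 : s * 1 ≤ s * (c1F A c0 + c0 + 1) := Nat.mul_le_mul_left _ (by omega)
        omega)))
    refine le_trans (le_of_eq ?_) h3
    ring
  · have h3 : c * Real.exp (-(lr Lam sq c0)) * (pw Lam c0 * pw Lam (c1F A c0) * Lam) ≤ 0 :=
      mul_nonpos_of_nonpos_of_nonneg (mul_nonpos_of_nonpos_of_nonneg h0.le (Real.exp_pos _).le)
        (mul_nonneg (mul_nonneg (pw_pos hL _).le (pw_pos hL _).le) (by linarith))
    exact h3.trans (ix_nn hL _)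

/-! ## the node -/

/-- **THE NODE** : `L1 = lam = n^16` -/
theorem rn_num {A : ℕ} (hA : 80 ≤ A) (sq : ℕ) (hs : 20 ≤ sq) : Ev fun c0 Lam => ∀ eta : ℝ, eta ≤ 4 ^ 8 * ix Lam (2 * sq) →
    54 * (pw Lam (16 * c0) + 2 * (pw Lam (16 * c0) + 4) + 2 * pw Lam (cXF A c0) + 5) / pw Lam (c1F A c0) +
      54 * Lam / pw Lam c0 + 2 * eta < ix Lam sq / 8 := by
  refine (Ev.ge (3 * A + sq + 40)).mono fun c0 Lam hL hc eta he => ?_
  have n0 := pw_pos hL c0
  have N0 := pw_pos hL (c1F A c0)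
  have X1 : pw Lam (cXF A c0) ≤ pw Lam (16 * c0) := pw_mono hL (by unfold cXF; omega)
  have p1 := pw_ge1 hL (16 * c0)
  have a1 : 54 * (pw Lam (16 * c0) + 2 * (pw Lam (16 * c0) + 4) + 2 * pw Lam (cXF A c0) + 5) / pw Lam (c1F A c0) ≤
      ix Lam (sq + 5) := by
    rw [div_le_iff₀ N0]
    have b1 : 54 * (pw Lam (16 * c0) + 2 * (pw Lam (16 * c0) + 4) + 2 * pw Lam (cXF A c0) + 5) ≤ 4 ^ 6 * pw Lam (16 * c0) := by
      norm_num
      linarith
    have b2 : 4 ^ 6 * pw Lam (16 * c0) ≤ pw Lam (6 + 16 * c0) := mul_pw hL (pw_pos hL _).le (cst hL 6 le_rfl) le_rfl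
    have b3 : pw Lam (6 + 16 * c0) ≤ ix Lam (sq + 5) * pw Lam (c1F A c0) := by
      have g1 : pw Lam ((sq + 5) + (6 + 16 * c0)) ≤ pw Lam (c1F A c0) := N1_ge hL hA _ (by omega)
      have g2 := mul_le_mul_of_nonneg_left g1 (ix_nn hL (sq + 5))
      have e5 : ix Lam (sq + 5) * pw Lam ((sq + 5) + (6 + 16 * c0)) = pw Lam (6 + 16 * c0) := by
        rw [mul_comm, pw_add_ix hL]
      rw [e5] at g2
      exact g2
    exact (b1.trans b2).trans b3
  have a2 : 54 * Lam / pw Lam c0 ≤ ix Lam (sq + 5) := by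
    rw [div_le_iff₀ n0]
    have g1 : 54 * Lam ≤ pw Lam 4 := cLam hL (c := 54) 3 (by norm_num)
    have g2 : pw Lam ((sq + 5) + 4) ≤ pw Lam c0 := pw_mono hL (by omega)
    have g3 := mul_le_mul_of_nonneg_left g2 (ix_nn hL (sq + 5))
    have e5 : ix Lam (sq + 5) * pw Lam ((sq + 5) + 4) = pw Lam 4 := by
      rw [mul_comm, pw_add_ix hL]
    rw [e5] at g3
    linarith
  have a3 : 4 ^ 12 * ix Lam (2 * sq) ≤ ix Lam (sq + 5) := fin hL (cst hL 12 le_rfl) (by omega)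
  have a4 : 4 ^ 5 * ix Lam (sq + 5) ≤ ix Lam sq := fin hL (cst hL 5 le_rfl) (by omega)
  have a5 := ix_pos hL (sq + 5)
  have a6 := ix_pos hL (2 * sq)
  norm_num at a3 a4 he
  linarith

/-- rare against the number of the public epochs -/
theorem rn_V (A s : ℕ) : Ev fun c0 Lam => ∀ V : ℝ, V ≤ Real.exp (pw Lam (15 * c0)) →
    Real.exp (-(pw Lam (16 * c0))) * V ≤ ix Lam s := by
  refine ((exp_nj A (s + 1)).and (Ev.ge 1)).mono fun c0 Lam hL h V hV => ?_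
  obtain ⟨h, hc⟩ := h
  have h3 : 4 * pw Lam (15 * c0) ≤ pw Lam (16 * c0) := by
    have h4 : 4 * pw Lam (15 * c0) ≤ pw Lam (1 + 15 * c0) :=
      mul_pw hL (pw_pos hL _).le (cst hL 1 (by norm_num)) le_rfl
    exact h4.trans (pw_mono hL (by omega))
  have h5 : pw Lam c0 ≤ pw Lam (15 * c0) := pw_mono hL (by omega)
  have h6 := pw_pos hL (15 * c0)
  calc Real.exp (-(pw Lam (16 * c0))) * V ≤ Real.exp (-(pw Lam (16 * c0))) * Real.exp (pw Lam (15 * c0)) :=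
        mul_le_mul_of_nonneg_left hV (Real.exp_pos _).le
    _ = Real.exp (-(pw Lam (16 * c0)) + pw Lam (15 * c0)) := by rw [Real.exp_add]
    _ ≤ Real.exp (-(pw Lam c0)) := Real.exp_le_exp.2 (by linarith)
    _ ≤ ix Lam ((s + 1) * (c1F A c0 + c0 + 1)) := h
    _ ≤ ix Lam s := ix_anti hL (by
        have e2 : (s + 1) * 1 ≤ (s + 1) * (c1F A c0 + c0 + 1) := Nat.mul_le_mul_left _ (by omega)
        omega)

/-- the light digits -/
theorem rn_e (A s : ℕ) {c : ℝ} (hc : c ≤ 4 ^ 10) : Ev fun c0 Lam =>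
    c * Real.exp (-(pw Lam (16 * c0))) * (pw Lam c0 * pw Lam (c1F A c0) * Lam) ≤ ix Lam s := by
  refine ((rn_V A (s + 1)).and ((poly_exp A 0).and (Ev.ge 1))).mono fun c0 Lam hL h => ?_
  obtain ⟨h, h1, h2⟩ := h
  have h3 := N2_le hL (A := A) (c0 := c0) hc
  rw [ix_zero, mul_one] at h1
  have h4 : pw Lam c0 ≤ pw Lam (15 * c0) := pw_mono hL (by omega)
  have h5 := h (c * (pw Lam c0 * pw Lam (c1F A c0) * Lam)) ((h3.trans h1).trans (Real.exp_le_exp.2 h4))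
  refine le_trans (le_of_eq ?_) (h5.trans (ix_anti hL (Nat.le_succ s)))
  ring

end

end Pool.Agent.GMH.CT
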