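import Pool.Agent.GMH.RowP
import Pool.Agent.GMH.Path

/-!
# GMH.RowA: the law of a class is the law of a box, payments at the final cell (helper27)

* `psl`, `pst_psl` : the letters part of `pst`; `Pa_push`, `Bx_push` : letters of an earlier time in a box;
* `Bx_ce` : the conditional mean given the cells is the mean in the smaller box `cut`;
* `Bx_off` : a function of the points off `c` and of the label `c` does not see the set of the vertex `c`;
* `bxs D t K0 y` : the box of a class of `K0` (exact points in `K0`, cells elsewhere); `cls_box` : conditional mean in a class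
  given `(x, y_K0, node)` = mean over the box; `cls_box_coin` : the same with coins;
* `ce_tilt2` : normalisation relative to an older law with fewer letters and a coarser condition;
* `pay_rare` : PAYMENT: general hardwired additions with coins, the event may depend on the hidden point, the points of `K0`,
  the node and the coins;
* `typ_union` : sum over the typical values.
-/

set_option autoImplicit false
set_option linter.unusedSectionVars false

namespace Pool.Agent.GMH

open Finset Pool.Agent.PWZ Pool.Agent.M3 Pool.Agent.GM Pool.Agent.GM.Harm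

/-! ## letters of an earlier time -/

section box

variable {K X β γ φ : Type} [Fintype K] [DecidableEq K] [Fintype X] [Fintype β] [Fintype φ] [Nonempty X] [Nonempty β]
  {D : HD K X β γ φ} {al : ℝ} (h : D.Thick al)

/-- the letters part of `pst` -/
def psl (pr : ℕ → K → φ → φ) (t : ℕ) : ℕ → (K → φ) → K → φ
  | 0 => fun F => F
  | n + 1 => fun F => psl pr t n fun l => pr (t + n) l (F l)

theorem pst_psl (pr : ℕ → K → φ → φ) (t n : ℕ) (w : Pt K X β φ) : pst pr t n w = (w.1, w.2.1, psl pr t n w.2.2) := by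
  induction n generalizing w with
  | zero => rfl
  | succ n ih => exact ih _

/-- each letter depends on the same letter -/
theorem psl_lab (pr : ℕ → K → φ → φ) (t n : ℕ) (l : K) {F G : K → φ} (hFG : F l = G l) :
    psl pr t n F l = psl pr t n G l := by
  induction n generalizing F G with
  | zero => exact hFG
  | succ n ih =>
    refine ih ?_
    show pr (t + n) l (F l) = pr (t + n) l (G l)
    rw [hFG]

theorem Pa_push {pr : ℕ → K → φ → φ} {T : ℕ}
    (hpr : ∀ t < T, ∀ l x y F, D.kf t l x y F = ∑ F', ind (pr t l F' = F) * D.kf (t + 1) l x y F') (t n : ℕ)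
    (hT : t + n ≤ T) (a : X) (f : (K → β) × (K → φ) → ℝ) :
    (Pa h (t + n) a).E (fun w => f (w.1, psl pr t n w.2)) = (Pa h t a).E f := by
  classical
  have key := push_pst h hpr t n hT fun w => ind (w.1 = a) * f w.2
  rw [E_Pa, E_Pa] at key
  have hX : (Fintype.card X : ℝ) ≠ 0 := by exact_mod_cast Fintype.card_ne_zero
  have e1 : ∀ g : X → ℝ, (FP.unif X).E (fun b => ind (b = a) * g b) = g a / Fintype.card X := by
    intro g
    rw [FP.unif_E]
    congr 1
    rw [Finset.sum_eq_single a (fun b _ hb => by rw [ind_not hb, zero_mul]) (fun hh => absurd (mem_univ _) hh),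
      ind_of rfl, one_mul]
  have e2 : ∀ (s : ℕ) (g : X → (K → β) × (K → φ) → ℝ) (b : X),
      (Pa h s b).E (fun w => ind (b = a) * g b w) = ind (b = a) * (Pa h s b).E (g b) := fun s g b =>
    (Pa h s b).E_smul (ind (b = a)) (g b)
  have e3 : (FP.unif X).E (fun b => (Pa h (t + n) b).E fun w => ind ((pst pr t n (b, w)).1 = a) * f (pst pr t n (b, w)).2) =
      (FP.unif X).E (fun b => ind (b = a) * (Pa h (t + n) b).E fun w => f (w.1, psl pr t n w.2)) := by
    refine (FP.unif X).E_congr fun b _ => ?_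
    rw [← e2 (t + n) (fun _ w => f (w.1, psl pr t n w.2)) b]
    refine (Pa h (t + n) b).E_congr fun w _ => ?_
    rw [pst_psl]
  have e4 : (FP.unif X).E (fun b => (Pa h t b).E fun w => ind (b = a) * f w) =
      (FP.unif X).E (fun b => ind (b = a) * (Pa h t b).E f) :=
    (FP.unif X).E_congr fun b _ => e2 t (fun _ => f) b
  rw [e3, e1] at key
  have key2 : (Pa h (t + n) a).E (fun w => f (w.1, psl pr t n w.2)) / Fintype.card X =
      (Pa h t a).E f / Fintype.card X := by
    rw [key]
    rw [← e1 (fun b => (Pa h t b).E f)]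
    exact e4
  field_simp at key2
  exact key2

/-- **letters of an earlier time in a box** -/
theorem Bx_push {pr : ℕ → K → φ → φ} {T : ℕ}
    (hpr : ∀ t < T, ∀ l x y F, D.kf t l x y F = ∑ F', ind (pr t l F' = F) * D.kf (t + 1) l x y F') (t n : ℕ)
    (hT : t + n ≤ T) (a : X) {S : K → Finset β} (hS : ∀ j, (S j).Nonempty) (f : (K → β) × (K → φ) → ℝ) :
    (Bx h (t + n) a S).E (fun w => f (w.1, psl pr t n w.2)) = (Bx h t a S).E f := by
  unfold Bx
  rw [FP.cond_E (Pr_box_ne h hS (t + n) a), FP.cond_E (Pr_box_ne h hS t a), Pr_box, Pr_box]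
  congr 1
  exact Pa_push h hpr t n hT a fun w => ind (inBox S w) * f w

/-! ## the mean given the cells -/

open Classical in
theorem inBox_cut {S : K → Finset β} {I : Finset K} {t T s : ℕ} {u w : (K → β) × (K → φ)} :
    inBox (cut D S I t T s w) u ↔ inBox S u ∧ cIP D I t T s u = cIP D I t T s w := by
  unfold inBox
  rw [cIP_eq]
  constructor
  · intro hh
    refine ⟨fun j => ?_, fun j hj => ?_⟩
    · have := hh j
      unfold cut at this
      by_cases hj : j ∈ I
      · rw [if_pos hj] at this; exact (Finset.mem_filter.1 this).1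
      · rw [if_neg hj] at this; exact this
    · have := hh j
      unfold cut at this
      rw [if_pos hj] at this
      exact (Finset.mem_filter.1 this).2
  · rintro ⟨h3, h4⟩ j
    unfold cut
    by_cases hj : j ∈ I
    · rw [if_pos hj]; exact Finset.mem_filter.2 ⟨h3 j, h4 j hj⟩
    · rw [if_neg hj]; exact h3 j

theorem cut_ne {S : K → Finset β} {I : Finset K} {t T s : ℕ} {w : (K → β) × (K → φ)} (hw : inBox S w) (j : K) :
    (cut D S I t T s w j).Nonempty := by
  classical
  exact ⟨w.1 j, (inBox_cut (D := D)).2 ⟨hw, rfl⟩ j⟩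

/-- **the conditional mean given the cells is the mean in the smaller box** -/
theorem Bx_ce {S : K → Finset β} (hS : ∀ j, (S j).Nonempty) (a : X) (t0 : ℕ) (I : Finset K) (t T s : ℕ)
    (g : (K → β) × (K → φ) → ℝ) {w : (K → β) × (K → φ)} (hw : (Bx h t0 a S).p w ≠ 0) :
    (Bx h t0 a S).ce (cIP D I t T s) g w = (Bx h t0 a (cut D S I t T s w)).E g := by
  classical
  have hw1 := ((Bx_supp h hS).1 hw).1
  have e : ∀ f : (K → β) × (K → φ) → ℝ,
      (Bx h t0 a S).E (fun u => ind (cIP D I t T s u = cIP D I t T s w) * f u) =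
        (Pa h t0 a).E (fun u => ind (inBox (cut D S I t T s w) u) * f u) / (Pa h t0 a).Pr (inBox S) := by
    intro f
    unfold Bx
    rw [FP.cond_E (Pr_box_ne h hS t0 a)]
    congr 1
    refine (Pa h t0 a).E_congr fun u _ => ?_
    rw [← mul_assoc, ← ind_and]
    congr 2
    exact propext (inBox_cut (D := D)).symm
  have e1 : (Bx h t0 a S).m (cIP D I t T s) w =
      (Pa h t0 a).Pr (inBox (cut D S I t T s w)) / (Pa h t0 a).Pr (inBox S) := by
    have := e fun _ => 1
    simp only [mul_one] at this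
    exact this
  have h1 := Pr_box_ne h hS t0 a
  have h2 := Pr_box_ne h (fun j => cut_ne (D := D) (I := I) (t := t) (T := T) (s := s) hw1 j) t0 a
  unfold FP.ce
  rw [e, e1]
  have e2 : (Bx h t0 a (cut D S I t T s w)).E g =
      (Pa h t0 a).E (fun u => ind (inBox (cut D S I t T s w) u) * g u) / (Pa h t0 a).Pr (inBox (cut D S I t T s w)) := by
    unfold Bx
    rw [FP.cond_E h2]
  rw [e2]
  field_simp

/-- mean over a box of a function of the points and of the label `c` -/
theorem Bx_lab {S : K → Finset β} (hS : ∀ j, (S j).Nonempty) (t : ℕ) (a : X) (c : K) (g : (K → β) → φ → ℝ) :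
    (Bx h t a S).E (fun w => g w.1 (w.2 c)) =
      (∑ y ∈ Fintype.piFinset S, ∑ F, D.kf t c a y F * g y F) / bsz S := by
  classical
  obtain ⟨w0, _⟩ := (Pa h t a).exists_p_ne
  have h1 : (Bx h t a S).E (fun w => g w.1 (w.2 c)) =
      ∑ F, (Bx h t a S).E (fun w => g w.1 F * ind (∀ l ∈ ({c} : Finset K), w.2 l = F)) := by
    rw [← FP.E_sum]
    refine (Bx h t a S).E_congr fun w _ => ?_
    rw [Finset.sum_eq_single (w.2 c)]
    · rw [ind_of (by intro l hl; rw [Finset.mem_singleton.1 hl]), mul_one]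
    · intro F _ hF
      rw [ind_not (fun hh => hF (hh c (Finset.mem_singleton_self c)).symm), mul_zero]
    · intro hh; exact absurd (mem_univ _) hh
  rw [h1]
  have h2 : ∀ F, (Bx h t a S).E (fun w => g w.1 F * ind (∀ l ∈ ({c} : Finset K), w.2 l = F)) =
      (∑ y ∈ Fintype.piFinset S, g y F * D.kf t c a y F) / bsz S := by
    intro F
    rw [Bx_labels h hS {c} t a (fun y => g y F) (fun _ => F)]
    simp only [Finset.prod_singleton]
  rw [Finset.sum_congr rfl fun F _ => h2 F, ← Finset.sum_div, Finset.sum_comm]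
  congr 1
  exact Finset.sum_congr rfl fun y _ => Finset.sum_congr rfl fun F _ => mul_comm _ _

/-- **the set of the vertex `c` does not matter** for functions of the points off `c` and of the label `c` -/
theorem Bx_off {S S' : K → Finset β} (hS : ∀ j, (S j).Nonempty) (hS' : ∀ j, (S' j).Nonempty) (t : ℕ) (a : X) (c : K)
    (hoff : ∀ j, j ≠ c → S j = S' j) (hcell : ∀ b ∈ S c, ∀ b' ∈ S' c, D.qb t b = D.qb t b')
    {g : (K → β) → φ → ℝ} (hg : ∀ y y' F, (∀ j, j ≠ c → y j = y' j) → g y F = g y' F) :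
    (Bx h t a S).E (fun w => g w.1 (w.2 c)) = (Bx h t a S').E (fun w => g w.1 (w.2 c)) := by
  classical
  rw [Bx_lab h hS, Bx_lab h hS']
  -- both sums are a product of the sum off `c` with the size at `c`
  obtain ⟨b0, hb0⟩ := hS c
  obtain ⟨b1, hb1⟩ := hS' c
  set G : (K → β) → ℝ := fun y => ∑ F, D.kf t c a y F * g y F with hG
  have key : ∀ (S0 : K → Finset β) (b : β), b ∈ S0 c → (∀ b' ∈ S0 c, D.qb t b' = D.qb t b) →
      (∑ y ∈ Fintype.piFinset S0, G y) = ((S0 c).card : ℝ) *
        ∑ y ∈ Fintype.piFinset (Function.update S0 c {b}), G y := by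
    intro S0 b hb hcb
    have h1 : (∑ y ∈ Fintype.piFinset S0, G y) =
        ∑ y ∈ Fintype.piFinset S0, G (Function.update y c b) := by
      refine Finset.sum_congr rfl fun y hy => ?_
      rw [Fintype.mem_piFinset] at hy
      rw [hG]
      refine Finset.sum_congr rfl fun F _ => ?_
      have e1 : g y F = g (Function.update y c b) F := by
        refine hg _ _ F fun j hj => ?_
        rw [Function.update_of_ne hj]
      have e2 : D.kf t c a y = D.kf t c a (Function.update y c b) := by
        refine D.dep t c a _ _ (fun j hj => by rw [Function.update_of_ne hj]) ?_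
        rw [Function.update_self]
        exact hcb _ (hy c)
      rw [e1, e2]
    rw [h1]
    rw [← Finset.sum_fiberwise_of_maps_to (s := Fintype.piFinset S0) (t := Fintype.piFinset (Function.update S0 c {b}))
      (g := fun y => Function.update y c b)]
    · rw [Finset.mul_sum]
      refine Finset.sum_congr rfl fun z hz => ?_
      rw [Finset.sum_congr rfl (fun y hy => congrArg G (Finset.mem_filter.1 hy).2), Finset.sum_const, nsmul_eq_mul]
      congr 1
      -- the fibre has the size of `S0 c`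
      rw [Fintype.mem_piFinset] at hz
      have h2 : ((Fintype.piFinset S0).filter fun y => Function.update y c b = z) =
          (S0 c).image (fun b' => Function.update z c b') := by
        ext y
        rw [Finset.mem_filter, Finset.mem_image, Fintype.mem_piFinset]
        constructor
        · rintro ⟨hy, rfl⟩
          refine ⟨y c, hy c, ?_⟩
          rw [Function.update_idem, Function.update_eq_self]
        · rintro ⟨b', hb', rfl⟩
          refine ⟨fun j => ?_, ?_⟩
          · by_cases hj : j = c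
            · subst hj; rw [Function.update_self]; exact hb'
            · rw [Function.update_of_ne hj]
              have := hz j
              rw [Function.update_of_ne hj] at this
              exact this
          · rw [Function.update_idem]
            have := hz c
            rw [Function.update_self, Finset.mem_singleton] at this
            rw [← this, Function.update_eq_self]
      have h3 : Set.InjOn (fun b' => Function.update z c b') (S0 c : Set β) := by
        intro b2 _ b3 _ hh
        have := congrFun hh c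
        simpa using this
      rw [h2, Finset.card_image_of_injOn h3]
    · intro y hy
      rw [Fintype.mem_piFinset] at hy ⊢
      intro j
      by_cases hj : j = c
      · subst hj; rw [Function.update_self, Function.update_self]; exact Finset.mem_singleton_self b
      · rw [Function.update_of_ne hj, Function.update_of_ne hj]; exact hy j
  have hb01 : ∀ b' ∈ S c, D.qb t b' = D.qb t b0 := fun b' hb' => (hcell b' hb' b1 hb1).trans (hcell b0 hb0 b1 hb1).symm
  have hb11 : ∀ b' ∈ S' c, D.qb t b' = D.qb t b1 := fun b' hb' => (hcell b0 hb0 b' hb').symm.trans (hcell b0 hb0 b1 hb1)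
  rw [key S b0 hb0 hb01, key S' b1 hb1 hb11]
  have e3 : (∑ y ∈ Fintype.piFinset (Function.update S c {b0}), G y) =
      ∑ y ∈ Fintype.piFinset (Function.update S' c {b1}), G y := by
    refine Finset.sum_bij' (fun y _ => Function.update y c b1) (fun y _ => Function.update y c b0) ?_ ?_ ?_ ?_ ?_
    · intro y hy
      rw [Fintype.mem_piFinset] at hy ⊢
      intro j
      by_cases hj : j = c
      · subst hj; rw [Function.update_self, Function.update_self]; exact Finset.mem_singleton_self _
      · have := hy j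
        rw [Function.update_of_ne hj] at this ⊢
        rw [Function.update_of_ne hj, ← hoff j hj]; exact this
    · intro y hy
      rw [Fintype.mem_piFinset] at hy ⊢
      intro j
      by_cases hj : j = c
      · subst hj; rw [Function.update_self, Function.update_self]; exact Finset.mem_singleton_self _
      · have := hy j
        rw [Function.update_of_ne hj] at this ⊢
        rw [Function.update_of_ne hj, hoff j hj]; exact this
    · intro y hy
      rw [Fintype.mem_piFinset] at hy
      have := hy c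
      rw [Function.update_self, Finset.mem_singleton] at this
      show Function.update (Function.update y c b1) c b0 = y
      rw [Function.update_idem, ← this, Function.update_eq_self]
    · intro y hy
      rw [Fintype.mem_piFinset] at hy
      have := hy c
      rw [Function.update_self, Finset.mem_singleton] at this
      show Function.update (Function.update y c b0) c b1 = y
      rw [Function.update_idem, ← this, Function.update_eq_self]
    · intro y hy
      rw [Fintype.mem_piFinset] at hy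
      have hyc := hy c
      rw [Function.update_self, Finset.mem_singleton] at hyc
      rw [hG]
      refine Finset.sum_congr rfl fun F _ => ?_
      have e1 : g y F = g (Function.update y c b1) F := hg _ _ F fun j hj => by rw [Function.update_of_ne hj]
      have e2 : D.kf t c a y = D.kf t c a (Function.update y c b1) := by
        refine D.dep t c a _ _ (fun j hj => by rw [Function.update_of_ne hj]) ?_
        rw [Function.update_self, hyc]
        exact hcell b0 hb0 b1 hb1
      rw [e1, e2]
  rw [e3]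
  have e4 : ∀ S0 : K → Finset β, bsz S0 = ((S0 c).card : ℝ) * ∏ j ∈ univ.erase c, ((S0 j).card : ℝ) := fun S0 =>
    (Finset.mul_prod_erase univ (fun j => ((S0 j).card : ℝ)) (mem_univ c)).symm
  rw [e4 S, e4 S']
  have e5 : ∏ j ∈ univ.erase c, ((S j).card : ℝ) = ∏ j ∈ univ.erase c, ((S' j).card : ℝ) := by
    refine Finset.prod_congr rfl fun j hj => ?_
    rw [hoff j (Finset.ne_of_mem_erase hj)]
  rw [e5]
  have p1 : (0 : ℝ) < ((S c).card : ℝ) := by exact_mod_cast (hS c).card_pos
  have p2 : (0 : ℝ) < ((S' c).card : ℝ) := by exact_mod_cast (hS' c).card_pos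
  rw [mul_div_mul_left _ _ p1.ne', mul_div_mul_left _ _ p2.ne']

/-! ## the classes -/

private theorem mcB {t : ℕ} {b b' : β} : b' ∈ D.cB t b ↔ D.qb t b' = D.qb t b := by
  simp only [HD.cB, Finset.mem_filter, Finset.mem_univ, true_and]

open Classical in
/-- the box of a class of `K0`: exact points in `K0`, cells of the time `t` elsewhere -/
noncomputable def bxs (D : HD K X β γ φ) (t : ℕ) (K0 : Finset K) (y : K → β) (j : K) : Finset β :=
  if j ∈ K0 then {y j} else D.cB t (y j)

theorem bxs_ne (t : ℕ) (K0 : Finset K) (y : K → β) (j : K) : (bxs D t K0 y j).Nonempty := by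
  classical
  refine ⟨y j, ?_⟩
  unfold bxs
  split_ifs
  · exact Finset.mem_singleton_self _
  · exact mcB.2 rfl

theorem inBox_bxs {t : ℕ} {K0 : Finset K} {y : K → β} {u : (K → β) × (K → φ)} :
    inBox (bxs D t K0 y) u ↔ (∀ j ∈ K0, u.1 j = y j) ∧ ∀ j, D.qb t (u.1 j) = D.qb t (y j) := by
  classical
  unfold inBox bxs
  constructor
  · intro hh
    refine ⟨fun j hj => ?_, fun j => ?_⟩
    · have := hh j
      rw [if_pos hj] at this
      exact Finset.mem_singleton.1 this
    · have := hh j
      by_cases hj : j ∈ K0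
      · rw [if_pos hj] at this
        rw [Finset.mem_singleton.1 this]
      · rw [if_neg hj] at this
        exact mcB.1 this
  · rintro ⟨h1, h2⟩ j
    by_cases hj : j ∈ K0
    · rw [if_pos hj]; exact Finset.mem_singleton.2 (h1 j hj)
    · rw [if_neg hj]; exact mcB.2 (h2 j)

theorem bxs_cell (K0 : Finset K) (y : K → β) (t : ℕ) : InCell D t (bxs D t K0 y) := by
  classical
  intro j b hb b' hb'
  unfold bxs at hb hb'
  by_cases hj : j ∈ K0
  · rw [if_pos hj] at hb hb'
    rw [Finset.mem_singleton.1 hb, Finset.mem_singleton.1 hb']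
  · rw [if_neg hj] at hb hb'
    rw [mcB.1 hb, mcB.1 hb']

/-- **the conditional mean in a class given `(x, y_K0, node)` is the mean over the box** -/
theorem cls_box {t : ℕ} {K0 : Finset K} {V : Pt K X β φ → Prop} (hV : Fac (fun w => (w.1, BB D t K0 w)) V)
    (hV0 : (D.P h t).Pr V ≠ 0) (f : Pt K X β φ → ℝ) {w : Pt K X β φ} (hw : ((D.P h t).cond V).p w ≠ 0) :
    ((D.P h t).cond V).ce (fun v => (v.1, BB D t K0 v)) f w = (Bx h t w.1 (bxs D t K0 w.2.1)).E fun u => f (w.1, u) := by
  classical
  have hVw : V w := (cond_supp hV0 hw).1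
  have hX : (Fintype.card X : ℝ) ≠ 0 := by exact_mod_cast Fintype.card_ne_zero
  have key : ∀ g : Pt K X β φ → ℝ,
      ((D.P h t).cond V).E (fun v => ind ((v.1, BB D t K0 v) = (w.1, BB D t K0 w)) * g v) =
        (Pa h t w.1).E (fun u => ind (inBox (bxs D t K0 w.2.1) u) * g (w.1, u)) / (Fintype.card X * (D.P h t).Pr V) := by
    intro g
    rw [FP.cond_E hV0, ← div_div]
    congr 1
    rw [E_Pa, FP.unif_E]
    congr 1
    rw [Finset.sum_eq_single w.1]
    · refine (Pa h t w.1).E_congr fun u _ => ?_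
      rw [← mul_assoc, ← ind_and]
      congr 2
      refine propext ⟨fun hh => ?_, fun hh => ?_⟩
      · have h2 := hh.2
        simp only [Prod.mk.injEq, BB_eq] at h2
        exact inBox_bxs.2 ⟨h2.2.1, h2.2.2.2⟩
      · have h2 := inBox_bxs.1 hh
        have h3 : ((w.1, BB D t K0 (w.1, u)) : X × ((K → Option β) × (γ × (K → γ)))) = (w.1, BB D t K0 w) := by
          simp only [Prod.mk.injEq, BB_eq]
          exact ⟨trivial, h2.1, trivial, h2.2⟩
        exact ⟨by rw [hV (w.1, u) w h3]; exact hVw, h3⟩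
    · intro a _ ha
      refine ((Pa h t a).E_congr fun u _ => ?_).trans ((Pa h t a).E_const 0)
      rw [ind_not (fun hh => ha (congrArg Prod.fst hh)), zero_mul, mul_zero]
    · intro hh; exact absurd (mem_univ _) hh
  have h0 := Pr_box_ne h (fun j => bxs_ne (D := D) t K0 w.2.1 j) t w.1
  have hden : ((D.P h t).cond V).m (fun v => (v.1, BB D t K0 v)) w =
      (Pa h t w.1).Pr (inBox (bxs D t K0 w.2.1)) / (Fintype.card X * (D.P h t).Pr V) := by
    have := key fun _ => 1
    simp only [mul_one] at this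
    exact this
  unfold FP.ce
  rw [key f, hden]
  unfold Bx
  rw [FP.cond_E h0, div_div_div_cancel_right₀ (mul_ne_zero hX hV0)]

/-- the same with coins -/
theorem cls_box_coin {Th : Type*} [Fintype Th] (R : FP Th) {t : ℕ} {K0 : Finset K} {V : Pt K X β φ → Prop}
    (hV : Fac (fun w => (w.1, BB D t K0 w)) V) (hV0 : (D.P h t).Pr V ≠ 0) (f : Pt K X β φ × Th → ℝ)
    {w : Pt K X β φ × Th} (hw : (FP.pr ((D.P h t).cond V) R).p w ≠ 0) :
    (FP.pr ((D.P h t).cond V) R).ce (fun v => ((v.1.1, BB D t K0 v.1), v.2)) f w =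
      (Bx h t w.1.1 (bxs D t K0 w.1.2.1)).E fun u => f ((w.1.1, u), w.2) := by
  classical
  obtain ⟨hw1, hw2⟩ := (pr_supp _ R).1 hw
  rw [← cls_box h hV hV0 (fun v => f (v, w.2)) hw1]
  have key : ∀ g : Pt K X β φ × Th → ℝ,
      (FP.pr ((D.P h t).cond V) R).E (fun v => ind (((v.1.1, BB D t K0 v.1), v.2) = ((w.1.1, BB D t K0 w.1), w.2)) * g v) =
        ((D.P h t).cond V).E (fun v => ind ((v.1, BB D t K0 v) = (w.1.1, BB D t K0 w.1)) * g (v, w.2)) * R.p w.2 := by
    intro g
    rw [FP.pr_E, ← FP.E_mul_const]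
    refine ((D.P h t).cond V).E_congr fun v _ => ?_
    unfold FP.E
    rw [Finset.sum_eq_single w.2]
    · have : ind ((((v.1, BB D t K0 v), w.2) : (X × ((K → Option β) × (γ × (K → γ)))) × Th) =
          ((w.1.1, BB D t K0 w.1), w.2)) = ind ((v.1, BB D t K0 v) = (w.1.1, BB D t K0 w.1)) :=
        congrArg ind (propext ⟨fun hh => congrArg Prod.fst hh, fun hh => by rw [hh]⟩)
      show R.p w.2 * (ind ((((v.1, BB D t K0 v), w.2) : (X × ((K → Option β) × (γ × (K → γ)))) × Th) =
          ((w.1.1, BB D t K0 w.1), w.2)) * g (v, w.2)) = _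
      rw [this]
      ring
    · intro t' _ ht
      show R.p t' * (ind ((((v.1, BB D t K0 v), t') : (X × ((K → Option β) × (γ × (K → γ)))) × Th) =
          ((w.1.1, BB D t K0 w.1), w.2)) * g (v, t')) = 0
      rw [ind_not (fun hh => ht (congrArg Prod.snd hh)), zero_mul, mul_zero]
    · intro hh; exact absurd (mem_univ _) hh
  have hden : (FP.pr ((D.P h t).cond V) R).m (fun v => ((v.1.1, BB D t K0 v.1), v.2)) w =
      ((D.P h t).cond V).m (fun v => (v.1, BB D t K0 v)) w.1 * R.p w.2 := by
    have := key fun _ => 1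
    simp only [mul_one] at this
    exact this
  unfold FP.ce
  rw [key f, hden, mul_div_mul_right _ _ hw2]

end box

/-! ## normalisation relative to an older law -/

section tilt

variable {Om Om0 : Type*} [Fintype Om] [Fintype Om0] {Q : FP Om} {P0 : FP Om0} {κ ι ι0 : Type*}

/-- density of the letter `X0 ∘ π` given `Z` under `Q`, relative to the old law `P0 (X0 | Z0)` -/
noncomputable def dens2 (Q : FP Om) (P0 : FP Om0) (π : Om → Om0) (X0 : Om0 → κ) (Z0 : Om0 → ι0) (Z : Om → ι) (w : Om) : ℝ :=
  Real.log (Q.m (fun v => (X0 (π v), Z v)) w / Q.m Z w / (P0.m (fun v => (X0 v, Z0 v)) (π w) / P0.m Z0 (π w)))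

theorem dens2_fac {π : Om → Om0} {X0 : Om0 → κ} {Z0 : Om0 → ι0} {Z : Om → ι} (hZ : Fac Z (fun w => Z0 (π w))) :
    Fac (fun w => (X0 (π w), Z w)) (dens2 Q P0 π X0 Z0 Z) := by
  intro v w hvw
  have h1 : Z v = Z w := congrArg Prod.snd hvw
  have h2 : X0 (π v) = X0 (π w) := congrArg Prod.fst hvw
  have h3 : Z0 (π v) = Z0 (π w) := hZ v w h1
  unfold dens2
  rw [Q.Fac_m (fun v => (X0 (π v), Z v)) v w hvw, Q.Fac_m Z v w h1, P0.Fac_m Z0 _ _ h3,
    P0.Fac_m (fun v => (X0 v, Z0 v)) (π v) (π w) (Prod.ext h2 h3)]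

/-- **normalisation relative to an older law** -/
theorem ce_tilt2 {π : Om → Om0} (hac : ∀ w, Q.p w ≠ 0 → P0.p (π w) ≠ 0) {X0 : Om0 → κ} {Z0 : Om0 → ι0} {Z : Om → ι}
    (hZ : Fac Z (fun w => Z0 (π w))) {e : Om0 → ℝ} (he : Fac (fun w => (X0 w, Z0 w)) e) (h0 : ∀ w, 0 ≤ e w) {w : Om}
    (hw : Q.p w ≠ 0) :
    Q.ce Z (fun v => e (π v) * Real.exp (- dens2 Q P0 π X0 Z0 Z v)) w ≤ P0.ce Z0 e (π w) := by
  classical
  have hQ := Q.m_pos Z hw
  have hP := P0.m_pos Z0 (hac w hw)
  -- values of the letter
  set sX : Finset κ := (univ.filter fun v : Om => Q.p v ≠ 0 ∧ Z v = Z w).image fun v => X0 (π v) with hsX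
  have h1 : Q.E (fun v => ind (Z v = Z w) * (e (π v) * Real.exp (- dens2 Q P0 π X0 Z0 Z v))) =
      ∑ x ∈ sX, Q.E (fun v => ind (X0 (π v) = x ∧ Z v = Z w) * (e (π v) * Real.exp (- dens2 Q P0 π X0 Z0 Z v))) := by
    rw [← FP.E_sum]
    refine Q.E_congr fun v hv => ?_
    by_cases hz : Z v = Z w
    · rw [Finset.sum_eq_single (X0 (π v))]
      · rw [ind_of hz, ind_of ⟨rfl, hz⟩]
      · intro x _ hx
        rw [ind_not (fun hh => hx hh.1.symm), zero_mul]
      · intro hh
        exact absurd (Finset.mem_image.2 ⟨v, Finset.mem_filter.2 ⟨mem_univ _, hv, hz⟩, rfl⟩) hh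
    · rw [ind_not hz, zero_mul]
      refine (Finset.sum_eq_zero fun x _ => ?_).symm
      rw [ind_not (fun hh => hz hh.2), zero_mul]
  have h2 : ∀ x ∈ sX, Q.E (fun v => ind (X0 (π v) = x ∧ Z v = Z w) * (e (π v) * Real.exp (- dens2 Q P0 π X0 Z0 Z v))) =
      Q.m Z w / P0.m Z0 (π w) * P0.E (fun v => ind (X0 v = x ∧ Z0 v = Z0 (π w)) * e v) := by
    intro x hx
    obtain ⟨u, hu, hux⟩ := Finset.mem_image.1 hx
    obtain ⟨-, hu1, hu2⟩ := Finset.mem_filter.1 hu
    have hZ0u : Z0 (π u) = Z0 (π w) := hZ u w hu2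
    have a := Q.m_pos (fun v => (X0 (π v), Z v)) hu1
    have b := Q.m_pos Z hu1
    have c := P0.m_pos (fun v => (X0 v, Z0 v)) (hac u hu1)
    have d := P0.m_pos Z0 (hac u hu1)
    have e1 : Real.exp (- dens2 Q P0 π X0 Z0 Z u) =
        P0.m (fun v => (X0 v, Z0 v)) (π u) / P0.m Z0 (π u) / (Q.m (fun v => (X0 (π v), Z v)) u / Q.m Z u) := by
      unfold dens2
      rw [← Real.log_inv, inv_div, Real.exp_log (div_pos (div_pos c d) (div_pos a b))]
    have e2 : Q.E (fun v => ind (X0 (π v) = x ∧ Z v = Z w) * (e (π v) * Real.exp (- dens2 Q P0 π X0 Z0 Z v))) =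
        Q.E (fun v => ind ((X0 (π v), Z v) = (X0 (π u), Z u)) * (e (π u) * Real.exp (- dens2 Q P0 π X0 Z0 Z u))) := by
      refine Q.E_congr fun v _ => ?_
      by_cases hv : (X0 (π v), Z v) = (X0 (π u), Z u)
      · have hv1 : X0 (π v) = X0 (π u) := congrArg Prod.fst hv
        have hv2 : Z v = Z u := congrArg Prod.snd hv
        rw [ind_of hv, ind_of ⟨hv1.trans hux, hv2.trans hu2⟩, dens2_fac (Q := Q) (P0 := P0) (X0 := X0) hZ v u hv,
          he (π v) (π u) (Prod.ext hv1 (hZ v u hv2))]
      · rw [ind_not hv, ind_not, zero_mul, zero_mul]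
        rintro ⟨p, q⟩
        exact hv (by rw [p, q, hux, hu2])
    have e3 : P0.E (fun v => ind (X0 v = x ∧ Z0 v = Z0 (π w)) * e v) = P0.m (fun v => (X0 v, Z0 v)) (π u) * e (π u) := by
      unfold FP.m
      rw [← FP.E_mul_const]
      refine P0.E_congr fun v _ => ?_
      by_cases hv : (X0 v, Z0 v) = (X0 (π u), Z0 (π u))
      · have hv1 : X0 v = X0 (π u) := congrArg Prod.fst hv
        have hv2 : Z0 v = Z0 (π u) := congrArg Prod.snd hv
        rw [ind_of hv, ind_of ⟨hv1.trans hux, hv2.trans hZ0u⟩, he v (π u) (Prod.ext hv1 hv2)]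
      · rw [ind_not hv, ind_not, zero_mul, zero_mul]
        rintro ⟨p, q⟩
        exact hv (by rw [p, q, hux, hZ0u])
    rw [e2, FP.E_mul_const, e3, e1]
    have e4 : Q.E (fun v => ind ((X0 (π v), Z v) = (X0 (π u), Z u))) = Q.m (fun v => (X0 (π v), Z v)) u := rfl
    rw [e4, Q.Fac_m Z u w hu2, P0.Fac_m Z0 (π u) (π w) hZ0u]
    field_simp
  unfold FP.ce
  rw [h1, Finset.sum_congr rfl h2, ← Finset.mul_sum, div_le_div_iff₀ hQ hP]
  have h3 : ∑ x ∈ sX, P0.E (fun v => ind (X0 v = x ∧ Z0 v = Z0 (π w)) * e v) ≤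
      P0.E (fun v => ind (Z0 v = Z0 (π w)) * e v) := by
    rw [← FP.E_sum]
    refine P0.E_mono fun v _ => ?_
    by_cases hz : Z0 v = Z0 (π w)
    · rw [ind_of hz, one_mul]
      by_cases hx : X0 v ∈ sX
      · rw [Finset.sum_eq_single (X0 v)]
        · rw [ind_of ⟨rfl, hz⟩, one_mul]
        · intro x _ hxx
          rw [ind_not (fun hh => hxx hh.1.symm), zero_mul]
        · intro hh; exact absurd hx hh
      · rw [Finset.sum_eq_zero]
        · exact h0 v
        · intro x hx'
          rw [ind_not (fun hh : X0 v = x ∧ Z0 v = Z0 (π w) => hx (hh.1 ▸ hx')), zero_mul]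
    · rw [ind_not hz, zero_mul]
      refine le_of_eq (Finset.sum_eq_zero fun x _ => ?_)
      rw [ind_not (fun hh => hz hh.2), zero_mul]
  have h4 : Q.m Z w / P0.m Z0 (π w) * (∑ x ∈ sX, P0.E (fun v => ind (X0 v = x ∧ Z0 v = Z0 (π w)) * e v)) *
      P0.m Z0 (π w) = Q.m Z w * ∑ x ∈ sX, P0.E (fun v => ind (X0 v = x ∧ Z0 v = Z0 (π w)) * e v) := by
    field_simp
  rw [h4]
  have := mul_le_mul_of_nonneg_left h3 hQ.le
  linarith

/-- the union over the typical values -/
theorem typ_union (P : FP Om) (T : Om → κ) {E : Om → Prop} {p B : ℝ} (hp : 0 < p) (hB0 : 0 ≤ B)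
    (hB : ∀ w, P.p w ≠ 0 → p ≤ P.m T w → P.Pr (fun v => E v ∧ T v = T w) ≤ B) :
    P.Pr (fun w => E w ∧ p ≤ P.m T w) ≤ B / p := by
  classical
  have h1 : P.Pr (fun w => E w ∧ p ≤ P.m T w) ≤
      P.E (fun w => P.E (fun v => ind (T v = T w) / P.m T v) * ind (E w ∧ p ≤ P.m T w)) := by
    refine le_of_eq ?_
    refine P.E_congr fun w hw => ?_
    have : P.E (fun v => ind (T v = T w) / P.m T v) = 1 := by
      rw [← E_fib_one P T hw]
      exact P.E_congr fun v _ => by rw [show (T v = T w) = (T w = T v) from propext eq_comm]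
    rw [this, one_mul]
  refine h1.trans ?_
  have h2 : P.E (fun w => P.E (fun v => ind (T v = T w) / P.m T v) * ind (E w ∧ p ≤ P.m T w)) =
      P.E (fun v => P.E (fun w => ind (T v = T w) * ind (E w ∧ p ≤ P.m T w)) / P.m T v) := by
    have e : ∀ w, P.E (fun v => ind (T v = T w) / P.m T v) * ind (E w ∧ p ≤ P.m T w) =
        P.E (fun v => ind (T v = T w) * ind (E w ∧ p ≤ P.m T w) / P.m T v) := by
      intro w
      rw [← FP.E_mul_const]
      exact P.E_congr fun v _ => by ring
    simp only [e]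
    rw [P.E_swap]
    exact P.E_congr fun v _ => by rw [← FP.E_div_const]
  rw [h2]
  refine P.E_le_const fun v hv => ?_
  by_cases hv2 : p ≤ P.m T v
  · have hpos := P.m_pos T hv
    rw [div_le_div_iff₀ hpos hp]
    have h3 : P.E (fun w => ind (T v = T w) * ind (E w ∧ p ≤ P.m T w)) ≤ B := by
      refine le_trans (P.E_mono fun w _ => ?_) (hB v hv hv2)
      rw [← ind_and]
      exact ind_mono fun hh => ⟨hh.2.1, hh.1.symm⟩
    have h4 : 0 ≤ P.E (fun w => ind (T v = T w) * ind (E w ∧ p ≤ P.m T w)) :=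
      P.E_nonneg fun w _ => mul_nonneg (ind_nonneg _) (ind_nonneg _)
    calc _ ≤ B * p := mul_le_mul_of_nonneg_right h3 hp.le
      _ ≤ B * P.m T v := mul_le_mul_of_nonneg_left hv2 (h4.trans h3)
  · have h3 : P.E (fun w => ind (T v = T w) * ind (E w ∧ p ≤ P.m T w)) = 0 := by
      refine (P.E_congr fun w _ => ?_).trans (P.E_const 0)
      by_cases hT : T v = T w
      · rw [ind_not (p := (E w ∧ p ≤ P.m T w)) (fun hh => hv2 (by rw [P.Fac_m T v w hT]; exact hh.2)), mul_zero]
      · rw [ind_not hT, zero_mul]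
    rw [h3, zero_div]
    exact div_nonneg hB0 hp.le

end tilt

/-! ## the payment -/

section pay

variable {K X β γ φ υ ν : Type} [Fintype K] [DecidableEq K] [Fintype X] [Fintype β] [Fintype φ] [Nonempty X] [Nonempty β]
  {D : HD K X β γ φ} {al : ℝ} {h : D.Thick al} {N : Finset K → ℝ} {S : Finset (Finset K)} {Th : Type*} [Fintype Th]

/-- additions with coins which are functions of the hidden point, the points of the index set and the node -/
def DepC (D : HD K X β γ φ) (t : ℕ) (G : Finset K → Pt K X β φ × Th → ν) : Prop :=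
  ∀ θ J (v w : Pt K X β φ), v.1 = w.1 → (∀ j ∈ J, v.2.1 j = w.2.1 j) → (∀ j, D.qb t (v.2.1 j) = D.qb t (w.2.1 j)) →
    G J (v, θ) = G J (w, θ)

/-- an event of the hidden point, the points of `K0`, the node, and the coins -/
def EvC (D : HD K X β γ φ) (t : ℕ) (K0 : Finset K) (E : Pt K X β φ × Th → Prop) : Prop :=
  Fac (fun w => ((w.1.1, BB D t K0 w.1), w.2)) E

/-- **PAYMENT AT THE FINAL CELL** : `V` = class of `K0`, `R` = coins, `G` = hardwired additions, `psi r` normalised given the
lower labels, the points of `J0` and the node for every value `r` of the additions below `J0` -/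
theorem pay_rare {U : Finset K → X → (K → β) → υ} {t : ℕ}
    (hU : ∀ I x y y', (∀ j ∈ I, y j = y' j) → (∀ j, D.qb t (y j) = D.qb t (y' j)) → U I x y = U I x y')
    (hs : SatA (D.P h t) (BB D t) N S (LL U) (Dep D t)) (hN : ∀ J ∈ S, 0 ≤ N J) {K0 J0 : Finset K}
    (hK : ∀ l, ¬ univ.erase l ⊆ K0) (hKS : K0 ∈ S) (hNK : 0 < N K0) (hJ0 : J0 ∈ above S K0)
    {V : Pt K X β φ → Prop} (hV : Fac (fun w => (le (LL U) K0 w, BB D t K0 w)) V) (hV0 : (D.P h t).Pr V ≠ 0)
    (R : FP Th) {G : Finset K → Pt K X β φ × Th → ν} (hGd : DepC D t G) (hG : On K0 G)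
    {psi : (Finset K → Option ν) → Pt K X β φ → ℝ}
    (hpsi : ∀ r, Fac (fun w => (LL U J0 w, lo (LL U) J0 w, BB D t J0 w)) (psi r))
    (hone : ∀ w r, ((D.P h t).cond V).p w ≠ 0 →
      ((D.P h t).cond V).ce (fun v => (lo (LL U) J0 v, BB D t J0 v)) (fun v => Real.exp (psi r v)) w ≤ 1)
    {E : Pt K X β φ × Th → Prop} (hE : EvC D t K0 E) {lam c : ℝ}
    (hl : ∀ w, (FP.pr ((D.P h t).cond V) R).p w ≠ 0 → E w →
      lam ≤ (Bx h t w.1.1 (bxs D t K0 w.1.2.1)).E fun u => psi (lo G J0 ((w.1.1, u), w.2)) (w.1.1, u))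
    (hc : (FP.pr ((D.P h t).cond V) R).Pr E ≠ 0 →
      ∑ J ∈ S, N J * cost ((FP.pr ((D.P h t).cond V) R).cond E) (fun I w => BB D t I w.1) (fun I w => LL U I w.1) G J ≤ c) :
    (FP.pr ((D.P h t).cond V) R).Pr E ≤ Real.exp (1 - (N J0 * lam - 2 * c) / (2 * N K0)) := by
  classical
  set Q := (D.P h t).cond V with hQ
  have hcls := hs.cls hU hK hV hV0
  have hK0J : K0 ⊆ J0 := (mem_above.1 hJ0).2.1
  have hV' : Fac (fun w => (w.1, BB D t K0 w)) V := by
    intro v w hvw
    have hvw' : (v.1, BB D t K0 v) = (w.1, BB D t K0 w) := hvw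
    have h1 : v.1 = w.1 := (Prod.mk.inj hvw').1
    have h2 : BB D t K0 v = BB D t K0 w := (Prod.mk.inj hvw').2
    refine hV v w ?_
    simp only [Prod.mk.injEq, le_eq]
    refine ⟨fun I hI => ?_, h2⟩
    rw [BB_eq] at h2
    rw [LL_eq]
    refine ⟨?_, fun l hl => ?_⟩
    · rw [h1]
      exact hU I w.1 v.2.1 w.2.1 (fun j hj => h2.1 j (hI hj)) h2.2.2
    · exact absurd (hl ▸ hI : univ.erase l ⊆ K0) (hK l)
  refine row_rare (P := FP.pr Q R) (B := fun I w => BB D t I w.1)
    (L := fun I w => LL U I w.1) (S := S) (N := N) (K0 := K0) (J0 := J0) (E := E)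
    (G := G) (A := fun w => ((w.1.1, BB D t K0 w.1), w.2)) (lam := lam) (c := c)
    (psi := fun r v => psi r v.1) hG hN hKS hNK hJ0 ?_ ?_ hE ?_ ?_ hc
  · intro r v w hvw
    refine hpsi r v.1 w.1 ?_
    simp only [Prod.mk.injEq] at hvw ⊢
    refine ⟨hvw.1, ?_, hvw.2.2⟩
    rw [lo_eq] at hvw ⊢
    exact hvw.2.1
  · intro w r hw
    have hw1 := ((pr_supp Q R).1 hw).1
    have e1 : (fun v : Pt K X β φ × Th => (lo (fun I (w : Pt K X β φ × Th) => LL U I w.1)
        J0 v, BB D t J0 v.1)) = fun v => (lo (LL U) J0 v.1, BB D t J0 v.1) := rfl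
    show (FP.pr Q R).ce (fun v : Pt K X β φ × Th => (lo (fun I (w : Pt K X β φ × Th) => LL U I w.1)
        J0 v, BB D t J0 v.1)) (fun v => Real.exp (psi r v.1)) w ≤ 1
    rw [e1]
    have := lift_ce Q R (fun v => (lo (LL U) J0 v, BB D t J0 v)) (fun v => Real.exp (psi r v)) w
    rw [this]
    exact hone w.1 r hw1
  · intro w hw hEw
    refine (hl w hw hEw).trans (le_of_eq ?_)
    exact (cls_box_coin h R hV' hV0 (fun v => psi (lo G J0 v) v.1) hw).symm
  · intro _
    refine hcls.coin hN (cutK K0 E G) ?_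
    intro θ
    constructor
    · intro J a b h1 h2 h3
      show cutK K0 E G J (a, θ) = cutK K0 E G J (b, θ)
      by_cases hKJ : K0 ⊆ J
      · have eE : E (a, θ) = E (b, θ) := by
          refine hE (a, θ) (b, θ) ?_
          show ((a.1, BB D t K0 a), θ) = ((b.1, BB D t K0 b), θ)
          have : BB D t K0 a = BB D t K0 b := by
            rw [BB_eq]
            exact ⟨fun j hj => h2 j (hKJ hj), by rw [h1], h3⟩
          rw [h1, this]
        by_cases hEa : E (a, θ)
        · have hEb : E (b, θ) := by rw [← eE]; exact hEa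
          rw [cutK_in (w := (a, θ)) hKJ hEa, cutK_in (w := (b, θ)) hKJ hEb, hGd θ J a b h1 h2 h3]
        · have hEb : ¬ E (b, θ) := by rw [← eE]; exact hEa
          rw [cutK_off (w := (a, θ)) hEa, cutK_off (w := (b, θ)) hEb]
      · rw [cutK_out hKJ, cutK_out hKJ]
    · intro J hJ a b
      show cutK K0 E G J (a, θ) = cutK K0 E G J (b, θ)
      rw [cutK_out hJ, cutK_out hJ]

end pay

end Pool.Agent.GMH
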