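import Pool.Agent.GMH.ConA
import Pool.Agent.GMH.RowA

/-!
# GMH.EndT3: the relative potential of the tops over the thin labels at one time, `|K| = 3` (helper88, plan helper12)

* `ce_exp_sp_le` : `P(X | Z0) / P(X | Z)` has conditional mean at most one given `Z`; `E_exp_neg_iR` : `E exp (-iR) ≤ 1`;
* `negP_le` : `E exp (-f) ≤ 1` gives `E f⁻ ≤ sqrt (2 E f)`; `E_ind_iR_le` : for EVERY event `a`,
  `E ind a iR ≤ MR + sqrt (2 MR)`; `MA_le`, `MA_cls_le` : the potential on alive points at one time;
* `MR3` : `MR (≠ univ) pth = ∑_l I(top l; thin {l} | below) + I(top j; top i | thin) + I(top k; tops i, j | thin)`, exact;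
  `endT3` : the same for `Mt`; `endT3_le`, `MA3_le` : with bounds.
-/

set_option autoImplicit false
set_option linter.unusedSectionVars false

namespace Pool.Agent.GMH

open Finset Pool.Agent.PWZ Pool.Agent.M3 Pool.Agent.GM Pool.Agent.GM.Harm

/-! ## negative parts -/

section neg

variable {Om : Type*} [Fintype Om] (P : FP Om) {κ ι ι' : Type*}

/-- the negative part of a function with `E exp (-f) ≤ 1` -/
theorem negP_le {f : Om → ℝ} (hf : P.E (fun w => Real.exp (-f w)) ≤ 1) :
    P.E (fun w => max (-f w) 0) ≤ Real.sqrt (2 * P.E f) := by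
  have h1 : ∀ x : ℝ, 1 - x + max (-x) 0 ^ 2 / 2 ≤ Real.exp (-x) := by
    intro x
    rcases le_total x 0 with hx | hx
    · rw [max_eq_left (by linarith)]
      have := Real.quadratic_le_exp_of_nonneg (x := -x) (by linarith)
      linarith
    · rw [max_eq_right (by linarith)]
      have := Real.add_one_le_exp (-x)
      linarith
  have h2 : P.E (fun w => 1 - f w + max (-f w) 0 ^ 2 / 2) ≤ 1 :=
    (P.E_mono fun w _ => h1 (f w)).trans hf
  have h3 : P.E (fun w => 1 - f w + max (-f w) 0 ^ 2 / 2) = 1 - P.E f + P.E (fun w => max (-f w) 0 ^ 2) / 2 := by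
    rw [P.E_add (fun w => 1 - f w), P.E_sub (fun _ => (1 : ℝ)) f, P.E_const, P.E_div_const]
  refine Real.le_sqrt_of_sq_le ((P.sq_E_le _).trans ?_)
  linarith

/-- the mean on an event -/
theorem E_ind_le_of_exp {f : Om → ℝ} (hf : P.E (fun w => Real.exp (-f w)) ≤ 1) (a : Om → Prop) :
    P.E (fun w => ind (a w) * f w) ≤ P.E f + Real.sqrt (2 * P.E f) := by
  have h1 := negP_le P hf
  have h2 : P.E (fun w => ind (a w) * f w) ≤ P.E (fun w => f w + max (-f w) 0) := by
    refine P.E_mono fun w _ => ?_
    by_cases ha : a w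
    · rw [ind_of ha, one_mul]
      have := le_max_right (-f w) 0
      linarith
    · rw [ind_not ha, zero_mul]
      have := le_max_left (-f w) 0
      linarith
  rw [P.E_add] at h2
  linarith

theorem sp_fac (X : Om → κ) (Z : Om → ι) : Fac (fun w => (X w, Z w)) (sp P X Z) := by
  intro v w hvw
  unfold sp
  rw [P.Fac_m Z v w (congrArg Prod.snd hvw), P.Fac_m (fun v => (X v, Z v)) v w hvw]

/-- **normalisation of one step** -/
theorem ce_exp_sp_le (X : Om → κ) {Z : Om → ι} {Z0 : Om → ι'} (hZ : Fac Z Z0) {w : Om} (hw : P.p w ≠ 0) :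
    P.ce Z (fun v => Real.exp (sp P X Z v - sp P X Z0 v)) w ≤ 1 := by
  have h1 := ce_tilt2 (Q := P) (P0 := P) (π := fun w => w) (fun w hw => hw) (X0 := X) (Z0 := Z0) (Z := Z) hZ
    (e := fun _ => 1) (fun _ _ _ => rfl) (fun _ => zero_le_one) hw
  rw [P.ce_const _ _ hw] at h1
  refine le_trans (le_of_eq ?_) h1
  refine P.ce_congr (fun v hv => ?_) w
  rw [one_mul]
  congr 1
  have a := (P.m_pos Z hv).ne'
  have b := (P.m_pos (fun v => (X v, Z v)) hv).ne'
  have c := (P.m_pos Z0 hv).ne'
  have d := (P.m_pos (fun v => (X v, Z0 v)) hv).ne'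
  unfold sp dens2
  rw [Real.log_div (div_ne_zero b a) (div_ne_zero d c), Real.log_div b a, Real.log_div d c]
  ring

end neg

/-! ## the relative potential on an event -/

section rel

variable {K : Type} {Om υ κ : Type*} [Fintype Om] [Fintype K] [DecidableEq K] (P : FP Om) (p p' : Finset K → Prop)
  [DecidablePred p] [DecidablePred p']

/-- normalisation of the product of the experts over a set `S` of index sets -/
theorem E_exp_fam {ι : Type*} (V : Finset K → Om → υ) {Z : Om → ι} {W : Om → κ} (hW : Fac Z W) (n : ℕ) :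
    ∀ S : Finset (Finset K), S.card = n → (∀ I ∈ S, ∀ I', I' ⊂ I → I' ∈ S ∨ Fac Z (V I')) →
      P.E (fun w => Real.exp (sp P (fun w => (fun I => if I ∈ S then some (V I w) else none : Finset K → Option υ)) Z w -
        ∑ I ∈ S, sp P (V I) (fun w => (lo V I w, W w)) w)) ≤ 1 := by
  classical
  induction n with
  | zero =>
    intro S hS _
    rw [Finset.card_eq_zero] at hS
    subst hS
    refine P.E_le_const fun w _ => ?_
    rw [sp_const P (X := fun w => (fun I => if I ∈ (∅ : Finset (Finset K)) then some (V I w) else none :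
      Finset K → Option υ)) (Z := Z) (fun _ _ _ => by funext I; simp), Finset.sum_empty, sub_zero, Real.exp_zero]
  | succ n ih =>
    intro S hS hdown
    have hne : S.Nonempty := by
      rw [← Finset.card_pos]; omega
    obtain ⟨j, hj, hmax⟩ := S.exists_maximal hne
    have hcard : (S.erase j).card = n := by rw [Finset.card_erase_of_mem hj]; omega
    have k := ih (S.erase j) hcard (by
      intro I hI I' hI'
      rcases hdown I (Finset.mem_of_mem_erase hI) I' hI' with h1 | h1
      · left
        refine Finset.mem_erase.2 ⟨?_, h1⟩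
        rintro rfl
        exact absurd (hmax (Finset.mem_of_mem_erase hI) hI'.le) (not_le_of_gt hI')
      · exact Or.inr h1)
    set F : Om → Finset K → Option υ := fun w => (fun I => if I ∈ S.erase j then some (V I w) else none) with hF
    have hFV : ∀ I ∈ S.erase j, Fac (fun w => (F w, Z w)) (V I) := by
      intro I hI a b hab
      have h5 := congrFun (congrArg Prod.fst hab) I
      simp only [hF, if_pos hI] at h5
      exact Option.some.inj h5
    have hlow : ∀ I ∈ S, Fac (fun w => (F w, Z w)) (fun w => (lo V I w, W w)) := by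
      intro I hI a b hab
      simp only [Prod.mk.injEq]
      refine ⟨lo_eq.2 fun I' hI' => ?_, hW a b (congrArg Prod.snd hab)⟩
      rcases hdown I hI I' hI' with h6 | h6
      · refine hFV I' (Finset.mem_erase.2 ⟨?_, h6⟩) a b hab
        rintro rfl
        exact absurd (hmax hI hI'.le) (not_le_of_gt hI')
      · exact h6 a b (congrArg Prod.snd hab)
    set A : Om → ℝ := fun w => sp P F Z w - ∑ I ∈ S.erase j, sp P (V I) (fun w => (lo V I w, W w)) w with hA
    set B : Om → ℝ := fun w => sp P (V j) (fun w => (F w, Z w)) w - sp P (V j) (fun w => (lo V j w, W w)) w with hB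
    have e1 : ∀ w, Real.exp (sp P (fun w => (fun I => if I ∈ S then some (V I w) else none : Finset K → Option υ)) Z w -
        ∑ I ∈ S, sp P (V I) (fun w => (lo V I w, W w)) w) = Real.exp (A w) * Real.exp (B w) := by
      intro w
      rw [← Real.exp_add]
      congr 1
      have h1 : sp P (fun w => (fun I => if I ∈ S then some (V I w) else none : Finset K → Option υ)) Z w =
          sp P (fun w => (V j w, F w)) Z w := by
        refine sp_congr P ?_ (Fac.refl _) ?_ (Fac.refl _) w
        · intro a b hab
          simp only [Prod.mk.injEq] at hab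
          have h2 : ∀ I ∈ S, V I a = V I b := by
            intro I hI
            have := congrFun hab.1 I
            simp only [if_pos hI] at this
            exact Option.some.inj this
          simp only [Prod.mk.injEq, hF]
          refine ⟨h2 j hj, funext fun I => ?_⟩
          by_cases hI : I ∈ S.erase j
          · rw [if_pos hI, if_pos hI, h2 I (Finset.mem_of_mem_erase hI)]
          · rw [if_neg hI, if_neg hI]
        · intro a b hab
          simp only [Prod.mk.injEq] at hab
          funext I
          by_cases hI : I ∈ S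
          · simp only [if_pos hI]
            by_cases hij : I = j
            · rw [hij, hab.1.1]
            · have := congrFun hab.1.2 I
              simpa only [hF, if_pos (Finset.mem_erase.2 ⟨hij, hI⟩)] using this
          · simp only [if_neg hI]
      rw [h1, sp_chain, hA, hB, ← Finset.add_sum_erase S _ hj]
      ring
    have hAf : Fac (fun w => (F w, Z w)) (fun w => Real.exp (A w)) := by
      intro a b hab
      have h1 : sp P F Z a = sp P F Z b := sp_fac P F Z a b hab
      have h2 : ∀ I ∈ S.erase j, sp P (V I) (fun w => (lo V I w, W w)) a = sp P (V I) (fun w => (lo V I w, W w)) b := by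
        intro I hI
        refine sp_fac P (V I) (fun w => (lo V I w, W w)) a b ?_
        exact Prod.ext (hFV I hI a b hab) (hlow I (Finset.mem_of_mem_erase hI) a b hab)
      show Real.exp (A a) = Real.exp (A b)
      rw [hA]
      simp only [h1, Finset.sum_congr rfl h2]
    rw [P.E_congr fun w _ => e1 w]
    rw [← P.E_mul_ce hAf]
    refine le_trans (P.E_mono fun w hw => ?_) k
    refine mul_le_of_le_one_right (Real.exp_pos _).le ?_
    exact ce_exp_sp_le P (V j) (hlow j hj) hw

/-- **the relative potential is the logarithm of a density** -/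
theorem E_exp_neg_iR (hp : ∀ I J : Finset K, I ⊆ J → p J → p I) (L : Finset K → Om → υ) (W : Om → κ) :
    P.E (fun w => Real.exp (-iR P p p' L W w)) ≤ 1 := by
  classical
  have h1 := E_exp_fam P L (Z := fun w => (all (LP p' L) w, W w)) (W := W) (Fac.snd _ _) _
    (univ.filter (fun J => p J ∧ ¬ p' J)) rfl (by
    intro I hI I' hI'
    obtain ⟨_, h1, _⟩ := Finset.mem_filter.1 hI
    have h3 := hp I' I hI'.subset h1
    by_cases h4 : p' I'
    · right
      intro a b hab
      simp only [Prod.mk.injEq] at hab
      exact congrFun hab.1 ⟨I', h4⟩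
    · exact Or.inl (Finset.mem_filter.2 ⟨mem_univ _, h3, h4⟩))
  refine le_trans (le_of_eq ?_) h1
  refine P.E_congr fun w _ => ?_
  congr 1
  have e : sp P (all (LP p L)) (fun w => (all (LP p' L) w, W w)) w =
      sp P (fun w => (fun I => if I ∈ univ.filter (fun J => p J ∧ ¬ p' J) then some (L I w) else none :
        Finset K → Option υ)) (fun w => (all (LP p' L) w, W w)) w := by
    refine sp_congr P ?_ (Fac.refl _) ?_ (Fac.refl _) w
    · intro a b hab
      simp only [Prod.mk.injEq] at hab
      funext I
      by_cases hI : I ∈ univ.filter (fun J => p J ∧ ¬ p' J)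
      · simp only [if_pos hI]
        rw [congrFun hab.1 ⟨I, (Finset.mem_filter.1 hI).2.1⟩ |> fun hh : L I a = L I b => hh]
      · simp only [if_neg hI]
    · intro a b hab
      simp only [Prod.mk.injEq] at hab
      funext i
      by_cases h4 : p' i.1
      · exact congrFun hab.2.1 ⟨i.1, h4⟩
      · have h5 := congrFun hab.1 i.1
        have hm : i.1 ∈ univ.filter (fun J => p J ∧ ¬ p' J) := Finset.mem_filter.2 ⟨mem_univ i.1, i.2, h4⟩
        simp only [if_pos hm] at h5
        exact Option.some.inj h5
  unfold iR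
  rw [e]
  ring

/-- **the relative potential on any event** -/
theorem E_ind_iR_le (hp : ∀ I J : Finset K, I ⊆ J → p J → p I) (L : Finset K → Om → υ) (W : Om → κ) (a : Om → Prop) :
    P.E (fun w => ind (a w) * iR P p p' L W w) ≤ MR P p p' L W + Real.sqrt (2 * MR P p p' L W) := by
  rw [← E_iR]
  exact E_ind_le_of_exp P (E_exp_neg_iR P p p' hp L W) a

end rel

/-! ## three known vertices -/

section three

variable {K : Type} {Om υ κ : Type*} [Fintype Om] [Fintype K] [DecidableEq K] (P : FP Om)

theorem sum_tp (hK : Fintype.card K = 3) (f : Finset K → ℝ) :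
    ∑ J ∈ univ.filter (fun J : Finset K => J ≠ univ ∧ ¬ pth J), f J = ∑ j, f (univ.erase j) := by
  refine (Finset.sum_bij (fun j _ => univ.erase j) ?_ ?_ ?_ (fun _ _ => rfl)).symm
  · intro j _
    exact Finset.mem_filter.2 ⟨mem_univ _, ne_univ j, pth_er hK j⟩
  · intro i _ i' _ hij
    exact erase_inj' hij
  · intro J hJ
    obtain ⟨_, h1, h2⟩ := Finset.mem_filter.1 hJ
    unfold pth at h2
    have h3 : ∃ j, j ∉ J := by
      by_contra hc
      push Not at hc
      exact h1 (Finset.eq_univ_of_forall hc)
    obtain ⟨j, hj⟩ := h3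
    refine ⟨j, mem_univ j, ?_⟩
    refine (Finset.eq_of_subset_of_card_le (fun i hi => Finset.mem_erase.2 ⟨by rintro rfl; exact hj hi, mem_univ i⟩)
      ?_).symm
    rw [card_er hK]
    omega

/-- three different vertices are all vertices -/
theorem univ3 (hK : Fintype.card K = 3) {i j k : K} (hij : i ≠ j) (hik : i ≠ k) (hjk : j ≠ k) (l : K) :
    l = i ∨ l = j ∨ l = k := by
  by_contra hcon
  push Not at hcon
  have h1 : ({i, j, k, l} : Finset K).card = 4 := by
    rw [Finset.card_insert_of_notMem, Finset.card_insert_of_notMem, Finset.card_insert_of_notMem, Finset.card_singleton]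
    · simpa using fun hh : k = l => hcon.2.2 hh.symm
    · simp only [Finset.mem_insert, Finset.mem_singleton, not_or]
      exact ⟨hjk, fun hh => hcon.2.1 hh.symm⟩
    · simp only [Finset.mem_insert, Finset.mem_singleton, not_or]
      exact ⟨hij, hik, fun hh => hcon.1 hh.symm⟩
  have h2 := Finset.card_le_univ ({i, j, k, l} : Finset K)
  omega

/-- a set of index sets different from `univ`: thin or a top -/
theorem thin_or_top (hK : Fintype.card K = 3) {J : Finset K} (hJ : J ≠ univ) : pth J ∨ ∃ l, J = univ.erase l := by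
  by_cases h2 : pth J
  · exact Or.inl h2
  · right
    unfold pth at h2
    have h3 : ∃ j, j ∉ J := by
      by_contra hc
      push Not at hc
      exact hJ (Finset.eq_univ_of_forall hc)
    obtain ⟨j, hj⟩ := h3
    refine ⟨j, Finset.eq_of_subset_of_card_le (fun i hi => Finset.mem_erase.2 ⟨by rintro rfl; exact hj hi, mem_univ i⟩) ?_⟩
    rw [card_er hK]
    omega

/-- **THE RELATIVE POTENTIAL OF THE TOPS OVER THE THIN LABELS**, exact -/
theorem MR3 (hK : Fintype.card K = 3) {i j k : K} (hij : i ≠ j) (hik : i ≠ k) (hjk : j ≠ k) (L : Finset K → Om → υ)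
    (W : Om → κ) : MR P (fun J : Finset K => J ≠ univ) pth L W =
      ∑ l, P.I (L (univ.erase l)) (L {l}) (fun w => (lo L (univ.erase l) w, W w)) +
      P.I (L (univ.erase j)) (L (univ.erase i)) (fun w => (all (LP pth L) w, W w)) +
      P.I (L (univ.erase k)) (fun w => (L (univ.erase i) w, L (univ.erase j) w)) (fun w => (all (LP pth L) w, W w)) := by
  classical
  set th : Om → ({J // pth J} → υ) := all (LP pth L) with hth
  have hthL : ∀ J, pth J → Fac (fun w => (th w, W w)) (L J) := by
    intro J hJ a b hab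
    exact congrFun (congrArg Prod.fst hab) ⟨J, hJ⟩
  have hone : ∀ l : K, pth ({l} : Finset K) := fun l => by unfold pth; rw [Finset.card_singleton]
  -- the first terms
  have e1 : ∀ l : K, P.Hc (L (univ.erase l)) (fun w => (lo L (univ.erase l) w, W w)) =
      P.I (L (univ.erase l)) (L {l}) (fun w => (lo L (univ.erase l) w, W w)) +
        P.Hc (L (univ.erase l)) (fun w => (th w, W w)) := by
    intro l
    rw [FP.I_eq_Hc]
    have : P.Hc (L (univ.erase l)) (fun w => (L {l} w, lo L (univ.erase l) w, W w)) =
        P.Hc (L (univ.erase l)) (fun w => (th w, W w)) := by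
      refine P.Hc_congr_right _ ?_ ?_
      · intro a b hab
        simp only [Prod.mk.injEq] at hab ⊢
        refine ⟨funext fun J => ?_, hab.2.2⟩
        show L J.1 a = L J.1 b
        by_cases hJ : J.1 ⊂ univ.erase l
        · exact lo_eq.1 hab.2.1 J.1 hJ
        · -- then `J = {l}`
          have h1 : J.1 = {l} := by
            have h2 := J.2
            unfold pth at h2
            by_cases hl : l ∈ J.1
            · refine (Finset.eq_of_subset_of_card_le (Finset.singleton_subset_iff.2 hl) ?_).symm
              rw [Finset.card_singleton]; exact h2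
            · exfalso
              refine hJ ?_
              rw [Finset.ssubset_iff_subset_ne]
              refine ⟨fun x hx => Finset.mem_erase.2 ⟨by rintro rfl; exact hl hx, mem_univ x⟩, fun hh => ?_⟩
              have := card_er hK l
              rw [← hh] at this
              omega
          rw [h1]; exact hab.1
      · intro a b hab
        simp only [Prod.mk.injEq]
        refine ⟨hthL _ (hone l) a b hab, lo_eq.2 fun I hI => hthL I ?_ a b hab, congrArg Prod.snd hab⟩
        unfold pth
        have := Finset.card_lt_card hI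
        rw [card_er hK] at this
        omega
    rw [this]
    ring
  -- the joint entropy
  have e2 : P.Hc (all (LP (fun J : Finset K => J ≠ univ) L)) (fun w => (th w, W w)) =
      P.Hc (L (univ.erase i)) (fun w => (th w, W w)) +
      P.Hc (L (univ.erase j)) (fun w => (L (univ.erase i) w, th w, W w)) +
      P.Hc (L (univ.erase k)) (fun w => ((L (univ.erase i) w, L (univ.erase j) w), th w, W w)) := by
    have h1 : P.Hc (all (LP (fun J : Finset K => J ≠ univ) L)) (fun w => (th w, W w)) =
        P.Hc (fun w => (L (univ.erase k) w, L (univ.erase i) w, L (univ.erase j) w)) (fun w => (th w, W w)) := by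
      refine P.Hc_congr ?_ (Fac.refl _) ?_ (Fac.refl _)
      · intro a b hab
        simp only [Prod.mk.injEq] at hab ⊢
        exact ⟨congrFun hab.1 ⟨univ.erase k, ne_univ k⟩, congrFun hab.1 ⟨univ.erase i, ne_univ i⟩,
          congrFun hab.1 ⟨univ.erase j, ne_univ j⟩⟩
      · intro a b hab
        simp only [Prod.mk.injEq] at hab
        funext J
        show L J.1 a = L J.1 b
        rcases thin_or_top hK J.2 with h2 | ⟨l, hl⟩
        · exact hthL J.1 h2 a b (Prod.ext hab.2.1 hab.2.2)
        · rw [hl]
          rcases univ3 hK hij hik hjk l with rfl | rfl | rfl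
          · exact hab.1.2.1
          · exact hab.1.2.2
          · exact hab.1.1
    have h2 := P.Hc_chain (L (univ.erase k)) (fun w => (L (univ.erase i) w, L (univ.erase j) w)) (fun w => (th w, W w))
    have h3 := P.Hc_chain (L (univ.erase j)) (L (univ.erase i)) (fun w => (th w, W w))
    have h4 : P.Hc (fun w => (L (univ.erase i) w, L (univ.erase j) w)) (fun w => (th w, W w)) =
        P.Hc (fun w => (L (univ.erase j) w, L (univ.erase i) w)) (fun w => (th w, W w)) := by
      refine P.Hc_congr ?_ (Fac.refl _) ?_ (Fac.refl _)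
      · intro a b hab; simp only [Prod.mk.injEq] at hab ⊢; tauto
      · intro a b hab; simp only [Prod.mk.injEq] at hab ⊢; tauto
    rw [h1, h2, h4, h3]
  have e3 : ∑ l : K, P.Hc (L (univ.erase l)) (fun w => (th w, W w)) =
      P.Hc (L (univ.erase i)) (fun w => (th w, W w)) + P.Hc (L (univ.erase j)) (fun w => (th w, W w)) +
      P.Hc (L (univ.erase k)) (fun w => (th w, W w)) := by
    have hu : (univ : Finset K) = {i, j, k} := by
      ext l
      simp only [Finset.mem_univ, Finset.mem_insert, Finset.mem_singleton, true_iff]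
      exact univ3 hK hij hik hjk l
    rw [hu, Finset.sum_insert, Finset.sum_insert, Finset.sum_singleton, add_assoc]
    · simpa using hjk
    · simp only [Finset.mem_insert, Finset.mem_singleton, not_or]
      exact ⟨hij, hik⟩
  unfold MR
  rw [sum_tp hK, Finset.sum_congr rfl fun l _ => e1 l, Finset.sum_add_distrib, e3, e2, FP.I_eq_Hc, FP.I_eq_Hc]
  ring

end three

/-! ## the process -/

section proc

variable {K X β γ φ υ : Type} [Fintype K] [DecidableEq K] [Fintype X] [Fintype β] [Fintype φ] [Nonempty X] [Nonempty β]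
  {D : HD K X β γ φ} {al : ℝ} (h : D.Thick al) {v : ℕ → Finset K → X → (K → β) → υ} {t : ℕ}
  {p p' : Finset K → Prop} [DecidablePred p] [DecidablePred p']

/-- the relative potential of the process -/
theorem Mt_MR (hp : ∀ I J : Finset K, I ⊆ J → p J → p I) (hp' : ∀ I J : Finset K, I ⊆ J → p' J → p' I) (h0 : p ∅)
    (h0' : p' ∅) (hsub : ∀ J, p' J → p J) :
    MR (D.P h t) p p' (LL (Um v (t + 1))) (WW D t) = Mt h v h0 t - Mt h v h0' t :=
  MR_eq (D.P h t) hp hp' h0 h0' hsub _ _

/-- **the potential on alive points at one time**, any event `a t` -/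
theorem MA_le (hp : ∀ I J : Finset K, I ⊆ J → p J → p I) (hp' : ∀ I J : Finset K, I ⊆ J → p' J → p' I) (h0 : p ∅)
    (h0' : p' ∅) (hsub : ∀ J, p' J → p J) (a : ℕ → Pt K X β φ → Prop) :
    MA h v p p' a t ≤ (Mt h v h0 t - Mt h v h0' t) + Real.sqrt (2 * (Mt h v h0 t - Mt h v h0' t)) := by
  have h1 := E_ind_iR_le (D.P h t) p p' hp (LL (Um v (t + 1))) (WW D t) (a t)
  rw [Mt_MR h hp hp' h0 h0' hsub] at h1
  exact h1

/-- the same over the class -/
theorem MA_cls_le (hp : ∀ I J : Finset K, I ⊆ J → p J → p I) (h0 : p ∅) (a : ℕ → Pt K X β φ → Prop) :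
    MA h v p pcl a t ≤ Mt h v h0 t + Real.sqrt (2 * Mt h v h0 t) := by
  have h1 := MA_le h (v := v) (t := t) (p := p) (p' := pcl) hp
    (fun I J hI (hJ : J = ∅) => by rw [hJ] at hI; exact Finset.subset_empty.1 hI) h0 rfl
    (fun J (hJ : J = ∅) => by rw [hJ]; exact h0) a
  have h2 : Mt h v (p := pcl) rfl t = 0 := MP_class (LL (Um v (t + 1))) (WW D t) (D.P h t)
  rw [h2, sub_zero] at h1
  exact h1

/-- **THE TOPS OVER THE THIN LABELS AT ONE TIME**, exact -/
theorem endT3 (hK : Fintype.card K = 3) {i j k : K} (hij : i ≠ j) (hik : i ≠ k) (hjk : j ≠ k) :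
    Mt h v (p := fun J => J ≠ univ) (ne_u hK) t - Mt h v (p := pth) pth0 t =
      ∑ l, (D.P h t).I (LL (Um v (t + 1)) (univ.erase l)) (LL (Um v (t + 1)) {l})
        (fun w => (lo (LL (Um v (t + 1))) (univ.erase l) w, WW D t w)) +
      (D.P h t).I (LL (Um v (t + 1)) (univ.erase j)) (LL (Um v (t + 1)) (univ.erase i))
        (fun w => (all (LP pth (LL (Um v (t + 1)))) w, WW D t w)) +
      (D.P h t).I (LL (Um v (t + 1)) (univ.erase k))
        (fun w => (LL (Um v (t + 1)) (univ.erase i) w, LL (Um v (t + 1)) (univ.erase j) w))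
        (fun w => (all (LP pth (LL (Um v (t + 1)))) w, WW D t w)) := by
  rw [← Mt_MR h (v := v) (t := t) down_ne pth_down (ne_u hK) pth0 (pth_sub hK)]
  exact MR3 (D.P h t) hK hij hik hjk _ _

/-- **with bounds** -/
theorem endT3_le (hK : Fintype.card K = 3) {i j k : K} (hij : i ≠ j) (hik : i ≠ k) (hjk : j ≠ k) {e1 e2 e3 : ℝ}
    (hE : ∀ l, (D.P h t).I (LL (Um v (t + 1)) (univ.erase l)) (LL (Um v (t + 1)) {l})
        (fun w => (lo (LL (Um v (t + 1))) (univ.erase l) w, WW D t w)) ≤ e1)
    (hP2 : (D.P h t).I (LL (Um v (t + 1)) (univ.erase j)) (LL (Um v (t + 1)) (univ.erase i))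
        (fun w => (all (LP pth (LL (Um v (t + 1)))) w, WW D t w)) ≤ e2)
    (hE3 : (D.P h t).I (LL (Um v (t + 1)) (univ.erase k))
        (fun w => (LL (Um v (t + 1)) (univ.erase i) w, LL (Um v (t + 1)) (univ.erase j) w))
        (fun w => (all (LP pth (LL (Um v (t + 1)))) w, WW D t w)) ≤ e3) :
    Mt h v (p := fun J => J ≠ univ) (ne_u hK) t - Mt h v (p := pth) pth0 t ≤ 3 * e1 + e2 + e3 := by
  rw [endT3 h hK hij hik hjk]
  have h1 := Finset.sum_le_sum fun l (_ : l ∈ (univ : Finset K)) => hE l
  rw [Finset.sum_const, Finset.card_univ, hK, nsmul_eq_mul] at h1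
  push_cast at h1
  linarith

theorem Mt_sub_nonneg (hK : Fintype.card K = 3) :
    0 ≤ Mt h v (p := fun J => J ≠ univ) (ne_u hK) t - Mt h v (p := pth) pth0 t := by
  rw [← Mt_MR h (v := v) (t := t) down_ne pth_down (ne_u hK) pth0 (pth_sub hK)]
  exact MR_nonneg (D.P h t) down_ne _ _

/-- **the tops over the thin labels on alive points**, any event -/
theorem MA3_le (hK : Fintype.card K = 3) {i j k : K} (hij : i ≠ j) (hik : i ≠ k) (hjk : j ≠ k) {e1 e2 e3 : ℝ}
    (hE : ∀ l, (D.P h t).I (LL (Um v (t + 1)) (univ.erase l)) (LL (Um v (t + 1)) {l})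
        (fun w => (lo (LL (Um v (t + 1))) (univ.erase l) w, WW D t w)) ≤ e1)
    (hP2 : (D.P h t).I (LL (Um v (t + 1)) (univ.erase j)) (LL (Um v (t + 1)) (univ.erase i))
        (fun w => (all (LP pth (LL (Um v (t + 1)))) w, WW D t w)) ≤ e2)
    (hE3 : (D.P h t).I (LL (Um v (t + 1)) (univ.erase k))
        (fun w => (LL (Um v (t + 1)) (univ.erase i) w, LL (Um v (t + 1)) (univ.erase j) w))
        (fun w => (all (LP pth (LL (Um v (t + 1)))) w, WW D t w)) ≤ e3) (a : ℕ → Pt K X β φ → Prop) :
    MA h v (fun J => J ≠ univ) pth a t ≤ (3 * e1 + e2 + e3) + Real.sqrt (2 * (3 * e1 + e2 + e3)) := by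
  have h1 := MA_le h (v := v) (t := t) down_ne pth_down (ne_u hK) pth0 (pth_sub hK) a
  have h2 := endT3_le h hK hij hik hjk hE hP2 hE3
  have h3 := Real.sqrt_le_sqrt (mul_le_mul_of_nonneg_left h2 (by norm_num : (0 : ℝ) ≤ 2))
  linarith

end proc

end Pool.Agent.GMH
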