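import Pool.Agent.GMH.EndT
import Pool.Agent.GMH.EndT3
import Pool.Agent.GMH.Top

/-!
# GMH.EndTR: (E3) for a run: the tops over the thin labels at one time (helper88)

Bounds of `EndT3` with the constants of `EndT`:
* `top1R`, `top2R` : `endT_top1`, `endT_top2` for the labels `LL (Um v (t + 1)) (univ.erase l)`;
* **`endT3_run`** : `Mt (≠ univ) t - Mt pth t ≤ 54 n Lam / N1 + 24 Lam / n + 12 Lam / N1`;
* **`MA3_run`**, `MA_thin_run`, `MA_pj_run` : the potentials on any event at one time.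
-/

set_option autoImplicit false
set_option linter.unusedSectionVars false

namespace Pool.Agent.GMH.EndTR

open Finset Pool.Agent.PWZ Pool.Agent.M3 Pool.Agent.GM Pool.Agent.GM.Harm Pool.Agent.GMH

/-! ## informations on the support -/

section gen

variable {Om κ κ' ι ι' μ : Type*} [Fintype Om] {P : FP Om}

theorem I_congr_s {X : Om → κ} {X' : Om → κ'} {Y : Om → ι} {Y' : Om → ι'} {Z : Om → μ}
    (hX : ∀ a b, P.p a ≠ 0 → P.p b ≠ 0 → Z a = Z b → (X a = X b ↔ X' a = X' b))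
    (hY : ∀ a b, P.p a ≠ 0 → P.p b ≠ 0 → Z a = Z b → (Y a = Y b ↔ Y' a = Y' b)) : P.I X Y Z = P.I X' Y' Z := by
  rw [FP.I_eq_Hc, FP.I_eq_Hc]
  congr 1
  · exact Hc_congr_supp (fun _ _ _ _ => Iff.rfl) hX
  · refine Hc_congr_supp (fun a b ha hb => ?_) (fun a b ha hb hz => hX a b ha hb (congrArg Prod.snd hz))
    simp only [Prod.mk.injEq]
    constructor
    · rintro ⟨h1, h2⟩; exact ⟨(hY a b ha hb h2).1 h1, h2⟩
    · rintro ⟨h1, h2⟩; exact ⟨(hY a b ha hb h2).2 h1, h2⟩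

end gen

variable {K X β γ φ : Type} [Fintype K] [DecidableEq K] [Fintype X] [Fintype β] [Fintype φ] [Nonempty X] [Nonempty β]
  {D : HD K X β γ φ} {al : ℝ} {h : D.Thick al} {dg : ℕ → X → ℝ} {prr : ℕ → K → φ → φ} {T : ℕ} {Lam : ℝ}
  {v : ℕ → Finset K → X → (K → β) → Pt K X β φ} {t : ℕ} {n N1 : ℝ}

theorem top_lab (hK : Fintype.card K = 3) (R : Run h (pr3 K n N1) (SS1 K) (AdmDep D) v) (H : D.Hyp dg prr al T Lam)
    (hn : 1 ≤ n) (hN1 : 1 ≤ N1) (ht : t ≤ T) (l : K) {a b : Pt K X β φ} (ha : (D.P h t).p a ≠ 0) (hb : (D.P h t).p b ≠ 0)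
    (hz : (lo (LL (Um v (t + 1))) (univ.erase l) a, WW D t a) = (lo (LL (Um v (t + 1))) (univ.erase l) b, WW D t b)) :
    LL (Um v (t + 1)) (univ.erase l) a = LL (Um v (t + 1)) (univ.erase l) b ↔ a.2.2 l = b.2.2 l := by
  have h0 : 0 < pr3 K n N1 (univ.erase l) := by rw [pr3_top hK]; nlinarith
  have hu : (univ : Finset K) ∉ SS1 K := fun hh => mem_SS1.1 hh rfl
  refine R.top_LL H (mem_SS1.2 (ne_univ l)) hu h0 ht ha hb ?_
  simp only [Prod.mk.injEq] at hz
  refine Prod.ext hz.1 ?_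
  show BB D t (univ.erase l) a = BB D t (univ.erase l) b
  have h1 := hz.2
  rw [WW_eq] at h1
  rw [BB_eq]
  exact ⟨fun j _ => congrFun h1.1 j, h1.2, fun j => by rw [h1.1]⟩

/-- the lower labels of a top are thin -/
theorem lo_thin (hK : Fintype.card K = 3) (l : K) {U : Finset K → X → (K → β) → List (Pt K X β φ)} {a b : Pt K X β φ}
    (hz : all (LP pth (LL U)) a = all (LP pth (LL U)) b) : lo (LL U) (univ.erase l) a = lo (LL U) (univ.erase l) b := by
  refine lo_eq.2 fun I hI => ?_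
  have h1 : pth I := by
    unfold pth
    have := Finset.card_lt_card hI
    rw [card_er hK] at this
    omega
  exact congrFun hz ⟨I, h1⟩

/-- **(E2a)** for the label of the top -/
theorem top1R (hK : Fintype.card K = 3) (R : Run h (pr3 K n N1) (SS1 K) (AdmDep D) v) (H : D.Hyp dg prr al T Lam)
    (hn : 1 ≤ n) (hN1 : 1 ≤ N1) (ht : t ≤ T) (j : K) :
    (D.P h t).I (LL (Um v (t + 1)) (univ.erase j)) (LL (Um v (t + 1)) {j})
      (fun w => (lo (LL (Um v (t + 1))) (univ.erase j) w, WW D t w)) ≤ 18 * n * Lam / N1 := by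
  rw [I_congr_s (X' := fun w : Pt K X β φ => w.2.2 j) (Y' := LL (Um v (t + 1)) {j})
    (fun a b ha hb hz => top_lab hK R H hn hN1 ht j ha hb hz) (fun _ _ _ _ _ => Iff.rfl)]
  exact endT_top1 hK R H hn hN1 ht j

/-- **(E2b)** for the labels of the tops -/
theorem top2R (hK : Fintype.card K = 3) (R : Run h (pr3 K n N1) (SS1 K) (AdmDep D) v) (H : D.Hyp dg prr al T Lam)
    (hn : 1 ≤ n) (hN1 : 1 ≤ N1) (ht : t ≤ T) {i j k : K} (hij : i ≠ j) (hik : i ≠ k) (hjk : j ≠ k) :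
    (D.P h t).I (LL (Um v (t + 1)) (univ.erase k))
      (fun w => (LL (Um v (t + 1)) (univ.erase i) w, LL (Um v (t + 1)) (univ.erase j) w))
      (fun w => (all (LP pth (LL (Um v (t + 1)))) w, WW D t w)) ≤ 12 * Lam / n + 6 * Lam / N1 := by
  have key : ∀ l : K, ∀ a b : Pt K X β φ, (D.P h t).p a ≠ 0 → (D.P h t).p b ≠ 0 →
      ((all (LP pth (LL (Um v (t + 1)))) a, WW D t a) = (all (LP pth (LL (Um v (t + 1)))) b, WW D t b)) →
      (LL (Um v (t + 1)) (univ.erase l) a = LL (Um v (t + 1)) (univ.erase l) b ↔ a.2.2 l = b.2.2 l) := by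
    intro l a b ha hb hz
    refine top_lab hK R H hn hN1 ht l ha hb ?_
    simp only [Prod.mk.injEq] at hz ⊢
    exact ⟨lo_thin hK l hz.1, hz.2⟩
  rw [I_congr_s (X' := fun w : Pt K X β φ => w.2.2 k) (Y' := fun w : Pt K X β φ => (w.2.2 i, w.2.2 j))
    (fun a b ha hb hz => key k a b ha hb hz) (fun a b ha hb hz => by
      simp only [Prod.mk.injEq, key i a b ha hb hz, key j a b ha hb hz])]
  exact endT_top2 hK R H hn hN1 ht hij hik hjk

/-- two tops -/
theorem top2R' (hK : Fintype.card K = 3) (R : Run h (pr3 K n N1) (SS1 K) (AdmDep D) v) (H : D.Hyp dg prr al T Lam)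
    (hn : 1 ≤ n) (hN1 : 1 ≤ N1) (ht : t ≤ T) {i j k : K} (hij : i ≠ j) (hik : i ≠ k) (hjk : j ≠ k) :
    (D.P h t).I (LL (Um v (t + 1)) (univ.erase j)) (LL (Um v (t + 1)) (univ.erase i))
      (fun w => (all (LP pth (LL (Um v (t + 1)))) w, WW D t w)) ≤ 12 * Lam / n + 6 * Lam / N1 := by
  refine le_trans ?_ (top2R hK R H hn hN1 ht hik hij hjk.symm)
  rw [(D.P h t).I_comm (LL (Um v (t + 1)) (univ.erase j)) (LL (Um v (t + 1)) (univ.erase i)),
    (D.P h t).I_comm (LL (Um v (t + 1)) (univ.erase j))]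
  refine (D.P h t).I_mono _ ?_
  intro a b hab
  simp only [Prod.mk.injEq] at hab
  exact hab.1.1

/-- three different vertices -/
theorem exists3 (hK : Fintype.card K = 3) : ∃ i j k : K, i ≠ j ∧ i ≠ k ∧ j ≠ k := by
  obtain ⟨i, j, k, h1, h2, h3, _⟩ := Finset.card_eq_three.1 (show (univ : Finset K).card = 3 by rw [Finset.card_univ, hK])
  exact ⟨i, j, k, h1, h2, h3⟩

/-- **(E3)** : the tops over the thin labels at a saturated time -/
theorem endT3_run (hK : Fintype.card K = 3) (R : Run h (pr3 K n N1) (SS1 K) (AdmDep D) v) (H : D.Hyp dg prr al T Lam)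
    (hn : 1 ≤ n) (hN1 : 1 ≤ N1) (ht : t ≤ T) :
    Mt h v (p := fun J => J ≠ univ) (ne_u hK) t - Mt h v (p := pth) pth0 t ≤
      54 * n * Lam / N1 + 24 * Lam / n + 12 * Lam / N1 := by
  obtain ⟨i, j, k, hij, hik, hjk⟩ := exists3 hK
  refine (endT3_le h hK hij hik hjk (fun l => top1R hK R H hn hN1 ht l) (top2R' hK R H hn hN1 ht hij hik hjk)
    (top2R hK R H hn hN1 ht hij hik hjk)).trans (le_of_eq ?_)
  ring

/-- **the tops over the thin labels on any event at one time** -/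
theorem MA3_run (hK : Fintype.card K = 3) (R : Run h (pr3 K n N1) (SS1 K) (AdmDep D) v) (H : D.Hyp dg prr al T Lam)
    (hn : 1 ≤ n) (hN1 : 1 ≤ N1) (ht : t ≤ T) (a : ℕ → Pt K X β φ → Prop) :
    MA h v (fun J => J ≠ univ) pth a t ≤ (54 * n * Lam / N1 + 24 * Lam / n + 12 * Lam / N1) +
      Real.sqrt (2 * (54 * n * Lam / N1 + 24 * Lam / n + 12 * Lam / N1)) := by
  have h1 := MA_le h (v := v) (t := t) down_ne pth_down (ne_u hK) pth0 (pth_sub hK) a
  have h2 := endT3_run hK R H hn hN1 ht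
  have h3 := Real.sqrt_le_sqrt (mul_le_mul_of_nonneg_left h2 (by norm_num : (0 : ℝ) ≤ 2))
  linarith

/-- **the thin potential on any event at one time** -/
theorem MA_thin_run (hK : Fintype.card K = 3) (R : Run h (pr3 K n N1) (SS1 K) (AdmDep D) v) (H : D.Hyp dg prr al T Lam)
    (hn : 1 ≤ n) (hN1 : 1 ≤ N1) (ht : t ≤ T) (a : ℕ → Pt K X β φ → Prop) :
    MA h v pth pcl a t ≤ 18 * n * Lam / N1 + Real.sqrt (2 * (18 * n * Lam / N1)) := by
  have h1 := MA_cls_le h (v := v) (t := t) (p := pth) pth_down pth0 a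
  have h2 := endT_thin hK R H hn hN1 ht
  have h3 := Real.sqrt_le_sqrt (mul_le_mul_of_nonneg_left h2 (by norm_num : (0 : ℝ) ≤ 2))
  linarith

/-- the same for the vertices other than `j` -/
theorem MA_pj_run (hK : Fintype.card K = 3) (R : Run h (pr3 K n N1) (SS1 K) (AdmDep D) v) (H : D.Hyp dg prr al T Lam)
    (hn : 1 ≤ n) (hN1 : 1 ≤ N1) (ht : t ≤ T) (j : K) (a : ℕ → Pt K X β φ → Prop) :
    MA h v (pj j) pcl a t ≤ 18 * n * Lam / N1 + Real.sqrt (2 * (18 * n * Lam / N1)) := by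
  have h1 := MA_cls_le h (v := v) (t := t) (p := pj j) (pj_down j) (pj0 hK j) a
  have h2 := endT_pj hK R H hn hN1 ht j
  have h3 := Real.sqrt_le_sqrt (mul_le_mul_of_nonneg_left h2 (by norm_num : (0 : ℝ) ≤ 2))
  linarith

end Pool.Agent.GMH.EndTR
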