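import Pool.Agent.GMH.VDyn
import Pool.Agent.GMH.V3I
import Pool.Agent.GMH.DeadY
import Pool.Agent.GMH.RowV

/-!
# GMH/GainSum: thin level, the sum of the gains of all public steps (helper30, statement of helper91)
-/

set_option autoImplicit false
set_option linter.unusedSectionVars false

namespace Pool.Agent.GMH.V3

open Finset Pool.Agent.PWZ Pool.Agent.M3 Pool.Agent.GM Pool.Agent.GM.Harm Pool.Agent.GMH Pool.Agent.GMH.NZ
open Pool.Agent.GMH.Dead (Dry Hc_time m_time E_time)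

namespace GS

section ksum

variable {X β γ φ υ : Type} [Fintype X] [Fintype β] [Fintype φ] [Nonempty X] [Nonempty β]
variable {D : HD (Fin 3) X β γ φ} {al : ℝ} (h : D.Thick al) {v : ℕ → Finset (Fin 3) → X → (Fin 3 → β) → υ}
variable {dg : ℕ → X → ℝ} {prr : ℕ → Fin 3 → φ → φ} {T : ℕ} {Lam : ℝ}

/-- a public code, function of the hidden point and the node, does not see the points -/
theorem I_pts (hv : Codes D v) {t s n : ℕ} (htn : t ≤ n) (hsn : s ≤ n + 1) {κ : Type*} {F : Pt (Fin 3) X β φ → κ}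
    (hF : Fac (fun w => (w.1, nd D n w)) F) (i : Fin 3) :
    (D.P h t).I (fun w => w.2.1 i) F (NP D v s n) = 0 := by
  have h0 := I_zero h (J := (∅ : Finset (Fin 3))) htn
  have hb : Fac (BB (φ := φ) D n (∅ : Finset (Fin 3))) (nd D n) := fun a b hab => (BB_yJ.1 hab).2
  have h1 : (D.P h t).I (fun w => (F w, Um v s ∅ w.1 w.2.1)) (fun w => w.2.1) (BB D n ∅) ≤ 0 := by
    rw [← h0]
    refine (D.P h t).I_mono (X := AA ∅) (fun w => w.2.1) ?_
    intro a b hab
    have h2 : a.1 = b.1 := (AA_eq.1 (Prod.mk.inj hab).1).1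
    have h3 : BB D n ∅ a = BB D n ∅ b := (Prod.mk.inj hab).2
    refine Prod.ext (hF a b (Prod.ext h2 (hb a b h3))) (Um_AA hv hsn (Finset.Subset.refl _) hab)
  rw [(D.P h t).I_chain] at h1
  have h2 := (D.P h t).I_nonneg (fun w => Um v s ∅ w.1 w.2.1) (fun w => w.2.1) (BB D n (∅ : Finset (Fin 3)))
  have h3 : (D.P h t).I F (fun w => w.2.1) (fun w => (Um v s ∅ w.1 w.2.1, BB D n ∅ w)) ≤ 0 := by linarith
  have h4 : (D.P h t).I F (fun w => w.2.1) (fun w => (Um v s ∅ w.1 w.2.1, BB D n ∅ w)) =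
      (D.P h t).I F (fun w => w.2.1) (NP D v s n) := by
    refine (D.P h t).I_congr_cond ?_ ?_
    · intro a b hab
      have h5 := Prod.mk.inj hab
      exact NP_eq.2 ⟨h5.1, hb a b h5.2⟩
    · intro a b hab
      rw [NP_eq] at hab
      refine Prod.ext hab.1 (BB_yJ.2 ⟨?_, hab.2⟩)
      rw [yJ_eq]
      exact fun j hj => absurd hj (Finset.notMem_empty j)
  rw [h4, (D.P h t).I_comm] at h3
  refine le_antisymm ?_ ((D.P h t).I_nonneg _ _ _)
  refine le_trans ((D.P h t).I_mono (X := fun w => w.2.1) F ?_) h3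
  intro a b hab
  exact congrFun (Prod.mk.inj hab).1 i

variable (v) in
/-- private entropy of the letter of `i` at the half step `q` -/
noncomputable def eLr (i : Fin 3) (q : ℕ) : ℝ := (D.P h 0).Hc (XLr v q i) (fun w => (w.2.1 i, NPr v D q w))

theorem eLr_nonneg (i : Fin 3) (q : ℕ) : 0 ≤ eLr h v i q := FP.Hc_nonneg _ _ _

theorem eLr_even (i : Fin 3) (t : ℕ) :
    eLr h v i (2 * t) = (D.P h t).Hc (XL v (t + 1) i) (fun w => (w.2.1 i, NP D v (t + 1) t w)) := by
  unfold eLr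
  rw [Hc_time h (dry_XLr _ i) ((dry_pt i).prod (dry_NPr _)) 0 t, XLr_even, NPr_even]

theorem eLr_odd (i : Fin 3) (t : ℕ) :
    eLr h v i (2 * t + 1) = (D.P h t).Hc (XL v (t + 1) i) (fun w => (w.2.1 i, NP D v (t + 1) (t + 1) w)) := by
  unfold eLr
  rw [Hc_time h (dry_XLr _ i) ((dry_pt i).prod (dry_NPr _)) 0 t, XLr_odd, NPr_odd]

/-- one public step, abstract -/
theorem gain_step {Om κ κ' ι ι' ν : Type*} [Fintype Om] (P : FP Om) {XX : Om → κ} {Y : Om → κ'} {V : Om → ν} {Z : Om → ι}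
    {Z' : Om → ι'} (h0 : P.I Y V Z = 0) (h1 : Fac (fun w => (Y w, Z' w)) (fun w => (V w, Y w, Z w))) :
    P.I XX V Z + P.Hc XX (fun w => (Y w, Z' w)) ≤ P.Hc XX (fun w => (Y w, Z w)) := by
  have a1 : P.I XX V Z ≤ P.I (fun w => (XX w, Y w)) V Z := P.I_mono V ((Fac.fst _ _).trans (Fac.fst _ _))
  rw [P.I_chain, h0, zero_add, P.I_eq_Hc XX V (fun w => (Y w, Z w))] at a1
  have a2 := P.Hc_anti XX h1
  linarith

theorem digit_gain (H : D.Hyp dg prr al T Lam) (hv : Codes D v) {t : ℕ} (ht : t < T) (i : Fin 3) :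
    (D.P h t).I (XL v (t + 1) i) (fun u => dg t u.1) (NP D v (t + 1) t) + eLr h v i (2 * t + 1) ≤
      eLr h v i (2 * t) := by
  rw [eLr_even, eLr_odd]
  refine gain_step (D.P h t) (Y := fun w => w.2.1 i) (I_pts h hv le_rfl le_rfl ?_ i) ?_
  · intro a b hab
    have h1 : a.1 = b.1 := (Prod.mk.inj hab).1
    show dg t a.1 = dg t b.1
    rw [h1]
  · intro a b hab
    have h1 : a.2.1 i = b.2.1 i := (Prod.mk.inj hab).1
    have h2 : NP D v (t + 1) (t + 1) a = NP D v (t + 1) (t + 1) b := (Prod.mk.inj hab).2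
    rw [NP_eq] at h2
    have h3 := (nd_eq.1 h2.2).1
    refine Prod.ext ((H.dg_cell t ht a.1 b.1).1 h3).2 (Prod.ext h1 (NP_eq.2 ⟨h2.1, nd_older (Nat.le_succ t) h2.2⟩))

theorem code_gain (hv : Codes D v) (t : ℕ) (i : Fin 3) :
    (D.P h t).I (XL v (t + 1) i) (Vt v (t + 1) ∅) (NP D v (t + 1) (t + 1)) + eLr h v i (2 * (t + 1)) ≤
      eLr h v i (2 * t + 1) + cst h v (t + 1) {i} := by
  have h1 := gain_step (D.P h t) (XX := XL v (t + 1) i) (Y := fun w => w.2.1 i) (V := Vt v (t + 1) ∅)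
    (Z := NP D v (t + 1) (t + 1)) (Z' := NP D v (t + 2) (t + 1)) (I_pts h hv (Nat.le_succ t) (Nat.le_succ _) ?_ i) ?_
  · rw [← eLr_odd] at h1
    have h2 : eLr h v i (2 * (t + 1)) ≤ (D.P h t).Hc (XL v (t + 1) i) (fun w => (w.2.1 i, NP D v (t + 2) (t + 1) w)) +
        cst h v (t + 1) {i} := by
      have h3 : eLr h v i (2 * (t + 1)) ≤ (D.P h 0).Hc (fun w => (XLr v (2 * t + 1 + 1) i w, XLr v (2 * t + 1) i w))
          (fun w => (w.2.1 i, NPr v D (2 * t + 1 + 1) w)) := by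
        unfold eLr
        rw [show 2 * (t + 1) = 2 * t + 1 + 1 by ring]
        exact (D.P h 0).Hc_mono _ ((Fac.fst _ _).trans (Fac.fst _ _))
      rw [(D.P h 0).Hc_chain (XLr v (2 * t + 1 + 1) i) (XLr v (2 * t + 1) i), step_one h 0 t i] at h3
      refine h3.trans (le_of_eq ?_)
      congr 1
      rw [Hc_time h (dry_XLr _ i) ((dry_pt i).prod (dry_NPr _)) 0 t]
      rw [show 2 * t + 1 + 1 = 2 * (t + 1) by ring, XLr_odd, NPr_even]
    linarith
  · intro a b hab
    have h2 : a.1 = b.1 := (Prod.mk.inj hab).1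
    have h3 : nd D (t + 1) a = nd D (t + 1) b := (Prod.mk.inj hab).2
    show v (t + 1) ∅ a.1 a.2.1 = v (t + 1) ∅ b.1 b.2.1
    rw [h2]
    exact hv (t + 1) ∅ b.1 a.2.1 b.2.1 (fun j hj => absurd hj (Finset.notMem_empty j)) (nd_eq.1 h3).2
  · intro a b hab
    have h2 : a.2.1 i = b.2.1 i := (Prod.mk.inj hab).1
    have h3 : NP D v (t + 2) (t + 1) a = NP D v (t + 2) (t + 1) b := (Prod.mk.inj hab).2
    rw [NP_eq] at h3
    have h4 := Um_eq.1 h3.1
    exact Prod.ext h4.2 (Prod.ext h2 (NP_eq.2 ⟨h4.1, h3.2⟩))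

end ksum

end GS

section gsum

variable {X β γ φ υ : Type} [Fintype X] [Fintype β] [Fintype φ] [Nonempty X] [Nonempty β]
variable {D : HD (Fin 3) X β γ φ} {al : ℝ} (h : D.Thick al) {v : ℕ → Finset (Fin 3) → X → (Fin 3 → β) → υ}
variable {dg : ℕ → X → ℝ} {prr : ℕ → Fin 3 → φ → φ} {T : ℕ} {Lam : ℝ}

open GS

/-- **THE SUM OF THE GAINS** : digits and public codes, three thin letters; paid by the private costs -/
theorem gain_sum (H : D.Hyp dg prr al T Lam) (hv : Codes D v) :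
    ∑ t ∈ range T, (KV h v (fun u => dg t u.1) t (t + 1) t + KV h v (Vt v (t + 1) ∅) t (t + 1) (t + 1)) ≤
      ∑ i : Fin 3, ∑ t ∈ range (T + 1), cst h v t {i} := by
  have one : ∀ i : Fin 3, ∑ t ∈ range T, ((D.P h t).I (XL v (t + 1) i) (fun u => dg t u.1) (NP D v (t + 1) t) +
      (D.P h t).I (XL v (t + 1) i) (Vt v (t + 1) ∅) (NP D v (t + 1) (t + 1))) ≤
        ∑ t ∈ range (T + 1), cst h v t {i} := by
    intro i
    have h1 : ∀ t ∈ range T, (D.P h t).I (XL v (t + 1) i) (fun u => dg t u.1) (NP D v (t + 1) t) +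
      (D.P h t).I (XL v (t + 1) i) (Vt v (t + 1) ∅) (NP D v (t + 1) (t + 1)) ≤
        cst h v (t + 1) {i} - (eLr h v i (2 * (t + 1)) - eLr h v i (2 * t)) := by
      intro t ht
      have a1 := digit_gain h H hv (Finset.mem_range.1 ht) i
      have a2 := code_gain h hv t i
      linarith
    refine (Finset.sum_le_sum h1).trans ?_
    rw [Finset.sum_sub_distrib, Finset.sum_range_sub (fun t => eLr h v i (2 * t)), Finset.sum_range_succ' _ T]
    have h2 := eLr_nonneg h (v := v) i (2 * T)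
    have h3 : eLr h v i (2 * 0) = cst h v 0 {i} := by
      rw [← start_one h 0 i]
      rfl
    linarith
  have h2 := Finset.sum_le_sum fun i (_ : i ∈ (univ : Finset (Fin 3))) => one i
  refine le_trans (le_of_eq ?_) h2
  rw [Finset.sum_comm]
  refine Finset.sum_congr rfl fun t _ => ?_
  unfold KV
  rw [← Finset.sum_add_distrib]

theorem KV_nonneg {ν : Type*} (V : Pt (Fin 3) X β φ → ν) (t s n : ℕ) : 0 ≤ KV h v V t s n :=
  Finset.sum_nonneg fun _ _ => FP.I_nonneg _ _ _ _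

end gsum

end Pool.Agent.GMH.V3
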