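import Pool.Agent.GMH.RowV
import Pool.Agent.GMH.ConB

/-!
# GMH/Kill3: points which are killed, abstract part (helper95, for KillA and KillD)

* `lgr P A Y N w` = log of the ratio of the law of `Y` given the letter `A` and without it, in the cell of `N`;
  `klr P A Y N w` = relative entropy of `Y` given the letter `A` in the cell of `N`;
* `pos_le` : on an event of `(A, N)` the mean of the positive part of `lgr` is at most the mean of `klr + 1`;
* `D3_split` : `log D3` is the sum of two `lgr`; `D3_12`, `D3_23` : the order of the letters is free;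
* `count_le` : few alive letters; `rat_le` : the ratio of an old letter in the child is rarely small;
* in the process: `DL_split`, `DJ_split` : the densities of the thin letters; `klr_one`, `klr_two` : `klr` is the relative entropy
  under an event of the hidden point; `sp_one`, `sp_two`, `sp_mix` : the surprisals are the logs of the masses of these events.
-/

set_option autoImplicit false
set_option linter.unusedSectionVars false

namespace Pool.Agent.GMH.V3.Kil

open Finset Pool.Agent.PWZ Pool.Agent.M3 Pool.Agent.GM Pool.Agent.GM.Harm Pool.Agent.GMH Pool.Agent.GMH.NZ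

section gen

variable {Om : Type*} [Fintype Om] (P : FP Om) {κ ι θ ν ν' : Type*}

/-- log of the ratio of the law of `Y` given `A` and without `A`, in the cell of `N` -/
noncomputable def lgr (A : Om → κ) (Y : Om → ι) (N : Om → ν) (w : Om) : ℝ :=
  sp P Y N w - sp P Y (fun u => (A u, N u)) w

/-- relative entropy of `Y` given the letter `A` in the cell of `N` -/
noncomputable def klr (A : Om → κ) (Y : Om → ι) (N : Om → ν) (w : Om) : ℝ :=
  ((P.cond fun u => N u = N w).cond fun u => A u = A w).kl (P.cond fun u => N u = N w) Y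

variable {P}

theorem kl_pos {Q : FP Om} (hac : Q.Ac P) (X : Om → κ) :
    Q.E (fun w => max (Real.log (Q.m X w / P.m X w)) 0) ≤ Q.kl P X + 1 := by
  have h1 : ∀ w, Q.p w ≠ 0 → max (Real.log (Q.m X w / P.m X w)) 0 ≤
      Real.log (Q.m X w / P.m X w) + P.m X w / Q.m X w * 1 := by
    intro w hw
    have a := Q.m_pos X hw
    have b := P.m_pos X (hac w hw)
    have h2 := Real.log_le_sub_one_of_pos (div_pos b a)
    have h3 : Real.log (P.m X w / Q.m X w) = -Real.log (Q.m X w / P.m X w) := by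
      rw [← Real.log_inv, inv_div]
    have h4 : 0 ≤ P.m X w / Q.m X w := (div_pos b a).le
    rw [h3] at h2
    refine max_le ?_ ?_
    · linarith
    · linarith
  have h2 := Q.E_mono h1
  rw [Q.E_add] at h2
  have h3 := Q.E_ratio_le P (X := X) (h := fun _ => 1) (Fac.const X 1) (fun _ _ => zero_le_one)
  rw [P.E_const] at h3
  have h4 : Q.kl P X = Q.E (fun w => Real.log (Q.m X w / P.m X w)) := rfl
  linarith

/-- the double condition -/
theorem cond2 (A : Om → κ) (N : Om → ν) {w : Om} (hw : P.p w ≠ 0) :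
    (P.cond fun u => N u = N w).cond (fun u => A u = A w) = P.cond fun u => (A u, N u) = (A w, N w) := by
  have e : (fun u => (A u, N u) = (A w, N w)) = fun u => N u = N w ∧ A u = A w := by
    funext u
    rw [Prod.mk.injEq]
    exact propext and_comm
  have h : P.Pr (fun v => N v = N w ∧ A v = A w) ≠ 0 := (FP.Pr_pos_of (P := P) hw ⟨rfl, rfl⟩).ne'
  rw [FP.cond_cond h, e]

/-- the double condition is absolutely continuous -/
theorem cond2_ac (A : Om → κ) (N : Om → ν) (w : Om) :
    ((P.cond fun u => N u = N w).cond fun u => A u = A w).Ac (P.cond fun u => N u = N w) := FP.cond_ac _ _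

theorem klr_nonneg (A : Om → κ) (Y : Om → ι) (N : Om → ν) (w : Om) : 0 ≤ klr P A Y N w :=
  FP.kl_nonneg (cond2_ac A N w) Y

/-- `lgr` as the ratio of the conditional laws -/
theorem lgr_cell (A : Om → κ) (Y : Om → ι) (N : Om → ν) {w v : Om} (hw : P.p w ≠ 0)
    (hv : (P.cond fun u => (A u, N u) = (A w, N w)).p v ≠ 0) :
    lgr P A Y N v = Real.log (((P.cond fun u => N u = N w).cond fun u => A u = A w).m Y v /
      (P.cond fun u => N u = N w).m Y v) := by
  obtain ⟨h1, hpv⟩ := (FP.cond_p_ne (P.m_pos (fun u => (A u, N u)) hw).ne').1 hv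
  have h2 : N v = N w := congrArg Prod.snd h1
  rw [cond2 A N hw, P.cond_m_fibre Y (fun u => (A u, N u)) hw h1, P.cond_m_fibre Y N hw h2]
  have a := P.m_pos (fun u => (A u, N u)) hw
  have b := P.m_pos N hw
  have c := P.m_pos (fun u => (Y u, A u, N u)) hpv
  have d := P.m_pos (fun u => (Y u, N u)) hpv
  rw [Real.log_div (div_pos c a).ne' (div_pos d b).ne', Real.log_div c.ne' a.ne', Real.log_div d.ne' b.ne']
  unfold lgr sp
  rw [P.Fac_m N v w h2, P.Fac_m (fun u => (A u, N u)) v w h1]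
  ring

/-- **(K1)** on an event of `(A, N)` -/
theorem pos_le (A : Om → κ) (Y : Om → ι) (N : Om → ν) {S : Om → Prop}
    (hS : ∀ a b, A a = A b → N a = N b → (S a ↔ S b)) :
    P.E (fun w => ind (S w) * max (lgr P A Y N w) 0) ≤ P.E (fun w => ind (S w) * (klr P A Y N w + 1)) := by
  rw [← P.E_ind_ce (X := fun w => (A w, N w)) (s := S)
    (fun a b hab => hS a b (congrArg Prod.fst hab) (congrArg Prod.snd hab))]
  refine P.E_mono fun w hw => mul_le_mul_of_nonneg_left ?_ (ind_nonneg _)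
  rw [P.ce_eq_cond (fun w => (A w, N w)) _ hw]
  have h1 := kl_pos (cond2_ac (P := P) A N w) Y
  refine le_trans (le_of_eq ?_) h1
  rw [cond2 A N hw]
  refine FP.E_congr _ fun v hv => ?_
  rw [lgr_cell A Y N hw hv, cond2 A N hw]

/-- the mean of `exp (-lgr)` -/
theorem E_exp_neg_lgr (A : Om → κ) (Y : Om → ι) (N : Om → ν) {g : Om → ℝ} (hg : Fac (fun w => (A w, N w)) g)
    (hg0 : ∀ w, 0 ≤ g w) : P.E (fun w => g w * Real.exp (-lgr P A Y N w)) ≤ P.E g := by
  have h := ratio_le P (X := Y) (Z := fun u => (A u, N u)) (Z0 := N) (Fac.snd A N) hg hg0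
  refine le_trans (le_of_eq (P.E_congr fun w _ => ?_)) h
  unfold lgr
  rw [neg_sub]

/-- the mean of `lgr` is the information -/
theorem E_lgr (A : Om → κ) (Y : Om → ι) (N : Om → ν) : P.E (lgr P A Y N) = P.I Y A N := by
  unfold lgr
  rw [P.E_sub, E_sp, E_sp, FP.I_eq_Hc]

/-- **(K3)** few alive letters: `sp Z0 ≤ X0` on `S`, `S` inside an event `S'` of `Z` -/
theorem count_le {X : Om → κ} {Z : Om → ι} {Z0 : Om → ν} (h0 : Fac Z Z0) {S S' : Om → Prop}
    (hS' : ∀ a b, Z a = Z b → (S' a ↔ S' b)) (hSS : ∀ w, P.p w ≠ 0 → S w → S' w) {X0 : ℝ}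
    (hX : ∀ w, P.p w ≠ 0 → S w → sp P X Z0 w ≤ X0) :
    P.E (fun w => ind (S w) * sp P X Z w) ≤ X0 * P.Pr S + P.Pr S' := by
  have h := ratio_le P (X := X) h0 (g := fun w => ind (S' w)) (Fac.ind hS') (fun w => ind_nonneg _)
  have h1 : P.E (fun w => ind (S w) * sp P X Z w) ≤
      P.E (fun w => X0 * ind (S w) + ind (S' w) * Real.exp (sp P X Z w - sp P X Z0 w)) := by
    refine P.E_mono fun w hw => ?_
    by_cases hs : S w
    · have h2 := Real.add_one_le_exp (sp P X Z w - sp P X Z0 w)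
      have h3 := hX w hw hs
      rw [ind_of hs, ind_of (hSS w hw hs)]
      linarith
    · rw [ind_not hs, zero_mul, mul_zero, zero_add]
      exact mul_nonneg (ind_nonneg _) (Real.exp_pos _).le
  rw [P.E_add, P.E_smul] at h1
  have h2 : P.Pr S = P.E (fun w => ind (S w)) := rfl
  have h3 : P.Pr S' = P.E (fun w => ind (S' w)) := rfl
  rw [h2, h3]
  linarith

/-- a small ratio in terms of the entropy function -/
theorem tail_pt {K0 y : ℝ} (hK : 4 ≤ K0) :
    max (-y) 0 ≤ K0 + 2 * Real.exp (-(K0 / 2)) * (y - 1 + Real.exp (-y)) := by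
  have h0 : 0 ≤ y - 1 + Real.exp (-y) := by
    have := Real.add_one_le_exp (-y)
    linarith
  have h1 : 0 ≤ 2 * Real.exp (-(K0 / 2)) * (y - 1 + Real.exp (-y)) :=
    mul_nonneg (mul_nonneg (by norm_num) (Real.exp_pos _).le) h0
  refine max_le ?_ (by linarith)
  by_cases h : -y ≤ K0
  · linarith
  · push Not at h
    -- `s = -y > K0`; `s ≤ exp (s / 2)` and `exp s - s - 1 ≥ exp s / 2`
    set s := -y with hs
    have hy : y = -s := by rw [hs, neg_neg]
    have h2 : s ≤ Real.exp (s / 2) := by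
      have a := Real.add_one_le_exp (s / 4)
      have b : Real.exp (s / 2) = Real.exp (s / 4) ^ 2 := by
        rw [← Real.exp_nat_mul]
        congr 1
        push_cast
        ring
      rw [b]
      nlinarith [sq_nonneg (s / 4 - 1)]
    have h3 : Real.exp s / 2 ≤ Real.exp s - s - 1 := by
      have a : Real.exp s = Real.exp (s / 2) ^ 2 := by
        rw [← Real.exp_nat_mul]
        congr 1
        push_cast
        ring
      have b := Real.add_one_le_exp (s / 2)
      rw [a]
      nlinarith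
    have h4 : Real.exp (s / 2) ≤ Real.exp (-(K0 / 2)) * Real.exp s := by
      rw [← Real.exp_add]
      exact Real.exp_le_exp.2 (by linarith)
    have h5 : 2 * Real.exp (-(K0 / 2)) * (Real.exp s / 2) ≤ 2 * Real.exp (-(K0 / 2)) * (Real.exp s - s - 1) :=
      mul_le_mul_of_nonneg_left h3 (mul_nonneg (by norm_num) (Real.exp_pos _).le)
    have h6 : y - 1 + Real.exp (-y) = Real.exp s - s - 1 := by
      rw [hy, neg_neg]
      ring
    rw [h6]
    have h7 : (0 : ℝ) ≤ K0 := by linarith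
    nlinarith

/-- **(K4)** the ratio is rarely small: on any event -/
theorem rat_le (A : Om → κ) (Y : Om → ι) (N : Om → ν) {K0 : ℝ} (hK : 4 ≤ K0) (S : Om → Prop) :
    P.E (fun w => ind (S w) * max (-lgr P A Y N w) 0) ≤ K0 * P.Pr S + 2 * Real.exp (-(K0 / 2)) * P.I Y A N := by
  have h1 : P.E (fun w => ind (S w) * max (-lgr P A Y N w) 0) ≤
      P.E (fun w => K0 * ind (S w) + 2 * Real.exp (-(K0 / 2)) *
        (lgr P A Y N w - 1 + Real.exp (-lgr P A Y N w))) := by
    refine P.E_mono fun w _ => ?_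
    have h2 := tail_pt (y := lgr P A Y N w) hK
    have h0 : 0 ≤ lgr P A Y N w - 1 + Real.exp (-lgr P A Y N w) := by
      have := Real.add_one_le_exp (-lgr P A Y N w)
      linarith
    have h3 : 0 ≤ 2 * Real.exp (-(K0 / 2)) * (lgr P A Y N w - 1 + Real.exp (-lgr P A Y N w)) :=
      mul_nonneg (mul_nonneg (by norm_num) (Real.exp_pos _).le) h0
    by_cases hs : S w
    · rw [ind_of hs, one_mul, mul_one]
      exact h2
    · rw [ind_not hs, zero_mul, mul_zero, zero_add]
      exact h3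
  rw [P.E_add, P.E_smul, P.E_smul, P.E_add, P.E_sub, P.E_const, E_lgr] at h1
  have h2 := E_exp_neg_lgr (P := P) A Y N (g := fun _ => 1) (fun _ _ _ => rfl) (fun _ => zero_le_one)
  simp only [one_mul, P.E_const] at h2
  have h3 : P.Pr S = P.E (fun w => ind (S w)) := rfl
  rw [h3]
  have h4 : 2 * Real.exp (-(K0 / 2)) * (P.I Y A N - 1 + P.E (fun w => Real.exp (-lgr P A Y N w))) ≤
      2 * Real.exp (-(K0 / 2)) * P.I Y A N :=
    mul_le_mul_of_nonneg_left (by linarith) (mul_nonneg (by norm_num) (Real.exp_pos _).le)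
  linarith

/-! ### the density of three letters -/

theorem lw3_eq_m (X : Om → κ) (Y : Om → ι) (Z : Om → θ) (w : Om) :
    lw3 P X Y Z (X w) (Y w) (Z w) = P.m (fun v => (Z v, X v, Y v)) w := by
  unfold lw3 FP.m
  refine P.E_congr fun v _ => ?_
  rw [← ind_and, ← ind_and]
  congr 1
  rw [Prod.mk.injEq, Prod.mk.injEq]
  exact propext ⟨fun hh => ⟨hh.2, hh.1.1, hh.1.2⟩, fun hh => ⟨⟨hh.2.1, hh.2.2⟩, hh.1⟩⟩

theorem D3_12 (X : Om → κ) (Y : Om → ι) (Z : Om → θ) (x : κ) (y : ι) (z : θ) :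
    D3 P X Y Z x y z = D3 P Y X Z y x z := by
  unfold D3
  congr 1
  · unfold lw3
    exact P.E_congr fun w _ => by ring
  · ring

theorem D3_23 (X : Om → κ) (Y : Om → ι) (Z : Om → θ) (x : κ) (y : ι) (z : θ) :
    D3 P X Y Z x y z = D3 P X Z Y x z y := by
  unfold D3
  congr 1
  · unfold lw3
    exact P.E_congr fun w _ => by ring
  · ring

/-- **(K2)** the density of three letters in the cell of `N` -/
theorem D3_split (X : Om → κ) (Y : Om → ι) (Z : Om → θ) (N : Om → ν) {w : Om} (hw : P.p w ≠ 0) :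
    Real.log (D3 (P.cond fun u => N u = N w) X Y Z (X w) (Y w) (Z w)) =
      lgr P X Y N w + lgr P (fun u => (X u, Y u)) Z N w := by
  have n0 := P.m_pos N hw
  have nx := P.m_pos (fun u => (X u, N u)) hw
  have ny := P.m_pos (fun u => (Y u, N u)) hw
  have nz := P.m_pos (fun u => (Z u, N u)) hw
  have nxyz := P.m_pos (fun u => ((Z u, X u, Y u), N u)) hw
  have nxy := P.m_pos (fun u => ((X u, Y u), N u)) hw
  have e2 : P.m (fun u => (Y u, X u, N u)) w = P.m (fun u => ((X u, Y u), N u)) w := by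
    refine P.m_congr ?_ ?_ w <;>
    · intro a b hab
      simp only [Prod.mk.injEq] at hab ⊢
      tauto
  have e3 : P.m (fun u => (Z u, (X u, Y u), N u)) w = P.m (fun u => ((Z u, X u, Y u), N u)) w := by
    refine P.m_congr ?_ ?_ w <;>
    · intro a b hab
      simp only [Prod.mk.injEq] at hab ⊢
      tauto
  unfold D3
  rw [lw3_eq_m, P.cond_m_fibre (fun v => (Z v, X v, Y v)) N hw rfl]
  have f1 : lw (P.cond fun u => N u = N w) X (X w) = P.m (fun u => (X u, N u)) w / P.m N w :=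
    P.cond_m_fibre X N hw rfl
  have f2 : lw (P.cond fun u => N u = N w) Y (Y w) = P.m (fun u => (Y u, N u)) w / P.m N w :=
    P.cond_m_fibre Y N hw rfl
  have f3 : lw (P.cond fun u => N u = N w) Z (Z w) = P.m (fun u => (Z u, N u)) w / P.m N w :=
    P.cond_m_fibre Z N hw rfl
  rw [f1, f2, f3]
  unfold lgr sp
  rw [e2, e3, Real.log_div (div_pos nxyz n0).ne' (mul_pos (mul_pos (div_pos nx n0) (div_pos ny n0)) (div_pos nz n0)).ne',
    Real.log_mul (mul_pos (div_pos nx n0) (div_pos ny n0)).ne' (div_pos nz n0).ne',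
    Real.log_mul (div_pos nx n0).ne' (div_pos ny n0).ne', Real.log_div nxyz.ne' n0.ne', Real.log_div nx.ne' n0.ne',
    Real.log_div ny.ne' n0.ne', Real.log_div nz.ne' n0.ne']
  ring

/-- a trivial third letter -/
theorem lgr_unit (A : Om → κ) (N : Om → ν) (w : Om) : lgr P A (fun _ => ()) N w = 0 := by
  unfold lgr
  rw [sp_const P (X := fun _ : Om => ()) (Z := N) (fun _ _ _ => rfl),
    sp_const P (X := fun _ : Om => ()) (Z := fun u => (A u, N u)) (fun _ _ _ => rfl), sub_self]

/-- the letters `A` and `Y` may be exchanged -/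
theorem lgr_symm (A : Om → κ) (Y : Om → ι) (N : Om → ν) (w : Om) : lgr P A Y N w = lgr P Y A N w := by
  have e : P.m (fun u => (Y u, A u, N u)) w = P.m (fun u => (A u, Y u, N u)) w := by
    refine P.m_congr ?_ ?_ w <;>
    · intro a b hab
      simp only [Prod.mk.injEq] at hab ⊢
      tauto
  unfold lgr sp
  rw [e]
  ring

/-- relative entropy depends on the laws of the letter only -/
theorem kl_lw {Q Q' : FP Om} (Y : Om → ι) (h : ∀ y, lw Q Y y = lw Q' Y y) : Q.kl P Y = Q'.kl P Y := by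
  have e : ∀ R : FP Om, R.kl P Y = ∑ y ∈ vals Y, lw R Y y * Real.log (lw R Y y / lw P Y y) := fun R =>
    (sum_lw R Y (fun y => Real.log (lw R Y y / lw P Y y))).symm
  rw [e, e]
  exact Finset.sum_congr rfl fun y _ => by rw [h y]

end gen

/-! ### the process -/

section proc

variable {X β γ φ υ : Type} [Fintype X] [Fintype β] [Fintype φ] [Nonempty X] [Nonempty β]
variable {D : HD (Fin 3) X β γ φ} {al : ℝ} {h : D.Thick al} {v : ℕ → Finset (Fin 3) → X → (Fin 3 → β) → υ}

/-- any order of the three letters -/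
theorem D3_perm {Om κ : Type*} [Fintype Om] (P : FP Om) (L : Fin 3 → Om → κ) (x : Fin 3 → κ) {i k j : Fin 3} (hik : i ≠ k)
    (hij : i ≠ j) (hkj : k ≠ j) : D3 P (L 0) (L 1) (L 2) (x 0) (x 1) (x 2) = D3 P (L i) (L k) (L j) (x i) (x k) (x j) := by
  have a := D3_12 (P := P) (L 0) (L 1) (L 2) (x 0) (x 1) (x 2)
  have b := D3_23 (P := P) (L 0) (L 1) (L 2) (x 0) (x 1) (x 2)
  have c := D3_23 (P := P) (L 1) (L 0) (L 2) (x 1) (x 0) (x 2)
  have d := D3_12 (P := P) (L 0) (L 2) (L 1) (x 0) (x 2) (x 1)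
  have e := D3_12 (P := P) (L 1) (L 2) (L 0) (x 1) (x 2) (x 0)
  fin_cases i <;> fin_cases k <;> fin_cases j <;> first
    | exact absurd rfl hik
    | exact absurd rfl hij
    | exact absurd rfl hkj
    | rfl
    | exact a
    | exact b
    | exact a.trans c
    | exact b.trans d
    | exact a.trans (c.trans e)

/-- the density of the three thin letters, any order -/
theorem DL_split {t s n : ℕ} {i k j : Fin 3} (hik : i ≠ k) (hij : i ≠ j) (hkj : k ≠ j) {w : Pt (Fin 3) X β φ}
    (hw : (D.P h t).p w ≠ 0) : Real.log (DL h v t s n w) = lgr (D.P h t) (XL v s i) (XL v s k) (NP D v s n) w +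
      lgr (D.P h t) (fun u => (XL v s i u, XL v s k u)) (XL v s j) (NP D v s n) w := by
  rw [← D3_split (XL v s i) (XL v s k) (XL v s j) (NP D v s n) hw]
  unfold DL Pc
  rw [D3_perm _ (fun i => XL v s i) (fun i => XL v s i w) hik hij hkj]

/-- the density of the thin letters of two vertices -/
theorem DJ_split {t s n : ℕ} {i k : Fin 3} {w : Pt (Fin 3) X β φ} (hw : (D.P h t).p w ≠ 0) :
    Real.log (DJ h v i k t s n w) = lgr (D.P h t) (XL v s i) (XL v s k) (NP D v s n) w := by
  have h1 := D3_split (P := D.P h t) (XL v s i) (XL v s k) (fun _ => ()) (NP D v s n) hw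
  rw [lgr_unit, add_zero] at h1
  exact h1

/-- the hidden points with the letter of `w` -/
def Ev (v : ℕ → Finset (Fin 3) → X → (Fin 3 → β) → υ) (s : ℕ) (i : Fin 3) (w : Pt (Fin 3) X β φ) (x : X) : Prop :=
  Gl v s w i (XL v s i w) x

theorem mC_pos (hv : Codes D v) (t : ℕ) {s n : ℕ} (hs : s ≤ n + 1) {w : Pt (Fin 3) X β φ} (hw : (D.P h t).p w ≠ 0)
    (i : Fin 3) : 0 < mC D n w i (w.2.1 i) ∧ 0 < (muC D v s n w).Pr (Ev v s i w) := by
  have h1 : 0 < lw (Pc h v t s n w) (XL v s i) (XL v s i w) := by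
    refine (Pc h v t s n w).m_pos (XL v s i) (w := w) ?_
    exact (FP.cond_p_ne ((D.P h t).m_pos (NP D v s n) hw).ne').2 ⟨rfl, hw⟩
  rw [Pc_lw hv t hs] at h1
  have a : 0 ≤ mC D n w i (w.2.1 i) := mC_nonneg n w i _
  have b : 0 ≤ (muC D v s n w).Pr (Ev v s i w) := FP.Pr_nonneg _ _
  have h2 : 0 < mC D n w i (w.2.1 i) * (muC D v s n w).Pr (Ev v s i w) := h1
  exact ⟨lt_of_le_of_ne a fun hh => by rw [← hh, zero_mul] at h2; exact lt_irrefl _ h2,
    lt_of_le_of_ne b fun hh => by rw [← hh, mul_zero] at h2; exact lt_irrefl _ h2⟩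

theorem mu2_pos (hv : Codes D v) (t : ℕ) {s n : ℕ} (hs : s ≤ n + 1) {w : Pt (Fin 3) X β φ} (hw : (D.P h t).p w ≠ 0)
    {i k : Fin 3} (hik : i ≠ k) : 0 < (muC D v s n w).Pr (fun x => Ev v s i w x ∧ Ev v s k w x) := by
  have h1 : 0 < (Pc h v t s n w).m (fun u => (XL v s i u, XL v s k u)) w := by
    refine (Pc h v t s n w).m_pos _ (w := w) ?_
    exact (FP.cond_p_ne ((D.P h t).m_pos (NP D v s n) hw).ne').2 ⟨rfl, hw⟩
  rw [← lw2_eq_m] at h1
  have h3 : lw2 (Pc h v t s n w) (XL v s i) (XL v s k) (XL v s i w) (XL v s k w) = _ := Pc_L2 (h := h) hv t hs w hik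
    (XL v s i w) (XL v s k w)
  rw [h3] at h1
  have b : 0 ≤ (muC D v s n w).Pr (fun x => Ev v s i w x ∧ Ev v s k w x) := FP.Pr_nonneg _ _
  have h2 : 0 < mC D n w i (w.2.1 i) * (mC D n w k (w.2.1 k) *
    (muC D v s n w).Pr (fun x => Ev v s i w x ∧ Ev v s k w x)) := h1
  exact lt_of_le_of_ne b fun hh => by rw [← hh, mul_zero, mul_zero] at h2; exact lt_irrefl _ h2

theorem Pr_Ev (hv : Codes D v) (t : ℕ) {s n : ℕ} (hs : s ≤ n + 1) (w : Pt (Fin 3) X β φ) (E : X → Prop) :
    (Pc h v t s n w).Pr (fun u => E u.1) = (muC D v s n w).Pr E := Pc_E0 (h := h) hv t hs w (fun x => ind (E x))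

/-- **one letter**: `klr` is the relative entropy under an event of the hidden point -/
theorem klr_one (hv : Codes D v) (t : ℕ) {s n : ℕ} (hs : s ≤ n + 1) {w : Pt (Fin 3) X β φ} (hw : (D.P h t).p w ≠ 0)
    {i k : Fin 3} (hik : i ≠ k) : klr (D.P h t) (XL v s i) (XL v s k) (NP D v s n) w =
      ((Pc h v t s n w).cond fun u => Ev v s i w u.1).kl (Pc h v t s n w) (XL v s k) := by
  obtain ⟨m1, m2⟩ := mC_pos (h := h) hv t hs hw i
  have hE : (Pc h v t s n w).Pr (fun u => Ev v s i w u.1) ≠ 0 := by rw [Pr_Ev hv t hs]; exact m2.ne'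
  have hA : (Pc h v t s n w).Pr (fun u => XL v s i u = XL v s i w) =
      mC D n w i (w.2.1 i) * (muC D v s n w).Pr (Ev v s i w) := Pc_lw (h := h) hv t hs w i (XL v s i w)
  have hA0 : (Pc h v t s n w).Pr (fun u => XL v s i u = XL v s i w) ≠ 0 := by rw [hA]; exact (mul_pos m1 m2).ne'
  refine kl_lw (P := Pc h v t s n w) _ fun z => ?_
  show ((Pc h v t s n w).cond fun u => XL v s i u = XL v s i w).E (fun u => ind (XL v s k u = z)) =
    ((Pc h v t s n w).cond fun u => Ev v s i w u.1).E (fun u => ind (XL v s k u = z))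
  rw [FP.cond_E hA0, FP.cond_E hE, hA, Pr_Ev hv t hs]
  have h1 : (Pc h v t s n w).E (fun u => ind (XL v s i u = XL v s i w) * ind (XL v s k u = z)) =
      mC D n w i (w.2.1 i) * (mC D n w k z.1 * (muC D v s n w).Pr fun x => Ev v s i w x ∧ Gl v s w k z x) :=
    Pc_L2 (h := h) hv t hs w hik (XL v s i w) z
  have h2 : (Pc h v t s n w).E (fun u => ind (Ev v s i w u.1) * ind (XL v s k u = z)) =
      mC D n w k z.1 * (muC D v s n w).Pr fun x => Ev v s i w x ∧ Gl v s w k z x :=
    Pc_L1 (h := h) hv t hs w (Ev v s i w) k z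
  rw [h1, h2]
  rw [mul_div_mul_left _ _ m1.ne']

/-- **two letters**: `klr` is the relative entropy under an event of the hidden point -/
theorem klr_two (hv : Codes D v) (t : ℕ) {s n : ℕ} (hs : s ≤ n + 1) {w : Pt (Fin 3) X β φ} (hw : (D.P h t).p w ≠ 0)
    {i k j : Fin 3} (hik : i ≠ k) (hij : i ≠ j) (hkj : k ≠ j) :
    klr (D.P h t) (fun u => (XL v s i u, XL v s k u)) (XL v s j) (NP D v s n) w =
      ((Pc h v t s n w).cond fun u => Ev v s i w u.1 ∧ Ev v s k w u.1).kl (Pc h v t s n w) (XL v s j) := by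
  obtain ⟨m1, -⟩ := mC_pos (h := h) hv t hs hw i
  obtain ⟨m1', -⟩ := mC_pos (h := h) hv t hs hw k
  have m2 := mu2_pos (h := h) hv t hs hw hik
  have hE1 := Pr_Ev (h := h) hv t hs w (fun x => Ev v s i w x ∧ Ev v s k w x)
  have hE : (Pc h v t s n w).Pr (fun u => Ev v s i w u.1 ∧ Ev v s k w u.1) ≠ 0 := by rw [hE1]; exact m2.ne'
  have hpt : ∀ u : Pt (Fin 3) X β φ, ind ((XL v s i u, XL v s k u) = (XL v s i w, XL v s k w)) =
      ind (XL v s i u = XL v s i w) * ind (XL v s k u = XL v s k w) := fun u => by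
    rw [Prod.mk.injEq, ind_and]
  have hA : (Pc h v t s n w).Pr (fun u => (XL v s i u, XL v s k u) = (XL v s i w, XL v s k w)) =
      mC D n w i (w.2.1 i) * (mC D n w k (w.2.1 k) * (muC D v s n w).Pr (fun x => Ev v s i w x ∧ Ev v s k w x)) := by
    have h1 := Pc_L2 (h := h) hv t hs w hik (XL v s i w) (XL v s k w)
    refine Eq.trans ?_ h1
    exact FP.E_congr _ fun u _ => hpt u
  have hA0 : (Pc h v t s n w).Pr (fun u => (XL v s i u, XL v s k u) = (XL v s i w, XL v s k w)) ≠ 0 := by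
    rw [hA]; exact (mul_pos m1 (mul_pos m1' m2)).ne'
  refine kl_lw (P := Pc h v t s n w) _ fun z => ?_
  show ((Pc h v t s n w).cond fun u => (XL v s i u, XL v s k u) = (XL v s i w, XL v s k w)).E
      (fun u => ind (XL v s j u = z)) =
    ((Pc h v t s n w).cond fun u => Ev v s i w u.1 ∧ Ev v s k w u.1).E (fun u => ind (XL v s j u = z))
  rw [FP.cond_E hA0, FP.cond_E hE, hA, hE1]
  have h1 : (Pc h v t s n w).E (fun u => ind ((XL v s i u, XL v s k u) = (XL v s i w, XL v s k w)) *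
      ind (XL v s j u = z)) = mC D n w i (w.2.1 i) * (mC D n w k (w.2.1 k) * (mC D n w j z.1 *
        (muC D v s n w).Pr fun x => (Ev v s i w x ∧ Ev v s k w x) ∧ Gl v s w j z x)) := by
    refine Eq.trans ?_ (Pc_L3 (h := h) hv t hs w hik hij hkj (XL v s i w) (XL v s k w) z)
    exact FP.E_congr _ fun u _ => by rw [hpt u]
  have h2 : (Pc h v t s n w).E (fun u => ind (Ev v s i w u.1 ∧ Ev v s k w u.1) * ind (XL v s j u = z)) =
      mC D n w j z.1 * (muC D v s n w).Pr fun x => (Ev v s i w x ∧ Ev v s k w x) ∧ Gl v s w j z x :=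
    Pc_L1 (h := h) hv t hs w (fun x => Ev v s i w x ∧ Ev v s k w x) j z
  rw [h1, h2, mul_div_mul_left _ _ m1.ne', mul_div_mul_left _ _ m1'.ne']

/-! ### surprisals -/

/-- masses in the cell -/
theorem m_cell {κ : Type*} (F : Pt (Fin 3) X β φ → κ) {t s n : ℕ} {w : Pt (Fin 3) X β φ} (hw : (D.P h t).p w ≠ 0) :
    (D.P h t).m (fun u => (F u, NP D v s n u)) w = (D.P h t).m (NP D v s n) w * (Pc h v t s n w).m F w := by
  have h1 := (D.P h t).cond_m_fibre F (NP D v s n) hw (v := w) rfl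
  have h2 := (D.P h t).m_pos (NP D v s n) hw
  have h3 : (Pc h v t s n w).m F w = (D.P h t).m (fun u => (F u, NP D v s n u)) w / (D.P h t).m (NP D v s n) w := h1
  rw [h3]
  field_simp

theorem m_pt1 (hv : Codes D v) (t : ℕ) {s n : ℕ} (hs : s ≤ n + 1) (w : Pt (Fin 3) X β φ) (i : Fin 3) :
    (Pc h v t s n w).m (fun u => u.2.1 i) w = mC D n w i (w.2.1 i) := by
  have h1 := Pc_E (h := h) hv t hs w (fun _ => 1) (fun j b => if j = i then ind (b = w.2.1 i) else 1)
  have h2 : ∀ j, (nuC D n w j).E (fun b => if j = i then ind (b = w.2.1 i) else 1) =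
      if j = i then mC D n w i (w.2.1 i) else 1 := by
    intro j
    by_cases hj : j = i
    · subst hj; simp only [if_true]; rfl
    · simp only [hj, if_false]; exact FP.E_const _ _
  rw [Finset.prod_congr rfl fun j _ => h2 j, Finset.prod_ite_eq' univ i, if_pos (mem_univ i), FP.E_const, one_mul] at h1
  refine Eq.trans ?_ h1
  refine FP.E_congr _ fun u _ => ?_
  rw [one_mul, Finset.prod_ite_eq' univ i (fun j => ind (u.2.1 j = w.2.1 i)), if_pos (mem_univ i)]

/-- a letter and a point of another vertex -/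
theorem m_mix (hv : Codes D v) (t : ℕ) {s n : ℕ} (hs : s ≤ n + 1) (w : Pt (Fin 3) X β φ) {i k : Fin 3} (hik : i ≠ k) :
    (Pc h v t s n w).m (fun u => (XL v s i u, u.2.1 k)) w =
      mC D n w i (w.2.1 i) * (mC D n w k (w.2.1 k) * (muC D v s n w).Pr (Ev v s i w)) := by
  have h1 := Pc_E (h := h) hv t hs w (fun x => ind (Ev v s i w x))
    (fun j b => (if j = i then ind (b = w.2.1 i) else 1) * (if j = k then ind (b = w.2.1 k) else 1))
  have h2 : ∀ j, (nuC D n w j).E (fun b => (if j = i then ind (b = w.2.1 i) else 1) *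
      (if j = k then ind (b = w.2.1 k) else 1)) =
      (if j = i then mC D n w i (w.2.1 i) else 1) * (if j = k then mC D n w k (w.2.1 k) else 1) := by
    intro j
    by_cases hj : j = i
    · subst hj
      simp only [if_true, hik, if_false, mul_one]; rfl
    · by_cases hj' : j = k
      · subst hj'
        simp only [if_true, hj, if_false, one_mul]; rfl
      · simp only [hj, hj', if_false, one_mul]; exact FP.E_const _ _
  rw [Finset.prod_congr rfl fun j _ => h2 j, Finset.prod_mul_distrib, Finset.prod_ite_eq' univ i,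
    Finset.prod_ite_eq' univ k, if_pos (mem_univ i), if_pos (mem_univ k)] at h1
  have h3 : mC D n w i (w.2.1 i) * (mC D n w k (w.2.1 k) * (muC D v s n w).Pr (Ev v s i w)) =
      (muC D v s n w).E (fun x => ind (Ev v s i w x)) * (mC D n w i (w.2.1 i) * mC D n w k (w.2.1 k)) := by
    unfold FP.Pr; ring
  rw [h3]
  refine Eq.trans ?_ h1
  refine FP.E_congr _ fun u hu => ?_
  show ind ((XL v s i u, u.2.1 k) = (XL v s i w, w.2.1 k)) = _
  rw [Finset.prod_mul_distrib, Finset.prod_ite_eq' univ i (fun j => ind (u.2.1 j = w.2.1 i)),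
    Finset.prod_ite_eq' univ k (fun j => ind (u.2.1 j = w.2.1 k)), if_pos (mem_univ k), if_pos (mem_univ i),
    Prod.mk.injEq, ind_and, ind_cg (XL_iff hv hs (Pc_supp hv hs hu) i (XL v s i w)), ind_and]
  show ind (u.2.1 i = w.2.1 i) * ind (Ev v s i w u.1) * _ = _
  ring

/-- **the surprisal of one letter** -/
theorem sp_one (hv : Codes D v) (t : ℕ) {s n : ℕ} (hs : s ≤ n + 1) {w : Pt (Fin 3) X β φ} (hw : (D.P h t).p w ≠ 0)
    (i : Fin 3) : sp (D.P h t) (XL v s i) (fun u => (u.2.1 i, NP D v s n u)) w =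
      Real.log (1 / (Pc h v t s n w).Pr fun u => Ev v s i w u.1) := by
  obtain ⟨m1, m2⟩ := mC_pos (h := h) hv t hs hw i
  have m0 := (D.P h t).m_pos (NP D v s n) hw
  have e : (D.P h t).m (fun u => (XL v s i u, u.2.1 i, NP D v s n u)) w =
      (D.P h t).m (fun u => (XL v s i u, NP D v s n u)) w := by
    refine (D.P h t).m_congr ?_ ?_ w
    · intro a b hab
      simp only [Prod.mk.injEq] at hab ⊢
      exact ⟨hab.1, hab.2.2⟩
    · intro a b hab
      simp only [Prod.mk.injEq] at hab ⊢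
      exact ⟨hab.1, congrArg Prod.fst hab.1, hab.2⟩
  have e2 : (Pc h v t s n w).m (XL v s i) w = mC D n w i (w.2.1 i) * (muC D v s n w).Pr (Ev v s i w) :=
    Pc_lw (h := h) hv t hs w i (XL v s i w)
  unfold sp
  rw [e, m_cell _ hw, m_cell _ hw, m_pt1 hv t hs, e2, Pr_Ev hv t hs, Real.log_mul m0.ne' m1.ne',
    Real.log_mul m0.ne' (mul_pos m1 m2).ne', Real.log_mul m1.ne' m2.ne', one_div, Real.log_inv]
  ring

/-- **the surprisal of the letter `k` given the letter `i` and its own point** -/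
theorem sp_mix (hv : Codes D v) (t : ℕ) {s n : ℕ} (hs : s ≤ n + 1) {w : Pt (Fin 3) X β φ} (hw : (D.P h t).p w ≠ 0)
    {i k : Fin 3} (hik : i ≠ k) : sp (D.P h t) (XL v s k) (fun u => ((XL v s i u, u.2.1 k), NP D v s n u)) w =
      Real.log (1 / (Pc h v t s n w).Pr fun u => Ev v s i w u.1 ∧ Ev v s k w u.1) -
        Real.log (1 / (Pc h v t s n w).Pr fun u => Ev v s i w u.1) := by
  obtain ⟨m1, m2⟩ := mC_pos (h := h) hv t hs hw i
  obtain ⟨m1', -⟩ := mC_pos (h := h) hv t hs hw k
  have m3 := mu2_pos (h := h) hv t hs hw hik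
  have m0 := (D.P h t).m_pos (NP D v s n) hw
  have e : (D.P h t).m (fun u => (XL v s k u, (XL v s i u, u.2.1 k), NP D v s n u)) w =
      (D.P h t).m (fun u => ((XL v s i u, XL v s k u), NP D v s n u)) w := by
    refine (D.P h t).m_congr ?_ ?_ w
    · intro a b hab
      simp only [Prod.mk.injEq] at hab ⊢
      exact ⟨⟨hab.2.1.1, hab.1⟩, hab.2.2⟩
    · intro a b hab
      simp only [Prod.mk.injEq] at hab ⊢
      exact ⟨hab.1.2, ⟨hab.1.1, congrArg Prod.fst hab.1.2⟩, hab.2⟩
  have e2 : (Pc h v t s n w).m (fun u => (XL v s i u, XL v s k u)) w = mC D n w i (w.2.1 i) *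
      (mC D n w k (w.2.1 k) * (muC D v s n w).Pr (fun x => Ev v s i w x ∧ Ev v s k w x)) := by
    rw [← lw2_eq_m]
    exact Pc_L2 (h := h) hv t hs w hik (XL v s i w) (XL v s k w)
  have e3 := Pr_Ev (h := h) hv t hs w (fun x => Ev v s i w x ∧ Ev v s k w x)
  unfold sp
  rw [e, m_cell _ hw, m_cell _ hw, m_mix hv t hs w hik, e2, Pr_Ev hv t hs, e3,
    Real.log_mul m0.ne' (mul_pos m1 (mul_pos m1' m2)).ne', Real.log_mul m0.ne' (mul_pos m1 (mul_pos m1' m3)).ne',
    Real.log_mul m1.ne' (mul_pos m1' m2).ne', Real.log_mul m1.ne' (mul_pos m1' m3).ne', Real.log_mul m1'.ne' m2.ne',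
    Real.log_mul m1'.ne' m3.ne', one_div, one_div, Real.log_inv, Real.log_inv]
  ring

end proc

end Pool.Agent.GMH.V3.Kil
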