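import Pool.Agent.GMH.VDyn
import Pool.Agent.GMH.Kill3
import Pool.Agent.GMH.DeadY
import Pool.Agent.GMH.V3I

/-!
# GMH/KillA: points killed by the additions, thin level (helper95, statements of helper91)

* `kilA` = probabilities of the single kills from the half step `2 t + 1` to `2 t + 2` (public conditions, one letter);
* `sps_step` : the surprisal of the new letter = surprisal of the old letter - log of its ratio in the child + surprisal of the
  private code; `E_sps`, `E_spk` : their means on events where the old letters are alive;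
* `klr_le1`, `klr_le2` : saturation; `mainA1`, `mainA2` : the two factors of the density on an event of `(letter i, public)`;
* **`killA_V`**, **`killA_J`**.
-/

set_option autoImplicit false
set_option linter.unusedSectionVars false

namespace Pool.Agent.GMH.V3

open Finset Pool.Agent.PWZ Pool.Agent.M3 Pool.Agent.GM Pool.Agent.GM.Harm Pool.Agent.GMH Pool.Agent.GMH.NZ
open Pool.Agent.GMH.Dead (Dry m_time Hc_time Pr_time)

variable {X β γ φ υ : Type} [Fintype X] [Fintype β] [Fintype φ] [Nonempty X] [Nonempty β]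

/-- probabilities of the single kills by the additions of the time `t + 1` -/
noncomputable def kilA {D : HD (Fin 3) X β γ φ} {al : ℝ} (h : D.Thick al) (v : ℕ → Finset (Fin 3) → X → (Fin 3 → β) → υ)
    (p : AP) (t : ℕ) : ℝ :=
  (D.P h (t + 1)).Pr (fun w => PBr h v p (2 * t + 1) w ∧ ¬ PBr h v p (2 * (t + 1)) w) +
    ∑ i, (D.P h (t + 1)).Pr (fun w => TTr h v p (2 * t + 1) i w ∧ ¬ TTr h v p (2 * (t + 1)) i w)

namespace Kil

section stepA

variable {D : HD (Fin 3) X β γ φ} {al : ℝ} (h : D.Thick al) {v : ℕ → Finset (Fin 3) → X → (Fin 3 → β) → υ}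

theorem NP_new {t : ℕ} {a b : Pt (Fin 3) X β φ} : NP D v (t + 2) (t + 1) a = NP D v (t + 2) (t + 1) b ↔
    Vt v (t + 1) ∅ a = Vt v (t + 1) ∅ b ∧ NP D v (t + 1) (t + 1) a = NP D v (t + 1) (t + 1) b := by
  constructor
  · intro hh
    have h1 : Um v (t + 2) ∅ a.1 a.2.1 = Um v (t + 2) ∅ b.1 b.2.1 := congrArg (fun z => z.1) hh
    have h2 : nd D (t + 1) a = nd D (t + 1) b := congrArg (fun z => z.2) hh
    exact ⟨(Um_eq.1 h1).2, Prod.ext (Um_eq.1 h1).1 h2⟩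
  · rintro ⟨h1, hh⟩
    have h3 : Um v (t + 1) ∅ a.1 a.2.1 = Um v (t + 1) ∅ b.1 b.2.1 := congrArg (fun z => z.1) hh
    have h2 : nd D (t + 1) a = nd D (t + 1) b := congrArg (fun z => z.2) hh
    exact Prod.ext (Um_eq.2 ⟨h3, h1⟩) h2

theorem XL_old {t : ℕ} {i : Fin 3} {a b : Pt (Fin 3) X β φ} (hab : XL v (t + 2) i a = XL v (t + 2) i b) :
    XL v (t + 1) i a = XL v (t + 1) i b :=
  Prod.ext (congrArg (fun z => z.1) hab) (Um_eq.1 (congrArg (fun z => z.2) hab)).1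

theorem XL_pt {s : ℕ} {i : Fin 3} {a b : Pt (Fin 3) X β φ} (hab : XL v s i a = XL v s i b) : a.2.1 i = b.2.1 i :=
  congrArg (fun z => z.1) hab

theorem sps_even (t : ℕ) (i : Fin 3) (w : Pt (Fin 3) X β φ) : sps h v (2 * (t + 1)) i w =
    sp (D.P h (t + 1)) (XL v (t + 2) i) (fun u => (u.2.1 i, NP D v (t + 2) (t + 1) u)) w := by
  unfold sps
  rw [Pr_even, XLr_even, NPr_even]

theorem dry_XL (s : ℕ) (i : Fin 3) : Dry (φ := φ) (XL v s i) := fun a b h1 h2 =>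
  Prod.ext (congrFun h2 i) (by
    show Um v s {i} a.1 a.2.1 = Um v s {i} b.1 b.2.1
    rw [h1, h2])

theorem dry_NP (s n : ℕ) : Dry (φ := φ) (NP D v s n) := fun a b h1 h2 => by
  show (Um v s ∅ a.1 a.2.1, (D.qa n a.1, fun j => D.qb n (a.2.1 j))) =
    (Um v s ∅ b.1 b.2.1, (D.qa n b.1, fun j => D.qb n (b.2.1 j)))
  rw [h1, h2]

theorem sps_odd (t : ℕ) (i : Fin 3) (w : Pt (Fin 3) X β φ) : sps h v (2 * t + 1) i w =
    sp (D.P h (t + 1)) (XL v (t + 1) i) (fun u => (u.2.1 i, NP D v (t + 1) (t + 1) u)) w := by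
  unfold sps
  rw [Pr_odd, XLr_odd, NPr_odd]
  exact sp_time h (dry_XL _ i) ((dry_pt i).prod (dry_NP _ _)) t (t + 1) w

/-- **one step of the surprisal of a letter** -/
theorem sps_step (hv : Codes D v) (t : ℕ) (i : Fin 3) {w : Pt (Fin 3) X β φ} (hw : (D.P h (t + 1)).p w ≠ 0) :
    sps h v (2 * (t + 1)) i w = sps h v (2 * t + 1) i w -
      lgr (D.P h (t + 1)) (Vt v (t + 1) ∅) (XL v (t + 1) i) (NP D v (t + 1) (t + 1)) w +
      sp (D.P h (t + 1)) (XL v (t + 2) i) (fun u => (XL v (t + 1) i u, u.2.1 i, NP D v (t + 2) (t + 1) u)) w := by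
  rw [sps_even, sps_odd]
  set P := D.P h (t + 1) with hP
  have e1 : P.m (fun u => (XL v (t + 2) i u, XL v (t + 1) i u, u.2.1 i, NP D v (t + 2) (t + 1) u)) w =
      P.m (fun u => (XL v (t + 2) i u, u.2.1 i, NP D v (t + 2) (t + 1) u)) w := by
    refine P.m_congr ?_ ?_ w
    · intro a b hab
      simp only [Prod.mk.injEq] at hab ⊢
      exact ⟨hab.1, hab.2.2⟩
    · intro a b hab
      simp only [Prod.mk.injEq] at hab ⊢
      exact ⟨hab.1, XL_old hab.1, hab.2⟩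
  have e2 : P.m (fun u => (XL v (t + 1) i u, u.2.1 i, NP D v (t + 2) (t + 1) u)) w =
      P.m (fun u => (XL v (t + 1) i u, Vt v (t + 1) ∅ u, NP D v (t + 1) (t + 1) u)) w := by
    refine P.m_congr ?_ ?_ w
    · intro a b hab
      simp only [Prod.mk.injEq] at hab ⊢
      exact ⟨hab.1, NP_new.1 hab.2.2⟩
    · intro a b hab
      simp only [Prod.mk.injEq] at hab ⊢
      exact ⟨hab.1, XL_pt hab.1, NP_new.2 hab.2⟩
  have e3 : P.m (fun u => (XL v (t + 1) i u, u.2.1 i, NP D v (t + 1) (t + 1) u)) w =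
      P.m (fun u => (XL v (t + 1) i u, NP D v (t + 1) (t + 1) u)) w := by
    refine P.m_congr ?_ ?_ w
    · intro a b hab
      simp only [Prod.mk.injEq] at hab ⊢
      exact ⟨hab.1, hab.2.2⟩
    · intro a b hab
      simp only [Prod.mk.injEq] at hab ⊢
      exact ⟨hab.1, XL_pt hab.1, hab.2⟩
  have e4 : P.m (fun u => (Vt v (t + 1) ∅ u, NP D v (t + 1) (t + 1) u)) w = P.m (NP D v (t + 2) (t + 1)) w := by
    refine P.m_congr ?_ ?_ w
    · intro a b hab
      simp only [Prod.mk.injEq] at hab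
      exact NP_new.2 hab
    · intro a b hab
      simp only [Prod.mk.injEq]
      exact NP_new.1 hab
  have m0 := P.m_pos (NP D v (t + 1) (t + 1)) hw
  have m0' := P.m_pos (NP D v (t + 2) (t + 1)) hw
  obtain ⟨m1, -⟩ := mC_pos (h := h) hv (t + 1) (le_refl (t + 2)) hw i
  have e5 : P.m (fun u => (u.2.1 i, NP D v (t + 2) (t + 1) u)) w =
      P.m (NP D v (t + 2) (t + 1)) w * mC D (t + 1) w i (w.2.1 i) := by
    rw [m_cell _ hw, m_pt1 hv (t + 1) (le_refl (t + 2)) w i]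
  have e6 : P.m (fun u => (u.2.1 i, NP D v (t + 1) (t + 1) u)) w =
      P.m (NP D v (t + 1) (t + 1)) w * mC D (t + 1) w i (w.2.1 i) := by
    rw [m_cell _ hw, m_pt1 hv (t + 1) (Nat.le_succ (t + 1)) w i]
  unfold lgr sp
  rw [e1, e2, e3, e4, e5, e6, Real.log_mul m0.ne' m1.ne', Real.log_mul m0'.ne' m1.ne']
  ring

/-- the mean of the new surprisal on an event where the old letter is alive -/
theorem E_sps (hv : Codes D v) (t : ℕ) (i : Fin 3) {S : Pt (Fin 3) X β φ → Prop} {X0 K0 : ℝ} (hK : 4 ≤ K0)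
    (hS : ∀ w, (D.P h (t + 1)).p w ≠ 0 → S w → sps h v (2 * t + 1) i w ≤ X0) :
    (D.P h (t + 1)).E (fun w => ind (S w) * sps h v (2 * (t + 1)) i w) ≤ (X0 + K0) * (D.P h (t + 1)).Pr S +
      2 * Real.exp (-(K0 / 2)) * (D.P h (t + 1)).I (XL v (t + 1) i) (Vt v (t + 1) ∅) (NP D v (t + 1) (t + 1)) +
      cst h v (t + 1) {i} := by
  set P := D.P h (t + 1) with hP
  have h1 : P.E (fun w => ind (S w) * sps h v (2 * (t + 1)) i w) ≤ P.E (fun w => X0 * ind (S w) +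
      ind (S w) * max (-lgr P (Vt v (t + 1) ∅) (XL v (t + 1) i) (NP D v (t + 1) (t + 1)) w) 0 +
      sp P (XL v (t + 2) i) (fun u => (XL v (t + 1) i u, u.2.1 i, NP D v (t + 2) (t + 1) u)) w) := by
    refine P.E_mono fun w hw => ?_
    have h2 := sps_step h hv t i hw
    have h3 := sp_nonneg P (XL v (t + 2) i) (fun u => (XL v (t + 1) i u, u.2.1 i, NP D v (t + 2) (t + 1) u)) hw
    by_cases hs : S w
    · have h4 := hS w hw hs
      have h5 := le_max_left (-lgr P (Vt v (t + 1) ∅) (XL v (t + 1) i) (NP D v (t + 1) (t + 1)) w) 0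
      rw [ind_of hs, h2]
      linarith
    · rw [ind_not hs]
      linarith
  rw [P.E_add, P.E_add, P.E_smul, E_sp] at h1
  have h2 := rat_le (P := P) (Vt v (t + 1) ∅) (XL v (t + 1) i) (NP D v (t + 1) (t + 1)) hK S
  have h3 : cst h v (t + 1) {i} =
      P.Hc (XL v (t + 2) i) (fun u => (XL v (t + 1) i u, u.2.1 i, NP D v (t + 2) (t + 1) u)) := cst_one h (t + 1) i
  have h4 : P.Pr S = P.E (fun w => ind (S w)) := rfl
  rw [h3, h4]
  rw [h4] at h2
  linarith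

/-- the surprisal of the letter `k` given the letter `i` -/
noncomputable def spk (v : ℕ → Finset (Fin 3) → X → (Fin 3 → β) → υ) (t : ℕ) (i k : Fin 3) (w : Pt (Fin 3) X β φ) : ℝ :=
  sp (D.P h (t + 1)) (XL v (t + 2) k) (fun u => ((XL v (t + 2) i u, u.2.1 k), NP D v (t + 2) (t + 1) u)) w

/-- its mean on an event where the old letter `k` is alive -/
theorem E_spk (t : ℕ) (i k : Fin 3) {S S' : Pt (Fin 3) X β φ → Prop} {X0 : ℝ}
    (hS' : ∀ a b, XL v (t + 2) i a = XL v (t + 2) i b → NP D v (t + 2) (t + 1) a = NP D v (t + 2) (t + 1) b →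
      (S' a ↔ S' b)) (hSS : ∀ w, S w → S' w) (hX : ∀ w, (D.P h (t + 1)).p w ≠ 0 → S w → sps h v (2 * t + 1) k w ≤ X0) :
    (D.P h (t + 1)).E (fun w => ind (S w) * spk h v t i k w) ≤ X0 * (D.P h (t + 1)).Pr S +
      (D.P h (t + 1)).Pr S' + cst h v (t + 1) {k} := by
  set P := D.P h (t + 1) with hP
  set Z : Pt (Fin 3) X β φ → _ := fun u => ((XL v (t + 2) i u, u.2.1 k), NP D v (t + 2) (t + 1) u) with hZ
  have e : ∀ w, spk h v t i k w = sp P (XL v (t + 1) k) Z w +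
      sp P (XL v (t + 2) k) (fun u => (XL v (t + 1) k u, Z u)) w := by
    intro w
    rw [← sp_chain P (XL v (t + 2) k) (XL v (t + 1) k) Z w]
    refine sp_congr P ?_ (Fac.refl _) ?_ (Fac.refl _) w
    · intro a b hab
      have h1 : XL v (t + 2) k a = XL v (t + 2) k b := congrArg Prod.fst hab
      exact Prod.ext h1 (XL_old h1)
    · intro a b hab
      exact congrArg (fun z => z.1.1) hab
  have h1 : P.E (fun w => ind (S w) * spk h v t i k w) ≤ P.E (fun w => ind (S w) * sp P (XL v (t + 1) k) Z w +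
      sp P (XL v (t + 2) k) (fun u => (XL v (t + 1) k u, Z u)) w) := by
    refine P.E_mono fun w hw => ?_
    rw [e w]
    have h3 := sp_nonneg P (XL v (t + 2) k) (fun u => (XL v (t + 1) k u, Z u)) hw
    by_cases hs : S w
    · rw [ind_of hs]
      linarith
    · rw [ind_not hs]
      linarith
  rw [P.E_add, E_sp] at h1
  have h2 := count_le (P := P) (X := XL v (t + 1) k) (Z := Z)
    (Z0 := fun u => (u.2.1 k, NP D v (t + 1) (t + 1) u)) (fun a b hab => by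
      have a1 : (XL v (t + 2) i a, a.2.1 k) = (XL v (t + 2) i b, b.2.1 k) := congrArg (fun z => z.1) hab
      have a2 : NP D v (t + 2) (t + 1) a = NP D v (t + 2) (t + 1) b := congrArg (fun z => z.2) hab
      exact Prod.ext (congrArg (fun z => z.2) a1) (NP_new.1 a2).2) (S := S) (S' := S')
    (fun a b hab => by
      have a1 : (XL v (t + 2) i a, a.2.1 k) = (XL v (t + 2) i b, b.2.1 k) := congrArg (fun z => z.1) hab
      have a2 : NP D v (t + 2) (t + 1) a = NP D v (t + 2) (t + 1) b := congrArg (fun z => z.2) hab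
      exact hS' a b (congrArg (fun z => z.1) a1) a2) (fun w _ => hSS w) (X0 := X0)
    (fun w hw hs => by rw [← sps_odd]; exact hX w hw hs)
  have h3 : P.Hc (XL v (t + 2) k) (fun u => (XL v (t + 1) k u, Z u)) ≤ cst h v (t + 1) {k} := by
    have h4 : cst h v (t + 1) {k} =
      P.Hc (XL v (t + 2) k) (fun u => (XL v (t + 1) k u, u.2.1 k, NP D v (t + 2) (t + 1) u)) := cst_one h (t + 1) k
    rw [h4]
    refine P.Hc_anti _ ?_
    intro a b hab
    have a0 : XL v (t + 1) k a = XL v (t + 1) k b := congrArg (fun z => z.1) hab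
    have a1 : (XL v (t + 2) i a, a.2.1 k) = (XL v (t + 2) i b, b.2.1 k) := congrArg (fun z => z.2.1) hab
    have a2 : NP D v (t + 2) (t + 1) a = NP D v (t + 2) (t + 1) b := congrArg (fun z => z.2.2) hab
    exact Prod.ext a0 (Prod.ext (congrArg (fun z => z.2) a1) a2)
  linarith

/-- `I` of functions of the points -/
theorem I_time {κ ι θ : Type*} {F : Pt (Fin 3) X β φ → κ} {G : Pt (Fin 3) X β φ → ι} {W : Pt (Fin 3) X β φ → θ}
    (hF : Dry F) (hG : Dry G) (hW : Dry W) (s t : ℕ) : (D.P h s).I F G W = (D.P h t).I F G W := by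
  rw [FP.I_eq_Hc, FP.I_eq_Hc, Hc_time h hF hW s t, Hc_time h hF (hG.prod hW) s t]

theorem dry_Vt (t : ℕ) (I : Finset (Fin 3)) : Dry (φ := φ) (Vt v t I) := fun a b h1 h2 => by
  show v t I a.1 a.2.1 = v t I b.1 b.2.1
  rw [h1, h2]

/-- one gain is at most the sum of the gains -/
theorem I_le_KV (t : ℕ) (i : Fin 3) :
    (D.P h (t + 1)).I (XL v (t + 1) i) (Vt v (t + 1) ∅) (NP D v (t + 1) (t + 1)) ≤
      KV h v (Vt v (t + 1) ∅) t (t + 1) (t + 1) := by
  rw [I_time h (dry_XL _ i) (dry_Vt _ _) (dry_NP _ _) (t + 1) t]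
  unfold KV
  exact Finset.single_le_sum (f := fun i => (D.P h t).I (XL v (t + 1) i) (Vt v (t + 1) ∅) (NP D v (t + 1) (t + 1)))
    (fun j _ => FP.I_nonneg _ _ _ _) (mem_univ i)

end stepA

/-! ### saturation -/

section satA

variable {D : HD (Fin 3) X β γ φ} {al : ℝ} {h : D.Thick al} {N : Finset (Fin 3) → ℝ} {S : Finset (Finset (Fin 3))}
  {v : ℕ → Finset (Fin 3) → X → (Fin 3 → β) → Pt (Fin 3) X β φ}

theorem klr_le1 (R : Run h N S (AdmDep D) v) (hN : ∀ J ∈ S, 0 ≤ N J) (h0 : ∅ ∈ S)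
    (hS : ∀ i : Fin 3, {i} ∈ S) (hN0 : N ∅ = 1) {N1 : ℝ} (hN1 : ∀ i : Fin 3, N1 ≤ N {i}) (hN1p : 0 < N1) (t : ℕ)
    {i k : Fin 3} (hik : i ≠ k) {w : Pt (Fin 3) X β φ} (hw : (D.P h (t + 1)).p w ≠ 0) :
    klr (D.P h (t + 1)) (XL v (t + 2) i) (XL v (t + 2) k) (NP D v (t + 2) (t + 1)) w ≤
      2 / N1 * (sps h v (2 * (t + 1)) i w + 1) := by
  have hv := R.codes
  have m := (mC_pos (h := h) hv (t + 1) (le_refl (t + 2)) hw i).2
  have hE : (Pc h v (t + 1) (t + 2) (t + 1) w).Pr (fun u => Ev v (t + 2) i w u.1) ≠ 0 := by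
    rw [Pr_Ev hv (t + 1) (le_refl (t + 2))]
    exact m.ne'
  have h1 := sat_one R hN h0 hS (t + 1) hw (E := Ev v (t + 2) i w) hE k
  rw [sps_even, sp_one hv (t + 1) (le_refl (t + 2)) hw i]
  have h2 := klr_one (h := h) hv (t + 1) (le_refl (t + 2)) hw hik
  have h3 : 0 ≤ klr (D.P h (t + 1)) (XL v (t + 2) i) (XL v (t + 2) k) (NP D v (t + 2) (t + 1)) w := klr_nonneg _ _ _ _
  have h4 : N {k} * klr (D.P h (t + 1)) (XL v (t + 2) i) (XL v (t + 2) k) (NP D v (t + 2) (t + 1)) w ≤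
      2 * N ∅ * (Real.log (1 / (Pc h v (t + 1) (t + 2) (t + 1) w).Pr (fun u => Ev v (t + 2) i w u.1)) + 1) := by
    rw [h2]
    exact h1
  have h5 := mul_le_mul_of_nonneg_right (hN1 k) h3
  rw [hN0] at h4
  rw [div_mul_eq_mul_div, le_div_iff₀ hN1p]
  linarith

theorem klr_le2 (R : Run h N S (AdmDep D) v) (hN : ∀ J ∈ S, 0 ≤ N J) (h0 : ∅ ∈ S)
    (hS : ∀ i : Fin 3, {i} ∈ S) (hN0 : N ∅ = 1) {N1 : ℝ} (hN1 : ∀ i : Fin 3, N1 ≤ N {i}) (hN1p : 0 < N1) (t : ℕ)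
    {i k j : Fin 3} (hik : i ≠ k) (hij : i ≠ j) (hkj : k ≠ j) {w : Pt (Fin 3) X β φ} (hw : (D.P h (t + 1)).p w ≠ 0) :
    klr (D.P h (t + 1)) (fun u => (XL v (t + 2) i u, XL v (t + 2) k u)) (XL v (t + 2) j) (NP D v (t + 2) (t + 1)) w ≤
      2 / N1 * (sps h v (2 * (t + 1)) i w + spk h v t i k w + 1) := by
  have hv := R.codes
  have m := mu2_pos (h := h) hv (t + 1) (le_refl (t + 2)) hw hik
  have hE : (Pc h v (t + 1) (t + 2) (t + 1) w).Pr (fun u => Ev v (t + 2) i w u.1 ∧ Ev v (t + 2) k w u.1) ≠ 0 := by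
    have e := Pr_Ev (h := h) hv (t + 1) (le_refl (t + 2)) w (fun x => Ev v (t + 2) i w x ∧ Ev v (t + 2) k w x)
    rw [e]
    exact m.ne'
  have h1 := sat_one R hN h0 hS (t + 1) hw (E := fun x => Ev v (t + 2) i w x ∧ Ev v (t + 2) k w x) hE j
  have h2 := klr_two (h := h) hv (t + 1) (le_refl (t + 2)) hw hik hij hkj
  have h3 : 0 ≤ klr (D.P h (t + 1)) (fun u => (XL v (t + 2) i u, XL v (t + 2) k u)) (XL v (t + 2) j)
    (NP D v (t + 2) (t + 1)) w := klr_nonneg _ _ _ _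
  have h4 : N {j} * klr (D.P h (t + 1)) (fun u => (XL v (t + 2) i u, XL v (t + 2) k u)) (XL v (t + 2) j)
      (NP D v (t + 2) (t + 1)) w ≤
      2 * N ∅ * (Real.log (1 / (Pc h v (t + 1) (t + 2) (t + 1) w).Pr (fun u => Ev v (t + 2) i w u.1 ∧
        Ev v (t + 2) k w u.1)) + 1) := by
    rw [h2]
    exact h1
  have h5 := mul_le_mul_of_nonneg_right (hN1 j) h3
  have h6 := sp_one hv (t + 1) (le_refl (t + 2)) hw i
  have h7 := sp_mix hv (t + 1) (le_refl (t + 2)) hw hik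
  rw [hN0] at h4
  have h8 : sps h v (2 * (t + 1)) i w + spk h v t i k w = Real.log (1 / (Pc h v (t + 1) (t + 2) (t + 1) w).Pr
      (fun u => Ev v (t + 2) i w u.1 ∧ Ev v (t + 2) k w u.1)) := by
    rw [sps_even, h6]
    unfold spk
    rw [h7]
    ring
  rw [h8, div_mul_eq_mul_div, le_div_iff₀ hN1p]
  linarith

/-- constants -/
theorem exp_half {K0 : ℝ} (hK : 4 ≤ K0) : 2 * Real.exp (-(K0 / 2)) ≤ 1 := by
  have h1 : Real.exp (-(K0 / 2)) ≤ Real.exp (-2) := Real.exp_le_exp.2 (by linarith)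
  have h2 : Real.exp (-2) ≤ 1 / 2 := by
    rw [Real.exp_neg, ← one_div]
    refine one_div_le_one_div_of_le (by norm_num) ?_
    have := Real.add_one_le_exp (2 : ℝ)
    linarith
  linarith

/-- an event of the letter `i` and the public information where the old letter is alive -/
structure EvA (h : D.Thick al) (v : ℕ → Finset (Fin 3) → X → (Fin 3 → β) → Pt (Fin 3) X β φ) (X0 : ℝ) (t : ℕ) (i : Fin 3)
    (S1 : Pt (Fin 3) X β φ → Prop) : Prop where
  fac : ∀ a b, XL v (t + 2) i a = XL v (t + 2) i b → NP D v (t + 2) (t + 1) a = NP D v (t + 2) (t + 1) b → (S1 a ↔ S1 b)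
  old : ∀ w, S1 w → sps h v (2 * t + 1) i w ≤ X0

/-- the first factor of the density -/
theorem mainA1 (R : Run h N S (AdmDep D) v) (hN : ∀ J ∈ S, 0 ≤ N J) (h0 : ∅ ∈ S)
    (hS : ∀ i : Fin 3, {i} ∈ S) (hN0 : N ∅ = 1) {N1 : ℝ} (hN1 : ∀ i : Fin 3, N1 ≤ N {i}) {X0 K0 : ℝ}
    (hXN : X0 ≤ N1) (hK0 : 4 ≤ K0) (hKN : K0 ≤ N1) (t : ℕ) {i k : Fin 3} (hik : i ≠ k)
    {S1 : Pt (Fin 3) X β φ → Prop} (E : EvA h v X0 t i S1) :
    (D.P h (t + 1)).E (fun w => ind (S1 w) *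
      max (lgr (D.P h (t + 1)) (XL v (t + 2) i) (XL v (t + 2) k) (NP D v (t + 2) (t + 1)) w) 0) ≤
      6 * (D.P h (t + 1)).Pr S1 + 2 / N1 * (KV h v (Vt v (t + 1) ∅) t (t + 1) (t + 1) + cst h v (t + 1) {i}) := by
  have hN1p : 0 < N1 := by linarith
  have h1 := pos_le (P := D.P h (t + 1)) (XL v (t + 2) i) (XL v (t + 2) k) (NP D v (t + 2) (t + 1)) E.fac
  have h2 : (D.P h (t + 1)).E (fun w => ind (S1 w) * (klr (D.P h (t + 1)) (XL v (t + 2) i) (XL v (t + 2) k)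
      (NP D v (t + 2) (t + 1)) w + 1)) ≤ (D.P h (t + 1)).E (fun w => 2 / N1 * (ind (S1 w) * sps h v (2 * (t + 1)) i w) +
        (2 / N1 + 1) * ind (S1 w)) := by
    refine (D.P h (t + 1)).E_mono fun w hw => ?_
    have h3 := klr_le1 R hN h0 hS hN0 hN1 hN1p t hik hw
    have h4 := mul_le_mul_of_nonneg_left h3 (ind_nonneg (S1 w))
    have e : 2 / N1 * (ind (S1 w) * sps h v (2 * (t + 1)) i w) + (2 / N1 + 1) * ind (S1 w) =
        ind (S1 w) * (2 / N1 * (sps h v (2 * (t + 1)) i w + 1)) + ind (S1 w) := by ring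
    rw [e]
    linarith
  rw [FP.E_add, FP.E_smul, FP.E_smul] at h2
  have h3 := E_sps h R.codes t i hK0 (S := S1) (X0 := X0) (fun w _ hs => E.old w hs)
  have h4 : (D.P h (t + 1)).Pr S1 = (D.P h (t + 1)).E (fun w => ind (S1 w)) := rfl
  rw [← h4] at h2
  have h5 := I_le_KV h (v := v) t i
  have hI : 0 ≤ (D.P h (t + 1)).I (XL v (t + 1) i) (Vt v (t + 1) ∅) (NP D v (t + 1) (t + 1)) := FP.I_nonneg _ _ _ _
  have h6 := exp_half hK0
  have hPr : 0 ≤ (D.P h (t + 1)).Pr S1 := FP.Pr_nonneg _ _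
  have h2N : 0 ≤ 2 / N1 := by positivity
  have h7 : 2 / N1 * (D.P h (t + 1)).E (fun w => ind (S1 w) * sps h v (2 * (t + 1)) i w) ≤
      2 / N1 * ((X0 + K0) * (D.P h (t + 1)).Pr S1 + KV h v (Vt v (t + 1) ∅) t (t + 1) (t + 1) + cst h v (t + 1) {i}) := by
    refine mul_le_mul_of_nonneg_left ?_ h2N
    have h8 := mul_le_mul_of_nonneg_right h6 hI
    rw [one_mul] at h8
    linarith
  have h8 : 2 / N1 * ((X0 + K0) * (D.P h (t + 1)).Pr S1) ≤ 4 * (D.P h (t + 1)).Pr S1 := by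
    have e : 2 / N1 * ((X0 + K0) * (D.P h (t + 1)).Pr S1) = (2 * (X0 + K0) / N1) * (D.P h (t + 1)).Pr S1 := by ring
    rw [e]
    refine mul_le_mul_of_nonneg_right ?_ hPr
    rw [div_le_iff₀ hN1p]
    linarith
  have h9 : 2 / N1 ≤ 1 / 2 := by
    rw [div_le_iff₀ hN1p]
    linarith
  have h10 := mul_le_mul_of_nonneg_right h9 hPr
  have e2 : 2 / N1 * ((X0 + K0) * (D.P h (t + 1)).Pr S1 + KV h v (Vt v (t + 1) ∅) t (t + 1) (t + 1) +
      cst h v (t + 1) {i}) = 2 / N1 * ((X0 + K0) * (D.P h (t + 1)).Pr S1) +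
        2 / N1 * (KV h v (Vt v (t + 1) ∅) t (t + 1) (t + 1) + cst h v (t + 1) {i}) := by ring
  rw [e2] at h7
  linarith

/-- the second factor of the density -/
theorem mainA2 (R : Run h N S (AdmDep D) v) (hN : ∀ J ∈ S, 0 ≤ N J) (h0 : ∅ ∈ S)
    (hS : ∀ i : Fin 3, {i} ∈ S) (hN0 : N ∅ = 1) {N1 : ℝ} (hN1 : ∀ i : Fin 3, N1 ≤ N {i}) {X0 K0 : ℝ} (hX : 1 ≤ X0)
    (hXN : X0 ≤ N1) (hK0 : 4 ≤ K0) (hKN : K0 ≤ N1) (t : ℕ) {i k j : Fin 3} (hik : i ≠ k) (hij : i ≠ j) (hkj : k ≠ j)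
    {S1 : Pt (Fin 3) X β φ → Prop} (E : EvA h v X0 t i S1) :
    (D.P h (t + 1)).E (fun w => ind (S1 w ∧ sps h v (2 * t + 1) k w ≤ X0) *
      max (lgr (D.P h (t + 1)) (fun u => (XL v (t + 2) i u, XL v (t + 2) k u)) (XL v (t + 2) j)
        (NP D v (t + 2) (t + 1)) w) 0) ≤
      9 * (D.P h (t + 1)).Pr S1 + 2 / N1 * (KV h v (Vt v (t + 1) ∅) t (t + 1) (t + 1) + cst h v (t + 1) {i} +
        cst h v (t + 1) {k}) := by
  have hN1p : 0 < N1 := by linarith
  set S2 : Pt (Fin 3) X β φ → Prop := fun w => S1 w ∧ sps h v (2 * t + 1) k w ≤ X0 with hS2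
  have fS2 : ∀ a b, (XL v (t + 2) i a, XL v (t + 2) k a) = (XL v (t + 2) i b, XL v (t + 2) k b) →
      NP D v (t + 2) (t + 1) a = NP D v (t + 2) (t + 1) b → (S2 a ↔ S2 b) := by
    intro a b hab hN
    have h1 : XL v (t + 2) i a = XL v (t + 2) i b := congrArg (fun z => z.1) hab
    have h2 : XL v (t + 2) k a = XL v (t + 2) k b := congrArg (fun z => z.2) hab
    have h3 : sps h v (2 * t + 1) k a = sps h v (2 * t + 1) k b := by
      refine sps_fac h a b ?_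
      rw [NPr_odd, XLr_odd]
      exact Prod.ext (XL_old h2) (NP_new.1 hN).2
    show (S1 a ∧ _) ↔ (S1 b ∧ _)
    rw [h3]
    exact and_congr_left fun _ => E.fac a b h1 hN
  have h1 := pos_le (P := D.P h (t + 1)) (fun u => (XL v (t + 2) i u, XL v (t + 2) k u)) (XL v (t + 2) j)
    (NP D v (t + 2) (t + 1)) fS2
  have h2 : (D.P h (t + 1)).E (fun w => ind (S2 w) * (klr (D.P h (t + 1)) (fun u => (XL v (t + 2) i u, XL v (t + 2) k u))
      (XL v (t + 2) j) (NP D v (t + 2) (t + 1)) w + 1)) ≤ (D.P h (t + 1)).E (fun w =>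
        2 / N1 * (ind (S2 w) * sps h v (2 * (t + 1)) i w + ind (S2 w) * spk h v t i k w) +
        (2 / N1 + 1) * ind (S2 w)) := by
    refine (D.P h (t + 1)).E_mono fun w hw => ?_
    have h3 := klr_le2 R hN h0 hS hN0 hN1 hN1p t hik hij hkj hw
    have h4 := mul_le_mul_of_nonneg_left h3 (ind_nonneg (S2 w))
    have e : 2 / N1 * (ind (S2 w) * sps h v (2 * (t + 1)) i w + ind (S2 w) * spk h v t i k w) +
        (2 / N1 + 1) * ind (S2 w) =
        ind (S2 w) * (2 / N1 * (sps h v (2 * (t + 1)) i w + spk h v t i k w + 1)) + ind (S2 w) := by ring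
    rw [e]
    linarith
  rw [FP.E_add, FP.E_smul, FP.E_smul, FP.E_add] at h2
  have h3 := E_sps h R.codes t i hK0 (S := S2) (X0 := X0) (fun w _ hs => E.old w hs.1)
  have h3' := E_spk h (v := v) t i k (S := S2) (S' := S1) (X0 := X0) E.fac (fun w hs => hs.1) (fun w _ hs => hs.2)
  have h4 : (D.P h (t + 1)).Pr S2 = (D.P h (t + 1)).E (fun w => ind (S2 w)) := rfl
  rw [← h4] at h2
  have h5 := I_le_KV h (v := v) t i
  have hI : 0 ≤ (D.P h (t + 1)).I (XL v (t + 1) i) (Vt v (t + 1) ∅) (NP D v (t + 1) (t + 1)) := FP.I_nonneg _ _ _ _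
  have h6 := exp_half hK0
  have hP2 : (D.P h (t + 1)).Pr S2 ≤ (D.P h (t + 1)).Pr S1 := FP.Pr_mono _ fun w _ hs => hs.1
  have hPr2 : 0 ≤ (D.P h (t + 1)).Pr S2 := FP.Pr_nonneg _ _
  have hPr : 0 ≤ (D.P h (t + 1)).Pr S1 := FP.Pr_nonneg _ _
  have h2N : 0 ≤ 2 / N1 := by positivity
  have h7 : 2 / N1 * ((D.P h (t + 1)).E (fun w => ind (S2 w) * sps h v (2 * (t + 1)) i w) +
      (D.P h (t + 1)).E (fun w => ind (S2 w) * spk h v t i k w)) ≤
      2 / N1 * ((2 * X0 + K0 + 1) * (D.P h (t + 1)).Pr S1 + KV h v (Vt v (t + 1) ∅) t (t + 1) (t + 1) +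
        cst h v (t + 1) {i} + cst h v (t + 1) {k}) := by
    refine mul_le_mul_of_nonneg_left ?_ h2N
    have h8 := mul_le_mul_of_nonneg_right h6 hI
    rw [one_mul] at h8
    have h9 : (2 * X0 + K0) * (D.P h (t + 1)).Pr S2 ≤ (2 * X0 + K0) * (D.P h (t + 1)).Pr S1 :=
      mul_le_mul_of_nonneg_left hP2 (by linarith)
    linarith
  have h8 : 2 / N1 * ((2 * X0 + K0 + 1) * (D.P h (t + 1)).Pr S1) ≤ 7 * (D.P h (t + 1)).Pr S1 := by
    have e : 2 / N1 * ((2 * X0 + K0 + 1) * (D.P h (t + 1)).Pr S1) =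
        (2 * (2 * X0 + K0 + 1) / N1) * (D.P h (t + 1)).Pr S1 := by ring
    rw [e]
    refine mul_le_mul_of_nonneg_right ?_ hPr
    rw [div_le_iff₀ hN1p]
    linarith
  have h9 : 2 / N1 ≤ 1 / 2 := by
    rw [div_le_iff₀ hN1p]
    linarith
  have h10 := mul_le_mul_of_nonneg_right h9 hPr2
  have e2 : 2 / N1 * ((2 * X0 + K0 + 1) * (D.P h (t + 1)).Pr S1 + KV h v (Vt v (t + 1) ∅) t (t + 1) (t + 1) +
      cst h v (t + 1) {i} + cst h v (t + 1) {k}) = 2 / N1 * ((2 * X0 + K0 + 1) * (D.P h (t + 1)).Pr S1) +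
        2 / N1 * (KV h v (Vt v (t + 1) ∅) t (t + 1) (t + 1) + cst h v (t + 1) {i} + cst h v (t + 1) {k}) := by ring
  rw [e2] at h7
  linarith

/-! ### the events -/

/-- a letter is killed -/
def S1l (h : D.Thick al) (v : ℕ → Finset (Fin 3) → X → (Fin 3 → β) → Pt (Fin 3) X β φ) (p : AP) (t : ℕ) (i : Fin 3)
    (w : Pt (Fin 3) X β φ) : Prop := TTr h v p (2 * t + 1) i w ∧ ¬ TTr h v p (2 * (t + 1)) i w

/-- a public kill, letter `i` alive -/
def S1p (h : D.Thick al) (v : ℕ → Finset (Fin 3) → X → (Fin 3 → β) → Pt (Fin 3) X β φ) (p : AP) (t : ℕ) (i : Fin 3)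
    (w : Pt (Fin 3) X β φ) : Prop :=
  (PBr h v p (2 * t + 1) w ∧ ¬ PBr h v p (2 * (t + 1)) w) ∧ TTr h v p (2 * t + 1) i w

theorem TTr_new (p : AP) (t : ℕ) (i : Fin 3) {a b : Pt (Fin 3) X β φ} (h1 : XL v (t + 2) i a = XL v (t + 2) i b)
    (h2 : NP D v (t + 2) (t + 1) a = NP D v (t + 2) (t + 1) b) :
    (TTr h v p (2 * (t + 1)) i a ↔ TTr h v p (2 * (t + 1)) i b) ∧
      (TTr h v p (2 * t + 1) i a ↔ TTr h v p (2 * t + 1) i b) := by
  constructor
  · refine TTr_fac h p ?_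
    rw [NPr_even, XLr_even]
    exact Prod.ext h1 h2
  · refine TTr_fac h p ?_
    rw [NPr_odd, XLr_odd]
    exact Prod.ext (XL_old h1) (NP_new.1 h2).2

theorem PBr_new (p : AP) (t : ℕ) {a b : Pt (Fin 3) X β φ}
    (h2 : NP D v (t + 2) (t + 1) a = NP D v (t + 2) (t + 1) b) :
    (PBr h v p (2 * (t + 1)) a ↔ PBr h v p (2 * (t + 1)) b) ∧ (PBr h v p (2 * t + 1) a ↔ PBr h v p (2 * t + 1) b) := by
  constructor
  · refine PBr_fac h p ?_
    rw [NPr_even]
    exact h2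
  · refine PBr_fac h p ?_
    rw [NPr_odd]
    exact (NP_new.1 h2).2

theorem evA_l (p : AP) (t : ℕ) (i : Fin 3) : EvA h v p.X0 t i (S1l h v p t i) where
  fac a b h1 h2 := by
    have h3 := TTr_new (h := h) p t i h1 h2
    unfold S1l
    rw [h3.1, h3.2]
  old w hw := hw.1 (2 * t + 1) le_rfl

theorem evA_p (p : AP) (t : ℕ) (i : Fin 3) : EvA h v p.X0 t i (S1p h v p t i) where
  fac a b h1 h2 := by
    have h3 := TTr_new (h := h) p t i h1 h2
    have h4 := PBr_new (h := h) p t h2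
    unfold S1p
    rw [h3.2, h4.1, h4.2]
  old w hw := hw.2 (2 * t + 1) le_rfl

/-- the two factors at a point -/
noncomputable def G2 (h : D.Thick al) (v : ℕ → Finset (Fin 3) → X → (Fin 3 → β) → Pt (Fin 3) X β φ) (X0 : ℝ) (t : ℕ)
    (i k j : Fin 3) (S1 : Pt (Fin 3) X β φ → Prop) (w : Pt (Fin 3) X β φ) : ℝ :=
  ind (S1 w) * max (lgr (D.P h (t + 1)) (XL v (t + 2) i) (XL v (t + 2) k) (NP D v (t + 2) (t + 1)) w) 0 +
    ind (S1 w ∧ sps h v (2 * t + 1) k w ≤ X0) *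
      max (lgr (D.P h (t + 1)) (fun u => (XL v (t + 2) i u, XL v (t + 2) k u)) (XL v (t + 2) j)
        (NP D v (t + 2) (t + 1)) w) 0

theorem G2_nonneg (X0 : ℝ) (t : ℕ) (i k j : Fin 3) (S1 : Pt (Fin 3) X β φ → Prop) (w : Pt (Fin 3) X β φ) :
    0 ≤ G2 h v X0 t i k j S1 w :=
  add_nonneg (mul_nonneg (ind_nonneg _) (le_max_right _ _)) (mul_nonneg (ind_nonneg _) (le_max_right _ _))

theorem G2_ge {X0 : ℝ} {t : ℕ} {i k j : Fin 3} (hik : i ≠ k) (hij : i ≠ j) (hkj : k ≠ j)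
    {S1 : Pt (Fin 3) X β φ → Prop} {w : Pt (Fin 3) X β φ} (hw : (D.P h (t + 1)).p w ≠ 0) (h1 : S1 w)
    (h2 : sps h v (2 * t + 1) k w ≤ X0) :
    Real.log (DL h v (t + 1) (t + 2) (t + 1) w) ≤ G2 h v X0 t i k j S1 w := by
  rw [DL_split hik hij hkj hw]
  unfold G2
  rw [ind_of h1, ind_of (⟨h1, h2⟩ : S1 w ∧ sps h v (2 * t + 1) k w ≤ X0), one_mul, one_mul]
  exact add_le_add (le_max_left _ _) (le_max_left _ _)

theorem E_G2 (R : Run h N S (AdmDep D) v) (hN : ∀ J ∈ S, 0 ≤ N J) (h0 : ∅ ∈ S)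
    (hS : ∀ i : Fin 3, {i} ∈ S) (hN0 : N ∅ = 1) {N1 : ℝ} (hN1 : ∀ i : Fin 3, N1 ≤ N {i}) {X0 K0 : ℝ} (hX : 1 ≤ X0)
    (hXN : X0 ≤ N1) (hK0 : 4 ≤ K0) (hKN : K0 ≤ N1) (t : ℕ) {i k j : Fin 3} (hik : i ≠ k) (hij : i ≠ j) (hkj : k ≠ j)
    {S1 : Pt (Fin 3) X β φ → Prop} (E : EvA h v X0 t i S1) :
    (D.P h (t + 1)).E (G2 h v X0 t i k j S1) ≤ 15 * (D.P h (t + 1)).Pr S1 +
      8 / N1 * (KV h v (Vt v (t + 1) ∅) t (t + 1) (t + 1) + ∑ i : Fin 3, cst h v (t + 1) {i}) := by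
  have hN1p : 0 < N1 := by linarith
  have h1 := mainA1 R hN h0 hS hN0 hN1 hXN hK0 hKN t hik E
  have h2 := mainA2 R hN h0 hS hN0 hN1 hX hXN hK0 hKN t hik hij hkj E
  unfold G2
  rw [FP.E_add]
  have c1 : ∀ l : Fin 3, cst h v (t + 1) {l} ≤ ∑ i : Fin 3, cst h v (t + 1) {i} := fun l =>
    Finset.single_le_sum (f := fun i : Fin 3 => cst h v (t + 1) {i}) (fun _ _ => cst_nonneg h _ _) (mem_univ l)
  have hc0 : 0 ≤ ∑ i : Fin 3, cst h v (t + 1) {i} := Finset.sum_nonneg fun _ _ => cst_nonneg h _ _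
  have hK : 0 ≤ KV h v (Vt v (t + 1) ∅) t (t + 1) (t + 1) := Finset.sum_nonneg fun _ _ => FP.I_nonneg _ _ _ _
  have a1 := c1 i
  have a2 := c1 k
  have h3 : 2 / N1 * (KV h v (Vt v (t + 1) ∅) t (t + 1) (t + 1) + cst h v (t + 1) {i}) +
      2 / N1 * (KV h v (Vt v (t + 1) ∅) t (t + 1) (t + 1) + cst h v (t + 1) {i} + cst h v (t + 1) {k}) ≤
      8 / N1 * (KV h v (Vt v (t + 1) ∅) t (t + 1) (t + 1) + ∑ i : Fin 3, cst h v (t + 1) {i}) := by
    have e1 : 2 / N1 * (KV h v (Vt v (t + 1) ∅) t (t + 1) (t + 1) + cst h v (t + 1) {i}) +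
      2 / N1 * (KV h v (Vt v (t + 1) ∅) t (t + 1) (t + 1) + cst h v (t + 1) {i} + cst h v (t + 1) {k}) =
      (2 * (2 * KV h v (Vt v (t + 1) ∅) t (t + 1) (t + 1) + 2 * cst h v (t + 1) {i} + cst h v (t + 1) {k})) / N1 := by
      ring
    have e2 : 8 / N1 * (KV h v (Vt v (t + 1) ∅) t (t + 1) (t + 1) + ∑ i : Fin 3, cst h v (t + 1) {i}) =
      (8 * (KV h v (Vt v (t + 1) ∅) t (t + 1) (t + 1) + ∑ i : Fin 3, cst h v (t + 1) {i})) / N1 := by ring
    rw [e1, e2]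
    exact div_le_div_of_nonneg_right (by linarith) hN1p.le
  linarith

end satA

end Kil

open Kil

variable {D : HD (Fin 3) X β γ φ} {al : ℝ} {h : D.Thick al} {N : Finset (Fin 3) → ℝ} {S : Finset (Finset (Fin 3))}
  {v : ℕ → Finset (Fin 3) → X → (Fin 3 → β) → Pt (Fin 3) X β φ}
variable {dg : ℕ → X → ℝ} {prr : ℕ → Fin 3 → φ → φ} {T : ℕ} {Lam : ℝ}

/-- **killed by the codes** -/
theorem killA_V (R : Run h N S (AdmDep D) v) (hN : ∀ J ∈ S, 0 ≤ N J) (h0 : ∅ ∈ S)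
    (hS : ∀ i : Fin 3, {i} ∈ S) (hN0 : N ∅ = 1) {N1 : ℝ} (hN1 : ∀ i : Fin 3, N1 ≤ N {i}) (p : AP) (hX : 1 ≤ p.X0)
    (hXN : p.X0 ≤ N1) {K0 : ℝ} (hK0 : 4 ≤ K0) (hKN : K0 ≤ N1) (t : ℕ) :
    killA h prr v pth pcl (aV h v p) (aV' h v p) t ≤ 100 * kilA h v p t +
      100 / N1 * (KV h v (Vt v (t + 1) ∅) t (t + 1) (t + 1) + ∑ i : Fin 3, cst h v (t + 1) {i}) := by
  have hN1p : 0 < N1 := by linarith
  have hold : ∀ w, aV' h v p t (old prr t w) ↔ aV' h v p t w := by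
    intro w
    unfold aV'
    have e1 : PBr h v p (2 * t + 1) (old prr t w) ↔ PBr h v p (2 * t + 1) w := PBr_fac h p rfl
    have e2 : ∀ i, TTr h v p (2 * t + 1) i (old prr t w) ↔ TTr h v p (2 * t + 1) i w := fun i => TTr_fac h p rfl
    rw [e1]
    exact and_congr_right fun _ => forall_congr' e2
  have h1 : killA h prr v pth pcl (aV h v p) (aV' h v p) t ≤ (D.P h (t + 1)).E (fun w =>
      G2 h v p.X0 t 0 1 2 (S1p h v p t 0) w + (G2 h v p.X0 t 0 1 2 (S1l h v p t 0) w +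
        (G2 h v p.X0 t 1 0 2 (S1l h v p t 1) w + G2 h v p.X0 t 2 0 1 (S1l h v p t 2) w))) := by
    unfold killA
    refine (D.P h (t + 1)).E_mono fun w hw => ?_
    have g0 := G2_nonneg (h := h) (v := v) p.X0 t 0 1 2 (S1p h v p t 0) w
    have g1 := G2_nonneg (h := h) (v := v) p.X0 t 0 1 2 (S1l h v p t 0) w
    have g2 := G2_nonneg (h := h) (v := v) p.X0 t 1 0 2 (S1l h v p t 1) w
    have g3 := G2_nonneg (h := h) (v := v) p.X0 t 2 0 1 (S1l h v p t 2) w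
    have hmono : aV h v p (t + 1) w → aV' h v p t w := by
      rintro ⟨⟨a1, a2⟩, a3⟩
      exact ⟨⟨fun q hq => a1 q (by omega), fun s hs => a2 s (by omega)⟩, fun i q hq => a3 i q (by omega)⟩
    by_cases hn : aV h v p (t + 1) w
    · rw [ind_of ((hold w).2 (hmono hn)), ind_of hn, sub_self, zero_mul]
      linarith
    · by_cases ho : aV' h v p t w
      · rw [ind_of ((hold w).2 ho), ind_not hn, sub_zero, one_mul]
        have e : iR (D.P h (t + 1)) pth pcl (LL (Um v (t + 2))) (WW D (t + 1)) w =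
            Real.log (DL h v (t + 1) (t + 2) (t + 1) w) := iR_thin h R.codes le_rfl le_rfl hw
        rw [e]
        have hs : ∀ k, sps h v (2 * t + 1) k w ≤ p.X0 := fun k => ho.2 k (2 * t + 1) le_rfl
        by_cases hp : PBr h v p (2 * (t + 1)) w
        · have hex : ∃ i, ¬ TTr h v p (2 * (t + 1)) i w := by
            by_contra hc
            push Not at hc
            exact hn ⟨hp, hc⟩
          obtain ⟨i, hi⟩ := hex
          have hl : S1l h v p t i w := ⟨ho.2 i, hi⟩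
          fin_cases i
          · have := G2_ge (h := h) (v := v) (X0 := p.X0) (i := 0) (k := 1) (j := 2) (by decide) (by decide) (by decide)
              hw (S1 := S1l h v p t 0) hl (hs 1)
            linarith
          · have := G2_ge (h := h) (v := v) (X0 := p.X0) (i := 1) (k := 0) (j := 2) (by decide) (by decide) (by decide)
              hw (S1 := S1l h v p t 1) hl (hs 0)
            linarith
          · have := G2_ge (h := h) (v := v) (X0 := p.X0) (i := 2) (k := 0) (j := 1) (by decide) (by decide) (by decide)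
              hw (S1 := S1l h v p t 2) hl (hs 0)
            linarith
        · have hl : S1p h v p t 0 w := ⟨⟨ho.1, hp⟩, ho.2 0⟩
          have := G2_ge (h := h) (v := v) (X0 := p.X0) (i := 0) (k := 1) (j := 2) (by decide) (by decide) (by decide)
            hw hl (hs 1)
          linarith
      · rw [ind_not (fun hh => ho ((hold w).1 hh)), ind_not hn, sub_self, zero_mul]
        linarith
  rw [FP.E_add, FP.E_add, FP.E_add] at h1
  have f0 := E_G2 R hN h0 hS hN0 hN1 hX hXN hK0 hKN t (i := 0) (k := 1) (j := 2) (by decide) (by decide) (by decide)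
    (evA_p (h := h) p t 0)
  have f1 := E_G2 R hN h0 hS hN0 hN1 hX hXN hK0 hKN t (i := 0) (k := 1) (j := 2) (by decide) (by decide) (by decide)
    (evA_l (h := h) p t 0)
  have f2 := E_G2 R hN h0 hS hN0 hN1 hX hXN hK0 hKN t (i := 1) (k := 0) (j := 2) (by decide) (by decide) (by decide)
    (evA_l (h := h) p t 1)
  have f3 := E_G2 R hN h0 hS hN0 hN1 hX hXN hK0 hKN t (i := 2) (k := 0) (j := 1) (by decide) (by decide) (by decide)
    (evA_l (h := h) p t 2)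
  have f4 : (D.P h (t + 1)).Pr (S1p h v p t 0) ≤
      (D.P h (t + 1)).Pr (fun w => PBr h v p (2 * t + 1) w ∧ ¬ PBr h v p (2 * (t + 1)) w) :=
    FP.Pr_mono _ fun w _ hw => hw.1
  have f5 : kilA h v p t = (D.P h (t + 1)).Pr (fun w => PBr h v p (2 * t + 1) w ∧ ¬ PBr h v p (2 * (t + 1)) w) +
      ((D.P h (t + 1)).Pr (S1l h v p t 0) + (D.P h (t + 1)).Pr (S1l h v p t 1) + (D.P h (t + 1)).Pr (S1l h v p t 2)) := by
    unfold kilA
    rw [Fin.sum_univ_three]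
    rfl
  have p1 : 0 ≤ (D.P h (t + 1)).Pr (fun w => PBr h v p (2 * t + 1) w ∧ ¬ PBr h v p (2 * (t + 1)) w) := FP.Pr_nonneg _ _
  have p2 : 0 ≤ (D.P h (t + 1)).Pr (S1l h v p t 0) := FP.Pr_nonneg _ _
  have p3 : 0 ≤ (D.P h (t + 1)).Pr (S1l h v p t 1) := FP.Pr_nonneg _ _
  have p4 : 0 ≤ (D.P h (t + 1)).Pr (S1l h v p t 2) := FP.Pr_nonneg _ _
  have hc0 : 0 ≤ ∑ i : Fin 3, cst h v (t + 1) {i} := Finset.sum_nonneg fun _ _ => cst_nonneg h _ _
  have hK : 0 ≤ KV h v (Vt v (t + 1) ∅) t (t + 1) (t + 1) := Finset.sum_nonneg fun _ _ => FP.I_nonneg _ _ _ _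
  set A := KV h v (Vt v (t + 1) ∅) t (t + 1) (t + 1) + ∑ i : Fin 3, cst h v (t + 1) {i} with hA
  have hA0 : 0 ≤ A := add_nonneg hK hc0
  have q1 : 8 / N1 * A = 8 * A / N1 := by ring
  have q2 : 100 / N1 * A = 100 * A / N1 := by ring
  have q3 : 32 * A / N1 ≤ 100 * A / N1 := div_le_div_of_nonneg_right (by linarith) hN1p.le
  have q4 : 32 * A / N1 = 4 * (8 * A / N1) := by ring
  rw [f5, q2]
  rw [q1] at f0 f1 f2 f3
  linarith

/-- **killed by the codes**, two vertices -/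
theorem killA_J (R : Run h N S (AdmDep D) v) (hN : ∀ J ∈ S, 0 ≤ N J) (h0 : ∅ ∈ S)
    (hS : ∀ i : Fin 3, {i} ∈ S) (hN0 : N ∅ = 1) {N1 : ℝ} (hN1 : ∀ i : Fin 3, N1 ≤ N {i}) (p : AP)
    (hXN : p.X0 ≤ N1) {K0 : ℝ} (hK0 : 4 ≤ K0) (hKN : K0 ≤ N1) (t : ℕ)
    {i k j : Fin 3} (hik : i ≠ k) (hij : i ≠ j) (hkj : k ≠ j) :
    killA h prr v (pj j) pcl (aJ h v p i k) (aJ' h v p i k) t ≤ 100 * kilA h v p t +
      100 / N1 * (KV h v (Vt v (t + 1) ∅) t (t + 1) (t + 1) + ∑ i : Fin 3, cst h v (t + 1) {i}) := by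
  have hN1p : 0 < N1 := by linarith
  have hold : ∀ w, aJ' h v p i k t (old prr t w) ↔ aJ' h v p i k t w := by
    intro w
    unfold aJ'
    have e1 : PBr h v p (2 * t + 1) (old prr t w) ↔ PBr h v p (2 * t + 1) w := PBr_fac h p rfl
    have e2 : ∀ i, TTr h v p (2 * t + 1) i (old prr t w) ↔ TTr h v p (2 * t + 1) i w := fun i => TTr_fac h p rfl
    rw [e1, e2, e2]
  set g : Fin 3 → Fin 3 → (Pt (Fin 3) X β φ → Prop) → Pt (Fin 3) X β φ → ℝ := fun i k S1 w => ind (S1 w) *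
      max (lgr (D.P h (t + 1)) (XL v (t + 2) i) (XL v (t + 2) k) (NP D v (t + 2) (t + 1)) w) 0 with hg
  have gnn : ∀ i k S1 w, 0 ≤ g i k S1 w := fun i k S1 w => mul_nonneg (ind_nonneg _) (le_max_right _ _)
  have h1 : killA h prr v (pj j) pcl (aJ h v p i k) (aJ' h v p i k) t ≤ (D.P h (t + 1)).E (fun w =>
      g i k (S1p h v p t i) w + (g i k (S1l h v p t i) w + g k i (S1l h v p t k) w)) := by
    unfold killA
    refine (D.P h (t + 1)).E_mono fun w hw => ?_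
    have g0 := gnn i k (S1p h v p t i) w
    have g1 := gnn i k (S1l h v p t i) w
    have g2 := gnn k i (S1l h v p t k) w
    have hmono : aJ h v p i k (t + 1) w → aJ' h v p i k t w := by
      rintro ⟨⟨a1, a2⟩, a3, a4⟩
      exact ⟨⟨fun q hq => a1 q (by omega), fun s hs => a2 s (by omega)⟩, fun q hq => a3 q (by omega),
        fun q hq => a4 q (by omega)⟩
    by_cases hn : aJ h v p i k (t + 1) w
    · rw [ind_of ((hold w).2 (hmono hn)), ind_of hn, sub_self, zero_mul]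
      linarith
    · by_cases ho : aJ' h v p i k t w
      · rw [ind_of ((hold w).2 ho), ind_not hn, sub_zero, one_mul]
        have e : iR (D.P h (t + 1)) (pj j) pcl (LL (Um v (t + 2))) (WW D (t + 1)) w =
            Real.log (DJ h v i k (t + 1) (t + 2) (t + 1) w) := iR_pair h R.codes le_rfl le_rfl hik hij hkj hw
        rw [e, DJ_split hw]
        have hl0 := le_max_left (lgr (D.P h (t + 1)) (XL v (t + 2) i) (XL v (t + 2) k) (NP D v (t + 2) (t + 1)) w) 0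
        by_cases hp : PBr h v p (2 * (t + 1)) w
        · by_cases hi : TTr h v p (2 * (t + 1)) i w
          · have hk : ¬ TTr h v p (2 * (t + 1)) k w := fun hk => hn ⟨hp, hi, hk⟩
            have hl : S1l h v p t k w := ⟨ho.2.2, hk⟩
            have e3 : g k i (S1l h v p t k) w =
                max (lgr (D.P h (t + 1)) (XL v (t + 2) i) (XL v (t + 2) k) (NP D v (t + 2) (t + 1)) w) 0 := by
              simp only [hg]
              rw [ind_of hl, one_mul, lgr_symm]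
            linarith
          · have hl : S1l h v p t i w := ⟨ho.2.1, hi⟩
            have e3 : g i k (S1l h v p t i) w =
                max (lgr (D.P h (t + 1)) (XL v (t + 2) i) (XL v (t + 2) k) (NP D v (t + 2) (t + 1)) w) 0 := by
              simp only [hg]
              rw [ind_of hl, one_mul]
            linarith
        · have hl : S1p h v p t i w := ⟨⟨ho.1, hp⟩, ho.2.1⟩
          have e3 : g i k (S1p h v p t i) w =
              max (lgr (D.P h (t + 1)) (XL v (t + 2) i) (XL v (t + 2) k) (NP D v (t + 2) (t + 1)) w) 0 := by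
            simp only [hg]
            rw [ind_of hl, one_mul]
          linarith
      · rw [ind_not (fun hh => ho ((hold w).1 hh)), ind_not hn, sub_self, zero_mul]
        linarith
  rw [FP.E_add, FP.E_add] at h1
  have f0 := mainA1 R hN h0 hS hN0 hN1 hXN hK0 hKN t hik (evA_p (h := h) p t i)
  have f1 := mainA1 R hN h0 hS hN0 hN1 hXN hK0 hKN t hik (evA_l (h := h) p t i)
  have f2 := mainA1 R hN h0 hS hN0 hN1 hXN hK0 hKN t hik.symm (evA_l (h := h) p t k)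
  have f4 : (D.P h (t + 1)).Pr (S1p h v p t i) ≤
      (D.P h (t + 1)).Pr (fun w => PBr h v p (2 * t + 1) w ∧ ¬ PBr h v p (2 * (t + 1)) w) :=
    FP.Pr_mono _ fun w _ hw => hw.1
  have p1 : 0 ≤ (D.P h (t + 1)).Pr (fun w => PBr h v p (2 * t + 1) w ∧ ¬ PBr h v p (2 * (t + 1)) w) := FP.Pr_nonneg _ _
  have p2 : ∀ i, 0 ≤ (D.P h (t + 1)).Pr (S1l h v p t i) := fun _ => FP.Pr_nonneg _ _
  have f5 : kilA h v p t = (D.P h (t + 1)).Pr (fun w => PBr h v p (2 * t + 1) w ∧ ¬ PBr h v p (2 * (t + 1)) w) +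
      ∑ i, (D.P h (t + 1)).Pr (S1l h v p t i) := rfl
  have s1 : (D.P h (t + 1)).Pr (S1l h v p t i) ≤ ∑ i, (D.P h (t + 1)).Pr (S1l h v p t i) :=
    Finset.single_le_sum (f := fun i => (D.P h (t + 1)).Pr (S1l h v p t i)) (fun l _ => p2 l) (mem_univ i)
  have s2 : (D.P h (t + 1)).Pr (S1l h v p t k) ≤ ∑ i, (D.P h (t + 1)).Pr (S1l h v p t i) :=
    Finset.single_le_sum (f := fun i => (D.P h (t + 1)).Pr (S1l h v p t i)) (fun l _ => p2 l) (mem_univ k)
  have c1 : ∀ l : Fin 3, cst h v (t + 1) {l} ≤ ∑ i : Fin 3, cst h v (t + 1) {i} := fun l =>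
    Finset.single_le_sum (f := fun i : Fin 3 => cst h v (t + 1) {i}) (fun _ _ => cst_nonneg h _ _) (mem_univ l)
  have hc0 : 0 ≤ ∑ i : Fin 3, cst h v (t + 1) {i} := Finset.sum_nonneg fun _ _ => cst_nonneg h _ _
  have hK : 0 ≤ KV h v (Vt v (t + 1) ∅) t (t + 1) (t + 1) := Finset.sum_nonneg fun _ _ => FP.I_nonneg _ _ _ _
  have b1 := c1 i
  have b2 := c1 k
  set A := KV h v (Vt v (t + 1) ∅) t (t + 1) (t + 1) + ∑ i : Fin 3, cst h v (t + 1) {i} with hA
  have hA0 : 0 ≤ A := add_nonneg hK hc0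
  have q : ∀ l : Fin 3, 2 / N1 * (KV h v (Vt v (t + 1) ∅) t (t + 1) (t + 1) + cst h v (t + 1) {l}) ≤ 2 / N1 * A := by
    intro l
    refine mul_le_mul_of_nonneg_left ?_ (by positivity)
    have := c1 l
    linarith
  have q1 := q i
  have q1' := q k
  have p3 := p2 i
  have p4 := p2 k
  have q2 : 100 / N1 * A = 50 * (2 / N1 * A) := by ring
  have q3 : 0 ≤ 2 / N1 * A := mul_nonneg (by positivity) hA0
  rw [f5, q2]
  have t0 : (D.P h (t + 1)).E (g i k (S1p h v p t i)) ≤ 6 * (D.P h (t + 1)).Pr (S1p h v p t i) +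
    2 / N1 * (KV h v (Vt v (t + 1) ∅) t (t + 1) (t + 1) + cst h v (t + 1) {i}) := f0
  have t1 : (D.P h (t + 1)).E (g i k (S1l h v p t i)) ≤ 6 * (D.P h (t + 1)).Pr (S1l h v p t i) +
    2 / N1 * (KV h v (Vt v (t + 1) ∅) t (t + 1) (t + 1) + cst h v (t + 1) {i}) := f1
  have t2 : (D.P h (t + 1)).E (g k i (S1l h v p t k)) ≤ 6 * (D.P h (t + 1)).Pr (S1l h v p t k) +
    2 / N1 * (KV h v (Vt v (t + 1) ∅) t (t + 1) (t + 1) + cst h v (t + 1) {k}) := f2
  linarith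

/-! ### the single kills telescope -/

namespace Kil

variable {υ' : Type} {D' : HD (Fin 3) X β γ φ} {al' : ℝ} (h' : D'.Thick al') {v' : ℕ → Finset (Fin 3) → X → (Fin 3 → β) → υ'}

/-- a decreasing family of events of the points -/
theorem kil_one {E : ℕ → Pt (Fin 3) X β φ → Prop} (hE : ∀ q, Dry (E q)) (hm : ∀ q w, E (q + 1) w → E q w) (T : ℕ) :
    ∑ t ∈ range T, ((D'.P h' t).Pr (fun w => E (2 * t) w ∧ ¬ E (2 * t + 1) w) +
      (D'.P h' (t + 1)).Pr (fun w => E (2 * t + 1) w ∧ ¬ E (2 * (t + 1)) w)) ≤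
      (D'.P h' T).Pr (fun w => ¬ E (2 * T) w) := by
  set P := D'.P h' 0 with hP
  have dn : ∀ q, Dry (φ := φ) (fun w => ¬ E q w) := fun q a b h1 h2 => by
    show (¬ E q a) = ¬ E q b
    rw [hE q a b h1 h2]
  have da : ∀ q, Dry (φ := φ) (fun w => E q w ∧ ¬ E (q + 1) w) := fun q a b h1 h2 => by
    show (E q a ∧ ¬ E (q + 1) a) = (E q b ∧ ¬ E (q + 1) b)
    rw [hE q a b h1 h2, hE (q + 1) a b h1 h2]
  have e : ∀ q, P.Pr (fun w => E q w ∧ ¬ E (q + 1) w) = P.Pr (fun w => ¬ E (q + 1) w) - P.Pr (fun w => ¬ E q w) := by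
    intro q
    unfold FP.Pr
    rw [← P.E_sub]
    refine P.E_congr fun w _ => ?_
    by_cases h1 : E q w
    · by_cases h2 : E (q + 1) w
      · rw [ind_not (fun hh => hh.2 h2), ind_not (fun hh => hh h2), ind_not (fun hh => hh h1), sub_self]
      · rw [ind_of ⟨h1, h2⟩, ind_of h2, ind_not (fun hh => hh h1), sub_zero]
    · have h2 : ¬ E (q + 1) w := fun h2 => h1 (hm q w h2)
      rw [ind_not (fun hh => h1 hh.1), ind_of h2, ind_of h1, sub_self]
  have key : ∀ T : ℕ, ∑ t ∈ range T, ((D'.P h' t).Pr (fun w => E (2 * t) w ∧ ¬ E (2 * t + 1) w) +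
      (D'.P h' (t + 1)).Pr (fun w => E (2 * t + 1) w ∧ ¬ E (2 * (t + 1)) w)) =
      P.Pr (fun w => ¬ E (2 * T) w) - P.Pr (fun w => ¬ E 0 w) := by
    intro T
    induction T with
    | zero =>
      rw [Finset.sum_range_zero, Nat.mul_zero, sub_self]
    | succ T ih =>
      rw [Finset.sum_range_succ, ih]
      have a1 : (D'.P h' T).Pr (fun w => E (2 * T) w ∧ ¬ E (2 * T + 1) w) =
          P.Pr (fun w => E (2 * T) w ∧ ¬ E (2 * T + 1) w) := Pr_time h' (da (2 * T)) T 0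
      have a2 : (D'.P h' (T + 1)).Pr (fun w => E (2 * T + 1) w ∧ ¬ E (2 * (T + 1)) w) =
          P.Pr (fun w => E (2 * T + 1) w ∧ ¬ E (2 * T + 1 + 1) w) := Pr_time h' (da (2 * T + 1)) (T + 1) 0
      rw [a1, a2, e, e]
      have a3 : 2 * (T + 1) = 2 * T + 1 + 1 := by ring
      rw [a3]
      ring
  rw [key T]
  have h1 : (D'.P h' T).Pr (fun w => ¬ E (2 * T) w) = P.Pr (fun w => ¬ E (2 * T) w) := Pr_time h' (dn (2 * T)) T 0
  have h2 : 0 ≤ P.Pr (fun w => ¬ E 0 w) := FP.Pr_nonneg _ _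
  rw [h1]
  linarith

theorem dry_PBr (p : AP) (q : ℕ) : Dry (φ := φ) (PBr h' v' p q) := fun a b h1 h2 =>
  propext (PBr_fac h' p (dry_NPr q a b h1 h2))

theorem dry_TTr (p : AP) (q : ℕ) (i : Fin 3) : Dry (φ := φ) (TTr h' v' p q i) := fun a b h1 h2 =>
  propext (TTr_fac h' p (Prod.ext (dry_XLr q i a b h1 h2) (dry_NPr q a b h1 h2)))

/-- **THE SINGLE KILLS TELESCOPE** : by the digits and by the additions -/
theorem kil_sum (p : AP) (T : ℕ) :
    ∑ t ∈ range T, (((D'.P h' t).Pr (fun w => PBr h' v' p (2 * t) w ∧ ¬ PBr h' v' p (2 * t + 1) w) +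
      ∑ i, (D'.P h' t).Pr (fun w => TTr h' v' p (2 * t) i w ∧ ¬ TTr h' v' p (2 * t + 1) i w)) + kilA h' v' p t) ≤
      (D'.P h' T).Pr (fun w => ¬ PBr h' v' p (2 * T) w) +
        ∑ i, (D'.P h' T).Pr (fun w => ¬ TTr h' v' p (2 * T) i w) := by
  have h1 := kil_one h' (E := PBr h' v' p) (dry_PBr h' p)
    (fun q w hw => ⟨fun s hs => hw.1 s (by omega), fun t ht => hw.2 t (by omega)⟩) T
  have h2 : ∀ i, _ := fun i => kil_one h' (E := fun q => TTr h' v' p q i) (fun q => dry_TTr h' p q i)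
    (fun q w hw s hs => hw s (by omega)) T
  have h3 := Finset.sum_le_sum fun i (_ : i ∈ (univ : Finset (Fin 3))) => h2 i
  rw [Finset.sum_comm] at h3
  refine le_trans (le_of_eq ?_) (add_le_add h1 h3)
  rw [← Finset.sum_add_distrib]
  refine Finset.sum_congr rfl fun t _ => ?_
  unfold kilA
  rw [Finset.sum_add_distrib]
  ring

end Kil

end Pool.Agent.GMH.V3
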