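import Pool.Agent.GMH.V3I
import Pool.Agent.GMH.DeadP
import Pool.Agent.GMH.RowV
import Pool.Agent.GMH.VDyn

/-!
# GMH/KillD (helper25): thin level, the potential on the points killed by the digit is small
-/

set_option autoImplicit false
set_option linter.unusedSectionVars false

namespace Pool.Agent.GMH.V3.KillD

open Finset Pool.Agent.PWZ Pool.Agent.M3 Pool.Agent.GM Pool.Agent.GM.Harm Pool.Agent.GMH Pool.Agent.GMH.NZ
open Pool.Agent.GMH.V3

/-! ## abstract lemmas -/

section abst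

variable {Om : Type*} [Fintype Om] (P : FP Om) {κ ι ν : Type*}

theorem log_half {y : ℝ} (hy : 0 < y) : Real.log y ≤ y / 2 := by
  have h1 := Real.log_le_sub_one_of_pos (show 0 < y / 2 by linarith)
  have h2 : Real.log y = Real.log (y / 2) + Real.log 2 := by
    rw [← Real.log_mul (by positivity) (by norm_num)]
    congr 1
    ring
  have h3 := Real.log_two_lt_d9
  linarith

/-- `x log (1/x) ≤ sqrt x` -/
theorem xlog {x : ℝ} (hx : 0 < x) : x * Real.log (1 / x) ≤ Real.sqrt x := by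
  set s := Real.sqrt x with hs
  have hs0 : 0 < s := Real.sqrt_pos.2 hx
  have hss : s * s = x := Real.mul_self_sqrt hx.le
  have h1 : Real.log (1 / x) = 2 * Real.log (1 / s) := by
    rw [← hss, one_div, one_div, mul_inv, Real.log_mul (inv_pos.2 hs0).ne' (inv_pos.2 hs0).ne']
    ring
  have h2 := log_half (show 0 < 1 / s by positivity)
  rw [h1, ← hss]
  calc s * s * (2 * Real.log (1 / s)) ≤ s * s * (2 * (1 / s / 2)) := by
        refine mul_le_mul_of_nonneg_left (by linarith) (by positivity)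
    _ = s := by field_simp

/-- the density of `X` and `V` given `N` -/
noncomputable def dn (X : Om → κ) (V : Om → ι) (N : Om → ν) (w : Om) : ℝ :=
  P.m (fun v => (X v, V v, N v)) w * P.m N w / (P.m (fun v => (X v, N v)) w * P.m (fun v => (V v, N v)) w)

theorem dn_pos (X : Om → κ) (V : Om → ι) (N : Om → ν) {w : Om} (hw : P.p w ≠ 0) : 0 < dn P X V N w :=
  div_pos (mul_pos (P.m_pos _ hw) (P.m_pos _ hw)) (mul_pos (P.m_pos _ hw) (P.m_pos _ hw))

theorem E_dn_inv (X : Om → κ) (V : Om → ι) (N : Om → ν) : P.E (fun w => 1 / dn P X V N w) ≤ 1 := by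
  refine le_trans (le_of_eq (P.E_congr fun w _ => ?_)) (P.E_prod_le X V N)
  unfold dn
  rw [one_div_div]

theorem E_log_dn (X : Om → κ) (V : Om → ι) (N : Om → ν) : P.E (fun w => Real.log (dn P X V N w)) = P.I X V N := by
  unfold FP.I FP.H
  rw [← FP.E_add, ← FP.E_sub, ← FP.E_sub]
  refine P.E_congr fun w hw => ?_
  have a := (P.m_pos (fun v => (X v, V v, N v)) hw).ne'
  have b := (P.m_pos N hw).ne'
  have c := (P.m_pos (fun v => (X v, N v)) hw).ne'
  have d := (P.m_pos (fun v => (V v, N v)) hw).ne'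
  unfold dn
  rw [Real.log_div (mul_ne_zero a b) (mul_ne_zero c d), Real.log_mul a b, Real.log_mul c d]
  ring

theorem tail_pt {K0 r : ℝ} (hK : 4 ≤ K0) (hr : 0 < r) :
    ind (r < Real.exp (-K0)) * Real.log (1 / r) ≤ 2 * Real.exp (-(K0 / 2)) * (Real.log r - 1 + 1 / r) := by
  have h0 : 0 ≤ Real.log r - 1 + 1 / r := by
    have := Real.log_le_sub_one_of_pos (show 0 < 1 / r by positivity)
    rw [one_div, Real.log_inv] at this
    rw [one_div]
    linarith
  by_cases h : r < Real.exp (-K0)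
  · rw [ind_of h, one_mul]
    set s := Real.sqrt r with hs
    have hs0 : 0 < s := Real.sqrt_pos.2 hr
    have hss : s * s = r := Real.mul_self_sqrt hr.le
    have hse : s ≤ Real.exp (-(K0 / 2)) := by
      rw [hs]
      refine Real.sqrt_le_iff.2 ⟨(Real.exp_pos _).le, ?_⟩
      rw [← Real.exp_nat_mul]
      refine h.le.trans (le_of_eq ?_)
      congr 1
      push_cast
      ring
    have he : Real.exp (-(K0 / 2)) ≤ 1 / 4 := by
      have h1 : Real.exp (-(K0 / 2)) ≤ Real.exp (-2) := Real.exp_le_exp.2 (by linarith)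
      have h2 : Real.exp (-2) ≤ 1 / 4 := by
        have h3 := Real.add_one_le_exp (1 : ℝ)
        have h4 : Real.exp 2 = Real.exp 1 * Real.exp 1 := by rw [← Real.exp_add]; norm_num
        rw [Real.exp_neg, inv_eq_one_div]
        refine one_div_le_one_div_of_le (by norm_num) ?_
        rw [h4]
        nlinarith
      linarith
    have h1 := xlog hr
    rw [← hs] at h1
    have h2 : Real.log (1 / r) = - Real.log r := by rw [one_div, Real.log_inv]
    have h3 : Real.log (1 / r) ≤ s / r := by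
      rw [le_div_iff₀ hr]
      linarith
    have h4 : s / r ≤ Real.exp (-(K0 / 2)) / r := div_le_div_of_nonneg_right hse hr.le
    have h5 : 1 / 2 * (1 / r) ≤ Real.log r - 1 + 1 / r := by
      have h6 : Real.log (1 / r) ≤ 1 / 4 * (1 / r) := by
        refine h3.trans ?_
        rw [div_eq_mul_one_div]
        exact mul_le_mul_of_nonneg_right (hse.trans he) (by positivity)
      have h7 : 1 ≤ 1 / 4 * (1 / r) := by
        have h8 : r ≤ 1 / 16 := by nlinarith
        rw [mul_one_div, le_div_iff₀ hr]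
        linarith
      linarith
    have h6 : 2 * Real.exp (-(K0 / 2)) * (1 / 2 * (1 / r)) ≤
        2 * Real.exp (-(K0 / 2)) * (Real.log r - 1 + 1 / r) :=
      mul_le_mul_of_nonneg_left h5 (by positivity)
    have h7 : 2 * Real.exp (-(K0 / 2)) * (1 / 2 * (1 / r)) = Real.exp (-(K0 / 2)) / r := by ring
    linarith
  · rw [ind_not h, zero_mul]
    positivity

/-- **tail of the density**, paid by the information -/
theorem tail_le (X : Om → κ) (V : Om → ι) (N : Om → ν) {K0 : ℝ} (hK : 4 ≤ K0) :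
    P.E (fun w => ind (dn P X V N w < Real.exp (-K0)) * Real.log (1 / dn P X V N w)) ≤
      2 * Real.exp (-(K0 / 2)) * P.I X V N := by
  have h1 : P.E (fun w => ind (dn P X V N w < Real.exp (-K0)) * Real.log (1 / dn P X V N w)) ≤
      P.E (fun w => 2 * Real.exp (-(K0 / 2)) * (Real.log (dn P X V N w) - 1 + 1 / dn P X V N w)) :=
    P.E_mono fun w hw => tail_pt hK (dn_pos P X V N hw)
  refine h1.trans ?_
  rw [FP.E_smul]
  refine mul_le_mul_of_nonneg_left ?_ (by positivity)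
  have h2 := E_dn_inv P X V N
  have h3 := E_log_dn P X V N
  rw [FP.E_add, FP.E_sub, FP.E_const]
  linarith

/-- the negative part of the log of the density on an event -/
theorem ref_le (X : Om → κ) (V : Om → ι) (N : Om → ν) {K0 : ℝ} (hK : 4 ≤ K0) (A : Om → Prop) :
    P.E (fun w => ind (A w) * max (- Real.log (dn P X V N w)) 0) ≤
      K0 * P.Pr A + 2 * Real.exp (-(K0 / 2)) * P.I X V N := by
  have h1 := tail_le P X V N hK
  have h2 : P.E (fun w => ind (A w) * max (- Real.log (dn P X V N w)) 0) ≤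
      P.E (fun w => K0 * ind (A w) + ind (dn P X V N w < Real.exp (-K0)) * Real.log (1 / dn P X V N w)) := by
    refine P.E_mono fun w hw => ?_
    have hr := dn_pos P X V N hw
    have e : Real.log (1 / dn P X V N w) = - Real.log (dn P X V N w) := by rw [one_div, Real.log_inv]
    rw [e]
    by_cases h : dn P X V N w < Real.exp (-K0)
    · have h3 : Real.log (dn P X V N w) ≤ -K0 := by
        have := Real.log_le_log hr h.le
        rwa [Real.log_exp] at this
      rw [ind_of h, one_mul, max_eq_left (by linarith)]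
      have h4 := mul_le_mul_of_nonneg_right (ind_le_one (A w)) (show 0 ≤ - Real.log (dn P X V N w) by linarith)
      have h5 : 0 ≤ K0 * ind (A w) := mul_nonneg (by linarith) (ind_nonneg _)
      linarith
    · have h3 : -K0 ≤ Real.log (dn P X V N w) := by
        have := Real.log_le_log (Real.exp_pos _) (not_lt.1 h)
        rwa [Real.log_exp] at this
      rw [ind_not h, zero_mul, add_zero, mul_comm K0]
      exact mul_le_mul_of_nonneg_left (max_le (by linarith) (by linarith)) (ind_nonneg _)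
  rw [FP.E_add, FP.E_smul] at h2
  unfold FP.Pr
  linarith

/-- **positive part under a law with density at most two** -/
theorem pos_le {Q P R : FP Om} (hac : Q.Ac P) (Z : Om → κ) (hR : ∀ z, lw R Z z ≤ 2 * lw Q Z z) :
    R.E (fun u => max (Real.log (rt Q P Z (Z u))) 0) ≤ 2 * (Q.kl P Z + 1) := by
  have h1 : R.E (fun u => max (Real.log (rt Q P Z (Z u))) 0) ≤
      2 * Q.E (fun u => max (Real.log (rt Q P Z (Z u))) 0) := by
    rw [← sum_lw R Z (fun z => max (Real.log (rt Q P Z z)) 0), ← sum_lw Q Z (fun z => max (Real.log (rt Q P Z z)) 0),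
      Finset.mul_sum]
    refine Finset.sum_le_sum fun z _ => ?_
    rw [← mul_assoc]
    exact mul_le_mul_of_nonneg_right (hR z) (le_max_right _ _)
  refine h1.trans (mul_le_mul_of_nonneg_left ?_ (by norm_num))
  have h2 : Q.E (fun u => max (Real.log (rt Q P Z (Z u))) 0) ≤
      Q.E (fun u => Real.log (Q.m Z u / P.m Z u) + P.m Z u / Q.m Z u) := by
    refine Q.E_mono fun u hu => ?_
    have a := Q.m_pos Z hu
    have b := P.m_pos Z (hac u hu)
    have e : rt Q P Z (Z u) = Q.m Z u / P.m Z u := rfl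
    rw [e]
    have h3 := Real.log_le_sub_one_of_pos (div_pos b a)
    have h4 : Real.log (P.m Z u / Q.m Z u) = - Real.log (Q.m Z u / P.m Z u) := by
      rw [← Real.log_inv, inv_div]
    refine max_le ?_ ?_
    · have := (div_pos b a).le
      linarith
    · linarith
  refine h2.trans ?_
  rw [FP.E_add]
  have h3 := Q.E_ratio_le P (X := Z) (h := fun _ => 1) (Fac.const Z 1) (fun _ _ => zero_le_one)
  rw [FP.E_const] at h3
  simp only [mul_one] at h3
  unfold FP.kl
  linarith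

/-- **alive letters have at most `exp X0` values** -/
theorem cnt_le (X : Om → κ) (Z : Om → ι) {Z' : Om → ν} (hZ : Fac Z' Z) {A A' : Om → Prop} (hA' : Fac Z' A')
    (hAA : ∀ w, P.p w ≠ 0 → A w → A' w) {X0 : ℝ} (hX : ∀ w, P.p w ≠ 0 → A w → sp P X Z w ≤ X0) :
    P.E (fun w => ind (A w) * sp P X Z' w) ≤ X0 * P.Pr A + P.Pr A' := by
  set y : Om → ℝ := fun w => P.m Z' w * P.m (fun v => (X v, Z v)) w / (P.m (fun v => (X v, Z' v)) w * P.m Z w) with hy
  have hy0 : ∀ w, P.p w ≠ 0 → 0 < y w := fun w hw =>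
    div_pos (mul_pos (P.m_pos _ hw) (P.m_pos _ hw)) (mul_pos (P.m_pos _ hw) (P.m_pos _ hw))
  have h1 : P.E (fun w => ind (A w) * sp P X Z' w) ≤ P.E (fun w => X0 * ind (A w) + ind (A' w) * y w) := by
    refine P.E_mono fun w hw => ?_
    have a := P.m_pos Z' hw
    have b := P.m_pos (fun v => (X v, Z v)) hw
    have c := P.m_pos (fun v => (X v, Z' v)) hw
    have d := P.m_pos Z hw
    have e1 : sp P X Z' w = Real.log (y w) + sp P X Z w := by
      unfold sp
      rw [hy]
      simp only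
      rw [Real.log_div (mul_pos a b).ne' (mul_pos c d).ne', Real.log_mul a.ne' b.ne', Real.log_mul c.ne' d.ne']
      ring
    by_cases hA : A w
    · rw [ind_of hA, ind_of (hAA w hw hA), e1]
      have h2 := Real.log_le_sub_one_of_pos (hy0 w hw)
      have h3 := hX w hw hA
      linarith
    · rw [ind_not hA, zero_mul, mul_zero, zero_add]
      exact mul_nonneg (ind_nonneg _) (hy0 w hw).le
  refine h1.trans ?_
  rw [FP.E_add, FP.E_smul]
  have h2 : P.E (fun w => ind (A' w) * y w) ≤ P.Pr A' := by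
    have h3 : Fac Z' (fun w => ind (A' w)) := Fac.ind fun a b hab => by
      have := hA' a b hab
      exact iff_of_eq this
    rw [← P.E_mul_ce h3 y]
    unfold FP.Pr
    refine P.E_mono fun w hw => ?_
    have h4 : P.ce Z' y w ≤ 1 := by
      rw [P.ce_eq_cond Z' y hw]
      have hm := (P.m_pos Z' hw).ne'
      have hmZ := (P.m_pos Z hw).ne'
      have hac : (P.cond fun u => Z' u = Z' w).Ac (P.cond fun u => Z u = Z w) := by
        intro u hu
        obtain ⟨h5, h6⟩ := (FP.cond_p_ne hm).1 hu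
        exact (FP.cond_p_ne hmZ).2 ⟨hZ u w h5, h6⟩
      have h5 := (P.cond fun u => Z' u = Z' w).E_ratio_le (P.cond fun u => Z u = Z w) (X := X) (h := fun _ => 1)
        (Fac.const X 1) (fun _ _ => zero_le_one)
      rw [FP.E_const] at h5
      refine le_trans (le_of_eq (FP.E_congr _ fun u hu => ?_)) h5
      obtain ⟨h6, h7⟩ := (FP.cond_p_ne hm).1 hu
      rw [P.cond_m_fibre X Z' hw h6, P.cond_m_fibre X Z hw (hZ u w h6), mul_one, hy]
      simp only
      rw [P.Fac_m Z' u w h6, P.Fac_m Z u w (hZ u w h6)]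
      have a := (P.m_pos (fun v => (X v, Z' v)) h7).ne'
      field_simp
    calc ind (A' w) * P.ce Z' y w ≤ ind (A' w) * 1 := mul_le_mul_of_nonneg_left h4 (ind_nonneg _)
      _ = _ := mul_one _
  unfold FP.Pr at h2 ⊢
  linarith

/-- **the surprisal of an unlikely digit**, paid by the square of its bias -/
theorem dig_le (A : Om → κ) (g : Om → ℝ) (hg : ∀ w, P.p w ≠ 0 → g w = 1 ∨ g w = -1) {d : ℝ}
    (hd0 : 0 < d) (hd : d ≤ 1 / 8) :
    P.E (fun w => ind (P.ce A (fun v => ind (g v = g w)) w < d) * Real.log (1 / P.ce A (fun v => ind (g v = g w)) w)) ≤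
      2 * Real.sqrt d * P.E (fun w => P.ce A g w ^ 2) := by
  have one : ∀ z : ℝ, P.E (fun w => ind (g w = z) * (ind (P.ce A (fun v => ind (g v = z)) w < d) *
      Real.log (1 / P.ce A (fun v => ind (g v = z)) w))) ≤
      Real.sqrt d * P.E (fun w => ind (P.ce A (fun v => ind (g v = z)) w < d)) := by
    intro z
    set p := P.ce A (fun v => ind (g v = z)) with hp
    have hfac : Fac A (fun w => ind (p w < d) * Real.log (1 / p w)) := by
      intro u w huw
      show ind (p u < d) * Real.log (1 / p u) = ind (p w < d) * Real.log (1 / p w)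
      rw [hp, P.ce_fac A _ u w huw]
    have h1 : P.E (fun w => ind (g w = z) * (ind (p w < d) * Real.log (1 / p w))) =
        P.E (fun w => ind (p w < d) * Real.log (1 / p w) * p w) := by
      rw [hp, P.E_mul_ce hfac (fun v => ind (g v = z))]
      exact P.E_congr fun w _ => mul_comm _ _
    rw [h1, ← P.E_smul]
    refine P.E_mono fun w hw => ?_
    by_cases h : p w < d
    · rw [ind_of h, one_mul, mul_one]
      have hp0 : 0 ≤ p w := P.ce_nonneg (fun _ _ => ind_nonneg _) w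
      rcases eq_or_lt_of_le hp0 with h2 | h2
      · rw [← h2, mul_zero]
        exact Real.sqrt_nonneg d
      · rw [mul_comm]
        exact (xlog h2).trans (Real.sqrt_le_sqrt h.le)
    · rw [ind_not h, zero_mul, zero_mul, mul_zero]
  have h1 := one 1
  have h2 := one (-1)
  set p := P.ce A (fun v => ind (g v = 1)) with hp
  set q := P.ce A (fun v => ind (g v = -1)) with hq
  have h3 : P.E (fun w => ind (P.ce A (fun v => ind (g v = g w)) w < d) *
      Real.log (1 / P.ce A (fun v => ind (g v = g w)) w)) =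
      P.E (fun w => ind (g w = 1) * (ind (p w < d) * Real.log (1 / p w))) +
      P.E (fun w => ind (g w = -1) * (ind (q w < d) * Real.log (1 / q w))) := by
    rw [← P.E_add]
    refine P.E_congr fun w hw => ?_
    rcases hg w hw with h | h
    · rw [h, ind_of rfl, one_mul, ind_not (show ¬ (1 : ℝ) = -1 by norm_num), zero_mul, add_zero]
    · rw [h, ind_of rfl, one_mul, ind_not (show ¬ (-1 : ℝ) = 1 by norm_num), zero_mul, zero_add]
  have h4 : P.E (fun w => ind (p w < d)) + P.E (fun w => ind (q w < d)) ≤ 2 * P.E (fun w => P.ce A g w ^ 2) := by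
    rw [← P.E_add, ← P.E_smul]
    refine P.E_mono fun w hw => ?_
    obtain ⟨e1, e2⟩ := digit_bias P A g hg hw
    have e1' : P.ce A g w = 2 * p w - 1 := e1
    have e2' : p w + q w = 1 := e2
    rw [e1']
    by_cases c1 : p w < d
    · have c2 : ¬ q w < d := by
        intro c2
        linarith
      rw [ind_of c1, ind_not c2]
      nlinarith
    · by_cases c2 : q w < d
      · rw [ind_not c1, ind_of c2]
        nlinarith
      · rw [ind_not c1, ind_not c2]
        nlinarith [sq_nonneg (2 * p w - 1)]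
  have h5 := mul_le_mul_of_nonneg_left h4 (Real.sqrt_nonneg d)
  linarith

end abst

/-! ## masses in the parent and in the child -/

section cell

variable {X β γ φ : Type} [Fintype X] [Fintype β] [Fintype φ] [Nonempty X] [Nonempty β]
variable {D : HD (Fin 3) X β γ φ} {al : ℝ} {h : D.Thick al}
  {v : ℕ → Finset (Fin 3) → X → (Fin 3 → β) → Pt (Fin 3) X β φ}

/-- **dictionary** -/
theorem dict (hv : Codes D v) (t : ℕ) {s n : ℕ} (hs : s ≤ n + 1) (c : Pt (Fin 3) X β φ) (E : X → Prop)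
    (S : Finset (Fin 3)) (y : Fin 3 → β) :
    (D.P h t).E (fun w => ind (NP D v s n w = NP D v s n c) * ind (E w.1 ∧ ∀ j ∈ S, w.2.1 j = y j)) =
      (D.P h t).m (NP D v s n) c * ((muC D v s n c).Pr E * ∏ j ∈ S, mC D n c j (y j)) := by
  classical
  have h1 := cell_E (h := h) hv t hs c (fun x => ind (E x)) (fun j b => if j ∈ S then ind (b = y j) else 1)
  have h2 := cell_Pr (h := h) hv t hs c
  have h3 : ∀ j, (nuC D n c j).E (fun b => if j ∈ S then ind (b = y j) else 1) =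
      if j ∈ S then mC D n c j (y j) else 1 := by
    intro j
    by_cases hj : j ∈ S
    · simp only [hj, if_true]; rfl
    · simp only [hj, if_false]; exact FP.E_const _ _
  rw [Finset.prod_congr rfl fun j _ => h3 j, Finset.prod_ite_mem, Finset.univ_inter, ← h2] at h1
  refine Eq.trans ((D.P h t).E_congr fun w _ => ?_) h1
  rw [ind_and]
  congr 2
  by_cases hh : ∀ j ∈ S, w.2.1 j = y j
  · rw [ind_of hh]
    refine (Finset.prod_eq_one fun j _ => ?_).symm
    by_cases hj : j ∈ S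
    · rw [if_pos hj, ind_of (hh j hj)]
    · rw [if_neg hj]
  · rw [ind_not hh]
    push Not at hh
    obtain ⟨j, hj, hh⟩ := hh
    refine (Finset.prod_eq_zero (mem_univ j) ?_).symm
    rw [if_pos hj, ind_not hh]

variable (v) in
/-- the hidden points with the same codes of the letters of `S` -/
def GG (s : ℕ) (c : Pt (Fin 3) X β φ) (S : Finset (Fin 3)) (x : X) : Prop :=
  ∀ j ∈ S, Um v s {j} x c.2.1 = Um v s {j} c.1 c.2.1

theorem Gl_self (s : ℕ) (c : Pt (Fin 3) X β φ) (k : Fin 3) (x : X) :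
    Gl v s c k (XL v s k c) x ↔ Um v s {k} x c.2.1 = Um v s {k} c.1 c.2.1 := by
  unfold Gl XL
  rw [Function.update_eq_self]

theorem on_cell (hv : Codes D v) {s n : ℕ} (hs : s ≤ n + 1) {c w : Pt (Fin 3) X β φ}
    (hw : NP D v s n w = NP D v s n c) (S : Finset (Fin 3)) :
    (∀ j ∈ S, XL v s j w = XL v s j c) ↔ GG v s c S w.1 ∧ ∀ j ∈ S, w.2.1 j = c.2.1 j := by
  unfold GG
  constructor
  · intro hh
    refine ⟨fun j hj => ?_, fun j hj => ?_⟩
    · exact (Gl_self s c j w.1).1 ((XL_iff hv hs hw j _).1 (hh j hj)).2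
    · exact ((XL_iff hv hs hw j _).1 (hh j hj)).1
  · rintro ⟨h1, h2⟩ j hj
    exact (XL_iff hv hs hw j _).2 ⟨h2 j hj, (Gl_self s c j w.1).2 (h1 j hj)⟩

/-- the letters of `S` and an event of the hidden point -/
theorem dictS (hv : Codes D v) (t : ℕ) {s n : ℕ} (hs : s ≤ n + 1) (c : Pt (Fin 3) X β φ) (E : X → Prop)
    (S S' : Finset (Fin 3)) (hS : S ⊆ S') :
    (D.P h t).E (fun w => ind (NP D v s n w = NP D v s n c) *
      ind (E w.1 ∧ (∀ j ∈ S, XL v s j w = XL v s j c) ∧ ∀ j ∈ S', w.2.1 j = c.2.1 j)) =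
      (D.P h t).m (NP D v s n) c * ((muC D v s n c).Pr (fun x => E x ∧ GG v s c S x) *
        ∏ j ∈ S', mC D n c j (c.2.1 j)) := by
  rw [← dict (h := h) hv t hs c (fun x => E x ∧ GG v s c S x) S' c.2.1]
  refine (D.P h t).E_congr fun w _ => ?_
  by_cases hw : NP D v s n w = NP D v s n c
  · congr 1
    refine ind_cg ?_
    rw [on_cell hv hs hw S]
    exact ⟨fun hh => ⟨⟨hh.1, hh.2.1.1⟩, hh.2.2⟩, fun hh => ⟨hh.1.1, ⟨hh.1.2, fun j hj => hh.2 j (hS hj)⟩, hh.2⟩⟩
  · rw [ind_not hw, zero_mul, zero_mul]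

variable (D v) in
/-- parent probability of the codes of `S` -/
noncomputable def bb (t : ℕ) (S : Finset (Fin 3)) (w : Pt (Fin 3) X β φ) : ℝ :=
  (muC D v (t + 1) t w).Pr (GG v (t + 1) w S)

variable (D v) in
/-- the event of the digit and the codes of `S` -/
def EJ (t : ℕ) (S : Finset (Fin 3)) (w : Pt (Fin 3) X β φ) (x : X) : Prop :=
  D.qa (t + 1) x = D.qa (t + 1) w.1 ∧ GG v (t + 1) w S x

variable (D v) in
/-- parent probability of the digit and the codes of `S` -/
noncomputable def gg (t : ℕ) (S : Finset (Fin 3)) (w : Pt (Fin 3) X β φ) : ℝ :=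
  (muC D v (t + 1) t w).Pr (EJ D v t S w)

theorem mu_pos {s n : ℕ} {w : Pt (Fin 3) X β φ} {E : X → Prop} (hE : E w.1) : 0 < (muC D v s n w).Pr E := by
  have h4 : (muC D v s n w).p w.1 ≠ 0 := by
    unfold muC
    refine (FP.cond_p_ne (unif_ne (cX_self s n w))).2 ⟨cX_self s n w, ?_⟩
    show (Fintype.card X : ℝ)⁻¹ ≠ 0
    exact inv_ne_zero (by exact_mod_cast Fintype.card_ne_zero)
  exact FP.Pr_pos_of h4 hE

theorem mC_pos (n : ℕ) (w : Pt (Fin 3) X β φ) (k : Fin 3) : 0 < mC D n w k (w.2.1 k) := by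
  have h4 : (nuC D n w k).p (w.2.1 k) ≠ 0 := by
    unfold nuC
    refine (FP.cond_p_ne (unif_ne (cY_self n w k))).2 ⟨cY_self n w k, ?_⟩
    show (Fintype.card β : ℝ)⁻¹ ≠ 0
    exact inv_ne_zero (by exact_mod_cast Fintype.card_ne_zero)
  exact FP.Pr_pos_of (P := nuC D n w k) (S := fun b => b = w.2.1 k) h4 rfl

theorem bb_pos (t : ℕ) (S : Finset (Fin 3)) (w : Pt (Fin 3) X β φ) : 0 < bb D v t S w :=
  mu_pos fun _ _ => rfl

theorem gg_pos (t : ℕ) (S : Finset (Fin 3)) (w : Pt (Fin 3) X β φ) : 0 < gg D v t S w :=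
  mu_pos ⟨rfl, fun _ _ => rfl⟩

theorem bb_empty (t : ℕ) (w : Pt (Fin 3) X β φ) : bb D v t ∅ w = 1 := by
  unfold bb FP.Pr
  rw [← FP.E_const (muC D v (t + 1) t w) 1]
  exact FP.E_congr _ fun x _ => ind_of fun j hj => absurd hj (Finset.notMem_empty j)

theorem gg_empty (t : ℕ) (w : Pt (Fin 3) X β φ) : gg D v t ∅ w =
    (muC D v (t + 1) t w).Pr (fun x => D.qa (t + 1) x = D.qa (t + 1) w.1) := by
  unfold gg EJ FP.Pr
  exact FP.E_congr _ fun x _ => ind_cg ⟨fun hh => hh.1, fun hh => ⟨hh, fun j hj => absurd hj (Finset.notMem_empty j)⟩⟩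

/-- masses in the child -/
theorem mu_child (t : ℕ) (w : Pt (Fin 3) X β φ) (E : X → Prop) : (muC D v (t + 1) (t + 1) w).Pr E =
    (muC D v (t + 1) t w).Pr (fun x => D.qa (t + 1) x = D.qa (t + 1) w.1 ∧ E x) / gg D v t ∅ w := by
  rw [eq_div_iff (gg_pos t ∅ w).ne', mul_comm, gg_empty, muC_succ]

/-- letters in the parent -/
theorem m0 (hv : Codes D v) (t : ℕ) (S : Finset (Fin 3)) (w : Pt (Fin 3) X β φ) :
    (D.P h t).m (fun u => (ZS v S t u, NP D v (t + 1) t u)) w =
      (D.P h t).m (NP D v (t + 1) t) w * (bb D v t S w * ∏ j ∈ S, mC D t w j (w.2.1 j)) := by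
  have h1 := dictS (h := h) hv t (le_refl (t + 1)) w (fun _ => True) S S (Finset.Subset.refl _)
  simp only [true_and] at h1
  unfold bb
  rw [← h1]
  unfold FP.m
  refine (D.P h t).E_congr fun u _ => ?_
  rw [← ind_and]
  refine ind_cg ?_
  rw [Prod.mk.injEq, ZS_eq]
  exact ⟨fun hh => ⟨hh.2, hh.1, fun j hj => congrArg Prod.fst (hh.1 j hj)⟩, fun hh => ⟨hh.2.1, hh.1⟩⟩

/-- points in the parent -/
theorem m0y (hv : Codes D v) (t : ℕ) (k : Fin 3) (w : Pt (Fin 3) X β φ) :
    (D.P h t).m (fun u => (u.2.1 k, NP D v (t + 1) t u)) w =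
      (D.P h t).m (NP D v (t + 1) t) w * mC D t w k (w.2.1 k) := by
  have h1 := dict (h := h) hv t (le_refl (t + 1)) w (fun _ => True) {k} w.2.1
  have h2 : (muC D v (t + 1) t w).Pr (fun _ => True) = 1 := by
    unfold FP.Pr
    rw [← FP.E_const (muC D v (t + 1) t w) 1]
    exact FP.E_congr _ fun x _ => ind_of trivial
  rw [h2, one_mul, Finset.prod_singleton] at h1
  rw [← h1]
  unfold FP.m
  refine (D.P h t).E_congr fun u _ => ?_
  rw [← ind_and]
  refine ind_cg ?_
  rw [Prod.mk.injEq]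
  exact ⟨fun hh => ⟨hh.2, trivial, fun j hj => by rw [Finset.mem_singleton.1 hj]; exact hh.1⟩,
    fun hh => ⟨hh.2.2 k (Finset.mem_singleton_self k), hh.1⟩⟩

/-- letters in the child -/
theorem m1 (hv : Codes D v) (t : ℕ) (S : Finset (Fin 3)) (w : Pt (Fin 3) X β φ) :
    (D.P h t).m (fun u => (ZS v S t u, NP D v (t + 1) (t + 1) u)) w =
      (D.P h t).m (NP D v (t + 1) (t + 1)) w * (gg D v t S w / gg D v t ∅ w *
        ∏ j ∈ S, mC D (t + 1) w j (w.2.1 j)) := by
  have h1 := dictS (h := h) hv t (show t + 1 ≤ t + 1 + 1 by omega) w (fun _ => True) S S (Finset.Subset.refl _)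
  simp only [true_and] at h1
  rw [mu_child] at h1
  unfold gg EJ at h1 ⊢
  rw [← h1]
  unfold FP.m
  refine (D.P h t).E_congr fun u _ => ?_
  rw [← ind_and]
  refine ind_cg ?_
  rw [Prod.mk.injEq, ZS_eq]
  exact ⟨fun hh => ⟨hh.2, hh.1, fun j hj => congrArg Prod.fst (hh.1 j hj)⟩, fun hh => ⟨hh.2.1, hh.1⟩⟩

/-- letters of `S` and one more point in the child -/
theorem m1y (hv : Codes D v) (t : ℕ) (S : Finset (Fin 3)) (k : Fin 3) (w : Pt (Fin 3) X β φ) :
    (D.P h t).m (fun u => (u.2.1 k, ZS v S t u, NP D v (t + 1) (t + 1) u)) w =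
      (D.P h t).m (NP D v (t + 1) (t + 1)) w * (gg D v t S w / gg D v t ∅ w *
        ∏ j ∈ insert k S, mC D (t + 1) w j (w.2.1 j)) := by
  have h1 := dictS (h := h) hv t (show t + 1 ≤ t + 1 + 1 by omega) w (fun _ => True) S (insert k S)
    (Finset.subset_insert _ _)
  simp only [true_and] at h1
  rw [mu_child] at h1
  unfold gg EJ at h1 ⊢
  rw [← h1]
  unfold FP.m
  refine (D.P h t).E_congr fun u _ => ?_
  rw [← ind_and]
  refine ind_cg ?_
  rw [Prod.mk.injEq, Prod.mk.injEq, ZS_eq]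
  constructor
  · rintro ⟨h2, h3, h4⟩
    refine ⟨h4, h3, fun j hj => ?_⟩
    rcases Finset.mem_insert.1 hj with hj | hj
    · rw [hj]; exact h2
    · exact congrArg Prod.fst (h3 j hj)
  · rintro ⟨h2, h3, h4⟩
    exact ⟨h4 k (Finset.mem_insert_self k S), h3, h2⟩

theorem N0_of_N1 {t : ℕ} {a b : Pt (Fin 3) X β φ} (hab : NP D v (t + 1) (t + 1) a = NP D v (t + 1) (t + 1) b) :
    NP D v (t + 1) t a = NP D v (t + 1) t b := by
  rw [NP_eq] at hab ⊢
  exact ⟨hab.1, nd_older (Nat.le_succ t) hab.2⟩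

/-! ### the law of one more letter -/

/-- the ratio of the laws of the letter `k` at its value -/
theorem rt_self (hv : Codes D v) (t : ℕ) (J : Finset (Fin 3)) (k : Fin 3) (u : Pt (Fin 3) X β φ) :
    rt ((Pc h v t (t + 1) t u).cond fun a => EJ D v t J u a.1) (Pc h v t (t + 1) t u) (XL v (t + 1) k)
      (XL v (t + 1) k u) = gg D v t (insert k J) u / (gg D v t J u * bb D v t {k} u) := by
  have e0 : (Pc h v t (t + 1) t u).Pr (fun a => EJ D v t J u a.1) = gg D v t J u :=
    Pc_E0 (h := h) hv t le_rfl u fun x => ind (EJ D v t J u x)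
  have hne : (Pc h v t (t + 1) t u).Pr (fun a => EJ D v t J u a.1) ≠ 0 := by
    rw [e0]; exact (gg_pos t J u).ne'
  have e1 : lw ((Pc h v t (t + 1) t u).cond fun a => EJ D v t J u a.1) (XL v (t + 1) k) (XL v (t + 1) k u) =
      mC D t u k (u.2.1 k) * gg D v t (insert k J) u / gg D v t J u := by
    unfold lw
    rw [FP.cond_E hne, e0, Pc_L1 (h := h) hv t le_rfl u (EJ D v t J u) k (XL v (t + 1) k u)]
    congr 2
    unfold gg FP.Pr
    refine FP.E_congr _ fun x _ => ind_cg ?_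
    show EJ D v t J u x ∧ Gl v (t + 1) u k (XL v (t + 1) k u) x ↔ EJ D v t (insert k J) u x
    rw [Gl_self]
    unfold EJ GG
    constructor
    · rintro ⟨⟨h1, h2⟩, h3⟩
      refine ⟨h1, fun j hj => ?_⟩
      rcases Finset.mem_insert.1 hj with hj | hj
      · rw [hj]; exact h3
      · exact h2 j hj
    · rintro ⟨h1, h2⟩
      exact ⟨⟨h1, fun j hj => h2 j (Finset.mem_insert_of_mem hj)⟩, h2 k (Finset.mem_insert_self k J)⟩
  have e2 : lw (Pc h v t (t + 1) t u) (XL v (t + 1) k) (XL v (t + 1) k u) = mC D t u k (u.2.1 k) * bb D v t {k} u := by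
    rw [Pc_lw (h := h) hv t le_rfl]
    congr 1
    unfold bb FP.Pr
    refine FP.E_congr _ fun x _ => ind_cg ?_
    rw [Gl_self]
    unfold GG
    exact ⟨fun hh j hj => by rw [Finset.mem_singleton.1 hj]; exact hh, fun hh => hh k (Finset.mem_singleton_self k)⟩
  unfold rt
  rw [e1, e2]
  have a := (mC_pos (D := D) t u k).ne'
  have b := (gg_pos (D := D) (v := v) t J u).ne'
  have c := (bb_pos (D := D) (v := v) t {k} u).ne'
  field_simp

/-- the event depends on the letters of `J` and the child only -/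
theorem EJ_cell (hv : Codes D v) {t : ℕ} {J : Finset (Fin 3)} {u w : Pt (Fin 3) X β φ}
    (huw : (ZS v J t u, NP D v (t + 1) (t + 1) u) = (ZS v J t w, NP D v (t + 1) (t + 1) w)) :
    EJ D v t J u = EJ D v t J w := by
  have h1 : ZS v J t u = ZS v J t w := congrArg Prod.fst huw
  have h2 : NP D v (t + 1) (t + 1) u = NP D v (t + 1) (t + 1) w := congrArg Prod.snd huw
  rw [ZS_eq] at h1
  have h3 := NP_eq.1 (N0_of_N1 h2)
  have h4 := nd_eq.1 h3.2
  have h5 := nd_eq.1 (NP_eq.1 h2).2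
  funext x
  refine propext ?_
  unfold EJ GG
  rw [h5.1]
  refine and_congr_right fun _ => forall_congr' fun j => forall_congr' fun hj => ?_
  have h6 := XL_eq.1 (h1 j hj)
  have h7 : Um v (t + 1) {j} x u.2.1 = Um v (t + 1) {j} x w.2.1 :=
    Um_codes hv le_rfl {j} x (fun j' hj' => by rw [Finset.mem_singleton.1 hj']; exact h6.1) h4.2
  rw [h7, h6.2]

/-- **the law of the letter `k` in the child, given the letters of `J`** -/
theorem R_law {dg : ℕ → X → ℝ} {prr : ℕ → Fin 3 → φ → φ} {T : ℕ} {Lam : ℝ} (H : D.Hyp dg prr al T Lam)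
    (hv : Codes D v) {t : ℕ} (ht : t < T) {J : Finset (Fin 3)} {k : Fin 3} (hk : k ∉ J) {w : Pt (Fin 3) X β φ}
    (hw : (D.P h t).p w ≠ 0) (z : β × List (Pt (Fin 3) X β φ)) :
    lw ((D.P h t).cond fun u => (ZS v J t u, NP D v (t + 1) (t + 1) u) = (ZS v J t w, NP D v (t + 1) (t + 1) w))
      (XL v (t + 1) k) z ≤ 2 * lw ((Pc h v t (t + 1) t w).cond fun a => EJ D v t J w a.1) (XL v (t + 1) k) z := by
  classical
  have hs : t + 1 ≤ t + 1 + 1 := by omega
  have e0 : (Pc h v t (t + 1) t w).Pr (fun a => EJ D v t J w a.1) = gg D v t J w :=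
    Pc_E0 (h := h) hv t le_rfl w fun x => ind (EJ D v t J w x)
  have hne : (Pc h v t (t + 1) t w).Pr (fun a => EJ D v t J w a.1) ≠ 0 := by
    rw [e0]; exact (gg_pos t J w).ne'
  have e1 : lw ((Pc h v t (t + 1) t w).cond fun a => EJ D v t J w a.1) (XL v (t + 1) k) z =
      mC D t w k z.1 * (muC D v (t + 1) t w).Pr (fun x => EJ D v t J w x ∧ Gl v (t + 1) w k z x) / gg D v t J w := by
    unfold lw
    rw [FP.cond_E hne, e0, Pc_L1 (h := h) hv t le_rfl w (EJ D v t J w) k z]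
  have e2 := m1 (h := h) hv t J w
  have e3 := dict (h := h) hv t hs w (fun x => GG v (t + 1) w J x ∧ Gl v (t + 1) w k z x) (insert k J)
    (Function.update w.2.1 k z.1)
  have e4 : ∏ j ∈ insert k J, mC D (t + 1) w j (Function.update w.2.1 k z.1 j) =
      mC D (t + 1) w k z.1 * ∏ j ∈ J, mC D (t + 1) w j (w.2.1 j) := by
    rw [Finset.prod_insert hk, Function.update_self]
    congr 1
    refine Finset.prod_congr rfl fun j hj => ?_
    rw [Function.update_of_ne (ne_of_mem_of_not_mem hj hk)]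
  have e5 : (D.P h t).E (fun u => ind ((ZS v J t u, NP D v (t + 1) (t + 1) u) = (ZS v J t w, NP D v (t + 1) (t + 1) w)) *
      ind (XL v (t + 1) k u = z)) = (D.P h t).m (NP D v (t + 1) (t + 1)) w *
      ((muC D v (t + 1) (t + 1) w).Pr (fun x => GG v (t + 1) w J x ∧ Gl v (t + 1) w k z x) *
        (mC D (t + 1) w k z.1 * ∏ j ∈ J, mC D (t + 1) w j (w.2.1 j))) := by
    rw [← e4, ← e3]
    refine (D.P h t).E_congr fun u _ => ?_
    by_cases hu : NP D v (t + 1) (t + 1) u = NP D v (t + 1) (t + 1) w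
    · rw [← ind_and, ← ind_and]
      refine ind_cg ?_
      rw [Prod.mk.injEq, ZS_eq, on_cell hv hs hu J, XL_iff hv hs hu k z]
      constructor
      · rintro ⟨⟨⟨h1, h2⟩, h3⟩, h4, h5⟩
        refine ⟨h3, ⟨h1, h5⟩, fun j hj => ?_⟩
        rcases Finset.mem_insert.1 hj with hj | hj
        · rw [hj, Function.update_self]; exact h4
        · rw [Function.update_of_ne (ne_of_mem_of_not_mem hj hk)]; exact h2 j hj
      · rintro ⟨h3, ⟨h1, h5⟩, h6⟩
        refine ⟨⟨⟨h1, fun j hj => ?_⟩, h3⟩, ?_, h5⟩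
        · have := h6 j (Finset.mem_insert_of_mem hj)
          rwa [Function.update_of_ne (ne_of_mem_of_not_mem hj hk)] at this
        · have := h6 k (Finset.mem_insert_self k J)
          rwa [Function.update_self] at this
    · rw [ind_not hu, zero_mul, ind_not (fun hh => hu (congrArg Prod.snd hh)), zero_mul]
  have hm := (D.P h t).m_pos (fun u => (ZS v J t u, NP D v (t + 1) (t + 1) u)) hw
  have e6 : lw ((D.P h t).cond fun u => (ZS v J t u, NP D v (t + 1) (t + 1) u) = (ZS v J t w, NP D v (t + 1) (t + 1) w))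
      (XL v (t + 1) k) z = mC D (t + 1) w k z.1 *
        (muC D v (t + 1) t w).Pr (fun x => EJ D v t J w x ∧ Gl v (t + 1) w k z x) / gg D v t J w := by
    unfold lw
    rw [FP.cond_E hm.ne', e5]
    show _ / (D.P h t).m (fun u => (ZS v J t u, NP D v (t + 1) (t + 1) u)) w = _
    rw [e2, mu_child t w]
    have e7 : (muC D v (t + 1) t w).Pr (fun x => D.qa (t + 1) x = D.qa (t + 1) w.1 ∧
        (GG v (t + 1) w J x ∧ Gl v (t + 1) w k z x)) =
        (muC D v (t + 1) t w).Pr (fun x => EJ D v t J w x ∧ Gl v (t + 1) w k z x) := by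
      unfold FP.Pr EJ
      exact FP.E_congr _ fun x _ => ind_cg and_assoc.symm
    rw [e7]
    have a := ((D.P h t).m_pos (NP D v (t + 1) (t + 1)) hw).ne'
    have b := (gg_pos (D := D) (v := v) t J w).ne'
    have c := (gg_pos (D := D) (v := v) t ∅ w).ne'
    have d : ∏ j ∈ J, mC D (t + 1) w j (w.2.1 j) ≠ 0 := Finset.prod_ne_zero_iff.2 fun j _ => (mC_pos (t + 1) w j).ne'
    field_simp
  rw [e1, e6]
  have h1 := mC_succ H ht w k z.1
  have h2 : 0 ≤ (muC D v (t + 1) t w).Pr (fun x => EJ D v t J w x ∧ Gl v (t + 1) w k z x) := FP.Pr_nonneg _ _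
  have h3 := gg_pos (D := D) (v := v) t J w
  rw [← mul_div_assoc]
  refine div_le_div_of_nonneg_right ?_ h3.le
  rw [← mul_assoc]
  exact mul_le_mul_of_nonneg_right h1 h2

end cell

/-! ## the two bounds -/

section main

variable {X β γ φ : Type} [Fintype X] [Fintype β] [Fintype φ] [Nonempty X] [Nonempty β]
variable {D : HD (Fin 3) X β γ φ} {al : ℝ} {h : D.Thick al} {N : Finset (Fin 3) → ℝ} {S : Finset (Finset (Fin 3))}
  {v : ℕ → Finset (Fin 3) → X → (Fin 3 → β) → Pt (Fin 3) X β φ}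
variable {dg : ℕ → X → ℝ} {prr : ℕ → Fin 3 → φ → φ} {T : ℕ} {Lam : ℝ}

variable (D v) in
/-- the log of the density of the letter `k` and of the letters of `J` in the child -/
noncomputable def lg (t : ℕ) (J : Finset (Fin 3)) (k : Fin 3) (w : Pt (Fin 3) X β φ) : ℝ :=
  Real.log (gg D v t (insert k J) w) + Real.log (gg D v t ∅ w) - Real.log (gg D v t J w) -
    Real.log (gg D v t {k} w)

/-- letters and digit in the parent -/
theorem m0d (H : D.Hyp dg prr al T Lam) (hv : Codes D v) {t : ℕ} (ht : t < T) (J : Finset (Fin 3))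
    (w : Pt (Fin 3) X β φ) :
    (D.P h t).m (fun u => (ZS v J t u, dg t u.1, NP D v (t + 1) t u)) w =
      (D.P h t).m (NP D v (t + 1) t) w * (gg D v t J w * ∏ j ∈ J, mC D t w j (w.2.1 j)) := by
  have h1 := dictS (h := h) hv t (le_refl (t + 1)) w (fun x => D.qa (t + 1) x = D.qa (t + 1) w.1) J J
    (Finset.Subset.refl _)
  unfold gg EJ
  rw [← h1]
  unfold FP.m
  refine (D.P h t).E_congr fun u _ => ?_
  by_cases hu : NP D v (t + 1) t u = NP D v (t + 1) t w
  · rw [ind_of hu, one_mul]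
    have h2 := (nd_eq.1 (NP_eq.1 hu).2).1
    refine ind_cg ?_
    rw [Prod.mk.injEq, Prod.mk.injEq, ZS_eq, H.dg_cell t ht]
    exact ⟨fun hh => ⟨⟨h2, hh.2.1⟩, hh.1, fun j hj => congrArg Prod.fst (hh.1 j hj)⟩,
      fun hh => ⟨hh.2.1, hh.1.2, hu⟩⟩
  · rw [ind_not hu, zero_mul]
    exact ind_not fun hh => hu (congrArg (fun q => q.2.2) hh)

/-- the density of one letter and the digit -/
theorem dn_one (H : D.Hyp dg prr al T Lam) (hv : Codes D v) {t : ℕ} (ht : t < T) (k : Fin 3) {w : Pt (Fin 3) X β φ}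
    (hw : (D.P h t).p w ≠ 0) :
    - Real.log (dn (D.P h t) (XL v (t + 1) k) (fun u => dg t u.1) (NP D v (t + 1) t) w) =
      Real.log (bb D v t {k} w) + Real.log (gg D v t ∅ w) - Real.log (gg D v t {k} w) := by
  have h1 : (D.P h t).m (fun u => (XL v (t + 1) k u, dg t u.1, NP D v (t + 1) t u)) w =
      (D.P h t).m (NP D v (t + 1) t) w * (gg D v t {k} w * mC D t w k (w.2.1 k)) := by
    have h2 := m0d (h := h) H hv ht {k} w
    rw [Finset.prod_singleton] at h2
    rw [← h2]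
    refine (D.P h t).m_congr ?_ ?_ w
    · intro a b hab
      simp only [Prod.mk.injEq, ZS_eq] at hab ⊢
      exact ⟨fun i hi => by rw [Finset.mem_singleton.1 hi]; exact hab.1, hab.2⟩
    · intro a b hab
      simp only [Prod.mk.injEq, ZS_eq] at hab ⊢
      exact ⟨hab.1 k (Finset.mem_singleton_self k), hab.2⟩
  have h3 : (D.P h t).m (fun u => (XL v (t + 1) k u, NP D v (t + 1) t u)) w =
      (D.P h t).m (NP D v (t + 1) t) w * (bb D v t {k} w * mC D t w k (w.2.1 k)) := by
    have h2 := m0 (h := h) hv t {k} w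
    rw [Finset.prod_singleton] at h2
    rw [← h2]
    refine (D.P h t).m_congr ?_ ?_ w
    · intro a b hab
      simp only [Prod.mk.injEq, ZS_eq] at hab ⊢
      exact ⟨fun i hi => by rw [Finset.mem_singleton.1 hi]; exact hab.1, hab.2⟩
    · intro a b hab
      simp only [Prod.mk.injEq, ZS_eq] at hab ⊢
      exact ⟨hab.1 k (Finset.mem_singleton_self k), hab.2⟩
  have h4 : (D.P h t).m (fun u => (dg t u.1, NP D v (t + 1) t u)) w =
      (D.P h t).m (NP D v (t + 1) t) w * gg D v t ∅ w := by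
    have h2 := m0d (h := h) H hv ht ∅ w
    rw [Finset.prod_empty, mul_one] at h2
    rw [← h2]
    refine (D.P h t).m_congr ?_ ?_ w
    · intro a b hab
      exact Prod.ext (ZS_eq.2 fun i hi => absurd hi (Finset.notMem_empty i)) hab
    · intro a b hab
      exact congrArg Prod.snd hab
  have a := ((D.P h t).m_pos (NP D v (t + 1) t) hw).ne'
  have b := (mC_pos (D := D) t w k).ne'
  have c := (gg_pos (D := D) (v := v) t {k} w).ne'
  have d := (gg_pos (D := D) (v := v) t ∅ w).ne'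
  have e := (bb_pos (D := D) (v := v) t {k} w).ne'
  have h5 : dn (D.P h t) (XL v (t + 1) k) (fun u => dg t u.1) (NP D v (t + 1) t) w =
      gg D v t {k} w / (bb D v t {k} w * gg D v t ∅ w) := by
    unfold dn
    rw [h1, h3, h4]
    field_simp
  rw [h5, Real.log_div c (mul_ne_zero e d), Real.log_mul e d]
  ring

/-- the probability of the digit -/
theorem dig_prob (H : D.Hyp dg prr al T Lam) (hv : Codes D v) {t : ℕ} (ht : t < T) {w : Pt (Fin 3) X β φ}
    (hw : (D.P h t).p w ≠ 0) :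
    (D.P h t).ce (NP D v (t + 1) t) (fun u => ind (dg t u.1 = dg t w.1)) w = gg D v t ∅ w := by
  have h2 := m0d (h := h) H hv ht ∅ w
  rw [Finset.prod_empty, mul_one] at h2
  have h3 : (D.P h t).E (fun u => ind (NP D v (t + 1) t u = NP D v (t + 1) t w) * ind (dg t u.1 = dg t w.1)) =
      (D.P h t).m (fun u => (ZS v ∅ t u, dg t u.1, NP D v (t + 1) t u)) w := by
    unfold FP.m
    refine (D.P h t).E_congr fun u _ => ?_
    rw [← ind_and]
    refine ind_cg ?_
    simp only [Prod.mk.injEq, ZS_eq]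
    exact ⟨fun hh => ⟨fun i hi => absurd hi (Finset.notMem_empty i), hh.2, hh.1⟩, fun hh => ⟨hh.2.2, hh.2.1⟩⟩
  unfold FP.ce
  rw [h3, h2]
  exact mul_div_cancel_left₀ _ ((D.P h t).m_pos (NP D v (t + 1) t) hw).ne'

/-- the surprisal of a letter -/
theorem sps_even (hv : Codes D v) (t : ℕ) (i : Fin 3) {w : Pt (Fin 3) X β φ} (hw : (D.P h t).p w ≠ 0) :
    sps h v (2 * t) i w = - Real.log (bb D v t {i} w) := by
  unfold sps sp
  rw [Pr_even, XLr_even]
  simp only [NPr_even]
  have h3 : (D.P h t).m (fun u => (XL v (t + 1) i u, u.2.1 i, NP D v (t + 1) t u)) w =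
      (D.P h t).m (NP D v (t + 1) t) w * (bb D v t {i} w * mC D t w i (w.2.1 i)) := by
    have h2 := m0 (h := h) hv t {i} w
    rw [Finset.prod_singleton] at h2
    rw [← h2]
    refine (D.P h t).m_congr ?_ ?_ w
    · intro a b hab
      simp only [Prod.mk.injEq, ZS_eq] at hab ⊢
      exact ⟨fun i hi => by rw [Finset.mem_singleton.1 hi]; exact hab.1, hab.2.2⟩
    · intro a b hab
      simp only [Prod.mk.injEq, ZS_eq] at hab ⊢
      have h4 := hab.1 i (Finset.mem_singleton_self i)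
      exact ⟨h4, congrArg Prod.fst h4, hab.2⟩
  rw [h3, m0y (h := h) hv t i w]
  have a := ((D.P h t).m_pos (NP D v (t + 1) t) hw).ne'
  have b := (mC_pos (D := D) t w i).ne'
  have e := (bb_pos (D := D) (v := v) t {i} w).ne'
  rw [Real.log_mul a b, Real.log_mul a (mul_ne_zero e b), Real.log_mul e b]
  ring

/-- **the positive part of the log density of one more letter** -/
theorem LG (H : D.Hyp dg prr al T Lam) (R : Run h N S (AdmDep D) v) (hN : ∀ J ∈ S, 0 ≤ N J) (h0 : ∅ ∈ S)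
    (hS : ∀ i : Fin 3, {i} ∈ S) (hN0 : N ∅ = 1) {N1 : ℝ} (hN1 : ∀ i : Fin 3, N1 ≤ N {i}) (hN1p : 0 < N1)
    {K0 : ℝ} (hK : 4 ≤ K0) {t : ℕ} (ht : t < T) {J : Finset (Fin 3)} {k : Fin 3} (hk : k ∉ J)
    {A : Pt (Fin 3) X β φ → Prop} (hA : Fac (fun u => (ZS v J t u, NP D v (t + 1) (t + 1) u)) A) :
    (D.P h t).E (fun w => ind (A w) * max (lg D v t J k w) 0) ≤
      (D.P h t).E (fun w => ind (A w) * (4 / N1 * (1 - Real.log (gg D v t J w)) + 2)) +
      (K0 * (D.P h t).Pr A + 2 * Real.exp (-(K0 / 2)) *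
        (D.P h t).I (XL v (t + 1) k) (fun u => dg t u.1) (NP D v (t + 1) t)) := by
  have hv := R.codes
  set f : Pt (Fin 3) X β φ → ℝ := fun w => Real.log (gg D v t (insert k J) w) - Real.log (gg D v t J w) -
    Real.log (bb D v t {k} w) with hf
  have h1 := ref_le (D.P h t) (XL v (t + 1) k) (fun u => dg t u.1) (NP D v (t + 1) t) hK A
  have h2 : (D.P h t).E (fun w => ind (A w) * max (lg D v t J k w) 0) ≤
      (D.P h t).E (fun w => ind (A w) * max (f w) 0) + (D.P h t).E (fun w => ind (A w) *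
        max (- Real.log (dn (D.P h t) (XL v (t + 1) k) (fun u => dg t u.1) (NP D v (t + 1) t) w)) 0) := by
    rw [← FP.E_add]
    refine (D.P h t).E_mono fun w hw => ?_
    rw [← mul_add]
    refine mul_le_mul_of_nonneg_left ?_ (ind_nonneg _)
    rw [dn_one (h := h) H hv ht k hw]
    have e : lg D v t J k w = f w + (Real.log (bb D v t {k} w) + Real.log (gg D v t ∅ w) -
        Real.log (gg D v t {k} w)) := by
      rw [hf]
      unfold lg
      ring
    rw [e]
    refine max_le (add_le_add (le_max_left _ _) (le_max_left _ _)) (add_nonneg (le_max_right _ _) (le_max_right _ _))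
  have h3 : (D.P h t).E (fun w => ind (A w) * max (f w) 0) ≤
      (D.P h t).E (fun w => ind (A w) * (4 / N1 * (1 - Real.log (gg D v t J w)) + 2)) := by
    rw [E_cell (D.P h t) (fun u => (ZS v J t u, NP D v (t + 1) (t + 1) u)) (fun w => ind (A w) * max (f w) 0)]
    refine (D.P h t).E_mono fun w hw => ?_
    set Rw := (D.P h t).cond fun u => (ZS v J t u, NP D v (t + 1) (t + 1) u) = (ZS v J t w, NP D v (t + 1) (t + 1) w)
      with hRw
    set M := Pc h v t (t + 1) t w with hM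
    set Q := M.cond fun a => EJ D v t J w a.1 with hQ
    have h4 : Rw.E (fun u => ind (A u) * max (f u) 0) = ind (A w) *
        Rw.E (fun u => max (Real.log (rt Q M (XL v (t + 1) k) (XL v (t + 1) k u))) 0) := by
      rw [← FP.E_smul]
      refine Rw.E_congr fun u hu => ?_
      obtain ⟨h5, h6⟩ := cell_supp (D.P h t) _ hw hu
      have h7 : A u = A w := hA u w h5
      rw [h7]
      congr 2
      have h8 : Pc h v t (t + 1) t u = M := by
        rw [hM]
        unfold Pc
        rw [N0_of_N1 (congrArg Prod.snd h5)]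
      have h9 := rt_self (h := h) hv t J k u
      rw [h8, EJ_cell hv h5] at h9
      rw [h9, hf]
      simp only
      have b := (gg_pos (D := D) (v := v) t J u).ne'
      have c := (gg_pos (D := D) (v := v) t (insert k J) u).ne'
      have e := (bb_pos (D := D) (v := v) t {k} u).ne'
      rw [Real.log_div c (mul_ne_zero b e), Real.log_mul b e]
      ring
    rw [h4]
    refine mul_le_mul_of_nonneg_left ?_ (ind_nonneg _)
    have hac : Q.Ac M := FP.cond_ac _ _
    refine (pos_le hac (XL v (t + 1) k) (R_law (h := h) H hv ht hk hw)).trans ?_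
    have e0 : M.Pr (fun a => EJ D v t J w a.1) = gg D v t J w :=
      Pc_E0 (h := h) hv t le_rfl w fun x => ind (EJ D v t J w x)
    have hne : M.Pr (fun a => EJ D v t J w a.1) ≠ 0 := by
      rw [e0]; exact (gg_pos t J w).ne'
    have h5 := sat_one R hN h0 hS t hw (E := EJ D v t J w) hne k
    rw [← hM, ← hQ, e0, hN0] at h5
    have h6 := FP.kl_nonneg hac (XL v (t + 1) k)
    have h7 := mul_le_mul_of_nonneg_right (hN1 k) h6
    have h8 : Real.log (1 / gg D v t J w) = - Real.log (gg D v t J w) := by rw [one_div, Real.log_inv]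
    rw [h8] at h5
    have h9 : Q.kl M (XL v (t + 1) k) ≤ 2 / N1 * (1 - Real.log (gg D v t J w)) := by
      rw [div_mul_eq_mul_div, le_div_iff₀ hN1p]
      linarith
    have h10 : 4 / N1 * (1 - Real.log (gg D v t J w)) = 2 * (2 / N1 * (1 - Real.log (gg D v t J w))) := by ring
    rw [h10]
    linarith
  linarith

theorem mm_ce (t : ℕ) (w : Pt (Fin 3) X β φ) :
    (D.P h t).ce (NP D v (t + 1) t) (fun u => dg t u.1) w = mm (UU v) h dg t w := by
  unfold mm
  refine (D.P h t).ce_congr_map ?_ ?_ _ w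
  · intro a b hab
    rw [NP_eq, nd_eq] at hab
    rw [eJ_eq, le_eq, BB_eq]
    refine ⟨fun I hI => ?_, fun j hj => absurd hj (Finset.notMem_empty j), hab.2⟩
    have hI0 : I = ∅ := Finset.subset_empty.1 hI
    rw [LL_eq]
    refine ⟨?_, fun l hl => absurd (hl ▸ hI : univ.erase l ⊆ ∅) (no_face l)⟩
    rw [hI0]
    exact hab.1
  · intro a b hab
    rw [eJ_eq, le_eq, BB_eq] at hab
    rw [NP_eq, nd_eq]
    exact ⟨(LL_eq.1 (hab.1 ∅ (Finset.Subset.refl _))).1, hab.2.2⟩

theorem sps_def (t : ℕ) (i : Fin 3) (w : Pt (Fin 3) X β φ) :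
    sps h v (2 * t) i w = sp (D.P h t) (XL v (t + 1) i) (fun u => (u.2.1 i, NP D v (t + 1) t u)) w := by
  unfold sps
  rw [Pr_even, XLr_even]
  simp only [NPr_even]

/-- **surprisal of the event of one letter** -/
theorem SG1 (H : D.Hyp dg prr al T Lam) (hv : Codes D v) (p : AP) (hdl : 0 < p.dl) (hdl1 : p.dl ≤ 1 / 32)
    {N1 : ℝ} (hXN : p.X0 ≤ N1) (hdN : Real.exp (-N1) ≤ p.dl) {K0 : ℝ} (hK : 4 ≤ K0) {t : ℕ} (ht : t < T) (i : Fin 3)
    {A : Pt (Fin 3) X β φ → Prop} (hA : ∀ w, (D.P h t).p w ≠ 0 → A w → TTr h v p (2 * t) i w) :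
    (D.P h t).E (fun w => ind (A w) * (- Real.log (gg D v t {i} w))) ≤ (2 * N1 + K0) * (D.P h t).Pr A +
      (2 * Real.exp (-(K0 / 2)) * (D.P h t).I (XL v (t + 1) i) (fun u => dg t u.1) (NP D v (t + 1) t) +
      2 * Real.sqrt p.dl * (D.P h t).E (fun w => mm (UU v) h dg t w ^ 2)) := by
  have h1 := ref_le (D.P h t) (XL v (t + 1) i) (fun u => dg t u.1) (NP D v (t + 1) t) hK A
  have h2 := dig_le (D.P h t) (NP D v (t + 1) t) (fun u => dg t u.1) (fun w _ => H.dg_val t w.1) hdl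
    (by linarith : p.dl ≤ 1 / 8)
  have h3 : (D.P h t).E (fun w => (D.P h t).ce (NP D v (t + 1) t) (fun u => dg t u.1) w ^ 2) =
      (D.P h t).E (fun w => mm (UU v) h dg t w ^ 2) := (D.P h t).E_congr fun w _ => by rw [mm_ce]
  have h4 : (D.P h t).E (fun w => ind ((D.P h t).ce (NP D v (t + 1) t) (fun u => ind (dg t u.1 = dg t w.1)) w < p.dl) *
      Real.log (1 / (D.P h t).ce (NP D v (t + 1) t) (fun u => ind (dg t u.1 = dg t w.1)) w)) =
      (D.P h t).E (fun w => ind (gg D v t ∅ w < p.dl) * Real.log (1 / gg D v t ∅ w)) :=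
    (D.P h t).E_congr fun w hw => by rw [dig_prob (h := h) H hv ht hw]
  rw [h3, h4] at h2
  have hld : - Real.log p.dl ≤ N1 := by
    have := Real.log_le_log (Real.exp_pos _) hdN
    rw [Real.log_exp] at this
    linarith
  have h5 : (D.P h t).E (fun w => ind (A w) * (- Real.log (gg D v t {i} w))) ≤
      (D.P h t).E (fun w => 2 * N1 * ind (A w) + (ind (A w) *
        max (- Real.log (dn (D.P h t) (XL v (t + 1) i) (fun u => dg t u.1) (NP D v (t + 1) t) w)) 0 +
        ind (gg D v t ∅ w < p.dl) * Real.log (1 / gg D v t ∅ w))) := by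
    refine (D.P h t).E_mono fun w hw => ?_
    have h6 := dn_one (h := h) H hv ht i hw
    set dd := - Real.log (dn (D.P h t) (XL v (t + 1) i) (fun u => dg t u.1) (NP D v (t + 1) t) w) with hdd
    have e1 : Real.log (1 / gg D v t ∅ w) = - Real.log (gg D v t ∅ w) := by rw [one_div, Real.log_inv]
    have hg := gg_pos (D := D) (v := v) t ∅ w
    have hg1 : gg D v t ∅ w ≤ 1 := FP.Pr_le_one _ _
    have hlg : Real.log (gg D v t ∅ w) ≤ 0 := Real.log_nonpos hg.le hg1
    have h7 : 0 ≤ ind (gg D v t ∅ w < p.dl) * Real.log (1 / gg D v t ∅ w) := by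
      rw [e1]
      exact mul_nonneg (ind_nonneg _) (by linarith)
    by_cases hAw : A w
    · rw [ind_of hAw, one_mul, one_mul, mul_one]
      have h8 := hA w hw hAw (2 * t) le_rfl
      rw [sps_even (h := h) hv t i hw] at h8
      have h9 : - Real.log (gg D v t {i} w) = - Real.log (bb D v t {i} w) + dd - Real.log (gg D v t ∅ w) := by
        linarith
      have h10 : - Real.log (gg D v t ∅ w) ≤ N1 + ind (gg D v t ∅ w < p.dl) * Real.log (1 / gg D v t ∅ w) := by
        by_cases hc : gg D v t ∅ w < p.dl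
        · rw [ind_of hc, one_mul, e1]
          have : Real.log p.dl ≤ 0 := Real.log_nonpos hdl.le (by linarith)
          linarith
        · rw [ind_not hc, zero_mul, add_zero]
          have := Real.log_le_log hdl (not_lt.1 hc)
          linarith
      have h11 := le_max_left dd 0
      linarith
    · rw [ind_not hAw, zero_mul, zero_mul, mul_zero, zero_add, zero_add]
      exact h7
  rw [FP.E_add, FP.E_add, FP.E_smul] at h5
  unfold FP.Pr at h1 ⊢
  linarith

/-- **surprisal of the event of two letters** -/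
theorem SG2 (hv : Codes D v) (p : AP) {t : ℕ} {i k : Fin 3} {A A' : Pt (Fin 3) X β φ → Prop}
    (hA' : Fac (fun u => (ZS v {i} t u, NP D v (t + 1) (t + 1) u)) A') (hAA : ∀ w, (D.P h t).p w ≠ 0 → A w → A' w)
    (hk : ∀ w, (D.P h t).p w ≠ 0 → A w → TTr h v p (2 * t) k w) :
    (D.P h t).E (fun w => ind (A w) * (- Real.log (gg D v t (insert k {i}) w))) ≤
      (D.P h t).E (fun w => ind (A w) * (- Real.log (gg D v t {i} w))) +
      (p.X0 * (D.P h t).Pr A + (D.P h t).Pr A') := by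
  have h1 := cnt_le (D.P h t) (XL v (t + 1) k) (fun u => (u.2.1 k, NP D v (t + 1) t u))
    (Z' := fun u => (u.2.1 k, ZS v {i} t u, NP D v (t + 1) (t + 1) u)) (by
      intro a b hab
      simp only [Prod.mk.injEq] at hab ⊢
      exact ⟨hab.1, N0_of_N1 hab.2.2⟩) (A := A) (A' := A') (by
      intro a b hab
      refine hA' a b ?_
      simp only [Prod.mk.injEq] at hab ⊢
      exact hab.2) hAA (X0 := p.X0) (by
      intro w hw hAw
      have := hk w hw hAw (2 * t) le_rfl
      rwa [sps_def] at this)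
  have h2 : (D.P h t).E (fun w => ind (A w) * (- Real.log (gg D v t (insert k {i}) w))) =
      (D.P h t).E (fun w => ind (A w) * (- Real.log (gg D v t {i} w))) +
      (D.P h t).E (fun w => ind (A w) * sp (D.P h t) (XL v (t + 1) k)
        (fun u => (u.2.1 k, ZS v {i} t u, NP D v (t + 1) (t + 1) u)) w) := by
    rw [← FP.E_add]
    refine (D.P h t).E_congr fun w hw => ?_
    rw [← mul_add]
    congr 1
    unfold sp
    have e1 : (D.P h t).m (fun u => (XL v (t + 1) k u, u.2.1 k, ZS v {i} t u, NP D v (t + 1) (t + 1) u)) w =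
        (D.P h t).m (fun u => (ZS v (insert k {i}) t u, NP D v (t + 1) (t + 1) u)) w := by
      refine (D.P h t).m_congr ?_ ?_ w
      · intro a b hab
        simp only [Prod.mk.injEq, ZS_eq] at hab ⊢
        refine ⟨fun j hj => ?_, hab.2.2.2⟩
        rcases Finset.mem_insert.1 hj with hj | hj
        · rw [hj]; exact hab.1
        · exact hab.2.2.1 j hj
      · intro a b hab
        simp only [Prod.mk.injEq, ZS_eq] at hab ⊢
        have h3 := hab.1 k (Finset.mem_insert_self k {i})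
        exact ⟨h3, congrArg Prod.fst h3, fun j hj => hab.1 j (Finset.mem_insert_of_mem hj), hab.2⟩
    rw [e1, m1y (h := h) hv t {i} k w, m1 (h := h) hv t (insert k {i}) w]
    have a := ((D.P h t).m_pos (NP D v (t + 1) (t + 1)) hw).ne'
    have b := (gg_pos (D := D) (v := v) t {i} w).ne'
    have c := (gg_pos (D := D) (v := v) t (insert k {i}) w).ne'
    have d := (gg_pos (D := D) (v := v) t ∅ w).ne'
    have e : ∏ j ∈ insert k {i}, mC D (t + 1) w j (w.2.1 j) ≠ 0 :=
      Finset.prod_ne_zero_iff.2 fun j _ => (mC_pos (t + 1) w j).ne'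
    rw [Real.log_mul a (mul_ne_zero (div_ne_zero b d) e), Real.log_mul a (mul_ne_zero (div_ne_zero c d) e),
      Real.log_mul (div_ne_zero b d) e, Real.log_mul (div_ne_zero c d) e, Real.log_div b d, Real.log_div c d]
    ring
  rw [h2]
  linarith

/-- the integral of the first part -/
theorem arith (P : FP (Pt (Fin 3) X β φ)) {A : Pt (Fin 3) X β φ → Prop} {g : Pt (Fin 3) X β φ → ℝ} {N1 c : ℝ}
    (hN1 : 1 ≤ N1) (hg : P.E (fun w => ind (A w) * (- g w)) ≤ c) :
    P.E (fun w => ind (A w) * (4 / N1 * (1 - g w) + 2)) ≤ 6 * P.Pr A + 4 * (c / N1) := by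
  have h1 : P.E (fun w => ind (A w) * (4 / N1 * (1 - g w) + 2)) =
      (4 / N1 + 2) * P.Pr A + 4 / N1 * P.E (fun w => ind (A w) * (- g w)) := by
    unfold FP.Pr
    rw [← FP.E_smul, ← FP.E_smul, ← FP.E_add]
    refine P.E_congr fun w _ => ?_
    ring
  have h2 : 4 / N1 ≤ 4 := by
    rw [div_le_iff₀ (by linarith)]
    linarith
  have h3 : 4 / N1 * P.E (fun w => ind (A w) * (- g w)) ≤ 4 / N1 * c :=
    mul_le_mul_of_nonneg_left hg (by positivity)
  have h4 : 4 / N1 * c = 4 * (c / N1) := by ring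
  have h5 := mul_le_mul_of_nonneg_right h2 (P.Pr_nonneg A)
  rw [h1]
  linarith

theorem div_N1 {N1 X0 K0 a b : ℝ} (hN1 : 1 ≤ N1) (hX : X0 ≤ N1) (hK : 0 ≤ K0) (ha : 0 ≤ a) (hb : 0 ≤ b) (n : ℝ)
    (hn : 0 ≤ n) : ((n * X0 + K0) * a + b) / N1 ≤ (n + K0) * a + b := by
  rw [div_le_iff₀ (by linarith)]
  have h1 : n * X0 * a ≤ n * N1 * a := mul_le_mul_of_nonneg_right (mul_le_mul_of_nonneg_left hX hn) ha
  have h2 : K0 * a ≤ K0 * a * N1 := le_mul_of_one_le_right (mul_nonneg hK ha) hN1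
  have h3 : b ≤ b * N1 := le_mul_of_one_le_right hb hN1
  nlinarith

/-- **the first step**: the letter `k` after the letter `i` -/
theorem step1 (H : D.Hyp dg prr al T Lam) (R : Run h N S (AdmDep D) v) (hN : ∀ J ∈ S, 0 ≤ N J) (h0 : ∅ ∈ S)
    (hS : ∀ i : Fin 3, {i} ∈ S) (hN0 : N ∅ = 1) {N1 : ℝ} (hN1 : ∀ i : Fin 3, N1 ≤ N {i}) (p : AP) (hX : 1 ≤ p.X0)
    (hXN : p.X0 ≤ N1) (hdl : 0 < p.dl) (hdl1 : p.dl ≤ 1 / 32) (hdN : Real.exp (-N1) ≤ p.dl) {K0 : ℝ} (hK : 4 ≤ K0)
    {t : ℕ} (ht : t < T) {i k : Fin 3} (hik : i ≠ k) {A : Pt (Fin 3) X β φ → Prop}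
    (hA : Fac (fun u => (ZS v {i} t u, NP D v (t + 1) (t + 1) u)) A)
    (hAT : ∀ w, (D.P h t).p w ≠ 0 → A w → TTr h v p (2 * t) i w) :
    (D.P h t).E (fun w => ind (A w) * max (lg D v t {i} k w) 0) ≤ (14 + 5 * K0) * (D.P h t).Pr A +
      (Real.exp (-(K0 / 2)) * (8 * (D.P h t).I (XL v (t + 1) i) (fun u => dg t u.1) (NP D v (t + 1) t) +
        2 * (D.P h t).I (XL v (t + 1) k) (fun u => dg t u.1) (NP D v (t + 1) t)) +
      8 * Real.sqrt p.dl * (D.P h t).E (fun w => mm (UU v) h dg t w ^ 2)) := by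
  have hv := R.codes
  have hN1p : 1 ≤ N1 := hX.trans hXN
  have h1 := LG (h := h) H R hN h0 hS hN0 hN1 (by linarith) hK ht (J := {i}) (k := k)
    (by rw [Finset.mem_singleton]; exact hik.symm) hA
  have h2 := SG1 (h := h) H hv p hdl hdl1 hXN hdN hK ht i hAT
  have h3 := arith (D.P h t) hN1p h2
  set a := (D.P h t).Pr A with ha
  set Ii := (D.P h t).I (XL v (t + 1) i) (fun u => dg t u.1) (NP D v (t + 1) t) with hIi
  set Ik := (D.P h t).I (XL v (t + 1) k) (fun u => dg t u.1) (NP D v (t + 1) t) with hIk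
  set M := (D.P h t).E (fun w => mm (UU v) h dg t w ^ 2) with hM
  have ha0 : 0 ≤ a := FP.Pr_nonneg _ _
  have hI0 : 0 ≤ Ii := FP.I_nonneg _ _ _ _
  have hM0 : 0 ≤ M := FP.E_nonneg _ fun w _ => sq_nonneg _
  have h4 := div_N1 (N1 := N1) (X0 := N1) (K0 := K0) (a := a)
    (b := 2 * Real.exp (-(K0 / 2)) * Ii + 2 * Real.sqrt p.dl * M) hN1p le_rfl (by linarith) ha0 (by positivity) 2
    (by norm_num)
  linarith

/-- **the second step**: the letter `j` after the letters `i`, `k` -/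
theorem step2 (H : D.Hyp dg prr al T Lam) (R : Run h N S (AdmDep D) v) (hN : ∀ J ∈ S, 0 ≤ N J) (h0 : ∅ ∈ S)
    (hS : ∀ i : Fin 3, {i} ∈ S) (hN0 : N ∅ = 1) {N1 : ℝ} (hN1 : ∀ i : Fin 3, N1 ≤ N {i}) (p : AP) (hX : 1 ≤ p.X0)
    (hXN : p.X0 ≤ N1) (hdl : 0 < p.dl) (hdl1 : p.dl ≤ 1 / 32) (hdN : Real.exp (-N1) ≤ p.dl) {K0 : ℝ} (hK : 4 ≤ K0)
    {t : ℕ} (ht : t < T) {i k j : Fin 3} (hij : i ≠ j) (hkj : k ≠ j) {A A' : Pt (Fin 3) X β φ → Prop}
    (hA : Fac (fun u => (ZS v (insert k {i}) t u, NP D v (t + 1) (t + 1) u)) A)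
    (hA' : Fac (fun u => (ZS v {i} t u, NP D v (t + 1) (t + 1) u)) A') (hAA : ∀ w, (D.P h t).p w ≠ 0 → A w → A' w)
    (hAi : ∀ w, (D.P h t).p w ≠ 0 → A w → TTr h v p (2 * t) i w)
    (hAk : ∀ w, (D.P h t).p w ≠ 0 → A w → TTr h v p (2 * t) k w) :
    (D.P h t).E (fun w => ind (A w) * max (lg D v t (insert k {i}) j w) 0) ≤ (22 + 5 * K0) * (D.P h t).Pr A' +
      (Real.exp (-(K0 / 2)) * (8 * (D.P h t).I (XL v (t + 1) i) (fun u => dg t u.1) (NP D v (t + 1) t) +
        2 * (D.P h t).I (XL v (t + 1) j) (fun u => dg t u.1) (NP D v (t + 1) t)) +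
      8 * Real.sqrt p.dl * (D.P h t).E (fun w => mm (UU v) h dg t w ^ 2)) := by
  have hv := R.codes
  have hN1p : 1 ≤ N1 := hX.trans hXN
  have h1 := LG (h := h) H R hN h0 hS hN0 hN1 (by linarith) hK ht (J := insert k {i}) (k := j)
    (by
      rw [Finset.mem_insert, Finset.mem_singleton]
      rintro (hh | hh)
      · exact hkj hh.symm
      · exact hij hh.symm) hA
  have h2 : (D.P h t).E (fun w => ind (A w) * (- Real.log (gg D v t (insert k {i}) w))) ≤
      (3 * N1 + K0) * (D.P h t).Pr A + (2 * Real.exp (-(K0 / 2)) *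
        (D.P h t).I (XL v (t + 1) i) (fun u => dg t u.1) (NP D v (t + 1) t) +
      2 * Real.sqrt p.dl * (D.P h t).E (fun w => mm (UU v) h dg t w ^ 2) + (D.P h t).Pr A') := by
    have h7 := SG2 (h := h) hv p hA' hAA hAk
    have h8 := SG1 (h := h) H hv p hdl hdl1 hXN hdN hK ht i hAi
    have h9 := mul_le_mul_of_nonneg_right hXN (FP.Pr_nonneg (D.P h t) A)
    linarith
  have h3 := arith (D.P h t) hN1p h2
  have h5 : (D.P h t).Pr A ≤ (D.P h t).Pr A' := FP.Pr_mono _ hAA
  set a := (D.P h t).Pr A with ha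
  set a' := (D.P h t).Pr A' with ha'
  set Ii := (D.P h t).I (XL v (t + 1) i) (fun u => dg t u.1) (NP D v (t + 1) t) with hIi
  set Ij := (D.P h t).I (XL v (t + 1) j) (fun u => dg t u.1) (NP D v (t + 1) t) with hIj
  set M := (D.P h t).E (fun w => mm (UU v) h dg t w ^ 2) with hM
  have ha0 : 0 ≤ a := FP.Pr_nonneg _ _
  have ha0' : 0 ≤ a' := FP.Pr_nonneg _ _
  have hI0 : 0 ≤ Ii := FP.I_nonneg _ _ _ _
  have hM0 : 0 ≤ M := FP.E_nonneg _ fun w _ => sq_nonneg _
  have h4 := div_N1 (N1 := N1) (X0 := N1) (K0 := K0) (a := a)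
    (b := 2 * Real.exp (-(K0 / 2)) * Ii + 2 * Real.sqrt p.dl * M + a') hN1p le_rfl (by linarith) ha0 (by positivity) 3
    (by norm_num)
  have h6 : (18 + 5 * K0) * a ≤ (18 + 5 * K0) * a' := mul_le_mul_of_nonneg_left h5 (by linarith)
  linarith

/-! ### the densities -/

theorem sum3 {i k j : Fin 3} (hik : i ≠ k) (hij : i ≠ j) (hkj : k ≠ j) (f : Fin 3 → ℝ) :
    f 0 + f 1 + f 2 = f i + f k + f j := by
  fin_cases i <;> fin_cases k <;> fin_cases j <;>
    first
    | exact absurd rfl hik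
    | exact absurd rfl hij
    | exact absurd rfl hkj
    | (simp only [Fin.zero_eta, Fin.mk_one, Fin.reduceFinMk] <;> ring)

theorem all3 {i k j : Fin 3} (hik : i ≠ k) (hij : i ≠ j) (hkj : k ≠ j) : insert j (insert k {i}) = (univ : Finset (Fin 3)) := by
  revert i k j
  decide

/-- one letter of the child -/
theorem log_m1 (hv : Codes D v) (t : ℕ) (J : Finset (Fin 3)) {w : Pt (Fin 3) X β φ} (hw : (D.P h t).p w ≠ 0) :
    Real.log ((D.P h t).m (fun u => (ZS v J t u, NP D v (t + 1) (t + 1) u)) w) =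
      Real.log ((D.P h t).m (NP D v (t + 1) (t + 1)) w) + Real.log (gg D v t J w) - Real.log (gg D v t ∅ w) +
        ∑ j ∈ J, Real.log (mC D (t + 1) w j (w.2.1 j)) := by
  rw [m1 (h := h) hv t J w]
  have a := ((D.P h t).m_pos (NP D v (t + 1) (t + 1)) hw).ne'
  have c := (gg_pos (D := D) (v := v) t J w).ne'
  have d := (gg_pos (D := D) (v := v) t ∅ w).ne'
  have e : ∏ j ∈ J, mC D (t + 1) w j (w.2.1 j) ≠ 0 := Finset.prod_ne_zero_iff.2 fun j _ => (mC_pos (t + 1) w j).ne'
  rw [Real.log_mul a (mul_ne_zero (div_ne_zero c d) e), Real.log_mul (div_ne_zero c d) e, Real.log_div c d,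
    Real.log_prod fun j _ => (mC_pos (t + 1) w j).ne']
  ring

theorem m_one' (t : ℕ) (k : Fin 3) (w : Pt (Fin 3) X β φ) :
    (D.P h t).m (fun u => (XL v (t + 1) k u, NP D v (t + 1) (t + 1) u)) w =
      (D.P h t).m (fun u => (ZS v {k} t u, NP D v (t + 1) (t + 1) u)) w := by
  refine (D.P h t).m_congr ?_ ?_ w
  · intro a b hab
    simp only [Prod.mk.injEq, ZS_eq] at hab ⊢
    exact ⟨fun i hi => by rw [Finset.mem_singleton.1 hi]; exact hab.1, hab.2⟩
  · intro a b hab
    simp only [Prod.mk.injEq, ZS_eq] at hab ⊢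
    exact ⟨hab.1 k (Finset.mem_singleton_self k), hab.2⟩

theorem log_DL (hv : Codes D v) (t : ℕ) {i k j : Fin 3} (hik : i ≠ k) (hij : i ≠ j) (hkj : k ≠ j)
    {w : Pt (Fin 3) X β φ} (hw : (D.P h t).p w ≠ 0) :
    Real.log (DL h v t (t + 1) (t + 1) w) = lg D v t {i} k w + lg D v t (insert k {i}) j w := by
  have h1 : Real.log (DL h v t (t + 1) (t + 1) w) =
      Real.log ((D.P h t).m (fun u => (XL v (t + 1) 0 u, XL v (t + 1) 1 u, XL v (t + 1) 2 u, NP D v (t + 1) (t + 1) u)) w) +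
      2 * Real.log ((D.P h t).m (NP D v (t + 1) (t + 1)) w) -
      Real.log ((D.P h t).m (fun u => (XL v (t + 1) 0 u, NP D v (t + 1) (t + 1) u)) w) -
      Real.log ((D.P h t).m (fun u => (XL v (t + 1) 1 u, NP D v (t + 1) (t + 1) u)) w) -
      Real.log ((D.P h t).m (fun u => (XL v (t + 1) 2 u, NP D v (t + 1) (t + 1) u)) w) :=
    log_D3_cell (D.P h t) (XL v (t + 1) 0) (XL v (t + 1) 1) (XL v (t + 1) 2) (NP D v (t + 1) (t + 1)) hw
  have h2 : (D.P h t).m (fun u => (XL v (t + 1) 0 u, XL v (t + 1) 1 u, XL v (t + 1) 2 u, NP D v (t + 1) (t + 1) u)) w =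
      (D.P h t).m (fun u => (ZS v univ t u, NP D v (t + 1) (t + 1) u)) w := by
    refine (D.P h t).m_congr ?_ ?_ w
    · intro a b hab
      simp only [Prod.mk.injEq, ZS_eq] at hab ⊢
      refine ⟨fun i _ => ?_, hab.2.2.2⟩
      fin_cases i
      · exact hab.1
      · exact hab.2.1
      · exact hab.2.2.1
    · intro a b hab
      simp only [Prod.mk.injEq, ZS_eq] at hab ⊢
      exact ⟨hab.1 0 (mem_univ _), hab.1 1 (mem_univ _), hab.1 2 (mem_univ _), hab.2⟩
  rw [h1, h2, m_one', m_one', m_one', log_m1 hv t _ hw, log_m1 hv t _ hw, log_m1 hv t _ hw, log_m1 hv t _ hw,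
    Finset.sum_singleton, Finset.sum_singleton, Finset.sum_singleton, Fin.sum_univ_three]
  have h3 := sum3 hik hij hkj fun l => Real.log (gg D v t {l} w)
  unfold lg
  rw [all3 hik hij hkj]
  linarith

theorem log_DJ (hv : Codes D v) (t : ℕ) {i k : Fin 3} (hik : i ≠ k)
    {w : Pt (Fin 3) X β φ} (hw : (D.P h t).p w ≠ 0) :
    Real.log (DJ h v i k t (t + 1) (t + 1) w) = lg D v t {i} k w := by
  have h1 : Real.log (DJ h v i k t (t + 1) (t + 1) w) =
      Real.log ((D.P h t).m (fun u => (XL v (t + 1) i u, XL v (t + 1) k u, (), NP D v (t + 1) (t + 1) u)) w) +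
      2 * Real.log ((D.P h t).m (NP D v (t + 1) (t + 1)) w) -
      Real.log ((D.P h t).m (fun u => (XL v (t + 1) i u, NP D v (t + 1) (t + 1) u)) w) -
      Real.log ((D.P h t).m (fun u => (XL v (t + 1) k u, NP D v (t + 1) (t + 1) u)) w) -
      Real.log ((D.P h t).m (fun u => ((), NP D v (t + 1) (t + 1) u)) w) :=
    log_D3_cell (D.P h t) (XL v (t + 1) i) (XL v (t + 1) k) (fun _ => ()) (NP D v (t + 1) (t + 1)) hw
  have h2 : (D.P h t).m (fun u => (XL v (t + 1) i u, XL v (t + 1) k u, (), NP D v (t + 1) (t + 1) u)) w =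
      (D.P h t).m (fun u => (ZS v (insert k {i}) t u, NP D v (t + 1) (t + 1) u)) w := by
    refine (D.P h t).m_congr ?_ ?_ w
    · intro a b hab
      simp only [Prod.mk.injEq, ZS_eq] at hab ⊢
      refine ⟨fun j hj => ?_, hab.2.2.2⟩
      rcases Finset.mem_insert.1 hj with hj | hj
      · rw [hj]; exact hab.2.1
      · rw [Finset.mem_singleton.1 hj]; exact hab.1
    · intro a b hab
      simp only [Prod.mk.injEq, ZS_eq] at hab ⊢
      exact ⟨hab.1 i (Finset.mem_insert_of_mem (Finset.mem_singleton_self i)), hab.1 k (Finset.mem_insert_self k _),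
        trivial, hab.2⟩
  have h3 : (D.P h t).m (fun u => ((), NP D v (t + 1) (t + 1) u)) w = (D.P h t).m (NP D v (t + 1) (t + 1)) w :=
    (D.P h t).m_congr (fun a b hab => congrArg Prod.snd hab) (fun a b hab => Prod.ext rfl hab) w
  rw [h1, h2, h3, m_one', m_one', log_m1 hv t _ hw, log_m1 hv t _ hw, log_m1 hv t _ hw,
    Finset.sum_singleton, Finset.sum_singleton, Finset.sum_insert (by rw [Finset.mem_singleton]; exact hik.symm),
    Finset.sum_singleton]
  unfold lg
  ring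

theorem lg_comm (t : ℕ) (i k : Fin 3) (w : Pt (Fin 3) X β φ) : lg D v t {i} k w = lg D v t {k} i w := by
  unfold lg
  rw [show insert k ({i} : Finset (Fin 3)) = insert i {k} from Finset.pair_comm k i]
  ring

/-! ### the sets -/

theorem facT (p : AP) {t : ℕ} {J : Finset (Fin 3)} {i : Fin 3} (hi : i ∈ J) {a b : Pt (Fin 3) X β φ}
    (hab : (ZS v J t a, NP D v (t + 1) (t + 1) a) = (ZS v J t b, NP D v (t + 1) (t + 1) b)) :
    (TTr h v p (2 * t) i a ↔ TTr h v p (2 * t) i b) ∧ (TTr h v p (2 * t + 1) i a ↔ TTr h v p (2 * t + 1) i b) := by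
  have h1 : XL v (t + 1) i a = XL v (t + 1) i b := ZS_eq.1 (congrArg Prod.fst hab) i hi
  have h2 : NP D v (t + 1) (t + 1) a = NP D v (t + 1) (t + 1) b := congrArg Prod.snd hab
  refine ⟨TTr_fac h p ?_, TTr_fac h p ?_⟩
  · rw [XLr_even, NPr_even]
    exact Prod.ext h1 (N0_of_N1 h2)
  · rw [XLr_odd, NPr_odd]
    exact Prod.ext h1 h2

theorem facP (p : AP) {t : ℕ} {a b : Pt (Fin 3) X β φ}
    (hab : NP D v (t + 1) (t + 1) a = NP D v (t + 1) (t + 1) b) :
    (PBr h v p (2 * t) a ↔ PBr h v p (2 * t) b) ∧ (PBr h v p (2 * t + 1) a ↔ PBr h v p (2 * t + 1) b) :=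
  ⟨PBr_fac h p (by rw [NPr_even]; exact N0_of_N1 hab), PBr_fac h p (by rw [NPr_odd]; exact hab)⟩

theorem PB_mono (p : AP) {q r : ℕ} (hqr : q ≤ r) {w : Pt (Fin 3) X β φ} (hw : PBr h v p r w) : PBr h v p q w :=
  ⟨fun s hs => hw.1 s (hs.trans hqr), fun t ht => hw.2 t (ht.trans hqr)⟩

theorem TT_mono (p : AP) {q r : ℕ} (hqr : q ≤ r) {i : Fin 3} {w : Pt (Fin 3) X β φ} (hw : TTr h v p r i w) :
    TTr h v p q i w := fun s hs => hw s (hs.trans hqr)

/-- the letter `i` is killed by the digit -/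
def SI (h : D.Thick al) (v : ℕ → Finset (Fin 3) → X → (Fin 3 → β) → Pt (Fin 3) X β φ) (p : AP) (t : ℕ) (i : Fin 3)
    (w : Pt (Fin 3) X β φ) : Prop := TTr h v p (2 * t) i w ∧ ¬ TTr h v p (2 * t + 1) i w

/-- killed in public, the letter `i` alive before -/
def SP (h : D.Thick al) (v : ℕ → Finset (Fin 3) → X → (Fin 3 → β) → Pt (Fin 3) X β φ) (p : AP) (t : ℕ) (i : Fin 3)
    (w : Pt (Fin 3) X β φ) : Prop := (PBr h v p (2 * t) w ∧ ¬ PBr h v p (2 * t + 1) w) ∧ TTr h v p (2 * t) i w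

theorem fac_SI (p : AP) {t : ℕ} {i : Fin 3} :
    Fac (fun u => (ZS v {i} t u, NP D v (t + 1) (t + 1) u)) (SI h v p t i) := by
  intro a b hab
  obtain ⟨h1, h2⟩ := facT (h := h) p (Finset.mem_singleton_self i) hab
  unfold SI
  rw [propext h1, propext h2]

theorem fac_SP (p : AP) {t : ℕ} {i : Fin 3} :
    Fac (fun u => (ZS v {i} t u, NP D v (t + 1) (t + 1) u)) (SP h v p t i) := by
  intro a b hab
  obtain ⟨h1, -⟩ := facT (h := h) p (Finset.mem_singleton_self i) hab
  obtain ⟨h3, h4⟩ := facP (h := h) (v := v) p (congrArg Prod.snd hab)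
  unfold SP
  rw [propext h1, propext h3, propext h4]

/-- adding the letter `k` -/
theorem fac_and (p : AP) {t : ℕ} {i k : Fin 3} {A : Pt (Fin 3) X β φ → Prop}
    (hA : Fac (fun u => (ZS v {i} t u, NP D v (t + 1) (t + 1) u)) A) :
    Fac (fun u => (ZS v (insert k {i}) t u, NP D v (t + 1) (t + 1) u)) (fun w => A w ∧ TTr h v p (2 * t) k w) := by
  intro a b hab
  obtain ⟨h1, -⟩ := facT (h := h) p (Finset.mem_insert_self k {i}) hab
  have h2 : A a = A b := by
    refine hA a b ?_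
    simp only [Prod.mk.injEq, ZS_eq] at hab ⊢
    exact ⟨fun j hj => hab.1 j (Finset.mem_insert_of_mem hj), hab.2⟩
  show (A a ∧ TTr h v p (2 * t) k a) = (A b ∧ TTr h v p (2 * t) k b)
  rw [h2, propext h1]

/-- the three letters in the order `i`, `k`, `j` on a set of the letter `i` -/
theorem ord3 (H : D.Hyp dg prr al T Lam) (R : Run h N S (AdmDep D) v) (hN : ∀ J ∈ S, 0 ≤ N J) (h0 : ∅ ∈ S)
    (hS : ∀ i : Fin 3, {i} ∈ S) (hN0 : N ∅ = 1) {N1 : ℝ} (hN1 : ∀ i : Fin 3, N1 ≤ N {i}) (p : AP) (hX : 1 ≤ p.X0)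
    (hXN : p.X0 ≤ N1) (hdl : 0 < p.dl) (hdl1 : p.dl ≤ 1 / 32) (hdN : Real.exp (-N1) ≤ p.dl) {K0 : ℝ} (hK : 4 ≤ K0)
    {t : ℕ} (ht : t < T) {i k j : Fin 3} (hik : i ≠ k) (hij : i ≠ j) (hkj : k ≠ j) {A : Pt (Fin 3) X β φ → Prop}
    (hA : Fac (fun u => (ZS v {i} t u, NP D v (t + 1) (t + 1) u)) A)
    (hAT : ∀ w, (D.P h t).p w ≠ 0 → A w → TTr h v p (2 * t) i w) :
    (D.P h t).E (fun w => ind (A w ∧ TTr h v p (2 * t) k w) *
      max (Real.log (DL h v t (t + 1) (t + 1) w)) 0) ≤ (36 + 10 * K0) * (D.P h t).Pr A +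
      (16 * Real.exp (-(K0 / 2)) * KV h v (fun u => dg t u.1) t (t + 1) t +
      16 * Real.sqrt p.dl * (D.P h t).E (fun w => mm (UU v) h dg t w ^ 2)) := by
  have hv := R.codes
  have h1 := step1 (h := h) H R hN h0 hS hN0 hN1 p hX hXN hdl hdl1 hdN hK ht hik hA hAT
  have h2 := step2 (h := h) H R hN h0 hS hN0 hN1 p hX hXN hdl hdl1 hdN hK ht hij hkj
    (fac_and (h := h) p (k := k) hA) hA (fun _ _ hh => hh.1) (fun w hw hh => hAT w hw hh.1) (fun _ _ hh => hh.2)
  have h3 : (D.P h t).E (fun w => ind (A w ∧ TTr h v p (2 * t) k w) *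
      max (Real.log (DL h v t (t + 1) (t + 1) w)) 0) ≤
      (D.P h t).E (fun w => ind (A w) * max (lg D v t {i} k w) 0) +
      (D.P h t).E (fun w => ind (A w ∧ TTr h v p (2 * t) k w) * max (lg D v t (insert k {i}) j w) 0) := by
    rw [← FP.E_add]
    refine (D.P h t).E_mono fun w hw => ?_
    rw [log_DL hv t hik hij hkj hw]
    have h4 : ind (A w ∧ TTr h v p (2 * t) k w) * max (lg D v t {i} k w) 0 ≤ ind (A w) * max (lg D v t {i} k w) 0 :=
      mul_le_mul_of_nonneg_right (ind_mono fun hh => hh.1) (le_max_right _ _)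
    have h5 : max (lg D v t {i} k w + lg D v t (insert k {i}) j w) 0 ≤
        max (lg D v t {i} k w) 0 + max (lg D v t (insert k {i}) j w) 0 :=
      max_le (add_le_add (le_max_left _ _) (le_max_left _ _)) (add_nonneg (le_max_right _ _) (le_max_right _ _))
    have h6 := mul_le_mul_of_nonneg_left h5 (ind_nonneg (A w ∧ TTr h v p (2 * t) k w))
    linarith
  have h7 : KV h v (fun u => dg t u.1) t (t + 1) t =
      (D.P h t).I (XL v (t + 1) i) (fun u => dg t u.1) (NP D v (t + 1) t) +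
      (D.P h t).I (XL v (t + 1) k) (fun u => dg t u.1) (NP D v (t + 1) t) +
      (D.P h t).I (XL v (t + 1) j) (fun u => dg t u.1) (NP D v (t + 1) t) := by
    unfold KV
    rw [Fin.sum_univ_three]
    exact sum3 hik hij hkj fun l => (D.P h t).I (XL v (t + 1) l) (fun u => dg t u.1) (NP D v (t + 1) t)
  set Ii := (D.P h t).I (XL v (t + 1) i) (fun u => dg t u.1) (NP D v (t + 1) t) with hIi
  set Ik := (D.P h t).I (XL v (t + 1) k) (fun u => dg t u.1) (NP D v (t + 1) t) with hIk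
  set Ij := (D.P h t).I (XL v (t + 1) j) (fun u => dg t u.1) (NP D v (t + 1) t) with hIj
  have hk0 : 0 ≤ Ik := FP.I_nonneg _ _ _ _
  have hj0 : 0 ≤ Ij := FP.I_nonneg _ _ _ _
  rw [h7]
  have he := Real.exp_pos (-(K0 / 2))
  have h8 := mul_nonneg he.le hk0
  have h9 := mul_nonneg he.le hj0
  nlinarith

/-- two letters on a set of the letter `i` -/
theorem ord2 (H : D.Hyp dg prr al T Lam) (R : Run h N S (AdmDep D) v) (hN : ∀ J ∈ S, 0 ≤ N J) (h0 : ∅ ∈ S)
    (hS : ∀ i : Fin 3, {i} ∈ S) (hN0 : N ∅ = 1) {N1 : ℝ} (hN1 : ∀ i : Fin 3, N1 ≤ N {i}) (p : AP) (hX : 1 ≤ p.X0)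
    (hXN : p.X0 ≤ N1) (hdl : 0 < p.dl) (hdl1 : p.dl ≤ 1 / 32) (hdN : Real.exp (-N1) ≤ p.dl) {K0 : ℝ} (hK : 4 ≤ K0)
    {t : ℕ} (ht : t < T) {i k : Fin 3} (hik : i ≠ k) {A : Pt (Fin 3) X β φ → Prop}
    (hA : Fac (fun u => (ZS v {i} t u, NP D v (t + 1) (t + 1) u)) A)
    (hAT : ∀ w, (D.P h t).p w ≠ 0 → A w → TTr h v p (2 * t) i w) :
    (D.P h t).E (fun w => ind (A w) * max (lg D v t {i} k w) 0) ≤ (14 + 5 * K0) * (D.P h t).Pr A +
      (8 * Real.exp (-(K0 / 2)) * KV h v (fun u => dg t u.1) t (t + 1) t +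
      8 * Real.sqrt p.dl * (D.P h t).E (fun w => mm (UU v) h dg t w ^ 2)) := by
  have h1 := step1 (h := h) H R hN h0 hS hN0 hN1 p hX hXN hdl hdl1 hdN hK ht hik hA hAT
  have h7 : (D.P h t).I (XL v (t + 1) i) (fun u => dg t u.1) (NP D v (t + 1) t) +
      (D.P h t).I (XL v (t + 1) k) (fun u => dg t u.1) (NP D v (t + 1) t) ≤
      KV h v (fun u => dg t u.1) t (t + 1) t := by
    unfold KV
    rw [← Finset.sum_pair hik (f := fun l => (D.P h t).I (XL v (t + 1) l) (fun u => dg t u.1) (NP D v (t + 1) t))]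
    exact Finset.sum_le_sum_of_subset_of_nonneg (Finset.subset_univ _) fun x _ _ => FP.I_nonneg _ _ _ _
  have hk0 : 0 ≤ (D.P h t).I (XL v (t + 1) k) (fun u => dg t u.1) (NP D v (t + 1) t) := FP.I_nonneg _ _ _ _
  have he := Real.exp_pos (-(K0 / 2))
  have h8 := mul_nonneg he.le hk0
  have h9 := mul_le_mul_of_nonneg_left h7 he.le
  linarith

end main

end Pool.Agent.GMH.V3.KillD

namespace Pool.Agent.GMH.V3

open Finset Pool.Agent.PWZ Pool.Agent.M3 Pool.Agent.GM Pool.Agent.GM.Harm Pool.Agent.GMH Pool.Agent.GMH.NZ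
open Pool.Agent.GMH.V3.KillD

variable {X β γ φ υ : Type} [Fintype X] [Fintype β] [Fintype φ] [Nonempty X] [Nonempty β]

/-- probabilities of the single kills by the digit of the time `t` -/
noncomputable def kilD {D : HD (Fin 3) X β γ φ} {al : ℝ} (h : D.Thick al) (v : ℕ → Finset (Fin 3) → X → (Fin 3 → β) → υ)
    (p : AP) (t : ℕ) : ℝ :=
  (D.P h t).Pr (fun w => PBr h v p (2 * t) w ∧ ¬ PBr h v p (2 * t + 1) w) +
    ∑ i, (D.P h t).Pr (fun w => TTr h v p (2 * t) i w ∧ ¬ TTr h v p (2 * t + 1) i w)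

variable {D : HD (Fin 3) X β γ φ} {al : ℝ} {h : D.Thick al} {N : Finset (Fin 3) → ℝ} {S : Finset (Finset (Fin 3))}
  {v : ℕ → Finset (Fin 3) → X → (Fin 3 → β) → Pt (Fin 3) X β φ}
variable {dg : ℕ → X → ℝ} {prr : ℕ → Fin 3 → φ → φ} {T : ℕ} {Lam : ℝ}

/-- **killed by the digit** -/
theorem killD_V (H : D.Hyp dg prr al T Lam) (R : Run h N S (AdmDep D) v) (hN : ∀ J ∈ S, 0 ≤ N J) (h0 : ∅ ∈ S)
    (hS : ∀ i : Fin 3, {i} ∈ S) (hN0 : N ∅ = 1) {N1 : ℝ} (hN1 : ∀ i : Fin 3, N1 ≤ N {i}) (p : AP) (hX : 1 ≤ p.X0)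
    (hXN : p.X0 ≤ N1) (hdl : 0 < p.dl) (hdl1 : p.dl ≤ 1 / 32) (hdN : Real.exp (-N1) ≤ p.dl) {K0 : ℝ} (hK0 : 4 ≤ K0)
    {t : ℕ} (ht : t < T) :
    killD h v pth pcl (aV h v p) (aV' h v p) t ≤
      100 * (K0 + 1) * kilD h v p t +
      100 * Real.exp (-(K0 / 2)) * KV h v (fun u => dg t u.1) t (t + 1) t +
      100 * Real.sqrt p.dl * (D.P h t).E (fun w => mm (UU v) h dg t w ^ 2) := by
  have hv := R.codes
  have a0 := ord3 (h := h) H R hN h0 hS hN0 hN1 p hX hXN hdl hdl1 hdN hK0 ht (i := 0) (k := 1) (j := 2) (by decide)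
    (by decide) (by decide) (fac_SI (h := h) p) (fun _ _ hh => hh.1)
  have a1 := ord3 (h := h) H R hN h0 hS hN0 hN1 p hX hXN hdl hdl1 hdN hK0 ht (i := 1) (k := 0) (j := 2) (by decide)
    (by decide) (by decide) (fac_SI (h := h) p) (fun _ _ hh => hh.1)
  have a2 := ord3 (h := h) H R hN h0 hS hN0 hN1 p hX hXN hdl hdl1 hdN hK0 ht (i := 2) (k := 0) (j := 1) (by decide)
    (by decide) (by decide) (fac_SI (h := h) p) (fun _ _ hh => hh.1)
  have a3 := ord3 (h := h) H R hN h0 hS hN0 hN1 p hX hXN hdl hdl1 hdN hK0 ht (i := 0) (k := 1) (j := 2) (by decide)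
    (by decide) (by decide) (fac_SP (h := h) p) (fun _ _ hh => hh.2)
  have e1 : killD h v pth pcl (aV h v p) (aV' h v p) t ≤
      (D.P h t).E (fun w => ind (SI h v p t 0 w ∧ TTr h v p (2 * t) 1 w) *
        max (Real.log (DL h v t (t + 1) (t + 1) w)) 0) +
      (D.P h t).E (fun w => ind (SI h v p t 1 w ∧ TTr h v p (2 * t) 0 w) *
        max (Real.log (DL h v t (t + 1) (t + 1) w)) 0) +
      (D.P h t).E (fun w => ind (SI h v p t 2 w ∧ TTr h v p (2 * t) 0 w) *
        max (Real.log (DL h v t (t + 1) (t + 1) w)) 0) +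
      (D.P h t).E (fun w => ind (SP h v p t 0 w ∧ TTr h v p (2 * t) 1 w) *
        max (Real.log (DL h v t (t + 1) (t + 1) w)) 0) := by
    unfold killD
    rw [← FP.E_add, ← FP.E_add, ← FP.E_add]
    refine (D.P h t).E_mono fun w hw => ?_
    rw [iR_thin h hv (Nat.le_succ t) (show t + 1 ≤ t + 1 + 1 by omega) hw, ← add_mul, ← add_mul, ← add_mul]
    set L := Real.log (DL h v t (t + 1) (t + 1) w) with hL
    have h1 : ind (aV h v p t w) - ind (aV' h v p t w) ≤
        ind (SI h v p t 0 w ∧ TTr h v p (2 * t) 1 w) + ind (SI h v p t 1 w ∧ TTr h v p (2 * t) 0 w) +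
        ind (SI h v p t 2 w ∧ TTr h v p (2 * t) 0 w) + ind (SP h v p t 0 w ∧ TTr h v p (2 * t) 1 w) := by
      have n0 := ind_nonneg (SI h v p t 0 w ∧ TTr h v p (2 * t) 1 w)
      have n1 := ind_nonneg (SI h v p t 1 w ∧ TTr h v p (2 * t) 0 w)
      have n2 := ind_nonneg (SI h v p t 2 w ∧ TTr h v p (2 * t) 0 w)
      have n3 := ind_nonneg (SP h v p t 0 w ∧ TTr h v p (2 * t) 1 w)
      by_cases ha : aV h v p t w
      · by_cases ha' : aV' h v p t w
        · rw [ind_of ha, ind_of ha']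
          linarith
        · rw [ind_of ha, ind_not ha']
          unfold aV at ha
          unfold aV' at ha'
          by_cases hp : PBr h v p (2 * t + 1) w
          · have h2 : ∃ i, ¬ TTr h v p (2 * t + 1) i w := by
              by_contra hc
              push Not at hc
              exact ha' ⟨hp, hc⟩
            obtain ⟨i, hi⟩ := h2
            fin_cases i
            · rw [ind_of (show SI h v p t 0 w ∧ TTr h v p (2 * t) 1 w from ⟨⟨ha.2 0, hi⟩, ha.2 1⟩)]
              linarith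
            · rw [ind_of (show SI h v p t 1 w ∧ TTr h v p (2 * t) 0 w from ⟨⟨ha.2 1, hi⟩, ha.2 0⟩)]
              linarith
            · rw [ind_of (show SI h v p t 2 w ∧ TTr h v p (2 * t) 0 w from ⟨⟨ha.2 2, hi⟩, ha.2 0⟩)]
              linarith
          · rw [ind_of (show SP h v p t 0 w ∧ TTr h v p (2 * t) 1 w from ⟨⟨⟨ha.1, hp⟩, ha.2 0⟩, ha.2 1⟩)]
            linarith
      · rw [ind_not ha]
        have := ind_nonneg (aV' h v p t w)
        linarith
    have h2 : 0 ≤ ind (aV h v p t w) - ind (aV' h v p t w) := by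
      have : ind (aV' h v p t w) ≤ ind (aV h v p t w) := ind_mono fun hh =>
        ⟨PB_mono (h := h) p (Nat.le_succ _) hh.1, fun i => TT_mono (h := h) p (Nat.le_succ _) (hh.2 i)⟩
      linarith
    calc (ind (aV h v p t w) - ind (aV' h v p t w)) * L ≤ (ind (aV h v p t w) - ind (aV' h v p t w)) * max L 0 :=
          mul_le_mul_of_nonneg_left (le_max_left _ _) h2
      _ ≤ _ := mul_le_mul_of_nonneg_right h1 (le_max_right _ _)
  have e2 : (D.P h t).Pr (SP h v p t 0) ≤ (D.P h t).Pr (fun w => PBr h v p (2 * t) w ∧ ¬ PBr h v p (2 * t + 1) w) :=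
    FP.Pr_mono _ fun w _ hh => hh.1
  have e3 : kilD h v p t = (D.P h t).Pr (fun w => PBr h v p (2 * t) w ∧ ¬ PBr h v p (2 * t + 1) w) +
      ((D.P h t).Pr (SI h v p t 0) + (D.P h t).Pr (SI h v p t 1) + (D.P h t).Pr (SI h v p t 2)) := by
    unfold kilD
    rw [Fin.sum_univ_three]
    rfl
  set b0 := (D.P h t).Pr (SI h v p t 0) with hb0
  set b1 := (D.P h t).Pr (SI h v p t 1) with hb1
  set b2 := (D.P h t).Pr (SI h v p t 2) with hb2
  set b3 := (D.P h t).Pr (SP h v p t 0) with hb3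
  set kv := KV h v (fun u => dg t u.1) t (t + 1) t with hkv
  set M := (D.P h t).E (fun w => mm (UU v) h dg t w ^ 2) with hM
  have p0 : 0 ≤ b0 := FP.Pr_nonneg _ _
  have p1 : 0 ≤ b1 := FP.Pr_nonneg _ _
  have p2 : 0 ≤ b2 := FP.Pr_nonneg _ _
  have p3 : 0 ≤ b3 := FP.Pr_nonneg _ _
  have pk : 0 ≤ kv := Finset.sum_nonneg fun i _ => FP.I_nonneg _ _ _ _
  have pM : 0 ≤ M := FP.E_nonneg _ fun w _ => sq_nonneg _
  have q1 : 0 ≤ Real.exp (-(K0 / 2)) * kv := mul_nonneg (Real.exp_pos _).le pk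
  have q2 : 0 ≤ Real.sqrt p.dl * M := mul_nonneg (Real.sqrt_nonneg _) pM
  have q3 : b0 + b1 + b2 + b3 ≤ kilD h v p t := by rw [e3]; linarith
  have q4 : (36 + 10 * K0) * (b0 + b1 + b2 + b3) ≤ 100 * (K0 + 1) * kilD h v p t := by
    have h1 : (36 + 10 * K0) * (b0 + b1 + b2 + b3) ≤ 100 * (K0 + 1) * (b0 + b1 + b2 + b3) :=
      mul_le_mul_of_nonneg_right (by linarith) (by linarith)
    exact h1.trans (mul_le_mul_of_nonneg_left q3 (by linarith))
  linarith

/-- **killed by the digit**, two vertices -/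
theorem killD_J (H : D.Hyp dg prr al T Lam) (R : Run h N S (AdmDep D) v) (hN : ∀ J ∈ S, 0 ≤ N J) (h0 : ∅ ∈ S)
    (hS : ∀ i : Fin 3, {i} ∈ S) (hN0 : N ∅ = 1) {N1 : ℝ} (hN1 : ∀ i : Fin 3, N1 ≤ N {i}) (p : AP) (hX : 1 ≤ p.X0)
    (hXN : p.X0 ≤ N1) (hdl : 0 < p.dl) (hdl1 : p.dl ≤ 1 / 32) (hdN : Real.exp (-N1) ≤ p.dl) {K0 : ℝ} (hK0 : 4 ≤ K0)
    {t : ℕ} (ht : t < T) {i k j : Fin 3} (hik : i ≠ k) (hij : i ≠ j) (hkj : k ≠ j) :
    killD h v (pj j) pcl (aJ h v p i k) (aJ' h v p i k) t ≤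
      100 * (K0 + 1) * kilD h v p t +
      100 * Real.exp (-(K0 / 2)) * KV h v (fun u => dg t u.1) t (t + 1) t +
      100 * Real.sqrt p.dl * (D.P h t).E (fun w => mm (UU v) h dg t w ^ 2) := by
  have hv := R.codes
  have a0 := ord2 (h := h) H R hN h0 hS hN0 hN1 p hX hXN hdl hdl1 hdN hK0 ht hik (fac_SI (h := h) p)
    (fun _ _ hh => hh.1)
  have a1 := ord2 (h := h) H R hN h0 hS hN0 hN1 p hX hXN hdl hdl1 hdN hK0 ht hik.symm (fac_SI (h := h) p)
    (fun _ _ hh => hh.1)
  have a3 := ord2 (h := h) H R hN h0 hS hN0 hN1 p hX hXN hdl hdl1 hdN hK0 ht hik (fac_SP (h := h) p)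
    (fun _ _ hh => hh.2)
  have e1 : killD h v (pj j) pcl (aJ h v p i k) (aJ' h v p i k) t ≤
      (D.P h t).E (fun w => ind (SI h v p t i w) * max (lg D v t {i} k w) 0) +
      (D.P h t).E (fun w => ind (SI h v p t k w) * max (lg D v t {k} i w) 0) +
      (D.P h t).E (fun w => ind (SP h v p t i w) * max (lg D v t {i} k w) 0) := by
    unfold killD
    rw [← FP.E_add, ← FP.E_add]
    refine (D.P h t).E_mono fun w hw => ?_
    rw [iR_pair h hv (Nat.le_succ t) (show t + 1 ≤ t + 1 + 1 by omega) hik hij hkj hw, log_DJ hv t hik hw,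
      lg_comm t k i, ← add_mul, ← add_mul]
    set L := lg D v t {i} k w with hL
    have h1 : ind (aJ h v p i k t w) - ind (aJ' h v p i k t w) ≤
        ind (SI h v p t i w) + ind (SI h v p t k w) + ind (SP h v p t i w) := by
      have n0 := ind_nonneg (SI h v p t i w)
      have n1 := ind_nonneg (SI h v p t k w)
      have n3 := ind_nonneg (SP h v p t i w)
      by_cases ha : aJ h v p i k t w
      · by_cases ha' : aJ' h v p i k t w
        · rw [ind_of ha, ind_of ha']
          linarith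
        · rw [ind_of ha, ind_not ha']
          unfold aJ at ha
          unfold aJ' at ha'
          by_cases hp : PBr h v p (2 * t + 1) w
          · by_cases hi : TTr h v p (2 * t + 1) i w
            · have hk : ¬ TTr h v p (2 * t + 1) k w := fun hk => ha' ⟨hp, hi, hk⟩
              rw [ind_of (show SI h v p t k w from ⟨ha.2.2, hk⟩)]
              linarith
            · rw [ind_of (show SI h v p t i w from ⟨ha.2.1, hi⟩)]
              linarith
          · rw [ind_of (show SP h v p t i w from ⟨⟨ha.1, hp⟩, ha.2.1⟩)]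
            linarith
      · rw [ind_not ha]
        have := ind_nonneg (aJ' h v p i k t w)
        linarith
    have h2 : 0 ≤ ind (aJ h v p i k t w) - ind (aJ' h v p i k t w) := by
      have : ind (aJ' h v p i k t w) ≤ ind (aJ h v p i k t w) := ind_mono fun hh =>
        ⟨PB_mono (h := h) p (Nat.le_succ _) hh.1, TT_mono (h := h) p (Nat.le_succ _) hh.2.1,
          TT_mono (h := h) p (Nat.le_succ _) hh.2.2⟩
      linarith
    calc (ind (aJ h v p i k t w) - ind (aJ' h v p i k t w)) * L ≤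
          (ind (aJ h v p i k t w) - ind (aJ' h v p i k t w)) * max L 0 :=
          mul_le_mul_of_nonneg_left (le_max_left _ _) h2
      _ ≤ _ := mul_le_mul_of_nonneg_right h1 (le_max_right _ _)
  have e2 : (D.P h t).Pr (SP h v p t i) ≤ (D.P h t).Pr (fun w => PBr h v p (2 * t) w ∧ ¬ PBr h v p (2 * t + 1) w) :=
    FP.Pr_mono _ fun w _ hh => hh.1
  have e3 : (D.P h t).Pr (SI h v p t i) + (D.P h t).Pr (SI h v p t k) ≤
      ∑ l, (D.P h t).Pr (fun w => TTr h v p (2 * t) l w ∧ ¬ TTr h v p (2 * t + 1) l w) := by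
    rw [← Finset.sum_pair hik (f := fun l => (D.P h t).Pr (SI h v p t l))]
    exact Finset.sum_le_sum_of_subset_of_nonneg (Finset.subset_univ _) fun x _ _ => FP.Pr_nonneg _ _
  set b0 := (D.P h t).Pr (SI h v p t i) with hb0
  set b1 := (D.P h t).Pr (SI h v p t k) with hb1
  set b3 := (D.P h t).Pr (SP h v p t i) with hb3
  set kv := KV h v (fun u => dg t u.1) t (t + 1) t with hkv
  set M := (D.P h t).E (fun w => mm (UU v) h dg t w ^ 2) with hM
  have p0 : 0 ≤ b0 := FP.Pr_nonneg _ _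
  have p1 : 0 ≤ b1 := FP.Pr_nonneg _ _
  have p3 : 0 ≤ b3 := FP.Pr_nonneg _ _
  have pk : 0 ≤ kv := Finset.sum_nonneg fun i _ => FP.I_nonneg _ _ _ _
  have pM : 0 ≤ M := FP.E_nonneg _ fun w _ => sq_nonneg _
  have q1 : 0 ≤ Real.exp (-(K0 / 2)) * kv := mul_nonneg (Real.exp_pos _).le pk
  have q2 : 0 ≤ Real.sqrt p.dl * M := mul_nonneg (Real.sqrt_nonneg _) pM
  have q3 : b0 + b1 + b3 ≤ kilD h v p t := by unfold kilD; linarith
  have q4 : (14 + 5 * K0) * (b0 + b1 + b3) ≤ 100 * (K0 + 1) * kilD h v p t := by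
    have h1 : (14 + 5 * K0) * (b0 + b1 + b3) ≤ 100 * (K0 + 1) * (b0 + b1 + b3) :=
      mul_le_mul_of_nonneg_right (by linarith) (by linarith)
    exact h1.trans (mul_le_mul_of_nonneg_left q3 (by linarith))
  linarith

end Pool.Agent.GMH.V3
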