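import Pool.Agent.GMH.VDyn
import Pool.Agent.GMH.RowV

/-!
# GMH/V3G: thin level, the alive letters of `StmtA` have good rows (helper18)

* `Good3.ext` : `Good3` for more letters, the new ones of probability zero;
* `tt_typ` : an alive letter is typical or has probability zero in the public cell;
* `good_even`, `good_odd`, `dead_even`, `dead_odd`.
-/

set_option autoImplicit false
set_option linter.unusedSectionVars false

namespace Pool.Agent.GMH.V3

open Finset Pool.Agent.PWZ Pool.Agent.M3 Pool.Agent.GM Pool.Agent.GM.Harm Pool.Agent.GMH Pool.Agent.GMH.NZ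

namespace VG

section abs

variable {Om : Type*} [Fintype Om] {P : FP Om} {κ ι θ : Type*} {X : Om → κ} {Y : Om → ι} {Z : Om → θ}

theorem ind_mul_le (A B : Prop) : ind A * ind B ≤ ind A := by
  have h1 := ind_le_one B
  have h2 := ind_nonneg A
  nlinarith

theorem lw2_zl {x : κ} (h : lw P X x = 0) (y : ι) : lw2 P X Y x y = 0 := by
  refine le_antisymm (le_trans (P.E_mono fun w _ => ?_) h.le) (lw2_nonneg P X Y x y)
  exact ind_mul_le _ _

theorem lw2_zr {y : ι} (h : lw P Y y = 0) (x : κ) : lw2 P X Y x y = 0 := by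
  rw [← lw2_swap (P := P) (X := X) (Y := Y) x y]
  exact lw2_zl h x

theorem lw3_z {x : κ} {y : ι} (h : lw2 P X Y x y = 0) (z : θ) : lw3 P X Y Z x y z = 0 := by
  refine le_antisymm (le_trans (P.E_mono fun w _ => ?_) h.le)
    (P.E_nonneg fun w _ => mul_nonneg (mul_nonneg (ind_nonneg _) (ind_nonneg _)) (ind_nonneg _))
  have h1 := ind_le_one (Z w = z)
  have h2 : 0 ≤ ind (X w = x) * ind (Y w = y) := mul_nonneg (ind_nonneg _) (ind_nonneg _)
  nlinarith

theorem row_z {x : κ} (h : lw P X x = 0) (τ : ℝ) : rowd P X Y x ≤ τ * lw P X x := by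
  rw [h, mul_zero]
  refine le_of_eq (Finset.sum_eq_zero fun y _ => ?_)
  rw [lw2_zl h, h, zero_mul, sub_zero, abs_zero]

/-- a pair of probability zero -/
theorem row3_z {x : κ} {y : ι} (h : lw2 P X Y x y = 0) (τ : ℝ) :
    ∑ z ∈ vals Z, |lw3 P X Y Z x y z - lw2 P X Y x y * lw P Z z| ≤ τ * lw2 P X Y x y := by
  rw [h, mul_zero]
  refine le_of_eq (Finset.sum_eq_zero fun z _ => ?_)
  rw [lw3_z h, zero_mul, sub_zero, abs_zero]

theorem lw3_132 (x : κ) (y : ι) (z : θ) : lw3 P X Y Z x y z = lw3 P X Z Y x z y := by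
  unfold lw3
  exact congrArg P.E (funext fun w => by ring)

theorem lw3_231 (x : κ) (y : ι) (z : θ) : lw3 P X Y Z x y z = lw3 P Y Z X y z x := by
  unfold lw3
  exact congrArg P.E (funext fun w => by ring)

/-- more letters, the new ones of probability zero -/
theorem Good3.ext {TX TX' : κ → Prop} {TY TY' : ι → Prop} {TZ TZ' : θ → Prop} {τ : ℝ} (G : Good3 P X Y Z TX TY TZ τ)
    (hX : ∀ x, TX' x → TX x ∨ lw P X x = 0) (hY : ∀ y, TY' y → TY y ∨ lw P Y y = 0)
    (hZ : ∀ z, TZ' z → TZ z ∨ lw P Z z = 0) : Good3 P X Y Z TX' TY' TZ' τ where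
  xy x hx := (hX x hx).elim (G.xy x) fun h => row_z h τ
  xz x hx := (hX x hx).elim (G.xz x) fun h => row_z h τ
  yx y hy := (hY y hy).elim (G.yx y) fun h => row_z h τ
  yz y hy := (hY y hy).elim (G.yz y) fun h => row_z h τ
  zx z hz := (hZ z hz).elim (G.zx z) fun h => row_z h τ
  zy z hz := (hZ z hz).elim (G.zy z) fun h => row_z h τ
  xyz x y hx hy := by
    rcases hX x hx with h1 | h1
    · rcases hY y hy with h2 | h2
      · exact G.xyz x y h1 h2
      · exact Or.inl (row3_z (lw2_zr h2 x) τ)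
    · exact Or.inl (row3_z (lw2_zl h1 y) τ)
  xzy x z hx hz := by
    have key : lw2 P X Z x z = 0 →
        ∑ y ∈ vals Y, |lw3 P X Y Z x y z - lw2 P X Z x z * lw P Y y| ≤ τ * lw2 P X Z x z := by
      intro h
      refine le_trans (le_of_eq (Finset.sum_congr rfl fun y _ => ?_)) (row3_z (Z := Y) h τ)
      rw [lw3_132]
    rcases hX x hx with h1 | h1
    · rcases hZ z hz with h2 | h2
      · exact G.xzy x z h1 h2
      · exact Or.inl (key (lw2_zr h2 x))
    · exact Or.inl (key (lw2_zl h1 z))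
  yzx y z hy hz := by
    have key : lw2 P Y Z y z = 0 →
        ∑ x ∈ vals X, |lw3 P X Y Z x y z - lw2 P Y Z y z * lw P X x| ≤ τ * lw2 P Y Z y z := by
      intro h
      refine le_trans (le_of_eq (Finset.sum_congr rfl fun x _ => ?_)) (row3_z (Z := X) h τ)
      rw [lw3_231]
    rcases hY y hy with h1 | h1
    · rcases hZ z hz with h2 | h2
      · exact G.yzx y z h1 h2
      · exact Or.inl (key (lw2_zr h2 y))
    · exact Or.inl (key (lw2_zl h1 z))

end abs

variable {X β γ φ υ : Type} [Fintype X] [Fintype β] [Fintype φ] [Nonempty X] [Nonempty β]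
variable {D : HD (Fin 3) X β γ φ} {al : ℝ} {h : D.Thick al} {v : ℕ → Finset (Fin 3) → X → (Fin 3 → β) → υ}

/-- an alive letter is typical or has probability zero in the public cell -/
theorem tt_typ (p : AP) {r t n : ℕ} (ht : tm r = t) (hn : nt r = n) {L : ℝ} (hX : p.X0 ≤ L) (i : Fin 3)
    {w : Pt (Fin 3) X β φ} (hw : (D.P h t).p w ≠ 0) {x : β × List υ}
    (hx : TL D v (t + 1) n i (TTr h v p r i) w x) :
    TL D v (t + 1) n i (fun w' => Real.exp (-L) * (D.P h t).m (fun u => (u.2.1 i, NP D v (t + 1) n u)) w' ≤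
      (D.P h t).m (fun u => (XL v (t + 1) i u, NP D v (t + 1) n u)) w') w x ∨
      lw (Pc h v t (t + 1) n w) (XL v (t + 1) i) x = 0 := by
  subst ht hn
  obtain ⟨w', h1, h2, h3⟩ := hx
  have h4 := h3 r le_rfl
  unfold sps sp Pr' NPr at h4
  have e1 : (D.P h (tm r)).m (fun u => (XLr v r i u, (u.2.1 i, NP D v (tm r + 1) (nt r) u))) w' =
      (D.P h (tm r)).m (fun u => (XL v (tm r + 1) i u, NP D v (tm r + 1) (nt r) u)) w' := by
    refine FP.m_congr _ ?_ ?_ w'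
    · intro a b hab
      simp only [Prod.mk.injEq] at hab ⊢
      exact ⟨hab.1, hab.2.2⟩
    · intro a b hab
      simp only [Prod.mk.injEq] at hab ⊢
      exact ⟨hab.1, congrArg Prod.fst hab.1, hab.2⟩
  rw [e1] at h4
  set M := (D.P h (tm r)).m (fun u => (u.2.1 i, NP D v (tm r + 1) (nt r) u)) w' with hM
  set m := (D.P h (tm r)).m (fun u => (XL v (tm r + 1) i u, NP D v (tm r + 1) (nt r) u)) w' with hm
  have hm0 : 0 ≤ m := FP.m_nonneg _ _ _
  have hmM : m ≤ M := by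
    refine FP.m_anti _ ?_ w'
    intro a b hab
    simp only [Prod.mk.injEq] at hab ⊢
    exact ⟨congrArg Prod.fst hab.1, hab.2⟩
  rcases hm0.eq_or_lt with hz | hz
  · right
    have hS : (D.P h (tm r)).Pr (fun w'' => NP D v (tm r + 1) (nt r) w'' = NP D v (tm r + 1) (nt r) w) ≠ 0 :=
      (FP.m_pos _ (NP D v (tm r + 1) (nt r)) hw).ne'
    unfold Pc lw
    rw [FP.cond_E hS]
    have h5 : (D.P h (tm r)).E (fun u => ind (NP D v (tm r + 1) (nt r) u = NP D v (tm r + 1) (nt r) w) *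
        ind (XL v (tm r + 1) i u = x)) = m := by
      rw [hm]
      unfold FP.m
      refine FP.E_congr _ fun u _ => ?_
      rw [← ind_and]
      refine ind_cg ?_
      show _ ↔ (XL v (tm r + 1) i u, NP D v (tm r + 1) (nt r) u) = (XL v (tm r + 1) i w', NP D v (tm r + 1) (nt r) w')
      rw [h1, h2]
      exact ⟨fun hh => Prod.ext hh.2 hh.1, fun hh => ⟨congrArg Prod.snd hh, congrArg Prod.fst hh⟩⟩
    rw [h5, ← hz, zero_div]
  · left
    refine ⟨w', h1, h2, ?_⟩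
    show Real.exp (-L) * M ≤ m
    have hM0 : 0 < M := hz.trans_le hmM
    have h5 : Real.log M ≤ p.X0 + Real.log m := by linarith
    have h6 : M ≤ Real.exp (p.X0) * m := by
      rw [← Real.log_le_log_iff hM0 (by positivity), Real.log_mul (Real.exp_ne_zero _) hz.ne', Real.log_exp]
      exact h5
    have h7 : Real.exp (-L) * Real.exp p.X0 ≤ 1 := by
      rw [← Real.exp_add, ← Real.exp_zero]
      exact Real.exp_le_exp.mpr (by linarith)
    calc Real.exp (-L) * M ≤ Real.exp (-L) * (Real.exp p.X0 * m) := mul_le_mul_of_nonneg_left h6 (Real.exp_pos _).le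
      _ = Real.exp (-L) * Real.exp p.X0 * m := by ring
      _ ≤ 1 * m := mul_le_mul_of_nonneg_right h7 hz.le
      _ = m := one_mul m

theorem tm_e (t : ℕ) : tm (2 * t) = t := by unfold tm; omega

theorem nt_e (t : ℕ) : nt (2 * t) = t := by unfold nt; omega

theorem tm_o (t : ℕ) : tm (2 * t + 1) = t := by unfold tm; omega

theorem nt_o (t : ℕ) : nt (2 * t + 1) = t + 1 := by unfold nt; omega

/-- dead mass in the public cell -/
theorem dead_r (p : AP) {r t n : ℕ} (ht : tm r = t) (hn : nt r = n) {w : Pt (Fin 3) X β φ} (hw : (D.P h t).p w ≠ 0)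
    (hpub : PBr h v p r w) (i : Fin 3) : (Pc h v t (t + 1) n w).Pr (fun u => ¬ TTr h v p r i u) ≤ p.e0 := by
  subst ht hn
  have h1 := hpub.1 r le_rfl i
  unfold Pr' at h1
  rw [FP.ce_eq_cond _ (NPr v D r) _ hw] at h1
  exact h1

end VG

variable {X β γ φ : Type} [Fintype X] [Fintype β] [Fintype φ] [Nonempty X] [Nonempty β]
variable {D : HD (Fin 3) X β γ φ} {al : ℝ} {h : D.Thick al} {N : Finset (Fin 3) → ℝ} {S : Finset (Finset (Fin 3))}
  {v : ℕ → Finset (Fin 3) → X → (Fin 3 → β) → Pt (Fin 3) X β φ}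
variable {dg : ℕ → X → ℝ} {prr : ℕ → Fin 3 → φ → φ} {T : ℕ} {Lam : ℝ}

/-- state of the time `t` -/
theorem good_even (R : Run h N S (AdmDep D) v) (hN : ∀ J ∈ S, 0 ≤ N J) (h0 : ∅ ∈ S) (hS : ∀ i : Fin 3, {i} ∈ S)
    (hN0 : N ∅ = 1) {N1 : ℝ} (hN1 : ∀ i : Fin 3, N1 ≤ N {i}) (p : AP) {L τ : ℝ} (hL : 1 ≤ L) (hX : p.X0 ≤ L)
    (hLN : 16 * L ≤ N1 * τ ^ 2) (hτ : Real.exp (-L) ≤ τ) (t : ℕ) {w : Pt (Fin 3) X β φ} (hw : (D.P h t).p w ≠ 0) :
    Good3 (Pc h v t (t + 1) t w) (XL v (t + 1) 0) (XL v (t + 1) 1) (XL v (t + 1) 2)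
      (TL D v (t + 1) t 0 (TTr h v p (2 * t) 0) w) (TL D v (t + 1) t 1 (TTr h v p (2 * t) 1) w)
      (TL D v (t + 1) t 2 (TTr h v p (2 * t) 2) w) τ :=
  VG.Good3.ext (good_state R hN h0 hS hN0 hN1 hL hLN hτ t hw)
    (fun _ hx => VG.tt_typ p (VG.tm_e t) (VG.nt_e t) hX 0 hw hx)
    (fun _ hx => VG.tt_typ p (VG.tm_e t) (VG.nt_e t) hX 1 hw hx)
    (fun _ hx => VG.tt_typ p (VG.tm_e t) (VG.nt_e t) hX 2 hw hx)

/-- after the digit -/
theorem good_odd (H : D.Hyp dg prr al T Lam) (R : Run h N S (AdmDep D) v) (hN : ∀ J ∈ S, 0 ≤ N J) (h0 : ∅ ∈ S)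
    (hS : ∀ i : Fin 3, {i} ∈ S) (hN0 : N ∅ = 1) {N1 : ℝ} (hN1 : ∀ i : Fin 3, N1 ≤ N {i}) (p : AP) {L τ : ℝ}
    (hL : 1 ≤ L) (hX : p.X0 ≤ L) (hdl : Real.exp (-L) ≤ p.dl) (hLN : 256 * L ≤ N1 * τ ^ 2) (hτ : Real.exp (-L) ≤ τ)
    {t : ℕ} (ht : t < T) {w : Pt (Fin 3) X β φ} (hw : (D.P h t).p w ≠ 0) (hpub : PBr h v p (2 * t + 1) w) :
    Good3 (Pc h v t (t + 1) (t + 1) w) (XL v (t + 1) 0) (XL v (t + 1) 1) (XL v (t + 1) 2)
      (TL D v (t + 1) (t + 1) 0 (TTr h v p (2 * t + 1) 0) w) (TL D v (t + 1) (t + 1) 1 (TTr h v p (2 * t + 1) 1) w)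
      (TL D v (t + 1) (t + 1) 2 (TTr h v p (2 * t + 1) 2) w) τ := by
  have hd := hpub.2 t le_rfl
  unfold dgl at hd
  have e1 : (D.P h t).m (fun u => ((), NP D v (t + 1) t u)) w = (D.P h t).m (NP D v (t + 1) t) w := by
    refine FP.m_congr _ ?_ ?_ w
    · intro a b hab
      simp only [Prod.mk.injEq] at hab
      exact hab.2
    · intro a b hab
      simp only [Prod.mk.injEq]
      exact ⟨trivial, hab⟩
  have e2 : (D.P h t).m (fun u => ((), NP D v (t + 1) (t + 1) u)) w = (D.P h t).m (NP D v (t + 1) (t + 1)) w := by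
    refine FP.m_congr _ ?_ ?_ w
    · intro a b hab
      simp only [Prod.mk.injEq] at hab
      exact hab.2
    · intro a b hab
      simp only [Prod.mk.injEq]
      exact ⟨trivial, hab⟩
  rw [e1, e2] at hd
  have hdig : Real.exp (-L) * (D.P h t).m (NP D v (t + 1) t) w ≤ (D.P h t).m (NP D v (t + 1) (t + 1)) w :=
    (mul_le_mul_of_nonneg_right hdl (FP.m_nonneg _ _ _)).trans hd
  exact VG.Good3.ext (good_digit H R hN h0 hS hN0 hN1 hL hLN hτ ht hw hdig)
    (fun _ hx => VG.tt_typ p (VG.tm_o t) (VG.nt_o t) hX 0 hw hx)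
    (fun _ hx => VG.tt_typ p (VG.tm_o t) (VG.nt_o t) hX 1 hw hx)
    (fun _ hx => VG.tt_typ p (VG.tm_o t) (VG.nt_o t) hX 2 hw hx)

/-- dead masses in alive cells -/
theorem dead_even (p : AP) {t : ℕ} {w : Pt (Fin 3) X β φ} (hw : (D.P h t).p w ≠ 0) (hpub : PBr h v p (2 * t) w)
    (i : Fin 3) : (Pc h v t (t + 1) t w).Pr (fun u => ¬ TTr h v p (2 * t) i u) ≤ p.e0 :=
  VG.dead_r p (VG.tm_e t) (VG.nt_e t) hw hpub i

theorem dead_odd (p : AP) {t : ℕ} {w : Pt (Fin 3) X β φ} (hw : (D.P h t).p w ≠ 0) (hpub : PBr h v p (2 * t + 1) w)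
    (i : Fin 3) : (Pc h v t (t + 1) (t + 1) w).Pr (fun u => ¬ TTr h v p (2 * t + 1) i u) ≤ p.e0 :=
  VG.dead_r p (VG.tm_o t) (VG.nt_o t) hw hpub i

end Pool.Agent.GMH.V3
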