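import Pool.Agent.GMH.VDyn
import Pool.Agent.GMH.V3S
import Pool.Agent.GMH.V3I
import Pool.Agent.GMH.RowV

/-!
# GMH/V3L: thin level, the cut part at alive points is at most `2 X0` times the indicator of the region of the dynamics
(statements helper91, proofs helper45)

* `LA.mu_ge` : an alive letter has conditional probability at least `exp (-L)` given the public cell and its point;
* `LA.Dd_le`, `LA.D3_le` : densities of alive letters; `LA.lw_dig` : ratio of a letter after the digit;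
* `gL_code_le`, `gL_dig_le`, `gJ_code_le`, `gJ_dig_le`.
-/

set_option autoImplicit false
set_option linter.unusedSectionVars false

namespace Pool.Agent.GMH.V3

open Finset Pool.Agent.PWZ Pool.Agent.M3 Pool.Agent.GM Pool.Agent.GM.Harm Pool.Agent.GMH Pool.Agent.GMH.NZ

variable {X β γ φ υ : Type} [Fintype X] [Fintype β] [Fintype φ] [Nonempty X] [Nonempty β]
variable {D : HD (Fin 3) X β γ φ} {al : ℝ} (h : D.Thick al) {v : ℕ → Finset (Fin 3) → X → (Fin 3 → β) → υ}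
variable {dg : ℕ → X → ℝ} {prr : ℕ → Fin 3 → φ → φ} {T : ℕ} {Lam : ℝ}

namespace LA

theorem div_le_of {a b M : ℝ} (hb : 0 ≤ b) (hM : 0 ≤ M) (hab : a ≤ M * b) : a / b ≤ M :=
  div_le_of_le_mul₀ hb hM hab

/-- mass of the own point -/
theorem mC_own (n : ℕ) (w : Pt (Fin 3) X β φ) (k : Fin 3) :
    mC D n w k (w.2.1 k) = (FP.unif β).Pr (fun b => b = w.2.1 k) / (FP.unif β).Pr (cY D n w k) := by
  unfold mC nuC
  rw [FP.cond_E (unif_ne (cY_self n w k))]
  congr 1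
  unfold FP.Pr
  refine FP.E_congr _ fun b _ => ?_
  rw [← ind_and]
  refine ind_cg ⟨fun hh => hh.2, fun hh => ⟨?_, hh⟩⟩
  rw [hh]
  exact cY_self n w k

theorem mC_own_pos (n : ℕ) (w : Pt (Fin 3) X β φ) (k : Fin 3) : 0 < mC D n w k (w.2.1 k) := by
  rw [mC_own]
  refine div_pos ?_ ?_
  · exact lt_of_le_of_ne (FP.Pr_nonneg _ _) (Ne.symm (unif_ne (A := fun b => b = w.2.1 k) rfl))
  · exact lt_of_le_of_ne (FP.Pr_nonneg _ _) (Ne.symm (unif_ne (cY_self n w k)))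

theorem mC_own_mono {n : ℕ} (w : Pt (Fin 3) X β φ) (k : Fin 3) : mC D n w k (w.2.1 k) ≤ mC D (n + 1) w k (w.2.1 k) := by
  rw [mC_own, mC_own]
  refine div_le_div_of_nonneg_left (FP.Pr_nonneg _ _) ?_ ?_
  · exact lt_of_le_of_ne (FP.Pr_nonneg _ _) (Ne.symm (unif_ne (cY_self (n + 1) w k)))
  · exact FP.Pr_mono _ fun b _ => cY_succ w k b

/-- the own letter has positive probability -/
theorem Gl_self {s : ℕ} (w : Pt (Fin 3) X β φ) (i : Fin 3) : Gl v s w i (XL v s i w) w.1 := by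
  unfold Gl XL
  simp only
  rw [Function.update_eq_self]

theorem mu_pos {s n : ℕ} (w : Pt (Fin 3) X β φ) (i : Fin 3) : 0 < (muC D v s n w).Pr (Gl v s w i (XL v s i w)) := by
  refine FP.Pr_pos_of (P := muC D v s n w) (w := w.1) ?_ (Gl_self w i)
  unfold muC
  refine (FP.cond_p_ne (unif_ne (cX_self s n w))).2 ⟨cX_self s n w, ?_⟩
  show (Fintype.card X : ℝ)⁻¹ ≠ 0
  exact inv_ne_zero (by exact_mod_cast Fintype.card_ne_zero)

/-- mass of the own point in the class -/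
theorem m_pt (hv : Codes D v) {t s n : ℕ} (hs : s ≤ n + 1) (w : Pt (Fin 3) X β φ) (i : Fin 3) :
    (D.P h t).m (fun u => (u.2.1 i, NP D v s n u)) w =
      (D.P h t).Pr (fun u => NP D v s n u = NP D v s n w) * mC D n w i (w.2.1 i) := by
  have h1 := Pc_E (h := h) hv t hs w (fun _ => 1) (fun j b => if j = i then ind (b = w.2.1 i) else 1)
  have h2 : ∀ j, (nuC D n w j).E (fun b => if j = i then ind (b = w.2.1 i) else 1) =
      if j = i then mC D n w i (w.2.1 i) else 1 := by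
    intro j
    by_cases hj : j = i
    · subst hj; simp only [if_true]; rfl
    · simp only [hj, if_false]; exact FP.E_const _ _
  rw [Finset.prod_congr rfl fun j _ => h2 j, Finset.prod_ite_eq' univ i, if_pos (mem_univ i), FP.E_const, one_mul] at h1
  rw [← h1]
  unfold Pc
  rw [FP.Pr_mul_cond_E (cell_ne hv t hs w)]
  unfold FP.m
  refine FP.E_congr _ fun u _ => ?_
  rw [Finset.prod_ite_eq' univ i (fun j => ind (u.2.1 j = w.2.1 i)), if_pos (mem_univ i), one_mul, ← ind_and]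
  refine ind_cg ?_
  rw [Prod.mk.injEq]
  exact and_comm

/-- mass of the own letter in the class -/
theorem m_XL (hv : Codes D v) {t s n : ℕ} (hs : s ≤ n + 1) (w : Pt (Fin 3) X β φ) (i : Fin 3) :
    (D.P h t).m (fun u => (XL v s i u, (u.2.1 i, NP D v s n u))) w =
      (D.P h t).Pr (fun u => NP D v s n u = NP D v s n w) *
        (mC D n w i (w.2.1 i) * (muC D v s n w).Pr (Gl v s w i (XL v s i w))) := by
  have h0 := Pc_lw (h := h) hv t hs w i (XL v s i w)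
  have h0' : lw (Pc h v t s n w) (XL v s i) (XL v s i w) =
      mC D n w i (w.2.1 i) * (muC D v s n w).Pr (Gl v s w i (XL v s i w)) := h0
  rw [← h0']
  unfold Pc lw
  rw [FP.Pr_mul_cond_E (cell_ne hv t hs w)]
  unfold FP.m
  refine FP.E_congr _ fun u _ => ?_
  rw [← ind_and]
  refine ind_cg ⟨fun hh => ⟨congrArg (fun q => q.2.2) hh, congrArg Prod.fst hh⟩, fun hh => ?_⟩
  have h3 : u.2.1 i = w.2.1 i := congrArg Prod.fst hh.2
  show (XL v s i u, (u.2.1 i, NP D v s n u)) = (XL v s i w, (w.2.1 i, NP D v s n w))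
  rw [hh.1, hh.2, h3]

/-- **an alive letter** -/
theorem mu_ge (hv : Codes D v) {t s n : ℕ} (hs : s ≤ n + 1) {w : Pt (Fin 3) X β φ} {i : Fin 3} {L : ℝ}
    (hsp : sp (D.P h t) (XL v s i) (fun u => (u.2.1 i, NP D v s n u)) w ≤ L) :
    Real.exp (-L) ≤ (muC D v s n w).Pr (Gl v s w i (XL v s i w)) := by
  have hM : 0 < (D.P h t).Pr (fun u => NP D v s n u = NP D v s n w) :=
    lt_of_le_of_ne (FP.Pr_nonneg _ _) (Ne.symm (cell_ne hv t hs w))
  have hm := mC_own_pos (D := D) n w i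
  have hu := mu_pos (D := D) (v := v) (s := s) (n := n) w i
  unfold sp at hsp
  rw [m_pt h hv hs, m_XL h hv hs, Real.log_mul hM.ne' hm.ne', Real.log_mul hM.ne' (mul_pos hm hu).ne',
    Real.log_mul hm.ne' hu.ne'] at hsp
  rw [← Real.le_log_iff_exp_le hu]
  linarith

/-- two alive letters -/
theorem Dd_le (hv : Codes D v) {t s n : ℕ} (hs : s ≤ n + 1) {w : Pt (Fin 3) X β φ} {i k : Fin 3} (hik : i ≠ k) {L : ℝ}
    (hi : Real.exp (-L) ≤ (muC D v s n w).Pr (Gl v s w i (XL v s i w))) :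
    Dd (Pc h v t s n w) (XL v s i) (XL v s k) (XL v s i w) (XL v s k w) ≤ Real.exp L := by
  unfold Dd
  refine div_le_of (mul_nonneg (lw_nonneg _ _ _) (lw_nonneg _ _ _)) (Real.exp_pos _).le ?_
  have h2 : lw2 (Pc h v t s n w) (XL v s i) (XL v s k) (XL v s i w) (XL v s k w) = _ := Pc_L2 (h := h) hv t hs w hik _ _
  rw [h2, Pc_lw hv t hs, Pc_lw hv t hs]
  have hmi := mC_nonneg (D := D) n w i (XL v s i w).1
  have hmk := mC_nonneg (D := D) n w k (XL v s k w).1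
  set μ := muC D v s n w with hμ
  set Gi := Gl v s w i (XL v s i w) with hGi
  set Gk := Gl v s w k (XL v s k w) with hGk
  have h3 : μ.Pr (fun x => Gi x ∧ Gk x) ≤ μ.Pr Gk := FP.Pr_mono _ fun x _ hx => hx.2
  have h4 : μ.Pr Gk ≤ Real.exp L * μ.Pr Gi * μ.Pr Gk := by
    have h5 : 1 ≤ Real.exp L * μ.Pr Gi := by
      have := mul_le_mul_of_nonneg_left hi (Real.exp_pos L).le
      rwa [← Real.exp_add, add_neg_cancel, Real.exp_zero] at this
    exact le_mul_of_one_le_left (FP.Pr_nonneg _ _) h5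
  have h6 := mul_le_mul_of_nonneg_left (h3.trans h4) (mul_nonneg hmi hmk)
  linarith

/-- three alive letters -/
theorem D3_le (hv : Codes D v) {t s n : ℕ} (hs : s ≤ n + 1) {w : Pt (Fin 3) X β φ} {i k m : Fin 3} (hik : i ≠ k)
    (him : i ≠ m) (hkm : k ≠ m) {L : ℝ}
    (hi : Real.exp (-L) ≤ (muC D v s n w).Pr (Gl v s w i (XL v s i w)))
    (hk : Real.exp (-L) ≤ (muC D v s n w).Pr (Gl v s w k (XL v s k w))) :
    D3 (Pc h v t s n w) (XL v s i) (XL v s k) (XL v s m) (XL v s i w) (XL v s k w) (XL v s m w) ≤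
      Real.exp (2 * L) := by
  unfold D3
  refine div_le_of (mul_nonneg (mul_nonneg (lw_nonneg _ _ _) (lw_nonneg _ _ _)) (lw_nonneg _ _ _))
    (Real.exp_pos _).le ?_
  have h2 : lw3 (Pc h v t s n w) (XL v s i) (XL v s k) (XL v s m) (XL v s i w) (XL v s k w) (XL v s m w) = _ :=
    Pc_L3 (h := h) hv t hs w hik him hkm _ _ _
  rw [h2, Pc_lw hv t hs, Pc_lw hv t hs, Pc_lw hv t hs]
  have hmi := mC_nonneg (D := D) n w i (XL v s i w).1
  have hmk := mC_nonneg (D := D) n w k (XL v s k w).1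
  have hmm := mC_nonneg (D := D) n w m (XL v s m w).1
  set μ := muC D v s n w with hμ
  set Gi := Gl v s w i (XL v s i w) with hGi
  set Gk := Gl v s w k (XL v s k w) with hGk
  set Gm := Gl v s w m (XL v s m w) with hGm
  have h3 : μ.Pr (fun x => (Gi x ∧ Gk x) ∧ Gm x) ≤ μ.Pr Gm := FP.Pr_mono _ fun x _ hx => hx.2
  have hone : ∀ G : X → Prop, Real.exp (-L) ≤ μ.Pr G → 1 ≤ Real.exp L * μ.Pr G := by
    intro G hG
    have := mul_le_mul_of_nonneg_left hG (Real.exp_pos L).le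
    rwa [← Real.exp_add, add_neg_cancel, Real.exp_zero] at this
  have h5 : 1 ≤ (Real.exp L * μ.Pr Gi) * (Real.exp L * μ.Pr Gk) :=
    one_le_mul_of_one_le_of_one_le (hone Gi hi) (hone Gk hk)
  have h4 : μ.Pr Gm ≤ (Real.exp L * μ.Pr Gi) * (Real.exp L * μ.Pr Gk) * μ.Pr Gm :=
    le_mul_of_one_le_left (FP.Pr_nonneg _ _) h5
  have h6 := mul_le_mul_of_nonneg_left (h3.trans h4) (mul_nonneg (mul_nonneg hmi hmk) hmm)
  have e2 : Real.exp (2 * L) = Real.exp L * Real.exp L := by rw [← Real.exp_add]; congr 1; ring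
  rw [e2]
  linarith

/-- a trivial letter -/
theorem lw_triv {Om : Type*} [Fintype Om] (P : FP Om) : lw P (fun _ => ()) () = 1 := by
  unfold lw
  have : ∀ w : Om, P.p w ≠ 0 → ind (((fun _ : Om => ()) w) = ()) = (1 : ℝ) := fun w _ => ind_of rfl
  rw [P.E_congr this, P.E_const]

theorem lw2_triv {Om κ : Type*} [Fintype Om] (P : FP Om) (X : Om → κ) (x : κ) : lw2 P X (fun _ => ()) x () = lw P X x := by
  unfold lw2 lw
  exact P.E_congr fun w _ => by rw [ind_of rfl, mul_one]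

theorem Dd_triv {Om κ : Type*} [Fintype Om] (P : FP Om) (X : Om → κ) (x : κ) {L : ℝ} (hL : 0 ≤ L) :
    Dd P X (fun _ => ()) x () ≤ Real.exp L := by
  unfold Dd
  rw [lw_triv, lw2_triv, mul_one]
  exact (div_self_le_one _).trans (Real.one_le_exp hL)

theorem D3_triv {Om κ ι : Type*} [Fintype Om] (P : FP Om) (X : Om → κ) (Y : Om → ι) (x : κ) (y : ι) :
    D3 P X Y (fun _ => ()) x y () = Dd P X Y x y := by
  unfold D3 Dd
  rw [lw_triv, mul_one]
  congr 1
  unfold lw3 lw2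
  exact P.E_congr fun w _ => by rw [ind_of (show (() : Unit) = () from rfl), mul_one]

theorem rt_triv {Om : Type*} [Fintype Om] (Q P : FP Om) : rt Q P (fun _ => ()) () = 1 := by
  unfold rt
  rw [lw_triv, lw_triv, div_one]

/-! ### the two kinds of steps -/

/-- the child of a code step -/
theorem Qcr_odd {t : ℕ} {w : Pt (Fin 3) X β φ} (hw : (D.P h t).p w ≠ 0) :
    Qcr h v (2 * t + 1) w =
      (Pc h v t (t + 1) (t + 1) w).cond (fun u => Vt v (t + 1) ∅ u = Vt v (t + 1) ∅ w) := by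
  rw [Pc_child h hw]
  unfold Qcr tm nt
  rw [show (2 * t + 1) / 2 = t by omega, show (2 * t + 1 + 1) / 2 = t + 1 by omega,
    show (2 * t + 1 + 1 + 1) / 2 = t + 1 by omega]

theorem Pcr_odd (t : ℕ) (w : Pt (Fin 3) X β φ) : Pcr h v (2 * t + 1) w = Pc h v t (t + 1) (t + 1) w := by
  unfold Pcr tm nt
  rw [show (2 * t + 1) / 2 = t by omega, show (2 * t + 1 + 1) / 2 = t + 1 by omega]

theorem Pcr_even (t : ℕ) (w : Pt (Fin 3) X β φ) : Pcr h v (2 * t) w = Pc h v t (t + 1) t w := by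
  unfold Pcr tm nt
  rw [show (2 * t) / 2 = t by omega, show (2 * t + 1) / 2 = t by omega]

theorem Qcr_even (t : ℕ) (w : Pt (Fin 3) X β φ) : Qcr h v (2 * t) w = Pc h v t (t + 1) (t + 1) w := by
  unfold Qcr tm nt
  rw [show (2 * t) / 2 = t by omega, show (2 * t + 1) / 2 = t by omega, show (2 * t + 1 + 1) / 2 = t + 1 by omega]

theorem sps_odd {p : AP} {t : ℕ} {i : Fin 3} {w : Pt (Fin 3) X β φ} (hw : TTr h v p (2 * t + 1) i w) :
    sp (D.P h t) (XL v (t + 1) i) (fun u => (u.2.1 i, NP D v (t + 1) (t + 1) u)) w ≤ p.X0 := by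
  have := hw (2 * t + 1) le_rfl
  unfold sps at this
  rwa [Pr_odd, XLr_odd, NPr_odd] at this

theorem sps_even {p : AP} {t : ℕ} {i : Fin 3} {w : Pt (Fin 3) X β φ} (hw : TTr h v p (2 * t) i w) :
    sp (D.P h t) (XL v (t + 1) i) (fun u => (u.2.1 i, NP D v (t + 1) t u)) w ≤ p.X0 := by
  have := hw (2 * t) le_rfl
  unfold sps at this
  rwa [Pr_even, XLr_even, NPr_even] at this

theorem cXS {s t : ℕ} (c : Pt (Fin 3) X β φ) (x : X) :
    cX D v s (t + 1) c x ↔ D.qa (t + 1) x = D.qa (t + 1) c.1 ∧ cX D v s t c x := by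
  unfold cX
  constructor
  · rintro ⟨h1, h2⟩
    exact ⟨h2, h1, D.ra t x c.1 h2⟩
  · rintro ⟨h2, h1, -⟩
    exact ⟨h1, h2⟩

/-- events after the digit (any codes) -/
theorem muS {s t : ℕ} (c : Pt (Fin 3) X β φ) (E : X → Prop) :
    (muC D v s t c).Pr (fun x => D.qa (t + 1) x = D.qa (t + 1) c.1) * (muC D v s (t + 1) c).Pr E =
      (muC D v s t c).Pr fun x => D.qa (t + 1) x = D.qa (t + 1) c.1 ∧ E x := by
  have hA : (FP.unif X).Pr (cX D v s t c) ≠ 0 := unif_ne (cX_self s t c)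
  have hA' : (FP.unif X).Pr (cX D v s (t + 1) c) ≠ 0 := unif_ne (cX_self s (t + 1) c)
  unfold muC FP.Pr
  rw [FP.cond_E hA, FP.cond_E hA', FP.cond_E hA]
  have e1 : (FP.unif X).E (fun x => ind (cX D v s t c x) * ind (D.qa (t + 1) x = D.qa (t + 1) c.1)) =
      (FP.unif X).Pr (cX D v s (t + 1) c) := by
    unfold FP.Pr
    refine FP.E_congr _ fun x _ => ?_
    rw [← ind_and]
    exact ind_cg ((and_comm).trans (cXS c x).symm)
  have e2 : (FP.unif X).E (fun x => ind (cX D v s t c x) * ind (D.qa (t + 1) x = D.qa (t + 1) c.1 ∧ E x)) =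
      (FP.unif X).E (fun x => ind (cX D v s (t + 1) c x) * ind (E x)) := by
    refine FP.E_congr _ fun x _ => ?_
    rw [ind_cg (cXS c x), ind_and, ind_and]
    ring
  rw [e1, e2]
  field_simp

/-- **the ratio of a letter in the cell after the digit is at least its ratio given the digit** -/
theorem lw_dig (H : D.Hyp dg prr al T Lam) (hv : Codes D v) {t : ℕ} (ht : t < T) (w : Pt (Fin 3) X β φ) (i : Fin 3) :
    lw ((Pc h v t (t + 1) t w).cond fun u => dg t u.1 = dg t w.1) (XL v (t + 1) i) (XL v (t + 1) i w) ≤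
      lw (Pc h v t (t + 1) (t + 1) w) (XL v (t + 1) i) (XL v (t + 1) i w) := by
  set P := Pc h v t (t + 1) t w with hP
  set μ := muC D v (t + 1) t w with hμ
  set E : X → Prop := fun x => dg t x = dg t w.1 with hE
  set G := Gl v (t + 1) w i (XL v (t + 1) i w) with hG
  have hEw : 0 < μ.Pr E := by
    refine FP.Pr_pos_of (P := μ) (w := w.1) ?_ rfl
    rw [hμ]
    unfold muC
    refine (FP.cond_p_ne (unif_ne (cX_self (t + 1) t w))).2 ⟨cX_self (t + 1) t w, ?_⟩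
    show (Fintype.card X : ℝ)⁻¹ ≠ 0
    exact inv_ne_zero (by exact_mod_cast Fintype.card_ne_zero)
  have h0 : P.Pr (fun u => E u.1) = μ.Pr E := Pc_E0 (h := h) hv t le_rfl w (fun x => ind (E x))
  have h0' : P.Pr (fun u => E u.1) ≠ 0 := by rw [h0]; exact hEw.ne'
  have h1 : lw (P.cond fun u => E u.1) (XL v (t + 1) i) (XL v (t + 1) i w) =
      mC D t w i (w.2.1 i) * (μ.Pr (fun x => E x ∧ G x) / μ.Pr E) := by
    unfold lw
    rw [FP.cond_E h0', h0]
    have h2 := Pc_L1 (h := h) hv t (s := t + 1) (n := t) le_rfl w E i (XL v (t + 1) i w)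
    rw [h2]
    show mC D t w i (w.2.1 i) * _ / _ = _
    rw [mul_div_assoc]
  -- the digit and the cell of the hidden point
  have hsupp : ∀ x, μ.p x ≠ 0 → (E x ↔ D.qa (t + 1) x = D.qa (t + 1) w.1) := by
    intro x hx
    have hx1 : cX D v (t + 1) t w x := ((FP.cond_p_ne (unif_ne (cX_self (t + 1) t w))).1 hx).1
    rw [H.dg_cell t ht]
    exact ⟨fun hh => ⟨hx1.2, hh⟩, fun hh => hh.2⟩
  have e1 : μ.Pr E = μ.Pr fun x => D.qa (t + 1) x = D.qa (t + 1) w.1 := by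
    unfold FP.Pr
    exact FP.E_congr _ fun x hx => ind_cg (hsupp x hx)
  have e2 : μ.Pr (fun x => E x ∧ G x) = μ.Pr fun x => D.qa (t + 1) x = D.qa (t + 1) w.1 ∧ G x := by
    unfold FP.Pr
    exact FP.E_congr _ fun x hx => ind_cg (and_congr_left fun _ => hsupp x hx)
  have e3 := muS (D := D) (v := v) (s := t + 1) (t := t) w G
  have e4 : μ.Pr (fun x => E x ∧ G x) / μ.Pr E = (muC D v (t + 1) (t + 1) w).Pr G := by
    rw [e2, ← e3, ← e1]
    exact mul_div_cancel_left₀ _ hEw.ne'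
  have h5 := Pc_lw (h := h) hv t (show t + 1 ≤ t + 1 + 1 by omega) w i (XL v (t + 1) i w)
  rw [h5]
  have h6 : lw (P.cond fun u => dg t u.1 = dg t w.1) (XL v (t + 1) i) (XL v (t + 1) i w) = _ := h1
  rw [h6, e4]
  exact mul_le_mul_of_nonneg_right (mC_own_mono w i) (FP.Pr_nonneg _ _)

theorem rt_dig (H : D.Hyp dg prr al T Lam) (hv : Codes D v) {t : ℕ} (ht : t < T) (w : Pt (Fin 3) X β φ) (i : Fin 3) :
    rt ((Pc h v t (t + 1) t w).cond fun u => dg t u.1 = dg t w.1) (Pc h v t (t + 1) t w) (XL v (t + 1) i)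
      (XL v (t + 1) i w) ≤
      rt (Pc h v t (t + 1) (t + 1) w) (Pc h v t (t + 1) t w) (XL v (t + 1) i) (XL v (t + 1) i w) :=
  div_le_div_of_nonneg_right (lw_dig h H hv ht w i) (lw_nonneg _ _ _)

/-! ### the region -/

theorem reg3 {Om κ ι θ : Type*} [Fintype Om] {Q P : FP Om} {X : Om → κ} {Y : Om → ι} {Z : Om → θ} {B eta : ℝ} {x : κ}
    {y : ι} {z : θ} (hr : RegV Q P X Y Z B eta x y z) {sx sy sz : Prop} (hx : B < rt Q P X x → sx)
    (hy : B < rt Q P Y y → sy) (hz : B < rt Q P Z z → sz) :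
    (sx ∧ sy ∧ 1 + eta < Dd P X Y x y) ∨ (sx ∧ sz ∧ 1 + eta < Dd P X Z x z) ∨ (sy ∧ sz ∧ 1 + eta < Dd P Y Z y z) ∨
      (sx ∧ sy ∧ sz ∧ 1 + eta < D3 P X Y Z x y z) := by
  rcases hr with h1 | h1 | h1 | h1
  · exact Or.inl ⟨hx h1.1, hy h1.2.1, h1.2.2⟩
  · exact Or.inr (Or.inl ⟨hx h1.1, hz h1.2.1, h1.2.2⟩)
  · exact Or.inr (Or.inr (Or.inl ⟨hy h1.1, hz h1.2.1, h1.2.2⟩))
  · exact Or.inr (Or.inr (Or.inr ⟨hx h1.1, hy h1.2.1, hz h1.2.2.1, h1.2.2.2⟩))

/-- from the region of `gV` to the region of the dynamics -/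
theorem reg_Rgr {p : AP} {B eta : ℝ} {r : ℕ} {w : Pt (Fin 3) X β φ} (hb : PBr h v p r w) (hT : ∀ i, TTr h v p r i w)
    (hr : (Str h v B r 0 w ∧ Str h v B r 1 w ∧
        1 + eta < Dd (Pcr h v r w) (XLr v r 0) (XLr v r 1) (XLr v r 0 w) (XLr v r 1 w)) ∨
      (Str h v B r 0 w ∧ Str h v B r 2 w ∧
        1 + eta < Dd (Pcr h v r w) (XLr v r 0) (XLr v r 2) (XLr v r 0 w) (XLr v r 2 w)) ∨
      (Str h v B r 1 w ∧ Str h v B r 2 w ∧
        1 + eta < Dd (Pcr h v r w) (XLr v r 1) (XLr v r 2) (XLr v r 1 w) (XLr v r 2 w)) ∨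
      (Str h v B r 0 w ∧ Str h v B r 1 w ∧ Str h v B r 2 w ∧
        1 + eta < D3 (Pcr h v r w) (XLr v r 0) (XLr v r 1) (XLr v r 2) (XLr v r 0 w) (XLr v r 1 w) (XLr v r 2 w))) :
    Rgr h v p B eta r w := by
  refine ⟨hb, ?_⟩
  rcases hr with h1 | h1 | h1 | h1
  · exact Or.inl ⟨0, 1, by decide, hT 0, hT 1, h1⟩
  · exact Or.inl ⟨0, 2, by decide, hT 0, hT 2, h1⟩
  · exact Or.inl ⟨1, 2, by decide, hT 1, hT 2, h1⟩
  · exact Or.inr ⟨hT, h1⟩

/-- the last step of the four theorems -/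
theorem fin {A R : Prop} {g X0 : ℝ} (hX : 0 ≤ X0) (hg : A → g ≤ 2 * X0 * ind R) : ind A * g ≤ 2 * X0 * ind R := by
  by_cases hA : A
  · rw [ind_of hA, one_mul]
    exact hg hA
  · rw [ind_not hA, zero_mul]
    exact mul_nonneg (by linarith) (ind_nonneg _)

theorem fin2 {Reg R : Prop} {g X0 : ℝ} (hX : 0 ≤ X0) (hg : g ≤ ind Reg * (2 * X0)) (hR : Reg → R) :
    g ≤ 2 * X0 * ind R := by
  refine hg.trans ?_
  rw [mul_comm]
  exact mul_le_mul_of_nonneg_left (ind_mono hR) (by linarith)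

end LA

open LA

/-- **CODE STEP** (`r = 2t+1`) : `Qcr (2t+1)` is the child (`Pc_child`); the points `y_k` are independent of the other letters
in the public cell (`Pc_E`, `Pc_L2`, `Pc_L3` of RowV), so alive letters have `Dd ≤ exp X0`, `D3 ≤ exp (2 X0)`; `gV_le` -/
theorem gL_code_le (H : D.Hyp dg prr al T Lam) (hv : Codes D v) (p : AP) (hX : 0 ≤ p.X0) {B eta : ℝ} (hB : 1 ≤ B)
    (he : 0 ≤ eta) {t : ℕ} (ht : t < T) {w : Pt (Fin 3) X β φ} (hw : (D.P h t).p w ≠ 0) :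
    ind (PBr h v p (2 * t + 1) w ∧ ∀ i, TTr h v p (2 * t + 1) i w) *
      gL h v (Vt v (t + 1) ∅) B eta t (t + 1) (t + 1) (Vt v (t + 1) ∅ w) w ≤
    2 * p.X0 * ind (Rgr h v p B eta (2 * t + 1) w) := by
  refine fin hX fun hA => ?_
  have hs : t + 1 ≤ t + 1 + 1 := by omega
  have hm : ∀ i, Real.exp (-p.X0) ≤ (muC D v (t + 1) (t + 1) w).Pr (Gl v (t + 1) w i (XL v (t + 1) i w)) := fun i =>
    mu_ge h hv hs (sps_odd h (hA.2 i))
  unfold gL
  refine fin2 hX (gV_le he hX (Dd_le h hv hs (by decide) (hm 0)) (Dd_le h hv hs (by decide) (hm 0))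
    (Dd_le h hv hs (by decide) (hm 1)) (D3_le h hv hs (by decide) (by decide) (by decide) (hm 0) (hm 1))) ?_
  intro hr
  refine reg_Rgr h hA.1 hA.2 ?_
  have key : ∀ i, B < rt ((Pc h v t (t + 1) (t + 1) w).cond fun u => Vt v (t + 1) ∅ u = Vt v (t + 1) ∅ w)
      (Pc h v t (t + 1) (t + 1) w) (XL v (t + 1) i) (XL v (t + 1) i w) → Str h v B (2 * t + 1) i w := by
    intro i hi
    unfold Str
    rw [Qcr_odd h hw, Pcr_odd, XLr_odd]
    exact hi
  have := reg3 hr (key 0) (key 1) (key 2)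
  rw [Pcr_odd, XLr_odd, XLr_odd, XLr_odd]
  exact this

/-- **DIGIT STEP** (`r = 2t`) : ratio of a letter in the cell `Qcr (2t)` = twice its ratio in the child of the digit (own
half of the cell of `y_i`) -/
theorem gL_dig_le (H : D.Hyp dg prr al T Lam) (hv : Codes D v) (p : AP) (hX : 0 ≤ p.X0) {B eta : ℝ} (hB : 1 ≤ B)
    (he : 0 ≤ eta) {t : ℕ} (ht : t < T) {w : Pt (Fin 3) X β φ} (hw : (D.P h t).p w ≠ 0) :
    ind (PBr h v p (2 * t) w ∧ ∀ i, TTr h v p (2 * t) i w) *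
      gL h v (fun u => dg t u.1) B eta t (t + 1) t (dg t w.1) w ≤
    2 * p.X0 * ind (Rgr h v p B eta (2 * t) w) := by
  refine fin hX fun hA => ?_
  have hs : t + 1 ≤ t + 1 := le_rfl
  have hm : ∀ i, Real.exp (-p.X0) ≤ (muC D v (t + 1) t w).Pr (Gl v (t + 1) w i (XL v (t + 1) i w)) := fun i =>
    mu_ge h hv hs (sps_even h (hA.2 i))
  unfold gL
  refine fin2 hX (gV_le he hX (Dd_le h hv hs (by decide) (hm 0)) (Dd_le h hv hs (by decide) (hm 0))
    (Dd_le h hv hs (by decide) (hm 1)) (D3_le h hv hs (by decide) (by decide) (by decide) (hm 0) (hm 1))) ?_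
  intro hr
  refine reg_Rgr h hA.1 hA.2 ?_
  have key : ∀ i, B < rt ((Pc h v t (t + 1) t w).cond fun u => dg t u.1 = dg t w.1)
      (Pc h v t (t + 1) t w) (XL v (t + 1) i) (XL v (t + 1) i w) → Str h v B (2 * t) i w := by
    intro i hi
    unfold Str
    rw [Qcr_even, Pcr_even, XLr_even]
    exact hi.trans_le (rt_dig h H hv ht w i)
  have := reg3 hr (key 0) (key 1) (key 2)
  rw [Pcr_even, XLr_even, XLr_even, XLr_even]
  exact this

/-- code step, two vertices -/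
theorem gJ_code_le (H : D.Hyp dg prr al T Lam) (hv : Codes D v) (p : AP) (hX : 0 ≤ p.X0) {B eta : ℝ} (hB : 1 ≤ B)
    (he : 0 ≤ eta) {t : ℕ} (ht : t < T) {i k : Fin 3} (hik : i ≠ k) {w : Pt (Fin 3) X β φ} (hw : (D.P h t).p w ≠ 0) :
    ind (PBr h v p (2 * t + 1) w ∧ TTr h v p (2 * t + 1) i w ∧ TTr h v p (2 * t + 1) k w) *
      gJ h v i k (Vt v (t + 1) ∅) B eta t (t + 1) (t + 1) (Vt v (t + 1) ∅ w) w ≤
    2 * p.X0 * ind (Rgr h v p B eta (2 * t + 1) w) := by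
  refine fin hX fun hA => ?_
  have hs : t + 1 ≤ t + 1 + 1 := by omega
  have hmi := mu_ge h hv hs (sps_odd h hA.2.1)
  unfold gJ
  refine fin2 hX (gV_le he hX (Dd_le h hv hs hik hmi) (Dd_triv _ _ _ hX) (Dd_triv _ _ _ hX) ?_) ?_
  · rw [D3_triv]
    exact (Dd_le h hv hs hik hmi).trans (Real.exp_le_exp.2 (by linarith))
  intro hr
  have hne : ¬ B < rt ((Pc h v t (t + 1) (t + 1) w).cond fun u => Vt v (t + 1) ∅ u = Vt v (t + 1) ∅ w)
      (Pc h v t (t + 1) (t + 1) w) (fun _ => ()) () := by rw [rt_triv]; exact not_lt.2 hB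
  have key : ∀ i, B < rt ((Pc h v t (t + 1) (t + 1) w).cond fun u => Vt v (t + 1) ∅ u = Vt v (t + 1) ∅ w)
      (Pc h v t (t + 1) (t + 1) w) (XL v (t + 1) i) (XL v (t + 1) i w) → Str h v B (2 * t + 1) i w := by
    intro i hi
    unfold Str
    rw [Qcr_odd h hw, Pcr_odd, XLr_odd]
    exact hi
  rcases hr with h1 | h1 | h1 | h1
  · refine ⟨hA.1, Or.inl ⟨i, k, hik, hA.2.1, hA.2.2, key i h1.1, key k h1.2.1, ?_⟩⟩
    rw [Pcr_odd, XLr_odd, XLr_odd]
    exact h1.2.2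
  · exact absurd h1.2.1 hne
  · exact absurd h1.2.1 hne
  · exact absurd h1.2.2.1 hne

/-- digit step, two vertices -/
theorem gJ_dig_le (H : D.Hyp dg prr al T Lam) (hv : Codes D v) (p : AP) (hX : 0 ≤ p.X0) {B eta : ℝ} (hB : 1 ≤ B)
    (he : 0 ≤ eta) {t : ℕ} (ht : t < T) {i k : Fin 3} (hik : i ≠ k) {w : Pt (Fin 3) X β φ} (hw : (D.P h t).p w ≠ 0) :
    ind (PBr h v p (2 * t) w ∧ TTr h v p (2 * t) i w ∧ TTr h v p (2 * t) k w) *
      gJ h v i k (fun u => dg t u.1) B eta t (t + 1) t (dg t w.1) w ≤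
    2 * p.X0 * ind (Rgr h v p B eta (2 * t) w) := by
  refine fin hX fun hA => ?_
  have hs : t + 1 ≤ t + 1 := le_rfl
  have hmi := mu_ge h hv hs (sps_even h hA.2.1)
  unfold gJ
  refine fin2 hX (gV_le he hX (Dd_le h hv hs hik hmi) (Dd_triv _ _ _ hX) (Dd_triv _ _ _ hX) ?_) ?_
  · rw [D3_triv]
    exact (Dd_le h hv hs hik hmi).trans (Real.exp_le_exp.2 (by linarith))
  intro hr
  have hne : ¬ B < rt ((Pc h v t (t + 1) t w).cond fun u => dg t u.1 = dg t w.1)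
      (Pc h v t (t + 1) t w) (fun _ => ()) () := by rw [rt_triv]; exact not_lt.2 hB
  have key : ∀ i, B < rt ((Pc h v t (t + 1) t w).cond fun u => dg t u.1 = dg t w.1)
      (Pc h v t (t + 1) t w) (XL v (t + 1) i) (XL v (t + 1) i w) → Str h v B (2 * t) i w := by
    intro i hi
    unfold Str
    rw [Qcr_even, Pcr_even, XLr_even]
    exact hi.trans_le (rt_dig h H hv ht w i)
  rcases hr with h1 | h1 | h1 | h1
  · refine ⟨hA.1, Or.inl ⟨i, k, hik, hA.2.1, hA.2.2, key i h1.1, key k h1.2.1, ?_⟩⟩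
    rw [Pcr_even, XLr_even, XLr_even]
    exact h1.2.2
  · exact absurd h1.2.1 hne
  · exact absurd h1.2.1 hne
  · exact absurd h1.2.2.1 hne

end Pool.Agent.GMH.V3
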