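import Pool.Agent.GMH.V3I
import Pool.Agent.GMH.V3D
import Pool.Agent.GMH.V3G
import Pool.Agent.GMH.V3L
import Pool.Agent.GMH.KillD
import Pool.Agent.GMH.KillA
import Pool.Agent.GMH.BchSum
import Pool.Agent.GMH.GainSum
import Pool.Agent.GMH.EndTR
import Pool.Agent.GMH.ConB
import Pool.Agent.GMH.Dead

/-!
# GMH/VTot: the thin level of HARM(3), total balance (helper30, statement of helper91; single kills: helper95)

Composition of `V3I` (loss of the codes), `V3D` (digit), `KillD`, `KillA` (killed points), `BchSum` (children with large dead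
mass), `V3G` (rows), `V3L` (cut part), `GainSum` (sum of the gains), `EndTR`, `ConB` (potential at the end and at the start),
`ConM` (squares of the class biases), `Dead` (private costs).
* `asm` : the sum over the times, numbers only;
* **`V_total`**, **`VJ_total`** : the balance of the thin labels over the class, all vertices and two vertices.
-/

set_option autoImplicit false
set_option linter.unusedSectionVars false

namespace Pool.Agent.GMH.V3

open Finset Pool.Agent.PWZ Pool.Agent.M3 Pool.Agent.GM Pool.Agent.GM.Harm Pool.Agent.GMH Pool.Agent.GMH.NZ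

/-- the error of the thin level -/
noncomputable def errV (n N1 Lam K0 B eta τ : ℝ) (p : AP) (Pd PR : ℝ) : ℝ :=
  18 * n * Lam / N1 + 4 * Real.sqrt (18 * n * Lam / N1) + (400 * (K0 + 1) + 192) * Pd +
    (1000 * B ^ 3 * (Real.sqrt τ + eta) + 4 * p.e0 + 100 * Real.exp (-(K0 / 2)) + 200 / N1) * (9 * n * Lam) +
    800 * Real.sqrt p.dl * (n * N1 * Lam) + 2 * p.X0 * PR

/-- the hypotheses on the numbers -/
structure NumV (n N1 K0 B eta τ L : ℝ) (p : AP) : Prop where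
  hn : 1 ≤ n
  hN1 : 1 ≤ N1
  hX : 1 ≤ p.X0
  hXN : p.X0 ≤ N1
  he : 0 ≤ p.e0
  hdl : 0 < p.dl
  hdl1 : p.dl ≤ 1 / 32
  hK0 : 4 ≤ K0
  hKN : K0 ≤ N1
  hB : Real.exp 2 ≤ B
  h0 : 0 ≤ eta
  h1 : eta ≤ 1
  ht0 : 0 ≤ τ
  ht1 : τ ≤ 1
  hL1 : 1 ≤ L
  hXL : p.X0 ≤ L
  hdL : Real.exp (-L) ≤ p.dl
  hLN : 256 * L ≤ N1 * τ ^ 2
  hLt : Real.exp (-L) ≤ τ

namespace VT

/-- a sum over the half steps -/
theorem sum_evod (f : ℕ → ℝ) (T : ℕ) : ∑ r ∈ range (2 * T), f r = ∑ t ∈ range T, (f (2 * t) + f (2 * t + 1)) := by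
  induction T with
  | zero => simp
  | succ T ih =>
    rw [show 2 * (T + 1) = 2 * T + 1 + 1 by ring, Finset.sum_range_succ, Finset.sum_range_succ, ih,
      Finset.sum_range_succ]
    ring

/-- **the sum over the times**, numbers only -/
theorem asm {T : ℕ} {kD lA kA cA PD PA KD KA BD BA M2 CS R0 R1 : ℕ → ℝ} {K0 eK sd iN cG X2 Pd PR G9 M9 : ℝ}
    (hkD : ∀ t < T, kD t ≤ 100 * (K0 + 1) * PD t + 100 * eK * KD t + 100 * sd * M2 t)
    (hkA : ∀ t < T, kA t ≤ 100 * PA t + iN * (KA t + CS t))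
    (hlA : ∀ t < T, lA t ≤ X2 * R1 t + cG * KA t + 6 * BA t)
    (hcA : ∀ t < T, cA t ≤ X2 * R0 t + (cG * KD t + 6 * BD t))
    (nPA : ∀ t, 0 ≤ PA t) (nKD : ∀ t, 0 ≤ KD t) (nKA : ∀ t, 0 ≤ KA t)
    (hK0 : 0 ≤ K0) (heK : 0 ≤ eK) (hsd : 0 ≤ sd) (hiN : 0 ≤ iN) (hX2 : 0 ≤ X2) (hcG : 0 ≤ cG)
    (sP : ∑ t ∈ range T, (PD t + PA t) ≤ Pd) (sK : ∑ t ∈ range T, (KD t + KA t) ≤ G9)
    (sC : ∑ t ∈ range T, CS t ≤ G9) (sM : ∑ t ∈ range T, M2 t ≤ M9)
    (sB : ∑ t ∈ range T, (BD t + BA t) ≤ 8 * Pd) (sR : ∑ t ∈ range T, (R0 t + R1 t) ≤ PR) :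
    ∑ t ∈ range T, (kD t + lA t + kA t) + ∑ t ∈ range T, cA t ≤
      (100 * (K0 + 1) + 48) * Pd + (cG + 100 * eK + 2 * iN) * G9 + 100 * sd * M9 + X2 * PR := by
  have one : ∀ t ∈ range T, (kD t + lA t + kA t) + cA t ≤
      100 * (K0 + 1) * (PD t + PA t) + (cG + 100 * eK + iN) * (KD t + KA t) + iN * CS t + 100 * sd * M2 t +
        6 * (BD t + BA t) + X2 * (R0 t + R1 t) := by
    intro t ht
    have htT := Finset.mem_range.1 ht
    have a1 := hkD t htT
    have a2 := hkA t htT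
    have a3 := hlA t htT
    have a4 := hcA t htT
    have b1 : 100 * PA t ≤ 100 * (K0 + 1) * PA t := by
      nlinarith [nPA t, mul_nonneg hK0 (nPA t)]
    have b2 : 0 ≤ 100 * eK * KA t := mul_nonneg (mul_nonneg (by norm_num) heK) (nKA t)
    have b3 : 0 ≤ iN * KD t := mul_nonneg hiN (nKD t)
    nlinarith
  have h1 := Finset.sum_le_sum one
  rw [Finset.sum_add_distrib] at h1
  refine h1.trans ?_
  rw [Finset.sum_add_distrib, Finset.sum_add_distrib, Finset.sum_add_distrib, Finset.sum_add_distrib,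
    Finset.sum_add_distrib, ← Finset.mul_sum, ← Finset.mul_sum, ← Finset.mul_sum, ← Finset.mul_sum, ← Finset.mul_sum,
    ← Finset.mul_sum]
  have c1 := mul_le_mul_of_nonneg_left sP (show 0 ≤ 100 * (K0 + 1) by linarith)
  have c2 := mul_le_mul_of_nonneg_left sK (show 0 ≤ cG + 100 * eK + iN by linarith)
  have c3 := mul_le_mul_of_nonneg_left sC hiN
  have c4 := mul_le_mul_of_nonneg_left sM (show 0 ≤ 100 * sd by linarith)
  have c5 := mul_le_mul_of_nonneg_left sR hX2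
  nlinarith

section run

variable {X β γ φ : Type} [Fintype X] [Fintype β] [Fintype φ] [Nonempty X] [Nonempty β]
variable {D : HD (Fin 3) X β γ φ} {al : ℝ} {h : D.Thick al}
  {v : ℕ → Finset (Fin 3) → X → (Fin 3 → β) → Pt (Fin 3) X β φ}
variable {dg : ℕ → X → ℝ} {prr : ℕ → Fin 3 → φ → φ} {T : ℕ} {Lam : ℝ}

/-- the potential over the class, lower bound on any event -/
theorem MA_ge {p : Finset (Fin 3) → Prop} [DecidablePred p] (hp : ∀ I J : Finset (Fin 3), I ⊆ J → p J → p I) (h0 : p ∅)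
    (a : ℕ → Pt (Fin 3) X β φ → Prop) (t : ℕ) : -(2 * Real.sqrt (Mt h v h0 t)) ≤ MA h v p pcl a t := by
  have h1 := iR_ev_ge (D.P h t) (p := p) (p' := pcl) hp (LL (Um v (t + 1))) (WW D t) (a t)
  have h2 := Mt_MR h (v := v) (t := t) (p := p) (p' := pcl) hp
    (fun I J hI (hJ : J = ∅) => by rw [hJ] at hI; exact Finset.subset_empty.1 hI) h0 rfl
    (fun J (hJ : J = ∅) => by rw [hJ]; exact h0)
  have h3 : Mt h v (p := pcl) rfl t = 0 := MP_class (LL (Um v (t + 1))) (WW D t) (D.P h t)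
  rw [h3, sub_zero] at h2
  rw [h2] at h1
  exact h1

theorem k3 : Fintype.card (Fin 3) = 3 := Fintype.card_fin 3

theorem prN0 (n N1 : ℝ) : pr3 (Fin 3) n N1 ∅ = 1 := by
  unfold pr3
  rw [if_pos Finset.card_empty]

theorem prN1 (n N1 : ℝ) (i : Fin 3) : pr3 (Fin 3) n N1 {i} = N1 := by
  unfold pr3
  rw [if_neg (by rw [Finset.card_singleton]; norm_num), if_pos (Finset.card_singleton i)]

/-- the squares of the class biases -/
theorem sum_mm (H : D.Hyp dg prr al T Lam) {n N1 : ℝ} (hn : 1 ≤ n) (hN1 : 1 ≤ N1)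
    (R : Run h (pr3 (Fin 3) n N1) (SS1 (Fin 3)) (AdmDep D) v) :
    ∑ t ∈ range T, (D.P h t).E (fun w => mm (UU v) h dg t w ^ 2) ≤ 8 * (n * N1 * Lam) := by
  have hL : 1 ≤ Lam := H.Lam1
  have h1 := (conM h H (v := v) (ne_u k3) (b := fun J => tot D h prr T v J) (fun J _ => le_rfl)).1
  have h2 := tot_le h H (N := pr3 (Fin 3) n N1) (Ntop := n * N1)
    (fun J => lt_of_lt_of_le zero_lt_one (pr3_one hn hN1 J)) (fun l => (pr3_top k3 n N1 l).le)
    (fun t _ => R.nonpos (admDep_ok D) t) (J := ∅) (ne_u k3)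
  rw [prN0, k3, div_one] at h2
  push_cast at h2
  have h3 : 1 ≤ n * N1 := one_le_mul_of_one_le_of_one_le hn hN1
  have h4 : Lam ≤ n * N1 * Lam := le_mul_of_one_le_left (by linarith) h3
  linarith

/-- the private costs -/
theorem sum_cst (H : D.Hyp dg prr al T Lam) {n N1 : ℝ} (hn : 1 ≤ n) (hN1 : 1 ≤ N1)
    (R : Run h (pr3 (Fin 3) n N1) (SS1 (Fin 3)) (AdmDep D) v) :
    ∑ i : Fin 3, ∑ t ∈ range (T + 1), cst h v t {i} ≤ 9 * n * Lam := by
  have h1 := Finset.sum_le_sum fun i (_ : i ∈ (univ : Finset (Fin 3))) => cost_thin k3 H hn hN1 R i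
  rw [Finset.sum_const, Finset.card_univ, k3, nsmul_eq_mul] at h1
  push_cast at h1
  linarith

theorem sum_cst' (H : D.Hyp dg prr al T Lam) {n N1 : ℝ} (hn : 1 ≤ n) (hN1 : 1 ≤ N1)
    (R : Run h (pr3 (Fin 3) n N1) (SS1 (Fin 3)) (AdmDep D) v) :
    ∑ t ∈ range T, ∑ i : Fin 3, cst h v (t + 1) {i} ≤ 9 * n * Lam := by
  refine le_trans ?_ (sum_cst H hn hN1 R)
  rw [Finset.sum_comm]
  refine Finset.sum_le_sum fun i _ => ?_
  rw [Finset.sum_range_succ' _ T]
  have := cst_nonneg h (v := v) 0 ({i} : Finset (Fin 3))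
  linarith

theorem sum_gain (H : D.Hyp dg prr al T Lam) {n N1 : ℝ} (hn : 1 ≤ n) (hN1 : 1 ≤ N1)
    (R : Run h (pr3 (Fin 3) n N1) (SS1 (Fin 3)) (AdmDep D) v) :
    ∑ t ∈ range T, (KV h v (fun u => dg t u.1) t (t + 1) t + KV h v (Vt v (t + 1) ∅) t (t + 1) (t + 1)) ≤
      9 * n * Lam :=
  (gain_sum h H R.codes).trans (sum_cst H hn hN1 R)

/-- all single kills -/
theorem kil_tot (p : AP) {Pd : ℝ} (hPd : (D.P h T).Pr (fun w => ¬ Ar h v p (2 * T) w) ≤ Pd) :
    ∑ t ∈ range T, (kilD h v p t + kilA h v p t) ≤ 4 * Pd := by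
  have h1 := Kil.kil_sum h (v' := v) p T
  have h2 : (D.P h T).Pr (fun w => ¬ PBr h v p (2 * T) w) ≤ (D.P h T).Pr (fun w => ¬ Ar h v p (2 * T) w) :=
    FP.Pr_mono _ fun w _ hw ha => hw ha.1
  have h3 : ∀ i, (D.P h T).Pr (fun w => ¬ TTr h v p (2 * T) i w) ≤ (D.P h T).Pr (fun w => ¬ Ar h v p (2 * T) w) :=
    fun i => FP.Pr_mono _ fun w _ hw ha => hw (ha.2.1 i)
  have h4 := Finset.sum_le_sum fun i (_ : i ∈ (univ : Finset (Fin 3))) => h3 i
  rw [Finset.sum_const, Finset.card_univ, Fintype.card_fin, nsmul_eq_mul] at h4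
  push_cast at h4
  refine h1.trans ?_
  linarith

theorem kilA_nonneg (p : AP) (t : ℕ) : 0 ≤ kilA h v p t :=
  add_nonneg (FP.Pr_nonneg _ _) (Finset.sum_nonneg fun _ _ => FP.Pr_nonneg _ _)

/-- the two ends -/
theorem ends {A B m : ℝ} (hA : A ≤ m + Real.sqrt (2 * m)) (hB : -(2 * Real.sqrt m) ≤ B) (_hm : 0 ≤ m) :
    A - B ≤ m + 4 * Real.sqrt m := by
  have h1 : Real.sqrt (2 * m) ≤ 2 * Real.sqrt m := by
    rw [Real.sqrt_mul (by norm_num)]
    refine mul_le_mul_of_nonneg_right ?_ (Real.sqrt_nonneg _)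
    rw [Real.sqrt_le_left (by norm_num)]
    norm_num
  linarith

end run

end VT

open VT

variable {X β γ φ : Type} [Fintype X] [Fintype β] [Fintype φ] [Nonempty X] [Nonempty β]
variable {D : HD (Fin 3) X β γ φ} {al : ℝ} {h : D.Thick al}
  {v : ℕ → Finset (Fin 3) → X → (Fin 3 → β) → Pt (Fin 3) X β φ}
variable {dg : ℕ → X → ℝ} {prr : ℕ → Fin 3 → φ → φ} {T : ℕ} {Lam : ℝ}

/-- **THE THIN LEVEL OVER THE CLASS** -/
theorem V_total (H : D.Hyp dg prr al T Lam) {n N1 : ℝ} (R : Run h (pr3 (Fin 3) n N1) (SS1 (Fin 3)) (AdmDep D) v) (p : AP)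
    {K0 B eta τ L : ℝ} (hn : NumV n N1 K0 B eta τ L p) {Pd PR : ℝ}
    (hPd : (D.P h T).Pr (fun w => ¬ Ar h v p (2 * T) w) ≤ Pd)
    (hPR : ∑ r ∈ range (2 * T), (Pr' h r).Pr (fun w => Rgr h v p B eta r w) ≤ PR) :
    balA h prr v pth pcl dg T (aV h v p) (aV' h v p) (fun t => gL h v (fun u => dg t u.1) B eta t (t + 1) t 1)
      (fun t => gL h v (fun u => dg t u.1) B eta t (t + 1) t (-1)) ≤ errV n N1 Lam K0 B eta τ p Pd PR := by
  obtain ⟨hn1, hN1, hX, hXN, he, hdl, hdl1, hK0, hKN, hB, h0, h1, ht0, ht1, hL1, hXL, hdL, hLN, hLt⟩ := hn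
  have hv := R.codes
  have hNS : ∀ J ∈ SS1 (Fin 3), 0 ≤ pr3 (Fin 3) n N1 J := fun J _ => zero_le_one.trans (pr3_one hn1 hN1 J)
  have hS0 : (∅ : Finset (Fin 3)) ∈ SS1 (Fin 3) := mem_SS1.2 (ne_u k3)
  have hS1 : ∀ i : Fin 3, {i} ∈ SS1 (Fin 3) := fun i => mem_SS1.2 (one_ne k3 i)
  have hN0' := prN0 n N1
  have hN1' : ∀ i : Fin 3, N1 ≤ pr3 (Fin 3) n N1 {i} := fun i => (prN1 n N1 i).ge
  have hB0 : 0 ≤ B := (Real.exp_pos 2).le.trans hB
  have hB1 : 1 ≤ B := by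
    have := Real.add_one_le_exp (2 : ℝ)
    linarith
  have hLam : 1 ≤ Lam := H.Lam1
  have hX0 : 0 ≤ p.X0 := by linarith
  have hN1p : 0 < N1 := by linarith
  have hn0 : 0 ≤ n := by linarith
  have hdN : Real.exp (-N1) ≤ p.dl := by
    refine (Real.exp_le_exp.2 ?_).trans hdL
    nlinarith [mul_nonneg hN1p.le (mul_nonneg ht0 ht0), mul_le_mul ht1 ht1 ht0 zero_le_one]
  -- the ends
  have hm : 0 ≤ 18 * n * Lam / N1 := by positivity
  have e1 := EndTR.MA_thin_run k3 R H hn1 hN1 (le_refl T) (aV h v p)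
  have e2 : -(2 * Real.sqrt (18 * n * Lam / N1)) ≤ MA h v pth pcl (aV h v p) 0 := by
    refine le_trans ?_ (MA_ge (h := h) (v := v) pth_down pth0 (aV h v p) 0)
    have := Real.sqrt_le_sqrt (endT_thin k3 R H hn1 hN1 (Nat.zero_le T))
    linarith
  have e3 := ends e1 e2 hm
  -- the sums
  have hcG : 0 ≤ 1000 * B ^ 3 * (Real.sqrt τ + eta) + 4 * p.e0 := by
    have := Real.sqrt_nonneg τ
    positivity
  have key := asm (T := T) (kD := killD h v pth pcl (aV h v p) (aV' h v p))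
    (lA := lossA h v pth pcl (aV' h v p)) (kA := killA h prr v pth pcl (aV h v p) (aV' h v p))
    (cA := fun t => corA h dg v pth pcl (aV h v p) t (gL h v (fun u => dg t u.1) B eta t (t + 1) t 1)
      (gL h v (fun u => dg t u.1) B eta t (t + 1) t (-1)))
    (PD := fun t => kilD h v p t) (PA := fun t => kilA h v p t)
    (KD := fun t => KV h v (fun u => dg t u.1) t (t + 1) t)
    (KA := fun t => KV h v (Vt v (t + 1) ∅) t (t + 1) (t + 1))
    (BD := fun t => (D.P h t).Pr (fun w => PBr h v p (2 * t) w ∧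
        Bch h v (fun u => dg t u.1) (TTr h v p (2 * t)) p.e0 t (t + 1) t w))
    (BA := fun t => (D.P h t).Pr (fun w => PBr h v p (2 * t + 1) w ∧
        Bch h v (Vt v (t + 1) ∅) (TTr h v p (2 * t + 1)) p.e0 t (t + 1) (t + 1) w))
    (M2 := fun t => (D.P h t).E (fun w => mm (UU v) h dg t w ^ 2))
    (CS := fun t => ∑ i : Fin 3, cst h v (t + 1) {i})
    (R0 := fun t => (Pr' h (2 * t)).Pr (fun w => Rgr h v p B eta (2 * t) w))
    (R1 := fun t => (Pr' h (2 * t + 1)).Pr (fun w => Rgr h v p B eta (2 * t + 1) w))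
    (K0 := K0) (eK := Real.exp (-(K0 / 2))) (sd := Real.sqrt p.dl) (iN := 100 / N1)
    (cG := 1000 * B ^ 3 * (Real.sqrt τ + eta) + 4 * p.e0) (X2 := 2 * p.X0) (Pd := 4 * Pd) (PR := PR)
    (G9 := 9 * n * Lam) (M9 := 8 * (n * N1 * Lam))
    (fun t ht => killD_V H R hNS hS0 hS1 hN0' hN1' p hX hXN hdl hdl1 hdN hK0 ht)
    (fun t _ => killA_V R hNS hS0 hS1 hN0' hN1' p hX hXN hK0 hKN t)
    (fun t ht => ?_) (fun t ht => ?_)
    (fun t => kilA_nonneg p t) (fun t => KV_nonneg h _ _ _ _)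
    (fun t => KV_nonneg h _ _ _ _) (by linarith) (Real.exp_pos _).le (Real.sqrt_nonneg _) (by positivity)
    (by linarith) hcG
    (kil_tot p hPd) (sum_gain H hn1 hN1 R) (sum_cst' H hn1 hN1 R) (sum_mm H hn1 hN1 R)
    ?_ ?_
  · unfold balA errV
    have e4 : (1000 * B ^ 3 * (Real.sqrt τ + eta) + 4 * p.e0 + 100 * Real.exp (-(K0 / 2)) + 200 / N1) =
      (1000 * B ^ 3 * (Real.sqrt τ + eta) + 4 * p.e0 + 100 * Real.exp (-(K0 / 2)) + 2 * (100 / N1)) := by ring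
    have e5 : 0 ≤ Pd := (FP.Pr_nonneg _ _).trans hPd
    have e6 : (100 * (K0 + 1) + 48) * (4 * Pd) = (400 * (K0 + 1) + 192) * Pd := by ring
    rw [e4]
    linarith
  · -- the loss of the codes
    have a1 := lossV h hv (t := t) (alv_digit h p t) hB h0 h1 ht0 ht1 he
      (fun w hw hp => good_odd H R hNS hS0 hS1 hN0' hN1' p hL1 hXL hdL hLN hLt ht hw hp)
      (fun w hw hp i => dead_odd p hw hp i)
    have a2 : (D.P h t).E (fun w => ind (PBr h v p (2 * t + 1) w ∧ ∀ i, TTr h v p (2 * t + 1) i w) *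
        gL h v (Vt v (t + 1) ∅) B eta t (t + 1) (t + 1) (Vt v (t + 1) ∅ w) w) ≤
        2 * p.X0 * (Pr' h (2 * t + 1)).Pr (fun w => Rgr h v p B eta (2 * t + 1) w) := by
      rw [Pr_odd]
      refine ((D.P h t).E_mono fun w hw => gL_code_le h H hv p hX0 hB1 h0 ht hw).trans (le_of_eq ?_)
      rw [FP.E_smul]
      rfl
    have a3 : lossA h v pth pcl (aV' h v p) t = (D.P h t).E (fun w => ind (PBr h v p (2 * t + 1) w ∧
      ∀ i, TTr h v p (2 * t + 1) i w) * (iR (D.P h t) pth pcl (LL (Um v (t + 1))) (WW D (t + 1)) w -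
        iR (D.P h t) pth pcl (LL (Um v (t + 2))) (WW D (t + 1)) w)) := rfl
    rw [a3]
    linarith
  · -- the digit
    have a1 := digV h H hv ht (alv_state h p t) hB h0 h1 ht0 ht1 he
      (fun w hw hp => good_even R hNS hS0 hS1 hN0' hN1' p hL1 hXL (by linarith) hLt t hw)
      (fun w hw hp i => dead_even p hw hp i)
    have a2 : (D.P h t).E (fun w => ind (aV h v p t w) * if dg t w.1 = 1 then
        gL h v (fun u => dg t u.1) B eta t (t + 1) t 1 w else gL h v (fun u => dg t u.1) B eta t (t + 1) t (-1) w) ≤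
        2 * p.X0 * (Pr' h (2 * t)).Pr (fun w => Rgr h v p B eta (2 * t) w) := by
      rw [Pr_even]
      refine ((D.P h t).E_mono fun w hw => ?_).trans (le_of_eq ((D.P h t).E_smul _ _))
      refine le_trans (le_of_eq ?_) (gL_dig_le h H hv p hX0 hB1 h0 ht hw)
      rcases H.dg_val t w.1 with h2 | h2
      · rw [if_pos h2, h2]
        rfl
      · rw [if_neg (by rw [h2]; norm_num), h2]
        rfl
    exact add_le_add a2 a1
  · refine (bch_sum h H hv p).trans ?_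
    have : (D.P h T).Pr (fun w => ¬ PBr h v p (2 * T) w) ≤ (D.P h T).Pr (fun w => ¬ Ar h v p (2 * T) w) :=
      (D.P h T).Pr_mono fun w _ hw ha => hw ha.1
    have e5 : 0 ≤ Pd := (FP.Pr_nonneg _ _).trans hPd
    linarith
  · exact (sum_evod (fun r => (Pr' h r).Pr (fun w => Rgr h v p B eta r w)) T).symm.le.trans hPR

/-- **TWO VERTICES OVER THE CLASS** -/
theorem VJ_total (H : D.Hyp dg prr al T Lam) {n N1 : ℝ} (R : Run h (pr3 (Fin 3) n N1) (SS1 (Fin 3)) (AdmDep D) v) (p : AP)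
    {K0 B eta τ L : ℝ} (hn : NumV n N1 K0 B eta τ L p) {Pd PR : ℝ}
    (hPd : (D.P h T).Pr (fun w => ¬ Ar h v p (2 * T) w) ≤ Pd)
    (hPR : ∑ r ∈ range (2 * T), (Pr' h r).Pr (fun w => Rgr h v p B eta r w) ≤ PR)
    {i k j : Fin 3} (hik : i ≠ k) (hij : i ≠ j) (hkj : k ≠ j) :
    balA h prr v (pj j) pcl dg T (aJ h v p i k) (aJ' h v p i k)
      (fun t => gJ h v i k (fun u => dg t u.1) B eta t (t + 1) t 1)
      (fun t => gJ h v i k (fun u => dg t u.1) B eta t (t + 1) t (-1)) ≤ errV n N1 Lam K0 B eta τ p Pd PR := by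
  obtain ⟨hn1, hN1, hX, hXN, he, hdl, hdl1, hK0, hKN, hB, h0, h1, ht0, ht1, hL1, hXL, hdL, hLN, hLt⟩ := hn
  have hv := R.codes
  have hNS : ∀ J ∈ SS1 (Fin 3), 0 ≤ pr3 (Fin 3) n N1 J := fun J _ => zero_le_one.trans (pr3_one hn1 hN1 J)
  have hS0 : (∅ : Finset (Fin 3)) ∈ SS1 (Fin 3) := mem_SS1.2 (ne_u k3)
  have hS1 : ∀ i : Fin 3, {i} ∈ SS1 (Fin 3) := fun i => mem_SS1.2 (one_ne k3 i)
  have hN0' := prN0 n N1
  have hN1' : ∀ i : Fin 3, N1 ≤ pr3 (Fin 3) n N1 {i} := fun i => (prN1 n N1 i).ge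
  have hB0 : 0 ≤ B := (Real.exp_pos 2).le.trans hB
  have hB1 : 1 ≤ B := by
    have := Real.add_one_le_exp (2 : ℝ)
    linarith
  have hLam : 1 ≤ Lam := H.Lam1
  have hX0 : 0 ≤ p.X0 := by linarith
  have hN1p : 0 < N1 := by linarith
  have hn0 : 0 ≤ n := by linarith
  have hdN : Real.exp (-N1) ≤ p.dl := by
    refine (Real.exp_le_exp.2 ?_).trans hdL
    nlinarith [mul_nonneg hN1p.le (mul_nonneg ht0 ht0), mul_le_mul ht1 ht1 ht0 zero_le_one]
  -- the ends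
  have hm : 0 ≤ 18 * n * Lam / N1 := by positivity
  have e1 := EndTR.MA_pj_run k3 R H hn1 hN1 (le_refl T) j (aJ h v p i k)
  have e2 : -(2 * Real.sqrt (18 * n * Lam / N1)) ≤ MA h v (pj j) pcl (aJ h v p i k) 0 := by
    refine le_trans ?_ (MA_ge (h := h) (v := v) (pj_down j) (pj0 k3 j) (aJ h v p i k) 0)
    have := Real.sqrt_le_sqrt (endT_pj k3 R H hn1 hN1 (Nat.zero_le T) j)
    linarith
  have e3 := ends e1 e2 hm
  -- the sums
  have hcG : 0 ≤ 1000 * B ^ 3 * (Real.sqrt τ + eta) + 4 * p.e0 := by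
    have := Real.sqrt_nonneg τ
    positivity
  have key := asm (T := T) (kD := killD h v (pj j) pcl (aJ h v p i k) (aJ' h v p i k))
    (lA := lossA h v (pj j) pcl (aJ' h v p i k)) (kA := killA h prr v (pj j) pcl (aJ h v p i k) (aJ' h v p i k))
    (cA := fun t => corA h dg v (pj j) pcl (aJ h v p i k) t (gJ h v i k (fun u => dg t u.1) B eta t (t + 1) t 1)
      (gJ h v i k (fun u => dg t u.1) B eta t (t + 1) t (-1)))
    (PD := fun t => kilD h v p t) (PA := fun t => kilA h v p t)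
    (KD := fun t => KV h v (fun u => dg t u.1) t (t + 1) t)
    (KA := fun t => KV h v (Vt v (t + 1) ∅) t (t + 1) (t + 1))
    (BD := fun t => (D.P h t).Pr (fun w => PBr h v p (2 * t) w ∧
        Bch h v (fun u => dg t u.1) (TTr h v p (2 * t)) p.e0 t (t + 1) t w))
    (BA := fun t => (D.P h t).Pr (fun w => PBr h v p (2 * t + 1) w ∧
        Bch h v (Vt v (t + 1) ∅) (TTr h v p (2 * t + 1)) p.e0 t (t + 1) (t + 1) w))
    (M2 := fun t => (D.P h t).E (fun w => mm (UU v) h dg t w ^ 2))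
    (CS := fun t => ∑ i : Fin 3, cst h v (t + 1) {i})
    (R0 := fun t => (Pr' h (2 * t)).Pr (fun w => Rgr h v p B eta (2 * t) w))
    (R1 := fun t => (Pr' h (2 * t + 1)).Pr (fun w => Rgr h v p B eta (2 * t + 1) w))
    (K0 := K0) (eK := Real.exp (-(K0 / 2))) (sd := Real.sqrt p.dl) (iN := 100 / N1)
    (cG := 1000 * B ^ 3 * (Real.sqrt τ + eta) + 4 * p.e0) (X2 := 2 * p.X0) (Pd := 4 * Pd) (PR := PR)
    (G9 := 9 * n * Lam) (M9 := 8 * (n * N1 * Lam))
    (fun t ht => killD_J H R hNS hS0 hS1 hN0' hN1' p hX hXN hdl hdl1 hdN hK0 ht hik hij hkj)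
    (fun t _ => killA_J R hNS hS0 hS1 hN0' hN1' p hXN hK0 hKN t hik hij hkj)
    (fun t ht => ?_) (fun t ht => ?_)
    (fun t => kilA_nonneg p t) (fun t => KV_nonneg h _ _ _ _)
    (fun t => KV_nonneg h _ _ _ _) (by linarith) (Real.exp_pos _).le (Real.sqrt_nonneg _) (by positivity)
    (by linarith) hcG
    (kil_tot p hPd) (sum_gain H hn1 hN1 R) (sum_cst' H hn1 hN1 R) (sum_mm H hn1 hN1 R)
    ?_ ?_
  · unfold balA errV
    have e4 : (1000 * B ^ 3 * (Real.sqrt τ + eta) + 4 * p.e0 + 100 * Real.exp (-(K0 / 2)) + 200 / N1) =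
      (1000 * B ^ 3 * (Real.sqrt τ + eta) + 4 * p.e0 + 100 * Real.exp (-(K0 / 2)) + 2 * (100 / N1)) := by ring
    have e5 : 0 ≤ Pd := (FP.Pr_nonneg _ _).trans hPd
    have e6 : (100 * (K0 + 1) + 48) * (4 * Pd) = (400 * (K0 + 1) + 192) * Pd := by ring
    rw [e4]
    linarith
  · -- the loss of the codes
    have a1 := lossVj h hv (t := t) hik hij hkj (alv_digit h p t) hB h0 h1 ht0 ht1 he
      (fun w hw hp => good_odd H R hNS hS0 hS1 hN0' hN1' p hL1 hXL hdL hLN hLt ht hw hp)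
      (fun w hw hp i => dead_odd p hw hp i)
    have a2 : (D.P h t).E (fun w => ind (PBr h v p (2 * t + 1) w ∧ TTr h v p (2 * t + 1) i w ∧ TTr h v p (2 * t + 1) k w) *
        gJ h v i k (Vt v (t + 1) ∅) B eta t (t + 1) (t + 1) (Vt v (t + 1) ∅ w) w) ≤
        2 * p.X0 * (Pr' h (2 * t + 1)).Pr (fun w => Rgr h v p B eta (2 * t + 1) w) := by
      rw [Pr_odd]
      refine ((D.P h t).E_mono fun w hw => gJ_code_le h H hv p hX0 hB1 h0 ht hik hw).trans (le_of_eq ?_)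
      rw [FP.E_smul]
      rfl
    have a3 : lossA h v (pj j) pcl (aJ' h v p i k) t = (D.P h t).E (fun w => ind (PBr h v p (2 * t + 1) w ∧
      TTr h v p (2 * t + 1) i w ∧ TTr h v p (2 * t + 1) k w) * (iR (D.P h t) (pj j) pcl (LL (Um v (t + 1))) (WW D (t + 1)) w -
        iR (D.P h t) (pj j) pcl (LL (Um v (t + 2))) (WW D (t + 1)) w)) := rfl
    rw [a3]
    linarith
  · -- the digit
    have a1 := digVj h H hv ht hik hij hkj (alv_state h p t) hB h0 h1 ht0 ht1 he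
      (fun w hw hp => good_even R hNS hS0 hS1 hN0' hN1' p hL1 hXL (by linarith) hLt t hw)
      (fun w hw hp i => dead_even p hw hp i)
    have a2 : (D.P h t).E (fun w => ind (aJ h v p i k t w) * if dg t w.1 = 1 then
        gJ h v i k (fun u => dg t u.1) B eta t (t + 1) t 1 w else gJ h v i k (fun u => dg t u.1) B eta t (t + 1) t (-1) w) ≤
        2 * p.X0 * (Pr' h (2 * t)).Pr (fun w => Rgr h v p B eta (2 * t) w) := by
      rw [Pr_even]
      refine ((D.P h t).E_mono fun w hw => ?_).trans (le_of_eq ((D.P h t).E_smul _ _))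
      refine le_trans (le_of_eq ?_) (gJ_dig_le h H hv p hX0 hB1 h0 ht hik hw)
      rcases H.dg_val t w.1 with h2 | h2
      · rw [if_pos h2, h2]
        rfl
      · rw [if_neg (by rw [h2]; norm_num), h2]
        rfl
    exact add_le_add a2 a1
  · refine (bch_sum h H hv p).trans ?_
    have : (D.P h T).Pr (fun w => ¬ PBr h v p (2 * T) w) ≤ (D.P h T).Pr (fun w => ¬ Ar h v p (2 * T) w) :=
      (D.P h T).Pr_mono fun w _ hw ha => hw ha.1
    have e5 : 0 ≤ Pd := (FP.Pr_nonneg _ _).trans hPd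
    linarith
  · exact (sum_evod (fun r => (Pr' h r).Pr (fun w => Rgr h v p B eta r w)) T).symm.le.trans hPR

end Pool.Agent.GMH.V3
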