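import Pool.Agent.GMH.RarC3
import Pool.Agent.GMH.VTot

/-!
# GMH/RarC4 (helper30): LIGHT VALUES OF THE CLASS OF THE EXACT VERTEX, NUMBERS (row C5)

* `sum_uu` : squares of the biases of the digit in the class of the exact vertex: `≤ 32 n N1 Lam`;
* **`sum_hvX`** : `∑ Pr (not hvX) ≤ 128 exp (-lam) n N1 Lam`;
* `two_hv` : heavy values of a coarse class which are light in a fine class;
* **`sum_gX`** : `∑ Pr (heavy public value, not gX) ≤ 15 exp (-lam) n N1 Lam`;
* `Cst_of`, **`ELr_le`** : the constants `ep = 1/n`, `k = n^2` and the sum of the prices.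
-/

set_option autoImplicit false
set_option linter.unusedSectionVars false

namespace Pool.Agent.GMH.RarC

open Finset Pool.Agent.PWZ Pool.Agent.M3 Pool.Agent.GM Pool.Agent.GM.Harm Pool.Agent.GMH
open Pool.Agent.GMH.TP Pool.Agent.GMH.TD Pool.Agent.GMH.Dy Pool.Agent.GMH.MVI Pool.Agent.GMH.MVIp
open Pool.Agent.GMH.RarX Pool.Agent.GMH.GamR Pool.Agent.GMH.KF

noncomputable section

/-! ### heavy values of a coarse class -/

section hv

variable {Ω ι κ κ' : Type*} [Fintype Ω] (P : FP Ω)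

/-- light values, the equality allowed -/
theorem Pr_half (N : Ω → κ) (N' : Ω → κ') (hN : Fac N' N) :
    P.Pr (fun w => 2 * P.m N' w ≤ P.m N w) ≤ P.Hc N' N / Real.log 2 := by
  have hl : 0 < Real.log 2 := Real.log_pos (by norm_num)
  rw [le_div_iff₀ hl]
  have e : P.Hc N' N = P.E (fun w => Real.log (P.m N w / P.m N' w)) := by
    rw [Hc_eq_E_log]
    refine P.E_congr fun w _ => ?_
    rw [P.m_congr (X := fun v => (N' v, N v)) (Y := N') (Fac.fst _ _) ((Fac.refl N').prod hN) w]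
  rw [e]
  show P.E (fun w => ind (2 * P.m N' w ≤ P.m N w)) * Real.log 2 ≤ _
  rw [mul_comm, ← P.E_smul]
  refine P.E_mono fun w hw => ?_
  have p1 := P.m_pos N' hw
  have p2 := P.m_anti hN w
  have h0 : 0 ≤ Real.log (P.m N w / P.m N' w) := Real.log_nonneg ((one_le_div p1).2 p2)
  by_cases h1 : 2 * P.m N' w ≤ P.m N w
  · rw [ind_of h1, mul_one]
    exact Real.log_le_log (by norm_num) ((le_div_iff₀ p1).2 h1)
  · rw [ind_not h1, mul_zero]
    exact h0

theorem ce_one {Y : Ω → ι} {w : Ω} (hw : P.p w ≠ 0) {A B : Ω → Prop} (h : ∀ u, P.p u ≠ 0 → Y u = Y w → A u ∨ B u) :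
    1 ≤ P.ce Y (fun u => ind (A u)) w + P.ce Y (fun u => ind (B u)) w := by
  rw [← P.ce_add, ← P.ce_const Y (1 : ℝ) hw]
  refine ce_sup_le P fun u hu hz => ?_
  rcases h u hu hz with h1 | h1
  · rw [ind_of h1]
    linarith [ind_nonneg (B u)]
  · rw [ind_of h1]
    linarith [ind_nonneg (A u)]

/-- **heavy values of the class `Z` which are light in the class `Y`** -/
theorem two_hv {Y : Ω → ι} {F : Ω → κ'} {Z : Ω → κ} {G : Ω → ι × κ'} (hYZ : Fac Y Z) (hFZ : Fac F Z)
    (hG : ∀ u u', G u = G u' ↔ (Y u = Y u' ∧ F u = F u')) {e : ℝ} (he0 : 0 ≤ e) (he : e ≤ 1 / 8) {w : Ω} (hw : P.p w ≠ 0) :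
    P.ce Y (fun u => ind (P.m Z u ≤ 2 * P.m F u ∧ P.m G u < e * P.m Y u)) w ≤
      3 * e * P.ce Y (fun u => ind (2 * P.m F u ≤ P.m Z u)) w := by
  classical
  set S : Ω → Prop := fun u => P.m Z u ≤ 2 * P.m F u ∧ P.m G u < e * P.m Y u with hS
  have pY := P.m_pos Y hw
  have pZ := P.m_pos Z hw
  -- masses of a value
  have hval : ∀ u1, Y u1 = Y w → P.ce Y (fun u => ind (F u = F u1)) w = P.m G u1 / P.m Y w := by
    intro u1 h1
    rw [ce_ind]
    congr 1
    refine P.E_congr fun u _ => congrArg ind (propext ?_)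
    rw [hG u u1, h1]
  have hlt : ∀ u1, P.p u1 ≠ 0 → Y u1 = Y w → S u1 → P.ce Y (fun u => ind (F u = F u1)) w ≤ e := by
    intro u1 _ h1 h2
    rw [hval u1 h1, div_le_iff₀ pY]
    have h3 : P.m Y u1 = P.m Y w := by unfold FP.m; rw [h1]
    have h4 := h2.2
    rw [h3] at h4
    exact h4.le
  -- two values in one class
  have hsum : ∀ u u1, Z u = Z w → Z u1 = Z w → F u ≠ F u1 → P.m F u + P.m F u1 ≤ P.m Z w := by
    intro u u1 h1 h2 hne
    unfold FP.m
    rw [← P.E_add]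
    refine P.E_mono fun x _ => ?_
    by_cases g1 : F x = F u
    · have g2 : F x ≠ F u1 := fun hh => hne (g1.symm.trans hh)
      rw [ind_of g1, ind_not g2, ind_of ((hFZ x u g1).trans h1)]
      norm_num
    · by_cases g2 : F x = F u1
      · rw [ind_not g1, ind_of g2, ind_of ((hFZ x u1 g2).trans h2)]
        norm_num
      · rw [ind_not g1, ind_not g2, add_zero]
        exact ind_nonneg _
  have hsum3 : ∀ u u1 u2, Z u = Z w → Z u1 = Z w → Z u2 = Z w → F u ≠ F u1 → F u ≠ F u2 → F u1 ≠ F u2 →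
      P.m F u + P.m F u1 + P.m F u2 ≤ P.m Z w := by
    intro u u1 u2 h1 h2 h3 n1 n2 n3
    unfold FP.m
    rw [← P.E_add, ← P.E_add]
    refine P.E_mono fun x _ => ?_
    by_cases g1 : F x = F u
    · have g2 : F x ≠ F u1 := fun hh => n1 (g1.symm.trans hh)
      have g3 : F x ≠ F u2 := fun hh => n2 (g1.symm.trans hh)
      rw [ind_of g1, ind_not g2, ind_not g3, ind_of ((hFZ x u g1).trans h1)]
      norm_num
    · by_cases g2 : F x = F u1
      · have g3 : F x ≠ F u2 := fun hh => n3 (g2.symm.trans hh)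
        rw [ind_not g1, ind_of g2, ind_not g3, ind_of ((hFZ x u1 g2).trans h2)]
        norm_num
      · by_cases g3 : F x = F u2
        · rw [ind_not g1, ind_not g2, ind_of g3, ind_of ((hFZ x u2 g3).trans h3)]
          norm_num
        · rw [ind_not g1, ind_not g2, ind_not g3, add_zero, add_zero]
          exact ind_nonneg _
  have hZ : ∀ u, Z u = Z w → P.m Z u = P.m Z w := fun u hu => by unfold FP.m; rw [hu]
  by_cases hex : ∃ u1, P.p u1 ≠ 0 ∧ Y u1 = Y w ∧ S u1
  · obtain ⟨u1, hu1, hy1, hs1⟩ := hex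
    have hz1 : Z u1 = Z w := hYZ u1 w hy1
    have c1 := hlt u1 hu1 hy1 hs1
    -- the light values
    have hL : 7 / 8 ≤ P.ce Y (fun u => ind (2 * P.m F u ≤ P.m Z u)) w := by
      have h1 := ce_one P (Y := Y) hw (A := fun u => F u = F u1) (B := fun u => 2 * P.m F u ≤ P.m Z u) (fun u hu hy => by
        by_cases h2 : F u = F u1
        · exact Or.inl h2
        · right
          have h3 : Z u = Z w := hYZ u w hy
          have h4 := hsum u u1 h3 hz1 h2
          have h5 := hs1.1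
          rw [hZ u1 hz1] at h5
          rw [hZ u h3]
          linarith)
      linarith
    have h21 : P.ce Y (fun u => ind (S u)) w ≤ 2 * e := by
      by_cases hex2 : ∃ u2, P.p u2 ≠ 0 ∧ Y u2 = Y w ∧ S u2 ∧ F u2 ≠ F u1
      · obtain ⟨u2, hu2, hy2, hs2, hne⟩ := hex2
        have hz2 : Z u2 = Z w := hYZ u2 w hy2
        have c2 := hlt u2 hu2 hy2 hs2
        have h3 : P.ce Y (fun u => ind (S u)) w ≤
            P.ce Y (fun u => ind (F u = F u1) + ind (F u = F u2)) w := by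
          refine ce_sup_le P fun u hu hy => ?_
          by_cases hs : S u
          · have h4 : F u = F u1 ∨ F u = F u2 := by
              by_contra hno
              push Not at hno
              have h5 : Z u = Z w := hYZ u w hy
              have h6 := hsum3 u u1 u2 h5 hz1 hz2 hno.1 hno.2 (fun hh => hne hh.symm)
              have a1 := hs.1
              have a2 := hs1.1
              have a3 := hs2.1
              rw [hZ u h5] at a1
              rw [hZ u1 hz1] at a2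
              rw [hZ u2 hz2] at a3
              linarith
            rw [ind_of hs]
            rcases h4 with h5 | h5
            · rw [ind_of h5]
              linarith [ind_nonneg (F u = F u2)]
            · rw [ind_of h5]
              linarith [ind_nonneg (F u = F u1)]
          · rw [ind_not hs]
            linarith [ind_nonneg (F u = F u2), ind_nonneg (F u = F u1)]
        rw [P.ce_add] at h3
        linarith
      · push Not at hex2
        have h3 : P.ce Y (fun u => ind (S u)) w ≤ P.ce Y (fun u => ind (F u = F u1)) w :=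
          ce_sup_le P fun u hu hy => ind_mono fun hs => hex2 u hu hy hs
        linarith
    have h5 := mul_le_mul_of_nonneg_left hL (show 0 ≤ 3 * e by linarith)
    show P.ce Y (fun u => ind (S u)) w ≤ _
    linarith
  · have h1 : P.ce Y (fun u => ind (S u)) w = 0 := by
      rw [ce_sup P (g := fun _ => 0) fun u hu hz => ind_not fun hb => hex ⟨u, hu, hz, hb⟩, P.ce_const _ _ hw]
    show P.ce Y (fun u => ind (S u)) w ≤ _
    rw [h1]
    have h2 : 0 ≤ P.ce Y (fun u => ind (2 * P.m F u ≤ P.m Z u)) w := P.ce_nonneg (fun _ _ => ind_nonneg _) w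
    positivity

end hv

variable {X β γ φ : Type} [Fintype X] [Fintype β] [Fintype φ] [Nonempty X] [Nonempty β]
variable {D : HD (Fin 3) X β γ φ} {al : ℝ} {h : D.Thick al} {prr : ℕ → Fin 3 → φ → φ} {T : ℕ} {W : Type} [Fintype W]
variable {tb : Tab D prr T W} {v : ℕ → Finset (Fin 3) → X → (Fin 3 → β) → Pt (Fin 3) X β φ}
variable {b c d : Fin 3} {t q s : ℕ}

/-- squares of the biases of the digit in the class of the exact vertex -/
theorem sum_uu {n N1 : ℝ} (hn : 1 ≤ n) (hN1 : 1 ≤ N1) (R : Run h (pr3 (Fin 3) n N1) (SS1 (Fin 3)) (AdmDep D) v)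
    {dg : ℕ → X → ℝ} {Lam : ℝ} (H : D.Hyp dg prr al T Lam) (b : Fin 3) :
    ∑ t ∈ range T, (D.P h t).E (fun w => uu (UU v) h dg {b} t w ^ 2) ≤ 32 * (n * N1 * Lam) := by
  have hL : 1 ≤ Lam := H.Lam1
  have hb : ({b} : Finset (Fin 3)) ∈ SS (Fin 3) := by
    have key : ∀ b : Fin 3, ({b} : Finset (Fin 3)).Nonempty ∧ ({b} : Finset (Fin 3)) ≠ univ := by decide
    exact Finset.mem_filter.2 ⟨mem_univ _, key b⟩
  have hc := conM h H (v := v) (ne_u V3.VT.k3) (b := fun J => tot D h prr T v J) (fun J _ => le_rfl)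
  have h1 := hc.2.1 {b} hb
  have h2 := hc.2.2 {b} hb
  have e0 : ({b} : Finset (Fin 3)).ssubsets = {∅} := by
    have key : ∀ b : Fin 3, ({b} : Finset (Fin 3)).ssubsets = {∅} := by decide
    exact key b
  rw [e0, Finset.sum_singleton] at h2
  have t0 := tot_le h H (N := pr3 (Fin 3) n N1) (Ntop := n * N1)
    (fun J => lt_of_lt_of_le zero_lt_one (pr3_one hn hN1 J)) (fun l => (pr3_top V3.VT.k3 n N1 l).le)
    (fun t _ => R.nonpos (admDep_ok D) t) (J := ∅) (ne_u V3.VT.k3)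
  have t1 := tot_le h H (N := pr3 (Fin 3) n N1) (Ntop := n * N1)
    (fun J => lt_of_lt_of_le zero_lt_one (pr3_one hn hN1 J)) (fun l => (pr3_top V3.VT.k3 n N1 l).le)
    (fun t _ => R.nonpos (admDep_ok D) t) (J := {b}) (Finset.mem_filter.1 hb).2.2
  rw [V3.VT.prN0, V3.VT.k3, div_one] at t0
  rw [V3.VT.prN1, V3.VT.k3] at t1
  push_cast at t0 t1
  have h3 : 1 ≤ n * N1 := one_le_mul_of_one_le_of_one_le hn hN1
  have h4 : Lam ≤ n * N1 * Lam := le_mul_of_one_le_left (by linarith) h3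
  have h5 : 3 * (n * N1 * Lam) / N1 ≤ 3 * (n * N1 * Lam) :=
    div_le_self (by positivity) hN1
  have h6 : ∑ t ∈ range T, (D.P h t).E (fun w => uu (UU v) h dg {b} t w ^ 2) ≤
      ∑ t ∈ range T, (2 * (D.P h t).E (fun w => (uu (UU v) h dg {b} t w - ul (UU v) h dg {b} t w) ^ 2) +
        2 * (D.P h t).E (fun w => ul (UU v) h dg {b} t w ^ 2)) := by
    refine Finset.sum_le_sum fun t _ => ?_
    rw [← FP.E_smul, ← FP.E_smul, ← FP.E_add]
    refine (D.P h t).E_mono fun w _ => ?_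
    nlinarith [sq_nonneg (uu (UU v) h dg {b} t w - 2 * ul (UU v) h dg {b} t w)]
  rw [Finset.sum_add_distrib, ← Finset.mul_sum, ← Finset.mul_sum] at h6
  linarith

/-- **the digits of small conditional probability in the class of the exact vertex** -/
theorem sum_hvX {n N1 : ℝ} (hn : 1 ≤ n) (hN1 : 1 ≤ N1) (R : Run h (pr3 (Fin 3) n N1) (SS1 (Fin 3)) (AdmDep D) v)
    {dg : ℕ → X → ℝ} {Lam : ℝ} (H : D.Hyp dg prr al T Lam) (b : Fin 3) {lam : ℝ} (hlam : Real.exp (-lam) ≤ 1 / 4) :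
    ∑ t ∈ range T, tb.Ps.Pr (fun w => ¬ hvX tb v b dg lam t w) ≤ 128 * Real.exp (-lam) * (n * N1 * Lam) := by
  have he0 := (Real.exp_pos (-lam)).le
  have h1 : ∀ t ∈ range T, tb.Ps.Pr (fun w => ¬ hvX tb v b dg lam t w) ≤
      4 * Real.exp (-lam) * (D.P h t).E (fun w => uu (UU v) h dg {b} t w ^ 2) := by
    intro t ht
    have H0 : Pul tb.Ps (D.P h t) (tb.pt t) := pul_pt h tb (Finset.mem_range.1 ht).le
    have e1 : tb.Ps.Pr (fun w => ¬ hvX tb v b dg lam t w) =
        tb.Ps.E (tb.Ps.ce (XN tb v b (5 * t)) (fun u => ind (¬ hvX tb v b dg lam t u))) := (tb.Ps.E_ce _ _).symm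
    have e2 : ∀ w, tb.Ps.ce (XN tb v b (5 * t)) (fun u => dg t u.1) w = uu (UU v) h dg {b} t (tb.pt t w) := by
      intro w
      have e3 := H0.ce (fun u => (XLq v (5 * t) b u, NPq D v (5 * t) u)) (fun u => dg t u.1) w
      have e4 : tb.Ps.ce (XN tb v b (5 * t)) (fun u => dg t u.1) w =
          (D.P h t).ce (fun u => (XLq v (5 * t) b u, NPq D v (5 * t) u)) (fun u => dg t u.1) (tb.pt t w) := e3
      rw [e4, uu_ce]
      have key : ∀ u u' : Pt (Fin 3) X β φ, (XLq v (5 * t) b u, NPq D v (5 * t) u) = (XLq v (5 * t) b u', NPq D v (5 * t) u') ↔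
          (LL (Um v (t + 1)) {b} u, lo (LL (Um v (t + 1))) {b} u, BB D t {b} u) =
            (LL (Um v (t + 1)) {b} u', lo (LL (Um v (t + 1))) {b} u', BB D t {b} u') := by
        intro u u'
        show ((u.2.1 b, Um v (TP.nc (5 * t) {b}) {b} u.1 u.2.1), (Um v (TP.nc (5 * t) ∅) ∅ u.1 u.2.1,
            (D.qa (TP.nn (5 * t)) u.1, fun j => D.qb (TP.nn (5 * t)) (u.2.1 j)))) =
          ((u'.2.1 b, Um v (TP.nc (5 * t) {b}) {b} u'.1 u'.2.1), (Um v (TP.nc (5 * t) ∅) ∅ u'.1 u'.2.1,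
            (D.qa (TP.nn (5 * t)) u'.1, fun j => D.qb (TP.nn (5 * t)) (u'.2.1 j)))) ↔ _
        rw [nc5, nc5, nn5]
        constructor
        · intro e
          rw [Prod.mk.injEq, Prod.mk.injEq (u.2.1 b), Prod.mk.injEq (Um v (t + 1) ∅ u.1 u.2.1),
            Prod.mk.injEq (D.qa t u.1)] at e
          obtain ⟨⟨g1, g2⟩, g3, g4, g5⟩ := e
          refine Prod.ext (LL_eq.2 ⟨g2, fun l hl => ?_⟩) (Prod.ext (lo_eq.2 fun I hI => ?_) (BB_eq.2 ⟨fun j hj => ?_, g4,
            fun j => congrFun g5 j⟩))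
          · exfalso
            have key : ∀ l b : Fin 3, univ.erase l ≠ ({b} : Finset (Fin 3)) := by decide
            exact key l b hl
          · rw [Finset.ssubset_singleton_iff.1 hI, LL_eq]
            exact ⟨g3, fun l hl => absurd (hl ▸ Finset.Subset.refl _) (not_era l)⟩
          · rw [Finset.mem_singleton.1 hj]
            exact g1
        · intro e
          obtain ⟨e1, e2⟩ := Prod.mk.inj e
          obtain ⟨e3, e4⟩ := Prod.mk.inj e2
          have g1 := (LL_eq.1 e1).1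
          have g2 := (LL_eq.1 (lo_eq.1 e3 ∅ (Finset.ssubset_singleton_iff.2 rfl))).1
          have g3 := BB_eq.1 e4
          exact Prod.ext (Prod.ext (g3.1 b (Finset.mem_singleton_self b)) g1) (Prod.ext g2 (Prod.ext g3.2.1 (funext g3.2.2)))
      exact (D.P h t).ce_congr_map (fun a b' e => (key a b').1 e) (fun a b' e => (key a b').2 e) _ _
    rw [e1, ← H0.E, ← FP.E_smul]
    refine tb.Ps.E_mono fun w hw => ?_
    rw [← e2 w]
    refine le_trans (le_of_eq ?_) (light_cls tb.Ps (Z := XN tb v b (5 * t)) (d := fun u => dg t u.1)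
      (fun u => H.dg_val t u.1) he0 hlam hw)
    refine tb.Ps.ce_congr (fun u _ => ?_) w
    exact congrArg ind (propext not_le)
  refine (Finset.sum_le_sum h1).trans ?_
  rw [← Finset.mul_sum]
  have h2 := mul_le_mul_of_nonneg_left (sum_uu hn hN1 R H b) (show 0 ≤ 4 * Real.exp (-lam) by positivity)
  linarith

/-- **the heavy public values which are light in the class of the exact vertex** -/
theorem sum_gX {n N1 : ℝ} (hn : 1 ≤ n) (hN1 : 1 ≤ N1) (R : Run h (pr3 (Fin 3) n N1) (SS1 (Fin 3)) (AdmDep D) v)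
    {dg : ℕ → X → ℝ} {Lam : ℝ} (H : D.Hyp dg prr al T Lam) (b : Fin 3) {lam : ℝ} (hlam : Real.exp (-lam) ≤ 1 / 8) :
    ∑ t ∈ range T, tb.Ps.Pr (fun w => RarN.hz tb v t w ∧ ¬ gX tb v b lam t w) ≤ 15 * Real.exp (-lam) * (n * N1 * Lam) := by
  have he0 := (Real.exp_pos (-lam)).le
  have hl2 : 0 < Real.log 2 := Real.log_pos (by norm_num)
  have h1 : ∀ t ∈ range T, tb.Ps.Pr (fun w => RarN.hz tb v t w ∧ ¬ gX tb v b lam t w) ≤
      3 * Real.exp (-lam) * (cst h v (t + 1) ∅ / Real.log 2) := by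
    intro t ht
    have ht' : t < T := Finset.mem_range.1 ht
    have e1 : tb.Ps.Pr (fun w => RarN.hz tb v t w ∧ ¬ gX tb v b lam t w) =
        tb.Ps.E (tb.Ps.ce (XN tb v b (5 * t + 1)) (fun u => ind (RarN.hz tb v t u ∧ ¬ gX tb v b lam t u))) :=
      (tb.Ps.E_ce _ _).symm
    have hG : ∀ u u' : Om W X β, XN tb v b (5 * t + 2) u = XN tb v b (5 * t + 2) u' ↔
        (XN tb v b (5 * t + 1) u = XN tb v b (5 * t + 1) u' ∧ NPo tb v (5 * t + 2) u = NPo tb v (5 * t + 2) u') := by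
      intro u u'
      constructor
      · intro e
        exact ⟨XN_mono tb b (by omega) u u' e, congrArg Prod.snd e⟩
      · rintro ⟨g1, g2⟩
        refine Prod.ext ?_ g2
        have g3 : (u.2.2 b, Um v (TP.nc (5 * t + 1) {b}) {b} u.1 u.2.2) =
          (u'.2.2 b, Um v (TP.nc (5 * t + 1) {b}) {b} u'.1 u'.2.2) := congrArg Prod.fst g1
        rw [nc_one b (by norm_num)] at g3
        show (u.2.2 b, Um v (TP.nc (5 * t + 2) {b}) {b} u.1 u.2.2) =
          (u'.2.2 b, Um v (TP.nc (5 * t + 2) {b}) {b} u'.1 u'.2.2)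
        rw [nc_one b (by norm_num)]
        exact g3
    have hGm : ∀ u, tb.Ps.m (fun x => (XN tb v b (5 * t + 1) x, NPo tb v (5 * t + 2) x)) u = tb.Ps.m (XN tb v b (5 * t + 2)) u := by
      intro u
      unfold FP.m
      refine tb.Ps.E_congr fun x _ => congrArg ind (propext ?_)
      rw [Prod.mk.injEq, hG x u]
    have h2 : ∀ w, tb.Ps.p w ≠ 0 → tb.Ps.ce (XN tb v b (5 * t + 1))
        (fun u => ind (RarN.hz tb v t u ∧ ¬ gX tb v b lam t u)) w ≤ 3 * Real.exp (-lam) *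
        tb.Ps.ce (XN tb v b (5 * t + 1)) (fun u => ind (2 * tb.Ps.m (NPo tb v (5 * t + 2)) u ≤
          tb.Ps.m (NPo tb v (5 * t + 1)) u)) w := by
      intro w hw
      have h3 := two_hv tb.Ps (Y := XN tb v b (5 * t + 1)) (F := NPo tb v (5 * t + 2)) (Z := NPo tb v (5 * t + 1))
        (G := fun x => (XN tb v b (5 * t + 1) x, NPo tb v (5 * t + 2) x)) (fun a b' e => congrArg Prod.snd e)
        (NPo_fac tb (5 * t + 1)) (fun u u' => by
          rw [Prod.mk.injEq]) he0 hlam hw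
      refine le_trans (le_of_eq ?_) h3
      refine tb.Ps.ce_congr (fun u _ => ?_) w
      refine congrArg ind (propext ?_)
      unfold RarN.hz gX
      rw [hGm u, not_le]
    have h4 : tb.Ps.E (tb.Ps.ce (XN tb v b (5 * t + 1)) (fun u => ind (RarN.hz tb v t u ∧ ¬ gX tb v b lam t u))) ≤
        tb.Ps.E (fun w => 3 * Real.exp (-lam) * tb.Ps.ce (XN tb v b (5 * t + 1))
          (fun u => ind (2 * tb.Ps.m (NPo tb v (5 * t + 2)) u ≤ tb.Ps.m (NPo tb v (5 * t + 1)) u)) w) :=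
      tb.Ps.E_mono fun w hw => h2 w hw
    rw [tb.Ps.E_smul, tb.Ps.E_ce, tb.Ps.E_ce] at h4
    refine h4.trans (mul_le_mul_of_nonneg_left ?_ (by positivity))
    have h5 := Pr_half tb.Ps (NPo tb v (5 * t + 1)) (NPo tb v (5 * t + 2)) (NPo_fac tb (5 * t + 1))
    have H0 : Pul tb.Ps (D.P h t) (tb.pt t) := pul_pt h tb ht'.le
    have h6 : tb.Ps.Hc (NPo tb v (5 * t + 2)) (NPo tb v (5 * t + 1)) =
        (D.P h t).Hc (NPq D v (5 * t + 1 + 1)) (NPq D v (5 * t + 1)) :=
      MVI.pul_Hc H0 (NPq D v (5 * t + 1 + 1)) (NPq D v (5 * t + 1))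
    rw [h6, CKB.Hc_NPq h t t] at h5
    exact h5
  refine (Finset.sum_le_sum h1).trans ?_
  rw [← Finset.mul_sum, ← Finset.sum_div]
  have h5 := MVI.cost_pub hn hN1 R H
  rw [Finset.sum_range_succ' _ T] at h5
  have h6 := cst_nonneg h (v := v) 0 ∅
  have hL := H.Lam1
  have h7 : 0 ≤ n * N1 * Lam := by positivity
  have h8 : (∑ t ∈ range T, cst h v (t + 1) ∅) / Real.log 2 ≤ 5 * (n * N1 * Lam) := by
    rw [div_le_iff₀ hl2]
    have h9 := Real.log_two_gt_d9
    nlinarith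
  have h10 := mul_le_mul_of_nonneg_left h8 (show 0 ≤ 3 * Real.exp (-lam) by positivity)
  linarith

/-! ### the numbers -/

/-- the constants -/
theorem Cst_of {n M Lam L R0 : ℝ} (hn : 2 ≤ n) (hM : 0 ≤ M) (hR0 : Real.log n ≤ R0) (hR1 : Real.log (1 / al) ≤ R0)
    (hR : R0 ≤ n) (hL0 : 0 ≤ L) (hL : L ≤ n) {k : ℕ} (hk : n ^ 2 ≤ k) : Cst n al M R0 (1 / n) k L where
  hM0 := hM
  hk := by
    have h1 : (0 : ℝ) < k := lt_of_lt_of_le (by positivity) hk
    exact_mod_cast h1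
  hep := by positivity
  hep2 := by
    rw [div_le_div_iff₀ (by linarith) (by norm_num)]
    linarith
  hR0 := by rw [one_div_one_div]; exact hR0
  hR1 := hR1
  hkL := by
    have h1 : n / 2 * (R0 + L / (n / 2)) = n * R0 / 2 + L := by
      have : n ≠ 0 := by linarith
      field_simp
    rw [h1]
    nlinarith

/-- **the sum of the prices** -/
theorem ELr_le {n N1 M Lam L Lo R0 : ℝ} (h : D.Thick al) (hn : 2 ≤ n) (hN1 : 1 ≤ N1) (hM : 0 ≤ M)
    (hal : Real.log (1 / al) ≤ Lam) (hL0 : 0 ≤ L) (hL : L ≤ n) (hLo : 0 ≤ Lo) (hR0 : 0 ≤ R0) {k : ℕ} (hk : n ^ 2 ≤ k)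
    (hk2 : (k : ℝ) ≤ 2 * n ^ 2) {Z : ℝ} (hZ : Real.log ((M + 1) * (1 / al + 1)) ≤ Z) :
    ELr n N1 al M R0 (1 / n) k L Lo ≤ (4 * L + 12 * Lam + 28 + (R0 + 2) ^ 2) / n + (40 * (Lo + 1) + 40 * n * Z) / N1 := by
  have hn0 : 0 < n := by linarith
  have hN0 : 0 < N1 := by linarith
  have hk0 : (0 : ℝ) < k := lt_of_lt_of_le (by positivity) hk
  have ha1 : 1 ≤ 1 / al := by
    rw [le_div_iff₀ h.pos, one_mul]
    exact hal_one h 0
  have l0 : 0 ≤ Real.log (1 / al) := Real.log_nonneg ha1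
  have l1 : 0 ≤ Real.log ((M + 1) * (1 / al)) := Real.log_nonneg (by nlinarith)
  have l2 : Real.log ((M + 1) * (1 / al)) ≤ Z := le_trans (Real.log_le_log (by positivity)
    (mul_le_mul_of_nonneg_left (by linarith) (by linarith))) hZ
  have hZ0 : 0 ≤ Z := l1.trans l2
  have e1 : L / (n / 2) = 2 * L / n := by field_simp
  have hL1 : 2 * L / n ≤ 2 := by rw [div_le_iff₀ hn0]; linarith
  have hL2 : 0 ≤ 2 * L / n := by positivity
  -- the terms
  have t3 : n / 2 * (R0 + L / (n / 2)) ^ 2 / (2 * k) ≤ (R0 + 2) ^ 2 / (4 * n) := by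
    rw [e1, div_le_div_iff₀ (by positivity) (by positivity)]
    have h1 : (R0 + 2 * L / n) ^ 2 ≤ (R0 + 2) ^ 2 := by
      apply pow_le_pow_left₀ (by positivity)
      linarith
    have h2 : n / 2 * (R0 + 2 * L / n) ^ 2 * (4 * n) ≤ n / 2 * (R0 + 2) ^ 2 * (4 * n) := by
      have := mul_le_mul_of_nonneg_left h1 (show 0 ≤ n / 2 * (4 * n) by positivity)
      linarith
    have h3 : n / 2 * (R0 + 2) ^ 2 * (4 * n) = (R0 + 2) ^ 2 * (2 * n ^ 2) := by ring
    have h4 : (R0 + 2) ^ 2 * (2 * n ^ 2) ≤ (R0 + 2) ^ 2 * (2 * k) :=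
      mul_le_mul_of_nonneg_left (by linarith) (by positivity)
    linarith
  have t2 : 2 * ((2 * (Lo + 1) + 2 * (k * Real.log ((M + 1) * (1 / al + 1)))) / N1 + Real.log (1 / al) + 3) / (n / 2) ≤
      4 * (Lam + 3) / n + (8 * (Lo + 1) + 16 * n * Z) / N1 := by
    have h0 : 0 ≤ Real.log ((M + 1) * (1 / al + 1)) := Real.log_nonneg (by nlinarith)
    have h1 : k * Real.log ((M + 1) * (1 / al + 1)) ≤ 2 * n ^ 2 * Z := mul_le_mul hk2 hZ h0 (by positivity)
    have h2 : (2 * (Lo + 1) + 2 * (k * Real.log ((M + 1) * (1 / al + 1)))) / N1 ≤ (2 * (Lo + 1) + 4 * n ^ 2 * Z) / N1 :=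
      div_le_div_of_nonneg_right (by linarith) hN0.le
    have h3 : 2 * ((2 * (Lo + 1) + 2 * (k * Real.log ((M + 1) * (1 / al + 1)))) / N1 + Real.log (1 / al) + 3) / (n / 2) ≤
        2 * ((2 * (Lo + 1) + 4 * n ^ 2 * Z) / N1 + Lam + 3) / (n / 2) :=
      div_le_div_of_nonneg_right (by linarith) (by positivity)
    have h4 : 2 * ((2 * (Lo + 1) + 4 * n ^ 2 * Z) / N1 + Lam + 3) / (n / 2) =
        4 * (Lam + 3) / n + (8 * (Lo + 1) / n + 16 * n * Z) / N1 := by
      field_simp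
      ring
    have h5 : 8 * (Lo + 1) / n ≤ 8 * (Lo + 1) := div_le_self (by positivity) (by linarith)
    have h6 : (8 * (Lo + 1) / n + 16 * n * Z) / N1 ≤ (8 * (Lo + 1) + 16 * n * Z) / N1 :=
      div_le_div_of_nonneg_right (by linarith) hN0.le
    linarith
  have t5 : (2 * (Lo + 1) + 2 * ((N1 + N1) * Real.log (1 / al))) / (n * N1) ≤ 4 * Lam / n + 2 * (Lo + 1) / N1 := by
    have h1 : (2 * (Lo + 1) + 2 * ((N1 + N1) * Real.log (1 / al))) / (n * N1) =
        4 * Real.log (1 / al) / n + 2 * (Lo + 1) / (n * N1) := by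
      field_simp
      ring
    rw [h1]
    have h2 : 4 * Real.log (1 / al) / n ≤ 4 * Lam / n := div_le_div_of_nonneg_right (by linarith) hn0.le
    have h3 : 2 * (Lo + 1) / (n * N1) ≤ 2 * (Lo + 1) / N1 :=
      div_le_div_of_nonneg_left (by positivity) hN0 (by nlinarith)
    linarith
  have t6 : 2 * ((2 * (Lo + 1) + 2 * Real.log ((M + 1) * (1 / al))) / N1) ≤ (4 * (Lo + 1) + 4 * n * Z) / N1 := by
    have h1 : 2 * (2 * (Lo + 1) + 2 * Real.log ((M + 1) * (1 / al))) ≤ 4 * (Lo + 1) + 4 * n * Z := by nlinarith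
    have h2 := div_le_div_of_nonneg_right h1 hN0.le
    have h3 : 2 * ((2 * (Lo + 1) + 2 * Real.log ((M + 1) * (1 / al))) / N1) =
        2 * (2 * (Lo + 1) + 2 * Real.log ((M + 1) * (1 / al))) / N1 := by ring
    rw [h3]
    exact h2
  have e2 : (R0 + 2) ^ 2 / (4 * n) = (R0 + 2) ^ 2 / n / 4 := by field_simp
  rw [e2, e1] at t3
  unfold ELr
  have g1 : (4 * L + 12 * Lam + 28 + (R0 + 2) ^ 2) / n =
      4 * L / n + 12 * Lam / n + 28 / n + (R0 + 2) ^ 2 / n := by ring
  have g2 : 4 * (Lam + 3) / n = 4 * Lam / n + 12 / n := by ring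
  have g3 : (8 * (Lo + 1) + 16 * n * Z) / N1 = 8 * ((Lo + 1) / N1) + 16 * (n * Z / N1) := by ring
  have g4 : (4 * (Lo + 1) + 4 * n * Z) / N1 = 4 * ((Lo + 1) / N1) + 4 * (n * Z / N1) := by ring
  have g5 : (40 * (Lo + 1) + 40 * n * Z) / N1 = 40 * ((Lo + 1) / N1) + 40 * (n * Z / N1) := by ring
  have g6 : 2 * (Lo + 1) / N1 = 2 * ((Lo + 1) / N1) := by ring
  have g7 : 0 ≤ (Lo + 1) / N1 := by positivity
  have g8 : 0 ≤ n * Z / N1 := by positivity
  have g9 : 0 ≤ (R0 + 2) ^ 2 / n := by positivity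
  have g10 : 4 * L / n = 2 * (2 * L / n) := by ring
  have g11 : 2 * (1 / n) = 2 / n := by ring
  have g12 : 28 / n = 28 * (1 / n) := by ring
  have g13 : 12 / n = 12 * (1 / n) := by ring
  have g14 : 0 ≤ 1 / n := by positivity
  rw [g2, g3] at t2
  rw [g6] at t5
  rw [g4] at t6
  rw [e1, g1, g5, g10]
  have g15 : 12 * Lam / n = 3 * (4 * Lam / n) := by ring
  rw [g15, g12]
  rw [g13] at t2
  linarith

end

end Pool.Agent.GMH.RarC
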