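import Pool.Agent.GMH.RarR0B
import Pool.Agent.GMH.RarC4
import Pool.Agent.GMH.ConRn
import Pool.Agent.GMH.ClsC

/-!
# GMH/ConR0: the class mass of `R0` over `Ctx` (helper34)

`L <= 3 lr + 3`, `lr = n x^(-(sq + 20))`; `Lr` = `3 lr + 3`.
* `r0_num` : `2 ELr / e1 ^ 2 ≤ x^(-K)` if `x^(-e) ≤ 2 e1` and `K + 2 e ≤ sq + 9`; `lw_num` : `exp (lr + 4 - L) ≤ x^(-K)`;
* **`r0B_ctx`** : the exact vertex (`RarR0.R0B_of`); **`r0n_ctx`** : the node (`RarR0.r0_n`), `lw = lr + 4`.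
-/

set_option autoImplicit false
set_option linter.unusedSectionVars false

namespace Pool.Agent.GMH.CX

open Finset Pool.Agent.PWZ Pool.Agent.M3 Pool.Agent.GM Pool.Agent.GM.Harm Pool.Agent.GMH Pool.Agent.GMH.NZ
open Pool.Agent.GMH.V3 Pool.Agent.GMH.TP Pool.Agent.GMH.TD Pool.Agent.GMH.Dy Pool.Agent.GMH.CTM Pool.Agent.GMH.KF
open Pool.Agent.GMH.RarC Pool.Agent.GMH.RarR0 Pool.Agent.GMH.MVI Pool.Agent.GMH.MVIp Pool.Agent.GMH.ExK
open Pool.Agent.GMH.CT (ix lr R0r)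

noncomputable section

/-- the length of the condition -/
def Lr (Lam : ℝ) (sq c0 : ℕ) : ℝ := 3 * lr Lam sq c0 + 3

theorem Lr_nn {Lam : ℝ} (hL : 2 ≤ Lam) (sq c0 : ℕ) : 0 ≤ Lr Lam sq c0 := by
  have := CT.lr_pos hL sq c0
  unfold Lr
  linarith

/-- the constants over a run -/
theorem r0_cst {A : ℕ} (hA : 80 ≤ A) (sq : ℕ) : AllC A (fun C => ∀ L, 0 ≤ L → L ≤ Lr C.Lam sq C.c0 →
    Cst C.n C.al (3 * Real.exp C.p.X0) (R0r C.Lam C.c0) (1 / C.n) ⌈C.n ^ 2⌉₊ L ∧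
    ELr C.n C.N1 C.al (3 * Real.exp C.p.X0) (R0r C.Lam C.c0) (1 / C.n) ⌈C.n ^ 2⌉₊ L (C.p.X0 + L) ≤ ix C.Lam (sq + 12)) := by
  obtain ⟨c0m, h0⟩ := Filter.eventually_atTop.1 (CT.rx_num hA sq)
  refine ⟨c0m, fun C hC hc L hL0 hL1 => ?_⟩
  subst hC
  obtain ⟨n2, l3, g1, g2, g3, g4, g5, g6⟩ := h0 C.c0 hc C.Lam C.hL
  have en : C.n = pw C.Lam C.c0 := rfl
  have eN : C.N1 = pw C.Lam (c1F C.A C.c0) := rfl
  have eX : C.p.X0 = pw C.Lam (cXF C.A C.c0) := rfl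
  rw [← en, ← eN, ← eX] at g6
  rw [← en] at n2 g1 g3 g5
  have hX0 : 0 ≤ C.p.X0 := by rw [eX]; exact (CT.pw_pos C.hL _).le
  have hal : Real.log (1 / C.al) ≤ C.Lam := by
    have h1 := C.H.alL
    have h2 : 1 / C.al ≤ Real.exp C.Lam := by
      rw [one_div, ← inv_inv (Real.exp C.Lam), ← Real.exp_neg]
      exact inv_anti₀ (Real.exp_pos _) h1
    have h3 : 0 < 1 / C.al := one_div_pos.2 C.h.pos
    exact (Real.log_le_iff_le_exp h3).2 h2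
  have hLn : L ≤ C.n := by
    unfold Lr at hL1
    linarith
  have hk : C.n ^ 2 ≤ (⌈C.n ^ 2⌉₊ : ℝ) := Nat.le_ceil _
  have hk2 : (⌈C.n ^ 2⌉₊ : ℝ) ≤ 2 * C.n ^ 2 := by
    have h1 := Nat.ceil_lt_add_one (show 0 ≤ C.n ^ 2 by positivity)
    nlinarith
  have hM : 0 ≤ 3 * Real.exp C.p.X0 := by positivity
  refine ⟨Cst_of (Lam := C.Lam) n2 hM g1 (hal.trans g2) g3 hL0 hLn hk, ?_⟩
  have hZ : Real.log ((3 * Real.exp C.p.X0 + 1) * (1 / C.al + 1)) ≤ C.p.X0 + C.Lam + 3 := by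
    have h1 : 1 ≤ Real.exp C.p.X0 := Real.one_le_exp hX0
    have h2 : 1 ≤ Real.exp C.Lam := Real.one_le_exp (by linarith [C.hL])
    have h3 : 1 / C.al ≤ Real.exp C.Lam := by
      have := (Real.log_le_iff_le_exp (one_div_pos.2 C.h.pos)).1 hal
      exact this
    have h4 : 0 < 1 / C.al := one_div_pos.2 C.h.pos
    have h5 : (3 * Real.exp C.p.X0 + 1) * (1 / C.al + 1) ≤ (4 * Real.exp C.p.X0) * (2 * Real.exp C.Lam) :=
      mul_le_mul (by linarith) (by linarith) (by linarith) (by positivity)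
    have h6 : (4 * Real.exp C.p.X0) * (2 * Real.exp C.Lam) ≤ Real.exp (C.p.X0 + C.Lam + 3) := by
      have h7 : Real.exp (C.p.X0 + C.Lam + 3) = Real.exp C.p.X0 * Real.exp C.Lam * Real.exp 3 := by
        rw [Real.exp_add, Real.exp_add]
      have h8 : (8 : ℝ) ≤ Real.exp 3 := by
        have h9 := Real.exp_one_gt_d9
        have h10 : Real.exp 3 = Real.exp 1 * Real.exp 1 * Real.exp 1 := by
          rw [← Real.exp_add, ← Real.exp_add]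
          norm_num
        rw [h10]
        have h11 : (2.7 : ℝ) ≤ Real.exp 1 := by linarith
        have h12 : (2.7 : ℝ) * 2.7 ≤ Real.exp 1 * Real.exp 1 := mul_le_mul h11 h11 (by norm_num) (by linarith)
        have h13 : (2.7 : ℝ) * 2.7 * 2.7 ≤ Real.exp 1 * Real.exp 1 * Real.exp 1 :=
          mul_le_mul h12 h11 (by norm_num) (by positivity)
        linarith
      rw [h7]
      have h9 : 0 < Real.exp C.p.X0 * Real.exp C.Lam := by positivity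
      nlinarith
    exact (Real.log_le_iff_le_exp (by positivity)).2 (h5.trans h6)
  have h1 := ELr_le (n := C.n) (N1 := C.N1) (R0 := R0r C.Lam C.c0) (Lo := C.p.X0 + L) C.h n2 C.N11 hM hal hL0 hLn
    (by linarith) g4 hk hk2 hZ
  refine h1.trans (le_trans (add_le_add ?_ ?_) g6)
  · refine div_le_div_of_nonneg_right ?_ (by linarith)
    unfold Lr at hL1
    linarith
  · refine div_le_div_of_nonneg_right ?_ (by linarith [C.N11])
    unfold Lr at hL1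
    linarith

/-- **the number** -/
theorem r0_num {A : ℕ} (hA : 80 ≤ A) {sq e K : ℕ} (hK : K + 2 * e ≤ sq + 9) : AllC A (fun C => ∀ L, 0 ≤ L →
    L ≤ Lr C.Lam sq C.c0 → ∀ e1, ix C.Lam e ≤ 2 * e1 →
    Cst C.n C.al (3 * Real.exp C.p.X0) (R0r C.Lam C.c0) (1 / C.n) ⌈C.n ^ 2⌉₊ L ∧
    r0L C.n C.N1 C.al C.p.X0 (R0r C.Lam C.c0) (1 / C.n) ⌈C.n ^ 2⌉₊ L e1 ≤ ix C.Lam K) := by
  refine (r0_cst hA sq).mono fun C h L hL0 hL1 e1 he => ?_
  obtain ⟨a, b⟩ := h L hL0 hL1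
  refine ⟨a, ?_⟩
  have hL := C.hL
  have i1 := CT.ix_pos hL e
  have e1p : 0 < e1 := by linarith
  unfold r0L
  rw [div_le_iff₀ (by positivity)]
  have h1 : ix C.Lam (2 * e) ≤ 4 * e1 ^ 2 := by
    rw [two_mul, CT.ix_add]
    have := mul_le_mul he he i1.le (by linarith)
    nlinarith
  have h2 : 8 * ix C.Lam (sq + 12) ≤ ix C.Lam (K + 2 * e) := by
    have h3 : 8 * ix C.Lam (2 + (K + 2 * e)) ≤ ix C.Lam (K + 2 * e) := CT.cst_ix hL (c := 8) (j := 2) (by norm_num)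
    have h4 : ix C.Lam (sq + 12) ≤ ix C.Lam (2 + (K + 2 * e)) := CT.ix_anti hL (by omega)
    linarith
  rw [CT.ix_add C.Lam K (2 * e)] at h2
  have h5 := mul_le_mul_of_nonneg_left h1 (CT.ix_nn hL K)
  linarith

/-- the part of the small classes -/
theorem lw_num (A sq K : ℕ) : Ev (fun c0 Lam => Real.exp (lr Lam sq c0 + 4 - Lr Lam sq c0) ≤ ix Lam K) := by
  obtain ⟨a, ha⟩ := Filter.eventually_atTop.1 (CT.rx_e A sq K (c := 1) (by norm_num))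
  obtain ⟨b, hb⟩ := Filter.eventually_atTop.1 (CT.rx_num (A := 80) le_rfl sq)
  refine ⟨max a b, fun c0 hc Lam hL => ?_⟩
  have h1 := ha c0 ((le_max_left _ _).trans hc) Lam hL
  obtain ⟨-, l3, -⟩ := hb c0 ((le_max_right _ _).trans hc) Lam hL
  have h2 : Real.exp (lr Lam sq c0 + 4 - Lr Lam sq c0) ≤ Real.exp (-(lr Lam sq c0)) := by
    refine Real.exp_le_exp.2 ?_
    unfold Lr
    linarith
  have h3 : 1 ≤ pw Lam c0 * pw Lam (c1F A c0) * Lam := by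
    have h4 := CT.pw_ge1 hL c0
    have h5 := CT.pw_ge1 hL (c1F A c0)
    have h6 : 1 ≤ pw Lam c0 * pw Lam (c1F A c0) := one_le_mul_of_one_le_of_one_le h4 h5
    exact one_le_mul_of_one_le_of_one_le h6 (by linarith)
  have h4 := (Real.exp_pos (-(lr Lam sq c0))).le
  nlinarith

/-- **THE CLASS MASS OF `R0`, exact vertex, over `Ctx`** -/
theorem r0B_ctx {A : ℕ} (hA : 80 ≤ A) {sq e K : ℕ} (hK : K + 2 * e ≤ sq + 9) : AllC A (fun C => ∀ L, 0 ≤ L →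
    L ≤ Lr C.Lam sq C.c0 → ∀ c : KC, ix C.Lam e ≤ 2 * c.e1 → ∀ q ≤ 5 * C.T, ∀ i, ∀ w, C.tb.Ps.p w ≠ 0 →
      gdc C.tb C.v L i q w →
      C.tb.Ps.ce (fun u => (XLo C.tb C.v i q u, NPo C.tb C.v q u))
        (fun u => ind (ck C.h C.v C.tb Option.none c 1 q u ∧ Alv C.h C.v C.tb C.p q u)) w ≤ ix C.Lam K) := by
  refine (r0_num hA hK).mono fun C h L hL0 hL1 c hc q hq i w hw hg => ?_
  obtain ⟨a, b⟩ := h L hL0 hL1 c.e1 hc
  have hX0 : 0 ≤ C.p.X0 := (CT.pw_pos C.hL _).le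
  have he : 0 < c.e1 := by
    have := CT.ix_pos C.hL e
    linarith
  exact (R0B_of C.tb C.n1 C.N11 C.H C.R hX0 a he q hq i w hw hg).trans b

/-- **THE CLASS MASS OF `R0`, node, over `Ctx`** -/
theorem r0n_ctx {A : ℕ} (hA : 80 ≤ A) {sq e K : ℕ} (hK : K + 1 + 2 * e ≤ sq + 9) : AllC A (fun C => ∀ lw,
    lw ≤ lr C.Lam sq C.c0 + 4 → ∀ c : KC, ix C.Lam e ≤ 2 * c.e1 → ∀ q ≤ 5 * C.T, ∀ w, C.tb.Ps.p w ≠ 0 →
      Real.exp (-lw) * C.tb.Ps.m (NPo C.tb C.v (5 * (q / 5))) w ≤ C.tb.Ps.m (NPo C.tb C.v q) w →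
      C.tb.Ps.ce (NPo C.tb C.v q) (fun u => ind (ck C.h C.v C.tb Option.none c 1 q u ∧ Alv C.h C.v C.tb C.p q u)) w ≤
        ix C.Lam K) := by
  refine ((r0_num hA hK).and (AllC.of_Ev (lw_num A sq (K + 1)))).mono fun C h lw hlw c hc q hq w hw hm => ?_
  obtain ⟨h1, h2⟩ := h
  have hL := C.hL
  have hL0 := Lr_nn hL sq C.c0
  obtain ⟨a, b⟩ := h1 _ hL0 le_rfl c.e1 hc
  have hX0 : 0 ≤ C.p.X0 := (CT.pw_pos C.hL _).le
  have he : 0 < c.e1 := by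
    have := CT.ix_pos C.hL e
    linarith
  have h3 := r0_n (t := q / 5) C.tb C.n1 C.N11 C.H C.R rfl (by omega) (fun h0 => by omega) hX0 hw hL0 a hm he
    (o := Option.none) (A := fun u => ck C.h C.v C.tb Option.none c 1 q u ∧ Alv C.h C.v C.tb C.p q u) (fun a ha => ha.2)
    fun a ha hA => by
      have hp := (pul_pt C.h C.tb (show q / 5 ≤ C.T by omega)).ne ha
      have h2 : co (C.D.P C.h (q / 5)) (ZQ C.D C.v q) (FQ C.v (q / 5)) c 1 (C.tb.pt (q / 5) a)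
        (tup (FQ C.v (q / 5)) (C.tb.pt (q / 5) a)) := hA.1
      rw [co_Ap (by omega)] at h2
      exact (Ap1_iff (C.D.P C.h (q / 5)) (FQ C.v (q / 5)) c hp _).1 h2
  refine h3.trans (CT.add_ix hL b (le_trans (Real.exp_le_exp.2 ?_) h2))
  linarith

/-- the share of the bad classes in the public class -/
theorem bad_ctx (A sq K : ℕ) : AllC A (fun C => ∀ lw, lw ≤ lr C.Lam sq C.c0 + 4 → ∀ q i w, C.tb.Ps.p w ≠ 0 →
      Real.exp (-lw) * C.tb.Ps.m (NPo C.tb C.v (5 * (q / 5))) w ≤ C.tb.Ps.m (NPo C.tb C.v q) w →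
      C.tb.Ps.ce (NPo C.tb C.v q) (fun u => ind (¬ gdc C.tb C.v (Lr C.Lam sq C.c0) i q u)) w ≤ ix C.Lam K) := by
  refine (AllC.of_Ev (lw_num A sq K)).mono fun C h lw hlw q i w hw hm => ?_
  refine (bad_n C.tb i hw hm).trans (le_trans (Real.exp_le_exp.2 ?_) h)
  linarith

end

end Pool.Agent.GMH.CX
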