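import Pool.Agent.GMH.ConR0
import Pool.Agent.GMH.ClsH

/-!
# GMH/ConR0G: the class masses over `Ctx` as numbers (helper34)

* `r0G_ctx` : `R0G` at `hf c` for all `L ≤ 3 lr + 3`, `lr = n x^(-(sq + 20))`, `K + 2 eta1 ≤ sq + 9`;
* `eK` : `x^(-K)` for `κ ≤ 1`, `x^(-K) + 4 ^ 5 x^(-q)` for `κ ≥ 2`; **`cls_num`** : `cls_gall` with these numbers
  (`lam ≤ lr` in `okq`, `L ≤ 3 lr + 3` in `gdc`).
-/

set_option autoImplicit false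
set_option linter.unusedSectionVars false

namespace Pool.Agent.GMH.CX

open Finset Pool.Agent.PWZ Pool.Agent.M3 Pool.Agent.GM Pool.Agent.GM.Harm Pool.Agent.GMH Pool.Agent.GMH.NZ
open Pool.Agent.GMH.V3 Pool.Agent.GMH.TP Pool.Agent.GMH.TD Pool.Agent.GMH.Dy Pool.Agent.GMH.MV Pool.Agent.GMH.MVI
open Pool.Agent.GMH.KF Pool.Agent.GMH.ExK Pool.Agent.GMH.CTM Pool.Agent.GMH.CLM Pool.Agent.GMH.RarR0 Pool.Agent.GMH.RarN
open Pool.Agent.GMH.CT (ix lr R0r)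

noncomputable section

/-- **`R0G` over `Ctx`** -/
theorem r0G_ctx {A : ℕ} (hA : 80 ≤ A) (RR : CT.Rounds) {sq K : ℕ} (hK : K + 2 * RR.eta1 ≤ sq + 9) : AllC A (fun C => ∀ c,
    CT.KcB RR C.Lam c → ∀ L, 0 ≤ L → L ≤ Lr C.Lam sq C.c0 → R0G C.v C.h C.tb C.p (hf c) L (ix C.Lam K)) := by
  refine (r0B_ctx hA hK).mono fun C h c hc L hL0 hL1 => ⟨hL0, CT.ix_nn C.hL _, fun q hq i w hw hg => ?_⟩
  refine h L hL0 hL1 (hf c) ?_ q hq i w hw hg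
  show ix C.Lam RR.eta1 ≤ 2 * (c.e1 / 2)
  linarith [hc.l1]

/-- the numbers of the class masses -/
def eK (RR : CT.Rounds) (Lam : ℝ) (K : ℕ) (κ : Fin 10) : ℝ := ix Lam K + if κ.1 ≤ 1 then 0 else 4 ^ 5 * ix Lam (CT.rd RR κ.1).q

theorem eK_one {RR : CT.Rounds} {Lam : ℝ} {K : ℕ} {κ : Fin 10} (h : κ.1 ≤ 1) : eK RR Lam K κ = ix Lam K := by
  unfold eK
  rw [if_pos h, add_zero]

theorem eK_two {RR : CT.Rounds} {Lam : ℝ} {K : ℕ} {κ : Fin 10} (h : 2 ≤ κ.1) :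
    eK RR Lam K κ = ix Lam K + 4 ^ 5 * ix Lam (CT.rd RR κ.1).q := by
  unfold eK
  rw [if_neg (by omega)]

theorem bK_eK {RR : CT.Rounds} {Lam : ℝ} (hL : 2 ≤ Lam) {c : KC} (hc : CT.KcB RR Lam c) (K : ℕ) (κ : Fin 10) :
    bK (ix Lam K) (hf c) κ ≤ eK RR Lam K κ := by
  by_cases h : κ.1 ≤ 1
  · rw [bK_one h, eK_one h]
  · rw [eK_two (by omega)]
    exact bK_two hL hc (by omega)

theorem eK_mono {RR : CT.Rounds} {Lam : ℝ} (hL : 2 ≤ Lam) (K : ℕ) (κ : Fin 10) :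
    ix Lam (K + 2) + (eK RR Lam (K + 2) κ + ix Lam (K + 2)) ≤ eK RR Lam K κ := by
  unfold eK
  have h1 : 4 ^ 2 * ix Lam (2 + K) ≤ ix Lam K := CT.cst_ix hL (c := 4 ^ 2) (j := 2) le_rfl
  rw [show 2 + K = K + 2 by ring] at h1
  have h2 := CT.ix_nn hL (K + 2)
  linarith

/-- **THE CLASS MASSES OVER `Ctx`, NUMBERS** -/
theorem cls_num {A : ℕ} (hA : 80 ≤ A) (ka : ℕ) (RR : CT.Rounds) {sq K : ℕ} (hK : K + 2 + 2 * RR.eta1 ≤ sq + 9) :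
    AllC A (fun C => ∀ c, CT.KcB RR C.Lam c → c.dH ≤ 1 → ∀ (κ : Fin 10) (fr o : Option (Fin 3)), ∀ q ≤ 5 * C.T, ∀ w,
      C.tb.Ps.p w ≠ 0 →
      (∀ i L, 0 ≤ L → L ≤ Lr C.Lam sq C.c0 → (¬ ltL C.v C.tb q w → gdc C.tb C.v L i q w) →
        C.tb.Ps.ce (CN (C.M ka) i q) (fun u => ind (SR C.h C.v C.tb fr C.p c κ o (tauS (C.M ka) i q u) u ∧
        Alv C.h C.v C.tb C.p q u)) w ≤ eK RR C.Lam K κ) ∧
      (∀ i lam, lam ≤ lr C.Lam sq C.c0 → okq C.tb C.v lam q w →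
        C.tb.Ps.ce (NPo C.tb C.v q) (fun u => ind (SR C.h C.v C.tb fr C.p c κ o (tauS (C.M ka) i (MV.nu (C.M ka) q u) u) u ∧
        Alv C.h C.v C.tb C.p q u)) w ≤ eK RR C.Lam K κ) ∧
      (∀ lam, lam ≤ lr C.Lam sq C.c0 → okq C.tb C.v lam q w →
        C.tb.Ps.ce (NPo C.tb C.v q) (fun u => ind (SR C.h C.v C.tb fr C.p c κ o (MV.nu (C.M ka) q u) u ∧
        Alv C.h C.v C.tb C.p q u)) w ≤ eK RR C.Lam K κ) ∧
      (ltL C.v C.tb q w → ∀ i, C.tb.Ps.ce (CN (C.M ka) i (5 * (q / 5) + 5)) (fun u => ind (SR C.h C.v C.tb fr C.p c κ o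
        (tauS (C.M ka) i q u) u ∧ Alv C.h C.v C.tb C.p q u)) w ≤ eK RR C.Lam K κ)) := by
  refine (((cls_gall A ka RR (K + 2)).and (r0G_ctx hA RR (sq := sq) (K := K + 2) hK)).and
    (AllC.of_Ev (lw_num A sq (K + 2)))).mono fun C hh c hc hd κ fr o q hq w hw => ?_
  obtain ⟨⟨h1, h2⟩, h3⟩ := hh
  have hL := C.hL
  have b1 := bK_eK hL hc (K + 2) κ
  have b2 := eK_mono (RR := RR) hL K κ
  have b3 := CT.ix_nn hL (K + 2)
  have hg := fun L h0 h4 => h1 c hc hd L (ix C.Lam (K + 2)) (h2 c hc L h0 h4) κ fr o q hq w hw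
  have he : ∀ lam, lam ≤ lr C.Lam sq C.c0 → Real.exp (lam + 4 - Lr C.Lam sq C.c0) ≤ ix C.Lam (K + 2) := fun lam hl =>
    le_trans (Real.exp_le_exp.2 (by linarith)) h3
  refine ⟨fun i L h0 h4 h5 => ?_, fun i lam h4 h5 => ?_, fun lam h4 h5 => ?_, fun h5 i => ?_⟩
  · have := (hg L h0 h4).1 i h5
    linarith
  · have := (hg _ (Lr_nn hL sq C.c0) le_rfl).2.1 i lam h5
    linarith [he lam h4]
  · have := (hg _ (Lr_nn hL sq C.c0) le_rfl).2.2.1 lam h5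
    linarith [he lam h4]
  · have := (hg _ (Lr_nn hL sq C.c0) le_rfl).2.2.2 h5 i
    linarith

end

end Pool.Agent.GMH.CX
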