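import Pool.Agent.GMH.RarN7

/-!
# GMH/RarN8 (helper88): THE NODE IN THE WORDS OF THE CLOCKS (row C5, node)

* `tauO M o q` : the start of the relation `Rn o (nu q)` (`nu q` or the clock of `v` at `nu q`); `tauO_es`, `tauO_le`, `tauO_lt` :
  seen at the state `q`, not after `q`, in the level of `q` when its public value is light;
* `light` : the digit of the level of `q` is light (`¬ hvy`); `light_sum` : `Σ_{q < 5 T} P (light) ≤ 160 exp (-lam) n N1 Lam`;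
* **`node_us`** : relation `A` with `A ∧ Alv q ↔ B (tables of the start) ∧ Alv q`, any event `C` of the public class at
  `s ∈ {q, q + 1}` : `P (C, y ≤ P (A, Alv q | S ∅ s)) ≤ exp (-L1) P (C) + P (5 (q / 5) < s, light)`;
* **`node_sum`** : the sum over the steps `q < 5 T`, sight `q + 1`; **`node_new`** : the sum over the states `q ≤ 5 T`, sight `q`.
-/

set_option autoImplicit false
set_option linter.unusedSectionVars false

namespace Pool.Agent.GMH.RarN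

open Finset Pool.Agent.PWZ Pool.Agent.M3 Pool.Agent.GM Pool.Agent.GM.Harm Pool.Agent.GMH
open Pool.Agent.GMH.Dy Pool.Agent.GMH.MVI Pool.Agent.GMH.MVIp Pool.Agent.GMH.KF
open Pool.Agent.GMH.UV (US Kd tv Rn)

section om

variable {X β γ φ : Type} [Fintype X] [Fintype β] [Fintype φ] [Nonempty X] [Nonempty β]
variable {D : HD (Fin 3) X β γ φ} {al : ℝ} {h : D.Thick al} {prr : ℕ → Fin 3 → φ → φ} {T : ℕ} {W : Type} [Fintype W]
variable {tb : Tab D prr T W} {v : ℕ → Finset (Fin 3) → X → (Fin 3 → β) → Pt (Fin 3) X β φ}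

/-- **functions of the thin labels of the state** (`sF`, `tv1n`, cells, ..) -/
theorem Sn_Z {q : ℕ} {A : Pt (Fin 3) X β φ → Prop} (hA : Fac (TP.ZQ D v q) A) : Sn tb v q (fun w => A (tb.pt (q / 5) w)) :=
  fun u w _ _ he hh => (iff_of_eq (hA _ _ (Es_Z he))).1 hh

/-- the own laws are not bad, tables of the state `e` (threshold `r`) -/
def nsq (h : D.Thick al) (v : ℕ → Finset (Fin 3) → X → (Fin 3 → β) → Pt (Fin 3) X β φ) (tb : Tab D prr T W) (r : ℝ) (e : ℕ)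
    (w : Om W X β) : Prop :=
  ∀ i, tv1n (D.P h (e / 5)) (TP.ZQ D v e) (TP.ZbQ D v e) (TP.FQ v (e / 5)) i (tb.pt (e / 5) w) < r

theorem Sn_nsq (r : ℝ) (q : ℕ) : Sn tb v q (nsq h v tb r q) := by
  refine Sn_Z (A := fun a => ∀ i, tv1n (D.P h (q / 5)) (TP.ZQ D v q) (TP.ZbQ D v q) (TP.FQ v (q / 5)) i a < r) fun a b e => ?_
  refine forall_congr fun i => ?_
  have h1 := tv1n_fac (D.P h (q / 5)) (TP.FQ v (q / 5)) (Z := TP.ZQ D v q) (Zb := TP.ZbQ D v q)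
    (fun j => TP.ZQ_Zb q j) i a b e
  have h2 : tv1n (D.P h (q / 5)) (TP.ZQ D v q) (TP.ZbQ D v q) (TP.FQ v (q / 5)) i a =
    tv1n (D.P h (q / 5)) (TP.ZQ D v q) (TP.ZbQ D v q) (TP.FQ v (q / 5)) i b := h1
  rw [h2]

/-- the start of the relation of the public tables -/
noncomputable def tauO {Om : Type} [Fintype Om] (M : US Om) (o : Option (Fin 3)) (q : ℕ) (w : Om) : ℕ :=
  match o with
  | Option.none => MV.nu M.toMS q w
  | Option.some i => tv M i (MV.nu M.toMS q w) w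

theorem tauO_le {Om : Type} [Fintype Om] (M : US Om) (o : Option (Fin 3)) (q : ℕ) (w : Om) : tauO M o q w ≤ q := by
  cases o with
  | none => exact MV.nu_le q w
  | some i =>
    have h1 : MV.nu M.toMS q w ≤ q := MV.nu_le q w
    have h2 : tv M i (MV.nu M.toMS q w) w ≤ MV.nu M.toMS q w := CK.stg_le _ _
    exact h2.trans h1

section clk

variable (tb)
variable (hv : Codes D v) {d1 kb d0 k0 p1 z : ℝ} (hd1 : 0 < d1) (hd11 : d1 ≤ 1) (hkb : 0 < kb) (hd0 : 0 < d0)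
  (hd01 : d0 ≤ 1) (hk0 : 0 < k0) (hp1 : 0 < p1) (hz0 : 0 < z)

theorem tauO_es (o : Option (Fin 3)) {q : ℕ} (hT : q ≤ 5 * T + 4) {u w : Om W X β} (hu : tb.Ps.p u ≠ 0) (hw : tb.Ps.p w ≠ 0)
    (he : Es tb v q u w) : tauO (USi tb hv d1 kb d0 k0 p1 z hd1 hd11 hkb hd0 hd01 hk0 hp1 hz0) o q u =
      tauO (USi tb hv d1 kb d0 k0 p1 z hd1 hd11 hkb hd0 hd01 hk0 hp1 hz0) o q w := by
  have hS := seen_i tb hv hd1 hd11 hkb hd0 hd01 hk0 hp1 hz0
  have h1 := hS.nu q u w he.1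
  cases o with
  | none => exact h1
  | some i =>
    set M := USi tb hv d1 kb d0 k0 p1 z hd1 hd11 hkb hd0 hd01 hk0 hp1 hz0 with hM
    show tv M i (MV.nu M.toMS q u) u = tv M i (MV.nu M.toMS q w) w
    rw [h1]
    have h2 : MV.nu M.toMS q w ≤ q := MV.nu_le q w
    have h3 := Es_mono h2 hT hu hw he
    exact MV.tauS_fac (M := MSi tb (v := v) d1 kb d0 k0 p1 z hd1 hd11 hkb hd0 hd01 hk0 hp1 hz0) i _ u w
      (Prod.ext (h3.2.1 i) h3.1)

theorem tauO_lt (o : Option (Fin 3)) {q : ℕ} {u : Om W X β} (hl : ltL v tb q u) :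
    ltL v tb (tauO (USi tb hv d1 kb d0 k0 p1 z hd1 hd11 hkb hd0 hd01 hk0 hp1 hz0) o q u) u ∧
      tauO (USi tb hv d1 kb d0 k0 p1 z hd1 hd11 hkb hd0 hd01 hk0 hp1 hz0) o q u / 5 = q / 5 := by
  have h1 := KDV.ltL_nu (tb := tb) hd1 hd11 hkb hd0 hd01 hk0 hp1 hz0 hl
  cases o with
  | none => exact h1
  | some i =>
    have h2 := KDV.ltL_tauS (tb := tb) hd1 hd11 hkb hd0 hd01 hk0 hp1 hz0 h1.1 i
    exact ⟨h2.1, h2.2.trans h1.2⟩

/-! ### the light digits -/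

theorem sum_div (f : ℕ → ℝ) (T : ℕ) : ∑ q ∈ range (5 * T), f (q / 5) = 5 * ∑ t ∈ range T, f t := by
  induction T with
  | zero => simp
  | succ T ih =>
    rw [show 5 * (T + 1) = 5 * T + 1 + 1 + 1 + 1 + 1 by ring, Finset.sum_range_succ, Finset.sum_range_succ, Finset.sum_range_succ,
      Finset.sum_range_succ, Finset.sum_range_succ, ih, Finset.sum_range_succ]
    have e0 : (5 * T) / 5 = T := by omega
    have e1 : (5 * T + 1) / 5 = T := by omega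
    have e2 : (5 * T + 1 + 1) / 5 = T := by omega
    have e3 : (5 * T + 1 + 1 + 1) / 5 = T := by omega
    have e4 : (5 * T + 1 + 1 + 1 + 1) / 5 = T := by omega
    rw [e0, e1, e2, e3, e4]
    ring

/-- the digit of the level of `q` is light -/
def light (v : ℕ → Finset (Fin 3) → X → (Fin 3 → β) → Pt (Fin 3) X β φ) (dg : ℕ → X → ℝ) (lam : ℝ) (q : ℕ) (w : Om W X β) : Prop :=
  ¬ GamR.hvy tb v dg lam (q / 5) w

theorem light_sum {n N1 : ℝ} (hn : 1 ≤ n) (hN1 : 1 ≤ N1) (R : Run h (pr3 (Fin 3) n N1) (SS1 (Fin 3)) (AdmDep D) v)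
    {dg : ℕ → X → ℝ} {Lam : ℝ} (H : D.Hyp dg prr al T Lam) {lam : ℝ} (hlam : 2 ≤ lam) :
    ∑ q ∈ range (5 * T), tb.Ps.Pr (light tb v dg lam q) ≤ 160 * Real.exp (-lam) * (n * N1 * Lam) := by
  have he : Real.exp (-lam) ≤ 1 / 4 := by
    have h1 : Real.exp (-lam) ≤ Real.exp (-2) := Real.exp_le_exp.2 (by linarith)
    have h2 : Real.exp (-2) ≤ 1 / 4 := by
      have h3 := Real.exp_one_gt_d9
      have h4 : Real.exp 2 = Real.exp 1 * Real.exp 1 := by rw [← Real.exp_add]; norm_num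
      rw [Real.exp_neg, one_div]
      exact inv_anti₀ (by norm_num) (by rw [h4]; nlinarith)
    exact h1.trans h2
  have h1 := GamR.sum_light tb hn hN1 R H he
  have h2 : ∑ q ∈ range (5 * T), tb.Ps.Pr (light tb v dg lam q) =
      5 * ∑ t ∈ range T, tb.Ps.Pr (fun w => ¬ GamR.hvy tb v dg lam t w) :=
    sum_div (fun t => tb.Ps.Pr (fun w => ¬ GamR.hvy tb v dg lam t w)) T
  rw [h2]
  linarith

/-! ### the node -/

section nod

variable {n N1 : ℝ} (hn : 1 ≤ n) (hN1 : 1 ≤ N1) (R : Run h (pr3 (Fin 3) n N1) (SS1 (Fin 3)) (AdmDep D) v)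
  {dg : ℕ → X → ℝ} {Lam : ℝ} (H : D.Hyp dg prr al T Lam)

include hn hN1 R H

/-- **THE NODE IN THE WORDS OF THE CLOCKS** -/
theorem node_us {q s : ℕ} (hqs : q ≤ s) (hs : s ≤ q + 1) (hsT : s ≤ 5 * T)
    {p : V3.AP} (hX0 : 0 ≤ p.X0) {lam L1 eta y : ℝ} (hlam : 0 ≤ lam) (hL1 : 0 ≤ L1) (o : Option (Fin 3))
    {B : ℕ → Om W X β → Prop} (hB : ∀ e ≤ 5 * T, Sn tb v e (B e)) (hBal : ∀ e w, B e w → Alv h v tb p e w)
    {A : Om W X β → Prop} (hA : ∀ w, tb.Ps.p w ≠ 0 → ((A w ∧ Alv h v tb p q w) ↔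
      (At' tb v (tauO (USi tb hv d1 kb d0 k0 p1 z hd1 hd11 hkb hd0 hd01 hk0 hp1 hz0) o q) B w ∧ Alv h v tb p q w)))
    {C : Om W X β → Prop} (hC : Fac (NPo tb v s) C)
    (hCl : q % 5 = 1 → s = q + 1 → ∀ w, tb.Ps.p w ≠ 0 → C w → hz tb v (q / 5) w)
    (hm : ∀ w, tb.Ps.p w ≠ 0 → C w → okq tb v lam q w → tb.Ps.ce (NPo tb v q) (fun u => ind (A u ∧ Alv h v tb p q u)) w ≤ eta)
    (hy : 54 * (L1 + 2 * (lam + 4) + 2 * p.X0 + 5) / N1 + 54 * Lam / n + 2 * eta < y / 8) :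
    tb.Ps.Pr (fun w => C w ∧ y ≤ tb.Ps.ce (sgt D ∅ (TP.nn s)) (fun u => ind (A u ∧ Alv h v tb p q u)) w) ≤
      Real.exp (-L1) * tb.Ps.Pr C + tb.Ps.Pr (fun w => 5 * (q / 5) < s ∧ light tb v dg lam q w) := by
  have e1 : ∀ {κ : Type _} (Z : Om W X β → κ) (w : Om W X β),
      tb.Ps.ce Z (fun u => ind (A u ∧ Alv h v tb p q u)) w = tb.Ps.ce Z (fun u => ind (At' tb v
        (tauO (USi tb hv d1 kb d0 k0 p1 z hd1 hd11 hkb hd0 hd01 hk0 hp1 hz0) o q) B u ∧ Alv h v tb p q u)) w :=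
    fun Z w => GamR.ce_sup tb.Ps fun u hu _ => by rw [propext (hA u hu)]
  have k1 := node_step (h := h) (tb := tb) hn hN1 R H hqs hs hsT hX0 hlam hL1
    (τ := tauO (USi tb hv d1 kb d0 k0 p1 z hd1 hd11 hkb hd0 hd01 hk0 hp1 hz0) o q)
    (fun u w hu hw he => tauO_es tb hv hd1 hd11 hkb hd0 hd01 hk0 hp1 hz0 o (by omega) hu hw he)
    (fun w => tauO_le _ o q w) (fun u hl => tauO_lt tb hv hd1 hd11 hkb hd0 hd01 hk0 hp1 hz0 o hl)
    hB hBal hC hCl (fun w hw hc ho => by rw [← e1]; exact hm w hw hc ho) hy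
  refine le_trans (le_of_eq ?_) k1
  refine congrArg tb.Ps.Pr (funext fun w => ?_)
  rw [e1]

/-- **SUM OVER THE STEPS** : `C q` = any event of the public class at `q + 1` which at `q = 5 t + 1` is inside the heavy public
values; sight at `q + 1`, relation of the tables before the step -/
theorem node_sum {p : V3.AP} (hX0 : 0 ≤ p.X0) {lam L1 eta y : ℝ} (hlam : 2 ≤ lam) (hL1 : 0 ≤ L1) (o : Option (Fin 3))
    {B : ℕ → Om W X β → Prop} (hB : ∀ e ≤ 5 * T, Sn tb v e (B e)) (hBal : ∀ e w, B e w → Alv h v tb p e w)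
    {A C : ℕ → Om W X β → Prop} (hA : ∀ q < 5 * T, ∀ w, tb.Ps.p w ≠ 0 → ((A q w ∧ Alv h v tb p q w) ↔
      (At' tb v (tauO (USi tb hv d1 kb d0 k0 p1 z hd1 hd11 hkb hd0 hd01 hk0 hp1 hz0) o q) B w ∧ Alv h v tb p q w)))
    (hC : ∀ q < 5 * T, Fac (NPo tb v (q + 1)) (C q))
    (hCl : ∀ q < 5 * T, q % 5 = 1 → ∀ w, tb.Ps.p w ≠ 0 → C q w → hz tb v (q / 5) w)
    (hm : ∀ q < 5 * T, ∀ w, tb.Ps.p w ≠ 0 → C q w → okq tb v lam q w → tb.Ps.ce (NPo tb v q) (fun u => ind (A q u ∧ Alv h v tb p q u)) w ≤ eta)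
    (hy : 54 * (L1 + 2 * (lam + 4) + 2 * p.X0 + 5) / N1 + 54 * Lam / n + 2 * eta < y / 8) :
    ∑ q ∈ range (5 * T), tb.Ps.Pr (fun w => C q w ∧
        y ≤ tb.Ps.ce (sgt D ∅ (TP.nn (q + 1))) (fun u => ind (A q u ∧ Alv h v tb p q u)) w) ≤
      Real.exp (-L1) * ∑ q ∈ range (5 * T), tb.Ps.Pr (C q) + 160 * Real.exp (-lam) * (n * N1 * Lam) := by
  have h1 : ∀ q ∈ range (5 * T), tb.Ps.Pr (fun w => C q w ∧
      y ≤ tb.Ps.ce (sgt D ∅ (TP.nn (q + 1))) (fun u => ind (A q u ∧ Alv h v tb p q u)) w) ≤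
      Real.exp (-L1) * tb.Ps.Pr (C q) + tb.Ps.Pr (light tb v dg lam q) := fun q hq => by
    have hq' := mem_range.1 hq
    have h2 := node_us (h := h) (tb := tb) hv hd1 hd11 hkb hd0 hd01 hk0 hp1 hz0 hn hN1 R H (q := q) (s := q + 1) (by omega) le_rfl
      (by omega) hX0 (lam := lam) (by linarith) hL1 o hB hBal (hA q hq') (hC q hq') (fun h3 _ => hCl q hq' h3) (hm q hq') hy
    exact h2.trans (add_le_add le_rfl (tb.Ps.Pr_mono fun w _ hh => hh.2))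
  refine (Finset.sum_le_sum h1).trans ?_
  rw [Finset.sum_add_distrib, ← Finset.mul_sum]
  have h3 := light_sum (tb := tb) hn hN1 R H hlam
  linarith

/-- **SUM OVER THE STARTS** : sight at `q`, relation of the tables of `q`, `C q` = any event of the public class at `q` -/
theorem node_new {p : V3.AP} (hX0 : 0 ≤ p.X0) {lam L1 eta y : ℝ} (hlam : 2 ≤ lam) (hL1 : 0 ≤ L1) (o : Option (Fin 3))
    {B : ℕ → Om W X β → Prop} (hB : ∀ e ≤ 5 * T, Sn tb v e (B e)) (hBal : ∀ e w, B e w → Alv h v tb p e w)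
    {A C : ℕ → Om W X β → Prop} (hA : ∀ q ≤ 5 * T, ∀ w, tb.Ps.p w ≠ 0 → ((A q w ∧ Alv h v tb p q w) ↔
      (At' tb v (tauO (USi tb hv d1 kb d0 k0 p1 z hd1 hd11 hkb hd0 hd01 hk0 hp1 hz0) o q) B w ∧ Alv h v tb p q w)))
    (hC : ∀ q ≤ 5 * T, Fac (NPo tb v q) (C q))
    (hm : ∀ q ≤ 5 * T, ∀ w, tb.Ps.p w ≠ 0 → C q w → okq tb v lam q w → tb.Ps.ce (NPo tb v q) (fun u => ind (A q u ∧ Alv h v tb p q u)) w ≤ eta)
    (hy : 54 * (L1 + 2 * (lam + 4) + 2 * p.X0 + 5) / N1 + 54 * Lam / n + 2 * eta < y / 8) :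
    ∑ q ∈ range (5 * T + 1), tb.Ps.Pr (fun w => C q w ∧
        y ≤ tb.Ps.ce (sgt D ∅ (TP.nn q)) (fun u => ind (A q u ∧ Alv h v tb p q u)) w) ≤
      Real.exp (-L1) * ∑ q ∈ range (5 * T + 1), tb.Ps.Pr (C q) + 160 * Real.exp (-lam) * (n * N1 * Lam) := by
  have h1 : ∀ q ∈ range (5 * T + 1), tb.Ps.Pr (fun w => C q w ∧
      y ≤ tb.Ps.ce (sgt D ∅ (TP.nn q)) (fun u => ind (A q u ∧ Alv h v tb p q u)) w) ≤
      Real.exp (-L1) * tb.Ps.Pr (C q) + tb.Ps.Pr (fun w => 5 * (q / 5) < q ∧ light tb v dg lam q w) := fun q hq => by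
    have hq' : q ≤ 5 * T := Nat.lt_succ_iff.1 (mem_range.1 hq)
    exact node_us (h := h) (tb := tb) hv hd1 hd11 hkb hd0 hd01 hk0 hp1 hz0 hn hN1 R H (q := q) (s := q) le_rfl (by omega)
      hq' hX0 (lam := lam) (by linarith) hL1 o hB hBal (hA q hq') (hC q hq') (fun _ h3 => by omega) (hm q hq') hy
  refine (Finset.sum_le_sum h1).trans ?_
  rw [Finset.sum_add_distrib, ← Finset.mul_sum]
  have h3 := light_sum (tb := tb) hn hN1 R H hlam
  have h4 : ∑ q ∈ range (5 * T + 1), tb.Ps.Pr (fun w => 5 * (q / 5) < q ∧ light tb v dg lam q w) ≤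
      ∑ q ∈ range (5 * T), tb.Ps.Pr (light tb v dg lam q) := by
    rw [Finset.sum_range_succ]
    have h5 : tb.Ps.Pr (fun w => 5 * (5 * T / 5) < 5 * T ∧ light tb v dg lam (5 * T) w) = 0 := by
      unfold FP.Pr
      rw [tb.Ps.E_congr (g := fun _ => 0) fun w _ => ind_not fun hh => by
        have := hh.1
        omega, tb.Ps.E_const]
    rw [h5, add_zero]
    exact Finset.sum_le_sum fun q _ => tb.Ps.Pr_mono fun w _ hh => hh.2
  linarith

end nod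

end clk

end om

end Pool.Agent.GMH.RarN
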