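import Pool.Agent.GMH.RarC4
import Pool.Agent.GMH.RarN8

/-!
# GMH/RarC5 (helper30): THE EXACT VERTEX, EVERY STEP OF THE RUN, IN THE WORDS OF THE CLOCKS (row C5)

* **`exact_step`** : `q ≤ s ≤ q + 1`, relation of the start `τ ≤ q` (tables of `eT τ`) cut by `Alv p q`, event `C` of the class of
  the exact vertex at `s`: `Pr (C, y ≤ density at (hidden point, exact point, cells of nn s)) ≤ exp (-L1) Pr C + light digit +
  light public value of the exact class`; heavy and light levels together;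
* **`exact_us`** : the same for the clock `tv b` of `USi`;
* **`exact_sum`** : sum over the steps `q < 5 T`, sight `q + 1`; **`exact_new`** : sum over the states `q ≤ 5 T`, sight `q`.
-/

set_option autoImplicit false
set_option linter.unusedSectionVars false

namespace Pool.Agent.GMH.RarC

open Finset Pool.Agent.PWZ Pool.Agent.M3 Pool.Agent.GM Pool.Agent.GM.Harm Pool.Agent.GMH
open Pool.Agent.GMH.TP Pool.Agent.GMH.TD Pool.Agent.GMH.Dy Pool.Agent.GMH.MVI Pool.Agent.GMH.MVIp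
open Pool.Agent.GMH.RarX Pool.Agent.GMH.GamR Pool.Agent.GMH.KF
open Pool.Agent.GMH.UV (US Kd tv Rn)
open Pool.Agent.GMH.RarN (Sn At' Es hz eT_fac eT_le ncp hz_fac Sn_cut Sn_Alv)

noncomputable section

variable {X β γ φ : Type} [Fintype X] [Fintype β] [Fintype φ] [Nonempty X] [Nonempty β]
variable {D : HD (Fin 3) X β γ φ} {al : ℝ} {h : D.Thick al} {prr : ℕ → Fin 3 → φ → φ} {T : ℕ} {W : Type} [Fintype W]
variable {tb : Tab D prr T W} {v : ℕ → Finset (Fin 3) → X → (Fin 3 → β) → Pt (Fin 3) X β φ}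
variable {b c d : Fin 3}

/-- densities of relations which agree in a class of the exact vertex -/
theorem ce_clsX (hv : Codes D v) {q s : ℕ} (hqs : q ≤ s) {A A' : Om W X β → Prop} {w : Om W X β}
    (hAA : ∀ u, tb.Ps.p u ≠ 0 → XN tb v b q u = XN tb v b q w → (A u ↔ A' u)) :
    tb.Ps.ce (sgt D {b} (TP.nn s)) (fun u => ind (A u)) w = tb.Ps.ce (sgt D {b} (TP.nn s)) (fun u => ind (A' u)) w :=
  GamR.ce_sup tb.Ps fun u hu he => by
    rw [propext (hAA u hu (XN_mono tb b hqs u w (XN_sgtS tb hv b s u w he)))]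

theorem hvX_fac {dg : ℕ → X → ℝ} {Lam : ℝ} (H : D.Hyp dg prr al T Lam) {t s : ℕ} (ht : t < T) (hs : 5 * t < s) {lam : ℝ}
    {u w : Om W X β} (e : XN tb v b s u = XN tb v b s w) : hvX tb v b dg lam t u ↔ hvX tb v b dg lam t w := by
  have e1 : XN tb v b (5 * t + 1) u = XN tb v b (5 * t + 1) w := XN_mono tb b (by omega) u w e
  have e2 : XN tb v b (5 * t) u = XN tb v b (5 * t) w := XN_mono tb b (by omega) u w e
  have e3 : D.qa (t + 1) u.1 = D.qa (t + 1) w.1 := by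
    have h3 : D.qa (TP.nn (5 * t + 1)) u.1 = D.qa (TP.nn (5 * t + 1)) w.1 := congrArg (fun z => z.2.2.1) e1
    rwa [nn_eq le_rfl (by norm_num : 1 ≤ 4)] at h3
  have e4 : DX tb v b dg t u = DX tb v b dg t w := Prod.ext ((H.dg_cell t ht _ _).1 e3).2 e2
  unfold hvX FP.m
  rw [e2, e4]

theorem gX_fac {t s : ℕ} (hs : 5 * t + 2 ≤ s) {lam : ℝ} {u w : Om W X β} (e : XN tb v b s u = XN tb v b s w) :
    gX tb v b lam t u ↔ gX tb v b lam t w := by
  have e1 : XN tb v b (5 * t + 1) u = XN tb v b (5 * t + 1) w := XN_mono tb b (by omega) u w e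
  have e2 : XN tb v b (5 * t + 2) u = XN tb v b (5 * t + 2) w := XN_mono tb b hs u w e
  unfold gX FP.m
  rw [e1, e2]

/-- the exceptional values of the level of `q` -/
def exX (tb : Tab D prr T W) (v : ℕ → Finset (Fin 3) → X → (Fin 3 → β) → Pt (Fin 3) X β φ) (b : Fin 3) (dg : ℕ → X → ℝ)
    (lam : ℝ) (t : ℕ) (w : Om W X β) : Prop := ¬ hvX tb v b dg lam t w ∨ (hz tb v t w ∧ ¬ gX tb v b lam t w)

/-- **EVERY STEP, EXACT VERTEX** -/
theorem exact_step {n N1 : ℝ} (hn : 1 ≤ n) (hN1 : 1 ≤ N1) (R : Run h (pr3 (Fin 3) n N1) (SS1 (Fin 3)) (AdmDep D) v)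
    {dg : ℕ → X → ℝ} {Lam : ℝ} (H : D.Hyp dg prr al T Lam) (hbc : b ≠ c) (hbd : b ≠ d) (hcd : c ≠ d)
    {q s : ℕ} (hqs : q ≤ s) (hs : s ≤ q + 1) (hsT : s ≤ 5 * T)
    {p : V3.AP} {lam L1 eta y R0 ep : ℝ} {k : ℕ} (hlam : 0 ≤ lam) (hy0 : 0 < y)
    (K : Cst n al (3 * Real.exp p.X0) R0 ep k (L1 + (2 * lam + 3))) {τ : Om W X β → ℕ}
    (hτ : ∀ u w, tb.Ps.p u ≠ 0 → tb.Ps.p w ≠ 0 → Es tb v q u w → τ u = τ w) (hle : ∀ w, τ w ≤ q)
    (hτl : ∀ u, ltL v tb q u → ltL v tb (τ u) u ∧ τ u / 5 = q / 5)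
    {B : ℕ → Om W X β → Prop} (hB : ∀ e ≤ 5 * T, Sn tb v e (B e)) (hBal : ∀ e w, B e w → Alv h v tb p e w)
    {C : Om W X β → Prop} (hC : Fac (XN tb v b s) C)
    (hCl : q % 5 = 1 → s = q + 1 → ∀ w, tb.Ps.p w ≠ 0 → C w → hz tb v (q / 5) w)
    (hCo : q % 5 = 4 → s = q + 1 → ∀ w, tb.Ps.p w ≠ 0 → C w → hz tb v (q / 5) w → oX tb v b (q / 5) w)
    (hm : ∀ w, tb.Ps.p w ≠ 0 → C w → (5 * (q / 5) + 1 < s → hz tb v (q / 5) w) →
      tb.Ps.m (XN tb v b (5 * (q / 5))) w ≤ Real.exp (2 * lam + 3) * tb.Ps.m (XN tb v b q) w →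
      tb.Ps.ce (XN tb v b q) (fun u => ind (At' tb v τ B u ∧ Alv h v tb p q u)) w ≤ eta)
    (hmL : ∀ w, tb.Ps.p w ≠ 0 → C w → 5 * (q / 5) + 1 < s → ¬ hz tb v (q / 5) w →
      tb.Ps.ce (XN tb v b (5 * (q / 5 + 1))) (fun u => ind (At' tb v τ B u ∧ Alv h v tb p q u)) w ≤ eta)
    (hy : 4 * (1025 * ELr n N1 al (3 * Real.exp p.X0) R0 ep k (L1 + (2 * lam + 3)) (p.X0 + (L1 + (2 * lam + 3))) +
      1024 * eta) < y) :
    tb.Ps.Pr (fun w => C w ∧ y ≤ tb.Ps.ce (sgt D {b} (TP.nn s)) (fun u => ind (At' tb v τ B u ∧ Alv h v tb p q u)) w) ≤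
      Real.exp (-L1) * tb.Ps.Pr C + tb.Ps.Pr (fun w => 5 * (q / 5) < s ∧ exX tb v b dg lam (q / 5) w) := by
  classical
  have hv := R.codes
  set t := q / 5 with ht
  have hsT' : s = 5 * t ∧ t ≤ T ∨ t < T := by omega
  have hs5 : s ≤ 5 * t + 5 := by omega
  have hBq : ∀ e ≤ q, Sn tb v q (B e) := fun e he => (hB e (by omega)).mono he (by omega)
  set A : Om W X β → Prop := fun u => At' tb v τ B u ∧ Alv h v tb p q u with hA
  set CH : Om W X β → Prop := fun w => C w ∧ (5 * t < s → hvX tb v b dg lam t w) ∧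
    (5 * t + 1 < s → hz tb v t w ∧ gX tb v b lam t w) with hCH
  set CL : Om W X β → Prop := fun w => C w ∧ 5 * t + 1 < s ∧ ¬ hz tb v t w with hCLd
  set bad : Om W X β → Prop := fun w => y ≤ tb.Ps.ce (sgt D {b} (TP.nn s)) (fun u => ind (A u)) w with hbad
  have hzf : ∀ {r : ℕ} {u w : Om W X β}, 5 * t + 2 ≤ r → XN tb v b r u = XN tb v b r w → (hz tb v t u ↔ hz tb v t w) :=
    fun hr e => hz_fac hr (congrArg Prod.snd e)
  have fCH : Fac (XN tb v b s) CH := by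
    intro u w e
    have e1 := hC u w e
    show (_ ∧ (_ → _) ∧ (_ → _)) = (_ ∧ (_ → _) ∧ (_ → _))
    rw [e1]
    refine propext (and_congr_right fun _ => and_congr ?_ ?_)
    · refine forall_congr' fun h1 => ?_
      rcases hsT' with h2 | h2
      · exact absurd h1 (by omega)
      · exact hvX_fac H h2 h1 e
    · exact forall_congr' fun h1 => and_congr (hzf (by omega) e) (gX_fac (by omega) e)
  -- share of the class
  have hgd : ∀ w, tb.Ps.p w ≠ 0 → CH w →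
      tb.Ps.m (XN tb v b (5 * (q / 5))) w ≤ Real.exp (2 * lam + 3) * tb.Ps.m (XN tb v b q) w := fun w hw hCw => by
    have e5 : 5 * t + q % 5 = q := by omega
    have g1 := lowX (tb := tb) (v := v) (b := b) (t := t) hv H (j := q % 5) (by omega) (by omega) hw hlam
      (fun a => hCw.2.1 (by omega)) (fun a => (hCw.2.2 (by omega)).2) (fun a => absurd a (by omega))
    rw [e5] at g1
    have p1 := tb.Ps.m_pos (XN tb v b q) hw
    have p2 := tb.Ps.m_pos (XN tb v b (5 * t)) hw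
    rw [Real.log_le_iff_le_exp (div_pos p2 p1), div_le_iff₀ p1] at g1
    exact g1
  -- heavy
  have k1 : tb.Ps.Pr (fun w => CH w ∧ bad w) ≤ Real.exp (-L1) * tb.Ps.Pr CH := by
    set A' : Om W X β → Prop := fun u => (eT v tb (τ u) u ≤ q ∧ At' tb v τ B u) ∧ Alv h v tb p q u with hA'
    have hAA : ∀ w, tb.Ps.p w ≠ 0 → CH w → ∀ u, tb.Ps.p u ≠ 0 → XN tb v b q u = XN tb v b q w → (A u ↔ A' u) := by
      intro w hw hCw u hu he
      have h1 : eT v tb (τ u) u ≤ q := eT_le (hle u) fun h2 => by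
        have h3 := (hCw.2.2 (by omega)).1
        exact (hzf (by omega) he).2 h3
      exact ⟨fun hh => ⟨⟨h1, hh.1⟩, hh.2⟩, fun hh => ⟨hh.1.2, hh.2⟩⟩
    have h1 := stepX (h := h) (tb := tb) (v := v) (b := b) (c := c) (d := d) (t := t) (q := q) (s := s) hn hN1 R H hbc hbd hcd
      hsT' (by omega) (by omega) hqs hs5 hlam hy0 K (A := A') (C := CH)
      ((Sn_cut hτ hle hBq).and (Sn_Alv p (by omega))) (fun w hw => hw.2) fCH (fun w _ hw h1 => hw.2.1 h1)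
      (fun w _ hw h1 => (hw.2.2 h1).2) (fun w hw hc h1 => hCo (by omega) (by omega) w hw hc.1 (hc.2.2 (by omega)).1)
      (eta := eta) (fun w hw hCw => by
        refine le_trans (le_of_eq ?_) (hm w hw hCw.1 (fun h2 => (hCw.2.2 h2).1) (hgd w hw hCw))
        exact GamR.ce_sup tb.Ps fun u hu he => by rw [← propext (hAA w hw hCw u hu he)]) hy
    refine le_trans (le_of_eq ?_) h1
    refine tb.Ps.Pr_congr fun w hw => ?_
    by_cases hCw : CH w
    · show CH w ∧ y ≤ _ ↔ _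
      rw [ce_clsX hv hqs (hAA w hw hCw)]
    · exact ⟨fun hh => absurd hh.1 hCw, fun hh => absurd hh.1 hCw⟩
  -- light
  have k2 : tb.Ps.Pr (fun w => CL w ∧ bad w) ≤ Real.exp (-L1) * tb.Ps.Pr CL := by
    by_cases h2 : 5 * t + 2 ≤ q
    · have htT : t < T := by omega
      have fCL : Fac (XN tb v b (5 * (t + 1))) CL := by
        intro u w e
        have e2 := XN_mono tb b (show s ≤ 5 * (t + 1) by omega) u w e
        have e1 := hC u w e2
        show (_ ∧ _ ∧ _) = (_ ∧ _ ∧ _)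
        rw [e1]
        exact propext (and_congr_right fun _ => and_congr_right fun _ => not_congr (hzf (by omega) e2))
      have hAA : ∀ w, tb.Ps.p w ≠ 0 → CL w → ∀ u, tb.Ps.p u ≠ 0 → NPo tb v (5 * t + 2) u = NPo tb v (5 * t + 2) w →
          (A u ↔ B (5 * (t + 1)) u) := by
        intro w hw hc u hu e
        have h3 : ¬ hz tb v t u := fun hh => hc.2.2 ((hz_fac le_rfl e).1 hh)
        have h4 : ltL v tb q u := by
          refine ⟨by omega, ?_⟩
          rw [← ht]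
          exact not_le.1 h3
        obtain ⟨h5, h6⟩ := hτl u h4
        have h7 : eT v tb (τ u) u = 5 * (t + 1) := by
          unfold eT
          rw [if_pos h5, h6]
          ring
        have h8 : At' tb v τ B u ↔ B (5 * (t + 1)) u := by
          unfold At'
          rw [h7]
        refine ⟨fun hh => h8.1 hh.1, fun hh => ⟨h8.2 hh, ?_⟩⟩
        exact Alv_anti (h := h) (v := v) (tb := tb) (show q ≤ 5 * (t + 1) by omega) (hBal _ u hh)
      have en : TP.nn s = TP.nn (5 * (t + 1)) := by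
        obtain ⟨j, hj⟩ := Nat.exists_eq_add_of_le (show 5 * t ≤ s by omega)
        rw [hj, TP.nn_j t (by omega) (by omega), GamR.nn5]
      have h1 := stepX (h := h) (tb := tb) (v := v) (b := b) (c := c) (d := d) (t := t + 1) (q := 5 * (t + 1))
        (s := 5 * (t + 1)) hn hN1 R H hbc hbd hcd (Or.inl ⟨rfl, htT⟩) le_rfl (by omega) le_rfl (by omega) hlam hy0 K
        (A := B (5 * (t + 1))) (C := CL) (hB _ (by omega)) (hBal _) fCL (fun w _ _ h1 => absurd h1 (lt_irrefl _))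
        (fun w _ _ h1 => absurd h1 (by omega)) (fun w _ _ h1 => absurd h1 (by omega)) (eta := eta) (fun w hw hCw => by
          refine le_trans (le_of_eq ?_) (hmL w hw hCw.1 hCw.2.1 hCw.2.2)
          refine GamR.ce_sup tb.Ps fun u hu he => ?_
          have e2 : NPo tb v (5 * t + 2) u = NPo tb v (5 * t + 2) w :=
            congrArg Prod.snd (XN_mono tb b (show 5 * t + 2 ≤ 5 * (t + 1) by omega) u w he)
          rw [← propext (hAA w hw hCw u hu e2)]) hy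
      refine le_trans (le_of_eq ?_) h1
      refine tb.Ps.Pr_congr fun w hw => ?_
      by_cases hCw : CL w
      · show CL w ∧ y ≤ _ ↔ _
        rw [en]
        have e3 : tb.Ps.ce (sgt D {b} (TP.nn (5 * (t + 1)))) (fun u => ind (A u)) w =
            tb.Ps.ce (sgt D {b} (TP.nn (5 * (t + 1)))) (fun u => ind (B (5 * (t + 1)) u)) w :=
          ce_clsX hv le_rfl fun u hu he => hAA w hw hCw u hu
            (congrArg Prod.snd (XN_mono tb b (show 5 * t + 2 ≤ 5 * (t + 1) by omega) u w he))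
        rw [e3]
      · exact ⟨fun hh => absurd hh.1 hCw, fun hh => absurd hh.1 hCw⟩
    · have h3 : ∀ w, tb.Ps.p w ≠ 0 → ¬ CL w := fun w hw hc => by
        have h4 := hc.2.1
        exact hc.2.2 (hCl (by omega) (by omega) w hw hc.1)
      have h4 : tb.Ps.Pr (fun w => CL w ∧ bad w) = 0 := by
        unfold FP.Pr
        rw [tb.Ps.E_congr (g := fun _ => 0) fun w hw => ind_not fun hh => h3 w hw hh.1, tb.Ps.E_const]
      rw [h4]
      exact mul_nonneg (Real.exp_pos _).le (tb.Ps.Pr_nonneg _)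
  have k4 : tb.Ps.Pr (fun w => C w ∧ bad w) ≤ tb.Ps.Pr (fun w => CH w ∧ bad w) + tb.Ps.Pr (fun w => CL w ∧ bad w) +
      tb.Ps.Pr (fun w => 5 * t < s ∧ exX tb v b dg lam t w) := by
    unfold FP.Pr
    rw [← FP.E_add, ← FP.E_add]
    refine tb.Ps.E_mono fun w _ => ?_
    have n1 := ind_nonneg (CH w ∧ bad w)
    have n2 := ind_nonneg (CL w ∧ bad w)
    have n3 := ind_nonneg (5 * t < s ∧ exX tb v b dg lam t w)
    by_cases h1 : C w ∧ bad w
    · rw [ind_of h1]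
      by_cases h2 : 5 * t < s ∧ exX tb v b dg lam t w
      · rw [ind_of h2]
        linarith
      · by_cases h3 : 5 * t + 1 < s ∧ ¬ hz tb v t w
        · rw [ind_of (⟨⟨h1.1, h3.1, h3.2⟩, h1.2⟩ : CL w ∧ bad w)]
          linarith
        · have h4 : CH w := by
            refine ⟨h1.1, fun a => by_contra fun b' => h2 ⟨a, Or.inl b'⟩, fun a => ?_⟩
            have g1 : hz tb v t w := by_contra fun b' => h3 ⟨a, b'⟩
            exact ⟨g1, by_contra fun b' => h2 ⟨by omega, Or.inr ⟨g1, b'⟩⟩⟩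
          rw [ind_of (⟨h4, h1.2⟩ : CH w ∧ bad w)]
          linarith
    · rw [ind_not h1]
      linarith
  have k5 : tb.Ps.Pr CH + tb.Ps.Pr CL ≤ tb.Ps.Pr C := by
    unfold FP.Pr
    rw [← FP.E_add]
    refine tb.Ps.E_mono fun w _ => ?_
    by_cases h1 : C w
    · rw [ind_of h1]
      by_cases h3 : 5 * t + 1 < s ∧ ¬ hz tb v t w
      · rw [ind_not (fun hh => h3.2 (hh.2.2 h3.1).1 : ¬ CH w)]
        have := ind_le_one (CL w)
        linarith
      · rw [ind_not (fun hh => h3 hh.2 : ¬ CL w)]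
        have := ind_le_one (CH w)
        linarith
    · rw [ind_not h1, ind_not (fun hh => h1 hh.1 : ¬ CH w), ind_not (fun hh => h1 hh.1 : ¬ CL w), add_zero]
  have k6 := mul_le_mul_of_nonneg_left k5 (Real.exp_pos (-L1)).le
  rw [mul_add] at k6
  show tb.Ps.Pr (fun w => C w ∧ bad w) ≤ _
  linarith

section clk

variable (tb)
variable (hv : Codes D v) {d1 kb d0 k0 p1 z : ℝ} (hd1 : 0 < d1) (hd11 : d1 ≤ 1) (hkb : 0 < kb) (hd0 : 0 < d0)
  (hd01 : d0 ≤ 1) (hk0 : 0 < k0) (hp1 : 0 < p1) (hz0 : 0 < z)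

/-- the exceptional values, summed -/
theorem exX_sum {n N1 : ℝ} (hn : 1 ≤ n) (hN1 : 1 ≤ N1) (R : Run h (pr3 (Fin 3) n N1) (SS1 (Fin 3)) (AdmDep D) v)
    {dg : ℕ → X → ℝ} {Lam : ℝ} (H : D.Hyp dg prr al T Lam) (b : Fin 3) {lam : ℝ} (hlam : 3 ≤ lam) :
    ∑ q ∈ range (5 * T), tb.Ps.Pr (exX tb v b dg lam (q / 5)) ≤ 800 * Real.exp (-lam) * (n * N1 * Lam) := by
  have he : Real.exp (-lam) ≤ 1 / 8 := by
    have h1 : Real.exp (-lam) ≤ Real.exp (-3) := Real.exp_le_exp.2 (by linarith)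
    have h2 : Real.exp (-3) ≤ 1 / 8 := by
      have h3 := Real.exp_one_gt_d9
      have h4 : Real.exp 3 = Real.exp 1 * Real.exp 1 * Real.exp 1 := by rw [← Real.exp_add, ← Real.exp_add]; norm_num
      rw [Real.exp_neg, one_div]
      exact inv_anti₀ (by norm_num) (by rw [h4]; nlinarith)
    exact h1.trans h2
  have h1 := sum_hvX (tb := tb) hn hN1 R H b (by linarith : Real.exp (-lam) ≤ 1 / 4)
  have h2 := sum_gX (tb := tb) hn hN1 R H b he
  have h3 : ∑ q ∈ range (5 * T), tb.Ps.Pr (exX tb v b dg lam (q / 5)) =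
      5 * ∑ t ∈ range T, tb.Ps.Pr (exX tb v b dg lam t) := RarN.sum_div (fun t => tb.Ps.Pr (exX tb v b dg lam t)) T
  have h4 : ∑ t ∈ range T, tb.Ps.Pr (exX tb v b dg lam t) ≤
      ∑ t ∈ range T, (tb.Ps.Pr (fun w => ¬ hvX tb v b dg lam t w) +
        tb.Ps.Pr (fun w => hz tb v t w ∧ ¬ gX tb v b lam t w)) := by
    refine Finset.sum_le_sum fun t _ => ?_
    unfold FP.Pr
    rw [← FP.E_add]
    refine tb.Ps.E_mono fun w _ => ?_
    unfold exX
    have n1 := ind_nonneg (¬ hvX tb v b dg lam t w)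
    have n2 := ind_nonneg (hz tb v t w ∧ ¬ gX tb v b lam t w)
    by_cases g1 : ¬ hvX tb v b dg lam t w
    · rw [ind_of g1]
      have := ind_le_one (¬ hvX tb v b dg lam t w ∨ hz tb v t w ∧ ¬ gX tb v b lam t w)
      linarith
    · by_cases g2 : hz tb v t w ∧ ¬ gX tb v b lam t w
      · rw [ind_of g2]
        have := ind_le_one (¬ hvX tb v b dg lam t w ∨ hz tb v t w ∧ ¬ gX tb v b lam t w)
        linarith
      · rw [ind_not (not_or.2 ⟨g1, g2⟩)]
        linarith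
  rw [Finset.sum_add_distrib] at h4
  have hL := H.Lam1
  have h5 : 0 ≤ Real.exp (-lam) * (n * N1 * Lam) := mul_nonneg (Real.exp_pos _).le (by positivity)
  rw [h3]
  linarith

section cl2

variable {n N1 : ℝ} (hn : 1 ≤ n) (hN1 : 1 ≤ N1) (R : Run h (pr3 (Fin 3) n N1) (SS1 (Fin 3)) (AdmDep D) v)
  {dg : ℕ → X → ℝ} {Lam : ℝ} (H : D.Hyp dg prr al T Lam) (hbc : b ≠ c) (hbd : b ≠ d) (hcd : c ≠ d)

include hn hN1 R H hbc hbd hcd

/-- **THE EXACT VERTEX IN THE WORDS OF THE CLOCKS** -/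
theorem exact_us {q s : ℕ} (hqs : q ≤ s) (hs : s ≤ q + 1) (hsT : s ≤ 5 * T)
    {p : V3.AP} {lam L1 eta y R0 ep : ℝ} {k : ℕ} (hlam : 0 ≤ lam) (hy0 : 0 < y)
    (K : Cst n al (3 * Real.exp p.X0) R0 ep k (L1 + (2 * lam + 3)))
    {B : ℕ → Om W X β → Prop} (hB : ∀ e ≤ 5 * T, Sn tb v e (B e)) (hBal : ∀ e w, B e w → Alv h v tb p e w)
    {A : Om W X β → Prop} (hA : ∀ w, tb.Ps.p w ≠ 0 → ((A w ∧ Alv h v tb p q w) ↔
      (At' tb v (tv (USi tb hv d1 kb d0 k0 p1 z hd1 hd11 hkb hd0 hd01 hk0 hp1 hz0) b q) B w ∧ Alv h v tb p q w)))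
    {C : Om W X β → Prop} (hC : Fac (XN tb v b s) C)
    (hCl : q % 5 = 1 → s = q + 1 → ∀ w, tb.Ps.p w ≠ 0 → C w → hz tb v (q / 5) w)
    (hCo : q % 5 = 4 → s = q + 1 → ∀ w, tb.Ps.p w ≠ 0 → C w → hz tb v (q / 5) w → oX tb v b (q / 5) w)
    (hm : ∀ w, tb.Ps.p w ≠ 0 → C w → (5 * (q / 5) + 1 < s → hz tb v (q / 5) w) →
      tb.Ps.m (XN tb v b (5 * (q / 5))) w ≤ Real.exp (2 * lam + 3) * tb.Ps.m (XN tb v b q) w →
      tb.Ps.ce (XN tb v b q) (fun u => ind (A u ∧ Alv h v tb p q u)) w ≤ eta)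
    (hmL : ∀ w, tb.Ps.p w ≠ 0 → C w → 5 * (q / 5) + 1 < s → ¬ hz tb v (q / 5) w →
      tb.Ps.ce (XN tb v b (5 * (q / 5 + 1))) (fun u => ind (A u ∧ Alv h v tb p q u)) w ≤ eta)
    (hy : 4 * (1025 * ELr n N1 al (3 * Real.exp p.X0) R0 ep k (L1 + (2 * lam + 3)) (p.X0 + (L1 + (2 * lam + 3))) +
      1024 * eta) < y) :
    tb.Ps.Pr (fun w => C w ∧ y ≤ tb.Ps.ce (sgt D {b} (TP.nn s)) (fun u => ind (A u ∧ Alv h v tb p q u)) w) ≤
      Real.exp (-L1) * tb.Ps.Pr C + tb.Ps.Pr (fun w => 5 * (q / 5) < s ∧ exX tb v b dg lam (q / 5) w) := by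
  have e1 : ∀ {κ : Type _} (Z : Om W X β → κ) (w : Om W X β),
      tb.Ps.ce Z (fun u => ind (A u ∧ Alv h v tb p q u)) w = tb.Ps.ce Z (fun u => ind (At' tb v
        (tv (USi tb hv d1 kb d0 k0 p1 z hd1 hd11 hkb hd0 hd01 hk0 hp1 hz0) b q) B u ∧ Alv h v tb p q u)) w :=
    fun Z w => GamR.ce_sup tb.Ps fun u hu _ => by rw [propext (hA u hu)]
  have k1 := exact_step (h := h) (tb := tb) hn hN1 R H hbc hbd hcd hqs hs hsT hlam hy0 K
    (τ := tv (USi tb hv d1 kb d0 k0 p1 z hd1 hd11 hkb hd0 hd01 hk0 hp1 hz0) b q)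
    (fun u w _ _ he => MV.tauS_fac (M := MSi tb (v := v) d1 kb d0 k0 p1 z hd1 hd11 hkb hd0 hd01 hk0 hp1 hz0) b q u w
      (Prod.ext (he.2.1 b) he.1))
    (fun w => CK.stg_le _ _) (fun u hl => KDV.ltL_tauS (tb := tb) hd1 hd11 hkb hd0 hd01 hk0 hp1 hz0 hl b)
    hB hBal hC hCl hCo (fun w hw hc h1 h2 => by rw [← e1]; exact hm w hw hc h1 h2)
    (fun w hw hc h1 h2 => by rw [← e1]; exact hmL w hw hc h1 h2) hy
  refine le_trans (le_of_eq ?_) k1
  refine congrArg tb.Ps.Pr (funext fun w => ?_)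
  rw [e1]

/-- **SUM OVER THE STEPS** : sight at `q + 1`, relation of the life which runs at `q`; `C q` = any event of the class of the exact
vertex at `q + 1`, inside the heavy public values at `q = 5 t + 1` and the heavy own values at `q = 5 t + 4` of heavy levels -/
theorem exact_sum {p : V3.AP} {lam L1 eta y R0 ep : ℝ} {k : ℕ} (hlam : 3 ≤ lam) (hy0 : 0 < y)
    (K : Cst n al (3 * Real.exp p.X0) R0 ep k (L1 + (2 * lam + 3)))
    {B : ℕ → Om W X β → Prop} (hB : ∀ e ≤ 5 * T, Sn tb v e (B e)) (hBal : ∀ e w, B e w → Alv h v tb p e w)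
    {A C : ℕ → Om W X β → Prop} (hA : ∀ q < 5 * T, ∀ w, tb.Ps.p w ≠ 0 → ((A q w ∧ Alv h v tb p q w) ↔
      (At' tb v (tv (USi tb hv d1 kb d0 k0 p1 z hd1 hd11 hkb hd0 hd01 hk0 hp1 hz0) b q) B w ∧ Alv h v tb p q w)))
    (hC : ∀ q < 5 * T, Fac (XN tb v b (q + 1)) (C q))
    (hCl : ∀ q < 5 * T, q % 5 = 1 → ∀ w, tb.Ps.p w ≠ 0 → C q w → hz tb v (q / 5) w)
    (hCo : ∀ q < 5 * T, q % 5 = 4 → ∀ w, tb.Ps.p w ≠ 0 → C q w → hz tb v (q / 5) w → oX tb v b (q / 5) w)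
    (hm : ∀ q < 5 * T, ∀ w, tb.Ps.p w ≠ 0 → C q w → (5 * (q / 5) < q → hz tb v (q / 5) w) →
      tb.Ps.m (XN tb v b (5 * (q / 5))) w ≤ Real.exp (2 * lam + 3) * tb.Ps.m (XN tb v b q) w →
      tb.Ps.ce (XN tb v b q) (fun u => ind (A q u ∧ Alv h v tb p q u)) w ≤ eta)
    (hmL : ∀ q < 5 * T, ∀ w, tb.Ps.p w ≠ 0 → C q w → 5 * (q / 5) < q → ¬ hz tb v (q / 5) w →
      tb.Ps.ce (XN tb v b (5 * (q / 5 + 1))) (fun u => ind (A q u ∧ Alv h v tb p q u)) w ≤ eta)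
    (hy : 4 * (1025 * ELr n N1 al (3 * Real.exp p.X0) R0 ep k (L1 + (2 * lam + 3)) (p.X0 + (L1 + (2 * lam + 3))) +
      1024 * eta) < y) :
    ∑ q ∈ range (5 * T), tb.Ps.Pr (fun w => C q w ∧
        y ≤ tb.Ps.ce (sgt D {b} (TP.nn (q + 1))) (fun u => ind (A q u ∧ Alv h v tb p q u)) w) ≤
      Real.exp (-L1) * ∑ q ∈ range (5 * T), tb.Ps.Pr (C q) + 800 * Real.exp (-lam) * (n * N1 * Lam) := by
  have h1 : ∀ q ∈ range (5 * T), tb.Ps.Pr (fun w => C q w ∧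
      y ≤ tb.Ps.ce (sgt D {b} (TP.nn (q + 1))) (fun u => ind (A q u ∧ Alv h v tb p q u)) w) ≤
      Real.exp (-L1) * tb.Ps.Pr (C q) + tb.Ps.Pr (exX tb v b dg lam (q / 5)) := fun q hq => by
    have hq' := mem_range.1 hq
    have h2 := exact_us (h := h) (tb := tb) hv hd1 hd11 hkb hd0 hd01 hk0 hp1 hz0 hn hN1 R H hbc hbd hcd (q := q) (s := q + 1)
      (by omega) le_rfl (by omega) (lam := lam) (by linarith) hy0 K hB hBal (hA q hq') (hC q hq') (fun h3 _ => hCl q hq' h3)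
      (fun h3 _ => hCo q hq' h3) (fun w hw hc h3 h5 => hm q hq' w hw hc (fun h4 => h3 (by omega)) h5)
      (fun w hw hc h3 h4 => hmL q hq' w hw hc (by omega) h4) hy
    exact h2.trans (add_le_add le_rfl (tb.Ps.Pr_mono fun w _ hh => hh.2))
  refine (Finset.sum_le_sum h1).trans ?_
  rw [Finset.sum_add_distrib, ← Finset.mul_sum]
  have h3 := exX_sum tb hn hN1 R H b hlam
  linarith

/-- **SUM OVER THE STATES** : sight at `q`, relation of the life which runs at `q`, `C q` = any event of the class of the exact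
vertex at `q` (new lives: `C q` inside the starts) -/
theorem exact_new {p : V3.AP} {lam L1 eta y R0 ep : ℝ} {k : ℕ} (hlam : 3 ≤ lam) (hy0 : 0 < y)
    (K : Cst n al (3 * Real.exp p.X0) R0 ep k (L1 + (2 * lam + 3)))
    {B : ℕ → Om W X β → Prop} (hB : ∀ e ≤ 5 * T, Sn tb v e (B e)) (hBal : ∀ e w, B e w → Alv h v tb p e w)
    {A C : ℕ → Om W X β → Prop} (hA : ∀ q ≤ 5 * T, ∀ w, tb.Ps.p w ≠ 0 → ((A q w ∧ Alv h v tb p q w) ↔
      (At' tb v (tv (USi tb hv d1 kb d0 k0 p1 z hd1 hd11 hkb hd0 hd01 hk0 hp1 hz0) b q) B w ∧ Alv h v tb p q w)))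
    (hC : ∀ q ≤ 5 * T, Fac (XN tb v b q) (C q))
    (hm : ∀ q ≤ 5 * T, ∀ w, tb.Ps.p w ≠ 0 → C q w → (5 * (q / 5) + 1 < q → hz tb v (q / 5) w) →
      tb.Ps.m (XN tb v b (5 * (q / 5))) w ≤ Real.exp (2 * lam + 3) * tb.Ps.m (XN tb v b q) w →
      tb.Ps.ce (XN tb v b q) (fun u => ind (A q u ∧ Alv h v tb p q u)) w ≤ eta)
    (hmL : ∀ q ≤ 5 * T, ∀ w, tb.Ps.p w ≠ 0 → C q w → 5 * (q / 5) + 1 < q → ¬ hz tb v (q / 5) w →
      tb.Ps.ce (XN tb v b (5 * (q / 5 + 1))) (fun u => ind (A q u ∧ Alv h v tb p q u)) w ≤ eta)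
    (hy : 4 * (1025 * ELr n N1 al (3 * Real.exp p.X0) R0 ep k (L1 + (2 * lam + 3)) (p.X0 + (L1 + (2 * lam + 3))) +
      1024 * eta) < y) :
    ∑ q ∈ range (5 * T + 1), tb.Ps.Pr (fun w => C q w ∧
        y ≤ tb.Ps.ce (sgt D {b} (TP.nn q)) (fun u => ind (A q u ∧ Alv h v tb p q u)) w) ≤
      Real.exp (-L1) * ∑ q ∈ range (5 * T + 1), tb.Ps.Pr (C q) + 800 * Real.exp (-lam) * (n * N1 * Lam) := by
  have h1 : ∀ q ∈ range (5 * T + 1), tb.Ps.Pr (fun w => C q w ∧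
      y ≤ tb.Ps.ce (sgt D {b} (TP.nn q)) (fun u => ind (A q u ∧ Alv h v tb p q u)) w) ≤
      Real.exp (-L1) * tb.Ps.Pr (C q) + tb.Ps.Pr (fun w => 5 * (q / 5) < q ∧ exX tb v b dg lam (q / 5) w) := fun q hq => by
    have hq' : q ≤ 5 * T := Nat.lt_succ_iff.1 (mem_range.1 hq)
    exact exact_us (h := h) (tb := tb) hv hd1 hd11 hkb hd0 hd01 hk0 hp1 hz0 hn hN1 R H hbc hbd hcd (q := q) (s := q) le_rfl
      (by omega) hq' (lam := lam) (by linarith) hy0 K hB hBal (hA q hq') (hC q hq') (fun _ h3 => by omega)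
      (fun _ h3 => by omega) (hm q hq') (hmL q hq') hy
  refine (Finset.sum_le_sum h1).trans ?_
  rw [Finset.sum_add_distrib, ← Finset.mul_sum]
  have h3 := exX_sum tb hn hN1 R H b hlam
  have h4 : ∑ q ∈ range (5 * T + 1), tb.Ps.Pr (fun w => 5 * (q / 5) < q ∧ exX tb v b dg lam (q / 5) w) ≤
      ∑ q ∈ range (5 * T), tb.Ps.Pr (exX tb v b dg lam (q / 5)) := by
    rw [Finset.sum_range_succ]
    have h5 : tb.Ps.Pr (fun w => 5 * (5 * T / 5) < 5 * T ∧ exX tb v b dg lam (5 * T / 5) w) = 0 := by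
      unfold FP.Pr
      rw [tb.Ps.E_congr (g := fun _ => 0) fun w _ => ind_not fun hh => by
        have := hh.1
        omega, tb.Ps.E_const]
    rw [h5, add_zero]
    exact Finset.sum_le_sum fun q _ => tb.Ps.Pr_mono fun w _ hh => hh.2
  linarith

end cl2

end clk

end

end Pool.Agent.GMH.RarC
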