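import Pool.Agent.GMH.ConRn
import Pool.Agent.GMH.ConPn
import Pool.Agent.GMH.RarC5
import Pool.Agent.GMH.CtxL

/-!
# GMH/ConRar (helper42): THE NUMBERS OF C5 OVER `Ctx` (row A5)

`sq` = exponent of the threshold `y = x^(-sq)`, `s` = exponent of the result, both fixed numbers.
* `RX C sq s` : exact vertex (`exact_us`, `exact_sum`, `exact_new` of RarC5), `L1 = lam = lr`, `R0 = R0r`, `ep = 1 / n`, `k = kx`;
  `rx_all` : for all runs with large `c0`;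
* `RN C sq s` : node (`node_us`, `node_sum`, `node_new`, `node_af`, `node_st`), `L1 = n^16`, `lam = lr` (so that the class
  mass, which is known at the classes of mass `≥ exp (-(lam + 4))`, is small); `rn_all`;
* `exact_sumC`, `exact_newC`, `node_sumC`, `node_newC` : the sums over the run of `C`, `≤ x^(-s)`.
Thresholds in the strong form `y / 16` (exact) and `y / 64` (node), so that `y / 2`, `y / 4` are covered (`hy2`, `hy4`).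
-/

set_option autoImplicit false
set_option linter.unusedSectionVars false

namespace Pool.Agent.GMH.CX

open Finset Pool.Agent.PWZ Pool.Agent.M3 Pool.Agent.GM Pool.Agent.GM.Harm Pool.Agent.GMH Pool.Agent.GMH.NZ
open Pool.Agent.GMH.V3 Pool.Agent.GMH.TP Pool.Agent.GMH.TD Pool.Agent.GMH.Dy Pool.Agent.GMH.MVI Pool.Agent.GMH.MVIp
open Pool.Agent.GMH.RarX Pool.Agent.GMH.GamR Pool.Agent.GMH.KF
open Pool.Agent.GMH.RarC (Cst ELr Cst_of ELr_le)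
open Pool.Agent.GMH.UV (tv)
open Pool.Agent.GMH.RarN (Sn At' hz)
open Pool.Agent.GMH.CT (lr R0r)

noncomputable section

/-- `k = n^2` as a natural number -/
def kx (C : Ctx) : ℕ := ⌈C.n ^ 2⌉₊

/-- the length of the lists of the exact vertex -/
abbrev Lx (C : Ctx) (sq : ℕ) : ℝ := lr C.Lam sq C.c0 + (2 * lr C.Lam sq C.c0 + 3)

/-- the prices of the exact vertex -/
abbrev Ex (C : Ctx) (sq : ℕ) : ℝ :=
  ELr C.n C.N1 C.al (3 * Real.exp C.p.X0) (R0r C.Lam C.c0) (1 / C.n) (kx C) (Lx C sq) (C.p.X0 + Lx C sq)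

/-- **numbers of the exact vertex** -/
structure RX (C : Ctx) (sq s : ℕ) : Prop where
  lam3 : 3 ≤ lr C.Lam sq C.c0
  y0 : 0 < CT.ix C.Lam sq
  K : Cst C.n C.al (3 * Real.exp C.p.X0) (R0r C.Lam C.c0) (1 / C.n) (kx C) (Lx C sq)
  hy : ∀ eta, eta ≤ 4 ^ 8 * CT.ix C.Lam (2 * sq) → 4 * (1025 * Ex C sq + 1024 * eta) < CT.ix C.Lam sq / 16
  V : ∀ V, V ≤ Real.exp (C.n * CT.ix C.Lam (sq + 21)) → Real.exp (-(lr C.Lam sq C.c0)) * V ≤ CT.ix C.Lam s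
  e : ∀ c, c ≤ 4 ^ 10 → c * Real.exp (-(lr C.Lam sq C.c0)) * (C.n * C.N1 * C.Lam) ≤ CT.ix C.Lam s
  d : ∀ c, c ≤ 4 ^ 10 → c / CT.ix C.Lam sq * (pw C.Lam (C.c0 + C.A))⁻¹ ≤ CT.ix C.Lam s

/-- **numbers of the node** -/
structure RN (C : Ctx) (sq s : ℕ) : Prop where
  lam2 : 2 ≤ lr C.Lam sq C.c0
  L1 : 0 ≤ pw C.Lam (16 * C.c0)
  y0 : 0 < CT.ix C.Lam sq
  X0 : 0 ≤ C.p.X0
  hy : ∀ eta, eta ≤ 4 ^ 8 * CT.ix C.Lam (2 * sq) →
    54 * (pw C.Lam (16 * C.c0) + 2 * (lr C.Lam sq C.c0 + 4) + 2 * C.p.X0 + 5) / C.N1 + 54 * C.Lam / C.n + 2 * eta <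
      CT.ix C.Lam sq / 64
  V : ∀ V, V ≤ Real.exp (pw C.Lam (15 * C.c0)) → Real.exp (-(pw C.Lam (16 * C.c0))) * V ≤ CT.ix C.Lam s
  e : ∀ c, c ≤ 4 ^ 10 → c * Real.exp (-(lr C.Lam sq C.c0)) * (C.n * C.N1 * C.Lam) ≤ CT.ix C.Lam s
  d : ∀ c, c ≤ 4 ^ 10 → c / CT.ix C.Lam sq * (pw C.Lam (C.c0 + C.A))⁻¹ ≤ CT.ix C.Lam s

/-- the dead points against a threshold -/
theorem dd_num (A sq s : ℕ) : CT.Ev fun c0 Lam => ∀ c : ℝ, c ≤ 4 ^ 10 →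
    c / CT.ix Lam sq * (pw Lam (c0 + A))⁻¹ ≤ CT.ix Lam s := by
  refine (CT.Ev.ge (sq + s + 20)).mono fun c0 Lam hL hc c hc1 => ?_
  have i0 := CT.ix_pos hL sq
  have p0 := CT.pw_pos hL (c0 + A)
  have h1 : c / CT.ix Lam sq * (pw Lam (c0 + A))⁻¹ ≤ 4 ^ 10 / CT.ix Lam sq * (pw Lam (c0 + A))⁻¹ :=
    mul_le_mul_of_nonneg_right (div_le_div_of_nonneg_right hc1 i0.le) (inv_pos.2 p0).le
  refine h1.trans ?_
  rw [← div_eq_mul_inv, div_le_iff₀ p0, div_le_iff₀ i0]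
  have h2 : CT.ix Lam s * pw Lam (c0 + A) * CT.ix Lam sq = pw Lam (c0 + A - (s + sq)) := by
    have e4 : c0 + A = s + (sq + (c0 + A - (s + sq))) := by omega
    conv_lhs => rw [e4]
    rw [mul_comm (CT.ix Lam s), CT.pw_add_ix hL, CT.pw_add_ix hL]
  rw [h2]
  exact (CT.cst hL 10 le_rfl).trans (CT.pw_mono hL (by omega))

/-- strong threshold of the exact vertex -/
theorem rx_y' {Lam : ℝ} (hL : 2 ≤ Lam) {sq : ℕ} (hs : 20 ≤ sq) {E eta : ℝ} (hE : E ≤ CT.ix Lam (sq + 12))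
    (he : eta ≤ 4 ^ 8 * CT.ix Lam (2 * sq)) : 4 * (1025 * E + 1024 * eta) < CT.ix Lam sq / 16 := by
  have h1 : 4 ^ 7 * CT.ix Lam (sq + 12) ≤ CT.ix Lam (sq + 5) := CT.fin hL (CT.cst hL 7 le_rfl) (by omega)
  have h2 : 4 ^ 15 * CT.ix Lam (2 * sq) ≤ CT.ix Lam (sq + 4) := CT.fin hL (CT.cst hL 15 le_rfl) (by omega)
  have h6 : CT.ix Lam (sq + 5) ≤ CT.ix Lam (sq + 4) := CT.ix_anti hL (by omega)
  have h3 : 4 ^ 4 * CT.ix Lam (sq + 4) ≤ CT.ix Lam sq := CT.fin hL (CT.cst hL 4 le_rfl) (by omega)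
  have h4 := CT.ix_pos hL (sq + 4)
  have h7 := CT.ix_pos hL (sq + 12)
  have h8 := CT.ix_pos hL (2 * sq)
  norm_num at h1 h2 h3 he
  linarith

/-- strong threshold of the node -/
theorem rn_y' {A : ℕ} (hA : 80 ≤ A) (sq : ℕ) (hs : 20 ≤ sq) : CT.Ev fun c0 Lam => ∀ eta : ℝ, eta ≤ 4 ^ 8 * CT.ix Lam (2 * sq) →
    54 * (pw Lam (16 * c0) + 2 * (pw Lam (16 * c0) + 4) + 2 * pw Lam (cXF A c0) + 5) / pw Lam (c1F A c0) +
      54 * Lam / pw Lam c0 + 2 * eta < CT.ix Lam sq / 64 := by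
  refine (CT.rn_num hA (sq + 4) (by omega)).mono fun c0 Lam hL h eta he => ?_
  have h1 := h 0 (mul_nonneg (by norm_num) (CT.ix_nn hL _))
  have h2 : 4 ^ 12 * CT.ix Lam (2 * sq) ≤ CT.ix Lam (sq + 4) := CT.fin hL (CT.cst hL 12 le_rfl) (by omega)
  have h3 : 4 ^ 4 * CT.ix Lam (sq + 4) ≤ CT.ix Lam sq := CT.fin hL (CT.cst hL 4 le_rfl) (by omega)
  have h4 := CT.ix_pos hL (sq + 4)
  have h8 := CT.ix_pos hL (2 * sq)
  norm_num at h2 h3 he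
  linarith

theorem rx_all {A : ℕ} (hA : 80 ≤ A) {sq : ℕ} (hs : 20 ≤ sq) (s : ℕ) : AllC A fun C => RX C sq s := by
  have h := (of_Ev (A := A) ((CT.rx_num hA sq).and ((CT.rx_V A sq s).and (dd_num A sq s)))).and
    (AllC.fin (ι := Fin 1) (P := fun _ C => C.A = A) fun _ => AllC.all fun C hC => hC)
  have he := of_Ev (A := A) (P := fun c0 Lam => 4 ^ 10 * Real.exp (-(lr Lam sq c0)) * (pw Lam c0 * pw Lam (c1F A c0) * Lam) ≤
    CT.ix Lam s) (CT.rx_e A sq s le_rfl)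
  refine (h.and he).mono fun C hC => ?_
  obtain ⟨⟨⟨h1, h2, h3⟩, h4⟩, h5⟩ := hC
  have hCA : C.A = A := h4 0
  obtain ⟨n2, l3, r1, r2, r3, r4, l4, hE⟩ := h1
  have hL := C.hL
  have hn1 : C.N1 = pw C.Lam (c1F A C.c0) := by rw [← hCA]; rfl
  have hX : C.p.X0 = pw C.Lam (cXF A C.c0) := by rw [← hCA]; rfl
  have hX0 : 0 ≤ C.p.X0 := by rw [hX]; exact (CT.pw_pos hL _).le
  have hlog : Real.log (1 / C.al) ≤ C.Lam := C.log_al
  have hM : 0 ≤ 3 * Real.exp C.p.X0 := mul_nonneg (by norm_num) (Real.exp_pos _).le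
  have hk : C.n ^ 2 ≤ (kx C : ℝ) := Nat.le_ceil _
  have hn1' : (1 : ℝ) ≤ C.n ^ 2 := one_le_pow₀ C.n1
  have hk2 : (kx C : ℝ) ≤ 2 * C.n ^ 2 := by
    have := (Nat.ceil_lt_add_one (by positivity : 0 ≤ C.n ^ 2)).le
    unfold kx
    linarith
  have hl0 : 0 ≤ Lx C sq := by
    show 0 ≤ lr C.Lam sq C.c0 + (2 * lr C.Lam sq C.c0 + 3)
    linarith
  have hZ : Real.log ((3 * Real.exp C.p.X0 + 1) * (1 / C.al + 1)) ≤ C.p.X0 + C.Lam + 3 := by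
    have a0 := C.h.pos
    have a1 : 0 < 1 / C.al := by positivity
    have e1 : 1 ≤ Real.exp C.p.X0 := Real.one_le_exp hX0
    have e2 : 1 / C.al ≤ Real.exp C.Lam := by
      rw [← Real.log_le_iff_le_exp a1]
      exact hlog
    have e3 : 1 ≤ Real.exp C.Lam := Real.one_le_exp (by linarith)
    have e4 : (8 : ℝ) ≤ Real.exp 3 := by
      have h3 := Real.exp_one_gt_d9
      have h4 : Real.exp 3 = Real.exp 1 * Real.exp 1 * Real.exp 1 := by rw [← Real.exp_add, ← Real.exp_add]; norm_num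
      rw [h4]
      nlinarith
    have e5 : (3 * Real.exp C.p.X0 + 1) * (1 / C.al + 1) ≤ Real.exp (C.p.X0 + C.Lam + 3) := by
      rw [Real.exp_add, Real.exp_add]
      have f1 : (3 * Real.exp C.p.X0 + 1) * (1 / C.al + 1) ≤ (4 * Real.exp C.p.X0) * (2 * Real.exp C.Lam) :=
        mul_le_mul (by linarith) (by linarith) (by positivity) (by positivity)
      have f2 : Real.exp C.p.X0 * Real.exp C.Lam * 8 ≤ Real.exp C.p.X0 * Real.exp C.Lam * Real.exp 3 :=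
        mul_le_mul_of_nonneg_left e4 (by positivity)
      linarith
    exact (Real.log_le_log (by positivity) e5).trans (le_of_eq (Real.log_exp _))
  have hEL := ELr_le (D := C.D) (n := C.n) (N1 := C.N1) (M := 3 * Real.exp C.p.X0) (Lam := C.Lam) (L := Lx C sq)
    (Lo := C.p.X0 + Lx C sq) (R0 := R0r C.Lam C.c0) C.h n2 C.N11 hM hlog hl0 l4 (add_nonneg hX0 hl0) r4 hk hk2 hZ
  have hEx : Ex C sq ≤ CT.ix C.Lam (sq + 12) := by
    refine hEL.trans ?_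
    rw [hn1, hX]
    exact hE
  exact {
    lam3 := l3
    y0 := CT.ix_pos hL _
    K := Cst_of (Lam := C.Lam) n2 hM r1 (hlog.trans r2) r3 hl0 l4 hk
    hy := fun eta he => rx_y' hL hs hEx he
    V := h2
    e := fun c hc => by
      refine le_trans ?_ h5
      rw [hn1]
      exact mul_le_mul_of_nonneg_right (mul_le_mul_of_nonneg_right hc (Real.exp_pos _).le)
        (mul_nonneg (mul_nonneg (CT.pw_pos hL _).le (CT.pw_pos hL _).le) (by linarith))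
    d := fun c hc => by
      rw [hCA]
      exact h3 c hc }

theorem rn_all {A : ℕ} (hA : 80 ≤ A) {sq : ℕ} (hs : 20 ≤ sq) (s : ℕ) : AllC A fun C => RN C sq s := by
  have h := (of_Ev (A := A) ((rn_y' hA sq hs).and ((CT.rn_V A s).and (dd_num A sq s)))).and
    (AllC.fin (ι := Fin 1) (P := fun _ C => C.A = A) fun _ => AllC.all fun C hC => hC)
  have he := of_Ev (A := A) (P := fun c0 Lam => 4 ^ 10 * Real.exp (-(lr Lam sq c0)) * (pw Lam c0 * pw Lam (c1F A c0) * Lam) ≤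
    CT.ix Lam s) (CT.rx_e A sq s le_rfl)
  refine ((h.and he).and (of_Ev (A := A) ((CT.rx_num hA sq).and (CT.Ev.ge 1)))).mono fun C hC => ?_
  obtain ⟨⟨⟨⟨h1, h2, h3⟩, h4⟩, h5⟩, hx, hc⟩ := hC
  obtain ⟨-, l3, -, -, -, -, l4, -⟩ := hx
  have hCA : C.A = A := h4 0
  have hL := C.hL
  have hn1 : C.N1 = pw C.Lam (c1F A C.c0) := by rw [← hCA]; rfl
  have hX : C.p.X0 = pw C.Lam (cXF A C.c0) := by rw [← hCA]; rfl
  have N0 : 0 < C.N1 := lt_of_lt_of_le one_pos C.N11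
  have hll : lr C.Lam sq C.c0 ≤ pw C.Lam (16 * C.c0) := by
    have h6 : pw C.Lam C.c0 ≤ pw C.Lam (16 * C.c0) := CT.pw_mono hL (by omega)
    linarith
  exact {
    lam2 := by linarith
    L1 := (CT.pw_pos hL _).le
    y0 := CT.ix_pos hL _
    X0 := by rw [hX]; exact (CT.pw_pos hL _).le
    hy := fun eta he => by
      refine lt_of_le_of_lt ?_ (h1 eta he)
      have h7 : 54 * (pw C.Lam (16 * C.c0) + 2 * (lr C.Lam sq C.c0 + 4) + 2 * C.p.X0 + 5) / C.N1 ≤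
          54 * (pw C.Lam (16 * C.c0) + 2 * (pw C.Lam (16 * C.c0) + 4) + 2 * pw C.Lam (cXF A C.c0) + 5) / pw C.Lam (c1F A C.c0) := by
        rw [← hn1, hX]
        exact div_le_div_of_nonneg_right (by linarith) N0.le
      exact add_le_add (add_le_add h7 le_rfl) le_rfl
    V := h2
    e := fun c hc => by
      refine le_trans ?_ h5
      rw [hn1]
      exact mul_le_mul_of_nonneg_right (mul_le_mul_of_nonneg_right hc (Real.exp_pos _).le)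
        (mul_nonneg (mul_nonneg (CT.pw_pos hL _).le (CT.pw_pos hL _).le) (by linarith))
    d := fun c hc => by
      rw [hCA]
      exact h3 c hc }

/-! ## the sums over the run of `C` -/

variable {C : Ctx} {sq s : ℕ} {ka : ℕ} {b c d : Fin 3}

/-- **EXACT VERTEX, SUM OVER THE STEPS** -/
theorem exact_sumC (N : RX C sq s) (hbc : b ≠ c) (hbd : b ≠ d) (hcd : c ≠ d) {y eta : ℝ} (hy : CT.ix C.Lam sq / 16 ≤ y)
    (he : eta ≤ 4 ^ 8 * CT.ix C.Lam (2 * sq))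
    {B : ℕ → C.O → Prop} (hB : ∀ e ≤ 5 * C.T, Sn C.tb C.v e (B e)) (hBal : ∀ e w, B e w → Alv C.h C.v C.tb C.p e w)
    {A F : ℕ → C.O → Prop} (hA : ∀ q < 5 * C.T, ∀ w, C.tb.Ps.p w ≠ 0 → ((A q w ∧ Alv C.h C.v C.tb C.p q w) ↔
      (At' C.tb C.v (tv (C.U ka) b q) B w ∧ Alv C.h C.v C.tb C.p q w)))
    (hC : ∀ q < 5 * C.T, Fac (XN C.tb C.v b (q + 1)) (F q))
    (hCl : ∀ q < 5 * C.T, q % 5 = 1 → ∀ w, C.tb.Ps.p w ≠ 0 → F q w → hz C.tb C.v (q / 5) w)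
    (hCo : ∀ q < 5 * C.T, q % 5 = 4 → ∀ w, C.tb.Ps.p w ≠ 0 → F q w → hz C.tb C.v (q / 5) w → RarC.oX C.tb C.v b (q / 5) w)
    (hm : ∀ q < 5 * C.T, ∀ w, C.tb.Ps.p w ≠ 0 → F q w → (5 * (q / 5) < q → hz C.tb C.v (q / 5) w) →
      C.tb.Ps.ce (XN C.tb C.v b q) (fun u => ind (A q u ∧ Alv C.h C.v C.tb C.p q u)) w ≤ eta)
    (hmL : ∀ q < 5 * C.T, ∀ w, C.tb.Ps.p w ≠ 0 → F q w → 5 * (q / 5) < q → ¬ hz C.tb C.v (q / 5) w →
      C.tb.Ps.ce (XN C.tb C.v b (5 * (q / 5 + 1))) (fun u => ind (A q u ∧ Alv C.h C.v C.tb C.p q u)) w ≤ eta)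
    {V : ℝ} (hV : ∑ q ∈ range (5 * C.T), C.tb.Ps.Pr (F q) ≤ V) (hVe : V ≤ Real.exp (C.n * CT.ix C.Lam (sq + 21))) :
    ∑ q ∈ range (5 * C.T), C.tb.Ps.Pr (fun w => F q w ∧
        y ≤ C.tb.Ps.ce (sgt C.D {b} (TP.nn (q + 1))) (fun u => ind (A q u ∧ Alv C.h C.v C.tb C.p q u)) w) ≤
      CT.ix C.Lam s + CT.ix C.Lam s := by
  have h1 := RarC.exact_sum (h := C.h) C.tb C.codes (C.d1_pos ka) (C.d1_le ka) (C.kb_pos ka) C.d0_pos C.d0_le C.d0_pos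
    C.p1_pos (C.z_pos ka) C.n1 C.N11 C.R C.H hbc hbd hcd N.lam3 (lt_of_lt_of_le (by have := N.y0; positivity) hy) N.K
    hB hBal hA hC hCl hCo hm hmL (lt_of_lt_of_le (N.hy eta he) hy)
  refine h1.trans (add_le_add ?_ (N.e 800 (by norm_num)))
  exact (mul_le_mul_of_nonneg_left hV (Real.exp_pos _).le).trans (N.V V hVe)

/-- **EXACT VERTEX, SUM OVER THE STATES** -/
theorem exact_newC (N : RX C sq s) (hbc : b ≠ c) (hbd : b ≠ d) (hcd : c ≠ d) {y eta : ℝ} (hy : CT.ix C.Lam sq / 16 ≤ y)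
    (he : eta ≤ 4 ^ 8 * CT.ix C.Lam (2 * sq))
    {B : ℕ → C.O → Prop} (hB : ∀ e ≤ 5 * C.T, Sn C.tb C.v e (B e)) (hBal : ∀ e w, B e w → Alv C.h C.v C.tb C.p e w)
    {A F : ℕ → C.O → Prop} (hA : ∀ q ≤ 5 * C.T, ∀ w, C.tb.Ps.p w ≠ 0 → ((A q w ∧ Alv C.h C.v C.tb C.p q w) ↔
      (At' C.tb C.v (tv (C.U ka) b q) B w ∧ Alv C.h C.v C.tb C.p q w)))
    (hC : ∀ q ≤ 5 * C.T, Fac (XN C.tb C.v b q) (F q))
    (hm : ∀ q ≤ 5 * C.T, ∀ w, C.tb.Ps.p w ≠ 0 → F q w → (5 * (q / 5) + 1 < q → hz C.tb C.v (q / 5) w) →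
      C.tb.Ps.ce (XN C.tb C.v b q) (fun u => ind (A q u ∧ Alv C.h C.v C.tb C.p q u)) w ≤ eta)
    (hmL : ∀ q ≤ 5 * C.T, ∀ w, C.tb.Ps.p w ≠ 0 → F q w → 5 * (q / 5) + 1 < q → ¬ hz C.tb C.v (q / 5) w →
      C.tb.Ps.ce (XN C.tb C.v b (5 * (q / 5 + 1))) (fun u => ind (A q u ∧ Alv C.h C.v C.tb C.p q u)) w ≤ eta)
    {V : ℝ} (hV : ∑ q ∈ range (5 * C.T + 1), C.tb.Ps.Pr (F q) ≤ V) (hVe : V ≤ Real.exp (C.n * CT.ix C.Lam (sq + 21))) :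
    ∑ q ∈ range (5 * C.T + 1), C.tb.Ps.Pr (fun w => F q w ∧
        y ≤ C.tb.Ps.ce (sgt C.D {b} (TP.nn q)) (fun u => ind (A q u ∧ Alv C.h C.v C.tb C.p q u)) w) ≤
      CT.ix C.Lam s + CT.ix C.Lam s := by
  have h1 := RarC.exact_new (h := C.h) C.tb C.codes (C.d1_pos ka) (C.d1_le ka) (C.kb_pos ka) C.d0_pos C.d0_le C.d0_pos
    C.p1_pos (C.z_pos ka) C.n1 C.N11 C.R C.H hbc hbd hcd N.lam3 (lt_of_lt_of_le (by have := N.y0; positivity) hy) N.K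
    hB hBal hA hC hm hmL (lt_of_lt_of_le (N.hy eta he) hy)
  refine h1.trans (add_le_add ?_ (N.e 800 (by norm_num)))
  exact (mul_le_mul_of_nonneg_left hV (Real.exp_pos _).le).trans (N.V V hVe)

/-- **NODE, SUM OVER THE STEPS** -/
theorem node_sumC (N : RN C sq s) (o : Option (Fin 3)) {y eta : ℝ} (hy : CT.ix C.Lam sq / 8 ≤ y)
    (he : eta ≤ 4 ^ 8 * CT.ix C.Lam (2 * sq))
    {B : ℕ → C.O → Prop} (hB : ∀ e ≤ 5 * C.T, Sn C.tb C.v e (B e)) (hBal : ∀ e w, B e w → Alv C.h C.v C.tb C.p e w)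
    {A F : ℕ → C.O → Prop} (hA : ∀ q < 5 * C.T, ∀ w, C.tb.Ps.p w ≠ 0 → ((A q w ∧ Alv C.h C.v C.tb C.p q w) ↔
      (At' C.tb C.v (RarN.tauO (C.U ka) o q) B w ∧ Alv C.h C.v C.tb C.p q w)))
    (hC : ∀ q < 5 * C.T, Fac (NPo C.tb C.v (q + 1)) (F q))
    (hCl : ∀ q < 5 * C.T, q % 5 = 1 → ∀ w, C.tb.Ps.p w ≠ 0 → F q w → hz C.tb C.v (q / 5) w)
    (hm : ∀ q < 5 * C.T, ∀ w, C.tb.Ps.p w ≠ 0 → F q w → RarN.okq C.tb C.v (lr C.Lam sq C.c0) q w →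
      C.tb.Ps.ce (NPo C.tb C.v q) (fun u => ind (A q u ∧ Alv C.h C.v C.tb C.p q u)) w ≤ eta)
    {V : ℝ} (hV : ∑ q ∈ range (5 * C.T), C.tb.Ps.Pr (F q) ≤ V) (hVe : V ≤ Real.exp (pw C.Lam (15 * C.c0))) :
    ∑ q ∈ range (5 * C.T), C.tb.Ps.Pr (fun w => F q w ∧
        y ≤ C.tb.Ps.ce (sgt C.D ∅ (TP.nn (q + 1))) (fun u => ind (A q u ∧ Alv C.h C.v C.tb C.p q u)) w) ≤
      CT.ix C.Lam s + CT.ix C.Lam s := by
  have h0 := N.hy eta he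
  have h1 := RarN.node_sum (h := C.h) (tb := C.tb) C.codes (C.d1_pos ka) (C.d1_le ka) (C.kb_pos ka) C.d0_pos C.d0_le C.d0_pos
    C.p1_pos (C.z_pos ka) C.n1 C.N11 C.R C.H N.X0 N.lam2 (L1 := pw C.Lam (16 * C.c0)) (eta := eta) (y := y)
    (CT.pw_pos C.hL _).le o
    hB hBal hA hC hCl hm (by have := N.y0; linarith)
  refine h1.trans (add_le_add ?_ (N.e 160 (by norm_num)))
  exact (mul_le_mul_of_nonneg_left hV (Real.exp_pos _).le).trans (N.V V hVe)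

/-- **NODE, SUM OVER THE STATES** -/
theorem node_newC (N : RN C sq s) (o : Option (Fin 3)) {y eta : ℝ} (hy : CT.ix C.Lam sq / 8 ≤ y)
    (he : eta ≤ 4 ^ 8 * CT.ix C.Lam (2 * sq))
    {B : ℕ → C.O → Prop} (hB : ∀ e ≤ 5 * C.T, Sn C.tb C.v e (B e)) (hBal : ∀ e w, B e w → Alv C.h C.v C.tb C.p e w)
    {A F : ℕ → C.O → Prop} (hA : ∀ q ≤ 5 * C.T, ∀ w, C.tb.Ps.p w ≠ 0 → ((A q w ∧ Alv C.h C.v C.tb C.p q w) ↔
      (At' C.tb C.v (RarN.tauO (C.U ka) o q) B w ∧ Alv C.h C.v C.tb C.p q w)))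
    (hC : ∀ q ≤ 5 * C.T, Fac (NPo C.tb C.v q) (F q))
    (hm : ∀ q ≤ 5 * C.T, ∀ w, C.tb.Ps.p w ≠ 0 → F q w → RarN.okq C.tb C.v (lr C.Lam sq C.c0) q w →
      C.tb.Ps.ce (NPo C.tb C.v q) (fun u => ind (A q u ∧ Alv C.h C.v C.tb C.p q u)) w ≤ eta)
    {V : ℝ} (hV : ∑ q ∈ range (5 * C.T + 1), C.tb.Ps.Pr (F q) ≤ V) (hVe : V ≤ Real.exp (pw C.Lam (15 * C.c0))) :
    ∑ q ∈ range (5 * C.T + 1), C.tb.Ps.Pr (fun w => F q w ∧
        y ≤ C.tb.Ps.ce (sgt C.D ∅ (TP.nn q)) (fun u => ind (A q u ∧ Alv C.h C.v C.tb C.p q u)) w) ≤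
      CT.ix C.Lam s + CT.ix C.Lam s := by
  have h0 := N.hy eta he
  have h1 := RarN.node_new (h := C.h) (tb := C.tb) C.codes (C.d1_pos ka) (C.d1_le ka) (C.kb_pos ka) C.d0_pos C.d0_le C.d0_pos
    C.p1_pos (C.z_pos ka) C.n1 C.N11 C.R C.H N.X0 N.lam2 (L1 := pw C.Lam (16 * C.c0)) (eta := eta) (y := y)
    (CT.pw_pos C.hL _).le o
    hB hBal hA hC hm (by have := N.y0; linarith)
  refine h1.trans (add_le_add ?_ (N.e 160 (by norm_num)))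
  exact (mul_le_mul_of_nonneg_left hV (Real.exp_pos _).le).trans (N.V V hVe)

end

end Pool.Agent.GMH.CX
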