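import Pool.Agent.GMH.ConM
import Pool.Agent.GMH.Bal

/-!
# GMH.ConS: the synergy of HARM(K) from the balance of the potential (helper30)

* `MP_joint`, `MP_joint_le` : exact balance of a JOINT addition `V` to all labels of a family (any finite poset with smallest
  element `o`): `M - M' = ∑_(j ≠ o) (gain_j - cost_j) - I(L; V_o | L_o, W) + H(V | L, V_o, W) ≤ ∑_(j ≠ o) gain_j`;
* `p` = down-closed predicate on index sets, `p ∅`, not `p univ`; `LP p L` = the family on `{J // p J}`;
  `Mt h v p t = MP (D.P h t) (LP p (LL (Um v (t+1)))) ∅ (WW D t)` = potential after the additions of the time `t`,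
  `ls h v p t` = loss of the additions of the time `t`, `bg` = growth by the new letters;
* `rho_sum` : EXACT: `∑_(t<T) E rho_t = M_T - M_0 + ∑_(t<T) ls (t+1) - ∑_(t<T) bg t`; `bg_nonneg`; `bg_zero` (no top label);
* `ls_le` : `ls t ≤ ∑_(p J, J ≠ ∅) gain (D.P h t) (BB D t) (LL (Um v t)) (Vt v t) J`;
* `level_bad` : one level, any event `G` of everything known:
  `E 1_G (b - ex)^2 ≤ 2 (E rho + E 1_G log Z + ∑_j E 1_(not G) (log (1 + D u_j) - log (1 + D u'_j)))`;
* `conS` : the item syn of `Harm.Concl` for `UU v`.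
-/

set_option autoImplicit false
set_option linter.unusedSectionVars false

namespace Pool.Agent.GMH

open Finset Pool.Agent.PWZ Pool.Agent.M3 Pool.Agent.GM Pool.Agent.GM.Harm

/-! ## joint additions -/

section joint

variable {Om : Type*} [Fintype Om] (P : FP Om) {ι υ ν υ' κ : Type*} [Fintype ι] [PartialOrder ι]

/-- gain at `j` of the additions below `j` -/
noncomputable def gnB (L : ι → Om → υ) (V : ι → Om → ν) (W : Om → κ) (j : ι) : ℝ :=
  P.I (L j) (bel V j) (fun w => (bel L j w, W w))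

/-- cost of the addition at `j` -/
noncomputable def csB (L : ι → Om → υ) (V : ι → Om → ν) (W : Om → κ) (j : ι) : ℝ :=
  P.Hc (V j) (fun w => (bel V j w, ble L j w, W w))

/-- `L'` = the labels with the additions `V` -/
structure AddAll (L : ι → Om → υ) (V : ι → Om → ν) (L' : ι → Om → υ') : Prop where
  fw : ∀ i, Fac (fun w => (L i w, V i w)) (L' i)
  bw : ∀ i, Fac (L' i) (fun w => (L i w, V i w))

variable {P} {L : ι → Om → υ} {V : ι → Om → ν} {L' : ι → Om → υ'}

theorem AddAll.eq (h : AddAll L V L') {i : ι} {a b : Om} : L' i a = L' i b ↔ L i a = L i b ∧ V i a = V i b := by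
  constructor
  · intro hab
    have := h.bw i a b hab
    simpa only [Prod.mk.injEq] using this
  · intro hab
    exact h.fw i a b (by simp only [Prod.mk.injEq]; exact hab)

theorem bel_iff {L : ι → Om → υ} {j : ι} {a b : Om} : bel L j a = bel L j b ↔ ∀ i, i < j → L i a = L i b := by
  classical
  constructor
  · intro h i hi
    exact bel_fac hi a b h
  · intro h
    funext i
    unfold bel
    by_cases hi : i < j
    · rw [if_pos hi, if_pos hi, h i hi]
    · rw [if_neg hi, if_neg hi]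

theorem ble_iff {L : ι → Om → υ} {j : ι} {a b : Om} : ble L j a = ble L j b ↔ L j a = L j b ∧ bel L j a = bel L j b := by
  classical
  rw [bel_iff]
  constructor
  · intro h
    exact ⟨ble_fac le_rfl a b h, fun i hi => ble_fac hi.le a b h⟩
  · rintro ⟨h1, h2⟩
    funext i
    unfold ble
    by_cases hi : i ≤ j
    · rw [if_pos hi, if_pos hi]
      rcases hi.lt_or_eq with h | h
      · rw [h2 i h]
      · rw [h, h1]
    · rw [if_neg hi, if_neg hi]

theorem all_iff {L : ι → Om → υ} {a b : Om} : all L a = all L b ↔ ∀ i, L i a = L i b := by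
  unfold all
  exact funext_iff

theorem AddAll.bel (h : AddAll L V L') {j : ι} {a b : Om} :
    bel L' j a = bel L' j b ↔ bel L j a = bel L j b ∧ bel V j a = bel V j b := by
  rw [bel_iff, bel_iff, bel_iff]
  constructor
  · intro hab
    exact ⟨fun i hi => (h.eq.1 (hab i hi)).1, fun i hi => (h.eq.1 (hab i hi)).2⟩
  · rintro ⟨h1, h2⟩ i hi
    exact h.eq.2 ⟨h1 i hi, h2 i hi⟩

theorem AddAll.all (h : AddAll L V L') {a b : Om} :
    all L' a = all L' b ↔ all L a = all L b ∧ all V a = all V b := by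
  rw [all_iff, all_iff, all_iff]
  constructor
  · intro hab
    exact ⟨fun i => (h.eq.1 (hab i)).1, fun i => (h.eq.1 (hab i)).2⟩
  · rintro ⟨h1, h2⟩ i
    exact h.eq.2 ⟨h1 i, h2 i⟩

theorem Hc_joint (h : AddAll L V L') (W : Om → κ) (j : ι) :
    P.Hc (L' j) (fun w => (bel L' j w, W w)) =
      P.Hc (L j) (fun w => (bel L j w, W w)) - gnB P L V W j + csB P L V W j := by
  have h1 := step_gen P (L j) (V j) (bel L j) (bel V j) W
  have e1 : P.Hc (L' j) (fun w => (bel L' j w, W w)) =
      P.Hc (fun w => (L j w, V j w)) (fun w => ((bel L j w, bel V j w), W w)) := by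
    refine P.Hc_congr ?_ ?_ ?_ ?_
    · intro a b hab; simp only [Prod.mk.injEq, h.eq] at hab ⊢; exact hab.1
    · intro a b hab; simp only [Prod.mk.injEq, h.bel] at hab ⊢; exact hab
    · intro a b hab; simp only [Prod.mk.injEq, h.eq] at hab ⊢; exact hab.1
    · intro a b hab; simp only [Prod.mk.injEq, h.bel] at hab ⊢; exact hab
  have e2 : P.Hc (V j) (fun w => (bel V j w, (L j w, bel L j w), W w)) = csB P L V W j := by
    unfold csB
    refine P.Hc_congr_right (V j) ?_ ?_
    · intro a b hab; simp only [Prod.mk.injEq, ble_iff] at hab ⊢; exact hab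
    · intro a b hab; simp only [Prod.mk.injEq, ble_iff] at hab ⊢; exact hab
  rw [e1, h1, e2]
  rfl

/-- **EXACT BALANCE OF A JOINT ADDITION** -/
theorem MP_joint [DecidableEq ι] {o : ι} (h : AddAll L V L') (W : Om → κ) :
    MP P L o W - MP P L' o W = ∑ j ∈ univ.erase o, (gnB P L V W j - csB P L V W j) -
      P.I (all L) (V o) (fun w => (L o w, W w)) + P.Hc (all V) (fun w => (V o w, (all L w, L o w), W w)) := by
  have h1 := step_gen P (all L) (all V) (L o) (V o) W
  have e1 : P.Hc (all L') (fun w => (L' o w, W w)) =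
      P.Hc (fun w => (all L w, all V w)) (fun w => ((L o w, V o w), W w)) := by
    refine P.Hc_congr ?_ ?_ ?_ ?_
    · intro a b hab; simp only [Prod.mk.injEq, h.all] at hab ⊢; exact hab.1
    · intro a b hab; simp only [Prod.mk.injEq, h.eq] at hab ⊢; exact hab
    · intro a b hab; simp only [Prod.mk.injEq, h.all] at hab ⊢; exact hab.1
    · intro a b hab; simp only [Prod.mk.injEq, h.eq] at hab ⊢; exact hab
  unfold MP
  have hE : (univ.erase o : Finset ι) = @Finset.erase ι (fun a b => Classical.propDecidable (a = b)) univ o := by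
    ext i; simp
  rw [← hE, e1, h1, Finset.sum_congr rfl fun j _ => Hc_joint h W j, Finset.sum_add_distrib, Finset.sum_sub_distrib,
    Finset.sum_sub_distrib]
  ring

/-- **the loss is at most the sum of the gains** -/
theorem MP_joint_le [DecidableEq ι] {o : ι} (h : AddAll L V L') (W : Om → κ) :
    MP P L o W - MP P L' o W ≤ ∑ j ∈ univ.erase o, gnB P L V W j := by
  classical
  rw [MP_joint h W, Finset.sum_sub_distrib]
  have h1 := P.I_nonneg (all L) (V o) (fun w => (L o w, W w))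
  have h2 := fam_le P (L := V) (o := o) (fun w => ((all L w, L o w), W w)) _ (univ.erase o) rfl
    (Finset.notMem_erase o univ) (by
    intro j _ i _
    by_cases hi : i = o
    · exact Or.inr hi
    · exact Or.inl (Finset.mem_erase.2 ⟨hi, Finset.mem_univ _⟩))
  have h3 : P.Hc (all V) (fun w => (V o w, (all L w, L o w), W w)) ≤
      P.Hc (fam V (univ.erase o)) (fun w => (V o w, (all L w, L o w), W w)) := by
    refine P.Hc_mono _ ?_
    intro a b hab
    simp only [Prod.mk.injEq] at hab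
    rw [all_iff]
    intro i
    by_cases hi : i = o
    · rw [hi]; exact hab.2.1
    · exact fam_fac (Finset.mem_erase.2 ⟨hi, Finset.mem_univ _⟩) a b hab.1
  have h4 : ∑ j ∈ univ.erase o, P.Hc (V j) (fun w => (bel V j w, (all L w, L o w), W w)) ≤
      ∑ j ∈ univ.erase o, csB P L V W j := by
    refine Finset.sum_le_sum fun j _ => ?_
    unfold csB
    refine P.Hc_anti (V j) ?_
    intro a b hab
    simp only [Prod.mk.injEq, ble_iff, bel_iff, all_iff] at hab ⊢
    exact ⟨hab.1, ⟨hab.2.1.1 j, fun i _ => hab.2.1.1 i⟩, hab.2.2⟩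
  linarith

end joint

/-! ## one level: good and bad events -/

section level

variable {Om : Type*} [Fintype Om] (P : FP Om) {ι υ κ : Type*} [Fintype ι] [PartialOrder ι] [DecidableEq ι]
  {D : Om → ℝ} (hD : ∀ w, P.p w ≠ 0 → D w = 1 ∨ D w = -1)

include hD

/-- the relative entropy of the digit given everything with respect to the class, on an event of everything known -/
theorem kl_class (L : ι → Om → υ) (o : ι) (W : Om → κ) {G : Om → Prop}
    (hG : ∀ v w, (all L v, W v) = (all L w, W w) → (G v ↔ G w)) :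
    0 ≤ P.E (fun w => ind (G w) * (Real.log (1 + D w * ba P D L W w) - Real.log (1 + D w * bm P D L o W w))) := by
  classical
  have hD1 : ∀ w, P.p w ≠ 0 → |D w| ≤ 1 := fun w hw => by
    rcases hD w hw with h | h <;> rw [h] <;> norm_num
  have fm : Fac (fun v => (all L v, W v)) (bm P D L o W) := by
    intro v w hv
    simp only [Prod.mk.injEq] at hv
    exact P.ce_fac _ _ v w (by simp only [Prod.mk.injEq]; exact ⟨congrFun hv.1 o, hv.2⟩)
  have key := expert_kl P (A := fun v => (all L v, W v)) (D := D) (S := (∅ : Finset ι)) (m0 := bm P D L o W)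
    (u := fun _ _ => 0) (u' := fun _ _ => 0) (G := G) hD fm (fun _ h => absurd h (Finset.notMem_empty _))
    (fun _ h => absurd h (Finset.notMem_empty _)) hG (fun _ _ _ h => absurd h (Finset.notMem_empty _))
    (fun w hw => P.abs_ce_le_one hD1 _ w) (fun _ _ _ h => absurd h (Finset.notMem_empty _))
    (fun w hw => P.digit_pos hD _ hw) (fun _ _ _ h => absurd h (Finset.notMem_empty _))
  have e : ∀ x : ℝ, ex x (∅ : Finset ι) (fun _ => 0) (fun _ => 0) = x := by
    intro x
    unfold ex Rp Rm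
    rw [Finset.prod_empty, Finset.prod_empty]
    ring
  simp only [e] at key
  have h0 : 0 ≤ P.E (fun w => ind (G w) * (P.ce (fun v => (all L v, W v)) D w - bm P D L o W w) ^ 2) :=
    P.E_nonneg fun w _ => mul_nonneg (ind_nonneg _) (sq_nonneg _)
  have h1 := h0.trans key
  unfold ba
  linarith

/-- **ONE LEVEL** -/
theorem level_bad (L : ι → Om → υ) (o : ι) (W : Om → κ) (G : Om → Prop)
    (hG : ∀ v w, (all L v, W v) = (all L w, W w) → (G v ↔ G w))
    (hGu : ∀ w, G w → ∀ j, j ≠ o → |bl P D L W j w| ≤ 1 / 2) :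
    P.E (fun w => ind (G w) * (ba P D L W w - bx P D L o W w) ^ 2) ≤
      2 * (P.E (rho P D L o W) + P.E (fun w => ind (G w) * Real.log (zz P D L o W w)) +
        ∑ j ∈ univ.erase o, P.E (fun w => ind (¬ G w) *
          (Real.log (1 + D w * bu P D L W j w) - Real.log (1 + D w * bl P D L W j w)))) := by
  classical
  have h1 := rho_ex P hD L o W G hG hGu
  have h2 := kl_class P hD L o W (G := fun w => ¬ G w) (fun v w h => not_congr (hG v w h))
  have e1 : P.E (fun w => ind (G w) * (rho P D L o W w + Real.log (zz P D L o W w))) =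
      P.E (fun w => ind (G w) * rho P D L o W w) + P.E (fun w => ind (G w) * Real.log (zz P D L o W w)) := by
    rw [← P.E_add]
    exact P.E_congr fun w _ => by ring
  have hE : (univ.erase o : Finset ι) = @Finset.erase ι (fun a b => Classical.propDecidable (a = b)) univ o := by
    ext i; simp
  have e2 : P.E (rho P D L o W) = P.E (fun w => ind (G w) * rho P D L o W w) +
      P.E (fun w => ind (¬ G w) * rho P D L o W w) := by
    rw [← P.E_add]
    refine P.E_congr fun w _ => ?_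
    by_cases hg : G w
    · rw [ind_of hg, ind_not (not_not.2 hg)]; ring
    · rw [ind_not hg, ind_of hg]; ring
  have e3 : P.E (fun w => ind (¬ G w) * rho P D L o W w) =
      P.E (fun w => ind (¬ G w) * (Real.log (1 + D w * ba P D L W w) - Real.log (1 + D w * bm P D L o W w))) -
        ∑ j ∈ univ.erase o, P.E (fun w => ind (¬ G w) *
          (Real.log (1 + D w * bu P D L W j w) - Real.log (1 + D w * bl P D L W j w))) := by
    rw [← P.E_sum, ← P.E_sub]
    refine P.E_congr fun w _ => ?_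
    unfold rho
    rw [← hE, ← Finset.mul_sum]
    ring
  linarith

end level

/-! ## down-closed families of index sets -/

section down

variable {Om K υ : Type*} [Fintype Om] [Fintype K] [DecidableEq K] {p : Finset K → Prop} [DecidablePred p]

/-- the labels of the index sets with `p` -/
def LP (p : Finset K → Prop) (L : Finset K → Om → υ) (i : {J // p J}) (w : Om) : υ := L i.1 w

theorem LP_bel (hp : ∀ I J : Finset K, I ⊆ J → p J → p I) {L : Finset K → Om → υ} {J : {J // p J}} {a b : Om} :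
    bel (LP p L) J a = bel (LP p L) J b ↔ lo L J.1 a = lo L J.1 b := by
  rw [bel_iff, lo_eq]
  constructor
  · intro h I hI
    exact h ⟨I, hp I J.1 hI.subset J.2⟩ hI
  · intro h I hI
    exact h I.1 hI

theorem LP_ble (hp : ∀ I J : Finset K, I ⊆ J → p J → p I) {L : Finset K → Om → υ} {J : {J // p J}} {a b : Om} :
    ble (LP p L) J a = ble (LP p L) J b ↔ le L J.1 a = le L J.1 b := by
  rw [ble_iff, LP_bel hp, le_eq']
  rfl

end down

/-! ## the process -/

section proc

variable {K X β γ φ υ : Type} [Fintype K] [DecidableEq K] [Fintype X] [Fintype β] [Fintype φ] [Nonempty X] [Nonempty β]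
  {D : HD K X β γ φ} {al : ℝ} (h : D.Thick al) {dg : ℕ → X → ℝ} {prr : ℕ → K → φ → φ} {T : ℕ} {Lam : ℝ}
  (v : ℕ → Finset K → X → (K → β) → υ) {p : Finset K → Prop} [DecidablePred p] (h0 : p ∅) {t : ℕ}

/-- the smallest index set -/
def o0 (h0 : p ∅) : {J // p J} := ⟨∅, h0⟩

theorem o0_le (i : {J // p J}) : o0 h0 ≤ i := Finset.empty_subset i.1

/-- the potential after the additions of the time `t` -/
noncomputable def Mt (t : ℕ) : ℝ := MP (D.P h t) (LP p (LL (Um v (t + 1)))) (o0 h0) (WW D t)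

/-- the potential before the additions of the time `t` -/
noncomputable def Mo (t : ℕ) : ℝ := MP (D.P h t) (LP p (LL (Um v t))) (o0 h0) (WW D t)

/-- the potential after the digit of the time `t` -/
noncomputable def Md (t : ℕ) : ℝ := MP (D.P h t) (LP p (LL (Um v (t + 1)))) (o0 h0) (WW D (t + 1))

/-- loss of the additions of the time `t` -/
noncomputable def ls (t : ℕ) : ℝ := Mo h v h0 t - Mt h v h0 t

/-- growth by the letters of the time `t + 1` -/
noncomputable def bg (t : ℕ) : ℝ := Mo h v h0 (t + 1) - Md h v h0 t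

theorem Mt_nonneg (t : ℕ) : 0 ≤ Mt h v h0 t := MP_nonneg (D.P h t) _ (o0_le h0) _

theorem WW_succ (H : D.Hyp dg prr al T Lam) (ht : t < T) {a b : Pt K X β φ} :
    WW D (t + 1) a = WW D (t + 1) b ↔ dg t a.1 = dg t b.1 ∧ WW D t a = WW D t b := by
  rw [WW_eq, WW_eq, H.dg_cell t ht a.1 b.1]
  tauto

/-- the digit -/
theorem Md_eq (H : D.Hyp dg prr al T Lam) (ht : t < T) : Md h v h0 t - Mt h v h0 t =
    (D.P h t).E (rho (D.P h t) (fun w => dg t w.1) (LP p (LL (Um v (t + 1)))) (o0 h0) (WW D t)) := by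
  rw [← MP_rho (D.P h t) (fun w _ => H.dg_val t w.1)]
  unfold Md Mt
  congr 1
  refine MP_congr (D.P h t) (o0 h0) (fun _ => Fac.refl _) (fun _ => Fac.refl _) ?_ ?_
  · intro a b hab
    simp only [Prod.mk.injEq]
    exact (WW_succ H ht).1 hab
  · intro a b hab
    simp only [Prod.mk.injEq] at hab
    exact (WW_succ H ht).2 hab

/-- the law of the time `t` as an image of the law of the time `t + 1` -/
theorem Md_push (hpr : ∀ l x y F, D.kf t l x y F = ∑ F', ind (prr t l F' = F) * D.kf (t + 1) l x y F') :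
    Md h v h0 t = MP (D.P h (t + 1)) (fun i w => LP p (LL (Um v (t + 1))) i (old prr t w)) (o0 h0) (WW D (t + 1)) := by
  unfold Md MP
  congr 1
  · refine Finset.sum_congr rfl fun j _ => ?_
    exact (push_Hc h hpr (LP p (LL (Um v (t + 1))) j) (fun w => (bel (LP p (LL (Um v (t + 1)))) j w, WW D (t + 1) w))).symm
  · exact (push_Hc h hpr (all (LP p (LL (Um v (t + 1)))))
      (fun w => (LP p (LL (Um v (t + 1))) (o0 h0) w, WW D (t + 1) w))).symm

/-- the letters of `J` -/
def ltr (J : Finset K) (w : Pt K X β φ) : K → Option φ := fun l => if univ.erase l = J then some (w.2.2 l) else none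

theorem ltr_eq {J : Finset K} {a b : Pt K X β φ} : ltr J a = ltr J b ↔ ∀ l, univ.erase l = J → a.2.2 l = b.2.2 l := by
  unfold ltr
  rw [funext_iff]
  refine forall_congr' fun l => ?_
  by_cases hl : univ.erase l = J
  · simp [hl]
  · simp [hl]

/-- new letters only increase the potential -/
theorem bg_nonneg (hu : ¬ p univ)
    (hpr : ∀ l x y F, D.kf t l x y F = ∑ F', ind (prr t l F' = F) * D.kf (t + 1) l x y F') :
    0 ≤ bg h v h0 t := by
  classical
  have hA : AddAll (fun (i : {J // p J}) w => LP p (LL (φ := φ) (Um v (t + 1))) i (old prr t w)) (fun i w => ltr i.1 w)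
      (LP p (LL (Um v (t + 1)))) := by
    refine ⟨fun i a b hab => ?_, fun i a b hab => ?_⟩
    · simp only [Prod.mk.injEq, ltr_eq] at hab
      have h1 := hab.1
      unfold LP at h1 ⊢
      rw [LL_eq] at h1 ⊢
      exact ⟨h1.1, hab.2⟩
    · unfold LP at hab ⊢
      rw [LL_eq] at hab
      simp only [Prod.mk.injEq, ltr_eq, LL_eq]
      exact ⟨⟨hab.1, fun l hl => congrArg (prr t l) (hab.2 l hl)⟩, hab.2⟩
  have h1 := MP_joint_le (P := D.P h (t + 1)) (o := o0 h0) hA (WW D (t + 1))
  have h2 : ∀ j ∈ univ.erase (o0 h0), gnB (D.P h (t + 1)) (fun (i : {J // p J}) w =>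
      LP p (LL (Um v (t + 1))) i (old prr t w)) (fun i w => ltr i.1 w) (WW D (t + 1)) j = 0 := by
    intro j _
    have hj : j.1 ≠ univ := fun hh => hu (hh ▸ j.2)
    unfold gnB
    have hc : ∀ a b : Pt K X β φ, bel (fun (i : {J // p J}) w => ltr (φ := φ) i.1 w) j a =
        bel (fun (i : {J // p J}) w => ltr i.1 w) j b := by
      intro a b
      rw [bel_iff]
      intro i hi
      rw [ltr_eq]
      exact fun l hl => absurd hl (lt_no hj hi)
    have e1 := (D.P h (t + 1)).I_congr (X := fun w => LP p (LL (Um v (t + 1))) j (old prr t w))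
      (w := bel (fun (i : {J // p J}) w => ltr (φ := φ) i.1 w) j) (w' := fun _ => ())
      (Z := fun w => (bel (fun (i : {J // p J}) w => LP p (LL (Um v (t + 1))) i (old prr t w)) j w, WW D (t + 1) w))
      (Fac.const _ ()) (fun a b _ => hc a b)
    rw [e1, FP.I_eq_Hc, (D.P h (t + 1)).Hc_congr_right _ (Fac.snd _ _) ((Fac.const _ ()).prod (Fac.refl _)), sub_self]
  rw [Finset.sum_eq_zero h2] at h1
  unfold bg
  rw [Md_push h v h0 hpr]
  unfold Mo
  linarith

/-- no letters in the family -/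
theorem bg_zero (hl : ∀ l : K, ¬ p (univ.erase l))
    (hpr : ∀ l x y F, D.kf t l x y F = ∑ F', ind (prr t l F' = F) * D.kf (t + 1) l x y F') :
    bg h v h0 t = 0 := by
  unfold bg
  rw [Md_push h v h0 hpr]
  unfold Mo
  rw [sub_eq_zero]
  refine MP_congr _ (o0 h0) ?_ ?_ (Fac.refl _) (Fac.refl _)
  · intro i a b hab
    unfold LP at hab ⊢
    rw [LL_eq] at hab ⊢
    exact ⟨hab.1, fun l hl' => congrArg (prr t l) (hab.2 l hl')⟩
  · intro i a b hab
    unfold LP at hab ⊢
    rw [LL_eq] at hab ⊢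
    exact ⟨hab.1, fun l hl' => absurd (hl' ▸ i.2) (hl l)⟩

/-- **THE EXACT SUM** -/
theorem rho_sum (H : D.Hyp dg prr al T Lam) :
    ∑ t ∈ range T, (D.P h t).E (rho (D.P h t) (fun w => dg t w.1) (LP p (LL (Um v (t + 1)))) (o0 h0) (WW D t)) =
      Mt h v h0 T - Mt h v h0 0 + ∑ t ∈ range T, ls h v h0 (t + 1) - ∑ t ∈ range T, bg h v h0 t := by
  have h1 : ∀ t ∈ range T,
      (D.P h t).E (rho (D.P h t) (fun w => dg t w.1) (LP p (LL (Um v (t + 1)))) (o0 h0) (WW D t)) =
      (Mt h v h0 (t + 1) - Mt h v h0 t) + ls h v h0 (t + 1) - bg h v h0 t := by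
    intro t ht
    rw [← Md_eq h v h0 H (Finset.mem_range.1 ht)]
    unfold ls bg
    ring
  rw [Finset.sum_congr rfl h1, Finset.sum_sub_distrib, Finset.sum_add_distrib, Finset.sum_range_sub (fun t => Mt h v h0 t)]

variable {v} in
/-- the classes at `J` see the hidden point and the points of `J` -/
theorem LL_AA (hv : Codes D v) {s n : ℕ} (hn : n ≤ s + 1) {I J : Finset K} (hI : I ⊆ J) :
    Fac (fun w : Pt K X β φ => (AA J w, BB D s J w)) (LL (Um v n) I) := by
  intro a b hab
  simp only [Prod.mk.injEq, AA_eq, BB_eq] at hab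
  rw [LL_eq]
  refine ⟨?_, fun l hl => hab.1.2 l (by rw [hl]; exact hI)⟩
  unfold Um
  rw [List.map_inj_left]
  intro r hr
  have hr' : r ≤ s := by have := List.mem_range.1 hr; omega
  rw [← hab.1.1]
  exact hv r I a.1 a.2.1 b.2.1 (fun j hj => hab.2.1 j (hI hj)) fun j => qb_mono D hr' (hab.2.2.2 j)

variable {v} in
theorem Vt_AA (hv : Codes D v) {s : ℕ} {I J : Finset K} (hI : I ⊆ J) :
    Fac (fun w : Pt K X β φ => (AA J w, BB D s J w)) (Vt v s I) := by
  intro a b hab
  simp only [Prod.mk.injEq, AA_eq, BB_eq] at hab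
  unfold Vt
  rw [← hab.1.1]
  exact hv s I a.1 a.2.1 b.2.1 (fun j hj => hab.2.1 j (hI hj)) fun j => hab.2.2.2 j

variable {v} in
/-- the gains with the base `y, node` are the gains of GMH.Psi -/
theorem gnB_eq (hv : Codes D v) (hp : ∀ I J : Finset K, I ⊆ J → p J → p I) (j : {J // p J}) :
    gnB (D.P h t) (LP p (LL (Um v t))) (LP p (Vt v t)) (WW D t) j =
      gain (D.P h t) (BB D t) (LL (Um v t)) (Vt v t) j.1 := by
  have hL : ∀ I ⊆ j.1, Fac (fun w : Pt K X β φ => (AA j.1 w, BB D t j.1 w)) (LL (Um v t) I) :=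
    fun I hI => LL_AA hv (by omega) hI
  have hlo : Fac (fun w : Pt K X β φ => (AA j.1 w, BB D t j.1 w)) (lo (LL (Um v t)) j.1) := by
    intro a b hab
    rw [lo_eq]
    exact fun I hI => hL I hI.subset a b hab
  have hV : Fac (fun w : Pt K X β φ => (AA j.1 w, BB D t j.1 w)) (lo (Vt v t) j.1) := by
    intro a b hab
    rw [lo_eq]
    exact fun I hI => Vt_AA hv hI.subset a b hab
  have e0 : gnB (D.P h t) (LP p (LL (Um v t))) (LP p (Vt v t)) (WW D t) j =
      (D.P h t).I (LL (Um v t) j.1) (lo (Vt v t) j.1) (fun w => (lo (LL (Um v t)) j.1 w, WW D t w)) := by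
    unfold gnB
    have e1 := (D.P h t).I_congr (X := LP p (LL (φ := φ) (Um v t)) j) (w := bel (LP p (Vt v t)) j)
      (w' := lo (Vt v t) j.1) (Z := fun w => (bel (LP p (LL (Um v t))) j w, WW D t w))
      (fun a b hab => (LP_bel hp).1 hab) (fun a b hab => (LP_bel hp).2 hab)
    rw [e1]
    refine (D.P h t).I_congr_cond ?_ ?_
    · intro a b hab
      simp only [Prod.mk.injEq, LP_bel hp] at hab ⊢
      exact hab
    · intro a b hab
      simp only [Prod.mk.injEq, LP_bel hp] at hab ⊢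
      exact hab
  rw [e0]
  unfold gain
  rw [FP.I_eq_Hc, FP.I_eq_Hc]
  have e1 := Hc_base h (J := j.1) (t := t) (s := t) le_rfl (T := LL (Um v t) j.1) (R := lo (LL (Um v t)) j.1)
    (hL j.1 (Finset.Subset.refl _)) hlo
  have e2 := Hc_base h (J := j.1) (t := t) (s := t) le_rfl (T := LL (Um v t) j.1)
    (R := fun w => (lo (Vt v t) j.1 w, lo (LL (Um v t)) j.1 w)) (hL j.1 (Finset.Subset.refl _)) (hV.prod hlo)
  have e3 : (D.P h t).Hc (LL (Um v t) j.1) (fun w => ((lo (Vt v t) j.1 w, lo (LL (Um v t)) j.1 w), WW D t w)) =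
      (D.P h t).Hc (LL (Um v t) j.1) (fun w => (lo (Vt v t) j.1 w, lo (LL (Um v t)) j.1 w, WW D t w)) := by
    refine (D.P h t).Hc_congr_right _ ?_ ?_
    · intro a b hab; simp only [Prod.mk.injEq] at hab ⊢; tauto
    · intro a b hab; simp only [Prod.mk.injEq] at hab ⊢; tauto
  have e4 : (D.P h t).Hc (LL (Um v t) j.1) (fun w => ((lo (Vt v t) j.1 w, lo (LL (Um v t)) j.1 w), BB D t j.1 w)) =
      (D.P h t).Hc (LL (Um v t) j.1) (fun w => (lo (Vt v t) j.1 w, lo (LL (Um v t)) j.1 w, BB D t j.1 w)) := by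
    refine (D.P h t).Hc_congr_right _ ?_ ?_
    · intro a b hab; simp only [Prod.mk.injEq] at hab ⊢; tauto
    · intro a b hab; simp only [Prod.mk.injEq] at hab ⊢; tauto
  rw [e1, ← e3, ← e4, e2]

variable {v} in
theorem addAll : AddAll (LP p (LL (φ := φ) (Um v t))) (LP p (Vt v t)) (LP p (LL (Um v (t + 1)))) := by
  refine ⟨fun i a b hab => ?_, fun i a b hab => ?_⟩
  · simp only [Prod.mk.injEq] at hab
    exact LN_fac.2 (pr_eq.2 hab)
  · simp only [Prod.mk.injEq]
    exact pr_eq.1 (LN_fac.1 hab)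

variable {v} in
/-- exact loss -/
theorem ls_eq [DecidableEq {J // p J}] (t : ℕ) : ls h v h0 t = ∑ j ∈ univ.erase (o0 h0),
    (gnB (D.P h t) (LP p (LL (Um v t))) (LP p (Vt v t)) (WW D t) j -
      csB (D.P h t) (LP p (LL (Um v t))) (LP p (Vt v t)) (WW D t) j) -
      (D.P h t).I (all (LP p (LL (Um v t)))) (LP p (Vt v t) (o0 h0)) (fun w => (LP p (LL (Um v t)) (o0 h0) w, WW D t w)) +
      (D.P h t).Hc (all (LP p (Vt v t)))
        (fun w => (LP p (Vt v t) (o0 h0) w, (all (LP p (LL (Um v t))) w, LP p (LL (Um v t)) (o0 h0) w), WW D t w)) :=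
  MP_joint addAll (WW D t)

variable {v} in
/-- **the loss is at most the sum of the gains** -/
theorem ls_le (hv : Codes D v) (hp : ∀ I J : Finset K, I ⊆ J → p J → p I) (t : ℕ) :
    ls h v h0 t ≤ ∑ J ∈ univ.filter (fun J => p J ∧ J ≠ ∅), gain (D.P h t) (BB D t) (LL (Um v t)) (Vt v t) J := by
  classical
  have h1 := MP_joint_le (P := D.P h t) (o := o0 h0) (addAll (v := v) (p := p) (t := t)) (WW D t)
  rw [Finset.sum_congr rfl fun j _ => gnB_eq h hv hp j] at h1
  refine h1.trans (le_of_eq ?_)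
  refine Finset.sum_bij (fun j _ => j.1) ?_ ?_ ?_ (fun _ _ => rfl)
  · intro j hj
    refine Finset.mem_filter.2 ⟨mem_univ _, j.2, fun hh => ?_⟩
    exact (Finset.mem_erase.1 hj).1 (Subtype.ext hh)
  · intro i _ j _ hij
    exact Subtype.ext hij
  · intro J hJ
    obtain ⟨_, h2, h3⟩ := Finset.mem_filter.1 hJ
    exact ⟨⟨J, h2⟩, Finset.mem_erase.2 ⟨fun hh => h3 (congrArg Subtype.val hh), mem_univ _⟩, rfl⟩

/-! ## the whole family -/

variable {v}

theorem kk0 {K : Type} [Fintype K] [DecidableEq K] (hK : (∅ : Finset K) ≠ univ) :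
    (fun J : Finset K => J ≠ univ) ∅ := hK

theorem down_ne (I J : Finset K) (hI : I ⊆ J) (hJ : J ≠ univ) : I ≠ univ := by
  rintro rfl
  exact hJ (Finset.eq_univ_iff_forall.2 fun j => hI (mem_univ j))

variable (v) in
/-- mean given everything -/
theorem ua_ba (w : Pt K X β φ) : ua (UU v) h dg t w =
    ba (D.P h t) (fun w => dg t w.1) (LP (fun J => J ≠ univ) (LL (Um v (t + 1)))) (WW D t) w := by
  unfold ua ba
  refine (D.P h t).ce_congr_map ?_ ?_ _ w
  · intro a b hab
    rw [eA_eq] at hab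
    simp only [Prod.mk.injEq]
    exact hab
  · intro a b hab
    rw [eA_eq]
    simp only [Prod.mk.injEq] at hab
    exact hab

theorem dg_AA {J : Finset K} : Fac (fun w : Pt K X β φ => (AA J w, BB D t J w)) (fun w => dg t w.1) := by
  intro a b hab
  simp only [Prod.mk.injEq, AA_eq] at hab
  show dg t a.1 = dg t b.1
  rw [hab.1.1]

theorem le_AA (hv : Codes D v) (J : Finset K) :
    Fac (fun w : Pt K X β φ => (AA J w, BB D t J w)) (le (LL (Um v (t + 1))) J) := by
  intro a b hab
  rw [le_eq]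
  exact fun I hI => LL_AA hv le_rfl hI a b hab

theorem lo_AA (hv : Codes D v) (J : Finset K) :
    Fac (fun w : Pt K X β φ => (AA J w, BB D t J w)) (lo (LL (Um v (t + 1))) J) := by
  intro a b hab
  rw [lo_eq]
  exact fun I hI => LL_AA hv le_rfl hI.subset a b hab

theorem uu_bu (H : D.Hyp dg prr al T Lam) (hv : Codes D v) {w : Pt K X β φ} (hw : (D.P h t).p w ≠ 0)
    (j : {J : Finset K // J ≠ univ}) : uu (UU v) h dg j.1 t w =
      bu (D.P h t) (fun w => dg t w.1) (LP (fun J => J ≠ univ) (LL (Um v (t + 1)))) (WW D t) j w := by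
  unfold uu bu
  have e1 := ce_base h (J := j.1) (t := t) (s := t) le_rfl (f := fun w : Pt K X β φ => dg t w.1)
    (R := le (LL (Um v (t + 1))) j.1) (fun w _ => H.dg_val t w.1) dg_AA (le_AA hv j.1) hw
  have e2 : (D.P h t).ce (eJ D (UU v) t j.1) (fun v => dg t v.1) w =
      (D.P h t).ce (fun w => (le (LL (Um v (t + 1))) j.1 w, BB D t j.1 w)) (fun v => dg t v.1) w := by
    refine (D.P h t).ce_congr_map ?_ ?_ _ w
    · intro a b hab
      rw [eJ_eq] at hab
      simp only [Prod.mk.injEq]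
      exact hab
    · intro a b hab
      rw [eJ_eq]
      simp only [Prod.mk.injEq] at hab
      exact hab
  have e3 : (D.P h t).ce (fun w => (ble (LP (fun J => J ≠ univ) (LL (Um v (t + 1)))) j w, WW D t w))
      (fun v => dg t v.1) w =
      (D.P h t).ce (fun w => (le (LL (Um v (t + 1))) j.1 w, WW D t w)) (fun v => dg t v.1) w := by
    refine (D.P h t).ce_congr_map ?_ ?_ _ w
    · intro a b hab
      simp only [Prod.mk.injEq, LP_ble (down_ne)] at hab ⊢
      exact hab
    · intro a b hab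
      simp only [Prod.mk.injEq, LP_ble (down_ne)] at hab ⊢
      exact hab
  rw [e2, e3, e1]

theorem ul_bl (H : D.Hyp dg prr al T Lam) (hv : Codes D v) {w : Pt K X β φ} (hw : (D.P h t).p w ≠ 0)
    (j : {J : Finset K // J ≠ univ}) : ul (UU v) h dg j.1 t w =
      bl (D.P h t) (fun w => dg t w.1) (LP (fun J => J ≠ univ) (LL (Um v (t + 1)))) (WW D t) j w := by
  rw [ul_ce h j.2]
  unfold bl
  have e1 := ce_base h (J := j.1) (t := t) (s := t) le_rfl (f := fun w : Pt K X β φ => dg t w.1)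
    (R := lo (LL (Um v (t + 1))) j.1) (fun w _ => H.dg_val t w.1) dg_AA (lo_AA hv j.1) hw
  have e3 : (D.P h t).ce (fun w => (bel (LP (fun J => J ≠ univ) (LL (Um v (t + 1)))) j w, WW D t w))
      (fun v => dg t v.1) w =
      (D.P h t).ce (fun w => (lo (LL (Um v (t + 1))) j.1 w, WW D t w)) (fun v => dg t v.1) w := by
    refine (D.P h t).ce_congr_map ?_ ?_ _ w
    · intro a b hab
      simp only [Prod.mk.injEq, LP_bel (down_ne)] at hab ⊢
      exact hab
    · intro a b hab
      simp only [Prod.mk.injEq, LP_bel (down_ne)] at hab ⊢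
      exact hab
  rw [e3, e1]

theorem mm_bm (H : D.Hyp dg prr al T Lam) (hv : Codes D v) (hK : (∅ : Finset K) ≠ univ) {w : Pt K X β φ}
    (hw : (D.P h t).p w ≠ 0) : mm (UU v) h dg t w =
      bm (D.P h t) (fun w => dg t w.1) (LP (fun J => J ≠ univ) (LL (Um v (t + 1)))) (o0 (kk0 hK)) (WW D t) w := by
  have e1 := uu_bu h H hv hw ⟨∅, hK⟩
  have e2 : mm (UU v) h dg t w = uu (UU v) h dg ∅ t w := rfl
  rw [e2, e1]
  unfold bu bm
  refine (D.P h t).ce_congr_map ?_ ?_ _ w
  · intro a b hab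
    simp only [Prod.mk.injEq, ble_iff] at hab ⊢
    exact ⟨hab.1.1, hab.2⟩
  · intro a b hab
    simp only [Prod.mk.injEq, ble_iff] at hab ⊢
    refine ⟨⟨hab.1, bel_iff.2 fun i hi => ?_⟩, hab.2⟩
    exact absurd hi (Finset.not_ssubset_empty i.1)

/-- sums over the experts -/
theorem sum_SS (hK : (∅ : Finset K) ≠ univ) [DecidableEq {J : Finset K // J ≠ univ}] (f : Finset K → ℝ) :
    ∑ j ∈ univ.erase (o0 (p := fun J => J ≠ univ) (kk0 hK)), f j.1 = ∑ J ∈ SS K, f J := by
  refine Finset.sum_bij (fun j _ => j.1) ?_ ?_ ?_ (fun _ _ => rfl)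
  · intro j hj
    refine Finset.mem_filter.2 ⟨mem_univ _, Finset.nonempty_iff_ne_empty.2 fun hh => ?_, j.2⟩
    exact (Finset.mem_erase.1 hj).1 (Subtype.ext hh)
  · intro i _ j _ hij
    exact Subtype.ext hij
  · intro J hJ
    obtain ⟨_, h2, h3⟩ := Finset.mem_filter.1 hJ
    exact ⟨⟨J, h3⟩, Finset.mem_erase.2 ⟨fun hh => h2.ne_empty (congrArg Subtype.val hh), mem_univ _⟩, rfl⟩

theorem prod_SS (hK : (∅ : Finset K) ≠ univ) [DecidableEq {J : Finset K // J ≠ univ}] (f : Finset K → ℝ) :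
    ∏ j ∈ univ.erase (o0 (p := fun J => J ≠ univ) (kk0 hK)), f j.1 = ∏ J ∈ SS K, f J := by
  refine Finset.prod_bij (fun j _ => j.1) ?_ ?_ ?_ (fun _ _ => rfl)
  · intro j hj
    refine Finset.mem_filter.2 ⟨mem_univ _, Finset.nonempty_iff_ne_empty.2 fun hh => ?_, j.2⟩
    exact (Finset.mem_erase.1 hj).1 (Subtype.ext hh)
  · intro i _ j _ hij
    exact Subtype.ext hij
  · intro J hJ
    obtain ⟨_, h2, h3⟩ := Finset.mem_filter.1 hJ
    exact ⟨⟨J, h3⟩, Finset.mem_erase.2 ⟨fun hh => h2.ne_empty (congrArg Subtype.val hh), mem_univ _⟩, rfl⟩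

/-- the normalisation of the product of the experts in the form of `GM/Harm` -/
noncomputable def zh (U : Finset K → ℕ → X → (K → β) → υ) (h : D.Thick al) (dg : ℕ → X → ℝ) (t : ℕ)
    (w : Pt K X β φ) : ℝ :=
  (Rp (mm U h dg t w) (SS K) (fun J => uu U h dg J t w) (fun J => ul U h dg J t w) +
    Rm (mm U h dg t w) (SS K) (fun J => uu U h dg J t w) (fun J => ul U h dg J t w)) / 2

theorem Rp_eq (H : D.Hyp dg prr al T Lam) (hv : Codes D v) (hK : (∅ : Finset K) ≠ univ)
    [DecidableEq {J : Finset K // J ≠ univ}] {w : Pt K X β φ} (hw : (D.P h t).p w ≠ 0) :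
    Rp (bm (D.P h t) (fun w => dg t w.1) (LP (fun J => J ≠ univ) (LL (Um v (t + 1)))) (o0 (kk0 hK)) (WW D t) w)
      (univ.erase (o0 (p := fun J => J ≠ univ) (kk0 hK)))
      (fun j => bu (D.P h t) (fun w => dg t w.1) (LP (fun J => J ≠ univ) (LL (Um v (t + 1)))) (WW D t) j w)
      (fun j => bl (D.P h t) (fun w => dg t w.1) (LP (fun J => J ≠ univ) (LL (Um v (t + 1)))) (WW D t) j w) =
    Rp (mm (UU v) h dg t w) (SS K) (fun J => uu (UU v) h dg J t w) (fun J => ul (UU v) h dg J t w) := by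
  unfold Rp
  rw [mm_bm h H hv hK hw, ← prod_SS hK]
  congr 1
  exact Finset.prod_congr rfl fun j _ => by beta_reduce; rw [uu_bu h H hv hw j, ul_bl h H hv hw j]

theorem Rm_eq (H : D.Hyp dg prr al T Lam) (hv : Codes D v) (hK : (∅ : Finset K) ≠ univ)
    [DecidableEq {J : Finset K // J ≠ univ}] {w : Pt K X β φ} (hw : (D.P h t).p w ≠ 0) :
    Rm (bm (D.P h t) (fun w => dg t w.1) (LP (fun J => J ≠ univ) (LL (Um v (t + 1)))) (o0 (kk0 hK)) (WW D t) w)
      (univ.erase (o0 (p := fun J => J ≠ univ) (kk0 hK)))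
      (fun j => bu (D.P h t) (fun w => dg t w.1) (LP (fun J => J ≠ univ) (LL (Um v (t + 1)))) (WW D t) j w)
      (fun j => bl (D.P h t) (fun w => dg t w.1) (LP (fun J => J ≠ univ) (LL (Um v (t + 1)))) (WW D t) j w) =
    Rm (mm (UU v) h dg t w) (SS K) (fun J => uu (UU v) h dg J t w) (fun J => ul (UU v) h dg J t w) := by
  unfold Rm
  rw [mm_bm h H hv hK hw, ← prod_SS hK]
  congr 1
  exact Finset.prod_congr rfl fun j _ => by beta_reduce; rw [uu_bu h H hv hw j, ul_bl h H hv hw j]

/-- **ONE LEVEL IN THE FORM OF `GM/Harm`** -/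
theorem level_harm (H : D.Hyp dg prr al T Lam) (hv : Codes D v) (hK : (∅ : Finset K) ≠ univ)
    {G : Pt K X β φ → Prop} (Gm : ∀ a b, eA D (UU v) t a = eA D (UU v) t b → (G a ↔ G b))
    (Gl : ∀ w, G w → ∀ J ∈ SS K, |ul (UU v) h dg J t w| ≤ 1 / 2) :
    (D.P h t).E (fun w => ind (G w) *
      (ua (UU v) h dg t w - exf (SS K) (mm (UU v) h dg) (uu (UU v) h dg) (ul (UU v) h dg) t w) ^ 2) ≤
    2 * ((D.P h t).E (rho (D.P h t) (fun w => dg t w.1) (LP (fun J => J ≠ univ) (LL (Um v (t + 1))))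
        (o0 (kk0 hK)) (WW D t)) +
      (D.P h t).E (fun w => ind (G w) * Real.log (zh (UU v) h dg t w)) +
      ∑ J ∈ SS K, (D.P h t).E (fun w => ind (¬ G w) * (Real.log (1 + dg t w.1 * uu (UU v) h dg J t w) -
        Real.log (1 + dg t w.1 * ul (UU v) h dg J t w)))) := by
  classical
  set L : {J : Finset K // J ≠ univ} → Pt K X β φ → _ := LP (fun J => J ≠ univ) (LL (Um v (t + 1))) with hL
  set o : {J : Finset K // J ≠ univ} := o0 (kk0 hK) with ho
  -- the event where the lower means are small for the version of Bal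
  set G' : Pt K X β φ → Prop := fun w => G w ∧ ∀ j, j ≠ o → |bl (D.P h t) (fun w => dg t w.1) L (WW D t) j w| ≤ 1 / 2
    with hG'
  have hGG : ∀ w, (D.P h t).p w ≠ 0 → (G' w ↔ G w) := by
    intro w hw
    refine ⟨fun hh => hh.1, fun hh => ⟨hh, fun j hj => ?_⟩⟩
    rw [hL, ← ul_bl h H hv hw j]
    refine Gl w hh j.1 (Finset.mem_filter.2 ⟨mem_univ _, Finset.nonempty_iff_ne_empty.2 fun h1 => ?_, j.2⟩)
    exact hj (Subtype.ext h1)
  have hGm : ∀ a b, (all L a, WW D t a) = (all L b, WW D t b) → (G' a ↔ G' b) := by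
    intro a b hab
    simp only [Prod.mk.injEq] at hab
    have h1 : G a ↔ G b := Gm a b (eA_eq.2 hab)
    have h2 : ∀ j, bl (D.P h t) (fun w => dg t w.1) L (WW D t) j a = bl (D.P h t) (fun w => dg t w.1) L (WW D t) j b := by
      intro j
      refine (D.P h t).ce_fac _ _ a b ?_
      simp only [Prod.mk.injEq]
      exact ⟨fac_bel (fun i _ => all_fac i) a b hab.1, hab.2⟩
    show G a ∧ _ ↔ G b ∧ _
    simp only [h1, h2]
  have key := level_bad (D.P h t) (D := fun w => dg t w.1) (fun w _ => H.dg_val t w.1) L o (WW D t) G' hGm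
    (fun w hw => hw.2)
  have hE : (univ.erase o : Finset {J : Finset K // J ≠ univ}) =
      @Finset.erase _ (fun a b => Classical.propDecidable (a = b)) univ o := by
    ext i; simp
  have e1 : (D.P h t).E (fun w => ind (G' w) * (ba (D.P h t) (fun w => dg t w.1) L (WW D t) w -
      bx (D.P h t) (fun w => dg t w.1) L o (WW D t) w) ^ 2) =
      (D.P h t).E (fun w => ind (G w) *
      (ua (UU v) h dg t w - exf (SS K) (mm (UU v) h dg) (uu (UU v) h dg) (ul (UU v) h dg) t w) ^ 2) := by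
    refine (D.P h t).E_congr fun w hw => ?_
    rw [ind_cg (hGG w hw), ua_ba h v w]
    congr 3
    unfold bx exf ex
    rw [← hE, Rp_eq h H hv hK hw, Rm_eq h H hv hK hw]
  have e2 : (D.P h t).E (fun w => ind (G' w) * Real.log (zz (D.P h t) (fun w => dg t w.1) L o (WW D t) w)) =
      (D.P h t).E (fun w => ind (G w) * Real.log (zh (UU v) h dg t w)) := by
    refine (D.P h t).E_congr fun w hw => ?_
    rw [ind_cg (hGG w hw)]
    congr 2
    unfold zz zh
    rw [← hE, Rp_eq h H hv hK hw, Rm_eq h H hv hK hw]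
  have e3 : ∑ j ∈ univ.erase o, (D.P h t).E (fun w => ind (¬ G' w) *
      (Real.log (1 + dg t w.1 * bu (D.P h t) (fun w => dg t w.1) L (WW D t) j w) -
        Real.log (1 + dg t w.1 * bl (D.P h t) (fun w => dg t w.1) L (WW D t) j w))) =
      ∑ J ∈ SS K, (D.P h t).E (fun w => ind (¬ G w) * (Real.log (1 + dg t w.1 * uu (UU v) h dg J t w) -
        Real.log (1 + dg t w.1 * ul (UU v) h dg J t w))) := by
    rw [← sum_SS hK]
    refine Finset.sum_congr rfl fun j _ => (D.P h t).E_congr fun w hw => ?_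
    rw [ind_cg (not_congr (hGG w hw)), uu_bu h H hv hw j, ul_bl h H hv hw j]
  rw [e1, e2, e3] at key
  exact key

/-- **THE SYNERGY** -/
theorem conS (H : D.Hyp dg prr al T Lam) (hv : Codes D v) (hK : (∅ : Finset K) ≠ univ)
    {G : ℕ → Pt K X β φ → Prop} (Gm : ∀ t < T, ∀ a b, eA D (UU v) t a = eA D (UU v) t b → (G t a ↔ G t b))
    (Gl : ∀ t < T, ∀ w, G t w → ∀ J ∈ SS K, |ul (UU v) h dg J t w| ≤ 1 / 2) :
    ∑ t ∈ range T, (D.P h t).E (fun w => ind (G t w) *
      (ua (UU v) h dg t w - exf (SS K) (mm (UU v) h dg) (uu (UU v) h dg) (ul (UU v) h dg) t w) ^ 2) ≤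
    2 * (Mt h v (p := fun J => J ≠ univ) (kk0 hK) T +
      ∑ t ∈ range T, ls h v (p := fun J => J ≠ univ) (kk0 hK) (t + 1) +
      ∑ t ∈ range T, (D.P h t).E (fun w => ind (G t w) * Real.log (zh (UU v) h dg t w)) +
      ∑ t ∈ range T, ∑ J ∈ SS K, (D.P h t).E (fun w => ind (¬ G t w) *
        (Real.log (1 + dg t w.1 * uu (UU v) h dg J t w) - Real.log (1 + dg t w.1 * ul (UU v) h dg J t w)))) := by
  have h1 := Finset.sum_le_sum fun t (ht : t ∈ range T) =>
    level_harm h H hv hK (Gm t (Finset.mem_range.1 ht)) (Gl t (Finset.mem_range.1 ht))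
  rw [← Finset.mul_sum, Finset.sum_add_distrib, Finset.sum_add_distrib, rho_sum h v (kk0 hK) H] at h1
  have h2 := Mt_nonneg h v (p := fun J => J ≠ univ) (kk0 hK) 0
  have h3 : 0 ≤ ∑ t ∈ range T, bg h v (p := fun J => J ≠ univ) (kk0 hK) t :=
    Finset.sum_nonneg fun t ht => bg_nonneg h v (kk0 hK) (fun hh => hh rfl) (H.kf_pr t (Finset.mem_range.1 ht))
  linarith

/-- the same with the gains -/
theorem conS_gain (H : D.Hyp dg prr al T Lam) (hv : Codes D v) (hK : (∅ : Finset K) ≠ univ)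
    {G : ℕ → Pt K X β φ → Prop} (Gm : ∀ t < T, ∀ a b, eA D (UU v) t a = eA D (UU v) t b → (G t a ↔ G t b))
    (Gl : ∀ t < T, ∀ w, G t w → ∀ J ∈ SS K, |ul (UU v) h dg J t w| ≤ 1 / 2) :
    ∑ t ∈ range T, (D.P h t).E (fun w => ind (G t w) *
      (ua (UU v) h dg t w - exf (SS K) (mm (UU v) h dg) (uu (UU v) h dg) (ul (UU v) h dg) t w) ^ 2) ≤
    2 * (Mt h v (p := fun J => J ≠ univ) (kk0 hK) T +
      ∑ t ∈ range T, ∑ J ∈ SS K, gain (D.P h (t + 1)) (BB D (t + 1)) (LL (Um v (t + 1))) (Vt v (t + 1)) J +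
      ∑ t ∈ range T, (D.P h t).E (fun w => ind (G t w) * Real.log (zh (UU v) h dg t w)) +
      ∑ t ∈ range T, ∑ J ∈ SS K, (D.P h t).E (fun w => ind (¬ G t w) *
        (Real.log (1 + dg t w.1 * uu (UU v) h dg J t w) - Real.log (1 + dg t w.1 * ul (UU v) h dg J t w)))) := by
  refine (conS h H hv hK Gm Gl).trans ?_
  have h1 : ∑ t ∈ range T, ls h v (p := fun J => J ≠ univ) (kk0 hK) (t + 1) ≤
      ∑ t ∈ range T, ∑ J ∈ SS K, gain (D.P h (t + 1)) (BB D (t + 1)) (LL (Um v (t + 1))) (Vt v (t + 1)) J := by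
    refine Finset.sum_le_sum fun t _ => (ls_le h (kk0 hK) hv down_ne (t + 1)).trans (le_of_eq ?_)
    refine Finset.sum_congr ?_ fun _ _ => rfl
    ext J
    unfold SS
    simp only [Finset.mem_filter, Finset.mem_univ, true_and, Finset.nonempty_iff_ne_empty]
    tauto
  linarith

end proc

end Pool.Agent.GMH
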