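import Pool.Agent.M3.FPPoE
import Pool.Agent.GM.Expert

/-!
# GMH.Dig3: one digit in HARM(3), hierarchical form (helper78)

* `digit_level` : for ANY weights `R s w` (functions of everything known, positive at the true sign)
  `E 1_G (b - r)^2 ≤ 2 (E 1_G (log (1 + D b) - log (2 R_D)) + E 1_G log (R_+ + R_-))`, `r` = mean of `R` normalised.
  It is used with `R = P(s) prod of the ratios * exp (- g'_s)`, `g'` = the part of the density which is not controlled.
* `prior_change`, `odds3`, `three_pairs` : the product of all experts (3 thin labels, 3 tops) compared with the product in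
  which the thin part is replaced by the true mean `n` given all thin labels:
  `(ex2 - ex)^2 ≤ C ((n - q)^2 + sum over the pairs (v_j - q_j)^2)`, `q` = product of the thin experts, `q_j` the same
  without the label `j`, `v_j` = the true mean given the pair;
* `dig3` : `E 1_G (b - ex)^2 ≤ 2 eT + C (eV + sum e_j)`.
-/

set_option autoImplicit false
set_option linter.unusedSectionVars false

namespace Pool.Agent.GMH

open Finset Pool.Agent.PWZ Pool.Agent.M3 Pool.Agent.GM

noncomputable section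

/-! ## numbers -/

/-- mean of a weight on the two signs -/
def mn (x y : ℝ) : ℝ := (x - y) / (x + y)

theorem mn_abs_le {x y : ℝ} (hx : 0 ≤ x) (hy : 0 ≤ y) : |mn x y| ≤ 1 := by
  unfold mn
  rcases (add_nonneg hx hy).eq_or_lt with h | h
  · rw [← h, div_zero, abs_zero]; exact zero_le_one
  · rw [abs_div, abs_of_pos h, div_le_one h, abs_le]
    constructor <;> linarith

theorem one_add_mn {x y : ℝ} (h : 0 < x + y) : 1 + mn x y = 2 * x / (x + y) := by
  unfold mn
  field_simp
  ring

theorem one_sub_mn {x y : ℝ} (h : 0 < x + y) : 1 - mn x y = 2 * y / (x + y) := by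
  unfold mn
  field_simp
  ring

/-- normalisation does not matter -/
theorem mn_mul {c x y : ℝ} (hc : c ≠ 0) : mn (c * x) (c * y) = mn x y := by
  unfold mn
  rw [← mul_sub, ← mul_add, mul_div_mul_left _ _ hc]

/-- CHANGE OF THE PRIOR -/
theorem prior_change {n q w w' : ℝ} (hn : |n| ≤ 1) (hq : |q| ≤ 16 / 17) (hw : 0 ≤ w) (hw' : 0 ≤ w')
    (h1 : 0 < (1 + n) * w + (1 - n) * w') :
    |mn ((1 + n) * w) ((1 - n) * w') - mn ((1 + q) * w) ((1 - q) * w')| ≤ 68 * |n - q| := by
  obtain ⟨hn1, hn2⟩ := abs_le.mp hn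
  obtain ⟨hq1, hq2⟩ := abs_le.mp hq
  have h2 : 0 < (1 + q) * w + (1 - q) * w' := by
    rcases hw.eq_or_lt with h | h
    · rcases hw'.eq_or_lt with h' | h'
      · rw [← h, ← h'] at h1; simp at h1
      · have : 0 < (1 - q) * w' := mul_pos (by linarith) h'
        have : 0 ≤ (1 + q) * w := mul_nonneg (by linarith) hw
        linarith
    · have : 0 < (1 + q) * w := mul_pos (by linarith) h
      have : 0 ≤ (1 - q) * w' := mul_nonneg (by linarith) hw'
      linarith
  have e1 : mn ((1 + n) * w) ((1 - n) * w') - mn ((1 + q) * w) ((1 - q) * w') =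
      4 * (w * w') * (n - q) / (((1 + n) * w + (1 - n) * w') * ((1 + q) * w + (1 - q) * w')) := by
    unfold mn
    rw [div_sub_div _ _ h1.ne' h2.ne']
    congr 1
    ring
  rw [e1, abs_div, abs_of_pos (mul_pos h1 h2), div_le_iff₀ (mul_pos h1 h2), abs_mul,
    abs_of_nonneg (by positivity : 0 ≤ 4 * (w * w'))]
  have hww : 0 ≤ w * w' := mul_nonneg hw hw'
  have key : w * w' ≤ 17 * (((1 + n) * w + (1 - n) * w') * ((1 + q) * w + (1 - q) * w')) := by
    have a1 : 0 ≤ (1 + n) * w := mul_nonneg (by linarith) hw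
    have a2 : 0 ≤ (1 - n) * w' := mul_nonneg (by linarith) hw'
    have a3 : 0 ≤ (1 + q) * w := mul_nonneg (by linarith) hw
    have a4 : 0 ≤ (1 - q) * w' := mul_nonneg (by linarith) hw'
    rcases le_total 0 n with h | h
    · have b1 : w ≤ (1 + n) * w := by nlinarith
      have b2 : w' / 17 ≤ (1 - q) * w' := by nlinarith
      have b3 : w * (w' / 17) ≤ ((1 + n) * w) * ((1 - q) * w') := mul_le_mul b1 b2 (by positivity) a1
      have b4 : ((1 + n) * w) * ((1 - q) * w') ≤ ((1 + n) * w + (1 - n) * w') * ((1 + q) * w + (1 - q) * w') :=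
        mul_le_mul (by linarith) (by linarith) a4 (by linarith)
      linarith
    · have b1 : w' ≤ (1 - n) * w' := by nlinarith
      have b2 : w / 17 ≤ (1 + q) * w := by nlinarith
      have b3 : w' * (w / 17) ≤ ((1 - n) * w') * ((1 + q) * w) := mul_le_mul b1 b2 (by positivity) a2
      have b4 : ((1 - n) * w') * ((1 + q) * w) ≤ ((1 + n) * w + (1 - n) * w') * ((1 + q) * w + (1 - q) * w') :=
        mul_le_mul (by linarith) (by linarith) a3 (by linarith)
      linarith
  have h3 := mul_le_mul_of_nonneg_right key (mul_nonneg (by norm_num : (0 : ℝ) ≤ 4) (abs_nonneg (n - q)))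
  linarith

/-- the odds of a mean at most `3/4` -/
theorem odds_of {x y : ℝ} (h : |mn x y| < 3 / 4) (hpos : 0 < x + y) : x ≤ 7 * y ∧ y ≤ 7 * x := by
  unfold mn at h
  rw [abs_div, abs_of_pos hpos, div_lt_iff₀ hpos, abs_lt] at h
  constructor <;> linarith

variable {K : Type*} [Fintype K] [DecidableEq K]

theorem prod_erase3 (hK : Fintype.card K = 3) (x : K → ℝ) :
    ∏ j, ∏ i ∈ univ.erase j, x i = (∏ i, x i) ^ 2 := by
  have h1 : ∏ j, ∏ i ∈ univ.erase j, x i = ∏ i, ∏ _j ∈ univ.erase i, x i := by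
    refine Finset.prod_comm' ?_
    intro a b
    simp only [Finset.mem_univ, Finset.mem_erase, true_and, and_true, ne_eq]
    exact ⟨fun h h' => h h'.symm, fun h h' => h h'.symm⟩
  rw [h1]
  have h2 : ∀ i : K, ∏ _j ∈ univ.erase i, x i = x i ^ 2 := by
    intro i
    rw [Finset.prod_const, Finset.card_erase_of_mem (Finset.mem_univ i), Finset.card_univ, hK]
  rw [Finset.prod_congr rfl fun i _ => h2 i, Finset.prod_pow]

/-- THE MEAN OF THREE EXPERTS IS NOT EXTREME if those of the pairs are not -/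
theorem odds3 (hK : Fintype.card K = 3) {m : ℝ} (hm : |m| ≤ 1 / 2) {x y : K → ℝ} (hx : ∀ i, 0 ≤ x i) (hy : ∀ i, 0 ≤ y i)
    (hp : ∀ j, 0 < (1 + m) * ∏ i ∈ univ.erase j, x i + (1 - m) * ∏ i ∈ univ.erase j, y i)
    (h : ∀ j, |mn ((1 + m) * ∏ i ∈ univ.erase j, x i) ((1 - m) * ∏ i ∈ univ.erase j, y i)| < 3 / 4) :
    |mn ((1 + m) * ∏ i, x i) ((1 - m) * ∏ i, y i)| ≤ 16 / 17 := by
  obtain ⟨hm1, hm2⟩ := abs_le.mp hm
  have ha : (0 : ℝ) < 1 + m := by linarith
  have hb : (0 : ℝ) < 1 - m := by linarith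
  set X : ℝ := (1 + m) * ∏ i, x i with hX
  set Y : ℝ := (1 - m) * ∏ i, y i with hY
  have hX0 : 0 ≤ X := mul_nonneg ha.le (Finset.prod_nonneg fun i _ => hx i)
  have hY0 : 0 ≤ Y := mul_nonneg hb.le (Finset.prod_nonneg fun i _ => hy i)
  have nx : ∀ j, 0 ≤ (1 + m) * ∏ i ∈ univ.erase j, x i := fun j => mul_nonneg ha.le (Finset.prod_nonneg fun i _ => hx i)
  have ny : ∀ j, 0 ≤ (1 - m) * ∏ i ∈ univ.erase j, y i := fun j => mul_nonneg hb.le (Finset.prod_nonneg fun i _ => hy i)
  have hod := fun j => odds_of (h j) (hp j)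
  have e1 : ∏ j, ((1 + m) * ∏ i ∈ univ.erase j, x i) = (1 + m) * X ^ 2 := by
    rw [Finset.prod_mul_distrib, Finset.prod_const, Finset.card_univ, hK, prod_erase3 hK, hX]; ring
  have e2 : ∏ j, ((1 - m) * ∏ i ∈ univ.erase j, y i) = (1 - m) * Y ^ 2 := by
    rw [Finset.prod_mul_distrib, Finset.prod_const, Finset.card_univ, hK, prod_erase3 hK, hY]; ring
  have h8 : ∀ g : K → ℝ, ∏ j, 7 * g j = 343 * ∏ j, g j := by
    intro g
    rw [Finset.prod_mul_distrib, Finset.prod_const, Finset.card_univ, hK]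
    norm_num
  have f1 : (1 + m) * X ^ 2 ≤ 343 * ((1 - m) * Y ^ 2) := by
    rw [← e1, ← e2, ← h8]
    exact Finset.prod_le_prod (s := univ) (fun j _ => nx j) (fun j _ => (hod j).1)
  have f2 : (1 - m) * Y ^ 2 ≤ 343 * ((1 + m) * X ^ 2) := by
    rw [← e1, ← e2, ← h8]
    exact Finset.prod_le_prod (s := univ) (fun j _ => ny j) (fun j _ => (hod j).2)
  have g1 : X ≤ 33 * Y := by
    have : X ^ 2 ≤ (33 * Y) ^ 2 := by nlinarith [sq_nonneg X, sq_nonneg Y]
    exact (pow_le_pow_iff_left₀ hX0 (by positivity) two_ne_zero).1 this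
  have g2 : Y ≤ 33 * X := by
    have : Y ^ 2 ≤ (33 * X) ^ 2 := by nlinarith [sq_nonneg X, sq_nonneg Y]
    exact (pow_le_pow_iff_left₀ hY0 (by positivity) two_ne_zero).1 this
  unfold mn
  rcases (add_nonneg hX0 hY0).eq_or_lt with h0 | h0
  · rw [← h0, div_zero, abs_zero]; norm_num
  · rw [abs_div, abs_of_pos h0, div_le_iff₀ h0, abs_le]
    constructor <;> linarith

/-- THREE PAIRS, pointwise -/
theorem three_pairs (hK : Fintype.card K = 3) {m n : ℝ} (hm : |m| ≤ 1 / 2) (hn : |n| ≤ 1) {x y : K → ℝ}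
    (hx : ∀ i, 0 ≤ x i) (hy : ∀ i, 0 ≤ y i) {v : K → ℝ} (hv : ∀ j, |v j| ≤ 1 / 2)
    (hxy : (∀ i, 0 < x i) ∨ ∀ i, 0 < y i) {w w' : ℝ} (hw : 0 ≤ w) (hw' : 0 ≤ w')
    (h1 : 0 < (1 + n) * w + (1 - n) * w') {X Y : ℝ} (hX : X = (1 + m) * ∏ i, x i) (hY : Y = (1 - m) * ∏ i, y i)
    {q : K → ℝ} (hq : ∀ j, q j = mn ((1 + m) * ∏ i ∈ univ.erase j, x i) ((1 - m) * ∏ i ∈ univ.erase j, y i)) :
    (mn ((1 + n) * w) ((1 - n) * w') - mn (X * w) (Y * w')) ^ 2 ≤
      4624 * ((n - mn X Y) ^ 2 + ∑ j, (v j - q j) ^ 2) := by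
  obtain ⟨hm1, hm2⟩ := abs_le.mp hm
  obtain ⟨hn1, hn2⟩ := abs_le.mp hn
  have ha : (0 : ℝ) < 1 + m := by linarith
  have hb : (0 : ℝ) < 1 - m := by linarith
  have hX0 : 0 ≤ X := by rw [hX]; exact mul_nonneg ha.le (Finset.prod_nonneg fun i _ => hx i)
  have hY0 : 0 ≤ Y := by rw [hY]; exact mul_nonneg hb.le (Finset.prod_nonneg fun i _ => hy i)
  have hs0 : 0 ≤ ∑ j, (v j - q j) ^ 2 := Finset.sum_nonneg fun j _ => sq_nonneg _
  have hXY : 0 < X + Y := by
    rcases hxy with h | h
    · have : 0 < X := by rw [hX]; exact mul_pos ha (Finset.prod_pos fun i _ => h i)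
      linarith
    · have : 0 < Y := by rw [hY]; exact mul_pos hb (Finset.prod_pos fun i _ => h i)
      linarith
  have hpj : ∀ j, 0 < (1 + m) * ∏ i ∈ univ.erase j, x i + (1 - m) * ∏ i ∈ univ.erase j, y i := by
    intro j
    have a1 : 0 ≤ (1 + m) * ∏ i ∈ univ.erase j, x i := mul_nonneg ha.le (Finset.prod_nonneg fun i _ => hx i)
    have a2 : 0 ≤ (1 - m) * ∏ i ∈ univ.erase j, y i := mul_nonneg hb.le (Finset.prod_nonneg fun i _ => hy i)
    rcases hxy with h | h
    · have : 0 < (1 + m) * ∏ i ∈ univ.erase j, x i := mul_pos ha (Finset.prod_pos fun i _ => h i)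
      linarith
    · have : 0 < (1 - m) * ∏ i ∈ univ.erase j, y i := mul_pos hb (Finset.prod_pos fun i _ => h i)
      linarith
  by_cases hc : ∀ j, |v j - q j| < 1 / 4
  · have hq' : |mn X Y| ≤ 16 / 17 := by
      rw [hX, hY]
      refine odds3 hK hm hx hy hpj (fun j => ?_)
      rw [← hq j]
      have h2 := hc j
      have h3 := hv j
      rw [abs_lt] at h2 ⊢
      rw [abs_le] at h3
      constructor <;> linarith [h2.1, h2.2, h3.1, h3.2]
    have h4 := prior_change hn hq' hw hw' h1
    have e1 : mn ((1 + mn X Y) * w) ((1 - mn X Y) * w') = mn (X * w) (Y * w') := by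
      rw [one_add_mn hXY, one_sub_mn hXY]
      have e2 : 2 * X / (X + Y) * w = (2 / (X + Y)) * (X * w) := by ring
      have e3 : 2 * Y / (X + Y) * w' = (2 / (X + Y)) * (Y * w') := by ring
      rw [e2, e3, mn_mul (by positivity)]
    rw [e1] at h4
    have h5 : (mn ((1 + n) * w) ((1 - n) * w') - mn (X * w) (Y * w')) ^ 2 ≤ (68 * |n - mn X Y|) ^ 2 := by
      rw [← sq_abs]
      exact pow_le_pow_left₀ (abs_nonneg _) h4 2
    rw [mul_pow, sq_abs] at h5
    linarith
  · push Not at hc
    obtain ⟨j, hj⟩ := hc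
    have h2 : (1 / 16 : ℝ) ≤ (v j - q j) ^ 2 := by
      rw [← sq_abs]
      nlinarith [abs_nonneg (v j - q j)]
    have h3 : (v j - q j) ^ 2 ≤ ∑ j, (v j - q j) ^ 2 :=
      Finset.single_le_sum (f := fun j => (v j - q j) ^ 2) (fun i _ => sq_nonneg _) (Finset.mem_univ j)
    have h4 := mn_abs_le (mul_nonneg (by linarith : (0 : ℝ) ≤ 1 + n) hw) (mul_nonneg (by linarith : (0 : ℝ) ≤ 1 - n) hw')
    have h5 := mn_abs_le (mul_nonneg hX0 hw) (mul_nonneg hY0 hw')
    have h6 : (mn ((1 + n) * w) ((1 - n) * w') - mn (X * w) (Y * w')) ^ 2 ≤ 4 := by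
      obtain ⟨c1, c2⟩ := abs_le.mp h4
      obtain ⟨c3, c4⟩ := abs_le.mp h5
      nlinarith
    have h7 := sq_nonneg (n - mn X Y)
    linarith

/-! ## the product of the experts over all index sets, three known vertices -/

theorem prod_SS3 (hK : Fintype.card K = 3) (f : Finset K → ℝ) :
    ∏ J ∈ univ.filter (fun J : Finset K => J.Nonempty ∧ J ≠ univ), f J = (∏ i, f {i}) * ∏ j, f (univ.erase j) := by
  classical
  have e1 : univ.filter (fun J : Finset K => J.Nonempty ∧ J ≠ univ) =
      univ.image (fun i : K => ({i} : Finset K)) ∪ univ.image (fun j : K => univ.erase j) := by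
    ext J
    simp only [Finset.mem_filter, Finset.mem_univ, true_and, Finset.mem_union, Finset.mem_image]
    constructor
    · rintro ⟨h1, h2⟩
      have h3 : 0 < J.card := Finset.card_pos.2 h1
      have h4 : J.card < 3 := by
        rw [← hK]
        exact Finset.card_lt_univ_of_notMem (Classical.choose_spec (by
          by_contra h
          push Not at h
          exact h2 (Finset.eq_univ_of_forall h) : ∃ x, x ∉ J))
      have h5 : J.card = 1 ∨ J.card = 2 := by omega
      rcases h5 with h5 | h5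
      · left
        obtain ⟨a, ha⟩ := Finset.card_eq_one.1 h5
        exact ⟨a, ha.symm⟩
      · right
        have h6 : (univ \ J).card = 1 := by
          rw [Finset.card_sdiff_of_subset (Finset.subset_univ J), Finset.card_univ, hK, h5]
        obtain ⟨a, ha⟩ := Finset.card_eq_one.1 h6
        refine ⟨a, ?_⟩
        ext x
        simp only [Finset.mem_erase, Finset.mem_univ, and_true]
        have h7 : x ∈ univ \ J ↔ x = a := by rw [ha, Finset.mem_singleton]
        simp only [Finset.mem_sdiff, Finset.mem_univ, true_and] at h7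
        constructor
        · intro hx
          by_contra h8
          exact hx (h7.1 h8)
        · intro hx h8
          exact (h7.2 h8) hx
    · rintro (⟨a, rfl⟩ | ⟨a, rfl⟩)
      · refine ⟨Finset.singleton_nonempty a, ?_⟩
        intro h
        have := congrArg Finset.card h
        rw [Finset.card_singleton, Finset.card_univ, hK] at this
        omega
      · constructor
        · rw [← Finset.card_pos, Finset.card_erase_of_mem (Finset.mem_univ a), Finset.card_univ, hK]
          omega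
        · intro h
          have := congrArg Finset.card h
          rw [Finset.card_erase_of_mem (Finset.mem_univ a), Finset.card_univ, hK] at this
          omega
  have e2 : Disjoint (univ.image (fun i : K => ({i} : Finset K))) (univ.image (fun j : K => univ.erase j)) := by
    rw [Finset.disjoint_left]
    intro J h1 h2
    simp only [Finset.mem_image, Finset.mem_univ, true_and] at h1 h2
    obtain ⟨a, rfl⟩ := h1
    obtain ⟨b, hb⟩ := h2
    have := congrArg Finset.card hb
    rw [Finset.card_erase_of_mem (Finset.mem_univ b), Finset.card_univ, hK, Finset.card_singleton] at this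
    omega
  rw [e1, Finset.prod_union e2, Finset.prod_image, Finset.prod_image]
  · intro a _ b _ h
    by_contra hab
    have : a ∈ univ.erase b := Finset.mem_erase.2 ⟨hab, Finset.mem_univ a⟩
    rw [← (show univ.erase a = univ.erase b from h)] at this
    exact (Finset.mem_erase.1 this).1 rfl
  · intro a _ b _ h
    exact Finset.singleton_injective h

/-- the product of the experts in the hierarchical form -/
theorem ex_SS3 (hK : Fintype.card K = 3) (m : ℝ) (u u' : Finset K → ℝ) :
    ex m (univ.filter (fun J : Finset K => J.Nonempty ∧ J ≠ univ)) u u' =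
      mn (((1 + m) * ∏ i, (1 + u {i}) / (1 + u' {i})) * ∏ j, (1 + u (univ.erase j)) / (1 + u' (univ.erase j)))
        (((1 - m) * ∏ i, (1 - u {i}) / (1 - u' {i})) * ∏ j, (1 - u (univ.erase j)) / (1 - u' (univ.erase j))) := by
  unfold ex Rp Rm mn
  rw [prod_SS3 hK, prod_SS3 hK]
  simp only [mul_assoc]

/-! ## one level -/

variable {Om : Type*} [Fintype Om] (P : FP Om) {α : Type*}

/-- ONE LEVEL: any weights, any event of the observer -/
theorem digit_level {A : Om → α} {D : Om → ℝ} (hD : ∀ w, P.p w ≠ 0 → D w = 1 ∨ D w = -1) {R R' : Om → ℝ}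
    (fR : Fac A R) (fR' : Fac A R') {G : Om → Prop} (hG : ∀ v w, A v = A w → (G v ↔ G w))
    (hR : ∀ w, P.p w ≠ 0 → G w → 0 ≤ R w) (hR' : ∀ w, P.p w ≠ 0 → G w → 0 ≤ R' w)
    (hRD : ∀ w, P.p w ≠ 0 → G w → (D w = 1 → 0 < R w) ∧ (D w = -1 → 0 < R' w)) :
    P.E (fun w => ind (G w) * (P.ce A D w - mn (R w) (R' w)) ^ 2) ≤
      2 * (P.E (fun w => ind (G w) * (Real.log (1 + D w * P.ce A D w) -
        Real.log (2 * if D w = 1 then R w else R' w))) + P.E (fun w => ind (G w) * Real.log (R w + R' w))) := by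
  classical
  have hD1 : ∀ w, P.p w ≠ 0 → |D w| ≤ 1 := fun w hw => by
    rcases hD w hw with h | h <;> rw [h] <;> norm_num
  set b : Om → ℝ := P.ce A D with hb
  set q : Om → ℝ := fun w => if G w then mn (R w) (R' w) else b w with hq
  have fq : Fac A q := by
    intro v w h
    have e2 : b v = b w := P.ce_fac A D v w h
    simp only [hq, fR v w h, fR' v w h, e2, hG v w h]
  have pos : ∀ w, P.p w ≠ 0 → G w → 0 < R w + R' w := by
    intro w hw hg
    rcases hD w hw with h | h
    · have := (hRD w hw hg).1 h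
      linarith [hR' w hw hg]
    · have := (hRD w hw hg).2 h
      linarith [hR w hw hg]
  have h1 : ∀ w, P.p w ≠ 0 → |q w| ≤ 1 := by
    intro w hw
    simp only [hq]
    split_ifs with hg
    · exact mn_abs_le (hR w hw hg) (hR' w hw hg)
    · exact P.abs_ce_le_one hD1 A w
  have hval : ∀ w, P.p w ≠ 0 → G w → 1 + D w * mn (R w) (R' w) =
      2 * (if D w = 1 then R w else R' w) / (R w + R' w) := by
    intro w hw hg
    rcases hD w hw with h | h
    · rw [h, one_mul, one_add_mn (pos w hw hg), if_pos rfl]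
    · have e0 : (1 : ℝ) + -1 * mn (R w) (R' w) = 1 - mn (R w) (R' w) := by ring
      rw [h, e0, one_sub_mn (pos w hw hg), if_neg (by norm_num)]
  have hsel : ∀ w, P.p w ≠ 0 → G w → 0 < (if D w = 1 then R w else R' w) := by
    intro w hw hg
    rcases hD w hw with h | h
    · rw [if_pos h]; exact (hRD w hw hg).1 h
    · rw [if_neg (by rw [h]; norm_num)]; exact (hRD w hw hg).2 h
  have h2 : ∀ w, P.p w ≠ 0 → 0 < 1 + D w * q w := by
    intro w hw
    simp only [hq]
    split_ifs with hg
    · rw [hval w hw hg]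
      exact div_pos (mul_pos two_pos (hsel w hw hg)) (pos w hw hg)
    · exact P.digit_pos hD A hw
  have h3 := P.digit_kl_ge hD fq h1 h2
  have e1 : P.E (fun w => (b w - q w) ^ 2) = P.E (fun w => ind (G w) * (b w - mn (R w) (R' w)) ^ 2) := by
    refine P.E_congr (fun w _ => ?_)
    simp only [hq]
    by_cases hg : G w
    · rw [if_pos hg, ind_of hg, one_mul]
    · rw [if_neg hg, ind_not hg]; ring
  have e2 : P.E (fun w => Real.log (1 + D w * b w) - Real.log (1 + D w * q w)) =
      P.E (fun w => ind (G w) * (Real.log (1 + D w * b w) -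
        Real.log (2 * if D w = 1 then R w else R' w))) + P.E (fun w => ind (G w) * Real.log (R w + R' w)) := by
    rw [← FP.E_add]
    refine P.E_congr (fun w hw => ?_)
    simp only [hq]
    by_cases hg : G w
    · rw [if_pos hg, ind_of hg, one_mul, one_mul, hval w hw hg,
        Real.log_div (mul_pos two_pos (hsel w hw hg)).ne' (pos w hw hg).ne']
      ring
    · rw [if_neg hg, ind_not hg]; ring
  rw [e1, e2] at h3
  exact h3

/-- ONE LEVEL with a part `g` of the density taken out; `R = P(s) prod of the ratios` -/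
theorem level_rho {A : Om → α} {D : Om → ℝ} (hD : ∀ w, P.p w ≠ 0 → D w = 1 ∨ D w = -1) {R R' g g' q : Om → ℝ}
    (fR : Fac A R) (fR' : Fac A R') (fg : Fac A g) (fg' : Fac A g') {al G : Om → Prop}
    (hal : ∀ v w, A v = A w → (al v ↔ al w)) (hGal : ∀ w, P.p w ≠ 0 → G w → al w)
    (hR : ∀ w, P.p w ≠ 0 → al w → 0 ≤ R w) (hR' : ∀ w, P.p w ≠ 0 → al w → 0 ≤ R' w)
    (hRD : ∀ w, P.p w ≠ 0 → al w → (D w = 1 → 0 < R w) ∧ (D w = -1 → 0 < R' w))
    (hq : ∀ w, P.p w ≠ 0 → G w → q w = mn (R w * Real.exp (-g w)) (R' w * Real.exp (-g' w))) :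
    P.E (fun w => ind (G w) * (P.ce A D w - q w) ^ 2) ≤
      2 * (P.E (fun w => ind (al w) * (Real.log (1 + D w * P.ce A D w) -
        Real.log (2 * if D w = 1 then R w else R' w) + if D w = 1 then g w else g' w)) +
        P.E (fun w => ind (al w) * (R w * Real.exp (-g w) + R' w * Real.exp (-g' w) - 1))) := by
  classical
  have h0 := digit_level P (A := A) (D := D) hD (R := fun w => R w * Real.exp (-g w))
    (R' := fun w => R' w * Real.exp (-g' w)) (G := al)
    (fun v w h => by simp only [fR v w h, fg v w h]) (fun v w h => by simp only [fR' v w h, fg' v w h]) hal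
    (fun w hw ha => mul_nonneg (hR w hw ha) (Real.exp_pos _).le)
    (fun w hw ha => mul_nonneg (hR' w hw ha) (Real.exp_pos _).le)
    (fun w hw ha => ⟨fun h => mul_pos ((hRD w hw ha).1 h) (Real.exp_pos _),
      fun h => mul_pos ((hRD w hw ha).2 h) (Real.exp_pos _)⟩)
  have h1 : P.E (fun w => ind (G w) * (P.ce A D w - q w) ^ 2) ≤
      P.E (fun w => ind (al w) * (P.ce A D w - mn (R w * Real.exp (-g w)) (R' w * Real.exp (-g' w))) ^ 2) := by
    refine P.E_mono (fun w hw => ?_)
    by_cases hg : G w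
    · rw [ind_of hg, ind_of (hGal w hw hg), hq w hw hg]
    · rw [ind_not hg, zero_mul]
      exact mul_nonneg (ind_nonneg _) (sq_nonneg _)
  have h2 : P.E (fun w => ind (al w) * (Real.log (1 + D w * P.ce A D w) -
        Real.log (2 * if D w = 1 then R w * Real.exp (-g w) else R' w * Real.exp (-g' w)))) =
      P.E (fun w => ind (al w) * (Real.log (1 + D w * P.ce A D w) -
        Real.log (2 * if D w = 1 then R w else R' w) + if D w = 1 then g w else g' w)) := by
    refine P.E_congr (fun w hw => ?_)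
    by_cases ha : al w
    swap
    · rw [ind_not ha]; ring
    congr 1
    rcases hD w hw with h | h
    · rw [if_pos h, if_pos h, if_pos h, ← mul_assoc,
        Real.log_mul (mul_pos two_pos ((hRD w hw ha).1 h)).ne' (Real.exp_pos _).ne', Real.log_exp]
      ring
    · have hne : D w ≠ 1 := by rw [h]; norm_num
      rw [if_neg hne, if_neg hne, if_neg hne, ← mul_assoc,
        Real.log_mul (mul_pos two_pos ((hRD w hw ha).2 h)).ne' (Real.exp_pos _).ne', Real.log_exp]
      ring
  have h3 : P.E (fun w => ind (al w) * Real.log (R w * Real.exp (-g w) + R' w * Real.exp (-g' w))) ≤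
      P.E (fun w => ind (al w) * (R w * Real.exp (-g w) + R' w * Real.exp (-g' w) - 1)) := by
    refine P.E_mono (fun w hw => ?_)
    by_cases ha : al w
    · rw [ind_of ha, one_mul, one_mul]
      have hp : 0 < R w * Real.exp (-g w) + R' w * Real.exp (-g' w) := by
        have a1 := mul_nonneg (hR w hw ha) (Real.exp_pos (-g w)).le
        have a2 := mul_nonneg (hR' w hw ha) (Real.exp_pos (-g' w)).le
        rcases hD w hw with h | h
        · have := mul_pos ((hRD w hw ha).1 h) (Real.exp_pos (-g w)); linarith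
        · have := mul_pos ((hRD w hw ha).2 h) (Real.exp_pos (-g' w)); linarith
      exact Real.log_le_sub_one_of_pos hp
    · rw [ind_not ha, zero_mul, zero_mul]
  rw [h2] at h0
  linarith

/-! ## the products of the ratios are positive at the true sign -/

/-- thin labels, `lamE j` = all but `j` -/
def lamE {υ : Type*} (lam : K → Om → υ) (j : K) (w : Om) : K → Option υ := fun i => if i ≠ j then some (lam i w) else none

theorem lamE_fac {υ : Type*} (lam : K → Om → υ) {i j : K} (h : i ≠ j) : Fac (lamE lam j) (lam i) := by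
  intro v w hv
  have := congrFun hv i
  simp only [lamE, if_pos h] at this
  exact Option.some.inj this

theorem fac_lamE {υ β : Type*} {lam : K → Om → υ} {j : K} {X : Om → β} (h : ∀ i, i ≠ j → Fac X (lam i)) :
    Fac X (lamE lam j) := by
  intro v w hv
  funext i
  by_cases hi : i ≠ j
  · simp only [lamE, if_pos hi, h i hi v w hv]
  · simp only [lamE, if_neg hi]

/-- **ONE DIGIT, THREE KNOWN VERTICES.** `q` = product of the thin experts, `qj j` = the same without `j`, `ex2` = product
of the tops with the true mean `n` of the thin labels as prior. -/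
theorem dig3 (hK : Fintype.card K = 3) {D m n b ex2 q : Om → ℝ} {u1 U v qj : K → Om → ℝ}
    (hD : ∀ w, P.p w ≠ 0 → D w = 1 ∨ D w = -1) {G : Om → Prop}
    (hm : ∀ w, G w → |m w| ≤ 1 / 2) (hv : ∀ w, G w → ∀ j, |v j w| ≤ 1 / 2)
    (hn1 : ∀ w, P.p w ≠ 0 → |n w| ≤ 1) (hu1 : ∀ w, P.p w ≠ 0 → ∀ i, |u1 i w| ≤ 1)
    (hU1 : ∀ w, P.p w ≠ 0 → ∀ i, |U i w| ≤ 1)
    (pn : ∀ w, P.p w ≠ 0 → 0 < 1 + D w * n w) (pu : ∀ w, P.p w ≠ 0 → ∀ i, 0 < 1 + D w * u1 i w)
    (pU : ∀ w, P.p w ≠ 0 → ∀ i, 0 < 1 + D w * U i w)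
    (hq : ∀ w, q w = mn ((1 + m w) * ∏ i, (1 + u1 i w) / (1 + m w)) ((1 - m w) * ∏ i, (1 - u1 i w) / (1 - m w)))
    (hqj : ∀ j w, qj j w = mn ((1 + m w) * ∏ i ∈ univ.erase j, (1 + u1 i w) / (1 + m w))
      ((1 - m w) * ∏ i ∈ univ.erase j, (1 - u1 i w) / (1 - m w)))
    (he : ∀ w, ex2 w = mn ((1 + n w) * ∏ j, (1 + U j w) / (1 + v j w)) ((1 - n w) * ∏ j, (1 - U j w) / (1 - v j w)))
    {eT eV : ℝ} {ej : K → ℝ} (hT : P.E (fun w => ind (G w) * (b w - ex2 w) ^ 2) ≤ eT)
    (hV : P.E (fun w => ind (G w) * (n w - q w) ^ 2) ≤ eV)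
    (hVj : ∀ j, P.E (fun w => ind (G w) * (v j w - qj j w) ^ 2) ≤ ej j) :
    P.E (fun w => ind (G w) * (b w - mn
      (((1 + m w) * ∏ i, (1 + u1 i w) / (1 + m w)) * ∏ j, (1 + U j w) / (1 + v j w))
      (((1 - m w) * ∏ i, (1 - u1 i w) / (1 - m w)) * ∏ j, (1 - U j w) / (1 - v j w))) ^ 2) ≤
      2 * eT + 9248 * (eV + ∑ j, ej j) := by
  classical
  have h1 : P.E (fun w => ind (G w) * (b w - mn
      (((1 + m w) * ∏ i, (1 + u1 i w) / (1 + m w)) * ∏ j, (1 + U j w) / (1 + v j w))
      (((1 - m w) * ∏ i, (1 - u1 i w) / (1 - m w)) * ∏ j, (1 - U j w) / (1 - v j w))) ^ 2) ≤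
      P.E (fun w => 2 * (ind (G w) * (b w - ex2 w) ^ 2) + 9248 * (ind (G w) * (n w - q w) ^ 2 +
        ∑ j, ind (G w) * (v j w - qj j w) ^ 2)) := by
    refine P.E_mono (fun w hw => ?_)
    by_cases hg : G w
    swap
    · simp only [ind_not hg, zero_mul, mul_zero, Finset.sum_const_zero, add_zero]
      exact le_refl _
    simp only [ind_of hg, one_mul]
    obtain ⟨m1, m2⟩ := abs_le.mp (hm w hg)
    have ha : (0 : ℝ) < 1 + m w := by linarith
    have hb : (0 : ℝ) < 1 - m w := by linarith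
    have va : ∀ j, 0 < 1 + v j w := fun j => by linarith [(abs_le.mp (hv w hg j)).1]
    have vb : ∀ j, 0 < 1 - v j w := fun j => by linarith [(abs_le.mp (hv w hg j)).2]
    have nx : ∀ i, 0 ≤ (1 + u1 i w) / (1 + m w) := fun i =>
      div_nonneg (by linarith [(abs_le.mp (hu1 w hw i)).1]) ha.le
    have ny : ∀ i, 0 ≤ (1 - u1 i w) / (1 - m w) := fun i =>
      div_nonneg (by linarith [(abs_le.mp (hu1 w hw i)).2]) hb.le
    have nw : 0 ≤ ∏ j, (1 + U j w) / (1 + v j w) := Finset.prod_nonneg fun j _ =>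
      div_nonneg (by linarith [(abs_le.mp (hU1 w hw j)).1]) (va j).le
    have nw' : 0 ≤ ∏ j, (1 - U j w) / (1 - v j w) := Finset.prod_nonneg fun j _ =>
      div_nonneg (by linarith [(abs_le.mp (hU1 w hw j)).2]) (vb j).le
    have hxy : (∀ i, 0 < (1 + u1 i w) / (1 + m w)) ∨ ∀ i, 0 < (1 - u1 i w) / (1 - m w) := by
      rcases hD w hw with h | h
      · left
        intro i
        have := pu w hw i
        rw [h, one_mul] at this
        exact div_pos this ha
      · right
        intro i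
        have := pu w hw i
        rw [h] at this
        exact div_pos (by linarith) hb
    have hpos : 0 < (1 + n w) * (∏ j, (1 + U j w) / (1 + v j w)) + (1 - n w) * ∏ j, (1 - U j w) / (1 - v j w) := by
      have a1 : 0 ≤ (1 + n w) * ∏ j, (1 + U j w) / (1 + v j w) :=
        mul_nonneg (by linarith [(abs_le.mp (hn1 w hw)).1]) nw
      have a2 : 0 ≤ (1 - n w) * ∏ j, (1 - U j w) / (1 - v j w) :=
        mul_nonneg (by linarith [(abs_le.mp (hn1 w hw)).2]) nw'
      rcases hD w hw with h | h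
      · have b1 := pn w hw
        rw [h, one_mul] at b1
        have b2 : 0 < (1 + n w) * ∏ j, (1 + U j w) / (1 + v j w) := by
          refine mul_pos b1 (Finset.prod_pos fun j _ => ?_)
          have := pU w hw j
          rw [h, one_mul] at this
          exact div_pos this (va j)
        linarith
      · have b1 := pn w hw
        rw [h] at b1
        have b2 : 0 < (1 - n w) * ∏ j, (1 - U j w) / (1 - v j w) := by
          refine mul_pos (by linarith) (Finset.prod_pos fun j _ => ?_)
          have := pU w hw j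
          rw [h] at this
          exact div_pos (by linarith) (vb j)
        linarith
    have h2 := three_pairs hK (hm w hg) (hn1 w hw) nx ny (hv w hg) hxy nw nw' hpos rfl rfl (fun j => hqj j w)
    rw [← he w, ← hq w] at h2
    set e := mn (((1 + m w) * ∏ i, (1 + u1 i w) / (1 + m w)) * ∏ j, (1 + U j w) / (1 + v j w))
      (((1 - m w) * ∏ i, (1 - u1 i w) / (1 - m w)) * ∏ j, (1 - U j w) / (1 - v j w)) with hE
    have h3 : (b w - e) ^ 2 ≤ 2 * (b w - ex2 w) ^ 2 + 2 * (ex2 w - e) ^ 2 := by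
      nlinarith [sq_nonneg ((b w - ex2 w) - (ex2 w - e))]
    linarith
  refine h1.trans ?_
  rw [FP.E_add, FP.E_smul, FP.E_smul, FP.E_add, FP.E_sum]
  have h4 := Finset.sum_le_sum fun j (_ : j ∈ (univ : Finset K)) => hVj j
  linarith

end

end Pool.Agent.GMH
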