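import Pool.Agent.GMH.ConS
import Pool.Agent.GMH.Dig3

/-!
# GMH.ConS2: losses in the old saturated law, weights with a cut part of the density, families `p' ⊂ p` (helper30)

* `level_gen` : one level, prior `n`, experts `u i, u' i`, cut parts `g, g'` of the density (functions of everything known, zero
  on `G`): `E 1_G (b - ex)^2 ≤ 2 (E (log (1+D b) - log (1+D n) - ∑ (log (1+D u_i) - log (1+D u'_i))) + E g_D + E (Z~ - 1))`,
  `Z~ = Rp/2 exp(-g) + Rm/2 exp(-g')`; no condition on the lower means off `G`;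
* `Mf` = potential of the labels after the additions of the time `t + 1` in the law and with the letters of the time `t`;
  `lsO t = Md t - Mf t` = loss of these additions (node `t + 1`), `bgN t = Mt (t+1) - Mf t ≥ 0` (letters come last);
* `rho_sumO` : EXACT: `∑_(t<T) E rho_t = M_T - M_0 + ∑_(t<T) lsO t - ∑_(t<T) bgN t`;
* `lsO_le` : `lsO t ≤ ∑_(p J, J ≠ ∅) gain (D.P h t) (BB D (t+1)) (LL (Um v (t+1))) (Vt v (t+1)) J`;
* `PA L V A` = labels with the additions at the indices of `A` only; `pa_add` : one more index is `Add`; `MP_chain` :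
  the joint loss is the sum of the losses of single additions in any order;
* `conG` : for `p' ⊂ p`, prior = mean given all labels of `p'`, experts = the index sets of `p` outside `p'`.
-/

set_option autoImplicit false
set_option linter.unusedSectionVars false

namespace Pool.Agent.GMH

open Finset Pool.Agent.PWZ Pool.Agent.M3 Pool.Agent.GM Pool.Agent.GM.Harm

/-! ## one level -/

section level

variable {Om : Type*} [Fintype Om] (P : FP Om) {α κ : Type*} {A : Om → κ} {D : Om → ℝ}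

theorem Rp_nn {m0 : ℝ} {S : Finset α} {u u' : α → ℝ} (hm : |m0| ≤ 1) (hu : ∀ i ∈ S, |u i| ≤ 1) (hu' : ∀ i ∈ S, |u' i| ≤ 1) :
    0 ≤ Rp m0 S u u' := by
  refine mul_nonneg (by linarith [(abs_le.mp hm).1]) (Finset.prod_nonneg (fun i hi => ?_))
  have h1 := (abs_le.mp (hu i hi)).1
  have h2 := (abs_le.mp (hu' i hi)).1
  exact div_nonneg (by linarith) (by linarith)

theorem Rm_nn {m0 : ℝ} {S : Finset α} {u u' : α → ℝ} (hm : |m0| ≤ 1) (hu : ∀ i ∈ S, |u i| ≤ 1) (hu' : ∀ i ∈ S, |u' i| ≤ 1) :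
    0 ≤ Rm m0 S u u' := by
  refine mul_nonneg (by linarith [(abs_le.mp hm).2]) (Finset.prod_nonneg (fun i hi => ?_))
  have h1 := (abs_le.mp (hu i hi)).2
  have h2 := (abs_le.mp (hu' i hi)).2
  exact div_nonneg (by linarith) (by linarith)

/-- the weight of the true sign -/
theorem R_true {m0 : ℝ} {S : Finset α} {u u' : α → ℝ} {d : ℝ} (hd : d = 1 ∨ d = -1) (hm : 0 < 1 + d * m0)
    (hu : ∀ i ∈ S, 0 < 1 + d * u i) (hu' : ∀ i ∈ S, 0 < 1 + d * u' i) :
    (d = 1 → 0 < Rp m0 S u u' / 2) ∧ (d = -1 → 0 < Rm m0 S u u' / 2) ∧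
    Real.log (2 * if d = 1 then Rp m0 S u u' / 2 else Rm m0 S u u' / 2) =
      Real.log (1 + d * m0) + ∑ i ∈ S, (Real.log (1 + d * u i) - Real.log (1 + d * u' i)) := by
  have hprod : 0 < ∏ i ∈ S, (1 + d * u i) / (1 + d * u' i) := Finset.prod_pos fun i hi => div_pos (hu i hi) (hu' i hi)
  have hlog : Real.log ((1 + d * m0) * ∏ i ∈ S, (1 + d * u i) / (1 + d * u' i)) =
      Real.log (1 + d * m0) + ∑ i ∈ S, (Real.log (1 + d * u i) - Real.log (1 + d * u' i)) := by
    rw [Real.log_mul hm.ne' hprod.ne', Real.log_prod (fun i hi => (div_pos (hu i hi) (hu' i hi)).ne')]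
    congr 1
    exact Finset.sum_congr rfl fun i hi => Real.log_div (hu i hi).ne' (hu' i hi).ne'
  rcases hd with rfl | rfl
  · have e : Rp m0 S u u' = (1 + 1 * m0) * ∏ i ∈ S, (1 + 1 * u i) / (1 + 1 * u' i) := by
      unfold Rp; simp only [one_mul]
    refine ⟨fun _ => ?_, fun hh => by norm_num at hh, ?_⟩
    · rw [e]; have := mul_pos hm hprod; linarith
    · rw [if_pos rfl, ← hlog, e]
      congr 1
      ring
  · have e : Rm m0 S u u' = (1 + -1 * m0) * ∏ i ∈ S, (1 + -1 * u i) / (1 + -1 * u' i) := by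
      unfold Rm
      have : ∀ x : ℝ, 1 + -1 * x = 1 - x := fun x => by ring
      simp only [this]
    refine ⟨fun hh => by norm_num at hh, fun _ => ?_, ?_⟩
    · rw [e]; have := mul_pos hm hprod; linarith
    · rw [if_neg (by norm_num), ← hlog, e]
      congr 1
      ring

/-- **ONE LEVEL**, prior `n`, experts `u`, `u'`, cut parts `g`, `g'` -/
theorem level_gen (hD : ∀ w, P.p w ≠ 0 → D w = 1 ∨ D w = -1) {S : Finset α} {n : Om → ℝ} {u u' : α → Om → ℝ}
    {g g' : Om → ℝ} (fn : Fac A n) (fu : ∀ i ∈ S, Fac A (u i)) (fu' : ∀ i ∈ S, Fac A (u' i)) (fg : Fac A g)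
    (fg' : Fac A g') (hn : ∀ w, P.p w ≠ 0 → |n w| ≤ 1) (hu : ∀ w, P.p w ≠ 0 → ∀ i ∈ S, |u i w| ≤ 1)
    (hu' : ∀ w, P.p w ≠ 0 → ∀ i ∈ S, |u' i w| ≤ 1) (pn : ∀ w, P.p w ≠ 0 → 0 < 1 + D w * n w)
    (pu : ∀ w, P.p w ≠ 0 → ∀ i ∈ S, 0 < 1 + D w * u i w) (pu' : ∀ w, P.p w ≠ 0 → ∀ i ∈ S, 0 < 1 + D w * u' i w)
    {G : Om → Prop} (hg : ∀ w, P.p w ≠ 0 → G w → g w = 0 ∧ g' w = 0) :
    P.E (fun w => ind (G w) * (P.ce A D w - ex (n w) S (fun i => u i w) (fun i => u' i w)) ^ 2) ≤
      2 * (P.E (fun w => Real.log (1 + D w * P.ce A D w) - Real.log (1 + D w * n w) -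
        ∑ i ∈ S, (Real.log (1 + D w * u i w) - Real.log (1 + D w * u' i w))) +
        P.E (fun w => if D w = 1 then g w else g' w) +
        P.E (fun w => Rp (n w) S (fun i => u i w) (fun i => u' i w) / 2 * Real.exp (-g w) +
          Rm (n w) S (fun i => u i w) (fun i => u' i w) / 2 * Real.exp (-g' w) - 1)) := by
  classical
  have fR : Fac A (fun w => Rp (n w) S (fun i => u i w) (fun i => u' i w) / 2) := by
    intro v w hvw
    have e1 : n v = n w := fn v w hvw
    have e2 : ∀ i ∈ S, (1 + u i v) / (1 + u' i v) = (1 + u i w) / (1 + u' i w) :=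
      fun i hi => by rw [fu i hi v w hvw, fu' i hi v w hvw]
    show Rp (n v) S (fun i => u i v) (fun i => u' i v) / 2 = Rp (n w) S (fun i => u i w) (fun i => u' i w) / 2
    unfold Rp
    rw [e1, Finset.prod_congr rfl e2]
  have fR' : Fac A (fun w => Rm (n w) S (fun i => u i w) (fun i => u' i w) / 2) := by
    intro v w hvw
    have e1 : n v = n w := fn v w hvw
    have e2 : ∀ i ∈ S, (1 - u i v) / (1 - u' i v) = (1 - u i w) / (1 - u' i w) :=
      fun i hi => by rw [fu i hi v w hvw, fu' i hi v w hvw]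
    show Rm (n v) S (fun i => u i v) (fun i => u' i v) / 2 = Rm (n w) S (fun i => u i w) (fun i => u' i w) / 2
    unfold Rm
    rw [e1, Finset.prod_congr rfl e2]
  have hT := fun w (hw : P.p w ≠ 0) => R_true (m0 := n w) (S := S) (u := fun i => u i w) (u' := fun i => u' i w)
    (hD w hw) (pn w hw) (pu w hw) (pu' w hw)
  have key := level_rho P (A := A) (D := D) hD fR fR' fg fg' (al := fun _ => True) (G := G) (fun _ _ _ => Iff.rfl)
    (fun _ _ _ => trivial)
    (fun w hw _ => div_nonneg (Rp_nn (hn w hw) (hu w hw) (hu' w hw)) (by norm_num))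
    (fun w hw _ => div_nonneg (Rm_nn (hn w hw) (hu w hw) (hu' w hw)) (by norm_num))
    (fun w hw _ => ⟨(hT w hw).1, (hT w hw).2.1⟩)
    (q := fun w => ex (n w) S (fun i => u i w) (fun i => u' i w)) (by
      intro w hw hG
      obtain ⟨h1, h2⟩ := hg w hw hG
      show ex (n w) S (fun i => u i w) (fun i => u' i w) = _
      rw [h1, h2, neg_zero, Real.exp_zero, mul_one, mul_one]
      unfold ex mn
      rw [← sub_div, ← add_div]
      by_cases h0 : Rp (n w) S (fun i => u i w) (fun i => u' i w) + Rm (n w) S (fun i => u i w) (fun i => u' i w) = 0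
      · rw [h0]; simp
      · field_simp)
  refine key.trans (le_of_eq ?_)
  congr 1
  rw [← P.E_add (fun w => Real.log (1 + D w * P.ce A D w) - Real.log (1 + D w * n w) -
        ∑ i ∈ S, (Real.log (1 + D w * u i w) - Real.log (1 + D w * u' i w)))]
  congr 1
  · refine P.E_congr fun w hw => ?_
    rw [ind_of trivial, one_mul, (hT w hw).2.2]
    ring
  · refine P.E_congr fun w _ => ?_
    rw [ind_of trivial, one_mul]

end level

/-! ## single additions -/

section chain

variable {Om : Type*} [Fintype Om] (P : FP Om) {ι υ ν κ : Type*} [Fintype ι] [PartialOrder ι]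

open Classical in
/-- labels with the additions at the indices of `A` -/
noncomputable def PA (L : ι → Om → υ) (V : ι → Om → ν) (A : Finset ι) (i : ι) (w : Om) : υ × Option ν :=
  (L i w, if i ∈ A then some (V i w) else none)

variable {L : ι → Om → υ} {V : ι → Om → ν}

theorem PA_eq {A : Finset ι} {i : ι} {a b : Om} : PA L V A i a = PA L V A i b ↔
    L i a = L i b ∧ (i ∈ A → V i a = V i b) := by
  classical
  unfold PA
  rw [Prod.mk.injEq]
  refine and_congr_right fun _ => ?_
  by_cases hi : i ∈ A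
  · rw [if_pos hi, if_pos hi]
    exact ⟨fun h _ => Option.some.inj h, fun h => by rw [h hi]⟩
  · rw [if_neg hi, if_neg hi]
    exact ⟨fun _ h => absurd h hi, fun _ => rfl⟩

/-- one more index is one addition in the sense of `Bal` -/
theorem pa_add [DecidableEq ι] {A : Finset ι} {k : ι} : Add (PA L V A) (PA L V (insert k A)) k (V k) := by
  refine ⟨fun i hi a b hab => ?_, fun i hi a b hab => ?_, fun a b hab => ?_, fun a b hab => ?_⟩
  · rw [PA_eq] at hab ⊢
    refine ⟨hab.1, fun h => ?_⟩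
    rcases Finset.mem_insert.1 h with h | h
    · exact absurd h hi
    · exact hab.2 h
  · rw [PA_eq] at hab ⊢
    exact ⟨hab.1, fun h => hab.2 (Finset.mem_insert_of_mem h)⟩
  · simp only [Prod.mk.injEq, PA_eq] at hab
    rw [PA_eq]
    exact ⟨hab.1.1, fun _ => hab.2⟩
  · rw [PA_eq] at hab
    simp only [Prod.mk.injEq, PA_eq]
    exact ⟨⟨hab.1, fun h => hab.2 (Finset.mem_insert_of_mem h)⟩, hab.2 (Finset.mem_insert_self k A)⟩

/-- nothing added -/
theorem MP_pa0 (o : ι) (W : Om → κ) : MP P (PA L V ∅) o W = MP P L o W := by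
  refine MP_congr P o ?_ ?_ (Fac.refl _) (Fac.refl _)
  · intro i a b hab
    exact (PA_eq.1 hab).1
  · intro i a b hab
    exact PA_eq.2 ⟨hab, fun h => absurd h (Finset.notMem_empty i)⟩

/-- everything added -/
theorem MP_pa1 {υ' : Type*} {L' : ι → Om → υ'} (h : AddAll L V L') (o : ι) (W : Om → κ) :
    MP P (PA L V univ) o W = MP P L' o W := by
  refine MP_congr P o ?_ ?_ (Fac.refl _) (Fac.refl _)
  · intro i a b hab
    have := PA_eq.1 hab
    exact h.eq.2 ⟨this.1, this.2 (mem_univ i)⟩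
  · intro i a b hab
    have := h.eq.1 hab
    exact PA_eq.2 ⟨this.1, fun _ => this.2⟩

/-- **the joint loss is the sum of the single losses, any order** (`f` = enumeration of the indices) -/
theorem MP_chain [DecidableEq ι] {υ' : Type*} {L' : ι → Om → υ'} (h : AddAll L V L') (o : ι) (W : Om → κ) {n : ℕ}
    (f : ℕ → ι) (hf : (Finset.range n).image f = univ) :
    MP P L o W - MP P L' o W = ∑ k ∈ range n, (MP P (PA L V ((Finset.range k).image f)) o W -
      MP P (PA L V (insert (f k) ((Finset.range k).image f))) o W) := by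
  have e : ∀ k, insert (f k) ((Finset.range k).image f) = (Finset.range (k + 1)).image f := by
    intro k
    rw [Finset.range_add_one, Finset.image_insert]
  simp only [e]
  rw [Finset.sum_range_sub' (fun k => MP P (PA L V ((Finset.range k).image f)) o W), hf, MP_pa1 P h]
  simp only [Finset.range_zero, Finset.image_empty]
  rw [MP_pa0]

end chain

/-! ## two families `p' ⊂ p` -/

section rel

variable {K : Type} {Om υ ν υ' κ : Type*} [Fintype Om] [Fintype K] [DecidableEq K] (P : FP Om) {p p' : Finset K → Prop}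
  [DecidablePred p] [DecidablePred p']

/-- chain rule over a set `S` of index sets; everything below is in `S` or known -/
theorem Hc_fam_S {ι : Type*} (V : Finset K → Om → υ) (Z : Om → ι) (n : ℕ) : ∀ S : Finset (Finset K), S.card = n →
    (∀ I ∈ S, ∀ I', I' ⊂ I → I' ∈ S ∨ Fac Z (V I')) →
      P.Hc (fun w => (fun I => if I ∈ S then some (V I w) else none : Finset K → Option υ)) Z ≤
        ∑ I ∈ S, P.Hc (V I) (fun w => (lo V I w, Z w)) := by
  classical
  induction n with
  | zero =>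
    intro S hS _
    rw [Finset.card_eq_zero] at hS
    subst hS
    rw [Finset.sum_empty]
    have h1 : P.Hc (fun w => (fun I => if I ∈ (∅ : Finset (Finset K)) then some (V I w) else none :
        Finset K → Option υ)) Z ≤ P.Hc (fun _ => ()) Z := by
      refine P.Hc_mono _ ?_
      intro _ _ _
      funext I
      simp
    have h2 : P.Hc (fun _ => ()) Z ≤ 0 := (P.Hc_le_H _ _).trans (le_of_eq (P.H_const ()))
    exact h1.trans h2
  | succ n ih =>
    intro S hS hdown
    have hne : S.Nonempty := by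
      rw [← Finset.card_pos]; omega
    obtain ⟨j, hj, hmax⟩ := S.exists_maximal hne
    have hcard : (S.erase j).card = n := by rw [Finset.card_erase_of_mem hj]; omega
    have k := ih (S.erase j) hcard (by
      intro I hI I' hI'
      rcases hdown I (Finset.mem_of_mem_erase hI) I' hI' with h1 | h1
      · left
        refine Finset.mem_erase.2 ⟨?_, h1⟩
        rintro rfl
        exact absurd (hmax (Finset.mem_of_mem_erase hI) hI'.le) (not_le_of_gt hI')
      · exact Or.inr h1)
    rw [← Finset.add_sum_erase S _ hj]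
    have h1 : P.Hc (fun w => (fun I => if I ∈ S then some (V I w) else none : Finset K → Option υ)) Z ≤
        P.Hc (fun w => (V j w, (fun I => if I ∈ S.erase j then some (V I w) else none : Finset K → Option υ))) Z := by
      refine P.Hc_mono _ ?_
      intro v w hv
      simp only [Prod.mk.injEq] at hv
      funext I
      show (if I ∈ S then some (V I v) else none) = (if I ∈ S then some (V I w) else none)
      by_cases hI : I ∈ S
      · rw [if_pos hI, if_pos hI]
        by_cases hij : I = j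
        · rw [hij, hv.1.1]
        · have := congrFun hv.1.2 I
          simpa only [if_pos (Finset.mem_erase.2 ⟨hij, hI⟩)] using this
      · rw [if_neg hI, if_neg hI]
    have h2 := P.Hc_chain (V j)
      (fun w => (fun I => if I ∈ S.erase j then some (V I w) else none : Finset K → Option υ)) Z
    have h3 : P.Hc (V j) (fun w => ((fun I => if I ∈ S.erase j then some (V I w) else none : Finset K → Option υ), Z w)) ≤
        P.Hc (V j) (fun w => (lo V j w, Z w)) := by
      refine P.Hc_anti (V j) ?_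
      intro v w hv
      simp only [Prod.mk.injEq] at hv ⊢
      refine ⟨lo_eq.2 fun I hI => ?_, hv.2⟩
      rcases hdown j hj I hI with h6 | h6
      · have h4 : I ∈ S.erase j := Finset.mem_erase.2 ⟨hI.ne, h6⟩
        have h5 := congrFun hv.1 I
        simp only [if_pos h4] at h5
        exact Option.some.inj h5
      · exact h6 v w hv.2
    linarith

/-- the potential as a sum over index sets -/
theorem MP_LP (hp : ∀ I J : Finset K, I ⊆ J → p J → p I) (h0 : p ∅) (L : Finset K → Om → υ) (W : Om → κ) :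
    MP P (LP p L) (o0 h0) W = ∑ J ∈ univ.filter (fun J => p J ∧ J ≠ ∅), P.Hc (L J) (fun w => (lo L J w, W w)) -
      P.Hc (all (LP p L)) (fun w => (L ∅ w, W w)) := by
  classical
  unfold MP
  congr 1
  have e : ∀ j : {J // p J}, P.Hc (LP p L j) (fun w => (bel (LP p L) j w, W w)) =
      P.Hc (L j.1) (fun w => (lo L j.1 w, W w)) := by
    intro j
    refine P.Hc_congr_right _ ?_ ?_
    · intro a b hab
      simp only [Prod.mk.injEq, LP_bel hp] at hab ⊢
      exact hab
    · intro a b hab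
      simp only [Prod.mk.injEq, LP_bel hp] at hab ⊢
      exact hab
  have hE : (univ.erase (o0 h0) : Finset {J // p J}) =
      @Finset.erase _ (fun a b => Classical.propDecidable (a = b)) univ (o0 h0) := by
    ext i; simp
  rw [Finset.sum_congr rfl fun j _ => e j, ← hE]
  refine Finset.sum_bij (fun j _ => j.1) ?_ ?_ ?_ (fun _ _ => rfl)
  · intro j hj
    refine Finset.mem_filter.2 ⟨mem_univ _, j.2, fun hh => ?_⟩
    exact (Finset.mem_erase.1 hj).1 (Subtype.ext hh)
  · intro i _ j _ hij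
    exact Subtype.ext hij
  · intro J hJ
    obtain ⟨_, h2, h3⟩ := Finset.mem_filter.1 hJ
    exact ⟨⟨J, h2⟩, Finset.mem_erase.2 ⟨fun hh => h3 (congrArg Subtype.val hh), mem_univ _⟩, rfl⟩

variable (p p') in
/-- the relative potential -/
noncomputable def MR (L : Finset K → Om → υ) (W : Om → κ) : ℝ :=
  ∑ J ∈ univ.filter (fun J => p J ∧ ¬ p' J), P.Hc (L J) (fun w => (lo L J w, W w)) -
    P.Hc (all (LP p L)) (fun w => (all (LP p' L) w, W w))

theorem MR_eq (hp : ∀ I J : Finset K, I ⊆ J → p J → p I) (hp' : ∀ I J : Finset K, I ⊆ J → p' J → p' I) (h0 : p ∅)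
    (h0' : p' ∅) (hsub : ∀ J, p' J → p J) (L : Finset K → Om → υ) (W : Om → κ) :
    MR P p p' L W = MP P (LP p L) (o0 h0) W - MP P (LP p' L) (o0 h0') W := by
  classical
  rw [MP_LP P hp h0, MP_LP P hp' h0']
  have e1 : ∑ J ∈ univ.filter (fun J => p J ∧ J ≠ ∅), P.Hc (L J) (fun w => (lo L J w, W w)) =
      ∑ J ∈ univ.filter (fun J => p' J ∧ J ≠ ∅), P.Hc (L J) (fun w => (lo L J w, W w)) +
      ∑ J ∈ univ.filter (fun J => p J ∧ ¬ p' J), P.Hc (L J) (fun w => (lo L J w, W w)) := by
    rw [← Finset.sum_union]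
    · refine Finset.sum_congr ?_ fun _ _ => rfl
      ext J
      simp only [Finset.mem_filter, Finset.mem_univ, true_and, Finset.mem_union]
      constructor
      · rintro ⟨h1, h2⟩
        by_cases h3 : p' J
        · exact Or.inl ⟨h3, h2⟩
        · exact Or.inr ⟨h1, h3⟩
      · rintro (⟨h1, h2⟩ | ⟨h1, h2⟩)
        · exact ⟨hsub J h1, h2⟩
        · refine ⟨h1, ?_⟩
          rintro rfl
          exact h2 h0'
    · rw [Finset.disjoint_left]
      intro J h1 h2
      exact (Finset.mem_filter.1 h2).2.2 (Finset.mem_filter.1 h1).2.1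
  have e2 := P.Hc_chain (all (LP p L)) (all (LP p' L)) (fun w => (L ∅ w, W w))
  have e3 : P.Hc (fun w => (all (LP p L) w, all (LP p' L) w)) (fun w => (L ∅ w, W w)) =
      P.Hc (all (LP p L)) (fun w => (L ∅ w, W w)) := by
    refine P.Hc_congr ?_ (Fac.refl _) ?_ (Fac.refl _)
    · intro a b hab
      simp only [Prod.mk.injEq] at hab
      exact hab.1.1
    · intro a b hab
      simp only [Prod.mk.injEq] at hab ⊢
      exact ⟨hab.1, funext fun i => congrFun hab.1 ⟨i.1, hsub i.1 i.2⟩⟩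
  have e4 : P.Hc (all (LP p L)) (fun w => (all (LP p' L) w, L ∅ w, W w)) =
      P.Hc (all (LP p L)) (fun w => (all (LP p' L) w, W w)) := by
    refine P.Hc_congr_right _ ?_ ?_
    · intro a b hab
      simp only [Prod.mk.injEq] at hab ⊢
      exact ⟨hab.1, hab.2.2⟩
    · intro a b hab
      simp only [Prod.mk.injEq] at hab ⊢
      exact ⟨hab.1, congrFun hab.1 ⟨∅, h0'⟩, hab.2⟩
  unfold MR
  rw [e1]
  linarith

theorem chain_rel {ι : Type*} (hp : ∀ I J : Finset K, I ⊆ J → p J → p I) (V : Finset K → Om → υ) (Z : Om → ι) :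
    P.Hc (all (LP p V)) (fun w => (all (LP p' V) w, Z w)) ≤
      ∑ J ∈ univ.filter (fun J => p J ∧ ¬ p' J), P.Hc (V J) (fun w => (lo V J w, Z w)) := by
  classical
  have h1 := Hc_fam_S P V (fun w => (all (LP p' V) w, Z w)) _ (univ.filter (fun J => p J ∧ ¬ p' J)) rfl (by
    intro I hI I' hI'
    obtain ⟨_, h1, _⟩ := Finset.mem_filter.1 hI
    have h3 := hp I' I hI'.subset h1
    by_cases h4 : p' I'
    · right
      intro a b hab
      simp only [Prod.mk.injEq] at hab
      exact congrFun hab.1 ⟨I', h4⟩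
    · exact Or.inl (Finset.mem_filter.2 ⟨mem_univ _, h3, h4⟩))
  refine le_trans (P.Hc_mono _ ?_) (h1.trans ?_)
  · intro a b hab
    simp only [Prod.mk.injEq] at hab
    funext i
    by_cases h4 : p' i.1
    · exact congrFun hab.2.1 ⟨i.1, h4⟩
    · have h5 := congrFun hab.1 i.1
      have hm : i.1 ∈ univ.filter (fun J => p J ∧ ¬ p' J) := Finset.mem_filter.2 ⟨mem_univ i.1, i.2, h4⟩
      simp only [if_pos hm] at h5
      exact Option.some.inj h5
  · refine Finset.sum_le_sum fun J _ => P.Hc_anti _ ?_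
    intro a b hab
    simp only [Prod.mk.injEq] at hab ⊢
    exact ⟨hab.1, hab.2.2⟩

theorem MR_nonneg (hp : ∀ I J : Finset K, I ⊆ J → p J → p I) (L : Finset K → Om → υ) (W : Om → κ) :
    0 ≤ MR P p p' L W := by
  have := chain_rel P (p' := p') hp L W
  unfold MR
  linarith

/-- **balance of a joint addition for the relative potential** -/
theorem MR_joint {L : Finset K → Om → υ} {V : Finset K → Om → ν} {L' : Finset K → Om → υ'}
    (hL : ∀ J a b, L' J a = L' J b ↔ L J a = L J b ∧ V J a = V J b) (W : Om → κ) :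
    MR P p p' L W - MR P p p' L' W =
      ∑ J ∈ univ.filter (fun J => p J ∧ ¬ p' J), (P.I (L J) (lo V J) (fun w => (lo L J w, W w)) -
        P.Hc (V J) (fun w => (lo V J w, le L J w, W w))) -
      P.I (all (LP p L)) (all (LP p' V)) (fun w => (all (LP p' L) w, W w)) +
      P.Hc (all (LP p V)) (fun w => (all (LP p' V) w, (all (LP p L) w, all (LP p' L) w), W w)) := by
  classical
  have hlo : ∀ J a b, lo L' J a = lo L' J b ↔ lo L J a = lo L J b ∧ lo V J a = lo V J b := by
    intro J a b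
    rw [lo_eq, lo_eq, lo_eq]
    constructor
    · intro hh
      exact ⟨fun I hI => ((hL I a b).1 (hh I hI)).1, fun I hI => ((hL I a b).1 (hh I hI)).2⟩
    · rintro ⟨h1, h2⟩ I hI
      exact (hL I a b).2 ⟨h1 I hI, h2 I hI⟩
  have hall : ∀ (q : Finset K → Prop) a b, all (LP q L') a = all (LP q L') b ↔
      all (LP q L) a = all (LP q L) b ∧ all (LP q V) a = all (LP q V) b := by
    intro q a b
    unfold all LP
    rw [funext_iff, funext_iff, funext_iff]
    constructor
    · intro hh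
      exact ⟨fun i => ((hL i.1 a b).1 (hh i)).1, fun i => ((hL i.1 a b).1 (hh i)).2⟩
    · rintro ⟨h1, h2⟩ i
      exact (hL i.1 a b).2 ⟨h1 i, h2 i⟩
  have e1 : ∀ J, P.Hc (L' J) (fun w => (lo L' J w, W w)) = P.Hc (L J) (fun w => (lo L J w, W w)) -
      P.I (L J) (lo V J) (fun w => (lo L J w, W w)) + P.Hc (V J) (fun w => (lo V J w, le L J w, W w)) := by
    intro J
    have h1 := step_gen P (L J) (V J) (lo L J) (lo V J) W
    have h2 : P.Hc (L' J) (fun w => (lo L' J w, W w)) =
        P.Hc (fun w => (L J w, V J w)) (fun w => ((lo L J w, lo V J w), W w)) := by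
      refine P.Hc_congr ?_ ?_ ?_ ?_
      · intro a b hab; simp only [Prod.mk.injEq, hL] at hab ⊢; exact hab.1
      · intro a b hab; simp only [Prod.mk.injEq, hlo] at hab ⊢; exact hab
      · intro a b hab; simp only [Prod.mk.injEq] at hab; exact (hL J a b).2 hab.1
      · intro a b hab; simp only [Prod.mk.injEq, hlo] at hab ⊢; exact hab
    have h3 : P.Hc (V J) (fun w => (lo V J w, (L J w, lo L J w), W w)) =
        P.Hc (V J) (fun w => (lo V J w, le L J w, W w)) := by
      refine P.Hc_congr_right (V J) ?_ ?_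
      · intro a b hab; simp only [Prod.mk.injEq, le_eq'] at hab ⊢; exact hab
      · intro a b hab; simp only [Prod.mk.injEq, le_eq'] at hab ⊢; exact hab
    rw [h2, h1, h3]
  have e2 : P.Hc (all (LP p L')) (fun w => (all (LP p' L') w, W w)) =
      P.Hc (all (LP p L)) (fun w => (all (LP p' L) w, W w)) -
      P.I (all (LP p L)) (all (LP p' V)) (fun w => (all (LP p' L) w, W w)) +
      P.Hc (all (LP p V)) (fun w => (all (LP p' V) w, (all (LP p L) w, all (LP p' L) w), W w)) := by
    have h1 := step_gen P (all (LP p L)) (all (LP p V)) (all (LP p' L)) (all (LP p' V)) W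
    have h2 : P.Hc (all (LP p L')) (fun w => (all (LP p' L') w, W w)) =
        P.Hc (fun w => (all (LP p L) w, all (LP p V) w)) (fun w => ((all (LP p' L) w, all (LP p' V) w), W w)) := by
      refine P.Hc_congr ?_ ?_ ?_ ?_
      · intro a b hab; simp only [Prod.mk.injEq, hall] at hab ⊢; exact hab.1
      · intro a b hab; simp only [Prod.mk.injEq, hall] at hab ⊢; exact hab
      · intro a b hab; simp only [Prod.mk.injEq] at hab; exact (hall p a b).2 hab.1
      · intro a b hab; simp only [Prod.mk.injEq, hall] at hab ⊢; exact hab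
    rw [h2, h1]
  unfold MR
  rw [Finset.sum_congr rfl fun J _ => e1 J, e2, Finset.sum_add_distrib, Finset.sum_sub_distrib, Finset.sum_sub_distrib]
  ring

theorem MR_joint_le (hp : ∀ I J : Finset K, I ⊆ J → p J → p I) {L : Finset K → Om → υ} {V : Finset K → Om → ν}
    {L' : Finset K → Om → υ'} (hL : ∀ J a b, L' J a = L' J b ↔ L J a = L J b ∧ V J a = V J b) (W : Om → κ) :
    MR P p p' L W - MR P p p' L' W ≤
      ∑ J ∈ univ.filter (fun J => p J ∧ ¬ p' J), P.I (L J) (lo V J) (fun w => (lo L J w, W w)) -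
      P.I (all (LP p L)) (all (LP p' V)) (fun w => (all (LP p' L) w, W w)) := by
  rw [MR_joint P hL W, Finset.sum_sub_distrib]
  have h1 := chain_rel P (p' := p') hp V (fun w => ((all (LP p L) w, all (LP p' L) w), W w))
  have h2 : ∑ J ∈ univ.filter (fun J => p J ∧ ¬ p' J),
      P.Hc (V J) (fun w => (lo V J w, (all (LP p L) w, all (LP p' L) w), W w)) ≤
      ∑ J ∈ univ.filter (fun J => p J ∧ ¬ p' J), P.Hc (V J) (fun w => (lo V J w, le L J w, W w)) := by
    refine Finset.sum_le_sum fun J hJ => P.Hc_anti _ ?_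
    have hJ' := (Finset.mem_filter.1 hJ).2.1
    intro a b hab
    simp only [Prod.mk.injEq] at hab ⊢
    refine ⟨hab.1, le_eq.2 fun I hI => congrFun hab.2.1.1 ⟨I, hp I J hI hJ'⟩, hab.2.2⟩
  linarith

end rel

/-! ## the process, losses in the old saturated law -/

section proc

variable {K X β γ φ υ : Type} [Fintype K] [DecidableEq K] [Fintype X] [Fintype β] [Fintype φ] [Nonempty X] [Nonempty β]
  {D : HD K X β γ φ} {al : ℝ} (h : D.Thick al) {dg : ℕ → X → ℝ} {prr : ℕ → K → φ → φ} {T : ℕ} {Lam : ℝ}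
  (v : ℕ → Finset K → X → (K → β) → υ) {p : Finset K → Prop} [DecidablePred p] (h0 : p ∅) {t : ℕ}

/-- the potential after the additions of the time `t + 1`, law and letters of the time `t` -/
noncomputable def Mf (t : ℕ) : ℝ := MP (D.P h t) (LP p (LL (Um v (t + 2)))) (o0 h0) (WW D (t + 1))

/-- loss of the additions of the time `t + 1` in the law of the time `t` -/
noncomputable def lsO (t : ℕ) : ℝ := Md h v h0 t - Mf h v h0 t

/-- growth by the letters of the time `t + 1`, after the additions -/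
noncomputable def bgN (t : ℕ) : ℝ := Mt h v h0 (t + 1) - Mf h v h0 t

/-- the law of the time `t` as an image of the law of the time `t + 1` -/
theorem MP_push (hpr : ∀ l x y F, D.kf t l x y F = ∑ F', ind (prr t l F' = F) * D.kf (t + 1) l x y F') (n s : ℕ) :
    MP (D.P h t) (LP p (LL (Um v n))) (o0 h0) (WW D s) =
      MP (D.P h (t + 1)) (fun i w => LP p (LL (Um v n)) i (old prr t w)) (o0 h0) (WW D s) := by
  unfold MP
  congr 1
  · refine Finset.sum_congr rfl fun j _ => ?_
    exact (push_Hc h hpr (LP p (LL (Um v n)) j) (fun w => (bel (LP p (LL (Um v n))) j w, WW D s w))).symm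
  · exact (push_Hc h hpr (all (LP p (LL (Um v n)))) (fun w => (LP p (LL (Um v n)) (o0 h0) w, WW D s w))).symm

/-- new letters only increase the potential -/
theorem letters_le (hu : ¬ p univ) (n s : ℕ) (P : FP (Pt K X β φ)) :
    MP P (fun i w => LP p (LL (Um v n)) i (old prr t w)) (o0 h0) (WW D s) ≤
      MP P (LP p (LL (Um v n))) (o0 h0) (WW D s) := by
  classical
  have hA : AddAll (fun (i : {J // p J}) w => LP p (LL (φ := φ) (Um v n)) i (old prr t w)) (fun i w => ltr i.1 w)
      (LP p (LL (Um v n))) := by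
    refine ⟨fun i a b hab => ?_, fun i a b hab => ?_⟩
    · simp only [Prod.mk.injEq, ltr_eq] at hab
      have h1 := hab.1
      unfold LP at h1 ⊢
      rw [LL_eq] at h1 ⊢
      exact ⟨h1.1, hab.2⟩
    · unfold LP at hab ⊢
      rw [LL_eq] at hab
      simp only [Prod.mk.injEq, ltr_eq, LL_eq]
      exact ⟨⟨hab.1, fun l hl => congrArg (prr t l) (hab.2 l hl)⟩, hab.2⟩
  have h1 := MP_joint_le (P := P) (o := o0 h0) hA (WW D s)
  have h2 : ∀ j ∈ univ.erase (o0 h0), gnB P (fun (i : {J // p J}) w =>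
      LP p (LL (Um v n)) i (old prr t w)) (fun i w => ltr i.1 w) (WW D s) j = 0 := by
    intro j _
    have hj : j.1 ≠ univ := fun hh => hu (hh ▸ j.2)
    unfold gnB
    have hc : ∀ a b : Pt K X β φ, bel (fun (i : {J // p J}) w => ltr (φ := φ) i.1 w) j a =
        bel (fun (i : {J // p J}) w => ltr i.1 w) j b := by
      intro a b
      rw [bel_iff]
      intro i hi
      rw [ltr_eq]
      exact fun l hl => absurd hl (lt_no hj hi)
    have e1 := P.I_congr (X := fun w => LP p (LL (Um v n)) j (old prr t w))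
      (w := bel (fun (i : {J // p J}) w => ltr (φ := φ) i.1 w) j) (w' := fun _ => ())
      (Z := fun w => (bel (fun (i : {J // p J}) w => LP p (LL (Um v n)) i (old prr t w)) j w, WW D s w))
      (Fac.const _ ()) (fun a b _ => hc a b)
    rw [e1, FP.I_eq_Hc, P.Hc_congr_right _ (Fac.snd _ _) ((Fac.const _ ()).prod (Fac.refl _)), sub_self]
  rw [Finset.sum_eq_zero h2] at h1
  linarith

theorem bgN_nonneg (hu : ¬ p univ)
    (hpr : ∀ l x y F, D.kf t l x y F = ∑ F', ind (prr t l F' = F) * D.kf (t + 1) l x y F') :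
    0 ≤ bgN h v h0 t := by
  have h1 := letters_le (D := D) (prr := prr) (t := t) v h0 hu (t + 2) (t + 1) (D.P h (t + 1))
  rw [← MP_push h v h0 hpr] at h1
  unfold bgN Mt Mf
  linarith

/-- no letters in the family -/
theorem bgN_zero (hl : ∀ l : K, ¬ p (univ.erase l))
    (hpr : ∀ l x y F, D.kf t l x y F = ∑ F', ind (prr t l F' = F) * D.kf (t + 1) l x y F') :
    bgN h v h0 t = 0 := by
  unfold bgN Mt Mf
  rw [MP_push h v h0 hpr, sub_eq_zero]
  refine MP_congr _ (o0 h0) ?_ ?_ (Fac.refl _) (Fac.refl _)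
  · intro i a b hab
    unfold LP at hab ⊢
    rw [LL_eq] at hab ⊢
    exact ⟨hab.1, fun l hl' => congrArg (prr t l) (hab.2 l hl')⟩
  · intro i a b hab
    unfold LP at hab ⊢
    rw [LL_eq] at hab ⊢
    exact ⟨hab.1, fun l hl' => absurd (hl' ▸ i.2) (hl l)⟩

/-- **THE EXACT SUM, losses in the old law** -/
theorem rho_sumO (H : D.Hyp dg prr al T Lam) :
    ∑ t ∈ range T, (D.P h t).E (rho (D.P h t) (fun w => dg t w.1) (LP p (LL (Um v (t + 1)))) (o0 h0) (WW D t)) =
      Mt h v h0 T - Mt h v h0 0 + ∑ t ∈ range T, lsO h v h0 t - ∑ t ∈ range T, bgN h v h0 t := by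
  have h1 : ∀ t ∈ range T,
      (D.P h t).E (rho (D.P h t) (fun w => dg t w.1) (LP p (LL (Um v (t + 1)))) (o0 h0) (WW D t)) =
      (Mt h v h0 (t + 1) - Mt h v h0 t) + lsO h v h0 t - bgN h v h0 t := by
    intro t ht
    rw [← Md_eq h v h0 H (Finset.mem_range.1 ht)]
    unfold lsO bgN
    ring
  rw [Finset.sum_congr rfl h1, Finset.sum_sub_distrib, Finset.sum_add_distrib, Finset.sum_range_sub (fun t => Mt h v h0 t)]

variable {v} in
/-- gains with the base `y, node` and with the base `y_J, node`, law of an earlier time -/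
theorem gnB_eq' (hv : Codes D v) (hp : ∀ I J : Finset K, I ⊆ J → p J → p I) {s : ℕ} (hts : t ≤ s) (j : {J // p J}) :
    gnB (D.P h t) (LP p (LL (Um v s))) (LP p (Vt v s)) (WW D s) j =
      gain (D.P h t) (BB D s) (LL (Um v s)) (Vt v s) j.1 := by
  have hL : ∀ I ⊆ j.1, Fac (fun w : Pt K X β φ => (AA j.1 w, BB D s j.1 w)) (LL (Um v s) I) :=
    fun I hI => LL_AA hv (by omega) hI
  have hlo : Fac (fun w : Pt K X β φ => (AA j.1 w, BB D s j.1 w)) (lo (LL (Um v s)) j.1) := by
    intro a b hab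
    rw [lo_eq]
    exact fun I hI => hL I hI.subset a b hab
  have hV : Fac (fun w : Pt K X β φ => (AA j.1 w, BB D s j.1 w)) (lo (Vt v s) j.1) := by
    intro a b hab
    rw [lo_eq]
    exact fun I hI => Vt_AA hv hI.subset a b hab
  have e0 : gnB (D.P h t) (LP p (LL (Um v s))) (LP p (Vt v s)) (WW D s) j =
      (D.P h t).I (LL (Um v s) j.1) (lo (Vt v s) j.1) (fun w => (lo (LL (Um v s)) j.1 w, WW D s w)) := by
    unfold gnB
    have e1 := (D.P h t).I_congr (X := LP p (LL (φ := φ) (Um v s)) j) (w := bel (LP p (Vt v s)) j)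
      (w' := lo (Vt v s) j.1) (Z := fun w => (bel (LP p (LL (Um v s))) j w, WW D s w))
      (fun a b hab => (LP_bel hp).1 hab) (fun a b hab => (LP_bel hp).2 hab)
    rw [e1]
    refine (D.P h t).I_congr_cond ?_ ?_
    · intro a b hab
      simp only [Prod.mk.injEq, LP_bel hp] at hab ⊢
      exact hab
    · intro a b hab
      simp only [Prod.mk.injEq, LP_bel hp] at hab ⊢
      exact hab
  rw [e0]
  unfold gain
  rw [FP.I_eq_Hc, FP.I_eq_Hc]
  have e1 := Hc_base h (J := j.1) hts (T := LL (Um v s) j.1) (R := lo (LL (Um v s)) j.1)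
    (hL j.1 (Finset.Subset.refl _)) hlo
  have e2 := Hc_base h (J := j.1) hts (T := LL (Um v s) j.1)
    (R := fun w => (lo (Vt v s) j.1 w, lo (LL (Um v s)) j.1 w)) (hL j.1 (Finset.Subset.refl _)) (hV.prod hlo)
  have e3 : (D.P h t).Hc (LL (Um v s) j.1) (fun w => ((lo (Vt v s) j.1 w, lo (LL (Um v s)) j.1 w), WW D s w)) =
      (D.P h t).Hc (LL (Um v s) j.1) (fun w => (lo (Vt v s) j.1 w, lo (LL (Um v s)) j.1 w, WW D s w)) := by
    refine (D.P h t).Hc_congr_right _ ?_ ?_
    · intro a b hab; simp only [Prod.mk.injEq] at hab ⊢; tauto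
    · intro a b hab; simp only [Prod.mk.injEq] at hab ⊢; tauto
  have e4 : (D.P h t).Hc (LL (Um v s) j.1) (fun w => ((lo (Vt v s) j.1 w, lo (LL (Um v s)) j.1 w), BB D s j.1 w)) =
      (D.P h t).Hc (LL (Um v s) j.1) (fun w => (lo (Vt v s) j.1 w, lo (LL (Um v s)) j.1 w, BB D s j.1 w)) := by
    refine (D.P h t).Hc_congr_right _ ?_ ?_
    · intro a b hab; simp only [Prod.mk.injEq] at hab ⊢; tauto
    · intro a b hab; simp only [Prod.mk.injEq] at hab ⊢; tauto
  rw [e1, ← e3, ← e4, e2]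

/-- sums over the family without the class -/
theorem sum_p [DecidableEq {J // p J}] (f : Finset K → ℝ) :
    ∑ j ∈ univ.erase (o0 h0), f j.1 = ∑ J ∈ univ.filter (fun J => p J ∧ J ≠ ∅), f J := by
  refine Finset.sum_bij (fun j _ => j.1) ?_ ?_ ?_ (fun _ _ => rfl)
  · intro j hj
    refine Finset.mem_filter.2 ⟨mem_univ _, j.2, fun hh => ?_⟩
    exact (Finset.mem_erase.1 hj).1 (Subtype.ext hh)
  · intro i _ j _ hij
    exact Subtype.ext hij
  · intro J hJ
    obtain ⟨_, h2, h3⟩ := Finset.mem_filter.1 hJ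
    exact ⟨⟨J, h2⟩, Finset.mem_erase.2 ⟨fun hh => h3 (congrArg Subtype.val hh), mem_univ _⟩, rfl⟩

variable {v} in
/-- exact joint loss, old law -/
theorem lsO_eq [DecidableEq {J // p J}] (t : ℕ) : lsO h v h0 t = ∑ j ∈ univ.erase (o0 h0),
    (gnB (D.P h t) (LP p (LL (Um v (t + 1)))) (LP p (Vt v (t + 1))) (WW D (t + 1)) j -
      csB (D.P h t) (LP p (LL (Um v (t + 1)))) (LP p (Vt v (t + 1))) (WW D (t + 1)) j) -
      (D.P h t).I (all (LP p (LL (Um v (t + 1))))) (LP p (Vt v (t + 1)) (o0 h0))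
        (fun w => (LP p (LL (Um v (t + 1))) (o0 h0) w, WW D (t + 1) w)) +
      (D.P h t).Hc (all (LP p (Vt v (t + 1))))
        (fun w => (LP p (Vt v (t + 1)) (o0 h0) w,
          (all (LP p (LL (Um v (t + 1)))) w, LP p (LL (Um v (t + 1))) (o0 h0) w), WW D (t + 1) w)) :=
  MP_joint addAll (WW D (t + 1))

variable {v} in
/-- the joint loss is at most the sum of the gains, old law, node `t + 1` -/
theorem lsO_le (hv : Codes D v) (hp : ∀ I J : Finset K, I ⊆ J → p J → p I) (t : ℕ) :
    lsO h v h0 t ≤ ∑ J ∈ univ.filter (fun J => p J ∧ J ≠ ∅),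
      gain (D.P h t) (BB D (t + 1)) (LL (Um v (t + 1))) (Vt v (t + 1)) J := by
  classical
  have h1 := MP_joint_le (P := D.P h t) (o := o0 h0) (addAll (v := v) (p := p) (t := t + 1)) (WW D (t + 1))
  rw [Finset.sum_congr rfl fun j _ => gnB_eq' h hv hp (Nat.le_succ t) j] at h1
  rw [sum_p h0 (fun J => gain (D.P h t) (BB D (t + 1)) (LL (Um v (t + 1))) (Vt v (t + 1)) J)] at h1
  exact h1

/-- the joint loss as a sum of single losses in any order -/
theorem lsO_chain [DecidableEq {J // p J}] {n : ℕ} (f : ℕ → {J // p J}) (hf : (Finset.range n).image f = univ) (t : ℕ) :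
    lsO h v h0 t = ∑ k ∈ range n,
      (MP (D.P h t) (PA (LP p (LL (Um v (t + 1)))) (LP p (Vt v (t + 1))) ((Finset.range k).image f)) (o0 h0) (WW D (t + 1)) -
      MP (D.P h t) (PA (LP p (LL (Um v (t + 1)))) (LP p (Vt v (t + 1))) (insert (f k) ((Finset.range k).image f)))
        (o0 h0) (WW D (t + 1))) :=
  MP_chain (D.P h t) addAll (o0 h0) (WW D (t + 1)) f hf

/-! ## the means in the form of `GM/Harm`, any family -/

variable {v}

theorem uu_buP (H : D.Hyp dg prr al T Lam) (hv : Codes D v) (hp : ∀ I J : Finset K, I ⊆ J → p J → p I)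
    {w : Pt K X β φ} (hw : (D.P h t).p w ≠ 0) (j : {J // p J}) : uu (UU v) h dg j.1 t w =
      bu (D.P h t) (fun w => dg t w.1) (LP p (LL (Um v (t + 1)))) (WW D t) j w := by
  unfold uu bu
  have e1 := ce_base h (J := j.1) (t := t) (s := t) le_rfl (f := fun w : Pt K X β φ => dg t w.1)
    (R := le (LL (Um v (t + 1))) j.1) (fun w _ => H.dg_val t w.1) dg_AA (le_AA hv j.1) hw
  have e2 : (D.P h t).ce (eJ D (UU v) t j.1) (fun v => dg t v.1) w =
      (D.P h t).ce (fun w => (le (LL (Um v (t + 1))) j.1 w, BB D t j.1 w)) (fun v => dg t v.1) w := by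
    refine (D.P h t).ce_congr_map ?_ ?_ _ w
    · intro a b hab
      rw [eJ_eq] at hab
      simp only [Prod.mk.injEq]
      exact hab
    · intro a b hab
      rw [eJ_eq]
      simp only [Prod.mk.injEq] at hab
      exact hab
  have e3 : (D.P h t).ce (fun w => (ble (LP p (LL (Um v (t + 1)))) j w, WW D t w)) (fun v => dg t v.1) w =
      (D.P h t).ce (fun w => (le (LL (Um v (t + 1))) j.1 w, WW D t w)) (fun v => dg t v.1) w := by
    refine (D.P h t).ce_congr_map ?_ ?_ _ w
    · intro a b hab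
      simp only [Prod.mk.injEq, LP_ble hp] at hab ⊢
      exact hab
    · intro a b hab
      simp only [Prod.mk.injEq, LP_ble hp] at hab ⊢
      exact hab
  rw [e2, e3, e1]

theorem ul_blP (H : D.Hyp dg prr al T Lam) (hv : Codes D v) (hp : ∀ I J : Finset K, I ⊆ J → p J → p I)
    (hu : ¬ p univ) {w : Pt K X β φ} (hw : (D.P h t).p w ≠ 0) (j : {J // p J}) : ul (UU v) h dg j.1 t w =
      bl (D.P h t) (fun w => dg t w.1) (LP p (LL (Um v (t + 1)))) (WW D t) j w := by
  rw [ul_ce h (fun hh => hu (hh ▸ j.2))]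
  unfold bl
  have e1 := ce_base h (J := j.1) (t := t) (s := t) le_rfl (f := fun w : Pt K X β φ => dg t w.1)
    (R := lo (LL (Um v (t + 1))) j.1) (fun w _ => H.dg_val t w.1) dg_AA (lo_AA hv j.1) hw
  have e3 : (D.P h t).ce (fun w => (bel (LP p (LL (Um v (t + 1)))) j w, WW D t w)) (fun v => dg t v.1) w =
      (D.P h t).ce (fun w => (lo (LL (Um v (t + 1))) j.1 w, WW D t w)) (fun v => dg t v.1) w := by
    refine (D.P h t).ce_congr_map ?_ ?_ _ w
    · intro a b hab
      simp only [Prod.mk.injEq, LP_bel hp] at hab ⊢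
      exact hab
    · intro a b hab
      simp only [Prod.mk.injEq, LP_bel hp] at hab ⊢
      exact hab
  rw [e3, e1]

theorem mm_bmP (H : D.Hyp dg prr al T Lam) (hv : Codes D v) (hp : ∀ I J : Finset K, I ⊆ J → p J → p I)
    {w : Pt K X β φ} (hw : (D.P h t).p w ≠ 0) : mm (UU v) h dg t w =
      bm (D.P h t) (fun w => dg t w.1) (LP p (LL (Um v (t + 1)))) (o0 h0) (WW D t) w := by
  have e1 := uu_buP h H hv hp hw ⟨∅, h0⟩
  have e2 : mm (UU v) h dg t w = uu (UU v) h dg ∅ t w := rfl
  rw [e2, e1]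
  unfold bu bm
  refine (D.P h t).ce_congr_map ?_ ?_ _ w
  · intro a b hab
    simp only [Prod.mk.injEq, ble_iff] at hab ⊢
    exact ⟨hab.1.1, hab.2⟩
  · intro a b hab
    simp only [Prod.mk.injEq, ble_iff] at hab ⊢
    refine ⟨⟨hab.1, bel_iff.2 fun i hi => ?_⟩, hab.2⟩
    exact absurd hi (Finset.not_ssubset_empty i.1)

variable (v) in
/-- mean of the digit given all labels of the family `p` -/
noncomputable def bp (p : Finset K → Prop) (h : D.Thick al) (dg : ℕ → X → ℝ) (t : ℕ) (w : Pt K X β φ) : ℝ :=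
  (D.P h t).ce (fun w => (all (LP p (LL (Um v (t + 1)))) w, WW D t w)) (fun w => dg t w.1) w

/-- the density of the digit in the form of `GM/Harm` -/
theorem rho_E (H : D.Hyp dg prr al T Lam) (hv : Codes D v) (hp : ∀ I J : Finset K, I ⊆ J → p J → p I)
    (hu : ¬ p univ) (t : ℕ) :
    (D.P h t).E (rho (D.P h t) (fun w => dg t w.1) (LP p (LL (Um v (t + 1)))) (o0 h0) (WW D t)) =
    (D.P h t).E (fun w => Real.log (1 + dg t w.1 * bp v p h dg t w) - Real.log (1 + dg t w.1 * mm (UU v) h dg t w) -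
      ∑ J ∈ univ.filter (fun J => p J ∧ J ≠ ∅), (Real.log (1 + dg t w.1 * uu (UU v) h dg J t w) -
        Real.log (1 + dg t w.1 * ul (UU v) h dg J t w))) := by
  classical
  refine (D.P h t).E_congr fun w hw => ?_
  unfold rho
  have hE : (univ.erase (o0 h0) : Finset {J // p J}) =
      @Finset.erase _ (fun a b => Classical.propDecidable (a = b)) univ (o0 h0) := by
    ext i; simp
  rw [← hE, mm_bmP h h0 H hv hp hw, ← sum_p h0]
  congr 1
  exact Finset.sum_congr rfl fun j _ => by rw [uu_buP h H hv hp hw j, ul_blP h H hv hp hu hw j]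

/-- difference of two families -/
theorem rho_diff {p' : Finset K → Prop} [DecidablePred p'] (h0' : p' ∅) (H : D.Hyp dg prr al T Lam) (hv : Codes D v)
    (hp : ∀ I J : Finset K, I ⊆ J → p J → p I) (hp' : ∀ I J : Finset K, I ⊆ J → p' J → p' I) (hsub : ∀ J, p' J → p J)
    (hu : ¬ p univ) (t : ℕ) :
    (D.P h t).E (fun w => Real.log (1 + dg t w.1 * bp v p h dg t w) - Real.log (1 + dg t w.1 * bp v p' h dg t w) -
      ∑ J ∈ univ.filter (fun J => p J ∧ ¬ p' J), (Real.log (1 + dg t w.1 * uu (UU v) h dg J t w) -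
        Real.log (1 + dg t w.1 * ul (UU v) h dg J t w))) =
    (D.P h t).E (rho (D.P h t) (fun w => dg t w.1) (LP p (LL (Um v (t + 1)))) (o0 h0) (WW D t)) -
    (D.P h t).E (rho (D.P h t) (fun w => dg t w.1) (LP p' (LL (Um v (t + 1)))) (o0 h0') (WW D t)) := by
  rw [rho_E h h0 H hv hp hu, rho_E h h0' H hv hp' (fun hh => hu (hsub _ hh)), ← (D.P h t).E_sub]
  refine (D.P h t).E_congr fun w _ => ?_
  have e : ∑ J ∈ univ.filter (fun J => p J ∧ J ≠ ∅), (Real.log (1 + dg t w.1 * uu (UU v) h dg J t w) -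
        Real.log (1 + dg t w.1 * ul (UU v) h dg J t w)) =
      ∑ J ∈ univ.filter (fun J => p' J ∧ J ≠ ∅), (Real.log (1 + dg t w.1 * uu (UU v) h dg J t w) -
        Real.log (1 + dg t w.1 * ul (UU v) h dg J t w)) +
      ∑ J ∈ univ.filter (fun J => p J ∧ ¬ p' J), (Real.log (1 + dg t w.1 * uu (UU v) h dg J t w) -
        Real.log (1 + dg t w.1 * ul (UU v) h dg J t w)) := by
    rw [← Finset.sum_union]
    · refine Finset.sum_congr ?_ fun _ _ => rfl
      ext J
      simp only [Finset.mem_filter, Finset.mem_univ, true_and, Finset.mem_union]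
      constructor
      · rintro ⟨h1, h2⟩
        by_cases h3 : p' J
        · exact Or.inl ⟨h3, h2⟩
        · exact Or.inr ⟨h1, h3⟩
      · rintro (⟨h1, h2⟩ | ⟨h1, h2⟩)
        · exact ⟨hsub J h1, h2⟩
        · refine ⟨h1, ?_⟩
          rintro rfl
          exact h2 h0'
    · rw [Finset.disjoint_left]
      intro J h1 h2
      exact (Finset.mem_filter.1 h2).2.2 (Finset.mem_filter.1 h1).2.1
  rw [e]
  ring

theorem fac_bp {p' : Finset K → Prop} (hsub : ∀ J, p' J → p J) (t : ℕ) :
    Fac (fun w : Pt K X β φ => (all (LP p (LL (Um v (t + 1)))) w, WW D t w)) (bp v p' h dg t) := by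
  intro a b hab
  refine (D.P h t).ce_fac _ _ a b ?_
  simp only [Prod.mk.injEq] at hab ⊢
  exact ⟨funext fun i => congrFun hab.1 ⟨i.1, hsub i.1 i.2⟩, hab.2⟩

theorem fac_uu (hp : ∀ I J : Finset K, I ⊆ J → p J → p I) {J : Finset K} (hJ : p J) (t : ℕ) :
    Fac (fun w : Pt K X β φ => (all (LP p (LL (Um v (t + 1)))) w, WW D t w)) (uu (UU v) h dg J t) := by
  intro a b hab
  refine (D.P h t).ce_fac _ _ a b ?_
  simp only [Prod.mk.injEq] at hab
  rw [eJ_eq]
  exact ⟨le_eq.2 fun I hI => congrFun hab.1 ⟨I, hp I J hI hJ⟩, WW_BB D t J a b hab.2⟩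

theorem fac_ul (hp : ∀ I J : Finset K, I ⊆ J → p J → p I) (hu : ¬ p univ) {J : Finset K} (hJ : p J) (t : ℕ) :
    Fac (fun w : Pt K X β φ => (all (LP p (LL (Um v (t + 1)))) w, WW D t w)) (ul (UU v) h dg J t) := by
  intro a b hab
  refine (D.P h t).ce_fac _ _ a b ?_
  simp only [Prod.mk.injEq] at hab
  rw [eL_eq (fun hh => hu (hh ▸ hJ))]
  exact ⟨lo_eq.2 fun I hI => congrFun hab.1 ⟨I, hp I J hI.subset hJ⟩, WW_BB D t J a b hab.2⟩

/-- **ONE LEVEL OVER `p'`** -/
theorem level_pp {p' : Finset K → Prop} [DecidablePred p'] (h0' : p' ∅) (H : D.Hyp dg prr al T Lam) (hv : Codes D v)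
    (hp : ∀ I J : Finset K, I ⊆ J → p J → p I) (hp' : ∀ I J : Finset K, I ⊆ J → p' J → p' I) (hsub : ∀ J, p' J → p J)
    (hu : ¬ p univ) {G : Pt K X β φ → Prop} {g g' : Pt K X β φ → ℝ}
    (fg : Fac (fun w => (all (LP p (LL (Um v (t + 1)))) w, WW D t w)) g)
    (fg' : Fac (fun w => (all (LP p (LL (Um v (t + 1)))) w, WW D t w)) g')
    (hg : ∀ w, (D.P h t).p w ≠ 0 → G w → g w = 0 ∧ g' w = 0) :
    (D.P h t).E (fun w => ind (G w) * (bp v p h dg t w - ex (bp v p' h dg t w) (univ.filter fun J => p J ∧ ¬ p' J)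
      (fun J => uu (UU v) h dg J t w) (fun J => ul (UU v) h dg J t w)) ^ 2) ≤
    2 * ((D.P h t).E (rho (D.P h t) (fun w => dg t w.1) (LP p (LL (Um v (t + 1)))) (o0 h0) (WW D t)) -
      (D.P h t).E (rho (D.P h t) (fun w => dg t w.1) (LP p' (LL (Um v (t + 1)))) (o0 h0') (WW D t)) +
      (D.P h t).E (fun w => if dg t w.1 = 1 then g w else g' w) +
      (D.P h t).E (fun w => Rp (bp v p' h dg t w) (univ.filter fun J => p J ∧ ¬ p' J)
          (fun J => uu (UU v) h dg J t w) (fun J => ul (UU v) h dg J t w) / 2 * Real.exp (-g w) +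
        Rm (bp v p' h dg t w) (univ.filter fun J => p J ∧ ¬ p' J)
          (fun J => uu (UU v) h dg J t w) (fun J => ul (UU v) h dg J t w) / 2 * Real.exp (-g' w) - 1)) := by
  have hD : ∀ w, (D.P h t).p w ≠ 0 → (fun w : Pt K X β φ => dg t w.1) w = 1 ∨ (fun w : Pt K X β φ => dg t w.1) w = -1 :=
    fun w _ => H.dg_val t w.1
  have hD1 : ∀ w, (D.P h t).p w ≠ 0 → |(fun w : Pt K X β φ => dg t w.1) w| ≤ 1 := fun w hw => by
    rcases hD w hw with h1 | h1 <;> rw [h1] <;> norm_num
  rw [← rho_diff h h0 h0' H hv hp hp' hsub hu t]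
  exact level_gen (D.P h t) (A := fun w => (all (LP p (LL (Um v (t + 1)))) w, WW D t w)) (D := fun w => dg t w.1) hD
    (S := univ.filter fun J => p J ∧ ¬ p' J) (n := bp v p' h dg t) (u := fun J => uu (UU v) h dg J t)
    (u' := fun J => ul (UU v) h dg J t) (g := g) (g' := g') (fac_bp h hsub t)
    (fun J hJ => fac_uu h hp (Finset.mem_filter.1 hJ).2.1 t)
    (fun J hJ => fac_ul h hp hu (Finset.mem_filter.1 hJ).2.1 t) fg fg'
    (fun w _ => (D.P h t).abs_ce_le_one hD1 _ w) (fun w _ _ _ => (D.P h t).abs_ce_le_one hD1 _ w)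
    (fun w _ _ _ => (D.P h t).abs_ce_le_one hD1 _ w) (fun w hw => (D.P h t).digit_pos hD _ hw)
    (fun w hw _ _ => (D.P h t).digit_pos hD _ hw) (fun w hw _ _ => (D.P h t).digit_pos hD _ hw) (G := G) hg

variable (v) in
/-- correction of one level: the cut part and the normalisation -/
noncomputable def cor (p p' : Finset K → Prop) [DecidablePred p] [DecidablePred p'] (h : D.Thick al) (dg : ℕ → X → ℝ)
    (t : ℕ) (g g' : Pt K X β φ → ℝ) : ℝ :=
  (D.P h t).E (fun w => if dg t w.1 = 1 then g w else g' w) +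
    (D.P h t).E (fun w => Rp (bp v p' h dg t w) (univ.filter fun J => p J ∧ ¬ p' J)
        (fun J => uu (UU v) h dg J t w) (fun J => ul (UU v) h dg J t w) / 2 * Real.exp (-g w) +
      Rm (bp v p' h dg t w) (univ.filter fun J => p J ∧ ¬ p' J)
        (fun J => uu (UU v) h dg J t w) (fun J => ul (UU v) h dg J t w) / 2 * Real.exp (-g' w) - 1)

/-- **THE SYNERGY OVER `p'`** : `p'` without top letters -/
theorem conG {p' : Finset K → Prop} [DecidablePred p'] (h0' : p' ∅) (H : D.Hyp dg prr al T Lam) (hv : Codes D v)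
    (hp : ∀ I J : Finset K, I ⊆ J → p J → p I) (hp' : ∀ I J : Finset K, I ⊆ J → p' J → p' I) (hsub : ∀ J, p' J → p J)
    (hu : ¬ p univ) (hl : ∀ l : K, ¬ p' (univ.erase l)) {G : ℕ → Pt K X β φ → Prop} {g g' : ℕ → Pt K X β φ → ℝ}
    (fg : ∀ t < T, Fac (fun w => (all (LP p (LL (Um v (t + 1)))) w, WW D t w)) (g t))
    (fg' : ∀ t < T, Fac (fun w => (all (LP p (LL (Um v (t + 1)))) w, WW D t w)) (g' t))
    (hg : ∀ t < T, ∀ w, (D.P h t).p w ≠ 0 → G t w → g t w = 0 ∧ g' t w = 0) :
    ∑ t ∈ range T, (D.P h t).E (fun w => ind (G t w) * (bp v p h dg t w -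
      ex (bp v p' h dg t w) (univ.filter fun J => p J ∧ ¬ p' J)
      (fun J => uu (UU v) h dg J t w) (fun J => ul (UU v) h dg J t w)) ^ 2) ≤
    2 * ((Mt h v h0 T - Mt h v h0' T) - (Mt h v h0 0 - Mt h v h0' 0) +
      ∑ t ∈ range T, (lsO h v h0 t - lsO h v h0' t) + ∑ t ∈ range T, cor v p p' h dg t (g t) (g' t)) := by
  have h1 := Finset.sum_le_sum fun t (ht : t ∈ range T) =>
    level_pp h h0 h0' H hv hp hp' hsub hu (fg t (Finset.mem_range.1 ht)) (fg' t (Finset.mem_range.1 ht))
      (hg t (Finset.mem_range.1 ht))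
  rw [← Finset.mul_sum] at h1
  refine h1.trans ?_
  have e1 := rho_sumO h v h0 H
  have e2 := rho_sumO h v h0' H
  have e3 : ∑ t ∈ range T, bgN h v h0' t = 0 :=
    Finset.sum_eq_zero fun t ht => bgN_zero h v h0' hl (H.kf_pr t (Finset.mem_range.1 ht))
  have e4 : 0 ≤ ∑ t ∈ range T, bgN h v h0 t :=
    Finset.sum_nonneg fun t ht => bgN_nonneg h v h0 hu (H.kf_pr t (Finset.mem_range.1 ht))
  have e5 : ∑ t ∈ range T, (lsO h v h0 t - lsO h v h0' t) =
      ∑ t ∈ range T, lsO h v h0 t - ∑ t ∈ range T, lsO h v h0' t := Finset.sum_sub_distrib _ _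
  have e6 : ∀ a b c d : ℝ, a - b + c + d = (a - b) + (c + d) := fun a b c d => by ring
  simp only [e6, Finset.sum_add_distrib, Finset.sum_sub_distrib]
  unfold cor
  simp only [Finset.sum_add_distrib]
  rw [e3] at e2
  linarith

/-- the whole potential dominates the potential of a smaller family -/
theorem Mt_mono {p' : Finset K → Prop} [DecidablePred p'] (h0' : p' ∅)
    (hp : ∀ I J : Finset K, I ⊆ J → p J → p I) (hp' : ∀ I J : Finset K, I ⊆ J → p' J → p' I) (hsub : ∀ J, p' J → p J)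
    (t : ℕ) : Mt h v h0' t ≤ Mt h v h0 t := by
  have h1 := MR_eq (D.P h t) hp hp' h0 h0' hsub (LL (Um v (t + 1))) (WW D t)
  have h2 := MR_nonneg (D.P h t) (p := p) (p' := p') hp (LL (Um v (t + 1))) (WW D t)
  unfold Mt
  linarith

/-- exact relative loss -/
theorem lsO_rel {p' : Finset K → Prop} [DecidablePred p'] (h0' : p' ∅)
    (hp : ∀ I J : Finset K, I ⊆ J → p J → p I) (hp' : ∀ I J : Finset K, I ⊆ J → p' J → p' I) (hsub : ∀ J, p' J → p J)
    (t : ℕ) : lsO h v h0 t - lsO h v h0' t =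
      MR (D.P h t) p p' (LL (Um v (t + 1))) (WW D (t + 1)) - MR (D.P h t) p p' (LL (Um v (t + 2))) (WW D (t + 1)) := by
  rw [MR_eq (D.P h t) hp hp' h0 h0' hsub, MR_eq (D.P h t) hp hp' h0 h0' hsub]
  unfold lsO Md Mf
  ring

/-- the relative loss is at most the sum of the gains outside `p'` -/
theorem lsO_rel_le {p' : Finset K → Prop} [DecidablePred p'] (h0' : p' ∅) (hv : Codes D v)
    (hp : ∀ I J : Finset K, I ⊆ J → p J → p I) (hp' : ∀ I J : Finset K, I ⊆ J → p' J → p' I) (hsub : ∀ J, p' J → p J)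
    (t : ℕ) : lsO h v h0 t - lsO h v h0' t ≤
      ∑ J ∈ univ.filter (fun J => p J ∧ ¬ p' J),
        gain (D.P h t) (BB D (t + 1)) (LL (Um v (t + 1))) (Vt v (t + 1)) J -
      (D.P h t).I (all (LP p (LL (Um v (t + 1))))) (all (LP p' (Vt v (t + 1))))
        (fun w => (all (LP p' (LL (Um v (t + 1)))) w, WW D (t + 1) w)) := by
  rw [lsO_rel h h0 h0' hp hp' hsub]
  have h1 := MR_joint_le (D.P h t) (p := p) (p' := p') hp (L := LL (φ := φ) (Um v (t + 1))) (V := Vt v (t + 1))
    (L' := LL (Um v (t + 2))) (fun J a b => by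
      have : LL (Um v (t + 2)) J a = LL (Um v (t + 2)) J b ↔
        pr (LL (Um v (t + 1))) (Vt v (t + 1)) J a = pr (LL (Um v (t + 1))) (Vt v (t + 1)) J b := LN_fac
      rw [this, pr_eq]) (WW D (t + 1))
  refine h1.trans (le_of_eq ?_)
  congr 1
  refine Finset.sum_congr rfl fun J hJ => ?_
  have hJ' := (Finset.mem_filter.1 hJ).2.1
  have h2 := gnB_eq' h hv hp (Nat.le_succ t) ⟨J, hJ'⟩
  rw [← h2]
  unfold gnB
  have e1 := (D.P h t).I_congr (X := LP p (LL (φ := φ) (Um v (t + 1))) ⟨J, hJ'⟩)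
    (w := bel (LP p (Vt v (t + 1))) ⟨J, hJ'⟩) (w' := lo (Vt v (t + 1)) J)
    (Z := fun w => (bel (LP p (LL (Um v (t + 1)))) ⟨J, hJ'⟩ w, WW D (t + 1) w))
    (fun a b hab => (LP_bel hp).1 hab) (fun a b hab => (LP_bel hp).2 hab)
  rw [e1]
  refine (D.P h t).I_congr_cond ?_ ?_
  · intro a b hab
    simp only [Prod.mk.injEq, LP_bel hp] at hab ⊢
    exact hab
  · intro a b hab
    simp only [Prod.mk.injEq, LP_bel hp] at hab ⊢
    exact hab

/-- **THE SYNERGY OVER `p'`**, without the start -/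
theorem conG' {p' : Finset K → Prop} [DecidablePred p'] (h0' : p' ∅) (H : D.Hyp dg prr al T Lam) (hv : Codes D v)
    (hp : ∀ I J : Finset K, I ⊆ J → p J → p I) (hp' : ∀ I J : Finset K, I ⊆ J → p' J → p' I) (hsub : ∀ J, p' J → p J)
    (hu : ¬ p univ) (hl : ∀ l : K, ¬ p' (univ.erase l)) {G : ℕ → Pt K X β φ → Prop} {g g' : ℕ → Pt K X β φ → ℝ}
    (fg : ∀ t < T, Fac (fun w => (all (LP p (LL (Um v (t + 1)))) w, WW D t w)) (g t))
    (fg' : ∀ t < T, Fac (fun w => (all (LP p (LL (Um v (t + 1)))) w, WW D t w)) (g' t))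
    (hg : ∀ t < T, ∀ w, (D.P h t).p w ≠ 0 → G t w → g t w = 0 ∧ g' t w = 0) :
    ∑ t ∈ range T, (D.P h t).E (fun w => ind (G t w) * (bp v p h dg t w -
      ex (bp v p' h dg t w) (univ.filter fun J => p J ∧ ¬ p' J)
      (fun J => uu (UU v) h dg J t w) (fun J => ul (UU v) h dg J t w)) ^ 2) ≤
    2 * ((Mt h v h0 T - Mt h v h0' T) + ∑ t ∈ range T, (lsO h v h0 t - lsO h v h0' t) +
      ∑ t ∈ range T, cor v p p' h dg t (g t) (g' t)) := by
  have h1 := conG h h0 h0' H hv hp hp' hsub hu hl fg fg' hg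
  have h2 := Mt_mono h h0 (v := v) h0' hp hp' hsub 0
  linarith

/-! ## the class alone -/

/-- the family which consists of the class -/
def pcl (J : Finset K) : Prop := J = ∅

instance : DecidablePred (pcl (K := K)) := fun J => inferInstanceAs (Decidable (J = ∅))

/-- the class alone has no potential -/
theorem MP_class (L : Finset K → Pt K X β φ → υ) {κ : Type*} (W : Pt K X β φ → κ) (P : FP (Pt K X β φ)) :
    MP P (LP pcl L) (o0 (p := pcl) rfl) W = 0 := by
  classical
  rw [MP_LP P (p := pcl) (fun I J hI hJ => by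
    have hJ' : J = ∅ := hJ
    rw [hJ'] at hI; exact Finset.subset_empty.1 hI) rfl]
  have h1 : univ.filter (fun J : Finset K => pcl J ∧ J ≠ ∅) = ∅ := by
    rw [Finset.filter_eq_empty_iff]
    exact fun J _ hJ => hJ.2 hJ.1
  rw [h1, Finset.sum_empty, zero_sub, neg_eq_zero]
  refine le_antisymm ?_ (P.Hc_nonneg _ _)
  have h2 : P.Hc (all (LP pcl L)) (fun w => (L ∅ w, W w)) ≤ P.Hc (fun _ => ()) (fun w => (L ∅ w, W w)) := by
    refine P.Hc_mono _ ?_
    intro a b hab
    simp only [Prod.mk.injEq] at hab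
    funext i
    obtain ⟨J, hJ⟩ := i
    show L J a = L J b
    rw [hJ]
    exact hab.2.1
  exact h2.trans ((P.Hc_le_H _ _).trans (le_of_eq (P.H_const ())))

theorem down_o (I J : Finset K) (hI : I ⊆ J) (hJ : pcl J) : pcl I := by
  have hJ' : J = ∅ := hJ
  rw [hJ'] at hI
  exact Finset.subset_empty.1 hI

theorem bp_class (H : D.Hyp dg prr al T Lam) (hv : Codes D v) {w : Pt K X β φ} (hw : (D.P h t).p w ≠ 0) :
    bp v pcl h dg t w = mm (UU v) h dg t w := by
  rw [mm_bmP h (p := pcl) rfl H hv down_o hw]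
  unfold bp bm
  refine (D.P h t).ce_congr_map ?_ ?_ _ w
  · intro a b hab
    simp only [Prod.mk.injEq] at hab ⊢
    exact ⟨congrFun hab.1 _, hab.2⟩
  · intro a b hab
    simp only [Prod.mk.injEq] at hab ⊢
    refine ⟨?_, hab.2⟩
    funext i
    obtain ⟨J, hJ⟩ := i
    subst hJ
    exact hab.1

/-- **THE SYNERGY OF ANY FAMILY OVER THE CLASS** -/
theorem conG0 (hK1 : ∀ l : K, univ.erase l ≠ ∅) (H : D.Hyp dg prr al T Lam) (hv : Codes D v)
    (hp : ∀ I J : Finset K, I ⊆ J → p J → p I) (hu : ¬ p univ) {G : ℕ → Pt K X β φ → Prop}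
    {g g' : ℕ → Pt K X β φ → ℝ}
    (fg : ∀ t < T, Fac (fun w => (all (LP p (LL (Um v (t + 1)))) w, WW D t w)) (g t))
    (fg' : ∀ t < T, Fac (fun w => (all (LP p (LL (Um v (t + 1)))) w, WW D t w)) (g' t))
    (hg : ∀ t < T, ∀ w, (D.P h t).p w ≠ 0 → G t w → g t w = 0 ∧ g' t w = 0) :
    ∑ t ∈ range T, (D.P h t).E (fun w => ind (G t w) * (bp v p h dg t w -
      ex (mm (UU v) h dg t w) (univ.filter fun J => p J ∧ J ≠ ∅)
      (fun J => uu (UU v) h dg J t w) (fun J => ul (UU v) h dg J t w)) ^ 2) ≤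
    2 * (Mt h v h0 T + ∑ t ∈ range T, lsO h v h0 t +
      ∑ t ∈ range T, cor v p pcl h dg t (g t) (g' t)) := by
  have h1 := conG' h h0 (p' := pcl) rfl H hv hp down_o
    (fun J (hJ : J = ∅) => by rw [hJ]; exact h0) hu hK1 fg fg' hg
  have e1 : Mt h v (p := pcl) rfl T = 0 := MP_class _ _ _
  have e2 : ∑ t ∈ range T, (lsO h v h0 t - lsO h v (p := pcl) rfl t) =
      ∑ t ∈ range T, lsO h v h0 t := by
    refine Finset.sum_congr rfl fun t _ => ?_
    have e3 : lsO h v (p := pcl) rfl t = 0 := by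
      unfold lsO Md Mf
      rw [MP_class, MP_class, sub_zero]
    rw [e3, sub_zero]
  rw [e1, e2, sub_zero] at h1
  refine le_trans (le_of_eq ?_) h1
  refine Finset.sum_congr rfl fun t _ => (D.P h t).E_congr fun w hw => ?_
  rw [bp_class h H hv hw]
  rfl

/-- **the item syn of `Harm.Concl`** : exact form with a cut part of the density -/
theorem conS_cut (hK : (∅ : Finset K) ≠ univ) (hK1 : ∀ l : K, univ.erase l ≠ ∅) (H : D.Hyp dg prr al T Lam)
    (hv : Codes D v) {G : ℕ → Pt K X β φ → Prop} {g g' : ℕ → Pt K X β φ → ℝ}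
    (fg : ∀ t < T, Fac (eA D (UU v) t) (g t)) (fg' : ∀ t < T, Fac (eA D (UU v) t) (g' t))
    (hg : ∀ t < T, ∀ w, (D.P h t).p w ≠ 0 → G t w → g t w = 0 ∧ g' t w = 0) :
    ∑ t ∈ range T, (D.P h t).E (fun w => ind (G t w) *
      (ua (UU v) h dg t w - exf (SS K) (mm (UU v) h dg) (uu (UU v) h dg) (ul (UU v) h dg) t w) ^ 2) ≤
    2 * (Mt h v (p := fun J => J ≠ univ) (kk0 hK) T + ∑ t ∈ range T, lsO h v (p := fun J => J ≠ univ) (kk0 hK) t +
      ∑ t ∈ range T, cor v (fun J => J ≠ univ) pcl h dg t (g t) (g' t)) := by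
  have hA : ∀ t, Fac (fun w : Pt K X β φ => (all (LP (fun J => J ≠ univ) (LL (Um v (t + 1)))) w, WW D t w))
      (eA D (UU v) t) := by
    intro t a b hab
    rw [eA_eq]
    simp only [Prod.mk.injEq] at hab
    exact hab
  have h1 := conG0 h (p := fun J => J ≠ univ) (kk0 hK) hK1 H hv down_ne (fun hh => hh rfl) (G := G) (g := g) (g' := g')
    (fun t ht => (hA t).trans (fg t ht)) (fun t ht => (hA t).trans (fg' t ht)) hg
  refine le_trans (le_of_eq ?_) h1
  have e1 : SS K = univ.filter fun J : Finset K => J ≠ univ ∧ J ≠ ∅ := by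
    ext J
    unfold SS
    simp only [Finset.mem_filter, Finset.mem_univ, true_and, Finset.nonempty_iff_ne_empty]
    tauto
  refine Finset.sum_congr rfl fun t _ => (D.P h t).E_congr fun w _ => ?_
  rw [ua_ba h v w, e1]
  rfl

end proc

end Pool.Agent.GMH
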