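import Pool.Agent.GMH.ConS2

/-!
# GMH.ConS3: the synergy of HARM(K), `|K| = 3`: thin labels, pairs, tops over the thin labels (helper30)

* `pth` = thin family (`∅` and the single vertices), `pj j` = `∅` and the single vertices other than `j`;
* `bp_pj` : the mean given all labels of `pj j` is the lower mean `ul (univ.erase j)`; `ul_one` : the lower mean of a single
  vertex is the mean given the class;
* `prod_th`, `prod_pj`, `prod_tp` : the index sets;
* `con3` : `∑_t E 1_G (ua - exf)^2 ≤ 2 eT + 9248 (eV + ∑_j ej j)`, each of `eT`, `eV`, `ej j` = twice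
  (potential at the end + losses in the old law + corrections `cor` of the levels).
-/

set_option autoImplicit false
set_option linter.unusedSectionVars false

namespace Pool.Agent.GMH

open Finset Pool.Agent.PWZ Pool.Agent.M3 Pool.Agent.GM Pool.Agent.GM.Harm

section fam

variable {K : Type} [Fintype K] [DecidableEq K]

/-- the thin family -/
def pth (J : Finset K) : Prop := J.card ≤ 1

instance : DecidablePred (pth (K := K)) := fun J => inferInstanceAs (Decidable (J.card ≤ 1))

/-- the class and the vertices other than `j` -/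
def pj (j : K) (J : Finset K) : Prop := J ⊂ univ.erase j

instance (j : K) : DecidablePred (pj j) := fun J => inferInstanceAs (Decidable (J ⊂ univ.erase j))

theorem pth0 : pth (∅ : Finset K) := by
  unfold pth
  rw [Finset.card_empty]
  exact Nat.zero_le 1

theorem pth_down (I J : Finset K) (hI : I ⊆ J) (hJ : pth J) : pth I := (Finset.card_le_card hI).trans hJ

theorem pj_down (j : K) (I J : Finset K) (hI : I ⊆ J) (hJ : pj j J) : pj j I := lt_of_le_of_lt hI hJ

variable (hK : Fintype.card K = 3)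
include hK

theorem card_er (j : K) : (univ.erase j : Finset K).card = 2 := by
  rw [Finset.card_erase_of_mem (mem_univ j), Finset.card_univ, hK]

theorem er_ne (j : K) : (univ.erase j : Finset K) ≠ ∅ := by
  intro h
  have := card_er hK j
  rw [h, Finset.card_empty] at this
  omega

theorem ne_u : (∅ : Finset K) ≠ univ := by
  intro h
  have h1 : (∅ : Finset K).card = (univ : Finset K).card := by rw [h]
  rw [Finset.card_empty, Finset.card_univ, hK] at h1
  omega

theorem pj0 (j : K) : pj j (∅ : Finset K) :=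
  lt_of_le_of_ne (Finset.empty_subset _) (er_ne hK j).symm

theorem pth_sub (J : Finset K) (hJ : pth J) : J ≠ univ := by
  rintro rfl
  unfold pth at hJ
  rw [Finset.card_univ, hK] at hJ
  omega

theorem pth_er (l : K) : ¬ pth (univ.erase l : Finset K) := by
  unfold pth
  rw [card_er hK]
  omega

theorem pj_u (j : K) : ¬ pj j (univ : Finset K) := fun h => h.2 (Finset.erase_subset _ _)

theorem pj_er (j l : K) : ¬ pj j (univ.erase l : Finset K) := by
  intro h
  have h1 := Finset.card_lt_card h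
  rw [card_er hK, card_er hK] at h1
  omega

theorem one_ne (i : K) : ({i} : Finset K) ≠ univ := by
  refine pth_sub hK _ ?_
  unfold pth
  rw [Finset.card_singleton]

omit hK in
theorem prod_th (f : Finset K → ℝ) : ∏ J ∈ univ.filter (fun J : Finset K => pth J ∧ J ≠ ∅), f J = ∏ i, f {i} := by
  refine (Finset.prod_bij (fun i _ => {i}) ?_ ?_ ?_ (fun _ _ => rfl)).symm
  · intro i _
    refine Finset.mem_filter.2 ⟨mem_univ _, ?_, Finset.singleton_ne_empty i⟩
    unfold pth
    rw [Finset.card_singleton]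
  · intro i _ j _ hij
    exact Finset.singleton_injective hij
  · intro J hJ
    obtain ⟨_, h1, h2⟩ := Finset.mem_filter.1 hJ
    unfold pth at h1
    have h3 := Finset.card_pos.2 (Finset.nonempty_iff_ne_empty.2 h2)
    obtain ⟨i, hi⟩ := Finset.card_eq_one.1 (le_antisymm h1 h3)
    exact ⟨i, mem_univ i, hi.symm⟩

theorem prod_pj (j : K) (f : Finset K → ℝ) :
    ∏ J ∈ univ.filter (fun J : Finset K => pj j J ∧ J ≠ ∅), f J = ∏ i ∈ univ.erase j, f {i} := by
  refine (Finset.prod_bij (fun i _ => {i}) ?_ ?_ ?_ (fun _ _ => rfl)).symm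
  · intro i hi
    refine Finset.mem_filter.2 ⟨mem_univ _, ?_, Finset.singleton_ne_empty i⟩
    refine lt_of_le_of_ne (Finset.singleton_subset_iff.2 hi) fun h => ?_
    have h1 := card_er hK j
    rw [← h, Finset.card_singleton] at h1
    omega
  · intro i _ i' _ hij
    exact Finset.singleton_injective hij
  · intro J hJ
    obtain ⟨_, h1, h2⟩ := Finset.mem_filter.1 hJ
    have h4 := Finset.card_lt_card h1
    rw [card_er hK] at h4
    have h3 := Finset.card_pos.2 (Finset.nonempty_iff_ne_empty.2 h2)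
    obtain ⟨i, hi⟩ := Finset.card_eq_one.1 (le_antisymm (by omega) h3)
    refine ⟨i, ?_, hi.symm⟩
    have h5 := h1.1
    rw [hi] at h5
    exact Finset.singleton_subset_iff.1 h5

theorem prod_tp (f : Finset K → ℝ) :
    ∏ J ∈ univ.filter (fun J : Finset K => J ≠ univ ∧ ¬ pth J), f J = ∏ j, f (univ.erase j) := by
  refine (Finset.prod_bij (fun j _ => univ.erase j) ?_ ?_ ?_ (fun _ _ => rfl)).symm
  · intro j _
    exact Finset.mem_filter.2 ⟨mem_univ _, ne_univ j, pth_er hK j⟩
  · intro i _ i' _ hij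
    exact erase_inj' hij
  · intro J hJ
    obtain ⟨_, h1, h2⟩ := Finset.mem_filter.1 hJ
    unfold pth at h2
    have h3 : ∃ j, j ∉ J := by
      by_contra hc
      push Not at hc
      exact h1 (Finset.eq_univ_of_forall hc)
    obtain ⟨j, hj⟩ := h3
    refine ⟨j, mem_univ j, ?_⟩
    refine (Finset.eq_of_subset_of_card_le (fun i hi => Finset.mem_erase.2 ⟨by rintro rfl; exact hj hi, mem_univ i⟩)
      ?_).symm
    rw [card_er hK]
    omega

end fam

section proc

variable {K X β γ φ υ : Type} [Fintype K] [DecidableEq K] [Fintype X] [Fintype β] [Fintype φ] [Nonempty X] [Nonempty β]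
  {D : HD K X β γ φ} {al : ℝ} (h : D.Thick al) {dg : ℕ → X → ℝ} {prr : ℕ → K → φ → φ} {T : ℕ} {Lam : ℝ}
  {v : ℕ → Finset K → X → (K → β) → υ} {t : ℕ}

/-- the mean given all labels strictly below `J` -/
theorem bp_pj (H : D.Hyp dg prr al T Lam) (hv : Codes D v) (j : K) {w : Pt K X β φ} (hw : (D.P h t).p w ≠ 0) :
    bp v (pj j) h dg t w = ul (UU v) h dg (univ.erase j) t w := by
  rw [ul_ce h (ne_univ j)]
  have e1 := ce_base h (J := univ.erase j) (t := t) (s := t) le_rfl (f := fun w : Pt K X β φ => dg t w.1)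
    (R := lo (LL (Um v (t + 1))) (univ.erase j)) (fun w _ => H.dg_val t w.1) dg_AA (lo_AA hv _) hw
  rw [← e1]
  unfold bp
  refine (D.P h t).ce_congr_map ?_ ?_ _ w
  · intro a b hab
    simp only [Prod.mk.injEq] at hab ⊢
    exact ⟨lo_eq.2 fun I hI => congrFun hab.1 ⟨I, hI⟩, hab.2⟩
  · intro a b hab
    simp only [Prod.mk.injEq] at hab ⊢
    exact ⟨funext fun i => lo_eq.1 hab.1 i.1 i.2, hab.2⟩

/-- the lower mean of one vertex -/
theorem ul_one (hK : Fintype.card K = 3) (H : D.Hyp dg prr al T Lam) (hv : Codes D v) (i : K) {w : Pt K X β φ}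
    (hw : (D.P h t).p w ≠ 0) : ul (UU v) h dg {i} t w = mm (UU v) h dg t w := by
  have e1 := ul_blP h (p := fun J => J ≠ univ) H hv down_ne (fun hh => hh rfl) hw ⟨{i}, one_ne hK i⟩
  have e2 := mm_bmP h (p := fun J : Finset K => J ≠ univ) (ne_u hK) H hv down_ne hw
  rw [e1, e2]
  unfold bl bm
  refine (D.P h t).ce_congr_map ?_ ?_ _ w
  · intro a b hab
    simp only [Prod.mk.injEq, bel_iff] at hab ⊢
    refine ⟨hab.1 _ ?_, hab.2⟩
    exact lt_of_le_of_ne (Finset.empty_subset _) fun hh => Finset.singleton_ne_empty i (congrArg Subtype.val hh).symm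
  · intro a b hab
    simp only [Prod.mk.injEq, bel_iff] at hab ⊢
    refine ⟨fun I hI => ?_, hab.2⟩
    have h1 : I.1 = ∅ := by
      have h2 : I.1 ⊂ {i} := hI
      exact Finset.ssubset_singleton_iff.1 h2
    have h3 : I = o0 (ne_u hK) := Subtype.ext h1
    rw [h3]
    exact hab.1

/-- **THE SYNERGY FOR THREE KNOWN VERTICES** -/
theorem con3 (hK : Fintype.card K = 3) (H : D.Hyp dg prr al T Lam) (hv : Codes D v) {G : ℕ → Pt K X β φ → Prop}
    (Gl : ∀ t < T, ∀ w, G t w → ∀ J ∈ SS K, |ul (UU v) h dg J t w| ≤ 1 / 2)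
    {gT gT' gV gV' : ℕ → Pt K X β φ → ℝ} {gj gj' : K → ℕ → Pt K X β φ → ℝ}
    (fT : ∀ t < T, Fac (eA D (UU v) t) (gT t)) (fT' : ∀ t < T, Fac (eA D (UU v) t) (gT' t))
    (hT : ∀ t < T, ∀ w, (D.P h t).p w ≠ 0 → G t w → gT t w = 0 ∧ gT' t w = 0)
    (fV : ∀ t < T, Fac (fun w => (all (LP pth (LL (Um v (t + 1)))) w, WW D t w)) (gV t))
    (fV' : ∀ t < T, Fac (fun w => (all (LP pth (LL (Um v (t + 1)))) w, WW D t w)) (gV' t))
    (hV : ∀ t < T, ∀ w, (D.P h t).p w ≠ 0 → G t w → gV t w = 0 ∧ gV' t w = 0)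
    (fj : ∀ j, ∀ t < T, Fac (fun w => (all (LP (pj j) (LL (Um v (t + 1)))) w, WW D t w)) (gj j t))
    (fj' : ∀ j, ∀ t < T, Fac (fun w => (all (LP (pj j) (LL (Um v (t + 1)))) w, WW D t w)) (gj' j t))
    (hj : ∀ j, ∀ t < T, ∀ w, (D.P h t).p w ≠ 0 → G t w → gj j t w = 0 ∧ gj' j t w = 0) :
    ∑ t ∈ range T, (D.P h t).E (fun w => ind (G t w) *
      (ua (UU v) h dg t w - exf (SS K) (mm (UU v) h dg) (uu (UU v) h dg) (ul (UU v) h dg) t w) ^ 2) ≤
    2 * (2 * ((Mt h v (p := fun J => J ≠ univ) (ne_u hK) T - Mt h v (p := pth) pth0 T) +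
        ∑ t ∈ range T, (lsO h v (p := fun J => J ≠ univ) (ne_u hK) t - lsO h v (p := pth) pth0 t) +
        ∑ t ∈ range T, cor v (fun J => J ≠ univ) pth h dg t (gT t) (gT' t))) +
      9248 * (2 * (Mt h v (p := pth) pth0 T + ∑ t ∈ range T, lsO h v (p := pth) pth0 t +
          ∑ t ∈ range T, cor v pth pcl h dg t (gV t) (gV' t)) +
        ∑ j, 2 * (Mt h v (p := pj j) (pj0 hK j) T + ∑ t ∈ range T, lsO h v (p := pj j) (pj0 hK j) t +
          ∑ t ∈ range T, cor v (pj j) pcl h dg t (gj j t) (gj' j t))) := by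
  classical
  have hA : ∀ t, Fac (fun w : Pt K X β φ => (all (LP (fun J => J ≠ univ) (LL (Um v (t + 1)))) w, WW D t w))
      (eA D (UU v) t) := by
    intro t a b hab
    rw [eA_eq]
    simp only [Prod.mk.injEq] at hab
    exact hab
  have h1 := conG' h (p := fun J => J ≠ univ) (p' := pth) (ne_u hK) pth0 H hv down_ne pth_down (pth_sub hK)
    (fun hh => hh rfl) (pth_er hK) (G := G) (fun t ht => (hA t).trans (fT t ht)) (fun t ht => (hA t).trans (fT' t ht)) hT
  have h2 := conG0 h (p := pth) pth0 (er_ne hK) H hv pth_down (fun hh => pth_sub hK _ hh rfl) (G := G) fV fV' hV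
  have h3 := fun j => conG0 h (p := pj j) (pj0 hK j) (er_ne hK) H hv (pj_down j) (pj_u hK j) (G := G)
    (fj j) (fj' j) (hj j)
  have hSS : ∀ i : K, ({i} : Finset K) ∈ SS K := fun i =>
    Finset.mem_filter.2 ⟨mem_univ _, Finset.singleton_nonempty i, one_ne hK i⟩
  have hSS' : ∀ j : K, (univ.erase j : Finset K) ∈ SS K := fun j =>
    Finset.mem_filter.2 ⟨mem_univ _, Finset.nonempty_iff_ne_empty.2 (er_ne hK j), ne_univ j⟩
  have hD : ∀ t, ∀ w, (D.P h t).p w ≠ 0 → (fun w : Pt K X β φ => dg t w.1) w = 1 ∨ (fun w : Pt K X β φ => dg t w.1) w = -1 :=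
    fun t w _ => H.dg_val t w.1
  have hD1 : ∀ t, ∀ w, (D.P h t).p w ≠ 0 → |(fun w : Pt K X β φ => dg t w.1) w| ≤ 1 := fun t w hw => by
    rcases hD t w hw with h1 | h1 <;> rw [h1] <;> norm_num
  have hKn : Nonempty K := Fintype.card_pos_iff.1 (by rw [hK]; omega)
  obtain ⟨i0⟩ := hKn
  -- one level
  have key : ∀ t ∈ range T, (D.P h t).E (fun w => ind (G t w) *
      (ua (UU v) h dg t w - exf (SS K) (mm (UU v) h dg) (uu (UU v) h dg) (ul (UU v) h dg) t w) ^ 2) ≤
      2 * (D.P h t).E (fun w => ind (G t w) * (bp v (fun J => J ≠ univ) h dg t w -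
        ex (bp v pth h dg t w) (univ.filter fun J => J ≠ univ ∧ ¬ pth J)
          (fun J => uu (UU v) h dg J t w) (fun J => ul (UU v) h dg J t w)) ^ 2) +
      9248 * ((D.P h t).E (fun w => ind (G t w) * (bp v pth h dg t w -
        ex (mm (UU v) h dg t w) (univ.filter fun J => pth J ∧ J ≠ ∅)
          (fun J => uu (UU v) h dg J t w) (fun J => ul (UU v) h dg J t w)) ^ 2) +
        ∑ j, (D.P h t).E (fun w => ind (G t w) * (bp v (pj j) h dg t w -
          ex (mm (UU v) h dg t w) (univ.filter fun J => pj j J ∧ J ≠ ∅)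
            (fun J => uu (UU v) h dg J t w) (fun J => ul (UU v) h dg J t w)) ^ 2)) := by
    intro t ht
    have htT := Finset.mem_range.1 ht
    set G' : Pt K X β φ → Prop := fun w => G t w ∧ (D.P h t).p w ≠ 0 with hG'
    have hGG : ∀ w, (D.P h t).p w ≠ 0 → (G' w ↔ G t w) := fun w hw => ⟨fun hh => hh.1, fun hh => ⟨hh, hw⟩⟩
    have k := dig3 (D.P h t) hK (D := fun w => dg t w.1) (m := mm (UU v) h dg t) (n := bp v pth h dg t)
      (b := ua (UU v) h dg t)
      (ex2 := fun w => mn ((1 + bp v pth h dg t w) *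
          ∏ j, (1 + uu (UU v) h dg (univ.erase j) t w) / (1 + ul (UU v) h dg (univ.erase j) t w))
        ((1 - bp v pth h dg t w) *
          ∏ j, (1 - uu (UU v) h dg (univ.erase j) t w) / (1 - ul (UU v) h dg (univ.erase j) t w)))
      (q := fun w => mn ((1 + mm (UU v) h dg t w) * ∏ i, (1 + uu (UU v) h dg {i} t w) / (1 + mm (UU v) h dg t w))
        ((1 - mm (UU v) h dg t w) * ∏ i, (1 - uu (UU v) h dg {i} t w) / (1 - mm (UU v) h dg t w)))
      (u1 := fun i => uu (UU v) h dg {i} t) (U := fun j => uu (UU v) h dg (univ.erase j) t)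
      (v := fun j => ul (UU v) h dg (univ.erase j) t)
      (qj := fun j w => mn ((1 + mm (UU v) h dg t w) *
          ∏ i ∈ univ.erase j, (1 + uu (UU v) h dg {i} t w) / (1 + mm (UU v) h dg t w))
        ((1 - mm (UU v) h dg t w) * ∏ i ∈ univ.erase j, (1 - uu (UU v) h dg {i} t w) / (1 - mm (UU v) h dg t w)))
      (hD t) (G := G')
      (fun w hw => by rw [← ul_one h hK H hv i0 hw.2]; exact Gl t htT w hw.1 _ (hSS i0))
      (fun w hw j => Gl t htT w hw.1 _ (hSS' j))
      (fun w _ => (D.P h t).abs_ce_le_one (hD1 t) _ w) (fun w _ _ => (D.P h t).abs_ce_le_one (hD1 t) _ w)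
      (fun w _ _ => (D.P h t).abs_ce_le_one (hD1 t) _ w) (fun w hw => (D.P h t).digit_pos (hD t) _ hw)
      (fun w hw _ => (D.P h t).digit_pos (hD t) _ hw) (fun w hw _ => (D.P h t).digit_pos (hD t) _ hw)
      (fun _ => rfl) (fun _ _ => rfl) (fun _ => rfl) le_rfl le_rfl (fun _ => le_rfl)
    refine le_trans (le_of_eq ?_) (k.trans (le_of_eq ?_))
    · refine (D.P h t).E_congr fun w hw => ?_
      rw [ind_cg (hGG w hw)]
      congr 3
      show ex (mm (UU v) h dg t w) (univ.filter fun J : Finset K => J.Nonempty ∧ J ≠ univ)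
        (fun J => uu (UU v) h dg J t w) (fun J => ul (UU v) h dg J t w) = _
      rw [ex_SS3 hK]
      simp only [ul_one h hK H hv _ hw]
    · congr 1
      · congr 1
        refine (D.P h t).E_congr fun w hw => ?_
        have e0 : ua (UU v) h dg t w = bp v (fun J => J ≠ univ) h dg t w := ua_ba h v w
        rw [ind_cg (hGG w hw), e0]
        congr 3
        unfold ex mn Rp Rm
        rw [prod_tp hK, prod_tp hK]
      · congr 1
        congr 1
        · refine (D.P h t).E_congr fun w hw => ?_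
          rw [ind_cg (hGG w hw)]
          congr 3
          unfold ex mn Rp Rm
          rw [prod_th, prod_th]
          simp only [ul_one h hK H hv _ hw]
        · refine Finset.sum_congr rfl fun j _ => (D.P h t).E_congr fun w hw => ?_
          rw [ind_cg (hGG w hw), bp_pj h H hv j hw]
          congr 3
          unfold ex mn Rp Rm
          rw [prod_pj hK, prod_pj hK]
          simp only [ul_one h hK H hv _ hw]
  have hsum := Finset.sum_le_sum key
  rw [Finset.sum_add_distrib, ← Finset.mul_sum, ← Finset.mul_sum, Finset.sum_add_distrib, Finset.sum_comm] at hsum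
  have h4 := Finset.sum_le_sum fun j (_ : j ∈ (univ : Finset K)) => h3 j
  linarith

end proc

end Pool.Agent.GMH
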