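import Pool.Agent.GMH.ConT0

/-!
# GMH/ConT1 (helper42): THE TERMS OF ONE ROUND (row A5, H3.T T.12, H3.UNM U.5, U.8)

Every term (with a constant `c ≤ 4^10`) is at most `x^(-44) = ix Lam 44`; a sum of at most `4^20` of them is `≤ x^(-24)` (`tot`).
Hypotheses: `L ≤ x^kL`, `GA ≤ x^kg`, `MM ≤ x^km`, `NT ≤ x^T` (`NT_le`), `Nz ≤ x^Z` (`Nz_le`), `TC ≤ x^TC`.
In a round `r`: `lam_r = ix r.lm`, `u_B = ix r.uB`, `g_0 = u_C = u_ex = ix r.g0`, `mu_0 = ix r.mu`, `kap_X = theta = u_3 =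
ix r.sB`, `u_c = ix r.uc`, `u_0 = ix r.u0`, `mu_1 = ix r.m1`, `kap_0 = ix r.k0`, `t = ix r.tt` (`(4^12 u_0) ≤ t^3`).
-/

set_option autoImplicit false
set_option linter.unusedSectionVars false

namespace Pool.Agent.GMH.CT

open Pool.Agent.GMH Pool.Agent.GMH.V3 Finset

noncomputable section

namespace Rd

variable (r : Rd)

/-- `kappa_0` of the class mass -/
def k0 : ℕ := r.lm + r.g0 + r.kL + 8
/-- `t` of Loomis - Whitney -/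
def tt : ℕ := r.kg + r.lm + r.kL + 60

end Rd

/-- summing up -/
theorem tot {Lam : ℝ} (hL : 2 ≤ Lam) {c : ℝ} (hc : c ≤ 4 ^ 20) : c * ix Lam 44 ≤ ix Lam 24 := by
  have := cst_ix hL (s := 24) hc
  simpa using this

theorem tot16 {Lam : ℝ} (hL : 2 ≤ Lam) {c : ℝ} (hc : c ≤ 4 ^ 20) : c * ix Lam 44 ≤ (pw Lam 16)⁻¹ :=
  (tot hL hc).trans (ix_anti hL (show 16 ≤ 24 by norm_num))

section terms

variable (r : Rd) {Lam : ℝ} (hL : 2 ≤ Lam) {c L GA MM NT Nz TC : ℝ}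

include hL

/-- square root of `u_B` -/
theorem sqrt_uB : Real.sqrt (ix Lam r.uB) = ix Lam r.sB := sqrt_ix hL r.sB

theorem sqrt_huB {h : ℝ} (h1 : h ≤ 4 ^ 8) : Real.sqrt (h * ix Lam r.uB) ≤ 4 ^ 4 * ix Lam r.sB := by
  have h2 : h * ix Lam r.uB ≤ 4 ^ 8 * ix Lam r.uB := mul_le_mul_of_nonneg_right h1 (ix_nn hL _)
  refine (Real.sqrt_le_sqrt h2).trans ?_
  rw [Real.sqrt_mul (by norm_num), sqrt_uB r hL]
  refine mul_le_mul_of_nonneg_right ?_ (ix_nn hL _)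
  rw [show ((4 : ℝ) ^ 8) = 4 ^ 4 * 4 ^ 4 by norm_num, Real.sqrt_mul_self (by norm_num)]

/-- (1) before the decision : `c L √u_B GA` -/
theorem t_before (hc : c ≤ 4 ^ 10) (hL0 : 0 ≤ L) (hLb : L ≤ pw Lam r.kL) (hG0 : 0 ≤ GA) (hG : GA ≤ pw Lam r.kg) :
    c * L * GA * ix Lam r.sB ≤ ix Lam 44 :=
  fin3 hL hL0 hG0 (cst hL 10 hc) hLb hG (by have := r.ord; unfold Rd.sB; omega)

/-- (2) released : `c lam_r MM` -/
theorem t_lam (hc : c ≤ 4 ^ 10) (hM0 : 0 ≤ MM) (hM : MM ≤ pw Lam r.km) : c * MM * ix Lam r.lm ≤ ix Lam 44 :=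
  fin2 hL hM0 (cst hL 10 hc) hM (by unfold Rd.lm; omega)

/-- (3) light, uncovered, dropped partners : `c L g_0 N_T` (also `u_C`, `u_ex`) -/
theorem t_g0 (hc : c ≤ 4 ^ 10) (hL0 : 0 ≤ L) (hLb : L ≤ pw Lam r.kL) (hN0 : 0 ≤ NT) (hN : NT ≤ pw Lam r.T) :
    c * L * NT * ix Lam r.g0 ≤ ix Lam 44 :=
  fin3 hL hL0 hN0 (cst hL 10 hc) hLb hN (by unfold Rd.g0; omega)

/-- (4) dropped columns, both covered, `u_3` : `c L (GA / lam_r) x^(-sB)` (`sB` : `kap_X`, `theta`, `u_3`, `√u_B`) -/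
theorem t_sB (hc : c ≤ 4 ^ 10) (hL0 : 0 ≤ L) (hLb : L ≤ pw Lam r.kL) (hG0 : 0 ≤ GA) (hG : GA ≤ pw Lam r.kg) :
    c * L * GA * pw Lam r.lm * ix Lam r.sB ≤ ix Lam 44 :=
  fin4 hL hL0 hG0 (pw_pos hL _).le (cst hL 10 hc) hLb hG le_rfl (by unfold Rd.sB; omega)

/-- (5) thin covers at `u_c` : `c L u_c TC` -/
theorem t_uc (hc : c ≤ 4 ^ 10) (hL0 : 0 ≤ L) (hLb : L ≤ pw Lam r.kL) (hT0 : 0 ≤ TC) (hT : TC ≤ pw Lam r.TC) :
    c * L * TC * ix Lam r.uc ≤ ix Lam 44 :=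
  fin3 hL hL0 hT0 (cst hL 10 hc) hLb hT (by unfold Rd.uc; omega)

/-- (6) thin covers, the other part : `c L (u_0 / (u_c u_C)) TC` -/
theorem t_ucC (hc : c ≤ 4 ^ 10) (hL0 : 0 ≤ L) (hLb : L ≤ pw Lam r.kL) (hT0 : 0 ≤ TC) (hT : TC ≤ pw Lam r.TC) :
    c * L * TC * (ix Lam r.u0 / (ix Lam r.uc * ix Lam r.g0)) ≤ ix Lam 44 := by
  rw [← ix_add, div_ix hL]
  have h := fin4 hL hL0 hT0 (pw_pos hL (r.uc + r.g0)).le (cst hL 10 hc) hLb hT le_rfl (s := 44) (k := r.u0)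
    (by unfold Rd.u0; omega)
  refine le_trans (le_of_eq ?_) h
  ring

/-- (7) pieces and dropped sets at the zone : `c L mu_1 N_0` -/
theorem t_m1 (hc : c ≤ 4 ^ 10) (hL0 : 0 ≤ L) (hLb : L ≤ pw Lam r.kL) (hN0 : 0 ≤ Nz) (hN : Nz ≤ pw Lam r.Z) :
    c * L * Nz * ix Lam r.m1 ≤ ix Lam 44 :=
  fin3 hL hL0 hN0 (cst hL 10 hc) hLb hN (by unfold Rd.m1; omega)

/-- (8) names of the foreign rows : `c N_T m_f / (n mu_0)`, `m_f = n / x^kf` -/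
theorem t_names (hc : c ≤ 4 ^ 10) (hN0 : 0 ≤ NT) (hN : NT ≤ pw Lam r.T) :
    c * NT * pw Lam r.mu * ix Lam r.kf ≤ ix Lam 44 :=
  fin3 hL hN0 (pw_pos hL _).le (cst hL 10 hc) hN le_rfl (by unfold Rd.kf; omega)

/-- (8') names with `1/lam_r` and the cost `L` : `c L N_T m_f / (n mu_0 lam_r)` -/
theorem t_namesL (hc : c ≤ 4 ^ 10) (hL0 : 0 ≤ L) (hLb : L ≤ pw Lam r.kL) (hN0 : 0 ≤ NT) (hN : NT ≤ pw Lam r.T) :
    c * L * NT * pw Lam (r.mu + r.lm) * ix Lam r.kf ≤ ix Lam 44 :=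
  fin4 hL hL0 hN0 (pw_pos hL _).le (cst hL 10 hc) hLb hN le_rfl (by unfold Rd.kf; omega)

/-- (9) small pieces at the exact vertex : `c L mu_0 N_T` -/
theorem t_mu (hc : c ≤ 4 ^ 10) (hL0 : 0 ≤ L) (hLb : L ≤ pw Lam r.kL) (hN0 : 0 ≤ NT) (hN : NT ≤ pw Lam r.T) :
    c * L * NT * ix Lam r.mu ≤ ix Lam 44 :=
  fin3 hL hL0 hN0 (cst hL 10 hc) hLb hN (by unfold Rd.mu; omega)

/-- (10) coarse covers before the zone : `c L (u_0 / (u_3 mu_0)) GA / lam_r` -/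
theorem t_u3 (hc : c ≤ 4 ^ 10) (hL0 : 0 ≤ L) (hLb : L ≤ pw Lam r.kL) (hG0 : 0 ≤ GA) (hG : GA ≤ pw Lam r.kg) :
    c * L * GA * pw Lam r.lm * (ix Lam r.u0 / (ix Lam r.sB * ix Lam r.mu)) ≤ ix Lam 44 := by
  rw [← ix_add, div_ix hL]
  have h := fin hL (k := r.u0) (s := 44) (mul_pw hL (pw_pos hL (r.sB + r.mu)).le (mul_pw hL (pw_pos hL r.lm).le
    (mul_pw hL hG0 (mul_pw hL hL0 (cst hL 10 hc) hLb) hG) le_rfl) le_rfl) (by unfold Rd.u0; omega)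
  refine le_trans (le_of_eq ?_) h
  ring

/-- (11) alive partners : `c L (u_0 / u_ex) N_T` -/
theorem t_ex (hc : c ≤ 4 ^ 10) (hL0 : 0 ≤ L) (hLb : L ≤ pw Lam r.kL) (hN0 : 0 ≤ NT) (hN : NT ≤ pw Lam r.T) :
    c * L * NT * (ix Lam r.u0 / ix Lam r.g0) ≤ ix Lam 44 := by
  rw [div_ix hL]
  have h := fin4 hL hL0 hN0 (pw_pos hL r.g0).le (cst hL 10 hc) hLb hN le_rfl (s := 44) (k := r.u0)
    (by unfold Rd.u0; omega)
  refine le_trans (le_of_eq ?_) h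
  ring

/-- (12) `L q N_T`, `L √q N_T` : the relation is small in the class -/
theorem t_q (hc : c ≤ 4 ^ 10) (hL0 : 0 ≤ L) (hLb : L ≤ pw Lam r.kL) (hN0 : 0 ≤ NT) (hN : NT ≤ pw Lam r.T) :
    c * L * NT * Real.sqrt (ix Lam r.q) ≤ ix Lam 44 := by
  have e : r.q = 2 * (8 * (r.mu + r.m1 + r.kL + 32)) := by unfold Rd.q; ring
  rw [e, sqrt_ix hL]
  exact fin3 hL hL0 hN0 (cst hL 10 hc) hLb hN (by have := r.ord; unfold Rd.mu; omega)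

/-- the same for the zones -/
theorem t_qz (hc : c ≤ 4 ^ 10) (hL0 : 0 ≤ L) (hLb : L ≤ pw Lam r.kL) (hN0 : 0 ≤ Nz) (hN : Nz ≤ pw Lam r.Z) :
    c * L * Nz * Real.sqrt (ix Lam r.q) ≤ ix Lam 44 := by
  have e : r.q = 2 * (8 * (r.mu + r.m1 + r.kL + 32)) := by unfold Rd.q; ring
  rw [e, sqrt_ix hL]
  exact fin3 hL hL0 hN0 (cst hL 10 hc) hLb hN (by have := r.ord; unfold Rd.m1; omega)

/-- `q ≤ √q` -/
theorem q_le_sqrt : ix Lam r.q ≤ Real.sqrt (ix Lam r.q) := by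
  rw [Real.le_sqrt (ix_nn hL _) (ix_nn hL _)]
  nlinarith [ix_nn hL r.q, ix_le_one hL r.q]

/-- (13) Loomis - Whitney (kind HT) : `h u_0 ≤ t^3`, `c L (GA / lam_r) t` -/
theorem t_cube {h : ℝ} (hh : h ≤ 4 ^ 12) : h * ix Lam r.u0 ≤ ix Lam r.tt ^ 3 := by
  rw [← ix_mul]
  exact fin hL (cst hL 12 hh) (by unfold Rd.u0 Rd.tt; omega)

theorem t_tt (hc : c ≤ 4 ^ 10) (hL0 : 0 ≤ L) (hLb : L ≤ pw Lam r.kL) (hG0 : 0 ≤ GA) (hG : GA ≤ pw Lam r.kg) :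
    c * L * GA * pw Lam r.lm * ix Lam r.tt ≤ ix Lam 44 :=
  fin4 hL hL0 hG0 (pw_pos hL _).le (cst hL 10 hc) hLb hG le_rfl (by unfold Rd.tt; omega)

/-! ### conditions -/

/-- class mass : `L (mu_0 + kap_0) ≤ lam_r g_0 / 2` -/
theorem c_k0 (hL0 : 0 ≤ L) (hLb : L ≤ pw Lam r.kL) :
    L * (ix Lam r.mu + ix Lam r.k0) ≤ ix Lam r.lm * ix Lam r.g0 / 2 := by
  rw [← ix_add]
  have h1 : ix Lam r.mu ≤ ix Lam r.k0 := ix_anti hL (by have := r.ord; unfold Rd.mu Rd.k0; omega)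
  have h2 : (4 * L) * ix Lam r.k0 ≤ ix Lam (r.lm + r.g0) :=
    fin2 hL hL0 (cst hL 1 (by norm_num)) hLb (by unfold Rd.k0; omega)
  have h3 := mul_le_mul_of_nonneg_left h1 hL0
  linarith

/-- `mu_0 < kap_0` and the covered columns : `mu_0 < kap_X g_0 lam_r` -/
theorem c_mu : ix Lam r.mu ≤ ix Lam 44 * (ix Lam r.sB * (ix Lam r.g0 * ix Lam r.lm)) := by
  rw [← ix_add, ← ix_add, ← ix_add]
  exact ix_anti hL (by have := r.ord; unfold Rd.mu Rd.g0; omega)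

/-- the next constants are small against the old ones -/
theorem c_u0 : ix Lam r.u0 ≤ ix Lam 44 * (ix Lam r.uc * (ix Lam r.g0 * ix Lam r.mu)) := by
  rw [← ix_add, ← ix_add, ← ix_add]
  exact ix_anti hL (by have := r.ord; unfold Rd.u0; omega)

/-- saturated densities : `u_B^2 ≤ u_B / 4` -/
theorem c_sat : ix Lam r.uB ^ 2 ≤ ix Lam r.uB / 4 := by
  have h1 : ix Lam r.uB ≤ ix Lam 1 := ix_anti hL (by have := r.ord; omega)
  have h2 : ix Lam 1 ≤ 1 / 4 := by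
    have := ix_four hL 1
    norm_num at this ⊢
    exact this
  nlinarith [ix_nn hL r.uB]

theorem c_sat0 : ix Lam r.u0 ^ 2 ≤ ix Lam r.u0 / 16 := by
  have h1 : ix Lam r.u0 ≤ ix Lam 2 := ix_anti hL (by have := r.ord; omega)
  have h2 : ix Lam 2 ≤ 1 / 16 := by
    have := ix_four hL 2
    norm_num at this ⊢
    exact this
  nlinarith [ix_nn hL r.u0]

/-- **THE NUMBER OF THE DECISIONS** from `u_B / 2 N_T ≤ MM + 3` -/
theorem NT_le {y : ℝ} (h : ix Lam r.uB / 2 * NT ≤ MM + y) (hM : MM ≤ pw Lam r.km) (hy : y ≤ 4) :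
    NT ≤ pw Lam r.T := by
  have h1 : ix Lam r.uB * NT ≤ pw Lam (r.km + 2) := by
    have h2 : pw Lam (r.km + 2) = pw Lam r.km * (2 * Lam) * (2 * Lam) := by
      rw [show r.km + 2 = r.km + 1 + 1 by ring, pw_succ, pw_succ]
    have h3 := pw_ge1 hL r.km
    rw [h2]
    nlinarith [mul_le_mul_of_nonneg_left hL (show 0 ≤ pw Lam r.km * Lam by nlinarith)]
  have h4 : NT = pw Lam r.uB * (ix Lam r.uB * NT) := by
    rw [← mul_assoc, pw_ix hL, one_mul]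
  rw [h4]
  refine (mul_le_mul_of_nonneg_left h1 (pw_pos hL _).le).trans ?_
  rw [← pw_add]
  exact pw_mono hL (by unfold Rd.T; omega)

/-- **THE NUMBER OF THE ZONES** from `u_0 / 2 N_0 ≤ X + y` -/
theorem Nz_le {X y : ℝ} (h : ix Lam r.u0 / 2 * Nz ≤ X + y) (hX : X ≤ pw Lam r.kz) (hy : y ≤ 4) :
    Nz ≤ pw Lam r.Z := by
  have h1 : ix Lam r.u0 * Nz ≤ pw Lam (r.kz + 2) := by
    have h2 : pw Lam (r.kz + 2) = pw Lam r.kz * (2 * Lam) * (2 * Lam) := by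
      rw [show r.kz + 2 = r.kz + 1 + 1 by ring, pw_succ, pw_succ]
    have h3 := pw_ge1 hL r.kz
    rw [h2]
    nlinarith [mul_le_mul_of_nonneg_left hL (show 0 ≤ pw Lam r.kz * Lam by nlinarith)]
  have h4 : Nz = pw Lam r.u0 * (ix Lam r.u0 * Nz) := by
    rw [← mul_assoc, pw_ix hL, one_mul]
  rw [h4]
  refine (mul_le_mul_of_nonneg_left h1 (pw_pos hL _).le).trans ?_
  rw [← pw_add]
  exact pw_mono hL (by unfold Rd.Z; omega)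

/-! ### ends which are not removals: `y = c x^(-ka)`, `ka ≥ m1 + 64` -/

variable {ka : ℕ}

theorem c_yB (hka : r.m1 + 64 ≤ ka) (hc : c ≤ 4 ^ 10) : c * ix Lam ka ≤ ix Lam r.uB / 4 := by
  have h := fin hL (k := ka) (s := r.uB) (u := 4 * c) (a := 11) (by
    have := cst hL 11 (c := 4 * c) (by norm_num at hc ⊢; linarith)
    exact this) (by have := r.ord; omega)
  linarith

theorem c_y0 (hka : r.m1 + 64 ≤ ka) (hc : c ≤ 4 ^ 10) : c * ix Lam ka ≤ ix Lam r.u0 / 16 := by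
  have h := fin hL (k := ka) (s := r.u0) (u := 16 * c) (a := 12) (by
    have := cst hL 12 (c := 16 * c) (by norm_num at hc ⊢; linarith)
    exact this) (by have := r.ord; omega)
  linarith

/-- `c L y N_T` -/
theorem t_y (hka : r.m1 + 64 ≤ ka) (hc : c ≤ 4 ^ 10) (hL0 : 0 ≤ L) (hLb : L ≤ pw Lam r.kL) (hN0 : 0 ≤ NT)
    (hN : NT ≤ pw Lam r.T) : c * L * NT * ix Lam ka ≤ ix Lam 44 :=
  fin3 hL hL0 hN0 (cst hL 10 hc) hLb hN (by have := r.ord; unfold Rd.m1 at hka; omega)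

/-- `c L y N_0` -/
theorem t_yz (hka : r.m1 + 64 ≤ ka) (hc : c ≤ 4 ^ 10) (hL0 : 0 ≤ L) (hLb : L ≤ pw Lam r.kL) (hN0 : 0 ≤ Nz)
    (hN : Nz ≤ pw Lam r.Z) : c * L * Nz * ix Lam ka ≤ ix Lam 44 :=
  fin3 hL hL0 hN0 (cst hL 10 hc) hLb hN (by have := r.ord; unfold Rd.m1 at hka; omega)

/-- `c L (y / u_ex) (number of lives with a decision)` -/
theorem t_yex (hka : r.m1 + 64 ≤ ka) (hc : c ≤ 4 ^ 10) (hL0 : 0 ≤ L) (hLb : L ≤ pw Lam r.kL) (hN0 : 0 ≤ NT)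
    (hN : NT ≤ pw Lam r.T) : c * L * NT * (ix Lam ka / ix Lam r.g0) ≤ ix Lam 44 := by
  rw [div_ix hL]
  have h := fin4 hL hL0 hN0 (pw_pos hL r.g0).le (cst hL 10 hc) hLb hN le_rfl (s := 44) (k := ka)
    (by have := r.ord; unfold Rd.m1 at hka; omega)
  refine le_trans (le_of_eq ?_) h
  ring

end terms

end

end Pool.Agent.GMH.CT
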