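import Pool.Agent.GMH.ConT1

/-!
# GMH/ConT2 (helper42): TERMS WITH `n`, `N_1`, `N_2`, `X0`; rare events (row A5)

`n = pw Lam c0`, `N_1 = pw Lam (c1F A c0)`, `N_2 = n N_1`, `X0 = pw Lam (cXF A c0)`, `e0 = ix Lam (ceF A c0)`.
* `c1_ge`, `cX_le`, `n_le_N1`, `X0_le_n4`, .. : comparison of the exponents (`A ≥ 80`, `c0 ≥ 3 A`);
* `sqrt_n`, `t_n12`, `t_own`, `t_mom` : terms with `n^(-1/2)`, `(X0 + N_1 Lam) / (N_2 mu_1)`, any `x^k / n`;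
* EVENTUALLY IN `c0` (`Ev`): `exp_n` : `exp (-(n x^(-k))) ≤ x^(-K (c1 + c0 + 1))`; `exp_nY` : the same with a factor `exp Y`,
  `Y ≤ n x^(-k) / 2`; `exp_N1` : `exp (Y + X0) exp (-(N_1 x^(-k))) ≤ exp (-(n^j))` for `Y ≤ n^12`.
-/

set_option autoImplicit false
set_option linter.unusedSectionVars false

namespace Pool.Agent.GMH.CT

open Pool.Agent.GMH Pool.Agent.GMH.V3 Finset Filter

noncomputable section

/-- for all large `c0` and all `Lam ≥ 2` -/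
def Ev (p : ℕ → ℝ → Prop) : Prop := ∀ᶠ c0 : ℕ in atTop, ∀ Lam : ℝ, 2 ≤ Lam → p c0 Lam

theorem Ev.of {p : ℕ → ℝ → Prop} (m : ℕ) (h : ∀ c0 ≥ m, ∀ Lam : ℝ, 2 ≤ Lam → p c0 Lam) : Ev p :=
  eventually_atTop.2 ⟨m, h⟩

theorem Ev.ex {p : ℕ → ℝ → Prop} (h : Ev p) : ∃ m, ∀ c0 ≥ m, ∀ Lam : ℝ, 2 ≤ Lam → p c0 Lam := eventually_atTop.1 h

theorem Ev.and {p q : ℕ → ℝ → Prop} (h1 : Ev p) (h2 : Ev q) : Ev fun c L => p c L ∧ q c L := by
  filter_upwards [h1, h2] with c0 a b Lam hL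
  exact ⟨a Lam hL, b Lam hL⟩

theorem Ev.mono {p q : ℕ → ℝ → Prop} (h1 : Ev p) (h : ∀ c L, 2 ≤ L → p c L → q c L) : Ev q := by
  filter_upwards [h1] with c0 a Lam hL
  exact h c0 Lam hL (a Lam hL)

theorem Ev.ge (m : ℕ) : Ev fun c _ => m ≤ c := Ev.of m fun _ h _ _ => h

/-! ## exponents -/

section expo

variable {A c0 : ℕ}

theorem c1_ge (hA : 80 ≤ A) : 80 * c0 + 80 * A ≤ c1F A c0 := c1_big hA

theorem cX_le (hc : 3 * A ≤ c0) : cXF A c0 ≤ 4 * c0 := by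
  unfold cXF
  omega

theorem ce_le (hc : 3 * A ≤ c0) : ceF A c0 ≤ 2 * c0 := by
  unfold ceF
  omega

end expo

section pows

variable {Lam : ℝ} (hL : 2 ≤ Lam) {A c0 : ℕ}

include hL

theorem X0_le (hc : 3 * A ≤ c0) : pw Lam (cXF A c0) ≤ pw Lam (4 * c0) := pw_mono hL (cX_le hc)

theorem N1_ge (hA : 80 ≤ A) (j : ℕ) (hj : j ≤ 80 * c0 + 80 * A) : pw Lam j ≤ pw Lam (c1F A c0) :=
  pw_mono hL (hj.trans (c1_ge hA))

theorem N1_inv (hA : 80 ≤ A) (j : ℕ) (hj : j ≤ 80 * c0 + 80 * A) : ix Lam (c1F A c0) ≤ ix Lam j :=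
  ix_anti hL (hj.trans (c1_ge hA))

/-- `n^(-1/2) ≤ x^(-k)` -/
theorem sqrt_n {k c0 : ℕ} (h : 2 * k ≤ c0) : Real.sqrt (ix Lam c0) ≤ ix Lam k := by
  refine (Real.sqrt_le_sqrt (ix_anti hL h)).trans (le_of_eq (sqrt_ix hL k))

/-- `N_1^(-1/8) ≤ x^(-k)` in the form `u ≤ N_1^(-1)`, `u = v^8` -/
theorem root8 {u : ℝ} {k : ℕ} (hu : u ^ 8 ≤ ix Lam (8 * k)) : u ≤ ix Lam k := by
  rw [show 8 * k = k * 8 by ring, ix_mul] at hu
  exact le_of_pow_le_pow_left₀ (by norm_num) (ix_nn hL k) hu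

variable (r : Rd) {c L NT Nz : ℝ}

/-- (14) `c L N n^(-1/2)` with any power in front -/
theorem t_n12 {k N : ℕ} {V : ℝ} (hc : c ≤ 4 ^ 10) (hL0 : 0 ≤ L) (hLb : L ≤ pw Lam r.kL) (hV0 : 0 ≤ V) (hV : V ≤ pw Lam N)
    (hn : 2 * (r.kL + N + k + 54) ≤ c0) : c * L * V * pw Lam k * Real.sqrt (ix Lam c0) ≤ ix Lam 44 := by
  have h1 := sqrt_n hL hn
  have h2 : 0 ≤ L * V * pw Lam k := mul_nonneg (mul_nonneg hL0 hV0) (pw_pos hL _).le
  have h3 : c * L * V * pw Lam k * Real.sqrt (ix Lam c0) ≤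
      4 ^ 10 * L * V * pw Lam k * ix Lam (r.kL + N + k + 54) := by
    have h4 : c * (L * V * pw Lam k) ≤ 4 ^ 10 * (L * V * pw Lam k) := mul_le_mul_of_nonneg_right hc h2
    calc c * L * V * pw Lam k * Real.sqrt (ix Lam c0) = c * (L * V * pw Lam k) * Real.sqrt (ix Lam c0) := by ring
      _ ≤ 4 ^ 10 * (L * V * pw Lam k) * Real.sqrt (ix Lam c0) := mul_le_mul_of_nonneg_right h4 (Real.sqrt_nonneg _)
      _ ≤ 4 ^ 10 * (L * V * pw Lam k) * ix Lam (r.kL + N + k + 54) :=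
          mul_le_mul_of_nonneg_left h1 (mul_nonneg (by norm_num) h2)
      _ = _ := by ring
  refine h3.trans ?_
  exact fin4 hL hL0 hV0 (pw_pos hL _).le (cst hL 10 le_rfl) hLb hV le_rfl (by omega)

/-- (15) any power against `n` -/
theorem t_n {k N : ℕ} {V : ℝ} (hc : c ≤ 4 ^ 10) (hL0 : 0 ≤ L) (hLb : L ≤ pw Lam r.kL) (hV0 : 0 ≤ V) (hV : V ≤ pw Lam N)
    (hn : r.kL + N + k + 54 ≤ c0) : c * L * V * pw Lam k * ix Lam c0 ≤ ix Lam 44 :=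
  fin4 hL hL0 hV0 (pw_pos hL _).le (cst hL 10 hc) hLb hV le_rfl (by omega)

/-- (16) own rows at the zones : `c N_0 (X0 + N_1 Lam) / (N_2 mu_1)` -/
theorem t_own (hA : 80 ≤ A) (hc : c ≤ 4 ^ 9) (hL0 : 0 ≤ L) (hLb : L ≤ pw Lam r.kL) (hN0 : 0 ≤ Nz)
    (hN : Nz ≤ pw Lam r.Z) (hn : r.kL + r.Z + r.m1 + 64 ≤ c0) (hc0 : 0 ≤ c) :
    c * L * Nz * ((pw Lam (cXF A c0) + pw Lam (c1F A c0) * Lam) / (pw Lam c0 * pw Lam (c1F A c0) * ix Lam r.m1)) ≤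
      ix Lam 44 := by
  have h1 : pw Lam (cXF A c0) ≤ pw Lam (c1F A c0) := N1_ge hL hA _ (by unfold cXF; omega)
  have n1 := pw_pos hL (c1F A c0)
  have n0 := pw_pos hL c0
  have h2 : (pw Lam (cXF A c0) + pw Lam (c1F A c0) * Lam) / (pw Lam c0 * pw Lam (c1F A c0) * ix Lam r.m1) ≤
      pw Lam 1 * pw Lam r.m1 * ix Lam c0 := by
    rw [div_le_iff₀ (mul_pos (mul_pos n0 n1) (ix_pos hL _))]
    have e : pw Lam 1 * pw Lam r.m1 * ix Lam c0 * (pw Lam c0 * pw Lam (c1F A c0) * ix Lam r.m1) =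
        pw Lam 1 * pw Lam (c1F A c0) * (pw Lam r.m1 * ix Lam r.m1) * (pw Lam c0 * ix Lam c0) := by ring
    rw [e, pw_ix hL, pw_ix hL, pw_one']
    nlinarith
  have h3 : 0 ≤ c * L * Nz := mul_nonneg (mul_nonneg hc0 hL0) hN0
  refine (mul_le_mul_of_nonneg_left h2 h3).trans ?_
  have h4 := fin hL (k := c0) (s := 44) (mul_pw hL (pw_pos hL r.m1).le (mul_pw hL (pw_pos hL 1).le (mul_pw hL hN0
    (mul_pw hL hL0 (cst hL 9 hc) hLb) hN) le_rfl) le_rfl) (by omega)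
  refine le_trans (le_of_eq ?_) h4
  ring

end pows

/-! ## rare events -/

/-- the exponential of a large number -/
theorem exp_pw {Lam : ℝ} (hL : 2 ≤ Lam) (k : ℕ) {y : ℝ} (hy : (k : ℝ) * (2 * Lam) ≤ y) : Real.exp (-y) ≤ ix Lam k := by
  have h := Fn.expneg (x := 2 * Lam) (by linarith) k hy
  rw [zpow_neg, zpow_natCast] at h
  exact h

/-- `n x^(-k)` is larger than every logarithm -/
theorem n_big (A k K : ℕ) : Ev fun c0 Lam => (K : ℝ) * ((c1F A c0 : ℝ) + c0 + 1) * (2 * Lam) ≤ pw Lam c0 * ix Lam k := by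
  obtain ⟨m, h⟩ := MVN.big A k (4 * K)
  refine Ev.of m fun c0 hc Lam hL => ?_
  obtain ⟨h6, h1⟩ := h c0 hc
  have h2 := h1 Lam hL
  have e : MVN.pe Lam k c0 = pw Lam c0 * ix Lam k := by
    unfold MVN.pe ix
    rw [div_eq_mul_inv]
  rw [e] at h2
  refine le_trans ?_ h2
  have c6 : (6 : ℝ) ≤ c0 := by exact_mod_cast h6
  have k0 : (0 : ℝ) ≤ K := Nat.cast_nonneg K
  have q0 : (0 : ℝ) ≤ (c1F A c0 : ℝ) := Nat.cast_nonneg _
  push_cast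
  have h3 : ((c1F A c0 : ℝ) + c0 + 1) * (2 * Lam) ≤ 4 * ((c1F A c0 : ℝ) * Lam + c0 * Lam + 1) := by nlinarith
  have h4 := mul_le_mul_of_nonneg_left h3 k0
  linarith

/-- **RARE AT AN EXACT VERTEX** -/
theorem exp_n (A k K : ℕ) : Ev fun c0 Lam => Real.exp (-(pw Lam c0 * ix Lam k)) ≤ ix Lam (K * (c1F A c0 + c0 + 1)) := by
  refine (n_big A k K).mono fun c0 Lam hL h => exp_pw hL _ ?_
  push_cast
  exact h

/-- with a factor `exp Y`, `Y ≤ n x^(-k)/2` -/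
theorem exp_nY (A k K : ℕ) : Ev fun c0 Lam => ∀ Y y : ℝ, Y ≤ pw Lam c0 * ix Lam k / 2 → pw Lam c0 * ix Lam k ≤ y →
    Real.exp (Y - y) ≤ ix Lam (K * (c1F A c0 + c0 + 1)) := by
  refine (n_big A k (2 * K)).mono fun c0 Lam hL h Y y h1 h2 => ?_
  have h3 : Y - y = -(y - Y) := by ring
  rw [h3]
  refine exp_pw hL _ ?_
  push_cast at h ⊢
  nlinarith

/-- every power of `n` (up to the 12-th) and `X0` against `N_1` -/
theorem N1_big {A : ℕ} (hA : 80 ≤ A) (k j : ℕ) (hj : j ≤ 64) : Ev fun c0 Lam =>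
    pw Lam (j * c0) + pw Lam (cXF A c0) ≤ pw Lam (c1F A c0) * ix Lam k := by
  refine Ev.of (k + 2 + 3 * A) fun c0 hc Lam hL => ?_
  have h1 : pw Lam (j * c0) ≤ pw Lam (64 * c0) := pw_mono hL (Nat.mul_le_mul_right c0 hj)
  have h2 : pw Lam (cXF A c0) ≤ pw Lam (64 * c0) := pw_mono hL (by unfold cXF; omega)
  have h3 := add_pw hL h1 h2
  refine h3.trans ?_
  have h4 : pw Lam (64 * c0 + 1 + k) ≤ pw Lam (c1F A c0) := N1_ge hL hA _ (by omega)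
  have h5 := mul_le_mul_of_nonneg_right h4 (ix_nn hL k)
  refine le_trans (le_of_eq ?_) h5
  rw [show 64 * c0 + 1 + k = k + (64 * c0 + 1) by ring, pw_add_ix hL]

/-- **RARE AT A NODE** : factors `exp Y` with `Y ≤ n^12` and `exp X0` -/
theorem exp_N1 {A : ℕ} (hA : 80 ≤ A) (k : ℕ) : Ev fun c0 Lam => ∀ Y y : ℝ, Y ≤ pw Lam (12 * c0) + pw Lam (cXF A c0) →
    pw Lam (c1F A c0) * ix Lam k ≤ y → Real.exp (Y - y) ≤ Real.exp (-(pw Lam (16 * c0))) := by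
  refine ((N1_big hA (k + 1) 16 (by norm_num)).and (Ev.ge 1)).mono fun c0 Lam hL h Y y h1 h2 => ?_
  obtain ⟨h, hc⟩ := h
  refine Real.exp_le_exp.2 ?_
  have h3 : pw Lam (12 * c0) ≤ pw Lam (16 * c0) := pw_mono hL (by omega)
  have h4 : pw Lam (c1F A c0) * ix Lam k = 2 * Lam * (pw Lam (c1F A c0) * ix Lam (k + 1)) := by
    rw [ix_add]
    have : ix Lam 1 * (2 * Lam) = 1 := by
      have := pw_ix hL 1
      rw [pw_one'] at this
      linarith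
    calc pw Lam (c1F A c0) * ix Lam k = pw Lam (c1F A c0) * ix Lam k * (ix Lam 1 * (2 * Lam)) := by rw [this, mul_one]
      _ = _ := by ring
  have h5 := pw_pos hL (cXF A c0)
  have h6 := pw_pos hL (16 * c0)
  nlinarith

/-- powers of `n` are rare too -/
theorem exp_nj (A K : ℕ) : Ev fun c0 Lam => Real.exp (-(pw Lam c0)) ≤ ix Lam (K * (c1F A c0 + c0 + 1)) := by
  refine (exp_n A 0 K).mono fun c0 Lam _ h => ?_
  rw [ix_zero, mul_one] at h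
  exact h

/-- the number of all steps (removals, both kinds of ends) against a rare event : `V ≤ x^(16 (c1 + c0 + 1))` -/
theorem V_rare {Lam : ℝ} (hL : 2 ≤ Lam) {V e : ℝ} {N s : ℕ} (hV0 : 0 ≤ V) (hV : V ≤ pw Lam N) (he : e ≤ ix Lam (N + s)) :
    V * e ≤ ix Lam s := by
  refine (mul_le_mul_of_nonneg_left he hV0).trans ?_
  exact fin hL hV le_rfl

/-- all removals : `3 N_2 Lam` -/
theorem N2_le {Lam : ℝ} (hL : 2 ≤ Lam) {A c0 : ℕ} {c : ℝ} (hc : c ≤ 4 ^ 10) :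
    c * (pw Lam c0 * pw Lam (c1F A c0) * Lam) ≤ pw Lam (c1F A c0 + c0 + 11) := by
  have h := mul_pw hL (mul_nonneg (mul_nonneg (pw_pos hL c0).le (pw_pos hL (c1F A c0)).le) (by linarith)) (cst hL 10 hc)
    (mul_pw hL (by linarith) (mul_pw hL (pw_pos hL (c1F A c0)).le (le_refl (pw Lam c0)) le_rfl) (Lam_le hL))
  refine h.trans (pw_mono hL (by omega))

end

end Pool.Agent.GMH.CT
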