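import Pool.Agent.GMH.ConT2

/-!
# GMH/ConT4 (helper42): NUMBERS OF THE COVERS AND OF THEIR PAYMENTS (row A5; PayI)

* `Mf` : length of the lists, `exp (n x^(-kf)) ≤ Mf`, `log (2 Mf) ≤ n x^(-kf) + 2`; `Kf` : `1 < kap Kf`;
* `Mf_rare` : `(1 / (kap (Mf + 1))) V ≤ x^(-s)` for all `V ≤ exp (n x^(-(kf+1)))` (`pe_exp` : lives, `poly_exp` : powers of `N_1`);
* `Mp` : length of the PUBLIC lists, `exp (n^16)`; `Mp_rare` : the same for all `V ≤ exp (n^15)`;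
* `pay_num` : ALL HYPOTHESES OF `PayI.pay_lives` and its error; `pay_cov` : the covered mass is at most `x^(k2 + kc + 4)`.
-/

set_option autoImplicit false
set_option linter.unusedSectionVars false

namespace Pool.Agent.GMH.CT

open Pool.Agent.GMH Pool.Agent.GMH.V3 Finset Filter

noncomputable section

/-- length of the lists : `exp (n x^(-kf))` -/
def Mf (Lam : ℝ) (kf c0 : ℕ) : ℕ := ⌈Real.exp (pw Lam c0 * ix Lam kf)⌉₊

/-- number of levels : `1 < kap Kf`, `kap = x^(-k1)` -/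
def Kf (Lam : ℝ) (k1 : ℕ) : ℕ := ⌈pw Lam (k1 + 1)⌉₊

section basic

variable {Lam : ℝ} (hL : 2 ≤ Lam)

theorem Mf_ge (kf c0 : ℕ) : Real.exp (pw Lam c0 * ix Lam kf) ≤ (Mf Lam kf c0 : ℝ) := Nat.le_ceil _

theorem Mf_one (kf c0 : ℕ) : 1 ≤ Mf Lam kf c0 := Nat.one_le_iff_ne_zero.2 (Nat.ceil_pos.2 (Real.exp_pos _)).ne'

include hL

theorem log_Mf (kf c0 : ℕ) : Real.log (2 * (Mf Lam kf c0 : ℝ)) ≤ pw Lam c0 * ix Lam kf + 2 := by
  have y0 : 0 ≤ pw Lam c0 * ix Lam kf := mul_nonneg (pw_pos hL _).le (ix_nn hL _)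
  have h1 : (1 : ℝ) ≤ Real.exp (pw Lam c0 * ix Lam kf) := Real.one_le_exp y0
  have h2 : (Mf Lam kf c0 : ℝ) ≤ Real.exp (pw Lam c0 * ix Lam kf) + 1 := (Nat.ceil_lt_add_one (Real.exp_pos _).le).le
  have h3 : 2 * (Mf Lam kf c0 : ℝ) ≤ Real.exp (pw Lam c0 * ix Lam kf + 2) := by
    rw [Real.exp_add]
    have h4 : (4 : ℝ) ≤ Real.exp 2 := by
      have h5 := Real.add_one_le_exp (1 : ℝ)
      have h6 : Real.exp 2 = Real.exp 1 * Real.exp 1 := by rw [← Real.exp_add]; norm_num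
      rw [h6]
      nlinarith
    nlinarith
  have h7 : (0 : ℝ) < 2 * (Mf Lam kf c0 : ℝ) := by
    have : (1 : ℝ) ≤ (Mf Lam kf c0 : ℝ) := by exact_mod_cast Mf_one kf c0
    linarith
  have h8 := Real.log_le_log h7 h3
  rwa [Real.log_exp] at h8

theorem Kf_ge (k1 : ℕ) : pw Lam (k1 + 1) ≤ (Kf Lam k1 : ℝ) := Nat.le_ceil _

theorem Kf_pos (k1 : ℕ) : 0 < Kf Lam k1 := Nat.ceil_pos.2 (pw_pos hL _)

theorem Kf_gt (k1 : ℕ) : 1 < ix Lam k1 * (Kf Lam k1 : ℝ) := by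
  have h1 := mul_le_mul_of_nonneg_left (Kf_ge hL k1) (ix_nn hL k1)
  have h2 : ix Lam k1 * pw Lam (k1 + 1) = 2 * Lam := by
    rw [mul_comm, pw_add_ix hL, pw_one']
  rw [h2] at h1
  linarith

theorem Kf_le (k1 : ℕ) : (Kf Lam k1 : ℝ) ≤ pw Lam (k1 + 2) := by
  have h1 : (Kf Lam k1 : ℝ) ≤ pw Lam (k1 + 1) + 1 := (Nat.ceil_lt_add_one (pw_pos hL _).le).le
  have h2 := add_pw hL (le_refl (pw Lam (k1 + 1))) (pw_ge1 hL (k1 + 1))
  exact h1.trans h2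

end basic

/-- polynomial numbers are at most `exp (n x^(-k))` -/
theorem poly_exp (A k : ℕ) : Ev fun c0 Lam => pw Lam (c1F A c0 + c0 + 11) ≤ Real.exp (pw Lam c0 * ix Lam k) := by
  refine ((exp_n A k 12).and (Ev.ge 1)).mono fun c0 Lam hL h => ?_
  obtain ⟨h, hc⟩ := h
  have h1 : ix Lam (12 * (c1F A c0 + c0 + 1)) ≤ ix Lam (c1F A c0 + c0 + 11) := ix_anti hL (by omega)
  have h2 := h.trans h1
  unfold ix at h2
  rw [Real.exp_neg] at h2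
  exact (inv_le_inv₀ (Real.exp_pos _) (pw_pos hL _)).1 h2

/-- the number of the lives : `exp (6 n x^(-ka))` -/
theorem pe_exp {Lam : ℝ} (hL : 2 ≤ Lam) {ka k c0 : ℕ} (h : k + 2 ≤ ka) {c : ℝ} (hc : c ≤ 16) :
    Real.exp (c * (pw Lam c0 * ix Lam ka)) ≤ Real.exp (pw Lam c0 * ix Lam k) := by
  refine Real.exp_le_exp.2 ?_
  have h1 : c * ix Lam ka ≤ ix Lam k := fin hL (cst hL 2 (by norm_num; linarith)) (by omega)
  have h2 := mul_le_mul_of_nonneg_left h1 (pw_pos hL c0).le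
  linarith

/-- one fourth of the exponent -/
theorem four_ix {Lam : ℝ} (hL : 2 ≤ Lam) {y : ℝ} (hy : 0 ≤ y) (k : ℕ) : 4 * (y * ix Lam (k + 1)) ≤ y * ix Lam k := by
  have h3 : 4 * ix Lam (1 + k) ≤ ix Lam k := cst_ix hL (c := 4) (j := 1) (by norm_num)
  rw [show 1 + k = k + 1 by ring] at h3
  have := mul_le_mul_of_nonneg_left h3 hy
  linarith

/-- **THE SAMPLES ARE LONG** : `V` = number of the lives -/
theorem Mf_rare (A kf k1 s : ℕ) : Ev fun c0 Lam => ∀ V : ℝ, V ≤ Real.exp (pw Lam c0 * ix Lam (kf + 1)) →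
    1 / (ix Lam k1 * ((Mf Lam kf c0 : ℝ) + 1)) * V ≤ ix Lam s := by
  refine ((exp_n A (kf + 1) (s + k1)).and (Ev.ge 1)).mono fun c0 Lam hL h V hV => ?_
  obtain ⟨h, hc⟩ := h
  have m1 : Real.exp (pw Lam c0 * ix Lam kf) ≤ (Mf Lam kf c0 : ℝ) + 1 := (Mf_ge kf c0).trans (by linarith)
  have m0 : 0 < (Mf Lam kf c0 : ℝ) + 1 := lt_of_lt_of_le (Real.exp_pos _) m1
  have h1 : 1 / (ix Lam k1 * ((Mf Lam kf c0 : ℝ) + 1)) ≤ pw Lam k1 * Real.exp (-(pw Lam c0 * ix Lam kf)) := by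
    rw [one_div, mul_inv, inv_ix hL, Real.exp_neg]
    exact mul_le_mul_of_nonneg_left (inv_anti₀ (Real.exp_pos _) m1) (pw_pos hL _).le
  have h2 : 0 ≤ 1 / (ix Lam k1 * ((Mf Lam kf c0 : ℝ) + 1)) := by
    have := ix_pos hL k1
    positivity
  have h3 := four_ix hL (pw_pos hL c0).le kf
  have y0 : 0 ≤ pw Lam c0 * ix Lam (kf + 1) := mul_nonneg (pw_pos hL _).le (ix_nn hL _)
  calc 1 / (ix Lam k1 * ((Mf Lam kf c0 : ℝ) + 1)) * V
      ≤ 1 / (ix Lam k1 * ((Mf Lam kf c0 : ℝ) + 1)) * Real.exp (pw Lam c0 * ix Lam (kf + 1)) :=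
        mul_le_mul_of_nonneg_left hV h2
    _ ≤ pw Lam k1 * Real.exp (-(pw Lam c0 * ix Lam kf)) * Real.exp (pw Lam c0 * ix Lam (kf + 1)) :=
        mul_le_mul_of_nonneg_right h1 (Real.exp_pos _).le
    _ = pw Lam k1 * Real.exp (-(pw Lam c0 * ix Lam kf) + pw Lam c0 * ix Lam (kf + 1)) := by
        rw [Real.exp_add]
        ring
    _ ≤ pw Lam k1 * Real.exp (-(pw Lam c0 * ix Lam (kf + 1))) :=
        mul_le_mul_of_nonneg_left (Real.exp_le_exp.2 (by linarith)) (pw_pos hL _).le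
    _ ≤ pw Lam k1 * ix Lam ((s + k1) * (c1F A c0 + c0 + 1)) := mul_le_mul_of_nonneg_left h (pw_pos hL _).le
    _ ≤ ix Lam s := by
        refine fin hL le_rfl ?_
        have e2 : (s + k1) * 1 ≤ (s + k1) * (c1F A c0 + c0 + 1) := Nat.mul_le_mul_left _ (by omega)
        omega

/-! ### the lists of the public covers : `exp (n^16)` -/

/-- length of the public lists -/
def Mp (Lam : ℝ) (c0 : ℕ) : ℕ := ⌈Real.exp (pw Lam (16 * c0))⌉₊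

theorem Mp_eq (Lam : ℝ) (c0 : ℕ) : Mp Lam c0 = Mf Lam 0 (16 * c0) := by
  unfold Mp Mf
  rw [ix_zero, mul_one]

theorem Mp_one (Lam : ℝ) (c0 : ℕ) : 1 ≤ Mp Lam c0 := by
  rw [Mp_eq]
  exact Mf_one _ _

theorem log_Mp {Lam : ℝ} (hL : 2 ≤ Lam) (c0 : ℕ) : Real.log (2 * (Mp Lam c0 : ℝ)) ≤ pw Lam (16 * c0) + 2 := by
  rw [Mp_eq]
  have := log_Mf hL 0 (16 * c0)
  rwa [ix_zero, mul_one] at this

/-- **THE PUBLIC SAMPLES ARE LONG** : `V` = number of the public epochs `≤ exp (n^15)` -/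
theorem Mp_rare (A k1 s : ℕ) : Ev fun c0 Lam => ∀ V : ℝ, V ≤ Real.exp (pw Lam (15 * c0)) →
    1 / (ix Lam k1 * ((Mp Lam c0 : ℝ) + 1)) * V ≤ ix Lam s := by
  refine ((exp_nj A (s + k1)).and (Ev.ge 1)).mono fun c0 Lam hL h V hV => ?_
  obtain ⟨h, hc⟩ := h
  have m1 : Real.exp (pw Lam (16 * c0)) ≤ (Mp Lam c0 : ℝ) + 1 := (Nat.le_ceil _).trans (by unfold Mp; linarith)
  have m0 : 0 < (Mp Lam c0 : ℝ) + 1 := lt_of_lt_of_le (Real.exp_pos _) m1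
  have h1 : 1 / (ix Lam k1 * ((Mp Lam c0 : ℝ) + 1)) ≤ pw Lam k1 * Real.exp (-(pw Lam (16 * c0))) := by
    rw [one_div, mul_inv, inv_ix hL, Real.exp_neg]
    exact mul_le_mul_of_nonneg_left (inv_anti₀ (Real.exp_pos _) m1) (pw_pos hL _).le
  have h2 : 0 ≤ 1 / (ix Lam k1 * ((Mp Lam c0 : ℝ) + 1)) := by
    have := ix_pos hL k1
    positivity
  have h3 : 4 * pw Lam (15 * c0) ≤ pw Lam (16 * c0) := by
    have h4 : 4 * pw Lam (15 * c0) ≤ pw Lam (1 + 15 * c0) :=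
      mul_pw hL (pw_pos hL _).le (cst hL 1 (by norm_num)) le_rfl
    exact h4.trans (pw_mono hL (by omega))
  have h5 : pw Lam c0 ≤ pw Lam (15 * c0) := pw_mono hL (by omega)
  have h6 := pw_pos hL (15 * c0)
  calc 1 / (ix Lam k1 * ((Mp Lam c0 : ℝ) + 1)) * V
      ≤ 1 / (ix Lam k1 * ((Mp Lam c0 : ℝ) + 1)) * Real.exp (pw Lam (15 * c0)) := mul_le_mul_of_nonneg_left hV h2
    _ ≤ pw Lam k1 * Real.exp (-(pw Lam (16 * c0))) * Real.exp (pw Lam (15 * c0)) :=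
        mul_le_mul_of_nonneg_right h1 (Real.exp_pos _).le
    _ = pw Lam k1 * Real.exp (-(pw Lam (16 * c0)) + pw Lam (15 * c0)) := by
        rw [Real.exp_add]
        ring
    _ ≤ pw Lam k1 * Real.exp (-(pw Lam c0)) :=
        mul_le_mul_of_nonneg_left (Real.exp_le_exp.2 (by linarith)) (pw_pos hL _).le
    _ ≤ pw Lam k1 * ix Lam ((s + k1) * (c1F A c0 + c0 + 1)) := mul_le_mul_of_nonneg_left h (pw_pos hL _).le
    _ ≤ ix Lam s := by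
        refine fin hL le_rfl ?_
        have e2 : (s + k1) * 1 ≤ (s + k1) * (c1F A c0 + c0 + 1) := Nat.mul_le_mul_left _ (by omega)
        omega

/-! ## payments : `PayI.pay_lives` -/

/-- `ep1` -/
def kep (kL k1 k2 : ℕ) : ℕ := kL + k1 + k2 + 1
/-- `th` -/
def kth (kL k1 k2 : ℕ) : ℕ := 2 * kL + k1 + 2 * k2 + 2
/-- `J` -/
def Jf (Lam : ℝ) (kL k1 k2 : ℕ) : ℕ := ⌈pw Lam (kth kL k1 k2 + k1 + 1)⌉₊
/-- `th1` -/
def th1f (Lam : ℝ) (kk c0 : ℕ) : ℝ := Real.exp (-(pw Lam c0 * ix Lam kk))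

section payc

variable {Lam : ℝ} (hL : 2 ≤ Lam) (kL k1 k2 : ℕ) {L : ℝ}

include hL

theorem pay_ep (hLb : L ≤ pw Lam kL) : 4 * L * ix Lam (kep kL k1 k2) ≤ ix Lam k2 * ix Lam k1 := by
  rw [← ix_add]
  have h := fin hL (u := 4 * L) (a := kL + 1) (k := kep kL k1 k2) (s := k2 + k1) (by
    rw [pw_succ]
    have := pw_pos hL kL
    nlinarith) (by unfold kep; omega)
  exact h

theorem pay_th (hLb : L ≤ pw Lam kL) : 4 * L * ix Lam (kth kL k1 k2) ≤ ix Lam k2 * ix Lam (kep kL k1 k2) := by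
  rw [← ix_add]
  have h := fin hL (u := 4 * L) (a := kL + 1) (k := kth kL k1 k2) (s := k2 + kep kL k1 k2) (by
    rw [pw_succ]
    have := pw_pos hL kL
    nlinarith) (by unfold kth kep; omega)
  exact h

theorem pay_J : 1 < ix Lam (kth kL k1 k2) * ix Lam k1 * ((Jf Lam kL k1 k2 : ℝ) + 1) := by
  rw [← ix_add]
  have h1 : pw Lam (kth kL k1 k2 + k1 + 1) ≤ (Jf Lam kL k1 k2 : ℝ) := Nat.le_ceil _
  have h2 := mul_le_mul_of_nonneg_left h1 (ix_nn hL (kth kL k1 k2 + k1))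
  have h3 : ix Lam (kth kL k1 k2 + k1) * pw Lam (kth kL k1 k2 + k1 + 1) = 2 * Lam := by
    rw [mul_comm, pw_add_ix hL, pw_one']
  have h4 := ix_pos hL (kth kL k1 k2 + k1)
  nlinarith

theorem Jf_le : (Jf Lam kL k1 k2 : ℝ) + 1 ≤ pw Lam (kth kL k1 k2 + k1 + 2) := by
  have h1 : (Jf Lam kL k1 k2 : ℝ) ≤ pw Lam (kth kL k1 k2 + k1 + 1) + 1 := (Nat.ceil_lt_add_one (pw_pos hL _).le).le
  have h2 := pw_ge1 hL (kth kL k1 k2 + k1 + 1)
  rw [show kth kL k1 k2 + k1 + 2 = kth kL k1 k2 + k1 + 1 + 1 by ring, pw_succ]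
  nlinarith

theorem th1_pos (kk c0 : ℕ) : 0 < th1f Lam kk c0 := Real.exp_pos _

theorem th1_le (kk c0 : ℕ) : th1f Lam kk c0 ≤ 1 :=
  Real.exp_le_one_iff.2 (neg_nonpos.2 (mul_nonneg (pw_pos hL _).le (ix_nn hL _)))

theorem log_th1 (kk c0 : ℕ) : Real.log (1 / th1f Lam kk c0) = pw Lam c0 * ix Lam kk := by
  unfold th1f
  rw [one_div, ← Real.exp_neg, neg_neg, Real.log_exp]

theorem sqrt_th1 (kk c0 : ℕ) : Real.sqrt (th1f Lam kk c0) ≤ Real.exp (-(2 * (pw Lam c0 * ix Lam (kk + 1)))) := by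
  have y0 : 0 ≤ pw Lam c0 * ix Lam kk := mul_nonneg (pw_pos hL _).le (ix_nn hL _)
  have e : th1f Lam kk c0 = Real.exp (-(pw Lam c0 * ix Lam kk) / 2) * Real.exp (-(pw Lam c0 * ix Lam kk) / 2) := by
    unfold th1f
    rw [← Real.exp_add]
    congr 1
    ring
  rw [e, Real.sqrt_mul_self (Real.exp_pos _).le]
  refine Real.exp_le_exp.2 ?_
  have h1 := four_ix hL (pw_pos hL c0).le kk
  linarith

/-- the price of one name -/
theorem pay_A {kc kf kk c0 : ℕ} (hkf : k1 + k2 + kc + 8 ≤ kf) (hkk : k1 + k2 + kc + 8 ≤ kk) (hc : k1 + k2 + kc + 5 ≤ c0)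
    {cc eps : ℝ} (hcc : ix Lam kc ≤ cc) (he : eps ≤ ix Lam (k1 + k2 + kc + 3)) :
    8 * (4 * (Real.log (1 / th1f Lam kk c0) + 1) + 2 * Real.log (2 * (Mf Lam kf c0 : ℝ)) + pw Lam c0 * eps) ≤
      pw Lam c0 * cc * ix Lam k2 * ix Lam k1 := by
  rw [log_th1 hL]
  have h1 := log_Mf hL kf c0
  set K := k1 + k2 + kc with hK
  have n0 := pw_pos hL c0
  have e1 : pw Lam c0 * ix Lam (K) ≤ pw Lam c0 * cc * ix Lam k2 * ix Lam k1 := by
    have : ix Lam K = ix Lam kc * ix Lam k2 * ix Lam k1 := by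
      rw [hK, ← ix_add, ← ix_add]
      congr 1
      ring
    rw [this]
    have h2 : ix Lam kc * (ix Lam k2 * ix Lam k1) ≤ cc * (ix Lam k2 * ix Lam k1) :=
      mul_le_mul_of_nonneg_right hcc (mul_nonneg (ix_nn hL _) (ix_nn hL _))
    have h3 := mul_le_mul_of_nonneg_left h2 n0.le
    calc pw Lam c0 * (ix Lam kc * ix Lam k2 * ix Lam k1) = pw Lam c0 * (ix Lam kc * (ix Lam k2 * ix Lam k1)) := by ring
      _ ≤ _ := h3
      _ = _ := by ring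
  refine le_trans ?_ e1
  have f8 : ix Lam 3 ≤ 1 / 64 := by
    have := ix_four hL 3
    norm_num at this ⊢
    exact this
  have q : ∀ j : ℕ, K + 3 ≤ j → ix Lam j ≤ ix Lam K * (1 / 64) := fun j hj =>
    (ix_anti hL hj).trans (by rw [ix_add]; exact mul_le_mul_of_nonneg_left f8 (ix_nn hL _))
  have q5 : ix Lam (K + 8) ≤ ix Lam K * (1 / 4096) := by
    have h5 : ix Lam (K + 8) ≤ ix Lam (K + 6) := ix_anti hL (by omega)
    have h6 : ix Lam 6 ≤ 1 / 4096 := by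
      have := ix_four hL 6
      norm_num at this ⊢
      exact this
    refine h5.trans ?_
    rw [ix_add]
    exact mul_le_mul_of_nonneg_left h6 (ix_nn hL _)
  have g1 := mul_le_mul_of_nonneg_left (q5) n0.le
  have g2 := mul_le_mul_of_nonneg_left ((ix_anti hL hkk).trans q5) n0.le
  have g3 := mul_le_mul_of_nonneg_left ((ix_anti hL hkf).trans q5) n0.le
  have g4 := mul_le_mul_of_nonneg_left (he.trans (q (K + 3) le_rfl)) n0.le
  have g5 : (1024 : ℝ) ≤ pw Lam c0 * ix Lam K := by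
    have h5 : pw Lam (5 + K) ≤ pw Lam c0 := pw_mono hL (by omega)
    have h6 := mul_le_mul_of_nonneg_right h5 (ix_nn hL K)
    have h7 := pw_ge hL 5
    rw [show 5 + K = K + 5 by ring, pw_add_ix hL] at h6
    norm_num at h7
    linarith
  nlinarith

end payc

/-- **THE ERROR OF THE PAYMENTS** : `V` = number of the lives -/
theorem pay_err (A kL k1 k2 kk s : ℕ) : Ev fun c0 Lam => ∀ V : ℝ, 0 ≤ V → V ≤ Real.exp (pw Lam c0 * ix Lam (kk + 1)) →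
    16 * ((Jf Lam kL k1 k2 : ℝ) + 1) * Real.sqrt (th1f Lam kk c0) / pw Lam c0 * V ≤ ix Lam s := by
  refine ((exp_n A (kk + 1) (s + (kth kL k1 k2 + k1 + 2) + 2)).and (Ev.ge 1)).mono fun c0 Lam hL h V V0 hV => ?_
  obtain ⟨h, hc⟩ := h
  have j1 := Jf_le hL kL k1 k2
  have j0 : (0 : ℝ) ≤ (Jf Lam kL k1 k2 : ℝ) + 1 := by positivity
  have s0 := Real.sqrt_nonneg (th1f Lam kk c0)
  have n1 := pw_ge1 hL c0
  have s1 : Real.sqrt (th1f Lam kk c0) * V ≤ ix Lam ((s + (kth kL k1 k2 + k1 + 2) + 2) * (c1F A c0 + c0 + 1)) := by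
    calc Real.sqrt (th1f Lam kk c0) * V ≤ Real.exp (-(2 * (pw Lam c0 * ix Lam (kk + 1)))) *
          Real.exp (pw Lam c0 * ix Lam (kk + 1)) := mul_le_mul (sqrt_th1 hL kk c0) hV V0 (Real.exp_pos _).le
      _ = Real.exp (-(pw Lam c0 * ix Lam (kk + 1))) := by
          rw [← Real.exp_add]
          congr 1
          ring
      _ ≤ _ := h
  have h1 : 16 * ((Jf Lam kL k1 k2 : ℝ) + 1) * Real.sqrt (th1f Lam kk c0) / pw Lam c0 ≤
      16 * ((Jf Lam kL k1 k2 : ℝ) + 1) * Real.sqrt (th1f Lam kk c0) := div_le_self (by positivity) n1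
  calc 16 * ((Jf Lam kL k1 k2 : ℝ) + 1) * Real.sqrt (th1f Lam kk c0) / pw Lam c0 * V
      ≤ 16 * ((Jf Lam kL k1 k2 : ℝ) + 1) * Real.sqrt (th1f Lam kk c0) * V := mul_le_mul_of_nonneg_right h1 V0
    _ = 16 * ((Jf Lam kL k1 k2 : ℝ) + 1) * (Real.sqrt (th1f Lam kk c0) * V) := by ring
    _ ≤ 16 * ((Jf Lam kL k1 k2 : ℝ) + 1) * ix Lam ((s + (kth kL k1 k2 + k1 + 2) + 2) * (c1F A c0 + c0 + 1)) :=
        mul_le_mul_of_nonneg_left s1 (by positivity)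
    _ ≤ ix Lam s := by
        refine fin2 hL (a := 2) j0 (cst hL 2 (by norm_num)) j1 ?_
        have e2 : (s + (kth kL k1 k2 + k1 + 2) + 2) * 1 ≤ (s + (kth kL k1 k2 + k1 + 2) + 2) * (c1F A c0 + c0 + 1) :=
          Nat.mul_le_mul_left _ (by omega)
        omega

/-- **THE COVERED MASS** : `cc lam S ≤ 40 Lam + e` gives `S ≤ x^(k2 + kc + 4)` -/
theorem pay_cov {Lam : ℝ} (hL : 2 ≤ Lam) {k2 kc : ℕ} {cc S e : ℝ} (hcc : ix Lam kc ≤ cc) (hS0 : 0 ≤ S) (he : e ≤ Lam)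
    (h : cc * ix Lam k2 * S ≤ 8 * (5 * Lam) + e) : S ≤ pw Lam (k2 + kc + 4) := by
  have h1 : ix Lam kc * (ix Lam k2 * S) ≤ cc * (ix Lam k2 * S) :=
    mul_le_mul_of_nonneg_right hcc (mul_nonneg (ix_nn hL _) hS0)
  have h2 : 41 * Lam ≤ pw Lam 4 := by
    have := cLam hL (c := 41) 3 (by norm_num)
    exact this
  have h3 : ix Lam (k2 + kc) * S ≤ pw Lam 4 := by
    rw [ix_add]
    calc ix Lam k2 * ix Lam kc * S = ix Lam kc * (ix Lam k2 * S) := by ring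
      _ ≤ cc * (ix Lam k2 * S) := h1
      _ = cc * ix Lam k2 * S := by ring
      _ ≤ pw Lam 4 := by linarith
  have h4 : S = pw Lam (k2 + kc) * (ix Lam (k2 + kc) * S) := by
    rw [← mul_assoc, pw_ix hL, one_mul]
  rw [h4, pw_add Lam (k2 + kc) 4]
  exact mul_le_mul_of_nonneg_left h3 (pw_pos hL _).le

/-- **ALL CONDITIONS OF `PayI.pay_lives`** (`kap = x^(-k1)`, `lam = x^(-k2)`, `c0` of PayI `≥ x^(-kc)`) -/
theorem pay_num (A kL k1 k2 kc kf : ℕ) (hkf : k1 + k2 + kc + 8 ≤ kf) (s : ℕ) : Ev fun c0 Lam => ∀ L cc eps V : ℝ,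
    L ≤ pw Lam kL → ix Lam kc ≤ cc → eps ≤ ix Lam (k1 + k2 + kc + 3) → 0 ≤ V →
    V ≤ Real.exp (pw Lam c0 * ix Lam (k1 + k2 + kc + 9)) →
    1 ≤ Mf Lam kf c0 ∧ 0 < Kf Lam k1 ∧ 1 < ix Lam k1 * (Kf Lam k1 : ℝ) ∧ 0 < ix Lam (kep kL k1 k2) ∧
    4 * L * ix Lam (kep kL k1 k2) ≤ ix Lam k2 * ix Lam k1 ∧
    4 * L * ix Lam (kth kL k1 k2) ≤ ix Lam k2 * ix Lam (kep kL k1 k2) ∧
    1 < ix Lam (kth kL k1 k2) * ix Lam k1 * ((Jf Lam kL k1 k2 : ℝ) + 1) ∧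
    0 < th1f Lam (k1 + k2 + kc + 8) c0 ∧ th1f Lam (k1 + k2 + kc + 8) c0 ≤ 1 ∧
    8 * (4 * (Real.log (1 / th1f Lam (k1 + k2 + kc + 8) c0) + 1) + 2 * Real.log (2 * (Mf Lam kf c0 : ℝ)) +
      pw Lam c0 * eps) ≤ pw Lam c0 * cc * ix Lam k2 * ix Lam k1 ∧
    16 * ((Jf Lam kL k1 k2 : ℝ) + 1) * Real.sqrt (th1f Lam (k1 + k2 + kc + 8) c0) / pw Lam c0 * V ≤ ix Lam s := by
  refine ((pay_err A kL k1 k2 (k1 + k2 + kc + 8) s).and (Ev.ge (k1 + k2 + kc + 5))).mono fun c0 Lam hL h L cc eps V hLb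
    hcc he V0 hV => ?_
  obtain ⟨h1, h2⟩ := h
  exact ⟨Mf_one _ _, Kf_pos hL _, Kf_gt hL _, ix_pos hL _, pay_ep hL _ _ _ hLb, pay_th hL _ _ _ hLb, pay_J hL _ _ _,
    th1_pos hL _ _, th1_le hL _ _, pay_A hL _ _ hkf le_rfl h2 hcc he, h1 V V0 hV⟩

end

end Pool.Agent.GMH.CT
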