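import Pool.Agent.GMH.ConT4

/-!
# GMH/ConT5 (helper42): THE RIGHT SIDES OF THE COVERS IN A ROUND (row A5; UV0, UVZ, UVH)

In a round `r` (any of HOT, HT, H, G, R0): at the zones `kap = x^(-m1)`, at the exact vertex `kap = x^(-mu)` or `x^(-g0)`,
`lam = x^(-lm)`, `W` = covered masses (`pay_cov`: `≤ x^(k2 + kc + 4) ≤ x^(kg + lm)`), `NS` = number of the starts times
`1 / (kap (M + 1))` (`Mf_rare`), `NE` = exceptional ends.
* `r0_num`, `gx_num`, `h_num`, `ht_num` : `UV0.r0_sum`, `gx_sum`, `h_sum`, `ht_sum`; `z_num`, `nk_num` : `UVZ.z_sum`;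
* `uvh_num` : `UVH`; `th_num` : thin covers.
-/

set_option autoImplicit false
set_option linter.unusedSectionVars false

namespace Pool.Agent.GMH.CT

open Pool.Agent.GMH Pool.Agent.GMH.V3 Finset

noncomputable section

section rs

variable (r : Rd) {Lam : ℝ} (hL : 2 ≤ Lam) {L : ℝ} (hL0 : 0 ≤ L) (hLb : L ≤ pw Lam r.kL)

include hL hL0 hLb

/-- `c L (number of starts / (kap (M + 1)))` -/
theorem s_num {c y : ℝ} (hc : c ≤ 4 ^ 8) (y0 : 0 ≤ y) (hy : y ≤ ix Lam (r.kL + 52)) : c * L * y ≤ ix Lam 44 := by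
  have h1 : c * L * y ≤ 4 ^ 8 * L * y := mul_le_mul_of_nonneg_right (mul_le_mul_of_nonneg_right hc hL0) y0
  have h2 : 4 ^ 8 * L * y ≤ 4 ^ 8 * L * ix Lam (r.kL + 52) :=
    mul_le_mul_of_nonneg_left hy (mul_nonneg (by norm_num) hL0)
  exact (h1.trans h2).trans (fin2 hL hL0 (cst hL 8 le_rfl) hLb (by omega))

/-- `c L √(8 u_B) W` -/
theorem w_num {c W : ℝ} (c0 : 0 ≤ c) (hc : c ≤ 4 ^ 5) (W0 : 0 ≤ W) (hW : W ≤ pw Lam (r.kg + r.lm)) :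
    c * L * (Real.sqrt (8 * ix Lam r.uB) * W) ≤ ix Lam 44 := by
  have h1 := sqrt_huB r hL (h := 8) (by norm_num)
  have h2 : c * L * (Real.sqrt (8 * ix Lam r.uB) * W) ≤ c * L * (4 ^ 4 * ix Lam r.sB * W) :=
    mul_le_mul_of_nonneg_left (mul_le_mul_of_nonneg_right h1 W0) (mul_nonneg c0 hL0)
  refine h2.trans ?_
  have h3 := fin3 hL (u := c * 4 ^ 4) (v := L) (w := W) (a := 9) (b := r.kL) (c := r.kg + r.lm) (k := r.sB) (s := 44)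
    hL0 W0 (cst hL 9 (by norm_num at hc ⊢; linarith)) hLb hW (by unfold Rd.sB; omega)
  refine le_trans (le_of_eq ?_) h3
  ring

/-- **R0 AT THE ZONES** (`UV0.r0_sum`) -/
theorem r0_num {NA NZ NS M W NE SG : ℝ} (a0 : 0 ≤ NA) (ha : NA ≤ pw Lam r.km) (z0 : 0 ≤ NZ) (hz : NZ ≤ pw Lam r.Z)
    (s0 : 0 ≤ 1 / (ix Lam r.m1 * (M + 1)) * NS) (hs : 1 / (ix Lam r.m1 * (M + 1)) * NS ≤ ix Lam (r.kL + 52))
    (W0 : 0 ≤ W) (hW : W ≤ pw Lam (r.kg + r.lm)) :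
    2 * ix Lam r.lm * NA + 5 * (L * ix Lam r.m1) * NZ + L * (5 * (1 / (ix Lam r.m1 * (M + 1)))) * NS +
      L * (Real.sqrt (8 * ix Lam r.uB) * (W / 2)) + 3 * L * NE + SG ≤ 4 * ix Lam 44 + 3 * L * NE + SG := by
  have h1 := t_lam r hL (c := 2) (by norm_num) a0 ha
  have h2 := t_m1 r hL (c := 5) (by norm_num) hL0 hLb z0 hz
  have h3 := s_num r hL hL0 hLb (c := 5) (by norm_num) s0 hs
  have h4 := w_num r hL hL0 hLb (c := 1 / 2) (by norm_num) (by norm_num) W0 hW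
  nlinarith

/-- **A BAD TOP AT THE ZONES** (`UV0.gx_sum`) -/
theorem gx_num {NA NZ NS M W NE SG : ℝ} (a0 : 0 ≤ NA) (ha : NA ≤ pw Lam r.km) (z0 : 0 ≤ NZ) (hz : NZ ≤ pw Lam r.Z)
    (s0 : 0 ≤ 1 / (ix Lam r.m1 * (M + 1)) * NS) (hs : 1 / (ix Lam r.m1 * (M + 1)) * NS ≤ ix Lam (r.kL + 52))
    (W0 : 0 ≤ W) (hW : W ≤ pw Lam (r.kg + r.lm)) :
    2 * ix Lam r.lm * NA + 3 * (L * ix Lam r.m1) * NZ + L * (3 * (1 / (ix Lam r.m1 * (M + 1)))) * NS +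
      L * (Real.sqrt (8 * ix Lam r.uB) * (W / 2)) + 2 * L * NE + SG ≤ 4 * ix Lam 44 + 2 * L * NE + SG := by
  have h1 := t_lam r hL (c := 2) (by norm_num) a0 ha
  have h2 := t_m1 r hL (c := 3) (by norm_num) hL0 hLb z0 hz
  have h3 := s_num r hL hL0 hLb (c := 3) (by norm_num) s0 hs
  have h4 := w_num r hL hL0 hLb (c := 1 / 2) (by norm_num) (by norm_num) W0 hW
  nlinarith

/-- **TWO COVERS, UNSIGNED** (`UV0.h_sum`, times `L`; `W = W1 + W2`) -/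
theorem h_num {NZ NS M W NE : ℝ} (z0 : 0 ≤ NZ) (hz : NZ ≤ pw Lam r.Z)
    (s0 : 0 ≤ 1 / (ix Lam r.m1 * (M + 1)) * NS) (hs : 1 / (ix Lam r.m1 * (M + 1)) * NS ≤ ix Lam (r.kL + 52))
    (W0 : 0 ≤ W) (hW : W ≤ pw Lam (r.kg + r.lm)) :
    L * (2 * ix Lam r.m1 * NZ + 2 * (1 / (ix Lam r.m1 * (M + 1))) * NS +
      Real.sqrt (8 * ix Lam r.uB) * (W / 2) + NE) ≤ 3 * ix Lam 44 + L * NE := by
  have h2 := t_m1 r hL (c := 2) (by norm_num) hL0 hLb z0 hz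
  have h3 := s_num r hL hL0 hLb (c := 2) (by norm_num) s0 hs
  have h4 := w_num r hL hL0 hLb (c := 1 / 2) (by norm_num) (by norm_num) W0 hW
  nlinarith

/-- `8 u_0 ≤ t^3` -/
theorem cube_num : 8 * ix Lam r.u0 ≤ ix Lam r.tt ^ 3 := t_cube r hL (by norm_num)

/-- **THREE COVERS, UNSIGNED** (`UV0.ht_sum` with `q = x^(-tt)`, times `L`; `W = W1 + W2 + W3`) -/
theorem ht_num {NZ NS M W NE : ℝ} (z0 : 0 ≤ NZ) (hz : NZ ≤ pw Lam r.Z)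
    (s0 : 0 ≤ 1 / (ix Lam r.m1 * (M + 1)) * NS) (hs : 1 / (ix Lam r.m1 * (M + 1)) * NS ≤ ix Lam (r.kL + 52))
    (W0 : 0 ≤ W) (hW : W ≤ pw Lam (r.kg + r.lm)) :
    L * (3 * ix Lam r.m1 * NZ + 3 * (1 / (ix Lam r.m1 * (M + 1))) * NS + ix Lam r.tt * (W / 3) + NE) ≤
      3 * ix Lam 44 + L * NE := by
  have h2 := t_m1 r hL (c := 3) (by norm_num) hL0 hLb z0 hz
  have h3 := s_num r hL hL0 hLb (c := 3) (by norm_num) s0 hs
  have h4 := fin3 hL (u := 1 / 3) (v := L) (w := W) (a := 10) (b := r.kL) (c := r.kg + r.lm) (k := r.tt) (s := 44)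
    hL0 W0 (cst hL 10 (by norm_num)) hLb hW (by unfold Rd.tt; omega)
  nlinarith

/-- **THE CHANGE OF THE TABLES SINCE THE PUBLIC START** : `NK ≤ y' NB + (u3 + u0 / (u3 y')) G`, `G ≤ x^(2 lm + 60)`,
`y' = x^(-g0)`, `u3 = x^(-uc)` -/
theorem nk_num {NK NB G : ℝ} (b0 : 0 ≤ NB) (hb : NB ≤ pw Lam r.T) (g0 : 0 ≤ G) (hg : G ≤ pw Lam (2 * r.lm + 60))
    (h : NK ≤ ix Lam r.g0 * NB + (ix Lam r.uc + ix Lam r.u0 / (ix Lam r.uc * ix Lam r.g0)) * G) :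
    L * NK ≤ 3 * ix Lam 44 := by
  have h1 := t_g0 r hL (c := 1) (by norm_num) hL0 hLb b0 hb
  have o := r.ord
  have h2 := fin3 hL (u := 1) (v := L) (w := G) (a := 0) (b := r.kL) (c := 2 * r.lm + 60) (k := r.uc) (s := 44) hL0 g0
    (by rw [pw_zero]) hLb hg (by unfold Rd.uc Rd.TC Rd.kf Rd.mu; omega)
  have h3 := fin4 hL (u := 1) (v := L) (w := G) (z := pw Lam (r.uc + r.g0)) (a := 0) (b := r.kL) (c := 2 * r.lm + 60)
    (d := r.uc + r.g0) (k := r.u0) (s := 44) hL0 g0 (pw_pos hL _).le (by rw [pw_zero]) hLb hg le_rfl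
    (by unfold Rd.u0; omega)
  have e : ix Lam r.u0 / (ix Lam r.uc * ix Lam r.g0) = ix Lam r.u0 * pw Lam (r.uc + r.g0) := by
    rw [← ix_add, div_ix hL]
  rw [e] at h
  have h4 := mul_le_mul_of_nonneg_left h hL0
  generalize ix Lam r.u0 = y at *
  generalize pw Lam (r.uc + r.g0) = z at *
  generalize ix Lam 44 = e at *
  generalize ix Lam r.g0 = g at *
  generalize ix Lam r.uc = u at *
  linarith

/-- **THE PART `ψ_Z`** (`UVZ.z_sum` with `kap = y1 = x^(-g0)`, `u3 = x^(-uc)`, `del = lam`; `W` = covered masses `≤ x^TC`) -/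
theorem z_num {NB NB1 NC NC1 NS M W NK VY Py : ℝ} (b0 : 0 ≤ NB) (c0 : 0 ≤ NC) (hbc : NB + NC ≤ pw Lam r.km)
    (b1 : 0 ≤ NB1) (hb1 : NB1 ≤ pw Lam r.T) (c1 : 0 ≤ NC1) (hc1 : NC1 ≤ pw Lam r.T)
    (s0 : 0 ≤ 1 / (ix Lam r.g0 * (M + 1)) * NS) (hs : 1 / (ix Lam r.g0 * (M + 1)) * NS ≤ ix Lam (r.kL + 52))
    (W0 : 0 ≤ W) (hW : W ≤ pw Lam r.TC) :
    ((ix Lam r.lm + ix Lam r.lm) * NB + L * ix Lam r.g0 * NB1 + L * (1 / (ix Lam r.g0 * (M + 1))) * NS +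
      L * ((ix Lam r.uc + ix Lam r.u0 / (ix Lam r.uc * ix Lam r.g0)) * W) + L * NK) +
      (ix Lam r.lm * NC + L * ix Lam r.g0 * NC1 + L * VY + L * Py) ≤ 7 * ix Lam 44 + L * NK + L * VY + L * Py := by
  have hB := t_lam r hL (c := 2) (by norm_num) b0 (by linarith)
  have hC := t_lam r hL (c := 1) (by norm_num) c0 (by linarith)
  have h1 := t_g0 r hL (c := 1) (by norm_num) hL0 hLb b1 hb1
  have h2 := t_g0 r hL (c := 1) (by norm_num) hL0 hLb c1 hc1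
  have h3 := s_num r hL hL0 hLb (c := 1) (by norm_num) s0 hs
  have h4 := t_uc r hL (c := 1) (by norm_num) hL0 hLb W0 hW
  have h5 := t_ucC r hL (c := 1) (by norm_num) hL0 hLb W0 hW
  generalize ix Lam r.u0 / (ix Lam r.uc * ix Lam r.g0) = y at *
  generalize 1 / (ix Lam r.g0 * (M + 1)) = s at *
  generalize ix Lam 44 = e at *
  generalize ix Lam r.lm = l at *
  generalize ix Lam r.g0 = g at *
  generalize ix Lam r.uc = u at *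
  linarith

/-- **UNSIGNED PAIRS AT THE EXACT VERTEX** (`UVH`, times `L`; `kap = x^(-mu)`, `W = p + q`) -/
theorem uvh_num {NT NS M W NE : ℝ} (t0 : 0 ≤ NT) (ht : NT ≤ pw Lam r.T)
    (s0 : 0 ≤ 1 / (ix Lam r.mu * (M + 1)) * NS) (hs : 1 / (ix Lam r.mu * (M + 1)) * NS ≤ ix Lam (r.kL + 52))
    (W0 : 0 ≤ W) (hW : W ≤ pw Lam (r.kg + r.lm)) :
    L * (2 * ix Lam r.mu * NT + 2 * (1 / (ix Lam r.mu * (M + 1))) * NS + Real.sqrt (8 * ix Lam r.uB) * (W / 2) + NE) ≤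
      3 * ix Lam 44 + L * NE := by
  have h2 := t_mu r hL (c := 2) (by norm_num) hL0 hLb t0 ht
  have h3 := s_num r hL hL0 hLb (c := 2) (by norm_num) s0 hs
  have h4 := w_num r hL hL0 hLb (c := 1 / 2) (by norm_num) (by norm_num) W0 hW
  nlinarith

end rs

/-- the covered masses `x^(lm + kc + 4)` are at most `x^(kg + lm)`, at most `x^TC` -/
theorem cov_kg (r : Rd) {Lam : ℝ} (hL : 2 ≤ Lam) {kc : ℕ} (hk : kc + 8 ≤ r.kg) {S c : ℝ} (hc : c ≤ 4 ^ 4) (S0 : 0 ≤ S)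
    (h : S ≤ pw Lam (r.lm + kc + 4)) : c * S ≤ pw Lam (r.kg + r.lm) :=
  (mul_pw hL S0 (cst hL 4 hc) h).trans (pw_mono hL (by omega))

theorem cov_TC (r : Rd) {Lam : ℝ} (hL : 2 ≤ Lam) {kc : ℕ} (hk : kc ≤ r.mu) {S c : ℝ} (hc : c ≤ 4 ^ 4) (S0 : 0 ≤ S)
    (h : S ≤ pw Lam (r.lm + kc + 4)) : c * S ≤ pw Lam r.TC :=
  (mul_pw hL S0 (cst hL 4 hc) h).trans (pw_mono hL (by unfold Rd.TC Rd.kf; omega))

end

end Pool.Agent.GMH.CT
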