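import Pool.Agent.GMH.ConT5

/-!
# GMH/ConT6 (helper42): ROWS AND COLUMNS, THIN COVERS, OVERLAP (row A5)

* `rc_num` : the right side of rows + columns (helper40, VSt); `thin_X` : the mass of the thin covers `≤ x^TC`;
* `ovl_num`, `ovl_e` : the overlap of the joint private step (helper28, OvlR).
-/

set_option autoImplicit false
set_option linter.unusedSectionVars false

namespace Pool.Agent.GMH.CT

open Pool.Agent.GMH Pool.Agent.GMH.V3 Finset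

noncomputable section

section rc

variable (r : Rd) {Lam : ℝ} (hL : 2 ≤ Lam) {L : ℝ} (hL0 : 0 ≤ L) (hLb : L ≤ pw Lam r.kL)

include hL

/-- **THE MASS OF THE THIN COVERS** : `2 (5 (16 / t') X1 + e)`, `t' = n x^(-kf) / 4`, `X1 ≤ C n Lam`, `C ≤ 4^9` -/
theorem thin_X {c0 : ℕ} {C X1 e : ℝ} (hC : C ≤ 4 ^ 9) (hX : X1 ≤ C * (pw Lam c0 * Lam)) (he : e ≤ 1) :
    2 * (5 * (16 / (pw Lam c0 * ix Lam r.kf / 4)) * X1 + e) ≤ pw Lam r.TC := by
  have n0 := pw_pos hL c0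
  have k0 := ix_pos hL r.kf
  have e1 : 16 / (pw Lam c0 * ix Lam r.kf / 4) = 64 * (ix Lam c0 * pw Lam r.kf) := by
    have h1 := pw_ix hL c0
    have h2 := pw_ix hL r.kf
    rw [div_div_eq_mul_div, div_eq_iff (mul_pos n0 k0).ne']
    calc (16 : ℝ) * 4 = 64 * ((pw Lam c0 * ix Lam c0) * (pw Lam r.kf * ix Lam r.kf)) := by rw [h1, h2]; norm_num
      _ = _ := by ring
  have h0 : 0 ≤ 64 * (ix Lam c0 * pw Lam r.kf) :=
    mul_nonneg (by norm_num) (mul_nonneg (ix_nn hL _) (pw_pos hL _).le)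
  have h3 : 64 * (ix Lam c0 * pw Lam r.kf) * X1 ≤ 64 * C * Lam * pw Lam r.kf := by
    have h4 := mul_le_mul_of_nonneg_left hX h0
    refine h4.trans (le_of_eq ?_)
    have h1 := pw_ix hL c0
    calc 64 * (ix Lam c0 * pw Lam r.kf) * (C * (pw Lam c0 * Lam)) = 64 * C * Lam * pw Lam r.kf * (pw Lam c0 * ix Lam c0) := by
          ring
      _ = _ := by rw [h1, mul_one]
  have h5 : (640 * C + 1) * Lam ≤ pw Lam 15 := cLam hL 14 (by norm_num at hC ⊢; linarith)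
  have h6 : (640 * C + 1) * Lam * pw Lam r.kf ≤ pw Lam (15 + r.kf) := mul_pw hL (pw_pos hL _).le h5 le_rfl
  have h7 : pw Lam (15 + r.kf) ≤ pw Lam r.TC := pw_mono hL (by unfold Rd.TC; omega)
  have h8 : 2 ≤ Lam * pw Lam r.kf := by
    have := pw_ge1 hL r.kf
    nlinarith
  rw [e1]
  calc 2 * (5 * (64 * (ix Lam c0 * pw Lam r.kf)) * X1 + e)
      = 10 * (64 * (ix Lam c0 * pw Lam r.kf) * X1) + 2 * e := by ring
    _ ≤ 10 * (64 * C * Lam * pw Lam r.kf) + Lam * pw Lam r.kf := by linarith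
    _ = (640 * C + 1) * Lam * pw Lam r.kf := by ring
    _ ≤ _ := h6.trans h7

include hL0 hLb

/-- **ROWS AND COLUMNS** (helper40): `kap = g0 = u = x^(-g0)`, `ks = lam`, `th = x^(-sB)`; `S1`, `S2` = numbers of the starts
times the errors of the lists (rare), `W = pD + pC`, `X` = mass of the thin covers -/
theorem rc_num {NB NB1 S1 S2 W WD X : ℝ} (b0 : 0 ≤ NB) (hb : NB ≤ pw Lam r.km) (b1 : 0 ≤ NB1) (hb1 : NB1 ≤ pw Lam r.T)
    (s1 : 0 ≤ S1) (hs1 : S1 ≤ ix Lam (r.kL + 52)) (s2 : 0 ≤ S2) (hs2 : S2 ≤ ix Lam (r.kL + 52))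
    (W0 : 0 ≤ W) (hW : W ≤ pw Lam (r.kg + r.lm)) (D0 : 0 ≤ WD) (hD : WD ≤ pw Lam (r.kg + r.lm))
    (X0 : 0 ≤ X) (hX : X ≤ pw Lam r.TC) :
    (2 * ix Lam r.lm + ix Lam r.lm) * NB + 2 * L * (ix Lam r.g0 * NB1 + S1) + L * (Real.sqrt (8 * ix Lam r.uB) * (W / 2)) +
      L * (ix Lam r.sB * WD) + 2 * L * (ix Lam r.g0 / 2 * NB1 + 2 * S2 +
        (ix Lam r.uc + 2 * (ix Lam r.u0 / (ix Lam r.uc * ix Lam r.g0))) * X) ≤ 9 * ix Lam 44 := by
  have h1 := t_lam r hL (c := 3) (by norm_num) b0 hb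
  have h2 := t_g0 r hL (c := 2) (by norm_num) hL0 hLb b1 hb1
  have h3 := s_num r hL hL0 hLb (c := 2) (by norm_num) s1 hs1
  have h4 := w_num r hL hL0 hLb (c := 1 / 2) (by norm_num) (by norm_num) W0 hW
  have h5 : L * (ix Lam r.sB * WD) ≤ ix Lam 44 := by
    have h := fin2 hL (u := L) (v := WD) (a := r.kL) (b := r.kg + r.lm) (k := r.sB) (s := 44) D0 hLb hD
      (by unfold Rd.sB; omega)
    refine le_trans (le_of_eq ?_) h
    ring
  have h6 := t_g0 r hL (c := 1) (by norm_num) hL0 hLb b1 hb1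
  have h7 := s_num r hL hL0 hLb (c := 4) (by norm_num) s2 hs2
  have h8 := t_uc r hL (c := 2) (by norm_num) hL0 hLb X0 hX
  have h9 := t_ucC r hL (c := 4) (by norm_num) hL0 hLb X0 hX
  generalize ix Lam r.u0 / (ix Lam r.uc * ix Lam r.g0) = y at *
  generalize ix Lam 44 = e at *
  generalize ix Lam r.lm = l at *
  generalize ix Lam r.g0 = g at *
  generalize ix Lam r.uc = u at *
  generalize ix Lam r.sB = sb at *
  generalize Real.sqrt (8 * ix Lam r.uB) = sq at *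
  linarith

/-- **THE OVERLAP OF THE JOINT PRIVATE STEP** (helper28, `OvlR.ovl_run`, times `L`): `y = c x^(-ka)`, `kx = x^(-k)`; `e` = the
price `3 (..)` of the steps, `NR` = the rare sum, `6 n Lam` steps: `e ≤ x^(-k1)` with `k1` larger than `c0` -/
theorem ovl_num {ka : ℕ} {NT NR kx e n c : ℝ} (hka : r.m1 + 64 ≤ ka) (hc : c ≤ 4 ^ 10) (t0 : 0 ≤ NT)
    (ht : NT ≤ pw Lam r.T) (hR : NR ≤ ix Lam (r.kL + 52)) (hR0 : 0 ≤ NR)
    (hk : (kx + 3 * e) * (6 * n * Lam) ≤ ix Lam (r.kL + 52)) (hk0 : 0 ≤ (kx + 3 * e) * (6 * n * Lam)) :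
    L * ((c * ix Lam ka * NT + NR) + (kx + 3 * e) * (6 * n * Lam)) ≤ 3 * ix Lam 44 := by
  have h1 := t_y r hL hka hc hL0 hLb t0 ht
  have h2 := s_num r hL hL0 hLb (c := 1) (by norm_num) hR0 hR
  have h3 := s_num r hL hL0 hLb (c := 1) (by norm_num) hk0 hk
  nlinarith

end rc

/-- **THE PRICE OF THE OVERLAP** : `a = 2 Lv + n`, `kx = x^(-(c0 + s + 8))` -/
theorem ovl_e {A : ℕ} (hA : 80 ≤ A) (s : ℕ) : Ev fun c0 Lam => ∀ Lv : ℝ, 0 ≤ Lv →
    Lv ≤ pw Lam (12 * c0) + pw Lam (cXF A c0) →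
    (ix Lam (c0 + s + 8) + 3 * (Real.sqrt (4 * ((2 * Lv + pw Lam c0) + 1) / pw Lam (c1F A c0)) +
      2 * Real.exp (-(2 * Lv + pw Lam c0)) * Real.exp (2 * Lv))) * (6 * pw Lam c0 * Lam) ≤ ix Lam s := by
  refine ((exp_nj A (s + 13)).and (Ev.ge (A + s + 30))).mono fun c0 Lam hL h Lv l0 hl => ?_
  obtain ⟨h, hc⟩ := h
  have e1 : Real.exp (-(2 * Lv + pw Lam c0)) * Real.exp (2 * Lv) = Real.exp (-(pw Lam c0)) := by
    rw [← Real.exp_add]
    congr 1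
    ring
  have a1 : Real.exp (-(2 * Lv + pw Lam c0)) * Real.exp (2 * Lv) ≤ ix Lam (c0 + s + 12) := by
    rw [e1]
    refine h.trans (ix_anti hL ?_)
    have e2 : (s + 13) * (c1F A c0 + c0 + 1) = s * (c1F A c0 + c0 + 1) + 13 * (c1F A c0 + c0 + 1) := by ring
    have e3 : s * 1 ≤ s * (c1F A c0 + c0 + 1) := Nat.mul_le_mul_left _ (by omega)
    omega
  have h1 : pw Lam (cXF A c0) ≤ pw Lam (12 * c0) := pw_mono hL (by unfold cXF; omega)
  have h2 : pw Lam c0 ≤ pw Lam (12 * c0) := pw_mono hL (by omega)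
  have h3 := pw_ge1 hL (12 * c0)
  have h4 : 4 * ((2 * Lv + pw Lam c0) + 1) ≤ pw Lam (3 + 12 * c0) := by
    have h5 : 24 * pw Lam (12 * c0) ≤ pw Lam (3 + 12 * c0) :=
      mul_pw hL (pw_pos hL _).le (cst hL 3 (by norm_num)) le_rfl
    linarith
  have h6 : pw Lam (3 + 12 * c0) * pw Lam (2 * (c0 + s + 12)) ≤ pw Lam (c1F A c0) := by
    rw [← pw_add]
    exact N1_ge hL hA _ (by omega)
  have n1 := pw_pos hL (c1F A c0)
  have a2 : Real.sqrt (4 * ((2 * Lv + pw Lam c0) + 1) / pw Lam (c1F A c0)) ≤ ix Lam (c0 + s + 12) := by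
    rw [← sqrt_ix hL]
    refine Real.sqrt_le_sqrt ?_
    rw [div_le_iff₀ n1]
    have h7 := mul_le_mul_of_nonneg_left h6 (ix_nn hL (2 * (c0 + s + 12)))
    have h8 := pw_ix hL (2 * (c0 + s + 12))
    have h9 : ix Lam (2 * (c0 + s + 12)) * (pw Lam (3 + 12 * c0) * pw Lam (2 * (c0 + s + 12))) = pw Lam (3 + 12 * c0) := by
      calc _ = pw Lam (3 + 12 * c0) * (pw Lam (2 * (c0 + s + 12)) * ix Lam (2 * (c0 + s + 12))) := by ring
        _ = _ := by rw [h8, mul_one]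
    rw [h9] at h7
    exact h4.trans h7
  have a3 : ix Lam (c0 + s + 8) + 3 * (Real.sqrt (4 * ((2 * Lv + pw Lam c0) + 1) / pw Lam (c1F A c0)) +
      2 * Real.exp (-(2 * Lv + pw Lam c0)) * Real.exp (2 * Lv)) ≤ 10 * ix Lam (c0 + s + 8) := by
    have h10 : ix Lam (c0 + s + 12) ≤ ix Lam (c0 + s + 8) := ix_anti hL (by omega)
    rw [mul_assoc 2]
    linarith
  have l1 : 0 ≤ 6 * pw Lam c0 * Lam := mul_nonneg (mul_nonneg (by norm_num) (pw_pos hL _).le) (by linarith)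
  refine (mul_le_mul_of_nonneg_right a3 l1).trans ?_
  have h11 := fin2 hL (u := 60 * Lam) (v := pw Lam c0) (a := 4) (b := c0) (k := c0 + s + 8) (s := s) (pw_pos hL _).le
    (cLam hL 3 (by norm_num)) le_rfl (by omega)
  refine le_trans (le_of_eq ?_) h11
  ring

end

end Pool.Agent.GMH.CT
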