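import Pool.Agent.GMH.ConTK
import Pool.Agent.GMH.RelSum

/-!
# GMH/ConTF: the numbers of `(gamma)` (row F5g, helper76)

Order of choice: `B = x^kBF`, `th = x^(-kth)`, `pi ≤ x^(-kpi)`, `e^a = x^A1`, `th_B = x^(-ktB)`, then `eta_1`, the round of `R0`, `u_hot`.
* `plog_le` : `p log (1/p)` for small `p`;
* `gamA` : the right side of Lemma A of 4069, with a factor `c B^8`;
* `gamB` : the right side of Lemma B gives `pi ≤ x^(-kpi)`; `win_le`, `win_R0` : deep pairs, window;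
* `bmo_le` : hot tuples at all active steps: `(K + 1) √pi`, `K = c Lam / del1^2`, `del1 = x^(-kdF)`;
* `D0_le` : `D0 = x^(3 A1)` against `eta_1` and `u_B` of `R0`.
-/

set_option autoImplicit false
set_option linter.unusedSectionVars false

namespace Pool.Agent.GMH.CTK

open Pool.Agent.GMH Pool.Agent.GMH.V3 Pool.Agent.GMH.CT

noncomputable section

/-- `th = x^(-kth)` -/
def kth : ℕ := 2200
/-- the strong letters of this file -/
def kBF : ℕ := 120
/-- `pi ≤ x^(-kpi)` -/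
def kpi : ℕ := 4100
/-- `e^a = x^A1` -/
def A1 : ℕ := 4200
/-- `th_B = x^(-ktB)` -/
def ktB : ℕ := 8400

/-- `del1 = x^(-kdF)` -/
def kdF : ℕ := 40

/-- `p log (1/p)` -/
theorem plog_le {p q : ℝ} (hp : 0 ≤ p) (hpq : p ≤ q) (hq : q ≤ 1) : p * Real.log (1 / p) ≤ q * Real.log (1 / q) + q :=
  RelSum.mono_log hp hpq le_rfl (hpq.trans hq) hq

variable {Lam : ℝ} (hL : 2 ≤ Lam)

include hL

/-- the entropy term -/
theorem ent_le {p : ℝ} (hp : 0 ≤ p) (h : p ≤ ix Lam kpi) : (Lam + Real.log (1 / p)) * p ≤ ix Lam 4090 := by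
  have hq := ix_le_one hL kpi
  have h1 := plog_le hp h hq
  have h2 := log_inv_ix hL kpi
  have h3 := ix_pos hL kpi
  have h4 : ix Lam kpi * Real.log (1 / ix Lam kpi) ≤ ix Lam kpi * ((kpi : ℝ) * (2 * Lam)) :=
    mul_le_mul_of_nonneg_left h2 h3.le
  have h5 : Lam * p ≤ Lam * ix Lam kpi := mul_le_mul_of_nonneg_left h (by linarith)
  have h6 : (Lam + Real.log (1 / p)) * p ≤ 8202 * Lam * ix Lam kpi := by
    have e : (kpi : ℝ) = 4100 := by unfold kpi; norm_num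
    rw [e] at h4
    nlinarith
  refine h6.trans (fin hL (cLam hL 7 (c := 8202) (by norm_num)) ?_)
  unfold kpi
  norm_num

/-- **LEMMA A** : `c B^8 (th^(1/2) Lam + e^(3 a) q_G Lam + (Lam + log 1/p) p / th)` -/
theorem gamA {c q p : ℝ} (hc0 : 0 ≤ c) (hc : c ≤ 4 ^ 10) {kq : ℕ} (hkq : 20 * kd ≤ kq) (hq : q ≤ ix Lam kq) (hp : 0 ≤ p)
    (h : p ≤ ix Lam kpi) :
    c * pw Lam kBF ^ 8 * (Real.sqrt (ix Lam kth) * Lam + pw Lam A1 ^ 3 * q * Lam +
      (Lam + Real.log (1 / p)) * p / ix Lam kth) ≤ ix Lam 40 := by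
  have eB : pw Lam kBF ^ 8 = pw Lam 960 := by
    rw [← pw_mul]
    rfl
  have eA : pw Lam A1 ^ 3 = pw Lam 12600 := by
    rw [← pw_mul]
    rfl
  have es : Real.sqrt (ix Lam kth) = ix Lam 1100 := sqrt_ix hL 1100
  have hl := Lam_le hL
  have hl0 : 0 ≤ Lam := by linarith
  have t1 : Real.sqrt (ix Lam kth) * Lam ≤ ix Lam 1099 := by
    rw [es, mul_comm]
    exact fin hL hl (by norm_num)
  have t2 : pw Lam A1 ^ 3 * q * Lam ≤ ix Lam 1099 := by
    have h1 : pw Lam A1 ^ 3 * q ≤ pw Lam 12600 * ix Lam kq := by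
      rw [eA]
      exact mul_le_mul_of_nonneg_left hq (pw_pos hL _).le
    have h2 : pw Lam 12600 * ix Lam kq * Lam ≤ ix Lam 1099 := by
      have h3 := fin2 hL hl0 (le_refl (pw Lam 12600)) hl (k := kq) (s := 1099) (by unfold kd at hkq; omega)
      calc pw Lam 12600 * ix Lam kq * Lam = pw Lam 12600 * Lam * ix Lam kq := by ring
        _ ≤ _ := h3
    exact (mul_le_mul_of_nonneg_right h1 hl0).trans h2
  have t3 : (Lam + Real.log (1 / p)) * p / ix Lam kth ≤ ix Lam 1099 := by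
    have h1 := ent_le hL hp h
    rw [div_ix hL]
    have h2 := mul_le_mul_of_nonneg_right h1 (pw_pos hL kth).le
    refine h2.trans ?_
    rw [mul_comm]
    refine fin hL le_rfl ?_
    unfold kth
    norm_num
  have hcB : 0 ≤ c * pw Lam kBF ^ 8 := mul_nonneg hc0 (pow_nonneg (pw_pos hL _).le _)
  have h3 : Real.sqrt (ix Lam kth) * Lam + pw Lam A1 ^ 3 * q * Lam + (Lam + Real.log (1 / p)) * p / ix Lam kth ≤
      3 * ix Lam 1099 := by linarith
  refine (mul_le_mul_of_nonneg_left h3 hcB).trans ?_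
  rw [eB]
  have h4 := fin3 hL (pw_pos hL 960).le (by norm_num : (0 : ℝ) ≤ 3) (CT.cst hL 10 hc) (le_refl (pw Lam 960))
    (CT.cst hL 1 (c := 3) (by norm_num)) (k := 1099) (s := 40) (by norm_num)
  calc c * pw Lam 960 * (3 * ix Lam 1099) = c * pw Lam 960 * 3 * ix Lam 1099 := by ring
    _ ≤ _ := h4

/-- **LEMMA B** : `p (1 - e^(-2 a)) ≤ r` with `r ≤ x^(-(kpi + 1))` -/
theorem gamB {p r : ℝ} (h : p * (1 - ix Lam A1 ^ 2) ≤ r) (hp : 0 ≤ p) (hr : r ≤ ix Lam (kpi + 1)) : p ≤ ix Lam kpi := by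
  have h1 : ix Lam A1 ^ 2 ≤ 1 / 2 := by
    have h2 : ix Lam A1 ≤ ix Lam 1 := ix_anti hL (by unfold A1; norm_num)
    have h3 := ix_four hL 1
    have h4 := ix_nn hL A1
    norm_num at h3
    nlinarith
  have h2 : p ≤ 2 * r := by nlinarith
  have h3 : 2 * ix Lam (kpi + 1) ≤ ix Lam kpi := by
    have h5 := cst_ix hL (c := 2) (j := 1) (s := kpi) (by norm_num)
    rwa [add_comm 1 kpi] at h5
  linarith

/-- deep pairs and the window (row F5d: `(1/E + 3 th^(1/2))` times gains, `E = e^a`, `th = th_B`) -/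
theorem win_le {c : ℝ} (hc0 : 0 ≤ c) (hc : c ≤ 4 ^ 10) :
    c * ((1 / pw Lam A1 + 3 * Real.sqrt (ix Lam ktB)) * Lam) ≤ ix Lam 4180 := by
  have es : Real.sqrt (ix Lam ktB) = ix Lam 4200 := sqrt_ix hL 4200
  have e1 : 1 / pw Lam A1 = ix Lam 4200 := by
    rw [one_div]
    rfl
  rw [es, e1]
  have h1 := fin2 hL (by linarith : (0 : ℝ) ≤ 4 * Lam) (CT.cst hL 10 hc) (cLam hL 1 (c := 4) (by norm_num)) (k := 4200)
    (s := 4180) (by norm_num)
  calc c * ((ix Lam 4200 + 3 * ix Lam 4200) * Lam) = c * (4 * Lam) * ix Lam 4200 := by ring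
    _ ≤ _ := h1

/-- the window is small unless `R0` : `2 e1 < th_B^2 / E^2` -/
theorem win_R0 {k1 : ℕ} (hk : 20 * kd ≤ k1) : 16 * ix Lam k1 < ix Lam ktB ^ 2 / pw Lam A1 ^ 2 := by
  have e1 : ix Lam ktB ^ 2 / pw Lam A1 ^ 2 = ix Lam 25200 := by
    have h1 : ix Lam ktB ^ 2 = ix Lam 16800 := by
      rw [← ix_mul]
      rfl
    have h2 : pw Lam A1 ^ 2 = pw Lam 8400 := by
      rw [← pw_mul]
      rfl
    rw [h1, h2, div_eq_mul_inv]
    exact (ix_add Lam 16800 8400).symm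
  rw [e1]
  have h3 : 16 * ix Lam k1 ≤ ix Lam (25200 + 1) := fin hL (CT.cst hL 2 (c := 16) (by norm_num)) (by unfold kd at hk; omega)
  refine lt_of_le_of_lt h3 ?_
  have h4 := ix_pos hL 25200
  have h5 : ix Lam (25200 + 1) = ix Lam 25200 * ix Lam 1 := ix_add Lam 25200 1
  have h6 := ix_four hL 1
  norm_num at h6
  rw [h5]
  nlinarith

/-- **hot tuples at all active steps** -/
theorem bmo_le {c p K : ℝ} (hc0 : 0 ≤ c) (hc : c ≤ 4 ^ 10) (hp : p ≤ ix Lam kpi) (hK0 : 0 ≤ K)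
    (hK : K ≤ 4 ^ 8 * Lam / ix Lam kdF ^ 2) : c * ((K + 1) * Real.sqrt p) ≤ ix Lam 1900 := by
  have e1 : ix Lam kdF ^ 2 = ix Lam 80 := by
    rw [← ix_mul]
    rfl
  rw [e1, div_ix hL] at hK
  have h1 : K ≤ pw Lam 89 := hK.trans (mul_pw hL (pw_pos hL 80).le (cLam hL 8 le_rfl) le_rfl)
  have h2 : K + 1 ≤ pw Lam 90 := add_pw hL h1 (pw_ge1 hL _)
  have h3 : Real.sqrt p ≤ ix Lam 2050 := (Real.sqrt_le_sqrt hp).trans (le_of_eq (sqrt_ix hL 2050))
  have h4 : c * ((K + 1) * Real.sqrt p) ≤ c * ((K + 1) * ix Lam 2050) :=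
    mul_le_mul_of_nonneg_left (mul_le_mul_of_nonneg_left h3 (by linarith)) hc0
  refine h4.trans ?_
  have h5 := fin2 hL (by linarith : (0 : ℝ) ≤ K + 1) (CT.cst hL 10 hc) h2 (k := 2050) (s := 1900) (by norm_num)
  calc c * ((K + 1) * ix Lam 2050) = c * (K + 1) * ix Lam 2050 := by ring
    _ ≤ _ := h5

omit hL in
/-- `D0 = x^(3 A1)` comes before `eta_1` and the round of `R0` -/
theorem D0_le {c : Rounds} (h : kd ≤ c.kd) : 3 * A1 + 600000 ≤ c.eta1 ∧ 3 * A1 + 600000 ≤ c.R0.uB ∧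
    3 * A1 + 60000 ≤ c.G.q := by
  have h1 := rounds_big c
  have h2 : c.R0.uB = 2 * c.R0.sB := rfl
  have h3 := c.R0.ord
  have e3 : c.R0.km = c.kp + 2 * c.eta1 + 4 := rfl
  unfold kd at h
  unfold A1
  omega

end

end Pool.Agent.GMH.CTK
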