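import Pool.Agent.GMH.VV
import Pool.Agent.GMH.Dyn
import Pool.Agent.GMH.TabI

/-!
# GMH/VVi (helper21): TWO VERTICES WITH STATUS AT A PUBLIC REMOVAL, run instance (H3.MOV, M.9)

`USi` of `GMH/Dyn`: `cd_i` (the public value of a code step is seen at own `a`), `ci_i` (independence of the exact vertices at
the node), `half_i` (masses), `gv_i` (status at the public removals), **`vv_i`**.
-/

set_option autoImplicit false
set_option linter.unusedSectionVars false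

namespace Pool.Agent.GMH.VV

open Finset Pool.Agent.PWZ Pool.Agent.M3 Pool.Agent.GM Pool.Agent.GM.Harm Pool.Agent.GMH
open Pool.Agent.GMH.TP Pool.Agent.GMH.TD Pool.Agent.GMH.CK Pool.Agent.GMH.MV Pool.Agent.GMH.MVI Pool.Agent.GMH.UV
open Pool.Agent.GMH.Dy

noncomputable section

section inst

variable {X β γ φ υ : Type} [Fintype X] [Fintype β] [Fintype φ] [Nonempty X] [Nonempty β]
variable {D : HD (Fin 3) X β γ φ} {al : ℝ} {v : ℕ → Finset (Fin 3) → X → (Fin 3 → β) → υ}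
variable {prr : ℕ → Fin 3 → φ → φ} {T : ℕ} {W : Type} [Fintype W] (tb : Tab D prr T W)
variable (hv : Codes D v) {d1 kb d0 k0 p1 z : ℝ} (hd1 : 0 < d1) (hd11 : d1 ≤ 1) (hkb : 0 < kb) (hd0 : 0 < d0)
  (hd01 : d0 ≤ 1) (hk0 : 0 < k0) (hp1 : 0 < p1) (hz : 0 < z)

/-- the public value of a code step is seen at own `a` -/
theorem cd_i (s : ℕ) (hs : (USi tb hv d1 kb d0 k0 p1 z hd1 hd11 hkb hd0 hd01 hk0 hp1 hz).cd s) :
    Fac ((USi tb hv d1 kb d0 k0 p1 z hd1 hd11 hkb hd0 hd01 hk0 hp1 hz).S ∅ s)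
      ((USi tb hv d1 kb d0 k0 p1 z hd1 hd11 hkb hd0 hd01 hk0 hp1 hz).NP (s + 1)) := by
  have h1 : TP.nn (s + 1) = TP.nn s := MVIp.nn_code hs
  exact MVIp.NPq_sgt tb hv h1.le ((nc_le (s + 1) ∅).trans (by rw [h1])) ∅ 0

/-- independence of the exact vertices at the node -/
theorem ci_i {i j : Fin 3} (hij : i ≠ j) : Blk.CI (USi tb hv d1 kb d0 k0 p1 z hd1 hd11 hkb hd0 hd01 hk0 hp1 hz).P
    ((USi tb hv d1 kb d0 k0 p1 z hd1 hd11 hkb hd0 hd01 hk0 hp1 hz).S ∅)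
    ((USi tb hv d1 kb d0 k0 p1 z hd1 hd11 hkb hd0 hd01 hk0 hp1 hz).S {i})
    ((USi tb hv d1 kb d0 k0 p1 z hd1 hd11 hkb hd0 hd01 hk0 hp1 hz).S {j}) := ci_vv tb TP.nn hij

/-- the masses of the sights -/
theorem half_i {dg : ℕ → X → ℝ} {Lam : ℝ} (H : D.Hyp dg prr al T Lam) (E : Finset (Fin 3)) {s : ℕ} (hs : s < 5 * T)
    {w : Om W X β} (hw : tb.Ps.p w ≠ 0) :
    (USi tb hv d1 kb d0 k0 p1 z hd1 hd11 hkb hd0 hd01 hk0 hp1 hz).P.m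
      ((USi tb hv d1 kb d0 k0 p1 z hd1 hd11 hkb hd0 hd01 hk0 hp1 hz).S E s) w ≤
      8 * (USi tb hv d1 kb d0 k0 p1 z hd1 hd11 hkb hd0 hd01 hk0 hp1 hz).P.m
        ((USi tb hv d1 kb d0 k0 p1 z hd1 hd11 hkb hd0 hd01 hk0 hp1 hz).S E (s + 1)) w := by
  show tb.Ps.m (sgt D E (TP.nn s)) w ≤ 8 * tb.Ps.m (sgt D E (TP.nn (s + 1))) w
  by_cases h5 : s % 5 = 0
  · have h1 : TP.nn s = s / 5 := by
      unfold TP.nn nnj
      rw [if_pos h5]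
    have h2 : TP.nn (s + 1) = s / 5 + 1 := by
      have h3 : s + 1 = 5 * (s / 5) + 1 := by omega
      rw [h3, nn_j _ le_rfl (by omega)]
    rw [h1, h2]
    have h3 : s / 5 < T := by omega
    refine (sgt_half tb H E h3 (w := w) hw).trans (mul_le_mul_of_nonneg_right ?_ (tb.Ps.m_nonneg _ w))
    have h6 : (Eᶜ).card ≤ 3 := by
      have := Finset.card_le_univ Eᶜ
      rwa [Fintype.card_fin] at this
    calc (2 : ℝ) ^ (Eᶜ.card) ≤ 2 ^ 3 := pow_le_pow_right₀ (by norm_num) h6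
      _ = 8 := by norm_num
  · rw [MVIp.nn_code h5]
    have h1 := tb.Ps.m_nonneg (sgt D E (TP.nn s)) w
    linarith

end inst

section run

variable {X β γ φ : Type} [Fintype X] [Fintype β] [Fintype φ] [Nonempty X] [Nonempty β]
variable {D : HD (Fin 3) X β γ φ} {al : ℝ} {h : D.Thick al} {v : ℕ → Finset (Fin 3) → X → (Fin 3 → β) → Pt (Fin 3) X β φ}
variable {dg : ℕ → X → ℝ} {prr : ℕ → Fin 3 → φ → φ} {T : ℕ} {Lam : ℝ} {W : Type} [Fintype W] (tb : Tab D prr T W)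
variable (hv : Codes D v) {d1 kb d0 k0 p1 z : ℝ} (hd1 : 0 < d1) (hd11 : d1 ≤ 1) (hkb : 0 < kb) (hd0 : 0 < d0)
  (hd01 : d0 ≤ 1) (hk0 : 0 < k0) (hp1 : 0 < p1) (hz : 0 < z)

/-- the mass of the status at the public removals, numbers of the run -/
def gvn (n N1 Lam z : ℝ) : ℝ := 2 / Real.log (1 / z) * (12 * n * Lam + Real.sqrt z * (6 * n * N1 * Lam))

include hv in
/-- **status at the public removals** -/
theorem gv_i {n N1 : ℝ} (hn : 1 ≤ n) (hN1 : 1 ≤ N1) (R : Run h (pr3 (Fin 3) n N1) (SS1 (Fin 3)) (AdmDep D) v)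
    (H : D.Hyp dg prr al T Lam) (hzz : 8 * Real.exp (4 * Lam) * kb / p1 ≤ z) (hz1 : z < 1) (c : Fin 3) :
    ∑ s ∈ range (5 * T), tb.Ps.Pr (fun w => lt5 (MSi tb (v := v) d1 kb d0 k0 p1 z hd1 hd11 hkb hd0 hd01 hk0 hp1 hz)
      (NPo tb v) s w ∧ sts (MSi tb (v := v) d1 kb d0 k0 p1 z hd1 hd11 hkb hd0 hd01 hk0 hp1 hz) c s w) ≤
      gvn n N1 Lam z := by
  have h1 := hys_thr (M := MSi tb (v := v) d1 kb d0 k0 p1 z hd1 hd11 hkb hd0 hd01 hk0 hp1 hz)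
    (prN tb hd1 hd11 hkb hd0 hd01 hk0 hp1 hz hv) (tot0 tb hd1 hd11 hkb hd0 hd01 hk0 hp1 hz hn hN1 R H)
    (thks h tb v hd1 hd11 hkb hd0 hd01 hk0 hp1 hz H).thk hzz hz1 c
  refine h1.trans ?_
  unfold gvn
  have h2 := nl tb hd1 hd11 hkb hd0 hd01 hk0 hp1 hz hn hN1 R H
  have h3 : 0 ≤ 2 / Real.log (1 / z) := by
    have := Real.log_nonneg (show 1 ≤ 1 / z by rw [le_div_iff₀ hz]; linarith)
    positivity
  refine mul_le_mul_of_nonneg_left ?_ h3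
  have h4 := mul_le_mul_of_nonneg_left h2 (Real.sqrt_nonneg z)
  exact add_le_add le_rfl h4

/-- **TWO VERTICES WITH STATUS AT THE PUBLIC REMOVALS** -/
theorem vv_i {n N1 : ℝ} (hn : 1 ≤ n) (hN1 : 1 ≤ N1) (R : Run h (pr3 (Fin 3) n N1) (SS1 (Fin 3)) (AdmDep D) v)
    (H : D.Hyp dg prr al T Lam) (hzz : 8 * Real.exp (4 * Lam) * kb / p1 ≤ z) (hz1 : z < 1) {y0 yp rho : ℝ}
    {ld : ℕ → Om W X β → Prop} (G : GamOK (USi tb hv d1 kb d0 k0 p1 z hd1 hd11 hkb hd0 hd01 hk0 hp1 hz) (5 * T) y0 rho ld) (hr : 0 ≤ rho) (hy0 : 0 ≤ y0)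
    (hy : y0 < yp) {i j : Fin 3} (hij : i ≠ j) :
    ∑ s ∈ range (5 * T), tb.Ps.Pr (fun w => lt5 (MSi tb (v := v) d1 kb d0 k0 p1 z hd1 hd11 hkb hd0 hd01 hk0 hp1 hz)
      (NPo tb v) s w ∧ (sts (MSi tb (v := v) d1 kb d0 k0 p1 z hd1 hd11 hkb hd0 hd01 hk0 hp1 hz) i s w ∧
        sts (MSi tb (v := v) d1 kb d0 k0 p1 z hd1 hd11 hkb hd0 hd01 hk0 hp1 hz) j s w)) ≤
      yp ^ 2 * (6 * n * N1 * Lam) + ((8 * yp) ^ 2 * (3 * (gvn n N1 Lam z +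
        RR (USi tb hv d1 kb d0 k0 p1 z hd1 hd11 hkb hd0 hd01 hk0 hp1 hz) (5 * T) rho ld) / (yp - y0)) +
        3 * RR (USi tb hv d1 kb d0 k0 p1 z hd1 hd11 hkb hd0 hd01 hk0 hp1 hz) (5 * T) rho ld) := by
  have h1 := vv_sum (M := USi tb hv d1 kb d0 k0 p1 z hd1 hd11 hkb hd0 hd01 hk0 hp1 hz) (T := 5 * T) (y0 := y0) (yp := yp)
    (rho := rho) (seen_i tb hv hd1 hd11 hkb hd0 hd01 hk0 hp1 hz) (cd_i tb hv hd1 hd11 hkb hd0 hd01 hk0 hp1 hz)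
    (fun i j hij => ci_i tb hv hd1 hd11 hkb hd0 hd01 hk0 hp1 hz hij) (h := 8) (by norm_num)
    (fun s hs w hw => half_i tb hv hd1 hd11 hkb hd0 hd01 hk0 hp1 hz H ∅ hs hw) G hr hy0 hy (gv := gvn n N1 Lam z)
    (fun c => gv_i tb hv hd1 hd11 hkb hd0 hd01 hk0 hp1 hz hn hN1 R H hzz hz1 c) hij
  refine h1.trans (add_le_add (mul_le_mul_of_nonneg_left ?_ (sq_nonneg _)) le_rfl)
  exact nl tb hd1 hd11 hkb hd0 hd01 hk0 hp1 hz hn hN1 R H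

theorem div_half {a yp y0 : ℝ} (ha : 0 ≤ a) (hy : 0 < yp) (h : 2 * y0 ≤ yp) :
    (8 * yp) ^ 2 * (3 * a / (yp - y0)) ≤ 384 * yp * a := by
  have h1 : 0 < yp - y0 := by linarith
  rw [← mul_div_assoc, div_le_iff₀ h1]
  have h2 : yp ≤ 2 * (yp - y0) := by linarith
  have h3 := mul_le_mul_of_nonneg_left h2 (show 0 ≤ 192 * yp * a by positivity)
  linarith

/-- the same, `2 y0 ≤ yp` -/
theorem vv_i2 {n N1 : ℝ} (hn : 1 ≤ n) (hN1 : 1 ≤ N1) (R : Run h (pr3 (Fin 3) n N1) (SS1 (Fin 3)) (AdmDep D) v)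
    (H : D.Hyp dg prr al T Lam) (hzz : 8 * Real.exp (4 * Lam) * kb / p1 ≤ z) (hz1 : z < 1) {y0 yp rho : ℝ}
    {ld : ℕ → Om W X β → Prop} (G : GamOK (USi tb hv d1 kb d0 k0 p1 z hd1 hd11 hkb hd0 hd01 hk0 hp1 hz) (5 * T) y0 rho ld) (hr : 0 ≤ rho) (hy0 : 0 ≤ y0)
    (hyp : 0 < yp) (hy : 2 * y0 ≤ yp) {i j : Fin 3} (hij : i ≠ j) :
    ∑ s ∈ range (5 * T), tb.Ps.Pr (fun w => lt5 (MSi tb (v := v) d1 kb d0 k0 p1 z hd1 hd11 hkb hd0 hd01 hk0 hp1 hz)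
      (NPo tb v) s w ∧ (hys (MSi tb (v := v) d1 kb d0 k0 p1 z hd1 hd11 hkb hd0 hd01 hk0 hp1 hz) i
        (nu (MSi tb (v := v) d1 kb d0 k0 p1 z hd1 hd11 hkb hd0 hd01 hk0 hp1 hz) s w) w ∧
        hys (MSi tb (v := v) d1 kb d0 k0 p1 z hd1 hd11 hkb hd0 hd01 hk0 hp1 hz) j
          (nu (MSi tb (v := v) d1 kb d0 k0 p1 z hd1 hd11 hkb hd0 hd01 hk0 hp1 hz) s w) w)) ≤
      6 * n * N1 * Lam * yp ^ 2 + 384 * yp * gvn n N1 Lam z + (384 * yp + 3) *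
        RR (USi tb hv d1 kb d0 k0 p1 z hd1 hd11 hkb hd0 hd01 hk0 hp1 hz) (5 * T) rho ld := by
  have h1 := vv_i tb hv hd1 hd11 hkb hd0 hd01 hk0 hp1 hz hn hN1 R H hzz hz1 G hr hy0 (show y0 < yp by linarith) hij
  refine h1.trans ?_
  have h2 := RR_nonneg (M := USi tb hv d1 kb d0 k0 p1 z hd1 hd11 hkb hd0 hd01 hk0 hp1 hz) (T := 5 * T) (ld := ld) hr
  have h3 : 0 ≤ gvn n N1 Lam z := (sum_nonneg fun _ _ => tb.Ps.Pr_nonneg _).trans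
    (gv_i tb hv hd1 hd11 hkb hd0 hd01 hk0 hp1 hz hn hN1 R H hzz hz1 0)
  have h5 := div_half (add_nonneg h3 h2) hyp hy
  linarith

end run

end

end Pool.Agent.GMH.VV
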