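import Pool.Agent.GMH.ConTM
import Pool.Agent.GMH.ConT2
import Pool.Agent.GMH.RZ11
import Pool.Agent.GMH.VVi

/-!
# GMH/ConTM2: the numbers of `RZ.rest_MSi`, of two vertices with status and of the near thresholds, final forms (helper41)

`restS_num` : the side conditions; `restM_num` : the right side is `≤ (pw Lam K)⁻¹`, every `K`; `Ev.toCT` : into `CT.Ev`.
-/

set_option autoImplicit false
set_option linter.unusedSectionVars false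

namespace Pool.Agent.GMH.CTM

open Pool.Agent.GMH Pool.Agent.GMH.V3 Pool.Agent.GMH.MVN

theorem Ev.toCT {P : ℕ → ℝ → Prop} (h : Ev P) : CT.Ev P := Filter.eventually_atTop.2 h

theorem ipw_mono {Lam : ℝ} (hL : 2 ≤ Lam) {a b : ℕ} (h : a ≤ b) : (pw Lam b)⁻¹ ≤ (pw Lam a)⁻¹ :=
  inv_anti₀ (pw_pos hL a) (pw_mono hL h)

/-- four small terms -/
theorem ipw_four {Lam : ℝ} (hL : 2 ≤ Lam) (K : ℕ) : 4 * (pw Lam (K + 1))⁻¹ ≤ (pw Lam K)⁻¹ := by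
  have hx : (4 : ℝ) ≤ 2 * Lam := by linarith
  rw [ipz, ipz]
  refine (Fn.mul2 hx (Fn.zpos hx _).le (Fn.cst hx 1 (c := 4) (by norm_num)) le_rfl).trans (Fn.zle hx ?_)
  push_cast
  omega

/-- the side conditions of `RZ.rest_MSi` (`p1 = N1 ^ -1`, `e = N1 ^ 2`, `dl = N1 ^ -4`) -/
theorem restS_num {A : ℕ} (hA : 80 ≤ A) (ka : ℕ) : Ev (fun c0 Lam => 64 * (pw Lam (4 * c1F A c0))⁻¹ ≤ 1 ∧
    12 * d0 Lam c0 ≤ Real.exp (-(4 * Lam)) ∧ 12 * d0 Lam c0 ≤ k2 Lam ka c0 ∧ 12 * d0 Lam c0 ≤ pi2 Lam A c0 ∧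
    d0 Lam c0 < kl Lam c0 ∧ 2 * e0 Lam A c0 * k4 Lam ka c0 ≤ (pw Lam (c1F A c0))⁻¹ ∧
    2 * e0 Lam A c0 * pi2 Lam A c0 ≤ (pw Lam (c1F A c0))⁻¹ ∧
    2 * e0 Lam A c0 * (k2 Lam ka c0 / k4 Lam ka c0) ≤ (pw Lam (c1F A c0))⁻¹) := by
  refine Ev.mono ((d0_small A ka).and (typ_num A ka)) fun c0 Lam hL ⟨h1, h2, h3, h4⟩ => ?_
  obtain ⟨a1, a2, a3, _, _, _⟩ := h1
  have hx : (4 : ℝ) ≤ 2 * Lam := by linarith
  have hc := c1_big (c0 := c0) hA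
  have two : ∀ {u : ℝ}, u ≤ (pw Lam (2 * c1F A c0))⁻¹ → 2 * u ≤ (pw Lam (c1F A c0))⁻¹ := by
    intro u hu
    have b1 : 2 * (pw Lam (2 * c1F A c0))⁻¹ ≤ (pw Lam (c1F A c0))⁻¹ := by
      rw [ipz, ipz]
      refine (Fn.mul2 hx (Fn.zpos hx _).le (Fn.cst hx 1 (c := 2) (by norm_num)) le_rfl).trans (Fn.zle hx ?_)
      push_cast
      omega
    linarith
  refine ⟨?_, a1, a2, a3, ?_, ?_, ?_, ?_⟩
  · rw [ipz, ← zpow_zero (2 * Lam)]
    refine (Fn.mul2 hx (Fn.zpos hx _).le (Fn.cst hx 3 (c := 64) (by norm_num)) le_rfl).trans (Fn.zle hx ?_)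
    push_cast
    omega
  · unfold d0 kl
    exact Real.exp_lt_exp.2 (by have := pQ_pos hL c0; linarith)
  · rw [mul_assoc]
    exact two h2
  · rw [mul_assoc]
    exact two h3
  · rw [mul_assoc]
    exact two h4

/-- **`RZ.rest_MSi`, the right side** -/
theorem restM_num {A : ℕ} (hA : 80 ≤ A) (ka kG K : ℕ) : Ev (fun c0 Lam => ∀ Sg N0 X1 : ℝ, 0 ≤ Sg → Sg ≤ pw Lam kG →
    0 ≤ N0 → N0 ≤ Real.exp (4 * pQ Lam c0) → 0 ≤ X1 → X1 ≤ pw Lam (cXF A c0 + 2) →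
    uR Lam c0 / 2 * Sg + 2 * (432 * 5 * uR Lam c0 * pw Lam c0 * Lam +
      2 * (1 + 8 * uR Lam c0) * (RZ.e9z (pw Lam (c1F A c0)) X1 (X2f Lam c0 X1) (uR Lam c0) (pw Lam (4 * c1F A c0))⁻¹
        (MQ Lam c0) * (1 + N0) + 5 * TD.TnB (pw Lam c0) (pw Lam (c1F A c0)) Lam (pw Lam (4 * c1F A c0))⁻¹) +
      6 / (uR Lam c0 * (MQ Lam c0 + 1)) * (1 + N0)) +
      RZ.ThC (6 * pw Lam c0 * pw Lam (c1F A c0) * Lam) Lam (12 * pw Lam c0 * Lam) (k2 Lam ka c0) (pi2 Lam A c0)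
        (e0 Lam A c0) (kl Lam c0) (kb Lam ka c0) (p1 Lam A c0) (d0 Lam c0) ≤ (pw Lam K)⁻¹) := by
  obtain ⟨m4, h4⟩ := thr_num A
  have hthr : Ev (fun c0 Lam => ∀ NL To q : ℝ, 0 < q → q ≤ Real.exp (-(pQ Lam c0 / 2)) →
    NL ≤ 100 * (pw Lam c0 * pw Lam (c1F A c0) * Lam) → To ≤ 100 * (pw Lam c0 * Lam) → 0 ≤ NL → 0 ≤ To →
    2 / Real.log (1 / q) * (To + Real.sqrt q * NL) ≤ (pw Lam (6 * c0))⁻¹) := ⟨m4, h4⟩
  refine Ev.mono ((((rest_num hA kG 2 (K + 3)).and (f2_num A ka)).and ((f3_num hA).and (ah0_num hA))).and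
    (hthr.and (Ev.ge (K + 20)))) fun c0 Lam hL ⟨⟨⟨r1, r2⟩, r3, r4⟩, r5, hc0⟩ Sg N0 X1 g0 g1 n0 n1 x0 x1 => ?_
  have hL0 : (0 : ℝ) ≤ Lam := by linarith
  have q1 := pw_pos hL c0
  have q2 := pw_pos hL (c1F A c0)
  have hx : (4 : ℝ) ≤ 2 * Lam := by linarith
  have hN0 : 0 ≤ 6 * pw Lam c0 * pw Lam (c1F A c0) * Lam := by positivity
  have hN1 : 6 * pw Lam c0 * pw Lam (c1F A c0) * Lam ≤ 100 * (pw Lam c0 * pw Lam (c1F A c0) * Lam) := by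
    have : 0 ≤ pw Lam c0 * pw Lam (c1F A c0) * Lam := by positivity
    linarith
  have hT0 : 0 ≤ 12 * pw Lam c0 * Lam := by positivity
  have hT1 : 12 * pw Lam c0 * Lam ≤ 100 * (pw Lam c0 * Lam) := by
    have : 0 ≤ pw Lam c0 * Lam := by positivity
    linarith
  have hS : 1 + N0 ≤ Real.exp (8 * pQ Lam c0) := by
    have p := pQ_pos hL c0
    have p1 : 1 ≤ pQ Lam c0 := pw_one hL _
    exact addE (a := 0) (by rw [Real.exp_zero]) n1 (by linarith) (by linarith)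
  have s1 := r1 Sg (1 + N0) 5 X1 g0 g1 (by linarith) hS (by norm_num) (by
    have := pw_four hL 2
    norm_num at this
    linarith) x0 x1
  have ur0 : 0 ≤ uR Lam c0 := inv_nonneg.2 (pw_pos hL _).le
  have s2 : 0 ≤ uR Lam c0 / 2 * Sg := by positivity
  have i1 : (pw Lam (40 * (c1F A c0 + c0)))⁻¹ ≤ (pw Lam (K + 3))⁻¹ := ipw_mono hL (by omega)
  have i2 : (pw Lam (60 * (c0 + A)))⁻¹ ≤ (pw Lam (K + 3))⁻¹ := ipw_mono hL (by omega)
  have i3 : (pw Lam (6 * c0))⁻¹ ≤ (pw Lam (K + 3))⁻¹ := ipw_mono hL (by omega)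
  have t1 := (r2 _ hN0 hN1).trans i1
  have t2 := (r3 _ hN0 hN1).trans i2
  have t4 := (r4 _ _ hN0 hT0 hN1 hT1).trans i2
  have t3 : 2 / Real.log (kl Lam c0 / d0 Lam c0) * (12 * pw Lam c0 * Lam + Real.sqrt (d0 Lam c0 / kl Lam c0) *
      (6 * pw Lam c0 * pw Lam (c1F A c0) * Lam)) ≤ (pw Lam (K + 3))⁻¹ := by
    have h := (r5 (6 * pw Lam c0 * pw Lam (c1F A c0) * Lam) (12 * pw Lam c0 * Lam) (d0 Lam c0 / kl Lam c0)
      (by unfold d0 kl; positivity) (le_of_eq (kl_eq c0)) hN1 hT1 hN0 hT0).trans i3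
    rwa [one_div_div] at h
  have hI : 0 < (pw Lam (K + 3))⁻¹ := inv_pos.2 (pw_pos hL _)
  have hfin : 11 * (pw Lam (K + 3))⁻¹ ≤ (pw Lam K)⁻¹ := by
    rw [ipz, ipz]
    refine (Fn.mul2 hx (Fn.zpos hx _).le (Fn.cst hx 2 (c := 11) (by norm_num)) le_rfl).trans (Fn.zle hx ?_)
    push_cast
    omega
  unfold RZ.ThC
  linarith

/-- the side conditions on `z`, `y0`, `yp` -/
theorem z_side (A ka : ℕ) : Ev (fun c0 Lam => 8 * Real.exp (4 * Lam) * kb Lam ka c0 / p1 Lam A c0 ≤ z Lam ka c0 ∧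
    z Lam ka c0 < 1 ∧ 2 * y0 Lam A c0 ≤ yp Lam A c0 ∧ 0 < y0 Lam A c0) := by
  obtain ⟨m, h⟩ := hz_num A ka
  have hz : Ev (fun c0 Lam => 48 * Real.exp (4 * Lam) * kb Lam ka c0 ≤ p1 Lam A c0 * z Lam ka c0) := ⟨m, h⟩
  refine Ev.mono (hz.and (Ev.ge 1)) fun c0 Lam hL ⟨h1, h2⟩ => ?_
  have hx : (4 : ℝ) ≤ 2 * Lam := by linarith
  have hx0 : (2 * Lam : ℝ) ≠ 0 := by linarith
  have hp : 0 < p1 Lam A c0 := inv_pos.2 (pw_pos hL _)
  refine ⟨?_, ?_, ?_, ?_⟩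
  · rw [div_le_iff₀ hp]
    have : 0 ≤ Real.exp (4 * Lam) * kb Lam ka c0 := by
      unfold kb
      positivity
    nlinarith
  · unfold z
    rw [Real.exp_lt_one_iff]
    have := pe_pos hL ka c0
    linarith
  · rw [y0_z Lam A c0 hx0, yp_z Lam A c0 hx0]
    refine (Fn.mul2 hx (Fn.zpos hx _).le (Fn.cst hx 1 (c := 2) (by norm_num)) le_rfl).trans (Fn.zle hx ?_)
    push_cast
    omega
  · rw [y0_z Lam A c0 hx0]
    exact Fn.zpos hx _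

/-- the mass of the vertices with status -/
theorem gvn_num (A ka : ℕ) : Ev (fun c0 Lam => 0 ≤ VV.gvn (pw Lam c0) (pw Lam (c1F A c0)) Lam (z Lam ka c0) ∧
    VV.gvn (pw Lam c0) (pw Lam (c1F A c0)) Lam (z Lam ka c0) ≤ pw Lam (ka + 12)) := by
  obtain ⟨m, h⟩ := gv_num A ka
  have hz : Ev (fun c0 Lam => ∀ NL To : ℝ,
    NL ≤ 100 * (pw Lam c0 * pw Lam (c1F A c0) * Lam) → To ≤ 100 * (pw Lam c0 * Lam) → 0 ≤ NL → 0 ≤ To →
    2 / Real.log (1 / z Lam ka c0) * (To + Real.sqrt (z Lam ka c0) * NL) ≤ pw Lam (ka + 12)) := ⟨m, h⟩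
  refine Ev.mono hz fun c0 Lam hL h1 => ?_
  have hL0 : (0 : ℝ) ≤ Lam := by linarith
  have q1 := pw_pos hL c0
  have q2 := pw_pos hL (c1F A c0)
  have q3 := pe_pos hL ka c0
  unfold VV.gvn
  have e1 : (0 : ℝ) ≤ 6 * pw Lam c0 * pw Lam (c1F A c0) * Lam := by positivity
  have e2 : (0 : ℝ) ≤ 12 * pw Lam c0 * Lam := by positivity
  have e3 : 0 ≤ Real.log (1 / z Lam ka c0) := by
    refine Real.log_nonneg ?_
    unfold z
    rw [one_div, ← Real.exp_neg, neg_neg]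
    exact Real.one_le_exp (by linarith)
  refine ⟨by positivity, h1 _ _ ?_ ?_ e1 e2⟩
  · have : 0 ≤ pw Lam c0 * pw Lam (c1F A c0) * Lam := by positivity
    linarith
  · have : 0 ≤ pw Lam c0 * Lam := by positivity
    linarith

/-- **two vertices with status** (`VV.vv_i2`), `R` the rare part -/
theorem vv_num {A : ℕ} (hA : 80 ≤ A) (ka K : ℕ) : Ev (fun c0 Lam => ∀ R : ℝ, 0 ≤ R → R ≤ (pw Lam (K + 4))⁻¹ →
    6 * pw Lam c0 * pw Lam (c1F A c0) * Lam * yp Lam A c0 ^ 2 +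
      384 * yp Lam A c0 * VV.gvn (pw Lam c0) (pw Lam (c1F A c0)) Lam (z Lam ka c0) + (384 * yp Lam A c0 + 3) * R ≤
      (pw Lam K)⁻¹) := by
  refine Ev.mono ((gvn_num A ka).and (Ev.ge (K + ka + 20))) fun c0 Lam hL ⟨⟨g0, g1⟩, hc0⟩ R r0 r1 => ?_
  have hx : (4 : ℝ) ≤ 2 * Lam := by linarith
  have hx0 : (2 * Lam : ℝ) ≠ 0 := by linarith
  have hc := c1_big (c0 := c0) hA
  have hL0 : (0 : ℝ) ≤ Lam := by linarith
  have hLx : Lam ≤ (2 * Lam) ^ (1 : ℤ) := by rw [zpow_one]; linarith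
  have hyp : 0 < yp Lam A c0 := by rw [yp_z Lam A c0 hx0]; exact Fn.zpos hx _
  have ey := yp_z Lam A c0 hx0
  have q1 := pw_pos hL c0
  have q2 := pw_pos hL (c1F A c0)
  rw [pz Lam (ka + 12)] at g1
  rw [ipz] at r1
  have t1 : 6 * pw Lam c0 * pw Lam (c1F A c0) * Lam * yp Lam A c0 ^ 2 ≤ (2 * Lam) ^ (-(K : ℤ) - 3) := by
    rw [sq, ← mul_assoc]
    refine (Fn.mul2 hx hyp.le (Fn.mul2 hx hyp.le (Fn.mul2 hx hL0 (Fn.mul2 hx q2.le (Fn.mul2 hx q1.le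
      (Fn.cst hx 2 (c := 6) (by norm_num)) (le_of_eq (pz Lam c0))) (le_of_eq (pz Lam _))) hLx) (le_of_eq ey))
        (le_of_eq ey)).trans (Fn.zle hx ?_)
    push_cast
    omega
  have t2 : 384 * yp Lam A c0 * VV.gvn (pw Lam c0) (pw Lam (c1F A c0)) Lam (z Lam ka c0) ≤ (2 * Lam) ^ (-(K : ℤ) - 3) := by
    refine (Fn.mul2 hx g0 (Fn.mul2 hx hyp.le (Fn.cst hx 5 (c := 384) (by norm_num)) (le_of_eq ey)) g1).trans
      (Fn.zle hx ?_)
    push_cast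
    omega
  have t3 : (384 * yp Lam A c0 + 3) * R ≤ (2 * Lam) ^ (-(K : ℤ) - 3) := by
    have a1 : 384 * yp Lam A c0 ≤ 1 := by
      rw [← zpow_zero (2 * Lam)]
      refine (Fn.mul2 hx hyp.le (Fn.cst hx 5 (c := 384) (by norm_num)) (le_of_eq ey)).trans (Fn.zle hx ?_)
      push_cast
      omega
    refine (Fn.mul2 hx r0 (Fn.cst hx 1 (c := 384 * yp Lam A c0 + 3) (by linarith)) r1).trans (Fn.zle hx ?_)
    push_cast
    omega
  have s1 := Fn.add2 hx t1 t2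
  have s2 := Fn.add2 hx s1 (t3.trans (Fn.zle hx (show -(K : ℤ) - 3 ≤ -(K : ℤ) - 3 + 1 by omega)))
  rw [ipz]
  exact s2.trans (Fn.zle hx (by omega))

/-- **private removals** (`MV8T.mv8_run`), `a = 2 L + n` -/
theorem mv8r_num {A : ℕ} (hA : 80 ≤ A) (ka K : ℕ) : Ev (fun c0 Lam => ∀ L : ℝ, 0 ≤ L → L ≤ pw Lam (cXF A c0 + 2) →
    (e0 Lam A c0 * (Real.exp (4 * Lam) * kb Lam ka c0) + 2 * z Lam ka c0 +
      3 * (3 * (Real.sqrt (4 * (2 * L + pw Lam c0 + 1) / pw Lam (c1F A c0)) +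
        2 * Real.exp (-(2 * L + pw Lam c0)) * Real.exp (2 * L)))) * (6 * pw Lam c0 * Lam) ≤ (pw Lam K)⁻¹) := by
  refine Ev.mono (((mv8_num hA ka 8).and (scales A 0 64)).and (Ev.ge (K + 20))) fun c0 Lam hL ⟨⟨h0, h1, _, _, _⟩, hc0⟩
    L l0 l1 => ?_
  have hx : (4 : ℝ) ≤ 2 * Lam := by linarith
  have hL0 : (0 : ℝ) ≤ Lam := by linarith
  have hc := c1_big (c0 := c0) hA
  have q1 := pw_pos hL c0
  have q2 := pw_pos hL (c1F A c0)
  have o := one_ell hL A c0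
  have hpe : pe Lam 0 c0 = pw Lam c0 := by unfold pe pw; rw [pow_zero, div_one]
  rw [hpe] at h1
  push_cast at h1
  set s := Real.sqrt (pw Lam (cXF A c0 + 8) / pw Lam (c1F A c0)) with hs
  have hs0 : 0 ≤ s := Real.sqrt_nonneg _
  have b1 : Real.sqrt (4 * (2 * L + pw Lam c0 + 1) / pw Lam (c1F A c0)) ≤ s := by
    refine Real.sqrt_le_sqrt (div_le_div_of_nonneg_right ?_ q2.le)
    have c1 : 2 * L + pw Lam c0 ≤ pw Lam (cXF A c0 + 4) := by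
      have a1 := pw_sum (c := cXF A c0 + 3) hL l1 l1 (by omega) (by omega)
      have a2 := pw_sum (c := cXF A c0 + 4) hL a1 (le_refl (pw Lam c0)) (by omega) (by unfold cXF; omega)
      linarith
    have c2 := pw_sum (c := cXF A c0 + 5) hL c1 (pw_one hL 0) (by omega) (by omega)
    rw [show cXF A c0 + 8 = (cXF A c0 + 5) + 3 by omega, pw_add hL (cXF A c0 + 5) 3]
    have c3 := pw_four hL 3
    norm_num at c3
    have c4 : 0 ≤ 2 * L + pw Lam c0 + 1 := by positivity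
    nlinarith
  have b2 : 2 * Real.exp (-(2 * L + pw Lam c0)) * Real.exp (2 * L) ≤ 2 * s := by
    rw [mul_assoc, ← Real.exp_add]
    have c1 : Real.exp (-(2 * L + pw Lam c0) + 2 * L) ≤ (pw Lam (c1F A c0))⁻¹ := by
      refine (leE (b := -((1 : ℕ) * ell Lam A c0)) ?_).trans (inv_ell hL A c0 (k := 1) (by omega))
      push_cast
      linarith
    have c2 : (pw Lam (c1F A c0))⁻¹ ≤ s := by
      refine Real.le_sqrt_of_sq_le ?_
      rw [sq, div_eq_mul_inv]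
      refine mul_le_mul_of_nonneg_right ?_ (inv_pos.2 q2).le
      exact (inv_le_one_of_one_le₀ (pw_one hL _)).trans (pw_one hL _)
    linarith
  refine (h0 (6 * pw Lam c0 * Lam) (3 * (Real.sqrt (4 * (2 * L + pw Lam c0 + 1) / pw Lam (c1F A c0)) +
    2 * Real.exp (-(2 * L + pw Lam c0)) * Real.exp (2 * L))) (by positivity) (by positivity) ?_ ?_).trans
      (ipw_mono hL (by omega))
  · have : 0 ≤ pw Lam c0 * Lam := by positivity
    linarith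
  · have c3 := pw_four hL 8
    norm_num at c3
    have c4 : 9 * s ≤ pw Lam 8 * s := mul_le_mul_of_nonneg_right (by linarith) hs0
    linarith

end Pool.Agent.GMH.CTM
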