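import Pool.Agent.GMH.MVI
import Pool.Agent.GMH.MVIp
import Pool.Agent.GMH.TabP2
import Pool.Agent.GMH.InX
import Pool.Agent.GMH.VTot
import Pool.Agent.GMH.V3D

/-!
# GMH/GamR (helper18): RARITY OF THE DENSITY OF THE STATUS SETS (H3.MOV, M.6), first part

One vertex `c`, events `A` of the class of `c` (point, letter), density of `A` at own `a` in the cells.
* `kl_fwd`, `kl_bwd`, `rare1` : one class;
* `kl_sat` : saturation at the state `5 t` for an event of (hidden point, cells), on the space with tables;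
* `rare_sat`, `rare_dens` : the density of a rare event is rarely large, saturated state;
* `back_sat` : the mass of an event of the class of `c` against its mass under a value of the digit;
* `ce_Y`, `ce_mix` : independence of the cells of the known points.
-/

set_option autoImplicit false
set_option linter.unusedSectionVars false

namespace Pool.Agent.GMH.GamR

open Finset Pool.Agent.PWZ Pool.Agent.M3 Pool.Agent.GM Pool.Agent.GM.Harm Pool.Agent.GMH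
open Pool.Agent.GMH.TP Pool.Agent.GMH.TD Pool.Agent.GMH.Dy Pool.Agent.GMH.MVI Pool.Agent.GMH.MVIp

noncomputable section

/-! ### one class -/

section abs

variable {Om : Type*} [Fintype Om] {P Q : FP Om} {κ χ : Type*}

theorem kl_fwd (hac : Q.Ac P) {L : Om → κ} {A : Om → Prop} (hA : Fac L A) : Q.Pr A ≤ Q.kl P L + 2 * P.Pr A := by
  have h1 := FP.dv' hac (X := L) (ψ := fun w => ind (A w)) (hA.comp (fun q => ind q))
  have h2 : P.E (fun w => Real.exp (ind (A w)) - 1) ≤ 2 * P.Pr A := by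
    unfold FP.Pr
    rw [← FP.E_smul]
    refine P.E_mono fun w _ => ?_
    have he := Real.exp_one_lt_d9
    by_cases hw : A w
    · rw [ind_of hw]
      linarith
    · rw [ind_not hw, Real.exp_zero]
      norm_num
  have h3 : Q.Pr A = Q.E (fun w => ind (A w)) := rfl
  rw [h3]
  linarith

theorem kl_bwd (hac : Q.Ac P) {L : Om → κ} {A : Om → Prop} (hA : Fac L A) : P.Pr A ≤ 2 * (Q.kl P L + Q.Pr A) := by
  have h1 := FP.dv' hac (X := L) (ψ := fun w => -ind (A w)) (hA.comp (fun q => -ind q))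
  have h2 : P.E (fun w => Real.exp (-ind (A w)) - 1) ≤ -(1 / 2) * P.Pr A := by
    unfold FP.Pr
    rw [← FP.E_smul]
    refine P.E_mono fun w _ => ?_
    have he := Real.exp_one_gt_d9
    by_cases hw : A w
    · rw [ind_of hw]
      have h3 : Real.exp (-1) ≤ 1 / 2 := by
        rw [Real.exp_neg, one_div]
        exact inv_anti₀ (by norm_num) (by linarith)
      linarith
    · rw [ind_not hw, neg_zero, Real.exp_zero]
      norm_num
  have h3 : Q.E (fun w => -ind (A w)) = - Q.Pr A := by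
    unfold FP.Pr
    rw [← FP.E_neg]
  rw [h3] at h1
  linarith

/-- **rarity in one class** -/
theorem rare1 {L : Om → κ} {N k : ℝ} {E A : Om → Prop} (hE0 : P.Pr E ≠ 0)
    (hsat : N * (P.cond E).kl P L ≤ 2 * (Real.log (1 / P.Pr E) + 1)) (hN : 0 ≤ N) (hA : Fac L A)
    (hk : k ≤ (P.cond E).Pr A) (hq : P.Pr A ≤ k / 4) : P.Pr E ≤ Real.exp (1 - N * k / 4) := by
  have h1 := kl_fwd (P.cond_ac E) hA
  have h4 : k / 2 ≤ (P.cond E).kl P L := by linarith
  have h5 := mul_le_mul_of_nonneg_left h4 hN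
  have hE' : 0 < P.Pr E := lt_of_le_of_ne (P.Pr_nonneg E) (Ne.symm hE0)
  have h6 : Real.log (P.Pr E) ≤ 1 - N * k / 4 := by
    have h7 : Real.log (1 / P.Pr E) = - Real.log (P.Pr E) := by rw [one_div, Real.log_inv]
    rw [h7] at hsat
    linarith
  exact (Real.log_le_iff_le_exp hE').1 h6

theorem dens_ge {X : Om → χ} {S E A : Om → Prop} (hS : Fac X S) (hE : Fac X E) (hS0 : P.Pr S ≠ 0)
    (hE0 : (P.cond S).Pr E ≠ 0) {k : ℝ} (hk : ∀ u, P.p u ≠ 0 → S u → E u → k ≤ P.ce X (fun v => ind (A v)) u) :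
    k ≤ ((P.cond S).cond E).Pr A := by
  have hE0' : 0 < (P.cond S).Pr E := lt_of_le_of_ne ((P.cond S).Pr_nonneg E) (Ne.symm hE0)
  have hS0' : 0 < P.Pr S := lt_of_le_of_ne (P.Pr_nonneg S) (Ne.symm hS0)
  unfold FP.Pr
  rw [FP.cond_E hE0, le_div_iff₀ hE0']
  have e1 : (P.cond S).Pr E = P.E (fun w => ind (S w) * ind (E w)) / P.Pr S := FP.cond_E hS0 _
  have e2 : (P.cond S).E (fun w => ind (E w) * ind (A w)) = P.E (fun w => ind (S w) * (ind (E w) * ind (A w))) / P.Pr S :=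
    FP.cond_E hS0 _
  have e3 : P.E (fun w => ind (S w) * (ind (E w) * ind (A w))) =
      P.E (fun w => ind (S w) * ind (E w) * P.ce X (fun v => ind (A v)) w) := by
    rw [P.E_mul_ce (h := fun w => ind (S w) * ind (E w)) ((Fac.ind fun a b hab => by rw [hS a b hab]).mul
      (Fac.ind fun a b hab => by rw [hE a b hab])) (fun v => ind (A v))]
    exact P.E_congr fun w _ => by ring
  rw [e1, e2, e3, ← mul_div_assoc]
  refine div_le_div_of_nonneg_right ?_ hS0'.le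
  rw [← P.E_smul]
  refine P.E_mono fun w hw => ?_
  by_cases h1 : S w
  · by_cases h2 : E w
    · rw [ind_of h1, ind_of h2, mul_one, mul_one, one_mul]
      exact hk w hw h1 h2
    · rw [ind_not h2]
      simp
  · rw [ind_not h1]
    simp

theorem cond2 {Z : Om → κ} {S E : Om → Prop} {w : Om} (hSE : ∀ u, (S u ∧ E u) ↔ Z u = Z w) (hS0 : P.Pr S ≠ 0)
    (hE0 : (P.cond S).Pr E ≠ 0) (g : Om → ℝ) : ((P.cond S).cond E).E g = P.ce Z g w := by
  have e1 : (P.cond S).Pr E = P.E (fun w => ind (S w) * ind (E w)) / P.Pr S := FP.cond_E hS0 _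
  have e2 : (P.cond S).E (fun w => ind (E w) * g w) = P.E (fun w => ind (S w) * (ind (E w) * g w)) / P.Pr S :=
    FP.cond_E hS0 _
  rw [FP.cond_E hE0, e1, e2, div_div_div_cancel_right₀ hS0]
  unfold FP.ce FP.m
  have e3 : ∀ u, ind (S u) * ind (E u) = ind (Z u = Z w) := fun u => by
    rw [← ind_and]
    exact congrArg ind (propext (hSE u))
  congr 1
  · refine P.E_congr fun u _ => ?_
    rw [← e3 u]
    ring
  · exact P.E_congr fun u _ => e3 u

end abs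

/-! ### the run -/

section pul

variable {Om Om' : Type*} [Fintype Om] [Fintype Om'] {P Q : FP Om} {P' Q' : FP Om'} {π : Om → Om'} {κ : Type*}

theorem pul_kl (H1 : Pul Q Q' π) (H2 : Pul P P' π) (X : Om' → κ) : Q.kl P (fun w => X (π w)) = Q'.kl P' X := by
  unfold FP.kl
  rw [← H1.E]
  refine Q.E_congr fun w _ => ?_
  have a := H1.m X w
  have b := H2.m X w
  rw [← a, ← b]

end pul

section run

variable {X β γ φ : Type} [Fintype X] [Fintype β] [Fintype φ] [Nonempty X] [Nonempty β]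
variable {D : HD (Fin 3) X β γ φ} {al : ℝ} {h : D.Thick al} {prr : ℕ → Fin 3 → φ → φ} {T : ℕ} {W : Type} [Fintype W]
variable (tb : Tab D prr T W) {v : ℕ → Finset (Fin 3) → X → (Fin 3 → β) → Pt (Fin 3) X β φ}

theorem nc5 (t : ℕ) (J : Finset (Fin 3)) : TP.nc (5 * t) J = t + 1 := by
  unfold TP.nc TP.ncj
  rw [Nat.mul_mod_right, Nat.mul_div_cancel_left t (by norm_num), if_neg (Nat.not_lt_zero _)]

theorem nn5 (t : ℕ) : TP.nn (5 * t) = t := by
  unfold TP.nn TP.nnj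
  rw [Nat.mul_mod_right, Nat.mul_div_cancel_left t (by norm_num), if_pos rfl]

theorem Um_dp {υ : Type} {v : ℕ → Finset (Fin 3) → X → (Fin 3 → β) → υ} (hv : Codes D v) (t : ℕ) : ∀ I x y y',
    (∀ i ∈ I, y i = y' i) → (∀ i, D.qb t (y i) = D.qb t (y' i)) → Um v (t + 1) I x y = Um v (t + 1) I x y' := by
  intro I x y y' h1 h2
  unfold Um
  rw [List.map_inj_left]
  intro s hs
  have hst : s ≤ t := Nat.lt_succ_iff.1 (List.mem_range.1 hs)
  exact hv s I x y y' h1 fun i => qb_mono D hst (h2 i)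

/-- the class of the state `5 t` -/
def Cl (v : ℕ → Finset (Fin 3) → X → (Fin 3 → β) → Pt (Fin 3) X β φ) (t : ℕ) (w0 : Om W X β) : FP (Om W X β) :=
  tb.Ps.cond fun u => NPo tb v (5 * t) u = NPo tb v (5 * t) w0

/-- point and letter of the vertex `c`, class -/
def XN (v : ℕ → Finset (Fin 3) → X → (Fin 3 → β) → Pt (Fin 3) X β φ) (c : Fin 3) (s : ℕ) (w : Om W X β) :=
  (XLo tb v c s w, NPo tb v s w)

theorem not_era (l : Fin 3) : ¬ univ.erase l ⊆ (∅ : Finset (Fin 3)) := by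
  revert l
  decide

theorem SS1_emp : (∅ : Finset (Fin 3)) ∈ SS1 (Fin 3) := mem_SS1.2 (by decide)

theorem SS1_one (c : Fin 3) : ({c} : Finset (Fin 3)) ∈ SS1 (Fin 3) := mem_SS1.2 (by revert c; decide)

/-- **saturation in the class, space with tables** -/
theorem kl_sat {n N1 : ℝ} (hn : 1 ≤ n) (hN1 : 1 ≤ N1) (R : Run h (pr3 (Fin 3) n N1) (SS1 (Fin 3)) (AdmDep D) v)
    {t : ℕ} (ht : t ≤ T) (c : Fin 3) {w0 : Om W X β} (hw0 : tb.Ps.p w0 ≠ 0) {E : Om W X β → Prop}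
    (hE : Fac (sgt D ∅ t) E) (hE0 : (Cl tb v t w0).Pr E ≠ 0) :
    N1 * ((Cl tb v t w0).cond E).kl (Cl tb v t w0) (XN tb v c (5 * t)) ≤
      2 * (Real.log (1 / (Cl tb v t w0).Pr E) + 1) := by
  have hv := R.codes
  have H0 : Pul tb.Ps (D.P h t) (tb.pt t) := pul_pt h tb ht
  have hw1 : (D.P h t).p (tb.pt t w0) ≠ 0 := H0.ne hw0
  have hsat : SatA (D.P h t) (BB D t) (pr3 (Fin 3) n N1) (SS1 (Fin 3)) (LL (Um v (t + 1))) (Dep D t) :=
    R.dep (fun J _ => zero_le_one.trans (pr3_one hn hN1 J)) t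
  have hU := Um_dp (D := D) hv t
  have hxc : (fun u => NPo tb v (5 * t) u = NPo tb v (5 * t) w0) =
      fun u => xc D (Um v (t + 1)) t ∅ (tb.pt t w0) (tb.pt t u) := by
    funext u
    show ((Um v (TP.nc (5 * t) ∅) ∅ u.1 u.2.2, (D.qa (TP.nn (5 * t)) u.1, fun j => D.qb (TP.nn (5 * t)) (u.2.2 j))) =
      (Um v (TP.nc (5 * t) ∅) ∅ w0.1 w0.2.2, (D.qa (TP.nn (5 * t)) w0.1, fun j => D.qb (TP.nn (5 * t)) (w0.2.2 j)))) =
      (le (LL (Um v (t + 1))) ∅ (tb.pt t u) = le (LL (Um v (t + 1))) ∅ (tb.pt t w0) ∧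
        BB D t ∅ (tb.pt t u) = BB D t ∅ (tb.pt t w0))
    rw [nc5, nn5]
    refine propext ⟨fun hh => ?_, fun hh => ?_⟩
    · simp only [Prod.mk.injEq, funext_iff] at hh
      obtain ⟨h1, h2, h3⟩ := hh
      refine ⟨le_eq.2 fun I hI => ?_, BB_eq.2 ⟨fun j hj => absurd hj (Finset.notMem_empty j), h2, h3⟩⟩
      rw [Finset.subset_empty.1 hI, LL_eq]
      exact ⟨h1, fun l hl => absurd (hl ▸ Finset.Subset.refl _) (not_era l)⟩
    · obtain ⟨h1, h2⟩ := hh
      have h3 := (LL_eq.1 (le_eq.1 h1 ∅ (Finset.Subset.refl _))).1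
      have h4 := BB_eq.1 h2
      exact Prod.ext h3 (Prod.ext h4.2.1 (funext h4.2.2))
  set E' : Pt (Fin 3) X β φ → Prop := fun u => E (u.1, w0.2.1, u.2.1) with hE'
  have hEE : E = fun u => E' (tb.pt t u) := by
    funext u
    exact hE u (u.1, w0.2.1, u.2.2) rfl
  set Q' := (D.P h t).cond (xc D (Um v (t + 1)) t ∅ (tb.pt t w0)) with hQ'
  have H1 : Pul (Cl tb v t w0) Q' (tb.pt t) := by
    unfold Cl
    rw [hxc]
    exact pul_cond H0 (xc_ne hw1)
  have hE0' : Q'.Pr E' ≠ 0 := by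
    rw [← H1.Pr E', ← hEE]
    exact hE0
  have H2 : Pul ((Cl tb v t w0).cond E) (Q'.cond E') (tb.pt t) := by
    have := pul_cond H1 hE0'
    rwa [← hEE] at this
  have hEvI : EvI D t ∅ E' := by
    intro a b hab
    simp only [Prod.mk.injEq] at hab
    refine hE _ _ (sgt_eq.2 ⟨hab.1, fun j hj => absurd hj (Finset.notMem_empty j), (BB_eq.1 hab.2.1).2.2⟩)
  have h1 := ex_vert (N := pr3 (Fin 3) n N1) (S := SS1 (Fin 3)) hU hsat
    (fun J _ => zero_le_one.trans (pr3_one hn hN1 J)) not_era SS1_emp (I := ∅) (j := c) (SS1_one c)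
    (Finset.notMem_empty c) hw1 hEvI hE0'
  rw [V3.VT.prN0, V3.VT.prN1] at h1
  have h2 : (Q'.cond E').kl Q' (fun u => (XLq v (5 * t) c u, NPq D v (5 * t) u)) ≤
      (Q'.cond E').kl Q' (fun w => (LL (Um v (t + 1)) {c} w, lo (LL (Um v (t + 1))) {c} w, BB D t {c} w)) := by
    refine FP.kl_mono (FP.cond_ac _ _) fun a b hab => ?_
    simp only [Prod.mk.injEq] at hab
    obtain ⟨e1, e2, e3⟩ := hab
    have e4 := (LL_eq.1 e1).1
    have e5 := (LL_eq.1 (lo_eq.1 e2 ∅ (Finset.ssubset_singleton_iff.2 rfl))).1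
    have e6 := BB_eq.1 e3
    show ((a.2.1 c, Um v (TP.nc (5 * t) {c}) {c} a.1 a.2.1), (Um v (TP.nc (5 * t) ∅) ∅ a.1 a.2.1,
      (D.qa (TP.nn (5 * t)) a.1, fun j => D.qb (TP.nn (5 * t)) (a.2.1 j)))) =
      ((b.2.1 c, Um v (TP.nc (5 * t) {c}) {c} b.1 b.2.1), (Um v (TP.nc (5 * t) ∅) ∅ b.1 b.2.1,
      (D.qa (TP.nn (5 * t)) b.1, fun j => D.qb (TP.nn (5 * t)) (b.2.1 j))))
    rw [nc5, nc5, nn5, e4, e5, e6.1 c (Finset.mem_singleton_self c), e6.2.1, funext e6.2.2]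
  have h3 : ((Cl tb v t w0).cond E).kl (Cl tb v t w0) (XN tb v c (5 * t)) =
      (Q'.cond E').kl Q' (fun u => (XLq v (5 * t) c u, NPq D v (5 * t) u)) :=
    pul_kl H2 H1 (fun u : Pt (Fin 3) X β φ => (XLq v (5 * t) c u, NPq D v (5 * t) u))
  have h4 : (Cl tb v t w0).Pr E = Q'.Pr E' := by
    rw [← H1.Pr E', ← hEE]
  rw [h3, h4]
  have h5 := mul_le_mul_of_nonneg_left h2 (show 0 ≤ N1 by linarith)
  linarith

theorem Cl_Pr (t : ℕ) {w0 : Om W X β} (hw0 : tb.Ps.p w0 ≠ 0) (E : Om W X β → Prop) :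
    (Cl tb v t w0).Pr E = tb.Ps.ce (NPo tb v (5 * t)) (fun u => ind (E u)) w0 :=
  (tb.Ps.ce_eq_cond (NPo tb v (5 * t)) _ hw0).symm

theorem Cl_ne (t : ℕ) {w0 : Om W X β} (hw0 : tb.Ps.p w0 ≠ 0) :
    tb.Ps.Pr (fun u => NPo tb v (5 * t) u = NPo tb v (5 * t) w0) ≠ 0 := (tb.Ps.m_pos (NPo tb v (5 * t)) hw0).ne'

theorem NP_sgt (hv : Codes D v) (t : ℕ) : Fac (sgt (W := W) D ∅ t) (NPo tb v (5 * t)) :=
  NPq_sgt tb hv (nn5 t).le (by rw [nc5]) ∅ 0

theorem cls_sgt (hv : Codes D v) (t : ℕ) (w0 : Om W X β) :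
    Fac (sgt (W := W) D ∅ t) (fun u => NPo tb v (5 * t) u = NPo tb v (5 * t) w0) := fun a b e => by
  show (_ = _) = (_ = _)
  rw [NP_sgt tb hv t a b e]

/-- **RARITY, saturated state** -/
theorem rare_sat {n N1 : ℝ} (hn : 1 ≤ n) (hN1 : 1 ≤ N1) (R : Run h (pr3 (Fin 3) n N1) (SS1 (Fin 3)) (AdmDep D) v)
    {t : ℕ} (ht : t ≤ T) (c : Fin 3) {w0 : Om W X β} (hw0 : tb.Ps.p w0 ≠ 0) {E A : Om W X β → Prop}
    (hE : Fac (sgt D ∅ t) E) (hA : Fac (XN tb v c (5 * t)) A) {k : ℝ}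
    (hk : ∀ u, tb.Ps.p u ≠ 0 → NPo tb v (5 * t) u = NPo tb v (5 * t) w0 → E u →
      k ≤ tb.Ps.ce (sgt D ∅ t) (fun u => ind (A u)) u)
    (hq : tb.Ps.ce (NPo tb v (5 * t)) (fun u => ind (A u)) w0 ≤ k / 4) :
    tb.Ps.ce (NPo tb v (5 * t)) (fun u => ind (E u)) w0 ≤ Real.exp (1 - N1 * k / 4) := by
  rw [← Cl_Pr tb t hw0] at hq ⊢
  by_cases hE0 : (Cl tb v t w0).Pr E = 0
  · rw [hE0]
    exact (Real.exp_pos _).le
  · refine rare1 hE0 (kl_sat tb hn hN1 R ht c hw0 hE hE0) (by linarith) hA ?_ hq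
    exact dens_ge (cls_sgt tb R.codes t w0) hE (Cl_ne tb t hw0) hE0 fun u hu h1 h2 => hk u hu h1 h2

/-- **rarity of the density of a rare event**, saturated state -/
theorem rare_dens {n N1 : ℝ} (hn : 1 ≤ n) (hN1 : 1 ≤ N1) (R : Run h (pr3 (Fin 3) n N1) (SS1 (Fin 3)) (AdmDep D) v)
    {t : ℕ} (ht : t ≤ T) (c : Fin 3) {w0 : Om W X β} (hw0 : tb.Ps.p w0 ≠ 0) {A : Om W X β → Prop}
    (hA : Fac (XN tb v c (5 * t)) A) {k : ℝ}
    (hq : tb.Ps.ce (NPo tb v (5 * t)) (fun u => ind (A u)) w0 ≤ k / 4) :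
    tb.Ps.ce (NPo tb v (5 * t)) (fun u => ind (k ≤ tb.Ps.ce (sgt D ∅ t) (fun u => ind (A u)) u)) w0 ≤
      Real.exp (1 - N1 * k / 4) :=
  rare_sat tb hn hN1 R ht c hw0 (E := fun u => k ≤ tb.Ps.ce (sgt D ∅ t) (fun u => ind (A u)) u)
    (fun a b e => by
      show (_ ≤ _) = (_ ≤ _)
      rw [tb.Ps.ce_fac (sgt D ∅ t) _ a b e]) hA (fun _ _ _ h1 => h1) hq

/-- **the mass of an event of the class of `c` against its mass under an event** -/
theorem back_sat {n N1 : ℝ} (hn : 1 ≤ n) (hN1 : 1 ≤ N1) (R : Run h (pr3 (Fin 3) n N1) (SS1 (Fin 3)) (AdmDep D) v)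
    {t : ℕ} (ht : t ≤ T) (c : Fin 3) {w0 : Om W X β} (hw0 : tb.Ps.p w0 ≠ 0) {E A : Om W X β → Prop}
    (hE : Fac (sgt D ∅ t) E) (hA : Fac (XN tb v c (5 * t)) A) {κ : Type*} {Z : Om W X β → κ}
    (hZ : ∀ u, (NPo tb v (5 * t) u = NPo tb v (5 * t) w0 ∧ E u) ↔ Z u = Z w0) :
    tb.Ps.ce (NPo tb v (5 * t)) (fun u => ind (A u)) w0 ≤
      4 / N1 * (Real.log (tb.Ps.m (NPo tb v (5 * t)) w0 / tb.Ps.m Z w0) + 1) +
        2 * tb.Ps.ce Z (fun u => ind (A u)) w0 := by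
  have hEw : E w0 := ((hZ w0).2 rfl).2
  have h0 : tb.Ps.m Z w0 ≠ 0 := (tb.Ps.m_pos Z hw0).ne'
  have e0 : (Cl tb v t w0).Pr E = tb.Ps.m Z w0 / tb.Ps.m (NPo tb v (5 * t)) w0 := by
    rw [Cl_Pr tb t hw0]
    unfold FP.ce
    congr 1
    unfold FP.m
    refine tb.Ps.E_congr fun u _ => ?_
    rw [← ind_and]
    exact congrArg ind (propext (hZ u))
  have hE0 : (Cl tb v t w0).Pr E ≠ 0 := by
    rw [e0]
    exact div_ne_zero h0 (tb.Ps.m_pos _ hw0).ne'
  have h1 := kl_sat tb hn hN1 R ht c hw0 hE hE0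
  have h2 := kl_bwd (FP.cond_ac (Cl tb v t w0) E) hA
  have h3 : ((Cl tb v t w0).cond E).Pr A = tb.Ps.ce Z (fun u => ind (A u)) w0 :=
    cond2 hZ (Cl_ne tb t hw0) hE0 _
  rw [h3, Cl_Pr tb t hw0] at h2
  rw [e0, one_div_div] at h1
  have hN : 0 < N1 := by linarith
  have h4 : ((Cl tb v t w0).cond E).kl (Cl tb v t w0) (XN tb v c (5 * t)) ≤
      2 / N1 * (Real.log (tb.Ps.m (NPo tb v (5 * t)) w0 / tb.Ps.m Z w0) + 1) := by
    rw [div_mul_eq_mul_div, le_div_iff₀ hN, mul_comm]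
    exact h1
  have h5 : 4 / N1 = 2 * (2 / N1) := by ring
  rw [h5]
  linarith

/-! ### the digit -/

/-- independence of the cells of the known points -/
theorem ce_Y (n : ℕ) {κ η : Type*} {M : Om W X β → κ} (hM : Fac (sgt D ∅ n) M) (hM' : Fac M (ndE D ∅ n))
    {Y : Om W X β → η} (hY : Fac (fun w : Om W X β => w.2.2) Y) {f : Om W X β → ℝ} (hf : Fac (sgt D ∅ n) f)
    {w : Om W X β} (hw : tb.Ps.p w ≠ 0) : tb.Ps.ce (fun u => (Y u, M u)) f w = tb.Ps.ce M f w := by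
  set g : Om W X β → ℝ := fun u => ind (Y u = Y w) with hg
  set κ0 := tb.Ps.ce (ndE D ∅ n) g w with hκ
  have fg : Fac (ndE D univ n) g := Fac.ind fun u v e => by
    rw [hY u v (funext fun j => (ndE_eq.1 e).2.1 j (mem_univ j))]
  have e1 : tb.Ps.E (fun u => ind ((Y u, M u) = (Y w, M w)) * f u) = κ0 * tb.Ps.E (fun u => ind (M u = M w) * f u) := by
    have e2 : tb.Ps.E (fun u => ind ((Y u, M u) = (Y w, M w)) * f u) =
        tb.Ps.E (fun u => (ind (M u = M w) * f u) * g u) := by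
      refine tb.Ps.E_congr fun u _ => ?_
      rw [Prod.mk.injEq, ind_and]
      ring
    have e3 : tb.Ps.E (fun u => (ind (M u = M w) * f u) * g u) =
        tb.Ps.E (fun u => (ind (M u = M w) * f u) * tb.Ps.ce (sgt D ∅ n) g u) :=
      (tb.Ps.E_mul_ce ((Fac.ind fun u v e => by rw [hM u v e]).mul hf) g).symm
    rw [e2, e3, ← FP.E_smul]
    refine tb.Ps.E_congr fun u hu => ?_
    rw [Crd.ce_ci (nd_ci tb ∅ n) (sgt_ndE ∅ n) fg hu]
    by_cases hM2 : M u = M w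
    · rw [tb.Ps.ce_fac (ndE D ∅ n) g u w (hM' u w hM2)]
      ring
    · rw [ind_not hM2, zero_mul, zero_mul, mul_zero]
  have e4 := pr_key tb ∅ n hM hM' hY w
  have h1 := (tb.Ps.m_pos (fun u => (Y u, M u)) hw).ne'
  have h2 := (tb.Ps.m_pos M hw).ne'
  have h3 : κ0 ≠ 0 := by
    intro h4
    rw [hκ] at h4
    rw [h4, zero_mul] at e4
    exact h1 e4
  show tb.Ps.E (fun u => ind ((Y u, M u) = (Y w, M w)) * f u) / tb.Ps.m (fun u => (Y u, M u)) w =
    tb.Ps.E (fun u => ind (M u = M w) * f u) / tb.Ps.m M w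
  rw [e1, e4]
  exact mul_div_mul_left _ _ h3

/-- halving -/
theorem half_ge {dg : ℕ → X → ℝ} {Lam : ℝ} (H : D.Hyp dg prr al T Lam) {t : ℕ} (ht : t < T) {g : Om W X β → ℝ}
    (hg : ∀ u, 0 ≤ g u) {w : Om W X β} (hw : tb.Ps.p w ≠ 0) :
    tb.Ps.ce (sgt D ∅ (t + 1)) g w ≤ 8 * tb.Ps.ce (sgt D ∅ t) g w := by
  have h1 := sgt_half tb H ∅ ht hw
  have h2 : ((∅ : Finset (Fin 3))ᶜ).card = 3 := by decide
  rw [h2] at h1
  have h3 : tb.Ps.E (fun u => ind (sgt D ∅ (t + 1) u = sgt D ∅ (t + 1) w) * g u) ≤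
      tb.Ps.E (fun u => ind (sgt D ∅ t u = sgt D ∅ t w) * g u) := by
    refine tb.Ps.E_mono fun u _ => mul_le_mul_of_nonneg_right (ind_mono fun e => ?_) (hg u)
    obtain ⟨e1, e2, e3⟩ := sgt_eq.1 e
    exact sgt_eq.2 ⟨e1, e2, fun j => D.rb t _ _ (e3 j)⟩
  have p1 := tb.Ps.m_pos (sgt D ∅ t) hw
  have p2 := tb.Ps.m_pos (sgt D ∅ (t + 1)) hw
  have h4 : 0 ≤ tb.Ps.E (fun u => ind (sgt D ∅ t u = sgt D ∅ t w) * g u) :=
    tb.Ps.E_nonneg fun u _ => mul_nonneg (ind_nonneg _) (hg u)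
  unfold FP.ce
  rw [div_le_iff₀ p2, mul_div_assoc', div_mul_eq_mul_div, le_div_iff₀ p1]
  nlinarith

/-- hidden point and cells of different times -/
def sgm (D : HD (Fin 3) X β γ φ) (m : Fin 3 → ℕ) (w : Om W X β) : X × (Fin 3 → γ) := (w.1, fun j => D.qb (m j) (w.2.2 j))

theorem sgm_eq {m : Fin 3 → ℕ} {v w : Om W X β} : sgm D m v = sgm D m w ↔
    v.1 = w.1 ∧ ∀ j, D.qb (m j) (v.2.2 j) = D.qb (m j) (w.2.2 j) := by
  unfold sgm
  rw [Prod.mk.injEq, funext_iff]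

theorem sg_sgm (m : Fin 3 → ℕ) : Crd.Sg (Dy.nn (W := W) D) CC (lvl (eS ∅) (eC ∅ m)) (sgm (W := W) D m) := by
  rw [sg_iff]
  intro v w
  rw [sgm_eq]
  simp only [rp_eC, Finset.notMem_empty, false_implies, implies_true, true_and]

/-- the density of an event of the exact vertex `c` which needs the new cell of `c` -/
theorem ce_mix (c : Fin 3) (t : ℕ) {g : Om W X β → ℝ} (hg : Fac (sgt D {c} t) g) (hg0 : ∀ u, 0 ≤ g u) {w : Om W X β}
    (hw : tb.Ps.p w ≠ 0) (hz : ∀ u, D.qb (t + 1) (u.2.2 c) ≠ D.qb (t + 1) (w.2.2 c) → g u = 0) :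
    tb.Ps.ce (sgt D ∅ t) g w ≤ tb.Ps.ce (sgt D ∅ (t + 1)) g w := by
  set m : Fin 3 → ℕ := fun j => if j = c then t + 1 else t with hm
  have hci : tb.Ps.CI (sgm (W := W) D m) (sgt (W := W) D ∅ (t + 1)) (sgt (W := W) D {c} t) := by
    refine Crd.ci (ind_Ps (tb := tb)) (sg_sgt ∅ (t + 1)) (sg_sgt {c} t) (sg_sgm m) fun i => ?_
    match i with
    | Sum.inl _ => exact (min_self _).symm
    | Sum.inr (Sum.inl _) => exact (min_self _).symm
    | Sum.inr (Sum.inr j) =>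
      show eC ∅ m j = min (eC ∅ (fun _ => t + 1) j) (eC {c} (fun _ => t) j)
      unfold eC
      rw [if_neg (Finset.notMem_empty j), if_neg (Finset.notMem_empty j)]
      by_cases hj : j = c
      · rw [if_pos (Finset.mem_singleton.2 hj), min_eq_left le_top]
        simp only [hm, if_pos hj]
      · rw [if_neg (fun hh => hj (Finset.mem_singleton.1 hh))]
        simp only [hm, if_neg hj]
        refine (min_eq_right ?_).symm
        exact_mod_cast Nat.le_succ (t + 1)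
  have hX : Fac (sgt (W := W) D ∅ (t + 1)) (sgm (W := W) D m) := by
    intro a b e
    obtain ⟨e1, _, e3⟩ := sgt_eq.1 e
    refine sgm_eq.2 ⟨e1, fun j => ?_⟩
    by_cases hj : j = c
    · simp only [hm, if_pos hj]
      exact e3 j
    · simp only [hm, if_neg hj]
      exact D.rb t _ _ (e3 j)
  rw [Crd.ce_ci hci hX hg hw]
  have hS : ∀ u, sgm D m u = sgm D m w → sgt (W := W) D ∅ t u = sgt D ∅ t w := by
    intro u e
    obtain ⟨e1, e2⟩ := sgm_eq.1 e
    refine sgt_eq.2 ⟨e1, fun j hj => absurd hj (Finset.notMem_empty j), fun j => ?_⟩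
    have e3 := e2 j
    by_cases hj : j = c
    · simp only [hm, if_pos hj] at e3
      exact D.rb t _ _ e3
    · simp only [hm, if_neg hj] at e3
      exact e3
  have e5 : tb.Ps.E (fun u => ind (sgt D ∅ t u = sgt D ∅ t w) * g u) =
      tb.Ps.E (fun u => ind (sgm D m u = sgm D m w) * g u) := by
    refine tb.Ps.E_congr fun u _ => ?_
    by_cases h1 : sgm D m u = sgm D m w
    · rw [ind_of h1, ind_of (hS u h1)]
    · rw [ind_not h1, zero_mul]
      by_cases h2 : sgt D ∅ t u = sgt D ∅ t w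
      · rw [hz u, mul_zero]
        intro h3
        refine h1 (sgm_eq.2 ⟨(sgt_eq.1 h2).1, fun j => ?_⟩)
        by_cases hj : j = c
        · simp only [hm, if_pos hj]
          rw [hj]
          exact h3
        · simp only [hm, if_neg hj]
          exact (sgt_eq.1 h2).2.2 j
      · rw [ind_not h2, zero_mul]
  have p1 := tb.Ps.m_pos (sgm (W := W) D m) hw
  have h5 : tb.Ps.m (sgm D m) w ≤ tb.Ps.m (sgt D ∅ t) w := tb.Ps.E_mono fun u _ => ind_mono fun e => hS u e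
  have h6 : 0 ≤ tb.Ps.E (fun u => ind (sgm D m u = sgm D m w) * g u) :=
    tb.Ps.E_nonneg fun u _ => mul_nonneg (ind_nonneg _) (hg0 u)
  unfold FP.ce
  rw [e5]
  exact div_le_div_of_nonneg_left h6 p1 h5

theorem ce_sup {Ω κ : Type*} [Fintype Ω] (P : FP Ω) {Z : Ω → κ} {f g : Ω → ℝ} {w : Ω}
    (hfg : ∀ u, P.p u ≠ 0 → Z u = Z w → f u = g u) : P.ce Z f w = P.ce Z g w := by
  unfold FP.ce
  congr 1
  refine P.E_congr fun u hu => ?_
  by_cases h1 : Z u = Z w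
  · rw [hfg u hu h1]
  · rw [ind_not h1, zero_mul, zero_mul]

theorem ce_sup_le {Ω κ : Type*} [Fintype Ω] (P : FP Ω) {Z : Ω → κ} {f g : Ω → ℝ} {w : Ω}
    (hfg : ∀ u, P.p u ≠ 0 → Z u = Z w → f u ≤ g u) : P.ce Z f w ≤ P.ce Z g w := by
  unfold FP.ce
  refine div_le_div_of_nonneg_right (P.E_mono fun u hu => ?_) (P.m_nonneg _ _)
  by_cases h1 : Z u = Z w
  · exact mul_le_mul_of_nonneg_left (hfg u hu h1) (ind_nonneg _)
  · rw [ind_not h1, zero_mul, zero_mul]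

theorem rk_pos (J : Finset (Fin 3)) : ¬ TP.rk J < 1 := by
  unfold TP.rk
  split_ifs <;> omega

theorem nc51 (t : ℕ) (J : Finset (Fin 3)) : TP.nc (5 * t + 1) J = t + 1 := by
  unfold TP.nc TP.ncj
  rw [show (5 * t + 1) % 5 = 1 by omega, show (5 * t + 1) / 5 = t by omega, if_neg (rk_pos J)]

theorem nn51 (t : ℕ) : TP.nn (5 * t + 1) = t + 1 := by
  unfold TP.nn TP.nnj
  rw [show (5 * t + 1) % 5 = 1 by omega, show (5 * t + 1) / 5 = t by omega, if_neg one_ne_zero]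

variable (v) in
/-- digit and class of the state `5 t` -/
def DN (dg : ℕ → X → ℝ) (t : ℕ) (w : Om W X β) : ℝ × (List (Pt (Fin 3) X β φ) × (γ × (Fin 3 → γ))) :=
  (dg t w.1, NPo tb v (5 * t) w)

/-- cells of the known points -/
def Yc (D : HD (Fin 3) X β γ φ) (t : ℕ) (w : Om W X β) : Fin 3 → γ := fun j => D.qb t (w.2.2 j)

theorem NP5_iff {t : ℕ} {a b : Om W X β} : NPo tb v (5 * t) a = NPo tb v (5 * t) b ↔
    Um v (t + 1) ∅ a.1 a.2.2 = Um v (t + 1) ∅ b.1 b.2.2 ∧ D.qa t a.1 = D.qa t b.1 ∧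
      ∀ j, D.qb t (a.2.2 j) = D.qb t (b.2.2 j) := by
  show ((Um v (TP.nc (5 * t) ∅) ∅ a.1 a.2.2, (D.qa (TP.nn (5 * t)) a.1, fun j => D.qb (TP.nn (5 * t)) (a.2.2 j))) =
    (Um v (TP.nc (5 * t) ∅) ∅ b.1 b.2.2, (D.qa (TP.nn (5 * t)) b.1, fun j => D.qb (TP.nn (5 * t)) (b.2.2 j)))) ↔ _
  rw [nc5, nn5, Prod.mk.injEq, Prod.mk.injEq, funext_iff]

theorem NP51_iff {t : ℕ} {a b : Om W X β} : NPo tb v (5 * t + 1) a = NPo tb v (5 * t + 1) b ↔
    Um v (t + 1) ∅ a.1 a.2.2 = Um v (t + 1) ∅ b.1 b.2.2 ∧ D.qa (t + 1) a.1 = D.qa (t + 1) b.1 ∧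
      ∀ j, D.qb (t + 1) (a.2.2 j) = D.qb (t + 1) (b.2.2 j) := by
  show ((Um v (TP.nc (5 * t + 1) ∅) ∅ a.1 a.2.2, (D.qa (TP.nn (5 * t + 1)) a.1,
      fun j => D.qb (TP.nn (5 * t + 1)) (a.2.2 j))) =
    (Um v (TP.nc (5 * t + 1) ∅) ∅ b.1 b.2.2, (D.qa (TP.nn (5 * t + 1)) b.1,
      fun j => D.qb (TP.nn (5 * t + 1)) (b.2.2 j)))) ↔ _
  rw [nc51, nn51, Prod.mk.injEq, Prod.mk.injEq, funext_iff]

theorem NP51_dig {dg : ℕ → X → ℝ} {Lam : ℝ} (H : D.Hyp dg prr al T Lam) {t : ℕ} (ht : t < T) {a b : Om W X β} :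
    NPo tb v (5 * t + 1) a = NPo tb v (5 * t + 1) b ↔
      (Yc D (t + 1) a, DN tb v dg t a) = (Yc D (t + 1) b, DN tb v dg t b) := by
  unfold Yc DN
  rw [NP51_iff, Prod.mk.injEq, Prod.mk.injEq, NP5_iff, funext_iff, H.dg_cell t ht]
  constructor
  · rintro ⟨h1, h2, h3⟩
    exact ⟨h3, h2.2, h1, h2.1, fun j => D.rb t _ _ (h3 j)⟩
  · rintro ⟨h3, h2, h1, h4, _⟩
    exact ⟨h1, ⟨h4, h2⟩, h3⟩

theorem DN_sgt (hv : Codes D v) (dg : ℕ → X → ℝ) (t : ℕ) : Fac (sgt (W := W) D ∅ t) (DN tb v dg t) := by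
  intro a b e
  unfold DN
  rw [NP_sgt tb hv t a b e, (sgt_eq.1 e).1]

theorem DN_nd (dg : ℕ → X → ℝ) (t : ℕ) : Fac (DN (W := W) tb v dg t) (ndE D ∅ t) := by
  intro a b e
  have h1 := (NP5_iff tb).1 (Prod.mk.inj e).2
  exact ndE_eq.2 ⟨h1.2.1, fun j hj => absurd hj (Finset.notMem_empty j), h1.2.2⟩

theorem Yc_fac (t : ℕ) : Fac (fun w : Om W X β => w.2.2) (Yc (W := W) D t) := by
  intro a b e
  have e' : a.2.2 = b.2.2 := e
  unfold Yc
  rw [e']

/-- the new class sees of the hidden point the digit only -/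
theorem ce_NP51 (hv : Codes D v) {dg : ℕ → X → ℝ} {Lam : ℝ} (H : D.Hyp dg prr al T Lam) {t : ℕ} (ht : t < T)
    {f : Om W X β → ℝ} (hf : Fac (sgt D ∅ t) f) {w : Om W X β} (hw : tb.Ps.p w ≠ 0) :
    tb.Ps.ce (NPo tb v (5 * t + 1)) f w = tb.Ps.ce (DN tb v dg t) f w := by
  rw [← ce_Y tb t (DN_sgt tb hv dg t) (DN_nd tb dg t) (Yc_fac (W := W) (X := X) (D := D) (t + 1)) hf hw]
  exact tb.Ps.ce_congr_map (fun a b e => (NP51_dig tb H ht).1 e) (fun a b e => (NP51_dig tb H ht).2 e) f w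

/-- the value of the digit has conditional probability at least `exp (-lam)` -/
def hvy (v : ℕ → Finset (Fin 3) → X → (Fin 3 → β) → Pt (Fin 3) X β φ) (dg : ℕ → X → ℝ) (lam : ℝ) (t : ℕ)
    (w : Om W X β) : Prop :=
  Real.exp (-lam) * tb.Ps.m (NPo tb v (5 * t)) w ≤ tb.Ps.m (DN tb v dg t) w

theorem dig_trans (hv : Codes D v) {dg : ℕ → X → ℝ} {Lam : ℝ} (H : D.Hyp dg prr al T Lam) {t : ℕ} (ht : t < T)
    {f : Om W X β → ℝ} (hf : Fac (sgt D ∅ t) f) (hf0 : ∀ u, 0 ≤ f u) {w : Om W X β} (hw : tb.Ps.p w ≠ 0) {lam : ℝ}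
    (hl : hvy tb v dg lam t w) :
    tb.Ps.ce (NPo tb v (5 * t + 1)) f w ≤ Real.exp lam * tb.Ps.ce (NPo tb v (5 * t)) f w := by
  rw [ce_NP51 tb hv H ht hf hw]
  have p1 := tb.Ps.m_pos (NPo tb v (5 * t)) hw
  have p2 := tb.Ps.m_pos (DN tb v dg t) hw
  have h3 : tb.Ps.E (fun u => ind (DN tb v dg t u = DN tb v dg t w) * f u) ≤
      tb.Ps.E (fun u => ind (NPo tb v (5 * t) u = NPo tb v (5 * t) w) * f u) :=
    tb.Ps.E_mono fun u _ => mul_le_mul_of_nonneg_right (ind_mono fun e => (Prod.mk.inj e).2) (hf0 u)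
  have h4 : 0 ≤ tb.Ps.E (fun u => ind (NPo tb v (5 * t) u = NPo tb v (5 * t) w) * f u) :=
    tb.Ps.E_nonneg fun u _ => mul_nonneg (ind_nonneg _) (hf0 u)
  have h5 : tb.Ps.m (NPo tb v (5 * t)) w ≤ Real.exp lam * tb.Ps.m (DN tb v dg t) w := by
    have h6 := mul_le_mul_of_nonneg_left hl (Real.exp_pos lam).le
    rw [← mul_assoc, ← Real.exp_add, add_neg_cancel, Real.exp_zero, one_mul] at h6
    exact h6
  unfold FP.ce
  rw [div_le_iff₀ p2, mul_div_assoc', div_mul_eq_mul_div, le_div_iff₀ p1]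
  have h7 := mul_le_mul_of_nonneg_right h3 p1.le
  have h8 := mul_le_mul_of_nonneg_left h5 h4
  linarith

/-- **the OLD event at the digit** -/
theorem dig_old {n N1 : ℝ} (hn : 1 ≤ n) (hN1 : 1 ≤ N1) (R : Run h (pr3 (Fin 3) n N1) (SS1 (Fin 3)) (AdmDep D) v)
    {dg : ℕ → X → ℝ} {Lam : ℝ} (H : D.Hyp dg prr al T Lam) {t : ℕ} (ht : t < T) (c : Fin 3) {w0 : Om W X β}
    (hw0 : tb.Ps.p w0 ≠ 0) {A : Om W X β → Prop} (hA : Fac (XN tb v c (5 * t)) A) {y lam : ℝ}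
    (hq : tb.Ps.ce (NPo tb v (5 * t)) (fun u => ind (A u)) w0 ≤ y / 32) (hl : hvy tb v dg lam t w0) :
    tb.Ps.ce (NPo tb v (5 * t + 1)) (fun u => ind (y ≤ tb.Ps.ce (sgt D ∅ (t + 1)) (fun u => ind (A u)) u)) w0 ≤
      Real.exp (1 + lam - N1 * y / 32) := by
  set G : Om W X β → Prop := fun u => y / 8 ≤ tb.Ps.ce (sgt D ∅ t) (fun u => ind (A u)) u with hG
  have fG : Fac (sgt (W := W) D ∅ t) (fun u => ind (G u)) := Fac.ind fun a b e => by
    simp only [hG]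
    rw [tb.Ps.ce_fac (sgt D ∅ t) _ a b e]
  have h1 : tb.Ps.ce (NPo tb v (5 * t + 1)) (fun u => ind (y ≤ tb.Ps.ce (sgt D ∅ (t + 1)) (fun u => ind (A u)) u)) w0 ≤
      tb.Ps.ce (NPo tb v (5 * t + 1)) (fun u => ind (G u)) w0 := by
    refine ce_sup_le tb.Ps fun u hu _ => ind_mono fun h2 => ?_
    have h3 := half_ge tb H ht (g := fun u => ind (A u)) (fun _ => ind_nonneg _) hu
    show y / 8 ≤ _
    linarith
  have h2 := dig_trans tb R.codes H ht fG (fun _ => ind_nonneg _) hw0 hl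
  have h3 := rare_dens tb hn hN1 R ht.le c hw0 hA (k := y / 8) (by linarith)
  have h4 := mul_le_mul_of_nonneg_left h3 (Real.exp_pos lam).le
  rw [← Real.exp_add] at h4
  have e : lam + (1 - N1 * (y / 8) / 4) = 1 + lam - N1 * y / 32 := by ring
  rw [e] at h4
  exact h1.trans (h2.trans h4)

theorem XL51 (c : Fin 3) (t : ℕ) : XLo (W := W) tb v c (5 * t + 1) = XLo tb v c (5 * t) := by
  funext u
  show (u.2.2 c, Um v (TP.nc (5 * t + 1) {c}) {c} u.1 u.2.2) = (u.2.2 c, Um v (TP.nc (5 * t) {c}) {c} u.1 u.2.2)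
  rw [nc51, nc5]

theorem NP51_sgt (hv : Codes D v) (t : ℕ) : Fac (sgt (W := W) D ∅ (t + 1)) (NPo tb v (5 * t + 1)) :=
  NPq_sgt tb hv (nn51 t).le (by rw [nc51]; omega) ∅ 0

/-- **the NEW event at the digit** -/
theorem dig_new {n N1 : ℝ} (hn : 1 ≤ n) (hN1 : 1 ≤ N1) (R : Run h (pr3 (Fin 3) n N1) (SS1 (Fin 3)) (AdmDep D) v)
    {dg : ℕ → X → ℝ} {Lam : ℝ} (H : D.Hyp dg prr al T Lam) {t : ℕ} (ht : t < T) (c : Fin 3) {w0 : Om W X β}
    (hw0 : tb.Ps.p w0 ≠ 0) {f : Om W X β → Prop} (hf : Fac (XN tb v c (5 * t + 1)) f) {y lam : ℝ}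
    (hq : tb.Ps.ce (NPo tb v (5 * t + 1)) (fun u => ind (f u)) w0 ≤ y / 128) (hl : hvy tb v dg lam t w0)
    (hlam : lam + 1 ≤ N1 * y / 256) :
    tb.Ps.ce (NPo tb v (5 * t + 1)) (fun u => ind (y ≤ tb.Ps.ce (sgt D ∅ (t + 1)) (fun u => ind (f u)) u)) w0 ≤
      Real.exp (1 + lam - N1 * y / 32) := by
  have hv := R.codes
  have hN : 0 < N1 := by linarith
  -- the event on the class of the state `5 t`
  set A : Om W X β → Prop := fun u => ∃ u', tb.Ps.p u' ≠ 0 ∧ NPo tb v (5 * t + 1) u' = NPo tb v (5 * t + 1) w0 ∧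
    XLo tb v c (5 * t + 1) u' = XLo tb v c (5 * t + 1) u ∧ f u' with hA
  set E : Om W X β → Prop := fun u => ∃ u', tb.Ps.p u' ≠ 0 ∧ u'.1 = u.1 ∧
    NPo tb v (5 * t + 1) u' = NPo tb v (5 * t + 1) w0 ∧
    y ≤ tb.Ps.ce (sgt D ∅ (t + 1)) (fun u => ind (f u)) u' with hE
  have fA : Fac (XN tb v c (5 * t)) A := by
    intro a b e
    have e1 : XLo tb v c (5 * t + 1) a = XLo tb v c (5 * t + 1) b := by
      rw [XL51]
      exact (Prod.mk.inj e).1
    simp only [hA]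
    rw [e1]
  have fE : Fac (sgt (W := W) D ∅ t) E := by
    intro a b e
    simp only [hE]
    rw [(sgt_eq.1 e).1]
  have hAf : ∀ u, tb.Ps.p u ≠ 0 → NPo tb v (5 * t + 1) u = NPo tb v (5 * t + 1) w0 → (A u ↔ f u) := by
    intro u hu e
    constructor
    · rintro ⟨u', _, h2, h3, h4⟩
      rw [← hf u' u (Prod.ext h3 (h2.trans e.symm))]
      exact h4
    · exact fun h1 => ⟨u, hu, e, rfl, h1⟩
  have hAi : ∀ u, tb.Ps.p u ≠ 0 → NPo tb v (5 * t + 1) u = NPo tb v (5 * t + 1) w0 → ind (A u) = ind (f u) :=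
    fun u hu e => congrArg ind (propext (hAf u hu e))
  -- the density on `E`
  have ha : ∀ u, tb.Ps.p u ≠ 0 → NPo tb v (5 * t) u = NPo tb v (5 * t) w0 → E u →
      y / 8 ≤ tb.Ps.ce (sgt D ∅ t) (fun u => ind (A u)) u := by
    rintro u _ hu ⟨u', h1, h2, h3, h4⟩
    have h5 : NPo tb v (5 * t) u' = NPo tb v (5 * t) w0 := NPo_fac tb (5 * t) u' w0 h3
    have h6 : sgt (W := W) D ∅ t u = sgt D ∅ t u' := by
      refine sgt_eq.2 ⟨h2.symm, fun j hj => absurd hj (Finset.notMem_empty j), fun j => ?_⟩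
      exact ((NP5_iff tb).1 (hu.trans h5.symm)).2.2 j
    rw [tb.Ps.ce_fac (sgt D ∅ t) _ u u' h6]
    have h7 := half_ge tb H ht (g := fun u => ind (A u)) (fun _ => ind_nonneg _) h1
    have h8 : tb.Ps.ce (sgt D ∅ (t + 1)) (fun u => ind (A u)) u' =
        tb.Ps.ce (sgt D ∅ (t + 1)) (fun u => ind (f u)) u' :=
      ce_sup tb.Ps fun x hx e => hAi x hx ((NP51_sgt tb hv t x u' e).trans h3)
    rw [h8] at h7
    linarith
  -- the mass of `A` under the digit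
  set st : Om W X β → Om W X β := fun u => (u.1, w0.2.1, w0.2.2) with hst
  have hsp : ∀ u, tb.Ps.p (st u) ≠ 0 := fun u => hw0
  set Hx : Om W X β → ℝ := fun u => tb.Ps.ce (sgt D ∅ (t + 1)) (fun u => ind (A u)) (st u) with hHx
  have fH : Fac (sgt (W := W) D ∅ t) Hx := by
    intro a b e
    simp only [hHx, hst]
    rw [(sgt_eq.1 e).1]
  have fA2 : Fac (sgt (W := W) D {c} t) (fun u => ind (A u)) := by
    refine Fac.ind fun a b e => ?_
    have e1 : XLo tb v c (5 * t + 1) a = XLo tb v c (5 * t + 1) b :=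
      XLq_sgt tb hv (q := 5 * t + 1) (n := t) (i := c) (by rw [nc51]) (E := {c}) (Finset.mem_singleton_self c) 0 a b e
    simp only [hA]
    rw [e1]
  have hb1 : tb.Ps.ce (DN tb v dg t) (fun u => ind (A u)) w0 ≤ tb.Ps.ce (DN tb v dg t) Hx w0 := by
    rw [← tb.Ps.ce_tower (DN_sgt tb hv dg t) (fun u => ind (A u)) w0]
    refine ce_sup_le tb.Ps fun u _ e => ?_
    have e1 := ((NP5_iff tb).1 (Prod.mk.inj e).2).2.2
    have e2 : sgt (W := W) D ∅ t u = sgt D ∅ t (st u) :=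
      sgt_eq.2 ⟨rfl, fun j hj => absurd hj (Finset.notMem_empty j), e1⟩
    rw [tb.Ps.ce_fac (sgt D ∅ t) _ u (st u) e2]
    refine ce_mix tb c t fA2 (fun _ => ind_nonneg _) (hsp u) fun x hx => ind_not fun hh => hx ?_
    obtain ⟨u', _, h2, h3, _⟩ := hh
    have h4 := ((NP51_iff tb).1 h2).2.2 c
    have h5 : u'.2.2 c = x.2.2 c := (Prod.mk.inj h3).1
    show D.qb (t + 1) (x.2.2 c) = D.qb (t + 1) (w0.2.2 c)
    rw [← h5]
    exact h4
  have hb2 : tb.Ps.ce (DN tb v dg t) Hx w0 = tb.Ps.ce (NPo tb v (5 * t + 1)) (fun u => ind (f u)) w0 := by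
    rw [← ce_NP51 tb hv H ht fH hw0]
    have e1 : tb.Ps.ce (NPo tb v (5 * t + 1)) Hx w0 =
        tb.Ps.ce (NPo tb v (5 * t + 1)) (tb.Ps.ce (sgt D ∅ (t + 1)) (fun u => ind (A u))) w0 := by
      refine ce_sup tb.Ps fun u _ e => ?_
      have e2 := ((NP51_iff tb).1 e).2.2
      refine tb.Ps.ce_fac (sgt D ∅ (t + 1)) _ (st u) u ?_
      exact sgt_eq.2 ⟨rfl, fun j hj => absurd hj (Finset.notMem_empty j), fun j => (e2 j).symm⟩
    rw [e1, tb.Ps.ce_tower (NP51_sgt tb hv t)]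
    exact ce_sup tb.Ps hAi
  have hb3 := back_sat tb hn hN1 R ht.le c hw0 (E := fun u => dg t u.1 = dg t w0.1) (A := A) (fun a b e => by
    show (_ = _) = (_ = _)
    rw [(sgt_eq.1 e).1]) fA (Z := DN tb v dg t) (fun u =>
    ⟨fun hh => Prod.ext hh.2 hh.1, fun hh => ⟨(Prod.mk.inj hh).2, (Prod.mk.inj hh).1⟩⟩)
  have p1 := tb.Ps.m_pos (NPo tb v (5 * t)) hw0
  have p2 := tb.Ps.m_pos (DN tb v dg t) hw0
  have hb4 : Real.log (tb.Ps.m (NPo tb v (5 * t)) w0 / tb.Ps.m (DN tb v dg t) w0) ≤ lam := by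
    rw [Real.log_le_iff_le_exp (div_pos p1 p2), div_le_iff₀ p2]
    have h6 := mul_le_mul_of_nonneg_left hl (Real.exp_pos lam).le
    rw [← mul_assoc, ← Real.exp_add, add_neg_cancel, Real.exp_zero, one_mul] at h6
    exact h6
  have hb5 : tb.Ps.ce (NPo tb v (5 * t)) (fun u => ind (A u)) w0 ≤ y / 8 / 4 := by
    have h6 : 4 / N1 * (Real.log (tb.Ps.m (NPo tb v (5 * t)) w0 / tb.Ps.m (DN tb v dg t) w0) + 1) ≤ y / 64 := by
      rw [div_mul_eq_mul_div, div_le_iff₀ hN]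
      nlinarith
    linarith
  -- rarity
  have hc := rare_sat tb hn hN1 R ht.le c hw0 fE fA ha hb5
  have hd : tb.Ps.ce (NPo tb v (5 * t + 1))
      (fun u => ind (y ≤ tb.Ps.ce (sgt D ∅ (t + 1)) (fun u => ind (f u)) u)) w0 ≤
      tb.Ps.ce (NPo tb v (5 * t + 1)) (fun u => ind (E u)) w0 :=
    ce_sup_le tb.Ps fun u hu e => ind_mono fun h1 => ⟨u, hu, rfl, e, h1⟩
  have he := dig_trans tb hv H ht (f := fun u => ind (E u)) (Fac.ind fun a b e => by rw [fE a b e])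
    (fun _ => ind_nonneg _) hw0 hl
  have h4 := mul_le_mul_of_nonneg_left hc (Real.exp_pos lam).le
  rw [← Real.exp_add] at h4
  have e : lam + (1 - N1 * (y / 8) / 4) = 1 + lam - N1 * y / 32 := by ring
  rw [e] at h4
  exact hd.trans (he.trans h4)

/-! ### the digits with a small conditional probability -/

/-- one class -/
theorem light_cls {Ω κ : Type*} [Fintype Ω] (P : FP Ω) {Z : Ω → κ} {d : Ω → ℝ} (hd : ∀ u, d u = 1 ∨ d u = -1) {e : ℝ}
    (he0 : 0 ≤ e) (he : e ≤ 1 / 4) {w : Ω} (hw : P.p w ≠ 0) :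
    P.ce Z (fun u => ind (P.m (fun x => (d x, Z x)) u < e * P.m Z u)) w ≤ 4 * e * P.ce Z d w ^ 2 := by
  set B : Ω → Prop := fun u => P.m (fun x => (d x, Z x)) u < e * P.m Z u with hB
  have pm := P.m_pos Z hw
  by_cases hex : ∃ u0, P.p u0 ≠ 0 ∧ Z u0 = Z w ∧ B u0
  · obtain ⟨u0, hu0, hz0, hb0⟩ := hex
    have hm0 : P.m Z u0 = P.m Z w := P.Fac_m Z u0 w hz0
    -- probability of the light value
    set q := P.ce Z (fun u => ind (d u = d u0)) w with hq
    have eq1 : ∀ a, Z a = Z w → P.m (fun x => (d x, Z x)) a = P.E (fun u => ind (Z u = Z w) * ind (d u = d a)) := by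
      intro a ha
      unfold FP.m
      refine P.E_congr fun u _ => ?_
      rw [Prod.mk.injEq, ind_and, ha, mul_comm]
    have hq1 : q = P.m (fun x => (d x, Z x)) u0 / P.m Z w := by
      rw [hq, eq1 u0 hz0]
      rfl
    have hq2 : q < e := by
      rw [hq1, div_lt_iff₀ pm, ← hm0]
      exact hb0
    have hq0 : 0 ≤ q := P.ce_nonneg (fun _ _ => ind_nonneg _) w
    -- the other value is not light
    have hB1 : ∀ u, P.p u ≠ 0 → Z u = Z w → B u → d u = d u0 := by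
      intro u hu hz hb
      by_contra hne
      have hmu : P.m Z u = P.m Z w := P.Fac_m Z u w hz
      have h1 : P.m Z w ≤ P.m (fun x => (d x, Z x)) u + P.m (fun x => (d x, Z x)) u0 := by
        rw [eq1 u hz, eq1 u0 hz0, ← P.E_add]
        refine P.E_mono fun x _ => ?_
        by_cases hx : Z x = Z w
        · rw [ind_of hx, one_mul, one_mul]
          have h2 : d x = d u ∨ d x = d u0 := by
            rcases hd x with a | a <;> rcases hd u with b | b <;> rcases hd u0 with c | c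
            · exact Or.inl (a.trans b.symm)
            · exact Or.inl (a.trans b.symm)
            · exact Or.inr (a.trans c.symm)
            · exact absurd (b.trans c.symm) hne
            · exact absurd (b.trans c.symm) hne
            · exact Or.inr (a.trans c.symm)
            · exact Or.inl (a.trans b.symm)
            · exact Or.inl (a.trans b.symm)
          rcases h2 with h3 | h3
          · rw [ind_of h3]
            have := ind_nonneg (d x = d u0)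
            linarith
          · rw [ind_of h3]
            have := ind_nonneg (d x = d u)
            linarith
        · rw [ind_not hx, zero_mul, zero_mul, add_zero]
      have h3 : P.m (fun x => (d x, Z x)) u < e * P.m Z w := by rw [← hmu]; exact hb
      have h4 : P.m (fun x => (d x, Z x)) u0 < e * P.m Z w := by rw [← hm0]; exact hb0
      nlinarith
    have h5 : P.ce Z (fun u => ind (B u)) w ≤ q := ce_sup_le P fun u hu hz => ind_mono fun hb => hB1 u hu hz hb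
    have h6 : P.ce Z d w = d u0 * (2 * q - 1) := by
      have h7 : P.ce Z d w = P.ce Z (fun u => 2 * d u0 * ind (d u = d u0) + -d u0) w := by
        refine P.ce_congr (fun u _ => ?_) w
        by_cases hu : d u = d u0
        · rw [ind_of hu, hu]
          ring
        · rw [ind_not hu]
          rcases hd u with a | a <;> rcases hd u0 with b | b
          · exact absurd (a.trans b.symm) hu
          · rw [a, b]
            ring
          · rw [a, b]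
            ring
          · exact absurd (a.trans b.symm) hu
      rw [h7, P.ce_add, P.ce_smul, P.ce_const _ _ hw, ← hq]
      ring
    have h8 : d u0 ^ 2 = 1 := by rcases hd u0 with a | a <;> rw [a] <;> norm_num
    rw [h6, mul_pow, h8, one_mul]
    have h9 : 1 / 4 ≤ (2 * q - 1) ^ 2 := by nlinarith
    have h10 : 0 ≤ e := hq0.trans hq2.le
    have h11 := mul_le_mul_of_nonneg_left h9 (show 0 ≤ 4 * e by linarith)
    show P.ce Z (fun u => ind (B u)) w ≤ _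
    linarith
  · have h1 : P.ce Z (fun u => ind (B u)) w = 0 := by
      rw [ce_sup P (g := fun _ => 0) fun u hu hz => ind_not fun hb => hex ⟨u, hu, hz, hb⟩, P.ce_const _ _ hw]
    show P.ce Z (fun u => ind (B u)) w ≤ _
    rw [h1]
    positivity

variable {tb} in
theorem hvy_fac {dg : ℕ → X → ℝ} {lam : ℝ} {t : ℕ} {a b : Om W X β} (e : DN tb v dg t a = DN tb v dg t b) :
    hvy tb v dg lam t a ↔ hvy tb v dg lam t b := by
  unfold hvy
  rw [tb.Ps.Fac_m (DN tb v dg t) a b e, tb.Ps.Fac_m (NPo tb v (5 * t)) a b (Prod.mk.inj e).2]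

/-- **the digits with a small conditional probability** -/
theorem sum_light {n N1 : ℝ} (hn : 1 ≤ n) (hN1 : 1 ≤ N1) (R : Run h (pr3 (Fin 3) n N1) (SS1 (Fin 3)) (AdmDep D) v)
    {dg : ℕ → X → ℝ} {Lam : ℝ} (H : D.Hyp dg prr al T Lam) {lam : ℝ} (hlam : Real.exp (-lam) ≤ 1 / 4) :
    ∑ t ∈ range T, tb.Ps.Pr (fun w => ¬ hvy tb v dg lam t w) ≤ 32 * Real.exp (-lam) * (n * N1 * Lam) := by
  have he0 := (Real.exp_pos (-lam)).le
  have h1 : ∀ t ∈ range T, tb.Ps.Pr (fun w => ¬ hvy tb v dg lam t w) ≤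
      4 * Real.exp (-lam) * (D.P h t).E (fun w => mm (UU v) h dg t w ^ 2) := by
    intro t ht
    have H0 : Pul tb.Ps (D.P h t) (tb.pt t) := pul_pt h tb (Finset.mem_range.1 ht).le
    have e1 : tb.Ps.Pr (fun w => ¬ hvy tb v dg lam t w) =
        tb.Ps.E (tb.Ps.ce (NPo tb v (5 * t)) (fun u => ind (¬ hvy tb v dg lam t u))) := (tb.Ps.E_ce _ _).symm
    have e2 : ∀ w, tb.Ps.ce (NPo tb v (5 * t)) (fun u => dg t u.1) w = mm (UU v) h dg t (tb.pt t w) := by
      intro w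
      have e3 := H0.ce (NPq D v (5 * t)) (fun u => dg t u.1) w
      have e4 : tb.Ps.ce (NPo tb v (5 * t)) (fun u => dg t u.1) w =
          (D.P h t).ce (NPq D v (5 * t)) (fun u => dg t u.1) (tb.pt t w) := e3
      have e5 : (NPq (φ := φ) D v (5 * t)) = V3.NP D v (t + 1) t := by
        funext u
        show V3.NP D v (TP.nc (5 * t) ∅) (TP.nn (5 * t)) u = _
        rw [nc5, nn5]
      rw [e4, V3.DA.mm_NP, e5]
    rw [e1, ← H0.E, ← FP.E_smul]
    refine tb.Ps.E_mono fun w hw => ?_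
    rw [← e2 w]
    refine le_trans (le_of_eq ?_) (light_cls tb.Ps (Z := NPo tb v (5 * t)) (d := fun u => dg t u.1)
      (fun u => H.dg_val t u.1) he0 hlam hw)
    refine tb.Ps.ce_congr (fun u _ => ?_) w
    exact congrArg ind (propext not_le)
  refine (Finset.sum_le_sum h1).trans ?_
  rw [← Finset.mul_sum]
  have h2 := mul_le_mul_of_nonneg_left (V3.VT.sum_mm H hn hN1 R) (show 0 ≤ 4 * Real.exp (-lam) by positivity)
  linarith

end run

end

end Pool.Agent.GMH.GamR
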