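import Pool.Agent.GMH.VVi
import Pool.Agent.GMH.MV9
import Pool.Agent.GMH.GamR

/-!
# GMH/GamI (helper18): RARITY OF THE DENSITY OF THE STATUS SETS (H3.MOV, M.6), run instance

`ldg s` : the step `s < 5 T` is a digit whose value has conditional probability `< exp (-lam)` in the public class.
* **`gam_ok`** : `GamOK (USi ..) (5 T) y0 rho (ldg ..)`, `rho = exp (-(7 N1 y0 / 256))`, `lam = N1 y0 / 256 - 1`, hypotheses
  `128 z ≤ y0`, `1024 ≤ N1 y0`;
* **`sum_ldg`** : `∑_(s < 5 T) P (ldg s) ≤ 32 exp (1 - N1 y0 / 256) n N1 Lam`;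
* `RR_le` : the total of the rare events.
-/

set_option autoImplicit false
set_option linter.unusedSectionVars false

namespace Pool.Agent.GMH.GamR

open Finset Pool.Agent.PWZ Pool.Agent.M3 Pool.Agent.GM Pool.Agent.GM.Harm Pool.Agent.GMH
open Pool.Agent.GMH.TP Pool.Agent.GMH.TD Pool.Agent.GMH.CK Pool.Agent.GMH.MV Pool.Agent.GMH.MVI Pool.Agent.GMH.UV
open Pool.Agent.GMH.Dy Pool.Agent.GMH.VV

noncomputable section

section run

variable {X β γ φ : Type} [Fintype X] [Fintype β] [Fintype φ] [Nonempty X] [Nonempty β]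
variable {D : HD (Fin 3) X β γ φ} {al : ℝ} {h : D.Thick al} {prr : ℕ → Fin 3 → φ → φ} {T : ℕ} {W : Type} [Fintype W]
variable (tb : Tab D prr T W) {v : ℕ → Finset (Fin 3) → X → (Fin 3 → β) → Pt (Fin 3) X β φ}

variable (v) in
/-- a digit of small conditional probability -/
def ldg (dg : ℕ → X → ℝ) (lam : ℝ) (s : ℕ) (w : Om W X β) : Prop := s < 5 * T ∧ s % 5 = 0 ∧ ¬ hvy tb v dg lam (s / 5) w

theorem NPo_code {s : ℕ} (h2 : 2 ≤ s % 5) : NPo (W := W) tb v (s + 1) = NPo tb v s := by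
  funext w
  exact congrFun (NPq_code (D := D) (v := v) h2) (tb.pt 0 w)

/-- the state of the next saturated level -/
theorem st_up {s : ℕ} (h1 : s % 5 ≠ 1) : NPo (W := W) tb v s = NPo tb v (5 * ((s + 3) / 5)) ∧
    TP.nn s = (s + 3) / 5 ∧ s ≤ 5 * ((s + 3) / 5) := by
  obtain ⟨t, j, hj, rfl⟩ : ∃ t j, j < 5 ∧ s = 5 * t + j := ⟨s / 5, s % 5, Nat.mod_lt _ (by norm_num), by omega⟩
  have e4 : NPo (W := W) tb v (5 * t + 5) = NPo tb v (5 * t + 4) := NPo_code tb (s := 5 * t + 4) (by omega)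
  have e3 : NPo (W := W) tb v (5 * t + 4) = NPo tb v (5 * t + 3) := NPo_code tb (s := 5 * t + 3) (by omega)
  have e2 : NPo (W := W) tb v (5 * t + 3) = NPo tb v (5 * t + 2) := NPo_code tb (s := 5 * t + 2) (by omega)
  interval_cases j
  · have e : (5 * t + 0 + 3) / 5 = t := by omega
    rw [e]
    exact ⟨rfl, nn5 t, by omega⟩
  · exact absurd (by omega) h1
  · have e : (5 * t + 2 + 3) / 5 = t + 1 := by omega
    have e' : 5 * (t + 1) = 5 * t + 5 := by ring
    rw [e, e', e4, e3, e2]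
    exact ⟨rfl, nn_j t (by norm_num) (by norm_num), by omega⟩
  · have e : (5 * t + 3 + 3) / 5 = t + 1 := by omega
    have e' : 5 * (t + 1) = 5 * t + 5 := by ring
    rw [e, e', e4, e3]
    exact ⟨rfl, nn_j t (by norm_num) (by norm_num), by omega⟩
  · have e : (5 * t + 4 + 3) / 5 = t + 1 := by omega
    have e' : 5 * (t + 1) = 5 * t + 5 := by ring
    rw [e, e', e4]
    exact ⟨rfl, nn_j t (by norm_num) (by norm_num), by omega⟩

/-- **rarity at every state which is not just after a digit** -/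
theorem rare_up {n N1 : ℝ} (hn : 1 ≤ n) (hN1 : 1 ≤ N1) (R : Run h (pr3 (Fin 3) n N1) (SS1 (Fin 3)) (AdmDep D) v)
    {s : ℕ} (hs : s ≤ 5 * T) (h1 : s % 5 ≠ 1) (c : Fin 3) {w : Om W X β} (hw : tb.Ps.p w ≠ 0) {A : Om W X β → Prop}
    (hA : Fac (XN tb v c s) A) {k : ℝ} (hq : tb.Ps.ce (NPo tb v s) (fun u => ind (A u)) w ≤ k / 4) :
    tb.Ps.ce (NPo tb v s) (fun u => ind (k ≤ tb.Ps.ce (sgt D ∅ (TP.nn s)) (fun u => ind (A u)) u)) w ≤
      Real.exp (1 - N1 * k / 4) := by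
  obtain ⟨e1, e2, e3⟩ := st_up (W := W) tb (v := v) h1
  have hA' : Fac (XN tb v c (5 * ((s + 3) / 5))) A := by
    intro a b e
    refine hA a b ?_
    exact Prod.ext (XLo_le tb v c e3 a b (Prod.mk.inj e).1) (NPo_le tb v e3 a b (Prod.mk.inj e).2)
  have hT : (s + 3) / 5 ≤ T := by omega
  rw [e1] at hq ⊢
  rw [e2]
  exact rare_dens tb hn hN1 R hT c hw hA' hq

variable {d1 kb d0 k0 p1 z : ℝ} (hd1 : 0 < d1) (hd11 : d1 ≤ 1) (hkb : 0 < kb) (hd0 : 0 < d0)
  (hd01 : d0 ≤ 1) (hk0 : 0 < k0) (hp1 : 0 < p1) (hz : 0 < z)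

theorem ind_ce_one {Ω κ : Type*} [Fintype Ω] (P : FP Ω) (Z : Ω → κ) (A : Ω → Prop) {w : Ω} (hw : P.p w ≠ 0) :
    P.ce Z (fun u => ind (A u)) w ≤ 1 := P.ce_le_const (fun _ _ => ind_le_one _) hw

/-- **GAMR** -/
theorem gam_ok {n N1 : ℝ} (hn : 1 ≤ n) (hN1 : 1 ≤ N1) (R : Run h (pr3 (Fin 3) n N1) (SS1 (Fin 3)) (AdmDep D) v)
    {dg : ℕ → X → ℝ} {Lam : ℝ} (H : D.Hyp dg prr al T Lam) (hzz : 8 * Real.exp (4 * Lam) * kb / p1 ≤ z) {y0 : ℝ}
    (hz0 : 128 * z ≤ y0) (hy0 : 1024 ≤ N1 * y0) :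
    GamOK (USi tb R.codes d1 kb d0 k0 p1 z hd1 hd11 hkb hd0 hd01 hk0 hp1 hz) (5 * T) y0
      (Real.exp (-(7 * N1 * y0 / 256))) (ldg tb v dg (N1 * y0 / 256 - 1)) := by
  set M0 := MSi tb (v := v) d1 kb d0 k0 p1 z hd1 hd11 hkb hd0 hd01 hk0 hp1 hz with hM0
  have hTk := (thks h tb v hd1 hd11 hkb hd0 hd01 hk0 hp1 hz H).thk
  have hmass : ∀ c s w, tb.Ps.p w ≠ 0 → tb.Ps.ce (NPo tb v s) (fun u => ind (sts M0 c s u)) w ≤ z := fun c s w hw =>
    hysnu_mass' M0 hTk hzz c s hw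
  have hfac : ∀ c s, Fac (XN tb v c s) (sts M0 c s) := fun c s => sts_fac (M := M0) c s
  have hN0 : 0 < N1 := by linarith
  have hy : 0 < y0 := by
    by_contra hh
    have := mul_nonpos_of_nonneg_of_nonpos hN0.le (not_lt.1 hh)
    linarith
  have hrho : Real.exp (1 - N1 * y0 / 4) ≤ Real.exp (-(7 * N1 * y0 / 256)) := Real.exp_le_exp.2 (by nlinarith)
  have hrho2 : Real.exp (1 + (N1 * y0 / 256 - 1) - N1 * y0 / 32) = Real.exp (-(7 * N1 * y0 / 256)) := by
    congr 1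
    ring
  refine ⟨?_, ?_, ?_⟩
  · -- what sees the light digits
    intro s a b hab
    unfold ldg
    refine and_congr_right fun hs => and_congr_right fun h5 => not_congr ?_
    have e : s = 5 * (s / 5) := by omega
    have hab' : NPo tb v (5 * (s / 5) + 1) a = NPo tb v (5 * (s / 5) + 1) b := by rw [← e]; exact hab
    exact hvy_fac (Prod.mk.inj ((NP51_dig tb H (show s / 5 < T by omega)).1 hab')).2
  · -- ends
    intro c s hs w hw hlt
    have hi := ind_nonneg (ldg tb v dg (N1 * y0 / 256 - 1) s w)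
    have hc1 := ind_ce_one tb.Ps (NPo tb v (s + 1))
      (fun u => y0 ≤ tb.Ps.ce (sgt D ∅ (TP.nn (s + 1))) (fun x => ind (sts M0 c s x)) u) hw
    show tb.Ps.ce (NPo tb v (s + 1)) (fun u => ind (y0 ≤ tb.Ps.ce (sgt D ∅ (TP.nn (s + 1)))
      (fun x => ind (sts M0 c s x)) u)) w ≤ _
    by_cases h5 : s % 5 = 0
    · obtain ⟨t, rfl⟩ : ∃ t, s = 5 * t := ⟨s / 5, by omega⟩
      have ht : t < T := by omega
      have e0 : 5 * t / 5 = t := by omega
      by_cases hv2 : hvy tb v dg (N1 * y0 / 256 - 1) t w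
      · have h1 := dig_old tb hn hN1 R H ht c hw (A := sts M0 c (5 * t)) (hfac c (5 * t)) (y := y0)
          (lam := N1 * y0 / 256 - 1) (by
          have := hmass c (5 * t) w hw
          linarith) hv2
        rw [hrho2] at h1
        rw [nn51]
        linarith
      · have h1 : ind (ldg tb v dg (N1 * y0 / 256 - 1) (5 * t) w) = 1 := ind_of ⟨hs, h5, by rw [e0]; exact hv2⟩
        have := (Real.exp_pos (-(7 * N1 * y0 / 256))).le
        rw [h1]
        linarith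
    · have h1 : (s + 1) % 5 ≠ 1 := by omega
      have hA : Fac (XN tb v c (s + 1)) (sts M0 c s) := fun a b e =>
        hfac c s a b (Prod.ext (XLo_fac tb c s a b (Prod.mk.inj e).1) (NPo_fac tb s a b (Prod.mk.inj e).2))
      have hq : tb.Ps.ce (NPo tb v (s + 1)) (fun u => ind (sts M0 c s u)) w ≤ y0 / 4 := by
        have hm := hmass c s w hw
        have hp1' := tb.Ps.m_pos (NPo tb v (s + 1)) hw
        have hp2' := tb.Ps.m_pos (NPo tb v s) hw
        have h2 : tb.Ps.m (NPo tb v s) w ≤ 2 * tb.Ps.m (NPo tb v (s + 1)) w := by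
          by_contra hh
          exact hlt ⟨h5, not_le.1 hh⟩
        have h3 : tb.Ps.E (fun u => ind (NPo tb v (s + 1) u = NPo tb v (s + 1) w) * ind (sts M0 c s u)) ≤
            tb.Ps.E (fun u => ind (NPo tb v s u = NPo tb v s w) * ind (sts M0 c s u)) :=
          tb.Ps.E_mono fun u _ => mul_le_mul_of_nonneg_right (ind_mono fun e => NPo_fac tb s u w e) (ind_nonneg _)
        unfold FP.ce at hm ⊢
        rw [div_le_iff₀ hp2'] at hm
        rw [div_le_iff₀ hp1']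
        nlinarith
      have h2 := rare_up tb hn hN1 R (show s + 1 ≤ 5 * T by omega) h1 c hw hA hq
      linarith
  · -- starts
    intro c s hs w hw _
    have hi := ind_nonneg (0 < s ∧ ldg tb v dg (N1 * y0 / 256 - 1) (s - 1) w)
    have hc1 := ind_ce_one tb.Ps (NPo tb v s)
      (fun u => y0 ≤ tb.Ps.ce (sgt D ∅ (TP.nn s)) (fun x => ind (sts M0 c s x)) u) hw
    show tb.Ps.ce (NPo tb v s) (fun u => ind (y0 ≤ tb.Ps.ce (sgt D ∅ (TP.nn s))
      (fun x => ind (sts M0 c s x)) u)) w ≤ _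
    by_cases h5 : s % 5 = 1
    · obtain ⟨t, rfl⟩ : ∃ t, s = 5 * t + 1 := ⟨s / 5, by omega⟩
      have ht : t < T := by omega
      by_cases hv2 : hvy tb v dg (N1 * y0 / 256 - 1) t w
      · have h1 := dig_new tb hn hN1 R H ht c hw (f := sts M0 c (5 * t + 1)) (hfac c (5 * t + 1)) (y := y0)
          (lam := N1 * y0 / 256 - 1) (by
          have := hmass c (5 * t + 1) w hw
          linarith) hv2 (by linarith)
        rw [hrho2] at h1
        rw [nn51]
        linarith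
      · have h1 : ind (0 < 5 * t + 1 ∧ ldg tb v dg (N1 * y0 / 256 - 1) (5 * t + 1 - 1) w) = 1 := by
          refine ind_of ⟨by omega, by omega, by omega, ?_⟩
          rw [show (5 * t + 1 - 1) / 5 = t by omega]
          exact hv2
        have := (Real.exp_pos (-(7 * N1 * y0 / 256))).le
        rw [h1]
        linarith
    · have h2 := rare_up tb hn hN1 R (show s ≤ 5 * T by omega) h5 c hw (hfac c s) (k := y0) (by
        have := hmass c s w hw
        linarith)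
      linarith

theorem sum5 (T : ℕ) (g : ℕ → ℝ) : ∑ s ∈ range (5 * T), (if s % 5 = 0 then g (s / 5) else 0) = ∑ t ∈ range T, g t := by
  induction T with
  | zero => simp
  | succ T ih =>
    rw [show 5 * (T + 1) = 5 * T + 1 + 1 + 1 + 1 + 1 by ring, Finset.sum_range_succ, Finset.sum_range_succ,
      Finset.sum_range_succ, Finset.sum_range_succ, Finset.sum_range_succ, ih, Finset.sum_range_succ,
      if_pos (by omega), if_neg (by omega), if_neg (by omega), if_neg (by omega), if_neg (by omega),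
      show 5 * T / 5 = T by omega]
    ring

/-- **the digits of small conditional probability** -/
theorem sum_ldg {n N1 : ℝ} (hn : 1 ≤ n) (hN1 : 1 ≤ N1) (R : Run h (pr3 (Fin 3) n N1) (SS1 (Fin 3)) (AdmDep D) v)
    {dg : ℕ → X → ℝ} {Lam : ℝ} (H : D.Hyp dg prr al T Lam) {lam : ℝ} (hlam : 2 ≤ lam) :
    ∑ s ∈ range (5 * T), tb.Ps.Pr (ldg tb v dg lam s) ≤ 32 * Real.exp (-lam) * (n * N1 * Lam) := by
  have he : Real.exp (-lam) ≤ 1 / 4 := by
    have h1 : Real.exp (-lam) ≤ Real.exp (-2) := Real.exp_le_exp.2 (by linarith)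
    have h2 : Real.exp (-2) ≤ 1 / 4 := by
      have h3 := Real.exp_one_gt_d9
      have h4 : Real.exp 2 = Real.exp 1 * Real.exp 1 := by rw [← Real.exp_add]; norm_num
      rw [Real.exp_neg, one_div]
      exact inv_anti₀ (by norm_num) (by rw [h4]; nlinarith)
    exact h1.trans h2
  refine le_trans (Finset.sum_le_sum (g := fun s => if s % 5 = 0 then tb.Ps.Pr (fun w => ¬ hvy tb v dg lam (s / 5) w) else 0)
    fun s _ => ?_) ((sum5 T fun t => tb.Ps.Pr (fun w => ¬ hvy tb v dg lam t w)).le.trans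
      (sum_light tb hn hN1 R H he))
  by_cases h5 : s % 5 = 0
  · rw [if_pos h5]
    exact tb.Ps.Pr_mono fun w _ hh => hh.2.2
  · rw [if_neg h5]
    refine le_of_eq ?_
    unfold FP.Pr
    rw [← tb.Ps.E_const 0]
    exact tb.Ps.E_congr fun w _ => ind_not fun hh => h5 hh.2.1

/-- **the total of the rare events** -/
theorem RR_le {n N1 : ℝ} (hn : 1 ≤ n) (hN1 : 1 ≤ N1) (R : Run h (pr3 (Fin 3) n N1) (SS1 (Fin 3)) (AdmDep D) v)
    {dg : ℕ → X → ℝ} {Lam : ℝ} (H : D.Hyp dg prr al T Lam) {y0 : ℝ} (hy0 : 1024 ≤ N1 * y0) :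
    RR (USi tb R.codes d1 kb d0 k0 p1 z hd1 hd11 hkb hd0 hd01 hk0 hp1 hz) (5 * T) (Real.exp (-(7 * N1 * y0 / 256)))
      (ldg tb v dg (N1 * y0 / 256 - 1)) ≤
      Real.exp (-(7 * N1 * y0 / 256)) *
        (1 + N0 (MSi tb (v := v) d1 kb d0 k0 p1 z hd1 hd11 hkb hd0 hd01 hk0 hp1 hz) (5 * T)) +
        32 * Real.exp (1 - N1 * y0 / 256) * (n * N1 * Lam) := by
  have h1 := sum_ldg tb hn hN1 R H (lam := N1 * y0 / 256 - 1) (by linarith)
  rw [show -(N1 * y0 / 256 - 1) = 1 - N1 * y0 / 256 by ring] at h1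
  exact add_le_add le_rfl h1

end run

end

end Pool.Agent.GMH.GamR
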