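import Pool.Agent.GMH.ConTM2
import Pool.Agent.GMH.GamI

/-!
# GMH/ConTM3: the numbers of GAMR (`GamR.gam_ok`, `GamR.RR_le`) and of two vertices with status with them (helper41)

`y0 = pQ ^ 3 / N1` (`CTM.y0`), `rho = exp (-(7 N1 y0 / 256))`.
-/

set_option autoImplicit false
set_option linter.unusedSectionVars false

namespace Pool.Agent.GMH.CTM

open Pool.Agent.GMH Pool.Agent.GMH.V3 Pool.Agent.GMH.MVN

theorem N1y0 {Lam : ℝ} (hL : 2 ≤ Lam) (A c0 : ℕ) : pw Lam (c1F A c0) * y0 Lam A c0 = pQ Lam c0 ^ 2 * pQ Lam c0 := by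
  have q := pw_pos hL (c1F A c0)
  unfold y0 pQ
  rw [mul_div_cancel₀ _ q.ne', ← pw_mul_self8]
  where
  pw_mul_self8 : pw Lam (8 * c0) ^ 2 * pw Lam (8 * c0) = pw Lam (24 * c0) := by
    unfold pw
    rw [← pow_mul, ← pow_add]
    congr 1
    ring

/-- **GAMR** : the side conditions and the total of the rare events -/
theorem gam_num (A ka : ℕ) : Ev (fun c0 Lam =>
    8 * Real.exp (4 * Lam) * kb Lam ka c0 / p1 Lam A c0 ≤ z Lam ka c0 ∧ 128 * z Lam ka c0 ≤ y0 Lam A c0 ∧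
    1024 ≤ pw Lam (c1F A c0) * y0 Lam A c0 ∧ z Lam ka c0 < 1 ∧ 2 * y0 Lam A c0 ≤ yp Lam A c0 ∧ 0 < y0 Lam A c0 ∧
    ∀ N0 : ℝ, 0 ≤ N0 → N0 ≤ Real.exp (4 * pQ Lam c0) →
      Real.exp (-(7 * pw Lam (c1F A c0) * y0 Lam A c0 / 256)) * (1 + N0) +
        32 * Real.exp (1 - pw Lam (c1F A c0) * y0 Lam A c0 / 256) * (pw Lam c0 * pw Lam (c1F A c0) * Lam) ≤
        Real.exp (-(pQ Lam c0 ^ 2)) ∧
      Real.exp (-(7 * pw Lam (c1F A c0) * y0 Lam A c0 / 256)) * (1 + N0) +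
        32 * Real.exp (1 - pw Lam (c1F A c0) * y0 Lam A c0 / 256) * (pw Lam c0 * pw Lam (c1F A c0) * Lam) ≤
        (pw Lam (40 * (c1F A c0 + c0)))⁻¹) := by
  refine Ev.mono (((scales A ka 1024).and (scales A 0 4096)).and (z_side A ka)) fun c0 Lam hL
    ⟨⟨⟨h1, h2, _, h4⟩, _, _, h3, _⟩, s1, s2, s3, s4⟩ => ?_
  have o := one_ell hL A c0
  have p := pe_pos hL ka c0
  have q := pQ_pos hL c0
  push_cast at h1 h2 h3
  have hp4 : 4096 ≤ pQ Lam c0 := by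
    have a1 : 4096 * pQ Lam c0 ≤ pQ Lam c0 * pQ Lam c0 := by rw [← sq]; exact h3
    exact le_of_mul_le_mul_right a1 q
  have hsq : pQ Lam c0 ≤ pQ Lam c0 ^ 2 := by nlinarith
  have e := N1y0 hL A c0
  have hc3 : 4096 * pQ Lam c0 ^ 2 ≤ pw Lam (c1F A c0) * y0 Lam A c0 := by
    rw [e, mul_comm]
    exact mul_le_mul_of_nonneg_left hp4 (sq_nonneg _)
  have hL0 : (0 : ℝ) ≤ Lam := by linarith
  have q1 := pw_pos hL c0
  have q2 := pw_pos hL (c1F A c0)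
  have key : ∀ N0 : ℝ, 0 ≤ N0 → N0 ≤ Real.exp (4 * pQ Lam c0) →
      Real.exp (-(7 * pw Lam (c1F A c0) * y0 Lam A c0 / 256)) * (1 + N0) +
        32 * Real.exp (1 - pw Lam (c1F A c0) * y0 Lam A c0 / 256) * (pw Lam c0 * pw Lam (c1F A c0) * Lam) ≤
        Real.exp (-(pQ Lam c0 ^ 2)) := by
    intro N0 n0 n1
    have b1 : 1 + N0 ≤ Real.exp (4 * pQ Lam c0 + 1) := addE (a := 0) (by rw [Real.exp_zero]) n1 (by linarith) le_rfl
    have b2 : Real.exp (-(7 * pw Lam (c1F A c0) * y0 Lam A c0 / 256)) * (1 + N0) ≤ Real.exp (-(pQ Lam c0 ^ 2) - 1) := by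
      refine (mulE (by linarith) le_rfl b1).trans (leE ?_)
      have : 7 * pw Lam (c1F A c0) * y0 Lam A c0 = 7 * (pw Lam (c1F A c0) * y0 Lam A c0) := by ring
      rw [this]
      nlinarith
    have b3 : pw Lam c0 * pw Lam (c1F A c0) * Lam ≤ Real.exp (9 * ell Lam A c0) :=
      NL_ell hL A (c0 := c0) (by omega) (by
        have : 0 ≤ pw Lam c0 * pw Lam (c1F A c0) * Lam := by positivity
        linarith)
    have b4 : 32 * Real.exp (1 - pw Lam (c1F A c0) * y0 Lam A c0 / 256) * (pw Lam c0 * pw Lam (c1F A c0) * Lam) ≤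
        Real.exp (-(pQ Lam c0 ^ 2) - 1) := by
      refine (mulE (by positivity) (mulE (Real.exp_pos _).le (cexp 5 (c := 32) (by norm_num)) le_rfl) b3).trans (leE ?_)
      push_cast
      nlinarith
    exact addE b2 b4 (by linarith) (by linarith)
  refine ⟨s1, ?_, ?_, s2, s3, s4, fun N0 n0 n1 => ⟨key N0 n0 n1, (key N0 n0 n1).trans ((leE ?_).trans
    (inv_ell hL A c0 (k := 40) (by omega)))⟩⟩
  · have b1 : 128 * z Lam ka c0 ≤ Real.exp (-((1 : ℕ) * ell Lam A c0)) := by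
      unfold z
      refine (mulE (Real.exp_pos _).le (cexp 7 (c := 128) (by norm_num)) le_rfl).trans (leE ?_)
      push_cast
      linarith
    refine (b1.trans (inv_ell hL A c0 (k := 1) (a := c1F A c0) (by omega))).trans ?_
    unfold y0
    rw [← one_div]
    exact div_le_div_of_nonneg_right (pw_one hL _) q2.le
  · nlinarith
  · push_cast
    nlinarith

/-- **two vertices with status** (`VV.vv_i2` with `GamR.RR_le`) : the total -/
theorem vvg_num {A : ℕ} (hA : 80 ≤ A) (ka K : ℕ) : Ev (fun c0 Lam => ∀ RR N0 : ℝ, 0 ≤ RR → 0 ≤ N0 →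
    N0 ≤ Real.exp (4 * pQ Lam c0) → RR ≤ Real.exp (-(7 * pw Lam (c1F A c0) * y0 Lam A c0 / 256)) * (1 + N0) +
        32 * Real.exp (1 - pw Lam (c1F A c0) * y0 Lam A c0 / 256) * (pw Lam c0 * pw Lam (c1F A c0) * Lam) →
    6 * pw Lam c0 * pw Lam (c1F A c0) * Lam * yp Lam A c0 ^ 2 +
      384 * yp Lam A c0 * VV.gvn (pw Lam c0) (pw Lam (c1F A c0)) Lam (z Lam ka c0) + (384 * yp Lam A c0 + 3) * RR ≤
      (pw Lam K)⁻¹) := by
  refine Ev.mono (((gam_num A ka).and (vv_num hA ka K)).and (Ev.ge (K + 4))) fun c0 Lam hL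
    ⟨⟨⟨_, _, _, _, _, _, h1⟩, h2⟩, h3⟩ RR N0 r0 n0 n1 r1 => ?_
  exact h2 RR r0 (r1.trans ((h1 N0 n0 n1).2.trans (ipw_mono hL (by omega))))

end Pool.Agent.GMH.CTM
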