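import Pool.Agent.GMH.ConTF

/-!
# GMH/ConTR: the numbers of the thin rows (A5 CON, helper76)

`d1T N1 al X1 dl a = 32 √((a + 1) / N1) + 8 exp (X1 - a) / (dl al)` (`GMH/TopRow`) with `a = 4 X0`, `X1 = 3 X0`, `dl = N1^(-4)`:
* `d1_num` : at most `x^(-30 (c0 + A))`; `da_num` : `exp (-a) ≤ dl`;
* `par_num` : the conditions of `TriC.Par`;
* `fo_num` : the first order terms `2 Lam d1 + B √(8 d1 2 Lam N)` for `N ≤ x^(2 c0 + 8)`.
-/

set_option autoImplicit false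
set_option linter.unusedSectionVars false

namespace Pool.Agent.GMH.CTK

open Pool.Agent.GMH Pool.Agent.GMH.V3 Pool.Agent.GMH.CT

noncomputable section

/-- `K (c1 + c0 + 1) x ≤ X0` -/
theorem X0_big (A K : ℕ) : Ev fun c0 Lam => (K : ℝ) * ((c1F A c0 : ℝ) + c0 + 1) * (2 * Lam) ≤ pw Lam (cXF A c0) := by
  refine ((n_big A 0 K).and (Ev.ge 0)).mono fun c0 Lam hL h => ?_
  have h1 := h.1
  rw [ix_zero, mul_one] at h1
  exact h1.trans (pw_mono hL (by unfold cXF; omega))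

/-- `exp (-a) ≤ dl` for `a = 4 X0` -/
theorem da_num (A : ℕ) : Ev fun c0 Lam => Real.exp (-(4 * pw Lam (cXF A c0))) ≤ ix Lam (4 * c1F A c0) := by
  refine (X0_big A 4).mono fun c0 Lam hL h => exp_pw hL _ ?_
  have h1 := pw_pos hL (cXF A c0)
  push_cast at h ⊢
  have h2 : (0 : ℝ) ≤ (c0 : ℝ) + 1 := by positivity
  nlinarith

/-- **the distance of a top and of the missing letter** -/
theorem d1_num {A : ℕ} (hA : 80 ≤ A) : Ev fun c0 Lam => ∀ al : ℝ, Real.exp (-Lam) ≤ al →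
    32 * Real.sqrt ((4 * pw Lam (cXF A c0) + 1) / pw Lam (c1F A c0)) +
      8 * Real.exp (3 * pw Lam (cXF A c0) - 4 * pw Lam (cXF A c0)) / (ix Lam (4 * c1F A c0) * al) ≤
    ix Lam (30 * (c0 + A)) := by
  refine ((X0_big A 100).and (Ev.ge 1)).mono fun c0 Lam hL h al hal => ?_
  obtain ⟨h, hc⟩ := h
  have hc1 := c1_ge (c0 := c0) hA
  have al0 : 0 < al := (Real.exp_pos _).trans_le hal
  -- first term
  have s1 : (4 * pw Lam (cXF A c0) + 1) / pw Lam (c1F A c0) ≤ ix Lam (2 * (30 * (c0 + A) + 4)) := by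
    have e1 : 4 * pw Lam (cXF A c0) + 1 ≤ pw Lam (cXF A c0 + 2) := by
      have h2 := pw_ge1 hL (cXF A c0)
      have h3 : pw Lam (cXF A c0 + 2) = pw Lam (cXF A c0) * pw Lam 2 := pw_add _ _ _
      have h4 := pw_ge hL 2
      norm_num at h4
      rw [h3]
      nlinarith
    rw [div_eq_mul_inv]
    exact fin hL (k := c1F A c0) e1 (by unfold cXF; omega)
  have s2 : 32 * Real.sqrt ((4 * pw Lam (cXF A c0) + 1) / pw Lam (c1F A c0)) ≤ ix Lam (30 * (c0 + A) + 1) := by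
    have e2 : Real.sqrt ((4 * pw Lam (cXF A c0) + 1) / pw Lam (c1F A c0)) ≤ ix Lam (30 * (c0 + A) + 4) :=
      (Real.sqrt_le_sqrt s1).trans (le_of_eq (sqrt_ix hL _))
    refine (mul_le_mul_of_nonneg_left e2 (by norm_num)).trans ?_
    exact fin hL (CT.cst hL 3 (c := 32) (by norm_num)) (by omega)
  -- second term
  have s3 : 8 * Real.exp (3 * pw Lam (cXF A c0) - 4 * pw Lam (cXF A c0)) / (ix Lam (4 * c1F A c0) * al) ≤
      ix Lam (30 * (c0 + A) + 1) := by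
    have p1 := ix_pos hL (4 * c1F A c0)
    rw [div_le_iff₀ (mul_pos p1 al0)]
    have e3 : Real.exp (3 * pw Lam (cXF A c0) - 4 * pw Lam (cXF A c0)) ≤
        ix Lam (4 * c1F A c0 + (30 * (c0 + A) + 1) + 2) * Real.exp (-Lam) := by
      have e4 := exp_pw hL (4 * c1F A c0 + (30 * (c0 + A) + 1) + 2) (y := pw Lam (cXF A c0) - Lam) (by
        push_cast at h ⊢
        have q0 : (80 * (c0 : ℝ) + 80 * A) ≤ c1F A c0 := by exact_mod_cast hc1
        have q1 : (0 : ℝ) ≤ c0 := Nat.cast_nonneg _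
        have q2 : (0 : ℝ) ≤ A := Nat.cast_nonneg _
        have q3 : (0 : ℝ) ≤ c1F A c0 := Nat.cast_nonneg _
        have q4 : (4 * (c1F A c0 : ℝ) + (30 * ((c0 : ℝ) + A) + 1) + 2) + 1 ≤ 100 * ((c1F A c0 : ℝ) + c0 + 1) := by
          nlinarith
        have q5 := mul_le_mul_of_nonneg_right q4 (show (0 : ℝ) ≤ 2 * Lam by linarith)
        nlinarith)
      have e5 : 3 * pw Lam (cXF A c0) - 4 * pw Lam (cXF A c0) = -(pw Lam (cXF A c0) - Lam) + -Lam := by ring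
      rw [e5, Real.exp_add]
      exact mul_le_mul_of_nonneg_right e4 (Real.exp_pos _).le
    have e6 : ix Lam (4 * c1F A c0 + (30 * (c0 + A) + 1) + 2) = ix Lam (30 * (c0 + A) + 1) * ix Lam (4 * c1F A c0) * ix Lam 2 := by
      rw [← ix_add, ← ix_add]
      congr 1
      ring
    have e7 : 8 * ix Lam 2 ≤ 1 := by
      have := ix_four hL 2
      norm_num at this
      linarith
    have p2 := ix_pos hL (30 * (c0 + A) + 1)
    have p3 := Real.exp_pos (-Lam)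
    calc 8 * Real.exp (3 * pw Lam (cXF A c0) - 4 * pw Lam (cXF A c0))
        ≤ 8 * (ix Lam (30 * (c0 + A) + 1) * ix Lam (4 * c1F A c0) * ix Lam 2 * Real.exp (-Lam)) := by
          rw [← e6]
          exact mul_le_mul_of_nonneg_left e3 (by norm_num)
      _ = ix Lam (30 * (c0 + A) + 1) * ix Lam (4 * c1F A c0) * Real.exp (-Lam) * (8 * ix Lam 2) := by ring
      _ ≤ ix Lam (30 * (c0 + A) + 1) * ix Lam (4 * c1F A c0) * Real.exp (-Lam) :=
          mul_le_of_le_one_right (by positivity) e7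
      _ ≤ ix Lam (30 * (c0 + A) + 1) * (ix Lam (4 * c1F A c0) * al) := by
          rw [mul_assoc]
          exact mul_le_mul_of_nonneg_left (mul_le_mul_of_nonneg_left hal p1.le) p2.le
  exact add_ix hL s2 s3

/-- **first order terms** : `2 Lam d1 + B^k √(8 d1 2 Lam N)` -/
theorem fo_num {A : ℕ} (hA : 80 ≤ A) (k K : ℕ) : Ev fun c0 Lam => ∀ c d1 N : ℝ, 0 ≤ c → c ≤ 4 ^ 10 → 0 ≤ d1 →
    d1 ≤ ix Lam (30 * (c0 + A)) → 0 ≤ N → N ≤ pw Lam (4 * c0 + 8) →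
    c * (2 * Lam * d1 + pw Lam kB ^ k * Real.sqrt (8 * (d1 * (2 * Lam) * N))) ≤ ix Lam K := by
  refine (Ev.ge (kB * k + K + 20)).mono fun c0 Lam hL hc0 c d1 N hc hc' hd hd1 hN hN1 => ?_
  have hl : 2 * Lam ≤ pw Lam 1 := by rw [pw_one']
  have hl0 : (0 : ℝ) ≤ 2 * Lam := by linarith
  have eB : pw Lam kB ^ k = pw Lam (kB * k) := (pw_mul _ _ _).symm
  have t1 : 2 * Lam * d1 ≤ ix Lam (K + 12) := mul_ix_le hL hl0 hl hd1 (by omega)
  have t2 : 8 * (d1 * (2 * Lam) * N) ≤ ix Lam (2 * (kB * k + K + 12)) := by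
    have h1 : 8 * (d1 * (2 * Lam) * N) = 8 * (2 * Lam) * N * d1 := by ring
    rw [h1]
    have h2 : 8 * (2 * Lam) * N ≤ pw Lam (2 + 1 + (4 * c0 + 8)) :=
      mul_pw hL hN (mul_pw hL hl0 (CT.cst hL 2 (c := 8) (by norm_num)) hl) hN1
    exact mul_ix_le hL (by positivity) h2 hd1 (by omega)
  have t3 : Real.sqrt (8 * (d1 * (2 * Lam) * N)) ≤ ix Lam (kB * k + K + 12) :=
    (Real.sqrt_le_sqrt t2).trans (le_of_eq (sqrt_ix hL _))
  have t4 : pw Lam kB ^ k * Real.sqrt (8 * (d1 * (2 * Lam) * N)) ≤ ix Lam (K + 12) := by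
    rw [eB]
    exact mul_ix_le hL (pw_pos hL _).le le_rfl t3 (by omega)
  have t5 := add_ix hL (s := K + 11) t1 t4
  exact mul_ix_le hL hc (CT.cst hL 10 hc') t5 (by omega)

/-- **the parameters of the prices** (`TriC.Par`) -/
theorem par_num {A : ℕ} (hA : 80 ≤ A) : Ev fun c0 Lam => 2 ≤ pw Lam c0 ∧ 1 ≤ Lam ∧ Lam ≤ pw Lam c0 ∧
    1 ≤ pw Lam (cXF A c0) ∧ 30 * pw Lam c0 ^ 5 * pw Lam (cXF A c0) ≤ pw Lam (c1F A c0) := by
  refine (Ev.ge 1).mono fun c0 Lam hL hc => ?_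
  have h1 : pw Lam 1 ≤ pw Lam c0 := pw_mono hL hc
  have e1 := pw_one' Lam
  have hc1 := c1_ge (c0 := c0) hA
  have e5 : pw Lam c0 ^ 5 = pw Lam (c0 * 5) := (pw_mul _ _ _).symm
  refine ⟨by linarith, by linarith, by linarith, pw_ge1 hL _, ?_⟩
  rw [e5]
  have h2 := mul_pw hL (pw_pos hL (cXF A c0)).le (mul_pw hL (pw_pos hL (c0 * 5)).le (CT.cst hL 3 (c := 30) (by norm_num))
    (le_refl (pw Lam (c0 * 5)))) (le_refl (pw Lam (cXF A c0)))
  exact h2.trans (pw_mono hL (by unfold cXF; omega))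

end

end Pool.Agent.GMH.CTK
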