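import Pool.Agent.GMH.ConTH

/-!
# GMH/ConTZ: the coefficients of `key3z` (A5 CON, helper76)

`B = x^kB`, `e1 = eta = x^(-ke)`, `e3 = x^(-kdl)`, `E = x^K` with `5000 ≤ K` (the levels of HOT), `e0 ≤ x^(-(K + 900))`.
* `hz_le` : the new part of the coefficient of the gains, `gnz_le` : the coefficient times the gains, `≤ x^(-20)`;
* `gdz_le`, `t3z_le`, `t4z_le`, `t6z_le`, `t8z_le` : the coefficients of the other terms.
-/

set_option autoImplicit false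
set_option linter.unusedSectionVars false

namespace Pool.Agent.GMH.CTK

open Pool.Agent.GMH Pool.Agent.GMH.V3 Pool.Agent.GMH.CT

noncomputable section

variable {Lam : ℝ} (hL : 2 ≤ Lam)

include hL

theorem two_pw (k : ℕ) : 2 * pw Lam k ≤ pw Lam (k + 1) := by
  have h1 := pw_pos hL k
  have h2 : pw Lam (k + 1) = pw Lam k * (2 * Lam) := by unfold pw; rw [pow_succ]
  rw [h2]
  nlinarith

theorem one_pw (k : ℕ) : 1 + pw Lam k ≤ pw Lam (k + 1) := by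
  have := pw_ge1 hL k
  exact le_trans (by linarith) (two_pw hL k)

/-- `√(e0 (E + 1))` -/
theorem sq1_le {E e0 : ℝ} {K : ℕ} (hE : E = pw Lam K) (he0 : 0 ≤ e0) (he : e0 ≤ ix Lam (K + 900)) :
    Real.sqrt (e0 * (E + 1)) ≤ ix Lam 449 := by
  have h1 : e0 * (E + 1) ≤ ix Lam (2 * 449) := by
    rw [hE, mul_comm]
    have h2 : pw Lam K + 1 ≤ pw Lam (K + 1) := by
      have := one_pw hL K
      linarith
    have h3 := pw_pos hL K
    exact mul_ix_le hL (by linarith) h2 he (by omega)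
  refine (Real.sqrt_le_sqrt h1).trans (le_of_eq ?_)
  exact sqrt_ix hL _

/-- `√(3 / E)` -/
theorem sq2_le {E : ℝ} {K : ℕ} (hE : E = pw Lam K) (hK : 5000 ≤ K) : Real.sqrt (3 / E) ≤ ix Lam 449 := by
  have h1 : 3 / E ≤ ix Lam (2 * 449) := by
    rw [hE, div_eq_mul_inv]
    exact fin hL (CT.cst hL 1 (c := 3) (by norm_num)) (k := K) (by omega)
  exact (Real.sqrt_le_sqrt h1).trans (le_of_eq (sqrt_ix hL _))

/-- the new part of the coefficient of the gains -/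
theorem hz_le {E e0 : ℝ} {K : ℕ} (hE : E = pw Lam K) (hK : 5000 ≤ K) (he0 : 0 ≤ e0) (he : e0 ≤ ix Lam (K + 900)) :
    2 * pw Lam kB * ((1 + pw Lam kB) * Real.sqrt (e0 * (E + 1)) + (2 + pw Lam kB) * Real.sqrt (3 / E) +
      2 * pw Lam kB ^ 3 / E * (1 / ix Lam kdl ^ 2)) + 2 / pw Lam kB ≤ ix Lam 28 := by
  have b0 := pw_pos hL kB
  have b1 := pw_ge1 hL kB
  have s1 := sq1_le hL hE he0 he
  have s2 := sq2_le hL hE hK
  have x0 := ix_pos hL 449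
  have c1 : 2 * pw Lam kB ≤ pw Lam 161 := two_pw hL kB
  have c2 : 1 + pw Lam kB ≤ pw Lam 161 := one_pw hL kB
  have c3 : 2 + pw Lam kB ≤ pw Lam 162 := by
    have h1 := one_pw hL 161
    have h2 : 2 + pw Lam kB = 1 + (1 + pw Lam kB) := by ring
    rw [h2]
    linarith
  have t1 : 2 * pw Lam kB * ((1 + pw Lam kB) * Real.sqrt (e0 * (E + 1))) ≤ ix Lam 40 := by
    have h1 : (1 + pw Lam kB) * Real.sqrt (e0 * (E + 1)) ≤ ix Lam 220 :=
      mul_ix_le hL (by positivity) c2 s1 (by norm_num)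
    exact mul_ix_le hL (by positivity) c1 h1 (by norm_num)
  have t2 : 2 * pw Lam kB * ((2 + pw Lam kB) * Real.sqrt (3 / E)) ≤ ix Lam 40 := by
    have h1 : (2 + pw Lam kB) * Real.sqrt (3 / E) ≤ ix Lam 220 :=
      mul_ix_le hL (by positivity) c3 s2 (by norm_num)
    exact mul_ix_le hL (by positivity) c1 h1 (by norm_num)
  have t3 : 2 * pw Lam kB * (2 * pw Lam kB ^ 3 / E * (1 / ix Lam kdl ^ 2)) ≤ ix Lam 40 := by
    have e1 : (1 : ℝ) / ix Lam kdl ^ 2 = pw Lam 4000 := by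
      have e : ix Lam kdl ^ 2 = ix Lam 4000 := by
        rw [show (4000 : ℕ) = kdl * 2 from rfl, ix_mul]
      rw [e, one_div]
      exact inv_inv _
    have e2 : pw Lam kB ^ 3 = pw Lam 480 := (pw_mul _ _ _).symm
    have e3 : 2 * pw Lam kB * (2 * pw Lam kB ^ 3 / E * (1 / ix Lam kdl ^ 2)) =
        (2 * pw Lam kB * (2 * pw Lam 480 * pw Lam 4000)) * ix Lam K := by
      rw [e1, e2, hE]
      unfold ix
      field_simp
    rw [e3]
    have h1 : 2 * pw Lam 480 ≤ pw Lam 481 := two_pw hL 480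
    have h2 : 2 * pw Lam 480 * pw Lam 4000 ≤ pw Lam 4481 :=
      (mul_pw hL (pw_pos hL _).le h1 le_rfl).trans (pw_mono hL (by norm_num))
    have h3 : 2 * pw Lam kB * (2 * pw Lam 480 * pw Lam 4000) ≤ pw Lam 4642 :=
      (mul_pw hL (mul_nonneg (mul_nonneg (by norm_num) (pw_pos hL _).le) (pw_pos hL _).le) c1 h2).trans
        (pw_mono hL (by norm_num))
    exact fin hL h3 (by omega)
  have t4 : 2 / pw Lam kB ≤ ix Lam 40 := by
    rw [div_eq_mul_inv]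
    exact fin hL (CT.cst hL 1 (c := 2) (by norm_num)) (k := kB) (by norm_num [kB])
  have t5 : 4 * ix Lam 40 ≤ ix Lam 28 := by
    have h1 := cst_ix hL (c := 4) (j := 1) (s := 39) (by norm_num)
    exact h1.trans (ix_anti hL (by norm_num))
  have e : 2 * pw Lam kB * ((1 + pw Lam kB) * Real.sqrt (e0 * (E + 1)) + (2 + pw Lam kB) * Real.sqrt (3 / E) +
      2 * pw Lam kB ^ 3 / E * (1 / ix Lam kdl ^ 2)) + 2 / pw Lam kB =
      2 * pw Lam kB * ((1 + pw Lam kB) * Real.sqrt (e0 * (E + 1))) + 2 * pw Lam kB * ((2 + pw Lam kB) * Real.sqrt (3 / E)) +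
      2 * pw Lam kB * (2 * pw Lam kB ^ 3 / E * (1 / ix Lam kdl ^ 2)) + 2 / pw Lam kB := by ring
  rw [e]
  linarith

/-- **THE COEFFICIENT OF THE GAINS** in `key3z` -/
theorem gnz_le {d dd eps G E e0 : ℝ} {K : ℕ} (hd : 0 ≤ d) (hd1 : d ≤ ix Lam 3900) (hdd : 0 ≤ dd) (hdd1 : dd ≤ ix Lam 3900)
    (he : 0 ≤ eps) (he1 : eps ≤ ix Lam 520) (hE : E = pw Lam K) (hK : 5000 ≤ K) (h0 : 0 ≤ e0)
    (h01 : e0 ≤ ix Lam (K + 900)) (hG0 : 0 ≤ G) (hG : G ≤ 6 * Lam) :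
    (((1 + ix Lam ke) ^ 2 - 1 + ix Lam ke + (pw Lam kB ^ 2 * dd + d)) +
      ((1 + ix Lam ke) ^ 2 + (pw Lam kB ^ 2 * dd + 1)) * d +
      (4 + 2 * pw Lam kB + pw Lam kB * dd) * (pw Lam kB ^ 2 * eps) + pw Lam kB ^ 2 * dd +
      (2 * pw Lam kB * ((1 + pw Lam kB) * Real.sqrt (e0 * (E + 1)) + (2 + pw Lam kB) * Real.sqrt (3 / E) +
        2 * pw Lam kB ^ 3 / E * (1 / ix Lam kdl ^ 2)) + 2 / pw Lam kB)) * G ≤ ix Lam 19 := by
  have h1 := gn_le hL hd hd1 hdd hdd1 he he1 hG0 hG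
  have h2 := hz_le hL hE hK h0 h01
  have h3 : 0 ≤ pw Lam kB ^ 2 * dd := mul_nonneg (sq_nonneg _) hdd
  have h4 : (2 * pw Lam kB * ((1 + pw Lam kB) * Real.sqrt (e0 * (E + 1)) + (2 + pw Lam kB) * Real.sqrt (3 / E) +
        2 * pw Lam kB ^ 3 / E * (1 / ix Lam kdl ^ 2)) + 2 / pw Lam kB) * G ≤ ix Lam 20 := by
    calc _ ≤ ix Lam 28 * G := mul_le_mul_of_nonneg_right h2 hG0
      _ ≤ ix Lam 28 * (6 * Lam) := mul_le_mul_of_nonneg_left hG (ix_nn hL 28)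
      _ = 6 * Lam * ix Lam 28 := by ring
      _ ≤ ix Lam 20 := fin hL (cLam hL 2 (c := 6) (by norm_num)) (by norm_num)
  have h5 : 2 * ix Lam 20 ≤ ix Lam 19 := by
    have h6 := cst_ix hL (c := 2) (j := 1) (s := 19) (by norm_num)
    exact h6
  have h7 : 0 ≤ pw Lam kB ^ 2 * dd * G := mul_nonneg h3 hG0
  nlinarith

/-- the term with `Gd` in `key3z` -/
theorem gdz_le {dd S : ℝ} (hdd : 0 ≤ dd) (hdd1 : dd ≤ ix Lam 3900) (hS0 : 0 ≤ S) (hS : S ≤ ix Lam 200) :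
    ((1 + ix Lam ke) ^ 2 + (pw Lam kB ^ 2 * dd + 1)) * pw Lam kB * S ≤ ix Lam 30 := by
  have h := gd_le hL hdd hdd1 hS0 hS
  nlinarith

/-- (T3) `(2 B + 2 + 2 B^3 / E) S` -/
theorem t3z_le {E S : ℝ} {K s : ℕ} (hE : E = pw Lam K) (hK : 5000 ≤ K) (hS0 : 0 ≤ S) (hS : S ≤ ix Lam (s + 163)) :
    (2 * pw Lam kB + 2 + 2 * pw Lam kB ^ 3 / E) * S ≤ ix Lam s := by
  have b1 := pw_ge1 hL kB
  have c1 : 2 * pw Lam kB ≤ pw Lam 161 := two_pw hL kB
  have h1 : 2 * pw Lam kB ^ 3 / E ≤ 1 := by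
    have e2 : pw Lam kB ^ 3 = pw Lam 480 := (pw_mul _ _ _).symm
    rw [e2, hE, div_eq_mul_inv]
    refine (fin hL (two_pw hL 480) (k := K) (s := 0) (by omega)).trans ?_
    exact ix_le_one hL 0
  have h2 : 2 * pw Lam kB + 2 + 2 * pw Lam kB ^ 3 / E ≤ pw Lam 163 := by
    have h3 := one_pw hL 161
    have h4 := one_pw hL 162
    have h5 : (1 : ℝ) ≤ pw Lam 161 := pw_ge1 hL 161
    have h6 := two_pw hL 161
    have h7 := two_pw hL 162
    linarith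
  have h3 : 0 ≤ 2 * pw Lam kB + 2 + 2 * pw Lam kB ^ 3 / E := by
    have : 0 ≤ E := by rw [hE]; exact (pw_pos hL K).le
    positivity
  exact mul_ix_le hL h3 h2 hS (by omega)

/-- (T4) `B S` -/
theorem t4z_le {S : ℝ} {s : ℕ} (hS : S ≤ ix Lam (s + 160)) : pw Lam kB * S ≤ ix Lam s :=
  mul_ix_le hL (pw_pos hL kB).le le_rfl hS (by unfold kB; omega)

/-- (T6), (T7) `(1 + B) S` -/
theorem t6z_le {S : ℝ} {s : ℕ} (hS : S ≤ ix Lam (s + 161)) : (1 + pw Lam kB) * S ≤ ix Lam s :=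
  mul_ix_le hL (by have := pw_pos hL kB; linarith) (one_pw hL kB) hS (by unfold kB; omega)

/-- (T8) `(B + 2) e3 M` -/
theorem t8z_le {M : ℝ} {c s : ℕ} (hM : M ≤ pw Lam c) (hs : c + s + 162 ≤ kdl) :
    (pw Lam kB + 2) * ix Lam kdl * M ≤ ix Lam s := by
  have b1 := pw_pos hL kB
  have h1 := one_pw hL kB
  have h2 := one_pw hL 161
  have h0 : pw Lam kB + 2 ≤ pw Lam 162 := by
    have : pw Lam (kB + 1) = pw Lam 161 := rfl
    rw [this] at h1
    linarith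
  have e : (pw Lam kB + 2) * ix Lam kdl * M = M * ((pw Lam kB + 2) * ix Lam kdl) := by ring
  rw [e]
  have hc := pw_pos hL c
  calc M * ((pw Lam kB + 2) * ix Lam kdl) ≤ pw Lam c * ((pw Lam kB + 2) * ix Lam kdl) :=
        mul_le_mul_of_nonneg_right hM (mul_nonneg (by linarith) (ix_nn hL _))
    _ ≤ pw Lam c * (pw Lam 162 * ix Lam kdl) :=
        mul_le_mul_of_nonneg_left (mul_le_mul_of_nonneg_right h0 (ix_nn hL _)) hc.le
    _ = (pw Lam c * pw Lam 162) * ix Lam kdl := by ring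
    _ ≤ ix Lam s := fin hL (mul_pw hL (pw_pos hL _).le le_rfl le_rfl) (by omega)

end

end Pool.Agent.GMH.CTK
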