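import Pool.Agent.GMH.ConT5

/-!
# GMH/ConZ2 (helper46): THE RIGHT SIDES OF THE TWO-BODY ZONES IN A ROUND (`UV02.ten_sum`, `tenX_sum`)

Names and hypotheses of `GMH/ConT5` (helper42).
* `ten_num`, `tenX_num` : the right sides of `ten_sum`, `tenX_sum` (also with the part `Ln NA` of the pairs of bad tops).
-/

set_option autoImplicit false
set_option linter.unusedSectionVars false

namespace Pool.Agent.GMH.CT

open Pool.Agent.GMH Pool.Agent.GMH.V3 Finset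

noncomputable section

section rs

variable (r : Rd) {Lam : ℝ} (hL : 2 ≤ Lam) {L : ℝ} (hL0 : 0 ≤ L) (hLb : L ≤ pw Lam r.kL)

include hL hL0 hLb

/-- **TWO-BODY ZONES, SIGNED** (`UV02.ten_sum`) -/
theorem ten_num {NA NZ NS M W NE SG : ℝ} (a0 : 0 ≤ NA) (ha : NA ≤ pw Lam r.km) (z0 : 0 ≤ NZ) (hz : NZ ≤ pw Lam r.Z)
    (s0 : 0 ≤ 1 / (ix Lam r.m1 * (M + 1)) * NS) (hs : 1 / (ix Lam r.m1 * (M + 1)) * NS ≤ ix Lam (r.kL + 52))
    (W0 : 0 ≤ W) (hW : W ≤ pw Lam (r.kg + r.lm)) :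
    ix Lam r.lm * NA + 2 * (L * ix Lam r.m1) * NZ + L * (2 * (1 / (ix Lam r.m1 * (M + 1)))) * NS +
      L * (Real.sqrt (8 * ix Lam r.uB) * (W / 2)) + L * NE + SG ≤ 4 * ix Lam 44 + L * NE + SG := by
  have h1 := t_lam r hL (c := 2) (by norm_num) a0 ha
  have h2 := t_m1 r hL (c := 2) (by norm_num) hL0 hLb z0 hz
  have h3 := s_num r hL hL0 hLb (c := 2) (by norm_num) s0 hs
  have h4 := w_num r hL hL0 hLb (c := 1 / 2) (by norm_num) (by norm_num) W0 hW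
  have h5 := mul_nonneg (ix_nn hL r.lm) a0
  nlinarith

/-- **TWO-BODY ZONES, SIGNED ROWS, UNSIGNED COLUMNS** (`UV02.tenX_sum`, `k' = k`) -/
theorem tenX_num {NA NZ NS M W NE SG : ℝ} (a0 : 0 ≤ NA) (ha : NA ≤ pw Lam r.km) (z0 : 0 ≤ NZ) (hz : NZ ≤ pw Lam r.Z)
    (s0 : 0 ≤ 1 / (ix Lam r.m1 * (M + 1)) * NS) (hs : 1 / (ix Lam r.m1 * (M + 1)) * NS ≤ ix Lam (r.kL + 52))
    (W0 : 0 ≤ W) (hW : W ≤ pw Lam (r.kg + r.lm)) :
    ix Lam r.lm * NA + L * (ix Lam r.m1 + ix Lam r.m1) * NZ +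
      L * (1 / (ix Lam r.m1 * (M + 1)) + 1 / (ix Lam r.m1 * (M + 1))) * NS +
      L * (Real.sqrt (8 * ix Lam r.uB) * (W / 2)) + L * NE + SG ≤ 4 * ix Lam 44 + L * NE + SG := by
  have h1 := ten_num r hL hL0 hLb (NE := NE) (SG := SG) a0 ha z0 hz s0 hs W0 hW
  refine le_trans (le_of_eq ?_) h1
  ring

end rs

end

end Pool.Agent.GMH.CT
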