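import Pool.Agent.GMH.Hot2p

/-!
# GMH/Conv2: the singles over the run (helper93; note 4081 (2), row K5)

`L = log (m_X / q_X)` at the true top `X = F_i`, `m` = law given all thin labels, `q` = law given what the top sees.
* `ps1g P Z Zb F` = this log ratio by surprisals; `ps1g_log`, `ps1g_nn` (mean `≥ 0` on every event of `Z`), `ps1g_birth`;
* `conv_step` : one refinement `(Z, Zb) → (Z', Zb')`, any weight `0 ≤ al` seen by `Z'` :
  `E al psf dL ≤ E al dL + E al ∑ (m_x - q_x) (r_x - 1)`, `r = q' / q`, `psf u = u - 1 + exp (-u)`;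
  `conv_stepB` : the same with the letters `1 - b` cut on the left (price `(1 + L) E al (1 - b)`, and on the right
  `- ∑ (1 - b) m_x r_x` : `foB`);
* `run_sgnS`, `run_sgnT` : **any signed potential over the run**;
* `ps1`, `ps1_abs`, `ps1_birth`, `ps1_end`, `conv_stepS`, `conv_stepT` : the singles, all steps;
* `conv_run`, `conv_runA` : sum over all steps of `E al (dL - 1 + exp (-dL))`.
-/

set_option autoImplicit false
set_option linter.unusedSectionVars false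

namespace Pool.Agent.GMH.Hot2

open Finset Pool.Agent.PWZ Pool.Agent.M3 Pool.Agent.GM Pool.Agent.GM.Harm Pool.Agent.GMH Pool.Agent.GMH.NZ
open Pool.Agent.GMH.V3 Pool.Agent.GMH.V3.TT Pool.Agent.GMH.TP

noncomputable section

/-! ### one top -/

section gen1

variable {Om : Type*} [Fintype Om] (P : FP Om) {α α' β₁ β₂ φ₁ φ₂ : Type*}

/-- log ratio of the two laws of the top at the true top -/
def ps1g (Z : Om → β₁) (Zb : Om → α) (F : Om → φ₁) (w : Om) : ℝ := sp P F Zb w - sp P F Z w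

theorem ps1g_log {Z : Om → β₁} {Zb : Om → α} {F : Om → φ₁} {w : Om} (hw : P.p w ≠ 0) :
    ps1g P Z Zb F w = Real.log (P.pv Z F w (F w) / P.pv Zb F w (F w)) := by
  have m1 := P.m_pos Z hw
  have m2 := P.m_pos Zb hw
  have m3 := P.m_pos (fun u => (F u, Z u)) hw
  have m4 := P.m_pos (fun u => (F u, Zb u)) hw
  rw [P.pv_self, P.pv_self, Real.log_div (div_pos m3 m1).ne' (div_pos m4 m2).ne', Real.log_div m3.ne' m1.ne',
    Real.log_div m4.ne' m2.ne']
  unfold ps1g sp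
  ring

/-- as a frame with one top -/
theorem ps1g_psF (Z : Om → β₁) (Zb : Om → α) (F : Om → φ₁) (w : Om) :
    ps1g P Z Zb F w = psF P Z (fun _ : Unit => Zb) (fun _ => F) w := by
  unfold ps1g psF
  rw [sp_unit P F Z w]
  simp

theorem ps1g_nn {Z : Om → β₁} {Zb : Om → α} (hZ : Fac Z Zb) (F : Om → φ₁) {S : Om → Prop} (hS : Fac Z S) :
    0 ≤ P.E (fun w => ind (S w) * ps1g P Z Zb F w) := by
  have k := psF_exp P Z (fun _ : Unit => Zb) (fun _ => hZ) (fun _ => F) hS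
  have h1 : P.Pr S - P.E (fun w => ind (S w) * Real.exp (-psF P Z (fun _ : Unit => Zb) (fun _ => F) w)) ≤
      P.E (fun w => ind (S w) * ps1g P Z Zb F w) := by
    unfold FP.Pr
    rw [← P.E_sub]
    refine P.E_mono fun w _ => ?_
    have h2 := Real.add_one_le_exp (-psF P Z (fun _ : Unit => Zb) (fun _ => F) w)
    have h3 := mul_le_mul_of_nonneg_left h2 (ind_nonneg (S w))
    rw [ps1g_psF]
    linarith
  linarith

/-- births raise the mean -/
theorem ps1g_grow {Z : Om → β₁} {Zb : Om → α} (hZ : Fac Z Zb) {F : Om → φ₁} {F' : Om → φ₂}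
    (hF : Fac (fun w => (F' w, Zb w)) F) {S : Om → Prop} (hS : Fac (fun w => (F w, Z w)) S) :
    P.E (fun w => ind (S w) * ps1g P Z Zb F w) ≤ P.E (fun w => ind (S w) * ps1g P Z Zb F' w) := by
  have k := psF_grow P (Z := Z) (Zb := fun _ : Unit => Zb) (fun _ => hZ) (F := fun _ => F) (F' := fun _ => F')
    (fun _ => hF) (S := S) (fun a b hab => by
      simp only [Prod.mk.injEq] at hab
      exact hS a b (by simp only [Prod.mk.injEq]; exact ⟨congrFun hab.1 (), hab.2⟩))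
  have e1 : P.E (fun w => ind (S w) * ps1g P Z Zb F w) - P.E (fun w => ind (S w) * ps1g P Z Zb F' w) =
      P.E (fun w => ind (S w) * (psF P Z (fun _ : Unit => Zb) (fun _ => F) w -
        psF P Z (fun _ : Unit => Zb) (fun _ => F') w)) := by
    rw [← P.E_sub]
    refine P.E_congr fun w _ => ?_
    rw [ps1g_psF, ps1g_psF]
    ring
  linarith

/-- the convex function of CONV -/
def psf (u : ℝ) : ℝ := u - 1 + Real.exp (-u)

theorem psf_nn (u : ℝ) : 0 ≤ psf u := by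
  unfold psf
  have := Real.add_one_le_exp (-u)
  linarith

theorem psf_sq2 {u : ℝ} (hu : u ≤ 2) : u ^ 2 / 4 ≤ psf u := by
  unfold psf
  have h1 := Real.add_one_le_exp (-(u / 2))
  have h2 : Real.exp (-u) = Real.exp (-(u / 2)) * Real.exp (-(u / 2)) := by rw [← Real.exp_add]; ring_nf
  have h3 : (-(u / 2) + 1) * (-(u / 2) + 1) ≤ Real.exp (-(u / 2)) * Real.exp (-(u / 2)) :=
    mul_self_le_mul_self (by linarith) h1
  rw [h2]
  nlinarith

theorem psf_sq (u : ℝ) : min (u ^ 2) 1 ≤ 4 * psf u := by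
  rcases le_or_gt u 2 with h | h
  · refine (min_le_left _ _).trans ?_
    have := psf_sq2 h
    linarith
  · refine (min_le_right _ _).trans ?_
    unfold psf
    have := Real.exp_pos (-u)
    linarith

/-- the first order term with full ratio, the letters `1 - b` cut in the new law -/
def foB (Z : Om → β₁) (Zb : Om → α) (Zb' : Om → α') (F : Om → φ₁) (b : Om → φ₁ → ℝ) (w : Om) : ℝ :=
  ∑ x ∈ vals F, ((P.pv Z F w x - P.pv Zb F w x) * (P.pv Zb' F w x / P.pv Zb F w x - 1) -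
    (1 - b w x) * (P.pv Z F w x * (P.pv Zb' F w x / P.pv Zb F w x)))

/-- **ONE STEP OF THE SINGLES**, letters `1 - b` cut -/
theorem conv_stepB {Z : Om → β₁} {Z' : Om → β₂} {Zb : Om → α} {Zb' : Om → α'} (hZZ : Fac Z' Z)
    (hZb : Fac Z' Zb') (hbb : Fac Zb' Zb) (F : Om → φ₁) {a : Om → ℝ} (ha : Fac Z' a) (h0 : ∀ w, 0 ≤ a w)
    {b : Om → φ₁ → ℝ} (hb : ∀ x, Fac Z' (fun w => b w x)) (b0 : ∀ w x, 0 ≤ b w x) (b1 : ∀ w x, b w x ≤ 1) {L : ℝ}
    (hL : ∀ w, P.p w ≠ 0 → -L ≤ ps1g P Z' Zb' F w - ps1g P Z Zb F w) :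
    P.E (fun w => a w * (b w (F w) * psf (ps1g P Z' Zb' F w - ps1g P Z Zb F w))) ≤
    P.E (fun w => a w * (ps1g P Z' Zb' F w - ps1g P Z Zb F w)) + (1 + L) * P.E (fun w => a w * (1 - b w (F w))) +
      P.E (fun w => a w * foB P Z Zb Zb' F b w) := by
  classical
  set G : Om → φ₁ → ℝ := fun w x => b w x * (P.pv Zb' F w x / P.pv Zb F w x * (P.pv Z F w x / P.pv Z' F w x)) with hG
  have hZ'Zb : Fac Z' Zb := hZb.trans hbb
  have hGf : ∀ x, Fac Z' (fun w => G w x) := fun x u u' hab => by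
    show b u x * (P.pv Zb' F u x / P.pv Zb F u x * (P.pv Z F u x / P.pv Z' F u x)) =
      b u' x * (P.pv Zb' F u' x / P.pv Zb F u' x * (P.pv Z F u' x / P.pv Z' F u' x))
    have h1 : b u x = b u' x := hb x u u' hab
    rw [h1, pvc P F (hZb u u' hab) x, pvc P F (hZ'Zb u u' hab) x, pvc P F (hZZ u u' hab) x, pvc P F hab x]
  have e1 : ∀ w, P.p w ≠ 0 → b w (F w) * Real.exp (-(ps1g P Z' Zb' F w - ps1g P Z Zb F w)) = G w (F w) := by
    intro w hw
    have p1 := P.pv_self_pos Z F hw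
    have p2 := P.pv_self_pos Z' F hw
    have p3 := P.pv_self_pos Zb F hw
    have p4 := P.pv_self_pos Zb' F hw
    rw [ps1g_log P hw, ps1g_log P hw, neg_sub, Real.exp_sub, Real.exp_log (div_pos p1 p3), Real.exp_log (div_pos p2 p4)]
    simp only [hG]
    field_simp
  have e2 : P.E (fun w => a w * (b w (F w) * Real.exp (-(ps1g P Z' Zb' F w - ps1g P Z Zb F w)))) =
      P.E (fun w => a w * ∑ x ∈ vals F, P.pv Z' F w x * G w x) := by
    have e3 : P.E (fun w => a w * (b w (F w) * Real.exp (-(ps1g P Z' Zb' F w - ps1g P Z Zb F w)))) =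
        P.E (fun w => a w * G w (F w)) := P.E_congr fun w hw => by rw [e1 w hw]
    rw [e3, ← P.E_mul_ce ha]
    exact P.E_congr fun w _ => by rw [← P.sum_pv F hGf w]
  have e4 : ∀ w, P.p w ≠ 0 → ∑ x ∈ vals F, P.pv Z' F w x * G w x ≤ 1 + foB P Z Zb Zb' F b w := by
    intro w hw
    have s1 := P.pv_sum Z F hw
    have s2 := P.pv_sum Zb F hw
    have s3 : ∑ x ∈ vals F, P.pv Zb F w x * (P.pv Zb' F w x / P.pv Zb F w x) = 1 := by
      rw [← P.pv_sum Zb' F hw]
      refine Finset.sum_congr rfl fun x _ => ?_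
      rcases (P.pv_nonneg Zb F w x).eq_or_lt with h | h
      · rw [← h, zero_mul, P.pv_ac hbb F h.symm]
      · exact mul_div_cancel₀ _ h.ne'
    have s4 : foB P Z Zb Zb' F b w =
        ∑ x ∈ vals F, b w x * (P.pv Z F w x * (P.pv Zb' F w x / P.pv Zb F w x)) - ∑ x ∈ vals F, P.pv Z F w x -
        ∑ x ∈ vals F, P.pv Zb F w x * (P.pv Zb' F w x / P.pv Zb F w x) + ∑ x ∈ vals F, P.pv Zb F w x := by
      unfold foB
      rw [← Finset.sum_sub_distrib, ← Finset.sum_sub_distrib, ← Finset.sum_add_distrib]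
      exact Finset.sum_congr rfl fun x _ => by ring
    rw [s4, s1, s2, s3]
    have s5 : ∑ x ∈ vals F, P.pv Z' F w x * G w x ≤
        ∑ x ∈ vals F, b w x * (P.pv Z F w x * (P.pv Zb' F w x / P.pv Zb F w x)) := by
      refine Finset.sum_le_sum fun x _ => ?_
      have g1 : 0 ≤ b w x * (P.pv Z F w x * (P.pv Zb' F w x / P.pv Zb F w x)) :=
        mul_nonneg (b0 w x) (mul_nonneg (P.pv_nonneg _ _ _ _) (div_nonneg (P.pv_nonneg _ _ _ _) (P.pv_nonneg _ _ _ _)))
      rcases (P.pv_nonneg Z' F w x).eq_or_lt with h | h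
      · rw [← h, zero_mul]; exact g1
      · refine le_of_eq ?_
        simp only [hG]
        field_simp
    linarith
  have e5 : P.E (fun w => a w * (b w (F w) * psf (ps1g P Z' Zb' F w - ps1g P Z Zb F w))) ≤
      P.E (fun w => a w * (ps1g P Z' Zb' F w - ps1g P Z Zb F w)) - P.E a +
      (1 + L) * P.E (fun w => a w * (1 - b w (F w))) +
      P.E (fun w => a w * (b w (F w) * Real.exp (-(ps1g P Z' Zb' F w - ps1g P Z Zb F w)))) := by
    rw [← P.E_smul, ← P.E_sub, ← P.E_add, ← P.E_add]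
    refine P.E_mono fun w hw => ?_
    unfold psf
    have g1 := hL w hw
    have g2 : 0 ≤ a w * (1 - b w (F w)) := mul_nonneg (h0 w) (by linarith [b1 w (F w)])
    nlinarith
  have e6 : P.E (fun w => a w * ∑ x ∈ vals F, P.pv Z' F w x * G w x) ≤ P.E a +
      P.E (fun w => a w * foB P Z Zb Zb' F b w) := by
    rw [← P.E_add]
    refine P.E_mono fun w hw => ?_
    have h1 := mul_le_mul_of_nonneg_left (e4 w hw) (h0 w)
    linarith
  rw [e2] at e5
  linarith

/-- **ONE STEP OF THE SINGLES, HYBRID FORM** : the addition is independent of the top (law `m_x r_x`), all letters -/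
theorem conv_hybB {Z : Om → β₁} {Z' : Om → β₂} {Zb : Om → α} {Zb' : Om → α'} (hZZ : Fac Z' Z)
    (hZb : Fac Z' Zb') (hbb : Fac Zb' Zb) (F : Om → φ₁) {a : Om → ℝ} (ha : Fac Z' a) (h0 : ∀ w, 0 ≤ a w)
    {b : Om → φ₁ → ℝ} (hb : ∀ x, Fac Z' (fun w => b w x)) (b1 : ∀ w x, b w x ≤ 1) {L : ℝ}
    (hL : ∀ w, P.p w ≠ 0 → -L ≤ ps1g P Z' Zb' F w - ps1g P Z Zb F w) :
    P.E (fun w => a w * ∑ x ∈ vals F, b w x * (P.pv Z F w x * (P.pv Zb' F w x / P.pv Zb F w x) *
      hphi (P.pv Z' F w x / (P.pv Z F w x * (P.pv Zb' F w x / P.pv Zb F w x))))) ≤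
    P.E (fun w => a w * (ps1g P Z' Zb' F w - ps1g P Z Zb F w)) + (1 + L) * P.E (fun w => a w * (1 - b w (F w))) +
      P.E (fun w => a w * foB P Z Zb Zb' F b w) := by
  classical
  set G : Om → φ₁ → ℝ := fun w x => b w x *
    Real.log (P.pv Z' F w x / (P.pv Z F w x * (P.pv Zb' F w x / P.pv Zb F w x))) with hG
  have hZ'Zb : Fac Z' Zb := hZb.trans hbb
  have hGf : ∀ x, Fac Z' (fun w => G w x) := fun x u u' hab => by
    show b u x * Real.log (P.pv Z' F u x / (P.pv Z F u x * (P.pv Zb' F u x / P.pv Zb F u x))) =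
      b u' x * Real.log (P.pv Z' F u' x / (P.pv Z F u' x * (P.pv Zb' F u' x / P.pv Zb F u' x)))
    have h1 : b u x = b u' x := hb x u u' hab
    rw [h1, pvc P F (hZb u u' hab) x, pvc P F (hZ'Zb u u' hab) x, pvc P F (hZZ u u' hab) x, pvc P F hab x]
  have e1 : ∀ w, P.p w ≠ 0 → G w (F w) = b w (F w) * (ps1g P Z' Zb' F w - ps1g P Z Zb F w) := by
    intro w hw
    have p1 := P.pv_self_pos Z F hw
    have p2 := P.pv_self_pos Z' F hw
    have p3 := P.pv_self_pos Zb F hw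
    have p4 := P.pv_self_pos Zb' F hw
    simp only [hG]
    rw [ps1g_log P hw, ps1g_log P hw, Real.log_div p2.ne' (mul_pos p1 (div_pos p4 p3)).ne',
      Real.log_mul p1.ne' (div_pos p4 p3).ne', Real.log_div p4.ne' p3.ne', Real.log_div p2.ne' p4.ne',
      Real.log_div p1.ne' p3.ne']
    ring
  have e2 : P.E (fun w => a w * ∑ x ∈ vals F, P.pv Z' F w x * G w x) =
      P.E (fun w => a w * (b w (F w) * (ps1g P Z' Zb' F w - ps1g P Z Zb F w))) := by
    have e3 : P.E (fun w => a w * (b w (F w) * (ps1g P Z' Zb' F w - ps1g P Z Zb F w))) =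
        P.E (fun w => a w * G w (F w)) := P.E_congr fun w hw => by rw [e1 w hw]
    rw [e3, ← P.E_mul_ce ha (fun u => G u (F u))]
    exact P.E_congr fun w _ => by rw [← P.sum_pv F hGf w]
  have e2b : P.E (fun w => a w * ∑ x ∈ vals F, P.pv Z' F w x * b w x) = P.E (fun w => a w * b w (F w)) := by
    rw [← P.E_mul_ce ha (fun u => b u (F u))]
    exact P.E_congr fun w _ => by rw [← P.sum_pv F hb w]
  have e4 : ∀ w, P.p w ≠ 0 → ∑ x ∈ vals F, b w x * (P.pv Z F w x * (P.pv Zb' F w x / P.pv Zb F w x) *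
      hphi (P.pv Z' F w x / (P.pv Z F w x * (P.pv Zb' F w x / P.pv Zb F w x)))) =
      ∑ x ∈ vals F, P.pv Z' F w x * G w x - ∑ x ∈ vals F, P.pv Z' F w x * b w x + (1 + foB P Z Zb Zb' F b w) := by
    intro w hw
    have s1 := P.pv_sum Z F hw
    have s2 := P.pv_sum Zb F hw
    have s3 : ∑ x ∈ vals F, P.pv Zb F w x * (P.pv Zb' F w x / P.pv Zb F w x) = 1 := by
      rw [← P.pv_sum Zb' F hw]
      refine Finset.sum_congr rfl fun x _ => ?_
      rcases (P.pv_nonneg Zb F w x).eq_or_lt with h | h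
      · rw [← h, zero_mul, P.pv_ac hbb F h.symm]
      · exact mul_div_cancel₀ _ h.ne'
    have s4 : 1 + foB P Z Zb Zb' F b w =
        ∑ x ∈ vals F, b w x * (P.pv Z F w x * (P.pv Zb' F w x / P.pv Zb F w x)) := by
      have s5 : foB P Z Zb Zb' F b w =
          ∑ x ∈ vals F, b w x * (P.pv Z F w x * (P.pv Zb' F w x / P.pv Zb F w x)) - ∑ x ∈ vals F, P.pv Z F w x -
          ∑ x ∈ vals F, P.pv Zb F w x * (P.pv Zb' F w x / P.pv Zb F w x) + ∑ x ∈ vals F, P.pv Zb F w x := by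
        unfold foB
        rw [← Finset.sum_sub_distrib, ← Finset.sum_sub_distrib, ← Finset.sum_add_distrib]
        exact Finset.sum_congr rfl fun x _ => by ring
      rw [s5, s1, s2, s3]
      ring
    rw [s4, ← Finset.sum_sub_distrib, ← Finset.sum_add_distrib]
    refine Finset.sum_congr rfl fun x _ => ?_
    have n1 := P.pv_nonneg Z F w x
    have n2 := P.pv_nonneg Zb' F w x
    have n3 := P.pv_nonneg Zb F w x
    rcases (P.pv_nonneg Z' F w x).eq_or_lt with h | h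
    · rw [← h, zero_div]
      unfold hphi
      simp
    · have q1 : P.pv Z F w x ≠ 0 := fun hh => h.ne' (P.pv_ac hZZ F hh)
      have q2 : P.pv Zb' F w x ≠ 0 := fun hh => h.ne' (P.pv_ac hZb F hh)
      have q3 : P.pv Zb F w x ≠ 0 := fun hh => h.ne' (P.pv_ac hZ'Zb F hh)
      simp only [hG]
      unfold hphi
      have q4 : P.pv Z F w x * (P.pv Zb' F w x / P.pv Zb F w x) ≠ 0 := mul_ne_zero q1 (div_ne_zero q2 q3)
      set R := P.pv Z F w x * (P.pv Zb' F w x / P.pv Zb F w x) with hR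
      have q5 : R * (P.pv Z' F w x / R) = P.pv Z' F w x := mul_div_cancel₀ _ q4
      have q6 : b w x * (R * (P.pv Z' F w x / R * Real.log (P.pv Z' F w x / R) - P.pv Z' F w x / R + 1)) =
          b w x * ((R * (P.pv Z' F w x / R)) * Real.log (P.pv Z' F w x / R) - R * (P.pv Z' F w x / R) + R) := by ring
      rw [q6, q5]
      ring
  have e5 : P.E (fun w => a w * ∑ x ∈ vals F, b w x * (P.pv Z F w x * (P.pv Zb' F w x / P.pv Zb F w x) *
      hphi (P.pv Z' F w x / (P.pv Z F w x * (P.pv Zb' F w x / P.pv Zb F w x))))) =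
      P.E (fun w => a w * ∑ x ∈ vals F, P.pv Z' F w x * G w x) - P.E (fun w => a w * ∑ x ∈ vals F, P.pv Z' F w x * b w x) +
      (P.E a + P.E (fun w => a w * foB P Z Zb Zb' F b w)) := by
    rw [← P.E_sub, ← P.E_add, ← P.E_add]
    refine P.E_congr fun w hw => ?_
    rw [e4 w hw]
    ring
  rw [e5, e2, e2b]
  have e6 : P.E (fun w => a w * (b w (F w) * (ps1g P Z' Zb' F w - ps1g P Z Zb F w))) - P.E (fun w => a w * b w (F w)) +
      P.E a ≤ P.E (fun w => a w * (ps1g P Z' Zb' F w - ps1g P Z Zb F w)) + (1 + L) * P.E (fun w => a w * (1 - b w (F w))) := by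
    rw [← P.E_smul, ← P.E_sub, ← P.E_add, ← P.E_add]
    refine P.E_mono fun w hw => ?_
    have g1 := hL w hw
    have g2 : 0 ≤ a w * (1 - b w (F w)) := mul_nonneg (h0 w) (by linarith [b1 w (F w)])
    nlinarith
  linarith

/-- **ONE STEP OF THE SINGLES** -/
theorem conv_step {Z : Om → β₁} {Z' : Om → β₂} {Zb : Om → α} {Zb' : Om → α'} (hZZ : Fac Z' Z)
    (hZb : Fac Z' Zb') (hbb : Fac Zb' Zb) (F : Om → φ₁) {a : Om → ℝ} (ha : Fac Z' a) (h0 : ∀ w, 0 ≤ a w) :
    P.E (fun w => a w * psf (ps1g P Z' Zb' F w - ps1g P Z Zb F w)) ≤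
    P.E (fun w => a w * (ps1g P Z' Zb' F w - ps1g P Z Zb F w)) +
      P.E (fun w => a w * ∑ x ∈ vals F, (P.pv Z F w x - P.pv Zb F w x) * (P.pv Zb' F w x / P.pv Zb F w x - 1)) := by
  obtain ⟨L, hL⟩ : ∃ L : ℝ, ∀ w, -L ≤ ps1g P Z' Zb' F w - ps1g P Z Zb F w := by
    refine ⟨∑ u, |ps1g P Z' Zb' F u - ps1g P Z Zb F u|, fun w => ?_⟩
    have h1 := Finset.single_le_sum (f := fun u => |ps1g P Z' Zb' F u - ps1g P Z Zb F u|)
      (fun u _ => abs_nonneg _) (Finset.mem_univ w)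
    have h2 := neg_abs_le (ps1g P Z' Zb' F w - ps1g P Z Zb F w)
    linarith
  have k := conv_stepB P hZZ hZb hbb F ha h0 (b := fun _ _ => 1) (fun _ _ _ _ => rfl) (fun _ _ => zero_le_one)
    (fun _ _ => le_rfl) (fun w _ => hL w)
  unfold foB at k
  simp only [one_mul, sub_self, mul_zero, zero_mul, sub_zero, P.E_const, add_zero] at k
  exact k

end gen1

/-! ### any signed potential over the run -/

section run

variable {X β γ φ : Type} [Fintype X] [Fintype β] [Fintype φ] [Nonempty X] [Nonempty β]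
variable {D : HD (Fin 3) X β γ φ} {al : ℝ} (h : D.Thick al)
  {v : ℕ → Finset (Fin 3) → X → (Fin 3 → β) → Pt (Fin 3) X β φ}
variable {dg : ℕ → X → ℝ} {prr : ℕ → Fin 3 → φ → φ} {T : ℕ} {Lam : ℝ}

/-- what a signed potential needs -/
structure PotZ (Φ : ℕ → ℕ → Pt (Fin 3) X β φ → ℝ) (v : ℕ → Finset (Fin 3) → X → (Fin 3 → β) → Pt (Fin 3) X β φ)
    (p : AP) (T : ℕ) (B mE : ℝ) : Prop where
  B0 : 0 ≤ B
  le : ∀ t ≤ T, ∀ q, 5 * t ≤ q → ∀ w, (D.P h t).p w ≠ 0 → |Φ t q w| ≤ B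
  zero : 0 ≤ (D.P h 0).E (fun w => ind (Ar h v p (2 * 0) w) * Φ 0 (5 * 0) w)
  birth : ∀ t < T, (D.P h t).E (fun w => ind (Ar h v p (2 * t + 1) w) * Φ t (5 * t + 5) w) ≤
    (D.P h (t + 1)).E (fun w => ind (Ar h v p (2 * t + 1) w) * Φ (t + 1) (5 * (t + 1)) w)
  fin : (D.P h T).E (fun w => Φ T (5 * T) w) ≤ mE

/-- **ANY SIGNED POTENTIAL, ALL STEPS**, alive sets `aS` -/
theorem run_sgnS (H : D.Hyp dg prr al T Lam) {Φ : ℕ → ℕ → Pt (Fin 3) X β φ → ℝ} {p : AP} {B mE : ℝ}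
    (hΦ : PotZ h Φ v p T B mE) (Gd : ℕ → Pt (Fin 3) X β φ → Prop) {Pd : ℝ}
    (hPd : (D.P h T).Pr (fun w => ¬ Ar h v p (2 * T) w) ≤ Pd) :
    ∑ t ∈ range T, (Gp h Φ t (5 * t) (5 * t + 1) (fun w => Ar h v p (2 * t) w ∧ Gd t w) +
      ∑ s, Gp h Φ t (qs s t) (qe s t) (aS h v p Gd s t)) ≤ mE + 2 * B * Pd := by
  classical
  set M : ℕ → ℝ := fun t => (D.P h t).E (fun w => ind (Ar h v p (2 * t) w) * Φ t (5 * t) w) with hM
  have kill : ∀ (t q r : ℕ), t ≤ T → 5 * t ≤ q → (D.P h t).E (fun w => ind (Ar h v p r w) * Φ t q w) ≤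
      (D.P h t).E (fun w => ind (Ar h v p (r + 1) w) * Φ t q w) +
        B * (D.P h t).Pr (fun w => Ar h v p r w ∧ ¬ Ar h v p (r + 1) w) := by
    intro t q r ht hq
    unfold FP.Pr
    rw [← FP.E_smul, ← FP.E_add]
    refine (D.P h t).E_mono fun w hw => ?_
    have h1 := (abs_le.1 (hΦ.le t ht q hq w hw)).2
    by_cases h2 : Ar h v p (r + 1) w
    · rw [ind_of h2, ind_of (Ar_mono h p (Nat.le_succ r) h2), ind_not (fun hh => hh.2 h2)]
      linarith
    · by_cases h3 : Ar h v p r w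
      · rw [ind_of h3, ind_not h2, ind_of ⟨h3, h2⟩]
        linarith
      · rw [ind_not h3, ind_not h2, ind_not (fun hh => h3 hh.1)]
        linarith
  have one : ∀ t ∈ range T, (Gp h Φ t (5 * t) (5 * t + 1) (fun w => Ar h v p (2 * t) w ∧ Gd t w) +
      ∑ s, Gp h Φ t (qs s t) (qe s t) (aS h v p Gd s t)) ≤ (M (t + 1) - M t) +
      B * ((D.P h t).Pr (fun w => Ar h v p (2 * t) w ∧ ¬ Ar h v p (2 * t + 1) w) +
        (D.P h (t + 1)).Pr (fun w => Ar h v p (2 * t + 1) w ∧ ¬ Ar h v p (2 * (t + 1)) w)) := by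
    intro t ht
    have htT := Finset.mem_range.1 ht
    have h3 := Gp_split h (v := v) Φ p Gd t
    have h5 : Gp h Φ t (5 * t) (5 * t + 1) (Ar h v p (2 * t)) =
        Gp h Φ t (5 * t) (5 * t + 1) (fun w => Ar h v p (2 * t) w ∧ Gd t w) +
        Gp h Φ t (5 * t) (5 * t + 1) (fun w => Ar h v p (2 * t) w ∧ ¬ Gd t w) := by
      unfold Gp
      rw [← (D.P h t).E_add]
      refine (D.P h t).E_congr fun w _ => ?_
      by_cases hA : Ar h v p (2 * t) w
      · by_cases hG : Gd t w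
        · rw [ind_of hA, ind_of (⟨hA, hG⟩ : Ar h v p (2 * t) w ∧ Gd t w),
            ind_not (fun hh : Ar h v p (2 * t) w ∧ ¬ Gd t w => hh.2 hG)]
          ring
        · rw [ind_of hA, ind_of (⟨hA, hG⟩ : Ar h v p (2 * t) w ∧ ¬ Gd t w),
            ind_not (fun hh : Ar h v p (2 * t) w ∧ Gd t w => hG hh.2)]
          ring
      · rw [ind_not hA, ind_not (fun hh : Ar h v p (2 * t) w ∧ ¬ Gd t w => hA hh.1),
          ind_not (fun hh : Ar h v p (2 * t) w ∧ Gd t w => hA hh.1)]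
        ring
    have h6 : ∑ s, Gp h Φ t (qs s t) (qe s t) (aS h v p Gd s t) =
        Gp h Φ t (5 * t) (5 * t + 1) (fun w => Ar h v p (2 * t) w ∧ ¬ Gd t w) +
        ∑ s ∈ univ.erase (0 : Fin 6), Gp h Φ t (qs s t) (qe s t) (aS h v p Gd s t) :=
      (Finset.add_sum_erase univ _ (mem_univ (0 : Fin 6))).symm
    have k1 := Gp_sub h Φ t (5 * t) (5 * t + 1) (Ar h v p (2 * t))
    have k2 := Gp_sub h Φ t (5 * t + 1) (5 * t + 5) (Ar h v p (2 * t + 1))
    have k3 := kill t (5 * t + 1) (2 * t) htT.le (by omega)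
    have k4 := hΦ.birth t htT
    have k5 := kill (t + 1) (5 * (t + 1)) (2 * t + 1) htT (le_refl _)
    have e2 : 2 * t + 1 + 1 = 2 * (t + 1) := by ring
    rw [e2] at k5
    simp only [hM]
    rw [h6, ← h3]
    linarith
  refine (Finset.sum_le_sum one).trans ?_
  rw [Finset.sum_add_distrib, Finset.sum_range_sub M, ← Finset.mul_sum]
  have h2 := mul_le_mul_of_nonneg_left ((killT (h := h) (T := T) H (a := Ar h v p)
    (fun r w hw => Ar_mono h p (Nat.le_succ r) hw) (fun r x y F F' => propext (Ar_lab h p r x y F F'))).trans hPd) hΦ.B0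
  have h3 : M T ≤ mE + B * Pd := by
    have h5 : M T ≤ (D.P h T).E (fun w => Φ T (5 * T) w) + B * (D.P h T).Pr (fun w => ¬ Ar h v p (2 * T) w) := by
      simp only [hM]
      unfold FP.Pr
      rw [← FP.E_smul, ← FP.E_add]
      refine (D.P h T).E_mono fun w hw => ?_
      have h6 := (abs_le.1 (hΦ.le T le_rfl (5 * T) le_rfl w hw)).1
      by_cases h7 : Ar h v p (2 * T) w
      · rw [ind_of h7, ind_not (fun hh => hh h7)]
        linarith
      · rw [ind_not h7, ind_of h7]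
        linarith
    have h8 := mul_le_mul_of_nonneg_left hPd hΦ.B0
    have h9 := hΦ.fin
    linarith
  have h4 : 0 ≤ M 0 := hΦ.zero
  linarith

/-- **ANY SIGNED POTENTIAL, ALL STEPS**, alive sets `aT` (alive before the step) -/
theorem run_sgnT (H : D.Hyp dg prr al T Lam) {Φ : ℕ → ℕ → Pt (Fin 3) X β φ → ℝ} {p : AP} {B mE : ℝ}
    (hΦ : PotZ h Φ v p T B mE) (Gd : ℕ → Pt (Fin 3) X β φ → Prop) {Pd : ℝ}
    (hPd : (D.P h T).Pr (fun w => ¬ Ar h v p (2 * T) w) ≤ Pd) :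
    ∑ t ∈ range T, (Gp h Φ t (5 * t) (5 * t + 1) (fun w => Ar h v p (2 * t) w ∧ Gd t w) +
      ∑ s, Gp h Φ t (qs s t) (qe s t) (aT h v p Gd s t)) ≤ mE + 8 * B * Pd := by
  classical
  have h1 := run_sgnS h H hΦ Gd hPd
  have one : ∀ t ∈ range T, (Gp h Φ t (5 * t) (5 * t + 1) (fun w => Ar h v p (2 * t) w ∧ Gd t w) +
      ∑ s, Gp h Φ t (qs s t) (qe s t) (aT h v p Gd s t)) ≤
      (Gp h Φ t (5 * t) (5 * t + 1) (fun w => Ar h v p (2 * t) w ∧ Gd t w) +
      ∑ s, Gp h Φ t (qs s t) (qe s t) (aS h v p Gd s t)) +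
      6 * B * (D.P h (t + 1)).Pr (fun w => Ar h v p (2 * t + 1) w ∧ ¬ Ar h v p (2 * (t + 1)) w) := by
    intro t ht
    have htT := Finset.mem_range.1 ht
    have hk : (D.P h t).Pr (fun w => Ar h v p (2 * t + 1) w ∧ ¬ Ar h v p (2 * (t + 1)) w) =
        (D.P h (t + 1)).Pr (fun w => Ar h v p (2 * t + 1) w ∧ ¬ Ar h v p (2 * (t + 1)) w) := by
      refine Pr_xy h (fun x y F F' => ?_) t (t + 1)
      show (_ ∧ ¬ _) = (_ ∧ ¬ _)
      rw [propext (Ar_lab h p (2 * t + 1) x y F F'), propext (Ar_lab h p (2 * (t + 1)) x y F F')]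
    have key : ∀ s : Fin 6, Gp h Φ t (qs s t) (qe s t) (aT h v p Gd s t) ≤
        Gp h Φ t (qs s t) (qe s t) (aS h v p Gd s t) + (if s.1 ≤ 2 then 0 else
          2 * B * (D.P h t).Pr (fun w => Ar h v p (2 * t + 1) w ∧ ¬ Ar h v p (2 * (t + 1)) w)) := by
      intro s
      by_cases hs : s.1 ≤ 2
      · rw [if_pos hs, add_zero]
        unfold Gp
        refine le_of_eq ((D.P h t).E_congr fun w _ => ?_)
        by_cases hw : aS h v p Gd s t w
        · rw [ind_of hw, ind_of (aT_small p hs hw)]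
        · rw [ind_not hw, ind_not (fun hh => hw hh.1)]
      · rw [if_neg hs]
        unfold Gp FP.Pr
        rw [← FP.E_smul, ← FP.E_add]
        refine (D.P h t).E_mono fun w hw => ?_
        have hl := (abs_le.1 (hΦ.le t htT.le (qs s t) (qs_ge s t) w hw)).2
        have hl' := (abs_le.1 (hΦ.le t htT.le (qe s t) ((qs_ge s t).trans (qs_le_qe s t)) w hw)).1
        by_cases h1 : aS h v p Gd s t w
        · by_cases h2 : aT h v p Gd s t w
          · rw [ind_of h1, ind_of h2]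
            have := mul_nonneg hΦ.B0 (ind_nonneg (Ar h v p (2 * t + 1) w ∧ ¬ Ar h v p (2 * (t + 1)) w))
            linarith
          · rw [ind_of h1, ind_not h2, ind_of (aT_kill p hw h1 h2)]
            linarith
        · rw [ind_not h1, ind_not (fun hh => h1 hh.1), zero_mul, zero_add]
          exact mul_nonneg (by linarith [hΦ.B0]) (ind_nonneg _)
    have h3 := Finset.sum_le_sum fun s (_ : s ∈ (univ : Finset (Fin 6))) => key s
    rw [Finset.sum_add_distrib] at h3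
    have h4 : ∑ s : Fin 6, (if s.1 ≤ 2 then 0 else
        2 * B * (D.P h t).Pr (fun w => Ar h v p (2 * t + 1) w ∧ ¬ Ar h v p (2 * (t + 1)) w)) =
        6 * B * (D.P h (t + 1)).Pr (fun w => Ar h v p (2 * t + 1) w ∧ ¬ Ar h v p (2 * (t + 1)) w) := by
      rw [← hk, Fin.sum_univ_six]
      simp
      ring
    rw [h4] at h3
    linarith
  refine (Finset.sum_le_sum one).trans ?_
  rw [Finset.sum_add_distrib, ← Finset.mul_sum]
  have h2 := (sum_killT (h := h) (v := v) H p).trans hPd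
  have h3 := mul_le_mul_of_nonneg_left h2 (show 0 ≤ 6 * B by linarith [hΦ.B0])
  linarith

/-! ### the singles -/

variable (v) in
/-- log ratio of the two laws of the top `i` at the true top, state `q` -/
def ps1 (i : Fin 3) (t q : ℕ) (w : Pt (Fin 3) X β φ) : ℝ :=
  ps1g (D.P h t) (ZQ D v q) (ZbQ D v q i) (FQ v t i) w

theorem ps1_log {i : Fin 3} {t q : ℕ} {w : Pt (Fin 3) X β φ} (hw : (D.P h t).p w ≠ 0) :
    ps1 h v i t q w = Real.log ((D.P h t).pv (ZQ D v q) (FQ v t i) w (FQ v t i w) /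
      (D.P h t).pv (ZbQ D v q i) (FQ v t i) w (FQ v t i w)) := ps1g_log (D.P h t) hw

/-- thickness of one top given all thin labels -/
theorem spZ1_le (H : D.Hyp dg prr al T Lam) {n N1 : ℝ} (R : Run h (pr3 (Fin 3) n N1) (SS1 (Fin 3)) (AdmDep D) v)
    (hn : 1 ≤ n) (hN1 : 1 ≤ N1) {t q : ℕ} (ht : t ≤ T) (hq : 5 * t ≤ q) (i : Fin 3) {w : Pt (Fin 3) X β φ}
    (hw : (D.P h t).p w ≠ 0) : sp (D.P h t) (FQ v t i) (ZQ D v q) w ≤ Lam := by
  have hN0 : ∀ l : Fin 3, 0 < pr3 (Fin 3) n N1 (univ.erase l) := fun l => zero_lt_one.trans_le (pr3_one hn hN1 _)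
  have hSl : ∀ l : Fin 3, univ.erase l ∈ SS1 (Fin 3) := fun l => mem_SS1.2 (Finset.erase_ne_self.2 (mem_univ l))
  have hSu : (univ : Finset (Fin 3)) ∉ SS1 (Fin 3) := fun hh => mem_SS1.1 hh rfl
  have hn' : t ≤ TP.nn q := by
    have := nn_mono hq
    rwa [nn_0] at this
  have h1 := labels_thick h {i} hn' (Z := ZQ D v q) (ZQ_xy q) (fun a b hab => by
    have g1 : WW D (TP.nn q) a = WW D (TP.nn q) b := congrArg Prod.snd hab
    have g2 := WW_eq.1 g1
    exact ⟨fun l _ j _ => by rw [g2.1], g2.2, fun j => by rw [g2.1]⟩) hw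
  rw [Finset.card_singleton, pow_one] at h1
  have h2 : (D.P h t).E (fun u => ind (ZQ D v q u = ZQ D v q w) * ind (∀ l ∈ ({i} : Finset (Fin 3)), u.2.2 l = w.2.2 l)) ≤
      (D.P h t).m (fun u => (FQ v t i u, ZQ D v q u)) w := by
    unfold FP.m
    refine (D.P h t).E_mono fun u hu' => ?_
    rw [← ind_and]
    refine ind_mono fun hh => ?_
    simp only [Prod.mk.injEq]
    exact ⟨(top_name H R hSl hSu hN0 ht hq hu' hw (ZQ_Zb q i _ _ hh.1)).2 (hh.2 i (Finset.mem_singleton_self i)), hh.1⟩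
  have h3 := h1.trans h2
  unfold sp
  have h4 := (D.P h t).m_pos (ZQ D v q) hw
  have h5 := mul_pos h.pos h4
  have h6 := Real.log_le_log h5 h3
  rw [Real.log_mul h.pos.ne' h4.ne'] at h6
  have h7 := log_al H h.pos
  rw [one_div, Real.log_inv] at h7
  linarith

theorem ps1_abs (H : D.Hyp dg prr al T Lam) {n N1 : ℝ} (R : Run h (pr3 (Fin 3) n N1) (SS1 (Fin 3)) (AdmDep D) v)
    (hn : 1 ≤ n) (hN1 : 1 ≤ N1) {t q : ℕ} (ht : t ≤ T) (hq : 5 * t ≤ q) (i : Fin 3) {w : Pt (Fin 3) X β φ}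
    (hw : (D.P h t).p w ≠ 0) : |ps1 h v i t q w| ≤ Lam := by
  have h1 := spZ1_le h H R hn hN1 ht hq i hw
  have h2 := sp_nonneg (D.P h t) (FQ v t i) (ZQ D v q) hw
  have h3 := spF_le H R (fun l => zero_lt_one.trans_le (pr3_one hn hN1 _)) ht hq i hw
  have h4 := sp_nonneg (D.P h t) (FQ v t i) (ZbQ D v q i) hw
  unfold ps1 ps1g
  rw [abs_le]
  constructor <;> linarith

theorem ps1_nn (i : Fin 3) (t q : ℕ) {S : Pt (Fin 3) X β φ → Prop} (hS : Fac (ZQ D v q) S) :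
    0 ≤ (D.P h t).E (fun w => ind (S w) * ps1 h v i t q w) := ps1g_nn (D.P h t) (ZQ_Zb q i) (FQ v t i) hS

/-- **births** -/
theorem ps1_birth (H : D.Hyp dg prr al T Lam) (i : Fin 3) {t : ℕ} (ht : t < T) (p : AP) :
    (D.P h t).E (fun w => ind (Ar h v p (2 * t + 1) w) * ps1 h v i t (5 * t + 5) w) ≤
      (D.P h (t + 1)).E (fun w => ind (Ar h v p (2 * t + 1) w) * ps1 h v i (t + 1) (5 * (t + 1)) w) := by
  have eq5 : 5 * (t + 1) = 5 * t + 5 := by ring
  rw [eq5]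
  have hZo : ∀ w, ZQ (φ := φ) D v (5 * t + 5) (old prr t w) = ZQ D v (5 * t + 5) w := ZQ_oldJ t (5 * t + 5)
  have hZbo : ∀ w, ZbQ (φ := φ) D v (5 * t + 5) i (old prr t w) = ZbQ D v (5 * t + 5) i w := fun w =>
    ZQ_Zb (5 * t + 5) i _ _ (hZo w)
  have e1 : (D.P h t).E (fun w => ind (Ar h v p (2 * t + 1) w) * ps1 h v i t (5 * t + 5) w) =
      (D.P h (t + 1)).E (fun w => ind (Ar h v p (2 * t + 1) w) * ps1g (D.P h (t + 1)) (ZQ D v (5 * t + 5))
        (ZbQ D v (5 * t + 5) i) (fun u => FQ v t i (old prr t u)) w) := by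
    rw [← push_E h (H.kf_pr t ht)]
    refine (D.P h (t + 1)).E_congr fun w _ => ?_
    have a1 : Ar h v p (2 * t + 1) (old prr t w) = Ar h v p (2 * t + 1) w := propext (Ar_lab h p _ w.1 w.2.1 _ _)
    have a2 : ps1 h v i t (5 * t + 5) (old prr t w) = ps1g (D.P h (t + 1)) (ZQ D v (5 * t + 5)) (ZbQ D v (5 * t + 5) i)
        (fun u => FQ v t i (old prr t u)) w := by
      unfold ps1 ps1g
      rw [sp_push h (H.kf_pr t ht), sp_push h (H.kf_pr t ht)]
      have b1 : (fun u => ZQ (φ := φ) D v (5 * t + 5) (old prr t u)) = ZQ D v (5 * t + 5) := funext hZo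
      have b2 : (fun u => ZbQ (φ := φ) D v (5 * t + 5) i (old prr t u)) = ZbQ D v (5 * t + 5) i := funext hZbo
      rw [b1, b2]
    rw [a1, a2]
  rw [e1]
  unfold ps1
  refine ps1g_grow (D.P h (t + 1)) (ZQ_Zb (5 * t + 5) i) (fun a b hab => ?_) (fun a b hab => ?_)
  · exact FQ_old t i (Prod.mk.inj hab).1
  · exact Ar1_fac h p t a b (ZQ_mono (show 5 * t + 1 ≤ 5 * t + 5 by omega) a b (Prod.mk.inj hab).2)

/-- the single is below the triple in the mean -/
theorem ps1_le3 (i : Fin 3) (t q : ℕ) : (D.P h t).E (ps1 h v i t q) ≤ (D.P h t).E (psQ h v t q) := by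
  have e1 : (D.P h t).E (psQ h v t q) = (D.P h t).E (psF (D.P h t) (ZQ D v q) (ZbQ D v q) (FQ v t)) :=
    (D.P h t).E_congr fun w hw => psC_psF (D.P h t) hw
  have k0 : 0 ≤ (D.P h t).E (ps2 h v i t q) := by
    have k := psF_exp (D.P h t) (ZQ D v q) (ZbQ D v q) (fun j => ZQ_Zb q j) (Fo (FQ v t) i) (S := fun _ => True)
      (fun _ _ _ => rfl)
    have h2 : (D.P h t).Pr (fun _ : Pt (Fin 3) X β φ => True) = 1 := by
      unfold FP.Pr
      rw [(D.P h t).E_congr (g := fun _ => 1) fun w _ => ind_of trivial, (D.P h t).E_const]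
    rw [h2] at k
    have h3 : 1 - (D.P h t).E (fun w => ind True * Real.exp (-psF (D.P h t) (ZQ D v q) (ZbQ D v q) (Fo (FQ v t) i) w)) ≤
        (D.P h t).E (ps2 h v i t q) := by
      rw [← (D.P h t).E_const 1, ← (D.P h t).E_sub]
      refine (D.P h t).E_mono fun w _ => ?_
      rw [ind_of trivial, one_mul]
      have := Real.add_one_le_exp (-psF (D.P h t) (ZQ D v q) (ZbQ D v q) (Fo (FQ v t) i) w)
      unfold ps2
      linarith
    linarith
  have e2 : ∀ w, psF (D.P h t) (ZQ D v q) (ZbQ D v q) (FQ v t) w =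
      ps2 h v i t q w + (sp (D.P h t) (FQ v t i) (ZbQ D v q i) w -
        sp (D.P h t) (FQ v t i) (fun w => (tup (Fo (FQ v t) i) w, ZQ D v q w)) w) := by
    intro w
    unfold ps2 psF
    have k1 := Fo_chain (D.P h t) (FQ v t) i (ZQ D v q) w
    rw [sp_unit (D.P h t) (FQ v t i) (fun u => (tup (Fo (FQ v t) i) u, ZQ D v q u)) w] at k1
    have k2 : ∑ j, sp (D.P h t) (FQ v t j) (ZbQ D v q j) w = sp (D.P h t) (FQ v t i) (ZbQ D v q i) w +
        ∑ j, sp (D.P h t) (Fo (FQ v t) i j) (ZbQ D v q j) w := by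
      rw [← Finset.add_sum_erase univ (fun j => sp (D.P h t) (FQ v t j) (ZbQ D v q j) w) (mem_univ i),
        ← Finset.add_sum_erase univ (fun j => sp (D.P h t) (Fo (FQ v t) i j) (ZbQ D v q j) w) (mem_univ i), Fo_self, zero_add]
      congr 1
      exact Finset.sum_congr rfl fun j hj => (Fo_ne (D.P h t) (FQ v t) (Finset.ne_of_mem_erase hj) _ w).symm
    rw [k1, k2]
    ring
  rw [e1, (funext e2 : psF (D.P h t) (ZQ D v q) (ZbQ D v q) (FQ v t) = _)]
  rw [FP.E_add, FP.E_sub, E_sp, E_sp]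
  have e3 : (D.P h t).E (ps1 h v i t q) = (D.P h t).Hc (FQ v t i) (ZbQ D v q i) - (D.P h t).Hc (FQ v t i) (ZQ D v q) := by
    rw [← E_sp, ← E_sp, ← FP.E_sub]
    rfl
  rw [e3]
  have h3 := (D.P h t).Hc_anti (FQ v t i) (Y := fun w => (tup (Fo (FQ v t) i) w, ZQ D v q w)) (Z := ZQ D v q)
    (Fac.snd _ _)
  linarith

/-- **the end** -/
theorem ps1_end (H : D.Hyp dg prr al T Lam) {n N1 : ℝ} (R : Run h (pr3 (Fin 3) n N1) (SS1 (Fin 3)) (AdmDep D) v)
    (hn : 1 ≤ n) (hN1 : 1 ≤ N1) {t : ℕ} (ht : t ≤ T) (i : Fin 3) :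
    (D.P h t).E (ps1 h v i t (5 * t)) ≤ mT n N1 Lam := by
  have hK : Fintype.card (Fin 3) = 3 := rfl
  have h2 := EndTR.endT3_run hK R H hn hN1 ht
  rw [← Mt_MR h (v := v) (t := t) down_ne pth_down (ne_u hK) pth0 (pth_sub hK), ← E_iR] at h2
  have h3 : (D.P h t).E (psQ h v t (5 * t)) = (D.P h t).E (iR (D.P h t) (fun J : Finset (Fin 3) => J ≠ univ) pth
      (LL (Um v (t + 1))) (WW D t)) := (D.P h t).E_congr fun w hw => (iR_iQ0 h R.codes hw).symm
  have h4 := ps1_le3 h (v := v) i t (5 * t)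
  have h5 : (D.P h t).E (psQ h v t (5 * t)) ≤ 54 * n * Lam / N1 + 24 * Lam / n + 12 * Lam / N1 := by
    rw [h3]
    exact h2
  unfold mT
  linarith

theorem ps1_pot (H : D.Hyp dg prr al T Lam) {n N1 : ℝ} (R : Run h (pr3 (Fin 3) n N1) (SS1 (Fin 3)) (AdmDep D) v)
    (hn : 1 ≤ n) (hN1 : 1 ≤ N1) (p : AP) (i : Fin 3) : PotZ h (ps1 h v i) v p T Lam (mT n N1 Lam) where
  B0 := by have : (1 : ℝ) ≤ Lam := H.Lam1; linarith
  le _ ht _ hq _ hw := ps1_abs h H R hn hN1 ht hq i hw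
  zero := ps1_nn h i 0 (5 * 0) (Ar0_fac h p 0)
  birth _ ht := ps1_birth h H i ht p
  fin := ps1_end h H R hn hN1 (le_refl T) i

/-- **THE SINGLES, ALL STEPS**, alive sets `aS` -/
theorem conv_stepS (H : D.Hyp dg prr al T Lam) {n N1 : ℝ} (R : Run h (pr3 (Fin 3) n N1) (SS1 (Fin 3)) (AdmDep D) v)
    (hn : 1 ≤ n) (hN1 : 1 ≤ N1) (p : AP) (Gd : ℕ → Pt (Fin 3) X β φ → Prop) {Pd : ℝ}
    (hPd : (D.P h T).Pr (fun w => ¬ Ar h v p (2 * T) w) ≤ Pd) (i : Fin 3) :
    ∑ t ∈ range T, (Gp h (ps1 h v i) t (5 * t) (5 * t + 1) (fun w => Ar h v p (2 * t) w ∧ Gd t w) +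
      ∑ s, Gp h (ps1 h v i) t (qs s t) (qe s t) (aS h v p Gd s t)) ≤ mT n N1 Lam + 2 * Lam * Pd :=
  run_sgnS h H (ps1_pot h H R hn hN1 p i) Gd hPd

/-- **THE SINGLES, ALL STEPS**, alive sets `aT` -/
theorem conv_stepT (H : D.Hyp dg prr al T Lam) {n N1 : ℝ} (R : Run h (pr3 (Fin 3) n N1) (SS1 (Fin 3)) (AdmDep D) v)
    (hn : 1 ≤ n) (hN1 : 1 ≤ N1) (p : AP) (Gd : ℕ → Pt (Fin 3) X β φ → Prop) {Pd : ℝ}
    (hPd : (D.P h T).Pr (fun w => ¬ Ar h v p (2 * T) w) ≤ Pd) (i : Fin 3) :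
    ∑ t ∈ range T, (Gp h (ps1 h v i) t (5 * t) (5 * t + 1) (fun w => Ar h v p (2 * t) w ∧ Gd t w) +
      ∑ s, Gp h (ps1 h v i) t (qs s t) (qe s t) (aT h v p Gd s t)) ≤ mT n N1 Lam + 8 * Lam * Pd :=
  run_sgnT h H (ps1_pot h H R hn hN1 p i) Gd hPd

variable (v) in
/-- change of the single of the top `i` in the step `(s, t)` -/
def dL1 (s : Fin 6) (t : ℕ) (i : Fin 3) (w : Pt (Fin 3) X β φ) : ℝ := ps1 h v i t (qe s t) w - ps1 h v i t (qs s t) w

variable (v) in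
/-- first order term of the step `(s, t)`, full ratio, the letters `1 - b` cut in the new law -/
def foQ (s : Fin 6) (t : ℕ) (i : Fin 3) (b : Pt (Fin 3) X β φ → TP.Tt X β φ → ℝ) (w : Pt (Fin 3) X β φ) : ℝ :=
  foB (D.P h t) (ZQ D v (qs s t)) (ZbQ D v (qs s t) i) (ZbQ D v (qe s t) i) (FQ v t i) b w

theorem foQ_eq (s : Fin 6) (t : ℕ) (i : Fin 3) (b : Pt (Fin 3) X β φ → TP.Tt X β φ → ℝ) {w : Pt (Fin 3) X β φ}
    (hw : (D.P h t).p w ≠ 0) : foQ h v s t i b w = ∑ x ∈ vals (FQ v t i),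
      (((D.P h t).pv (ZQ D v (qs s t)) (FQ v t i) w x - (D.P h t).pv (ZbQ D v (qs s t) i) (FQ v t i) w x) *
        (rS h v s t i w x - 1) -
      (1 - b w x) * ((D.P h t).pv (ZQ D v (qs s t)) (FQ v t i) w x * rS h v s t i w x)) := by
  unfold foQ foB
  exact Finset.sum_congr rfl fun x _ => by rw [rS_eq h s t i hw x]

/-- one step of the run -/
theorem conv_one (H : D.Hyp dg prr al T Lam) {n N1 : ℝ} (R : Run h (pr3 (Fin 3) n N1) (SS1 (Fin 3)) (AdmDep D) v)
    (hn : 1 ≤ n) (hN1 : 1 ≤ N1) {t : ℕ} (ht : t ≤ T) (s : Fin 6) (i : Fin 3) {A : Pt (Fin 3) X β φ → Prop}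
    (hA : Fac (ZQ D v (qe s t)) A) {b : Pt (Fin 3) X β φ → TP.Tt X β φ → ℝ} (hb : ∀ x, Fac (ZQ D v (qe s t)) (fun w => b w x))
    (b0 : ∀ w x, 0 ≤ b w x) (b1 : ∀ w x, b w x ≤ 1) :
    (D.P h t).E (fun w => ind (A w) * (b w (FQ v t i w) * psf (dL1 h v s t i w))) ≤
      Gp h (ps1 h v i) t (qs s t) (qe s t) A +
      (1 + 2 * Lam) * (D.P h t).E (fun w => ind (A w) * (1 - b w (FQ v t i w))) +
      (D.P h t).E (fun w => ind (A w) * foQ h v s t i b w) := by
  have hq := qs_le_qe s t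
  refine conv_stepB (D.P h t) (ZQ_mono hq) (ZQ_Zb (qe s t) i) (ZbQ_mono hq i) (FQ v t i) (hA.comp fun q => ind q)
    (fun _ => ind_nonneg _) hb b0 b1 (L := 2 * Lam) fun w hw => ?_
  have h1 := (abs_le.1 (ps1_abs h H R hn hN1 ht (qs_ge s t) i hw)).2
  have h2 := (abs_le.1 (ps1_abs h H R hn hN1 ht ((qs_ge s t).trans hq) i hw)).1
  unfold ps1 at h1 h2
  linarith

/-- **CONV OVER THE RUN**, alive sets `aT`, letters `1 - b` cut.  The digits with `Gd` are on the right side with their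
first order term only. -/
theorem conv_runB (H : D.Hyp dg prr al T Lam) {n N1 : ℝ} (R : Run h (pr3 (Fin 3) n N1) (SS1 (Fin 3)) (AdmDep D) v)
    (hn : 1 ≤ n) (hN1 : 1 ≤ N1) (p : AP) {Gd : ℕ → Pt (Fin 3) X β φ → Prop} (fG : ∀ t, Fac (ZT D v (t + 1) t) (Gd t))
    {Pd : ℝ} (hPd : (D.P h T).Pr (fun w => ¬ Ar h v p (2 * T) w) ≤ Pd) (i : Fin 3)
    {b : Fin 6 → ℕ → Pt (Fin 3) X β φ → TP.Tt X β φ → ℝ} (hb : ∀ s t x, Fac (ZQ D v (qe s t)) (fun w => b s t w x))
    (b0 : ∀ s t w x, 0 ≤ b s t w x) (b1 : ∀ s t w x, b s t w x ≤ 1) :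
    ∑ t ∈ range T, ∑ s, (D.P h t).E (fun w => ind (aT h v p Gd s t w) *
        (b s t w (FQ v t i w) * psf (dL1 h v s t i w))) ≤
      mT n N1 Lam + 8 * Lam * Pd +
      (1 + 2 * Lam) * ∑ t ∈ range T, ∑ s, (D.P h t).E (fun w => ind (aT h v p Gd s t w) * (1 - b s t w (FQ v t i w))) +
      ∑ t ∈ range T, (∑ s, (D.P h t).E (fun w => ind (aT h v p Gd s t w) * foQ h v s t i (b s t) w) +
        (D.P h t).E (fun w => ind (Ar h v p (2 * t) w ∧ Gd t w) * foQ h v 0 t i (fun _ _ => 1) w)) := by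
  have h1 := conv_stepT h H R hn hN1 p Gd hPd i
  have k : ∀ t ∈ range T, ∑ s, (D.P h t).E (fun w => ind (aT h v p Gd s t w) *
      (b s t w (FQ v t i w) * psf (dL1 h v s t i w))) ≤
      (Gp h (ps1 h v i) t (5 * t) (5 * t + 1) (fun w => Ar h v p (2 * t) w ∧ Gd t w) +
        ∑ s, Gp h (ps1 h v i) t (qs s t) (qe s t) (aT h v p Gd s t)) +
      (1 + 2 * Lam) * ∑ s, (D.P h t).E (fun w => ind (aT h v p Gd s t w) * (1 - b s t w (FQ v t i w))) +
      (∑ s, (D.P h t).E (fun w => ind (aT h v p Gd s t w) * foQ h v s t i (b s t) w) +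
        (D.P h t).E (fun w => ind (Ar h v p (2 * t) w ∧ Gd t w) * foQ h v 0 t i (fun _ _ => 1) w)) := by
    intro t ht
    have htT := Finset.mem_range.1 ht
    have fa : ∀ s, Fac (ZQ D v (qe s t)) (aT h v p Gd s t) := fun s a c hac =>
      aT_fac p (fG t) s a c (by simp only [Prod.mk.injEq]; exact ⟨hac, ZQ_mono (qs_le_qe s t) a c hac⟩)
    have g1 := Finset.sum_le_sum fun s (_ : s ∈ (univ : Finset (Fin 6))) =>
      conv_one h H R hn hN1 htT.le s i (fa s) (hb s t) (b0 s t) (b1 s t)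
    rw [Finset.sum_add_distrib, Finset.sum_add_distrib, ← Finset.mul_sum] at g1
    have fg : Fac (ZQ D v (qe 0 t)) (fun w => Ar h v p (2 * t) w ∧ Gd t w) := by
      intro a c hac
      have hc : ZQ D v (5 * t) a = ZQ D v (5 * t) c := ZQ_mono (qs_le_qe 0 t) a c hac
      have c1 : Ar h v p (2 * t) a = Ar h v p (2 * t) c := Ar0_fac h p t a c hc
      have c2 : Gd t a = Gd t c := fG t a c (by rw [← ZQ_0]; exact hc)
      show (_ ∧ _) = (_ ∧ _)
      rw [c1, c2]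
    have g2 := conv_one h H R hn hN1 htT.le 0 i fg (b := fun _ _ => 1) (fun _ _ _ _ => rfl) (fun _ _ => zero_le_one)
      (fun _ _ => le_rfl)
    have g3 : 0 ≤ (D.P h t).E (fun w => ind (Ar h v p (2 * t) w ∧ Gd t w) * (1 * psf (dL1 h v 0 t i w))) :=
      (D.P h t).E_nonneg fun w _ => mul_nonneg (ind_nonneg _) (mul_nonneg zero_le_one (psf_nn _))
    have g4 : (D.P h t).E (fun w => ind (Ar h v p (2 * t) w ∧ Gd t w) * ((1 : ℝ) - 1)) = 0 := by
      rw [← (D.P h t).E_const 0]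
      exact (D.P h t).E_congr fun w _ => by ring
    rw [g4, mul_zero, add_zero] at g2
    have g5 : Gp h (ps1 h v i) t (qs 0 t) (qe 0 t) (fun w => Ar h v p (2 * t) w ∧ Gd t w) =
        Gp h (ps1 h v i) t (5 * t) (5 * t + 1) (fun w => Ar h v p (2 * t) w ∧ Gd t w) := rfl
    rw [g5] at g2
    linarith
  refine (Finset.sum_le_sum k).trans ?_
  rw [Finset.sum_add_distrib, Finset.sum_add_distrib, ← Finset.mul_sum]
  linarith

/-- **CONV OVER THE RUN** -/
theorem conv_run (H : D.Hyp dg prr al T Lam) {n N1 : ℝ} (R : Run h (pr3 (Fin 3) n N1) (SS1 (Fin 3)) (AdmDep D) v)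
    (hn : 1 ≤ n) (hN1 : 1 ≤ N1) (p : AP) {Gd : ℕ → Pt (Fin 3) X β φ → Prop} (fG : ∀ t, Fac (ZT D v (t + 1) t) (Gd t))
    {Pd : ℝ} (hPd : (D.P h T).Pr (fun w => ¬ Ar h v p (2 * T) w) ≤ Pd) (i : Fin 3) :
    ∑ t ∈ range T, ∑ s, (D.P h t).E (fun w => ind (aT h v p Gd s t w) * psf (dL1 h v s t i w)) ≤
      mT n N1 Lam + 8 * Lam * Pd +
      ∑ t ∈ range T, (∑ s, (D.P h t).E (fun w => ind (aT h v p Gd s t w) * foQ h v s t i (fun _ _ => 1) w) +
        (D.P h t).E (fun w => ind (Ar h v p (2 * t) w ∧ Gd t w) * foQ h v 0 t i (fun _ _ => 1) w)) := by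
  have k := conv_runB h H R hn hN1 p fG hPd i (b := fun _ _ _ _ => 1) (fun _ _ _ _ _ _ => rfl)
    (fun _ _ _ _ => zero_le_one) (fun _ _ _ _ => le_rfl)
  have z : ∀ t, ∑ s : Fin 6, (D.P h t).E (fun w => ind (aT h v p Gd s t w) * ((1 : ℝ) - 1)) = 0 := fun t =>
    Finset.sum_eq_zero fun s _ => by
      rw [← (D.P h t).E_const 0]
      exact (D.P h t).E_congr fun w _ => by ring
  simp only [z, Finset.sum_const_zero, mul_zero, add_zero, one_mul] at k
  exact k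

/-! ### the cut of the strong letters with a bad single -/

/-- the letters which are strong (`B < r`) and whose single is bad (`(1 + d) q < m`) -/
def Bx (s : Fin 6) (t : ℕ) (i : Fin 3) (v : ℕ → Finset (Fin 3) → X → (Fin 3 → β) → Pt (Fin 3) X β φ) (B d : ℝ)
    (w : Pt (Fin 3) X β φ) (x : TP.Tt X β φ) : Prop :=
  B < (D.P h t).pv (ZbQ D v (qe s t) i) (FQ v t i) w x / (D.P h t).pv (ZbQ D v (qs s t) i) (FQ v t i) w x ∧
  (1 + d) * (D.P h t).pv (ZbQ D v (qs s t) i) (FQ v t i) w x < (D.P h t).pv (ZQ D v (qs s t)) (FQ v t i) w x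

theorem Bx_fac (s : Fin 6) (t : ℕ) (i : Fin 3) (B d : ℝ) (x : TP.Tt X β φ) :
    Fac (ZQ D v (qe s t)) (fun w => Bx h s t i v B d w x) := by
  intro a c hac
  have hc := ZQ_mono (qs_le_qe s t) a c hac
  show Bx h s t i v B d a x = Bx h s t i v B d c x
  unfold Bx
  rw [pvc (D.P h t) (FQ v t i) (ZQ_Zb (qe s t) i a c hac) x, pvc (D.P h t) (FQ v t i) (ZQ_Zb (qs s t) i a c hc) x,
    pvc (D.P h t) (FQ v t i) hc x]

/-- the first order term with the bad strong letters cut: truncated first order term and `d` times the new mass of the strong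
letters -/
theorem foQ_cut (s : Fin 6) (t : ℕ) (i : Fin 3) {B d : ℝ} (hB : 1 ≤ B) (hd : 0 ≤ d) {w : Pt (Fin 3) X β φ}
    (hw : (D.P h t).p w ≠ 0) :
    foQ h v s t i (fun w x => 1 - ind (Bx h s t i v B d w x)) w ≤
      phi1 (D.P h t) (ZbQ D v (qs s t) i) (ZQ D v (qs s t)) (FQ v t i) (ZbQ D v (qe s t) i) B w (ZbQ D v (qe s t) i w) +
      d * ∑ x ∈ vals (FQ v t i), ind (B < rS h v s t i w x) *
        (D.P h t).pv (ZbQ D v (qe s t) i) (FQ v t i) w x := by
  rw [foQ_eq h s t i _ hw]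
  unfold phi1
  rw [Finset.mul_sum, ← Finset.sum_add_distrib]
  refine Finset.sum_le_sum fun x _ => ?_
  have e1 : rS h v s t i w x = rr (D.P h t) (ZbQ D v (qs s t) i) (FQ v t i) (ZbQ D v (qe s t) i) w
      (ZbQ D v (qe s t) i w) x := rfl
  rw [← e1]
  have e2 := rS_eq h (v := v) s t i hw x
  set r := rS h v s t i w x with hr
  set m := (D.P h t).pv (ZQ D v (qs s t)) (FQ v t i) w x with hm
  set q := (D.P h t).pv (ZbQ D v (qs s t) i) (FQ v t i) w x with hq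
  set q' := (D.P h t).pv (ZbQ D v (qe s t) i) (FQ v t i) w x with hq'
  have m0 : 0 ≤ m := (D.P h t).pv_nonneg _ _ _ _
  have q0 : 0 ≤ q := (D.P h t).pv_nonneg _ _ _ _
  have q0' : 0 ≤ q' := (D.P h t).pv_nonneg _ _ _ _
  have e3 : Bx h s t i v B d w x ↔ B < r ∧ (1 + d) * q < m := by
    unfold Bx
    rw [← e2]
  by_cases hs : B < r
  · have hqp : 0 < q := by
      rcases q0.eq_or_lt with h0 | h0
      · exfalso
        rw [← h0, div_zero] at e2
        linarith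
      · exact h0
    have e4 : q * r = q' := by rw [e2]; exact mul_div_cancel₀ _ hqp.ne'
    have e5 : hwk B r = 0 := by
      unfold hwk
      rw [ind_not (fun hh => hh hs), zero_mul]
    rw [e5, ind_of hs]
    have hr0 : 0 ≤ r := by linarith
    by_cases hb : (1 + d) * q < m
    · rw [ind_of (e3.2 ⟨hs, hb⟩)]
      have := mul_nonneg hd q0'
      nlinarith
    · rw [ind_not (fun hh => hb (e3.1 hh).2)]
      have h6 : m - q ≤ d * q := by linarith [not_lt.1 hb]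
      have h7 := mul_le_mul_of_nonneg_right h6 hr0
      have h8 : d * q * r = d * q' := by rw [mul_assoc, e4]
      linarith
  · have e5 : hwk B r = r := by
      unfold hwk
      rw [ind_of hs, one_mul]
    rw [e5, ind_not hs, ind_not (fun hh => hs (e3.1 hh).1)]
    linarith

end run

end

end Pool.Agent.GMH.Hot2
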