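import Pool.Agent.GMH.TopAct
import Pool.Agent.GMH.TopAl

/-!
# GMH/TopFin: `TopDynL` from kinds and four kinds of sums (helper11)

`TopKin` : for every run as in `TopDynL` there are good points `Gd` of the digits, a status `st t` (seen by the thin labels of
the joint step `1`) and a status `sp t` (seen by the thin labels of the private step `5`, the codes of the three vertices
together) such that
* (NT) the normalisation of the good digits is small;
* `FullOK .. e0` : kinds `κ` of released tuples (`rel`, `bit`), a partial cut `om`, `eta`, `K` with (DY) the dynamic terms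
  `DyS`, (PR) the prices of the bits, (NO) the normalisations `NoS`, alive set `aN` (`aT` of `GMH/TopAl`, not split; nothing in
  the trivial steps `3`, `4`);
* `TwoOK .. i (e2 i)` : the same for the two tops of the vertex `i`, on the steps `s2 b` (`1` for `b = false`, `5` for
  `b = true`) with status `some i`, one set of kinds;
* `OneOK .. i (e1 i)` : the top without `i` on these points of the joint step `1`; on those of the private step `5` only
* `OneP .. i` : the sum of the positive parts of the log ratios of the own law of this top (`one_priv`, no kinds);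
* the last numbers bound the normalisations, all together at most `7 (pw Lam 16)⁻¹` (first order terms of the branches
  light / heavy cancel only in the sum).
Each of the other sums at most `(pw Lam 16)⁻¹`.
`topDynL_of : TopKin → TopDynL`, `harm3_kin : TopKin → HarmW (Fin 3)` with `ThinDyn 32`.
-/

set_option autoImplicit false
set_option linter.unusedSectionVars false

namespace Pool.Agent.GMH.TP

open Finset Pool.Agent.PWZ Pool.Agent.M3 Pool.Agent.GM Pool.Agent.GM.Harm Pool.Agent.GMH Pool.Agent.GMH.NZ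
open Pool.Agent.GMH.V3

noncomputable section

/-- the tuples of the tops -/
abbrev Tu (X β φ : Type) : Type := Fin 3 → (List (Pt (Fin 3) X β φ) × (Fin 3 → Option φ))

section ok

variable {X β γ φ : Type} [Fintype X] [Fintype β] [Fintype φ] [Nonempty X] [Nonempty β]
variable {D : HD (Fin 3) X β γ φ} {al : ℝ} (h : D.Thick al) (v : ℕ → Finset (Fin 3) → X → (Fin 3 → β) → Pt (Fin 3) X β φ)
variable (p : AP) (Gd : ℕ → Pt (Fin 3) X β φ → Prop) (st sp : ℕ → Pt (Fin 3) X β φ → Option (Fin 3))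

/-- the steps which are split -/
def s2 (b : Bool) : Fin 6 := if b then 5 else 1

/-- the points of the step which are split at the vertex `i` -/
def spt (i : Fin 3) (b : Bool) (t : ℕ) (w : Pt (Fin 3) X β φ) : Prop := (if b then sp t w else st t w) = some i

/-- the alive points which are not split -/
def aN (s : Fin 6) (t : ℕ) (w : Pt (Fin 3) X β φ) : Prop :=
  aT h v p Gd s t w ∧ s ≠ 3 ∧ s ≠ 4 ∧ (s = 1 → st t w = none) ∧ (s = 5 → sp t w = none)

/-- the alive points which are split at the vertex `i` -/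
def aV (i : Fin 3) (b : Bool) (t : ℕ) (w : Pt (Fin 3) X β φ) : Prop := aT h v p Gd (s2 b) t w ∧ spt st sp i b t w

variable (T : ℕ) (Lam : ℝ)

/-- three tops; `E` = bound of the normalisation -/
def FullOK (E : ℝ) : Prop := ∃ (κ : Type) (_ : Fintype κ) (rel : Fin 6 → ℕ → κ → Pt (Fin 3) X β φ → Tu X β φ → Prop)
  (bit : Fin 6 → ℕ → κ → Pt (Fin 3) X β φ → Prop) (om : Fin 6 → ℕ → Pt (Fin 3) X β φ → Tu X β φ → ℝ)
  (Dv : Fin 6 → ℕ → κ → ℝ) (eta K : ℝ), 0 < eta ∧ eta ≤ 1 ∧ 0 ≤ K ∧ K ≤ 3 * Lam ∧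
  KinOK h v (aN h v p Gd st sp) rel bit om Dv T ∧
  ∑ t ∈ range T, ∑ s, DyS h v (aN h v p Gd st sp) rel bit om eta K s t ≤ (pw Lam 16)⁻¹ ∧
  ∑ t ∈ range T, ∑ s, ∑ k, (3 * Lam + Real.log (1 / eta)) * Dv s t k ≤ (pw Lam 16)⁻¹ ∧
  ∑ t ∈ range T, ∑ s, NoS h v (aN h v p Gd st sp) rel bit om eta s t ≤ E

/-- the two tops which see the vertex `i`, split points -/
def TwoOK (i : Fin 3) (E : ℝ) : Prop := ∃ (κ : Type) (_ : Fintype κ)
  (rel : Bool → ℕ → κ → Pt (Fin 3) X β φ → (Fin 3 → Option (Tt X β φ)) → Prop)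
  (bit : Bool → ℕ → κ → Pt (Fin 3) X β φ → Prop)
  (om : Bool → ℕ → Pt (Fin 3) X β φ → (Fin 3 → Option (Tt X β φ)) → ℝ) (Dv : Bool → ℕ → κ → ℝ) (eta K : ℝ),
  0 < eta ∧ eta ≤ 1 ∧ 0 ≤ K ∧ K ≤ 3 * Lam ∧
  (∀ t < T, ∀ b, Ki2 h v (s2 b) t i (aV h v p Gd st sp i b t) (rel b t) (bit b t) (om b t) (Dv b t)) ∧
  ∑ t ∈ range T, ∑ b, Dy2 h v (s2 b) t i (aV h v p Gd st sp i b t) (rel b t) (bit b t) (om b t) eta K ≤
    (pw Lam 16)⁻¹ ∧
  ∑ t ∈ range T, ∑ b, ∑ k, (3 * Lam + Real.log (1 / eta)) * Dv b t k ≤ (pw Lam 16)⁻¹ ∧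
  ∑ t ∈ range T, ∑ b, No2 h v (s2 b) t i (aV h v p Gd st sp i b t) (rel b t) (bit b t) (om b t) eta ≤ E

/-- status `some i` in the joint step, the top without the vertex `i` over everything -/
def OneOK (i : Fin 3) (E : ℝ) : Prop := ∃ (κ : Type) (_ : Fintype κ)
  (rel : ℕ → κ → Pt (Fin 3) X β φ → (Unit → Tt X β φ) → Prop) (bit : ℕ → κ → Pt (Fin 3) X β φ → Prop)
  (om : ℕ → Pt (Fin 3) X β φ → (Unit → Tt X β φ) → ℝ) (Dv : ℕ → κ → ℝ) (eta K : ℝ),
  0 < eta ∧ eta ≤ 1 ∧ 0 ≤ K ∧ K ≤ 3 * Lam ∧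
  (∀ t < T, Ki1 h v 1 t i (aV h v p Gd st sp i false t) (rel t) (bit t) (om t) (Dv t)) ∧
  ∑ t ∈ range T, Dy1 h v 1 t i (aV h v p Gd st sp i false t) (rel t) (bit t) (om t) eta K ≤ (pw Lam 16)⁻¹ ∧
  ∑ t ∈ range T, ∑ k, (3 * Lam + Real.log (1 / eta)) * Dv t k ≤ (pw Lam 16)⁻¹ ∧
  ∑ t ∈ range T, No1 h v 1 t i (aV h v p Gd st sp i false t) (rel t) (bit t) (om t) eta ≤ E

/-- private status `some i`, the top without the vertex `i` : positive part of the log ratio of its own law -/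
def OneP (i : Fin 3) : Prop := ∑ t ∈ range T, (D.P h t).E (fun w => ind (aV h v p Gd st sp i true t w) *
  max (Real.log (rS h v 5 t i w (FQ v t i w))) 0) ≤ (pw Lam 16)⁻¹

end ok

/-- **WHAT THE DYNAMICS AND THE STATICS HAVE TO GIVE** -/
def TopKin : Prop :=
  ∃ C : ℕ, ∀ A ≥ C, ∃ c0m : ℕ, ∀ c0 ≥ c0m, ∀ (X β γ φ : Type) [Fintype X] [Fintype β] [Fintype φ] [Nonempty X]
    [Nonempty β] (D : HD (Fin 3) X β γ φ) (al : ℝ) (h : D.Thick al) (dg : ℕ → X → ℝ) (prr : ℕ → Fin 3 → φ → φ) (T : ℕ)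
    (Lam : ℝ), D.Hyp dg prr al T Lam → 2 ≤ Lam → ∀ v : ℕ → Finset (Fin 3) → X → (Fin 3 → β) → Pt (Fin 3) X β φ,
    Run h (pr3 (Fin 3) (pw Lam c0) (pw Lam (c1F A c0))) (SS1 (Fin 3)) (AdmDep D) v →
    (D.P h T).Pr (fun w => ¬ Ar h v (apF Lam A c0) (2 * T) w) ≤ (pw Lam (c0 + A))⁻¹ →
    ∃ Gd : ℕ → Pt (Fin 3) X β φ → Prop, (∀ t < T, Fac (ZT D v (t + 1) t) (Gd t)) ∧
      (∀ t < T, ∀ w, (D.P h t).p w ≠ 0 → V3.GA h v (apF Lam A c0) dg t w → Gd t w) ∧
      ∃ st sp : ℕ → Pt (Fin 3) X β φ → Option (Fin 3),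
        (∀ t < T, Fac (VZ D v 1 t) (st t)) ∧ (∀ t < T, Fac (VZ D v 5 t) (sp t)) ∧
        ∑ t ∈ range T, NT h v dg t (fun w => Ar h v (apF Lam A c0) (2 * t) w ∧ Gd t w) ≤ (pw Lam 16)⁻¹ ∧
        ∃ (e0 : ℝ) (e2 e1 : Fin 3 → ℝ), e0 + ∑ i, e2 i + ∑ i, e1 i ≤ 7 * (pw Lam 16)⁻¹ ∧
          FullOK h v (apF Lam A c0) Gd st sp T Lam e0 ∧ (∀ i, TwoOK h v (apF Lam A c0) Gd st sp T Lam i (e2 i)) ∧
          (∀ i, OneOK h v (apF Lam A c0) Gd st sp T Lam i (e1 i)) ∧ ∀ i, OneP h v (apF Lam A c0) Gd st sp T Lam i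

/-- the numbers -/
theorem kin_num {Lam : ℝ} (hL : 2 ≤ Lam) {A c0 : ℕ} (hA : 18 ≤ A) :
    25 * (pw Lam 16)⁻¹ + 18 * Lam * (pw Lam (c0 + A))⁻¹ ≤ (pw Lam 13)⁻¹ := by
  have hx : (4 : ℝ) ≤ 2 * Lam := by linarith
  have hx0 : (0 : ℝ) < 2 * Lam := by linarith
  have h1 : ∀ c : ℕ, 0 < pw Lam c := fun c => by unfold pw; positivity
  have h2 : pw Lam 16 = pw Lam 13 * (2 * Lam) ^ 3 := by unfold pw; ring
  have h3 : pw Lam (c0 + A) = pw Lam 13 * (2 * Lam) ^ (c0 + A - 13) := by
    unfold pw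
    rw [← pow_add]
    congr 1
    omega
  have h4 : (2 * Lam) ^ 5 ≤ (2 * Lam) ^ (c0 + A - 13) := pow_le_pow_right₀ (by linarith) (by omega)
  have h5 : 0 < (pw Lam 13)⁻¹ := inv_pos.2 (h1 13)
  have h6 : 25 * ((2 * Lam) ^ 3)⁻¹ ≤ 25 / 64 := by
    have h7 : (4 : ℝ) ^ 3 ≤ (2 * Lam) ^ 3 := pow_le_pow_left₀ (by norm_num) hx 3
    rw [← div_eq_mul_inv, div_le_iff₀ (by positivity)]
    nlinarith
  have h7 : 18 * Lam * ((2 * Lam) ^ (c0 + A - 13))⁻¹ ≤ 1 / 4 := by
    rw [← div_eq_mul_inv, div_le_iff₀ (by positivity)]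
    have h8 : (4 : ℝ) ^ 4 ≤ (2 * Lam) ^ 4 := pow_le_pow_left₀ (by norm_num) hx 4
    have h9 : (2 * Lam) ^ 5 = (2 * Lam) ^ 4 * (2 * Lam) := by ring
    nlinarith
  rw [h2, h3, mul_inv, mul_inv]
  have e : 25 * ((pw Lam 13)⁻¹ * ((2 * Lam) ^ 3)⁻¹) + 18 * Lam * ((pw Lam 13)⁻¹ * ((2 * Lam) ^ (c0 + A - 13))⁻¹) =
      (pw Lam 13)⁻¹ * (25 * ((2 * Lam) ^ 3)⁻¹ + 18 * Lam * ((2 * Lam) ^ (c0 + A - 13))⁻¹) := by ring
  rw [e]
  exact mul_le_of_le_one_right h5.le (by linarith)

section split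

variable {X β γ φ : Type} [Fintype X] [Fintype β] [Fintype φ] [Nonempty X] [Nonempty β]
variable {D : HD (Fin 3) X β γ φ} {al : ℝ} {h : D.Thick al} {v : ℕ → Finset (Fin 3) → X → (Fin 3 → β) → Pt (Fin 3) X β φ}
variable {p : AP} {Gd : ℕ → Pt (Fin 3) X β φ → Prop} {st sp : ℕ → Pt (Fin 3) X β φ → Option (Fin 3)}

theorem aN_fac {t : ℕ} (fG : Fac (ZT D v (t + 1) t) (Gd t)) (fs : Fac (VZ D v 1 t) (st t))
    (fv : Fac (VZ D v 5 t) (sp t)) (s : Fin 6) : Fac (VZ (φ := φ) D v s t) (aN h v p Gd st sp s t) := by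
  intro a b hab
  have h1 : aT h v p Gd s t a = aT h v p Gd s t b := aT_fac p fG s a b hab
  have h2 : (s = 1 → st t a = none) = (s = 1 → st t b = none) := by
    by_cases hs : s = 1
    · subst hs
      rw [fs a b hab]
    · exact propext ⟨fun _ hh => absurd hh hs, fun _ hh => absurd hh hs⟩
  have h3 : (s = 5 → sp t a = none) = (s = 5 → sp t b = none) := by
    by_cases hs : s = 5
    · subst hs
      rw [fv a b hab]
    · exact propext ⟨fun _ hh => absurd hh hs, fun _ hh => absurd hh hs⟩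
  show (_ ∧ _ ∧ _ ∧ _ ∧ _) = (_ ∧ _ ∧ _ ∧ _ ∧ _)
  rw [h1, h2, h3]

theorem aV_fac {t : ℕ} (fG : Fac (ZT D v (t + 1) t) (Gd t)) (fs : Fac (VZ D v 1 t) (st t))
    (fv : Fac (VZ D v 5 t) (sp t)) (i : Fin 3) (b : Bool) :
    Fac (VZ (φ := φ) D v (s2 b) t) (aV h v p Gd st sp i b t) := by
  intro x y hab
  have h1 : aT h v p Gd (s2 b) t x = aT h v p Gd (s2 b) t y := aT_fac p fG (s2 b) x y hab
  have h2 : spt st sp i b t x = spt st sp i b t y := by
    unfold spt
    cases b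
    · have e : st t x = st t y := fs x y hab
      simp only [Bool.false_eq_true, if_false, e]
    · have e : sp t x = sp t y := fv x y hab
      simp only [if_true, e]
  show (_ ∧ _) = (_ ∧ _)
  rw [h1, h2]

/-- a status splits an indicator -/
theorem ind_opt (P : Prop) (o : Option (Fin 3)) : ind P = ind (P ∧ o = none) + ∑ i, ind (P ∧ o = some i) := by
  classical
  cases o with
  | none =>
    rw [Finset.sum_eq_zero fun i _ => ind_not fun hh : P ∧ (none : Option (Fin 3)) = some i => absurd hh.2 (by simp), add_zero]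
    congr 1
    exact propext ⟨fun hh => ⟨hh, rfl⟩, fun hh => hh.1⟩
  | some j =>
    rw [ind_not fun hh : P ∧ (some j : Option (Fin 3)) = none => absurd hh.2 (by simp), zero_add,
      Finset.sum_eq_single j (fun i _ hi => ind_not fun hh : P ∧ (some j : Option (Fin 3)) = some i =>
        hi (Option.some.inj hh.2).symm) (fun hh => absurd (mem_univ j) hh)]
    congr 1
    exact propext ⟨fun hh => ⟨hh, rfl⟩, fun hh => hh.1⟩

/-- the alive points, split -/
theorem ind_split (t : ℕ) {s : Fin 6} (h3 : s ≠ 3) (h4 : s ≠ 4) (w : Pt (Fin 3) X β φ) : ind (aT h v p Gd s t w) =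
    ind (aN h v p Gd st sp s t w) + ∑ i, ∑ b : Bool, if s = s2 b then ind (aV h v p Gd st sp i b t w) else 0 := by
  classical
  by_cases h1 : s = 1
  · subst h1
    rw [ind_opt (aT h v p Gd 1 t w) (st t w)]
    congr 1
    · congr 1
      exact propext ⟨fun hh => ⟨hh.1, h3, h4, fun _ => hh.2, fun h0 => absurd h0 (by decide)⟩,
        fun hh => ⟨hh.1, hh.2.2.2.1 rfl⟩⟩
    · refine Finset.sum_congr rfl fun i _ => ?_
      rw [Fintype.sum_bool, if_neg (show ¬ (1 : Fin 6) = s2 true by decide), if_pos (show (1 : Fin 6) = s2 false from rfl),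
        zero_add]
      rfl
  · by_cases h5 : s = 5
    · subst h5
      rw [ind_opt (aT h v p Gd 5 t w) (sp t w)]
      congr 1
      · congr 1
        exact propext ⟨fun hh => ⟨hh.1, h3, h4, fun h0 => absurd h0 (by decide), fun _ => hh.2⟩,
          fun hh => ⟨hh.1, hh.2.2.2.2 rfl⟩⟩
      · refine Finset.sum_congr rfl fun i _ => ?_
        rw [Fintype.sum_bool, if_pos (show (5 : Fin 6) = s2 true from rfl), if_neg (show ¬ (5 : Fin 6) = s2 false by decide),
          add_zero]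
        rfl
    · have e : ∀ b, ¬ s = s2 b := fun b hb => by
        cases b
        · exact h1 hb
        · exact h5 hb
      simp only [e, if_false, Finset.sum_const_zero, add_zero]
      congr 1
      exact propext ⟨fun hh => ⟨hh, h3, h4, fun h0 => absurd h0 h1, fun h0 => absurd h0 h5⟩, fun hh => hh.1⟩

/-- all steps of one time, split -/
theorem E_split (t : ℕ) (f : Fin 6 → Pt (Fin 3) X β φ → ℝ) (f0 : ∀ s, s = 3 ∨ s = 4 → ∀ w, (D.P h t).p w ≠ 0 → f s w = 0) :
    ∑ s, (D.P h t).E (fun w => ind (aT h v p Gd s t w) * f s w) =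
    ∑ s, (D.P h t).E (fun w => ind (aN h v p Gd st sp s t w) * f s w) +
      ∑ i, ∑ b : Bool, (D.P h t).E (fun w => ind (aV h v p Gd st sp i b t w) * f (s2 b) w) := by
  classical
  have e1 : ∀ s, (D.P h t).E (fun w => ind (aT h v p Gd s t w) * f s w) =
      (D.P h t).E (fun w => ind (aN h v p Gd st sp s t w) * f s w) +
        ∑ i, ∑ b : Bool, if s = s2 b then (D.P h t).E (fun w => ind (aV h v p Gd st sp i b t w) * f s w) else 0 := by
    intro s
    by_cases h34 : s = 3 ∨ s = 4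
    · have z1 : ∀ g : Pt (Fin 3) X β φ → ℝ, (D.P h t).E (fun w => g w * f s w) = 0 := fun g => by
        rw [(D.P h t).E_congr (g := fun _ => (0 : ℝ)) fun w hw => by rw [f0 s h34 w hw, mul_zero]]
        unfold FP.E
        simp
      rw [z1, z1, zero_add]
      refine (Finset.sum_eq_zero fun i _ => Finset.sum_eq_zero fun b _ => ?_).symm
      rw [z1, ite_self]
    · have h3 : s ≠ 3 := fun hh => h34 (Or.inl hh)
      have h4 : s ≠ 4 := fun hh => h34 (Or.inr hh)
      have e2 : ∀ i, ∀ b : Bool, (if s = s2 b then (D.P h t).E (fun w => ind (aV h v p Gd st sp i b t w) * f s w) else 0) =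
          (D.P h t).E (fun w => (if s = s2 b then ind (aV h v p Gd st sp i b t w) else 0) * f s w) := by
        intro i b
        by_cases hs : s = s2 b
        · simp only [if_pos hs]
        · simp only [if_neg hs, zero_mul]
          unfold FP.E
          simp
      simp only [e2]
      rw [Finset.sum_congr rfl fun i _ => (FP.E_sum (D.P h t) (univ : Finset Bool) _).symm, ← FP.E_sum, ← (D.P h t).E_add]
      refine (D.P h t).E_congr fun w _ => ?_
      rw [ind_split (st := st) (sp := sp) t h3 h4 w, add_mul, Finset.sum_mul]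
      congr 1
      exact Finset.sum_congr rfl fun i _ => Finset.sum_mul _ _ _
  rw [Finset.sum_congr rfl fun s _ => e1 s, Finset.sum_add_distrib]
  congr 1
  rw [Finset.sum_comm]
  refine Finset.sum_congr rfl fun i _ => ?_
  rw [Finset.sum_comm]
  refine Finset.sum_congr rfl fun b _ => ?_
  rw [Finset.sum_ite_eq' univ (s2 b), if_pos (mem_univ _)]

end split

section one

variable {X β γ φ : Type} [Fintype X] [Fintype β] [Fintype φ] [Nonempty X] [Nonempty β]
variable {D : HD (Fin 3) X β γ φ} {al : ℝ} {h : D.Thick al} {v : ℕ → Finset (Fin 3) → X → (Fin 3 → β) → Pt (Fin 3) X β φ}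

/-- **THE LAST TOP WITHOUT KINDS** : its loss is at most the positive part of the log ratio of its own law -/
theorem one_priv (t : ℕ) (s : Fin 6) (i : Fin 3) {A : Pt (Fin 3) X β φ → Prop} (fA : Fac (VZ (φ := φ) D v s t) A) :
    (D.P h t).E (fun w => ind (A w) * lossC (D.P h t) (Z1 D v s t i) (fun _ : Unit => ZbQ D v (qs s t) i)
      (fun _ => FQ v t i) (fun _ => ZbQ D v (qe s t) i) (ZQ D v (qe s t)) w) ≤
      (D.P h t).E (fun w => ind (A w) * max (Real.log (rS h v s t i w (FQ v t i w))) 0) := by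
  have h1 := E_sp_drop (D.P h t) (A := Z1 D v s t i) (B := fun u => (ZQ D v (qe s t) u, Z1 D v s t i u)) (Fac.snd _ _)
    (tup fun _ : Unit => FQ v t i) (al := fun w => ind (A w)) (fun a b hab => by
      have e1 : ZQ D v (qe s t) a = ZQ D v (qe s t) b := congrArg Prod.fst hab
      have e2 : ZQ D v (qs s t) a = ZQ D v (qs s t) b := congrArg (fun x => x.2.2) hab
      have e3 : A a = A b := fA a b (by
        show (ZQ D v (qe s t) a, ZQ D v (qs s t) a) = (ZQ D v (qe s t) b, ZQ D v (qs s t) b)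
        rw [e1, e2])
      show ind (A a) = ind (A b)
      rw [e3]) fun w => ind_nonneg _
  have e : (D.P h t).E (fun w => ind (A w) * lossC (D.P h t) (Z1 D v s t i) (fun _ : Unit => ZbQ D v (qs s t) i)
      (fun _ => FQ v t i) (fun _ => ZbQ D v (qe s t) i) (ZQ D v (qe s t)) w) =
      (D.P h t).E (fun w => ind (A w) * Real.log (rS h v s t i w (FQ v t i w))) -
        (D.P h t).E (fun w => ind (A w) * (sp (D.P h t) (tup fun _ : Unit => FQ v t i) (Z1 D v s t i) w -
          sp (D.P h t) (tup fun _ : Unit => FQ v t i) (fun u => (ZQ D v (qe s t) u, Z1 D v s t i u)) w)) := by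
    rw [← (D.P h t).E_sub]
    refine (D.P h t).E_congr fun w hw => ?_
    have e1 : (D.P h t).pv (fun u => (ZbQ D v (qe s t) i u, ZbQ D v (qs s t) i u)) (FQ v t i) w (FQ v t i w) /
        (D.P h t).pv (ZbQ D v (qs s t) i) (FQ v t i) w (FQ v t i w) = rS h v s t i w (FQ v t i w) :=
      real_r (D.P h t) (ZbQ D v (qs s t) i) (FQ v t i) (ZbQ D v (qe s t) i) hw (FQ v t i w)
    unfold lossC
    rw [log_ratio_sp (D.P h t) (A := Z1 D v s t i) (A' := fun u => (ZQ D v (qe s t) u, Z1 D v s t i u))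
      (X := tup fun _ : Unit => FQ v t i) hw]
    simp only [Finset.univ_unique, Finset.sum_singleton]
    rw [e1]
    ring
  rw [e]
  have h2 : (D.P h t).E (fun w => ind (A w) * Real.log (rS h v s t i w (FQ v t i w))) ≤
      (D.P h t).E (fun w => ind (A w) * max (Real.log (rS h v s t i w (FQ v t i w))) 0) :=
    (D.P h t).E_mono fun w _ => mul_le_mul_of_nonneg_left (le_max_left _ _) (ind_nonneg _)
  linarith

end one

/-- **`TopDynL` FROM THE KINDS** -/
theorem topDynL_of (hT : TopKin) : TopDynL := by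
  obtain ⟨C, hC⟩ := hT
  refine ⟨C + 18, fun A hA => ?_⟩
  obtain ⟨c0m, h0⟩ := hC A (by omega)
  refine ⟨c0m, fun c0 hc0 X β γ φ _ _ _ _ _ D al h dg prr T Lam H hL v R hPd => ?_⟩
  obtain ⟨Gd, fG, hG, st, sp, fs, fv, n1, e0, ee2, ee1, hE, hF, h2, h1, hP⟩ := h0 c0 hc0 X β γ φ D al h dg prr T Lam H hL v R hPd
  refine ⟨Gd, fG, hG, ?_⟩
  set p := apF Lam A c0 with hp
  have hl : ∀ c : ℕ, (1 : ℝ) ≤ pw Lam c := fun c => pw_one hL c
  have hSl : ∀ l : Fin 3, univ.erase l ∈ SS1 (Fin 3) := fun l => mem_SS1.2 (Finset.erase_ne_self.2 (mem_univ l))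
  have hSu : (univ : Finset (Fin 3)) ∉ SS1 (Fin 3) := fun hh => mem_SS1.1 hh rfl
  have hN : ∀ l : Fin 3, 0 < pr3 (Fin 3) (pw Lam c0) (pw Lam (c1F A c0)) (univ.erase l) := fun l =>
    pr3_pos (hl _) (hl _) l
  have hst := sum_stepT (h := h) (v := v) H R hSl hSu hN p Gd
  -- the tuples which are not split
  have g0 : ∑ t ∈ range T, ∑ s, (D.P h t).E (fun w => ind (aN h v p Gd st sp s t w) * lossS h v s t w) ≤
      2 * (pw Lam 16)⁻¹ + e0 := by
    obtain ⟨κ, _, rel, bit, om, Dv, eta, K, heta, heta1, hK, hKL, ok, n2, n3, n4⟩ := hF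
    have k1 : ∑ t ∈ range T, ∑ s, (D.P h t).E (fun w => ind (aN h v p Gd st sp s t w) * lossS h v s t w) ≤
        ∑ t ∈ range T, ∑ s, (DyS h v (aN h v p Gd st sp) rel bit om eta K s t +
          ∑ k, (3 * Lam + Real.log (1 / eta)) * Dv s t k + NoS h v (aN h v p Gd st sp) rel bit om eta s t) :=
      Finset.sum_le_sum fun t ht => Finset.sum_le_sum fun s _ =>
        step_le H R hN heta heta1 hK hKL ok s (Finset.mem_range.1 ht)
          (aN_fac (fG t (Finset.mem_range.1 ht)) (fs t (Finset.mem_range.1 ht)) (fv t (Finset.mem_range.1 ht)) s)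
    simp only [Finset.sum_add_distrib] at k1
    linarith
  -- split at the vertex `i`
  have g1 : ∀ i, ∑ t ∈ range T, ∑ b : Bool, (D.P h t).E (fun w => ind (aV h v p Gd st sp i b t w) *
      lossS h v (s2 b) t w) ≤ 5 * (pw Lam 16)⁻¹ + (ee2 i + ee1 i) := by
    intro i
    obtain ⟨κ2, _, rel2, bit2, om2, Dv2, eta2, K2, a1, a2, a3, a4, ok2, m2, m3, m4⟩ := h2 i
    obtain ⟨κ1, _, rel1, bit1, om1, Dv1, eta1, K1, b1, b2, b3, b4, ok1, l2, l3, l4⟩ := h1 i
    have l5 := hP i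
    unfold OneP at l5
    set f1 : Bool → ℕ → ℝ := fun b t => (D.P h t).E (fun w => ind (aV h v p Gd st sp i b t w) *
      lossC (D.P h t) (Z1 D v (s2 b) t i) (fun _ : Unit => ZbQ D v (qs (s2 b) t) i) (fun _ => FQ v t i)
        (fun _ => ZbQ D v (qe (s2 b) t) i) (ZQ D v (qe (s2 b) t)) w) with hf1
    have kf : ∀ t < T, f1 false t ≤ Dy1 h v 1 t i (aV h v p Gd st sp i false t) (rel1 t) (bit1 t) (om1 t) eta1 K1 +
        ∑ k, (3 * Lam + Real.log (1 / eta1)) * Dv1 t k +
        No1 h v 1 t i (aV h v p Gd st sp i false t) (rel1 t) (bit1 t) (om1 t) eta1 := fun t ht =>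
      one_le H R hN b1 b2 b3 b4 ht 1 i (ok1 t ht) (aV_fac (h := h) (p := p) (fG t ht) (fs t ht) (fv t ht) i false)
    have kt : ∀ t < T, f1 true t ≤ (D.P h t).E (fun w => ind (aV h v p Gd st sp i true t w) *
        max (Real.log (rS h v 5 t i w (FQ v t i w))) 0) := fun t ht =>
      one_priv t 5 i (aV_fac (h := h) (p := p) (fG t ht) (fs t ht) (fv t ht) i true)
    have k1 : ∑ t ∈ range T, ∑ b : Bool, (D.P h t).E (fun w => ind (aV h v p Gd st sp i b t w) *
        lossS h v (s2 b) t w) ≤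
        ∑ t ∈ range T, ∑ b : Bool, ((Dy2 h v (s2 b) t i (aV h v p Gd st sp i b t) (rel2 b t) (bit2 b t) (om2 b t) eta2 K2 +
          ∑ k, (3 * Lam + Real.log (1 / eta2)) * Dv2 b t k +
          No2 h v (s2 b) t i (aV h v p Gd st sp i b t) (rel2 b t) (bit2 b t) (om2 b t) eta2) + f1 b t) := by
      refine Finset.sum_le_sum fun t ht => Finset.sum_le_sum fun b _ => ?_
      have ht' := Finset.mem_range.1 ht
      have fV := aV_fac (h := h) (p := p) (fG t ht') (fs t ht') (fv t ht') i b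
      have e1 : (D.P h t).E (fun w => ind (aV h v p Gd st sp i b t w) * lossS h v (s2 b) t w) =
          (D.P h t).E (fun w => ind (aV h v p Gd st sp i b t w) * lossC (D.P h t) (ZQ D v (qs (s2 b) t))
            (ZbQ D v (qs (s2 b) t)) (Fo (FQ v t) i) (ZbQ D v (qe (s2 b) t)) (ZQ D v (qe (s2 b) t)) w) + f1 b t := by
        rw [hf1]
        show _ = _ + (D.P h t).E _
        rw [← (D.P h t).E_add]
        refine (D.P h t).E_congr fun w hw => ?_
        rw [split_eq (s2 b) t i hw]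
        ring
      rw [e1]
      exact add_le_add (two_le H R hN a1 a2 a3 a4 ht' (s2 b) i (ok2 t ht' b) fV) le_rfl
    have k2 : ∑ t ∈ range T, ∑ b : Bool, f1 b t ≤ (∑ t ∈ range T, (Dy1 h v 1 t i (aV h v p Gd st sp i false t) (rel1 t)
        (bit1 t) (om1 t) eta1 K1 + ∑ k, (3 * Lam + Real.log (1 / eta1)) * Dv1 t k +
        No1 h v 1 t i (aV h v p Gd st sp i false t) (rel1 t) (bit1 t) (om1 t) eta1)) +
        ∑ t ∈ range T, (D.P h t).E (fun w => ind (aV h v p Gd st sp i true t w) *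
          max (Real.log (rS h v 5 t i w (FQ v t i w))) 0) := by
      rw [← Finset.sum_add_distrib]
      refine Finset.sum_le_sum fun t ht => ?_
      rw [Fintype.sum_bool]
      have h1 := kf t (Finset.mem_range.1 ht)
      have h2 := kt t (Finset.mem_range.1 ht)
      linarith
    simp only [Finset.sum_add_distrib] at k1 k2 m2 m3 m4 l2 l3 l4 ⊢
    linarith
  have g2 : ∑ t ∈ range T, ∑ s, (D.P h t).E (fun w => ind (aT h v p Gd s t w) * lossS h v s t w) ≤
      24 * (pw Lam 16)⁻¹ := by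
    have e1 : ∑ t ∈ range T, ∑ s, (D.P h t).E (fun w => ind (aT h v p Gd s t w) * lossS h v s t w) =
        ∑ t ∈ range T, ∑ s, (D.P h t).E (fun w => ind (aN h v p Gd st sp s t w) * lossS h v s t w) +
          ∑ i, ∑ t ∈ range T, ∑ b : Bool, (D.P h t).E (fun w => ind (aV h v p Gd st sp i b t w) *
            lossS h v (s2 b) t w) := by
      rw [Finset.sum_comm (s := (univ : Finset (Fin 3))), ← Finset.sum_add_distrib]
      exact Finset.sum_congr rfl fun t _ => E_split (st := st) (sp := sp) t (fun s w => lossS h v s t w)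
        fun s hs w hw => loss_34 h hs t hw
    rw [e1]
    have k2 := Finset.sum_le_sum fun i (_ : i ∈ (univ : Finset (Fin 3))) => g1 i
    rw [Finset.sum_add_distrib, Finset.sum_add_distrib, Finset.sum_const, Finset.card_univ, Fintype.card_fin,
      nsmul_eq_mul] at k2
    push_cast at k2
    linarith
  have h3 : ∑ t ∈ range T, (V3.LT h v t (Ar h v p (2 * t + 1)) +
        NT h v dg t (fun w => Ar h v p (2 * t) w ∧ Gd t w) +
        DT h v dg t (fun w => Ar h v p (2 * t) w ∧ ¬ Gd t w)) =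
      ∑ t ∈ range T, (V3.LT h v t (Ar h v p (2 * t + 1)) + DT h v dg t (fun w => Ar h v p (2 * t) w ∧ ¬ Gd t w)) +
        ∑ t ∈ range T, NT h v dg t (fun w => Ar h v p (2 * t) w ∧ Gd t w) := by
    rw [← Finset.sum_add_distrib]
    exact Finset.sum_congr rfl fun t _ => by ring
  rw [h3]
  have h4 := kin_num hL (A := A) (c0 := c0) (by omega)
  have h5 := mul_le_mul_of_nonneg_left hPd (show 0 ≤ 18 * Lam by linarith)
  linarith

/-- **HARM(3) from the kinds** -/
theorem harm3_kin (hV : ThinDyn 32) (hT : TopKin) : HarmW (Fin 3) := harm3_dyn hV (topDynL_of hT)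

end

end Pool.Agent.GMH.TP
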