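import Pool.Agent.GMH.FoS0
import Pool.Agent.GMH.TopFin

/-!
# GMH/FoFam: THE FIRST ORDER TERMS OF THE THREE FAMILIES OF TopFin TOGETHER (helper81)

* `wT` : the weight of the alive points of a step without the heavy public value, seen before the step; `wT_eq`, `wT_WtS`,
  `ind_le_wT` (every family weight is at most `wT`);
* `fo_fam` : three tops (`aN`), two tops and one top (`aV`): the first order terms of one top add up to those of `wT`;
* `fo_run` : the run, one top; `fo_all` : all tops; `fo_all6` : in the form of `FullOK`, `TwoOK`, `OneOK` of TopFin v6 (the top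
  without `k` at the private step of `k` on the right); `fo_abs` : crude bound.
-/

set_option autoImplicit false
set_option linter.unusedSectionVars false
set_option linter.unusedVariables false

namespace Pool.Agent.GMH.TP

open Finset Pool.Agent.PWZ Pool.Agent.M3 Pool.Agent.GM Pool.Agent.GM.Harm Pool.Agent.GMH Pool.Agent.GMH.NZ
open Pool.Agent.GMH.V3

noncomputable section

section fam

variable {X β γ φ : Type} [Fintype X] [Fintype β] [Fintype φ] [Nonempty X] [Nonempty β]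
variable {D : HD (Fin 3) X β γ φ} {al : ℝ} (h : D.Thick al) (v : ℕ → Finset (Fin 3) → X → (Fin 3 → β) → Pt (Fin 3) X β φ)
variable (p : AP) (Gd : ℕ → Pt (Fin 3) X β φ → Prop) (st sp : ℕ → Pt (Fin 3) X β φ → Option (Fin 3))

/-- the points of the weight of a step -/
def pT (s : Fin 6) (t : ℕ) (u : Pt (Fin 3) X β φ) : Prop :=
  ![Ar h v p (2 * t) u ∧ ¬ Gd t u, Ar h v p (2 * t + 1) u, Ar h v p (2 * t + 1) u, False, False,
    Ar h v p (2 * t + 1) u ∧ HV h v t u] s ∧ AQ h v p (qs s t) u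

/-- the weight of the alive points of a step, without the heavy public value -/
def wT (s : Fin 6) (t : ℕ) (u : Pt (Fin 3) X β φ) : ℝ := ind (pT h v p Gd s t u)

variable {v p Gd st sp}

theorem wT_eq {s : Fin 6} (h3 : s ≠ 3) (h4 : s ≠ 4) (t : ℕ) (u : Pt (Fin 3) X β φ) :
    wT h v p Gd s t u * hvI h v s t u = ind (aT h v p Gd s t u) := by
  unfold wT
  fin_cases s
  · show ind ((Ar h v p (2 * t) u ∧ ¬ Gd t u) ∧ AQ h v p (5 * t) u) * 1 =
      ind ((Ar h v p (2 * t) u ∧ ¬ Gd t u) ∧ AQ h v p (5 * t) u)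
    rw [mul_one]
  · show ind (Ar h v p (2 * t + 1) u ∧ AQ h v p (5 * t + 1) u) * ind (¬ HV h v t u) =
      ind ((Ar h v p (2 * t + 1) u ∧ ¬ HV h v t u) ∧ AQ h v p (5 * t + 1) u)
    rw [← ind_and]
    exact ind_cg (by tauto)
  · show ind (Ar h v p (2 * t + 1) u ∧ AQ h v p (5 * t + 1) u) * ind (HV h v t u) =
      ind ((Ar h v p (2 * t + 1) u ∧ HV h v t u) ∧ AQ h v p (5 * t + 1) u)
    rw [← ind_and]
    exact ind_cg (by tauto)
  · exact absurd rfl h3
  · exact absurd rfl h4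
  · show ind ((Ar h v p (2 * t + 1) u ∧ HV h v t u) ∧ AQ h v p (5 * t + 4) u) * 1 =
      ind ((Ar h v p (2 * t + 1) u ∧ HV h v t u) ∧ AQ h v p (5 * t + 4) u)
    rw [mul_one]

theorem wT_34 {s : Fin 6} (hs : s = 3 ∨ s = 4) (t : ℕ) (u : Pt (Fin 3) X β φ) : wT h v p Gd s t u = 0 := by
  rcases hs with rfl | rfl
  · exact ind_not fun hh : False ∧ _ => hh.1
  · exact ind_not fun hh : False ∧ _ => hh.1

theorem wT_12 (t : ℕ) : wT h v p Gd 2 t = wT h v p Gd 1 t := rfl

theorem hvI_01 (s : Fin 6) (t : ℕ) (u : Pt (Fin 3) X β φ) : 0 ≤ hvI h v s t u ∧ hvI h v s t u ≤ 1 := by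
  fin_cases s
  · exact ⟨zero_le_one, le_rfl⟩
  · exact ⟨ind_nonneg _, ind_le_one _⟩
  · exact ⟨ind_nonneg _, ind_le_one _⟩
  all_goals exact ⟨zero_le_one, le_rfl⟩

/-- the alive points are below the weight -/
theorem aT_le_wT {s : Fin 6} (h3 : s ≠ 3) (h4 : s ≠ 4) (t : ℕ) (u : Pt (Fin 3) X β φ) :
    ind (aT h v p Gd s t u) ≤ wT h v p Gd s t u := by
  rw [← wT_eq h h3 h4]
  exact mul_le_of_le_one_right (ind_nonneg _) (hvI_01 h s t u).2

theorem aN_le_wT (s : Fin 6) (t : ℕ) (u : Pt (Fin 3) X β φ) :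
    ind (aN h v p Gd st sp s t u) ≤ wT h v p Gd s t u := by
  by_cases hs : s = 3 ∨ s = 4
  · rw [wT_34 h hs, ind_not]
    intro hh
    rcases hs with hs | hs
    · exact hh.2.1 hs
    · exact hh.2.2.1 hs
  · push Not at hs
    exact (ind_mono fun hh => hh.1).trans (aT_le_wT h hs.1 hs.2 t u)

theorem aV_le_wT (i : Fin 3) (b : Bool) (t : ℕ) (u : Pt (Fin 3) X β φ) :
    ind (aV h v p Gd st sp i b t u) ≤ wT h v p Gd (s2 b) t u :=
  (ind_mono fun hh => hh.1).trans (aT_le_wT h (by cases b <;> decide) (by cases b <;> decide) t u)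

/-- **the weight satisfies the hypotheses of the rows** -/
theorem wT_WtS {t : ℕ} (fG : Fac (ZT D v (t + 1) t) (Gd t)) (s : Fin 6) : WtS h v p.X1 p.dl s t (wT h v p Gd s t) := by
  have hpt : ∀ u, wT h v p Gd s t u ≠ 0 → pT h v p Gd s t u := by
    intro u hu
    by_contra hh
    exact hu (ind_not hh)
  refine ⟨?_, fun u => ind_nonneg _, fun u => ind_le_one _, ?_, ?_⟩
  · intro a b hab
    have hQ : AQ h v p (qs s t) a = AQ h v p (qs s t) b := AQ_fac h p (qs s t) a b hab
    have key : ∀ A B : Prop, A = B → ind (A ∧ AQ h v p (qs s t) a) = ind (B ∧ AQ h v p (qs s t) b) := by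
      intro A B hAB
      rw [hAB, hQ]
    have r1 : s ≠ 0 → Ar h v p (2 * t + 1) a = Ar h v p (2 * t + 1) b := fun hs =>
      Ar1_fac h p t a b (ZQ_mono (show 5 * t + 1 ≤ qs s t by
        fin_cases s <;> first | exact absurd rfl hs | (simp [qs])) a b hab)
    fin_cases s
    · have e1 : Ar h v p (2 * t) a = Ar h v p (2 * t) b := Ar0_fac h p t a b hab
      have e2 : Gd t a = Gd t b := by
        have hab' : ZQ D v (5 * t) a = ZQ D v (5 * t) b := hab
        rw [ZQ_0] at hab'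
        exact fG a b hab'
      exact key (Ar h v p (2 * t) a ∧ ¬ Gd t a) (Ar h v p (2 * t) b ∧ ¬ Gd t b) (by rw [e1, e2])
    · exact key _ _ (r1 (by decide))
    · exact key _ _ (r1 (by decide))
    · exact key False False rfl
    · exact key False False rfl
    · have e2 : HV h v t a = HV h v t b := HV_fac h t a b (ZQ_mono (show 5 * t + 2 ≤ 5 * t + 4 by omega) a b hab)
      exact key (Ar h v p (2 * t + 1) a ∧ HV h v t a) (Ar h v p (2 * t + 1) b ∧ HV h v t b)
        (by rw [r1 (by decide), e2])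
  · intro u _ hu
    exact (hpt u hu).2.2
  · intro hs u _ hu
    have hA : Ar h v p (2 * t + 1) u := by
      have h1 := (hpt u hu).1
      fin_cases s
      · exact absurd rfl hs
      · exact h1
      · exact h1
      · exact h1.elim
      · exact h1.elim
      · exact h1.1
    have h1 : p.dl * (D.P h t).m (fun u => ((), NP D v (t + 1) t u)) u ≤
      (D.P h t).m (fun u => ((), NP D v (t + 1) (t + 1) u)) u := hA.1.2 t le_rfl
    have e1 : ∀ n, (D.P h t).m (fun u => ((), NP D v (t + 1) n u)) u = (D.P h t).m (NP D v (t + 1) n) u := fun n =>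
      (D.P h t).m_congr (fun a b hab => congrArg Prod.snd hab) (fun a b hab => Prod.ext rfl hab) u
    rwa [e1, e1] at h1

/-- **THE FIRST ORDER TERMS OF THE FAMILIES**, one top, one time -/
theorem fo_fam (B : ℝ) (t : ℕ) (i : Fin 3) :
    ∑ s, fo h v B s t i (fun u => ind (aN h v p Gd st sp s t u)) +
      ∑ k, ∑ b : Bool, fo h v B (s2 b) t i (fun u => ind (aV h v p Gd st sp k b t u)) =
    ∑ s, fo h v B s t i (fun u => wT h v p Gd s t u * hvI h v s t u) := by
  classical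
  have e1 : ∀ s, fo h v B s t i (fun u => wT h v p Gd s t u * hvI h v s t u) =
      fo h v B s t i (fun u => ind (aN h v p Gd st sp s t u)) +
        ∑ k, ∑ b : Bool, if s = s2 b then fo h v B s t i (fun u => ind (aV h v p Gd st sp k b t u)) else 0 := by
    intro s
    by_cases hs : s = 3 ∨ s = 4
    · have z1 : fo h v B s t i (fun u => wT h v p Gd s t u * hvI h v s t u) = 0 := by
        have : (fun u => wT h v p Gd s t u * hvI h v s t u) = fun _ => 0 := funext fun u => by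
          rw [wT_34 h hs, zero_mul]
        rw [this]
        exact FO1_zero _ _ _ _ _ _
      have z2 : fo h v B s t i (fun u => ind (aN h v p Gd st sp s t u)) = 0 := by
        have : (fun u => ind (aN h v p Gd st sp s t u)) = fun _ => 0 := funext fun u => by
          refine ind_not fun hh => ?_
          rcases hs with hs | hs
          · exact hh.2.1 hs
          · exact hh.2.2.1 hs
        rw [this]
        exact FO1_zero _ _ _ _ _ _
      rw [z1, z2, Finset.sum_eq_zero fun k _ => Finset.sum_eq_zero fun b _ => ?_, add_zero]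
      refine if_neg fun hh => ?_
      rw [hh] at hs
      revert hs
      cases b <;> decide
    · push Not at hs
      have e2 : (fun u => wT h v p Gd s t u * hvI h v s t u) = fun u => ind (aN h v p Gd st sp s t u) +
          ∑ k, ∑ b : Bool, if s = s2 b then ind (aV h v p Gd st sp k b t u) else 0 := funext fun u => by
        rw [wT_eq h hs.1 hs.2, ind_split (st := st) (sp := sp) t hs.1 hs.2 u]
      rw [e2]
      unfold fo
      rw [FO1_add, FO1_sum]
      congr 1
      refine Finset.sum_congr rfl fun k _ => ?_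
      rw [FO1_sum]
      refine Finset.sum_congr rfl fun b _ => ?_
      by_cases hb : s = s2 b
      · simp only [if_pos hb]
      · simp only [if_neg hb]
        exact FO1_zero _ _ _ _ _ _
  rw [Finset.sum_congr rfl fun s _ => e1 s, Finset.sum_add_distrib]
  congr 1
  symm
  rw [Finset.sum_comm]
  refine Finset.sum_congr rfl fun k _ => ?_
  rw [Finset.sum_comm]
  refine Finset.sum_congr rfl fun b _ => ?_
  rw [Finset.sum_ite_eq' univ (s2 b), if_pos (mem_univ _)]

variable {dg : ℕ → X → ℝ} {prr : ℕ → Fin 3 → φ → φ} {T : ℕ} {Lam : ℝ}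

/-- **THE FIRST ORDER TERMS OF THE FAMILIES OVER THE RUN**, one top -/
theorem fo_run (H : D.Hyp dg prr al T Lam) {n N1 : ℝ} (R : Run h (pr3 (Fin 3) n N1) (SS1 (Fin 3)) (AdmDep D) v)
    (hn : 1 ≤ n) (hN1 : 1 ≤ N1) {a : ℝ} (hdl : 0 < p.dl) (hdl1 : p.dl ≤ 1) (hda : Real.exp (-a) ≤ p.dl) {B : ℝ}
    (hB : 2 * Real.exp 2 ≤ B) (fG : ∀ t < T, Fac (ZT D v (t + 1) t) (Gd t)) (i : Fin 3) :
    ∑ t ∈ range T, |∑ s, fo h v B s t i (fun u => ind (aN h v p Gd st sp s t u)) +
      ∑ k, ∑ b : Bool, fo h v B (s2 b) t i (fun u => ind (aV h v p Gd st sp k b t u))| ≤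
      d1T N1 al p.X1 p.dl a * (2 * Lam) + B * Real.sqrt (8 * (d1T N1 al p.X1 p.dl a * (2 * Lam) * (9 * (n * Lam)))) := by
  simp only [fo_fam]
  exact fo_sum0 h H R hn hN1 hdl hdl1 hda hB (w0 := wT h v p Gd) (fun t ht s => wT_WtS h (fG t ht) s)
    (fun t _ => wT_12 h t) i

/-- **ALL TOPS** : three tops, two tops, one top -/
theorem fo_all (H : D.Hyp dg prr al T Lam) {n N1 : ℝ} (R : Run h (pr3 (Fin 3) n N1) (SS1 (Fin 3)) (AdmDep D) v)
    (hn : 1 ≤ n) (hN1 : 1 ≤ N1) {a : ℝ} (hdl : 0 < p.dl) (hdl1 : p.dl ≤ 1) (hda : Real.exp (-a) ≤ p.dl) {B : ℝ}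
    (hB : 2 * Real.exp 2 ≤ B) (fG : ∀ t < T, Fac (ZT D v (t + 1) t) (Gd t)) :
    ∑ t ∈ range T, ∑ s, ∑ i, fo h v B s t i (fun u => ind (aN h v p Gd st sp s t u)) +
      ∑ k, ∑ t ∈ range T, ∑ b : Bool, ∑ i ∈ univ.erase k,
        fo h v B (s2 b) t i (fun u => ind (aV h v p Gd st sp k b t u)) +
      ∑ k, ∑ t ∈ range T, ∑ b : Bool, fo h v B (s2 b) t k (fun u => ind (aV h v p Gd st sp k b t u)) ≤
      3 * (d1T N1 al p.X1 p.dl a * (2 * Lam) +
        B * Real.sqrt (8 * (d1T N1 al p.X1 p.dl a * (2 * Lam) * (9 * (n * Lam))))) := by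
  have e1 : ∑ k, ∑ t ∈ range T, ∑ b : Bool, ∑ i ∈ univ.erase k,
        fo h v B (s2 b) t i (fun u => ind (aV h v p Gd st sp k b t u)) +
      ∑ k, ∑ t ∈ range T, ∑ b : Bool, fo h v B (s2 b) t k (fun u => ind (aV h v p Gd st sp k b t u)) =
      ∑ i, ∑ t ∈ range T, ∑ k, ∑ b : Bool, fo h v B (s2 b) t i (fun u => ind (aV h v p Gd st sp k b t u)) := by
    rw [← Finset.sum_add_distrib]
    have e2 : ∀ k, ∑ t ∈ range T, ∑ b : Bool, ∑ i ∈ univ.erase k,
        fo h v B (s2 b) t i (fun u => ind (aV h v p Gd st sp k b t u)) +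
        ∑ t ∈ range T, ∑ b : Bool, fo h v B (s2 b) t k (fun u => ind (aV h v p Gd st sp k b t u)) =
        ∑ i, ∑ t ∈ range T, ∑ b : Bool, fo h v B (s2 b) t i (fun u => ind (aV h v p Gd st sp k b t u)) := by
      intro k
      rw [← Finset.sum_add_distrib, Finset.sum_comm (s := (univ : Finset (Fin 3)))]
      refine Finset.sum_congr rfl fun t _ => ?_
      rw [← Finset.sum_add_distrib, Finset.sum_comm (s := (univ : Finset (Fin 3)))]
      refine Finset.sum_congr rfl fun b _ => ?_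
      exact Finset.sum_erase_add _ _ (mem_univ k)
    rw [Finset.sum_congr rfl fun k _ => e2 k, Finset.sum_comm]
    refine Finset.sum_congr rfl fun i _ => ?_
    exact Finset.sum_comm
  have e3 : ∑ t ∈ range T, ∑ s, ∑ i, fo h v B s t i (fun u => ind (aN h v p Gd st sp s t u)) =
      ∑ i, ∑ t ∈ range T, ∑ s, fo h v B s t i (fun u => ind (aN h v p Gd st sp s t u)) := by
    rw [Finset.sum_comm (s := (univ : Finset (Fin 3)))]
    refine Finset.sum_congr rfl fun t _ => ?_
    exact Finset.sum_comm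
  rw [add_assoc, e1, e3, ← Finset.sum_add_distrib]
  have h1 : ∀ i ∈ (univ : Finset (Fin 3)), ∑ t ∈ range T, ∑ s, fo h v B s t i (fun u => ind (aN h v p Gd st sp s t u)) +
      ∑ t ∈ range T, ∑ k, ∑ b : Bool, fo h v B (s2 b) t i (fun u => ind (aV h v p Gd st sp k b t u)) ≤
      d1T N1 al p.X1 p.dl a * (2 * Lam) + B * Real.sqrt (8 * (d1T N1 al p.X1 p.dl a * (2 * Lam) * (9 * (n * Lam)))) := by
    intro i _
    rw [← Finset.sum_add_distrib]
    exact (Finset.sum_le_sum fun t _ => le_abs_self _).trans (fo_run h H R hn hN1 hdl hdl1 hda hB fG i)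
  refine (Finset.sum_le_sum h1).trans (le_of_eq ?_)
  rw [Finset.sum_const, Finset.card_univ, Fintype.card_fin, nsmul_eq_mul]
  norm_num

/-- crude bound -/
theorem fo_abs {B : ℝ} (hB : 2 ≤ B) {s : Fin 6} {t : ℕ} {i : Fin 3} {aw : Pt (Fin 3) X β φ → ℝ} (h0 : ∀ u, 0 ≤ aw u) :
    |fo h v B s t i aw| ≤ B * (D.P h t).E (fun w => aw w * ∑ x ∈ vals (FQ v t i),
      |(D.P h t).pv (ZQ D v (qs s t)) (FQ v t i) w x - (D.P h t).pv (ZbQ D v (qs s t) i) (FQ v t i) w x|) := by
  unfold fo FO1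
  refine ((D.P h t).abs_E_le _).trans ?_
  rw [← (D.P h t).E_smul]
  refine (D.P h t).E_mono fun w _ => ?_
  rw [abs_mul, abs_of_nonneg (h0 w), abs_mul, abs_of_nonneg (ind_nonneg _)]
  have h1 : |phi1 (D.P h t) (ZbQ D v (qs s t) i) (ZQ D v (qs s t)) (FQ v t i) (ZbQ D v (qe s t) i) B w
      (ZbQ D v (qe s t) i w)| ≤ B * ∑ x ∈ vals (FQ v t i),
      |(D.P h t).pv (ZQ D v (qs s t)) (FQ v t i) w x - (D.P h t).pv (ZbQ D v (qs s t) i) (FQ v t i) w x| := by
    unfold phi1
    refine (Finset.abs_sum_le_sum_abs _ _).trans ?_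
    rw [Finset.mul_sum]
    refine Finset.sum_le_sum fun x _ => ?_
    rw [abs_mul, mul_comm B]
    refine mul_le_mul_of_nonneg_left ?_ (abs_nonneg _)
    have r0 := rr_nn (D.P h t) (ZbQ D v (qs s t) i) (FQ v t i) (ZbQ D v (qe s t) i) w (ZbQ D v (qe s t) i w) x
    have r1 := hwk_nonneg (B := B) r0
    have r2 := hwk_le (B := B) (x := rr (D.P h t) (ZbQ D v (qs s t) i) (FQ v t i) (ZbQ D v (qe s t) i) w
      (ZbQ D v (qe s t) i w) x) (by linarith)
    rw [abs_le]
    constructor <;> linarith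
  have h2 := mul_le_of_le_one_left (abs_nonneg (phi1 (D.P h t) (ZbQ D v (qs s t) i) (ZQ D v (qs s t)) (FQ v t i)
    (ZbQ D v (qe s t) i) B w (ZbQ D v (qe s t) i w))) (ind_le_one (¬ B < tau (D.P h t) (ZbQ D v (qs s t) i)
      (ZQ D v (qs s t)) (ZbQ D v (qe s t) i) w (ZbQ D v (qe s t) i w)))
  refine (mul_le_mul_of_nonneg_left (h2.trans h1) (h0 w)).trans (le_of_eq ?_)
  ring

/-- **ALL TOPS**, the top without `k` at the private step split off -/
theorem fo_all6 (H : D.Hyp dg prr al T Lam) {n N1 : ℝ} (R : Run h (pr3 (Fin 3) n N1) (SS1 (Fin 3)) (AdmDep D) v)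
    (hn : 1 ≤ n) (hN1 : 1 ≤ N1) {a : ℝ} (hdl : 0 < p.dl) (hdl1 : p.dl ≤ 1) (hda : Real.exp (-a) ≤ p.dl) {B : ℝ}
    (hB : 2 * Real.exp 2 ≤ B) (fG : ∀ t < T, Fac (ZT D v (t + 1) t) (Gd t)) :
    ∑ t ∈ range T, ∑ s, ∑ i, fo h v B s t i (fun u => ind (aN h v p Gd st sp s t u)) +
      ∑ k, ∑ t ∈ range T, ∑ b : Bool, ∑ i ∈ univ.erase k,
        fo h v B (s2 b) t i (fun u => ind (aV h v p Gd st sp k b t u)) +
      ∑ k, ∑ t ∈ range T, fo h v B 1 t k (fun u => ind (aV h v p Gd st sp k false t u)) ≤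
      3 * (d1T N1 al p.X1 p.dl a * (2 * Lam) +
        B * Real.sqrt (8 * (d1T N1 al p.X1 p.dl a * (2 * Lam) * (9 * (n * Lam))))) +
      ∑ k, ∑ t ∈ range T, |fo h v B 5 t k (fun u => ind (aV h v p Gd st sp k true t u))| := by
  have h1 := fo_all h H R hn hN1 hdl hdl1 hda hB (v := v) (st := st) (sp := sp) fG
  have e1 : ∀ k, ∑ t ∈ range T, ∑ b : Bool, fo h v B (s2 b) t k (fun u => ind (aV h v p Gd st sp k b t u)) =
      ∑ t ∈ range T, fo h v B 5 t k (fun u => ind (aV h v p Gd st sp k true t u)) +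
        ∑ t ∈ range T, fo h v B 1 t k (fun u => ind (aV h v p Gd st sp k false t u)) := by
    intro k
    rw [← Finset.sum_add_distrib]
    refine Finset.sum_congr rfl fun t _ => ?_
    rw [Fintype.sum_bool]
    rfl
  rw [Finset.sum_congr rfl fun k _ => e1 k, Finset.sum_add_distrib] at h1
  have h2 : -∑ k, ∑ t ∈ range T, |fo h v B 5 t k (fun u => ind (aV h v p Gd st sp k true t u))| ≤
      ∑ k, ∑ t ∈ range T, fo h v B 5 t k (fun u => ind (aV h v p Gd st sp k true t u)) := by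
    rw [← Finset.sum_neg_distrib]
    refine Finset.sum_le_sum fun k _ => ?_
    rw [← Finset.sum_neg_distrib]
    exact Finset.sum_le_sum fun t _ => neg_abs_le _
  linarith

end fam

end

end Pool.Agent.GMH.TP
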