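import Pool.Agent.GMH.Conv2
import Pool.Agent.GMH.FoFam

/-!
# GMH/Conv3: CONV OVER THE RUN, FIRST ORDER TERMS CLOSED (helper81)

`conv_runB` (helper93) with the cut `Bx` and the good digits `GdQ`; all first order terms are bounded by `FoS0.fo_sum0`:
* `foQ_34` : nothing moves in the steps `3`, `4`; `foQ_step` : a step up to `fo`, the thin strong part `TVs` and `d` times the
  gain; `tau_GdQ`, `rS_GdQ`, `foQ_dig` : a good digit has ratios at most `4` (top) and `8` (missing letter);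
* `FOe` : the error of the first order terms of one top; `conv3` : **CONV OVER THE RUN**.
-/

set_option autoImplicit false
set_option linter.unusedSectionVars false
set_option linter.unusedVariables false

namespace Pool.Agent.GMH.Hot2

open Finset Pool.Agent.PWZ Pool.Agent.M3 Pool.Agent.GM Pool.Agent.GM.Harm Pool.Agent.GMH Pool.Agent.GMH.NZ
open Pool.Agent.GMH.V3 Pool.Agent.GMH.V3.TT Pool.Agent.GMH.TP

noncomputable section

section conv

variable {X β γ φ : Type} [Fintype X] [Fintype β] [Fintype φ] [Nonempty X] [Nonempty β]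
variable {D : HD (Fin 3) X β γ φ} {al : ℝ} (h : D.Thick al) (v : ℕ → Finset (Fin 3) → X → (Fin 3 → β) → Pt (Fin 3) X β φ)

/-- distance of the two laws of the top `i` before the step -/
def TVs (s : Fin 6) (t : ℕ) (i : Fin 3) (w : Pt (Fin 3) X β φ) : ℝ := ∑ x ∈ vals (FQ v t i),
  |(D.P h t).pv (ZQ D v (qs s t)) (FQ v t i) w x - (D.P h t).pv (ZbQ D v (qs s t) i) (FQ v t i) w x|

/-- the error of the first order terms of one top -/
def FOe (n N1 al X1 dl a B Lam : ℝ) : ℝ :=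
  d1T N1 al X1 dl a * (2 * Lam) + B * Real.sqrt (8 * (d1T N1 al X1 dl a * (2 * Lam) * (9 * (n * Lam))))

variable {v}
variable {dg : ℕ → X → ℝ} {prr : ℕ → Fin 3 → φ → φ} {T : ℕ} {Lam : ℝ}

theorem TVs_nn (s : Fin 6) (t : ℕ) (i : Fin 3) (w : Pt (Fin 3) X β φ) : 0 ≤ TVs h v s t i w :=
  Finset.sum_nonneg fun x _ => abs_nonneg _

/-- nothing moves in the steps `3`, `4` -/
theorem foQ_34 {s : Fin 6} (hs : s = 3 ∨ s = 4) (t : ℕ) (i : Fin 3) {b : Pt (Fin 3) X β φ → TP.Tt X β φ → ℝ}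
    (b1 : ∀ w x, b w x ≤ 1) {w : Pt (Fin 3) X β φ} (hw : (D.P h t).p w ≠ 0) : foQ h v s t i b w ≤ 0 := by
  rw [foQ_eq h s t i b hw]
  refine Finset.sum_nonpos fun x _ => ?_
  have e1 : ZbQ (φ := φ) D v (qe s t) i = ZbQ D v (qs s t) i := by
    rcases hs with rfl | rfl
    · show ZbQ (φ := φ) D v (5 * t + 3) i = ZbQ D v (5 * t + 2) i
      exact ZbQ_mid t (by norm_num) (by norm_num) i
    · show ZbQ (φ := φ) D v (5 * t + 4) i = ZbQ D v (5 * t + 3) i
      rw [ZbQ_mid t (show 2 ≤ 4 by norm_num) le_rfl i, ZbQ_mid t (show 2 ≤ 3 by norm_num) (by norm_num) i]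
  have e2 : rS h v s t i w x = (D.P h t).pv (ZbQ D v (qs s t) i) (FQ v t i) w x /
      (D.P h t).pv (ZbQ D v (qs s t) i) (FQ v t i) w x := by
    rw [rS_eq h s t i hw x, e1]
  by_cases hx : (D.P h t).pv (ZbQ D v (qs s t) i) (FQ v t i) w x = 0
  · rw [(D.P h t).pv_ac (ZQ_Zb (qs s t) i) (FQ v t i) hx, hx]
    simp
  · rw [e2, div_self hx, sub_self, mul_zero, mul_one, zero_sub]
    have := mul_nonneg (sub_nonneg.2 (b1 w x)) ((D.P h t).pv_nonneg (ZQ D v (qs s t)) (FQ v t i) w x)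
    linarith

theorem phi_TVs {B : ℝ} (hB : 2 ≤ B) (s : Fin 6) (t : ℕ) (i : Fin 3) (w : Pt (Fin 3) X β φ) :
    phi1 (D.P h t) (ZbQ D v (qs s t) i) (ZQ D v (qs s t)) (FQ v t i) (ZbQ D v (qe s t) i) B w (ZbQ D v (qe s t) i w) ≤
      B * TVs h v s t i w := by
  unfold phi1 TVs
  rw [Finset.mul_sum]
  refine Finset.sum_le_sum fun x _ => ?_
  have r0 := rr_nn (D.P h t) (ZbQ D v (qs s t) i) (FQ v t i) (ZbQ D v (qe s t) i) w (ZbQ D v (qe s t) i w) x
  have r1 := hwk_nonneg (B := B) r0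
  have r2 := hwk_le (B := B) (x := rr (D.P h t) (ZbQ D v (qs s t) i) (FQ v t i) (ZbQ D v (qe s t) i) w
    (ZbQ D v (qe s t) i w) x) (by linarith)
  refine (le_abs_self _).trans ?_
  rw [abs_mul, mul_comm B]
  refine mul_le_mul_of_nonneg_left ?_ (abs_nonneg _)
  rw [abs_le]
  constructor <;> linarith

/-- a step up to `fo`, with any alive set -/
theorem foQ_step {B d : ℝ} (hB : Real.exp 2 ≤ B) (hd : 0 ≤ d) (s : Fin 6) (t : ℕ) (i : Fin 3)
    (A : Pt (Fin 3) X β φ → Prop) :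
    (D.P h t).E (fun w => ind (A w) * foQ h v s t i (fun w x => 1 - ind (Bx h s t i v B d w x)) w) ≤
      fo h v B s t i (fun w => ind (A w)) + B * (D.P h t).E (fun w => ind (A w) * (ind (B < tS h v s t i w) *
        TVs h v s t i w)) + d * TP.gS h v s t i := by
  have hB2 : 2 ≤ B := by
    have := Real.add_one_le_exp 2
    linarith
  have hs := strong_gain (D.P h t) (ZbQ D v (qs s t) i) (FQ v t i) (ZbQ D v (qe s t) i) hB
  have hs' := mul_le_mul_of_nonneg_left hs hd
  rw [← FP.E_smul] at hs'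
  have e : fo h v B s t i (fun w => ind (A w)) + B * (D.P h t).E (fun w => ind (A w) * (ind (B < tS h v s t i w) *
        TVs h v s t i w)) + (D.P h t).E (fun w => d * ∑ x ∈ vals (FQ v t i), (D.P h t).pv (ZbQ D v (qs s t) i) (FQ v t i) w x *
        hsg B (rr (D.P h t) (ZbQ D v (qs s t) i) (FQ v t i) (ZbQ D v (qe s t) i) w (ZbQ D v (qe s t) i w) x)) ≤
      fo h v B s t i (fun w => ind (A w)) + B * (D.P h t).E (fun w => ind (A w) * (ind (B < tS h v s t i w) *
        TVs h v s t i w)) + d * TP.gS h v s t i := by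
    unfold TP.gS
    linarith
  refine le_trans ?_ e
  unfold fo FO1
  rw [← FP.E_smul, ← FP.E_add, ← FP.E_add]
  refine FP.E_mono _ fun w hw => ?_
  have h1 := foQ_cut h (v := v) s t i (B := B) (d := d) (by linarith) hd hw
  have h2 := phi_TVs h (v := v) hB2 s t i w
  set ph := phi1 (D.P h t) (ZbQ D v (qs s t) i) (ZQ D v (qs s t)) (FQ v t i) (ZbQ D v (qe s t) i) B w
    (ZbQ D v (qe s t) i w) with hph
  have h3 : ∑ x ∈ vals (FQ v t i), ind (B < rS h v s t i w x) * (D.P h t).pv (ZbQ D v (qe s t) i) (FQ v t i) w x =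
      ∑ x ∈ vals (FQ v t i), (D.P h t).pv (ZbQ D v (qs s t) i) (FQ v t i) w x *
        hsg B (rr (D.P h t) (ZbQ D v (qs s t) i) (FQ v t i) (ZbQ D v (qe s t) i) w (ZbQ D v (qe s t) i w) x) := by
    refine Finset.sum_congr rfl fun x _ => ?_
    have e1 : rr (D.P h t) (ZbQ D v (qs s t) i) (FQ v t i) (ZbQ D v (qe s t) i) w (ZbQ D v (qe s t) i w) x =
      rS h v s t i w x := rfl
    rw [e1]
    unfold hsg
    by_cases hx : (D.P h t).pv (ZbQ D v (qs s t) i) (FQ v t i) w x = 0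
    · have h0 : rS h v s t i w x = 0 := by rw [rS_eq h s t i hw x, hx, div_zero]
      rw [h0, hx, ind_not (by linarith), zero_mul, zero_mul]
    · have h0 : (D.P h t).pv (ZbQ D v (qe s t) i) (FQ v t i) w x =
          (D.P h t).pv (ZbQ D v (qs s t) i) (FQ v t i) w x * rS h v s t i w x := by
        rw [rS_eq h s t i hw x]
        field_simp
      rw [h0]
      ring
  rw [h3] at h1
  set SG := ∑ x ∈ vals (FQ v t i), (D.P h t).pv (ZbQ D v (qs s t) i) (FQ v t i) w x *
        hsg B (rr (D.P h t) (ZbQ D v (qs s t) i) (FQ v t i) (ZbQ D v (qe s t) i) w (ZbQ D v (qe s t) i w) x) with hSG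
  have hSG0 : 0 ≤ SG := Finset.sum_nonneg fun x _ => mul_nonneg ((D.P h t).pv_nonneg _ _ _ _)
    (hsg_nonneg (rr_nn _ _ _ _ _ _ _))
  have i0 := ind_nonneg (A w)
  have i1 := ind_le_one (A w)
  have h4 : ph ≤ ind (¬ B < tau (D.P h t) (ZbQ D v (qs s t) i) (ZQ D v (qs s t)) (ZbQ D v (qe s t) i) w
      (ZbQ D v (qe s t) i w)) * ph + B * (ind (B < tS h v s t i w) * TVs h v s t i w) := by
    by_cases hτ : B < tS h v s t i w
    · have hτ' : B < tau (D.P h t) (ZbQ D v (qs s t) i) (ZQ D v (qs s t)) (ZbQ D v (qe s t) i) w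
        (ZbQ D v (qe s t) i w) := hτ
      rw [ind_of hτ, ind_not (not_not.2 hτ'), zero_mul, one_mul, zero_add]
      exact h2
    · have hτ' : ¬ B < tau (D.P h t) (ZbQ D v (qs s t) i) (ZQ D v (qs s t)) (ZbQ D v (qe s t) i) w
        (ZbQ D v (qe s t) i w) := hτ
      rw [ind_not hτ, ind_of hτ', zero_mul, one_mul, mul_zero, add_zero]
  have h5 := mul_le_mul_of_nonneg_left (h1.trans (add_le_add_left h4 (d * SG))) i0
  have h6 : ind (A w) * (d * SG) ≤ d * SG := mul_le_of_le_one_left (mul_nonneg hd hSG0) i1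
  linarith

/-! ### good digits -/

/-- ratio of the missing letter at a good digit -/
theorem tau_GdQ (H : D.Hyp dg prr al T Lam) (hv : Codes D v) {t : ℕ} (ht : t < T) (i : Fin 3) {w : Pt (Fin 3) X β φ}
    (hw : (D.P h t).p w ≠ 0) (hG : GdQ h v dg t w) : tS h v 0 t i w ≤ 8 := by
  have h1 := tau_dig0 h H hv ht i hw
  have hk := kap_ge (D := D) t
  have h2 := GdQ_thick h (H.dg_val t) hw hG i (H.dg_val t w.1)
  have h3 : tau (D.P h t) (ZbQ D v (5 * t) i) (ZQ D v (5 * t)) (fun u => dg t u.1) w (dg t w.1) ≤ 4 := by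
    unfold tau
    rw [ZbQ_0]
    have p1 : (D.P h t).pv (ZQ D v (5 * t)) (fun u => dg t u.1) w (dg t w.1) ≤ 1 := by
      have h9 := (D.P h t).ce_mono (X := ZQ D v (5 * t)) (f := fun u => ind (dg t u.1 = dg t w.1)) (g := fun _ => (1 : ℝ))
        (fun u _ => ind_le_one _) w
      rw [(D.P h t).ce_const _ 1 hw] at h9
      exact h9
    rw [div_le_iff₀ (by linarith)]
    linarith
  have h4 : tS h v 0 t i w = tau (D.P h t) (ZbQ D v (5 * t) i) (ZQ D v (5 * t)) (ZbQ D v (5 * t + 1) i) w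
      (ZbQ D v (5 * t + 1) i w) := rfl
  have h5 : 0 ≤ tS h v 0 t i w := tau_nn _ _ _ _ _ _
  rw [← h4] at h1
  nlinarith

/-- ratio of the top at a good digit -/
theorem rS_GdQ (H : D.Hyp dg prr al T Lam) {N : Finset (Fin 3) → ℝ} {S : Finset (Finset (Fin 3))}
    (R : Run h N S (AdmDep D) v) (hS : ∀ l, univ.erase l ∈ S) (hu : univ ∉ S)
    (hN : ∀ l, 0 < N (univ.erase l)) {t : ℕ} (ht : t < T) (i : Fin 3) {w : Pt (Fin 3) X β φ}
    (hw : (D.P h t).p w ≠ 0) (hG : GdQ h v dg t w) (x : TP.Tt X β φ) : rS h v 0 t i w x ≤ 4 := by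
  have h2 := GdQ_thick h (H.dg_val t) hw hG i (H.dg_val t w.1)
  have h1 : rS h v 0 t i w x = rr (D.P h t) (ZbQ D v (5 * t) i) (FQ v t i) (fun u => dg t u.1) w (dg t w.1) x :=
    rr_dig0 h H R hS hu hN ht i hw x
  rw [h1]
  have h3 := rr_le_inv (D.P h t) (ZbQ D v (5 * t) i) (FQ v t i) (fun u : Pt (Fin 3) X β φ => dg t u.1) (w := w)
    (y := dg t w.1) (c := 1 / 4) (by norm_num) (by rw [ZbQ_0]; exact h2) x
  norm_num at h3
  exact h3

/-- the full first order term of a good digit -/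
theorem foQ_dig (H : D.Hyp dg prr al T Lam) {N : Finset (Fin 3) → ℝ} {S : Finset (Finset (Fin 3))}
    (R : Run h N S (AdmDep D) v) (hS : ∀ l, univ.erase l ∈ S) (hu : univ ∉ S)
    (hN : ∀ l, 0 < N (univ.erase l)) {t : ℕ} (ht : t < T) {B : ℝ} (hB : 8 ≤ B) (i : Fin 3)
    (A : Pt (Fin 3) X β φ → Prop) (hA : ∀ w, A w → GdQ h v dg t w) :
    (D.P h t).E (fun w => ind (A w) * foQ h v 0 t i (fun _ _ => 1) w) = fo h v B 0 t i (fun w => ind (A w)) := by
  unfold fo FO1
  refine FP.E_congr _ fun w hw => ?_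
  beta_reduce
  by_cases ha : A w
  · rw [ind_of ha, one_mul, one_mul]
    have hτ : ¬ B < tau (D.P h t) (ZbQ D v (qs 0 t) i) (ZQ D v (qs 0 t)) (ZbQ D v (qe 0 t) i) w
        (ZbQ D v (qe 0 t) i w) := not_lt.2 ((tau_GdQ h H R.codes ht i hw (hA w ha)).trans hB)
    rw [ind_of hτ, one_mul, foQ_eq h 0 t i _ hw]
    unfold phi1
    refine Finset.sum_congr rfl fun x _ => ?_
    have e1 : rr (D.P h t) (ZbQ D v (qs 0 t) i) (FQ v t i) (ZbQ D v (qe 0 t) i) w (ZbQ D v (qe 0 t) i w) x =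
      rS h v 0 t i w x := rfl
    have h4 := rS_GdQ h H R hS hu hN ht i hw (hA w ha) x
    rw [e1]
    unfold hwk
    rw [ind_of (not_lt.2 (by linarith)), sub_self, zero_mul, sub_zero]
    ring
  · rw [ind_not ha, zero_mul, zero_mul]

/-- **CONV OVER THE RUN, FIRST ORDER TERMS CLOSED** -/
theorem conv3 (H : D.Hyp dg prr al T Lam) {n N1 : ℝ} (R : Run h (pr3 (Fin 3) n N1) (SS1 (Fin 3)) (AdmDep D) v)
    (hn : 1 ≤ n) (hN1 : 1 ≤ N1) (p : AP) {a : ℝ} (hdl : 0 < p.dl) (hdl1 : p.dl ≤ 1) (hda : Real.exp (-a) ≤ p.dl)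
    {B d : ℝ} (hB : 2 * Real.exp 2 ≤ B) (hd : 0 ≤ d) {Pd : ℝ}
    (hPd : (D.P h T).Pr (fun w => ¬ Ar h v p (2 * T) w) ≤ Pd) (i : Fin 3) :
    ∑ t ∈ range T, ∑ s, (D.P h t).E (fun w => ind (aT h v p (GdQ h v dg) s t w) *
        ((1 - ind (Bx h s t i v B d w (FQ v t i w))) * psf (dL1 h v s t i w))) ≤
      mT n N1 Lam + 8 * Lam * Pd +
      (1 + 2 * Lam) * ∑ t ∈ range T, ∑ s, (D.P h t).E (fun w => ind (aT h v p (GdQ h v dg) s t w) *
        ind (Bx h s t i v B d w (FQ v t i w))) + 2 * FOe n N1 al p.X1 p.dl a B Lam +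
      B * ∑ t ∈ range T, ∑ s, (D.P h t).E (fun w => ind (aT h v p (GdQ h v dg) s t w) *
        (ind (B < tS h v s t i w) * TVs h v s t i w)) + d * (2 * Lam) := by
  have he := Real.add_one_le_exp 2
  have hB2 : Real.exp 2 ≤ B := by linarith [Real.exp_pos 2]
  have hB0 : 0 ≤ B := by linarith
  have he8 : (8 : ℝ) ≤ B := by
    have h1 : (4 : ℝ) ≤ Real.exp 2 := by
      have h2 := Real.exp_one_gt_d9
      have h3 : Real.exp 2 = Real.exp 1 ^ 2 := by rw [← Real.exp_nat_mul]; norm_num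
      rw [h3]
      nlinarith
    linarith
  have q6 : ∀ l : Fin 3, univ.erase l ∈ SS1 (Fin 3) := fun l => mem_SS1.2 (Finset.erase_ne_self.2 (mem_univ l))
  have q7 : (univ : Finset (Fin 3)) ∉ SS1 (Fin 3) := fun hh => mem_SS1.1 hh rfl
  have q8 : ∀ l : Fin 3, 0 < pr3 (Fin 3) n N1 (univ.erase l) := fun l => zero_lt_one.trans_le (pr3_one hn hN1 _)
  have fG : ∀ t, Fac (ZT (φ := φ) D v (t + 1) t) (GdQ h v dg t) := fun t => GdQ_fac h t
  have k0 := conv_runB h H R hn hN1 p fG hPd i (b := fun s t w x => 1 - ind (Bx h s t i v B d w x))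
    (fun s t x a b hab => by
      have : Bx h s t i v B d a x = Bx h s t i v B d b x := Bx_fac h (v := v) s t i B d x a b hab
      show 1 - ind (Bx h s t i v B d a x) = 1 - ind (Bx h s t i v B d b x)
      rw [this])
    (fun s t w x => by linarith [ind_le_one (Bx h s t i v B d w x)])
    (fun s t w x => by linarith [ind_nonneg (Bx h s t i v B d w x)])
  have e1 : ∀ (s : Fin 6) (t : ℕ) (w : Pt (Fin 3) X β φ), 1 - (1 - ind (Bx h s t i v B d w (FQ v t i w))) =
      ind (Bx h s t i v B d w (FQ v t i w)) := fun s t w => by ring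
  simp only [e1] at k0
  -- the steps
  have k1 : ∀ t, ∑ s, (D.P h t).E (fun w => ind (aT h v p (GdQ h v dg) s t w) *
      foQ h v s t i (fun w x => 1 - ind (Bx h s t i v B d w x)) w) ≤
      ∑ s, fo h v B s t i (fun w => wT h v p (GdQ h v dg) s t w * hvI h v s t w) +
        B * ∑ s, (D.P h t).E (fun w => ind (aT h v p (GdQ h v dg) s t w) * (ind (B < tS h v s t i w) *
          TVs h v s t i w)) + d * ∑ s, TP.gS h v s t i := by
    intro t
    rw [Finset.mul_sum, Finset.mul_sum, ← Finset.sum_add_distrib, ← Finset.sum_add_distrib]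
    refine Finset.sum_le_sum fun s _ => ?_
    by_cases hs : s = 3 ∨ s = 4
    · have z1 : fo h v B s t i (fun w => wT h v p (GdQ h v dg) s t w * hvI h v s t w) = 0 := by
        have : (fun w => wT h v p (GdQ h v dg) s t w * hvI h v s t w) = fun _ => 0 := funext fun u => by
          rw [wT_34 h hs, zero_mul]
        rw [this]
        exact FO1_zero _ _ _ _ _ _
      rw [z1, zero_add]
      have z2 : (D.P h t).E (fun w => ind (aT h v p (GdQ h v dg) s t w) *
          foQ h v s t i (fun w x => 1 - ind (Bx h s t i v B d w x)) w) ≤ 0 := by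
        rw [← (D.P h t).E_const 0]
        refine FP.E_mono _ fun w hw => ?_
        have z3 := foQ_34 h (v := v) hs t i (b := fun w x => 1 - ind (Bx h s t i v B d w x))
          (fun w x => by linarith [ind_nonneg (Bx h s t i v B d w x)]) hw
        exact mul_nonpos_of_nonneg_of_nonpos (ind_nonneg _) z3
      have z4 : 0 ≤ B * (D.P h t).E (fun w => ind (aT h v p (GdQ h v dg) s t w) * (ind (B < tS h v s t i w) *
          TVs h v s t i w)) := mul_nonneg hB0 (FP.E_nonneg _ fun w _ => mul_nonneg (ind_nonneg _)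
            (mul_nonneg (ind_nonneg _) (TVs_nn h s t i w)))
      have z5 := mul_nonneg hd (TP.gS_nn h (v := v) s t i)
      linarith
    · push Not at hs
      have e2 : (fun w => wT h v p (GdQ h v dg) s t w * hvI h v s t w) = fun w => ind (aT h v p (GdQ h v dg) s t w) :=
        funext fun w => wT_eq h hs.1 hs.2 t w
      rw [e2]
      exact foQ_step h hB2 hd s t i _
  have k2 := fo_sum0 h H R hn hN1 hdl hdl1 hda hB (w0 := wT h v p (GdQ h v dg)) (fun t _ s => wT_WtS h (fG t) s)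
    (fun t _ => wT_12 h t) i
  have k3 := gn_sum h H R hn hN1 i
  -- the good digits
  set w1 : Fin 6 → ℕ → Pt (Fin 3) X β φ → ℝ := fun s t u =>
    if s = 0 then ind (Ar h v p (2 * t) u ∧ GdQ h v dg t u) else 0 with hw1
  have z0 : ∀ s : Fin 6, s ≠ 0 → ∀ t, w1 s t = fun _ => 0 := fun s hs t => funext fun u => if_neg hs
  have z1 : ∀ t, w1 0 t = fun u => ind (Ar h v p (2 * t) u ∧ GdQ h v dg t u) := fun t => funext fun u => if_pos rfl
  have hW : ∀ t < T, ∀ s, WtS h v p.X1 p.dl s t (w1 s t) := by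
    intro t ht s
    by_cases hs : s = 0
    · subst hs
      rw [z1 t]
      refine ⟨fun x y hab => ?_, fun u => ind_nonneg _, fun u => ind_le_one _, fun u hp hu => ?_, fun h0 => absurd rfl h0⟩
      · have r1 : Ar h v p (2 * t) x = Ar h v p (2 * t) y := Ar0_fac h p t x y hab
        have r2 : GdQ h v dg t x = GdQ h v dg t y := by
          have hab' : ZQ D v (5 * t) x = ZQ D v (5 * t) y := hab
          rw [ZQ_0] at hab'
          exact fG t x y hab'
        show ind (Ar h v p (2 * t) x ∧ GdQ h v dg t x) = ind (Ar h v p (2 * t) y ∧ GdQ h v dg t y)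
        rw [r1, r2]
      · have hA : Ar h v p (2 * t) u ∧ GdQ h v dg t u := by
          by_contra hh
          exact hu (ind_not hh)
        exact (AQ_0 h p hA.1).2
    · rw [z0 s hs t]
      exact ⟨fun _ _ _ => rfl, fun _ => le_rfl, fun _ => zero_le_one, fun u _ hu => absurd rfl hu,
        fun _ u _ hu => absurd rfl hu⟩
  have k4 := fo_sum0 h H R hn hN1 hdl hdl1 hda hB (w0 := w1) hW (fun t _ => by
    rw [z0 2 (by decide) t, z0 1 (by decide) t]) i
  have k5 : ∀ t ∈ range T, (D.P h t).E (fun w => ind (Ar h v p (2 * t) w ∧ GdQ h v dg t w) *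
      foQ h v 0 t i (fun _ _ => 1) w) ≤ |∑ s, fo h v B s t i (fun u => w1 s t u * hvI h v s t u)| := by
    intro t ht
    have e3 : ∑ s, fo h v B s t i (fun u => w1 s t u * hvI h v s t u) =
        fo h v B 0 t i (fun w => ind (Ar h v p (2 * t) w ∧ GdQ h v dg t w)) := by
      rw [Finset.sum_eq_single (0 : Fin 6)]
      · rw [z1 t]
        congr 1
        funext u
        show ind (Ar h v p (2 * t) u ∧ GdQ h v dg t u) * 1 = _
        rw [mul_one]
      · intro s _ hs
        have : (fun u => w1 s t u * hvI h v s t u) = fun _ => 0 := funext fun u => by rw [z0 s hs t, zero_mul]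
        rw [this]
        exact FO1_zero _ _ _ _ _ _
      · exact fun hh => absurd (mem_univ _) hh
    rw [e3, foQ_dig h H R q6 q7 q8 (Finset.mem_range.1 ht) he8 i _ (fun w hw => hw.2)]
    exact le_abs_self _
  have k6 := Finset.sum_le_sum k5
  have k7 := Finset.sum_le_sum fun t (_ : t ∈ range T) => k1 t
  rw [Finset.sum_add_distrib, Finset.sum_add_distrib, ← Finset.mul_sum, ← Finset.mul_sum] at k7
  have k8 := Finset.sum_le_sum fun t (_ : t ∈ range T) => le_abs_self (∑ s, fo h v B s t i (fun w =>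
    wT h v p (GdQ h v dg) s t w * hvI h v s t w))
  have k9 := mul_le_mul_of_nonneg_left k3 hd
  rw [Finset.sum_add_distrib] at k0
  unfold FOe
  linarith

end conv

end

end Pool.Agent.GMH.Hot2
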