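import Pool.Agent.GMH.GdyV

/-!
# GMH/Cov2 (helper63): the cover lemma for two vertices (note 3454 (3)), a static relation `R`, everything else exact

`U`, `V` the two vertices (independent), `cU`, `cV` their cells, `σ` a stopping time of the nodes, `σ < T`.
`D s` = `V` covered before `s` (rows `HV` of a sample of `U`), `C s` = `U` covered before `s` (columns `HU` of a sample of
`V`), threshold `u / 2`; `h` = bound of the shrinking of a cell in one time (`h = 2` for halvings).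

* `cover2` : `P (R, covered at σ, not covered at the time 0) ≤ h u E [Phi_V + Phi_U](σ) + P (bad)`;
* `rest2` : `E 1_R 1[V not covered at σ] g ≤ u/2 E g + E 1[bad] g` for weights `g` which see the node and `U`.
-/

set_option autoImplicit false
set_option linter.unusedSectionVars false

namespace Pool.Agent.GMH.Gdy

open Finset Pool.Agent.PWZ Pool.Agent.M3

noncomputable section

variable {Om : Type*} [Fintype Om] {P : FP Om} {κ κ' : ℕ → Type*} {cU : ∀ t, Om → κ t} {cV : ∀ t, Om → κ' t}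
  {α ω : Type*} {U : Om → α} {V : Om → ω} {R : α → ω → Prop} {u : ℝ}

theorem Stp.swap {σ : Om → ℕ} (h : Stp (pair cU cV) σ) : Stp (pair cV cU) σ := fun s v w hvw =>
  h s v w (pair_eq.2 ⟨(pair_eq.1 hvw).2, (pair_eq.1 hvw).1⟩)

/-- the event `s < σ` -/
theorem Stp.lt_fac {κ : ℕ → Type*} {X : ∀ t, Om → κ t} {σ : Om → ℕ} (h : Stp X σ) (s : ℕ) :
    Fac (X s) (fun w => ind (s < σ w)) := Fac.ind fun v w hvw => by
  have := h s v w hvw
  omega

/-- the event `σ = s` -/
theorem Stp.eq_fac {κ : ℕ → Type*} {X : ∀ t, Om → κ t} (hX : Filt X) {σ : Om → ℕ} (h : Stp X σ) (s : ℕ) :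
    Fac (X s) (fun w => ind (σ w = s)) := Fac.ind fun v w hvw => by
  have h1 := h s v w hvw
  rcases Nat.eq_zero_or_pos s with rfl | hs
  · omega
  · have h2 := h (s - 1) v w (hX.le (Nat.sub_le s 1) v w hvw)
    omega

/-- a process at a stopping time as a sum over the times -/
theorem E_stop {σ : Om → ℕ} {T : ℕ} (hT : ∀ w, σ w < T) (f : ℕ → Om → ℝ) :
    P.E (fun w => f (σ w) w) = ∑ s ∈ range T, P.E (fun w => ind (σ w = s) * f s w) := by
  rw [← FP.E_sum]
  refine P.E_congr fun w _ => ?_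
  rw [Finset.sum_eq_single (σ w)]
  · rw [ind_of rfl, one_mul]
  · intro b _ hb
    rw [ind_not (fun h => hb h.symm), zero_mul]
  · intro h
    exact absurd (mem_range.2 (hT w)) h

/-- **the uncovered rest** -/
theorem rest2 (hI : P.Indep U V) (hU : ∀ s, Fac U (cU s)) (hV : ∀ s, Fac V (cV s)) (fU : Filt cU) (fV : Filt cV)
    {HV : ℕ → Om → Prop} {M : ℕ} (hH : ∀ r v w, V v = V w → (HV r v ↔ HV r w)) (hu : 0 < u) {σ : Om → ℕ}
    (hσ : Stp (pair cU cV) σ) {T : ℕ} (hT : ∀ w, σ w < T) {g : ℕ → Om → ℝ}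
    (hg : ∀ s, Fac (fun w => (pair cU cV s w, U w)) (g s)) (hg0 : ∀ s w, 0 ≤ g s w) :
    P.E (fun w => ind (R (U w) (V w) ∧ ¬ cov P cV u HV M (σ w + 1) w) * g (σ w) w) ≤
      u / 2 * P.E (fun w => g (σ w) w) + P.E (fun w => ind (badV P cV U V R u HV M T w) * g (σ w) w) := by
  rw [E_stop hT (fun s w => ind (R (U w) (V w) ∧ ¬ cov P cV u HV M (s + 1) w) * g s w),
    E_stop hT (fun s w => g s w), E_stop hT (fun s w => ind (badV P cV U V R u HV M T w) * g s w), Finset.mul_sum,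
    ← Finset.sum_add_distrib]
  refine Finset.sum_le_sum fun s hs => ?_
  have hf : Fac (fun w => (pair cU cV s w, U w)) (fun w => ind (σ w = s) * g s w) :=
    ((Fac.fst (pair cU cV s) U).trans (hσ.eq_fac (pair_filt fU fV) s)).mul (hg s)
  have h1 := P.E_mul_ce hf (fun w => ind (R (U w) (V w) ∧ ¬ cov P cV u HV M (s + 1) w))
  rw [← FP.E_smul, ← FP.E_add]
  calc P.E (fun w => ind (σ w = s) * (ind (R (U w) (V w) ∧ ¬ cov P cV u HV M (s + 1) w) * g s w))
      = P.E (fun w => ind (σ w = s) * g s w * ind (R (U w) (V w) ∧ ¬ cov P cV u HV M (s + 1) w)) :=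
        P.E_congr fun w _ => by ring
    _ = P.E (fun w => ind (σ w = s) * g s w * P.ce (fun v => (pair cU cV s v, U v))
          (fun w => ind (R (U w) (V w) ∧ ¬ cov P cV u HV M (s + 1) w)) w) := h1.symm
    _ ≤ _ := by
        refine P.E_mono fun w hw => ?_
        rw [ce_unc hI hU hV hH s (s + 1) hw]
        have h0 : 0 ≤ ind (σ w = s) * g s w := mul_nonneg (ind_nonneg _) (hg0 s w)
        by_cases hb : badV P cV U V R u HV M T w
        · rw [ind_of hb]
          have h2 : cp P cV s (fun v' => row V R (U w) v' ∧ ¬ cov P cV u HV M (s + 1) v') w ≤ 1 :=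
            P.ce_le_const (fun _ _ => ind_le_one _) hw
          nlinarith
        · rw [ind_not hb]
          have h2 : cp P cV s (fun v' => row V R (U w) v' ∧ ¬ cov P cV u HV M (s + 1) v') w ≤ u / 2 := by
            by_contra hcon
            exact hb ⟨s, mem_range.1 hs, (not_le.1 hcon).le⟩
          nlinarith

/-- one side: `V` newly covered at the time `s + 1`, `U` not covered before -/
theorem new_le (hI : P.Indep U V) (hU : ∀ s, Fac U (cU s)) (hV : ∀ s, Fac V (cV s))
    {HV HU : ℕ → Om → Prop} {M M' : ℕ} (hH : ∀ r v w, V v = V w → (HV r v ↔ HV r w))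
    (hH' : ∀ r v w, U v = U w → (HU r v ↔ HU r w)) (hu : 0 < u) (fU : Filt cU) {h : ℝ} (h0 : 0 ≤ h) {s T : ℕ}
    (hs : s < T) (hm : ∀ w, P.p w ≠ 0 → P.m (cU s) w ≤ h * P.m (cU (s + 1)) w) {e : Om → ℝ}
    (he : Fac (pair cU cV (s + 1)) e) (he0 : ∀ w, 0 ≤ e w) :
    P.E (fun w => e w * ind (cov P cV u HV M (s + 1 + 1) w ∧ ¬ cov P cV u HV M (s + 1) w) *
        ind (R (U w) (V w) ∧ ¬ cov P cU u HU M' (s + 1) w)) ≤
      h * u / 2 * P.E (fun w => e w * ind (cov P cV u HV M (s + 1 + 1) w ∧ ¬ cov P cV u HV M (s + 1) w)) +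
        P.E (fun w => e w * ind (cov P cV u HV M (s + 1 + 1) w ∧ ¬ cov P cV u HV M (s + 1) w) *
          ind (badV P cU V U (fun v a => R a v) u HU M' T w)) := by
  set n : Om → ℝ := fun w => ind (cov P cV u HV M (s + 1 + 1) w ∧ ¬ cov P cV u HV M (s + 1) w) with hn
  have hnf : Fac V n := Fac.ind fun v w hvw => by
    rw [cov_fac hV hH (s + 1 + 1) v w hvw, cov_fac hV hH (s + 1) v w hvw]
  have hf : Fac (fun w => (pair cV cU (s + 1) w, V w)) (fun w => e w * n w) := by
    refine Fac.mul (fun v w hvw => he v w ?_) (fun v w hvw => hnf v w ?_)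
    · have h3 : pair cV cU (s + 1) v = pair cV cU (s + 1) w ∧ V v = V w := Prod.mk.injEq _ _ _ _ ▸ hvw
      exact pair_eq.2 ⟨(pair_eq.1 h3.1).2, (pair_eq.1 h3.1).1⟩
    · have h3 : pair cV cU (s + 1) v = pair cV cU (s + 1) w ∧ V v = V w := Prod.mk.injEq _ _ _ _ ▸ hvw
      exact h3.2
  have h1 := P.E_mul_ce hf (fun w => ind (R (U w) (V w) ∧ ¬ cov P cU u HU M' (s + 1) w))
  rw [← FP.E_smul, ← FP.E_add]
  show P.E (fun w => e w * n w * ind (R (U w) (V w) ∧ ¬ cov P cU u HU M' (s + 1) w)) ≤ _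
  rw [← h1]
  refine P.E_mono fun w hw => ?_
  have h2 := ce_unc (P := P) (U := V) (V := U) (cU := cV) (cV := cU) (R := fun v a => R a v) (u := u) (H := HU)
    (M := M') hI.symm hV hU hH' (s + 1) (s + 1) hw
  have h3 : P.ce (fun w => (pair cV cU (s + 1) w, V w))
      (fun w => ind (R (U w) (V w) ∧ ¬ cov P cU u HU M' (s + 1) w)) w =
      cp P cU (s + 1) (fun v => row U (fun v a => R a v) (V w) v ∧ ¬ cov P cU u HU M' (s + 1) v) w := h2
  rw [h3]
  have h4 : 0 ≤ e w * n w := mul_nonneg (he0 w) (ind_nonneg _)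
  by_cases hb : badV P cU V U (fun v a => R a v) u HU M' T w
  · rw [ind_of hb]
    have h5 : cp P cU (s + 1) (fun v => row U (fun v a => R a v) (V w) v ∧ ¬ cov P cU u HU M' (s + 1) v) w ≤ 1 :=
      P.ce_le_const (fun _ _ => ind_le_one _) hw
    have h6 : 0 ≤ h * u / 2 := by positivity
    nlinarith [mul_nonneg h6 h4]
  · rw [ind_not hb]
    have h5 : cp P cU s (fun v => row U (fun v a => R a v) (V w) v ∧ ¬ cov P cU u HU M' (s + 1) v) w ≤ u / 2 := by
      by_contra hcon
      exact hb ⟨s, hs, (not_le.1 hcon).le⟩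
    have h6 := cp_ratio (P := P) (Y := cU) (h := h) (s := s) (t := s + 1) (fU s) hw (hm w hw)
      (fun v => row U (fun v a => R a v) (V w) v ∧ ¬ cov P cU u HU M' (s + 1) v)
    have h7 : cp P cU (s + 1) (fun v => row U (fun v a => R a v) (V w) v ∧ ¬ cov P cU u HU M' (s + 1) v) w ≤
        h * u / 2 := by
      refine h6.trans ?_
      have := mul_le_mul_of_nonneg_left h5 h0
      linarith
    nlinarith

/-- the sum of the newly covered parts up to a stopping time -/
theorem sum_new {X : ∀ t, Om → κ t} {HV : ℕ → Om → Prop} {M : ℕ} {σ : Om → ℕ} {T : ℕ} (hT : ∀ w, σ w < T) (w : Om) :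
    ∑ s ∈ range T, ind (s < σ w) * ind (cov P X u HV M (s + 1 + 1) w ∧ ¬ cov P X u HV M (s + 1) w) =
      ind (cov P X u HV M (σ w + 1) w ∧ ¬ cov P X u HV M 1 w) := by
  have h1 : ∀ n, ∑ s ∈ range n, ind (s < σ w) * ind (cov P X u HV M (s + 1 + 1) w ∧ ¬ cov P X u HV M (s + 1) w) =
      ind (cov P X u HV M (min n (σ w) + 1) w ∧ ¬ cov P X u HV M 1 w) := by
    intro n
    induction n with
    | zero =>
      rw [Nat.zero_min, ind_not (p := cov P X u HV M (0 + 1) w ∧ ¬ cov P X u HV M 1 w) (fun h => h.2 h.1)]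
      simp
    | succ n ih =>
      rw [Finset.sum_range_succ, ih]
      by_cases hn : n < σ w
      · rw [ind_of hn, one_mul, min_eq_left hn.le, min_eq_left (by omega)]
        have hm1 : cov P X u HV M 1 w → cov P X u HV M (n + 1) w := cov_mono (by omega)
        have hm2 : cov P X u HV M (n + 1) w → cov P X u HV M (n + 1 + 1) w := cov_succ
        by_cases a : cov P X u HV M 1 w
        · rw [ind_not (fun h => h.2 a), ind_not (fun h => h.2 (hm1 a)), ind_not (fun h => h.2 a)]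
          ring
        · by_cases b : cov P X u HV M (n + 1) w
          · rw [ind_of ⟨b, a⟩, ind_not (fun h => h.2 b), ind_of ⟨hm2 b, a⟩]
            ring
          · by_cases c : cov P X u HV M (n + 1 + 1) w
            · rw [ind_not (fun h => b h.1), ind_of ⟨c, b⟩, ind_of ⟨c, a⟩]
              ring
            · rw [ind_not (fun h => b h.1), ind_not (fun h => c h.1), ind_not (fun h => c h.1)]
              ring
      · rw [ind_not hn, zero_mul, add_zero, min_eq_right (by omega), min_eq_right (by omega)]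
  rw [h1 T, min_eq_right (hT w).le]

/-- one side, all times -/
theorem side_le (hI : P.Indep U V) (hU : ∀ s, Fac U (cU s)) (hV : ∀ s, Fac V (cV s)) (fU : Filt cU) (fV : Filt cV)
    {HV HU : ℕ → Om → Prop} {M M' : ℕ} (hH : ∀ r v w, V v = V w → (HV r v ↔ HV r w))
    (hH' : ∀ r v w, U v = U w → (HU r v ↔ HU r w)) (hu : 0 < u) {h : ℝ} (h0 : 0 ≤ h) {T : ℕ}
    (hm : ∀ s w, P.p w ≠ 0 → P.m (cU s) w ≤ h * P.m (cU (s + 1)) w) {σ : Om → ℕ} (hσ : Stp (pair cU cV) σ)
    (hT : ∀ w, σ w < T) :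
    P.E (fun w => ∑ s ∈ range T, ind (s < σ w) * ind (cov P cV u HV M (s + 1 + 1) w ∧ ¬ cov P cV u HV M (s + 1) w) *
        ind (R (U w) (V w) ∧ ¬ cov P cU u HU M' (s + 1) w)) ≤
      h * u * P.E (fun w => Phi P cV u HV M (σ w) w) + P.Pr (badV P cU V U (fun v a => R a v) u HU M' T) := by
  have h1 := covV_le (P := P) (u := u) (H := HV) (M := M) hI hU hV fU fV hH hu hσ
  set n : ℕ → Om → ℝ := fun s w => ind (s < σ w) *
    ind (cov P cV u HV M (s + 1 + 1) w ∧ ¬ cov P cV u HV M (s + 1) w) with hn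
  have hn1 : ∀ w, ∑ s ∈ range T, n s w = ind (cov P cV u HV M (σ w + 1) w ∧ ¬ cov P cV u HV M 1 w) := fun w =>
    sum_new hT w
  rw [FP.E_sum]
  have h2 : ∀ s ∈ range T, P.E (fun w => n s w * ind (R (U w) (V w) ∧ ¬ cov P cU u HU M' (s + 1) w)) ≤
      h * u / 2 * P.E (n s) + P.E (fun w => n s w * ind (badV P cU V U (fun v a => R a v) u HU M' T w)) := by
    intro s hs
    refine new_le hI hU hV hH hH' hu fU h0 (mem_range.1 hs) (hm s) (e := fun w => ind (s < σ w)) ?_
      (fun w => ind_nonneg _)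
    exact ((pair_filt fU fV) s).trans (hσ.lt_fac s)
  refine (Finset.sum_le_sum h2).trans ?_
  rw [Finset.sum_add_distrib, ← Finset.mul_sum, ← FP.E_sum, ← FP.E_sum]
  have h3 : P.E (fun w => ∑ s ∈ range T, n s w) ≤ P.Pr (fun w => cov P cV u HV M (σ w + 1) w) := by
    refine P.E_mono fun w _ => ?_
    rw [hn1 w]
    exact ind_mono fun h => h.1
  have h4 : P.E (fun w => ∑ s ∈ range T, n s w * ind (badV P cU V U (fun v a => R a v) u HU M' T w)) ≤
      P.Pr (badV P cU V U (fun v a => R a v) u HU M' T) := by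
    refine P.E_mono fun w _ => ?_
    rw [← Finset.sum_mul, hn1 w]
    exact mul_le_of_le_one_left (ind_nonneg _) (ind_le_one _)
  have h5 : 0 ≤ h * u / 2 := by positivity
  have h6 := mul_le_mul_of_nonneg_left (h3.trans h1) h5
  linarith

/-- **COVER LEMMA for two vertices** -/
theorem cover2 (hI : P.Indep U V) (hU : ∀ s, Fac U (cU s)) (hV : ∀ s, Fac V (cV s)) (fU : Filt cU) (fV : Filt cV)
    {HV HU : ℕ → Om → Prop} {M M' : ℕ} (hH : ∀ r v w, V v = V w → (HV r v ↔ HV r w))
    (hH' : ∀ r v w, U v = U w → (HU r v ↔ HU r w)) (hu : 0 < u) {h : ℝ} (h0 : 0 ≤ h) {T : ℕ}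
    (hmU : ∀ s w, P.p w ≠ 0 → P.m (cU s) w ≤ h * P.m (cU (s + 1)) w)
    (hmV : ∀ s w, P.p w ≠ 0 → P.m (cV s) w ≤ h * P.m (cV (s + 1)) w) {σ : Om → ℕ} (hσ : Stp (pair cU cV) σ)
    (hT : ∀ w, σ w < T) :
    P.Pr (fun w => R (U w) (V w) ∧ (cov P cV u HV M (σ w + 1) w ∨ cov P cU u HU M' (σ w + 1) w) ∧
        ¬ (cov P cV u HV M 1 w ∨ cov P cU u HU M' 1 w)) ≤
      h * u * (P.E (fun w => Phi P cV u HV M (σ w) w) + P.E (fun w => Phi P cU u HU M' (σ w) w)) +
        (P.Pr (badV P cV U V R u HV M T) + P.Pr (badV P cU V U (fun v a => R a v) u HU M' T)) := by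
  have h1 := side_le (R := R) (M := M) (M' := M') hI hU hV fU fV hH hH' hu h0 (T := T) hmU hσ hT
  have h2 := side_le (P := P) (U := V) (V := U) (cU := cV) (cV := cU) (R := fun v a => R a v) (M := M') (M' := M)
    hI.symm hV hU fV fU
    hH' hH hu h0 (T := T) hmV hσ.swap hT
  have h3 : P.Pr (fun w => R (U w) (V w) ∧ (cov P cV u HV M (σ w + 1) w ∨ cov P cU u HU M' (σ w + 1) w) ∧
        ¬ (cov P cV u HV M 1 w ∨ cov P cU u HU M' 1 w)) ≤
      P.E (fun w => ∑ s ∈ range T, ind (s < σ w) *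
        ind (cov P cV u HV M (s + 1 + 1) w ∧ ¬ cov P cV u HV M (s + 1) w) *
        ind (R (U w) (V w) ∧ ¬ cov P cU u HU M' (s + 1) w)) +
      P.E (fun w => ∑ s ∈ range T, ind (s < σ w) *
        ind (cov P cU u HU M' (s + 1 + 1) w ∧ ¬ cov P cU u HU M' (s + 1) w) *
        ind ((fun v a => R a v) (V w) (U w) ∧ ¬ cov P cV u HV M (s + 1) w)) := by
    rw [← FP.E_add]
    refine P.E_mono fun w _ => ?_
    have n1 : ∀ s ∈ range T, 0 ≤ ind (s < σ w) *
        ind (cov P cV u HV M (s + 1 + 1) w ∧ ¬ cov P cV u HV M (s + 1) w) *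
        ind (R (U w) (V w) ∧ ¬ cov P cU u HU M' (s + 1) w) := fun s _ =>
      mul_nonneg (mul_nonneg (ind_nonneg _) (ind_nonneg _)) (ind_nonneg _)
    have n2 : ∀ s ∈ range T, 0 ≤ ind (s < σ w) *
        ind (cov P cU u HU M' (s + 1 + 1) w ∧ ¬ cov P cU u HU M' (s + 1) w) *
        ind ((fun v a => R a v) (V w) (U w) ∧ ¬ cov P cV u HV M (s + 1) w) := fun s _ =>
      mul_nonneg (mul_nonneg (ind_nonneg _) (ind_nonneg _)) (ind_nonneg _)
    by_cases hw : R (U w) (V w) ∧ (cov P cV u HV M (σ w + 1) w ∨ cov P cU u HU M' (σ w + 1) w) ∧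
        ¬ (cov P cV u HV M 1 w ∨ cov P cU u HU M' 1 w)
    · rw [ind_of hw]
      -- the first time
      classical
      obtain ⟨hR, hσc, h0c⟩ := hw
      set p : ℕ → Prop := fun t => cov P cV u HV M (t + 1) w ∨ cov P cU u HU M' (t + 1) w with hp
      have hex : ∃ t, p t := ⟨σ w, hσc⟩
      set t0 := Nat.find hex with ht0
      have hpt : p t0 := Nat.find_spec hex
      have hmin : ∀ t < t0, ¬ p t := fun t ht => Nat.find_min hex ht
      have htσ : t0 ≤ σ w := Nat.find_min' hex hσc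
      have ht1 : 1 ≤ t0 := by
        rcases Nat.eq_zero_or_pos t0 with h | h
        · rw [h] at hpt
          exact absurd hpt h0c
        · exact h
      obtain ⟨s, hs⟩ : ∃ s, t0 = s + 1 := ⟨t0 - 1, by omega⟩
      have hns := hmin s (by omega)
      have hsT : s ∈ range T := mem_range.2 (by have := hT w; omega)
      rw [hs] at hpt
      have hns' : ¬ cov P cV u HV M (s + 1) w ∧ ¬ cov P cU u HU M' (s + 1) w := not_or.1 hns
      rcases hpt with hD | hC
      · have h5 := Finset.single_le_sum n1 hsT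
        have h6 := Finset.sum_nonneg n2
        rw [ind_of (show s < σ w by omega), ind_of (show _ ∧ _ from ⟨hD, hns'.1⟩),
          ind_of (show _ ∧ _ from ⟨hR, hns'.2⟩)] at h5
        linarith
      · have h5 := Finset.single_le_sum n2 hsT
        have h6 := Finset.sum_nonneg n1
        rw [ind_of (show s < σ w by omega), ind_of (show _ ∧ _ from ⟨hC, hns'.2⟩),
          ind_of (show _ ∧ _ from ⟨hR, hns'.1⟩)] at h5
        linarith
    · rw [ind_not hw]
      exact add_nonneg (Finset.sum_nonneg n1) (Finset.sum_nonneg n2)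
  have h4 : P.Pr (badV P cV U V (fun v a => (fun v a => R a v) a v) u HV M T) = P.Pr (badV P cV U V R u HV M T) := rfl
  rw [h4] at h2
  linarith

end

end Pool.Agent.GMH.Gdy
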