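import Pool.Agent.GMH.Prd
import Pool.Agent.GMH.Cov2

/-!
# GMH/CovK (helper63): the cover lemma for any number of vertices (note 3554 (2), (3))

`a` fixed; vertices `x i`, independent (product weights `μ`), cells `c s i` (`Rf c`), `H` a static relation of all vertices.
For every vertex `i` a sample `y i` of `M` points; `D i s` = the points `x_(-i)` covered before the time `s` by the rows
`H (y i r, .)`; `lam0 ≥ 2 k u`; `σ < T` a stopping time of the nodes, `P (H | node 0) ≤ h lam0`, `h` = shrinking factor of a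
node in one time (`2 ^ k` for halvings).

* `coverK` : for weights `m s ≤ g l s`, `g l s` a function of the node and of `x_(-l)`, `m s ≤ 1`:
  `E 1_H m(σ) ≤ lam0^(1/k) ∑ l, (E (g l)(σ) + 4 h E (Phi l)(σ)) + 4 h ∑ l, P (bad l)`.
* `badK_le` : mean over the sample of `P (bad l)` is at most `2 / (u (M+1))`.
-/

set_option autoImplicit false
set_option linter.unusedSectionVars false

namespace Pool.Agent.GMH

open Finset Pool.Agent.PWZ Pool.Agent.GM Pool.Agent.M3 Gdy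

noncomputable section

variable {ι Pt : Type} [Fintype ι] [DecidableEq ι] [Fintype Pt] {κ : Type*}

/-- the relation with the vertex `i` singled out -/
def Ri (H : (ι → Pt) → Prop) (i : ι) (a : Pt) (y : {j : ι // j ≠ i} → Pt) : Prop := H (glue i a y)

theorem Ri_true (H : (ι → Pt) → Prop) (i : ι) (x : ι → Pt) : Ri H i (x i) (off i x) ↔ H x := by
  unfold Ri
  rw [glue_off]

variable (c : ℕ → ι → Pt → κ) (μ : Wts ι Pt) (u : ℝ) (H : (ι → Pt) → Prop)

/-- `x_(-i)` is covered before the time `s` by the rows of the sample `y` -/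
def D (i : ι) {M : ℕ} (y : Fin M → Pt) (s : ℕ) (x : ι → Pt) : Prop :=
  cov μ.fp (cO c i) u (rows (row (off i) (Ri H i)) y) M s x

/-- the potential of the vertex `i` -/
def PhiK (i : ι) {M : ℕ} (y : Fin M → Pt) (s : ℕ) (x : ι → Pt) : ℝ :=
  Phi μ.fp (cO c i) u (rows (row (off i) (Ri H i)) y) M s x

/-- the row of the true point `x i` is bad -/
def badK (i : ι) {M : ℕ} (y : Fin M → Pt) (T : ℕ) (x : ι → Pt) : Prop :=
  badV μ.fp (cO c i) (fun x : ι → Pt => x i) (off i) (Ri H i) u (rows (row (off i) (Ri H i)) y) M T x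

variable {c μ u H}

theorem D_off (i : ι) {M : ℕ} (y : Fin M → Pt) (s : ℕ) (v w : ι → Pt) (h : off i v = off i w) :
    D c μ u H i y s v ↔ D c μ u H i y s w :=
  cov_fac (cO_fac i) (fun r v w h => rows_fac y r v w h) s v w h

theorem Stp.pair {σ : (ι → Pt) → ℕ} (hσ : Stp (nd c) σ) (i : ι) : Stp (Gdy.pair (cI c i) (cO c i)) σ :=
  fun s v w h => hσ s v w ((nd_pair i s v w).2 h)

theorem Pr_D_le (hc : Rf c) (hu : 0 < u) (i : ι) {M : ℕ} (y : Fin M → Pt) {σ : (ι → Pt) → ℕ} (hσ : Stp (nd c) σ) :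
    μ.fp.Pr (fun x => D c μ u H i y (σ x + 1) x) ≤ 2 * μ.fp.E (fun x => PhiK c μ u H i y (σ x) x) :=
  covV_le (μ.indep_off i) (cI_fac i) (cO_fac i) (cI_filt hc i) (cO_filt hc i) (fun r v w h => rows_fac y r v w h) hu
    (Stp.pair hσ i)

/-- bad rows -/
theorem badK_le (hc : Rf c) (hu : 0 < u) (i : ι) (M T : ℕ) :
    ∑ y : Fin M → Pt, sw (μ.w i) y * μ.fp.Pr (badK c μ u H i y T) ≤ 2 / (u * (M + 1)) := by
  have h1 := badV_le (P := μ.fp) (R := Ri H i) (μ.indep_off i) (cO_fac i) (cO_filt hc i) hu M T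
  have h2 : (fun a => μ.fp.Pr (fun x : ι → Pt => x i = a)) = μ.w i := by
    funext a
    classical
    have h4 := Finset.prod_univ_sum (fun _ : ι => (univ : Finset Pt))
      (fun j y => if j = i then μ.w j y * ind (y = a) else μ.w j y)
    rw [Fintype.piFinset_univ] at h4
    show ∑ z : ι → Pt, (∏ j, μ.w j (z j)) * ind (z i = a) = μ.w i a
    have h5 : ∀ z : ι → Pt, (∏ j, if j = i then μ.w j (z j) * ind (z j = a) else μ.w j (z j)) =
        (∏ j, μ.w j (z j)) * ind (z i = a) := by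
      intro z
      have h6 : ∀ j, (if j = i then μ.w j (z j) * ind (z j = a) else μ.w j (z j)) =
          μ.w j (z j) * (if j = i then ind (z j = a) else 1) := by
        intro j
        split_ifs
        · rfl
        · rw [mul_one]
      rw [Finset.prod_congr rfl fun j _ => h6 j, Finset.prod_mul_distrib, Finset.prod_ite_eq' univ i]
      rw [if_pos (mem_univ i)]
    rw [← Finset.sum_congr rfl fun z _ => h5 z, ← h4]
    rw [Finset.prod_eq_single i]
    · rw [Finset.sum_congr rfl fun y _ => if_pos rfl, Finset.sum_eq_single a]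
      · rw [ind_of rfl, mul_one]
      · intro b _ hb
        rw [ind_not hb, mul_zero]
      · intro h
        exact absurd (mem_univ a) h
    · intro j _ hj
      rw [Finset.sum_congr rfl fun y _ => if_neg hj]
      exact μ.one j
    · intro h
      exact absurd (mem_univ i) h
  rw [h2] at h1
  exact h1

/-- in a node: relation with an uncovered side -/
theorem node_unc (hu : 0 < u) {M : ℕ} (y : ι → Fin M → Pt) {s T : ℕ} (hs : s < T) {x : ι → Pt}
    (hx : μ.fp.p x ≠ 0) (i : ι) :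
    μ.fp.ce (nd c s) (fun z => ind (H z ∧ ¬ D c μ u H i (y i) (s + 1) z)) x ≤
      u / 2 + μ.fp.ce (nd c s) (fun z => ind (badK c μ u H i (y i) T z)) x := by
  have h1 := node_le (P := μ.fp) (R := Ri H i) (u := u) (H := rows (row (off i) (Ri H i)) (y i)) (M := M)
    (μ.indep_off i) (cI_fac (c := c) i) (cO_fac (c := c) i) (fun r v w h => rows_fac (y i) r v w h) hu hs hx
  have e : ∀ f : (ι → Pt) → ℝ, μ.fp.ce (nd c s) f x = μ.fp.ce (Gdy.pair (cI c i) (cO c i) s) f x := fun f =>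
    μ.fp.ce_congr_map (fun v w h => (nd_pair i s v w).1 h) (fun v w h => (nd_pair i s v w).2 h) f x
  rw [e, e]
  refine le_trans (le_of_eq ?_) h1
  congr 1
  funext z
  rw [propext (Ri_true H i z)]
  rfl

/-- **the dense node is paid** : pointwise form -/
theorem node_dense [Nonempty ι] (hu : 0 < u) {M : ℕ} (y : ι → Fin M → Pt) {s T : ℕ} (hs : s < T) {x : ι → Pt}
    (hx : μ.fp.p x ≠ 0) {lam0 : ℝ} (hl : 0 < lam0) (hlu : 2 * Fintype.card ι * u ≤ lam0)
    (hd : lam0 ≤ μ.fp.ce (nd c s) (fun z => ind (H z)) x) :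
    1 ≤ ((lam0 / 2) ^ (1 - (1 : ℝ) / Fintype.card ι))⁻¹ *
        ∑ l, μ.fp.ce (nd c s) (fun z => ind (D c μ u H l (y l) (s + 1) z)) x +
      4 / lam0 * ∑ l, μ.fp.ce (nd c s) (fun z => ind (badK c μ u H l (y l) T z)) x := by
  set Q := (lam0 / 2) ^ (1 - (1 : ℝ) / Fintype.card ι) with hQ
  have hQ0 : 0 < Q := Real.rpow_pos_of_pos (by linarith) _
  set A := μ.fp.ce (nd c s) (fun z => ind (H z ∧ ∀ l, D c μ u H l (y l) (s + 1) z)) x with hA
  have hD0 : 0 ≤ ∑ l, μ.fp.ce (nd c s) (fun z => ind (D c μ u H l (y l) (s + 1) z)) x :=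
    Finset.sum_nonneg fun l _ => μ.fp.ce_nonneg (fun _ _ => ind_nonneg _) x
  have hB0 : 0 ≤ ∑ l, μ.fp.ce (nd c s) (fun z => ind (badK c μ u H l (y l) T z)) x :=
    Finset.sum_nonneg fun l _ => μ.fp.ce_nonneg (fun _ _ => ind_nonneg _) x
  by_cases hc1 : lam0 / 2 ≤ A
  · have h1 := LW_nd (c := c) μ s hx (p := lam0 / 2) (by linarith) H (fun l z => D c μ u H l (y l) (s + 1) z)
      (fun l v w h => D_off l (y l) (s + 1) v w h) hc1
    have h2 : 1 ≤ Q⁻¹ * ∑ l, μ.fp.ce (nd c s) (fun z => ind (D c μ u H l (y l) (s + 1) z)) x := by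
      rw [← inv_mul_cancel₀ hQ0.ne']
      exact mul_le_mul_of_nonneg_left h1 (inv_nonneg.2 hQ0.le)
    have h3 : 0 ≤ 4 / lam0 * ∑ l, μ.fp.ce (nd c s) (fun z => ind (badK c μ u H l (y l) T z)) x :=
      mul_nonneg (by positivity) hB0
    linarith
  · have h1 : μ.fp.ce (nd c s) (fun z => ind (H z)) x ≤ A +
        ∑ l, μ.fp.ce (nd c s) (fun z => ind (H z ∧ ¬ D c μ u H l (y l) (s + 1) z)) x := by
      rw [hA, ← μ.fp.ce_sum, ← μ.fp.ce_add]
      refine μ.fp.ce_mono (fun z _ => ?_) x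
      have n1 : ∀ l ∈ (univ : Finset ι), 0 ≤ ind (H z ∧ ¬ D c μ u H l (y l) (s + 1) z) := fun l _ => ind_nonneg _
      by_cases hz : H z
      · by_cases ha : ∀ l, D c μ u H l (y l) (s + 1) z
        · rw [ind_of hz, ind_of ⟨hz, ha⟩]
          linarith [Finset.sum_nonneg n1]
        · obtain ⟨l, hl'⟩ := not_forall.1 ha
          have h2 := Finset.single_le_sum n1 (mem_univ l)
          rw [ind_of (show _ ∧ _ from ⟨hz, hl'⟩)] at h2
          rw [ind_of hz, ind_not (fun h => ha h.2)]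
          linarith
      · rw [ind_not hz]
        exact add_nonneg (ind_nonneg _) (Finset.sum_nonneg n1)
    have h2 := Finset.sum_le_sum fun l (_ : l ∈ (univ : Finset ι)) => node_unc (c := c) (H := H) hu y hs hx l
    rw [Finset.sum_add_distrib, Finset.sum_const, Finset.card_univ, nsmul_eq_mul] at h2
    have h3 : lam0 / 4 ≤ ∑ l, μ.fp.ce (nd c s) (fun z => ind (badK c μ u H l (y l) T z)) x := by
      have := not_le.1 hc1
      linarith
    have h4 : 1 ≤ 4 / lam0 * ∑ l, μ.fp.ce (nd c s) (fun z => ind (badK c μ u H l (y l) T z)) x := by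
      have h5 := mul_le_mul_of_nonneg_left h3 (show 0 ≤ 4 / lam0 by positivity)
      have h6 : 4 / lam0 * (lam0 / 4) = 1 := by field_simp
      linarith
    have h5 : 0 ≤ Q⁻¹ * ∑ l, μ.fp.ce (nd c s) (fun z => ind (D c μ u H l (y l) (s + 1) z)) x :=
      mul_nonneg (inv_nonneg.2 hQ0.le) hD0
    linarith

/-! ## the first dense time -/

/-- dense at the time `t` -/
def dn (c : ℕ → ι → Pt → κ) (μ : Wts ι Pt) (H : (ι → Pt) → Prop) (lam0 : ℝ) (t : ℕ) (x : ι → Pt) : Prop :=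
  lam0 ≤ μ.fp.ce (nd c t) (fun z => ind (H z)) x

theorem dn_fac (lam0 : ℝ) (t : ℕ) (v w : ι → Pt) (h : nd c t v = nd c t w) :
    dn c μ H lam0 t v ↔ dn c μ H lam0 t w := by
  unfold dn
  rw [μ.fp.ce_fac (nd c t) _ v w h]

open Classical in
/-- the first dense time, at most `σ` -/
def fst (c : ℕ → ι → Pt → κ) (μ : Wts ι Pt) (H : (ι → Pt) → Prop) (lam0 : ℝ) (σ : (ι → Pt) → ℕ) (x : ι → Pt) : ℕ :=
  if h : ∃ t, t ≤ σ x ∧ dn c μ H lam0 t x then Nat.find h else σ x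

theorem fst_le (lam0 : ℝ) (σ : (ι → Pt) → ℕ) (x : ι → Pt) : fst c μ H lam0 σ x ≤ σ x := by
  classical
  unfold fst
  split_ifs with h
  · exact (Nat.find_spec h).1
  · exact le_rfl

theorem fst_iff (lam0 : ℝ) (σ : (ι → Pt) → ℕ) (s : ℕ) (x : ι → Pt) :
    fst c μ H lam0 σ x ≤ s ↔ σ x ≤ s ∨ ∃ t ≤ s, t ≤ σ x ∧ dn c μ H lam0 t x := by
  classical
  unfold fst
  split_ifs with h
  · constructor
    · intro h1
      exact Or.inr ⟨Nat.find h, h1, Nat.find_spec h⟩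
    · rintro (h1 | ⟨t, h1, h2⟩)
      · exact (Nat.find_spec h).1.trans h1
      · exact (Nat.find_min' h h2).trans h1
  · constructor
    · exact Or.inl
    · rintro (h1 | ⟨t, h1, h2⟩)
      · exact h1
      · exact absurd ⟨t, h2⟩ h

theorem fst_stp (hc : Rf c) (lam0 : ℝ) {σ : (ι → Pt) → ℕ} (hσ : Stp (nd c) σ) : Stp (nd c) (fst c μ H lam0 σ) := by
  have key : ∀ s v w, nd c s v = nd c s w → fst c μ H lam0 σ v ≤ s → fst c μ H lam0 σ w ≤ s := by
    intro s v w h h1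
    rw [fst_iff] at h1 ⊢
    rcases h1 with h1 | ⟨t, h1, h2, h3⟩
    · exact Or.inl ((hσ s v w h).1 h1)
    · by_cases h4 : σ v ≤ s
      · exact Or.inl ((hσ s v w h).1 h4)
      · refine Or.inr ⟨t, h1, ?_, (dn_fac lam0 t v w ((nd_filt hc).le h1 v w h)).1 h3⟩
        have h5 : ¬ σ w ≤ s := fun h6 => h4 ((hσ s v w h).2 h6)
        omega
  exact fun s v w h => ⟨key s v w h, key s w v h.symm⟩

/-- before the first dense time the node is not dense -/
theorem not_dn {lam0 : ℝ} {σ : (ι → Pt) → ℕ} {t : ℕ} {x : ι → Pt} (h : t < fst c μ H lam0 σ x) :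
    ¬ dn c μ H lam0 t x := by
  intro h1
  have h2 := (fst_iff (c := c) (μ := μ) (H := H) lam0 σ t x).2 (Or.inr ⟨t, le_rfl, h.le.trans (fst_le _ _ _), h1⟩)
  omega

theorem fst_eq {lam0 : ℝ} {σ : (ι → Pt) → ℕ} {x : ι → Pt} (h : ¬ dn c μ H lam0 (fst c μ H lam0 σ x) x) :
    fst c μ H lam0 σ x = σ x := by
  classical
  by_contra hcon
  have h1 : ∃ t, t ≤ σ x ∧ dn c μ H lam0 t x := by
    by_contra h2
    apply hcon
    unfold fst
    rw [dif_neg h2]
  have h3 : fst c μ H lam0 σ x = Nat.find h1 := by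
    unfold fst
    rw [dif_pos h1]
  rw [h3] at h
  exact h (Nat.find_spec h1).2

/-- a conditional expectation at a stopping time -/
theorem E_ce_stop {X : ∀ _ : ℕ, (ι → Pt) → (ι → κ)} (hX : Filt X) {σ : (ι → Pt) → ℕ} (hσ : Stp X σ) {T : ℕ}
    (hT : ∀ x, σ x < T) (e f : ℕ → (ι → Pt) → ℝ) (he : ∀ s, Fac (X s) (e s)) :
    μ.fp.E (fun x => e (σ x) x * μ.fp.ce (X (σ x)) (f (σ x)) x) = μ.fp.E (fun x => e (σ x) x * f (σ x) x) := by
  rw [E_stop hT (fun s x => e s x * μ.fp.ce (X s) (f s) x), E_stop hT (fun s x => e s x * f s x)]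
  refine Finset.sum_congr rfl fun s _ => ?_
  have h1 := μ.fp.E_mul_ce (((hσ.eq_fac hX s)).mul (he s)) (f s)
  have h2 : μ.fp.E (fun x => ind (σ x = s) * (e s x * μ.fp.ce (X s) (f s) x)) =
      μ.fp.E (fun x => ind (σ x = s) * e s x * μ.fp.ce (X s) (f s) x) := μ.fp.E_congr fun x _ => by ring
  have h3 : μ.fp.E (fun x => ind (σ x = s) * (e s x * f s x)) =
      μ.fp.E (fun x => ind (σ x = s) * e s x * f s x) := μ.fp.E_congr fun x _ => by ring
  rw [h2, h3]
  exact h1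

/-- **COVER LEMMA, number of dense ends** -/
theorem dense_le [Nonempty ι] (hc : Rf c) (hu : 0 < u) {M : ℕ} (y : ι → Fin M → Pt) {T : ℕ} {σ : (ι → Pt) → ℕ}
    (hσ : Stp (nd c) σ) (hT : ∀ x, σ x < T) {lam0 : ℝ} (hl : 0 < lam0) (hlu : 2 * Fintype.card ι * u ≤ lam0) :
    μ.fp.Pr (fun x => dn c μ H lam0 (fst c μ H lam0 σ x) x) ≤
      2 * ((lam0 / 2) ^ (1 - (1 : ℝ) / Fintype.card ι))⁻¹ * ∑ l, μ.fp.E (fun x => PhiK c μ u H l (y l) (σ x) x) +
      4 / lam0 * ∑ l, μ.fp.Pr (badK c μ u H l (y l) T) := by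
  set Q := (lam0 / 2) ^ (1 - (1 : ℝ) / Fintype.card ι) with hQ
  have hQ0 : 0 < Q := Real.rpow_pos_of_pos (by linarith) _
  set ρ := fst c μ H lam0 σ with hρ
  have hρs : Stp (nd c) ρ := fst_stp hc lam0 hσ
  have hρT : ∀ x, ρ x < T := fun x => lt_of_le_of_lt (fst_le lam0 σ x) (hT x)
  have h1 : μ.fp.Pr (fun x => dn c μ H lam0 (ρ x) x) ≤ μ.fp.E (fun x =>
      Q⁻¹ * ∑ l, μ.fp.ce (nd c (ρ x)) (fun z => ind (D c μ u H l (y l) (ρ x + 1) z)) x +
      4 / lam0 * ∑ l, μ.fp.ce (nd c (ρ x)) (fun z => ind (badK c μ u H l (y l) T z)) x) := by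
    refine μ.fp.E_mono fun x hx => ?_
    by_cases hd : dn c μ H lam0 (ρ x) x
    · rw [ind_of hd]
      exact node_dense hu y (hρT x) hx hl hlu hd
    · rw [ind_not hd]
      refine add_nonneg (mul_nonneg (inv_nonneg.2 hQ0.le) (Finset.sum_nonneg fun l _ => ?_))
        (mul_nonneg (by positivity) (Finset.sum_nonneg fun l _ => ?_))
      · exact μ.fp.ce_nonneg (fun _ _ => ind_nonneg _) x
      · exact μ.fp.ce_nonneg (fun _ _ => ind_nonneg _) x
  rw [FP.E_add, FP.E_smul, FP.E_smul, FP.E_sum, FP.E_sum] at h1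
  have h2 : ∀ l, μ.fp.E (fun x => μ.fp.ce (nd c (ρ x)) (fun z => ind (D c μ u H l (y l) (ρ x + 1) z)) x) ≤
      2 * μ.fp.E (fun x => PhiK c μ u H l (y l) (σ x) x) := by
    intro l
    have h3 := E_ce_stop (μ := μ) (nd_filt hc) hρs hρT (fun _ _ => 1) (fun s z => ind (D c μ u H l (y l) (s + 1) z))
      (fun s => Fac.const _ _)
    simp only [one_mul] at h3
    rw [h3]
    refine le_trans ?_ (Pr_D_le hc hu l (y l) hσ)
    refine μ.fp.E_mono fun x _ => ind_mono fun h => ?_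
    have h5 : ρ x ≤ σ x := fst_le (c := c) (μ := μ) (H := H) lam0 σ x
    exact cov_mono (by omega) h
  have h4 : ∀ l, μ.fp.E (fun x => μ.fp.ce (nd c (ρ x)) (fun z => ind (badK c μ u H l (y l) T z)) x) =
      μ.fp.Pr (badK c μ u H l (y l) T) := by
    intro l
    have h3 := E_ce_stop (μ := μ) (nd_filt hc) hρs hρT (fun _ _ => 1) (fun s z => ind (badK c μ u H l (y l) T z))
      (fun s => Fac.const _ _)
    simp only [one_mul] at h3
    exact h3
  rw [Finset.sum_congr rfl fun l _ => h4 l] at h1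
  have h5 := mul_le_mul_of_nonneg_left (Finset.sum_le_sum fun l (_ : l ∈ univ) => h2 l) (inv_nonneg.2 hQ0.le)
  rw [← Finset.mul_sum] at h5
  refine h1.trans ?_
  have h6 : Q⁻¹ * (2 * ∑ l, μ.fp.E (fun x => PhiK c μ u H l (y l) (σ x) x)) =
      2 * Q⁻¹ * ∑ l, μ.fp.E (fun x => PhiK c μ u H l (y l) (σ x) x) := by ring
  rw [h6] at h5
  linarith

/-- the relation after the first dense time -/
theorem after_le (hc : Rf c) {T : ℕ} {σ : (ι → Pt) → ℕ} (hσ : Stp (nd c) σ) (hT : ∀ x, σ x < T) {lam0 h : ℝ}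
    (h0 : 0 ≤ h) (hm : ∀ s x, μ.fp.p x ≠ 0 → μ.fp.m (nd c s) x ≤ h * μ.fp.m (nd c (s + 1)) x)
    (hst : ∀ x, μ.fp.p x ≠ 0 → μ.fp.ce (nd c 0) (fun z => ind (H z)) x ≤ h * lam0) :
    μ.fp.E (fun x => ind (dn c μ H lam0 (fst c μ H lam0 σ x) x) * ind (H x)) ≤
      h * lam0 * μ.fp.Pr (fun x => dn c μ H lam0 (fst c μ H lam0 σ x) x) := by
  set ρ := fst c μ H lam0 σ with hρ
  have hρs : Stp (nd c) ρ := fst_stp hc lam0 hσ
  have hρT : ∀ x, ρ x < T := fun x => lt_of_le_of_lt (fst_le lam0 σ x) (hT x)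
  have h1 := E_ce_stop (μ := μ) (nd_filt hc) hρs hρT (fun s x => ind (dn c μ H lam0 s x)) (fun _ z => ind (H z))
    (fun s => Fac.ind (dn_fac lam0 s))
  rw [← h1]
  unfold FP.Pr
  rw [← FP.E_smul]
  refine μ.fp.E_mono fun x hx => ?_
  rw [mul_comm]
  refine mul_le_mul_of_nonneg_right ?_ (ind_nonneg _)
  rcases Nat.eq_zero_or_pos (ρ x) with h2 | h2
  · rw [h2]
    exact hst x hx
  · obtain ⟨t, ht⟩ : ∃ t, ρ x = t + 1 := ⟨ρ x - 1, by omega⟩
    have h3 : ¬ dn c μ H lam0 t x := not_dn (σ := σ) (by rw [← hρ]; omega)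
    have h4 := cp_ratio (P := μ.fp) (Y := nd c) (h := h) (s := t) (t := t + 1) (nd_filt hc t) hx (hm t x hx) H
    rw [ht]
    exact h4.trans (mul_le_mul_of_nonneg_left (not_le.1 h3).le h0)

/-- **COVER LEMMA, any number of vertices** -/
theorem coverK [Nonempty ι] (hc : Rf c) (hu : 0 < u) {M : ℕ} (y : ι → Fin M → Pt) {T : ℕ} {σ : (ι → Pt) → ℕ}
    (hσ : Stp (nd c) σ) (hT : ∀ x, σ x < T) {lam0 h : ℝ} (hl : 0 < lam0) (hlu : 2 * Fintype.card ι * u ≤ lam0)
    (h0 : 0 ≤ h) (hm : ∀ s x, μ.fp.p x ≠ 0 → μ.fp.m (nd c s) x ≤ h * μ.fp.m (nd c (s + 1)) x)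
    (hst : ∀ x, μ.fp.p x ≠ 0 → μ.fp.ce (nd c 0) (fun z => ind (H z)) x ≤ h * lam0)
    (m : ℕ → (ι → Pt) → ℝ) (g : ℕ → ι → (ι → Pt) → ℝ) (hg : ∀ s l, Fac (fun z => (nd c s z, off l z)) (g s l))
    (hg0 : ∀ s l z, 0 ≤ g s l z) (hmg : ∀ s l z, m s z ≤ g s l z) (hm1 : ∀ s z, m s z ≤ 1) :
    μ.fp.E (fun x => ind (H x) * m (σ x) x) ≤
      lam0 ^ ((1 : ℝ) / Fintype.card ι) * ∑ l, (μ.fp.E (fun x => g (σ x) l x) +
        4 * h * μ.fp.E (fun x => PhiK c μ u H l (y l) (σ x) x)) +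
      4 * h * ∑ l, μ.fp.Pr (badK c μ u H l (y l) T) := by
  set ρ := fst c μ H lam0 σ with hρ
  -- the two cases
  have h1 : μ.fp.E (fun x => ind (H x) * m (σ x) x) ≤
      μ.fp.E (fun x => ind (dn c μ H lam0 (ρ x) x) * ind (H x)) +
        μ.fp.E (fun x => ind (¬ dn c μ H lam0 (σ x) x) * (ind (H x) * m (σ x) x)) +
          0 := by
    rw [add_zero, ← FP.E_add]
    refine μ.fp.E_mono fun x _ => ?_
    by_cases hd : dn c μ H lam0 (ρ x) x
    · rw [ind_of hd, one_mul]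
      have h2 : ind (H x) * m (σ x) x ≤ ind (H x) := by
        have := mul_le_mul_of_nonneg_left (hm1 (σ x) x) (ind_nonneg (H x))
        linarith
      by_cases hd2 : dn c μ H lam0 (σ x) x
      · rw [ind_not (p := ¬ dn c μ H lam0 (σ x) x) (fun h => h hd2)]
        linarith
      · rw [ind_of hd2]
        linarith [ind_nonneg (H x)]
    · rw [ind_not hd, zero_mul, zero_add]
      have h2 : ρ x = σ x := fst_eq hd
      rw [← h2, ind_of hd, one_mul]
  have h2 : μ.fp.E (fun x => ind (¬ dn c μ H lam0 (σ x) x) * (ind (H x) * m (σ x) x)) ≤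
      lam0 ^ ((1 : ℝ) / Fintype.card ι) * ∑ l, μ.fp.E (fun x => g (σ x) l x) := by
    have hf : ∀ s, Fac (nd c s) (fun x => ind (¬ dn c μ H lam0 s x)) := fun s =>
      Fac.ind fun v w h => not_congr (dn_fac lam0 s v w h)
    have e1 := E_ce_stop (μ := μ) (nd_filt hc) hσ hT (fun s x => ind (¬ dn c μ H lam0 s x))
      (fun s z => ind (H z) * m s z) hf
    have e2 : ∀ l, μ.fp.E (fun x => 1 * μ.fp.ce (nd c (σ x)) (g (σ x) l) x) = μ.fp.E (fun x => 1 * g (σ x) l x) :=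
      fun l => E_ce_stop (μ := μ) (nd_filt hc) hσ hT (fun _ _ => 1) (fun s z => g s l z) (fun s => Fac.const _ _)
    simp only [one_mul] at e2
    rw [← e1, ← Finset.sum_congr rfl fun l _ => e2 l, ← FP.E_sum, ← FP.E_smul]
    refine μ.fp.E_mono fun x hx => ?_
    have hG : 0 ≤ ∑ l, μ.fp.ce (nd c (σ x)) (g (σ x) l) x :=
      Finset.sum_nonneg fun l _ => μ.fp.ce_nonneg (fun z _ => hg0 _ _ z) x
    by_cases hd : dn c μ H lam0 (σ x) x
    · rw [ind_not (p := ¬ dn c μ H lam0 (σ x) x) (fun h => h hd), zero_mul]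
      exact mul_nonneg (Real.rpow_nonneg hl.le _) hG
    · rw [ind_of hd, one_mul]
      exact sharp_nd μ (σ x) hx hl.le H (m (σ x)) (g (σ x)) (hg (σ x)) (hg0 (σ x)) (hmg (σ x)) (not_le.1 hd).le
  have h3 := after_le (H := H) hc hσ hT (lam0 := lam0) h0 hm hst
  have h4 := dense_le (μ := μ) (H := H) hc hu y hσ hT hl hlu
  rw [← hρ] at h3 h4
  set S := ∑ l, μ.fp.E (fun x => PhiK c μ u H l (y l) (σ x) x) with hS
  have hS0 : 0 ≤ S := Finset.sum_nonneg fun l _ => μ.fp.E_nonneg fun x _ => Phi_nonneg _ _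
  set B := ∑ l, μ.fp.Pr (badK c μ u H l (y l) T) with hB
  -- the power
  have h5 : lam0 * (2 * ((lam0 / 2) ^ (1 - (1 : ℝ) / Fintype.card ι))⁻¹) ≤ 4 * lam0 ^ ((1 : ℝ) / Fintype.card ι) := by
    have hp : 0 < lam0 / 2 := by linarith
    have e : (lam0 / 2) ^ (1 - (1 : ℝ) / Fintype.card ι) = (lam0 / 2) / (lam0 / 2) ^ ((1 : ℝ) / Fintype.card ι) := by
      rw [Real.rpow_sub hp, Real.rpow_one]
    rw [e, inv_div]
    have h6 : lam0 * (2 * ((lam0 / 2) ^ ((1 : ℝ) / Fintype.card ι) / (lam0 / 2))) =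
        4 * (lam0 / 2) ^ ((1 : ℝ) / Fintype.card ι) := by
      field_simp
      ring
    rw [h6]
    refine mul_le_mul_of_nonneg_left (Real.rpow_le_rpow hp.le (by linarith) ?_) (by norm_num)
    positivity
  have h7 : h * lam0 * μ.fp.Pr (fun x => dn c μ H lam0 (ρ x) x) ≤
      4 * h * lam0 ^ ((1 : ℝ) / Fintype.card ι) * S + 4 * h * B := by
    have h8 := mul_le_mul_of_nonneg_left h4 (mul_nonneg h0 hl.le)
    refine h8.trans ?_
    have h9 := mul_le_mul_of_nonneg_left h5 (mul_nonneg h0 hS0)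
    have e1 : h * lam0 * (4 / lam0 * B) = 4 * h * B := by field_simp
    have e2 : h * lam0 * (2 * ((lam0 / 2) ^ (1 - (1 : ℝ) / Fintype.card ι))⁻¹ * S) =
        h * S * (lam0 * (2 * ((lam0 / 2) ^ (1 - (1 : ℝ) / Fintype.card ι))⁻¹)) := by ring
    rw [mul_add, e1, e2]
    have e3 : 4 * h * lam0 ^ ((1 : ℝ) / Fintype.card ι) * S = h * S * (4 * lam0 ^ ((1 : ℝ) / Fintype.card ι)) := by ring
    rw [e3]
    linarith
  rw [Finset.sum_add_distrib, ← Finset.mul_sum, ← hS, mul_add]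
  have e4 : lam0 ^ ((1 : ℝ) / Fintype.card ι) * (4 * h * S) = 4 * h * lam0 ^ ((1 : ℝ) / Fintype.card ι) * S := by ring
  rw [e4]
  linarith

end

end Pool.Agent.GMH
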