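import Pool.Agent.GMH.Ctx
import Pool.Agent.GMH.TopFin

/-!
# GMH/CtxG: `TopKin` from the runs with tables (helper12, split by helper45)

`GoalC C` : what `TopKin` wants from one run; `kin_ctx` : `TopKin` from `∃ C, ∀ A ≥ C, AllC A GoalC`.
-/

set_option autoImplicit false
set_option linter.unusedSectionVars false

namespace Pool.Agent.GMH.CX

open Finset Pool.Agent.PWZ Pool.Agent.M3 Pool.Agent.GM Pool.Agent.GM.Harm Pool.Agent.GMH Pool.Agent.GMH.NZ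
open Pool.Agent.GMH.V3 Pool.Agent.GMH.TP Pool.Agent.GMH.TD Pool.Agent.GMH.Dy Pool.Agent.GMH.CTM

noncomputable section

/-- **what `TopKin` wants from one run** -/
def GoalC (C : Ctx) : Prop :=
  ∃ Gd : ℕ → C.Q → Prop, (∀ t < C.T, Fac (ZT C.D C.v (t + 1) t) (Gd t)) ∧
    (∀ t < C.T, ∀ w, (C.D.P C.h t).p w ≠ 0 → V3.GA C.h C.v C.p C.dg t w → Gd t w) ∧
    ∃ st sp : ℕ → C.Q → Option (Fin 3),
      (∀ t < C.T, Fac (VZ C.D C.v 1 t) (st t)) ∧ (∀ t < C.T, Fac (VZ C.D C.v 5 t) (sp t)) ∧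
      ∑ t ∈ range C.T, NT C.h C.v C.dg t (fun w => Ar C.h C.v C.p (2 * t) w ∧ Gd t w) ≤ (pw C.Lam 16)⁻¹ ∧
      ∃ (e0 : ℝ) (e2 e1 : Fin 3 → ℝ), e0 + ∑ i, e2 i + ∑ i, e1 i ≤ 7 * (pw C.Lam 16)⁻¹ ∧
        FullOK C.h C.v C.p Gd st sp C.T C.Lam e0 ∧ (∀ i, TwoOK C.h C.v C.p Gd st sp C.T C.Lam i (e2 i)) ∧
        (∀ i, OneOK C.h C.v C.p Gd st sp C.T C.Lam i (e1 i)) ∧ ∀ i, OneP C.h C.v C.p Gd st sp C.T C.Lam i

/-- **`TopKin` from the runs with tables** -/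
theorem kin_ctx (H0 : ∃ C : ℕ, ∀ A ≥ C, AllC A GoalC) : TopKin := by
  obtain ⟨C, hC⟩ := H0
  refine ⟨C, fun A hA => ?_⟩
  obtain ⟨c0m, hc⟩ := hC A hA
  refine ⟨c0m, fun c0 hc0 X β γ φ _ _ _ _ _ D al h dg prr T Lam H hL v R hd => ?_⟩
  obtain ⟨W, iW, nW, ⟨tb⟩⟩ := exists_tab h H
  exact hc ⟨A, c0, Lam, X, β, γ, φ, W, D, al, h, dg, prr, T, v, tb, H, hL, R, hd⟩ rfl hc0

end

end Pool.Agent.GMH.CX
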