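import Pool.Agent.GMH.RelT

/-!
# GMH.RelK: Lemma S with finitely many kinds of released tuples and a partial cut (helper33; design of helper11, 44852)

Kinds `k`: `rel k w f` pairwise disjoint relations, functions of `((V, Z), f)`; `bit k` an event; `T k` the labels which the
weight of the kind `k` may see. `pi w f = ∑_k 1[rel k w f] P(bit k | (V, Z), labels of f in T k)`.
`om w f ∈ [0, 1]` = weight of the partial cut, `G0W = density * exp (- om (psi⁺ + log (1 / eta)))`.
* `lossW_rel` : Lemma S for every released weight `pi` and every partial cut `om`;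
* `kpi` : the weight; `kpi_nonneg`, `kpi_le_one`, `kpi_fac`, `kpi_tup`;
* `kind_price` : price of one kind;
* `lossC_kinds` : `E 1_Al loss ≤ E 1_Al (∑_k 1[rel k] 1[bit k] max(psi, -K) + (1 - ∑_k ..) om (psi⁺ + log (1/eta)))
  + ∑_k 2 (Lam + log (1/eta)) P(Al, bit k) B_k^(1/2) + E 1_Al ∑_f ∏ q' (1 - pi) (G0W - 1)`;
* `G0W_le`, `G0W_dens`, `G0W_zero`, `G0W_one` : the cut density; `dens_expW_le` : one tuple;
* the normalisation with partial cut: use `G0W_le`.
-/

set_option autoImplicit false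
set_option linter.unusedSectionVars false
set_option linter.unusedVariables false

namespace Pool.Agent.GMH

open Finset Pool.Agent.PWZ Pool.Agent.M3 Pool.Agent.GM

noncomputable section

namespace LTab

variable {I φ : Type*} [Fintype I] [DecidableEq I] {S : I → Finset φ} (t : LTab S)

/-- the density, cut with the weight `om` -/
def G0w (eta : ℝ) (om : (I → φ) → ℝ) (F : I → φ) : ℝ :=
  (t.p F / ∏ i, t.q i (F i)) * Real.exp (-(om F * (max (t.psi F) 0 + Real.log (1 / eta))))

/-- LEMMA S: released tuples signed, partial cut of the others -/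
theorem lemS_w (eta : ℝ) (om : (I → φ) → ℝ) (pi : (I → φ) → ℝ) (h0 : ∀ F, 0 ≤ pi F) (h1 : ∀ F, pi F ≤ 1) :
    t.loss ≤ ∑ F ∈ Fintype.piFinset S, t.p' F * (pi F * t.psi F +
        (1 - pi F) * (om F * (max (t.psi F) 0 + Real.log (1 / eta)))) +
      ∑ F ∈ Fintype.piFinset S, (∏ i, t.q' i (F i)) * ((1 - pi F) * (t.G0w eta om F - 1)) := by
  refine (t.lemS_rel (t.G0w eta om) (fun F hF => mul_nonneg (t.dn_nn hF) (Real.exp_pos _).le)
    (fun F hF hp => mul_pos (t.dn_pos hF hp) (Real.exp_pos _)) pi h0 h1).trans (add_le_add (le_of_eq ?_) le_rfl)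
  refine Finset.sum_congr rfl fun F hF => ?_
  by_cases hp : t.p' F = 0
  · rw [hp, zero_mul, zero_mul]
  · have e : Real.log (t.G0w eta om F) = t.psi F - om F * (max (t.psi F) 0 + Real.log (1 / eta)) := by
      unfold G0w
      rw [Real.log_mul (t.dn_pos hF hp).ne' (Real.exp_pos _).ne', Real.log_exp]
      unfold psi
      ring
    rw [e]
    ring

end LTab

section relk

variable {Om : Type*} [Fintype Om] (P : FP Om) {I α β γ φ ν κ : Type*} [Fintype I] [DecidableEq I] [Fintype κ]
  {Z : Om → β} {Zb : I → Om → α} (F : I → Om → φ) {Y : I → Om → γ} {V : Om → ν}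

/-- the released part and the partially cut part of a tuple -/
def rgW (P : FP Om) (Z : Om → β) (Zb : I → Om → α) (F : I → Om → φ) (eta : ℝ) (om : Om → (I → φ) → ℝ)
    (pi : Om → (I → φ) → ℝ) (w : Om) (f : I → φ) : ℝ :=
  pi w f * psC P Z Zb F w f + (1 - pi w f) * (om w f * (max (psC P Z Zb F w f) 0 + Real.log (1 / eta)))

/-- the density with the partial cut -/
def G0W (P : FP Om) (Z : Om → β) (Zb : I → Om → α) (F : I → Om → φ) (eta : ℝ) (om : Om → (I → φ) → ℝ) (w : Om)
    (f : I → φ) : ℝ :=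
  (P.pv Z (tup F) w f / ∏ i, P.pv (Zb i) (F i) w (f i)) *
    Real.exp (-(om w f * (max (psC P Z Zb F w f) 0 + Real.log (1 / eta))))

theorem rgW_fac {ι : Type*} {W : Om → ι} (hW : Fac W Z) (hZ : ∀ i, Fac Z (Zb i)) {eta : ℝ} {om : Om → (I → φ) → ℝ}
    {pi : Om → (I → φ) → ℝ} (hR : ∀ f, Fac W (fun w => om w f)) (hpi : ∀ f, Fac W (fun w => pi w f)) (f : I → φ) :
    Fac W (fun w => rgW P Z Zb F eta om pi w f) := by
  intro a b hab
  have g1 : psC P Z Zb F a f = psC P Z Zb F b f := psC_fac P F hZ f a b (hW a b hab)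
  have g2 : om a f = om b f := hR f a b hab
  have g3 : pi a f = pi b f := hpi f a b hab
  show rgW P Z Zb F eta om pi a f = rgW P Z Zb F eta om pi b f
  unfold rgW
  rw [g1, g2, g3]

/-- **LEMMA S, composite additions, alive weight, released tuples, partial cut** -/
theorem lossW_rel (hZ : ∀ i, Fac Z (Zb i)) (hV : ∀ i, Fac (fun u => (V u, Z u)) (Y i)) {eta : ℝ} {al : Om → ℝ}
    (hal : Fac (fun u => (V u, Z u)) al) (h0 : ∀ w, 0 ≤ al w) {om : Om → (I → φ) → ℝ} {pi : Om → (I → φ) → ℝ}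
    (hR : ∀ f, Fac (fun u => (V u, Z u)) (fun w => om w f)) (hpi : ∀ f, Fac (fun u => (V u, Z u)) (fun w => pi w f))
    (p0 : ∀ w f, 0 ≤ pi w f) (p1 : ∀ w f, pi w f ≤ 1) :
    P.E (fun w => al w * lossC P Z Zb F Y V w) ≤ P.E (fun w => al w * rgW P Z Zb F eta om pi w (tup F w)) +
      P.E (fun w => al w * ∑ f ∈ let_ F, (∏ i, P.pv (fun u => (Y i u, Zb i u)) (F i) w (f i)) *
        ((1 - pi w f) * (G0W P Z Zb F eta om w f - 1))) := by
  classical
  have e1 : P.E (fun w => al w * lossC P Z Zb F Y V w) = P.E (fun w => al w *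
      ∑ f ∈ let_ F, P.pv (fun u => (V u, Z u)) (tup F) w f *
        (∑ i, Real.log (P.pv (fun u => (Y i u, Zb i u)) (F i) w (f i) / P.pv (Zb i) (F i) w (f i)) -
          Real.log (P.pv (fun u => (V u, Z u)) (tup F) w f / P.pv Z (tup F) w f))) := by
    refine E_tup P F hal (g := fun w f => ∑ i, Real.log (P.pv (fun u => (Y i u, Zb i u)) (F i) w (f i) /
      P.pv (Zb i) (F i) w (f i)) - Real.log (P.pv (fun u => (V u, Z u)) (tup F) w f / P.pv Z (tup F) w f)) ?_
    intro f a b hab
    have hab' : V a = V b ∧ Z a = Z b := by simpa only [Prod.mk.injEq] using hab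
    have g1 : ∀ i, P.pv (fun u => (Y i u, Zb i u)) (F i) a (f i) = P.pv (fun u => (Y i u, Zb i u)) (F i) b (f i) := fun i =>
      P.pv_fac _ _ _ a b (by simp only [Prod.mk.injEq]; exact ⟨hV i a b hab, hZ i a b hab'.2⟩)
    have g2 : ∀ i, P.pv (Zb i) (F i) a (f i) = P.pv (Zb i) (F i) b (f i) := fun i =>
      P.pv_fac _ _ _ a b (hZ i a b hab'.2)
    have g3 : P.pv (fun u => (V u, Z u)) (tup F) a f = P.pv (fun u => (V u, Z u)) (tup F) b f :=
      P.pv_fac _ _ _ a b hab
    have g4 : P.pv Z (tup F) a f = P.pv Z (tup F) b f := P.pv_fac _ _ _ a b hab'.2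
    simp only [g1, g2, g3, g4]
  have e2 : P.E (fun w => al w * rgW P Z Zb F eta om pi w (tup F w)) = P.E (fun w => al w *
      ∑ f ∈ let_ F, P.pv (fun u => (V u, Z u)) (tup F) w f * rgW P Z Zb F eta om pi w f) :=
    E_tup P F hal (fun f => rgW_fac P F (W := fun u => (V u, Z u)) (Fac.snd _ _) hZ hR hpi f)
  rw [e1, e2, ← P.E_add]
  refine P.E_mono fun w hw => ?_
  rw [← mul_add]
  refine mul_le_mul_of_nonneg_left ?_ (h0 w)
  exact (tabC P Z Zb F Y V hZ hV hw).lemS_w eta (om w) (pi w) (p0 w) (p1 w)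

/-! ### the kinds -/

/-- the released weight of the kinds -/
def kpi (P : FP Om) (N' : Om → ν) (F : I → Om → φ) (rel : κ → Om → (I → φ) → Prop) (T : κ → Finset I)
    (bit : κ → Om → Prop) (w : Om) (f : I → φ) : ℝ :=
  ∑ k, ind (rel k w f) * rpi P N' F (T k) (fun u => ind (bit k u)) w f

variable {N' : Om → ν} {rel : κ → Om → (I → φ) → Prop} {T : κ → Finset I} {bit : κ → Om → Prop}

theorem kpi_nonneg (w : Om) (f : I → φ) : 0 ≤ kpi P N' F rel T bit w f :=
  Finset.sum_nonneg fun k _ => mul_nonneg (ind_nonneg _) (rpi_nonneg P (fun u => ind_nonneg _) w f)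

/-- a sum over disjoint relations of weights at most one -/
theorem dis_le_one {R : κ → Prop} (hd : ∀ k k', R k → R k' → k = k') {c : κ → ℝ} (hc : ∀ k, c k ≤ 1) :
    ∑ k, ind (R k) * c k ≤ 1 := by
  classical
  by_cases h : ∃ k, R k
  · obtain ⟨k, hk⟩ := h
    rw [Finset.sum_eq_single k (fun k' _ hne => by rw [ind_not (fun h2 => hne (hd k' k h2 hk)), zero_mul])
      (fun h2 => absurd (Finset.mem_univ k) h2), ind_of hk, one_mul]
    exact hc k
  · push Not at h
    rw [Finset.sum_eq_zero fun k _ => by rw [ind_not (h k), zero_mul]]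
    exact zero_le_one

theorem kpi_le_one (hd : ∀ w f k k', rel k w f → rel k' w f → k = k') (w : Om) (f : I → φ) :
    kpi P N' F rel T bit w f ≤ 1 :=
  dis_le_one (hd w f) fun k => rpi_le_one P (fun u => ind_le_one _) w f

theorem kpi_fac (hr : ∀ k f, Fac N' (fun w => rel k w f)) (f : I → φ) : Fac N' (fun w => kpi P N' F rel T bit w f) := by
  intro a b hab
  show kpi P N' F rel T bit a f = kpi P N' F rel T bit b f
  unfold kpi
  refine Finset.sum_congr rfl fun k _ => ?_
  have h1 : rel k a f = rel k b f := hr k f a b hab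
  have h2 : rpi P N' F (T k) (fun u => ind (bit k u)) a f = rpi P N' F (T k) (fun u => ind (bit k u)) b f :=
    rpi_fac P f a b hab
  rw [h1, h2]

theorem kpi_tup (w : Om) : kpi P N' F rel T bit w (tup F w) =
    ∑ k, ind (rel k w (tup F w)) * P.ce (fun u => (N' u, res F (T k) u)) (fun v => ind (bit k v)) w := by
  unfold kpi
  exact Finset.sum_congr rfl fun k _ => by rw [rpi_tup]

/-- **PRICE OF ONE KIND** : `u1` = signed term cut at `-K`, `u2` = partial cut -/
theorem kind_price (hZ : ∀ i, Fac Z (Zb i)) {eta : ℝ} (heta : 0 < eta) (heta1 : eta ≤ 1) {al : Om → ℝ}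
    (hal : Fac (fun u => (V u, Z u)) al) (h0 : ∀ w, 0 ≤ al w) (h1 : ∀ w, al w ≤ 1) {om : Om → (I → φ) → ℝ}
    (hR : ∀ f, Fac (fun u => (V u, Z u)) (fun w => om w f)) (o0 : ∀ w f, 0 ≤ om w f) (o1 : ∀ w f, om w f ≤ 1)
    {rl : Om → (I → φ) → Prop} (hr : ∀ f, Fac (fun u => (V u, Z u)) (fun w => rl w f)) (T : Finset I) (xi : Om → Prop)
    {K Lam B : ℝ} (hK : 0 ≤ K) (hKL : K ≤ Lam) (hpsi : ∀ w, P.p w ≠ 0 → al w ≠ 0 → psC P Z Zb F w (tup F w) ≤ Lam)
    (hB : P.Pr xi ≠ 0 → (P.cond xi).klc P (tup F) (fun w => ((V w, Z w), res F T w)) ≤ B) :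
    P.E (fun w => al w * (ind (rl w (tup F w)) * P.ce (fun u => ((V u, Z u), res F T u)) (fun v => ind (xi v)) w *
        (max (psC P Z Zb F w (tup F w)) (-K) -
          om w (tup F w) * (max (psC P Z Zb F w (tup F w)) 0 + Real.log (1 / eta))))) ≤
      P.E (fun w => al w * (ind (rl w (tup F w)) * ind (xi w) *
        (max (psC P Z Zb F w (tup F w)) (-K) -
          om w (tup F w) * (max (psC P Z Zb F w (tup F w)) 0 + Real.log (1 / eta))))) +
        2 * (Lam + Real.log (1 / eta)) * (P.Pr xi * Real.sqrt B) := by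
  classical
  set l : ℝ := Real.log (1 / eta) with hl
  have hl0 : 0 ≤ l := Real.log_nonneg (by rw [le_div_iff₀ heta, one_mul]; exact heta1)
  have hL0 : 0 ≤ Lam + l := by linarith
  set W : Om → (ν × β) × ({i // i ∈ T} → φ) := fun w => ((V w, Z w), res F T w) with hW
  set d : Om → ℝ := fun w => max (psC P Z Zb F w (tup F w)) (-K) -
    om w (tup F w) * (max (psC P Z Zb F w (tup F w)) 0 + l) with hd
  set h : Om → ℝ := fun w => max (-(Lam + l)) (min (al w * (ind (rl w (tup F w)) * d w)) (Lam + l)) with hh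
  have fu : Fac (fun w => (tup F w, W w)) (fun w => al w * (ind (rl w (tup F w)) * d w)) := by
    intro a b hab
    have hab' : tup F a = tup F b ∧ (V a = V b ∧ Z a = Z b) ∧ res F T a = res F T b := by
      simpa only [hW, Prod.mk.injEq] using hab
    obtain ⟨g1, ⟨g2, g3⟩, -⟩ := hab'
    have g4 : (fun u => (V u, Z u)) a = (fun u => (V u, Z u)) b := by simp only [Prod.mk.injEq]; exact ⟨g2, g3⟩
    have e1 : al a = al b := hal a b g4
    have e2 : psC P Z Zb F a (tup F a) = psC P Z Zb F b (tup F b) := by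
      rw [g1]
      exact psC_fac P F hZ (tup F b) a b g3
    have e3 : om a (tup F a) = om b (tup F b) := by
      rw [g1]
      exact hR (tup F b) a b g4
    have e4 : rl a (tup F a) = rl b (tup F b) := by
      rw [g1]
      exact hr (tup F b) a b g4
    simp only [hd, e1, e2, e3, e4]
  have fh : Fac (fun w => (tup F w, W w)) h := fu.comp (fun x => max (-(Lam + l)) (min x (Lam + l)))
  have bh : ∀ w, |h w| ≤ Lam + l := by
    intro w
    rw [abs_le]
    exact ⟨le_max_left _ _, max_le (by linarith) (min_le_right _ _)⟩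
  have eh : ∀ w, P.p w ≠ 0 → h w = al w * (ind (rl w (tup F w)) * d w) := by
    intro w hw
    have hb : |al w * (ind (rl w (tup F w)) * d w)| ≤ Lam + l := by
      by_cases ha : al w = 0
      · rw [ha, zero_mul, abs_zero]; exact hL0
      · rw [abs_mul, abs_mul, abs_of_nonneg (h0 w), abs_of_nonneg (ind_nonneg _)]
        have h2 := hpsi w hw ha
        have h3 : |d w| ≤ Lam + l := by
          simp only [hd]
          have a0 := o0 w (tup F w)
          have a1 := o1 w (tup F w)
          rw [abs_le]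
          rcases le_total (psC P Z Zb F w (tup F w)) 0 with h3 | h3
          · rw [max_eq_right h3, zero_add]
            have h4 := le_max_right (psC P Z Zb F w (tup F w)) (-K)
            have h5 : max (psC P Z Zb F w (tup F w)) (-K) ≤ 0 := max_le h3 (by linarith)
            have h6 : om w (tup F w) * l ≤ 1 * l := mul_le_mul_of_nonneg_right a1 hl0
            have h7 : 0 ≤ om w (tup F w) * l := mul_nonneg a0 hl0
            constructor <;> linarith
          · rw [max_eq_left h3, max_eq_left (by linarith : -K ≤ psC P Z Zb F w (tup F w))]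
            have h6 : om w (tup F w) * (psC P Z Zb F w (tup F w) + l) ≤ 1 * (psC P Z Zb F w (tup F w) + l) :=
              mul_le_mul_of_nonneg_right a1 (by linarith)
            have h7 : 0 ≤ om w (tup F w) * (psC P Z Zb F w (tup F w) + l) := mul_nonneg a0 (by linarith)
            constructor <;> linarith
        calc al w * (ind (rl w (tup F w)) * |d w|) ≤ 1 * (1 * (Lam + l)) :=
              mul_le_mul (h1 w) (mul_le_mul (ind_le_one _) h3 (abs_nonneg _) zero_le_one)
                (mul_nonneg (ind_nonneg _) (abs_nonneg _)) zero_le_one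
          _ = _ := by ring
    obtain ⟨b1, b2⟩ := abs_le.1 hb
    simp only [hh]
    rw [min_eq_left b2, max_eq_right b1]
  have k2 := price_event_le (P := P) (xi := xi) (Y := tup F) (W := W) (h := h) fh hL0 bh hB
  have k3 := (abs_le.1 k2).2
  have k4 : P.E (fun w => P.ce W (fun v => ind (xi v)) w * h w) =
      P.E (fun w => al w * (ind (rl w (tup F w)) * P.ce (fun u => ((V u, Z u), res F T u)) (fun v => ind (xi v)) w * d w)) :=
    P.E_congr fun w hw => by
      rw [eh w hw]
      show P.ce W (fun v => ind (xi v)) w * (al w * (ind (rl w (tup F w)) * d w)) =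
        al w * (ind (rl w (tup F w)) * P.ce W (fun v => ind (xi v)) w * d w)
      ring
  have k5 : P.E (fun w => ind (xi w) * h w) = P.E (fun w => al w * (ind (rl w (tup F w)) * ind (xi w) * d w)) :=
    P.E_congr fun w hw => by
      rw [eh w hw]
      ring
  rw [k4, k5] at k3
  linarith

/-- the released parts of all kinds, signed and cut at `-K`, and the partial cut of the others, at the true tuple -/
def sgK (P : FP Om) (Z : Om → β) (Zb : I → Om → α) (F : I → Om → φ) (eta K : ℝ) (om : Om → (I → φ) → ℝ)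
    (rel : κ → Om → (I → φ) → Prop) (bit : κ → Om → Prop) (w : Om) : ℝ :=
  (∑ k, ind (rel k w (tup F w)) * ind (bit k w)) * max (psC P Z Zb F w (tup F w)) (-K) +
    (1 - ∑ k, ind (rel k w (tup F w)) * ind (bit k w)) *
      (om w (tup F w) * (max (psC P Z Zb F w (tup F w)) 0 + Real.log (1 / eta)))

/-- **THE PRICE OF THE KINDS** -/
theorem rgW_price (hZ : ∀ i, Fac Z (Zb i)) {eta : ℝ} (heta : 0 < eta) (heta1 : eta ≤ 1) {al : Om → ℝ}
    (hal : Fac (fun u => (V u, Z u)) al) (h0 : ∀ w, 0 ≤ al w) (h1 : ∀ w, al w ≤ 1) {om : Om → (I → φ) → ℝ}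
    (hR : ∀ f, Fac (fun u => (V u, Z u)) (fun w => om w f)) (o0 : ∀ w f, 0 ≤ om w f) (o1 : ∀ w f, om w f ≤ 1)
    (hr : ∀ k f, Fac (fun u => (V u, Z u)) (fun w => rel k w f))
    {K Lam : ℝ} {B : κ → ℝ} (hK : 0 ≤ K) (hKL : K ≤ Lam)
    (hpsi : ∀ w, P.p w ≠ 0 → al w ≠ 0 → psC P Z Zb F w (tup F w) ≤ Lam)
    (hB : ∀ k, P.Pr (bit k) ≠ 0 → (P.cond (bit k)).klc P (tup F) (fun w => ((V w, Z w), res F (T k) w)) ≤ B k) :
    P.E (fun w => al w * rgW P Z Zb F eta om (kpi P (fun u => (V u, Z u)) F rel T bit) w (tup F w)) ≤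
      P.E (fun w => al w * sgK P Z Zb F eta K om rel bit w) +
        ∑ k, 2 * (Lam + Real.log (1 / eta)) * (P.Pr (bit k) * Real.sqrt (B k)) := by
  classical
  set u1 : Om → ℝ := fun w => max (psC P Z Zb F w (tup F w)) (-K) with hu1
  set u2 : Om → ℝ := fun w => om w (tup F w) * (max (psC P Z Zb F w (tup F w)) 0 + Real.log (1 / eta)) with hu2
  have k1 : P.E (fun w => al w * rgW P Z Zb F eta om (kpi P (fun u => (V u, Z u)) F rel T bit) w (tup F w)) ≤
      P.E (fun w => al w * u2 w + ∑ k, al w * (ind (rel k w (tup F w)) *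
        P.ce (fun u => ((V u, Z u), res F (T k) u)) (fun v => ind (bit k v)) w * (u1 w - u2 w))) := by
    refine P.E_mono fun w hw => ?_
    have e : al w * u2 w + ∑ k, al w * (ind (rel k w (tup F w)) *
        P.ce (fun u => ((V u, Z u), res F (T k) u)) (fun v => ind (bit k v)) w * (u1 w - u2 w)) =
        al w * (kpi P (fun u => (V u, Z u)) F rel T bit w (tup F w) * u1 w +
          (1 - kpi P (fun u => (V u, Z u)) F rel T bit w (tup F w)) * u2 w) := by
      rw [kpi_tup, ← Finset.mul_sum, ← Finset.sum_mul]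
      ring
    rw [e]
    refine mul_le_mul_of_nonneg_left ?_ (h0 w)
    unfold rgW
    have := mul_le_mul_of_nonneg_left (le_max_left (psC P Z Zb F w (tup F w)) (-K))
      (kpi_nonneg P F (N' := fun u => (V u, Z u)) (rel := rel) (T := T) (bit := bit) w (tup F w))
    simp only [hu1, hu2]
    linarith
  have k2 : ∀ k, P.E (fun w => al w * (ind (rel k w (tup F w)) *
        P.ce (fun u => ((V u, Z u), res F (T k) u)) (fun v => ind (bit k v)) w * (u1 w - u2 w))) ≤
      P.E (fun w => al w * (ind (rel k w (tup F w)) * ind (bit k w) * (u1 w - u2 w))) +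
        2 * (Lam + Real.log (1 / eta)) * (P.Pr (bit k) * Real.sqrt (B k)) := fun k =>
    kind_price P F hZ heta heta1 hal h0 h1 hR o0 o1 (hr k) (T k) (bit k) hK hKL hpsi (hB k)
  have k3 : P.E (fun w => al w * sgK P Z Zb F eta K om rel bit w) =
      P.E (fun w => al w * u2 w) + ∑ k, P.E (fun w => al w * (ind (rel k w (tup F w)) * ind (bit k w) * (u1 w - u2 w))) := by
    rw [← FP.E_sum, ← P.E_add]
    refine P.E_congr fun w _ => ?_
    rw [← Finset.mul_sum, ← Finset.sum_mul]
    simp only [sgK, hu1, hu2]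
    ring
  rw [P.E_add, FP.E_sum] at k1
  rw [k3]
  have k4 := Finset.sum_le_sum fun k (_ : k ∈ (Finset.univ : Finset κ)) => k2 k
  rw [Finset.sum_add_distrib] at k4
  linarith

/-- **LEMMA S, FINITELY MANY KINDS, PARTIAL CUT, RELATIVE PRICE**, the bits cut down to the alive set -/
theorem lossC_kinds (hZ : ∀ i, Fac Z (Zb i)) (hV : ∀ i, Fac (fun u => (V u, Z u)) (Y i)) {eta : ℝ} (heta : 0 < eta)
    (heta1 : eta ≤ 1) {Al : Om → Prop} (hal : Fac (fun u => (V u, Z u)) Al) {om : Om → (I → φ) → ℝ}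
    (hR : ∀ f, Fac (fun u => (V u, Z u)) (fun w => om w f)) (o0 : ∀ w f, 0 ≤ om w f) (o1 : ∀ w f, om w f ≤ 1)
    (hr : ∀ k f, Fac (fun u => (V u, Z u)) (fun w => rel k w f))
    (hd : ∀ w f k k', rel k w f → rel k' w f → k = k')
    {K Lam : ℝ} {B : κ → ℝ} (hK : 0 ≤ K) (hKL : K ≤ Lam)
    (hpsi : ∀ w, P.p w ≠ 0 → Al w → psC P Z Zb F w (tup F w) ≤ Lam)
    (hB : ∀ k, P.Pr (fun w => Al w ∧ bit k w) ≠ 0 →
      (P.cond (fun w => Al w ∧ bit k w)).klc P (tup F) (fun w => ((V w, Z w), res F (T k) w)) ≤ B k) :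
    P.E (fun w => ind (Al w) * lossC P Z Zb F Y V w) ≤ P.E (fun w => ind (Al w) * sgK P Z Zb F eta K om rel bit w) +
      ∑ k, 2 * (Lam + Real.log (1 / eta)) * (P.Pr (fun w => Al w ∧ bit k w) * Real.sqrt (B k)) +
      P.E (fun w => ind (Al w) * ∑ f ∈ let_ F, (∏ i, P.pv (fun u => (Y i u, Zb i u)) (F i) w (f i)) *
        ((1 - kpi P (fun u => (V u, Z u)) F rel T bit w f) * (G0W P Z Zb F eta om w f - 1))) := by
  have fal : Fac (fun u => (V u, Z u)) (fun w => ind (Al w)) := hal.comp (fun q => ind q)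
  have hn : ∀ w, ind (Al w) ≠ 0 → Al w := fun w h => by
    by_contra h2
    exact h (ind_not h2)
  have k1 := lossW_rel P F hZ hV (eta := eta) (al := fun w => ind (Al w)) fal (fun w => ind_nonneg _)
    (om := om) (pi := kpi P (fun u => (V u, Z u)) F rel T (fun k w => Al w ∧ bit k w)) hR
    (fun f => kpi_fac P F hr f) (kpi_nonneg P F) (kpi_le_one P F hd)
  have k2 := rgW_price P F (rel := rel) (T := T) (bit := fun k w => Al w ∧ bit k w) hZ heta heta1
    (al := fun w => ind (Al w)) fal (fun w => ind_nonneg _) (fun w => ind_le_one _) hR o0 o1 hr hK hKL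
    (fun w hw ha => hpsi w hw (hn w ha)) hB
  have e1 : P.E (fun w => ind (Al w) * sgK P Z Zb F eta K om rel (fun k w => Al w ∧ bit k w) w) =
      P.E (fun w => ind (Al w) * sgK P Z Zb F eta K om rel bit w) := by
    refine P.E_congr fun w _ => ?_
    by_cases h : Al w
    · have : ∀ k, (Al w ∧ bit k w) = bit k w := fun k => propext ⟨fun h2 => h2.2, fun h2 => ⟨h, h2⟩⟩
      simp only [sgK, this]
    · rw [ind_not h, zero_mul, zero_mul]
  have e2 : P.E (fun w => ind (Al w) * ∑ f ∈ let_ F, (∏ i, P.pv (fun u => (Y i u, Zb i u)) (F i) w (f i)) *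
        ((1 - kpi P (fun u => (V u, Z u)) F rel T (fun k w => Al w ∧ bit k w) w f) * (G0W P Z Zb F eta om w f - 1))) =
      P.E (fun w => ind (Al w) * ∑ f ∈ let_ F, (∏ i, P.pv (fun u => (Y i u, Zb i u)) (F i) w (f i)) *
        ((1 - kpi P (fun u => (V u, Z u)) F rel T bit w f) * (G0W P Z Zb F eta om w f - 1))) := by
    refine P.E_congr fun w _ => ?_
    by_cases h : Al w
    · congr 1
      refine Finset.sum_congr rfl fun f _ => ?_
      congr 3
      unfold kpi
      refine Finset.sum_congr rfl fun k _ => ?_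
      congr 1
      unfold rpi
      congr 1
      refine P.E_congr fun u _ => ?_
      by_cases h2 : (V u, Z u) = (V w, Z w) ∧ ∀ i ∈ T k, F i u = f i
      · have h3 : Al u := by
          have : Al u = Al w := hal u w h2.1
          rw [this]; exact h
        have : (Al u ∧ bit k u) = bit k u := propext ⟨fun h4 => h4.2, fun h4 => ⟨h3, h4⟩⟩
        simp only [this]
      · rw [ind_not h2, zero_mul, zero_mul]
    · rw [ind_not h, zero_mul, zero_mul]
  rw [e1] at k2
  rw [e2] at k1
  linarith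

/-! ### the cut density -/

theorem dens_nn (w : Om) (f : I → φ) : 0 ≤ P.pv Z (tup F) w f / ∏ i, P.pv (Zb i) (F i) w (f i) :=
  div_nonneg (P.pv_nonneg _ _ _ _) (Finset.prod_nonneg fun i _ => P.pv_nonneg _ _ _ _)

theorem G0W_nn (eta : ℝ) (om : Om → (I → φ) → ℝ) (w : Om) (f : I → φ) : 0 ≤ G0W P Z Zb F eta om w f :=
  mul_nonneg (dens_nn P F w f) (Real.exp_pos _).le

/-- no cut -/
theorem G0W_zero {eta : ℝ} {om : Om → (I → φ) → ℝ} {w : Om} {f : I → φ} (h : om w f = 0) :
    G0W P Z Zb F eta om w f = P.pv Z (tup F) w f / ∏ i, P.pv (Zb i) (F i) w (f i) := by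
  unfold G0W
  rw [h, zero_mul, neg_zero, Real.exp_zero, mul_one]

/-- at most the density -/
theorem G0W_dens {eta : ℝ} (heta : 0 < eta) (heta1 : eta ≤ 1) {om : Om → (I → φ) → ℝ} {w : Om} {f : I → φ}
    (h : 0 ≤ om w f) : G0W P Z Zb F eta om w f ≤ P.pv Z (tup F) w f / ∏ i, P.pv (Zb i) (F i) w (f i) := by
  have hl0 : 0 ≤ Real.log (1 / eta) := Real.log_nonneg (by rw [le_div_iff₀ heta, one_mul]; exact heta1)
  unfold G0W
  refine mul_le_of_le_one_right (dens_nn P F w f) ?_
  rw [Real.exp_le_one_iff, neg_nonpos]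
  exact mul_nonneg h (add_nonneg (le_max_right _ _) hl0)

/-- full cut -/
theorem G0W_one {eta : ℝ} (heta : 0 < eta) {om : Om → (I → φ) → ℝ} {w : Om} {f : I → φ} (h : om w f = 1) :
    G0W P Z Zb F eta om w f ≤ eta := by
  have e : G0W P Z Zb F eta om w f = G0C P Z Zb F eta (fun _ _ => True) w f := by
    unfold G0W G0C
    rw [h, one_mul, if_pos trivial]
  rw [e]
  exact G0C_on P F heta trivial

/-- **THE PARTIAL CUT** : `G0W ≤ (1 - om) * density + om * eta` -/
theorem G0W_le {eta : ℝ} (heta : 0 < eta) (heta1 : eta ≤ 1) {om : Om → (I → φ) → ℝ} {w : Om} {f : I → φ}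
    (h0 : 0 ≤ om w f) (h1 : om w f ≤ 1) :
    G0W P Z Zb F eta om w f ≤ (1 - om w f) * (P.pv Z (tup F) w f / ∏ i, P.pv (Zb i) (F i) w (f i)) +
      om w f * eta := by
  set c := max (psC P Z Zb F w f) 0 + Real.log (1 / eta) with hc
  have hcv : Real.exp (-(om w f * c)) ≤ (1 - om w f) + om w f * Real.exp (-c) := by
    have h2 := rpow_le_lin (Real.exp_pos (-c)).le h0 h1
    rw [← Real.exp_mul] at h2
    have e : -c * om w f = -(om w f * c) := by ring
    rw [e] at h2
    linarith
  have hd := dens_nn P F (Z := Z) (Zb := Zb) w f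
  have h3 : (P.pv Z (tup F) w f / ∏ i, P.pv (Zb i) (F i) w (f i)) * Real.exp (-c) ≤ eta := by
    have := G0W_one P F (Z := Z) (Zb := Zb) heta (om := fun _ _ => 1) (w := w) (f := f) rfl
    unfold G0W at this
    rwa [one_mul] at this
  have h4 := mul_le_mul_of_nonneg_left hcv hd
  have h5 := mul_le_mul_of_nonneg_left h3 h0
  unfold G0W
  rw [← hc]
  nlinarith

/-- one tuple: the exponent of the correction -/
theorem dens_expW_le {w : Om} {eta : ℝ} (om : Om → (I → φ) → ℝ) {pi : Om → (I → φ) → ℝ} {f : I → φ}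
    (p0 : 0 ≤ pi w f) (p1 : pi w f ≤ 1) :
    (P.pv Z (tup F) w f / ∏ i, P.pv (Zb i) (F i) w (f i)) * Real.exp (-rgW P Z Zb F eta om pi w f) ≤
      1 + (1 - pi w f) * (G0W P Z Zb F eta om w f - 1) := by
  have hn := dens_nn P F (Z := Z) (Zb := Zb) w f
  rcases hn.eq_or_lt with h0 | h0
  · have h1 : G0W P Z Zb F eta om w f = 0 := by
      unfold G0W
      rw [← h0, zero_mul]
    rw [h1, ← h0, zero_mul]
    linarith
  · have e1 : P.pv Z (tup F) w f / ∏ i, P.pv (Zb i) (F i) w (f i) = Real.exp (psC P Z Zb F w f) := by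
      unfold psC
      rw [Real.exp_log h0]
    have h2 := rpow_le_lin (G0W_nn P F eta om w f (Z := Z) (Zb := Zb)) (show 0 ≤ 1 - pi w f by linarith)
      (by linarith)
    refine le_trans (le_of_eq ?_) h2
    have e2 : G0W P Z Zb F eta om w f = Real.exp (psC P Z Zb F w f - om w f * (max (psC P Z Zb F w f) 0 +
        Real.log (1 / eta))) := by
      unfold G0W
      rw [e1, ← Real.exp_add]
      rfl
    rw [e1, e2, ← Real.exp_mul, ← Real.exp_add]
    congr 1
    unfold rgW
    ring

end relk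

end

end Pool.Agent.GMH
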