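import Pool.Agent.GMH.TopPsi
import Pool.Agent.GMH.RelK

/-!
# GMH/TopKin: Lemma S with kinds in deviation form, and the data of the top level on the run (helper11)

For every step `(s, t)` of `GMH/TopStep`: `κ` kinds, `rel s t k w f` disjoint relations between the thin labels and the tuple
`f` of tops, `bit s t k` events of the run, `om s t w f` the weight of the partial cut, `A s t` the alive set.
* `kce` : the released weight, `∑_k 1[rel k w f] P(bit k | thin labels before and after the step)`;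
* `lossC_dev` : Lemma S with kinds, the price of a bit in deviation form (note H3.REL);
* `DyS` : the dynamic term of the step, `NoS` : the normalisation of the step; `KinOK` : what the kinds have to satisfy;
* `step_le` : one step of the run.
-/

set_option autoImplicit false
set_option linter.unusedSectionVars false

namespace Pool.Agent.GMH.TP

open Finset Pool.Agent.PWZ Pool.Agent.M3 Pool.Agent.GM Pool.Agent.GM.Harm Pool.Agent.GMH Pool.Agent.GMH.NZ
open Pool.Agent.GMH.V3

noncomputable section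

/-! ### Lemma S with kinds, deviation form -/

section gen

variable {Om : Type*} [Fintype Om] (P : FP Om) {I α β' γ' φ' ν κ : Type*} [Fintype I] [DecidableEq I] [Fintype κ]
  {Z : Om → β'} {Zb : I → Om → α} (F : I → Om → φ') {Y : I → Om → γ'} {V : Om → ν}

/-- the released weight of the kinds; the bits are conditioned on the thin labels only -/
def kce (P : FP Om) (N' : Om → ν) (rel : κ → Om → (I → φ') → Prop) (bit : κ → Om → Prop) (w : Om) (f : I → φ') : ℝ :=
  ∑ k, ind (rel k w f) * P.ce N' (fun u => ind (bit k u)) w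

variable {N' : Om → ν} {rel : κ → Om → (I → φ') → Prop} {bit : κ → Om → Prop}

theorem kce_nonneg (w : Om) (f : I → φ') : 0 ≤ kce P N' rel bit w f :=
  Finset.sum_nonneg fun _ _ => mul_nonneg (ind_nonneg _) (P.ce_nonneg (fun _ _ => ind_nonneg _) w)

/-- the weight `kpi` without labels -/
theorem kpi_none (w : Om) (f : I → φ') : kpi P N' F rel (fun _ => ∅) bit w f = kce P N' rel bit w f := by
  unfold kpi kce
  refine Finset.sum_congr rfl fun k _ => ?_
  congr 1
  unfold rpi FP.ce FP.m FP.Pr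
  have h : ∀ u, (N' u = N' w ∧ ∀ i ∈ (∅ : Finset I), F i u = f i) = (N' u = N' w) := by
    intro u
    refine propext ⟨fun h => h.1, fun h => ⟨h, fun i hi => absurd hi (Finset.notMem_empty i)⟩⟩
  simp only [h]

/-- **PRICE OF ONE KIND, deviation form** -/
theorem kind_dev (hZ : ∀ i, Fac Z (Zb i)) {eta : ℝ} (heta : 0 < eta) (heta1 : eta ≤ 1) {Al : Om → Prop}
    (hal : Fac (fun u => (V u, Z u)) Al) {om : Om → (I → φ') → ℝ}
    (hR : ∀ f, Fac (fun u => (V u, Z u)) (fun w => om w f)) (o0 : ∀ w f, 0 ≤ om w f) (o1 : ∀ w f, om w f ≤ 1)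
    {rl : Om → (I → φ') → Prop} (hr : ∀ f, Fac (fun u => (V u, Z u)) (fun w => rl w f)) (xi : Om → Prop)
    {K L dv : ℝ} (hK : 0 ≤ K) (hKL : K ≤ L)
    (hpsi : ∀ w, P.p w ≠ 0 → Al w → psC P Z Zb F w (tup F w) ≤ L) (hL1 : 0 < L + Real.log (1 / eta))
    (hdv : ∀ g : Om → ℝ, Fac (fun w => (tup F w, (V w, Z w))) g → (∀ w, |g w| ≤ 1) →
      |P.E (fun w => ind (Al w ∧ xi w) * (g w - P.ce (fun u => (V u, Z u)) g w))| ≤ dv) :
    P.E (fun w => ind (Al w) * (ind (rl w (tup F w)) * P.ce (fun u => (V u, Z u)) (fun v => ind (xi v)) w *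
        (max (psC P Z Zb F w (tup F w)) (-K) -
          om w (tup F w) * (max (psC P Z Zb F w (tup F w)) 0 + Real.log (1 / eta))))) ≤
      P.E (fun w => ind (Al w) * (ind (rl w (tup F w)) * ind (xi w) *
        (max (psC P Z Zb F w (tup F w)) (-K) -
          om w (tup F w) * (max (psC P Z Zb F w (tup F w)) 0 + Real.log (1 / eta))))) +
        (L + Real.log (1 / eta)) * dv := by
  classical
  set l : ℝ := Real.log (1 / eta) with hl
  have hl0 : 0 ≤ l := Real.log_nonneg (by rw [le_div_iff₀ heta, one_mul]; exact heta1)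
  set W : Om → ν × β' := fun w => (V w, Z w) with hW
  set d : Om → ℝ := fun w => max (psC P Z Zb F w (tup F w)) (-K) -
    om w (tup F w) * (max (psC P Z Zb F w (tup F w)) 0 + l) with hd
  set u : Om → ℝ := fun w => ind (Al w) * (ind (rl w (tup F w)) * d w) with hu
  set g : Om → ℝ := fun w => max (-1) (min (u w / (L + l)) 1) with hg
  have fu : Fac (fun w => (tup F w, W w)) u := by
    intro a b hab
    have hab' : tup F a = tup F b ∧ (V a = V b ∧ Z a = Z b) := by
      simpa only [hW, Prod.mk.injEq] using hab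
    obtain ⟨g1, g2, g3⟩ := hab'
    have g4 : (fun u => (V u, Z u)) a = (fun u => (V u, Z u)) b := by simp only [Prod.mk.injEq]; exact ⟨g2, g3⟩
    have e1 : Al a = Al b := hal a b g4
    have e2 : psC P Z Zb F a (tup F a) = psC P Z Zb F b (tup F b) := by
      rw [g1]
      exact psC_fac P F hZ (tup F b) a b g3
    have e3 : om a (tup F a) = om b (tup F b) := by
      rw [g1]
      exact hR (tup F b) a b g4
    have e4 : rl a (tup F a) = rl b (tup F b) := by
      rw [g1]
      exact hr (tup F b) a b g4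
    simp only [hu, hd, e1, e2, e3, e4]
  have fg : Fac (fun w => (tup F w, W w)) g := fu.comp (fun x => max (-1) (min (x / (L + l)) 1))
  have bg : ∀ w, |g w| ≤ 1 := fun w => by
    rw [abs_le]
    exact ⟨le_max_left _ _, max_le (by norm_num) (min_le_right _ _)⟩
  -- on the support nothing is cut
  have eg : ∀ w, P.p w ≠ 0 → (L + l) * g w = u w := by
    intro w hw
    have hb : |u w| ≤ L + l := by
      simp only [hu]
      by_cases hA : Al w
      · rw [ind_of hA, one_mul, abs_mul, abs_of_nonneg (ind_nonneg _)]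
        have h3 : |d w| ≤ L + l := by
          have h2 := hpsi w hw hA
          have q0 := o0 w (tup F w)
          have q1 := o1 w (tup F w)
          simp only [hd]
          rw [abs_le]
          rcases le_total (psC P Z Zb F w (tup F w)) 0 with h3 | h3
          · rw [max_eq_right h3]
            have h4 := le_max_right (psC P Z Zb F w (tup F w)) (-K)
            have h5 : max (psC P Z Zb F w (tup F w)) (-K) ≤ 0 := max_le h3 (by linarith)
            constructor <;> nlinarith
          · rw [max_eq_left h3, max_eq_left (by linarith : -K ≤ psC P Z Zb F w (tup F w))]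
            constructor <;> nlinarith
        exact (mul_le_of_le_one_left (abs_nonneg _) (ind_le_one _)).trans h3
      · rw [ind_not hA, zero_mul, abs_zero]
        exact hL1.le
    obtain ⟨b1, b2⟩ := abs_le.1 hb
    have c1 : u w / (L + l) ≤ 1 := (div_le_one hL1).2 b2
    have c2 : -1 ≤ u w / (L + l) := by rw [le_div_iff₀ hL1]; linarith
    simp only [hg]
    rw [min_eq_left c1, max_eq_right c2]
    field_simp
  have k1 := (abs_le.1 (hdv g fg bg)).1
  -- the alive set is seen by `W`
  have hce : ∀ w, P.p w ≠ 0 → ind (Al w) * P.ce W g w = P.ce W g w := by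
    intro w hw
    have h1 := P.ce_mul (X := W) (h := fun w => ind (Al w)) (hal.comp fun q => ind q) g w
    have h2 : P.ce W (fun v => ind (Al v) * g v) w = P.ce W g w := by
      refine P.ce_congr (fun v hv => ?_) w
      have h3 := eg v hv
      by_cases hA : Al v
      · rw [ind_of hA, one_mul]
      · have h4 : u v = 0 := by simp only [hu]; rw [ind_not hA, zero_mul]
        rw [h4] at h3
        have h5 : g v = 0 := by
          rcases mul_eq_zero.1 h3 with h6 | h6
          · exact absurd h6 hL1.ne'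
          · exact h6
        rw [h5, mul_zero]
    rw [← h1, h2]
  have k2 : P.E (fun w => ind (Al w ∧ xi w) * (g w - P.ce W g w)) =
      P.E (fun w => ind (xi w) * g w) - P.E (fun w => P.ce W (fun v => ind (xi v)) w * g w) := by
    have s1 : P.E (fun w => P.ce W (fun v => ind (xi v)) w * g w) = P.E (fun w => ind (xi w) * P.ce W g w) := by
      rw [P.E_mul_ce_symm W g (fun w => ind (xi w))]
    rw [s1, ← P.E_sub]
    refine P.E_congr fun w hw => ?_
    by_cases hA : Al w
    · by_cases hx : xi w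
      · rw [ind_of (⟨hA, hx⟩ : Al w ∧ xi w), ind_of hx]
        ring
      · rw [ind_not (fun h => hx h.2 : ¬ (Al w ∧ xi w)), ind_not hx]
        ring
    · have h3 := eg w hw
      have h4 : u w = 0 := by simp only [hu]; rw [ind_not hA, zero_mul]
      rw [h4] at h3
      have h5 : g w = 0 := by
        rcases mul_eq_zero.1 h3 with h6 | h6
        · exact absurd h6 hL1.ne'
        · exact h6
      have h6 := hce w hw
      rw [ind_not hA, zero_mul] at h6
      rw [h5, ← h6]
      ring
  have k3 : P.E (fun w => ind (Al w) * (ind (rl w (tup F w)) * P.ce W (fun v => ind (xi v)) w * d w)) =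
      (L + l) * P.E (fun w => P.ce W (fun v => ind (xi v)) w * g w) := by
    rw [← P.E_smul]
    refine P.E_congr fun w hw => ?_
    have h3 := eg w hw
    simp only [hu] at h3
    have : (L + l) * (P.ce W (fun v => ind (xi v)) w * g w) = P.ce W (fun v => ind (xi v)) w * ((L + l) * g w) := by ring
    rw [this, h3]
    ring
  have k4 : P.E (fun w => ind (Al w) * (ind (rl w (tup F w)) * ind (xi w) * d w)) =
      (L + l) * P.E (fun w => ind (xi w) * g w) := by
    rw [← P.E_smul]
    refine P.E_congr fun w hw => ?_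
    have h3 := eg w hw
    simp only [hu] at h3
    have : (L + l) * (ind (xi w) * g w) = ind (xi w) * ((L + l) * g w) := by ring
    rw [this, h3]
    ring
  have k5 : P.E (fun w => ind (Al w ∧ xi w) * (g w - P.ce (fun u => (V u, Z u)) g w)) =
      P.E (fun w => ind (xi w) * g w) - P.E (fun w => P.ce W (fun v => ind (xi v)) w * g w) := k2
  rw [k5] at k1
  rw [k3, k4]
  have k6 := mul_le_mul_of_nonneg_left k1 hL1.le
  linarith

/-- **LEMMA S WITH KINDS, DEVIATION FORM** -/
theorem lossC_dev (hZ : ∀ i, Fac Z (Zb i)) (hV : ∀ i, Fac (fun u => (V u, Z u)) (Y i)) {eta : ℝ} (heta : 0 < eta)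
    (heta1 : eta ≤ 1) {Al : Om → Prop} (hal : Fac (fun u => (V u, Z u)) Al) {om : Om → (I → φ') → ℝ}
    (hR : ∀ f, Fac (fun u => (V u, Z u)) (fun w => om w f)) (o0 : ∀ w f, 0 ≤ om w f) (o1 : ∀ w f, om w f ≤ 1)
    (hr : ∀ k f, Fac (fun u => (V u, Z u)) (fun w => rel k w f))
    (hd : ∀ w f k k', rel k w f → rel k' w f → k = k')
    {K L : ℝ} {dv : κ → ℝ} (hK : 0 ≤ K) (hKL : K ≤ L)
    (hpsi : ∀ w, P.p w ≠ 0 → Al w → psC P Z Zb F w (tup F w) ≤ L) (hL1 : 0 < L + Real.log (1 / eta))
    (hdv : ∀ k, ∀ g : Om → ℝ, Fac (fun w => (tup F w, (V w, Z w))) g → (∀ w, |g w| ≤ 1) →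
      |P.E (fun w => ind (Al w ∧ bit k w) * (g w - P.ce (fun u => (V u, Z u)) g w))| ≤ dv k) :
    P.E (fun w => ind (Al w) * lossC P Z Zb F Y V w) ≤ P.E (fun w => ind (Al w) * sgK P Z Zb F eta K om rel bit w) +
      ∑ k, (L + Real.log (1 / eta)) * dv k +
      P.E (fun w => ind (Al w) * ∑ f ∈ let_ F, (∏ i, P.pv (fun u => (Y i u, Zb i u)) (F i) w (f i)) *
        ((1 - kce P (fun u => (V u, Z u)) rel bit w f) * (G0W P Z Zb F eta om w f - 1))) := by
  classical
  have fal : Fac (fun u => (V u, Z u)) (fun w => ind (Al w)) := hal.comp (fun q => ind q)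
  have k1 := lossW_rel P F hZ hV (eta := eta) (al := fun w => ind (Al w)) fal (fun w => ind_nonneg _)
    (om := om) (pi := kpi P (fun u => (V u, Z u)) F rel (fun _ => ∅) bit) hR
    (fun f => kpi_fac P F hr f) (kpi_nonneg P F) (kpi_le_one P F hd)
  have ek : kpi P (fun u => (V u, Z u)) F rel (fun _ => ∅) bit = kce P (fun u => (V u, Z u)) rel bit := by
    funext w f
    exact kpi_none P F w f
  rw [ek] at k1
  set l : ℝ := Real.log (1 / eta) with hl
  set u1 : Om → ℝ := fun w => max (psC P Z Zb F w (tup F w)) (-K) with hu1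
  set u2 : Om → ℝ := fun w => om w (tup F w) * (max (psC P Z Zb F w (tup F w)) 0 + l) with hu2
  set c : κ → Om → ℝ := fun k w => P.ce (fun u => (V u, Z u)) (fun v => ind (bit k v)) w with hc
  have k2 : P.E (fun w => ind (Al w) * rgW P Z Zb F eta om
      (kce P (fun u => (V u, Z u)) rel bit) w (tup F w)) ≤
      P.E (fun w => ind (Al w) * u2 w + ∑ k, ind (Al w) * (ind (rel k w (tup F w)) * c k w * (u1 w - u2 w))) := by
    refine P.E_mono fun w hw => ?_
    have e : ind (Al w) * u2 w + ∑ k, ind (Al w) * (ind (rel k w (tup F w)) * c k w * (u1 w - u2 w)) =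
        ind (Al w) * (kce P (fun u => (V u, Z u)) rel bit w (tup F w) * u1 w +
          (1 - kce P (fun u => (V u, Z u)) rel bit w (tup F w)) * u2 w) := by
      unfold kce
      rw [← Finset.mul_sum, ← Finset.sum_mul]
      ring
    rw [e]
    refine mul_le_mul_of_nonneg_left ?_ (ind_nonneg _)
    unfold rgW
    have := mul_le_mul_of_nonneg_left (le_max_left (psC P Z Zb F w (tup F w)) (-K))
      (kce_nonneg P (N' := fun u => (V u, Z u)) (rel := rel) (bit := bit) w (tup F w))
    simp only [hu1, hu2]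
    linarith
  have k3 : ∀ k, P.E (fun w => ind (Al w) * (ind (rel k w (tup F w)) * c k w * (u1 w - u2 w))) ≤
      P.E (fun w => ind (Al w) * (ind (rel k w (tup F w)) * ind (bit k w) * (u1 w - u2 w))) + (L + l) * dv k := fun k =>
    kind_dev P F hZ heta heta1 hal hR o0 o1 (hr k) (bit k) hK hKL hpsi hL1 (hdv k)
  have k4 : P.E (fun w => ind (Al w) * sgK P Z Zb F eta K om rel bit w) =
      P.E (fun w => ind (Al w) * u2 w) +
        ∑ k, P.E (fun w => ind (Al w) * (ind (rel k w (tup F w)) * ind (bit k w) * (u1 w - u2 w))) := by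
    rw [← FP.E_sum, ← P.E_add]
    refine P.E_congr fun w _ => ?_
    rw [← Finset.mul_sum, ← Finset.sum_mul]
    simp only [sgK, hu1, hu2]
    ring
  rw [P.E_add, FP.E_sum] at k2
  rw [k4]
  have k5 := Finset.sum_le_sum fun k (_ : k ∈ (Finset.univ : Finset κ)) => k3 k
  rw [Finset.sum_add_distrib] at k5
  linarith

end gen

/-! ### the data on the run -/

section hd

variable {X β γ φ υ : Type} [Fintype X] [Fintype β] [Fintype φ] [Nonempty X] [Nonempty β]
variable {D : HD (Fin 3) X β γ φ} {al : ℝ} (h : D.Thick al) (v : ℕ → Finset (Fin 3) → X → (Fin 3 → β) → υ)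
variable (A : Fin 6 → ℕ → Pt (Fin 3) X β φ → Prop) {κ : Type} [Fintype κ]
  (rel : Fin 6 → ℕ → κ → Pt (Fin 3) X β φ → (Fin 3 → (List υ × (Fin 3 → Option φ))) → Prop)
  (bit : Fin 6 → ℕ → κ → Pt (Fin 3) X β φ → Prop)
  (om : Fin 6 → ℕ → Pt (Fin 3) X β φ → (Fin 3 → (List υ × (Fin 3 → Option φ))) → ℝ)

/-- all thin labels before and after the step -/
def VZ (D : HD (Fin 3) X β γ φ) (v : ℕ → Finset (Fin 3) → X → (Fin 3 → β) → υ) (s : Fin 6) (t : ℕ)
    (w : Pt (Fin 3) X β φ) := (ZQ D v (qe s t) w, ZQ D v (qs s t) w)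

/-- the dynamic term of the step: released tuples signed, the partial cut of the others -/
def DyS (eta K : ℝ) (s : Fin 6) (t : ℕ) : ℝ :=
  (D.P h t).E (fun w => ind (A s t w) *
    sgK (D.P h t) (ZQ D v (qs s t)) (ZbQ D v (qs s t)) (FQ v t) eta K (om s t) (rel s t) (bit s t) w)

/-- the normalisation of the step -/
def NoS (eta : ℝ) (s : Fin 6) (t : ℕ) : ℝ :=
  (D.P h t).E (fun w => ind (A s t w) * ∑ f ∈ let_ (FQ v t),
    (∏ i, (D.P h t).pv (fun u => (ZbQ D v (qe s t) i u, ZbQ D v (qs s t) i u)) (FQ v t i) w (f i)) *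
      ((1 - kce (D.P h t) (VZ D v s t) (rel s t) (bit s t) w f) *
        (G0W (D.P h t) (ZQ D v (qs s t)) (ZbQ D v (qs s t)) (FQ v t) eta (om s t) w f - 1)))

/-- conditions on the kinds -/
structure KinOK (Dv : Fin 6 → ℕ → κ → ℝ) (T : ℕ) : Prop where
  relf : ∀ s t k f, Fac (VZ (φ := φ) D v s t) (fun w => rel s t k w f)
  dis : ∀ s t w f k k', rel s t k w f → rel s t k' w f → k = k'
  omf : ∀ s t f, Fac (VZ (φ := φ) D v s t) (fun w => om s t w f)
  om0 : ∀ s t w f, 0 ≤ om s t w f
  om1 : ∀ s t w f, om s t w f ≤ 1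
  /-- deviation of the bits from their conditional means, tested by the tuple and the thin labels -/
  dev : ∀ t < T, ∀ s k, ∀ g : Pt (Fin 3) X β φ → ℝ, Fac (fun w => (tup (FQ v t) w, VZ D v s t w)) g →
    (∀ w, |g w| ≤ 1) → |(D.P h t).E (fun w => ind (A s t w ∧ bit s t k w) *
      (g w - (D.P h t).ce (VZ D v s t) g w))| ≤ Dv s t k

omit [Fintype X] [Fintype β] [Fintype φ] [Nonempty X] [Nonempty β] [Fintype κ] in
theorem pr3_pos {n N1 : ℝ} (hn : 1 ≤ n) (hN1 : 1 ≤ N1) (l : Fin 3) : 0 < pr3 (Fin 3) n N1 (univ.erase l) :=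
  zero_lt_one.trans_le (pr3_one hn hN1 _)

end hd

section run

variable {X β γ φ : Type} [Fintype X] [Fintype β] [Fintype φ] [Nonempty X] [Nonempty β]
variable {D : HD (Fin 3) X β γ φ} {al : ℝ} {h : D.Thick al} {v : ℕ → Finset (Fin 3) → X → (Fin 3 → β) → Pt (Fin 3) X β φ}
variable {dg : ℕ → X → ℝ} {prr : ℕ → Fin 3 → φ → φ} {T : ℕ} {Lam : ℝ}
variable {A : Fin 6 → ℕ → Pt (Fin 3) X β φ → Prop} {κ : Type} [Fintype κ]
  {rel : Fin 6 → ℕ → κ → Pt (Fin 3) X β φ → (Fin 3 → (List (Pt (Fin 3) X β φ) × (Fin 3 → Option φ))) → Prop}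
  {bit : Fin 6 → ℕ → κ → Pt (Fin 3) X β φ → Prop}
  {om : Fin 6 → ℕ → Pt (Fin 3) X β φ → (Fin 3 → (List (Pt (Fin 3) X β φ) × (Fin 3 → Option φ))) → ℝ}
  {Dv : Fin 6 → ℕ → κ → ℝ}

/-- **ONE STEP OF THE RUN** -/
theorem step_le (H : D.Hyp dg prr al T Lam) {N : Finset (Fin 3) → ℝ} (R : Run h N (SS1 (Fin 3)) (AdmDep D) v)
    (hN : ∀ l : Fin 3, 0 < N (univ.erase l)) {eta K : ℝ} (heta : 0 < eta) (heta1 : eta ≤ 1) (hK : 0 ≤ K)
    (hKL : K ≤ 3 * Lam) (ok : KinOK h v A rel bit om Dv T) (s : Fin 6) {t : ℕ} (ht : t < T)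
    (fA : Fac (VZ (φ := φ) D v s t) (A s t)) :
    (D.P h t).E (fun w => ind (A s t w) * lossS h v s t w) ≤
      DyS h v A rel bit om eta K s t + ∑ k, (3 * Lam + Real.log (1 / eta)) * Dv s t k +
        NoS h v A rel bit om eta s t := by
  have hq : 5 * t ≤ qs s t := by fin_cases s <;> simp [qs] <;> omega
  have hl0 : 0 ≤ Real.log (1 / eta) := Real.log_nonneg (by rw [le_div_iff₀ heta, one_mul]; exact heta1)
  exact lossC_dev (D.P h t) (FQ v t) (Z := ZQ D v (qs s t)) (Zb := ZbQ D v (qs s t)) (Y := ZbQ D v (qe s t))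
    (V := ZQ D v (qe s t)) (fun i => ZQ_Zb _ i) (fun i a b hab => ZQ_Zb _ i a b (by simp only [Prod.mk.injEq] at hab; exact hab.1))
    heta heta1 fA (fun f => ok.omf s t f) (ok.om0 s t) (ok.om1 s t) (fun k f => ok.relf s t k f) (ok.dis s t) hK hKL
    (fun w hw _ => psi_le H R hN ht.le hq hw) (by linarith [H.Lam1]) (fun k g hg hb => ok.dev t ht s k g hg hb)

end run

end

end Pool.Agent.GMH.TP
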