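import Pool.Agent.GMH.TriA
import Pool.Agent.GMH.TopKin
import Pool.Agent.GMH.BitKL

/-!
# GMH.TriS: deviation of the bits of one vertex, from the law of the time `t` to the saturated state of the time `t + 1`
(helper80; H3.REL R.5)

* `fac_supp` : a function which is a function of `X` on the support only;
* `FQ_det` : the tops of the time `t` are functions of the labels of the time `t + 1` and the final thin labels;
* `dev_push` : the deviation at the law of the time `t` is a deviation at the law of the time `t + 1` of a test function of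
  the plain labels and the final thin labels;
* `Cb` : the classes (public letter, node, point and own letter of `b`); `VZ_Cb` : seen after the step.
-/

set_option autoImplicit false
set_option linter.unusedSectionVars false

namespace Pool.Agent.GMH.TP

open Finset Pool.Agent.PWZ Pool.Agent.M3 Pool.Agent.GM Pool.Agent.GM.Harm Pool.Agent.GMH Pool.Agent.GMH.NZ
open Pool.Agent.GMH.V3

noncomputable section

namespace TriS

theorem fac_supp {Om κ : Type*} [Fintype Om] (P : FP Om) {X : Om → κ} {g : Om → ℝ}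
    (h : ∀ v w, P.p v ≠ 0 → P.p w ≠ 0 → X v = X w → g v = g w) (hb : ∀ w, |g w| ≤ 1) :
    ∃ g' : Om → ℝ, Fac X g' ∧ (∀ w, |g' w| ≤ 1) ∧ ∀ w, P.p w ≠ 0 → g' w = g w := by
  classical
  set G : κ → ℝ := fun x => if hx : ∃ u, P.p u ≠ 0 ∧ X u = x then g hx.choose else 0 with hG
  refine ⟨fun w => G (X w), fun v w hvw => ?_, fun w => ?_, fun w hw => ?_⟩
  · show G (X v) = G (X w)
    rw [hvw]
  · show |G (X w)| ≤ 1
    simp only [hG]
    split_ifs with hx
    · exact hb _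
    · rw [abs_zero]; exact zero_le_one
  · show G (X w) = g w
    have hx : ∃ u, P.p u ≠ 0 ∧ X u = X w := ⟨w, hw, rfl⟩
    simp only [hG]
    rw [dif_pos hx]
    exact h _ _ hx.choose_spec.1 hw hx.choose_spec.2

section run

variable {X β γ φ : Type} [Fintype X] [Fintype β] [Fintype φ] [Nonempty X] [Nonempty β]
variable {D : HD (Fin 3) X β γ φ} {al : ℝ} {h : D.Thick al} {v : ℕ → Finset (Fin 3) → X → (Fin 3 → β) → Pt (Fin 3) X β φ}
variable {dg : ℕ → X → ℝ} {prr : ℕ → Fin 3 → φ → φ} {T : ℕ} {Lam : ℝ}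

/-- thin labels do not see the labels of the faces -/
theorem SL_old {q : ℕ} {J : Finset (Fin 3)} (hJ : pth J) (t : ℕ) (w : Pt (Fin 3) X β φ) :
    SL (φ := φ) v q J (old prr t w) = SL v q J w := by
  unfold SL
  rw [LL_eq]
  refine ⟨rfl, fun l hl => ?_⟩
  exfalso
  have h3 : (univ.erase l : Finset (Fin 3)).card = 2 := by
    rw [Finset.card_erase_of_mem (mem_univ l)]
    rfl
  have hJ' : J.card ≤ 1 := hJ
  rw [← hl] at hJ'
  omega

theorem ZQ_old (q t : ℕ) (w : Pt (Fin 3) X β φ) : ZQ D v q (old prr t w) = ZQ D v q w := by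
  unfold ZQ
  refine Prod.ext (funext fun J => ?_) rfl
  exact SL_old J.2 t w

theorem VZ_old (s : Fin 6) (t : ℕ) (w : Pt (Fin 3) X β φ) : VZ D v s t (old prr t w) = VZ D v s t w := by
  unfold VZ
  rw [ZQ_old, ZQ_old]

theorem VZ_final (s : Fin 6) (t : ℕ) : Fac (ZQ (φ := φ) D v (5 * t + 5)) (VZ D v s t) := by
  intro a b hab
  have h1 : qe s t ≤ 5 * t + 5 := by fin_cases s <;> simp [qe]
  have h2 : qs s t ≤ 5 * t + 5 := (qs_le_qe s t).trans h1
  show (ZQ D v (qe s t) a, ZQ D v (qs s t) a) = (ZQ D v (qe s t) b, ZQ D v (qs s t) b)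
  rw [ZQ_mono h1 a b hab, ZQ_mono h2 a b hab]

/-- **the tops are determined** by the labels and the final thin labels -/
theorem FQ_det (H : D.Hyp dg prr al T Lam) {N : Finset (Fin 3) → ℝ} (R : Run h N (SS1 (Fin 3)) (AdmDep D) v)
    (hN : ∀ l : Fin 3, 0 < N (univ.erase l)) {t : ℕ} (ht : t < T) {a b : Pt (Fin 3) X β φ}
    (ha : (D.P h (t + 1)).p a ≠ 0) (hb : (D.P h (t + 1)).p b ≠ 0)
    (hZ : ZQ D v (5 * t + 5) a = ZQ D v (5 * t + 5) b) (hl : a.2.2 = b.2.2) :
    tup (FQ v t) (old prr t a) = tup (FQ v t) (old prr t b) := by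
  have ha' := old_supp H ht ha
  have hb' := old_supp H ht hb
  have hZ0 : ZQ D v (5 * t) a = ZQ D v (5 * t) b := ZQ_mono (by omega) a b hZ
  rw [ZQ_0] at hZ0
  have hW : WW (φ := φ) D t a = WW D t b := congrArg Prod.snd hZ0
  have hU : ∀ I, pth I → Um v (t + 1) I a.1 a.2.1 = Um v (t + 1) I b.1 b.2.1 := by
    intro I hI
    have h1 : LL (φ := φ) (Um v (t + 1)) I a = LL (Um v (t + 1)) I b := congrFun (congrArg Prod.fst hZ0) ⟨I, hI⟩
    exact (LL_eq.1 h1).1
  funext i
  show LL (Um v (t + 1)) (univ.erase i) (old prr t a) = LL (Um v (t + 1)) (univ.erase i) (old prr t b)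
  rw [LL_eq]
  refine ⟨?_, fun l hl' => ?_⟩
  · have hS : univ.erase i ∈ SS1 (Fin 3) := mem_SS1.2 (Finset.erase_ne_self.2 (mem_univ i))
    have hu : (univ : Finset (Fin 3)) ∉ SS1 (Fin 3) := fun hh => mem_SS1.1 hh rfl
    refine R.top_det H hS hu (hN i) t ht.le (old prr t a) (old prr t b) ha' hb' ?_ (fun I hI => ?_) ?_
    · exact WW_BB D t _ _ _ hW
    · exact hU I (lt_pth card3 (ne_univ i) hI)
    · show prr t i (a.2.2 i) = prr t i (b.2.2 i)
      rw [hl]
  · show prr t l (a.2.2 l) = prr t l (b.2.2 l)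
    rw [hl]

/-- **THE DEVIATION AT THE LAW OF THE NEXT TIME** -/
theorem dev_push (H : D.Hyp dg prr al T Lam) {N : Finset (Fin 3) → ℝ} (R : Run h N (SS1 (Fin 3)) (AdmDep D) v)
    (hN : ∀ l : Fin 3, 0 < N (univ.erase l)) {t : ℕ} (ht : t < T) (s : Fin 6) {A E : Pt (Fin 3) X β φ → Prop}
    (hA : Fac (VZ (φ := φ) D v s t) A) (hE : ∀ w, E (old prr t w) ↔ E w) {g : Pt (Fin 3) X β φ → ℝ}
    (hg : Fac (fun w => (tup (FQ v t) w, VZ D v s t w)) g) (hb : ∀ w, |g w| ≤ 1) :
    ∃ g' : Pt (Fin 3) X β φ → ℝ, Fac (fun w => (w.2.2, ZQ D v (5 * t + 5) w)) g' ∧ (∀ w, |g' w| ≤ 1) ∧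
      (D.P h t).E (fun w => ind (A w ∧ E w) * (g w - (D.P h t).ce (VZ D v s t) g w)) =
        (D.P h (t + 1)).E (fun w => ind (A w ∧ E w) * (g' w - (D.P h (t + 1)).ce (VZ D v s t) g' w)) := by
  classical
  obtain ⟨g', h1, h2, h3⟩ := fac_supp (D.P h (t + 1)) (X := fun w : Pt (Fin 3) X β φ => (w.2.2, ZQ D v (5 * t + 5) w))
    (g := fun w => g (old prr t w)) (fun a b ha hb' hab => by
      simp only [Prod.mk.injEq] at hab
      refine hg _ _ ?_
      simp only [Prod.mk.injEq]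
      exact ⟨FQ_det H R hN ht ha hb' hab.2 hab.1, by rw [VZ_old, VZ_old]; exact VZ_final s t a b hab.2⟩)
    (fun w => hb _)
  refine ⟨g', h1, h2, ?_⟩
  have hpr := H.kf_pr t ht
  rw [← push_E h hpr]
  refine (D.P h (t + 1)).E_congr fun w hw => ?_
  have e1 : (A (old prr t w) ∧ E (old prr t w)) = (A w ∧ E w) := by
    have : A (old prr t w) = A w := hA _ _ (VZ_old s t w)
    rw [this, propext (hE w)]
  have e2 : (D.P h t).ce (VZ D v s t) g (old prr t w) = (D.P h (t + 1)).ce (VZ D v s t) g' w := by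
    have c1 : (D.P h (t + 1)).ce (VZ D v s t) g' w = (D.P h (t + 1)).ce (VZ D v s t) (fun w => g (old prr t w)) w :=
      (D.P h (t + 1)).ce_congr h3 w
    rw [c1]
    unfold FP.ce FP.m
    rw [← push_E h hpr, ← push_E h hpr]
    congr 1
    · refine (D.P h (t + 1)).E_congr fun u _ => ?_
      rw [VZ_old, VZ_old]
    · refine (D.P h (t + 1)).E_congr fun u _ => ?_
      rw [VZ_old, VZ_old]
  rw [e1, e2, h3 w hw]

/-! ### the classes -/

/-- public letter, node, point and own letter of `b` -/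
def Cb (D : HD (Fin 3) X β γ φ) (U : Finset (Fin 3) → X → (Fin 3 → β) → List (Pt (Fin 3) X β φ)) (t : ℕ) (b : Fin 3)
    (w : Pt (Fin 3) X β φ) := ((le (LL U) ∅ w, BB D t ∅ w), w.2.1 b, U {b} w.1 w.2.1)

theorem Cb_clsb {U : Finset (Fin 3) → X → (Fin 3 → β) → List (Pt (Fin 3) X β φ)} {t : ℕ} {b : Fin 3}
    (w0 : Pt (Fin 3) X β φ) : (fun w => Cb D U t b w = Cb D U t b w0) = clsb U (pub0 D t U w0) b w0 := by
  funext w
  refine propext ?_
  show _ ↔ (pub0 D t U w0 w ∧ w.2.1 b = w0.2.1 b ∧ U {b} w.1 w.2.1 = U {b} w0.1 w0.2.1)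
  unfold pub0 Cb
  rw [Prod.mk.injEq (le (LL U) ∅ w, BB D t ∅ w), Prod.mk.injEq (w.2.1 b)]

/-- the class is seen after the step -/
theorem VZ_Cb {s : Fin 6} {t : ℕ} {b : Fin 3} (hs : 5 * t + 5 ≤ qe s t) :
    Fac (VZ (φ := φ) D v s t) (Cb D (Um v (t + 2)) (t + 1) b) := by
  intro p q hpq
  have h1 : ZQ D v (qe s t) p = ZQ D v (qe s t) q := congrArg Prod.fst hpq
  have h2 : ZQ D v (5 * t + 5) p = ZQ D v (5 * t + 5) q := ZQ_mono hs p q h1
  have hb := b.2
  have h3 : all (LP pth (SL (φ := φ) v (5 * t + 5))) p = all (LP pth (SL v (5 * t + 5))) q :=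
    congrArg Prod.fst h2
  have h4 : WW (φ := φ) D (nn (5 * t + 5)) p = WW D (nn (5 * t + 5)) q := congrArg Prod.snd h2
  have hp0 : pth (∅ : Finset (Fin 3)) := by unfold pth; simp
  have hpb : pth ({b} : Finset (Fin 3)) := by unfold pth; simp
  have n0 : nc (5 * t + 5) ∅ = t + 2 := by
    rw [nc_add _ _ hp0 (by omega)]
    unfold ncj rk
    rw [if_pos rfl, if_pos (by omega)]
  have nb : nc (5 * t + 5) {b} = t + 2 := by
    rw [nc_add _ _ hpb (by omega)]
    have key : ∀ b : Fin 3, rk {b} < 5 := by decide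
    unfold ncj
    rw [if_pos (key b)]
  have nN : nn (5 * t + 5) = t + 1 := by
    rw [nn_add _ _ (by omega)]
    unfold nnj
    rw [if_neg (by omega)]
  have u0 : LL (φ := φ) (Um v (t + 2)) ∅ p = LL (Um v (t + 2)) ∅ q := by
    have := congrFun h3 ⟨∅, hp0⟩
    have h5 : SL (φ := φ) v (5 * t + 5) ∅ p = SL v (5 * t + 5) ∅ q := this
    unfold SL at h5
    rwa [n0] at h5
  have ub : LL (φ := φ) (Um v (t + 2)) {b} p = LL (Um v (t + 2)) {b} q := by
    have := congrFun h3 ⟨{b}, hpb⟩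
    have h5 : SL (φ := φ) v (5 * t + 5) {b} p = SL v (5 * t + 5) {b} q := this
    unfold SL at h5
    rwa [nb] at h5
  rw [nN] at h4
  have h6 : p.2.1 = q.2.1 ∧ nd D (t + 1) p = nd D (t + 1) q := by
    have h7 := h4
    unfold WW at h7
    rwa [Prod.mk.injEq] at h7
  unfold Cb
  simp only [Prod.mk.injEq]
  refine ⟨⟨?_, ?_⟩, by rw [h6.1], (LL_eq.1 ub).1⟩
  · rw [le_eq]
    intro I hI
    rw [Finset.subset_empty.1 hI]
    exact u0
  · exact WW_BB D (t + 1) ∅ _ _ h4

end run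

end TriS

end

end Pool.Agent.GMH.TP
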