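import Pool.Agent.GMH.UnmP

/-!
# GMH/UnmSt (helper58): THE STAYS AT THE REMOVALS (H3.0 (0.11), H3.UNM U.1, U.2; row C6), over `US`

`Q'` = the kind `Q` with half thresholds.  A STAY at the removal `q` of a decided life of `v` is a good tuple (in the old
relation `Q`) which is in the relation `Q'` of the tables of the new start `q + 1`.  The other good tuples at the removal are
EXITS: they are paid by entropies (`X`).
* `sty_v`, `sty_0` : the stays: `us` per decision / zone and the starts at which the density of `Q'` is above `us`;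
* `hx_v`, `hx_0` : the hypotheses `hx` of `cnt_v`, `cnt_0` from the exits;
* `NT_le`, `Nz_le` : the number of decisions and of zones;
* `rare_v`, `rare_0` : the rare starts when `Q'` is contained in a union of kinds.
-/

set_option autoImplicit false
set_option linter.unusedSectionVars false

namespace Pool.Agent.GMH.UV

open Finset Pool.Agent.PWZ Pool.Agent.M3 Pool.Agent.GMH.TD Pool.Agent.GMH.CK Pool.Agent.GMH.MV Pool.Agent.GMH.UnmL
open Pool.Agent.GMH.Gdy (ce_congr_on)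

noncomputable section

variable {Om : Type} [Fintype Om] (M : US Om) (Q Q' : Kd Om) (A : Stps (Om := Om))

/-- a removal ends a decided life of `v` -/
def rdv (v : Fin 3) (q : ℕ) (w : Om) : Prop := (A.rp v q w ∨ A.ru q w) ∧ bet M Q v q w

/-- a public removal ends a zone -/
def rd0 (q : ℕ) (w : Om) : Prop := A.ru q w ∧ Z0 M Q q w

/-- stay at the end of a decided life of `v` -/
def sty (v : Fin 3) (q : ℕ) (w : Om) : Prop := rmv M Q A v q w ∧ Q'.kv (some v) (q + 1) w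

/-- exit at the end of a decided life of `v` -/
def exv (v : Fin 3) (q : ℕ) (w : Om) : Prop := rmv M Q A v q w ∧ ¬ Q'.kv (some v) (q + 1) w

/-- stay at the end of a zone -/
def sty0 (v : Option (Fin 3)) (q : ℕ) (w : Om) : Prop := rm0 M Q A v q w ∧ Q'.kv none (q + 1) w

/-- exit at the end of a zone -/
def ex0 (v : Option (Fin 3)) (q : ℕ) (w : Om) : Prop := rm0 M Q A v q w ∧ ¬ Q'.kv none (q + 1) w

variable {M Q Q' A} {δ : ℝ}

theorem rdv_S (H : Seen M) (HS : StS M A) (v : Fin 3) (q : ℕ) {a b : Om} (e : M.S {v} (q + 1) a = M.S {v} (q + 1) b) :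
    rdv M Q A v q a ↔ rdv M Q A v q b := by
  unfold rdv
  rw [bet_S H v (Nat.le_succ q) e, HS.rp v q a b e, HS.ru q a b (M.mS ∅ {v} (q + 1) (Finset.empty_subset _) a b e)]

theorem rd0_S (H : Seen M) (HS : StS M A) (q : ℕ) {a b : Om} (e : M.S ∅ (q + 1) a = M.S ∅ (q + 1) b) :
    rd0 M Q A q a ↔ rd0 M Q A q b := by
  unfold rd0
  rw [Z0_S H (Nat.le_succ q) e, HS.ru q a b e]

/-- at most one removal per decided life -/
theorem rdv_cnt (HA : StpC M A) (v : Fin 3) (T : ℕ) : ∑ q ∈ range T, M.P.Pr (rdv M Q A v q) ≤ NT M Q v T := by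
  unfold NT
  refine Pr_inj (l := tv M v) (fun w _ q hq h => ?_) (fun w hw q _ q' _ h h' e => ?_)
  · obtain ⟨s, a, b, c⟩ := bet_iff.1 h.2
    exact ⟨s, lt_of_le_of_lt b hq, c, stg_mid rfl a b⟩
  · exact end_one (C := M.Cv v) (h.1.elim (HA.endp w hw v q) (HA.endu w hw v q))
      (h'.1.elim (HA.endp w hw v q') (HA.endu w hw v q')) e

/-- at most one removal per zone -/
theorem rd0_cnt (HA : StpC M A) (T : ℕ) : ∑ q ∈ range T, M.P.Pr (rd0 M Q A q) ≤ Nz M Q T := by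
  unfold Nz
  refine Pr_inj (l := nu M.toMS) (fun w _ q hq h => ?_) (fun w hw q _ q' _ h h' e => ?_)
  · obtain ⟨s, a, b, c⟩ := Z0_iff.1 h.2
    exact ⟨s, lt_of_le_of_lt b hq, c, stg_mid rfl a b⟩
  · exact end_one (C := C0 M.toMS) (HA.end0 w hw q h.1) (HA.end0 w hw q' h'.1) e

/-- at a removal the density of the relation `Q'` of the new start is `Mx` -/
theorem Mx_start {v : Fin 3} {q : ℕ} {w : Om} (h : tv M v (q + 1) w = q + 1) :
    Mx M Q' v (q + 1) w = M.P.ce (M.S {v} (q + 1)) (fun u => ind (Q'.kv (some v) (q + 1) u)) w := by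
  unfold Mx
  rw [h]

/-- at a public removal the static density of the relation `Q'` of the new start is `Dn none` -/
theorem Dn_start (H : Seen M) {q : ℕ} {w : Om} (h : nu M.toMS (q + 1) w = q + 1) :
    Dn M Q' none (q + 1) w = M.P.ce (M.S ∅ (q + 1)) (fun u => ind (Q'.kv none (q + 1) u)) w := by
  unfold Dn
  refine ce_congr_on fun u _ e => ?_
  show ind (Q'.kv none (nu M.toMS (q + 1) u) u) = ind (Q'.kv none (q + 1) u)
  rw [nu_S H le_rfl u w e, h]

/-- **THE STAYS AT THE ENDS OF THE DECIDED LIVES** -/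
theorem sty_v (H : Seen M) (HS : StS M A) (HA : StpC M A) (v : Fin 3) {us : ℝ} (h0 : 0 ≤ us) (T : ℕ) :
    ∑ q ∈ range T, M.P.Pr (sty M Q Q' A v q) ≤
      us * NT M Q v T + ∑ q ∈ range T, M.P.Pr (fun w => rdv M Q A v q w ∧ us < Mx M Q' v (q + 1) w) := by
  have h1 : ∀ q ∈ range T, M.P.Pr (sty M Q Q' A v q) ≤
      us * M.P.Pr (rdv M Q A v q) + M.P.Pr (fun w => rdv M Q A v q w ∧ us < Mx M Q' v (q + 1) w) := fun q _ => by
    refine (M.P.Pr_mono (t := fun w => rdv M Q A v q w ∧ Q'.kv (some v) (q + 1) w)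
      fun w _ h => ⟨⟨h.1.1, h.1.2.2.1⟩, h.2⟩).trans ?_
    refine (dens_le (P := M.P) (Z := M.S {v} (q + 1)) (f := rdv M Q A v q) (fun x w e => rdv_S H HS v q e)
      (fun u => Q'.kv (some v) (q + 1) u) h0).trans ?_
    refine add_le_add le_rfl (M.P.Pr_mono fun w hw h => ⟨h.1, ?_⟩)
    rw [Mx_start (h.1.1.elim (HA.endp w hw v q) (HA.endu w hw v q))]
    exact h.2
  refine (Finset.sum_le_sum h1).trans ?_
  rw [Finset.sum_add_distrib, ← Finset.mul_sum]
  have h2 := mul_le_mul_of_nonneg_left (rdv_cnt (Q := Q) HA v T) h0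
  linarith

/-- **THE STAYS AT THE ENDS OF THE ZONES** -/
theorem sty_0 (H : Seen M) (HS : StS M A) (HA : StpC M A) (v : Option (Fin 3)) {us : ℝ} (h0 : 0 ≤ us) (T : ℕ) :
    ∑ q ∈ range T, M.P.Pr (sty0 M Q Q' A v q) ≤
      us * Nz M Q T + ∑ q ∈ range T, M.P.Pr (fun w => rd0 M Q A q w ∧ us < Dn M Q' none (q + 1) w) := by
  have h1 : ∀ q ∈ range T, M.P.Pr (sty0 M Q Q' A v q) ≤
      us * M.P.Pr (rd0 M Q A q) + M.P.Pr (fun w => rd0 M Q A q w ∧ us < Dn M Q' none (q + 1) w) := fun q _ => by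
    refine (M.P.Pr_mono (t := fun w => rd0 M Q A q w ∧ Q'.kv none (q + 1) w)
      fun w _ h => ⟨⟨h.1.1, h.1.2.1⟩, h.2⟩).trans ?_
    refine (dens_le (P := M.P) (Z := M.S ∅ (q + 1)) (f := rd0 M Q A q) (fun x w e => rd0_S H HS q e)
      (fun u => Q'.kv none (q + 1) u) h0).trans ?_
    refine add_le_add le_rfl (M.P.Pr_mono fun w hw h => ⟨h.1, ?_⟩)
    rw [Dn_start H (HA.end0 w hw q h.1.1)]
    exact h.2
  refine (Finset.sum_le_sum h1).trans ?_
  rw [Finset.sum_add_distrib, ← Finset.mul_sum]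
  have h2 := mul_le_mul_of_nonneg_left (rd0_cnt (Q := Q) HA T) h0
  linarith

/-- **hypothesis `hx` of `cnt_v` from the exits** -/
theorem hx_v (H : Seen M) (HS : StS M A) (HA : StpC M A) (v : Fin 3) {us X : ℝ} (h0 : 0 ≤ us) (T : ℕ)
    (hX : ∑ q ∈ range T, M.P.Pr (exv M Q Q' A v q) ≤ X) :
    ∑ q ∈ range T, M.P.Pr (rmv M Q A v q) ≤
      (X + ∑ q ∈ range T, M.P.Pr (fun w => rdv M Q A v q w ∧ us < Mx M Q' v (q + 1) w)) + us * NT M Q v T := by
  have h1 := sty_v (Q := Q) (Q' := Q') H HS HA v h0 T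
  have h2 : ∑ q ∈ range T, M.P.Pr (rmv M Q A v q) ≤
      ∑ q ∈ range T, M.P.Pr (exv M Q Q' A v q) + ∑ q ∈ range T, M.P.Pr (sty M Q Q' A v q) := by
    rw [← Finset.sum_add_distrib]
    refine Finset.sum_le_sum fun q _ => (M.P.Pr_mono fun w _ h => ?_).trans (M.P.Pr_or_le _ _)
    by_cases h3 : Q'.kv (some v) (q + 1) w
    · exact Or.inr ⟨h, h3⟩
    · exact Or.inl ⟨h, h3⟩
  linarith

/-- **hypothesis `hx` of `cnt_0` from the exits** -/
theorem hx_0 (H : Seen M) (HS : StS M A) (HA : StpC M A) (v : Option (Fin 3)) {us X : ℝ} (h0 : 0 ≤ us) (T : ℕ)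
    (hX : ∑ q ∈ range T, M.P.Pr (ex0 M Q Q' A v q) ≤ X) :
    ∑ q ∈ range T, M.P.Pr (rm0 M Q A v q) ≤
      (X + ∑ q ∈ range T, M.P.Pr (fun w => rd0 M Q A q w ∧ us < Dn M Q' none (q + 1) w)) + us * Nz M Q T := by
  have h1 := sty_0 (Q := Q) (Q' := Q') H HS HA v h0 T
  have h2 : ∑ q ∈ range T, M.P.Pr (rm0 M Q A v q) ≤
      ∑ q ∈ range T, M.P.Pr (ex0 M Q Q' A v q) + ∑ q ∈ range T, M.P.Pr (sty0 M Q Q' A v q) := by
    rw [← Finset.sum_add_distrib]
    refine Finset.sum_le_sum fun q _ => (M.P.Pr_mono fun w _ h => ?_).trans (M.P.Pr_or_le _ _)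
    by_cases h3 : Q'.kv none (q + 1) w
    · exact Or.inr ⟨h, h3⟩
    · exact Or.inl ⟨h, h3⟩
  linarith

/-- all the exits, at any removal -/
theorem ex_mono {v : Fin 3} {q : ℕ} {w : Om} (h : exv M Q Q' A v q w) :
    (A.rp v q w ∨ A.ru q w) ∧ A.gd q w ∧ Q.kv (some v) (tv M v q w) w ∧ ¬ Q'.kv (some v) (q + 1) w :=
  ⟨h.1.1, h.1.2.2.2, h.1.2.1, h.2⟩

theorem ex0_mono {v : Option (Fin 3)} {q : ℕ} {w : Om} (h : ex0 M Q Q' A v q w) :
    A.ru q w ∧ A.gd q w ∧ Rn M Q v (nu M.toMS q w) w ∧ ¬ Q'.kv none (q + 1) w :=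
  ⟨h.1.1, h.1.2.2.2, h.1.2.2.1, h.2⟩

/-- **THE NUMBER OF DECISIONS** of the vertex `v` -/
theorem NT_le (H : Seen M) (HS : StS M A) (HA : StpC M A) (v : Fin 3) {y us X : ℝ} (hB : 0 < Q.uB) (hy : 0 ≤ y)
    (h0 : 0 ≤ us) (T : ℕ) (hyB : y ≤ Q.uB / 4) (husB : us ≤ Q.uB / 4)
    (hX : ∑ q ∈ range T, M.P.Pr (exv M Q Q' A v q) ≤ X) :
    NT M Q v T ≤ 2 / Q.uB * (X + ∑ q ∈ range T, M.P.Pr (fun w => rdv M Q A v q w ∧ us < Mx M Q' v (q + 1) w) +
      ∑ q ∈ range T, M.P.Pr (ngk M Q A v q) +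
      ∑ q ∈ range T, M.P.Pr (fun w => afv M Q A v q w ∧ y < Dev M Q v q w) +
      M.P.Pr (fun w => Q.kv (some v) (tv M v T w) w ∧ bet M Q v T w)) := by
  have h1 := cnt_v H HS hy T hyB husB (hx_v H HS HA v h0 T hX)
  have h2 := mul_le_mul_of_nonneg_left h1 (div_nonneg (by norm_num : (0 : ℝ) ≤ 2) hB.le)
  refine le_trans (le_of_eq ?_) h2
  field_simp

/-- **THE NUMBER OF ZONES** -/
theorem Nz_le (H : Seen M) (HS : StS M A) (HA : StpC M A) {y us X : ℝ} (hu0 : 0 < Q.u0) (hy : 0 ≤ y)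
    (h0 : 0 ≤ us) (T : ℕ) (hy0 : 4 * y ≤ Q.u0 / 4) (hus0 : 4 * us ≤ Q.u0 / 4)
    (hX : ∀ v, ∑ q ∈ range T, M.P.Pr (ex0 M Q Q' A v q) ≤ X) :
    Nz M Q T ≤ 2 / Q.u0 * (4 * (X + ∑ q ∈ range T, M.P.Pr (fun w => rd0 M Q A q w ∧ us < Dn M Q' none (q + 1) w)) +
      ∑ v : Option (Fin 3), (∑ q ∈ range T, M.P.Pr (ng0 M Q A v q) +
        ∑ q ∈ range T, M.P.Pr (fun w => af0 M Q A q w ∧ y < De0 M Q v q w) +
        M.P.Pr (fun w => Rn M Q v (nu M.toMS T w) w ∧ Z0 M Q T w))) := by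
  have h1 := cnt_0 H HS hy T hy0 hus0 fun v => hx_0 H HS HA v h0 T (hX v)
  have h2 := mul_le_mul_of_nonneg_left h1 (div_nonneg (by norm_num : (0 : ℝ) ≤ 2) hu0.le)
  refine le_trans (le_of_eq ?_) h2
  field_simp

/-! ### a relation inside a union of kinds -/

/-- density of a relation contained in a union -/
theorem ce_union {P : FP Om} {κ : Type*} {Z : Om → κ} {ι : Type*} (J : Finset ι) {R : Om → Prop} {Rj : ι → Om → Prop}
    (hR : ∀ u, P.p u ≠ 0 → R u → ∃ j ∈ J, Rj j u) {us : ℝ} (h0 : 0 ≤ us) {w : Om}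
    (h : us < P.ce Z (fun u => ind (R u)) w) :
    ∃ j ∈ J, us / (J.card : ℝ) < P.ce Z (fun u => ind (Rj j u)) w := by
  by_contra hcon
  push Not at hcon
  have h1 : P.ce Z (fun u => ind (R u)) w ≤ ∑ j ∈ J, P.ce Z (fun u => ind (Rj j u)) w := by
    rw [← P.ce_sum]
    refine P.ce_mono (fun u hu => ?_) w
    by_cases hr : R u
    · obtain ⟨j, hj, hj'⟩ := hR u hu hr
      rw [ind_of hr]
      have h2 := Finset.single_le_sum (f := fun j => ind (Rj j u)) (fun j _ => ind_nonneg _) hj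
      rw [ind_of hj'] at h2
      exact h2
    · rw [ind_not hr]
      exact Finset.sum_nonneg fun j _ => ind_nonneg _
  have h2 : ∑ j ∈ J, P.ce Z (fun u => ind (Rj j u)) w ≤ us := by
    refine (Finset.sum_le_sum fun j hj => hcon j hj).trans ?_
    rw [Finset.sum_const, nsmul_eq_mul]
    rcases Nat.eq_zero_or_pos J.card with hJ | hJ
    · rw [hJ]
      simpa using h0
    · have hJ' : (0 : ℝ) < (J.card : ℝ) := by exact_mod_cast hJ
      rw [mul_div_cancel₀ _ hJ'.ne']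
  linarith

/-- an event contained in a union -/
theorem Pr_union {P : FP Om} {ι : Type*} (J : Finset ι) {E : Om → Prop} {F : ι → Om → Prop}
    (h : ∀ w, P.p w ≠ 0 → E w → ∃ j ∈ J, F j w) : P.Pr E ≤ ∑ j ∈ J, P.Pr (F j) := by
  unfold FP.Pr
  rw [← FP.E_sum]
  refine P.E_mono fun w hw => ?_
  by_cases hE : E w
  · obtain ⟨j, hj, hj'⟩ := h w hw hE
    rw [ind_of hE]
    have h2 := Finset.single_le_sum (f := fun j => ind (F j w)) (fun j _ => ind_nonneg _) hj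
    rw [ind_of hj'] at h2
    exact h2
  · rw [ind_not hE]
    exact Finset.sum_nonneg fun j _ => ind_nonneg _

/-- **the rare event of `sty_v` for a relation inside the union of the kinds `R j`** -/
theorem rare_v (HA : StpC M A) {ι : Type*} (J : Finset ι) {R : ι → Kd Om}
    (hR : ∀ o q u, M.P.p u ≠ 0 → Q'.kv o (q + 1) u → ∃ j ∈ J, (R j).kv o (q + 1) u) (v : Fin 3) {us : ℝ} (h0 : 0 ≤ us) (T : ℕ) :
    ∑ q ∈ range T, M.P.Pr (fun w => rdv M Q A v q w ∧ us < Mx M Q' v (q + 1) w) ≤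
      ∑ j ∈ J, ∑ q ∈ range T, M.P.Pr (fun w => rdv M Q A v q w ∧ us / (J.card : ℝ) < Mx M (R j) v (q + 1) w) := by
  rw [Finset.sum_comm]
  refine Finset.sum_le_sum fun q _ => Pr_union J fun w hw h => ?_
  have e := h.1.1.elim (HA.endp w hw v q) (HA.endu w hw v q)
  have h1 := h.2
  rw [Mx_start e] at h1
  obtain ⟨j, hj, hj'⟩ := ce_union J (hR (some v) q) h0 h1
  refine ⟨j, hj, h.1, ?_⟩
  rw [Mx_start e]
  exact hj'

/-- **the rare event of `sty_0` for a relation inside the union of the kinds `R j`** -/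
theorem rare_0 (H : Seen M) (HA : StpC M A) {ι : Type*} (J : Finset ι) {R : ι → Kd Om}
    (hR : ∀ o q u, M.P.p u ≠ 0 → Q'.kv o (q + 1) u → ∃ j ∈ J, (R j).kv o (q + 1) u) {us : ℝ} (h0 : 0 ≤ us) (T : ℕ) :
    ∑ q ∈ range T, M.P.Pr (fun w => rd0 M Q A q w ∧ us < Dn M Q' none (q + 1) w) ≤
      ∑ j ∈ J, ∑ q ∈ range T, M.P.Pr (fun w => rd0 M Q A q w ∧ us / (J.card : ℝ) < Dn M (R j) none (q + 1) w) := by
  rw [Finset.sum_comm]
  refine Finset.sum_le_sum fun q _ => Pr_union J fun w hw h => ?_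
  have e := HA.end0 w hw q h.1.1
  have h1 := h.2
  rw [Dn_start H e] at h1
  obtain ⟨j, hj, hj'⟩ := ce_union J (hR none q) h0 h1
  refine ⟨j, hj, h.1, ?_⟩
  rw [Dn_start H e]
  exact hj'

end

end Pool.Agent.GMH.UV
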