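import Pool.Agent.GMH.Dyn
import Pool.Agent.GMH.Trf
import Pool.Agent.GMH.UnmSt
import Pool.Agent.GMH.TriS
import Pool.Agent.GMH.CKB
import Pool.Agent.GMH.TopSplit
import Pool.Agent.GMH.DeadP

/-!
# GMH/PRbits: the bits of the run as events of the hidden point, the point of one vertex and the node (helper33; row E6)

* `lft_Ah` : an event of the sight `sgt D E n`, lifted to `Pt`, is a function of `Ah D m E` for `n ≤ m`;
* `HV_Ah`, `HV_Cb`, `lpv_Ah`, `lpv_Cb` : heavy public value, light private value;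
* `sum_nHV`, `sum_lpv` : the numbers of light public values and of light private values of one vertex.
-/

set_option autoImplicit false
set_option linter.unusedSectionVars false

namespace Pool.Agent.GMH.PRF

open Finset Pool.Agent.PWZ Pool.Agent.M3 Pool.Agent.GM Pool.Agent.GM.Harm Pool.Agent.GMH Pool.Agent.GMH.NZ
open Pool.Agent.GMH.V3 Pool.Agent.GMH.TP Pool.Agent.GMH.TD Pool.Agent.GMH.Dy Pool.Agent.GMH.MV Pool.Agent.GMH.MVI
open Pool.Agent.GMH.UV Pool.Agent.GMH.KF Pool.Agent.GMH.TRF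

noncomputable section

variable {X β γ φ : Type} [Fintype X] [Fintype β] [Fintype φ] [Nonempty X] [Nonempty β]
variable {D : HD (Fin 3) X β γ φ} {prr : ℕ → Fin 3 → φ → φ} {T : ℕ} {W : Type} [Fintype W]
variable {v : ℕ → Finset (Fin 3) → X → (Fin 3 → β) → Pt (Fin 3) X β φ}

/-- **an event of the sight, on `Pt`** -/
theorem lft_Ah {E : Finset (Fin 3)} {n m : ℕ} (hnm : n ≤ m) {B : Om W X β → Prop} (hB : Fac (sgt D E n) B) :
    Fac (Ah (φ := φ) D m E) (lft (φ := φ) B) := by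
  have key : ∀ a b : Pt (Fin 3) X β φ, Ah D m E a = Ah D m E b → lft B a → lft B b := by
    rintro a b hab ⟨w, h1, h2, h3⟩
    unfold Ah at hab
    simp only [Prod.mk.injEq, BB_eq] at hab
    obtain ⟨e1, e2, e3, e4⟩ := hab
    refine ⟨(b.1, w.2.1, b.2.1), rfl, rfl, ?_⟩
    have e5 : sgt D E n w = sgt D E n ((b.1, w.2.1, b.2.1) : Om W X β) := by
      refine sgt_eq.2 ⟨by rw [h1, e1], fun j hj => ?_, fun j => ?_⟩
      · show w.2.2 j = b.2.1 j
        rw [h2]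
        exact e2 j hj
      · show D.qb n (w.2.2 j) = D.qb n (b.2.1 j)
        rw [h2]
        exact Dy.qb_mono hnm (e4 j)
    have e6 : B w = B (b.1, w.2.1, b.2.1) := hB _ _ e5
    rw [← e6]
    exact h3
  intro a b hab
  exact propext ⟨key a b hab, key b a hab.symm⟩

/-! ### light values -/

theorem m_eq {Om κ : Type*} [Fintype Om] {P : FP Om} {F : Om → κ} {a b : Om} (e : F a = F b) : P.m F a = P.m F b := by
  unfold FP.m
  rw [e]


/-- data of the hidden point with more known points -/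
theorem Ah_mono {m : ℕ} {I J : Finset (Fin 3)} (hIJ : I ⊆ J) : Fac (Ah (φ := φ) D m J) (Ah (φ := φ) D m I) := by
  intro a b hab
  unfold Ah at hab ⊢
  simp only [Prod.mk.injEq, BB_eq] at hab ⊢
  exact ⟨hab.1, fun i hi => hab.2.1 i (hIJ hi), hab.2.2⟩

/-- the letter of `I` is seen by the data of the hidden point -/
theorem Um_Ah (hv : Codes D v) {s m : ℕ} (hs : s ≤ m + 1) {I J : Finset (Fin 3)} (hIJ : I ⊆ J) {a b : Pt (Fin 3) X β φ}
    (hab : Ah (φ := φ) D m J a = Ah D m J b) : Um v s I a.1 a.2.1 = Um v s I b.1 b.2.1 := by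
  unfold Ah at hab
  simp only [Prod.mk.injEq, BB_eq] at hab
  obtain ⟨e1, e2, e3, e4⟩ := hab
  rw [e1]
  exact Um_cell hv hs (fun j hj => e2 j (hIJ hj)) e4

theorem NPq_Ah (hv : Codes D v) {q t : ℕ} (h1 : nc q ∅ ≤ t + 2) (h2 : TP.nn q ≤ t + 1) (J : Finset (Fin 3)) :
    Fac (Ah (φ := φ) D (t + 1) J) (NPq (φ := φ) D v q) := by
  intro a b hab
  have k1 := Um_Ah hv (show nc q ∅ ≤ t + 1 + 1 from h1) (Finset.empty_subset J) hab
  unfold Ah at hab
  simp only [Prod.mk.injEq, BB_eq] at hab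
  obtain ⟨e1, e2, e3, e4⟩ := hab
  unfold NPq NP nd
  rw [k1]
  refine Prod.ext rfl (Prod.ext ?_ ?_)
  · show D.qa (TP.nn q) a.1 = D.qa (TP.nn q) b.1
    rw [e1]
  · funext j
    exact Dy.qb_mono h2 (e4 j)

theorem XLq_Ah (hv : Codes D v) {q t : ℕ} {i : Fin 3} (h1 : nc q {i} ≤ t + 2) {J : Finset (Fin 3)} (hJ : i ∈ J) :
    Fac (Ah (φ := φ) D (t + 1) J) (XLq (φ := φ) v q i) := by
  intro a b hab
  have k1 := Um_Ah hv (show nc q {i} ≤ t + 1 + 1 from h1) (Finset.singleton_subset_iff.2 hJ) hab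
  unfold Ah at hab
  simp only [Prod.mk.injEq, BB_eq] at hab
  unfold XLq XL
  rw [k1, hab.2.1 i hJ]

variable {al : ℝ} {h : D.Thick al}

theorem nc5 (t : ℕ) {J : Finset (Fin 3)} (hJ : pth J) : nc (5 * t + 5) J = t + 2 := by
  rw [nc_add t 5 hJ le_rfl]
  unfold ncj
  have key : ∀ J : Finset (Fin 3), J.card ≤ 1 → rk J < 5 := by decide
  rw [if_pos (key J hJ)]

theorem nc_mid4 (t : ℕ) {j : ℕ} (h5 : j ≤ 5) {J : Finset (Fin 3)} (hJ : pth J) : nc (5 * t + j) J ≤ t + 2 := nc_le2 t h5 hJ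

theorem nn_mid5 (t : ℕ) {j : ℕ} (h5 : j ≤ 5) : TP.nn (5 * t + j) ≤ t + 1 := by
  rw [nn_add t j h5]
  unfold nnj
  split_ifs <;> omega

/-- heavy public value -/
theorem HV_Ah (hv : Codes D v) (t : ℕ) (J : Finset (Fin 3)) : Fac (Ah (φ := φ) D (t + 1) J) (HV h v t) := by
  intro a b hab
  have k1 := NPq_Ah hv (q := 5 * t + 1) (nc_mid4 t (by omega) pth_emp) (nn_mid5 t (by omega)) J a b hab
  have k2 := NPq_Ah hv (q := 5 * t + 2) (nc_mid4 t (by omega) pth_emp) (nn_mid5 t (by omega)) J a b hab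
  have m1 : (D.P h t).m (NPq D v (5 * t + 1)) a = (D.P h t).m (NPq D v (5 * t + 1)) b := m_eq k1
  have m2 : (D.P h t).m (NPq D v (5 * t + 2)) a = (D.P h t).m (NPq D v (5 * t + 2)) b := m_eq k2
  show HV h v t a = HV h v t b
  unfold HV
  rw [m1, m2]

/-- light private value -/
theorem lpv_Ah (hv : Codes D v) (t : ℕ) {i : Fin 3} {J : Finset (Fin 3)} (hJ : i ∈ J) :
    Fac (Ah (φ := φ) D (t + 1) J) (lpv h v i t) := by
  intro a b hab
  have k1 : ∀ j ≤ 5, (XLq v (5 * t + j) i a, NPq D v (5 * t + j) a) = (XLq v (5 * t + j) i b, NPq D v (5 * t + j) b) :=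
    fun j hj => Prod.ext (XLq_Ah hv (nc_mid4 t hj (pth_sing i)) hJ a b hab)
      (NPq_Ah hv (nc_mid4 t hj pth_emp) (nn_mid5 t hj) J a b hab)
  have m1 : (D.P h t).m (fun u => (XLq v (5 * t + 4) i u, NPq D v (5 * t + 4) u)) a =
    (D.P h t).m (fun u => (XLq v (5 * t + 4) i u, NPq D v (5 * t + 4) u)) b := m_eq (k1 4 (by omega))
  have m2 : (D.P h t).m (fun u => (XLq v (5 * t + 5) i u, NPq D v (5 * t + 5) u)) a =
    (D.P h t).m (fun u => (XLq v (5 * t + 5) i u, NPq D v (5 * t + 5) u)) b := m_eq (k1 5 le_rfl)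
  show lpv h v i t a = lpv h v i t b
  unfold lpv
  rw [m1, m2]

/-! ### seen by the class -/

/-- the public letter and the node of the class -/
theorem NPq_Cb {q t : ℕ} (b : Fin 3) (h1 : nc q ∅ ≤ t + 2) (h2 : TP.nn q ≤ t + 1) :
    Fac (TriS.Cb D (Um v (t + 2)) (t + 1) b) (NPq (φ := φ) D v q) := by
  intro x y hab
  unfold TriS.Cb at hab
  simp only [Prod.mk.injEq] at hab
  obtain ⟨⟨e1, e2⟩, e3, e4⟩ := hab
  have u0 : LL (φ := φ) (Um v (t + 2)) ∅ x = LL (Um v (t + 2)) ∅ y := by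
    rw [le_eq] at e1
    exact e1 ∅ (Finset.Subset.refl _)
  have u1 := (LL_eq.1 u0).1
  have u2 : Um v (nc q ∅) ∅ x.1 x.2.1 = Um v (nc q ∅) ∅ y.1 y.2.1 := Um_older h1 u1
  rw [BB_eq] at e2
  have e5 : ∀ m n : ℕ, m ≤ n → D.qa n x.1 = D.qa n y.1 → D.qa m x.1 = D.qa m y.1 := by
    intro m n hmn
    induction hmn with
    | refl => exact fun hh => hh
    | step _ ih => exact fun hh => ih (D.ra _ _ _ hh)
  unfold NPq NP nd
  refine Prod.ext u2 (Prod.ext (e5 _ _ h2 e2.2.1) ?_)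
  funext j
  exact Dy.qb_mono h2 (e2.2.2 j)

theorem XLq_Cb {q t : ℕ} (b : Fin 3) (h1 : nc q {b} ≤ t + 2) :
    Fac (TriS.Cb D (Um v (t + 2)) (t + 1) b) (XLq (φ := φ) v q b) := by
  intro x y hab
  unfold TriS.Cb at hab
  simp only [Prod.mk.injEq] at hab
  obtain ⟨⟨e1, e2⟩, e3, e4⟩ := hab
  unfold XLq XL
  exact Prod.ext e3 (Um_older h1 e4)

theorem HV_Cb (t : ℕ) (b : Fin 3) : Fac (TriS.Cb D (Um v (t + 2)) (t + 1) b) (HV h v t) := by
  intro x y hab
  have k1 := NPq_Cb (q := 5 * t + 1) b (nc_mid4 t (by omega) pth_emp) (nn_mid5 t (by omega)) x y hab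
  have k2 := NPq_Cb (q := 5 * t + 2) b (nc_mid4 t (by omega) pth_emp) (nn_mid5 t (by omega)) x y hab
  have m1 : (D.P h t).m (NPq D v (5 * t + 1)) x = (D.P h t).m (NPq D v (5 * t + 1)) y := m_eq k1
  have m2 : (D.P h t).m (NPq D v (5 * t + 2)) x = (D.P h t).m (NPq D v (5 * t + 2)) y := m_eq k2
  show HV h v t x = HV h v t y
  unfold HV
  rw [m1, m2]

theorem lpv_Cb (t : ℕ) (b : Fin 3) : Fac (TriS.Cb D (Um v (t + 2)) (t + 1) b) (lpv h v b t) := by
  intro x y hab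
  have k1 : ∀ j ≤ 5, (XLq v (5 * t + j) b x, NPq D v (5 * t + j) x) = (XLq v (5 * t + j) b y, NPq D v (5 * t + j) y) :=
    fun j hj => Prod.ext (XLq_Cb b (nc_mid4 t hj (pth_sing b)) x y hab)
      (NPq_Cb b (nc_mid4 t hj pth_emp) (nn_mid5 t hj) x y hab)
  have m1 : (D.P h t).m (fun u => (XLq v (5 * t + 4) b u, NPq D v (5 * t + 4) u)) x =
    (D.P h t).m (fun u => (XLq v (5 * t + 4) b u, NPq D v (5 * t + 4) u)) y := m_eq (k1 4 (by omega))
  have m2 : (D.P h t).m (fun u => (XLq v (5 * t + 5) b u, NPq D v (5 * t + 5) u)) x =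
    (D.P h t).m (fun u => (XLq v (5 * t + 5) b u, NPq D v (5 * t + 5) u)) y := m_eq (k1 5 le_rfl)
  show lpv h v b t x = lpv h v b t y
  unfold lpv
  rw [m1, m2]

/-! ### the numbers -/

/-- a sum over the times inside a sum over the substeps -/
theorem sum_sub {f : ℕ → ℝ} {g : ℕ → ℝ} {j : ℕ} (hj : j < 5) (hg : ∀ q, 0 ≤ g q) (T : ℕ)
    (h1 : ∀ t < T, f t ≤ g (5 * t + j)) : ∑ t ∈ range T, f t ≤ ∑ q ∈ range (5 * T), g q := by
  have h2 : ∑ t ∈ range T, g (5 * t + j) ≤ ∑ q ∈ range (5 * T), g q := by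
    rw [← Finset.sum_image (f := g) (g := fun t => 5 * t + j) (s := range T) (fun a _ b _ hab => by
      have : 5 * a + j = 5 * b + j := hab
      omega)]
    refine Finset.sum_le_sum_of_subset_of_nonneg (fun q hq => ?_) (fun q _ _ => hg q)
    obtain ⟨t, ht, rfl⟩ := Finset.mem_image.1 hq
    have := Finset.mem_range.1 ht
    exact Finset.mem_range.2 (by omega)
  exact (Finset.sum_le_sum fun t ht => h1 t (Finset.mem_range.1 ht)).trans h2

theorem HV_xy (t : ℕ) : XY (HV (φ := φ) h v t) := by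
  intro x y F F'
  have e : ∀ q, (D.P h t).m (NPq D v q) (x, y, F) = (D.P h t).m (NPq D v q) (x, y, F') := fun q => m_eq (xy_NPq q x y F F')
  unfold HV
  rw [e, e]

theorem lpv_xy (i : Fin 3) (t : ℕ) : XY (lpv (φ := φ) h v i t) := by
  intro x y F F'
  have e : ∀ q, (D.P h t).m (fun u => (XLq v q i u, NPq D v q u)) (x, y, F) =
    (D.P h t).m (fun u => (XLq v q i u, NPq D v q u)) (x, y, F') := fun q => m_eq (Prod.ext rfl (xy_NPq q x y F F'))
  unfold lpv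
  rw [e, e]

/-- **the number of light public values** -/
theorem sum_nHV {n N1 : ℝ} (hn : 1 ≤ n) (hN1 : 1 ≤ N1) (R : Run h (pr3 (Fin 3) n N1) (SS1 (Fin 3)) (AdmDep D) v)
    {dg : ℕ → X → ℝ} {Lam : ℝ} (H : D.Hyp dg prr al T Lam) :
    ∑ t ∈ range T, (D.P h t).Pr (fun w => ¬ HV h v t w) ≤ 6 * n * N1 * Lam := by
  refine le_trans (sum_sub (j := 1) (g := fun q => (D.P h 0).Pr (fun w => q % 5 = 1 ∧
      2 * (D.P h 0).m (NPq D v (q + 1)) w < (D.P h 0).m (NPq D v q) w)) (by norm_num)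
    (fun q => FP.Pr_nonneg _ _) T fun t _ => ?_) (CKB.light_pub hn hN1 R H 0)
  have e1 : (D.P h t).Pr (fun w => ¬ HV h v t w) = (D.P h 0).Pr (fun w => ¬ HV h v t w) := by
    unfold FP.Pr
    refine E_xy h (fun x y F F' => ?_) t 0
    show ind (¬ HV h v t (x, y, F)) = ind (¬ HV h v t (x, y, F'))
    rw [HV_xy t x y F F']
  rw [e1]
  refine FP.Pr_mono _ fun w _ hw => ⟨by omega, ?_⟩
  have e2 : ∀ q, (D.P h t).m (NPq D v q) w = (D.P h 0).m (NPq D v q) w := fun q => TP.m_xy h (xy_NPq q) t 0 w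
  have h3 : ¬ ((D.P h t).m (NPq D v (5 * t + 1)) w ≤ 2 * (D.P h t).m (NPq D v (5 * t + 2)) w) := hw
  rw [e2, e2] at h3
  exact not_le.1 h3

/-- **the number of light private values of a vertex** -/
theorem sum_lpv {n N1 : ℝ} (hn : 1 ≤ n) (hN1 : 1 ≤ N1) (R : Run h (pr3 (Fin 3) n N1) (SS1 (Fin 3)) (AdmDep D) v)
    {dg : ℕ → X → ℝ} {Lam : ℝ} (H : D.Hyp dg prr al T Lam) (i : Fin 3) :
    ∑ t ∈ range T, (D.P h t).Pr (lpv h v i t) ≤ 6 * n * Lam := by
  refine le_trans (sum_sub (j := 4) (g := fun q => (D.P h 0).Pr (fun w => q % 5 = rk {i} ∧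
      2 * (D.P h 0).m (CKB.NVq D v i (q + 1)) w < (D.P h 0).m (CKB.NVq D v i q) w)) (by norm_num)
    (fun q => FP.Pr_nonneg _ _) T fun t _ => ?_) (CKB.light_priv hn hN1 R H 0 i)
  have e1 : (D.P h t).Pr (lpv h v i t) = (D.P h 0).Pr (lpv h v i t) := by
    unfold FP.Pr
    refine E_xy h (fun x y F F' => ?_) t 0
    show ind (lpv h v i t (x, y, F)) = ind (lpv h v i t (x, y, F'))
    rw [lpv_xy i t x y F F']
  rw [e1]
  have key : ∀ i : Fin 3, rk {i} = 4 := by decide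
  refine FP.Pr_mono _ fun w _ hw => ⟨by rw [key i]; omega, ?_⟩
  have e2 : ∀ q, (D.P h t).m (fun u => (XLq v q i u, NPq D v q u)) w = (D.P h 0).m (CKB.NVq D v i q) w := fun q =>
    TP.m_xy h (f := fun u => (XLq v q i u, NPq D v q u)) (fun x y F F' => Prod.ext rfl (xy_NPq q x y F F')) t 0 w
  have h3 : 2 * (D.P h t).m (fun u => (XLq v (5 * t + 5) i u, NPq D v (5 * t + 5) u)) w <
    (D.P h t).m (fun u => (XLq v (5 * t + 4) i u, NPq D v (5 * t + 4) u)) w := hw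
  rw [e2, e2] at h3
  exact h3

end

end Pool.Agent.GMH.PRF
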