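import Pool.Agent.GMH.KDL
import Pool.Agent.GMH.Dyn
import Pool.Agent.GMH.KinF

/-!
# GMH/KDL2: the tables of the kinds are tables of the clocks (helper34)

At the true point of the space with label tables, state `q` with `q / 5 ≤ T`, law of the time `q / 5` :
* `sp_ZG`, `sp_Zb` : surprisals of the tops by `lt`; `pq3_lt`, `pq2_lt` : the log densities of `GMH/Dyn`;
* `pS_lt`, `pS_lt_of` : `KF.pS` (also at the tops of another point over the same thin labels).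
-/

set_option autoImplicit false
set_option linter.unusedSectionVars false

namespace Pool.Agent.GMH.KDL

open Finset Pool.Agent.PWZ Pool.Agent.M3 Pool.Agent.GM Pool.Agent.GM.Harm Pool.Agent.GMH Pool.Agent.GMH.NZ
open Pool.Agent.GMH.V3 Pool.Agent.GMH.TP Pool.Agent.GMH.TD Pool.Agent.GMH.Dy Pool.Agent.GMH.MV Pool.Agent.GMH.MVI
open Pool.Agent.GMH.CK

noncomputable section

variable {X β γ φ : Type} [Fintype X] [Fintype β] [Fintype φ] [Nonempty X] [Nonempty β]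
variable {D : HD (Fin 3) X β γ φ} {al : ℝ} {h : D.Thick al} {N : Finset (Fin 3) → ℝ} {SS : Finset (Finset (Fin 3))}
  {v : ℕ → Finset (Fin 3) → X → (Fin 3 → β) → Pt (Fin 3) X β φ}
variable {dg : ℕ → X → ℝ} {prr : ℕ → Fin 3 → φ → φ} {T : ℕ} {Lam : ℝ} {W : Type} [Fintype W] (tb : Tab D prr T W)
variable {d1 kb d0 k0 p1 z : ℝ} (hd1 : 0 < d1) (hd11 : d1 ≤ 1) (hkb : 0 < kb) (hd0 : 0 < d0) (hd01 : d0 ≤ 1) (hk0 : 0 < k0)
  (hp1 : 0 < p1) (hz : 0 < z)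

/-- surprisal of any name of the tops `A` -/
theorem sp_ZG (H : D.Hyp dg prr al T Lam) (R : Run h N SS (AdmDep D) v) (hS : ∀ l, univ.erase l ∈ SS) (hu : univ ∉ SS)
    (hN : ∀ l, 0 < N (univ.erase l)) {q : ℕ} (hq : q / 5 ≤ T) (A : Finset (Fin 3)) {w : Om W X β} (hw : tb.Ps.p w ≠ 0)
    {κ : Type*} {G : Pt (Fin 3) X β φ → κ}
    (hG : ∀ a b, G a = G b ↔ ∀ i ∈ A, FQ (φ := φ) v (q / 5) i a = FQ v (q / 5) i b) :
    sp (D.P h (q / 5)) G (ZQ D v q) (tb.pt (q / 5) w) =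
      - lt (MSi tb (v := v) d1 kb d0 k0 p1 z hd1 hd11 hkb hd0 hd01 hk0 hp1 hz) univ A q w := by
  have hpw := (pul_pt h tb hq).ne hw
  have h1 := tab_Z tb hd1 hd11 hkb hd0 hd01 hk0 hp1 hz H R hS hu hN hq A hw
  rw [Real.log_div ((D.P h (q / 5)).m_pos _ hpw).ne' ((D.P h (q / 5)).m_pos _ hpw).ne'] at h1
  have hFA : ∀ a b : Pt (Fin 3) X β φ, FA v (q / 5) A a = FA v (q / 5) A b ↔
      ∀ i ∈ A, FQ v (q / 5) i a = FQ v (q / 5) i b := by
    intro a b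
    unfold FA
    exact fin_eq (F := fun i => FQ v (q / 5) i) (S := A)
  have e : (D.P h (q / 5)).m (fun u => (G u, ZQ D v q u)) (tb.pt (q / 5) w) =
      (D.P h (q / 5)).m (fun u => (FA v (q / 5) A u, ZQ D v q u)) (tb.pt (q / 5) w) := by
    refine (D.P h (q / 5)).m_congr ?_ ?_ _
    · intro a b hab
      exact Prod.ext ((hFA a b).2 ((hG a b).1 (Prod.mk.inj hab).1)) (Prod.mk.inj hab).2
    · intro a b hab
      exact Prod.ext ((hG a b).2 ((hFA a b).1 (Prod.mk.inj hab).1)) (Prod.mk.inj hab).2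
  rw [← h1]
  unfold sp
  rw [e]
  ring

theorem sp_Zb (H : D.Hyp dg prr al T Lam) (R : Run h N SS (AdmDep D) v) (hS : ∀ l, univ.erase l ∈ SS) (hu : univ ∉ SS)
    (hN : ∀ l, 0 < N (univ.erase l)) {q : ℕ} (hq : q / 5 ≤ T) (i : Fin 3) {w : Om W X β} (hw : tb.Ps.p w ≠ 0) :
    sp (D.P h (q / 5)) (FQ v (q / 5) i) (ZbQ D v q i) (tb.pt (q / 5) w) =
      - lt (MSi tb (v := v) d1 kb d0 k0 p1 z hd1 hd11 hkb hd0 hd01 hk0 hp1 hz) (univ.erase i) {i} q w := by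
  have hpw := (pul_pt h tb hq).ne hw
  have h1 := tab_Zb tb hd1 hd11 hkb hd0 hd01 hk0 hp1 hz H R hS hu hN hq i hw
  rw [Real.log_div ((D.P h (q / 5)).m_pos _ hpw).ne' ((D.P h (q / 5)).m_pos _ hpw).ne'] at h1
  rw [← h1]
  unfold sp
  ring

/-- **the log density of the three true tops** -/
theorem pq3_lt (H : D.Hyp dg prr al T Lam) (R : Run h N SS (AdmDep D) v) (hS : ∀ l, univ.erase l ∈ SS) (hu : univ ∉ SS)
    (hN : ∀ l, 0 < N (univ.erase l)) {q : ℕ} (hq : q / 5 ≤ T) {w : Om W X β} (hw : tb.Ps.p w ≠ 0) :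
    pq3 h v tb q w = lt (MSi tb (v := v) d1 kb d0 k0 p1 z hd1 hd11 hkb hd0 hd01 hk0 hp1 hz) univ univ q w -
        ∑ i, lt (MSi tb (v := v) d1 kb d0 k0 p1 z hd1 hd11 hkb hd0 hd01 hk0 hp1 hz) (univ.erase i) {i} q w := by
  have hpw := (pul_pt h tb hq).ne hw
  unfold pq3
  rw [psC_true (D.P h (q / 5)) (FQ v (q / 5)) hpw,
    sp_ZG tb hd1 hd11 hkb hd0 hd01 hk0 hp1 hz H R hS hu hN hq univ hw (G := tup (FQ v (q / 5)))
      (fun a b => ⟨fun hh i _ => congrFun hh i, fun hh => funext fun i => hh i (mem_univ i)⟩),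
    Finset.sum_congr rfl fun i _ => sp_Zb tb hd1 hd11 hkb hd0 hd01 hk0 hp1 hz H R hS hu hN hq i hw,
    Finset.sum_neg_distrib]
  ring

/-- **the log density of the two true tops which see the vertex `i0`** -/
theorem pq2_lt (H : D.Hyp dg prr al T Lam) (R : Run h N SS (AdmDep D) v) (hS : ∀ l, univ.erase l ∈ SS) (hu : univ ∉ SS)
    (hN : ∀ l, 0 < N (univ.erase l)) {q : ℕ} (hq : q / 5 ≤ T) (i0 : Fin 3) {w : Om W X β} (hw : tb.Ps.p w ≠ 0) :
    pq2 h v tb i0 q w =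
      lt (MSi tb (v := v) d1 kb d0 k0 p1 z hd1 hd11 hkb hd0 hd01 hk0 hp1 hz) univ (univ.erase i0) q w -
        ∑ i ∈ univ.erase i0,
          lt (MSi tb (v := v) d1 kb d0 k0 p1 z hd1 hd11 hkb hd0 hd01 hk0 hp1 hz) (univ.erase i) {i} q w := by
  have hpw := (pul_pt h tb hq).ne hw
  have hFo : ∀ a b : Pt (Fin 3) X β φ, tup (Fo (FQ v (q / 5)) i0) a = tup (Fo (FQ v (q / 5)) i0) b ↔
      ∀ i ∈ univ.erase i0, FQ v (q / 5) i a = FQ v (q / 5) i b := by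
    intro a b
    constructor
    · intro hh i hi
      have h1 : Fo (FQ v (q / 5)) i0 i a = Fo (FQ v (q / 5)) i0 i b := congrFun hh i
      unfold Fo at h1
      rw [if_neg (Finset.ne_of_mem_erase hi), if_neg (Finset.ne_of_mem_erase hi)] at h1
      exact Option.some.inj h1
    · intro hh
      funext i
      show Fo (FQ v (q / 5)) i0 i a = Fo (FQ v (q / 5)) i0 i b
      unfold Fo
      by_cases hi : i = i0
      · rw [if_pos hi, if_pos hi]
      · rw [if_neg hi, if_neg hi, hh i (Finset.mem_erase.2 ⟨hi, mem_univ i⟩)]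
  unfold pq2
  rw [psC_true (D.P h (q / 5)) (Fo (FQ v (q / 5)) i0) hpw,
    sp_ZG tb hd1 hd11 hkb hd0 hd01 hk0 hp1 hz H R hS hu hN hq (univ.erase i0) hw (G := tup (Fo (FQ v (q / 5)) i0)) hFo]
  have e0 : sp (D.P h (q / 5)) (Fo (FQ v (q / 5)) i0 i0) (ZbQ D v q i0) (tb.pt (q / 5) w) = 0 := by
    unfold sp
    have e1 : (D.P h (q / 5)).m (fun u => (Fo (FQ v (q / 5)) i0 i0 u, ZbQ D v q i0 u)) (tb.pt (q / 5) w) =
        (D.P h (q / 5)).m (ZbQ D v q i0) (tb.pt (q / 5) w) := by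
      refine (D.P h (q / 5)).m_congr (Fac.snd _ _) ?_ _
      intro a b hab
      refine Prod.ext ?_ hab
      show Fo (FQ v (q / 5)) i0 i0 a = Fo (FQ v (q / 5)) i0 i0 b
      unfold Fo
      rw [if_pos rfl, if_pos rfl]
    rw [e1]
    ring
  have e2 : ∑ i, sp (D.P h (q / 5)) (Fo (FQ v (q / 5)) i0 i) (ZbQ D v q i) (tb.pt (q / 5) w) =
      ∑ i ∈ univ.erase i0, - lt (MSi tb (v := v) d1 kb d0 k0 p1 z hd1 hd11 hkb hd0 hd01 hk0 hp1 hz) (univ.erase i) {i} q w := by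
    rw [← Finset.add_sum_erase univ _ (mem_univ i0), e0, zero_add]
    refine Finset.sum_congr rfl fun i hi => ?_
    rw [Fo_ne (D.P h (q / 5)) (FQ v (q / 5)) (Finset.ne_of_mem_erase hi),
      sp_Zb tb hd1 hd11 hkb hd0 hd01 hk0 hp1 hz H R hS hu hN hq i hw]
  rw [e2, Finset.sum_neg_distrib]
  ring

/-- **the probability of the true tops of `A`** -/
theorem pS_lt (H : D.Hyp dg prr al T Lam) (R : Run h N SS (AdmDep D) v) (hS : ∀ l, univ.erase l ∈ SS) (hu : univ ∉ SS)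
    (hN : ∀ l, 0 < N (univ.erase l)) {q : ℕ} (hq : q / 5 ≤ T) (A : Finset (Fin 3)) {w : Om W X β} (hw : tb.Ps.p w ≠ 0) :
    KF.pS (D.P h (q / 5)) (ZQ D v q) (FQ v (q / 5)) A (tb.pt (q / 5) w) (tup (FQ v (q / 5)) (tb.pt (q / 5) w)) =
      Real.exp (lt (MSi tb (v := v) d1 kb d0 k0 p1 z hd1 hd11 hkb hd0 hd01 hk0 hp1 hz) univ A q w) := by
  have hpw := (pul_pt h tb hq).ne hw
  have h1 := tab_Z tb hd1 hd11 hkb hd0 hd01 hk0 hp1 hz H R hS hu hN hq A hw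
  rw [← h1, Real.exp_log (div_pos ((D.P h (q / 5)).m_pos _ hpw) ((D.P h (q / 5)).m_pos _ hpw))]
  unfold KF.pS FP.ce
  congr 1
  unfold FP.m
  refine (D.P h (q / 5)).E_congr fun u _ => ?_
  rw [← ind_and]
  refine congrArg ind (propext ?_)
  constructor
  · rintro ⟨g1, g2⟩
    refine Prod.ext (funext fun i => ?_) g1
    show FA v (q / 5) A u i = FA v (q / 5) A (tb.pt (q / 5) w) i
    unfold FA
    by_cases hi : i ∈ A
    · rw [if_pos hi, if_pos hi, show FQ v (q / 5) i u = FQ v (q / 5) i (tb.pt (q / 5) w) from g2 i hi]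
    · rw [if_neg hi, if_neg hi]
  · intro hab
    refine ⟨(Prod.mk.inj hab).2, fun i hi => ?_⟩
    have g1 : FA v (q / 5) A u i = FA v (q / 5) A (tb.pt (q / 5) w) i := congrFun (Prod.mk.inj hab).1 i
    unfold FA at g1
    rw [if_pos hi, if_pos hi] at g1
    exact Option.some.inj g1

/-- the same at the tops of another point over the same thin labels -/
theorem pS_lt_of (H : D.Hyp dg prr al T Lam) (R : Run h N SS (AdmDep D) v) (hS : ∀ l, univ.erase l ∈ SS) (hu : univ ∉ SS)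
    (hN : ∀ l, 0 < N (univ.erase l)) {q : ℕ} (hq : q / 5 ≤ T) (A : Finset (Fin 3)) {w w' : Om W X β}
    (hw' : tb.Ps.p w' ≠ 0) (hZ : ZQ D v q (tb.pt (q / 5) w) = ZQ D v q (tb.pt (q / 5) w')) :
    KF.pS (D.P h (q / 5)) (ZQ D v q) (FQ v (q / 5)) A (tb.pt (q / 5) w) (tup (FQ v (q / 5)) (tb.pt (q / 5) w')) =
      Real.exp (lt (MSi tb (v := v) d1 kb d0 k0 p1 z hd1 hd11 hkb hd0 hd01 hk0 hp1 hz) univ A q w') := by
  rw [← pS_lt tb hd1 hd11 hkb hd0 hd01 hk0 hp1 hz H R hS hu hN hq A hw']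
  exact KF.pS_fac (D.P h (q / 5)) (FQ v (q / 5)) A _ _ _ hZ

end

end Pool.Agent.GMH.KDL
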