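import Pool.Agent.GMH.Key3S
import Pool.Agent.GMH.ConB

/-!
# GMH.Key3L: the losses of the tops over the thin letters on the run (helper78)

* `lossC_sp` : the pointwise loss by conditional informations; `lossC_split` : CHAIN FORM, the tops other than `i0` over
  their own letters, then the top `i0` over all thin letters and the other tops; `norm_easy` : the normalisation when all
  active tuples are cut;
* `lossA_le` : the loss of the additions of one time on the alive points is at most `E al lossC`, `lossC` = loss of the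
  thin additions for the three tops;
* `corA_eq` : the correction of the digit is the normalisation on the good points plus `E al lossC` of the digit off the
  good points, with the exponents `gT`, `gT'`.
-/

set_option autoImplicit false
set_option linter.unusedSectionVars false
set_option linter.unusedVariables false

namespace Pool.Agent.GMH

open Finset Pool.Agent.PWZ Pool.Agent.M3 Pool.Agent.GM Pool.Agent.GM.Harm

noncomputable section

section comp

variable {Om : Type*} [Fintype Om] (P : FP Om) {I α β γ φ ν : Type*} [Fintype I] [DecidableEq I]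
  {Z : Om → β} {Zb : I → Om → α} (F : I → Om → φ) {Y : I → Om → γ} {V : Om → ν}

theorem log_ratio_sp {κ ι ι' : Type*} {A : Om → ι} {A' : Om → ι'} {X : Om → κ} {w : Om} (hw : P.p w ≠ 0) :
    Real.log (P.pv A' X w (X w) / P.pv A X w (X w)) = sp P X A w - sp P X A' w := by
  have m1 := P.m_pos A hw
  have m2 := P.m_pos A' hw
  have m3 := P.m_pos (fun u => (X u, A u)) hw
  have m4 := P.m_pos (fun u => (X u, A' u)) hw
  rw [P.pv_self, P.pv_self, Real.log_div (div_pos m4 m2).ne' (div_pos m3 m1).ne', Real.log_div m4.ne' m2.ne',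
    Real.log_div m3.ne' m1.ne']
  unfold sp
  ring

/-- the loss by conditional informations -/
theorem lossC_sp {w : Om} (hw : P.p w ≠ 0) : lossC P Z Zb F Y V w =
    ∑ i, (sp P (F i) (Zb i) w - sp P (F i) (fun u => (Y i u, Zb i u)) w) -
      (sp P (tup F) Z w - sp P (tup F) (fun u => (V u, Z u)) w) := by
  unfold lossC
  rw [log_ratio_sp P (A := Z) (A' := fun u => (V u, Z u)) (X := tup F) hw]
  congr 1
  exact Finset.sum_congr rfl fun i _ => log_ratio_sp P (A := Zb i) (A' := fun u => (Y i u, Zb i u)) (X := F i) hw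

/-- the tops other than `i0` -/
def Fo (i0 i : I) (w : Om) : Option φ := if i = i0 then none else some (F i w)

theorem Fo_ne {i0 i : I} (hne : i ≠ i0) {ι : Type*} (A : Om → ι) (w : Om) : sp P (Fo F i0 i) A w = sp P (F i) A w := by
  have h1 : Fac (Fo F i0 i) (F i) := by
    intro a b hab
    unfold Fo at hab
    rw [if_neg hne, if_neg hne] at hab
    exact Option.some.inj hab
  have h2 : Fac (F i) (Fo F i0 i) := by
    intro a b hab
    unfold Fo
    rw [hab]
  exact sp_congr P (fun a b hab => by simp only [Prod.mk.injEq] at hab; exact h1 a b hab.1) (Fac.refl A)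
    (fun a b hab => by simp only [Prod.mk.injEq] at hab; exact h2 a b hab.1) (Fac.refl A) w

theorem Fo_self {i0 : I} {ι : Type*} (A : Om → ι) (w : Om) : sp P (Fo F i0 i0) A w = 0 :=
  sp_const P (fun a b _ => by unfold Fo; rw [if_pos rfl, if_pos rfl]) w

theorem Fo_chain (i0 : I) {ι : Type*} (A : Om → ι) (w : Om) : sp P (tup F) A w = sp P (tup (Fo F i0)) A w +
    sp P (tup (fun _ : Unit => F i0)) (fun u => (tup (Fo F i0) u, A u)) w := by
  have h1 := sp_chain P (tup (fun _ : Unit => F i0)) (tup (Fo F i0)) A w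
  rw [← h1]
  refine sp_congr P ?_ (Fac.refl A) ?_ (Fac.refl A) w
  · intro a b hab
    simp only [Prod.mk.injEq] at hab ⊢
    refine ⟨funext fun _ => congrFun hab.1 i0, funext fun i => ?_⟩
    show Fo F i0 i a = Fo F i0 i b
    unfold Fo
    rw [show F i a = F i b from congrFun hab.1 i]
  · intro a b hab
    simp only [Prod.mk.injEq] at hab
    refine funext fun i => ?_
    by_cases hi : i = i0
    · subst hi
      exact congrFun hab.1.1 ()
    · have := congrFun hab.1.2 i
      have h2 : Fo F i0 i a = Fo F i0 i b := this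
      unfold Fo at h2
      rw [if_neg hi, if_neg hi] at h2
      exact Option.some.inj h2

/-- **CHAIN FORM** -/
theorem lossC_split (i0 : I) {w : Om} (hw : P.p w ≠ 0) : lossC P Z Zb F Y V w =
    lossC P Z Zb (Fo F i0) Y V w +
      lossC P (fun u => (tup (Fo F i0) u, Z u)) (fun _ : Unit => Zb i0) (fun _ => F i0) (fun _ => Y i0) V w := by
  rw [lossC_sp P F hw, lossC_sp P (Fo F i0) hw, lossC_sp P (fun _ : Unit => F i0) hw]
  have e1 : ∀ i ∈ univ.erase i0, sp P (Fo F i0 i) (Zb i) w - sp P (Fo F i0 i) (fun u => (Y i u, Zb i u)) w =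
      sp P (F i) (Zb i) w - sp P (F i) (fun u => (Y i u, Zb i u)) w := by
    intro i hi
    rw [Fo_ne P F (Finset.ne_of_mem_erase hi), Fo_ne P F (Finset.ne_of_mem_erase hi)]
  have e2 : sp P (Fo F i0 i0) (Zb i0) w - sp P (Fo F i0 i0) (fun u => (Y i0 u, Zb i0 u)) w = 0 := by
    rw [Fo_self, Fo_self, sub_zero]
  rw [← Finset.add_sum_erase univ _ (mem_univ i0), ← Finset.add_sum_erase univ (fun i => sp P (Fo F i0 i) (Zb i) w -
    sp P (Fo F i0 i) (fun u => (Y i u, Zb i u)) w) (mem_univ i0), e2, Finset.sum_congr rfl e1]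
  simp only [Finset.univ_unique, Finset.sum_singleton]
  have k1 := Fo_chain P F i0 Z w
  have k2 := Fo_chain P F i0 (fun u => (V u, Z u)) w
  have k3 : sp P (tup (fun _ : Unit => F i0)) (fun u => (tup (Fo F i0) u, (V u, Z u))) w =
      sp P (tup (fun _ : Unit => F i0)) (fun u => (V u, (tup (Fo F i0) u, Z u))) w := by
    refine sp_congr P (by intro a b hab; simp only [Prod.mk.injEq] at hab; exact hab.1) ?_
      (by intro a b hab; simp only [Prod.mk.injEq] at hab; exact hab.1) ?_ w
    · intro a b hab; simp only [Prod.mk.injEq] at hab ⊢; tauto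
    · intro a b hab; simp only [Prod.mk.injEq] at hab ⊢; tauto
  rw [k3] at k2
  rw [k1, k2]
  ring

/-- the normalisation when all active tuples are cut -/
theorem norm_easy {al : Om → ℝ} (h0 : ∀ w, 0 ≤ al w) {eta e1 : ℝ} (heta : 0 < eta) (he1 : 0 ≤ e1)
    {Reg : Om → (I → φ) → Prop} {a : Om → ℝ} (ha : ∀ w, 0 ≤ a w)
    (hR : ∀ w, P.p w ≠ 0 → ∀ f ∈ let_ F, ¬ Reg w f → ∀ i,
      P.pv (fun u => (Y i u, Zb i u)) (F i) w (f i) ≤ (1 + e1) * P.pv (Zb i) (F i) w (f i)) :
    P.E (fun w => al w * ∑ f ∈ let_ F, (∏ i, P.pv (fun u => (Y i u, Zb i u)) (F i) w (f i)) *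
      (a w * (G0C P Z Zb F eta Reg w f - 1))) ≤ P.E (fun w => al w * (a w * ((1 + e1) ^ Fintype.card I - 1 + eta))) := by
  refine P.E_mono fun w hw => mul_le_mul_of_nonneg_left ?_ (h0 w)
  have hone : ∑ f ∈ let_ F, ∏ i, P.pv (fun u => (Y i u, Zb i u)) (F i) w (f i) = 1 := by
    unfold let_
    rw [← Finset.prod_univ_sum (fun i => vals (F i)) (fun i x => P.pv (fun u => (Y i u, Zb i u)) (F i) w x)]
    exact Finset.prod_eq_one fun i _ => P.pv_sum _ _ hw
  have hp1 : ∑ f ∈ let_ F, P.pv Z (tup F) w f = 1 := by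
    have h := sum_tup P (W := Z) F (F := fun _ _ => 1) (fun _ _ _ _ => rfl) w
    simp only [mul_one] at h
    rw [P.ce_const _ 1 hw] at h
    exact h
  have e1' : ∑ f ∈ let_ F, (∏ i, P.pv (fun u => (Y i u, Zb i u)) (F i) w (f i)) * (a w * (G0C P Z Zb F eta Reg w f - 1)) =
      a w * (∑ f ∈ let_ F, (∏ i, P.pv (fun u => (Y i u, Zb i u)) (F i) w (f i)) * G0C P Z Zb F eta Reg w f - 1) := by
    have e2 : ∀ f ∈ let_ F, (∏ i, P.pv (fun u => (Y i u, Zb i u)) (F i) w (f i)) *
        (a w * (G0C P Z Zb F eta Reg w f - 1)) =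
        a w * ((∏ i, P.pv (fun u => (Y i u, Zb i u)) (F i) w (f i)) * G0C P Z Zb F eta Reg w f) -
          a w * ∏ i, P.pv (fun u => (Y i u, Zb i u)) (F i) w (f i) := fun f _ => by ring
    rw [Finset.sum_congr rfl e2, Finset.sum_sub_distrib, ← Finset.mul_sum, ← Finset.mul_sum, hone]
    ring
  rw [e1']
  refine mul_le_mul_of_nonneg_left ?_ (ha w)
  have h2 : ∑ f ∈ let_ F, (∏ i, P.pv (fun u => (Y i u, Zb i u)) (F i) w (f i)) * G0C P Z Zb F eta Reg w f ≤
      ∑ f ∈ let_ F, ((1 + e1) ^ Fintype.card I * P.pv Z (tup F) w f +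
        eta * ∏ i, P.pv (fun u => (Y i u, Zb i u)) (F i) w (f i)) := by
    refine Finset.sum_le_sum fun f hf => ?_
    have g1 : 0 ≤ ∏ i, P.pv (fun u => (Y i u, Zb i u)) (F i) w (f i) := Finset.prod_nonneg fun i _ => P.pv_nonneg _ _ _ _
    have g2 : 0 ≤ P.pv Z (tup F) w f := P.pv_nonneg _ _ _ _
    have g3 : 0 ≤ (1 + e1) ^ Fintype.card I := by positivity
    by_cases hRf : Reg w f
    · have g4 := mul_le_mul_of_nonneg_left (G0C_on P F (Z := Z) (Zb := Zb) (w := w) heta hRf) g1
      have g5 := mul_nonneg g3 g2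
      linarith
    · rw [G0C_off P F hRf]
      have g4 : ∏ i, P.pv (fun u => (Y i u, Zb i u)) (F i) w (f i) ≤ ∏ i, ((1 + e1) * P.pv (Zb i) (F i) w (f i)) :=
        Finset.prod_le_prod (fun i _ => P.pv_nonneg _ _ _ _) fun i _ => hR w hw f hf hRf i
      rw [Finset.prod_mul_distrib, Finset.prod_const, Finset.card_univ] at g4
      have g6 : 0 ≤ P.pv Z (tup F) w f / ∏ i, P.pv (Zb i) (F i) w (f i) :=
        div_nonneg g2 (Finset.prod_nonneg fun i _ => P.pv_nonneg _ _ _ _)
      have g7 := mul_le_mul_of_nonneg_right g4 g6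
      have g8 : (∏ i, P.pv (Zb i) (F i) w (f i)) * (P.pv Z (tup F) w f / ∏ i, P.pv (Zb i) (F i) w (f i)) ≤
          P.pv Z (tup F) w f := by
        by_cases hz : ∏ i, P.pv (Zb i) (F i) w (f i) = 0
        · rw [hz, zero_mul]; exact g2
        · rw [mul_div_cancel₀ _ hz]
      have g9 := mul_le_mul_of_nonneg_left g8 g3
      have g10 := mul_nonneg heta.le g1
      calc (∏ i, P.pv (fun u => (Y i u, Zb i u)) (F i) w (f i)) * (P.pv Z (tup F) w f / ∏ i, P.pv (Zb i) (F i) w (f i)) ≤
          (1 + e1) ^ Fintype.card I * (∏ i, P.pv (Zb i) (F i) w (f i)) *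
            (P.pv Z (tup F) w f / ∏ i, P.pv (Zb i) (F i) w (f i)) := g7
        _ = (1 + e1) ^ Fintype.card I * ((∏ i, P.pv (Zb i) (F i) w (f i)) *
            (P.pv Z (tup F) w f / ∏ i, P.pv (Zb i) (F i) w (f i))) := by ring
        _ ≤ _ := by linarith
  rw [Finset.sum_add_distrib, ← Finset.mul_sum, ← Finset.mul_sum, hone, hp1] at h2
  linarith

theorem ce_two_ind {κ ι : Type*} (W : Om → ι) (X : Om → κ) (c : κ) {w : Om} (hw : P.p w ≠ 0) :
    P.ce W (fun w => 2 * ind (X w = c) - 1) w = 2 * P.pv W X w c - 1 := by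
  have e1 := P.ce_sub W (fun w => 2 * ind (X w = c)) (fun _ => (1 : ℝ)) w
  have e2 := P.ce_smul W 2 (fun w => ind (X w = c)) w
  have e3 := P.ce_const W 1 hw
  have e4 : P.ce W (fun w => 2 * ind (X w = c) - 1) w =
      P.ce W (fun w => 2 * ind (X w = c)) w - P.ce W (fun _ => (1 : ℝ)) w := e1
  rw [e4, e2, e3]
  rfl

end comp

/-! ## the run -/

section run

variable {K X β γ φ υ : Type} [Fintype K] [DecidableEq K] [Fintype X] [Fintype β] [Fintype φ] [Nonempty X] [Nonempty β]
  {D : HD K X β γ φ} {al : ℝ} (h : D.Thick al) {dg : ℕ → X → ℝ} {prr : ℕ → K → φ → φ} {T : ℕ} {Lam : ℝ}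
  {v : ℕ → Finset K → X → (K → β) → υ} {t : ℕ}

theorem sum_top3 (hK : Fintype.card K = 3) (f : Finset K → ℝ) :
    ∑ J ∈ univ.filter (fun J : Finset K => J ≠ univ ∧ ¬ pth J), f J = ∑ j, f (univ.erase j) := by
  refine (Finset.sum_bij (fun j _ => univ.erase j) ?_ ?_ ?_ (fun _ _ => rfl)).symm
  · intro j _
    exact Finset.mem_filter.2 ⟨mem_univ _, ne_univ j, pth_er hK j⟩
  · intro i _ i' _ hij
    exact erase_inj' hij
  · intro J hJ
    obtain ⟨_, h1, h2⟩ := Finset.mem_filter.1 hJ
    unfold pth at h2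
    have h3 : ∃ j, j ∉ J := by
      by_contra hc
      push Not at hc
      exact h1 (Finset.eq_univ_of_forall hc)
    obtain ⟨j, hj⟩ := h3
    refine ⟨j, mem_univ j, ?_⟩
    symm
    refine Finset.eq_of_subset_of_card_le (fun k hk => Finset.mem_erase.2 ⟨fun hh => hj (hh ▸ hk), mem_univ k⟩) ?_
    rw [card_er hK]
    omega

theorem lt_pth (hK : Fintype.card K = 3) {I J : Finset K} (hJ : J ≠ univ) (hI : I ⊂ J) : pth I := by
  unfold pth
  have h1 := Finset.card_lt_card hI
  have h2 : J.card < Fintype.card K := by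
    rw [← Finset.card_univ]
    exact Finset.card_lt_card (lt_of_le_of_ne (Finset.subset_univ J) hJ)
  omega

/-- conditional laws given the base information -/
theorem pv_base {s : ℕ} (hts : t ≤ s) {κ ι : Type*} {J : Finset K} {X' : Pt K X β φ → κ} {R : Pt K X β φ → ι}
    (hX : Fac (fun w => (AA J w, BB D s J w)) X') (hR : Fac (fun w => (AA J w, BB D s J w)) R)
    {w : Pt K X β φ} (hw : (D.P h t).p w ≠ 0) (c : κ) :
    (D.P h t).pv (fun w => (R w, WW D s w)) X' w c = (D.P h t).pv (fun w => (R w, BB D s J w)) X' w c := by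
  classical
  have h1 := ce_base h (J := J) (t := t) (s := s) hts (f := fun w : Pt K X β φ => 2 * ind (X' w = c) - 1) (R := R)
    (fun w _ => by
      by_cases hc : X' w = c
      · rw [ind_of hc]; left; norm_num
      · rw [ind_not hc]; right; norm_num)
    (fun a b hab => by
      show 2 * ind (X' a = c) - 1 = 2 * ind (X' b = c) - 1
      rw [hX a b hab]) hR hw
  rw [ce_two_ind _ _ _ _ hw, ce_two_ind _ _ _ _ hw] at h1
  linarith

theorem sp_base {s : ℕ} (hts : t ≤ s) {κ ι : Type*} {J : Finset K} {X' : Pt K X β φ → κ} {R : Pt K X β φ → ι}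
    (hX : Fac (fun w => (AA J w, BB D s J w)) X') (hR : Fac (fun w => (AA J w, BB D s J w)) R)
    {w : Pt K X β φ} (hw : (D.P h t).p w ≠ 0) :
    sp (D.P h t) X' (fun w => (R w, WW D s w)) w = sp (D.P h t) X' (fun w => (R w, BB D s J w)) w := by
  have h1 := pv_base h hts hX hR hw (X' w)
  rw [FP.pv_self, FP.pv_self] at h1
  have m1 := (D.P h t).m_pos (fun w => (R w, WW D s w)) hw
  have m2 := (D.P h t).m_pos (fun w => (R w, BB D s J w)) hw
  have m3 := (D.P h t).m_pos (fun u => (X' u, (R u, WW D s u))) hw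
  have m4 := (D.P h t).m_pos (fun u => (X' u, (R u, BB D s J u))) hw
  have h2 := congrArg Real.log h1
  rw [Real.log_div m3.ne' m1.ne', Real.log_div m4.ne' m2.ne'] at h2
  unfold sp
  linarith

variable (D v) (e : Fin 3 ≃ K)

/-- all thin letters of the classes before the time `s`, node of the time `n` -/
def ZT (s n : ℕ) (w : Pt K X β φ) : ({J : Finset K // pth J} → List υ × (K → Option φ)) × ((K → β) × (γ × (K → γ))) :=
  (all (LP pth (LL (Um v s))) w, WW D n w)

/-- what the top without the vertex `e i` sees -/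
def ZbT (s n : ℕ) (i : Fin 3) (w : Pt K X β φ) :
    (Finset K → Option (List υ × (K → Option φ))) × ((K → Option β) × (γ × (K → γ))) :=
  (lo (LL (Um v s)) (univ.erase (e i)) w, BB D n (univ.erase (e i)) w)

omit D in
/-- the top letters -/
def FT (s : ℕ) (i : Fin 3) (w : Pt K X β φ) : List υ × (K → Option φ) := LL (Um v s) (univ.erase (e i)) w

omit D in
/-- the thin additions which the top sees -/
def YT (s : ℕ) (i : Fin 3) (w : Pt K X β φ) : Finset K → Option (List υ × (K → Option φ)) :=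
  lo (LL (Um v s)) (univ.erase (e i)) w

omit D in
/-- all thin letters -/
def VT (s : ℕ) (w : Pt K X β φ) : {J : Finset K // pth J} → List υ × (K → Option φ) := all (LP pth (LL (Um v s))) w

variable {D v} {e}

theorem lo_thin (hK : Fintype.card K = 3) {s : ℕ} {J : Finset K} (hJ : J ≠ univ) {a b : Pt K X β φ}
    (hab : all (LP pth (LL (φ := φ) (Um v s))) a = all (LP pth (LL (Um v s))) b) :
    lo (LL (φ := φ) (Um v s)) J a = lo (LL (Um v s)) J b :=
  lo_eq.2 fun I hI => congrFun hab ⟨I, lt_pth hK hJ hI⟩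

theorem ZT_Zb (hK : Fintype.card K = 3) (s n : ℕ) (i : Fin 3) : Fac (ZT (φ := φ) D v s n) (ZbT D v e s n i) := by
  intro a b hab
  have h1 : all (LP pth (LL (φ := φ) (Um v s))) a = all (LP pth (LL (Um v s))) b := congrArg Prod.fst hab
  have h2 : WW D n a = WW D n b := congrArg Prod.snd hab
  exact Prod.ext (lo_thin hK (ne_univ (e i)) h1) (WW_BB D n _ a b h2)

theorem VT_Y (hK : Fintype.card K = 3) (s : ℕ) (i : Fin 3) : Fac (VT (φ := φ) v s) (YT v e s i) := fun a b hab =>
  lo_thin hK (ne_univ (e i)) hab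

theorem LL_mono {s s' : ℕ} (hs : s ≤ s') {I : Finset K} {a b : Pt K X β φ}
    (hab : LL (φ := φ) (Um v s') I a = LL (Um v s') I b) : LL (φ := φ) (Um v s) I a = LL (Um v s) I b := by
  rw [LL_eq] at hab ⊢
  refine ⟨?_, hab.2⟩
  have h1 := hab.1
  unfold Um at h1 ⊢
  rw [List.map_inj_left] at h1 ⊢
  exact fun r hr => h1 r (List.mem_range.2 (by have := List.mem_range.1 hr; omega))

/-- the pointwise loss of thin additions -/
theorem iR_lossC (hK : Fintype.card K = 3) (hv : Codes D v) {s : ℕ} (hts : t ≤ s) {n n' : ℕ} (hn : n ≤ n') (hn' : n' ≤ s + 1)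
    {w : Pt K X β φ} (hw : (D.P h t).p w ≠ 0) :
    iR (D.P h t) (fun J : Finset K => J ≠ univ) pth (LL (Um v n)) (WW D s) w -
      iR (D.P h t) (fun J : Finset K => J ≠ univ) pth (fun J w => if pth J then LL (Um v n') J w else LL (Um v n) J w)
        (WW D s) w =
      lossC (D.P h t) (ZT D v n s) (ZbT D v e n s) (FT v e n) (YT v e n') (VT v n') w := by
  classical
  set P := D.P h t with hP
  set L : Finset K → Pt K X β φ → List υ × (K → Option φ) := LL (Um v n) with hL
  set L2 : Finset K → Pt K X β φ → List υ × (K → Option φ) := fun J w => if pth J then LL (Um v n') J w else LL (Um v n) J w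
    with hL2
  rw [lossC_sp P (FT v e n) hw]
  unfold iR
  rw [sum_top3 hK, sum_top3 hK]
  -- the tops one by one
  have hlo2 : ∀ {J : Finset K}, J ≠ univ → ∀ a b : Pt K X β φ, lo L2 J a = lo L2 J b ↔
      lo (LL (φ := φ) (Um v n')) J a = lo (LL (Um v n')) J b := by
    intro J hJ a b
    rw [lo_eq, lo_eq]
    refine forall₂_congr fun I hI => ?_
    have hI' := lt_pth hK hJ hI
    simp only [hL2]
    rw [if_pos hI', if_pos hI']
  have e1 : ∀ i : Fin 3, sp P (L (univ.erase (e i))) (fun w => (lo L (univ.erase (e i)) w, WW D s w)) w =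
      sp P (FT v e n i) (ZbT D v e n s i) w := fun i =>
    sp_base h hts (LL_AA hv (hn.trans hn') (Finset.Subset.refl _))
      (fun a b hab => lo_eq.2 fun I hI => LL_AA hv (hn.trans hn') hI.subset a b hab) hw
  have e2 : ∀ i : Fin 3, sp P (L2 (univ.erase (e i))) (fun w => (lo L2 (univ.erase (e i)) w, WW D s w)) w =
      sp P (FT v e n i) (fun u => (YT v e n' i u, ZbT D v e n s i u)) w := by
    intro i
    have k1 : sp P (L2 (univ.erase (e i))) (fun w => (lo L2 (univ.erase (e i)) w, WW D s w)) w =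
        sp P (L (univ.erase (e i))) (fun w => (lo (LL (Um v n')) (univ.erase (e i)) w, WW D s w)) w := by
      have hne : ¬ pth (univ.erase (e i) : Finset K) := pth_er hK (e i)
      refine sp_congr P ?_ ?_ ?_ ?_ w
      · intro a b hab
        simp only [Prod.mk.injEq, hL2] at hab
        have := hab.1
        rw [if_neg hne, if_neg hne] at this
        exact this
      · intro a b hab
        simp only [Prod.mk.injEq] at hab ⊢
        exact ⟨(hlo2 (ne_univ (e i)) a b).1 hab.1, hab.2⟩
      · intro a b hab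
        simp only [Prod.mk.injEq] at hab
        show L2 (univ.erase (e i)) a = L2 (univ.erase (e i)) b
        simp only [hL2]
        rw [if_neg hne, if_neg hne]
        exact hab.1
      · intro a b hab
        simp only [Prod.mk.injEq] at hab ⊢
        exact ⟨(hlo2 (ne_univ (e i)) a b).2 hab.1, hab.2⟩
    rw [k1]
    have k2 := sp_base h hts (X' := L (univ.erase (e i))) (R := lo (LL (Um v n')) (univ.erase (e i)))
      (LL_AA hv (hn.trans hn') (Finset.Subset.refl _))
      (fun a b hab => lo_eq.2 fun I hI => LL_AA hv hn' hI.subset a b hab) hw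
    rw [k2]
    refine sp_congr P ?_ ?_ ?_ ?_ w
    · intro a b hab; simp only [Prod.mk.injEq] at hab; exact hab.1
    · intro a b hab
      simp only [Prod.mk.injEq] at hab
      have g1 : lo (LL (φ := φ) (Um v n)) (univ.erase (e i)) a = lo (LL (Um v n)) (univ.erase (e i)) b :=
        lo_eq.2 fun I hI => LL_mono hn (lo_eq.1 hab.1 I hI)
      show (YT v e n' i a, ZbT D v e n s i a) = (YT v e n' i b, ZbT D v e n s i b)
      unfold YT ZbT
      rw [hab.1, hab.2, g1]
    · intro a b hab; simp only [Prod.mk.injEq] at hab; exact hab.1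
    · intro a b hab
      have g : (YT v e n' i a, ZbT D v e n s i a) = (YT v e n' i b, ZbT D v e n s i b) := hab
      unfold YT ZbT at g
      simp only [Prod.mk.injEq] at g ⊢
      exact ⟨g.1, g.2.2⟩
  have s1 : ∑ j, sp P (L (univ.erase j)) (fun w => (lo L (univ.erase j) w, WW D s w)) w =
      ∑ i, sp P (FT v e n i) (ZbT D v e n s i) w := by
    rw [← Equiv.sum_comp e]
    exact Finset.sum_congr rfl fun i _ => e1 i
  have s2 : ∑ j, sp P (L2 (univ.erase j)) (fun w => (lo L2 (univ.erase j) w, WW D s w)) w =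
      ∑ i, sp P (FT v e n i) (fun u => (YT v e n' i u, ZbT D v e n s i u)) w := by
    rw [← Equiv.sum_comp e]
    exact Finset.sum_congr rfl fun i _ => e2 i
  -- all tops
  have htup : ∀ a b : Pt K X β φ, tup (FT v e n) a = tup (FT v e n) b ↔
      ∀ J : Finset K, J ≠ univ → ¬ pth J → L J a = L J b := by
    intro a b
    constructor
    · intro hh J hJ hJ2
      have h3 : ∃ j, j ∉ J := by
        by_contra hc
        push Not at hc
        exact hJ (Finset.eq_univ_of_forall hc)
      obtain ⟨j, hj⟩ := h3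
      have h4 : J = univ.erase j := by
        refine Finset.eq_of_subset_of_card_le (fun k hk => Finset.mem_erase.2 ⟨fun hh => hj (hh ▸ hk), mem_univ k⟩) ?_
        rw [card_er hK]
        unfold pth at hJ2
        omega
      have h5 := congrFun hh (e.symm j)
      have h6 : FT v e n (e.symm j) a = FT v e n (e.symm j) b := h5
      unfold FT at h6
      rw [Equiv.apply_symm_apply] at h6
      rw [h4]
      exact h6
    · intro hh
      funext i
      exact hh _ (ne_univ (e i)) (pth_er hK (e i))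
  have e3 : sp P (all (LP (fun J : Finset K => J ≠ univ) L)) (fun w => (all (LP pth L) w, WW D s w)) w =
      sp P (tup (FT v e n)) (ZT D v n s) w := by
    have k1 : ∀ a b : Pt K X β φ, ZT D v n s a = ZT D v n s b ↔ all (LP pth L) a = all (LP pth L) b ∧
        WW D s a = WW D s b := by
      intro a b
      unfold ZT
      rw [Prod.mk.injEq]
    refine sp_congr P ?_ ?_ ?_ ?_ w
    · intro a b hab
      simp only [Prod.mk.injEq] at hab
      exact (htup a b).2 fun J hJ _ => congrFun hab.1 ⟨J, hJ⟩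
    · intro a b hab
      simp only [Prod.mk.injEq] at hab
      exact (k1 a b).2 hab
    · intro a b hab
      simp only [Prod.mk.injEq, k1] at hab
      refine funext fun J => ?_
      by_cases hJ : pth J.1
      · exact congrFun hab.2.1 ⟨J.1, hJ⟩
      · exact (htup a b).1 hab.1 J.1 J.2 hJ
    · intro a b hab
      simp only [Prod.mk.injEq]
      exact (k1 a b).1 hab
  have e4 : sp P (all (LP (fun J : Finset K => J ≠ univ) L2)) (fun w => (all (LP pth L2) w, WW D s w)) w =
      sp P (tup (FT v e n)) (fun u => (VT v n' u, ZT D v n s u)) w := by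
    have k1 : ∀ a b : Pt K X β φ, (VT v n' a, ZT D v n s a) = (VT v n' b, ZT D v n s b) ↔
        all (LP pth L2) a = all (LP pth L2) b ∧ WW D s a = WW D s b := by
      intro a b
      unfold ZT VT all LP
      simp only [Prod.mk.injEq, funext_iff, hL2]
      constructor
      · rintro ⟨g1, g2, g3⟩
        exact ⟨fun J => by rw [if_pos J.2, if_pos J.2]; exact g1 J, g3⟩
      · rintro ⟨g1, g3⟩
        have g2 : ∀ J : {J : Finset K // pth J}, LL (φ := φ) (Um v n') J.1 a = LL (Um v n') J.1 b := fun J => by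
          have := g1 J
          rw [if_pos J.2, if_pos J.2] at this
          exact this
        exact ⟨g2, fun J => LL_mono hn (g2 J), g3⟩
    refine sp_congr P ?_ ?_ ?_ ?_ w
    · intro a b hab
      simp only [Prod.mk.injEq] at hab
      refine (htup a b).2 fun J hJ hJ2 => ?_
      have := congrFun hab.1 ⟨J, hJ⟩
      have h5 : L2 J a = L2 J b := this
      simp only [hL2] at h5
      rw [if_neg hJ2, if_neg hJ2] at h5
      exact h5
    · intro a b hab
      simp only [Prod.mk.injEq] at hab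
      exact (k1 a b).2 hab
    · intro a b hab
      have hab1 : tup (FT v e n) a = tup (FT v e n) b := congrArg Prod.fst hab
      have hab2 := (k1 a b).1 (congrArg Prod.snd hab)
      refine funext fun J => ?_
      show L2 J.1 a = L2 J.1 b
      by_cases hJ : pth J.1
      · exact congrFun hab2.1 ⟨J.1, hJ⟩
      · simp only [hL2]
        rw [if_neg hJ, if_neg hJ]
        exact (htup a b).1 hab1 J.1 J.2 hJ
    · intro a b hab
      simp only [Prod.mk.injEq]
      exact (k1 a b).1 hab
  rw [s1, s2, e3, e4, Finset.sum_sub_distrib]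
  ring

/-- **THE LOSS OF THE ADDITIONS** of one time on the alive points -/
theorem lossA_le (hK : Fintype.card K = 3) (hv : Codes D v) (e : Fin 3 ≃ K) {a' : ℕ → Pt K X β φ → Prop}
    (fa' : Fac (ZT D v (t + 1) (t + 1)) (a' t)) :
    lossA h v (fun J : Finset K => J ≠ univ) pth a' t ≤ (D.P h t).E (fun w => ind (a' t w) *
      lossC (D.P h t) (ZT D v (t + 1) (t + 1)) (ZbT D v e (t + 1) (t + 1)) (FT v e (t + 1)) (YT v e (t + 2))
        (VT v (t + 2)) w) := by
  classical
  set L2 : Finset K → Pt K X β φ → List υ × (K → Option φ) :=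
    fun J w => if pth J then LL (Um v (t + 2)) J w else LL (Um v (t + 1)) J w with hL2
  have h1 : (D.P h t).E (fun w => ind (a' t w) * iR (D.P h t) (fun J : Finset K => J ≠ univ) pth L2 (WW D (t + 1)) w) ≤
      (D.P h t).E (fun w => ind (a' t w) * iR (D.P h t) (fun J : Finset K => J ≠ univ) pth (LL (Um v (t + 2)))
        (WW D (t + 1)) w) := by
    refine iR_grow (D.P h t) (fun J : Finset K => J ≠ univ) pth down_ne
      (V := fun J w => if pth J then none else some (LL (φ := φ) (Um v (t + 2)) J w)) ?_ ?_ ?_ (WW D (t + 1)) ?_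
    · intro J a b
      by_cases hJ : pth J
      · simp only [hL2]
        rw [if_pos hJ, if_pos hJ, if_pos hJ, if_pos hJ]
        exact ⟨fun hh => ⟨hh, rfl⟩, fun hh => hh.1⟩
      · simp only [hL2]
        rw [if_neg hJ, if_neg hJ, if_neg hJ, if_neg hJ]
        exact ⟨fun hh => ⟨LL_mono (Nat.le_succ _) hh, congrArg some hh⟩, fun hh => Option.some.inj hh.2⟩
    · intro J hJ a b
      rw [lo_eq]
      intro I hI
      show (if pth I then none else some (LL (φ := φ) (Um v (t + 2)) I a)) = if pth I then none else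
        some (LL (φ := φ) (Um v (t + 2)) I b)
      rw [if_pos (lt_pth hK hJ hI), if_pos (lt_pth hK hJ hI)]
    · intro J hJ a b
      show (if pth J then none else some (LL (φ := φ) (Um v (t + 2)) J a)) = if pth J then none else
        some (LL (φ := φ) (Um v (t + 2)) J b)
      rw [if_pos hJ, if_pos hJ]
    · intro a b hab
      simp only [Prod.mk.injEq] at hab
      refine fa' a b ?_
      refine Prod.ext (funext fun J => ?_) hab.2
      have := congrFun hab.1 ⟨J.1, pth_sub hK J.1 J.2⟩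
      have h2 : L2 J.1 a = L2 J.1 b := this
      simp only [hL2] at h2
      rw [if_pos J.2, if_pos J.2] at h2
      exact LL_mono (Nat.le_succ _) h2
  have h2 : lossA h v (fun J : Finset K => J ≠ univ) pth a' t ≤ (D.P h t).E (fun w => ind (a' t w) *
      (iR (D.P h t) (fun J : Finset K => J ≠ univ) pth (LL (Um v (t + 1))) (WW D (t + 1)) w -
        iR (D.P h t) (fun J : Finset K => J ≠ univ) pth L2 (WW D (t + 1)) w)) := by
    unfold lossA
    have g : ∀ A B : Pt K X β φ → ℝ, (D.P h t).E (fun w => ind (a' t w) * (A w - B w)) =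
        (D.P h t).E (fun w => ind (a' t w) * A w) - (D.P h t).E (fun w => ind (a' t w) * B w) := by
      intro A B
      rw [← FP.E_sub]
      exact (D.P h t).E_congr fun w _ => by ring
    rw [g, g]
    linarith
  refine h2.trans (le_of_eq ((D.P h t).E_congr fun w hw => ?_))
  rw [← iR_lossC h (e := e) hK hv (Nat.le_succ t) (Nat.le_succ (t + 1)) le_rfl hw]

/-- exponent of one sign off the good points -/
def gS (R b eps : ℝ) : ℝ := by
  classical
  exact if 0 < 1 + b then Real.log (R / (1 + b)) else if 0 < R then Real.log (R / eps) else 0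

theorem gS_le {R b eps : ℝ} (hR : 0 ≤ R) (hb : 0 ≤ 1 + b) (heps : 0 < eps) :
    R / 2 * Real.exp (-gS R b eps) ≤ (1 + b) / 2 + eps / 2 := by
  classical
  unfold gS
  by_cases h1 : 0 < 1 + b
  · rw [if_pos h1]
    rcases hR.eq_or_lt with h2 | h2
    · rw [← h2, zero_div, zero_mul]; linarith
    · rw [Real.exp_neg, Real.exp_log (div_pos h2 h1)]
      have : R / 2 * (R / (1 + b))⁻¹ = (1 + b) / 2 := by field_simp
      rw [this]; linarith
  · rw [if_neg h1]
    by_cases h2 : 0 < R
    · rw [if_pos h2, Real.exp_neg, Real.exp_log (div_pos h2 heps)]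
      have : R / 2 * (R / eps)⁻¹ = eps / 2 := by field_simp
      rw [this]; linarith
    · have h3 : R = 0 := le_antisymm (not_lt.1 h2) hR
      rw [h3, zero_div, zero_mul]; linarith

variable (v) in
open Classical in
/-- exponents of the correction: zero on the good points, the loss of the digit elsewhere (sign `s`) -/
def gTp (eps : ℝ) (Gd : Pt K X β φ → Prop) (dg : ℕ → X → ℝ) (s : ℝ) (t : ℕ) (w : Pt K X β φ) : ℝ :=
  if Gd w then 0 else
    gS ((1 + s * bp v pth h dg t w) * ∏ j : K, (1 + s * uu (UU v) h dg (univ.erase j) t w) /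
      (1 + s * ul (UU v) h dg (univ.erase j) t w)) (s * bp v (fun J : Finset K => J ≠ univ) h dg t w) eps

theorem FT_ce (H : D.Hyp dg prr al T Lam) (i : Fin 3) (w : Pt K X β φ) :
    (D.P h t).ce (fun u => (FT v e (t + 1) i u, ZbT D v e (t + 1) t i u)) (fun u => dg t u.1) w =
      uu (UU v) h dg (univ.erase (e i)) t w := by
  unfold uu
  refine (D.P h t).ce_congr_map ?_ ?_ _ w
  · intro a b hab
    rw [eJ_eq]
    simp only [Prod.mk.injEq] at hab
    obtain ⟨g1, g2⟩ := hab
    have g3 : lo (LL (φ := φ) (Um v (t + 1))) (univ.erase (e i)) a = lo (LL (Um v (t + 1))) (univ.erase (e i)) b :=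
      congrArg Prod.fst g2
    have g4 : BB D t (univ.erase (e i)) a = BB D t (univ.erase (e i)) b := congrArg Prod.snd g2
    exact ⟨le_eq'.2 ⟨g1, g3⟩, g4⟩
  · intro a b hab
    rw [eJ_eq] at hab
    have g := le_eq'.1 hab.1
    simp only [Prod.mk.injEq]
    exact ⟨g.1, Prod.ext g.2 hab.2⟩

theorem tup_ce (hK : Fintype.card K = 3) (w : Pt K X β φ) :
    (D.P h t).ce (fun u => (tup (FT v e (t + 1)) u, ZT D v (t + 1) t u)) (fun u => dg t u.1) w =
      bp v (fun J : Finset K => J ≠ univ) h dg t w := by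
  unfold bp
  refine (D.P h t).ce_congr_map ?_ ?_ _ w
  · intro a b hab
    simp only [Prod.mk.injEq] at hab ⊢
    obtain ⟨g1, g2⟩ := hab
    have g3 : all (LP pth (LL (φ := φ) (Um v (t + 1)))) a = all (LP pth (LL (Um v (t + 1)))) b := congrArg Prod.fst g2
    have g4 : WW D t a = WW D t b := congrArg Prod.snd g2
    refine ⟨funext fun J => ?_, g4⟩
    by_cases hJ : pth J.1
    · exact congrFun g3 ⟨J.1, hJ⟩
    · have h3 : ∃ j, j ∉ J.1 := by
        by_contra hc
        push Not at hc
        exact J.2 (Finset.eq_univ_of_forall hc)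
      obtain ⟨j, hj⟩ := h3
      have h4 : J.1 = univ.erase j := by
        refine Finset.eq_of_subset_of_card_le (fun k hk => Finset.mem_erase.2 ⟨fun hh => hj (hh ▸ hk), mem_univ k⟩) ?_
        rw [card_er hK]
        unfold pth at hJ
        omega
      have h5 : FT v e (t + 1) (e.symm j) a = FT v e (t + 1) (e.symm j) b := congrFun g1 (e.symm j)
      unfold FT at h5
      rw [Equiv.apply_symm_apply] at h5
      show LL (Um v (t + 1)) J.1 a = LL (Um v (t + 1)) J.1 b
      rw [h4]
      exact h5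
  · intro a b hab
    simp only [Prod.mk.injEq] at hab ⊢
    exact ⟨funext fun i => congrFun hab.1 ⟨univ.erase (e i), ne_univ (e i)⟩,
      Prod.ext (funext fun J => congrFun hab.1 ⟨J.1, pth_sub hK J.1 J.2⟩) hab.2⟩

/-- the pointwise loss of the digit -/
theorem lossC_dig (hK : Fintype.card K = 3) (H : D.Hyp dg prr al T Lam) {w : Pt K X β φ} (hw : (D.P h t).p w ≠ 0) :
    lossC (D.P h t) (ZT D v (t + 1) t) (ZbT D v e (t + 1) t) (FT v e (t + 1)) (fun _ u => dg t u.1) (fun u => dg t u.1) w =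
      ∑ i : Fin 3, Real.log ((1 + dg t w.1 * uu (UU v) h dg (univ.erase (e i)) t w) /
        (1 + dg t w.1 * ul (UU v) h dg (univ.erase (e i)) t w)) -
      Real.log ((1 + dg t w.1 * bp v (fun J : Finset K => J ≠ univ) h dg t w) / (1 + dg t w.1 * bp v pth h dg t w)) := by
  have hD : ∀ w, (D.P h t).p w ≠ 0 → (fun u : Pt K X β φ => dg t u.1) w = 1 ∨ (fun u : Pt K X β φ => dg t u.1) w = -1 :=
    fun w _ => H.dg_val t w.1
  unfold lossC
  congr 1
  · refine Finset.sum_congr rfl fun i _ => ?_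
    have h1 := real_r (D.P h t) (ZbT D v e (t + 1) t i) (FT v e (t + 1) i) (fun u : Pt K X β φ => dg t u.1) hw
      (FT v e (t + 1) i w)
    have h2 := rr_dig (D.P h t) (W := ZbT D v e (t + 1) t i) (X := FT v e (t + 1) i) hD (s := dg t w.1)
      (H.dg_val t w.1) hw
    rw [h1]
    show Real.log (rr (D.P h t) (ZbT D v e (t + 1) t i) (FT v e (t + 1) i) (fun u => dg t u.1) w (dg t w.1)
      (FT v e (t + 1) i w)) = _
    rw [h2, FT_ce h H, ul_ce h (ne_univ (e i))]
    rfl
  · have h1 := real_r (D.P h t) (ZT D v (t + 1) t) (tup (FT v e (t + 1))) (fun u : Pt K X β φ => dg t u.1) hw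
      (tup (FT v e (t + 1)) w)
    have h2 := rr_dig (D.P h t) (W := ZT D v (t + 1) t) (X := tup (FT v e (t + 1))) hD (s := dg t w.1)
      (H.dg_val t w.1) hw
    rw [h1]
    show Real.log (rr (D.P h t) (ZT D v (t + 1) t) (tup (FT v e (t + 1))) (fun u => dg t u.1) w (dg t w.1)
      (tup (FT v e (t + 1)) w)) = _
    rw [h2, tup_ce h hK]
    rfl

theorem gTp_fac (hK : Fintype.card K = 3) {Gd : Pt K X β φ → Prop} (fG : Fac (ZT D v (t + 1) t) Gd) (eps s : ℝ) :
    Fac (fun w => (all (LP (fun J : Finset K => J ≠ univ) (LL (Um v (t + 1)))) w, WW D t w))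
      (gTp h v eps Gd dg s t) := by
  intro a b hab
  have e1 : Gd a = Gd b := fG a b (by
    simp only [Prod.mk.injEq] at hab
    exact Prod.ext (funext fun J => congrFun hab.1 ⟨J.1, pth_sub hK J.1 J.2⟩) hab.2)
  have e2 : bp v pth h dg t a = bp v pth h dg t b := fac_bp h (p := fun J : Finset K => J ≠ univ) (pth_sub hK) t a b hab
  have e3 : bp v (fun J : Finset K => J ≠ univ) h dg t a = bp v (fun J : Finset K => J ≠ univ) h dg t b :=
    fac_bp h (p := fun J : Finset K => J ≠ univ) (fun J hJ => hJ) t a b hab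
  have e4 : ∀ j : K, uu (UU v) h dg (univ.erase j) t a = uu (UU v) h dg (univ.erase j) t b := fun j =>
    fac_uu h (p := fun J : Finset K => J ≠ univ) down_ne (ne_univ j) t a b hab
  have e5 : ∀ j : K, ul (UU v) h dg (univ.erase j) t a = ul (UU v) h dg (univ.erase j) t b := fun j =>
    fac_ul h (p := fun J : Finset K => J ≠ univ) down_ne (fun hh => hh rfl) (ne_univ j) t a b hab
  show gTp h v eps Gd dg s t a = gTp h v eps Gd dg s t b
  unfold gTp
  simp only [e2, e3, e4, e5]
  by_cases hG : Gd b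
  · rw [if_pos hG, if_pos (by rw [e1]; exact hG)]
  · rw [if_neg hG, if_neg (by rw [e1]; exact hG)]

theorem gTp_zero {Gd : Pt K X β φ → Prop} {eps s : ℝ} {w : Pt K X β φ} (hG : Gd w) : gTp h v eps Gd dg s t w = 0 := by
  unfold gTp
  rw [if_pos hG]

/-- **THE CORRECTION OF THE DIGIT** : the normalisation on the good points, the loss elsewhere -/
theorem corA_le (hK : Fintype.card K = 3) (H : D.Hyp dg prr al T Lam) (hv : Codes D v) (e : Fin 3 ≃ K)
    {a : ℕ → Pt K X β φ → Prop} (fa : Fac (ZT D v (t + 1) t) (a t)) {Gd : Pt K X β φ → Prop}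
    (fG : Fac (ZT D v (t + 1) t) Gd) {eps : ℝ} (heps : 0 < eps) :
    corA h dg v (fun J : Finset K => J ≠ univ) pth a t (gTp h v eps Gd dg 1 t) (gTp h v eps Gd dg (-1) t) ≤
      (D.P h t).E (fun w => ind (a t w ∧ Gd w) * ∑ f ∈ let_ (FT v e (t + 1)),
        (∏ i, (D.P h t).pv (fun u => (dg t u.1, ZbT D v e (t + 1) t i u)) (FT v e (t + 1) i) w (f i)) *
          (G0C (D.P h t) (ZT D v (t + 1) t) (ZbT D v e (t + 1) t) (FT v e (t + 1)) 1 (fun _ _ => False) w f - 1)) +
      (D.P h t).E (fun w => ind (a t w ∧ ¬ Gd w) * lossC (D.P h t) (ZT D v (t + 1) t) (ZbT D v e (t + 1) t)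
        (FT v e (t + 1)) (fun _ u => dg t u.1) (fun u => dg t u.1) w) + eps := by
  classical
  set P := D.P h t with hP
  have hD : ∀ w, P.p w ≠ 0 → (fun u : Pt K X β φ => dg t u.1) w = 1 ∨ (fun u : Pt K X β φ => dg t u.1) w = -1 :=
    fun w _ => H.dg_val t w.1
  have hD1 : ∀ w, P.p w ≠ 0 → |(fun w : Pt K X β φ => dg t w.1) w| ≤ 1 := fun w hw => by
    rcases hD w hw with h1 | h1 <;> rw [h1] <;> norm_num
  set n := bp v pth h dg t with hn
  set b := bp v (fun J : Finset K => J ≠ univ) h dg t with hb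
  set u : K → Pt K X β φ → ℝ := fun j => uu (UU v) h dg (univ.erase j) t with hu
  set u' : K → Pt K X β φ → ℝ := fun j => ul (UU v) h dg (univ.erase j) t with hu'
  set R : ℝ → Pt K X β φ → ℝ := fun s w => (1 + s * n w) * ∏ j : K, (1 + s * u j w) / (1 + s * u' j w) with hR
  have hRp : ∀ w, Rp (n w) (univ.filter fun J : Finset K => J ≠ univ ∧ ¬ pth J) (fun J => uu (UU v) h dg J t w)
      (fun J => ul (UU v) h dg J t w) = R 1 w := by
    intro w
    unfold Rp
    rw [prod_tp hK (fun J => (1 + uu (UU v) h dg J t w) / (1 + ul (UU v) h dg J t w))]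
    simp only [hR, one_mul]
    rfl
  have hRm : ∀ w, Rm (n w) (univ.filter fun J : Finset K => J ≠ univ ∧ ¬ pth J) (fun J => uu (UU v) h dg J t w)
      (fun J => ul (UU v) h dg J t w) = R (-1) w := by
    intro w
    unfold Rm
    rw [prod_tp hK (fun J => (1 - uu (UU v) h dg J t w) / (1 - ul (UU v) h dg J t w))]
    simp only [hR, neg_one_mul, ← sub_eq_add_neg]
    rfl
  have an : ∀ w, P.p w ≠ 0 → |n w| ≤ 1 := fun w _ => P.abs_ce_le_one hD1 _ w
  have ab : ∀ w, P.p w ≠ 0 → |b w| ≤ 1 := fun w _ => P.abs_ce_le_one hD1 _ w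
  have au : ∀ j w, P.p w ≠ 0 → |u j w| ≤ 1 := fun j w _ => P.abs_ce_le_one hD1 _ w
  have au' : ∀ j w, P.p w ≠ 0 → |u' j w| ≤ 1 := fun j w _ => P.abs_ce_le_one hD1 _ w
  have hs1 : ∀ s : ℝ, (s = 1 ∨ s = -1) → ∀ x : ℝ, |x| ≤ 1 → 0 ≤ 1 + s * x := by
    rintro s (rfl | rfl) x hx
    · have := (abs_le.mp hx).1; linarith
    · have := (abs_le.mp hx).2; linarith
  have hR0 : ∀ s : ℝ, (s = 1 ∨ s = -1) → ∀ w, P.p w ≠ 0 → 0 ≤ R s w := by
    intro s hs w hw
    simp only [hR]
    exact mul_nonneg (hs1 s hs _ (an w hw)) (Finset.prod_nonneg fun j _ =>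
      div_nonneg (hs1 s hs _ (au j w hw)) (hs1 s hs _ (au' j w hw)))
  -- positivity at the true sign
  have pn : ∀ w, P.p w ≠ 0 → 0 < 1 + dg t w.1 * n w := fun w hw => P.digit_pos hD _ hw
  have pb : ∀ w, P.p w ≠ 0 → 0 < 1 + dg t w.1 * b w := fun w hw => P.digit_pos hD _ hw
  have pu : ∀ j w, P.p w ≠ 0 → 0 < 1 + dg t w.1 * u j w := fun j w hw => P.digit_pos hD _ hw
  have pu' : ∀ j w, P.p w ≠ 0 → 0 < 1 + dg t w.1 * u' j w := fun j w hw => P.digit_pos hD _ hw
  have hloss : ∀ w, P.p w ≠ 0 → ¬ Gd w → (if dg t w.1 = 1 then gTp h v eps Gd dg 1 t w else gTp h v eps Gd dg (-1) t w) =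
      lossC P (ZT D v (t + 1) t) (ZbT D v e (t + 1) t) (FT v e (t + 1)) (fun _ u => dg t u.1) (fun u => dg t u.1) w := by
    intro w hw hG
    have h1 : (if dg t w.1 = 1 then gTp h v eps Gd dg 1 t w else gTp h v eps Gd dg (-1) t w) =
        gTp h v eps Gd dg (dg t w.1) t w := by
      rcases H.dg_val t w.1 with h2 | h2
      · rw [if_pos h2, h2]
      · rw [if_neg (by rw [h2]; norm_num), h2]
    rw [h1, lossC_dig h hK H hw]
    unfold gTp gS
    rw [if_neg hG, if_pos (pb w hw)]
    have e1 : ∏ j : K, (1 + dg t w.1 * uu (UU v) h dg (univ.erase j) t w) / (1 + dg t w.1 * ul (UU v) h dg (univ.erase j) t w) =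
        ∏ i : Fin 3, (1 + dg t w.1 * uu (UU v) h dg (univ.erase (e i)) t w) /
          (1 + dg t w.1 * ul (UU v) h dg (univ.erase (e i)) t w) :=
      (Equiv.prod_comp e _).symm
    have p1 : ∀ i : Fin 3, 0 < (1 + dg t w.1 * uu (UU v) h dg (univ.erase (e i)) t w) /
          (1 + dg t w.1 * ul (UU v) h dg (univ.erase (e i)) t w) := fun i => div_pos (pu (e i) w hw) (pu' (e i) w hw)
    have p2 : 0 < ∏ i : Fin 3, (1 + dg t w.1 * uu (UU v) h dg (univ.erase (e i)) t w) /
          (1 + dg t w.1 * ul (UU v) h dg (univ.erase (e i)) t w) := Finset.prod_pos fun i _ => p1 i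
    rw [e1, Real.log_div (mul_pos (pn w hw) p2).ne' (pb w hw).ne', Real.log_mul (pn w hw).ne' p2.ne',
      Real.log_prod (fun i _ => (p1 i).ne'), Real.log_div (pb w hw).ne' (pn w hw).ne']
    ring
  have key : corA h dg v (fun J : Finset K => J ≠ univ) pth a t (gTp h v eps Gd dg 1 t) (gTp h v eps Gd dg (-1) t) ≤
      P.E (fun w => ind (a t w ∧ Gd w) * (R 1 w / 2 + R (-1) w / 2 - 1) + ind (a t w ∧ ¬ Gd w) *
        lossC P (ZT D v (t + 1) t) (ZbT D v e (t + 1) t) (FT v e (t + 1)) (fun _ u => dg t u.1) (fun u => dg t u.1) w +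
          eps) := by
    unfold corA
    rw [← FP.E_add]
    refine P.E_mono fun w hw => ?_
    rw [hRp, hRm]
    by_cases ha : a t w
    · rw [ind_of ha, one_mul, one_mul]
      by_cases hG : Gd w
      · rw [ind_of (show a t w ∧ Gd w from ⟨ha, hG⟩), ind_not (show ¬ (a t w ∧ ¬ Gd w) from fun hh => hh.2 hG)]
        have g1 : gTp h v eps Gd dg 1 t w = 0 := by unfold gTp; rw [if_pos hG]
        have g2 : gTp h v eps Gd dg (-1) t w = 0 := by unfold gTp; rw [if_pos hG]
        rw [g1, g2, neg_zero, Real.exp_zero]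
        split_ifs <;> linarith
      · rw [ind_not (show ¬ (a t w ∧ Gd w) from fun hh => hG hh.2), ind_of (show a t w ∧ ¬ Gd w from ⟨ha, hG⟩),
          hloss w hw hG]
        have g1 : R 1 w / 2 * Real.exp (-gTp h v eps Gd dg 1 t w) ≤ (1 + b w) / 2 + eps / 2 := by
          have g3 : gTp h v eps Gd dg 1 t w = gS (R 1 w) (1 * b w) eps := by unfold gTp; rw [if_neg hG]
          rw [g3]
          have := gS_le (hR0 1 (Or.inl rfl) w hw) (hs1 1 (Or.inl rfl) (b w) (ab w hw)) heps
          linarith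
        have g2 : R (-1) w / 2 * Real.exp (-gTp h v eps Gd dg (-1) t w) ≤ (1 - b w) / 2 + eps / 2 := by
          have g3 : gTp h v eps Gd dg (-1) t w = gS (R (-1) w) (-1 * b w) eps := by unfold gTp; rw [if_neg hG]
          rw [g3]
          have := gS_le (hR0 (-1) (Or.inr rfl) w hw) (hs1 (-1) (Or.inr rfl) (b w) (ab w hw)) heps
          linarith
        linarith
    · rw [ind_not ha, ind_not (show ¬ (a t w ∧ Gd w) from fun hh => ha hh.1),
        ind_not (show ¬ (a t w ∧ ¬ Gd w) from fun hh => ha hh.1)]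
      linarith
  refine key.trans ?_
  rw [FP.E_add, FP.E_add, FP.E_const]
  refine add_le_add (add_le_add ?_ le_rfl) le_rfl
  -- the good points
  have h1 := dig_rel P (FT v e (t + 1)) (Z := ZT D v (t + 1) t) (Zb := ZbT D v e (t + 1) t)
    (D := fun w : Pt K X β φ => dg t w.1) (ZT_Zb hK _ _) hD (eta := 1) (al := fun w => ind (a t w ∧ Gd w))
    (fun x y hxy => by
      show ind (a t x ∧ Gd x) = ind (a t y ∧ Gd y)
      rw [fa x y hxy, fG x y hxy]) (fun w => ind_nonneg _) (Reg := fun _ _ _ => False) (pi := fun _ _ _ => 0)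
    (fun _ _ _ _ _ => rfl) (fun _ _ _ _ _ => rfl) (fun _ _ _ => le_rfl) (fun _ _ _ => zero_le_one)
  have z0 : ∀ w, rgC P (ZT D v (t + 1) t) (ZbT D v e (t + 1) t) (FT v e (t + 1)) 1 (fun _ _ => False) (fun _ _ => 0) w
      (tup (FT v e (t + 1)) w) = 0 := by
    intro w
    unfold rgC
    rw [ind_not (fun hh => hh)]
    ring
  simp only [z0, neg_zero, Real.exp_zero, mul_one, sub_zero, one_mul] at h1
  refine le_trans (le_of_eq ?_) h1
  refine P.E_congr fun w hw => ?_
  have q1 : ∀ i : Fin 3, P.ce (fun u => (FT v e (t + 1) i u, ZbT D v e (t + 1) t i u)) (fun u => dg t u.1) w = u (e i) w :=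
    fun i => FT_ce h H i w
  have q2 : ∀ i : Fin 3, P.ce (ZbT D v e (t + 1) t i) (fun u => dg t u.1) w = u' (e i) w := fun i =>
    (ul_ce h (ne_univ (e i)) w).symm
  have q3 : P.ce (ZT D v (t + 1) t) (fun u => dg t u.1) w = n w := rfl
  simp only [q1, q2, q3]
  have q4 : R 1 w = (1 + n w) * ∏ i : Fin 3, (1 + u (e i) w) / (1 + u' (e i) w) := by
    simp only [hR, one_mul]
    congr 1
    exact (Equiv.prod_comp e (fun j => (1 + u j w) / (1 + u' j w))).symm
  have q5 : R (-1) w = (1 - n w) * ∏ i : Fin 3, (1 - u (e i) w) / (1 - u' (e i) w) := by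
    simp only [hR, neg_one_mul, ← sub_eq_add_neg]
    congr 1
    exact (Equiv.prod_comp e (fun j => (1 - u j w) / (1 - u' j w))).symm
  rw [q4, q5]

end run




end

end Pool.Agent.GMH
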