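import Pool.Agent.GMH.KinF
import Pool.Agent.GMH.Key3L
import Pool.Agent.M3.RdPull

/-!
# GMH/KFR: the frame of the kinds under a map of probability spaces and a renaming of the letters (helper34)

`Rnm P P' π Z Z' F F'` : `π` pushes `P` to `P'`; on the support `Z`, `Z'` have the same classes, and over one class of `Z` the
letters `F i`, `F' i` have the same classes.
* `ce_push`, `pS_push`, `pF_push`, `mF_push` : conditional probabilities; `sum_push` : sums over the tuples of letters of a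
  function which vanishes when a marginal given `Z` vanishes;
* `tvn_push`, `dens_push`, `kdF_push`; `Rnm.two` : two letters; own laws: `Rnb`, `tv1n_push`, `sF_push`, `sS_push`.
-/

set_option autoImplicit false
set_option linter.unusedSectionVars false

namespace Pool.Agent.GMH.KFR

open Finset Pool.Agent.PWZ Pool.Agent.M3 Pool.Agent.GMH Pool.Agent.GMH.KF

noncomputable section

variable {Om Om' : Type*} [Fintype Om] [Fintype Om'] {P : FP Om} {P' : FP Om'} {π : Om → Om'} {ζ ζ' φ φ' : Type*}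
  {Z : Om → ζ} {Z' : Om' → ζ'} {F : Fin 3 → Om → φ} {F' : Fin 3 → Om' → φ'}

/-- the renaming -/
structure Rnm (P : FP Om) (P' : FP Om') (π : Om → Om') (Z : Om → ζ) (Z' : Om' → ζ') (F : Fin 3 → Om → φ)
    (F' : Fin 3 → Om' → φ') : Prop where
  pul : Pul P P' π
  eZ : ∀ a b, P.p a ≠ 0 → P.p b ≠ 0 → (Z a = Z b ↔ Z' (π a) = Z' (π b))
  eF : ∀ i a b, P.p a ≠ 0 → P.p b ≠ 0 → Z a = Z b → (F i a = F i b ↔ F' i (π a) = F' i (π b))

/-- every point of the support is an image -/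
theorem exists_pre (H : Pul P P' π) {u' : Om'} (h : P'.p u' ≠ 0) : ∃ u, P.p u ≠ 0 ∧ π u = u' := by
  by_contra hcon
  have h1 : P.E (fun u => ind (π u = u')) = 0 := by
    refine (P.E_congr (g := fun _ => 0) fun u hu => ind_not fun hh => hcon ⟨u, hu, hh⟩).trans (P.E_const 0)
  have h2 := H.E (fun v => ind (v = u'))
  rw [h1] at h2
  have h3 : P'.p u' ≤ P'.E (fun v => ind (v = u')) := by
    unfold FP.E
    refine le_trans (le_of_eq ?_) (Finset.single_le_sum (f := fun v => P'.p v * ind (v = u'))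
      (fun v _ => mul_nonneg (P'.nn v) (ind_nonneg _)) (Finset.mem_univ u'))
    show P'.p u' = P'.p u' * ind (u' = u')
    rw [ind_of rfl, mul_one]
  have h4 := P'.nn u'
  exact h (le_antisymm (by linarith) h4)

/-- a letter with positive conditional probability is the letter of a point of the support -/
theorem exists_of_mF {i : Fin 3} {w : Om} {x : φ} (h : mF P Z F i w x ≠ 0) :
    ∃ u, P.p u ≠ 0 ∧ Z u = Z w ∧ F i u = x := by
  by_contra hcon
  refine h ?_
  unfold mF FP.pv FP.ce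
  rw [(P.E_congr (g := fun _ => 0) fun u hu => ?_).trans (P.E_const 0), zero_div]
  show ind (Z u = Z w) * ind (F i u = x) = 0
  by_cases h1 : Z u = Z w
  · rw [ind_not (fun h2 : F i u = x => hcon ⟨u, hu, h1, h2⟩), mul_zero]
  · rw [ind_not h1, zero_mul]

theorem mF_pos {i : Fin 3} {w u : Om} (hu : P.p u ≠ 0) (hZ : Z u = Z w) : 0 < mF P Z F i w (F i u) := by
  have h1 : P.pv Z (F i) w (F i u) = P.pv Z (F i) u (F i u) := P.pv_fac Z (F i) (F i u) w u hZ.symm
  show 0 < P.pv Z (F i) w (F i u)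
  rw [h1]
  exact P.pv_self_pos Z (F i) hu

variable (H : Rnm P P' π Z Z' F F')

include H

theorem m_push {w : Om} (hw : P.p w ≠ 0) : P.m Z w = P'.m Z' (π w) := by
  rw [← H.pul.m Z' w]
  unfold FP.m
  exact P.E_congr fun u hu => congrArg ind (propext (H.eZ u w hu hw))

/-- conditional probabilities -/
theorem ce_push {w : Om} (hw : P.p w ≠ 0) {E : Om → Prop} {E' : Om' → Prop}
    (hE : ∀ u, P.p u ≠ 0 → Z u = Z w → (E u ↔ E' (π u))) :
    P.ce Z (fun u => ind (E u)) w = P'.ce Z' (fun v => ind (E' v)) (π w) := by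
  unfold FP.ce
  rw [m_push H hw]
  congr 1
  rw [← H.pul.E (fun v => ind (Z' v = Z' (π w)) * ind (E' v))]
  refine P.E_congr fun u hu => ?_
  show ind (Z u = Z w) * ind (E u) = ind (Z' (π u) = Z' (π w)) * ind (E' (π u))
  by_cases h1 : Z u = Z w
  · rw [ind_of h1, ind_of ((H.eZ u w hu hw).1 h1), one_mul, one_mul]
    exact congrArg ind (propext (hE u hu h1))
  · rw [ind_not h1, ind_not fun h2 => h1 ((H.eZ u w hu hw).2 h2), zero_mul, zero_mul]

theorem pS_push {w : Om} (hw : P.p w ≠ 0) (S : Finset (Fin 3)) {u : Fin 3 → Om} (hu : ∀ i, P.p (u i) ≠ 0)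
    (hZ : ∀ i, Z (u i) = Z w) :
    pS P Z F S w (fun i => F i (u i)) = pS P' Z' F' S (π w) (fun i => F' i (π (u i))) := by
  unfold pS
  refine ce_push H hw (E := fun x => ∀ i ∈ S, F i x = F i (u i)) (E' := fun x => ∀ i ∈ S, F' i x = F' i (π (u i)))
    fun x hx h1 => ?_
  exact forall_congr' fun i => forall_congr' fun _ => H.eF i x (u i) hx (hu i) (h1.trans (hZ i).symm)

theorem pF_push {w : Om} (hw : P.p w ≠ 0) {u : Fin 3 → Om} (hu : ∀ i, P.p (u i) ≠ 0) (hZ : ∀ i, Z (u i) = Z w) :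
    pF P Z F w (fun i => F i (u i)) = pF P' Z' F' (π w) (fun i => F' i (π (u i))) := by
  rw [← pS_univ, ← pS_univ]
  exact pS_push H hw univ hu hZ

theorem mF_push {w : Om} (hw : P.p w ≠ 0) (i : Fin 3) {u : Om} (hu : P.p u ≠ 0) (hZ : Z u = Z w) :
    mF P Z F i w (F i u) = mF P' Z' F' i (π w) (F' i (π u)) := by
  have h1 := pS_push H hw {i} (u := fun _ => u) (fun _ => hu) (fun _ => hZ)
  rw [pS_one, pS_one] at h1
  exact h1

/-- **sums over the tuples of letters** -/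
theorem sum_push {w : Om} (hw : P.p w ≠ 0) {G : (Fin 3 → φ) → ℝ} {G' : (Fin 3 → φ') → ℝ}
    (h0 : ∀ g, (∃ i, mF P Z F i w (g i) = 0) → G g = 0)
    (h0' : ∀ g, (∃ i, mF P' Z' F' i (π w) (g i) = 0) → G' g = 0)
    (h1 : ∀ u : Fin 3 → Om, (∀ i, P.p (u i) ≠ 0) → (∀ i, Z (u i) = Z w) →
      G (fun i => F i (u i)) = G' (fun i => F' i (π (u i)))) :
    ∑ g ∈ let_ F, G g = ∑ g ∈ let_ F', G' g := by
  classical
  set A := (let_ F).filter fun g => ∀ i, mF P Z F i w (g i) ≠ 0 with hA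
  set B := (let_ F').filter fun g => ∀ i, mF P' Z' F' i (π w) (g i) ≠ 0 with hB
  have eA : ∑ g ∈ let_ F, G g = ∑ g ∈ A, G g := by
    symm
    refine Finset.sum_subset (Finset.filter_subset _ _) fun g hg hg2 => h0 g ?_
    by_contra hc
    push Not at hc
    exact hg2 (Finset.mem_filter.2 ⟨hg, hc⟩)
  have eB : ∑ g ∈ let_ F', G' g = ∑ g ∈ B, G' g := by
    symm
    refine Finset.sum_subset (Finset.filter_subset _ _) fun g hg hg2 => h0' g ?_
    by_contra hc
    push Not at hc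
    exact hg2 (Finset.mem_filter.2 ⟨hg, hc⟩)
  rw [eA, eB]
  have hex : ∀ g ∈ A, ∃ u : Fin 3 → Om, (∀ i, P.p (u i) ≠ 0) ∧ (∀ i, Z (u i) = Z w) ∧ ∀ i, F i (u i) = g i := by
    intro g hg
    have h2 := (Finset.mem_filter.1 hg).2
    choose u hu using fun i => exists_of_mF (h2 i)
    exact ⟨u, fun i => (hu i).1, fun i => (hu i).2.1, fun i => (hu i).2.2⟩
  have : Nonempty Om := ⟨w⟩
  choose! ch hch using hex
  refine Finset.sum_bij (fun g _ => fun i => F' i (π (ch g i))) ?_ ?_ ?_ ?_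
  · intro g hg
    obtain ⟨k1, k2, k3⟩ := hch g hg
    refine Finset.mem_filter.2 ⟨Fintype.mem_piFinset.2 fun i => FP.mem_vals (F' i) _, fun i => ?_⟩
    rw [← mF_push H hw i (k1 i) (k2 i)]
    exact (mF_pos (k1 i) (k2 i)).ne'
  · intro g hg g' hg' he
    obtain ⟨k1, k2, k3⟩ := hch g hg
    obtain ⟨l1, l2, l3⟩ := hch g' hg'
    funext i
    rw [← k3 i, ← l3 i]
    exact (H.eF i _ _ (k1 i) (l1 i) ((k2 i).trans (l2 i).symm)).2 (congrFun he i)
  · intro g' hg'
    have h2 := (Finset.mem_filter.1 hg').2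
    choose u' hu' using fun i => exists_of_mF (h2 i)
    choose u hu using fun i => exists_pre H.pul (hu' i).1
    have hZu : ∀ i, Z (u i) = Z w := fun i => (H.eZ (u i) w (hu i).1 hw).2 (by rw [(hu i).2]; exact (hu' i).2.1)
    have hgA : (fun i => F i (u i)) ∈ A := by
      refine Finset.mem_filter.2 ⟨Fintype.mem_piFinset.2 fun i => FP.mem_vals (F i) _, fun i => ?_⟩
      exact (mF_pos (hu i).1 (hZu i)).ne'
    refine ⟨fun i => F i (u i), hgA, ?_⟩
    obtain ⟨k1, k2, k3⟩ := hch _ hgA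
    funext i
    show F' i (π (ch (fun i => F i (u i)) i)) = g' i
    rw [← (hu' i).2.2, ← (hu i).2]
    exact (H.eF i _ _ (k1 i) (hu i).1 ((k2 i).trans (hZu i).symm)).1 (k3 i)
  · intro g hg
    obtain ⟨k1, k2, k3⟩ := hch g hg
    have h2 := h1 (ch g) k1 k2
    rw [← h2]
    congr 1
    funext i
    exact (k3 i).symm

omit H

theorem pS_le_mF {i : Fin 3} {S : Finset (Fin 3)} (hi : i ∈ S) (w : Om) (g : Fin 3 → φ) :
    pS P Z F S w g ≤ mF P Z F i w (g i) := by
  unfold pS mF FP.pv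
  exact P.ce_mono (fun u _ => ind_mono fun h => h i hi) w

theorem mF_nn (i : Fin 3) (w : Om) (x : φ) : 0 ≤ mF P Z F i w x := P.ce_nonneg (fun _ _ => ind_nonneg _) w

theorem pS_zero {i : Fin 3} {S : Finset (Fin 3)} (hi : i ∈ S) {w : Om} {g : Fin 3 → φ} (h : mF P Z F i w (g i) = 0) :
    pS P Z F S w g = 0 := le_antisymm ((pS_le_mF hi w g).trans (le_of_eq h)) (pS_nn P F S w g)

theorem pF_zero {i : Fin 3} {w : Om} {g : Fin 3 → φ} (h : mF P Z F i w (g i) = 0) : pF P Z F w g = 0 := by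
  rw [← pS_univ]
  exact pS_zero (mem_univ i) h

include H

omit H in
theorem tvn_zero {w : Om} (S : Finset (Fin 3)) (f g : Fin 3 → φ) (hg : ∃ i, mF P Z F i w (g i) = 0) :
    ind (∀ i ∈ S, g i = f i) * |pF P Z F w g - pS P Z F S w g * ∏ i ∈ univ \ S, mF P Z F i w (g i)| = 0 := by
  obtain ⟨i, hi⟩ := hg
  rw [pF_zero hi]
  by_cases hS : i ∈ S
  · rw [pS_zero hS hi, zero_mul, sub_zero, abs_zero, mul_zero]
  · have h2 : ∏ j ∈ univ \ S, mF P Z F j w (g j) = 0 :=
      Finset.prod_eq_zero (Finset.mem_sdiff.2 ⟨mem_univ i, hS⟩) hi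
    rw [h2, mul_zero, sub_zero, abs_zero, mul_zero]

/-- **the distances** -/
theorem tvn_push {w : Om} (hw : P.p w ≠ 0) (S : Finset (Fin 3)) :
    tvn P Z F S w (tup F w) = tvn P' Z' F' S (π w) (tup F' (π w)) := by
  unfold tvn
  refine sum_push H hw (fun g hg => tvn_zero S (tup F w) g hg) (fun g hg => tvn_zero S (tup F' (π w)) g hg)
    fun u hu hZ => ?_
  rw [pF_push H hw hu hZ, pS_push H hw S hu hZ]
  have e1 : ∏ i ∈ univ \ S, mF P Z F i w (F i (u i)) =
      ∏ i ∈ univ \ S, mF P' Z' F' i (π w) (F' i (π (u i))) :=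
    Finset.prod_congr rfl fun i _ => mF_push H hw i (hu i) (hZ i)
  rw [e1]
  congr 1
  refine congrArg ind (propext ?_)
  exact forall_congr' fun i => forall_congr' fun _ => H.eF i (u i) w (hu i) hw (hZ i)

theorem pS_push_self {w : Om} (hw : P.p w ≠ 0) (S : Finset (Fin 3)) :
    pS P Z F S w (tup F w) = pS P' Z' F' S (π w) (tup F' (π w)) :=
  pS_push H hw S (u := fun _ => w) (fun _ => hw) (fun _ => rfl)

theorem dens_push {w : Om} (hw : P.p w ≠ 0) (S : Finset (Fin 3)) :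
    KF.dens P Z F S w (tup F w) = KF.dens P' Z' F' S (π w) (tup F' (π w)) := by
  have h2 : ∏ i ∈ S, mF P Z F i w (tup F w i) = ∏ i ∈ S, mF P' Z' F' i (π w) (tup F' (π w) i) :=
    Finset.prod_congr rfl fun i _ => mF_push H hw i hw rfl
  unfold KF.dens
  rw [h2, pS_push_self H hw S]

theorem bad_push {w : Om} (hw : P.p w ≠ 0) (c : KC) (i : Fin 3) :
    bad P Z F c i w (tup F w) ↔ bad P' Z' F' c i (π w) (tup F' (π w)) := by
  unfold bad
  rw [pS_push_self H hw, tvn_push H hw]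

theorem Ap_push {w : Om} (hw : P.p w ≠ 0) (c : KC) (k : ℕ) :
    Ap P Z F c k w (tup F w) ↔ Ap P' Z' F' c k (π w) (tup F' (π w)) := by
  have h1 := fun S => pS_push_self H hw S
  have h2 := fun S => dens_push H hw S
  have h3 := fun S => tvn_push H hw S
  have h4 := fun i => bad_push H hw c i
  unfold Ap
  split <;> simp only [h1, h2, h3, h4]

/-- **the kinds** -/
theorem kdF_push {w : Om} (hw : P.p w ≠ 0) (c : KC) (k : Fin 10) :
    kdF P Z F c k w (tup F w) ↔ kdF P' Z' F' c k (π w) (tup F' (π w)) := by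
  have h1 := fun j => Ap_push H hw c j
  unfold kdF
  simp only [h1]

omit H

/-! ### two letters -/

/-- the frame of the two letters other than `i0` -/
theorem Rnm.two (H : Rnm P P' π Z Z' F F') (i0 : Fin 3) : Rnm P P' π Z Z' (Fo F i0) (Fo F' i0) where
  pul := H.pul
  eZ := H.eZ
  eF := by
    intro i a b ha hb hab
    unfold Fo
    by_cases hi : i = i0
    · rw [if_pos hi, if_pos hi, if_pos hi, if_pos hi]
      exact ⟨fun _ => rfl, fun _ => rfl⟩
    · rw [if_neg hi, if_neg hi, if_neg hi, if_neg hi]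
      constructor
      · intro hh
        rw [(H.eF i a b ha hb hab).1 (Option.some.inj hh)]
      · intro hh
        rw [(H.eF i a b ha hb hab).2 (Option.some.inj hh)]

/-! ### own laws -/

variable {α α' : Type*} {Zb : Fin 3 → Om → α} {Zb' : Fin 3 → Om' → α'}

/-- the renaming of what the letters see -/
structure Rnb (P : FP Om) (π : Om → Om') (Zb : Fin 3 → Om → α) (Zb' : Fin 3 → Om' → α') (F : Fin 3 → Om → φ)
    (F' : Fin 3 → Om' → φ') : Prop where
  eZ : ∀ i a b, P.p a ≠ 0 → P.p b ≠ 0 → (Zb i a = Zb i b ↔ Zb' i (π a) = Zb' i (π b))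
  eF : ∀ i a b, P.p a ≠ 0 → P.p b ≠ 0 → Zb i a = Zb i b → (F i a = F i b ↔ F' i (π a) = F' i (π b))

/-- one letter, renamed -/
theorem pv_push (hp : Pul P P' π) (K : Rnb P π Zb Zb' F F') {ι ι' : Type*} {Y : Om → ι} {Y' : Om' → ι'} {i : Fin 3}
    (hY : ∀ a b, P.p a ≠ 0 → P.p b ≠ 0 → (Y a = Y b ↔ Y' (π a) = Y' (π b)))
    (hYb : ∀ a b, P.p a ≠ 0 → P.p b ≠ 0 → Y a = Y b → Zb i a = Zb i b) {w u : Om} (hw : P.p w ≠ 0) (hu : P.p u ≠ 0)
    (hZ : Zb i u = Zb i w) : P.pv Y (F i) w (F i u) = P'.pv Y' (F' i) (π w) (F' i (π u)) := by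
  unfold FP.pv FP.ce
  have e1 : P.m Y w = P'.m Y' (π w) := by
    rw [← hp.m Y' w]
    unfold FP.m
    exact P.E_congr fun x hx => congrArg ind (propext (hY x w hx hw))
  rw [e1]
  congr 1
  rw [← hp.E (fun v => ind (Y' v = Y' (π w)) * ind (F' i v = F' i (π u)))]
  refine P.E_congr fun x hx => ?_
  show ind (Y x = Y w) * ind (F i x = F i u) = ind (Y' (π x) = Y' (π w)) * ind (F' i (π x) = F' i (π u))
  by_cases h1 : Y x = Y w
  · rw [ind_of h1, ind_of ((hY x w hx hw).1 h1), one_mul, one_mul]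
    exact congrArg ind (propext (K.eF i x u hx hu ((hYb x w hx hw h1).trans hZ.symm)))
  · rw [ind_not h1, ind_not fun h2 => h1 ((hY x w hx hw).2 h2), zero_mul, zero_mul]

theorem exists_of_pv {ι : Type*} {Y : Om → ι} {G : Om → φ} {w : Om} {x : φ} (h : P.pv Y G w x ≠ 0) :
    ∃ u, P.p u ≠ 0 ∧ Y u = Y w ∧ G u = x := by
  by_contra hcon
  refine h ?_
  unfold FP.pv FP.ce
  rw [(P.E_congr (g := fun _ => 0) fun u hu => ?_).trans (P.E_const 0), zero_div]
  show ind (Y u = Y w) * ind (G u = x) = 0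
  by_cases h1 : Y u = Y w
  · rw [ind_not (fun h2 : G u = x => hcon ⟨u, hu, h1, h2⟩), mul_zero]
  · rw [ind_not h1, zero_mul]

theorem pv_pos {ι : Type*} {Y : Om → ι} {G : Om → φ} {w u : Om} (hu : P.p u ≠ 0) (hZ : Y u = Y w) :
    0 < P.pv Y G w (G u) := by
  have h1 : P.pv Y G w (G u) = P.pv Y G u (G u) := P.pv_fac Y G (G u) w u hZ.symm
  rw [h1]
  exact P.pv_self_pos Y G hu

/-- **sums over one letter** -/
theorem sum1_push (hp : Pul P P' π) (K : Rnb P π Zb Zb' F F') {w : Om} (hw : P.p w ≠ 0) (i : Fin 3) {G : φ → ℝ}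
    {G' : φ' → ℝ} (h0 : ∀ x, qF P Zb F i w x = 0 → G x = 0) (h0' : ∀ x, qF P' Zb' F' i (π w) x = 0 → G' x = 0)
    (h1 : ∀ u : Om, P.p u ≠ 0 → Zb i u = Zb i w → G (F i u) = G' (F' i (π u))) :
    ∑ x ∈ vals (F i), G x = ∑ x ∈ vals (F' i), G' x := by
  classical
  set A := (vals (F i)).filter fun x => qF P Zb F i w x ≠ 0 with hA
  set B := (vals (F' i)).filter fun x => qF P' Zb' F' i (π w) x ≠ 0 with hB
  have eA : ∑ g ∈ vals (F i), G g = ∑ g ∈ A, G g := by
    symm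
    refine Finset.sum_subset (Finset.filter_subset _ _) fun g hg hg2 => h0 g ?_
    by_contra hc
    exact hg2 (Finset.mem_filter.2 ⟨hg, hc⟩)
  have eB : ∑ g ∈ vals (F' i), G' g = ∑ g ∈ B, G' g := by
    symm
    refine Finset.sum_subset (Finset.filter_subset _ _) fun g hg hg2 => h0' g ?_
    by_contra hc
    exact hg2 (Finset.mem_filter.2 ⟨hg, hc⟩)
  rw [eA, eB]
  have hex : ∀ g ∈ A, ∃ u : Om, P.p u ≠ 0 ∧ Zb i u = Zb i w ∧ F i u = g := fun g hg =>
    exists_of_pv (Finset.mem_filter.1 hg).2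
  have : Nonempty Om := ⟨w⟩
  choose! ch hch using hex
  refine Finset.sum_bij (fun g _ => F' i (π (ch g))) ?_ ?_ ?_ ?_
  · intro g hg
    obtain ⟨k1, k2, k3⟩ := hch g hg
    exact Finset.mem_filter.2 ⟨FP.mem_vals (F' i) _, (pv_pos (G := F' i) (Y := Zb' i)
      (hp.ne k1) ((K.eZ i _ _ k1 hw).1 k2)).ne'⟩
  · intro g hg g' hg' he
    obtain ⟨k1, k2, k3⟩ := hch g hg
    obtain ⟨l1, l2, l3⟩ := hch g' hg'
    rw [← k3, ← l3]
    exact (K.eF i _ _ k1 l1 (k2.trans l2.symm)).2 he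
  · intro g' hg'
    have h2 := (Finset.mem_filter.1 hg').2
    obtain ⟨u', k1, k2, k3⟩ := exists_of_pv h2
    obtain ⟨u, l1, l2⟩ := exists_pre hp k1
    have hZu : Zb i u = Zb i w := (K.eZ i u w l1 hw).2 (by rw [l2]; exact k2)
    have hgA : F i u ∈ A := Finset.mem_filter.2 ⟨FP.mem_vals (F i) _, (pv_pos (G := F i) (Y := Zb i) l1 hZu).ne'⟩
    refine ⟨F i u, hgA, ?_⟩
    obtain ⟨n1, n2, n3⟩ := hch _ hgA
    show F' i (π (ch (F i u))) = g'
    rw [← k3, ← l2]
    exact (K.eF i _ _ n1 l1 (n2.trans hZu.symm)).1 n3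
  · intro g hg
    obtain ⟨k1, k2, k3⟩ := hch g hg
    have h2 := h1 (ch g) k1 k2
    rw [← h2, k3]

/-- a letter which has probability zero -/
theorem mF_zero_of {i : Fin 3} (hZ : Fac Z (Zb i)) {w : Om} {x : φ} (h : qF P Zb F i w x = 0) : mF P Z F i w x = 0 := by
  by_contra h2
  obtain ⟨u, k1, k2, k3⟩ := exists_of_pv h2
  have h3 := pv_pos (P := P) (G := F i) (Y := Zb i) k1 (hZ u w k2)
  rw [k3] at h3
  exact h3.ne' h

variable (H : Rnm P P' π Z Z' F F') (K : Rnb P π Zb Zb' F F')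

include H K

theorem qF_push {w u : Om} (hw : P.p w ≠ 0) (hu : P.p u ≠ 0) (i : Fin 3) (hZ : Zb i u = Zb i w) :
    qF P Zb F i w (F i u) = qF P' Zb' F' i (π w) (F' i (π u)) :=
  pv_push H.pul K (K.eZ i) (fun _ _ _ _ h => h) hw hu hZ

/-- **distance of one letter from its own law** -/
theorem tv1n_push (hZ : ∀ i, Fac Z (Zb i)) (hZ' : ∀ i, Fac Z' (Zb' i)) {w : Om} (hw : P.p w ≠ 0) (i : Fin 3) :
    tv1n P Z Zb F i w = tv1n P' Z' Zb' F' i (π w) := by
  unfold tv1n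
  refine sum1_push H.pul K hw i ?_ ?_ ?_
  · intro x hx
    rw [hx, mF_zero_of (hZ i) hx, sub_zero, abs_zero]
  · intro x hx
    rw [hx, mF_zero_of (hZ' i) hx, sub_zero, abs_zero]
  · intro u hu hZu
    rw [qF_push H K hw hu i hZu]
    have h1 : mF P Z F i w (F i u) = mF P' Z' F' i (π w) (F' i (π u)) :=
      pv_push H.pul K H.eZ (fun a b _ _ h => hZ i a b h) hw hu hZu
    rw [h1]

theorem sF_push (hZ : ∀ i, Fac Z (Zb i)) (hZ' : ∀ i, Fac Z' (Zb' i)) {w : Om} (hw : P.p w ≠ 0) (c : KC) :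
    sF P Z Zb F c w ↔ sF P' Z' Zb' F' c (π w) := by
  have h1 := fun i => tv1n_push H K hZ hZ' hw i
  unfold sF
  simp only [h1]

theorem sS_push {w : Om} (hw : P.p w ≠ 0) (c : KC) (i : Fin 3) :
    sS P Z Zb F c i w (tup F w) ↔ sS P' Z' Zb' F' c i (π w) (tup F' (π w)) := by
  have h1 : mF P Z F i w (tup F w i) = mF P' Z' F' i (π w) (tup F' (π w) i) := mF_push H hw i hw rfl
  have h2 : qF P Zb F i w (tup F w i) = qF P' Zb' F' i (π w) (tup F' (π w) i) := qF_push H K hw hw i rfl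
  unfold sS
  rw [h1, h2]

end

end Pool.Agent.GMH.KFR
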