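import Pool.Agent.GMH.KDL2
import Pool.Agent.GMH.KFR
import Pool.Agent.GMH.TopKinV

/-!
# GMH/KDL3: the kinds of the run are kinds of the data `MS` (helper34)

At the true point of the space with label tables, state `q` with `q / 5 ≤ T`, law of the time `q / 5`, against the frame of
`MSi` : law `tb.Ps`, `Z = TH M q`, tops `M.TF i q`, own information `Zo M q i` = the letters the top `i` sees, all points:
* `rnm3`, `rnm2`, `rnb3` : the renaming (`GMH/KFR`); `kq3_iff`, `kq2_iff` : the kinds; `pS_ms`, `tvn_ms`, `dens_ms` : the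
  values; `sF_ms`, `sS_ms` : the own laws;
* `o1` = log density of the top `i0` given the other two tops, against its own law: `one_lt`, `o1_eq`, `o1_move`, `o1_pub`.
-/

set_option autoImplicit false
set_option linter.unusedSectionVars false

namespace Pool.Agent.GMH.KDL

open Finset Pool.Agent.PWZ Pool.Agent.M3 Pool.Agent.GM Pool.Agent.GM.Harm Pool.Agent.GMH Pool.Agent.GMH.NZ
open Pool.Agent.GMH.V3 Pool.Agent.GMH.TP Pool.Agent.GMH.TD Pool.Agent.GMH.Dy Pool.Agent.GMH.MV Pool.Agent.GMH.MVI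
open Pool.Agent.GMH.CK Pool.Agent.GMH.KF Pool.Agent.GMH.KFR

noncomputable section

/-- what the top `i` sees, with all points -/
def Zo {Om : Type} [Fintype Om] (M : MS Om) (q : ℕ) (i : Fin 3) (w : Om) :=
  (LF M (univ.erase i, ∅) q w, M.NP q w)

section ms

variable {Om : Type} [Fintype Om] {M : MS Om}

theorem TH_Zo (q : ℕ) (i : Fin 3) : Fac (TH M q) (Zo M q i) := by
  intro a b hab
  have h1 : (fun j => M.XL j q a) = (fun j => M.XL j q b) := congrArg Prod.fst hab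
  have h2 : M.NP q a = M.NP q b := congrArg Prod.snd hab
  exact Prod.ext (LF_eq.2 ⟨fun j _ => congrFun h1 j, fun j hj => absurd hj (Finset.notMem_empty j),
    YF_eq.2 fun j => M.hXY j q a b (congrFun h1 j)⟩) h2

/-- log density of the top `i0` given the other tops against its own law -/
def o1 (M : MS Om) (i0 : Fin 3) (q : ℕ) (w : Om) : ℝ :=
  lt M univ univ q w - lt M univ (univ.erase i0) q w - lt M (univ.erase i0) {i0} q w

/-- the log density of the top `i0` of an unlisted point -/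
theorem o1_pub (i0 : Fin 3) {ν s : ℕ} (hs : ν ≤ s) {w : Om} (hw : M.P.p w ≠ 0) (h : ¬ Lst M ν s w) :
    |o1 M i0 s w - o1 M i0 ν w| ≤ 12 * M.d0 := by
  have h1 := abs_le.1 (lt_move_pub univ univ hs hw h)
  have h2 := abs_le.1 (lt_move_pub univ (univ.erase i0) hs hw h)
  have h3 := abs_le.1 (lt_move_pub (univ.erase i0) {i0} hs hw h)
  unfold o1
  rw [abs_le]
  constructor <;> linarith [h1.1, h1.2, h2.1, h2.2, h3.1, h3.2]

/-- the log density of the top `i0`, `v` not `i0`, of a point which is not moved at `v` -/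
theorem o1_move {v i0 : Fin 3} (hv : v ≠ i0) {ν s : ℕ} (hs : ν ≤ s) {w : Om} (hw : M.P.p w ≠ 0) (h : ¬ Ex M v ν s w) :
    |o1 M i0 s w - o1 M i0 ν w| ≤ 12 * M.d1 := by
  have h1 := abs_le.1 (lt_move (mem_univ v) univ hs hw h)
  have h2 := abs_le.1 (lt_move (mem_univ v) (univ.erase i0) hs hw h)
  have h3 := abs_le.1 (lt_move (Finset.mem_erase.2 ⟨hv, mem_univ v⟩) {i0} hs hw h)
  unfold o1
  rw [abs_le]
  constructor <;> linarith [h1.1, h1.2, h2.1, h2.2, h3.1, h3.2]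

end ms

variable {X β γ φ : Type} [Fintype X] [Fintype β] [Fintype φ] [Nonempty X] [Nonempty β]
variable {D : HD (Fin 3) X β γ φ} {al : ℝ} {h : D.Thick al} {N : Finset (Fin 3) → ℝ} {SS : Finset (Finset (Fin 3))}
  {v : ℕ → Finset (Fin 3) → X → (Fin 3 → β) → Pt (Fin 3) X β φ}
variable {dg : ℕ → X → ℝ} {prr : ℕ → Fin 3 → φ → φ} {T : ℕ} {Lam : ℝ} {W : Type} [Fintype W] (tb : Tab D prr T W)
variable {d1 kb d0 k0 p1 z : ℝ} (hd1 : 0 < d1) (hd11 : d1 ≤ 1) (hkb : 0 < kb) (hd0 : 0 < d0) (hd01 : d0 ≤ 1) (hk0 : 0 < k0)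
  (hp1 : 0 < p1) (hz : 0 < z)

/-- histories of labels are labels -/
theorem TFo_pt {q : ℕ} (hq : q / 5 ≤ T) {a b : Om W X β} (ha : tb.Ps.p a ≠ 0) (hb : tb.Ps.p b ≠ 0) (i : Fin 3) :
    TFo tb i q a = TFo tb i q b ↔ (tb.pt (q / 5) a).2.2 i = (tb.pt (q / 5) b).2.2 i := by
  constructor
  · intro hh
    have h1 := congrFun hh (q / 5)
    unfold TFo at h1
    rw [if_pos ⟨le_rfl, hq⟩, if_pos ⟨le_rfl, hq⟩] at h1
    exact Option.some.inj h1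
  · intro hh
    funext t'
    unfold TFo
    by_cases h3 : t' ≤ q / 5 ∧ t' ≤ T
    · rw [if_pos h3, if_pos h3, lab_hist tb h3.1 hq i ha hb hh]
    · rw [if_neg h3, if_neg h3]

/-- the name of a top is its history of labels -/
theorem FQ_TF (H : D.Hyp dg prr al T Lam) (R : Run h N SS (AdmDep D) v) (hS : ∀ l, univ.erase l ∈ SS) (hu : univ ∉ SS)
    (hN : ∀ l, 0 < N (univ.erase l)) {q : ℕ} (hq : q / 5 ≤ T) (i : Fin 3) {a b : Om W X β}
    (ha : tb.Ps.p a ≠ 0) (hb : tb.Ps.p b ≠ 0)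
    (hab : ZbQ D v q i (tb.pt (q / 5) a) = ZbQ D v q i (tb.pt (q / 5) b)) :
    TFo tb i q a = TFo tb i q b ↔ FQ v (q / 5) i (tb.pt (q / 5) a) = FQ v (q / 5) i (tb.pt (q / 5) b) := by
  have hp := pul_pt h tb hq
  rw [TFo_pt tb hq ha hb]
  exact (top_name H R hS hu hN hq (Nat.mul_div_le q 5) (hp.ne ha) (hp.ne hb) hab).symm

/-- **THE RENAMING**, three tops -/
theorem rnm3 (H : D.Hyp dg prr al T Lam) (R : Run h N SS (AdmDep D) v) (hS : ∀ l, univ.erase l ∈ SS) (hu : univ ∉ SS)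
    (hN : ∀ l, 0 < N (univ.erase l)) {q : ℕ} (hq : q / 5 ≤ T) :
    Rnm tb.Ps (D.P h (q / 5)) (tb.pt (q / 5))
      (TH (MSi tb (v := v) d1 kb d0 k0 p1 z hd1 hd11 hkb hd0 hd01 hk0 hp1 hz) q) (ZQ D v q)
      (fun i => (MSi tb (v := v) d1 kb d0 k0 p1 z hd1 hd11 hkb hd0 hd01 hk0 hp1 hz).TF i q) (FQ v (q / 5)) where
  pul := pul_pt h tb hq
  eZ := by
    intro a b _ _
    rw [ZQ_TH]
    constructor
    · intro hab
      exact ⟨fun j => congrFun (congrArg Prod.fst hab) j, congrArg Prod.snd hab⟩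
    · rintro ⟨g1, g2⟩
      exact Prod.ext (funext g1) g2
  eF := by
    intro i a b ha hb hab
    refine FQ_TF tb H R hS hu hN hq i ha hb (ZQ_Zb q i _ _ (ZQ_TH.2 ⟨?_, ?_⟩))
    · exact fun j => congrFun (congrArg Prod.fst hab) j
    · exact congrArg Prod.snd hab

/-- the two tops other than `i0` -/
theorem rnm2 (H : D.Hyp dg prr al T Lam) (R : Run h N SS (AdmDep D) v) (hS : ∀ l, univ.erase l ∈ SS) (hu : univ ∉ SS)
    (hN : ∀ l, 0 < N (univ.erase l)) {q : ℕ} (hq : q / 5 ≤ T) (i0 : Fin 3) :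
    Rnm tb.Ps (D.P h (q / 5)) (tb.pt (q / 5))
      (TH (MSi tb (v := v) d1 kb d0 k0 p1 z hd1 hd11 hkb hd0 hd01 hk0 hp1 hz) q) (ZQ D v q)
      (Fo (fun i => (MSi tb (v := v) d1 kb d0 k0 p1 z hd1 hd11 hkb hd0 hd01 hk0 hp1 hz).TF i q) i0)
      (Fo (FQ v (q / 5)) i0) :=
  (rnm3 tb hd1 hd11 hkb hd0 hd01 hk0 hp1 hz H R hS hu hN hq).two i0

/-- **the kinds**, three tops -/
theorem kq3_iff (H : D.Hyp dg prr al T Lam) (R : Run h N SS (AdmDep D) v) (hS : ∀ l, univ.erase l ∈ SS) (hu : univ ∉ SS)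
    (hN : ∀ l, 0 < N (univ.erase l)) {q : ℕ} (hq : q / 5 ≤ T) {w : Om W X β} (hw : tb.Ps.p w ≠ 0) (c : KC) (κ : Fin 10) :
    kq3 h v tb c κ q w ↔ kdF tb.Ps (TH (MSi tb (v := v) d1 kb d0 k0 p1 z hd1 hd11 hkb hd0 hd01 hk0 hp1 hz) q)
      (fun i => (MSi tb (v := v) d1 kb d0 k0 p1 z hd1 hd11 hkb hd0 hd01 hk0 hp1 hz).TF i q) c κ w
      (tup (fun i => (MSi tb (v := v) d1 kb d0 k0 p1 z hd1 hd11 hkb hd0 hd01 hk0 hp1 hz).TF i q) w) :=
  (kdF_push (rnm3 tb hd1 hd11 hkb hd0 hd01 hk0 hp1 hz H R hS hu hN hq) hw c κ).symm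

/-- **the kinds**, two tops -/
theorem kq2_iff (H : D.Hyp dg prr al T Lam) (R : Run h N SS (AdmDep D) v) (hS : ∀ l, univ.erase l ∈ SS) (hu : univ ∉ SS)
    (hN : ∀ l, 0 < N (univ.erase l)) {q : ℕ} (hq : q / 5 ≤ T) {w : Om W X β} (hw : tb.Ps.p w ≠ 0) (c : KC) (i0 : Fin 3)
    (κ : Fin 10) :
    kq2 h v tb c i0 κ q w ↔ kdF tb.Ps (TH (MSi tb (v := v) d1 kb d0 k0 p1 z hd1 hd11 hkb hd0 hd01 hk0 hp1 hz) q)
      (Fo (fun i => (MSi tb (v := v) d1 kb d0 k0 p1 z hd1 hd11 hkb hd0 hd01 hk0 hp1 hz).TF i q) i0) c κ w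
      (tup (Fo (fun i => (MSi tb (v := v) d1 kb d0 k0 p1 z hd1 hd11 hkb hd0 hd01 hk0 hp1 hz).TF i q) i0) w) :=
  (kdF_push (rnm2 tb hd1 hd11 hkb hd0 hd01 hk0 hp1 hz H R hS hu hN hq i0) hw c κ).symm

/-- probability of the true tops of `A` -/
theorem pS_ms (H : D.Hyp dg prr al T Lam) (R : Run h N SS (AdmDep D) v) (hS : ∀ l, univ.erase l ∈ SS) (hu : univ ∉ SS)
    (hN : ∀ l, 0 < N (univ.erase l)) {q : ℕ} (hq : q / 5 ≤ T) {w : Om W X β} (hw : tb.Ps.p w ≠ 0)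
    (A : Finset (Fin 3)) :
    KF.pS (D.P h (q / 5)) (ZQ D v q) (FQ v (q / 5)) A (tb.pt (q / 5) w) (tup (FQ v (q / 5)) (tb.pt (q / 5) w)) =
      KF.pS tb.Ps (TH (MSi tb (v := v) d1 kb d0 k0 p1 z hd1 hd11 hkb hd0 hd01 hk0 hp1 hz) q)
        (fun i => (MSi tb (v := v) d1 kb d0 k0 p1 z hd1 hd11 hkb hd0 hd01 hk0 hp1 hz).TF i q) A w
        (tup (fun i => (MSi tb (v := v) d1 kb d0 k0 p1 z hd1 hd11 hkb hd0 hd01 hk0 hp1 hz).TF i q) w) :=
  (pS_push_self (rnm3 tb hd1 hd11 hkb hd0 hd01 hk0 hp1 hz H R hS hu hN hq) hw A).symm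

/-- distance from independence -/
theorem tvn_ms (H : D.Hyp dg prr al T Lam) (R : Run h N SS (AdmDep D) v) (hS : ∀ l, univ.erase l ∈ SS) (hu : univ ∉ SS)
    (hN : ∀ l, 0 < N (univ.erase l)) {q : ℕ} (hq : q / 5 ≤ T) {w : Om W X β} (hw : tb.Ps.p w ≠ 0)
    (A : Finset (Fin 3)) :
    KF.tvn (D.P h (q / 5)) (ZQ D v q) (FQ v (q / 5)) A (tb.pt (q / 5) w) (tup (FQ v (q / 5)) (tb.pt (q / 5) w)) =
      KF.tvn tb.Ps (TH (MSi tb (v := v) d1 kb d0 k0 p1 z hd1 hd11 hkb hd0 hd01 hk0 hp1 hz) q)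
        (fun i => (MSi tb (v := v) d1 kb d0 k0 p1 z hd1 hd11 hkb hd0 hd01 hk0 hp1 hz).TF i q) A w
        (tup (fun i => (MSi tb (v := v) d1 kb d0 k0 p1 z hd1 hd11 hkb hd0 hd01 hk0 hp1 hz).TF i q) w) :=
  (tvn_push (rnm3 tb hd1 hd11 hkb hd0 hd01 hk0 hp1 hz H R hS hu hN hq) hw A).symm

/-- density of the true tops of `A` -/
theorem dens_ms (H : D.Hyp dg prr al T Lam) (R : Run h N SS (AdmDep D) v) (hS : ∀ l, univ.erase l ∈ SS) (hu : univ ∉ SS)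
    (hN : ∀ l, 0 < N (univ.erase l)) {q : ℕ} (hq : q / 5 ≤ T) {w : Om W X β} (hw : tb.Ps.p w ≠ 0)
    (A : Finset (Fin 3)) :
    KF.dens (D.P h (q / 5)) (ZQ D v q) (FQ v (q / 5)) A (tb.pt (q / 5) w) (tup (FQ v (q / 5)) (tb.pt (q / 5) w)) =
      KF.dens tb.Ps (TH (MSi tb (v := v) d1 kb d0 k0 p1 z hd1 hd11 hkb hd0 hd01 hk0 hp1 hz) q)
        (fun i => (MSi tb (v := v) d1 kb d0 k0 p1 z hd1 hd11 hkb hd0 hd01 hk0 hp1 hz).TF i q) A w
        (tup (fun i => (MSi tb (v := v) d1 kb d0 k0 p1 z hd1 hd11 hkb hd0 hd01 hk0 hp1 hz).TF i q) w) :=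
  (dens_push (rnm3 tb hd1 hd11 hkb hd0 hd01 hk0 hp1 hz H R hS hu hN hq) hw A).symm

/-! ### own laws -/

/-- what the top `i` sees, at the point of the time `q / 5`, with all points -/
def Zp (D : HD (Fin 3) X β γ φ) (v : ℕ → Finset (Fin 3) → X → (Fin 3 → β) → Pt (Fin 3) X β φ) (q : ℕ) (i : Fin 3)
    (u : Pt (Fin 3) X β φ) := (lo (SL v q) (univ.erase i) u, WW D (TP.nn q) u)

omit [Nonempty X] [Nonempty β] in
theorem Zp_ZbQ (q : ℕ) (i : Fin 3) : Fac (Zp D v q i) (ZbQ D v q i) := fun _ _ hab =>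
  Prod.ext (Prod.mk.inj hab).1 (WW_BB D (TP.nn q) _ _ _ (Prod.mk.inj hab).2)

theorem ZQ_Zp (q : ℕ) (i : Fin 3) : Fac (ZQ D v q) (Zp D v q i) := fun a b hab =>
  Prod.ext (Prod.mk.inj (ZQ_Zb q i a b hab)).1 (Prod.mk.inj hab).2

/-- the own law does not see the other points -/
theorem qF_Zp (R : Run h N SS (AdmDep D) v) (q : ℕ) (i : Fin 3) {u : Pt (Fin 3) X β φ} (hu : (D.P h (q / 5)).p u ≠ 0)
    (x : List (Pt (Fin 3) X β φ) × (Fin 3 → Option φ)) :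
    qF (D.P h (q / 5)) (ZbQ D v q) (FQ v (q / 5)) i u x = qF (D.P h (q / 5)) (Zp D v q) (FQ v (q / 5)) i u x := by
  have hq5 : 5 * (q / 5) ≤ q := Nat.mul_div_le q 5
  have hnn : q / 5 ≤ TP.nn q := TP.nn_le q
  exact (pv_base h hnn (J := univ.erase i) (X' := FQ v (q / 5) i) (R := lo (SL v q) (univ.erase i))
    (LL_AA R.codes (by omega) (Finset.Subset.refl _))
    (fun a b hab => lo_eq.2 fun I hI => LL_AA R.codes (TP.nc_le q I) hI.subset a b hab) hu x).symm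

theorem rnb3 (H : D.Hyp dg prr al T Lam) (R : Run h N SS (AdmDep D) v) (hS : ∀ l, univ.erase l ∈ SS) (hu : univ ∉ SS)
    (hN : ∀ l, 0 < N (univ.erase l)) {q : ℕ} (hq : q / 5 ≤ T) :
    Rnb tb.Ps (tb.pt (q / 5)) (Zo (MSi tb (v := v) d1 kb d0 k0 p1 z hd1 hd11 hkb hd0 hd01 hk0 hp1 hz) q) (Zp D v q)
      (fun i => (MSi tb (v := v) d1 kb d0 k0 p1 z hd1 hd11 hkb hd0 hd01 hk0 hp1 hz).TF i q) (FQ v (q / 5)) := by
  have eZ : ∀ (i : Fin 3) (a b : Om W X β),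
      (Zo (MSi tb (v := v) d1 kb d0 k0 p1 z hd1 hd11 hkb hd0 hd01 hk0 hp1 hz) q i a =
        Zo (MSi tb (v := v) d1 kb d0 k0 p1 z hd1 hd11 hkb hd0 hd01 hk0 hp1 hz) q i b ↔
      Zp D v q i (tb.pt (q / 5) a) = Zp D v q i (tb.pt (q / 5) b)) := by
    intro i a b
    constructor
    · intro hab
      have g1 := LF_eq.1 (Prod.mk.inj hab).1
      exact RW_eq.2 ⟨g1.1, YF_eq.1 g1.2.2, (Prod.mk.inj hab).2⟩
    · intro hab
      have g3 := RW_eq.1 hab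
      exact Prod.ext (LF_eq.2 ⟨g3.1, fun j hj => absurd hj (Finset.notMem_empty j), YF_eq.2 g3.2.1⟩) g3.2.2
  exact ⟨fun i a b _ _ => eZ i a b, fun i a b ha hb hab =>
    FQ_TF tb H R hS hu hN hq i ha hb (Zp_ZbQ q i _ _ ((eZ i a b).1 hab))⟩

/-- **the tops have a bad own law** -/
theorem sF_ms (H : D.Hyp dg prr al T Lam) (R : Run h N SS (AdmDep D) v) (hS : ∀ l, univ.erase l ∈ SS) (hu : univ ∉ SS)
    (hN : ∀ l, 0 < N (univ.erase l)) {q : ℕ} (hq : q / 5 ≤ T) {w : Om W X β} (hw : tb.Ps.p w ≠ 0) (c : KC) :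
    sF (D.P h (q / 5)) (ZQ D v q) (ZbQ D v q) (FQ v (q / 5)) c (tb.pt (q / 5) w) ↔
      sF tb.Ps (TH (MSi tb (v := v) d1 kb d0 k0 p1 z hd1 hd11 hkb hd0 hd01 hk0 hp1 hz) q)
        (Zo (MSi tb (v := v) d1 kb d0 k0 p1 z hd1 hd11 hkb hd0 hd01 hk0 hp1 hz) q)
        (fun i => (MSi tb (v := v) d1 kb d0 k0 p1 z hd1 hd11 hkb hd0 hd01 hk0 hp1 hz).TF i q) c w := by
  have hpw := (pul_pt h tb hq).ne hw
  rw [sF_push (rnm3 tb hd1 hd11 hkb hd0 hd01 hk0 hp1 hz H R hS hu hN hq)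
    (rnb3 tb hd1 hd11 hkb hd0 hd01 hk0 hp1 hz H R hS hu hN hq) (TH_Zo q) (ZQ_Zp q) hw c]
  unfold sF tv1n
  simp only [qF_Zp R q _ hpw]

/-- **single tops** -/
theorem sS_ms (H : D.Hyp dg prr al T Lam) (R : Run h N SS (AdmDep D) v) (hS : ∀ l, univ.erase l ∈ SS) (hu : univ ∉ SS)
    (hN : ∀ l, 0 < N (univ.erase l)) {q : ℕ} (hq : q / 5 ≤ T) {w : Om W X β} (hw : tb.Ps.p w ≠ 0) (c : KC) (i : Fin 3) :
    sS (D.P h (q / 5)) (ZQ D v q) (ZbQ D v q) (FQ v (q / 5)) c i (tb.pt (q / 5) w)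
        (tup (FQ v (q / 5)) (tb.pt (q / 5) w)) ↔
      sS tb.Ps (TH (MSi tb (v := v) d1 kb d0 k0 p1 z hd1 hd11 hkb hd0 hd01 hk0 hp1 hz) q)
        (Zo (MSi tb (v := v) d1 kb d0 k0 p1 z hd1 hd11 hkb hd0 hd01 hk0 hp1 hz) q)
        (fun i => (MSi tb (v := v) d1 kb d0 k0 p1 z hd1 hd11 hkb hd0 hd01 hk0 hp1 hz).TF i q) c i w
        (tup (fun i => (MSi tb (v := v) d1 kb d0 k0 p1 z hd1 hd11 hkb hd0 hd01 hk0 hp1 hz).TF i q) w) := by
  have hpw := (pul_pt h tb hq).ne hw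
  rw [sS_push (rnm3 tb hd1 hd11 hkb hd0 hd01 hk0 hp1 hz H R hS hu hN hq)
    (rnb3 tb hd1 hd11 hkb hd0 hd01 hk0 hp1 hz H R hS hu hN hq) hw c i]
  unfold sS
  rw [qF_Zp R q i hpw]

/-! ### one top -/

theorem tup_Fo {Om φ' : Type*} {F : Fin 3 → Om → φ'} {i0 : Fin 3} {a b : Om} : tup (Fo F i0) a = tup (Fo F i0) b ↔
    ∀ i ∈ univ.erase i0, F i a = F i b := by
  constructor
  · intro hh i hi
    have h1 : Fo F i0 i a = Fo F i0 i b := congrFun hh i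
    unfold Fo at h1
    rw [if_neg (Finset.ne_of_mem_erase hi), if_neg (Finset.ne_of_mem_erase hi)] at h1
    exact Option.some.inj h1
  · intro hh
    funext i
    show Fo F i0 i a = Fo F i0 i b
    unfold Fo
    by_cases hi : i = i0
    · rw [if_pos hi, if_pos hi]
    · rw [if_neg hi, if_neg hi, hh i (Finset.mem_erase.2 ⟨hi, mem_univ i⟩)]

/-- the log density of one top is a difference of log densities -/
theorem o1_eq (H : D.Hyp dg prr al T Lam) (R : Run h N SS (AdmDep D) v) (hS : ∀ l, univ.erase l ∈ SS) (hu : univ ∉ SS)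
    (hN : ∀ l, 0 < N (univ.erase l)) {q : ℕ} (hq : q / 5 ≤ T) (i0 : Fin 3) {w : Om W X β} (hw : tb.Ps.p w ≠ 0) :
    o1 (MSi tb (v := v) d1 kb d0 k0 p1 z hd1 hd11 hkb hd0 hd01 hk0 hp1 hz) i0 q w =
      pq3 h v tb q w - pq2 h v tb i0 q w := by
  rw [pq3_lt tb hd1 hd11 hkb hd0 hd01 hk0 hp1 hz H R hS hu hN hq hw,
    pq2_lt tb hd1 hd11 hkb hd0 hd01 hk0 hp1 hz H R hS hu hN hq i0 hw, ← Finset.add_sum_erase univ _ (mem_univ i0)]
  unfold o1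
  ring

/-- **THE ONE TOP** : the top `i0` given the other two tops and all thin labels, against its own law -/
theorem one_lt (H : D.Hyp dg prr al T Lam) (R : Run h N SS (AdmDep D) v) (hS : ∀ l, univ.erase l ∈ SS) (hu : univ ∉ SS)
    (hN : ∀ l, 0 < N (univ.erase l)) {q : ℕ} (hq : q / 5 ≤ T) (i0 : Fin 3) {w : Om W X β} (hw : tb.Ps.p w ≠ 0) :
    Real.log ((D.P h (q / 5)).pv (fun u => (tup (Fo (FQ v (q / 5)) i0) u, ZQ D v q u)) (FQ v (q / 5) i0)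
        (tb.pt (q / 5) w) (FQ v (q / 5) i0 (tb.pt (q / 5) w)) /
      (D.P h (q / 5)).pv (ZbQ D v q i0) (FQ v (q / 5) i0) (tb.pt (q / 5) w) (FQ v (q / 5) i0 (tb.pt (q / 5) w))) =
      o1 (MSi tb (v := v) d1 kb d0 k0 p1 z hd1 hd11 hkb hd0 hd01 hk0 hp1 hz) i0 q w := by
  set P := D.P h (q / 5) with hP
  set u := tb.pt (q / 5) w with hu0
  have hpw : P.p u ≠ 0 := (pul_pt h tb hq).ne hw
  rw [FP.pv_self, FP.pv_self]
  have m1 : 0 < P.m (fun x => (FQ v (q / 5) i0 x, (tup (Fo (FQ v (q / 5)) i0) x, ZQ D v q x))) u := P.m_pos _ hpw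
  have m2 : 0 < P.m (fun x => (tup (Fo (FQ v (q / 5)) i0) x, ZQ D v q x)) u := P.m_pos _ hpw
  have m3 : 0 < P.m (fun x => (FQ v (q / 5) i0 x, ZbQ D v q i0 x)) u := P.m_pos _ hpw
  have m4 : 0 < P.m (ZbQ D v q i0) u := P.m_pos _ hpw
  have e1 : P.m (fun x => (FQ v (q / 5) i0 x, (tup (Fo (FQ v (q / 5)) i0) x, ZQ D v q x))) u =
      P.m (fun x => (tup (FQ v (q / 5)) x, ZQ D v q x)) u := by
    refine P.m_congr ?_ ?_ u
    · intro a b hab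
      refine Prod.ext (funext fun i => ?_) (Prod.mk.inj (Prod.mk.inj hab).2).2
      by_cases hi : i = i0
      · rw [hi]
        exact (Prod.mk.inj hab).1
      · exact tup_Fo.1 (Prod.mk.inj (Prod.mk.inj hab).2).1 i (Finset.mem_erase.2 ⟨hi, mem_univ i⟩)
    · intro a b hab
      exact Prod.ext (congrFun (Prod.mk.inj hab).1 i0) (Prod.ext (tup_Fo.2 fun i _ => congrFun (Prod.mk.inj hab).1 i)
        (Prod.mk.inj hab).2)
  have s1 := sp_ZG tb hd1 hd11 hkb hd0 hd01 hk0 hp1 hz H R hS hu hN hq univ hw (G := tup (FQ v (q / 5)))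
    (fun a b => ⟨fun hh i _ => congrFun hh i, fun hh => funext fun i => hh i (mem_univ i)⟩)
  have s2 := sp_ZG tb hd1 hd11 hkb hd0 hd01 hk0 hp1 hz H R hS hu hN hq (univ.erase i0) hw
    (G := tup (Fo (FQ v (q / 5)) i0)) (fun a b => tup_Fo)
  have s3 := sp_Zb tb hd1 hd11 hkb hd0 hd01 hk0 hp1 hz H R hS hu hN hq i0 hw
  rw [← hP, ← hu0] at s1 s2 s3
  unfold sp at s1 s2 s3
  rw [Real.log_div (div_pos m1 m2).ne' (div_pos m3 m4).ne', Real.log_div m1.ne' m2.ne', Real.log_div m3.ne' m4.ne', e1]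
  unfold o1
  linarith

end

end Pool.Agent.GMH.KDL
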