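import Pool.Agent.GMH.KDT1
import Pool.Agent.GMH.KDL2
import Pool.Agent.GMH.KDL3
import Pool.Agent.GMH.KDT2
import Pool.Agent.GMH.MVS

/-!
# GMH/KDT3: transfer of kinds and log density from the start of the life to the removal (helper27)

For data `MS` :
* `stb_nu` : an unlisted triple is stable (`Stb` of `GMH/KDT1`) from any time of the public epoch; `lt_stb` : the tables
  `lt S A`, `v ∈ S`; `lt_unl` : the public tables; `tauS_lst` : the lives start before the public epoch.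
For the run:
* `eT_le`, `le_eT` : RULE L, the state `eT τ` of the tables of a start `τ` lies between the start and the removal `q`;
* `sg3 v q` : the single of the top `v` which does not see the vertex `v` (log of the law given all thin letters over the own
  law);
* `lt_unm`, `lt_unm_pub` : all tables of a triple not moved at `v`, with the vertex `v` or without (the exact clock sees the
  public moves); `ps_prv1`, `ps_pub1` : the log density, without singles; `sg3_prv1`, `sg3_pub1` : the singles;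
* `kq_prv`, `kq_pub`, `kq_nu` : the kinds (`kq3`) of the true tuple at the removal `q` and at any state `r` of the life;
* `ps_prv`, `ps_pub`, `ps_nu` : the same for the log density (`pq3`).
-/

set_option autoImplicit false
set_option linter.unusedSectionVars false

namespace Pool.Agent.GMH.KDT

open Finset Pool.Agent.PWZ Pool.Agent.M3 Pool.Agent.GM Pool.Agent.GM.Harm Pool.Agent.GMH Pool.Agent.GMH.NZ
open Pool.Agent.GMH.V3 Pool.Agent.GMH.TP Pool.Agent.GMH.TD Pool.Agent.GMH.Dy Pool.Agent.GMH.MV Pool.Agent.GMH.MVI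
open Pool.Agent.GMH.CK Pool.Agent.GMH.KDL Pool.Agent.GMH.MV4 Pool.Agent.GMH.MV.AHR Pool.Agent.GMH.KF

noncomputable section

/-! ### any data -/

section ms

variable {Om : Type} [Fintype Om] {M : MS Om}

theorem stb_mono {v : Fin 3} {e e' : ℝ} (he : e ≤ e') {r s : ℕ} {w : Om} (h : Stb M v e r s w) : Stb M v e' r s w :=
  fun u hu huw i => ⟨(h u hu huw i).1.trans he, (h u hu huw i).2.trans he⟩

/-- an unlisted triple is stable in the class of every exact vertex, from any time of the public epoch -/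
theorem stb_nu {v : Fin 3} {s r : ℕ} {w : Om} (hw : M.P.p w ≠ 0)
    (hl : ¬ 0 < M.P.ce (TH M s) (fun u => ind (Lst M (nu M s w) s u)) w) (hr : nu M s w ≤ r) (hrs : r ≤ s) :
    Stb M v (8 * M.d0) r s w := by
  intro u hu huw i
  have hd0 := M.hd0
  have hl' : ¬ Lst M (nu M s w) s u := by
    intro g
    apply hl
    have e1 : M.P.ce (TH M s) (fun x => ind (Lst M (nu M s w) s x)) w =
        M.P.ce (TH M s) (fun x => ind (Lst M (nu M s w) s x)) u := M.P.ce_fac _ _ w u huw.symm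
    rw [e1]
    exact kda_pos (TH M s) hu g
  obtain ⟨a1, a2⟩ := pub_lx v hr hrs hu hl' i
  exact ⟨a1, by linarith⟩

theorem unl_self {s : ℕ} {w : Om} (hw : M.P.p w ≠ 0)
    (hl : ¬ 0 < M.P.ce (TH M s) (fun u => ind (Lst M (nu M s w) s u)) w) : ¬ Lst M (nu M s w) s w :=
  fun g => hl (kda_pos (TH M s) hw g)

/-- the clock with the changes of status does not restart inside a public epoch without restart of the exact clock -/
theorem tauS_unl {v : Fin 3} {s : ℕ} {w : Om} (h : MV.tau M v s w ≤ nu M s w) : tauS M v s w ≤ nu M s w := by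
  have hns : nu M s w ≤ s := stg_le s w
  have key : ∀ k, nu M s w ≤ k → k ≤ s → tauS M v k w ≤ nu M s w := by
    intro k hk
    induction k, hk using Nat.le_induction with
    | base => exact fun _ => stg_le _ w
    | succ k hk ih =>
      intro hks
      have h1 : MV.tau M v (k + 1) w = MV.tau M v s w := stg_mid rfl (h.trans (hk.trans (Nat.le_succ k))) hks
      have h2 : nu M (k + 1) w = nu M s w := stg_mid rfl (hk.trans (Nat.le_succ k)) hks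
      have h3 : ¬ CS M v (tauS M v k w) (k + 1) w := by
        rintro (h4 | h4)
        · rw [h1] at h4
          omega
        · refine h4 ?_
          rw [Nat.add_sub_cancel, sts_eq (show nu M (k + 1) w ≠ k + 1 by rw [h2]; omega)]
      have h5 : tauS M v (k + 1) w = tauS M v k w := stg_neg h3
      rw [h5]
      exact ih (by omega)
  exact key s hns le_rfl

/-- the lives of an unlisted point start before the public epoch -/
theorem tauS_lst {v : Fin 3} {s : ℕ} {w : Om} (h : ¬ Lst M (nu M s w) s w) : tauS M v s w ≤ nu M s w := by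
  refine tauS_unl ?_
  rw [MV4.not_tau (stg_le s w) h v]
  exact stg_le _ w

/-- the tables of a stable triple -/
theorem lt_stb {v : Fin 3} {S : Finset (Fin 3)} (hv : v ∈ S) (A : Finset (Fin 3)) {e : ℝ} {r s : ℕ} {w : Om}
    (hw : M.P.p w ≠ 0) (h : Stb M v e r s w) : |lt M S A s w - lt M S A r w| ≤ 2 * e := by
  have h1 := abs_le.1 (h w hw rfl (S, A)).1
  have h2 := abs_le.1 (h w hw rfl (S, ∅)).1
  unfold lx at h1 h2
  rw [lt_exa hv hw, lt_exa hv hw, abs_le]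
  constructor <;> linarith [h1.1, h1.2, h2.1, h2.2]

/-- the public tables of an unlisted point -/
theorem lt_unl (S A : Finset (Fin 3)) {r s : ℕ} {w : Om} (hw : M.P.p w ≠ 0) (hl : ¬ Lst M (nu M s w) s w)
    (hr : nu M s w ≤ r) (hrs : r ≤ s) : |lt M S A s w - lt M S A r w| ≤ 8 * M.d0 := by
  have hlr : ¬ Lst M (nu M s w) r w := Lst_mono hrs hl
  have h1 := abs_le.1 (lt_move_pub S A (hr.trans hrs) hw hl)
  have h2 := abs_le.1 (lt_move_pub S A hr hw hlr)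
  rw [abs_le]
  constructor <;> linarith [h1.1, h1.2, h2.1, h2.2]

/-- not moved: the true point has not moved -/
theorem not_Ex_of {v : Fin 3} {s : ℕ} {w : Om} (hw : M.P.p w ≠ 0) (h : ¬ Mv M v s w) : ¬ Ex M v (MV.tau M v s w) s w :=
  fun g => h (kda_pos (TH M s) hw g)

/-- **ALL TABLES** (with the exact vertex or without) over a triple which is not moved at `v`, inside the exact epoch -/
theorem lt_unm {v : Fin 3} (S A : Finset (Fin 3)) {r s : ℕ} {w : Om} (hw : M.P.p w ≠ 0) (h : ¬ Mv M v s w)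
    (h1 : MV.tau M v s w ≤ r) (h2 : r ≤ s) : |lt M S A s w - lt M S A r w| ≤ 8 * M.d1 := by
  have g := not_Ex_of hw h
  have g1 := abs_le.1 (lt_move_x S A (h1.trans h2) hw g)
  have g2 := abs_le.1 (lt_move_x S A h1 hw (fun hh => g (Ex_mono M h2 hh)))
  rw [abs_le]
  constructor <;> linarith [g1.1, g1.2, g2.1, g2.2]

/-- **ALL TABLES** of a triple which was not moved at `v` at the public start and is not listed, inside the exact epoch -/
theorem lt_unm_pub {v : Fin 3} (S A : Finset (Fin 3)) {r s : ℕ} {w : Om} (hw : M.P.p w ≠ 0)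
    (h : ¬ Mv M v (nu M s w) w) (hl : ¬ Lst M (nu M s w) s w) (h1 : MV.tau M v s w ≤ r) (h2 : r ≤ s) :
    |lt M S A s w - lt M S A r w| ≤ 8 * M.d1 + 8 * M.d0 := by
  have hns : nu M s w ≤ s := stg_le s w
  have hd0 := M.hd0
  have hd1 := M.hd1
  have ht := MV4.not_tau hns hl v
  rcases le_total (nu M s w) r with g | g
  · have g1 := lt_unl S A hw hl g h2
    linarith
  · have g1 := abs_le.1 (lt_unl S A hw hl le_rfl hns)
    have g2 := abs_le.1 (lt_unm S A hw h (by rw [← ht]; exact h1) g)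
    rw [abs_le]
    constructor <;> linarith [g1.1, g1.2, g2.1, g2.2]

end ms

/-! ### the run -/

section run

variable {X β γ φ : Type} [Fintype X] [Fintype β] [Fintype φ] [Nonempty X] [Nonempty β]
variable {D : HD (Fin 3) X β γ φ} {al : ℝ} {h : D.Thick al} {N : Finset (Fin 3) → ℝ} {SS : Finset (Finset (Fin 3))}
  {v : ℕ → Finset (Fin 3) → X → (Fin 3 → β) → Pt (Fin 3) X β φ}
variable {dg : ℕ → X → ℝ} {prr : ℕ → Fin 3 → φ → φ} {T : ℕ} {Lam : ℝ} {W : Type} [Fintype W] (tb : Tab D prr T W)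

/-- the state of the tables comes after the start -/
theorem le_eT (τ : ℕ) (w : Om W X β) : τ ≤ eT v tb τ w := by
  unfold eT
  split <;> omega

/-- RULE L : the state of the tables comes before the removal -/
theorem eT_le {τ q : ℕ} {w : Om W X β} (hτ : τ ≤ q) (hq : ¬ ltL v tb q w) : eT v tb τ w ≤ q := by
  unfold eT
  by_cases h1 : ltL v tb τ w
  · rw [if_pos h1]
    rcases Nat.lt_or_ge (τ / 5) (q / 5) with h2 | h2
    · omega
    · exfalso
      have h3 : τ / 5 = q / 5 := le_antisymm (Nat.div_le_div_right hτ) h2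
      refine hq ⟨?_, ?_⟩
      · have := h1.1
        omega
      · rw [← h3]
        exact h1.2
  · rw [if_neg h1]
    exact hτ

theorem eT_div {τ q : ℕ} {w : Om W X β} (hτ : τ ≤ q) (hq : ¬ ltL v tb q w) (hT : q / 5 ≤ T) : eT v tb τ w / 5 ≤ T :=
  (Nat.div_le_div_right (eT_le tb hτ hq)).trans hT

variable {d1 kb d0 k0 p1 z : ℝ} (hd1 : 0 < d1) (hd11 : d1 ≤ 1) (hkb : 0 < kb) (hd0 : 0 < d0) (hd01 : d0 ≤ 1) (hk0 : 0 < k0)
  (hp1 : 0 < p1) (hz : 0 < z)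

/-- the single of the top `i` : log of the law given all thin letters over the own law, true point, tables of `q` -/
def sg3 (i : Fin 3) (q : ℕ) (w : Om W X β) : ℝ :=
  Real.log (mF (D.P h (q / 5)) (ZQ D v q) (FQ v (q / 5)) i (tb.pt (q / 5) w) (FQ v (q / 5) i (tb.pt (q / 5) w)) /
    qF (D.P h (q / 5)) (ZbQ D v q) (FQ v (q / 5)) i (tb.pt (q / 5) w) (FQ v (q / 5) i (tb.pt (q / 5) w)))

theorem sg3_lt (H : D.Hyp dg prr al T Lam) (R : Run h N SS (AdmDep D) v) (hS : ∀ l, univ.erase l ∈ SS) (hu : univ ∉ SS)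
    (hN : ∀ l, 0 < N (univ.erase l)) {q : ℕ} (hq : q / 5 ≤ T) (i : Fin 3) {w : Om W X β} (hw : tb.Ps.p w ≠ 0) :
    sg3 (h := h) (v := v) tb i q w = lt (MSi tb (v := v) d1 kb d0 k0 p1 z hd1 hd11 hkb hd0 hd01 hk0 hp1 hz) univ {i} q w -
      lt (MSi tb (v := v) d1 kb d0 k0 p1 z hd1 hd11 hkb hd0 hd01 hk0 hp1 hz) (univ.erase i) {i} q w := by
  have hpw := (pul_pt h tb hq).ne hw
  have h1 := sp_Zb tb hd1 hd11 hkb hd0 hd01 hk0 hp1 hz H R hS hu hN hq i hw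
  have h2 := sp_ZG tb hd1 hd11 hkb hd0 hd01 hk0 hp1 hz H R hS hu hN hq {i} hw (G := FQ v (q / 5) i)
    (fun a b => ⟨fun hh j hj => by rw [Finset.mem_singleton.1 hj]; exact hh, fun hh => hh i (Finset.mem_singleton_self i)⟩)
  have m1 := (D.P h (q / 5)).m_pos (ZQ D v q) hpw
  have m2 := (D.P h (q / 5)).m_pos (ZbQ D v q i) hpw
  have m3 := (D.P h (q / 5)).m_pos (fun u => (FQ v (q / 5) i u, ZQ D v q u)) hpw
  have m4 := (D.P h (q / 5)).m_pos (fun u => (FQ v (q / 5) i u, ZbQ D v q i u)) hpw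
  have e1 : mF (D.P h (q / 5)) (ZQ D v q) (FQ v (q / 5)) i (tb.pt (q / 5) w) (FQ v (q / 5) i (tb.pt (q / 5) w)) =
      (D.P h (q / 5)).m (fun u => (FQ v (q / 5) i u, ZQ D v q u)) (tb.pt (q / 5) w) /
        (D.P h (q / 5)).m (ZQ D v q) (tb.pt (q / 5) w) := FP.pv_self _ _ _ _
  have e2 : qF (D.P h (q / 5)) (ZbQ D v q) (FQ v (q / 5)) i (tb.pt (q / 5) w) (FQ v (q / 5) i (tb.pt (q / 5) w)) =
      (D.P h (q / 5)).m (fun u => (FQ v (q / 5) i u, ZbQ D v q i u)) (tb.pt (q / 5) w) /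
        (D.P h (q / 5)).m (ZbQ D v q i) (tb.pt (q / 5) w) := FP.pv_self _ _ _ _
  unfold sg3
  rw [e1, e2, Real.log_div (div_pos m3 m1).ne' (div_pos m4 m2).ne', Real.log_div m3.ne' m1.ne',
    Real.log_div m4.ne' m2.ne']
  unfold sp at h1 h2
  linarith

/-- the log density of the true tuple, tables of a stable triple -/
theorem ps_stb (H : D.Hyp dg prr al T Lam) (R : Run h N SS (AdmDep D) v) (hS : ∀ l, univ.erase l ∈ SS) (hu : univ ∉ SS)
    (hN : ∀ l, 0 < N (univ.erase l)) {q r : ℕ} (hq : q / 5 ≤ T) (hr : r / 5 ≤ T) {w : Om W X β} (hw : tb.Ps.p w ≠ 0)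
    {i : Fin 3} {e : ℝ} (hs : Stb (MSi tb (v := v) d1 kb d0 k0 p1 z hd1 hd11 hkb hd0 hd01 hk0 hp1 hz) i e r q w) :
    |pq3 h v tb q w - pq3 h v tb r w| ≤ 8 * e + |sg3 (h := h) (v := v) tb i q w| + |sg3 (h := h) (v := v) tb i r w| := by
  set M := MSi tb (v := v) d1 kb d0 k0 p1 z hd1 hd11 hkb hd0 hd01 hk0 hp1 hz with hM
  have hwM : M.P.p w ≠ 0 := hw
  have p1' := pq3_lt tb hd1 hd11 hkb hd0 hd01 hk0 hp1 hz H R hS hu hN hq hw
  have p2' := pq3_lt tb hd1 hd11 hkb hd0 hd01 hk0 hp1 hz H R hS hu hN hr hw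
  have s1 := sg3_lt tb hd1 hd11 hkb hd0 hd01 hk0 hp1 hz H R hS hu hN hq i hw
  have s2 := sg3_lt tb hd1 hd11 hkb hd0 hd01 hk0 hp1 hz H R hS hu hN hr i hw
  rw [← hM] at p1' p2' s1 s2
  have a0 := abs_le.1 (lt_stb (mem_univ i) univ hwM hs)
  have a1 := abs_le.1 (lt_stb (mem_univ i) {i} hwM hs)
  have a2 : ∀ j, j ≠ i → |lt M (univ.erase j) {j} q w - lt M (univ.erase j) {j} r w| ≤ 2 * e := fun j hj =>
    lt_stb (Finset.mem_erase.2 ⟨hj.symm, mem_univ i⟩) {j} hwM hs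
  have g1 := neg_abs_le (sg3 (h := h) (v := v) tb i q w)
  have g2 := le_abs_self (sg3 (h := h) (v := v) tb i q w)
  have g3 := neg_abs_le (sg3 (h := h) (v := v) tb i r w)
  have g4 := le_abs_self (sg3 (h := h) (v := v) tb i r w)
  rw [← Finset.add_sum_erase univ _ (mem_univ i)] at p1' p2'
  have c1 : (univ.erase i : Finset (Fin 3)).card = 2 := by rw [Finset.card_erase_of_mem (mem_univ i)]; rfl
  have b1 : |∑ j ∈ univ.erase i, lt M (univ.erase j) {j} q w - ∑ j ∈ univ.erase i, lt M (univ.erase j) {j} r w| ≤ 4 * e := by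
    rw [← Finset.sum_sub_distrib]
    refine (Finset.abs_sum_le_sum_abs _ _).trans ((Finset.sum_le_sum fun j hj => a2 j (Finset.ne_of_mem_erase hj)).trans
      (le_of_eq ?_))
    rw [Finset.sum_const, c1]
    ring
  have b2 := abs_le.1 b1
  rw [p1', p2', abs_le]
  constructor <;> linarith [a0.1, a0.2, a1.1, a1.2, b2.1, b2.2]

/-- the log density when all the tables are close -/
theorem ps_of (H : D.Hyp dg prr al T Lam) (R : Run h N SS (AdmDep D) v) (hS : ∀ l, univ.erase l ∈ SS) (hu : univ ∉ SS)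
    (hN : ∀ l, 0 < N (univ.erase l)) {q r : ℕ} (hq : q / 5 ≤ T) (hr : r / 5 ≤ T) {w : Om W X β} (hw : tb.Ps.p w ≠ 0) {e : ℝ}
    (hs : ∀ S A, |lt (MSi tb (v := v) d1 kb d0 k0 p1 z hd1 hd11 hkb hd0 hd01 hk0 hp1 hz) S A q w -
      lt (MSi tb (v := v) d1 kb d0 k0 p1 z hd1 hd11 hkb hd0 hd01 hk0 hp1 hz) S A r w| ≤ e) :
    |pq3 h v tb q w - pq3 h v tb r w| ≤ 4 * e := by
  set M := MSi tb (v := v) d1 kb d0 k0 p1 z hd1 hd11 hkb hd0 hd01 hk0 hp1 hz with hM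
  have p1' := pq3_lt tb hd1 hd11 hkb hd0 hd01 hk0 hp1 hz H R hS hu hN hq hw
  have p2' := pq3_lt tb hd1 hd11 hkb hd0 hd01 hk0 hp1 hz H R hS hu hN hr hw
  rw [← hM] at p1' p2'
  have a0 := abs_le.1 (hs univ univ)
  have a1 : |∑ j, lt M (univ.erase j) {j} q w - ∑ j, lt M (univ.erase j) {j} r w| ≤ 3 * e := by
    rw [← Finset.sum_sub_distrib]
    refine (Finset.abs_sum_le_sum_abs _ _).trans ((Finset.sum_le_sum fun j _ => hs (univ.erase j) {j}).trans (le_of_eq ?_))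
    rw [Finset.sum_const, Finset.card_univ, Fintype.card_fin]
    norm_num
  have a2 := abs_le.1 a1
  rw [p1', p2', abs_le]
  constructor <;> linarith [a0.1, a0.2, a2.1, a2.2]

/-- the single of the top `i` when all the tables are close -/
theorem sg_of (H : D.Hyp dg prr al T Lam) (R : Run h N SS (AdmDep D) v) (hS : ∀ l, univ.erase l ∈ SS) (hu : univ ∉ SS)
    (hN : ∀ l, 0 < N (univ.erase l)) {q r : ℕ} (hq : q / 5 ≤ T) (hr : r / 5 ≤ T) {w : Om W X β} (hw : tb.Ps.p w ≠ 0) {e : ℝ}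
    (hs : ∀ S A, |lt (MSi tb (v := v) d1 kb d0 k0 p1 z hd1 hd11 hkb hd0 hd01 hk0 hp1 hz) S A q w -
      lt (MSi tb (v := v) d1 kb d0 k0 p1 z hd1 hd11 hkb hd0 hd01 hk0 hp1 hz) S A r w| ≤ e) (j : Fin 3) :
    |sg3 (h := h) (v := v) tb j q w - sg3 (h := h) (v := v) tb j r w| ≤ 2 * e := by
  have s1 := sg3_lt tb hd1 hd11 hkb hd0 hd01 hk0 hp1 hz H R hS hu hN hq j hw
  have s2 := sg3_lt tb hd1 hd11 hkb hd0 hd01 hk0 hp1 hz H R hS hu hN hr j hw
  have a0 := abs_le.1 (hs univ {j})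
  have a1 := abs_le.1 (hs (univ.erase j) {j})
  rw [s1, s2, abs_le]
  constructor <;> linarith [a0.1, a0.2, a1.1, a1.2]

/-! ### private removal of the vertex `i`, state `q`; `r` = any state of the life -/

/-- **PRIVATE REMOVAL** : log density at the removal and at any state of the exact epoch (no condition on singles) -/
theorem ps_prv1 (H : D.Hyp dg prr al T Lam) (R : Run h N SS (AdmDep D) v) (hS : ∀ l, univ.erase l ∈ SS) (hu : univ ∉ SS)
    (hN : ∀ l, 0 < N (univ.erase l)) {q : ℕ} (hq : q / 5 ≤ T) {w : Om W X β} (hw : tb.Ps.p w ≠ 0) {i : Fin 3}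
    (hm : ¬ MV.Mv (MSi tb (v := v) d1 kb d0 k0 p1 z hd1 hd11 hkb hd0 hd01 hk0 hp1 hz) i q w) {r : ℕ}
    (h1 : MV.tau (MSi tb (v := v) d1 kb d0 k0 p1 z hd1 hd11 hkb hd0 hd01 hk0 hp1 hz) i q w ≤ r) (h2 : r ≤ q) :
    |pq3 h v tb q w - pq3 h v tb r w| ≤ 32 * d1 := by
  refine (ps_of tb hd1 hd11 hkb hd0 hd01 hk0 hp1 hz H R hS hu hN hq ((Nat.div_le_div_right h2).trans hq) hw
    (fun S A => lt_unm S A hw hm h1 h2)).trans (le_of_eq ?_)
  show 4 * (8 * d1) = _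
  ring

/-- **PRIVATE REMOVAL** : the singles at the removal and at any state of the exact epoch -/
theorem sg3_prv1 (H : D.Hyp dg prr al T Lam) (R : Run h N SS (AdmDep D) v) (hS : ∀ l, univ.erase l ∈ SS) (hu : univ ∉ SS)
    (hN : ∀ l, 0 < N (univ.erase l)) {q : ℕ} (hq : q / 5 ≤ T) {w : Om W X β} (hw : tb.Ps.p w ≠ 0) {i : Fin 3}
    (hm : ¬ MV.Mv (MSi tb (v := v) d1 kb d0 k0 p1 z hd1 hd11 hkb hd0 hd01 hk0 hp1 hz) i q w) {r : ℕ}
    (h1 : MV.tau (MSi tb (v := v) d1 kb d0 k0 p1 z hd1 hd11 hkb hd0 hd01 hk0 hp1 hz) i q w ≤ r) (h2 : r ≤ q) (j : Fin 3) :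
    |sg3 (h := h) (v := v) tb j q w - sg3 (h := h) (v := v) tb j r w| ≤ 16 * d1 := by
  refine (sg_of tb hd1 hd11 hkb hd0 hd01 hk0 hp1 hz H R hS hu hN hq ((Nat.div_le_div_right h2).trans hq) hw
    (fun S A => lt_unm S A hw hm h1 h2) j).trans (le_of_eq ?_)
  show 2 * (8 * d1) = _
  ring

/-- **PRIVATE REMOVAL** : log density at the removal and at any state of the exact epoch -/
theorem ps_prv (H : D.Hyp dg prr al T Lam) (R : Run h N SS (AdmDep D) v) (hS : ∀ l, univ.erase l ∈ SS) (hu : univ ∉ SS)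
    (hN : ∀ l, 0 < N (univ.erase l)) {q : ℕ} (hq : q / 5 ≤ T) {w : Om W X β} (hw : tb.Ps.p w ≠ 0) {i : Fin 3}
    (hm : ¬ MV.Mv (MSi tb (v := v) d1 kb d0 k0 p1 z hd1 hd11 hkb hd0 hd01 hk0 hp1 hz) i q w) {r : ℕ}
    (h1 : MV.tau (MSi tb (v := v) d1 kb d0 k0 p1 z hd1 hd11 hkb hd0 hd01 hk0 hp1 hz) i q w ≤ r) (h2 : r ≤ q) :
    |pq3 h v tb q w - pq3 h v tb r w| ≤ 32 * d1 + |sg3 (h := h) (v := v) tb i q w| + |sg3 (h := h) (v := v) tb i r w| := by
  have h3 := stb_of (show (MSi tb (v := v) d1 kb d0 k0 p1 z hd1 hd11 hkb hd0 hd01 hk0 hp1 hz).P.p w ≠ 0 from hw) hm h1 h2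
  have h4 := ps_stb tb hd1 hd11 hkb hd0 hd01 hk0 hp1 hz H R hS hu hN hq ((Nat.div_le_div_right h2).trans hq) hw h3
  refine h4.trans (le_of_eq ?_)
  show 8 * (4 * d1) + _ + _ = _
  ring

/-- **PRIVATE REMOVAL** : the kinds at the removal and at any state of the exact epoch -/
theorem kq_prv (H : D.Hyp dg prr al T Lam) (R : Run h N SS (AdmDep D) v) (hS : ∀ l, univ.erase l ∈ SS) (hu : univ ∉ SS)
    (hN : ∀ l, 0 < N (univ.erase l)) {c : KC} (h3 : 0 < c.dH) (h4 : c.dH ≤ 1 / 4) (he : d1 ≤ 1 / 400) {q : ℕ}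
    (hq : q / 5 ≤ T) {w : Om W X β} (hw : tb.Ps.p w ≠ 0) {i : Fin 3}
    (hm : ¬ MV.Mv (MSi tb (v := v) d1 kb d0 k0 p1 z hd1 hd11 hkb hd0 hd01 hk0 hp1 hz) i q w) {r : ℕ}
    (h1 : MV.tau (MSi tb (v := v) d1 kb d0 k0 p1 z hd1 hd11 hkb hd0 hd01 hk0 hp1 hz) i q w ≤ r) (h2 : r ≤ q)
    (hn : ¬ nrT (MSi tb (v := v) d1 kb d0 k0 p1 z hd1 hd11 hkb hd0 hd01 hk0 hp1 hz) c (4000 * d1) q w) (κ : Fin 10) :
    kq3 h v tb c κ q w ↔ kq3 h v tb c κ r w := by
  set M := MSi tb (v := v) d1 kb d0 k0 p1 z hd1 hd11 hkb hd0 hd01 hk0 hp1 hz with hM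
  have hwM : M.P.p w ≠ 0 := hw
  have g1 := stb_of hwM hm h1 h2
  have e0 : M.d1 = d1 := rfl
  rw [e0] at g1
  have g2 := kd_iff h3 h4 (show 0 ≤ 4 * d1 by linarith) (show 4 * d1 ≤ 1 / 100 by linarith) h2 hwM g1
    (by rw [show 1000 * (4 * d1) = 4000 * d1 by ring]; exact hn) κ
  rw [kq3_iff tb hd1 hd11 hkb hd0 hd01 hk0 hp1 hz H R hS hu hN hq hw c κ,
    kq3_iff tb hd1 hd11 hkb hd0 hd01 hk0 hp1 hz H R hS hu hN ((Nat.div_le_div_right h2).trans hq) hw c κ]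
  exact g2

/-! ### public removal, state `q` -/

/-- **PUBLIC REMOVAL** : log density at the removal and at any state of the exact epoch of the vertex `i` -/
theorem ps_pub (H : D.Hyp dg prr al T Lam) (R : Run h N SS (AdmDep D) v) (hS : ∀ l, univ.erase l ∈ SS) (hu : univ ∉ SS)
    (hN : ∀ l, 0 < N (univ.erase l)) {q : ℕ} (hq : q / 5 ≤ T) {w : Om W X β} (hw : tb.Ps.p w ≠ 0) {i : Fin 3}
    (hm : ¬ MV.Mv (MSi tb (v := v) d1 kb d0 k0 p1 z hd1 hd11 hkb hd0 hd01 hk0 hp1 hz) i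
      (nu (MSi tb (v := v) d1 kb d0 k0 p1 z hd1 hd11 hkb hd0 hd01 hk0 hp1 hz) q w) w)
    (hL : ¬ 0 < tb.Ps.ce (TH (MSi tb (v := v) d1 kb d0 k0 p1 z hd1 hd11 hkb hd0 hd01 hk0 hp1 hz) q) (fun u =>
      ind (Lst (MSi tb (v := v) d1 kb d0 k0 p1 z hd1 hd11 hkb hd0 hd01 hk0 hp1 hz)
        (nu (MSi tb (v := v) d1 kb d0 k0 p1 z hd1 hd11 hkb hd0 hd01 hk0 hp1 hz) q w) q u)) w) {r : ℕ}
    (h1 : MV.tau (MSi tb (v := v) d1 kb d0 k0 p1 z hd1 hd11 hkb hd0 hd01 hk0 hp1 hz) i q w ≤ r) (h2 : r ≤ q) :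
    |pq3 h v tb q w - pq3 h v tb r w| ≤ 32 * d1 + 128 * d0 + |sg3 (h := h) (v := v) tb i q w| +
      |sg3 (h := h) (v := v) tb i r w| := by
  set M := MSi tb (v := v) d1 kb d0 k0 p1 z hd1 hd11 hkb hd0 hd01 hk0 hp1 hz with hM
  have hwM : M.P.p w ≠ 0 := hw
  obtain ⟨-, h3⟩ := stb_pub hwM hm hL h1 h2
  have h4 := ps_stb tb hd1 hd11 hkb hd0 hd01 hk0 hp1 hz H R hS hu hN hq ((Nat.div_le_div_right h2).trans hq) hw h3
  refine h4.trans (le_of_eq ?_)
  show 8 * (4 * d1 + 16 * d0) + _ + _ = _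
  ring

/-- **PUBLIC REMOVAL** : log density at the removal and at any state of the exact epoch of `i` (no condition on singles) -/
theorem ps_pub1 (H : D.Hyp dg prr al T Lam) (R : Run h N SS (AdmDep D) v) (hS : ∀ l, univ.erase l ∈ SS) (hu : univ ∉ SS)
    (hN : ∀ l, 0 < N (univ.erase l)) {q : ℕ} (hq : q / 5 ≤ T) {w : Om W X β} (hw : tb.Ps.p w ≠ 0) {i : Fin 3}
    (hm : ¬ MV.Mv (MSi tb (v := v) d1 kb d0 k0 p1 z hd1 hd11 hkb hd0 hd01 hk0 hp1 hz) i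
      (nu (MSi tb (v := v) d1 kb d0 k0 p1 z hd1 hd11 hkb hd0 hd01 hk0 hp1 hz) q w) w)
    (hL : ¬ Lst (MSi tb (v := v) d1 kb d0 k0 p1 z hd1 hd11 hkb hd0 hd01 hk0 hp1 hz)
        (nu (MSi tb (v := v) d1 kb d0 k0 p1 z hd1 hd11 hkb hd0 hd01 hk0 hp1 hz) q w) q w) {r : ℕ}
    (h1 : MV.tau (MSi tb (v := v) d1 kb d0 k0 p1 z hd1 hd11 hkb hd0 hd01 hk0 hp1 hz) i q w ≤ r) (h2 : r ≤ q) :
    |pq3 h v tb q w - pq3 h v tb r w| ≤ 32 * d1 + 32 * d0 := by
  refine (ps_of tb hd1 hd11 hkb hd0 hd01 hk0 hp1 hz H R hS hu hN hq ((Nat.div_le_div_right h2).trans hq) hw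
    (fun S A => lt_unm_pub S A hw hm hL h1 h2)).trans (le_of_eq ?_)
  show 4 * (8 * d1 + 8 * d0) = _
  ring

/-- **PUBLIC REMOVAL** : the singles at the removal and at any state of the exact epoch of `i` -/
theorem sg3_pub1 (H : D.Hyp dg prr al T Lam) (R : Run h N SS (AdmDep D) v) (hS : ∀ l, univ.erase l ∈ SS) (hu : univ ∉ SS)
    (hN : ∀ l, 0 < N (univ.erase l)) {q : ℕ} (hq : q / 5 ≤ T) {w : Om W X β} (hw : tb.Ps.p w ≠ 0) {i : Fin 3}
    (hm : ¬ MV.Mv (MSi tb (v := v) d1 kb d0 k0 p1 z hd1 hd11 hkb hd0 hd01 hk0 hp1 hz) i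
      (nu (MSi tb (v := v) d1 kb d0 k0 p1 z hd1 hd11 hkb hd0 hd01 hk0 hp1 hz) q w) w)
    (hL : ¬ Lst (MSi tb (v := v) d1 kb d0 k0 p1 z hd1 hd11 hkb hd0 hd01 hk0 hp1 hz)
        (nu (MSi tb (v := v) d1 kb d0 k0 p1 z hd1 hd11 hkb hd0 hd01 hk0 hp1 hz) q w) q w) {r : ℕ}
    (h1 : MV.tau (MSi tb (v := v) d1 kb d0 k0 p1 z hd1 hd11 hkb hd0 hd01 hk0 hp1 hz) i q w ≤ r) (h2 : r ≤ q) (j : Fin 3) :
    |sg3 (h := h) (v := v) tb j q w - sg3 (h := h) (v := v) tb j r w| ≤ 16 * d1 + 16 * d0 := by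
  refine (sg_of tb hd1 hd11 hkb hd0 hd01 hk0 hp1 hz H R hS hu hN hq ((Nat.div_le_div_right h2).trans hq) hw
    (fun S A => lt_unm_pub S A hw hm hL h1 h2) j).trans (le_of_eq ?_)
  show 2 * (8 * d1 + 8 * d0) = _
  ring

/-- **PUBLIC REMOVAL** : the kinds at the removal and at any state of the exact epoch of the vertex `i` -/
theorem kq_pub (H : D.Hyp dg prr al T Lam) (R : Run h N SS (AdmDep D) v) (hS : ∀ l, univ.erase l ∈ SS) (hu : univ ∉ SS)
    (hN : ∀ l, 0 < N (univ.erase l)) {c : KC} (h3 : 0 < c.dH) (h4 : c.dH ≤ 1 / 4) (he : 4 * d1 + 16 * d0 ≤ 1 / 100) {q : ℕ}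
    (hq : q / 5 ≤ T) {w : Om W X β} (hw : tb.Ps.p w ≠ 0) {i : Fin 3}
    (hm : ¬ MV.Mv (MSi tb (v := v) d1 kb d0 k0 p1 z hd1 hd11 hkb hd0 hd01 hk0 hp1 hz) i
      (nu (MSi tb (v := v) d1 kb d0 k0 p1 z hd1 hd11 hkb hd0 hd01 hk0 hp1 hz) q w) w)
    (hL : ¬ 0 < tb.Ps.ce (TH (MSi tb (v := v) d1 kb d0 k0 p1 z hd1 hd11 hkb hd0 hd01 hk0 hp1 hz) q) (fun u =>
      ind (Lst (MSi tb (v := v) d1 kb d0 k0 p1 z hd1 hd11 hkb hd0 hd01 hk0 hp1 hz)
        (nu (MSi tb (v := v) d1 kb d0 k0 p1 z hd1 hd11 hkb hd0 hd01 hk0 hp1 hz) q w) q u)) w) {r : ℕ}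
    (h1 : MV.tau (MSi tb (v := v) d1 kb d0 k0 p1 z hd1 hd11 hkb hd0 hd01 hk0 hp1 hz) i q w ≤ r) (h2 : r ≤ q)
    (hn : ¬ nrT (MSi tb (v := v) d1 kb d0 k0 p1 z hd1 hd11 hkb hd0 hd01 hk0 hp1 hz) c (1000 * (4 * d1 + 16 * d0)) q w)
    (κ : Fin 10) : kq3 h v tb c κ q w ↔ kq3 h v tb c κ r w := by
  set M := MSi tb (v := v) d1 kb d0 k0 p1 z hd1 hd11 hkb hd0 hd01 hk0 hp1 hz with hM
  have hwM : M.P.p w ≠ 0 := hw
  obtain ⟨-, g1⟩ := stb_pub hwM hm hL h1 h2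
  have e0 : M.d1 = d1 := rfl
  have e1 : M.d0 = d0 := rfl
  rw [e0, e1] at g1
  have g2 := kd_iff h3 h4 (show 0 ≤ 4 * d1 + 16 * d0 by linarith) he h2 hwM g1 hn κ
  rw [kq3_iff tb hd1 hd11 hkb hd0 hd01 hk0 hp1 hz H R hS hu hN hq hw c κ,
    kq3_iff tb hd1 hd11 hkb hd0 hd01 hk0 hp1 hz H R hS hu hN ((Nat.div_le_div_right h2).trans hq) hw c κ]
  exact g2

/-- **PUBLIC REMOVAL** : log density at the removal and at any state of the public epoch -/
theorem ps_nu (H : D.Hyp dg prr al T Lam) (R : Run h N SS (AdmDep D) v) (hS : ∀ l, univ.erase l ∈ SS) (hu : univ ∉ SS)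
    (hN : ∀ l, 0 < N (univ.erase l)) {q : ℕ} (hq : q / 5 ≤ T) {w : Om W X β} (hw : tb.Ps.p w ≠ 0)
    (hL : ¬ Lst (MSi tb (v := v) d1 kb d0 k0 p1 z hd1 hd11 hkb hd0 hd01 hk0 hp1 hz)
        (nu (MSi tb (v := v) d1 kb d0 k0 p1 z hd1 hd11 hkb hd0 hd01 hk0 hp1 hz) q w) q w) {r : ℕ}
    (h1 : nu (MSi tb (v := v) d1 kb d0 k0 p1 z hd1 hd11 hkb hd0 hd01 hk0 hp1 hz) q w ≤ r) (h2 : r ≤ q) :
    |pq3 h v tb q w - pq3 h v tb r w| ≤ 32 * d0 := by
  set M := MSi tb (v := v) d1 kb d0 k0 p1 z hd1 hd11 hkb hd0 hd01 hk0 hp1 hz with hM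
  have hwM : M.P.p w ≠ 0 := hw
  have p1' := pq3_lt tb hd1 hd11 hkb hd0 hd01 hk0 hp1 hz H R hS hu hN hq hw
  have p2' := pq3_lt tb hd1 hd11 hkb hd0 hd01 hk0 hp1 hz H R hS hu hN ((Nat.div_le_div_right h2).trans hq) hw
  rw [← hM] at p1' p2'
  have a0 := abs_le.1 (lt_unl univ univ hwM hL h1 h2)
  have a1 : |∑ j, lt M (univ.erase j) {j} q w - ∑ j, lt M (univ.erase j) {j} r w| ≤ 3 * (8 * M.d0) := by
    rw [← Finset.sum_sub_distrib]
    refine (Finset.abs_sum_le_sum_abs _ _).trans ((Finset.sum_le_sum fun j _ => lt_unl (univ.erase j) {j} hwM hL h1 h2).trans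
      (le_of_eq ?_))
    rw [Finset.sum_const, Finset.card_univ, Fintype.card_fin]
    norm_num
  have a2 := abs_le.1 a1
  have e0 : M.d0 = d0 := rfl
  rw [e0] at a0 a2
  rw [p1', p2', abs_le]
  constructor <;> linarith [a0.1, a0.2, a2.1, a2.2]

/-- **PUBLIC REMOVAL** : the kinds at the removal and at any state of the public epoch -/
theorem kq_nu (H : D.Hyp dg prr al T Lam) (R : Run h N SS (AdmDep D) v) (hS : ∀ l, univ.erase l ∈ SS) (hu : univ ∉ SS)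
    (hN : ∀ l, 0 < N (univ.erase l)) {c : KC} (h3 : 0 < c.dH) (h4 : c.dH ≤ 1 / 4) (he : 8 * d0 ≤ 1 / 100) {q : ℕ}
    (hq : q / 5 ≤ T) {w : Om W X β} (hw : tb.Ps.p w ≠ 0)
    (hL : ¬ 0 < tb.Ps.ce (TH (MSi tb (v := v) d1 kb d0 k0 p1 z hd1 hd11 hkb hd0 hd01 hk0 hp1 hz) q) (fun u =>
      ind (Lst (MSi tb (v := v) d1 kb d0 k0 p1 z hd1 hd11 hkb hd0 hd01 hk0 hp1 hz)
        (nu (MSi tb (v := v) d1 kb d0 k0 p1 z hd1 hd11 hkb hd0 hd01 hk0 hp1 hz) q w) q u)) w) {r : ℕ}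
    (h1 : nu (MSi tb (v := v) d1 kb d0 k0 p1 z hd1 hd11 hkb hd0 hd01 hk0 hp1 hz) q w ≤ r) (h2 : r ≤ q)
    (hn : ¬ nrT (MSi tb (v := v) d1 kb d0 k0 p1 z hd1 hd11 hkb hd0 hd01 hk0 hp1 hz) c (8000 * d0) q w)
    (κ : Fin 10) : kq3 h v tb c κ q w ↔ kq3 h v tb c κ r w := by
  set M := MSi tb (v := v) d1 kb d0 k0 p1 z hd1 hd11 hkb hd0 hd01 hk0 hp1 hz with hM
  have hwM : M.P.p w ≠ 0 := hw
  have g1 := stb_nu (v := 0) hwM hL h1 h2
  have e1 : M.d0 = d0 := rfl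
  rw [e1] at g1
  have g2 := kd_iff h3 h4 (show 0 ≤ 8 * d0 by linarith) he h2 hwM g1
    (by rw [show 1000 * (8 * d0) = 8000 * d0 by ring]; exact hn) κ
  rw [kq3_iff tb hd1 hd11 hkb hd0 hd01 hk0 hp1 hz H R hS hu hN hq hw c κ,
    kq3_iff tb hd1 hd11 hkb hd0 hd01 hk0 hp1 hz H R hS hu hN ((Nat.div_le_div_right h2).trans hq) hw c κ]
  exact g2

/-- near a threshold for a smaller width -/
theorem nrT_mono {Om : Type} [Fintype Om] {M : MS Om} {c : KC} {x y : ℝ} (hxy : x ≤ y) {s : ℕ} {w : Om}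
    (hn : ¬ nrT M c y s w) : ¬ nrT M c x s w := by
  unfold nrT at hn ⊢
  push Not at hn ⊢
  obtain ⟨n1, n2, n3, n4, n5, n6⟩ := hn
  exact ⟨by linarith, fun i => lt_of_le_of_lt hxy (n2 i), fun i => lt_of_le_of_lt hxy (n3 i),
    fun i => lt_of_le_of_lt hxy (n4 i), fun i => lt_of_le_of_lt hxy (n5 i), by linarith⟩

end run

end

end Pool.Agent.GMH.KDT
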