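import Pool.Agent.GMH.StpI
import Pool.Agent.GMH.KDT3

/-!
# GMH/StpJ (helper64; row A4): the relation and the log density at a removal against the start of the life

* `qs_sO` : the state of the step of the substep `q` is `q`; `rO_kq` : the released relation is the static kind of the state `q`;
* `nl_rp`, `nl_ru` : RULE L, a real removal is not inside a level with a light public value;
* `tk_prv`, `tk_pub`, `tk_nu` : the kinds at the removal and at the start of the life (tables of RULE L);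
* `tp_prv`, `tp_pub`, `tp_nu` : the log density at the removal and at the start of the life; `lst_i`;
* `gO_le` : the signed test against the truncated log density of the start.
-/

set_option autoImplicit false
set_option linter.unusedSectionVars false

namespace Pool.Agent.GMH.TRF

open Finset Pool.Agent.PWZ Pool.Agent.M3 Pool.Agent.GM Pool.Agent.GM.Harm Pool.Agent.GMH Pool.Agent.GMH.NZ
open Pool.Agent.GMH.V3 Pool.Agent.GMH.TP Pool.Agent.GMH.TD Pool.Agent.GMH.Dy Pool.Agent.GMH.MV Pool.Agent.GMH.MVI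
open Pool.Agent.GMH.UV Pool.Agent.GMH.KF Pool.Agent.GMH.CK Pool.Agent.GMH.KDT

noncomputable section

theorem qs_sO (q : ℕ) : qs (sO q) (q / 5) = q := by
  have h5 : q % 5 < 5 := Nat.mod_lt q (by omega)
  have hq : 5 * (q / 5) + q % 5 = q := Nat.div_add_mod q 5
  by_cases h1 : q % 5 = 1
  · have : sO q = 1 := by unfold sO; rw [if_pos h1]
    rw [this]
    show 5 * (q / 5) + 1 = q
    omega
  · by_cases h2 : q % 5 = 2
    · have : sO q = 3 := by unfold sO; rw [if_neg h1, if_pos h2]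
      rw [this]
      show 5 * (q / 5) + 2 = q
      omega
    · by_cases h3 : q % 5 = 3
      · have : sO q = 4 := by unfold sO; rw [if_neg h1, if_neg h2, if_pos h3]
        rw [this]
        show 5 * (q / 5) + 3 = q
        omega
      · by_cases h4 : q % 5 = 4
        · have : sO q = 5 := by unfold sO; rw [if_neg h1, if_neg h2, if_neg h3, if_pos h4]
          rw [this]
          show 5 * (q / 5) + 4 = q
          omega
        · have : sO q = 0 := by unfold sO; rw [if_neg h1, if_neg h2, if_neg h3, if_neg h4]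
          rw [this]
          show 5 * (q / 5) = q
          omega

variable {X β γ φ : Type} [Fintype X] [Fintype β] [Fintype φ] [Nonempty X] [Nonempty β]
variable {D : HD (Fin 3) X β γ φ} {al : ℝ} {h : D.Thick al} {prr : ℕ → Fin 3 → φ → φ} {T : ℕ} {W : Type} [Fintype W]
variable (tb : Tab D prr T W) {v : ℕ → Finset (Fin 3) → X → (Fin 3 → β) → Pt (Fin 3) X β φ}
variable {N : Finset (Fin 3) → ℝ} {SS : Finset (Finset (Fin 3))} {dg : ℕ → X → ℝ} {Lam : ℝ}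

/-- the released relation is the static kind of the state `q` -/
theorem rO_kq {c : KC} {B : ℝ} {k : Fin 10} {q : ℕ} {w : Om W X β} (hr : rO h tb v c B k q w) :
    k ∈ rK ∧ kq3 h v tb c k q w := by
  unfold rO rel3 at hr
  rw [qs_sO] at hr
  exact ⟨hr.1, hr.2.1⟩

/-- RULE L at a private removal -/
theorem nl_rp {i : Fin 3} {q : ℕ} {w : Om W X β} (hr : rpO tb v i q w) : ¬ ltL v tb q w := fun hl =>
  absurd hl.2 (not_lt.2 hr.2.2)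

/-- RULE L at a public removal -/
theorem nl_ru {q : ℕ} {w : Om W X β} (hr : ruO tb v q w) : ¬ ltL v tb q w := fun hl => by
  have := hl.1
  have := hr.1
  omega

variable {d1 kb d0 k0 p1 z : ℝ} (hd1 : 0 < d1) (hd11 : d1 ≤ 1) (hkb : 0 < kb) (hd0 : 0 < d0) (hd01 : d0 ≤ 1) (hk0 : 0 < k0)
  (hp1 : 0 < p1) (hz : 0 < z)

section tr

variable (H : D.Hyp dg prr al T Lam) (R : Run h N SS (AdmDep D) v) (hS : ∀ l, univ.erase l ∈ SS) (hu : univ ∉ SS)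
  (hN : ∀ l, 0 < N (univ.erase l))

/-- the start of the life, its tables and the removal -/
theorem st_rm {q : ℕ} {w : Om W X β} (i : Fin 3) (hl : ¬ ltL v tb q w) :
    MV.tau (MSi tb (v := v) d1 kb d0 k0 p1 z hd1 hd11 hkb hd0 hd01 hk0 hp1 hz) i q w ≤
      eT v tb (MV.tauS (MSi tb (v := v) d1 kb d0 k0 p1 z hd1 hd11 hkb hd0 hd01 hk0 hp1 hz) i q w) w ∧
    eT v tb (MV.tauS (MSi tb (v := v) d1 kb d0 k0 p1 z hd1 hd11 hkb hd0 hd01 hk0 hp1 hz) i q w) w ≤ q :=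
  ⟨(tau_tauS i q w).trans (le_eT tb _ w), eT_le tb (tauS_le i q w) hl⟩

/-- the public start, its tables and the removal -/
theorem st_nu {q : ℕ} {w : Om W X β} (hl : ¬ ltL v tb q w) :
    MV.nu (MSi tb (v := v) d1 kb d0 k0 p1 z hd1 hd11 hkb hd0 hd01 hk0 hp1 hz) q w ≤
      eT v tb (MV.nu (MSi tb (v := v) d1 kb d0 k0 p1 z hd1 hd11 hkb hd0 hd01 hk0 hp1 hz) q w) w ∧
    eT v tb (MV.nu (MSi tb (v := v) d1 kb d0 k0 p1 z hd1 hd11 hkb hd0 hd01 hk0 hp1 hz) q w) w ≤ q :=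
  ⟨le_eT tb _ w, eT_le tb (MV.nu_le q w) hl⟩

include H R hS hu hN

/-- **PRIVATE REMOVAL**, kinds -/
theorem tk_prv {c : KC} (h3 : 0 < c.dH) (h4 : c.dH ≤ 1 / 4) (he : d1 ≤ 1 / 400) {q : ℕ} (hq : q / 5 ≤ T)
    {w : Om W X β} (hw : tb.Ps.p w ≠ 0) {i : Fin 3} (hr : rpO tb v i q w)
    (hm : ¬ MV.Mv (MSi tb (v := v) d1 kb d0 k0 p1 z hd1 hd11 hkb hd0 hd01 hk0 hp1 hz) i q w)
    (hn : ¬ nrT (MSi tb (v := v) d1 kb d0 k0 p1 z hd1 hd11 hkb hd0 hd01 hk0 hp1 hz) c (4000 * d1) q w) (κ : Fin 10) :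
    kq3 h v tb c κ q w ↔
      kd3 h v tb c κ (MV.tauS (MSi tb (v := v) d1 kb d0 k0 p1 z hd1 hd11 hkb hd0 hd01 hk0 hp1 hz) i q w) w := by
  obtain ⟨g1, g2⟩ := st_rm tb hd1 hd11 hkb hd0 hd01 hk0 hp1 hz i (nl_rp tb hr)
  exact kq_prv tb hd1 hd11 hkb hd0 hd01 hk0 hp1 hz H R hS hu hN h3 h4 he hq hw hm g1 g2 hn κ

/-- **PRIVATE REMOVAL**, log density -/
theorem tp_prv {es : ℝ} {q : ℕ} (hq : q / 5 ≤ T) {w : Om W X β} (hw : tb.Ps.p w ≠ 0) {i : Fin 3} (hr : rpO tb v i q w)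
    (hm : ¬ MV.Mv (MSi tb (v := v) d1 kb d0 k0 p1 z hd1 hd11 hkb hd0 hd01 hk0 hp1 hz) i q w)
    (hs : |sg3 (h := h) (v := v) tb i q w| ≤ es) (hs' : |sg3 (h := h) (v := v) tb i
      (eT v tb (MV.tauS (MSi tb (v := v) d1 kb d0 k0 p1 z hd1 hd11 hkb hd0 hd01 hk0 hp1 hz) i q w) w) w| ≤ es) :
    |pq3 h v tb q w -
      ps3 h v tb (MV.tauS (MSi tb (v := v) d1 kb d0 k0 p1 z hd1 hd11 hkb hd0 hd01 hk0 hp1 hz) i q w) w| ≤
      32 * d1 + 2 * es := by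
  obtain ⟨g1, g2⟩ := st_rm tb hd1 hd11 hkb hd0 hd01 hk0 hp1 hz i (nl_rp tb hr)
  have g3 := ps_prv tb hd1 hd11 hkb hd0 hd01 hk0 hp1 hz H R hS hu hN hq hw hm g1 g2
  unfold ps3
  linarith

/-- **PUBLIC REMOVAL**, kinds, start of the life of a vertex -/
theorem tk_pub {c : KC} (h3 : 0 < c.dH) (h4 : c.dH ≤ 1 / 4) (he : 4 * d1 + 16 * d0 ≤ 1 / 100) {q : ℕ}
    (hq : q / 5 ≤ T) {w : Om W X β} (hw : tb.Ps.p w ≠ 0) (hr : ruO tb v q w) {i : Fin 3}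
    (hm : ¬ MV.Mv (MSi tb (v := v) d1 kb d0 k0 p1 z hd1 hd11 hkb hd0 hd01 hk0 hp1 hz) i
      (nu (MSi tb (v := v) d1 kb d0 k0 p1 z hd1 hd11 hkb hd0 hd01 hk0 hp1 hz) q w) w)
    (hL : ¬ 0 < tb.Ps.ce (TH (MSi tb (v := v) d1 kb d0 k0 p1 z hd1 hd11 hkb hd0 hd01 hk0 hp1 hz) q) (fun u =>
      ind (Lst (MSi tb (v := v) d1 kb d0 k0 p1 z hd1 hd11 hkb hd0 hd01 hk0 hp1 hz)
        (nu (MSi tb (v := v) d1 kb d0 k0 p1 z hd1 hd11 hkb hd0 hd01 hk0 hp1 hz) q w) q u)) w)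
    (hn : ¬ nrT (MSi tb (v := v) d1 kb d0 k0 p1 z hd1 hd11 hkb hd0 hd01 hk0 hp1 hz) c (1000 * (4 * d1 + 16 * d0)) q w)
    (κ : Fin 10) :
    kq3 h v tb c κ q w ↔
      kd3 h v tb c κ (MV.tauS (MSi tb (v := v) d1 kb d0 k0 p1 z hd1 hd11 hkb hd0 hd01 hk0 hp1 hz) i q w) w := by
  obtain ⟨g1, g2⟩ := st_rm tb hd1 hd11 hkb hd0 hd01 hk0 hp1 hz i (nl_ru tb hr)
  exact kq_pub tb hd1 hd11 hkb hd0 hd01 hk0 hp1 hz H R hS hu hN h3 h4 he hq hw hm hL g1 g2 hn κ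

/-- **PUBLIC REMOVAL**, log density, start of the life of a vertex -/
theorem tp_pub {es : ℝ} {q : ℕ} (hq : q / 5 ≤ T) {w : Om W X β} (hw : tb.Ps.p w ≠ 0) (hr : ruO tb v q w) {i : Fin 3}
    (hm : ¬ MV.Mv (MSi tb (v := v) d1 kb d0 k0 p1 z hd1 hd11 hkb hd0 hd01 hk0 hp1 hz) i
      (nu (MSi tb (v := v) d1 kb d0 k0 p1 z hd1 hd11 hkb hd0 hd01 hk0 hp1 hz) q w) w)
    (hL : ¬ 0 < tb.Ps.ce (TH (MSi tb (v := v) d1 kb d0 k0 p1 z hd1 hd11 hkb hd0 hd01 hk0 hp1 hz) q) (fun u =>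
      ind (Lst (MSi tb (v := v) d1 kb d0 k0 p1 z hd1 hd11 hkb hd0 hd01 hk0 hp1 hz)
        (nu (MSi tb (v := v) d1 kb d0 k0 p1 z hd1 hd11 hkb hd0 hd01 hk0 hp1 hz) q w) q u)) w)
    (hs : |sg3 (h := h) (v := v) tb i q w| ≤ es) (hs' : |sg3 (h := h) (v := v) tb i
      (eT v tb (MV.tauS (MSi tb (v := v) d1 kb d0 k0 p1 z hd1 hd11 hkb hd0 hd01 hk0 hp1 hz) i q w) w) w| ≤ es) :
    |pq3 h v tb q w -
      ps3 h v tb (MV.tauS (MSi tb (v := v) d1 kb d0 k0 p1 z hd1 hd11 hkb hd0 hd01 hk0 hp1 hz) i q w) w| ≤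
      32 * d1 + 128 * d0 + 2 * es := by
  obtain ⟨g1, g2⟩ := st_rm tb hd1 hd11 hkb hd0 hd01 hk0 hp1 hz i (nl_ru tb hr)
  have g3 := ps_pub tb hd1 hd11 hkb hd0 hd01 hk0 hp1 hz H R hS hu hN hq hw hm hL g1 g2
  unfold ps3
  linarith

/-- **PUBLIC REMOVAL**, kinds, public start -/
theorem tk_nu {c : KC} (h3 : 0 < c.dH) (h4 : c.dH ≤ 1 / 4) (he : 4 * d1 + 16 * d0 ≤ 1 / 100) {q : ℕ}
    (hq : q / 5 ≤ T) {w : Om W X β} (hw : tb.Ps.p w ≠ 0) (hr : ruO tb v q w)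
    (hL : ¬ 0 < tb.Ps.ce (TH (MSi tb (v := v) d1 kb d0 k0 p1 z hd1 hd11 hkb hd0 hd01 hk0 hp1 hz) q) (fun u =>
      ind (Lst (MSi tb (v := v) d1 kb d0 k0 p1 z hd1 hd11 hkb hd0 hd01 hk0 hp1 hz)
        (nu (MSi tb (v := v) d1 kb d0 k0 p1 z hd1 hd11 hkb hd0 hd01 hk0 hp1 hz) q w) q u)) w)
    (hn : ¬ nrT (MSi tb (v := v) d1 kb d0 k0 p1 z hd1 hd11 hkb hd0 hd01 hk0 hp1 hz) c (1000 * (4 * d1 + 16 * d0)) q w)
    (κ : Fin 10) :
    kq3 h v tb c κ q w ↔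
      kd3 h v tb c κ (MV.nu (MSi tb (v := v) d1 kb d0 k0 p1 z hd1 hd11 hkb hd0 hd01 hk0 hp1 hz) q w) w := by
  obtain ⟨g1, g2⟩ := st_nu tb hd1 hd11 hkb hd0 hd01 hk0 hp1 hz (nl_ru tb hr)
  exact kq_nu tb hd1 hd11 hkb hd0 hd01 hk0 hp1 hz H R hS hu hN h3 h4 (by linarith) hq hw hL g1 g2
    (nrT_mono (by linarith) hn) κ

/-- **PUBLIC REMOVAL**, log density, public start -/
theorem tp_nu {q : ℕ} (hq : q / 5 ≤ T) {w : Om W X β} (hw : tb.Ps.p w ≠ 0) (hr : ruO tb v q w)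
    (hL : ¬ 0 < tb.Ps.ce (TH (MSi tb (v := v) d1 kb d0 k0 p1 z hd1 hd11 hkb hd0 hd01 hk0 hp1 hz) q) (fun u =>
      ind (Lst (MSi tb (v := v) d1 kb d0 k0 p1 z hd1 hd11 hkb hd0 hd01 hk0 hp1 hz)
        (nu (MSi tb (v := v) d1 kb d0 k0 p1 z hd1 hd11 hkb hd0 hd01 hk0 hp1 hz) q w) q u)) w) :
    |pq3 h v tb q w -
      ps3 h v tb (MV.nu (MSi tb (v := v) d1 kb d0 k0 p1 z hd1 hd11 hkb hd0 hd01 hk0 hp1 hz) q w) w| ≤ 32 * d0 := by
  obtain ⟨g1, g2⟩ := st_nu tb hd1 hd11 hkb hd0 hd01 hk0 hp1 hz (nl_ru tb hr)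
  exact ps_nu tb hd1 hd11 hkb hd0 hd01 hk0 hp1 hz H R hS hu hN hq hw
    (unl_self (M := MSi tb (v := v) d1 kb d0 k0 p1 z hd1 hd11 hkb hd0 hd01 hk0 hp1 hz) hw hL) g1 g2

end tr

/-- the lives start before the public epoch -/
theorem lst_i {q : ℕ} {w : Om W X β} (hw : tb.Ps.p w ≠ 0)
    (hL : ¬ 0 < tb.Ps.ce (TH (MSi tb (v := v) d1 kb d0 k0 p1 z hd1 hd11 hkb hd0 hd01 hk0 hp1 hz) q) (fun u =>
      ind (Lst (MSi tb (v := v) d1 kb d0 k0 p1 z hd1 hd11 hkb hd0 hd01 hk0 hp1 hz)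
        (nu (MSi tb (v := v) d1 kb d0 k0 p1 z hd1 hd11 hkb hd0 hd01 hk0 hp1 hz) q w) q u)) w) (i : Fin 3) :
    MV.tauS (MSi tb (v := v) d1 kb d0 k0 p1 z hd1 hd11 hkb hd0 hd01 hk0 hp1 hz) i q w ≤
      MV.nu (MSi tb (v := v) d1 kb d0 k0 p1 z hd1 hd11 hkb hd0 hd01 hk0 hp1 hz) q w :=
  tauS_lst (unl_self (M := MSi tb (v := v) d1 kb d0 k0 p1 z hd1 hd11 hkb hd0 hd01 hk0 hp1 hz) hw hL)

/-- the signed test against the truncated log density -/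
theorem gO_le {K δ : ℝ} (hδ : 0 ≤ δ) {q : ℕ} {w : Om W X β} {y : ℝ} (hy : |pq3 h v tb q w - y| ≤ δ) :
    gO h tb v K q w ≤ max y (-K) + δ := by
  have h1 := (abs_le.1 hy).2
  unfold gO
  refine max_le ?_ ?_
  · have := le_max_left y (-K)
    linarith
  · have := le_max_right y (-K)
    linarith

/-- small single -/
theorem sg3_es {c : KC} {i : Fin 3} {q : ℕ} {w : Om W X β}
    (hs : ¬ sS (D.P h (q / 5)) (ZQ D v q) (ZbQ D v q) (FQ v (q / 5)) c i (tb.pt (q / 5) w)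
      (tup (FQ v (q / 5)) (tb.pt (q / 5) w))) : |sg3 (h := h) (v := v) tb i q w| ≤ c.eS := by
  have h1 : ¬ c.eS ≤ |sg3 (h := h) (v := v) tb i q w| := hs
  exact (not_le.1 h1).le

end

end Pool.Agent.GMH.TRF
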