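import Pool.Agent.GMH.Inert
import Pool.Agent.GMH.PRbits
import Pool.Agent.GMH.MVT
import Pool.Agent.GMH.StpJ

/-!
# GMH/InertO (helper58): THE INERT PART OF THE LOST LIVES, three tops, over the table space (row A6, N2)

* `ntX` : `x sqrt ((log (M / x) + A) / n) ≤ (x + 1) sqrt ((log M + A + 1) / n)`;
* **`ine_O`** : the tuples of a kind `2 .. 5` removed in a step where the bit `bt` of a vertex `i0` of the kind holds, alive,
  not `sF`, but no bad top strong (not released), over all steps: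
  `≤ 4 B (2 e1 / e2 + 2 eF) NT + 8 P(dead) + 12 (NT + 1) sqrt ((log MT + Lam + 2) / n) + 8 exp (-n) MT`,
  `NT` the number of the removals with the bit, `MT = 6 n N1 Lam`.
-/

set_option autoImplicit false
set_option linter.unusedSectionVars false

namespace Pool.Agent.GMH.TRF

open Finset Pool.Agent.PWZ Pool.Agent.M3 Pool.Agent.GM Pool.Agent.GM.Harm Pool.Agent.GMH Pool.Agent.GMH.NZ
open Pool.Agent.GMH.V3 Pool.Agent.GMH.TP Pool.Agent.GMH.TD Pool.Agent.GMH.Dy Pool.Agent.GMH.MV Pool.Agent.GMH.MVI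
open Pool.Agent.GMH.UV Pool.Agent.GMH.KF Pool.Agent.GMH.CK

noncomputable section

/-- the price with the logarithm of the number of the removals only -/
theorem ntX {x M A n : ℝ} (hx : 0 ≤ x) (hM : 1 ≤ M) (hA : 0 ≤ A) (hn : 0 < n) :
    x * Real.sqrt ((Real.log (M / x) + A) / n) ≤ (x + 1) * Real.sqrt ((Real.log M + A + 1) / n) := by
  have l0 : 0 ≤ Real.log M := Real.log_nonneg hM
  rcases hx.eq_or_lt with h0 | h0
  · rw [← h0, zero_mul, zero_add, one_mul]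
    exact Real.sqrt_nonneg _
  have e1 : x * Real.sqrt ((Real.log (M / x) + A) / n) = Real.sqrt (x ^ 2 * ((Real.log (M / x) + A) / n)) := by
    rw [Real.sqrt_mul (sq_nonneg x), Real.sqrt_sq hx]
  have e2 : (x + 1) * Real.sqrt ((Real.log M + A + 1) / n) =
      Real.sqrt ((x + 1) ^ 2 * ((Real.log M + A + 1) / n)) := by
    rw [Real.sqrt_mul (sq_nonneg _), Real.sqrt_sq (by linarith)]
  rw [e1, e2]
  refine Real.sqrt_le_sqrt ?_
  rw [← mul_div_assoc, ← mul_div_assoc]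
  refine div_le_div_of_nonneg_right ?_ hn.le
  rw [Real.log_div (by linarith) h0.ne']
  have h1 : -(x * Real.log x) ≤ 1 := by
    have h2 := Real.log_le_sub_one_of_pos (show 0 < x⁻¹ by positivity)
    rw [Real.log_inv] at h2
    have h3 := mul_le_mul_of_nonneg_left h2 hx
    have h4 : x * (x⁻¹ - 1) = 1 - x := by
      field_simp
    rw [h4] at h3
    linarith
  have h2 : x ^ 2 * (Real.log M - Real.log x + A) = x ^ 2 * (Real.log M + A) + x * (-(x * Real.log x)) := by ring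
  have h3 : x * (-(x * Real.log x)) ≤ x * 1 := mul_le_mul_of_nonneg_left h1 hx
  rw [h2]
  have h4 : 0 ≤ Real.log M + A := by linarith
  nlinarith [mul_nonneg hx h4, sq_nonneg x]

variable {X β γ φ : Type} [Fintype X] [Fintype β] [Fintype φ] [Nonempty X] [Nonempty β]
variable {D : HD (Fin 3) X β γ φ} {al : ℝ} (h : D.Thick al) {prr : ℕ → Fin 3 → φ → φ} {T : ℕ} {W : Type} [Fintype W]
variable (tb : Tab D prr T W) {v : ℕ → Finset (Fin 3) → X → (Fin 3 → β) → Pt (Fin 3) X β φ}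
variable {dg : ℕ → X → ℝ} {n N1 Lam : ℝ}

/-- not `sF` in the state `q`, three tops -/
def sfq (c : KC) (q : ℕ) (w : Om W X β) : Prop :=
  sF (D.P h (q / 5)) (ZQ D v q) (ZbQ D v q) (FQ v (q / 5)) c (tb.pt (q / 5) w)

section ine

variable {h}
variable {ap : AP} {c : KC} {B : ℝ} {A : Fin 6 → ℕ → Pt (Fin 3) X β φ → Prop}

/-- the inert tuples of one step -/
def ineq (h : D.Thick al) (v : ℕ → Finset (Fin 3) → X → (Fin 3 → β) → Pt (Fin 3) X β φ) (c : KC) (B : ℝ)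
    (A : Fin 6 → ℕ → Pt (Fin 3) X β φ → Prop) (k : Fin 10) (q : ℕ) (w : Om W X β) : Prop :=
  aO tb A q w ∧ kq3 h v tb c k q w ∧ ¬ sfq (v := v) h tb c q w ∧ ¬ rO h tb v c B k q w

theorem ine_step {k : Fin 10} (hk : k ∈ rK) {s : Fin 6} {t q : ℕ} (hs : sO q = s) (hq : q / 5 = t) {w : Om W X β}
    (hw : ineq tb h v c B A k q w) :
    A s t (tb.pt t w) ∧ kdF (D.P h t) (ZQ D v (qs s t)) (FQ v t) c k (tb.pt t w) (tup (FQ v t) (tb.pt t w)) ∧
      ¬ sF (D.P h t) (ZQ D v (qs s t)) (ZbQ D v (qs s t)) (FQ v t) c (tb.pt t w) ∧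
      ¬ (k = 1 ∨ ∃ i, sbd h v c B s t i (tb.pt t w) (tup (FQ v t) (tb.pt t w))) := by
  subst hs hq
  obtain ⟨a1, a2, a3, a4⟩ := hw
  have e := qs_sO q
  refine ⟨a1, ?_, ?_, fun h5 => a4 ⟨hk, ?_, h5⟩⟩
  · rw [e]
    exact a2
  · rw [e]
    exact a3
  · rw [e]
    exact a2

end ine

/-- **THE INERT PART** -/
theorem ine_O {ap : AP} (p : TriB.Par n N1 ap.X0 Lam) (hv : Codes D v) (H : D.Hyp dg prr al T Lam)
    (R : Run h (pr3 (Fin 3) n N1) (SS1 (Fin 3)) (AdmDep D) v) {k : Fin 10} (hk : k ∈ rK) {i0 : Fin 3} (hi : i0 ∈ vk k)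
    {bt : ℕ → Om W X β → Prop} (hbt : ∀ q, Fac (sgt D {i0} (TP.nn q)) (bt q))
    {A : Fin 6 → ℕ → Pt (Fin 3) X β φ → Prop} (hA : ∀ s t, t < T → Fac (VZ (φ := φ) D v s t) (A s t))
    (hAr : ∀ s t, t < T → ∀ w, A s t w → Ar h v ap (2 * t + 1) w) {c : KC} {B : ℝ} (hB : 0 ≤ B) (h1 : 0 ≤ c.e1)
    (h2 : 0 < c.e2) (hF : 0 ≤ c.eF) {NT : ℝ}
    (hNT : ∑ q ∈ range (5 * T), tb.Ps.Pr (fun w => (rpO tb v i0 q w ∨ ruO tb v q w) ∧ bt q w) ≤ NT)
    (hM : 1 ≤ 6 * n * N1 * Lam) :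
    ∑ q ∈ range (5 * T), tb.Ps.Pr (fun w => ((rpO tb v i0 q w ∨ ruO tb v q w) ∧ bt q w) ∧
        (k ≠ 1 ∧ ineq tb h v c B A k q w)) ≤
      4 * (B * (2 * (c.e1 / c.e2) + 2 * c.eF) * NT) + 8 * (D.P h T).Pr (fun w => ¬ Ar h v ap (2 * T) w) +
        12 * ((NT + 1) * Real.sqrt ((Real.log (6 * n * N1 * Lam) + (Lam + 1) + 1) / n)) +
        8 * Real.exp (-n) * (6 * n * N1 * Lam) := by
  classical
  have hn2 := p.n2
  have hn1 : 1 ≤ n := by linarith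
  have hN1 : 1 ≤ N1 := p.N1'
  set MT : ℝ := 6 * n * N1 * Lam with hMT
  have hmu : 0 ≤ B * (2 * (c.e1 / c.e2) + 2 * c.eF) := by positivity
  have hNT0 : 0 ≤ NT := (Finset.sum_nonneg fun q _ => FP.Pr_nonneg _ _).trans hNT
  have hdd : 0 ≤ (D.P h T).Pr (fun w => ¬ Ar h v ap (2 * T) w) := FP.Pr_nonneg _ _
  by_cases hk1 : k = 1
  · have h0 : ∑ q ∈ range (5 * T), tb.Ps.Pr (fun w => ((rpO tb v i0 q w ∨ ruO tb v q w) ∧ bt q w) ∧
        (k ≠ 1 ∧ ineq tb h v c B A k q w)) = 0 := by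
      refine Finset.sum_eq_zero fun q _ => ?_
      unfold FP.Pr
      rw [← FP.E_const tb.Ps 0]
      exact tb.Ps.E_congr fun w _ => ind_not fun hh => hh.2.1 hk1
    rw [h0]
    positivity
  -- the bits
  set Eu : ℕ → Pt (Fin 3) X β φ → Prop := fun t u => lft (φ := φ) (bt (5 * t + 1)) u ∧ ¬ HV h v t u with hEu
  set Ep : ℕ → Pt (Fin 3) X β φ → Prop := fun t u => lft (φ := φ) (bt (5 * t + 4)) u ∧ lpv h v i0 t u ∧ HV h v t u with hEp
  have pos : ∀ q, Pos (bt q) := fun q a b hab => hbt q a b (sgt_eq.2 ⟨ps_1 hab, fun j _ => congrFun (ps_2 hab) j,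
    fun j => by rw [ps_2 hab]⟩)
  have fu : ∀ t < T, Fac (Ah D (t + 1) {i0}) (Eu t) := by
    intro t _ a e hae
    have e1 : lft (φ := φ) (bt (5 * t + 1)) a = lft (φ := φ) (bt (5 * t + 1)) e :=
      PRF.lft_Ah (PRF.nn_mid5 t (by omega)) (hbt _) a e hae
    have e2 : HV h v t a = HV h v t e := PRF.HV_Ah hv t {i0} a e hae
    show (_ ∧ ¬ _) = (_ ∧ ¬ _)
    rw [e1, e2]
  have fp : ∀ t < T, Fac (Ah D (t + 1) {i0}) (Ep t) := by
    intro t _ a e hae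
    have e1 : lft (φ := φ) (bt (5 * t + 4)) a = lft (φ := φ) (bt (5 * t + 4)) e :=
      PRF.lft_Ah (PRF.nn_mid5 t (by omega)) (hbt _) a e hae
    have e2 : HV h v t a = HV h v t e := PRF.HV_Ah hv t {i0} a e hae
    have e3 : lpv h v i0 t a = lpv h v i0 t e := PRF.lpv_Ah hv t (Finset.mem_singleton_self i0) a e hae
    show (_ ∧ _ ∧ _) = (_ ∧ _ ∧ _)
    rw [e1, e2, e3]
  -- the laws
  have law : ∀ {t : ℕ}, t < T → ∀ {F : Pt (Fin 3) X β φ → Prop} {G : Om W X β → Prop},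
      (∀ w, tb.Ps.p w ≠ 0 → (G w → F (tb.pt t w))) → tb.Ps.Pr G ≤ (D.P h t).Pr F := by
    intro t ht F G hFG
    unfold FP.Pr
    rw [← (pul_pt h tb ht.le).E]
    refine tb.Ps.E_mono fun w hw => ?_
    by_cases hG : G w
    · rw [ind_of (hFG w hw hG)]
      exact ind_le_one _
    · rw [ind_not hG]
      exact ind_nonneg _
  have law' : ∀ {t : ℕ}, t < T → ∀ {F : Pt (Fin 3) X β φ → Prop} {G : Om W X β → Prop},
      (∀ w, tb.Ps.p w ≠ 0 → (F (tb.pt t w) → G w)) → (D.P h t).Pr F ≤ tb.Ps.Pr G := by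
    intro t ht F G hFG
    unfold FP.Pr
    rw [← (pul_pt h tb ht.le).E]
    refine tb.Ps.E_mono fun w hw => ?_
    by_cases hF : F (tb.pt t w)
    · rw [ind_of (hFG w hw hF)]
      exact ind_le_one _
    · rw [ind_not hF]
      exact ind_nonneg _
  have bu : ∀ t < T, ∀ w : Om W X β, Eu t (tb.pt t w) ↔ ruO tb v (5 * t + 1) w ∧ bt (5 * t + 1) w := by
    intro t ht w
    show (_ ∧ ¬ _) ↔ _
    rw [lft_pt (pos _) t w, HV_q ht.le w]
    constructor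
    · rintro ⟨a1, a2⟩
      exact ⟨⟨by omega, not_le.1 a2⟩, a1⟩
    · rintro ⟨a1, a2⟩
      exact ⟨a2, not_le.2 a1.2⟩
  have bp : ∀ t < T, ∀ w : Om W X β, Ep t (tb.pt t w) ↔ rpO tb v i0 (5 * t + 4) w ∧ bt (5 * t + 4) w := by
    intro t ht w
    show (_ ∧ _ ∧ _) ↔ _
    rw [lft_pt (pos _) t w, HV_q ht.le w, MVT.lpv_pt tb ht.le i0 w, MVT.rpO_iff]
    have e5 : (5 * t + 4) / 5 = t := by omega
    rw [e5]
    constructor
    · rintro ⟨a1, a2, a3⟩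
      exact ⟨⟨by omega, a2, a3⟩, a1⟩
    · rintro ⟨⟨_, a1, a2⟩, a3⟩
      exact ⟨a3, a1, a2⟩
  set F : ℕ → ℝ := fun q => tb.Ps.Pr (fun w => (rpO tb v i0 q w ∨ ruO tb v q w) ∧ bt q w) with hF'
  have hF0 : ∀ q, 0 ≤ F q := fun q => FP.Pr_nonneg _ _
  have nu_ : ∑ t ∈ range T, (D.P h t).Pr (Eu t) ≤ NT := by
    refine le_trans (PRF.sum_sub (j := 1) (g := F) (by norm_num) hF0 T fun t ht => ?_) hNT
    exact law' ht fun w _ hh => ⟨Or.inr ((bu t ht w).1 hh).1, ((bu t ht w).1 hh).2⟩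
  have np_ : ∑ t ∈ range T, (D.P h t).Pr (Ep t) ≤ NT := by
    refine le_trans (PRF.sum_sub (j := 4) (g := F) (by norm_num) hF0 T fun t ht => ?_) hNT
    exact law' ht fun w _ hh => ⟨Or.inl ((bp t ht w).1 hh).1, ((bp t ht w).1 hh).2⟩
  -- the numbers of the removals
  have mu_ : ∑ t ∈ range T, (D.P h t).Pr (fun w => ¬ HV h v t w) ≤ MT := PRF.sum_nHV hn1 hN1 R H
  have mp_ : ∑ t ∈ range T, (D.P h t).Pr (lpv h v i0 t) ≤ MT := by
    refine (PRF.sum_lpv hn1 hN1 R H i0).trans ?_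
    rw [hMT]
    have hL : 0 ≤ Lam := by
      by_contra hc
      have : 6 * n * N1 * Lam < 0 := by
        have h6 : 0 < 6 * n * N1 := by positivity
        exact mul_neg_of_pos_of_neg h6 (not_le.1 hc)
      linarith
    have h6 : 0 ≤ 6 * n * Lam := by positivity
    nlinarith [mul_nonneg h6 (sub_nonneg.2 hN1)]
  set nU : ℝ := ∑ t ∈ range T, (D.P h t).Pr (Eu t) with hnU
  set nP : ℝ := ∑ t ∈ range T, (D.P h t).Pr (Ep t) with hnP
  have nU0 : 0 ≤ nU := Finset.sum_nonneg fun t _ => FP.Pr_nonneg _ _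
  have nP0 : 0 ≤ nP := Finset.sum_nonneg fun t _ => FP.Pr_nonneg _ _
  have nUM : nU ≤ MT := (Finset.sum_le_sum fun t _ => FP.Pr_mono _ fun w _ hh => hh.2).trans mu_
  have nPM : nP ≤ MT := (Finset.sum_le_sum fun t _ => FP.Pr_mono _ fun w _ hh => hh.2.1).trans mp_
  have kU := Inr.ine_kind (s := 1) p H R hk hk1 hi (fun t => rfl) (A := fun t => A 1 t) (E := Eu)
    (Rm := fun t w => ¬ HV h v t w) (fun t ht => hA 1 t ht) (fun t ht w hw => hAr 1 t ht w hw) fu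
    (fun t ht a e hae => by
      show (¬ _) = (¬ _)
      rw [show HV h v t a = HV h v t e from PRF.HV_Cb t i0 a e hae]) (fun t _ w hw => hw.2) le_rfl mu_ nUM
    (c := c) hB h1 h2 hF
  have kP := Inr.ine_kind (s := 5) p H R hk hk1 hi (fun t => rfl) (A := fun t => A 5 t) (E := Ep)
    (Rm := fun t => lpv h v i0 t) (fun t ht => hA 5 t ht) (fun t ht w hw => hAr 5 t ht w hw) fp
    (fun t ht => PRF.lpv_Cb t i0) (fun t _ w hw => hw.2.1) le_rfl mp_ nPM (c := c) hB h1 h2 hF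
  -- the steps
  have sU : ∀ t < T, tb.Ps.Pr (fun w => ((rpO tb v i0 (5 * t + 1) w ∨ ruO tb v (5 * t + 1) w) ∧ bt (5 * t + 1) w) ∧
      (k ≠ 1 ∧ ineq tb h v c B A k (5 * t + 1) w)) ≤ (D.P h t).Pr (fun w => (A 1 t w ∧ Eu t w) ∧
        kdF (D.P h t) (ZQ D v (qs 1 t)) (FQ v t) c k w (tup (FQ v t) w) ∧
          ¬ sF (D.P h t) (ZQ D v (qs 1 t)) (ZbQ D v (qs 1 t)) (FQ v t) c w ∧
        ¬ ∃ i, sbd h v c B 1 t i w (tup (FQ v t) w)) := by
    intro t ht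
    refine law ht fun w _ hh => ?_
    obtain ⟨⟨a1, a2⟩, _, a3⟩ := hh
    obtain ⟨b1, b2, b3, b4⟩ := ine_step tb hk (sO_1 t) (show (5 * t + 1) / 5 = t by omega) a3
    refine ⟨⟨b1, (bu t ht w).2 ⟨a1.resolve_left fun h5 => ?_, a2⟩⟩, b2, b3, fun h5 => b4 (Or.inr h5)⟩
    have := h5.1
    omega
  have sP : ∀ t < T, tb.Ps.Pr (fun w => ((rpO tb v i0 (5 * t + 4) w ∨ ruO tb v (5 * t + 4) w) ∧ bt (5 * t + 4) w) ∧
      (k ≠ 1 ∧ ineq tb h v c B A k (5 * t + 4) w)) ≤ (D.P h t).Pr (fun w => (A 5 t w ∧ Ep t w) ∧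
        kdF (D.P h t) (ZQ D v (qs 5 t)) (FQ v t) c k w (tup (FQ v t) w) ∧
          ¬ sF (D.P h t) (ZQ D v (qs 5 t)) (ZbQ D v (qs 5 t)) (FQ v t) c w ∧
        ¬ ∃ i, sbd h v c B 5 t i w (tup (FQ v t) w)) := by
    intro t ht
    refine law ht fun w _ hh => ?_
    obtain ⟨⟨a1, a2⟩, _, a3⟩ := hh
    obtain ⟨b1, b2, b3, b4⟩ := ine_step tb hk (sO_3 t 2) (by show (5 * t + 2 + 2) / 5 = t; omega) a3
    refine ⟨⟨b1, (bp t ht w).2 ⟨a1.resolve_right fun h5 => ?_, a2⟩⟩, b2, b3, fun h5 => b4 (Or.inr h5)⟩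
    have := h5.1
    omega
  have s0 : ∀ q, q % 5 ≠ 1 → q % 5 ≠ 4 → tb.Ps.Pr (fun w => ((rpO tb v i0 q w ∨ ruO tb v q w) ∧ bt q w) ∧
      (k ≠ 1 ∧ ineq tb h v c B A k q w)) = 0 := by
    intro q h3 h4
    unfold FP.Pr
    rw [← FP.E_const tb.Ps 0]
    refine tb.Ps.E_congr fun w _ => ind_not fun hh => ?_
    rcases hh.1.1 with h5 | h5
    · exact h4 h5.1
    · exact h3 h5.1
  rw [sum_five]
  have hsum : ∑ t ∈ range T, (tb.Ps.Pr (fun w => ((rpO tb v i0 (5 * t) w ∨ ruO tb v (5 * t) w) ∧ bt (5 * t) w) ∧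
        (k ≠ 1 ∧ ineq tb h v c B A k (5 * t) w)) +
      tb.Ps.Pr (fun w => ((rpO tb v i0 (5 * t + 1) w ∨ ruO tb v (5 * t + 1) w) ∧ bt (5 * t + 1) w) ∧
        (k ≠ 1 ∧ ineq tb h v c B A k (5 * t + 1) w)) +
      tb.Ps.Pr (fun w => ((rpO tb v i0 (5 * t + 2) w ∨ ruO tb v (5 * t + 2) w) ∧ bt (5 * t + 2) w) ∧
        (k ≠ 1 ∧ ineq tb h v c B A k (5 * t + 2) w)) +
      tb.Ps.Pr (fun w => ((rpO tb v i0 (5 * t + 3) w ∨ ruO tb v (5 * t + 3) w) ∧ bt (5 * t + 3) w) ∧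
        (k ≠ 1 ∧ ineq tb h v c B A k (5 * t + 3) w)) +
      tb.Ps.Pr (fun w => ((rpO tb v i0 (5 * t + 4) w ∨ ruO tb v (5 * t + 4) w) ∧ bt (5 * t + 4) w) ∧
        (k ≠ 1 ∧ ineq tb h v c B A k (5 * t + 4) w))) ≤ _ :=
    (Finset.sum_le_sum fun t ht => by
      rw [s0 (5 * t) (by omega) (by omega), s0 (5 * t + 2) (by omega) (by omega), s0 (5 * t + 3) (by omega) (by omega),
        zero_add, add_zero, add_zero]
      exact add_le_add (sU t (Finset.mem_range.1 ht)) (sP t (Finset.mem_range.1 ht))).trans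
      ((Finset.sum_add_distrib).le.trans (add_le_add kU kP))
  refine hsum.trans ?_
  -- the numbers
  have hLam0 : 0 ≤ Lam + 1 := by linarith [p.L1]
  have q1 := ntX nU0 hM hLam0 (by linarith : (0 : ℝ) < n)
  have q2 := ntX nP0 hM hLam0 (by linarith : (0 : ℝ) < n)
  have s0' := Real.sqrt_nonneg ((Real.log MT + (Lam + 1) + 1) / n)
  have q3 : (nU + 1) * Real.sqrt ((Real.log MT + (Lam + 1) + 1) / n) ≤ (NT + 1) *
      Real.sqrt ((Real.log MT + (Lam + 1) + 1) / n) := mul_le_mul_of_nonneg_right (by linarith) s0'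
  have q4 : (nP + 1) * Real.sqrt ((Real.log MT + (Lam + 1) + 1) / n) ≤ (NT + 1) *
      Real.sqrt ((Real.log MT + (Lam + 1) + 1) / n) := mul_le_mul_of_nonneg_right (by linarith) s0'
  have q5 := mul_le_mul_of_nonneg_left nu_ hmu
  have q6 := mul_le_mul_of_nonneg_left np_ hmu
  linarith

end

end Pool.Agent.GMH.TRF
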