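import Pool.Agent.GMH.StpT
import Pool.Agent.GMH.MVS
import Pool.Agent.GMH.Unm

/-!
# GMH/StpI (helper64; row A4, T3): the clock fields of `StpOK` at the removals of the run

* `tau_lt`, `tauS_lt`, `nu_lt` : a light value of a code step ends the clocks;
* `lt_ru`, `lt_rp` : the removals `ruO`, `rpO` of `GMH/StpT` are light values; `rp_ru` they are disjoint; `rem_sum` their number;
* `stps` : the steps of the kind `k` as `Stps` of `GMH/Unm`; `stpOK_i` : `StpOK` from `gdv`, `gd0`, `lst`;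
* `rlB_rels` : the released weight of `GMH/StpT` is `rels`; `relS_unm` : the released sums of `TopSplit` in terms of `rels`.
-/

set_option autoImplicit false
set_option linter.unusedSectionVars false

namespace Pool.Agent.GMH.TRF

open Finset Pool.Agent.PWZ Pool.Agent.M3 Pool.Agent.GM Pool.Agent.GM.Harm Pool.Agent.GMH Pool.Agent.GMH.NZ
open Pool.Agent.GMH.V3 Pool.Agent.GMH.TP Pool.Agent.GMH.TD Pool.Agent.GMH.Dy Pool.Agent.GMH.MV Pool.Agent.GMH.MVI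
open Pool.Agent.GMH.UV Pool.Agent.GMH.KF Pool.Agent.GMH.CK

noncomputable section

/-! ### light values end the clocks -/

section clk

variable {Om : Type} [Fintype Om] (M : MS Om)

theorem tau_lt {i : Fin 3} {q : ℕ} {w : Om} (h : lt5 M M.NP q w ∨ lt5 M (CN M i) q w) :
    MV.tau M i (q + 1) w = q + 1 := by
  refine stg_pos ?_
  unfold Cx
  rw [Nat.add_sub_cancel]
  exact h.elim Or.inl fun h => Or.inr (Or.inl h)

theorem nu_lt {q : ℕ} {w : Om} (h : lt5 M M.NP q w) : MV.nu M (q + 1) w = q + 1 := by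
  refine stg_pos ?_
  unfold C0
  rw [Nat.add_sub_cancel]
  exact Or.inl h

theorem tauS_lt {i : Fin 3} {q : ℕ} {w : Om} (h : lt5 M M.NP q w ∨ lt5 M (CN M i) q w) :
    MV.tauS M i (q + 1) w = q + 1 := stg_pos (Or.inl (tau_lt M h))

end clk

variable {X β γ φ : Type} [Fintype X] [Fintype β] [Fintype φ] [Nonempty X] [Nonempty β]
variable {D : HD (Fin 3) X β γ φ} {al : ℝ} (h : D.Thick al) {prr : ℕ → Fin 3 → φ → φ} {T : ℕ} {W : Type} [Fintype W]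
variable (tb : Tab D prr T W) {v : ℕ → Finset (Fin 3) → X → (Fin 3 → β) → Pt (Fin 3) X β φ}

/-! ### the removals are light values -/

section rem

variable {d1 kb d0 k0 p1 z : ℝ} (hd1 : 0 < d1) (hd11 : d1 ≤ 1) (hkb : 0 < kb) (hd0 : 0 < d0)
  (hd01 : d0 ≤ 1) (hk0 : 0 < k0) (hp1 : 0 < p1) (hz : 0 < z)

theorem lt_ru {q : ℕ} {w : Om W X β} (hr : ruO tb v q w) :
    lt5 (MSi tb (v := v) d1 kb d0 k0 p1 z hd1 hd11 hkb hd0 hd01 hk0 hp1 hz)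
      (MSi tb (v := v) d1 kb d0 k0 p1 z hd1 hd11 hkb hd0 hd01 hk0 hp1 hz).NP q w :=
  ⟨by show q % 5 ≠ 0; rw [hr.1]; omega, hr.2⟩

theorem lt_rp {i : Fin 3} {q : ℕ} {w : Om W X β} (hr : rpO tb v i q w) :
    lt5 (MSi tb (v := v) d1 kb d0 k0 p1 z hd1 hd11 hkb hd0 hd01 hk0 hp1 hz)
      (CN (MSi tb (v := v) d1 kb d0 k0 p1 z hd1 hd11 hkb hd0 hd01 hk0 hp1 hz) i) q w :=
  ⟨by show q % 5 ≠ 0; rw [hr.1]; omega, hr.2.1⟩

theorem rp_ru {i : Fin 3} {q : ℕ} {w : Om W X β} (hr : rpO tb v i q w) : ¬ ruO tb v q w := fun h1 => by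
  have := hr.1
  have := h1.1
  omega

/-- number of the removals -/
theorem rem_sum (T' : ℕ) : ∑ q ∈ range T', tb.Ps.Pr (fun w => ruO tb v q w ∨ ∃ i, rpO tb v i q w) ≤
    NL (MSi tb (v := v) d1 kb d0 k0 p1 z hd1 hd11 hkb hd0 hd01 hk0 hp1 hz) T' +
      ∑ i : Fin 3, NLx (MSi tb (v := v) d1 kb d0 k0 p1 z hd1 hd11 hkb hd0 hd01 hk0 hp1 hz) i T' := by
  unfold NL NLx
  rw [Finset.sum_comm, ← Finset.sum_add_distrib]
  refine Finset.sum_le_sum fun q _ => ?_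
  refine (tb.Ps.Pr_or_le _ _).trans (add_le_add
    (tb.Ps.Pr_mono fun w _ hh => lt_ru tb hd1 hd11 hkb hd0 hd01 hk0 hp1 hz hh) ?_)
  have key : ∑ i : Fin 3, tb.Ps.Pr (rpO tb v i q) ≤ ∑ i : Fin 3, tb.Ps.Pr
      (lt5 (MSi tb (v := v) d1 kb d0 k0 p1 z hd1 hd11 hkb hd0 hd01 hk0 hp1 hz)
      (CN (MSi tb (v := v) d1 kb d0 k0 p1 z hd1 hd11 hkb hd0 hd01 hk0 hp1 hz) i) q) :=
    Finset.sum_le_sum fun i _ => tb.Ps.Pr_mono fun w _ hh => lt_rp tb hd1 hd11 hkb hd0 hd01 hk0 hp1 hz hh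
  refine le_trans ?_ key
  show tb.Ps.E (fun w => ind (∃ i, rpO tb v i q w)) ≤ ∑ i, tb.Ps.E (fun w => ind (rpO tb v i q w))
  rw [← FP.E_sum]
  refine tb.Ps.E_mono fun w _ => ?_
  by_cases hex : ∃ i, rpO tb v i q w
  · obtain ⟨i, hi⟩ := hex
    exact (ind_le_one _).trans (le_trans (le_of_eq (ind_of hi).symm)
      (Finset.single_le_sum (f := fun i => ind (rpO tb v i q w)) (fun _ _ => ind_nonneg _) (mem_univ i)))
  · rw [ind_not hex]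
    exact Finset.sum_nonneg fun _ _ => ind_nonneg _

end rem

/-! ### the steps of one kind -/

variable (v) (c : KC) (B : ℝ) (A : Fin 6 → ℕ → Pt (Fin 3) X β φ → Prop) (gM : Fin 10 → ℕ → Om W X β → Prop)
  (K : ℝ)

/-- the steps of the kind `k` -/
def stps (k : Fin 10) : Stps (Om := Om W X β) := ⟨rpO tb v, ruO tb v, gdO h tb v c B A gM k, gO h tb v K⟩

variable {v c B A gM K}
variable (hv : Codes D v) {d1 kb d0 k0 p1 z : ℝ} (hd1 : 0 < d1) (hd11 : d1 ≤ 1) (hkb : 0 < kb) (hd0 : 0 < d0)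
  (hd01 : d0 ≤ 1) (hk0 : 0 < k0) (hp1 : 0 < p1) (hz : 0 < z)

/-- **`StpOK` FROM `gdv`, `gdp`, `gd0`, `gdp0`, `gda`, `lst`** -/
theorem stpOK_i {Q : Kd (Om W X β)} {k : Fin 10} {δ : ℝ}
    (gdv : ∀ w, tb.Ps.p w ≠ 0 → ∀ i ∈ Q.Vk, ∀ q, gdO h tb v c B A gM k q w → (rpO tb v i q w ∨ ruO tb v q w) →
      (bet (USi tb hv d1 kb d0 k0 p1 z hd1 hd11 hkb hd0 hd01 hk0 hp1 hz) Q i q w ∨
        Z0 (USi tb hv d1 kb d0 k0 p1 z hd1 hd11 hkb hd0 hd01 hk0 hp1 hz) Q q w) →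
      Q.kd (some i) (MV.tauS (MSi tb (v := v) d1 kb d0 k0 p1 z hd1 hd11 hkb hd0 hd01 hk0 hp1 hz) i q w) w)
    (gdp : ∀ w, tb.Ps.p w ≠ 0 → ∀ i ∈ Q.Vk, ∀ q, gdO h tb v c B A gM k q w → (rpO tb v i q w ∨ ruO tb v q w) →
      bet (USi tb hv d1 kb d0 k0 p1 z hd1 hd11 hkb hd0 hd01 hk0 hp1 hz) Q i q w → gO h tb v K q w ≤
        Q.psi (some i) (MV.tauS (MSi tb (v := v) d1 kb d0 k0 p1 z hd1 hd11 hkb hd0 hd01 hk0 hp1 hz) i q w) w + δ)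
    (gd0 : ∀ w, tb.Ps.p w ≠ 0 → ∀ q, gdO h tb v c B A gM k q w → ruO tb v q w →
      Z0 (USi tb hv d1 kb d0 k0 p1 z hd1 hd11 hkb hd0 hd01 hk0 hp1 hz) Q q w →
      Q.kd Option.none (MV.nu (MSi tb (v := v) d1 kb d0 k0 p1 z hd1 hd11 hkb hd0 hd01 hk0 hp1 hz) q w) w)
    (gdp0 : ∀ w, tb.Ps.p w ≠ 0 → ∀ q, gdO h tb v c B A gM k q w → ruO tb v q w →
      Z0 (USi tb hv d1 kb d0 k0 p1 z hd1 hd11 hkb hd0 hd01 hk0 hp1 hz) Q q w → gO h tb v K q w ≤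
        Q.psi Option.none (MV.nu (MSi tb (v := v) d1 kb d0 k0 p1 z hd1 hd11 hkb hd0 hd01 hk0 hp1 hz) q w) w + δ)
    (gda : ∀ w, tb.Ps.p w ≠ 0 → ∀ q, gdO h tb v c B A gM k q w → ((∃ i, rpO tb v i q w) ∨ ruO tb v q w) → Q.al q w)
    (lst : ∀ w, tb.Ps.p w ≠ 0 → ∀ i ∈ Q.Vk, ∀ q, gdO h tb v c B A gM k q w → ruO tb v q w →
      MV.tauS (MSi tb (v := v) d1 kb d0 k0 p1 z hd1 hd11 hkb hd0 hd01 hk0 hp1 hz) i q w ≤
        MV.nu (MSi tb (v := v) d1 kb d0 k0 p1 z hd1 hd11 hkb hd0 hd01 hk0 hp1 hz) q w) :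
    StpOK (USi tb hv d1 kb d0 k0 p1 z hd1 hd11 hkb hd0 hd01 hk0 hp1 hz) Q (stps h tb v c B A gM K k) δ where
  endp := fun w _ i q hr => tauS_lt _ (Or.inr (lt_rp tb hd1 hd11 hkb hd0 hd01 hk0 hp1 hz hr))
  endu := fun w _ i q hr => tauS_lt _ (Or.inl (lt_ru tb hd1 hd11 hkb hd0 hd01 hk0 hp1 hz hr))
  end0 := fun w _ q hr => nu_lt _ (lt_ru tb hd1 hd11 hkb hd0 hd01 hk0 hp1 hz hr)
  disj := fun w _ i q hr => rp_ru tb hr
  gdv := gdv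
  gdp := gdp
  gd0 := gd0
  gdp0 := gdp0
  gda := gda
  exz := fun _ _ _ _ _ _ _ _ _ _ _ h => h
  lst := lst

/-- the released weight is `rels` -/
theorem rlB_rels (M : US (Om W X β)) (Q : Kd (Om W X β)) (k : Fin 10) (hk : Q.Vk ⊆ vk k)
    (bO : Fin 10 → Fin 3 → ℕ → Om W X β → Prop) (zO : Fin 10 → ℕ → Om W X β → Prop)
    (hb : ∀ i q w, bO k i q w ↔ i ∈ Q.Vk ∧ bet M Q i q w) (hzO : ∀ q w, zO k q w ↔ Z0 M Q q w) (q : ℕ) (w : Om W X β) :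
    rlB h tb v c B A bO zO gM k q w = rels M Q (stps h tb v c B A gM K k) q w := by
  classical
  unfold rlB rels
  congr 1
  · have e1 : ∀ i ∈ vk k, i ∉ Q.Vk → ind (gdO h tb v c B A gM k q w ∧ rpO tb v i q w ∧ bO k i q w) = 0 := fun i _ hi =>
      ind_not fun hh => hi ((hb i q w).1 hh.2.2).1
    rw [← Finset.sum_subset hk e1]
    refine Finset.sum_congr rfl fun i hi => ?_
    congr 1
    exact propext ⟨fun hh => ⟨hh.1, hh.2.1, ((hb i q w).1 hh.2.2).2⟩, fun hh => ⟨hh.1, hh.2.1, (hb i q w).2 ⟨hi, hh.2.2⟩⟩⟩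
  · congr 1
    refine propext ⟨fun hh => ⟨hh.1, hh.2.1, ?_⟩, fun hh => ⟨hh.1, hh.2.1, ?_⟩⟩
    · rcases hh.2.2 with h1 | ⟨i, _, h1⟩
      · exact Or.inl ((hzO q w).1 h1)
      · exact Or.inr ⟨i, (hb i q w).1 h1⟩
    · rcases hh.2.2 with h1 | ⟨i, hi, h1⟩
      · exact Or.inl ((hzO q w).2 h1)
      · exact Or.inr ⟨i, hk hi, (hb i q w).2 ⟨hi, h1⟩⟩

/-! ### the released sums of `TopSplit` -/

section fin

variable (Qk : Fin 10 → Kd (Om W X β))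

/-- the bits of the vertices -/
def bO' (M : US (Om W X β)) (k : Fin 10) (i : Fin 3) (q : ℕ) (w : Om W X β) : Prop := i ∈ (Qk k).Vk ∧ bet M (Qk k) i q w

/-- the bits of the zones -/
def zO' (M : US (Om W X β)) (k : Fin 10) (q : ℕ) (w : Om W X β) : Prop := Z0 M (Qk k) q w

theorem bO_pos (k : Fin 10) (i : Fin 3) (q : ℕ) :
    Pos (bO' Qk (USi tb hv d1 kb d0 k0 p1 z hd1 hd11 hkb hd0 hd01 hk0 hp1 hz) k i q) := by
  intro a b e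
  have h1 := pos_of (bet_sgt tb v (hv := hv) (hd1 := hd1) (hd11 := hd11) (hkb := hkb) (hd0 := hd0) (hd01 := hd01)
    (hk0 := hk0) (hp1 := hp1) (hz := hz) (Q := Qk k) i q) a b e
  show (_ ∧ _) = (_ ∧ _)
  rw [h1]

theorem zO_pos (k : Fin 10) (q : ℕ) : Pos (zO' Qk (USi tb hv d1 kb d0 k0 p1 z hd1 hd11 hkb hd0 hd01 hk0 hp1 hz) k q) :=
  pos_of (Z0_sgt tb v (hv := hv) (hd1 := hd1) (hd11 := hd11) (hkb := hkb) (hd0 := hd0) (hd01 := hd01)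
    (hk0 := hk0) (hp1 := hp1) (hz := hz) (Q := Qk k) q)

/-- **THE RELEASED SUMS OF `TopSplit` IN TERMS OF `rels`** -/
theorem relS_unm {dg : ℕ → X → ℝ} {Lam : ℝ} (H : D.Hyp dg prr al T Lam) {N : Finset (Fin 3) → ℝ}
    (R : Run h N (SS1 (Fin 3)) (AdmDep D) v) (hN : ∀ l : Fin 3, 0 < N (univ.erase l)) (hVk : ∀ k, (Qk k).Vk ⊆ vk k)
    (hA1 : ∀ t < T, ∀ u, A 1 t u → ¬ HV h v t u) (hA5 : ∀ t < T, ∀ u, A 5 t u → HV h v t u) (hK : 0 ≤ K)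
    (hK3 : K ≤ 3 * Lam) :
    ∑ t ∈ range T, ∑ s, RelS h v c B
        (fun k i q => lft (bO' Qk (USi tb hv d1 kb d0 k0 p1 z hd1 hd11 hkb hd0 hd01 hk0 hp1 hz) k i q))
        (fun k q => lft (zO' Qk (USi tb hv d1 kb d0 k0 p1 z hd1 hd11 hkb hd0 hd01 hk0 hp1 hz) k q)) A K s t ≤
      ∑ k ∈ rK, ∑ q ∈ range (5 * T), tb.Ps.E (fun w =>
          rels (USi tb hv d1 kb d0 k0 p1 z hd1 hd11 hkb hd0 hd01 hk0 hp1 hz) (Qk k) (stps h tb v c B A gM K k) q w *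
            gO h tb v K q w) +
        3 * Lam * ∑ k ∈ rK, ∑ q ∈ range (5 * T), tb.Ps.Pr (thO h tb v c B A
          (bO' Qk (USi tb hv d1 kb d0 k0 p1 z hd1 hd11 hkb hd0 hd01 hk0 hp1 hz))
          (zO' Qk (USi tb hv d1 kb d0 k0 p1 z hd1 hd11 hkb hd0 hd01 hk0 hp1 hz)) gM k q) +
        3 * Lam * ∑ k ∈ rK, ∑ q ∈ range (5 * T), ∑ i ∈ vk k, ∑ j ∈ vk k,
          if i < j then tb.Ps.Pr (ovO h tb v c B A
            (bO' Qk (USi tb hv d1 kb d0 k0 p1 z hd1 hd11 hkb hd0 hd01 hk0 hp1 hz)) gM k i j q) else 0 := by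
  refine (relS_le (h := h) (tb := tb) (c := c) (B := B) (A := A) (gM := gM) H R hN
    (bO_pos tb hv hd1 hd11 hkb hd0 hd01 hk0 hp1 hz Qk) (zO_pos tb hv hd1 hd11 hkb hd0 hd01 hk0 hp1 hz Qk) hA1 hA5
    hK hK3).trans (le_of_eq ?_)
  congr 2
  refine Finset.sum_congr rfl fun k _ => Finset.sum_congr rfl fun q _ => tb.Ps.E_congr fun w _ => ?_
  rw [rlB_rels h tb (K := K) (USi tb hv d1 kb d0 k0 p1 z hd1 hd11 hkb hd0 hd01 hk0 hp1 hz) (Qk k) k (hVk k) _ _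
    (fun _ _ _ => Iff.rfl) (fun _ _ => Iff.rfl) q w]

end fin

/-! ### the alive sets of the run -/

section al

variable (v) (p : AP) (Gd : ℕ → Pt (Fin 3) X β φ → Prop) (st sp : ℕ → Pt (Fin 3) X β φ → Option (Fin 3))

theorem aN_1 (t : ℕ) (u : Pt (Fin 3) X β φ) (hu : aN h v p Gd st sp 1 t u) : ¬ HV h v t u := hu.1.1.2

theorem aN_5 (t : ℕ) (u : Pt (Fin 3) X β φ) (hu : aN h v p Gd st sp 5 t u) : HV h v t u := hu.1.1.2

end al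

end

end Pool.Agent.GMH.TRF
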