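import Pool.Agent.GMH.PRfull
import Pool.Agent.GMH.StpI
import Pool.Agent.GMH.Ctx

/-!
# GMH/PRctx: the prices of the bits over `Ctx`, bits on the table space (helper33; row E6)

* `bitOK_lft` : `BitOK` for lifted events of the sights from the two numbers of removals (private or public removal of `i` with
  the bit, public removal with the bit of the node);
* `BitC` : these hypotheses for a family of kinds; `BitC.or` : unions of two bits;
* `full_ctxE`, `two_ctxE`, `one_ctxE` (scales `eta ≥ ix kE`, any `kE`), `full_ctx`, `two_ctx`, `one_ctx` (`kE = CTK.ke`) :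
  for all runs with large `c0` : the deviations and the price sums of `fullOK3`, `twoOK2`,
  of the frame one.
-/

set_option autoImplicit false
set_option linter.unusedSectionVars false

namespace Pool.Agent.GMH.PRF

open Finset Pool.Agent.PWZ Pool.Agent.M3 Pool.Agent.GM Pool.Agent.GM.Harm Pool.Agent.GMH Pool.Agent.GMH.NZ
open Pool.Agent.GMH.V3 Pool.Agent.GMH.TP Pool.Agent.GMH.TD Pool.Agent.GMH.Dy Pool.Agent.GMH.MV Pool.Agent.GMH.MVI
open Pool.Agent.GMH.UV Pool.Agent.GMH.KF Pool.Agent.GMH.TRF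

noncomputable section

section tab

variable {X β γ φ : Type} [Fintype X] [Fintype β] [Fintype φ] [Nonempty X] [Nonempty β]
variable {D : HD (Fin 3) X β γ φ} {al : ℝ} (h : D.Thick al) {prr : ℕ → Fin 3 → φ → φ} {T : ℕ} {W : Type} [Fintype W]
variable (tb : Tab D prr T W) (v : ℕ → Finset (Fin 3) → X → (Fin 3 → β) → Pt (Fin 3) X β φ)

/-- **THE BITS ON THE TABLE SPACE**, one kind, vertices in `S` -/
structure BitT (S : Finset (Fin 3)) (b : Fin 3 → ℕ → Om W X β → Prop) (z : ℕ → Om W X β → Prop) (NT : ℝ) : Prop where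
  fb : ∀ i ∈ S, ∀ q, Fac (sgt D {i} (TP.nn q)) (b i q)
  fz : ∀ q, Fac (sgt D ∅ (TP.nn q)) (z q)
  nb : ∀ i ∈ S, ∑ q ∈ range (5 * T), tb.Ps.Pr (fun w => (rpO tb v i q w ∨ ruO tb v q w) ∧ b i q w) ≤ NT
  nz : ∑ q ∈ range (5 * T), tb.Ps.Pr (fun w => ruO tb v q w ∧ z q w) ≤ NT

variable {tb v}

/-- unions -/
theorem BitT.or {S : Finset (Fin 3)} {b b' : Fin 3 → ℕ → Om W X β → Prop} {z z' : ℕ → Om W X β → Prop} {NT NT' : ℝ}
    (h1 : BitT tb v S b z NT) (h2 : BitT tb v S b' z' NT') :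
    BitT tb v S (fun i q w => b i q w ∨ b' i q w) (fun q w => z q w ∨ z' q w) (NT + NT') where
  fb := fun i hi q x y e => by
    show (_ ∨ _) = (_ ∨ _)
    rw [h1.fb i hi q x y e, h2.fb i hi q x y e]
  fz := fun q x y e => by
    show (_ ∨ _) = (_ ∨ _)
    rw [h1.fz q x y e, h2.fz q x y e]
  nb := fun i hi => by
    refine le_trans (Finset.sum_le_sum fun q _ => ?_) (le_trans (le_of_eq Finset.sum_add_distrib)
      (add_le_add (h1.nb i hi) (h2.nb i hi)))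
    refine (FP.Pr_mono _ fun w _ hw => ?_).trans (tb.Ps.Pr_or_le _ _)
    exact hw.2.imp (fun hh => ⟨hw.1, hh⟩) fun hh => ⟨hw.1, hh⟩
  nz := by
    refine le_trans (Finset.sum_le_sum fun q _ => ?_) (le_trans (le_of_eq Finset.sum_add_distrib)
      (add_le_add h1.nz h2.nz))
    refine (FP.Pr_mono _ fun w _ hw => ?_).trans (tb.Ps.Pr_or_le _ _)
    exact hw.2.imp (fun hh => ⟨hw.1, hh⟩) fun hh => ⟨hw.1, hh⟩

theorem BitT.mono {S : Finset (Fin 3)} {b : Fin 3 → ℕ → Om W X β → Prop} {z : ℕ → Om W X β → Prop} {NT NT' : ℝ}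
    (h1 : BitT tb v S b z NT) (hN : NT ≤ NT') : BitT tb v S b z NT' :=
  ⟨h1.fb, h1.fz, fun i hi => (h1.nb i hi).trans hN, h1.nz.trans hN⟩

/-- probabilities at the sample point -/
theorem Pr_pt {t : ℕ} (ht : t ≤ T) (F : Pt (Fin 3) X β φ → Prop) :
    (D.P h t).Pr F = tb.Ps.Pr (fun w => F (tb.pt t w)) := by
  unfold FP.Pr
  exact ((pul_pt h tb ht).E fun w => ind (F w)).symm

/-- **LIFTED BITS** -/
theorem bitOK_lft {S : Finset (Fin 3)} {b : Fin 3 → ℕ → Om W X β → Prop} {z : ℕ → Om W X β → Prop} {NT : ℝ}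
    (B : BitT tb v S b z NT) : BitOK h v T S (fun i t => lft (b i (5 * t + 1))) (fun i t => lft (b i (5 * t + 4)))
      (fun t => lft (z (5 * t + 1))) NT where
  f1 := fun t _ i hi => lft_Ah (nn_mid5 t (by omega)) (B.fb i hi _)
  f5 := fun t _ i hi => lft_Ah (nn_mid5 t (by omega)) (B.fb i hi _)
  fz := fun t _ => lft_Ah (nn_mid5 t (by omega)) (B.fz _)
  n1 := fun i hi => by
    refine le_trans (sum_sub (j := 1) (g := fun q => tb.Ps.Pr (fun w => (rpO tb v i q w ∨ ruO tb v q w) ∧ b i q w))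
      (by norm_num) (fun q => FP.Pr_nonneg _ _) T fun t ht => ?_) (B.nb i hi)
    rw [Pr_pt h (tb := tb) ht.le]
    refine FP.Pr_mono _ fun w _ hw => ?_
    have p1 : Pos (b i (5 * t + 1)) := pos_of (B.fb i hi _)
    refine ⟨Or.inr ⟨by omega, ?_⟩, (lft_pt (tb := tb) p1 t w).1 hw.1⟩
    have h3 : ¬ (tb.Ps.m (NPo tb v (5 * t + 1)) w ≤ 2 * tb.Ps.m (NPo tb v (5 * t + 2)) w) := fun hh =>
      hw.2 ((HV_pt h tb v ht.le w).2 hh)
    exact not_le.1 h3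
  n5 := fun i hi => by
    refine le_trans (sum_sub (j := 4) (g := fun q => tb.Ps.Pr (fun w => (rpO tb v i q w ∨ ruO tb v q w) ∧ b i q w))
      (by norm_num) (fun q => FP.Pr_nonneg _ _) T fun t ht => ?_) (B.nb i hi)
    rw [Pr_pt h (tb := tb) ht.le]
    refine FP.Pr_mono _ fun w _ hw => ?_
    have p1 : Pos (b i (5 * t + 4)) := pos_of (B.fb i hi _)
    refine ⟨Or.inl ⟨by omega, (LVp_pt h tb v ht.le i (5 * t + 4) w).1 hw.2.1, ?_⟩, (lft_pt (tb := tb) p1 t w).1 hw.1⟩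
    have hd : (5 * t + 4) / 5 = t := by omega
    rw [hd]
    exact (HV_pt h tb v ht.le w).1 hw.2.2
  nz := by
    refine le_trans (sum_sub (j := 1) (g := fun q => tb.Ps.Pr (fun w => ruO tb v q w ∧ z q w))
      (by norm_num) (fun q => FP.Pr_nonneg _ _) T fun t ht => ?_) B.nz
    rw [Pr_pt h (tb := tb) ht.le]
    refine FP.Pr_mono _ fun w _ hw => ?_
    have p1 : Pos (z (5 * t + 1)) := pos_of (B.fz _)
    refine ⟨⟨by omega, ?_⟩, (lft_pt (tb := tb) p1 t w).1 hw.1⟩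
    have h3 : ¬ (tb.Ps.m (NPo tb v (5 * t + 1)) w ≤ 2 * tb.Ps.m (NPo tb v (5 * t + 2)) w) := fun hh =>
      hw.2 ((HV_pt h tb v ht.le w).2 hh)
    exact not_le.1 h3

variable (tb v) in
/-- **THE BITS `bet`, `Z0`** : at most one removal per decided life and per zone -/
theorem bitT_bet {M : US (Om W X β)} (hP : M.P = tb.Ps) (HM : Seen M) (hS : ∀ E q, Fac (sgt (W := W) D E (TP.nn q)) (M.S E q))
    (hp : ∀ w i q, rpO tb v i q w → tv M i (q + 1) w = q + 1) (hu : ∀ w i q, ruO tb v q w → tv M i (q + 1) w = q + 1)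
    (h0 : ∀ w q, ruO tb v q w → nu M.toMS (q + 1) w = q + 1) {Q : Kd (Om W X β)} {S : Finset (Fin 3)} {x : ℝ}
    (hN : ∀ i ∈ S, UV.NT M Q i (5 * T) ≤ x) (hz : Nz M Q (5 * T) ≤ x) :
    BitT tb v S (fun i q => bet M Q i q) (fun q => Z0 M Q q) x where
  fb := fun i _ q a b e => propext (bet_S HM i le_rfl (hS {i} q a b e))
  fz := fun q a b e => propext (Z0_S HM le_rfl (hS ∅ q a b e))
  nb := fun i hi => by
    refine le_trans ?_ (hN i hi)
    unfold UV.NT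
    rw [← hP]
    refine Pr_inj (l := tv M i) (fun w _ q hq hh => ?_) (fun w _ q _ q' _ hh hh' e => ?_)
    · obtain ⟨s, a, b, c⟩ := bet_iff.1 hh.2
      exact ⟨s, lt_of_le_of_lt b hq, c, CK.stg_mid rfl a b⟩
    · exact end_one (C := M.Cv i) (hh.1.elim (hp w i q) (hu w i q)) (hh'.1.elim (hp w i q') (hu w i q')) e
  nz := by
    refine le_trans ?_ hz
    unfold Nz
    rw [← hP]
    refine Pr_inj (l := nu M.toMS) (fun w _ q hq hh => ?_) (fun w _ q _ q' _ hh hh' e => ?_)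
    · obtain ⟨s, a, b, c⟩ := Z0_iff.1 hh.2
      exact ⟨s, lt_of_le_of_lt b hq, c, CK.stg_mid rfl a b⟩
    · exact end_one (C := C0 M.toMS) (h0 w q hh.1) (h0 w q' hh'.1) e

end tab

/-! ### over `Ctx` -/

section ctx

open Pool.Agent.GMH.CX Pool.Agent.GMH.CTM

theorem pr_numE {A : ℕ} (hA : 80 ≤ A) (kT K : ℕ) : CT.Ev (fun c0 Lam =>
    TriB.Par (pw Lam c0) (pw Lam (c1F A c0)) (apF Lam A c0).X0 Lam ∧ ∀ NT PD : ℝ, 0 ≤ NT → NT ≤ pw Lam kT → 0 ≤ PD →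
    PD ≤ (pw Lam (c0 + A))⁻¹ → NT ≤ 6 * pw Lam c0 * Lam ∧
    2 * (4 * PD + (400 * (NT * Real.sqrt ((Real.log (6 * pw Lam c0 * pw Lam (c1F A c0) * Lam / NT) + (Lam + 1)) /
      pw Lam c0)) + 20 * Real.exp (-pw Lam c0) * (6 * pw Lam c0 * pw Lam (c1F A c0) * Lam))) ≤ CT.ix Lam K) := by
  refine (((CTK.par_num hA).and (CTP.bit_num4 A kT K 9)).and (CT.Ev.ge kT)).mono fun c0 Lam hL hh => ?_
  obtain ⟨⟨⟨a1, a2, a3, a4, a5⟩, a6⟩, a7⟩ := hh
  refine ⟨⟨a1, a2, a3, a4, a5⟩, fun NT PD h1 h2 h3 h4 => ⟨?_, ?_⟩⟩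
  · have k1 : pw Lam kT ≤ pw Lam c0 := CT.pw_mono hL a7
    have k2 : pw Lam c0 ≤ 6 * pw Lam c0 * Lam := by
      have : 0 ≤ pw Lam c0 := by linarith
      nlinarith
    linarith
  · have k1 : 0 ≤ pw Lam c0 := by linarith
    have k2 : 0 ≤ pw Lam (c1F A c0) := (CT.pw_pos hL _).le
    have k3 : 0 ≤ pw Lam c0 * pw Lam (c1F A c0) * Lam := by positivity
    have k4 := a6 2 400 20 PD NT (6 * pw Lam c0 * pw Lam (c1F A c0) * Lam) (by norm_num) (by norm_num) (by norm_num)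
      (by norm_num) (by norm_num) (by norm_num) h3 h4 h1 h2 (by nlinarith) (by nlinarith)
    exact k4

theorem pr_ctxE {A : ℕ} (hA : 80 ≤ A) (kT K : ℕ) : AllC A (fun C => TriB.Par C.n C.N1 C.p.X0 C.Lam ∧
    pw C.Lam kT ≤ 6 * C.n * C.Lam ∧ 2 * Bd C.h C.v C.T C.n C.N1 C.Lam C.p (pw C.Lam kT) ≤ CT.ix C.Lam K) := by
  obtain ⟨c0m, hc⟩ := CTP.ev_to (pr_numE hA kT K)
  refine ⟨c0m, fun C hC hc0 => ?_⟩
  have h1 := hc C.c0 hc0 C.Lam C.hL
  subst hC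
  obtain ⟨a1, a2⟩ := h1
  have h2 := a2 (pw C.Lam kT) ((C.D.P C.h C.T).Pr (fun w => ¬ Ar C.h C.v C.p (2 * C.T) w)) (CT.pw_pos C.hL kT).le le_rfl
    (FP.Pr_nonneg _ _) C.hd
  exact ⟨a1, h2.1, h2.2⟩

/-- the cost for a scale `eta` with any exponent -/
theorem costE {Lam eta : ℝ} (hL : 2 ≤ Lam) {kE : ℕ} (he : CT.ix Lam kE ≤ eta) :
    3 * Lam + Real.log (1 / eta) ≤ pw Lam (kE + 3) := by
  have h0 : 0 < CT.ix Lam kE := CT.ix_pos hL _
  have h1 : 0 < eta := h0.trans_le he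
  have h2 : 1 / eta ≤ pw Lam kE := by
    rw [← CT.inv_ix hL, ← one_div]
    exact one_div_le_one_div_of_le h0 he
  have h3 : Real.log (1 / eta) ≤ pw Lam kE := by
    have := Real.log_le_sub_one_of_pos (x := 1 / eta) (by positivity)
    linarith
  have h4 : pw Lam (kE + 3) = pw Lam kE * (2 * Lam) ^ 3 := by unfold pw; rw [pow_add]
  have h5 : 1 ≤ pw Lam kE := CT.pw_ge1 hL _
  have h6 : 3 * Lam + 1 ≤ (2 * Lam) ^ 3 := by nlinarith [mul_self_nonneg (Lam - 2), mul_nonneg (by linarith : (0:ℝ) ≤ Lam) (mul_self_nonneg Lam)]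
  rw [h4]
  nlinarith [mul_le_mul_of_nonneg_left h6 (by linarith : (0:ℝ) ≤ pw Lam kE)]

/-- **A FAMILY OF PRICES**, any exponent -/
theorem pr_famE {Lam eta : ℝ} (hL : 2 ≤ Lam) {T kE : ℕ} (he : CT.ix Lam kE ≤ eta) {ι : Type*} [Fintype ι]
    (hc : (Fintype.card ι : ℝ) ≤ 4 ^ 16) {Dv : ι → ℕ → ℝ} (h0 : ∀ i t, 0 ≤ Dv i t)
    (h : ∀ i, ∑ t ∈ Finset.range T, Dv i t ≤ CT.ix Lam (kE + 40)) :
    ∑ t ∈ Finset.range T, ∑ i, (3 * Lam + Real.log (1 / eta)) * Dv i t ≤ (pw Lam 16)⁻¹ := by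
  have h1 := costE hL he
  have k0 : ∑ t ∈ Finset.range T, ∑ i, (3 * Lam + Real.log (1 / eta)) * Dv i t ≤
      ∑ t ∈ Finset.range T, ∑ i, pw Lam (kE + 3) * Dv i t :=
    Finset.sum_le_sum fun t _ => Finset.sum_le_sum fun i _ => mul_le_mul_of_nonneg_right h1 (h0 i t)
  refine k0.trans ?_
  rw [Finset.sum_comm]
  simp only [← Finset.mul_sum]
  have h2 : ∑ i, ∑ t ∈ Finset.range T, Dv i t ≤ CT.ix Lam (kE + 24) :=
    CT.sum_ix hL (j := 16) Finset.univ (by rw [Finset.card_univ]; exact hc) fun i _ => by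
      rw [show 16 + (kE + 24) = kE + 40 by omega]
      exact h i
  have h3 : pw Lam (kE + 3) * ∑ i, ∑ t ∈ Finset.range T, Dv i t ≤ pw Lam (kE + 3) * CT.ix Lam (kE + 24) :=
    mul_le_mul_of_nonneg_left h2 (CT.pw_pos hL _).le
  exact h3.trans ((CT.fin hL le_rfl (k := kE + 24) (s := 16) (by omega)).trans (le_of_eq rfl))

/-- **PRICES OF `FullOK`** : the hypotheses `dev` and `hPr` of `fullOK3` -/
theorem full_ctxE {A : ℕ} (hA : 80 ≤ A) (kT kE : ℕ) : AllC A (fun C => ∀ (Gd : ℕ → C.Q → Prop) (st sp : ℕ → C.Q → Option (Fin 3)),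
    (∀ t < C.T, Fac (ZT C.D C.v (t + 1) t) (Gd t)) → (∀ t < C.T, Fac (VZ C.D C.v 1 t) (st t)) →
    (∀ t < C.T, Fac (VZ C.D C.v 5 t) (sp t)) →
    ∀ (b : Fin 10 → Fin 3 → ℕ → C.O → Prop) (z : Fin 10 → ℕ → C.O → Prop),
    (∀ k ∈ rK, BitT C.tb C.v (vk k) (b k) (z k) (pw C.Lam kT)) → ∀ eta : ℝ, CT.ix C.Lam kE ≤ eta →
    ∃ Dv : Fin 6 → ℕ → Fin 10 → ℝ, (∀ t < C.T, ∀ s k, ∀ g : C.Q → ℝ,
      Fac (fun w => (tup (FQ C.v t) w, VZ C.D C.v s t w)) g → (∀ w, |g w| ≤ 1) →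
        |(C.D.P C.h t).E (fun w => ind (aN C.h C.v C.p Gd st sp s t w ∧
            bit3 C.h C.v (fun k i q => lft (b k i q)) (fun k q => lft (z k q)) s t k w) *
          (g w - (C.D.P C.h t).ce (VZ C.D C.v s t) g w))| ≤ Dv s t k) ∧
      ∑ t ∈ range C.T, ∑ s, ∑ k, (3 * C.Lam + Real.log (1 / eta)) * Dv s t k ≤ (pw C.Lam 16)⁻¹) := by
  refine (pr_ctxE hA kT (kE + 40)).mono fun C hh Gd st sp fG fs fp b z hB eta he => ?_
  obtain ⟨p, hNM, hBd⟩ := hh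
  have hx := CT.pw_pos C.hL kT
  obtain ⟨Dv, d0, d1, d2⟩ := full_dev (h := C.h) (v := C.v) (ap := C.p) p C.H C.R
    (bt := fun k i q => lft (b k i q)) (bz := fun k q => lft (z k q)) (fun k hk => bitOK_lft C.h (hB k hk)) hx.le hNM
    (A := fun s t => aN C.h C.v C.p Gd st sp s t) (fun s t ht => aN_fac (fG t ht) (fs t ht) (fp t ht) s)
    (fun t _ w hw => hw.1.1) (fun t _ w hw => hw.1.1)
  refine ⟨Dv, d1, ?_⟩
  have hn0 : 0 ≤ Bd C.h C.v C.T C.n C.N1 C.Lam C.p (pw C.Lam kT) :=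
    Bd_nn (by linarith [p.n2]) (by linarith [p.N1']) (by linarith [p.L1]) hx.le
  have k1 := pr_famE C.hL he (T := C.T) (ι := Fin 6 × Fin 10) (by
      rw [Fintype.card_prod, Fintype.card_fin, Fintype.card_fin]; norm_num) (Dv := fun i t => Dv i.1 t i.2)
    (fun i t => d0 i.1 t i.2) (fun i => (d2 i.1 i.2).trans (by linarith))
  refine le_trans (le_of_eq ?_) k1
  exact Finset.sum_congr rfl fun t _ => (Fintype.sum_prod_type
    (fun i : Fin 6 × Fin 10 => (3 * C.Lam + Real.log (1 / eta)) * Dv i.1 t i.2)).symm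

/-- **PRICES OF `TwoOK`** : the hypotheses `dev` and `hPr` of `twoOK2` -/
theorem two_ctxE {A : ℕ} (hA : 80 ≤ A) (kT kE : ℕ) : AllC A (fun C => ∀ (Gd : ℕ → C.Q → Prop) (st sp : ℕ → C.Q → Option (Fin 3)),
    (∀ t < C.T, Fac (ZT C.D C.v (t + 1) t) (Gd t)) → (∀ t < C.T, Fac (VZ C.D C.v 1 t) (st t)) →
    (∀ t < C.T, Fac (VZ C.D C.v 5 t) (sp t)) →
    ∀ (i : Fin 3) (rk : Finset (Fin 10)) (b z : Fin 10 → ℕ → C.O → Prop),
    (∀ k ∈ rk, BitT C.tb C.v {i} (fun _ => b k) (z k) (pw C.Lam kT)) → ∀ eta : ℝ, CT.ix C.Lam kE ≤ eta →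
    ∃ Dv : Bool → ℕ → Fin 10 → ℝ, (∀ t < C.T, ∀ e k, ∀ g : C.Q → ℝ,
      Fac (fun w => (tup (Fo (FQ C.v t) i) w, VZ C.D C.v (s2 e) t w)) g → (∀ w, |g w| ≤ 1) →
        |(C.D.P C.h t).E (fun w => ind (aV C.h C.v C.p Gd st sp i e t w ∧
            bit2 C.h C.v i rk (fun k q => lft (b k q)) (fun k q => lft (z k q)) e t k w) *
          (g w - (C.D.P C.h t).ce (VZ C.D C.v (s2 e) t) g w))| ≤ Dv e t k) ∧
      ∑ t ∈ range C.T, ∑ e, ∑ k, (3 * C.Lam + Real.log (1 / eta)) * Dv e t k ≤ (pw C.Lam 16)⁻¹) := by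
  refine (pr_ctxE hA kT (kE + 40)).mono fun C hh Gd st sp fG fs fp i rk b z hB eta he => ?_
  obtain ⟨p, hNM, hBd⟩ := hh
  have hx := CT.pw_pos C.hL kT
  obtain ⟨Dv, d0, d1, d2⟩ := two_dev (h := C.h) (v := C.v) (ap := C.p) p C.H C.R i (rk := rk)
    (bt := fun k q => lft (b k q)) (bz := fun k q => lft (z k q)) (fun k hk => bitOK_lft C.h (hB k hk)) hx.le hNM
    (A := fun e t => aV C.h C.v C.p Gd st sp i e t) (fun e t ht => aV_fac (fG t ht) (fs t ht) (fp t ht) i e)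
    (fun t _ w hw => hw.1.1) (fun t _ w hw => hw.1.1)
  refine ⟨Dv, d1, ?_⟩
  have hn0 : 0 ≤ Bd C.h C.v C.T C.n C.N1 C.Lam C.p (pw C.Lam kT) :=
    Bd_nn (by linarith [p.n2]) (by linarith [p.N1']) (by linarith [p.L1]) hx.le
  have k1 := pr_famE C.hL he (T := C.T) (ι := Bool × Fin 10) (by
      rw [Fintype.card_prod, Fintype.card_bool, Fintype.card_fin]; norm_num) (Dv := fun i t => Dv i.1 t i.2)
    (fun i t => d0 i.1 t i.2) (fun i => (d2 i.1 i.2).trans (by linarith))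
  refine le_trans (le_of_eq ?_) k1
  exact Finset.sum_congr rfl fun t _ => (Fintype.sum_prod_type
    (fun i : Bool × Fin 10 => (3 * C.Lam + Real.log (1 / eta)) * Dv i.1 t i.2)).symm

/-- **PRICES OF `OneOK`** : the condition `dev` of `Ki1` and the price sum, any finite family of kinds, any bits `Bt` which agree
with `z` or `b` on the alive points -/
theorem one_ctxE {A : ℕ} (hA : 80 ≤ A) (kT kE : ℕ) : AllC A (fun C => ∀ (Gd : ℕ → C.Q → Prop) (st sp : ℕ → C.Q → Option (Fin 3)),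
    (∀ t < C.T, Fac (ZT C.D C.v (t + 1) t) (Gd t)) → (∀ t < C.T, Fac (VZ C.D C.v 1 t) (st t)) →
    (∀ t < C.T, Fac (VZ C.D C.v 5 t) (sp t)) →
    ∀ (i : Fin 3) (κ : Type) [Fintype κ], (Fintype.card κ : ℝ) ≤ 4 ^ 13 → ∀ (b z : κ → ℕ → C.O → Prop)
      (Bt : ℕ → κ → C.Q → Prop),
    (∀ k, BitT C.tb C.v {i} (fun _ => b k) (z k) (pw C.Lam kT)) →
    (∀ t < C.T, ∀ k w, aV C.h C.v C.p Gd st sp i false t w → (Bt t k w ↔ (lft (z k (5 * t + 1)) w ∨ lft (b k (5 * t + 1)) w))) →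
    ∀ eta : ℝ, CT.ix C.Lam kE ≤ eta →
    ∃ Dv : ℕ → κ → ℝ, (∀ t < C.T, ∀ k, ∀ g : C.Q → ℝ,
      Fac (fun w => (tup (fun _ : Unit => FQ C.v t i) w, (ZQ C.D C.v (qe 1 t) w, Z1 C.D C.v 1 t i w))) g → (∀ w, |g w| ≤ 1) →
        |(C.D.P C.h t).E (fun w => ind (aV C.h C.v C.p Gd st sp i false t w ∧ Bt t k w) *
          (g w - (C.D.P C.h t).ce (fun u => (ZQ C.D C.v (qe 1 t) u, Z1 C.D C.v 1 t i u)) g w))| ≤ Dv t k) ∧
      ∑ t ∈ range C.T, ∑ k, (3 * C.Lam + Real.log (1 / eta)) * Dv t k ≤ (pw C.Lam 16)⁻¹) := by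
  refine (pr_ctxE hA kT (kE + 40)).mono fun C hh Gd st sp fG fs fp i κ _ hκ b z Bt hB hBt eta he => ?_
  obtain ⟨p, hNM, hBd⟩ := hh
  have hx := CT.pw_pos C.hL kT
  have key := fun k => one_dev (h := C.h) (v := C.v) (ap := C.p) p C.H C.R i
    (b1 := fun _ t => lft (b k (5 * t + 1))) (b5 := fun _ t => lft (b k (5 * t + 4))) (z1 := fun t => lft (z k (5 * t + 1)))
    (bitOK_lft C.h (hB k)) hx.le hNM (A := fun t => aV C.h C.v C.p Gd st sp i false t)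
    (fun t ht => aV_fac (fG t ht) (fs t ht) (fp t ht) i false) (fun t _ w hw => hw.1.1)
  choose Dv d0 d1 d2 using key
  refine ⟨fun t k => Dv k t, fun t ht k g hg hb => ?_, ?_⟩
  · have e : ∀ w, (aV C.h C.v C.p Gd st sp i false t w ∧ Bt t k w) = (aV C.h C.v C.p Gd st sp i false t w ∧
        (lft (z k (5 * t + 1)) w ∨ lft (b k (5 * t + 1)) w)) := fun w => propext (and_congr_right fun hw => hBt t ht k w hw)
    simp only [e]
    exact d1 k t ht g hg hb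
  · exact pr_famE C.hL he (T := C.T) (ι := κ) (hκ.trans (by norm_num)) (Dv := fun k t => Dv k t) (fun k t => d0 k t)
      (fun k => (d2 k).trans hBd)


/-! the old names: scales `eta` at least `ix CTK.ke` -/

theorem full_ctx {A : ℕ} (hA : 80 ≤ A) (kT : ℕ) : type_of% (full_ctxE hA kT CTK.ke) := full_ctxE hA kT CTK.ke

theorem two_ctx {A : ℕ} (hA : 80 ≤ A) (kT : ℕ) : type_of% (two_ctxE hA kT CTK.ke) := two_ctxE hA kT CTK.ke

theorem one_ctx {A : ℕ} (hA : 80 ≤ A) (kT : ℕ) : type_of% (one_ctxE hA kT CTK.ke) := one_ctxE hA kT CTK.ke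

end ctx

end

end Pool.Agent.GMH.PRF
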