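import Pool.Agent.GMH.CtxD
import Pool.Agent.GMH.ConT8
import Pool.Agent.GMH.InertO
import Pool.Agent.GMH.PRctx

/-!
# GMH/CtxI (helper58): THE INERT PART OF THE LOST LIVES, numbers over `Ctx` (row A6, N2)

* `ine_num` : the numbers of `InertO.ine_O`;
* **`ine_C`** : for every kind `k` of the three tops and every bit `bt` of a vertex of the kind: the removed tuples of the kind
  with the bit, alive, not `sF`, no bad top strong: `≤ x^(-sq) NT + x^(-s) (NT + 1)`, every `s`, `B ≤ 4^9 x^200`.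
-/

set_option autoImplicit false
set_option linter.unusedSectionVars false

namespace Pool.Agent.GMH.CX

open Finset Pool.Agent.PWZ Pool.Agent.M3 Pool.Agent.GM Pool.Agent.GM.Harm Pool.Agent.GMH Pool.Agent.GMH.NZ
open Pool.Agent.GMH.V3 Pool.Agent.GMH.TP Pool.Agent.GMH.TD Pool.Agent.GMH.Dy Pool.Agent.GMH.CTM
open Pool.Agent.GMH.MVN (pe pQ)
open Pool.Agent.GMH.CT (ix Rd Rounds KcB)
open Pool.Agent.GMH.TRF Pool.Agent.GMH.KF

noncomputable section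

/-- `log x^k ≤ k x` -/
theorem log_pwk {Lam : ℝ} (hL : 2 ≤ Lam) (k : ℕ) : Real.log (pw Lam k) ≤ k * (2 * Lam) := by
  unfold pw
  rw [Real.log_pow]
  refine mul_le_mul_of_nonneg_left ?_ (Nat.cast_nonneg k)
  have := Real.log_le_sub_one_of_pos (show 0 < 2 * Lam by linarith)
  linarith

/-- the number of all light public values is at most `x^(c1 + c0 + 3)` -/
theorem MT_pw {Lam : ℝ} (hL : 2 ≤ Lam) (A c0 : ℕ) :
    6 * pw Lam c0 * pw Lam (c1F A c0) * Lam ≤ pw Lam (c1F A c0 + c0 + 3) := by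
  have e1 : pw Lam (c1F A c0 + c0 + 3) = pw Lam c0 * pw Lam (c1F A c0) * (pw Lam 2 * pw Lam 1) := by
    rw [← CT.pw_add, ← CT.pw_add, ← CT.pw_add]
    congr 1
    ring
  have e2 : (6 : ℝ) ≤ pw Lam 2 := (by norm_num : (6 : ℝ) ≤ 4 ^ 2).trans (CT.pw_ge hL 2)
  have e3 := CT.Lam_le hL
  have p1 := CT.pw_pos hL c0
  have p2 := CT.pw_pos hL (c1F A c0)
  have e4 : 6 * Lam ≤ pw Lam 2 * pw Lam 1 := mul_le_mul e2 e3 (by linarith) (by linarith)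
  have e5 := mul_le_mul_of_nonneg_left e4 (mul_pos p1 p2).le
  rw [e1]
  linarith

/-- **NUMBERS OF THE INERT PART** -/
theorem ine_num (A s : ℕ) : CT.Ev (fun c0 Lam =>
    12 * Real.sqrt ((Real.log (6 * pw Lam c0 * pw Lam (c1F A c0) * Lam) + (Lam + 1) + 1) / pw Lam c0) ≤ ix Lam (s + 1) ∧
    8 * Real.exp (-(pw Lam c0)) * (6 * pw Lam c0 * pw Lam (c1F A c0) * Lam) ≤ ix Lam (s + 1) ∧
    8 * (pw Lam (c0 + A))⁻¹ ≤ ix Lam (s + 1)) := by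
  refine (((CT.n_big A (2 * (s + 3)) 5).and (CT.exp_nj A (s + 8))).and (CT.Ev.ge (s + 3))).mono
    fun c0 Lam hL ⟨⟨h1, h2⟩, h3⟩ => ?_
  have n0 := CT.pw_pos hL c0
  have hM1 : 1 ≤ 6 * pw Lam c0 * pw Lam (c1F A c0) * Lam := by
    have a1 := pw_one hL c0
    have a2 := pw_one hL (c1F A c0)
    have a3 : 1 ≤ pw Lam c0 * pw Lam (c1F A c0) := one_le_mul_of_one_le_of_one_le a1 a2
    have a4 : 1 * 2 ≤ pw Lam c0 * pw Lam (c1F A c0) * Lam := mul_le_mul a3 hL (by norm_num) (by linarith)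
    linarith
  have hMe := MT_pw hL A c0
  refine ⟨?_, ?_, ?_⟩
  · have g1 : Real.log (6 * pw Lam c0 * pw Lam (c1F A c0) * Lam) ≤ ((c1F A c0 + c0 + 3 : ℕ) : ℝ) * (2 * Lam) :=
      (Real.log_le_log (by linarith) hMe).trans (log_pwk hL _)
    have g2 : Real.log (6 * pw Lam c0 * pw Lam (c1F A c0) * Lam) + (Lam + 1) + 1 ≤
        ((5 : ℕ) : ℝ) * ((c1F A c0 : ℝ) + c0 + 1) * (2 * Lam) := by
      push_cast at g1 ⊢
      have q0 : (0 : ℝ) ≤ (c1F A c0 : ℝ) := Nat.cast_nonneg _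
      have q1 : (0 : ℝ) ≤ (c0 : ℝ) := Nat.cast_nonneg _
      have q2 : 0 ≤ ((c1F A c0 : ℝ) + c0) * Lam := mul_nonneg (by linarith) (by linarith)
      nlinarith
    have g3 : (Real.log (6 * pw Lam c0 * pw Lam (c1F A c0) * Lam) + (Lam + 1) + 1) / pw Lam c0 ≤ ix Lam (2 * (s + 3)) := by
      rw [div_le_iff₀ n0]
      have := g2.trans h1
      linarith
    have g4 := Real.sqrt_le_sqrt g3
    rw [CT.sqrt_ix hL] at g4
    have g5 : (12 : ℝ) * ix Lam (s + 3) ≤ ix Lam (s + 1) := CT.fin hL (CT.cst hL 2 (by norm_num)) (by omega)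
    linarith
  · have g1 : 8 * Real.exp (-(pw Lam c0)) * (6 * pw Lam c0 * pw Lam (c1F A c0) * Lam) ≤
        8 * ix Lam ((s + 8) * (c1F A c0 + c0 + 1)) * pw Lam (c1F A c0 + c0 + 3) :=
      mul_le_mul (mul_le_mul_of_nonneg_left h2 (by norm_num)) hMe (by linarith)
        (mul_nonneg (by norm_num) (CT.ix_nn hL _))
    refine g1.trans ?_
    have g2 := CT.fin2 hL (u := 8) (v := pw Lam (c1F A c0 + c0 + 3)) (a := 2) (b := c1F A c0 + c0 + 3)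
      (k := (s + 8) * (c1F A c0 + c0 + 1)) (s := s + 1) (CT.pw_pos hL _).le (CT.cst hL 2 (by norm_num)) le_rfl (by nlinarith)
    refine le_trans (le_of_eq ?_) g2
    ring
  · have g1 : (pw Lam (c0 + A))⁻¹ ≤ ix Lam (s + 3) := CT.ix_anti hL (by omega)
    have g5 : (8 : ℝ) * ix Lam (s + 3) ≤ ix Lam (s + 1) := CT.fin hL (CT.cst hL 2 (by norm_num)) (by omega)
    linarith

/-- **THE INERT PART OVER `Ctx`** -/
theorem ine_C {A : ℕ} (hA80 : 80 ≤ A) (s : ℕ) : AllC A (fun C => ∀ (R : Rounds) (c : KC), KcB R C.Lam c → 0 ≤ c.eF →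
    c.eF ≤ ix C.Lam R.G.q → ∀ B : ℝ, 0 ≤ B → B ≤ 4 ^ 9 * pw C.Lam 200 → ∀ k ∈ rK, ∀ i0 ∈ vk k, ∀ bt : ℕ → C.O → Prop,
    (∀ q, Fac (sgt C.D {i0} (TP.nn q)) (bt q)) → ∀ Ae : Fin 6 → ℕ → C.Q → Prop,
    (∀ s t, t < C.T → Fac (VZ (φ := C.φ) C.D C.v s t) (Ae s t)) →
    (∀ s t, t < C.T → ∀ w, Ae s t w → Ar C.h C.v C.p (2 * t + 1) w) → ∀ NT : ℝ,
    ∑ q ∈ range (5 * C.T), C.tb.Ps.Pr (fun w => (rpO C.tb C.v i0 q w ∨ ruO C.tb C.v q w) ∧ bt q w) ≤ NT →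
    ∑ q ∈ range (5 * C.T), C.tb.Ps.Pr (fun w => ((rpO C.tb C.v i0 q w ∨ ruO C.tb C.v q w) ∧ bt q w) ∧
        (k ≠ 1 ∧ ineq C.tb C.h C.v c B Ae k q w)) ≤ ix C.Lam R.G.sq * NT + ix C.Lam s * (NT + 1)) := by
  obtain ⟨m1, hm1⟩ := PRF.pr_ctxE hA80 0 0
  obtain ⟨m2, hm2⟩ := (ine_num A s).ex
  refine ⟨max m1 m2, fun C hC hc0 => ?_⟩
  intro R c hc hF0 hF B hB hB2 k hk i0 hi bt hbt Ae hAe hAr NT hNT
  have hL := C.hL
  obtain ⟨P0, -, -⟩ := hm1 C hC ((le_max_left _ _).trans hc0)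
  obtain ⟨n1, n2, n3⟩ := hm2 C.c0 ((le_max_right _ _).trans hc0) C.Lam hL
  subst hC
  have hM1 : 1 ≤ 6 * C.n * C.N1 * C.Lam := by
    have a1 := C.n1
    have a2 := C.N11
    have a3 : 1 ≤ C.n * C.N1 := one_le_mul_of_one_le_of_one_le a1 a2
    have a4 : 1 * 2 ≤ C.n * C.N1 * C.Lam := mul_le_mul a3 hL (by norm_num) (by linarith)
    linarith
  have p1 : 0 ≤ c.e1 := (CT.ix_nn hL _).trans hc.l1
  have p2 : 0 < c.e2 := (CT.ix_pos hL _).trans_le hc.l2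
  have NT0 : 0 ≤ NT := (Finset.sum_nonneg fun q _ => FP.Pr_nonneg _ _).trans hNT
  have key := ine_O (h := C.h) C.tb P0 C.codes C.H C.R hk hi hbt hAe hAr hB p1 p2 hF0 hNT hM1
  refine key.trans ?_
  -- the masses
  have q1 : 4 * (B * (2 * (c.e1 / c.e2) + 2 * c.eF) * NT) ≤ ix C.Lam R.G.sq * NT := by
    have m0 : 0 ≤ 2 * (c.e1 / c.e2) + 4 * c.eF := by positivity
    have m1' : 2 * (c.e1 / c.e2) + 2 * c.eF ≤ 2 * (c.e1 / c.e2) + 4 * c.eF := by linarith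
    have g1 := hc.inert hL (j := 200) le_rfl (c' := 4 ^ 10) (by norm_num) le_rfl hF
    have g2 : 4 * (B * (2 * (c.e1 / c.e2) + 2 * c.eF)) ≤ 4 ^ 10 * pw C.Lam 200 * (2 * (c.e1 / c.e2) + 4 * c.eF) := by
      have g3 : B * (2 * (c.e1 / c.e2) + 2 * c.eF) ≤ 4 ^ 9 * pw C.Lam 200 * (2 * (c.e1 / c.e2) + 4 * c.eF) :=
        mul_le_mul hB2 m1' (by positivity) (mul_nonneg (by norm_num) (CT.pw_pos hL _).le)
      calc 4 * (B * (2 * (c.e1 / c.e2) + 2 * c.eF)) ≤ 4 * (4 ^ 9 * pw C.Lam 200 * (2 * (c.e1 / c.e2) + 4 * c.eF)) :=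
            mul_le_mul_of_nonneg_left g3 (by norm_num)
        _ = _ := by ring
    have g4 := mul_le_mul_of_nonneg_right (g2.trans g1) NT0
    linarith
  have q2 : 8 * (C.D.P C.h C.T).Pr (fun w => ¬ Ar C.h C.v C.p (2 * C.T) w) ≤ ix C.Lam (s + 1) := by
    have h9 : (C.D.P C.h C.T).Pr (fun w => ¬ Ar C.h C.v C.p (2 * C.T) w) ≤ (pw C.Lam (C.c0 + C.A))⁻¹ := C.hd
    linarith
  have q3 : 12 * ((NT + 1) * Real.sqrt ((Real.log (6 * C.n * C.N1 * C.Lam) + (C.Lam + 1) + 1) / C.n)) ≤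
      ix C.Lam (s + 1) * (NT + 1) := by
    have := mul_le_mul_of_nonneg_right n1 (show 0 ≤ NT + 1 by linarith)
    refine le_trans (le_of_eq ?_) this
    show _ = 12 * Real.sqrt ((Real.log (6 * C.n * C.N1 * C.Lam) + (C.Lam + 1) + 1) / C.n) * (NT + 1)
    ring
  have q4 : 8 * Real.exp (-C.n) * (6 * C.n * C.N1 * C.Lam) ≤ ix C.Lam (s + 1) := n2
  have q5 : 4 * ix C.Lam (s + 1) ≤ ix C.Lam s := by
    have := CT.fin hL (u := 4) (a := 1) (k := s + 1) (s := s) (CT.cst hL 1 (by norm_num)) (by omega)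
    exact this
  have q6 := CT.ix_nn hL (s + 1)
  have q7 : 0 ≤ ix C.Lam (s + 1) * NT := mul_nonneg q6 NT0
  have q8 := mul_le_mul_of_nonneg_right q5 (show 0 ≤ NT + 1 by linarith)
  nlinarith

end

end Pool.Agent.GMH.CX
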