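import Pool.Agent.GMH.DynK
import Pool.Agent.GMH.CtxL
import Pool.Agent.GMH.ConT3

/-!
# GMH/CtxK: the kinds of the run over one `Ctx` (helper12)

* `C.uBk κ`, `C.u0k κ` : thresholds of the densities of the kind `κ` (round `rd Rc κ`);
* **`C.Q3 c κ`** : the kind `κ` of the three tops, **`C.Q2 ka c i κ`** : of the two tops which see the vertex `i`; cut `C.Kc`.
-/

set_option autoImplicit false
set_option linter.unusedSectionVars false

namespace Pool.Agent.GMH.CX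

open Finset Pool.Agent.PWZ Pool.Agent.M3 Pool.Agent.GM Pool.Agent.GM.Harm Pool.Agent.GMH Pool.Agent.GMH.NZ
open Pool.Agent.GMH.V3 Pool.Agent.GMH.TP Pool.Agent.GMH.TD Pool.Agent.GMH.Dy Pool.Agent.GMH.KF

noncomputable section

namespace Ctx

variable (C : Ctx)

/-- density of a decided life of the kind `κ` -/
def uBk (κ : Fin 10) : ℝ := CT.ix C.Lam (CT.rd CT.Rc κ.1).uB

/-- density of a zone of the kind `κ` -/
def u0k (κ : Fin 10) : ℝ := CT.ix C.Lam (CT.rd CT.Rc κ.1).u0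

/-- **the kind `κ` of the three tops** -/
def Q3 (c : KC) (κ : Fin 10) : UV.Kd C.O := K3 C.h C.v C.tb C.p c κ (C.uBk κ) (C.u0k κ) C.Kc

/-- **the kind `κ` of the two tops which see the vertex `i`** -/
def Q2 (ka : ℕ) (c : KC) (i : Fin 3) (κ : Fin 10) : UV.Kd C.O :=
  K2 C.h C.v C.tb (C.U ka).toMS C.p c i κ (C.uBk κ) (C.u0k κ) C.Kc

theorem Q3_Vk (c : KC) (κ : Fin 10) : (C.Q3 c κ).Vk = vk κ := rfl
theorem Q3_uB (c : KC) (κ : Fin 10) : (C.Q3 c κ).uB = C.uBk κ := rfl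
theorem Q3_u0 (c : KC) (κ : Fin 10) : (C.Q3 c κ).u0 = C.u0k κ := rfl
theorem Q3_al (c : KC) (κ : Fin 10) : (C.Q3 c κ).al = Alv C.h C.v C.tb C.p := rfl
theorem Q2_Vk (ka : ℕ) (c : KC) (i κ) : (C.Q2 ka c i κ).Vk = {i} := rfl
theorem Q2_uB (ka : ℕ) (c : KC) (i κ) : (C.Q2 ka c i κ).uB = C.uBk κ := rfl
theorem Q2_u0 (ka : ℕ) (c : KC) (i κ) : (C.Q2 ka c i κ).u0 = C.u0k κ := rfl
theorem Q2_al (ka : ℕ) (c : KC) (i κ) : (C.Q2 ka c i κ).al = Alv C.h C.v C.tb C.p := rfl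

theorem uBk_pos (κ : Fin 10) : 0 < C.uBk κ := CT.ix_pos C.hL _
theorem u0k_pos (κ : Fin 10) : 0 < C.u0k κ := CT.ix_pos C.hL _

end Ctx

end

end Pool.Agent.GMH.CX
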