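import Pool.Agent.GMH.MV2U

/-!
# GMH.MV2: exact and public clocks, numbers of the epochs (helper7, stub of helper27)

* `Nx_le` : `ends_mass`, `ends_ev`;
* `N0_le` : `ends_mass` for `Lst`: moves (`ends_ev` with the public part), restarts of the exact clocks (`ends_in`), upcrossings
  (`up_c`); P2 ends: `ends_p2` and `hys_mass`; the starts of the epochs: `1 + N0`.
-/

set_option autoImplicit false
set_option linter.unusedSectionVars false

namespace Pool.Agent.GMH.MV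

open Finset Pool.Agent.PWZ Pool.Agent.M3 Pool.Agent.GMH.TD Pool.Agent.GMH.CK

variable {Om : Type} [Fintype Om] (M : MS Om)

theorem card_fam2 : (Fintype.card (Finset (Fin 3) × Finset (Fin 3)) : ℝ) = 64 := by
  have h : Fintype.card (Finset (Fin 3) × Finset (Fin 3)) = 64 := by decide
  rw [h]
  norm_num

theorem Nx_le (v : Fin 3) {T : ℕ} {Tot : ℝ} (h : TotX M T Tot) :
    Nx M v T ≤ NL M T + NLx M v T + 128 * (4 / M.d1 ^ 2 * Tot) / M.kb := by
  have h1a := ends_ev (P := M.P) (N := CN M v) (Lf := LF M) (Yf := YF M) (C := Cx M v) (CN_step M v) (tau_fac M v)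
    (LF_step M) (LF_YF M) M.hd1 M.hd11 T (fun i => (h.1 v i).1) (fun i => (h.1 v i).2)
  have h1b := ends_free (P := M.P) (N := M.NP) (Lf := LF M) (Yf := YF M) (C := Cx M v) M.hN
    (LF_step M) (LF_YF M) M.hd1 M.hd11 T (fun i => (h.2 i).1) (fun i => (h.2 i).2)
  rw [card_fam2] at h1a h1b
  have hT0 : 0 ≤ Tot / 5 := le_trans (sum_nonneg fun k _ => M.P.E_nonneg fun w hw => bi_nonneg M.P (LF_step M (∅, ∅)) k hw)
    (h.2 (∅, ∅)).2
  have h1 : ∑ s ∈ range T, M.P.Pr (fun w => stg (Cx M v) (s + 1) w = s + 1 ∧ Ex M v (stg (Cx M v) s w) (s + 1) w) ≤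
      128 * (4 / M.d1 ^ 2 * Tot) := by
    have h1c : ∀ s ∈ range T, M.P.Pr (fun w => stg (Cx M v) (s + 1) w = s + 1 ∧ Ex M v (stg (Cx M v) s w) (s + 1) w) ≤
        M.P.Pr (fun w => stg (Cx M v) (s + 1) w = s + 1 ∧
          Evm M.P (CN M v) (LF M) (YF M) M.d1 (stg (Cx M v) s w) (s + 1) w) +
        M.P.Pr (fun w => stg (Cx M v) (s + 1) w = s + 1 ∧
          Evm M.P M.NP (LF M) (YF M) M.d1 (stg (Cx M v) s w) (s + 1) w) := by
      intro s _
      refine (M.P.Pr_mono fun w _ hw => ?_).trans (M.P.Pr_or_le _ _)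
      rcases hw.2 with g | g
      · exact Or.inl ⟨hw.1, g⟩
      · exact Or.inr ⟨hw.1, g⟩
    refine (sum_le_sum h1c).trans ?_
    rw [sum_add_distrib]
    have h1d : 0 ≤ 1 / M.d1 ^ 2 * (Tot / 5) := mul_nonneg (by positivity) hT0
    have h1e : 128 * (4 / M.d1 ^ 2 * Tot) = 2560 * (1 / M.d1 ^ 2 * (Tot / 5)) := by ring
    have h1f : 2 * (64 * (4 / M.d1 ^ 2 * (Tot / 5))) = 512 * (1 / M.d1 ^ 2 * (Tot / 5)) := by ring
    have h1g : 64 * (16 / M.d1 ^ 2 * (Tot / 5)) = 1024 * (1 / M.d1 ^ 2 * (Tot / 5)) := by ring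
    rw [h1e]
    rw [h1f] at h1a
    rw [h1g] at h1b
    linarith
  have h2 : ∀ s ∈ range T, M.P.Pr (fun w => tau M v (s + 1) w = s + 1) ≤
      M.P.Pr (lt5 M M.NP s) + M.P.Pr (lt5 M (CN M v) s) + M.P.Pr (fun w => stg (Cx M v) (s + 1) w = s + 1 ∧
        M.kb ≤ M.P.ce (CN M v (s + 1)) (fun u => ind (Ex M v (stg (Cx M v) s w) (s + 1) u)) w) := by
    intro s _
    refine le_trans (M.P.Pr_mono fun w _ hw => ?_) ((M.P.Pr_or_le (fun w => lt5 M M.NP s w ∨ lt5 M (CN M v) s w) _).trans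
      (add_le_add_left (M.P.Pr_or_le _ _) _))
    have h3 : Cx M v (stg (Cx M v) s w) (s + 1) w := stg_end hw
    rcases h3 with h3 | h3 | h3
    · exact Or.inl (Or.inl h3)
    · exact Or.inl (Or.inr h3)
    · exact Or.inr ⟨hw, h3⟩
  have h3 : M.kb * ∑ s ∈ range T, M.P.Pr (fun w => stg (Cx M v) (s + 1) w = s + 1 ∧
        M.kb ≤ M.P.ce (CN M v (s + 1)) (fun u => ind (Ex M v (stg (Cx M v) s w) (s + 1) u)) w) ≤
      128 * (4 / M.d1 ^ 2 * Tot) := by
    rw [mul_sum]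
    refine (sum_le_sum fun s _ => ends_mass (P := M.P) (N := CN M v) (C := Cx M v) (Ls := fun ν k u => Ex M v ν k u)
      (kp := M.kb) (CN_step M v) (tau_fac M v) s).trans ?_
    exact h1
  have h4 := sum_le_sum h2
  rw [sum_add_distrib, sum_add_distrib] at h4
  have h5 : ∑ s ∈ range T, M.P.Pr (fun w => stg (Cx M v) (s + 1) w = s + 1 ∧
        M.kb ≤ M.P.ce (CN M v (s + 1)) (fun u => ind (Ex M v (stg (Cx M v) s w) (s + 1) u)) w) ≤
      128 * (4 / M.d1 ^ 2 * Tot) / M.kb := by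
    rw [le_div_iff₀ M.hkb, mul_comm]
    exact h3
  unfold Nx NL NLx
  linarith

/-- number of the starts of the public epochs before `T` -/
theorem starts_le (T : ℕ) : ∑ s ∈ range T, M.P.Pr (fun w => nu M s w = s) ≤ 1 + N0 M T := by
  unfold N0
  cases T with
  | zero => simp
  | succ T =>
    rw [Finset.sum_range_succ', Finset.sum_range_succ (fun s => M.P.Pr (fun w => nu M (s + 1) w = s + 1))]
    have h1 := M.P.Pr_le_one (fun w => nu M 0 w = 0)
    have h2 := M.P.Pr_nonneg (fun w => nu M (T + 1) w = T + 1)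
    linarith

theorem Lst_ends {Lam : ℝ} (hT : Thk M Lam) {T : ℕ} {Tx To : ℝ} (hx : TotX M T Tx) (ho : Tot0 M T To) :
    ∑ s ∈ range T, M.P.Pr (fun w => stg (C0 M) (s + 1) w = s + 1 ∧ Lst M (stg (C0 M) s w) (s + 1) w) ≤
      128 * (4 / M.d0 ^ 2 * To) + ∑ v, Nx M v T +
        6 / M.p1 * (M.p1 + 2 * (Real.exp (4 * Lam) * (64 * (4 / M.d1 ^ 2 * Tx)))) := by
  set E := Real.exp (4 * Lam) * (64 * (4 / M.d1 ^ 2 * Tx)) with hE
  have h1 := ends_ev (P := M.P) (N := M.NP) (Lf := LF M) (Yf := YF M) (C := C0 M) M.hN (nu_fac M)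
    (LF_step M) (LF_YF M) M.hd0 M.hd01 T (fun i => (ho i).1) (fun i => (ho i).2)
  rw [card_fam2] at h1
  have h2 : ∀ v : Fin 3, ∑ s ∈ range T, M.P.Pr (fun w => stg (C0 M) (s + 1) w = s + 1 ∧
      ∃ j, stg (C0 M) s w < j ∧ j ≤ s + 1 ∧ tau M v j w = j) ≤ Nx M v T := fun v =>
    ends_in (P := M.P) (C := C0 M) (fun j w => tau M v j w = j) T
  have h3 : ∀ c : Fin 3, ∑ s ∈ range T, M.P.Pr (fun w => stg (C0 M) (s + 1) w = s + 1 ∧
      pic M c (stg (C0 M) s w) w < M.p1 / 2 ∧ ∃ j, stg (C0 M) s w < j ∧ j ≤ s + 1 ∧ M.p1 ≤ pic M c j w) ≤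
      2 / M.p1 * (M.p1 + 2 * E) := by
    intro c
    have h4 := up_c M hT c hx (C := C0 M) (a := M.p1 / 2) (b := M.p1) (fun k => by
      intro a b hab
      exact nu_fac M k a b (Prod.mk.inj hab).2) (by linarith [M.hp1]) (by linarith [M.hp1])
    have hp := M.hp1
    have h5 : M.p1 - M.p1 / 2 = M.p1 / 2 := by ring
    rw [h5] at h4
    rw [div_mul_eq_mul_div, le_div_iff₀ hp]
    linarith
  have h4 : ∀ s ∈ range T, M.P.Pr (fun w => stg (C0 M) (s + 1) w = s + 1 ∧ Lst M (stg (C0 M) s w) (s + 1) w) ≤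
      M.P.Pr (fun w => stg (C0 M) (s + 1) w = s + 1 ∧
        Evm M.P M.NP (LF M) (YF M) M.d0 (stg (C0 M) s w) (s + 1) w) +
      ∑ v : Fin 3, M.P.Pr (fun w => stg (C0 M) (s + 1) w = s + 1 ∧
        ∃ j, stg (C0 M) s w < j ∧ j ≤ s + 1 ∧ tau M v j w = j) +
      ∑ c : Fin 3, M.P.Pr (fun w => stg (C0 M) (s + 1) w = s + 1 ∧
        pic M c (stg (C0 M) s w) w < M.p1 / 2 ∧ ∃ j, stg (C0 M) s w < j ∧ j ≤ s + 1 ∧ M.p1 ≤ pic M c j w) := by
    intro s _
    unfold FP.Pr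
    rw [← M.P.E_sum, ← M.P.E_sum, ← M.P.E_add, ← M.P.E_add]
    refine M.P.E_mono fun w _ => ?_
    have n1 : 0 ≤ ∑ v : Fin 3, ind (stg (C0 M) (s + 1) w = s + 1 ∧
        ∃ j, stg (C0 M) s w < j ∧ j ≤ s + 1 ∧ tau M v j w = j) := sum_nonneg fun _ _ => ind_nonneg _
    have n2 : 0 ≤ ∑ c : Fin 3, ind (stg (C0 M) (s + 1) w = s + 1 ∧
        pic M c (stg (C0 M) s w) w < M.p1 / 2 ∧ ∃ j, stg (C0 M) s w < j ∧ j ≤ s + 1 ∧ M.p1 ≤ pic M c j w) :=
      sum_nonneg fun _ _ => ind_nonneg _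
    have n3 := ind_nonneg (stg (C0 M) (s + 1) w = s + 1 ∧
        Evm M.P M.NP (LF M) (YF M) M.d0 (stg (C0 M) s w) (s + 1) w)
    by_cases hw : stg (C0 M) (s + 1) w = s + 1 ∧ Lst M (stg (C0 M) s w) (s + 1) w
    · obtain ⟨hw1, hw2⟩ := hw
      rw [ind_of ⟨hw1, hw2⟩]
      rcases hw2 with hw2 | ⟨v, j, q1, q2, q3⟩ | ⟨c, q1, j, q2, q3, q4⟩
      · rw [ind_of ⟨hw1, hw2⟩]
        linarith
      · have h5 := single_le_sum (f := fun v : Fin 3 => ind (stg (C0 M) (s + 1) w = s + 1 ∧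
          ∃ j, stg (C0 M) s w < j ∧ j ≤ s + 1 ∧ tau M v j w = j)) (fun _ _ => ind_nonneg _) (mem_univ v)
        rw [ind_of ⟨hw1, j, q1, q2, q3⟩] at h5
        linarith
      · have h5 := single_le_sum (f := fun c : Fin 3 => ind (stg (C0 M) (s + 1) w = s + 1 ∧
          pic M c (stg (C0 M) s w) w < M.p1 / 2 ∧ ∃ j, stg (C0 M) s w < j ∧ j ≤ s + 1 ∧ M.p1 ≤ pic M c j w))
          (fun _ _ => ind_nonneg _) (mem_univ c)
        rw [ind_of ⟨hw1, not_hys M q1, j, q2, q3, q4⟩] at h5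
        linarith
    · rw [ind_not hw]
      linarith
  refine (sum_le_sum h4).trans ?_
  rw [sum_add_distrib, sum_add_distrib, sum_comm, sum_comm (f := fun s (c : Fin 3) => M.P.Pr (fun w =>
    stg (C0 M) (s + 1) w = s + 1 ∧ pic M c (stg (C0 M) s w) w < M.p1 / 2 ∧
      ∃ j, stg (C0 M) s w < j ∧ j ≤ s + 1 ∧ M.p1 ≤ pic M c j w))]
  have h5 := sum_le_sum fun (v : Fin 3) (_ : v ∈ univ) => h2 v
  have h6 := sum_le_sum fun (c : Fin 3) (_ : c ∈ univ) => h3 c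
  rw [sum_const (2 / M.p1 * (M.p1 + 2 * E)), card_univ, Fintype.card_fin, nsmul_eq_mul] at h6
  have h7 : ((3 : ℕ) : ℝ) * (2 / M.p1 * (M.p1 + 2 * E)) = 6 / M.p1 * (M.p1 + 2 * E) := by
    push_cast
    ring
  rw [h7] at h6
  linarith

theorem N0_le {Lam : ℝ} (hT : Thk M Lam) {T : ℕ} {Tx To : ℝ} (hx : TotX M T Tx) (ho : Tot0 M T To)
    (hz : 48 * Real.exp (4 * Lam) * M.kb ≤ M.p1 * M.z) :
    N0 M T ≤ 1 + 2 * (NL M T + (128 * (4 / M.d0 ^ 2 * To) + ∑ v, Nx M v T +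
      6 / M.p1 * (M.p1 + 2 * (Real.exp (4 * Lam) * (64 * (4 / M.d1 ^ 2 * Tx))))) / M.k0) := by
  have h0 := Lst_ends M hT hx ho
  set W := 128 * (4 / M.d0 ^ 2 * To) + ∑ v, Nx M v T +
      6 / M.p1 * (M.p1 + 2 * (Real.exp (4 * Lam) * (64 * (4 / M.d1 ^ 2 * Tx)))) with hW
  -- the ends
  have h2 : ∀ s ∈ range T, M.P.Pr (fun w => nu M (s + 1) w = s + 1) ≤
      M.P.Pr (lt5 M M.NP s) + M.P.Pr (fun w => stg (C0 M) (s + 1) w = s + 1 ∧
        M.k0 ≤ M.P.ce (M.NP (s + 1)) (fun u => ind (Lst M (stg (C0 M) s w) (s + 1) u)) w) +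
      ∑ v : Fin 3, M.P.Pr (fun w => stg (C0 M) (s + 1) w = s + 1 ∧
        M.z ≤ M.P.ce (M.NP (s + 1)) (fun u => ind (hys M v (stg (C0 M) s w) u)) w) := by
    intro s _
    unfold FP.Pr
    rw [← M.P.E_sum, ← M.P.E_add, ← M.P.E_add]
    refine M.P.E_mono fun w _ => ?_
    have n1 : 0 ≤ ∑ v : Fin 3, ind (stg (C0 M) (s + 1) w = s + 1 ∧
        M.z ≤ M.P.ce (M.NP (s + 1)) (fun u => ind (hys M v (stg (C0 M) s w) u)) w) := sum_nonneg fun _ _ => ind_nonneg _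
    have n2 := ind_nonneg (lt5 M M.NP s w)
    have n3 := ind_nonneg (stg (C0 M) (s + 1) w = s + 1 ∧
        M.k0 ≤ M.P.ce (M.NP (s + 1)) (fun u => ind (Lst M (stg (C0 M) s w) (s + 1) u)) w)
    by_cases hw : nu M (s + 1) w = s + 1
    · rw [ind_of hw]
      have h3 : C0 M (stg (C0 M) s w) (s + 1) w := stg_end hw
      have hw' : stg (C0 M) (s + 1) w = s + 1 := hw
      rcases h3 with h3 | h3 | ⟨v, h3⟩
      · have h3' : lt5 M M.NP s w := h3
        rw [ind_of h3']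
        linarith
      · rw [ind_of (p := stg (C0 M) (s + 1) w = s + 1 ∧
          M.k0 ≤ M.P.ce (M.NP (s + 1)) (fun u => ind (Lst M (stg (C0 M) s w) (s + 1) u)) w) ⟨hw', h3⟩]
        linarith
      · have h5 := single_le_sum (f := fun v : Fin 3 => ind (stg (C0 M) (s + 1) w = s + 1 ∧
          M.z ≤ M.P.ce (M.NP (s + 1)) (fun u => ind (hys M v (stg (C0 M) s w) u)) w))
          (fun _ _ => ind_nonneg _) (mem_univ v)
        rw [ind_of (p := stg (C0 M) (s + 1) w = s + 1 ∧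
          M.z ≤ M.P.ce (M.NP (s + 1)) (fun u => ind (hys M v (stg (C0 M) s w) u)) w) ⟨hw', h3⟩] at h5
        linarith
    · rw [ind_not hw]
      linarith
  have h3 : M.k0 * ∑ s ∈ range T, M.P.Pr (fun w => stg (C0 M) (s + 1) w = s + 1 ∧
        M.k0 ≤ M.P.ce (M.NP (s + 1)) (fun u => ind (Lst M (stg (C0 M) s w) (s + 1) u)) w) ≤ W := by
    rw [mul_sum]
    exact (sum_le_sum fun s _ => ends_mass (P := M.P) (N := M.NP) (C := C0 M) (Ls := fun ν k u => Lst M ν k u)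
      (kp := M.k0) M.hN (nu_fac M) s).trans h0
  have h3' : ∑ s ∈ range T, M.P.Pr (fun w => stg (C0 M) (s + 1) w = s + 1 ∧
        M.k0 ≤ M.P.ce (M.NP (s + 1)) (fun u => ind (Lst M (stg (C0 M) s w) (s + 1) u)) w) ≤ W / M.k0 := by
    rw [le_div_iff₀ M.hk0, mul_comm]
    exact h3
  -- the ends by the status
  have h4 : ∀ v : Fin 3, ∑ s ∈ range T, M.P.Pr (fun w => stg (C0 M) (s + 1) w = s + 1 ∧
        M.z ≤ M.P.ce (M.NP (s + 1)) (fun u => ind (hys M v (stg (C0 M) s w) u)) w) ≤ 1 / 6 * (1 + N0 M T) := by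
    intro v
    have q1 := ends_p2 (P := M.P) (N := M.NP) (C := C0 M) M.hN (nu_fac M) (fun ν u => hys M v ν u) (z := M.z) T
    have q2 : ∀ ν ∈ range T, M.P.Pr (fun w => stg (C0 M) ν w = ν ∧ hys M v ν w) ≤
        8 * Real.exp (4 * Lam) * M.kb / M.p1 * M.P.Pr (fun w => nu M ν w = ν) := by
      intro ν _
      have hf : Fac (M.NP ν) (fun w => ind (nu M ν w = ν)) := Fac.ind fun a b hab => by rw [nu_fac M ν a b hab]
      have e1 := M.P.E_mul_ce hf (fun u => ind (hys M v ν u))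
      have e2 : M.P.Pr (fun w => stg (C0 M) ν w = ν ∧ hys M v ν w) =
          M.P.E (fun w => ind (nu M ν w = ν) * ind (hys M v ν w)) := by
        unfold FP.Pr
        refine M.P.E_congr fun w _ => ?_
        rw [ind_and]
        rfl
      rw [e2, ← e1]
      unfold FP.Pr
      rw [← M.P.E_smul]
      refine M.P.E_mono fun w hw => ?_
      rw [mul_comm]
      exact mul_le_mul_of_nonneg_right (hys_mass M hT v ν hw) (ind_nonneg _)
    have q3 := sum_le_sum q2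
    rw [← mul_sum] at q3
    have q4 := starts_le M T
    have hp := M.hp1
    have hzz := M.hz
    have hc : 0 ≤ 8 * Real.exp (4 * Lam) * M.kb / M.p1 := by
      have := Real.exp_pos (4 * Lam)
      have := M.hkb
      positivity
    have q5 := mul_le_mul_of_nonneg_left q4 hc
    have q6 : 8 * Real.exp (4 * Lam) * M.kb / M.p1 ≤ 1 / 6 * M.z := by
      rw [div_le_iff₀ hp]
      linarith
    have hN0 : 0 ≤ 1 + N0 M T := by
      have : 0 ≤ N0 M T := sum_nonneg fun _ _ => M.P.Pr_nonneg _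
      linarith
    have q7 := mul_le_mul_of_nonneg_right q6 hN0
    have q8 := q1.trans (q3.trans (q5.trans q7))
    have q9 : M.z * ∑ s ∈ range T, M.P.Pr (fun w => stg (C0 M) (s + 1) w = s + 1 ∧
        M.z ≤ M.P.ce (M.NP (s + 1)) (fun u => ind (hys M v (stg (C0 M) s w) u)) w) ≤
        M.z * (1 / 6 * (1 + N0 M T)) := by
      refine q8.trans (le_of_eq ?_)
      ring
    exact le_of_mul_le_mul_left q9 hzz
  have h5 := sum_le_sum h2
  rw [sum_add_distrib, sum_add_distrib, sum_comm (f := fun s (v : Fin 3) => M.P.Pr (fun w =>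
    stg (C0 M) (s + 1) w = s + 1 ∧
        M.z ≤ M.P.ce (M.NP (s + 1)) (fun u => ind (hys M v (stg (C0 M) s w) u)) w))] at h5
  have h6 := sum_le_sum fun (c : Fin 3) (_ : c ∈ univ) => h4 c
  rw [sum_const (1 / 6 * (1 + N0 M T)), card_univ, Fintype.card_fin, nsmul_eq_mul] at h6
  have h7 : ((3 : ℕ) : ℝ) * (1 / 6 * (1 + N0 M T)) = 1 / 2 * (1 + N0 M T) := by
    push_cast
    ring
  rw [h7] at h6
  have h8 : ∑ s ∈ range T, M.P.Pr (fun w => nu M (s + 1) w = s + 1) = N0 M T := rfl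
  have h9 : ∑ s ∈ range T, M.P.Pr (lt5 M M.NP s) = NL M T := rfl
  rw [h8, h9] at h5
  linarith

end Pool.Agent.GMH.MV
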