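import Pool.Agent.GMH.MV2U

/-!
# GMH.MV7: number of the changes of the status of a vertex (helper41, order of helper27)

`Cyc c` : the status of `c` is switched off; the epochs of this clock contain an upcrossing of `pic c` from `p1 / 4` to
`p1 / 2`, with the exception of the first one (`off_sum`); `on_sum` : switched on at most once more than switched off.
`off_le`, `on_le`, `status_le` : expected numbers before `T`, `R = exp (4 Lam) * (64 * (4 / d1 ^ 2 * Tot))`.
-/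

set_option autoImplicit false
set_option linter.unusedSectionVars false

namespace Pool.Agent.GMH.MV

open Finset Pool.Agent.PWZ Pool.Agent.M3 Pool.Agent.GMH.TD Pool.Agent.GMH.CK

variable {Om : Type} [Fintype Om] (M : MS Om)

/-- the status is switched off at `k` -/
def Cyc (c : Fin 3) (_ν k : ℕ) (w : Om) : Prop := hys M c (k - 1) w ∧ ¬ hys M c k w

theorem cyc_fac (c : Fin 3) (k : ℕ) : Fac (CN M c k) (stg (Cyc M c) k) :=
  stg_fac (CN_step M c) (fun _ k _ a b hab => by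
    show (hys M c (k + 1 - 1) a ∧ ¬ hys M c (k + 1) a) ↔ (hys M c (k + 1 - 1) b ∧ ¬ hys M c (k + 1) b)
    rw [Nat.add_sub_cancel, hys_fac M c k a b (CN_step M c k a b hab), hys_fac M c (k + 1) a b hab]) k

/-- just after the switching off the mass is small -/
theorem off_pic {c : Fin 3} {k : ℕ} {w : Om} (h1 : hys M c k w) (h2 : ¬ hys M c (k + 1) w) :
    pic M c (k + 1) w < M.p1 / 4 := by
  by_contra h
  exact h2 (Or.inr ⟨h1, not_lt.1 h⟩)

/-- at the switching on the mass is large -/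
theorem on_pic {c : Fin 3} {k : ℕ} {w : Om} (h1 : ¬ hys M c k w) (h2 : hys M c (k + 1) w) :
    M.p1 / 2 ≤ pic M c (k + 1) w := by
  rcases h2 with h2 | h2
  · exact h2
  · exact absurd h2.1 h1

/-- between a time without and a time with status it is switched on -/
theorem exists_on {c : Fin 3} {i k : ℕ} {w : Om} (hik : i ≤ k) (h1 : ¬ hys M c i w) (h2 : hys M c k w) :
    ∃ j, i < j ∧ j ≤ k ∧ M.p1 / 2 ≤ pic M c j w := by
  induction k, hik using Nat.le_induction with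
  | base => exact absurd h2 h1
  | succ k hk ih =>
    by_cases h3 : hys M c k w
    · obtain ⟨j, a, b, d⟩ := ih h3
      exact ⟨j, a, by omega, d⟩
    · exact ⟨k + 1, by omega, le_rfl, on_pic M h3 h2⟩

theorem off_one {c : Fin 3} {k : ℕ} {w : Om} (h : hys M c k w ∧ ¬ hys M c (k + 1) w) :
    (stg (Cyc M c) (k + 1) w = k + 1 ∧ stg (Cyc M c) k w = 0) ∨
      (stg (Cyc M c) (k + 1) w = k + 1 ∧ pic M c (stg (Cyc M c) k w) w < M.p1 / 4 ∧
        ∃ j, stg (Cyc M c) k w < j ∧ j ≤ k + 1 ∧ M.p1 / 2 ≤ pic M c j w) := by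
  have h1 : stg (Cyc M c) (k + 1) w = k + 1 := stg_pos (by
    show hys M c (k + 1 - 1) w ∧ ¬ hys M c (k + 1) w
    rw [Nat.add_sub_cancel]
    exact h)
  rcases Nat.eq_zero_or_pos (stg (Cyc M c) k w) with h0 | h0
  · exact Or.inl ⟨h1, h0⟩
  · refine Or.inr ⟨h1, ?_⟩
    have h2 := stg_idem (C := Cyc M c) k w
    have h3 := stg_le (C := Cyc M c) k w
    obtain ⟨i, hi⟩ : ∃ i, stg (Cyc M c) k w = i + 1 := ⟨stg (Cyc M c) k w - 1, by omega⟩
    rw [hi] at h2 h3 ⊢
    have h4 := stg_end h2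
    have h5 : hys M c i w ∧ ¬ hys M c (i + 1) w := h4
    refine ⟨off_pic M h5.1 h5.2, ?_⟩
    obtain ⟨j, a, b, d⟩ := exists_on M h3 h5.2 h.1
    exact ⟨j, a, by omega, d⟩

theorem first_one (c : Fin 3) (T : ℕ) (w : Om) :
    ∑ k ∈ range T, ind (stg (Cyc M c) (k + 1) w = k + 1 ∧ stg (Cyc M c) k w = 0) ≤ 1 := by
  by_cases h : ∃ k ∈ range T, stg (Cyc M c) (k + 1) w = k + 1 ∧ stg (Cyc M c) k w = 0
  · obtain ⟨k0, hk0, h3, h4⟩ := h
    rw [sum_eq_single k0]
    · exact ind_le_one _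
    · intro k _ hne
      refine ind_not ?_
      rintro ⟨h6, h7⟩
      rcases Nat.lt_or_gt_of_ne hne with h9 | h9
      · have := stg_mono (C := Cyc M c) (show k + 1 ≤ k0 by omega) w
        omega
      · have := stg_mono (C := Cyc M c) (show k0 + 1 ≤ k by omega) w
        omega
    · intro h6
      exact absurd hk0 h6
  · refine le_trans (le_of_eq (sum_eq_zero fun k hk => ?_)) zero_le_one
    exact ind_not fun hh => h ⟨k, hk, hh⟩

/-- the status is switched off at most once more than there are upcrossings -/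
theorem off_sum (c : Fin 3) (T : ℕ) (w : Om) :
    ∑ k ∈ range T, ind (hys M c k w ∧ ¬ hys M c (k + 1) w) ≤
      1 + ∑ k ∈ range T, ind (stg (Cyc M c) (k + 1) w = k + 1 ∧ pic M c (stg (Cyc M c) k w) w < M.p1 / 4 ∧
        ∃ j, stg (Cyc M c) k w < j ∧ j ≤ k + 1 ∧ M.p1 / 2 ≤ pic M c j w) := by
  refine le_trans (sum_le_sum fun k _ => ?_) (le_of_eq_of_le (sum_add_distrib) (add_le_add_left (first_one M c T w) _))
  by_cases h : hys M c k w ∧ ¬ hys M c (k + 1) w
  · rw [ind_of h]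
    rcases off_one M h with h1 | h1
    · rw [ind_of h1]
      exact le_add_of_nonneg_right (ind_nonneg _)
    · rw [ind_of h1]
      exact le_add_of_nonneg_left (ind_nonneg _)
  · rw [ind_not h]
    exact add_nonneg (ind_nonneg _) (ind_nonneg _)

/-- switched on at most once more than switched off -/
theorem on_sum (c : Fin 3) (T : ℕ) (w : Om) :
    ∑ k ∈ range T, ind (hys M c (k + 1) w ∧ ¬ hys M c k w) ≤
      1 + ∑ k ∈ range T, ind (hys M c k w ∧ ¬ hys M c (k + 1) w) := by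
  have key : ∀ T : ℕ, ∑ k ∈ range T, ind (hys M c (k + 1) w ∧ ¬ hys M c k w) -
      ∑ k ∈ range T, ind (hys M c k w ∧ ¬ hys M c (k + 1) w) = ind (hys M c T w) - ind (hys M c 0 w) := by
    intro T
    induction T with
    | zero => simp
    | succ T ih =>
      rw [sum_range_succ, sum_range_succ]
      have h1 : ind (hys M c (T + 1) w ∧ ¬ hys M c T w) - ind (hys M c T w ∧ ¬ hys M c (T + 1) w) =
          ind (hys M c (T + 1) w) - ind (hys M c T w) := by
        by_cases a : hys M c (T + 1) w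
        · by_cases b : hys M c T w
          · rw [ind_not (fun h => h.2 b), ind_not (fun h => h.2 a), ind_of a, ind_of b]; ring
          · rw [ind_of ⟨a, b⟩, ind_not (fun h => h.2 a), ind_of a, ind_not b]
        · by_cases b : hys M c T w
          · rw [ind_not (fun h => h.2 b), ind_of ⟨b, a⟩, ind_not a, ind_of b]
          · rw [ind_not (fun h => a h.1), ind_not (fun h => b h.1), ind_not a, ind_not b]
      linarith
  have h1 := key T
  have h2 := ind_le_one (hys M c T w)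
  have h3 := ind_nonneg (hys M c 0 w)
  linarith

section

variable {Lam : ℝ} (hT : Thk M Lam) (c : Fin 3) {T : ℕ} {Tot : ℝ} (h : TotX M T Tot)

include hT h

theorem off_le : ∑ k ∈ range T, M.P.Pr (fun w => hys M c k w ∧ ¬ hys M c (k + 1) w) ≤
    2 + 8 / M.p1 * (Real.exp (4 * Lam) * (64 * (4 / M.d1 ^ 2 * Tot))) := by
  have hp := M.hp1
  have h1 := up_c M hT c h (cyc_fac M c) (a := M.p1 / 4) (b := M.p1 / 2) (by positivity) (by linarith)
  have h2 : ∑ k ∈ range T, M.P.Pr (fun w => hys M c k w ∧ ¬ hys M c (k + 1) w) ≤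
      1 + ∑ k ∈ range T, M.P.Pr (fun w => stg (Cyc M c) (k + 1) w = k + 1 ∧ pic M c (stg (Cyc M c) k w) w < M.p1 / 4 ∧
        ∃ j, stg (Cyc M c) k w < j ∧ j ≤ k + 1 ∧ M.p1 / 2 ≤ pic M c j w) := by
    have h3 : M.P.E (fun w => ∑ k ∈ range T, ind (hys M c k w ∧ ¬ hys M c (k + 1) w)) ≤ M.P.E (fun w =>
        1 + ∑ k ∈ range T, ind (stg (Cyc M c) (k + 1) w = k + 1 ∧ pic M c (stg (Cyc M c) k w) w < M.p1 / 4 ∧
        ∃ j, stg (Cyc M c) k w < j ∧ j ≤ k + 1 ∧ M.p1 / 2 ≤ pic M c j w)) :=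
      M.P.E_mono fun w _ => off_sum M c T w
    rw [FP.E_sum, FP.E_add, FP.E_const, FP.E_sum] at h3
    exact h3
  refine h2.trans ?_
  have h4 : M.p1 / 2 - M.p1 / 4 = M.p1 / 4 := by ring
  rw [h4] at h1
  set S := ∑ k ∈ range T, M.P.Pr (fun w => stg (Cyc M c) (k + 1) w = k + 1 ∧ pic M c (stg (Cyc M c) k w) w < M.p1 / 4 ∧
        ∃ j, stg (Cyc M c) k w < j ∧ j ≤ k + 1 ∧ M.p1 / 2 ≤ pic M c j w)
  set R := Real.exp (4 * Lam) * (64 * (4 / M.d1 ^ 2 * Tot))
  have h5 : S = 4 / M.p1 * (M.p1 / 4 * S) := by field_simp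
  have h6 : 4 / M.p1 * (M.p1 / 4 * S) ≤ 4 / M.p1 * (M.p1 / 4 + 2 * R) := mul_le_mul_of_nonneg_left h1 (by positivity)
  have h7 : 4 / M.p1 * (M.p1 / 4 + 2 * R) = 1 + 8 / M.p1 * R := by field_simp; ring
  linarith

theorem on_le : ∑ k ∈ range T, M.P.Pr (fun w => hys M c (k + 1) w ∧ ¬ hys M c k w) ≤
    3 + 8 / M.p1 * (Real.exp (4 * Lam) * (64 * (4 / M.d1 ^ 2 * Tot))) := by
  have h1 := off_le M hT c h
  have h3 : M.P.E (fun w => ∑ k ∈ range T, ind (hys M c (k + 1) w ∧ ¬ hys M c k w)) ≤ M.P.E (fun w =>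
      1 + ∑ k ∈ range T, ind (hys M c k w ∧ ¬ hys M c (k + 1) w)) := M.P.E_mono fun w _ => on_sum M c T w
  rw [FP.E_sum, FP.E_add, FP.E_const, FP.E_sum] at h3
  have h4 : ∑ k ∈ range T, M.P.Pr (fun w => hys M c (k + 1) w ∧ ¬ hys M c k w) ≤
      1 + ∑ k ∈ range T, M.P.Pr (fun w => hys M c k w ∧ ¬ hys M c (k + 1) w) := h3
  linarith

/-- **number of the changes of the status** -/
theorem status_le : ∑ k ∈ range T, M.P.Pr (fun w => (hys M c (k + 1) w ∧ ¬ hys M c k w) ∨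
      (hys M c k w ∧ ¬ hys M c (k + 1) w)) ≤
    5 + 16 / M.p1 * (Real.exp (4 * Lam) * (64 * (4 / M.d1 ^ 2 * Tot))) := by
  have h1 := off_le M hT c h
  have h2 := on_le M hT c h
  have h3 := sum_le_sum fun k (_ : k ∈ range T) => M.P.Pr_or_le (fun w => hys M c (k + 1) w ∧ ¬ hys M c k w)
    (fun w => hys M c k w ∧ ¬ hys M c (k + 1) w)
  rw [sum_add_distrib] at h3
  have h4 : 16 / M.p1 * (Real.exp (4 * Lam) * (64 * (4 / M.d1 ^ 2 * Tot))) =
      8 / M.p1 * (Real.exp (4 * Lam) * (64 * (4 / M.d1 ^ 2 * Tot))) +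
      8 / M.p1 * (Real.exp (4 * Lam) * (64 * (4 / M.d1 ^ 2 * Tot))) := by ring
  rw [h4]
  linarith

end

end Pool.Agent.GMH.MV
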