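import Pool.Agent.GMH.Fin3N

/-!
# GMH/MVN: numbers of the moved part (helper55, statements of helper27)

`x = 2 Lam`, `n = pw Lam c0`, `N1 = pw Lam (c1F A c0)`, `pe = n / x^ka`, `pQ = n^8`;
`d1 = exp (-(2 pe))`, `kb = exp (-pe)`, `d0 = k0 = exp (-pQ)`, `p1 = N1^-6`, `z = exp (-(pe/2))`.
-/

set_option autoImplicit false
set_option linter.unusedSectionVars false

namespace Pool.Agent.GMH.MVN

open Pool.Agent.GMH Pool.Agent.GMH.V3

noncomputable section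

def pe (Lam : ℝ) (ka c0 : ℕ) : ℝ := pw Lam c0 / pw Lam ka
def pQ (Lam : ℝ) (c0 : ℕ) : ℝ := pw Lam (8 * c0)
def d1 (Lam : ℝ) (ka c0 : ℕ) : ℝ := Real.exp (-(2 * pe Lam ka c0))
def kb (Lam : ℝ) (ka c0 : ℕ) : ℝ := Real.exp (-pe Lam ka c0)
def d0 (Lam : ℝ) (c0 : ℕ) : ℝ := Real.exp (-pQ Lam c0)
def p1 (Lam : ℝ) (A c0 : ℕ) : ℝ := (pw Lam (6 * c1F A c0))⁻¹
def z (Lam : ℝ) (ka c0 : ℕ) : ℝ := Real.exp (-(pe Lam ka c0 / 2))

end

/-! ## tools -/

section tools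

variable {Lam : ℝ} (hL : 2 ≤ Lam)

include hL

theorem pw_pos (k : ℕ) : 0 < pw Lam k := by
  unfold pw
  exact pow_pos (by linarith) k

theorem x_le_exp : 2 * Lam ≤ Real.exp Lam := by
  have h1 := Real.add_one_le_exp (Lam / 2)
  have h2 : Real.exp Lam = Real.exp (Lam / 2) * Real.exp (Lam / 2) := by
    rw [← Real.exp_add]
    congr 1
    ring
  rw [h2]
  have h3 : (0 : ℝ) ≤ Lam / 2 + 1 := by linarith
  nlinarith [mul_self_nonneg (Lam / 2 - 1), mul_le_mul h1 h1 h3 (Real.exp_pos (Lam / 2)).le]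

theorem Lam_le_exp : Lam ≤ Real.exp Lam := by
  have := Real.add_one_le_exp Lam
  linarith

theorem pw_exp (k : ℕ) : pw Lam k ≤ Real.exp ((k : ℝ) * Lam) := by
  unfold pw
  rw [Real.exp_nat_mul]
  exact pow_le_pow_left₀ (by linarith) (x_le_exp hL) k

theorem pw_mono {a b : ℕ} (hab : a ≤ b) : pw Lam a ≤ pw Lam b := by
  unfold pw
  exact pow_le_pow_right₀ (by linarith) hab

theorem pw_four (k : ℕ) : (4 : ℝ) ^ k ≤ pw Lam k := by
  unfold pw
  exact pow_le_pow_left₀ (by norm_num) (by linarith) k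

theorem pw_add (a b : ℕ) : pw Lam (a + b) = pw Lam a * pw Lam b := by
  unfold pw
  exact pow_add _ _ _

end tools

theorem cexp (n : ℕ) {c : ℝ} (hc : c ≤ 2 ^ n) : c ≤ Real.exp n := by
  have h1 : (2 : ℝ) ≤ Real.exp 1 := by
    have := Real.add_one_le_exp (1 : ℝ)
    linarith
  have h2 : (2 : ℝ) ^ n ≤ Real.exp 1 ^ n := pow_le_pow_left₀ (by norm_num) h1 n
  rw [← Real.exp_nat_mul, mul_one] at h2
  exact hc.trans h2

/-- (0) `pe` is larger than every logarithm: the only place where `c0` is chosen -/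
theorem pe_big (A ka k : ℕ) : ∃ c0m : ℕ, ∀ c0 ≥ c0m, ∀ Lam : ℝ, 2 ≤ Lam →
    pw Lam k * ((c1F A c0 : ℝ) * Lam + (c0 : ℝ) * Lam + 1) ≤ pe Lam ka c0 := by
  refine ⟨(ka + k + 1) + (A * A + 1) + (ka + k + 1 + 1), fun c0 hc Lam hL => ?_⟩
  obtain ⟨t, rfl⟩ : ∃ t, c0 = (ka + k + 1) + t := ⟨c0 - (ka + k + 1), by omega⟩
  have ht1 : A * A + 1 ≤ t := by omega
  have ht2 : ka + k + 1 + 1 ≤ t := by omega
  unfold pe
  rw [le_div_iff₀ (pw_pos hL ka)]
  have e1 : pw Lam ((ka + k + 1) + t) = pw Lam ka * pw Lam k * (2 * Lam) * pw Lam t := by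
    unfold pw
    rw [pow_add, pow_add, pow_add, pow_one]
  rw [e1]
  have hn : (A * A + 1) * ((ka + k + 1) + t + 1) ≤ 4 ^ t := by
    have h1 : A * A + 1 ≤ 2 ^ t := ht1.trans Nat.lt_two_pow_self.le
    have h2 : (ka + k + 1) + t + 1 ≤ 2 ^ t := by
      have h3 : t + t ≤ 2 ^ t := by
        obtain ⟨s, rfl⟩ : ∃ s, t = s + 1 := ⟨t - 1, by omega⟩
        have h4 : s < 2 ^ s := Nat.lt_two_pow_self
        rw [pow_succ]
        omega
      omega
    calc _ ≤ 2 ^ t * 2 ^ t := Nat.mul_le_mul h1 h2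
      _ = (2 * 2) ^ t := (mul_pow 2 2 t).symm
      _ = 4 ^ t := by norm_num
  have hn' : ((A : ℝ) * A + 1) * (((ka + k + 1 + t : ℕ) : ℝ) + 1) ≤ pw Lam t := by
    refine le_trans ?_ (pw_four hL t)
    exact_mod_cast hn
  have hk := pw_pos hL k
  have hka := pw_pos hL ka
  have hmain : (c1F A (ka + k + 1 + t) : ℝ) * Lam + ((ka + k + 1 + t : ℕ) : ℝ) * Lam + 1 ≤ (2 * Lam) * pw Lam t := by
    have h1 : (c1F A (ka + k + 1 + t) : ℝ) = (A : ℝ) * A * (((ka + k + 1 + t : ℕ) : ℝ) + 1) := by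
      unfold c1F
      push_cast
      ring
    rw [h1]
    set m : ℝ := ((ka + k + 1 + t : ℕ) : ℝ) with hm
    have hm0 : 0 ≤ m := by
      rw [hm]
      exact Nat.cast_nonneg _
    have hL0 : (0 : ℝ) < Lam := by linarith
    have h2 := mul_le_mul_of_nonneg_left hn' (show (0 : ℝ) ≤ 2 * Lam by linarith)
    have h3 : (0 : ℝ) ≤ (A : ℝ) * A * (m + 1) * Lam := by positivity
    nlinarith
  calc _ = pw Lam ka * pw Lam k * ((c1F A (ka + k + 1 + t) : ℝ) * Lam + ((ka + k + 1 + t : ℕ) : ℝ) * Lam + 1) := by ring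
    _ ≤ pw Lam ka * pw Lam k * ((2 * Lam) * pw Lam t) := mul_le_mul_of_nonneg_left hmain (by positivity)
    _ = _ := by ring

/-- the form which is used: `K` times every logarithm -/
theorem big (A ka K : ℕ) : ∃ c0m : ℕ, ∀ c0 ≥ c0m, 6 ≤ c0 ∧ ∀ Lam : ℝ, 2 ≤ Lam →
    (K : ℝ) * ((c1F A c0 : ℝ) * Lam + (c0 : ℝ) * Lam + 1) ≤ pe Lam ka c0 := by
  obtain ⟨c0m, h⟩ := pe_big A ka K
  refine ⟨c0m + 6, fun c0 hc => ⟨by omega, fun Lam hL => ?_⟩⟩
  refine le_trans (mul_le_mul_of_nonneg_right ?_ ?_) (h c0 (by omega) Lam hL)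
  · refine le_trans ?_ (pw_four hL K)
    have h1 : K < 4 ^ K := Nat.lt_pow_self (by norm_num)
    exact_mod_cast h1.le
  · have hL0 : (0 : ℝ) < Lam := by linarith
    positivity

theorem pe_le_n {Lam : ℝ} (hL : 2 ≤ Lam) (ka c0 : ℕ) : pe Lam ka c0 ≤ pw Lam c0 := by
  unfold pe
  refine div_le_self (pw_pos hL c0).le ?_
  exact pw_one hL ka

/-- `pQ` is much larger than `pe` -/
theorem pQ_big {Lam : ℝ} (hL : 2 ≤ Lam) (ka : ℕ) {c0 : ℕ} (hc : 1 ≤ c0) : 100 * pe Lam ka c0 ≤ pQ Lam c0 := by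
  unfold pQ
  have e1 : pw Lam (8 * c0) = pw Lam (7 * c0) * pw Lam c0 := by
    rw [← pw_add hL]
    congr 1
    ring
  have h1 : (100 : ℝ) ≤ pw Lam (7 * c0) := by
    refine le_trans ?_ ((pw_four hL 7).trans (pw_mono hL (by omega)))
    norm_num
  rw [e1]
  have h2 := pe_le_n hL ka c0
  have h3 := pw_pos hL c0
  calc _ ≤ 100 * pw Lam c0 := by linarith
    _ ≤ _ := mul_le_mul_of_nonneg_right h1 h3.le

/-- (1) the start masses -/
theorem hz_num (A ka : ℕ) : ∃ c0m : ℕ, ∀ c0 ≥ c0m, ∀ Lam : ℝ, 2 ≤ Lam →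
    48 * Real.exp (4 * Lam) * kb Lam ka c0 ≤ p1 Lam A c0 * z Lam ka c0 := by
  obtain ⟨c0m, h⟩ := big A ka 32
  refine ⟨c0m, fun c0 hc Lam hL => ?_⟩
  obtain ⟨hc0, h1⟩ := h c0 hc
  have h2 := h1 Lam hL
  have hL0 : (0 : ℝ) < Lam := by linarith
  have hv : Lam ≤ (c0 : ℝ) * Lam := by
    have : (6 : ℝ) ≤ c0 := by exact_mod_cast hc0
    nlinarith
  have hu : 0 ≤ (c1F A c0 : ℝ) * Lam := by positivity
  unfold kb p1 z
  have hp : Real.exp (-(6 * ((c1F A c0 : ℝ) * Lam))) ≤ (pw Lam (6 * c1F A c0))⁻¹ := by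
    rw [Real.exp_neg]
    refine inv_anti₀ (pw_pos hL _) ((pw_exp hL _).trans (le_of_eq ?_))
    push_cast
    congr 1
    ring
  have h48 : (48 : ℝ) ≤ Real.exp (6 : ℕ) := cexp 6 (by norm_num)
  have e1 : Real.exp (6 : ℕ) * Real.exp (4 * Lam) * Real.exp (-pe Lam ka c0) =
      Real.exp (6 + 4 * Lam - pe Lam ka c0) := by
    rw [← Real.exp_add, ← Real.exp_add]
    congr 1
  have e2 : Real.exp (-(6 * ((c1F A c0 : ℝ) * Lam))) * Real.exp (-(pe Lam ka c0 / 2)) =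
      Real.exp (-(6 * ((c1F A c0 : ℝ) * Lam)) - pe Lam ka c0 / 2) := by
    rw [← Real.exp_add, sub_eq_add_neg]
  calc _ ≤ Real.exp (6 : ℕ) * Real.exp (4 * Lam) * Real.exp (-pe Lam ka c0) :=
        mul_le_mul_of_nonneg_right (mul_le_mul_of_nonneg_right h48 (Real.exp_pos _).le) (Real.exp_pos _).le
    _ = Real.exp (6 + 4 * Lam - pe Lam ka c0) := e1
    _ ≤ Real.exp (-(6 * ((c1F A c0 : ℝ) * Lam)) - pe Lam ka c0 / 2) := by
      refine Real.exp_le_exp.2 ?_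
      push_cast at h2
      linarith
    _ = _ := e2.symm
    _ ≤ _ := mul_le_mul_of_nonneg_right hp (Real.exp_pos _).le

/-- exponential bounds for the totals -/
theorem NL_exp {Lam : ℝ} (hL : 2 ≤ Lam) (A c0 : ℕ) {NL : ℝ} (h : NL ≤ 100 * (pw Lam c0 * pw Lam (c1F A c0) * Lam)) :
    NL ≤ Real.exp (7 + (c0 : ℝ) * Lam + (c1F A c0 : ℝ) * Lam + Lam) := by
  refine h.trans ?_
  have e : Real.exp (7 + (c0 : ℝ) * Lam + (c1F A c0 : ℝ) * Lam + Lam) =
      Real.exp (7 : ℕ) * (Real.exp ((c0 : ℝ) * Lam) * Real.exp ((c1F A c0 : ℝ) * Lam) * Real.exp Lam) := by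
    rw [← Real.exp_add, ← Real.exp_add, ← Real.exp_add]
    congr 1
    push_cast
    ring
  rw [e]
  have hL0 : (0 : ℝ) < Lam := by linarith
  have a1 := pw_pos hL c0
  have a2 := pw_pos hL (c1F A c0)
  refine mul_le_mul (cexp 7 (by norm_num)) ?_ (by positivity) (Real.exp_pos _).le
  refine mul_le_mul ?_ (Lam_le_exp hL) hL0.le (by positivity)
  exact mul_le_mul (pw_exp hL c0) (pw_exp hL _) a2.le (by positivity)

theorem Tot_exp {Lam : ℝ} (hL : 2 ≤ Lam) (c0 : ℕ) {Tot : ℝ} (h : Tot ≤ 100 * (pw Lam c0 * Lam)) :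
    Tot ≤ Real.exp (7 + (c0 : ℝ) * Lam + Lam) := by
  refine h.trans ?_
  have e : Real.exp (7 + (c0 : ℝ) * Lam + Lam) = Real.exp (7 : ℕ) * (Real.exp ((c0 : ℝ) * Lam) * Real.exp Lam) := by
    rw [← Real.exp_add, ← Real.exp_add]
    congr 1
    push_cast
    ring
  rw [e]
  have hL0 : (0 : ℝ) < Lam := by linarith
  have a1 := pw_pos hL c0
  refine mul_le_mul (cexp 7 (by norm_num)) ?_ (by positivity) (Real.exp_pos _).le
  exact mul_le_mul (pw_exp hL c0) (Lam_le_exp hL) hL0.le (by positivity)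

/-- a constant times a product of three exponentials -/
theorem tm3 {c a b d y : ℝ} (n : ℕ) (hc : c ≤ 2 ^ n) (hy : n + a + b + d ≤ y) :
    c * (Real.exp a * Real.exp b * Real.exp d) ≤ Real.exp y := by
  calc _ ≤ Real.exp n * (Real.exp a * Real.exp b * Real.exp d) :=
        mul_le_mul_of_nonneg_right (cexp n hc) (by positivity)
    _ = Real.exp (n + a + b + d) := by
        rw [← Real.exp_add, ← Real.exp_add, ← Real.exp_add]
        congr 1
        ring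
    _ ≤ _ := Real.exp_le_exp.2 hy

theorem exp_shift (y : ℝ) (n : ℕ) {c : ℝ} (hc : c ≤ 2 ^ n) : c * Real.exp (y - n) ≤ Real.exp y := by
  calc _ ≤ Real.exp n * Real.exp (y - n) := mul_le_mul_of_nonneg_right (cexp n hc) (Real.exp_pos _).le
    _ = _ := by
      rw [← Real.exp_add]
      congr 1
      ring

theorem d_sq (y : ℝ) : 4 / Real.exp (-y) ^ 2 = 4 * Real.exp (2 * y) := by
  have h : Real.exp (-y) ^ 2 = (Real.exp (2 * y))⁻¹ := by
    rw [← Real.exp_nat_mul, ← Real.exp_neg]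
    congr 1
    push_cast
    ring
  rw [h, div_inv_eq_mul]

/-- (2) number of the lives at an exact vertex (also with the changes of status) -/
theorem Nx_num (A ka : ℕ) : ∃ c0m : ℕ, ∀ c0 ≥ c0m, ∀ Lam : ℝ, 2 ≤ Lam → ∀ NL NLx Tot : ℝ,
    NL ≤ 100 * (pw Lam c0 * pw Lam (c1F A c0) * Lam) → NLx ≤ 100 * (pw Lam c0 * pw Lam (c1F A c0) * Lam) →
    Tot ≤ 100 * (pw Lam c0 * Lam) →
    NL + NLx + 128 * (4 / d1 Lam ka c0 ^ 2 * Tot) / kb Lam ka c0 + 5 +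
      16 / p1 Lam A c0 * (Real.exp (4 * Lam) * (64 * (4 / d1 Lam ka c0 ^ 2 * Tot))) ≤
      Real.exp (6 * pe Lam ka c0) := by
  obtain ⟨c0m, h⟩ := big A ka 100
  refine ⟨c0m, fun c0 hc Lam hL NL NLx Tot hNL hNLx hTot => ?_⟩
  obtain ⟨hc0, h1⟩ := h c0 hc
  have h2 := h1 Lam hL
  have hL0 : (0 : ℝ) < Lam := by linarith
  have hv : Lam ≤ (c0 : ℝ) * Lam := by
    have : (6 : ℝ) ≤ c0 := by exact_mod_cast hc0
    nlinarith
  have hu : 0 ≤ (c1F A c0 : ℝ) * Lam := by positivity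
  push_cast at h2
  have hT := Tot_exp hL c0 hTot
  have b1 : NL ≤ Real.exp (6 * pe Lam ka c0 - (3 : ℕ)) := (NL_exp hL A c0 hNL).trans (Real.exp_le_exp.2 (by push_cast; linarith))
  have b2 : NLx ≤ Real.exp (6 * pe Lam ka c0 - (3 : ℕ)) := (NL_exp hL A c0 hNLx).trans (Real.exp_le_exp.2 (by push_cast; linarith))
  have b3 : 128 * (4 / d1 Lam ka c0 ^ 2 * Tot) / kb Lam ka c0 ≤ Real.exp (6 * pe Lam ka c0 - (3 : ℕ)) := by
    unfold d1 kb
    rw [d_sq, div_eq_mul_inv, ← Real.exp_neg, neg_neg]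
    have e : 128 * (4 * Real.exp (2 * (2 * pe Lam ka c0)) * Tot) * Real.exp (pe Lam ka c0) =
        512 * (Real.exp (2 * (2 * pe Lam ka c0)) * Tot * Real.exp (pe Lam ka c0)) := by ring
    rw [e]
    refine le_trans (mul_le_mul_of_nonneg_left (mul_le_mul_of_nonneg_right (mul_le_mul_of_nonneg_left hT
      (Real.exp_pos _).le) (Real.exp_pos _).le) (by norm_num)) (tm3 9 (by norm_num) ?_)
    push_cast
    linarith
  have b4 : (5 : ℝ) ≤ Real.exp (6 * pe Lam ka c0 - (3 : ℕ)) := by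
    refine (cexp 3 (by norm_num)).trans (Real.exp_le_exp.2 ?_)
    push_cast
    linarith
  have b5 : 16 / p1 Lam A c0 * (Real.exp (4 * Lam) * (64 * (4 / d1 Lam ka c0 ^ 2 * Tot))) ≤
      Real.exp (6 * pe Lam ka c0 - (3 : ℕ)) := by
    unfold d1 p1
    rw [d_sq, div_inv_eq_mul]
    have hpw : pw Lam (6 * c1F A c0) ≤ Real.exp (6 * ((c1F A c0 : ℝ) * Lam)) := by
      refine (pw_exp hL _).trans (le_of_eq ?_)
      push_cast
      congr 1
      ring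
    have hpw0 := pw_pos hL (6 * c1F A c0)
    have e : 16 * pw Lam (6 * c1F A c0) * (Real.exp (4 * Lam) * (64 * (4 * Real.exp (2 * (2 * pe Lam ka c0)) * Tot))) =
        4096 * (pw Lam (6 * c1F A c0) * (Real.exp (4 * Lam) * (Real.exp (2 * (2 * pe Lam ka c0)) * Tot))) := by ring
    rw [e]
    have e2 : Real.exp (4 * Lam) * (Real.exp (2 * (2 * pe Lam ka c0)) * Tot) ≤
        Real.exp (4 * Lam + 2 * (2 * pe Lam ka c0) + (7 + (c0 : ℝ) * Lam + Lam)) := by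
      rw [Real.exp_add, Real.exp_add, mul_assoc]
      exact mul_le_mul_of_nonneg_left (mul_le_mul_of_nonneg_left hT (Real.exp_pos _).le) (Real.exp_pos _).le
    have e3 : pw Lam (6 * c1F A c0) * (Real.exp (4 * Lam) * (Real.exp (2 * (2 * pe Lam ka c0)) * Tot)) ≤
        Real.exp (6 * ((c1F A c0 : ℝ) * Lam)) * Real.exp (4 * Lam + 2 * (2 * pe Lam ka c0) + (7 + (c0 : ℝ) * Lam + Lam)) *
          Real.exp 0 := by
      rw [Real.exp_zero, mul_one]
      refine le_trans (mul_le_mul_of_nonneg_left e2 hpw0.le) ?_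
      exact mul_le_mul_of_nonneg_right hpw (Real.exp_pos _).le
    refine le_trans (mul_le_mul_of_nonneg_left e3 (by norm_num)) (tm3 12 (by norm_num) ?_)
    push_cast
    linarith
  have b6 : 5 * Real.exp (6 * pe Lam ka c0 - (3 : ℕ)) ≤ Real.exp (6 * pe Lam ka c0) := exp_shift _ 3 (by norm_num)
  refine (add_le_add (add_le_add (add_le_add (add_le_add b1 b2) b3) b4) b5).trans ?_
  refine le_trans (le_of_eq ?_) b6
  ring

/-- (3) number of the public epochs -/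
theorem N0_num (A ka : ℕ) : ∃ c0m : ℕ, ∀ c0 ≥ c0m, ∀ Lam : ℝ, 2 ≤ Lam → ∀ NL Nx Tx To : ℝ,
    NL ≤ 100 * (pw Lam c0 * pw Lam (c1F A c0) * Lam) → Nx ≤ 3 * Real.exp (6 * pe Lam ka c0) →
    Tx ≤ 100 * (pw Lam c0 * Lam) → To ≤ 100 * (pw Lam c0 * Lam) →
    1 + 2 * (NL + (128 * (4 / d0 Lam c0 ^ 2 * To) + Nx +
      6 / p1 Lam A c0 * (p1 Lam A c0 + 2 * (Real.exp (4 * Lam) * (64 * (4 / d1 Lam ka c0 ^ 2 * Tx))))) / d0 Lam c0) ≤
      Real.exp (4 * pQ Lam c0) := by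
  obtain ⟨c0m, h⟩ := big A ka 100
  refine ⟨c0m, fun c0 hc Lam hL NL Nx Tx To hNL hNx hTx hTo => ?_⟩
  obtain ⟨hc0, h1⟩ := h c0 hc
  have h2 := h1 Lam hL
  have hL0 : (0 : ℝ) < Lam := by linarith
  have hv : Lam ≤ (c0 : ℝ) * Lam := by
    have : (6 : ℝ) ≤ c0 := by exact_mod_cast hc0
    nlinarith
  have hu : 0 ≤ (c1F A c0 : ℝ) * Lam := by positivity
  push_cast at h2
  have hQ := pQ_big hL ka (show 1 ≤ c0 by omega)
  have hTX := Tot_exp hL c0 hTx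
  have hTO := Tot_exp hL c0 hTo
  have hp0 : 0 < p1 Lam A c0 := by
    unfold p1
    exact inv_pos.2 (pw_pos hL _)
  -- distribute
  have e0 : 1 + 2 * (NL + (128 * (4 / d0 Lam c0 ^ 2 * To) + Nx +
      6 / p1 Lam A c0 * (p1 Lam A c0 + 2 * (Real.exp (4 * Lam) * (64 * (4 / d1 Lam ka c0 ^ 2 * Tx))))) / d0 Lam c0) =
      1 + 2 * NL + 256 * (4 / d0 Lam c0 ^ 2 * To) / d0 Lam c0 + 2 * Nx / d0 Lam c0 + 12 / d0 Lam c0 +
        24 / p1 Lam A c0 * (Real.exp (4 * Lam) * (64 * (4 / d1 Lam ka c0 ^ 2 * Tx))) / d0 Lam c0 := by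
    have h3 : 6 / p1 Lam A c0 * (p1 Lam A c0 + 2 * (Real.exp (4 * Lam) * (64 * (4 / d1 Lam ka c0 ^ 2 * Tx)))) =
        6 + 12 / p1 Lam A c0 * (Real.exp (4 * Lam) * (64 * (4 / d1 Lam ka c0 ^ 2 * Tx))) := by
      rw [mul_add, div_mul_cancel₀ _ hp0.ne']
      ring
    rw [h3]
    ring
  rw [e0]
  have hinv : ∀ y : ℝ, y / d0 Lam c0 = y * Real.exp (pQ Lam c0) := by
    intro y
    unfold d0
    rw [div_eq_mul_inv, ← Real.exp_neg, neg_neg]
  rw [hinv, hinv, hinv, hinv]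
  have b1 : (1 : ℝ) ≤ Real.exp (4 * pQ Lam c0 - (3 : ℕ)) := by
    refine Real.one_le_exp ?_
    push_cast
    linarith
  have b2 : 2 * NL ≤ Real.exp (4 * pQ Lam c0 - (3 : ℕ)) := by
    have h3 := NL_exp hL A c0 hNL
    have h4 := tm3 (c := 2) (a := 7 + (c0 : ℝ) * Lam + (c1F A c0 : ℝ) * Lam + Lam) (b := 0) (d := 0)
      (y := 4 * pQ Lam c0 - (3 : ℕ)) 1 (by norm_num) (by push_cast; linarith)
    rw [Real.exp_zero, mul_one, mul_one] at h4
    linarith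
  have b3 : 256 * (4 / d0 Lam c0 ^ 2 * To) * Real.exp (pQ Lam c0) ≤ Real.exp (4 * pQ Lam c0 - (3 : ℕ)) := by
    unfold d0
    rw [d_sq]
    have e : 256 * (4 * Real.exp (2 * pQ Lam c0) * To) * Real.exp (pQ Lam c0) =
        1024 * (Real.exp (2 * pQ Lam c0) * To * Real.exp (pQ Lam c0)) := by ring
    rw [e]
    refine le_trans (mul_le_mul_of_nonneg_left (mul_le_mul_of_nonneg_right (mul_le_mul_of_nonneg_left hTO
      (Real.exp_pos _).le) (Real.exp_pos _).le) (by norm_num)) (tm3 10 (by norm_num) ?_)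
    push_cast
    linarith
  have b4 : 2 * Nx * Real.exp (pQ Lam c0) ≤ Real.exp (4 * pQ Lam c0 - (3 : ℕ)) := by
    have h3 : 2 * Nx * Real.exp (pQ Lam c0) ≤ 6 * (Real.exp (6 * pe Lam ka c0) * Real.exp (pQ Lam c0) * Real.exp 0) := by
      rw [Real.exp_zero, mul_one]
      have h4 := mul_le_mul_of_nonneg_right hNx (Real.exp_pos (pQ Lam c0)).le
      linarith
    refine h3.trans (tm3 3 (by norm_num) ?_)
    push_cast
    linarith
  have b5 : 12 * Real.exp (pQ Lam c0) ≤ Real.exp (4 * pQ Lam c0 - (3 : ℕ)) := by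
    have h4 := tm3 (c := 12) (a := pQ Lam c0) (b := 0) (d := 0)
      (y := 4 * pQ Lam c0 - (3 : ℕ)) 4 (by norm_num) (by push_cast; linarith)
    rw [Real.exp_zero, mul_one, mul_one] at h4
    exact h4
  have b6 : 24 / p1 Lam A c0 * (Real.exp (4 * Lam) * (64 * (4 / d1 Lam ka c0 ^ 2 * Tx))) * Real.exp (pQ Lam c0) ≤
      Real.exp (4 * pQ Lam c0 - (3 : ℕ)) := by
    unfold d1 p1
    rw [d_sq, div_inv_eq_mul]
    have hpw : pw Lam (6 * c1F A c0) ≤ Real.exp (6 * ((c1F A c0 : ℝ) * Lam)) := by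
      refine (pw_exp hL _).trans (le_of_eq ?_)
      push_cast
      congr 1
      ring
    have hpw0 := pw_pos hL (6 * c1F A c0)
    have e : 24 * pw Lam (6 * c1F A c0) * (Real.exp (4 * Lam) * (64 * (4 * Real.exp (2 * (2 * pe Lam ka c0)) * Tx))) *
        Real.exp (pQ Lam c0) =
        6144 * (pw Lam (6 * c1F A c0) * (Real.exp (4 * Lam) * (Real.exp (2 * (2 * pe Lam ka c0)) * Tx)) *
          Real.exp (pQ Lam c0)) := by ring
    rw [e]
    have e2 : Real.exp (4 * Lam) * (Real.exp (2 * (2 * pe Lam ka c0)) * Tx) ≤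
        Real.exp (4 * Lam + 2 * (2 * pe Lam ka c0) + (7 + (c0 : ℝ) * Lam + Lam)) := by
      rw [Real.exp_add, Real.exp_add, mul_assoc]
      exact mul_le_mul_of_nonneg_left (mul_le_mul_of_nonneg_left hTX (Real.exp_pos _).le) (Real.exp_pos _).le
    have e3 : pw Lam (6 * c1F A c0) * (Real.exp (4 * Lam) * (Real.exp (2 * (2 * pe Lam ka c0)) * Tx)) ≤
        Real.exp (6 * ((c1F A c0 : ℝ) * Lam)) * Real.exp (4 * Lam + 2 * (2 * pe Lam ka c0) + (7 + (c0 : ℝ) * Lam + Lam)) := by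
      refine le_trans (mul_le_mul_of_nonneg_left e2 hpw0.le) ?_
      exact mul_le_mul_of_nonneg_right hpw (Real.exp_pos _).le
    refine le_trans (mul_le_mul_of_nonneg_left (mul_le_mul_of_nonneg_right e3 (Real.exp_pos _).le) (by norm_num))
      (tm3 13 (by norm_num) ?_)
    push_cast
    linarith
  have b7 : 6 * Real.exp (4 * pQ Lam c0 - (3 : ℕ)) ≤ Real.exp (4 * pQ Lam c0) := exp_shift _ 3 (by norm_num)
  refine (add_le_add (add_le_add (add_le_add (add_le_add (add_le_add b1 b2) b3) b4) b5) b6).trans ?_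
  refine le_trans (le_of_eq ?_) b7
  ring

/-- `exp (-(y/4)) N1 ≤ 1` -/
theorem N1_kill {Lam : ℝ} (hL : 2 ≤ Lam) (A c0 : ℕ) {y : ℝ} (hy : (c1F A c0 : ℝ) * Lam ≤ y) :
    Real.exp (-y) * pw Lam (c1F A c0) ≤ 1 := by
  calc _ ≤ Real.exp (-y) * Real.exp ((c1F A c0 : ℝ) * Lam) :=
        mul_le_mul_of_nonneg_left (pw_exp hL _) (Real.exp_pos _).le
    _ = Real.exp ((c1F A c0 : ℝ) * Lam - y) := by
      rw [← Real.exp_add]
      congr 1
      ring
    _ ≤ 1 := Real.exp_le_one_iff.2 (by linarith)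

theorem sqrt_exp (y : ℝ) : Real.sqrt (Real.exp (-y)) = Real.exp (-(y / 2)) := by
  rw [show -y = -(y / 2) + -(y / 2) by ring, Real.exp_add, Real.sqrt_mul_self (Real.exp_pos _).le]

/-- the common bound of (4), (5) -/
theorem thr_core {Lam : ℝ} (hL : 2 ≤ Lam) (A c0 : ℕ) {NL To q Y : ℝ} (hq0 : 0 < q) (hY : 0 < Y)
    (hq : q ≤ Real.exp (-Y)) (hcY : (c1F A c0 : ℝ) * Lam ≤ Y / 2)
    (hNL : NL ≤ 100 * (pw Lam c0 * pw Lam (c1F A c0) * Lam)) (hTo : To ≤ 100 * (pw Lam c0 * Lam)) (hNL0 : 0 ≤ NL)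
    (hTo0 : 0 ≤ To) : 2 / Real.log (1 / q) * (To + Real.sqrt q * NL) ≤ 400 * (pw Lam c0 * Lam) / Y := by
  have hlog : Y ≤ Real.log (1 / q) := by
    rw [one_div, Real.log_inv]
    have h1 := Real.log_le_log hq0 hq
    rw [Real.log_exp] at h1
    linarith
  have hL0 : (0 : ℝ) < Lam := by linarith
  have hn := pw_pos hL c0
  have hN := pw_pos hL (c1F A c0)
  have hs : Real.sqrt q ≤ Real.exp (-(Y / 2)) := by
    rw [← sqrt_exp]
    exact Real.sqrt_le_sqrt hq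
  have h1 : Real.sqrt q * NL ≤ 100 * (pw Lam c0 * Lam) := by
    calc _ ≤ Real.exp (-(Y / 2)) * (100 * (pw Lam c0 * pw Lam (c1F A c0) * Lam)) :=
          mul_le_mul hs hNL hNL0 (Real.exp_pos _).le
      _ = (Real.exp (-(Y / 2)) * pw Lam (c1F A c0)) * (100 * (pw Lam c0 * Lam)) := by ring
      _ ≤ 1 * (100 * (pw Lam c0 * Lam)) := mul_le_mul_of_nonneg_right (N1_kill hL A c0 hcY) (by positivity)
      _ = _ := one_mul _
  have h2 : To + Real.sqrt q * NL ≤ 200 * (pw Lam c0 * Lam) := by linarith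
  have h3 : 0 ≤ To + Real.sqrt q * NL := add_nonneg hTo0 (mul_nonneg (Real.sqrt_nonneg _) hNL0)
  calc _ ≤ 2 / Y * (200 * (pw Lam c0 * Lam)) :=
        mul_le_mul (div_le_div_of_nonneg_left (by norm_num) hY hlog) h2 h3 (by positivity)
    _ = _ := by ring

/-- (4) thrown tuples (M.4) -/
theorem thr_num (A : ℕ) : ∃ c0m : ℕ, ∀ c0 ≥ c0m, ∀ Lam : ℝ, 2 ≤ Lam → ∀ NL To q : ℝ, 0 < q → q ≤ Real.exp (-(pQ Lam c0 / 2)) →
    NL ≤ 100 * (pw Lam c0 * pw Lam (c1F A c0) * Lam) → To ≤ 100 * (pw Lam c0 * Lam) → 0 ≤ NL → 0 ≤ To →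
    2 / Real.log (1 / q) * (To + Real.sqrt q * NL) ≤ (pw Lam (6 * c0))⁻¹ := by
  obtain ⟨c0m, h⟩ := big A 0 100
  refine ⟨c0m, fun c0 hc Lam hL NL To q hq0 hq hNL hTo hNL0 hTo0 => ?_⟩
  obtain ⟨hc0, h1⟩ := h c0 hc
  have h2 := h1 Lam hL
  have hL0 : (0 : ℝ) < Lam := by linarith
  have hv : Lam ≤ (c0 : ℝ) * Lam := by
    have : (6 : ℝ) ≤ c0 := by exact_mod_cast hc0
    nlinarith
  have hu : 0 ≤ (c1F A c0 : ℝ) * Lam := by positivity
  push_cast at h2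
  have hQ := pQ_big hL 0 (show 1 ≤ c0 by omega)
  have hQ0 : 0 < pQ Lam c0 := by
    unfold pQ
    exact pw_pos hL _
  refine (thr_core hL A c0 (Y := pQ Lam c0 / 2) hq0 (by linarith) hq (by linarith) hNL hTo hNL0 hTo0).trans ?_
  have h6 := pw_pos hL (6 * c0)
  have hn := pw_pos hL c0
  rw [div_le_iff₀ (by linarith)]
  have e1 : pQ Lam c0 = pw Lam (6 * c0) * (pw Lam c0 * pw Lam c0) := by
    unfold pQ pw
    rw [← pow_add, ← pow_add]
    congr 1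
    ring
  rw [e1]
  have e2 : (pw Lam (6 * c0))⁻¹ * (pw Lam (6 * c0) * (pw Lam c0 * pw Lam c0) / 2) = pw Lam c0 * pw Lam c0 / 2 := by
    field_simp
  rw [e2]
  -- 400 Lam ≤ n / 2
  have h7 : 400 * Lam ≤ pw Lam c0 / 2 := by
    have h8 : pw Lam 6 ≤ pw Lam c0 := pw_mono hL hc0
    have h9 : pw Lam 6 = pw Lam 5 * (2 * Lam) := by
      unfold pw
      rw [pow_succ]
    have h10 : (4 : ℝ) ^ 5 ≤ pw Lam 5 := pw_four hL 5
    rw [h9] at h8
    have h11 := mul_le_mul_of_nonneg_right h10 (show (0 : ℝ) ≤ 2 * Lam by linarith)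
    norm_num at h11
    linarith
  have h12 := mul_le_mul_of_nonneg_left h7 hn.le
  linarith

/-- (5) the mass of the status vertices at the removals (`GV`) -/
theorem gv_num (A ka : ℕ) : ∃ c0m : ℕ, ∀ c0 ≥ c0m, ∀ Lam : ℝ, 2 ≤ Lam → ∀ NL To : ℝ,
    NL ≤ 100 * (pw Lam c0 * pw Lam (c1F A c0) * Lam) → To ≤ 100 * (pw Lam c0 * Lam) → 0 ≤ NL → 0 ≤ To →
    2 / Real.log (1 / z Lam ka c0) * (To + Real.sqrt (z Lam ka c0) * NL) ≤ pw Lam (ka + 12) := by
  obtain ⟨c0m, h⟩ := big A ka 100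
  refine ⟨c0m, fun c0 hc Lam hL NL To hNL hTo hNL0 hTo0 => ?_⟩
  obtain ⟨hc0, h1⟩ := h c0 hc
  have h2 := h1 Lam hL
  have hL0 : (0 : ℝ) < Lam := by linarith
  have hv : Lam ≤ (c0 : ℝ) * Lam := by
    have : (6 : ℝ) ≤ c0 := by exact_mod_cast hc0
    nlinarith
  have hu : 0 ≤ (c1F A c0 : ℝ) * Lam := by positivity
  push_cast at h2
  have hpe : 0 < pe Lam ka c0 := by linarith
  have hz0 : 0 < z Lam ka c0 := by
    unfold z
    exact Real.exp_pos _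
  refine (thr_core hL A c0 (q := z Lam ka c0) (Y := pe Lam ka c0 / 2) hz0 (by linarith) (le_of_eq (by unfold z; ring_nf))
    (by linarith) hNL hTo hNL0 hTo0).trans ?_
  have hn := pw_pos hL c0
  have hka := pw_pos hL ka
  have e1 : 400 * (pw Lam c0 * Lam) / (pe Lam ka c0 / 2) = 800 * Lam * pw Lam ka := by
    unfold pe
    field_simp
    ring
  rw [e1]
  have e2 : pw Lam (ka + 12) = pw Lam ka * (pw Lam 11 * (2 * Lam)) := by
    unfold pw
    rw [pow_add, pow_succ (2 * Lam) 11]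
  rw [e2]
  have h3 : (4 : ℝ) ^ 11 ≤ pw Lam 11 := pw_four hL 11
  have h4 : 800 * Lam ≤ pw Lam 11 * (2 * Lam) := by
    have := mul_le_mul_of_nonneg_right h3 (show (0 : ℝ) ≤ 2 * Lam by linarith)
    norm_num at this
    linarith
  calc _ = pw Lam ka * (800 * Lam) := by ring
    _ ≤ _ := mul_le_mul_of_nonneg_left h4 hka.le

/-- (6) what is rare with an exponential rate in `pe` kills every power and all removals -/
theorem rare_num (A ka k : ℕ) : ∃ c0m : ℕ, ∀ c0 ≥ c0m, ∀ Lam : ℝ, 2 ≤ Lam →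
    Real.exp (-(pe Lam ka c0 / 16)) * pw Lam (k * (c1F A c0 + c0 + 1)) * Real.exp (16 * Lam) ≤ (pw Lam (k * c1F A c0))⁻¹ := by
  obtain ⟨c0m, h⟩ := big A ka (16 * (2 * k + 16))
  refine ⟨c0m, fun c0 hc Lam hL => ?_⟩
  obtain ⟨hc0, h1⟩ := h c0 hc
  have h2 := h1 Lam hL
  have hL0 : (0 : ℝ) < Lam := by linarith
  have hv : Lam ≤ (c0 : ℝ) * Lam := by
    have : (6 : ℝ) ≤ c0 := by exact_mod_cast hc0
    nlinarith
  have hu : 0 ≤ (c1F A c0 : ℝ) * Lam := by positivity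
  push_cast at h2
  have hk0 : (0 : ℝ) ≤ k := Nat.cast_nonneg k
  have a1 : pw Lam (k * (c1F A c0 + c0 + 1)) ≤ Real.exp (k * ((c1F A c0 : ℝ) * Lam + (c0 : ℝ) * Lam + Lam)) := by
    refine (pw_exp hL _).trans (le_of_eq ?_)
    push_cast
    congr 1
    ring
  have a2 : Real.exp (-(k * ((c1F A c0 : ℝ) * Lam))) ≤ (pw Lam (k * c1F A c0))⁻¹ := by
    rw [Real.exp_neg]
    refine inv_anti₀ (pw_pos hL _) ((pw_exp hL _).trans (le_of_eq ?_))
    push_cast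
    congr 1
    ring
  refine le_trans ?_ a2
  calc _ ≤ Real.exp (-(pe Lam ka c0 / 16)) * Real.exp (k * ((c1F A c0 : ℝ) * Lam + (c0 : ℝ) * Lam + Lam)) *
        Real.exp (16 * Lam) :=
        mul_le_mul_of_nonneg_right (mul_le_mul_of_nonneg_left a1 (Real.exp_pos _).le) (Real.exp_pos _).le
    _ = Real.exp (-(pe Lam ka c0 / 16) + k * ((c1F A c0 : ℝ) * Lam + (c0 : ℝ) * Lam + Lam) + 16 * Lam) := by
      rw [← Real.exp_add, ← Real.exp_add]
    _ ≤ _ := by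
      refine Real.exp_le_exp.2 ?_
      have h3 : (k : ℝ) * Lam ≤ k * ((c0 : ℝ) * Lam) := mul_le_mul_of_nonneg_left hv hk0
      nlinarith

end Pool.Agent.GMH.MVN
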