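import Pool.Agent.GMH.Ctx
import Pool.Agent.GMH.MVN
import Pool.Agent.GMH.MV2
import Pool.Agent.GMH.MV7
import Pool.Agent.GMH.MV9
import Pool.Agent.GMH.MVS
import Pool.Agent.GMH.MVIq

/-!
# GMH/CtxN (helper58): THE NUMBERS OF THE CLOCKS OF THE RUN, over `Ctx`

`C.M ka` : the data `MS` of the run (constants of H3.MOV), times `s < 5 T`.
* `totX`, `tot0`, `nl`, `nlx`, `thks`, `prN`, `prX` : totals, light values, thick tops, independence in the code steps;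
* `nx_all` : the number of the exact lives, `nxS_all` : with the changes of the status, `n0_all` : of the public epochs, for all
  runs with large `c0` (`AllC`): at most `e^(6 n / x^ka)`, resp. `e^(4 n^8)`;
* `hz_all` : the start masses.
-/

set_option autoImplicit false
set_option linter.unusedSectionVars false

namespace Pool.Agent.GMH.CX

open Finset Pool.Agent.PWZ Pool.Agent.M3 Pool.Agent.GM Pool.Agent.GM.Harm Pool.Agent.GMH Pool.Agent.GMH.NZ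
open Pool.Agent.GMH.V3 Pool.Agent.GMH.TP Pool.Agent.GMH.TD Pool.Agent.GMH.Dy Pool.Agent.GMH.CTM

noncomputable section

namespace Ctx

variable (C : Ctx) (ka : ℕ)

/-- the data of the moved part of the run -/
abbrev M : MV.MS C.O := (C.U ka).toMS

/-- total of the increments and births -/
def TT : ℝ := 60 * C.n * C.Lam

theorem L0 : 0 < C.Lam := by have := C.hL; linarith

theorem totX : MV.TotX (C.M ka) (5 * C.T) C.TT :=
  MVI.totX (h := C.h) C.tb (C.d1_pos ka) (C.d1_le ka) (C.kb_pos ka) C.d0_pos C.d0_le C.d0_pos C.p1_pos (C.z_pos ka) C.n1 C.N11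
    C.R C.H

theorem tot0 : MV.Tot0 (C.M ka) (5 * C.T) C.TT := by
  have h1 := MVI.tot0 (h := C.h) C.tb (C.d1_pos ka) (C.d1_le ka) (C.kb_pos ka) C.d0_pos C.d0_le C.d0_pos C.p1_pos (C.z_pos ka)
    C.n1 C.N11 C.R C.H
  have h2 : 12 * C.n * C.Lam ≤ C.TT := by
    have h3 : 0 ≤ C.n * C.Lam := mul_nonneg (zero_le_one.trans C.n1) C.L0.le
    unfold TT
    linarith
  exact fun i => ⟨(h1 i).1.trans h2, (h1 i).2.trans h2⟩

theorem nl : MV.NL (C.M ka) (5 * C.T) ≤ 6 * C.n * C.N1 * C.Lam :=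
  MVI.nl (h := C.h) C.tb (C.d1_pos ka) (C.d1_le ka) (C.kb_pos ka) C.d0_pos C.d0_le C.d0_pos C.p1_pos (C.z_pos ka) C.n1 C.N11
    C.R C.H

theorem nlx (i : Fin 3) : MV.NLx (C.M ka) i (5 * C.T) ≤ 12 * C.n * C.N1 * C.Lam :=
  MVI.nlx (h := C.h) C.tb (C.d1_pos ka) (C.d1_le ka) (C.kb_pos ka) C.d0_pos C.d0_le C.d0_pos C.p1_pos (C.z_pos ka) C.n1 C.N11
    C.R C.H i

theorem thks : MV.Thks (C.M ka) C.Lam :=
  MVI.thks C.h C.tb C.v (C.d1_pos ka) (C.d1_le ka) (C.kb_pos ka) C.d0_pos C.d0_le C.d0_pos C.p1_pos (C.z_pos ka) C.H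

theorem thk : MV.Thk (C.M ka) C.Lam := (C.thks ka).thk

theorem prN : MV.PrN (C.M ka) :=
  MVI.prN C.tb (C.d1_pos ka) (C.d1_le ka) (C.kb_pos ka) C.d0_pos C.d0_le C.d0_pos C.p1_pos (C.z_pos ka) C.codes

theorem prX : MV.PrX (C.M ka) :=
  MVI.prX C.tb (C.d1_pos ka) (C.d1_le ka) (C.kb_pos ka) C.d0_pos C.d0_le C.d0_pos C.p1_pos (C.z_pos ka) C.codes

theorem TT_le : C.TT ≤ 100 * (pw C.Lam C.c0 * C.Lam) := by
  have h1 : 0 ≤ C.n * C.Lam := mul_nonneg (zero_le_one.trans C.n1) C.L0.le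
  have h2 : C.TT = 60 * (C.n * C.Lam) := by unfold TT; ring
  have h3 : pw C.Lam C.c0 = C.n := rfl
  rw [h2, h3]
  linarith

theorem nN_nn : 0 ≤ C.n * C.N1 * C.Lam :=
  mul_nonneg (mul_nonneg (zero_le_one.trans C.n1) (zero_le_one.trans C.N11)) C.L0.le

theorem nl_le : MV.NL (C.M ka) (5 * C.T) ≤ 100 * (pw C.Lam C.c0 * pw C.Lam (c1F C.A C.c0) * C.Lam) := by
  have h1 := C.nN_nn
  have h3 : pw C.Lam C.c0 * pw C.Lam (c1F C.A C.c0) * C.Lam = C.n * C.N1 * C.Lam := rfl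
  rw [h3]
  refine (C.nl ka).trans ?_
  linarith

theorem nlx_le (i : Fin 3) : MV.NLx (C.M ka) i (5 * C.T) ≤ 100 * (pw C.Lam C.c0 * pw C.Lam (c1F C.A C.c0) * C.Lam) := by
  have h1 := C.nN_nn
  have h3 : pw C.Lam C.c0 * pw C.Lam (c1F C.A C.c0) * C.Lam = C.n * C.N1 * C.Lam := rfl
  rw [h3]
  refine (C.nlx ka i).trans ?_
  linarith

/-- number of the starts of the lives, with the changes of the status -/
def NS (i : Fin 3) : ℝ := ∑ s ∈ range (5 * C.T), (C.M ka).P.Pr (fun w => MV.tauS (C.M ka) i (s + 1) w = s + 1)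

/-- the numbers as they stand -/
theorem nxS_raw (i : Fin 3) : MV.Nx (C.M ka) i (5 * C.T) + ∑ s ∈ range (5 * C.T), (C.M ka).P.Pr (fun w =>
      ¬ (MV.hys (C.M ka) i (s + 1) w ↔ MV.hys (C.M ka) i s w)) ≤
    MV.NL (C.M ka) (5 * C.T) + MV.NLx (C.M ka) i (5 * C.T) + 128 * (4 / MVN.d1 C.Lam ka C.c0 ^ 2 * C.TT) / MVN.kb C.Lam ka C.c0 +
      5 + 16 / MVN.p1 C.Lam C.A C.c0 * (Real.exp (4 * C.Lam) * (64 * (4 / MVN.d1 C.Lam ka C.c0 ^ 2 * C.TT))) := by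
  have h1 := MV.Nx_le (C.M ka) i (C.totX ka)
  have h2 := MV.status_le (C.M ka) (C.thk ka) i (C.totX ka)
  have h3 : ∑ s ∈ range (5 * C.T), (C.M ka).P.Pr (fun w => ¬ (MV.hys (C.M ka) i (s + 1) w ↔ MV.hys (C.M ka) i s w)) ≤
      ∑ k ∈ range (5 * C.T), (C.M ka).P.Pr (fun w => (MV.hys (C.M ka) i (k + 1) w ∧ ¬ MV.hys (C.M ka) i k w) ∨
      (MV.hys (C.M ka) i k w ∧ ¬ MV.hys (C.M ka) i (k + 1) w)) := by
    refine sum_le_sum fun s _ => (C.M ka).P.Pr_mono fun w _ hw => ?_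
    by_cases a : MV.hys (C.M ka) i (s + 1) w
    · refine Or.inl ⟨a, fun b => hw ⟨fun _ => b, fun _ => a⟩⟩
    · refine Or.inr ⟨?_, a⟩
      by_contra b
      exact hw ⟨fun c => absurd c a, fun c => absurd c b⟩
  have e1 : (C.M ka).d1 = MVN.d1 C.Lam ka C.c0 := rfl
  have e2 : (C.M ka).kb = MVN.kb C.Lam ka C.c0 := rfl
  have e3 : (C.M ka).p1 = MVN.p1 C.Lam C.A C.c0 := rfl
  rw [e1, e2] at h1
  rw [e1, e3] at h2
  linarith

end Ctx

/-- all runs: the numbers of the lives at the exact vertices -/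
theorem nxS_all (A ka : ℕ) : AllC A (fun C => ∀ i, MV.Nx (C.M ka) i (5 * C.T) + ∑ s ∈ range (5 * C.T), (C.M ka).P.Pr (fun w =>
      ¬ (MV.hys (C.M ka) i (s + 1) w ↔ MV.hys (C.M ka) i s w)) ≤ Real.exp (6 * MVN.pe C.Lam ka C.c0)) := by
  obtain ⟨c0m, h⟩ := MVN.Nx_num A ka
  refine ⟨c0m, fun C hC hc i => ?_⟩
  subst hC
  exact (C.nxS_raw ka i).trans (h C.c0 hc C.Lam C.hL _ _ _ (C.nl_le ka) (C.nlx_le ka i) C.TT_le)

/-- **NUMBER OF THE EXACT EPOCHS** -/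
theorem nx_all (A ka : ℕ) : AllC A (fun C => ∀ i, MV.Nx (C.M ka) i (5 * C.T) ≤ Real.exp (6 * MVN.pe C.Lam ka C.c0)) :=
  (nxS_all A ka).mono fun C h i => by
    refine le_trans ?_ (h i)
    have : 0 ≤ ∑ s ∈ range (5 * C.T), (C.M ka).P.Pr (fun w =>
      ¬ (MV.hys (C.M ka) i (s + 1) w ↔ MV.hys (C.M ka) i s w)) := sum_nonneg fun s _ => (C.M ka).P.Pr_nonneg _
    linarith

/-- **NUMBER OF THE LIVES**, with the changes of the status -/
theorem nS_all (A ka : ℕ) : AllC A (fun C => ∀ i, C.NS ka i ≤ Real.exp (6 * MVN.pe C.Lam ka C.c0)) :=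
  (nxS_all A ka).mono fun C h i => (MV.NxS_le i (5 * C.T)).trans (h i)

/-- start masses -/
theorem hz_all (A ka : ℕ) : AllC A (fun C =>
    48 * Real.exp (4 * C.Lam) * (C.M ka).kb ≤ (C.M ka).p1 * (C.M ka).z) := by
  obtain ⟨c0m, h⟩ := MVN.hz_num A ka
  refine ⟨c0m, fun C hC hc => ?_⟩
  subst hC
  exact h C.c0 hc C.Lam C.hL

/-- **NUMBER OF THE PUBLIC EPOCHS** -/
theorem n0_all (A ka : ℕ) : AllC A (fun C => MV.N0 (C.M ka) (5 * C.T) ≤ Real.exp (4 * MVN.pQ C.Lam C.c0)) := by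
  obtain ⟨c0m, h⟩ := MVN.N0_num A ka
  refine (((nx_all A ka).and (hz_all A ka)).and (⟨c0m, fun C _ hc => hc⟩ : AllC A (fun C => c0m ≤ C.c0))).and
    (AllC.all fun C hC => hC) |>.mono fun C hh => ?_
  obtain ⟨⟨⟨h1, h2⟩, h3⟩, hA⟩ := hh
  subst hA
  have h4 := MV.N0_le (C.M ka) (C.thk ka) (C.totX ka) (C.tot0 ka) h2
  refine h4.trans ?_
  refine h C.c0 h3 C.Lam C.hL _ _ _ _ (C.nl_le ka) ?_ C.TT_le C.TT_le
  rw [Fin.sum_univ_three]
  have a := h1 0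
  have b := h1 1
  have c := h1 2
  linarith

/-- the starts of the public epochs before `5 T` -/
theorem st0_all (A ka : ℕ) : AllC A (fun C => ∑ s ∈ range (5 * C.T), (C.M ka).P.Pr (fun w => MV.nu (C.M ka) s w = s) ≤
    1 + Real.exp (4 * MVN.pQ C.Lam C.c0)) :=
  (n0_all A ka).mono fun C h => (MV.starts_le (C.M ka) (5 * C.T)).trans (by linarith)

end

end Pool.Agent.GMH.CX
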