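import Pool.Agent.GMH.DeadY
import Pool.Agent.GMH.DeadP

/-!
# GMH/DeadB: biases given the thin letters of a set of vertices, probability of the dead points (helper34)

* `bias_thin` : the squares of the means of the digit given the thin letters of the vertices `S` and the public information
  sum up to at most `2 (tot ∅ + ∑_(i ∈ S) tot {i})`;
* `dead_all_of` : the dead points are the union of the events of `dead_one`, `dead_pair`, `dead_pub`, `dead_dig`;
* `dead_all` : their probability.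
-/

set_option autoImplicit false
set_option linter.unusedSectionVars false

namespace Pool.Agent.GMH.V3

open Finset Pool.Agent.PWZ Pool.Agent.M3 Pool.Agent.GM Pool.Agent.GM.Harm Pool.Agent.GMH Pool.Agent.GMH.NZ

variable {X β γ φ υ : Type} [Fintype X] [Fintype β] [Fintype φ] [Nonempty X] [Nonempty β]
variable {D : HD (Fin 3) X β γ φ} {al : ℝ} (h : D.Thick al) {v : ℕ → Finset (Fin 3) → X → (Fin 3 → β) → υ}
variable {dg : ℕ → X → ℝ} {prr : ℕ → Fin 3 → φ → φ} {T : ℕ} {Lam : ℝ}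

/-- the class codes of the vertices `S` and the public ones -/
def AS (v : ℕ → Finset (Fin 3) → X → (Fin 3 → β) → υ) (S : Finset (Fin 3)) (s : ℕ) (w : Pt (Fin 3) X β φ) :
    (S → List υ) × List υ := (fun i => Um v s {i.1} w.1 w.2.1, Um v s ∅ w.1 w.2.1)

theorem AS_eq {S : Finset (Fin 3)} {s : ℕ} {a b : Pt (Fin 3) X β φ} : AS v S s a = AS v S s b ↔
    (∀ i ∈ S, Um v s {i} a.1 a.2.1 = Um v s {i} b.1 b.2.1) ∧ Um v s ∅ a.1 a.2.1 = Um v s ∅ b.1 b.2.1 := by
  unfold AS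
  rw [Prod.mk.injEq, funext_iff]
  exact ⟨fun hh => ⟨fun i hi => hh.1 ⟨i, hi⟩, hh.2⟩, fun hh => ⟨fun i => hh.1 i.1 i.2, hh.2⟩⟩

theorem dry_AS (S : Finset (Fin 3)) (s : ℕ) : Dead.Dry (AS (φ := φ) v S s) := by
  intro a b h1 h2
  rw [AS_eq, h1, h2]
  exact ⟨fun _ _ => rfl, rfl⟩

theorem er_ne_thin {l : Fin 3} {I : Finset (Fin 3)} (hI : I.card ≤ 1) : univ.erase l ≠ I := by
  rintro rfl
  rw [Finset.card_erase_of_mem (Finset.mem_univ l), Finset.card_univ, Fintype.card_fin] at hI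
  omega

/-- the information of `bias_thin` in the form codes and base -/
theorem ce_AS (S : Finset (Fin 3)) (t : ℕ) (f : Pt (Fin 3) X β φ → ℝ) (w : Pt (Fin 3) X β φ) :
    (D.P h t).ce (fun u => ((fun i : S => XL v (t + 1) i.1 u), NP D v (t + 1) t u)) f w =
      (D.P h t).ce (fun u => (AS v S (t + 1) u, BB D t S u)) f w := by
  refine (D.P h t).ce_congr_map ?_ ?_ _ w
  · intro a b hab
    have h1 := congrArg Prod.fst hab
    have h2 : NP D v (t + 1) t a = NP D v (t + 1) t b := congrArg Prod.snd hab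
    have h3 : Um v (t + 1) ∅ a.1 a.2.1 = Um v (t + 1) ∅ b.1 b.2.1 := congrArg Prod.fst h2
    have h4 : nd D t a = nd D t b := congrArg Prod.snd h2
    have h5 : ∀ i ∈ S, XL v (t + 1) i a = XL v (t + 1) i b := fun i hi => congrFun h1 ⟨i, hi⟩
    refine Prod.ext (AS_eq.2 ⟨fun i hi => congrArg Prod.snd (h5 i hi), h3⟩) ?_
    rw [BB_eq]
    exact ⟨fun j hj => congrArg Prod.fst (h5 j hj), congrArg Prod.fst h4, fun j => congrFun (congrArg Prod.snd h4) j⟩
  · intro a b hab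
    have h1 := AS_eq.1 (congrArg Prod.fst hab)
    have h2 : BB D t S a = BB D t S b := congrArg Prod.snd hab
    rw [BB_eq] at h2
    refine Prod.ext (funext fun i => Prod.ext (h2.1 i.1 i.2) (h1.1 i.1 i.2)) (Prod.ext h1.2 ?_)
    exact Prod.ext h2.2.1 (funext h2.2.2)

/-- one step of the codes -/
theorem AS_add (S : Finset (Fin 3)) (t : ℕ) : (D.P h t).Hc (AS v S (t + 1)) (BB D t S) ≤
    (D.P h t).Hc (AS v S t) (BB D t S) + (cst h v t ∅ + ∑ i ∈ S, cst h v t {i}) := by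
  set P := D.P h t
  have h1 : P.Hc (AS v S (t + 1)) (BB D t S) ≤
      P.Hc (fun w => (((fun i : S => Vt v t {i.1} w), Vt v t ∅ w), AS v S t w)) (BB D t S) := by
    refine P.Hc_mono _ ?_
    intro a b hab
    simp only [Prod.mk.injEq] at hab
    obtain ⟨⟨⟨h2, h3⟩, h4⟩, _⟩ := hab
    rw [AS_eq] at h4 ⊢
    exact ⟨fun i hi => Um_eq.2 ⟨h4.1 i hi, congrFun h2 ⟨i, hi⟩⟩, Um_eq.2 ⟨h4.2, h3⟩⟩
  have h2 := P.Hc_chain (fun w => ((fun i : S => Vt v t {i.1} w), Vt v t ∅ w)) (AS v S t) (BB D t S)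
  have h3 := P.Hc_chain (fun w => fun i : S => Vt v t {i.1} w) (Vt v t ∅) (fun w => (AS v S t w, BB D t S w))
  have h4 := P.Hc_fam_le S (fun i => Vt v t ({i} : Finset (Fin 3))) (fun w => (Vt v t ∅ w, AS v S t w, BB D t S w))
  have h5 : P.Hc (Vt v t ∅) (fun w => (AS v S t w, BB D t S w)) ≤ cst h v t ∅ := by
    unfold cst cost
    refine P.Hc_anti _ ?_
    intro a b hab
    simp only [Prod.mk.injEq] at hab ⊢
    have h6 := AS_eq.1 hab.1
    refine ⟨lo_eq.2 fun I hI => absurd hI (Finset.not_ssubset_empty I), le_eq.2 fun I hI => ?_, ?_⟩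
    · rw [Finset.subset_empty.1 hI, LL_eq]
      exact ⟨h6.2, fun l hl => absurd hl (er_ne_thin (by simp))⟩
    · have h7 := hab.2
      rw [BB_eq] at h7 ⊢
      exact ⟨fun j hj => absurd hj (Finset.notMem_empty j), h7.2⟩
  have h6 : ∑ i ∈ S, P.Hc (Vt v t ({i} : Finset (Fin 3))) (fun w => (Vt v t ∅ w, AS v S t w, BB D t S w)) ≤
      ∑ i ∈ S, cst h v t {i} := by
    refine Finset.sum_le_sum fun i hi => ?_
    unfold cst cost
    refine P.Hc_anti _ ?_
    intro a b hab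
    simp only [Prod.mk.injEq] at hab ⊢
    have h7 := AS_eq.1 hab.2.1
    refine ⟨lo_eq.2 fun I hI => ?_, le_eq.2 fun I hI => ?_, ?_⟩
    · rw [Finset.ssubset_singleton_iff] at hI
      rw [hI]; exact hab.1
    · rcases Finset.subset_singleton_iff.1 hI with h8 | h8
      · rw [h8, LL_eq]
        exact ⟨h7.2, fun l hl => absurd hl (er_ne_thin (by simp))⟩
      · rw [h8, LL_eq]
        exact ⟨h7.1 i hi, fun l hl => absurd hl (er_ne_thin (by simp))⟩
    · have h8 := hab.2.2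
      rw [BB_eq] at h8 ⊢
      refine ⟨fun j hj => ?_, h8.2⟩
      rw [Finset.mem_singleton.1 hj]
      exact h8.1 i hi
  linarith

/-- **(Y5)** the biases given thin letters, `S` = set of vertices -/
theorem bias_thin (H : D.Hyp dg prr al T Lam) (hv : Codes D v) (S : Finset (Fin 3)) :
    ∑ t ∈ range T, (D.P h t).E (fun w => (D.P h t).ce
      (fun u => ((fun i : S => XL v (t + 1) i.1 u), NP D v (t + 1) t u)) (fun u => dg t u.1) w ^ 2) ≤
      2 * (tot D h prr T v ∅ + ∑ i ∈ S, tot D h prr T v {i}) := by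
  have hi : ∀ t < T, (D.P h t).E (fun w => (D.P h t).ce
      (fun u => ((fun i : S => XL v (t + 1) i.1 u), NP D v (t + 1) t u)) (fun u => dg t u.1) w ^ 2) / 2 ≤
      (D.P h t).Hc (AS v S (t + 1)) (BB D t S) - (D.P h t).Hc (AS v S (t + 1)) (BB D (t + 1) S) := by
    intro t ht
    have h1 := (D.P h t).I_digit_ge (D := fun w => dg t w.1) (fun w _ => dgD H w) (AS v S (t + 1)) (BB D t S)
    have h2 : (D.P h t).I (fun w => dg t w.1) (AS v S (t + 1)) (BB D t S) ≤
        (D.P h t).Hc (AS v S (t + 1)) (BB D t S) - (D.P h t).Hc (AS v S (t + 1)) (BB D (t + 1) S) := by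
      rw [FP.I_eq_Hc']
      have : (D.P h t).Hc (AS v S (t + 1)) (BB D (t + 1) S) ≤
          (D.P h t).Hc (AS v S (t + 1)) (fun w => (dg t w.1, BB D t S w)) := by
        refine (D.P h t).Hc_anti _ ?_
        intro a b hab
        simp only [Prod.mk.injEq]
        exact BB_succ H ht hab
      linarith
    have e : (D.P h t).E (fun w => (D.P h t).ce
        (fun u => ((fun i : S => XL v (t + 1) i.1 u), NP D v (t + 1) t u)) (fun u => dg t u.1) w ^ 2) =
        (D.P h t).E (fun w => ((D.P h t).ce (fun w => (AS v S (t + 1) w, BB D t S w)) (fun w => dg t w.1) w -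
          (D.P h t).ce (BB D t S) (fun w => dg t w.1) w) ^ 2) :=
      (D.P h t).E_congr fun w _ => by rw [ce_AS h, ce_dig h H ht, sub_zero]
    rw [e]
    linarith
  have h0 : (D.P h 0).Hc (AS v S 0) (BB D 0 S) ≤ 0 := by
    refine ((D.P h 0).Hc_mono (X := fun _ => ()) _ ?_).trans
      (((D.P h 0).Hc_le_H _ _).trans (le_of_eq ((D.P h 0).H_const ())))
    intro a b _
    rw [AS_eq]
    exact ⟨fun _ _ => rfl, rfl⟩
  have h1 := tel (T := T)
    (i := fun t => (D.P h t).E (fun w => (D.P h t).ce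
      (fun u => ((fun i : S => XL v (t + 1) i.1 u), NP D v (t + 1) t u)) (fun u => dg t u.1) w ^ 2) / 2)
    (e := fun t => (D.P h t).Hc (AS v S (t + 1)) (BB D t S))
    (m := fun t => (D.P h t).Hc (AS v S t) (BB D t S))
    (a := fun t => (D.P h t).Hc (AS v S (t + 1)) (BB D (t + 1) S))
    (c := fun t => cst h v t ∅ + ∑ i ∈ S, cst h v t {i})
    (β := fun _ => 0) (β0 := 0)
    hi (fun t _ => AS_add h S t)
    (fun t _ => by
      rw [add_zero]
      exact (Dead.Hc_time h (dry_AS S (t + 1)) (Dead.dry_BB (t + 1) S) (t + 1) t).le)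
    h0 ((D.P h T).Hc_nonneg _ _)
  rw [← Finset.sum_div] at h1
  simp only [Finset.sum_const_zero, add_zero, zero_add] at h1
  rw [Finset.sum_add_distrib, Finset.sum_comm] at h1
  have h2 : ∀ I : Finset (Fin 3), ∑ t ∈ range T, cst h v t I ≤ tot D h prr T v I := by
    intro I
    have h3 := cost_sum_le h (v := v) (T := T) I
    have h4 := births_nonneg h (prr := prr) (T := T) I
    unfold tot
    linarith
  have h3 := h2 ∅
  have h4 : ∑ i ∈ S, ∑ t ∈ range T, cst h v t {i} ≤ ∑ i ∈ S, tot D h prr T v {i} :=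
    Finset.sum_le_sum fun i _ => h2 {i}
  linarith

/-! ### the union -/

/-- **PROBABILITY OF THE DEAD POINTS, union** -/
theorem dead_all_of (p : AP) {a0 a1 a2 : ℝ} {aD : Finset (Fin 3) → ℝ}
    (hY1 : ∀ i : Fin 3, (D.P h T).Pr (fun w => ∃ q ≤ 2 * T, p.X0 < sps h v q i w) ≤ a0)
    (hY2 : ∀ i k : Fin 3, i ≠ k → (D.P h T).Pr (fun w => ∃ q ≤ 2 * T, p.X1 < spp h v q i k w) ≤ a1)
    (hY3 : ∀ i : Fin 3, (D.P h T).Pr (fun w => ∃ q ≤ 2 * T,
      p.e0 < (Pr' h q).ce (NPr v D q) (fun u => ind (¬ TTr h v p q i u)) w) ≤ a2)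
    (hY4 : ∀ S : Finset (Fin 3), (D.P h T).Pr (fun w => ∃ t < T, ¬ dgl h v p t (ZS v S t) w) ≤ aD S) :
    (D.P h T).Pr (fun w => ¬ Ar h v p (2 * T) w) ≤ 3 * a0 + 6 * a1 + 3 * a2 + ∑ S : Finset (Fin 3), aD S := by
  classical
  set P := D.P h T with hP
  set A1 : Pt (Fin 3) X β φ → Prop := fun w => ∃ i : Fin 3, i ∈ (univ : Finset (Fin 3)) ∧ ∃ q ≤ 2 * T, p.X0 < sps h v q i w
    with hA1
  set A2 : Pt (Fin 3) X β φ → Prop := fun w => ∃ e : Fin 3 × Fin 3,
    e ∈ (univ.filter fun e : Fin 3 × Fin 3 => e.1 ≠ e.2) ∧ ∃ q ≤ 2 * T, p.X1 < spp h v q e.1 e.2 w with hA2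
  set A3 : Pt (Fin 3) X β φ → Prop := fun w => ∃ i : Fin 3, i ∈ (univ : Finset (Fin 3)) ∧ ∃ q ≤ 2 * T,
    p.e0 < (Pr' h q).ce (NPr v D q) (fun u => ind (¬ TTr h v p q i u)) w with hA3
  set A4 : Pt (Fin 3) X β φ → Prop := fun w => ∃ S : Finset (Fin 3), S ∈ (univ : Finset (Finset (Fin 3))) ∧
    ∃ t < T, ¬ dgl h v p t (ZS v S t) w with hA4
  have hsub : P.Pr (fun w => ¬ Ar h v p (2 * T) w) ≤ P.Pr (fun w => (A1 w ∨ A2 w) ∨ (A3 w ∨ A4 w)) := by
    refine P.Pr_mono fun w _ hw => ?_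
    by_contra hn
    push Not at hn
    obtain ⟨⟨n1, n2⟩, n3, n4⟩ := hn
    refine hw ⟨⟨fun q hq i => ?_, fun t ht => ?_⟩, fun i q hq => ?_, fun q hq i k hik => ?_, fun t ht => ?_⟩
    · by_contra hc
      exact n3 ⟨i, mem_univ _, q, hq, not_le.1 hc⟩
    · by_contra hc
      exact n4 ⟨∅, mem_univ _, t, by omega, fun hd => hc ((dgl_empty h p w).2 hd)⟩
    · by_contra hc
      exact n1 ⟨i, mem_univ _, q, hq, not_le.1 hc⟩
    · by_contra hc
      exact n2 ⟨(i, k), Finset.mem_filter.2 ⟨mem_univ _, hik⟩, q, hq, not_le.1 hc⟩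
    · refine ⟨fun i => ?_, fun i k hik => ?_, ?_⟩
      · by_contra hc
        exact n4 ⟨{i}, mem_univ _, t, by omega, fun hd => hc ((dgl_one h p i w).2 hd)⟩
      · by_contra hc
        exact n4 ⟨{i, k}, mem_univ _, t, by omega, fun hd => hc ((dgl_two h p i k w).2 hd)⟩
      · by_contra hc
        exact n4 ⟨univ, mem_univ _, t, by omega, fun hd => hc ((dgl_three h p w).2 hd)⟩
  have b1 : P.Pr A1 ≤ 3 * a0 := by
    refine (P.Pr_ex_le univ _).trans ((Finset.sum_le_card_nsmul _ _ a0 fun i _ => hY1 i).trans (le_of_eq ?_))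
    rw [Finset.card_univ, Fintype.card_fin, nsmul_eq_mul]; norm_num
  have b2 : P.Pr A2 ≤ 6 * a1 := by
    refine (P.Pr_ex_le _ _).trans ((Finset.sum_le_card_nsmul _ _ a1 fun e he => hY2 e.1 e.2
      (Finset.mem_filter.1 he).2).trans (le_of_eq ?_))
    have : (univ.filter fun e : Fin 3 × Fin 3 => e.1 ≠ e.2).card = 6 := by decide
    rw [this, nsmul_eq_mul]; norm_num
  have b3 : P.Pr A3 ≤ 3 * a2 := by
    refine (P.Pr_ex_le univ _).trans ((Finset.sum_le_card_nsmul _ _ a2 fun i _ => hY3 i).trans (le_of_eq ?_))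
    rw [Finset.card_univ, Fintype.card_fin, nsmul_eq_mul]; norm_num
  have b4 : P.Pr A4 ≤ ∑ S : Finset (Fin 3), aD S :=
    (P.Pr_ex_le univ _).trans (Finset.sum_le_sum fun S _ => hY4 S)
  have c1 := P.Pr_or_le (fun w => A1 w ∨ A2 w) (fun w => A3 w ∨ A4 w)
  have c2 := P.Pr_or_le A1 A2
  have c3 := P.Pr_or_le A3 A4
  linarith

/-- **PROBABILITY OF THE DEAD POINTS** -/
theorem dead_all (H : D.Hyp dg prr al T Lam) (hv : Codes D v) (p : AP) (h0 : 0 < p.X0) (h1 : p.X0 ≤ p.X1) (he : 0 < p.e0)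
    (he1 : p.e0 ≤ 1) (hd0 : 0 ≤ p.dl) (hd : p.dl ≤ 1 / 32) {b0 b1 : ℝ} (hb0 : tot D h prr T v ∅ ≤ b0)
    (hb1 : ∀ i, tot D h prr T v {i} ≤ b1) :
    (D.P h T).Pr (fun w => ¬ Ar h v p (2 * T) w) ≤
      (6 / p.e0 + 3) * (2 * b1 / p.X0 + Real.exp (-(p.X0 / 2))) + 6 * (4 * b1 / p.X1 + Real.exp (-(p.X1 / 2))) +
      1000 * p.dl * (b0 + b1) := by
  have h1' : 0 < p.X1 := h0.trans_le h1
  have htot : ∀ I : Finset (Fin 3), 0 ≤ tot D h prr T v I := by
    intro I
    have h3 : 0 ≤ ∑ t ∈ range (T + 1), cst h v t I := Finset.sum_nonneg fun t _ => cst_nonneg h t I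
    have h4 := births_nonneg h (prr := prr) (T := T) I
    unfold tot
    linarith
  have n0 : 0 ≤ b0 := (htot ∅).trans hb0
  have n1 : 0 ≤ b1 := (htot {0}).trans (hb1 0)
  set a0 : ℝ := 2 * b1 / p.X0 + Real.exp (-(p.X0 / 2)) with ha0
  have y1 : ∀ i : Fin 3, (D.P h T).Pr (fun w => ∃ q ≤ 2 * T, p.X0 < sps h v q i w) ≤ a0 := by
    intro i
    refine (dead_one h H hv i h0).trans ?_
    have := div_le_div_of_nonneg_right (mul_le_mul_of_nonneg_left (hb1 i) (by norm_num : (0 : ℝ) ≤ 2)) h0.le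
    rw [ha0]; linarith
  have y2 : ∀ i k : Fin 3, i ≠ k → (D.P h T).Pr (fun w => ∃ q ≤ 2 * T, p.X1 < spp h v q i k w) ≤
      4 * b1 / p.X1 + Real.exp (-(p.X1 / 2)) := by
    intro i k hik
    refine (dead_pair h H hv hik h1').trans ?_
    have e : 2 * (tot D h prr T v {i} + tot D h prr T v {k}) ≤ 4 * b1 := by
      have := hb1 i; have := hb1 k; linarith
    have := div_le_div_of_nonneg_right e h1'.le
    linarith
  have y3 : ∀ i : Fin 3, (D.P h T).Pr (fun w => ∃ q ≤ 2 * T,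
      p.e0 < (Pr' h q).ce (NPr v D q) (fun u => ind (¬ TTr h v p q i u)) w) ≤ a0 / p.e0 := by
    intro i
    refine (dead_pub h p he i).trans (div_le_div_of_nonneg_right ?_ he.le)
    refine le_trans (FP.Pr_mono _ fun w _ hw => ?_) (y1 i)
    unfold TTr at hw
    push Not at hw
    exact hw
  have y4 : ∀ S : Finset (Fin 3), (D.P h T).Pr (fun w => ∃ t < T, ¬ dgl h v p t (ZS v S t) w) ≤
      32 * p.dl * (2 * (b0 + S.card * b1)) := by
    intro S
    refine (dead_dig h H hv p hd0 hd S).trans (mul_le_mul_of_nonneg_left ?_ (by linarith))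
    refine (bias_thin h H hv S).trans ?_
    have e : ∑ i ∈ S, tot D h prr T v {i} ≤ S.card * b1 := by
      refine (Finset.sum_le_card_nsmul _ _ b1 fun i _ => hb1 i).trans (le_of_eq ?_)
      rw [nsmul_eq_mul]
    linarith
  have key := dead_all_of h p y1 y2 y3 y4
  have e4 : ∑ S : Finset (Fin 3), 32 * p.dl * (2 * (b0 + (S.card : ℝ) * b1)) = 32 * p.dl * (16 * b0 + 24 * b1) := by
    rw [← Finset.mul_sum]
    congr 1
    rw [← Finset.mul_sum, Finset.sum_add_distrib, ← Finset.sum_mul]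
    have c1 : ∑ S : Finset (Fin 3), (S.card : ℝ) = 12 := by
      have : ∑ S : Finset (Fin 3), S.card = 12 := by decide
      exact_mod_cast this
    rw [c1, Finset.sum_const, Finset.card_univ, Fintype.card_finset, Fintype.card_fin]
    norm_num
    ring
  rw [e4] at key
  have a0n : 0 ≤ a0 := by
    rw [ha0]
    have := Real.exp_pos (-(p.X0 / 2))
    have : 0 ≤ 2 * b1 / p.X0 := by positivity
    linarith
  have e5 : 3 * (a0 / p.e0) ≤ 6 / p.e0 * a0 := by
    have : 0 ≤ a0 / p.e0 := div_nonneg a0n he.le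
    have e6 : 6 / p.e0 * a0 = 6 * (a0 / p.e0) := by ring
    rw [e6]; linarith
  have e7 : 32 * p.dl * (16 * b0 + 24 * b1) ≤ 1000 * p.dl * (b0 + b1) := by
    nlinarith [mul_nonneg hd0 n0, mul_nonneg hd0 n1]
  linarith

end Pool.Agent.GMH.V3
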