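import Pool.Agent.GMH.Row

/-!
# GMH.RelP: relative price of a release bit (helper49; note 3965 (A))

`xi` an event, `W` lower letters, `h` a function of `(Y, W)`, `|h| ≤ Lam`:
* `dev_klc` : `|E_Q (h - E_P (h | W))| ≤ 2 Lam (klc_(Q|P) (Y | W))^(1/2)`;
* `price_event` : `|E (P(xi | W) h) - E (1_xi h)| ≤ 2 Lam P(xi) (klc_(P_xi|P) (Y | W))^(1/2)`: the price is proportional to
  the probability of the event, the relative entropy is what the saturation inside the event bounds;
* `price_event_le` : with `klc ≤ a (log (1/P(xi)) + 1) + b`.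
-/

set_option autoImplicit false
set_option linter.unusedSectionVars false

namespace Pool.Agent.GMH

open Finset Pool.Agent.PWZ Pool.Agent.M3

section relp

variable {Om : Type*} [Fintype Om] {P Q : FP Om} {κ ι : Type*}

/-- one side, with a parameter -/
theorem dev_klc_aux (hac : Q.Ac P) {Y : Om → κ} {W : Om → ι} {h : Om → ℝ} (hh : Fac (fun w => (Y w, W w)) h)
    {Lam : ℝ} (hL : ∀ w, |h w| ≤ Lam) {s : ℝ} (hs : 0 ≤ s) (hs1 : s * Lam ≤ 1) :
    s * Q.E (fun w => h w - P.ce W h w) ≤ Q.klc P Y W + s ^ 2 * Lam ^ 2 := by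
  have h1 := klc_dv hac Y W (f := fun w => s * h w) (hh.comp (fun x => s * x))
  have h2 : Q.E (fun w => Real.log (P.ce W (fun v => Real.exp (s * h v)) w)) ≤
      Q.E (fun w => s * P.ce W h w + s ^ 2 * Lam ^ 2) := by
    refine Q.E_mono fun w hw => ?_
    have hp := hac w hw
    have h3 : P.ce W (fun v => Real.exp (s * h v)) w ≤ Real.exp (s * P.ce W h w + s ^ 2 * Lam ^ 2) := by
      have h4 : ∀ v, P.p v ≠ 0 → Real.exp (s * h v) ≤ 1 + s * h v + s ^ 2 * Lam ^ 2 := by
        intro v _
        have h5 : |s * h v| ≤ 1 := by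
          rw [abs_mul, abs_of_nonneg hs]
          exact (mul_le_mul_of_nonneg_left (hL v) hs).trans hs1
        have h6 := (abs_le.1 (Real.abs_exp_sub_one_sub_id_le h5)).2
        have h7 : (s * h v) ^ 2 ≤ s ^ 2 * Lam ^ 2 := by
          rw [mul_pow, ← sq_abs (h v)]
          exact mul_le_mul_of_nonneg_left (pow_le_pow_left₀ (abs_nonneg _) (hL v) 2) (sq_nonneg s)
        linarith
      have h5 := P.ce_mono (X := W) h4 w
      rw [P.ce_add W (fun v => 1 + s * h v) (fun _ => s ^ 2 * Lam ^ 2), P.ce_add W (fun _ => 1) (fun v => s * h v),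
        P.ce_const W _ hp, P.ce_const W _ hp, P.ce_smul] at h5
      have h6 := Real.add_one_le_exp (s * P.ce W h w + s ^ 2 * Lam ^ 2)
      linarith
    have h0 : 0 < P.ce W (fun v => Real.exp (s * h v)) w := by
      unfold FP.ce
      refine div_pos ?_ (P.m_pos W hp)
      have h8 : 0 < P.p w * (ind (W w = W w) * Real.exp (s * h w)) := by
        rw [ind_of rfl, one_mul]
        exact mul_pos (lt_of_le_of_ne (P.nn w) (Ne.symm hp)) (Real.exp_pos _)
      refine lt_of_lt_of_le h8 ?_
      exact Finset.single_le_sum (f := fun v => P.p v * (ind (W v = W w) * Real.exp (s * h v)))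
        (fun v _ => mul_nonneg (P.nn v) (mul_nonneg (ind_nonneg _) (Real.exp_pos _).le)) (mem_univ w)
    have h9 := Real.log_le_log h0 h3
    rwa [Real.log_exp] at h9
  have e1 : Q.E (fun w => s * P.ce W h w + s ^ 2 * Lam ^ 2) = s * Q.E (P.ce W h) + s ^ 2 * Lam ^ 2 := by
    rw [FP.E_add, FP.E_smul, FP.E_const]
  have e2 : Q.E (fun w => s * h w) = s * Q.E h := Q.E_smul s h
  have e3 : Q.E (fun w => h w - P.ce W h w) = Q.E h - Q.E (P.ce W h) := Q.E_sub h (P.ce W h)
  rw [e3, mul_sub]
  linarith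

/-- one side -/
theorem dev_klc_le (hac : Q.Ac P) {Y : Om → κ} {W : Om → ι} {h : Om → ℝ} (hh : Fac (fun w => (Y w, W w)) h)
    {Lam : ℝ} (hL0 : 0 ≤ Lam) (hL : ∀ w, |h w| ≤ Lam) :
    Q.E (fun w => h w - P.ce W h w) ≤ 2 * Lam * Real.sqrt (Q.klc P Y W) := by
  set k := Q.klc P Y W with hk
  have hk0 : 0 ≤ k := klc_nonneg hac Y W
  rcases hL0.eq_or_lt with h0 | hpos
  · have h1 : ∀ w, h w = 0 := fun w => abs_nonpos_iff.1 (by rw [h0]; exact hL w)
    have h2 : Q.E (fun w => h w - P.ce W h w) = 0 := by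
      rw [Q.E_congr (g := fun _ => 0) fun w hw => ?_, FP.E_const]
      have : P.ce W h w = 0 := by
        have e : h = fun _ => 0 := funext h1
        rw [e]
        exact P.ce_const W 0 (hac w hw)
      rw [this, h1 w, sub_zero]
    rw [h2, ← h0]; simp
  by_cases h1 : 1 ≤ k
  · -- trivial bound
    have h2 : Q.E (fun w => h w - P.ce W h w) ≤ 2 * Lam := by
      refine Q.E_le_const fun w hw => ?_
      have a := (abs_le.1 (hL w)).2
      have b : |P.ce W h w| ≤ Lam := by
        refine (P.abs_ce_le W h w).trans ?_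
        exact P.ce_le_const (fun v _ => hL v) (hac w hw)
      have c := (abs_le.1 b).1
      linarith
    have h3 : 1 ≤ Real.sqrt k := by
      rw [show (1 : ℝ) = Real.sqrt 1 by simp]
      exact Real.sqrt_le_sqrt h1
    nlinarith
  · rw [not_le] at h1
    rcases hk0.eq_or_lt with hz | hkp
    · -- zero entropy
      rw [← hz, Real.sqrt_zero, mul_zero]
      by_contra hcon
      push Not at hcon
      set D := Q.E (fun w => h w - P.ce W h w) with hD
      set s : ℝ := min (1 / Lam) (D / (2 * Lam ^ 2)) with hs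
      have hs0 : 0 < s := lt_min (by positivity) (by positivity)
      have hs1 : s * Lam ≤ 1 := by
        have := mul_le_mul_of_nonneg_right (min_le_left (1 / Lam) (D / (2 * Lam ^ 2))) hpos.le
        rwa [one_div_mul_cancel hpos.ne'] at this
      have h2 := dev_klc_aux hac hh hL hs0.le hs1
      rw [← hk, ← hz, zero_add, ← hD] at h2
      have h3 : s ^ 2 * Lam ^ 2 ≤ s * (D / 2) := by
        have h4 : s ≤ D / (2 * Lam ^ 2) := min_le_right _ _
        have h5 : s * Lam ^ 2 ≤ D / 2 := by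
          have := mul_le_mul_of_nonneg_right h4 (show 0 ≤ Lam ^ 2 by positivity)
          have e : D / (2 * Lam ^ 2) * Lam ^ 2 = D / 2 := by field_simp
          rwa [e] at this
        have h6 := mul_le_mul_of_nonneg_left h5 hs0.le
        calc s ^ 2 * Lam ^ 2 = s * (s * Lam ^ 2) := by ring
          _ ≤ s * (D / 2) := h6
      have h7 : s * D ≤ s * (D / 2) := h2.trans h3
      have h8 := le_of_mul_le_mul_left h7 hs0
      linarith
    · set s : ℝ := Real.sqrt k / Lam with hs
      have hsk : 0 < Real.sqrt k := Real.sqrt_pos.2 hkp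
      have hs0 : 0 < s := div_pos hsk hpos
      have hs1 : s * Lam ≤ 1 := by
        rw [hs, div_mul_cancel₀ _ hpos.ne']
        rw [show (1 : ℝ) = Real.sqrt 1 by simp]
        exact Real.sqrt_le_sqrt h1.le
      have h2 := dev_klc_aux hac hh hL hs0.le hs1
      have h3 : k + s ^ 2 * Lam ^ 2 = s * (2 * Lam * Real.sqrt k) := by
        have e := Real.mul_self_sqrt hk0
        rw [hs]
        field_simp
        nlinarith
      rw [← hk, h3] at h2
      exact le_of_mul_le_mul_left h2 hs0

/-- **deviation of a mean from the conditional mean of the reference law** -/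
theorem dev_klc (hac : Q.Ac P) {Y : Om → κ} {W : Om → ι} {h : Om → ℝ} (hh : Fac (fun w => (Y w, W w)) h)
    {Lam : ℝ} (hL0 : 0 ≤ Lam) (hL : ∀ w, |h w| ≤ Lam) :
    |Q.E (fun w => h w - P.ce W h w)| ≤ 2 * Lam * Real.sqrt (Q.klc P Y W) := by
  rw [abs_le]
  refine ⟨?_, dev_klc_le hac hh hL0 hL⟩
  have h1 := dev_klc_le hac (h := fun w => - h w) (hh.comp (fun x => - x)) hL0 (fun w => by rw [abs_neg]; exact hL w)
  have e : Q.E (fun w => - h w - P.ce W (fun w => - h w) w) = - Q.E (fun w => h w - P.ce W h w) := by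
    rw [← FP.E_neg]
    refine Q.E_congr fun w _ => ?_
    rw [P.ce_neg]
    ring
  rw [e] at h1
  linarith

/-- **RELATIVE PRICE** of replacing an event by its conditional probability given `W` -/
theorem price_event {xi : Om → Prop} {Y : Om → κ} {W : Om → ι} {h : Om → ℝ} (hh : Fac (fun w => (Y w, W w)) h)
    {Lam : ℝ} (hL0 : 0 ≤ Lam) (hL : ∀ w, |h w| ≤ Lam) (h0 : P.Pr xi ≠ 0) :
    |P.E (fun w => P.ce W (fun v => ind (xi v)) w * h w) - P.E (fun w => ind (xi w) * h w)| ≤
      2 * Lam * (P.Pr xi * Real.sqrt ((P.cond xi).klc P Y W)) := by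
  have e1 : P.E (fun w => P.ce W (fun v => ind (xi v)) w * h w) = P.E (fun w => ind (xi w) * P.ce W h w) := by
    have a := P.E_mul_ce (P.ce_fac W (fun v => ind (xi v))) h
    have b := P.E_mul_ce (P.ce_fac W h) (fun v => ind (xi v))
    rw [← a]
    calc P.E (fun w => P.ce W (fun v => ind (xi v)) w * P.ce W h w)
        = P.E (fun w => P.ce W h w * P.ce W (fun v => ind (xi v)) w) := P.E_congr fun w _ => mul_comm _ _
      _ = P.E (fun w => P.ce W h w * ind (xi w)) := b
      _ = _ := P.E_congr fun w _ => mul_comm _ _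
  have e2 : P.E (fun w => ind (xi w) * P.ce W h w) - P.E (fun w => ind (xi w) * h w) =
      - (P.Pr xi * (P.cond xi).E (fun w => h w - P.ce W h w)) := by
    rw [FP.Pr_mul_cond_E h0, ← FP.E_sub, ← FP.E_neg]
    exact P.E_congr fun w _ => by ring
  rw [e1, e2, abs_neg, abs_mul, abs_of_nonneg (P.Pr_nonneg xi)]
  have h1 := mul_le_mul_of_nonneg_left (dev_klc (FP.cond_ac P xi) hh hL0 hL) (P.Pr_nonneg xi)
  refine h1.trans (le_of_eq ?_)
  ring

/-- the price with the saturation inside the event -/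
theorem price_event_le {xi : Om → Prop} {Y : Om → κ} {W : Om → ι} {h : Om → ℝ} (hh : Fac (fun w => (Y w, W w)) h)
    {Lam B : ℝ} (hL0 : 0 ≤ Lam) (hL : ∀ w, |h w| ≤ Lam) (hB : P.Pr xi ≠ 0 → (P.cond xi).klc P Y W ≤ B) :
    |P.E (fun w => P.ce W (fun v => ind (xi v)) w * h w) - P.E (fun w => ind (xi w) * h w)| ≤
      2 * Lam * (P.Pr xi * Real.sqrt B) := by
  by_cases h0 : P.Pr xi = 0
  · have hz : ∀ w, P.p w ≠ 0 → ¬ xi w := fun w hw hx => (FP.Pr_pos_of hw hx).ne' h0
    have e1 : P.E (fun w => ind (xi w) * h w) = 0 := by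
      rw [P.E_congr (g := fun _ => 0) fun w hw => by rw [ind_not (hz w hw), zero_mul], FP.E_const]
    have e2 : P.E (fun w => P.ce W (fun v => ind (xi v)) w * h w) = 0 := by
      rw [P.E_congr (g := fun _ => 0) fun w hw => ?_, FP.E_const]
      have : P.ce W (fun v => ind (xi v)) w = 0 := by
        rw [P.ce_congr (g := fun _ => 0) (fun v hv => by rw [ind_not (hz v hv)]), P.ce_const W 0 hw]
      rw [this, zero_mul]
    rw [e1, e2, sub_zero, abs_zero, h0, zero_mul, mul_zero]
  · refine (price_event hh hL0 hL h0).trans ?_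
    refine mul_le_mul_of_nonneg_left ?_ (by positivity)
    exact mul_le_mul_of_nonneg_left (Real.sqrt_le_sqrt (hB h0)) (P.Pr_nonneg _)

end relp

end Pool.Agent.GMH
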