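import Pool.Agent.GMH.RelS
import Pool.Agent.GMH.RelP
import Pool.Agent.GMH.AntiHot

/-!
# GMH.DevL: deviation of a test function of the tops inside an event (helper89; H3.REL R.5)

`Q << P` laws on one space, `F i` the tops (three of them), `W` all lower letters, `Zb i` the own lower letters of `F i`.
* `tvp Q P X Y Z`, `klp Q P X Y Z` : total variation and relative entropy of the law of `X` under `Q` given `Y` and under `P`
  given `Z`; `tvp_sq`, `E_klp : Q.E klp = Q.klc P X Z + Q.I X Y Z`, `E_al_tvp`, `E_al_tvp_le`;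
* `tvp_trunc` : truncated letters;
* `hbar` : mean of the test function against the product of the own laws;
* `swap_three` : the chain of swaps, `|E_Q al (h - hbar)| <= ` sum of the three mean total variations `Sw3`;
* `TV3`, `TV3_le` : the tuple law given `W` against the product;
* `dev_class` : **the deviation** `|E_P 1_C 1_E al (g - P(g | W))| <= P(C, E) (Sw3 (P_CE) + Sw3 (P_C) + del)`.
-/

set_option autoImplicit false
set_option linter.unusedSectionVars false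

namespace Pool.Agent.GMH

open Finset Pool.Agent.PWZ Pool.Agent.M3

noncomputable section

section tvp

variable {Om : Type*} [Fintype Om] {κ κ' ι ι' ζ ζ' : Type*} (Q P : FP Om)

/-- total variation of the laws of `X` under `Q` given `Y` and under `P` given `Z` -/
def tvp (X : Om → κ) (Y : Om → ι) (Z : Om → ζ) (w : Om) : ℝ := ∑ f ∈ vals X, |Q.pv Y X w f - P.pv Z X w f|

/-- relative entropy of these laws -/
def klp (X : Om → κ) (Y : Om → ι) (Z : Om → ζ) (w : Om) : ℝ :=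
  ∑ f ∈ vals X, Q.pv Y X w f * Real.log (Q.pv Y X w f / P.pv Z X w f)

variable {Q P} {X : Om → κ} {Y : Om → ι} {Z : Om → ζ}

theorem tvp_nonneg (w : Om) : 0 ≤ tvp Q P X Y Z w := Finset.sum_nonneg fun _ _ => abs_nonneg _

theorem tvp_fac (hYZ : Fac Y Z) : Fac Y (tvp Q P X Y Z) := by
  intro v w hvw
  unfold tvp
  refine Finset.sum_congr rfl fun f _ => ?_
  have h1 : Q.pv Y X v f = Q.pv Y X w f := Q.pv_fac Y X f v w hvw
  have h2 : P.pv Z X v f = P.pv Z X w f := P.pv_fac Z X f v w (hYZ v w hvw)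
  rw [h1, h2]

theorem pv_num (P : FP Om) (Z : Om → ζ) (X : Om → κ) (w : Om) (f : κ) :
    P.pv Z X w f = P.E (fun v => ind (Z v = Z w) * ind (X v = f)) / P.m Z w := rfl

/-- absolute continuity -/
theorem pv_acQ (hac : Q.Ac P) (hYZ : Fac Y Z) {w : Om} (hw : Q.p w ≠ 0) {f : κ} (h : P.pv Z X w f = 0) :
    Q.pv Y X w f = 0 := by
  have hm := (P.m_pos Z (hac w hw)).ne'
  rw [pv_num, div_eq_zero_iff] at h
  have h0 := h.resolve_right hm
  rw [pv_num]
  have h1 : ∀ v, P.p v ≠ 0 → Z v = Z w → X v ≠ f := by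
    intro v hv hz hx
    have h2 : P.p v * (ind (Z v = Z w) * ind (X v = f)) ≤ P.E (fun v => ind (Z v = Z w) * ind (X v = f)) :=
      Finset.single_le_sum (f := fun v => P.p v * (ind (Z v = Z w) * ind (X v = f)))
        (fun v _ => mul_nonneg (P.nn v) (mul_nonneg (ind_nonneg _) (ind_nonneg _))) (mem_univ v)
    rw [ind_of hz, ind_of hx, h0, mul_one, mul_one] at h2
    exact hv (le_antisymm h2 (P.nn v))
  have h2 : Q.E (fun v => ind (Y v = Y w) * ind (X v = f)) = Q.E (fun _ => 0) := by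
    refine Q.E_congr fun v hv => ?_
    by_cases hy : Y v = Y w
    · rw [ind_not (h1 v (hac v hv) (hYZ v w hy)), mul_zero]
    · rw [ind_not hy, zero_mul]
  rw [h2, Q.E_const, zero_div]

theorem tvp_sq (hac : Q.Ac P) (hYZ : Fac Y Z) {w : Om} (hw : Q.p w ≠ 0) :
    tvp Q P X Y Z w ^ 2 ≤ 2 * klp Q P X Y Z w :=
  pinsker_abs (vals X) (fun _ _ => Q.pv_nonneg _ _ _ _) (fun _ _ => P.pv_nonneg _ _ _ _) (Q.pv_sum Y X hw)
    (P.pv_sum Z X (hac w hw)) fun _ _ h => pv_acQ hac hYZ hw h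

theorem klp_nonneg (hac : Q.Ac P) (hYZ : Fac Y Z) {w : Om} (hw : Q.p w ≠ 0) : 0 ≤ klp Q P X Y Z w := by
  have := tvp_sq (X := X) hac hYZ hw
  nlinarith [sq_nonneg (tvp Q P X Y Z w)]

/-- **the mean relative entropy** -/
theorem E_klp (hac : Q.Ac P) (hYZ : Fac Y Z) : Q.E (klp Q P X Y Z) = Q.klc P X Z + Q.I X Y Z := by
  have h1 : ∀ w, klp Q P X Y Z w = Q.ce Y (fun u => Real.log (Q.pv Y X u (X u) / P.pv Z X u (X u))) w := by
    intro w
    refine Q.sum_pv (W := Y) X (F := fun w f => Real.log (Q.pv Y X w f / P.pv Z X w f)) (fun f v w hvw => ?_) w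
    have h1 : Q.pv Y X v f = Q.pv Y X w f := Q.pv_fac Y X f v w hvw
    have h2 : P.pv Z X v f = P.pv Z X w f := P.pv_fac Z X f v w (hYZ v w hvw)
    show Real.log (Q.pv Y X v f / P.pv Z X v f) = Real.log (Q.pv Y X w f / P.pv Z X w f)
    rw [h1, h2]
  rw [Q.E_congr (fun w _ => h1 w), Q.E_ce, FP.I_eq_E_log]
  unfold FP.klc
  rw [← FP.E_add]
  refine Q.E_congr fun w hw => ?_
  have hp := hac w hw
  rw [Q.pv_self, P.pv_self]
  have e1 : Q.m (fun v => (X v, Y v, Z v)) w = Q.m (fun v => (X v, Y v)) w :=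
    Q.m_congr (fun a b h => by simp only [Prod.mk.injEq] at h ⊢; exact ⟨h.1, h.2.1⟩)
      (fun a b h => by simp only [Prod.mk.injEq] at h ⊢; exact ⟨h.1, h.2, hYZ a b h.2⟩) w
  have e2 : Q.m (fun v => (Y v, Z v)) w = Q.m Y w :=
    Q.m_congr (Fac.fst _ _) ((Fac.refl _).prod hYZ) w
  rw [e1, e2]
  have a := (Q.m_pos (fun v => (X v, Y v)) hw).ne'
  have b := (Q.m_pos Y hw).ne'
  have c := (Q.m_pos (fun v => (X v, Z v)) hw).ne'
  have d := (Q.m_pos Z hw).ne'
  have e := (P.m_pos (fun v => (X v, Z v)) hp).ne'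
  have f := (P.m_pos Z hp).ne'
  rw [← Real.log_mul (div_ne_zero (div_ne_zero c d) (div_ne_zero e f)) (div_ne_zero (mul_ne_zero a d) (mul_ne_zero c b))]
  congr 1
  field_simp

theorem E_al_tvp (hac : Q.Ac P) (hYZ : Fac Y Z) {al : Om → ℝ} (h0 : ∀ w, 0 ≤ al w) (h1 : ∀ w, al w ≤ 1) :
    Q.E (fun w => al w * tvp Q P X Y Z w) ≤ Real.sqrt (2 * Q.E (fun w => al w * klp Q P X Y Z w)) := by
  have h2 : Q.E (fun w => al w * tvp Q P X Y Z w) ≤ Q.E (fun w => Real.sqrt (2 * (al w * klp Q P X Y Z w))) := by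
    refine Q.E_mono fun w hw => Real.le_sqrt_of_sq_le ?_
    have h3 := tvp_sq (X := X) hac hYZ hw
    have h4 : al w ^ 2 ≤ al w := by nlinarith [h0 w, h1 w]
    have h5 : (al w * tvp Q P X Y Z w) ^ 2 = al w ^ 2 * tvp Q P X Y Z w ^ 2 := by ring
    rw [h5]
    have h6 := mul_le_mul_of_nonneg_right h4 (sq_nonneg (tvp Q P X Y Z w))
    have h7 := mul_le_mul_of_nonneg_left h3 (h0 w)
    linarith
  refine h2.trans ((E_sqrt_le Q fun w hw => ?_).trans (le_of_eq ?_))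
  · exact mul_nonneg (by norm_num) (mul_nonneg (h0 w) (klp_nonneg hac hYZ hw))
  · rw [FP.E_smul]

/-- from the saturation -/
theorem E_al_tvp_le (hac : Q.Ac P) (hYZ : Fac Y Z) {al : Om → ℝ} (h0 : ∀ w, 0 ≤ al w) (h1 : ∀ w, al w ≤ 1) {kap : ℝ}
    (hk : Q.klc P X Z + Q.I X Y Z ≤ kap) : Q.E (fun w => al w * tvp Q P X Y Z w) ≤ Real.sqrt (2 * kap) := by
  refine (E_al_tvp hac hYZ h0 h1).trans (Real.sqrt_le_sqrt ?_)
  have h2 : Q.E (fun w => al w * klp Q P X Y Z w) ≤ Q.E (klp Q P X Y Z) := by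
    refine Q.E_mono fun w hw => ?_
    have := klp_nonneg (X := X) hac hYZ hw
    have h3 := mul_le_mul_of_nonneg_right (h1 w) this
    linarith
  rw [E_klp hac hYZ] at h2
  linarith

/-- the same on a set on which `al` lives -/
theorem E_al_tvp_set (hac : Q.Ac P) {al : Om → ℝ} (h0 : ∀ w, 0 ≤ al w) (h1 : ∀ w, al w ≤ 1)
    {X' : Om → κ'} {Y' : Om → ι'} {Z' : Om → ζ'} (hYZ' : Fac Y' Z')
    (heq : ∀ w, Q.p w ≠ 0 → al w ≠ 0 → tvp Q P X Y Z w = tvp Q P X' Y' Z' w) {kap : ℝ}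
    (hk : Q.klc P X' Z' + Q.I X' Y' Z' ≤ kap) : Q.E (fun w => al w * tvp Q P X Y Z w) ≤ Real.sqrt (2 * kap) := by
  refine le_trans (le_of_eq ?_) (E_al_tvp_le (X := X') hac hYZ' h0 h1 hk)
  refine Q.E_congr fun w hw => ?_
  by_cases h : al w = 0
  · rw [h, zero_mul, zero_mul]
  · rw [heq w hw h]

/-- **truncated letters** : at a point where the fibres agree and `X'` is an injective image of `X` on the fibre of `Z` -/
theorem tvp_trunc {X' : Om → κ'} {Y' : Om → ι'} {Z' : Om → ζ'} (hac : Q.Ac P) (hYZ : Fac Y Z) {w : Om}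
    (hz : ∀ v, P.p v ≠ 0 → (Z v = Z w ↔ Z' v = Z' w)) (hy : ∀ v, Q.p v ≠ 0 → (Y v = Y w ↔ Y' v = Y' w))
    {e : κ → κ'} (he : Function.Injective e) (hx : ∀ v, P.p v ≠ 0 → Z v = Z w → X' v = e (X v)) :
    tvp Q P X Y Z w = tvp Q P X' Y' Z' w := by
  classical
  have hp : ∀ f, P.pv Z X w f = P.pv Z' X' w (e f) := by
    intro f
    rw [pv_num, pv_num]
    have h1 : P.m Z w = P.m Z' w := P.E_congr fun v hv => by rw [propext (hz v hv)]
    rw [h1]
    congr 1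
    refine P.E_congr fun v hv => ?_
    by_cases h2 : Z v = Z w
    · rw [ind_of h2, ind_of ((hz v hv).1 h2), hx v hv h2]
      congr 2
      exact propext ⟨fun h => by rw [h], fun h => he h⟩
    · rw [ind_not h2, ind_not (fun h => h2 ((hz v hv).2 h)), zero_mul, zero_mul]
  have hq : ∀ f, Q.pv Y X w f = Q.pv Y' X' w (e f) := by
    intro f
    rw [pv_num, pv_num]
    have h1 : Q.m Y w = Q.m Y' w := Q.E_congr fun v hv => by rw [propext (hy v hv)]
    rw [h1]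
    congr 1
    refine Q.E_congr fun v hv => ?_
    by_cases h2 : Y v = Y w
    · rw [ind_of h2, ind_of ((hy v hv).1 h2), hx v (hac v hv) (hYZ v w h2)]
      congr 2
      exact propext ⟨fun h => by rw [h], fun h => he h⟩
    · rw [ind_not h2, ind_not (fun h => h2 ((hy v hv).2 h)), zero_mul, zero_mul]
  have hp0 : ∀ f', f' ∉ (vals X).image e → P.pv Z' X' w f' = 0 := by
    intro f' hf
    rw [pv_num]
    have h2 : P.E (fun v => ind (Z' v = Z' w) * ind (X' v = f')) = P.E (fun _ => 0) := by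
      refine P.E_congr fun v hv => ?_
      by_cases h2 : Z' v = Z' w
      · rw [ind_not (p := X' v = f') (fun h => hf ?_), mul_zero]
        rw [← h, hx v hv ((hz v hv).2 h2)]
        exact Finset.mem_image_of_mem e (FP.mem_vals X v)
      · rw [ind_not h2, zero_mul]
    rw [h2, P.E_const, zero_div]
  have hq0 : ∀ f', f' ∉ (vals X).image e → Q.pv Y' X' w f' = 0 := by
    intro f' hf
    rw [pv_num]
    have h2 : Q.E (fun v => ind (Y' v = Y' w) * ind (X' v = f')) = Q.E (fun _ => 0) := by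
      refine Q.E_congr fun v hv => ?_
      by_cases h2 : Y' v = Y' w
      · rw [ind_not (p := X' v = f') (fun h => hf ?_), mul_zero]
        rw [← h, hx v (hac v hv) (hYZ v w ((hy v hv).2 h2))]
        exact Finset.mem_image_of_mem e (FP.mem_vals X v)
      · rw [ind_not h2, zero_mul]
    rw [h2, Q.E_const, zero_div]
  unfold tvp
  have s1 : ∑ f ∈ vals X, |Q.pv Y X w f - P.pv Z X w f| =
      ∑ f' ∈ (vals X).image e, |Q.pv Y' X' w f' - P.pv Z' X' w f'| := by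
    rw [Finset.sum_image (fun a _ b _ hab => he hab)]
    exact Finset.sum_congr rfl fun f _ => by rw [hp f, hq f]
  have s2 : ∑ f' ∈ (vals X).image e, |Q.pv Y' X' w f' - P.pv Z' X' w f'| =
      ∑ f' ∈ (vals X).image e ∪ vals X', |Q.pv Y' X' w f' - P.pv Z' X' w f'| :=
    Finset.sum_subset Finset.subset_union_left fun f' _ hf => by rw [hp0 f' hf, hq0 f' hf, sub_zero, abs_zero]
  have s3 : ∑ f' ∈ vals X', |Q.pv Y' X' w f' - P.pv Z' X' w f'| =
      ∑ f' ∈ (vals X).image e ∪ vals X', |Q.pv Y' X' w f' - P.pv Z' X' w f'| :=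
    Finset.sum_subset Finset.subset_union_right fun f' _ hf => by
      rw [pv_out Q Y' X' w hf, pv_out P Z' X' w hf, sub_zero, abs_zero]
  rw [s1, s2, s3]

/-- **one swap** -/
theorem swap_one {al : Om → ℝ} (hal : Fac Y al) (h0 : ∀ w, 0 ≤ al w) {g : Om → κ → ℝ}
    (hg : ∀ f, Fac Y (fun w => g w f)) (hb : ∀ w, Q.p w ≠ 0 → ∀ f, |g w f| ≤ 1) :
    |Q.E (fun w => al w * g w (X w)) - Q.E (fun w => al w * ∑ f ∈ vals X, P.pv Z X w f * g w f)| ≤
      Q.E (fun w => al w * tvp Q P X Y Z w) := by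
  have e1 : Q.E (fun w => al w * g w (X w)) = Q.E (fun w => al w * ∑ f ∈ vals X, Q.pv Y X w f * g w f) := by
    rw [← Q.E_mul_ce hal (fun w => g w (X w))]
    refine Q.E_congr fun w _ => ?_
    rw [← Q.sum_pv (W := Y) X hg w]
  rw [e1, ← Q.E_sub]
  have key : ∀ w, Q.p w ≠ 0 → |al w * ∑ f ∈ vals X, Q.pv Y X w f * g w f - al w * ∑ f ∈ vals X, P.pv Z X w f * g w f| ≤
      al w * tvp Q P X Y Z w := by
    intro w hw
    rw [← mul_sub, ← Finset.sum_sub_distrib, abs_mul, abs_of_nonneg (h0 w)]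
    refine mul_le_mul_of_nonneg_left ((Finset.abs_sum_le_sum_abs _ _).trans (Finset.sum_le_sum fun f _ => ?_)) (h0 w)
    rw [← sub_mul, abs_mul]
    have := mul_le_mul_of_nonneg_left (hb w hw f) (abs_nonneg (Q.pv Y X w f - P.pv Z X w f))
    linarith
  rw [abs_le, ← Q.E_neg]
  exact ⟨Q.E_mono fun w hw => (abs_le.1 (key w hw)).1, Q.E_mono fun w hw => (abs_le.1 (key w hw)).2⟩

end tvp

section three

variable {Om : Type*} [Fintype Om] {I φ α ι : Type*} [Fintype I] [DecidableEq I]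

/-- three letters as a tuple -/
def mk3 (i1 i2 : I) (x1 x2 x3 : φ) (i : I) : φ := if i = i1 then x1 else if i = i2 then x2 else x3

variable {i1 i2 i3 : I}

theorem mk3_1 (x1 x2 x3 : φ) : mk3 i1 i2 x1 x2 x3 i1 = x1 := if_pos rfl

theorem mk3_2 (h12 : i1 ≠ i2) (x1 x2 x3 : φ) : mk3 i1 i2 x1 x2 x3 i2 = x2 := by
  unfold mk3
  rw [if_neg h12.symm, if_pos rfl]

theorem mk3_3 (h13 : i1 ≠ i3) (h23 : i2 ≠ i3) (x1 x2 x3 : φ) : mk3 i1 i2 x1 x2 x3 i3 = x3 := by
  unfold mk3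
  rw [if_neg h13.symm, if_neg h23.symm]

theorem mk3_eta (h12 : i1 ≠ i2) (h13 : i1 ≠ i3) (h23 : i2 ≠ i3) (hI : ∀ i, i = i1 ∨ i = i2 ∨ i = i3) (f : I → φ) :
    mk3 i1 i2 (f i1) (f i2) (f i3) = f := by
  funext i
  rcases hI i with rfl | rfl | rfl
  · exact mk3_1 _ _ _
  · exact mk3_2 h12 _ _ _
  · exact mk3_3 h13 h23 _ _ _

theorem sum_let3 (h12 : i1 ≠ i2) (h13 : i1 ≠ i3) (h23 : i2 ≠ i3) (hI : ∀ i, i = i1 ∨ i = i2 ∨ i = i3) (F : I → Om → φ)
    (G : (I → φ) → ℝ) : ∑ f ∈ let_ F, G f =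
      ∑ x1 ∈ vals (F i1), ∑ x2 ∈ vals (F i2), ∑ x3 ∈ vals (F i3), G (mk3 i1 i2 x1 x2 x3) := by
  have e : ∑ x1 ∈ vals (F i1), ∑ x2 ∈ vals (F i2), ∑ x3 ∈ vals (F i3), G (mk3 i1 i2 x1 x2 x3) =
      ∑ p ∈ vals (F i1) ×ˢ (vals (F i2) ×ˢ vals (F i3)), G (mk3 i1 i2 p.1 p.2.1 p.2.2) := by
    rw [Finset.sum_product]
    exact Finset.sum_congr rfl fun x1 _ => by rw [Finset.sum_product]
  rw [e]
  refine Finset.sum_nbij' (fun f => (f i1, f i2, f i3)) (fun p => mk3 i1 i2 p.1 p.2.1 p.2.2) ?_ ?_ ?_ ?_ ?_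
  · intro f hf
    have h := Fintype.mem_piFinset.1 hf
    exact Finset.mem_product.2 ⟨h i1, Finset.mem_product.2 ⟨h i2, h i3⟩⟩
  · intro p hp
    have h1 := Finset.mem_product.1 hp
    have h2 := Finset.mem_product.1 h1.2
    refine Fintype.mem_piFinset.2 fun i => ?_
    rcases hI i with rfl | rfl | rfl
    · rw [mk3_1]; exact h1.1
    · rw [mk3_2 h12]; exact h2.1
    · rw [mk3_3 h13 h23]; exact h2.2
  · intro f _
    exact mk3_eta h12 h13 h23 hI f
  · intro p _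
    simp only [mk3_1, mk3_2 h12, mk3_3 h13 h23]
  · intro f _
    rw [mk3_eta h12 h13 h23 hI f]

theorem prod3 (h12 : i1 ≠ i2) (h13 : i1 ≠ i3) (h23 : i2 ≠ i3) (hI : ∀ i, i = i1 ∨ i = i2 ∨ i = i3) (q : I → ℝ) :
    ∏ i, q i = q i1 * (q i2 * q i3) := by
  have e : (univ : Finset I) = {i1, i2, i3} := by
    ext i
    simp only [Finset.mem_univ, Finset.mem_insert, Finset.mem_singleton, true_iff]
    exact hI i
  rw [e, Finset.prod_insert (by simp [h12, h13]), Finset.prod_insert (by simp [h23]), Finset.prod_singleton]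

/-- mean of the test function against the product of the own laws -/
def hbar (P : FP Om) (Zb : I → Om → α) (F : I → Om → φ) (h : Om → (I → φ) → ℝ) (w : Om) : ℝ :=
  ∑ f ∈ let_ F, (∏ i, P.pv (Zb i) (F i) w (f i)) * h w f

/-- the three swaps -/
def Sw3 (Q P : FP Om) (Zb : I → Om → α) (F : I → Om → φ) (W : Om → ι) (al : Om → ℝ) (i1 i2 i3 : I) : ℝ :=
  Q.E (fun w => al w * tvp Q P (F i1) W (Zb i1) w) +
    Q.E (fun w => al w * tvp Q P (F i2) (fun w => (F i1 w, W w)) (Zb i2) w) +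
    Q.E (fun w => al w * tvp Q P (F i3) (fun w => (F i2 w, F i1 w, W w)) (Zb i3) w)

/-- the law of the tuple given `W` against the product -/
def TV3 (P : FP Om) (Zb : I → Om → α) (F : I → Om → φ) (W : Om → ι) (w : Om) : ℝ :=
  ∑ f ∈ let_ F, |P.pv W (tup F) w f - ∏ i, P.pv (Zb i) (F i) w (f i)|

variable {Q P : FP Om} {Zb : I → Om → α} {F : I → Om → φ} {W : Om → ι} {al : Om → ℝ}

theorem pv_abs_sum {κ ζ : Type*} {X : Om → κ} {Z : Om → ζ} {w : Om} (hw : P.p w ≠ 0) {g : κ → ℝ} (hg : ∀ x, |g x| ≤ 1) :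
    |∑ x ∈ vals X, P.pv Z X w x * g x| ≤ 1 := by
  refine (Finset.abs_sum_le_sum_abs _ _).trans ?_
  rw [← P.pv_sum Z X hw]
  refine Finset.sum_le_sum fun x _ => ?_
  rw [abs_mul, abs_of_nonneg (P.pv_nonneg _ _ _ _)]
  exact mul_le_of_le_one_right (P.pv_nonneg _ _ _ _) (hg x)

/-- **THE CHAIN OF SWAPS** -/
theorem swap_three (hac : Q.Ac P) (h12 : i1 ≠ i2) (h13 : i1 ≠ i3) (h23 : i2 ≠ i3) (hI : ∀ i, i = i1 ∨ i = i2 ∨ i = i3)
    (hZ : ∀ i, Fac W (Zb i)) (hal : Fac W al) (h0 : ∀ w, 0 ≤ al w) {h : Om → (I → φ) → ℝ}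
    (hh : ∀ f, Fac W (fun w => h w f)) (hb : ∀ w f, |h w f| ≤ 1) :
    |Q.E (fun w => al w * h w (tup F w)) - Q.E (fun w => al w * hbar P Zb F h w)| ≤ Sw3 Q P Zb F W al i1 i2 i3 := by
  set q : I → Om → φ → ℝ := fun i w x => P.pv (Zb i) (F i) w x with hq
  have qf : ∀ i x, Fac W (fun w => q i w x) := fun i x v w hvw => P.pv_fac (Zb i) (F i) x v w (hZ i v w hvw)
  set g3 : Om → φ → ℝ := fun w x3 => h w (mk3 i1 i2 (F i1 w) (F i2 w) x3) with hg3
  set g2 : Om → φ → ℝ := fun w x2 => ∑ x3 ∈ vals (F i3), q i3 w x3 * h w (mk3 i1 i2 (F i1 w) x2 x3) with hg2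
  set g1 : Om → φ → ℝ := fun w x1 => ∑ x2 ∈ vals (F i2), q i2 w x2 *
    ∑ x3 ∈ vals (F i3), q i3 w x3 * h w (mk3 i1 i2 x1 x2 x3) with hg1
  have f3 : ∀ x, Fac (fun w => (F i2 w, F i1 w, W w)) (fun w => g3 w x) := by
    intro x v w hvw
    simp only [Prod.mk.injEq] at hvw
    show h v (mk3 i1 i2 (F i1 v) (F i2 v) x) = h w (mk3 i1 i2 (F i1 w) (F i2 w) x)
    rw [hvw.1, hvw.2.1]
    exact hh _ v w hvw.2.2
  have f2 : ∀ x, Fac (fun w => (F i1 w, W w)) (fun w => g2 w x) := by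
    intro x v w hvw
    simp only [Prod.mk.injEq] at hvw
    show ∑ x3 ∈ vals (F i3), q i3 v x3 * h v (mk3 i1 i2 (F i1 v) x x3) =
      ∑ x3 ∈ vals (F i3), q i3 w x3 * h w (mk3 i1 i2 (F i1 w) x x3)
    refine Finset.sum_congr rfl fun x3 _ => ?_
    have e1 : q i3 v x3 = q i3 w x3 := qf i3 x3 v w hvw.2
    have e2 : h v (mk3 i1 i2 (F i1 w) x x3) = h w (mk3 i1 i2 (F i1 w) x x3) := hh _ v w hvw.2
    rw [e1, hvw.1, e2]
  have f1 : ∀ x, Fac W (fun w => g1 w x) := by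
    intro x v w hvw
    show ∑ x2 ∈ vals (F i2), q i2 v x2 * ∑ x3 ∈ vals (F i3), q i3 v x3 * h v (mk3 i1 i2 x x2 x3) =
      ∑ x2 ∈ vals (F i2), q i2 w x2 * ∑ x3 ∈ vals (F i3), q i3 w x3 * h w (mk3 i1 i2 x x2 x3)
    refine Finset.sum_congr rfl fun x2 _ => ?_
    have e1 : q i2 v x2 = q i2 w x2 := qf i2 x2 v w hvw
    rw [e1]
    congr 1
    refine Finset.sum_congr rfl fun x3 _ => ?_
    have e3 : q i3 v x3 = q i3 w x3 := qf i3 x3 v w hvw
    have e2 : h v (mk3 i1 i2 x x2 x3) = h w (mk3 i1 i2 x x2 x3) := hh _ v w hvw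
    rw [e3, e2]
  have b3 : ∀ w, Q.p w ≠ 0 → ∀ x, |g3 w x| ≤ 1 := fun w _ x => hb w _
  have b2 : ∀ w, Q.p w ≠ 0 → ∀ x, |g2 w x| ≤ 1 := fun w hw x =>
    pv_abs_sum (P := P) (X := F i3) (Z := Zb i3) (hac w hw) fun x3 => hb w _
  have b1 : ∀ w, Q.p w ≠ 0 → ∀ x, |g1 w x| ≤ 1 := fun w hw x =>
    pv_abs_sum (P := P) (X := F i2) (Z := Zb i2) (hac w hw) fun x2 =>
      pv_abs_sum (P := P) (X := F i3) (Z := Zb i3) (hac w hw) fun x3 => hb w _
  have k3 := swap_one (P := P) (X := F i3) (Y := fun w => (F i2 w, F i1 w, W w)) (Z := Zb i3)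
    (((Fac.snd _ _).trans (Fac.snd _ _)).trans hal) h0 f3 b3
  have k2 := swap_one (P := P) (X := F i2) (Y := fun w => (F i1 w, W w)) (Z := Zb i2) ((Fac.snd _ _).trans hal) h0 f2 b2
  have k1 := swap_one (P := P) (X := F i1) (Y := W) (Z := Zb i1) hal h0 f1 b1
  have e3 : ∀ w, g3 w (F i3 w) = h w (tup F w) := by
    intro w
    show h w (mk3 i1 i2 (F i1 w) (F i2 w) (F i3 w)) = _
    rw [show mk3 i1 i2 (F i1 w) (F i2 w) (F i3 w) = tup F w from mk3_eta h12 h13 h23 hI (tup F w)]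
  have e0 : ∀ w, hbar P Zb F h w = ∑ x1 ∈ vals (F i1), q i1 w x1 * g1 w x1 := by
    intro w
    unfold hbar
    rw [sum_let3 h12 h13 h23 hI]
    refine Finset.sum_congr rfl fun x1 _ => ?_
    simp only [hg1]
    rw [Finset.mul_sum]
    refine Finset.sum_congr rfl fun x2 _ => ?_
    rw [Finset.mul_sum, Finset.mul_sum]
    refine Finset.sum_congr rfl fun x3 _ => ?_
    rw [prod3 h12 h13 h23 hI, mk3_1, mk3_2 h12, mk3_3 h13 h23]
    ring
  have z3 : Q.E (fun w => al w * g3 w (F i3 w)) = Q.E (fun w => al w * h w (tup F w)) :=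
    Q.E_congr fun w _ => by rw [e3 w]
  have z2 : Q.E (fun w => al w * ∑ x3 ∈ vals (F i3), P.pv (Zb i3) (F i3) w x3 * g3 w x3) =
      Q.E (fun w => al w * g2 w (F i2 w)) := rfl
  have z1 : Q.E (fun w => al w * ∑ x2 ∈ vals (F i2), P.pv (Zb i2) (F i2) w x2 * g2 w x2) =
      Q.E (fun w => al w * g1 w (F i1 w)) := rfl
  have z0 : Q.E (fun w => al w * ∑ x1 ∈ vals (F i1), P.pv (Zb i1) (F i1) w x1 * g1 w x1) =
      Q.E (fun w => al w * hbar P Zb F h w) := Q.E_congr fun w _ => by rw [e0 w]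
  rw [z3, z2] at k3
  rw [z1] at k2
  rw [z0] at k1
  have t1 := abs_sub_le (Q.E (fun w => al w * h w (tup F w))) (Q.E (fun w => al w * g2 w (F i2 w)))
    (Q.E (fun w => al w * hbar P Zb F h w))
  have t2 := abs_sub_le (Q.E (fun w => al w * g2 w (F i2 w))) (Q.E (fun w => al w * g1 w (F i1 w)))
    (Q.E (fun w => al w * hbar P Zb F h w))
  unfold Sw3
  linarith

/-! ### the tuple law given `W` -/

theorem cond_pv {κ : Type*} {C : Om → Prop} (hC : Fac W C) (hC0 : P.Pr C ≠ 0) (X : Om → κ) {w : Om} (hw : C w) (f : κ) :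
    (P.cond C).pv W X w f = P.pv W X w f := by
  rw [pv_num, pv_num, FP.cond_E hC0, cond_m_of_fac hC0 hC hw, div_div_div_cancel_right₀ hC0]
  congr 1
  refine P.E_congr fun v _ => ?_
  by_cases h : W v = W w
  · rw [ind_of (show C v by rw [hC v w h]; exact hw), one_mul]
  · rw [ind_not h, zero_mul, mul_zero]

theorem TV3_nonneg (w : Om) : 0 ≤ TV3 P Zb F W w := Finset.sum_nonneg fun _ _ => abs_nonneg _

theorem TV3_fac (hZ : ∀ i, Fac W (Zb i)) : Fac W (TV3 P Zb F W) := by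
  intro v w hvw
  unfold TV3
  refine Finset.sum_congr rfl fun f _ => ?_
  have e1 : P.pv W (tup F) v f = P.pv W (tup F) w f := P.pv_fac W (tup F) f v w hvw
  have e2 : ∀ i, P.pv (Zb i) (F i) v (f i) = P.pv (Zb i) (F i) w (f i) := fun i =>
    P.pv_fac (Zb i) (F i) (f i) v w (hZ i v w hvw)
  rw [e1, Finset.prod_congr rfl fun i _ => e2 i]

theorem TV3_le_two {w : Om} (hw : P.p w ≠ 0) : TV3 P Zb F W w ≤ 2 := by
  have h1 : ∑ f ∈ let_ F, P.pv W (tup F) w f = 1 := by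
    have h := sum_tup P (W := W) F (F := fun _ _ => 1) (fun _ _ _ _ => rfl) w
    simp only [mul_one] at h
    rw [h, P.ce_const W 1 hw]
  have h2 : ∑ f ∈ let_ F, ∏ i, P.pv (Zb i) (F i) w (f i) = 1 := by
    unfold let_
    rw [← Finset.prod_univ_sum (fun i => vals (F i)) fun i x => P.pv (Zb i) (F i) w x]
    exact Finset.prod_eq_one fun i _ => P.pv_sum (Zb i) (F i) hw
  unfold TV3
  calc ∑ f ∈ let_ F, |P.pv W (tup F) w f - ∏ i, P.pv (Zb i) (F i) w (f i)| ≤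
      ∑ f ∈ let_ F, (P.pv W (tup F) w f + ∏ i, P.pv (Zb i) (F i) w (f i)) := by
        refine Finset.sum_le_sum fun f _ => ?_
        have a := P.pv_nonneg W (tup F) w f
        have b : 0 ≤ ∏ i, P.pv (Zb i) (F i) w (f i) := Finset.prod_nonneg fun i _ => P.pv_nonneg _ _ _ _
        rw [abs_le]
        constructor <;> linarith
    _ = 2 := by rw [Finset.sum_add_distrib, h1, h2]; norm_num

/-- **the tuple law inside a class** -/
theorem TV3_le {C : Om → Prop} (hC : Fac W C) (hC0 : P.Pr C ≠ 0) (h12 : i1 ≠ i2) (h13 : i1 ≠ i3) (h23 : i2 ≠ i3)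
    (hI : ∀ i, i = i1 ∨ i = i2 ∨ i = i3) (hZ : ∀ i, Fac W (Zb i)) (hal : Fac W al) (h0 : ∀ w, 0 ≤ al w) :
    (P.cond C).E (fun w => al w * TV3 P Zb F W w) ≤ Sw3 (P.cond C) P Zb F W al i1 i2 i3 := by
  classical
  set Q := P.cond C with hQ
  set sg : Om → (I → φ) → ℝ := fun w f =>
    if 0 ≤ P.pv W (tup F) w f - ∏ i, P.pv (Zb i) (F i) w (f i) then 1 else -1 with hsg
  have hf : ∀ f, Fac W (fun w => sg w f) := by
    intro f v w hvw
    have e1 : P.pv W (tup F) v f = P.pv W (tup F) w f := P.pv_fac W (tup F) f v w hvw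
    have e2 : ∀ i, P.pv (Zb i) (F i) v (f i) = P.pv (Zb i) (F i) w (f i) := fun i =>
      P.pv_fac (Zb i) (F i) (f i) v w (hZ i v w hvw)
    simp only [hsg, e1, e2]
  have hb : ∀ w f, |sg w f| ≤ 1 := by
    intro w f
    simp only [hsg]
    split_ifs <;> simp
  have k := swap_three (h := sg) (FP.cond_ac P C) h12 h13 h23 hI hZ hal h0 hf hb (F := F)
  refine le_trans (le_of_eq ?_) ((le_abs_self _).trans k)
  have e1 : Q.E (fun w => al w * sg w (tup F w)) =
      Q.E (fun w => al w * ∑ f ∈ let_ F, Q.pv W (tup F) w f * sg w f) := by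
    rw [← Q.E_mul_ce hal (fun w => sg w (tup F w))]
    refine Q.E_congr fun w _ => ?_
    rw [← sum_tup Q (W := W) F (F := sg) hf w]
  rw [e1, ← Q.E_sub]
  refine Q.E_congr fun w hw => ?_
  have hCw := (cond_supp hC0 hw).1
  rw [← mul_sub]
  congr 1
  unfold TV3 hbar
  rw [← Finset.sum_sub_distrib]
  refine Finset.sum_congr rfl fun f _ => ?_
  rw [cond_pv hC hC0 (tup F) hCw f, ← sub_mul]
  simp only [hsg]
  split_ifs with h
  · rw [abs_of_nonneg h, mul_one]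
  · rw [abs_of_neg (not_le.1 h)]; ring

/-- a function of `(tuple, W)` as a test function -/
theorem exists_test {g : Om → ℝ} (hg : Fac (fun w => (tup F w, W w)) g) {a : ℝ} (ha : 0 ≤ a) (hb : ∀ w, |g w| ≤ a) :
    ∃ h : Om → (I → φ) → ℝ, (∀ f, Fac W (fun w => h w f)) ∧ (∀ w f, |h w f| ≤ a) ∧ ∀ w, h w (tup F w) = g w := by
  classical
  set G : ι → (I → φ) → ℝ := fun x f => if hx : ∃ u, tup F u = f ∧ W u = x then g hx.choose else 0 with hG
  refine ⟨fun w f => G (W w) f, fun f v w hvw => ?_, fun w f => ?_, fun w => ?_⟩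
  · show G (W v) f = G (W w) f
    rw [hvw]
  · show |G (W w) f| ≤ a
    simp only [hG]
    split_ifs with hx
    · exact hb _
    · rw [abs_zero]; exact ha
  · show G (W w) (tup F w) = g w
    have hx : ∃ u, tup F u = tup F w ∧ W u = W w := ⟨w, rfl, rfl⟩
    simp only [hG]
    rw [dif_pos hx]
    have h2 := hx.choose_spec
    exact hg _ _ (by rw [Prod.mk.injEq]; exact h2)

/-- **THE DEVIATION INSIDE A CLASS** : `C` = class, a function of `W`; `E` = event -/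
theorem dev_class {C E : Om → Prop} (hC : Fac W C) (hCE : P.Pr (fun w => C w ∧ E w) ≠ 0) (h12 : i1 ≠ i2)
    (h13 : i1 ≠ i3) (h23 : i2 ≠ i3) (hI : ∀ i, i = i1 ∨ i = i2 ∨ i = i3) (hZ : ∀ i, Fac W (Zb i)) (hal : Fac W al)
    (h0 : ∀ w, 0 ≤ al w) {g : Om → ℝ} (hg : Fac (fun w => (tup F w, W w)) g) (hb : ∀ w, |g w| ≤ 1) {del : ℝ}
    (hdel : ∀ s : Om → ℝ, Fac W s → (∀ w, 0 ≤ s w) → (∀ w, s w ≤ 2) →
      (P.cond fun w => C w ∧ E w).E (fun w => al w * s w) ≤ (P.cond C).E (fun w => al w * s w) + del) :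
    |P.E (fun w => ind (C w ∧ E w) * (al w * (g w - P.ce W g w)))| ≤
      P.Pr (fun w => C w ∧ E w) * (Sw3 (P.cond fun w => C w ∧ E w) P Zb F W al i1 i2 i3 +
        Sw3 (P.cond C) P Zb F W al i1 i2 i3 + del) := by
  classical
  set Q := P.cond fun w => C w ∧ E w with hQ
  have hC0 : P.Pr C ≠ 0 := by
    intro h
    refine hCE (le_antisymm ?_ (P.Pr_nonneg _))
    rw [← h]
    exact P.Pr_mono fun w _ hw => hw.1
  obtain ⟨h, hf, hhb, hhg⟩ := exists_test hg zero_le_one hb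
  have hce : ∀ w, P.ce W g w = ∑ f ∈ let_ F, P.pv W (tup F) w f * h w f := by
    intro w
    rw [sum_tup P (W := W) F (F := h) hf w]
    exact P.ce_congr (fun v _ => (hhg v).symm) w
  have hac : Q.Ac P := FP.cond_ac P _
  have k1 := swap_three (h := h) hac h12 h13 h23 hI hZ hal h0 hf hhb (F := F)
  -- the conditional mean against the product
  have k2 : ∀ w, |P.ce W g w - hbar P Zb F h w| ≤ TV3 P Zb F W w := by
    intro w
    rw [hce w]
    unfold hbar TV3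
    rw [← Finset.sum_sub_distrib]
    refine (Finset.abs_sum_le_sum_abs _ _).trans (Finset.sum_le_sum fun f _ => ?_)
    rw [← sub_mul, abs_mul]
    exact mul_le_of_le_one_right (abs_nonneg _) (hhb w f)
  have k3 : |Q.E (fun w => al w * P.ce W g w) - Q.E (fun w => al w * hbar P Zb F h w)| ≤
      Q.E (fun w => al w * TV3 P Zb F W w) := by
    rw [← Q.E_sub, abs_le, ← Q.E_neg]
    have k : ∀ w, |al w * P.ce W g w - al w * hbar P Zb F h w| ≤ al w * TV3 P Zb F W w := by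
      intro w
      rw [← mul_sub, abs_mul, abs_of_nonneg (h0 w)]
      exact mul_le_mul_of_nonneg_left (k2 w) (h0 w)
    exact ⟨Q.E_mono fun w _ => (abs_le.1 (k w)).1, Q.E_mono fun w _ => (abs_le.1 (k w)).2⟩
  have k4 : Q.E (fun w => al w * TV3 P Zb F W w) ≤ Sw3 (P.cond C) P Zb F W al i1 i2 i3 + del := by
    have h1 := hdel (fun w => min (TV3 P Zb F W w) 2) ((TV3_fac hZ).comp (fun x => min x 2))
      (fun w => le_min (TV3_nonneg w) (by norm_num)) (fun w => min_le_right _ _)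
    have e1 : ∀ R : FP Om, R.Ac P → R.E (fun w => al w * min (TV3 P Zb F W w) 2) = R.E (fun w => al w * TV3 P Zb F W w) :=
      fun R hR => R.E_congr fun w hw => by rw [min_eq_left (TV3_le_two (hR w hw))]
    rw [e1 _ hac, e1 _ (FP.cond_ac P C)] at h1
    have h2 := TV3_le hC hC0 h12 h13 h23 hI hZ hal h0 (F := F)
    linarith
  have e2 : P.E (fun w => ind (C w ∧ E w) * (al w * (g w - P.ce W g w))) =
      P.Pr (fun w => C w ∧ E w) * (Q.E (fun w => al w * h w (tup F w)) - Q.E (fun w => al w * P.ce W g w)) := by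
    rw [← Q.E_sub, hQ, FP.Pr_mul_cond_E hCE]
    refine P.E_congr fun w _ => ?_
    rw [hhg w]
    ring
  rw [e2, abs_mul, abs_of_nonneg (P.Pr_nonneg _)]
  refine mul_le_mul_of_nonneg_left ?_ (P.Pr_nonneg _)
  have t1 := abs_sub_le (Q.E (fun w => al w * h w (tup F w))) (Q.E (fun w => al w * hbar P Zb F h w))
    (Q.E (fun w => al w * P.ce W g w))
  rw [abs_sub_comm (Q.E (fun w => al w * hbar P Zb F h w)) (Q.E (fun w => al w * P.ce W g w))] at t1
  linarith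

end three

end

end Pool.Agent.GMH
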