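import Pool.Agent.GMH.DynF

/-!
# GMH/DynK: the kinds of the run as `Kd` (helper12)

* `nsF3 c q`, `nsF2 c i q` : thin condition of the densities: the law of every top given all thin letters is near its own law
  (`tv1n < 4 eF`), tables of the state `q`;
* `kz3`, `kz2` : relation of the lives in the zones: kinds `2, 3, 4` : the bad top is `κ - 2`;
* `Arv p q` : alive (`Ar`, with the digits and the public conditions) at the state `q`, only in the relations `kd` of the lives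
  (helper58); `Arv_anti`, `Arq_fac`, `Arv_T`, `Arv_s`;
* **`K3 p c κ uB u0 K`** : the kind `κ` of the three tops;
* **`K2 M p c i κ uB u0 K`** : the kind `κ` of the two tops which see the vertex `i`, status of `i` (`sts M i`) at the start;
  `al n` : alive at `n` (`Alv p n`); the log density is cut at `-K`.
-/

set_option autoImplicit false
set_option linter.unusedSectionVars false

namespace Pool.Agent.GMH.Dy

open Finset Pool.Agent.PWZ Pool.Agent.M3 Pool.Agent.GM Pool.Agent.GM.Harm Pool.Agent.GMH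
open Pool.Agent.GMH.TP Pool.Agent.GMH.TD Pool.Agent.GMH.CK Pool.Agent.GMH.MV Pool.Agent.GMH.MVI Pool.Agent.GMH.UV
open Pool.Agent.GMH.KF Pool.Agent.GMH.V3

noncomputable section

variable {X β γ φ υ : Type} [Fintype X] [Fintype β] [Fintype φ] [Nonempty X] [Nonempty β]
variable {D : HD (Fin 3) X β γ φ} {al : ℝ} (h : D.Thick al) (v : ℕ → Finset (Fin 3) → X → (Fin 3 → β) → υ)
variable {prr : ℕ → Fin 3 → φ → φ} {T : ℕ} {W : Type} [Fintype W] (tb : Tab D prr T W)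

/-- thin condition of the densities, tables of the state `q`, three tops -/
def nsF3 (c : KC) (q : ℕ) (w : Om W X β) : Prop :=
  ∀ i, tv1n (D.P h (q / 5)) (ZQ D v q) (ZbQ D v q) (FQ v (q / 5)) i (tb.pt (q / 5) w) < 4 * c.eF

/-- the same, the two tops which see the vertex `i0` -/
def nsF2 (c : KC) (i0 : Fin 3) (q : ℕ) (w : Om W X β) : Prop :=
  ∀ i, tv1n (D.P h (q / 5)) (ZQ D v q) (ZbQ D v q) (Fo (FQ v (q / 5)) i0) i (tb.pt (q / 5) w) < 4 * c.eF

/-- the top `j` of the true tuple is bad, tables of the state `q`, three tops -/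
def bd3q (c : KC) (j : Fin 3) (q : ℕ) (w : Om W X β) : Prop :=
  bad (D.P h (q / 5)) (ZQ D v q) (FQ v (q / 5)) c j (tb.pt (q / 5) w) (tup (FQ v (q / 5)) (tb.pt (q / 5) w))

/-- the same, frame of the vertex `i` -/
def bd2q (c : KC) (i j : Fin 3) (q : ℕ) (w : Om W X β) : Prop :=
  bad (D.P h (q / 5)) (ZQ D v q) (Fo (FQ v (q / 5)) i) c j (tb.pt (q / 5) w)
    (tup (Fo (FQ v (q / 5)) i) (tb.pt (q / 5) w))

/-- the bad top of the kinds `2, 3, 4` -/
def bt4 (κ : Fin 10) : Fin 3 := if κ = 2 then 0 else if κ = 3 then 1 else 2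

/-- relation of the zones, tables of the state `q`, three tops -/
def kzq3 (c : KC) (κ : Fin 10) (o : Option (Fin 3)) (q : ℕ) (w : Om W X β) : Prop :=
  if 2 ≤ κ.1 ∧ κ.1 ≤ 4 then
    ¬ Ap (D.P h (q / 5)) (ZQ D v q) (FQ v (q / 5)) c 1 (tb.pt (q / 5) w) (tup (FQ v (q / 5)) (tb.pt (q / 5) w)) ∧
      bd3q h v tb c (bt4 κ) q w
  else kvq3 h v tb c κ o q w

/-- relation of the zones, frame of the vertex `i` -/
def kzq2 (c : KC) (i : Fin 3) (κ : Fin 10) (o : Option (Fin 3)) (q : ℕ) (w : Om W X β) : Prop :=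
  if 2 ≤ κ.1 ∧ κ.1 ≤ 4 then
    ¬ Ap (D.P h (q / 5)) (ZQ D v q) (Fo (FQ v (q / 5)) i) c 1 (tb.pt (q / 5) w)
        (tup (Fo (FQ v (q / 5)) i) (tb.pt (q / 5) w)) ∧ bd2q h v tb c i (bt4 κ) q w
  else kvq2 h v tb c i κ o q w

/-- the relation of the zones with the tables of the start `τ`, alive -/
def kz3 (p : AP) (c : KC) (κ : Fin 10) (o : Option (Fin 3)) (τ : ℕ) (w : Om W X β) : Prop :=
  kzq3 h v tb c κ o (eT v tb τ w) w ∧ Alv h v tb p (eT v tb τ w) w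

def kz2 (p : AP) (c : KC) (i : Fin 3) (κ : Fin 10) (o : Option (Fin 3)) (τ : ℕ) (w : Om W X β) : Prop :=
  kzq2 h v tb c i κ o (eT v tb τ w) w ∧ Alv h v tb p (eT v tb τ w) w

/-- the half step of the state `q` -/
def hsq (q : ℕ) : ℕ := 2 * (q / 5) + min (q % 5) 1

/-- alive at the state `q`, with the digits and the public conditions -/
def Arv (p : AP) (q : ℕ) (w : Om W X β) : Prop := Ar h v p (hsq q) (tb.pt (q / 5) w)

variable {h v tb}

theorem hsq_mono {q q' : ℕ} (hq : q' ≤ q) : hsq q' ≤ hsq q := by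
  unfold hsq
  omega

/-- decreasing -/
theorem Arv_anti {p : AP} {q q' : ℕ} (hq : q' ≤ q) {w : Om W X β} (hA : Arv h v tb p q w) : Arv h v tb p q' w := by
  have h1 : Ar h v p (hsq q') (tb.pt (q / 5) w) := Ar_mono h p (hsq_mono hq) hA
  exact (Ar_lab h p (hsq q') w.1 w.2.2 _ _).1 h1

/-- at the time `T` -/
theorem Arv_T {p : AP} (t : ℕ) (w : Om W X β) : Arv h v tb p (5 * t) w ↔ Ar h v p (2 * t) (tb.pt t w) := by
  unfold Arv
  rw [show hsq (5 * t) = 2 * t by unfold hsq; omega, show 5 * t / 5 = t by omega]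

/-- in the steps of the level -/
theorem Arv_s {p : AP} {t q : ℕ} (h1 : 5 * t + 1 ≤ q) (h2 : q ≤ 5 * t + 4) (w : Om W X β) :
    Arv h v tb p q w ↔ Ar h v p (2 * t + 1) (tb.pt t w) := by
  unfold Arv
  rw [show hsq q = 2 * t + 1 by unfold hsq; omega, show q / 5 = t by omega]

/-- seen by the thin letters of the state `q` -/
theorem Arq_fac (p : AP) (q : ℕ) : Fac (ZQ (φ := φ) D v q) (Ar h v p (hsq q)) := by
  intro a b e
  by_cases h0 : q % 5 = 0
  · have e1 : hsq q = 2 * (q / 5) := by unfold hsq; omega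
    rw [e1]
    exact Ar0_fac h p (q / 5) a b (ZQ_mono (show 5 * (q / 5) ≤ q by omega) a b e)
  · have e1 : hsq q = 2 * (q / 5) + 1 := by unfold hsq; omega
    rw [e1]
    exact Ar1_fac h p (q / 5) a b (ZQ_mono (show 5 * (q / 5) + 1 ≤ q by omega) a b e)

/-- alive at the state of the tables, alive at the start -/
theorem Alv_of_eT {p : AP} {n : ℕ} {w : Om W X β} (hA : Alv h v tb p (eT v tb n w) w) : Alv h v tb p n w := by
  refine Alv_anti h v tb ?_ hA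
  unfold eT
  split <;> omega

/-- the kinds `2, 3, 4` are the bad top `κ - 2` -/
theorem kd_bt4 {Om' β' φ' : Type*} [Fintype Om'] {P : FP Om'} {Z : Om' → β'} {F : Fin 3 → Om' → φ'} {c : KC} {κ : Fin 10}
    (hk : 2 ≤ κ.1 ∧ κ.1 ≤ 4) {w : Om'} {f : Fin 3 → φ'} (hh : kdF P Z F c κ w f) :
    ¬ Ap P Z F c 1 w f ∧ bad P Z F c (bt4 κ) w f := by
  refine ⟨hh.2 1 (by omega), ?_⟩
  have h1 := hh.1
  have key : ∀ κ : Fin 10, 2 ≤ κ.1 → κ.1 ≤ 4 → κ = 2 ∨ κ = 3 ∨ κ = 4 := by decide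
  rcases key κ hk.1 hk.2 with rfl | rfl | rfl
  · exact h1.1
  · exact h1.1
  · exact h1.1

/-- the bad top is seen by the vertices of the kind -/
theorem bt4_ne {κ : Fin 10} (hk : 2 ≤ κ.1 ∧ κ.1 ≤ 4) {i : Fin 3} (hi : i ∈ vk κ) : some (bt4 κ) ≠ some i := by
  revert κ i
  decide

/-- the relation of the zones is contained in the relation of the densities -/
theorem kz_kv {Om' β' φ' : Type*} [Fintype Om'] {P : FP Om'} {Z : Om' → β'} {F : Fin 3 → Om' → φ'} {c : KC} {κ : Fin 10}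
    (hk : 2 ≤ κ.1 ∧ κ.1 ≤ 4) {o : Option (Fin 3)} (ho : some (bt4 κ) ≠ o) {w : Om'} {f : Fin 3 → φ'}
    (h1 : ¬ Ap P Z F c 1 w f) (h2 : bad P Z F c (bt4 κ) w f) : kvF P Z F c κ o w f := by
  refine ⟨?_, fun h6 => absurd hk.2 (by omega), fun h9 => absurd hk.2 (by omega)⟩
  unfold kv0F
  rw [if_pos ⟨hk.1, by omega⟩]
  exact ⟨h1, bt4 κ, ho, h2⟩

theorem ka3_kz {p : AP} {c : KC} {κ : Fin 10} {i : Fin 3} (hi : i ∈ vk κ) {τ : ℕ} {w : Om W X β}
    (hk : ka3 h v tb p c κ τ w) : kz3 h v tb p c κ (Option.some i) τ w := by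
  refine ⟨?_, hk.2⟩
  unfold kzq3
  by_cases h4 : 2 ≤ κ.1 ∧ κ.1 ≤ 4
  · rw [if_pos h4]
    exact kd_bt4 h4 hk.1
  · rw [if_neg h4]
    exact (ka3_kv hi hk).1

theorem kz3_kv {p : AP} {c : KC} {κ : Fin 10} {i : Fin 3} (hi : i ∈ vk κ) {τ : ℕ} {w : Om W X β}
    (hk : kz3 h v tb p c κ (Option.some i) τ w) : kv3 h v tb p c κ (Option.some i) τ w := by
  refine ⟨?_, hk.2⟩
  have h1 := hk.1
  unfold kzq3 at h1
  by_cases h4 : 2 ≤ κ.1 ∧ κ.1 ≤ 4
  · rw [if_pos h4] at h1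
    exact kz_kv h4 (bt4_ne h4 hi) h1.1 h1.2
  · rw [if_neg h4] at h1
    exact h1

theorem ka2_kz {p : AP} {c : KC} {i j : Fin 3} {κ : Fin 10} (hj : j ∈ vk κ) {τ : ℕ} {w : Om W X β}
    (hk : ka2 h v tb p c i κ τ w) : kz2 h v tb p c i κ (Option.some j) τ w := by
  refine ⟨?_, hk.2⟩
  unfold kzq2
  by_cases h4 : 2 ≤ κ.1 ∧ κ.1 ≤ 4
  · rw [if_pos h4]
    exact kd_bt4 h4 hk.1
  · rw [if_neg h4]
    exact (ka2_kv hj hk).1

theorem kz2_kv {p : AP} {c : KC} {i j : Fin 3} {κ : Fin 10} (hj : j ∈ vk κ) {τ : ℕ} {w : Om W X β}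
    (hk : kz2 h v tb p c i κ (Option.some j) τ w) : kv2 h v tb p c i κ (Option.some j) τ w := by
  refine ⟨?_, hk.2⟩
  have h1 := hk.1
  unfold kzq2 at h1
  by_cases h4 : 2 ≤ κ.1 ∧ κ.1 ≤ 4
  · rw [if_pos h4] at h1
    exact kz_kv h4 (bt4_ne h4 hj) h1.1 h1.2
  · rw [if_neg h4] at h1
    exact h1

variable (h v tb)

/-- **THE KIND `κ` OF THE THREE TOPS** -/
def K3 (p : AP) (c : KC) (κ : Fin 10) (uB u0 K : ℝ) : Kd (Om W X β) where
  kd := fun _ τ w => (ka3 h v tb p c κ τ w ∧ nsF3 h v tb c (eT v tb τ w) w) ∧ Arv h v tb p (eT v tb τ w) w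
  kv := fun o τ w => kv3 h v tb p c κ o τ w ∧ nsF3 h v tb c (eT v tb τ w) w
  kz := fun i τ w => kz3 h v tb p c κ (Option.some i) τ w ∧ nsF3 h v tb c (eT v tb τ w) w
  al := Alv h v tb p
  psi := fun _ τ w => max (ps3 h v tb τ w) (-K)
  Vk := vk κ
  uB := uB
  u0 := u0
  hkv := fun _ hi _ _ hk => ⟨ka3_kv hi hk.1.1, hk.1.2⟩
  hkn := fun _ _ hk => ⟨ka3_kn hk.1.1, hk.1.2⟩
  hkz := fun _ hi _ _ hk => ⟨ka3_kz hi hk.1.1, hk.1.2⟩
  hzv := fun _ hi _ _ hk => ⟨kz3_kv hi hk.1, hk.2⟩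
  hal := fun n _ => Alv_anti h v tb (Nat.le_succ n)

/-- the kind is a kind of the frame of the vertex `i`, status of `i` -/
def st2 (M : MS (Om W X β)) (i : Fin 3) (κ : Fin 10) (o : Option (Fin 3)) (τ : ℕ) (w : Om W X β) : Prop :=
  (o = Option.none ∨ o = Option.some i) ∧ i ∈ vk κ ∧ sts M i τ w

/-- **THE KIND `κ` OF THE TWO TOPS WHICH SEE THE VERTEX `i`** -/
def K2 (M : MS (Om W X β)) (p : AP) (c : KC) (i : Fin 3) (κ : Fin 10) (uB u0 K : ℝ) : Kd (Om W X β) where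
  kd := fun o τ w => st2 M i κ o τ w ∧ ka2 h v tb p c i κ τ w ∧ nsF2 h v tb c i (eT v tb τ w) w ∧
    Arv h v tb p (eT v tb τ w) w
  kv := fun o τ w => st2 M i κ o τ w ∧ kv2 h v tb p c i κ o τ w ∧ nsF2 h v tb c i (eT v tb τ w) w
  kz := fun j τ w => st2 M i κ (some j) τ w ∧ kz2 h v tb p c i κ (Option.some j) τ w ∧ nsF2 h v tb c i (eT v tb τ w) w
  al := Alv h v tb p
  psi := fun _ τ w => max (ps2 h v tb i τ w) (-K)
  Vk := {i}
  uB := uB
  u0 := u0
  hkv := fun j hj _ _ hk => by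
    have hji : j = i := Finset.mem_singleton.1 hj
    subst hji
    exact ⟨hk.1, ka2_kv hk.1.2.1 hk.2.1, hk.2.2.1⟩
  hkn := fun _ _ hk => ⟨hk.1, ka2_kn hk.2.1, hk.2.2.1⟩
  hkz := fun j hj _ _ hk => by
    have hji : j = i := Finset.mem_singleton.1 hj
    subst hji
    exact ⟨hk.1, ka2_kz hk.1.2.1 hk.2.1, hk.2.2.1⟩
  hzv := fun j hj _ _ hk => by
    have hji : j = i := Finset.mem_singleton.1 hj
    subst hji
    exact ⟨hk.1, kz2_kv hk.1.2.1 hk.2.1, hk.2.2⟩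
  hal := fun n _ => Alv_anti h v tb (Nat.le_succ n)

end

end Pool.Agent.GMH.Dy
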