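import Pool.Agent.GMH.Sat
import Pool.Agent.GM.Harm
import Pool.Agent.M3.RdPull

/-!
# GMH.HLaw: the laws of the data of HARM(K) (helper27)

`D : HD K X β γ φ` (GM/Harm), `D.P h t` the law of the time `t` on `Pt K X β φ`.
* `E_law`, `E_pts`, `E_letter` : means of functions of the points, of the points and one letter;
* `prj pr t` : letters of the time `t+1` -> letters of the time `t`; `pul_prj` : it pushes the law of `t+1` to the law of `t`;
* `Hc_letter` : `H(F_l | y_j (j <> l), node of the time s)` under the law of the time `t <= s` is the mean of `D.H s t l`;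
* `birthE` : the entropy of the new letter given the old one.
-/

set_option autoImplicit false
set_option linter.unusedSectionVars false

namespace Pool.Agent.GMH

open Finset Pool.Agent.PWZ Pool.Agent.M3 Pool.Agent.GM.Harm
open Pool.Agent.M3.S3 (avg law)

noncomputable section

variable {K X β γ φ : Type} [Fintype K] [DecidableEq K] [Fintype X] [Fintype β] [Fintype φ] [Nonempty X] [Nonempty β]
  {D : HD K X β γ φ} {al : ℝ} (h : D.Thick al)

theorem card_pts : (Fintype.card (X × (K → β)) : ℝ) = Fintype.card X * (Fintype.card β : ℝ) ^ Fintype.card K := by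
  rw [Fintype.card_prod, Fintype.card_fun]
  push_cast
  rfl

theorem E_law (t : ℕ) (f : Pt K X β φ → ℝ) : (D.P h t).E f =
    (FP.unif (X × (K → β))).E fun z => ∑ F : K → φ, (∏ l, D.kf t l z.1 z.2 (F l)) * f (z.1, z.2, F) := by
  rw [FP.unif_E, card_pts]
  unfold FP.E
  show ∑ w : X × (K → β) × (K → φ), (∏ l, D.kf t l w.1 w.2.1 (w.2.2 l)) /
    (Fintype.card X * (Fintype.card β : ℝ) ^ Fintype.card K) * f w = _
  rw [Finset.sum_div, Fintype.sum_prod_type, Fintype.sum_prod_type]
  refine Finset.sum_congr rfl fun x _ => ?_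
  rw [Fintype.sum_prod_type]
  refine Finset.sum_congr rfl fun y _ => ?_
  rw [Finset.sum_div]
  refine Finset.sum_congr rfl fun F _ => ?_
  show _ / _ * f (x, y, F) = _ * f (x, y, F) / _
  ring

include h in
theorem sum_letters (t : ℕ) (x : X) (y : K → β) : ∑ F : K → φ, ∏ l, D.kf t l x y (F l) = 1 := by
  have h2 := Finset.prod_univ_sum (fun _ : K => (univ : Finset φ)) (fun l F => D.kf t l x y F)
  rw [Fintype.piFinset_univ] at h2
  rw [← h2]
  exact Finset.prod_eq_one fun l _ => h.one t l x y

include h in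
theorem sum_letter (t : ℕ) (l : K) (x : X) (y : K → β) (g : φ → ℝ) :
    ∑ F : K → φ, (∏ j, D.kf t j x y (F j)) * g (F l) = ∑ G, D.kf t l x y G * g G := by
  have h2 := Finset.prod_univ_sum (fun _ : K => (univ : Finset φ))
    (fun j F => D.kf t j x y F * (if j = l then g F else 1))
  rw [Fintype.piFinset_univ] at h2
  have h3 : ∀ F : K → φ, ∏ j, D.kf t j x y (F j) * (if j = l then g (F j) else 1) =
      (∏ j, D.kf t j x y (F j)) * g (F l) := by
    intro F
    rw [Finset.prod_mul_distrib, Finset.prod_ite_eq' univ l (fun j => g (F j)), if_pos (mem_univ l)]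
  rw [← Finset.sum_congr rfl fun F _ => h3 F, ← h2, ← Finset.mul_prod_erase univ _ (mem_univ l)]
  have h4 : ∏ j ∈ univ.erase l, ∑ F, D.kf t j x y F * (if j = l then g F else 1) = 1 := by
    refine Finset.prod_eq_one fun j hj => ?_
    have h5 : ∑ F, D.kf t j x y F * (if j = l then g F else 1) = ∑ F, D.kf t j x y F := by
      refine Finset.sum_congr rfl fun F _ => ?_
      rw [if_neg (Finset.ne_of_mem_erase hj), mul_one]
    rw [h5, h.one t j x y]
  rw [h4, mul_one]
  exact Finset.sum_congr rfl fun G _ => by rw [if_pos rfl]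

theorem E_pts (t : ℕ) (g : X × (K → β) → ℝ) :
    (D.P h t).E (fun w => g (w.1, w.2.1)) = (FP.unif (X × (K → β))).E g := by
  rw [E_law]
  refine FP.E_congr _ fun z _ => ?_
  show ∑ F : K → φ, (∏ l, D.kf t l z.1 z.2 (F l)) * g z = g z
  rw [← Finset.sum_mul, sum_letters h, one_mul]

theorem E_letter (t : ℕ) (l : K) (g : X × (K → β) → φ → ℝ) :
    (D.P h t).E (fun w => g (w.1, w.2.1) (w.2.2 l)) =
      (FP.unif (X × (K → β))).E fun z => ∑ G, D.kf t l z.1 z.2 G * g z G := by
  rw [E_law]
  exact FP.E_congr _ fun z _ => sum_letter h t l z.1 z.2 (g z)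

/-! ## old letters -/

/-- old letters -/
def prj (pr : ℕ → K → φ → φ) (t : ℕ) (w : Pt K X β φ) : Pt K X β φ := (w.1, w.2.1, fun l => pr t l (w.2.2 l))

theorem pul_prj {dg : ℕ → X → ℝ} {pr : ℕ → K → φ → φ} {T : ℕ} {Lam : ℝ} (H : D.Hyp dg pr al T Lam) {t : ℕ}
    (ht : t < T) : Pul (D.P h (t + 1)) (D.P h t) (prj pr t) where
  E f := by
    classical
    rw [E_law, E_law]
    refine FP.E_congr _ fun z _ => ?_
    obtain ⟨x, y⟩ := z
    show ∑ F : K → φ, (∏ l, D.kf (t + 1) l x y (F l)) * f (x, y, fun l => pr t l (F l)) =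
      ∑ G : K → φ, (∏ l, D.kf t l x y (G l)) * f (x, y, G)
    have h1 : ∀ G : K → φ, ∏ l, D.kf t l x y (G l) =
        ∑ F : K → φ, ∏ l, ind (pr t l (F l) = G l) * D.kf (t + 1) l x y (F l) := by
      intro G
      have h2 := Finset.prod_univ_sum (fun _ : K => (univ : Finset φ))
        (fun l F => ind (pr t l F = G l) * D.kf (t + 1) l x y F)
      rw [Fintype.piFinset_univ] at h2
      rw [← h2]
      exact Finset.prod_congr rfl fun l _ => H.kf_pr t ht l x y (G l)
    have h3 : ∀ F G : K → φ, ∏ l, ind (pr t l (F l) = G l) * D.kf (t + 1) l x y (F l) =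
        (if G = (fun l => pr t l (F l)) then 1 else 0) * ∏ l, D.kf (t + 1) l x y (F l) := by
      intro F G
      rw [Finset.prod_mul_distrib]
      congr 1
      by_cases hG : G = fun l => pr t l (F l)
      · rw [if_pos hG]
        refine Finset.prod_eq_one fun l _ => ?_
        rw [hG, ind_of rfl]
      · rw [if_neg hG]
        obtain ⟨l, hl⟩ : ∃ l, pr t l (F l) ≠ G l := by
          by_contra hcon
          push Not at hcon
          exact hG (funext fun l => (hcon l).symm)
        exact Finset.prod_eq_zero (mem_univ l) (ind_not hl)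
    have h4 : ∀ G : K → φ, (∏ l, D.kf t l x y (G l)) * f (x, y, G) =
        ∑ F : K → φ, (if G = (fun l => pr t l (F l)) then 1 else 0) * (∏ l, D.kf (t + 1) l x y (F l)) * f (x, y, G) := by
      intro G
      rw [h1 G, Finset.sum_mul]
      exact Finset.sum_congr rfl fun F _ => by rw [h3 F G]
    rw [Finset.sum_congr rfl fun G _ => h4 G, Finset.sum_comm]
    refine Finset.sum_congr rfl fun F _ => ?_
    rw [Finset.sum_eq_single (fun l => pr t l (F l))]
    · rw [if_pos rfl, one_mul]
    · intro G _ hG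
      rw [if_neg hG, zero_mul, zero_mul]
    · intro hn
      exact absurd (mem_univ _) hn

/-! ## entropy of one letter -/

theorem qb_le {s t : ℕ} (hst : t ≤ s) {b b' : β} (hb : D.qb s b = D.qb s b') : D.qb t b = D.qb t b' := by
  induction s, hst using Nat.le_induction with
  | base => exact hb
  | succ n _ ih => exact ih (D.rb n b b' hb)

theorem qa_le {s t : ℕ} (hst : t ≤ s) {x x' : X} (hx : D.qa s x = D.qa s x') : D.qa t x = D.qa t x' := by
  induction s, hst using Nat.le_induction with
  | base => exact hx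
  | succ n _ ih => exact ih (D.ra n x x' hx)

theorem mem_cA {t : ℕ} {x x' : X} : x' ∈ D.cA t x ↔ D.qa t x' = D.qa t x := by
  classical
  simp [HD.cA]

theorem mem_cB {t : ℕ} {b b' : β} : b' ∈ D.cB t b ↔ D.qb t b' = D.qb t b := by
  classical
  simp [HD.cB]

/-- the points of `J` and the node of the time `s`, as a function of the points -/
def Zp (D : HD K X β γ φ) (s : ℕ) (J : Finset K) (z : X × (K → β)) : ({j // j ∈ J} → β) × (γ × (K → γ)) :=
  (fun j => z.2 j.1, (D.qa s z.1, fun j => D.qb s (z.2 j)))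

theorem Zp_iff {s : ℕ} {J : Finset K} {z z' : X × (K → β)} : Zp D s J z' = Zp D s J z ↔
    (∀ j ∈ J, z'.2 j = z.2 j) ∧ D.qa s z'.1 = D.qa s z.1 ∧ ∀ j, D.qb s (z'.2 j) = D.qb s (z.2 j) := by
  unfold Zp
  rw [Prod.ext_iff, Prod.ext_iff]
  constructor
  · rintro ⟨h1, h2, h3⟩
    exact ⟨fun j hj => congrFun h1 ⟨j, hj⟩, h2, fun j => congrFun h3 j⟩
  · rintro ⟨h1, h2, h3⟩
    exact ⟨funext fun j => h1 j.1 j.2, h2, funext h3⟩

/-- mean over the fibre of all points but `l` and the node -/
theorem E_fibre (s : ℕ) (l : K) (x : X) (y : K → β) (g : X → ℝ) :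
    (FP.unif (X × (K → β))).E (fun z => g z.1 * ind (Zp D s (univ.erase l) z = Zp D s (univ.erase l) (x, y))) =
      (∑ x' ∈ D.cA s x, g x') * (D.cB s (y l)).card / (Fintype.card X * (Fintype.card β : ℝ) ^ Fintype.card K) := by
  classical
  rw [FP.unif_E, card_pts]
  congr 1
  rw [Fintype.sum_prod_type]
  have h1 : ∀ x', ∑ y' : K → β, g x' * ind (Zp D s (univ.erase l) (x', y') = Zp D s (univ.erase l) (x, y)) =
      (if x' ∈ D.cA s x then g x' else 0) * (D.cB s (y l)).card := by
    intro x'
    rw [← Finset.mul_sum]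
    by_cases hx : x' ∈ D.cA s x
    · rw [if_pos hx]
      congr 1
      have h2 : ∀ y', ind (Zp D s (univ.erase l) (x', y') = Zp D s (univ.erase l) (x, y)) =
          if y' ∈ (D.cB s (y l)).image (fun b => Function.update y l b) then 1 else 0 := by
        intro y'
        by_cases hy : y' ∈ (D.cB s (y l)).image (fun b => Function.update y l b)
        · rw [if_pos hy]
          obtain ⟨b, hb, rfl⟩ := Finset.mem_image.1 hy
          refine ind_of (Zp_iff.2 ⟨fun j hj => ?_, mem_cA.1 hx, fun j => ?_⟩)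
          · exact Function.update_of_ne (Finset.ne_of_mem_erase hj) _ _
          · by_cases hj : j = l
            · subst hj
              show D.qb s (Function.update y j b j) = _
              rw [Function.update_self]
              exact mem_cB.1 hb
            · show D.qb s (Function.update y l b j) = _
              rw [Function.update_of_ne hj]
        · rw [if_neg hy]
          refine ind_not fun hz => hy ?_
          obtain ⟨h3, _, h4⟩ := Zp_iff.1 hz
          refine Finset.mem_image.2 ⟨y' l, mem_cB.2 (h4 l), ?_⟩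
          funext j
          by_cases hj : j = l
          · subst hj
            rw [Function.update_self]
          · rw [Function.update_of_ne hj]
            exact (h3 j (Finset.mem_erase.2 ⟨hj, mem_univ j⟩)).symm
      rw [Finset.sum_congr rfl fun y' _ => h2 y', Finset.sum_ite_mem, univ_inter, Finset.sum_const, nsmul_eq_mul, mul_one,
        Finset.card_image_of_injective]
      intro b b' hb
      have := congrFun hb l
      simpa using this
    · rw [if_neg hx, zero_mul]
      refine mul_eq_zero_of_right _ (Finset.sum_eq_zero fun y' _ => ?_)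
      refine ind_not fun hz => hx ?_
      exact mem_cA.2 (Zp_iff.1 hz).2.1
  rw [Finset.sum_congr rfl fun x' _ => h1 x', ← Finset.sum_mul, Finset.sum_ite_mem, univ_inter]

/-- **entropy of a letter** -/
theorem Hc_letter {s t : ℕ} (hst : t ≤ s) (l : K) :
    (D.P h t).Hc (fun w => w.2.2 l) (fun w => Zp D s (univ.erase l) (w.1, w.2.1)) =
      (FP.unif (X × (K → β))).E fun z => D.H s t l z.1 z.2 := by
  classical
  set P := D.P h t with hP
  set Z : X × (K → β) → _ := Zp D s (univ.erase l) with hZ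
  have hcB : ∀ b : β, ((D.cB s b).card : ℝ) ≠ 0 := fun b => by
    have : 0 < (D.cB s b).card := Finset.card_pos.2 ⟨b, mem_cB.2 rfl⟩
    exact_mod_cast this.ne'
  have hcA : ∀ x : X, ((D.cA s x).card : ℝ) ≠ 0 := fun x => by
    have : 0 < (D.cA s x).card := Finset.card_pos.2 ⟨x, mem_cA.2 rfl⟩
    exact_mod_cast this.ne'
  have hM : ((Fintype.card X : ℝ) * (Fintype.card β : ℝ) ^ Fintype.card K) ≠ 0 := by
    rw [← card_pts]
    exact_mod_cast Fintype.card_ne_zero
  -- the two masses
  have m1 : ∀ w : Pt K X β φ, P.m (fun v => Z (v.1, v.2.1)) w =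
      ((D.cA s w.1).card : ℝ) * (D.cB s (w.2.1 l)).card / (Fintype.card X * (Fintype.card β : ℝ) ^ Fintype.card K) := by
    intro w
    unfold FP.m
    rw [hP, E_pts h t (fun z => ind (Z z = Z (w.1, w.2.1)))]
    have e := E_fibre (D := D) s l w.1 w.2.1 (fun _ => 1)
    rw [Finset.sum_const, nsmul_eq_mul, mul_one] at e
    rw [← e]
    exact FP.E_congr _ fun z _ => by rw [one_mul]
  have m2 : ∀ w : Pt K X β φ, P.m (fun v => (v.2.2 l, Z (v.1, v.2.1))) w =
      (∑ x' ∈ D.cA s w.1, D.kf t l x' w.2.1 (w.2.2 l)) * (D.cB s (w.2.1 l)).card /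
        (Fintype.card X * (Fintype.card β : ℝ) ^ Fintype.card K) := by
    intro w
    unfold FP.m
    have e := E_fibre (D := D) s l w.1 w.2.1 (fun x' => D.kf t l x' w.2.1 (w.2.2 l))
    rw [← e]
    have e2 := E_letter h t l (fun z G => ind ((G, Z z) = (w.2.2 l, Z (w.1, w.2.1))))
    rw [hP]
    refine e2.trans (FP.E_congr _ fun z _ => ?_)
    rw [Finset.sum_eq_single (w.2.2 l)]
    · by_cases hz : Z z = Z (w.1, w.2.1)
      · rw [ind_of hz, ind_of (by rw [hz]), mul_one, mul_one]
        obtain ⟨h1, _, h3⟩ := Zp_iff.1 hz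
        exact congrFun (D.dep t l z.1 z.2 w.2.1 (fun j hj => h1 j (Finset.mem_erase.2 ⟨hj, mem_univ j⟩))
          (qb_le hst (h3 l))) (w.2.2 l)
      · rw [ind_not hz, ind_not (fun h' => hz (Prod.mk.injEq _ _ _ _ ▸ h' : _ ∧ _).2), mul_zero, mul_zero]
    · intro G _ hG
      rw [ind_not (fun h' => hG (Prod.mk.injEq _ _ _ _ ▸ h' : _ ∧ _).1), mul_zero]
    · intro hn
      exact absurd (mem_univ _) hn
  rw [Hc_eq_E_log]
  have e1 : P.E (fun w => Real.log (P.m (fun v => Z (v.1, v.2.1)) w / P.m (fun v => (v.2.2 l, Z (v.1, v.2.1))) w)) =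
      P.E (fun w => - Real.log (law (D.cA s w.1) (fun x' => D.kf t l x' w.2.1) (w.2.2 l))) := by
    refine P.E_congr fun w _ => ?_
    rw [m1 w, m2 w, ← Real.log_inv]
    congr 1
    unfold law avg
    rw [inv_div]
    have := hcB (w.2.1 l)
    rw [div_div_div_cancel_right₀ hM, mul_div_mul_right _ _ this]
  rw [e1]
  have e2 := E_letter h t l (fun z G => - Real.log (law (D.cA s z.1) (fun x' => D.kf t l x' z.2) G))
  rw [hP]
  refine e2.trans ?_
  -- average over the cell of the hidden point
  rw [FP.unif_E, FP.unif_E]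
  congr 1
  rw [Fintype.sum_prod_type, Fintype.sum_prod_type, Finset.sum_comm, Finset.sum_comm (s := (univ : Finset X))]
  refine Finset.sum_congr rfl fun y _ => ?_
  have hcong : ∀ v w : X, v ∈ D.cA s w → D.cA s v = D.cA s w := by
    intro v w hv
    ext u
    rw [mem_cA, mem_cA, mem_cA.1 hv]
  rw [← S3.sum_cell (fun x => D.cA s x) (fun x => mem_cA.2 rfl) hcong
    (fun x => ∑ G, D.kf t l x y G * - Real.log (law (D.cA s x) (fun x' => D.kf t l x' y) G))]
  refine Finset.sum_congr rfl fun x _ => ?_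
  have e3 : ∑ v ∈ D.cA s x, ∑ G, D.kf t l v y G * - Real.log (law (D.cA s v) (fun x' => D.kf t l x' y) G) =
      ∑ v ∈ D.cA s x, ∑ G, D.kf t l v y G * - Real.log (law (D.cA s x) (fun x' => D.kf t l x' y) G) :=
    Finset.sum_congr rfl fun v hv => by rw [hcong v x hv]
  rw [e3, Finset.sum_comm, Finset.sum_div]
  show _ = S3.ent fun F => law (D.cA s x) (fun x' => D.kf t l x' y) F
  unfold S3.ent
  refine Finset.sum_congr rfl fun G _ => ?_
  rw [← Finset.sum_mul]
  unfold Real.negMulLog law avg
  ring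

/-- **births** : entropy of the new letter given the old one -/
theorem birthE {dg : ℕ → X → ℝ} {pr : ℕ → K → φ → φ} {T : ℕ} {Lam : ℝ} (H : D.Hyp dg pr al T Lam) {t : ℕ}
    (ht : t < T) (l : K) :
    (D.P h (t + 1)).Hc (fun w => w.2.2 l)
      (fun w => (pr t l (w.2.2 l), Zp D (t + 1) (univ.erase l) (w.1, w.2.1))) =
      (FP.unif (X × (K → β))).E fun z => D.H (t + 1) (t + 1) l z.1 z.2 - D.H (t + 1) t l z.1 z.2 := by
  set P := D.P h (t + 1) with hP
  set Z : Pt K X β φ → _ := fun w => Zp D (t + 1) (univ.erase l) (w.1, w.2.1) with hZ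
  have h1 : P.Hc (fun w => w.2.2 l) (fun w => (pr t l (w.2.2 l), Z w)) =
      P.Hc (fun w => w.2.2 l) Z - P.Hc (fun w => pr t l (w.2.2 l)) Z := by
    have e1 := P.Hc_chain (fun w : Pt K X β φ => w.2.2 l) (fun w => pr t l (w.2.2 l)) Z
    have e2 : P.Hc (fun w : Pt K X β φ => (w.2.2 l, pr t l (w.2.2 l))) Z = P.Hc (fun w => w.2.2 l) Z := by
      refine P.Hc_congr ?_ (Fac.refl _) ?_ (Fac.refl _)
      · intro v w hv; simp only [Prod.mk.injEq] at hv; exact hv.1.1
      · intro v w hv
        simp only [Prod.mk.injEq] at hv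
        simp only [Prod.mk.injEq]
        exact ⟨hv.1, by rw [hv.1]⟩
    linarith
  have h2 : P.Hc (fun w => pr t l (w.2.2 l)) Z = (D.P h t).Hc (fun w => w.2.2 l) Z := by
    have hp := pul_prj h H ht
    rw [Hc_eq_E_log, Hc_eq_E_log]
    have e := hp.E (fun v => Real.log ((D.P h t).m Z v / (D.P h t).m (fun u => (u.2.2 l, Z u)) v))
    rw [← e]
    refine P.E_congr fun w _ => ?_
    have a := hp.m Z w
    have b := hp.m (fun u => (u.2.2 l, Z u)) w
    rw [← a, ← b]
    rfl
  rw [h1, h2]
  have h3 := Hc_letter h (s := t + 1) (t := t + 1) le_rfl l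
  have h4 := Hc_letter h (s := t + 1) (t := t) (Nat.le_succ t) l
  rw [FP.E_sub, ← h3, ← h4]

end

end Pool.Agent.GMH
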