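import Pool.Agent.GMH.Sat

/-!
# GMH.OneKL: changes of law with relative entropies (helper49; over GMH.Sat of helper27)

* `klc_congr`, `klc_mono`, `klc_chain`, `kl_pair` for `FP.klc`;
* `E_le_kl`, `E_le_klc` : `E_Q f <= kl + 2 E_P f` for `0 <= f <= 1` (conditional form: `klc + 2 E_Q (E_P (f | Z))`);
  `Pr_le_kl`, `Pr_le_klc` the same for events;
* `Pr_mul_log_le` : `Q(A) log (1/q) <= kl + log 2` if `P(A) <= q`.
-/

set_option autoImplicit false
set_option linter.unusedSectionVars false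

namespace Pool.Agent.GMH

open Finset Pool.Agent.PWZ Pool.Agent.M3

section

variable {Om : Type*} [Fintype Om] {κ ι ι' ι'' : Type*} {P Q : FP Om}

theorem kl_pair (hac : Q.Ac P) (X : Om → κ) (Z : Om → ι) :
    Q.kl P (fun w => (X w, Z w)) = Q.kl P Z + Q.klc P X Z := by
  rw [klc_eq hac]; ring

theorem klc_congr (hac : Q.Ac P) {X : Om → κ} {X' : Om → ι'} {Z : Om → ι} {Z' : Om → ι''}
    (h1 : Fac (fun w => (X w, Z w)) X') (h2 : Fac Z Z') (h3 : Fac (fun w => (X' w, Z' w)) X) (h4 : Fac Z' Z) :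
    Q.klc P X Z = Q.klc P X' Z' := by
  rw [klc_eq hac, klc_eq hac, FP.kl_congr hac h2 h4,
    FP.kl_congr hac (h1.prod ((Fac.snd X Z).trans h2)) (h3.prod ((Fac.snd X' Z').trans h4))]

theorem klc_mono (hac : Q.Ac P) {X : Om → κ} {X' : Om → ι'} {Z : Om → ι} (h : Fac (fun w => (X w, Z w)) X') :
    Q.klc P X' Z ≤ Q.klc P X Z := by
  have := FP.kl_mono hac (h.prod (Fac.snd X Z))
  rw [klc_eq hac, klc_eq hac]
  linarith

theorem klc_chain (hac : Q.Ac P) (X : Om → κ) (X' : Om → ι) (Z : Om → ι') :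
    Q.klc P (fun w => (X w, X' w)) Z = Q.klc P X' Z + Q.klc P X (fun w => (X' w, Z w)) := by
  rw [klc_eq hac, klc_eq hac, klc_eq hac,
    FP.kl_congr hac (X := fun w => ((X w, X' w), Z w)) (Y := fun w => (X w, X' w, Z w))
    (by intro v w h; simp only [Prod.mk.injEq] at h ⊢; tauto) (by intro v w h; simp only [Prod.mk.injEq] at h ⊢; tauto)]
  ring

theorem exp_sub_one_le {x : ℝ} (h0 : 0 ≤ x) (h1 : x ≤ 1) : Real.exp x - 1 ≤ 2 * x := by
  have h := convexOn_exp.2 (Set.mem_univ 0) (Set.mem_univ 1) (sub_nonneg.2 h1) h0 (sub_add_cancel 1 x)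
  simp only [smul_eq_mul, mul_zero, mul_one, zero_add, Real.exp_zero] at h
  have h2 := Real.exp_one_lt_d9
  nlinarith

/-- change of law for a test function -/
theorem E_le_kl (hac : Q.Ac P) {X : Om → κ} {f : Om → ℝ} (hf : Fac X f) (h0 : ∀ w, 0 ≤ f w) (h1 : ∀ w, f w ≤ 1) :
    Q.E f ≤ Q.kl P X + 2 * P.E f := by
  refine (FP.dv' hac hf).trans ?_
  rw [← P.E_smul]
  have := P.E_mono (f := fun w => Real.exp (f w) - 1) (g := fun w => 2 * f w)
    (fun w _ => exp_sub_one_le (h0 w) (h1 w))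
  linarith

/-- change of law for an event -/
theorem Pr_le_kl (hac : Q.Ac P) {X : Om → κ} {A : Om → Prop} (hA : Fac X A) : Q.Pr A ≤ Q.kl P X + 2 * P.Pr A :=
  E_le_kl hac (Fac.ind fun v w h => by rw [hA v w h]) (fun _ => ind_nonneg _) (fun _ => ind_le_one _)

/-- conditional change of law for a test function -/
theorem E_le_klc (hac : Q.Ac P) {X : Om → κ} {Z : Om → ι} {f : Om → ℝ} (hf : Fac (fun w => (X w, Z w)) f)
    (h0 : ∀ w, 0 ≤ f w) (h1 : ∀ w, f w ≤ 1) : Q.E f ≤ Q.klc P X Z + 2 * Q.E (P.ce Z f) := by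
  refine (klc_dv hac X Z hf).trans ?_
  rw [← Q.E_smul]
  have := Q.E_mono (f := fun w => Real.log (P.ce Z (fun v => Real.exp (f v)) w)) (g := fun w => 2 * P.ce Z f w) ?_
  · linarith
  intro w hw
  have h2 : P.ce Z (fun v => Real.exp (f v)) w ≤ 1 + 2 * P.ce Z f w := by
    have h3 : P.ce Z (fun v => 1 + 2 * f v) w = 1 + 2 * P.ce Z f w := by
      rw [P.ce_add, P.ce_const Z 1 (hac w hw)]
      have := P.ce_mul (X := Z) (h := fun _ => (2 : ℝ)) (Fac.const Z 2) f w
      rw [this]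
    rw [← h3]
    exact P.ce_mono (fun v _ => by have := exp_sub_one_le (h0 v) (h1 v); linarith) w
  have h4 : 0 < P.ce Z (fun v => Real.exp (f v)) w := by
    have h5 := P.ce_mono (X := Z) (f := fun _ => 1) (g := fun v => Real.exp (f v))
      (fun v _ => Real.one_le_exp (h0 v)) w
    rw [P.ce_const Z 1 (hac w hw)] at h5
    linarith
  have h6 := Real.log_le_sub_one_of_pos h4
  linarith

/-- conditional change of law for an event -/
theorem Pr_le_klc (hac : Q.Ac P) {X : Om → κ} {Z : Om → ι} {A : Om → Prop} (hA : Fac (fun w => (X w, Z w)) A) :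
    Q.Pr A ≤ Q.klc P X Z + 2 * Q.E (P.ce Z (fun v => ind (A v))) :=
  E_le_klc hac (Fac.ind fun v w h => by rw [hA v w h]) (fun _ => ind_nonneg _) (fun _ => ind_le_one _)

/-- **payment of a rare event** -/
theorem Pr_mul_log_le (hac : Q.Ac P) {X : Om → κ} {A : Om → Prop} (hA : Fac X A) {q : ℝ} (hq : 0 < q) (hq1 : q ≤ 1)
    (h : P.Pr A ≤ q) : Q.Pr A * Real.log (1 / q) ≤ Q.kl P X + Real.log 2 := by
  have h1 := FP.dv hac (X := X) (ψ := fun w => Real.log (1 / q) * ind (A w))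
    ((Fac.ind (s := A) fun v w h => by rw [hA v w h]).comp (fun x => Real.log (1 / q) * x))
  rw [Q.E_smul] at h1
  have h2 : P.E (fun w => Real.exp (Real.log (1 / q) * ind (A w))) ≤ 2 := by
    have h3 : ∀ w, Real.exp (Real.log (1 / q) * ind (A w)) ≤ 1 + 1 / q * ind (A w) := by
      intro w
      by_cases hw : A w
      · rw [ind_of hw, mul_one, mul_one, Real.exp_log (one_div_pos.2 hq)]
        linarith
      · rw [ind_not hw, mul_zero, mul_zero, Real.exp_zero]
        linarith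
    refine (P.E_mono (fun w _ => h3 w)).trans ?_
    rw [P.E_add, P.E_const, P.E_smul]
    have h4 : 1 / q * P.Pr A ≤ 1 / q * q := mul_le_mul_of_nonneg_left h (one_div_pos.2 hq).le
    rw [one_div_mul_cancel hq.ne'] at h4
    have h5 : P.E (fun w => ind (A w)) = P.Pr A := rfl
    rw [h5]
    linarith
  have h6 : 0 < P.E (fun w => Real.exp (Real.log (1 / q) * ind (A w))) := by
    have := P.E_mono (f := fun _ => 1) (g := fun w => Real.exp (Real.log (1 / q) * ind (A w)))
      (fun w _ => Real.one_le_exp (mul_nonneg (Real.log_nonneg (by rw [le_div_iff₀ hq]; linarith)) (ind_nonneg _)))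
    rw [P.E_const] at this
    linarith
  have h7 := Real.log_le_log h6 h2
  have h8 : Real.log (1 / q) * Q.E (fun w => ind (A w)) = Q.Pr A * Real.log (1 / q) := mul_comm _ _
  rw [h8] at h1
  linarith

end

end Pool.Agent.GMH
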