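import Pool.Agent.GMH.RowC0
import Pool.Agent.GMH.OneKL
import Pool.Agent.GMH.HLaw

/-!
# GMH.InP: hardwired points, inputs of KEY3 from the saturation of the run (helper27)

* `FPpi_map2` : independent coordinates, mapped one by one;
* `Bx_all` : the mean over a box; `cls_law` : the law of a class as a mean over the hidden point of box laws;
* `hwy I c`, `hwm D t I c` : the vertices `I` are hardwired to `c`, labels of faces which meet `I` are read from the coin
  tables; `hw_Bx`, `hw_pul` : this pushes (class law) x (tables) to the law of the class with the exact points `c` in `I`;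
-/

set_option autoImplicit false
set_option linter.unusedSectionVars false

namespace Pool.Agent.GMH

open Finset Pool.Agent.PWZ Pool.Agent.M3 Pool.Agent.GM Pool.Agent.GM.Harm

/-! ## independent coordinates -/

section pi2

variable {I Φ Ψ Χ : Type*} [Fintype I] [DecidableEq I] [Fintype Φ] [Fintype Ψ] [Fintype Χ]

theorem E_ind_eq (q : FP Χ) (x : Χ) : q.E (fun z => ind (z = x)) = q.p x := by
  classical
  show ∑ z, q.p z * ind (z = x) = q.p x
  rw [Finset.sum_eq_single x (fun z _ hz => by rw [ind_not hz, mul_zero]) (fun hh => absurd (mem_univ _) hh),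
    ind_of rfl, mul_one]

theorem FPpi_map2 (a : I → FP Φ) (b : I → FP Ψ) (q : I → FP Χ) (T : I → Φ → Ψ → Χ)
    (hT : ∀ i (g : Χ → ℝ), (a i).E (fun x => (b i).E fun z => g (T i x z)) = (q i).E g) (g : (I → Χ) → ℝ) :
    (FPpi a).E (fun θ => (FPpi b).E fun F => g fun i => T i (θ i) (F i)) = (FPpi q).E g := by
  classical
  have h1 : ∀ (θ : I → Φ) (F : I → Ψ), g (fun i => T i (θ i) (F i)) =
      ∑ G : I → Χ, (∏ i, ind (T i (θ i) (F i) = G i)) * g G := by
    intro θ F
    rw [Finset.sum_eq_single (fun i => T i (θ i) (F i))]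
    · rw [Finset.prod_eq_one (fun i _ => ind_of rfl), one_mul]
    · intro G _ hG
      obtain ⟨i, hi⟩ : ∃ i, T i (θ i) (F i) ≠ G i := by
        by_contra hcon
        push Not at hcon
        exact hG (funext fun i => (hcon i).symm)
      rw [Finset.prod_eq_zero (mem_univ i) (ind_not hi), zero_mul]
    · intro hh; exact absurd (mem_univ _) hh
  have h2 : ∀ G : I → Χ, ∑ θ : I → Φ, ∑ F : I → Ψ, (∏ i, (a i).p (θ i)) * ((∏ i, (b i).p (F i)) *
      ∏ i, ind (T i (θ i) (F i) = G i)) = ∏ i, (q i).p (G i) := by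
    intro G
    have e1 : ∀ i, (q i).p (G i) = ∑ x, ∑ z, (a i).p x * ((b i).p z * ind (T i x z = G i)) := by
      intro i
      rw [← E_ind_eq (q i) (G i), ← hT i fun z => ind (z = G i)]
      unfold FP.E
      exact Finset.sum_congr rfl fun x _ => by rw [Finset.mul_sum]
    rw [Finset.prod_congr rfl fun i _ => e1 i]
    have e2 := Finset.prod_univ_sum (fun _ : I => (univ : Finset Φ))
      (fun i x => ∑ z, (a i).p x * ((b i).p z * ind (T i x z = G i)))
    rw [Fintype.piFinset_univ] at e2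
    rw [e2]
    refine Finset.sum_congr rfl fun θ _ => ?_
    have e3 := Finset.prod_univ_sum (fun _ : I => (univ : Finset Ψ))
      (fun i z => (a i).p (θ i) * ((b i).p z * ind (T i (θ i) z = G i)))
    rw [Fintype.piFinset_univ] at e3
    rw [e3]
    refine Finset.sum_congr rfl fun F _ => ?_
    rw [Finset.prod_mul_distrib, Finset.prod_mul_distrib]
  have h3 : (FPpi a).E (fun θ => (FPpi b).E fun F => g fun i => T i (θ i) (F i)) =
      ∑ θ : I → Φ, ∑ F : I → Ψ, ∑ G : I → Χ, (∏ i, (a i).p (θ i)) * ((∏ i, (b i).p (F i)) *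
        ∏ i, ind (T i (θ i) (F i) = G i)) * g G := by
    show ∑ θ : I → Φ, (∏ i, (a i).p (θ i)) * (∑ F : I → Ψ, (∏ i, (b i).p (F i)) * g fun i => T i (θ i) (F i)) = _
    refine Finset.sum_congr rfl fun θ _ => ?_
    rw [Finset.mul_sum]
    refine Finset.sum_congr rfl fun F _ => ?_
    rw [h1 θ F, Finset.mul_sum, Finset.mul_sum]
    exact Finset.sum_congr rfl fun G _ => by ring
  rw [h3]
  show _ = ∑ G : I → Χ, (∏ i, (q i).p (G i)) * g G
  have h4 : ∀ G : I → Χ, (∏ i, (q i).p (G i)) * g G = ∑ θ : I → Φ, ∑ F : I → Ψ, (∏ i, (a i).p (θ i)) *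
      ((∏ i, (b i).p (F i)) * ∏ i, ind (T i (θ i) (F i) = G i)) * g G := by
    intro G
    rw [← h2 G, Finset.sum_mul]
    exact Finset.sum_congr rfl fun θ _ => by rw [Finset.sum_mul]
  rw [Finset.sum_congr rfl fun G _ => h4 G]
  rw [Finset.sum_congr rfl fun θ _ => Finset.sum_comm]
  rw [Finset.sum_comm]

theorem FPpi_map1 (a : I → FP Φ) (q : I → FP Χ) (T : I → Φ → Χ)
    (hT : ∀ i (g : Χ → ℝ), (a i).E (fun x => g (T i x)) = (q i).E g) (g : (I → Χ) → ℝ) :
    (FPpi a).E (fun θ => g fun i => T i (θ i)) = (FPpi q).E g := by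
  have h1 := FPpi_map2 a a q (fun i x _ => T i x) (fun i g => by
    rw [← hT i g]
    exact (a i).E_congr fun x _ => (a i).E_const _) g
  rw [← h1]
  exact (FPpi a).E_congr fun θ _ => ((FPpi a).E_const _).symm

end pi2

/-! ## boxes and classes -/

section box

variable {K X β γ φ υ : Type} [Fintype K] [DecidableEq K] [Fintype X] [Fintype β] [Fintype φ] [Nonempty X] [Nonempty β]
  {D : HD K X β γ φ} {al : ℝ} (h : D.Thick al)

/-- the law of all labels -/
noncomputable def kfa (t : ℕ) (x : X) (y : K → β) : FP (K → φ) := FPpi fun l => kf1 h t l x y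

/-- **the mean over a box** -/
theorem Bx_all {S : K → Finset β} (hS : ∀ j, (S j).Nonempty) (t : ℕ) (a : X) (g : (K → β) × (K → φ) → ℝ) :
    (Bx h t a S).E g = (∑ y ∈ Fintype.piFinset S, (kfa h t a y).E fun F => g (y, F)) / bsz S := by
  classical
  have hB : (Fintype.card β : ℝ) ^ Fintype.card K ≠ 0 := pow_ne_zero _ (by exact_mod_cast Fintype.card_ne_zero)
  unfold Bx
  rw [FP.cond_E (Pr_box_ne h hS t a), Pr_box]
  have h1 : (Pa h t a).E (fun w => ind (inBox S w) * g w) =
      (∑ y ∈ Fintype.piFinset S, (kfa h t a y).E fun F => g (y, F)) / (Fintype.card β : ℝ) ^ Fintype.card K := by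
    unfold FP.E
    rw [Fintype.sum_prod_type, Finset.sum_div]
    have z : ∀ y : K → β, y ∉ Fintype.piFinset S →
        ∑ F : K → φ, (Pa h t a).p (y, F) * (ind (inBox S (y, F)) * g (y, F)) = 0 := by
      intro y hy
      refine Finset.sum_eq_zero fun F _ => ?_
      rw [ind_not (p := inBox S (y, F)) (fun hh => hy (Fintype.mem_piFinset.2 hh)), zero_mul, mul_zero]
    rw [← Finset.sum_subset (Finset.subset_univ (Fintype.piFinset S)) fun y _ hy => z y hy]
    refine Finset.sum_congr rfl fun y hy => ?_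
    rw [Finset.sum_div]
    refine Finset.sum_congr rfl fun F _ => ?_
    have hin : inBox S (y, F) := Fintype.mem_piFinset.1 hy
    rw [ind_of hin, one_mul]
    show (∏ l, D.kf t l a y (F l)) / (Fintype.card β : ℝ) ^ Fintype.card K * g (y, F) =
      (∏ l, D.kf t l a y (F l)) * g (y, F) / (Fintype.card β : ℝ) ^ Fintype.card K
    ring
  rw [h1, div_div_div_cancel_right₀ hB]

/-- **the law of a class**: `V` of one value of `BB K0` -/
theorem cls_law {t : ℕ} {K0 : Finset K} {V : Pt K X β φ → Prop} (hV : Fac (fun w => (w.1, BB D t K0 w)) V)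
    (hV1 : ∀ v w, V v → V w → BB D t K0 v = BB D t K0 w) {w0 : Pt K X β φ} (hw0 : V w0)
    (hV0 : (D.P h t).Pr V ≠ 0) (g : Pt K X β φ → ℝ) :
    ((D.P h t).cond V).E g =
      (FP.unif X).E (fun x => ind (V (x, w0.2)) * (Bx h t x (bxs D t K0 w0.2.1)).E fun u => g (x, u)) /
        (FP.unif X).E (fun x => ind (V (x, w0.2))) := by
  classical
  have hS := fun j => bxs_ne (D := D) t K0 w0.2.1 j
  have hc : bsz (bxs D t K0 w0.2.1) / (Fintype.card β : ℝ) ^ Fintype.card K ≠ 0 := by
    have h5 : (Fintype.card β : ℝ) ^ Fintype.card K ≠ 0 := pow_ne_zero _ (by exact_mod_cast Fintype.card_ne_zero)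
    exact div_ne_zero (bsz_pos hS).ne' h5
  have hVx : ∀ x (u : (K → β) × (K → φ)), V (x, u) ↔ V (x, w0.2) ∧ inBox (bxs D t K0 w0.2.1) u := by
    intro x u
    have hin : ∀ {x' : X} {u' : (K → β) × (K → φ)}, V (x', u') → inBox (bxs D t K0 w0.2.1) u' ∧ D.qa t x' = D.qa t w0.1 := by
      intro x' u' hv
      have := hV1 _ _ hv hw0
      rw [BB_eq] at this
      exact ⟨inBox_bxs.2 ⟨this.1, this.2.2⟩, this.2.1⟩
    have heq : inBox (bxs D t K0 w0.2.1) u → ((x, BB D t K0 (x, u)) : X × _) = (x, BB D t K0 (x, w0.2)) := by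
      intro hh
      have h2 := inBox_bxs.1 hh
      simp only [Prod.mk.injEq, BB_eq]
      exact ⟨trivial, h2.1, trivial, h2.2⟩
    constructor
    · intro hv
      have h3 := (hin hv).1
      exact ⟨by rw [← hV (x, u) (x, w0.2) (heq h3)]; exact hv, h3⟩
    · rintro ⟨h1, h2⟩
      rw [hV (x, u) (x, w0.2) (heq h2)]; exact h1
  have key : ∀ g : Pt K X β φ → ℝ, (D.P h t).E (fun v => ind (V v) * g v) =
      (bsz (bxs D t K0 w0.2.1) / (Fintype.card β : ℝ) ^ Fintype.card K) *
      (FP.unif X).E (fun x => ind (V (x, w0.2)) * (Bx h t x (bxs D t K0 w0.2.1)).E fun u => g (x, u)) := by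
    intro g
    rw [E_Pa, ← FP.E_smul]
    refine (FP.unif X).E_congr fun x _ => ?_
    have e1 : (Pa h t x).E (fun u => ind (V (x, u)) * g (x, u)) =
        ind (V (x, w0.2)) * (Pa h t x).E (fun u => ind (inBox (bxs D t K0 w0.2.1) u) * g (x, u)) := by
      rw [← FP.E_smul]
      refine (Pa h t x).E_congr fun u _ => ?_
      rw [propext (hVx x u), ind_and, mul_assoc]
    rw [e1]
    have e2 : (Bx h t x (bxs D t K0 w0.2.1)).E (fun u => g (x, u)) =
        (Pa h t x).E (fun u => ind (inBox (bxs D t K0 w0.2.1) u) * g (x, u)) /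
          (bsz (bxs D t K0 w0.2.1) / (Fintype.card β : ℝ) ^ Fintype.card K) := by
      unfold Bx
      rw [FP.cond_E (Pr_box_ne h hS t x), Pr_box]
    rw [e2]
    have hk := hc
    generalize bsz (bxs D t K0 w0.2.1) / (Fintype.card β : ℝ) ^ Fintype.card K = k at hk ⊢
    field_simp
  rw [FP.cond_E hV0, key g]
  have h1 := key fun _ => 1
  simp only [mul_one, FP.E_const] at h1
  have h2 : (D.P h t).Pr V = bsz (bxs D t K0 w0.2.1) / (Fintype.card β : ℝ) ^ Fintype.card K *
      (FP.unif X).E (fun x => ind (V (x, w0.2))) := h1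
  rw [h2, mul_div_mul_left _ _ hc]

/-! ## hardwired points -/

open Classical in
/-- the points of `I` are hardwired -/
noncomputable def hwy (I : Finset K) (c y : K → β) (j : K) : β := if j ∈ I then c j else y j

open Classical in
/-- the hardwired sample point -/
noncomputable def hwm (D : HD K X β γ φ) (t : ℕ) (I : Finset K) (c : K → β) (w : Pt K X β φ × (K → Cn K X β φ)) :
    Pt K X β φ :=
  (w.1.1, hwy I c w.1.2.1, fun l => if ∃ i ∈ I, i ≠ l then rd D t w.2 l w.1.1 (hwy I c w.1.2.1) else w.1.2.2 l)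

open Classical in
/-- the hardwired box -/
noncomputable def hwS (I : Finset K) (c : K → β) (S : K → Finset β) (j : K) : Finset β := if j ∈ I then {c j} else S j

theorem hwS_ne {I : Finset K} {c : K → β} {S : K → Finset β} (hS : ∀ j, (S j).Nonempty) (j : K) :
    (hwS I c S j).Nonempty := by
  unfold hwS
  split_ifs
  · exact Finset.singleton_nonempty _
  · exact hS j

/-- means of functions of the hardwired points -/
theorem avg_hw {I : Finset K} {c : K → β} {S : K → Finset β} (hS : ∀ j, (S j).Nonempty) (Φ : (K → β) → ℝ) :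
    (∑ y ∈ Fintype.piFinset S, Φ (hwy I c y)) / bsz S =
      (∑ y ∈ Fintype.piFinset (hwS I c S), Φ y) / bsz (hwS I c S) := by
  classical
  -- uniform laws on the sets
  have hu : ∀ (S0 : K → Finset β) (hS0 : ∀ j, (S0 j).Nonempty), ∃ q : K → FP β,
      (∀ j b, (q j).p b = ind (b ∈ S0 j) / ((S0 j).card : ℝ)) := by
    intro S0 hS0
    refine ⟨fun j => ⟨fun b => ind (b ∈ S0 j) / ((S0 j).card : ℝ), fun b => div_nonneg (ind_nonneg _) (Nat.cast_nonneg _), ?_⟩,
      fun j b => rfl⟩
    rw [← Finset.sum_div]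
    have e1 : ∑ b, ind (b ∈ S0 j) = ((S0 j).card : ℝ) := by
      rw [← Finset.sum_filter_add_sum_filter_not univ (fun b => b ∈ S0 j)]
      have z : ∑ b ∈ univ.filter (fun b => ¬ b ∈ S0 j), ind (b ∈ S0 j) = 0 :=
        Finset.sum_eq_zero fun b hb => ind_not (Finset.mem_filter.1 hb).2
      rw [z, add_zero]
      have e2 : univ.filter (fun b => b ∈ S0 j) = S0 j := by ext b; simp
      rw [e2, Finset.sum_congr rfl fun b hb => ind_of hb, Finset.sum_const, nsmul_eq_mul, mul_one]
    rw [e1]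
    exact div_self (by exact_mod_cast (hS0 j).card_pos.ne')
  have hE : ∀ (S0 : K → Finset β) (hS0 : ∀ j, (S0 j).Nonempty) (q : K → FP β)
      (hq : ∀ j b, (q j).p b = ind (b ∈ S0 j) / ((S0 j).card : ℝ)) (Ψ : (K → β) → ℝ),
      (FPpi q).E Ψ = (∑ y ∈ Fintype.piFinset S0, Ψ y) / bsz S0 := by
    intro S0 hS0 q hq Ψ
    have e1 : ∀ y : K → β, (FPpi q).p y = ind (y ∈ Fintype.piFinset S0) / bsz S0 := by
      intro y
      show ∏ j, (q j).p (y j) = _
      rw [Finset.prod_congr rfl fun j _ => hq j (y j), Finset.prod_div_distrib]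
      unfold bsz
      congr 1
      by_cases hy : y ∈ Fintype.piFinset S0
      · rw [ind_of hy]
        exact Finset.prod_eq_one fun j _ => ind_of (Fintype.mem_piFinset.1 hy j)
      · rw [ind_not hy]
        rw [Fintype.mem_piFinset] at hy
        push Not at hy
        obtain ⟨j, hj⟩ := hy
        exact Finset.prod_eq_zero (mem_univ j) (ind_not hj)
    unfold FP.E
    rw [Finset.sum_congr rfl fun y _ => by rw [e1 y], Finset.sum_div]
    rw [← Finset.sum_subset (Finset.subset_univ (Fintype.piFinset S0))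
      fun y _ hy => by rw [ind_not hy, zero_div, zero_mul]]
    refine Finset.sum_congr rfl fun y hy => ?_
    rw [ind_of hy]; ring
  obtain ⟨q, hq⟩ := hu S hS
  obtain ⟨q', hq'⟩ := hu (hwS I c S) (fun j => hwS_ne hS j)
  rw [← hE S hS q hq fun y => Φ (hwy I c y), ← hE (hwS I c S) (fun j => hwS_ne hS j) q' hq' Φ]
  refine FPpi_map1 q q' (fun j b => if j ∈ I then c j else b) ?_ Φ
  intro j g
  by_cases hj : j ∈ I
  · simp only [hj, if_true]
    rw [FP.E_const]
    have e1 : (q' j).E g = (q' j).E fun _ => g (c j) := by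
      refine (q' j).E_congr fun b hb => ?_
      have : b ∈ hwS I c S j := by
        by_contra hcon
        exact hb (by rw [hq' j b, ind_not hcon, zero_div])
      unfold hwS at this
      rw [if_pos hj] at this
      rw [Finset.mem_singleton.1 this]
    rw [e1, FP.E_const]
  · simp only [hj, if_false]
    unfold FP.E
    refine Finset.sum_congr rfl fun b _ => ?_
    rw [hq j b, hq' j b]
    unfold hwS
    rw [if_neg hj]

/-- the hardwired box law -/
theorem hw_Bx {I : Finset K} {c : K → β} {S : K → Finset β} (hS : ∀ j, (S j).Nonempty) {t : ℕ}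
    (hc : ∀ i ∈ I, ∀ b ∈ S i, D.qb t b = D.qb t (c i)) (x : X) (f : Pt K X β φ → ℝ) :
    (coinT h t).E (fun θ => (Bx h t x S).E fun u => f (hwm D t I c ((x, u), θ))) =
      (Bx h t x (hwS I c S)).E fun u => f (x, u) := by
  classical
  have h1 : (coinT h t).E (fun θ => (Bx h t x S).E fun u => f (hwm D t I c ((x, u), θ))) =
      (∑ y ∈ Fintype.piFinset S, (kfa h t x (hwy I c y)).E fun F => f (x, hwy I c y, F)) / bsz S := by
    have e1 : ∀ θ, (Bx h t x S).E (fun u => f (hwm D t I c ((x, u), θ))) =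
        (∑ y ∈ Fintype.piFinset S, (kfa h t x y).E fun F => f (hwm D t I c ((x, y, F), θ))) / bsz S := fun θ =>
      Bx_all h hS t x fun u => f (hwm D t I c ((x, u), θ))
    simp only [e1]
    rw [FP.E_div_const, FP.E_sum]
    congr 1
    refine Finset.sum_congr rfl fun y hy => ?_
    rw [Fintype.mem_piFinset] at hy
    -- the tables and the kernels
    refine FPpi_map2 (fun l => coinF h t l) (fun l => kf1 h t l x y) (fun l => kf1 h t l x (hwy I c y))
      (fun l θ F => if ∃ i ∈ I, i ≠ l then θ (x, rep D t (univ.erase l) (hwy I c y)) else F) ?_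
      (fun F => f (x, hwy I c y, F))
    intro l g
    by_cases hl : ∃ i ∈ I, i ≠ l
    · simp only [hl, if_true, FP.E_const]
      have e2 : (coinF h t l).E (fun θ => g (θ (x, rep D t (univ.erase l) (hwy I c y)))) =
          (kf1 h t l x (rep D t (univ.erase l) (hwy I c y))).E g := by
        unfold coinF
        exact @FPpi_E (X × (K → β)) φ _ (decI K X β) _ (fun i => kf1 h t l i.1 i.2)
          (x, rep D t (univ.erase l) (hwy I c y)) g
      rw [e2]
      have h3 := rep_same (D := D) (t := t) (univ.erase l) (hwy I c y)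
      have h4 : D.kf t l x (rep D t (univ.erase l) (hwy I c y)) = D.kf t l x (hwy I c y) :=
        D.dep t l x _ _ (fun j hj => h3.1 j (Finset.mem_erase.2 ⟨hj, mem_univ j⟩)) (h3.2 l)
      show ∑ F, D.kf t l x (rep D t (univ.erase l) (hwy I c y)) F * g F = ∑ F, D.kf t l x (hwy I c y) F * g F
      rw [h4]
    · simp only [hl, if_false]
      rw [FP.E_const]
      push Not at hl
      have h4 : D.kf t l x y = D.kf t l x (hwy I c y) := by
        refine D.dep t l x _ _ (fun j hj => ?_) ?_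
        · unfold hwy
          rw [if_neg (fun hh => hj (hl j hh))]
        · unfold hwy
          split_ifs with hlI
          · exact hc l hlI _ (hy l)
          · rfl
      show ∑ F, D.kf t l x y F * g F = ∑ F, D.kf t l x (hwy I c y) F * g F
      rw [h4]
  rw [h1, avg_hw hS fun y => (kfa h t x y).E fun F => f (x, y, F), Bx_all h (fun j => hwS_ne hS j)]

/-- the class with exact points in `I` -/
def hwV (I : Finset K) (c : K → β) (V : Pt K X β φ → Prop) (v : Pt K X β φ) : Prop := V v ∧ ∀ i ∈ I, v.2.1 i = c i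

/-- **the hardwired class law** : (class law of `K0`) x (tables) is mapped to the law of the class with the exact points
`c` in `I` -/
theorem hw_pul {t : ℕ} {K0 I : Finset K} (hKI : Disjoint K0 I) {V : Pt K X β φ → Prop}
    (hV : Fac (fun w => (w.1, BB D t K0 w)) V)
    (hV1 : ∀ v w, V v → V w → BB D t K0 v = BB D t K0 w) {w0 : Pt K X β φ} (hw0 : V w0)
    (hV0 : (D.P h t).Pr V ≠ 0) {c : K → β} (hc : ∀ i ∈ I, D.qb t (w0.2.1 i) = D.qb t (c i)) :
    (D.P h t).Pr (hwV I c V) ≠ 0 ∧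
      Pul (FP.pr ((D.P h t).cond V) (coinT h t)) ((D.P h t).cond (hwV I c V)) (hwm D t I c) := by
  classical
  set w1 : Pt K X β φ := (w0.1, hwy I c w0.2.1, w0.2.2) with hw1
  -- the point `w1` is in the hardwired class
  have hqb : ∀ j, D.qb t (hwy I c w0.2.1 j) = D.qb t (w0.2.1 j) := by
    intro j
    unfold hwy
    split_ifs with hj
    · exact (hc j hj).symm
    · rfl
  have hVw1 : ∀ (x : X) (F : K → φ), V (x, w0.2) ↔ V (x, hwy I c w0.2.1, F) := by
    intro x F
    have e : ((x, BB D t K0 (x, w0.2)) : X × _) = (x, BB D t K0 (x, hwy I c w0.2.1, F)) := by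
      simp only [Prod.mk.injEq, BB_eq]
      refine ⟨trivial, fun j hj => ?_, trivial, fun j => (hqb j).symm⟩
      unfold hwy
      rw [if_neg (Finset.disjoint_left.1 hKI hj)]
    rw [show V (x, w0.2) = V (x, hwy I c w0.2.1, F) from hV (x, w0.2) _ e]
  have hV'w1 : hwV I c V w1 := by
    refine ⟨(hVw1 w0.1 w0.2.2).1 hw0, fun i hi => ?_⟩
    show hwy I c w0.2.1 i = c i
    unfold hwy
    rw [if_pos hi]
  have hV' : Fac (fun w => (w.1, BB D t (K0 ∪ I) w)) (hwV I c V) := by
    intro v w hvw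
    simp only [Prod.mk.injEq, BB_eq] at hvw
    have e : V v = V w := by
      refine hV v w ?_
      simp only [Prod.mk.injEq, BB_eq]
      exact ⟨hvw.1, fun j hj => hvw.2.1 j (Finset.mem_union_left _ hj), hvw.2.2⟩
    unfold hwV
    rw [e]
    refine propext ⟨fun hh => ⟨hh.1, fun i hi => ?_⟩, fun hh => ⟨hh.1, fun i hi => ?_⟩⟩
    · rw [← hvw.2.1 i (Finset.mem_union_right _ hi)]; exact hh.2 i hi
    · rw [hvw.2.1 i (Finset.mem_union_right _ hi)]; exact hh.2 i hi
  have hV'1 : ∀ v w, hwV I c V v → hwV I c V w → BB D t (K0 ∪ I) v = BB D t (K0 ∪ I) w := by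
    intro v w hv hw
    have h1 := hV1 v w hv.1 hw.1
    rw [BB_eq] at h1 ⊢
    refine ⟨fun j hj => ?_, h1.2⟩
    rcases Finset.mem_union.1 hj with hj | hj
    · exact h1.1 j hj
    · rw [hv.2 j hj, hw.2 j hj]
  -- the indicator of the hidden point
  have hA : ∀ x, hwV I c V (x, w1.2) ↔ V (x, w0.2) := by
    intro x
    constructor
    · intro hh
      exact (hVw1 x w0.2.2).2 hh.1
    · intro hh
      exact ⟨(hVw1 x w0.2.2).1 hh, hV'w1.2⟩
  -- the boxes
  have hbox : bxs D t (K0 ∪ I) w1.2.1 = hwS I c (bxs D t K0 w0.2.1) := by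
    funext j
    unfold bxs hwS
    by_cases hjI : j ∈ I
    · rw [if_pos (Finset.mem_union_right _ hjI), if_pos hjI]
      show {hwy I c w0.2.1 j} = _
      unfold hwy
      rw [if_pos hjI]
    · rw [if_neg hjI]
      have e1 : w1.2.1 j = w0.2.1 j := by
        show hwy I c w0.2.1 j = _
        unfold hwy
        rw [if_neg hjI]
      rw [e1]
      by_cases hj : j ∈ K0
      · rw [if_pos (Finset.mem_union_left _ hj)]
        exact (if_pos hj).symm
      · rw [if_neg (fun hh => (Finset.mem_union.1 hh).elim hj hjI)]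
        exact (if_neg hj).symm
  have hS := fun j => bxs_ne (D := D) t K0 w0.2.1 j
  have hcell : ∀ i ∈ I, ∀ b ∈ bxs D t K0 w0.2.1 i, D.qb t b = D.qb t (c i) := by
    intro i hi b hb
    unfold bxs at hb
    rw [if_neg (Finset.disjoint_right.1 hKI hi)] at hb
    exact (mem_cB.1 hb).trans (hc i hi)
  -- the hardwired class has positive probability
  have hnum : 0 < (FP.unif X).E (fun x => ind (V (x, w0.2))) := by
    have h1 := FP.Pr_pos_of (P := FP.unif X) (S := fun x => V (x, w0.2)) (w := w0.1) ?_ hw0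
    · exact h1
    · show (Fintype.card X : ℝ)⁻¹ ≠ 0
      exact inv_ne_zero (by exact_mod_cast Fintype.card_ne_zero)
  have hne : (D.P h t).Pr (hwV I c V) ≠ 0 := by
    -- lower bound by the class of w1
    have h0 : (D.P h t).E (fun v => ind (hwV I c V v)) =
        (FP.unif X).E (fun x => ind (V (x, w0.2)) * (Pa h t x).Pr (inBox (hwS I c (bxs D t K0 w0.2.1)))) := by
      rw [E_Pa]
      refine (FP.unif X).E_congr fun x _ => ?_
      unfold FP.Pr
      rw [← FP.E_smul]
      refine (Pa h t x).E_congr fun u _ => ?_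
      rw [← ind_and]
      congr 1
      refine propext ⟨fun hh => ?_, fun hh => ?_⟩
      · have h2 := hV'1 _ _ hh hV'w1
        rw [BB_eq] at h2
        have h3 : inBox (bxs D t (K0 ∪ I) w1.2.1) u := inBox_bxs.2 ⟨h2.1, h2.2.2⟩
        rw [hbox] at h3
        refine ⟨?_, h3⟩
        have e : ((x, BB D t (K0 ∪ I) (x, u)) : X × _) = (x, BB D t (K0 ∪ I) (x, w1.2)) := by
          simp only [Prod.mk.injEq, BB_eq]
          exact ⟨trivial, h2.1, trivial, h2.2.2⟩
        have h4 : hwV I c V (x, w1.2) := by rw [← hV' (x, u) (x, w1.2) e]; exact hh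
        exact (hA x).1 h4
      · obtain ⟨h1, h3⟩ := hh
        rw [← hbox] at h3
        have h2 := inBox_bxs.1 h3
        have e : ((x, BB D t (K0 ∪ I) (x, u)) : X × _) = (x, BB D t (K0 ∪ I) (x, w1.2)) := by
          simp only [Prod.mk.injEq, BB_eq]
          exact ⟨trivial, h2.1, trivial, h2.2⟩
        show hwV I c V (x, u)
        rw [hV' (x, u) (x, w1.2) e]
        exact (hA x).2 h1
    show (D.P h t).E (fun v => ind (hwV I c V v)) ≠ 0
    rw [h0]
    have h5 : ∀ x, (Pa h t x).Pr (inBox (hwS I c (bxs D t K0 w0.2.1))) =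
        bsz (hwS I c (bxs D t K0 w0.2.1)) / (Fintype.card β : ℝ) ^ Fintype.card K := fun x => Pr_box h _ t x
    simp only [h5]
    rw [FP.E_mul_const]
    refine mul_ne_zero hnum.ne' (div_ne_zero (bsz_pos fun j => hwS_ne hS j).ne' (pow_ne_zero _ ?_))
    exact_mod_cast Fintype.card_ne_zero
  refine ⟨hne, Pul.mk fun f => ?_⟩
  rw [cls_law h hV' hV'1 hV'w1 hne f, hbox]
  have e0 : (FP.pr ((D.P h t).cond V) (coinT h t)).E (fun w => f (hwm D t I c w)) =
      (coinT h t).E (fun θ => ((D.P h t).cond V).E fun v => f (hwm D t I c (v, θ))) := by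
    rw [FP.pr_E, FP.E_swap]
  rw [e0]
  have e1 : ∀ θ, ((D.P h t).cond V).E (fun v => f (hwm D t I c (v, θ))) =
      (FP.unif X).E (fun x => ind (V (x, w0.2)) * (Bx h t x (bxs D t K0 w0.2.1)).E fun u => f (hwm D t I c ((x, u), θ))) /
        (FP.unif X).E (fun x => ind (V (x, w0.2))) := fun θ => cls_law h hV hV1 hw0 hV0 fun v => f (hwm D t I c (v, θ))
  simp only [e1]
  rw [FP.E_div_const, FP.E_swap]
  have e2 : (FP.unif X).E (fun x => (coinT h t).E fun θ => ind (V (x, w0.2)) *
      (Bx h t x (bxs D t K0 w0.2.1)).E fun u => f (hwm D t I c ((x, u), θ))) =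
      (FP.unif X).E (fun x => ind (hwV I c V (x, w1.2)) * (Bx h t x (hwS I c (bxs D t K0 w0.2.1))).E fun u => f (x, u)) := by
    refine (FP.unif X).E_congr fun x _ => ?_
    rw [FP.E_smul, hw_Bx h hS hcell x f, propext (hA x)]
  rw [e2]
  congr 1
  exact (FP.unif X).E_congr fun x _ => by rw [propext (hA x)]

end box

/-! ## transfer of informations -/

section pul

variable {Om Om' : Type*} [Fintype Om] [Fintype Om'] {P Q : FP Om} {P' Q' : FP Om'} {π : Om → Om'} {κ ι ι' : Type*}

theorem pul_cond (H : Pul P P' π) {E : Om' → Prop} (hE : P'.Pr E ≠ 0) : Pul (P.cond fun w => E (π w)) (P'.cond E) π := by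
  have h1 : P.Pr (fun w => E (π w)) = P'.Pr E := H.Pr E
  refine Pul.mk fun f => ?_
  rw [FP.cond_E hE, FP.cond_E (by rw [h1]; exact hE), h1]
  congr 1
  exact H.E fun v => ind (E v) * f v

theorem pul_klc (H1 : Pul Q Q' π) (H2 : Pul P P' π) (X : Om' → κ) (Z : Om' → ι) :
    Q.klc P (fun w => X (π w)) (fun w => Z (π w)) = Q'.klc P' X Z := by
  unfold FP.klc
  rw [← H1.E]
  refine Q.E_congr fun w _ => ?_
  have a := H1.m (fun v => (X v, Z v)) w
  have b := H1.m Z w
  have c := H2.m (fun v => (X v, Z v)) w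
  have d := H2.m Z w
  rw [← a, ← b, ← c, ← d]

theorem pul_I (H : Pul P P' π) (X : Om' → κ) (Y : Om' → ι) (Z : Om' → ι') :
    P.I (fun w => X (π w)) (fun w => Y (π w)) (fun w => Z (π w)) = P'.I X Y Z := by
  rw [FP.I_eq_E_log, FP.I_eq_E_log, ← H.E]
  refine P.E_congr fun w _ => ?_
  have a := H.m (fun v => (X v, Y v, Z v)) w
  have b := H.m Z w
  have c := H.m (fun v => (X v, Z v)) w
  have d := H.m (fun v => (Y v, Z v)) w
  rw [← a, ← b, ← c, ← d]

theorem m_congr_eq {X X' : Om → κ} (h : ∀ v, P.p v ≠ 0 → X v = X' v) {w : Om} (hw : P.p w ≠ 0) : P.m X w = P.m X' w := by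
  unfold FP.m
  refine P.E_congr fun v hv => ?_
  rw [h v hv, h w hw]

theorem klc_congr_eq (hac : Q.Ac P) {X X' : Om → κ} {Z Z' : Om → ι} (hX : ∀ v, P.p v ≠ 0 → X v = X' v)
    (hZ : ∀ v, P.p v ≠ 0 → Z v = Z' v) : Q.klc P X Z = Q.klc P X' Z' := by
  unfold FP.klc
  refine Q.E_congr fun w hw => ?_
  have hp := hac w hw
  rw [m_congr_eq (P := Q) (X := fun v => (X v, Z v)) (X' := fun v => (X' v, Z' v))
      (fun v hv => by rw [hX v (hac v hv), hZ v (hac v hv)]) hw,
    m_congr_eq (P := Q) (X := Z) (X' := Z') (fun v hv => hZ v (hac v hv)) hw,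
    m_congr_eq (P := P) (X := fun v => (X v, Z v)) (X' := fun v => (X' v, Z' v))
      (fun v hv => by rw [hX v hv, hZ v hv]) hp, m_congr_eq (P := P) (X := Z) (X' := Z') hZ hp]

theorem I_congr_eq {X X' : Om → κ} {Y Y' : Om → ι} {Z Z' : Om → ι'} (hX : ∀ v, P.p v ≠ 0 → X v = X' v)
    (hY : ∀ v, P.p v ≠ 0 → Y v = Y' v) (hZ : ∀ v, P.p v ≠ 0 → Z v = Z' v) : P.I X Y Z = P.I X' Y' Z' := by
  rw [FP.I_eq_E_log, FP.I_eq_E_log]
  refine P.E_congr fun w hw => ?_
  rw [m_congr_eq (P := P) (X := fun v => (X v, Y v, Z v)) (X' := fun v => (X' v, Y' v, Z' v))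
      (fun v hv => by rw [hX v hv, hY v hv, hZ v hv]) hw,
    m_congr_eq (P := P) (X := Z) (X' := Z') hZ hw,
    m_congr_eq (P := P) (X := fun v => (X v, Z v)) (X' := fun v => (X' v, Z' v))
      (fun v hv => by rw [hX v hv, hZ v hv]) hw,
    m_congr_eq (P := P) (X := fun v => (Y v, Z v)) (X' := fun v => (Y' v, Z' v))
      (fun v hv => by rw [hY v hv, hZ v hv]) hw]

end pul

/-! ## the hardwired row bound -/

section hwb

variable {K X β γ φ υ ν : Type} [Fintype K] [DecidableEq K] [Fintype X] [Fintype β] [Fintype φ] [Nonempty X] [Nonempty β]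
  {D : HD K X β γ φ} {al : ℝ} {h : D.Thick al} {N : Finset K → ℝ} {S : Finset (Finset K)}

open Classical in
/-- the labels which are read from the tables when the vertices `I` are hardwired, and known at `M` -/
noncomputable def tl (I M : Finset K) (w : Pt K X β φ) (l : K) : Option φ :=
  if univ.erase l ⊆ M ∧ ∃ i ∈ I, i ≠ l then some (w.2.2 l) else none

theorem hwm_tl {t : ℕ} {I M : Finset K} {c : K → β} {v w : Pt K X β φ} {θ : K → Cn K X β φ} (h1 : v.1 = w.1)
    (h2 : ∀ j ∈ M, hwy I c v.2.1 j = hwy I c w.2.1 j)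
    (h3 : ∀ j, D.qb t (hwy I c v.2.1 j) = D.qb t (hwy I c w.2.1 j)) :
    tl I M (hwm D t I c (v, θ)) = tl I M (hwm D t I c (w, θ)) := by
  classical
  funext l
  unfold tl
  by_cases hl : univ.erase l ⊆ M ∧ ∃ i ∈ I, i ≠ l
  · rw [if_pos hl, if_pos hl]
    show some (if ∃ i ∈ I, i ≠ l then rd D t θ l v.1 (hwy I c v.2.1) else v.2.2 l) =
      some (if ∃ i ∈ I, i ≠ l then rd D t θ l w.1 (hwy I c w.2.1) else w.2.2 l)
    rw [if_pos hl.2, if_pos hl.2, h1]
    exact congrArg some (rd_dep θ l w.1 (fun j hj => h2 j (hl.1 (Finset.mem_erase.2 ⟨hj, mem_univ j⟩))) h3)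
  · rw [if_neg hl, if_neg hl]

/-- the event: known at the exact points `I` -/
def EvI (D : HD K X β γ φ) (t : ℕ) (I : Finset K) (E : Pt K X β φ → Prop) : Prop :=
  Fac (fun w => (w.1, BB D t I w, tl I I w)) E

/-- additions: `G J` known at `I ∪ J`, the labels among those whose face meets `I` -/
def GI (D : HD K X β γ φ) (t : ℕ) (I : Finset K) (G : Finset K → Pt K X β φ → ν) : Prop :=
  ∀ J, Fac (fun w => (w.1, BB D t (I ∪ J) w, tl I (I ∪ J) w)) (G J)

/-- **HARDWIRED ROW BOUND** : `V` = public class with one node, exact points `c` at the vertices `I`, `E` = event of positive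
probability, `G` = additions; `J0` disjoint from `I` -/
theorem hw_bound {U : Finset K → X → (K → β) → υ} {t : ℕ}
    (hU : ∀ I x y y', (∀ j ∈ I, y j = y' j) → (∀ j, D.qb t (y j) = D.qb t (y' j)) → U I x y = U I x y')
    (hs : SatA (D.P h t) (BB D t) N S (LL U) (Dep D t)) (hN : ∀ J ∈ S, 0 ≤ N J) (hK2 : ∀ l : K, ¬ univ.erase l ⊆ ∅)
    (hKS : ∅ ∈ S) {I J0 : Finset K} (hJ0S : J0 ∈ S) (hJ0 : J0.Nonempty) (hIJ : Disjoint J0 I)
    {V : Pt K X β φ → Prop} (hV : Fac (fun w => (le (LL U) ∅ w, BB D t ∅ w)) V)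
    (hV1 : ∀ v w, V v → V w → BB D t ∅ v = BB D t ∅ w) {w0 : Pt K X β φ} (hw0 : V w0)
    (hV0 : (D.P h t).Pr V ≠ 0) {c : K → β} (hc : ∀ i ∈ I, D.qb t (w0.2.1 i) = D.qb t (c i))
    {E : Pt K X β φ → Prop} (hE : EvI D t I E) (hE0 : ((D.P h t).cond (hwV I c V)).Pr E ≠ 0)
    {G : Finset K → Pt K X β φ → ν} (hG : GI D t I G) {b : ℝ}
    (hb : ∑ J ∈ S, N J * cost ((FP.pr ((D.P h t).cond V) (coinT h t)).cond fun w => E (hwm D t I c w))
      (fun I w => BB D t I w.1) (fun I w => LL U I w.1) (fun J w => G J (hwm D t I c w)) J ≤ b) :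
    N J0 * ((((D.P h t).cond (hwV I c V)).cond E).klc ((D.P h t).cond (hwV I c V)) (LL U J0)
        (fun w => (lo (LL U) J0 w, BB D t J0 w)) +
      (((D.P h t).cond (hwV I c V)).cond E).I (LL U J0) (lo G J0) (fun w => (lo (LL U) J0 w, BB D t J0 w))) ≤
      2 * N ∅ * (Real.log (1 / ((D.P h t).cond (hwV I c V)).Pr E) + 1) + 2 * b := by
  classical
  set Q := (D.P h t).cond V with hQ
  set R := coinT h t with hR
  set m := hwm D t I c with hm
  set Q' := (D.P h t).cond (hwV I c V) with hQ'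
  have hV' : Fac (fun w => (w.1, BB D t ∅ w)) V := by
    intro v w hvw
    simp only [Prod.mk.injEq, BB_eq] at hvw
    refine hV v w ?_
    simp only [Prod.mk.injEq, le_eq, BB_eq]
    refine ⟨fun I' hI' => ?_, hvw.2⟩
    rw [LL_eq]
    refine ⟨?_, fun l hl => ?_⟩
    · rw [hvw.1]
      exact hU I' w.1 v.2.1 w.2.1 (fun j hj => absurd (hI' hj) (Finset.notMem_empty j)) hvw.2.2.2
    · exact absurd (hl ▸ hI' : univ.erase l ⊆ ∅) (hK2 l)
  obtain ⟨hne, hpul⟩ := hw_pul h (Finset.disjoint_empty_left I) hV' hV1 hw0 hV0 hc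
  have hPr : (FP.pr Q R).Pr (fun w => E (m w)) = Q'.Pr E := hpul.Pr E
  have hE1 : (FP.pr Q R).Pr (fun w => E (m w)) ≠ 0 := by rw [hPr]; exact hE0
  have hcls := hs.cls hU hK2 hV hV0
  -- the node of the support
  have hsup : ∀ w, (FP.pr Q R).p w ≠ 0 → ∀ i ∈ I, D.qb t (w.1.2.1 i) = D.qb t (c i) := by
    intro w hw i hi
    have hVw : V w.1 := (cond_supp hV0 ((pr_supp Q R).1 hw).1).1
    have := hV1 _ _ hVw hw0
    rw [BB_eq] at this
    rw [this.2.2 i]
    exact hc i hi
  have hqb : ∀ w, (FP.pr Q R).p w ≠ 0 → ∀ j, D.qb t (hwy I c w.1.2.1 j) = D.qb t (w.1.2.1 j) := by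
    intro w hw j
    unfold hwy
    split_ifs with hj
    · exact (hsup w hw j hj).symm
    · rfl
  -- labels and base informations at `J ⊆ J0`
  have hLL : ∀ J, J ⊆ J0 → ∀ w, (FP.pr Q R).p w ≠ 0 → LL U J w.1 = LL U J (m w) := by
    intro J hJ w hw
    have hJI : ∀ j ∈ J, j ∉ I := fun j hj => Finset.disjoint_left.1 hIJ (hJ hj)
    rw [LL_eq]
    refine ⟨?_, fun l hl => ?_⟩
    · show U J w.1.1 w.1.2.1 = U J w.1.1 (hwy I c w.1.2.1)
      refine hU J w.1.1 _ _ (fun j hj => ?_) fun j => (hqb w hw j).symm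
      unfold hwy
      rw [if_neg (hJI j hj)]
    · show w.1.2.2 l = if ∃ i ∈ I, i ≠ l then rd D t w.2 l w.1.1 (hwy I c w.1.2.1) else w.1.2.2 l
      rw [if_neg]
      rintro ⟨i, hi, hil⟩
      exact hJI i (hl ▸ Finset.mem_erase.2 ⟨hil, mem_univ i⟩) hi
  have hlo : ∀ w, (FP.pr Q R).p w ≠ 0 → lo (fun I (w : Pt K X β φ × (K → Cn K X β φ)) => LL U I w.1) J0 w =
      lo (LL U) J0 (m w) := by
    intro w hw
    funext J
    unfold lo
    by_cases hJ : J ⊂ J0
    · rw [if_pos hJ, if_pos hJ]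
      exact congrArg some (hLL J hJ.1 w hw)
    · rw [if_neg hJ, if_neg hJ]
  have hBB : ∀ w, (FP.pr Q R).p w ≠ 0 → BB D t J0 w.1 = BB D t J0 (m w) := by
    intro w hw
    rw [BB_eq]
    refine ⟨fun j hj => ?_, rfl, fun j => (hqb w hw j).symm⟩
    show w.1.2.1 j = hwy I c w.1.2.1 j
    unfold hwy
    rw [if_neg (Finset.disjoint_left.1 hIJ hj)]
  -- saturation
  have hphi : 0 ≤ Phi (FP.pr Q R) (fun I w => BB D t I w.1) N S (fun I w => LL U I w.1)
      (cutK ∅ (fun w => E (m w)) (fun J w => G J (m w))) := by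
    refine hcls.coin hN _ fun θ => ?_
    have hpt : ∀ (J : Finset K) (a b : Pt K X β φ), a.1 = b.1 → (∀ j ∈ J, a.2.1 j = b.2.1 j) →
        (∀ j, D.qb t (a.2.1 j) = D.qb t (b.2.1 j)) → (∀ j ∈ I ∪ J, hwy I c a.2.1 j = hwy I c b.2.1 j) ∧
        (∀ j, D.qb t (hwy I c a.2.1 j) = D.qb t (hwy I c b.2.1 j)) := by
      intro J a b _ h2 h3
      refine ⟨fun j hj => ?_, fun j => ?_⟩
      · unfold hwy
        by_cases hjI : j ∈ I
        · rw [if_pos hjI, if_pos hjI]
        · rw [if_neg hjI, if_neg hjI]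
          exact h2 j ((Finset.mem_union.1 hj).resolve_left hjI)
      · unfold hwy
        by_cases hjI : j ∈ I
        · rw [if_pos hjI, if_pos hjI]
        · rw [if_neg hjI, if_neg hjI]; exact h3 j
    constructor
    · intro J a b' h1 h2 h3
      show cutK ∅ (fun w => E (m w)) (fun J w => G J (m w)) J (a, θ) = cutK ∅ (fun w => E (m w)) (fun J w => G J (m w)) J (b', θ)
      have eE : E (m (a, θ)) = E (m (b', θ)) := by
        have h4 := hpt ∅ a b' h1 (fun j hj => absurd hj (Finset.notMem_empty j)) h3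
        rw [Finset.union_empty] at h4
        refine hE _ _ ?_
        simp only [Prod.mk.injEq, BB_eq]
        exact ⟨h1, ⟨h4.1, congrArg (D.qa t) h1, h4.2⟩, hwm_tl h1 h4.1 h4.2⟩
      have eG : G J (m (a, θ)) = G J (m (b', θ)) := by
        have h4 := hpt J a b' h1 h2 h3
        refine hG J _ _ ?_
        simp only [Prod.mk.injEq, BB_eq]
        exact ⟨h1, ⟨h4.1, congrArg (D.qa t) h1, h4.2⟩, hwm_tl h1 h4.1 h4.2⟩
      by_cases hEa : E (m (a, θ))
      · have hEb : E (m (b', θ)) := by rw [← eE]; exact hEa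
        rw [cutK_in (w := (a, θ)) (Finset.empty_subset J) hEa, cutK_in (w := (b', θ)) (Finset.empty_subset J) hEb, eG]
      · have hEb : ¬ E (m (b', θ)) := by rw [← eE]; exact hEa
        rw [cutK_off (w := (a, θ)) hEa, cutK_off (w := (b', θ)) hEb]
    · intro J hJ
      exact absurd (Finset.empty_subset J) hJ
  have h1 := joint (P := FP.pr Q R) (B := fun I w => BB D t I w.1) (L := fun I w => LL U I w.1) (S := S) (N := N)
    (K0 := ∅) (E := fun w => E (m w)) (G := fun J w => G J (m w)) hE1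
    (fun J hJ => absurd (Finset.empty_subset J) hJ) hN hKS hphi
  set PE := (FP.pr Q R).cond (fun w => E (m w)) with hPE
  have hJ0a : J0 ∈ above S ∅ := by
    refine mem_above.2 ⟨hJ0S, Finset.empty_subset _, fun hh => ?_⟩
    obtain ⟨j, hj⟩ := hJ0
    exact absurd (hh hj) (Finset.notMem_empty j)
  have hac : PE.Ac (FP.pr Q R) := FP.cond_ac _ _
  have h4 : N J0 * PE.klc (FP.pr Q R) (fun w => LL U J0 w.1)
      (fun w => (lo (fun I (w : Pt K X β φ × (K → Cn K X β φ)) => LL U I w.1) J0 w, BB D t J0 w.1)) ≤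
      ∑ J ∈ above S ∅, N J * PE.klc (FP.pr Q R) (fun w => LL U J w.1)
        (fun w => (lo (fun I (w : Pt K X β φ × (K → Cn K X β φ)) => LL U I w.1) J w, BB D t J w.1)) :=
    Finset.single_le_sum (f := fun J => N J * PE.klc (FP.pr Q R) (fun w => LL U J w.1)
      (fun w => (lo (fun I (w : Pt K X β φ × (K → Cn K X β φ)) => LL U I w.1) J w, BB D t J w.1)))
      (fun J hJ => mul_nonneg (hN J (mem_above.1 hJ).1) (klc_nonneg hac _ _)) hJ0a
  have h5 : Phi PE (fun I w => BB D t I w.1) N S (fun I w => LL U I w.1) (fun J w => G J (m w)) =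
      2 * ∑ J ∈ S, N J * cost PE (fun I w => BB D t I w.1) (fun I w => LL U I w.1) (fun J w => G J (m w)) J -
      ∑ J ∈ S, N J * gain PE (fun I w => BB D t I w.1) (fun I w => LL U I w.1) (fun J w => G J (m w)) J := by
    unfold Phi
    rw [Finset.mul_sum, ← Finset.sum_sub_distrib]
    exact Finset.sum_congr rfl fun J _ => by ring
  have h6 : N J0 * PE.I (fun w => LL U J0 w.1) (lo (fun J w => G J (m w)) J0)
      (fun w => (lo (fun I (w : Pt K X β φ × (K → Cn K X β φ)) => LL U I w.1) J0 w, BB D t J0 w.1)) ≤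
      ∑ J ∈ S, N J * gain PE (fun I w => BB D t I w.1) (fun I w => LL U I w.1) (fun J w => G J (m w)) J :=
    Finset.single_le_sum (f := fun J => N J * gain PE (fun I w => BB D t I w.1) (fun I w => LL U I w.1)
      (fun J w => G J (m w)) J) (fun J hJ => mul_nonneg (hN J hJ) gain_nonneg) hJ0S
  -- transfer
  have hpE := pul_cond hpul hE0
  have e1 : PE.klc (FP.pr Q R) (fun w => LL U J0 w.1)
      (fun w => (lo (fun I (w : Pt K X β φ × (K → Cn K X β φ)) => LL U I w.1) J0 w, BB D t J0 w.1)) =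
      (Q'.cond E).klc Q' (LL U J0) (fun w => (lo (LL U) J0 w, BB D t J0 w)) := by
    rw [← pul_klc hpE hpul (LL U J0) (fun w => (lo (LL U) J0 w, BB D t J0 w))]
    exact klc_congr_eq hac (fun v hv => hLL J0 (Finset.Subset.refl _) v hv) fun v hv => by
      rw [hlo v hv, hBB v hv]
  have e2 : PE.I (fun w => LL U J0 w.1) (lo (fun J w => G J (m w)) J0)
      (fun w => (lo (fun I (w : Pt K X β φ × (K → Cn K X β φ)) => LL U I w.1) J0 w, BB D t J0 w.1)) =
      (Q'.cond E).I (LL U J0) (lo G J0) (fun w => (lo (LL U) J0 w, BB D t J0 w)) := by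
    rw [← pul_I hpE (LL U J0) (lo G J0) (fun w => (lo (LL U) J0 w, BB D t J0 w))]
    refine I_congr_eq (fun v hv => hLL J0 (Finset.Subset.refl _) v (hac v hv)) (fun v _ => rfl) fun v hv => ?_
    rw [hlo v (hac v hv), hBB v (hac v hv)]
  rw [e1] at h4
  rw [e2] at h6
  rw [h5, hPr] at h1
  rw [mul_add]
  linarith

end hwb

end Pool.Agent.GMH
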