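import Pool.Agent.GMH.RowC0

/-!
# GMH.RowC: coin tables for the labels (statements helper27, proofs helper88)

Definitions in `GMH/RowC0`.

* `rd_law`, `rd_law_all`, `rd_law_pi`, `rd_supp`;
* `mix Λ θ` : the labels in `Λ` are read from the tables, the others stay: the law does not change (`Pa_mix`, `Bx_mix`,
  `P_mix`);
* `lts` : possible letters, at most `1 / al`; costs of hardwired rows (`cost_count`, `rows_count`, `sel_count`).
-/

set_option autoImplicit false
set_option linter.unusedSectionVars false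

namespace Pool.Agent.GMH

open Finset Pool.Agent.PWZ Pool.Agent.M3 Pool.Agent.GM Pool.Agent.GM.Harm

/-! ## product laws -/

namespace RC

section pi

variable {I Φ : Type*} [Fintype I] [DecidableEq I] [Fintype Φ]

theorem FPpi_prod (q : I → FP Φ) (g : I → Φ → ℝ) : (FPpi q).E (fun θ => ∏ i, g i (θ i)) = ∏ i, (q i).E (g i) := by
  have h := Finset.prod_univ_sum (fun _ : I => (univ : Finset Φ)) (fun i f => (q i).p f * g i f)
  rw [Fintype.piFinset_univ] at h
  unfold FP.E
  rw [h]
  refine Finset.sum_congr rfl fun θ _ => ?_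
  rw [Finset.prod_mul_distrib]
  rfl

theorem E_ind_eq (P : FP Φ) (z0 : Φ) : P.E (fun z => ind (z = z0)) = P.p z0 := by
  classical
  show ∑ z, P.p z * ind (z = z0) = P.p z0
  rw [Finset.sum_eq_single z0 (fun z _ hz => by rw [ind_not hz, mul_zero]) (fun hh => absurd (mem_univ _) hh),
    ind_of rfl, mul_one]

theorem sum_ind_all {φ : Type*} [Fintype φ] (R : I → φ) (g : (I → φ) → ℝ) :
    g R = ∑ F : I → φ, (∏ i, ind (R i = F i)) * g F := by
  rw [Finset.sum_eq_single R]
  · rw [Finset.prod_eq_one fun i _ => ind_of rfl, one_mul]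
  · intro F _ hF
    obtain ⟨i, hi⟩ := Function.ne_iff.1 hF
    rw [Finset.prod_eq_zero (mem_univ i) (ind_not fun hh => hi hh.symm), zero_mul]
  · intro hh; exact absurd (mem_univ _) hh

/-- joint law of functions of the coordinates -/
theorem FPpi_joint {φ : Type*} [Fintype φ] (q : I → FP Φ) (f : I → Φ → φ) (r : I → FP φ)
    (hr : ∀ i F, (q i).E (fun z => ind (f i z = F)) = (r i).p F) (g : (I → φ) → ℝ) :
    (FPpi q).E (fun θ => g fun i => f i (θ i)) = (FPpi r).E g := by
  have h1 : (FPpi q).E (fun θ => g fun i => f i (θ i)) =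
      (FPpi q).E (fun θ => ∑ F : I → φ, (∏ i, ind (f i (θ i) = F i)) * g F) :=
    (FPpi q).E_congr fun θ _ => sum_ind_all (fun i => f i (θ i)) g
  rw [h1, FP.E_sum]
  unfold FPpi
  unfold FP.E
  refine Finset.sum_congr rfl fun F _ => ?_
  have h2 := (FPpi q).E_mul_const (g F) (fun θ => ∏ i, ind (f i (θ i) = F i))
  rw [FPpi_prod q fun i z => ind (f i z = F i)] at h2
  refine Eq.trans h2 ?_
  congr 1
  exact Finset.prod_congr rfl fun i _ => hr i (F i)

/-- resampling the coordinates in `Λ` -/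
theorem FPpi_mix (q : I → FP Φ) (Λ : Finset I) [∀ i, Decidable (i ∈ Λ)] (f : (I → Φ) → ℝ) :
    (FPpi q).E (fun F' => (FPpi q).E fun F => f fun i => if i ∈ Λ then F' i else F i) = (FPpi q).E f := by
  have h1 : ∀ F' F : I → Φ, f (fun i => if i ∈ Λ then F' i else F i) =
      ∑ G : I → Φ, ((∏ i, (if i ∈ Λ then ind (F' i = G i) else 1)) *
        ∏ i, (if i ∈ Λ then 1 else ind (F i = G i))) * f G := by
    intro F' F
    rw [sum_ind_all (fun i => if i ∈ Λ then F' i else F i) f]
    refine Finset.sum_congr rfl fun G _ => ?_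
    rw [← Finset.prod_mul_distrib]
    congr 1
    refine Finset.prod_congr rfl fun i _ => ?_
    by_cases hi : i ∈ Λ
    · simp only [if_pos hi, mul_one]
    · simp only [if_neg hi, one_mul]
  have h2 : ∀ F' : I → Φ, (FPpi q).E (fun F => f fun i => if i ∈ Λ then F' i else F i) =
      ∑ G : I → Φ, (∏ i, (if i ∈ Λ then ind (F' i = G i) else 1)) *
        ((∏ i, (q i).E (fun z => if i ∈ Λ then 1 else ind (z = G i))) * f G) := by
    intro F'
    simp only [h1 F']
    rw [FP.E_sum]
    refine Finset.sum_congr rfl fun G _ => ?_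
    rw [FP.E_mul_const, FP.E_smul, FPpi_prod q fun i z => if i ∈ Λ then 1 else ind (z = G i)]
    ring
  simp only [h2]
  rw [FP.E_sum]
  unfold FP.E
  refine Finset.sum_congr rfl fun G _ => ?_
  have h3 := (FPpi q).E_mul_const ((∏ i, (q i).E (fun z => if i ∈ Λ then 1 else ind (z = G i))) * f G)
    (fun F' => ∏ i, (if i ∈ Λ then ind (F' i = G i) else 1))
  rw [FPpi_prod q fun i z => if i ∈ Λ then ind (z = G i) else 1] at h3
  refine Eq.trans h3 ?_
  rw [← mul_assoc, ← Finset.prod_mul_distrib]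
  congr 1
  refine Finset.prod_congr rfl fun i _ => ?_
  have h4 : (q i).E (fun z => ind (z = G i)) = (q i).p (G i) := E_ind_eq (q i) (G i)
  by_cases hi : i ∈ Λ
  · simp only [if_pos hi]
    rw [h4, FP.E_const, mul_one]
  · simp only [if_neg hi]
    rw [h4, FP.E_const, one_mul]

end pi

end RC

open RC

section coin

variable {K X β γ φ υ : Type} [Fintype K] [DecidableEq K] [Fintype X] [Fintype β] [Fintype φ] [Nonempty X] [Nonempty β]
  {D : HD K X β γ φ} {al : ℝ} (h : D.Thick al)

/-- the law of the label at the representative -/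
theorem kf_rep (t : ℕ) (l : K) (x : X) (y : K → β) : D.kf t l x (rep D t (univ.erase l) y) = D.kf t l x y := by
  have h1 := rep_same (D := D) (t := t) (univ.erase l) y
  exact D.dep t l x _ _ (fun j hj => h1.1 j (Finset.mem_erase.2 ⟨hj, mem_univ j⟩)) (h1.2 l)

/-- one reading of one table -/
theorem coinF_E (t : ℕ) (l : K) (x : X) (y : K → β) (g : φ → ℝ) :
    (coinF h t l).E (fun z => g (z (x, rep D t (univ.erase l) y))) = ∑ F, D.kf t l x y F * g F := by
  have h0 : (coinF h t l).E (fun z => g (z (x, rep D t (univ.erase l) y))) =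
      (kf1 h t l x (rep D t (univ.erase l) y)).E g := by
    unfold coinF
    exact @FPpi_E (X × (K → β)) φ _ (decI K X β) _ (fun i => kf1 h t l i.1 i.2) (x, rep D t (univ.erase l) y) g
  rw [h0]
  show ∑ F, D.kf t l x (rep D t (univ.erase l) y) F * g F = _
  rw [kf_rep]

/-- joint law of the readings of all labels at one `(x, y)`, as a product law -/
theorem rd_law_pi (t : ℕ) (x : X) (y : K → β) (g : (K → φ) → ℝ) :
    (coinT h t).E (fun θ => g fun l => rd D t θ l x y) = (FPpi fun l => kf1 h t l x y).E g := by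
  classical
  refine FPpi_joint (fun l => coinF h t l) (fun l z => z (x, rep D t (univ.erase l) y)) (fun l => kf1 h t l x y)
    (fun l F => ?_) g
  rw [coinF_E h t l x y fun F' => ind (F' = F)]
  show ∑ F', D.kf t l x y F' * ind (F' = F) = D.kf t l x y F
  rw [Finset.sum_eq_single F (fun z _ hz => by rw [ind_not hz, mul_zero]) (fun hh => absurd (mem_univ _) hh),
    ind_of rfl, mul_one]

/-- joint law of the readings of all labels at one `(x, y)` -/
theorem rd_law_all (t : ℕ) (x : X) (y : K → β) (g : (K → φ) → ℝ) :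
    (coinT h t).E (fun θ => g fun l => rd D t θ l x y) = ∑ F : K → φ, (∏ l, D.kf t l x y (F l)) * g F :=
  rd_law_pi h t x y g

theorem rd_law (t : ℕ) (l : K) (x : X) (y : K → β) (g : φ → ℝ) :
    (coinT h t).E (fun θ => g (rd D t θ l x y)) = ∑ F, D.kf t l x y F * g F := by
  have h0 := FPpi_E (fun l => coinF h t l) l (fun z => g (z (x, rep D t (univ.erase l) y)))
  rw [coinF_E] at h0
  exact h0

theorem rd_supp {t : ℕ} {θ : K → Cn K X β φ} (hθ : (coinT h t).p θ ≠ 0) (l : K) (x : X) (y : K → β) :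
    D.kf t l x y (rd D t θ l x y) ≠ 0 := by
  have h1 : (coinF h t l).p (θ l) ≠ 0 := FPpi_supp hθ l
  have h2 : (kf1 h t l x (rep D t (univ.erase l) y)).p (θ l (x, rep D t (univ.erase l) y)) ≠ 0 :=
    @FPpi_supp (X × (K → β)) φ _ (decI K X β) _ (fun i => kf1 h t l i.1 i.2) (θ l) h1
      (x, rep D t (univ.erase l) y)
  have h3 : D.kf t l x (rep D t (univ.erase l) y) (rd D t θ l x y) ≠ 0 := h2
  rw [kf_rep] at h3
  exact h3

open Classical in
/-- the labels in `Λ` are read from the tables -/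
noncomputable def mix (D : HD K X β γ φ) (t : ℕ) (Λ : Finset K) (θ : K → Cn K X β φ) (x : X) (w : (K → β) × (K → φ)) :
    (K → β) × (K → φ) := (w.1, fun l => if l ∈ Λ then rd D t θ l x w.1 else w.2 l)

/-- the law given the hidden point as a mean of product laws -/
theorem Pa_E (t : ℕ) (a : X) (f : (K → β) × (K → φ) → ℝ) :
    (Pa h t a).E f = (∑ y : K → β, (FPpi fun l => kf1 h t l a y).E fun F => f (y, F)) /
      (Fintype.card β : ℝ) ^ Fintype.card K := by
  unfold FP.E
  rw [Fintype.sum_prod_type, Finset.sum_div]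
  refine Finset.sum_congr rfl fun y _ => ?_
  rw [Finset.sum_div]
  refine Finset.sum_congr rfl fun F _ => ?_
  show (∏ l, D.kf t l a y (F l)) / (Fintype.card β : ℝ) ^ Fintype.card K * f (y, F) =
    (∏ l, D.kf t l a y (F l)) * f (y, F) / (Fintype.card β : ℝ) ^ Fintype.card K
  ring

theorem Pa_mix (t : ℕ) (Λ : Finset K) (a : X) (f : (K → β) × (K → φ) → ℝ) :
    (coinT h t).E (fun θ => (Pa h t a).E fun w => f (mix D t Λ θ a w)) = (Pa h t a).E f := by
  classical
  rw [Pa_E h t a f]
  have h1 : (coinT h t).E (fun θ => (Pa h t a).E fun w => f (mix D t Λ θ a w)) =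
      (coinT h t).E (fun θ => (∑ y : K → β, (FPpi fun l => kf1 h t l a y).E fun F =>
        f (y, fun l => if l ∈ Λ then rd D t θ l a y else F l)) / (Fintype.card β : ℝ) ^ Fintype.card K) := by
    refine (coinT h t).E_congr fun θ _ => ?_
    exact Pa_E h t a fun w => f (mix D t Λ θ a w)
  rw [h1, FP.E_div_const, FP.E_sum]
  congr 1
  refine Finset.sum_congr rfl fun y _ => ?_
  rw [rd_law_pi h t a y fun R => (FPpi fun l => kf1 h t l a y).E fun F => f (y, fun l => if l ∈ Λ then R l else F l)]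
  exact FPpi_mix (fun l => kf1 h t l a y) Λ fun F => f (y, F)

theorem Bx_mix {S : K → Finset β} (hS : ∀ j, (S j).Nonempty) (t : ℕ) (Λ : Finset K) (a : X)
    (f : (K → β) × (K → φ) → ℝ) :
    (coinT h t).E (fun θ => (Bx h t a S).E fun w => f (mix D t Λ θ a w)) = (Bx h t a S).E f := by
  have h1 : ∀ g : (K → β) × (K → φ) → ℝ, (Bx h t a S).E g =
      (Pa h t a).E (fun w => ind (inBox S w) * g w) / (Pa h t a).Pr (inBox S) := by
    intro g
    unfold Bx
    rw [FP.cond_E (Pr_box_ne h hS t a)]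
  rw [h1 f, ← Pa_mix h t Λ a fun w => ind (inBox S w) * f w]
  simp only [h1]
  rw [FP.E_div_const]
  rfl

theorem P_mix (t : ℕ) (Λ : Finset K) (f : Pt K X β φ → ℝ) :
    (coinT h t).E (fun θ => (D.P h t).E fun w => f (w.1, mix D t Λ θ w.1 w.2)) = (D.P h t).E f := by
  rw [E_Pa h t f]
  simp only [E_Pa]
  rw [FP.E_swap]
  refine (FP.unif X).E_congr fun a _ => ?_
  exact Pa_mix h t Λ a fun w => f (a, w)

/-! ## possible letters and costs -/

open Classical in
/-- the letters of probability at least `al` -/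
noncomputable def lts (D : HD K X β γ φ) (t : ℕ) (al : ℝ) (l : K) (x : X) (y : K → β) : Finset φ :=
  univ.filter fun F => al ≤ D.kf t l x y F

include h in
theorem lts_card (t : ℕ) (l : K) (x : X) (y : K → β) : ((lts D t al l x y).card : ℝ) ≤ 1 / al := by
  classical
  rw [le_div_iff₀ h.pos]
  rw [← h.one t l x y]
  calc ((lts D t al l x y).card : ℝ) * al = ∑ _F ∈ lts D t al l x y, al := by rw [Finset.sum_const, nsmul_eq_mul]
    _ ≤ ∑ F ∈ lts D t al l x y, D.kf t l x y F := by
        refine Finset.sum_le_sum fun F hF => ?_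
        unfold lts at hF
        exact (Finset.mem_filter.1 hF).2
    _ ≤ _ := Finset.sum_le_sum_of_subset_of_nonneg (Finset.subset_univ _) fun F _ _ => h.nn t l _ _ F

include h in
theorem one_le_al (l : K) : 1 ≤ 1 / al := by
  obtain ⟨x⟩ := (inferInstance : Nonempty X)
  obtain ⟨b⟩ := (inferInstance : Nonempty β)
  obtain ⟨F, hF⟩ : ∃ F, D.kf 0 l x (fun _ => b) F ≠ 0 := by
    by_contra hcon
    push Not at hcon
    have := h.one 0 l x (fun _ => b)
    simp [hcon] at this
  have h1 : F ∈ lts D 0 al l x (fun _ => b) := by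
    classical
    unfold lts
    exact Finset.mem_filter.2 ⟨mem_univ _, h.thick 0 l x x (fun _ => b) F rfl hF⟩
  have h2 : (1 : ℝ) ≤ ((lts D 0 al l x (fun _ => b)).card : ℝ) := by
    exact_mod_cast Finset.card_pos.2 ⟨F, h1⟩
  exact h2.trans (lts_card h 0 l x _)

theorem rd_mem {t : ℕ} {θ : K → Cn K X β φ} (hθ : (coinT h t).p θ ≠ 0) (l : K) {x x' : X} (hx : D.qa t x = D.qa t x')
    {y y' : K → β} (h1 : ∀ j, j ≠ l → y j = y' j) (h2 : ∀ j, D.qb t (y j) = D.qb t (y' j)) :
    rd D t θ l x y ∈ lts D t al l x' y' := by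
  classical
  have h3 := rd_supp h hθ l x y
  rw [D.dep t l x y y' h1 (h2 l)] at h3
  unfold lts
  exact Finset.mem_filter.2 ⟨mem_univ _, h.thick t l x x' y' _ hx h3⟩

variable {N : Finset K → ℝ} {S : Finset (Finset K)} {ν : Type}

/-- **cost of an addition by counting**: if the fibres of `(thin letters, points, node)` have at most `M J` values -/
theorem cost_count {Q : FP (Pt K X β φ × (K → Cn K X β φ))} {t : ℕ} {U : Finset K → X → (K → β) → υ}
    {G : Finset K → Pt K X β φ × (K → Cn K X β φ) → ν} {M : Finset K → ℝ} (hN : ∀ J ∈ S, 0 ≤ N J)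
    (hM : ∀ J ∈ S, ∀ w, Q.p w ≠ 0 → ∃ s : Finset ν, (s.card : ℝ) ≤ M J ∧
      ∀ v, Q.p v ≠ 0 → BB D t J v.1 = BB D t J w.1 → G J v ∈ s) :
    ∑ J ∈ S, N J * cost Q (fun I w => BB D t I w.1) (fun I w => LL U I w.1) G J ≤ ∑ J ∈ S, N J * Real.log (M J) := by
  refine Finset.sum_le_sum fun J hJ => mul_le_mul_of_nonneg_left ?_ (hN J hJ)
  unfold cost
  refine Hc_le_card Q _ _ fun w hw => ?_
  obtain ⟨s, hs, hs2⟩ := hM J hJ w hw
  refine ⟨s, hs, fun v hv hvw => hs2 v hv ?_⟩
  exact congrArg (fun p => p.2.2) hvw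

/-- the points of a hardwired row in a fibre -/
theorem row_pts {t0 t : ℕ} (ht : t0 ≤ t) {l c : K} (b : β) {v w : Pt K X β φ}
    (hvw : BB D t ((univ.erase l).erase c) v = BB D t ((univ.erase l).erase c) w) :
    (∀ j, j ≠ l → Function.update v.2.1 c b j = Function.update w.2.1 c b j) ∧
      ∀ j, D.qb t0 (Function.update v.2.1 c b j) = D.qb t0 (Function.update w.2.1 c b j) := by
  rw [BB_eq] at hvw
  refine ⟨fun j hj => ?_, fun j => ?_⟩
  · by_cases hjc : j = c
    · subst hjc; rw [Function.update_self, Function.update_self]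
    · rw [Function.update_of_ne hjc, Function.update_of_ne hjc]
      exact hvw.1 j (Finset.mem_erase.2 ⟨hjc, Finset.mem_erase.2 ⟨hj, mem_univ j⟩⟩)
  · by_cases hjc : j = c
    · subst hjc; rw [Function.update_self, Function.update_self]
    · rw [Function.update_of_ne hjc, Function.update_of_ne hjc]
      exact qb_mono D ht (hvw.2.2 j)

/-- values of `m` hardwired rows `c i` of the label `l` at the vertex `c` in a fibre of the points off `l`, `c` and the node:
at most `(1 / al) ^ m`; the table is of an EARLIER time `t0 ≤ t` -/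
theorem rows_count {t0 t : ℕ} (ht : t0 ≤ t) {l c : K} (_hlc : l ≠ c) {m : ℕ} (r : Fin m → β)
    (w : Pt K X β φ) :
    ∃ s : Finset (Fin m → φ), (s.card : ℝ) ≤ (1 / al) ^ m ∧ ∀ (v : Pt K X β φ) (θ : K → Cn K X β φ), (coinT h t0).p θ ≠ 0 →
      BB D t ((univ.erase l).erase c) v = BB D t ((univ.erase l).erase c) w →
      (fun i => rd D t0 θ l v.1 (Function.update v.2.1 c (r i))) ∈ s := by
  classical
  refine ⟨Fintype.piFinset fun i => lts D t0 al l w.1 (Function.update w.2.1 c (r i)), ?_, ?_⟩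
  · rw [Fintype.card_piFinset]
    push_cast
    calc ∏ i : Fin m, ((lts D t0 al l w.1 (Function.update w.2.1 c (r i))).card : ℝ) ≤ ∏ _i : Fin m, (1 / al) :=
          Finset.prod_le_prod (fun i _ => Nat.cast_nonneg _) fun i _ => lts_card h t0 l _ _
      _ = (1 / al) ^ m := by rw [Finset.prod_const, Finset.card_univ, Fintype.card_fin]
  · intro v θ hθ hvw
    rw [Fintype.mem_piFinset]
    intro i
    have h1 := row_pts (D := D) ht (r i) hvw
    exact rd_mem h hθ l (qa_mono D ht (BB_eq.1 hvw).2.1) h1.1 h1.2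

/-- the same for a selected row: at most `m / al` values of (selected index, letter) -/
theorem sel_count {t0 t : ℕ} (ht : t0 ≤ t) {l c : K} (_hlc : l ≠ c) {m : ℕ} (r : Fin m → β)
    (w : Pt K X β φ) :
    ∃ s : Finset (Fin m × φ), (s.card : ℝ) ≤ m / al ∧ ∀ (v : Pt K X β φ) (θ : K → Cn K X β φ) (i : Fin m),
      (coinT h t0).p θ ≠ 0 → BB D t ((univ.erase l).erase c) v = BB D t ((univ.erase l).erase c) w →
      (i, rd D t0 θ l v.1 (Function.update v.2.1 c (r i))) ∈ s := by
  classical
  refine ⟨univ.biUnion fun i => (lts D t0 al l w.1 (Function.update w.2.1 c (r i))).image fun F => (i, F), ?_, ?_⟩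
  · have h1 : ((univ.biUnion fun i : Fin m =>
        (lts D t0 al l w.1 (Function.update w.2.1 c (r i))).image fun F => (i, F)).card : ℝ) ≤
        ∑ i : Fin m, (((lts D t0 al l w.1 (Function.update w.2.1 c (r i))).image fun F => (i, F)).card : ℝ) := by
      exact_mod_cast Finset.card_biUnion_le
    refine h1.trans ?_
    calc ∑ i : Fin m, (((lts D t0 al l w.1 (Function.update w.2.1 c (r i))).image fun F => (i, F)).card : ℝ) ≤
          ∑ _i : Fin m, 1 / al := by
            refine Finset.sum_le_sum fun i _ => le_trans ?_ (lts_card h t0 l w.1 (Function.update w.2.1 c (r i)))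
            exact_mod_cast Finset.card_image_le
      _ = m / al := by rw [Finset.sum_const, Finset.card_univ, Fintype.card_fin, nsmul_eq_mul, mul_one_div]
  · intro v θ i hθ hvw
    have h1 := row_pts (D := D) ht (r i) hvw
    refine Finset.mem_biUnion.2 ⟨i, mem_univ _, Finset.mem_image.2 ⟨_, ?_, rfl⟩⟩
    exact rd_mem h hθ l (qa_mono D ht (BB_eq.1 hvw).2.1) h1.1 h1.2

end coin

end Pool.Agent.GMH
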