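import Pool.Agent.GMH.Stmt
import Pool.Agent.GMH.InP
import Pool.Agent.GMH.RowC

/-!
# GMH.EndT: the potentials at a saturated time, items (E1), (E2) (helper67; plan of helper12 and helper91)

Coins: fresh points of the cells (`K → Pn β`, law `ptT D t`) and the tables of the labels (`coinT h t`).
`mJ D t J w` = the point whose coordinates in `J` are the old ones and the others are fresh, labels inside `J` old, the
other labels read from the tables; `mJ_law` : its law is `D.P h t`.

* `tr_Hc` : entropies of images; `coin_sat` : saturation with coins; `et_ineq` : additions `gg U (a J) (c J) (mJ J)`;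
* `ent_leT` : entropies after the split, from the budget;
* **`endT_thin`**, `endT_pj` : (E1), the potential of the thin labels is at most `18 n Lam / N1`;
* **`endT_top1`** : (E2a) a top letter tells at most `18 n Lam / N1` about the thin letter of the missing vertex;
* **`endT_top2s`**, `endT_top2` : (E2b) one top letter and the two others: `12 Lam / n + 6 Lam / N1`.
-/

set_option autoImplicit false
set_option linter.unusedSectionVars false

namespace Pool.Agent.GMH

open Finset Pool.Agent.PWZ Pool.Agent.M3 Pool.Agent.GM Pool.Agent.GM.Harm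

namespace EndT

/-! ## images -/

section tr

variable {Om Om' κ ι : Type*} [Fintype Om] [Fintype Om'] {P : FP Om} {Q : FP Om'} {m : Om' → Om}
  (hm : ∀ f : Om → ℝ, Q.E (fun w => f (m w)) = P.E f)
include hm

theorem tr_m (X : Om → κ) (w : Om') : Q.m (fun w => X (m w)) w = P.m X (m w) := hm fun v => ind (X v = X (m w))

theorem tr_H (X : Om → κ) : Q.H (fun w => X (m w)) = P.H X := by
  unfold FP.H
  rw [← hm fun w => -Real.log (P.m X w)]
  exact Q.E_congr fun w _ => by rw [tr_m hm]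

theorem tr_Hc (X : Om → κ) (Z : Om → ι) : Q.Hc (fun w => X (m w)) (fun w => Z (m w)) = P.Hc X Z := by
  unfold FP.Hc
  rw [tr_H hm fun w => (X w, Z w), tr_H hm Z]

/-- entropies given more than an image -/
theorem tr_le (X : Om → κ) (Z : Om → ι) {ι' : Type*} {Y : Om' → ι'} (h : Fac Y (fun w => Z (m w))) :
    Q.Hc (fun w => X (m w)) Y ≤ P.Hc X Z := by
  rw [← tr_Hc hm X Z]
  exact Q.Hc_anti _ h

end tr

/-! ## saturation with coins -/

section sat

variable {Om Th K : Type*} {υ ν : Type*} {β : Finset K → Type*} [Fintype Om] [Fintype Th] {P : FP Om}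
  {B : (J : Finset K) → Om → β J} {N : Finset K → ℝ} {S : Finset (Finset K)} {L : Finset K → Om → υ}

theorem coin_sat {Adm : (Finset K → Om → Om → Prop) → Prop} (hs : SatA P B N S L Adm) (R : FP Th)
    (W : Finset K → Om × Th → ν) (hW : ∀ θ, Adm (ker fun I w => W I (w, θ))) :
    ∑ J ∈ S, N J * (GMH.ent P B L J -
        (FP.pr P R).Hc (fun w => L J w.1) (fun w => (w.2, lo W J w, lo L J w.1, B J w.1))) ≤
      ∑ J ∈ S, N J * (2 * (FP.pr P R).Hc (W J) (fun w => (w.2, lo W J w, le L J w.1, B J w.1))) := by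
  have h0 : 0 ≤ R.E (fun θ => Phi P B N S L (fun I w => W I (w, θ))) := R.E_nonneg fun θ _ => hs.gen _ (hW θ)
  have h1 : R.E (fun θ => Phi P B N S L (fun I w => W I (w, θ))) =
      ∑ J ∈ S, N J * (2 * (FP.pr P R).Hc (W J) (fun w => (w.2, lo W J w, le L J w.1, B J w.1)) -
        (GMH.ent P B L J -
        (FP.pr P R).Hc (fun w => L J w.1) (fun w => (w.2, lo W J w, lo L J w.1, B J w.1)))) := by
    unfold Phi
    rw [FP.E_sum]
    refine Finset.sum_congr rfl fun J _ => ?_
    rw [FP.E_smul, FP.E_sub, FP.E_smul]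
    have e1 : (FP.pr P R).Hc (W J) (fun w => (w.2, lo W J w, le L J w.1, B J w.1)) =
        R.E (fun θ => cost P B L (fun I w => W I (w, θ)) J) :=
      coin_Hc (P := P) (R := R) (W J) (fun w => (lo W J w, le L J w.1, B J w.1))
    have e2 : (FP.pr P R).Hc (fun w => L J w.1) (fun w => (w.2, lo W J w, lo L J w.1, B J w.1)) =
        R.E (fun θ => P.Hc (L J) (fun w => (lo W J (w, θ), lo L J w, B J w))) :=
      coin_Hc (P := P) (R := R) (fun w => L J w.1) (fun w => (lo W J w, lo L J w.1, B J w.1))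
    have e3 : R.E (fun θ => gain P B L (fun I w => W I (w, θ)) J) = GMH.ent P B L J -
        R.E (fun θ => P.Hc (L J) (fun w => (lo W J (w, θ), lo L J w, B J w))) := by
      rw [← R.E_const (GMH.ent P B L J), ← FP.E_sub]
      refine R.E_congr fun θ _ => ?_
      unfold gain
      rw [P.I_eq_Hc]
      rfl
    rw [e1, e2, e3]
  rw [h1] at h0
  have h2 := Finset.sum_sub_distrib (s := S)
    (fun J => N J * (2 * (FP.pr P R).Hc (W J) (fun w => (w.2, lo W J w, le L J w.1, B J w.1))))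
    (fun J => N J * (GMH.ent P B L J -
        (FP.pr P R).Hc (fun w => L J w.1) (fun w => (w.2, lo W J w, lo L J w.1, B J w.1))))
  have h3 : ∑ J ∈ S, N J * (2 * (FP.pr P R).Hc (W J) (fun w => (w.2, lo W J w, le L J w.1, B J w.1)) -
        (GMH.ent P B L J -
        (FP.pr P R).Hc (fun w => L J w.1) (fun w => (w.2, lo W J w, lo L J w.1, B J w.1)))) =
      ∑ J ∈ S, (N J * (2 * (FP.pr P R).Hc (W J) (fun w => (w.2, lo W J w, le L J w.1, B J w.1))) -
        N J * (GMH.ent P B L J -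
        (FP.pr P R).Hc (fun w => L J w.1) (fun w => (w.2, lo W J w, lo L J w.1, B J w.1)))) :=
    Finset.sum_congr rfl fun J _ => by ring
  rw [h3, h2] at h0
  linarith

end sat

/-! ## fresh points -/

section pts

variable {K X β γ φ : Type} [Fintype K] [DecidableEq K] [Fintype X] [Fintype β] [Fintype φ] [Nonempty X] [Nonempty β]
  (D : HD K X β γ φ) (t : ℕ)

open Classical in
/-- a point of the cell with the value `c` -/
noncomputable def rpc (c : γ) : β := if h : ∃ b, D.qb t b = c then h.choose else Classical.arbitrary β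

/-- representative of the cell -/
noncomputable def rp (b : β) : β := rpc D t (D.qb t b)

variable {D t}

theorem rp_cell (b : β) : D.qb t (rp D t b) = D.qb t b := by
  have h : ∃ b', D.qb t b' = D.qb t b := ⟨b, rfl⟩
  unfold rp rpc
  rw [dif_pos h]
  exact h.choose_spec

theorem rp_eq {b b' : β} (h : D.qb t b = D.qb t b') : rp D t b = rp D t b' := by
  unfold rp
  rw [h]

/-- number of elements -/
theorem sum_ind_mem (s : Finset β) : ∑ b, ind (b ∈ s) = (s.card : ℝ) := by
  classical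
  have h1 : ∀ b, ind (b ∈ s) = if b ∈ s then (1 : ℝ) else 0 := by
    intro b
    by_cases hb : b ∈ s
    · rw [ind_of hb, if_pos hb]
    · rw [ind_not hb, if_neg hb]
  rw [Finset.sum_congr rfl fun b _ => h1 b, Finset.sum_ite_mem, Finset.univ_inter, Finset.sum_const, nsmul_eq_mul,
    mul_one]

variable (D t)

/-- uniform law on the cell of `b` -/
noncomputable def cu (b : β) : FP β where
  p b' := ind (b' ∈ D.cB t b) / ((D.cB t b).card : ℝ)
  nn b' := div_nonneg (ind_nonneg _) (Nat.cast_nonneg _)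
  tot := by
    rw [← Finset.sum_div, sum_ind_mem]
    refine div_self ?_
    have : (D.cB t b).Nonempty := ⟨b, by unfold HD.cB; simp⟩
    exact_mod_cast this.card_pos.ne'

/-- point mass -/
noncomputable def dr {β : Type} [Fintype β] (b : β) : FP β where
  p b' := ind (b' = b)
  nn b' := ind_nonneg _
  tot := by
    classical
    rw [Finset.sum_eq_single b (fun z _ hz => ind_not hz) (fun hh => absurd (mem_univ _) hh), ind_of rfl]

theorem dr_E {β : Type} [Fintype β] (b : β) (g : β → ℝ) : (dr b).E g = g b := by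
  classical
  show ∑ z, ind (z = b) * g z = g b
  rw [Finset.sum_eq_single b (fun z _ hz => by rw [ind_not hz, zero_mul]) (fun hh => absurd (mem_univ _) hh),
    ind_of rfl, one_mul]

/-- tables of points -/
def Pn (β : Type) : Type := β → β

noncomputable instance : Fintype (Pn β) :=
  @Pi.instFintype β (fun _ => β) (fun a b => Classical.propDecidable (a = b)) _ fun _ => inferInstance

/-- one fresh point in every cell -/
noncomputable def ptF : FP (Pn β) := @FPpi β β _ (fun a b => Classical.propDecidable (a = b)) _ fun b => cu D t b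

/-- fresh points of all vertices -/
noncomputable def ptT : FP (K → Pn β) := FPpi fun _ => ptF D t

open Classical in
/-- the fresh point of the vertex `i` -/
noncomputable def fr (θ : K → Pn β) (y : K → β) (i : K) : β :=
  if D.qb t (θ i (rp D t (y i))) = D.qb t (y i) then θ i (rp D t (y i)) else rp D t (y i)

/-- old points in `J`, fresh points outside -/
noncomputable def zJ (J : Finset K) (θ : K → Pn β) (y : K → β) (i : K) : β := if i ∈ J then y i else fr D t θ y i

variable {D t}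

theorem fr_cell (θ : K → Pn β) (y : K → β) (i : K) : D.qb t (fr D t θ y i) = D.qb t (y i) := by
  unfold fr
  split_ifs with h
  · exact h
  · exact rp_cell _

theorem fr_dep (θ : K → Pn β) {y y' : K → β} {i : K} (h : D.qb t (y i) = D.qb t (y' i)) :
    fr D t θ y i = fr D t θ y' i := by
  unfold fr
  rw [rp_eq h, h]

theorem zJ_in {J : Finset K} {i : K} (hi : i ∈ J) (θ : K → Pn β) (y : K → β) : zJ D t J θ y i = y i := if_pos hi

theorem zJ_out {J : Finset K} {i : K} (hi : i ∉ J) (θ : K → Pn β) (y : K → β) : zJ D t J θ y i = fr D t θ y i := if_neg hi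

theorem zJ_cell (J : Finset K) (θ : K → Pn β) (y : K → β) (i : K) : D.qb t (zJ D t J θ y i) = D.qb t (y i) := by
  by_cases hi : i ∈ J
  · rw [zJ_in hi]
  · rw [zJ_out hi, fr_cell]

theorem zJ_dep {J : Finset K} (θ : K → Pn β) {y y' : K → β} (h1 : ∀ j ∈ J, y j = y' j)
    (h2 : ∀ j, D.qb t (y j) = D.qb t (y' j)) : zJ D t J θ y = zJ D t J θ y' := by
  funext i
  by_cases hi : i ∈ J
  · rw [zJ_in hi, zJ_in hi, h1 i hi]
  · rw [zJ_out hi, zJ_out hi, fr_dep θ (h2 i)]

/-- the law of one coordinate -/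
noncomputable def qJ (D : HD K X β γ φ) (t : ℕ) (J : Finset K) (i : K) (b : β) : FP β := if i ∈ J then dr b else cu D t b

theorem cu_E (b : β) (g : β → ℝ) : (cu D t b).E g = (∑ z ∈ D.cB t b, g z) / ((D.cB t b).card : ℝ) := by
  show ∑ z, ind (z ∈ D.cB t b) / ((D.cB t b).card : ℝ) * g z = _
  rw [Finset.sum_div, ← Finset.sum_subset (Finset.subset_univ (D.cB t b))]
  · refine Finset.sum_congr rfl fun z hz => ?_
    rw [ind_of hz]
    ring
  · intro z _ hz
    rw [ind_not hz, zero_div, zero_mul]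

theorem mem_cB {b b' : β} : b' ∈ D.cB t b ↔ D.qb t b' = D.qb t b := by
  classical
  unfold HD.cB
  rw [Finset.mem_filter]
  exact ⟨fun h => h.2, fun h => ⟨mem_univ _, h⟩⟩

theorem cB_eq {b b' : β} (h : D.qb t b = D.qb t b') : D.cB t b = D.cB t b' := by
  unfold HD.cB
  rw [h]

theorem sum_cu (z : β) : ∑ b, (cu D t b).p z = 1 := by
  have h1 : ∀ b, (cu D t b).p z = ind (b ∈ D.cB t z) / ((D.cB t z).card : ℝ) := by
    intro b
    show ind (z ∈ D.cB t b) / ((D.cB t b).card : ℝ) = _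
    by_cases hb : b ∈ D.cB t z
    · have e := mem_cB.1 hb
      rw [ind_of hb, ind_of (mem_cB.2 e.symm), cB_eq e]
    · rw [ind_not hb, ind_not (fun hh => hb (mem_cB.2 (mem_cB.1 hh).symm)), zero_div, zero_div]
  rw [Finset.sum_congr rfl fun b _ => h1 b, ← Finset.sum_div, sum_ind_mem]
  refine div_self ?_
  have : (D.cB t z).Nonempty := ⟨z, mem_cB.2 rfl⟩
  exact_mod_cast this.card_pos.ne'

theorem sum_qJ (J : Finset K) (i : K) (z : β) : ∑ b, (qJ D t J i b).p z = 1 := by
  classical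
  unfold qJ
  by_cases hi : i ∈ J
  · simp only [if_pos hi]
    show ∑ b, ind (z = b) = 1
    rw [Finset.sum_eq_single z (fun b _ hb => ind_not (Ne.symm hb)) (fun hh => absurd (mem_univ _) hh), ind_of rfl]
  · simp only [if_neg hi]
    exact sum_cu z

/-- the law of the mixed points for one `y` -/
theorem zJ_law (J : Finset K) (y : K → β) (g : (K → β) → ℝ) :
    (ptT D t).E (fun θ => g (zJ D t J θ y)) = (FPpi fun i => qJ D t J i (y i)).E g := by
  classical
  refine FPpi_map1 (fun _ : K => ptF D t) (fun i => qJ D t J i (y i))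
    (fun i z => if i ∈ J then y i else
      if D.qb t (z (rp D t (y i))) = D.qb t (y i) then z (rp D t (y i)) else rp D t (y i)) ?_ g
  intro i g
  by_cases hi : i ∈ J
  · simp only [if_pos hi, qJ]
    rw [FP.E_const, dr_E]
  · simp only [if_neg hi, qJ]
    have h0 : (ptF D t).E (fun z : Pn β => g (if D.qb t (z (rp D t (y i))) = D.qb t (y i) then z (rp D t (y i))
        else rp D t (y i))) = (cu D t (rp D t (y i))).E (fun z => g (if D.qb t z = D.qb t (y i) then z
        else rp D t (y i))) := by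
      unfold ptF
      exact @FPpi_E β β _ (fun a b => Classical.propDecidable (a = b)) _ (fun b => cu D t b) (rp D t (y i))
        (fun z => g (if D.qb t z = D.qb t (y i) then z else rp D t (y i)))
    rw [h0, cu_E, cu_E, cB_eq (rp_cell (y i))]
    congr 1
    refine Finset.sum_congr rfl fun z hz => ?_
    rw [if_pos (mem_cB.1 hz)]

/-- **the mixed points are uniform** -/
theorem zJ_sum (J : Finset K) (g : (K → β) → ℝ) :
    ∑ y : K → β, (ptT D t).E (fun θ => g (zJ D t J θ y)) = ∑ y, g y := by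
  classical
  have h1 : ∀ y : K → β, (ptT D t).E (fun θ => g (zJ D t J θ y)) =
      ∑ z : K → β, (∏ i, (qJ D t J i (y i)).p (z i)) * g z := fun y => zJ_law J y g
  rw [Finset.sum_congr rfl fun y _ => h1 y, Finset.sum_comm]
  refine Finset.sum_congr rfl fun z _ => ?_
  rw [← Finset.sum_mul]
  have h2 := Finset.prod_univ_sum (fun _ : K => (univ : Finset β)) (fun i b => (qJ D t J i b).p (z i))
  rw [Fintype.piFinset_univ] at h2
  rw [← h2, Finset.prod_eq_one fun i _ => sum_qJ J i (z i), one_mul]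

end pts

/-! ## the mixed point -/

section law

variable {K X β γ φ υ : Type} [Fintype K] [DecidableEq K] [Fintype X] [Fintype β] [Fintype φ] [Nonempty X] [Nonempty β]
  {D : HD K X β γ φ} {al : ℝ} (h : D.Thick al) {t : ℕ}

/-- the coins -/
abbrev Cp (K X β φ : Type) : Type := (K → Pn β) × (K → Cn K X β φ)

/-- law of the coins -/
noncomputable def RR (t : ℕ) : FP (Cp K X β φ) := FP.pr (ptT D t) (coinT h t)

/-- the mixed point: coordinates in `J` and labels inside `J` old -/
noncomputable def mJ (D : HD K X β γ φ) (t : ℕ) (J : Finset K) (w : Pt K X β φ × Cp K X β φ) : Pt K X β φ :=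
  (w.1.1, zJ D t J w.2.1 w.1.2.1,
    fun l => if univ.erase l ⊆ J then w.1.2.2 l else rd D t w.2.2 l w.1.1 (zJ D t J w.2.1 w.1.2.1))

/-- **the law of the mixed point** -/
theorem mJ_law (J : Finset K) (f : Pt K X β φ → ℝ) :
    (FP.pr (D.P h t) (RR h t)).E (fun w => f (mJ D t J w)) = (D.P h t).E f := by
  classical
  rw [FP.pr_E, E_Pa, E_Pa]
  refine (FP.unif X).E_congr fun a _ => ?_
  rw [Pa_E h t a, Pa_E h t a]
  congr 1
  set Φ : (K → β) → ℝ := fun z => (FPpi fun l => kf1 h t l a z).E fun G => f (a, z, G) with hΦ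
  have key : ∀ (y : K → β) (θ1 : K → Pn β), (coinT h t).E (fun θ2 => (FPpi fun l => kf1 h t l a y).E fun F =>
      f (a, zJ D t J θ1 y, fun l => if univ.erase l ⊆ J then F l else rd D t θ2 l a (zJ D t J θ1 y))) =
      Φ (zJ D t J θ1 y) := by
    intro y θ1
    rw [rd_law_pi h t a (zJ D t J θ1 y) fun R => (FPpi fun l => kf1 h t l a y).E fun F =>
      f (a, zJ D t J θ1 y, fun l => if univ.erase l ⊆ J then F l else R l)]
    refine FPpi_map2 (fun l => kf1 h t l a (zJ D t J θ1 y)) (fun l => kf1 h t l a y)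
      (fun l => kf1 h t l a (zJ D t J θ1 y)) (fun l r x => if univ.erase l ⊆ J then x else r) ?_
      (fun G => f (a, zJ D t J θ1 y, G))
    intro l g
    by_cases hl : univ.erase l ⊆ J
    · simp only [if_pos hl]
      rw [FP.E_const]
      have e : D.kf t l a y = D.kf t l a (zJ D t J θ1 y) :=
        D.dep t l a y _ (fun j hj => (zJ_in (hl (Finset.mem_erase.2 ⟨hj, mem_univ j⟩)) θ1 y).symm)
          (zJ_cell J θ1 y l).symm
      show ∑ F, D.kf t l a y F * g F = ∑ F, D.kf t l a (zJ D t J θ1 y) F * g F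
      rw [e]
    · simp only [if_neg hl]
      exact FP.E_congr _ fun r _ => FP.E_const _ _
  have e1 : ∀ y : K → β, (FPpi fun l => kf1 h t l a y).E (fun F => (RR h t).E fun θ => f (mJ D t J ((a, y, F), θ))) =
      (ptT D t).E (fun θ1 => Φ (zJ D t J θ1 y)) := by
    intro y
    rw [FP.E_swap]
    unfold RR
    rw [FP.pr_E]
    refine FP.E_congr _ fun θ1 _ => ?_
    exact key y θ1
  rw [Finset.sum_congr rfl fun y _ => e1 y]
  exact zJ_sum J Φ

/-! ## the additions -/

open Classical in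
/-- thin letters of the vertices in `a`, top letters in `c` -/
noncomputable def gg (U : Finset K → X → (K → β) → υ) (a c : Finset K) (w : Pt K X β φ) :
    (K → Option υ) × (K → Option φ) :=
  (fun i => if i ∈ a then some (U {i} w.1 w.2.1) else none, fun l => if l ∈ c then some (w.2.2 l) else none)

theorem gg_eq {U : Finset K → X → (K → β) → υ} {a c : Finset K} {v w : Pt K X β φ} :
    gg U a c v = gg U a c w ↔ (∀ i ∈ a, U {i} v.1 v.2.1 = U {i} w.1 w.2.1) ∧ ∀ l ∈ c, v.2.2 l = w.2.2 l := by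
  unfold gg
  rw [Prod.mk.injEq, funext_iff, funext_iff]
  constructor
  · rintro ⟨h1, h2⟩
    refine ⟨fun i hi => ?_, fun l hl => ?_⟩
    · have := h1 i
      rw [if_pos hi, if_pos hi] at this
      exact Option.some.inj this
    · have := h2 l
      rw [if_pos hl, if_pos hl] at this
      exact Option.some.inj this
  · rintro ⟨h1, h2⟩
    refine ⟨fun i => ?_, fun l => ?_⟩
    · by_cases hi : i ∈ a
      · rw [if_pos hi, if_pos hi, h1 i hi]
      · rw [if_neg hi, if_neg hi]
    · by_cases hl : l ∈ c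
      · rw [if_pos hl, if_pos hl, h2 l hl]
      · rw [if_neg hl, if_neg hl]

/-- classes which depend on the known points of the index set and the node -/
def Du (D : HD K X β γ φ) (t : ℕ) (U : Finset K → X → (K → β) → υ) : Prop :=
  ∀ I x y y', (∀ j ∈ I, y j = y' j) → (∀ j, D.qb t (y j) = D.qb t (y' j)) → U I x y = U I x y'

/-- the additions -/
noncomputable def Wd (D : HD K X β γ φ) (t : ℕ) (U : Finset K → X → (K → β) → υ) (a c : Finset K → Finset K)
    (J : Finset K) (w : Pt K X β φ × Cp K X β φ) : (K → Option υ) × (K → Option φ) := gg U (a J) (c J) (mJ D t J w)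

variable {U : Finset K → X → (K → β) → υ}

theorem LL_mJ (hU : Du D t U) {I J : Finset K} (hI : I ⊆ J) (w : Pt K X β φ × Cp K X β φ) :
    LL U I (mJ D t J w) = LL U I w.1 := by
  rw [LL_eq]
  refine ⟨hU I w.1.1 _ _ (fun j hj => zJ_in (hI hj) _ _) fun j => zJ_cell J _ _ j, fun l hl => ?_⟩
  show (if univ.erase l ⊆ J then w.1.2.2 l else _) = w.1.2.2 l
  rw [if_pos (hl ▸ hI)]

theorem lo_mJ (hU : Du D t U) {J : Finset K} (w : Pt K X β φ × Cp K X β φ) :
    lo (LL U) J (mJ D t J w) = lo (LL U) J w.1 := by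
  classical
  funext I
  unfold lo
  by_cases hI : I ⊂ J
  · rw [if_pos hI, if_pos hI, LL_mJ hU hI.subset]
  · rw [if_neg hI, if_neg hI]

theorem BB_mJ {J : Finset K} (w : Pt K X β φ × Cp K X β φ) : BB D t J (mJ D t J w) = BB D t J w.1 := by
  rw [BB_eq]
  exact ⟨fun j hj => zJ_in hj _ _, rfl, fun j => zJ_cell J _ _ j⟩

/-- coins, known points of `J` and node determine all mixed points -/
theorem WW_mJ {J : Finset K} {v w : Pt K X β φ × Cp K X β φ} (h1 : v.2 = w.2) (h2 : BB D t J v.1 = BB D t J w.1) :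
    WW D t (mJ D t J v) = WW D t (mJ D t J w) := by
  rw [BB_eq] at h2
  rw [WW_eq]
  refine ⟨?_, h2.2.1⟩
  show zJ D t J v.2.1 v.1.2.1 = zJ D t J w.2.1 w.1.2.1
  rw [h1]
  exact zJ_dep _ h2.1 h2.2.2

theorem Wd_dep {a c : Finset K → Finset K} (hc : ∀ J, ∀ l ∈ c J, ¬ univ.erase l ⊆ J) (θ : Cp K X β φ) :
    Dep D t (ker fun I w => Wd D t U a c I (w, θ)) := by
  intro J v w h1 h2 h3
  show gg U (a J) (c J) (mJ D t J (v, θ)) = gg U (a J) (c J) (mJ D t J (w, θ))
  have e : zJ D t J θ.1 v.2.1 = zJ D t J θ.1 w.2.1 := zJ_dep _ h2 h3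
  rw [gg_eq]
  refine ⟨fun i _ => ?_, fun l hl => ?_⟩
  · show U {i} v.1 (zJ D t J θ.1 v.2.1) = U {i} w.1 (zJ D t J θ.1 w.2.1)
    rw [h1, e]
  · show (if univ.erase l ⊆ J then v.2.2 l else rd D t θ.2 l v.1 (zJ D t J θ.1 v.2.1)) =
      if univ.erase l ⊆ J then w.2.2 l else rd D t θ.2 l w.1 (zJ D t J θ.1 w.2.1)
    rw [if_neg (hc J l hl), if_neg (hc J l hl), h1, e]

/-- information at `J`, strictly below -/
noncomputable def Zl (D : HD K X β γ φ) (t : ℕ) (U : Finset K → X → (K → β) → υ) (a c : Finset K → Finset K)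
    (J : Finset K) (w : Pt K X β φ × Cp K X β φ) :=
  (w.2, lo (Wd D t U a c) J w, lo (LL U) J w.1, BB D t J w.1)

/-- information at `J` -/
noncomputable def Zr (D : HD K X β γ φ) (t : ℕ) (U : Finset K → X → (K → β) → υ) (a c : Finset K → Finset K)
    (J : Finset K) (w : Pt K X β φ × Cp K X β φ) :=
  (w.2, lo (Wd D t U a c) J w, le (LL U) J w.1, BB D t J w.1)

/-- the left side of the saturation at `J` -/
noncomputable def lf (U : Finset K → X → (K → β) → υ) (t : ℕ) (a c : Finset K → Finset K) (J : Finset K) : ℝ :=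
  GMH.ent (D.P h t) (BB D t) (LL U) J -
    (FP.pr (D.P h t) (RR h t)).Hc (fun w => LL U J w.1) (Zl D t U a c J)

/-- the right side of the saturation at `J` -/
noncomputable def rf (U : Finset K → X → (K → β) → υ) (t : ℕ) (a c : Finset K → Finset K) (J : Finset K) : ℝ :=
  (FP.pr (D.P h t) (RR h t)).Hc (Wd D t U a c J) (Zr D t U a c J)

theorem et_ineq {N : Finset K → ℝ} {S : Finset (Finset K)} (hs : SatA (D.P h t) (BB D t) N S (LL U) (Dep D t))
    {a c : Finset K → Finset K} (hc : ∀ J, ∀ l ∈ c J, ¬ univ.erase l ⊆ J) :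
    ∑ J ∈ S, N J * lf h U t a c J ≤ ∑ J ∈ S, N J * (2 * rf h U t a c J) :=
  coin_sat hs (RR h t) (Wd D t U a c) fun θ => Wd_dep hc θ

variable {a c : Finset K → Finset K} {J : Finset K}

theorem lf_ge (hU : Du D t U) {ι : Type*} {Y : Pt K X β φ → ι}
    (hY : Fac (Zl D t U a c J) (fun w => Y (mJ D t J w))) :
    GMH.ent (D.P h t) (BB D t) (LL U) J - (D.P h t).Hc (LL U J) Y ≤ lf h U t a c J := by
  unfold lf
  have e : (fun w : Pt K X β φ × Cp K X β φ => LL U J w.1) = fun w => LL U J (mJ D t J w) :=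
    funext fun w => (LL_mJ hU (Finset.Subset.refl J) w).symm
  have h1 := tr_le (mJ_law h (t := t) J) (LL U J) Y hY
  rw [e]
  linarith

theorem lf_nonneg (hU : Du D t U) : 0 ≤ lf h U t a c J := by
  have h1 := lf_ge h (a := a) (c := c) (J := J) hU (Y := fun w => (lo (LL U) J w, BB D t J w)) (by
    intro v w hvw
    unfold Zl at hvw
    simp only [Prod.mk.injEq] at hvw
    show (lo (LL U) J (mJ D t J v), BB D t J (mJ D t J v)) = (lo (LL U) J (mJ D t J w), BB D t J (mJ D t J w))
    rw [lo_mJ hU, lo_mJ hU, BB_mJ, BB_mJ, hvw.2.2.1, hvw.2.2.2])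
  unfold GMH.ent at h1
  rw [sub_self] at h1
  exact h1

theorem rf_le {ι : Type*} {Y : Pt K X β φ → ι} (hY : Fac (Zr D t U a c J) (fun w => Y (mJ D t J w))) :
    rf h U t a c J ≤ (D.P h t).Hc (gg U (a J) (c J)) Y :=
  tr_le (mJ_law h (t := t) J) (gg U (a J) (c J)) Y hY

theorem rf_zero (ha : a J = ∅) (hc : c J = ∅) : rf h U t a c J = 0 := by
  refine le_antisymm ?_ (FP.Hc_nonneg _ _ _)
  unfold rf
  have h1 : (FP.pr (D.P h t) (RR h t)).Hc (Wd D t U a c J) (Zr D t U a c J) ≤
      (FP.pr (D.P h t) (RR h t)).Hc (fun _ => ()) (Zr D t U a c J) := by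
    refine FP.Hc_mono _ _ ?_
    intro v w _
    show gg U (a J) (c J) (mJ D t J v) = gg U (a J) (c J) (mJ D t J w)
    rw [gg_eq, ha, hc]
    exact ⟨fun i hi => absurd hi (Finset.notMem_empty i), fun l hl => absurd hl (Finset.notMem_empty l)⟩
  exact h1.trans ((FP.Hc_le_H _ _ _).trans (le_of_eq (FP.H_const _ _)))

end law

/-! ## what the informations determine -/

section facs

variable {K X β γ φ υ : Type} [Fintype K] [DecidableEq K] [Fintype X] [Fintype β] [Fintype φ] [Nonempty X] [Nonempty β]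
  {D : HD K X β γ φ} {al : ℝ} (h : D.Thick al) {t : ℕ} {U : Finset K → X → (K → β) → υ} {a c : Finset K → Finset K}
  {I J : Finset K} {v w : Pt K X β φ × Cp K X β φ}

theorem Zr_LL (hU : Du D t U) (hz : Zr D t U a c J v = Zr D t U a c J w) (hI : I ⊆ J) :
    LL U I (mJ D t J v) = LL U I (mJ D t J w) := by
  unfold Zr at hz
  simp only [Prod.mk.injEq] at hz
  rw [LL_mJ hU hI, LL_mJ hU hI]
  exact le_eq.1 hz.2.2.1 I hI

theorem Zl_LL (hU : Du D t U) (hz : Zl D t U a c J v = Zl D t U a c J w) (hI : I ⊂ J) :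
    LL U I (mJ D t J v) = LL U I (mJ D t J w) := by
  unfold Zl at hz
  simp only [Prod.mk.injEq] at hz
  rw [LL_mJ hU hI.subset, LL_mJ hU hI.subset]
  exact lo_eq.1 hz.2.2.1 I hI

theorem Zr_WW (hz : Zr D t U a c J v = Zr D t U a c J w) : WW D t (mJ D t J v) = WW D t (mJ D t J w) := by
  unfold Zr at hz
  simp only [Prod.mk.injEq] at hz
  exact WW_mJ hz.1 hz.2.2.2

theorem Zl_WW (hz : Zl D t U a c J v = Zl D t U a c J w) : WW D t (mJ D t J v) = WW D t (mJ D t J w) := by
  unfold Zl at hz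
  simp only [Prod.mk.injEq] at hz
  exact WW_mJ hz.1 hz.2.2.2

theorem Zr_Wd (hz : Zr D t U a c J v = Zr D t U a c J w) (hI : I ⊂ J) :
    gg U (a I) (c I) (mJ D t I v) = gg U (a I) (c I) (mJ D t I w) := by
  unfold Zr at hz
  simp only [Prod.mk.injEq] at hz
  exact lo_eq.1 hz.2.1 I hI

theorem Zl_Wd (hz : Zl D t U a c J v = Zl D t U a c J w) (hI : I ⊂ J) :
    gg U (a I) (c I) (mJ D t I v) = gg U (a I) (c I) (mJ D t I w) := by
  unfold Zl at hz
  simp only [Prod.mk.injEq] at hz
  exact lo_eq.1 hz.2.1 I hI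

/-- a thin letter at a fresh point -/
theorem U_mJ (hU : Du D t U) {i : K} (hI : i ∉ I) (hJ : i ∉ J) (w : Pt K X β φ × Cp K X β φ) :
    U {i} (mJ D t I w).1 (mJ D t I w).2.1 = U {i} (mJ D t J w).1 (mJ D t J w).2.1 := by
  refine hU {i} w.1.1 _ _ (fun j hj => ?_) fun j => ?_
  · rw [Finset.mem_singleton.1 hj]
    show zJ D t I w.2.1 w.1.2.1 i = zJ D t J w.2.1 w.1.2.1 i
    rw [zJ_out hI, zJ_out hJ]
  · show D.qb t (zJ D t I w.2.1 w.1.2.1 j) = D.qb t (zJ D t J w.2.1 w.1.2.1 j)
    rw [zJ_cell, zJ_cell]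

/-- a label read from the tables -/
theorem lab_mJ {l : K} (hI : ¬ univ.erase l ⊆ I) (hJ : ¬ univ.erase l ⊆ J) (hIJ : ∀ j, j ≠ l → (j ∈ I ↔ j ∈ J))
    (w : Pt K X β φ × Cp K X β φ) : (mJ D t I w).2.2 l = (mJ D t J w).2.2 l := by
  show (if univ.erase l ⊆ I then w.1.2.2 l else rd D t w.2.2 l w.1.1 (zJ D t I w.2.1 w.1.2.1)) =
    if univ.erase l ⊆ J then w.1.2.2 l else rd D t w.2.2 l w.1.1 (zJ D t J w.2.1 w.1.2.1)
  rw [if_neg hI, if_neg hJ]
  refine rd_dep _ _ _ (fun j hj => ?_) fun j => ?_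
  · by_cases hji : j ∈ I
    · rw [zJ_in hji, zJ_in ((hIJ j hj).1 hji)]
    · rw [zJ_out hji, zJ_out fun hh => hji ((hIJ j hj).2 hh)]
  · rw [zJ_cell, zJ_cell]

/-! ### three known vertices -/

variable (hK : Fintype.card K = 3)
include hK

theorem er_not {l : K} (hJ : J.card ≤ 1) : ¬ univ.erase l ⊆ J := fun hh => by
  have h1 := Finset.card_le_card hh
  rw [card_er hK] at h1
  omega

theorem thin_LL {p q : Pt K X β φ} (hJ : J.card ≤ 1) :
    LL U J p = LL U J q ↔ U J p.1 p.2.1 = U J q.1 q.2.1 := by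
  rw [LL_eq]
  refine ⟨fun hh => hh.1, fun hh => ⟨hh, fun l hl => ?_⟩⟩
  exact absurd (hl ▸ Finset.Subset.refl _) (er_not hK (l := l) hJ)

/-- everything strictly below a pair -/
theorem lo_er {j : K} {p q : Pt K X β φ} (h0 : LL U ∅ p = LL U ∅ q)
    (h1 : ∀ i ∈ univ.erase j, LL U {i} p = LL U {i} q) : lo (LL U) (univ.erase j) p = lo (LL U) (univ.erase j) q := by
  rw [lo_eq]
  intro I hI
  have h2 := Finset.card_lt_card hI
  rw [card_er hK] at h2
  rcases Nat.lt_or_ge I.card 1 with h3 | h3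
  · have : I = ∅ := Finset.card_eq_zero.1 (by omega)
    rw [this]; exact h0
  · obtain ⟨i, hi⟩ := Finset.card_eq_one.1 (show I.card = 1 by omega)
    rw [hi]
    refine h1 i (hI.1 ?_)
    rw [hi]
    exact Finset.mem_singleton_self i

end facs

/-! ## entropies of families of thin letters -/

section fam

variable {K X β γ φ υ : Type} [Fintype K] [DecidableEq K] [Fintype X] [Fintype β] [Fintype φ] [Nonempty X] [Nonempty β]
  {D : HD K X β γ φ} {t : ℕ} {U : Finset K → X → (K → β) → υ} (P : FP (Pt K X β φ)) (hK : Fintype.card K = 3)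
include hK

/-- subadditivity -/
theorem gg_le (s : Finset K) : P.Hc (gg U s ∅) (fun w => (LL U ∅ w, WW D t w)) ≤
    ∑ i ∈ s, P.Hc (LL U {i}) (fun w => (lo (LL U) {i} w, WW D t w)) := by
  classical
  induction s using Finset.induction_on with
  | empty =>
    rw [Finset.sum_empty]
    have h1 : P.Hc (gg U ∅ ∅) (fun w => (LL U ∅ w, WW D t w)) ≤ P.Hc (fun _ => ()) (fun w => (LL U ∅ w, WW D t w)) := by
      refine P.Hc_mono _ ?_
      intro v w _
      rw [gg_eq]
      exact ⟨fun i hi => absurd hi (Finset.notMem_empty i), fun l hl => absurd hl (Finset.notMem_empty l)⟩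
    exact h1.trans ((P.Hc_le_H _ _).trans (le_of_eq (P.H_const _)))
  | insert k s hk ih =>
    rw [Finset.sum_insert hk]
    have h1 : P.Hc (gg U (insert k s) ∅) (fun w => (LL U ∅ w, WW D t w)) ≤
        P.Hc (fun w => (LL U {k} w, gg U s ∅ w)) (fun w => (LL U ∅ w, WW D t w)) := by
      refine P.Hc_mono _ ?_
      intro v w hvw
      simp only [Prod.mk.injEq, gg_eq] at hvw ⊢
      refine ⟨fun i hi => ?_, fun l hl => absurd hl (Finset.notMem_empty l)⟩
      rcases Finset.mem_insert.1 hi with h2 | h2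
      · rw [h2]; exact (LL_eq.1 hvw.1.1).1
      · exact hvw.1.2.1 i h2
    have h2 := P.Hc_chain (LL U {k}) (gg U s ∅) (fun w => (LL U ∅ w, WW D t w))
    have h3 : P.Hc (LL U {k}) (fun w => (gg U s ∅ w, LL U ∅ w, WW D t w)) ≤
        P.Hc (LL U {k}) (fun w => (lo (LL U) {k} w, WW D t w)) := by
      refine P.Hc_anti _ ?_
      intro v w hvw
      simp only [Prod.mk.injEq] at hvw ⊢
      refine ⟨?_, hvw.2.2⟩
      rw [lo_eq]
      intro I hI
      rw [Finset.ssubset_singleton_iff.1 hI]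
      exact hvw.2.1
    linarith

/-- every letter given the others -/
theorem gg_ge (s : Finset K) : ∑ k ∈ s, P.Hc (LL U {k}) (fun w => (gg U (univ.erase k) ∅ w, LL U ∅ w, WW D t w)) ≤
    P.Hc (gg U s ∅) (fun w => (gg U (univ \ s) ∅ w, LL U ∅ w, WW D t w)) := by
  classical
  induction s using Finset.induction_on with
  | empty =>
    rw [Finset.sum_empty]
    exact P.Hc_nonneg _ _
  | insert k s hk ih =>
    rw [Finset.sum_insert hk]
    set Z : Pt K X β φ → _ := fun w => (gg U (univ \ insert k s) ∅ w, LL U ∅ w, WW D t w) with hZ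
    have h1 : P.Hc (fun w => (LL U {k} w, gg U s ∅ w)) Z ≤ P.Hc (gg U (insert k s) ∅) Z := by
      refine P.Hc_mono _ ?_
      intro v w hvw
      simp only [Prod.mk.injEq, gg_eq] at hvw ⊢
      refine ⟨?_, fun i hi => hvw.1.1 i (Finset.mem_insert_of_mem hi), fun l hl => absurd hl (Finset.notMem_empty l)⟩
      rw [thin_LL hK (by rw [Finset.card_singleton])]
      exact hvw.1.1 k (Finset.mem_insert_self k s)
    have h2 := P.Hc_chain (LL U {k}) (gg U s ∅) Z
    have h3 : P.Hc (LL U {k}) (fun w => (gg U (univ.erase k) ∅ w, LL U ∅ w, WW D t w)) ≤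
        P.Hc (LL U {k}) (fun w => (gg U s ∅ w, Z w)) := by
      refine P.Hc_anti _ ?_
      intro v w hvw
      simp only [Prod.mk.injEq, gg_eq, hZ] at hvw ⊢
      refine ⟨⟨fun i hi => hvw.1.1 i ?_, fun l hl => absurd hl (Finset.notMem_empty l)⟩,
        ⟨fun i hi => hvw.1.1 i ?_, fun l hl => absurd hl (Finset.notMem_empty l)⟩, hvw.2⟩
      · exact Finset.mem_erase.2 ⟨fun hh => hk (hh ▸ hi), mem_univ i⟩
      · exact Finset.mem_erase.2 ⟨fun hh => (Finset.mem_sdiff.1 hi).2 (hh ▸ Finset.mem_insert_self k s), mem_univ i⟩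
    have h4 : P.Hc (gg U s ∅) (fun w => (gg U (univ \ s) ∅ w, LL U ∅ w, WW D t w)) ≤ P.Hc (gg U s ∅) Z := by
      refine P.Hc_anti _ ?_
      intro v w hvw
      simp only [Prod.mk.injEq, gg_eq, hZ] at hvw ⊢
      refine ⟨⟨fun i hi => hvw.1.1 i ?_, fun l hl => absurd hl (Finset.notMem_empty l)⟩, hvw.2⟩
      exact Finset.mem_sdiff.2 ⟨mem_univ i, fun hh => (Finset.mem_sdiff.1 hi).2 (Finset.mem_insert_of_mem hh)⟩
    linarith

end fam

end EndT

open EndT

/-! ## the results -/

section fin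

variable {K X β γ φ : Type} [Fintype K] [DecidableEq K] [Fintype X] [Fintype β] [Fintype φ] [Nonempty X] [Nonempty β]
  {D : HD K X β γ φ} {al : ℝ} {h : D.Thick al} {dg : ℕ → X → ℝ} {prr : ℕ → K → φ → φ} {T : ℕ} {Lam : ℝ}
  {v : ℕ → Finset K → X → (K → β) → Pt K X β φ} {t : ℕ}

/-- **entropies after the split** -/
theorem ent_leT {N : Finset K → ℝ} {Ntop : ℝ} (R : Run h N (SS1 K) (AdmDep D) v) (H : D.Hyp dg prr al T Lam)
    (hN : ∀ J, 0 < N J) (hN2 : ∀ l, N (univ.erase l) ≤ Ntop) (ht : t ≤ T) {J : Finset K} (hJ : J ≠ univ) :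
    GMH.ent (D.P h t) (BB D t) (LL (Um v (t + 1))) J ≤ Fintype.card K * (Ntop * Lam) / N J := by
  have h1 := budget_sum h H (fun J => (hN J).le) (fun t _ => R.nonpos (admDep_ok D) t) t ht
  have h2 := input_le h H (fun J => (hN J).le) hN2 ht
  rw [le_div_iff₀ (hN J), mul_comm]
  have h3 : N J * GMH.ent (D.P h t) (BB D t) (LL (Um v (t + 1))) J ≤
      Psi (D.P h t) (BB D t) N (SS1 K) (LL (Um v (t + 1))) :=
    Finset.single_le_sum (f := fun J => N J * GMH.ent (D.P h t) (BB D t) (LL (Um v (t + 1))) J)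
      (fun J _ => mul_nonneg (hN J).le ent_nonneg) (mem_SS1.2 hJ)
  have h4 : 0 ≤ ∑ s ∈ range (t + 1), ∑ J ∈ SS1 K, N J * cst h v s J :=
    Finset.sum_nonneg fun s _ => Finset.sum_nonneg fun J _ => mul_nonneg (hN J).le (cst_nonneg h s J)
  linarith

theorem EndT.du_Um (hv : Codes D v) : Du D t (Um v (t + 1)) := fun I x y y' h1 h2 =>
  (sys_UU hv).dep I t x y y' h1 h2

/-- entropies given all points -/
theorem EndT.ent_WW (h : D.Thick al) (hv : Codes D v) (J : Finset K) :
    (D.P h t).Hc (LL (Um v (t + 1)) J) (fun w => (lo (LL (Um v (t + 1))) J w, WW D t w)) =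
      GMH.ent (D.P h t) (BB D t) (LL (Um v (t + 1))) J :=
  Hc_base h le_rfl (LL_AA hv le_rfl (Finset.Subset.refl J)) (lo_AA hv J)

/-! ### the index sets -/

theorem EndT.sum_th (f : Finset K → ℝ) :
    ∑ J ∈ univ.filter (fun J : Finset K => pth J ∧ J ≠ ∅), f J = ∑ i, f {i} := by
  refine (Finset.sum_bij (fun i _ => {i}) ?_ ?_ ?_ (fun _ _ => rfl)).symm
  · intro i _
    refine Finset.mem_filter.2 ⟨mem_univ _, ?_, Finset.singleton_ne_empty i⟩
    unfold pth
    rw [Finset.card_singleton]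
  · intro i _ j _ hij
    exact Finset.singleton_injective hij
  · intro J hJ
    obtain ⟨_, h1, h2⟩ := Finset.mem_filter.1 hJ
    unfold pth at h1
    have h3 := Finset.card_pos.2 (Finset.nonempty_iff_ne_empty.2 h2)
    obtain ⟨i, hi⟩ := Finset.card_eq_one.1 (le_antisymm h1 h3)
    exact ⟨i, mem_univ i, hi.symm⟩

theorem EndT.sum_one_le (hK : Fintype.card K = 3) {f : Finset K → ℝ} (hf : ∀ J ∈ SS1 K, 0 ≤ f J) :
    ∑ i, f {i} ≤ ∑ J ∈ SS1 K, f J := by
  rw [← EndT.sum_th f]
  exact Finset.sum_le_sum_of_subset_of_nonneg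
    (fun J hJ => mem_SS1.2 (pth_sub hK J (Finset.mem_filter.1 hJ).2.1)) fun J hJ _ => hf J hJ

theorem EndT.one_le_sum {f : Finset K → ℝ} (hf : ∀ J ∈ SS1 K, 0 ≤ f J) {J : Finset K} (hJ : J ∈ SS1 K) :
    f J ≤ ∑ J ∈ SS1 K, f J := Finset.single_le_sum hf hJ

/-! ### any prices -/

variable {N : Finset K → ℝ}

/-- (E1) -/
theorem EndT.thin_gen (hK : Fintype.card K = 3) (hv : Codes D v)
    (hs : SatA (D.P h t) (BB D t) N (SS1 K) (LL (Um v (t + 1))) (Dep D t)) (hN : ∀ J ∈ SS1 K, 0 ≤ N J) {N1 : ℝ}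
    (hN1 : ∀ i, N {i} = N1) : N1 * Mt h v (p := pth) pth0 t ≤
      2 * N ∅ * ∑ i, GMH.ent (D.P h t) (BB D t) (LL (Um v (t + 1))) {i} := by
  have hU : Du D t (Um v (t + 1)) := EndT.du_Um hv
  have h10 : ∀ i : K, ({i} : Finset K) ∈ SS1 K := fun i => mem_SS1.2 (one_ne hK i)
  set U := Um v (t + 1) with hUd
  set a : Finset K → Finset K := fun J => if J = ∅ then univ else ∅ with ha
  set c : Finset K → Finset K := fun _ => ∅ with hc
  have key := et_ineq h hs (a := a) (c := c) (fun J l hl => absurd hl (Finset.notMem_empty l))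
  have hr : ∑ J ∈ SS1 K, N J * (2 * rf h U t a c J) = N ∅ * (2 * rf h U t a c ∅) := by
    refine Finset.sum_eq_single_of_mem ∅ (mem_SS1.2 (ne_u hK)) fun J _ hJ => ?_
    rw [rf_zero h (a := a) (c := c) (J := J) (if_neg hJ) rfl, mul_zero, mul_zero]
  have h1 : rf h U t a c ∅ ≤ ∑ i, GMH.ent (D.P h t) (BB D t) (LL U) {i} := by
    refine (rf_le h (Y := fun w => (LL U ∅ w, WW D t w)) ?_).trans ?_
    · intro v w hz
      exact Prod.ext (Zr_LL hU hz (Finset.Subset.refl _)) (Zr_WW hz)
    · have h2 := gg_le (D := D) (t := t) (U := U) (D.P h t) hK univ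
      have h3 : a ∅ = univ := if_pos rfl
      rw [h3]
      refine h2.trans (le_of_eq ?_)
      exact Finset.sum_congr rfl fun i _ => EndT.ent_WW h hv {i}
  have hl : ∑ i, N {i} * (GMH.ent (D.P h t) (BB D t) (LL U) {i} -
      (D.P h t).Hc (LL U {i}) (fun w => (gg U (univ.erase i) ∅ w, LL U ∅ w, WW D t w))) ≤
      ∑ J ∈ SS1 K, N J * lf h U t a c J := by
    refine (Finset.sum_le_sum fun i _ => mul_le_mul_of_nonneg_left (lf_ge h (a := a) (c := c) hU
      (Y := fun w => (gg U (univ.erase i) ∅ w, LL U ∅ w, WW D t w)) ?_) (hN _ (h10 i))).trans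
      (EndT.sum_one_le hK (f := fun J => N J * lf h U t a c J) fun J hJ => mul_nonneg (hN J hJ) (lf_nonneg h hU))
    intro v w hz
    have h0 : (∅ : Finset K) ⊂ {i} := Finset.ssubset_singleton_iff.2 rfl
    refine Prod.ext ?_ (Prod.ext (Zl_LL hU hz h0) (Zl_WW hz))
    show gg U (univ.erase i) ∅ (mJ D t {i} v) = gg U (univ.erase i) ∅ (mJ D t {i} w)
    rw [gg_eq]
    refine ⟨fun i' hi' => ?_, fun l hl => absurd hl (Finset.notMem_empty l)⟩
    have hi2 : i' ∉ ({i} : Finset K) := fun hh => (Finset.mem_erase.1 hi').1 (Finset.mem_singleton.1 hh)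
    have hz2 := Zl_Wd hz h0
    rw [show a ∅ = univ from if_pos rfl, gg_eq] at hz2
    rw [← U_mJ hU (Finset.notMem_empty i') hi2, ← U_mJ hU (Finset.notMem_empty i') hi2]
    exact hz2.1 i' (mem_univ _)
  have hM : Mt h v (p := pth) pth0 t ≤ ∑ i, (GMH.ent (D.P h t) (BB D t) (LL U) {i} -
      (D.P h t).Hc (LL U {i}) (fun w => (gg U (univ.erase i) ∅ w, LL U ∅ w, WW D t w))) := by
    unfold Mt
    rw [MP_LP (D.P h t) pth_down pth0, EndT.sum_th, Finset.sum_sub_distrib]
    have e1 : ∑ i : K, (D.P h t).Hc (LL U {i}) (fun w => (lo (LL U) {i} w, WW D t w)) =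
        ∑ i, GMH.ent (D.P h t) (BB D t) (LL U) {i} := Finset.sum_congr rfl fun i _ => EndT.ent_WW h hv {i}
    have e2 := gg_ge (D := D) (t := t) (U := U) (D.P h t) hK univ
    have e3 : (D.P h t).Hc (gg U univ ∅) (fun w => (gg U (univ \ univ) ∅ w, LL U ∅ w, WW D t w)) ≤
        (D.P h t).Hc (gg U univ ∅) (fun w => (LL U ∅ w, WW D t w)) := (D.P h t).Hc_anti _ (Fac.snd _ _)
    have e4 : (D.P h t).Hc (gg U univ ∅) (fun w => (LL U ∅ w, WW D t w)) ≤
        (D.P h t).Hc (all (LP pth (LL U))) (fun w => (LL U ∅ w, WW D t w)) := by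
      refine (D.P h t).Hc_mono _ ?_
      intro v w hvw
      simp only [Prod.mk.injEq] at hvw
      rw [gg_eq]
      refine ⟨fun i _ => ?_, fun l hl => absurd hl (Finset.notMem_empty l)⟩
      have h5 := congrFun hvw.1 ⟨{i}, by unfold pth; rw [Finset.card_singleton]⟩
      exact (LL_eq.1 h5).1
    rw [e1]
    linarith
  have h5 : N1 * Mt h v (p := pth) pth0 t ≤ ∑ i, N {i} * (GMH.ent (D.P h t) (BB D t) (LL U) {i} -
      (D.P h t).Hc (LL U {i}) (fun w => (gg U (univ.erase i) ∅ w, LL U ∅ w, WW D t w))) := by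
    obtain ⟨i0⟩ : Nonempty K := Fintype.card_pos_iff.1 (by rw [hK]; omega)
    have h6 : 0 ≤ N1 := by rw [← hN1 i0]; exact hN _ (h10 i0)
    refine (mul_le_mul_of_nonneg_left hM h6).trans (le_of_eq ?_)
    rw [Finset.mul_sum]
    exact Finset.sum_congr rfl fun i _ => by rw [hN1 i]
  have h6 := mul_le_mul_of_nonneg_left h1 (hN ∅ (mem_SS1.2 (ne_u hK)))
  rw [hr] at key
  linarith

/-- (E2a) -/
theorem EndT.top1_gen (hK : Fintype.card K = 3) (hv : Codes D v)
    (hs : SatA (D.P h t) (BB D t) N (SS1 K) (LL (Um v (t + 1))) (Dep D t)) (hN : ∀ J ∈ SS1 K, 0 ≤ N J) (j : K) :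
    N {j} * (D.P h t).I (fun w => w.2.2 j) (LL (Um v (t + 1)) {j})
        (fun w => (lo (LL (Um v (t + 1))) (univ.erase j) w, WW D t w)) ≤
      2 * N ∅ * (∑ i ∈ univ.erase j, GMH.ent (D.P h t) (BB D t) (LL (Um v (t + 1))) {i} +
        GMH.ent (D.P h t) (BB D t) (LL (Um v (t + 1))) (univ.erase j)) := by
  have hU : Du D t (Um v (t + 1)) := EndT.du_Um hv
  set U := Um v (t + 1) with hUd
  set a : Finset K → Finset K := fun J => if J = ∅ then univ.erase j else ∅ with ha
  set c : Finset K → Finset K := fun J => if J = ∅ then {j} else ∅ with hc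
  have ha0 : a ∅ = univ.erase j := if_pos rfl
  have hc0 : c ∅ = {j} := if_pos rfl
  have hcard : ∀ J, ∀ l ∈ c J, ¬ univ.erase l ⊆ J := by
    intro J l hl
    by_cases hJ : J = ∅
    · rw [hJ]; exact er_not hK (by rw [Finset.card_empty]; omega)
    · have : c J = ∅ := if_neg hJ
      rw [this] at hl
      exact absurd hl (Finset.notMem_empty l)
  have key := et_ineq h hs (a := a) (c := c) hcard
  have hr : ∑ J ∈ SS1 K, N J * (2 * rf h U t a c J) = N ∅ * (2 * rf h U t a c ∅) := by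
    refine Finset.sum_eq_single_of_mem ∅ (mem_SS1.2 (ne_u hK)) fun J _ hJ => ?_
    rw [rf_zero h (a := a) (c := c) (J := J) (if_neg hJ) (if_neg hJ), mul_zero, mul_zero]
  have h1 : rf h U t a c ∅ ≤ ∑ i ∈ univ.erase j, GMH.ent (D.P h t) (BB D t) (LL U) {i} +
      GMH.ent (D.P h t) (BB D t) (LL U) (univ.erase j) := by
    refine (rf_le h (Y := fun w => (LL U ∅ w, WW D t w)) ?_).trans ?_
    · intro v w hz
      exact Prod.ext (Zr_LL hU hz (Finset.Subset.refl _)) (Zr_WW hz)
    · rw [ha0, hc0]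
      have h2 := gg_le (D := D) (t := t) (U := U) (D.P h t) hK (univ.erase j)
      have h3 : ∑ i ∈ univ.erase j, (D.P h t).Hc (LL U {i}) (fun w => (lo (LL U) {i} w, WW D t w)) =
          ∑ i ∈ univ.erase j, GMH.ent (D.P h t) (BB D t) (LL U) {i} :=
        Finset.sum_congr rfl fun i _ => EndT.ent_WW h hv {i}
      have h4 : (D.P h t).Hc (gg U (univ.erase j) {j}) (fun w => (LL U ∅ w, WW D t w)) ≤
          (D.P h t).Hc (fun w => (LL U (univ.erase j) w, gg U (univ.erase j) ∅ w)) (fun w => (LL U ∅ w, WW D t w)) := by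
        refine (D.P h t).Hc_mono _ ?_
        intro v w hvw
        simp only [Prod.mk.injEq, gg_eq] at hvw
        rw [gg_eq]
        refine ⟨hvw.1.2.1, fun l hl => ?_⟩
        rw [Finset.mem_singleton.1 hl]
        exact (LL_eq.1 hvw.1.1).2 j rfl
      have h5 := (D.P h t).Hc_chain (LL U (univ.erase j)) (gg U (univ.erase j) ∅) (fun w => (LL U ∅ w, WW D t w))
      have h6 : (D.P h t).Hc (LL U (univ.erase j)) (fun w => (gg U (univ.erase j) ∅ w, LL U ∅ w, WW D t w)) ≤
          (D.P h t).Hc (LL U (univ.erase j)) (fun w => (lo (LL U) (univ.erase j) w, WW D t w)) := by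
        refine (D.P h t).Hc_anti _ ?_
        intro v w hvw
        simp only [Prod.mk.injEq, gg_eq] at hvw ⊢
        refine ⟨lo_er hK hvw.2.1 fun i hi => ?_, hvw.2.2⟩
        rw [thin_LL hK (by rw [Finset.card_singleton])]
        exact hvw.1.1 i hi
      have h7 := EndT.ent_WW h (t := t) hv (univ.erase j)
      rw [← hUd] at h7
      linarith
  have hl : N {j} * (GMH.ent (D.P h t) (BB D t) (LL U) {j} -
      (D.P h t).Hc (LL U {j}) (fun w => (gg U (univ.erase j) {j} w, LL U ∅ w, WW D t w))) ≤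
      ∑ J ∈ SS1 K, N J * lf h U t a c J := by
    refine (mul_le_mul_of_nonneg_left (lf_ge h (a := a) (c := c) hU
      (Y := fun w => (gg U (univ.erase j) {j} w, LL U ∅ w, WW D t w)) ?_) (hN _ (mem_SS1.2 (one_ne hK j)))).trans
      (EndT.one_le_sum (f := fun J => N J * lf h U t a c J) (fun J hJ => mul_nonneg (hN J hJ) (lf_nonneg h hU))
        (mem_SS1.2 (one_ne hK j)))
    intro v w hz
    have h0 : (∅ : Finset K) ⊂ {j} := Finset.ssubset_singleton_iff.2 rfl
    refine Prod.ext ?_ (Prod.ext (Zl_LL hU hz h0) (Zl_WW hz))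
    show gg U (univ.erase j) {j} (mJ D t {j} v) = gg U (univ.erase j) {j} (mJ D t {j} w)
    have hz2 := Zl_Wd hz h0
    rw [ha0, hc0, gg_eq] at hz2
    rw [gg_eq]
    refine ⟨fun i' hi' => ?_, fun l hl => ?_⟩
    · have hi2 : i' ∉ ({j} : Finset K) := fun hh => (Finset.mem_erase.1 hi').1 (Finset.mem_singleton.1 hh)
      rw [← U_mJ hU (Finset.notMem_empty i') hi2, ← U_mJ hU (Finset.notMem_empty i') hi2]
      exact hz2.1 i' hi'
    · have hlj := Finset.mem_singleton.1 hl
      have e : ∀ w : Pt K X β φ × Cp K X β φ, (mJ D t ∅ w).2.2 l = (mJ D t {j} w).2.2 l := fun w =>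
        lab_mJ (er_not hK (by rw [Finset.card_empty]; omega)) (er_not hK (by rw [Finset.card_singleton])) (fun j' hj' => by
          rw [hlj] at hj'
          simp only [Finset.notMem_empty, Finset.mem_singleton, false_iff]
          exact hj') w
      rw [← e, ← e]
      exact hz2.2 l hl
  have hI : (D.P h t).I (fun w => w.2.2 j) (LL U {j}) (fun w => (lo (LL U) (univ.erase j) w, WW D t w)) ≤
      GMH.ent (D.P h t) (BB D t) (LL U) {j} -
      (D.P h t).Hc (LL U {j}) (fun w => (gg U (univ.erase j) {j} w, LL U ∅ w, WW D t w)) := by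
    rw [FP.I_comm, FP.I_eq_Hc]
    have e1 : (D.P h t).Hc (LL U {j}) (fun w => (lo (LL U) (univ.erase j) w, WW D t w)) ≤
        GMH.ent (D.P h t) (BB D t) (LL U) {j} := by
      rw [← EndT.ent_WW h hv {j}]
      refine (D.P h t).Hc_anti _ ?_
      intro v w hvw
      simp only [Prod.mk.injEq] at hvw ⊢
      refine ⟨?_, hvw.2⟩
      rw [lo_eq]
      intro I hI
      rw [Finset.ssubset_singleton_iff.1 hI]
      exact lo_eq.1 hvw.1 ∅ (Finset.ssubset_iff_subset_ne.2 ⟨Finset.empty_subset _, (er_ne hK j).symm⟩)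
    have e2 : (D.P h t).Hc (LL U {j}) (fun w => (gg U (univ.erase j) {j} w, LL U ∅ w, WW D t w)) ≤
        (D.P h t).Hc (LL U {j}) (fun w => (w.2.2 j, lo (LL U) (univ.erase j) w, WW D t w)) := by
      refine (D.P h t).Hc_anti _ ?_
      intro v w hvw
      simp only [Prod.mk.injEq, gg_eq] at hvw ⊢
      refine ⟨hvw.1.2 j (Finset.mem_singleton_self j), lo_er hK hvw.2.1 fun i hi => ?_, hvw.2.2⟩
      rw [thin_LL hK (by rw [Finset.card_singleton])]
      exact hvw.1.1 i hi
    linarith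
  have h5 := mul_le_mul_of_nonneg_left hI (hN _ (mem_SS1.2 (one_ne hK j)))
  have h6 := mul_le_mul_of_nonneg_left h1 (hN ∅ (mem_SS1.2 (ne_u hK)))
  rw [hr] at key
  linarith

/-- three vertices -/
theorem EndT.or3 (hK : Fintype.card K = 3) {i j k : K} (hij : i ≠ j) (hik : i ≠ k) (hjk : j ≠ k) (l : K) :
    l = i ∨ l = j ∨ l = k := by
  by_contra hc
  push Not at hc
  have h1 : ({l, i, j, k} : Finset K).card = 4 := by
    rw [Finset.card_insert_of_notMem, Finset.card_insert_of_notMem, Finset.card_insert_of_notMem,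
      Finset.card_singleton]
    · simpa using hjk
    · simp [hij, hik]
    · simp [hc.1, hc.2.1, hc.2.2]
  have h2 := Finset.card_le_univ ({l, i, j, k} : Finset K)
  rw [h1, hK] at h2
  omega

/-- the cost of one top letter in the thin code of `i` -/
theorem EndT.rf_top (hK : Fintype.card K = 3) (hv : Codes D v) {a c : Finset K → Finset K} {i j k : K} (hij : i ≠ j)
    (hik : i ≠ k) (hjk : j ≠ k) (ha0 : k ∈ a ∅) (hai : a {i} = ∅) (hci : c {i} = {j}) :
    rf h (Um v (t + 1)) t a c {i} ≤ GMH.ent (D.P h t) (BB D t) (LL (Um v (t + 1))) (univ.erase j) := by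
  have hU : Du D t (Um v (t + 1)) := EndT.du_Um hv
  have h0 : (∅ : Finset K) ⊂ {i} := Finset.ssubset_singleton_iff.2 rfl
  refine (rf_le h (Y := fun w => (lo (LL (Um v (t + 1))) (univ.erase j) w, WW D t w)) ?_).trans ?_
  · intro p q hz
    refine Prod.ext ?_ (Zr_WW hz)
    refine lo_er hK (Zr_LL hU hz (Finset.empty_subset _)) fun l hl => ?_
    rcases EndT.or3 hK hij hik hjk l with h1 | h1 | h1
    · rw [h1]
      exact Zr_LL hU hz (Finset.Subset.refl _)
    · exact absurd h1 (Finset.mem_erase.1 hl).1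
    · rw [h1, thin_LL hK (by rw [Finset.card_singleton])]
      have h2 : k ∉ ({i} : Finset K) := fun hh => hik (Finset.mem_singleton.1 hh).symm
      have hz2 := Zr_Wd hz h0
      rw [gg_eq] at hz2
      rw [← U_mJ hU (Finset.notMem_empty k) h2, ← U_mJ hU (Finset.notMem_empty k) h2]
      exact hz2.1 k ha0
  · rw [hai, hci, ← EndT.ent_WW h hv (univ.erase j)]
    refine (D.P h t).Hc_mono _ ?_
    intro p q hpq
    simp only [Prod.mk.injEq] at hpq
    rw [gg_eq]
    refine ⟨fun l hl => absurd hl (Finset.notMem_empty l), fun l hl => ?_⟩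
    rw [Finset.mem_singleton.1 hl]
    exact (LL_eq.1 hpq.1).2 j rfl

/-- (E2b) -/
theorem EndT.top2_gen (hK : Fintype.card K = 3) (hv : Codes D v)
    (hs : SatA (D.P h t) (BB D t) N (SS1 K) (LL (Um v (t + 1))) (Dep D t)) (hN : ∀ J ∈ SS1 K, 0 ≤ N J) {i j k : K}
    (hij : i ≠ j) (hik : i ≠ k) (hjk : j ≠ k) :
    N (univ.erase k) * (D.P h t).I (fun w => w.2.2 k) (fun w => ((w.2.2 i, w.2.2 j), LL (Um v (t + 1)) {k} w))
        (fun w => (lo (LL (Um v (t + 1))) (univ.erase k) w, WW D t w)) ≤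
      2 * (N ∅ * GMH.ent (D.P h t) (BB D t) (LL (Um v (t + 1))) {k} +
        N {i} * GMH.ent (D.P h t) (BB D t) (LL (Um v (t + 1))) (univ.erase j) +
        N {j} * GMH.ent (D.P h t) (BB D t) (LL (Um v (t + 1))) (univ.erase i)) := by
  have hU : Du D t (Um v (t + 1)) := EndT.du_Um hv
  set U := Um v (t + 1) with hUd
  set a : Finset K → Finset K := fun J => if J = ∅ then {k} else ∅ with ha
  set c : Finset K → Finset K := fun J => if J = {i} then {j} else if J = {j} then {i} else ∅ with hc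
  have hne : ∀ l : K, ({l} : Finset K) ≠ ∅ := Finset.singleton_ne_empty
  have hji : ({j} : Finset K) ≠ {i} := fun hh => hij (Finset.singleton_injective hh).symm
  have ha0 : a ∅ = {k} := if_pos rfl
  have hai : a {i} = ∅ := if_neg (hne i)
  have haj : a {j} = ∅ := if_neg (hne j)
  have hc0 : c ∅ = ∅ := by
    show (if (∅ : Finset K) = {i} then {j} else if (∅ : Finset K) = {j} then {i} else ∅) = (∅ : Finset K)
    rw [if_neg (hne i).symm, if_neg (hne j).symm]
  have hci : c {i} = {j} := if_pos rfl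
  have hcj : c {j} = {i} := by
    show (if ({j} : Finset K) = {i} then {j} else if ({j} : Finset K) = {j} then {i} else ∅) = ({i} : Finset K)
    rw [if_neg hji, if_pos rfl]
  have hcx : ∀ J : Finset K, J ≠ {i} → J ≠ {j} → c J = ∅ := by
    intro J h1 h2
    show (if J = {i} then {j} else if J = {j} then {i} else ∅) = (∅ : Finset K)
    rw [if_neg h1, if_neg h2]
  have hcard : ∀ J, ∀ l ∈ c J, ¬ univ.erase l ⊆ J := by
    intro J l hl
    by_cases h1 : J = {i}
    · rw [h1]; exact er_not hK (by rw [Finset.card_singleton])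
    · by_cases h2 : J = {j}
      · rw [h2]; exact er_not hK (by rw [Finset.card_singleton])
      · rw [hcx J h1 h2] at hl
        exact absurd hl (Finset.notMem_empty l)
  have key := et_ineq h hs (a := a) (c := c) hcard
  -- the costs
  have hr : ∑ J ∈ SS1 K, N J * (2 * rf h U t a c J) =
      ∑ J ∈ ({∅, {i}, {j}} : Finset (Finset K)), N J * (2 * rf h U t a c J) := by
    refine (Finset.sum_subset ?_ fun J _ hJ => ?_).symm
    · intro J hJ
      simp only [Finset.mem_insert, Finset.mem_singleton] at hJ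
      rcases hJ with h1 | h1 | h1
      · rw [h1]; exact mem_SS1.2 (ne_u hK)
      · rw [h1]; exact mem_SS1.2 (one_ne hK i)
      · rw [h1]; exact mem_SS1.2 (one_ne hK j)
    · simp only [Finset.mem_insert, Finset.mem_singleton, not_or] at hJ
      rw [rf_zero h (a := a) (c := c) (J := J) (if_neg hJ.1) (hcx J hJ.2.1 hJ.2.2), mul_zero, mul_zero]
  have hr2 : ∑ J ∈ ({∅, {i}, {j}} : Finset (Finset K)), N J * (2 * rf h U t a c J) =
      N ∅ * (2 * rf h U t a c ∅) + (N {i} * (2 * rf h U t a c {i}) + N {j} * (2 * rf h U t a c {j})) := by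
    rw [Finset.sum_insert, Finset.sum_insert, Finset.sum_singleton]
    · rw [Finset.mem_singleton]; exact hji.symm
    · simp only [Finset.mem_insert, Finset.mem_singleton, not_or]
      exact ⟨(hne i).symm, (hne j).symm⟩
  have h1 : rf h U t a c ∅ ≤ GMH.ent (D.P h t) (BB D t) (LL U) {k} := by
    refine (rf_le h (Y := fun w => (LL U ∅ w, WW D t w)) ?_).trans ?_
    · intro v w hz
      exact Prod.ext (Zr_LL hU hz (Finset.Subset.refl _)) (Zr_WW hz)
    · rw [ha0, hc0]
      have h2 := gg_le (D := D) (t := t) (U := U) (D.P h t) hK {k}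
      rw [Finset.sum_singleton] at h2
      exact h2.trans (le_of_eq (EndT.ent_WW h hv {k}))
  have h2 : rf h U t a c {i} ≤ GMH.ent (D.P h t) (BB D t) (LL U) (univ.erase j) :=
    EndT.rf_top hK hv hij hik hjk (by rw [ha0]; exact Finset.mem_singleton_self k) hai hci
  have h3 : rf h U t a c {j} ≤ GMH.ent (D.P h t) (BB D t) (LL U) (univ.erase i) :=
    EndT.rf_top hK hv hij.symm hjk hik (by rw [ha0]; exact Finset.mem_singleton_self k) haj hcj
  -- the gain
  have hik' : i ∈ univ.erase k := Finset.mem_erase.2 ⟨hik, mem_univ i⟩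
  have hjk' : j ∈ univ.erase k := Finset.mem_erase.2 ⟨hjk, mem_univ j⟩
  have hss : ∀ l ∈ univ.erase k, ({l} : Finset K) ⊂ univ.erase k := by
    intro l hl
    refine Finset.ssubset_iff_subset_ne.2 ⟨Finset.singleton_subset_iff.2 hl, fun hh => ?_⟩
    have := card_er hK k
    rw [← hh, Finset.card_singleton] at this
    omega
  have h0 : (∅ : Finset K) ⊂ univ.erase k :=
    Finset.ssubset_iff_subset_ne.2 ⟨Finset.empty_subset _, (er_ne hK k).symm⟩
  have herk : ∀ l, l ≠ k → ¬ univ.erase l ⊆ univ.erase k := by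
    intro l hl hh
    exact (Finset.mem_erase.1 (hh (Finset.mem_erase.2 ⟨hl.symm, mem_univ k⟩))).1 rfl
  have hk1 : univ.erase k ∈ SS1 K := mem_SS1.2 (ne_univ k)
  have hl : N (univ.erase k) * (GMH.ent (D.P h t) (BB D t) (LL U) (univ.erase k) -
      (D.P h t).Hc (LL U (univ.erase k)) (fun w => (((w.2.2 i, w.2.2 j), LL U {k} w), lo (LL U) (univ.erase k) w,
        WW D t w))) ≤ ∑ J ∈ SS1 K, N J * lf h U t a c J := by
    refine (mul_le_mul_of_nonneg_left (lf_ge h (a := a) (c := c) hU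
      (Y := fun w => (((w.2.2 i, w.2.2 j), LL U {k} w), lo (LL U) (univ.erase k) w, WW D t w)) ?_) (hN _ hk1)).trans
      (EndT.one_le_sum (f := fun J => N J * lf h U t a c J) (fun J hJ => mul_nonneg (hN J hJ) (lf_nonneg h hU)) hk1)
    intro p q hz
    have elb : ∀ l m : K, l ≠ k → m ≠ k → l ≠ m → (∀ x : K, x = l ∨ x = m ∨ x = k) →
        ∀ w : Pt K X β φ × Cp K X β φ, (mJ D t {m} w).2.2 l = (mJ D t (univ.erase k) w).2.2 l := by
      intro l m hlk hmk hlm hx w
      refine lab_mJ (er_not hK (by rw [Finset.card_singleton])) (herk l hlk) (fun x hxl => ?_) w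
      rw [Finset.mem_singleton, Finset.mem_erase]
      rcases hx x with h1 | h1 | h1
      · exact absurd h1 hxl
      · rw [h1]; exact ⟨fun _ => ⟨hmk, mem_univ m⟩, fun _ => rfl⟩
      · rw [h1]
        exact ⟨fun hh => absurd hh.symm hmk, fun hh => absurd rfl hh.1⟩
    refine Prod.ext (Prod.ext (Prod.ext ?_ ?_) ?_) (Prod.ext (lo_eq.2 fun I hI => Zl_LL hU hz hI) (Zl_WW hz))
    · -- the letter of `i` from the thin code of `j`
      show (mJ D t (univ.erase k) p).2.2 i = (mJ D t (univ.erase k) q).2.2 i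
      rw [← elb i j hik hjk hij (fun x => EndT.or3 hK hij hik hjk x) p,
        ← elb i j hik hjk hij (fun x => EndT.or3 hK hij hik hjk x) q]
      have hz2 := Zl_Wd hz (hss j hjk')
      rw [gg_eq, hcj] at hz2
      exact hz2.2 i (Finset.mem_singleton_self i)
    · show (mJ D t (univ.erase k) p).2.2 j = (mJ D t (univ.erase k) q).2.2 j
      rw [← elb j i hjk hik hij.symm (fun x => EndT.or3 hK hij.symm hjk hik x) p,
        ← elb j i hjk hik hij.symm (fun x => EndT.or3 hK hij.symm hjk hik x) q]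
      have hz2 := Zl_Wd hz (hss i hik')
      rw [gg_eq, hci] at hz2
      exact hz2.2 j (Finset.mem_singleton_self j)
    · show LL U {k} (mJ D t (univ.erase k) p) = LL U {k} (mJ D t (univ.erase k) q)
      rw [thin_LL hK (by rw [Finset.card_singleton])]
      have hz2 := Zl_Wd hz h0
      rw [gg_eq, ha0] at hz2
      have hk2 : k ∉ univ.erase k := Finset.notMem_erase k univ
      rw [← U_mJ hU (Finset.notMem_empty k) hk2, ← U_mJ hU (Finset.notMem_empty k) hk2]
      exact hz2.1 k (Finset.mem_singleton_self k)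
  have hI : (D.P h t).I (fun w => w.2.2 k) (fun w => ((w.2.2 i, w.2.2 j), LL U {k} w))
      (fun w => (lo (LL U) (univ.erase k) w, WW D t w)) ≤
      GMH.ent (D.P h t) (BB D t) (LL U) (univ.erase k) -
      (D.P h t).Hc (LL U (univ.erase k)) (fun w => (((w.2.2 i, w.2.2 j), LL U {k} w), lo (LL U) (univ.erase k) w,
        WW D t w)) := by
    have e1 : (D.P h t).I (fun w => w.2.2 k) (fun w => ((w.2.2 i, w.2.2 j), LL U {k} w))
        (fun w => (lo (LL U) (univ.erase k) w, WW D t w)) ≤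
        (D.P h t).I (LL U (univ.erase k)) (fun w => ((w.2.2 i, w.2.2 j), LL U {k} w))
        (fun w => (lo (LL U) (univ.erase k) w, WW D t w)) := by
      refine (D.P h t).I_mono _ ?_
      intro p q hpq
      simp only [Prod.mk.injEq] at hpq
      exact (LL_eq.1 hpq.1).2 k rfl
    refine e1.trans (le_of_eq ?_)
    rw [FP.I_eq_Hc, ← EndT.ent_WW h hv (univ.erase k)]
  have h5 := mul_le_mul_of_nonneg_left hI (hN _ hk1)
  have h6 := mul_le_mul_of_nonneg_left h1 (hN ∅ (mem_SS1.2 (ne_u hK)))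
  have h7 := mul_le_mul_of_nonneg_left h2 (hN _ (mem_SS1.2 (one_ne hK i)))
  have h8 := mul_le_mul_of_nonneg_left h3 (hN _ (mem_SS1.2 (one_ne hK j)))
  rw [hr, hr2] at key
  linarith

/-! ### the prices `1`, `N1`, `n N1` -/

theorem EndT.pr3_0 (n N1 : ℝ) : pr3 K n N1 ∅ = 1 := by
  unfold pr3
  rw [if_pos Finset.card_empty]

theorem EndT.pr3_1 (n N1 : ℝ) (i : K) : pr3 K n N1 {i} = N1 := by
  unfold pr3
  rw [if_neg (by rw [Finset.card_singleton]; omega), if_pos (Finset.card_singleton i)]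

variable {n N1 : ℝ}

/-- entropies of the thin letters -/
theorem entT_one (hK : Fintype.card K = 3) (R : Run h (pr3 K n N1) (SS1 K) (AdmDep D) v) (H : D.Hyp dg prr al T Lam)
    (hn : 1 ≤ n) (hN1 : 1 ≤ N1) (ht : t ≤ T) (i : K) :
    GMH.ent (D.P h t) (BB D t) (LL (Um v (t + 1))) {i} ≤ 3 * n * Lam := by
  have h1 := ent_leT R H (fun J => zero_lt_one.trans_le (pr3_one hn hN1 J)) (fun l => (pr3_top hK n N1 l).le) ht
    (one_ne hK i)
  rw [EndT.pr3_1, hK] at h1
  refine h1.trans (le_of_eq ?_)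
  have : N1 ≠ 0 := by linarith
  push_cast
  field_simp

/-- entropies of the top letters -/
theorem entT_top (hK : Fintype.card K = 3) (R : Run h (pr3 K n N1) (SS1 K) (AdmDep D) v) (H : D.Hyp dg prr al T Lam)
    (hn : 1 ≤ n) (hN1 : 1 ≤ N1) (ht : t ≤ T) (l : K) :
    GMH.ent (D.P h t) (BB D t) (LL (Um v (t + 1))) (univ.erase l) ≤ 3 * Lam := by
  have h1 := ent_leT R H (fun J => zero_lt_one.trans_le (pr3_one hn hN1 J)) (fun l => (pr3_top hK n N1 l).le) ht
    (ne_univ l)
  rw [pr3_top hK, hK] at h1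
  refine h1.trans (le_of_eq ?_)
  have : n * N1 ≠ 0 := by nlinarith
  push_cast
  field_simp

/-- **(E1)** : the potential of the thin labels at a saturated time -/
theorem endT_thin (hK : Fintype.card K = 3) (R : Run h (pr3 K n N1) (SS1 K) (AdmDep D) v) (H : D.Hyp dg prr al T Lam)
    (hn : 1 ≤ n) (hN1 : 1 ≤ N1) (ht : t ≤ T) : Mt h v (p := pth) pth0 t ≤ 18 * n * Lam / N1 := by
  have hN : ∀ J ∈ SS1 K, 0 ≤ pr3 K n N1 J := fun J _ => zero_le_one.trans (pr3_one hn hN1 J)
  have h1 := EndT.thin_gen hK R.codes (R.dep hN t) hN (EndT.pr3_1 n N1)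
  rw [EndT.pr3_0] at h1
  have h2 : ∑ i, GMH.ent (D.P h t) (BB D t) (LL (Um v (t + 1))) {i} ≤ ∑ _i : K, 3 * n * Lam :=
    Finset.sum_le_sum fun i _ => entT_one hK R H hn hN1 ht i
  rw [Finset.sum_const, Finset.card_univ, hK, nsmul_eq_mul] at h2
  push_cast at h2
  rw [le_div_iff₀ (by linarith), mul_comm]
  linarith

/-- the same for the vertices other than `j` -/
theorem endT_pj (hK : Fintype.card K = 3) (R : Run h (pr3 K n N1) (SS1 K) (AdmDep D) v) (H : D.Hyp dg prr al T Lam)
    (hn : 1 ≤ n) (hN1 : 1 ≤ N1) (ht : t ≤ T) (j : K) : Mt h v (p := pj j) (pj0 hK j) t ≤ 18 * n * Lam / N1 := by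
  refine le_trans ?_ (endT_thin hK R H hn hN1 ht)
  refine Mt_mono h (v := v) (p := pth) (p' := pj j) pth0 (h0' := pj0 hK j) pth_down (pj_down j) (fun J hJ => ?_) t
  unfold pth
  have := Finset.card_lt_card hJ
  rw [card_er hK] at this
  omega

/-- **(E2a)** : a top letter and the thin letter of the missing vertex -/
theorem endT_top1 (hK : Fintype.card K = 3) (R : Run h (pr3 K n N1) (SS1 K) (AdmDep D) v) (H : D.Hyp dg prr al T Lam)
    (hn : 1 ≤ n) (hN1 : 1 ≤ N1) (ht : t ≤ T) (j : K) :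
    (D.P h t).I (fun w => w.2.2 j) (LL (Um v (t + 1)) {j})
      (fun w => (lo (LL (Um v (t + 1))) (univ.erase j) w, WW D t w)) ≤ 18 * n * Lam / N1 := by
  have hN : ∀ J ∈ SS1 K, 0 ≤ pr3 K n N1 J := fun J _ => zero_le_one.trans (pr3_one hn hN1 J)
  have h1 := EndT.top1_gen hK R.codes (R.dep hN t) hN j
  rw [EndT.pr3_0, EndT.pr3_1] at h1
  have h2 : ∑ i ∈ univ.erase j, GMH.ent (D.P h t) (BB D t) (LL (Um v (t + 1))) {i} ≤ ∑ _i ∈ univ.erase j, 3 * n * Lam :=
    Finset.sum_le_sum fun i _ => entT_one hK R H hn hN1 ht i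
  rw [Finset.sum_const, card_er hK, nsmul_eq_mul] at h2
  push_cast at h2
  have h3 := entT_top hK R H hn hN1 ht j
  have h4 : Lam ≤ n * Lam := le_mul_of_one_le_left (zero_le_one.trans H.Lam1) hn
  rw [le_div_iff₀ (by linarith), mul_comm]
  nlinarith

/-- **(E2b), strong form** : a top letter, the two other top letters and the thin letter of the missing vertex -/
theorem endT_top2s (hK : Fintype.card K = 3) (R : Run h (pr3 K n N1) (SS1 K) (AdmDep D) v) (H : D.Hyp dg prr al T Lam)
    (hn : 1 ≤ n) (hN1 : 1 ≤ N1) (ht : t ≤ T) {i j k : K} (hij : i ≠ j) (hik : i ≠ k) (hjk : j ≠ k) :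
    (D.P h t).I (fun w => w.2.2 k) (fun w => ((w.2.2 i, w.2.2 j), LL (Um v (t + 1)) {k} w))
      (fun w => (lo (LL (Um v (t + 1))) (univ.erase k) w, WW D t w)) ≤ 12 * Lam / n + 6 * Lam / N1 := by
  have hN : ∀ J ∈ SS1 K, 0 ≤ pr3 K n N1 J := fun J _ => zero_le_one.trans (pr3_one hn hN1 J)
  have h1 := EndT.top2_gen hK R.codes (R.dep hN t) hN hij hik hjk
  rw [EndT.pr3_0, EndT.pr3_1, EndT.pr3_1, pr3_top hK] at h1
  have h2 := entT_one hK R H hn hN1 ht k
  have h3 := mul_le_mul_of_nonneg_left (entT_top hK R H hn hN1 ht j) (show 0 ≤ N1 by linarith)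
  have h4 := mul_le_mul_of_nonneg_left (entT_top hK R H hn hN1 ht i) (show 0 ≤ N1 by linarith)
  have h5 : 0 < n * N1 := by nlinarith
  have h6 : 12 * Lam / n + 6 * Lam / N1 = (12 * N1 * Lam + 6 * n * Lam) / (n * N1) := by
    have : n ≠ 0 := by linarith
    have : N1 ≠ 0 := by linarith
    field_simp
  rw [h6, le_div_iff₀ h5, mul_comm]
  linarith

/-- **(E2b)** : one top letter and the two others, given all thin letters -/
theorem endT_top2 (hK : Fintype.card K = 3) (R : Run h (pr3 K n N1) (SS1 K) (AdmDep D) v) (H : D.Hyp dg prr al T Lam)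
    (hn : 1 ≤ n) (hN1 : 1 ≤ N1) (ht : t ≤ T) {i j k : K} (hij : i ≠ j) (hik : i ≠ k) (hjk : j ≠ k) :
    (D.P h t).I (fun w => w.2.2 k) (fun w => (w.2.2 i, w.2.2 j))
      (fun w => (all (LP pth (LL (Um v (t + 1)))) w, WW D t w)) ≤ 12 * Lam / n + 6 * Lam / N1 := by
  refine le_trans ?_ (endT_top2s hK R H hn hN1 ht hij hik hjk)
  set U := Um v (t + 1) with hUd
  have h1 := (D.P h t).I_chain (fun w => (w.2.2 i, w.2.2 j)) (LL U {k}) (fun w => w.2.2 k)
    (fun w => (lo (LL U) (univ.erase k) w, WW D t w))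
  have h2 := (D.P h t).I_nonneg (LL U {k}) (fun w => w.2.2 k) (fun w => (lo (LL U) (univ.erase k) w, WW D t w))
  have h3 : (D.P h t).I (fun w => w.2.2 k) (fun w => (w.2.2 i, w.2.2 j)) (fun w => (all (LP pth (LL U)) w, WW D t w)) =
      (D.P h t).I (fun w => (w.2.2 i, w.2.2 j)) (fun w => w.2.2 k)
        (fun w => (LL U {k} w, lo (LL U) (univ.erase k) w, WW D t w)) := by
    rw [FP.I_comm]
    have hth : ∀ l : K, pth ({l} : Finset K) := fun l => by unfold pth; rw [Finset.card_singleton]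
    refine (D.P h t).I_congr_cond ?_ ?_
    · intro p q hpq
      simp only [Prod.mk.injEq] at hpq ⊢
      refine ⟨congrFun hpq.1 ⟨{k}, hth k⟩, ?_, hpq.2⟩
      exact lo_er hK (congrFun hpq.1 ⟨∅, pth0⟩) fun l _ => congrFun hpq.1 ⟨{l}, hth l⟩
    · intro p q hpq
      simp only [Prod.mk.injEq] at hpq ⊢
      refine ⟨funext fun I => ?_, hpq.2.2⟩
      show LL U I.1 p = LL U I.1 q
      have h0 : (∅ : Finset K) ⊂ univ.erase k :=
        Finset.ssubset_iff_subset_ne.2 ⟨Finset.empty_subset _, (er_ne hK k).symm⟩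
      rcases Nat.lt_or_ge I.1.card 1 with h4 | h4
      · have : I.1 = ∅ := Finset.card_eq_zero.1 (by omega)
        rw [this]
        exact lo_eq.1 hpq.2.1 ∅ h0
      · obtain ⟨l, hl⟩ := Finset.card_eq_one.1 (le_antisymm I.2 h4)
        rw [hl]
        by_cases hlk : l = k
        · rw [hlk]; exact hpq.1
        · refine lo_eq.1 hpq.2.1 {l} ?_
          refine Finset.ssubset_iff_subset_ne.2
            ⟨Finset.singleton_subset_iff.2 (Finset.mem_erase.2 ⟨hlk, mem_univ l⟩), fun hh => ?_⟩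
          have := card_er hK k
          rw [← hh, Finset.card_singleton] at this
          omega
  rw [h3, (D.P h t).I_comm (fun w => w.2.2 k)]
  linarith

end fin

end Pool.Agent.GMH
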