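import Pool.Agent.GMH.EndT
import Pool.Agent.GMH.EndT3

/-!
# GMH.EndT4: the tops over the thin labels at a saturated time, in the form of `EndT3` (helper67)

`L = LL (Um v (t+1))`, `P = D.P h t`.  On the support the label of a pair is its top letter (given everything below):
`EndT.Hc_top`, `I_top1`, `I_top2`, `I_topP`; hence (E1), (E2) in the form of `endT3_le`:

* `endT_hE`, `endT_hE3`, `endT_hP2`;
* **`endT_rel`** : `Mt (≠ univ) - Mt pth ≤ 54 n Lam / N1 + e2 + (12 Lam / n + 6 Lam / N1)`, `e2` = bound of the mutual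
  information of ONE pair of top letters given all thin letters; `endT_relA` on any event.
-/

set_option autoImplicit false
set_option linter.unusedSectionVars false

namespace Pool.Agent.GMH

open Finset Pool.Agent.PWZ Pool.Agent.M3 Pool.Agent.GM Pool.Agent.GM.Harm

section top

variable {K X β γ φ : Type} [Fintype K] [DecidableEq K] [Fintype X] [Fintype β] [Fintype φ] [Nonempty X] [Nonempty β]
  {D : HD K X β γ φ} {al : ℝ} {h : D.Thick al} {dg : ℕ → X → ℝ} {prr : ℕ → K → φ → φ} {T : ℕ} {Lam : ℝ}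
  {v : ℕ → Finset K → X → (K → β) → Pt K X β φ} {t : ℕ} {N : Finset K → ℝ}

/-- the label of a pair is its top letter -/
theorem EndT.top_iff (R : Run h N (SS1 K) (AdmDep D) v) (H : D.Hyp dg prr al T Lam) (hN : ∀ J, 0 < N J) (ht : t ≤ T)
    (l : K) {ι : Type*} {Z : Pt K X β φ → ι}
    (hZ : Fac Z (fun w => (lo (LL (Um v (t + 1))) (univ.erase l) w, WW D t w))) {p q : Pt K X β φ}
    (hp : (D.P h t).p p ≠ 0) (hq : (D.P h t).p q ≠ 0) (hpq : Z p = Z q) :
    LL (Um v (t + 1)) (univ.erase l) p = LL (Um v (t + 1)) (univ.erase l) q ↔ p.2.2 l = q.2.2 l := by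
  have h1 := hZ p q hpq
  simp only [Prod.mk.injEq] at h1
  refine R.top_LL H (mem_SS1.2 (ne_univ l)) (fun hh => (mem_SS1.1 hh) rfl) (hN _) ht hp hq ?_
  exact Prod.ext h1.1 (WW_BB D t (univ.erase l) p q h1.2)

theorem EndT.Hc_top (R : Run h N (SS1 K) (AdmDep D) v) (H : D.Hyp dg prr al T Lam) (hN : ∀ J, 0 < N J) (ht : t ≤ T)
    (l : K) {ι : Type*} {Z : Pt K X β φ → ι}
    (hZ : Fac Z (fun w => (lo (LL (Um v (t + 1))) (univ.erase l) w, WW D t w))) :
    (D.P h t).Hc (LL (Um v (t + 1)) (univ.erase l)) Z = (D.P h t).Hc (fun w => w.2.2 l) Z :=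
  Hc_congr_supp (fun _ _ _ _ => Iff.rfl) fun _ _ hp hq hz => EndT.top_iff R H hN ht l hZ hp hq hz

theorem EndT.th_fac (hK : Fintype.card K = 3) {U : Finset K → X → (K → β) → List (Pt K X β φ)} (l : K) :
    Fac (fun w => (all (LP pth (LL (φ := φ) U)) w, WW D t w)) (fun w => (lo (LL U) (univ.erase l) w, WW D t w)) := by
  intro p q hpq
  simp only [Prod.mk.injEq] at hpq ⊢
  refine ⟨?_, hpq.2⟩
  rw [lo_eq]
  intro I hI
  have h1 := Finset.card_lt_card hI
  rw [card_er hK] at h1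
  exact congrFun hpq.1 ⟨I, by unfold pth; omega⟩

/-- a top letter and the thin letter of the missing vertex -/
theorem EndT.I_top1 (R : Run h N (SS1 K) (AdmDep D) v) (H : D.Hyp dg prr al T Lam) (hN : ∀ J, 0 < N J) (ht : t ≤ T)
    (l : K) : (D.P h t).I (LL (Um v (t + 1)) (univ.erase l)) (LL (Um v (t + 1)) {l})
        (fun w => (lo (LL (Um v (t + 1))) (univ.erase l) w, WW D t w)) =
      (D.P h t).I (fun w => w.2.2 l) (LL (Um v (t + 1)) {l})
        (fun w => (lo (LL (Um v (t + 1))) (univ.erase l) w, WW D t w)) := by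
  rw [FP.I_eq_Hc, FP.I_eq_Hc, EndT.Hc_top R H hN ht l (Fac.refl _), EndT.Hc_top R H hN ht l (Fac.snd _ _)]

/-- two top letters given all thin letters -/
theorem EndT.I_topP (hK : Fintype.card K = 3) (R : Run h N (SS1 K) (AdmDep D) v) (H : D.Hyp dg prr al T Lam)
    (hN : ∀ J, 0 < N J) (ht : t ≤ T) (i j : K) :
    (D.P h t).I (LL (Um v (t + 1)) (univ.erase j)) (LL (Um v (t + 1)) (univ.erase i))
        (fun w => (all (LP pth (LL (Um v (t + 1)))) w, WW D t w)) =
      (D.P h t).I (fun w => w.2.2 j) (fun w => w.2.2 i) (fun w => (all (LP pth (LL (Um v (t + 1)))) w, WW D t w)) := by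
  have f := fun l => EndT.th_fac (D := D) (t := t) hK (U := Um v (t + 1)) l
  rw [FP.I_eq_Hc, FP.I_eq_Hc, EndT.Hc_top R H hN ht j (f j),
    EndT.Hc_top R H hN ht j ((Fac.snd (LL (Um v (t + 1)) (univ.erase i)) _).trans (f j))]
  congr 1
  refine Hc_congr_supp (fun p q hp hq => ?_) fun _ _ _ _ _ => Iff.rfl
  simp only [Prod.mk.injEq]
  constructor
  · rintro ⟨h1, h2⟩
    exact ⟨(EndT.top_iff R H hN ht i (f i) hp hq (Prod.ext h2.1 h2.2)).1 h1, h2⟩
  · rintro ⟨h1, h2⟩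
    exact ⟨(EndT.top_iff R H hN ht i (f i) hp hq (Prod.ext h2.1 h2.2)).2 h1, h2⟩

/-- one top letter and the two others given all thin letters -/
theorem EndT.I_top2 (hK : Fintype.card K = 3) (R : Run h N (SS1 K) (AdmDep D) v) (H : D.Hyp dg prr al T Lam)
    (hN : ∀ J, 0 < N J) (ht : t ≤ T) (i j k : K) :
    (D.P h t).I (LL (Um v (t + 1)) (univ.erase k))
        (fun w => (LL (Um v (t + 1)) (univ.erase i) w, LL (Um v (t + 1)) (univ.erase j) w))
        (fun w => (all (LP pth (LL (Um v (t + 1)))) w, WW D t w)) =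
      (D.P h t).I (fun w => w.2.2 k) (fun w => (w.2.2 i, w.2.2 j))
        (fun w => (all (LP pth (LL (Um v (t + 1)))) w, WW D t w)) := by
  have f := fun l => EndT.th_fac (D := D) (t := t) hK (U := Um v (t + 1)) l
  rw [FP.I_eq_Hc, FP.I_eq_Hc, EndT.Hc_top R H hN ht k (f k), EndT.Hc_top R H hN ht k ((Fac.snd
    (fun w => (LL (Um v (t + 1)) (univ.erase i) w, LL (Um v (t + 1)) (univ.erase j) w)) _).trans (f k))]
  congr 1
  refine Hc_congr_supp (fun p q hp hq => ?_) fun _ _ _ _ _ => Iff.rfl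
  simp only [Prod.mk.injEq]
  constructor
  · rintro ⟨⟨h1, h3⟩, h2⟩
    exact ⟨⟨(EndT.top_iff R H hN ht i (f i) hp hq (Prod.ext h2.1 h2.2)).1 h1,
      (EndT.top_iff R H hN ht j (f j) hp hq (Prod.ext h2.1 h2.2)).1 h3⟩, h2⟩
  · rintro ⟨⟨h1, h3⟩, h2⟩
    exact ⟨⟨(EndT.top_iff R H hN ht i (f i) hp hq (Prod.ext h2.1 h2.2)).2 h1,
      (EndT.top_iff R H hN ht j (f j) hp hq (Prod.ext h2.1 h2.2)).2 h3⟩, h2⟩

/-! ## the prices `1`, `N1`, `n N1` -/

variable {n N1 : ℝ}

theorem endT_hE (hK : Fintype.card K = 3) (R : Run h (pr3 K n N1) (SS1 K) (AdmDep D) v) (H : D.Hyp dg prr al T Lam)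
    (hn : 1 ≤ n) (hN1 : 1 ≤ N1) (ht : t ≤ T) (l : K) :
    (D.P h t).I (LL (Um v (t + 1)) (univ.erase l)) (LL (Um v (t + 1)) {l})
      (fun w => (lo (LL (Um v (t + 1))) (univ.erase l) w, WW D t w)) ≤ 18 * n * Lam / N1 := by
  rw [EndT.I_top1 R H (fun J => zero_lt_one.trans_le (pr3_one hn hN1 J)) ht l]
  exact endT_top1 hK R H hn hN1 ht l

theorem endT_hE3 (hK : Fintype.card K = 3) (R : Run h (pr3 K n N1) (SS1 K) (AdmDep D) v) (H : D.Hyp dg prr al T Lam)
    (hn : 1 ≤ n) (hN1 : 1 ≤ N1) (ht : t ≤ T) {i j k : K} (hij : i ≠ j) (hik : i ≠ k) (hjk : j ≠ k) :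
    (D.P h t).I (LL (Um v (t + 1)) (univ.erase k))
        (fun w => (LL (Um v (t + 1)) (univ.erase i) w, LL (Um v (t + 1)) (univ.erase j) w))
        (fun w => (all (LP pth (LL (Um v (t + 1)))) w, WW D t w)) ≤ 12 * Lam / n + 6 * Lam / N1 := by
  rw [EndT.I_top2 hK R H (fun J => zero_lt_one.trans_le (pr3_one hn hN1 J)) ht i j k]
  exact endT_top2 hK R H hn hN1 ht hij hik hjk

/-- **the tops over the thin labels at a saturated time** : only the mutual information of one pair of top letters is left -/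
theorem endT_rel (hK : Fintype.card K = 3) (R : Run h (pr3 K n N1) (SS1 K) (AdmDep D) v) (H : D.Hyp dg prr al T Lam)
    (hn : 1 ≤ n) (hN1 : 1 ≤ N1) (ht : t ≤ T) {i j : K} (hij : i ≠ j) {e2 : ℝ}
    (hP2 : (D.P h t).I (fun w => w.2.2 j) (fun w => w.2.2 i)
        (fun w => (all (LP pth (LL (Um v (t + 1)))) w, WW D t w)) ≤ e2) :
    Mt h v (p := fun J => J ≠ univ) (ne_u hK) t - Mt h v (p := pth) pth0 t ≤
      54 * n * Lam / N1 + e2 + (12 * Lam / n + 6 * Lam / N1) := by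
  obtain ⟨k, hk⟩ : ∃ k : K, k ≠ i ∧ k ≠ j := by
    by_contra hc
    push Not at hc
    have h1 : (univ : Finset K) ⊆ {i, j} := fun k _ => by
      by_cases hki : k = i
      · rw [hki]; exact Finset.mem_insert_self i {j}
      · exact Finset.mem_insert_of_mem (Finset.mem_singleton.2 (hc k hki))
    have h2 := Finset.card_le_card h1
    rw [Finset.card_univ, hK, Finset.card_pair hij] at h2
    omega
  have hN : ∀ J, 0 < pr3 K n N1 J := fun J => zero_lt_one.trans_le (pr3_one hn hN1 J)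
  have h1 := endT3_le h hK hij hk.1.symm hk.2.symm (fun l => endT_hE hK R H hn hN1 ht l)
    ((EndT.I_topP hK R H hN ht i j).trans_le hP2) (endT_hE3 hK R H hn hN1 ht hij hk.1.symm hk.2.symm)
  refine h1.trans (le_of_eq ?_)
  ring

/-- **on any event** -/
theorem endT_relA (hK : Fintype.card K = 3) (R : Run h (pr3 K n N1) (SS1 K) (AdmDep D) v) (H : D.Hyp dg prr al T Lam)
    (hn : 1 ≤ n) (hN1 : 1 ≤ N1) (ht : t ≤ T) {i j : K} (hij : i ≠ j) {e2 : ℝ}
    (hP2 : (D.P h t).I (fun w => w.2.2 j) (fun w => w.2.2 i)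
        (fun w => (all (LP pth (LL (Um v (t + 1)))) w, WW D t w)) ≤ e2) (a : ℕ → Pt K X β φ → Prop) :
    MA h v (fun J => J ≠ univ) pth a t ≤ (54 * n * Lam / N1 + e2 + (12 * Lam / n + 6 * Lam / N1)) +
      Real.sqrt (2 * (54 * n * Lam / N1 + e2 + (12 * Lam / n + 6 * Lam / N1))) := by
  have h1 := MA_le h (v := v) (t := t) down_ne pth_down (ne_u hK) pth0 (pth_sub hK) a
  have h2 := endT_rel hK R H hn hN1 ht hij hP2
  have h3 := Real.sqrt_le_sqrt (mul_le_mul_of_nonneg_left h2 (by norm_num : (0 : ℝ) ≤ 2))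
  linarith

/-- the thin labels over the class, on any event -/
theorem endT_thinA (hK : Fintype.card K = 3) (R : Run h (pr3 K n N1) (SS1 K) (AdmDep D) v) (H : D.Hyp dg prr al T Lam)
    (hn : 1 ≤ n) (hN1 : 1 ≤ N1) (ht : t ≤ T) (a : ℕ → Pt K X β φ → Prop) :
    MA h v pth pcl a t ≤ 18 * n * Lam / N1 + Real.sqrt (2 * (18 * n * Lam / N1)) := by
  have h1 := MA_cls_le h (v := v) (t := t) pth_down pth0 a
  have h2 := endT_thin hK R H hn hN1 ht
  have h3 := Real.sqrt_le_sqrt (mul_le_mul_of_nonneg_left h2 (by norm_num : (0 : ℝ) ≤ 2))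
  linarith

/-- the vertices other than `j` over the class, on any event -/
theorem endT_pjA (hK : Fintype.card K = 3) (R : Run h (pr3 K n N1) (SS1 K) (AdmDep D) v) (H : D.Hyp dg prr al T Lam)
    (hn : 1 ≤ n) (hN1 : 1 ≤ N1) (ht : t ≤ T) (j : K) (a : ℕ → Pt K X β φ → Prop) :
    MA h v (pj j) pcl a t ≤ 18 * n * Lam / N1 + Real.sqrt (2 * (18 * n * Lam / N1)) := by
  have h1 := MA_cls_le h (v := v) (t := t) (pj_down j) (pj0 hK j) a
  have h2 := endT_pj hK R H hn hN1 ht j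
  have h3 := Real.sqrt_le_sqrt (mul_le_mul_of_nonneg_left h2 (by norm_num : (0 : ℝ) ≤ 2))
  linarith

end top

end Pool.Agent.GMH
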