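import Pool.Agent.GMH.ConA
import Pool.Agent.M3.FPMart

/-!
# GMH/EpG (helper50): the gains of the epochs telescope

`A t` = what is known at the time `t` (a filtration), `T t` = letter of the time `t` (the older letters are functions of
`(T t, A t)`), `e t` = an epoch ends at `t` (seen by `A t`), `st t` = start of the epoch which is alive before `t`.  At the end
`t` of an epoch with start `s` the letter `T s` has gained `gn = sp (T s | A s) - sp (T s | A t)` (log of the present
probability over the old probability).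

* `epoch_gain` : `∑_t E 1(e t) gn ≤ Hc (T 0 | A 0) + ∑_t Hc (T (t + 1) | T t, A (t + 1))` : all epochs together gain at most the
  cost of the letter (births included);
* `gain_loc` : on an event seen by `A t` the mean gain is nonnegative;
* `klc_gain` : in one class the mean gain is the conditional relative entropy `klc` of the two class laws.
-/

set_option autoImplicit false
set_option linter.unusedSectionVars false

namespace Pool.Agent.GMH.EpG

open Finset Pool.Agent.PWZ Pool.Agent.M3 Pool.Agent.GM Pool.Agent.GM.Harm Pool.Agent.GMH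

noncomputable section

variable {Om : Type*} [Fintype Om] {P : FP Om} {κ ι ι' : Type*}

/-- more knowledge, on an event seen before -/
theorem loc_anti (X : Om → κ) {Z : Om → ι} {Z' : Om → ι'} (hZ : Fac Z' Z) {B : Om → Prop} (hB : Fac Z B) :
    P.E (fun w => ind (B w) * sp P X Z' w) ≤ P.E (fun w => ind (B w) * sp P X Z w) := by
  by_cases h0 : P.Pr B = 0
  · have e : ∀ g : Om → ℝ, P.E (fun w => ind (B w) * g w) = 0 := by
      intro g
      refine (P.E_congr fun w hw => ?_).trans (P.E_const 0)
      by_cases hb : B w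
      · exfalso
        have := FP.Pr_pos_of (P := P) hw hb
        linarith
      · rw [ind_not hb, zero_mul]
    rw [e, e]
  · have h1 := sp_cond_fac P h0 X (Z := Z') (hZ.trans hB)
    have h2 := sp_cond_fac P h0 X (Z := Z) hB
    have h3 := (P.cond B).Hc_anti X hZ
    rw [← h1, ← h2, FP.cond_E h0, FP.cond_E h0] at h3
    have hp : 0 < P.Pr B := lt_of_le_of_ne (P.Pr_nonneg B) (Ne.symm h0)
    exact (div_le_div_iff_of_pos_right hp).1 h3

/-- **the mean gain on an event of the present is nonnegative** -/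
theorem gain_loc (X : Om → κ) {Z : Om → ι} {Z' : Om → ι'} {B : Om → Prop} (hZ : Fac Z' Z) (hB : Fac Z' B) :
    0 ≤ P.E (fun w => ind (B w) * (sp P X Z w - sp P X Z' w)) := by
  by_cases h0 : P.Pr B = 0
  · refine le_of_eq (Eq.symm ((P.E_congr fun w hw => ?_).trans (P.E_const 0)))
    by_cases hb : B w
    · exfalso
      have := FP.Pr_pos_of (P := P) hw hb
      linarith
    · rw [ind_not hb, zero_mul]
  · have h1 := sp_cond_fac P h0 X (Z := Z') hB
    have h2 := sp_cond_ge P B X Z
    have h3 := (P.cond B).Hc_anti X hZ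
    have hp : 0 < P.Pr B := lt_of_le_of_ne (P.Pr_nonneg B) (Ne.symm h0)
    have h4 : 0 ≤ (P.cond B).E (fun w => sp P X Z w - sp P X Z' w) := by
      rw [FP.E_sub]
      linarith
    rw [FP.cond_E h0] at h4
    have h5 := mul_nonneg h4 hp.le
    rwa [div_mul_cancel₀ _ hp.ne'] at h5

/-- mass in a class -/
theorem m_fib {ν μ : Type*} (Y : Om → ν) (A : Om → μ) {v w : Om} (hA : A v = A w)
    (hA0 : P.Pr (fun v => A v = A w) ≠ 0) :
    (P.cond fun v => A v = A w).m Y v = P.m (fun u => (Y u, A u)) v / P.Pr (fun v => A v = A w) := by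
  unfold FP.m
  rw [FP.cond_E hA0]
  congr 1
  refine P.E_congr fun u _ => ?_
  rw [← ind_and]
  congr 1
  refine propext ⟨fun h => ?_, fun h => ?_⟩
  · show (Y u, A u) = (Y v, A v)
    rw [h.2, h.1, hA]
  · have h' : (Y u, A u) = (Y v, A v) := h
    exact ⟨(Prod.mk.inj h').2.trans hA, (Prod.mk.inj h').1⟩

/-- **in one class the mean gain is the conditional relative entropy** of the class laws, `C` = further known quantity -/
theorem klc_gain {α α' μ : Type*} {A0 : Om → α} {A1 : Om → α'} (X : Om → κ) (C : Om → μ) (h01 : Fac A1 A0) {w : Om}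
    (hw : P.p w ≠ 0) :
    (P.cond fun v => A1 v = A1 w).klc (P.cond fun v => A0 v = A0 w) X C =
      (P.cond fun v => A1 v = A1 w).E
        (fun v => sp P X (fun u => (C u, A0 u)) v - sp P X (fun u => (C u, A1 u)) v) := by
  have hp1 : P.Pr (fun v => A1 v = A1 w) ≠ 0 := (P.m_pos A1 hw).ne'
  have hp0 : P.Pr (fun v => A0 v = A0 w) ≠ 0 := (P.m_pos A0 hw).ne'
  unfold FP.klc
  refine FP.E_congr _ fun v hv => ?_
  obtain ⟨hv1, hvp⟩ := (FP.cond_p_ne hp1).1 hv
  have hv0 : A0 v = A0 w := h01 v w hv1
  rw [m_fib (fun u => (X u, C u)) A1 hv1 hp1, m_fib C A1 hv1 hp1, m_fib (fun u => (X u, C u)) A0 hv0 hp0,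
    m_fib C A0 hv0 hp0]
  have a1 : P.m (fun u => ((X u, C u), A1 u)) v = P.m (fun u => (X u, (C u, A1 u))) v :=
    P.m_congr (by intro a b h; simp only [Prod.mk.injEq] at h ⊢; tauto)
      (by intro a b h; simp only [Prod.mk.injEq] at h ⊢; tauto) v
  have a0 : P.m (fun u => ((X u, C u), A0 u)) v = P.m (fun u => (X u, (C u, A0 u))) v :=
    P.m_congr (by intro a b h; simp only [Prod.mk.injEq] at h ⊢; tauto)
      (by intro a b h; simp only [Prod.mk.injEq] at h ⊢; tauto) v
  rw [a1, a0]
  have p1 := (P.m_pos (fun u => (X u, (C u, A1 u))) hvp).ne'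
  have p2 := (P.m_pos (fun u => (C u, A1 u)) hvp).ne'
  have p3 := (P.m_pos (fun u => (X u, (C u, A0 u))) hvp).ne'
  have p4 := (P.m_pos (fun u => (C u, A0 u)) hvp).ne'
  rw [div_div_div_cancel_right₀ hp1, div_div_div_cancel_right₀ hp0, Real.log_div (div_ne_zero p1 p2) (div_ne_zero p3 p4),
    Real.log_div p1 p2, Real.log_div p3 p4]
  unfold sp
  ring

/-! ## epochs -/

section ep

variable (e : ℕ → Om → Prop)

open Classical in
/-- start of the epoch which is alive before the time `t` -/
def st : ℕ → Om → ℕ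
  | 0, _ => 0
  | t + 1, w => if e t w then t else st t w

theorem st_le (t : ℕ) (w : Om) : st e t w ≤ t := by
  induction t with
  | zero => exact le_rfl
  | succ t ih =>
    unfold st
    split_ifs
    · exact Nat.le_succ t
    · exact ih.trans (Nat.le_succ t)

theorem st_le' (t : ℕ) (w : Om) : st e (t + 1) w ≤ t := by
  unfold st
  split_ifs
  · exact le_rfl
  · exact st_le e t w

variable {κ ι : ℕ → Type*} (P) (T : ∀ t, Om → κ t) (A : ∀ t, Om → ι t)

/-- **gain of the letter of the start** at the time `t` -/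
def gn (t : ℕ) (w : Om) : ℝ := ∑ s ∈ range (t + 1), ind (st e t w = s) * (sp P (T s) (A s) w - sp P (T s) (A t) w)

/-- potential of the epoch with start `s` -/
def pt (t s : ℕ) (w : Om) : ℝ := sp P (T s) (A s) w + sp P (T t) (fun v => (T s v, A t v)) w

/-- potential before the ends of `t` -/
def Mp (t : ℕ) (w : Om) : ℝ := ∑ s ∈ range (t + 1), ind (st e t w = s) * pt P T A t s w

/-- potential after the ends of `t` -/
def Mq (t : ℕ) (w : Om) : ℝ := ∑ s ∈ range (t + 1), ind (st e (t + 1) w = s) * pt P T A t s w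

variable {P T A} {e}

theorem sum_st {t a : ℕ} (h : a ≤ t) (g : ℕ → ℝ) : ∑ s ∈ range (t + 1), ind (a = s) * g s = g a := by
  rw [sum_eq_single a (fun b _ hb => by rw [ind_not (fun h => hb h.symm), zero_mul])
    (fun hh => absurd (mem_range.2 (Nat.lt_succ_of_le h)) hh), ind_of rfl, one_mul]

theorem gn_eq (t : ℕ) (w : Om) : gn P e T A t w =
    sp P (T (st e t w)) (A (st e t w)) w - sp P (T (st e t w)) (A t) w :=
  sum_st (st_le e t w) fun s => sp P (T s) (A s) w - sp P (T s) (A t) w

theorem Mp_eq (t : ℕ) (w : Om) : Mp P e T A t w = pt P T A t (st e t w) w :=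
  sum_st (st_le e t w) fun s => pt P T A t s w

theorem Mq_eq (t : ℕ) (w : Om) : Mq P e T A t w = pt P T A t (st e (t + 1) w) w :=
  sum_st (st_le' e t w) fun s => pt P T A t s w

/-- the older letters are seen -/
theorem old (hA : Filt A) (hT : ∀ t, Fac (fun w => (T (t + 1) w, A (t + 1) w)) (T t)) {s t : ℕ} (h : s ≤ t) :
    Fac (fun w => (T t w, A t w)) (T s) := by
  induction t, h using Nat.le_induction with
  | base => exact Fac.fst _ _
  | succ t _ ih =>
    intro v w hvw
    refine ih v w ?_
    have h1 := hT t v w hvw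
    have h2 := hA t v w (Prod.mk.inj (show (T (t + 1) v, A (t + 1) v) = (T (t + 1) w, A (t + 1) w) from hvw)).2
    show (T t v, A t v) = (T t w, A t w)
    rw [h1, h2]

/-- the step at the ends -/
theorem Mq_step (hA : Filt A) (hT : ∀ t, Fac (fun w => (T (t + 1) w, A (t + 1) w)) (T t)) (t : ℕ) (w : Om) :
    Mq P e T A t w = Mp P e T A t w - ind (e t w) * gn P e T A t w := by
  rw [Mq_eq, Mp_eq, gn_eq]
  by_cases he : e t w
  · have h1 : st e (t + 1) w = t := by
      unfold st
      rw [if_pos he]
    rw [h1, ind_of he, one_mul]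
    set s := st e t w with hs
    have hst : s ≤ t := st_le e t w
    unfold pt
    have h2 : sp P (T t) (fun v => (T t v, A t v)) w = 0 := sp_const P (Fac.fst _ _) w
    have h3 := sp_chain P (T t) (T s) (A t) w
    have h4 : sp P (fun v => (T t v, T s v)) (A t) w = sp P (T t) (A t) w := by
      refine sp_congr P ?_ (Fac.refl _) ?_ (Fac.refl _) w
      · intro a b hab
        exact (Prod.mk.inj (Prod.mk.inj (show ((T t a, T s a), A t a) = ((T t b, T s b), A t b) from hab)).1).1
      · intro a b hab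
        have h5 := old hA hT hst a b hab
        have h6 := (Prod.mk.inj (show (T t a, A t a) = (T t b, A t b) from hab)).1
        show (T t a, T s a) = (T t b, T s b)
        rw [h5, h6]
    rw [h2, ← h4, h3]
    ring
  · have h1 : st e (t + 1) w = st e t w := by
      rw [st, if_neg he]
    rw [h1, ind_not he]
    ring

theorem st_pos {t : ℕ} {w : Om} (h : e t w) : st e (t + 1) w = t := by
  unfold st
  rw [if_pos h]

theorem st_neg {t : ℕ} {w : Om} (h : ¬ e t w) : st e (t + 1) w = st e t w := by
  rw [st, if_neg h]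

theorem st_fac (hA : Filt A) (he : ∀ t, Fac (A t) (e t)) (t : ℕ) : Fac (A t) (st e (t + 1)) := by
  induction t with
  | zero =>
    intro v w _
    exact (Nat.le_zero.1 (st_le' e 0 v)).trans (Nat.le_zero.1 (st_le' e 0 w)).symm
  | succ t ih =>
    intro v w h
    have h1 : e (t + 1) v = e (t + 1) w := he (t + 1) v w h
    by_cases h3 : e (t + 1) v
    · have h4 : e (t + 1) w := h1 ▸ h3
      rw [st_pos h3, st_pos h4]
    · have h4 : ¬ e (t + 1) w := h1 ▸ h3
      exact (st_neg h3).trans ((ih v w (hA t v w h)).trans (st_neg h4).symm)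

/-- one time -/
theorem Mp_step (hA : Filt A) (hT : ∀ t, Fac (fun w => (T (t + 1) w, A (t + 1) w)) (T t)) (he : ∀ t, Fac (A t) (e t))
    (t : ℕ) : P.E (Mp P e T A (t + 1)) ≤ P.E (Mq P e T A t) +
      P.Hc (T (t + 1)) (fun w => (T t w, A (t + 1) w)) := by
  have e1 : ∀ w, Mp P e T A (t + 1) w = ∑ s ∈ range (t + 1), (ind (st e (t + 1) w = s) * sp P (T s) (A s) w +
      ind (st e (t + 1) w = s) * sp P (T t) (fun v => (T s v, A (t + 1) v)) w) +
      sp P (T (t + 1)) (fun v => (T t v, A (t + 1) v)) w := by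
    intro w
    rw [Mp_eq]
    have hs : st e (t + 1) w ≤ t := st_le' e t w
    have h1 : ∑ s ∈ range (t + 1), (ind (st e (t + 1) w = s) * sp P (T s) (A s) w +
        ind (st e (t + 1) w = s) * sp P (T t) (fun v => (T s v, A (t + 1) v)) w) =
        ∑ s ∈ range (t + 1), ind (st e (t + 1) w = s) * (sp P (T s) (A s) w +
          sp P (T t) (fun v => (T s v, A (t + 1) v)) w) := sum_congr rfl fun s _ => by ring
    rw [h1, sum_st hs fun s => sp P (T s) (A s) w + sp P (T t) (fun v => (T s v, A (t + 1) v)) w]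
    set s := st e (t + 1) w
    unfold pt
    have h3 := sp_chain P (T (t + 1)) (T t) (fun v => (T s v, A (t + 1) v)) w
    have h4 : sp P (fun v => (T (t + 1) v, T t v)) (fun v => (T s v, A (t + 1) v)) w =
        sp P (T (t + 1)) (fun v => (T s v, A (t + 1) v)) w := by
      refine sp_congr P ?_ (Fac.refl _) ?_ (Fac.refl _) w
      · intro a b hab
        exact (Prod.mk.inj (Prod.mk.inj (show ((T (t + 1) a, T t a), (T s a, A (t + 1) a)) =
          ((T (t + 1) b, T t b), (T s b, A (t + 1) b)) from hab)).1).1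
      · intro a b hab
        have h5 := Prod.mk.inj (show (T (t + 1) a, (T s a, A (t + 1) a)) = (T (t + 1) b, (T s b, A (t + 1) b)) from hab)
        have h6 := (Prod.mk.inj h5.2).2
        have h7 := hT t a b (by
          show (T (t + 1) a, A (t + 1) a) = (T (t + 1) b, A (t + 1) b)
          rw [h5.1, h6])
        show (T (t + 1) a, T t a) = (T (t + 1) b, T t b)
        rw [h5.1, h7]
    have h8 : sp P (T (t + 1)) (fun v => (T t v, (T s v, A (t + 1) v))) w =
        sp P (T (t + 1)) (fun v => (T t v, A (t + 1) v)) w := by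
      refine sp_congr P (Fac.fst _ _) ?_ (Fac.fst _ _) ?_ w
      · intro a b hab
        have h5 := Prod.mk.inj (show (T t a, (T s a, A (t + 1) a)) = (T t b, (T s b, A (t + 1) b)) from hab)
        show (T t a, A (t + 1) a) = (T t b, A (t + 1) b)
        rw [h5.1, (Prod.mk.inj h5.2).2]
      · intro a b hab
        have h5 := Prod.mk.inj (show (T t a, A (t + 1) a) = (T t b, A (t + 1) b) from hab)
        have h6 := hA t a b h5.2
        have h7 := old hA hT hs a b (by
          show (T t a, A t a) = (T t b, A t b)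
          rw [h5.1, h6])
        show (T t a, (T s a, A (t + 1) a)) = (T t b, (T s b, A (t + 1) b))
        rw [h5.1, h5.2, h7]
    rw [← h4, h3, h8]
    ring
  have e2 : P.E (Mp P e T A (t + 1)) = ∑ s ∈ range (t + 1), (P.E (fun w => ind (st e (t + 1) w = s) *
      sp P (T s) (A s) w) + P.E (fun w => ind (st e (t + 1) w = s) * sp P (T t) (fun v => (T s v, A (t + 1) v)) w)) +
      P.Hc (T (t + 1)) (fun w => (T t w, A (t + 1) w)) := by
    rw [P.E_congr (g := fun w => ∑ s ∈ range (t + 1), (ind (st e (t + 1) w = s) * sp P (T s) (A s) w +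
      ind (st e (t + 1) w = s) * sp P (T t) (fun v => (T s v, A (t + 1) v)) w) +
      sp P (T (t + 1)) (fun v => (T t v, A (t + 1) v)) w) fun w _ => e1 w, P.E_add, E_sp, P.E_sum]
    congr 1
    exact sum_congr rfl fun s _ => P.E_add _ _
  have e3 : P.E (Mq P e T A t) = ∑ s ∈ range (t + 1), (P.E (fun w => ind (st e (t + 1) w = s) *
      sp P (T s) (A s) w) + P.E (fun w => ind (st e (t + 1) w = s) * sp P (T t) (fun v => (T s v, A t v)) w)) := by
    have h1 : ∀ w, Mq P e T A t w = ∑ s ∈ range (t + 1), (ind (st e (t + 1) w = s) * sp P (T s) (A s) w +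
        ind (st e (t + 1) w = s) * sp P (T t) (fun v => (T s v, A t v)) w) := fun w =>
      sum_congr rfl fun s _ => by
        unfold pt
        ring
    rw [P.E_congr (g := fun w => ∑ s ∈ range (t + 1), (ind (st e (t + 1) w = s) * sp P (T s) (A s) w +
        ind (st e (t + 1) w = s) * sp P (T t) (fun v => (T s v, A t v)) w)) fun w _ => h1 w, P.E_sum]
    exact sum_congr rfl fun s _ => P.E_add _ _
  rw [e2, e3]
  refine add_le_add (sum_le_sum fun s _ => add_le_add le_rfl ?_) le_rfl
  refine loc_anti (T t) ?_ ?_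
  · intro a b hab
    have h5 := Prod.mk.inj (show (T s a, A (t + 1) a) = (T s b, A (t + 1) b) from hab)
    show (T s a, A t a) = (T s b, A t b)
    rw [h5.1, hA t a b h5.2]
  · intro a b hab
    have h5 := Prod.mk.inj (show (T s a, A t a) = (T s b, A t b) from hab)
    show (st e (t + 1) a = s) = (st e (t + 1) b = s)
    rw [st_fac hA he t a b h5.2]

/-- **THE GAINS OF THE EPOCHS TELESCOPE** -/
theorem epoch_gain (hA : Filt A) (hT : ∀ t, Fac (fun w => (T (t + 1) w, A (t + 1) w)) (T t))
    (he : ∀ t, Fac (A t) (e t)) (n : ℕ) :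
    ∑ t ∈ range (n + 1), P.E (fun w => ind (e t w) * gn P e T A t w) ≤
      P.Hc (T 0) (A 0) + ∑ t ∈ range n, P.Hc (T (t + 1)) (fun w => (T t w, A (t + 1) w)) := by
  have key : ∀ n, ∑ t ∈ range (n + 1), P.E (fun w => ind (e t w) * gn P e T A t w) + P.E (Mq P e T A n) ≤
      P.Hc (T 0) (A 0) + ∑ t ∈ range n, P.Hc (T (t + 1)) (fun w => (T t w, A (t + 1) w)) := by
    intro n
    have hq : ∀ t, P.E (Mq P e T A t) = P.E (Mp P e T A t) - P.E (fun w => ind (e t w) * gn P e T A t w) := fun t => by
      rw [← P.E_sub]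
      exact P.E_congr fun w _ => Mq_step hA hT t w
    induction n with
    | zero =>
      rw [range_zero, sum_empty, add_zero, range_one, sum_singleton, hq 0]
      have h1 : P.E (Mp P e T A 0) = P.Hc (T 0) (A 0) := by
        rw [← E_sp]
        refine P.E_congr fun w _ => ?_
        rw [Mp_eq]
        unfold pt
        have h2 : st e 0 w = 0 := rfl
        rw [h2, sp_const P (X := T 0) (Z := fun v => (T 0 v, A 0 v)) (Fac.fst _ _) w, add_zero]
      linarith
    | succ n ih =>
      rw [sum_range_succ, sum_range_succ (fun t => P.Hc (T (t + 1)) (fun w => (T t w, A (t + 1) w))), hq (n + 1)]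
      have := Mp_step (P := P) hA hT he n
      linarith
  have h1 := key n
  have h2 : 0 ≤ P.E (Mq P e T A n) := P.E_nonneg fun w hw => by
    rw [Mq_eq]
    exact add_nonneg (sp_nonneg P _ _ hw) (sp_nonneg P _ _ hw)
  linarith

/-- the mean gain at a part of the ends is nonnegative, and at most the gain at all ends -/
theorem part_gain (hA : Filt A) (he : ∀ t, Fac (A t) (e t)) {e' : ℕ → Om → Prop} (he' : ∀ t, Fac (A t) (e' t))
    (t : ℕ) : 0 ≤ P.E (fun w => ind (e' t w) * gn P e T A t w) := by
  unfold gn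
  have e1 : ∀ w, ind (e' t w) * ∑ s ∈ range (t + 1), ind (st e t w = s) * (sp P (T s) (A s) w - sp P (T s) (A t) w) =
      ∑ s ∈ range (t + 1), ind (e' t w ∧ st e t w = s) * (sp P (T s) (A s) w - sp P (T s) (A t) w) := by
    intro w
    rw [mul_sum]
    refine sum_congr rfl fun s _ => ?_
    rw [ind_and, mul_assoc]
  rw [P.E_congr (g := fun w => ∑ s ∈ range (t + 1), ind (e' t w ∧ st e t w = s) *
    (sp P (T s) (A s) w - sp P (T s) (A t) w)) fun w _ => e1 w, P.E_sum]
  refine sum_nonneg fun s hs => gain_loc (T s) (hA.le (Nat.lt_succ_iff.1 (mem_range.1 hs))) ?_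
  intro a b hab
  have h1 : e' t a = e' t b := he' t a b hab
  have h2 : st e t a = st e t b := by
    rcases t with _ | t
    · rfl
    · exact st_fac hA he t a b (hA t a b hab)
  show (e' t a ∧ st e t a = s) = (e' t b ∧ st e t b = s)
  rw [h1, h2]

/-- **THE GAINS AT A PART OF THE ENDS** -/
theorem part_le (hA : Filt A) (hT : ∀ t, Fac (fun w => (T (t + 1) w, A (t + 1) w)) (T t))
    (he : ∀ t, Fac (A t) (e t)) {e' : ℕ → Om → Prop} (he' : ∀ t, Fac (A t) (e' t)) (hee : ∀ t w, e' t w → e t w)
    (n : ℕ) : ∑ t ∈ range (n + 1), P.E (fun w => ind (e' t w) * gn P e T A t w) ≤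
      P.Hc (T 0) (A 0) + ∑ t ∈ range n, P.Hc (T (t + 1)) (fun w => (T t w, A (t + 1) w)) := by
  refine (sum_le_sum fun t _ => ?_).trans (epoch_gain (P := P) (e := e) hA hT he n)
  have h1 := part_gain (P := P) (T := T) (A := A) (e := e) (e' := fun t w => e t w ∧ ¬ e' t w) hA he
    (fun t a b hab => by
      show (e t a ∧ ¬ e' t a) = (e t b ∧ ¬ e' t b)
      rw [he t a b hab, he' t a b hab]) t
  have h2 : P.E (fun w => ind (e t w) * gn P e T A t w) = P.E (fun w => ind (e' t w) * gn P e T A t w) +
      P.E (fun w => ind (e t w ∧ ¬ e' t w) * gn P e T A t w) := by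
    rw [← P.E_add]
    refine P.E_congr fun w _ => ?_
    by_cases h3 : e' t w
    · rw [ind_of h3, ind_of (hee t w h3), ind_not (fun h => h.2 h3)]
      ring
    · by_cases h4 : e t w
      · rw [ind_not h3, ind_of h4, ind_of (show e t w ∧ ¬ e' t w from ⟨h4, h3⟩)]
        ring
      · rw [ind_not h3, ind_not h4, ind_not (fun h => h4 h.1)]
        ring
  linarith

end ep

end

end Pool.Agent.GMH.EpG
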