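import Pool.Agent.GMH.Phs

/-!
# GMH/Epo (helper40): one epoch of the public clock, Lemma CR with public ends (note 3963 (4))

Notation of GMH/CR, GMH/Phs.  The epoch starts at the time 0 and ends at the stopping time `σ` of the nodes; kinds of ends:
`rm` (removal), `nr` (public end without removal), `kl` (last level, exceptional nodes).  At an end `nr` the COVERED mass is at
most `y` (static relation, public samples: the hypothesis is on the covered set, not on the relation).

* `Phi_zero` : the potential is zero at the ends `nr`; `cov_nr` : covered mass at the ends `nr`;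
* `rel_pub` : the released sum at the removals, signed, costs `4 Cn y / u E Phi` more: the number of epochs with a cover
  does not enter;
* `epoch` : everything together.
-/

set_option autoImplicit false
set_option linter.unusedSectionVars false

namespace Pool.Agent.GMH.CR

open Finset Pool.Agent.PWZ Pool.Agent.M3 Pool.Agent.GMH.Gdy

noncomputable section

variable {Om : Type*} [Fintype Om] {P : FP Om} {κ κ' : ℕ → Type*} {cU : ∀ t, Om → κ t} {cV : ∀ t, Om → κ' t}
  {α ω : Type*} {U : Om → α} {V : Om → ω} {R : α → ω → Prop} {F : α → ω → ℝ} {u lam L : ℝ}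

/-- the potential is zero if the covered mass is small -/
theorem Phi_zero {HU : ℕ → Om → Prop} {M' : ℕ} {s : ℕ} {w : Om} {y : ℝ} (hy : y ≤ u / 4)
    (h : cp P cU s (cov P cU u HU M' (s + 1)) w ≤ y) : Phi P cU u HU M' s w = 0 := by
  refine Finset.sum_eq_zero fun r hr => max_eq_right ?_
  have h1 : cp P cU s (Nn P cU u HU M' r (s + 1)) w ≤ cp P cU s (cov P cU u HU M' (s + 1)) w := by
    refine cp_mono (fun v hv => ?_) w
    obtain ⟨s', h2, h3⟩ := Nn_ex hv
    exact cov_mono (by omega) (nw_cov (mem_range.1 hr) h3)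
  linarith

theorem cov_sc {HU : ℕ → Om → Prop} {M' : ℕ} {s : ℕ} {w : Om} (h : cov P cU u HU M' (s + 1) w) :
    sc P cU u HU M' s w := by
  obtain ⟨s', hs', hn⟩ := cov_ex h
  obtain ⟨r, hr, ht⟩ := nc_tk hn
  exact ⟨s', by omega, r, hr, ht⟩

/-- the covered mass at the public ends -/
theorem cov_nr (hI : P.Indep U V) (hU : ∀ s, Fac U (cU s)) (hV : ∀ s, Fac V (cV s)) (fU : Filt cU) (fV : Filt cV)
    {HU : ℕ → Om → Prop} {M' : ℕ} (hH' : ∀ r v w, U v = U w → (HU r v ↔ HU r w))
    {σ : Om → ℕ} (hσ : Stp (pair cU cV) σ) {T : ℕ} (hT : ∀ w, σ w < T) {y : ℝ} {nr : Om → Prop}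
    (hnr : ∀ s v w, pair cU cV s v = pair cU cV s w → σ w = s → (nr v ↔ nr w))
    (hd : ∀ w, P.p w ≠ 0 → nr w → cp P cU (σ w) (cov P cU u HU M' (σ w + 1)) w ≤ y) :
    P.E (fun w => ind (nr w) * ind (cov P cU u HU M' (σ w + 1) w)) ≤
      y * P.E (fun w => ind (sc P cU u HU M' (σ w) w) * ind (nr w)) := by
  have e0 : P.E (fun w => ind (nr w) * ind (cov P cU u HU M' (σ w + 1) w)) =
      P.E (fun w => ind (sc P cU u HU M' (σ w) w) * ind (nr w) * ind (cov P cU u HU M' (σ w + 1) w)) := by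
    refine P.E_congr fun w _ => ?_
    by_cases h : cov P cU u HU M' (σ w + 1) w
    · rw [ind_of (cov_sc h), one_mul]
    · rw [ind_not h, mul_zero, mul_zero]
  rw [e0, E_stop hT (fun s w => ind (sc P cU u HU M' s w) * ind (nr w) * ind (cov P cU u HU M' (s + 1) w)),
    E_stop hT (fun s w => ind (sc P cU u HU M' s w) * ind (nr w)), Finset.mul_sum]
  refine Finset.sum_le_sum fun s _ => ?_
  have he : Fac (pair cU cV s) (fun w => ind (σ w = s) * (ind (sc P cU u HU M' s w) * ind (nr w))) := by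
    intro v w hvw
    have h2 := Stp.eq_fac (pair_filt fU fV) hσ s v w hvw
    simp only at h2 ⊢
    by_cases h3 : σ w = s
    · have h4 : σ v = s := by
        by_contra h4
        rw [ind_not h4, ind_of h3] at h2
        exact zero_ne_one h2
      rw [h3, h4, propext (hnr s v w hvw h3), propext (sc_iff fU (pair_eq.1 hvw).1)]
    · have h4 : ¬ σ v = s := by
        intro h4
        rw [ind_of h4, ind_not h3] at h2
        exact one_ne_zero h2
      rw [ind_not h3, ind_not h4, zero_mul, zero_mul]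
  have hf : Fac U (fun w => ind (cov P cU u HU M' (s + 1) w)) := Fac.ind fun v w h => cov_fac hU hH' (s + 1) v w h
  have h1 := E_U (P := P) (s := s) hI hU hV he hf
  rw [← FP.E_smul]
  calc P.E (fun w => ind (σ w = s) * (ind (sc P cU u HU M' s w) * ind (nr w) * ind (cov P cU u HU M' (s + 1) w)))
      = P.E (fun w => ind (σ w = s) * (ind (sc P cU u HU M' s w) * ind (nr w)) *
          ind (cov P cU u HU M' (s + 1) w)) := P.E_congr fun w _ => by ring
    _ = P.E (fun w => ind (σ w = s) * (ind (sc P cU u HU M' s w) * ind (nr w)) *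
          P.ce (cU s) (fun w => ind (cov P cU u HU M' (s + 1) w)) w) := h1.symm
    _ ≤ _ := by
        refine P.E_mono fun w hw => ?_
        by_cases h2 : σ w = s
        · by_cases h3 : nr w
          · have h4 := hd w hw h3
            rw [h2] at h4
            have h6 : P.ce (cU s) (fun w => ind (cov P cU u HU M' (s + 1) w)) w ≤ y := h4
            have h5 := mul_le_mul_of_nonneg_left h6 (ind_nonneg (sc P cU u HU M' s w))
            rw [ind_of h2, ind_of h3]
            linarith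
          · rw [ind_not h3]
            simp
        · rw [ind_not h2]
          simp

/-- the mean of the potential: the public ends do not contribute -/
theorem Phi_nr {HU : ℕ → Om → Prop} {M' : ℕ} {σ : Om → ℕ} {y : ℝ} (hy : y ≤ u / 4) {nr : Om → Prop}
    (hd : ∀ w, P.p w ≠ 0 → nr w → cp P cU (σ w) (cov P cU u HU M' (σ w + 1)) w ≤ y) :
    P.E (fun w => Phi P cU u HU M' (σ w) w) = P.E (fun w => ind (¬ nr w) * Phi P cU u HU M' (σ w) w) := by
  refine P.E_congr fun w hw => ?_
  by_cases h : nr w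
  · rw [Phi_zero hy (hd w hw h), mul_zero]
  · rw [ind_of h, one_mul]

/-- **the released sum at the removals** -/
theorem rel_pub (hI : P.Indep U V) (hU : ∀ s, Fac U (cU s)) (hV : ∀ s, Fac V (cV s)) (fU : Filt cU) (fV : Filt cV)
    {Cn y : ℝ} (hC : ∀ c z, - Cn ≤ F c z) (hC0 : 0 ≤ Cn)
    {HU : ℕ → Om → Prop} {M' : ℕ} (hH' : ∀ r v w, U v = U w → (HU r v ↔ HU r w)) (hu : 0 < u) {M : ℕ} (x : Fin M → α)
    {σ : Om → ℕ} (hσ : Stp (pair cU cV) σ) {T : ℕ} (hT : ∀ w, σ w < T) (hy : 0 ≤ y) {rm nr kl : Om → Prop}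
    (hnr : ∀ s v w, pair cU cV s v = pair cU cV s w → σ w = s → (nr v ↔ nr w))
    (hex : ∀ w, P.p w ≠ 0 → rm w ∨ nr w ∨ kl w)
    (hd : ∀ w, P.p w ≠ 0 → nr w → cp P cU (σ w) (cov P cU u HU M' (σ w + 1)) w ≤ y) :
    P.E (fun w => ind (rl P cU cV V F u lam HU M' x (σ w + 1) w) * (F (U w) (V w) * ind (rm w))) ≤
      P.E (fun w => ind (rl P cU cV V F u lam HU M' x (σ w + 1) w) * F (U w) (V w)) +
        4 * Cn * y / u * P.E (fun w => Phi P cU u HU M' (σ w) w) +
        Cn * P.Pr (fun w => rl P cU cV V F u lam HU M' x (σ w + 1) w ∧ kl w) := by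
  have h1 := cov_nr (P := P) (u := u) (M' := M') hI hU hV fU fV hH' hσ hT hnr hd
  have h2 : P.E (fun w => ind (sc P cU u HU M' (σ w) w) * ind (nr w)) ≤ P.Pr (fun w => sc P cU u HU M' (σ w) w) :=
    P.E_mono fun w _ => mul_le_of_le_one_right (ind_nonneg _) (ind_le_one _)
  have h3 := sc_le (P := P) (M' := M') hI hU hV fU fV hH' hu hσ hT
  have h4 : P.E (fun w => ind (nr w) * ind (cov P cU u HU M' (σ w + 1) w)) ≤
      4 * y / u * P.E (fun w => Phi P cU u HU M' (σ w) w) := by
    have h5 := mul_le_mul_of_nonneg_left (h2.trans h3) hy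
    refine h1.trans (h5.trans (le_of_eq ?_))
    ring
  have h5 := mul_le_mul_of_nonneg_left h4 hC0
  have h6 : P.E (fun w => ind (rl P cU cV V F u lam HU M' x (σ w + 1) w) * (F (U w) (V w) * ind (rm w))) ≤
      P.E (fun w => ind (rl P cU cV V F u lam HU M' x (σ w + 1) w) * F (U w) (V w)) +
        Cn * P.E (fun w => ind (nr w) * ind (cov P cU u HU M' (σ w + 1) w)) +
        Cn * P.Pr (fun w => rl P cU cV V F u lam HU M' x (σ w + 1) w ∧ kl w) := by
    unfold FP.Pr
    rw [← FP.E_smul, ← FP.E_smul, ← FP.E_add, ← FP.E_add]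
    refine P.E_mono fun w hw => ?_
    have h7 := hC (U w) (V w)
    have n2 := mul_nonneg hC0 (mul_nonneg (ind_nonneg (nr w)) (ind_nonneg (cov P cU u HU M' (σ w + 1) w)))
    have n3 := mul_nonneg hC0 (ind_nonneg (rl P cU cV V F u lam HU M' x (σ w + 1) w ∧ kl w))
    by_cases h8 : rl P cU cV V F u lam HU M' x (σ w + 1) w
    · rw [ind_of h8, one_mul, one_mul]
      by_cases h9 : rm w
      · rw [ind_of h9, mul_one]
        linarith
      · rw [ind_not h9, mul_zero]
        rcases hex w hw with h10 | h10 | h10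
        · exact absurd h10 h9
        · have h11 : cov P cU u HU M' (σ w + 1) w := by
            obtain ⟨s, hs, hn, _⟩ := h8
            exact cov_mono (by omega) hn.1
          rw [ind_of h10, ind_of h11, one_mul, mul_one]
          linarith
        · rw [ind_of (p := rl P cU cV V F u lam HU M' x (σ w + 1) w ∧ kl w) ⟨h8, h10⟩, mul_one]
          linarith
    · rw [ind_not h8, zero_mul, zero_mul, zero_add]
      linarith
  have e : Cn * (4 * y / u * P.E (fun w => Phi P cU u HU M' (σ w) w)) =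
      4 * Cn * y / u * P.E (fun w => Phi P cU u HU M' (σ w) w) := by ring
  rw [e] at h5
  linarith

/-- **ONE EPOCH**: static relation `R`, static sum `F`, public samples `HU`, `x`; the unreleased part of `R` at a removal,
unsigned with the weight `G` (`V` is not inert), and the released part of `F`, signed. -/
theorem epoch (hI : P.Indep U V) (hU : ∀ s, Fac U (cU s)) (hV : ∀ s, Fac V (cV s)) (fU : Filt cU) (fV : Filt cV)
    (hL : ∀ c y, F c y ≤ L) (hL0 : 0 ≤ L) (hlam : 0 < lam) (hu : 0 < u) {h : ℝ} (h0 : 0 ≤ h)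
    {HU : ℕ → Om → Prop} {M' : ℕ} (hH' : ∀ r v w, U v = U w → (HU r v ↔ HU r w)) {M : ℕ} (x : Fin M → α)
    {σ : Om → ℕ} (hσ : Stp (pair cU cV) σ) {T : ℕ} (hT : ∀ w, σ w < T)
    (hm : ∀ s w, P.p w ≠ 0 → P.m (cU s) w ≤ h * P.m (cU (s + 1)) w)
    {G : ℕ → Om → ℝ} (hG : ∀ s, Fac (fun w => (pair cV cU s w, V w)) (G s)) (hG0 : ∀ s w, 0 ≤ G s w)
    (hG1 : ∀ s w, G s w ≤ 1) {gY : Om → ℝ}
    (hg : ∀ s i w, P.p w ≠ 0 → fi P cV V F lam x s i w → s ≤ σ w → ru P cV V F (x i) (σ w) w - lam / 2 ≤ gY w)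
    {Cn y : ℝ} (hC : ∀ c z, - Cn ≤ F c z) (hC0 : 0 ≤ Cn) (hy : 0 ≤ y) (hyu : y ≤ u / 4)
    {rm nr kl : Om → Prop}
    (hrm : ∀ s v w, pair cU cV s v = pair cU cV s w → σ w = s → (rm v ↔ rm w))
    (hnr : ∀ s v w, pair cU cV s v = pair cU cV s w → σ w = s → (nr v ↔ nr w))
    (hex : ∀ w, P.p w ≠ 0 → rm w ∨ nr w ∨ kl w)
    (hd : ∀ w, P.p w ≠ 0 → nr w → cp P cU (σ w) (cov P cU u HU M' (σ w + 1)) w ≤ y) :
    L * P.E (fun w => ind (R (U w) (V w) ∧ ¬ rl P cU cV V F u lam HU M' x (σ w + 1) w) * (G (σ w) w * ind (rm w))) +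
        P.E (fun w => ind (rl P cU cV V F u lam HU M' x (σ w + 1) w) * (F (U w) (V w) * ind (rm w))) ≤
      L * (u / 2) * P.E (fun w => G (σ w) w * ind (rm w)) +
        (2 * lam + 4 * Cn * y / u) * P.E (fun w => ind (¬ nr w) * Phi P cU u HU M' (σ w) w) +
        L * (h * u / lam) * P.E (fun w => ind (dY P cV V F lam x (σ w) w) * gY w) +
        L * (2 * P.Pr (badV P cU V U (fun v a => R a v) u HU M' T) + P.Pr (fd P cV U V F lam x T) +
          P.Pr (fun w => dY P cV V F lam x 0 w)) +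
        Cn * P.Pr (fun w => rl P cU cV V F u lam HU M' x (σ w + 1) w ∧ kl w) := by
  -- the weights at the removals
  set G' : ℕ → Om → ℝ := fun s w => G s w * ind (σ w = s ∧ rm w) with hG'
  have hσf : ∀ s v w, pair cU cV s v = pair cU cV s w → (σ v = s ↔ σ w = s) := by
    intro s v w hvw
    have h2 := Stp.eq_fac (pair_filt fU fV) hσ s v w hvw
    simp only at h2
    by_cases h3 : σ w = s
    · refine iff_of_true ?_ h3
      by_contra h4
      rw [ind_not h4, ind_of h3] at h2
      exact zero_ne_one h2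
    · refine iff_of_false (fun h4 => ?_) h3
      rw [ind_of h4, ind_not h3] at h2
      exact one_ne_zero h2
  have hGf : ∀ s, Fac (fun w => (pair cV cU s w, V w)) (G' s) := by
    intro s
    refine (hG s).mul (Fac.ind fun v w hvw => ?_)
    have h3 : pair cV cU s v = pair cV cU s w ∧ V v = V w := Prod.mk.injEq _ _ _ _ ▸ hvw
    have h4 : pair cU cV s v = pair cU cV s w := pair_eq.2 ⟨(pair_eq.1 h3.1).2, (pair_eq.1 h3.1).1⟩
    constructor
    · rintro ⟨h5, h6⟩
      have h7 := (hσf s v w h4).1 h5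
      exact ⟨h7, (hrm s v w h4 h7).1 h6⟩
    · rintro ⟨h5, h6⟩
      exact ⟨(hσf s v w h4).2 h5, (hrm s v w h4 h5).2 h6⟩
  have hGe : ∀ w, G' (σ w) w = G (σ w) w * ind (rm w) := by
    intro w
    show G (σ w) w * ind (σ w = σ w ∧ rm w) = G (σ w) w * ind (rm w)
    have h2 : (σ w = σ w ∧ rm w) ↔ rm w := and_iff_right rfl
    rw [propext h2]
  have hG'0 : ∀ s w, 0 ≤ G' s w := fun s w => mul_nonneg (hG0 s w) (ind_nonneg _)
  have hG'1 : ∀ s w, G' s w ≤ 1 := fun s w => mul_le_one₀ (hG1 s w) (ind_nonneg _) (ind_le_one _)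
  have h1 := unc1 (P := P) (R := R) (M' := M') hI hU hV fU fV hH' hu hσ hT hGf hG'0
  have h2 := rl_le (P := P) (F := F) (u := u) (lam := lam) (M' := M') hI hU hV fU fV hL hL0 hlam.le hH' x hσ hT
  have h2' := rel_pub (P := P) (F := F) (u := u) (lam := lam) (M' := M') hI hU hV fU fV hC hC0 hH' hu x hσ hT
    hy hnr hex hd
  have h3 := late_le (P := P) (F := F) (R := R) (lam := lam) (M' := M') hI hU hV fU fV hH' hu h0 hm x hσ hT
  have h4 := pay_fi (P := P) (F := F) (lam := lam) hI hU hV fU fV x hσ hT hg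
  have h5 : P.E (fun w => ind (R (U w) (V w) ∧ ¬ rl P cU cV V F u lam HU M' x (σ w + 1) w) *
      (G (σ w) w * ind (rm w))) ≤
      P.E (fun w => ind (R (U w) (V w) ∧ ¬ cov P cU u HU M' (σ w + 1) w) * G' (σ w) w) +
      P.Pr (fun w => R (U w) (V w) ∧ ∃ s ≤ σ w, fY P cV V F lam x s w ∧ ¬ cov P cU u HU M' s w) := by
    unfold FP.Pr
    rw [← FP.E_add]
    refine P.E_mono fun w _ => ?_
    rw [← hGe w]
    have g0 := hG'0 (σ w) w
    have g1 := hG'1 (σ w) w
    by_cases hw : R (U w) (V w) ∧ ¬ rl P cU cV V F u lam HU M' x (σ w + 1) w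
    · rw [ind_of hw, one_mul]
      rcases not_rl hw.2 with h6 | h6
      · rw [ind_of (show R (U w) (V w) ∧ ¬ cov P cU u HU M' (σ w + 1) w from ⟨hw.1, h6⟩), one_mul]
        have := ind_nonneg (R (U w) (V w) ∧ ∃ s ≤ σ w, fY P cV V F lam x s w ∧ ¬ cov P cU u HU M' s w)
        linarith
      · rw [ind_of (show R (U w) (V w) ∧ ∃ s ≤ σ w, fY P cV V F lam x s w ∧ ¬ cov P cU u HU M' s w from
          ⟨hw.1, h6⟩)]
        have := mul_nonneg (ind_nonneg (R (U w) (V w) ∧ ¬ cov P cU u HU M' (σ w + 1) w)) g0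
        linarith
    · rw [ind_not hw, zero_mul]
      exact add_nonneg (mul_nonneg (ind_nonneg _) g0) (ind_nonneg _)
  have h6 : P.E (fun w => ind (badV P cU V U (fun v a => R a v) u HU M' T w) * G' (σ w) w) ≤
      P.Pr (badV P cU V U (fun v a => R a v) u HU M' T) :=
    P.E_mono fun w _ => mul_le_of_le_one_right (ind_nonneg _) (hG'1 _ _)
  have h7 : P.Pr (fun w => rl P cU cV V F u lam HU M' x (σ w + 1) w) ≤
      P.Pr (fun w => cov P cU u HU M' (σ w + 1) w) := by
    refine P.Pr_mono fun w _ => ?_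
    rintro ⟨s, hs, hn, _⟩
    exact cov_mono (by omega) hn.1
  have h8 := covV_le (P := P) (u := u) (H := HU) (M := M') (cU := cV) (cV := cU) hI.symm hV hU fV fU hH' hu hσ.swap
  rw [Phi_nr hyu hd] at h8 h2'
  set D := P.Pr (fun w => dY P cV V F lam x (σ w) w) with hD
  set S := P.E (fun w => ind (dY P cV V F lam x (σ w) w) * gY w) with hS
  have h9 : D ≤ 2 / lam * S := by
    rw [div_mul_eq_mul_div, le_div_iff₀ hlam]
    linarith
  have h10 : h * u / 2 * D ≤ h * u / lam * S := by
    have := mul_le_mul_of_nonneg_left h9 (show 0 ≤ h * u / 2 by positivity)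
    refine this.trans (le_of_eq ?_)
    field_simp
  have h11 : lam * P.Pr (fun w => rl P cU cV V F u lam HU M' x (σ w + 1) w) ≤
      2 * lam * P.E (fun w => ind (¬ nr w) * Phi P cU u HU M' (σ w) w) := by
    have := mul_le_mul_of_nonneg_left (h7.trans h8) hlam.le
    linarith
  have e1 : P.E (fun w => G' (σ w) w) = P.E (fun w => G (σ w) w * ind (rm w)) := P.E_congr fun w _ => hGe w
  rw [e1] at h1
  have h12 := mul_le_mul_of_nonneg_left (h5.trans (add_le_add h1 h3)) hL0
  have h13 := mul_le_mul_of_nonneg_left h6 hL0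
  have h14 := mul_le_mul_of_nonneg_left h10 hL0
  linarith

end

end Pool.Agent.GMH.CR
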