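import Pool.Agent.GMH.DevL
import Pool.Agent.GMH.P2kl

/-!
# GMH.ExLin: linear exits of the hot relation (helper89; note 4077 (4))

One law `P`, tops `X`, `Y`, labels `G` before and `G1` after (finer), hot relation `Hr w x y` seen by `G`.
* `hh Z w` : mass of the hot set of the true `X` under the law of `Y` given `Z`; `h = hh (X, G)`, `h1 = hh (X, G1)`,
  `k = hh G`, `k1 = hh G1`;
* `dvi` : `s a(S) - b(S) (e^s - 1) <= KL(a | b)`;
* `hot_pt` : at every point with `k <= e^(-a) h` :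
  `h <= 7 KL(P(Y | X, G1) | P(Y | X, G)) + 12 KL(P(Y | X, G1) | P(Y | G1)) + (16/a) KL(P(Y | G1) | P(Y | G))`;
* `lin_exit` : `E be h <= 7 I(Y; G1 | X, G) + 12 E be KL(P(Y | X, G1) | P(Y | G1)) + (16/a) I(Y; G1 | G)`;
* `lin_exit_sum` : the sum over the times.
-/

set_option autoImplicit false
set_option linter.unusedSectionVars false

namespace Pool.Agent.GMH

open Finset Pool.Agent.PWZ Pool.Agent.M3

noncomputable section

namespace ExL

/-- variational inequality on a set -/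
theorem dvi {ι : Type*} (T : Finset ι) {S : ι → Prop} {a b : ι → ℝ} (ha : ∀ y ∈ T, 0 ≤ a y) (hb : ∀ y ∈ T, 0 ≤ b y)
    (hab : ∀ y ∈ T, b y = 0 → a y = 0) (sa : ∑ y ∈ T, a y = 1) (sb : ∑ y ∈ T, b y ≤ 1) (s : ℝ) :
    s * ∑ y ∈ T, a y * ind (S y) - (Real.exp s - 1) * ∑ y ∈ T, b y * ind (S y) ≤
      ∑ y ∈ T, a y * Real.log (a y / b y) := by
  have key : ∀ y ∈ T, a y * (s * ind (S y)) + a y - b y * (1 + (Real.exp s - 1) * ind (S y)) ≤
      a y * Real.log (a y / b y) := by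
    intro y hy
    rcases (ha y hy).eq_or_lt with h0 | h0
    · rw [← h0]
      have h1 : 0 ≤ b y * (1 + (Real.exp s - 1) * ind (S y)) := by
        refine mul_nonneg (hb y hy) ?_
        by_cases hs : S y
        · rw [ind_of hs]; linarith [Real.exp_pos s]
        · rw [ind_not hs]; norm_num
      simp only [zero_mul, zero_div, Real.log_zero, mul_zero]
      linarith
    have hb0 : 0 < b y := lt_of_le_of_ne (hb y hy) fun h => h0.ne' (hab y hy h.symm)
    by_cases hs : S y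
    · rw [ind_of hs]
      have h1 : Real.log (a y / (b y * Real.exp s)) = Real.log (a y / b y) - s := by
        rw [← div_div, Real.log_div (div_pos h0 hb0).ne' (Real.exp_pos s).ne', Real.log_exp]
      have h2 : 1 - (a y / (b y * Real.exp s))⁻¹ ≤ Real.log (a y / (b y * Real.exp s)) :=
        Real.one_sub_inv_le_log_of_pos (by positivity)
      rw [h1, inv_div] at h2
      have h3 := mul_le_mul_of_nonneg_left h2 h0.le
      have h4 : a y * (1 - b y * Real.exp s / a y) = a y - b y * Real.exp s := by field_simp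
      rw [h4] at h3
      nlinarith
    · rw [ind_not hs]
      have h2 : 1 - (a y / b y)⁻¹ ≤ Real.log (a y / b y) := Real.one_sub_inv_le_log_of_pos (by positivity)
      rw [inv_div] at h2
      have h3 := mul_le_mul_of_nonneg_left h2 h0.le
      have h4 : a y * (1 - b y / a y) = a y - b y := by field_simp
      rw [h4] at h3
      nlinarith
  have h1 := Finset.sum_le_sum key
  refine le_trans (le_of_eq ?_) (le_trans (b := ∑ y ∈ T, (a y * (s * ind (S y)) + a y -
    b y * (1 + (Real.exp s - 1) * ind (S y))) - (1 - ∑ y ∈ T, b y)) rfl.le (by linarith))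
  simp only [Finset.sum_sub_distrib, Finset.sum_add_distrib, mul_add, mul_one, sa]
  have e1 : ∑ y ∈ T, a y * (s * ind (S y)) = s * ∑ y ∈ T, a y * ind (S y) := by
    rw [Finset.mul_sum]
    exact Finset.sum_congr rfl fun y _ => by ring
  have e2 : ∑ y ∈ T, b y * ((Real.exp s - 1) * ind (S y)) = (Real.exp s - 1) * ∑ y ∈ T, b y * ind (S y) := by
    rw [Finset.mul_sum]
    exact Finset.sum_congr rfl fun y _ => by ring
  rw [e1, e2]
  ring

theorem exp_log2 : Real.exp (Real.log 2) = 2 := Real.exp_log (by norm_num)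

/-- **THE NUMBERS** : `KL1`, `KL2`, `KL3` larger than the variational values of the hot set -/
theorem num {h h1 k k1 a KL1 KL2 KL3 : ℝ} (h0 : 0 ≤ h) (k0 : 0 ≤ k1) (ha : 4 ≤ a) (hk : k ≤ Real.exp (-a) * h)
    (K1 : ∀ s, s * h1 - (Real.exp s - 1) * h ≤ KL1) (K2 : ∀ s, s * h1 - (Real.exp s - 1) * k1 ≤ KL2)
    (K3 : ∀ s, s * k1 - (Real.exp s - 1) * k ≤ KL3) :
    h ≤ 7 * KL1 + 12 * KL2 + 16 / a * KL3 := by
  have l1 := Real.log_two_gt_d9
  have l2 := Real.log_two_lt_d9
  have p1 : 0 ≤ KL1 := by have := K1 0; simp only [zero_mul, Real.exp_zero, sub_self] at this; linarith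
  have p2 : 0 ≤ KL2 := by have := K2 0; simp only [zero_mul, Real.exp_zero, sub_self] at this; linarith
  have p3 : 0 ≤ KL3 := by have := K3 0; simp only [zero_mul, Real.exp_zero, sub_self] at this; linarith
  have p4 : 0 ≤ 16 / a * KL3 := mul_nonneg (by positivity) p3
  rcases le_or_gt h1 (h / 2) with c1 | c1
  · have := K1 (-Real.log 2)
    have e : Real.exp (-Real.log 2) = 1 / 2 := by rw [Real.exp_neg, exp_log2]; norm_num
    rw [e] at this
    have h2 : Real.log 2 * h1 ≤ Real.log 2 * (h / 2) := mul_le_mul_of_nonneg_left c1 (by linarith)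
    have h3 : Real.log 2 * h ≤ 0.694 * h := mul_le_mul_of_nonneg_right (by linarith) h0
    nlinarith
  rcases lt_or_ge k1 (h / 4) with c2 | c2
  · have := K2 (Real.log 2)
    rw [exp_log2] at this
    have h2 : Real.log 2 * (h / 2) ≤ Real.log 2 * h1 := mul_le_mul_of_nonneg_left c1.le (by linarith)
    have h3 : 0.693 * h ≤ Real.log 2 * h := mul_le_mul_of_nonneg_right (by linarith) h0
    nlinarith
  · have := K3 (a / 2)
    have h2 : (Real.exp (a / 2) - 1) * k ≤ Real.exp (a / 2) * (Real.exp (-a) * h) := by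
      have g1 : 1 ≤ Real.exp (a / 2) := Real.one_le_exp (by linarith)
      have g2 : (Real.exp (a / 2) - 1) * k ≤ (Real.exp (a / 2) - 1) * (Real.exp (-a) * h) :=
        mul_le_mul_of_nonneg_left hk (by linarith)
      have g3 : 0 ≤ Real.exp (-a) * h := mul_nonneg (Real.exp_pos _).le h0
      nlinarith
    have h3 : Real.exp (a / 2) * (Real.exp (-a) * h) = Real.exp (-(a / 2)) * h := by
      rw [← mul_assoc, ← Real.exp_add]
      ring_nf
    have h4 : Real.exp (-(a / 2)) ≤ 1 / 4 := by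
      have g1 : (4 : ℝ) ≤ Real.exp (a / 2) := by
        have g2 : Real.exp 2 ≤ Real.exp (a / 2) := Real.exp_le_exp.2 (by linarith)
        have g3 : (4 : ℝ) ≤ Real.exp 2 := by
          have g4 : Real.exp 2 = Real.exp 1 * Real.exp 1 := by rw [← Real.exp_add]; norm_num
          have g5 := Real.exp_one_gt_d9
          nlinarith
        linarith
      rw [Real.exp_neg, inv_eq_one_div]
      exact one_div_le_one_div_of_le (by norm_num) g1
    rw [h3] at h2
    have h5 : Real.exp (-(a / 2)) * h ≤ 1 / 4 * h := mul_le_mul_of_nonneg_right h4 h0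
    -- `a/2 k1 - h/4 <= KL3`, `h <= 4 k1`
    have h6 : a / 2 * k1 - k1 ≤ KL3 := by nlinarith
    have h7 : a / 4 * k1 ≤ KL3 := by nlinarith
    have h8 : 4 * k1 ≤ 16 / a * KL3 := by
      rw [div_mul_eq_mul_div, le_div_iff₀ (by linarith)]
      nlinarith
    nlinarith

variable {Om : Type*} [Fintype Om] {P : FP Om} {κ ι υ υ' : Type*}

/-- mass of the hot set of the true `X` under the law of `Y` given `Z` -/
def hh {ζ : Type*} (P : FP Om) (Hr : Om → κ → ι → Prop) (X : Om → κ) (Y : Om → ι) (Z : Om → ζ) (w : Om) : ℝ :=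
  ∑ y ∈ vals Y, P.pv Z Y w y * ind (Hr w (X w) y)

variable {X : Om → κ} {Y : Om → ι} {G : Om → υ} {G1 : Om → υ'} {Hr : Om → κ → ι → Prop}

theorem hh_nn {ζ : Type*} {Z : Om → ζ} (w : Om) : 0 ≤ hh P Hr X Y Z w :=
  Finset.sum_nonneg fun _ _ => mul_nonneg (P.pv_nonneg _ _ _ _) (ind_nonneg _)

theorem kl_set {ζ ζ' : Type*} {Z : Om → ζ} {Z' : Om → ζ'} (hZ : Fac Z' Z) {w : Om} (hw : P.p w ≠ 0) (s : ℝ) :
    s * hh P Hr X Y Z' w - (Real.exp s - 1) * hh P Hr X Y Z w ≤ klp P P Y Z' Z w :=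
  dvi (vals Y) (fun _ _ => P.pv_nonneg _ _ _ _) (fun _ _ => P.pv_nonneg _ _ _ _)
    (fun _ _ h => pv_acQ (FP.Ac.refl P) hZ hw h) (P.pv_sum Z' Y hw) (P.pv_sum Z Y hw).le s

/-- **ONE POINT** -/
theorem hot_pt (hG : Fac G1 G) {a : ℝ} (ha : 4 ≤ a) {w : Om} (hw : P.p w ≠ 0)
    (hk : hh P Hr X Y G w ≤ Real.exp (-a) * hh P Hr X Y (fun u => (X u, G u)) w) :
    hh P Hr X Y (fun u => (X u, G u)) w ≤
      7 * klp P P Y (fun u => (X u, G1 u)) (fun u => (X u, G u)) w +
      12 * klp P P Y (fun u => (X u, G1 u)) G1 w + 16 / a * klp P P Y G1 G w :=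
  num (hh_nn w) (hh_nn w) ha hk (kl_set ((Fac.fst _ _).prod ((Fac.snd _ _).trans hG)) hw) (kl_set (Fac.snd _ _) hw)
    (kl_set hG hw)

theorem E_klp_self {ζ ζ' : Type*} {Z : Om → ζ} {Z' : Om → ζ'} (hZ : Fac Z' Z) :
    P.E (klp P P Y Z' Z) = P.Hc Y Z - P.Hc Y Z' := by
  rw [E_klp (FP.Ac.refl P) hZ, klc_self, zero_add, P.I_eq_Hc]
  congr 1
  exact P.Hc_congr_right _ (Fac.fst _ _) ((Fac.refl _).prod hZ)

/-- **LINEAR EXITS, ONE STEP** : `A` = set on which the hot relation is hot -/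
theorem lin_exit (hG : Fac G1 G) {a : ℝ} (ha : 4 ≤ a) {be : Om → ℝ} (b0 : ∀ w, 0 ≤ be w) (b1 : ∀ w, be w ≤ 1)
    (hk : ∀ w, P.p w ≠ 0 → be w ≠ 0 →
      hh P Hr X Y G w ≤ Real.exp (-a) * hh P Hr X Y (fun u => (X u, G u)) w) :
    P.E (fun w => be w * hh P Hr X Y (fun u => (X u, G u)) w) ≤
      7 * (P.Hc Y (fun u => (X u, G u)) - P.Hc Y (fun u => (X u, G1 u))) +
      12 * P.E (fun w => be w * klp P P Y (fun u => (X u, G1 u)) G1 w) +
      16 / a * (P.Hc Y G - P.Hc Y G1) := by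
  have hX : Fac (fun u => (X u, G1 u)) (fun u => (X u, G u)) := (Fac.fst _ _).prod ((Fac.snd _ _).trans hG)
  rw [← E_klp_self hX, ← E_klp_self hG, ← FP.E_smul, ← FP.E_smul, ← FP.E_smul, ← FP.E_add, ← FP.E_add]
  refine P.E_mono fun w hw => ?_
  have n1 : 0 ≤ klp P P Y (fun u => (X u, G1 u)) (fun u => (X u, G u)) w := klp_nonneg (FP.Ac.refl P) hX hw
  have n3 : 0 ≤ klp P P Y G1 G w := klp_nonneg (FP.Ac.refl P) hG hw
  have ha0 : 0 ≤ 16 / a := by positivity
  have n4 := mul_nonneg ha0 n3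
  by_cases hb : be w = 0
  · rw [hb, zero_mul, zero_mul, mul_zero]
    linarith
  have h1 := mul_le_mul_of_nonneg_left (hot_pt hG ha hw (hk w hw hb)) (b0 w)
  have h2 : be w * (7 * klp P P Y (fun u => (X u, G1 u)) (fun u => (X u, G u)) w) ≤
      7 * klp P P Y (fun u => (X u, G1 u)) (fun u => (X u, G u)) w := mul_le_of_le_one_left (by linarith) (b1 w)
  have h3 : be w * (16 / a * klp P P Y G1 G w) ≤ 16 / a * klp P P Y G1 G w := mul_le_of_le_one_left n4 (b1 w)
  nlinarith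

end ExL

end

end Pool.Agent.GMH
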