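import Pool.Agent.M3.FP

/-!
# GMH/Exch (helper89): the exchange argument for worlds with different life times (note 3939 (2), LEMMA EX)

Finitely many exchangeable worlds `i : ι`; `T i` = end of the life of the hidden point in the world `i`; `S` = the rows which
are taken, the row `j` at the time `τ j ≤ T j` (it is alive in its own world).

* `card_last` : at most `m` worlds live so long that fewer than `m` worlds live as long;
* `count_le` : `m * #taken ≤ ∑ i, #(taken up to T i) + m * m`;
* `exch` : if for every world `i` the expected number of takings up to `T i` is `≤ Q`, and `x ≤ P (j is taken)` for every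
  row `j` (for example `x` = probability that a fresh row is bad for the process of the others, as in `Gdy.bad_le`), then
  `x ≤ Q / m + m / #worlds`; `exch_sqrt` : the choice `m = ⌈√#worlds⌉`.
-/

set_option autoImplicit false
set_option linter.unusedSectionVars false

namespace Pool.Agent.GMH.Exch

open Finset Pool.Agent.PWZ Pool.Agent.M3

section det

variable {ι : Type*} [Fintype ι] [DecidableEq ι]

/-- at most `m` worlds live so long that fewer than `m` worlds live as long -/
theorem card_last (T : ι → ℕ) (m : ℕ) :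
    (univ.filter fun j => (univ.filter fun i => T j ≤ T i).card < m).card ≤ m := by
  classical
  set J := univ.filter fun j : ι => (univ.filter fun i => T j ≤ T i).card < m with hJ
  rcases J.eq_empty_or_nonempty with h | h
  · rw [h]; simp
  · obtain ⟨j0, hj0, hmin⟩ := J.exists_min_image T h
    have h1 : J ⊆ univ.filter fun i => T j0 ≤ T i := by
      intro i hi
      rw [mem_filter]
      exact ⟨mem_univ _, hmin i hi⟩
    have h2 := (mem_filter.mp hj0).2
    exact (card_le_card h1).trans h2.le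

/-- **the number of takings**: `m * #taken ≤ ∑ i, #(taken up to T i) + m * m` -/
theorem count_le (T τ : ι → ℕ) (S : Finset ι) (h : ∀ j ∈ S, τ j ≤ T j) (m : ℕ) :
    m * S.card ≤ ∑ i, (S.filter fun j => τ j ≤ T i).card + m * m := by
  classical
  set G := S.filter fun j => m ≤ (univ.filter fun i => τ j ≤ T i).card with hG
  set L := S.filter fun j => ¬ m ≤ (univ.filter fun i => τ j ≤ T i).card with hL
  have h0 : G.card + L.card = S.card := card_filter_add_card_filter_not _
  have h1 : L.card ≤ m := by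
    refine le_trans (card_le_card ?_) (card_last T m)
    intro j hj
    rw [hL, mem_filter] at hj
    rw [mem_filter]
    refine ⟨mem_univ _, lt_of_le_of_lt (card_le_card ?_) (not_le.mp hj.2)⟩
    intro i hi
    rw [mem_filter] at hi ⊢
    exact ⟨mem_univ _, (h j hj.1).trans hi.2⟩
  have h2 : m * G.card ≤ ∑ i, (S.filter fun j => τ j ≤ T i).card := by
    have e1 : ∑ i, (S.filter fun j => τ j ≤ T i).card = ∑ j ∈ S, (univ.filter fun i => τ j ≤ T i).card := by
      simp only [card_filter]
      rw [sum_comm]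
    rw [e1]
    calc m * G.card = ∑ _j ∈ G, m := by rw [sum_const, smul_eq_mul, mul_comm]
      _ ≤ ∑ j ∈ G, (univ.filter fun i => τ j ≤ T i).card :=
          sum_le_sum fun j hj => (mem_filter.mp hj).2
      _ ≤ _ := sum_le_sum_of_subset (filter_subset _ _)
  calc m * S.card = m * G.card + m * L.card := by rw [← h0, mul_add]
    _ ≤ _ := Nat.add_le_add h2 (Nat.mul_le_mul_left m h1)

end det

section av

variable {Om : Type*} [Fintype Om] (P : FP Om) {ι : Type*} [Fintype ι] [DecidableEq ι]
  (T τ : Om → ι → ℕ) (S : Om → Finset ι)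

/-- **LEMMA EX**: worlds with life times `T`; the expected number of takings up to `T i` is `≤ Q` for every world `i`;
`x ≤` the probability that the row `j` is taken, for every `j`; then `x ≤ Q / m + m / #worlds` -/
theorem exch [Nonempty ι] (h : ∀ w, P.p w ≠ 0 → ∀ j ∈ S w, τ w j ≤ T w j)
    {x : ℝ} (hex : ∀ j, x ≤ P.E (fun w => ind (j ∈ S w)))
    {Q : ℝ} (hQ : ∀ i, P.E (fun w => (((S w).filter fun j => τ w j ≤ T w i).card : ℝ)) ≤ Q)
    {m : ℕ} (hm : 0 < m) :
    x ≤ Q / m + m / (Fintype.card ι : ℝ) := by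
  have hN : (0 : ℝ) < Fintype.card ι := by
    have : 0 < Fintype.card ι := Fintype.card_pos
    exact_mod_cast this
  have hm' : (0 : ℝ) < m := by exact_mod_cast hm
  have e1 : Fintype.card ι * x ≤ P.E (fun w => ((S w).card : ℝ)) := by
    have : ∀ w, ((S w).card : ℝ) = ∑ j : ι, ind (j ∈ S w) := by
      intro w
      have h1 : ∀ j : ι, ind (j ∈ S w) = if j ∈ S w then (1 : ℝ) else 0 := fun j => by
        unfold ind; congr
      simp only [h1]
      rw [sum_ite_mem, univ_inter, sum_const, nsmul_eq_mul, mul_one]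
    simp only [this]
    rw [P.E_sum]
    calc (Fintype.card ι : ℝ) * x = ∑ _j : ι, x := by rw [sum_const, nsmul_eq_mul, card_univ]
      _ ≤ _ := sum_le_sum fun j _ => hex j
  have e2 : P.E (fun w => (m : ℝ) * ((S w).card : ℝ)) ≤
      P.E (fun w => (∑ i, (((S w).filter fun j => τ w j ≤ T w i).card : ℝ)) + (m : ℝ) * m) := by
    refine P.E_mono fun w hw => ?_
    have := count_le (T w) (τ w) (S w) (h w hw) m
    exact_mod_cast this
  rw [P.E_smul, P.E_add, P.E_const, P.E_sum] at e2
  have e3 : ∑ i, P.E (fun w => (((S w).filter fun j => τ w j ≤ T w i).card : ℝ)) ≤ Fintype.card ι * Q := by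
    calc _ ≤ ∑ _i : ι, Q := sum_le_sum fun i _ => hQ i
      _ = _ := by rw [sum_const, nsmul_eq_mul, card_univ]
  set N := (Fintype.card ι : ℝ)
  have e4 : (m : ℝ) * (N * x) ≤ N * Q + m * m :=
    (mul_le_mul_of_nonneg_left e1 hm'.le).trans (e2.trans (by linarith))
  have e5 : x ≤ (N * Q + m * m) / (m * N) := by
    rw [le_div_iff₀ (mul_pos hm' hN)]
    calc x * (m * N) = m * (N * x) := by ring
      _ ≤ _ := e4
  refine e5.trans (le_of_eq ?_)
  field_simp

/-- the choice `m = ⌈√N⌉`, `N` = number of worlds -/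
theorem exch_sqrt [Nonempty ι] (h : ∀ w, P.p w ≠ 0 → ∀ j ∈ S w, τ w j ≤ T w j)
    {x : ℝ} (hex : ∀ j, x ≤ P.E (fun w => ind (j ∈ S w)))
    {Q : ℝ} (hQ0 : 0 ≤ Q) (hQ : ∀ i, P.E (fun w => (((S w).filter fun j => τ w j ≤ T w i).card : ℝ)) ≤ Q) :
    x ≤ (Q + 2) / √(Fintype.card ι : ℝ) := by
  have hN1 : 0 < Fintype.card ι := Fintype.card_pos
  have hN : (1 : ℝ) ≤ Fintype.card ι := by exact_mod_cast hN1
  set N := (Fintype.card ι : ℝ) with hNd
  have hs : 1 ≤ √N := by rw [Real.one_le_sqrt]; exact hN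
  have hs0 : 0 < √N := by linarith
  have hm : 0 < ⌈√N⌉₊ := Nat.ceil_pos.mpr hs0
  have h1 := exch P T τ S h hex hQ hm
  have h2 : √N ≤ (⌈√N⌉₊ : ℝ) := Nat.le_ceil _
  have h3 : (⌈√N⌉₊ : ℝ) ≤ 2 * √N := by
    have := Nat.ceil_lt_add_one hs0.le
    linarith
  have h4 : Q / (⌈√N⌉₊ : ℝ) ≤ Q / √N := div_le_div_of_nonneg_left hQ0 hs0 h2
  have h5 : (⌈√N⌉₊ : ℝ) / N ≤ 2 / √N := by
    rw [div_le_div_iff₀ (by linarith) hs0]
    calc (⌈√N⌉₊ : ℝ) * √N ≤ 2 * √N * √N := mul_le_mul_of_nonneg_right h3 hs0.le
      _ = 2 * N := by rw [mul_assoc, Real.mul_self_sqrt (by linarith)]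
  calc _ ≤ Q / (⌈√N⌉₊ : ℝ) + (⌈√N⌉₊ : ℝ) / N := h1
    _ ≤ Q / √N + 2 / √N := add_le_add h4 h5
    _ = _ := by rw [← add_div]

end av

end Pool.Agent.GMH.Exch
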