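import Pool.Agent.GMH.AntiHot
import Pool.Agent.GMH.OneA

/-!
# GMH/Exit : the count of the decisions by exits (helper99; H3.0 (0.11), notes 3965 (B)(ii), 3973 (5))

`P : FP Om`, two letters `F`, `G`, everything below `Z`, the own lower letters `Zc` of `F`, `Zd` of `G` (functions of `Z`).
* `dst P F U U'` : `l1` distance of the laws of `F` given `U'` and given `U`; `E_dst_sq` : its square is paid by the drop of
  the entropy; `far P F G Z Zc Zd` : `l1` distance of the joint law given `Z` and of the product of the own laws;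
* `far_tri` : the triangle inequality; **`exit_pr`** : a pair which is far before and near after a step is paid:
  `(eta^2/24) Pr (eta <= far, far' < eta/2) <= ` sum of the three drops of entropy; `exitX_pr` : the same for the relation
  `F in Bad_X` (law of `G` given `F` against the own law of `G`);
* two measures `Q` (new), `P` (old): `dst2`, `E_dst2_sq` (paid by `klc`), `E_far_sq` (total correlation `tot`),
  **`far_le`** : `(eta^2/8) Q.Pr (eta <= far P) <= tot Q + klc + klc + klc`;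
* **`sat_dens`** : in a saturated class the density of the far pairs is at most `u` outside mass `exp (B - u eta^2/(8 kap))`;
* `mart_count`, **`count`** : the number of decisions.
-/

set_option autoImplicit false
set_option linter.unusedSectionVars false

namespace Pool.Agent.GMH.Exit

open Finset Pool.Agent.PWZ Pool.Agent.M3 Pool.Agent.GMH

noncomputable section

variable {Om : Type*} [Fintype Om] {α β γ γ' δ δ' ε ε' χ : Type*}

/-! ## distances of conditional laws -/

section one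

variable (P : FP Om)

theorem cpr_zero {F : Om → α} [DecidableEq α] {k : α} (hk : k ∉ univ.image F) (U : Om → γ) (w : Om) :
    cpr P F k U w = 0 := by
  unfold cpr FP.ce
  rw [P.E_congr (g := fun _ => 0) fun v _ => ?_, P.E_const, zero_div]
  show ind (U v = U w) * ind (F v = k) = 0
  rw [ind_not (p := F v = k) fun h => hk (mem_image.2 ⟨v, mem_univ v, h⟩), mul_zero]

/-- `l1` distance of the laws of `F` given `U'` and given `U` -/
def dst [DecidableEq α] (F : Om → α) (U : Om → γ) (U' : Om → γ') (w : Om) : ℝ :=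
  ∑ f ∈ univ.image F, |cpr P F f U' w - cpr P F f U w|

theorem dst_nonneg [DecidableEq α] (F : Om → α) (U : Om → γ) (U' : Om → γ') (w : Om) : 0 ≤ dst P F U U' w :=
  sum_nonneg fun _ _ => abs_nonneg _

/-- **the square of the distance is paid by the drop of the entropy** -/
theorem E_dst_sq [DecidableEq α] (F : Om → α) {U : Om → γ} {U' : Om → γ'} (hU : Fac U' U) :
    P.E (fun w => dst P F U U' w ^ 2) ≤ 2 * (P.Hc F U - P.Hc F U') := by
  rw [← E_kl_eq P F hU, ← P.E_smul]
  refine P.E_mono fun w hw => ?_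
  exact pinsker_abs (univ.image F) (fun v _ => cpr_nonneg P F v U' w) (fun v _ => cpr_nonneg P F v U w)
    (sum_cpr P F U' hw) (sum_cpr P F U hw) (fun v _ h => cpr_pos_of P hU hw h)

/-- `l1` distance of the joint law given `Z` and of the product of the own laws -/
def far [DecidableEq α] [DecidableEq β] (F : Om → α) (G : Om → β) (Z : Om → γ) (Zc : Om → δ) (Zd : Om → ε) (w : Om) : ℝ :=
  ∑ f ∈ univ.image F, ∑ g ∈ univ.image G, |cpr P (fun v => (F v, G v)) (f, g) Z w - cpr P F f Zc w * cpr P G g Zd w|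

theorem far_nonneg [DecidableEq α] [DecidableEq β] (F : Om → α) (G : Om → β) (Z : Om → γ) (Zc : Om → δ) (Zd : Om → ε)
    (w : Om) : 0 ≤ far P F G Z Zc Zd w := sum_nonneg fun _ _ => sum_nonneg fun _ _ => abs_nonneg _

theorem far_fac [DecidableEq α] [DecidableEq β] (F : Om → α) (G : Om → β) {Z : Om → γ} {Zc : Om → δ} {Zd : Om → ε}
    (hc : Fac Z Zc) (hd : Fac Z Zd) : Fac Z (far P F G Z Zc Zd) := by
  intro v w h
  unfold far
  refine sum_congr rfl fun f _ => sum_congr rfl fun g _ => ?_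
  rw [cpr_fac P _ _ Z v w h, cpr_fac P F f Zc v w (hc v w h), cpr_fac P G g Zd v w (hd v w h)]

theorem sum_pair [DecidableEq α] [DecidableEq β] (F : Om → α) (G : Om → β) (h : α × β → ℝ)
    (h0 : ∀ z, z ∉ univ.image (fun v => (F v, G v)) → h z = 0) :
    ∑ f ∈ univ.image F, ∑ g ∈ univ.image G, h (f, g) = ∑ z ∈ univ.image (fun v => (F v, G v)), h z := by
  rw [← sum_product']
  refine (sum_subset ?_ fun z _ hz => h0 z hz).symm
  intro z hz
  obtain ⟨v, -, hv⟩ := mem_image.1 hz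
  rw [← hv]
  exact mem_product.2 ⟨mem_image_of_mem F (mem_univ v), mem_image_of_mem G (mem_univ v)⟩

/-- general triangle inequality: two joint laws and two pairs of own laws -/
theorem tri_gen {SF : Finset α} {SG : Finset β} {p p' : α → β → ℝ} {q q' : α → ℝ} {r r' : β → ℝ}
    (hq : ∑ f ∈ SF, |q f| ≤ 1) (hr : ∑ g ∈ SG, |r' g| ≤ 1) :
    ∑ f ∈ SF, ∑ g ∈ SG, |p f g - q f * r g| ≤ ∑ f ∈ SF, ∑ g ∈ SG, |p' f g - q' f * r' g| +
      ∑ f ∈ SF, ∑ g ∈ SG, |p' f g - p f g| + ∑ f ∈ SF, |q' f - q f| + ∑ g ∈ SG, |r' g - r g| := by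
  have h1 : ∀ f g, |p f g - q f * r g| ≤ |p' f g - q' f * r' g| + |p' f g - p f g| + |q' f - q f| * |r' g| +
      |q f| * |r' g - r g| := by
    intro f g
    have e : p f g - q f * r g = (p' f g - q' f * r' g) + -(p' f g - p f g) + (q' f - q f) * r' g +
      q f * (r' g - r g) := by ring
    rw [e]
    refine (abs_add_le _ _).trans ?_
    rw [abs_mul]
    refine add_le_add ((abs_add_le _ _).trans ?_) le_rfl
    rw [abs_mul]
    refine add_le_add ((abs_add_le _ _).trans ?_) le_rfl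
    rw [abs_neg]
  refine (sum_le_sum fun f _ => sum_le_sum fun g _ => h1 f g).trans ?_
  simp only [sum_add_distrib, ← mul_sum]
  have h2 : ∑ f ∈ SF, |q' f - q f| * ∑ g ∈ SG, |r' g| ≤ ∑ f ∈ SF, |q' f - q f| := by
    refine sum_le_sum fun f _ => ?_
    exact mul_le_of_le_one_right (abs_nonneg _) hr
  have h3 : ∑ f ∈ SF, |q f| * ∑ g ∈ SG, |r' g - r g| ≤ ∑ g ∈ SG, |r' g - r g| := by
    rw [← sum_mul]
    exact mul_le_of_le_one_left (sum_nonneg fun _ _ => abs_nonneg _) hq
  linarith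

theorem sum_abs_cpr [DecidableEq α] (F : Om → α) (U : Om → γ) {w : Om} (hw : P.p w ≠ 0) :
    ∑ f ∈ univ.image F, |cpr P F f U w| = 1 := by
  rw [← sum_cpr P F U hw]
  exact sum_congr rfl fun f _ => abs_of_nonneg (cpr_nonneg P F f U w)

/-- **triangle inequality for far pairs** -/
theorem far_tri [DecidableEq α] [DecidableEq β] (F : Om → α) (G : Om → β) (Z : Om → γ) (Z' : Om → γ') (Zc : Om → δ)
    (Zc' : Om → δ') (Zd : Om → ε) (Zd' : Om → ε') {w : Om} (hw : P.p w ≠ 0) :
    far P F G Z Zc Zd w ≤ far P F G Z' Zc' Zd' w + dst P (fun v => (F v, G v)) Z Z' w + dst P F Zc Zc' w +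
      dst P G Zd Zd' w := by
  have h := tri_gen (SF := univ.image F) (SG := univ.image G)
    (p := fun f g => cpr P (fun v => (F v, G v)) (f, g) Z w) (p' := fun f g => cpr P (fun v => (F v, G v)) (f, g) Z' w)
    (q := fun f => cpr P F f Zc w) (q' := fun f => cpr P F f Zc' w)
    (r := fun g => cpr P G g Zd w) (r' := fun g => cpr P G g Zd' w) (sum_abs_cpr P F Zc hw).le (sum_abs_cpr P G Zd' hw).le
  have e : ∑ f ∈ univ.image F, ∑ g ∈ univ.image G, |cpr P (fun v => (F v, G v)) (f, g) Z' w -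
      cpr P (fun v => (F v, G v)) (f, g) Z w| = dst P (fun v => (F v, G v)) Z Z' w := by
    refine sum_pair F G (fun z => |cpr P (fun v => (F v, G v)) z Z' w - cpr P (fun v => (F v, G v)) z Z w|) fun z hz => ?_
    rw [cpr_zero P hz, cpr_zero P hz, sub_zero, abs_zero]
  rw [e] at h
  exact h

/-- three numbers with sum at least `x` -/
theorem three_sq {a b c x : ℝ} (hx : 0 ≤ x) (h : x ≤ a + b + c) : x ^ 2 / 3 ≤ a ^ 2 + b ^ 2 + c ^ 2 := by
  have h1 : x ^ 2 ≤ (a + b + c) ^ 2 := pow_le_pow_left₀ hx h 2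
  nlinarith [sq_nonneg (a - b), sq_nonneg (b - c), sq_nonneg (a - c)]

/-- **AN EXIT IS PAID** : the pair is far before the step and near after it -/
theorem exit_pr [DecidableEq α] [DecidableEq β] (F : Om → α) (G : Om → β) {Z : Om → γ} {Z' : Om → γ'} {Zc : Om → δ}
    {Zc' : Om → δ'} {Zd : Om → ε} {Zd' : Om → ε'} (hZ : Fac Z' Z) (hc : Fac Zc' Zc) (hd : Fac Zd' Zd) {eta : ℝ}
    (h0 : 0 ≤ eta) {S : Om → Prop} (hS : ∀ w, P.p w ≠ 0 → S w → eta ≤ far P F G Z Zc Zd w ∧
      far P F G Z' Zc' Zd' w ≤ eta / 2) :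
    eta ^ 2 / 24 * P.Pr S ≤ (P.Hc (fun v => (F v, G v)) Z - P.Hc (fun v => (F v, G v)) Z') + (P.Hc F Zc - P.Hc F Zc') +
      (P.Hc G Zd - P.Hc G Zd') := by
  have h1 := E_dst_sq P (fun v => (F v, G v)) hZ
  have h2 := E_dst_sq P F hc
  have h3 := E_dst_sq P G hd
  have h4 : P.E (fun w => eta ^ 2 / 12 * ind (S w)) ≤ P.E (fun w => dst P (fun v => (F v, G v)) Z Z' w ^ 2 +
      dst P F Zc Zc' w ^ 2 + dst P G Zd Zd' w ^ 2) := by
    refine P.E_mono fun w hw => ?_
    by_cases hs : S w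
    · rw [ind_of hs, mul_one]
      obtain ⟨h5, h6⟩ := hS w hw hs
      have h7 := far_tri P F G Z Z' Zc Zc' Zd Zd' hw
      have h8 := three_sq (a := dst P (fun v => (F v, G v)) Z Z' w) (b := dst P F Zc Zc' w) (c := dst P G Zd Zd' w)
        (x := eta / 2) (by linarith) (by linarith)
      have e : (eta / 2) ^ 2 / 3 = eta ^ 2 / 12 := by ring
      linarith
    · rw [ind_not hs, mul_zero]
      positivity
  rw [P.E_smul, P.E_add, P.E_add] at h4
  unfold FP.Pr
  linarith

/-- `l1` distance of the law of `G` given `F` and everything and of its own law -/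
def farX [DecidableEq β] (F : Om → α) (G : Om → β) (Z : Om → γ) (Zd : Om → ε) (w : Om) : ℝ :=
  ∑ g ∈ univ.image G, |cpr P G g (fun v => (F v, Z v)) w - cpr P G g Zd w|

theorem farX_tri [DecidableEq β] (F : Om → α) (G : Om → β) (Z : Om → γ) (Z' : Om → γ') (Zd : Om → ε) (Zd' : Om → ε')
    (w : Om) : farX P F G Z Zd w ≤ farX P F G Z' Zd' w + dst P G (fun v => (F v, Z v)) (fun v => (F v, Z' v)) w +
      dst P G Zd Zd' w := by
  unfold farX dst
  rw [← sum_add_distrib, ← sum_add_distrib]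
  refine sum_le_sum fun g _ => ?_
  have e : cpr P G g (fun v => (F v, Z v)) w - cpr P G g Zd w = (cpr P G g (fun v => (F v, Z' v)) w - cpr P G g Zd' w) +
    -(cpr P G g (fun v => (F v, Z' v)) w - cpr P G g (fun v => (F v, Z v)) w) + (cpr P G g Zd' w - cpr P G g Zd w) := by
    ring
  rw [e]
  refine (abs_add_le _ _).trans (add_le_add ((abs_add_le _ _).trans ?_) le_rfl)
  rw [abs_neg]

/-- an exit of the relation `F in Bad_X` is paid -/
theorem exitX_pr [DecidableEq β] (F : Om → α) (G : Om → β) {Z : Om → γ} {Z' : Om → γ'} {Zd : Om → ε} {Zd' : Om → ε'}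
    (hZ : Fac Z' Z) (hd : Fac Zd' Zd) {eta : ℝ} (h0 : 0 ≤ eta) {S : Om → Prop}
    (hS : ∀ w, P.p w ≠ 0 → S w → eta ≤ farX P F G Z Zd w ∧ farX P F G Z' Zd' w ≤ eta / 2) :
    eta ^ 2 / 16 * P.Pr S ≤ (P.Hc G (fun v => (F v, Z v)) - P.Hc G (fun v => (F v, Z' v))) + (P.Hc G Zd - P.Hc G Zd') := by
  have hFZ : Fac (fun v => (F v, Z' v)) (fun v => (F v, Z v)) := fun a b hab => by
    have h1 : F a = F b := congrArg Prod.fst hab
    have h2 : Z' a = Z' b := congrArg Prod.snd hab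
    exact Prod.ext h1 (hZ a b h2)
  have h1 := E_dst_sq P G hFZ
  have h3 := E_dst_sq P G hd
  have h4 : P.E (fun w => eta ^ 2 / 8 * ind (S w)) ≤ P.E (fun w =>
      dst P G (fun v => (F v, Z v)) (fun v => (F v, Z' v)) w ^ 2 + dst P G Zd Zd' w ^ 2) := by
    refine P.E_mono fun w hw => ?_
    by_cases hs : S w
    · rw [ind_of hs, mul_one]
      obtain ⟨h5, h6⟩ := hS w hw hs
      have h7 := farX_tri P F G Z Z' Zd Zd' w
      set a := dst P G (fun v => (F v, Z v)) (fun v => (F v, Z' v)) w with ha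
      set b := dst P G Zd Zd' w with hb
      have h8 : (eta / 2) ^ 2 ≤ (a + b) ^ 2 := pow_le_pow_left₀ (by linarith) (by linarith) 2
      nlinarith [sq_nonneg (a - b)]
    · rw [ind_not hs, mul_zero]
      positivity
  rw [P.E_smul, P.E_add] at h4
  unfold FP.Pr
  linarith

end one

/-! ## two measures -/

section two

variable (P Q : FP Om)

theorem cpr_div [DecidableEq α] (F : Om → α) (U : Om → γ) {w : Om} {f : α} (h : cpr P F f U w ≠ 0) :
    ∃ v, P.p v ≠ 0 ∧ F v = f ∧ U v = U w := by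
  by_contra hc
  push Not at hc
  refine h ?_
  unfold cpr FP.ce
  rw [P.E_congr (g := fun _ => 0) fun v hv => ?_, P.E_const, zero_div]
  by_cases h1 : F v = f
  · rw [ind_not (hc v hv h1), zero_mul]
  · show ind (U v = U w) * ind (F v = f) = 0
    rw [ind_not h1, mul_zero]

/-- the relative entropy of the conditional laws, as a mean over the classes -/
theorem klc_eq_sum [DecidableEq α] (F : Om → α) (Z : Om → γ) :
    Q.klc P F Z = Q.E (fun w => ∑ f ∈ univ.image F, cpr Q F f Z w * Real.log (cpr Q F f Z w / cpr P F f Z w)) := by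
  have h1 : ∀ w, ∑ f ∈ univ.image F, cpr Q F f Z w * Real.log (cpr Q F f Z w / cpr P F f Z w) =
      Q.ce Z (fun v => Real.log (cpr Q F (F v) Z v / cpr P F (F v) Z v)) w := by
    intro w
    exact (ce_eq_sum Q F Z (fun f v => Real.log (cpr Q F f Z v / cpr P F f Z v)) (fun f v v' h => by
      show Real.log (cpr Q F f Z v / cpr P F f Z v) = Real.log (cpr Q F f Z v' / cpr P F f Z v')
      rw [cpr_fac Q F f Z v v' h, cpr_fac P F f Z v v' h]) w).symm
  rw [Q.E_congr (fun w _ => h1 w), Q.E_ce]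
  unfold FP.klc
  refine Q.E_congr fun w _ => ?_
  rw [cpr_self, cpr_self]

/-- `l1` distance of the laws of `F` given `Z` under `Q` and under `P` -/
def dst2 [DecidableEq α] (F : Om → α) (Z : Om → γ) (w : Om) : ℝ := ∑ f ∈ univ.image F, |cpr Q F f Z w - cpr P F f Z w|

theorem cpr_ac (hac : Q.Ac P) [DecidableEq α] (F : Om → α) (Z : Om → γ) {w : Om} {f : α}
    (h : cpr P F f Z w = 0) : cpr Q F f Z w = 0 := by
  by_contra hc
  obtain ⟨v, hv, h1, h2⟩ := cpr_div Q F Z hc
  have h3 : 0 < P.m (fun v => (F v, Z v)) v := P.m_pos _ (hac v hv)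
  have h4 : 0 < P.m Z v := P.m_pos _ (hac v hv)
  have h5 : cpr P F (F v) Z v = 0 := by
    rw [cpr_fac P F (F v) Z v w h2, h1]
    exact h
  rw [cpr_self] at h5
  exact absurd h5 (div_pos h3 h4).ne'

theorem E_dst2_sq (hac : Q.Ac P) [DecidableEq α] (F : Om → α) (Z : Om → γ) :
    Q.E (fun w => dst2 P Q F Z w ^ 2) ≤ 2 * Q.klc P F Z := by
  rw [klc_eq_sum, ← Q.E_smul]
  refine Q.E_mono fun w hw => ?_
  exact pinsker_abs (univ.image F) (fun v _ => cpr_nonneg Q F v Z w) (fun v _ => cpr_nonneg P F v Z w)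
    (sum_cpr Q F Z hw) (sum_cpr P F Z (hac w hw)) (fun v _ h => cpr_ac P Q hac F Z h)

/-- total correlation of the pair against the own laws -/
def tot (F : Om → α) (G : Om → β) (Z : Om → γ) (Zc : Om → δ) (Zd : Om → ε) : ℝ :=
  Q.Hc F Zc + Q.Hc G Zd - Q.Hc (fun v => (F v, G v)) Z

theorem E_far_sq [DecidableEq α] [DecidableEq β] (F : Om → α) (G : Om → β) {Z : Om → γ} {Zc : Om → δ} {Zd : Om → ε}
    (hc : Fac Z Zc) (hd : Fac Z Zd) : Q.E (fun w => far Q F G Z Zc Zd w ^ 2) ≤ 2 * tot Q F G Z Zc Zd := by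
  set PQ : α × β → Om → ℝ := fun z w => cpr Q F z.1 Zc w * cpr Q G z.2 Zd w with hPQ
  have hfac : ∀ z, Fac Z (PQ z) := fun z v w h => by
    show cpr Q F z.1 Zc v * cpr Q G z.2 Zd v = cpr Q F z.1 Zc w * cpr Q G z.2 Zd w
    rw [cpr_fac Q F z.1 Zc v w (hc v w h), cpr_fac Q G z.2 Zd v w (hd v w h)]
  have h1 : tot Q F G Z Zc Zd = Q.E (fun w => ∑ z ∈ univ.image (fun v => (F v, G v)),
      cpr Q (fun v => (F v, G v)) z Z w * Real.log (cpr Q (fun v => (F v, G v)) z Z w / PQ z w)) := by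
    have h2 : ∀ w, ∑ z ∈ univ.image (fun v => (F v, G v)),
        cpr Q (fun v => (F v, G v)) z Z w * Real.log (cpr Q (fun v => (F v, G v)) z Z w / PQ z w) =
        Q.ce Z (fun v => Real.log (cpr Q (fun v => (F v, G v)) (F v, G v) Z v / PQ (F v, G v) v)) w := by
      intro w
      exact (ce_eq_sum Q (fun v => (F v, G v)) Z
        (fun z v => Real.log (cpr Q (fun v => (F v, G v)) z Z v / PQ z v)) (fun z v v' h => by
        show Real.log (cpr Q (fun v => (F v, G v)) z Z v / PQ z v) = Real.log (cpr Q (fun v => (F v, G v)) z Z v' / PQ z v')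
        rw [cpr_fac Q _ z Z v v' h, hfac z v v' h]) w).symm
    rw [Q.E_congr (fun w _ => h2 w), Q.E_ce]
    unfold tot FP.Hc FP.H
    rw [← Q.E_sub, ← Q.E_sub, ← Q.E_sub, ← Q.E_add, ← Q.E_sub]
    refine Q.E_congr fun w hw => ?_
    have e1 := cpr_self Q (fun v => (F v, G v)) Z w
    have e2 := cpr_self Q F Zc w
    have e3 := cpr_self Q G Zd w
    show _ = Real.log (cpr Q (fun v => (F v, G v)) (F w, G w) Z w / (cpr Q F (F w) Zc w * cpr Q G (G w) Zd w))
    rw [e1, e2, e3]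
    have a := (Q.m_pos (fun v => ((F v, G v), Z v)) hw)
    have b := (Q.m_pos Z hw)
    have c := (Q.m_pos (fun v => (F v, Zc v)) hw)
    have d := (Q.m_pos Zc hw)
    have e := (Q.m_pos (fun v => (G v, Zd v)) hw)
    have f := (Q.m_pos Zd hw)
    rw [Real.log_div (div_pos a b).ne' (mul_pos (div_pos c d) (div_pos e f)).ne', Real.log_div a.ne' b.ne',
      Real.log_mul (div_pos c d).ne' (div_pos e f).ne', Real.log_div c.ne' d.ne', Real.log_div e.ne' f.ne']
    ring
  rw [h1, ← Q.E_smul]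
  refine Q.E_mono fun w hw => ?_
  have h3 := pinsker_abs (univ.image F ×ˢ univ.image G) (p := fun z => cpr Q (fun v => (F v, G v)) z Z w)
    (q := fun z => PQ z w) (fun v _ => cpr_nonneg Q _ v Z w)
    (fun v _ => mul_nonneg (cpr_nonneg Q _ _ _ _) (cpr_nonneg Q _ _ _ _)) ?_ ?_ ?_
  · have e1 : ∑ z ∈ univ.image F ×ˢ univ.image G, |cpr Q (fun v => (F v, G v)) z Z w - PQ z w| =
        far Q F G Z Zc Zd w := by rw [sum_product]; rfl
    have e2 : ∑ z ∈ univ.image F ×ˢ univ.image G, cpr Q (fun v => (F v, G v)) z Z w *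
        Real.log (cpr Q (fun v => (F v, G v)) z Z w / PQ z w) = ∑ z ∈ univ.image (fun v => (F v, G v)),
        cpr Q (fun v => (F v, G v)) z Z w * Real.log (cpr Q (fun v => (F v, G v)) z Z w / PQ z w) := by
      rw [sum_product]
      refine sum_pair F G (fun z => cpr Q (fun v => (F v, G v)) z Z w *
        Real.log (cpr Q (fun v => (F v, G v)) z Z w / PQ z w)) fun z hz => ?_
      rw [cpr_zero Q hz, zero_mul]
    rw [e1, e2] at h3
    exact h3
  · rw [sum_product, sum_pair F G (fun z => cpr Q (fun v => (F v, G v)) z Z w) fun z hz => cpr_zero Q hz Z w]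
    exact sum_cpr Q (fun v => (F v, G v)) Z hw
  · rw [sum_product]
    simp only [hPQ, ← mul_sum]
    rw [sum_cpr Q G Zd hw]
    simp only [mul_one]
    exact sum_cpr Q F Zc hw
  · intro z _ hz
    by_contra hne
    obtain ⟨v, hv, h4, h5⟩ := cpr_div Q (fun v => (F v, G v)) Z hne
    have h6 : F v = z.1 := congrArg Prod.fst h4
    have h7 : G v = z.2 := congrArg Prod.snd h4
    have h8 : PQ z w = cpr Q F (F v) Zc v * cpr Q G (G v) Zd v := by
      rw [← hfac z v w h5, h6, h7]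
    rw [h8, cpr_self, cpr_self] at hz
    have c := (Q.m_pos (fun v => (F v, Zc v)) hv)
    have d := (Q.m_pos Zc hv)
    have e := (Q.m_pos (fun v => (G v, Zd v)) hv)
    have f := (Q.m_pos Zd hv)
    exact absurd hz (mul_pos (div_pos c d) (div_pos e f)).ne'

theorem far_tri2 (hac : Q.Ac P) [DecidableEq α] [DecidableEq β] (F : Om → α) (G : Om → β) (Z : Om → γ) (Zc : Om → δ)
    (Zd : Om → ε) {w : Om} (hw : Q.p w ≠ 0) :
    far P F G Z Zc Zd w ≤ far Q F G Z Zc Zd w + dst2 P Q (fun v => (F v, G v)) Z w + dst2 P Q F Zc w +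
      dst2 P Q G Zd w := by
  have h := tri_gen (SF := univ.image F) (SG := univ.image G)
    (p := fun f g => cpr P (fun v => (F v, G v)) (f, g) Z w) (p' := fun f g => cpr Q (fun v => (F v, G v)) (f, g) Z w)
    (q := fun f => cpr P F f Zc w) (q' := fun f => cpr Q F f Zc w)
    (r := fun g => cpr P G g Zd w) (r' := fun g => cpr Q G g Zd w) (sum_abs_cpr P F Zc (hac w hw)).le
    (sum_abs_cpr Q G Zd hw).le
  have e : ∑ f ∈ univ.image F, ∑ g ∈ univ.image G, |cpr Q (fun v => (F v, G v)) (f, g) Z w -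
      cpr P (fun v => (F v, G v)) (f, g) Z w| = dst2 P Q (fun v => (F v, G v)) Z w := by
    refine sum_pair F G (fun z => |cpr Q (fun v => (F v, G v)) z Z w - cpr P (fun v => (F v, G v)) z Z w|) fun z hz => ?_
    rw [cpr_zero P hz, cpr_zero Q hz, sub_zero, abs_zero]
  rw [e] at h
  exact h

/-- four numbers with sum at least `x` -/
theorem four_sq {a b c d x : ℝ} (hx : 0 ≤ x) (h : x ≤ a + b + c + d) : x ^ 2 / 4 ≤ a ^ 2 + b ^ 2 + c ^ 2 + d ^ 2 := by
  have h1 : x ^ 2 ≤ (a + b + c + d) ^ 2 := pow_le_pow_left₀ hx h 2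
  nlinarith [sq_nonneg (a - b), sq_nonneg (b - c), sq_nonneg (a - c), sq_nonneg (a - d), sq_nonneg (b - d),
    sq_nonneg (c - d)]

/-- **FAR PAIRS UNDER THE NEW LAW** : mass of the pairs which are far in the old tables -/
theorem far_le (hac : Q.Ac P) [DecidableEq α] [DecidableEq β] (F : Om → α) (G : Om → β) {Z : Om → γ} {Zc : Om → δ}
    {Zd : Om → ε} (hc : Fac Z Zc) (hd : Fac Z Zd) {eta : ℝ} (h0 : 0 ≤ eta) {S : Om → Prop}
    (hS : ∀ w, Q.p w ≠ 0 → S w → eta ≤ far P F G Z Zc Zd w) :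
    eta ^ 2 / 8 * Q.Pr S ≤ tot Q F G Z Zc Zd + Q.klc P (fun v => (F v, G v)) Z + Q.klc P F Zc + Q.klc P G Zd := by
  have h1 := E_dst2_sq P Q hac (fun v => (F v, G v)) Z
  have h2 := E_dst2_sq P Q hac F Zc
  have h3 := E_dst2_sq P Q hac G Zd
  have h3' := E_far_sq Q F G hc hd
  have h4 : Q.E (fun w => eta ^ 2 / 4 * ind (S w)) ≤ Q.E (fun w => far Q F G Z Zc Zd w ^ 2 +
      dst2 P Q (fun v => (F v, G v)) Z w ^ 2 + dst2 P Q F Zc w ^ 2 + dst2 P Q G Zd w ^ 2) := by
    refine Q.E_mono fun w hw => ?_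
    by_cases hs : S w
    · rw [ind_of hs, mul_one]
      exact four_sq h0 ((hS w hw hs).trans (far_tri2 P Q hac F G Z Zc Zd hw))
    · rw [ind_not hs, mul_zero]
      positivity
  rw [Q.E_smul, Q.E_add, Q.E_add, Q.E_add] at h4
  unfold FP.Pr
  linarith

end two

/-! ## saturated classes -/

section sat

variable (P : FP Om)

/-- **THE DENSITY OF THE FAR PAIRS IN A SATURATED CLASS** is at most `u` outside a set of hidden points of mass
`exp (B - u eta^2/(8 kap))` -/
theorem sat_dens [DecidableEq α] [DecidableEq β] (F : Om → α) (G : Om → β) {Z : Om → γ} {Zc : Om → δ} {Zd : Om → ε}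
    (hc : Fac Z Zc) (hd : Fac Z Zd) {X : Om → χ} {eta u kap B : ℝ} (h0 : 0 ≤ eta) (hk : 0 < kap) {S : Om → Prop}
    (hS : ∀ w, P.p w ≠ 0 → S w → eta ≤ far P F G Z Zc Zd w)
    (hsat : ∀ E : Om → Prop, Fac X E → P.Pr E ≠ 0 →
      tot (P.cond E) F G Z Zc Zd + (P.cond E).klc P (fun v => (F v, G v)) Z + (P.cond E).klc P F Zc +
        (P.cond E).klc P G Zd ≤ kap * (Real.log (1 / P.Pr E) + B)) :
    P.Pr (fun w => u ≤ P.ce X (fun v => ind (S v)) w) ≤ Real.exp (B - u * eta ^ 2 / (8 * kap)) := by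
  set E : Om → Prop := fun w => u ≤ P.ce X (fun v => ind (S v)) w with hE
  by_cases hE0 : P.Pr E = 0
  · rw [hE0]; exact (Real.exp_pos _).le
  have hEf : Fac X E := fun v w hv => by
    show (u ≤ P.ce X (fun v => ind (S v)) v) = (u ≤ P.ce X (fun v => ind (S v)) w)
    rw [P.ce_fac X (fun v => ind (S v)) v w hv]
  have h1 : u ≤ (P.cond E).Pr S := dens_le (P := P) S hE0
  have h2 := far_le P (P.cond E) (FP.cond_ac _ _) F G hc hd h0 (S := S)
    (fun w hw hs => hS w (cond_supp hE0 hw).2 hs)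
  have h3 := hsat E hEf hE0
  have h4 : eta ^ 2 / 8 * u ≤ kap * (Real.log (1 / P.Pr E) + B) :=
    (mul_le_mul_of_nonneg_left h1 (by positivity)).trans (h2.trans h3)
  have hp : 0 < P.Pr E := lt_of_le_of_ne (P.Pr_nonneg E) (Ne.symm hE0)
  rw [← Real.log_le_iff_le_exp hp]
  have h5 : Real.log (1 / P.Pr E) = - Real.log (P.Pr E) := by rw [one_div, Real.log_inv]
  rw [h5] at h4
  have h6 : u * eta ^ 2 / (8 * kap) ≤ - Real.log (P.Pr E) + B := by
    rw [div_le_iff₀ (by positivity)]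
    nlinarith
  linarith

end sat

/-! ## the count -/

section cnt

variable (P : FP Om)

/-- at the decision the density is at least `u` : the decisions are paid by the true relation -/
theorem mart_count {n : ℕ} {κ : ℕ → Type*} {X : ∀ s, Om → κ s} {f : ℕ → Om → Prop} {G : Om → Prop} {u : ℝ}
    (hf : ∀ s < n, Fac (X s) (f s)) (hu : ∀ s < n, ∀ w, P.p w ≠ 0 → f s w → u ≤ P.ce (X s) (fun v => ind (G v)) w) :
    u * ∑ s ∈ range n, P.Pr (f s) ≤ ∑ s ∈ range n, P.Pr (fun w => f s w ∧ G w) := by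
  rw [mul_sum]
  refine sum_le_sum fun s hs => ?_
  have hs' := mem_range.1 hs
  have h1 : P.Pr (fun w => f s w ∧ G w) = P.E (fun w => ind (f s w) * P.ce (X s) (fun v => ind (G v)) w) := by
    rw [P.E_mul_ce (Fac.ind fun v w hv => by rw [hf s hs' v w hv])]
    unfold FP.Pr
    exact P.E_congr fun w _ => ind_and _ _
  rw [h1]
  unfold FP.Pr
  rw [← P.E_smul]
  refine P.E_mono fun w hw => ?_
  by_cases h : f s w
  · rw [ind_of h, mul_one, one_mul]; exact hu s hs' w hw h
  · rw [ind_not h]; simp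

/-- **THE COUNT** : `A i` = decision in the epoch `i`, `G i` = true relation, `R i` = the end is a removal, `Nr i` = near
in the new tables -/
theorem count {ι : Type*} (I : Finset ι) {A G R Nr : ι → Om → Prop} {u y X : ℝ} {x e : ι → ℝ} (hu : 0 < u) (hu4 : u ≤ 1 / 4)
    (hy : y ≤ u / 4) (hx : ∑ i ∈ I, x i ≤ X)
    (h1 : ∀ i ∈ I, u * P.Pr (A i) ≤ P.Pr (fun w => A i w ∧ G i w))
    (h2 : ∀ i ∈ I, P.Pr (fun w => (A i w ∧ G i w) ∧ R i w ∧ Nr i w) ≤ x i)
    (h3 : ∀ i ∈ I, P.Pr (fun w => A i w ∧ R i w ∧ ¬ Nr i w) ≤ u ^ 2 * P.Pr (A i) + e i)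
    (h4 : ∀ i ∈ I, P.Pr (fun w => (A i w ∧ G i w) ∧ ¬ R i w) ≤ y * P.Pr (A i)) :
    ∑ i ∈ I, P.Pr (A i) ≤ 2 * (X + ∑ i ∈ I, e i) / u := by
  have h5 : ∀ i ∈ I, u / 2 * P.Pr (A i) ≤ x i + e i := by
    intro i hi
    have h6 : P.Pr (fun w => A i w ∧ G i w) ≤ P.Pr (fun w => (A i w ∧ G i w) ∧ R i w ∧ Nr i w) +
        P.Pr (fun w => A i w ∧ R i w ∧ ¬ Nr i w) + P.Pr (fun w => (A i w ∧ G i w) ∧ ¬ R i w) := by
      unfold FP.Pr
      rw [← P.E_add, ← P.E_add]
      refine P.E_mono fun w _ => ?_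
      have n1 := ind_nonneg ((A i w ∧ G i w) ∧ R i w ∧ Nr i w)
      have n2 := ind_nonneg (A i w ∧ R i w ∧ ¬ Nr i w)
      have n3 := ind_nonneg ((A i w ∧ G i w) ∧ ¬ R i w)
      by_cases ha : A i w ∧ G i w
      · rw [ind_of ha]
        by_cases hr : R i w
        · by_cases hn : Nr i w
          · have : ind ((A i w ∧ G i w) ∧ R i w ∧ Nr i w) = 1 := ind_of ⟨ha, hr, hn⟩
            linarith
          · have : ind (A i w ∧ R i w ∧ ¬ Nr i w) = 1 := ind_of ⟨ha.1, hr, hn⟩
            linarith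
        · have : ind ((A i w ∧ G i w) ∧ ¬ R i w) = 1 := ind_of ⟨ha, hr⟩
          linarith
      · rw [ind_not ha]
        linarith
    have h7 := h1 i hi
    have h8 := h2 i hi
    have h9 := h3 i hi
    have h10 := h4 i hi
    have hp := P.Pr_nonneg (A i)
    have h11 : y * P.Pr (A i) ≤ u / 4 * P.Pr (A i) := mul_le_mul_of_nonneg_right hy hp
    have h12 : u ^ 2 * P.Pr (A i) ≤ u / 4 * P.Pr (A i) := by
      refine mul_le_mul_of_nonneg_right ?_ hp
      nlinarith
    linarith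
  have h6 : u / 2 * ∑ i ∈ I, P.Pr (A i) ≤ X + ∑ i ∈ I, e i := by
    rw [mul_sum]
    refine (sum_le_sum h5).trans ?_
    rw [sum_add_distrib]
    linarith
  rw [le_div_iff₀ hu]
  linarith

/-- the density after the end : hypothesis `h3` of `count` from `sat_dens` -/
theorem near_dens {κ : Type*} {X : Om → κ} {A S E : Om → Prop} {u : ℝ} (hA : Fac X A) (hu0 : 0 ≤ u)
    (hE : ∀ w, P.p w ≠ 0 → A w → ¬ E w → P.ce X (fun v => ind (S v)) w ≤ u) :
    P.Pr (fun w => A w ∧ S w) ≤ u * P.Pr A + P.Pr (fun w => A w ∧ E w) := by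
  have h1 : P.Pr (fun w => A w ∧ S w) = P.E (fun w => ind (A w) * P.ce X (fun v => ind (S v)) w) := by
    rw [P.E_mul_ce (Fac.ind fun v w hv => by rw [hA v w hv])]
    unfold FP.Pr
    exact P.E_congr fun w _ => ind_and _ _
  rw [h1]
  unfold FP.Pr
  rw [← P.E_smul, ← P.E_add]
  refine P.E_mono fun w hw => ?_
  by_cases h : A w
  · by_cases he : E w
    · have h2 : ind (A w ∧ E w) = 1 := ind_of ⟨h, he⟩
      rw [ind_of h, h2, one_mul, mul_one]
      have := ce_ind_le_one (P := P) X S w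
      linarith
    · have h2 : ind (A w ∧ E w) = 0 := ind_not fun hh => he hh.2
      rw [ind_of h, h2, one_mul, mul_one, add_zero]
      exact hE w hw h he
  · have h2 : ind (A w ∧ E w) = 0 := ind_not fun hh => h hh.1
    rw [ind_not h, h2]
    simp

end cnt

end

end Pool.Agent.GMH.Exit
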