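import Pool.Agent.GMH.Exit
import Pool.Agent.GMH.LemS

/-!
# GMH/Exit3 (helper99): EXITS FOR ANY FAMILY OF TOPS (H3.0 (0.11); relation `R0` of GMH/KinF)

`F i`, `i : I` (finite linear order) the tops, `U` = what the joint law sees, `Ui i` = what the own law of `F i` sees.
* `far P F U Ui w` = `Σ_g |P (tup F = g | U) - Π_i P (F i = g i | Ui i)|`; `dN` = `l1` distance of two conditional laws;
* `prod_tri`, `far_tri` : the triangle inequality; **`exit_pr`** : far before and near after a step is paid by the drops of the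
  entropies;
* two laws: `dN2`, `far_tri2`, `tot`, `E_far_sq`, **`far_le`** ; **`sat_dens`** : density of the far tuples in a saturated class.
-/

set_option autoImplicit false
set_option linter.unusedSectionVars false

namespace Pool.Agent.GMH.Exit3

open Finset Pool.Agent.PWZ Pool.Agent.M3 Pool.Agent.GMH

noncomputable section

variable {Om : Type*} [Fintype Om] {I φ υ υ' ω ω' κ χ : Type*} [Fintype I] [LinearOrder I]

/-! ## products -/

/-- products of laws: `l1` distance at most the sum of the distances -/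
theorem prod_tri {S : I → Finset φ} {a b : I → φ → ℝ} (a0 : ∀ i x, 0 ≤ a i x) (b0 : ∀ i x, 0 ≤ b i x)
    (a1 : ∀ i, ∑ x ∈ S i, a i x ≤ 1) (b1 : ∀ i, ∑ x ∈ S i, b i x ≤ 1) :
    ∑ f ∈ Fintype.piFinset S, |∏ i, a i (f i) - ∏ i, b i (f i)| ≤ ∑ i, ∑ x ∈ S i, |a i x - b i x| := by
  classical
  have h1 : ∀ f : I → φ, |∏ i, a i (f i) - ∏ i, b i (f i)| ≤
      ∑ i, ∏ j, (if j = i then |a i (f i) - b i (f i)| else if j < i then a j (f j) else b j (f j)) := by
    intro f
    have h2 := Finset.prod_add_ordered univ (fun i => b i (f i)) (fun i => a i (f i) - b i (f i))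
    have h3 : ∏ i, a i (f i) - ∏ i, b i (f i) = ∑ i, (a i (f i) - b i (f i)) *
        (∏ j ∈ univ.filter (fun j => j < i), a j (f j)) * ∏ j ∈ univ.filter (fun j => i < j), b j (f j) := by
      have e1 : ∀ i, b i (f i) + (a i (f i) - b i (f i)) = a i (f i) := fun i => by ring
      simp only [e1] at h2
      rw [h2]
      ring
    rw [h3]
    refine (Finset.abs_sum_le_sum_abs _ _).trans (Finset.sum_le_sum fun i _ => ?_)
    rw [abs_mul, abs_mul, Finset.abs_prod, Finset.abs_prod]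
    have e2 : ∀ j, |a j (f j)| = a j (f j) := fun j => abs_of_nonneg (a0 j _)
    have e3 : ∀ j, |b j (f j)| = b j (f j) := fun j => abs_of_nonneg (b0 j _)
    simp only [e2, e3]
    have e4 : ∏ j, (if j = i then |a i (f i) - b i (f i)| else if j < i then a j (f j) else b j (f j)) =
        |a i (f i) - b i (f i)| * (∏ j ∈ univ.filter (fun j => j < i), a j (f j)) *
          ∏ j ∈ univ.filter (fun j => i < j), b j (f j) := by
      rw [← Finset.mul_prod_erase univ _ (mem_univ i), if_pos rfl, mul_assoc]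
      congr 1
      have e5 : ∏ j ∈ univ.erase i, (if j = i then |a i (f i) - b i (f i)| else if j < i then a j (f j) else b j (f j)) =
          ∏ j ∈ univ.erase i, (if j < i then a j (f j) else b j (f j)) :=
        Finset.prod_congr rfl fun j hj => if_neg (Finset.ne_of_mem_erase hj)
      rw [e5, Finset.prod_ite]
      congr 1
      · refine Finset.prod_congr ?_ fun _ _ => rfl
        ext j
        simp only [mem_filter, mem_erase, mem_univ, and_true, true_and]
        exact ⟨fun h => h.2, fun h => ⟨h.ne, h⟩⟩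
      · refine Finset.prod_congr ?_ fun _ _ => rfl
        ext j
        simp only [mem_filter, mem_erase, mem_univ, and_true, true_and, not_lt]
        exact ⟨fun h => lt_of_le_of_ne h.2 fun e => h.1 e.symm, fun h => ⟨fun e => h.ne e.symm, h.le⟩⟩
    exact e4.ge
  refine (Finset.sum_le_sum fun f _ => h1 f).trans ?_
  rw [Finset.sum_comm]
  refine Finset.sum_le_sum fun i _ => ?_
  have h4 : ∑ f ∈ Fintype.piFinset S, ∏ j, (if j = i then |a i (f i) - b i (f i)| else if j < i then a j (f j)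
      else b j (f j)) = ∏ j, ∑ x ∈ S j, (if j = i then |a i x - b i x| else if j < i then a j x else b j x) := by
    rw [Finset.prod_univ_sum]
    refine Finset.sum_congr rfl fun f _ => Finset.prod_congr rfl fun j _ => ?_
    by_cases hj : j = i
    · subst hj
      rw [if_pos rfl]
    · rw [if_neg hj, if_neg hj]
  rw [h4, ← Finset.mul_prod_erase univ _ (mem_univ i)]
  have h5 : ∑ x ∈ S i, (if i = i then |a i x - b i x| else if i < i then a i x else b i x) =
      ∑ x ∈ S i, |a i x - b i x| := Finset.sum_congr rfl fun x _ => if_pos rfl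
  rw [h5]
  have h6 : ∏ j ∈ univ.erase i, ∑ x ∈ S j, (if j = i then |a i x - b i x| else if j < i then a j x else b j x) ≤ 1 := by
    refine Finset.prod_le_one (fun j hj => Finset.sum_nonneg fun x _ => ?_) fun j hj => ?_
    · rw [if_neg (Finset.ne_of_mem_erase hj)]
      split_ifs
      · exact a0 j x
      · exact b0 j x
    · by_cases hlt : j < i
      · refine le_trans (le_of_eq (Finset.sum_congr rfl fun x _ => ?_)) (a1 j)
        rw [if_neg (Finset.ne_of_mem_erase hj), if_pos hlt]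
      · refine le_trans (le_of_eq (Finset.sum_congr rfl fun x _ => ?_)) (b1 j)
        rw [if_neg (Finset.ne_of_mem_erase hj), if_neg hlt]
  exact mul_le_of_le_one_right (Finset.sum_nonneg fun _ _ => abs_nonneg _) h6

/-! ## one law -/

section one

variable (P : FP Om)

/-- `l1` distance of the laws of `X` given `U'` and given `U` -/
def dN (X : Om → κ) (U : Om → υ) (U' : Om → υ') (w : Om) : ℝ := ∑ x ∈ vals X, |P.pv U' X w x - P.pv U X w x|

theorem dN_nonneg (X : Om → κ) (U : Om → υ) (U' : Om → υ') (w : Om) : 0 ≤ dN P X U U' w :=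
  sum_nonneg fun _ _ => abs_nonneg _

theorem E_dN_sq (X : Om → κ) {U : Om → υ} {U' : Om → υ'} (hU : Fac U' U) :
    P.E (fun w => dN P X U U' w ^ 2) ≤ 2 * (P.Hc X U - P.Hc X U') := by
  classical
  have h := Exit.E_dst_sq P X hU
  exact h

/-- distance of the joint law and of the product of the own laws -/
def far (F : I → Om → φ) (U : Om → υ) (Ui : I → Om → ω) (w : Om) : ℝ :=
  ∑ g ∈ let_ F, |P.pv U (tup F) w g - ∏ i, P.pv (Ui i) (F i) w (g i)|

theorem far_nonneg (F : I → Om → φ) (U : Om → υ) (Ui : I → Om → ω) (w : Om) : 0 ≤ far P F U Ui w :=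
  sum_nonneg fun _ _ => abs_nonneg _

theorem far_fac (F : I → Om → φ) {U : Om → υ} {Ui : I → Om → ω} (hU : ∀ i, Fac U (Ui i)) : Fac U (far P F U Ui) := by
  intro v w h
  have h1 : ∀ g, P.pv U (tup F) v g = P.pv U (tup F) w g := fun g => P.pv_fac U (tup F) g v w h
  have h2 : ∀ i x, P.pv (Ui i) (F i) v x = P.pv (Ui i) (F i) w x := fun i x => P.pv_fac (Ui i) (F i) x v w (hU i v w h)
  show far P F U Ui v = far P F U Ui w
  unfold far
  simp only [h1, h2]

/-- sums over the letters and over the values -/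
theorem sum_let {F : I → Om → φ} {h : (I → φ) → ℝ} (h0 : ∀ z, z ∉ vals (tup F) → h z = 0) :
    ∑ g ∈ let_ F, h g = ∑ g ∈ vals (tup F), h g :=
  (sum_subset (vals_sub F) fun z _ hz => h0 z hz).symm

/-- **triangle inequality** -/
theorem far_tri (F : I → Om → φ) (U : Om → υ) (U' : Om → υ') (Ui : I → Om → ω) (Ui' : I → Om → ω') {w : Om}
    (hw : P.p w ≠ 0) :
    far P F U Ui w ≤ far P F U' Ui' w + dN P (tup F) U U' w + ∑ i, dN P (F i) (Ui i) (Ui' i) w := by
  have h1 := prod_tri (S := fun i => vals (F i)) (a := fun i x => P.pv (Ui' i) (F i) w x)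
    (b := fun i x => P.pv (Ui i) (F i) w x) (fun i x => P.pv_nonneg _ _ _ _) (fun i x => P.pv_nonneg _ _ _ _)
    (fun i => (P.pv_sum (Ui' i) (F i) hw).le) (fun i => (P.pv_sum (Ui i) (F i) hw).le)
  have e : ∑ g ∈ let_ F, |P.pv U' (tup F) w g - P.pv U (tup F) w g| = dN P (tup F) U U' w :=
    sum_let fun z hz => by rw [pv_out P _ _ _ hz, pv_out P _ _ _ hz, sub_zero, abs_zero]
  have h2 : far P F U Ui w ≤ ∑ g ∈ let_ F, (|P.pv U' (tup F) w g - ∏ i, P.pv (Ui' i) (F i) w (g i)| +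
      |P.pv U' (tup F) w g - P.pv U (tup F) w g| +
      |∏ i, P.pv (Ui' i) (F i) w (g i) - ∏ i, P.pv (Ui i) (F i) w (g i)|) := by
    refine sum_le_sum fun g _ => ?_
    have e1 : P.pv U (tup F) w g - ∏ i, P.pv (Ui i) (F i) w (g i) =
        (P.pv U' (tup F) w g - ∏ i, P.pv (Ui' i) (F i) w (g i)) + -(P.pv U' (tup F) w g - P.pv U (tup F) w g) +
        (∏ i, P.pv (Ui' i) (F i) w (g i) - ∏ i, P.pv (Ui i) (F i) w (g i)) := by ring
    rw [e1]
    refine (abs_add_le _ _).trans (add_le_add ((abs_add_le _ _).trans ?_) le_rfl)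
    rw [abs_neg]
  rw [sum_add_distrib, sum_add_distrib, e] at h2
  exact h2.trans (add_le_add le_rfl h1)

/-- a number against a sum -/
theorem sq_sum_le {a x : ℝ} {b : I → ℝ} (hx : 0 ≤ x) (h : x ≤ a + ∑ i, b i) :
    x ^ 2 ≤ (Fintype.card I + 1) * (a ^ 2 + ∑ i, b i ^ 2) := by
  classical
  have h1 : x ^ 2 ≤ (a + ∑ i, b i) ^ 2 := pow_le_pow_left₀ hx h 2
  have h2 := sq_sum_le_card_mul_sum_sq (s := (univ : Finset (Option I))) (f := fun o => o.elim a b)
  rw [Fintype.sum_option, Fintype.sum_option, Finset.card_univ, Fintype.card_option] at h2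
  simp only [Option.elim_none, Option.elim_some] at h2
  push_cast at h2
  exact h1.trans h2

/-- **AN EXIT IS PAID** : far before the step, near after it -/
theorem exit_pr (F : I → Om → φ) {U : Om → υ} {U' : Om → υ'} {Ui : I → Om → ω} {Ui' : I → Om → ω'} (hU : Fac U' U)
    (hUi : ∀ i, Fac (Ui' i) (Ui i)) {eta : ℝ} (h0 : 0 ≤ eta) {S : Om → Prop}
    (hS : ∀ w, P.p w ≠ 0 → S w → eta ≤ far P F U Ui w ∧ far P F U' Ui' w ≤ eta / 2) :
    eta ^ 2 / (8 * (Fintype.card I + 1)) * P.Pr S ≤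
      (P.Hc (tup F) U - P.Hc (tup F) U') + ∑ i, (P.Hc (F i) (Ui i) - P.Hc (F i) (Ui' i)) := by
  have h1 := E_dN_sq P (tup F) hU
  have h2 : ∑ i, P.E (fun w => dN P (F i) (Ui i) (Ui' i) w ^ 2) ≤ ∑ i, 2 * (P.Hc (F i) (Ui i) - P.Hc (F i) (Ui' i)) :=
    Finset.sum_le_sum fun i _ => E_dN_sq P (F i) (hUi i)
  rw [← P.E_sum, ← Finset.mul_sum] at h2
  have cp : (0 : ℝ) < (Fintype.card I : ℝ) + 1 := by positivity
  have h4 : P.E (fun w => eta ^ 2 / (4 * (Fintype.card I + 1)) * ind (S w)) ≤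
      P.E (fun w => dN P (tup F) U U' w ^ 2 + ∑ i, dN P (F i) (Ui i) (Ui' i) w ^ 2) := by
    refine P.E_mono fun w hw => ?_
    by_cases hs : S w
    · rw [ind_of hs, mul_one]
      obtain ⟨a, b⟩ := hS w hw hs
      have h5 := far_tri P F U U' Ui Ui' hw
      have h6 : eta / 2 ≤ dN P (tup F) U U' w + ∑ i, dN P (F i) (Ui i) (Ui' i) w := by linarith
      have h7 := sq_sum_le (by linarith) h6
      rw [div_le_iff₀ (by positivity)]
      nlinarith
    · rw [ind_not hs, mul_zero]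
      exact add_nonneg (sq_nonneg _) (Finset.sum_nonneg fun _ _ => sq_nonneg _)
  rw [P.E_smul, P.E_add] at h4
  unfold FP.Pr
  have e1 : eta ^ 2 / (8 * ((Fintype.card I : ℝ) + 1)) * P.E (fun w => ind (S w)) =
      eta ^ 2 / (4 * ((Fintype.card I : ℝ) + 1)) * P.E (fun w => ind (S w)) / 2 := by
    field_simp
    ring
  rw [e1]
  linarith

end one

/-! ## two laws -/

section two

variable (P Q : FP Om)

/-- `l1` distance of the laws of `X` given `U` under `Q` and under `P` -/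
def dN2 (X : Om → κ) (U : Om → υ) (w : Om) : ℝ := ∑ x ∈ vals X, |Q.pv U X w x - P.pv U X w x|

theorem E_dN2_sq (hac : Q.Ac P) (X : Om → κ) (U : Om → υ) : Q.E (fun w => dN2 P Q X U w ^ 2) ≤ 2 * Q.klc P X U := by
  classical
  have h := Exit.E_dst2_sq P Q hac X U
  exact h

/-- total correlation of the tops against the own laws -/
def tot (F : I → Om → φ) (U : Om → υ) (Ui : I → Om → ω) : ℝ := ∑ i, Q.Hc (F i) (Ui i) - Q.Hc (tup F) U

/-- mass of the joint law is at most the mass of the own law -/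
theorem pv_tup_le (F : I → Om → φ) (U : Om → υ) (i : I) (w : Om) (g : I → φ) :
    Q.pv U (tup F) w g ≤ Q.pv U (F i) w (g i) :=
  Q.ce_mono (fun _ _ => ind_mono fun h => congrFun h i) w

theorem E_far_sq (F : I → Om → φ) {U : Om → υ} {Ui : I → Om → ω} (hU : ∀ i, Fac U (Ui i)) :
    Q.E (fun w => far Q F U Ui w ^ 2) ≤ 2 * tot Q F U Ui := by
  classical
  have hfac : ∀ g, Fac U (fun w => Real.log (Q.pv U (tup F) w g / ∏ i, Q.pv (Ui i) (F i) w (g i))) := by
    intro g v w h
    have h1 : Q.pv U (tup F) v g = Q.pv U (tup F) w g := Q.pv_fac U (tup F) g v w h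
    have h2 : ∀ i, Q.pv (Ui i) (F i) v (g i) = Q.pv (Ui i) (F i) w (g i) := fun i =>
      Q.pv_fac (Ui i) (F i) (g i) v w (hU i v w h)
    show Real.log (Q.pv U (tup F) v g / ∏ i, Q.pv (Ui i) (F i) v (g i)) =
      Real.log (Q.pv U (tup F) w g / ∏ i, Q.pv (Ui i) (F i) w (g i))
    simp only [h1, h2]
  have h1 : tot Q F U Ui = Q.E (fun w => ∑ g ∈ let_ F, Q.pv U (tup F) w g *
      Real.log (Q.pv U (tup F) w g / ∏ i, Q.pv (Ui i) (F i) w (g i))) := by
    rw [Q.E_congr fun w _ => sum_tup Q F (W := U) hfac w, Q.E_ce]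
    unfold tot
    rw [Finset.sum_congr rfl fun i _ => Hc_eq_E_log Q (F i) (Ui i), Hc_eq_E_log, ← Q.E_sum, ← Q.E_sub]
    refine Q.E_congr fun w hw => ?_
    have e0 : ∀ i, Q.pv (Ui i) (F i) w (tup F w i) = Q.m (fun v => (F i v, Ui i v)) w / Q.m (Ui i) w := fun i =>
      Q.pv_self (Ui i) (F i) w
    show _ = Real.log (Q.pv U (tup F) w (tup F w) / ∏ i, Q.pv (Ui i) (F i) w (tup F w i))
    rw [Q.pv_self U (tup F) w, Finset.prod_congr rfl fun i _ => e0 i]
    have a := Q.m_pos (fun v => (tup F v, U v)) hw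
    have b := Q.m_pos U hw
    have c : ∀ i, 0 < Q.m (fun v => (F i v, Ui i v)) w / Q.m (Ui i) w := fun i =>
      div_pos (Q.m_pos _ hw) (Q.m_pos _ hw)
    rw [Real.log_div (div_pos a b).ne' (Finset.prod_pos fun i _ => c i).ne', Real.log_prod (fun i _ => (c i).ne')]
    have d : ∀ i, Real.log (Q.m (Ui i) w / Q.m (fun v => (F i v, Ui i v)) w) =
        - Real.log (Q.m (fun v => (F i v, Ui i v)) w / Q.m (Ui i) w) := fun i => by
      rw [← Real.log_inv, inv_div]
    rw [Finset.sum_congr rfl fun i _ => d i, Finset.sum_neg_distrib]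
    have e : Real.log (Q.m U w / Q.m (fun v => (tup F v, U v)) w) =
        - Real.log (Q.m (fun v => (tup F v, U v)) w / Q.m U w) := by
      rw [← Real.log_inv, inv_div]
    rw [e]
    ring
  rw [h1, ← Q.E_smul]
  refine Q.E_mono fun w hw => ?_
  refine pinsker_abs (let_ F) (p := fun g => Q.pv U (tup F) w g) (q := fun g => ∏ i, Q.pv (Ui i) (F i) w (g i))
    (fun g _ => Q.pv_nonneg _ _ _ _) (fun g _ => Finset.prod_nonneg fun i _ => Q.pv_nonneg _ _ _ _) ?_ ?_ ?_
  · rw [sum_let (F := F) (h := fun g => Q.pv U (tup F) w g) fun z hz => pv_out Q _ _ _ hz]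
    exact Q.pv_sum U (tup F) hw
  · have e1 : ∑ g ∈ let_ F, ∏ i, Q.pv (Ui i) (F i) w (g i) = ∏ i, ∑ x ∈ vals (F i), Q.pv (Ui i) (F i) w x := by
      rw [Finset.prod_univ_sum]
      rfl
    rw [e1]
    exact Finset.prod_eq_one fun i _ => Q.pv_sum (Ui i) (F i) hw
  · intro g _ hz
    obtain ⟨i, _, hi⟩ := Finset.prod_eq_zero_iff.1 hz
    have h2 : Q.pv U (F i) w (g i) = 0 := Q.pv_ac (hU i) (F i) hi
    exact le_antisymm ((pv_tup_le Q F U i w g).trans h2.le) (Q.pv_nonneg _ _ _ _)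

theorem far_tri2 (hac : Q.Ac P) (F : I → Om → φ) (U : Om → υ) (Ui : I → Om → ω) {w : Om} (hw : Q.p w ≠ 0) :
    far P F U Ui w ≤ far Q F U Ui w + dN2 P Q (tup F) U w + ∑ i, dN2 P Q (F i) (Ui i) w := by
  have h1 := prod_tri (S := fun i => vals (F i)) (a := fun i x => Q.pv (Ui i) (F i) w x)
    (b := fun i x => P.pv (Ui i) (F i) w x) (fun i x => Q.pv_nonneg _ _ _ _) (fun i x => P.pv_nonneg _ _ _ _)
    (fun i => (Q.pv_sum (Ui i) (F i) hw).le) (fun i => (P.pv_sum (Ui i) (F i) (hac w hw)).le)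
  have e : ∑ g ∈ let_ F, |Q.pv U (tup F) w g - P.pv U (tup F) w g| = dN2 P Q (tup F) U w :=
    sum_let fun z hz => by rw [pv_out Q _ _ _ hz, pv_out P _ _ _ hz, sub_zero, abs_zero]
  have h2 : far P F U Ui w ≤ ∑ g ∈ let_ F, (|Q.pv U (tup F) w g - ∏ i, Q.pv (Ui i) (F i) w (g i)| +
      |Q.pv U (tup F) w g - P.pv U (tup F) w g| +
      |∏ i, Q.pv (Ui i) (F i) w (g i) - ∏ i, P.pv (Ui i) (F i) w (g i)|) := by
    refine sum_le_sum fun g _ => ?_
    have e1 : P.pv U (tup F) w g - ∏ i, P.pv (Ui i) (F i) w (g i) =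
        (Q.pv U (tup F) w g - ∏ i, Q.pv (Ui i) (F i) w (g i)) + -(Q.pv U (tup F) w g - P.pv U (tup F) w g) +
        (∏ i, Q.pv (Ui i) (F i) w (g i) - ∏ i, P.pv (Ui i) (F i) w (g i)) := by ring
    rw [e1]
    refine (abs_add_le _ _).trans (add_le_add ((abs_add_le _ _).trans ?_) le_rfl)
    rw [abs_neg]
  rw [sum_add_distrib, sum_add_distrib, e] at h2
  exact h2.trans (add_le_add le_rfl h1)

/-- **FAR TUPLES UNDER THE NEW LAW** -/
theorem far_le (hac : Q.Ac P) (F : I → Om → φ) {U : Om → υ} {Ui : I → Om → ω} (hU : ∀ i, Fac U (Ui i)) {eta : ℝ}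
    (h0 : 0 ≤ eta) {S : Om → Prop} (hS : ∀ w, Q.p w ≠ 0 → S w → eta ≤ far P F U Ui w) :
    eta ^ 2 / (2 * (Fintype.card I + 2)) * Q.Pr S ≤
      tot Q F U Ui + Q.klc P (tup F) U + ∑ i, Q.klc P (F i) (Ui i) := by
  have h1 := E_dN2_sq P Q hac (tup F) U
  have h2 : ∑ i, Q.E (fun w => dN2 P Q (F i) (Ui i) w ^ 2) ≤ ∑ i, 2 * Q.klc P (F i) (Ui i) :=
    Finset.sum_le_sum fun i _ => E_dN2_sq P Q hac (F i) (Ui i)
  rw [← Q.E_sum, ← Finset.mul_sum] at h2
  have h3 := E_far_sq Q F hU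
  have cp : (0 : ℝ) < (Fintype.card I : ℝ) + 2 := by positivity
  have h4 : Q.E (fun w => eta ^ 2 / (Fintype.card I + 2) * ind (S w)) ≤
      Q.E (fun w => far Q F U Ui w ^ 2 + dN2 P Q (tup F) U w ^ 2 + ∑ i, dN2 P Q (F i) (Ui i) w ^ 2) := by
    refine Q.E_mono fun w hw => ?_
    by_cases hs : S w
    · rw [ind_of hs, mul_one]
      have h6 := (hS w hw hs).trans (far_tri2 P Q hac F U Ui hw)
      have h7 := sq_sum_le (I := I) (a := far Q F U Ui w + dN2 P Q (tup F) U w) h0 h6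
      -- one more term
      classical
      have h8 : eta ^ 2 ≤ (far Q F U Ui w + (dN2 P Q (tup F) U w + ∑ i, dN2 P Q (F i) (Ui i) w)) ^ 2 :=
        pow_le_pow_left₀ h0 (by linarith) 2
      have h9 := sq_sum_le_card_mul_sum_sq (s := (univ : Finset (Option (Option I))))
        (f := fun o => o.elim (far Q F U Ui w) fun o' => o'.elim (dN2 P Q (tup F) U w) fun i => dN2 P Q (F i) (Ui i) w)
      rw [Fintype.sum_option, Fintype.sum_option, Fintype.sum_option, Fintype.sum_option, Finset.card_univ,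
        Fintype.card_option, Fintype.card_option] at h9
      simp only [Option.elim_none, Option.elim_some] at h9
      push_cast at h9
      rw [div_le_iff₀ cp]
      have e1 : ((Fintype.card I : ℝ) + 1 + 1) = (Fintype.card I : ℝ) + 2 := by ring
      rw [e1] at h9
      linarith
    · rw [ind_not hs, mul_zero]
      exact add_nonneg (add_nonneg (sq_nonneg _) (sq_nonneg _)) (Finset.sum_nonneg fun _ _ => sq_nonneg _)
  rw [Q.E_smul, Q.E_add, Q.E_add] at h4
  unfold FP.Pr
  have e1 : eta ^ 2 / (2 * ((Fintype.card I : ℝ) + 2)) * Q.E (fun w => ind (S w)) =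
      eta ^ 2 / ((Fintype.card I : ℝ) + 2) * Q.E (fun w => ind (S w)) / 2 := by
    field_simp
  rw [e1]
  linarith

/-- **THE DENSITY OF THE FAR TUPLES IN A SATURATED CLASS** is at most `u` outside a set of hidden points of mass
`exp (B - u eta^2/(2 (n + 2) kap))` -/
theorem sat_dens (F : I → Om → φ) {U : Om → υ} {Ui : I → Om → ω} (hU : ∀ i, Fac U (Ui i)) {X : Om → χ}
    {eta u kap B : ℝ} (h0 : 0 ≤ eta) (hk : 0 < kap) {S : Om → Prop} (hS : ∀ w, P.p w ≠ 0 → S w → eta ≤ far P F U Ui w)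
    (hsat : ∀ E : Om → Prop, Fac X E → P.Pr E ≠ 0 →
      tot (P.cond E) F U Ui + (P.cond E).klc P (tup F) U + ∑ i, (P.cond E).klc P (F i) (Ui i) ≤
        kap * (Real.log (1 / P.Pr E) + B)) :
    P.Pr (fun w => u ≤ P.ce X (fun v => ind (S v)) w) ≤
      Real.exp (B - u * eta ^ 2 / (2 * (Fintype.card I + 2) * kap)) := by
  set E : Om → Prop := fun w => u ≤ P.ce X (fun v => ind (S v)) w with hE
  by_cases hE0 : P.Pr E = 0
  · rw [hE0]; exact (Real.exp_pos _).le
  have hEf : Fac X E := fun v w hv => by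
    show (u ≤ P.ce X (fun v => ind (S v)) v) = (u ≤ P.ce X (fun v => ind (S v)) w)
    rw [P.ce_fac X (fun v => ind (S v)) v w hv]
  have cp : (0 : ℝ) < (Fintype.card I : ℝ) + 2 := by positivity
  have h1 : u ≤ (P.cond E).Pr S := dens_le (P := P) S hE0
  have h2 := far_le P (P.cond E) (FP.cond_ac _ _) F hU h0 (S := S)
    (fun w hw hs => hS w (cond_supp hE0 hw).2 hs)
  have h3 := hsat E hEf hE0
  have h4 : eta ^ 2 / (2 * ((Fintype.card I : ℝ) + 2)) * u ≤ kap * (Real.log (1 / P.Pr E) + B) :=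
    (mul_le_mul_of_nonneg_left h1 (by positivity)).trans (h2.trans h3)
  have hp : 0 < P.Pr E := lt_of_le_of_ne (P.Pr_nonneg E) (Ne.symm hE0)
  rw [← Real.log_le_iff_le_exp hp]
  have h5 : Real.log (1 / P.Pr E) = - Real.log (P.Pr E) := by rw [one_div, Real.log_inv]
  rw [h5] at h4
  have h6 : u * eta ^ 2 / (2 * ((Fintype.card I : ℝ) + 2) * kap) ≤ - Real.log (P.Pr E) + B := by
    rw [div_le_iff₀ (by positivity)]
    have h7 : eta ^ 2 / (2 * ((Fintype.card I : ℝ) + 2)) * u * (2 * ((Fintype.card I : ℝ) + 2)) = u * eta ^ 2 := by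
      field_simp
    have h8 := mul_le_mul_of_nonneg_right h4 (show (0 : ℝ) ≤ 2 * ((Fintype.card I : ℝ) + 2) by positivity)
    rw [h7] at h8
    linarith
  linarith

end two

end

end Pool.Agent.GMH.Exit3
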