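import Pool.Agent.GMH.ExitN
import Pool.Agent.GMH.Ctx

/-!
# GMH/ExitC (helper99): the exits of one kind over `Ctx` (row C6)

**`exit_ctx`** : for any events `Rm q` (removals of good tuples) which imply, on the support, the core `cv fr c κ o` with the
tables of the state `q` and alive, or the stay `SR fr p kch κ o (q + 1)` : the sum over `q < 5 T` of `P (Rm q, no stay)` is at
most `x^km` of the round of the kind.
-/

set_option autoImplicit false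
set_option linter.unusedSectionVars false

namespace Pool.Agent.GMH.ExK

open Finset Pool.Agent.PWZ Pool.Agent.M3 Pool.Agent.GMH Pool.Agent.GMH.KF Pool.Agent.GMH.CT Pool.Agent.GMH.CX
open Pool.Agent.GMH.V3 Pool.Agent.GMH.TP Pool.Agent.GMH.Dy

noncomputable section

variable (C : Ctx) (R : Rounds)

/-- the relation of the stays -/
def SRC (fr : Option (Fin 3)) (eF : ℝ) (κ : Fin 10) (o : Option (Fin 3)) (τ : ℕ) (w : C.O) : Prop :=
  SR C.h C.v C.tb fr C.p (kch R C.Lam eF) κ o τ w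

theorem exit_raw (fr : Option (Fin 3)) {c : KC} (hc : KcL R C.Lam c) (eF : ℝ) (κ : Fin 10)
    (o : Option (Fin 3)) {Rm : ℕ → C.O → Prop}
    (hR : ∀ q w, C.tb.Ps.p w ≠ 0 → Rm q w →
      (cv C.h C.v C.tb fr c κ o q w ∧ Alv C.h C.v C.tb C.p q w) ∨ SRC C R fr eF κ o (q + 1) w) :
    ∑ q ∈ range (5 * C.T), C.tb.Ps.Pr (fun w => Rm q w ∧ ¬ SRC C R fr eF κ o (q + 1) w) ≤
      180000 * C.Lam / ek R C.Lam κ.1 ^ 2 + 5 := by
  have hk : κ.1 ≤ 9 := by omega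
  exact exit_sum C.h C.tb C.H C.R C.n1 C.N11 fr C.p o (ek_pos C.hL κ.1) (gap_k C.hL hc eF hk) hR

theorem exit_ctx (hp : 14 ≤ R.kp) (fr : Option (Fin 3)) {c : KC} (hc : KcL R C.Lam c) (eF : ℝ) (κ : Fin 10)
    (o : Option (Fin 3)) {Rm : ℕ → C.O → Prop}
    (hR : ∀ q w, C.tb.Ps.p w ≠ 0 → Rm q w →
      (cv C.h C.v C.tb fr c κ o q w ∧ Alv C.h C.v C.tb C.p q w) ∨ SRC C R fr eF κ o (q + 1) w) :
    ∑ q ∈ range (5 * C.T), C.tb.Ps.Pr (fun w => Rm q w ∧ ¬ SRC C R fr eF κ o (q + 1) w) ≤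
      pw C.Lam (CT.rd R κ.1).km :=
  (exit_raw C R fr hc eF κ o hR).trans (exit_km C.hL hp)

/-- at the zones -/
theorem exit_ctz (hp : 14 ≤ R.kz) (fr : Option (Fin 3)) {c : KC} (hc : KcL R C.Lam c) (eF : ℝ) (κ : Fin 10)
    (o : Option (Fin 3)) {Rm : ℕ → C.O → Prop}
    (hR : ∀ q w, C.tb.Ps.p w ≠ 0 → Rm q w →
      (cv C.h C.v C.tb fr c κ o q w ∧ Alv C.h C.v C.tb C.p q w) ∨ SRC C R fr eF κ o (q + 1) w) :
    ∑ q ∈ range (5 * C.T), C.tb.Ps.Pr (fun w => Rm q w ∧ ¬ SRC C R fr eF κ o (q + 1) w) ≤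
      pw C.Lam (CT.rd R κ.1).kz :=
  (exit_raw C R fr hc eF κ o hR).trans (exit_kz C.hL hp)

end

end Pool.Agent.GMH.ExK
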