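import Pool.Agent.GMH.ExitC

/-!
# GMH/ExitH (helper99): THE EXITS OF THE HOT PAIRS (kind HOT of helper84 / helper22, own laws)

* `Lo`, `L2 .. S w` = log of the joint probability of the true tops of `S` given `Z` against the product of the OWN laws
  (sights `Zb i`); `lb2_bs`, `Lo_pr`, `L2_pr` : it moves; paid by `pay` = the drops of the entropies (joint law and own laws) and
  the births of the own laws;
* `hc P Z Zb F x a b w` : `exp a q_X q_Y <= p_XY` and `m_X <= exp b q_X`, `m_Y <= exp b q_Y` at the true tuple, `X`, `Y` the two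
  tops which see the vertex `x` (`hc_iff`); **`exit_h`** : `hc x a b` before and not `hc x (a - d) (b + d)` after the step has
  probability at most `900/d^2 pay`;
* run: `Eo i t q` own entropies, `births_o`, `sum_own`, `sum_dro` (`<= 9 Lam`); `hk x a b q` on the space with label tables;
  **`exit_hrun`**, **`exit_heT`** : at most `81000 Lam/d^2` for the whole run;
* stays: `SH p x a b tau` (tables of the start, RULE L, alive); **`exit_hsum`**; over `Ctx` : `HKC`, `SHC`, `HKC_iff`,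
  **`exit_hctx`** : at most `x^10`, levels `a' + 1/2 <= a`, `b + 1/2 <= b'`.
-/

set_option autoImplicit false
set_option linter.unusedSectionVars false

namespace Pool.Agent.GMH.ExK

open Finset Pool.Agent.PWZ Pool.Agent.M3 Pool.Agent.GMH Pool.Agent.GMH.Exit3 Pool.Agent.GMH.KF

noncomputable section

/-! ## own laws -/

section own

variable {Om : Type*} [Fintype Om] {I φ φ' υ υ' ω ω' : Type*} [Fintype I] (P : FP Om)

/-- log of the joint probability of the new parts against the product of the own laws -/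
def lb2 (F : I → Om → φ) (F' : I → Om → φ') (U : Om → υ) (Ui : I → Om → ω) (w : Om) : ℝ :=
  lg P (tup F') (fun v => (tup F v, U v)) w - ∑ i, lg P (F' i) (fun v => (F i v, Ui i v)) w

/-- **the births, own laws** -/
theorem lb2_bs (F : I → Om → φ) (F' : I → Om → φ') {U : Om → υ} {Ui : I → Om → ω} (hU : ∀ i, Fac U (Ui i)) {d : ℝ}
    (d0 : 0 < d) (d1 : d ≤ 1) :
    d ^ 2 / 9 * P.Pr (fun w => d ≤ |lb2 P F F' U Ui w|) ≤ ∑ i, P.Hc (F' i) (fun v => (F i v, Ui i v)) := by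
  classical
  set V : Om → (I → φ) × υ := fun v => (tup F v, U v) with hV
  have hf : ∀ i, Fac V (fun v => (F i v, Ui i v)) := fun i a b h => by
    simp only [hV, Prod.mk.injEq] at h ⊢
    exact ⟨congrFun h.1 i, hU i a b h.2⟩
  set G : Om → (I → φ') → ℝ := fun w x => (∏ i, P.pv (fun v => (F i v, Ui i v)) (F' i) w (x i)) / P.pv V (tup F') w x
    with hG
  have hGf : ∀ x, Fac V (fun w => G w x) := fun x a b h => by
    show (∏ i, P.pv (fun v => (F i v, Ui i v)) (F' i) a (x i)) / P.pv V (tup F') a x =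
      (∏ i, P.pv (fun v => (F i v, Ui i v)) (F' i) b (x i)) / P.pv V (tup F') b x
    have k1 : P.pv V (tup F') a x = P.pv V (tup F') b x := P.pv_fac V (tup F') x a b h
    rw [k1]
    congr 1
    exact Finset.prod_congr rfl fun i _ => P.pv_fac _ (F' i) (x i) a b (hf i a b h)
  have p1 : ∀ w, P.p w ≠ 0 → 0 < ∏ i, P.pv (fun v => (F i v, Ui i v)) (F' i) w (tup F' w i) := fun w hw =>
    Finset.prod_pos fun i _ => P.pv_self_pos _ (F' i) hw
  have h1 : P.E (fun w => G w (tup F' w)) ≤ 1 := by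
    rw [← P.E_ce V (fun w => G w (tup F' w))]
    refine P.E_le_const fun w hw => ?_
    rw [← sum_tup P F' (W := V) hGf w]
    have e1 : ∑ g ∈ let_ F', ∏ i, P.pv (fun v => (F i v, Ui i v)) (F' i) w (g i) = 1 := by
      have e2 : ∑ g ∈ let_ F', ∏ i, P.pv (fun v => (F i v, Ui i v)) (F' i) w (g i) =
          ∏ i, ∑ x ∈ vals (F' i), P.pv (fun v => (F i v, Ui i v)) (F' i) w x := by
        rw [Finset.prod_univ_sum]
        rfl
      rw [e2]
      exact Finset.prod_eq_one fun i _ => P.pv_sum _ (F' i) hw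
    refine le_trans (Finset.sum_le_sum fun x _ => ?_) e1.le
    show P.pv V (tup F') w x * ((∏ i, P.pv (fun v => (F i v, Ui i v)) (F' i) w (x i)) / P.pv V (tup F') w x) ≤ _
    by_cases h : P.pv V (tup F') w x = 0
    · rw [h, zero_mul]
      exact Finset.prod_nonneg fun i _ => P.pv_nonneg _ _ _ _
    · rw [mul_div_cancel₀ _ h]
  have h2 := log_pr P (u := fun w => G w (tup F' w)) (fun w hw => div_pos (p1 w hw) (P.pv_self_pos V (tup F') hw)) h1 d0 d1
  have e1 : ∀ w, P.p w ≠ 0 → Real.log (G w (tup F' w)) = - lb2 P F F' U Ui w := fun w hw => by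
    show Real.log ((∏ i, P.pv (fun v => (F i v, Ui i v)) (F' i) w (tup F' w i)) / P.pv V (tup F') w (tup F' w)) = _
    have k1 : ∀ i ∈ (univ : Finset I), P.pv (fun v => (F i v, Ui i v)) (F' i) w (tup F' w i) ≠ 0 := fun i _ =>
      (P.pv_self_pos (fun v => (F i v, Ui i v)) (F' i) hw).ne'
    rw [Real.log_div (p1 w hw).ne' (P.pv_self_pos V (tup F') hw).ne', Real.log_prod k1]
    unfold lb2 lg
    rw [neg_sub]
    rfl
  have e2 : P.Pr (fun w => d ≤ |Real.log (G w (tup F' w))|) = P.Pr (fun w => d ≤ |lb2 P F F' U Ui w|) :=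
    P.Pr_congr fun w hw => by rw [e1 w hw, abs_neg]
  have e3 : P.E (fun w => - Real.log (G w (tup F' w))) = ∑ i, P.Hc (F' i) (fun v => (F i v, Ui i v)) - P.Hc (tup F') V := by
    have : P.E (fun w => - Real.log (G w (tup F' w))) = P.E (lb2 P F F' U Ui) :=
      P.E_congr fun w hw => by rw [e1 w hw]; ring
    rw [this]
    unfold lb2
    rw [P.E_sub, E_lg, P.E_sum]
    have : ∀ i, P.E (fun w => lg P (F' i) (fun v => (F i v, Ui i v)) w) = - P.Hc (F' i) (fun v => (F i v, Ui i v)) :=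
      fun i => E_lg P _ _
    rw [Finset.sum_congr rfl fun i _ => this i, Finset.sum_neg_distrib]
    ring
  rw [e2, e3] at h2
  have h3 := P.Hc_nonneg (tup F') V
  linarith

/-- log density of the tops against the product of the own laws -/
def Lo (F : I → Om → φ) (U : Om → υ) (Ui : I → Om → ω) (w : Om) : ℝ := lg P (tup F) U w - ∑ i, lg P (F i) (Ui i) w

theorem Lo_eq {F : I → Om → φ} {F' : I → Om → φ'} (hF : ∀ i, Fac (F' i) (F i)) (U : Om → υ) (U' : Om → υ')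
    (Ui : I → Om → ω) (Ui' : I → Om → ω') {w : Om} (hw : P.p w ≠ 0) :
    Lo P F' U' Ui' w - Lo P F U Ui w = (lg P (tup F) U' w - lg P (tup F) U w) -
      ∑ i, (lg P (F i) (Ui' i) w - lg P (F i) (Ui i) w) + lb2 P F F' U' Ui' w := by
  unfold Lo lb2
  rw [lg_chain P (tup_fac hF) U' hw, Finset.sum_congr rfl fun i _ => lg_chain P (hF i) (Ui' i) hw,
    Finset.sum_add_distrib, Finset.sum_sub_distrib]
  ring

/-- **THE LOG DENSITY AGAINST THE OWN LAWS MOVES** -/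
theorem Lo_pr (hI : (Fintype.card I : ℝ) ≤ 3) {F : I → Om → φ} {F' : I → Om → φ'} (hF : ∀ i, Fac (F' i) (F i)) {U : Om → υ}
    {U' : Om → υ'} {Ui : I → Om → ω} {Ui' : I → Om → ω'} (hU : Fac U' U) (hUi : ∀ i, Fac (Ui' i) (Ui i))
    (hUU : ∀ i, Fac U' (Ui' i)) {d : ℝ} (d0 : 0 < d) (d1 : d ≤ 1) :
    d ^ 2 * P.Pr (fun w => d ≤ |Lo P F' U' Ui' w - Lo P F U Ui w|) ≤
      225 * ((P.Hc (tup F) U - P.Hc (tup F) U') + ∑ i, (P.Hc (F i) (Ui i) - P.Hc (F i) (Ui' i)) +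
        ∑ i, P.Hc (F' i) (fun v => (F i v, Ui' i v))) := by
  classical
  set e : ℝ := d / 5 with he
  have e0 : 0 < e := by positivity
  have e1 : e ≤ 1 := by rw [he]; linarith
  have h1 := lr_pr P (tup F) hU e0 e1
  have h2 : ∑ i, e ^ 2 / 9 * P.Pr (fun w => e ≤ |lg P (F i) (Ui' i) w - lg P (F i) (Ui i) w|) ≤
      ∑ i, (P.Hc (F i) (Ui i) - P.Hc (F i) (Ui' i)) := Finset.sum_le_sum fun i _ => lr_pr P (F i) (hUi i) e0 e1
  rw [← Finset.mul_sum] at h2
  have h3 := lb2_bs P F F' hUU e0 e1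
  have h4 : P.Pr (fun w => d ≤ |Lo P F' U' Ui' w - Lo P F U Ui w|) ≤
      P.Pr (fun w => e ≤ |lg P (tup F) U' w - lg P (tup F) U w|) +
      ∑ i, P.Pr (fun w => e ≤ |lg P (F i) (Ui' i) w - lg P (F i) (Ui i) w|) + P.Pr (fun w => e ≤ |lb2 P F F' U' Ui' w|) := by
    have h5 : P.Pr (fun w => d ≤ |Lo P F' U' Ui' w - Lo P F U Ui w|) ≤
        P.Pr (fun w => (e ≤ |lg P (tup F) U' w - lg P (tup F) U w| ∨
          ∃ i ∈ (univ : Finset I), e ≤ |lg P (F i) (Ui' i) w - lg P (F i) (Ui i) w|) ∨ e ≤ |lb2 P F F' U' Ui' w|) := by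
      refine P.Pr_mono fun w hw h => ?_
      by_contra hc
      push Not at hc
      obtain ⟨⟨k1, k2⟩, k3⟩ := hc
      rw [Lo_eq P hF U U' Ui Ui' hw] at h
      have k4 : |(lg P (tup F) U' w - lg P (tup F) U w) - ∑ i, (lg P (F i) (Ui' i) w - lg P (F i) (Ui i) w) +
          lb2 P F F' U' Ui' w| ≤ |lg P (tup F) U' w - lg P (tup F) U w| +
          ∑ i, |lg P (F i) (Ui' i) w - lg P (F i) (Ui i) w| + |lb2 P F F' U' Ui' w| := by
        refine (abs_add_le _ _).trans (add_le_add ((abs_sub _ _).trans (add_le_add le_rfl ?_)) le_rfl)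
        exact Finset.abs_sum_le_sum_abs _ _
      have k5 : ∑ i, |lg P (F i) (Ui' i) w - lg P (F i) (Ui i) w| ≤ 3 * e := by
        refine (Finset.sum_le_card_nsmul _ _ e fun i hi => (k2 i hi).le).trans ?_
        rw [nsmul_eq_mul, Finset.card_univ]
        exact mul_le_mul_of_nonneg_right hI e0.le
      have k6 : d = e * 5 := by rw [he]; ring
      linarith
    refine h5.trans ((P.Pr_or_le _ _).trans (add_le_add ((P.Pr_or_le _ _).trans (add_le_add le_rfl ?_)) le_rfl))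
    exact P.Pr_ex_le univ (fun i w => e ≤ |lg P (F i) (Ui' i) w - lg P (F i) (Ui i) w|)
  have h6 := mul_le_mul_of_nonneg_left h4 (show 0 ≤ e ^ 2 / 9 by positivity)
  rw [mul_add, mul_add] at h6
  have h7 : d ^ 2 * P.Pr (fun w => d ≤ |Lo P F' U' Ui' w - Lo P F U Ui w|) =
      225 * (e ^ 2 / 9 * P.Pr (fun w => d ≤ |Lo P F' U' Ui' w - Lo P F U Ui w|)) := by
    rw [he]
    ring
  rw [h7]
  linarith

end own

/-! ## hot pairs, one step -/

section hot

variable {Om : Type*} [Fintype Om] (P : FP Om) {υ υ' φ φ' ω ω' : Type*} (Z : Om → υ) (Zb : Fin 3 → Om → ω)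
  (F : Fin 3 → Om → φ)

/-- log of the probability of the tops of `S` given `Z` against the product of the own laws -/
def L2 (S : Finset (Fin 3)) (w : Om) : ℝ := Lo P (rs F S) Z (fun i => Zb i.1) w

/-- **hot pair at the vertex `v`** : the two tops which see `v` -/
def hc (v : Fin 3) (a b : ℝ) (w : Om) : Prop := a ≤ L2 P Z Zb F (opp v) w ∧ ∀ i ∈ opp v, L2 P Z Zb F {i} w ≤ b

theorem hc_mono {v : Fin 3} {a b a' b' : ℝ} (ha : a' ≤ a) (hb : b ≤ b') {w : Om} (h : hc P Z Zb F v a b w) :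
    hc P Z Zb F v a' b' w := ⟨ha.trans h.1, fun i hi => (h.2 i hi).trans hb⟩

/-- in terms of the tables of KinF -/
theorem L2_eq (S : Finset (Fin 3)) (w : Om) : L2 P Z Zb F S w =
    Real.log (pS P Z F S w (tup F w)) - ∑ i ∈ S, Real.log (qF P Zb F i w (F i w)) := by
  unfold L2 Lo
  rw [pS_self]
  congr 1
  exact Finset.sum_coe_sort S fun i => Real.log (qF P Zb F i w (F i w))

theorem L2_le (S : Finset (Fin 3)) {w : Om} (hw : P.p w ≠ 0) (a : ℝ) : a ≤ L2 P Z Zb F S w ↔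
    Real.exp a * ∏ i ∈ S, qF P Zb F i w (F i w) ≤ pS P Z F S w (tup F w) := by
  rw [L2_eq P Z Zb F S w]
  have h1 : 0 < pS P Z F S w (tup F w) := pS_pos P F S hw
  have h2 : ∀ i ∈ S, 0 < qF P Zb F i w (F i w) := fun i _ => P.pv_self_pos (Zb i) (F i) hw
  have h3 : 0 < ∏ i ∈ S, qF P Zb F i w (F i w) := Finset.prod_pos h2
  rw [← Real.log_prod fun i hi => (h2 i hi).ne', le_sub_iff_add_le, ← Real.log_exp a,
    ← Real.log_mul (Real.exp_pos _).ne' h3.ne', Real.log_exp]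
  exact Real.log_le_log_iff (mul_pos (Real.exp_pos _) h3) h1

theorem L2_ge (S : Finset (Fin 3)) {w : Om} (hw : P.p w ≠ 0) (b : ℝ) : L2 P Z Zb F S w ≤ b ↔
    pS P Z F S w (tup F w) ≤ Real.exp b * ∏ i ∈ S, qF P Zb F i w (F i w) := by
  rw [L2_eq P Z Zb F S w]
  have h1 : 0 < pS P Z F S w (tup F w) := pS_pos P F S hw
  have h2 : ∀ i ∈ S, 0 < qF P Zb F i w (F i w) := fun i _ => P.pv_self_pos (Zb i) (F i) hw
  have h3 : 0 < ∏ i ∈ S, qF P Zb F i w (F i w) := Finset.prod_pos h2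
  rw [← Real.log_prod fun i hi => (h2 i hi).ne', sub_le_iff_le_add, ← Real.log_exp b,
    ← Real.log_mul (Real.exp_pos _).ne' h3.ne', Real.log_exp]
  exact Real.log_le_log_iff h1 (mul_pos (Real.exp_pos _) h3)

variable {Z Zb F} {Z' : Om → υ'} {Zb' : Fin 3 → Om → ω'} {F' : Fin 3 → Om → φ'}

/-- what pays -/
def pay (Z : Om → υ) (Z' : Om → υ') (Zb : Fin 3 → Om → ω) (Zb' : Fin 3 → Om → ω') (F : Fin 3 → Om → φ)
    (F' : Fin 3 → Om → φ') : ℝ :=
  (P.Hc (tup F) Z - P.Hc (tup F) Z') + ∑ i, (P.Hc (F i) (Zb i) - P.Hc (F i) (Zb' i)) +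
    ∑ i, P.Hc (F' i) (fun v => (F i v, Zb' i v))

theorem L2_pr (S : Finset (Fin 3)) (hF : ∀ i, Fac (F' i) (F i)) (hZ : Fac Z' Z) (hb : ∀ i, Fac (Zb' i) (Zb i))
    (hZb : ∀ i, Fac Z' (Zb' i)) {d : ℝ} (d0 : 0 < d) (d1 : d ≤ 1) :
    d ^ 2 * P.Pr (fun w => d ≤ |L2 P Z' Zb' F' S w - L2 P Z Zb F S w|) ≤ 225 * pay P Z Z' Zb Zb' F F' := by
  have h1 := Lo_pr P (card_S S) (F := rs F S) (F' := rs F' S) (fun i => hF i.1) hZ (Ui := fun i => Zb i.1)
    (Ui' := fun i => Zb' i.1) (fun i => hb i.1) (fun i => hZb i.1) d0 d1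
  refine h1.trans (mul_le_mul_of_nonneg_left ?_ (by norm_num))
  unfold pay
  refine add_le_add (add_le_add (drop_mono P (rs_fac F S) hZ) ?_) ?_
  · have e : ∑ i : {i : Fin 3 // i ∈ S}, (P.Hc (rs F S i) (Zb i.1) - P.Hc (rs F S i) (Zb' i.1)) =
        ∑ i ∈ S, (P.Hc (F i) (Zb i) - P.Hc (F i) (Zb' i)) :=
      Finset.sum_coe_sort S fun i => P.Hc (F i) (Zb i) - P.Hc (F i) (Zb' i)
    rw [e]
    exact Finset.sum_le_sum_of_subset_of_nonneg (Finset.subset_univ S) fun i _ _ => drop_nonneg P (F i) (hb i)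
  · have e : ∑ i : {i : Fin 3 // i ∈ S}, P.Hc (rs F' S i) (fun v => (rs F S i v, Zb' i.1 v)) =
        ∑ i ∈ S, P.Hc (F' i) (fun v => (F i v, Zb' i v)) :=
      Finset.sum_coe_sort S fun i => P.Hc (F' i) (fun v => (F i v, Zb' i v))
    rw [e]
    exact Finset.sum_le_sum_of_subset_of_nonneg (Finset.subset_univ S) fun i _ _ => P.Hc_nonneg _ _

/-- **THE EXITS OF THE HOT PAIRS, ONE STEP** -/
theorem exit_h (v : Fin 3) (a b : ℝ) (hF : ∀ i, Fac (F' i) (F i)) (hZ : Fac Z' Z) (hb : ∀ i, Fac (Zb' i) (Zb i))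
    (hZb : ∀ i, Fac Z' (Zb' i)) {d : ℝ} (d0 : 0 < d) (d1 : d ≤ 1) :
    d ^ 2 * P.Pr (fun w => hc P Z Zb F v a b w ∧ ¬ hc P Z' Zb' F' v (a - d) (b + d) w) ≤
      900 * pay P Z Z' Zb Zb' F F' := by
  have h1 := L2_pr P (opp v) hF hZ hb hZb d0 d1
  have h2 : ∀ i : Fin 3, d ^ 2 * P.Pr (fun w => d ≤ |L2 P Z' Zb' F' {i} w - L2 P Z Zb F {i} w|) ≤
      225 * pay P Z Z' Zb Zb' F F' := fun i => L2_pr P {i} hF hZ hb hZb d0 d1
  have h3 : P.Pr (fun w => hc P Z Zb F v a b w ∧ ¬ hc P Z' Zb' F' v (a - d) (b + d) w) ≤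
      P.Pr (fun w => d ≤ |L2 P Z' Zb' F' (opp v) w - L2 P Z Zb F (opp v) w|) +
      ∑ i : Fin 3, P.Pr (fun w => d ≤ |L2 P Z' Zb' F' {i} w - L2 P Z Zb F {i} w|) := by
    refine (P.Pr_mono (t := fun w => d ≤ |L2 P Z' Zb' F' (opp v) w - L2 P Z Zb F (opp v) w| ∨
      ∃ i ∈ (univ : Finset (Fin 3)), d ≤ |L2 P Z' Zb' F' {i} w - L2 P Z Zb F {i} w|) fun w _ h => ?_).trans
      ((P.Pr_or_le _ _).trans (add_le_add le_rfl (P.Pr_ex_le univ fun i w =>
        d ≤ |L2 P Z' Zb' F' {i} w - L2 P Z Zb F {i} w|)))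
    obtain ⟨h4, h5⟩ := h
    by_cases h6 : a - d ≤ L2 P Z' Zb' F' (opp v) w
    · right
      have h7 : ¬ ∀ i ∈ opp v, L2 P Z' Zb' F' {i} w ≤ b + d := fun h => h5 ⟨h6, h⟩
      push Not at h7
      obtain ⟨i, hi, h8⟩ := h7
      refine ⟨i, mem_univ i, ?_⟩
      have h9 := h4.2 i hi
      exact (by linarith : d ≤ L2 P Z' Zb' F' {i} w - L2 P Z Zb F {i} w).trans (le_abs_self _)
    · left
      rw [not_le] at h6
      have h9 := h4.1
      rw [abs_sub_comm]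
      exact (by linarith : d ≤ L2 P Z Zb F (opp v) w - L2 P Z' Zb' F' (opp v) w).trans (le_abs_self _)
  have h4 := mul_le_mul_of_nonneg_left h3 (sq_nonneg d)
  rw [mul_add, Finset.mul_sum] at h4
  have h5 : ∑ i : Fin 3, d ^ 2 * P.Pr (fun w => d ≤ |L2 P Z' Zb' F' {i} w - L2 P Z Zb F {i} w|) ≤
      675 * pay P Z Z' Zb Zb' F F' := by
    refine (Finset.sum_le_card_nsmul _ _ _ fun i _ => h2 i).trans ?_
    rw [nsmul_eq_mul, Finset.card_univ, Fintype.card_fin]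
    apply le_of_eq
    push_cast
    ring
  linarith

/-- **in terms of the tables of KinF** -/
theorem hc_iff (Z : Om → υ) (Zb : Fin 3 → Om → ω) (F : Fin 3 → Om → φ) (x : Fin 3) (a b : ℝ) {w : Om} (hw : P.p w ≠ 0) :
    hc P Z Zb F x a b w ↔
      Real.exp a * ∏ i ∈ opp x, qF P Zb F i w (F i w) ≤ pS P Z F (opp x) w (tup F w) ∧
        ∀ i ∈ opp x, mF P Z F i w (F i w) ≤ Real.exp b * qF P Zb F i w (F i w) := by
  unfold hc
  rw [L2_le P Z Zb F (opp x) hw a]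
  refine and_congr_right fun _ => forall_congr' fun i => imp_congr_right fun _ => ?_
  rw [L2_ge P Z Zb F {i} hw b, pS_one, Finset.prod_singleton]
  rfl

/-- nothing is born inside a level -/
theorem pay_in (F : Fin 3 → Om → φ) : pay P Z Z' Zb Zb' F F =
    (P.Hc (tup F) Z - P.Hc (tup F) Z') + ∑ i, (P.Hc (F i) (Zb i) - P.Hc (F i) (Zb' i)) := by
  unfold pay
  rw [add_eq_left]
  exact Finset.sum_eq_zero fun i _ => V3.Hc_of_fac _ (fun a b hab => (Prod.mk.inj hab).1)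

end hot

/-! ## pull back -/

section pulh

variable {Om Om' : Type*} [Fintype Om] [Fintype Om'] {P : FP Om} {P' : FP Om'} {π : Om → Om'} {υ φ ω : Type*}
  {Z : Om' → υ} {Zb : Fin 3 → Om' → ω} {F : Fin 3 → Om' → φ}

theorem L2_pul (H : Pul P P' π) (S : Finset (Fin 3)) (w : Om) :
    L2 P (fun u => Z (π u)) (fun i u => Zb i (π u)) (fun i u => F i (π u)) S w = L2 P' Z Zb F S (π w) := by
  rw [L2_eq, L2_eq]
  have h1 := pS_pul H (Z := Z) (F := F) S w (tup (fun i u => F i (π u)) w)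
  have h2 : ∀ i, qF P (fun i u => Zb i (π u)) (fun i u => F i (π u)) i w (F i (π w)) = qF P' Zb F i (π w) (F i (π w)) :=
    fun i => H.ce (Zb i) (fun u => ind (F i u = F i (π w))) w
  rw [h1]
  congr 1
  exact Finset.sum_congr rfl fun i _ => by rw [h2 i]

theorem hc_pul (H : Pul P P' π) (x : Fin 3) (a b : ℝ) (w : Om) :
    hc P (fun u => Z (π u)) (fun i u => Zb i (π u)) (fun i u => F i (π u)) x a b w ↔ hc P' Z Zb F x a b (π w) := by
  unfold hc
  simp only [L2_pul H]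

end pulh

/-! ## the run -/

section runh

open Pool.Agent.GM Pool.Agent.GM.Harm Pool.Agent.GMH.NZ Pool.Agent.GMH.TP Pool.Agent.GMH.V3 Pool.Agent.GMH.Dy

variable {X β γ φ : Type} [Fintype X] [Fintype β] [Fintype φ] [Nonempty X] [Nonempty β]
variable {D : HD (Fin 3) X β γ φ} {al : ℝ} (h : D.Thick al)
  {v : ℕ → Finset (Fin 3) → X → (Fin 3 → β) → Pt (Fin 3) X β φ}
variable {dg : ℕ → X → ℝ} {prr : ℕ → Fin 3 → φ → φ} {T : ℕ} {Lam : ℝ}

theorem ZbQ_old (prr : ℕ → Fin 3 → φ → φ) (t q : ℕ) (i : Fin 3) (w : Pt (Fin 3) X β φ) :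
    ZbQ D v q i (old prr t w) = ZbQ D v q i w := by
  refine Prod.ext (lo_eq.2 fun I hI => LL_eq.2 ⟨rfl, fun l hl => ?_⟩) rfl
  exfalso
  have h1 := Finset.card_lt_card hI
  rw [← hl, Finset.card_erase_of_mem (mem_univ l), Finset.card_erase_of_mem (mem_univ i)] at h1
  exact lt_irrefl _ h1

/-- **the new part of a top, own sight** is paid by its birth -/
theorem births_o {n N1 : ℝ} (R : Run h (pr3 (Fin 3) n N1) (SS1 (Fin 3)) (AdmDep D) v)
    (hn : 1 ≤ n) (hN1 : 1 ≤ N1) (t : ℕ) (i : Fin 3) :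
    (D.P h (t + 1)).Hc (FQ v (t + 1) i) (fun w => (FQ v t i (old prr t w), ZbQ D v (5 * t + 5) i w)) ≤ birth h prr t i := by
  set J : Finset (Fin 3) := univ.erase i with hJ
  have hn5 : TP.nn (5 * t + 5) = t + 1 := by rw [nn_add t 5 le_rfl]; rfl
  have hc : cost (D.P h (t + 1)) (BB D (t + 1)) (LL (Um v (t + 1))) (GMH.Vt v (t + 1)) J = 0 := by
    refine R.top_cost (mem_SS1.2 (ne_univ i)) (top_max (fun hh => mem_SS1.1 hh rfl)) ?_ (t + 1)
    exact zero_lt_one.trans_le (pr3_one hn hN1 _)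
  have h1 : (D.P h (t + 1)).Hc (FQ v (t + 1) i) (fun w => (FQ v t i (old prr t w), ZbQ D v (5 * t + 5) i w)) ≤
      (D.P h (t + 1)).Hc (fun w => (GMH.Vt v (t + 1) J w, w.2.2 i))
        (fun w => (FQ v t i (old prr t w), ZbQ D v (5 * t + 5) i w)) := by
    refine (D.P h (t + 1)).Hc_mono _ ?_
    intro a b hab
    have h2 := (Prod.mk.inj (Prod.mk.inj hab).1).1
    have h3 := (Prod.mk.inj (Prod.mk.inj hab).1).2
    have h4 := (Prod.mk.inj (Prod.mk.inj hab).2).1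
    unfold FQ FT at h4 ⊢
    rw [LL_eq] at h4 ⊢
    refine ⟨Um_eq.2 ⟨h4.1, h2⟩, fun l hl => ?_⟩
    have : l = i := erase_inj' (hl.trans rfl)
    rw [this]
    exact h3
  have h2 := (D.P h (t + 1)).Hc_chain (GMH.Vt v (t + 1) J) (fun w => w.2.2 i)
    (fun w => (FQ v t i (old prr t w), ZbQ D v (5 * t + 5) i w))
  have h3 : (D.P h (t + 1)).Hc (fun w => w.2.2 i) (fun w => (FQ v t i (old prr t w), ZbQ D v (5 * t + 5) i w)) ≤
      birth h prr t i := by
    rw [← birth_BB h (prr := prr) (t := t) (J := J) (l := i) rfl]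
    refine (D.P h (t + 1)).Hc_anti _ ?_
    intro a b hab
    have h4 := (Prod.mk.inj hab).1
    have h5 := (Prod.mk.inj hab).2
    unfold FQ FT at h4
    rw [LL_eq] at h4
    have h6 : BB D (TP.nn (5 * t + 5)) J a = BB D (TP.nn (5 * t + 5)) J b := congrArg Prod.snd h5
    rw [hn5] at h6
    exact Prod.ext (h4.2 i rfl) h6
  have h4 : (D.P h (t + 1)).Hc (GMH.Vt v (t + 1) J)
      (fun w => (w.2.2 i, FQ v t i (old prr t w), ZbQ D v (5 * t + 5) i w)) ≤ 0 := by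
    rw [← hc]
    unfold cost
    refine (D.P h (t + 1)).Hc_anti _ ?_
    intro a b hab
    have g1 := (Prod.mk.inj hab).1
    have g2 := (Prod.mk.inj (Prod.mk.inj hab).2).1
    have g3 := (Prod.mk.inj (Prod.mk.inj hab).2).2
    have g4 : ∀ I, I ⊂ J → LL (φ := φ) (Um v (t + 1 + 1)) I a = LL (Um v (t + 1 + 1)) I b := by
      intro I hI
      have hp : pth I := lt_pth card3 (ne_univ i) hI
      have g5 : SL (φ := φ) v (5 * t + 5) I a = SL v (5 * t + 5) I b := lo_eq.1 (congrArg Prod.fst g3) I hI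
      unfold SL at g5
      rw [nc_add t 5 hp le_rfl] at g5
      have hr : rk I < 5 := lt_of_le_of_lt (rk_le hp) (by norm_num)
      unfold ncj at g5
      rw [if_pos hr] at g5
      exact g5
    have g6 : LL (φ := φ) (Um v (t + 1)) J a = LL (Um v (t + 1)) J b := by
      unfold FQ FT at g2
      rw [LL_eq] at g2 ⊢
      refine ⟨g2.1, fun l hl => ?_⟩
      have : l = i := erase_inj' (hl.trans rfl)
      rw [this]
      exact g1
    have g7 : BB D (TP.nn (5 * t + 5)) J a = BB D (TP.nn (5 * t + 5)) J b := congrArg Prod.snd g3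
    rw [hn5] at g7
    refine Prod.ext (lo_eq.2 fun I hI => ?_) (Prod.ext (le_eq.2 fun I hI => ?_) g7)
    · have g8 := g4 I hI
      rw [LL_eq] at g8
      exact (Um_eq.1 g8.1).2
    · rcases hI.eq_or_ssubset with rfl | hI
      · exact g6
      · have g8 := g4 I hI
        rw [LL_eq] at g8 ⊢
        exact ⟨(Um_eq.1 g8.1).1, g8.2⟩
  linarith

variable (v) in
/-- entropy of the top `i` of the time `t` given its own sight of the state `q` -/
def Eo (i : Fin 3) (t q : ℕ) : ℝ := (D.P h t).Hc (FQ v t i) (ZbQ D v q i)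

theorem Eo_anti {i : Fin 3} {t q q' : ℕ} (hq : q ≤ q') : Eo h v i t q' ≤ Eo h v i t q :=
  (D.P h t).Hc_anti _ (ZbQ_mono hq i)

theorem Eo_old (H : D.Hyp dg prr al T Lam) {t : ℕ} (ht : t < T) (q : ℕ) (i : Fin 3) :
    (D.P h (t + 1)).Hc (fun w => FQ v t i (old prr t w)) (ZbQ D v q i) = Eo h v i t q := by
  unfold Eo
  rw [← push_Hc h (H.kf_pr t ht) (FQ v t i) (ZbQ D v q i)]
  congr 1
  funext w
  rw [ZbQ_old]

/-- the next level -/
theorem Eo_succ {n N1 : ℝ} (H : D.Hyp dg prr al T Lam) (R : Run h (pr3 (Fin 3) n N1) (SS1 (Fin 3)) (AdmDep D) v)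
    (hn : 1 ≤ n) (hN1 : 1 ≤ N1) {t : ℕ} (ht : t < T) (i : Fin 3) :
    Eo h v i (t + 1) (5 * t + 5) ≤ Eo h v i t (5 * t + 5) + birth h prr t i := by
  have h1 := Hc_ch (D.P h (t + 1)) (FQ_old (v := v) prr t i) (ZbQ D v (5 * t + 5) i)
  have h2 := births_o h (prr := prr) R hn hN1 t i
  have h3 := Eo_old h (v := v) H ht (5 * t + 5) i
  have h4 : Eo h v i (t + 1) (5 * t + 5) = (D.P h (t + 1)).Hc (FQ v (t + 1) i) (ZbQ D v (5 * t + 5) i) := rfl
  rw [h4, h1]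
  linarith

/-- **the drops of the own laws** -/
theorem sum_own {n N1 : ℝ} (H : D.Hyp dg prr al T Lam) (R : Run h (pr3 (Fin 3) n N1) (SS1 (Fin 3)) (AdmDep D) v)
    (hn : 1 ≤ n) (hN1 : 1 ≤ N1) (i : Fin 3) :
    ∑ t ∈ range T, (Eo h v i t (5 * t) - Eo h v i t (5 * t + 5)) ≤ Lam := by
  have key : ∀ S ≤ T, ∑ t ∈ range S, (Eo h v i t (5 * t) - Eo h v i t (5 * t + 5)) + Eo h v i S (5 * S) ≤
      birth0 h i + ∑ t ∈ range S, birth h prr t i := by
    intro S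
    induction S with
    | zero =>
      intro _
      rw [Finset.sum_range_zero, Finset.sum_range_zero, zero_add, add_zero]
      refine le_trans (le_of_eq ?_) (TG.start_le h R hn hN1 i)
      unfold Eo TG.E0
      rw [ZbQ_0]
      rfl
    | succ S ih =>
      intro hS
      have h0 := ih (by omega)
      have h1 := Eo_succ h H R hn hN1 (show S < T by omega) i
      rw [Finset.sum_range_succ, Finset.sum_range_succ]
      have e : 5 * (S + 1) = 5 * S + 5 := by ring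
      rw [e]
      linarith
  have h1 := key T le_rfl
  have h2 := birth_le h H i
  have h3 : 0 ≤ Eo h v i T (5 * T) := FP.Hc_nonneg _ _ _
  linarith

variable (v) in
/-- all drops and births of a level -/
def dro (prr : ℕ → Fin 3 → φ → φ) (t : ℕ) : ℝ :=
  (Et h v t (5 * t) - Et h v t (5 * t + 5) + bi h prr t) + ∑ i, (Eo h v i t (5 * t) - Eo h v i t (5 * t + 5))

theorem sum_dro {n N1 : ℝ} (H : D.Hyp dg prr al T Lam) (R : Run h (pr3 (Fin 3) n N1) (SS1 (Fin 3)) (AdmDep D) v)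
    (hn : 1 ≤ n) (hN1 : 1 ≤ N1) : ∑ t ∈ range T, dro h v prr t ≤ 9 * Lam := by
  have h1 := sum_drop h H R hn hN1
  have h2 : ∑ t ∈ range T, ∑ i : Fin 3, (Eo h v i t (5 * t) - Eo h v i t (5 * t + 5)) ≤ 3 * Lam := by
    rw [Finset.sum_comm]
    refine (Finset.sum_le_card_nsmul _ _ _ fun i _ => sum_own h H R hn hN1 i).trans ?_
    rw [nsmul_eq_mul, Finset.card_univ, Fintype.card_fin]
    norm_num
  unfold dro
  rw [Finset.sum_add_distrib]
  linarith

theorem dro_part {t q q' : ℕ} (h1 : 5 * t ≤ q) (h3 : q' ≤ 5 * t + 5) :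
    (Et h v t q - Et h v t q' + bi h prr t) + ∑ i, (Eo h v i t q - Eo h v i t q') ≤ dro h v prr t := by
  have a1 := Et_anti h (v := v) (t := t) h1
  have a2 := Et_anti h (v := v) (t := t) h3
  have a3 : ∑ i, (Eo h v i t q - Eo h v i t q') ≤ ∑ i, (Eo h v i t (5 * t) - Eo h v i t (5 * t + 5)) :=
    Finset.sum_le_sum fun i _ => sub_le_sub (Eo_anti h h1) (Eo_anti h h3)
  unfold dro
  linarith

variable (v) in
/-- hot pair of the true tuple at the vertex `x`, law and tops of the time `t`, sights of the state `q` -/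
def hkq (x : Fin 3) (a b : ℝ) (t q : ℕ) (u : Pt (Fin 3) X β φ) : Prop :=
  hc (D.P h t) (ZQ D v q) (fun i => ZbQ D v q i) (FQ v t) x a b u

/-- inside a level -/
theorem hk_in (x : Fin 3) (a b : ℝ) {d : ℝ} (d0 : 0 < d) (d1 : d ≤ 1) {t q q' : ℕ} (h1 : 5 * t ≤ q) (hq : q ≤ q')
    (h3 : q' ≤ 5 * t + 5) :
    d ^ 2 * (D.P h t).Pr (fun u => hkq h v x a b t q u ∧ ¬ hkq h v x (a - d) (b + d) t q' u) ≤
      900 * dro h v prr t := by
  have k1 := exit_h (D.P h t) x a b (F := FQ v t) (F' := FQ v t) (Z := ZQ D v q) (Z' := ZQ D v q')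
    (Zb := fun i => ZbQ D v q i) (Zb' := fun i => ZbQ D v q' i) (fun i => Fac.refl _) (ZQ_mono hq)
    (fun i => ZbQ_mono hq i) (fun i => ZQ_Zb q' i) d0 d1
  rw [pay_in] at k1
  have k2 := dro_part h (v := v) (prr := prr) h1 h3
  have k3 : 0 ≤ bi h prr t := Finset.sum_nonneg fun i _ => FP.Hc_nonneg _ _ _
  refine k1.trans (mul_le_mul_of_nonneg_left ?_ (by norm_num))
  have k4 : ((D.P h t).Hc (tup (FQ v t)) (ZQ D v q) - (D.P h t).Hc (tup (FQ v t)) (ZQ D v q')) +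
      ∑ i, ((D.P h t).Hc (FQ v t i) (ZbQ D v q i) - (D.P h t).Hc (FQ v t i) (ZbQ D v q' i)) =
      (Et h v t q - Et h v t q') + ∑ i, (Eo h v i t q - Eo h v i t q') := rfl
  rw [k4]
  linarith

theorem hkq_old (H : D.Hyp dg prr al T Lam) {t : ℕ} (ht : t < T) (x : Fin 3) (a b : ℝ) (q : ℕ)
    (u : Pt (Fin 3) X β φ) : hkq h v x a b t q (old prr t u) ↔
      hc (D.P h (t + 1)) (ZQ D v q) (fun i => ZbQ D v q i) (fun i w => FQ v t i (old prr t w)) x a b u := by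
  have hp : Pul (D.P h (t + 1)) (D.P h t) (old prr t) := ⟨fun f => push_E h (H.kf_pr t ht) f⟩
  have hz : (fun w => ZQ (φ := φ) D v q (old prr t w)) = ZQ D v q := funext fun w => ZQ_old prr t q w
  have hz2 : (fun (i : Fin 3) w => ZbQ (φ := φ) D v q i (old prr t w)) = fun i => ZbQ D v q i :=
    funext fun i => funext fun w => ZbQ_old prr t q i w
  have h1 := hc_pul hp (Z := ZQ D v q) (Zb := fun i => ZbQ D v q i) (F := FQ v t) x a b u
  rw [hz, hz2] at h1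
  exact h1.symm

/-- into the next level -/
theorem hk_out {n N1 : ℝ} (H : D.Hyp dg prr al T Lam) (R : Run h (pr3 (Fin 3) n N1) (SS1 (Fin 3)) (AdmDep D) v)
    (hn : 1 ≤ n) (hN1 : 1 ≤ N1) (x : Fin 3) (a b : ℝ) {d : ℝ} (d0 : 0 < d) (d1 : d ≤ 1)
    {t q : ℕ} (ht : t < T) (h1 : 5 * t ≤ q) (hq : q ≤ 5 * t + 5) :
    d ^ 2 * (D.P h (t + 1)).Pr (fun u => hkq h v x a b t q (old prr t u) ∧
      ¬ hkq h v x (a - d) (b + d) (t + 1) (5 * t + 5) u) ≤ 900 * dro h v prr t := by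
  have k1 := exit_h (D.P h (t + 1)) x a b (F := fun i w => FQ v t i (old prr t w)) (F' := FQ v (t + 1))
    (Z := ZQ D v q) (Z' := ZQ D v (5 * t + 5)) (Zb := fun i => ZbQ D v q i) (Zb' := fun i => ZbQ D v (5 * t + 5) i)
    (fun i => FQ_old prr t i) (ZQ_mono hq) (fun i => ZbQ_mono hq i) (fun i => ZQ_Zb _ i) d0 d1
  have k2 := dro_part h (v := v) (prr := prr) h1 le_rfl
  refine le_trans (mul_le_mul_of_nonneg_left ((D.P h (t + 1)).Pr_mono fun u _ hu => ?_) (sq_nonneg d)) (k1.trans ?_)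
  · exact ⟨(hkq_old h H ht x a b q u).1 hu.1, hu.2⟩
  · refine mul_le_mul_of_nonneg_left (le_trans ?_ k2) (by norm_num)
    unfold pay
    have e1 := Et_old h (v := v) H ht q
    have e2 := Et_old h (v := v) H ht (5 * t + 5)
    have e3 : ∑ i, ((D.P h (t + 1)).Hc (fun w => FQ v t i (old prr t w)) (ZbQ D v q i) -
        (D.P h (t + 1)).Hc (fun w => FQ v t i (old prr t w)) (ZbQ D v (5 * t + 5) i)) =
        ∑ i, (Eo h v i t q - Eo h v i t (5 * t + 5)) :=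
      Finset.sum_congr rfl fun i _ => by rw [Eo_old h H ht q i, Eo_old h H ht (5 * t + 5) i]
    have e4 : ∑ i, (D.P h (t + 1)).Hc (FQ v (t + 1) i) (fun w => (FQ v t i (old prr t w), ZbQ D v (5 * t + 5) i w)) ≤
        bi h prr t := Finset.sum_le_sum fun i _ => births_o h R hn hN1 t i
    rw [e1, e2, e3]
    linarith

/-! ## the space with label tables -/

variable {W : Type} [Fintype W] (tb : Tab D prr T W)

variable (v) in
/-- hot pair of the true tuple, sights of the state `q` -/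
def hk (x : Fin 3) (a b : ℝ) (q : ℕ) (w : Om W X β) : Prop := hkq h v x a b (q / 5) q (tb.pt (q / 5) w)

theorem hk_mono {x : Fin 3} {a b a' b' : ℝ} (ha : a' ≤ a) (hb : b ≤ b') {q : ℕ} {w : Om W X β}
    (hh : hk h v tb x a b q w) : hk h v tb x a' b' q w := hc_mono _ _ _ _ ha hb hh

theorem hk_q {n N1 : ℝ} (H : D.Hyp dg prr al T Lam) (R : Run h (pr3 (Fin 3) n N1) (SS1 (Fin 3)) (AdmDep D) v)
    (hn : 1 ≤ n) (hN1 : 1 ≤ N1) (x : Fin 3) (a b : ℝ) {d : ℝ} (d0 : 0 < d) (d1 : d ≤ 1)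
    {t i j : ℕ} (ht : t < T) (hi : i < 5) (hij : i ≤ j) (hj : j ≤ 5) :
    d ^ 2 * tb.Ps.Pr (fun w => hk h v tb x a b (5 * t + i) w ∧ ¬ hk h v tb x (a - d) (b + d) (5 * t + j) w) ≤
      900 * dro h v prr t := by
  have ea : (5 * t + i) / 5 = t := by omega
  rcases Nat.lt_or_ge j 5 with hb5 | hb5
  · have eb : (5 * t + j) / 5 = t := by omega
    have h1 := hk_in h (v := v) (prr := prr) x a b d0 d1 (t := t) (q := 5 * t + i) (q' := 5 * t + j) (by omega) (by omega)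
      (by omega)
    rw [← (pul_pt h tb ht.le).Pr] at h1
    unfold hk
    rw [ea, eb]
    exact h1
  · obtain rfl : j = 5 := le_antisymm hj hb5
    have eb : (5 * t + 5) / 5 = t + 1 := by omega
    have h1 := hk_out h H R hn hN1 x a b d0 d1 ht (q := 5 * t + i) (by omega) (by omega)
    rw [← (pul_pt h tb (show t + 1 ≤ T by omega)).Pr] at h1
    unfold hk
    rw [ea, eb]
    have h2 : tb.Ps.Pr (fun w => hkq h v x a b t (5 * t + i) (tb.pt t w) ∧
        ¬ hkq h v x (a - d) (b + d) (t + 1) (5 * t + 5) (tb.pt (t + 1) w)) =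
        tb.Ps.Pr (fun w => hkq h v x a b t (5 * t + i) (old prr t (tb.pt (t + 1) w)) ∧
          ¬ hkq h v x (a - d) (b + d) (t + 1) (5 * t + 5) (tb.pt (t + 1) w)) :=
      tb.Ps.Pr_congr fun w hw => by rw [old_pt tb ht hw]
    rw [h2]
    exact h1

/-- one step -/
theorem hk_step {n N1 : ℝ} (H : D.Hyp dg prr al T Lam) (R : Run h (pr3 (Fin 3) n N1) (SS1 (Fin 3)) (AdmDep D) v)
    (hn : 1 ≤ n) (hN1 : 1 ≤ N1) (x : Fin 3) (a b : ℝ) {d : ℝ} (d0 : 0 < d) (d1 : d ≤ 1)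
    {t i : ℕ} (ht : t < T) (hi : i < 5) :
    d ^ 2 * tb.Ps.Pr (fun w => hk h v tb x a b (5 * t + i) w ∧
      (¬ hk h v tb x (a - d) (b + d) (5 * t + i + 1) w ∨ ¬ hk h v tb x (a - d) (b + d) (5 * t + 5) w)) ≤
      1800 * dro h v prr t := by
  have h1 := hk_q h tb H R hn hN1 x a b d0 d1 ht hi (Nat.le_succ i) (j := i + 1) (by omega)
  have h2 := hk_q h tb H R hn hN1 x a b d0 d1 ht hi (j := 5) (by omega) le_rfl
  have h3 : tb.Ps.Pr (fun w => hk h v tb x a b (5 * t + i) w ∧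
      (¬ hk h v tb x (a - d) (b + d) (5 * t + i + 1) w ∨ ¬ hk h v tb x (a - d) (b + d) (5 * t + 5) w)) ≤
      tb.Ps.Pr (fun w => hk h v tb x a b (5 * t + i) w ∧ ¬ hk h v tb x (a - d) (b + d) (5 * t + (i + 1)) w) +
      tb.Ps.Pr (fun w => hk h v tb x a b (5 * t + i) w ∧ ¬ hk h v tb x (a - d) (b + d) (5 * t + 5) w) := by
    refine (tb.Ps.Pr_mono fun w _ hw => ?_).trans (tb.Ps.Pr_or_le _ _)
    rcases hw with ⟨a1, a2 | a2⟩
    · exact Or.inl ⟨a1, a2⟩
    · exact Or.inr ⟨a1, a2⟩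
  have h4 := mul_le_mul_of_nonneg_left h3 (sq_nonneg d)
  rw [mul_add] at h4
  linarith

/-- **THE EXITS OF THE HOT PAIRS, RUN** -/
theorem exit_hrun {n N1 : ℝ} (H : D.Hyp dg prr al T Lam) (R : Run h (pr3 (Fin 3) n N1) (SS1 (Fin 3)) (AdmDep D) v)
    (hn : 1 ≤ n) (hN1 : 1 ≤ N1) (x : Fin 3) (a b : ℝ) {d : ℝ} (d0 : 0 < d) (d1 : d ≤ 1) :
    ∑ q ∈ range (5 * T), tb.Ps.Pr (fun w => hk h v tb x a b q w ∧
      (¬ hk h v tb x (a - d) (b + d) (q + 1) w ∨ ¬ hk h v tb x (a - d) (b + d) (5 * (q / 5) + 5) w)) ≤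
      81000 * Lam / d ^ 2 := by
  have h1 : d ^ 2 * ∑ q ∈ range (5 * T), tb.Ps.Pr (fun w => hk h v tb x a b q w ∧
      (¬ hk h v tb x (a - d) (b + d) (q + 1) w ∨ ¬ hk h v tb x (a - d) (b + d) (5 * (q / 5) + 5) w)) ≤ 81000 * Lam := by
    rw [sum_five, Finset.mul_sum]
    have h2 : ∀ t ∈ range T, d ^ 2 * ∑ i ∈ range 5, tb.Ps.Pr (fun w => hk h v tb x a b (5 * t + i) w ∧
        (¬ hk h v tb x (a - d) (b + d) (5 * t + i + 1) w ∨
          ¬ hk h v tb x (a - d) (b + d) (5 * ((5 * t + i) / 5) + 5) w)) ≤ 9000 * dro h v prr t := by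
      intro t ht
      rw [Finset.mul_sum]
      refine (Finset.sum_le_card_nsmul _ _ (1800 * dro h v prr t) fun i hi => ?_).trans ?_
      · have hi5 : i < 5 := mem_range.1 hi
        rw [show (5 * t + i) / 5 = t by omega]
        exact hk_step h tb H R hn hN1 x a b d0 d1 (mem_range.1 ht) hi5
      · rw [nsmul_eq_mul, Finset.card_range]
        push_cast
        linarith
    refine (Finset.sum_le_sum h2).trans ?_
    rw [← Finset.mul_sum]
    have h3 := sum_dro h H R hn hN1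
    linarith
  rw [le_div_iff₀ (by positivity), mul_comm]
  exact h1

/-- **THE EXITS OF THE HOT PAIRS, RULE L** -/
theorem exit_heT {n N1 : ℝ} (H : D.Hyp dg prr al T Lam) (R : Run h (pr3 (Fin 3) n N1) (SS1 (Fin 3)) (AdmDep D) v)
    (hn : 1 ≤ n) (hN1 : 1 ≤ N1) (x : Fin 3) (a b : ℝ) {d : ℝ} (d0 : 0 < d) (d1 : d ≤ 1) :
    ∑ q ∈ range (5 * T), tb.Ps.Pr (fun w => hk h v tb x a b q w ∧
      ¬ hk h v tb x (a - d) (b + d) (eT v tb (q + 1) w) w) ≤ 81000 * Lam / d ^ 2 := by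
  refine (Finset.sum_le_sum fun q _ => tb.Ps.Pr_mono fun w _ hw => ?_).trans (exit_hrun h tb H R hn hN1 x a b d0 d1)
  refine ⟨hw.1, ?_⟩
  rcases eT_succ tb q w with h1 | h1
  · left
    rw [← h1]
    exact hw.2
  · right
    rw [← h1]
    exact hw.2

/-! ## the relation of the stays -/

variable (v) in
/-- **the relation of the stays of the hot pairs** -/
def SH (p : AP) (x : Fin 3) (a b : ℝ) (τ : ℕ) (w : Om W X β) : Prop :=
  hk h v tb x a b (eT v tb τ w) w ∧ Alv h v tb p (eT v tb τ w) w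

/-- **THE EXITS AT THE REMOVALS, HOT PAIRS** -/
theorem exit_hsum {n N1 : ℝ} (H : D.Hyp dg prr al T Lam) (R : Run h (pr3 (Fin 3) n N1) (SS1 (Fin 3)) (AdmDep D) v)
    (hn : 1 ≤ n) (hN1 : 1 ≤ N1) (p : AP) (x : Fin 3) (a b : ℝ) {d : ℝ} (d0 : 0 < d) (d1 : d ≤ 1)
    {Rm : ℕ → Om W X β → Prop}
    (hR : ∀ q w, tb.Ps.p w ≠ 0 → Rm q w →
      (hk h v tb x a b q w ∧ Alv h v tb p q w) ∨ SH h v tb p x (a - d) (b + d) (q + 1) w) :
    ∑ q ∈ range (5 * T), tb.Ps.Pr (fun w => Rm q w ∧ ¬ SH h v tb p x (a - d) (b + d) (q + 1) w) ≤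
      81000 * Lam / d ^ 2 + 5 := by
  have h1 : ∀ q ∈ range (5 * T), tb.Ps.Pr (fun w => Rm q w ∧ ¬ SH h v tb p x (a - d) (b + d) (q + 1) w) ≤
      tb.Ps.Pr (fun w => hk h v tb x a b q w ∧ ¬ hk h v tb x (a - d) (b + d) (eT v tb (q + 1) w) w) +
      tb.Ps.Pr (fun w => Alv h v tb p q w ∧ ¬ Alv h v tb p (eT v tb (q + 1) w) w) := by
    intro q _
    refine (tb.Ps.Pr_mono fun w hw hh => ?_).trans (tb.Ps.Pr_or_le _ _)
    obtain ⟨a1, b1⟩ := hh
    rcases hR q w hw a1 with ⟨c1, c2⟩ | c1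
    · by_cases h2 : hk h v tb x (a - d) (b + d) (eT v tb (q + 1) w) w
      · exact Or.inr ⟨c2, fun h3 => b1 ⟨h2, h3⟩⟩
      · exact Or.inl ⟨c1, h2⟩
    · exact absurd c1 b1
  refine (Finset.sum_le_sum h1).trans ?_
  rw [Finset.sum_add_distrib]
  refine add_le_add (exit_heT h tb H R hn hN1 x a b d0 d1) ?_
  unfold FP.Pr
  rw [← tb.Ps.E_sum]
  exact tb.Ps.E_le_const fun w _ => alive_five (5 * T) w

end runh

/-! ## over `Ctx` -/

section ctx

open Pool.Agent.GMH.CT Pool.Agent.GMH.CX Pool.Agent.GMH.V3 Pool.Agent.GMH.Dy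

variable (C : Ctx)

/-- hot pair of the true tuple at the vertex `x`, sights of the state `q` -/
def HKC (x : Fin 3) (a b : ℝ) (q : ℕ) (w : C.O) : Prop := hk C.h C.v C.tb x a b q w

/-- the relation of the stays -/
def SHC (x : Fin 3) (a b : ℝ) (τ : ℕ) (w : C.O) : Prop := SH C.h C.v C.tb C.p x a b τ w

/-- in terms of the tables of KinF -/
theorem HKC_iff (x : Fin 3) (a b : ℝ) {q : ℕ} (hq : q / 5 ≤ C.T) {w : C.O} (hw : C.tb.Ps.p w ≠ 0) :
    HKC C x a b q w ↔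
      Real.exp a * ∏ i ∈ opp x, qF (C.D.P C.h (q / 5)) (fun i => TP.ZbQ C.D C.v q i) (TP.FQ C.v (q / 5)) i
          (C.tb.pt (q / 5) w) (TP.FQ C.v (q / 5) i (C.tb.pt (q / 5) w)) ≤
        pS (C.D.P C.h (q / 5)) (TP.ZQ C.D C.v q) (TP.FQ C.v (q / 5)) (opp x) (C.tb.pt (q / 5) w)
          (tup (TP.FQ C.v (q / 5)) (C.tb.pt (q / 5) w)) ∧
        ∀ i ∈ opp x, mF (C.D.P C.h (q / 5)) (TP.ZQ C.D C.v q) (TP.FQ C.v (q / 5)) i (C.tb.pt (q / 5) w)
            (TP.FQ C.v (q / 5) i (C.tb.pt (q / 5) w)) ≤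
          Real.exp b * qF (C.D.P C.h (q / 5)) (fun i => TP.ZbQ C.D C.v q i) (TP.FQ C.v (q / 5)) i
            (C.tb.pt (q / 5) w) (TP.FQ C.v (q / 5) i (C.tb.pt (q / 5) w)) :=
  hc_iff (C.D.P C.h (q / 5)) _ _ _ x a b ((pul_pt C.h C.tb hq).ne hw)

/-- **THE EXITS OF THE HOT PAIRS OVER `Ctx`** : levels `a' + 1/2 ≤ a`, `b + 1/2 ≤ b'` -/
theorem exit_hctx (x : Fin 3) {a b a' b' : ℝ} (ha : a' + 1 / 2 ≤ a) (hb : b + 1 / 2 ≤ b') {Rm : ℕ → C.O → Prop}
    (hR : ∀ q w, C.tb.Ps.p w ≠ 0 → Rm q w →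
      (HKC C x a b q w ∧ Alv C.h C.v C.tb C.p q w) ∨ SHC C x a' b' (q + 1) w) :
    ∑ q ∈ range (5 * C.T), C.tb.Ps.Pr (fun w => Rm q w ∧ ¬ SHC C x a' b' (q + 1) w) ≤ pw C.Lam 10 := by
  have hL := C.hL
  have h1 := exit_hsum C.h C.tb C.H C.R C.n1 C.N11 C.p x a b (d := 1 / 2) (by norm_num) (by norm_num)
    (Rm := fun q w => Rm q w ∧ ¬ SHC C x a' b' (q + 1) w) (fun q w hw hh => Or.inl ((hR q w hw hh.1).resolve_right hh.2))
  have h2 : ∑ q ∈ range (5 * C.T), C.tb.Ps.Pr (fun w => Rm q w ∧ ¬ SHC C x a' b' (q + 1) w) ≤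
      81000 * C.Lam / (1 / 2) ^ 2 + 5 := by
    refine (Finset.sum_le_sum fun q _ => C.tb.Ps.Pr_mono fun w _ hh => ?_).trans h1
    exact ⟨hh, fun h3 => hh.2 ⟨hk_mono C.h C.tb (by linarith) (by linarith) h3.1, h3.2⟩⟩
  refine h2.trans ?_
  have h3 : pw C.Lam 10 = pw C.Lam 9 * (2 * C.Lam) := pw_succ C.Lam 9
  have h4 : (4 : ℝ) ^ 9 ≤ pw C.Lam 9 := pw_ge hL 9
  rw [h3]
  have h5 : (4 : ℝ) ^ 9 * (2 * C.Lam) ≤ pw C.Lam 9 * (2 * C.Lam) := mul_le_mul_of_nonneg_right h4 (by linarith)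
  norm_num at h5 ⊢
  linarith

end ctx

end

end Pool.Agent.GMH.ExK
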