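import Pool.Agent.GMH.Dyn

/-!
# GMH/HotK (helper22): THE HOT PAIR KINDS `HOT_v` (H3.STAT (gamma), note 4068; helper84 49443), statics

The two tops `X`, `Y` which see the vertex `i`, `q` = own laws, `m` = laws given ALL thin letters, `p` = law of the pair given
all thin letters.
* `hotQ a s i w f` : `exp a * q_X q_Y ≤ p_XY`, `m_X ≤ s q_X`, `m_Y ≤ s q_Y`; no other condition (`R0`, bad tops inside);
* `hotQ_fac`, `hotQ_mono`, `hotQ_dep` (a function of the two tops);
* `hotQ_row`, `hotQ_row_ce` : EVERY row has own-law mass at most `s exp (-a)`; `hotQ_mrow` : marginal mass at most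
  `s ^ 2 exp (-a)`;
* `hotM` : the same with the marginals only, `hotM_row`.
For the run: `hotq i a s q w` the true pair is hot, tables of the state `q`; `hotk i a s τ w` tables of the start `τ` (RULE L);
`hotq_log` : `hotq` in logarithms (`pq2` and the two singles `sgl`); `KdHot i a s uB u0` as `Kd` (single vertex `i`).
-/

set_option autoImplicit false
set_option linter.unusedSectionVars false

namespace Pool.Agent.GMH.KF

open Finset Pool.Agent.PWZ Pool.Agent.M3 Pool.Agent.GMH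

noncomputable section

section fr

variable {Om : Type*} [Fintype Om] (P : FP Om) {α β φ : Type*} (Z : Om → β) (Zb : Fin 3 → Om → α) (F : Fin 3 → Om → φ)

/-- **the pair of the vertex `i` is hot** at the levels `a`, `s` -/
def hotQ (a s : ℝ) (i : Fin 3) (w : Om) (f : Fin 3 → φ) : Prop :=
  (∀ l ∈ opp i, 0 < qF P Zb F l w (f l) ∧ mF P Z F l w (f l) ≤ s * qF P Zb F l w (f l)) ∧
    Real.exp a * ∏ l ∈ opp i, qF P Zb F l w (f l) ≤ pS P Z F (opp i) w f

/-- the same against the marginals -/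
def hotM (a : ℝ) (i : Fin 3) (w : Om) (f : Fin 3 → φ) : Prop :=
  (∀ l ∈ opp i, 0 < mF P Z F l w (f l)) ∧ Real.exp a * ∏ l ∈ opp i, mF P Z F l w (f l) ≤ pS P Z F (opp i) w f

theorem pS_dep (S : Finset (Fin 3)) (w : Om) {f g : Fin 3 → φ} (h : ∀ l ∈ S, f l = g l) : pS P Z F S w f = pS P Z F S w g := by
  unfold pS
  refine P.ce_congr (fun u _ => ?_) w
  congr 1
  exact propext (forall_congr' fun l => forall_congr' fun hl => by rw [h l hl])

/-- it depends on the two tops only -/
theorem hotQ_dep (a s : ℝ) (i : Fin 3) (w : Om) {f g : Fin 3 → φ} (h : ∀ l ∈ opp i, f l = g l) :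
    hotQ P Z Zb F a s i w f ↔ hotQ P Z Zb F a s i w g := by
  unfold hotQ
  rw [pS_dep P Z F _ w h, Finset.prod_congr rfl fun l hl => by rw [h l hl]]
  refine and_congr_left fun _ => forall_congr' fun l => forall_congr' fun hl => ?_
  rw [h l hl]

variable {Z Zb}

theorem hotQ_fac (hZ : ∀ i, Fac Z (Zb i)) (a s : ℝ) (i : Fin 3) (f : Fin 3 → φ) :
    Fac Z (fun w => hotQ P Z Zb F a s i w f) := by
  intro u w e
  have h1 : pS P Z F (opp i) u f = pS P Z F (opp i) w f := pS_fac P F _ f u w e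
  have h2 : ∀ l x, mF P Z F l u x = mF P Z F l w x := fun l x => mF_fac P F l x u w e
  have h3 : ∀ l x, qF P Zb F l u x = qF P Zb F l w x := fun l x => qF_fac P F hZ l x u w e
  show hotQ P Z Zb F a s i u f = hotQ P Z Zb F a s i w f
  unfold hotQ
  simp only [h1, h2, h3]

theorem hotM_fac (a : ℝ) (i : Fin 3) (f : Fin 3 → φ) : Fac Z (fun w => hotM P Z F a i w f) := by
  intro u w e
  have h1 : pS P Z F (opp i) u f = pS P Z F (opp i) w f := pS_fac P F _ f u w e
  have h2 : ∀ l x, mF P Z F l u x = mF P Z F l w x := fun l x => mF_fac P F l x u w e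
  show hotM P Z F a i u f = hotM P Z F a i w f
  unfold hotM
  simp only [h1, h2]

theorem qF_nn (i : Fin 3) (w : Om) (x : φ) : 0 ≤ qF P Zb F i w x := P.pv_nonneg _ _ _ _

variable {P F}

theorem hotQ_mono {a a' s s' : ℝ} (h : a' ≤ a) (hs : s ≤ s') {i : Fin 3} {w : Om} {f : Fin 3 → φ}
    (hf : hotQ P Z Zb F a s i w f) : hotQ P Z Zb F a' s' i w f := by
  refine ⟨fun l hl => ⟨(hf.1 l hl).1, (hf.1 l hl).2.trans (mul_le_mul_of_nonneg_right hs (hf.1 l hl).1.le)⟩, ?_⟩
  exact (mul_le_mul_of_nonneg_right (Real.exp_le_exp.2 h) (Finset.prod_nonneg fun l _ => qF_nn P F l w (f l))).trans hf.2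

/-- hot against the own laws is hot against the marginals -/
theorem hotQ_M {a s : ℝ} (hs : 0 < s) {i : Fin 3} {w : Om} {f : Fin 3 → φ} (hf : hotQ P Z Zb F a s i w f) :
    hotM P Z F (a - 2 * Real.log s) i w f := by
  have hc : (opp i).card = 2 := by
    have key : ∀ i : Fin 3, (univ.erase i : Finset (Fin 3)).card = 2 := by decide
    exact key i
  have hq : 0 < ∏ l ∈ opp i, qF P Zb F l w (f l) := Finset.prod_pos fun l hl => (hf.1 l hl).1
  have hp : 0 < pS P Z F (opp i) w f := lt_of_lt_of_le (mul_pos (Real.exp_pos a) hq) hf.2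
  refine ⟨fun l hl => ?_, ?_⟩
  · have h1 := pS_anti P F (Finset.singleton_subset_iff.2 hl) w f (Z := Z)
    rw [pS_one] at h1
    exact hp.trans_le h1
  · have h1 : ∏ l ∈ opp i, mF P Z F l w (f l) ≤ ∏ l ∈ opp i, (s * qF P Zb F l w (f l)) :=
      Finset.prod_le_prod (fun l _ => mF_nn P F l w (f l)) fun l hl => (hf.1 l hl).2
    rw [Finset.prod_mul_distrib, Finset.prod_const, hc] at h1
    refine (mul_le_mul_of_nonneg_left h1 (Real.exp_pos _).le).trans (le_trans (le_of_eq ?_) hf.2)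
    rw [← mul_assoc]
    congr 1
    rw [show a - 2 * Real.log s = a + -(Real.log s + Real.log s) by ring, Real.exp_add, Real.exp_neg, Real.exp_add,
      Real.exp_log hs, mul_assoc]
    have : (s * s)⁻¹ * s ^ 2 = 1 := by
      field_simp
    rw [this, mul_one]

variable (P F)

/-- the pairs of one row -/
theorem row_pS {i j k : Fin 3} (hi : opp i = {j, k}) (hjk : j ≠ k) (w : Om) (f : Fin 3 → φ) :
    ∑ y ∈ vals (F k), pS P Z F (opp i) w (Function.update f k y) ≤ mF P Z F j w (f j) := by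
  classical
  unfold pS mF FP.pv
  rw [← P.ce_sum]
  refine P.ce_mono (fun u _ => ?_) w
  have h1 : ∀ y ∈ vals (F k), ind (∀ l ∈ opp i, F l u = Function.update f k y l) ≤ ind (F j u = f j) * ind (F k u = y) := by
    intro y _
    rw [← ind_and]
    refine ind_mono fun h => ⟨?_, ?_⟩
    · have := h j (by rw [hi]; simp)
      rwa [Function.update_of_ne hjk] at this
    · have := h k (by rw [hi]; simp)
      rwa [Function.update_self] at this
  refine (Finset.sum_le_sum h1).trans ?_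
  rw [← Finset.mul_sum]
  refine mul_le_of_le_one_right (ind_nonneg _) ?_
  have h2 : ∑ y ∈ vals (F k), ind (F k u = y) = 1 := by
    rw [Finset.sum_eq_single (F k u) (fun y _ hy => ind_not fun e => hy e.symm)
      (fun h => absurd (FP.mem_vals (F k) u) h), ind_of rfl]
  exact h2.le

/-- a row against any two weights -/
theorem row_gen {i j k : Fin 3} (hi : opp i = {j, k}) (hjk : j ≠ k) {w : Om} {f : Fin 3 → φ} {R : (Fin 3 → φ) → Prop}
    {e s q0 : ℝ} {g : φ → ℝ} (he : 0 < e) (hq : 0 < q0) (hm : mF P Z F j w (f j) ≤ s * q0)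
    (hR : ∀ y, R (Function.update f k y) → e * (q0 * g y) ≤ pS P Z F (opp i) w (Function.update f k y)) :
    ∑ y ∈ vals (F k), ind (R (Function.update f k y)) * g y ≤ s / e := by
  have h1 : ∀ y ∈ vals (F k), ind (R (Function.update f k y)) * g y ≤
      1 / (e * q0) * pS P Z F (opp i) w (Function.update f k y) := by
    intro y _
    by_cases h : R (Function.update f k y)
    · rw [ind_of h, one_mul, one_div, ← div_eq_inv_mul, le_div_iff₀ (mul_pos he hq)]
      refine le_trans (le_of_eq ?_) (hR y h)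
      ring
    · rw [ind_not h, zero_mul]
      exact mul_nonneg (by positivity) (pS_nn P F _ w _)
  refine (Finset.sum_le_sum h1).trans ?_
  rw [← Finset.mul_sum]
  refine (mul_le_mul_of_nonneg_left ((row_pS P F hi hjk w f).trans hm) (by positivity)).trans (le_of_eq ?_)
  field_simp

/-- **EVERY ROW OF THE HOT RELATION IS THIN** : own-law mass at most `s exp (-a)` -/
theorem hotQ_row (a : ℝ) {s : ℝ} (hs : 0 ≤ s) {i j k : Fin 3} (hi : opp i = {j, k}) (hjk : j ≠ k) (w : Om)
    (f : Fin 3 → φ) :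
    ∑ y ∈ vals (F k), ind (hotQ P Z Zb F a s i w (Function.update f k y)) * qF P Zb F k w y ≤ s * Real.exp (-a) := by
  have e1 : s * Real.exp (-a) = s / Real.exp a := by rw [Real.exp_neg, div_eq_mul_inv]
  rw [e1]
  by_cases h : 0 < qF P Zb F j w (f j) ∧ mF P Z F j w (f j) ≤ s * qF P Zb F j w (f j)
  · refine row_gen P F hi hjk (Real.exp_pos a) h.1 h.2 (R := fun g => hotQ P Z Zb F a s i w g) fun y hy => ?_
    have h2 := hy.2
    rw [hi, Finset.prod_pair hjk, Function.update_of_ne hjk, Function.update_self, ← hi] at h2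
    exact h2
  · have h1 : ∀ y ∈ vals (F k), ind (hotQ P Z Zb F a s i w (Function.update f k y)) * qF P Zb F k w y = 0 := by
      intro y _
      rw [ind_not, zero_mul]
      intro h3
      have h4 := h3.1 j (by rw [hi]; simp)
      rw [Function.update_of_ne hjk] at h4
      exact h h4
    rw [Finset.sum_eq_zero h1]
    positivity

/-- **the same as a mass in the class of the far top** -/
theorem hotQ_row_ce (a : ℝ) {s : ℝ} (hs : 0 ≤ s) {i j k : Fin 3} (hi : opp i = {j, k}) (hjk : j ≠ k) (w : Om)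
    (f : Fin 3 → φ) :
    P.ce (Zb k) (fun u => ind (hotQ P Z Zb F a s i w (Function.update f k (F k u)))) w ≤ s * Real.exp (-a) := by
  have h1 := P.sum_pv (W := Zb k) (F k) (F := fun _ y => ind (hotQ P Z Zb F a s i w (Function.update f k y)))
    (fun _ _ _ _ => rfl) w
  rw [← h1]
  refine le_trans (le_of_eq ?_) (hotQ_row P F (Z := Z) (Zb := Zb) a hs hi hjk w f)
  exact Finset.sum_congr rfl fun y _ => mul_comm _ _

/-- the marginal mass of a row -/
theorem hotM_row (a : ℝ) {i j k : Fin 3} (hi : opp i = {j, k}) (hjk : j ≠ k) (w : Om) (f : Fin 3 → φ) :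
    ∑ y ∈ vals (F k), ind (hotM P Z F a i w (Function.update f k y)) * mF P Z F k w y ≤ Real.exp (-a) := by
  have e1 : Real.exp (-a) = 1 / Real.exp a := by rw [Real.exp_neg, one_div]
  rw [e1]
  by_cases h : 0 < mF P Z F j w (f j)
  · refine row_gen P F hi hjk (Real.exp_pos a) h (le_of_eq (one_mul _).symm) (R := fun g => hotM P Z F a i w g)
      fun y hy => ?_
    have h2 := hy.2
    rw [hi, Finset.prod_pair hjk, Function.update_of_ne hjk, Function.update_self, ← hi] at h2
    exact h2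
  · have h1 : ∀ y ∈ vals (F k), ind (hotM P Z F a i w (Function.update f k y)) * mF P Z F k w y = 0 := by
      intro y _
      rw [ind_not, zero_mul]
      intro h3
      have h4 := h3.1 j (by rw [hi]; simp)
      rw [Function.update_of_ne hjk] at h4
      exact h h4
    rw [Finset.sum_eq_zero h1]
    positivity

/-- the marginal mass of a row of `hotQ` -/
theorem hotQ_mrow (a : ℝ) {s : ℝ} (hs : 0 < s) {i j k : Fin 3} (hi : opp i = {j, k}) (hjk : j ≠ k) (w : Om)
    (f : Fin 3 → φ) :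
    ∑ y ∈ vals (F k), ind (hotQ P Z Zb F a s i w (Function.update f k y)) * mF P Z F k w y ≤ s ^ 2 * Real.exp (-a) := by
  refine le_trans (Finset.sum_le_sum fun y _ => mul_le_mul_of_nonneg_right (ind_mono fun hh => hotQ_M hs hh)
    (mF_nn P F k w y)) ((hotM_row P F (Z := Z) (a - 2 * Real.log s) hi hjk w f).trans (le_of_eq ?_))
  rw [show -(a - 2 * Real.log s) = Real.log s + Real.log s + -a by ring, Real.exp_add, Real.exp_add, Real.exp_log hs]
  ring

/-! ### at the true tuple -/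

theorem true_q {w : Om} (hw : P.p w ≠ 0) (l : Fin 3) : 0 < qF P Zb F l w (F l w) := P.pv_self_pos (Zb l) (F l) hw

theorem true_m {w : Om} (hw : P.p w ≠ 0) (l : Fin 3) : 0 < mF P Z F l w (F l w) := P.pv_self_pos Z (F l) hw

theorem true_p {w : Om} (hw : P.p w ≠ 0) (S : Finset (Fin 3)) : 0 < pS P Z F S w (tup F w) := by
  have h1 : P.m (fun u => (tup F u, Z u)) w ≤ P.E (fun u => ind (Z u = Z w) * ind (∀ i ∈ S, F i u = tup F w i)) := by
    unfold FP.m
    refine P.E_mono fun u _ => ?_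
    rw [← ind_and]
    refine ind_mono fun hh => ?_
    rw [Prod.mk.injEq] at hh
    exact ⟨hh.2, fun i _ => congrFun hh.1 i⟩
  unfold pS FP.ce
  exact div_pos ((P.m_pos _ hw).trans_le h1) (P.m_pos Z hw)

/-- the two tops which see the vertex `i`, as tops of the frame `Fo` -/
theorem pv_Fo (i : Fin 3) (w : Om) : P.pv Z (tup (Fo F i)) w (tup (Fo F i) w) = pS P Z F (opp i) w (tup F w) := by
  unfold pS FP.pv
  refine P.ce_congr (fun u _ => ?_) w
  congr 1
  refine propext ⟨fun hh l hl => ?_, fun hh => funext fun l => ?_⟩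
  · have h1 : Fo F i l u = Fo F i l w := congrFun hh l
    have hne : l ≠ i := Finset.ne_of_mem_erase hl
    unfold Fo at h1
    rw [if_neg hne, if_neg hne] at h1
    exact Option.some.inj h1
  · show Fo F i l u = Fo F i l w
    unfold Fo
    by_cases hl : l = i
    · rw [if_pos hl, if_pos hl]
    · rw [if_neg hl, if_neg hl]
      exact congrArg some (hh l (Finset.mem_erase.2 ⟨hl, mem_univ l⟩))

theorem pv_Fo1 {i l : Fin 3} (hl : l ≠ i) (w : Om) : P.pv (Zb l) (Fo F i l) w (Fo F i l w) = qF P Zb F l w (F l w) := by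
  unfold qF FP.pv
  refine P.ce_congr (fun u _ => ?_) w
  congr 1
  unfold Fo
  rw [if_neg hl, if_neg hl]
  exact propext ⟨fun hh => Option.some.inj hh, fun hh => congrArg some hh⟩

theorem pv_Fo0 (i : Fin 3) {w : Om} (hw : P.p w ≠ 0) : P.pv (Zb i) (Fo F i i) w (Fo F i i w) = 1 := by
  unfold FP.pv
  have h1 : P.ce (Zb i) (fun u => ind (Fo F i i u = Fo F i i w)) w = P.ce (Zb i) (fun _ => 1) w :=
    P.ce_congr (fun u _ => ind_of (by unfold Fo; rw [if_pos rfl, if_pos rfl])) w
  rw [h1, P.ce_const _ _ hw]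

/-- **the log density of the two tops** -/
theorem psC_Fo (i : Fin 3) {w : Om} (hw : P.p w ≠ 0) : psC P Z Zb (Fo F i) w (tup (Fo F i) w) =
    Real.log (pS P Z F (opp i) w (tup F w) / ∏ l ∈ opp i, qF P Zb F l w (F l w)) := by
  unfold psC
  rw [pv_Fo P F, ← Finset.mul_prod_erase univ _ (mem_univ i)]
  have h1 : P.pv (Zb i) (Fo F i i) w (tup (Fo F i) w i) = 1 := pv_Fo0 P F i hw
  rw [h1, one_mul]
  congr 2
  exact Finset.prod_congr rfl fun l hl => pv_Fo1 P F (Finset.ne_of_mem_erase hl) w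

/-- **hot at the true tuple, in logarithms** -/
theorem hotQ_log {a s : ℝ} (hs : 0 < s) (i : Fin 3) {w : Om} (hw : P.p w ≠ 0) : hotQ P Z Zb F a s i w (tup F w) ↔
    a ≤ psC P Z Zb (Fo F i) w (tup (Fo F i) w) ∧
      ∀ l ∈ opp i, Real.log (mF P Z F l w (F l w) / qF P Zb F l w (F l w)) ≤ Real.log s := by
  have hq : 0 < ∏ l ∈ opp i, qF P Zb F l w (F l w) := Finset.prod_pos fun l _ => true_q P F hw l
  have hp := true_p P F (Z := Z) hw (opp i)
  rw [psC_Fo P F i hw, Real.le_log_iff_exp_le (div_pos hp hq), le_div_iff₀ hq]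
  unfold hotQ
  constructor
  · rintro ⟨h1, h2⟩
    refine ⟨h2, fun l hl => Real.log_le_log (div_pos (true_m P F hw l) (true_q P F hw l)) ?_⟩
    rw [div_le_iff₀ (true_q P F hw l)]
    exact (h1 l hl).2
  · rintro ⟨h1, h2⟩
    refine ⟨fun l hl => ⟨true_q P F hw l, ?_⟩, h1⟩
    have h3 := (Real.log_le_log_iff (div_pos (true_m P F hw l) (true_q P F hw l)) hs).1 (h2 l hl)
    rwa [div_le_iff₀ (true_q P F hw l)] at h3

end fr

end

end Pool.Agent.GMH.KF

namespace Pool.Agent.GMH.Dy

open Finset Pool.Agent.PWZ Pool.Agent.M3 Pool.Agent.GM Pool.Agent.GM.Harm Pool.Agent.GMH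
open Pool.Agent.GMH.TP Pool.Agent.GMH.TD Pool.Agent.GMH.CK Pool.Agent.GMH.MV Pool.Agent.GMH.MVI Pool.Agent.GMH.UV
open Pool.Agent.GMH.KF

noncomputable section

variable {X β γ φ υ : Type} [Fintype X] [Fintype β] [Fintype φ] [Nonempty X] [Nonempty β]
variable {D : HD (Fin 3) X β γ φ} {al : ℝ} (h : D.Thick al) (v : ℕ → Finset (Fin 3) → X → (Fin 3 → β) → υ)
variable {prr : ℕ → Fin 3 → φ → φ} {T : ℕ} {W : Type} [Fintype W] (tb : Tab D prr T W)

/-- **the true pair of the vertex `i` is hot**, tables of the state `q` -/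
def hotq (i : Fin 3) (a s : ℝ) (q : ℕ) (w : Om W X β) : Prop :=
  hotQ (D.P h (q / 5)) (ZQ D v q) (ZbQ D v q) (FQ v (q / 5)) a s i (tb.pt (q / 5) w) (tup (FQ v (q / 5)) (tb.pt (q / 5) w))

/-- log of the law of the true top `l` given all thin letters over its own law, tables of `q` -/
def sgl (l : Fin 3) (q : ℕ) (w : Om W X β) : ℝ :=
  Real.log (mF (D.P h (q / 5)) (ZQ D v q) (FQ v (q / 5)) l (tb.pt (q / 5) w) (FQ v (q / 5) l (tb.pt (q / 5) w)) /
    qF (D.P h (q / 5)) (ZbQ D v q) (FQ v (q / 5)) l (tb.pt (q / 5) w) (FQ v (q / 5) l (tb.pt (q / 5) w)))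

/-- tables of the start `τ` (RULE L) -/
def hotk (i : Fin 3) (a s : ℝ) (τ : ℕ) (w : Om W X β) : Prop := hotq h v tb i a s (eT v tb τ w) w

/-- **the kind `HOT_i`** : unsigned, single vertex `i` -/
def KdHot (i : Fin 3) (a s uB u0 : ℝ) : Kd (Om W X β) :=
  ⟨fun _ => hotk h v tb i a s, fun _ => hotk h v tb i a s, fun _ _ => True, fun _ => ps2 h v tb i, {i}, uB, u0,
    fun _ _ _ _ h => h, fun _ _ h => h, fun _ _ h => h, fun _ => hotk h v tb i a s, fun _ _ _ _ h => h, fun _ _ _ _ h => h⟩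

/-- **`hotq` in logarithms** -/
theorem hotq_log {i : Fin 3} {a s : ℝ} (hs : 0 < s) {q : ℕ} {w : Om W X β} (hw : (D.P h (q / 5)).p (tb.pt (q / 5) w) ≠ 0) :
    hotq h v tb i a s q w ↔ a ≤ pq2 h v tb i q w ∧ ∀ l ∈ opp i, sgl h v tb l q w ≤ Real.log s :=
  hotQ_log (D.P h (q / 5)) (FQ v (q / 5)) hs i hw

theorem hotq_mono {i : Fin 3} {a a' s s' : ℝ} (ha : a' ≤ a) (hs : s ≤ s') {q : ℕ} {w : Om W X β}
    (hh : hotq h v tb i a s q w) : hotq h v tb i a' s' q w := hotQ_mono ha hs hh

theorem hotk_mono {i : Fin 3} {a a' s s' : ℝ} (ha : a' ≤ a) (hs : s ≤ s') {τ : ℕ} {w : Om W X β}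
    (hh : hotk h v tb i a s τ w) : hotk h v tb i a' s' τ w := hotQ_mono ha hs hh

end

end Pool.Agent.GMH.Dy
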