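import Pool.Agent.GMH.ExitH
import Pool.Agent.GMH.HotK

/-!
# GMH/ExitHot (helper99): the exits of the hot pairs in the words of `GMH/HotK` (helper22)

* `hkc_hotq` : `HKC C i a (log s) q` is `hotq i a s q`;
* **`exit_hot`** : for any events `Rm q` which imply on the support `hotq i a s q` and alive, or the stay `hotk i a' s' (q + 1)`
  and alive: the sum over `q < 5 T` of `P (Rm q, no stay)` is at most `x^10`, for all levels `a' + 1/2 <= a`, `2 s <= s'`,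
  whatever `a` and `s` are.
-/

set_option autoImplicit false
set_option linter.unusedSectionVars false

namespace Pool.Agent.GMH.ExK

open Finset Pool.Agent.PWZ Pool.Agent.M3 Pool.Agent.GMH Pool.Agent.GMH.KF Pool.Agent.GMH.CT Pool.Agent.GMH.CX
open Pool.Agent.GMH.V3 Pool.Agent.GMH.TP Pool.Agent.GMH.Dy

noncomputable section

/-- one frame -/
theorem hc_hotQ {Om : Type*} [Fintype Om] (P : FP Om) {υ ω φ : Type*} (Z : Om → υ) (Zb : Fin 3 → Om → ω)
    (F : Fin 3 → Om → φ) (i : Fin 3) (a : ℝ) {s : ℝ} (hs : 0 < s) {w : Om} (hw : P.p w ≠ 0) :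
    hc P Z Zb F i a (Real.log s) w ↔ hotQ P Z Zb F a s i w (tup F w) := by
  rw [hc_iff P Z Zb F i a (Real.log s) hw, Real.exp_log hs]
  unfold hotQ
  constructor
  · rintro ⟨h1, h2⟩
    exact ⟨fun l hl => ⟨true_q P F hw l, h2 l hl⟩, h1⟩
  · rintro ⟨h1, h2⟩
    exact ⟨h2, fun l hl => (h1 l hl).2⟩

variable (C : Ctx)

theorem hkc_hotq (i : Fin 3) (a : ℝ) {s : ℝ} (hs : 0 < s) {q : ℕ} (hq : q / 5 ≤ C.T) {w : C.O} (hw : C.tb.Ps.p w ≠ 0) :
    HKC C i a (Real.log s) q w ↔ hotq C.h C.v C.tb i a s q w :=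
  hc_hotQ (C.D.P C.h (q / 5)) _ _ _ i a hs ((pul_pt C.h C.tb hq).ne hw)

/-- the stays -/
def SHt (i : Fin 3) (a s : ℝ) (τ : ℕ) (w : C.O) : Prop :=
  hotk C.h C.v C.tb i a s τ w ∧ Alv C.h C.v C.tb C.p (eT C.v C.tb τ w) w

theorem shc_hotk (i : Fin 3) (a : ℝ) {s : ℝ} (hs : 0 < s) {q : ℕ} (hq : q < 5 * C.T) {w : C.O} (hw : C.tb.Ps.p w ≠ 0) :
    SHC C i a (Real.log s) (q + 1) w ↔ SHt C i a s (q + 1) w := by
  have h1 : eT C.v C.tb (q + 1) w / 5 ≤ C.T := by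
    rcases eT_succ C.tb q w (v := C.v) with e | e
    · rw [e]; omega
    · rw [e]; omega
  exact and_congr (hkc_hotq C i a hs h1 hw) Iff.rfl

/-- **THE EXITS OF THE HOT PAIRS** -/
theorem exit_hot (i : Fin 3) {a s a' s' : ℝ} (hs : 0 < s) (ha : a' + 1 / 2 ≤ a) (hss : 2 * s ≤ s') {Rm : ℕ → C.O → Prop}
    (hR : ∀ q w, q < 5 * C.T → C.tb.Ps.p w ≠ 0 → Rm q w →
      (hotq C.h C.v C.tb i a s q w ∧ Alv C.h C.v C.tb C.p q w) ∨ SHt C i a' s' (q + 1) w) :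
    ∑ q ∈ range (5 * C.T), C.tb.Ps.Pr (fun w => Rm q w ∧ ¬ SHt C i a' s' (q + 1) w) ≤ pw C.Lam 10 := by
  have hs' : 0 < s' := by linarith
  have hb : Real.log s + 1 / 2 ≤ Real.log s' := by
    have h1 := Real.log_le_log (by positivity) hss
    rw [Real.log_mul (by norm_num) hs.ne'] at h1
    have h2 := Real.log_two_gt_d9
    linarith
  have h1 := exit_hctx C i ha hb (Rm := fun q w => q < 5 * C.T ∧ Rm q w) (fun q w hw hh => by
    have h2 : q / 5 ≤ C.T := by omega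
    exact (hR q w hh.1 hw hh.2).imp (And.imp_left (hkc_hotq C i a hs h2 hw).2) (shc_hotk C i a' hs' hh.1 hw).2)
  refine (Finset.sum_le_sum fun q hq => C.tb.Ps.Pr_mono fun w hw hh => ?_).trans h1
  have hq' := mem_range.1 hq
  exact ⟨⟨hq', hh.1⟩, fun h3 => hh.2 ((shc_hotk C i a' hs' hq' hw).1 h3)⟩

end

end Pool.Agent.GMH.ExK
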