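import Pool.Agent.GMH.Exit3
import Pool.Agent.GMH.KinF

/-!
# GMH/ExitK (helper99): EXITS FOR EVERY KIND OF GMH/KinF (row C6)

One step from `(Z, F)` to `(Z', F')`, `Z'` finer than `Z`, the tops `F'` finer than `F` (births).
* `log_pr` : a positive variable of mean at most one and the expectation of its log;
* `lr_pr` : the log of the conditional probability of the true value moves: paid by the drop of the entropy;
* `lb_pr` : the same for the births; `ld_pr` : the log density of some tops against the product of the marginals;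
* `far_ref` : finer tops are farther from the product;
* `dens_self`, `tvn_self` : the tables of KinF at the true tuple;
* `co c k` = core of the kind `k` (`Ap k`, for `k = 2, 3, 4` : the top `k - 2` is bad); `kd_co`, `co_kd`;
* **`exit_k`** : `co c k` before and not `co c' k` after the step has probability at most
  `1000/eta^2 (drop of Hc (tup F | Z) + births)`, `eta` = gap of the thresholds of the kind (`Gap`).
-/

set_option autoImplicit false
set_option linter.unusedSectionVars false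

namespace Pool.Agent.GMH.ExK

open Finset Pool.Agent.PWZ Pool.Agent.M3 Pool.Agent.GMH Pool.Agent.GMH.Exit3 Pool.Agent.GMH.KF

noncomputable section

/-! ## logs -/

theorem log_sq {u d : ℝ} (hu : 0 < u) (d0 : 0 < d) (d1 : d ≤ 1) (h : d ≤ |Real.log u|) :
    d ^ 2 / 9 ≤ u - 1 - Real.log u := by
  set s := Real.log u with hs
  set r := Real.exp (s / 2) with hr
  have e1 : u = r ^ 2 := by
    rw [hr, sq, ← Real.exp_add, add_halves, hs, Real.exp_log hu]
  have r0 : 0 < r := Real.exp_pos _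
  have e2 : s = 2 * Real.log r := by rw [hr, Real.log_exp]; ring
  have h1 : Real.log r ≤ r - 1 := Real.log_le_sub_one_of_pos r0
  have h2 : (r - 1) ^ 2 ≤ u - 1 - s := by
    rw [e1]
    nlinarith
  have h3 : (d / 3) ^ 2 ≤ (r - 1) ^ 2 := by
    rcases le_abs.1 h with h4 | h4
    · have h5 : s / 2 + 1 ≤ r := Real.add_one_le_exp _
      exact pow_le_pow_left₀ (by positivity) (by linarith) 2
    · have h5 : - s / 2 + 1 ≤ Real.exp (- s / 2) := Real.add_one_le_exp _
      have h6 : r * Real.exp (- s / 2) = 1 := by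
        rw [hr, ← Real.exp_add]
        have : s / 2 + - s / 2 = 0 := by ring
        rw [this, Real.exp_zero]
      have h7 : r * (1 + d / 2) ≤ 1 := by
        rw [← h6]
        exact mul_le_mul_of_nonneg_left (by linarith) r0.le
      have h8 : d / 3 ≤ 1 - r := by
        have h9 : r ≤ 1 / (1 + d / 2) := by
          rw [le_div_iff₀ (by positivity)]
          exact h7
        have h10 : 1 / (1 + d / 2) ≤ 1 - d / 3 := by
          rw [div_le_iff₀ (by positivity)]
          nlinarith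
        linarith
      have h11 : (r - 1) ^ 2 = (1 - r) ^ 2 := by ring
      rw [h11]
      exact pow_le_pow_left₀ (by positivity) h8 2
  have h4 : d ^ 2 / 9 = (d / 3) ^ 2 := by ring
  linarith

variable {Om : Type*} [Fintype Om] {I φ φ' υ υ' κ κ' : Type*} [Fintype I]

section fr

variable (P : FP Om)

/-- **A POSITIVE VARIABLE OF MEAN AT MOST ONE** -/
theorem log_pr {u : Om → ℝ} (hu : ∀ w, P.p w ≠ 0 → 0 < u w) (h1 : P.E u ≤ 1) {d : ℝ} (d0 : 0 < d) (d1 : d ≤ 1) :
    d ^ 2 / 9 * P.Pr (fun w => d ≤ |Real.log (u w)|) ≤ P.E (fun w => - Real.log (u w)) := by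
  have h2 : P.E (fun w => d ^ 2 / 9 * ind (d ≤ |Real.log (u w)|)) ≤ P.E (fun w => u w - 1 - Real.log (u w)) := by
    refine P.E_mono fun w hw => ?_
    by_cases h : d ≤ |Real.log (u w)|
    · rw [ind_of h, mul_one]
      exact log_sq (hu w hw) d0 d1 h
    · rw [ind_not h, mul_zero]
      have := Real.log_le_sub_one_of_pos (hu w hw)
      linarith
  rw [P.E_smul] at h2
  have h3 : P.E (fun w => u w - 1 - Real.log (u w)) = P.E u - 1 + P.E (fun w => - Real.log (u w)) := by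
    rw [P.E_sub, P.E_sub, P.E_const, P.E_neg]
    ring
  unfold FP.Pr
  linarith

/-- the expectation of its log -/
theorem log_E {u : Om → ℝ} (hu : ∀ w, P.p w ≠ 0 → 0 < u w) (h1 : P.E u ≤ 1) : 0 ≤ P.E (fun w => - Real.log (u w)) := by
  have h2 : P.E (fun w => Real.log (u w)) ≤ P.E (fun w => u w - 1) :=
    P.E_mono fun w hw => Real.log_le_sub_one_of_pos (hu w hw)
  rw [P.E_sub, P.E_const] at h2
  rw [P.E_neg]
  linarith

/-- log of the conditional probability of the true value -/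
def lg (X : Om → κ) (U : Om → υ) (w : Om) : ℝ := Real.log (P.pv U X w (X w))

theorem lg_eq (X : Om → κ) (U : Om → υ) {w : Om} (hw : P.p w ≠ 0) :
    lg P X U w = Real.log (P.m (fun v => (X v, U v)) w) - Real.log (P.m U w) := by
  unfold lg
  rw [P.pv_self U X w, Real.log_div (P.m_pos _ hw).ne' (P.m_pos _ hw).ne']

theorem E_lg (X : Om → κ) (U : Om → υ) : P.E (fun w => lg P X U w) = - P.Hc X U := by
  rw [Hc_eq_E_log P X U, ← P.E_neg]
  refine P.E_congr fun w hw => ?_
  unfold lg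
  rw [P.pv_self U X w, ← Real.log_inv, inv_div]

/-- chain rule at the true value -/
theorem lg_chain {X : Om → κ} {X' : Om → κ'} (hX : Fac X' X) (U : Om → υ) {w : Om} (hw : P.p w ≠ 0) :
    lg P X' U w = lg P X U w + lg P X' (fun v => (X v, U v)) w := by
  rw [lg_eq P X' U hw, lg_eq P X U hw, lg_eq P X' (fun v => (X v, U v)) hw]
  have e : P.m (fun v => (X' v, X v, U v)) w = P.m (fun v => (X' v, U v)) w := by
    refine P.m_congr (fun a b h => ?_) (fun a b h => ?_) w
    · simp only [Prod.mk.injEq] at h ⊢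
      exact ⟨h.1, h.2.2⟩
    · simp only [Prod.mk.injEq] at h ⊢
      exact ⟨h.1, hX a b h.1, h.2⟩
  rw [e]
  ring

/-- chain rule -/
theorem Hc_ch {X : Om → κ} {X' : Om → κ'} (hX : Fac X' X) (V : Om → υ) :
    P.Hc X' V = P.Hc X V + P.Hc X' (fun v => (X v, V v)) := by
  have h1 : P.Hc X' V = P.Hc (fun v => (X' v, X v)) V := by
    refine le_antisymm (P.Hc_mono V ?_) (P.Hc_mono V ?_)
    · intro a b h
      simp only [Prod.mk.injEq] at h
      exact h.1.1
    · intro a b h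
      simp only [Prod.mk.injEq] at h ⊢
      exact ⟨h.1, hX a b h.1⟩
  rw [h1, P.Hc_chain X' X V]

/-- data processing for the drops -/
theorem drop_mono {X : Om → κ} {X' : Om → κ'} (hX : Fac X' X) {U : Om → υ} {U' : Om → υ'} (hU : Fac U' U) :
    P.Hc X U - P.Hc X U' ≤ P.Hc X' U - P.Hc X' U' := by
  rw [Hc_ch P hX U, Hc_ch P hX U']
  have h1 : P.Hc X' (fun v => (X v, U' v)) ≤ P.Hc X' (fun v => (X v, U v)) := by
    refine P.Hc_anti _ ?_
    intro a b h
    simp only [Prod.mk.injEq] at h ⊢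
    exact ⟨h.1, hU a b h.2⟩
  linarith

theorem drop_nonneg (X : Om → κ) {U : Om → υ} {U' : Om → υ'} (hU : Fac U' U) : 0 ≤ P.Hc X U - P.Hc X U' := by
  have := P.Hc_anti X hU
  linarith

/-- **the probability of the true value moves** : paid by the drop -/
theorem lr_pr (X : Om → κ) {U : Om → υ} {U' : Om → υ'} (hU : Fac U' U) {d : ℝ} (d0 : 0 < d) (d1 : d ≤ 1) :
    d ^ 2 / 9 * P.Pr (fun w => d ≤ |lg P X U' w - lg P X U w|) ≤ P.Hc X U - P.Hc X U' := by
  classical
  set G : Om → κ → ℝ := fun w x => P.pv U X w x / P.pv U' X w x with hG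
  have hGf : ∀ x, Fac U' (fun w => G w x) := fun x a b h => by
    show P.pv U X a x / P.pv U' X a x = P.pv U X b x / P.pv U' X b x
    have k1 : P.pv U X a x = P.pv U X b x := P.pv_fac U X x a b (hU a b h)
    have k2 : P.pv U' X a x = P.pv U' X b x := P.pv_fac U' X x a b h
    rw [k1, k2]
  have h1 : P.E (fun w => G w (X w)) ≤ 1 := by
    rw [← P.E_ce U' (fun w => G w (X w))]
    refine P.E_le_const fun w hw => ?_
    rw [← P.sum_pv X hGf w]
    refine le_trans (Finset.sum_le_sum fun x _ => ?_) (P.pv_sum U X hw).le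
    show P.pv U' X w x * (P.pv U X w x / P.pv U' X w x) ≤ P.pv U X w x
    by_cases h : P.pv U' X w x = 0
    · rw [h, zero_mul]
      exact P.pv_nonneg _ _ _ _
    · rw [mul_div_cancel₀ _ h]
  have h2 := log_pr P (u := fun w => G w (X w)) (fun w hw => div_pos (P.pv_self_pos U X hw) (P.pv_self_pos U' X hw)) h1 d0 d1
  have e1 : ∀ w, P.p w ≠ 0 → Real.log (G w (X w)) = lg P X U w - lg P X U' w := fun w hw => by
    show Real.log (P.pv U X w (X w) / P.pv U' X w (X w)) = _
    rw [Real.log_div (P.pv_self_pos U X hw).ne' (P.pv_self_pos U' X hw).ne']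
    rfl
  have e2 : P.Pr (fun w => d ≤ |Real.log (G w (X w))|) = P.Pr (fun w => d ≤ |lg P X U' w - lg P X U w|) :=
    P.Pr_congr fun w hw => by rw [e1 w hw, abs_sub_comm]
  have e3 : P.E (fun w => - Real.log (G w (X w))) = P.Hc X U - P.Hc X U' := by
    have : P.E (fun w => - Real.log (G w (X w))) = P.E (fun w => lg P X U' w - lg P X U w) :=
      P.E_congr fun w hw => by rw [e1 w hw]; ring
    rw [this, P.E_sub, E_lg, E_lg]
    ring
  rw [e2, e3] at h2
  exact h2

/-- log of the joint probability of the new parts against the product -/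
def lb (F : I → Om → φ) (F' : I → Om → φ') (U : Om → υ) (w : Om) : ℝ :=
  lg P (tup F') (fun v => (tup F v, U v)) w - ∑ i, lg P (F' i) (fun v => (F i v, U v)) w

/-- **the births** -/
theorem lb_bs (F : I → Om → φ) (F' : I → Om → φ') (U : Om → υ) :
    P.Hc (tup F') (fun v => (tup F v, U v)) ≤ ∑ i, P.Hc (F' i) (fun v => (F i v, U v)) ∧
    ∀ d : ℝ, 0 < d → d ≤ 1 →
      d ^ 2 / 9 * P.Pr (fun w => d ≤ |lb P F F' U w|) ≤ ∑ i, P.Hc (F' i) (fun v => (F i v, U v)) := by
  classical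
  set V : Om → (I → φ) × υ := fun v => (tup F v, U v) with hV
  have hf : ∀ i, Fac V (fun v => (F i v, U v)) := fun i a b h => by
    simp only [hV, Prod.mk.injEq] at h ⊢
    exact ⟨congrFun h.1 i, h.2⟩
  set G : Om → (I → φ') → ℝ := fun w x => (∏ i, P.pv (fun v => (F i v, U v)) (F' i) w (x i)) / P.pv V (tup F') w x with hG
  have hGf : ∀ x, Fac V (fun w => G w x) := fun x a b h => by
    show (∏ i, P.pv (fun v => (F i v, U v)) (F' i) a (x i)) / P.pv V (tup F') a x =
      (∏ i, P.pv (fun v => (F i v, U v)) (F' i) b (x i)) / P.pv V (tup F') b x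
    have k1 : P.pv V (tup F') a x = P.pv V (tup F') b x := P.pv_fac V (tup F') x a b h
    rw [k1]
    congr 1
    exact Finset.prod_congr rfl fun i _ => P.pv_fac _ (F' i) (x i) a b (hf i a b h)
  have p1 : ∀ w, P.p w ≠ 0 → 0 < ∏ i, P.pv (fun v => (F i v, U v)) (F' i) w (tup F' w i) := fun w hw =>
    Finset.prod_pos fun i _ => P.pv_self_pos _ (F' i) hw
  have h1 : P.E (fun w => G w (tup F' w)) ≤ 1 := by
    rw [← P.E_ce V (fun w => G w (tup F' w))]
    refine P.E_le_const fun w hw => ?_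
    rw [← sum_tup P F' (W := V) hGf w]
    have e1 : ∑ g ∈ let_ F', ∏ i, P.pv (fun v => (F i v, U v)) (F' i) w (g i) = 1 := by
      have e2 : ∑ g ∈ let_ F', ∏ i, P.pv (fun v => (F i v, U v)) (F' i) w (g i) =
          ∏ i, ∑ x ∈ vals (F' i), P.pv (fun v => (F i v, U v)) (F' i) w x := by
        rw [Finset.prod_univ_sum]
        rfl
      rw [e2]
      exact Finset.prod_eq_one fun i _ => P.pv_sum _ (F' i) hw
    refine le_trans (Finset.sum_le_sum fun x _ => ?_) e1.le
    show P.pv V (tup F') w x * ((∏ i, P.pv (fun v => (F i v, U v)) (F' i) w (x i)) / P.pv V (tup F') w x) ≤ _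
    by_cases h : P.pv V (tup F') w x = 0
    · rw [h, zero_mul]
      exact Finset.prod_nonneg fun i _ => P.pv_nonneg _ _ _ _
    · rw [mul_div_cancel₀ _ h]
  have h0 := log_E P (u := fun w => G w (tup F' w)) (fun w hw => div_pos (p1 w hw) (P.pv_self_pos V (tup F') hw)) h1
  have e1 : ∀ w, P.p w ≠ 0 → Real.log (G w (tup F' w)) = - lb P F F' U w := fun w hw => by
    show Real.log ((∏ i, P.pv (fun v => (F i v, U v)) (F' i) w (tup F' w i)) / P.pv V (tup F') w (tup F' w)) = _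
    have k1 : ∀ i ∈ (univ : Finset I), P.pv (fun v => (F i v, U v)) (F' i) w (tup F' w i) ≠ 0 := fun i _ =>
      (P.pv_self_pos (fun v => (F i v, U v)) (F' i) hw).ne'
    rw [Real.log_div (p1 w hw).ne' (P.pv_self_pos V (tup F') hw).ne', Real.log_prod k1]
    unfold lb lg
    rw [neg_sub]
    rfl
  have e3 : P.E (fun w => - Real.log (G w (tup F' w))) = ∑ i, P.Hc (F' i) (fun v => (F i v, U v)) - P.Hc (tup F') V := by
    have : P.E (fun w => - Real.log (G w (tup F' w))) = P.E (lb P F F' U) :=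
      P.E_congr fun w hw => by rw [e1 w hw]; ring
    rw [this]
    unfold lb
    rw [P.E_sub, E_lg, P.E_sum]
    have : ∀ i, P.E (fun w => lg P (F' i) (fun v => (F i v, U v)) w) = - P.Hc (F' i) (fun v => (F i v, U v)) := fun i =>
      E_lg P _ _
    rw [Finset.sum_congr rfl fun i _ => this i, Finset.sum_neg_distrib]
    ring
  rw [e3] at h0
  refine ⟨by linarith, fun d d0 d1 => ?_⟩
  have h2 := log_pr P (u := fun w => G w (tup F' w)) (fun w hw => div_pos (p1 w hw) (P.pv_self_pos V (tup F') hw)) h1 d0 d1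
  have e2 : P.Pr (fun w => d ≤ |Real.log (G w (tup F' w))|) = P.Pr (fun w => d ≤ |lb P F F' U w|) :=
    P.Pr_congr fun w hw => by rw [e1 w hw, abs_neg]
  rw [e2, e3] at h2
  have h3 := P.Hc_nonneg (tup F') V
  linarith

theorem lb_pr (F : I → Om → φ) (F' : I → Om → φ') (U : Om → υ) {d : ℝ} (d0 : 0 < d) (d1 : d ≤ 1) :
    d ^ 2 / 9 * P.Pr (fun w => d ≤ |lb P F F' U w|) ≤ ∑ i, P.Hc (F' i) (fun v => (F i v, U v)) :=
  (lb_bs P F F' U).2 d d0 d1

/-- log density of the tops against the product of the marginals -/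
def Ld (F : I → Om → φ) (U : Om → υ) (w : Om) : ℝ := lg P (tup F) U w - ∑ i, lg P (F i) U w

theorem tup_fac {F : I → Om → φ} {F' : I → Om → φ'} (hF : ∀ i, Fac (F' i) (F i)) : Fac (tup F') (tup F) :=
  fun a b h => funext fun i => hF i a b (congrFun h i)

theorem tup_i (F : I → Om → φ) (i : I) : Fac (tup F) (F i) := fun _ _ h => congrFun h i

theorem Ld_eq {F : I → Om → φ} {F' : I → Om → φ'} (hF : ∀ i, Fac (F' i) (F i)) (U : Om → υ) (U' : Om → υ') {w : Om}
    (hw : P.p w ≠ 0) : Ld P F' U' w - Ld P F U w = (lg P (tup F) U' w - lg P (tup F) U w) -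
      ∑ i, (lg P (F i) U' w - lg P (F i) U w) + lb P F F' U' w := by
  unfold Ld lb
  rw [lg_chain P (tup_fac hF) U' hw, Finset.sum_congr rfl fun i _ => lg_chain P (hF i) U' hw, Finset.sum_add_distrib,
    Finset.sum_sub_distrib]
  ring

/-- **THE LOG DENSITY MOVES** -/
theorem ld_pr {F : I → Om → φ} {F' : I → Om → φ'} (hF : ∀ i, Fac (F' i) (F i)) {U : Om → υ} {U' : Om → υ'}
    (hU : Fac U' U) {d : ℝ} (d0 : 0 < d) (d1 : d ≤ 1) :
    (d / (Fintype.card I + 2)) ^ 2 / 9 * P.Pr (fun w => d ≤ |Ld P F' U' w - Ld P F U w|) ≤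
      (Fintype.card I + 1) * (P.Hc (tup F) U - P.Hc (tup F) U') + ∑ i, P.Hc (F' i) (fun v => (F i v, U' v)) := by
  classical
  have c0 : (0 : ℝ) < (Fintype.card I : ℝ) + 2 := by positivity
  set e : ℝ := d / (Fintype.card I + 2) with he
  have e0 : 0 < e := div_pos d0 c0
  have e1 : e ≤ 1 := by
    rw [he, div_le_one c0]
    have : (0 : ℝ) ≤ (Fintype.card I : ℝ) := Nat.cast_nonneg _
    linarith
  have h1 := lr_pr P (tup F) hU e0 e1
  have h2 : ∀ i, e ^ 2 / 9 * P.Pr (fun w => e ≤ |lg P (F i) U' w - lg P (F i) U w|) ≤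
      P.Hc (tup F) U - P.Hc (tup F) U' := fun i => (lr_pr P (F i) hU e0 e1).trans (drop_mono P (tup_i F i) hU)
  have h3 := lb_pr P F F' U' e0 e1
  have h4 : P.Pr (fun w => d ≤ |Ld P F' U' w - Ld P F U w|) ≤
      P.Pr (fun w => e ≤ |lg P (tup F) U' w - lg P (tup F) U w|) +
      ∑ i, P.Pr (fun w => e ≤ |lg P (F i) U' w - lg P (F i) U w|) + P.Pr (fun w => e ≤ |lb P F F' U' w|) := by
    have h5 : P.Pr (fun w => d ≤ |Ld P F' U' w - Ld P F U w|) ≤
        P.Pr (fun w => (e ≤ |lg P (tup F) U' w - lg P (tup F) U w| ∨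
          ∃ i ∈ (univ : Finset I), e ≤ |lg P (F i) U' w - lg P (F i) U w|) ∨ e ≤ |lb P F F' U' w|) := by
      refine P.Pr_mono fun w hw h => ?_
      by_contra hc
      push Not at hc
      obtain ⟨⟨k1, k2⟩, k3⟩ := hc
      rw [Ld_eq P hF U U' hw] at h
      have k4 : |(lg P (tup F) U' w - lg P (tup F) U w) - ∑ i, (lg P (F i) U' w - lg P (F i) U w) + lb P F F' U' w| ≤
          |lg P (tup F) U' w - lg P (tup F) U w| + ∑ i, |lg P (F i) U' w - lg P (F i) U w| + |lb P F F' U' w| := by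
        refine (abs_add_le _ _).trans (add_le_add ((abs_sub _ _).trans (add_le_add le_rfl ?_)) le_rfl)
        exact Finset.abs_sum_le_sum_abs _ _
      have k5 : ∑ i, |lg P (F i) U' w - lg P (F i) U w| ≤ Fintype.card I * e := by
        refine (Finset.sum_le_card_nsmul _ _ e fun i hi => (k2 i hi).le).trans ?_
        rw [nsmul_eq_mul, Finset.card_univ]
      have k6 : d = e * (Fintype.card I + 2) := by rw [he, div_mul_cancel₀ _ c0.ne']
      nlinarith
    refine h5.trans ((P.Pr_or_le _ _).trans (add_le_add ((P.Pr_or_le _ _).trans (add_le_add le_rfl ?_)) le_rfl))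
    exact P.Pr_ex_le univ (fun i w => e ≤ |lg P (F i) U' w - lg P (F i) U w|)
  have h5 : ∑ i, e ^ 2 / 9 * P.Pr (fun w => e ≤ |lg P (F i) U' w - lg P (F i) U w|) ≤
      Fintype.card I * (P.Hc (tup F) U - P.Hc (tup F) U') := by
    refine (Finset.sum_le_card_nsmul _ _ _ fun i _ => h2 i).trans ?_
    rw [nsmul_eq_mul, Finset.card_univ]
  rw [← Finset.mul_sum] at h5
  have h6 := mul_le_mul_of_nonneg_left h4 (show 0 ≤ e ^ 2 / 9 by positivity)
  rw [mul_add, mul_add] at h6
  linarith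

/-! ## distances -/

theorem ex_r {X : Om → κ} {X' : Om → κ'} (h : Fac X' X) (w : Om) : ∃ r : κ' → κ, ∀ u, X u = r (X' u) := by
  classical
  refine ⟨fun x => if hx : ∃ u, X' u = x then X hx.choose else X w, fun u => ?_⟩
  have hx : ∃ v, X' v = X' u := ⟨u, rfl⟩
  show X u = if hx : ∃ v, X' v = X' u then X hx.choose else X w
  rw [dif_pos hx]
  exact h _ _ hx.choose_spec.symm

/-- **finer tops are farther from the product** -/
theorem far_ref [LinearOrder I] {F : I → Om → φ} {F' : I → Om → φ'} (hF : ∀ i, Fac (F' i) (F i)) (U : Om → υ) (Ui : I → Om → κ) (w : Om) :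
    far P F U Ui w ≤ far P F' U Ui w := by
  classical
  choose r hr using fun i => ex_r (hF i) w
  have e1 : ∀ g : I → φ, P.pv U (tup F) w g = ∑ x ∈ let_ F', P.pv U (tup F') w x * ind ((fun i => r i (x i)) = g) := by
    intro g
    rw [sum_tup P F' (W := U) (F := fun _ x => ind ((fun i => r i (x i)) = g)) (fun _ _ _ _ => rfl) w]
    unfold FP.pv
    refine P.ce_congr (fun u _ => ?_) w
    have : tup F u = fun i => r i (tup F' u i) := funext fun i => hr i u
    rw [this]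
  have e2 : ∀ g : I → φ, ∏ i, P.pv (Ui i) (F i) w (g i) =
      ∑ x ∈ let_ F', (∏ i, P.pv (Ui i) (F' i) w (x i)) * ind ((fun i => r i (x i)) = g) := by
    intro g
    have e3 : ∀ i, P.pv (Ui i) (F i) w (g i) = ∑ x ∈ vals (F' i), P.pv (Ui i) (F' i) w x * ind (r i x = g i) := by
      intro i
      rw [P.sum_pv (W := Ui i) (F' i) (F := fun _ x => ind (r i x = g i)) (fun _ _ _ _ => rfl) w]
      unfold FP.pv
      refine P.ce_congr (fun u _ => ?_) w
      rw [hr i u]
    rw [Finset.prod_congr rfl fun i _ => e3 i, Finset.prod_univ_sum]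
    refine Finset.sum_congr rfl fun x _ => ?_
    rw [Finset.prod_mul_distrib]
    congr 1
    by_cases h : (fun i => r i (x i)) = g
    · rw [ind_of h]
      exact Finset.prod_eq_one fun i _ => ind_of (congrFun h i)
    · rw [ind_not h]
      have : ∃ i, r i (x i) ≠ g i := by
        by_contra hc
        push Not at hc
        exact h (funext hc)
      obtain ⟨i, hi⟩ := this
      exact Finset.prod_eq_zero (mem_univ i) (ind_not hi)
  unfold far
  have h1 : ∀ g ∈ let_ F, |P.pv U (tup F) w g - ∏ i, P.pv (Ui i) (F i) w (g i)| ≤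
      ∑ x ∈ let_ F', |P.pv U (tup F') w x - ∏ i, P.pv (Ui i) (F' i) w (x i)| * ind ((fun i => r i (x i)) = g) := by
    intro g _
    rw [e1, e2, ← Finset.sum_sub_distrib]
    refine (Finset.abs_sum_le_sum_abs _ _).trans (Finset.sum_le_sum fun x _ => ?_)
    rw [← sub_mul, abs_mul, abs_of_nonneg (ind_nonneg _)]
  refine (Finset.sum_le_sum h1).trans ?_
  rw [Finset.sum_comm]
  refine Finset.sum_le_sum fun x _ => ?_
  rw [← Finset.mul_sum]
  have h2 : ∑ g ∈ let_ F, ind ((fun i => r i (x i)) = g) ≤ 1 := by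
    by_cases h : (fun i => r i (x i)) ∈ let_ F
    · rw [Finset.sum_eq_single_of_mem _ h fun g _ hg => ind_not fun h' => hg h'.symm, ind_of rfl]
    · rw [Finset.sum_eq_zero fun g hg => ind_not fun h' => h (by rw [h']; exact hg)]
      exact zero_le_one
  calc |P.pv U (tup F') w x - ∏ i, P.pv (Ui i) (F' i) w (x i)| * ∑ g ∈ let_ F, ind ((fun i => r i (x i)) = g)
      ≤ |P.pv U (tup F') w x - ∏ i, P.pv (Ui i) (F' i) w (x i)| * 1 := mul_le_mul_of_nonneg_left h2 (abs_nonneg _)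
    _ = _ := mul_one _

theorem rest_drop (R : Om → κ) (X : Om → κ') (X' : Om → φ) {U : Om → υ} {U' : Om → υ'} (hU : Fac U' U) :
    P.Hc R (fun v => (X v, U v)) - P.Hc R (fun v => (X' v, U' v)) ≤
      (P.Hc (fun v => (R v, X v)) U - P.Hc (fun v => (R v, X v)) U') + P.Hc X' (fun v => (X v, U' v)) := by
  have h1 := P.Hc_chain R X U
  have h2 := P.Hc_chain R X U'
  have h3 := drop_nonneg P X hU
  have h4 : P.Hc R (fun v => (X v, U' v)) ≤ P.Hc (fun v => (R v, X' v)) (fun v => (X v, U' v)) := by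
    refine P.Hc_mono _ ?_
    intro a b h
    simp only [Prod.mk.injEq] at h
    exact h.1.1
  have h5 := P.Hc_chain R X' (fun v => (X v, U' v))
  have h6 : P.Hc R (fun v => (X' v, X v, U' v)) ≤ P.Hc R (fun v => (X' v, U' v)) := by
    refine P.Hc_anti R ?_
    intro a b h
    simp only [Prod.mk.injEq] at h ⊢
    exact ⟨h.1, h.2.2⟩
  linarith

/-- **THE DISTANCE OF THE REST FROM THE PRODUCT DECREASES** : paid -/
theorem far_pr [LinearOrder I] {F : I → Om → φ} {F' : I → Om → φ'} (hF : ∀ i, Fac (F' i) (F i)) {X : Om → κ} {X' : Om → κ'}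
    (hX : Fac X' X) {U : Om → υ} {U' : Om → υ'} (hU : Fac U' U) {e : ℝ} (e0 : 0 ≤ e) :
    e ^ 2 * P.Pr (fun w => e ≤ far P F (fun v => (X v, U v)) (fun _ => U) w -
        far P F' (fun v => (X' v, U' v)) (fun _ => U') w) ≤
      2 * (Fintype.card I + 1) * ((P.Hc (fun v => (tup F v, X v)) U - P.Hc (fun v => (tup F v, X v)) U') +
        P.Hc X' (fun v => (X v, U' v)) + ∑ i, (P.Hc (F i) U - P.Hc (F i) U')) := by
  have hXU : Fac (fun v => (X' v, U' v)) (fun v => (X v, U v)) := fun a b h => by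
    simp only [Prod.mk.injEq] at h ⊢
    exact ⟨hX a b h.1, hU a b h.2⟩
  have h1 := E_dN_sq P (tup F) hXU
  have h2 : ∑ i, P.E (fun w => dN P (F i) U U' w ^ 2) ≤ ∑ i, 2 * (P.Hc (F i) U - P.Hc (F i) U') :=
    Finset.sum_le_sum fun i _ => E_dN_sq P (F i) hU
  rw [← P.E_sum, ← Finset.mul_sum] at h2
  have h0 := rest_drop P (tup F) X X' hU
  have cp : (0 : ℝ) < (Fintype.card I : ℝ) + 1 := by positivity
  have h4 : P.E (fun w => e ^ 2 * ind (e ≤ far P F (fun v => (X v, U v)) (fun _ => U) w -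
      far P F' (fun v => (X' v, U' v)) (fun _ => U') w)) ≤
      P.E (fun w => (Fintype.card I + 1) * (dN P (tup F) (fun v => (X v, U v)) (fun v => (X' v, U' v)) w ^ 2 +
        ∑ i, dN P (F i) U U' w ^ 2)) := by
    refine P.E_mono fun w hw => ?_
    by_cases hs : e ≤ far P F (fun v => (X v, U v)) (fun _ => U) w - far P F' (fun v => (X' v, U' v)) (fun _ => U') w
    · rw [ind_of hs, mul_one]
      have h5 := far_tri P F (fun v => (X v, U v)) (fun v => (X' v, U' v)) (fun _ => U) (fun _ => U') hw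
      have h6 := far_ref P hF (fun v => (X' v, U' v)) (fun _ => U') w
      exact sq_sum_le (I := I) e0 (by linarith)
    · rw [ind_not hs, mul_zero]
      exact mul_nonneg cp.le (add_nonneg (sq_nonneg _) (Finset.sum_nonneg fun _ _ => sq_nonneg _))
  rw [P.E_smul, P.E_smul, P.E_add] at h4
  unfold FP.Pr
  nlinarith [h4, h1, h2, h0, cp]

/-- at most three tops -/
theorem far_pr3 [LinearOrder I] (hI : (Fintype.card I : ℝ) ≤ 3) {F : I → Om → φ} {F' : I → Om → φ'}
    (hF : ∀ i, Fac (F' i) (F i)) {X : Om → κ} {X' : Om → κ'}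
    (hX : Fac X' X) {U : Om → υ} {U' : Om → υ'} (hU : Fac U' U) {e : ℝ} (e0 : 0 ≤ e) :
    e ^ 2 * P.Pr (fun w => e ≤ far P F (fun v => (X v, U v)) (fun _ => U) w -
        far P F' (fun v => (X' v, U' v)) (fun _ => U') w) ≤
      8 * ((P.Hc (fun v => (tup F v, X v)) U - P.Hc (fun v => (tup F v, X v)) U') +
        P.Hc X' (fun v => (X v, U' v)) + ∑ i, (P.Hc (F i) U - P.Hc (F i) U')) := by
  refine (far_pr P hF hX hU e0).trans (mul_le_mul_of_nonneg_right (by linarith) ?_)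
  exact add_nonneg (add_nonneg (drop_nonneg P _ hU) (P.Hc_nonneg _ _))
    (Finset.sum_nonneg fun i _ => drop_nonneg P (F i) hU)

theorem ld_pr3 (hI : (Fintype.card I : ℝ) ≤ 3) {F : I → Om → φ} {F' : I → Om → φ'} (hF : ∀ i, Fac (F' i) (F i))
    {U : Om → υ} {U' : Om → υ'} (hU : Fac U' U) {d : ℝ} (d0 : 0 < d) (d1 : d ≤ 1) :
    d ^ 2 * P.Pr (fun w => d ≤ |Ld P F' U' w - Ld P F U w|) ≤
      225 * (4 * (P.Hc (tup F) U - P.Hc (tup F) U') + ∑ i, P.Hc (F' i) (fun v => (F i v, U' v))) := by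
  have h1 := ld_pr P hF hU d0 d1
  have c0 : (0 : ℝ) ≤ (Fintype.card I : ℝ) := Nat.cast_nonneg _
  have hD := drop_nonneg P (tup F) hU
  set k : ℝ := (Fintype.card I : ℝ) with hk
  set D : ℝ := P.Hc (tup F) U - P.Hc (tup F) U' with hD'
  set p : ℝ := P.Pr (fun w => d ≤ |Ld P F' U' w - Ld P F U w|) with hp
  have hp0 : 0 ≤ p := P.Pr_nonneg _
  have h4 : (k + 1) * D ≤ 4 * D := mul_le_mul_of_nonneg_right (by linarith) hD
  have h5 : d ^ 2 / 225 ≤ (d / (k + 2)) ^ 2 / 9 := by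
    have h6 : d / 5 ≤ d / (k + 2) := div_le_div_of_nonneg_left d0.le (by positivity) (by linarith)
    have h7 : (d / 5) ^ 2 ≤ (d / (k + 2)) ^ 2 := pow_le_pow_left₀ (by positivity) h6 2
    have h8 : d ^ 2 / 225 = (d / 5) ^ 2 / 9 := by ring
    rw [h8]
    exact div_le_div_of_nonneg_right h7 (by norm_num)
  have h6 := mul_le_mul_of_nonneg_right h5 hp0
  have h7 : d ^ 2 * p = 225 * (d ^ 2 / 225 * p) := by ring
  rw [h7]
  linarith

end fr

/-! ## the frame of KinF -/

section kf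

variable (P : FP Om) {Z : Om → υ} {Z' : Om → υ'} (F : Fin 3 → Om → φ) (F' : Fin 3 → Om → φ')

/-- the tops of `S` -/
def rs (S : Finset (Fin 3)) (i : {i : Fin 3 // i ∈ S}) : Om → φ := F i.1

theorem rs_fac (S : Finset (Fin 3)) : Fac (tup F) (tup (rs F S)) := fun _ _ h => funext fun i => congrFun h i.1

theorem pS_self (S : Finset (Fin 3)) (w : Om) : pS P Z F S w (tup F w) = P.pv Z (tup (rs F S)) w (tup (rs F S) w) := by
  unfold pS FP.pv
  refine P.ce_congr (fun u _ => ?_) w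
  congr 1
  refine propext ⟨fun h => funext fun i => h i.1 i.2, fun h i hi => congrFun h ⟨i, hi⟩⟩

theorem prod_S (S : Finset (Fin 3)) (g : Fin 3 → ℝ) : ∏ i ∈ S, g i = ∏ i : {i : Fin 3 // i ∈ S}, g i.1 :=
  (Finset.prod_coe_sort S g).symm

/-- the density at the true tuple -/
theorem dens_self (S : Finset (Fin 3)) {w : Om} (hw : P.p w ≠ 0) :
    0 < KF.dens P Z F S w (tup F w) ∧ Real.log (KF.dens P Z F S w (tup F w)) = Ld P (rs F S) Z w := by
  have h1 : ∀ i : {i : Fin 3 // i ∈ S}, 0 < P.pv Z (rs F S i) w (rs F S i w) := fun i => P.pv_self_pos _ _ hw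
  have h2 : ∏ i ∈ S, mF P Z F i w (tup F w i) = ∏ i : {i : Fin 3 // i ∈ S}, P.pv Z (rs F S i) w (rs F S i w) :=
    prod_S S fun i => mF P Z F i w (tup F w i)
  have h3 : 0 < P.pv Z (tup (rs F S)) w (tup (rs F S) w) := P.pv_self_pos _ _ hw
  have h4 : 0 < ∏ i : {i : Fin 3 // i ∈ S}, P.pv Z (rs F S i) w (rs F S i w) := Finset.prod_pos fun i _ => h1 i
  unfold KF.dens
  rw [pS_self, h2]
  refine ⟨div_pos h3 h4, ?_⟩
  rw [Real.log_div h3.ne' h4.ne', Real.log_prod fun i _ => (h1 i).ne']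
  rfl

theorem pS_mul {X : Om → κ} {Y : Om → κ'} (y : κ') {w : Om} (hw : P.p w ≠ 0) :
    P.pv Z X w (X w) * P.pv (fun v => (X v, Z v)) Y w y = P.ce Z (fun u => ind (X u = X w ∧ Y u = y)) w := by
  rw [P.pv_self Z X w]
  have h1 := P.m_pos (fun v => (X v, Z v)) hw
  unfold FP.pv FP.ce
  have h2 : P.m (fun v => (X v, Z v)) w / P.m Z w * (P.E (fun v => ind ((fun v => (X v, Z v)) v = (fun v => (X v, Z v)) w) *
      ind (Y v = y)) / P.m (fun v => (X v, Z v)) w) =
      P.E (fun v => ind ((fun v => (X v, Z v)) v = (fun v => (X v, Z v)) w) * ind (Y v = y)) / P.m Z w := by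
    field_simp
  rw [h2]
  congr 1
  refine P.E_congr fun v _ => ?_
  simp only [Prod.mk.injEq]
  by_cases a : X v = X w <;> by_cases b : Z v = Z w <;> by_cases c : Y v = y <;> simp [ind, a, b, c]

theorem sum_rest (S : Finset (Fin 3)) (w : Om) (h : (Fin 3 → φ) → ℝ) :
    ∑ g ∈ let_ F, ind (∀ i ∈ S, g i = F i w) * h g = ∑ g ∈ let_ (rs F (univ \ S)),
      h (fun i => if hi : i ∈ univ \ S then g ⟨i, hi⟩ else F i w) := by
  classical
  have e1 : ∑ g ∈ let_ F, ind (∀ i ∈ S, g i = F i w) * h g =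
      ∑ g ∈ (let_ F).filter (fun g => ∀ i ∈ S, g i = F i w), h g := by
    rw [Finset.sum_filter]
    refine Finset.sum_congr rfl fun g _ => ?_
    by_cases hg : ∀ i ∈ S, g i = F i w
    · rw [ind_of hg, one_mul, if_pos hg]
    · rw [ind_not hg, zero_mul, if_neg hg]
  rw [e1]
  refine Finset.sum_nbij' (fun g => fun i => g i.1) (fun g => fun i => if hi : i ∈ univ \ S then g ⟨i, hi⟩ else F i w)
    ?_ ?_ ?_ ?_ ?_
  · intro g hg
    rw [mem_filter] at hg
    exact Fintype.mem_piFinset.2 fun i => Fintype.mem_piFinset.1 hg.1 i.1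
  · intro g hg
    rw [mem_filter]
    refine ⟨Fintype.mem_piFinset.2 fun i => ?_, fun i hi => ?_⟩
    · by_cases hi : i ∈ univ \ S
      · simp only [hi, dif_pos]
        exact Fintype.mem_piFinset.1 hg ⟨i, hi⟩
      · simp only [hi, dif_neg, not_false_eq_true]
        exact FP.mem_vals (F i) w
    · show (if hi : i ∈ univ \ S then g ⟨i, hi⟩ else F i w) = F i w
      rw [dif_neg fun hi' => (mem_sdiff.1 hi').2 hi]
  · intro g hg
    rw [mem_filter] at hg
    funext i
    by_cases hi : i ∈ univ \ S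
    · simp only [hi, dif_pos]
    · rw [dif_neg hi]
      have : i ∈ S := by
        by_contra hc
        exact hi (mem_sdiff.2 ⟨mem_univ i, hc⟩)
      exact (hg.2 i this).symm
  · intro g hg
    funext i
    show (if hi : i.1 ∈ univ \ S then g ⟨i.1, hi⟩ else F i.1 w) = g i
    rw [dif_pos i.2]
  · intro g hg
    rw [mem_filter] at hg
    congr 1
    funext i
    by_cases hi : i ∈ univ \ S
    · rw [dif_pos hi]
    · rw [dif_neg hi]
      have : i ∈ S := by
        by_contra hc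
        exact hi (mem_sdiff.2 ⟨mem_univ i, hc⟩)
      exact hg.2 i this

/-- **the distance of the other tops from the product, at the true tuple** -/
theorem tvn_self (S : Finset (Fin 3)) {w : Om} (hw : P.p w ≠ 0) :
    tvn P Z F S w (tup F w) = pS P Z F S w (tup F w) *
      far P (rs F (univ \ S)) (fun v => (tup (rs F S) v, Z v)) (fun _ => Z) w := by
  classical
  have h1 : tvn P Z F S w (tup F w) = ∑ g ∈ let_ (rs F (univ \ S)),
      |pF P Z F w (fun i => if hi : i ∈ univ \ S then g ⟨i, hi⟩ else F i w) -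
        pS P Z F S w (fun i => if hi : i ∈ univ \ S then g ⟨i, hi⟩ else F i w) *
        ∏ i ∈ univ \ S, mF P Z F i w (if hi : i ∈ univ \ S then g ⟨i, hi⟩ else F i w)| := by
    have := sum_rest F S w (fun g => |pF P Z F w g - pS P Z F S w g * ∏ i ∈ univ \ S, mF P Z F i w (g i)|)
    exact this
  rw [h1]
  unfold far
  rw [Finset.mul_sum]
  refine Finset.sum_congr rfl fun g _ => ?_
  have p0 : 0 ≤ pS P Z F S w (tup F w) := by
    rw [pS_self]
    exact P.pv_nonneg _ _ _ _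
  have e2 : ∀ x : ℝ, pS P Z F S w (tup F w) * |x| = |pS P Z F S w (tup F w) * x| := fun x => by
    rw [abs_mul, abs_of_nonneg p0]
  rw [e2, mul_sub]
  congr 1
  congr 1
  · rw [pS_self, pS_mul P _ hw]
    unfold pF FP.pv
    refine P.ce_congr (fun u _ => ?_) w
    congr 1
    refine propext ⟨fun h => ⟨funext fun i => ?_, funext fun i => ?_⟩, fun h => funext fun i => ?_⟩
    · have := congrFun h i.1
      rw [dif_neg fun hi' => (mem_sdiff.1 hi').2 i.2] at this
      exact this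
    · have := congrFun h i.1
      rw [dif_pos i.2] at this
      exact this
    · by_cases hi : i ∈ univ \ S
      · rw [dif_pos hi]
        exact congrFun h.2 ⟨i, hi⟩
      · rw [dif_neg hi]
        have : i ∈ S := by
          by_contra hc
          exact hi (mem_sdiff.2 ⟨mem_univ i, hc⟩)
        exact congrFun h.1 ⟨i, this⟩
  · congr 1
    · unfold pS
      refine P.ce_congr (fun u _ => ?_) w
      congr 1
      refine propext ⟨fun h i hi => ?_, fun h i hi => ?_⟩
      · have := h i hi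
        simp only [mem_sdiff, hi, not_true_eq_false, and_false, dite_false] at this
        exact this
      · simp only [mem_sdiff, hi, not_true_eq_false, and_false, dite_false]
        exact h i hi
    · rw [prod_S (univ \ S) fun i => mF P Z F i w (if hi : i ∈ univ \ S then g ⟨i, hi⟩ else F i w)]
      refine Finset.prod_congr rfl fun i _ => ?_
      rw [dif_pos i.2]
      rfl

/-- the distance of the other tops from the product, given the tops of `S` -/
def FS (S : Finset (Fin 3)) (w : Om) : ℝ := far P (rs F (univ \ S)) (fun v => (tup (rs F S) v, Z v)) (fun _ => Z) w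

theorem pS_pos (S : Finset (Fin 3)) {w : Om} (hw : P.p w ≠ 0) : 0 < pS P Z F S w (tup F w) := by
  rw [pS_self]
  exact P.pv_self_pos _ _ hw

theorem FS_iff (S : Finset (Fin 3)) (e : ℝ) {w : Om} (hw : P.p w ≠ 0) :
    2 * e * pS P Z F S w (tup F w) ≤ tvn P Z F S w (tup F w) ↔ 2 * e ≤ FS P (Z := Z) F S w := by
  rw [tvn_self P F S hw, mul_comm (2 * e)]
  exact mul_le_mul_iff_right₀ (pS_pos P F S hw)

theorem pS_empty {w : Om} (hw : P.p w ≠ 0) : pS P Z F ∅ w (tup F w) = 1 := by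
  unfold pS
  have : (fun u => ind (∀ i ∈ (∅ : Finset (Fin 3)), F i u = tup F w i)) = fun _ => (1 : ℝ) := by
    funext u
    exact ind_of fun i hi => absurd hi (Finset.notMem_empty i)
  rw [this]
  exact P.ce_const Z 1 hw

theorem card_S (S : Finset (Fin 3)) [Fintype {i : Fin 3 // i ∈ S}] : (Fintype.card {i : Fin 3 // i ∈ S} : ℝ) ≤ 3 := by
  have h : Fintype.card {i : Fin 3 // i ∈ S} ≤ Fintype.card (Fin 3) :=
    Fintype.card_le_of_injective (fun i => i.1) Subtype.val_injective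
  rw [Fintype.card_fin] at h
  exact_mod_cast h

variable {F F'}

/-- sum of the births -/
def bs (F : Fin 3 → Om → φ) (F' : Fin 3 → Om → φ') (Z' : Om → υ') : ℝ := ∑ i, P.Hc (F' i) (fun v => (F i v, Z' v))

theorem bs_S (S : Finset (Fin 3)) : ∑ i, P.Hc (rs F' S i) (fun v => (rs F S i v, Z' v)) ≤ bs P (Z' := Z') F F' := by
  unfold bs
  have e : ∑ i : {i : Fin 3 // i ∈ S}, P.Hc (rs F' S i) (fun v => (rs F S i v, Z' v)) =
      ∑ i ∈ S, P.Hc (F' i) (fun v => (F i v, Z' v)) :=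
    Finset.sum_coe_sort S fun i => P.Hc (F' i) (fun v => (F i v, Z' v))
  rw [e]
  exact Finset.sum_le_sum_of_subset_of_nonneg (Finset.subset_univ S) fun i _ _ => P.Hc_nonneg _ _

/-- **exits of the distance** -/
theorem exS (S : Finset (Fin 3)) {e : ℝ} (e0 : 0 ≤ e) (hF : ∀ i, Fac (F' i) (F i)) (hZ : Fac Z' Z) :
    e ^ 2 * P.Pr (fun w => 2 * e ≤ FS P (Z := Z) F S w - FS P (Z := Z') F' S w) ≤
      8 * ((P.Hc (tup F) Z - P.Hc (tup F) Z') + bs P (Z' := Z') F F') := by
  have h1 := far_pr3 P (card_S (univ \ S)) (F := rs F (univ \ S)) (F' := rs F' (univ \ S)) (fun i => hF i.1)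
    (X := tup (rs F S)) (X' := tup (rs F' S)) (tup_fac fun i => hF i.1) hZ (e := 2 * e) (by positivity)
  have h2 : P.Hc (fun v => (tup (rs F (univ \ S)) v, tup (rs F S) v)) Z -
      P.Hc (fun v => (tup (rs F (univ \ S)) v, tup (rs F S) v)) Z' ≤ P.Hc (tup F) Z - P.Hc (tup F) Z' :=
    drop_mono P (fun a b h => Prod.ext (rs_fac F (univ \ S) a b h) (rs_fac F S a b h)) hZ
  have h3 : P.Hc (tup (rs F' S)) (fun v => (tup (rs F S) v, Z' v)) ≤ bs P (Z' := Z') F F' :=
    (lb_bs P (rs F S) (rs F' S) Z').1.trans (bs_S P S)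
  have hD0 : 0 ≤ P.Hc (tup F) Z - P.Hc (tup F) Z' := drop_nonneg P (tup F) hZ
  have h4 : ∑ i, (P.Hc (rs F (univ \ S) i) Z - P.Hc (rs F (univ \ S) i) Z') ≤
      3 * (P.Hc (tup F) Z - P.Hc (tup F) Z') := by
    refine (Finset.sum_le_card_nsmul _ _ _ fun i _ => drop_mono P (tup_i F i.1) hZ).trans ?_
    rw [nsmul_eq_mul, Finset.card_univ]
    exact mul_le_mul_of_nonneg_right (card_S _) hD0
  have hB0 : 0 ≤ bs P (Z' := Z') F F' := Finset.sum_nonneg fun i _ => P.Hc_nonneg _ _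
  have h9 : (2 * e) ^ 2 = 4 * e ^ 2 := by ring
  have h8 : (2 * e) ^ 2 * P.Pr (fun w => 2 * e ≤ FS P (Z := Z) F S w - FS P (Z := Z') F' S w) ≤
      8 * (4 * (P.Hc (tup F) Z - P.Hc (tup F) Z') + bs P (Z' := Z') F F') := by
    refine h1.trans ?_
    linarith
  rw [h9] at h8
  linarith

/-- **exits of the density** -/
theorem exD (S : Finset (Fin 3)) {e : ℝ} (e0 : 0 < e) (e1 : e ≤ 1) (hF : ∀ i, Fac (F' i) (F i)) (hZ : Fac Z' Z) :
    e ^ 2 * P.Pr (fun w => e ≤ |Ld P (rs F' S) Z' w - Ld P (rs F S) Z w|) ≤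
      900 * ((P.Hc (tup F) Z - P.Hc (tup F) Z') + bs P (Z' := Z') F F') := by
  have h1 := ld_pr3 P (card_S S) (F := rs F S) (F' := rs F' S) (fun i => hF i.1) hZ e0 e1
  have h2 : P.Hc (tup (rs F S)) Z - P.Hc (tup (rs F S)) Z' ≤ P.Hc (tup F) Z - P.Hc (tup F) Z' :=
    drop_mono P (rs_fac F S) hZ
  have h3 := bs_S P (F := F) (F' := F') (Z' := Z') S
  have hB0 : 0 ≤ bs P (Z' := Z') F F' := Finset.sum_nonneg fun i _ => P.Hc_nonneg _ _
  refine h1.trans ?_
  linarith

/-- the core of the kind -/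
def co (Z : Om → υ) (F : Fin 3 → Om → φ) (c : KC) (k : ℕ) (w : Om) (f : Fin 3 → φ) : Prop :=
  if k = 2 then bad P Z F c 0 w f else if k = 3 then bad P Z F c 1 w f else if k = 4 then bad P Z F c 2 w f
  else Ap P Z F c k w f

/-- gap of the thresholds of the kind -/
structure Gap (η : ℝ) (c c' : KC) (k : ℕ) : Prop where
  g1 : k = 1 → c'.e1 + η ≤ c.e1
  g2 : 2 ≤ k → k ≤ 5 → c'.e2 + η ≤ c.e2
  g3 : 6 ≤ k → k ≤ 8 → c'.e3 + η ≤ c.e3
  gd : 6 ≤ k → k ≤ 9 → c'.dH + 2 * η ≤ c.dH ∧ c.dH ≤ 1 ∧ 0 ≤ c'.dH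

theorem co_fac (c : KC) (k : ℕ) (f : Fin 3 → φ) : Fac Z (fun w => co P Z F c k w f) := by
  intro a b hab
  have h1 : Ap P Z F c k a f = Ap P Z F c k b f := Ap_fac P F c k f a b hab
  have h2 : ∀ i, bad P Z F c i a f = bad P Z F c i b f := fun i => bad_fac P F c i f a b hab
  show co P Z F c k a f = co P Z F c k b f
  unfold co
  simp only [h1, h2]

/-- a tuple of the kind is in the core -/
theorem kd_co {c : KC} {k : Fin 10} {w : Om} {f : Fin 3 → φ} (h : kdF P Z F c k w f) : co P Z F c k w f := by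
  have h1 := h.1
  unfold co
  split_ifs with a b d
  · rw [a] at h1; exact h1.1
  · rw [b] at h1; exact h1.1
  · rw [d] at h1; exact h1.1
  · exact h1

/-- a tuple in the core is of a kind up to `max k 5` -/
theorem co_kd {c : KC} {k : Fin 10} {w : Om} {f : Fin 3 → φ} (h : co P Z F c k w f) :
    ∃ j : Fin 10, (j ≤ k ∨ j ≤ 5) ∧ kdF P Z F c j w f := by
  have hb : ∀ i, bad P Z F c i w f → ∃ j : Fin 10, (j ≤ k ∨ j ≤ 5) ∧ kdF P Z F c j w f := fun i hi => by
    rcases bad_kd hi with h1 | h1 | h1 | h1 | h1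
    exacts [⟨1, Or.inr (by decide), h1⟩, ⟨2, Or.inr (by decide), h1⟩, ⟨3, Or.inr (by decide), h1⟩,
      ⟨4, Or.inr (by decide), h1⟩, ⟨5, Or.inr (by decide), h1⟩]
  unfold co at h
  split_ifs at h
  · exact hb _ h
  · exact hb _ h
  · exact hb _ h
  · obtain ⟨j, h1, h2⟩ := Ap_kd h
    exact ⟨j, Or.inl h1, h2⟩

theorem abs_log_of {a b x y e : ℝ} (hx : 0 < x) (hy : 0 < y) (hb : 0 ≤ b) (hab : b + 2 * e ≤ a) (ha : a ≤ 1) (e0 : 0 < e)
    (h1 : a ≤ |x - 1|) (h2 : |y - 1| < b) : e ≤ |Real.log y - Real.log x| := by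
  rw [abs_lt] at h2
  rcases le_abs.1 h1 with h | h
  · -- x is large
    have h3 : Real.log (y / x) ≤ y / x - 1 := Real.log_le_sub_one_of_pos (div_pos hy hx)
    rw [Real.log_div hy.ne' hx.ne'] at h3
    have h4 : y / x - 1 ≤ - e := by
      have h5 : y / x ≤ 1 - e := by
        rw [div_le_iff₀ hx]
        nlinarith
      linarith
    rw [abs_sub_comm]
    exact (by linarith : e ≤ Real.log x - Real.log y).trans (le_abs_self _)
  · -- x is small
    have h3 : Real.log (x / y) ≤ x / y - 1 := Real.log_le_sub_one_of_pos (div_pos hx hy)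
    rw [Real.log_div hx.ne' hy.ne'] at h3
    have h4 : x / y - 1 ≤ - e := by
      have h5 : x / y ≤ 1 - e := by
        rw [div_le_iff₀ hy]
        nlinarith
      linarith
    exact (by linarith : e ≤ Real.log y - Real.log x).trans (le_abs_self _)

theorem abs_log_of' {a b x y e : ℝ} (hx : 0 < x) (hy : 0 < y) (hb : 0 ≤ b) (hab : b + 2 * e ≤ a) (ha : a ≤ 1) (e0 : 0 < e)
    (h1 : 1 + 4 * a ≤ x) (h2 : y < 1 + 4 * b) : e ≤ |Real.log y - Real.log x| := by
  have h3 : Real.log (y / x) ≤ y / x - 1 := Real.log_le_sub_one_of_pos (div_pos hy hx)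
  rw [Real.log_div hy.ne' hx.ne'] at h3
  have h4 : y / x - 1 ≤ - e := by
    have h5 : y / x ≤ 1 - e := by
      rw [div_le_iff₀ hx]
      nlinarith
    linarith
  rw [abs_sub_comm]
  exact (by linarith : e ≤ Real.log x - Real.log y).trans (le_abs_self _)

theorem bad_iff (c : KC) (i : Fin 3) {w : Om} (hw : P.p w ≠ 0) :
    bad P Z F c i w (tup F w) ↔ 2 * c.e2 ≤ FS P (Z := Z) F {i} w := by
  unfold bad
  rw [← FS_iff P F {i} c.e2 hw]
  exact ⟨fun h => h.2, fun h => ⟨pS_pos P F {i} hw, h⟩⟩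

/-- exits of the distance, thresholds -/
theorem exE (S : Finset (Fin 3)) {a b e : ℝ} (e0 : 0 ≤ e) (hab : b + e ≤ a) (hF : ∀ i, Fac (F' i) (F i)) (hZ : Fac Z' Z) :
    e ^ 2 * P.Pr (fun w => 2 * a ≤ FS P (Z := Z) F S w ∧ ¬ 2 * b ≤ FS P (Z := Z') F' S w) ≤
      8 * ((P.Hc (tup F) Z - P.Hc (tup F) Z') + bs P (Z' := Z') F F') := by
  refine le_trans (mul_le_mul_of_nonneg_left (P.Pr_mono fun w _ h => ?_) (sq_nonneg e)) (exS P S e0 hF hZ)
  have h2 := not_le.1 h.2
  linarith [h.1]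

theorem ex_bad {c c' : KC} (i : Fin 3) {e : ℝ} (e0 : 0 ≤ e) (hab : c'.e2 + e ≤ c.e2) (hF : ∀ i, Fac (F' i) (F i))
    (hZ : Fac Z' Z) :
    e ^ 2 * P.Pr (fun w => bad P Z F c i w (tup F w) ∧ ¬ bad P Z' F' c' i w (tup F' w)) ≤
      8 * ((P.Hc (tup F) Z - P.Hc (tup F) Z') + bs P (Z' := Z') F F') := by
  refine le_trans (mul_le_mul_of_nonneg_left (P.Pr_mono fun w hw h => ?_) (sq_nonneg e)) (exE P {i} e0 hab hF hZ)
  rw [bad_iff P c i hw, bad_iff P c' i hw] at h
  exact h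

/-- exits of the pairs and the triples -/
theorem ex_pair {c c' : KC} (S : Finset (Fin 3)) {e : ℝ} (e0 : 0 < e) (hab : c'.e3 + e ≤ c.e3)
    (hd : c'.dH + 2 * e ≤ c.dH ∧ c.dH ≤ 1 ∧ 0 ≤ c'.dH) (hF : ∀ i, Fac (F' i) (F i)) (hZ : Fac Z' Z) :
    e ^ 2 * P.Pr (fun w =>
      (0 < pS P Z F S w (tup F w) ∧ (c.dH ≤ |KF.dens P Z F S w (tup F w) - 1| ∨
        2 * c.e3 * pS P Z F S w (tup F w) ≤ tvn P Z F S w (tup F w))) ∧
      ¬ (0 < pS P Z' F' S w (tup F' w) ∧ (c'.dH ≤ |KF.dens P Z' F' S w (tup F' w) - 1| ∨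
        2 * c'.e3 * pS P Z' F' S w (tup F' w) ≤ tvn P Z' F' S w (tup F' w)))) ≤
      908 * ((P.Hc (tup F) Z - P.Hc (tup F) Z') + bs P (Z' := Z') F F') := by
  have h1 := exE P S e0.le hab hF hZ
  have h2 := exD P S e0 (by linarith : e ≤ 1) hF hZ
  have h3 : P.Pr (fun w =>
      (0 < pS P Z F S w (tup F w) ∧ (c.dH ≤ |KF.dens P Z F S w (tup F w) - 1| ∨
        2 * c.e3 * pS P Z F S w (tup F w) ≤ tvn P Z F S w (tup F w))) ∧
      ¬ (0 < pS P Z' F' S w (tup F' w) ∧ (c'.dH ≤ |KF.dens P Z' F' S w (tup F' w) - 1| ∨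
        2 * c'.e3 * pS P Z' F' S w (tup F' w) ≤ tvn P Z' F' S w (tup F' w)))) ≤
      P.Pr (fun w => 2 * c.e3 ≤ FS P (Z := Z) F S w ∧ ¬ 2 * c'.e3 ≤ FS P (Z := Z') F' S w) +
      P.Pr (fun w => e ≤ |Ld P (rs F' S) Z' w - Ld P (rs F S) Z w|) := by
    refine (P.Pr_mono fun w hw h => ?_).trans (P.Pr_or_le _ _)
    obtain ⟨⟨_, h4⟩, h5⟩ := h
    rw [FS_iff P F S c.e3 hw] at h4
    rw [FS_iff P F' S c'.e3 hw] at h5
    have h6 : ¬ (c'.dH ≤ |KF.dens P Z' F' S w (tup F' w) - 1| ∨ 2 * c'.e3 ≤ FS P (Z := Z') F' S w) := fun h =>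
      h5 ⟨pS_pos P F' S hw, h⟩
    push Not at h6
    rcases h4 with h4 | h4
    · right
      obtain ⟨a1, a2⟩ := dens_self P (Z := Z) F S hw
      obtain ⟨b1, b2⟩ := dens_self P (Z := Z') F' S hw
      rw [← a2, ← b2]
      exact abs_log_of a1 b1 hd.2.2 hd.1 hd.2.1 e0 h4 h6.1
    · left
      exact ⟨h4, not_le.2 h6.2⟩
  have h4 := mul_le_mul_of_nonneg_left h3 (sq_nonneg e)
  rw [mul_add] at h4
  linarith

/-- **EXITS FOR EVERY KIND** -/
theorem exit_k {c c' : KC} {k : ℕ} {e : ℝ} (e0 : 0 < e) (hg : Gap e c c' k) (hF : ∀ i, Fac (F' i) (F i)) (hZ : Fac Z' Z) :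
    e ^ 2 * P.Pr (fun w => co P Z F c k w (tup F w) ∧ ¬ co P Z' F' c' k w (tup F' w)) ≤
      1000 * ((P.Hc (tup F) Z - P.Hc (tup F) Z') + bs P (Z' := Z') F F') := by
  have hD0 : 0 ≤ P.Hc (tup F) Z - P.Hc (tup F) Z' := drop_nonneg P (tup F) hZ
  have hB0 : 0 ≤ bs P (Z' := Z') F F' := Finset.sum_nonneg fun i _ => P.Hc_nonneg _ _
  have up : ∀ {x K : ℝ}, x ≤ K * ((P.Hc (tup F) Z - P.Hc (tup F) Z') + bs P (Z' := Z') F F') → K ≤ 1000 →
      x ≤ 1000 * ((P.Hc (tup F) Z - P.Hc (tup F) Z') + bs P (Z' := Z') F F') := fun h hK =>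
    h.trans (mul_le_mul_of_nonneg_right hK (add_nonneg hD0 hB0))
  have zero : ∀ {s : Om → Prop}, (∀ w, ¬ s w) → e ^ 2 * P.Pr s ≤
      1000 * ((P.Hc (tup F) Z - P.Hc (tup F) Z') + bs P (Z' := Z') F F') := fun {s} hs => by
    have h1 : P.Pr s = 0 := by
      unfold FP.Pr
      rw [P.E_congr (g := fun _ => (0 : ℝ)) fun w _ => ind_not (hs w), P.E_const]
    rw [h1, mul_zero]
    positivity
  rcases Nat.lt_or_ge k 10 with hk | hk
  swap
  · refine zero fun w h => ?_
    have h1 := h.1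
    unfold co at h1
    rw [if_neg (by omega), if_neg (by omega), if_neg (by omega)] at h1
    unfold Ap at h1
    split at h1 <;> first | exact h1 | omega
  interval_cases k
  · -- nothing
    refine zero fun w h => ?_
    have h1 := h.1
    unfold co at h1
    rw [if_neg (by norm_num), if_neg (by norm_num), if_neg (by norm_num)] at h1
    exact h1
  · -- `R0`
    refine up (le_trans (mul_le_mul_of_nonneg_left (P.Pr_mono fun w hw h => ?_) (sq_nonneg e))
      (exE P ∅ (a := c.e1) (b := c'.e1) e0.le (hg.g1 rfl) hF hZ)) (by norm_num)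
    have h1 : 2 * c.e1 ≤ tvn P Z F ∅ w (tup F w) := h.1
    have h2 : ¬ 2 * c'.e1 ≤ tvn P Z' F' ∅ w (tup F' w) := h.2
    have h3 := FS_iff P (Z := Z) F ∅ c.e1 hw
    have h4 := FS_iff P (Z := Z') F' ∅ c'.e1 hw
    rw [pS_empty P F hw, mul_one] at h3
    rw [pS_empty P F' hw, mul_one] at h4
    exact ⟨h3.1 h1, fun h => h2 (h4.2 h)⟩
  · exact up (ex_bad P 0 e0.le (hg.g2 (by norm_num) (by norm_num)) hF hZ) (by norm_num)
  · exact up (ex_bad P 1 e0.le (hg.g2 (by norm_num) (by norm_num)) hF hZ) (by norm_num)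
  · exact up (ex_bad P 2 e0.le (hg.g2 (by norm_num) (by norm_num)) hF hZ) (by norm_num)
  · -- two bad tops
    have h0 := ex_bad P (c := c) (c' := c') 0 e0.le (hg.g2 (by norm_num) (by norm_num)) hF hZ
    have h1 := ex_bad P (c := c) (c' := c') 1 e0.le (hg.g2 (by norm_num) (by norm_num)) hF hZ
    have h2 := ex_bad P (c := c) (c' := c') 2 e0.le (hg.g2 (by norm_num) (by norm_num)) hF hZ
    have h3 : P.Pr (fun w => co P Z F c 5 w (tup F w) ∧ ¬ co P Z' F' c' 5 w (tup F' w)) ≤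
        P.Pr (fun w => bad P Z F c 0 w (tup F w) ∧ ¬ bad P Z' F' c' 0 w (tup F' w)) +
        P.Pr (fun w => bad P Z F c 1 w (tup F w) ∧ ¬ bad P Z' F' c' 1 w (tup F' w)) +
        P.Pr (fun w => bad P Z F c 2 w (tup F w) ∧ ¬ bad P Z' F' c' 2 w (tup F' w)) := by
      refine (P.Pr_mono (t := fun w => ((bad P Z F c 0 w (tup F w) ∧ ¬ bad P Z' F' c' 0 w (tup F' w)) ∨
        (bad P Z F c 1 w (tup F w) ∧ ¬ bad P Z' F' c' 1 w (tup F' w))) ∨
        (bad P Z F c 2 w (tup F w) ∧ ¬ bad P Z' F' c' 2 w (tup F' w))) fun w hw h => ?_).trans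
        ((P.Pr_or_le _ _).trans (add_le_add (P.Pr_or_le _ _) le_rfl))
      have h4 : (bad P Z F c 0 w (tup F w) ∧ bad P Z F c 1 w (tup F w)) ∨
        (bad P Z F c 0 w (tup F w) ∧ bad P Z F c 2 w (tup F w)) ∨
        (bad P Z F c 1 w (tup F w) ∧ bad P Z F c 2 w (tup F w)) := h.1
      have h5 : ¬ ((bad P Z' F' c' 0 w (tup F' w) ∧ bad P Z' F' c' 1 w (tup F' w)) ∨
        (bad P Z' F' c' 0 w (tup F' w) ∧ bad P Z' F' c' 2 w (tup F' w)) ∨
        (bad P Z' F' c' 1 w (tup F' w) ∧ bad P Z' F' c' 2 w (tup F' w))) := h.2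
      tauto
    have h4 := mul_le_mul_of_nonneg_left h3 (sq_nonneg e)
    rw [mul_add, mul_add] at h4
    refine up (K := 24) ?_ (by norm_num)
    linarith
  · exact up (ex_pair P (opp 0) e0 (hg.g3 (by norm_num) (by norm_num)) (hg.gd (by norm_num) (by norm_num)) hF hZ)
      (by norm_num)
  · exact up (ex_pair P (opp 1) e0 (hg.g3 (by norm_num) (by norm_num)) (hg.gd (by norm_num) (by norm_num)) hF hZ)
      (by norm_num)
  · exact up (ex_pair P (opp 2) e0 (hg.g3 (by norm_num) (by norm_num)) (hg.gd (by norm_num) (by norm_num)) hF hZ)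
      (by norm_num)
  · -- the triple
    obtain ⟨d1, d2, d3⟩ := hg.gd (by norm_num) (by norm_num)
    refine up (le_trans (mul_le_mul_of_nonneg_left (P.Pr_mono fun w hw h => ?_) (sq_nonneg e))
      (exD P univ e0 (by linarith) hF hZ)) (by norm_num)
    have h1 : 1 + 4 * c.dH ≤ KF.dens P Z F univ w (tup F w) := h.1
    have h2 : ¬ 1 + 4 * c'.dH ≤ KF.dens P Z' F' univ w (tup F' w) := h.2
    obtain ⟨a1, a2⟩ := dens_self P (Z := Z) F univ hw
    obtain ⟨b1, b2⟩ := dens_self P (Z := Z') F' univ hw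
    rw [← a2, ← b2]
    exact abs_log_of' a1 b1 d3 d1 d2 e0 h1 (not_le.1 h2)

end kf

end

end Pool.Agent.GMH.ExK
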