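import Pool.Agent.GMH.ExitV
import Pool.Agent.GMH.ConT3

/-!
# GMH/ExitN (helper99): THE NUMBERS OF THE EXITS (row C6)

* `kch R Lam eF` = half of the thresholds `kc0` : **the relation of the stays** (fixed, whatever the pigeonhole gives);
  `qK_kch` : its kinds `>= 2` have class mass at most `4^4 x^(-q)`, `q` of the round G;
* `ek R Lam k` = eighth of the threshold of the kind; `gap_k` : the gap from any `c` with all thresholds at least three quarters
  of `kc0` (and `dH <= 1`);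
* **`exit_km`**, **`exit_kz`** : the exits of the kind `k` : `180000 Lam / ek^2 + 5 <= x^km`, `<= x^kz` of its round.
-/

set_option autoImplicit false
set_option linter.unusedSectionVars false

namespace Pool.Agent.GMH.ExK

open Finset Pool.Agent.PWZ Pool.Agent.M3 Pool.Agent.GMH Pool.Agent.GMH.Exit3 Pool.Agent.GMH.KF
open Pool.Agent.GM Pool.Agent.GM.Harm Pool.Agent.GMH.NZ Pool.Agent.GMH.TP Pool.Agent.GMH.V3 Pool.Agent.GMH.Dy
open Pool.Agent.GMH.CT

noncomputable section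

/-- the thresholds of the stays -/
def kch (R : Rounds) (Lam eF : ℝ) : KC :=
  ⟨eF, ix Lam R.eta1 / 2, ix Lam R.eta2 / 2, ix Lam R.eta3 / 2, ix Lam R.kd / 2, ix Lam R.ks⟩

/-- lower bounds of the thresholds at the end of a life -/
structure KcL (R : Rounds) (Lam : ℝ) (c : KC) : Prop where
  l1 : 3 / 4 * ix Lam R.eta1 ≤ c.e1
  l2 : 3 / 4 * ix Lam R.eta2 ≤ c.e2
  l3 : 3 / 4 * ix Lam R.eta3 ≤ c.e3
  ld : 3 / 4 * ix Lam R.kd ≤ c.dH
  u : c.dH ≤ 1

/-- eighth of the threshold of the kind -/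
def ek (R : Rounds) (Lam : ℝ) (k : ℕ) : ℝ :=
  (if k ≤ 1 then ix Lam R.eta1 else if k ≤ 5 then ix Lam R.eta2 else if k ≤ 8 then ix Lam R.eta3 else ix Lam R.kd) / 8

variable {R : Rounds} {Lam : ℝ} (hL : 2 ≤ Lam)

include hL

theorem ek_pos (k : ℕ) : 0 < ek R Lam k := by
  unfold ek
  split_ifs <;> exact div_pos (ix_pos hL _) (by norm_num)

theorem KcL.of_B {c : KC} (h : KcB R Lam c) (hu : c.dH ≤ 1) : KcL R Lam c := by
  have p : ∀ k, 0 ≤ ix Lam k := fun k => ix_nn hL k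
  have := h.l1
  have := h.l2
  have := h.l3
  have := h.ld
  have := p R.eta1
  have := p R.eta2
  have := p R.eta3
  have := p R.kd
  exact ⟨by linarith, by linarith, by linarith, by linarith, hu⟩

/-- **the gap of the kind** -/
theorem gap_k {c : KC} (h : KcL R Lam c) (eF : ℝ) {k : ℕ} (hk : k ≤ 9) : Gap (ek R Lam k) c (kch R Lam eF) k := by
  have p : ∀ k, 0 ≤ ix Lam k := fun k => ix_nn hL k
  have p1 := p R.eta1
  have p2 := p R.eta2
  have p3 := p R.eta3
  have pd := p R.kd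
  have o := R.eta_ord
  have i3d : ix Lam R.eta3 ≤ ix Lam R.kd := ix_anti hL o.1
  refine ⟨fun e => ?_, fun e1 e2 => ?_, fun e1 e2 => ?_, fun e1 e2 => ?_⟩
  · subst e
    have : ek R Lam 1 = ix Lam R.eta1 / 8 := by unfold ek; rw [if_pos (by norm_num)]
    rw [this]
    show ix Lam R.eta1 / 2 + ix Lam R.eta1 / 8 ≤ c.e1
    linarith [h.l1]
  · have : ek R Lam k = ix Lam R.eta2 / 8 := by unfold ek; rw [if_neg (by omega), if_pos e2]
    rw [this]
    show ix Lam R.eta2 / 2 + ix Lam R.eta2 / 8 ≤ c.e2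
    linarith [h.l2]
  · have : ek R Lam k = ix Lam R.eta3 / 8 := by unfold ek; rw [if_neg (by omega), if_neg (by omega), if_pos e2]
    rw [this]
    show ix Lam R.eta3 / 2 + ix Lam R.eta3 / 8 ≤ c.e3
    linarith [h.l3]
  · refine ⟨?_, h.u, ?_⟩
    · have : ek R Lam k ≤ ix Lam R.kd / 8 := by
        unfold ek
        rw [if_neg (by omega), if_neg (by omega)]
        split_ifs
        · linarith
        · exact le_rfl
      show ix Lam R.kd / 2 + 2 * ek R Lam k ≤ c.dH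
      linarith [h.ld]
    · show 0 ≤ ix Lam R.kd / 2
      positivity

/-- the exponent of the threshold of the kind -/
def etk (R : Rounds) (k : ℕ) : ℕ := if k ≤ 1 then R.eta1 else if k ≤ 5 then R.eta2 else if k ≤ 8 then R.eta3 else R.kd

omit hL in
theorem ek_etk (R : Rounds) (Lam : ℝ) (k : ℕ) : ek R Lam k = ix Lam (etk R k) / 8 := by
  unfold ek etk
  split_ifs <;> rfl

/-- **the weight of the exits**, any exponent -/
theorem exit_num {k m : ℕ} (hm : 14 + 2 * etk R k ≤ m) : 180000 * Lam / ek R Lam k ^ 2 + 5 ≤ pw Lam m := by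
  have hb := kc0_B R hL 0
  set eta := etk R k with he0
  have he : ek R Lam k = ix Lam eta / 8 := ek_etk R Lam k
  have p := ix_pos hL eta
  have h1 : 180000 * Lam / ek R Lam k ^ 2 + 5 ≤ 4 ^ 13 * Lam / ix Lam eta ^ 2 := by
    rw [he]
    have e1 : 180000 * Lam / (ix Lam eta / 8) ^ 2 = 11520000 * Lam / ix Lam eta ^ 2 := by
      field_simp
      ring
    rw [e1]
    have i1 : ix Lam eta ≤ 1 := by
      have := ix_anti hL (Nat.zero_le eta)
      have e0 : ix Lam 0 = 1 := by unfold CT.ix pw; simp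
      rw [e0] at this
      exact this
    have h2 : (5 : ℝ) ≤ 5 * Lam / ix Lam eta ^ 2 := by
      rw [le_div_iff₀ (by positivity)]
      have : ix Lam eta ^ 2 ≤ 1 := pow_le_one₀ p.le i1
      nlinarith
    have h3 : 11520000 * Lam / ix Lam eta ^ 2 + 5 * Lam / ix Lam eta ^ 2 ≤ 4 ^ 13 * Lam / ix Lam eta ^ 2 := by
      rw [← add_div]
      refine div_le_div_of_nonneg_right ?_ (by positivity)
      nlinarith
    linarith
  exact h1.trans (hb.ex_gen hL (eta := eta) (kp := 13) le_rfl le_rfl (by omega))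

omit hL in
/-- `km`, `kz` of the round of the kind -/
theorem rd_kmz (R : Rounds) {k : ℕ} : R.kp + 2 * etk R k ≤ (CT.rd R k).km ∧ R.kz + 2 * etk R k ≤ (CT.rd R k).kz := by
  unfold CT.rd etk
  split_ifs
  · show R.kp + 2 * R.eta1 ≤ R.kp + 2 * R.eta1 + 4 ∧ R.kz + 2 * R.eta1 ≤ R.kz + 2 * R.eta1 + 4
    omega
  · exact ⟨le_rfl, le_rfl⟩
  · exact ⟨le_rfl, le_rfl⟩
  · exact ⟨le_rfl, le_rfl⟩

/-- **the weight of the exits** -/
theorem exit_km {k : ℕ} (hp : 14 ≤ R.kp) : 180000 * Lam / ek R Lam k ^ 2 + 5 ≤ pw Lam (CT.rd R k).km :=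
  exit_num hL (by have := (rd_kmz R (k := k)).1; omega)

/-- **the weight of the exits at the zones** -/
theorem exit_kz {k : ℕ} (hp : 14 ≤ R.kz) : 180000 * Lam / ek R Lam k ^ 2 + 5 ≤ pw Lam (CT.rd R k).kz :=
  exit_num hL (by have := (rd_kmz R (k := k)).2; omega)

omit hL in
theorem half_num {a b c d : ℝ} (ha : 0 < a) (hb : 0 < b) (hc : 0 < c) (hd : 0 < d) :
    2 * (a / 2) * (2 / (b / 2) + 1 / (d / 2) + 1 + 1 / (c / 2)) ≤ 2 * (2 * a * (2 / b + 1 / d + 1 + 1 / c)) := by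
  have e : 2 * (a / 2) * (2 / (b / 2) + 1 / (d / 2) + 1 + 1 / (c / 2)) =
      2 * a * (2 / b + 1 / d + 1 / 2 + 1 / c) := by
    field_simp
    try ring
  rw [e]
  have h3 : 0 ≤ 2 / b + 1 / d + 1 + 1 / c := by positivity
  nlinarith [mul_nonneg ha.le h3]

/-- class mass of the kinds of the stays -/
theorem qK_kch (eF : ℝ) : qK (kch R Lam eF) ≤ 4 ^ 4 * ix Lam R.G.q := by
  have h1 := (kc0_B R hL eF).qK_le hL
  have h2 : qK (kch R Lam eF) ≤ 2 * qK (kc0 R Lam eF) :=
    half_num (ix_pos hL R.eta1) (ix_pos hL R.eta2) (ix_pos hL R.eta3) (ix_pos hL R.kd)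
  have h3 := ix_pos hL R.G.q
  have h4 : (4 : ℝ) ^ 4 * ix Lam R.G.q = 256 * ix Lam R.G.q := by norm_num
  have h5 : (4 : ℝ) ^ 3 * ix Lam R.G.q = 64 * ix Lam R.G.q := by norm_num
  rw [h4]
  rw [h5] at h1
  linarith

end

end Pool.Agent.GMH.ExK
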