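import Pool.Agent.GMH.TTot

/-!
# GMH/TopG: the gains of the tops, helper91

For a run: the sum over the times of what the top `i` learns from the digits and from the codes of the lower letters is at
most the entropy of its label, `Lam` (births, hypothesis H2); `top_gain`.
-/

set_option autoImplicit false
set_option linter.unusedSectionVars false

namespace Pool.Agent.GMH.V3

open Finset Pool.Agent.PWZ Pool.Agent.M3 Pool.Agent.GM Pool.Agent.GM.Harm Pool.Agent.GMH Pool.Agent.GMH.NZ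

namespace TG

variable {X β γ φ : Type} [Fintype X] [Fintype β] [Fintype φ] [Nonempty X] [Nonempty β]
variable {D : HD (Fin 3) X β γ φ} {al : ℝ} (h : D.Thick al)
  {v : ℕ → Finset (Fin 3) → X → (Fin 3 → β) → Pt (Fin 3) X β φ}
variable {dg : ℕ → X → ℝ} {prr : ℕ → Fin 3 → φ → φ} {T : ℕ} {Lam : ℝ}

/-- births of a top, any further information which does not see the labels -/
theorem birth_gen {υ : Type} {t : ℕ}
    (hpr : ∀ l x y F, D.kf t l x y F = ∑ F', ind (prr t l F' = F) * D.kf (t + 1) l x y F') (l : Fin 3)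
    (U : Finset (Fin 3) → X → (Fin 3 → β) → υ) {ι : Type*} {Z : Pt (Fin 3) X β φ → ι}
    (hZ : ∀ w, Z (old prr t w) = Z w) :
    (D.P h (t + 1)).Hc (LL U (univ.erase l)) (fun w => (Z w, BB D (t + 1) (univ.erase l) w)) ≤
      (D.P h t).Hc (LL U (univ.erase l)) (fun w => (Z w, BB D (t + 1) (univ.erase l) w)) + birth h prr t l := by
  set J : Finset (Fin 3) := univ.erase l with hJ
  have e1 : (D.P h t).Hc (LL U J) (fun w => (Z w, BB D (t + 1) J w)) =
      (D.P h (t + 1)).Hc (fun w => LL U J (old prr t w)) (fun w => (Z w, BB D (t + 1) J w)) := by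
    rw [← push_Hc h hpr (LL U J) (fun w => (Z w, BB D (t + 1) J w))]
    congr 1
    funext w
    rw [hZ, BB_old]
  rw [e1]
  have h1 : (D.P h (t + 1)).Hc (LL U J) (fun w => (Z w, BB D (t + 1) J w)) ≤
      (D.P h (t + 1)).Hc (fun w => (w.2.2 l, LL U J (old prr t w))) (fun w => (Z w, BB D (t + 1) J w)) := by
    refine (D.P h (t + 1)).Hc_mono _ ?_
    intro a b hab
    simp only [Prod.mk.injEq] at hab
    obtain ⟨⟨h2, h3⟩, _⟩ := hab
    rw [LL_eq] at h3 ⊢
    refine ⟨h3.1, fun l' hl' => ?_⟩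
    have : l' = l := erase_inj' (hl'.trans hJ)
    rw [this]; exact h2
  have h2 := (D.P h (t + 1)).Hc_chain (fun w => w.2.2 l) (fun w => LL U J (old prr t w))
    (fun w => (Z w, BB D (t + 1) J w))
  have h3 : (D.P h (t + 1)).Hc (fun w => w.2.2 l) (fun w => (LL U J (old prr t w), Z w, BB D (t + 1) J w)) ≤
      (D.P h (t + 1)).Hc (fun w => w.2.2 l) (fun w => (prr t l (w.2.2 l), BB D (t + 1) J w)) := by
    refine (D.P h (t + 1)).Hc_anti _ ?_
    intro a b hab
    simp only [Prod.mk.injEq] at hab ⊢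
    have h4 := hab.1
    rw [LL_eq] at h4
    exact ⟨h4.2 l rfl, hab.2.2⟩
  have h4 := birth_BB h (prr := prr) (t := t) (J := J) (l := l) rfl
  rw [← h4]
  linarith

/-- the codes of the tops cost nothing -/
theorem top_code {n N1 : ℝ} (R : Run h (pr3 (Fin 3) n N1) (SS1 (Fin 3)) (AdmDep D) v) (hn : 1 ≤ n) (hN1 : 1 ≤ N1)
    (l : Fin 3) (t : ℕ) :
    (D.P h t).Hc (LL (Um v (t + 1)) (univ.erase l))
        (fun w => (lo (LL (Um v (t + 1))) (univ.erase l) w, BB D t (univ.erase l) w)) ≤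
      (D.P h t).Hc (LL (Um v t) (univ.erase l))
        (fun w => (lo (LL (Um v (t + 1))) (univ.erase l) w, BB D t (univ.erase l) w)) := by
  set J : Finset (Fin 3) := univ.erase l with hJ
  have hc : cost (D.P h t) (BB D t) (LL (Um v t)) (Vt v t) J = 0 := by
    refine R.top_cost (mem_SS1.2 (ne_univ l)) (top_max (fun hh => mem_SS1.1 hh rfl)) ?_ t
    exact zero_lt_one.trans_le (pr3_one hn hN1 _)
  have h1 : (D.P h t).Hc (LL (Um v (t + 1)) J) (fun w => (lo (LL (Um v (t + 1))) J w, BB D t J w)) ≤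
      (D.P h t).Hc (fun w => (Vt v t J w, LL (Um v t) J w)) (fun w => (lo (LL (Um v (t + 1))) J w, BB D t J w)) := by
    refine (D.P h t).Hc_mono _ ?_
    intro a b hab
    simp only [Prod.mk.injEq] at hab
    obtain ⟨⟨h2, h3⟩, _⟩ := hab
    rw [LL_eq] at h3 ⊢
    exact ⟨Um_eq.2 ⟨h3.1, h2⟩, h3.2⟩
  have h2 := (D.P h t).Hc_chain (Vt v t J) (LL (Um v t) J) (fun w => (lo (LL (Um v (t + 1))) J w, BB D t J w))
  have h3 : (D.P h t).Hc (Vt v t J) (fun w => (LL (Um v t) J w, lo (LL (Um v (t + 1))) J w, BB D t J w)) ≤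
      cost (D.P h t) (BB D t) (LL (Um v t)) (Vt v t) J := by
    unfold cost
    refine (D.P h t).Hc_anti _ ?_
    intro a b hab
    simp only [Prod.mk.injEq] at hab ⊢
    obtain ⟨h4, h5, h6⟩ := hab
    have h7 : ∀ I, I ⊂ J → LL (φ := φ) (Um v (t + 1)) I a = LL (Um v (t + 1)) I b := lo_eq.1 h5
    refine ⟨lo_eq.2 fun I hI => ?_, ?_, h6⟩
    · have := h7 I hI
      rw [LL_eq] at this
      exact (Um_eq.1 this.1).2
    · rw [le_eq]
      intro I hI
      rcases hI.eq_or_ssubset with rfl | hI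
      · exact h4
      · have := h7 I hI
        rw [LL_eq] at this ⊢
        exact ⟨(Um_eq.1 this.1).1, this.2⟩
  linarith

variable (v) in
/-- entropy of the top `i` before the digit -/
noncomputable def E0 (i : Fin 3) (t : ℕ) : ℝ := (D.P h t).Hc (FT v (Equiv.refl (Fin 3)) (t + 1) i)
  (ZbT D v (Equiv.refl (Fin 3)) (t + 1) t i)

variable (v) in
/-- entropy of the top `i` after the digit -/
noncomputable def E1 (i : Fin 3) (t : ℕ) : ℝ := (D.P h t).Hc (FT v (Equiv.refl (Fin 3)) (t + 1) i)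
  (ZbT D v (Equiv.refl (Fin 3)) (t + 1) (t + 1) i)

variable (v) in
/-- entropy of the top `i` after the codes -/
noncomputable def E2 (i : Fin 3) (t : ℕ) : ℝ := (D.P h t).Hc (FT v (Equiv.refl (Fin 3)) (t + 1) i)
  (ZbT D v (Equiv.refl (Fin 3)) (t + 2) (t + 1) i)

/-- the digit -/
theorem gain_digit (H : D.Hyp dg prr al T Lam) {t : ℕ} (ht : t < T) (i : Fin 3) :
    (D.P h t).I (fun u => dg t u.1) (FT v (Equiv.refl (Fin 3)) (t + 1) i) (ZbT D v (Equiv.refl (Fin 3)) (t + 1) t i) +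
      E1 h v i t ≤ E0 h v i t := by
  have h1 : (D.P h t).I (fun u => dg t u.1) (FT v (Equiv.refl (Fin 3)) (t + 1) i)
      (ZbT D v (Equiv.refl (Fin 3)) (t + 1) t i) = E0 h v i t - (D.P h t).Hc (FT v (Equiv.refl (Fin 3)) (t + 1) i)
        (fun w => (dg t w.1, ZbT D v (Equiv.refl (Fin 3)) (t + 1) t i w)) := by
    unfold E0
    rw [(D.P h t).I_eq_Hc']
  have h2 : E1 h v i t ≤ (D.P h t).Hc (FT v (Equiv.refl (Fin 3)) (t + 1) i)
        (fun w => (dg t w.1, ZbT D v (Equiv.refl (Fin 3)) (t + 1) t i w)) := by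
    unfold E1
    refine (D.P h t).Hc_anti _ ?_
    intro a b hab
    have h3 : lo (LL (φ := φ) (Um v (t + 1))) (univ.erase i) a = lo (LL (Um v (t + 1))) (univ.erase i) b :=
      congrArg Prod.fst hab
    have h4 : BB D (t + 1) (univ.erase i) a = BB D (t + 1) (univ.erase i) b := congrArg Prod.snd hab
    rw [BB_eq] at h4
    have h5 := (H.dg_cell t ht _ _).1 h4.2.1
    refine Prod.ext h5.2 (Prod.ext h3 ?_)
    show BB D t (univ.erase i) a = BB D t (univ.erase i) b
    rw [BB_eq]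
    exact ⟨h4.1, h5.1, fun j => D.rb t _ _ (h4.2.2 j)⟩
  linarith

/-- the codes and the births -/
theorem gain_codes (H : D.Hyp dg prr al T Lam) {n N1 : ℝ} (R : Run h (pr3 (Fin 3) n N1) (SS1 (Fin 3)) (AdmDep D) v)
    (hn : 1 ≤ n) (hN1 : 1 ≤ N1) {t : ℕ} (ht : t < T) (i : Fin 3) : E0 h v i (t + 1) ≤ E2 h v i t + birth h prr t i := by
  have h1 := top_code h R hn hN1 i (t + 1)
  have h2 := birth_gen h (t := t) (H.kf_pr t ht) i (Um v (t + 1))
    (Z := lo (LL (φ := φ) (Um v (t + 1 + 1))) (univ.erase i)) (fun w => lo_noLabel (ne_univ i) rfl rfl)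
  exact h1.trans h2

/-- the codes only lower the entropy -/
theorem E2_le (i : Fin 3) (t : ℕ) : E2 h v i t ≤ E1 h v i t := by
  unfold E2 E1
  refine (D.P h t).Hc_anti _ ?_
  intro a b hab
  have h3 : lo (LL (φ := φ) (Um v (t + 2))) (univ.erase i) a = lo (LL (Um v (t + 2))) (univ.erase i) b :=
    congrArg Prod.fst hab
  have h0 : BB D (t + 1) (univ.erase i) a = BB D (t + 1) (univ.erase i) b := congrArg Prod.snd hab
  refine Prod.ext (lo_eq.2 fun I hI => ?_) h0
  have h4 := lo_eq.1 h3 I hI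
  rw [LL_eq] at h4 ⊢
  exact ⟨(Um_eq.1 h4.1).1, h4.2⟩

theorem start_le {n N1 : ℝ} (R : Run h (pr3 (Fin 3) n N1) (SS1 (Fin 3)) (AdmDep D) v)
    (hn : 1 ≤ n) (hN1 : 1 ≤ N1) (i : Fin 3) : E0 h v i 0 ≤ birth0 h i := by
  have h1 := top_code h R hn hN1 i 0
  have h2 : (D.P h 0).Hc (LL (Um v 0) (univ.erase i))
      (fun w => (lo (LL (Um v (0 + 1))) (univ.erase i) w, BB D 0 (univ.erase i) w)) ≤
      GMH.ent (D.P h 0) (BB D 0) (LL (Um v 0)) (univ.erase i) := by
    unfold GMH.ent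
    refine (D.P h 0).Hc_anti _ ?_
    intro a b hab
    simp only [Prod.mk.injEq] at hab ⊢
    refine ⟨lo_eq.2 fun I hI => ?_, hab.2⟩
    have h4 := lo_eq.1 hab.1 I hI
    rw [LL_eq] at h4 ⊢
    exact ⟨rfl, h4.2⟩
  have h3 := ent_start h (v := v) (J := univ.erase i) (ne_univ i)
  have h4 : miss (univ.erase i : Finset (Fin 3)) = {i} := by
    ext l'
    rw [mem_miss, Finset.mem_singleton]
    exact ⟨fun hh => erase_inj' hh, fun hh => by rw [hh]⟩
  rw [h4, Finset.sum_singleton] at h3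
  exact h1.trans (h2.trans h3)

/-- **THE GAINS OF A TOP** : digits and codes together at most `Lam` -/
theorem top_gain (H : D.Hyp dg prr al T Lam) {n N1 : ℝ} (R : Run h (pr3 (Fin 3) n N1) (SS1 (Fin 3)) (AdmDep D) v)
    (hn : 1 ≤ n) (hN1 : 1 ≤ N1) (i : Fin 3) :
    ∑ t ∈ range T, ((D.P h t).I (fun u => dg t u.1) (FT v (Equiv.refl (Fin 3)) (t + 1) i)
      (ZbT D v (Equiv.refl (Fin 3)) (t + 1) t i) + (E1 h v i t - E2 h v i t)) ≤ Lam := by
  have key : ∀ S ≤ T, ∑ t ∈ range S, ((D.P h t).I (fun u => dg t u.1) (FT v (Equiv.refl (Fin 3)) (t + 1) i)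
      (ZbT D v (Equiv.refl (Fin 3)) (t + 1) t i) + (E1 h v i t - E2 h v i t)) + E0 h v i S ≤
      birth0 h i + ∑ t ∈ range S, birth h prr t i := by
    intro S
    induction S with
    | zero =>
      intro _
      rw [Finset.sum_range_zero, Finset.sum_range_zero, zero_add, add_zero]
      exact start_le h R hn hN1 i
    | succ S ih =>
      intro hS
      have h0 := ih (by omega)
      have h1 := gain_digit h (v := v) H (show S < T by omega) i
      have h2 := gain_codes h H R hn hN1 (show S < T by omega) i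
      rw [Finset.sum_range_succ, Finset.sum_range_succ]
      linarith
  have h1 := key T le_rfl
  have h2 := birth_le h H i
  have h3 : 0 ≤ E0 h v i T := FP.Hc_nonneg _ _ _
  linarith

end TG

end Pool.Agent.GMH.V3
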