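import Pool.Agent.GMH.ExitK
import Pool.Agent.GMH.Dyn
import Pool.Agent.GMH.TopG

/-!
# GMH/ExitQ (helper99): THE EXITS OF THE RUN (row C6)

* `co_pul` : the cores of `GMH/ExitK` are pulled back along a map of the laws; `co_mono` : smaller thresholds;
* `exit_2` : the inequality of the exits for the two tops which see a vertex (`Fo F i`);
* `Et t q` = entropy of the three tops of the time `t` given all thin letters of the state `q`; `births_i` : the new part of a
  top of the time `t + 1` is paid by its birth; `sum_drop` : drops and births of all levels are at most `6 Lam`;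
* `ck o c k q` : the core `k` of the true tuple, tables of the state `q`, on the space with label tables (`o = none` : three
  tops, `some i` : the two tops which see the vertex `i`);
* `ex_q` : exits from the state `q` to a later state of the same level, or to the state `5 (t + 1)`;
* **`exit_run`**, **`exit_eT`** : the sum over `q` of `P (ck c k q, not ck c' k at eT (q + 1))` is at most `60000 Lam / e^2`,
  `e` the gap of the thresholds.
-/

set_option autoImplicit false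
set_option linter.unusedSectionVars false

namespace Pool.Agent.GMH.ExK

open Finset Pool.Agent.PWZ Pool.Agent.M3 Pool.Agent.GMH Pool.Agent.GMH.Exit3 Pool.Agent.GMH.KF

noncomputable section

/-! ## pull back -/

section pul

variable {Om Om' : Type*} [Fintype Om] [Fintype Om'] {P : FP Om} {P' : FP Om'} {π : Om → Om'} {υ φ : Type*}
  {Z : Om' → υ} {F : Fin 3 → Om' → φ}

theorem pS_pul (H : Pul P P' π) (S : Finset (Fin 3)) (w : Om) (f : Fin 3 → φ) :
    pS P (fun u => Z (π u)) (fun i u => F i (π u)) S w f = pS P' Z F S (π w) f :=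
  H.ce Z (fun u => ind (∀ i ∈ S, F i u = f i)) w

theorem mF_pul (H : Pul P P' π) (i : Fin 3) (w : Om) (x : φ) :
    mF P (fun u => Z (π u)) (fun i u => F i (π u)) i w x = mF P' Z F i (π w) x :=
  H.ce Z (fun u => ind (F i u = x)) w

theorem pF_pul (H : Pul P P' π) (w : Om) (f : Fin 3 → φ) :
    pF P (fun u => Z (π u)) (fun i u => F i (π u)) w f = pF P' Z F (π w) f :=
  H.ce Z (fun u => ind (tup F u = f)) w

theorem dens_pul (H : Pul P P' π) (S : Finset (Fin 3)) (w : Om) (f : Fin 3 → φ) :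
    KF.dens P (fun u => Z (π u)) (fun i u => F i (π u)) S w f = KF.dens P' Z F S (π w) f := by
  unfold KF.dens
  rw [pS_pul H]
  congr 1
  exact Finset.prod_congr rfl fun i _ => mF_pul H i w (f i)

theorem tvn_pul (H : Pul P P' π) (S : Finset (Fin 3)) (w : Om) (f : Fin 3 → φ) :
    tvn P (fun u => Z (π u)) (fun i u => F i (π u)) S w f = tvn P' Z F S (π w) f := by
  classical
  unfold tvn
  have hsub : let_ (fun i u => F i (π u)) ⊆ let_ F := by
    intro g hg
    refine Fintype.mem_piFinset.2 fun i => ?_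
    obtain ⟨u, hu⟩ := exists_of_vals (Fintype.mem_piFinset.1 hg i)
    rw [← hu]
    exact FP.mem_vals (F i) (π u)
  rw [← Finset.sum_subset hsub fun g _ hg => ?_]
  · refine Finset.sum_congr rfl fun g _ => ?_
    rw [pF_pul H, pS_pul H, Finset.prod_congr rfl fun i _ => mF_pul H i w (g i)]
  · have h1 : ∃ i, g i ∉ vals (fun u => F i (π u)) := by
      by_contra hc
      push Not at hc
      exact hg (Fintype.mem_piFinset.2 hc)
    obtain ⟨i, hi⟩ := h1
    have hne : ∀ u, F i (π u) ≠ g i := fun u hu => hi (by rw [← hu]; exact FP.mem_vals (fun u => F i (π u)) u)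
    have z : ∀ {p : Om → Prop}, (∀ u, ¬ p u) → P.ce (fun u => Z (π u)) (fun u => ind (p u)) w = 0 := fun {p} hp => by
      unfold FP.ce
      have e : (fun v => ind (Z (π v) = Z (π w)) * ind (p v)) = fun _ => (0 : ℝ) := by
        funext v
        rw [ind_not (hp v), mul_zero]
      rw [e, P.E_const, zero_div]
    have h2 : pF P' Z F (π w) g = 0 := by
      rw [← pF_pul H]
      exact z fun u hu => hne u (congrFun hu i)
    have h3 : pS P' Z F S (π w) g * ∏ j ∈ univ \ S, mF P' Z F j (π w) (g j) = 0 := by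
      by_cases hS : i ∈ S
      · rw [← pS_pul H]
        have h4 : pS P (fun u => Z (π u)) (fun i u => F i (π u)) S w g = 0 := z fun u hu => hne u (hu i hS)
        rw [h4, zero_mul]
      · have h4 : mF P' Z F i (π w) (g i) = 0 := by
          rw [← mF_pul H]
          exact z fun u hu => hne u hu
        rw [Finset.prod_eq_zero (mem_sdiff.2 ⟨mem_univ i, hS⟩) h4, mul_zero]
    rw [h2, h3, sub_zero, abs_zero, mul_zero]

/-- **the cores are pulled back** -/
theorem co_pul (H : Pul P P' π) (c : KC) (k : ℕ) (w : Om) (f : Fin 3 → φ) :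
    co P (fun u => Z (π u)) (fun i u => F i (π u)) c k w f ↔ co P' Z F c k (π w) f := by
  have hb : ∀ i, bad P (fun u => Z (π u)) (fun i u => F i (π u)) c i w f ↔ bad P' Z F c i (π w) f := fun i => by
    unfold bad
    rw [pS_pul H, tvn_pul H]
  have hA : Ap P (fun u => Z (π u)) (fun i u => F i (π u)) c k w f ↔ Ap P' Z F c k (π w) f := by
    unfold Ap
    split <;> simp only [hb, pS_pul H, tvn_pul H, dens_pul H]
  unfold co
  simp only [hb, hA]

end pul

/-! ## two tops -/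

section two

variable {Om : Type*} [Fintype Om] (P : FP Om) {υ υ' φ φ' : Type*} {Z : Om → υ} {Z' : Om → υ'} {F : Fin 3 → Om → φ}
  {F' : Fin 3 → Om → φ'}

/-- **EXITS FOR THE TWO TOPS WHICH SEE A VERTEX** -/
theorem exit_2 (i : Fin 3) {c c' : KC} {k : ℕ} {e : ℝ} (e0 : 0 < e) (hg : Gap e c c' k) (hF : ∀ i, Fac (F' i) (F i))
    (hZ : Fac Z' Z) :
    e ^ 2 * P.Pr (fun w => co P Z (Fo F i) c k w (tup (Fo F i) w) ∧ ¬ co P Z' (Fo F' i) c' k w (tup (Fo F' i) w)) ≤
      1000 * ((P.Hc (tup F) Z - P.Hc (tup F) Z') + bs P (Z' := Z') F F') := by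
  have hFo : ∀ j, Fac (Fo F' i j) (Fo F i j) := fun j a b h => by
    unfold Fo at h ⊢
    by_cases hj : j = i
    · rw [if_pos hj, if_pos hj]
    · rw [if_neg hj, if_neg hj] at h ⊢
      rw [hF j a b (Option.some.inj h)]
  refine (exit_k P e0 hg hFo hZ).trans (mul_le_mul_of_nonneg_left (add_le_add ?_ ?_) (by norm_num))
  · refine drop_mono P (fun a b h => ?_) hZ
    funext j
    show Fo F i j a = Fo F i j b
    unfold Fo
    by_cases hj : j = i
    · rw [if_pos hj, if_pos hj]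
    · rw [if_neg hj, if_neg hj]
      exact congrArg some (congrFun h j)
  · unfold bs
    refine Finset.sum_le_sum fun j _ => ?_
    by_cases hj : j = i
    · have h1 : P.Hc (Fo F' i j) (fun v => (Fo F i j v, Z' v)) ≤ P.Hc (F' j) (fun v => (F j v, Z' v)) := by
        have h2 : P.Hc (Fo F' i j) (fun v => (Fo F i j v, Z' v)) ≤ 0 := by
          refine (V3.Hc_of_fac P ?_).le
          intro a b _
          unfold Fo
          rw [if_pos hj, if_pos hj]
        exact h2.trans (P.Hc_nonneg _ _)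
      exact h1
    · have h1 : P.Hc (Fo F' i j) (fun v => (Fo F i j v, Z' v)) ≤ P.Hc (F' j) (fun v => (Fo F i j v, Z' v)) := by
        refine P.Hc_mono _ ?_
        intro a b h
        have h2 := (Prod.mk.inj h).1
        unfold Fo
        rw [if_neg hj, if_neg hj, h2]
      refine h1.trans (P.Hc_anti _ ?_)
      intro a b h
      have h2 := (Prod.mk.inj h).1
      have h3 := (Prod.mk.inj h).2
      unfold Fo at h2
      rw [if_neg hj, if_neg hj] at h2
      exact Prod.ext (Option.some.inj h2) h3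

end two

/-! ## entropies of the run -/

section run

open Pool.Agent.GM Pool.Agent.GM.Harm Pool.Agent.GMH.NZ Pool.Agent.GMH.TP Pool.Agent.GMH.V3

variable {X β γ φ : Type} [Fintype X] [Fintype β] [Fintype φ] [Nonempty X] [Nonempty β]
variable {D : HD (Fin 3) X β γ φ} {al : ℝ} (h : D.Thick al)
  {v : ℕ → Finset (Fin 3) → X → (Fin 3 → β) → Pt (Fin 3) X β φ}
variable {dg : ℕ → X → ℝ} {prr : ℕ → Fin 3 → φ → φ} {T : ℕ} {Lam : ℝ}

theorem ZQ_old (prr : ℕ → Fin 3 → φ → φ) (t q : ℕ) (w : Pt (Fin 3) X β φ) : ZQ D v q (old prr t w) = ZQ D v q w := by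
  refine Prod.ext (funext fun J => ?_) rfl
  refine LL_eq.2 ⟨rfl, fun l hl => ?_⟩
  exfalso
  have h1 : (univ.erase l : Finset (Fin 3)).card ≤ 1 := by rw [hl]; exact J.2
  rw [Finset.card_erase_of_mem (mem_univ l), Finset.card_univ, Fintype.card_fin] at h1
  omega

theorem FQ_old (prr : ℕ → Fin 3 → φ → φ) (t : ℕ) (i : Fin 3) :
    Fac (FQ (X := X) (β := β) (φ := φ) v (t + 1) i) (fun w => FQ v t i (old prr t w)) := by
  intro a b hab
  unfold FQ FT at hab ⊢
  rw [LL_eq] at hab ⊢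
  refine ⟨(Um_eq.1 hab.1).1, fun l hl => ?_⟩
  show prr t l (a.2.2 l) = prr t l (b.2.2 l)
  rw [hab.2 l hl]

/-- **the new part of a top** is paid by its birth -/
theorem births_i {n N1 : ℝ} (R : Run h (pr3 (Fin 3) n N1) (SS1 (Fin 3)) (AdmDep D) v)
    (hn : 1 ≤ n) (hN1 : 1 ≤ N1) (t : ℕ) (i : Fin 3) :
    (D.P h (t + 1)).Hc (FQ v (t + 1) i) (fun w => (FQ v t i (old prr t w), ZQ D v (5 * t + 5) w)) ≤ birth h prr t i := by
  set J : Finset (Fin 3) := univ.erase i with hJ
  have hn5 : TP.nn (5 * t + 5) = t + 1 := by rw [nn_add t 5 le_rfl]; rfl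
  have hc : cost (D.P h (t + 1)) (BB D (t + 1)) (LL (Um v (t + 1))) (GMH.Vt v (t + 1)) J = 0 := by
    refine R.top_cost (mem_SS1.2 (ne_univ i)) (top_max (fun hh => mem_SS1.1 hh rfl)) ?_ (t + 1)
    exact zero_lt_one.trans_le (pr3_one hn hN1 _)
  -- the parts of the top
  have h1 : (D.P h (t + 1)).Hc (FQ v (t + 1) i) (fun w => (FQ v t i (old prr t w), ZQ D v (5 * t + 5) w)) ≤
      (D.P h (t + 1)).Hc (fun w => (GMH.Vt v (t + 1) J w, w.2.2 i))
        (fun w => (FQ v t i (old prr t w), ZQ D v (5 * t + 5) w)) := by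
    refine (D.P h (t + 1)).Hc_mono _ ?_
    intro a b hab
    have h2 := (Prod.mk.inj (Prod.mk.inj hab).1).1
    have h3 := (Prod.mk.inj (Prod.mk.inj hab).1).2
    have h4 := (Prod.mk.inj (Prod.mk.inj hab).2).1
    unfold FQ FT at h4 ⊢
    rw [LL_eq] at h4 ⊢
    refine ⟨Um_eq.2 ⟨h4.1, h2⟩, fun l hl => ?_⟩
    have : l = i := erase_inj' (hl.trans rfl)
    rw [this]
    exact h3
  have h2 := (D.P h (t + 1)).Hc_chain (GMH.Vt v (t + 1) J) (fun w => w.2.2 i)
    (fun w => (FQ v t i (old prr t w), ZQ D v (5 * t + 5) w))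
  have h3 : (D.P h (t + 1)).Hc (fun w => w.2.2 i) (fun w => (FQ v t i (old prr t w), ZQ D v (5 * t + 5) w)) ≤
      birth h prr t i := by
    rw [← birth_BB h (prr := prr) (t := t) (J := J) (l := i) rfl]
    refine (D.P h (t + 1)).Hc_anti _ ?_
    intro a b hab
    have h4 := (Prod.mk.inj hab).1
    have h5 := (Prod.mk.inj hab).2
    unfold FQ FT at h4
    rw [LL_eq] at h4
    have h6 : WW D (TP.nn (5 * t + 5)) a = WW D (TP.nn (5 * t + 5)) b := congrArg Prod.snd h5
    rw [hn5] at h6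
    exact Prod.ext (h4.2 i rfl) (WW_BB D (t + 1) J a b h6)
  have h4 : (D.P h (t + 1)).Hc (GMH.Vt v (t + 1) J) (fun w => (w.2.2 i, FQ v t i (old prr t w), ZQ D v (5 * t + 5) w)) ≤ 0 := by
    rw [← hc]
    unfold cost
    refine (D.P h (t + 1)).Hc_anti _ ?_
    intro a b hab
    have g1 := (Prod.mk.inj hab).1
    have g2 := (Prod.mk.inj (Prod.mk.inj hab).2).1
    have g3 := (Prod.mk.inj (Prod.mk.inj hab).2).2
    have g4 : ∀ I, I ⊂ J → LL (φ := φ) (Um v (t + 1 + 1)) I a = LL (Um v (t + 1 + 1)) I b := by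
      intro I hI
      have hp : pth I := lt_pth card3 (ne_univ i) hI
      have g5 : SL (φ := φ) v (5 * t + 5) I a = SL v (5 * t + 5) I b := congrFun (congrArg Prod.fst g3) ⟨I, hp⟩
      unfold SL at g5
      rw [nc_add t 5 hp le_rfl] at g5
      have hr : rk I < 5 := lt_of_le_of_lt (rk_le hp) (by norm_num)
      unfold ncj at g5
      rw [if_pos hr] at g5
      exact g5
    have g6 : LL (φ := φ) (Um v (t + 1)) J a = LL (Um v (t + 1)) J b := by
      unfold FQ FT at g2
      rw [LL_eq] at g2 ⊢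
      refine ⟨g2.1, fun l hl => ?_⟩
      have : l = i := erase_inj' (hl.trans rfl)
      rw [this]
      exact g1
    have g7 : WW D (TP.nn (5 * t + 5)) a = WW D (TP.nn (5 * t + 5)) b := congrArg Prod.snd g3
    rw [hn5] at g7
    refine Prod.ext (lo_eq.2 fun I hI => ?_) (Prod.ext (le_eq.2 fun I hI => ?_) (WW_BB D (t + 1) J a b g7))
    · have g8 := g4 I hI
      rw [LL_eq] at g8
      exact (Um_eq.1 g8.1).2
    · rcases hI.eq_or_ssubset with rfl | hI
      · exact g6
      · have g8 := g4 I hI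
        rw [LL_eq] at g8 ⊢
        exact ⟨(Um_eq.1 g8.1).1, g8.2⟩
  linarith

variable (v) in
/-- entropy of the tops of the time `t` given the thin letters of the state `q` -/
def Et (t q : ℕ) : ℝ := (D.P h t).Hc (tup (FQ v t)) (ZQ D v q)

theorem Et_anti {t q q' : ℕ} (hq : q ≤ q') : Et h v t q' ≤ Et h v t q := (D.P h t).Hc_anti _ (ZQ_mono hq)

theorem Et_nonneg (t q : ℕ) : 0 ≤ Et h v t q := (D.P h t).Hc_nonneg _ _

/-- births of the three tops -/
def bi (prr : ℕ → Fin 3 → φ → φ) (t : ℕ) : ℝ := ∑ i, birth h prr t i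

theorem bs_le {n N1 : ℝ} (R : Run h (pr3 (Fin 3) n N1) (SS1 (Fin 3)) (AdmDep D) v)
    (hn : 1 ≤ n) (hN1 : 1 ≤ N1) (t : ℕ) :
    bs (D.P h (t + 1)) (Z' := ZQ D v (5 * t + 5)) (fun i w => FQ v t i (old prr t w)) (FQ v (t + 1)) ≤ bi h prr t :=
  Finset.sum_le_sum fun i _ => births_i h R hn hN1 t i

theorem Et_old (H : D.Hyp dg prr al T Lam) {t : ℕ} (ht : t < T) (q : ℕ) :
    (D.P h (t + 1)).Hc (tup fun i w => FQ v t i (old prr t w)) (ZQ D v q) = Et h v t q := by
  unfold Et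
  rw [← push_Hc h (H.kf_pr t ht) (tup (FQ v t)) (ZQ D v q)]
  congr 1
  funext w
  rw [ZQ_old]

/-- the next level -/
theorem Et_succ {n N1 : ℝ} (H : D.Hyp dg prr al T Lam) (R : Run h (pr3 (Fin 3) n N1) (SS1 (Fin 3)) (AdmDep D) v)
    (hn : 1 ≤ n) (hN1 : 1 ≤ N1) {t : ℕ} (ht : t < T) : Et h v (t + 1) (5 * t + 5) ≤ Et h v t (5 * t + 5) + bi h prr t := by
  have h1 := Hc_ch (D.P h (t + 1)) (tup_fac fun i => FQ_old (v := v) prr t i) (ZQ D v (5 * t + 5))
  have h2 := (lb_bs (D.P h (t + 1)) (fun i w => FQ v t i (old prr t w)) (FQ v (t + 1)) (ZQ D v (5 * t + 5))).1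
  have h3 := bs_le h (prr := prr) R hn hN1 t
  have h4 := Et_old h (v := v) H ht (5 * t + 5)
  unfold bs at h3
  unfold Et at h4 ⊢
  rw [h1, h4]
  linarith

theorem Et_zero {n N1 : ℝ} (R : Run h (pr3 (Fin 3) n N1) (SS1 (Fin 3)) (AdmDep D) v)
    (hn : 1 ≤ n) (hN1 : 1 ≤ N1) : Et h v 0 0 ≤ ∑ i, birth0 h i := by
  have h1 := (lb_bs (D.P h 0) (fun _ _ => ()) (FQ v 0) (ZQ D v 0)).1
  have h2 : (D.P h 0).Hc (tup (FQ v 0)) (fun w => (tup (fun (_ : Fin 3) (_ : Pt (Fin 3) X β φ) => ()) w, ZQ D v 0 w)) =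
      Et h v 0 0 := by
    unfold Et
    exact (D.P h 0).Hc_congr_right _ (fun a b hab => (Prod.mk.inj hab).2) (fun a b hab => Prod.ext rfl hab)
  rw [h2] at h1
  refine h1.trans (Finset.sum_le_sum fun i _ => ?_)
  refine le_trans ?_ (TG.start_le h R hn hN1 i)
  unfold TG.E0
  refine (D.P h 0).Hc_anti _ ?_
  intro a b hab
  have h3 := (Prod.mk.inj hab).2
  have h4 := ZQ_Zb (v := v) 0 i a b h3
  exact h4

/-- **the drops of all levels** -/
theorem sum_drop {n N1 : ℝ} (H : D.Hyp dg prr al T Lam) (R : Run h (pr3 (Fin 3) n N1) (SS1 (Fin 3)) (AdmDep D) v)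
    (hn : 1 ≤ n) (hN1 : 1 ≤ N1) :
    ∑ t ∈ range T, (Et h v t (5 * t) - Et h v t (5 * t + 5) + bi h prr t) ≤ 6 * Lam := by
  have key : ∀ S ≤ T, ∑ t ∈ range S, (Et h v t (5 * t) - Et h v t (5 * t + 5)) + Et h v S (5 * S) ≤
      Et h v 0 0 + ∑ t ∈ range S, bi h prr t := by
    intro S
    induction S with
    | zero => intro _; simp
    | succ S ih =>
      intro hS
      have h0 := ih (by omega)
      have h1 := Et_succ h H R hn hN1 (show S < T by omega)
      rw [Finset.sum_range_succ, Finset.sum_range_succ]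
      have e : 5 * (S + 1) = 5 * S + 5 := by ring
      rw [e]
      linarith
  have h1 := key T le_rfl
  have h2 := Et_zero h R hn hN1
  have h3 : ∀ i, birth0 h i + ∑ t ∈ range T, birth h prr t i ≤ Lam := fun i => birth_le h H i
  have h4 : ∑ i, birth0 h i + ∑ t ∈ range T, bi h prr t ≤ 3 * Lam := by
    have h5 : ∑ i, birth0 h i + ∑ t ∈ range T, bi h prr t = ∑ i : Fin 3, (birth0 h i + ∑ t ∈ range T, birth h prr t i) := by
      unfold bi
      rw [Finset.sum_add_distrib, Finset.sum_comm]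
    rw [h5]
    refine (Finset.sum_le_card_nsmul _ _ _ fun i _ => h3 i).trans ?_
    rw [nsmul_eq_mul, Finset.card_univ, Fintype.card_fin]
    norm_num
  have h5 : 0 ≤ ∑ i, birth0 h i := Finset.sum_nonneg fun i _ => FP.Hc_nonneg _ _ _
  have h6 := Et_nonneg h (v := v) T (5 * T)
  rw [Finset.sum_add_distrib]
  linarith

/-! ## the cores of the true tuple -/

variable (v) in
/-- core of the tuple, law and tops of the time `t`, thin letters of the state `q`; `none` : three tops, `some i` : the two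
tops which see the vertex `i` -/
def ckq (o : Option (Fin 3)) (c : KC) (k t q : ℕ) (u : Pt (Fin 3) X β φ) : Prop :=
  match o with
  | Option.none => co (D.P h t) (ZQ D v q) (FQ v t) c k u (tup (FQ v t) u)
  | Option.some i => co (D.P h t) (ZQ D v q) (Fo (FQ v t) i) c k u (tup (Fo (FQ v t) i) u)

/-- inside a level -/
theorem ex_in (o : Option (Fin 3)) {c c' : KC} {k : ℕ} {e : ℝ} (e0 : 0 < e) (hg : Gap e c c' k) {t q q' : ℕ} (hq : q ≤ q') :
    e ^ 2 * (D.P h t).Pr (fun u => ckq h v o c k t q u ∧ ¬ ckq h v o c' k t q' u) ≤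
      1000 * (Et h v t q - Et h v t q') := by
  have hb : bs (D.P h t) (Z' := ZQ D v q') (FQ v t) (FQ v t) = 0 :=
    Finset.sum_eq_zero fun i _ => V3.Hc_of_fac _ (fun a b hab => (Prod.mk.inj hab).1)
  have e1 : Et h v t q - Et h v t q' = ((D.P h t).Hc (tup (FQ v t)) (ZQ D v q) - (D.P h t).Hc (tup (FQ v t)) (ZQ D v q')) +
      bs (D.P h t) (Z' := ZQ D v q') (FQ v t) (FQ v t) := by rw [hb, add_zero]; rfl
  rw [e1]
  cases o with
  | none => exact exit_k (D.P h t) e0 hg (fun i => Fac.refl _) (ZQ_mono hq)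
  | some i => exact exit_2 (D.P h t) i e0 hg (fun i => Fac.refl _) (ZQ_mono hq)

theorem ckq_old (H : D.Hyp dg prr al T Lam) {t : ℕ} (ht : t < T) (o : Option (Fin 3)) (c : KC) (k q : ℕ)
    (u : Pt (Fin 3) X β φ) : ckq h v o c k t q (old prr t u) ↔
      match o with
      | Option.none => co (D.P h (t + 1)) (ZQ D v q) (fun i w => FQ v t i (old prr t w)) c k u
          (tup (fun i w => FQ v t i (old prr t w)) u)
      | Option.some i => co (D.P h (t + 1)) (ZQ D v q) (Fo (fun i w => FQ v t i (old prr t w)) i) c k u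
          (tup (Fo (fun i w => FQ v t i (old prr t w)) i) u) := by
  have hp : Pul (D.P h (t + 1)) (D.P h t) (old prr t) := ⟨fun f => push_E h (H.kf_pr t ht) f⟩
  have hz : (fun w => ZQ (φ := φ) D v q (old prr t w)) = ZQ D v q := funext fun w => ZQ_old prr t q w
  cases o with
  | none =>
    have h1 := co_pul hp (Z := ZQ D v q) (F := FQ v t) c k u (tup (FQ v t) (old prr t u))
    rw [hz] at h1
    exact h1.symm
  | some i =>
    have h1 := co_pul hp (Z := ZQ D v q) (F := Fo (FQ v t) i) c k u (tup (Fo (FQ v t) i) (old prr t u))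
    rw [hz] at h1
    exact h1.symm

/-- into the next level -/
theorem ex_out {n N1 : ℝ} (H : D.Hyp dg prr al T Lam) (R : Run h (pr3 (Fin 3) n N1) (SS1 (Fin 3)) (AdmDep D) v)
    (hn : 1 ≤ n) (hN1 : 1 ≤ N1) (o : Option (Fin 3)) {c c' : KC} {k : ℕ} {e : ℝ} (e0 : 0 < e) (hg : Gap e c c' k)
    {t q : ℕ} (ht : t < T) (hq : q ≤ 5 * t + 5) :
    e ^ 2 * (D.P h (t + 1)).Pr (fun u => ckq h v o c k t q (old prr t u) ∧ ¬ ckq h v o c' k (t + 1) (5 * t + 5) u) ≤
      1000 * (Et h v t q - Et h v t (5 * t + 5) + bi h prr t) := by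
  have hb := bs_le h (prr := prr) R hn hN1 t
  have e1 := Et_old h (v := v) H ht q
  have e2 := Et_old h (v := v) H ht (5 * t + 5)
  have h1 : e ^ 2 * (D.P h (t + 1)).Pr (fun u => ckq h v o c k t q (old prr t u) ∧
      ¬ ckq h v o c' k (t + 1) (5 * t + 5) u) ≤
      1000 * (((D.P h (t + 1)).Hc (tup fun i w => FQ v t i (old prr t w)) (ZQ D v q) -
        (D.P h (t + 1)).Hc (tup fun i w => FQ v t i (old prr t w)) (ZQ D v (5 * t + 5))) +
        bs (D.P h (t + 1)) (Z' := ZQ D v (5 * t + 5)) (fun i w => FQ v t i (old prr t w)) (FQ v (t + 1))) := by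
    cases o with
    | none =>
      refine le_trans (mul_le_mul_of_nonneg_left ((D.P h (t + 1)).Pr_mono fun u _ hu => ?_) (sq_nonneg e))
        (exit_k (D.P h (t + 1)) (Z := ZQ D v q) (Z' := ZQ D v (5 * t + 5)) (F := fun i w => FQ v t i (old prr t w))
          (F' := FQ v (t + 1)) e0 hg (fun i => FQ_old prr t i) (ZQ_mono hq))
      exact ⟨(ckq_old h H ht Option.none c k q u).1 hu.1, hu.2⟩
    | some i =>
      refine le_trans (mul_le_mul_of_nonneg_left ((D.P h (t + 1)).Pr_mono fun u _ hu => ?_) (sq_nonneg e))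
        (exit_2 (D.P h (t + 1)) (Z := ZQ D v q) (Z' := ZQ D v (5 * t + 5)) (F := fun i w => FQ v t i (old prr t w))
          (F' := FQ v (t + 1)) i e0 hg (fun i => FQ_old prr t i) (ZQ_mono hq))
      exact ⟨(ckq_old h H ht (some i) c k q u).1 hu.1, hu.2⟩
  rw [e1, e2] at h1
  linarith

/-! ## the space with label tables -/

open Pool.Agent.GMH.Dy

variable {W : Type} [Fintype W] (tb : Tab D prr T W)

variable (v) in
/-- the core of the true tuple, tables of the state `q` -/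
def ck (o : Option (Fin 3)) (c : KC) (k q : ℕ) (w : Om W X β) : Prop := ckq h v o c k (q / 5) q (tb.pt (q / 5) w)

/-- **exits from the state `q` to a later state of the same level or to the next level** -/
theorem ex_q {n N1 : ℝ} (H : D.Hyp dg prr al T Lam) (R : Run h (pr3 (Fin 3) n N1) (SS1 (Fin 3)) (AdmDep D) v)
    (hn : 1 ≤ n) (hN1 : 1 ≤ N1) (o : Option (Fin 3)) {c c' : KC} {k : ℕ} {e : ℝ} (e0 : 0 < e) (hg : Gap e c c' k)
    {t a b : ℕ} (ht : t < T) (ha : a < 5) (hab : a ≤ b) (hb : b ≤ 5) :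
    e ^ 2 * tb.Ps.Pr (fun w => ck h v tb o c k (5 * t + a) w ∧ ¬ ck h v tb o c' k (5 * t + b) w) ≤
      1000 * (Et h v t (5 * t) - Et h v t (5 * t + 5) + bi h prr t) := by
  have ea : (5 * t + a) / 5 = t := by omega
  have hbi : 0 ≤ bi h prr t := Finset.sum_nonneg fun i _ => FP.Hc_nonneg _ _ _
  have m1 : Et h v t (5 * t + a) ≤ Et h v t (5 * t) := Et_anti h (by omega)
  have m2 : Et h v t (5 * t + 5) ≤ Et h v t (5 * t + b) := Et_anti h (by omega)
  rcases Nat.lt_or_ge b 5 with hb5 | hb5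
  · have eb : (5 * t + b) / 5 = t := by omega
    have h1 := ex_in h (v := v) o (c := c) (c' := c') (k := k) e0 hg (t := t) (q := 5 * t + a) (q' := 5 * t + b) (by omega)
    rw [← (pul_pt h tb ht.le).Pr] at h1
    unfold ck
    rw [ea, eb]
    linarith
  · obtain rfl : b = 5 := le_antisymm hb hb5
    have eb : (5 * t + 5) / 5 = t + 1 := by omega
    have h1 := ex_out h H R hn hN1 o (c := c) (c' := c') (k := k) e0 hg ht (q := 5 * t + a) (by omega)
    rw [← (pul_pt h tb (show t + 1 ≤ T by omega)).Pr] at h1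
    unfold ck
    rw [ea, eb]
    have h2 : tb.Ps.Pr (fun w => ckq h v o c k t (5 * t + a) (tb.pt t w) ∧
        ¬ ckq h v o c' k (t + 1) (5 * t + 5) (tb.pt (t + 1) w)) =
        tb.Ps.Pr (fun w => ckq h v o c k t (5 * t + a) (old prr t (tb.pt (t + 1) w)) ∧
          ¬ ckq h v o c' k (t + 1) (5 * t + 5) (tb.pt (t + 1) w)) :=
      tb.Ps.Pr_congr fun w hw => by rw [old_pt tb ht hw]
    rw [h2]
    linarith

/-- one step, the new tables are those of `q + 1` or of the next level -/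
theorem ex_step {n N1 : ℝ} (H : D.Hyp dg prr al T Lam) (R : Run h (pr3 (Fin 3) n N1) (SS1 (Fin 3)) (AdmDep D) v)
    (hn : 1 ≤ n) (hN1 : 1 ≤ N1) (o : Option (Fin 3)) {c c' : KC} {k : ℕ} {e : ℝ} (e0 : 0 < e) (hg : Gap e c c' k)
    {t a : ℕ} (ht : t < T) (ha : a < 5) :
    e ^ 2 * tb.Ps.Pr (fun w => ck h v tb o c k (5 * t + a) w ∧
      (¬ ck h v tb o c' k (5 * t + a + 1) w ∨ ¬ ck h v tb o c' k (5 * t + 5) w)) ≤
      2000 * (Et h v t (5 * t) - Et h v t (5 * t + 5) + bi h prr t) := by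
  have h1 := ex_q h tb H R hn hN1 o (c := c) (c' := c') (k := k) e0 hg ht ha (Nat.le_succ a) (b := a + 1) (by omega)
  have h2 := ex_q h tb H R hn hN1 o (c := c) (c' := c') (k := k) e0 hg ht ha (b := 5) (by omega) le_rfl
  have h3 : tb.Ps.Pr (fun w => ck h v tb o c k (5 * t + a) w ∧
      (¬ ck h v tb o c' k (5 * t + a + 1) w ∨ ¬ ck h v tb o c' k (5 * t + 5) w)) ≤
      tb.Ps.Pr (fun w => ck h v tb o c k (5 * t + a) w ∧ ¬ ck h v tb o c' k (5 * t + (a + 1)) w) +
      tb.Ps.Pr (fun w => ck h v tb o c k (5 * t + a) w ∧ ¬ ck h v tb o c' k (5 * t + 5) w) := by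
    refine (tb.Ps.Pr_mono fun w _ hw => ?_).trans (tb.Ps.Pr_or_le _ _)
    rcases hw with ⟨a1, a2 | a2⟩
    · exact Or.inl ⟨a1, a2⟩
    · exact Or.inr ⟨a1, a2⟩
  have h4 := mul_le_mul_of_nonneg_left h3 (sq_nonneg e)
  rw [mul_add] at h4
  linarith

theorem sum_five (f : ℕ → ℝ) (T : ℕ) : ∑ q ∈ range (5 * T), f q = ∑ t ∈ range T, ∑ a ∈ range 5, f (5 * t + a) := by
  induction T with
  | zero => simp
  | succ T ih =>
    rw [Finset.sum_range_succ, ← ih, show 5 * (T + 1) = 5 * T + 5 by ring, Finset.sum_range_add]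

/-- **THE EXITS OF THE RUN** -/
theorem exit_run {n N1 : ℝ} (H : D.Hyp dg prr al T Lam) (R : Run h (pr3 (Fin 3) n N1) (SS1 (Fin 3)) (AdmDep D) v)
    (hn : 1 ≤ n) (hN1 : 1 ≤ N1) (o : Option (Fin 3)) {c c' : KC} {k : ℕ} {e : ℝ} (e0 : 0 < e) (hg : Gap e c c' k) :
    ∑ q ∈ range (5 * T), tb.Ps.Pr (fun w => ck h v tb o c k q w ∧
      (¬ ck h v tb o c' k (q + 1) w ∨ ¬ ck h v tb o c' k (5 * (q / 5) + 5) w)) ≤ 60000 * Lam / e ^ 2 := by
  have h1 : e ^ 2 * ∑ q ∈ range (5 * T), tb.Ps.Pr (fun w => ck h v tb o c k q w ∧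
      (¬ ck h v tb o c' k (q + 1) w ∨ ¬ ck h v tb o c' k (5 * (q / 5) + 5) w)) ≤ 60000 * Lam := by
    rw [sum_five, Finset.mul_sum]
    have h2 : ∀ t ∈ range T, e ^ 2 * ∑ a ∈ range 5, tb.Ps.Pr (fun w => ck h v tb o c k (5 * t + a) w ∧
        (¬ ck h v tb o c' k (5 * t + a + 1) w ∨ ¬ ck h v tb o c' k (5 * ((5 * t + a) / 5) + 5) w)) ≤
        10000 * (Et h v t (5 * t) - Et h v t (5 * t + 5) + bi h prr t) := by
      intro t ht
      rw [Finset.mul_sum]
      refine (Finset.sum_le_card_nsmul _ _ (2000 * (Et h v t (5 * t) - Et h v t (5 * t + 5) + bi h prr t))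
        fun a ha => ?_).trans ?_
      · have ha5 : a < 5 := mem_range.1 ha
        rw [show (5 * t + a) / 5 = t by omega]
        exact ex_step h tb H R hn hN1 o e0 hg (mem_range.1 ht) ha5
      · rw [nsmul_eq_mul, Finset.card_range]
        push_cast
        linarith
    refine (Finset.sum_le_sum h2).trans ?_
    rw [← Finset.mul_sum]
    have h3 := sum_drop h H R hn hN1
    linarith
  rw [le_div_iff₀ (by positivity), mul_comm]
  exact h1

/-- the new tables are those of `eT (q + 1)` (RULE L) -/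
theorem eT_succ (q : ℕ) (w : Om W X β) : eT v tb (q + 1) w = q + 1 ∨ eT v tb (q + 1) w = 5 * (q / 5) + 5 := by
  unfold eT
  split_ifs with hl
  · right
    have h1 := hl.1
    have : (q + 1) / 5 = q / 5 := by omega
    rw [this]
  · exact Or.inl rfl

/-- **THE EXITS OF THE RUN, RULE L** -/
theorem exit_eT {n N1 : ℝ} (H : D.Hyp dg prr al T Lam) (R : Run h (pr3 (Fin 3) n N1) (SS1 (Fin 3)) (AdmDep D) v)
    (hn : 1 ≤ n) (hN1 : 1 ≤ N1) (o : Option (Fin 3)) {c c' : KC} {k : ℕ} {e : ℝ} (e0 : 0 < e) (hg : Gap e c c' k) :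
    ∑ q ∈ range (5 * T), tb.Ps.Pr (fun w => ck h v tb o c k q w ∧ ¬ ck h v tb o c' k (eT v tb (q + 1) w) w) ≤
      60000 * Lam / e ^ 2 := by
  refine (Finset.sum_le_sum fun q _ => tb.Ps.Pr_mono fun w _ hw => ?_).trans (exit_run h tb H R hn hN1 o e0 hg)
  refine ⟨hw.1, ?_⟩
  rcases eT_succ tb q w with h1 | h1
  · left
    rw [← h1]
    exact hw.2
  · right
    rw [← h1]
    exact hw.2

end run

/-! ## monotone -/

theorem co_mono {Om : Type*} [Fintype Om] {P : FP Om} {υ φ : Type*} {Z : Om → υ} {F : Fin 3 → Om → φ} {c c' : KC} {k : ℕ}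
    {w : Om} {f : Fin 3 → φ} (h1 : c'.e1 ≤ c.e1) (h2 : c'.e2 ≤ c.e2) (h3 : c'.e3 ≤ c.e3) (hd : c'.dH ≤ c.dH)
    (hc : co P Z F c k w f) : co P Z F c' k w f := by
  have hb : ∀ i, bad P Z F c i w f → bad P Z F c' i w f := fun i hi => ⟨hi.1, by
    have h4 := hi.2
    have h5 := hi.1
    nlinarith⟩
  have hA : k ≠ 2 → k ≠ 3 → k ≠ 4 → Ap P Z F c k w f → Ap P Z F c' k w f := by
    intro n2 n3 n4 hA
    have hp : ∀ i, (0 < pS P Z F (opp i) w f ∧ (c.dH ≤ |KF.dens P Z F (opp i) w f - 1| ∨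
        2 * c.e3 * pS P Z F (opp i) w f ≤ tvn P Z F (opp i) w f)) → (0 < pS P Z F (opp i) w f ∧
        (c'.dH ≤ |KF.dens P Z F (opp i) w f - 1| ∨ 2 * c'.e3 * pS P Z F (opp i) w f ≤ tvn P Z F (opp i) w f)) := by
      rintro i ⟨a, b | b⟩
      · exact ⟨a, Or.inl (hd.trans b)⟩
      · exact ⟨a, Or.inr (by nlinarith)⟩
    unfold Ap at hA ⊢
    split at hA
    · linarith
    · exact absurd rfl n2
    · exact absurd rfl n3
    · exact absurd rfl n4
    · rcases hA with ⟨a, b⟩ | ⟨a, b⟩ | ⟨a, b⟩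
      · exact Or.inl ⟨hb _ a, hb _ b⟩
      · exact Or.inr (Or.inl ⟨hb _ a, hb _ b⟩)
      · exact Or.inr (Or.inr ⟨hb _ a, hb _ b⟩)
    · exact hp 0 hA
    · exact hp 1 hA
    · exact hp 2 hA
    · linarith
    · exact hA.elim
  unfold co at hc ⊢
  split_ifs at hc ⊢ with a b d
  · exact hb _ hc
  · exact hb _ hc
  · exact hb _ hc
  · exact hA a b d hc

end

end Pool.Agent.GMH.ExK
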