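import Pool.Agent.GMH.ExitC
import Pool.Agent.GMH.KDV

/-!
# GMH/ExitT (helper99): the inputs `hR` of `exit_ctx` over `Ctx` (row C6)

Constants of the clocks `d1, d0` of `C.U ka`; `Tny` : they are much smaller than the thresholds (`tny_all` : for large `c0`).
`k34` = three quarters of the thresholds `kc0`; any `c` with `KcB`.  From the relation `SR` of the start of a life (RULE L) with
thresholds `c` to the core `cv` with thresholds `k34` at the removal `q`, all frames: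
* `tr_P` : exact vertex, not moved at `i` (private removal);
* `tr_U` : exact vertex at a public removal (not moved at the public start, nothing listed over the triple);
* `tr_N` : node;  `tr_I` : relation of the life of `i` at the public start `nu`;
* `in_P`, `in_U`, `in_N`, `in_I` : the same from the relation `SR` of the start (tables RULE L), in the form of `exit_ctx`.
-/

set_option autoImplicit false
set_option linter.unusedSectionVars false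

namespace Pool.Agent.GMH.ExK

open Finset Pool.Agent.PWZ Pool.Agent.M3 Pool.Agent.GMH Pool.Agent.GMH.KF Pool.Agent.GMH.CT Pool.Agent.GMH.CX
open Pool.Agent.GMH.V3 Pool.Agent.GMH.TP Pool.Agent.GMH.Dy Pool.Agent.GMH.CK Pool.Agent.GMH.MV Pool.Agent.GMH.KDT
open Pool.Agent.GMH.TD

noncomputable section

/-- three quarters of the thresholds -/
def k34 (R : Rounds) (Lam eF : ℝ) : KC :=
  ⟨eF, 3 / 4 * ix Lam R.eta1, 3 / 4 * ix Lam R.eta2, 3 / 4 * ix Lam R.eta3, 3 / 4 * ix Lam R.kd, ix Lam R.ks⟩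

theorem k34_L (R : Rounds) {Lam : ℝ} (hL : 2 ≤ Lam) (eF : ℝ) : KcL R Lam (k34 R Lam eF) := by
  refine ⟨le_rfl, le_rfl, le_rfl, le_rfl, ?_⟩
  have := ix_le_one hL R.kd
  show 3 / 4 * ix Lam R.kd ≤ 1
  linarith

/-- the exponent of the smallest threshold -/
def rmx (R : Rounds) : ℕ := R.eta1 + R.eta2 + R.eta3 + R.kd

/-- size of the movements of a stable triple -/
def mvc (C : Ctx) (ka : ℕ) : ℝ := 4 * MVN.d1 C.Lam ka C.c0 + 16 * MVN.d0 C.Lam C.c0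

/-- **the movements are much smaller than the thresholds** -/
structure Tny (C : Ctx) (ka : ℕ) (R : Rounds) : Prop where
  g : 4000 * mvc C ka ≤ ix C.Lam (rmx R)

theorem mvc_pos (C : Ctx) (ka : ℕ) : 0 < mvc C ka := by
  have h1 := C.d1_pos ka
  have h2 := C.d0_pos
  unfold mvc
  linarith

/-- for large `c0` -/
theorem tny_all (A ka : ℕ) (R : Rounds) : AllC A (fun C => Tny C ka R) := by
  have h1 : CTM.Ev (fun c0 Lam => (1 ≤ CTM.mT Lam ka c0 ∧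
      4 * (CTM.mT Lam ka c0 : ℝ) * (1000 * (4 * MVN.d1 Lam ka c0 + 16 * MVN.d0 Lam c0)) ≤
        (pw Lam (40 * (c1F A c0 + c0)))⁻¹) ∧ rmx R ≤ c0) := by
    obtain ⟨a, ha⟩ := CTM.nr_num A ka
    refine ⟨max a (rmx R), fun c0 hc Lam hL => ⟨?_, (le_max_right _ _).trans hc⟩⟩
    have h2 := ha c0 ((le_max_left _ _).trans hc) Lam hL
    exact ⟨h2.1, h2.2.1⟩
  refine (AllC.of_Ev h1).mono fun C hC => ⟨?_⟩
  obtain ⟨⟨h2, h3⟩, h4⟩ := hC
  have h5 : ix C.Lam (40 * (c1F A C.c0 + C.c0)) ≤ ix C.Lam (rmx R) := ix_anti C.hL (by omega)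
  have h6 : (1 : ℝ) ≤ (CTM.mT C.Lam ka C.c0 : ℝ) := by exact_mod_cast h2
  have h7 := mvc_pos C ka
  have h8 : 4000 * mvc C ka ≤ 4 * (CTM.mT C.Lam ka C.c0 : ℝ) * (1000 * mvc C ka) := by nlinarith
  exact (h8.trans h3).trans h5

variable {C : Ctx} {ka : ℕ} {R : Rounds}

theorem Tny.le (hT : Tny C ka R) {k : ℕ} (hk : k ≤ rmx R) : 4000 * mvc C ka ≤ ix C.Lam k :=
  hT.g.trans (ix_anti C.hL hk)

theorem Tny.s (hT : Tny C ka R) : mvc C ka ≤ 1 / 400 := by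
  have h1 := hT.g
  have h2 := ix_le_one C.hL (rmx R)
  linarith

/-- the gap from `c` to `k34` -/
theorem gap34 (hT : Tny C ka R) (hk1 : 1 ≤ R.kd) {c : KC} (hc : KcB R C.Lam c) (eF : ℝ) (k : ℕ) :
    Gap (500 * mvc C ka) c (k34 R C.Lam eF) k := by
  have h1 := hT.le (k := R.eta1) (by unfold rmx; omega)
  have h2 := hT.le (k := R.eta2) (by unfold rmx; omega)
  have h3 := hT.le (k := R.eta3) (by unfold rmx; omega)
  have h4 := hT.le (k := R.kd) (by unfold rmx; omega)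
  have := hc.l1
  have := hc.l2
  have := hc.l3
  have := hc.ld
  have := mvc_pos C ka
  refine ⟨fun _ => ?_, fun _ _ => ?_, fun _ _ => ?_, fun _ _ => ⟨?_, ?_, ?_⟩⟩
  · show 3 / 4 * ix C.Lam R.eta1 + 500 * mvc C ka ≤ c.e1
    linarith
  · show 3 / 4 * ix C.Lam R.eta2 + 500 * mvc C ka ≤ c.e2
    linarith
  · show 3 / 4 * ix C.Lam R.eta3 + 500 * mvc C ka ≤ c.e3
    linarith
  · show 3 / 4 * ix C.Lam R.kd + 2 * (500 * mvc C ka) ≤ c.dH
    linarith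
  · have h5 := hc.ud
    have h6 : ix C.Lam R.kd ≤ ix C.Lam 1 := ix_anti C.hL hk1
    have h7 := ix_four C.hL 1
    norm_num at h7
    linarith
  · show 0 ≤ 3 / 4 * ix C.Lam R.kd
    have := ix_nn C.hL R.kd
    linarith

theorem hS3 : ∀ l : Fin 3, (univ.erase l : Finset (Fin 3)) ∈ SS1 (Fin 3) := fun l => mem_SS1.2 (ne_univ l)

theorem hu3 : (univ : Finset (Fin 3)) ∉ SS1 (Fin 3) := fun hh => mem_SS1.1 hh rfl

theorem hN3 (C : Ctx) : ∀ l : Fin 3, 0 < pr3 (Fin 3) (pw C.Lam C.c0) (pw C.Lam (c1F C.A C.c0)) (univ.erase l) := fun _ =>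
  zero_lt_one.trans_le (pr3_one C.n1 C.N11 _)

variable (hT : Tny C ka R) (hk1 : 1 ≤ R.kd) {c : KC} (hc : KcB R C.Lam c) (eF : ℝ)

include hT hk1 hc

/-- **exact vertex, not moved** : `r` any state of the exact epoch -/
theorem tr_P {q : ℕ} (hq : q / 5 ≤ C.T) {w : C.O} (hw : C.tb.Ps.p w ≠ 0) {i : Fin 3} (hm : ¬ Mv (C.U ka).toMS i q w) {r : ℕ}
    (h1 : MV.tau (C.U ka).toMS i q w ≤ r) (h2 : r ≤ q) {fr o : Option (Fin 3)} {κ : Fin 10}
    (hk : cv C.h C.v C.tb fr c κ o r w) : cv C.h C.v C.tb fr (k34 R C.Lam eF) κ o q w := by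
  have hs := hT.s
  have hd := C.d0_pos
  have hm1 : mvc C ka = 4 * MVN.d1 C.Lam ka C.c0 + 16 * MVN.d0 C.Lam C.c0 := rfl
  exact KDV.cv_prv C.tb (C.d1_pos ka) (C.d1_le ka) (C.kb_pos ka) C.d0_pos C.d0_le C.d0_pos C.p1_pos (C.z_pos ka) C.H C.R
    hS3 hu3 (hN3 C) (by linarith) (KDV.gap_mono (by linarith) (gap34 hT hk1 hc eF κ.1)) hq hw hm h1 h2 fr o hk

/-- **exact vertex at a public removal** : `r` any state of the exact epoch -/
theorem tr_U {q : ℕ} (hq : q / 5 ≤ C.T) {w : C.O} (hw : C.tb.Ps.p w ≠ 0) {i : Fin 3}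
    (hm : ¬ Mv (C.U ka).toMS i (nu (C.U ka).toMS q w) w)
    (hL : ¬ 0 < C.tb.Ps.ce (TH (C.U ka).toMS q) (fun u => ind (Lst (C.U ka).toMS (nu (C.U ka).toMS q w) q u)) w) {r : ℕ}
    (h1 : MV.tau (C.U ka).toMS i q w ≤ r) (h2 : r ≤ q) {fr o : Option (Fin 3)} {κ : Fin 10}
    (hk : cv C.h C.v C.tb fr c κ o r w) : cv C.h C.v C.tb fr (k34 R C.Lam eF) κ o q w := by
  have hs := hT.s
  have hm1 : mvc C ka = 4 * MVN.d1 C.Lam ka C.c0 + 16 * MVN.d0 C.Lam C.c0 := rfl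
  exact KDV.cv_pub C.tb (C.d1_pos ka) (C.d1_le ka) (C.kb_pos ka) C.d0_pos C.d0_le C.d0_pos C.p1_pos (C.z_pos ka) C.H C.R
    hS3 hu3 (hN3 C) (by linarith) (gap34 hT hk1 hc eF κ.1) hq hw hm hL h1 h2 fr o hk

/-- **node** : `r` any state of the public epoch -/
theorem tr_N {q : ℕ} (hq : q / 5 ≤ C.T) {w : C.O} (hw : C.tb.Ps.p w ≠ 0)
    (hL : ¬ 0 < C.tb.Ps.ce (TH (C.U ka).toMS q) (fun u => ind (Lst (C.U ka).toMS (nu (C.U ka).toMS q w) q u)) w) {r : ℕ}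
    (h1 : nu (C.U ka).toMS q w ≤ r) (h2 : r ≤ q) {fr o : Option (Fin 3)} {κ : Fin 10}
    (hk : cv C.h C.v C.tb fr c κ o r w) : cv C.h C.v C.tb fr (k34 R C.Lam eF) κ o q w := by
  have hs := hT.s
  have hd := C.d0_pos
  have hd1 := C.d1_pos ka
  have hm1 : mvc C ka = 4 * MVN.d1 C.Lam ka C.c0 + 16 * MVN.d0 C.Lam C.c0 := rfl
  exact KDV.cv_nu C.tb (C.d1_pos ka) (C.d1_le ka) (C.kb_pos ka) C.d0_pos C.d0_le C.d0_pos C.p1_pos (C.z_pos ka) C.H C.R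
    hS3 hu3 (hN3 C) (by linarith) (KDV.gap_mono (by linarith) (gap34 hT hk1 hc eF κ.1)) hq hw hL h1 h2 fr o hk

/-! ### the relation of the life -/

/-- **INPUT `hR`, exact vertex, private removal** (or any end of the life, not moved at `i`) -/
theorem in_P {q : ℕ} (hq : q / 5 ≤ C.T) {w : C.O} (hw : C.tb.Ps.p w ≠ 0) {i : Fin 3} (hm : ¬ Mv (C.U ka).toMS i q w)
    (hA : Alv C.h C.v C.tb C.p q w) {fr o : Option (Fin 3)} {κ : Fin 10}
    (hk : SR C.h C.v C.tb fr C.p c κ o (tauS (C.U ka).toMS i q w) w) :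
    (cv C.h C.v C.tb fr (k34 R C.Lam eF) κ o q w ∧ Alv C.h C.v C.tb C.p q w) ∨ SRC C R fr eF κ o (q + 1) w := by
  by_cases hl : ltL C.v C.tb q w
  · obtain ⟨g1, g2⟩ := KDV.ltL_tauS C.tb (C.d1_pos ka) (C.d1_le ka) (C.kb_pos ka) C.d0_pos C.d0_le C.d0_pos C.p1_pos
      (C.z_pos ka) hl i
    have h1 := KDV.SR_lt C.tb hl g1 g2 hk
    exact Or.inr ⟨cv_mono (by have := hc.l1; have := ix_nn C.hL R.eta1; show ix C.Lam R.eta1 / 2 ≤ c.e1; linarith)
      (by have := hc.l2; have := ix_nn C.hL R.eta2; show ix C.Lam R.eta2 / 2 ≤ c.e2; linarith)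
      (by have := hc.l3; have := ix_nn C.hL R.eta3; show ix C.Lam R.eta3 / 2 ≤ c.e3; linarith)
      (by have := hc.ld; have := ix_nn C.hL R.kd; show ix C.Lam R.kd / 2 ≤ c.dH; linarith) h1.1, h1.2⟩
  · exact Or.inl ⟨tr_P hT hk1 hc eF hq hw hm ((tau_tauS i q w).trans (le_eT C.tb _ w)) (eT_le C.tb (tauS_le i q w) hl) hk.1,
      hA⟩

/-- **INPUT `hR`, exact vertex, public removal** -/
theorem in_U {q : ℕ} (hq : q / 5 ≤ C.T) {w : C.O} (hw : C.tb.Ps.p w ≠ 0) (hl : ¬ ltL C.v C.tb q w) {i : Fin 3}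
    (hm : ¬ Mv (C.U ka).toMS i (nu (C.U ka).toMS q w) w)
    (hL : ¬ 0 < C.tb.Ps.ce (TH (C.U ka).toMS q) (fun u => ind (Lst (C.U ka).toMS (nu (C.U ka).toMS q w) q u)) w)
    {fr o : Option (Fin 3)} {κ : Fin 10} (hk : SR C.h C.v C.tb fr C.p c κ o (tauS (C.U ka).toMS i q w) w) :
    cv C.h C.v C.tb fr (k34 R C.Lam eF) κ o q w :=
  tr_U hT hk1 hc eF hq hw hm hL ((tau_tauS i q w).trans (le_eT C.tb _ w)) (eT_le C.tb (tauS_le i q w) hl) hk.1

/-- **INPUT `hR`, node** -/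
theorem in_N {q : ℕ} (hq : q / 5 ≤ C.T) {w : C.O} (hw : C.tb.Ps.p w ≠ 0) (hl : ¬ ltL C.v C.tb q w)
    (hL : ¬ 0 < C.tb.Ps.ce (TH (C.U ka).toMS q) (fun u => ind (Lst (C.U ka).toMS (nu (C.U ka).toMS q w) q u)) w)
    {fr o : Option (Fin 3)} {κ : Fin 10} (hk : SR C.h C.v C.tb fr C.p c κ o (nu (C.U ka).toMS q w) w) :
    cv C.h C.v C.tb fr (k34 R C.Lam eF) κ o q w :=
  tr_N hT hk1 hc eF hq hw hL (le_eT C.tb _ w) (eT_le C.tb (MV.nu_le q w) hl) hk.1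

/-- **INPUT `hR`, relation of the life of `i` at the public start** -/
theorem in_I {q : ℕ} (hq : q / 5 ≤ C.T) {w : C.O} (hw : C.tb.Ps.p w ≠ 0) (hl : ¬ ltL C.v C.tb q w) {i : Fin 3}
    (hm : ¬ Mv (C.U ka).toMS i (nu (C.U ka).toMS q w) w)
    (hL : ¬ 0 < C.tb.Ps.ce (TH (C.U ka).toMS q) (fun u => ind (Lst (C.U ka).toMS (nu (C.U ka).toMS q w) q u)) w)
    {fr o : Option (Fin 3)} {κ : Fin 10}
    (hk : SR C.h C.v C.tb fr C.p c κ o (tauS (C.U ka).toMS i (nu (C.U ka).toMS q w) w) w) :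
    cv C.h C.v C.tb fr (k34 R C.Lam eF) κ o q w := by
  have h0 := MV.nu_le (M := (C.U ka).toMS) q w
  have h1 := (KDT.stb_pub (M := (C.U ka).toMS) hw hm hL (stg_le q w) le_rfl).1
  refine tr_U hT hk1 hc eF hq hw hm hL ?_ (eT_le C.tb ((tauS_le i _ w).trans h0) hl) hk.1
  rw [h1]
  exact (tau_tauS i _ w).trans (le_eT C.tb _ w)

end

end Pool.Agent.GMH.ExK
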