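import Pool.Agent.GMH.ExitT
import Pool.Agent.GMH.UnmSt

/-!
# GMH/ExitU (helper99): `EX v`, `EX 0` OF THE ROUNDS OVER `Ctx` (row C6, inputs (f) of RelN / RelF)

Any `US` with the space of `C` (`C.U ka`, the theories A and B), any kinds `Q` (life), `Q'` (stays), any removals `A` :
* `GdX v` : good at a removal which ends a decided life of `v` : alive, no level of a light public value, not moved at `v` (at a public
  removal: at the public start), nothing listed over the triple; `Gd0` : the same at the end of a zone, for the node and for the relation of every vertex (all `v : Option (Fin 3)`);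
* **`ex_v`** : `Q.kv (some v)` implies the relation `SR c κ (some v)` of the start of the exact life (`KcB c`), the stays
  `SRC κ (some v)` imply `Q'.kv (some v)` : `sum_q P (exv Q Q' v q) ≤ x^km`; **`ex_0`** : the same for `ex0`, all `v : Option`, `≤ x^kz`.
-/

set_option autoImplicit false
set_option linter.unusedSectionVars false

namespace Pool.Agent.GMH.ExK

open Finset Pool.Agent.PWZ Pool.Agent.M3 Pool.Agent.GMH Pool.Agent.GMH.KF Pool.Agent.GMH.CT Pool.Agent.GMH.CX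
open Pool.Agent.GMH.V3 Pool.Agent.GMH.TP Pool.Agent.GMH.Dy Pool.Agent.GMH.CK Pool.Agent.GMH.MV Pool.Agent.GMH.KDT
open Pool.Agent.GMH.TD Pool.Agent.GMH.UV

noncomputable section

variable (C : Ctx) (ka : ℕ) (M : US C.O) (Q : Kd C.O) (A : Stps (Om := C.O))

/-- nothing is listed over the thin triple at the public removal `q` -/
def Unl (q : ℕ) (w : C.O) : Prop :=
  ¬ 0 < C.tb.Ps.ce (TH (C.U ka).toMS q) (fun u => ind (Lst (C.U ka).toMS (nu (C.U ka).toMS q w) q u)) w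

/-- good at the removals which end a decided life of `v` -/
structure GdX (v : Fin 3) : Prop where
  al : ∀ q w, C.tb.Ps.p w ≠ 0 → A.gd q w → (A.rp v q w ∨ A.ru q w) → bet M Q v q w →
    Alv C.h C.v C.tb C.p q w ∧ ¬ ltL C.v C.tb q w
  pr : ∀ q w, C.tb.Ps.p w ≠ 0 → A.gd q w → A.rp v q w → bet M Q v q w → ¬ Mv (C.U ka).toMS v q w
  pu : ∀ q w, C.tb.Ps.p w ≠ 0 → A.gd q w → A.ru q w → bet M Q v q w →
    ¬ Mv (C.U ka).toMS v (nu (C.U ka).toMS q w) w ∧ Unl C ka q w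

/-- good at the public removals which end a zone, for the relation of the life of `v`, `none` : of the node -/
structure Gd0 (v : Option (Fin 3)) : Prop where
  al : ∀ q w, C.tb.Ps.p w ≠ 0 → A.gd q w → A.ru q w → Z0 M Q q w →
    Alv C.h C.v C.tb C.p q w ∧ ¬ ltL C.v C.tb q w ∧ Unl C ka q w
  mv : ∀ q w, C.tb.Ps.p w ≠ 0 → A.gd q w → A.ru q w → Z0 M Q q w →
    ∀ i, v = some i → ¬ Mv (C.U ka).toMS i (nu (C.U ka).toMS q w) w

variable {C ka M Q A}

/-- the core of a vertex implies the core of the node -/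
theorem cv_kn {fr o : Option (Fin 3)} {c : KC} {κ : Fin 10} {q : ℕ} {w : C.O} (hk : cv C.h C.v C.tb fr c κ o q w) :
    cv C.h C.v C.tb fr c κ Option.none q w := by
  unfold cv at hk ⊢
  by_cases h1 : 2 ≤ κ.1 ∧ κ.1 ≤ 5
  · rw [if_pos h1] at hk ⊢
    obtain ⟨j, _, h3⟩ := hk
    exact ⟨j, fun e => Option.some_ne_none _ e, h3⟩
  · rw [if_neg h1] at hk ⊢
    exact hk

variable {R : Rounds} (hT : Tny C ka R) (hk1 : 1 ≤ R.kd) (hMP : M.P = C.tb.Ps) {Q' : Kd C.O}
  (fr : Option (Fin 3)) (κ : Fin 10) {c : KC} (hc : KcB R C.Lam c) (eF : ℝ)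

include hT hk1 hMP hc

/-- **EX v** -/
theorem ex_v (hp : 14 ≤ R.kp) {v : Fin 3} (hG : GdX C ka M Q A v)
    (hQ : ∀ q w, C.tb.Ps.p w ≠ 0 → Q.kv (some v) (tv M v q w) w →
      SR C.h C.v C.tb fr C.p c κ (some v) (tauS (C.U ka).toMS v q w) w)
    (hQ' : ∀ q w, C.tb.Ps.p w ≠ 0 → SRC C R fr eF κ (some v) (q + 1) w → Q'.kv (some v) (q + 1) w) :
    ∑ q ∈ range (5 * C.T), M.P.Pr (exv M Q Q' A v q) ≤ pw C.Lam (CT.rd R κ.1).km := by
  rw [hMP]
  have h1 := exit_ctx C R hp fr (k34_L R C.hL eF) eF κ (some v)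
    (Rm := fun q w => q < 5 * C.T ∧ exv M Q Q' A v q w) (fun q w hw hh => by
      obtain ⟨hq, hx⟩ := hh
      obtain ⟨g1, g2, g3, -⟩ := ex_mono hx
      have hq5 : q / 5 ≤ C.T := by omega
      have gb : bet M Q v q w := hx.1.2.2.1
      obtain ⟨a1, a2⟩ := hG.al q w hw g2 g1 gb
      rcases g1 with g1 | g1
      · exact in_P hT hk1 hc eF hq5 hw (hG.pr q w hw g2 g1 gb) a1 (hQ q w hw g3)
      · obtain ⟨b1, b2⟩ := hG.pu q w hw g2 g1 gb
        exact Or.inl ⟨in_U hT hk1 hc eF hq5 hw a2 b1 b2 (hQ q w hw g3), a1⟩)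
  refine (Finset.sum_le_sum fun q hq => C.tb.Ps.Pr_mono fun w hw hh => ?_).trans h1
  exact ⟨⟨mem_range.1 hq, hh⟩, fun h3 => hh.2 (hQ' q w hw h3)⟩

/-- **EX 0**, relation of the node or of the life of a vertex at the public start -/
theorem ex_0 (hz : 14 ≤ R.kz) {v : Option (Fin 3)} (hG : Gd0 C ka M Q A v)
    (hQn : v = Option.none → ∀ q w, C.tb.Ps.p w ≠ 0 → Rn M Q Option.none (nu M.toMS q w) w →
      SR C.h C.v C.tb fr C.p c κ Option.none (nu (C.U ka).toMS q w) w)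
    (hQs : ∀ i, v = some i → ∀ q w, C.tb.Ps.p w ≠ 0 → Rn M Q (some i) (nu M.toMS q w) w →
      SR C.h C.v C.tb fr C.p c κ (some i) (tauS (C.U ka).toMS i (nu (C.U ka).toMS q w) w) w)
    (hQ' : ∀ q w, C.tb.Ps.p w ≠ 0 → SRC C R fr eF κ Option.none (q + 1) w → Q'.kv Option.none (q + 1) w) :
    ∑ q ∈ range (5 * C.T), M.P.Pr (ex0 M Q Q' A v q) ≤ pw C.Lam (CT.rd R κ.1).kz := by
  rw [hMP]
  have h1 := exit_ctz C R hz fr (k34_L R C.hL eF) eF κ Option.none
    (Rm := fun q w => q < 5 * C.T ∧ ex0 M Q Q' A v q w) (fun q w hw hh => by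
      obtain ⟨hq, hx⟩ := hh
      obtain ⟨g1, g2, g3, -⟩ := ex0_mono hx
      have hq5 : q / 5 ≤ C.T := by omega
      have gz : Z0 M Q q w := hx.1.2.1
      obtain ⟨a1, a2, a3⟩ := hG.al q w hw g2 g1 gz
      cases v with
      | none => exact Or.inl ⟨in_N hT hk1 hc eF hq5 hw a2 a3 (hQn rfl q w hw g3), a1⟩
      | some i =>
        exact Or.inl ⟨cv_kn (in_I hT hk1 hc eF hq5 hw a2 (hG.mv q w hw g2 g1 gz i rfl) a3 (hQs i rfl q w hw g3)), a1⟩)
  refine (Finset.sum_le_sum fun q hq => C.tb.Ps.Pr_mono fun w hw hh => ?_).trans h1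
  exact ⟨⟨mem_range.1 hq, hh⟩, fun h3 => hh.2 (hQ' q w hw h3)⟩

end

end Pool.Agent.GMH.ExK
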