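import Pool.Agent.GMH.HotK
import Pool.Agent.GMH.DynF

/-!
# GMH/HotD (helper22): THE KINDS `HOT_i`, ALIVE, AS `Kd` (UVdef v2.2)

* `hotA p i a s τ` : hot with the tables of the start `τ` and alive there (= `SHt` of `GMH/ExitHot`);
* `hotO o τ` : `hotA` for `o = none` and `o = some i`, false for the other vertices;
* `KHot p i a s uB u0` : `Kd` with the single vertex `i`, `kd = kv = hotO`, `kz v = hotO (some v)`, `al n = Alv p n`,
  `psi = 1` (unsigned).
-/

set_option autoImplicit false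
set_option linter.unusedSectionVars false

namespace Pool.Agent.GMH.Dy

open Finset Pool.Agent.PWZ Pool.Agent.M3 Pool.Agent.GM Pool.Agent.GM.Harm Pool.Agent.GMH
open Pool.Agent.GMH.TP Pool.Agent.GMH.TD Pool.Agent.GMH.CK Pool.Agent.GMH.MV Pool.Agent.GMH.MVI Pool.Agent.GMH.UV
open Pool.Agent.GMH.KF Pool.Agent.GMH.V3

noncomputable section

variable {X β γ φ υ : Type} [Fintype X] [Fintype β] [Fintype φ] [Nonempty X] [Nonempty β]
variable {D : HD (Fin 3) X β γ φ} {al : ℝ} (h : D.Thick al) (v : ℕ → Finset (Fin 3) → X → (Fin 3 → β) → υ)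
variable {prr : ℕ → Fin 3 → φ → φ} {T : ℕ} {W : Type} [Fintype W] (tb : Tab D prr T W)

/-- hot with the tables of the start `τ`, alive -/
def hotA (p : AP) (i : Fin 3) (a s : ℝ) (τ : ℕ) (w : Om W X β) : Prop :=
  hotk h v tb i a s τ w ∧ Alv h v tb p (eT v tb τ w) w

/-- the relation of the vertex `o` : empty for the vertices other than `i` -/
def hotO (p : AP) (i : Fin 3) (a s : ℝ) (o : Option (Fin 3)) (τ : ℕ) (w : Om W X β) : Prop :=
  (∀ j, o = some j → j = i) ∧ hotA h v tb p i a s τ w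

/-- **the kind `HOT_i`, alive** : unsigned, single vertex `i` -/
def KHot (p : AP) (i : Fin 3) (a s uB u0 : ℝ) : Kd (Om W X β) :=
  ⟨hotO h v tb p i a s, hotO h v tb p i a s, fun n w => Alv h v tb p n w, fun _ _ _ => 1, {i}, uB, u0,
    fun _ _ _ _ hh => hh, fun _ _ hh => hh, fun n _ hh => Alv_anti h v tb (Nat.le_succ n) hh,
    fun j => hotO h v tb p i a s (some j), fun _ _ _ _ hh => hh, fun _ _ _ _ hh => hh⟩

variable {h v tb}

theorem hotO_some {p : AP} {i : Fin 3} {a s : ℝ} {τ : ℕ} {w : Om W X β} :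
    hotO h v tb p i a s (some i) τ w ↔ hotA h v tb p i a s τ w :=
  ⟨fun hh => hh.2, fun hh => ⟨fun _ e => (Option.some.inj e).symm, hh⟩⟩

theorem hotO_none {p : AP} {i : Fin 3} {a s : ℝ} {τ : ℕ} {w : Om W X β} :
    hotO h v tb p i a s Option.none τ w ↔ hotA h v tb p i a s τ w :=
  ⟨fun hh => hh.2, fun hh => ⟨fun _ e => (by cases e), hh⟩⟩

/-- the relation is empty at the other vertices -/
theorem hotO_ne {p : AP} {i j : Fin 3} (hj : j ≠ i) {a s : ℝ} {τ : ℕ} {w : Om W X β} :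
    ¬ hotO h v tb p i a s (some j) τ w := fun hh => hj (hh.1 j rfl)

theorem hotA_mono {p : AP} {i : Fin 3} {a a' s s' : ℝ} (ha : a' ≤ a) (hs : s ≤ s') {τ : ℕ} {w : Om W X β}
    (hh : hotA h v tb p i a s τ w) : hotA h v tb p i a' s' τ w := ⟨hotk_mono h v tb ha hs hh.1, hh.2⟩

end

end Pool.Agent.GMH.Dy
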