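import Pool.Agent.GMH.HotT
import Pool.Agent.GMH.HotD
import Pool.Agent.GMH.CtxN

/-!
# GMH/HotC (helper22): THE HOT PAIR KINDS OVER `Ctx`

`C.HQ i a s q` : the true pair of the vertex `i` is hot, tables of the state `q`; `C.HK i a s τ` : tables of the start `τ`;
`C.HA i a s τ` : and alive;
`C.QH i a s uB u0` : the kind over `C.U ka` (`GMH/HotD`), `C.AV q` : alive.
* `hot_prv`, `hot_pub`, `hot_nu` : hot at a removal `q` → hot at the levels `(a - 1, 2 s)` in the tables of the start of the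
  life of `i`, of the public start; the numbers `d1 ≤ 1/32` etc. hold for large `c0`; `hot_prv'`, `hot_pub'`, `hot_nu'` : back,
  from the start to the removal.
-/

set_option autoImplicit false
set_option linter.unusedSectionVars false

namespace Pool.Agent.GMH.CX

open Finset Pool.Agent.PWZ Pool.Agent.M3 Pool.Agent.GM Pool.Agent.GM.Harm Pool.Agent.GMH Pool.Agent.GMH.NZ
open Pool.Agent.GMH.V3 Pool.Agent.GMH.TP Pool.Agent.GMH.TD Pool.Agent.GMH.Dy Pool.Agent.GMH.CTM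

noncomputable section

namespace Ctx

variable (C : Ctx)

/-- the true pair of the vertex `i` is hot, tables of the state `q` -/
def HQ (i : Fin 3) (a s : ℝ) (q : ℕ) (w : C.O) : Prop := hotq C.h C.v C.tb i a s q w

/-- tables of the start `τ` -/
def HK (i : Fin 3) (a s : ℝ) (τ : ℕ) (w : C.O) : Prop := hotk C.h C.v C.tb i a s τ w

/-- tables of the start `τ`, alive -/
def HA (i : Fin 3) (a s : ℝ) (τ : ℕ) (w : C.O) : Prop := hotA C.h C.v C.tb C.p i a s τ w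

/-- the kind -/
def QH (i : Fin 3) (a s uB u0 : ℝ) : UV.Kd C.O := KHot C.h C.v C.tb C.p i a s uB u0

/-- alive -/
def AV (q : ℕ) (w : C.O) : Prop := Alv C.h C.v C.tb C.p q w

theorem hS' (l : Fin 3) : univ.erase l ∈ SS1 (Fin 3) := mem_SS1.2 (Finset.erase_ne_self.2 (mem_univ l))

theorem hu' : (univ : Finset (Fin 3)) ∉ SS1 (Fin 3) := fun hh => mem_SS1.1 hh rfl

theorem hN' (l : Fin 3) : 0 < pr3 (Fin 3) (pw C.Lam C.c0) (pw C.Lam (c1F C.A C.c0)) (univ.erase l) :=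
  pr3_pos (pw_one C.hL _) (pw_one C.hL _) l

/-- the numbers of the clocks -/
theorem d_num {ka : ℕ} (h : ka + 1 ≤ C.c0) :
    MVN.d1 C.Lam ka C.c0 ≤ 1 / 64 ∧ MVN.d0 C.Lam C.c0 ≤ 1 / 256 := by
  have hL := C.hL
  have hx : (4 : ℝ) ≤ 2 * C.Lam := by linarith
  have hx0 : (0 : ℝ) < 2 * C.Lam := by linarith
  have e1 : Real.exp (-8) ≤ 1 / 256 := by
    have h1 : (2 : ℝ) ≤ Real.exp 1 := by
      have := Real.add_one_le_exp (1 : ℝ)
      linarith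
    have h2 : (256 : ℝ) ≤ Real.exp 8 := by
      have h3 : Real.exp 8 = Real.exp 1 ^ 8 := by
        rw [← Real.exp_nat_mul]
        norm_num
      rw [h3]
      calc (256 : ℝ) = 2 ^ 8 := by norm_num
        _ ≤ _ := pow_le_pow_left₀ (by norm_num) h1 8
    rw [Real.exp_neg, inv_eq_one_div]
    exact one_div_le_one_div_of_le (by norm_num) h2
  have h4 : (4 : ℝ) ≤ MVN.pe C.Lam ka C.c0 := by
    unfold MVN.pe
    have hp : 0 < pw C.Lam ka := by unfold pw; positivity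
    rw [le_div_iff₀ hp]
    have e : pw C.Lam C.c0 = pw C.Lam ka * (2 * C.Lam) ^ (C.c0 - ka) := by
      unfold pw
      rw [← pow_add]
      congr 1
      omega
    rw [e, mul_comm]
    refine mul_le_mul_of_nonneg_left ?_ hp.le
    calc (4 : ℝ) ≤ (2 * C.Lam) ^ 1 := by rw [pow_one]; exact hx
      _ ≤ _ := pow_le_pow_right₀ (by linarith) (by omega)
  have h5 : (8 : ℝ) ≤ MVN.pQ C.Lam C.c0 := by
    unfold MVN.pQ pw
    calc (8 : ℝ) ≤ 4 ^ 2 := by norm_num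
      _ ≤ (2 * C.Lam) ^ 2 := pow_le_pow_left₀ (by norm_num) hx 2
      _ ≤ _ := pow_le_pow_right₀ (by linarith) (by omega)
  constructor
  · unfold MVN.d1
    refine (Real.exp_le_exp.2 (show -(2 * MVN.pe C.Lam ka C.c0) ≤ -8 by linarith)).trans (e1.trans (by norm_num))
  · unfold MVN.d0
    exact (Real.exp_le_exp.2 (show -MVN.pQ C.Lam C.c0 ≤ -8 by linarith)).trans e1

end Ctx

/-- **PRIVATE REMOVAL of `i`, start of the life of `i`** -/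
theorem hot_prv (ka A : ℕ) : AllC A fun C => ∀ q, q / 5 ≤ C.T → ∀ w, C.tb.Ps.p w ≠ 0 → ¬ ltL C.v C.tb q w →
    ∀ i, ¬ MV.Mv (C.M ka) i q w → ∀ a s, 0 < s → C.HQ i a s q w →
      C.HK i (a - 1) (2 * s) (UV.tv (C.U ka) i q w) w := by
  refine ⟨ka + 1, fun C _ hc q hq w hw hl i hm a s hs hh => ?_⟩
  obtain ⟨n1, n2⟩ := C.d_num (ka := ka) hc
  exact HotT.hk_prv C.tb (C.d1_pos ka) (C.d1_le ka) (C.kb_pos ka) C.d0_pos C.d0_le C.d0_pos C.p1_pos (C.z_pos ka) C.H C.R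
    Ctx.hS' Ctx.hu' C.hN' (by linarith) hq hw hl hm hs hh

/-- **PUBLIC REMOVAL, start of the life of `i`** -/
theorem hot_pub (ka A : ℕ) : AllC A fun C => ∀ q, q / 5 ≤ C.T → ∀ w, C.tb.Ps.p w ≠ 0 → ¬ ltL C.v C.tb q w →
    ∀ i, ¬ MV.Mv (C.M ka) i (MV.nu (C.M ka) q w) w →
      ¬ 0 < C.tb.Ps.ce (MV.TH (C.M ka) q) (fun u => ind (MV.Lst (C.M ka) (MV.nu (C.M ka) q w) q u)) w →
      ∀ a s, 0 < s → C.HQ i a s q w → C.HK i (a - 1) (2 * s) (UV.tv (C.U ka) i q w) w := by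
  refine ⟨ka + 1, fun C _ hc q hq w hw hl i hm hL a s hs hh => ?_⟩
  obtain ⟨n1, n2⟩ := C.d_num (ka := ka) hc
  exact HotT.hk_pub C.tb (C.d1_pos ka) (C.d1_le ka) (C.kb_pos ka) C.d0_pos C.d0_le C.d0_pos C.p1_pos (C.z_pos ka) C.H C.R
    Ctx.hS' Ctx.hu' C.hN' (by linarith) hq hw hl hm hL hs hh

/-- **PUBLIC REMOVAL, public start** -/
theorem hot_nu (ka A : ℕ) : AllC A fun C => ∀ q, q / 5 ≤ C.T → ∀ w, C.tb.Ps.p w ≠ 0 → ¬ ltL C.v C.tb q w →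
    ∀ i, ¬ MV.Lst (C.M ka) (MV.nu (C.M ka) q w) q w → ∀ a s, 0 < s → C.HQ i a s q w →
      C.HK i (a - 1) (2 * s) (MV.nu (C.M ka) q w) w := by
  refine ⟨ka + 1, fun C _ hc q hq w hw hl i hL a s hs hh => ?_⟩
  obtain ⟨n1, n2⟩ := C.d_num (ka := ka) hc
  exact HotT.hk_nu C.tb (C.d1_pos ka) (C.d1_le ka) (C.kb_pos ka) C.d0_pos C.d0_le C.d0_pos C.p1_pos (C.z_pos ka) C.H C.R
    Ctx.hS' Ctx.hu' C.hN' (by linarith) hq hw hl i hL hs hh

/-- **PRIVATE REMOVAL of `i`**, from the start of the life of `i` to the removal -/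
theorem hot_prv' (ka A : ℕ) : AllC A fun C => ∀ q, q / 5 ≤ C.T → ∀ w, C.tb.Ps.p w ≠ 0 → ¬ ltL C.v C.tb q w →
    ∀ i, ¬ MV.Mv (C.M ka) i q w → ∀ a s, 0 < s → C.HK i a s (UV.tv (C.U ka) i q w) w →
      C.HQ i (a - 1) (2 * s) q w := by
  refine ⟨ka + 1, fun C _ hc q hq w hw hl i hm a s hs hh => ?_⟩
  obtain ⟨n1, n2⟩ := C.d_num (ka := ka) hc
  exact HotT.hk_prv' C.tb (C.d1_pos ka) (C.d1_le ka) (C.kb_pos ka) C.d0_pos C.d0_le C.d0_pos C.p1_pos (C.z_pos ka) C.H C.R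
    Ctx.hS' Ctx.hu' C.hN' (by linarith) hq hw hl hm hs hh

/-- **PUBLIC REMOVAL**, from the start of the life of `i` to the removal -/
theorem hot_pub' (ka A : ℕ) : AllC A fun C => ∀ q, q / 5 ≤ C.T → ∀ w, C.tb.Ps.p w ≠ 0 → ¬ ltL C.v C.tb q w →
    ∀ i, ¬ MV.Mv (C.M ka) i (MV.nu (C.M ka) q w) w →
      ¬ 0 < C.tb.Ps.ce (MV.TH (C.M ka) q) (fun u => ind (MV.Lst (C.M ka) (MV.nu (C.M ka) q w) q u)) w →
      ∀ a s, 0 < s → C.HK i a s (UV.tv (C.U ka) i q w) w → C.HQ i (a - 1) (2 * s) q w := by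
  refine ⟨ka + 1, fun C _ hc q hq w hw hl i hm hL a s hs hh => ?_⟩
  obtain ⟨n1, n2⟩ := C.d_num (ka := ka) hc
  exact HotT.hk_pub' C.tb (C.d1_pos ka) (C.d1_le ka) (C.kb_pos ka) C.d0_pos C.d0_le C.d0_pos C.p1_pos (C.z_pos ka) C.H C.R
    Ctx.hS' Ctx.hu' C.hN' (by linarith) hq hw hl hm hL hs hh

/-- **PUBLIC REMOVAL**, from the public start to the removal -/
theorem hot_nu' (ka A : ℕ) : AllC A fun C => ∀ q, q / 5 ≤ C.T → ∀ w, C.tb.Ps.p w ≠ 0 → ¬ ltL C.v C.tb q w →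
    ∀ i, ¬ MV.Lst (C.M ka) (MV.nu (C.M ka) q w) q w → ∀ a s, 0 < s → C.HK i a s (MV.nu (C.M ka) q w) w →
      C.HQ i (a - 1) (2 * s) q w := by
  refine ⟨ka + 1, fun C _ hc q hq w hw hl i hL a s hs hh => ?_⟩
  obtain ⟨n1, n2⟩ := C.d_num (ka := ka) hc
  exact HotT.hk_nu' C.tb (C.d1_pos ka) (C.d1_le ka) (C.kb_pos ka) C.d0_pos C.d0_le C.d0_pos C.p1_pos (C.z_pos ka) C.H C.R
    Ctx.hS' Ctx.hu' C.hN' (by linarith) hq hw hl i hL hs hh

/-! ### the same, alive -/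

/-- the tables of the start of the life are before the removal -/
theorem av_tv {C : Ctx} (ka : ℕ) {q : ℕ} {w : C.O} (hl : ¬ ltL C.v C.tb q w) (i : Fin 3) (hA : C.AV q w) :
    Alv C.h C.v C.tb C.p (eT C.v C.tb (UV.tv (C.U ka) i q w) w) w :=
  Alv_anti C.h C.v C.tb (KDT.eT_le (v := C.v) C.tb (MV.tauS_le (M := C.M ka) i q w) hl) hA

theorem av_nu {C : Ctx} (ka : ℕ) {q : ℕ} {w : C.O} (hl : ¬ ltL C.v C.tb q w) (hA : C.AV q w) :
    Alv C.h C.v C.tb C.p (eT C.v C.tb (MV.nu (C.M ka) q w) w) w :=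
  Alv_anti C.h C.v C.tb (KDT.eT_le (v := C.v) C.tb (MV.nu_le (M := C.M ka) q w) hl) hA

/-- **PRIVATE REMOVAL of `i`, alive** -/
theorem ha_prv (ka A : ℕ) : AllC A fun C => ∀ q, q / 5 ≤ C.T → ∀ w, C.tb.Ps.p w ≠ 0 → ¬ ltL C.v C.tb q w →
    ∀ i, ¬ MV.Mv (C.M ka) i q w → ∀ a s, 0 < s → C.HQ i a s q w → C.AV q w →
      C.HA i (a - 1) (2 * s) (UV.tv (C.U ka) i q w) w :=
  (hot_prv ka A).mono fun _ hC q hq w hw hl i hm a s hs hh hA => ⟨hC q hq w hw hl i hm a s hs hh, av_tv ka hl i hA⟩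

/-- **PUBLIC REMOVAL, start of the life of `i`, alive** -/
theorem ha_pub (ka A : ℕ) : AllC A fun C => ∀ q, q / 5 ≤ C.T → ∀ w, C.tb.Ps.p w ≠ 0 → ¬ ltL C.v C.tb q w →
    ∀ i, ¬ MV.Mv (C.M ka) i (MV.nu (C.M ka) q w) w →
      ¬ 0 < C.tb.Ps.ce (MV.TH (C.M ka) q) (fun u => ind (MV.Lst (C.M ka) (MV.nu (C.M ka) q w) q u)) w →
      ∀ a s, 0 < s → C.HQ i a s q w → C.AV q w → C.HA i (a - 1) (2 * s) (UV.tv (C.U ka) i q w) w :=
  (hot_pub ka A).mono fun _ hC q hq w hw hl i hm hL a s hs hh hA => ⟨hC q hq w hw hl i hm hL a s hs hh, av_tv ka hl i hA⟩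

/-- **PUBLIC REMOVAL, public start, alive** -/
theorem ha_nu (ka A : ℕ) : AllC A fun C => ∀ q, q / 5 ≤ C.T → ∀ w, C.tb.Ps.p w ≠ 0 → ¬ ltL C.v C.tb q w →
    ∀ i, ¬ MV.Lst (C.M ka) (MV.nu (C.M ka) q w) q w → ∀ a s, 0 < s → C.HQ i a s q w → C.AV q w →
      C.HA i (a - 1) (2 * s) (MV.nu (C.M ka) q w) w :=
  (hot_nu ka A).mono fun _ hC q hq w hw hl i hL a s hs hh hA => ⟨hC q hq w hw hl i hL a s hs hh, av_nu ka hl hA⟩

end

end Pool.Agent.GMH.CX
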