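import Pool.Agent.GMH.ExitU
import Pool.Agent.GMH.ExitHot
import Pool.Agent.GMH.HotC

/-!
# GMH/ExitUH (helper99): `EX v`, `EX 0` of the hot pairs over `Ctx`

**`exh_v`**, **`exh_0`** : hot pairs, levels `(a, s)` of the life, `(a - 2, 4 s)` of the stays: at most `x^10`, any `US` with the
space of `C`, any kinds `Q`, `Q'`, any removals `A` with `GdX`, `Gd0` of `GMH/ExitU`.
-/

set_option autoImplicit false
set_option linter.unusedSectionVars false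

namespace Pool.Agent.GMH.ExK

open Finset Pool.Agent.PWZ Pool.Agent.M3 Pool.Agent.GMH Pool.Agent.GMH.KF Pool.Agent.GMH.CT Pool.Agent.GMH.CX
open Pool.Agent.GMH.V3 Pool.Agent.GMH.TP Pool.Agent.GMH.Dy Pool.Agent.GMH.CK Pool.Agent.GMH.MV Pool.Agent.GMH.KDT
open Pool.Agent.GMH.TD Pool.Agent.GMH.UV

noncomputable section

variable {C : Ctx} {ka : ℕ} {M : US C.O} {Q : Kd C.O} {A : Stps (Om := C.O)} (hka : ka + 1 ≤ C.c0) (hMP : M.P = C.tb.Ps)
  {Q' : Kd C.O}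

include hka hMP

/-- **EX v, hot pairs** -/
theorem exh_v {i : Fin 3} (hG : GdX C ka M Q A i) {a s : ℝ} (hs : 0 < s)
    (hQ : ∀ q w, C.tb.Ps.p w ≠ 0 → Q.kv (some i) (tv M i q w) w → C.HK i a s (tauS (C.U ka).toMS i q w) w)
    (hQ' : ∀ q w, C.tb.Ps.p w ≠ 0 → SHt C i (a - 2) (4 * s) (q + 1) w → Q'.kv (some i) (q + 1) w) :
    ∑ q ∈ range (5 * C.T), M.P.Pr (exv M Q Q' A i q) ≤ pw C.Lam 10 := by
  rw [hMP]
  obtain ⟨n1, n2⟩ := C.d_num (ka := ka) hka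
  have h1 := exit_hot C i (s := 2 * s) (a := a - 1) (a' := a - 2) (s' := 4 * s) (by linarith) (by linarith)
    (by linarith) (Rm := exv M Q Q' A i) (fun q w hq hw hx => by
      obtain ⟨g1, g2, g3, -⟩ := ex_mono hx
      have hq5 : q / 5 ≤ C.T := by omega
      have gb : bet M Q i q w := hx.1.2.2.1
      obtain ⟨a1, a2⟩ := hG.al q w hw g2 g1 gb
      refine Or.inl ⟨?_, a1⟩
      rcases g1 with g1 | g1
      · exact HotT.hk_prv' C.tb (C.d1_pos ka) (C.d1_le ka) (C.kb_pos ka) C.d0_pos C.d0_le C.d0_pos C.p1_pos (C.z_pos ka)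
          C.H C.R Ctx.hS' Ctx.hu' C.hN' (by linarith) hq5 hw a2 (hG.pr q w hw g2 g1 gb) hs (hQ q w hw g3)
      · obtain ⟨b1, b2⟩ := hG.pu q w hw g2 g1 gb
        exact HotT.hk_pub' C.tb (C.d1_pos ka) (C.d1_le ka) (C.kb_pos ka) C.d0_pos C.d0_le C.d0_pos C.p1_pos (C.z_pos ka)
          C.H C.R Ctx.hS' Ctx.hu' C.hN' (by linarith) hq5 hw a2 b1 b2 hs (hQ q w hw g3))
  refine (Finset.sum_le_sum fun q _ => C.tb.Ps.Pr_mono fun w hw hh => ?_).trans h1
  exact ⟨hh, fun h3 => hh.2 (hQ' q w hw h3)⟩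

/-- **EX 0, hot pairs** : the relation of a vertex `j ≠ i` is empty -/
theorem exh_0 {i : Fin 3} {v : Option (Fin 3)} (hG : Gd0 C ka M Q A v) {a s : ℝ} (hs : 0 < s)
    (hQn : v = Option.none → ∀ q w, C.tb.Ps.p w ≠ 0 → Rn M Q Option.none (nu M.toMS q w) w →
      C.HK i a s (nu (C.U ka).toMS q w) w)
    (hQs : ∀ j, v = some j → ∀ q w, C.tb.Ps.p w ≠ 0 → Rn M Q (some j) (nu M.toMS q w) w →
      j = i ∧ C.HK i a s (tauS (C.U ka).toMS i (nu (C.U ka).toMS q w) w) w)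
    (hQ' : ∀ q w, C.tb.Ps.p w ≠ 0 → SHt C i (a - 2) (4 * s) (q + 1) w → Q'.kv Option.none (q + 1) w) :
    ∑ q ∈ range (5 * C.T), M.P.Pr (ex0 M Q Q' A v q) ≤ pw C.Lam 10 := by
  rw [hMP]
  obtain ⟨n1, n2⟩ := C.d_num (ka := ka) hka
  have h1 := exit_hot C i (s := 2 * s) (a := a - 1) (a' := a - 2) (s' := 4 * s) (by linarith) (by linarith)
    (by linarith) (Rm := ex0 M Q Q' A v) (fun q w hq hw hx => by
      obtain ⟨g1, g2, g3, -⟩ := ex0_mono hx
      have hq5 : q / 5 ≤ C.T := by omega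
      have gz : Z0 M Q q w := hx.1.2.1
      obtain ⟨a1, a2, a3⟩ := hG.al q w hw g2 g1 gz
      refine Or.inl ⟨?_, a1⟩
      cases v with
      | none =>
        exact HotT.hk_nu' C.tb (C.d1_pos ka) (C.d1_le ka) (C.kb_pos ka) C.d0_pos C.d0_le C.d0_pos C.p1_pos (C.z_pos ka)
          C.H C.R Ctx.hS' Ctx.hu' C.hN' (by linarith) hq5 hw a2 i (unl_self hw a3) hs (hQn rfl q w hw g3)
      | some j =>
        obtain ⟨e, g4⟩ := hQs j rfl q w hw g3
        subst e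
        have hm := hG.mv q w hw g2 g1 gz j rfl
        have h0 := MV.nu_le (M := (C.U ka).toMS) q w
        have h5 := (stb_pub (M := (C.U ka).toMS) hw hm a3 (stg_le q w) le_rfl).1
        have g6 : MV.tau (C.U ka).toMS j q w ≤ eT C.v C.tb (tauS (C.U ka).toMS j (nu (C.U ka).toMS q w) w) w := by
          rw [h5]
          exact (tau_tauS j _ w).trans (le_eT C.tb _ w)
        have g7 : eT C.v C.tb (tauS (C.U ka).toMS j (nu (C.U ka).toMS q w) w) w ≤ q :=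
          eT_le C.tb ((tauS_le j _ w).trans h0) a2
        exact HotT.hq_stb' C.tb (C.d1_pos ka) (C.d1_le ka) (C.kb_pos ka) C.d0_pos C.d0_le C.d0_pos C.p1_pos (C.z_pos ka)
          C.H C.R Ctx.hS' Ctx.hu' C.hN' (show 4 * MVN.d1 C.Lam ka C.c0 + 16 * MVN.d0 C.Lam C.c0 ≤ 1 / 8 by linarith) hq5 hw
          g7 (stb_pub (M := (C.U ka).toMS) hw hm a3 g6 g7).2 hs g4)
  refine (Finset.sum_le_sum fun q _ => C.tb.Ps.Pr_mono fun w hw hh => ?_).trans h1
  exact ⟨hh, fun h3 => hh.2 (hQ' q w hw h3)⟩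

end

end Pool.Agent.GMH.ExK
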