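import Pool.Agent.GMH.ExitU
import Pool.Agent.GMH.CtxK

/-!
# GMH/ExitX (helper99): `EX v`, `EX 0` FOR THE KINDS `C.Q3 c κ`, `C.Q2 ka c i κ` (row C6)

* `C.S3 κ`, `C.S2 i κ` : **the kinds of the stays** (half thresholds, fixed): relation `SRC` of the start, alive;
* **`ex3_v`**, **`ex3_0`** (three tops), **`ex2_v`**, **`ex2_0`** (two tops which see `i`) : fields `ex`, `exz` of `RelC` for
  `M = C.U ka`, rounds `Rc`, any counting steps with `GdX`, `Gd0`;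
* `ex3_vM` ..: the same for any `US` over the space of `C` and any kind whose relation of the densities is contained in that of
  `C.Q3`, `C.Q2` at the start of the exact life (theories A and B).
-/

set_option autoImplicit false
set_option linter.unusedSectionVars false

namespace Pool.Agent.GMH.CX

open Finset Pool.Agent.PWZ Pool.Agent.M3 Pool.Agent.GMH Pool.Agent.GMH.KF Pool.Agent.GMH.CT Pool.Agent.GMH.ExK
open Pool.Agent.GMH.V3 Pool.Agent.GMH.TP Pool.Agent.GMH.Dy Pool.Agent.GMH.CK Pool.Agent.GMH.MV Pool.Agent.GMH.KDT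
open Pool.Agent.GMH.TD Pool.Agent.GMH.UV

noncomputable section

namespace Ctx

variable (C : Ctx)

/-- the kind of the stays, three tops -/
def S3 (κ : Fin 10) : Kd C.O where
  kd := fun o τ w => SRC C Rc Option.none 0 κ o τ w
  kv := fun o τ w => SRC C Rc Option.none 0 κ o τ w
  kz := fun i τ w => SRC C Rc Option.none 0 κ (Option.some i) τ w
  al := Alv C.h C.v C.tb C.p
  psi := fun _ _ _ => 0
  Vk := vk κ
  uB := C.uBk κ
  u0 := C.u0k κ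
  hkv := fun _ _ _ _ hk => hk
  hkn := fun _ _ hk => hk
  hkz := fun _ _ _ _ hk => hk
  hzv := fun _ _ _ _ hk => hk
  hal := fun n _ => Alv_anti C.h C.v C.tb (Nat.le_succ n)

/-- the kind of the stays, two tops which see `i` -/
def S2 (i : Fin 3) (κ : Fin 10) : Kd C.O where
  kd := fun o τ w => SRC C Rc (Option.some i) 0 κ o τ w
  kv := fun o τ w => SRC C Rc (Option.some i) 0 κ o τ w
  kz := fun j τ w => SRC C Rc (Option.some i) 0 κ (Option.some j) τ w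
  al := Alv C.h C.v C.tb C.p
  psi := fun _ _ _ => 0
  Vk := {i}
  uB := C.uBk κ
  u0 := C.u0k κ
  hkv := fun _ _ _ _ hk => hk
  hkn := fun _ _ hk => hk
  hkz := fun _ _ _ _ hk => hk
  hzv := fun _ _ _ _ hk => hk
  hal := fun n _ => Alv_anti C.h C.v C.tb (Nat.le_succ n)

end Ctx

variable {C : Ctx} {ka : ℕ}

theorem Rc_kd1 : 1 ≤ Rc.kd := by
  unfold Rc
  norm_num

theorem Rc_kp : 14 ≤ Rc.kp := by
  unfold Rc
  norm_num

theorem Rc_kz : 14 ≤ Rc.kz := by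
  unfold Rc
  norm_num

variable (hT : Tny C ka Rc) {c : KC} (hc : KcB Rc C.Lam c) {M : US C.O} (hMP : M.P = C.tb.Ps) {Q : Kd C.O}
  {A : Stps (Om := C.O)} (κ : Fin 10)

include hT hc hMP

/-- **EX v, three tops**, any theory -/
theorem ex3_vM {v : Fin 3} (hG : GdX C ka M Q A v)
    (hQ : ∀ q w, C.tb.Ps.p w ≠ 0 → Q.kv (some v) (tv M v q w) w →
      (C.Q3 c κ).kv (some v) (tauS (C.U ka).toMS v q w) w) :
    ∑ q ∈ range (5 * C.T), M.P.Pr (exv M Q (C.S3 κ) A v q) ≤ pw C.Lam (CT.rd Rc κ.1).km :=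
  ex_v hT Rc_kd1 hMP Option.none κ hc 0 Rc_kp hG
    (fun q w hw hh => kv3_SR le_rfl le_rfl le_rfl le_rfl (hQ q w hw hh).1) fun _ _ _ hh => hh

/-- **EX 0, three tops**, any theory -/
theorem ex3_0M {v : Option (Fin 3)} (hG : Gd0 C ka M Q A v)
    (hQn : v = Option.none → ∀ q w, C.tb.Ps.p w ≠ 0 → Rn M Q Option.none (nu M.toMS q w) w →
      (C.Q3 c κ).kv Option.none (nu (C.U ka).toMS q w) w)
    (hQs : ∀ i, v = some i → ∀ q w, C.tb.Ps.p w ≠ 0 → Rn M Q (some i) (nu M.toMS q w) w →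
      (C.Q3 c κ).kv (some i) (tauS (C.U ka).toMS i (nu (C.U ka).toMS q w) w) w) :
    ∑ q ∈ range (5 * C.T), M.P.Pr (ex0 M Q (C.S3 κ) A v q) ≤ pw C.Lam (CT.rd Rc κ.1).kz :=
  ex_0 hT Rc_kd1 hMP Option.none κ hc 0 Rc_kz hG
    (fun e q w hw hh => kv3_SR le_rfl le_rfl le_rfl le_rfl (hQn e q w hw hh).1)
    (fun i e q w hw hh => kv3_SR le_rfl le_rfl le_rfl le_rfl (hQs i e q w hw hh).1) fun _ _ _ hh => hh

/-- **EX v, two tops**, any theory -/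
theorem ex2_vM (i : Fin 3) {v : Fin 3} (hG : GdX C ka M Q A v)
    (hQ : ∀ q w, C.tb.Ps.p w ≠ 0 → Q.kv (some v) (tv M v q w) w →
      (C.Q2 ka c i κ).kv (some v) (tauS (C.U ka).toMS v q w) w) :
    ∑ q ∈ range (5 * C.T), M.P.Pr (exv M Q (C.S2 i κ) A v q) ≤ pw C.Lam (CT.rd Rc κ.1).km :=
  ex_v hT Rc_kd1 hMP (Option.some i) κ hc 0 Rc_kp hG
    (fun q w hw hh => kv2_SR le_rfl le_rfl le_rfl le_rfl (hQ q w hw hh).2.1) fun _ _ _ hh => hh

/-- **EX 0, two tops**, any theory -/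
theorem ex2_0M (i : Fin 3) {v : Option (Fin 3)} (hG : Gd0 C ka M Q A v)
    (hQn : v = Option.none → ∀ q w, C.tb.Ps.p w ≠ 0 → Rn M Q Option.none (nu M.toMS q w) w →
      (C.Q2 ka c i κ).kv Option.none (nu (C.U ka).toMS q w) w)
    (hQs : ∀ j, v = some j → ∀ q w, C.tb.Ps.p w ≠ 0 → Rn M Q (some j) (nu M.toMS q w) w →
      (C.Q2 ka c i κ).kv (some j) (tauS (C.U ka).toMS j (nu (C.U ka).toMS q w) w) w) :
    ∑ q ∈ range (5 * C.T), M.P.Pr (ex0 M Q (C.S2 i κ) A v q) ≤ pw C.Lam (CT.rd Rc κ.1).kz :=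
  ex_0 hT Rc_kd1 hMP (Option.some i) κ hc 0 Rc_kz hG
    (fun e q w hw hh => kv2_SR le_rfl le_rfl le_rfl le_rfl (hQn e q w hw hh).2.1)
    (fun j e q w hw hh => kv2_SR le_rfl le_rfl le_rfl le_rfl (hQs j e q w hw hh).2.1) fun _ _ _ hh => hh

omit hMP

/-- **EX v, three tops** -/
theorem ex3_v {v : Fin 3} (hG : GdX C ka (C.U ka) (C.Q3 c κ) A v) :
    ∑ q ∈ range (5 * C.T), (C.U ka).P.Pr (exv (C.U ka) (C.Q3 c κ) (C.S3 κ) A v q) ≤ pw C.Lam (CT.rd Rc κ.1).km :=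
  ex3_vM hT hc rfl κ hG fun _ _ _ hh => hh

/-- **EX 0, three tops** -/
theorem ex3_0 {v : Option (Fin 3)} (hG : Gd0 C ka (C.U ka) (C.Q3 c κ) A v) :
    ∑ q ∈ range (5 * C.T), (C.U ka).P.Pr (ex0 (C.U ka) (C.Q3 c κ) (C.S3 κ) A v q) ≤ pw C.Lam (CT.rd Rc κ.1).kz :=
  ex3_0M hT hc rfl κ hG (fun _ _ _ _ hh => hh) fun _ _ _ _ _ hh => hh.1

/-- **EX v, two tops** -/
theorem ex2_v (i : Fin 3) {v : Fin 3} (hG : GdX C ka (C.U ka) (C.Q2 ka c i κ) A v) :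
    ∑ q ∈ range (5 * C.T), (C.U ka).P.Pr (exv (C.U ka) (C.Q2 ka c i κ) (C.S2 i κ) A v q) ≤ pw C.Lam (CT.rd Rc κ.1).km :=
  ex2_vM hT hc rfl κ i hG fun _ _ _ hh => hh

/-- **EX 0, two tops** -/
theorem ex2_0 (i : Fin 3) {v : Option (Fin 3)} (hG : Gd0 C ka (C.U ka) (C.Q2 ka c i κ) A v) :
    ∑ q ∈ range (5 * C.T), (C.U ka).P.Pr (ex0 (C.U ka) (C.Q2 ka c i κ) (C.S2 i κ) A v q) ≤ pw C.Lam (CT.rd Rc κ.1).kz :=
  ex2_0M hT hc rfl κ i hG (fun _ _ _ _ hh => hh) fun _ _ _ _ _ hh => hh.1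

end

end Pool.Agent.GMH.CX
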