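import Pool.Agent.GMH.GhoP

/-!
# GMH/Uv (helper30): VERTEX STATUS AND PRIORITY BY TIME, K = 0 (H3.UNM, U.2 and U.3), fixed `a`

`nd s` = node, `V i s` = exact vertex `i` and the cells of the others, `R s` = relation read at the time `s`,
`M_i(s) = P (R s | V i s)`.
* one time: `at_le`, `at_ge`, `ci_cp` (given the node two exact vertices are independent: the density of an event of the vertex
  `j` is the same at the exact vertex `i`);
* status of one vertex: `de` decided (`I0` = decided before the time `0`), `dr` dropped (after the decision the density is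
  `< ux` once), `alv` alive; `dr_le` : `P (R, dropped by σ) ≤ ux P (decided by σ)`;
* crowd: `kc s` : alive vertices of some kind have density `≥ uK` in the node, `TK` = first time;
  `TK_rel`, `TK_cnt` : `(ux uK - k y) P (T^K ≤ σ) ≤ Σ P (rm, R, alive at T^K ≤ σ)`; `TK_drop` : what is dropped at `T^K`;
* `sel_le`, `sel_epoch` : at the exact vertex `i`, before `T^K`, the tuples with another alive vertex have density `≤ k uK`;
* without `T^K`: `al_le` : the alive vertices have density `≤ P (R_j | node) / ux` in the node; `sel0`, `sel0_epoch` : before `T^0`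
  the tuples with another alive vertex have density `≤ k u0 / ux`; `sel_gen`, `sel_gen_epoch` : any bound;
* priority: `Bf` (nothing happens by `σ`), `C0` (`T^0` first), `Dk` (`T^K` first), `Ei` (vertex `i` is decided before `T^0`, `T^K`,
  NO priority between the vertices), `Ex` = error; `part` : the partition, `split_signed` : signed form, `ex_le` : the error.
-/

set_option autoImplicit false
set_option linter.unusedSectionVars false

namespace Pool.Agent.GMH.Uv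

open Finset Pool.Agent.PWZ Pool.Agent.M3 Pool.Agent.GMH.Gdy Pool.Agent.GMH.CR Pool.Agent.GMH.Three
open Pool.Agent.GMH.Blk
open Pool.Agent.GMH.Tree (stp_le stp_eq one_sum one_cnt)
open Pool.Agent.GMH.Tree3 (ev_le)

noncomputable section

variable {Om : Type*} [Fintype Om] {P : FP Om}

/-! ## one time -/

section one

variable {κ κ' ν : ℕ → Type*} {V : ∀ t, Om → κ t} {V' : ∀ t, Om → κ' t} {nd : ∀ t, Om → ν t}

/-- an event which sees `V s`, small density -/
theorem at_le {s : ℕ} {f A : Om → Prop} (hf : ∀ x w, V s x = V s w → (f x ↔ f w)) {q : ℝ}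
    (hq : ∀ w, P.p w ≠ 0 → f w → cp P V s A w ≤ q) :
    P.Pr (fun w => f w ∧ A w) ≤ q * P.Pr f := by
  have e1 : P.Pr (fun w => f w ∧ A w) = P.E (fun w => ind (f w) * ind (A w)) :=
    P.E_congr fun w _ => ind_and _ _
  have hF : Fac (V s) (fun w => ind (f w)) := Fac.ind fun x w e => hf x w e
  rw [e1, ← P.E_mul_ce hF]
  unfold FP.Pr
  rw [← FP.E_smul]
  refine P.E_mono fun w hw => ?_
  by_cases h : f w
  · rw [ind_of h, one_mul, mul_one]
    exact hq w hw h
  · rw [ind_not h, zero_mul, mul_zero]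

/-- an event which sees `V s`, large density -/
theorem at_ge {s : ℕ} {f A : Om → Prop} (hf : ∀ x w, V s x = V s w → (f x ↔ f w)) {q : ℝ}
    (hq : ∀ w, P.p w ≠ 0 → f w → q ≤ cp P V s A w) :
    q * P.Pr f ≤ P.Pr (fun w => f w ∧ A w) := by
  have e1 : P.Pr (fun w => f w ∧ A w) = P.E (fun w => ind (f w) * ind (A w)) :=
    P.E_congr fun w _ => ind_and _ _
  have hF : Fac (V s) (fun w => ind (f w)) := Fac.ind fun x w e => hf x w e
  rw [e1, ← P.E_mul_ce hF]
  unfold FP.Pr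
  rw [← FP.E_smul]
  refine P.E_mono fun w hw => ?_
  by_cases h : f w
  · rw [ind_of h, one_mul, mul_one]
    exact hq w hw h
  · rw [ind_not h, zero_mul, mul_zero]

/-- **independent sights**: the density of an event of the other sight is that of the node -/
theorem ci_cp (hV : ∀ s, Fac (V s) (nd s)) (hci : CI P nd V V') {s : ℕ} {A : Om → Prop}
    (hA : ∀ x w, V' s x = V' s w → (A x ↔ A w)) {w : Om} (hw : P.p w ≠ 0) :
    cp P V s A w = cp P nd s A w := by
  have h1 := hci s (fun x => ind (V s x = V s w)) (fun x => ind (A x))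
    (Fac.ind fun x y e => by rw [e]) (Fac.ind fun x y e => hA x y e) w hw
  have pn : 0 < P.m (nd s) w := P.m_pos (nd s) hw
  have pv : 0 < P.m (V s) w := P.m_pos (V s) hw
  have k1 : ∀ g : Om → ℝ, P.E (fun x => ind (nd s x = nd s w) * (ind (V s x = V s w) * g x)) =
      P.E (fun x => ind (V s x = V s w) * g x) := fun g => by
    refine P.E_congr fun x _ => ?_
    by_cases h : V s x = V s w
    · rw [ind_of (show nd s x = nd s w from hV s x w h), one_mul]
    · rw [ind_not h]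
      ring
  have k2 : P.E (fun x => ind (nd s x = nd s w) * ind (V s x = V s w)) = P.m (V s) w := by
    have := k1 (fun _ => 1)
    simp only [mul_one] at this
    rw [this]
    rfl
  unfold cp FP.ce at h1 ⊢
  rw [k1, k2] at h1
  rw [div_eq_iff pn.ne'] at h1
  rw [h1]
  field_simp

end one

/-! ## the status of a vertex -/

section status

variable {κ ν : ℕ → Type*} {V : ∀ t, Om → κ t} {nd : ∀ t, Om → ν t} {R : ℕ → Om → Prop} {uB ux : ℝ} {I0 : Om → Prop}
  {σ : Om → ℕ} {T : ℕ}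

variable (P V R uB I0) in
/-- decided by the time `s` -/
def de (s : ℕ) (w : Om) : Prop := I0 w ∨ ∃ s' ≤ s, uB ≤ cp P V s' (R s') w

variable (P V R uB ux I0) in
/-- dropped by the time `s` -/
def dr (s : ℕ) (w : Om) : Prop := ∃ s' ≤ s, de P V R uB I0 s' w ∧ cp P V s' (R s') w < ux

variable (P V R uB ux I0) in
/-- alive -/
def alv (s : ℕ) (w : Om) : Prop := de P V R uB I0 s w ∧ ¬ dr P V R uB ux I0 s w

theorem de_mono {s s' : ℕ} (h : s ≤ s') {w : Om} (a : de P V R uB I0 s w) : de P V R uB I0 s' w := by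
  rcases a with a | ⟨i, hi, a⟩
  · exact Or.inl a
  · exact Or.inr ⟨i, hi.trans h, a⟩

theorem dr_mono {s s' : ℕ} (h : s ≤ s') {w : Om} (a : dr P V R uB ux I0 s w) : dr P V R uB ux I0 s' w := by
  obtain ⟨i, hi, a⟩ := a
  exact ⟨i, hi.trans h, a⟩

theorem dr_de {s : ℕ} {w : Om} (a : dr P V R uB ux I0 s w) : de P V R uB I0 s w := by
  obtain ⟨i, hi, a, _⟩ := a
  exact de_mono hi a

/-- an alive vertex has density at least `ux` -/
theorem alv_ge {s : ℕ} {w : Om} (a : alv P V R uB ux I0 s w) : ux ≤ cp P V s (R s) w := by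
  by_contra h
  exact a.2 ⟨s, le_rfl, a.1, not_le.1 h⟩

/-- decided = alive or dropped -/
theorem de_cases {s : ℕ} {w : Om} (a : de P V R uB I0 s w) : alv P V R uB ux I0 s w ∨ dr P V R uB ux I0 s w := by
  by_cases h : dr P V R uB ux I0 s w
  · exact Or.inr h
  · exact Or.inl ⟨a, h⟩

variable (hI : ∀ x w, V 0 x = V 0 w → (I0 x ↔ I0 w))

include hI in
theorem de_fac (fV : Filt V) (s : ℕ) (x w : Om) (e : V s x = V s w) : de P V R uB I0 s x ↔ de P V R uB I0 s w := by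
  unfold de
  rw [hI x w (fV.le (Nat.zero_le s) x w e)]
  exact or_congr_right (exists_congr fun s' => and_congr_right fun hs' => by
    rw [cp_fac s' (R s') x w (fV.le hs' x w e)])

include hI in
theorem dr_fac (fV : Filt V) (s : ℕ) (x w : Om) (e : V s x = V s w) :
    dr P V R uB ux I0 s x ↔ dr P V R uB ux I0 s w := by
  unfold dr
  exact exists_congr fun s' => and_congr_right fun hs' => by
    rw [de_fac hI fV s' x w (fV.le hs' x w e), cp_fac s' (R s') x w (fV.le hs' x w e)]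

include hI in
theorem alv_fac (fV : Filt V) (s : ℕ) (x w : Om) (e : V s x = V s w) :
    alv P V R uB ux I0 s x ↔ alv P V R uB ux I0 s w := by
  unfold alv
  rw [de_fac hI fV s x w e, dr_fac hI fV s x w e]

/-- first times are seen -/
theorem fst_seen {f : ℕ → Om → Prop} (fV : Filt V) (hf : ∀ s x w, V s x = V s w → (f s x ↔ f s w)) (s : ℕ) (x w : Om)
    (e : V s x = V s w) : fst f s x ↔ fst f s w := by
  unfold fst
  rw [hf s x w e]
  exact and_congr_right fun _ => forall_congr' fun s' => forall_congr' fun hs' =>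
    not_congr (hf s' x w (fV.le hs'.le x w e))

theorem fst_dr {s : ℕ} {w : Om} (a : fst (dr P V R uB ux I0) s w) : cp P V s (R s) w < ux := by
  obtain ⟨⟨i, hi, h1, h2⟩, h3⟩ := a
  rcases hi.eq_or_lt with rfl | h
  · exact h2
  · exact absurd ⟨i, le_rfl, h1, h2⟩ (h3 i h)

include hI in
/-- **tuples over dropped vertices**: `G` = relation at the end -/
theorem dr_le (fV : Filt V) (hσ : Stp V σ) (hT : ∀ w, σ w < T) (x0 : 0 ≤ ux) {G : Om → Prop}
    (hG : ∀ s w, G w → fst (dr P V R uB ux I0) s w → s ≤ σ w → R s w) :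
    P.Pr (fun w => G w ∧ dr P V R uB ux I0 (σ w) w) ≤ ux * P.Pr (fun w => de P V R uB I0 (σ w) w) := by
  have h1 := ev_le (P := P) (Y := V) (nd := V) (σ := σ) (T := T) (ka := ux) fV (fun s => Fac.refl (V s)) hσ hT
    (f := fst (dr P V R uB ux I0)) (fst_seen fV (dr_fac hI fV)) (fun w s s' a b => fst_one s s' a b)
    (Q := R) (Bad := fun _ => False) (fun s w _ a _ => by
      rw [ind_not (not_false), add_zero]
      exact (fst_dr a).le)
  have z : P.Pr (fun _ : Om => False) = 0 := by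
    unfold FP.Pr
    rw [show (fun _ : Om => ind False) = fun _ => (0 : ℝ) from funext fun _ => ind_not not_false]
    exact P.E_const 0
  rw [z, add_zero] at h1
  refine (P.E_mono fun w _ => ind_mono ?_).trans (h1.trans (mul_le_mul_of_nonneg_left
    (P.E_mono fun w _ => ind_mono ?_) x0))
  · rintro ⟨hg, hd⟩
    obtain ⟨s, hs, h⟩ := fst_ex (A := dr P V R uB ux I0) hd
    exact ⟨s, hs, h, hG s w hg h hs⟩
  · rintro ⟨s, hs, h⟩
    exact de_mono hs (dr_de h.1)

end status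

/-! ## the crowd -/

section crowd

variable {ι : Type*} [Fintype ι] {κ : ι → ℕ → Type*} {ν : ℕ → Type*} {V : ∀ i t, Om → κ i t} {nd : ∀ t, Om → ν t}
  {R : ℕ → Om → Prop} {al : ι → ℕ → Om → Prop} {ux uK u0 y : ℝ} {σ : Om → ℕ} {T : ℕ} {rm nr : Om → Prop}

variable (P nd al uK) in
/-- the alive vertices of some kind are a crowd -/
def kc (s : ℕ) (w : Om) : Prop := ∃ i, uK ≤ cp P nd s (al i s) w

variable (P nd al uK) in
/-- `T^K = s` -/
def TK (s : ℕ) (w : Om) : Prop := fst (kc P nd al uK) s w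

theorem kc_fac (s : ℕ) (x w : Om) (e : nd s x = nd s w) : kc P nd al uK s x ↔ kc P nd al uK s w := by
  unfold kc
  exact exists_congr fun i => by rw [cp_fac s (al i s) x w e]

theorem TK_fac (fnd : Filt nd) (s : ℕ) (x w : Om) (e : nd s x = nd s w) : TK P nd al uK s x ↔ TK P nd al uK s w :=
  fst_seen fnd (fun s x w e => kc_fac s x w e) s x w e

theorem TK_one (w : Om) (s s' : ℕ) (a : TK P nd al uK s w) (b : TK P nd al uK s' w) : s = s' := fst_one s s' a b

/-- the relation over the alive vertices, one time -/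
theorem kc_ge (hV : ∀ i s, Fac (V i s) (nd s)) (hal : ∀ i s x w, V i s x = V i s w → (al i s x ↔ al i s w))
    (hge : ∀ i s w, P.p w ≠ 0 → al i s w → ux ≤ cp P (V i) s (R s) w) (x0 : 0 ≤ ux) {s : ℕ} {w : Om}
    (_hw : P.p w ≠ 0) (h : kc P nd al uK s w) : ux * uK ≤ ∑ i, cp P nd s (fun x => R s x ∧ al i s x) w := by
  obtain ⟨i, hi⟩ := h
  have h1 : ux * cp P nd s (al i s) w ≤ cp P nd s (fun x => R s x ∧ al i s x) w := by
    have e1 : cp P nd s (fun x => R s x ∧ al i s x) w = P.ce (nd s) (fun x => ind (al i s x) * cp P (V i) s (R s) x) w := by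
      have e2 : P.ce (nd s) (P.ce (V i s) (fun x => ind (al i s x) * ind (R s x))) w =
          P.ce (nd s) (fun x => ind (al i s x) * ind (R s x)) w := P.ce_tower (hV i s) _ w
      have e3 : ∀ x, P.ce (V i s) (fun x => ind (al i s x) * ind (R s x)) x = ind (al i s x) * cp P (V i) s (R s) x :=
        fun x => P.ce_mul (Fac.ind fun x w e => hal i s x w e) (fun x => ind (R s x)) x
      rw [funext e3] at e2
      rw [e2]
      unfold cp
      congr 1
      funext x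
      rw [ind_and]
      ring
    rw [e1]
    unfold cp
    rw [← P.ce_smul]
    refine P.ce_mono (fun x hx => ?_) w
    by_cases h2 : al i s x
    · rw [ind_of h2, mul_one, one_mul]
      exact hge i s x hx h2
    · rw [ind_not h2]
      simp
  have h2 : ux * uK ≤ ux * cp P nd s (al i s) w := mul_le_mul_of_nonneg_left hi x0
  exact h2.trans (h1.trans (Finset.single_le_sum (f := fun i => cp P nd s (fun x => R s x ∧ al i s x) w)
    (fun j _ => cp_nonneg _ _ _) (mem_univ i)))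

/-- the relation over the alive vertices at any times (no first time) -/
theorem kc_sum (hV : ∀ i s, Fac (V i s) (nd s)) (hal : ∀ i s x w, V i s x = V i s w → (al i s x ↔ al i s w))
    (hge : ∀ i s w, P.p w ≠ 0 → al i s w → ux ≤ cp P (V i) s (R s) w) (x0 : 0 ≤ ux) {k : ℕ → Om → Prop}
    (hk : ∀ s x w, nd s x = nd s w → (k s x ↔ k s w)) (hkc : ∀ s w, P.p w ≠ 0 → k s w → kc P nd al uK s w) (s : ℕ) :
    ux * uK * P.Pr (k s) ≤ ∑ i, P.Pr (fun w => k s w ∧ (R s w ∧ al i s w)) := by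
  have hF : Fac (nd s) (fun w => ind (k s w)) := Fac.ind fun x w e => hk s x w e
  have e1 : ∀ i, P.Pr (fun w => k s w ∧ (R s w ∧ al i s w)) =
      P.E (fun w => ind (k s w) * cp P nd s (fun x => R s x ∧ al i s x) w) := fun i => by
    have : P.Pr (fun w => k s w ∧ (R s w ∧ al i s w)) = P.E (fun w => ind (k s w) * ind (R s w ∧ al i s w)) :=
      P.E_congr fun w _ => ind_and _ _
    rw [this]
    exact (P.E_mul_ce hF _).symm
  rw [Finset.sum_congr rfl fun i _ => e1 i, ← FP.E_sum]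
  unfold FP.Pr
  rw [← FP.E_smul]
  refine P.E_mono fun w hw => ?_
  rw [← Finset.mul_sum]
  by_cases h : k s w
  · rw [ind_of h, mul_one, one_mul]
    exact kc_ge hV hal hge x0 hw (hkc s w hw h)
  · rw [ind_not h, mul_zero, zero_mul]

/-- **the relation over the alive vertices at `T^K`** -/
theorem TK_rel (hV : ∀ i s, Fac (V i s) (nd s)) (hal : ∀ i s x w, V i s x = V i s w → (al i s x ↔ al i s w))
    (hge : ∀ i s w, P.p w ≠ 0 → al i s w → ux ≤ cp P (V i) s (R s) w) (x0 : 0 ≤ ux) (fnd : Filt nd) (hσ : Stp nd σ)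
    (hT : ∀ w, σ w < T) :
    ux * uK * P.Pr (fun w => ∃ s ≤ σ w, TK P nd al uK s w) ≤
      ∑ i, P.Pr (fun w => ∃ s ≤ σ w, TK P nd al uK s w ∧ (R s w ∧ al i s w)) := by
  have e1 : P.Pr (fun w => ∃ s ≤ σ w, TK P nd al uK s w) =
      ∑ s ∈ range T, P.Pr (fun w => TK P nd al uK s w ∧ s ≤ σ w) :=
    (one_cnt hT (f := TK P nd al uK) (fun w s s' a b => TK_one w s s' a b)).symm
  have e2 : ∀ i, P.Pr (fun w => ∃ s ≤ σ w, TK P nd al uK s w ∧ (R s w ∧ al i s w)) =
      ∑ s ∈ range T, P.Pr (fun w => (TK P nd al uK s w ∧ s ≤ σ w) ∧ (R s w ∧ al i s w)) := fun i => by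
    unfold FP.Pr
    rw [← FP.E_sum]
    refine P.E_congr fun w _ => ?_
    have e3 := sum_ind' (A := fun s => (TK P nd al uK s w ∧ s ≤ σ w) ∧ (R s w ∧ al i s w)) (T := T)
      (fun s s' a b => TK_one w s s' a.1.1 b.1.1) (fun s a => lt_of_le_of_lt a.1.2 (hT w))
    rw [e3]
    congr 1
    exact propext ⟨fun ⟨s, a, b, c⟩ => ⟨s, ⟨b, a⟩, c⟩, fun ⟨s, a, c⟩ => ⟨s, a.2, a.1, c⟩⟩
  rw [e1, Finset.mul_sum, Finset.sum_congr rfl fun i _ => e2 i, Finset.sum_comm]
  refine Finset.sum_le_sum fun s _ => ?_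
  exact kc_sum (k := fun s w => TK P nd al uK s w ∧ s ≤ σ w) hV hal hge x0
    (fun s x w e => by rw [TK_fac fnd s x w e, stp_le fnd (fun _ => Fac.refl _) hσ e]) (fun s w _ a => a.1.1) s

/-- the ends without removal -/
theorem TK_nr (fnd : Filt nd) (hσ : Stp nd σ) (hT : ∀ w, σ w < T)
    (hnr : ∀ s x w, nd s x = nd s w → σ w = s → (nr x ↔ nr w)) {Q : Om → Prop}
    (hd : ∀ w, P.p w ≠ 0 → nr w → (∃ s ≤ σ w, TK P nd al uK s w) → cp P nd (σ w) Q w ≤ y) :
    P.Pr (fun w => (nr w ∧ ∃ s ≤ σ w, TK P nd al uK s w) ∧ Q w) ≤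
      y * P.Pr (fun w => nr w ∧ ∃ s ≤ σ w, TK P nd al uK s w) := by
  have e1 : P.Pr (fun w => (nr w ∧ ∃ s ≤ σ w, TK P nd al uK s w) ∧ Q w) =
      P.E (fun w => ind (nr w ∧ ∃ s ≤ σ w, TK P nd al uK s w) * ind (Q w)) :=
    P.E_congr fun w _ => ind_and _ _
  have e2 : P.Pr (fun w => nr w ∧ ∃ s ≤ σ w, TK P nd al uK s w) =
      P.E (fun w => ind (nr w ∧ ∃ s ≤ σ w, TK P nd al uK s w) * 1) := by
    unfold FP.Pr
    exact P.E_congr fun w _ => (mul_one _).symm
  rw [e1, e2, E_stop hT (fun s w => ind (nr w ∧ ∃ s' ≤ s, TK P nd al uK s' w) * ind (Q w)),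
    E_stop hT (fun s w => ind (nr w ∧ ∃ s' ≤ s, TK P nd al uK s' w) * 1), Finset.mul_sum]
  refine Finset.sum_le_sum fun s _ => ?_
  have hF : Fac (nd s) (fun w => ind (σ w = s) * ind (nr w ∧ ∃ s' ≤ s, TK P nd al uK s' w)) := fun x w e => by
    show ind (σ x = s) * ind (nr x ∧ ∃ s' ≤ s, TK P nd al uK s' x) =
      ind (σ w = s) * ind (nr w ∧ ∃ s' ≤ s, TK P nd al uK s' w)
    have e1 : (σ x = s) = (σ w = s) := propext (stp_eq fnd (fun _ => Fac.refl _) hσ e)
    rw [e1]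
    by_cases h : σ w = s
    · have e2 : (nr x ∧ ∃ s' ≤ s, TK P nd al uK s' x) = (nr w ∧ ∃ s' ≤ s, TK P nd al uK s' w) := by
        rw [propext (hnr s x w e h)]
        congr 1
        exact propext (exists_congr fun s' => and_congr_right fun hs' => TK_fac fnd s' x w (fnd.le hs' x w e))
      rw [e2]
    · rw [ind_not h, zero_mul, zero_mul]
  have h1 : P.E (fun w => ind (σ w = s) * (ind (nr w ∧ ∃ s' ≤ s, TK P nd al uK s' w) * ind (Q w))) =
      P.E (fun w => (ind (σ w = s) * ind (nr w ∧ ∃ s' ≤ s, TK P nd al uK s' w)) * cp P nd s Q w) := by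
    have : P.E (fun w => ind (σ w = s) * (ind (nr w ∧ ∃ s' ≤ s, TK P nd al uK s' w) * ind (Q w))) =
        P.E (fun w => (ind (σ w = s) * ind (nr w ∧ ∃ s' ≤ s, TK P nd al uK s' w)) * ind (Q w)) :=
      P.E_congr fun w _ => by ring
    rw [this]
    exact (P.E_mul_ce hF _).symm
  rw [h1, ← FP.E_smul]
  refine P.E_mono fun w hw => ?_
  by_cases h : σ w = s
  · by_cases h2 : nr w ∧ ∃ s' ≤ s, TK P nd al uK s' w
    · rw [ind_of h, ind_of h2, one_mul, one_mul, mul_one, mul_one, ← h]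
      exact hd w hw h2.1 (by rw [h]; exact h2.2)
    · rw [ind_not h2]
      simp
  · rw [ind_not h]
    simp

/-- **THE NUMBER OF `T^K`** -/
theorem TK_cnt (hV : ∀ i s, Fac (V i s) (nd s)) (hal : ∀ i s x w, V i s x = V i s w → (al i s x ↔ al i s w))
    (hge : ∀ i s w, P.p w ≠ 0 → al i s w → ux ≤ cp P (V i) s (R s) w) (x0 : 0 ≤ ux) (y0 : 0 ≤ y) (fnd : Filt nd)
    (hσ : Stp nd σ) (hT : ∀ w, σ w < T) (hnr : ∀ s x w, nd s x = nd s w → σ w = s → (nr x ↔ nr w))
    (hrn : ∀ w, rm w ∨ nr w)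
    (hd : ∀ i w, P.p w ≠ 0 → nr w → (∃ s ≤ σ w, TK P nd al uK s w) →
      cp P nd (σ w) (fun x => ∃ s ≤ σ x, TK P nd al uK s x ∧ (R s x ∧ al i s x)) w ≤ y) :
    (ux * uK - Fintype.card ι * y) * P.Pr (fun w => ∃ s ≤ σ w, TK P nd al uK s w) ≤
      ∑ i, P.Pr (fun w => rm w ∧ ∃ s ≤ σ w, TK P nd al uK s w ∧ (R s w ∧ al i s w)) := by
  have h1 := TK_rel hV hal hge x0 fnd hσ hT (uK := uK)
  have h2 : ∀ i, P.Pr (fun w => ∃ s ≤ σ w, TK P nd al uK s w ∧ (R s w ∧ al i s w)) ≤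
      P.Pr (fun w => rm w ∧ ∃ s ≤ σ w, TK P nd al uK s w ∧ (R s w ∧ al i s w)) +
        y * P.Pr (fun w => ∃ s ≤ σ w, TK P nd al uK s w) := fun i => by
    have h3 := TK_nr (P := P) (al := al) (uK := uK) fnd hσ hT hnr
      (Q := fun x => ∃ s ≤ σ x, TK P nd al uK s x ∧ (R s x ∧ al i s x)) (y := y) (hd i)
    have h4 : P.Pr (fun w => ∃ s ≤ σ w, TK P nd al uK s w ∧ (R s w ∧ al i s w)) ≤
        P.Pr (fun w => rm w ∧ ∃ s ≤ σ w, TK P nd al uK s w ∧ (R s w ∧ al i s w)) +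
        P.Pr (fun w => (nr w ∧ ∃ s ≤ σ w, TK P nd al uK s w) ∧
          ∃ s ≤ σ w, TK P nd al uK s w ∧ (R s w ∧ al i s w)) := by
      unfold FP.Pr
      rw [← FP.E_add]
      refine P.E_mono fun w _ => ?_
      have a1 := ind_nonneg (rm w ∧ ∃ s ≤ σ w, TK P nd al uK s w ∧ (R s w ∧ al i s w))
      have a2 := ind_nonneg ((nr w ∧ ∃ s ≤ σ w, TK P nd al uK s w) ∧
        ∃ s ≤ σ w, TK P nd al uK s w ∧ (R s w ∧ al i s w))
      by_cases h5 : ∃ s ≤ σ w, TK P nd al uK s w ∧ (R s w ∧ al i s w)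
      · rcases hrn w with h6 | h6
        · rw [ind_of h5, ind_of (show rm w ∧ ∃ s ≤ σ w, TK P nd al uK s w ∧ (R s w ∧ al i s w) from ⟨h6, h5⟩)]
          linarith
        · rw [ind_of h5, ind_of (show (nr w ∧ ∃ s ≤ σ w, TK P nd al uK s w) ∧
            ∃ s ≤ σ w, TK P nd al uK s w ∧ (R s w ∧ al i s w) from
              ⟨⟨h6, h5.imp fun s a => ⟨a.1, a.2.1⟩⟩, h5⟩)]
          linarith
      · rw [ind_not h5]
        linarith
    have h5 : P.Pr (fun w => nr w ∧ ∃ s ≤ σ w, TK P nd al uK s w) ≤ P.Pr (fun w => ∃ s ≤ σ w, TK P nd al uK s w) :=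
      P.E_mono fun w _ => ind_mono fun h => h.2
    have := mul_le_mul_of_nonneg_left h5 y0
    linarith
  have h3 := h1.trans (Finset.sum_le_sum fun i _ => h2 i)
  rw [Finset.sum_add_distrib, Finset.sum_const, Finset.card_univ, nsmul_eq_mul] at h3
  linarith

/-- **what is dropped at `T^K`** (before `T^0`) -/
theorem TK_drop (fnd : Filt nd) (hσ : Stp nd σ) (hT : ∀ w, σ w < T) {a0 : ℕ → Om → Prop}
    (ha : ∀ s x w, nd s x = nd s w → (a0 s x ↔ a0 s w))
    (h0 : ∀ s w, P.p w ≠ 0 → a0 s w → cp P nd s (R s) w ≤ u0) :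
    P.Pr (fun w => ∃ s ≤ σ w, (TK P nd al uK s w ∧ a0 s w) ∧ R s w) ≤
      u0 * P.Pr (fun w => ∃ s ≤ σ w, TK P nd al uK s w ∧ a0 s w) := by
  have h1 := ev_le (P := P) (Y := nd) (nd := nd) (σ := σ) (T := T) (ka := u0) fnd (fun s => Fac.refl (nd s)) hσ hT
    (f := fun s w => TK P nd al uK s w ∧ a0 s w) (fun s x w e => by rw [TK_fac fnd s x w e, ha s x w e])
    (fun w s s' a b => TK_one w s s' a.1 b.1)
    (Q := R) (Bad := fun _ => False) (fun s w hw a _ => by
      rw [ind_not (not_false), add_zero]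
      exact h0 s w hw a.2)
  have z : P.Pr (fun _ : Om => False) = 0 := by
    unfold FP.Pr
    rw [show (fun _ : Om => ind False) = fun _ => (0 : ℝ) from funext fun _ => ind_not not_false]
    exact P.E_const 0
  rwa [z, add_zero] at h1

/-- **selection error at the exact vertex `i`**, one time -/
theorem sel_le (hV : ∀ i s, Fac (V i s) (nd s)) (hci : ∀ i j, i ≠ j → CI P nd (V i) (V j))
    (hal : ∀ i s x w, V i s x = V i s w → (al i s x ↔ al i s w)) {i j : ι} (hij : i ≠ j) {s : ℕ} {f : Om → Prop}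
    (hf : ∀ x w, V i s x = V i s w → (f x ↔ f w)) (hk : ∀ w, P.p w ≠ 0 → f w → ¬ kc P nd al uK s w) :
    P.Pr (fun w => f w ∧ al j s w) ≤ uK * P.Pr f := by
  refine at_le (V := V i) hf fun w hw h => ?_
  rw [ci_cp (hV i) (hci i j hij) (hal j s) hw]
  by_contra hh
  exact hk w hw h ⟨j, (not_le.1 hh).le⟩

/-- **selection error at the exact vertex `i`**, one epoch -/
theorem sel_epoch [DecidableEq ι] (hV : ∀ i s, Fac (V i s) (nd s)) (hci : ∀ i j, i ≠ j → CI P nd (V i) (V j))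
    (hal : ∀ i s x w, V i s x = V i s w → (al i s x ↔ al i s w)) {i : ι} (fV : Filt (V i)) {τ : Om → ℕ}
    (hτ : Stp (V i) τ) (hT : ∀ w, τ w < T) {f : ℕ → Om → Prop} (hf : ∀ s x w, V i s x = V i s w → (f s x ↔ f s w))
    (hf1 : ∀ w s s', f s w → f s' w → s = s') (hk : ∀ s w, P.p w ≠ 0 → f s w → ¬ kc P nd al uK s w) :
    P.Pr (fun w => ∃ s ≤ τ w, f s w ∧ ∃ j ≠ i, al j s w) ≤
      (Fintype.card ι - 1 : ℕ) * uK * P.Pr (fun w => ∃ s ≤ τ w, f s w) := by
  have h1 : P.Pr (fun w => ∃ s ≤ τ w, f s w ∧ ∃ j ≠ i, al j s w) ≤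
      ∑ j ∈ univ.erase i, ∑ s ∈ range T, P.Pr (fun w => (f s w ∧ s ≤ τ w) ∧ al j s w) := by
    unfold FP.Pr
    have e1 : ∀ j, ∑ s ∈ range T, P.E (fun w => ind ((f s w ∧ s ≤ τ w) ∧ al j s w)) =
        P.E (fun w => ∑ s ∈ range T, ind ((f s w ∧ s ≤ τ w) ∧ al j s w)) := fun j => by rw [← FP.E_sum]
    rw [Finset.sum_congr rfl fun j _ => e1 j, ← FP.E_sum]
    refine P.E_mono fun w _ => ?_
    by_cases h : ∃ s ≤ τ w, f s w ∧ ∃ j ≠ i, al j s w
    · obtain ⟨s, hs, hfs, j, hj, ha⟩ := h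
      have g1 := Finset.single_le_sum (f := fun s => ind ((f s w ∧ s ≤ τ w) ∧ al j s w)) (s := range T)
        (fun _ _ => ind_nonneg _) (mem_range.2 (lt_of_le_of_lt hs (hT w)))
      have g2 := Finset.single_le_sum (f := fun j => ∑ s ∈ range T, ind ((f s w ∧ s ≤ τ w) ∧ al j s w))
        (s := univ.erase i) (fun _ _ => Finset.sum_nonneg fun _ _ => ind_nonneg _)
        (Finset.mem_erase.2 ⟨hj, mem_univ j⟩)
      rw [ind_of (show ∃ s ≤ τ w, f s w ∧ ∃ j ≠ i, al j s w from ⟨s, hs, hfs, j, hj, ha⟩)]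
      have g3 : (1 : ℝ) ≤ ind ((f s w ∧ s ≤ τ w) ∧ al j s w) := (ind_of ⟨⟨hfs, hs⟩, ha⟩).ge
      exact g3.trans (g1.trans g2)
    · rw [ind_not h]
      exact Finset.sum_nonneg fun _ _ => Finset.sum_nonneg fun _ _ => ind_nonneg _
  have h2 : ∀ j ∈ univ.erase i, ∑ s ∈ range T, P.Pr (fun w => (f s w ∧ s ≤ τ w) ∧ al j s w) ≤
      uK * P.Pr (fun w => ∃ s ≤ τ w, f s w) := by
    intro j hj
    have e1 : P.Pr (fun w => ∃ s ≤ τ w, f s w) = ∑ s ∈ range T, P.Pr (fun w => f s w ∧ s ≤ τ w) :=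
      (one_cnt hT (f := f) hf1).symm
    rw [e1, Finset.mul_sum]
    refine Finset.sum_le_sum fun s _ => ?_
    exact sel_le hV hci hal (Finset.ne_of_mem_erase hj).symm
      (fun x w e => by rw [hf s x w e, stp_le fV (fun _ => Fac.refl _) hτ e]) (fun w hw h => hk s w hw h.1)
  refine h1.trans ((Finset.sum_le_sum h2).trans (le_of_eq ?_))
  rw [Finset.sum_const, Finset.card_erase_of_mem (mem_univ i), Finset.card_univ, nsmul_eq_mul]
  ring

/-! ### without `T^K` (H3.UNM v1.3) -/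

/-- **the density of the alive vertices in the node**: `Rj` = relation at the exact vertex `j` -/
theorem al_le {j : ι} {s : ℕ} (hVj : Fac (V j s) (nd s)) {Rj : Om → Prop} (hge : ∀ w, P.p w ≠ 0 → al j s w → ux ≤ cp P (V j) s Rj w) (x0 : 0 < ux) (w : Om) :
    cp P nd s (al j s) w ≤ cp P nd s Rj w / ux := by
  rw [le_div_iff₀ x0, mul_comm]
  have e1 : cp P nd s Rj w = P.ce (nd s) (cp P (V j) s Rj) w := (P.ce_tower hVj (fun x => ind (Rj x)) w).symm
  rw [e1]
  unfold cp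
  rw [← P.ce_smul]
  refine P.ce_mono (fun x hx => ?_) w
  by_cases h : al j s x
  · rw [ind_of h, mul_one]
    exact hge x hx h
  · rw [ind_not h, mul_zero]
    exact cp_nonneg s Rj x

/-- selection error at the exact vertex `i`, one time, any bound `q` of the density in the node -/
theorem sel_gen (hV : ∀ i s, Fac (V i s) (nd s)) (hci : ∀ i j, i ≠ j → CI P nd (V i) (V j))
    (hal : ∀ i s x w, V i s x = V i s w → (al i s x ↔ al i s w)) {i j : ι} (hij : i ≠ j) {s : ℕ} {f : Om → Prop}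
    (hf : ∀ x w, V i s x = V i s w → (f x ↔ f w)) {q : ℝ}
    (hq : ∀ w, P.p w ≠ 0 → f w → cp P nd s (al j s) w ≤ q) :
    P.Pr (fun w => f w ∧ al j s w) ≤ q * P.Pr f := by
  refine at_le (V := V i) hf fun w hw h => ?_
  rw [ci_cp (hV i) (hci i j hij) (hal j s) hw]
  exact hq w hw h

/-- selection error at the exact vertex `i`, one epoch, any bound `q` of the densities in the node -/
theorem sel_gen_epoch [DecidableEq ι] (hV : ∀ i s, Fac (V i s) (nd s)) (hci : ∀ i j, i ≠ j → CI P nd (V i) (V j))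
    (hal : ∀ i s x w, V i s x = V i s w → (al i s x ↔ al i s w)) {i : ι} (fV : Filt (V i)) {τ : Om → ℕ}
    (hτ : Stp (V i) τ) (hT : ∀ w, τ w < T) {f : ℕ → Om → Prop} (hf : ∀ s x w, V i s x = V i s w → (f s x ↔ f s w))
    (hf1 : ∀ w s s', f s w → f s' w → s = s') {q : ℝ}
    (hq : ∀ j ≠ i, ∀ s w, P.p w ≠ 0 → f s w → cp P nd s (al j s) w ≤ q) :
    P.Pr (fun w => ∃ s ≤ τ w, f s w ∧ ∃ j ≠ i, al j s w) ≤
      (Fintype.card ι - 1 : ℕ) * q * P.Pr (fun w => ∃ s ≤ τ w, f s w) := by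
  have h1 : P.Pr (fun w => ∃ s ≤ τ w, f s w ∧ ∃ j ≠ i, al j s w) ≤
      ∑ j ∈ univ.erase i, ∑ s ∈ range T, P.Pr (fun w => (f s w ∧ s ≤ τ w) ∧ al j s w) := by
    unfold FP.Pr
    have e1 : ∀ j, ∑ s ∈ range T, P.E (fun w => ind ((f s w ∧ s ≤ τ w) ∧ al j s w)) =
        P.E (fun w => ∑ s ∈ range T, ind ((f s w ∧ s ≤ τ w) ∧ al j s w)) := fun j => by rw [← FP.E_sum]
    rw [Finset.sum_congr rfl fun j _ => e1 j, ← FP.E_sum]
    refine P.E_mono fun w _ => ?_
    by_cases h : ∃ s ≤ τ w, f s w ∧ ∃ j ≠ i, al j s w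
    · obtain ⟨s, hs, hfs, j, hj, ha⟩ := h
      have g1 := Finset.single_le_sum (f := fun s => ind ((f s w ∧ s ≤ τ w) ∧ al j s w)) (s := range T)
        (fun _ _ => ind_nonneg _) (mem_range.2 (lt_of_le_of_lt hs (hT w)))
      have g2 := Finset.single_le_sum (f := fun j => ∑ s ∈ range T, ind ((f s w ∧ s ≤ τ w) ∧ al j s w))
        (s := univ.erase i) (fun _ _ => Finset.sum_nonneg fun _ _ => ind_nonneg _)
        (Finset.mem_erase.2 ⟨hj, mem_univ j⟩)
      rw [ind_of (show ∃ s ≤ τ w, f s w ∧ ∃ j ≠ i, al j s w from ⟨s, hs, hfs, j, hj, ha⟩)]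
      have g3 : (1 : ℝ) ≤ ind ((f s w ∧ s ≤ τ w) ∧ al j s w) := (ind_of ⟨⟨hfs, hs⟩, ha⟩).ge
      exact g3.trans (g1.trans g2)
    · rw [ind_not h]
      exact Finset.sum_nonneg fun _ _ => Finset.sum_nonneg fun _ _ => ind_nonneg _
  have h2 : ∀ j ∈ univ.erase i, ∑ s ∈ range T, P.Pr (fun w => (f s w ∧ s ≤ τ w) ∧ al j s w) ≤
      q * P.Pr (fun w => ∃ s ≤ τ w, f s w) := by
    intro j hj
    have e1 : P.Pr (fun w => ∃ s ≤ τ w, f s w) = ∑ s ∈ range T, P.Pr (fun w => f s w ∧ s ≤ τ w) :=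
      (one_cnt hT (f := f) hf1).symm
    rw [e1, Finset.mul_sum]
    refine Finset.sum_le_sum fun s _ => ?_
    exact sel_gen hV hci hal (Finset.ne_of_mem_erase hj).symm
      (fun x w e => by rw [hf s x w e, stp_le fV (fun _ => Fac.refl _) hτ e])
      (fun w hw h => hq j (Finset.ne_of_mem_erase hj) s w hw h.1)
  refine h1.trans ((Finset.sum_le_sum h2).trans (le_of_eq ?_))
  rw [Finset.sum_const, Finset.card_erase_of_mem (mem_univ i), Finset.card_univ, nsmul_eq_mul]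
  ring

/-- **selection error at the exact vertex `i` before `T^0`**, one time -/
theorem sel0 (hV : ∀ i s, Fac (V i s) (nd s)) (hci : ∀ i j, i ≠ j → CI P nd (V i) (V j))
    (hal : ∀ i s x w, V i s x = V i s w → (al i s x ↔ al i s w)) {i j : ι} (hij : i ≠ j) {s : ℕ} {f : Om → Prop}
    (hf : ∀ x w, V i s x = V i s w → (f x ↔ f w)) {Rj : Om → Prop}
    (hge : ∀ w, P.p w ≠ 0 → al j s w → ux ≤ cp P (V j) s Rj w) (x0 : 0 < ux)
    (h0 : ∀ w, P.p w ≠ 0 → f w → cp P nd s Rj w ≤ u0) :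
    P.Pr (fun w => f w ∧ al j s w) ≤ u0 / ux * P.Pr f :=
  sel_gen hV hci hal hij hf fun w hw h =>
    (al_le (hV j s) hge x0 w).trans ((div_le_div_iff_of_pos_right x0).2 (h0 w hw h))

/-- **selection error at the exact vertex `i` before `T^0`**, one epoch; `Rj j s` = relation at the exact vertex `j` -/
theorem sel0_epoch [DecidableEq ι] (hV : ∀ i s, Fac (V i s) (nd s)) (hci : ∀ i j, i ≠ j → CI P nd (V i) (V j))
    (hal : ∀ i s x w, V i s x = V i s w → (al i s x ↔ al i s w)) {i : ι} (fV : Filt (V i)) {τ : Om → ℕ}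
    (hτ : Stp (V i) τ) (hT : ∀ w, τ w < T) {f : ℕ → Om → Prop} (hf : ∀ s x w, V i s x = V i s w → (f s x ↔ f s w))
    (hf1 : ∀ w s s', f s w → f s' w → s = s') {Rj : ι → ℕ → Om → Prop}
    (hge : ∀ j s w, P.p w ≠ 0 → al j s w → ux ≤ cp P (V j) s (Rj j s) w) (x0 : 0 < ux)
    (h0 : ∀ j ≠ i, ∀ s w, P.p w ≠ 0 → f s w → cp P nd s (Rj j s) w ≤ u0) :
    P.Pr (fun w => ∃ s ≤ τ w, f s w ∧ ∃ j ≠ i, al j s w) ≤
      (Fintype.card ι - 1 : ℕ) * (u0 / ux) * P.Pr (fun w => ∃ s ≤ τ w, f s w) :=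
  sel_gen_epoch hV hci hal fV hτ hT hf hf1 fun j hj s w hw h =>
    (al_le (hV j s) (hge j s) x0 w).trans ((div_le_div_iff_of_pos_right x0).2 (h0 j hj s w hw h))

end crowd

/-! ## priority by time -/

section prio

variable {ι : Type*} [Fintype ι] {D : ι → ℕ → Om → Prop} {H K : ℕ → Om → Prop} {σ : Om → ℕ}

variable (D H K σ) in
/-- nothing happens by the time `σ` -/
def Bf (w : Om) : Prop := (∀ i, ¬ D i (σ w) w) ∧ ¬ H (σ w) w ∧ ¬ K (σ w) w

variable (D H K σ) in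
/-- `T^0 = s ≤ σ`, `T^0 ≤ T^K`, no vertex is decided before -/
def C0 (s : ℕ) (w : Om) : Prop := s ≤ σ w ∧ fst H s w ∧ (∀ s' < s, ¬ K s' w) ∧ ∀ i, ∀ s' < s, ¬ D i s' w

variable (D H K σ) in
/-- `T^K = s ≤ σ`, `T^K < T^0`, no vertex is decided before -/
def Dk (s : ℕ) (w : Om) : Prop := s ≤ σ w ∧ fst K s w ∧ ¬ H s w ∧ ∀ i, ∀ s' < s, ¬ D i s' w

variable (D H K σ) in
/-- the vertex `i` is decided at `s ≤ σ`, before `T^0` and `T^K`; no priority between the vertices -/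
def Ei (i : ι) (s : ℕ) (w : Om) : Prop := s ≤ σ w ∧ fst (D i) s w ∧ ¬ H s w ∧ ¬ K s w

variable (D H K σ) in
/-- the error: another vertex is decided -/
def Ex (i : ι) (s : ℕ) (w : Om) : Prop := Ei D H K σ i s w ∧ ∃ j ≠ i, D j s w

theorem C0_one (w : Om) (s s' : ℕ) (a : C0 D H K σ s w) (b : C0 D H K σ s' w) : s = s' := fst_one s s' a.2.1 b.2.1
theorem Dk_one (w : Om) (s s' : ℕ) (a : Dk D H K σ s w) (b : Dk D H K σ s' w) : s = s' := fst_one s s' a.2.1 b.2.1
theorem Ei_one (i : ι) (w : Om) (s s' : ℕ) (a : Ei D H K σ i s w) (b : Ei D H K σ i s' w) : s = s' :=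
  fst_one s s' a.2.1 b.2.1

/-- **THE PARTITION** : the events are monotone up to `σ` at the point `w` -/
theorem part {w : Om} (mD : ∀ i s s', s ≤ s' → s' ≤ σ w → D i s w → D i s' w)
    (mH : ∀ s s', s ≤ s' → s' ≤ σ w → H s w → H s' w) (mK : ∀ s s', s ≤ s' → s' ≤ σ w → K s w → K s' w) :
    1 ≤ ind (Bf D H K σ w) + ind (∃ s, C0 D H K σ s w) + ind (∃ s, Dk D H K σ s w) + ∑ i, ind (∃ s, Ei D H K σ i s w) ∧
    ind (Bf D H K σ w) + ind (∃ s, C0 D H K σ s w) + ind (∃ s, Dk D H K σ s w) + ∑ i, ind (∃ s, Ei D H K σ i s w) ≤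
      1 + ∑ i, ind (∃ s, Ex D H K σ i s w) := by
  classical
  have sE : 0 ≤ ∑ i, ind (∃ s, Ei D H K σ i s w) := Finset.sum_nonneg fun _ _ => ind_nonneg _
  have sX : 0 ≤ ∑ i, ind (∃ s, Ex D H K σ i s w) := Finset.sum_nonneg fun _ _ => ind_nonneg _
  by_cases hex : ∃ s, s ≤ σ w ∧ (H s w ∨ K s w ∨ ∃ i, D i s w)
  · -- the first time
    set s0 := Nat.find hex with hs0
    obtain ⟨h1, h2⟩ := Nat.find_spec hex
    have hmin : ∀ s < s0, ¬ (s ≤ σ w ∧ (H s w ∨ K s w ∨ ∃ i, D i s w)) := fun s hs => Nat.find_min hex hs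
    have hl : ∀ s < s0, s ≤ σ w := fun s hs => hs.le.trans h1
    have nH : ∀ s < s0, ¬ H s w := fun s hs h => hmin s hs ⟨hl s hs, Or.inl h⟩
    have nK : ∀ s < s0, ¬ K s w := fun s hs h => hmin s hs ⟨hl s hs, Or.inr (Or.inl h)⟩
    have nD : ∀ i, ∀ s < s0, ¬ D i s w := fun i s hs h => hmin s hs ⟨hl s hs, Or.inr (Or.inr ⟨i, h⟩)⟩
    have b0 : ¬ Bf D H K σ w := by
      rintro ⟨a, b, c⟩
      rcases h2 with h | h | ⟨i, h⟩
      · exact b (mH s0 _ h1 le_rfl h)
      · exact c (mK s0 _ h1 le_rfl h)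
      · exact a i (mD i s0 _ h1 le_rfl h)
    rw [ind_not b0, zero_add]
    by_cases hH : H s0 w
    · -- `T^0` first
      have c1 : ∃ s, C0 D H K σ s w := ⟨s0, h1, ⟨hH, nH⟩, nK, nD⟩
      have c2 : ¬ ∃ s, Dk D H K σ s w := by
        rintro ⟨s, a, b, c, _⟩
        rcases lt_or_ge s s0 with h | h
        · exact nK s h b.1
        · exact c (mH s0 s h a hH)
      have c3 : ∀ i, ¬ ∃ s, Ei D H K σ i s w := by
        rintro i ⟨s, a, b, c, _⟩
        rcases lt_or_ge s s0 with h | h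
        · exact nD i s h b.1
        · exact c (mH s0 s h a hH)
      rw [ind_of c1, ind_not c2, Finset.sum_eq_zero fun i _ => ind_not (c3 i)]
      constructor <;> linarith
    · have nH' : ∀ s ≤ s0, ¬ H s w := fun s hs => by
        rcases hs.eq_or_lt with rfl | h
        · exact hH
        · exact nH s h
      by_cases hK : K s0 w
      · -- `T^K` first
        have c1 : ¬ ∃ s, C0 D H K σ s w := by
          rintro ⟨s, a, b, c, _⟩
          rcases le_or_gt s s0 with h | h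
          · exact nH' s h b.1
          · exact c s0 h hK
        have c2 : ∃ s, Dk D H K σ s w := ⟨s0, h1, ⟨hK, nK⟩, hH, nD⟩
        have c3 : ∀ i, ¬ ∃ s, Ei D H K σ i s w := by
          rintro i ⟨s, a, b, _, c⟩
          rcases lt_or_ge s s0 with h | h
          · exact nD i s h b.1
          · exact c (mK s0 s h a hK)
        rw [ind_not c1, ind_of c2, Finset.sum_eq_zero fun i _ => ind_not (c3 i)]
        constructor <;> linarith
      · -- a vertex first
        obtain ⟨i0, hi0⟩ : ∃ i, D i s0 w := by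
          rcases h2 with h | h | h
          · exact absurd h hH
          · exact absurd h hK
          · exact h
        have c1 : ¬ ∃ s, C0 D H K σ s w := by
          rintro ⟨s, a, b, _, c⟩
          rcases le_or_gt s s0 with h | h
          · exact nH' s h b.1
          · exact c i0 s0 h hi0
        have c2 : ¬ ∃ s, Dk D H K σ s w := by
          rintro ⟨s, a, b, _, c⟩
          rcases lt_trichotomy s s0 with h | h | h
          · exact nK s h b.1
          · exact hK (h ▸ b.1)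
          · exact c i0 s0 h hi0
        have c3 : ∃ s, Ei D H K σ i0 s w := ⟨s0, h1, ⟨hi0, nD i0⟩, hH, hK⟩
        rw [ind_not c1, ind_not c2, zero_add, zero_add]
        have g1 : ∑ i, ind (∃ s, Ei D H K σ i s w) =
            ind (∃ s, Ei D H K σ i0 s w) + ∑ i ∈ univ.erase i0, ind (∃ s, Ei D H K σ i s w) :=
          (Finset.add_sum_erase univ (fun i => ind (∃ s, Ei D H K σ i s w)) (mem_univ i0)).symm
        have g2 : ∑ i ∈ univ.erase i0, ind (∃ s, Ei D H K σ i s w) ≤ ∑ i, ind (∃ s, Ex D H K σ i s w) := by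
          refine (Finset.sum_le_sum fun i hi => ?_).trans
            (Finset.sum_le_sum_of_subset_of_nonneg (Finset.erase_subset i0 univ) fun _ _ _ => ind_nonneg _)
          refine ind_mono ?_
          rintro ⟨s, h⟩
          refine ⟨s, h, i0, (Finset.ne_of_mem_erase hi).symm, ?_⟩
          rcases lt_or_ge s s0 with h3 | h3
          · exact absurd h.2.1.1 (nD i s h3)
          · exact mD i0 s0 s h3 h.1 hi0
        have g3 : 0 ≤ ∑ i ∈ univ.erase i0, ind (∃ s, Ei D H K σ i s w) := Finset.sum_nonneg fun _ _ => ind_nonneg _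
        rw [g1, ind_of c3]
        constructor <;> linarith
  · -- nothing
    have n0 : ∀ s, s ≤ σ w → ¬ H s w ∧ ¬ K s w ∧ ∀ i, ¬ D i s w := fun s hs =>
      ⟨fun h => hex ⟨s, hs, Or.inl h⟩, fun h => hex ⟨s, hs, Or.inr (Or.inl h)⟩,
        fun i h => hex ⟨s, hs, Or.inr (Or.inr ⟨i, h⟩)⟩⟩
    have b0 : Bf D H K σ w := ⟨(n0 _ le_rfl).2.2, (n0 _ le_rfl).1, (n0 _ le_rfl).2.1⟩
    have c1 : ¬ ∃ s, C0 D H K σ s w := fun ⟨s, a, b, _⟩ => (n0 s a).1 b.1
    have c2 : ¬ ∃ s, Dk D H K σ s w := fun ⟨s, a, b, _⟩ => (n0 s a).2.1 b.1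
    have c3 : ∀ i, ¬ ∃ s, Ei D H K σ i s w := fun i ⟨s, a, b, _⟩ => (n0 s a).2.2 i b.1
    rw [ind_of b0, ind_not c1, ind_not c2, Finset.sum_eq_zero fun i _ => ind_not (c3 i)]
    constructor <;> linarith

/-- **the signed sum** -/
theorem split_signed {G : Om → Prop} (mD : ∀ w, G w → ∀ i s s', s ≤ s' → s' ≤ σ w → D i s w → D i s' w)
    (mH : ∀ w, G w → ∀ s s', s ≤ s' → s' ≤ σ w → H s w → H s' w)
    (mK : ∀ w, G w → ∀ s s', s ≤ s' → s' ≤ σ w → K s w → K s' w) {ψ : Om → ℝ} {L : ℝ} (hL : ∀ w, G w → -L ≤ ψ w)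
    (L0 : 0 ≤ L) :
    P.E (fun w => ind (G w) * ψ w) ≤
      P.E (fun w => ind (G w ∧ Bf D H K σ w) * ψ w) + P.E (fun w => ind (G w ∧ ∃ s, C0 D H K σ s w) * ψ w) +
        P.E (fun w => ind (G w ∧ ∃ s, Dk D H K σ s w) * ψ w) +
        ∑ i, P.E (fun w => ind (G w ∧ ∃ s, Ei D H K σ i s w) * ψ w) +
        L * ∑ i, P.Pr (fun w => G w ∧ ∃ s, Ex D H K σ i s w) := by
  unfold FP.Pr
  rw [← FP.E_sum, ← FP.E_sum, ← FP.E_smul, ← FP.E_add, ← FP.E_add, ← FP.E_add, ← FP.E_add]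
  refine P.E_mono fun w _ => ?_
  by_cases hG : G w
  · have e1 : ∀ Q : Prop, ind (G w ∧ Q) = ind Q := fun Q => by rw [ind_and, ind_of hG, one_mul]
    simp only [e1]
    rw [ind_of hG, one_mul]
    obtain ⟨p1, p2⟩ := part (D := D) (H := H) (K := K) (σ := σ) (mD w hG) (mH w hG) (mK w hG)
    set S := ind (Bf D H K σ w) + ind (∃ s, C0 D H K σ s w) + ind (∃ s, Dk D H K σ s w) +
      ∑ i, ind (∃ s, Ei D H K σ i s w) with hS
    set X := ∑ i, ind (∃ s, Ex D H K σ i s w) with hX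
    have e2 : ind (Bf D H K σ w) * ψ w + ind (∃ s, C0 D H K σ s w) * ψ w + ind (∃ s, Dk D H K σ s w) * ψ w +
        ∑ i, ind (∃ s, Ei D H K σ i s w) * ψ w + L * X = S * ψ w + L * X := by
      rw [hS, ← Finset.sum_mul]
      ring
    have h1 := hL w hG
    show ψ w ≤ ind (Bf D H K σ w) * ψ w + ind (∃ s, C0 D H K σ s w) * ψ w + ind (∃ s, Dk D H K σ s w) * ψ w +
        ∑ i, ind (∃ s, Ei D H K σ i s w) * ψ w + L * X
    rw [e2]
    nlinarith [mul_nonneg (show 0 ≤ S - 1 by linarith) (show 0 ≤ ψ w + L by linarith),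
      mul_nonneg L0 (show 0 ≤ X - (S - 1) by linarith)]
  · rw [ind_not hG, zero_mul]
    have e1 : ∀ Q : Prop, ind (G w ∧ Q) = 0 := fun Q => ind_not fun h => hG h.1
    simp only [e1]
    simp

/-- the other direction -/
theorem split_signed' {G : Om → Prop} (mD : ∀ w, G w → ∀ i s s', s ≤ s' → s' ≤ σ w → D i s w → D i s' w)
    (mH : ∀ w, G w → ∀ s s', s ≤ s' → s' ≤ σ w → H s w → H s' w)
    (mK : ∀ w, G w → ∀ s s', s ≤ s' → s' ≤ σ w → K s w → K s' w) {ψ : Om → ℝ} {L : ℝ} (hL : ∀ w, G w → ψ w ≤ L)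
    (L0 : 0 ≤ L) :
    P.E (fun w => ind (G w ∧ Bf D H K σ w) * ψ w) + P.E (fun w => ind (G w ∧ ∃ s, C0 D H K σ s w) * ψ w) +
        P.E (fun w => ind (G w ∧ ∃ s, Dk D H K σ s w) * ψ w) +
        ∑ i, P.E (fun w => ind (G w ∧ ∃ s, Ei D H K σ i s w) * ψ w) ≤
      P.E (fun w => ind (G w) * ψ w) + L * ∑ i, P.Pr (fun w => G w ∧ ∃ s, Ex D H K σ i s w) := by
  have h := split_signed (P := P) (G := G) (ψ := fun w => - ψ w) mD mH mK (L := L)
    (fun w hw => neg_le_neg (hL w hw)) L0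
  have e : ∀ Q : Om → Prop, P.E (fun w => ind (Q w) * - ψ w) = - P.E (fun w => ind (Q w) * ψ w) := fun Q => by
    have : (fun w => ind (Q w) * - ψ w) = fun w => (-1) * (ind (Q w) * ψ w) := funext fun w => by ring
    rw [this, FP.E_smul]
    ring
  rw [e, e, e, e, Finset.sum_congr rfl fun i _ => e _, Finset.sum_neg_distrib] at h
  linarith

/-- the error: decided = alive or dropped -/
theorem ex_le {G : Om → Prop} {al dd : ι → ℕ → Om → Prop} (hc : ∀ j s w, G w → s ≤ σ w → D j s w → al j s w ∨ dd j s w)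
    (i : ι) :
    P.Pr (fun w => G w ∧ ∃ s, Ex D H K σ i s w) ≤
      P.Pr (fun w => ∃ s ≤ σ w, (fst (D i) s w ∧ ¬ H s w ∧ ¬ K s w) ∧ ∃ j ≠ i, al j s w) +
        ∑ j, P.Pr (fun w => G w ∧ ∃ s ≤ σ w, dd j s w) := by
  classical
  unfold FP.Pr
  rw [← FP.E_sum, ← FP.E_add]
  refine P.E_mono fun w _ => ?_
  have a0 : 0 ≤ ∑ j, ind (G w ∧ ∃ s ≤ σ w, dd j s w) := Finset.sum_nonneg fun _ _ => ind_nonneg _
  have a1 := ind_nonneg (∃ s ≤ σ w, (fst (D i) s w ∧ ¬ H s w ∧ ¬ K s w) ∧ ∃ j ≠ i, al j s w)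
  by_cases h : G w ∧ ∃ s, Ex D H K σ i s w
  · obtain ⟨hG, s, ⟨h1, h2, h3, h4⟩, j, hj, hD⟩ := h
    have b0 : ind (G w ∧ ∃ s, Ex D H K σ i s w) ≤ 1 := ind_le_one _
    rcases hc j s w hG h1 hD with h5 | h5
    · rw [ind_of (show ∃ s ≤ σ w, (fst (D i) s w ∧ ¬ H s w ∧ ¬ K s w) ∧ ∃ j ≠ i, al j s w from
        ⟨s, h1, ⟨h2, h3, h4⟩, j, hj, h5⟩)]
      linarith
    · have g := Finset.single_le_sum (f := fun j => ind (G w ∧ ∃ s ≤ σ w, dd j s w)) (s := univ)
        (fun _ _ => ind_nonneg _) (mem_univ j)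
      simp only [ind_of (show G w ∧ ∃ s ≤ σ w, dd j s w from ⟨hG, s, h1, h5⟩)] at g
      linarith
  · rw [ind_not h]
    linarith

end prio

end

end Pool.Agent.GMH.Uv
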