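import Pool.Agent.GMH.Unm
import Pool.Agent.GMH.Uv

/-!
# GMH/UnmP (helper99): THE LOST LIVES AND THE LOST ZONES (H3.UNM, U.2, U.3, U.5; inputs (I3), (I4) of GMH/Unm)

`NT v T` = expected number of decisions `T^v`, `Nz T` = expected number of `T^0`.
* `Pr_inj` : counting one event per life; `dens_le` : an event of small density, outside the rare nodes;
* `drop_le` : the tuples over a decided vertex whose density was below `ux` once: `ux NT v'`;
* `alive_le` : at the exact `v`, the partners `v'` of density at least `ux` whose life is a life of the public start;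
* `prt_le` : **the partners** : `ux NT v' + (u0/ux) NT v + (y0/ux) (a-free public starts in decided lives) + rare`;
* `lost_le` : all lost lives; `lost0_le` : all lost zones; `fin_v`, `fin_0` : the final time;
* `cnt_v`, `cnt_0` : the number of decisions and the number of zones from the measures at the removals.
-/

set_option autoImplicit false
set_option linter.unusedSectionVars false

namespace Pool.Agent.GMH.UV

open Finset Pool.Agent.PWZ Pool.Agent.M3 Pool.Agent.GMH.TD Pool.Agent.GMH.CK Pool.Agent.GMH.MV Pool.Agent.GMH.UnmL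
open Pool.Agent.GMH.Gdy (ce_congr_on)

noncomputable section

/-! ## counting -/

theorem sum_card (T : ℕ) (L : ℕ → Prop) [DecidablePred L] : ∑ q ∈ range T, ind (L q) = (((range T).filter L).card : ℝ) := by
  rw [Finset.card_filter]
  push_cast
  refine Finset.sum_congr rfl fun q _ => ?_
  by_cases h : L q
  · rw [ind_of h, if_pos h]
  · rw [ind_not h, if_neg h]

/-- one event per life -/
theorem sum_inj {T T' : ℕ} {L F : ℕ → Prop} {l : ℕ → ℕ} (h : ∀ q < T, L q → ∃ s < T', F s ∧ l s = l q)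
    (h1 : ∀ q < T, ∀ q' < T, L q → L q' → l q = l q' → q = q') :
    ∑ q ∈ range T, ind (L q) ≤ ∑ s ∈ range T', ind (F s) := by
  classical
  rw [sum_card, sum_card]
  have h2 : ∀ q, ∃ s, (q < T ∧ L q) → (s < T' ∧ F s ∧ l s = l q) := fun q => by
    by_cases hq : q < T ∧ L q
    · obtain ⟨s, a, b, c⟩ := h q hq.1 hq.2
      exact ⟨s, fun _ => ⟨a, b, c⟩⟩
    · exact ⟨0, fun h' => absurd h' hq⟩
  choose f hf using h2
  have h3 : ((range T).filter L).card ≤ ((range T').filter F).card := by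
    refine Finset.card_le_card_of_injOn f (fun q hq => ?_) (fun q hq q' hq' e => ?_)
    · rw [Finset.mem_coe, mem_filter, mem_range] at hq
      obtain ⟨a, b, _⟩ := hf q hq
      rw [Finset.mem_coe, mem_filter, mem_range]
      exact ⟨a, b⟩
    · rw [Finset.mem_coe, mem_filter, mem_range] at hq hq'
      obtain ⟨_, _, c⟩ := hf q hq
      obtain ⟨_, _, c'⟩ := hf q' hq'
      exact h1 q hq.1 q' hq'.1 hq.2 hq'.2 (by rw [← c, ← c', e])
  exact_mod_cast h3

variable {Om : Type} [Fintype Om]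

theorem Pr_inj {P : FP Om} {T T' : ℕ} {L F : ℕ → Om → Prop} {l : ℕ → Om → ℕ}
    (h : ∀ w, P.p w ≠ 0 → ∀ q < T, L q w → ∃ s < T', F s w ∧ l s w = l q w)
    (h1 : ∀ w, P.p w ≠ 0 → ∀ q < T, ∀ q' < T, L q w → L q' w → l q w = l q' w → q = q') :
    ∑ q ∈ range T, P.Pr (L q) ≤ ∑ s ∈ range T', P.Pr (F s) := by
  unfold FP.Pr
  rw [← FP.E_sum, ← FP.E_sum]
  exact P.E_mono fun w hw => sum_inj (l := fun s => l s w) (h w hw) (h1 w hw)

/-- two ends of the same life are equal -/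
theorem end_one {C : ℕ → ℕ → Om → Prop} {w : Om} {q q' : ℕ} (h : stg C (q + 1) w = q + 1)
    (h' : stg C (q' + 1) w = q' + 1) (e : stg C q w = stg C q' w) : q = q' := by
  by_contra hne
  rcases Nat.lt_or_gt_of_ne hne with h1 | h1
  · have h3 := stg_mono (C := C) (show q + 1 ≤ q' by omega) w
    have h4 := stg_le (C := C) q w
    omega
  · have h3 := stg_mono (C := C) (show q' + 1 ≤ q by omega) w
    have h4 := stg_le (C := C) q' w
    omega

/-- **small density outside the rare nodes** -/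
theorem dens_le {P : FP Om} {κ : Type*} {Z : Om → κ} {f : Om → Prop} (hf : ∀ x w, Z x = Z w → (f x ↔ f w)) (A : Om → Prop)
    {y : ℝ} (y0 : 0 ≤ y) :
    P.Pr (fun w => f w ∧ A w) ≤ y * P.Pr f + P.Pr (fun w => f w ∧ y < P.ce Z (fun u => ind (A u)) w) := by
  have e1 : P.Pr (fun w => f w ∧ A w) = P.E (fun w => ind (f w) * P.ce Z (fun u => ind (A u)) w) := by
    rw [P.E_mul_ce (Fac.ind fun x w e => hf x w e)]
    exact P.E_congr fun w _ => ind_and _ _
  rw [e1]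
  unfold FP.Pr
  rw [← FP.E_smul, ← FP.E_add]
  refine P.E_mono fun w hw => ?_
  have c0 : 0 ≤ P.ce Z (fun u => ind (A u)) w := P.ce_nonneg (fun _ _ => ind_nonneg _) w
  have c1 : P.ce Z (fun u => ind (A u)) w ≤ 1 := P.ce_le_const (fun _ _ => ind_le_one _) hw
  by_cases h : f w
  · by_cases h2 : y < P.ce Z (fun u => ind (A u)) w
    · rw [ind_of h, ind_of (show f w ∧ y < P.ce Z (fun u => ind (A u)) w from ⟨h, h2⟩), one_mul, mul_one]
      linarith
    · rw [ind_of h, ind_not (fun h' : f w ∧ y < P.ce Z (fun u => ind (A u)) w => h2 h'.2), one_mul, mul_one, add_zero]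
      exact not_lt.1 h2
  · rw [ind_not h, ind_not (fun h' : f w ∧ y < P.ce Z (fun u => ind (A u)) w => h h'.1), zero_mul, mul_zero, add_zero]

/-- small density -/
theorem dens_lt {P : FP Om} {κ : Type*} {Z : Om → κ} {f : Om → Prop} (hf : ∀ x w, Z x = Z w → (f x ↔ f w)) (A : Om → Prop)
    {y : ℝ} (hy : ∀ w, P.p w ≠ 0 → f w → P.ce Z (fun u => ind (A u)) w ≤ y) :
    P.Pr (fun w => f w ∧ A w) ≤ y * P.Pr f := by
  have e1 : P.Pr (fun w => f w ∧ A w) = P.E (fun w => ind (f w) * P.ce Z (fun u => ind (A u)) w) := by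
    rw [P.E_mul_ce (Fac.ind fun x w e => hf x w e)]
    exact P.E_congr fun w _ => ind_and _ _
  rw [e1]
  unfold FP.Pr
  rw [← FP.E_smul]
  refine P.E_mono fun w hw => ?_
  by_cases h : f w
  · rw [ind_of h, one_mul, mul_one]
    exact hy w hw h
  · rw [ind_not h, zero_mul, mul_zero]

/-- large density -/
theorem dens_ge {P : FP Om} {κ : Type*} {Z : Om → κ} {f : Om → Prop} (hf : ∀ x w, Z x = Z w → (f x ↔ f w)) (A : Om → Prop)
    {y : ℝ} (hy : ∀ w, P.p w ≠ 0 → f w → y ≤ P.ce Z (fun u => ind (A u)) w) :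
    y * P.Pr f ≤ P.Pr (fun w => f w ∧ A w) := by
  have e1 : P.Pr (fun w => f w ∧ A w) = P.E (fun w => ind (f w) * P.ce Z (fun u => ind (A u)) w) := by
    rw [P.E_mul_ce (Fac.ind fun x w e => hf x w e)]
    exact P.E_congr fun w _ => ind_and _ _
  rw [e1]
  unfold FP.Pr
  rw [← FP.E_smul]
  refine P.E_mono fun w hw => ?_
  by_cases h : f w
  · rw [ind_of h, one_mul, mul_one]
    exact hy w hw h
  · rw [ind_not h, zero_mul, mul_zero]

/-! ## densities -/

variable (M : US Om) (Q : Kd Om)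

/-- expected number of decisions of the vertex `v` -/
def NT (v : Fin 3) (T : ℕ) : ℝ := ∑ s ∈ range T, M.P.Pr (tkx M Q v s)

/-- expected number of zones -/
def Nz (T : ℕ) : ℝ := ∑ s ∈ range T, M.P.Pr (zt M Q s)

/-- static density in the node -/
def Dn (v : Option (Fin 3)) (s : ℕ) (w : Om) : ℝ :=
  M.P.ce (M.S ∅ s) (fun u => ind (Rn M Q v (nu M.toMS s u) u)) w

/-- dropped: decided, of density below `ux` -/
def dx (ux : ℝ) (v : Fin 3) (s : ℕ) (w : Om) : Prop := bet M Q v s w ∧ Mg M Q v s w < ux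

/-- the first time -/
def fdx (ux : ℝ) (v : Fin 3) (s : ℕ) (w : Om) : Prop :=
  dx M Q ux v s w ∧ ∀ s', tv M v s w ≤ s' → s' < s → ¬ dx M Q ux v s' w

/-- alive, the life is a life of the public start -/
def al (ux : ℝ) (v : Fin 3) (s : ℕ) (w : Om) : Prop := tv M v s w ≤ nu M.toMS s w ∧ ux ≤ Mg M Q v s w

variable {M Q}

theorem NT_nonneg (v : Fin 3) (T : ℕ) : 0 ≤ NT M Q v T := Finset.sum_nonneg fun _ _ => M.P.Pr_nonneg _

theorem Nz_nonneg (T : ℕ) : 0 ≤ Nz M Q T := Finset.sum_nonneg fun _ _ => M.P.Pr_nonneg _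

theorem Mx_eq (H : Seen M) (v : Fin 3) (s : ℕ) (w : Om) :
    Mx M Q v s w = M.P.ce (M.S {v} s) (fun u => ind (Q.kv (some v) (tv M v s u) u)) w := by
  unfold Mx
  exact ce_congr_on fun u _ e => by rw [tau_S H v le_rfl u w e]

theorem M0_eq (H : Seen M) (s : ℕ) (w : Om) : M0 M Q s w = ∑ v : Option (Fin 3), Dn M Q v s w := by
  unfold M0 Dn
  refine Finset.sum_congr rfl fun v _ => ce_congr_on fun u _ e => ?_
  rw [nu_S H le_rfl u w e]

theorem Dn_nonneg (v : Option (Fin 3)) (s : ℕ) (w : Om) : 0 ≤ Dn M Q v s w := M.P.ce_nonneg (fun _ _ => ind_nonneg _) w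

theorem Dn_le (H : Seen M) (v : Option (Fin 3)) (s : ℕ) (w : Om) : Dn M Q v s w ≤ M0 M Q s w := by
  rw [M0_eq H]
  exact Finset.single_le_sum (f := fun v => Dn M Q v s w) (fun v _ => Dn_nonneg v s w) (mem_univ v)

theorem Dn_S (v : Option (Fin 3)) (s : ℕ) : Fac (M.S ∅ s) (Dn M Q v s) := M.P.ce_fac (M.S ∅ s) _

theorem dx_S (H : Seen M) {ux : ℝ} (v : Fin 3) {s s' : ℕ} (h : s ≤ s') {a b : Om} (e : M.S {v} s' a = M.S {v} s' b) :
    dx M Q ux v s a ↔ dx M Q ux v s b := by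
  unfold dx
  rw [bet_S H v h e, Mg_S v h a b e]

theorem fdx_S (H : Seen M) {ux : ℝ} (v : Fin 3) {s s' : ℕ} (h : s ≤ s') {a b : Om} (e : M.S {v} s' a = M.S {v} s' b) :
    fdx M Q ux v s a ↔ fdx M Q ux v s b := by
  unfold fdx
  rw [tau_S H v h a b e, dx_S H v h e]
  exact and_congr_right fun _ => forall_congr' fun r => forall_congr' fun _ => forall_congr' fun hr =>
    not_congr (dx_S H v (hr.le.trans h) e)

theorem al_S (H : Seen M) {ux : ℝ} (v : Fin 3) {s s' : ℕ} (h : s ≤ s') {a b : Om} (e : M.S {v} s' a = M.S {v} s' b) :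
    al M Q ux v s a ↔ al M Q ux v s b := by
  unfold al
  rw [tau_S H v h a b e, Mg_S v h a b e, nu_S H h a b e]

theorem fdx_ex {ux : ℝ} {v : Fin 3} {q r : ℕ} {w : Om} (h1 : tv M v q w ≤ r) (h2 : r ≤ q) (h3 : dx M Q ux v r w) :
    ∃ s, s ≤ r ∧ fdx M Q ux v s w ∧ tv M v s w = tv M v q w := by
  classical
  have hex : ∃ s, tv M v q w ≤ s ∧ dx M Q ux v s w := ⟨r, h1, h3⟩
  have h4 : Nat.find hex ≤ r := Nat.find_min' hex ⟨h1, h3⟩
  have h7 : tv M v (Nat.find hex) w = tv M v q w := stg_mid rfl (Nat.find_spec hex).1 (h4.trans h2)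
  refine ⟨Nat.find hex, h4, ⟨(Nat.find_spec hex).2, ?_⟩, h7⟩
  intro s' h5 h6 h8
  exact Nat.find_min hex h6 ⟨by rw [← h7]; exact h5, h8⟩

theorem fdx_one {ux : ℝ} {v : Fin 3} {s s' : ℕ} {w : Om} (h : fdx M Q ux v s w) (h' : fdx M Q ux v s' w)
    (e : tv M v s w = tv M v s' w) : s = s' := by
  have l1 : tv M v s w ≤ s := stg_le _ _
  have l2 : tv M v s' w ≤ s' := stg_le _ _
  rcases lt_trichotomy s s' with h1 | h1 | h1
  · exact absurd h.1 (h'.2 s (by omega) h1)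
  · exact h1
  · exact absurd h'.1 (h.2 s' (by omega) h1)

/-- the number of the first times is at most the number of decisions -/
theorem fdx_cnt {ux : ℝ} (v : Fin 3) (T : ℕ) : ∑ s ∈ range T, M.P.Pr (fdx M Q ux v s) ≤ NT M Q v T := by
  unfold NT
  refine Pr_inj (l := tv M v) (fun w _ s hs h => ?_) (fun w _ s _ s' _ h h' e => fdx_one h h' e)
  obtain ⟨s', a, b, c⟩ := bet_iff.1 h.1.1
  exact ⟨s', lt_of_le_of_lt b hs, c, stg_mid rfl a b⟩

/-- **THE TUPLES OVER A DROPPED VERTEX** -/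
theorem drop_le (H : Seen M) {ux : ℝ} (x0 : 0 ≤ ux) {v : Fin 3} {E : ℕ → Om → Prop}
    (hE : ∀ w, M.P.p w ≠ 0 → ∀ q, E q w → tv M v (q + 1) w = q + 1) (T : ℕ) :
    ∑ q ∈ range T, M.P.Pr (fun w => E q w ∧ ka M Q v q w ∧
      ∃ r, tv M v q w ≤ r ∧ r ≤ q ∧ dx M Q ux v r w) ≤ ux * NT M Q v T := by
  have h1 : ∑ q ∈ range T, M.P.Pr (fun w => E q w ∧ ka M Q v q w ∧
      ∃ r, tv M v q w ≤ r ∧ r ≤ q ∧ dx M Q ux v r w) ≤
      ∑ s ∈ range T, M.P.Pr (fun w => fdx M Q ux v s w ∧ ka M Q v s w) := by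
    refine Pr_inj (l := tv M v) (fun w _ q hq h => ?_) (fun w hw q _ q' _ h h' e => ?_)
    · obtain ⟨_, hk, r, a, b, c⟩ := h
      obtain ⟨s, d, f, g⟩ := fdx_ex a b c
      exact ⟨s, by omega, ⟨f, ka_mono (d.trans b) g hk⟩, g⟩
    · exact end_one (C := M.Cv v) (hE w hw q h.1) (hE w hw q' h'.1) e
  have h2 := mul_le_mul_of_nonneg_left (fdx_cnt (M := M) (Q := Q) (ux := ux) v T) x0
  rw [Finset.mul_sum] at h2
  refine h1.trans (le_trans (Finset.sum_le_sum fun s _ => ?_) h2)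
  refine dens_lt (Z := M.S {v} s) (fun x w e => fdx_S H v le_rfl e) _ fun w _ h => ?_
  exact h.1.2.le

/-- **THE ALIVE PARTNERS** at the exact `v` -/
theorem alive_le (H : Seen M) {v v' : Fin 3} (hci : Blk.CI M.P (M.S ∅) (M.S {v}) (M.S {v'})) {ux c : ℝ} (x0 : 0 < ux)
    {s : ℕ} {f : Om → Prop} (hf : ∀ x w, M.S {v} s x = M.S {v} s w → (f x ↔ f w))
    (hc : ∀ w, M.P.p w ≠ 0 → f w → Dn M Q (some v') s w ≤ c) :
    M.P.Pr (fun w => f w ∧ al M Q ux v' s w) ≤ c / ux * M.P.Pr f := by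
  refine dens_lt (Z := M.S {v} s) hf _ fun w hw h => ?_
  have h1 : M.P.ce (M.S {v} s) (fun u => ind (al M Q ux v' s u)) w =
      M.P.ce (M.S ∅ s) (fun u => ind (al M Q ux v' s u)) w :=
    Uv.ci_cp (P := M.P) (V := M.S {v}) (V' := M.S {v'}) (nd := M.S ∅) (fun s => M.mS ∅ {v} s (Finset.empty_subset _)) hci
      (s := s) (A := al M Q ux v' s) (fun x y e => al_S H v' le_rfl e) hw
  rw [h1, le_div_iff₀ x0, mul_comm]
  refine le_trans ?_ (hc w hw h)
  rw [← M.P.ce_smul]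
  have e1 : Fac (M.S {v'} s) (fun u => ind (al M Q ux v' s u)) := Fac.ind fun x y e => al_S H v' le_rfl e
  calc M.P.ce (M.S ∅ s) (fun u => ux * ind (al M Q ux v' s u)) w
      ≤ M.P.ce (M.S ∅ s) (fun u => ind (al M Q ux v' s u) *
          M.P.ce (M.S {v'} s) (fun u => ind (ka M Q v' s u)) u) w := by
        refine M.P.ce_mono (fun u _ => ?_) w
        by_cases h2 : al M Q ux v' s u
        · rw [ind_of h2, mul_one, one_mul]
          exact h2.2
        · rw [ind_not h2, mul_zero, zero_mul]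
    _ = M.P.ce (M.S ∅ s) (fun u => ind (al M Q ux v' s u) * ind (ka M Q v' s u)) w := by
        have e2 : ∀ u, ind (al M Q ux v' s u) * M.P.ce (M.S {v'} s) (fun u => ind (ka M Q v' s u)) u =
            M.P.ce (M.S {v'} s) (fun u => ind (al M Q ux v' s u) * ind (ka M Q v' s u)) u :=
          fun u => (M.P.ce_mul e1 _ u).symm
        rw [show (fun u => ind (al M Q ux v' s u) * M.P.ce (M.S {v'} s)
          (fun u => ind (ka M Q v' s u)) u) = M.P.ce (M.S {v'} s) (fun u => ind (al M Q ux v' s u) *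
            ind (ka M Q v' s u)) from funext e2]
        exact M.P.ce_tower (M.mS ∅ {v'} s (Finset.empty_subset _)) _ w
    _ ≤ Dn M Q (some v') s w := by
        refine M.P.ce_mono (fun u _ => ?_) w
        by_cases h2 : al M Q ux v' s u
        · rw [ind_of h2, one_mul]
          exact ind_mono fun h3 => Rn_of h2.1 h3
        · rw [ind_not h2, zero_mul]
          exact ind_nonneg _

/-! ## partners -/

variable {A : Stps (Om := Om)} {δ : ℝ}

/-- what the removals see -/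
structure StS (M : US Om) (A : Stps (Om := Om)) : Prop where
  ru : ∀ q x w, M.S ∅ (q + 1) x = M.S ∅ (q + 1) w → (A.ru q x ↔ A.ru q w)
  rp : ∀ v q x w, M.S {v} (q + 1) x = M.S {v} (q + 1) w → (A.rp v q x ↔ A.rp v q w)
  ci : ∀ v v', v ≠ v' → Blk.CI M.P (M.S ∅) (M.S {v}) (M.S {v'})

variable (M A) in
/-- a public start which is not after a removal -/
def sf (n : ℕ) (w : Om) : Prop := nu M.toMS n w = n ∧ 0 < n ∧ ¬ A.ru (n - 1) w

theorem sf_S (H : Seen M) (HS : StS M A) (n : ℕ) {a b : Om} (e : M.S ∅ n a = M.S ∅ n b) : sf M A n a ↔ sf M A n b := by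
  unfold sf
  rw [nu_S H le_rfl a b e]
  rcases Nat.eq_zero_or_pos n with rfl | hn
  · exact ⟨fun h => absurd h.2.1 (lt_irrefl 0), fun h => absurd h.2.1 (lt_irrefl 0)⟩
  · obtain ⟨m, rfl⟩ : ∃ m, n = m + 1 := ⟨n - 1, by omega⟩
    rw [Nat.add_sub_cancel, HS.ru m a b e]

variable (M Q A) in
/-- the lost lives by a partner -/
def lpr (v : Fin 3) (q : ℕ) (w : Om) : Prop :=
  tv M v (q + 1) w = q + 1 ∧ Q.kd (some v) (tv M v q w) w ∧ bet M Q v q w ∧ prt M Q A v q w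

/-- **THE PARTNERS** -/
theorem prt_le (H : Seen M) (HS : StS M A) (HA : StpOK M Q A δ) (HP : Prv M Q) {v : Fin 3} (hv : v ∈ Q.Vk) {ux y0 : ℝ} (x0 : 0 < ux)
    (u0 : 0 ≤ Q.u0) (hy : 0 ≤ y0) (T : ℕ) :
    ∑ q ∈ range T, M.P.Pr (lpr M Q A v q) ≤ ∑ v' ∈ Q.Vk.erase v, (ux * NT M Q v' T + Q.u0 / ux * NT M Q v T +
      (y0 / ux * ∑ n ∈ range T, M.P.Pr (sf M A n) +
        ∑ n ∈ range T, M.P.Pr (fun w => sf M A n w ∧ y0 < Dn M Q (some v') n w))) := by
  classical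
  -- the three cases
  set B1 : Fin 3 → ℕ → Om → Prop := fun v' q w => A.ru q w ∧ ka M Q v' q w ∧
    ∃ r, tv M v' q w ≤ r ∧ r ≤ q ∧ dx M Q ux v' r w with hB1
  set B2 : Fin 3 → ℕ → Om → Prop := fun v' q w => A.ru q w ∧ ∃ s, tv M v q w ≤ s ∧ s ≤ q ∧
    (tkx M Q v s w ∧ ¬ Z0 M Q s w ∧ tv M v s w ≤ nu M.toMS s w) ∧ al M Q ux v' s w with hB2
  set B3 : Fin 3 → ℕ → Om → Prop := fun v' q w => A.ru q w ∧ tv M v q w < nu M.toMS q w ∧
    bet M Q v (nu M.toMS q w) w ∧ al M Q ux v' (nu M.toMS q w) w with hB3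
  have key : ∀ q w, M.P.p w ≠ 0 → ind (lpr M Q A v q w) ≤
      ∑ v' ∈ Q.Vk.erase v, (ind (B1 v' q w) + ind (B2 v' q w) + ind (B3 v' q w)) := by
    intro q w hw
    have n0 : ∀ v', 0 ≤ ind (B1 v' q w) + ind (B2 v' q w) + ind (B3 v' q w) := fun v' => by
      have := ind_nonneg (B1 v' q w)
      have := ind_nonneg (B2 v' q w)
      have := ind_nonneg (B3 v' q w)
      linarith
    by_cases h : lpr M Q A v q w
    · rw [ind_of h]
      obtain ⟨_, _, hb, hp⟩ := h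
      obtain ⟨s, a, b, c⟩ := bet_iff.1 hb
      obtain ⟨v', hv', hne, k1, k2, k3, k4⟩ := prt_cases HA hw hp a b c
      have hg := hp.1
      have hu := hp.2.1
      have hb2 : bet M Q v' q w := bet_mono b k1.symm k3
      have hkd : ka M Q v' q w :=
        ⟨Q.hkv v' hv' _ _ (HA.gdv w hw v' hv' q hg (Or.inr hu) (Or.inl hb2)), HA.gal hw hg hu⟩
      have hlst := HA.lst w hw v hv q hg hu
      have hs : tv M v s w = tv M v q w := stg_mid rfl a b
      have l1 : tv M v' s w ≤ s := stg_le _ _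
      have hin : v' ∈ Q.Vk.erase v := Finset.mem_erase.2 ⟨hne, hv'⟩
      refine le_trans ?_ (Finset.single_le_sum (f := fun v' => ind (B1 v' q w) + ind (B2 v' q w) + ind (B3 v' q w))
        (fun v' _ => n0 v') hin)
      have m1 := ind_nonneg (B1 v' q w)
      have m2 := ind_nonneg (B2 v' q w)
      have m3 := ind_nonneg (B3 v' q w)
      rcases k4 with k4 | k4
      · -- the same public epoch
        have hz : ¬ Z0 M Q s w := fun hz => c.1.2.1 ⟨hz, by rw [hs, ← k4]; exact hlst⟩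
        rcases lt_or_ge (Mg M Q v' s w) ux with h5 | h5
        · have : ind (B1 v' q w) = 1 := ind_of ⟨hu, hkd, s, by rw [← k1]; exact l1, b, k3, h5⟩
          show (1 : ℝ) ≤ ind (B1 v' q w) + ind (B2 v' q w) + ind (B3 v' q w)
          linarith
        · have : ind (B2 v' q w) = 1 := ind_of ⟨hu, s, a, b, ⟨c, hz, by rw [hs, ← k4]; exact hlst⟩,
            by rw [k1, ← k4]; exact k2, h5⟩
          show (1 : ℝ) ≤ ind (B1 v' q w) + ind (B2 v' q w) + ind (B3 v' q w)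
          linarith
      · -- the decision was before the public start
        have hnq : nu M.toMS q w ≤ q := stg_le _ _
        have e1 : tv M v' (nu M.toMS q w) w = tv M v' q w := stg_mid rfl k2 hnq
        have e2 : tv M v (nu M.toMS q w) w = tv M v q w := stg_mid rfl hlst hnq
        have hb' : bet M Q v' (nu M.toMS q w) w := bet_mono k4.le (e1.trans k1.symm) k3
        have hbv : bet M Q v (nu M.toMS q w) w := bet_iff.2 ⟨s, by rw [e2]; exact a, k4.le, c⟩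
        rcases lt_or_ge (Mg M Q v' (nu M.toMS q w) w) ux with h5 | h5
        · have : ind (B1 v' q w) = 1 := ind_of ⟨hu, hkd, nu M.toMS q w, k2, hnq, hb', h5⟩
          show (1 : ℝ) ≤ ind (B1 v' q w) + ind (B2 v' q w) + ind (B3 v' q w)
          linarith
        · have : ind (B3 v' q w) = 1 := ind_of ⟨hu, lt_of_le_of_lt a k4, hbv, by
            rw [e1, show nu M.toMS (nu M.toMS q w) w = nu M.toMS q w from stg_idem _ _]
            exact k2, h5⟩
          show (1 : ℝ) ≤ ind (B1 v' q w) + ind (B2 v' q w) + ind (B3 v' q w)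
          linarith
    · rw [ind_not h]
      exact Finset.sum_nonneg fun v' _ => n0 v'
  have h1 : ∑ q ∈ range T, M.P.Pr (lpr M Q A v q) ≤ ∑ v' ∈ Q.Vk.erase v, (∑ q ∈ range T, M.P.Pr (B1 v' q) +
      ∑ q ∈ range T, M.P.Pr (B2 v' q) + ∑ q ∈ range T, M.P.Pr (B3 v' q)) := by
    have h2 : ∀ q ∈ range T, M.P.Pr (lpr M Q A v q) ≤ ∑ v' ∈ Q.Vk.erase v,
        (M.P.Pr (B1 v' q) + M.P.Pr (B2 v' q) + M.P.Pr (B3 v' q)) := by
      intro q _
      unfold FP.Pr
      rw [Finset.sum_congr rfl fun v' _ => by rw [← FP.E_add, ← FP.E_add], ← FP.E_sum]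
      exact M.P.E_mono fun w hw => key q w hw
    refine (Finset.sum_le_sum h2).trans (le_of_eq ?_)
    rw [Finset.sum_comm]
    refine Finset.sum_congr rfl fun v' _ => ?_
    rw [Finset.sum_add_distrib, Finset.sum_add_distrib]
  refine h1.trans (Finset.sum_le_sum fun v' hv' => ?_)
  have hne : v ≠ v' := fun e => (Finset.mem_erase.1 hv').1 e.symm
  have c1 : ∑ q ∈ range T, M.P.Pr (B1 v' q) ≤ ux * NT M Q v' T :=
    drop_le H x0.le (E := A.ru) (fun w hw q h => HA.endu w hw v' q h) T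
  have c2 : ∑ q ∈ range T, M.P.Pr (B2 v' q) ≤ Q.u0 / ux * NT M Q v T := by
    have d1 : ∑ q ∈ range T, M.P.Pr (B2 v' q) ≤
        ∑ s ∈ range T, M.P.Pr (fun w => (tkx M Q v s w ∧ ¬ Z0 M Q s w ∧ tv M v s w ≤ nu M.toMS s w) ∧
          al M Q ux v' s w) := by
      refine Pr_inj (l := tv M v) (fun w _ q hq h => ?_) (fun w hw q _ q' _ h h' e => ?_)
      · obtain ⟨_, s, a, b, c, d⟩ := h
        exact ⟨s, by omega, ⟨c, d⟩, stg_mid rfl a b⟩
      · exact end_one (C := M.Cv v) (HA.endu w hw v q h.1) (HA.endu w hw v q' h'.1) e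
    refine d1.trans ?_
    unfold NT
    rw [Finset.mul_sum]
    refine Finset.sum_le_sum fun s _ => ?_
    refine (alive_le H (HS.ci v v' hne) x0 (f := fun w => tkx M Q v s w ∧ ¬ Z0 M Q s w ∧ tv M v s w ≤ nu M.toMS s w)
      (c := Q.u0) (fun x w e => ?_)
      (fun w hw h => ?_)).trans (mul_le_mul_of_nonneg_left (M.P.Pr_mono fun w _ h => h.1) (div_nonneg u0 x0.le))
    · rw [tkx_S H v le_rfl e, Z0_S H le_rfl (M.mS ∅ {v} s (Finset.empty_subset _) x w e), tau_S H v le_rfl x w e,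
        nu_S H le_rfl x w e]
    · refine (Dn_le H (some v') s w).trans (le_of_lt ?_)
      exact M0_lt_of (fun h3 => h.2.1 ⟨s, stg_le _ _, le_rfl, h3⟩) (HP.xz w hw v s h.1.1.2.2 h.2.2)
  have c3 : ∑ q ∈ range T, M.P.Pr (B3 v' q) ≤ y0 / ux * ∑ n ∈ range T, M.P.Pr (sf M A n) +
      ∑ n ∈ range T, M.P.Pr (fun w => sf M A n w ∧ y0 < Dn M Q (some v') n w) := by
    have d1 : ∑ q ∈ range T, M.P.Pr (B3 v' q) ≤
        ∑ n ∈ range T, M.P.Pr (fun w => nu M.toMS n w = n ∧ tv M v n w < n ∧ bet M Q v n w ∧ al M Q ux v' n w) := by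
      refine Pr_inj (l := nu M.toMS) (fun w _ q hq h => ?_) (fun w hw q _ q' _ h h' e => ?_)
      · obtain ⟨_, a, b, c⟩ := h
        have hnq : nu M.toMS q w ≤ q := stg_le _ _
        have e1 : nu M.toMS (nu M.toMS q w) w = nu M.toMS q w := stg_idem _ _
        refine ⟨nu M.toMS q w, by omega, ⟨e1, ?_, b, c⟩, e1⟩
        rw [show tv M v (nu M.toMS q w) w = tv M v q w from stg_mid rfl a.le hnq]
        exact a
      · exact end_one (C := C0 M.toMS) (HA.end0 w hw q h.1) (HA.end0 w hw q' h'.1) e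
    refine d1.trans ?_
    rw [Finset.mul_sum, ← Finset.sum_add_distrib]
    refine Finset.sum_le_sum fun n _ => ?_
    set f : Om → Prop := fun w => (sf M A n w ∧ ¬ y0 < Dn M Q (some v') n w) ∧ tv M v n w < n ∧ bet M Q v n w with hf
    have d2 := alive_le H (HS.ci v v' hne) x0 (s := n) (f := f) (c := y0) (fun x w e => by
      have e0 := M.mS ∅ {v} n (Finset.empty_subset _) x w e
      show ((sf M A n x ∧ ¬ y0 < Dn M Q (some v') n x) ∧ tv M v n x < n ∧ bet M Q v n x) ↔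
        ((sf M A n w ∧ ¬ y0 < Dn M Q (some v') n w) ∧ tv M v n w < n ∧ bet M Q v n w)
      rw [sf_S H HS n e0, Dn_S (some v') n x w e0, tau_S H v le_rfl x w e, bet_S H v le_rfl e])
      (fun w _ h => not_lt.1 h.1.2)
    have d3 : M.P.Pr (fun w => nu M.toMS n w = n ∧ tv M v n w < n ∧ bet M Q v n w ∧ al M Q ux v' n w) ≤
        M.P.Pr (fun w => f w ∧ al M Q ux v' n w) + M.P.Pr (fun w => sf M A n w ∧ y0 < Dn M Q (some v') n w) := by
      refine (M.P.Pr_mono fun w hw h => ?_).trans (M.P.Pr_or_le _ _)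
      obtain ⟨a, b, c, d⟩ := h
      have hn : 0 < n := by omega
      have hsf : sf M A n w := ⟨a, hn, fun h5 => by
        have h6 := HA.endu w hw v (n - 1) h5
        rw [show n - 1 + 1 = n by omega] at h6
        omega⟩
      by_cases h7 : y0 < Dn M Q (some v') n w
      · exact Or.inr ⟨hsf, h7⟩
      · exact Or.inl ⟨⟨⟨hsf, h7⟩, b, c⟩, d⟩
    have d4 : M.P.Pr f ≤ M.P.Pr (sf M A n) := M.P.Pr_mono fun w _ h => h.1.1
    have d5 := mul_le_mul_of_nonneg_left d4 (div_nonneg hy x0.le)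
    linarith
  linarith

/-! ## the lost lives -/

variable (M Q A) in
/-- not good at a removal -/
def ngv (v : Fin 3) (q : ℕ) (w : Om) : Prop :=
  (A.rp v q w ∨ A.ru q w) ∧ Q.kd (some v) (tv M v q w) w ∧ bet M Q v q w ∧ ¬ A.gd q w

variable (M Q A) in
/-- the a-free end of a decided life -/
def afv (v : Fin 3) (q : ℕ) (w : Om) : Prop :=
  tv M v (q + 1) w = q + 1 ∧ bet M Q v q w ∧ ¬ A.rp v q w ∧ ¬ A.ru q w

variable (M Q) in
/-- density of the relation of the life which ends in the step `q`, after the step -/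
def Dev (v : Fin 3) (q : ℕ) (w : Om) : ℝ := M.P.ce (M.S {v} (q + 1)) (fun u => ind (Q.kv (some v) (tv M v q u) u)) w

variable (M Q) in
/-- density of the static relation of the epoch which ends in the step `q`, after the step -/
def De0 (v : Option (Fin 3)) (q : ℕ) (w : Om) : ℝ :=
  M.P.ce (M.S ∅ (q + 1)) (fun u => ind (Rn M Q v (nu M.toMS q u) u)) w

theorem afv_S (H : Seen M) (HS : StS M A) (v : Fin 3) (q : ℕ) {a b : Om} (e : M.S {v} (q + 1) a = M.S {v} (q + 1) b) :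
    afv M Q A v q a ↔ afv M Q A v q b := by
  unfold afv
  rw [tau_S H v le_rfl a b e, bet_S H v (Nat.le_succ q) e, HS.rp v q a b e,
    HS.ru q a b (M.mS ∅ {v} (q + 1) (Finset.empty_subset _) a b e)]

theorem afv_cnt (v : Fin 3) (T : ℕ) : ∑ q ∈ range T, M.P.Pr (afv M Q A v q) ≤ NT M Q v T := by
  unfold NT
  refine Pr_inj (l := tv M v) (fun w _ q hq h => ?_) (fun w _ q _ q' _ h h' e => ?_)
  · obtain ⟨s, a, b, c⟩ := bet_iff.1 h.2.1
    exact ⟨s, lt_of_le_of_lt b hq, c, stg_mid rfl a b⟩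
  · exact end_one (C := M.Cv v) h.1 h'.1 e

/-- the a-free ends of the decided lives -/
theorem af_le (H : Seen M) (HS : StS M A) (v : Fin 3) {y : ℝ} (hy : 0 ≤ y) (T : ℕ) :
    ∑ q ∈ range T, M.P.Pr (fun w => afv M Q A v q w ∧ Q.kv (some v) (tv M v q w) w) ≤
      y * NT M Q v T + ∑ q ∈ range T, M.P.Pr (fun w => afv M Q A v q w ∧ y < Dev M Q v q w) := by
  have h1 : ∀ q ∈ range T, M.P.Pr (fun w => afv M Q A v q w ∧ Q.kv (some v) (tv M v q w) w) ≤
      y * M.P.Pr (afv M Q A v q) + M.P.Pr (fun w => afv M Q A v q w ∧ y < Dev M Q v q w) := fun q _ =>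
    dens_le (Z := M.S {v} (q + 1)) (fun x w e => afv_S H HS v q e) _ hy
  refine (Finset.sum_le_sum h1).trans ?_
  rw [Finset.sum_add_distrib, ← Finset.mul_sum]
  have h2 := mul_le_mul_of_nonneg_left (afv_cnt (M := M) (Q := Q) (A := A) v T) hy
  linarith

/-- **THE LOST LIVES OF THE VERTEX `v`** -/
theorem lost_le (H : Seen M) (HS : StS M A) (HA : StpOK M Q A δ) (HP : Prv M Q) {v : Fin 3} (hv : v ∈ Q.Vk)
    {ux y0 y : ℝ} (x0 : 0 < ux)
    (u0 : 0 ≤ Q.u0) (hy0 : 0 ≤ y0) (hy : 0 ≤ y) (T : ℕ) :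
    ∑ q ∈ range T, M.P.Pr (lost M Q A v q) ≤ ∑ q ∈ range T, M.P.Pr (ngv M Q A v q) +
      (y * NT M Q v T + ∑ q ∈ range T, M.P.Pr (fun w => afv M Q A v q w ∧ y < Dev M Q v q w)) +
      ∑ v' ∈ Q.Vk.erase v, (ux * NT M Q v' T + Q.u0 / ux * NT M Q v T + (y0 / ux * ∑ n ∈ range T, M.P.Pr (sf M A n) +
        ∑ n ∈ range T, M.P.Pr (fun w => sf M A n w ∧ y0 < Dn M Q (some v') n w))) := by
  have h1 : ∑ q ∈ range T, M.P.Pr (lost M Q A v q) ≤ ∑ q ∈ range T, M.P.Pr (ngv M Q A v q) +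
      ∑ q ∈ range T, M.P.Pr (fun w => afv M Q A v q w ∧ Q.kv (some v) (tv M v q w) w) +
      ∑ q ∈ range T, M.P.Pr (lpr M Q A v q) := by
    rw [← Finset.sum_add_distrib, ← Finset.sum_add_distrib]
    refine Finset.sum_le_sum fun q _ => ?_
    unfold FP.Pr
    rw [← FP.E_add, ← FP.E_add]
    refine M.P.E_mono fun w _ => ?_
    have n1 := ind_nonneg (ngv M Q A v q w)
    have n2 := ind_nonneg (afv M Q A v q w ∧ Q.kv (some v) (tv M v q w) w)
    have n3 := ind_nonneg (lpr M Q A v q w)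
    by_cases h : lost M Q A v q w
    · rw [ind_of h]
      obtain ⟨a, b, c, d⟩ := h
      rcases d with ⟨d1, d2⟩ | ⟨d1, d2⟩ | ⟨d1, d2⟩ | d
      · have : ind (afv M Q A v q w ∧ Q.kv (some v) (tv M v q w) w) = 1 :=
          ind_of ⟨⟨a, c, d1, d2⟩, Q.hkv v hv _ _ b⟩
        linarith
      · have : ind (ngv M Q A v q w) = 1 := ind_of ⟨Or.inl d1, b, c, d2⟩
        linarith
      · have : ind (ngv M Q A v q w) = 1 := ind_of ⟨Or.inr d1, b, c, d2⟩
        linarith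
      · have : ind (lpr M Q A v q w) = 1 := ind_of ⟨a, b, c, d⟩
        linarith
    · rw [ind_not h]
      linarith
  have h2 := af_le (M := M) (Q := Q) (A := A) H HS v hy T
  have h3 := prt_le H HS HA HP hv x0 u0 hy0 T
  linarith

/-- the final time -/
theorem fin_v (H : Seen M) (v : Fin 3) {y : ℝ} (hy : 0 ≤ y) (T : ℕ) :
    M.P.Pr (fun w => Q.kv (some v) (tv M v T w) w ∧ bet M Q v T w) ≤
      y * M.P.Pr (bet M Q v T) + M.P.Pr (fun w => bet M Q v T w ∧ y < Mx M Q v T w) := by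
  have h1 := dens_le (P := M.P) (Z := M.S {v} T) (f := bet M Q v T) (fun x w e => bet_S H v le_rfl e)
    (fun u => Q.kv (some v) (tv M v T u) u) hy
  refine (M.P.Pr_mono fun w _ h => ⟨h.2, h.1⟩).trans (h1.trans (le_of_eq ?_))
  congr 1
  refine M.P.Pr_congr fun w _ => ?_
  rw [Mx_eq H]

theorem fin_vk (H : Seen M) {v : Fin 3} (hv : v ∈ Q.Vk) {y : ℝ} (hy : 0 ≤ y) (T : ℕ) :
    M.P.Pr (fun w => Q.kd (some v) (tv M v T w) w ∧ bet M Q v T w) ≤
      y * M.P.Pr (bet M Q v T) + M.P.Pr (fun w => bet M Q v T w ∧ y < Mx M Q v T w) :=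
  (M.P.Pr_mono fun _ _ h => ⟨Q.hkv v hv _ _ h.1, h.2⟩).trans (fin_v H v hy T)

/-! ## the lost zones -/

variable (M Q A) in
/-- the a-free end of an epoch with a zone -/
def af0 (q : ℕ) (w : Om) : Prop := nu M.toMS (q + 1) w = q + 1 ∧ Z0 M Q q w ∧ ¬ A.ru q w

variable (M Q A) in
/-- not good at the public removal which ends a zone -/
def ng0 (v : Option (Fin 3)) (q : ℕ) (w : Om) : Prop :=
  A.ru q w ∧ Z0 M Q q w ∧ Rn M Q v (nu M.toMS q w) w ∧ ¬ A.gd q w

variable (M Q A) in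
/-- not good at the public removal which ends a zone, in the relation -/
def ngd0 (q : ℕ) (w : Om) : Prop := A.ru q w ∧ Z0 M Q q w ∧ Q.kd none (nu M.toMS q w) w ∧ ¬ A.gd q w

theorem af0_S (H : Seen M) (HS : StS M A) (q : ℕ) {a b : Om} (e : M.S ∅ (q + 1) a = M.S ∅ (q + 1) b) :
    af0 M Q A q a ↔ af0 M Q A q b := by
  unfold af0
  rw [nu_S H le_rfl a b e, Z0_S H (Nat.le_succ q) e, HS.ru q a b e]

theorem af0_cnt (T : ℕ) : ∑ q ∈ range T, M.P.Pr (af0 M Q A q) ≤ Nz M Q T := by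
  unfold Nz
  refine Pr_inj (l := nu M.toMS) (fun w _ q hq h => ?_) (fun w _ q _ q' _ h h' e => ?_)
  · obtain ⟨s, a, b, c⟩ := Z0_iff.1 h.2.1
    exact ⟨s, lt_of_le_of_lt b hq, c, stg_mid rfl a b⟩
  · exact end_one (C := C0 M.toMS) h.1 h'.1 e

theorem af0_le (H : Seen M) (HS : StS M A) (v : Option (Fin 3)) {y : ℝ} (hy : 0 ≤ y) (T : ℕ) :
    ∑ q ∈ range T, M.P.Pr (fun w => af0 M Q A q w ∧ Rn M Q v (nu M.toMS q w) w) ≤
      y * Nz M Q T + ∑ q ∈ range T, M.P.Pr (fun w => af0 M Q A q w ∧ y < De0 M Q v q w) := by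
  have h1 : ∀ q ∈ range T, M.P.Pr (fun w => af0 M Q A q w ∧ Rn M Q v (nu M.toMS q w) w) ≤
      y * M.P.Pr (af0 M Q A q) + M.P.Pr (fun w => af0 M Q A q w ∧ y < De0 M Q v q w) := fun q _ =>
    dens_le (Z := M.S ∅ (q + 1)) (fun x w e => af0_S H HS q e) _ hy
  refine (Finset.sum_le_sum h1).trans ?_
  rw [Finset.sum_add_distrib, ← Finset.mul_sum]
  have h2 := mul_le_mul_of_nonneg_left (af0_cnt (M := M) (Q := Q) (A := A) T) hy
  linarith

/-- **THE LOST ZONES** -/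
theorem lost0_le (H : Seen M) (HS : StS M A) {y : ℝ} (hy : 0 ≤ y) (T : ℕ) :
    ∑ q ∈ range T, M.P.Pr (lost0 M Q A q) ≤ ∑ q ∈ range T, M.P.Pr (ngd0 M Q A q) +
      (y * Nz M Q T + ∑ q ∈ range T, M.P.Pr (fun w => af0 M Q A q w ∧ y < De0 M Q none q w)) := by
  have h1 : ∑ q ∈ range T, M.P.Pr (lost0 M Q A q) ≤ ∑ q ∈ range T, M.P.Pr (ngd0 M Q A q) +
      ∑ q ∈ range T, M.P.Pr (fun w => af0 M Q A q w ∧ Rn M Q none (nu M.toMS q w) w) := by
    rw [← Finset.sum_add_distrib]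
    refine Finset.sum_le_sum fun q _ => (M.P.Pr_mono fun w _ h => ?_).trans (M.P.Pr_or_le _ _)
    obtain ⟨a, b, ⟨s, c, d, e, _⟩, f⟩ := h
    have hz : Z0 M Q q w := Z0_iff.2 ⟨s, c, d, e⟩
    by_cases hu : A.ru q w
    · exact Or.inl ⟨hu, hz, b, f.resolve_left fun h => h hu⟩
    · exact Or.inr ⟨⟨a, hz, hu⟩, Q.hkn _ _ b⟩
  have h2 := af0_le (M := M) (Q := Q) (A := A) H HS none hy T
  linarith

/-- the final time -/
theorem fin_0 (H : Seen M) (v : Option (Fin 3)) {y : ℝ} (hy : 0 ≤ y) (T : ℕ) :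
    M.P.Pr (fun w => Rn M Q v (nu M.toMS T w) w ∧ Z0 M Q T w) ≤
      y * M.P.Pr (Z0 M Q T) + M.P.Pr (fun w => Z0 M Q T w ∧ y < Dn M Q v T w) :=
  (M.P.Pr_mono fun _ _ h => ⟨h.2, h.1⟩).trans (dens_le (P := M.P) (Z := M.S ∅ T) (f := Z0 M Q T)
    (fun _ _ e => Z0_S H le_rfl e) (fun u => Rn M Q v (nu M.toMS T u) u) hy)

theorem fin_0k (H : Seen M) {y : ℝ} (hy : 0 ≤ y) (T : ℕ) :
    M.P.Pr (fun w => Q.kd none (nu M.toMS T w) w ∧ Z0 M Q T w) ≤
      y * M.P.Pr (Z0 M Q T) + M.P.Pr (fun w => Z0 M Q T w ∧ y < Dn M Q none T w) :=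
  (M.P.Pr_mono fun _ _ h => ⟨Q.hkn _ _ h.1, h.2⟩).trans (fin_0 H none hy T)

/-! ## the number of decisions and of zones -/

/-- every event of a life is followed by the end of the life or by the final time -/
theorem life_end {C : ℕ → ℕ → Om → Prop} {s T : ℕ} {w : Om} (hs : s < T) (hT : stg C T w ≠ stg C s w) :
    ∃ q < T, s ≤ q ∧ stg C q w = stg C s w ∧ stg C (q + 1) w = q + 1 := by
  classical
  have hex : ∃ k, s < k ∧ stg C k w ≠ stg C s w := ⟨T, hs, hT⟩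
  obtain ⟨h1, h2⟩ := Nat.find_spec hex
  have hkT : Nat.find hex ≤ T := Nat.find_min' hex ⟨hs, hT⟩
  obtain ⟨q, hq⟩ : ∃ q, Nat.find hex = q + 1 := ⟨Nat.find hex - 1, by omega⟩
  have hq1 : stg C q w = stg C s w := by
    by_contra h3
    rcases Nat.lt_or_ge s q with h4 | h4
    · exact Nat.find_min hex (show q < Nat.find hex by omega) ⟨h4, h3⟩
    · have : q = s := by omega
      exact h3 (this ▸ rfl)
  have hq2 : stg C (q + 1) w = q + 1 := by
    rcases stg_or (C := C) q w with h3 | h3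
    · exact h3
    · exact absurd (h3.trans hq1) (by rw [← hq]; exact h2)
  exact ⟨q, by omega, by omega, hq1, hq2⟩

/-- unique events of the lives: the ends and the final time -/
theorem Pr_ends {P : FP Om} {C : ℕ → ℕ → Om → Prop} {F E : ℕ → Om → Prop} {G : Om → Prop} {T : ℕ}
    (h1 : ∀ w s s', F s w → F s' w → stg C s w = stg C s' w → s = s')
    (hE : ∀ w s q, F s w → s ≤ q → stg C q w = stg C s w → stg C (q + 1) w = q + 1 → E q w)
    (hG : ∀ w s, s < T → F s w → stg C T w = stg C s w → G w) :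
    ∑ s ∈ range T, P.Pr (F s) ≤ ∑ q ∈ range T, P.Pr (E q) + P.Pr G := by
  set F' : ℕ → Om → Prop := fun q w => (q < T ∧ E q w) ∨ (q = T ∧ G w) with hF'
  have h2 : ∑ s ∈ range T, P.Pr (F s) ≤ ∑ s ∈ range (T + 1), P.Pr (F' s) := by
    refine Pr_inj (l := stg C) (fun w _ s hs h => ?_) (fun w _ s _ s' _ h h' e => h1 w s s' h h' e)
    by_cases h3 : stg C T w = stg C s w
    · exact ⟨T, Nat.lt_succ_self T, Or.inr ⟨rfl, hG w s hs h h3⟩, h3⟩
    · obtain ⟨q, a, b, c, d⟩ := life_end hs h3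
      exact ⟨q, by omega, Or.inl ⟨a, hE w s q h b c d⟩, c⟩
  refine h2.trans ?_
  rw [Finset.sum_range_succ]
  refine add_le_add (Finset.sum_le_sum fun q hq => P.Pr_mono fun w _ h => ?_) (P.Pr_mono fun w _ h => ?_)
  · rcases h with h | h
    · exact h.2
    · exact absurd h.1 (by have := mem_range.1 hq; omega)
  · rcases h with h | h
    · exact absurd h.1 (lt_irrefl T)
    · exact h.2

variable (M Q A) in
/-- the good tuples at the removals which end a decided life -/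
def rmv (v : Fin 3) (q : ℕ) (w : Om) : Prop :=
  (A.rp v q w ∨ A.ru q w) ∧ Q.kv (some v) (tv M v q w) w ∧ bet M Q v q w ∧ A.gd q w

variable (M Q A) in
/-- not good at the removals which end a decided life (relation of the density) -/
def ngk (v : Fin 3) (q : ℕ) (w : Om) : Prop :=
  (A.rp v q w ∨ A.ru q w) ∧ Q.kv (some v) (tv M v q w) w ∧ bet M Q v q w ∧ ¬ A.gd q w

/-- **THE NUMBER OF DECISIONS** : `x` + `us` per decision at the removals -/
theorem cnt_v (H : Seen M) (HS : StS M A) {v : Fin 3}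
    {y x us : ℝ} (hy : 0 ≤ y) (T : ℕ) (hyB : y ≤ Q.uB / 4)
    (husB : us ≤ Q.uB / 4) (hx : ∑ q ∈ range T, M.P.Pr (rmv M Q A v q) ≤ x + us * NT M Q v T) :
    Q.uB / 2 * NT M Q v T ≤ x + ∑ q ∈ range T, M.P.Pr (ngk M Q A v q) +
      ∑ q ∈ range T, M.P.Pr (fun w => afv M Q A v q w ∧ y < Dev M Q v q w) +
      M.P.Pr (fun w => Q.kv (some v) (tv M v T w) w ∧ bet M Q v T w) := by
  have h1 : Q.uB * NT M Q v T ≤ ∑ s ∈ range T, M.P.Pr (fun w => tkx M Q v s w ∧ Q.kv (some v) (tv M v s w) w) := by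
    unfold NT
    rw [Finset.mul_sum]
    refine Finset.sum_le_sum fun s _ => dens_ge (Z := M.S {v} s) (fun x w e => tkx_S H v le_rfl e) _ fun w _ h => ?_
    rw [← Mx_eq H]
    exact h.1.1
  have h2 : ∑ s ∈ range T, M.P.Pr (fun w => tkx M Q v s w ∧ Q.kv (some v) (tv M v s w) w) ≤
      ∑ q ∈ range T, M.P.Pr (fun w => tv M v (q + 1) w = q + 1 ∧ Q.kv (some v) (tv M v q w) w ∧ bet M Q v q w) +
      M.P.Pr (fun w => Q.kv (some v) (tv M v T w) w ∧ bet M Q v T w) := by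
    refine Pr_ends (C := M.Cv v) (fun w s s' h h' e => tkx_one h.1 h'.1 e) (fun w s q h a b c => ?_)
      (fun w s hs h e => ?_)
    · have hb : tv M v q w = tv M v s w := b
      have l1 : tv M v s w ≤ s := stg_le _ _
      exact ⟨c, by rw [hb]; exact h.2, bet_iff.2 ⟨s, by rw [hb]; exact l1, a, h.1⟩⟩
    · have hb : tv M v T w = tv M v s w := e
      have l1 : tv M v s w ≤ s := stg_le _ _
      exact ⟨by rw [hb]; exact h.2, bet_iff.2 ⟨s, by rw [hb]; exact l1, hs.le, h.1⟩⟩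
  have h3 : ∑ q ∈ range T, M.P.Pr (fun w => tv M v (q + 1) w = q + 1 ∧ Q.kv (some v) (tv M v q w) w ∧
      bet M Q v q w) ≤ ∑ q ∈ range T, M.P.Pr (rmv M Q A v q) + ∑ q ∈ range T, M.P.Pr (ngk M Q A v q) +
      ∑ q ∈ range T, M.P.Pr (fun w => afv M Q A v q w ∧ Q.kv (some v) (tv M v q w) w) := by
    rw [← Finset.sum_add_distrib, ← Finset.sum_add_distrib]
    refine Finset.sum_le_sum fun q _ => (M.P.Pr_mono (t := fun w => (rmv M Q A v q w ∨ ngk M Q A v q w) ∨
      (afv M Q A v q w ∧ Q.kv (some v) (tv M v q w) w)) fun w _ h => ?_).trans ((M.P.Pr_or_le _ _).trans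
        (add_le_add (M.P.Pr_or_le _ _) le_rfl))
    obtain ⟨a, b, c⟩ := h
    by_cases h4 : A.rp v q w ∨ A.ru q w
    · by_cases h5 : A.gd q w
      · exact Or.inl (Or.inl ⟨h4, b, c, h5⟩)
      · exact Or.inl (Or.inr ⟨h4, b, c, h5⟩)
    · exact Or.inr ⟨⟨a, c, fun h => h4 (Or.inl h), fun h => h4 (Or.inr h)⟩, b⟩
  have h4 := af_le (M := M) (Q := Q) (A := A) H HS v hy T
  have N0 := NT_nonneg (M := M) (Q := Q) v T
  have h5 := mul_le_mul_of_nonneg_right hyB N0
  have h6 := mul_le_mul_of_nonneg_right husB N0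
  linarith

variable (M Q A) in
/-- the good tuples at the public removals which end a zone -/
def rm0 (v : Option (Fin 3)) (q : ℕ) (w : Om) : Prop :=
  A.ru q w ∧ Z0 M Q q w ∧ Rn M Q v (nu M.toMS q w) w ∧ A.gd q w

/-- **THE NUMBER OF ZONES** -/
theorem cnt_0 (H : Seen M) (HS : StS M A) {y x us : ℝ} (hy : 0 ≤ y) (T : ℕ) (hy0 : 4 * y ≤ Q.u0 / 4)
    (hus0 : 4 * us ≤ Q.u0 / 4) (hx : ∀ v, ∑ q ∈ range T, M.P.Pr (rm0 M Q A v q) ≤ x + us * Nz M Q T) :
    Q.u0 / 2 * Nz M Q T ≤ 4 * x + ∑ v : Option (Fin 3), (∑ q ∈ range T, M.P.Pr (ng0 M Q A v q) +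
      ∑ q ∈ range T, M.P.Pr (fun w => af0 M Q A q w ∧ y < De0 M Q v q w) +
      M.P.Pr (fun w => Rn M Q v (nu M.toMS T w) w ∧ Z0 M Q T w)) := by
  have h1 : Q.u0 * Nz M Q T ≤ ∑ v : Option (Fin 3), ∑ s ∈ range T,
      M.P.Pr (fun w => zt M Q s w ∧ Rn M Q v (nu M.toMS s w) w) := by
    unfold Nz
    rw [Finset.sum_comm, Finset.mul_sum]
    refine Finset.sum_le_sum fun s _ => ?_
    have hF : Fac (M.S ∅ s) (fun w => ind (zt M Q s w)) := Fac.ind fun x w e => zt_S H le_rfl e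
    have e1 : ∀ v : Option (Fin 3), M.P.Pr (fun w => zt M Q s w ∧ Rn M Q v (nu M.toMS s w) w) =
        M.P.E (fun w => ind (zt M Q s w) * Dn M Q v s w) := fun v => by
      have : M.P.Pr (fun w => zt M Q s w ∧ Rn M Q v (nu M.toMS s w) w) =
          M.P.E (fun w => ind (zt M Q s w) * ind (Rn M Q v (nu M.toMS s w) w)) := M.P.E_congr fun w _ => ind_and _ _
      rw [this]
      exact (M.P.E_mul_ce hF _).symm
    rw [Finset.sum_congr rfl fun v _ => e1 v, ← FP.E_sum]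
    unfold FP.Pr
    rw [← FP.E_smul]
    refine M.P.E_mono fun w _ => ?_
    rw [← Finset.mul_sum, ← M0_eq H]
    by_cases h : zt M Q s w
    · rw [ind_of h, mul_one, one_mul]
      exact h.1.1
    · rw [ind_not h, mul_zero, zero_mul]
  have h2 : ∀ v : Option (Fin 3), ∑ s ∈ range T, M.P.Pr (fun w => zt M Q s w ∧ Rn M Q v (nu M.toMS s w) w) ≤
      ∑ q ∈ range T, M.P.Pr (fun w => nu M.toMS (q + 1) w = q + 1 ∧ Z0 M Q q w ∧ Rn M Q v (nu M.toMS q w) w) +
      M.P.Pr (fun w => Rn M Q v (nu M.toMS T w) w ∧ Z0 M Q T w) := fun v => by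
    refine Pr_ends (C := C0 M.toMS) (fun w s s' h h' e => zt_one h.1 h'.1 e) (fun w s q h a b c => ?_)
      (fun w s hs h e => ?_)
    · have hb : nu M.toMS q w = nu M.toMS s w := b
      have l1 : nu M.toMS s w ≤ s := stg_le _ _
      exact ⟨c, Z0_iff.2 ⟨s, by rw [hb]; exact l1, a, h.1⟩, by rw [hb]; exact h.2⟩
    · have hb : nu M.toMS T w = nu M.toMS s w := e
      have l1 : nu M.toMS s w ≤ s := stg_le _ _
      exact ⟨by rw [hb]; exact h.2, Z0_iff.2 ⟨s, by rw [hb]; exact l1, hs.le, h.1⟩⟩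
  have h3 : ∀ v : Option (Fin 3), ∑ q ∈ range T, M.P.Pr (fun w => nu M.toMS (q + 1) w = q + 1 ∧ Z0 M Q q w ∧
      Rn M Q v (nu M.toMS q w) w) ≤ ∑ q ∈ range T, M.P.Pr (rm0 M Q A v q) + ∑ q ∈ range T, M.P.Pr (ng0 M Q A v q) +
      ∑ q ∈ range T, M.P.Pr (fun w => af0 M Q A q w ∧ Rn M Q v (nu M.toMS q w) w) := fun v => by
    rw [← Finset.sum_add_distrib, ← Finset.sum_add_distrib]
    refine Finset.sum_le_sum fun q _ => (M.P.Pr_mono (t := fun w => (rm0 M Q A v q w ∨ ng0 M Q A v q w) ∨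
      (af0 M Q A q w ∧ Rn M Q v (nu M.toMS q w) w)) fun w _ h => ?_).trans ((M.P.Pr_or_le _ _).trans
        (add_le_add (M.P.Pr_or_le _ _) le_rfl))
    obtain ⟨a, b, c⟩ := h
    by_cases h4 : A.ru q w
    · by_cases h5 : A.gd q w
      · exact Or.inl (Or.inl ⟨h4, b, c, h5⟩)
      · exact Or.inl (Or.inr ⟨h4, b, c, h5⟩)
    · exact Or.inr ⟨⟨a, b, h4⟩, c⟩
  have N0 := Nz_nonneg (M := M) (Q := Q) T
  have h4 : ∀ v : Option (Fin 3), ∑ s ∈ range T, M.P.Pr (fun w => zt M Q s w ∧ Rn M Q v (nu M.toMS s w) w) ≤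
      (x + us * Nz M Q T + y * Nz M Q T) + (∑ q ∈ range T, M.P.Pr (ng0 M Q A v q) +
        ∑ q ∈ range T, M.P.Pr (fun w => af0 M Q A q w ∧ y < De0 M Q v q w) +
        M.P.Pr (fun w => Rn M Q v (nu M.toMS T w) w ∧ Z0 M Q T w)) := fun v => by
    have := h2 v
    have := h3 v
    have := hx v
    have := af0_le (M := M) (Q := Q) (A := A) H HS v hy T
    linarith
  have h5 := Finset.sum_le_sum fun (v : Option (Fin 3)) (_ : v ∈ univ) => h4 v
  rw [Finset.sum_add_distrib, Finset.sum_const, Finset.card_univ, Fintype.card_option, Fintype.card_fin,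
    nsmul_eq_mul] at h5
  push_cast at h5
  have h6 := mul_le_mul_of_nonneg_right hy0 N0
  have h7 := mul_le_mul_of_nonneg_right hus0 N0
  linarith

end

end Pool.Agent.GMH.UV
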