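import Pool.Agent.GMH.MV5U
import Pool.Agent.GMH.UnmP

/-!
# GMH/UnmAB (helper32): THE TWO THEORIES OF THE EXACT VERTICES (H3.MOV, M.10 (b), (c)) as two instances of `US`

`M : US`, `Q : Kd` : relations of the tables of `τ`.  STRETCHES BY THE STATUS ONLY (`GMH/MV5U`, threshold `yp`).
* `MA M yp H`, `QA M Q` : theory outside the stretches (lives `CA`, relations of the tables of `tauS`, blocked in the stretches);
* `MB M Q yp H`, `QB M Q K` : theory in the stretches (lives `CB`, relations without other vertices in `V`, blocked outside the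
  stretches, after a decision by `A` and in the zone of `A`); `K` : the vertices which are not in `V` in the relation of the public
  tables;
* `seenA`, `seenB`, `prvA`, `prvB` : the hypotheses of `GMH/Unm`; `excl`, `zexcl`, `zb` : the decisions and the zones exclude
  each other; `blkA_iff`, `blkB_iff`, `some_ex` : what is blocked, one theory is always outside its extra block;
* `EnAB` : the removals; `OkAB` : the good tuples; `stcA`, `stcB`, `okA`, `okB`; `StB` : the good tuples of `B` (priority of `A`);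
* **`rels_AB`**, **`signed_AB`** : the releases are those of `A` and those of `B`;
* `bit_cnt`, `z_cnt` : the numbers of the removals with a bit; `pair_le`, `zone_le` : another vertex in `V` at the decided public
  removals; `afvA_le`, `afvB_le` : a-free ends; `stN_le` : the number of the stretches; `cross_le`, `ngvB_le`, `lost0_StB` : the
  priority of `A`.
-/

set_option autoImplicit false
set_option linter.unusedSectionVars false
set_option linter.unusedVariables false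

namespace Pool.Agent.GMH.AB

open Finset Pool.Agent.PWZ Pool.Agent.M3 Pool.Agent.GMH.TD Pool.Agent.GMH.CK Pool.Agent.GMH.MV Pool.Agent.GMH.UV
open Pool.Agent.GMH.Str Pool.Agent.GMH.SU

noncomputable section

variable {Om : Type} [Fintype Om]

/-- the relations of the kind at the exact vertices -/
def GQ (Q : Kd Om) : Pm Om := ⟨fun v τ w => v ∈ Q.Vk ∧ Q.kv (some v) τ w, Q.al, Q.hal⟩

variable (M : US Om) (Q : Kd Om) (yp : ℝ) (K : Finset (Fin 3))

/-- **THEORY A** -/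
def MA (H : Seen M) : US Om :=
  { M with
    Cv := CA M yp
    ex := fun _ s w => iS M yp s w
    exS := fun v s _ _ e => propext (iS_Sv H v s e)
    ex0 := fun s w => iS M yp s w
    exS0 := fun s _ _ e => propext (iS_S H s e) }

/-- relations of `A` -/
def QA : Kd Om where
  kd := fun o τ w => match o with
    | none => Q.kd none τ w
    | some v => Q.kd (some v) (tauS M.toMS v τ w) w ∧ Q.al τ w
  kv := fun o τ w => match o with
    | none => Q.kv none τ w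
    | some v => Q.kv (some v) (tauS M.toMS v τ w) w ∧ Q.al τ w
  psi := fun o τ w => match o with
    | none => Q.psi none τ w
    | some v => Q.psi (some v) (tauS M.toMS v τ w) w
  Vk := Q.Vk
  uB := Q.uB
  u0 := Q.u0
  hkv := fun v hv _ w h => ⟨Q.hkv v hv _ w h.1, h.2⟩
  hkn := fun τ w h => Q.hkn τ w h
  al := Q.al
  hal := Q.hal
  kz := fun v τ w => Q.kz v (tauS M.toMS v τ w) w ∧ Q.al τ w
  hkz := fun v hv _ w h => ⟨Q.hkz v hv _ w h.1, h.2⟩
  hzv := fun v hv _ w h => ⟨Q.hzv v hv _ w h.1, h.2⟩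

theorem seenA (H : Seen M) : Seen (MA M yp H) :=
  ⟨fun v s => CA_S H v s, H.nu⟩

/-- **THEORY B** -/
def MB (H : Seen M) : US Om :=
  { M with
    Cv := CB M
    ex := fun v s w => ¬ iS M yp s w ∨ (bet (MA M yp H) (QA M Q) v s w ∨
      blk (MA M yp H) (QA M Q) v s w)
    exS := fun v s _ _ e => propext (or_congr (not_congr (iS_Sv H v s e)) (or_congr
      (bet_S (seenA M yp H) v le_rfl e) (blk_S (seenA M yp H) v le_rfl e)))
    ex0 := fun s w => ¬ iS M yp s w ∨ Z0 (MA M yp H) (QA M Q) s w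
    exS0 := fun s _ _ e => propext (or_congr (not_congr (iS_S H s e)) (Z0_S (seenA M yp H) le_rfl e)) }

/-- relations of `B` -/
def QB : Kd Om where
  kd := fun o τ w => match o with
    | none => Q.kd none τ w ∧ ∀ u ∈ K, ¬ sts M.toMS u τ w
    | some v => (Q.kd (some v) (tauS M.toMS v τ w) w ∧ Q.al τ w) ∧ nV M v τ w
  kv := fun o τ w => match o with
    | none => Q.kv none τ w ∧ ∀ u ∈ K, ¬ sts M.toMS u τ w
    | some v => (Q.kv (some v) (tauS M.toMS v τ w) w ∧ Q.al τ w) ∧ nV M v τ w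
  psi := fun o τ w => match o with
    | none => Q.psi none τ w
    | some v => Q.psi (some v) (tauS M.toMS v τ w) w
  Vk := Q.Vk
  uB := Q.uB
  u0 := Q.u0
  hkv := fun v hv _ w h => ⟨⟨Q.hkv v hv _ w h.1.1, h.1.2⟩, h.2⟩
  hkn := fun τ w h => ⟨Q.hkn τ w h.1, h.2⟩
  al := Q.al
  hal := Q.hal
  kz := fun v τ w => (Q.kz v (tauS M.toMS v τ w) w ∧ Q.al τ w) ∧ nV M v τ w
  hkz := fun v hv _ w h => ⟨⟨Q.hkz v hv _ w h.1.1, h.1.2⟩, h.2⟩
  hzv := fun v hv _ w h => ⟨⟨Q.hzv v hv _ w h.1.1, h.1.2⟩, h.2⟩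

theorem seenB (H : Seen M) : Seen (MB M Q yp H) :=
  ⟨fun v s => CB_S H v s, H.nu⟩

/-- the relations with the own status: the exact vertex is not in `V` -/
def Qn : Kd Om where
  kd := fun o τ w => match o with
    | none => Q.kd none τ w
    | some v => Q.kd (some v) τ w ∧ ¬ sts M.toMS v τ w
  kv := fun o τ w => match o with
    | none => Q.kv none τ w
    | some v => Q.kv (some v) τ w ∧ ¬ sts M.toMS v τ w
  psi := Q.psi
  Vk := Q.Vk
  uB := Q.uB
  u0 := Q.u0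
  hkv := fun v hv _ w h => ⟨Q.hkv v hv _ w h.1, h.2⟩
  hkn := fun τ w h => Q.hkn τ w h
  al := Q.al
  hal := Q.hal
  kz := fun v τ w => Q.kz v τ w ∧ ¬ sts M.toMS v τ w
  hkz := fun v hv _ w h => ⟨Q.hkz v hv _ w h.1, h.2⟩
  hzv := fun v hv _ w h => ⟨Q.hzv v hv _ w h.1, h.2⟩

/-! ## the clocks -/

section clocks

variable {M Q yp K}

/-- start of the life of `A` -/
theorem tvA_def (H : Seen M) (v : Fin 3) (s : ℕ) (w : Om) :
    tv (MA M yp H) v s w = stg (CA M yp v) s w := rfl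

theorem tvB_def (H : Seen M) (v : Fin 3) (s : ℕ) (w : Om) : tv (MB M Q yp H) v s w = stg (CB M v) s w := rfl

theorem tau_A (H : Seen M) (v : Fin 3) (s : ℕ) (w : Om) :
    tauS M.toMS v s w ≤ tv (MA M yp H) v s w := CS_CA v s w

theorem A_B (H : Seen M) (v : Fin 3) (s : ℕ) (w : Om) :
    tv (MA M yp H) v s w ≤ tv (MB M Q yp H) v s w := CA_CB v s w

theorem nu_B (H : Seen M) (v : Fin 3) (s : ℕ) (w : Om) :
    nu M.toMS s w ≤ tv (MB M Q yp H) v s w := jn_le_right s w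

/-- the tables of the life of `A` -/
theorem tauS_A (H : Seen M) (v : Fin 3) (s : ℕ) (w : Om) :
    tauS M.toMS v (tv (MA M yp H) v s w) w = tauS M.toMS v s w :=
  stg_mid rfl (tau_A H v s w) (stg_le _ _)

theorem tauS_B (H : Seen M) (v : Fin 3) (s : ℕ) (w : Om) :
    tauS M.toMS v (tv (MB M Q yp H) v s w) w = tauS M.toMS v s w :=
  stg_mid rfl ((tau_A H v s w).trans (A_B H v s w)) (stg_le _ _)

theorem nu_tvB (H : Seen M) (v : Fin 3) (s : ℕ) (w : Om) :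
    nu M.toMS (tv (MB M Q yp H) v s w) w = nu M.toMS s w :=
  stg_mid rfl (nu_B H v s w) (stg_le _ _)

theorem nV_ep (v : Fin 3) (w : Om) (s s' : ℕ) (e : nu M.toMS s w = nu M.toMS s' w) : nV M v s w ↔ nV M v s' w := by
  unfold nV
  exact forall_congr' fun u => forall_congr' fun _ => not_congr (sts_ep u w s s' e)

/-- alive is decreasing -/
theorem Qal_le {s s' : ℕ} (h : s ≤ s') {w : Om} (ha : Q.al s' w) : Q.al s w := by
  induction s', h using Nat.le_induction with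
  | base => exact ha
  | succ k _ ih => exact ih (Q.hal k w ha)

/-- the density of `B` -/
theorem MxB_eq (H : Seen M) {v : Fin 3} (hv : v ∈ Q.Vk) (s : ℕ) (w : Om) :
    Mx (MB M Q yp H) (QB M Q K) v s w = dn M.P (M.S {v}) (RV M (GQ Q) v) s w := by
  unfold Mx dn
  refine Gdy.ce_congr_on fun u _ e => ?_
  have h1 : tv (MB M Q yp H) v s u = tv (MB M Q yp H) v s w := (seenB M Q yp H).tau v s u w e
  show ind ((Q.kv (some v) (tauS M.toMS v (tv (MB M Q yp H) v s w) u) u ∧ Q.al (tv (MB M Q yp H) v s w) u) ∧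
      nV M v (tv (MB M Q yp H) v s w) u) =
    ind (((v ∈ Q.Vk ∧ Q.kv (some v) (tauS M.toMS v s u) u) ∧ Q.al (tv (MB M Q yp H) v s u) u) ∧ nV M v s u)
  rw [← h1, tauS_B, propext (nV_ep v u _ _ (nu_tvB H v s u))]
  congr 1
  exact propext ⟨fun h => ⟨⟨⟨hv, h.1.1⟩, h.1.2⟩, h.2⟩, fun h => ⟨⟨h.1.1.2, h.1.2⟩, h.2⟩⟩

theorem Mx_BA (H : Seen M) (v : Fin 3) (s : ℕ) (w : Om) :
    Mx (MB M Q yp H) (QB M Q K) v s w ≤ Mx (MA M yp H) (QA M Q) v s w := by
  have e1 : Mx (MA M yp H) (QA M Q) v s w = M.P.ce (M.S {v} s) (fun u => ind (Q.kv (some v) (tauS M.toMS v s u) u ∧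
      Q.al (tv (MA M yp H) v s u) u)) w := by
    unfold Mx
    refine Gdy.ce_congr_on fun u _ e => ?_
    have h1 : tv (MA M yp H) v s u = tv (MA M yp H) v s w := (seenA M yp H).tau v s u w e
    show ind (Q.kv (some v) (tauS M.toMS v (tv (MA M yp H) v s w) u) u ∧ Q.al (tv (MA M yp H) v s w) u) =
      ind (Q.kv (some v) (tauS M.toMS v s u) u ∧ Q.al (tv (MA M yp H) v s u) u)
    rw [← h1, tauS_A]
  have e2 : Mx (MB M Q yp H) (QB M Q K) v s w =
      M.P.ce (M.S {v} s) (fun u => ind ((Q.kv (some v) (tauS M.toMS v s u) u ∧ Q.al (tv (MB M Q yp H) v s u) u) ∧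
        nV M v s u)) w := by
    unfold Mx
    refine Gdy.ce_congr_on fun u _ e => ?_
    have h1 : tv (MB M Q yp H) v s u = tv (MB M Q yp H) v s w := (seenB M Q yp H).tau v s u w e
    show ind ((Q.kv (some v) (tauS M.toMS v (tv (MB M Q yp H) v s w) u) u ∧ Q.al (tv (MB M Q yp H) v s w) u) ∧
        nV M v (tv (MB M Q yp H) v s w) u) =
      ind ((Q.kv (some v) (tauS M.toMS v s u) u ∧ Q.al (tv (MB M Q yp H) v s u) u) ∧ nV M v s u)
    rw [← h1, tauS_B, propext (nV_ep v u _ _ (nu_tvB H v s u))]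
  rw [e1, e2]
  exact M.P.ce_mono (fun u _ => ind_mono fun h => ⟨h.1.1, Qal_le (A_B H v s u) h.1.2⟩) w

theorem M0_BA (H : Seen M) (s : ℕ) (w : Om) :
    M0 (MB M Q yp H) (QB M Q K) s w ≤ M0 (MA M yp H) (QA M Q) s w := by
  unfold M0
  refine sum_le_sum fun o _ => M.P.ce_mono (fun u _ => ind_mono fun h => ?_) w
  rcases o with _ | v
  · exact h.1
  · have h1 : ((Q.kv (some v) (tauS M.toMS v (tv (MB M Q yp H) v (nu M.toMS s w) u) u) u ∧
        Q.al (tv (MB M Q yp H) v (nu M.toMS s w) u) u) ∧ nV M v (tv (MB M Q yp H) v (nu M.toMS s w) u) u) ∧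
        Q.al (nu M.toMS s w) u := h
    show (Q.kv (some v) (tauS M.toMS v (tv (MA M yp H) v (nu M.toMS s w) u) u) u ∧
      Q.al (tv (MA M yp H) v (nu M.toMS s w) u) u) ∧ Q.al (nu M.toMS s w) u
    rw [tauS_A]
    rw [tauS_B] at h1
    exact ⟨⟨h1.1.1.1, Qal_le (A_B H v _ u) h1.1.1.2⟩, h1.2⟩

/-! ### the decisions and the zones -/

/-- in a public epoch a stretch does not stop -/
theorem iS_ep {j s : ℕ} {w : Om} (h1 : nu M.toMS s w ≤ j) (h2 : j ≤ s) (hi : iS M yp j w) :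
    iS M yp s w := inS_mono h1 h2 hi

theorem Z0_mono {M : US Om} {Q : Kd Om} {j s : ℕ} {w : Om} (h1 : nu M.toMS s w ≤ j) (h2 : j ≤ s) (h : Z0 M Q j w) :
    Z0 M Q s w := by
  obtain ⟨r, a, b, c⟩ := h
  have e : nu M.toMS j w = nu M.toMS s w := stg_mid rfl h1 h2
  exact ⟨r, by rw [← e]; exact a, b.trans h2, c⟩

theorem prvA (H : Seen M) : Prv (MA M yp H) (QA M Q) where
  pv := fun w _ v s h1 h2 h3 => absurd (CA_mono v (s - 1) s w (by have := tvA_def (yp := yp) H v s w; omega)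
    (Nat.sub_le s 1) h3) h2
  p0 := fun w _ s h1 h2 h3 => absurd (iS_ep (by
    have : nu (MA M yp H).toMS s w = nu M.toMS s w := rfl
    omega) (Nat.sub_le s 1) h3) h2
  xz := fun _ _ _ _ h _ => h

theorem prvB (H : Seen M) : Prv (MB M Q yp H) (QB M Q K) where
  xz := by
    intro w _ v s h2 h1
    have h2' := not_or.1 h2
    have h3 := not_or.1 h2'.2
    rintro (h4 | h4)
    · exact h2'.1 h4
    · exact h3.2 ⟨h4, (A_B H v s w).trans h1⟩
  pv := by
    intro w _ v s h1 h2 h3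
    have h2' := not_or.1 h2
    have h4 := not_or.1 h2'.2
    have hB : tv (MB M Q yp H) v s w ≤ s - 1 := by omega
    have hA : tv (MA M yp H) v s w ≤ s - 1 := (A_B H v s w).trans hB
    have hn : nu M.toMS s w ≤ s - 1 := (nu_B H v s w).trans hB
    have eA : tv (MA M yp H) v (s - 1) w = tv (MA M yp H) v s w := stg_mid rfl hA (Nat.sub_le s 1)
    have en : nu M.toMS (s - 1) w = nu M.toMS s w := stg_mid rfl hn (Nat.sub_le s 1)
    have k1 : ¬ bet (MA M yp H) (QA M Q) v (s - 1) w := fun h => h4.1 (bet_mono (Nat.sub_le s 1) eA.symm h)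
    have k2 : ¬ blk (MA M yp H) (QA M Q) v (s - 1) w := by
      rintro ⟨h5, h6⟩
      refine h4.2 ⟨Z0_mono hn (Nat.sub_le s 1) h5, ?_⟩
      rw [← eA]
      exact h6.trans (le_of_eq en)
    rcases h3 with h3 | h3 | h3
    · refine lt_of_le_of_lt (Mx_BA H v (s - 1) w) ?_
      by_contra h5
      exact k1 ⟨s - 1, stg_le _ _, le_rfl, not_lt.1 h5, k2, h3⟩
    · exact absurd h3 k1
    · exact absurd h3 k2
  p0 := by
    intro w _ s h1 h2 h3
    have h2' := not_or.1 h2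
    have hn : nu M.toMS s w ≤ s - 1 := by
      have : nu (MB M Q yp H).toMS s w = nu M.toMS s w := rfl
      omega
    have k : ¬ Z0 (MA M yp H) (QA M Q) (s - 1) w := fun h => h2'.2 (Z0_mono hn (Nat.sub_le s 1) h)
    rcases h3 with h3 | h3
    · refine lt_of_le_of_lt (M0_BA H (s - 1) w) ?_
      by_contra h5
      exact k ⟨s - 1, stg_le _ _, le_rfl, not_lt.1 h5, h3⟩
    · exact absurd h3 k

/-- **THE TWO DECISIONS EXCLUDE EACH OTHER** -/
theorem excl (H : Seen M) {v : Fin 3} {q : ℕ} {w : Om} (hb : bet (MB M Q yp H) (QB M Q K) v q w) :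
    ¬ bet (MA M yp H) (QA M Q) v q w := by
  rintro ⟨s', a, b, c⟩
  obtain ⟨s, a1, b1, c1⟩ := hb
  have h1 := not_or.1 c1.2.2
  have h2 := not_or.1 h1.2
  rcases le_or_gt s' s with h3 | h3
  · refine h2.1 ⟨s', ?_, h3, c⟩
    have e : tv (MA M yp H) v s w = tv (MA M yp H) v q w := stg_mid rfl ((A_B H v q w).trans a1) b1
    rw [e]
    exact a
  · refine c.2.2 (CB_mono v s s' w ?_ h3.le (not_not.1 h1.1))
    have e : tv (MB M Q yp H) v s' w = tv (MB M Q yp H) v q w := stg_mid rfl (a1.trans h3.le) b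
    show tv (MB M Q yp H) v s' w ≤ s
    rw [e]
    exact a1

/-- **THE TWO ZONES EXCLUDE EACH OTHER** -/
theorem zexcl (H : Seen M) {q : ℕ} {w : Om} (hb : Z0 (MB M Q yp H) (QB M Q K) q w) :
    ¬ Z0 (MA M yp H) (QA M Q) q w := by
  rintro ⟨s', a, b, c⟩
  obtain ⟨s, a1, b1, c1⟩ := hb
  have h1 := not_or.1 c1.2
  have a' : nu M.toMS q w ≤ s' := a
  have a1' : nu M.toMS q w ≤ s := a1
  have e1 : nu M.toMS s w = nu M.toMS q w := stg_mid rfl a1' b1
  have e2 : nu M.toMS s' w = nu M.toMS q w := stg_mid rfl a' b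
  rcases le_or_gt s' s with h3 | h3
  · exact h1.2 ⟨s', e1.le.trans a', h3, c⟩
  · exact c.2 (iS_ep (e2.le.trans a1') h3.le (not_not.1 h1.1))

/-- a life decided by `B` (of the public start) is not in the zone of `A` -/
theorem zb (H : Seen M) {v : Fin 3} {q : ℕ} {w : Om} (hb : bet (MB M Q yp H) (QB M Q K) v q w)
    (hq : tv (MB M Q yp H) v q w ≤ nu M.toMS q w) : ¬ Z0 (MA M yp H) (QA M Q) q w := by
  rintro ⟨s', a, b, c⟩
  obtain ⟨s, a1, b1, c1⟩ := hb
  have h1 := not_or.1 c1.2.2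
  have h2 := not_or.1 h1.2
  have a' : nu M.toMS q w ≤ s' := a
  have a1' : nu M.toMS q w ≤ s := (nu_B H v q w).trans a1
  have e1 : nu M.toMS s w = nu M.toMS q w := stg_mid rfl a1' b1
  have e2 : nu M.toMS s' w = nu M.toMS q w := stg_mid rfl a' b
  rcases le_or_gt s' s with h3 | h3
  · refine h2.2 ⟨⟨s', e1.le.trans a', h3, c⟩, ?_⟩
    have e : tv (MA M yp H) v s w = tv (MA M yp H) v q w := stg_mid rfl ((A_B H v q w).trans a1) b1
    rw [e]
    exact ((A_B H v q w).trans hq).trans e1.ge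
  · exact c.2 (iS_ep (e2.le.trans a1') h3.le (not_not.1 h1.1))

/-- decided by `A` in a stretch: decided before it -/
theorem bet_stretch (H : Seen M) {v : Fin 3} {s q : ℕ} {w : Om} (h1 : nu M.toMS q w ≤ s) (h2 : s ≤ q)
    (h3 : tv (MA M yp H) v q w ≤ s) (hi : iS M yp s w) (hb : bet (MA M yp H) (QA M Q) v q w) :
    bet (MA M yp H) (QA M Q) v s w := by
  obtain ⟨s', a, b, c⟩ := hb
  rcases le_or_gt s' s with h4 | h4
  · refine ⟨s', ?_, h4, c⟩
    have e : tv (MA M yp H) v s w = tv (MA M yp H) v q w := stg_mid rfl h3 h2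
    rw [e]
    exact a
  · refine absurd (iS_ep ?_ h4.le hi) c.2.2
    have e2 : nu M.toMS s' w = nu M.toMS q w := stg_mid rfl (h1.trans h4.le) b
    rw [e2]
    exact h1

end clocks

/-! ## the releases -/

section rel

variable (A : Stps (Om := Om))

/-- the bit of the vertex -/
def btAB (H : Seen M) (v : Fin 3) (q : ℕ) (w : Om) : Prop :=
  bet (MA M yp H) (QA M Q) v q w ∨ bet (MB M Q yp H) (QB M Q K) v q w

/-- the bit of the node -/
def zAB (H : Seen M) (q : ℕ) (w : Om) : Prop :=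
  Z0 (MA M yp H) (QA M Q) q w ∨ Z0 (MB M Q yp H) (QB M Q K) q w

/-- released by the theory `A` at a public removal -/
def hasA (H : Seen M) (q : ℕ) (w : Om) : Prop :=
  Z0 (MA M yp H) (QA M Q) q w ∨ ∃ v ∈ Q.Vk, bet (MA M yp H) (QA M Q) v q w

/-- the good tuples of `B` (priority of `A` at the public removals) -/
def StB (H : Seen M) : Stps (Om := Om) where
  rp := A.rp
  ru := A.ru
  gd := fun q w => A.gd q w ∧ (A.ru q w → ¬ hasA M Q yp H q w)
  g := A.g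

/-- **THE RELEASES OF THE RUN** -/
def rlAB (H : Seen M) (q : ℕ) (w : Om) : ℝ :=
  ∑ v ∈ Q.Vk, ind (A.gd q w ∧ A.rp v q w ∧ btAB M Q yp K H v q w) +
    ind (A.gd q w ∧ A.ru q w ∧ (zAB M Q yp K H q w ∨ ∃ v ∈ Q.Vk, btAB M Q yp K H v q w))

variable {M Q yp K A}

theorem btAB_S (H : Seen M) (v : Fin 3) {s s' : ℕ} (h : s ≤ s') {a b : Om} (e : M.S {v} s' a = M.S {v} s' b) :
    btAB M Q yp K H v s a ↔ btAB M Q yp K H v s b :=
  or_congr (bet_S (seenA M yp H) v h e) (bet_S (seenB M Q yp H) v h e)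

theorem zAB_S (H : Seen M) {s s' : ℕ} (h : s ≤ s') {a b : Om} (e : M.S ∅ s' a = M.S ∅ s' b) :
    zAB M Q yp K H s a ↔ zAB M Q yp K H s b :=
  or_congr (Z0_S (seenA M yp H) h e) (Z0_S (seenB M Q yp H) h e)

/-- **THE RELEASES ARE THOSE OF `A` AND THOSE OF `B`** -/
theorem rels_AB (H : Seen M) {w : Om} (hd : ∀ v q, A.rp v q w → ¬ A.ru q w) (q : ℕ) :
    rlAB M Q yp K A H q w = rels (MA M yp H) (QA M Q) A q w +
      rels (MB M Q yp H) (QB M Q K) (StB M Q yp A H) q w := by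
  classical
  unfold rlAB rels
  have e1 : ∀ v, ind (A.gd q w ∧ A.rp v q w ∧ btAB M Q yp K H v q w) =
      ind (relp (MA M yp H) (QA M Q) A v q w) +
        ind (relp (MB M Q yp H) (QB M Q K) (StB M Q yp A H) v q w) := by
    intro v
    by_cases h1 : A.gd q w ∧ A.rp v q w
    · by_cases h2 : bet (MB M Q yp H) (QB M Q K) v q w
      · have h3 := excl H h2
        rw [ind_of (show A.gd q w ∧ A.rp v q w ∧ btAB M Q yp K H v q w from ⟨h1.1, h1.2, Or.inr h2⟩),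
          ind_not (fun h => h3 h.2.2 : ¬ relp (MA M yp H) (QA M Q) A v q w),
          ind_of (show relp (MB M Q yp H) (QB M Q K) (StB M Q yp A H) v q w from
            ⟨⟨h1.1, fun h => absurd h (hd v q h1.2)⟩, h1.2, h2⟩)]
        norm_num
      · rw [ind_not (fun h => h2 h.2.2 : ¬ relp (MB M Q yp H) (QB M Q K) (StB M Q yp A H) v q w), add_zero]
        congr 1
        exact propext ⟨fun h => ⟨h.1, h.2.1, h.2.2.resolve_right h2⟩, fun h => ⟨h.1, h.2.1, Or.inl h.2.2⟩⟩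
    · rw [ind_not (fun h => h1 ⟨h.1, h.2.1⟩ : ¬ (A.gd q w ∧ A.rp v q w ∧ btAB M Q yp K H v q w)),
        ind_not (fun h => h1 ⟨h.1, h.2.1⟩ : ¬ relp (MA M yp H) (QA M Q) A v q w),
        ind_not (fun h => h1 ⟨h.1.1, h.2.1⟩ : ¬ relp (MB M Q yp H) (QB M Q K) (StB M Q yp A H) v q w), add_zero]
  have e2 : ind (A.gd q w ∧ A.ru q w ∧ (zAB M Q yp K H q w ∨ ∃ v ∈ Q.Vk, btAB M Q yp K H v q w)) =
      ind (relu (MA M yp H) (QA M Q) A q w) +
        ind (relu (MB M Q yp H) (QB M Q K) (StB M Q yp A H) q w) := by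
    by_cases h1 : A.gd q w ∧ A.ru q w
    · by_cases h2 : hasA M Q yp H q w
      · rw [ind_of (show A.gd q w ∧ A.ru q w ∧ (zAB M Q yp K H q w ∨ ∃ v ∈ Q.Vk, btAB M Q yp K H v q w) from
          ⟨h1.1, h1.2, h2.imp (fun h => Or.inl h) fun ⟨v, hv, h⟩ => ⟨v, hv, Or.inl h⟩⟩),
          ind_of (show relu (MA M yp H) (QA M Q) A q w from ⟨h1.1, h1.2, h2⟩),
          ind_not (fun h => h.1.2 h1.2 h2 : ¬ relu (MB M Q yp H) (QB M Q K) (StB M Q yp A H) q w), add_zero]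
      · rw [ind_not (fun h => h2 h.2.2 : ¬ relu (MA M yp H) (QA M Q) A q w), zero_add]
        congr 1
        refine propext ⟨fun h => ⟨⟨h.1, fun _ => h2⟩, h.2.1, ?_⟩, fun h => ⟨h.1.1, h.2.1, ?_⟩⟩
        · rcases h.2.2 with h3 | ⟨v, hv, h3⟩
          · exact Or.inl (h3.resolve_left fun h => h2 (Or.inl h))
          · exact Or.inr ⟨v, hv, h3.resolve_left fun h => h2 (Or.inr ⟨v, hv, h⟩)⟩
        · exact h.2.2.imp (fun h => Or.inr h) fun ⟨v, hv, h⟩ => ⟨v, hv, Or.inr h⟩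
    · rw [ind_not (fun h => h1 ⟨h.1, h.2.1⟩ : ¬ (A.gd q w ∧ A.ru q w ∧
          (zAB M Q yp K H q w ∨ ∃ v ∈ Q.Vk, btAB M Q yp K H v q w))),
        ind_not (fun h => h1 ⟨h.1, h.2.1⟩ : ¬ relu (MA M yp H) (QA M Q) A q w),
        ind_not (fun h => h1 ⟨h.1.1, h.2.1⟩ : ¬ relu (MB M Q yp H) (QB M Q K) (StB M Q yp A H) q w), add_zero]
  have e3 : ∑ v ∈ Q.Vk, ind (A.gd q w ∧ A.rp v q w ∧ btAB M Q yp K H v q w) =
      ∑ v ∈ (QA M Q).Vk, ind (relp (MA M yp H) (QA M Q) A v q w) +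
        ∑ v ∈ (QB M Q K).Vk, ind (relp (MB M Q yp H) (QB M Q K) (StB M Q yp A H) v q w) := by
    show _ = ∑ v ∈ Q.Vk, _ + ∑ v ∈ Q.Vk, _
    rw [← sum_add_distrib]
    exact sum_congr rfl fun v _ => e1 v
  rw [e2, e3]
  ring

end rel

/-! ## the hypotheses of the two theories -/

section ok

variable {M Q yp K} {A : Stps (Om := Om)} {δ : ℝ}

/-- what is assumed about the removals -/
structure EnAB (M : US Om) (A : Stps (Om := Om)) : Prop where
  endp : ∀ w, M.P.p w ≠ 0 → ∀ v q, A.rp v q w → tau M.toMS v (q + 1) w = q + 1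
  endu : ∀ w, M.P.p w ≠ 0 → ∀ v q, A.ru q w → tau M.toMS v (q + 1) w = q + 1
  end0 : ∀ w, M.P.p w ≠ 0 → ∀ q, A.ru q w → nu M.toMS (q + 1) w = q + 1
  disj : ∀ w, M.P.p w ≠ 0 → ∀ v q, A.rp v q w → ¬ A.ru q w

/-- what is assumed about the removals and the good tuples; the bits are those of the run -/
structure OkAB (M : US Om) (Q : Kd Om) (yp : ℝ) (K : Finset (Fin 3)) (A : Stps (Om := Om)) (H : Seen M) (δ : ℝ) : Prop
    extends EnAB M A where
  gdv : ∀ w, M.P.p w ≠ 0 → ∀ v ∈ Q.Vk, ∀ q, A.gd q w → (A.rp v q w ∨ A.ru q w) →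
    (btAB M Q yp K H v q w ∨ zAB M Q yp K H q w) → Q.kd (some v) (tauS M.toMS v q w) w
  gda : ∀ w, M.P.p w ≠ 0 → ∀ q, A.gd q w → ((∃ v, A.rp v q w) ∨ A.ru q w) → Q.al q w
  gdp : ∀ w, M.P.p w ≠ 0 → ∀ v ∈ Q.Vk, ∀ q, A.gd q w → (A.rp v q w ∨ A.ru q w) → btAB M Q yp K H v q w →
    A.g q w ≤ Q.psi (some v) (tauS M.toMS v q w) w + δ
  gd0 : ∀ w, M.P.p w ≠ 0 → ∀ q, A.gd q w → A.ru q w → zAB M Q yp K H q w → Q.kd none (nu M.toMS q w) w
  gdp0 : ∀ w, M.P.p w ≠ 0 → ∀ q, A.gd q w → A.ru q w → zAB M Q yp K H q w →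
    A.g q w ≤ Q.psi none (nu M.toMS q w) w + δ
  lst : ∀ w, M.P.p w ≠ 0 → ∀ v ∈ Q.Vk, ∀ q, A.gd q w → A.ru q w → tauS M.toMS v q w ≤ nu M.toMS q w
  nov : ∀ w, M.P.p w ≠ 0 → ∀ v ∈ Q.Vk, ∀ q, A.gd q w → (A.rp v q w ∨ A.ru q w) →
    (btAB M Q yp K H v q w ∨ zAB M Q yp K H q w) → nV M v q w
  no0 : ∀ w, M.P.p w ≠ 0 → ∀ q, A.gd q w → A.ru q w → zAB M Q yp K H q w → ∀ u ∈ K, ¬ sts M.toMS u q w

theorem endA (H : Seen M) {v : Fin 3} {q : ℕ} {w : Om} (e : tau M.toMS v (q + 1) w = q + 1) :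
    tv (MA M yp H) v (q + 1) w = q + 1 :=
  stg_pos (C := CA M yp v) (Or.inl (CS_end e))

theorem endB (H : Seen M) {v : Fin 3} {q : ℕ} {w : Om} (e : tau M.toMS v (q + 1) w = q + 1) :
    tv (MB M Q yp H) v (q + 1) w = q + 1 :=
  stg_pos (C := CB M v) (Or.inl (CS_end e))

theorem lstB (H : Seen M) {v : Fin 3} {q : ℕ} {w : Om} (h : tauS M.toMS v q w ≤ nu M.toMS q w) :
    tv (MB M Q yp H) v q w ≤ nu M.toMS q w := by
  have h1 : tv (MB M Q yp H) v q w = max (tauS M.toMS v q w) (nu M.toMS q w) := jn_eq q w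
  rw [h1]
  exact max_le h le_rfl

theorem lstA (H : Seen M) {v : Fin 3} {q : ℕ} {w : Om} (h : tauS M.toMS v q w ≤ nu M.toMS q w) :
    tv (MA M yp H) v q w ≤ nu M.toMS q w :=
  (CA_CB v q w).trans ((jn_eq (C := CS M.toMS v) (C' := C0 M.toMS) q w).trans_le (max_le h le_rfl))

/-- the life of the clocks `CA`, `CB` is a life of the public start iff the one of `tauS` is -/
theorem lstA_iff (H : Seen M) {v : Fin 3} {q : ℕ} {w : Om} :
    tv (MA M yp H) v q w ≤ nu M.toMS q w ↔ tauS M.toMS v q w ≤ nu M.toMS q w :=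
  ⟨fun h => (tau_A H v q w).trans h, fun h => lstA H h⟩

theorem lstB_iff (H : Seen M) {v : Fin 3} {q : ℕ} {w : Om} :
    tv (MB M Q yp H) v q w ≤ nu M.toMS q w ↔ tauS M.toMS v q w ≤ nu M.toMS q w :=
  ⟨fun h => (tau_A H v q w).trans ((A_B H v q w).trans h), fun h => lstB H h⟩

theorem blkA_iff (H : Seen M) {v : Fin 3} {q : ℕ} {w : Om} : blk (MA M yp H) (QA M Q) v q w ↔
    Z0 (MA M yp H) (QA M Q) q w ∧ tauS M.toMS v q w ≤ nu M.toMS q w := and_congr_right fun _ => lstA_iff H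

theorem blkB_iff (H : Seen M) {v : Fin 3} {q : ℕ} {w : Om} : blk (MB M Q yp H) (QB M Q K) v q w ↔
    Z0 (MB M Q yp H) (QB M Q K) q w ∧ tauS M.toMS v q w ≤ nu M.toMS q w := and_congr_right fun _ => lstB_iff H

/-- **ONE THEORY IS OUTSIDE ITS EXTRA BLOCK**, if the vertex is neither decided nor blocked -/
theorem some_ex (H : Seen M) {v : Fin 3} {q : ℕ} {w : Om} (hb : ¬ bet (MA M yp H) (QA M Q) v q w)
    (hk : ¬ blk (MA M yp H) (QA M Q) v q w) : ¬ (MA M yp H).ex v q w ∨ ¬ (MB M Q yp H).ex v q w := by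
  by_cases hi : iS M yp q w
  · refine Or.inr ?_
    rintro (h | h | h)
    · exact h hi
    · exact hb h
    · exact hk h
  · exact Or.inl hi

theorem sts_nu (u : Fin 3) (q : ℕ) (w : Om) : sts M.toMS u (nu M.toMS q w) w ↔ sts M.toMS u q w :=
  sts_ep u w _ _ (stg_mid (C := C0 M.toMS) rfl le_rfl (stg_le _ _))

/-- the ends of `A` -/
theorem stcA (H : Seen M) (E : EnAB M A) : StpC (MA M yp H) A where
  endp := fun w hw v q h => endA H (E.endp w hw v q h)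
  endu := fun w hw v q h => endA H (E.endu w hw v q h)
  end0 := E.end0
  disj := E.disj

/-- the ends of `B` -/
theorem stcB (H : Seen M) (E : EnAB M A) : StpC (MB M Q yp H) A where
  endp := fun w hw v q h => endB H (E.endp w hw v q h)
  endu := fun w hw v q h => endB H (E.endu w hw v q h)
  end0 := E.end0
  disj := E.disj

/-- what the removals see -/
theorem stsA (H : Seen M) (HS : StS M A) : StS (MA M yp H) A := ⟨HS.ru, HS.rp, HS.ci⟩

theorem stsB (H : Seen M) (HS : StS M A) : StS (MB M Q yp H) A := ⟨HS.ru, HS.rp, HS.ci⟩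

theorem stsBp (H : Seen M) (HS : StS M A) : StS (MB M Q yp H) (StB M Q yp A H) := ⟨HS.ru, HS.rp, HS.ci⟩

/-- **THEORY A** -/
theorem okA (H : Seen M) (O : OkAB M Q yp K A H δ) : StpOK (MA M yp H) (QA M Q) A δ where
  toStpC := stcA H O.toEnAB
  gdv := fun w hw v hv q h hr hb => by
    show Q.kd (some v) (tauS M.toMS v (tv (MA M yp H) v q w) w) w ∧ Q.al (tv (MA M yp H) v q w) w
    rw [tauS_A]
    exact ⟨O.gdv w hw v hv q h hr (hb.imp (fun h => Or.inl h) fun h => Or.inl h), Qal_le (stg_le _ _)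
      (O.gda w hw q h (hr.imp (fun h => ⟨v, h⟩) id))⟩
  gdp := fun w hw v hv q h hr hb => by
    show A.g q w ≤ Q.psi (some v) (tauS M.toMS v (tv (MA M yp H) v q w) w) w + δ
    rw [tauS_A]
    exact O.gdp w hw v hv q h hr (Or.inl hb)
  gd0 := fun w hw q h hr hz => O.gd0 w hw q h hr (Or.inl hz)
  gdp0 := fun w hw q h hr hz => O.gdp0 w hw q h hr (Or.inl hz)
  gda := fun w hw q h hr => O.gda w hw q h hr
  exz := fun w _ v _ q s _ _ _ _ hz => hz.1.2
  lst := fun w hw v hv q h hr => lstA H (O.lst w hw v hv q h hr)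

/-- **THEORY B** -/
theorem okB (H : Seen M) (O : OkAB M Q yp K A H δ) :
    StpOK (MB M Q yp H) (QB M Q K) (StB M Q yp A H) δ where
  endp := fun w hw v q h => endB H (O.endp w hw v q h)
  endu := fun w hw v q h => endB H (O.endu w hw v q h)
  end0 := O.end0
  disj := O.disj
  gdv := fun w hw v hv q h hr hb => by
    have hb' : btAB M Q yp K H v q w ∨ zAB M Q yp K H q w := hb.imp (fun h => Or.inr h) fun h => Or.inr h
    show (Q.kd (some v) (tauS M.toMS v (tv (MB M Q yp H) v q w) w) w ∧ Q.al (tv (MB M Q yp H) v q w) w) ∧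
      nV M v (tv (MB M Q yp H) v q w) w
    rw [tauS_B, propext (nV_ep v w _ _ (nu_tvB H v q w))]
    exact ⟨⟨O.gdv w hw v hv q h.1 hr hb', Qal_le (stg_le _ _) (O.gda w hw q h.1 (hr.imp (fun h => ⟨v, h⟩) id))⟩,
      O.nov w hw v hv q h.1 hr hb'⟩
  gdp := fun w hw v hv q h hr hb => by
    show A.g q w ≤ Q.psi (some v) (tauS M.toMS v (tv (MB M Q yp H) v q w) w) w + δ
    rw [tauS_B]
    exact O.gdp w hw v hv q h.1 hr (Or.inr hb)
  gd0 := fun w hw q h hr hz => ⟨O.gd0 w hw q h.1 hr (Or.inr hz), fun u hu hh =>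
    O.no0 w hw q h.1 hr (Or.inr hz) u hu ((sts_nu u q w).1 hh)⟩
  gdp0 := fun w hw q h hr hz => O.gdp0 w hw q h.1 hr (Or.inr hz)
  gda := fun w hw q h hr => O.gda w hw q h.1 hr
  exz := by
    intro w hw v hv q s h hr h1 h2 hz
    have h3 := not_or.1 hz.1.2
    have hl : tv (MA M yp H) v q w ≤ nu M.toMS q w := lstA H (O.lst w hw v hv q h.1 hr)
    have h1' : nu M.toMS q w ≤ s := h1
    rintro (h4 | h4 | h4)
    · exact h3.1 h4
    · refine h.2 hr (Or.inr ⟨v, hv, bet_mono h2 ?_ h4⟩)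
      exact (stg_mid (C := CA M yp v) rfl (hl.trans h1') h2).symm
    · exact h3.2 h4.1
  lst := fun w hw v hv q h hr => lstB H (O.lst w hw v hv q h.1 hr)

/-- the lost zones of `B` are lost without the priority -/
theorem lost0_StB (H : Seen M) (O : OkAB M Q yp K A H δ) {q : ℕ} {w : Om} (hw : M.P.p w ≠ 0)
    (h : lost0 (MB M Q yp H) (QB M Q K) (StB M Q yp A H) q w) :
    lost0 (MB M Q yp H) (QB M Q K) A q w := by
  obtain ⟨a, b, ⟨s, c1, c2, c3, c4⟩, d⟩ := h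
  refine ⟨a, b, ⟨s, c1, c2, c3, c4⟩, ?_⟩
  by_contra h5
  push Not at h5
  obtain ⟨h6, h7⟩ := h5
  have c1' : nu M.toMS q w ≤ s := c1
  have h3 := not_or.1 c3.1.2
  rcases d with d | d
  · exact d h6
  · refine d ⟨h7, fun _ => ?_⟩
    rintro (h8 | ⟨v, hv, h8⟩)
    · exact zexcl H (K := K) (Z0_iff.2 ⟨s, c1, c2, c3⟩) h8
    · have h9 := not_or.1 (c4 v hv).2.1
      have h10 := not_or.1 h9.2
      refine h10.1 (bet_stretch H c1' c2 ?_ (not_not.1 h3.1) h8)
      exact (lstA H (O.lst w hw v hv q h7 h6)).trans c1'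

/-! ### the node densities before the zones -/

theorem M0A_lt (H : Seen M) {s s' : ℕ} {w : Om} (hz : ¬ Z0 (MA M yp H) (QA M Q) s w)
    (hi : ¬ iS M yp s w) (h1 : nu M.toMS s w ≤ s') (h2 : s' ≤ s) :
    M0 (MA M yp H) (QA M Q) s' w < Q.u0 := by
  by_contra h3
  refine hz ⟨s', h1, h2, not_lt.1 h3, fun h4 => hi (iS_ep h1 h2 h4)⟩

theorem M0B_lt (H : Seen M) {s s' : ℕ} {w : Om} (hA : ¬ Z0 (MA M yp H) (QA M Q) s w)
    (hB : ¬ Z0 (MB M Q yp H) (QB M Q K) s w) (h1 : nu M.toMS s w ≤ s') (h2 : s' ≤ s) :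
    M0 (MB M Q yp H) (QB M Q K) s' w < Q.u0 := by
  by_contra h3
  have h4 : M.P.p w = M.P.p w := rfl
  by_cases hi : iS M yp s' w
  · refine hB ⟨s', h1, h2, not_lt.1 h3, ?_⟩
    rintro (h5 | h5)
    · exact h5 hi
    · exact hA (Z0_mono h1 h2 h5)
  · exact hA ⟨s', h1, h2, (not_lt.1 h3).trans (M0_BA H s' w), hi⟩

/-- at `T^v` of `A`, life of the public start -/
theorem aloA (H : Seen M) {v : Fin 3} {s s' : ℕ} {w : Om} (ht : tkx (MA M yp H) (QA M Q) v s w)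
    (hl : tv (MA M yp H) v s w ≤ nu M.toMS s w) (h1 : nu M.toMS s w ≤ s') (h2 : s' ≤ s) :
    M0 (MA M yp H) (QA M Q) s' w < Q.u0 :=
  M0A_lt H (fun hz => ht.1.2.1 ⟨hz, hl⟩) ht.1.2.2 h1 h2

/-- at `T^v` of `B`, life of the public start -/
theorem aloB (H : Seen M) {v : Fin 3} {s s' : ℕ} {w : Om} (ht : tkx (MB M Q yp H) (QB M Q K) v s w)
    (hl : tv (MB M Q yp H) v s w ≤ nu M.toMS s w) (h1 : nu M.toMS s w ≤ s') (h2 : s' ≤ s) :
    M0 (MB M Q yp H) (QB M Q K) s' w < Q.u0 := by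
  have h3 := not_or.1 ht.1.2.2
  have h4 := not_or.1 h3.2
  exact M0B_lt H (fun hz => h4.2 ⟨hz, (A_B H v s w).trans hl⟩) (fun hz => ht.1.2.1 ⟨hz, hl⟩) h1 h2

end ok

/-! ## the further lost lives -/

section lost

variable {M Q yp K} {A : Stps (Om := Om)} {δ : ℝ} {T : ℕ} {h : ℝ}

/-- the hypotheses of the sums over the stretches -/
theorem rvok (E : EnAB M A) (HS : StS M A)
    (hm : ∀ s < T, ∀ w, M.P.p w ≠ 0 → M.P.m (M.S ∅ s) w ≤ h * M.P.m (M.S ∅ (s + 1)) w) : RvOK M A.ru A.rp T h where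
  ruS := HS.ru
  rpS := HS.rp
  ru0 := fun s _ w hw e => E.end0 w hw s e
  ruv := fun v s _ w hw e => E.endu w hw v s e
  rpv := fun v s _ w hw e => E.endp w hw v s e
  ci := HS.ci
  hm := hm

/-- **NUMBER OF THE REMOVALS WITH THE BIT OF THE VERTEX** -/
theorem bit_cnt (H : Seen M) (E : EnAB M A) (v : Fin 3) (T : ℕ) :
    ∑ q ∈ range T, M.P.Pr (fun w => (A.rp v q w ∨ A.ru q w) ∧ btAB M Q yp K H v q w) ≤
      NT (MA M yp H) (QA M Q) v T + NT (MB M Q yp H) (QB M Q K) v T := by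
  have e : ∀ w, M.P.p w ≠ 0 → ∀ q, (A.rp v q w ∨ A.ru q w) → tau M.toMS v (q + 1) w = q + 1 := fun w hw q h =>
    h.elim (fun h => E.endp w hw v q h) fun h => E.endu w hw v q h
  have h1 : ∑ q ∈ range T, M.P.Pr (fun w => (A.rp v q w ∨ A.ru q w) ∧ bet (MA M yp H) (QA M Q) v q w) ≤
      NT (MA M yp H) (QA M Q) v T := by
    unfold NT
    refine Pr_inj (l := tv (MA M yp H) v) (fun w _ q hq hh => ?_) (fun w hw q _ q' _ hh hh' e' => ?_)
    · obtain ⟨s, a, b, c⟩ := bet_iff.1 hh.2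
      exact ⟨s, lt_of_le_of_lt b hq, c, stg_mid rfl a b⟩
    · exact end_one (C := CA M yp v) (endA H (e w hw q hh.1)) (endA H (e w hw q' hh'.1)) e'
  have h2 : ∑ q ∈ range T, M.P.Pr (fun w => (A.rp v q w ∨ A.ru q w) ∧ bet (MB M Q yp H) (QB M Q K) v q w) ≤
      NT (MB M Q yp H) (QB M Q K) v T := by
    unfold NT
    refine Pr_inj (l := tv (MB M Q yp H) v) (fun w _ q hq hh => ?_) (fun w hw q _ q' _ hh hh' e' => ?_)
    · obtain ⟨s, a, b, c⟩ := bet_iff.1 hh.2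
      exact ⟨s, lt_of_le_of_lt b hq, c, stg_mid rfl a b⟩
    · exact end_one (C := CB M v) (endB (Q := Q) (yp := yp) H (e w hw q hh.1))
        (endB (Q := Q) (yp := yp) H (e w hw q' hh'.1)) e'
  refine le_trans ?_ (add_le_add h1 h2)
  rw [← sum_add_distrib]
  refine sum_le_sum fun q _ => le_trans (M.P.Pr_mono fun w _ hh => ?_) (M.P.Pr_or_le _ _)
  exact hh.2.imp (fun h => ⟨hh.1, h⟩) fun h => ⟨hh.1, h⟩

/-- **NUMBER OF THE PUBLIC REMOVALS WITH THE BIT OF THE NODE** -/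
theorem z_cnt (H : Seen M) (E : EnAB M A) (T : ℕ) :
    ∑ q ∈ range T, M.P.Pr (fun w => A.ru q w ∧ zAB M Q yp K H q w) ≤
      Nz (MA M yp H) (QA M Q) T + Nz (MB M Q yp H) (QB M Q K) T := by
  have key : ∀ (M' : US Om) (Q' : Kd Om), M'.toMS = M.toMS →
      ∑ q ∈ range T, M.P.Pr (fun w => A.ru q w ∧ Z0 M' Q' q w) ≤ ∑ s ∈ range T, M.P.Pr (zt M' Q' s) := by
    intro M' Q' e
    refine Pr_inj (l := nu M.toMS) (fun w _ q hq hh => ?_) (fun w hw q _ q' _ hh hh' e' => ?_)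
    · obtain ⟨s, a, b, c⟩ := Z0_iff.1 hh.2
      rw [e] at a
      exact ⟨s, lt_of_le_of_lt b hq, c, stg_mid rfl a b⟩
    · exact end_one (C := C0 M.toMS) (E.end0 w hw q hh.1) (E.end0 w hw q' hh'.1) e'
  refine le_trans ?_ (add_le_add (key (MA M yp H) (QA M Q) rfl) (key (MB M Q yp H) (QB M Q K) rfl))
  rw [← sum_add_distrib]
  refine sum_le_sum fun q _ => le_trans (M.P.Pr_mono fun w _ hh => ?_) (M.P.Pr_or_le _ _)
  exact hh.2.imp (fun h => ⟨hh.1, h⟩) fun h => ⟨hh.1, h⟩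

/-- **THE TUPLES OVER A DROPPED VERTEX**, any decreasing relation `R` and any events `X` of the class of the vertex -/
theorem dropG {M' : US Om} {Q' : Kd Om} (H' : Seen M') {x : ℝ} (x0 : 0 ≤ x) {v : Fin 3} {E R X : ℕ → Om → Prop}
    (hE : ∀ w, M'.P.p w ≠ 0 → ∀ q, E q w → tv M' v (q + 1) w = q + 1)
    (hX : ∀ s a b, M'.S {v} s a = M'.S {v} s b → (X s a ↔ X s b))
    (hR : ∀ w, M'.P.p w ≠ 0 → ∀ q r, tv M' v q w ≤ r → r ≤ q → X r w → R q w → R r w) (T : ℕ) :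
    ∑ q ∈ range T, M'.P.Pr (fun w => E q w ∧ R q w ∧ ∃ r, tv M' v q w ≤ r ∧ r ≤ q ∧ ((bet M' Q' v r w ∧ X r w) ∧
      M'.P.ce (M'.S {v} r) (fun u => ind (R r u)) w < x)) ≤ x * NT M' Q' v T := by
  classical
  set D : ℕ → Om → Prop := fun r w => (bet M' Q' v r w ∧ X r w) ∧ M'.P.ce (M'.S {v} r) (fun u => ind (R r u)) w < x with hD
  have DS : ∀ r r', r ≤ r' → ∀ a b, M'.S {v} r' a = M'.S {v} r' b → (D r a ↔ D r b) := by
    intro r r' hr a b e
    have e' : M'.S {v} r a = M'.S {v} r b := S_step M' hr a b e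
    simp only [hD]
    rw [bet_S H' v hr e, hX r a b e', show M'.P.ce (M'.S {v} r) (fun u => ind (R r u)) a =
      M'.P.ce (M'.S {v} r) (fun u => ind (R r u)) b from M'.P.ce_fac (M'.S {v} r) _ a b e']
  set F : ℕ → Om → Prop := fun s w => D s w ∧ ∀ s', tv M' v s w ≤ s' → s' < s → ¬ D s' w with hF
  have FS : ∀ s a b, M'.S {v} s a = M'.S {v} s b → (F s a ↔ F s b) := by
    intro s a b e
    simp only [hF]
    rw [tau_S H' v le_rfl a b e, DS s s le_rfl a b e]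
    exact and_congr_right fun _ => forall_congr' fun r => forall_congr' fun _ => forall_congr' fun hr =>
      not_congr (DS r s hr.le a b e)
  have k1 : ∑ q ∈ range T, M'.P.Pr (fun w => E q w ∧ R q w ∧ ∃ r, tv M' v q w ≤ r ∧ r ≤ q ∧ D r w) ≤
      ∑ s ∈ range T, M'.P.Pr (fun w => F s w ∧ R s w) := by
    refine Pr_inj (l := tv M' v) (fun w hw q hq hh => ?_) (fun w hw q _ q' _ hh hh' e => ?_)
    · obtain ⟨_, hk, r, a, b, c⟩ := hh
      have hex : ∃ s, tv M' v q w ≤ s ∧ D s w := ⟨r, a, c⟩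
      have h4 : Nat.find hex ≤ r := Nat.find_min' hex ⟨a, c⟩
      obtain ⟨g1, g2⟩ := Nat.find_spec hex
      have h7 : tv M' v (Nat.find hex) w = tv M' v q w := stg_mid rfl g1 (h4.trans b)
      exact ⟨Nat.find hex, by omega, ⟨⟨g2, fun s' h5 h6 h8 => Nat.find_min hex h6 ⟨by rw [← h7]; exact h5, h8⟩⟩,
        hR w hw q _ g1 (h4.trans b) g2.1.2 hk⟩, h7⟩
    · exact end_one (C := M'.Cv v) (hE w hw q hh.1) (hE w hw q' hh'.1) e
  have k2 : ∑ s ∈ range T, M'.P.Pr (F s) ≤ NT M' Q' v T := by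
    unfold NT
    refine Pr_inj (l := tv M' v) (fun w _ s hs hh => ?_) (fun w _ s _ s' _ hh hh' e => ?_)
    · obtain ⟨s', a, b, c⟩ := bet_iff.1 hh.1.1.1
      exact ⟨s', lt_of_le_of_lt b hs, c, stg_mid rfl a b⟩
    · have l1 : tv M' v s w ≤ s := stg_le _ _
      have l2 : tv M' v s' w ≤ s' := stg_le _ _
      rcases lt_trichotomy s s' with g | g | g
      · exact absurd hh.1 (hh'.2 s (by omega) g)
      · exact g
      · exact absurd hh'.1 (hh.2 s' (by omega) g)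
  have k3 := mul_le_mul_of_nonneg_left k2 x0
  rw [Finset.mul_sum] at k3
  refine k1.trans (le_trans (Finset.sum_le_sum fun s _ => ?_) k3)
  exact dens_lt (Z := M'.S {v} s) (fun x w e => FS s x w e) _ fun w _ hh => hh.1.2.le

/-- **DENSE AT THE EXACT VERTEX**, seen from another exact vertex -/
theorem aliveG {v v' : Fin 3} (hci : Blk.CI M.P (M.S ∅) (M.S {v'}) (M.S {v})) {x c : ℝ} (x0 : 0 < x) {s : ℕ}
    {f g R : Om → Prop} (hf : ∀ a b, M.S {v'} s a = M.S {v'} s b → (f a ↔ f b))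
    (hg : ∀ a b, M.S {v} s a = M.S {v} s b → (g a ↔ g b)) (hd : ∀ w, g w → x ≤ M.P.ce (M.S {v} s) (fun u => ind (R u)) w)
    (hc : ∀ w, M.P.p w ≠ 0 → f w → M.P.ce (M.S ∅ s) (fun u => ind (g u ∧ R u)) w ≤ c) :
    M.P.Pr (fun w => f w ∧ g w) ≤ c / x * M.P.Pr f := by
  refine dens_lt (Z := M.S {v'} s) hf _ fun w hw h => ?_
  have h1 : M.P.ce (M.S {v'} s) (fun u => ind (g u)) w = M.P.ce (M.S ∅ s) (fun u => ind (g u)) w :=
    Uv.ci_cp (P := M.P) (V := M.S {v'}) (V' := M.S {v}) (nd := M.S ∅) (fun s => M.mS ∅ {v'} s (Finset.empty_subset _)) hci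
      (s := s) (A := g) (fun x y e => hg x y e) hw
  rw [h1, le_div_iff₀ x0, mul_comm]
  refine le_trans ?_ (hc w hw h)
  rw [← M.P.ce_smul]
  have e1 : Fac (M.S {v} s) (fun u => ind (g u)) := Fac.ind fun x y e => hg x y e
  calc M.P.ce (M.S ∅ s) (fun u => x * ind (g u)) w
      ≤ M.P.ce (M.S ∅ s) (fun u => ind (g u) * M.P.ce (M.S {v} s) (fun u => ind (R u)) u) w := by
        refine M.P.ce_mono (fun u _ => ?_) w
        by_cases h2 : g u
        · rw [ind_of h2, mul_one, one_mul]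
          exact hd u h2
        · rw [ind_not h2, mul_zero, zero_mul]
    _ = M.P.ce (M.S ∅ s) (fun u => ind (g u) * ind (R u)) w := by
        have e2 : ∀ u, ind (g u) * M.P.ce (M.S {v} s) (fun u => ind (R u)) u =
            M.P.ce (M.S {v} s) (fun u => ind (g u) * ind (R u)) u := fun u => (M.P.ce_mul e1 _ u).symm
        rw [show (fun u => ind (g u) * M.P.ce (M.S {v} s) (fun u => ind (R u)) u) =
          M.P.ce (M.S {v} s) (fun u => ind (g u) * ind (R u)) from funext e2]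
        exact M.P.ce_tower (M.mS ∅ {v} s (Finset.empty_subset _)) _ w
    _ = M.P.ce (M.S ∅ s) (fun u => ind (g u ∧ R u)) w := by
        refine congrArg (fun F => M.P.ce (M.S ∅ s) F w) (funext fun u => (ind_and _ _).symm)

/-- **DECIDED BY `A` AND ANOTHER VERTEX IN `V`** at the public removals -/
theorem pair_le (H : Seen M) (E : EnAB M A) (HS : StS M A)
    (hm : ∀ s < T, ∀ w, M.P.p w ≠ 0 → M.P.m (M.S ∅ s) w ≤ h * M.P.m (M.S ∅ (s + 1)) w)
    (h0 : 0 ≤ h) (hy : 0 ≤ yp) {v u : Fin 3} (huv : v ≠ u) :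
    ∑ q ∈ range T, M.P.Pr (fun w => A.ru q w ∧ (bet (MA M yp H) (QA M Q) v q w ∧ sts M.toMS u q w)) ≤
      2 * (h * yp) * NT (MA M yp H) (QA M Q) v T +
        ∑ s ∈ range T, M.P.Pr (fun w => nu M.toMS s w = s ∧ tg M yp s w) := by
  refine le_trans (sum_le_sum fun q _ => M.P.Pr_mono fun w _ hh => ?_)
    (pair_V (M := M) H (rvok E HS hm) h0 hy huv (f := tkx (MA M yp H) (QA M Q) v)
      fun s a b e => tkx_S (seenA M yp H) v le_rfl e)
  obtain ⟨s, a, b, c⟩ := bet_iff.1 hh.2.1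
  exact ⟨hh.1, ⟨s, a, b, c, c.1.2.2⟩, hh.2.2⟩

/-- **ZONE OF `A` AND A VERTEX IN `V`** at the public removals -/
theorem zone_le (H : Seen M) (E : EnAB M A) (HS : StS M A)
    (hm : ∀ s < T, ∀ w, M.P.p w ≠ 0 → M.P.m (M.S ∅ s) w ≤ h * M.P.m (M.S ∅ (s + 1)) w) (hy : 0 ≤ yp) (u : Fin 3) :
    ∑ q ∈ range T, M.P.Pr (fun w => A.ru q w ∧ (sts M.toMS u q w ∧ Z0 (MA M yp H) (QA M Q) q w)) ≤
      yp * Nz (MA M yp H) (QA M Q) T := by
  refine le_trans (sum_le_sum fun q _ => M.P.Pr_mono fun w _ hh => ?_)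
    (zone_V (M := M) H (rvok E HS hm) hy u (f := zt (MA M yp H) (QA M Q))
      fun s a b e => zt_S (seenA M yp H) le_rfl e)
  obtain ⟨s, a, b, c⟩ := Z0_iff.1 hh.2.2
  exact ⟨hh.1, hh.2.1, s, a, b, c, c.1.2⟩

/-- **A-FREE ENDS** of the lives which are decided by `A`, dense relation -/
theorem afvA_le (H : Seen M) (E : EnAB M A) (HS : StS M A)
    (hm : ∀ s < T, ∀ w, M.P.p w ≠ 0 → M.P.m (M.S ∅ s) w ≤ h * M.P.m (M.S ∅ (s + 1)) w) {y0 y1 : ℝ} (hy0 : 0 ≤ y0)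
    (hy1 : 0 < y1) {v : Fin 3}
    (hv : v ∈ Q.Vk) : ∑ q ∈ range T, M.P.Pr (fun w => afv (MA M yp H) (QA M Q) A v q w ∧
      2 * y1 < Dev (MA M yp H) (QA M Q) v q w) ≤
      B1 M (GQ Q) A.ru A.rp T y1 v + (y0 * stN M yp T + B2 M (GQ Q) yp A.ru T y0 y1 v) +
        M.P.Pr (fun w => ¬ Q.al T w) / y1 := by
  have k1 := aend_le (M := M) (G := GQ Q) (yp := yp) (y1 := y1) H (rvok E HS hm) v hy0
  have k2 := dead_dens (P := M.P) (T := T) (V := M.S {v}) (fun k => M.fS {v} k) (C := CA M yp v) (CA_S H v)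
    (al := Q.al) Q.hal hy1
  refine le_trans ?_ (add_le_add k1 k2)
  rw [← sum_add_distrib]
  refine sum_le_sum fun q _ => le_trans (M.P.Pr_mono fun w _ hh => ?_) (M.P.Pr_or_le _ _)
  obtain ⟨⟨a, b, c, d⟩, e⟩ := hh
  have e' : 2 * y1 < M.P.ce (M.S {v} (q + 1)) (fun x => ind (Q.kv (some v) (tauS M.toMS v q x) x ∧
      Q.al (tv (MA M yp H) v q x) x)) w := by
    refine lt_of_lt_of_le e (le_of_eq ?_)
    unfold Dev
    refine Gdy.ce_congr_on fun u _ _ => ?_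
    show ind (Q.kv (some v) (tauS M.toMS v (tv (MA M yp H) v q u) u) u ∧ Q.al (tv (MA M yp H) v q u) u) =
      ind (Q.kv (some v) (tauS M.toMS v q u) u ∧ Q.al (tv (MA M yp H) v q u) u)
    rw [tauS_A]
  rcases dens_split (M := M) (G := GQ Q) v (C := CA M yp v) (s := q)
    (R := fun x => Q.kv (some v) (tauS M.toMS v q x) x ∧ Q.al (tv (MA M yp H) v q x) x)
    (fun x hx => ⟨⟨hv, hx.1⟩, hx.2⟩) e' with h | h
  · exact Or.inl ⟨⟨a, fun h => h.elim c d⟩, h⟩
  · exact Or.inr ⟨Or.inl a, h⟩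

/-- **A-FREE ENDS** of the lives which are decided by `B`, dense relation -/
theorem afvB_le (H : Seen M) (E : EnAB M A) (HS : StS M A)
    (hm : ∀ s < T, ∀ w, M.P.p w ≠ 0 → M.P.m (M.S ∅ s) w ≤ h * M.P.m (M.S ∅ (s + 1)) w) {y0 y1 : ℝ} (hy0 : 0 ≤ y0)
    (hy1 : 0 < y1) {v : Fin 3}
    (hv : v ∈ Q.Vk) : ∑ q ∈ range T, M.P.Pr (fun w => afv (MB M Q yp H) (QB M Q K) A v q w ∧
      2 * y1 < Dev (MB M Q yp H) (QB M Q K) v q w) ≤
      B1 M (GQ Q) A.ru A.rp T y1 v + (y0 * stN M yp T + B2 M (GQ Q) yp A.ru T y0 y1 v) +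
        M.P.Pr (fun w => ¬ Q.al T w) / y1 := by
  have k1 := jend_le (M := M) (G := GQ Q) (yp := yp) (y1 := y1) H (rvok E HS hm) v hy0
  have k2 := dead_dens (P := M.P) (T := T) (V := M.S {v}) (fun k => M.fS {v} k) (C := CB M v) (CB_S H v)
    (al := Q.al) Q.hal hy1
  refine le_trans ?_ (add_le_add k1 k2)
  rw [← sum_add_distrib]
  refine sum_le_sum fun q _ => le_trans (M.P.Pr_mono fun w _ hh => ?_) (M.P.Pr_or_le _ _)
  obtain ⟨⟨a, ⟨s, b1, b2, b3⟩, c, d⟩, e⟩ := hh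
  have hi : iS M yp q w := CB_mono v s q w b1 b2 (not_not.1 (not_or.1 b3.2.2).1)
  have hk : ∀ x, (QB M Q K).kv (some v) (tv (MB M Q yp H) v q x) x →
      (v ∈ Q.Vk ∧ Q.kv (some v) (tauS M.toMS v q x) x) ∧ Q.al (stg (CB M v) q x) x := fun x hx => by
    have h6 : (Q.kv (some v) (tauS M.toMS v (tv (MB M Q yp H) v q x) x) x ∧ Q.al (tv (MB M Q yp H) v q x) x) ∧
        nV M v (tv (MB M Q yp H) v q x) x := hx
    rw [tauS_B] at h6
    exact ⟨⟨hv, h6.1.1⟩, h6.1.2⟩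
  rcases dens_split (M := M) (G := GQ Q) v (C := CB M v) (s := q)
    (R := fun x => (QB M Q K).kv (some v) (tv (MB M Q yp H) v q x) x) hk e with h | h
  · exact Or.inl ⟨⟨a, fun h => h.elim c d, hi⟩, h⟩
  · exact Or.inr ⟨Or.inl a, h⟩

/-- **THE NUMBER OF THE STRETCHES** -/
theorem stN_le (H : Seen M) (E : EnAB M A) (HS : StS M A)
    (hm : ∀ s < T, ∀ w, M.P.p w ≠ 0 → M.P.m (M.S ∅ s) w ≤ h * M.P.m (M.S ∅ (s + 1)) w) {y0 : ℝ} (hy0 : 0 ≤ y0) :
    (yp - y0) * stN M yp T ≤ ∑ u : Fin 3, (∑ s ∈ range T, M.P.Pr (fun w => A.ru s w ∧ sts M.toMS u s w) +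
      B0 M yp A.ru T y0 u) := str_count H (rvok E HS hm) hy0

/-- in a life of `A` there is one public epoch after the start of a stretch -/
theorem nu_of_iS (H : Seen M) {v : Fin 3} {s q : ℕ} {w : Om} (h1 : tv (MA M yp H) v q w ≤ s) (h2 : s ≤ q)
    (hi : iS M yp s w) : nu M.toMS q w = nu M.toMS s w := nu_CA (M := M) (yp := yp) (v := v) h1 h2 hi

/-- **CROSS PARTNERS** : `v'` decided by `B`, `v` decided by `A` -/
theorem cross_le (H : Seen M) (O : OkAB M Q yp K A H δ) (HS : StS M A) {ux : ℝ} (x0 : 0 < ux) (u0 : 0 ≤ Q.u0) {v v' : Fin 3} (hv : v ∈ Q.Vk)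
    (hv' : v' ∈ Q.Vk) (hne : v ≠ v') (T : ℕ) :
    ∑ q ∈ range T, M.P.Pr (fun w => A.ru q w ∧ A.gd q w ∧ bet (MB M Q yp H) (QB M Q K) v' q w ∧
      bet (MA M yp H) (QA M Q) v q w) ≤
      ux * NT (MA M yp H) (QA M Q) v T + Q.u0 / ux * NT (MB M Q yp H) (QB M Q K) v' T := by
  classical
  -- the dropped ones, restricted density
  have h2 := dropG (M' := MA M yp H) (Q' := QA M Q) (seenA M yp H) x0.le (v := v) (E := A.ru)
    (R := RV M (GQ Q) v) (X := iS M yp)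
    (fun w hw q e => endA H (O.endu w hw v q e)) (fun s a b e => iS_Sv H v s e) (fun w _ q r a b hi hk => by
      have e1 : nu M.toMS q w = nu M.toMS r w := nu_of_iS H a b hi
      have e2 : tauS M.toMS v r w = tauS M.toMS v q w := stg_mid rfl ((tau_A H v q w).trans a) b
      refine ⟨⟨⟨hv, ?_⟩, Qal_le (stg_mono b w) hk.1.2⟩, (nV_ep v w _ _ e1).1 hk.2⟩
      show Q.kv (some v) (tauS M.toMS v r w) w
      rw [e2]
      exact hk.1.1.2) T
  -- the alive ones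
  have h3 : ∑ q ∈ range T, M.P.Pr (fun w => A.ru q w ∧ ∃ s, tv (MB M Q yp H) v' q w ≤ s ∧ s ≤ q ∧
      ((tkx (MB M Q yp H) (QB M Q K) v' s w ∧ M0 (MB M Q yp H) (QB M Q K) s w < Q.u0) ∧
        (tv (MB M Q yp H) v s w ≤ nu M.toMS s w ∧ ux ≤ Mx (MB M Q yp H) (QB M Q K) v s w))) ≤
      Q.u0 / ux * NT (MB M Q yp H) (QB M Q K) v' T := by
    have k1 : ∑ q ∈ range T, M.P.Pr (fun w => A.ru q w ∧ ∃ s, tv (MB M Q yp H) v' q w ≤ s ∧ s ≤ q ∧
        ((tkx (MB M Q yp H) (QB M Q K) v' s w ∧ M0 (MB M Q yp H) (QB M Q K) s w < Q.u0) ∧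
          (tv (MB M Q yp H) v s w ≤ nu M.toMS s w ∧ ux ≤ Mx (MB M Q yp H) (QB M Q K) v s w))) ≤
        ∑ s ∈ range T, M.P.Pr (fun w => (tkx (MB M Q yp H) (QB M Q K) v' s w ∧
          M0 (MB M Q yp H) (QB M Q K) s w < Q.u0) ∧
            (tv (MB M Q yp H) v s w ≤ nu M.toMS s w ∧ ux ≤ Mx (MB M Q yp H) (QB M Q K) v s w)) := by
      refine Pr_inj (l := tv (MB M Q yp H) v') (fun w _ q hq hh => ?_) (fun w hw q _ q' _ hh hh' e => ?_)
      · obtain ⟨_, s, a, b, c⟩ := hh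
        exact ⟨s, lt_of_le_of_lt b hq, c, stg_mid rfl a b⟩
      · exact end_one (C := CB M v') (endB (Q := Q) (yp := yp) H (O.endu w hw v' q hh.1))
          (endB (Q := Q) (yp := yp) H (O.endu w hw v' q' hh'.1)) e
    refine k1.trans ?_
    unfold NT
    rw [Finset.mul_sum]
    refine sum_le_sum fun s _ => ?_
    refine (aliveG (M := M) (v := v) (v' := v') (HS.ci v' v hne.symm) (x := ux) (c := Q.u0) x0 (s := s)
      (f := fun w => tkx (MB M Q yp H) (QB M Q K) v' s w ∧ M0 (MB M Q yp H) (QB M Q K) s w < Q.u0)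
      (g := fun w => tv (MB M Q yp H) v s w ≤ nu M.toMS s w ∧ ux ≤ Mx (MB M Q yp H) (QB M Q K) v s w)
      (R := RV M (GQ Q) v s) (fun x w e => ?_) (fun x w e => ?_) (fun w hh => ?_) (fun w _ hh => ?_)).trans
      (mul_le_mul_of_nonneg_left (M.P.Pr_mono fun w _ hh => hh.1) (div_nonneg u0 x0.le))
    · have e0 : M.S ∅ s x = M.S ∅ s w := M.mS ∅ {v'} s (Finset.empty_subset _) x w e
      have e1 := M0_S (M := MB M Q yp H) (Q := QB M Q K) (seenB M Q yp H) (le_refl s) x w e0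
      rw [tkx_S (M := MB M Q yp H) (Q := QB M Q K) (seenB M Q yp H) v' le_rfl e, e1]
    · have e1 := (seenB M Q yp H).tau v s x w e
      have e2 : nu M.toMS s x = nu M.toMS s w := nu_S H le_rfl x w (M.mS ∅ {v} s (Finset.empty_subset _) x w e)
      have e3 := Mx_S (M := MB M Q yp H) (Q := QB M Q K) (seenB M Q yp H) v (le_refl s) x w e
      rw [e1, e2, e3]
    · have h4 := hh.2
      rw [MxB_eq H hv] at h4
      exact h4
    · refine le_trans ?_ ((Dn_le (seenB M Q yp H) (Q := QB M Q K) (some v) s w).trans hh.2.le)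
      unfold Dn
      refine M.P.ce_mono (fun u _ => ind_mono fun h5 => ?_) w
      obtain ⟨⟨h6, _⟩, h7⟩ := h5
      have e3 : tv (MB M Q yp H) v s u = nu M.toMS s u := le_antisymm h6 (nu_B H v s u)
      have e4 : tv (MB M Q yp H) v (nu M.toMS s u) u = nu M.toMS s u := by
        have h8 : tv (MB M Q yp H) v (nu M.toMS s u) u = tv (MB M Q yp H) v s u :=
          stg_mid (C := CB M v) (w := u) (k := s) (j := nu M.toMS s u) rfl h6 (stg_le _ _)
        exact h8.trans e3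
      have e5 : tauS M.toMS v (nu M.toMS s u) u = tauS M.toMS v s u := by
        have h8 := tauS_B (Q := Q) (yp := yp) H v s u
        rw [e3] at h8
        exact h8
      show ((Q.kv (some v) (tauS M.toMS v (tv (MB M Q yp H) v (nu M.toMS s u) u) u) u ∧
        Q.al (tv (MB M Q yp H) v (nu M.toMS s u) u) u) ∧ nV M v (tv (MB M Q yp H) v (nu M.toMS s u) u) u) ∧
          Q.al (nu M.toMS s u) u
      rw [e4, e5]
      have h9 : Q.al (nu M.toMS s u) u := by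
        rw [← e3]
        exact h7.1.2
      refine ⟨⟨⟨h7.1.1.2, h9⟩, (nV_ep v u _ _ ?_).1 h7.2⟩, h9⟩
      exact (stg_mid (C := C0 M.toMS) rfl le_rfl (stg_le _ _)).symm
  -- the two cases
  have key : ∀ q ∈ range T, M.P.Pr (fun w => A.ru q w ∧ A.gd q w ∧ bet (MB M Q yp H) (QB M Q K) v' q w ∧
      bet (MA M yp H) (QA M Q) v q w) ≤
      M.P.Pr (fun w => A.ru q w ∧ RV M (GQ Q) v q w ∧
        ∃ r, tv (MA M yp H) v q w ≤ r ∧ r ≤ q ∧ ((bet (MA M yp H) (QA M Q) v r w ∧ iS M yp r w) ∧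
          M.P.ce (M.S {v} r) (fun u => ind (RV M (GQ Q) v r u)) w < ux)) +
      M.P.Pr (fun w => A.ru q w ∧ ∃ s, tv (MB M Q yp H) v' q w ≤ s ∧ s ≤ q ∧
        ((tkx (MB M Q yp H) (QB M Q K) v' s w ∧ M0 (MB M Q yp H) (QB M Q K) s w < Q.u0) ∧
          (tv (MB M Q yp H) v s w ≤ nu M.toMS s w ∧ ux ≤ Mx (MB M Q yp H) (QB M Q K) v s w))) := by
    intro q _
    refine le_trans (M.P.Pr_mono fun w hw hh => ?_) (M.P.Pr_or_le _ _)
    obtain ⟨a, b, c, d⟩ := hh
    have lv : tauS M.toMS v q w ≤ nu M.toMS q w := O.lst w hw v hv q b a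
    have lv' : tauS M.toMS v' q w ≤ nu M.toMS q w := O.lst w hw v' hv' q b a
    have kv := Q.hkv v hv _ w (O.gdv w hw v hv q b (Or.inr a) (Or.inl (Or.inl d)))
    have ka := O.gda w hw q b (Or.inr a)
    have nv := O.nov w hw v hv q b (Or.inr a) (Or.inl (Or.inl d))
    have lA : tv (MA M yp H) v q w ≤ nu M.toMS q w := lstA H lv
    have lB' : tv (MB M Q yp H) v' q w ≤ nu M.toMS q w := lstB H lv'
    by_cases g2 : ∃ r, tv (MA M yp H) v q w ≤ r ∧ r ≤ q ∧ ((bet (MA M yp H) (QA M Q) v r w ∧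
        iS M yp r w) ∧ M.P.ce (M.S {v} r) (fun u => ind (RV M (GQ Q) v r u)) w < ux)
    · exact Or.inl ⟨a, ⟨⟨⟨hv, kv⟩, Qal_le (stg_le _ _) ka⟩, nv⟩, g2⟩
    refine Or.inr ⟨a, ?_⟩
    push Not at g2
    obtain ⟨s, c1, c2, c3⟩ := bet_iff.1 c
    have hns : nu M.toMS q w ≤ s := (nu_B H v' q w).trans c1
    have en : nu M.toMS s w = nu M.toMS q w := stg_mid rfl hns c2
    have h4 := not_or.1 c3.1.2.2
    have hbA : bet (MA M yp H) (QA M Q) v s w := bet_stretch H hns c2 (lA.trans hns) (not_not.1 h4.1) d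
    have lB'' : tv (MB M Q yp H) v' s w ≤ nu M.toMS s w := by
      have e : tv (MB M Q yp H) v' s w = tv (MB M Q yp H) v' q w := stg_mid rfl c1 c2
      rw [e, en]
      exact lB'
    refine ⟨s, c1, c2, ⟨c3, aloB H c3 lB'' (stg_le _ _) le_rfl⟩, ?_, ?_⟩
    · refine lstB H ?_
      have e : tauS M.toMS v s w = tauS M.toMS v q w := stg_mid rfl (lv.trans hns) c2
      rw [e, en]
      exact lv
    · rw [MxB_eq H hv]
      exact g2 s (lA.trans hns) c2 ⟨hbA, not_not.1 h4.1⟩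
  refine (sum_le_sum key).trans ?_
  rw [sum_add_distrib]
  exact add_le_add h2 h3

/-- **THE DECIDED LIVES OF `B` WHICH ARE NOT GOOD** : with the priority of `A` -/
theorem ngvB_le (H : Seen M) (O : OkAB M Q yp K A H δ) (HS : StS M A) {ux : ℝ} (x0 : 0 < ux) (u0 : 0 ≤ Q.u0) {v : Fin 3}
    (hv : v ∈ Q.Vk) (T : ℕ) :
    ∑ q ∈ range T, M.P.Pr (ngv (MB M Q yp H) (QB M Q K) (StB M Q yp A H) v q) ≤
      ∑ q ∈ range T, M.P.Pr (ngv (MB M Q yp H) (QB M Q K) A v q) +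
        ∑ v' ∈ Q.Vk.erase v, (ux * NT (MA M yp H) (QA M Q) v' T + Q.u0 / ux * NT (MB M Q yp H) (QB M Q K) v T) := by
  classical
  have h1 : ∀ v' ∈ Q.Vk.erase v, ∑ q ∈ range T, M.P.Pr (fun w => A.ru q w ∧ A.gd q w ∧
      bet (MB M Q yp H) (QB M Q K) v q w ∧ bet (MA M yp H) (QA M Q) v' q w) ≤
      ux * NT (MA M yp H) (QA M Q) v' T + Q.u0 / ux * NT (MB M Q yp H) (QB M Q K) v T := fun v' hv' =>
    cross_le H O HS x0 u0 (mem_of_mem_erase hv') hv (ne_of_mem_erase hv') T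
  refine le_trans ?_ (add_le_add le_rfl (sum_le_sum h1))
  rw [sum_comm, ← sum_add_distrib]
  refine sum_le_sum fun q _ => ?_
  refine le_trans (M.P.Pr_mono fun w hw hh => ?_) ((M.P.Pr_or_le _ _).trans (add_le_add le_rfl
    (M.P.Pr_ex_le (Q.Vk.erase v) fun v' w => A.ru q w ∧ A.gd q w ∧
      bet (MB M Q yp H) (QB M Q K) v q w ∧ bet (MA M yp H) (QA M Q) v' q w)))
  obtain ⟨a, b, c, d⟩ := hh
  by_cases hg : A.gd q w
  · have h2 : A.ru q w ∧ hasA M Q yp H q w := by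
      by_contra h3
      exact d ⟨hg, fun h4 h5 => h3 ⟨h4, h5⟩⟩
    refine Or.inr ?_
    rcases h2.2 with h3 | ⟨v', hv', h3⟩
    · exact absurd h3 (zb H c ((lstB_iff H).2 (O.lst w hw v hv q hg h2.1)))
    · have hne : v' ≠ v := fun e => excl H c (e ▸ h3)
      exact ⟨v', mem_erase.2 ⟨hne, hv'⟩, h2.1, hg, c, h3⟩
  · exact Or.inl ⟨a, b, c, hg⟩

/-- the right side of `signed_total` -/
def sgn (M : US Om) (Q : Kd Om) (A : Stps (Om := Om)) (δ Kc : ℝ) (T : ℕ) : ℝ :=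
  ∑ v ∈ Q.Vk, (∑ τ ∈ range T, M.P.E (fun w => ind (tv M v τ w = τ ∧ dcv M Q T v τ w) * Q.psi (some v) τ w) +
    Kc * (∑ q ∈ range T, M.P.Pr (lost M Q A v q) + M.P.Pr (fun w => Q.kd (some v) (tv M v T w) w ∧ bet M Q v T w)) +
    δ * ∑ q ∈ range T, M.P.Pr (relv M Q A v q)) +
  (∑ n ∈ range T, M.P.E (fun w => ind (nu M.toMS n w = n ∧ dc0 M Q T n w) * Q.psi none n w) +
    Kc * (∑ q ∈ range T, M.P.Pr (lost0 M Q A q) + M.P.Pr (fun w => Q.kd none (nu M.toMS T w) w ∧ Z0 M Q T w)) +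
    δ * ∑ q ∈ range T, M.P.Pr (rel0 M Q A q))

/-- the released sum of the run -/
theorem rels_sum (H : Seen M) (E : EnAB M A) (T : ℕ) :
    ∑ q ∈ range T, M.P.E (fun w => rlAB M Q yp K A H q w * A.g q w) =
      ∑ q ∈ range T, M.P.E (fun w => rels (MA M yp H) (QA M Q) A q w * A.g q w) +
        ∑ q ∈ range T, M.P.E (fun w => rels (MB M Q yp H) (QB M Q K) (StB M Q yp A H) q w * (StB M Q yp A H).g q w) := by
  rw [← sum_add_distrib]
  refine sum_congr rfl fun q _ => ?_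
  rw [← FP.E_add]
  refine M.P.E_congr fun w hw => ?_
  rw [rels_AB H (fun v q h => E.disj w hw v q h) q, add_mul]
  rfl

/-- **THE SIGNED SUM OF THE RUN** is that of `A` plus that of `B` -/
theorem signed_AB (H : Seen M) (O : OkAB M Q yp K A H δ) (T : ℕ) {Kc : ℝ} (K0 : 0 ≤ Kc)
    (hK : ∀ w, M.P.p w ≠ 0 → ∀ o τ, -Kc ≤ Q.psi o τ w) :
    ∑ q ∈ range T, M.P.E (fun w => rlAB M Q yp K A H q w * A.g q w) ≤
      sgn (MA M yp H) (QA M Q) A δ Kc T + sgn (MB M Q yp H) (QB M Q K) (StB M Q yp A H) δ Kc T := by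
  have hA : ∀ w, M.P.p w ≠ 0 → ∀ o τ, -Kc ≤ (QA M Q).psi o τ w := fun w hw o τ => by
    rcases o with _ | v
    · exact hK w hw none τ
    · exact hK w hw (some v) _
  have hB : ∀ w, M.P.p w ≠ 0 → ∀ o τ, -Kc ≤ (QB M Q K).psi o τ w := fun w hw o τ => by
    rcases o with _ | v
    · exact hK w hw none τ
    · exact hK w hw (some v) _
  rw [rels_sum H O.toEnAB T]
  exact add_le_add (signed_total (M := MA M yp H) (Q := QA M Q) (okA H O) T K0 hA)
    (signed_total (M := MB M Q yp H) (Q := QB M Q K) (okB H O) T K0 hB)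

end lost

end

end Pool.Agent.GMH.AB
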