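import Pool.Agent.GMH.ExitX
import Pool.Agent.GMH.UnmAB
import Pool.Agent.GMH.StpT

/-!
# GMH/ExitY (helper99): `EX v`, `EX 0` FOR THE THEORIES `A` AND `B` OVER `Ctx` (row C6)

`H : Seen (C.U ka)`, `Q = C.Q3 c κ`, `MA = AB.MA (C.U ka) yp H`, `QA = AB.QA (C.U ka) Q`, `MB`, `QB` (any `K`):
* **`exA_v`**, **`exA_0`**, **`exB_v`**, **`exB_0`** : fields `ex`, `exz` of `RelC` with the kind of the stays `C.S3 κ`, any
  counting steps with `GdX`, `Gd0`;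
* `Ctx.A0 M Q` : the counting steps (alive, no level of a light value, unlisted, unmoved at the decided vertices, in a zone at all
  vertices); **`A0_X`**, **`A0_0`** : they have `GdX`, `Gd0`.
-/

set_option autoImplicit false
set_option linter.unusedSectionVars false

namespace Pool.Agent.GMH.CX

open Finset Pool.Agent.PWZ Pool.Agent.M3 Pool.Agent.GMH Pool.Agent.GMH.KF Pool.Agent.GMH.CT Pool.Agent.GMH.ExK
open Pool.Agent.GMH.V3 Pool.Agent.GMH.TP Pool.Agent.GMH.Dy Pool.Agent.GMH.CK Pool.Agent.GMH.MV Pool.Agent.GMH.KDT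
open Pool.Agent.GMH.TD Pool.Agent.GMH.UV Pool.Agent.GMH.TRF

noncomputable section

/-- **THE COUNTING STEPS** -/
def Ctx.A0 (C : Ctx) (ka : ℕ) (M : US C.O) (Q : Kd C.O) : Stps (Om := C.O) where
  rp := rpO C.tb C.v
  ru := ruO C.tb C.v
  gd := fun q w => (Alv C.h C.v C.tb C.p q w ∧ ¬ ltL C.v C.tb q w) ∧ (ruO C.tb C.v q w → Unl C ka q w) ∧
    (∀ i, rpO C.tb C.v i q w → bet M Q i q w → ¬ Mv (C.U ka).toMS i q w) ∧
    ∀ i, ruO C.tb C.v q w → (bet M Q i q w ∨ Z0 M Q q w) → ¬ Mv (C.U ka).toMS i (nu (C.U ka).toMS q w) w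
  g := fun _ _ => 0

theorem A0_X {C : Ctx} {ka : ℕ} {M : US C.O} {Q : Kd C.O} (v : Fin 3) : GdX C ka M Q (C.A0 ka M Q) v :=
  ⟨fun _ _ _ h _ _ => h.1, fun _ _ _ h hr hb => h.2.2.1 v hr hb, fun _ _ _ h hr hb =>
    ⟨h.2.2.2 v hr (Or.inl hb), h.2.1 hr⟩⟩

theorem A0_0 {C : Ctx} {ka : ℕ} {M : US C.O} {Q : Kd C.O} (o : Option (Fin 3)) : Gd0 C ka M Q (C.A0 ka M Q) o :=
  ⟨fun _ _ _ h hr _ => ⟨h.1.1, h.1.2, h.2.1 hr⟩, fun _ _ _ h hr hz i _ => h.2.2.2 i hr (Or.inr hz)⟩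

variable {C : Ctx} {ka : ℕ} (hT : Tny C ka Rc) {c : KC} (hc : KcB Rc C.Lam c) {yp : ℝ} (H : Seen (C.U ka))
  {K : Finset (Fin 3)} {A : Stps (Om := C.O)} (κ : Fin 10)

theorem kvA {v : Fin 3} {q : ℕ} {w : C.O}
    (hh : (AB.QA (C.U ka) (C.Q3 c κ)).kv (some v) (tv (AB.MA (C.U ka) yp H) v q w) w) :
    (C.Q3 c κ).kv (some v) (tauS (C.U ka).toMS v q w) w := by
  have h1 : (C.Q3 c κ).kv (some v) (tauS (C.U ka).toMS v (tv (AB.MA (C.U ka) yp H) v q w) w) w := hh.1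
  rwa [AB.tauS_A] at h1

theorem kvB {v : Fin 3} {q : ℕ} {w : C.O}
    (hh : (AB.QB (C.U ka) (C.Q3 c κ) K).kv (some v) (tv (AB.MB (C.U ka) (C.Q3 c κ) yp H) v q w) w) :
    (C.Q3 c κ).kv (some v) (tauS (C.U ka).toMS v q w) w := by
  have h1 : (C.Q3 c κ).kv (some v) (tauS (C.U ka).toMS v (tv (AB.MB (C.U ka) (C.Q3 c κ) yp H) v q w) w) w := hh.1.1
  rwa [AB.tauS_B] at h1

include hT hc

/-- **EX v, theory A** -/
theorem exA_v {v : Fin 3} (hG : GdX C ka (AB.MA (C.U ka) yp H) (AB.QA (C.U ka) (C.Q3 c κ)) A v) :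
    ∑ q ∈ range (5 * C.T), (AB.MA (C.U ka) yp H).P.Pr
      (exv (AB.MA (C.U ka) yp H) (AB.QA (C.U ka) (C.Q3 c κ)) (C.S3 κ) A v q) ≤ pw C.Lam (CT.rd Rc κ.1).km :=
  ex3_vM hT hc rfl κ hG fun _ _ _ hh => kvA H κ hh

/-- **EX 0, theory A** -/
theorem exA_0 {v : Option (Fin 3)} (hG : Gd0 C ka (AB.MA (C.U ka) yp H) (AB.QA (C.U ka) (C.Q3 c κ)) A v) :
    ∑ q ∈ range (5 * C.T), (AB.MA (C.U ka) yp H).P.Pr
      (ex0 (AB.MA (C.U ka) yp H) (AB.QA (C.U ka) (C.Q3 c κ)) (C.S3 κ) A v q) ≤ pw C.Lam (CT.rd Rc κ.1).kz :=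
  ex3_0M hT hc rfl κ hG (fun _ _ _ _ hh => hh) fun _ _ _ _ _ hh => kvA H κ hh.1

/-- **EX v, theory B** -/
theorem exB_v {v : Fin 3}
    (hG : GdX C ka (AB.MB (C.U ka) (C.Q3 c κ) yp H) (AB.QB (C.U ka) (C.Q3 c κ) K) A v) :
    ∑ q ∈ range (5 * C.T), (AB.MB (C.U ka) (C.Q3 c κ) yp H).P.Pr
      (exv (AB.MB (C.U ka) (C.Q3 c κ) yp H) (AB.QB (C.U ka) (C.Q3 c κ) K) (C.S3 κ) A v q) ≤
        pw C.Lam (CT.rd Rc κ.1).km :=
  ex3_vM hT hc rfl κ hG fun _ _ _ hh => kvB H κ hh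

/-- **EX 0, theory B** -/
theorem exB_0 {v : Option (Fin 3)}
    (hG : Gd0 C ka (AB.MB (C.U ka) (C.Q3 c κ) yp H) (AB.QB (C.U ka) (C.Q3 c κ) K) A v) :
    ∑ q ∈ range (5 * C.T), (AB.MB (C.U ka) (C.Q3 c κ) yp H).P.Pr
      (ex0 (AB.MB (C.U ka) (C.Q3 c κ) yp H) (AB.QB (C.U ka) (C.Q3 c κ) K) (C.S3 κ) A v q) ≤
        pw C.Lam (CT.rd Rc κ.1).kz :=
  ex3_0M hT hc rfl κ hG (fun _ _ _ _ hh => hh.1) fun _ _ _ _ _ hh => kvB H κ hh.1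

end

end Pool.Agent.GMH.CX
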