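import Pool.Agent.GMH.ExitUH
import Pool.Agent.GMH.ExitY

/-!
# GMH/ExitYH (helper99): `EX i`, `EX 0` OF THE HOT PAIRS FOR `C.U ka` AND FOR THE THEORIES `A`, `B`

`Q = C.QH i a s uB u0` (helper22's kind), stays `Q' = C.QH i (a - 2) (4 s) uB' u0'` (any thresholds), `H : Seen (C.U ka)`,
`MA = AB.MA (C.U ka) yp H`, `QA = AB.QA (C.U ka) Q`, `MB`, `QB` (any `K`): at most `x^10`.
* `exhU_v`, `exhU_0` : `C.U ka`; **`exhA_v`**, **`exhA_0`**, **`exhB_v`**, **`exhB_0`** : theories `A`, `B`; any counting steps with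
  `GdX`, `Gd0` (`Ctx.A0` has them).
-/

set_option autoImplicit false
set_option linter.unusedSectionVars false

namespace Pool.Agent.GMH.CX

open Finset Pool.Agent.PWZ Pool.Agent.M3 Pool.Agent.GMH Pool.Agent.GMH.KF Pool.Agent.GMH.CT Pool.Agent.GMH.ExK
open Pool.Agent.GMH.V3 Pool.Agent.GMH.TP Pool.Agent.GMH.Dy Pool.Agent.GMH.CK Pool.Agent.GMH.MV Pool.Agent.GMH.KDT
open Pool.Agent.GMH.TD Pool.Agent.GMH.UV Pool.Agent.GMH.TRF

noncomputable section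

variable {C : Ctx} {ka : ℕ} (hka : ka + 1 ≤ C.c0) {yp : ℝ} (H : Seen (C.U ka)) {K : Finset (Fin 3)}
  {A : Stps (Om := C.O)} {i : Fin 3} {a s uB u0 uB' u0' : ℝ} (hs : 0 < s)

/-- the relation of the kind -/
theorem qh_some {j : Fin 3} {τ : ℕ} {w : C.O} (hh : (C.QH i a s uB u0).kv (some j) τ w) : j = i ∧ C.HK i a s τ w :=
  ⟨hh.1 j rfl, hh.2.1⟩

theorem qh_none {τ : ℕ} {w : C.O} (hh : (C.QH i a s uB u0).kv Option.none τ w) : C.HK i a s τ w := hh.2.1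

theorem qs_none {τ : ℕ} {w : C.O} (hh : SHt C i a s τ w) : (C.QH i a s uB u0).kv Option.none τ w :=
  hotO_none.2 hh

theorem qs_some {τ : ℕ} {w : C.O} (hh : SHt C i a s τ w) : (C.QH i a s uB u0).kv (some i) τ w :=
  hotO_some.2 hh

theorem kvHA {v : Fin 3} {q : ℕ} {w : C.O}
    (hh : (AB.QA (C.U ka) (C.QH i a s uB u0)).kv (some v) (tv (AB.MA (C.U ka) yp H) v q w) w) :
    (C.QH i a s uB u0).kv (some v) (tauS (C.U ka).toMS v q w) w := by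
  have h1 : (C.QH i a s uB u0).kv (some v) (tauS (C.U ka).toMS v (tv (AB.MA (C.U ka) yp H) v q w) w) w := hh.1
  rwa [AB.tauS_A] at h1

theorem kvHB {v : Fin 3} {q : ℕ} {w : C.O}
    (hh : (AB.QB (C.U ka) (C.QH i a s uB u0) K).kv (some v) (tv (AB.MB (C.U ka) (C.QH i a s uB u0) yp H) v q w) w) :
    (C.QH i a s uB u0).kv (some v) (tauS (C.U ka).toMS v q w) w := by
  have h1 : (C.QH i a s uB u0).kv (some v) (tauS (C.U ka).toMS v (tv (AB.MB (C.U ka) (C.QH i a s uB u0) yp H) v q w) w) w :=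
    hh.1.1
  rwa [AB.tauS_B] at h1

include hka hs

/-- **EX i**, `C.U ka` -/
theorem exhU_v (hG : GdX C ka (C.U ka) (C.QH i a s uB u0) A i) :
    ∑ q ∈ range (5 * C.T), (C.U ka).P.Pr
      (exv (C.U ka) (C.QH i a s uB u0) (C.QH i (a - 2) (4 * s) uB' u0') A i q) ≤ pw C.Lam 10 :=
  exh_v hka rfl hG hs (fun _ _ _ hh => (qh_some hh).2) fun _ _ _ hh => qs_some hh

/-- **EX 0**, `C.U ka` -/
theorem exhU_0 {v : Option (Fin 3)} (hG : Gd0 C ka (C.U ka) (C.QH i a s uB u0) A v) :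
    ∑ q ∈ range (5 * C.T), (C.U ka).P.Pr
      (ex0 (C.U ka) (C.QH i a s uB u0) (C.QH i (a - 2) (4 * s) uB' u0') A v q) ≤ pw C.Lam 10 :=
  exh_0 hka rfl hG hs (fun _ _ _ _ hh => qh_none (uB := uB) (u0 := u0) hh)
    (fun j _ _ _ _ hh => by obtain ⟨e, h1⟩ := qh_some hh.1; subst e; exact ⟨rfl, h1⟩) fun _ _ _ hh => qs_none hh

/-- **EX i, theory A** -/
theorem exhA_v (hG : GdX C ka (AB.MA (C.U ka) yp H) (AB.QA (C.U ka) (C.QH i a s uB u0)) A i) :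
    ∑ q ∈ range (5 * C.T), (AB.MA (C.U ka) yp H).P.Pr
      (exv (AB.MA (C.U ka) yp H) (AB.QA (C.U ka) (C.QH i a s uB u0)) (C.QH i (a - 2) (4 * s) uB' u0') A i q) ≤
        pw C.Lam 10 :=
  exh_v hka rfl hG hs (fun _ _ _ hh => (qh_some (kvHA H hh)).2) fun _ _ _ hh => qs_some hh

/-- **EX 0, theory A** -/
theorem exhA_0 {v : Option (Fin 3)} (hG : Gd0 C ka (AB.MA (C.U ka) yp H) (AB.QA (C.U ka) (C.QH i a s uB u0)) A v) :
    ∑ q ∈ range (5 * C.T), (AB.MA (C.U ka) yp H).P.Pr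
      (ex0 (AB.MA (C.U ka) yp H) (AB.QA (C.U ka) (C.QH i a s uB u0)) (C.QH i (a - 2) (4 * s) uB' u0') A v q) ≤
        pw C.Lam 10 :=
  exh_0 hka rfl hG hs (fun _ _ _ _ hh => qh_none (uB := uB) (u0 := u0) hh)
    (fun j _ _ _ _ hh => by obtain ⟨e, h1⟩ := qh_some (kvHA H hh.1); subst e; exact ⟨rfl, h1⟩) fun _ _ _ hh => qs_none hh

/-- **EX i, theory B** -/
theorem exhB_v
    (hG : GdX C ka (AB.MB (C.U ka) (C.QH i a s uB u0) yp H) (AB.QB (C.U ka) (C.QH i a s uB u0) K) A i) :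
    ∑ q ∈ range (5 * C.T), (AB.MB (C.U ka) (C.QH i a s uB u0) yp H).P.Pr
      (exv (AB.MB (C.U ka) (C.QH i a s uB u0) yp H) (AB.QB (C.U ka) (C.QH i a s uB u0) K)
        (C.QH i (a - 2) (4 * s) uB' u0') A i q) ≤ pw C.Lam 10 :=
  exh_v hka rfl hG hs (fun _ _ _ hh => (qh_some (kvHB H hh)).2) fun _ _ _ hh => qs_some hh

/-- **EX 0, theory B** -/
theorem exhB_0 {v : Option (Fin 3)}
    (hG : Gd0 C ka (AB.MB (C.U ka) (C.QH i a s uB u0) yp H) (AB.QB (C.U ka) (C.QH i a s uB u0) K) A v) :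
    ∑ q ∈ range (5 * C.T), (AB.MB (C.U ka) (C.QH i a s uB u0) yp H).P.Pr
      (ex0 (AB.MB (C.U ka) (C.QH i a s uB u0) yp H) (AB.QB (C.U ka) (C.QH i a s uB u0) K)
        (C.QH i (a - 2) (4 * s) uB' u0') A v q) ≤ pw C.Lam 10 :=
  exh_0 hka rfl hG hs (fun _ _ _ _ hh => qh_none (uB := uB) (u0 := u0) hh.1)
    (fun j _ _ _ _ hh => by obtain ⟨e, h1⟩ := qh_some (kvHB H hh.1); subst e; exact ⟨rfl, h1⟩) fun _ _ _ hh => qs_none hh

end

end Pool.Agent.GMH.CX
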