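import Pool.Agent.GMH.Key3

/-!
# GMH.Key3R: KEY3 with the weak part at thin strong points left free (helper78, after helper79's note 3992)

`Tq` = any event which contains the points with a thin ratio `> B`.  There is no hypothesis at the points of `Tq` about the
weak tuples: the weak part of the normalising sum on `Tq` (`WKGF`, with the cut density and the release weight) and the first
order terms (`TVF`) are terms of the conclusion, in the real law.
* `key3r` : the general form;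
* `wkg_le` : the weak part at one point by first order terms, pairs and bad pairs;
* `key3h` : the form with real second order weights: thin strong points inside `Rth` are cut, outside they cost
  `PAF`, `HBF`, `RWF`, `TVF`.
-/

set_option autoImplicit false
set_option linter.unusedSectionVars false
set_option linter.unusedVariables false

namespace Pool.Agent.GMH

open Finset Pool.Agent.PWZ Pool.Agent.M3

noncomputable section

section key

variable {Om : Type*} [Fintype Om] (P : FP Om) {α β γ φ : Type*} {Z : Om → β} {Zb : Fin 3 → Om → α}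
  (F : Fin 3 → Om → φ) (Y : Fin 3 → Om → γ)

variable (hZ : ∀ i, Fac Z (Zb i))

variable {B eps : ℝ} {al : Om → ℝ}

variable (Z Zb) in
/-- distance of the laws of one top -/
def TVF (i : Fin 3) (w : Om) : ℝ := ∑ x ∈ vals (F i), |mF P Z F i w x - qF P Zb F i w x|

variable (Zb) in
/-- the weak part of the normalising sum at a point, with the cut density and the release weight -/
def WKGF (B : ℝ) (a G : Om → (Fin 3 → φ) → ℝ) (w : Om) : ℝ :=
  ∑ f ∈ let_ F, (∏ i, hwk B (rF P Zb F Y i w (f i))) * ((∏ i, qF P Zb F i w (f i)) * (a w f * (G w f - 1)))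

include hZ in
/-- **KEY3, thin strong points free** -/
theorem key3r (hB : Real.exp 2 ≤ B) {d dd eta e1 c1 c2 : ℝ} (hd : 0 ≤ d) (hdd : 0 ≤ dd) (heta : 0 ≤ eta)
    (heta1 : eta ≤ 1) (he1 : 0 ≤ e1) (heB : 1 + e1 ≤ B) (heps : 0 ≤ eps)
    (hc1 : (1 + e1) ^ 2 - 1 + eta + (B ^ 2 * dd + d) ≤ c1) (hc2 : (1 + e1) ^ 2 + (B ^ 2 * dd + 1) ≤ c2)
    (hal : Fac Z al) (h0 : ∀ w, 0 ≤ al w) (h1 : ∀ w, al w ≤ 1)
    {G a : Om → (Fin 3 → φ) → ℝ} {Reg : Om → (Fin 3 → φ) → Prop} {ai : Om → Fin 3 → φ → ℝ} {bd : Om → Fin 3 → φ → Prop}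
    {Tq : Om → Prop} {H : Om → φ → φ → Prop} (ha0 : ∀ w f, 0 ≤ a w f) (ha1 : ∀ w f, a w f ≤ 1)
    (hai0 : ∀ w i x, 0 ≤ ai w i x) (hai1 : ∀ w i x, ai w i x ≤ 1)
    -- the cut density
    (hG : ∀ w, P.p w ≠ 0 → ∀ f ∈ let_ F, ¬ Reg w f → G w f = pF P Z F w f / ∏ i, qF P Zb F i w (f i))
    (hGR : ∀ w, P.p w ≠ 0 → ∀ f ∈ let_ F, Reg w f → G w f ≤ eta)
    -- released letters with bad rows
    (hai : ∀ w, P.p w ≠ 0 → ∀ f ∈ let_ F, ∀ i, SBF P (Zb := Zb) F Y B bd i w (f i) →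
      (∀ k, k ≠ i → ¬ SBF P (Zb := Zb) F Y B bd k w (f k)) → a w f = ai w i (f i))
    -- the region
    (Ra : ∀ w, P.p w ≠ 0 → ∀ f ∈ let_ F, ∀ i, SBF P (Zb := Zb) F Y B bd i w (f i) → ∀ k, k ≠ i →
      1 + e1 < rF P Zb F Y k w (f k) → Reg w f)
    (Rb : ∀ w, P.p w ≠ 0 → ∀ f ∈ let_ F, ∀ i, B < rF P Zb F Y i w (f i) → bxF P F Y (Z := Z) (Zb := Zb) B d i w (f i) → Reg w f)
    (Rc : ∀ w, P.p w ≠ 0 → ∀ f ∈ let_ F, ∀ i k, i ≠ k → B < rF P Zb F Y i w (f i) → B < rF P Zb F Y k w (f k) →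
      (1 + d) * ∏ j, qF P Zb F j w (f j) < pF P Z F w f → Reg w f)
    (hgood : ∀ w, P.p w ≠ 0 → ∀ i, ∀ x ∈ vals (F i), B < rF P Zb F Y i w x → ¬ bd w i x →
      ∑ f ∈ let_ F, ind (f i = x) * |pF P Z F w f - mF P Z F i w (f i) * ∏ k ∈ univ.erase i, qF P Zb F k w (f k)| ≤
        dd * mF P Z F i w x)
    -- the thin strong points
    (hTq : ∀ w, P.p w ≠ 0 → (∃ i, B < tF P Z Zb Y i w) → Tq w)
    (hR1 : ∀ w, P.p w ≠ 0 → ¬ Tq w → ∀ f ∈ let_ F, (¬ ∃ i, B < rF P Zb F Y i w (f i)) → ¬ Reg w f)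
    -- two tops
    (hpair : ∀ i k : Fin 3, i < k → ∀ l m : Om → φ → ℝ, (∀ x, Fac (Zb i) (fun w => l w x)) →
      (∀ y, Fac (Zb k) (fun w => m w y)) → (∀ w x, 0 ≤ l w x) → (∀ w y, 0 ≤ m w y) →
      P.E (fun w => ∑ x ∈ vals (F i), ∑ y ∈ vals (F k),
        al w * |mF2 P Z F i k w x y - qF P Zb F i w x * qF P Zb F k w y| * (l w x * m w y)) ≤
        eps * Real.sqrt (P.E (fun w => ∑ x ∈ vals (F i), qF P Zb F i w x * l w x ^ 2) *
          P.E (fun w => ∑ y ∈ vals (F k), qF P Zb F k w y * m w y ^ 2)))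
    -- the third top against a pair
    (hHf : ∀ x y, Fac Z (fun w => ind (H w x y)))
    (hH : ∀ w, P.p w ≠ 0 → ¬ Tq w → ∀ x ∈ vals (F 0), ∀ y ∈ vals (F 1), ¬ H w x y →
      ∑ f ∈ let_ F, ind (f 0 = x ∧ f 1 = y) * |pF P Z F w f - mF2 P Z F 0 1 w x y * qF P Zb F 2 w (f 2)| ≤
        dd * mF2 P Z F 0 1 w x y)
    (htrip : ∀ l m : Om → φ → ℝ, (∀ x, Fac (Zb 0) (fun w => l w x)) →
      (∀ y, Fac (Zb 1) (fun w => m w y)) → (∀ w x, 0 ≤ l w x) → (∀ w y, 0 ≤ m w y) →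
      P.E (fun w => ∑ x ∈ vals (F 0), ∑ y ∈ vals (F 1),
        al w * (ind (H w x y) * mF2 P Z F 0 1 w x y) * (l w x * m w y)) ≤
        eps * Real.sqrt (P.E (fun w => ∑ x ∈ vals (F 0), qF P Zb F 0 w x * l w x ^ 2) *
          P.E (fun w => ∑ y ∈ vals (F 1), qF P Zb F 1 w y * m w y ^ 2))) :
    P.E (fun w => al w * ∑ f ∈ let_ F, (∏ i, qF' P Zb F Y i w (f i)) * (a w f * (G w f - 1))) ≤
      (c1 + c2 * d + (4 + 2 * B + B * dd) * (B ^ 2 * eps) + B ^ 2 * dd) * ∑ i, gn P (Zb i) (F i) (Y i) +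
      (c2 * B + 1) * ∑ i, Gd P (Zb i) Z (F i) (Y i) al +
      B * ∑ i, Real.sqrt (8 * (Gd P (Zb i) Z (F i) (Y i) al * Dt P (Zb i) Z (Y i))) +
      B * P.E (fun w => al w * (ind (Tq w) * ∑ i, TVF P Z Zb F i w)) +
      P.E (fun w => al w * (ind (Tq w) * WKGF P Zb F Y B a G w)) +
      P.E (fun w => al w * PRF P F Y (Zb := Zb) B bd ai w) +
      P.E (fun w => al w * (ind (¬ Tq w) * RWF P F Y (Z := Z) (Zb := Zb) B a w)) := by
  classical
  have hB1 : 1 ≤ B := by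
    have := Real.add_one_le_exp 2
    linarith
  have hB0 : 0 ≤ B := by linarith
  have hpw1 : (1 : ℝ) ≤ (1 + e1) ^ 2 := one_le_pow₀ (by linarith)
  have hc10 : 0 ≤ c1 := by
    have : 0 ≤ B ^ 2 * dd := by positivity
    linarith
  have hc20 : 0 ≤ c2 := by
    have : 0 ≤ B ^ 2 * dd := by positivity
    linarith
  -- one point
  have A1 : ∀ w, P.p w ≠ 0 → al w * ∑ f ∈ let_ F, (∏ i, qF' P Zb F Y i w (f i)) * (a w f * (G w f - 1)) ≤
      al w * (ind (¬ Tq w) * WKF P F Y (Z := Z) (Zb := Zb) B w) + al w * (ind (¬ Tq w) * RWF P F Y (Z := Z) (Zb := Zb) B a w) +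
        al w * (ind (Tq w) * WKGF P Zb F Y B a G w) +
        al w * STF P F Y (Z := Z) (Zb := Zb) B d c1 c2 w + al w * PRF P F Y (Zb := Zb) B bd ai w := by
    intro w hw
    set t := tK P F Y hZ hw with ht
    have hr : ∀ i x, t.r i x = rF P Zb F Y i w x := tK_r P F Y hZ hw
    have hmg : ∀ i x, t.mg i x = mF P Z F i w x := tK_mg P F Y hZ hw
    have main : ∑ f ∈ let_ F, (∏ i, qF' P Zb F Y i w (f i)) * (a w f * (G w f - 1)) ≤
        ind (¬ Tq w) * WKF P F Y (Z := Z) (Zb := Zb) B w + ind (¬ Tq w) * RWF P F Y (Z := Z) (Zb := Zb) B a w +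
          ind (Tq w) * WKGF P Zb F Y B a G w +
          STF P F Y (Z := Z) (Zb := Zb) B d c1 c2 w + PRF P F Y (Zb := Zb) B bd ai w := by
      have k2 := t.strong_le (B := B) (d := d) (dd := dd) (eta := eta) (e1 := e1) (bd := bd w)
        (bx := fun i x => bxF P F Y (Z := Z) (Zb := Zb) B d i w x) (Reg := Reg w) (G := G w) (a := a w) (ai := ai w)
        hB1 hd hdd heta heta1 he1 heB (hG w hw) (hGR w hw) (ha0 w) (ha1 w) (hai0 w) (hai1 w)
        (fun f hf i hi hk => hai w hw f hf i (by unfold SBF; unfold KT.SB at hi; rw [hr] at hi; exact hi)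
          (fun k hki hs => hk k hki (by unfold KT.SB; rw [hr]; exact hs)))
        (fun f hf i hi k hki hk => Ra w hw f hf i (by unfold SBF; unfold KT.SB at hi; rw [hr] at hi; exact hi) k hki
          (by rw [hr] at hk; exact hk))
        (fun f hf i hi hb => Rb w hw f hf i (by rw [hr] at hi; exact hi) hb)
        (fun f hf i k hik hi hk hp => Rc w hw f hf i k hik (by rw [hr] at hi; exact hi) (by rw [hr] at hk; exact hk) hp)
        (fun i x hx hs hb => by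
          have := hgood w hw i x hx (by rw [hr] at hs; exact hs) hb
          rw [hmg]
          refine le_trans (le_of_eq (Finset.sum_congr rfl fun f _ => ?_)) this
          unfold KT.rowd
          rw [hmg]
          rfl)
        (c1 := c1) (c2 := c2) hc1 hc2
      have k3 := t.split_sum (B := B) (fun f => (∏ i, t.q' i (f i)) * (a w f * (G w f - 1)))
      have e3 : ∑ i, ∑ x ∈ vals (F i), ind (B < t.r i x) * (c1 * t.q' i x + c2 * (t.r i x *
          (ind (¬ bxF P F Y (Z := Z) (Zb := Zb) B d i w x) * t.ke i x))) =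
          STF P F Y (Z := Z) (Zb := Zb) B d c1 c2 w := by
        unfold STF KT.ke
        refine Finset.sum_congr rfl fun i _ => Finset.sum_congr rfl fun x _ => ?_
        rw [hr, hmg]
        rfl
      have e4 : ∑ i, t.Qa B (bd w) (ai w) i * ∑ k ∈ univ.erase i, t.Qs B (bd w) k =
          PRF P F Y (Zb := Zb) B bd ai w := by
        unfold KT.Qa KT.Qs PRF
        refine Finset.sum_congr rfl fun i _ => ?_
        congr 1
        · refine Finset.sum_congr rfl fun x _ => ?_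
          unfold KT.SB SBF
          rw [hr]
          rfl
        · refine Finset.sum_congr rfl fun k _ => Finset.sum_congr rfl fun x _ => ?_
          unfold KT.SB SBF
          rw [hr]
          rfl
      rw [e3, e4] at k2
      refine le_trans (le_of_eq k3) ?_
      by_cases hT : Tq w
      · have e5 : ∑ f ∈ let_ F, ind (¬ ∃ i, B < t.r i (f i)) * ((∏ i, t.q' i (f i)) * (a w f * (G w f - 1))) =
            WKGF P Zb F Y B a G w := by
          unfold WKGF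
          refine Finset.sum_congr rfl fun f hf => ?_
          have e7 : (∏ i, hwk B (rF P Zb F Y i w (f i))) = ∏ i, hwk B (t.r i (f i)) :=
            Finset.prod_congr rfl fun i _ => by rw [hr]
          rw [e7]
          by_cases hs : ∃ i, B < t.r i (f i)
          · rw [ind_not (not_not.2 hs), t.prod_hwk_strong hs]
            ring
          · rw [ind_of hs, t.prod_hwk_weak hs, ← t.prod_rq hf]
            have e8 : t.pq f = ∏ i, qF P Zb F i w (f i) := rfl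
            rw [e8]
            ring
        rw [ind_not (not_not.2 hT), ind_of hT]
        have e6 : ∑ f ∈ let_ F, ind (¬ ∃ i, B < t.r i (f i)) * ((∏ i, t.q' i (f i)) * (a w f * (G w f - 1))) =
          ∑ f ∈ Fintype.piFinset fun i => vals (F i), ind (¬ ∃ i, B < t.r i (f i)) *
            ((∏ i, t.q' i (f i)) * (a w f * (G w f - 1))) := rfl
        rw [← e6, e5]
        linarith
      · have k1 := t.weak_le (B := B) (Reg := Reg w) (G := G w) (a := a w) (hG w hw) (ha0 w) (ha1 w)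
          (fun f hf hs => hR1 w hw hT f hf (fun ⟨i, hi⟩ => hs ⟨i, by rw [hr]; exact hi⟩))
        have e1 : t.WK B = WKF P F Y (Z := Z) (Zb := Zb) B w := by
          unfold KT.WK WKF
          refine Finset.sum_congr rfl fun f _ => ?_
          simp only [hr]
          rfl
        have e2 : t.RW B (a w) = RWF P F Y (Z := Z) (Zb := Zb) B a w := by
          unfold KT.RW RWF
          refine Finset.sum_congr rfl fun f _ => ?_
          simp only [hr]
          rfl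
        rw [e1, e2] at k1
        rw [ind_of hT, ind_not hT]
        linarith
    have := mul_le_mul_of_nonneg_left main (h0 w)
    linarith
  -- the weak part at a point
  set m : Fin 3 → Om → ℝ := fun i w => mxF P F Y (Zb := Zb) B i w with hm
  have hm0 : ∀ i w, 0 ≤ m i w := fun i w => Finset.sum_nonneg fun x _ => mul_nonneg (P.pv_nonneg _ _ _ _) (abs_nonneg _)
  have hPA0 : ∀ i k w, 0 ≤ PAF P F Y (Z := Z) (Zb := Zb) B i k w := fun i k w => Finset.sum_nonneg fun x _ =>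
    Finset.sum_nonneg fun y _ => mul_nonneg (abs_nonneg _) (mul_nonneg (abs_nonneg _) (abs_nonneg _))
  have hHB0 : ∀ w, 0 ≤ HBF P F Y (Z := Z) (Zb := Zb) B H w := fun w => Finset.sum_nonneg fun x _ =>
    Finset.sum_nonneg fun y _ => mul_nonneg (mul_nonneg (ind_nonneg _) (P.pv_nonneg _ _ _ _))
      (mul_nonneg (abs_nonneg _) (abs_nonneg _))
  have hTV0 : ∀ i w, 0 ≤ TVF P Z Zb F i w := fun i w => Finset.sum_nonneg fun x _ => abs_nonneg _
  have A2 : ∀ w, P.p w ≠ 0 → al w * (ind (¬ Tq w) * WKF P F Y (Z := Z) (Zb := Zb) B w) ≤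
      ∑ i, al w * (ind (¬ B < tau P (Zb i) Z (Y i) w (Y i w)) * phi1 P (Zb i) Z (F i) (Y i) B w (Y i w)) +
      B * (al w * (ind (Tq w) * ∑ i, TVF P Z Zb F i w)) +
      ((2 + B * dd) * (ind (¬ Tq w) * (al w * PAF P F Y (Z := Z) (Zb := Zb) B 0 1 w)) +
        ind (¬ Tq w) * (al w * PAF P F Y (Z := Z) (Zb := Zb) B 0 2 w) +
        ind (¬ Tq w) * (al w * PAF P F Y (Z := Z) (Zb := Zb) B 1 2 w)) +
      2 * B * (ind (¬ Tq w) * (al w * HBF P F Y (Z := Z) (Zb := Zb) B H w)) +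
      B * dd * (m 0 w * m 1 w) := by
    intro w hw
    set t := tK P F Y hZ hw with ht
    have hr : ∀ i x, t.r i x = rF P Zb F Y i w x := tK_r P F Y hZ hw
    have hmg : ∀ i x, t.mg i x = mF P Z F i w x := tK_mg P F Y hZ hw
    have hmg2 : ∀ i k x y, t.mg2 i k x y = mF2 P Z F i k w x y := tK_mg2 P F Y hZ hw
    have hxi : ∀ i x, t.xi B i x = xF P F Y (Zb := Zb) B i w x := tK_xi P F Y hZ hw B
    have e1 : t.WK B = WKF P F Y (Z := Z) (Zb := Zb) B w := by
      unfold KT.WK WKF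
      refine Finset.sum_congr rfl fun f _ => ?_
      simp only [hr]
      rfl
    have e2 : ∀ i, t.ph B i = phi1 P (Zb i) Z (F i) (Y i) B w (Y i w) := by
      intro i
      unfold KT.ph phi1
      refine Finset.sum_congr rfl fun x _ => ?_
      rw [hmg, hxi]
      rfl
    have e3 : ∀ i k, t.PA B i k = PAF P F Y (Z := Z) (Zb := Zb) B i k w := by
      intro i k
      unfold KT.PA PAF
      refine Finset.sum_congr rfl fun x _ => Finset.sum_congr rfl fun y _ => ?_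
      rw [hmg2, hxi, hxi]
      rfl
    have e4 : t.HB B (H w) = HBF P F Y (Z := Z) (Zb := Zb) B H w := by
      unfold KT.HB HBF
      refine Finset.sum_congr rfl fun x _ => Finset.sum_congr rfl fun y _ => ?_
      rw [hmg2, hxi, hxi]
    have e5 : ∀ i, t.mx B i = m i w := by
      intro i
      unfold KT.mx
      refine Finset.sum_congr rfl fun x _ => ?_
      rw [hxi]
      rfl
    have a0 := h0 w
    have a1 := h1 w
    have mm : ∀ i k, 0 ≤ m i w * m k w := fun i k => mul_nonneg (hm0 i w) (hm0 k w)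
    have n1 : 0 ≤ B * dd * (m 0 w * m 1 w) := mul_nonneg (by positivity) (mm 0 1)
    have b : ∀ i, -(B * (al w * TVF P Z Zb F i w)) ≤ al w * (ind (¬ B < tau P (Zb i) Z (Y i) w (Y i w)) *
        phi1 P (Zb i) Z (F i) (Y i) B w (Y i w)) := fun i => by
      have q0 : |phi1 P (Zb i) Z (F i) (Y i) B w (Y i w)| ≤ B * TVF P Z Zb F i w := by
        rw [← e2 i]
        refine (t.abs_ph_le hB1 i).trans (mul_le_mul_of_nonneg_left ?_ hB0)
        refine le_of_eq (Finset.sum_congr rfl fun x _ => ?_)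
        rw [hmg]
        rfl
      have b1 : |al w * (ind (¬ B < tau P (Zb i) Z (Y i) w (Y i w)) * phi1 P (Zb i) Z (F i) (Y i) B w (Y i w))| ≤
          B * (al w * TVF P Z Zb F i w) := by
        rw [abs_mul, abs_mul, abs_of_nonneg a0, abs_of_nonneg (ind_nonneg _)]
        have b2 := mul_le_of_le_one_left (abs_nonneg (phi1 P (Zb i) Z (F i) (Y i) B w (Y i w)))
          (ind_le_one (¬ B < tau P (Zb i) Z (Y i) w (Y i w)))
        have b3 := mul_le_mul_of_nonneg_left (b2.trans q0) a0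
        linarith
      exact (abs_le.1 b1).1
    by_cases hT : Tq w
    · rw [ind_not (not_not.2 hT), ind_of hT, zero_mul, mul_zero, Fin.sum_univ_three, Fin.sum_univ_three]
      have b0 := b 0
      have b1 := b 1
      have b2 := b 2
      simp only [zero_mul, mul_zero, add_zero, one_mul]
      linarith
    · have hT' : ∀ i, ¬ B < tF P Z Zb Y i w := fun i hi => hT (hTq w hw ⟨i, hi⟩)
      have k := t.WK_le (B := B) hB1 hdd (H := H w) (fun x hx y hy hxy => by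
        have := hH w hw hT x hx y hy hxy
        rw [hmg2]
        refine le_trans (le_of_eq (Finset.sum_congr rfl fun f _ => ?_)) this
        rw [hmg2]
        rfl)
      rw [e1, e3, e3, e3, e4] at k
      simp only [e5, e2] at k
      have k1 := mul_le_mul_of_nonneg_left k a0
      have hi : ∀ i, ind (¬ B < tau P (Zb i) Z (Y i) w (Y i w)) = 1 := fun i => ind_of (hT' i)
      rw [ind_not hT, ind_of hT]
      simp only [hi, one_mul, zero_mul, mul_zero, add_zero]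
      rw [← Finset.mul_sum]
      have r2 := mul_le_of_le_one_left n1 a1
      linarith
  -- pairs
  have hTSe : ∀ w, P.p w ≠ 0 → ind (¬ Tq w) ≤ ind (∀ j, ¬ B < tF P Z Zb Y j w) := fun w hw => by
    by_cases hT : Tq w
    · rw [ind_not (not_not.2 hT)]
      exact ind_nonneg _
    · rw [ind_of hT, ind_of (show ∀ j, ¬ B < tF P Z Zb Y j w from fun j hj => hT (hTq w hw ⟨j, hj⟩))]
  have B1 : ∀ i k : Fin 3, i < k → P.E (fun w => ind (¬ Tq w) * (al w * PAF P F Y (Z := Z) (Zb := Zb) B i k w)) ≤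
      B ^ 2 * eps * (gn P (Zb i) (F i) (Y i) + gn P (Zb k) (F k) (Y k)) := by
    intro i k hik
    have h2 := pair_gen P F Y hZ (eps := eps) hB i k
      (fun w x y => al w * |mF2 P Z F i k w x y - qF P Zb F i w x * qF P Zb F k w y|)
      (fun x y a b hab => by
        show al a * |mF2 P Z F i k a x y - qF P Zb F i a x * qF P Zb F k a y| =
          al b * |mF2 P Z F i k b x y - qF P Zb F i b x * qF P Zb F k b y|
        unfold mF2 qF
        rw [hal a b hab, pvc P _ hab (x, y), pvc P (F i) (hZ i a b hab) x, pvc P (F k) (hZ k a b hab) y])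
      (fun w x y => mul_nonneg (h0 w) (abs_nonneg _)) (hpair i k hik) heps
    refine le_trans (P.E_mono fun w hw => ?_) h2
    refine le_trans (mul_le_mul_of_nonneg_right (hTSe w hw) (mul_nonneg (h0 w) (hPA0 i k w))) (le_of_eq ?_)
    congr 1
    unfold PAF
    rw [Finset.mul_sum]
    refine Finset.sum_congr rfl fun x _ => ?_
    rw [Finset.mul_sum]
    exact Finset.sum_congr rfl fun y _ => (mul_assoc _ _ _).symm
  have B2 : P.E (fun w => ind (¬ Tq w) * (al w * HBF P F Y (Z := Z) (Zb := Zb) B H w)) ≤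
      B ^ 2 * eps * (gn P (Zb 0) (F 0) (Y 0) + gn P (Zb 1) (F 1) (Y 1)) := by
    have h2 := pair_gen P F Y hZ (eps := eps) hB 0 1
      (fun w x y => al w * (ind (H w x y) * mF2 P Z F 0 1 w x y))
      (fun x y a b hab => by
        have g := hHf x y a b hab
        simp only at g
        show al a * (ind (H a x y) * mF2 P Z F 0 1 a x y) = al b * (ind (H b x y) * mF2 P Z F 0 1 b x y)
        unfold mF2
        rw [hal a b hab, g, pvc P _ hab (x, y)])
      (fun w x y => mul_nonneg (h0 w) (mul_nonneg (ind_nonneg _) (P.pv_nonneg _ _ _ _))) htrip heps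
    refine le_trans (P.E_mono fun w hw => ?_) h2
    refine le_trans (mul_le_mul_of_nonneg_right (hTSe w hw) (mul_nonneg (h0 w) (hHB0 w))) (le_of_eq ?_)
    congr 1
    unfold HBF
    rw [Finset.mul_sum]
    refine Finset.sum_congr rfl fun x _ => ?_
    rw [Finset.mul_sum]
    exact Finset.sum_congr rfl fun y _ => (mul_assoc _ _ _).symm
  have B4 : ∀ i k : Fin 3, P.E (fun w => m i w * m k w) ≤ B * (gn P (Zb i) (F i) (Y i) + gn P (Zb k) (F k) (Y k)) :=
    fun i k => E_mx_mul P F Y (Zb := Zb) hB i k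
  have B5 : ∀ i, P.E (fun w => al w * (ind (¬ B < tau P (Zb i) Z (Y i) w (Y i w)) *
      phi1 P (Zb i) Z (F i) (Y i) B w (Y i w))) ≤ Gd P (Zb i) Z (F i) (Y i) al +
        B * Real.sqrt (8 * (Gd P (Zb i) Z (F i) (Y i) al * Dt P (Zb i) Z (Y i))) := fun i =>
    (le_abs_self _).trans (first_le P (Zb i) Z (F i) (Y i) (hZ i) hB hal h0 h1)
  have B6 := E_ST P F Y hZ hB hd hc10 hc20 hal h0 h1
  -- the weak part in the mean
  have C1 : P.E (fun w => al w * (ind (¬ Tq w) * WKF P F Y (Z := Z) (Zb := Zb) B w)) ≤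
      ∑ i, (Gd P (Zb i) Z (F i) (Y i) al + B * Real.sqrt (8 * (Gd P (Zb i) Z (F i) (Y i) al * Dt P (Zb i) Z (Y i)))) +
      B * P.E (fun w => al w * (ind (Tq w) * ∑ i, TVF P Z Zb F i w)) +
      ((2 + B * dd) * (B ^ 2 * eps * (gn P (Zb 0) (F 0) (Y 0) + gn P (Zb 1) (F 1) (Y 1))) +
        B ^ 2 * eps * (gn P (Zb 0) (F 0) (Y 0) + gn P (Zb 2) (F 2) (Y 2)) +
        B ^ 2 * eps * (gn P (Zb 1) (F 1) (Y 1) + gn P (Zb 2) (F 2) (Y 2))) +
      2 * B * (B ^ 2 * eps * (gn P (Zb 0) (F 0) (Y 0) + gn P (Zb 1) (F 1) (Y 1))) +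
      B * dd * (B * (gn P (Zb 0) (F 0) (Y 0) + gn P (Zb 1) (F 1) (Y 1))) := by
    refine (P.E_mono A2).trans ?_
    simp only [P.E_add, P.E_smul]
    have e0 : P.E (fun w => ∑ i, al w * (ind (¬ B < tau P (Zb i) Z (Y i) w (Y i w)) *
        phi1 P (Zb i) Z (F i) (Y i) B w (Y i w))) = ∑ i, P.E (fun w => al w * (ind (¬ B < tau P (Zb i) Z (Y i) w (Y i w)) *
        phi1 P (Zb i) Z (F i) (Y i) B w (Y i w))) := P.E_sum _ _
    rw [e0]
    have g1 := Finset.sum_le_sum fun i (_ : i ∈ (univ : Finset (Fin 3))) => B5 i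
    have g3 := mul_le_mul_of_nonneg_left (B1 0 1 (by decide)) (show 0 ≤ 2 + B * dd by positivity)
    have g4 := B1 0 2 (by decide)
    have g5 := B1 1 2 (by decide)
    have g6 := mul_le_mul_of_nonneg_left B2 (show 0 ≤ 2 * B by positivity)
    have g7 := mul_le_mul_of_nonneg_left (B4 0 1) (show 0 ≤ B * dd by positivity)
    linarith
  have g0 := gn_nn P (Zb 0) (F 0) (Y 0)
  have g1 := gn_nn P (Zb 1) (F 1) (Y 1)
  have g2 := gn_nn P (Zb 2) (F 2) (Y 2)
  have C2 := (P.E_mono A1)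
  simp only [P.E_add] at C2
  refine C2.trans ?_
  set S : ℝ := ∑ i, gn P (Zb i) (F i) (Y i) with hS
  have hS3 : S = gn P (Zb 0) (F 0) (Y 0) + gn P (Zb 1) (F 1) (Y 1) + gn P (Zb 2) (F 2) (Y 2) := Fin.sum_univ_three _
  have p01 : gn P (Zb 0) (F 0) (Y 0) + gn P (Zb 1) (F 1) (Y 1) ≤ S := by linarith
  have p02 : gn P (Zb 0) (F 0) (Y 0) + gn P (Zb 2) (F 2) (Y 2) ≤ S := by linarith
  have p12 : gn P (Zb 1) (F 1) (Y 1) + gn P (Zb 2) (F 2) (Y 2) ≤ S := by linarith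
  have D1 : (2 + B * dd) * (B ^ 2 * eps * (gn P (Zb 0) (F 0) (Y 0) + gn P (Zb 1) (F 1) (Y 1))) +
        B ^ 2 * eps * (gn P (Zb 0) (F 0) (Y 0) + gn P (Zb 2) (F 2) (Y 2)) +
        B ^ 2 * eps * (gn P (Zb 1) (F 1) (Y 1) + gn P (Zb 2) (F 2) (Y 2)) +
      2 * B * (B ^ 2 * eps * (gn P (Zb 0) (F 0) (Y 0) + gn P (Zb 1) (F 1) (Y 1))) +
      B * dd * (B * (gn P (Zb 0) (F 0) (Y 0) + gn P (Zb 1) (F 1) (Y 1))) ≤
      ((4 + 2 * B + B * dd) * (B ^ 2 * eps) + B ^ 2 * dd) * S := by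
    have r1 := mul_le_mul_of_nonneg_left p01 (show 0 ≤ (2 + B * dd) * (B ^ 2 * eps) + 2 * B * (B ^ 2 * eps) +
      B * dd * B by positivity)
    have r2 := mul_le_mul_of_nonneg_left p02 (show 0 ≤ B ^ 2 * eps by positivity)
    have r3 := mul_le_mul_of_nonneg_left p12 (show 0 ≤ B ^ 2 * eps by positivity)
    nlinarith
  have D2 : ∑ i, ((c1 + c2 * d) * gn P (Zb i) (F i) (Y i) + c2 * (B * Gd P (Zb i) Z (F i) (Y i) al)) =
      (c1 + c2 * d) * S + c2 * B * ∑ i, Gd P (Zb i) Z (F i) (Y i) al := by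
    rw [Finset.sum_add_distrib, ← Finset.mul_sum, ← Finset.mul_sum, ← Finset.mul_sum, mul_assoc c2 B]
  have D3 : ∑ i, (Gd P (Zb i) Z (F i) (Y i) al + B * Real.sqrt (8 * (Gd P (Zb i) Z (F i) (Y i) al *
      Dt P (Zb i) Z (Y i)))) = ∑ i, Gd P (Zb i) Z (F i) (Y i) al +
      B * ∑ i, Real.sqrt (8 * (Gd P (Zb i) Z (F i) (Y i) al * Dt P (Zb i) Z (Y i))) := by
    rw [Finset.sum_add_distrib, ← Finset.mul_sum]
  rw [D2] at B6
  rw [D3] at C1
  linarith

/-- second order terms at a point -/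
def PSF (B dd : ℝ) (Z : Om → β) (Zb : Fin 3 → Om → α) (H : Om → φ → φ → Prop) (w : Om) : ℝ :=
  (2 + B * dd) * PAF P F Y (Z := Z) (Zb := Zb) B 0 1 w + PAF P F Y (Z := Z) (Zb := Zb) B 0 2 w +
    PAF P F Y (Z := Z) (Zb := Zb) B 1 2 w + 2 * B * HBF P F Y (Z := Z) (Zb := Zb) B H w

theorem PSF_nn (hB : 0 ≤ B) {dd : ℝ} (hdd : 0 ≤ dd) (H : Om → φ → φ → Prop) (w : Om) : 0 ≤ PSF P F Y B dd Z Zb H w := by
  have hPA0 : ∀ i k w, 0 ≤ PAF P F Y (Z := Z) (Zb := Zb) B i k w := fun i k w => Finset.sum_nonneg fun x _ =>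
    Finset.sum_nonneg fun y _ => mul_nonneg (abs_nonneg _) (mul_nonneg (abs_nonneg _) (abs_nonneg _))
  have hHB0 : ∀ w, 0 ≤ HBF P F Y (Z := Z) (Zb := Zb) B H w := fun w => Finset.sum_nonneg fun x _ =>
    Finset.sum_nonneg fun y _ => mul_nonneg (mul_nonneg (ind_nonneg _) (P.pv_nonneg _ _ _ _))
      (mul_nonneg (abs_nonneg _) (abs_nonneg _))
  unfold PSF
  have h1 := mul_nonneg (show 0 ≤ 2 + B * dd by positivity) (hPA0 0 1 w)
  have h2 := mul_nonneg (show 0 ≤ 2 * B by positivity) (hHB0 w)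
  have h3 := hPA0 0 2 w
  have h4 := hPA0 1 2 w
  linarith

include hZ in
/-- the weak part at one point : first order terms, pairs, bad pairs, released letters -/
theorem wkg_le (hB : 1 ≤ B) {dd : ℝ} (hdd : 0 ≤ dd) {G a : Om → (Fin 3 → φ) → ℝ} {Reg : Om → (Fin 3 → φ) → Prop}
    {H : Om → φ → φ → Prop} {w : Om} (hw : P.p w ≠ 0) (ha0 : ∀ f, 0 ≤ a w f) (ha1 : ∀ f, a w f ≤ 1)
    (hG : ∀ f ∈ let_ F, ¬ Reg w f → G w f = pF P Z F w f / ∏ i, qF P Zb F i w (f i))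
    (hR : ∀ f ∈ let_ F, (¬ ∃ i, B < rF P Zb F Y i w (f i)) → ¬ Reg w f)
    (hH : ∀ x ∈ vals (F 0), ∀ y ∈ vals (F 1), ¬ H w x y →
      ∑ f ∈ let_ F, ind (f 0 = x ∧ f 1 = y) * |pF P Z F w f - mF2 P Z F 0 1 w x y * qF P Zb F 2 w (f 2)| ≤
        dd * mF2 P Z F 0 1 w x y) :
    WKGF P Zb F Y B a G w ≤ B * ∑ i, TVF P Z Zb F i w + PSF P F Y B dd Z Zb H w +
      B * dd * (mxF P F Y (Zb := Zb) B 0 w * mxF P F Y (Zb := Zb) B 1 w) + RWF P F Y (Z := Z) (Zb := Zb) B a w := by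
  classical
  have hB0 : 0 ≤ B := by linarith
  set t := tK P F Y hZ hw with ht
  have hr : ∀ i x, t.r i x = rF P Zb F Y i w x := tK_r P F Y hZ hw
  have hmg : ∀ i x, t.mg i x = mF P Z F i w x := tK_mg P F Y hZ hw
  have hmg2 : ∀ i k x y, t.mg2 i k x y = mF2 P Z F i k w x y := tK_mg2 P F Y hZ hw
  have hxi : ∀ i x, t.xi B i x = xF P F Y (Zb := Zb) B i w x := tK_xi P F Y hZ hw B
  have e1 : t.WK B = WKF P F Y (Z := Z) (Zb := Zb) B w := by
    unfold KT.WK WKF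
    refine Finset.sum_congr rfl fun f _ => ?_
    simp only [hr]
    rfl
  have e2 : t.RW B (a w) = RWF P F Y (Z := Z) (Zb := Zb) B a w := by
    unfold KT.RW RWF
    refine Finset.sum_congr rfl fun f _ => ?_
    simp only [hr]
    rfl
  have e3 : ∀ i k, t.PA B i k = PAF P F Y (Z := Z) (Zb := Zb) B i k w := by
    intro i k
    unfold KT.PA PAF
    refine Finset.sum_congr rfl fun x _ => Finset.sum_congr rfl fun y _ => ?_
    rw [hmg2, hxi, hxi]
    rfl
  have e4 : t.HB B (H w) = HBF P F Y (Z := Z) (Zb := Zb) B H w := by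
    unfold KT.HB HBF
    refine Finset.sum_congr rfl fun x _ => Finset.sum_congr rfl fun y _ => ?_
    rw [hmg2, hxi, hxi]
  have e5 : ∀ i, t.mx B i = mxF P F Y (Zb := Zb) B i w := by
    intro i
    unfold KT.mx
    refine Finset.sum_congr rfl fun x _ => ?_
    rw [hxi]
    rfl
  have e6 : ∑ f ∈ let_ F, ind (¬ ∃ i, B < t.r i (f i)) * ((∏ i, t.q' i (f i)) * (a w f * (G w f - 1))) =
      WKGF P Zb F Y B a G w := by
    unfold WKGF
    refine Finset.sum_congr rfl fun f hf => ?_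
    have e7 : (∏ i, hwk B (rF P Zb F Y i w (f i))) = ∏ i, hwk B (t.r i (f i)) :=
      Finset.prod_congr rfl fun i _ => by rw [hr]
    rw [e7]
    by_cases hs : ∃ i, B < t.r i (f i)
    · rw [ind_not (not_not.2 hs), t.prod_hwk_strong hs]
      ring
    · rw [ind_of hs, t.prod_hwk_weak hs, ← t.prod_rq hf]
      have e8 : t.pq f = ∏ i, qF P Zb F i w (f i) := rfl
      rw [e8]
      ring
  have k1 := t.weak_le (B := B) (Reg := Reg w) (G := G w) (a := a w) hG ha0 ha1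
    (fun f hf hs => hR f hf (fun ⟨i, hi⟩ => hs ⟨i, by rw [hr]; exact hi⟩))
  have k2 := t.WK_le (B := B) hB hdd (H := H w) (fun x hx y hy hxy => by
    have := hH x hx y hy hxy
    rw [hmg2]
    refine le_trans (le_of_eq (Finset.sum_congr rfl fun f _ => ?_)) this
    rw [hmg2]
    rfl)
  have k3 : ∑ i, t.ph B i ≤ B * ∑ i, TVF P Z Zb F i w := by
    rw [Finset.mul_sum]
    refine Finset.sum_le_sum fun i _ => (le_abs_self _).trans ((t.abs_ph_le hB i).trans
      (mul_le_mul_of_nonneg_left (le_of_eq (Finset.sum_congr rfl fun x _ => ?_)) hB0))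
    rw [hmg]
    rfl
  rw [e1, e3, e3, e3, e4] at k2
  simp only [e5] at k2
  have e9 : ∑ f ∈ let_ F, ind (¬ ∃ i, B < t.r i (f i)) * ((∏ i, t.q' i (f i)) * (a w f * (G w f - 1))) =
    ∑ f ∈ Fintype.piFinset fun i => vals (F i), ind (¬ ∃ i, B < t.r i (f i)) *
      ((∏ i, t.q' i (f i)) * (a w f * (G w f - 1))) := rfl
  rw [← e9, e6, e1, e2] at k1
  unfold PSF
  linarith

/-- the weak part is not positive where all tuples are cut -/
theorem wkg_reg {eta : ℝ} (heta1 : eta ≤ 1) {G a : Om → (Fin 3 → φ) → ℝ} {Reg : Om → (Fin 3 → φ) → Prop} {w : Om}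
    (ha0 : ∀ f, 0 ≤ a w f) (hGR : ∀ f ∈ let_ F, Reg w f → G w f ≤ eta)
    (hR : ∀ f ∈ let_ F, (¬ ∃ i, B < rF P Zb F Y i w (f i)) → Reg w f) : WKGF P Zb F Y B a G w ≤ 0 := by
  refine Finset.sum_nonpos fun f hf => ?_
  by_cases hs : ∃ i, B < rF P Zb F Y i w (f i)
  · obtain ⟨i, hi⟩ := hs
    have : hwk B (rF P Zb F Y i w (f i)) = 0 := by
      unfold hwk
      rw [ind_not (not_not.2 hi), zero_mul]
    rw [Finset.prod_eq_zero (mem_univ i) this, zero_mul]
  · have h1 : 0 ≤ ∏ i, hwk B (rF P Zb F Y i w (f i)) := Finset.prod_nonneg fun i _ => hwk_nonneg (rr_nn P _ _ _ _ _ _)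
    have h2 : 0 ≤ ∏ i, qF P Zb F i w (f i) := Finset.prod_nonneg fun i _ => P.pv_nonneg _ _ _ _
    have h3 : G w f - 1 ≤ 0 := by
      have := hGR f hf (hR f hf hs)
      linarith
    exact mul_nonpos_of_nonneg_of_nonpos h1 (mul_nonpos_of_nonneg_of_nonpos h2
      (mul_nonpos_of_nonneg_of_nonpos (ha0 f) h3))

include hZ in
/-- **KEY3 WITH REAL SECOND ORDER WEIGHTS** : thin strong points inside `Rth` are cut, outside they cost their pairs -/
theorem key3h (hB : Real.exp 2 ≤ B) {d dd eta e1 c1 c2 : ℝ} (hd : 0 ≤ d) (hdd : 0 ≤ dd) (heta : 0 ≤ eta)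
    (heta1 : eta ≤ 1) (he1 : 0 ≤ e1) (heB : 1 + e1 ≤ B) (heps : 0 ≤ eps)
    (hc1 : (1 + e1) ^ 2 - 1 + eta + (B ^ 2 * dd + d) ≤ c1) (hc2 : (1 + e1) ^ 2 + (B ^ 2 * dd + 1) ≤ c2)
    (hal : Fac Z al) (h0 : ∀ w, 0 ≤ al w) (h1 : ∀ w, al w ≤ 1)
    {G a : Om → (Fin 3 → φ) → ℝ} {Reg : Om → (Fin 3 → φ) → Prop} {ai : Om → Fin 3 → φ → ℝ} {bd : Om → Fin 3 → φ → Prop}
    {Rth : Om → Prop} {H : Om → φ → φ → Prop} (ha0 : ∀ w f, 0 ≤ a w f) (ha1 : ∀ w f, a w f ≤ 1)
    (hai0 : ∀ w i x, 0 ≤ ai w i x) (hai1 : ∀ w i x, ai w i x ≤ 1)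
    -- the cut density
    (hG : ∀ w, P.p w ≠ 0 → ∀ f ∈ let_ F, ¬ Reg w f → G w f = pF P Z F w f / ∏ i, qF P Zb F i w (f i))
    (hGR : ∀ w, P.p w ≠ 0 → ∀ f ∈ let_ F, Reg w f → G w f ≤ eta)
    -- released letters with bad rows
    (hai : ∀ w, P.p w ≠ 0 → ∀ f ∈ let_ F, ∀ i, SBF P (Zb := Zb) F Y B bd i w (f i) →
      (∀ k, k ≠ i → ¬ SBF P (Zb := Zb) F Y B bd k w (f k)) → a w f = ai w i (f i))
    -- the region
    (Ra : ∀ w, P.p w ≠ 0 → ∀ f ∈ let_ F, ∀ i, SBF P (Zb := Zb) F Y B bd i w (f i) → ∀ k, k ≠ i →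
      1 + e1 < rF P Zb F Y k w (f k) → Reg w f)
    (Rb : ∀ w, P.p w ≠ 0 → ∀ f ∈ let_ F, ∀ i, B < rF P Zb F Y i w (f i) → bxF P F Y (Z := Z) (Zb := Zb) B d i w (f i) → Reg w f)
    (Rc : ∀ w, P.p w ≠ 0 → ∀ f ∈ let_ F, ∀ i k, i ≠ k → B < rF P Zb F Y i w (f i) → B < rF P Zb F Y k w (f k) →
      (1 + d) * ∏ j, qF P Zb F j w (f j) < pF P Z F w f → Reg w f)
    (hgood : ∀ w, P.p w ≠ 0 → ∀ i, ∀ x ∈ vals (F i), B < rF P Zb F Y i w x → ¬ bd w i x →
      ∑ f ∈ let_ F, ind (f i = x) * |pF P Z F w f - mF P Z F i w (f i) * ∏ k ∈ univ.erase i, qF P Zb F k w (f k)| ≤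
        dd * mF P Z F i w x)
    -- the thin region
    (hR1 : ∀ w, P.p w ≠ 0 → ¬ Rth w → ∀ f ∈ let_ F, (¬ ∃ i, B < rF P Zb F Y i w (f i)) → ¬ Reg w f)
    (hR2 : ∀ w, P.p w ≠ 0 → Rth w → ∀ f ∈ let_ F, (¬ ∃ i, B < rF P Zb F Y i w (f i)) → Reg w f)
    -- two tops
    (hpair : ∀ i k : Fin 3, i < k → ∀ l m : Om → φ → ℝ, (∀ x, Fac (Zb i) (fun w => l w x)) →
      (∀ y, Fac (Zb k) (fun w => m w y)) → (∀ w x, 0 ≤ l w x) → (∀ w y, 0 ≤ m w y) →
      P.E (fun w => ∑ x ∈ vals (F i), ∑ y ∈ vals (F k),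
        al w * |mF2 P Z F i k w x y - qF P Zb F i w x * qF P Zb F k w y| * (l w x * m w y)) ≤
        eps * Real.sqrt (P.E (fun w => ∑ x ∈ vals (F i), qF P Zb F i w x * l w x ^ 2) *
          P.E (fun w => ∑ y ∈ vals (F k), qF P Zb F k w y * m w y ^ 2)))
    -- the third top against a pair
    (hHf : ∀ x y, Fac Z (fun w => ind (H w x y)))
    (hH : ∀ w, P.p w ≠ 0 → ∀ x ∈ vals (F 0), ∀ y ∈ vals (F 1), ¬ H w x y →
      ∑ f ∈ let_ F, ind (f 0 = x ∧ f 1 = y) * |pF P Z F w f - mF2 P Z F 0 1 w x y * qF P Zb F 2 w (f 2)| ≤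
        dd * mF2 P Z F 0 1 w x y)
    (htrip : ∀ l m : Om → φ → ℝ, (∀ x, Fac (Zb 0) (fun w => l w x)) →
      (∀ y, Fac (Zb 1) (fun w => m w y)) → (∀ w x, 0 ≤ l w x) → (∀ w y, 0 ≤ m w y) →
      P.E (fun w => ∑ x ∈ vals (F 0), ∑ y ∈ vals (F 1),
        al w * (ind (H w x y) * mF2 P Z F 0 1 w x y) * (l w x * m w y)) ≤
        eps * Real.sqrt (P.E (fun w => ∑ x ∈ vals (F 0), qF P Zb F 0 w x * l w x ^ 2) *
          P.E (fun w => ∑ y ∈ vals (F 1), qF P Zb F 1 w y * m w y ^ 2))) :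
    P.E (fun w => al w * ∑ f ∈ let_ F, (∏ i, qF' P Zb F Y i w (f i)) * (a w f * (G w f - 1))) ≤
      (c1 + c2 * d + (4 + 2 * B + B * dd) * (B ^ 2 * eps) + 2 * (B ^ 2 * dd)) * ∑ i, gn P (Zb i) (F i) (Y i) +
      (c2 * B + 1) * ∑ i, Gd P (Zb i) Z (F i) (Y i) al +
      B * ∑ i, Real.sqrt (8 * (Gd P (Zb i) Z (F i) (Y i) al * Dt P (Zb i) Z (Y i))) +
      2 * B * P.E (fun w => al w * (ind ((∃ i, B < tF P Z Zb Y i w) ∨ Rth w) * ∑ i, TVF P Z Zb F i w)) +
      P.E (fun w => al w * (ind ((∃ i, B < tF P Z Zb Y i w) ∧ ¬ Rth w) * PSF P F Y B dd Z Zb H w)) +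
      P.E (fun w => al w * PRF P F Y (Zb := Zb) B bd ai w) +
      P.E (fun w => al w * (ind (¬ Rth w) * RWF P F Y (Z := Z) (Zb := Zb) B a w)) := by
  classical
  have hB1 : 1 ≤ B := by
    have := Real.add_one_le_exp 2
    linarith
  have hB0 : 0 ≤ B := by linarith
  set Tq : Om → Prop := fun w => (∃ i, B < tF P Z Zb Y i w) ∨ Rth w with hTq
  have k := key3r P F Y hZ hB (a := a) (ai := ai) (bd := bd) (Reg := Reg) (G := G) (H := H) (Tq := Tq) hd hdd heta heta1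
    he1 heB heps hc1 hc2 hal h0 h1 ha0 ha1 hai0 hai1 hG hGR hai Ra Rb Rc hgood (fun w _ h => Or.inl h)
    (fun w hw h f hf hs => hR1 w hw (fun hR => h (Or.inr hR)) f hf hs) hpair hHf (fun w hw _ => hH w hw) htrip
  have hRW0 : ∀ w, 0 ≤ RWF P F Y (Z := Z) (Zb := Zb) B a w := fun w => Finset.sum_nonneg fun f _ =>
    mul_nonneg (by linarith [ha1 w f]) (mul_nonneg (Finset.prod_nonneg fun i _ => hwk_nonneg (rr_nn P _ _ _ _ _ _))
      (abs_nonneg _))
  have hTV0 : ∀ w, 0 ≤ ∑ i, TVF P Z Zb F i w := fun w => Finset.sum_nonneg fun i _ =>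
    Finset.sum_nonneg fun x _ => abs_nonneg _
  have hm0 : ∀ i w, 0 ≤ mxF P F Y (Zb := Zb) B i w := fun i w => Finset.sum_nonneg fun x _ =>
    mul_nonneg (P.pv_nonneg _ _ _ _) (abs_nonneg _)
  have hP0 := PSF_nn P F Y (Z := Z) (Zb := Zb) hB0 hdd H
  have A : P.E (fun w => al w * (ind (Tq w) * WKGF P Zb F Y B a G w)) +
      P.E (fun w => al w * (ind (¬ Tq w) * RWF P F Y (Z := Z) (Zb := Zb) B a w)) ≤
      B * P.E (fun w => al w * (ind (Tq w) * ∑ i, TVF P Z Zb F i w)) +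
      P.E (fun w => al w * (ind ((∃ i, B < tF P Z Zb Y i w) ∧ ¬ Rth w) * PSF P F Y B dd Z Zb H w)) +
      B * dd * P.E (fun w => mxF P F Y (Zb := Zb) B 0 w * mxF P F Y (Zb := Zb) B 1 w) +
      P.E (fun w => al w * (ind (¬ Rth w) * RWF P F Y (Z := Z) (Zb := Zb) B a w)) := by
    rw [← P.E_add, ← P.E_smul, ← P.E_smul, ← P.E_add, ← P.E_add, ← P.E_add]
    refine P.E_mono fun w hw => ?_
    have a0 := h0 w
    have a1 := h1 w
    have n0 := mul_nonneg hB0 (mul_nonneg a0 (mul_nonneg (ind_nonneg (Tq w)) (hTV0 w)))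
    have n1 := mul_nonneg a0 (mul_nonneg (ind_nonneg ((∃ i, B < tF P Z Zb Y i w) ∧ ¬ Rth w)) (hP0 w))
    have n2 : 0 ≤ B * dd * (mxF P F Y (Zb := Zb) B 0 w * mxF P F Y (Zb := Zb) B 1 w) :=
      mul_nonneg (by positivity) (mul_nonneg (hm0 0 w) (hm0 1 w))
    have n3 := mul_nonneg a0 (mul_nonneg (ind_nonneg (¬ Rth w)) (hRW0 w))
    by_cases hR : Rth w
    · have e0 : Tq w := Or.inr hR
      have q := wkg_reg P F Y (Zb := Zb) (B := B) heta1 (ha0 w) (hGR w hw) (hR2 w hw hR)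
      have q1 := mul_nonpos_of_nonneg_of_nonpos a0 q
      rw [ind_of e0] at n0
      rw [ind_of e0, ind_not (not_not.2 e0), one_mul, zero_mul, mul_zero, add_zero]
      linarith
    · by_cases hT : ∃ i, B < tF P Z Zb Y i w
      · have e0 : Tq w := Or.inl hT
        have q := wkg_le P F Y hZ hB1 hdd (G := G) (a := a) (Reg := Reg) (H := H) hw (ha0 w) (ha1 w) (hG w hw)
          (hR1 w hw hR) (hH w hw)
        have q1 := mul_le_mul_of_nonneg_left q a0
        rw [ind_of e0, ind_not (not_not.2 e0), ind_of (⟨hT, hR⟩ : (∃ i, B < tF P Z Zb Y i w) ∧ ¬ Rth w), ind_of hR]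
        simp only [one_mul, zero_mul, mul_zero, add_zero]
        have q2 := mul_le_of_le_one_left n2 a1
        linarith
      · have e0 : ¬ Tq w := fun h => h.elim hT hR
        rw [ind_not e0, ind_of e0, ind_of hR, ind_not (fun h : (∃ i, B < tF P Z Zb Y i w) ∧ ¬ Rth w => hT h.1)]
        simp only [zero_mul, mul_zero, zero_add, one_mul, add_zero]
        linarith
  have B4 := E_mx_mul P F Y (Zb := Zb) hB 0 1
  have B5 := mul_le_mul_of_nonneg_left B4 (show 0 ≤ B * dd by positivity)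
  have g0 := gn_nn P (Zb 0) (F 0) (Y 0)
  have g1 := gn_nn P (Zb 1) (F 1) (Y 1)
  have g2 := gn_nn P (Zb 2) (F 2) (Y 2)
  have hS3 : ∑ i, gn P (Zb i) (F i) (Y i) = gn P (Zb 0) (F 0) (Y 0) + gn P (Zb 1) (F 1) (Y 1) + gn P (Zb 2) (F 2) (Y 2) :=
    Fin.sum_univ_three _
  have B6 : B * dd * (B * (gn P (Zb 0) (F 0) (Y 0) + gn P (Zb 1) (F 1) (Y 1))) ≤
      B ^ 2 * dd * ∑ i, gn P (Zb i) (F i) (Y i) := by
    rw [hS3]
    have : 0 ≤ B ^ 2 * dd * gn P (Zb 2) (F 2) (Y 2) := by positivity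
    nlinarith
  refine k.trans ?_
  have e : (c1 + c2 * d + (4 + 2 * B + B * dd) * (B ^ 2 * eps) + 2 * (B ^ 2 * dd)) * ∑ i, gn P (Zb i) (F i) (Y i) =
      (c1 + c2 * d + (4 + 2 * B + B * dd) * (B ^ 2 * eps) + B ^ 2 * dd) * ∑ i, gn P (Zb i) (F i) (Y i) +
      B ^ 2 * dd * ∑ i, gn P (Zb i) (F i) (Y i) := by ring
  rw [e]
  have e2 : 2 * B * P.E (fun w => al w * (ind (Tq w) * ∑ i, TVF P Z Zb F i w)) =
      B * P.E (fun w => al w * (ind (Tq w) * ∑ i, TVF P Z Zb F i w)) +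
      B * P.E (fun w => al w * (ind (Tq w) * ∑ i, TVF P Z Zb F i w)) := by ring
  rw [e2]
  linarith

end key

end

end Pool.Agent.GMH
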