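import Pool.Agent.GMH.TopD
import Pool.Agent.GMH.TopAct

/-!
# GMH/TopActT: THE STRONG MISSING THIN LETTERS OVER THE RUN (helper49, row C8 of H3.LEAN, second part)

For the steps `s ≠ 0` (codes; the node does not move) : `dS s t i` = information of all thin letters about what the top `i`
sees after the step, `tS s t i` = ratio of the missing thin letter at the true additions (`tF` of Key3).
* `miss_q` : one step between two states with the same node; `new_x` : the new private code of the missing vertex;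
* `dS_five` : the five steps of one time; `dS_sum` : the sum over the run is at most `6 n Lam`;
* `ta_real` : the sum over the run of the probabilities of `B < tS` (any weights `≤ 1`) is at most `6 n Lam`.
-/

set_option autoImplicit false
set_option linter.unusedSectionVars false

namespace Pool.Agent.GMH.TP

open Finset Pool.Agent.PWZ Pool.Agent.M3 Pool.Agent.GM Pool.Agent.GM.Harm Pool.Agent.GMH Pool.Agent.GMH.NZ
open Pool.Agent.GMH.V3
open Pool.Agent.GMH.Dead (Dry Hc_time)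

noncomputable section

variable {X β γ φ : Type} [Fintype X] [Fintype β] [Fintype φ] [Nonempty X] [Nonempty β]
variable {D : HD (Fin 3) X β γ φ} {al : ℝ} (h : D.Thick al)
  {v : ℕ → Finset (Fin 3) → X → (Fin 3 → β) → Pt (Fin 3) X β φ}
variable {dg : ℕ → X → ℝ} {prr : ℕ → Fin 3 → φ → φ} {T : ℕ} {Lam : ℝ}

/-- the thin letters of a state below a top are functions of the hidden point, the points of the top and the node -/
theorem lo_SQ (hv : Codes D v) (q : ℕ) (J : Finset (Fin 3)) :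
    Fac (fun w : Pt (Fin 3) X β φ => (AA J w, BB D (nn q) J w)) (lo (SL v q) J) := by
  intro a b hab
  rw [lo_eq]
  intro I hI
  show LL (Um v (nc q I)) I a = LL (Um v (nc q I)) I b
  rw [LL_eq]
  refine ⟨Um_AA hv (nc_le q I) hI.subset hab, fun l hl => ?_⟩
  have h1 := (Prod.mk.inj hab).1
  rw [AA_eq] at h1
  exact h1.2 l (hl ▸ hI.subset)

/-- the letters below and the letter of the missing vertex give all thin letters of the state -/
theorem ZQ_of (q : ℕ) (i : Fin 3) {a b : Pt (Fin 3) X β φ} (h1 : XLq v q i a = XLq v q i b)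
    (h2 : ZbQ D v q i a = ZbQ D v q i b) : ZQ D v q a = ZQ D v q b := by
  have h3 : lo (SL (φ := φ) v q) (univ.erase i) a = lo (SL v q) (univ.erase i) b := congrArg Prod.fst h2
  have h4 : BB D (nn q) (univ.erase i) a = BB D (nn q) (univ.erase i) b := congrArg Prod.snd h2
  rw [BB_eq] at h4
  have h5 := Prod.mk.inj h1
  refine Prod.ext (funext fun I => ?_) ?_
  · show SL v q I.1 a = SL v q I.1 b
    have hI : I.1.card ≤ 1 := I.2
    have hno : ∀ l, univ.erase l ≠ I.1 := fun l => er_ne_thin hI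
    by_cases hi : I.1 = {i}
    · unfold SL
      rw [LL_eq]
      refine ⟨?_, fun l hl => absurd hl (hno l)⟩
      rw [hi]
      exact h5.2
    · have hs : I.1 ⊂ univ.erase i := by
        refine Finset.ssubset_iff_subset_ne.2 ⟨fun j hj => Finset.mem_erase.2 ⟨?_, mem_univ j⟩, fun hh => hno i hh.symm⟩
        rintro rfl
        exact hi (Finset.eq_singleton_iff_unique_mem.2 ⟨hj, fun k hk => Finset.card_le_one.1 hI k hk j hj⟩)
      exact lo_eq.1 h3 I.1 hs
  · show WW D (nn q) a = WW D (nn q) b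
    rw [WW_eq]
    refine ⟨funext fun j => ?_, h4.2.1⟩
    by_cases hj : j = i
    · rw [hj]
      exact h5.1
    · exact h4.1 j (Finset.mem_erase.2 ⟨hj, mem_univ j⟩)

variable (v) in
/-- entropy of the missing letter of the state `q` given its point and what the top sees in the state `q'` -/
def xQ (t q q' : ℕ) (i : Fin 3) : ℝ := (D.P h t).Hc (XLq v q i) (fun w => (w.2.1 i, ZbQ D v q' i w))

theorem xQ_nn (t q q' : ℕ) (i : Fin 3) : 0 ≤ xQ h v t q q' i := FP.Hc_nonneg _ _ _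

/-- **one step between two states with the same node** -/
theorem miss_q (hv : Codes D v) {t q q' : ℕ} (hq : q ≤ q') (hn : nn q' = nn q) (ht : t ≤ nn q) (i : Fin 3) :
    (D.P h t).I (ZQ D v q) (ZbQ D v q' i) (ZbQ D v q i) + xQ h v t q q' i ≤ xQ h v t q q i := by
  have h0 : (D.P h t).I (fun w => w.2.1 i) (ZbQ D v q' i) (ZbQ D v q i) = 0 := by
    refine TG.I_miss h ht i (V := ZbQ D v q' i) (R := lo (SL v q) (univ.erase i)) ?_ (lo_SQ hv q _)
    intro a b hab
    have hab' : (AA (univ.erase i) a, BB D (nn q') (univ.erase i) a) =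
        (AA (univ.erase i) b, BB D (nn q') (univ.erase i) b) := by rw [hn]; exact hab
    exact Prod.ext (lo_SQ hv q' _ a b hab') (Prod.mk.inj hab').2
  have h1 : Fac (fun w : Pt (Fin 3) X β φ => (w.2.1 i, ZbQ D v q' i w))
      (fun w => (ZbQ D v q' i w, w.2.1 i, ZbQ D v q i w)) := by
    intro a b hab
    have e1 : a.2.1 i = b.2.1 i := (Prod.mk.inj hab).1
    have e2 : ZbQ D v q' i a = ZbQ D v q' i b := (Prod.mk.inj hab).2
    have e3 := ZbQ_mono hq i a b e2
    show (ZbQ D v q' i a, a.2.1 i, ZbQ D v q i a) = (ZbQ D v q' i b, b.2.1 i, ZbQ D v q i b)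
    rw [e1, e2, e3]
  have h2 : (D.P h t).I (ZQ D v q) (ZbQ D v q' i) (ZbQ D v q i) ≤
      (D.P h t).I (XLq v q i) (ZbQ D v q' i) (ZbQ D v q i) :=
    (D.P h t).I_mono _ (fun a b hab => ZQ_of q i (Prod.mk.inj hab).1 (Prod.mk.inj hab).2)
  have h3 := GS.gain_step (D.P h t) (XX := XLq v q i) h0 h1
  unfold xQ
  linarith

theorem dry_ZbQ (q : ℕ) (i : Fin 3) : Dry (ZbQ (φ := φ) D v q i) := fun a b h1 h2 =>
  Prod.ext (lo_eq.2 fun I hI => by
    show LL (Um v (nc q I)) I a = LL (Um v (nc q I)) I b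
    rw [LL_eq, h1, h2]
    exact ⟨rfl, fun l hl => absurd hl (er_ne_thin (lt_pth card3 (ne_univ i) hI))⟩) (by
    show BB D (nn q) (univ.erase i) a = BB D (nn q) (univ.erase i) b
    rw [BB_eq, h1, h2]
    exact ⟨fun _ _ => rfl, rfl, fun _ => rfl⟩)

theorem dry_XLq (q : ℕ) (i : Fin 3) : Dry (XLq (φ := φ) v q i) := TG.dry_XL _ i

theorem dry_pt (i : Fin 3) : Dry (fun w : Pt (Fin 3) X β φ => w.2.1 i) := fun a b _ h2 => congrFun h2 i

theorem xQ_time (t t' q q' : ℕ) (i : Fin 3) : xQ h v t q q' i = xQ h v t' q q' i :=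
  Hc_time h (dry_XLq q i) ((dry_pt i).prod (dry_ZbQ q' i)) t t'

/-- the cost of the new private code of the missing vertex -/
theorem code_q (t : ℕ) (i : Fin 3) {q' : ℕ} (hq : 5 * t + 2 ≤ q') :
    (D.P h (t + 1)).Hc (Vt v (t + 1) {i}) (fun w => (XL v (t + 1) i w, w.2.1 i, ZbQ D v q' i w)) ≤
      cst h v (t + 1) {i} := by
  unfold cst cost
  refine (D.P h (t + 1)).Hc_anti _ ?_
  intro a b hab
  simp only [Prod.mk.injEq] at hab ⊢
  obtain ⟨h4, h5, h6⟩ := hab
  have h6' : ZbQ D v (5 * t + 2) i a = ZbQ D v (5 * t + 2) i b := ZbQ_mono hq i a b h6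
  have h7 : lo (SL (φ := φ) v (5 * t + 2)) (univ.erase i) a = lo (SL v (5 * t + 2)) (univ.erase i) b :=
    congrArg Prod.fst h6'
  have h8 : BB D (nn (5 * t + 2)) (univ.erase i) a = BB D (nn (5 * t + 2)) (univ.erase i) b := congrArg Prod.snd h6'
  have hn : nn (5 * t + 2) = t + 1 := nn_add t 2 (by omega)
  rw [hn] at h8
  have h0 : (∅ : Finset (Fin 3)) ⊂ univ.erase i := by
    refine Finset.ssubset_iff_subset_ne.2 ⟨Finset.empty_subset _, fun hh => ?_⟩
    have := card_er (rfl : Fintype.card (Fin 3) = 3) i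
    rw [← hh, Finset.card_empty] at this
    omega
  have hne : nc (5 * t + 2) ∅ = t + 2 := by
    rw [nc_add t 2 (by unfold pth; simp) (by omega)]
    unfold ncj rk
    simp
  have h9' : LL (φ := φ) (Um v (nc (5 * t + 2) ∅)) ∅ a = LL (Um v (nc (5 * t + 2) ∅)) ∅ b := lo_eq.1 h7 ∅ h0
  rw [hne] at h9'
  have h9 := (LL_eq.1 h9').1
  have h10 := Um_eq.1 h9
  have hno : ∀ (I : Finset (Fin 3)), I ⊆ {i} → ∀ l, univ.erase l ≠ I := fun I hI l =>
    er_ne_thin ((Finset.card_le_card hI).trans (Finset.card_singleton i).le)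
  refine ⟨lo_eq.2 fun I hI => ?_, le_eq.2 fun I hI => ?_, ?_⟩
  · rw [Finset.ssubset_singleton_iff] at hI
    subst hI
    exact h10.2
  · rcases Finset.subset_singleton_iff.1 hI with rfl | rfl
    · rw [LL_eq]
      exact ⟨h10.1, fun l hl => absurd hl (hno ∅ hI l)⟩
    · rw [LL_eq]
      exact ⟨(Prod.mk.inj h4).2, fun l hl => absurd hl (hno {i} hI l)⟩
  · rw [BB_eq] at h8 ⊢
    refine ⟨fun j hj => ?_, h8.2⟩
    rw [Finset.mem_singleton.1 hj]
    exact h5

theorem rk_i (i : Fin 3) : rk {i} = 4 := by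
  have key : ∀ i : Fin 3, rk {i} = 4 := by decide
  exact key i

theorem nc_i (t j : ℕ) (hj : j ≤ 5) (i : Fin 3) : nc (5 * t + j) {i} = t + 1 + if 4 < j then 1 else 0 := by
  rw [nc_add t j (by unfold pth; rw [Finset.card_singleton]) hj]
  unfold ncj
  rw [rk_i]

/-- **the missing letter in the next state** -/
theorem new_x {t j j' : ℕ} (hj1 : 1 ≤ j) (hjj : j ≤ j') (hj' : j' ≤ 5) (i : Fin 3) :
    xQ h v t (5 * t + j') (5 * t + j') i ≤ xQ h v t (5 * t + j) (5 * t + j') i +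
      if 4 < j then 0 else if 4 < j' then cst h v (t + 1) {i} else 0 := by
  by_cases c1 : 4 < j
  · have e : XLq (φ := φ) v (5 * t + j') i = XLq v (5 * t + j) i := by
      unfold XLq
      rw [nc_i t j' hj' i, nc_i t j (hjj.trans hj') i, if_pos c1, if_pos (by omega)]
    rw [if_pos c1, add_zero]
    unfold xQ
    rw [e]
  · rw [if_neg c1]
    by_cases c2 : 4 < j'
    · rw [if_pos c2, xQ_time h t (t + 1) (5 * t + j') (5 * t + j') i, xQ_time h t (t + 1) (5 * t + j) (5 * t + j') i]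
      have e1 : XLq (φ := φ) v (5 * t + j') i = XL v (t + 2) i := by
        unfold XLq
        rw [nc_i t j' hj' i, if_pos c2]
      have e2 : XLq (φ := φ) v (5 * t + j) i = XL v (t + 1) i := by
        unfold XLq
        rw [nc_i t j (hjj.trans hj') i, if_neg c1, add_zero]
      unfold xQ
      rw [e1, e2]
      have h1 : (D.P h (t + 1)).Hc (XL v (t + 2) i) (fun w => (w.2.1 i, ZbQ D v (5 * t + j') i w)) ≤
          (D.P h (t + 1)).Hc (fun w => (Vt v (t + 1) {i} w, XL v (t + 1) i w))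
            (fun w => (w.2.1 i, ZbQ D v (5 * t + j') i w)) := by
        refine (D.P h (t + 1)).Hc_mono _ ?_
        intro a b hab
        simp only [Prod.mk.injEq] at hab
        obtain ⟨⟨h2, h3⟩, _⟩ := hab
        have h4 := Prod.mk.inj h3
        exact Prod.ext h4.1 (Um_eq.2 ⟨h4.2, h2⟩)
      have h2 := (D.P h (t + 1)).Hc_chain (Vt v (t + 1) {i}) (XL v (t + 1) i)
        (fun w => (w.2.1 i, ZbQ D v (5 * t + j') i w))
      have h3 := code_q h (v := v) t i (q' := 5 * t + j') (by omega)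
      linarith
    · have e : XLq (φ := φ) v (5 * t + j') i = XLq v (5 * t + j) i := by
        unfold XLq
        rw [nc_i t j' hj' i, nc_i t j (hjj.trans hj') i, if_neg c1, if_neg c2]
      rw [if_neg c2, add_zero]
      unfold xQ
      rw [e]

variable (v) in
/-- information of the thin letters in the step `(s, t)` about what the top `i` sees -/
def dS (s : Fin 6) (t : ℕ) (i : Fin 3) : ℝ := Dt (D.P h t) (ZbQ D v (qs s t) i) (ZQ D v (qs s t)) (ZbQ D v (qe s t) i)

variable (v) in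
/-- ratio of the missing thin letter in the step -/
def tS (s : Fin 6) (t : ℕ) (i : Fin 3) (w : Pt (Fin 3) X β φ) : ℝ :=
  tau (D.P h t) (ZbQ D v (qs s t) i) (ZQ D v (qs s t)) (ZbQ D v (qe s t) i) w (ZbQ D v (qe s t) i w)

theorem dS_nn (s : Fin 6) (t : ℕ) (i : Fin 3) : 0 ≤ dS h v s t i := Dt_nn _ _ _ _

theorem dS_eq (s : Fin 6) (t : ℕ) (i : Fin 3) : dS h v s t i =
    (D.P h t).I (ZQ D v (qs s t)) (ZbQ D v (qe s t) i) (ZbQ D v (qs s t) i) :=
  Dt_eq (D.P h t) (ZbQ D v (qs s t) i) (ZQ D v (qs s t)) (ZbQ D v (qe s t) i) (ZQ_Zb _ i)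

theorem dS_0 (s : Fin 6) (hs : s ≠ 0) (t : ℕ) : nn (qs s t) = t + 1 ∧ nn (qe s t) = t + 1 := by
  have g : ∀ j, 1 ≤ j → j ≤ 5 → nn (5 * t + j) = t + 1 := fun j h1 h5 => by
    rw [nn_add t j h5]
    unfold nnj
    rw [if_neg (by omega)]
  fin_cases s
  · exact absurd rfl hs
  · exact ⟨g 1 (by omega) (by omega), g 5 (by omega) (by omega)⟩
  · exact ⟨g 1 (by omega) (by omega), g 2 (by omega) (by omega)⟩
  · exact ⟨g 2 (by omega) (by omega), g 3 (by omega) (by omega)⟩
  · exact ⟨g 3 (by omega) (by omega), g 4 (by omega) (by omega)⟩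
  · exact ⟨g 4 (by omega) (by omega), g 5 (by omega) (by omega)⟩

/-- **the five steps of one time** -/
theorem dS_five (hv : Codes D v) (t : ℕ) (i : Fin 3) : ∑ s ∈ univ.erase (0 : Fin 6), dS h v s t i ≤
    2 * (xQ h v t (5 * t + 1) (5 * t + 1) i - xQ h v t (5 * t + 5) (5 * t + 5) i + cst h v (t + 1) {i}) := by
  have g : ∀ j, 1 ≤ j → j ≤ 5 → nn (5 * t + j) = t + 1 := fun j h1 h5 => by
    rw [nn_add t j h5]
    unfold nnj
    rw [if_neg (by omega)]
  have st : ∀ j j', 1 ≤ j → j ≤ j' → j' ≤ 5 →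
      (D.P h t).I (ZQ D v (5 * t + j)) (ZbQ D v (5 * t + j') i) (ZbQ D v (5 * t + j) i) ≤
      xQ h v t (5 * t + j) (5 * t + j) i - xQ h v t (5 * t + j') (5 * t + j') i +
        if 4 < j then 0 else if 4 < j' then cst h v (t + 1) {i} else 0 := by
    intro j j' h1 h2 h3
    have k1 := miss_q h hv (t := t) (show 5 * t + j ≤ 5 * t + j' by omega) ((g j' (by omega) h3).trans (g j h1 (by omega)).symm)
      (by rw [g j h1 (by omega)]; omega) i
    have k2 := new_x h (v := v) (t := t) h1 h2 h3 i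
    linarith
  have e1 : dS h v 1 t i = (D.P h t).I (ZQ D v (5 * t + 1)) (ZbQ D v (5 * t + 5) i) (ZbQ D v (5 * t + 1) i) := dS_eq h 1 t i
  have e2 : dS h v 2 t i = (D.P h t).I (ZQ D v (5 * t + 1)) (ZbQ D v (5 * t + 2) i) (ZbQ D v (5 * t + 1) i) := dS_eq h 2 t i
  have e3 : dS h v 3 t i = (D.P h t).I (ZQ D v (5 * t + 2)) (ZbQ D v (5 * t + 3) i) (ZbQ D v (5 * t + 2) i) := dS_eq h 3 t i
  have e4 : dS h v 4 t i = (D.P h t).I (ZQ D v (5 * t + 3)) (ZbQ D v (5 * t + 4) i) (ZbQ D v (5 * t + 3) i) := dS_eq h 4 t i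
  have e5 : dS h v 5 t i = (D.P h t).I (ZQ D v (5 * t + 4)) (ZbQ D v (5 * t + 5) i) (ZbQ D v (5 * t + 4) i) := dS_eq h 5 t i
  have hc := cst_nonneg h (v := v) (t + 1) {i}
  have s1 := st 1 5 (by omega) (by omega) (by omega)
  have s2 := st 1 2 (by omega) (by omega) (by omega)
  have s3 := st 2 3 (by omega) (by omega) (by omega)
  have s4 := st 3 4 (by omega) (by omega) (by omega)
  have s5 := st 4 5 (by omega) (by omega) (by omega)
  have es : ∑ s ∈ univ.erase (0 : Fin 6), dS h v s t i = dS h v 1 t i + (dS h v 2 t i + (dS h v 3 t i +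
      (dS h v 4 t i + dS h v 5 t i))) := by
    have : (univ.erase (0 : Fin 6) : Finset (Fin 6)) = {1, 2, 3, 4, 5} := by decide
    rw [this, Finset.sum_insert (by decide), Finset.sum_insert (by decide), Finset.sum_insert (by decide),
      Finset.sum_insert (by decide), Finset.sum_singleton]
  rw [es, e1, e2, e3, e4, e5]
  norm_num at s1 s2 s3 s4 s5
  linarith

theorem x_start (i : Fin 3) : xQ h v 0 (5 * 0 + 1) (5 * 0 + 1) i ≤ cst h v 0 {i} := by
  have h1 : xQ h v 0 (5 * 0 + 1) (5 * 0 + 1) i ≤ TG.pE h v i 1 0 0 := by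
    have e1 : XLq (φ := φ) v (5 * 0 + 1) i = XL v 1 i := by
      unfold XLq
      rw [nc_i 0 1 (by omega) i, if_neg (by omega)]
    unfold xQ TG.pE
    rw [e1]
    refine (D.P h 0).Hc_anti _ ?_
    intro a b hab
    have e2 : a.2.1 i = b.2.1 i := (Prod.mk.inj hab).1
    have e3 : ZbQ D v (5 * 0 + 1) i a = ZbQ D v (5 * 0 + 1) i b := (Prod.mk.inj hab).2
    have e4 := ZbQ_mono (show 5 * 0 ≤ 5 * 0 + 1 by omega) i a b e3
    rw [ZbQ_0] at e4
    exact Prod.ext e2 e4
  exact h1.trans (TG.miss_start h i)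

/-- between two times -/
theorem x_next (t : ℕ) (i : Fin 3) : xQ h v (t + 1) (5 * (t + 1) + 1) (5 * (t + 1) + 1) i ≤
    xQ h v t (5 * t + 5) (5 * t + 5) i := by
  rw [xQ_time h t (t + 1)]
  have e1 : XLq (φ := φ) v (5 * (t + 1) + 1) i = XLq v (5 * t + 5) i := by
    unfold XLq
    rw [nc_i (t + 1) 1 (by omega) i, nc_i t 5 le_rfl i, if_neg (by omega), if_pos (by omega)]
  unfold xQ
  rw [e1]
  refine (D.P h (t + 1)).Hc_anti _ ?_
  intro a b hab
  have e2 : a.2.1 i = b.2.1 i := (Prod.mk.inj hab).1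
  have e3 : ZbQ D v (5 * (t + 1) + 1) i a = ZbQ D v (5 * (t + 1) + 1) i b := (Prod.mk.inj hab).2
  have e4 := ZbQ_mono (show 5 * t + 5 ≤ 5 * (t + 1) + 1 by omega) i a b e3
  exact Prod.ext e2 e4

/-- **THE INFORMATION OF THE MISSING LETTER over the steps of the codes** -/
theorem dS_sum (H : D.Hyp dg prr al T Lam) {n N1 : ℝ} (R : Run h (pr3 (Fin 3) n N1) (SS1 (Fin 3)) (AdmDep D) v)
    (hn : 1 ≤ n) (hN1 : 1 ≤ N1) (i : Fin 3) :
    ∑ t ∈ range T, ∑ s ∈ univ.erase (0 : Fin 6), dS h v s t i ≤ 6 * (n * Lam) := by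
  have key : ∀ S, ∑ t ∈ range S, (xQ h v t (5 * t + 1) (5 * t + 1) i - xQ h v t (5 * t + 5) (5 * t + 5) i +
      cst h v (t + 1) {i}) + xQ h v S (5 * S + 1) (5 * S + 1) i ≤ ∑ t ∈ range (S + 1), cst h v t {i} := by
    intro S
    induction S with
    | zero =>
      rw [Finset.sum_range_zero, zero_add, Finset.sum_range_one]
      exact x_start h i
    | succ S ih =>
      have h1 := x_next h (v := v) S i
      rw [Finset.sum_range_succ, Finset.sum_range_succ _ (S + 1)]
      linarith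
  have h1 := key T
  have h2 := xQ_nn h (v := v) T (5 * T + 1) (5 * T + 1) i
  have h3 := cost_thin rfl H hn hN1 R i
  have h4 := Finset.sum_le_sum fun t (_ : t ∈ range T) => dS_five h R.codes (v := v) t i
  rw [← Finset.mul_sum] at h4
  linarith

/-- **STRONG MISSING LETTERS over the run** -/
theorem ta_real (H : D.Hyp dg prr al T Lam) {n N1 : ℝ} (R : Run h (pr3 (Fin 3) n N1) (SS1 (Fin 3)) (AdmDep D) v)
    (hn : 1 ≤ n) (hN1 : 1 ≤ N1) (i : Fin 3) {B : ℝ} (hB : Real.exp 2 ≤ B)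
    {aw : Fin 6 → ℕ → Pt (Fin 3) X β φ → ℝ} (h1 : ∀ s t w, aw s t w ≤ 1) :
    ∑ t ∈ range T, ∑ s ∈ univ.erase (0 : Fin 6), (D.P h t).E (fun w => aw s t w * ind (B < tS h v s t i w)) ≤
      6 * (n * Lam) := by
  refine le_trans (Finset.sum_le_sum fun t _ => Finset.sum_le_sum fun s _ => ?_) (dS_sum h H R hn hN1 i)
  refine le_trans ((D.P h t).E_mono fun w _ => ?_) (thin_strong (D.P h t) (ZbQ D v (qs s t) i)
    (ZQ D v (qs s t)) (ZbQ D v (qe s t) i) (ZQ_Zb (qs s t) i) hB)
  exact mul_le_of_le_one_left (ind_nonneg _) (h1 s t w)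

end

end Pool.Agent.GMH.TP
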