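import Pool.Agent.GMH.TopGd
import Pool.Agent.GMH.TopRow
import Pool.Agent.GMH.TopActT
import Pool.Agent.GMH.Key3R

/-!
# GMH/TopNT: the normalisation of the good digits (helper91, row F4 of H3.LEAN)

* `PairE`, `TripE` : the hypotheses `hpair`, `htrip` of KEY3 for the tops of the time `t` in the state `q` with a weight;
* `NT_le` : one time, weight on the good points `GdQ`;
* `NT_sum` : all times.
-/

set_option autoImplicit false
set_option linter.unusedSectionVars false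

namespace Pool.Agent.GMH.TP

open Finset Pool.Agent.PWZ Pool.Agent.M3 Pool.Agent.GM Pool.Agent.GM.Harm Pool.Agent.GMH Pool.Agent.GMH.NZ
open Pool.Agent.GMH.V3

noncomputable section

variable {X β γ φ : Type} [Fintype X] [Fintype β] [Fintype φ] [Nonempty X] [Nonempty β]
variable {D : HD (Fin 3) X β γ φ} {al : ℝ} (h : D.Thick al) (v : ℕ → Finset (Fin 3) → X → (Fin 3 → β) → Pt (Fin 3) X β φ)

section defs

variable (t q : ℕ) (aw : Pt (Fin 3) X β φ → ℝ)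

/-- **two tops** : hypothesis `hpair` of KEY3 in the state `q` -/
def PairE (eps : ℝ) : Prop :=
  ∀ i k : Fin 3, i < k → ∀ l m : Pt (Fin 3) X β φ → Tt X β φ → ℝ, (∀ x, Fac (ZbQ D v q i) (fun w => l w x)) →
    (∀ y, Fac (ZbQ D v q k) (fun w => m w y)) → (∀ w x, 0 ≤ l w x) → (∀ w y, 0 ≤ m w y) →
    (D.P h t).E (fun w => ∑ x ∈ vals (FQ v t i), ∑ y ∈ vals (FQ v t k),
      aw w * |mF2 (D.P h t) (ZQ D v q) (FQ v t) i k w x y - qF (D.P h t) (ZbQ D v q) (FQ v t) i w x *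
        qF (D.P h t) (ZbQ D v q) (FQ v t) k w y| * (l w x * m w y)) ≤
      eps * Real.sqrt ((D.P h t).E (fun w => ∑ x ∈ vals (FQ v t i), qF (D.P h t) (ZbQ D v q) (FQ v t) i w x * l w x ^ 2) *
        (D.P h t).E (fun w => ∑ y ∈ vals (FQ v t k), qF (D.P h t) (ZbQ D v q) (FQ v t) k w y * m w y ^ 2))

/-- distance of the law of the third top under a pair of the others -/
def T3d (w : Pt (Fin 3) X β φ) (x y : Tt X β φ) : ℝ :=
  ∑ f ∈ let_ (FQ v t), ind (f 0 = x ∧ f 1 = y) * |pF (D.P h t) (ZQ D v q) (FQ v t) w f -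
    mF2 (D.P h t) (ZQ D v q) (FQ v t) 0 1 w x y * qF (D.P h t) (ZbQ D v q) (FQ v t) 2 w (f 2)|

/-- bad pairs -/
def BdP (dd : ℝ) (w : Pt (Fin 3) X β φ) (x y : Tt X β φ) : Prop :=
  dd * mF2 (D.P h t) (ZQ D v q) (FQ v t) 0 1 w x y < T3d h v t q w x y

/-- **the third top against a pair** : hypothesis `htrip` of KEY3 in the state `q` -/
def TripE (eps dd : ℝ) : Prop :=
  ∀ l m : Pt (Fin 3) X β φ → Tt X β φ → ℝ, (∀ x, Fac (ZbQ D v q 0) (fun w => l w x)) →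
    (∀ y, Fac (ZbQ D v q 1) (fun w => m w y)) → (∀ w x, 0 ≤ l w x) → (∀ w y, 0 ≤ m w y) →
    (D.P h t).E (fun w => ∑ x ∈ vals (FQ v t 0), ∑ y ∈ vals (FQ v t 1),
      aw w * (ind (BdP h v t q dd w x y) * mF2 (D.P h t) (ZQ D v q) (FQ v t) 0 1 w x y) * (l w x * m w y)) ≤
      eps * Real.sqrt ((D.P h t).E (fun w => ∑ x ∈ vals (FQ v t 0), qF (D.P h t) (ZbQ D v q) (FQ v t) 0 w x * l w x ^ 2) *
        (D.P h t).E (fun w => ∑ y ∈ vals (FQ v t 1), qF (D.P h t) (ZbQ D v q) (FQ v t) 1 w y * m w y ^ 2))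

end defs

variable {v}

theorem pF_fac (t q : ℕ) (f : Fin 3 → Tt X β φ) : Fac (ZQ (φ := φ) D v q) (fun w => pF (D.P h t) (ZQ D v q) (FQ v t) w f) :=
  (D.P h t).pv_fac _ _ _

theorem mF2_facQ (t q : ℕ) (i k : Fin 3) (x y : Tt X β φ) :
    Fac (ZQ (φ := φ) D v q) (fun w => mF2 (D.P h t) (ZQ D v q) (FQ v t) i k w x y) := (D.P h t).pv_fac _ _ _

theorem qF_facQ (t q : ℕ) (i : Fin 3) (x : Tt X β φ) :
    Fac (ZbQ (φ := φ) D v q i) (fun w => qF (D.P h t) (ZbQ D v q) (FQ v t) i w x) := (D.P h t).pv_fac _ _ _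

theorem BdP_fac (t q : ℕ) (dd : ℝ) (x y : Tt X β φ) :
    Fac (ZQ (φ := φ) D v q) (fun w => ind (BdP h v t q dd w x y)) := by
  intro a b hab
  have h1 : mF2 (D.P h t) (ZQ D v q) (FQ v t) 0 1 a x y = mF2 (D.P h t) (ZQ D v q) (FQ v t) 0 1 b x y :=
    mF2_facQ h t q 0 1 x y a b hab
  have h2 : ∀ f, pF (D.P h t) (ZQ D v q) (FQ v t) a f = pF (D.P h t) (ZQ D v q) (FQ v t) b f := fun f =>
    pF_fac h t q f a b hab
  have h3 : ∀ z, qF (D.P h t) (ZbQ D v q) (FQ v t) 2 a z = qF (D.P h t) (ZbQ D v q) (FQ v t) 2 b z := fun z =>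
    qF_facQ h t q 2 z a b (ZQ_Zb q 2 a b hab)
  have h4 : BdP h v t q dd a x y = BdP h v t q dd b x y := by
    unfold BdP T3d
    simp only [h1, h2, h3]
  show ind (BdP h v t q dd a x y) = ind (BdP h v t q dd b x y)
  rw [h4]

/-- numbers of KEY3 on good points -/
def cNT (d1 eps dd : ℝ) : ℝ := Real.exp 2 ^ 2 * dd + (4 + 2 * Real.exp 2 + Real.exp 2 * dd) * (Real.exp 2 ^ 2 * eps) +
  Real.exp 2 ^ 2 * dd + ((2 + Real.exp 2 ^ 2 * dd) * Real.exp 2 + 1) * d1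

variable {dg : ℕ → X → ℝ} {prr : ℕ → Fin 3 → φ → φ} {T : ℕ} {Lam : ℝ}

/-- **ONE TIME** -/
theorem NT_le (hD : ∀ t x, dg t x = 1 ∨ dg t x = -1) {t : ℕ} {a : Pt (Fin 3) X β φ → Prop}
    (fa : Fac (ZQ (φ := φ) D v (5 * t)) a) {d1 eps dd : ℝ} (heps : 0 ≤ eps) (hdd : 0 ≤ dd)
    (hd1 : ∀ (d : Fin 3) (w : Pt (Fin 3) X β φ) (x : Tt X β φ),
      (D.P h t).ce (ZbQ D v (5 * t) d) (fun u => ind (a u ∧ GdQ h v dg t u) * |(D.P h t).pv (ZQ D v (5 * t)) (FQ v t d) u x -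
        (D.P h t).pv (ZbQ D v (5 * t) d) (FQ v t d) u x|) w ≤ d1 * (D.P h t).pv (ZbQ D v (5 * t) d) (FQ v t d) w x)
    (hp : PairE h v t (5 * t) (fun w => ind (a w ∧ GdQ h v dg t w)) eps)
    (h3 : TripE h v t (5 * t) (fun w => ind (a w ∧ GdQ h v dg t w)) eps dd) :
    V3.NT h v dg t (fun w => a w ∧ GdQ h v dg t w) ≤
      cNT d1 eps dd * ∑ i, (D.P h t).I (fun u => dg t u.1) (FT v (Equiv.refl (Fin 3)) (t + 1) i)
          (ZbT D v (Equiv.refl (Fin 3)) (t + 1) t i) +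
        Real.exp 2 * ∑ i, Real.sqrt (8 * (d1 * (D.P h t).I (fun u => dg t u.1) (FT v (Equiv.refl (Fin 3)) (t + 1) i)
          (ZbT D v (Equiv.refl (Fin 3)) (t + 1) t i) *
          (D.P h t).I (ZT D v (t + 1) t) (fun u => dg t u.1) (ZbT D v (Equiv.refl (Fin 3)) (t + 1) t i))) := by
  classical
  set P := D.P h t with hP
  set Z := ZQ (φ := φ) D v (5 * t) with hZd
  set Zb := ZbQ (φ := φ) D v (5 * t) with hZbd
  set F := FQ (φ := φ) v t with hF
  set Y : Fin 3 → Pt (Fin 3) X β φ → ℝ := fun _ u => dg t u.1 with hY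
  set A : Pt (Fin 3) X β φ → Prop := fun w => a w ∧ GdQ h v dg t w with hA
  have e2 : (4 : ℝ) < Real.exp 2 := by
    have h1 := Real.exp_one_gt_d9
    have h2 : Real.exp 2 = Real.exp 1 ^ 2 := by rw [← Real.exp_nat_mul]; norm_num
    rw [h2]
    nlinarith
  have fA : Fac Z (fun w => ind (A w)) := by
    have h1 : Fac Z A := by
      intro u w huw
      have g1 : a u = a w := fa u w huw
      have g2 : GdQ h v dg t u = GdQ h v dg t w := GdQ_fac h t u w (by rw [← ZQ_0]; exact huw)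
      show (a u ∧ GdQ h v dg t u) = (a w ∧ GdQ h v dg t w)
      rw [g1, g2]
    exact h1.comp fun q => ind q
  -- ratios on the good points
  have ert : ∀ w, P.p w ≠ 0 → A w → ∀ i x, rF P (Zb := Zb) F Y i w x ≤ 4 := by
    intro w hw hAw i x
    have h1 := GdQ_rr h (fun x => hD t x) hw hAw.2 i x
    have h2 : ZbT D v (Equiv.refl (Fin 3)) (t + 1) t = Zb := by
      funext j
      rw [hZbd, ZbQ_0]
    rw [h2] at h1
    exact h1
  have ett : ∀ w, P.p w ≠ 0 → A w → ∀ i, tF P Z Zb Y i w ≤ 4 := by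
    intro w hw hAw i
    have h1 := GdQ_thick h (fun x => hD t x) hw hAw.2 i (hD t w.1)
    rw [← ZbQ_0] at h1
    have h2 : P.pv Z (Y i) w (Y i w) ≤ 1 := by
      have h5 := P.ce_const Z 1 hw
      rw [← h5]
      exact P.ce_mono (fun u _ => ind_le_one _) w
    unfold tF tau
    have h4 : (1 / 4 : ℝ) ≤ P.pv (Zb i) (Y i) w (Y i w) := h1
    rw [div_le_iff₀ (by linarith)]
    linarith
  have nS : ∀ w, P.p w ≠ 0 → A w → ∀ i x, ¬ Real.exp 2 < rF P (Zb := Zb) F Y i w x := fun w hw hAw i x hh =>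
    absurd (ert w hw hAw i x) (by linarith)
  have nT : ∀ w, P.p w ≠ 0 → A w → ∀ i, ¬ Real.exp 2 < tF P Z Zb Y i w := fun w hw hAw i hh =>
    absurd (ett w hw hAw i) (by linarith)
  -- the cut density
  set G : Pt (Fin 3) X β φ → (Fin 3 → Tt X β φ) → ℝ := fun w f =>
    if A w then pF P Z F w f / ∏ i, qF P Zb F i w (f i) else 0 with hG
  have key := key3r P F Y (Z := Z) (Zb := Zb) (fun i => ZQ_Zb _ i) (B := Real.exp 2) (eps := eps)
    (al := fun w => ind (A w)) le_rfl (d := 0) (dd := dd) (eta := 0) (e1 := 0) (c1 := Real.exp 2 ^ 2 * dd)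
    (c2 := 2 + Real.exp 2 ^ 2 * dd) le_rfl hdd le_rfl zero_le_one le_rfl (by linarith) heps (by linarith)
    (by linarith) fA (fun w => ind_nonneg _) (fun w => ind_le_one _) (G := G) (a := fun _ _ => 1)
    (Reg := fun w _ => ¬ A w) (ai := fun _ _ _ => 1) (bd := fun w _ _ => ¬ A w)
    (Tq := fun w => ¬ A w ∨ ∃ i, Real.exp 2 < tF P Z Zb Y i w) (H := fun w x y => BdP h v t (5 * t) dd w x y)
    (fun _ _ => zero_le_one) (fun _ _ => le_rfl) (fun _ _ _ => zero_le_one) (fun _ _ _ => le_rfl)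
    (fun w _ f _ hR => by
      have hAw : A w := not_not.1 hR
      simp only [hG, if_pos hAw])
    (fun w _ f _ hR => by simp only [hG, if_neg hR, le_refl])
    (fun _ _ _ _ _ _ _ => rfl)
    (fun w hw f _ i hS k _ _ => by
      intro hAw
      exact nS w hw hAw i _ hS.1)
    (fun w hw f _ i hS _ => by
      intro hAw
      exact nS w hw hAw i _ hS)
    (fun w hw f _ i k _ hS _ _ => by
      intro hAw
      exact nS w hw hAw i _ hS)
    (fun w hw i x _ hS hb => absurd hS (nS w hw (not_not.1 hb) i x))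
    (fun w _ hT => Or.inr hT)
    (fun w _ hT f _ _ => fun hR => hT (Or.inl hR))
    (fun i k hik l m hl hm h0 h0' => hp i k hik l m hl hm h0 h0')
    (fun x y => BdP_fac h t (5 * t) dd x y)
    (fun w _ _ x _ y _ hB => not_lt.1 hB)
    (fun l m hl hm h0 h0' => h3 l m hl hm h0 h0')
  -- the left side
  have eL : V3.NT h v dg t (fun w => a w ∧ GdQ h v dg t w) =
      P.E (fun w => ind (A w) * ∑ f ∈ let_ F, (∏ i, qF' P Zb F Y i w (f i)) * (1 * (G w f - 1))) := by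
    unfold V3.NT
    refine P.E_congr fun w hw => ?_
    by_cases hAw : A w
    · refine congrArg (fun z => ind (A w) * z) ?_
      refine Finset.sum_congr rfl fun f _ => ?_
      have g1 : G0C P (ZT D v (t + 1) t) (ZbT D v (Equiv.refl (Fin 3)) (t + 1) t) (FT v (Equiv.refl (Fin 3)) (t + 1)) 1
          (fun _ _ => False) w f = G w f := by
        simp only [hG, if_pos hAw]
        unfold G0C
        simp only [if_false, mul_one]
        rw [← ZQ_0]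
        refine congrArg₂ (· / ·) rfl (Finset.prod_congr rfl fun i _ => ?_)
        rw [← ZbQ_0]
        rfl
      rw [g1, one_mul]
      refine congrArg (fun z => z * (G w f - 1)) (Finset.prod_congr rfl fun i _ => ?_)
      rw [← ZbQ_0]
      rfl
    · simp only [hA] at hAw
      simp only [hA, ind_not hAw, zero_mul]
  rw [eL]
  refine key.trans ?_
  -- nothing is strong
  have zT : ∀ f : Pt (Fin 3) X β φ → ℝ,
      P.E (fun w => ind (A w) * (ind (¬ A w ∨ ∃ i, Real.exp 2 < tF P Z Zb Y i w) * f w)) = 0 := by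
    intro f
    have h0 : ∀ w, P.p w ≠ 0 → ind (A w) * (ind (¬ A w ∨ ∃ i, Real.exp 2 < tF P Z Zb Y i w) * f w) = 0 := by
      intro w hw
      by_cases hAw : A w
      · have hn : ¬ (¬ A w ∨ ∃ i, Real.exp 2 < tF P Z Zb Y i w) := by
          rintro (h1 | ⟨i, hi⟩)
          · exact h1 hAw
          · exact nT w hw hAw i hi
        rw [ind_not hn, zero_mul, mul_zero]
      · rw [ind_not hAw, zero_mul]
    rw [P.E_congr (g := fun _ => 0) h0]
    exact P.E_const 0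
  have z3 : P.E (fun w => ind (A w) * PRF P F Y (Zb := Zb) (Real.exp 2) (fun w _ _ => ¬ A w) (fun _ _ _ => 1) w) = 0 := by
    have h0 : ∀ w, P.p w ≠ 0 → ind (A w) * PRF P F Y (Zb := Zb) (Real.exp 2) (fun w _ _ => ¬ A w) (fun _ _ _ => 1) w =
        0 := by
      intro w hw
      by_cases hAw : A w
      · unfold PRF
        have g1 : ∀ i x, ind (SBF P (Zb := Zb) F Y (Real.exp 2) (fun w _ _ => ¬ A w) i w x) = 0 := fun i x =>
          ind_not fun hh => hh.2 hAw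
        simp only [g1, zero_mul, Finset.sum_const_zero, mul_zero]
      · rw [ind_not hAw, zero_mul]
    rw [P.E_congr (g := fun _ => 0) h0]
    exact P.E_const 0
  have z4 : P.E (fun w => ind (A w) * (ind (¬ (¬ A w ∨ ∃ i, Real.exp 2 < tF P Z Zb Y i w)) *
      RWF P F Y (Z := Z) (Zb := Zb) (Real.exp 2) (fun _ _ => 1) w)) = 0 := by
    have h0 : ∀ w, P.p w ≠ 0 → ind (A w) * (ind (¬ (¬ A w ∨ ∃ i, Real.exp 2 < tF P Z Zb Y i w)) *
      RWF P F Y (Z := Z) (Zb := Zb) (Real.exp 2) (fun _ _ => 1) w) = 0 := by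
      intro w _
      unfold RWF
      simp only [sub_self, zero_mul, Finset.sum_const_zero, mul_zero]
    rw [P.E_congr (g := fun _ => 0) h0]
    exact P.E_const 0
  rw [zT, zT, z3, z4]
  -- the gains
  have gI : ∀ i, P.I (fun u => dg t u.1) (FT v (Equiv.refl (Fin 3)) (t + 1) i)
      (ZbT D v (Equiv.refl (Fin 3)) (t + 1) t i) = gn P (Zb i) (F i) (Y i) := by
    intro i
    rw [gn_eq, ← ZbQ_0]
    rfl
  have gD : ∀ i, P.I (ZT D v (t + 1) t) (fun u => dg t u.1) (ZbT D v (Equiv.refl (Fin 3)) (t + 1) t i) =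
      Dt P (Zb i) Z (Y i) := by
    intro i
    rw [Dt_eq P (Zb i) Z (Y i) (ZQ_Zb _ i), ← ZbQ_0, ← ZQ_0]
  simp only [gI, gD]
  have hGd : ∀ i, Gd P (Zb i) Z (F i) (Y i) (fun w => ind (A w)) ≤ d1 * gn P (Zb i) (F i) (Y i) := fun i =>
    Gd_le_gn P (Zb i) Z (F i) (Y i) fun w _ x _ => hd1 i w x
  have hgn : ∀ i, 0 ≤ gn P (Zb i) (F i) (Y i) := fun i => gn_nn P (Zb i) (F i) (Y i)
  have hDt : ∀ i, 0 ≤ Dt P (Zb i) Z (Y i) := fun i => Dt_nn P (Zb i) Z (Y i)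
  have s1 : ∑ i, Gd P (Zb i) Z (F i) (Y i) (fun w => ind (A w)) ≤ d1 * ∑ i, gn P (Zb i) (F i) (Y i) := by
    rw [Finset.mul_sum]
    exact Finset.sum_le_sum fun i _ => hGd i
  have s2 : ∑ i, Real.sqrt (8 * (Gd P (Zb i) Z (F i) (Y i) (fun w => ind (A w)) * Dt P (Zb i) Z (Y i))) ≤
      ∑ i, Real.sqrt (8 * (d1 * gn P (Zb i) (F i) (Y i) * Dt P (Zb i) Z (Y i))) := by
    refine Finset.sum_le_sum fun i _ => Real.sqrt_le_sqrt ?_
    exact mul_le_mul_of_nonneg_left (mul_le_mul_of_nonneg_right (hGd i) (hDt i)) (by norm_num)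
  have hE : 0 < Real.exp 2 := Real.exp_pos 2
  have s3 := mul_le_mul_of_nonneg_left s1 (show 0 ≤ (2 + Real.exp 2 ^ 2 * dd) * Real.exp 2 + 1 by positivity)
  have s4 := mul_le_mul_of_nonneg_left s2 hE.le
  unfold cNT
  linarith

/-- the gains of the digits -/
theorem dig_gain (H : D.Hyp dg prr al T Lam) {n N1 : ℝ} (R : Run h (pr3 (Fin 3) n N1) (SS1 (Fin 3)) (AdmDep D) v)
    (hn : 1 ≤ n) (hN1 : 1 ≤ N1) (i : Fin 3) :
    ∑ t ∈ range T, (D.P h t).I (fun u => dg t u.1) (FT v (Equiv.refl (Fin 3)) (t + 1) i)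
      (ZbT D v (Equiv.refl (Fin 3)) (t + 1) t i) ≤ Lam := by
  have h1 := TG.top_gain h H R hn hN1 i
  refine (Finset.sum_le_sum fun t _ => ?_).trans h1
  have := TG.E2_le h (v := v) i t
  linarith

/-- the information of the missing letter about the digits -/
theorem dig_miss (H : D.Hyp dg prr al T Lam) {n N1 : ℝ} (R : Run h (pr3 (Fin 3) n N1) (SS1 (Fin 3)) (AdmDep D) v)
    (hn : 1 ≤ n) (hN1 : 1 ≤ N1) (i : Fin 3) :
    ∑ t ∈ range T, (D.P h t).I (ZT D v (t + 1) t) (fun u => dg t u.1) (ZbT D v (Equiv.refl (Fin 3)) (t + 1) t i) ≤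
      3 * (n * Lam) := by
  have h1 := TG.miss_gain_run h H R hn hN1 i
  refine (Finset.sum_le_sum fun t _ => ?_).trans h1
  have := (D.P h t).I_nonneg (ZT D v (t + 1) (t + 1)) (YT v (Equiv.refl (Fin 3)) (t + 2) i)
        (ZbT D v (Equiv.refl (Fin 3)) (t + 1) (t + 1) i)
  linarith

theorem exp2_le : Real.exp 2 ≤ 15 / 2 := by
  have h1 := Real.exp_one_lt_d9
  have h2 : Real.exp 2 = Real.exp 1 ^ 2 := by rw [← Real.exp_nat_mul]; norm_num
  have h3 := Real.exp_pos 1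
  rw [h2]
  nlinarith

/-- the constant of one time -/
theorem cNT_le {d1 eps dd : ℝ} (hd1 : 0 ≤ d1) (heps : 0 ≤ eps) (hdd : 0 ≤ dd) (hdd1 : dd ≤ 1) :
    cNT d1 eps dd ≤ 128 * dd + 2048 * eps + 512 * d1 := by
  have h1 := exp2_le
  have h0 := Real.exp_pos 2
  have h2 : Real.exp 2 ^ 2 ≤ 225 / 4 := by nlinarith
  have h3 : Real.exp 2 * dd ≤ 15 / 2 := by nlinarith
  have h4 : Real.exp 2 ^ 2 * dd ≤ 225 / 4 * dd := mul_le_mul_of_nonneg_right h2 hdd
  have h5 : Real.exp 2 ^ 2 * eps ≤ 225 / 4 * eps := mul_le_mul_of_nonneg_right h2 heps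
  have h6 : (4 + 2 * Real.exp 2 + Real.exp 2 * dd) * (Real.exp 2 ^ 2 * eps) ≤ (53 / 2) * (225 / 4 * eps) :=
    mul_le_mul (by linarith) h5 (by positivity) (by norm_num)
  have h7 : (2 + Real.exp 2 ^ 2 * dd) * Real.exp 2 + 1 ≤ 512 := by
    have h8 : 2 + Real.exp 2 ^ 2 * dd ≤ 60 := by nlinarith
    nlinarith [mul_le_mul h8 h1 h0.le (by norm_num)]
  have h8 : ((2 + Real.exp 2 ^ 2 * dd) * Real.exp 2 + 1) * d1 ≤ 512 * d1 := mul_le_mul_of_nonneg_right h7 hd1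
  unfold cNT
  linarith

/-- **sum over the times**, numbers open -/
theorem NT_sum0 (H : D.Hyp dg prr al T Lam) {n N1 : ℝ} (R : Run h (pr3 (Fin 3) n N1) (SS1 (Fin 3)) (AdmDep D) v)
    (hn : 1 ≤ n) (hN1 : 1 ≤ N1) (p : AP) {d1 eps dd : ℝ} (hd10 : 0 ≤ d1) (heps : 0 ≤ eps) (hdd : 0 ≤ dd) (hdd1 : dd ≤ 1)
    (hd1 : ∀ t < T, ∀ (d : Fin 3) (w : Pt (Fin 3) X β φ) (x : Tt X β φ),
      (D.P h t).ce (ZbQ D v (5 * t) d) (fun u => ind (Ar h v p (2 * t) u ∧ GdQ h v dg t u) *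
        |(D.P h t).pv (ZQ D v (5 * t)) (FQ v t d) u x - (D.P h t).pv (ZbQ D v (5 * t) d) (FQ v t d) u x|) w ≤
        d1 * (D.P h t).pv (ZbQ D v (5 * t) d) (FQ v t d) w x)
    (hp : ∀ t < T, PairE h v t (5 * t) (fun w => ind (Ar h v p (2 * t) w ∧ GdQ h v dg t w)) eps)
    (h3 : ∀ t < T, TripE h v t (5 * t) (fun w => ind (Ar h v p (2 * t) w ∧ GdQ h v dg t w)) eps dd) :
    ∑ t ∈ range T, V3.NT h v dg t (fun w => Ar h v p (2 * t) w ∧ GdQ h v dg t w) ≤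
      (128 * dd + 2048 * eps + 512 * d1) * (3 * Lam) + 24 * Real.sqrt (24 * (d1 * n * Lam ^ 2)) := by
  set g : Fin 3 → ℕ → ℝ := fun i t => (D.P h t).I (fun u => dg t u.1) (FT v (Equiv.refl (Fin 3)) (t + 1) i)
      (ZbT D v (Equiv.refl (Fin 3)) (t + 1) t i) with hg
  set m : Fin 3 → ℕ → ℝ := fun i t => (D.P h t).I (ZT D v (t + 1) t) (fun u => dg t u.1)
      (ZbT D v (Equiv.refl (Fin 3)) (t + 1) t i) with hm
  have g0 : ∀ i t, 0 ≤ g i t := fun i t => (D.P h t).I_nonneg _ _ _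
  have m0 : ∀ i t, 0 ≤ m i t := fun i t => (D.P h t).I_nonneg _ _ _
  have hL : 1 ≤ Lam := H.Lam1
  have one : ∀ t ∈ range T, V3.NT h v dg t (fun w => Ar h v p (2 * t) w ∧ GdQ h v dg t w) ≤
      cNT d1 eps dd * ∑ i, g i t + Real.exp 2 * ∑ i, Real.sqrt (8 * (d1 * g i t * m i t)) := fun t ht =>
    NT_le h H.dg_val (Ar0_fac h p t) heps hdd (hd1 t (Finset.mem_range.1 ht)) (hp t (Finset.mem_range.1 ht))
      (h3 t (Finset.mem_range.1 ht))
  refine (Finset.sum_le_sum one).trans ?_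
  rw [Finset.sum_add_distrib, ← Finset.mul_sum, ← Finset.mul_sum, Finset.sum_comm,
    Finset.sum_comm (s := range T) (t := univ) (f := fun t i => Real.sqrt (8 * (d1 * g i t * m i t)))]
  have s1 : ∑ i, ∑ t ∈ range T, g i t ≤ 3 * Lam := by
    refine (Finset.sum_le_sum fun i _ => dig_gain h H R hn hN1 i).trans (le_of_eq ?_)
    rw [Finset.sum_const, Finset.card_univ, Fintype.card_fin]
    simp
  have s2 : ∀ i, ∑ t ∈ range T, Real.sqrt (8 * (d1 * g i t * m i t)) ≤ Real.sqrt (24 * (d1 * n * Lam ^ 2)) := by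
    intro i
    have q1 : ∀ t, Real.sqrt (8 * (d1 * g i t * m i t)) = Real.sqrt (8 * d1) * (Real.sqrt (g i t) * Real.sqrt (m i t)) := by
      intro t
      rw [← Real.sqrt_mul (g0 i t), ← Real.sqrt_mul (by positivity)]
      congr 1
      ring
    simp only [q1]
    rw [← Finset.mul_sum]
    have q2 := Real.sum_sqrt_mul_sqrt_le (range T) (f := g i) (g := m i) (fun t => g0 i t) (fun t => m0 i t)
    have q3 : Real.sqrt (∑ t ∈ range T, g i t) * Real.sqrt (∑ t ∈ range T, m i t) ≤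
        Real.sqrt Lam * Real.sqrt (3 * (n * Lam)) :=
      mul_le_mul (Real.sqrt_le_sqrt (dig_gain h H R hn hN1 i)) (Real.sqrt_le_sqrt (dig_miss h H R hn hN1 i))
        (Real.sqrt_nonneg _) (Real.sqrt_nonneg _)
    refine (mul_le_mul_of_nonneg_left (q2.trans q3) (Real.sqrt_nonneg _)).trans (le_of_eq ?_)
    rw [← Real.sqrt_mul (by linarith), ← Real.sqrt_mul (by positivity)]
    congr 1
    ring
  have s3 : ∑ i : Fin 3, ∑ t ∈ range T, Real.sqrt (8 * (d1 * g i t * m i t)) ≤ 3 * Real.sqrt (24 * (d1 * n * Lam ^ 2)) := by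
    refine (Finset.sum_le_sum fun i _ => s2 i).trans (le_of_eq ?_)
    rw [Finset.sum_const, Finset.card_univ, Fintype.card_fin]
    simp
  have c0 := cNT_le (d1 := d1) (eps := eps) (dd := dd) hd10 heps hdd hdd1
  have c1 : 0 ≤ cNT d1 eps dd := by unfold cNT; positivity
  have c2 : 0 ≤ ∑ i, ∑ t ∈ range T, g i t := Finset.sum_nonneg fun i _ => Finset.sum_nonneg fun t _ => g0 i t
  have c3 : cNT d1 eps dd * ∑ i, ∑ t ∈ range T, g i t ≤ (128 * dd + 2048 * eps + 512 * d1) * (3 * Lam) :=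
    mul_le_mul c0 s1 c2 (c1.trans c0)
  have c4 : Real.exp 2 * ∑ i : Fin 3, ∑ t ∈ range T, Real.sqrt (8 * (d1 * g i t * m i t)) ≤
      8 * (3 * Real.sqrt (24 * (d1 * n * Lam ^ 2))) :=
    mul_le_mul (exp2_le.trans (by norm_num)) s3
      (Finset.sum_nonneg fun i _ => Finset.sum_nonneg fun t _ => Real.sqrt_nonneg _) (by norm_num)
  linarith

/-- the distance of the rows of the digits is tiny -/
theorem d1_num (hL : 2 ≤ Lam) {A c0 : ℕ} (hA : 80 ≤ A) (hal : Real.exp (-Lam) ≤ al) :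
    d1T (pw Lam (c1F A c0)) al (apF Lam A c0).X1 1 ((apF Lam A c0).X1 + Lam + pw Lam (c0 + 64)) ≤
      (2 * Lam) ^ (-((c0 : ℤ) + 61)) := by
  have hx : (4 : ℝ) ≤ 2 * Lam := by linarith
  have hx0 : (0 : ℝ) < 2 * Lam := by linarith
  have hal0 : 0 < al := (Real.exp_pos _).trans_le hal
  have pz : ∀ c : ℕ, pw Lam c = (2 * Lam) ^ (c : ℤ) := fun c => by unfold pw; rw [zpow_natCast]
  have P := Fn.zpos hx
  have hc1 := c1_big (c0 := c0) hA
  have hX : (apF Lam A c0).X1 = 3 * (2 * Lam) ^ ((cXF A c0 : ℕ) : ℤ) := by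
    show 3 * pw Lam (cXF A c0) = _
    rw [pz]
  have hcX : (cXF A c0 : ℕ) = 3 * c0 + 3 * A := rfl
  set X1 := (apF Lam A c0).X1 with hX1
  -- the first term
  have t1 : X1 ≤ (2 * Lam) ^ (((cXF A c0 : ℕ) : ℤ) + 1) := by
    rw [hX]
    refine (Fn.mul2 hx (P _).le (Fn.cst hx 1 (c := 3) (by norm_num)) le_rfl).trans (Fn.zle hx ?_)
    push_cast
    omega
  have t2 : Lam ≤ (2 * Lam) ^ (((cXF A c0 : ℕ) : ℤ) + 1) := by
    have q : Lam ≤ (2 * Lam) ^ (1 : ℤ) := by rw [zpow_one]; linarith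
    exact q.trans (Fn.zle hx (by omega))
  have t3 : pw Lam (c0 + 64) ≤ (2 * Lam) ^ (((cXF A c0 : ℕ) : ℤ) + 2) := by
    rw [pz]
    refine Fn.zle hx ?_
    push_cast [hcX]
    omega
  have t4 : (1 : ℝ) ≤ (2 * Lam) ^ (((cXF A c0 : ℕ) : ℤ) + 2) := (Fn.one hx).trans (Fn.zle hx (by omega))
  have t5 : X1 + Lam + pw Lam (c0 + 64) + 1 ≤ (2 * Lam) ^ (((cXF A c0 : ℕ) : ℤ) + 4) := by
    have q1 := Fn.add2 hx t1 t2
    have q1' : X1 + Lam ≤ (2 * Lam) ^ (((cXF A c0 : ℕ) : ℤ) + 3) := q1.trans (Fn.zle hx (by omega))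
    have q2 := Fn.add2 hx t3 t4
    have q2' : pw Lam (c0 + 64) + 1 ≤ (2 * Lam) ^ (((cXF A c0 : ℕ) : ℤ) + 3) := q2.trans (Fn.zle hx (by omega))
    have q3 := Fn.add2 hx q1' q2'
    have q4 : X1 + Lam + pw Lam (c0 + 64) + 1 = X1 + Lam + (pw Lam (c0 + 64) + 1) := by ring
    rw [q4]
    exact q3.trans (Fn.zle hx (by omega))
  have t6 : (X1 + Lam + pw Lam (c0 + 64) + 1) / pw Lam (c1F A c0) ≤ (2 * Lam) ^ (2 * (-((c0 : ℤ) + 66))) := by
    have ipz : (pw Lam (c1F A c0))⁻¹ = (2 * Lam) ^ (-((c1F A c0 : ℕ) : ℤ)) := by rw [pz (c1F A c0), zpow_neg]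
    rw [div_eq_mul_inv, ipz]
    refine (Fn.mul2 hx (P _).le t5 le_rfl).trans (Fn.zle hx ?_)
    push_cast [hcX]
    omega
  have t7 : 32 * Real.sqrt ((X1 + Lam + pw Lam (c0 + 64) + 1) / pw Lam (c1F A c0)) ≤
      (2 * Lam) ^ ((3 : ℤ) + -((c0 : ℤ) + 66)) := by
    refine (Fn.mul2 hx (Real.sqrt_nonneg _) (Fn.cst hx 3 (c := 32) (by norm_num)) (Fn.sqrt_le hx t6)).trans
      (Fn.zle hx ?_)
    push_cast
    omega
  -- the second term
  have u1 : Real.exp (-pw Lam (c0 + 64)) ≤ (2 * Lam) ^ (-((c0 + 64 : ℕ) : ℤ)) := by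
    refine Fn.expneg hx (c0 + 64) ?_
    rw [pz]
    refine (Fn.mul2 hx hx0.le (Fn.nat hx (c0 + 64)) (by rw [zpow_one])).trans (Fn.zle hx ?_)
    push_cast
    omega
  have u2 : Real.exp (X1 - (X1 + Lam + pw Lam (c0 + 64))) / (1 * al) ≤ Real.exp (-pw Lam (c0 + 64)) := by
    have e1 : X1 - (X1 + Lam + pw Lam (c0 + 64)) = -pw Lam (c0 + 64) + -Lam := by ring
    rw [e1, Real.exp_add, one_mul, div_le_iff₀ hal0]
    exact mul_le_mul_of_nonneg_left hal (Real.exp_pos _).le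
  have u3 : 8 * Real.exp (X1 - (X1 + Lam + pw Lam (c0 + 64))) / (1 * al) ≤
      (2 * Lam) ^ ((2 : ℤ) + -((c0 + 64 : ℕ) : ℤ)) := by
    rw [mul_div_assoc]
    refine (Fn.mul2 hx (by positivity) (Fn.cst hx 2 (c := 8) (by norm_num)) (u2.trans u1)).trans (Fn.zle hx ?_)
    push_cast
    omega
  unfold d1T
  refine (add_le_add (t7.trans (Fn.zle hx ?_)) (u3.trans (Fn.zle hx ?_))).trans
    ((Fn.add2 hx (a := -((c0 : ℤ) + 62)) le_rfl le_rfl).trans (Fn.zle hx ?_))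
  · omega
  · push_cast; omega
  · omega

/-- **(NT)** : the normalisation of the good digits, all times -/
theorem NT_sum (H : D.Hyp dg prr al T Lam) (hL : 2 ≤ Lam) {A c0 : ℕ} (hA : 80 ≤ A)
    (R : Run h (pr3 (Fin 3) (pw Lam c0) (pw Lam (c1F A c0))) (SS1 (Fin 3)) (AdmDep D) v) {eps dd : ℝ} (heps : 0 ≤ eps)
    (hdd : 0 ≤ dd) (he : eps ≤ (pw Lam 30)⁻¹) (hd : dd ≤ (pw Lam 30)⁻¹)
    (hp : ∀ t < T, PairE h v t (5 * t) (fun w => ind (Ar h v (apF Lam A c0) (2 * t) w ∧ GdQ h v dg t w)) eps)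
    (h3 : ∀ t < T, TripE h v t (5 * t) (fun w => ind (Ar h v (apF Lam A c0) (2 * t) w ∧ GdQ h v dg t w)) eps dd) :
    ∑ t ∈ range T, V3.NT h v dg t (fun w => Ar h v (apF Lam A c0) (2 * t) w ∧ GdQ h v dg t w) ≤ (pw Lam 16)⁻¹ := by
  have hx : (4 : ℝ) ≤ 2 * Lam := by linarith
  have hx0 : (0 : ℝ) < 2 * Lam := by linarith
  have hL0 : (0 : ℝ) < Lam := by linarith
  have pz : ∀ c : ℕ, pw Lam c = (2 * Lam) ^ (c : ℤ) := fun c => by unfold pw; rw [zpow_natCast]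
  have ipz : ∀ c : ℕ, (pw Lam c)⁻¹ = (2 * Lam) ^ (-(c : ℤ)) := fun c => by rw [pz, zpow_neg]
  have P := Fn.zpos hx
  have p1 : ∀ c, (1 : ℝ) ≤ pw Lam c := fun c => pw_one hL c
  set p := apF Lam A c0 with hp0
  set a : ℝ := p.X1 + Lam + pw Lam (c0 + 64) with ha
  set d1 : ℝ := d1T (pw Lam (c1F A c0)) al p.X1 1 a with hd1
  have hX1 : 0 ≤ p.X1 := by
    show 0 ≤ 3 * pw Lam (cXF A c0)
    linarith [p1 (cXF A c0)]
  have ha0 : 0 ≤ a := by linarith [p1 (c0 + 64)]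
  have hd10 : 0 ≤ d1 := by
    rw [hd1]
    unfold d1T
    have := h.pos
    positivity
  have hd1n : d1 ≤ (2 * Lam) ^ (-((c0 : ℤ) + 61)) := d1_num hL hA H.alL
  rw [ipz] at he hd ⊢
  have hdd1 : dd ≤ 1 := hd.trans ((Fn.zle hx (show (-((30 : ℕ) : ℤ)) ≤ 0 by norm_num)).trans (by rw [zpow_zero]))
  -- the rows
  have hrow : ∀ t < T, ∀ (d : Fin 3) (w : Pt (Fin 3) X β φ) (x : Tt X β φ),
      (D.P h t).ce (ZbQ D v (5 * t) d) (fun u => ind (Ar h v p (2 * t) u ∧ GdQ h v dg t u) *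
        |(D.P h t).pv (ZQ D v (5 * t)) (FQ v t d) u x - (D.P h t).pv (ZbQ D v (5 * t) d) (FQ v t d) u x|) w ≤
        d1 * (D.P h t).pv (ZbQ D v (5 * t) d) (FQ v t d) w x := by
    intro t ht d w x
    have hc1 : (0 : ℝ) < pw Lam (c1F A c0) := zero_lt_one.trans_le (p1 _)
    refine row_al (t := t) (j := 0) H R (fun J _ => (zero_le_one.trans (pr3_one (p1 _) (p1 _) J))) ?_ ?_ ?_
      (N1 := pw Lam (c1F A c0)) ?_ hc1 ?_ ?_ ?_ ht (by norm_num) (X1 := p.X1) (dl := 1) (a := a) one_pos le_rfl ?_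
      (aw := fun u => ind (Ar h v p (2 * t) u ∧ GdQ h v dg t u)) (fun u => ind_le_one _) ?_ d w x
    · exact mem_SS1.2 (by decide)
    · intro i; exact mem_SS1.2 (by revert i; decide)
    · unfold pr3; simp
    · intro i; unfold pr3; simp
    · intro l; exact mem_SS1.2 (Finset.erase_ne_self.2 (mem_univ l))
    · exact fun hh => mem_SS1.1 hh rfl
    · intro l; exact zero_lt_one.trans_le (pr3_one (p1 _) (p1 _) _)
    · exact Real.exp_le_one_iff.2 (by linarith)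
    · intro u _ hu
      have hA' : Ar h v p (2 * t) u ∧ GdQ h v dg t u := by
        by_contra hh
        exact hu (ind_not hh)
      exact ⟨fun i k hik => (AQ_0 h p hA'.1).2 i k hik, fun h0 => absurd h0 (by norm_num)⟩
  refine (NT_sum0 h H R (p1 _) (p1 _) p hd10 heps hdd hdd1 hrow hp h3).trans ?_
  -- numbers
  have hLx : Lam ≤ (2 * Lam) ^ (1 : ℤ) := by rw [zpow_one]; linarith
  have n1 : 128 * dd ≤ (2 * Lam) ^ (-24 : ℤ) :=
    (Fn.mul2 hx hdd (Fn.cst hx 4 (c := 128) (by norm_num)) hd).trans (Fn.zle hx (by norm_num))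
  have n2 : 2048 * eps ≤ (2 * Lam) ^ (-24 : ℤ) :=
    (Fn.mul2 hx heps (Fn.cst hx 6 (c := 2048) (by norm_num)) he).trans (Fn.zle hx (by norm_num))
  have n3 : 512 * d1 ≤ (2 * Lam) ^ (-23 : ℤ) := by
    refine (Fn.mul2 hx hd10 (Fn.cst hx 5 (c := 512) (by norm_num)) hd1n).trans (Fn.zle hx ?_)
    omega
  have n4 : 128 * dd + 2048 * eps + 512 * d1 ≤ (2 * Lam) ^ (-22 : ℤ) :=
    (Fn.add2 hx ((Fn.add2 hx n1 n2).trans (Fn.zle hx (by norm_num : (-24 : ℤ) + 1 ≤ -23))) n3).trans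
      (Fn.zle hx (by norm_num))
  have n5 : 3 * Lam ≤ (2 * Lam) ^ (2 : ℤ) :=
    (Fn.mul2 hx hL0.le (Fn.cst hx 1 (c := 3) (by norm_num)) hLx).trans (Fn.zle hx (by norm_num))
  have n6 : (128 * dd + 2048 * eps + 512 * d1) * (3 * Lam) ≤ (2 * Lam) ^ (-20 : ℤ) :=
    (Fn.mul2 hx (by linarith) n4 n5).trans (Fn.zle hx (by norm_num))
  have n7 : 24 * (d1 * pw Lam c0 * Lam ^ 2) ≤ (2 * Lam) ^ (2 * (-28 : ℤ)) := by
    have q1 : d1 * pw Lam c0 ≤ (2 * Lam) ^ (-((c0 : ℤ) + 61) + (c0 : ℤ)) :=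
      Fn.mul2 hx (zero_le_one.trans (p1 _)) hd1n (by rw [pz])
    have q2 : Lam ^ 2 ≤ (2 * Lam) ^ (2 : ℤ) := by
      have : (2 * Lam) ^ (2 : ℤ) = (2 * Lam) ^ 2 := by rw [← zpow_natCast]; rfl
      rw [this]
      exact pow_le_pow_left₀ hL0.le (by linarith) 2
    have q3 := Fn.mul2 hx (by positivity) q1 q2
    have q4 : 24 * (d1 * pw Lam c0 * Lam ^ 2) ≤ (2 * Lam) ^ ((3 : ℤ) + (-((c0 : ℤ) + 61) + (c0 : ℤ) + 2)) :=
      (Fn.mul2 hx (mul_nonneg (mul_nonneg hd10 (zero_le_one.trans (p1 _))) (sq_nonneg _))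
        (Fn.cst hx 3 (c := 24) (by norm_num)) q3).trans (Fn.zle hx (by push_cast; omega))
    exact q4.trans (Fn.zle hx (by omega))
  have n8 : 24 * Real.sqrt (24 * (d1 * pw Lam c0 * Lam ^ 2)) ≤ (2 * Lam) ^ (-20 : ℤ) :=
    (Fn.mul2 hx (Real.sqrt_nonneg _) (Fn.cst hx 3 (c := 24) (by norm_num)) (Fn.sqrt_le hx n7)).trans
      (Fn.zle hx (by norm_num))
  exact (Fn.add2 hx n6 n8).trans (Fn.zle hx (by norm_num))

end

end Pool.Agent.GMH.TP
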