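import Pool.Agent.GMH.CtxL
import Pool.Agent.GMH.CtxG
import Pool.Agent.GMH.TopNT
import Pool.Agent.GMH.MVT

/-!
# GMH/Fin0: the last assembly of `TopKin` over one run (helper12)

* `C.Gq`, `C.st ka`, `C.sp ka` : good points, status of the joint step and of the private step; `C.aN ka`, `C.aV ka i` : the
  alive points of the three frames;
* `Fu C ka` : what the rows of `FULL` give (kinds `c`, `B`, region, bits, `eta`, prices); `Fu.No` its normalisation;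
* `Tw C ka i` : the same for `TWO i`; `Tw.No`;
* `goal_rows` : `GoalC` from these, `ONE i`, `OneP i`, the first normalisation and the sum of all normalisations.
-/

set_option autoImplicit false
set_option linter.unusedSectionVars false

namespace Pool.Agent.GMH.CX

open Finset Pool.Agent.PWZ Pool.Agent.M3 Pool.Agent.GM Pool.Agent.GM.Harm Pool.Agent.GMH Pool.Agent.GMH.NZ
open Pool.Agent.GMH.V3 Pool.Agent.GMH.TP Pool.Agent.GMH.TD Pool.Agent.GMH.Dy Pool.Agent.GMH.KF Pool.Agent.GMH.MVT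

noncomputable section

namespace Ctx

variable (C : Ctx) (ka : ℕ)

/-- the good points -/
abbrev Gq : ℕ → C.Q → Prop := GdQ C.h C.v C.dg

/-- status of the joint step -/
abbrev st : ℕ → C.Q → Option (Fin 3) := stP (C.U ka).toMS

/-- status of the joint private step -/
abbrev sp : ℕ → C.Q → Option (Fin 3) := spP C.h (C.U ka).toMS C.v

/-- the alive points which are not split -/
abbrev aN : Fin 6 → ℕ → C.Q → Prop := TP.aN C.h C.v C.p C.Gq (C.st ka) (C.sp ka)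

/-- the alive points which are split at the vertex `i` -/
abbrev aV (i : Fin 3) : Bool → ℕ → C.Q → Prop := TP.aV C.h C.v C.p C.Gq (C.st ka) (C.sp ka) i

theorem st_fac (t : ℕ) : Fac (VZ C.D C.v 1 t) (C.st ka t) :=
  stP_fac C.tb (C.d1_pos ka) (C.d1_le ka) (C.kb_pos ka) C.d0_pos C.d0_le C.d0_pos C.p1_pos (C.z_pos ka) t

theorem sp_fac (t : ℕ) : Fac (VZ C.D C.v 5 t) (C.sp ka t) :=
  spP_fac C.tb (C.d1_pos ka) (C.d1_le ka) (C.kb_pos ka) C.d0_pos C.d0_le C.d0_pos C.p1_pos (C.z_pos ka) t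

end Ctx

/-- **what the rows of the three tops give** -/
structure Fu (C : Ctx) (ka : ℕ) where
  c : KC
  B : ℝ
  Rg : Fin 6 → ℕ → C.Q → Tu C.X C.β C.φ → Prop
  bt : Fin 10 → Fin 3 → ℕ → C.Q → Prop
  bz : Fin 10 → ℕ → C.Q → Prop
  eta : ℝ
  Dv : Fin 6 → ℕ → Fin 10 → ℝ
  eta0 : 0 < eta
  eta1 : eta ≤ 1
  fR : ∀ s t f, Fac (VZ C.D C.v s t) (fun w => Rg s t w f)
  dev : ∀ t < C.T, ∀ s k, ∀ g : C.Q → ℝ, Fac (fun w => (tup (FQ C.v t) w, VZ C.D C.v s t w)) g → (∀ w, |g w| ≤ 1) →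
    |(C.D.P C.h t).E (fun w => ind (C.aN ka s t w ∧ bit3 C.h C.v bt bz s t k w) *
      (g w - (C.D.P C.h t).ce (VZ C.D C.v s t) g w))| ≤ Dv s t k
  rel : ∑ t ∈ range C.T, ∑ s, RelS C.h C.v c B bt bz (C.aN ka) C.Kf s t ≤ (pw C.Lam 17)⁻¹
  unr : ∑ t ∈ range C.T, ∑ s, UnrS C.h C.v c B Rg bt bz (C.aN ka) eta s t ≤ (pw C.Lam 17)⁻¹
  pr : ∑ t ∈ range C.T, ∑ s, ∑ k, (3 * C.Lam + Real.log (1 / eta)) * Dv s t k ≤ (pw C.Lam 16)⁻¹

/-- the normalisation of the three tops -/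
def Fu.No {C : Ctx} {ka : ℕ} (F : Fu C ka) : ℝ :=
  ∑ t ∈ range C.T, ∑ s, NoS C.h C.v (C.aN ka) (rel3 C.h C.v F.c F.B) (bit3 C.h C.v F.bt F.bz) (om3 F.Rg) F.eta s t

/-- **what the rows of the two tops which see `i` give** -/
structure Tw (C : Ctx) (ka : ℕ) (i : Fin 3) where
  c : KC
  B : ℝ
  rk : Finset (Fin 10)
  Rg : Bool → ℕ → C.Q → T2 C.X C.β C.φ → Prop
  bt : Fin 10 → ℕ → C.Q → Prop
  bz : Fin 10 → ℕ → C.Q → Prop
  eta : ℝ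
  Dv : Bool → ℕ → Fin 10 → ℝ
  eta0 : 0 < eta
  eta1 : eta ≤ 1
  fR : ∀ b t f, Fac (VZ C.D C.v (s2 b) t) (fun w => Rg b t w f)
  dev : ∀ t < C.T, ∀ b k, ∀ g : C.Q → ℝ, Fac (fun w => (tup (Fo (FQ C.v t) i) w, VZ C.D C.v (s2 b) t w)) g →
    (∀ w, |g w| ≤ 1) → |(C.D.P C.h t).E (fun w => ind (C.aV ka i b t w ∧ bit2 C.h C.v i rk bt bz b t k w) *
      (g w - (C.D.P C.h t).ce (VZ C.D C.v (s2 b) t) g w))| ≤ Dv b t k
  rel : ∑ t ∈ range C.T, ∑ b, RelS2 C.h C.v c B i rk bt bz (C.aV ka i) C.Kf b t ≤ (pw C.Lam 17)⁻¹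
  unr : ∑ t ∈ range C.T, ∑ b, UnrS2 C.h C.v c B i rk Rg bt bz (C.aV ka i) eta b t ≤ (pw C.Lam 17)⁻¹
  pr : ∑ t ∈ range C.T, ∑ b, ∑ k, (3 * C.Lam + Real.log (1 / eta)) * Dv b t k ≤ (pw C.Lam 16)⁻¹

/-- the normalisation of the two tops which see `i` -/
def Tw.No {C : Ctx} {ka : ℕ} {i : Fin 3} (G : Tw C ka i) : ℝ :=
  ∑ t ∈ range C.T, ∑ b, No2 C.h C.v (s2 b) t i (C.aV ka i b t) (rel2 C.h C.v G.c G.B i G.rk b t)
    (bit2 C.h C.v i G.rk G.bt G.bz b t) (om2 G.Rg b t) G.eta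

theorem Fu.full {C : Ctx} {ka : ℕ} (F : Fu C ka) : FullOK C.h C.v C.p C.Gq (C.st ka) (C.sp ka) C.T C.Lam F.No :=
  fullOK3 C.hL F.fR F.eta0 F.eta1 C.Kf_nn C.Kf_le F.dev F.rel F.unr F.pr le_rfl

theorem Tw.two {C : Ctx} {ka : ℕ} {i : Fin 3} (G : Tw C ka i) :
    TwoOK C.h C.v C.p C.Gq (C.st ka) (C.sp ka) C.T C.Lam i G.No :=
  twoOK2 C.hL G.fR G.eta0 G.eta1 C.Kf_nn C.Kf_le G.dev G.rel G.unr G.pr le_rfl

/-- **THE LAST ASSEMBLY** -/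
theorem goal_rows {C : Ctx} {ka : ℕ} (F : Fu C ka) (G : ∀ i, Tw C ka i) {e1 : Fin 3 → ℝ}
    (h1 : ∀ i, OneOK C.h C.v C.p C.Gq (C.st ka) (C.sp ka) C.T C.Lam i (e1 i))
    (hp : ∀ i, OneP C.h C.v C.p C.Gq (C.st ka) (C.sp ka) C.T C.Lam i)
    (hNT : ∑ t ∈ range C.T, NT C.h C.v C.dg t (fun w => Ar C.h C.v C.p (2 * t) w ∧ C.Gq t w) ≤ (pw C.Lam 16)⁻¹)
    (hNo : F.No + ∑ i, (G i).No + ∑ i, e1 i ≤ 7 * (pw C.Lam 16)⁻¹) : GoalC C :=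
  ⟨C.Gq, fun t _ => GdQ_fac C.h t, fun _ _ _ _ hw => GdQ_of C.h hw, C.st ka, C.sp ka, fun t _ => C.st_fac ka t,
    fun t _ => C.sp_fac ka t, hNT, F.No, fun i => (G i).No, e1, hNo, F.full, fun i => (G i).two, h1, hp⟩

end

end Pool.Agent.GMH.CX
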