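import Pool.Agent.GMH.Fin3N

/-!
# GMH/Fin3: HARM(3) from the thin dynamics and the top level, helper91

`TopLev` = the balance of the tops over the thin labels is small; `rest3A_of`, `harm3_of` : `HarmW (Fin 3)` from `ThinDyn 32`
and `TopLev` (prices `n = (2 Lam)^c0`, `N1 = (2 Lam)^(A^2 (c0 + 1))`, any large `A`, any `c0` large after `A`).
-/

set_option autoImplicit false
set_option linter.unusedSectionVars false

namespace Pool.Agent.GMH.V3

open Finset Pool.Agent.PWZ Pool.Agent.M3 Pool.Agent.GM Pool.Agent.GM.Harm Pool.Agent.GMH Pool.Agent.GMH.NZ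

/-- **THE TOP LEVEL** : for every large `A` and every `c0` large after `A` -/
def TopLev : Prop :=
  ∃ C : ℕ, ∀ A ≥ C, ∃ c0m : ℕ, ∀ c0 ≥ c0m, ∀ (X β γ φ : Type) [Fintype X] [Fintype β] [Fintype φ] [Nonempty X]
    [Nonempty β] (D : HD (Fin 3) X β γ φ) (al : ℝ) (h : D.Thick al) (dg : ℕ → X → ℝ) (prr : ℕ → Fin 3 → φ → φ) (T : ℕ)
    (Lam : ℝ), D.Hyp dg prr al T Lam → 2 ≤ Lam → ∀ v : ℕ → Finset (Fin 3) → X → (Fin 3 → β) → Pt (Fin 3) X β φ,
    Run h (pr3 (Fin 3) (pw Lam c0) (pw Lam (c1F A c0))) (SS1 (Fin 3)) (AdmDep D) v →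
    (D.P h T).Pr (fun w => ¬ Ar h v (apF Lam A c0) (2 * T) w) ≤ (pw Lam (c0 + A))⁻¹ →
    ∃ (aT aT' : ℕ → Pt (Fin 3) X β φ → Prop) (gT gT' : ℕ → Pt (Fin 3) X β φ → ℝ),
      (∀ t < T, Fac (fun w => (all (LP (fun J => J ≠ univ) (LL (Um v (t + 1)))) w, WW D t w)) (aT t)) ∧
      (∀ t < T, Fac (fun w => (all (LP (fun J => J ≠ univ) (LL (Um v (t + 1)))) w, WW D (t + 1) w)) (aT' t)) ∧
      (∀ t < T, ∀ w, (D.P h t).p w ≠ 0 → GA h v (apF Lam A c0) dg t w → aT t w ∧ gT t w = 0 ∧ gT' t w = 0) ∧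
      (∀ t < T, Fac (eA D (UU v) t) (gT t)) ∧ (∀ t < T, Fac (eA D (UU v) t) (gT' t)) ∧
      balA h prr v (fun J => J ≠ univ) pth dg T aT aT' gT gT' ≤ (pw Lam 12)⁻¹

namespace F3

theorem k3 : Fintype.card (Fin 3) = 3 := rfl

variable {X β γ φ υ : Type} [Fintype X] [Fintype β] [Fintype φ] [Nonempty X] [Nonempty β]
variable {D : HD (Fin 3) X β γ φ} {al : ℝ} (h : D.Thick al) {v : ℕ → Finset (Fin 3) → X → (Fin 3 → β) → υ}
variable {dg : ℕ → X → ℝ} {prr : ℕ → Fin 3 → φ → φ} {T : ℕ} {Lam : ℝ}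

/-- alive is a function of the thin labels -/
theorem al_fac (p : AP) {r s n : ℕ} (hs : tm r + 1 = s) (hn : nt r = n) {S : Finset (Fin 3)} {q : Finset (Fin 3) → Prop}
    (h0 : q ∅) (hq : ∀ i ∈ S, q {i}) :
    Fac (fun w => (all (LP q (LL (φ := φ) (Um v s))) w, WW D n w)) (fun w => PBr h v p r w ∧ ∀ i ∈ S, TTr h v p r i w) := by
  subst hs
  subst hn
  intro a b hab
  have h1 : all (LP q (LL (φ := φ) (Um v (tm r + 1)))) a = all (LP q (LL (Um v (tm r + 1)))) b := congrArg Prod.fst hab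
  have h2 : WW D (nt r) a = WW D (nt r) b := congrArg Prod.snd hab
  have h3 : a.2.1 = b.2.1 := (Prod.mk.inj h2).1
  have h4 : nd D (nt r) a = nd D (nt r) b := (Prod.mk.inj h2).2
  have hl : ∀ I : Finset (Fin 3), q I → Um v (tm r + 1) I a.1 a.2.1 = Um v (tm r + 1) I b.1 b.2.1 := fun I hI =>
    (LL_eq.1 (congrFun h1 ⟨I, hI⟩)).1
  have hN : NPr v D r a = NPr v D r b := Prod.ext (hl ∅ h0) h4
  have hX : ∀ i ∈ S, XLr v r i a = XLr v r i b := fun i hi => Prod.ext (congrFun h3 i) (hl {i} (hq i hi))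
  refine propext (and_congr (PBr_fac h p hN) (forall_congr' fun i => forall_congr' fun hi => ?_))
  exact TTr_fac h p (Prod.ext (hX i hi) hN)

theorem aV_fac (p : AP) (t : ℕ) :
    Fac (fun w => (all (LP pth (LL (φ := φ) (Um v (t + 1)))) w, WW D t w)) (aV h v p t) := by
  have := al_fac h p (v := v) (D := D) (r := 2 * t) (s := t + 1) (n := t) (by unfold tm; omega) (by unfold nt; omega)
    (S := univ) (q := pth) pth0 (fun i _ => by unfold pth; rw [Finset.card_singleton])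
  refine fun a b hab => ?_
  have e := this a b hab
  simp only [Finset.mem_univ, forall_true_left] at e
  exact e

theorem aV'_fac (p : AP) (t : ℕ) :
    Fac (fun w => (all (LP pth (LL (φ := φ) (Um v (t + 1)))) w, WW D (t + 1) w)) (aV' h v p t) := by
  have := al_fac h p (v := v) (D := D) (r := 2 * t + 1) (s := t + 1) (n := t + 1) (by unfold tm; omega)
    (by unfold nt; omega) (S := univ) (q := pth) pth0 (fun i _ => by unfold pth; rw [Finset.card_singleton])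
  refine fun a b hab => ?_
  have e := this a b hab
  simp only [Finset.mem_univ, forall_true_left] at e
  exact e

theorem pj_one {i j : Fin 3} (hij : i ≠ j) : pj j ({i} : Finset (Fin 3)) := by
  refine lt_of_le_of_ne (Finset.singleton_subset_iff.2 (Finset.mem_erase.2 ⟨hij, mem_univ i⟩)) fun hh => ?_
  have h7 := card_er k3 j
  rw [← hh, Finset.card_singleton] at h7
  omega

theorem aJ_fac (p : AP) (t : ℕ) {i k j : Fin 3} (hij : i ≠ j) (hkj : k ≠ j) :
    Fac (fun w => (all (LP (pj j) (LL (φ := φ) (Um v (t + 1)))) w, WW D t w)) (aJ h v p i k t) := by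
  have := al_fac h p (v := v) (D := D) (r := 2 * t) (s := t + 1) (n := t) (by unfold tm; omega) (by unfold nt; omega)
    (S := {i, k}) (q := pj j) (pj0 k3 j) (fun l hl => pj_one (by
      rcases Finset.mem_insert.1 hl with rfl | hl
      · exact hij
      · rw [Finset.mem_singleton.1 hl]; exact hkj))
  refine fun a b hab => ?_
  have e := this a b hab
  simp only [Finset.mem_insert, Finset.mem_singleton, forall_eq_or_imp, forall_eq] at e
  exact e

theorem aJ'_fac (p : AP) (t : ℕ) {i k j : Fin 3} (hij : i ≠ j) (hkj : k ≠ j) :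
    Fac (fun w => (all (LP (pj j) (LL (φ := φ) (Um v (t + 1)))) w, WW D (t + 1) w)) (aJ' h v p i k t) := by
  have := al_fac h p (v := v) (D := D) (r := 2 * t + 1) (s := t + 1) (n := t + 1) (by unfold tm; omega)
    (by unfold nt; omega) (S := {i, k}) (q := pj j) (pj0 k3 j) (fun l hl => pj_one (by
      rcases Finset.mem_insert.1 hl with rfl | hl
      · exact hij
      · rw [Finset.mem_singleton.1 hl]; exact hkj))
  refine fun a b hab => ?_
  have e := this a b hab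
  simp only [Finset.mem_insert, Finset.mem_singleton, forall_eq_or_imp, forall_eq] at e
  exact e

/-- the class bias on the good event -/
theorem GA_mm (H : D.Hyp dg prr al T Lam) (hv : Codes D v) (p : AP) {t : ℕ} {w : Pt (Fin 3) X β φ}
    (hw : (D.P h t).p w ≠ 0) (hG : GA h v p dg t w) : |mm (UU v) h dg t w| ≤ 1 / 2 := by
  have h1 := hG.2 {0} (Finset.mem_filter.2 ⟨mem_univ _, Finset.singleton_nonempty _, one_ne k3 0⟩)
  rwa [ul_one h k3 H hv 0 hw] at h1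

theorem GA_aV {p : AP} {t : ℕ} {w : Pt (Fin 3) X β φ} (hG : GA h v p dg t w) : aV h v p t w := ⟨hG.1.1, hG.1.2.1⟩

theorem GA_aJ {p : AP} {t : ℕ} (i k : Fin 3) {w : Pt (Fin 3) X β φ} (hG : GA h v p dg t w) : aJ h v p i k t w :=
  ⟨hG.1.1, hG.1.2.1 i, hG.1.2.1 k⟩

/-- the total costs of a run -/
theorem tot_run (H : D.Hyp dg prr al T Lam) {n N1 : ℝ} (hn : 1 ≤ n) (hN1 : 1 ≤ N1) (hL : 0 ≤ Lam)
    {v : ℕ → Finset (Fin 3) → X → (Fin 3 → β) → Pt (Fin 3) X β φ}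
    (R : Run h (pr3 (Fin 3) n N1) (SS1 (Fin 3)) (AdmDep D) v) :
    tot D h prr T v ∅ ≤ 4 * (n * N1 * Lam) ∧ ∀ i : Fin 3, tot D h prr T v {i} ≤ 4 * (n * Lam) := by
  have hT := fun {J : Finset (Fin 3)} (hJ : J ≠ univ) => tot_le h H (N := pr3 (Fin 3) n N1) (Ntop := n * N1)
    (fun J => lt_of_lt_of_le zero_lt_one (pr3_one hn hN1 J)) (fun l => (pr3_top rfl n N1 l).le)
    (fun t _ => R.nonpos (admDep_ok D) t) hJ
  have hnN : (1 : ℝ) ≤ n * N1 := one_le_mul_of_one_le_of_one_le hn hN1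
  refine ⟨?_, fun i => ?_⟩
  · refine (hT (ne_u k3)).trans ?_
    have e : pr3 (Fin 3) n N1 ∅ = 1 := by
      unfold pr3
      rw [if_pos (by rw [Finset.card_empty])]
    rw [e, div_one, Fintype.card_fin]
    push_cast
    nlinarith
  · refine (hT (one_ne k3 i)).trans ?_
    have e : pr3 (Fin 3) n N1 {i} = N1 := by
      unfold pr3
      rw [if_neg (by rw [Finset.card_singleton]; norm_num), if_pos (by rw [Finset.card_singleton])]
    have e2 : (Fintype.card (Fin 3) : ℝ) * (n * N1 * Lam) / N1 = 3 * (n * Lam) := by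
      rw [Fintype.card_fin]
      have : N1 ≠ 0 := by linarith
      push_cast
      rw [show (3 : ℝ) * (n * N1 * Lam) = 3 * (n * Lam) * N1 by ring, mul_div_assoc, div_self this, mul_one]
    rw [e, e2]
    nlinarith

end F3

open F3

/-- **WHAT REMAINS, from the thin dynamics and the top level** -/
theorem rest3A_of (hV : ThinDyn 32) (hT : TopLev) : Rest3A := by
  obtain ⟨C1, hV⟩ := hV
  obtain ⟨C2, hT⟩ := hT
  obtain ⟨A, hA, hAC1, hAC2⟩ : ∃ A : ℕ, 80 ≤ A ∧ 20 * C1 ≤ A ∧ C2 ≤ A := ⟨80 + 20 * C1 + C2, by omega, by omega, by omega⟩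
  obtain ⟨c0m, hT⟩ := hT A hAC2
  obtain ⟨c0, hc0m, hc0C⟩ : ∃ c0 : ℕ, c0m ≤ c0 ∧ C1 ≤ c0 := ⟨c0m + C1, by omega, by omega⟩
  refine ⟨c0, c1F A c0, cXF A c0, ceF A c0, 4 * c1F A c0, ?_⟩
  intro X β γ φ _ _ _ _ _ D al h dg prr T Lam H hL v R
  have hL0 : (0 : ℝ) ≤ Lam := by linarith
  have hx : (4 : ℝ) ≤ 2 * Lam := by linarith
  have p1 : ∀ c, (1 : ℝ) ≤ pw Lam c := fun c => pw_one hL c
  have i0 : ∀ c, 0 < (pw Lam c)⁻¹ := fun c => inv_pos.2 (zero_lt_one.trans_le (p1 c))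
  have ipz : ∀ c : ℕ, (pw Lam c)⁻¹ = (2 * Lam) ^ (-(c : ℤ)) := fun c => by
    unfold pw; rw [zpow_neg, zpow_natCast]
  have hinv : ∀ {a b : ℕ}, a ≤ b → (pw Lam b)⁻¹ ≤ (pw Lam a)⁻¹ := fun {a b} hab => by
    rw [ipz, ipz]; exact Fn.zle hx (by omega)
  set p : AP := apF Lam A c0 with hp
  have hpe : apn Lam (cXF A c0) (ceF A c0) (4 * c1F A c0) = p := rfl
  rw [hpe]
  -- dead points
  obtain ⟨tb0, tb1⟩ := tot_run h H (p1 c0) (p1 (c1F A c0)) hL0 R
  have hdead : (D.P h T).Pr (fun w => ¬ Ar h v p (2 * T) w) ≤ (pw Lam (c0 + A))⁻¹ := by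
    have hde : p.dl = (pw Lam (4 * c1F A c0))⁻¹ := rfl
    have nv := numV (c0 := c0) hL hA
    have a1 := dead_all h H R.codes p (by have := nv.hX; linarith) (by
        show pw Lam (cXF A c0) ≤ 3 * pw Lam (cXF A c0)
        have := p1 (cXF A c0); linarith) (by show 0 < (pw Lam (ceF A c0))⁻¹; exact i0 _)
      (by show (pw Lam (ceF A c0))⁻¹ ≤ 1; exact inv_le_one_of_one_le₀ (p1 _)) nv.hdl.le nv.hdl1 tb0 tb1
    exact a1.trans (dead_num hL hA (by have := p1 c0; positivity) le_rfl le_rfl)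
  have hLe : (pw Lam 1)⁻¹ ≤ Lam⁻¹ := by
    unfold pw
    rw [pow_one]
    exact inv_anti₀ (by linarith) (by linarith)
  refine ⟨hdead.trans ((hinv (by omega)).trans hLe), ?_⟩
  -- thin dynamics
  have hc1 : C1 * (c0 + cXF A c0 + ceF A c0 + (c0 + A) + (cXF A c0 + A) + 1) ≤ c1F A c0 := by
    have e1 : c0 + cXF A c0 + ceF A c0 + (c0 + A) + (cXF A c0 + A) + 1 = 9 * c0 + 9 * A + 1 := by
      unfold cXF ceF; ring
    rw [e1]
    unfold c1F
    have e2 : 20 * C1 * A ≤ A * A := Nat.mul_le_mul_right A hAC1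
    have e3 : 80 * A ≤ A * A := Nat.mul_le_mul_right A hA
    have e4 : 80 * (20 * C1) ≤ A * A := Nat.mul_le_mul hA hAC1
    have e5 : 9 * C1 * c0 ≤ A * A * c0 := Nat.mul_le_mul_right c0 (by omega)
    have e6 : C1 * (9 * A + 1) ≤ A * A := by
      have : C1 ≤ C1 * A := Nat.le_mul_of_pos_right C1 (by omega)
      nlinarith
    nlinarith
  have hR := hV c0 (cXF A c0) (ceF A c0) (c0 + A) (cXF A c0 + A) (c1F A c0) hc0C (by unfold ceF; omega)
    (by unfold ceF cXF; omega) (by omega) (by omega) hc1 X β γ φ D al h dg prr T Lam H hL v R p rfl rfl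
  have nv := numV (c0 := c0) hL hA
  have bV := V_total H R p nv hdead hR
  have bJ := fun (j : Fin 3) => VJ_total H R p nv hdead hR (i := j + 1) (k := j + 2) (j := j)
    (by fin_cases j <;> decide) (by fin_cases j <;> decide) (by fin_cases j <;> decide)
  have hE := errV_small (c0 := c0) hL hA (Pd := (pw Lam (c0 + A))⁻¹) (PR := (pw Lam (cXF A c0 + A))⁻¹) (i0 _).le
    le_rfl le_rfl
  -- top level
  obtain ⟨aT, aT', gT, gT', fa, fa', hGa, fg, fg', bT⟩ := hT c0 hc0m X β γ φ D al h dg prr T Lam H hL v R hdead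
  have hv := R.codes
  have hj1 : ∀ j : Fin 3, j + 1 ≠ j := by decide
  have hj2 : ∀ j : Fin 3, j + 2 ≠ j := by decide
  have hj3 : ∀ j : Fin 3, j + 1 ≠ j + 2 := by decide
  have h8 : (4 : ℝ) ≤ 32 := by norm_num
  have key := con3A h k3 H hv (G := GA h v p dg) (fun t _ w hG J hJ => hG.2 J hJ)
    (aT := aT) (aT' := aT') (aV := aV h v p) (aV' := aV' h v p)
    (aj := fun j => aJ h v p (j + 1) (j + 2)) (aj' := fun j => aJ' h v p (j + 1) (j + 2))
    (gT := gT) (gT' := gT') (gV := fun t => gL h v (fun u => dg t u.1) 32 (pw Lam (c0 + A))⁻¹ t (t + 1) t 1)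
    (gV' := fun t => gL h v (fun u => dg t u.1) 32 (pw Lam (c0 + A))⁻¹ t (t + 1) t (-1))
    (gj := fun j t => gJ h v (j + 1) (j + 2) (fun u => dg t u.1) 32 (pw Lam (c0 + A))⁻¹ t (t + 1) t 1)
    (gj' := fun j t => gJ h v (j + 1) (j + 2) (fun u => dg t u.1) 32 (pw Lam (c0 + A))⁻¹ t (t + 1) t (-1))
    fa fa' (fun t ht w hw hG => (hGa t ht w hw hG).1)
    (fun t _ => aV_fac h p t) (fun t _ => aV'_fac h p t) (fun t _ w _ hG => GA_aV h hG)
    (fun j t _ => aJ_fac h p t (hj1 j) (hj2 j)) (fun j t _ => aJ'_fac h p t (hj1 j) (hj2 j))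
    (fun j t _ w _ hG => GA_aJ h _ _ hG)
    fg fg' (fun t ht w hw hG => (hGa t ht w hw hG).2)
    (fun t _ => gL_fac h 1) (fun t _ => gL_fac h (-1))
    (fun t ht w hw hG => ⟨gL_zero h H hv ht h8 hw (GA_mm h H hv p hw hG) (Or.inl rfl),
      gL_zero h H hv ht h8 hw (GA_mm h H hv p hw hG) (Or.inr rfl)⟩)
    (fun j t _ => gJ_fac h (hj3 j) (hj1 j) (hj2 j) 1) (fun j t _ => gJ_fac h (hj3 j) (hj1 j) (hj2 j) (-1))
    (fun j t ht w hw hG => ⟨gJ_zero h H hv ht h8 hw (GA_mm h H hv p hw hG) (Or.inl rfl),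
      gJ_zero h H hv ht h8 hw (GA_mm h H hv p hw hG) (Or.inr rfl)⟩)
  refine key.trans ?_
  have s1 : ∑ j : Fin 3, balA h prr v (pj j) pcl dg T (aJ h v p (j + 1) (j + 2)) (aJ' h v p (j + 1) (j + 2))
      (fun t => gJ h v (j + 1) (j + 2) (fun u => dg t u.1) 32 (pw Lam (c0 + A))⁻¹ t (t + 1) t 1)
      (fun t => gJ h v (j + 1) (j + 2) (fun u => dg t u.1) 32 (pw Lam (c0 + A))⁻¹ t (t + 1) t (-1)) ≤
      ∑ _j : Fin 3, (pw Lam 20)⁻¹ := Finset.sum_le_sum fun j _ => (bJ j).trans hE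
  have s2 := bV.trans hE
  rw [Finset.sum_const, Finset.card_univ, Fintype.card_fin, nsmul_eq_mul] at s1
  push_cast at s1
  have e20 : 18496 * (4 * (pw Lam 20)⁻¹) ≤ (pw Lam 11)⁻¹ := by
    rw [ipz, ipz]
    have := Fn.mul2 hx (Fn.zpos hx (-((20 : ℕ) : ℤ))).le (Fn.cst hx 9 (c := 18496 * 4) (by norm_num))
      (le_refl ((2 * Lam) ^ (-((20 : ℕ) : ℤ))))
    refine le_trans (le_of_eq (by ring)) (this.trans (Fn.zle hx (by norm_num)))
  have e12 : 4 * (pw Lam 12)⁻¹ ≤ (pw Lam 11)⁻¹ := by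
    rw [ipz, ipz]
    have := Fn.mul2 hx (Fn.zpos hx (-((12 : ℕ) : ℤ))).le (Fn.cst hx 1 (c := 4) (by norm_num))
      (le_refl ((2 * Lam) ^ (-((12 : ℕ) : ℤ))))
    exact this.trans (Fn.zle hx (by norm_num))
  have e11 : (pw Lam 11)⁻¹ + (pw Lam 11)⁻¹ ≤ (pw Lam 10)⁻¹ := by
    rw [ipz, ipz]
    exact (Fn.add2 hx (le_refl _) (le_refl _)).trans (Fn.zle hx (by norm_num))
  have e10 := (hinv (show 1 ≤ 10 by norm_num)).trans hLe
  linarith

/-- **HARM(3)** from the thin dynamics and the top level -/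
theorem harm3_of (hV : ThinDyn 32) (hT : TopLev) : HarmW (Fin 3) := harmW_of_restA (rest3A_of hV hT)

end Pool.Agent.GMH.V3
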