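import Pool.Agent.GMH.VTot
import Pool.Agent.GMH.DeadB

/-!
# GMH/Fin3N: the numbers of HARM(3), helper91

`x = 2 Lam`, `n = x^c0`, `N1 = x^(A^2 (c0 + 1))`, alive set `X0 = x^(3 c0 + 3 A)`, `e0 = x^(-c0 - A)`, `dl = N1^(-4)`; for
`A ≥ 80` the error of the thin level and the probability of the dead points are at most `x^(-A + 20)`.
-/

set_option autoImplicit false
set_option linter.unusedSectionVars false

namespace Pool.Agent.GMH.V3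

open Finset Pool.Agent.PWZ Pool.Agent.M3 Pool.Agent.GM Pool.Agent.GM.Harm Pool.Agent.GMH Pool.Agent.GMH.NZ

def ceF (A c0 : ℕ) : ℕ := c0 + A

def cXF (A c0 : ℕ) : ℕ := 3 * c0 + 3 * A

def c1F (A c0 : ℕ) : ℕ := A * A * (c0 + 1)

/-- the alive parameters of the assembly -/
noncomputable def apF (Lam : ℝ) (A c0 : ℕ) : AP := apn Lam (cXF A c0) (ceF A c0) (4 * c1F A c0)

namespace Fn

variable {x : ℝ}

theorem pos (hx : 4 ≤ x) : 0 < x := by linarith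

theorem zle (hx : 4 ≤ x) {a b : ℤ} (hab : a ≤ b) : x ^ a ≤ x ^ b := zpow_le_zpow_right₀ (by linarith) hab

theorem zpos (hx : 4 ≤ x) (a : ℤ) : 0 < x ^ a := zpow_pos (pos hx) a

/-- product of bounds -/
theorem mul2 (hx : 4 ≤ x) {u v : ℝ} {a b : ℤ} (hv0 : 0 ≤ v) (hu : u ≤ x ^ a) (hv : v ≤ x ^ b) : u * v ≤ x ^ (a + b) := by
  rw [zpow_add₀ (pos hx).ne']
  exact mul_le_mul hu hv hv0 (zpos hx a).le

/-- sum of bounds -/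
theorem add2 (hx : 4 ≤ x) {u v : ℝ} {a : ℤ} (hu : u ≤ x ^ a) (hv : v ≤ x ^ a) : u + v ≤ x ^ (a + 1) := by
  rw [zpow_add₀ (pos hx).ne', zpow_one]
  have := zpos hx a
  nlinarith

theorem cst (hx : 4 ≤ x) (k : ℕ) {c : ℝ} (hc : c ≤ 4 ^ k) : c ≤ x ^ (k : ℤ) := by
  rw [zpow_natCast]
  exact hc.trans (pow_le_pow_left₀ (by norm_num) hx k)

theorem one (hx : 4 ≤ x) : (1 : ℝ) ≤ x ^ (0 : ℤ) := by rw [zpow_zero]

/-- a natural number is at most the power -/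
theorem nat (hx : 4 ≤ x) (k : ℕ) : (k : ℝ) ≤ x ^ ((k : ℤ) / 2 + 1) := by
  obtain ⟨m, hm⟩ : ∃ m : ℕ, k = 2 * m ∨ k = 2 * m + 1 := ⟨k / 2, by omega⟩
  have h1 : (k : ℤ) / 2 = (m : ℤ) := by omega
  rw [h1]
  have h2 : (k : ℝ) ≤ 4 ^ (m + 1) := by
    have h3 : k < 2 ^ k := Nat.lt_two_pow_self
    have h4 : (2 : ℕ) ^ k ≤ 4 ^ (m + 1) := by
      rw [show (4 : ℕ) = 2 ^ 2 by norm_num, ← pow_mul]
      exact Nat.pow_le_pow_right (by norm_num) (by omega)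
    exact_mod_cast (h3.le.trans h4)
  have := cst hx (m + 1) h2
  push_cast at this
  exact this

/-- exponentials -/
theorem expneg (hx : 4 ≤ x) (k : ℕ) {y : ℝ} (hy : (k : ℝ) * x ≤ y) : Real.exp (-y) ≤ x ^ (-(k : ℤ)) := by
  have h1 : x ≤ Real.exp x := by
    have := Real.add_one_le_exp x
    linarith
  have h2 : x ^ k ≤ Real.exp y := by
    have h3 : x ^ k ≤ Real.exp x ^ k := pow_le_pow_left₀ (pos hx).le h1 k
    rw [← Real.exp_nat_mul] at h3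
    exact h3.trans (Real.exp_le_exp.2 hy)
  rw [zpow_neg, zpow_natCast, Real.exp_neg]
  exact inv_anti₀ (pow_pos (pos hx) k) h2

theorem inv (hx : 4 ≤ x) (k : ℕ) : (x ^ k)⁻¹ = x ^ (-(k : ℤ)) := by rw [zpow_neg, zpow_natCast]

theorem sqrt_le (hx : 4 ≤ x) {u : ℝ} {a : ℤ} (hu : u ≤ x ^ (2 * a)) : Real.sqrt u ≤ x ^ a := by
  refine (Real.sqrt_le_sqrt hu).trans (le_of_eq ?_)
  rw [two_mul, zpow_add₀ (pos hx).ne', Real.sqrt_mul_self (zpos hx a).le]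

end Fn

section num

variable {Lam : ℝ} (hL : 2 ≤ Lam) {A c0 : ℕ} (hA : 80 ≤ A)

include hA in
theorem c1_big : 80 * c0 + 80 * A ≤ c1F A c0 := by
  unfold c1F
  nlinarith [Nat.mul_le_mul hA hA, Nat.zero_le c0, Nat.mul_le_mul (Nat.mul_le_mul hA hA) (le_refl c0)]

/-- the numbers of the thin level -/
theorem numV (hL : 2 ≤ Lam) (hA : 80 ≤ A) : NumV (pw Lam c0) (pw Lam (c1F A c0)) (2 * ((c0 + A : ℕ) * (2 * Lam))) 32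
    (pw Lam (c0 + A))⁻¹ (pw Lam (2 * (c0 + A)))⁻¹ (pw Lam (cXF A c0) + (4 * c1F A c0 : ℕ) * (2 * Lam)) (apF Lam A c0) := by
  have hx : (4 : ℝ) ≤ 2 * Lam := by linarith
  have hx0 : (0 : ℝ) < 2 * Lam := by linarith
  have h1 := c1_big (c0 := c0) hA
  have hc0A : (80 : ℝ) ≤ ((c0 + A : ℕ) : ℝ) := by exact_mod_cast (hA.trans (Nat.le_add_left A c0))
  have p1 : ∀ c, (1 : ℝ) ≤ pw Lam c := fun c => pw_one hL c
  have pz : ∀ c : ℕ, pw Lam c = (2 * Lam) ^ (c : ℤ) := fun c => by unfold pw; rw [zpow_natCast]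
  have ipz : ∀ c : ℕ, (pw Lam c)⁻¹ = (2 * Lam) ^ (-(c : ℤ)) := fun c => by rw [pz, zpow_neg]
  have i1 : ∀ c, (pw Lam c)⁻¹ ≤ 1 := fun c => inv_le_one_of_one_le₀ (p1 c)
  have i0 : ∀ c, 0 < (pw Lam c)⁻¹ := fun c => inv_pos.2 (zero_lt_one.trans_le (p1 c))
  have hXe : (apF Lam A c0).X0 = pw Lam (cXF A c0) := rfl
  have hee : (apF Lam A c0).e0 = (pw Lam (ceF A c0))⁻¹ := rfl
  have hde : (apF Lam A c0).dl = (pw Lam (4 * c1F A c0))⁻¹ := rfl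
  have mono : ∀ {a b : ℕ}, a ≤ b → pw Lam a ≤ pw Lam b := fun {a b} hab => by
    unfold pw; exact pow_le_pow_right₀ (by linarith) hab
  have hcX : cXF A c0 ≤ c1F A c0 := by unfold cXF; omega
  have k4 : (0 : ℝ) ≤ ((4 * c1F A c0 : ℕ) : ℝ) * (2 * Lam) := by positivity
  refine ⟨p1 _, p1 _, ?_, ?_, ?_, ?_, ?_, ?_, ?_, ?_, (i0 _).le, i1 _, (i0 _).le, i1 _, ?_, ?_, ?_, ?_, ?_⟩
  · rw [hXe]; exact p1 _
  · rw [hXe]; exact mono hcX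
  · rw [hee]; exact (i0 _).le
  · rw [hde]; exact i0 _
  · rw [hde, ipz]
    refine (Fn.zle hx (show (-((4 * c1F A c0 : ℕ) : ℤ)) ≤ -3 by push_cast; omega)).trans ?_
    have h3 : (2 * Lam) ^ (-3 : ℤ) = ((2 * Lam) ^ 3)⁻¹ := by
      rw [zpow_neg]; rfl
    rw [h3]
    have h4 : (4 : ℝ) ^ 3 ≤ (2 * Lam) ^ 3 := pow_le_pow_left₀ (by norm_num) hx 3
    have h5 : ((2 * Lam) ^ 3)⁻¹ ≤ ((4 : ℝ) ^ 3)⁻¹ := inv_anti₀ (by norm_num) h4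
    refine h5.trans ?_
    norm_num
  · nlinarith
  · -- `K0 ≤ N1`
    have q1 := Fn.nat hx (c0 + A)
    have q2 : (2 : ℝ) * (((c0 + A : ℕ) : ℝ) * (2 * Lam)) ≤ (2 * Lam) ^ ((1 : ℤ) + ((((c0 + A : ℕ) : ℤ) / 2 + 1) + 1)) := by
      refine Fn.mul2 hx (by positivity) (by simpa using Fn.cst hx 1 (c := 2) (by norm_num)) ?_
      exact Fn.mul2 hx hx0.le q1 (by rw [zpow_one])
    refine q2.trans ?_
    rw [pz]
    refine Fn.zle hx ?_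
    push_cast
    omega
  · -- `exp 2 ≤ 32`
    have h3 : Real.exp 2 = Real.exp 1 * Real.exp 1 := by rw [← Real.exp_add]; norm_num
    have h4 := Real.exp_one_lt_d9
    have h5 := Real.exp_pos 1
    rw [h3]
    nlinarith
  · have := p1 (cXF A c0)
    linarith
  · rw [hXe]; linarith
  · rw [hde, ipz]
    refine Fn.expneg hx (4 * c1F A c0) ?_
    have := p1 (cXF A c0)
    linarith
  · -- `256 L ≤ N1 tau^2`
    have e1 : pw Lam (c1F A c0) * (pw Lam (2 * (c0 + A)))⁻¹ ^ 2 = (2 * Lam) ^ ((c1F A c0 : ℤ) - 4 * (c0 + A : ℕ)) := by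
      rw [ipz, pz, ← zpow_natCast, ← zpow_mul, ← zpow_add₀ hx0.ne']
      congr 1
      push_cast
      ring
    rw [e1]
    have q1 : pw Lam (cXF A c0) ≤ (2 * Lam) ^ ((c1F A c0 : ℤ) - 4 * (c0 + A : ℕ) - 5) := by
      rw [pz]
      refine Fn.zle hx ?_
      unfold cXF
      push_cast
      omega
    have q2 : ((4 * c1F A c0 : ℕ) : ℝ) * (2 * Lam) ≤ (2 * Lam) ^ ((c1F A c0 : ℤ) - 4 * (c0 + A : ℕ) - 5) := by
      have q3 := Fn.nat hx (c1F A c0)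
      have q4 : (4 : ℝ) * ((c1F A c0 : ℝ) * (2 * Lam)) ≤ (2 * Lam) ^ ((1 : ℤ) + (((c1F A c0 : ℤ) / 2 + 1) + 1)) := by
        refine Fn.mul2 hx (by positivity) (by simpa using Fn.cst hx 1 (c := 4) (by norm_num)) ?_
        exact Fn.mul2 hx hx0.le q3 (by rw [zpow_one])
      push_cast
      rw [mul_assoc]
      refine q4.trans (Fn.zle hx ?_)
      omega
    have q5 := Fn.add2 hx q1 q2
    have q6 := Fn.mul2 hx (u := 256) (add_nonneg (zero_le_one.trans (p1 _)) k4) (Fn.cst hx 4 (c := 256) (by norm_num)) q5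
    refine q6.trans (Fn.zle hx ?_)
    push_cast
    omega
  · rw [ipz]
    refine (Fn.expneg hx (4 * c1F A c0) ?_).trans (Fn.zle hx ?_)
    · have := p1 (cXF A c0)
      linarith
    · push_cast
      omega

/-- **the error of the thin level** -/
theorem errV_small (hL : 2 ≤ Lam) (hA : 80 ≤ A) {Pd PR : ℝ} (hPd0 : 0 ≤ Pd)
    (hPd : Pd ≤ (pw Lam (c0 + A))⁻¹) (hPR : PR ≤ (pw Lam (cXF A c0 + A))⁻¹) :
    errV (pw Lam c0) (pw Lam (c1F A c0)) Lam (2 * ((c0 + A : ℕ) * (2 * Lam))) 32 (pw Lam (c0 + A))⁻¹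
      (pw Lam (2 * (c0 + A)))⁻¹ (apF Lam A c0) Pd PR ≤ (pw Lam 20)⁻¹ := by
  have hx : (4 : ℝ) ≤ 2 * Lam := by linarith
  have hx0 : (0 : ℝ) < 2 * Lam := by linarith
  have hL0 : (0 : ℝ) < Lam := by linarith
  have h1 := c1_big (c0 := c0) hA
  have pz : ∀ c : ℕ, pw Lam c = (2 * Lam) ^ (c : ℤ) := fun c => by unfold pw; rw [zpow_natCast]
  have ipz : ∀ c : ℕ, (pw Lam c)⁻¹ = (2 * Lam) ^ (-(c : ℤ)) := fun c => by rw [pz, zpow_neg]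
  have hXe : (apF Lam A c0).X0 = (2 * Lam) ^ ((cXF A c0 : ℕ) : ℤ) := pz _
  have hee : (apF Lam A c0).e0 = (2 * Lam) ^ (-((ceF A c0 : ℕ) : ℤ)) := ipz _
  have hde : (apF Lam A c0).dl = (2 * Lam) ^ (-((4 * c1F A c0 : ℕ) : ℤ)) := ipz _
  have hLx : Lam ≤ (2 * Lam) ^ (1 : ℤ) := by rw [zpow_one]; linarith
  rw [ipz] at hPd hPR
  rw [ipz]
  unfold errV
  rw [hXe, hee, hde, ipz, ipz, pz, pz]
  have P : ∀ a : ℤ, 0 < (2 * Lam) ^ a := fun a => Fn.zpos hx a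
  -- the terms
  have e1 : 18 * (2 * Lam) ^ (c0 : ℤ) * Lam / (2 * Lam) ^ ((c1F A c0 : ℕ) : ℤ) ≤ (2 * Lam) ^ (2 * (-25 : ℤ)) := by
    have q1 : 18 * (2 * Lam) ^ (c0 : ℤ) * Lam ≤ (2 * Lam) ^ (((3 : ℤ) + c0) + 1) :=
      Fn.mul2 hx hL0.le (Fn.mul2 hx (P _).le (by simpa using Fn.cst hx 3 (c := 18) (by norm_num)) le_rfl) hLx
    rw [div_eq_mul_inv, ← zpow_neg]
    refine (Fn.mul2 hx (P _).le q1 (le_refl ((2 * Lam) ^ (-((c1F A c0 : ℕ) : ℤ))))).trans (Fn.zle hx ?_)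
    omega
  have e2 : 4 * Real.sqrt (18 * (2 * Lam) ^ (c0 : ℤ) * Lam / (2 * Lam) ^ ((c1F A c0 : ℕ) : ℤ)) ≤
      (2 * Lam) ^ ((1 : ℤ) + (-25)) :=
    Fn.mul2 hx (Real.sqrt_nonneg _) (by simpa using Fn.cst hx 1 (c := 4) (by norm_num)) (Fn.sqrt_le hx e1)
  have e3 : (400 * ((2 * (((c0 + A : ℕ) : ℝ) * (2 * Lam))) + 1) + 192) * Pd ≤ (2 * Lam) ^ (-22 : ℤ) := by
    have q1 := Fn.nat hx (c0 + A)
    have q2 : (2 : ℝ) * (((c0 + A : ℕ) : ℝ) * (2 * Lam)) ≤ (2 * Lam) ^ ((1 : ℤ) + ((((c0 + A : ℕ) : ℤ) / 2 + 1) + 1)) := by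
      refine Fn.mul2 hx (by positivity) (by simpa using Fn.cst hx 1 (c := 2) (by norm_num)) ?_
      exact Fn.mul2 hx hx0.le q1 (by rw [zpow_one])
    have q3 : (1 : ℝ) ≤ (2 * Lam) ^ ((1 : ℤ) + ((((c0 + A : ℕ) : ℤ) / 2 + 1) + 1)) :=
      (Fn.one hx).trans (Fn.zle hx (by positivity))
    have q4 := Fn.add2 hx q2 q3
    have q5 := Fn.mul2 hx (u := 400) (by positivity) (Fn.cst hx 5 (c := 400) (by norm_num)) q4
    have q6 : (192 : ℝ) ≤ (2 * Lam) ^ (((5 : ℕ) : ℤ) + ((1 : ℤ) + ((((c0 + A : ℕ) : ℤ) / 2 + 1) + 1) + 1)) :=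
      (by simpa using Fn.cst hx 4 (c := 192) (by norm_num) : (192 : ℝ) ≤ (2 * Lam) ^ (4 : ℤ)).trans
        (Fn.zle hx (by omega))
    refine (Fn.mul2 hx hPd0 (Fn.add2 hx q5 q6) hPd).trans (Fn.zle hx ?_)
    push_cast
    omega
  have e4 : (1000 * 32 ^ 3 * (Real.sqrt ((2 * Lam) ^ (-((2 * (c0 + A) : ℕ) : ℤ))) + (2 * Lam) ^ (-((c0 + A : ℕ) : ℤ))) +
      4 * (2 * Lam) ^ (-((ceF A c0 : ℕ) : ℤ)) + 100 * Real.exp (-(2 * (((c0 + A : ℕ) : ℝ) * (2 * Lam)) / 2)) +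
        200 / (2 * Lam) ^ ((c1F A c0 : ℕ) : ℤ)) * (9 * (2 * Lam) ^ (c0 : ℤ) * Lam) ≤ (2 * Lam) ^ (-22 : ℤ) := by
    have a1 : Real.sqrt ((2 * Lam) ^ (-((2 * (c0 + A) : ℕ) : ℤ))) ≤ (2 * Lam) ^ (-((c0 + A : ℕ) : ℤ)) := by
      refine Fn.sqrt_le hx (le_of_eq ?_)
      congr 1
      push_cast
      ring
    have a2 := Fn.mul2 hx (u := 1000 * 32 ^ 3) (by positivity)
      (Fn.cst hx 13 (c := 1000 * 32 ^ 3) (by norm_num)) (Fn.add2 hx a1 le_rfl)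
    have a3 : 4 * (2 * Lam) ^ (-((ceF A c0 : ℕ) : ℤ)) ≤ (2 * Lam) ^ (((13 : ℕ) : ℤ) + (-((c0 + A : ℕ) : ℤ) + 1)) := by
      refine (Fn.mul2 hx (P _).le (Fn.cst hx 1 (c := 4) (by norm_num))
        (le_refl ((2 * Lam) ^ (-((ceF A c0 : ℕ) : ℤ))))).trans (Fn.zle hx ?_)
      unfold ceF
      push_cast
      omega
    have a4 : 100 * Real.exp (-(2 * (((c0 + A : ℕ) : ℝ) * (2 * Lam)) / 2)) ≤
        (2 * Lam) ^ (((13 : ℕ) : ℤ) + (-((c0 + A : ℕ) : ℤ) + 1) + 1) := by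
      have b1 := Fn.expneg hx (c0 + A) (y := 2 * (((c0 + A : ℕ) : ℝ) * (2 * Lam)) / 2) (by linarith)
      refine (Fn.mul2 hx (Real.exp_pos _).le (Fn.cst hx 4 (c := 100) (by norm_num)) b1).trans
        (Fn.zle hx ?_)
      omega
    have a5 : 200 / (2 * Lam) ^ ((c1F A c0 : ℕ) : ℤ) ≤ (2 * Lam) ^ (((13 : ℕ) : ℤ) + (-((c0 + A : ℕ) : ℤ) + 1) + 1 + 1) := by
      rw [div_eq_mul_inv, ← zpow_neg]
      refine (Fn.mul2 hx (P _).le (Fn.cst hx 4 (c := 200) (by norm_num))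
        (le_refl ((2 * Lam) ^ (-((c1F A c0 : ℕ) : ℤ))))).trans (Fn.zle hx ?_)
      push_cast
      omega
    have a6 := Fn.add2 hx (Fn.add2 hx (Fn.add2 hx a2 a3) a4) a5
    have a7 : 9 * (2 * Lam) ^ (c0 : ℤ) * Lam ≤ (2 * Lam) ^ (((2 : ℤ) + c0) + 1) :=
      Fn.mul2 hx hL0.le (Fn.mul2 hx (P _).le (by simpa using Fn.cst hx 2 (c := 9) (by norm_num)) le_rfl) hLx
    refine (Fn.mul2 hx (by positivity) a6 a7).trans (Fn.zle hx ?_)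
    push_cast
    omega
  have e5 : 800 * Real.sqrt ((2 * Lam) ^ (-((4 * c1F A c0 : ℕ) : ℤ))) *
      ((2 * Lam) ^ (c0 : ℤ) * (2 * Lam) ^ ((c1F A c0 : ℕ) : ℤ) * Lam) ≤ (2 * Lam) ^ (-22 : ℤ) := by
    have a1 : Real.sqrt ((2 * Lam) ^ (-((4 * c1F A c0 : ℕ) : ℤ))) ≤ (2 * Lam) ^ (-2 * ((c1F A c0 : ℕ) : ℤ)) := by
      refine Fn.sqrt_le hx (le_of_eq ?_)
      congr 1
      push_cast
      ring
    have a2 := Fn.mul2 hx (u := 800) (Real.sqrt_nonneg _) (Fn.cst hx 5 (c := 800) (by norm_num)) a1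
    have a3 : (2 * Lam) ^ (c0 : ℤ) * (2 * Lam) ^ ((c1F A c0 : ℕ) : ℤ) * Lam ≤
        (2 * Lam) ^ (((c0 : ℤ) + ((c1F A c0 : ℕ) : ℤ)) + 1) :=
      Fn.mul2 hx hL0.le (Fn.mul2 hx (P _).le le_rfl le_rfl) hLx
    refine (Fn.mul2 hx (by positivity) a2 a3).trans (Fn.zle hx ?_)
    omega
  have e6 : 2 * (2 * Lam) ^ ((cXF A c0 : ℕ) : ℤ) * PR ≤ (2 * Lam) ^ (-22 : ℤ) := by
    have a1 : 2 * (2 * Lam) ^ ((cXF A c0 : ℕ) : ℤ) ≤ (2 * Lam) ^ ((1 : ℤ) + ((cXF A c0 : ℕ) : ℤ)) :=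
      Fn.mul2 hx (P _).le (by simpa using Fn.cst hx 1 (c := 2) (by norm_num)) le_rfl
    have a2 : 2 * (2 * Lam) ^ ((cXF A c0 : ℕ) : ℤ) * PR ≤
        2 * (2 * Lam) ^ ((cXF A c0 : ℕ) : ℤ) * (2 * Lam) ^ (-((cXF A c0 + A : ℕ) : ℤ)) :=
      mul_le_mul_of_nonneg_left hPR (by positivity)
    refine a2.trans ((Fn.mul2 hx (P _).le a1 le_rfl).trans (Fn.zle hx ?_))
    push_cast
    omega
  -- the sum
  have s1 : (2 * Lam) ^ (2 * (-25 : ℤ)) ≤ (2 * Lam) ^ (-24 : ℤ) := Fn.zle hx (by norm_num)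
  have s2 : (2 * Lam) ^ ((1 : ℤ) + (-25)) = (2 * Lam) ^ (-24 : ℤ) := by norm_num
  rw [s2] at e2
  have g1 : (2 * Lam) ^ (-24 : ℤ) ≤ (2 * Lam) ^ (-22 : ℤ) := Fn.zle hx (by norm_num)
  have g2 : (16 : ℝ) * (2 * Lam) ^ (-22 : ℤ) ≤ (2 * Lam) ^ (-((20 : ℕ) : ℤ)) := by
    refine (Fn.mul2 hx (P _).le (Fn.cst hx 2 (c := 16) (by norm_num)) (le_refl _)).trans (le_of_eq ?_)
    norm_num
  have g3 := P (-22)
  refine le_trans ?_ g2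
  have t1 := e1.trans (s1.trans g1)
  have t2 := e2.trans g1
  have t3 := add_le_add (add_le_add (add_le_add (add_le_add (add_le_add t1 t2) e3) e4) e5) e6
  refine t3.trans ?_
  linarith

/-- the number of `dead_all` -/
theorem dead_num (hL : 2 ≤ Lam) (hA : 80 ≤ A) {b0 b1 : ℝ} (h1n : 0 ≤ b1) (hb0 : b0 ≤ 4 * (pw Lam c0 * pw Lam (c1F A c0) * Lam))
    (hb1 : b1 ≤ 4 * (pw Lam c0 * Lam)) :
    (6 / (apF Lam A c0).e0 + 3) * (2 * b1 / (apF Lam A c0).X0 + Real.exp (-((apF Lam A c0).X0 / 2))) +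
      6 * (4 * b1 / (apF Lam A c0).X1 + Real.exp (-((apF Lam A c0).X1 / 2))) +
      1000 * (apF Lam A c0).dl * (b0 + b1) ≤ (pw Lam (c0 + A))⁻¹ := by
  have hx : (4 : ℝ) ≤ 2 * Lam := by linarith
  have hx0 : (0 : ℝ) < 2 * Lam := by linarith
  have hL0 : (0 : ℝ) < Lam := by linarith
  have h1 := c1_big (c0 := c0) hA
  have pz : ∀ c : ℕ, pw Lam c = (2 * Lam) ^ (c : ℤ) := fun c => by unfold pw; rw [zpow_natCast]
  have ipz : ∀ c : ℕ, (pw Lam c)⁻¹ = (2 * Lam) ^ (-(c : ℤ)) := fun c => by rw [pz, zpow_neg]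
  have hXe : (apF Lam A c0).X0 = (2 * Lam) ^ ((cXF A c0 : ℕ) : ℤ) := pz _
  have hX1 : (apF Lam A c0).X1 = 3 * (2 * Lam) ^ ((cXF A c0 : ℕ) : ℤ) := by
    show 3 * pw Lam (cXF A c0) = _
    rw [pz]
  have hee : (apF Lam A c0).e0 = (2 * Lam) ^ (-((ceF A c0 : ℕ) : ℤ)) := ipz _
  have hde : (apF Lam A c0).dl = (2 * Lam) ^ (-((4 * c1F A c0 : ℕ) : ℤ)) := ipz _
  have hLx : Lam ≤ (2 * Lam) ^ (1 : ℤ) := by rw [zpow_one]; linarith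
  have P : ∀ a : ℤ, 0 < (2 * Lam) ^ a := fun a => Fn.zpos hx a
  rw [pz, pz] at hb0
  rw [pz] at hb1
  rw [hXe, hX1, hee, hde, ipz]
  have B1 : b1 ≤ (2 * Lam) ^ (((1 : ℕ) : ℤ) + ((c0 : ℤ) + 1)) :=
    hb1.trans (Fn.mul2 hx (by positivity) (Fn.cst hx 1 (c := 4) (by norm_num)) (Fn.mul2 hx hL0.le le_rfl hLx))
  have B0 : b0 ≤ (2 * Lam) ^ (((1 : ℕ) : ℤ) + ((c0 : ℤ) + ((c1F A c0 : ℕ) : ℤ) + 1)) :=
    hb0.trans (Fn.mul2 hx (by positivity) (Fn.cst hx 1 (c := 4) (by norm_num))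
      (Fn.mul2 hx hL0.le (Fn.mul2 hx (P _).le le_rfl le_rfl) hLx))
  -- the exponential
  have ex : Real.exp (-((2 * Lam) ^ ((cXF A c0 : ℕ) : ℤ) / 2)) ≤ (2 * Lam) ^ (-((2 * c0 + 3 * A : ℕ) : ℤ)) := by
    refine Fn.expneg hx (2 * c0 + 3 * A) ?_
    have q1 := Fn.nat hx (2 * c0 + 3 * A)
    have q2 : (2 : ℝ) * (((2 * c0 + 3 * A : ℕ) : ℝ) * (2 * Lam)) ≤
        (2 * Lam) ^ (((1 : ℕ) : ℤ) + ((((2 * c0 + 3 * A : ℕ) : ℤ) / 2 + 1) + 1)) := by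
      refine Fn.mul2 hx (by positivity) (Fn.cst hx 1 (c := 2) (by norm_num)) ?_
      exact Fn.mul2 hx hx0.le q1 (by rw [zpow_one])
    have q3 : (2 * Lam) ^ (((1 : ℕ) : ℤ) + ((((2 * c0 + 3 * A : ℕ) : ℤ) / 2 + 1) + 1)) ≤
        (2 * Lam) ^ ((cXF A c0 : ℕ) : ℤ) := by
      refine Fn.zle hx ?_
      unfold cXF
      push_cast
      omega
    linarith
  have ex1 : Real.exp (-(3 * (2 * Lam) ^ ((cXF A c0 : ℕ) : ℤ) / 2)) ≤ (2 * Lam) ^ (-((2 * c0 + 3 * A : ℕ) : ℤ)) := by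
    refine le_trans (Real.exp_le_exp.2 ?_) ex
    have := P ((cXF A c0 : ℕ) : ℤ)
    linarith
  have dv : ∀ {u : ℝ} {a : ℤ}, u ≤ (2 * Lam) ^ a → u / (2 * Lam) ^ ((cXF A c0 : ℕ) : ℤ) ≤
      (2 * Lam) ^ (a + -((cXF A c0 : ℕ) : ℤ)) := fun {u a} hu => by
    rw [div_eq_mul_inv, ← zpow_neg]
    exact Fn.mul2 hx (P _).le hu le_rfl
  -- first term
  have t1 : 2 * b1 / (2 * Lam) ^ ((cXF A c0 : ℕ) : ℤ) + Real.exp (-((2 * Lam) ^ ((cXF A c0 : ℕ) : ℤ) / 2)) ≤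
      (2 * Lam) ^ (-((2 * c0 + 3 * A : ℕ) : ℤ) + 4) := by
    have a1 := dv (Fn.mul2 hx h1n (Fn.cst hx 1 (c := 2) (by norm_num)) B1)
    have a2 : 2 * b1 / (2 * Lam) ^ ((cXF A c0 : ℕ) : ℤ) ≤ (2 * Lam) ^ (-((2 * c0 + 3 * A : ℕ) : ℤ) + 3) :=
      a1.trans (Fn.zle hx (by unfold cXF; push_cast; omega))
    have a3 := ex.trans (Fn.zle hx (show -((2 * c0 + 3 * A : ℕ) : ℤ) ≤ -((2 * c0 + 3 * A : ℕ) : ℤ) + 3 by omega))
    exact (Fn.add2 hx a2 a3).trans (Fn.zle hx (by omega))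
  have t2 : 4 * b1 / (3 * (2 * Lam) ^ ((cXF A c0 : ℕ) : ℤ)) + Real.exp (-(3 * (2 * Lam) ^ ((cXF A c0 : ℕ) : ℤ) / 2)) ≤
      (2 * Lam) ^ (-((2 * c0 + 3 * A : ℕ) : ℤ) + 4) := by
    have a1 : 4 * b1 / (3 * (2 * Lam) ^ ((cXF A c0 : ℕ) : ℤ)) ≤ 2 * b1 / (2 * Lam) ^ ((cXF A c0 : ℕ) : ℤ) := by
      rw [div_le_div_iff₀ (by have := P ((cXF A c0 : ℕ) : ℤ); linarith) (P _)]
      have := P ((cXF A c0 : ℕ) : ℤ)
      nlinarith [mul_nonneg h1n this.le]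
    have a2 := dv (Fn.mul2 hx h1n (Fn.cst hx 1 (c := 2) (by norm_num)) B1)
    have a3 : 2 * b1 / (2 * Lam) ^ ((cXF A c0 : ℕ) : ℤ) ≤ (2 * Lam) ^ (-((2 * c0 + 3 * A : ℕ) : ℤ) + 3) :=
      a2.trans (Fn.zle hx (by unfold cXF; push_cast; omega))
    have a4 := ex1.trans (Fn.zle hx (show -((2 * c0 + 3 * A : ℕ) : ℤ) ≤ -((2 * c0 + 3 * A : ℕ) : ℤ) + 3 by omega))
    exact (Fn.add2 hx (a1.trans a3) a4).trans (Fn.zle hx (by omega))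
  have t3 : 6 / (2 * Lam) ^ (-((ceF A c0 : ℕ) : ℤ)) + 3 ≤ (2 * Lam) ^ (((2 : ℕ) : ℤ) + ((ceF A c0 : ℕ) : ℤ)) := by
    have e : 6 / (2 * Lam) ^ (-((ceF A c0 : ℕ) : ℤ)) = 6 * (2 * Lam) ^ ((ceF A c0 : ℕ) : ℤ) := by
      rw [zpow_neg, div_inv_eq_mul]
    rw [e]
    have o : (1 : ℝ) ≤ (2 * Lam) ^ ((ceF A c0 : ℕ) : ℤ) := (Fn.one hx).trans (Fn.zle hx (by positivity))
    have := Fn.mul2 hx (P ((ceF A c0 : ℕ) : ℤ)).le (Fn.cst hx 2 (c := 9) (by norm_num)) (le_refl ((2 * Lam) ^ ((ceF A c0 : ℕ) : ℤ)))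
    linarith
  have t10 : 0 ≤ 2 * b1 / (2 * Lam) ^ ((cXF A c0 : ℕ) : ℤ) + Real.exp (-((2 * Lam) ^ ((cXF A c0 : ℕ) : ℤ) / 2)) :=
    add_nonneg (div_nonneg (by linarith) (P _).le) (Real.exp_pos _).le
  have t20 : 0 ≤ 4 * b1 / (3 * (2 * Lam) ^ ((cXF A c0 : ℕ) : ℤ)) +
      Real.exp (-(3 * (2 * Lam) ^ ((cXF A c0 : ℕ) : ℤ) / 2)) :=
    add_nonneg (div_nonneg (by linarith) (by have := P ((cXF A c0 : ℕ) : ℤ); linarith)) (Real.exp_pos _).le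
  have s1 := (Fn.mul2 hx t10 t3 t1).trans (Fn.zle hx (show ((2 : ℕ) : ℤ) + ((ceF A c0 : ℕ) : ℤ) +
    (-((2 * c0 + 3 * A : ℕ) : ℤ) + 4) ≤ -((c0 + A : ℕ) : ℤ) - 2 by unfold ceF; push_cast; omega))
  have s2 := (Fn.mul2 hx t20 (Fn.cst hx 2 (c := 6) (by norm_num)) t2).trans (Fn.zle hx (show ((2 : ℕ) : ℤ) +
    (-((2 * c0 + 3 * A : ℕ) : ℤ) + 4) ≤ -((c0 + A : ℕ) : ℤ) - 2 by push_cast; omega))
  have s3 : 1000 * (2 * Lam) ^ (-((4 * c1F A c0 : ℕ) : ℤ)) * (b0 + b1) ≤ (2 * Lam) ^ (-((c0 + A : ℕ) : ℤ) - 2) := by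
    have a1 := Fn.mul2 hx (P _).le (Fn.cst hx 5 (c := 1000) (by norm_num))
      (le_refl ((2 * Lam) ^ (-((4 * c1F A c0 : ℕ) : ℤ))))
    have a2 : b0 + b1 ≤ (2 * Lam) ^ (((1 : ℕ) : ℤ) + ((c0 : ℤ) + ((c1F A c0 : ℕ) : ℤ) + 1) + 1) :=
      Fn.add2 hx B0 (B1.trans (Fn.zle hx (by push_cast; omega)))
    have a3 : 1000 * (2 * Lam) ^ (-((4 * c1F A c0 : ℕ) : ℤ)) * (b0 + b1) ≤
        1000 * (2 * Lam) ^ (-((4 * c1F A c0 : ℕ) : ℤ)) *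
          (2 * Lam) ^ (((1 : ℕ) : ℤ) + ((c0 : ℤ) + ((c1F A c0 : ℕ) : ℤ) + 1) + 1) :=
      mul_le_mul_of_nonneg_left a2 (by have := P (-((4 * c1F A c0 : ℕ) : ℤ)); linarith)
    refine a3.trans ((Fn.mul2 hx (P _).le a1 le_rfl).trans (Fn.zle hx ?_))
    push_cast
    omega
  refine (add_le_add (add_le_add s1 s2) s3).trans ?_
  have g := P (-((c0 + A : ℕ) : ℤ) - 2)
  have e : (2 * Lam) ^ (-((c0 + A : ℕ) : ℤ)) = (2 * Lam) ^ (-((c0 + A : ℕ) : ℤ) - 2) * (2 * Lam) ^ (2 : ℤ) := by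
    rw [← zpow_add₀ hx0.ne']
    congr 1
    ring
  rw [e]
  have h16 : (16 : ℝ) ≤ (2 * Lam) ^ (2 : ℤ) := by
    have := pow_le_pow_left₀ (by norm_num : (0 : ℝ) ≤ 4) hx 2
    have e2 : (2 * Lam) ^ (2 : ℤ) = (2 * Lam) ^ (2 : ℕ) := rfl
    rw [e2]
    linarith
  nlinarith

end num

end Pool.Agent.GMH.V3
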