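import Pool.Agent.GMH.Key3P

/-!
# GMH/First2: first order terms of two branches (helper79)

The step of the run has two branches: on the event `A` the additions `Y1` are made, on the complement the additions `Y2`
(joint step at a light public value, public step at a heavy public value).  `A` is seen by `(Y1, Zb)` and by `(Y2, Zb)`, but
not by the old state `Z`.  The first order terms of one branch do not have mean zero, the sum of both has.
* `FO1` : first order term of one top with an arbitrary weight;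
* `lin1` : its main part, the covariance of the branch with the top;
* `branch_le` : one branch up to `lin1`; `lin1_not` : the two main parts cancel;
* `first_two` : both branches together.
-/

set_option autoImplicit false
set_option linter.unusedSectionVars false
set_option linter.unusedVariables false

namespace Pool.Agent.GMH

open Finset Pool.Agent.PWZ Pool.Agent.M3

noncomputable section

section two

variable {Om : Type*} [Fintype Om] (P : FP Om) {α β γ δ φ : Type*} (Zb : Om → α) (Z : Om → β) (F : Om → φ)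

/-- the value `y` of the additions belongs to the branch -/
def brV (Y : Om → γ) (A : Om → Prop) (w : Om) (y : γ) : Prop := ∃ u, Zb u = Zb w ∧ Y u = y ∧ A u

/-- first order term of one top, thin ratio at most `B`, weight `al` -/
def FO1 (Y : Om → γ) (B : ℝ) (al : Om → ℝ) : ℝ :=
  P.E (fun w => al w * (ind (¬ B < tau P Zb Z Y w (Y w)) * phi1 P Zb Z F Y B w (Y w)))

/-- covariance of the branch and the top -/
def lin1 (A : Om → Prop) (w : Om) : ℝ := ∑ x ∈ vals F, (P.pv Z F w x - P.pv Zb F w x) *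
  (P.ce Zb (fun u => ind (A u) * ind (F u = x)) w / P.pv Zb F w x - P.ce Zb (fun u => ind (A u)) w)

variable {Zb} in
theorem brV_fac (Y : Om → γ) (A : Om → Prop) (y : γ) {a b : Om} (hab : Zb a = Zb b) :
    brV Zb Y A a y = brV Zb Y A b y := by
  unfold brV
  rw [hab]

variable {Zb} in
theorem brV_iff {Y : Om → γ} {A : Om → Prop} (hA : Fac (fun u => (Y u, Zb u)) A) (w : Om) :
    brV Zb Y A w (Y w) = A w := by
  refine propext ⟨fun ⟨u, h1, h2, h3⟩ => ?_, fun h => ⟨w, rfl, rfl, h⟩⟩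
  have := hA u w (by simp only [Prod.mk.injEq]; exact ⟨h2, h1⟩)
  rw [← this]
  exact h3

theorem sum_br {Y : Om → γ} {A : Om → Prop} (hA : Fac (fun u => (Y u, Zb u)) A) (w : Om) :
    ∑ y ∈ vals Y, P.pv Zb Y w y * ind (brV Zb Y A w y) = P.ce Zb (fun u => ind (A u)) w := by
  rw [P.sum_pv Y (F := fun w y => ind (brV Zb Y A w y)) (fun y a b hab => by
    show ind (brV Zb Y A a y) = ind (brV Zb Y A b y)
    rw [brV_fac Y A y hab]) w]
  simp only [brV_iff hA]

theorem sum_brx {Y : Om → γ} {A : Om → Prop} (hA : Fac (fun u => (Y u, Zb u)) A) (w : Om) (x : φ) :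
    ∑ y ∈ vals Y, ind (brV Zb Y A w y) * qy P Zb F Y w y x = P.ce Zb (fun u => ind (A u) * ind (F u = x)) w := by
  classical
  have e1 : ∀ y ∈ vals Y, ind (brV Zb Y A w y) * qy P Zb F Y w y x =
      P.ce Zb (fun u => ind (brV Zb Y A u y) * ind ((Y u, F u) = (y, x))) w := by
    intro y _
    rw [P.ce_mul (h := fun u => ind (brV Zb Y A u y)) (fun a b hab => by
      show ind (brV Zb Y A a y) = ind (brV Zb Y A b y)
      rw [brV_fac Y A y hab])]
    rfl
  rw [Finset.sum_congr rfl e1, ← P.ce_sum]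
  refine P.ce_congr (fun u _ => ?_) w
  have hu : Y u ∈ vals Y := by unfold vals; exact Finset.mem_image_of_mem _ (mem_univ u)
  rw [Finset.sum_eq_single (Y u)]
  · rw [brV_iff hA]
    congr 1
    by_cases hx : F u = x
    · rw [ind_of hx, ind_of (by rw [hx])]
    · rw [ind_not hx, ind_not (fun h => hx (congrArg Prod.snd h))]
  · intro y _ hy
    rw [ind_not (fun h => hy (congrArg Prod.fst h).symm), mul_zero]
  · exact fun h => absurd hu h

variable {P Zb Z F} in
theorem lin1_not (hZ : Fac Z Zb) (A : Om → Prop) {w : Om} (hw : P.p w ≠ 0) :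
    lin1 P Zb Z F (fun u => ¬ A u) w = -lin1 P Zb Z F A w := by
  have e0 : ∀ u, ind (¬ A u) = 1 - ind (A u) := by
    intro u
    by_cases h : A u
    · rw [ind_of h, ind_not (not_not.2 h)]; ring
    · rw [ind_not h, ind_of h]; ring
  have e1 : P.ce Zb (fun u => ind (¬ A u)) w = 1 - P.ce Zb (fun u => ind (A u)) w := by
    simp only [e0]
    have h1 := P.ce_add Zb (fun _ => (1 : ℝ)) (fun u => -ind (A u)) w
    rw [P.ce_neg, P.ce_const _ 1 hw] at h1
    refine Eq.trans (P.ce_congr (fun u _ => ?_) w) (h1.trans ?_)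
    · ring
    · ring
  have e2 : ∀ x, P.ce Zb (fun u => ind (¬ A u) * ind (F u = x)) w = P.pv Zb F w x -
      P.ce Zb (fun u => ind (A u) * ind (F u = x)) w := by
    intro x
    have h1 := P.ce_add Zb (fun u => ind (F u = x)) (fun u => -(ind (A u) * ind (F u = x))) w
    rw [P.ce_neg] at h1
    have h2 : P.pv Zb F w x = P.ce Zb (fun u => ind (F u = x)) w := rfl
    rw [h2]
    refine Eq.trans (P.ce_congr (fun u _ => ?_) w) (h1.trans ?_)
    · rw [e0]; ring
    · ring
  unfold lin1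
  rw [← Finset.sum_neg_distrib]
  refine Finset.sum_congr rfl fun x _ => ?_
  rw [e1, e2]
  by_cases hx : P.pv Zb F w x = 0
  · rw [hx, P.pv_ac hZ F hx]; ring
  · rw [sub_div, div_self hx]; ring

variable {P Zb Z F} in
/-- mean of the first order term of the branch over independent additions -/
theorem sum_phi_br (hZ : Fac Z Zb) {Y : Om → γ} {A : Om → Prop} (hA : Fac (fun u => (Y u, Zb u)) A) (B : ℝ) {w : Om}
    (hw : P.p w ≠ 0) :
    ∑ y ∈ vals Y, P.pv Zb Y w y * (ind (brV Zb Y A w y) * phi1 P Zb Z F Y B w y) = lin1 P Zb Z F A w -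
      ∑ y ∈ vals Y, ∑ x ∈ vals F, P.pv Zb Y w y * (ind (brV Zb Y A w y) * ((P.pv Z F w x - P.pv Zb F w x) *
        hsg B (rr P Zb F Y w y x))) := by
  have e1 : ∑ y ∈ vals Y, P.pv Zb Y w y * (ind (brV Zb Y A w y) * phi1 P Zb Z F Y B w y) +
      ∑ y ∈ vals Y, ∑ x ∈ vals F, P.pv Zb Y w y * (ind (brV Zb Y A w y) * ((P.pv Z F w x - P.pv Zb F w x) *
        hsg B (rr P Zb F Y w y x))) =
      ∑ x ∈ vals F, (P.pv Z F w x - P.pv Zb F w x) *
        (∑ y ∈ vals Y, P.pv Zb Y w y * ind (brV Zb Y A w y) * rr P Zb F Y w y x -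
          ∑ y ∈ vals Y, P.pv Zb Y w y * ind (brV Zb Y A w y)) := by
    have e2 : ∀ x ∈ vals F, (P.pv Z F w x - P.pv Zb F w x) *
        (∑ y ∈ vals Y, P.pv Zb Y w y * ind (brV Zb Y A w y) * rr P Zb F Y w y x -
          ∑ y ∈ vals Y, P.pv Zb Y w y * ind (brV Zb Y A w y)) =
        ∑ y ∈ vals Y, P.pv Zb Y w y * (ind (brV Zb Y A w y) * ((P.pv Z F w x - P.pv Zb F w x) *
          (rr P Zb F Y w y x - 1))) := by
      intro x _
      rw [← Finset.sum_sub_distrib, Finset.mul_sum]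
      exact Finset.sum_congr rfl fun y _ => by ring
    rw [Finset.sum_congr rfl e2, Finset.sum_comm (s := vals F) (t := vals Y), ← Finset.sum_add_distrib]
    refine Finset.sum_congr rfl fun y _ => ?_
    unfold phi1
    rw [Finset.mul_sum, Finset.mul_sum, ← Finset.sum_add_distrib]
    refine Finset.sum_congr rfl fun x _ => ?_
    have h := hwk_add_hsg B (rr P Zb F Y w y x)
    have h' : rr P Zb F Y w y x - 1 = (hwk B (rr P Zb F Y w y x) - 1) + hsg B (rr P Zb F Y w y x) := by linarith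
    rw [h']
    ring
  have e3 : ∑ x ∈ vals F, (P.pv Z F w x - P.pv Zb F w x) *
      (∑ y ∈ vals Y, P.pv Zb Y w y * ind (brV Zb Y A w y) * rr P Zb F Y w y x -
        ∑ y ∈ vals Y, P.pv Zb Y w y * ind (brV Zb Y A w y)) = lin1 P Zb Z F A w := by
    unfold lin1
    refine Finset.sum_congr rfl fun x _ => ?_
    rw [sum_br P Zb hA]
    by_cases hx : P.pv Zb F w x = 0
    · rw [hx, P.pv_ac hZ F hx]; ring
    · congr 2
      rw [eq_div_iff hx, ← sum_brx P Zb F hA w x, Finset.sum_mul]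
      refine Finset.sum_congr rfl fun y _ => ?_
      have h := yq_rr P Zb F Y w y x
      calc P.pv Zb Y w y * ind (brV Zb Y A w y) * rr P Zb F Y w y x * P.pv Zb F w x =
          ind (brV Zb Y A w y) * (P.pv Zb Y w y * (P.pv Zb F w x * rr P Zb F Y w y x)) := by ring
        _ = _ := by rw [h]
  rw [e3] at e1
  linarith

variable {P Zb Z F} in
/-- **ONE BRANCH** -/
theorem branch_le (hZ : Fac Z Zb) {Y : Om → γ} {A : Om → Prop} (hA : Fac (fun u => (Y u, Zb u)) A) {B : ℝ}
    (hB : Real.exp 2 ≤ B) {al : Om → ℝ} (hal : Fac Z al) (h0 : ∀ w, 0 ≤ al w) (h1 : ∀ w, al w ≤ 1) :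
    |FO1 P Zb Z F Y B (fun w => al w * ind (A w)) - P.E (fun w => al w * lin1 P Zb Z F A w)| ≤
      Gd P Zb Z F Y al + B * Real.sqrt (8 * (Gd P Zb Z F Y al * Dt P Zb Z Y)) := by
  have hB1 : 1 ≤ B := by
    have := Real.add_one_le_exp 2
    linarith
  have hB0 : 0 ≤ B := by linarith
  have fτ := tau_fac P Y hZ
  have fφ := phi1_fac P Zb Z F Y (B := B) hZ
  have hi0 : ∀ w y, 0 ≤ ind (brV Zb Y A w y) := fun w y => ind_nonneg _
  have hi1 : ∀ w y, ind (brV Zb Y A w y) ≤ 1 := fun w y => ind_le_one _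
  -- mean at independent additions
  have e1 : FO1 P Zb Z F Y B (fun w => al w * ind (A w)) =
      P.E (fun w => al w * ∑ y ∈ vals Y, P.pv Zb Y w y * (ind (brV Zb Y A w y) * phi1 P Zb Z F Y B w y)) +
      P.E (fun w => ∑ y ∈ vals Y, P.pv Zb Y w y * ((hwk B (tau P Zb Z Y w y) - 1) *
        (al w * (ind (brV Zb Y A w y) * phi1 P Zb Z F Y B w y)))) := by
    have e0 : FO1 P Zb Z F Y B (fun w => al w * ind (A w)) = P.E (fun w => al w * (ind (brV Zb Y A w (Y w)) *
        (ind (¬ B < tau P Zb Z Y w (Y w)) * phi1 P Zb Z F Y B w (Y w)))) := by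
      unfold FO1
      refine P.E_congr fun w _ => ?_
      rw [brV_iff hA]
      ring
    rw [e0, E_real P Y (W := Z) (f := fun w y => al w * (ind (brV Zb Y A w y) * (ind (¬ B < tau P Zb Z Y w y) *
        phi1 P Zb Z F Y B w y)))
      (fun y a b hab => by
        show al a * (ind (brV Zb Y A a y) * (ind (¬ B < tau P Zb Z Y a y) * phi1 P Zb Z F Y B a y)) =
          al b * (ind (brV Zb Y A b y) * (ind (¬ B < tau P Zb Z Y b y) * phi1 P Zb Z F Y B b y))
        have g1 : al a = al b := hal a b hab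
        have g2 := fτ y a b hab
        have g3 := fφ y a b hab
        have g4 := brV_fac Y A y (hZ a b hab)
        simp only at g2 g3
        rw [g1, g2, g3, g4]), ← P.E_add]
    refine P.E_congr fun w _ => ?_
    rw [Finset.mul_sum, ← Finset.sum_add_distrib]
    refine Finset.sum_congr rfl fun y _ => ?_
    rw [yz_eq P Y hZ w y]
    unfold hwk
    ring
  have e2 : P.E (fun w => al w * ∑ y ∈ vals Y, P.pv Zb Y w y * (ind (brV Zb Y A w y) * phi1 P Zb Z F Y B w y)) =
      P.E (fun w => al w * lin1 P Zb Z F A w) - P.E (fun w => al w * ∑ y ∈ vals Y, ∑ x ∈ vals F, P.pv Zb Y w y *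
        (ind (brV Zb Y A w y) * ((P.pv Z F w x - P.pv Zb F w x) * hsg B (rr P Zb F Y w y x)))) := by
    rw [← P.E_sub]
    refine P.E_congr fun w hw => ?_
    rw [sum_phi_br hZ hA B hw]
    ring
  -- first part
  have k1 : |P.E (fun w => al w * ∑ y ∈ vals Y, ∑ x ∈ vals F, P.pv Zb Y w y *
      (ind (brV Zb Y A w y) * ((P.pv Z F w x - P.pv Zb F w x) * hsg B (rr P Zb F Y w y x))))| ≤ Gd P Zb Z F Y al := by
    refine (P.abs_E_le _).trans ?_
    unfold Gd
    refine P.E_mono fun w hw => ?_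
    rw [abs_mul, abs_of_nonneg (h0 w)]
    have g1 : |∑ y ∈ vals Y, ∑ x ∈ vals F, P.pv Zb Y w y * (ind (brV Zb Y A w y) * ((P.pv Z F w x - P.pv Zb F w x) *
        hsg B (rr P Zb F Y w y x)))| ≤ ∑ y ∈ vals Y, ∑ x ∈ vals F, P.pv Zb Y w y * (|P.pv Z F w x - P.pv Zb F w x| *
          hphi (rr P Zb F Y w y x)) := by
      refine (Finset.abs_sum_le_sum_abs _ _).trans (Finset.sum_le_sum fun y _ => ?_)
      refine (Finset.abs_sum_le_sum_abs _ _).trans (Finset.sum_le_sum fun x _ => ?_)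
      rw [abs_mul, abs_mul, abs_mul, abs_of_nonneg (P.pv_nonneg Zb Y w y), abs_of_nonneg (hi0 w y),
        abs_of_nonneg (hsg_nonneg (rr_nn P Zb F Y w y x))]
      have a1 := mul_le_mul_of_nonneg_left (sg_le_hphi hB (rr_nn P Zb F Y w y x)) (abs_nonneg (P.pv Z F w x - P.pv Zb F w x))
      have a2 : 0 ≤ |P.pv Z F w x - P.pv Zb F w x| * hsg B (rr P Zb F Y w y x) :=
        mul_nonneg (abs_nonneg _) (hsg_nonneg (rr_nn P Zb F Y w y x))
      exact mul_le_mul_of_nonneg_left ((mul_le_of_le_one_left a2 (hi1 w y)).trans a1) (P.pv_nonneg _ _ _ _)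
    refine (mul_le_mul_of_nonneg_left g1 (h0 w)).trans (le_of_eq ?_)
    rw [Finset.mul_sum]
    refine Finset.sum_congr rfl fun y _ => ?_
    rw [Finset.mul_sum]
    exact Finset.sum_congr rfl fun x _ => by ring
  -- second part
  have k2 := E_sum_cs P (vals Y) (fun w y => P.pv Zb Y w y) (fun w y => hwk B (tau P Zb Z Y w y) - 1)
    (fun w y => al w * (ind (brV Zb Y A w y) * phi1 P Zb Z F Y B w y)) (fun w _ y _ => P.pv_nonneg _ _ _ _)
  have k3 : P.E (fun w => ∑ y ∈ vals Y, P.pv Zb Y w y * (hwk B (tau P Zb Z Y w y) - 1) ^ 2) ≤ 2 * B * Dt P Zb Z Y := by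
    unfold Dt
    rw [← P.E_smul]
    refine P.E_mono fun w _ => ?_
    rw [Finset.mul_sum]
    refine Finset.sum_le_sum fun y _ => ?_
    have g1 := wk_sub_sq_le hB (tau_nn P Zb Z Y w y)
    have g2 := mul_le_mul_of_nonneg_left g1 (P.pv_nonneg Zb Y w y)
    linarith
  have k4 : P.E (fun w => ∑ y ∈ vals Y, P.pv Zb Y w y * (al w * (ind (brV Zb Y A w y) * phi1 P Zb Z F Y B w y)) ^ 2) ≤
      4 * B * Gd P Zb Z F Y al := by
    unfold Gd
    rw [← P.E_smul]
    refine P.E_mono fun w hw => ?_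
    rw [Finset.mul_sum]
    refine Finset.sum_le_sum fun y _ => ?_
    have g0 := P.pv_nonneg Zb Y w y
    have g1 : phi1 P Zb Z F Y B w y ^ 2 ≤ 2 * ∑ x ∈ vals F, |P.pv Z F w x - P.pv Zb F w x| *
        (hwk B (rr P Zb F Y w y x) - 1) ^ 2 := by
      have c := Finset.sum_mul_sq_le_sq_mul_sq (vals F) (fun x => Real.sqrt |P.pv Z F w x - P.pv Zb F w x|)
        (fun x => Real.sqrt |P.pv Z F w x - P.pv Zb F w x| * |hwk B (rr P Zb F Y w y x) - 1|)
      have c1 : |phi1 P Zb Z F Y B w y| ≤ ∑ x ∈ vals F, Real.sqrt |P.pv Z F w x - P.pv Zb F w x| *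
          (Real.sqrt |P.pv Z F w x - P.pv Zb F w x| * |hwk B (rr P Zb F Y w y x) - 1|) := by
        unfold phi1
        refine (Finset.abs_sum_le_sum_abs _ _).trans (Finset.sum_le_sum fun x _ => ?_)
        rw [← mul_assoc, Real.mul_self_sqrt (abs_nonneg _), abs_mul]
      have c2 : ∑ x ∈ vals F, Real.sqrt |P.pv Z F w x - P.pv Zb F w x| ^ 2 ≤ 2 := by
        have c3 : ∑ x ∈ vals F, Real.sqrt |P.pv Z F w x - P.pv Zb F w x| ^ 2 ≤
            ∑ x ∈ vals F, (P.pv Z F w x + P.pv Zb F w x) := by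
          refine Finset.sum_le_sum fun x _ => ?_
          rw [Real.sq_sqrt (abs_nonneg _), abs_le]
          have a1 := P.pv_nonneg Z F w x
          have a2 := P.pv_nonneg Zb F w x
          constructor <;> linarith
        rw [Finset.sum_add_distrib, P.pv_sum Z F hw, P.pv_sum Zb F hw] at c3
        linarith
      have c4 : ∑ x ∈ vals F, (Real.sqrt |P.pv Z F w x - P.pv Zb F w x| * |hwk B (rr P Zb F Y w y x) - 1|) ^ 2 =
          ∑ x ∈ vals F, |P.pv Z F w x - P.pv Zb F w x| * (hwk B (rr P Zb F Y w y x) - 1) ^ 2 := by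
        refine Finset.sum_congr rfl fun x _ => ?_
        rw [mul_pow, Real.sq_sqrt (abs_nonneg _), sq_abs]
      rw [c4] at c
      have c5 : 0 ≤ ∑ x ∈ vals F, |P.pv Z F w x - P.pv Zb F w x| * (hwk B (rr P Zb F Y w y x) - 1) ^ 2 :=
        Finset.sum_nonneg fun x _ => mul_nonneg (abs_nonneg _) (sq_nonneg _)
      have c6 := pow_le_pow_left₀ (abs_nonneg _) c1 2
      rw [sq_abs] at c6
      exact c6.trans (c.trans (mul_le_mul_of_nonneg_right c2 c5))
    have g2 : ∑ x ∈ vals F, |P.pv Z F w x - P.pv Zb F w x| * (hwk B (rr P Zb F Y w y x) - 1) ^ 2 ≤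
        2 * B * ∑ x ∈ vals F, |P.pv Z F w x - P.pv Zb F w x| * hphi (rr P Zb F Y w y x) := by
      rw [Finset.mul_sum]
      refine Finset.sum_le_sum fun x _ => ?_
      have a1 := mul_le_mul_of_nonneg_left (wk_sub_sq_le hB (rr_nn P Zb F Y w y x)) (abs_nonneg (P.pv Z F w x - P.pv Zb F w x))
      linarith
    have g3 : al w ^ 2 ≤ al w := by nlinarith [h0 w, h1 w]
    have g5 : (ind (brV Zb Y A w y) * phi1 P Zb Z F Y B w y) ^ 2 ≤ phi1 P Zb Z F Y B w y ^ 2 := by
      rw [mul_pow]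
      have : ind (brV Zb Y A w y) ^ 2 ≤ 1 := by
        have := pow_le_pow_left₀ (hi0 w y) (hi1 w y) 2
        rwa [one_pow] at this
      exact mul_le_of_le_one_left (sq_nonneg _) this
    have g4 : (al w * (ind (brV Zb Y A w y) * phi1 P Zb Z F Y B w y)) ^ 2 ≤ al w * (4 * B * ∑ x ∈ vals F,
        |P.pv Z F w x - P.pv Zb F w x| * hphi (rr P Zb F Y w y x)) := by
      rw [mul_pow]
      refine mul_le_mul g3 (by linarith) (sq_nonneg _) (h0 w)
    refine (mul_le_mul_of_nonneg_left g4 g0).trans (le_of_eq ?_)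
    have e9 : P.pv Zb Y w y * (al w * (4 * B * ∑ x ∈ vals F, |P.pv Z F w x - P.pv Zb F w x| *
        hphi (rr P Zb F Y w y x))) = 4 * B * ((P.pv Zb Y w y * al w) * ∑ x ∈ vals F, |P.pv Z F w x - P.pv Zb F w x| *
        hphi (rr P Zb F Y w y x)) := by ring
    rw [e9, Finset.mul_sum]
    congr 1
    exact Finset.sum_congr rfl fun x _ => by ring
  have hG := Gd_nn P Zb Z F Y (al := al) h0
  have hD := Dt_nn P Zb Z Y
  have k5 : Real.sqrt (P.E (fun w => ∑ y ∈ vals Y, P.pv Zb Y w y * (hwk B (tau P Zb Z Y w y) - 1) ^ 2) *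
      P.E (fun w => ∑ y ∈ vals Y, P.pv Zb Y w y * (al w * (ind (brV Zb Y A w y) * phi1 P Zb Z F Y B w y)) ^ 2)) ≤
      B * Real.sqrt (8 * (Gd P Zb Z F Y al * Dt P Zb Z Y)) := by
    have a1 : 0 ≤ P.E (fun w => ∑ y ∈ vals Y, P.pv Zb Y w y * (al w * (ind (brV Zb Y A w y) *
        phi1 P Zb Z F Y B w y)) ^ 2) :=
      P.E_nonneg fun w _ => Finset.sum_nonneg fun y _ => mul_nonneg (P.pv_nonneg _ _ _ _) (sq_nonneg _)
    have a2 := mul_le_mul k3 k4 a1 (by positivity)
    have a3 : B * Real.sqrt (8 * (Gd P Zb Z F Y al * Dt P Zb Z Y)) =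
        Real.sqrt (B ^ 2 * (8 * (Gd P Zb Z F Y al * Dt P Zb Z Y))) := by
      rw [Real.sqrt_mul (sq_nonneg B), Real.sqrt_sq hB0]
    rw [a3]
    refine Real.sqrt_le_sqrt (a2.trans (le_of_eq ?_))
    ring
  have k6 := k2.trans k5
  rw [e1, e2]
  have k7 := abs_sub (P.E (fun w => ∑ y ∈ vals Y, P.pv Zb Y w y * ((hwk B (tau P Zb Z Y w y) - 1) *
        (al w * (ind (brV Zb Y A w y) * phi1 P Zb Z F Y B w y))))) (P.E (fun w => al w * ∑ y ∈ vals Y, ∑ x ∈ vals F,
        P.pv Zb Y w y * (ind (brV Zb Y A w y) * ((P.pv Z F w x - P.pv Zb F w x) * hsg B (rr P Zb F Y w y x)))))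
  refine le_trans (le_of_eq (congrArg abs ?_)) (k7.trans ?_)
  · ring
  · linarith

variable {P Zb Z F} in
/-- **BOTH BRANCHES TOGETHER** -/
theorem first_two (hZ : Fac Z Zb) {Y1 : Om → γ} {Y2 : Om → δ} {A : Om → Prop} (hA1 : Fac (fun u => (Y1 u, Zb u)) A)
    (hA2 : Fac (fun u => (Y2 u, Zb u)) A) {B : ℝ} (hB : Real.exp 2 ≤ B) {al : Om → ℝ} (hal : Fac Z al)
    (h0 : ∀ w, 0 ≤ al w) (h1 : ∀ w, al w ≤ 1) :
    |FO1 P Zb Z F Y1 B (fun w => al w * ind (A w)) + FO1 P Zb Z F Y2 B (fun w => al w * ind (¬ A w))| ≤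
      (Gd P Zb Z F Y1 al + B * Real.sqrt (8 * (Gd P Zb Z F Y1 al * Dt P Zb Z Y1))) +
      (Gd P Zb Z F Y2 al + B * Real.sqrt (8 * (Gd P Zb Z F Y2 al * Dt P Zb Z Y2))) := by
  have k1 := branch_le (P := P) (F := F) hZ hA1 hB hal h0 h1
  have k2 := branch_le (P := P) (F := F) (A := fun u => ¬ A u) hZ (fun a b hab => by
    have := hA2 a b hab
    show (¬ A a) = (¬ A b)
    rw [this]) hB hal h0 h1
  have e : P.E (fun w => al w * lin1 P Zb Z F (fun u => ¬ A u) w) = -P.E (fun w => al w * lin1 P Zb Z F A w) := by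
    rw [← P.E_neg]
    refine P.E_congr fun w hw => ?_
    rw [lin1_not hZ A hw]
    ring
  rw [e] at k2
  rw [abs_le] at k1 k2 ⊢
  constructor <;> linarith [k1.1, k1.2, k2.1, k2.2]

end two

end

end Pool.Agent.GMH
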