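import Pool.Agent.GMH.FluxI

/-!
# GMH.FluxB1: one step of the superhot true pair (Lemma B of note 4069, parts (a), (b), (c), (e); helper9)

`wt` = `P(x|Z) P(y|Z) / P(x,y|Z)` at the true pair.  For `g = min (E wt) 1` and a step `Z → (V, Z)`:
* `bstep1` : one addition, `bstep` : one law;
* `flxB_step` : `E[al g(new)] ≤ E[al E wt (1 + kk)] + E[al omp]`, `kk` = hybrid sum over the additions in which
  `rho_x + rho_y < 1`, `omp` = positive part of `xi_x xi_y / (rho_x rho_y)` at the true additions, `1 ≤ rho_x + rho_y`;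
* `flxB_birth` : births (the state does not change, the letters are refined): `E[al g(new)] ≤ E[al g]`;
* `flxB_hyb`, `flxB_hker` : `E[al E wt kk]` is at most the sum with the product kernel of `FluxS`.
-/

set_option autoImplicit false
set_option linter.unusedSectionVars false
set_option linter.unusedVariables false

namespace Pool.Agent.GMH

open Finset Pool.Agent.PWZ Pool.Agent.M3

noncomputable section

namespace Flx

/-! ### one law -/

/-- one addition: `r, s` = ratios of the two letters, `R` = ratio of the pair, `w` = old weight -/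
theorem bstep1 {E w r s R : ℝ} (hE : 0 ≤ E) (hw : 0 ≤ w) (hr : 0 ≤ r) (hs : 0 ≤ s) (hR : 0 ≤ R) :
    R * min (E * (w * r * s / R)) 1 ≤
      E * w * (r + s - 1) + E * w * (ind (r + s < 1) * ((1 - r) * (1 - s))) +
        R * (ind (1 ≤ r + s) * max ((r - 1) * (s - 1) / (r * s)) 0) := by
  have hEw : 0 ≤ E * w := mul_nonneg hE hw
  have hrs : 0 ≤ r * s := mul_nonneg hr hs
  by_cases h : r + s < 1
  · rw [ind_of h, ind_not (not_le.2 h)]
    have e : E * w * (r + s - 1) + E * w * (1 * ((1 - r) * (1 - s))) + R * (0 * max ((r - 1) * (s - 1) / (r * s)) 0) =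
        E * w * (r * s) := by ring
    rw [e]
    rcases hR.eq_or_lt with h0 | h0
    · rw [← h0, zero_mul]
      exact mul_nonneg hEw hrs
    · refine (mul_le_mul_of_nonneg_left (min_le_left _ _) hR).trans (le_of_eq ?_)
      field_simp
  · have h' : 1 ≤ r + s := not_lt.1 h
    rw [ind_not h, ind_of h']
    have t0 : 0 ≤ E * w * (r + s - 1) := mul_nonneg hEw (by linarith)
    have t1 : 0 ≤ R * max ((r - 1) * (s - 1) / (r * s)) 0 := mul_nonneg hR (le_max_right _ _)
    rcases hR.eq_or_lt with h0 | h0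
    · rw [← h0] at t1 ⊢
      nlinarith
    · rcases hrs.eq_or_lt with h1 | h1
      · have e : R * min (E * (w * r * s / R)) 1 = 0 := by
          have : w * r * s = 0 := by rw [mul_assoc, ← h1, mul_zero]
          rw [this, zero_div, mul_zero, min_eq_left zero_le_one, mul_zero]
        rw [e]
        nlinarith
      · set om := (r - 1) * (s - 1) / (r * s) with hom
        set t := E * (w * r * s / R) with ht
        have om1 : om ≤ 1 := by
          rw [hom, div_le_one h1]
          nlinarith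
        have tn : 0 ≤ t := mul_nonneg hE (div_nonneg (mul_nonneg (mul_nonneg hw hr) hs) hR)
        have mx0 : 0 ≤ max om 0 := le_max_right _ _
        have mx1 : om ≤ max om 0 := le_max_left _ _
        have q : min t 1 ≤ t * (1 - om) + max om 0 := by
          by_cases h2 : t ≤ 1
          · rw [min_eq_left h2]
            nlinarith
          · push Not at h2
            rw [min_eq_right h2.le]
            nlinarith
        have e1 : R * (t * (1 - om)) = E * w * (r + s - 1) := by
          rw [ht, hom]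
          have hr0 : r ≠ 0 := fun h => by rw [h, zero_mul] at h1; exact lt_irrefl _ h1
          have hs0 : s ≠ 0 := fun h => by rw [h, mul_zero] at h1; exact lt_irrefl _ h1
          field_simp
          ring
        have := mul_le_mul_of_nonneg_left q hR
        linarith

/-- one law -/
theorem bstep {γ : Type*} {sv : Finset γ} {q r s R : γ → ℝ} {E w : ℝ} (hE : 0 ≤ E) (hw : 0 ≤ w)
    (hq : ∀ v ∈ sv, 0 ≤ q v) (hr : ∀ v ∈ sv, 0 ≤ r v) (hs : ∀ v ∈ sv, 0 ≤ s v) (hR : ∀ v ∈ sv, 0 ≤ R v)
    (q1 : ∑ v ∈ sv, q v = 1) (r1 : ∑ v ∈ sv, q v * r v = 1) (s1 : ∑ v ∈ sv, q v * s v = 1) :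
    ∑ v ∈ sv, q v * (R v * min (E * (w * r v * s v / R v)) 1) ≤
      E * w * (1 + ∑ v ∈ sv, q v * (ind (r v + s v < 1) * ((1 - r v) * (1 - s v)))) +
        ∑ v ∈ sv, q v * (R v * (ind (1 ≤ r v + s v) * max ((r v - 1) * (s v - 1) / (r v * s v)) 0)) := by
  have h1 : ∑ v ∈ sv, q v * (R v * min (E * (w * r v * s v / R v)) 1) ≤
      ∑ v ∈ sv, (E * w * (q v * r v + q v * s v - q v) + E * w * (q v * (ind (r v + s v < 1) * ((1 - r v) * (1 - s v)))) +
        q v * (R v * (ind (1 ≤ r v + s v) * max ((r v - 1) * (s v - 1) / (r v * s v)) 0))) := by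
    refine Finset.sum_le_sum fun v hv => ?_
    have := mul_le_mul_of_nonneg_left (bstep1 hE hw (hr v hv) (hs v hv) (hR v hv)) (hq v hv)
    linarith
  refine h1.trans (le_of_eq ?_)
  rw [Finset.sum_add_distrib, Finset.sum_add_distrib, ← Finset.mul_sum, ← Finset.mul_sum, Finset.sum_sub_distrib,
    Finset.sum_add_distrib, q1, r1, s1]
  ring

section prob

variable {Om : Type*} [Fintype Om] (P : FP Om) {κ ι β γ : Type*} (X : Om → κ) (X' : Om → ι) (Z : Om → β) (V : Om → γ)

/-- `P(x|Z) P(y|Z) / P(x,y|Z)` at the true pair -/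
def wt (w : Om) : ℝ := P.pv Z X w (X w) * P.pv Z X' w (X' w) / pj P X X' Z w (X w) (X' w)

/-- hybrid sum: both letters are killed, `rho_x + rho_y < 1`; the additions are averaged, the pair is fixed -/
def kk (w : Om) (x : κ) (y : ι) : ℝ := ∑ v ∈ vals V, P.pv Z V w v *
  (ind (rr P Z X V w v x + rr P Z X' V w v y < 1) * ((1 - rr P Z X V w v x) * (1 - rr P Z X' V w v y)))

/-- positive part of `xi_x xi_y / (rho_x rho_y)` at the true additions -/
def omp (w : Om) : ℝ := ind (1 ≤ rr P Z X V w (V w) (X w) + rr P Z X' V w (V w) (X' w)) *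
  max ((rr P Z X V w (V w) (X w) - 1) * (rr P Z X' V w (V w) (X' w) - 1) /
    (rr P Z X V w (V w) (X w) * rr P Z X' V w (V w) (X' w))) 0

theorem wt_nn (w : Om) : 0 ≤ wt P X X' Z w :=
  div_nonneg (mul_nonneg (P.pv_nonneg _ _ _ _) (P.pv_nonneg _ _ _ _)) (pj_nn P X X' Z w _ _)

theorem omp_nn (w : Om) : 0 ≤ omp P X X' Z V w := mul_nonneg (ind_nonneg _) (le_max_right _ _)

theorem kk_nn (w : Om) (x : κ) (y : ι) : 0 ≤ kk P X X' Z V w x y := by
  refine Finset.sum_nonneg fun v _ => mul_nonneg (P.pv_nonneg _ _ _ _) ?_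
  have a := rr_nn P Z X V w v x
  have b := rr_nn P Z X' V w v y
  by_cases h : rr P Z X V w v x + rr P Z X' V w v y < 1
  · rw [ind_of h, one_mul]
    exact mul_nonneg (by linarith) (by linarith)
  · rw [ind_not h, zero_mul]

/-- the ratio sums to one -/
theorem rr_one {κ : Type*} (X : Om → κ) {w : Om} (hw : P.p w ≠ 0) {x : κ} (hx : P.pv Z X w x ≠ 0) :
    ∑ v ∈ vals V, P.pv Z V w v * rr P Z X V w v x = 1 := by
  have h1 : P.pv Z X w x * ∑ v ∈ vals V, P.pv Z V w v * rr P Z X V w v x = P.pv Z X w x := by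
    rw [Finset.mul_sum]
    have h2 : ∀ v ∈ vals V, P.pv Z X w x * (P.pv Z V w v * rr P Z X V w v x) =
        P.pv Z (fun u => (V u, X u)) w (v, x) := by
      intro v _
      have := yq_rr P Z X V w v x
      have e : qy P Z X V w v x = P.pv Z (fun u => (V u, X u)) w (v, x) := rfl
      rw [← e, ← this]
      ring
    rw [Finset.sum_congr rfl h2]
    exact P.pv_marg Z (A := X) (B := V) (C := fun u => (V u, X u)) x (fun v => (v, x))
      (fun u b => by simp only [Prod.mk.injEq]; exact and_comm) w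
  have h3 : P.pv Z X w x * ∑ v ∈ vals V, P.pv Z V w v * rr P Z X V w v x = P.pv Z X w x * 1 := by rw [h1, mul_one]
  exact mul_left_cancel₀ hx h3

/-- the law of the additions given the true letter -/
theorem pv_V {κ : Type*} (F : Om → κ) {w : Om} (hw : P.p w ≠ 0) (v : γ) :
    P.pv (fun u => (F u, Z u)) V w v = P.pv Z V w v * rr P Z F V w v (F w) := by
  have h := real_r P Z V F hw v
  have a := P.pv_nonneg Z V w v
  have b := P.pv_self_pos Z F hw
  by_cases h0 : P.pv Z V w v = 0
  · rw [h0, zero_mul]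
    exact P.pv_ac (fun a b hab => (Prod.mk.inj hab).2) V h0
  · have e : rr P Z V F w (F w) v = rr P Z F V w v (F w) := by
      unfold rr qy
      have e1 : P.pv Z (fun u => (F u, V u)) w (F w, v) = P.pv Z (fun u => (V u, F u)) w (v, F w) := by
        unfold FP.pv
        refine congrArg (fun g => P.ce Z g w) ?_
        funext u
        refine congrArg ind (propext ?_)
        simp only [Prod.mk.injEq]
        exact and_comm
      rw [e1, mul_comm (P.pv Z F w (F w))]
    rw [div_eq_iff h0] at h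
    rw [h, e]
    ring

/-- the new weight at the true additions -/
theorem wt_new {w : Om} (hw : P.p w ≠ 0) :
    wt P X X' (fun u => (V u, Z u)) w = wt P X X' Z w * rr P Z X V w (V w) (X w) * rr P Z X' V w (V w) (X' w) /
      rr P Z (fun u => (X u, X' u)) V w (V w) (X w, X' w) := by
  have a := real_r P Z X V hw (X w)
  have b := real_r P Z X' V hw (X' w)
  have c := real_r P Z (fun u => (X u, X' u)) V hw (X w, X' w)
  have a1 := P.pv_self_pos Z X hw
  have b1 := P.pv_self_pos Z X' hw
  have c1 := P.pv_self_pos Z (fun u => (X u, X' u)) hw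
  rw [← a, ← b, ← c]
  unfold wt pj
  have c2 := P.pv_self_pos (fun u => (V u, Z u)) (fun u => (X u, X' u)) hw
  have a3 := a1.ne'
  have b3 := b1.ne'
  have c3 := c1.ne'
  have c4 := c2.ne'
  field_simp

/-- **Lemma B, one step** -/
theorem flxB_step {al : Om → ℝ} (hal : Fac (fun u => ((X u, X' u), Z u)) al) (h0 : ∀ w, 0 ≤ al w) {E : ℝ} (hE : 0 ≤ E) :
    P.E (fun w => al w * min (E * wt P X X' (fun u => (V u, Z u)) w) 1) ≤
      P.E (fun w => al w * (E * wt P X X' Z w * (1 + kk P X X' Z V w (X w) (X' w)))) +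
        P.E (fun w => al w * omp P X X' Z V w) := by
  set F : Om → κ × ι := fun u => (X u, X' u) with hF
  set W : Om → (κ × ι) × β := fun u => (F u, Z u) with hW
  have hWZ : ∀ a b, W a = W b → Z a = Z b := fun a b hab => (Prod.mk.inj hab).2
  have hWX : ∀ a b, W a = W b → X a = X b := fun a b hab => (Prod.mk.inj (Prod.mk.inj hab).1).1
  have hWX' : ∀ a b, W a = W b → X' a = X' b := fun a b hab => (Prod.mk.inj (Prod.mk.inj hab).1).2
  let r : Om → γ → ℝ := fun w v => rr P Z X V w v (X w)
  let s : Om → γ → ℝ := fun w v => rr P Z X' V w v (X' w)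
  let R : Om → γ → ℝ := fun w v => rr P Z F V w v (F w)
  have fr : ∀ v a b, W a = W b → r a v = r b v := fun v a b hab => by
    show rr P Z X V a v (X a) = rr P Z X V b v (X b)
    rw [rrc P X V (hWZ a b hab), hWX a b hab]
  have fs : ∀ v a b, W a = W b → s a v = s b v := fun v a b hab => by
    show rr P Z X' V a v (X' a) = rr P Z X' V b v (X' b)
    rw [rrc P X' V (hWZ a b hab), hWX' a b hab]
  have fR : ∀ v a b, W a = W b → R a v = R b v := fun v a b hab => by
    show rr P Z F V a v (F a) = rr P Z F V b v (F b)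
    rw [rrc P F V (hWZ a b hab), show F a = F b from (Prod.mk.inj hab).1]
  have fw : ∀ a b, W a = W b → wt P X X' Z a = wt P X X' Z b := fun a b hab => by
    unfold wt pj
    rw [pvc P X (hWZ a b hab), pvc P X' (hWZ a b hab), pvc P (fun u => (X u, X' u)) (hWZ a b hab), hWX a b hab,
      hWX' a b hab]
  -- the left side
  have L : P.E (fun w => al w * min (E * wt P X X' (fun u => (V u, Z u)) w) 1) =
      P.E (fun w => al w * ∑ v ∈ vals V, P.pv Z V w v * (R w v * min (E * (wt P X X' Z w * r w v * s w v / R w v)) 1)) := by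
    have e1 : P.E (fun w => al w * min (E * wt P X X' (fun u => (V u, Z u)) w) 1) =
        P.E (fun w => (fun w v => al w * min (E * (wt P X X' Z w * r w v * s w v / R w v)) 1) w (V w)) := by
      refine P.E_congr fun w hw => ?_
      show al w * min (E * wt P X X' (fun u => (V u, Z u)) w) 1 =
        al w * min (E * (wt P X X' Z w * r w (V w) * s w (V w) / R w (V w))) 1
      rw [wt_new P X X' Z V hw]
    rw [e1, E_real P V (W := W) (f := fun w v => al w * min (E * (wt P X X' Z w * r w v * s w v / R w v)) 1)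
      (fun v a b hab => by
        show al a * min (E * (wt P X X' Z a * r a v * s a v / R a v)) 1 =
          al b * min (E * (wt P X X' Z b * r b v * s b v / R b v)) 1
        rw [hal a b hab, fw a b hab, fr v a b hab, fs v a b hab, fR v a b hab])]
    refine P.E_congr fun w hw => ?_
    rw [Finset.mul_sum]
    refine Finset.sum_congr rfl fun v _ => ?_
    have := pv_V P Z V F hw v
    show P.pv (fun u => (F u, Z u)) V w v * (al w * min (E * (wt P X X' Z w * r w v * s w v / R w v)) 1) = _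
    rw [this]
    show P.pv Z V w v * R w v * _ = _
    ring
  -- the term omp
  have O : P.E (fun w => al w * omp P X X' Z V w) = P.E (fun w => al w * ∑ v ∈ vals V, P.pv Z V w v *
      (R w v * (ind (1 ≤ r w v + s w v) * max ((r w v - 1) * (s w v - 1) / (r w v * s w v)) 0))) := by
    have e1 : P.E (fun w => al w * omp P X X' Z V w) = P.E (fun w => (fun w v => al w *
        (ind (1 ≤ r w v + s w v) * max ((r w v - 1) * (s w v - 1) / (r w v * s w v)) 0)) w (V w)) := rfl
    rw [e1, E_real P V (W := W) (f := fun w v => al w *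
        (ind (1 ≤ r w v + s w v) * max ((r w v - 1) * (s w v - 1) / (r w v * s w v)) 0))
      (fun v a b hab => by
        show al a * (ind (1 ≤ r a v + s a v) * max ((r a v - 1) * (s a v - 1) / (r a v * s a v)) 0) =
          al b * (ind (1 ≤ r b v + s b v) * max ((r b v - 1) * (s b v - 1) / (r b v * s b v)) 0)
        rw [hal a b hab, fr v a b hab, fs v a b hab])]
    refine P.E_congr fun w hw => ?_
    rw [Finset.mul_sum]
    refine Finset.sum_congr rfl fun v _ => ?_
    have := pv_V P Z V F hw v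
    show P.pv (fun u => (F u, Z u)) V w v * (al w * _) = _
    rw [this]
    show P.pv Z V w v * R w v * _ = _
    ring
  rw [L, O, ← P.E_add]
  refine P.E_mono fun w hw => ?_
  have key := bstep (sv := vals V) (q := fun v => P.pv Z V w v) (r := r w) (s := s w) (R := R w) hE (wt_nn P X X' Z w)
    (fun v _ => P.pv_nonneg _ _ _ _) (fun v _ => rr_nn P Z X V w v _) (fun v _ => rr_nn P Z X' V w v _)
    (fun v _ => rr_nn P Z F V w v _) (P.pv_sum Z V hw) (rr_one P Z V X hw (P.pv_self_pos Z X hw).ne')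
    (rr_one P Z V X' hw (P.pv_self_pos Z X' hw).ne')
  have := mul_le_mul_of_nonneg_left key (h0 w)
  refine this.trans (le_of_eq ?_)
  rw [mul_add]
  rfl

/-! ### the hybrid sum as a sum over pairs -/

/-- the hybrid sum with a weight which is a function of the state and the pair -/
theorem flxB_hyb {f : Om → κ → ι → ℝ} (hf : ∀ x y, Fac Z (fun w => f w x y)) (f0 : ∀ w x y, 0 ≤ f w x y) :
    P.E (fun w => f w (X w) (X' w) * kk P X X' Z V w (X w) (X' w)) ≤
      P.E (fun w => ∑ x ∈ vals X, ∑ y ∈ vals X', pj P X X' Z w x y * f w x y *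
        (kil P Z V X w x * kil P Z V X' w y)) := by
  have fk : ∀ x y, Fac Z (fun w => kk P X X' Z V w x y) := by
    intro x y
    refine Fac.finsum _ fun v _ => ?_
    intro a b hab
    show P.pv Z V a v * (ind (rr P Z X V a v x + rr P Z X' V a v y < 1) *
        ((1 - rr P Z X V a v x) * (1 - rr P Z X' V a v y))) =
      P.pv Z V b v * (ind (rr P Z X V b v x + rr P Z X' V b v y < 1) *
        ((1 - rr P Z X V b v x) * (1 - rr P Z X' V b v y)))
    rw [pvc P V hab v, rrc P X V hab v x, rrc P X' V hab v y]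
  have L : P.E (fun w => f w (X w) (X' w) * kk P X X' Z V w (X w) (X' w)) =
      P.E (fun w => ∑ x ∈ vals X, ∑ y ∈ vals X', pj P X X' Z w x y * (f w x y * kk P X X' Z V w x y)) := by
    rw [← P.E_ce Z (fun w => f w (X w) (X' w) * kk P X X' Z V w (X w) (X' w))]
    refine P.E_congr fun w _ => ?_
    exact (P.sum2 (N := Z) X X' (F := fun w x y => f w x y * kk P X X' Z V w x y)
      (fun x y => (hf x y).mul (fk x y)) w).symm
  have R : P.E (fun w => ∑ x ∈ vals X, ∑ y ∈ vals X', pj P X X' Z w x y * f w x y *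
        (kil P Z V X w x * kil P Z V X' w y)) =
      P.E (fun w => ∑ v ∈ vals V, P.pv Z V w v * ∑ x ∈ vals X, ∑ y ∈ vals X', pj P X X' Z w x y * f w x y *
        (max (1 - rr P Z X V w v x) 0 * max (1 - rr P Z X' V w v y) 0)) :=
    E_real P V (W := Z) (f := fun w v => ∑ x ∈ vals X, ∑ y ∈ vals X', pj P X X' Z w x y * f w x y *
        (max (1 - rr P Z X V w v x) 0 * max (1 - rr P Z X' V w v y) 0)) (fun v => by
      refine Fac.finsum _ fun x _ => Fac.finsum _ fun y _ => ?_
      intro a b hab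
      show pj P X X' Z a x y * f a x y * (max (1 - rr P Z X V a v x) 0 * max (1 - rr P Z X' V a v y) 0) =
        pj P X X' Z b x y * f b x y * (max (1 - rr P Z X V b v x) 0 * max (1 - rr P Z X' V b v y) 0)
      have h1 : pj P X X' Z a x y = pj P X X' Z b x y := pvc P _ hab (x, y)
      have h2 : f a x y = f b x y := hf x y a b hab
      rw [h1, h2, rrc P X V hab v x, rrc P X' V hab v y])
  rw [L, R]
  refine P.E_mono fun w _ => ?_
  have e : ∑ v ∈ vals V, P.pv Z V w v * ∑ x ∈ vals X, ∑ y ∈ vals X', pj P X X' Z w x y * f w x y *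
        (max (1 - rr P Z X V w v x) 0 * max (1 - rr P Z X' V w v y) 0) =
      ∑ x ∈ vals X, ∑ y ∈ vals X', ∑ v ∈ vals V, P.pv Z V w v * (pj P X X' Z w x y * f w x y *
        (max (1 - rr P Z X V w v x) 0 * max (1 - rr P Z X' V w v y) 0)) := by
    simp only [Finset.mul_sum]
    rw [Finset.sum_comm]
    refine Finset.sum_congr rfl fun x _ => ?_
    rw [Finset.sum_comm]
  rw [e]
  refine Finset.sum_le_sum fun x _ => Finset.sum_le_sum fun y _ => ?_
  unfold kk
  rw [Finset.mul_sum, Finset.mul_sum]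
  refine Finset.sum_le_sum fun v _ => ?_
  have a0 := P.pv_nonneg Z V w v
  have p0 := mul_nonneg (pj_nn P X X' Z w x y) (f0 w x y)
  have r0 := rr_nn P Z X V w v x
  have s0 := rr_nn P Z X' V w v y
  have q : ind (rr P Z X V w v x + rr P Z X' V w v y < 1) * ((1 - rr P Z X V w v x) * (1 - rr P Z X' V w v y)) ≤
      max (1 - rr P Z X V w v x) 0 * max (1 - rr P Z X' V w v y) 0 := by
    by_cases h : rr P Z X V w v x + rr P Z X' V w v y < 1
    · rw [ind_of h, one_mul, max_eq_left (by linarith), max_eq_left (by linarith)]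
    · rw [ind_not h, zero_mul]
      exact mul_nonneg (le_max_right _ _) (le_max_right _ _)
  have := mul_le_mul_of_nonneg_left q (mul_nonneg p0 a0)
  linarith

/-- the same for a weight on the true pair -/
theorem flxB_hyb' {al : Om → ℝ} {E : ℝ} {f : Om → κ → ι → ℝ} (hf : ∀ x y, Fac Z (fun w => f w x y))
    (f0 : ∀ w x y, 0 ≤ f w x y) (hal : ∀ w, P.p w ≠ 0 → al w * (E * wt P X X' Z w) ≤ f w (X w) (X' w)) :
    P.E (fun w => al w * (E * wt P X X' Z w * kk P X X' Z V w (X w) (X' w))) ≤
      P.E (fun w => ∑ x ∈ vals X, ∑ y ∈ vals X', pj P X X' Z w x y * f w x y *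
        (kil P Z V X w x * kil P Z V X' w y)) := by
  refine le_trans (P.E_mono fun w hw => ?_) (flxB_hyb P X X' Z V hf f0)
  have := mul_le_mul_of_nonneg_right (hal w hw) (kk_nn P X X' Z V w (X w) (X' w))
  linarith

/-- hot pairs: product kernel of `FluxS` -/
theorem flxB_hker {al c : Om → ℝ} {E : ℝ} (hE : 0 ≤ E) (hc : Fac Z c) (c0 : ∀ w, 0 ≤ c w)
    (hal : ∀ w, P.p w ≠ 0 → al w ≤ c w * ind (E * wt P X X' Z w ≤ 1)) :
    P.E (fun w => al w * (E * wt P X X' Z w * kk P X X' Z V w (X w) (X' w))) ≤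
      P.E (fun w => c w * ∑ x ∈ vals X, ∑ y ∈ vals X', hker P X X' Z E w x y *
        (kil P Z V X w x * kil P Z V X' w y)) := by
  have h1 := flxB_hyb' P X X' Z V (al := al) (E := E) (f := fun w x y => c w *
      (ind (E * (P.pv Z X w x * P.pv Z X' w y) ≤ pj P X X' Z w x y) *
        (E * (P.pv Z X w x * P.pv Z X' w y / pj P X X' Z w x y))))
    (fun x y a b hab => by
      show c a * (ind (E * (P.pv Z X a x * P.pv Z X' a y) ≤ pj P X X' Z a x y) *
        (E * (P.pv Z X a x * P.pv Z X' a y / pj P X X' Z a x y))) =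
        c b * (ind (E * (P.pv Z X b x * P.pv Z X' b y) ≤ pj P X X' Z b x y) *
        (E * (P.pv Z X b x * P.pv Z X' b y / pj P X X' Z b x y)))
      have h1 : pj P X X' Z a x y = pj P X X' Z b x y := pvc P _ hab (x, y)
      rw [hc a b hab, h1, pvc P X hab x, pvc P X' hab y])
    (fun w x y => mul_nonneg (c0 w) (mul_nonneg (ind_nonneg _) (mul_nonneg hE
      (div_nonneg (mul_nonneg (P.pv_nonneg _ _ _ _) (P.pv_nonneg _ _ _ _)) (pj_nn P X X' Z w x y)))))
    (fun w hw => by
      have pp : 0 < pj P X X' Z w (X w) (X' w) := P.pv_self_pos Z (fun u => (X u, X' u)) hw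
      have w0 := wt_nn P X X' Z w
      have h2 := mul_le_mul_of_nonneg_right (hal w hw) (mul_nonneg hE w0)
      refine h2.trans (le_of_eq ?_)
      have e : (E * wt P X X' Z w ≤ 1) ↔
          (E * (P.pv Z X w (X w) * P.pv Z X' w (X' w)) ≤ pj P X X' Z w (X w) (X' w)) := by
        unfold wt
        rw [← mul_div_assoc, div_le_one pp]
      rw [propext e]
      unfold wt
      ring)
  refine h1.trans (P.E_mono fun w _ => ?_)
  rw [Finset.mul_sum]
  refine Finset.sum_le_sum fun x _ => ?_
  rw [Finset.mul_sum]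
  refine Finset.sum_le_sum fun y _ => ?_
  have k0 := mul_nonneg (kil_nn P Z V X w x) (kil_nn P Z V X' w y)
  have p0 := pj_nn P X X' Z w x y
  have q : pj P X X' Z w x y * (c w * (ind (E * (P.pv Z X w x * P.pv Z X' w y) ≤ pj P X X' Z w x y) *
        (E * (P.pv Z X w x * P.pv Z X' w y / pj P X X' Z w x y)))) ≤ c w * hker P X X' Z E w x y := by
    unfold hker
    rcases p0.eq_or_lt with h | h
    · rw [← h, zero_mul]
      exact mul_nonneg (c0 w) (mul_nonneg (ind_nonneg _) (mul_nonneg hE
        (mul_nonneg (P.pv_nonneg _ _ _ _) (P.pv_nonneg _ _ _ _))))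
    · refine le_of_eq ?_
      have := h.ne'
      field_simp
  have := mul_le_mul_of_nonneg_right q k0
  linarith

/-! ### births -/

/-- a value of positive conditional probability is taken -/
theorem pv_ne {κ : Type*} (F : Om → κ) {w : Om} {x : κ} (h : P.pv Z F w x ≠ 0) :
    ∃ u, P.p u ≠ 0 ∧ Z u = Z w ∧ F u = x := by
  by_contra hn
  push Not at hn
  refine h ?_
  have h1 : P.ce Z (fun u => ind (F u = x)) w = P.ce Z (fun u => ind (F u = x) * ind (Z u = Z w)) w := by
    have hf : Fac Z (fun u => ind (Z u = Z w)) := Fac.ind fun a b hab => by rw [hab]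
    rw [P.ce_mul' hf, ind_of rfl, mul_one]
  have h2 : P.ce Z (fun u => ind (F u = x) * ind (Z u = Z w)) w = P.ce Z (fun _ => 0) w := by
    refine P.ce_congr (fun u hu => ?_) w
    by_cases hz : Z u = Z w
    · rw [ind_not (hn u hu hz), zero_mul]
    · rw [ind_not hz, mul_zero]
  show P.ce Z (fun u => ind (F u = x)) w = 0
  rw [h1, h2]
  have := P.ce_smul Z 0 (fun _ => 1) w
  simpa using this

/-- a letter and its parent -/
theorem pv_child {κ κ1 : Type*} (X : Om → κ) (X1 : Om → κ1) (hX : Fac (fun u => (X1 u, Z u)) X) {w : Om} {x1 : κ1}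
    {x : κ} (h : ∃ u, Z u = Z w ∧ X1 u = x1 ∧ X u = x) :
    P.pv Z X1 w x1 = P.pv Z (fun u => (X1 u, X u)) w (x1, x) := by
  obtain ⟨u0, h1, h2, h3⟩ := h
  unfold FP.pv
  have hf : Fac Z (fun u => ind (Z u = Z w)) := Fac.ind fun a b hab => by rw [hab]
  have e : ∀ g : Om → ℝ, P.ce Z g w = P.ce Z (fun u => g u * ind (Z u = Z w)) w := by
    intro g
    rw [P.ce_mul' hf, ind_of rfl, mul_one]
  rw [e (fun u => ind (X1 u = x1)), e (fun u => ind ((X1 u, X u) = (x1, x)))]
  refine P.ce_congr (fun u hu => ?_) w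
  by_cases hz : Z u = Z w
  · congr 1
    refine congrArg ind (propext ?_)
    simp only [Prod.mk.injEq]
    constructor
    · intro hh
      refine ⟨hh, ?_⟩
      rw [← h3]
      exact hX u u0 (by simp only [Prod.mk.injEq]; exact ⟨hh.trans h2.symm, hz.trans h1.symm⟩)
    · exact fun hh => hh.1
  · rw [ind_not hz, mul_zero, mul_zero]

variable {κ1 ι1 : Type*} (X1 : Om → κ1) (X1' : Om → ι1)

/-- births: mean of the new weight -/
theorem ce_wt_le (hX : Fac (fun u => (X1 u, Z u)) X) (hX' : Fac (fun u => (X1' u, Z u)) X') {w : Om} (hw : P.p w ≠ 0) :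
    P.ce (fun u => ((X u, X' u), Z u)) (fun u => wt P X1 X1' Z u) w ≤ wt P X X' Z w := by
  set F : Om → κ × ι := fun u => (X u, X' u) with hF
  set F1 : Om → κ1 × ι1 := fun u => (X1 u, X1' u) with hF1
  have pp : 0 < pj P X X' Z w (X w) (X' w) := P.pv_self_pos Z F hw
  let G : Om → κ1 → ι1 → ℝ := fun w x y => P.pv Z X1 w x * P.pv Z X1' w y / pj P X1 X1' Z w x y
  have e0 : P.ce (fun u => (F u, Z u)) (fun u => wt P X1 X1' Z u) w =
      ∑ x ∈ vals X1, ∑ y ∈ vals X1', P.pv (fun u => (F u, Z u)) (fun u => (X1 u, X1' u)) w (x, y) * G w x y :=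
    (P.sum2 (N := fun u => (F u, Z u)) X1 X1' (F := G) (fun x y a b hab => by
      have hz : Z a = Z b := (Prod.mk.inj hab).2
      show P.pv Z X1 a x * P.pv Z X1' a y / pj P X1 X1' Z a x y = P.pv Z X1 b x * P.pv Z X1' b y / pj P X1 X1' Z b x y
      have h1 : pj P X1 X1' Z a x y = pj P X1 X1' Z b x y := pvc P _ hz (x, y)
      rw [h1, pvc P X1 hz x, pvc P X1' hz y]) w).symm
  rw [e0]
  unfold wt
  rw [le_div_iff₀ pp, Finset.sum_mul]
  have mx : P.pv Z X w (X w) = ∑ x ∈ vals X1, P.pv Z (fun u => (X1 u, X u)) w (x, X w) :=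
    (P.pv_marg Z (A := X) (B := X1) (C := fun u => (X1 u, X u)) (X w) (fun v => (v, X w))
      (fun u b => by simp only [Prod.mk.injEq]; exact and_comm) w).symm
  have my : P.pv Z X' w (X' w) = ∑ y ∈ vals X1', P.pv Z (fun u => (X1' u, X' u)) w (y, X' w) :=
    (P.pv_marg Z (A := X') (B := X1') (C := fun u => (X1' u, X' u)) (X' w) (fun v => (v, X' w))
      (fun u b => by simp only [Prod.mk.injEq]; exact and_comm) w).symm
  rw [mx, my, Finset.sum_mul_sum]
  refine Finset.sum_le_sum fun x _ => ?_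
  rw [Finset.sum_mul]
  refine Finset.sum_le_sum fun y _ => ?_
  -- one pair of children
  have J0 : P.pv (fun u => (F u, Z u)) F1 w (x, y) * pj P X X' Z w (X w) (X' w) =
      P.pv Z (fun u => (F1 u, F u)) w ((x, y), F w) := by
    have h1 := pv_V P Z F1 F hw (x, y)
    have h2 := yq_rr P Z F F1 w (x, y) (F w)
    have h3 : qy P Z F F1 w (x, y) (F w) = P.pv Z (fun u => (F1 u, F u)) w ((x, y), F w) := rfl
    have h4 : pj P X X' Z w (X w) (X' w) = P.pv Z F w (F w) := rfl
    rw [h1, h4, ← h3, ← h2]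
    ring
  have n1 := P.pv_nonneg Z (fun u => (X1 u, X u)) w (x, X w)
  have n2 := P.pv_nonneg Z (fun u => (X1' u, X' u)) w (y, X' w)
  have e1 : P.pv (fun u => (F u, Z u)) (fun u => (X1 u, X1' u)) w (x, y) * G w x y * pj P X X' Z w (X w) (X' w) =
      P.pv Z (fun u => (F1 u, F u)) w ((x, y), F w) * G w x y := by
    rw [← J0]
    ring
  rw [e1]
  by_cases hJ : P.pv Z (fun u => (F1 u, F u)) w ((x, y), F w) = 0
  · rw [hJ, zero_mul]
    exact mul_nonneg n1 n2
  · obtain ⟨u, hu, huz, hu1⟩ := pv_ne P Z (fun u => (F1 u, F u)) hJ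
    simp only [Prod.mk.injEq, hF1, hF] at hu1
    obtain ⟨⟨u1, u2⟩, u3, u4⟩ := hu1
    have c1 := pv_child P Z X X1 hX (w := w) (x1 := x) (x := X w) ⟨u, huz, u1, u3⟩
    have c2 := pv_child P Z X' X1' hX' (w := w) (x1 := y) (x := X' w) ⟨u, huz, u2, u4⟩
    have le1 : P.pv Z (fun u => (F1 u, F u)) w ((x, y), F w) ≤ pj P X1 X1' Z w x y :=
      qy_le_y P Z F F1 w (x, y) (F w)
    have J1 := P.pv_nonneg Z (fun u => (F1 u, F u)) w ((x, y), F w)
    have J2 : 0 < P.pv Z (fun u => (F1 u, F u)) w ((x, y), F w) := lt_of_le_of_ne J1 (Ne.symm hJ)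
    have p1 : 0 < pj P X1 X1' Z w x y := J2.trans_le le1
    show P.pv Z (fun u => (F1 u, F u)) w ((x, y), F w) * (P.pv Z X1 w x * P.pv Z X1' w y / pj P X1 X1' Z w x y) ≤ _
    rw [c1, c2, ← mul_div_assoc, div_le_iff₀ p1]
    have := mul_le_mul_of_nonneg_right le1 (mul_nonneg n1 n2)
    linarith

/-- **Lemma B, births** -/
theorem flxB_birth (hX : Fac (fun u => (X1 u, Z u)) X) (hX' : Fac (fun u => (X1' u, Z u)) X')
    {al : Om → ℝ} (hal : Fac (fun u => ((X u, X' u), Z u)) al) (h0 : ∀ w, 0 ≤ al w) {E : ℝ} (hE : 0 ≤ E) :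
    P.E (fun w => al w * min (E * wt P X1 X1' Z w) 1) ≤ P.E (fun w => al w * min (E * wt P X X' Z w) 1) := by
  rw [← P.E_mul_ce hal (fun w => min (E * wt P X1 X1' Z w) 1)]
  refine P.E_mono fun w hw => mul_le_mul_of_nonneg_left ?_ (h0 w)
  refine le_min ?_ ?_
  · have h1 : P.ce (fun u => ((X u, X' u), Z u)) (fun w => min (E * wt P X1 X1' Z w) 1) w ≤
        P.ce (fun u => ((X u, X' u), Z u)) (fun w => E * wt P X1 X1' Z w) w :=
      P.ce_mono (fun u _ => min_le_left _ _) w
    rw [P.ce_smul] at h1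
    exact h1.trans (mul_le_mul_of_nonneg_left (ce_wt_le P X X' Z X1 X1' hX hX' hw) hE)
  · exact P.ce_le_const (fun u _ => min_le_right _ _) hw

end prob

end Flx

end

end Pool.Agent.GMH
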