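import Pool.Agent.GMH.FluxB0
import Pool.Agent.GMH.FluxB1

/-!
# GMH/FluxB (helper35): LEMMA B of note 4069: a superhot true pair leaves by a real double rise or by the hybrid sum

One law `P`, states `G s` (increasing), letters `X s`, `Y s` (`(X (s+1), G (s+1))` determines `X s`: births), number `E`:
`wtc s = P(x|G) P(y|G) / P(x,y|G)` at the true pair, `ht s` : `E wtc s < 1`, `sht d s` : `E wtc s ≤ d` (superhot).
`acB d s` : there was a superhot time `≤ s` and the pair is hot from the first superhot time until `s`;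
* `acB_fac` : `acB d s` is a function of `((X s, Y s), G s)`;
* `flxB` : `(1 - d) P (ever superhot) ≤ P (acB d T) + ∑_s (E (1_acB E wtc kkc) + E (1_acB ompc))`;
* `flxB_split` : with a function `c s` of the state: on `c` the hybrid sum with the product kernel of `FluxS`.
-/

set_option autoImplicit false
set_option linter.unusedSectionVars false

namespace Pool.Agent.GMH.Flx

open Finset Pool.Agent.PWZ Pool.Agent.M3

noncomputable section

section two

variable {Om : Type*} [Fintype Om] (P : FP Om) {κ ι β γ : Type*}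

/-- a finer state which is named twice -/
theorem ce_twice {V : Om → γ} {Z : Om → β} (h : Fac V Z) (f : Om → ℝ) (w : Om) :
    P.ce (fun u => (V u, Z u)) f w = P.ce V f w := by
  unfold FP.ce
  have e1 : ∀ u, ((V u, Z u) = (V w, Z w)) = (V u = V w) := fun u => propext
    ⟨fun e => (Prod.mk.inj e).1, fun e => Prod.ext e (h u w e)⟩
  have e2 : P.m (fun u => (V u, Z u)) w = P.m V w :=
    P.m_congr (fun a b e => (Prod.mk.inj e).1) (fun a b e => Prod.ext e (h a b e)) w
  rw [e2]
  congr 1
  refine P.E_congr fun u _ => ?_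
  rw [e1]

theorem wt_twice (X : Om → κ) (X' : Om → ι) {V : Om → γ} {Z : Om → β} (h : Fac V Z) (w : Om) :
    wt P X X' (fun u => (V u, Z u)) w = wt P X X' V w := by
  unfold wt pj FP.pv
  simp only [ce_twice P h]

end two

variable {Om : Type*} [Fintype Om] (P : FP Om) {γ κ ι : ℕ → Type*}
variable (G : ∀ s, Om → γ s) (X : ∀ s, Om → κ s) (Y : ∀ s, Om → ι s)

/-- `P(x|G) P(y|G) / P(x,y|G)` at the true pair -/
def wtc (s : ℕ) (w : Om) : ℝ := wt P (X s) (Y s) (G s) w

/-- the hybrid sum of the step `s` at the true pair -/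
def kkc (s : ℕ) (w : Om) : ℝ := kk P (X s) (Y s) (G s) (G (s + 1)) w (X s w) (Y s w)

/-- the second order weight of the step `s` at the true additions -/
def ompc (s : ℕ) (w : Om) : ℝ := omp P (X s) (Y s) (G s) (G (s + 1)) w

/-- hot -/
def ht (E : ℝ) (s : ℕ) (w : Om) : Prop := E * wtc P G X Y s w < 1

/-- superhot -/
def sht (E d : ℝ) (s : ℕ) (w : Om) : Prop := E * wtc P G X Y s w ≤ d

/-- superhot once, hot since the first superhot time -/
def acB (E d : ℝ) : ℕ → Om → Prop := act (sht P G X Y E d) (ht P G X Y E)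

variable {G X Y}

theorem wtc_nn (s : ℕ) (w : Om) : 0 ≤ wtc P G X Y s w := wt_nn P _ _ _ w

theorem wtc_fac (s : ℕ) : Fac (fun w => ((X s w, Y s w), G s w)) (wtc P G X Y s) := fun a b e => by
  have h1 := (Prod.mk.inj e).1
  have h2 := (Prod.mk.inj e).2
  have h3 := (Prod.mk.inj h1).1
  have h4 := (Prod.mk.inj h1).2
  unfold wtc wt pj
  rw [pvc P (X s) h2, pvc P (Y s) h2, pvc P (fun u => (X s u, Y s u)) h2, h3, h4]

theorem ht_fac (E : ℝ) (s : ℕ) : Fac (fun w => ((X s w, Y s w), G s w)) (ht P G X Y E s) := fun a b e => by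
  show (E * wtc P G X Y s a < 1) = (E * wtc P G X Y s b < 1)
  rw [wtc_fac P s a b e]

theorem sht_fac (E d : ℝ) (s : ℕ) : Fac (fun w => ((X s w, Y s w), G s w)) (sht P G X Y E d s) := fun a b e => by
  show (E * wtc P G X Y s a ≤ d) = (E * wtc P G X Y s b ≤ d)
  rw [wtc_fac P s a b e]

variable (hG : ∀ s, Fac (G (s + 1)) (G s)) (hX : ∀ s, Fac (fun w => (X (s + 1) w, G (s + 1) w)) (X s))
  (hY : ∀ s, Fac (fun w => (Y (s + 1) w, G (s + 1) w)) (Y s))

include hG hX hY

/-- **the active event is known** -/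
theorem acB_fac (E d : ℝ) (s : ℕ) : Fac (fun w => ((X s w, Y s w), G s w)) (acB P G X Y E d s) :=
  act_fac (I := fun s w => ((X s w, Y s w), G s w)) (fun s a b e => by
    have h1 := (Prod.mk.inj e).1
    have h2 := (Prod.mk.inj e).2
    have h3 := (Prod.mk.inj h1).1
    have h4 := (Prod.mk.inj h1).2
    exact Prod.ext (Prod.ext (hX s a b (Prod.ext h3 h2)) (hY s a b (Prod.ext h4 h2))) (hG s a b h2))
    (sht_fac P E d) (ht_fac P E) s

/-- one step of Lemma B -/
theorem flxB_one {E : ℝ} (hE : 0 ≤ E) (d : ℝ) (s : ℕ) :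
    P.E (fun w => ind (acB P G X Y E d s w) * (min (E * wtc P G X Y (s + 1) w) 1 - min (E * wtc P G X Y s w) 1)) ≤
      P.E (fun w => ind (acB P G X Y E d s w) * (E * wtc P G X Y s w * kkc P G X Y s w)) +
        P.E (fun w => ind (acB P G X Y E d s w) * ompc P G X Y s w) := by
  have fal : Fac (fun u => ((X s u, Y s u), G s u)) (fun w => ind (acB P G X Y E d s w)) :=
    (acB_fac P hG hX hY E d s).comp fun q => ind q
  have fal' : Fac (fun u => ((X s u, Y s u), G (s + 1) u)) (fun w => ind (acB P G X Y E d s w)) := fun a b e =>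
    fal a b (Prod.ext (Prod.mk.inj e).1 (hG s a b (Prod.mk.inj e).2))
  have b1 := flxB_birth P (X s) (Y s) (G (s + 1)) (X (s + 1)) (Y (s + 1)) (hX s) (hY s) fal' (fun w => ind_nonneg _) hE
  have b2 := flxB_step P (X s) (Y s) (G s) (G (s + 1)) fal (fun w => ind_nonneg _) hE
  have e1 : ∀ w, wt P (X s) (Y s) (fun u => (G (s + 1) u, G s u)) w = wt P (X s) (Y s) (G (s + 1)) w := fun w =>
    wt_twice P (X s) (Y s) (hG s) w
  simp only [e1] at b2
  have e2 : P.E (fun w => ind (acB P G X Y E d s w) * (min (E * wtc P G X Y (s + 1) w) 1 -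
      min (E * wtc P G X Y s w) 1)) = P.E (fun w => ind (acB P G X Y E d s w) * min (E * wtc P G X Y (s + 1) w) 1) -
      P.E (fun w => ind (acB P G X Y E d s w) * (E * wtc P G X Y s w)) := by
    rw [← P.E_sub]
    refine P.E_congr fun w _ => ?_
    by_cases h : acB P G X Y E d s w
    · have h1 : E * wtc P G X Y s w < 1 := act_hot h
      rw [ind_of h, min_eq_left h1.le]
      ring
    · rw [ind_not h]
      ring
  have e3 : P.E (fun w => ind (acB P G X Y E d s w) * (E * wt P (X s) (Y s) (G s) w *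
      (1 + kk P (X s) (Y s) (G s) (G (s + 1)) w (X s w) (Y s w)))) =
      P.E (fun w => ind (acB P G X Y E d s w) * (E * wtc P G X Y s w)) +
      P.E (fun w => ind (acB P G X Y E d s w) * (E * wtc P G X Y s w * kkc P G X Y s w)) := by
    rw [← P.E_add]
    refine P.E_congr fun w _ => ?_
    show _ * (E * wtc P G X Y s w * (1 + kkc P G X Y s w)) = _
    ring
  rw [e3] at b2
  rw [e2]
  have b3 : P.E (fun w => ind (acB P G X Y E d s w) * min (E * wtc P G X Y (s + 1) w) 1) ≤
      P.E (fun w => ind (acB P G X Y E d s w) * (E * wtc P G X Y s w)) +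
      P.E (fun w => ind (acB P G X Y E d s w) * (E * wtc P G X Y s w * kkc P G X Y s w)) +
      P.E (fun w => ind (acB P G X Y E d s w) * ompc P G X Y s w) := b1.trans b2
  linarith

/-- **LEMMA B** -/
theorem flxB {E d : ℝ} (hE : 0 ≤ E) (hd1 : d < 1) (T : ℕ) :
    (1 - d) * P.Pr (fun w => ∃ s ≤ T, sht P G X Y E d s w) ≤ P.Pr (acB P G X Y E d T) +
      ∑ s ∈ range T, (P.E (fun w => ind (acB P G X Y E d s w) * (E * wtc P G X Y s w * kkc P G X Y s w)) +
        P.E (fun w => ind (acB P G X Y E d s w) * ompc P G X Y s w)) := by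
  have h1 := tel P (sh := sht P G X Y E d) (hot := ht P G X Y E) (g := fun s w => min (E * wtc P G X Y s w) 1) (d := d)
    (fun w _ s => le_min (mul_nonneg hE (wtc_nn P s w)) zero_le_one)
    (fun w _ s hs => lt_of_le_of_lt hs hd1)
    (fun w _ s hn => le_min (not_lt.1 hn) le_rfl)
    (fun w _ s hs => (min_le_left _ _).trans hs) T
  refine h1.trans ?_
  have h2 : ∑ s ∈ range T, P.E (fun w => ind (act (sht P G X Y E d) (ht P G X Y E) s w) *
      (min (E * wtc P G X Y (s + 1) w) 1 - min (E * wtc P G X Y s w) 1)) ≤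
      ∑ s ∈ range T, (P.E (fun w => ind (acB P G X Y E d s w) * (E * wtc P G X Y s w * kkc P G X Y s w)) +
        P.E (fun w => ind (acB P G X Y E d s w) * ompc P G X Y s w)) :=
    Finset.sum_le_sum fun s _ => flxB_one P hG hX hY hE d s
  have h3 : P.Pr (act (sht P G X Y E d) (ht P G X Y E) T) = P.Pr (acB P G X Y E d T) := rfl
  rw [h3]
  linarith

omit hG hX hY in
/-- **the hybrid sum, split by a function of the state** : on `c` the product kernel of `FluxS` -/
theorem flxB_split {E d : ℝ} (hE : 0 ≤ E) (s : ℕ) {c : Om → Prop} (hc : Fac (G s) c) :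
    P.E (fun w => ind (acB P G X Y E d s w) * (E * wtc P G X Y s w * kkc P G X Y s w)) ≤
      P.E (fun w => ind (c w) * ∑ x ∈ vals (X s), ∑ y ∈ vals (Y s), hker P (X s) (Y s) (G s) E w x y *
        (kil P (G s) (G (s + 1)) (X s) w x * kil P (G s) (G (s + 1)) (Y s) w y)) +
      P.E (fun w => ind (acB P G X Y E d s w ∧ ¬ c w) * (E * wtc P G X Y s w * kkc P G X Y s w)) := by
  have e1 : P.E (fun w => ind (acB P G X Y E d s w) * (E * wtc P G X Y s w * kkc P G X Y s w)) =
      P.E (fun w => ind (acB P G X Y E d s w ∧ c w) * (E * wtc P G X Y s w * kkc P G X Y s w)) +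
      P.E (fun w => ind (acB P G X Y E d s w ∧ ¬ c w) * (E * wtc P G X Y s w * kkc P G X Y s w)) := by
    rw [← P.E_add]
    refine P.E_congr fun w _ => ?_
    by_cases h : acB P G X Y E d s w
    · by_cases h' : c w
      · rw [ind_of h, ind_of ⟨h, h'⟩, ind_not fun q => q.2 h']
        ring
      · rw [ind_of h, ind_not fun q => h' q.2, ind_of ⟨h, h'⟩]
        ring
    · rw [ind_not h, ind_not fun q => h q.1, ind_not fun q => h q.1]
      ring
  rw [e1]
  have h1 := flxB_hker P (X s) (Y s) (G s) (G (s + 1)) (al := fun w => ind (acB P G X Y E d s w ∧ c w))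
    (c := fun w => ind (c w)) hE (hc.comp fun q => ind q) (fun w => ind_nonneg _) (fun w _ => by
      by_cases h : acB P G X Y E d s w ∧ c w
      · have h2 : E * wt P (X s) (Y s) (G s) w ≤ 1 := le_of_lt (act_hot h.1)
        rw [ind_of h, ind_of h.2, ind_of h2]
        norm_num
      · rw [ind_not h]
        exact mul_nonneg (ind_nonneg _) (ind_nonneg _))
  exact add_le_add h1 le_rfl

end

end Pool.Agent.GMH.Flx
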