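import Pool.Agent.GMH.FluxS

/-!
# GMH/FluxB0 (helper35): telescoping of Lemma B of note 4069, from the first start to the exit

`sh s` = start (superhot), `hot s` = not yet left, `g s` with `g ≤ d` at starts and `1 ≤ g` outside of `hot`;
* `nst s` : first start at the time `s`; `act s` : started, not left since the first start;
* `tel` : `(1 - d) P (some start before T) ≤ P (act T) + ∑_s E (1_(act s) (g (s+1) - g s))`;
* `act_fac` : `act s` is a function of the information of the time `s` if `sh`, `hot` are and the information increases.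
-/

set_option autoImplicit false
set_option linter.unusedSectionVars false

namespace Pool.Agent.GMH.Flx

open Finset Pool.Agent.PWZ Pool.Agent.M3

noncomputable section

variable {Om : Type*} (sh hot : ℕ → Om → Prop)

/-- the first start is at the time `s` -/
def nst (s : ℕ) (w : Om) : Prop := sh s w ∧ ∀ r < s, ¬ sh r w

/-- started, not left since the first start -/
def act (s : ℕ) (w : Om) : Prop := ∃ r ≤ s, nst sh r w ∧ ∀ q, r ≤ q → q ≤ s → hot q w

variable {sh hot}

theorem act_hot {s : ℕ} {w : Om} (ha : act sh hot s w) : hot s w := by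
  obtain ⟨r, hr, _, h1⟩ := ha
  exact h1 s hr le_rfl

theorem act_st {s : ℕ} {w : Om} (ha : act sh hot s w) : ∃ r ≤ s, sh r w := by
  obtain ⟨r, hr, h1, _⟩ := ha
  exact ⟨r, hr, h1.1⟩

/-- the next time, a new start -/
theorem act_new {s : ℕ} {w : Om} (h1 : sh s w) (h2 : ∀ r < s, ¬ sh r w) (h3 : hot s w) : act sh hot s w :=
  ⟨s, le_rfl, ⟨h1, h2⟩, fun q a b => by rw [show q = s by omega]; exact h3⟩

/-- the next time, no new start -/
theorem act_succ {s : ℕ} {w : Om} (hn : ¬ nst sh (s + 1) w) : act sh hot (s + 1) w ↔ act sh hot s w ∧ hot (s + 1) w := by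
  constructor
  · rintro ⟨r, hr, h1, h2⟩
    have hne : r ≠ s + 1 := fun e => hn (e ▸ h1)
    exact ⟨⟨r, by omega, h1, fun q a b => h2 q a (by omega)⟩, h2 (s + 1) hr le_rfl⟩
  · rintro ⟨⟨r, hr, h1, h2⟩, h3⟩
    refine ⟨r, by omega, h1, fun q a b => ?_⟩
    rcases Nat.lt_or_ge q (s + 1) with h | h
    · exact h2 q a (by omega)
    · rw [show q = s + 1 by omega]
      exact h3

/-- no start before the first start -/
theorem not_act {s : ℕ} {w : Om} (h2 : ∀ r ≤ s, ¬ sh r w) : ¬ act sh hot s w := by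
  rintro ⟨r, hr, h1, _⟩
  exact h2 r hr h1.1

/-- **telescoping at one point** -/
theorem tel_pt {g : ℕ → Om → ℝ} {d : ℝ} {w : Om} (hs : ∀ s, sh s w → hot s w) (hg : ∀ s, ¬ hot s w → 1 ≤ g s w)
    (hd : ∀ s, sh s w → g s w ≤ d) (T : ℕ) :
    (1 - d) * ind (∃ s ≤ T, sh s w) ≤ ind (act sh hot T w) * (1 - g T w) +
      ∑ s ∈ range T, ind (act sh hot s w) * (g (s + 1) w - g s w) := by
  classical
  induction T with
  | zero =>
    by_cases h : sh 0 w
    · have h1 : act sh hot 0 w := act_new h (fun r hr => absurd hr (by omega)) (hs 0 h)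
      have := hd 0 h
      rw [ind_of h1, ind_of ⟨0, le_rfl, h⟩]
      simp only [range_zero, sum_empty, one_mul, mul_one, add_zero]
      linarith
    · have h1 : ¬ ∃ s ≤ 0, sh s w := by
        rintro ⟨s, hs0, h2⟩
        rw [show s = 0 by omega] at h2
        exact h h2
      have h2 : ¬ act sh hot 0 w := not_act fun r hr => by rw [show r = 0 by omega]; exact h
      rw [ind_not h1, ind_not h2]
      simp
  | succ T ih =>
    rw [Finset.sum_range_succ]
    by_cases hn : nst sh (T + 1) w
    · have e1 : ¬ ∃ s ≤ T, sh s w := by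
        rintro ⟨s, hs0, h2⟩
        exact hn.2 s (by omega) h2
      have e2 : ¬ act sh hot T w := fun h => e1 (act_st h)
      have e3 : act sh hot (T + 1) w := act_new hn.1 hn.2 (hs _ hn.1)
      rw [ind_not e1, ind_not e2] at ih
      rw [ind_of (⟨T + 1, le_rfl, hn.1⟩ : ∃ s ≤ T + 1, sh s w), ind_of e3, ind_not e2]
      have := hd _ hn.1
      simp only [mul_zero, zero_mul, zero_add] at ih
      linarith
    · have e1 : (∃ s ≤ T + 1, sh s w) ↔ ∃ s ≤ T, sh s w := by
        refine ⟨?_, fun ⟨s, a, b⟩ => ⟨s, by omega, b⟩⟩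
        rintro ⟨s, a, b⟩
        rcases Nat.lt_or_ge s (T + 1) with h | h
        · exact ⟨s, by omega, b⟩
        · have hs' : s = T + 1 := by omega
          subst hs'
          by_contra hcon
          exact hn ⟨b, fun r hr hr' => hcon ⟨r, by omega, hr'⟩⟩
      rw [propext e1]
      refine ih.trans ?_
      have key : ind (act sh hot T w) * (1 - g T w) ≤ ind (act sh hot (T + 1) w) * (1 - g (T + 1) w) +
          ind (act sh hot T w) * (g (T + 1) w - g T w) := by
        rw [propext (act_succ hn)]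
        by_cases h1 : act sh hot T w
        · by_cases h2 : hot (T + 1) w
          · rw [ind_of h1, ind_of ⟨h1, h2⟩]
            linarith
          · have := hg _ h2
            rw [ind_of h1, ind_not fun h => h2 h.2]
            linarith
        · rw [ind_not h1, ind_not fun h => h1 h.1]
          simp
      linarith

variable [Fintype Om] (P : FP Om)

/-- **telescoping in the mean** -/
theorem tel {g : ℕ → Om → ℝ} {d : ℝ} (h0 : ∀ w, P.p w ≠ 0 → ∀ s, 0 ≤ g s w) (hs : ∀ w, P.p w ≠ 0 → ∀ s, sh s w → hot s w)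
    (hg : ∀ w, P.p w ≠ 0 → ∀ s, ¬ hot s w → 1 ≤ g s w) (hd : ∀ w, P.p w ≠ 0 → ∀ s, sh s w → g s w ≤ d) (T : ℕ) :
    (1 - d) * P.Pr (fun w => ∃ s ≤ T, sh s w) ≤ P.Pr (act sh hot T) +
      ∑ s ∈ range T, P.E (fun w => ind (act sh hot s w) * (g (s + 1) w - g s w)) := by
  unfold FP.Pr
  rw [← P.E_smul, ← FP.E_sum, ← P.E_add]
  refine P.E_mono fun w hw => (tel_pt (hs w hw) (hg w hw) (hd w hw) T).trans ?_
  have h1 := h0 w hw T
  have h2 := ind_nonneg (act sh hot T w)
  nlinarith

/-! ### information -/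

/-- started and not left is a function of the information -/
theorem act_fac {ι : ℕ → Type*} {I : ∀ s, Om → ι s} (hI : ∀ s, Fac (I (s + 1)) (I s)) (h1 : ∀ s, Fac (I s) (sh s))
    (h2 : ∀ s, Fac (I s) (hot s)) (s : ℕ) : Fac (I s) (act sh hot s) := by
  have hm : ∀ r s, r ≤ s → Fac (I s) (I r) := by
    intro r s hrs
    induction s with
    | zero => rw [show r = 0 by omega]; exact fun a b e => e
    | succ s ih =>
      rcases Nat.lt_or_ge r (s + 1) with h | h
      · exact fun a b e => ih (by omega) a b (hI s a b e)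
      · rw [show r = s + 1 by omega]; exact fun a b e => e
  intro a b e
  have e1 : ∀ r ≤ s, sh r a = sh r b := fun r hr => h1 r a b (hm r s hr a b e)
  have e2 : ∀ r ≤ s, hot r a = hot r b := fun r hr => h2 r a b (hm r s hr a b e)
  refine propext ⟨?_, ?_⟩
  · rintro ⟨r, hr, ⟨k1, k2⟩, k3⟩
    refine ⟨r, hr, ⟨(e1 r hr) ▸ k1, fun r' hr' h => k2 r' hr' ((e1 r' (by omega)) ▸ h)⟩, fun q qa qb => (e2 q qb) ▸ k3 q qa qb⟩
  · rintro ⟨r, hr, ⟨k1, k2⟩, k3⟩
    refine ⟨r, hr, ⟨(e1 r hr).symm ▸ k1, fun r' hr' h => k2 r' hr' ((e1 r' (by omega)).symm ▸ h)⟩,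
      fun q qa qb => (e2 q qb).symm ▸ k3 q qa qb⟩

end

end Pool.Agent.GMH.Flx
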