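import Pool.Agent.GMH.FluxS

/-!
# GMH.FluxI: Schur's test for the killed pairs of one step, mean over the points (note 4069 (1)(i), (ii); helper9)

* `schurE`, `schurE_kill` : any kernel with light rows and columns, weights `u, v` or the killed parts at the true additions;
* `flux_not_hot` : bad - bad pairs with `p ≤ E mx my`, bad masses `≤ q` : `E q (gains)`;
* `flux_row`, `flux_col` : the pairs of a relation `H` in a row (column) of conditional mass `< th` : `th^(1/2) (gains)`.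
-/

set_option autoImplicit false
set_option linter.unusedSectionVars false
set_option linter.unusedVariables false

namespace Pool.Agent.GMH

open Finset Pool.Agent.PWZ Pool.Agent.M3

noncomputable section

namespace Flx

section prob

variable {Om : Type*} [Fintype Om] (P : FP Om) {κ ι β γ : Type*} (X : Om → κ) (X' : Om → ι) (Z : Om → β) (V : Om → γ)

/-- Schur's test in the mean -/
theorem schurE {al : Om → ℝ} (h0 : ∀ w, 0 ≤ al w) {K : Om → κ → ι → ℝ} {a b : ℝ} (ha : 0 ≤ a) (hb : 0 ≤ b)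
    {N : Om → Prop} (hK : ∀ w, P.p w ≠ 0 → N w → ∀ x ∈ vals X, ∀ y ∈ vals X', 0 ≤ K w x y)
    (hr : ∀ w, P.p w ≠ 0 → N w → ∀ x ∈ vals X, ∑ y ∈ vals X', K w x y ≤ a * P.pv Z X w x)
    (hc : ∀ w, P.p w ≠ 0 → N w → ∀ y ∈ vals X', ∑ x ∈ vals X, K w x y ≤ b * P.pv Z X' w y)
    (u : Om → κ → ℝ) (v : Om → ι → ℝ) :
    P.E (fun w => al w * (ind (N w) * ∑ x ∈ vals X, ∑ y ∈ vals X', K w x y * (u w x * v w y))) ≤
      Real.sqrt (a * b) * Real.sqrt (P.E (fun w => al w * ∑ x ∈ vals X, P.pv Z X w x * u w x ^ 2) *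
        P.E (fun w => al w * ∑ y ∈ vals X', P.pv Z X' w y * v w y ^ 2)) := by
  have hA : ∀ w, 0 ≤ ∑ x ∈ vals X, P.pv Z X w x * u w x ^ 2 := fun w =>
    Finset.sum_nonneg fun x _ => mul_nonneg (P.pv_nonneg _ _ _ _) (sq_nonneg _)
  have hB : ∀ w, 0 ≤ ∑ y ∈ vals X', P.pv Z X' w y * v w y ^ 2 := fun w =>
    Finset.sum_nonneg fun y _ => mul_nonneg (P.pv_nonneg _ _ _ _) (sq_nonneg _)
  have h1 : P.E (fun w => al w * (ind (N w) * ∑ x ∈ vals X, ∑ y ∈ vals X', K w x y * (u w x * v w y))) ≤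
      P.E (fun w => Real.sqrt (a * b) * (al w * Real.sqrt ((∑ x ∈ vals X, P.pv Z X w x * u w x ^ 2) *
        ∑ y ∈ vals X', P.pv Z X' w y * v w y ^ 2))) := by
    refine P.E_mono fun w hw => ?_
    have q : ind (N w) * ∑ x ∈ vals X, ∑ y ∈ vals X', K w x y * (u w x * v w y) ≤
        Real.sqrt (a * b) * Real.sqrt ((∑ x ∈ vals X, P.pv Z X w x * u w x ^ 2) *
          ∑ y ∈ vals X', P.pv Z X' w y * v w y ^ 2) := by
      by_cases h : N w
      · rw [ind_of h, one_mul]
        exact schur2 (hK w hw h) ha hb (hr w hw h) (hc w hw h) (u w) (v w)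
      · rw [ind_not h, zero_mul]
        positivity
    have := mul_le_mul_of_nonneg_left q (h0 w)
    linarith
  rw [P.E_smul] at h1
  exact h1.trans (mul_le_mul_of_nonneg_left (E_cs P h0 hA hB) (Real.sqrt_nonneg _))

/-- the two second moments of the killed parts -/
theorem kil_two {al : Om → ℝ} (h0 : ∀ w, 0 ≤ al w) (h1 : ∀ w, al w ≤ 1) :
    Real.sqrt (P.E (fun w => al w * ∑ x ∈ vals X, P.pv Z X w x * kil P Z V X w x ^ 2) *
      P.E (fun w => al w * ∑ y ∈ vals X', P.pv Z X' w y * kil P Z V X' w y ^ 2)) ≤ gn P Z X V + gn P Z X' V := by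
  have a := kil_gn P Z V X h0 h1
  have b := kil_gn P Z V X' h0 h1
  have g1 := gn_nn P Z X V
  have g2 := gn_nn P Z X' V
  have a0 : 0 ≤ P.E (fun w => al w * ∑ x ∈ vals X, P.pv Z X w x * kil P Z V X w x ^ 2) := P.E_nonneg fun w _ =>
    mul_nonneg (h0 w) (Finset.sum_nonneg fun x _ => mul_nonneg (P.pv_nonneg _ _ _ _) (sq_nonneg _))
  have b0 : 0 ≤ P.E (fun w => al w * ∑ x ∈ vals X', P.pv Z X' w x * kil P Z V X' w x ^ 2) := P.E_nonneg fun w _ =>
    mul_nonneg (h0 w) (Finset.sum_nonneg fun x _ => mul_nonneg (P.pv_nonneg _ _ _ _) (sq_nonneg _))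
  refine Real.sqrt_le_iff.2 ⟨by linarith, ?_⟩
  have := mul_le_mul a b b0 (by linarith)
  nlinarith [sq_nonneg (gn P Z X V - gn P Z X' V)]

theorem schurE_kill {al : Om → ℝ} (h0 : ∀ w, 0 ≤ al w) (h1 : ∀ w, al w ≤ 1) {K : Om → κ → ι → ℝ} {a b : ℝ}
    (ha : 0 ≤ a) (hb : 0 ≤ b) {N : Om → Prop}
    (hK : ∀ w, P.p w ≠ 0 → N w → ∀ x ∈ vals X, ∀ y ∈ vals X', 0 ≤ K w x y)
    (hr : ∀ w, P.p w ≠ 0 → N w → ∀ x ∈ vals X, ∑ y ∈ vals X', K w x y ≤ a * P.pv Z X w x)
    (hc : ∀ w, P.p w ≠ 0 → N w → ∀ y ∈ vals X', ∑ x ∈ vals X, K w x y ≤ b * P.pv Z X' w y) :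
    P.E (fun w => al w * (ind (N w) * ∑ x ∈ vals X, ∑ y ∈ vals X', K w x y *
      (kil P Z V X w x * kil P Z V X' w y))) ≤ Real.sqrt (a * b) * (gn P Z X V + gn P Z X' V) :=
  (schurE P X X' Z h0 ha hb hK hr hc _ _).trans
    (mul_le_mul_of_nonneg_left (kil_two P X X' Z V h0 h1) (Real.sqrt_nonneg _))

/-- bad - bad pairs which are not hot -/
theorem flux_not_hot {al : Om → ℝ} (h0 : ∀ w, 0 ≤ al w) (h1 : ∀ w, al w ≤ 1) {E q : ℝ} (hE : 0 ≤ E) (hq : 0 ≤ q)
    {N : Om → Prop} {Bx : Om → κ → Prop} {By : Om → ι → Prop}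
    (hx : ∀ w, P.p w ≠ 0 → N w → ∑ x ∈ vals X, ind (Bx w x) * P.pv Z X w x ≤ q)
    (hy : ∀ w, P.p w ≠ 0 → N w → ∑ y ∈ vals X', ind (By w y) * P.pv Z X' w y ≤ q) :
    P.E (fun w => al w * (ind (N w) * ∑ x ∈ vals X, ∑ y ∈ vals X',
      ind (Bx w x ∧ By w y ∧ pj P X X' Z w x y ≤ E * (P.pv Z X w x * P.pv Z X' w y)) * pj P X X' Z w x y *
        (kil P Z V X w x * kil P Z V X' w y))) ≤ E * q * (gn P Z X V + gn P Z X' V) := by
  have hEq : 0 ≤ E * q := mul_nonneg hE hq
  have pp : ∀ w x y, ind (Bx w x ∧ By w y ∧ pj P X X' Z w x y ≤ E * (P.pv Z X w x * P.pv Z X' w y)) * pj P X X' Z w x y ≤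
      (ind (Bx w x) * P.pv Z X w x) * (E * (ind (By w y) * P.pv Z X' w y)) := by
    intro w x y
    have m1 := P.pv_nonneg Z X w x
    have m2 := P.pv_nonneg Z X' w y
    by_cases h : Bx w x ∧ By w y ∧ pj P X X' Z w x y ≤ E * (P.pv Z X w x * P.pv Z X' w y)
    · rw [ind_of h, ind_of h.1, ind_of h.2.1]
      have := h.2.2
      linarith
    · rw [ind_not h, zero_mul]
      exact mul_nonneg (mul_nonneg (ind_nonneg _) m1) (mul_nonneg hE (mul_nonneg (ind_nonneg _) m2))
  have key := schurE_kill P X X' Z V h0 h1 (K := fun w x y =>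
      ind (Bx w x ∧ By w y ∧ pj P X X' Z w x y ≤ E * (P.pv Z X w x * P.pv Z X' w y)) * pj P X X' Z w x y)
    hEq hEq (N := N) (fun w _ _ x _ y _ => mul_nonneg (ind_nonneg _) (pj_nn P X X' Z w x y))
    (fun w hw hN x _ => by
      refine (Finset.sum_le_sum fun y _ => pp w x y).trans ?_
      rw [← Finset.mul_sum, ← Finset.mul_sum]
      have m1 := P.pv_nonneg Z X w x
      have b1 : ind (Bx w x) * P.pv Z X w x ≤ P.pv Z X w x := mul_le_of_le_one_left m1 (ind_le_one _)
      have b2 := mul_le_mul_of_nonneg_left (hy w hw hN) hE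
      have b3 : 0 ≤ E * ∑ y ∈ vals X', ind (By w y) * P.pv Z X' w y := mul_nonneg hE
        (Finset.sum_nonneg fun y _ => mul_nonneg (ind_nonneg _) (P.pv_nonneg _ _ _ _))
      calc _ ≤ P.pv Z X w x * (E * ∑ y ∈ vals X', ind (By w y) * P.pv Z X' w y) := mul_le_mul_of_nonneg_right b1 b3
        _ ≤ P.pv Z X w x * (E * q) := mul_le_mul_of_nonneg_left b2 m1
        _ = _ := by ring)
    (fun w hw hN y _ => by
      refine (Finset.sum_le_sum fun x _ => pp w x y).trans ?_
      rw [← Finset.sum_mul]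
      have m1 := P.pv_nonneg Z X' w y
      have b1 : E * (ind (By w y) * P.pv Z X' w y) ≤ E * P.pv Z X' w y :=
        mul_le_mul_of_nonneg_left (mul_le_of_le_one_left m1 (ind_le_one _)) hE
      have b3 : 0 ≤ ∑ x ∈ vals X, ind (Bx w x) * P.pv Z X w x :=
        Finset.sum_nonneg fun x _ => mul_nonneg (ind_nonneg _) (P.pv_nonneg _ _ _ _)
      calc _ ≤ (∑ x ∈ vals X, ind (Bx w x) * P.pv Z X w x) * (E * P.pv Z X' w y) := mul_le_mul_of_nonneg_left b1 b3
        _ ≤ q * (E * P.pv Z X' w y) := mul_le_mul_of_nonneg_right (hx w hw hN) (mul_nonneg hE m1)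
        _ = _ := by ring)
  rw [Real.sqrt_mul_self hEq] at key
  exact key

/-- the conditional mass of a relation in a row -/
def rowm (H : Om → κ → ι → Prop) (w : Om) (x : κ) : ℝ := ∑ y ∈ vals X', ind (H w x y) * pj P X X' Z w x y

/-- the conditional mass of a relation in a column -/
def colm (H : Om → κ → ι → Prop) (w : Om) (y : ι) : ℝ := ∑ x ∈ vals X, ind (H w x y) * pj P X X' Z w x y

/-- pairs in light rows -/
theorem flux_row {al : Om → ℝ} (h0 : ∀ w, 0 ≤ al w) (h1 : ∀ w, al w ≤ 1) {th : ℝ} (hth : 0 ≤ th)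
    (H : Om → κ → ι → Prop) :
    P.E (fun w => al w * ∑ x ∈ vals X, ∑ y ∈ vals X',
      ind (H w x y ∧ rowm P X X' Z H w x < th * P.pv Z X w x) * pj P X X' Z w x y *
        (kil P Z V X w x * kil P Z V X' w y)) ≤ Real.sqrt th * (gn P Z X V + gn P Z X' V) := by
  have key := schurE_kill P X X' Z V h0 h1 (K := fun w x y =>
      ind (H w x y ∧ rowm P X X' Z H w x < th * P.pv Z X w x) * pj P X X' Z w x y)
    hth zero_le_one (N := fun _ => True) (fun w _ _ x _ y _ => mul_nonneg (ind_nonneg _) (pj_nn P X X' Z w x y))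
    (fun w _ _ x _ => by
      by_cases h : rowm P X X' Z H w x < th * P.pv Z X w x
      · refine le_trans (Finset.sum_le_sum fun y _ => ?_) h.le
        exact mul_le_mul_of_nonneg_right (ind_mono fun h => h.1) (pj_nn P X X' Z w x y)
      · have : ∑ y ∈ vals X', ind (H w x y ∧ rowm P X X' Z H w x < th * P.pv Z X w x) * pj P X X' Z w x y = 0 :=
          Finset.sum_eq_zero fun y _ => by rw [ind_not (fun h1 => h h1.2), zero_mul]
        rw [this]
        exact mul_nonneg hth (P.pv_nonneg _ _ _ _))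
    (fun w _ _ y _ => by
      rw [one_mul, ← pj_col P X X' Z w y]
      exact Finset.sum_le_sum fun x _ => mul_le_of_le_one_left (pj_nn P X X' Z w x y) (ind_le_one _))
  have e : ∀ w, ind True * ∑ x ∈ vals X, ∑ y ∈ vals X',
      ind (H w x y ∧ rowm P X X' Z H w x < th * P.pv Z X w x) * pj P X X' Z w x y *
        (kil P Z V X w x * kil P Z V X' w y) = ∑ x ∈ vals X, ∑ y ∈ vals X',
      ind (H w x y ∧ rowm P X X' Z H w x < th * P.pv Z X w x) * pj P X X' Z w x y *
        (kil P Z V X w x * kil P Z V X' w y) := fun w => by rw [ind_of trivial, one_mul]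
  simp only [e, mul_one] at key
  exact key

/-- pairs in light columns -/
theorem flux_col {al : Om → ℝ} (h0 : ∀ w, 0 ≤ al w) (h1 : ∀ w, al w ≤ 1) {th : ℝ} (hth : 0 ≤ th)
    (H : Om → κ → ι → Prop) :
    P.E (fun w => al w * ∑ x ∈ vals X, ∑ y ∈ vals X',
      ind (H w x y ∧ colm P X X' Z H w y < th * P.pv Z X' w y) * pj P X X' Z w x y *
        (kil P Z V X w x * kil P Z V X' w y)) ≤ Real.sqrt th * (gn P Z X V + gn P Z X' V) := by
  have key := schurE_kill P X X' Z V h0 h1 (K := fun w x y =>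
      ind (H w x y ∧ colm P X X' Z H w y < th * P.pv Z X' w y) * pj P X X' Z w x y)
    zero_le_one hth (N := fun _ => True) (fun w _ _ x _ y _ => mul_nonneg (ind_nonneg _) (pj_nn P X X' Z w x y))
    (fun w _ _ x _ => by
      rw [one_mul, ← pj_row P X X' Z w x]
      exact Finset.sum_le_sum fun y _ => mul_le_of_le_one_left (pj_nn P X X' Z w x y) (ind_le_one _))
    (fun w _ _ y _ => by
      by_cases h : colm P X X' Z H w y < th * P.pv Z X' w y
      · refine le_trans (Finset.sum_le_sum fun x _ => ?_) h.le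
        exact mul_le_mul_of_nonneg_right (ind_mono fun h => h.1) (pj_nn P X X' Z w x y)
      · have : ∑ x ∈ vals X, ind (H w x y ∧ colm P X X' Z H w y < th * P.pv Z X' w y) * pj P X X' Z w x y = 0 :=
          Finset.sum_eq_zero fun x _ => by rw [ind_not (fun h1 => h h1.2), zero_mul]
        rw [this]
        exact mul_nonneg hth (P.pv_nonneg _ _ _ _))
  have e : ∀ w, ind True * ∑ x ∈ vals X, ∑ y ∈ vals X',
      ind (H w x y ∧ colm P X X' Z H w y < th * P.pv Z X' w y) * pj P X X' Z w x y *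
        (kil P Z V X w x * kil P Z V X' w y) = ∑ x ∈ vals X, ∑ y ∈ vals X',
      ind (H w x y ∧ colm P X X' Z H w y < th * P.pv Z X' w y) * pj P X X' Z w x y *
        (kil P Z V X w x * kil P Z V X' w y) := fun w => by rw [ind_of trivial, one_mul]
  simp only [e, one_mul] at key
  exact key

end prob

end Flx

end

end Pool.Agent.GMH
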