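import Pool.Agent.GMH.FluxB1

/-!
# GMH.FluxL: LINEAR EXITS (cure (c) of note 4069 (3), helper84; helper9)

One step `Z → (V, Z)`, letters `X`, `X'` of the tops, `H` = hot relation of the OLD state
(`E P(x|Z) P(y|Z) ≤ P(x,y|Z)`), `hotx` = `P(H(X, X') | X, Z)`.
* `evt_dual` : `∑_A q r log θ - (θ - 1) ∑_A q ≤ ∑ q hphi r`;
* `lin_exit1` : one law: `h ≤ 8 KL(y | x) + 4 KL(y) + 4 dev`;
* `lin_exit` : `E[al hotx] ≤ 8 gn P (X, Z) X' V + 4 gn P Z X' V + 4 E[al devH]`, `devH` = how much more the new state sees of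
  the old hot row given `X` than without `X`;
* `gn_cond_le` : `gn P (X, Z) X' V` is at most the joint gain.
-/

set_option autoImplicit false
set_option linter.unusedSectionVars false
set_option linter.unusedVariables false

namespace Pool.Agent.GMH

open Finset Pool.Agent.PWZ Pool.Agent.M3

noncomputable section

namespace Flx

/-- tangent of `hphi` at `t` -/
theorem hphi_dual {t r : ℝ} (ht : 0 < t) (hr : 0 ≤ r) : r * Real.log t - (t - 1) ≤ hphi r := by
  unfold hphi
  rcases hr.eq_or_lt with h | h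
  · rw [← h]
    simp only [zero_mul]
    linarith
  · have h1 := Real.log_le_sub_one_of_pos (show 0 < t / r by positivity)
    rw [Real.log_div ht.ne' h.ne'] at h1
    have h2 := mul_le_mul_of_nonneg_left h1 h.le
    have h3 : r * (t / r - 1) = t - r := by
      field_simp
    rw [h3] at h2
    linarith

section fin

variable {ι : Type*} {sy : Finset ι}

/-- an event and the relative entropy -/
theorem evt_dual {q r : ι → ℝ} (hq : ∀ y ∈ sy, 0 ≤ q y) (hr : ∀ y ∈ sy, 0 ≤ r y) (A : ι → Prop) {t : ℝ} (ht : 0 < t) :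
    (∑ y ∈ sy, ind (A y) * (q y * r y)) * Real.log t - (t - 1) * ∑ y ∈ sy, ind (A y) * q y ≤
      ∑ y ∈ sy, q y * hphi (r y) := by
  rw [Finset.sum_mul, Finset.mul_sum, ← Finset.sum_sub_distrib]
  refine Finset.sum_le_sum fun y hy => ?_
  have h0 := hq y hy
  by_cases h : A y
  · rw [ind_of h]
    have := mul_le_mul_of_nonneg_left (hphi_dual ht (hr y hy)) h0
    linarith
  · rw [ind_not h]
    have := mul_nonneg h0 (hphi_nonneg (hr y hy))
    linarith

/-- one law: `a, ra` = law of `y` given `x` and ratio, `b, rb` = law of `y` and ratio, `A` = the hot row of `x` -/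
theorem lin_exit1 {a ra b rb : ι → ℝ} (ha : ∀ y ∈ sy, 0 ≤ a y) (hra : ∀ y ∈ sy, 0 ≤ ra y) (hb : ∀ y ∈ sy, 0 ≤ b y)
    (hrb : ∀ y ∈ sy, 0 ≤ rb y) (A : ι → Prop) {E : ℝ} (hE : 4 * Real.exp 2 ≤ E)
    (hot : E * ∑ y ∈ sy, ind (A y) * b y ≤ ∑ y ∈ sy, ind (A y) * a y) :
    ∑ y ∈ sy, ind (A y) * a y ≤ 8 * ∑ y ∈ sy, a y * hphi (ra y) + 4 * ∑ y ∈ sy, b y * hphi (rb y) +
      4 * max (∑ y ∈ sy, ind (A y) * (a y * ra y) - ∑ y ∈ sy, ind (A y) * (b y * rb y)) 0 := by
  set h := ∑ y ∈ sy, ind (A y) * a y with hh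
  set h' := ∑ y ∈ sy, ind (A y) * (a y * ra y) with hh'
  set k := ∑ y ∈ sy, ind (A y) * b y with hk
  set k' := ∑ y ∈ sy, ind (A y) * (b y * rb y) with hk'
  have h0 : 0 ≤ h := Finset.sum_nonneg fun y hy => mul_nonneg (ind_nonneg _) (ha y hy)
  have k0 : 0 ≤ k := Finset.sum_nonneg fun y hy => mul_nonneg (ind_nonneg _) (hb y hy)
  have A0 : 0 ≤ ∑ y ∈ sy, a y * hphi (ra y) :=
    Finset.sum_nonneg fun y hy => mul_nonneg (ha y hy) (hphi_nonneg (hra y hy))
  have B0 : 0 ≤ ∑ y ∈ sy, b y * hphi (rb y) :=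
    Finset.sum_nonneg fun y hy => mul_nonneg (hb y hy) (hphi_nonneg (hrb y hy))
  have M0 : 0 ≤ max (h' - k') 0 := le_max_right _ _
  have M1 : h' - k' ≤ max (h' - k') 0 := le_max_left _ _
  by_cases c1 : h' ≤ h / 2
  · have := evt_dual ha hra A (t := 1 / 2) (by norm_num)
    rw [← hh, ← hh'] at this
    have l2 : Real.log (1 / 2) = - Real.log 2 := by
      rw [one_div, Real.log_inv]
    have l3 := Real.log_two_lt_d9
    have l4 : 0 < Real.log 2 := Real.log_pos (by norm_num)
    rw [l2] at this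
    have l5 : h' * Real.log 2 ≤ h / 2 * Real.log 2 := mul_le_mul_of_nonneg_right c1 l4.le
    have l6 : h * Real.log 2 ≤ h * 0.6931471808 := mul_le_mul_of_nonneg_left l3.le h0
    nlinarith
  · push Not at c1
    by_cases c2 : h / 4 ≤ k'
    · have E0 : 0 < E := lt_of_lt_of_le (by positivity) hE
      have hE' : E / 4 ≥ Real.exp 2 := by linarith
      have hlog : 2 ≤ Real.log (E / 4) := by
        rw [Real.le_log_iff_exp_le (by positivity)]
        exact hE'
      have := evt_dual hb hrb A (t := E / 4) (by positivity)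
      rw [← hk, ← hk'] at this
      have l1 : h / 4 * 2 ≤ k' * Real.log (E / 4) :=
        mul_le_mul c2 hlog (by norm_num) (le_trans (by positivity) c2)
      have l2 : (E / 4 - 1) * k ≤ h / 4 := by nlinarith
      linarith
    · push Not at c2
      linarith

end fin

section prob

variable {Om : Type*} [Fintype Om] (P : FP Om) {κ ι β γ : Type*} (X : Om → κ) (X' : Om → ι) (Z : Om → β) (V : Om → γ)

/-- the mass of the row of the true `X`, old state -/
def hotx (H : Om → κ → ι → Prop) (w : Om) : ℝ :=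
  ∑ y ∈ vals X', ind (H w (X w) y) * P.pv (fun u => (X u, Z u)) X' w y

/-- how much more of the row the new state sees given `X` than without `X` -/
def devH (H : Om → κ → ι → Prop) (w : Om) : ℝ :=
  max (∑ y ∈ vals X', ind (H w (X w) y) * P.pv (fun u => (V u, (X u, Z u))) X' w y -
    ∑ y ∈ vals X', ind (H w (X w) y) * P.pv (fun u => (V u, Z u)) X' w y) 0

theorem hotx_nn (H : Om → κ → ι → Prop) (w : Om) : 0 ≤ hotx P X X' Z H w :=
  Finset.sum_nonneg fun y _ => mul_nonneg (ind_nonneg _) (P.pv_nonneg _ _ _ _)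

theorem devH_nn (H : Om → κ → ι → Prop) (w : Om) : 0 ≤ devH P X X' Z V H w := le_max_right _ _

/-- the row mass is a conditional probability -/
theorem hotx_ce {H : Om → κ → ι → Prop} (hH : ∀ a b, Z a = Z b → ∀ x y, (H a x y ↔ H b x y)) (w : Om) :
    hotx P X X' Z H w = P.ce (fun u => (X u, Z u)) (fun u => ind (H u (X u) (X' u))) w := by
  have := P.sum_pv (W := fun u => (X u, Z u)) X' (F := fun w y => ind (H w (X w) y)) (fun y a b hab => by
    simp only [Prod.mk.injEq] at hab
    show ind (H a (X a) y) = ind (H b (X b) y)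
    rw [hab.1, propext (hH a b hab.2 (X b) y)]) w
  rw [← this]
  exact Finset.sum_congr rfl fun y _ => mul_comm _ _

/-- bound of the deviation by the distance of the new state to the product -/
theorem devH_le (H : Om → κ → ι → Prop) (w : Om) :
    devH P X X' Z V H w ≤ ∑ y ∈ vals X', |P.pv (fun u => (V u, (X u, Z u))) X' w y - P.pv (fun u => (V u, Z u)) X' w y| := by
  refine max_le ?_ (Finset.sum_nonneg fun y _ => abs_nonneg _)
  rw [← Finset.sum_sub_distrib]
  refine Finset.sum_le_sum fun y _ => ?_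
  rw [← mul_sub]
  by_cases h : H w (X w) y
  · rw [ind_of h, one_mul]
    exact le_abs_self _
  · rw [ind_not h, zero_mul]
    exact abs_nonneg _

/-- the deviation is at most the new row mass -/
theorem devH_le_new (H : Om → κ → ι → Prop) (w : Om) :
    devH P X X' Z V H w ≤ ∑ y ∈ vals X', ind (H w (X w) y) * P.pv (fun u => (V u, (X u, Z u))) X' w y := by
  have h1 : 0 ≤ ∑ y ∈ vals X', ind (H w (X w) y) * P.pv (fun u => (V u, (X u, Z u))) X' w y :=
    Finset.sum_nonneg fun y _ => mul_nonneg (ind_nonneg _) (P.pv_nonneg _ _ _ _)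
  have h2 : 0 ≤ ∑ y ∈ vals X', ind (H w (X w) y) * P.pv (fun u => (V u, Z u)) X' w y :=
    Finset.sum_nonneg fun y _ => mul_nonneg (ind_nonneg _) (P.pv_nonneg _ _ _ _)
  exact max_le (by linarith) h1

/-- **LINEAR EXITS at one point** -/
theorem lin_exit_w {E : ℝ} (hE : 4 * Real.exp 2 ≤ E) {H : Om → κ → ι → Prop} {w : Om} (hw : P.p w ≠ 0)
    (hH : ∀ y ∈ vals X', H w (X w) y → E * (P.pv Z X w (X w) * P.pv Z X' w y) ≤ pj P X X' Z w (X w) y) :
    hotx P X X' Z H w ≤ 8 * ∑ y ∈ vals X', P.pv (fun u => (X u, Z u)) X' w y *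
        hphi (rr P (fun u => (X u, Z u)) X' V w (V w) y) +
      4 * ∑ y ∈ vals X', P.pv Z X' w y * hphi (rr P Z X' V w (V w) y) + 4 * devH P X X' Z V H w := by
  set ZX : Om → κ × β := fun u => (X u, Z u) with hZX
  have mx := P.pv_self_pos Z X hw
  -- the ratios at the true additions
  have e1 : ∀ y, P.pv ZX X' w y * rr P ZX X' V w (V w) y = P.pv (fun u => (V u, ZX u)) X' w y := by
    intro y
    have h := real_r P ZX X' V hw y
    by_cases h0 : P.pv ZX X' w y = 0
    · rw [h0, zero_mul]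
      exact (P.pv_ac (fun a b hab => (Prod.mk.inj hab).2) X' h0).symm
    · rw [← h]
      field_simp
  have e2 : ∀ y, P.pv Z X' w y * rr P Z X' V w (V w) y = P.pv (fun u => (V u, Z u)) X' w y := by
    intro y
    have h := real_r P Z X' V hw y
    by_cases h0 : P.pv Z X' w y = 0
    · rw [h0, zero_mul]
      exact (P.pv_ac (fun a b hab => (Prod.mk.inj hab).2) X' h0).symm
    · rw [← h]
      field_simp
  -- the conditional law
  have e3 : ∀ y, P.pv Z X w (X w) * P.pv ZX X' w y = pj P X X' Z w (X w) y := by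
    intro y
    have h := pv_V P Z X' X hw y
    have h2 := yq_rr P Z X X' w y (X w)
    have h3 : qy P Z X X' w y (X w) = P.pv Z (fun u => (X' u, X u)) w (y, X w) := rfl
    have h4 : P.pv Z (fun u => (X' u, X u)) w (y, X w) = P.pv Z (fun u => (X u, X' u)) w (X w, y) := by
      unfold FP.pv
      refine congrArg (fun g => P.ce Z g w) ?_
      funext u
      refine congrArg ind (propext ?_)
      simp only [Prod.mk.injEq]
      exact and_comm
    show P.pv Z X w (X w) * P.pv (fun u => (X u, Z u)) X' w y = P.pv Z (fun u => (X u, X' u)) w (X w, y)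
    rw [h, ← h4, ← h3, ← h2]
    ring
  have key := lin_exit1 (sy := vals X') (a := fun y => P.pv ZX X' w y) (ra := fun y => rr P ZX X' V w (V w) y)
    (b := fun y => P.pv Z X' w y) (rb := fun y => rr P Z X' V w (V w) y) (fun y _ => P.pv_nonneg _ _ _ _)
    (fun y _ => rr_nn P ZX X' V w _ y) (fun y _ => P.pv_nonneg _ _ _ _) (fun y _ => rr_nn P Z X' V w _ y)
    (fun y => H w (X w) y) hE (by
      rw [Finset.mul_sum]
      refine Finset.sum_le_sum fun y hy => ?_
      by_cases h : H w (X w) y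
      · rw [ind_of h, one_mul, one_mul]
        have h1 := hH y hy h
        rw [← e3 y] at h1
        have h2 : P.pv Z X w (X w) * (E * P.pv Z X' w y) ≤ P.pv Z X w (X w) * P.pv ZX X' w y := by linarith
        exact le_of_mul_le_mul_left h2 mx
      · rw [ind_not h]
        simp)
  have s1 : ∑ y ∈ vals X', ind (H w (X w) y) * (P.pv ZX X' w y * rr P ZX X' V w (V w) y) =
      ∑ y ∈ vals X', ind (H w (X w) y) * P.pv (fun u => (V u, ZX u)) X' w y :=
    Finset.sum_congr rfl fun y _ => by rw [e1 y]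
  have s2 : ∑ y ∈ vals X', ind (H w (X w) y) * (P.pv Z X' w y * rr P Z X' V w (V w) y) =
      ∑ y ∈ vals X', ind (H w (X w) y) * P.pv (fun u => (V u, Z u)) X' w y :=
    Finset.sum_congr rfl fun y _ => by rw [e2 y]
  rw [s1, s2] at key
  exact key

/-- gain as a mean at the true additions -/
theorem gn_real {κ : Type*} (X : Om → κ) : gn P Z X V = P.E (fun w => ∑ x ∈ vals X, P.pv Z X w x *
    hphi (rr P Z X V w (V w) x)) := by
  have := E_real P V (W := Z) (f := fun w y => ∑ x ∈ vals X, P.pv Z X w x * hphi (rr P Z X V w y x))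
    (fun y a b hab => by
      show ∑ x ∈ vals X, P.pv Z X a x * hphi (rr P Z X V a y x) = ∑ x ∈ vals X, P.pv Z X b x * hphi (rr P Z X V b y x)
      refine Finset.sum_congr rfl fun x _ => ?_
      rw [pvc P X hab x, rrc P X V hab y x])
  rw [this]
  unfold gn
  refine P.E_congr fun w _ => Finset.sum_congr rfl fun y _ => ?_
  rw [Finset.mul_sum]

/-- **LINEAR EXITS, one step** -/
theorem lin_exit {al : Om → ℝ} (h0 : ∀ w, 0 ≤ al w) (h1 : ∀ w, al w ≤ 1) {E : ℝ} (hE : 4 * Real.exp 2 ≤ E)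
    {H : Om → κ → ι → Prop} (hH : ∀ w, P.p w ≠ 0 → al w ≠ 0 → ∀ y ∈ vals X', H w (X w) y →
      E * (P.pv Z X w (X w) * P.pv Z X' w y) ≤ pj P X X' Z w (X w) y) :
    P.E (fun w => al w * hotx P X X' Z H w) ≤ 8 * gn P (fun u => (X u, Z u)) X' V + 4 * gn P Z X' V +
      4 * P.E (fun w => al w * devH P X X' Z V H w) := by
  rw [gn_real P (fun u => (X u, Z u)) V X', gn_real P Z V X', ← P.E_smul, ← P.E_smul, ← P.E_smul, ← P.E_add, ← P.E_add]
  refine P.E_mono fun w hw => ?_
  have A0 : 0 ≤ ∑ y ∈ vals X', P.pv (fun u => (X u, Z u)) X' w y *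
        hphi (rr P (fun u => (X u, Z u)) X' V w (V w) y) :=
    Finset.sum_nonneg fun y _ => mul_nonneg (P.pv_nonneg _ _ _ _) (hphi_nonneg (rr_nn P _ X' V w _ y))
  have B0 : 0 ≤ ∑ y ∈ vals X', P.pv Z X' w y * hphi (rr P Z X' V w (V w) y) :=
    Finset.sum_nonneg fun y _ => mul_nonneg (P.pv_nonneg _ _ _ _) (hphi_nonneg (rr_nn P _ X' V w _ y))
  by_cases ha : al w = 0
  · rw [ha]
    simp only [zero_mul, mul_zero, add_zero]
    linarith
  · have key := mul_le_mul_of_nonneg_left (lin_exit_w P X X' Z V hE hw (hH w hw ha)) (h0 w)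
    have a1 := mul_le_of_le_one_left A0 (h1 w)
    have a2 := mul_le_of_le_one_left B0 (h1 w)
    linarith

/-- the conditional gain is at most the joint gain -/
theorem gn_cond_le {φ : Type*} {F : Om → φ} (h : Fac (fun u => (F u, Z u)) (fun u => (X' u, X u))) :
    gn P (fun u => (X u, Z u)) X' V ≤ gn P Z F V := by
  rw [gn_eq, gn_eq, P.I_comm V X', P.I_comm V F]
  have h1 := P.I_chain X' X V Z
  have h2 := P.I_nonneg X V Z
  have h3 := P.I_mono V (X := F) (X' := fun u => (X' u, X u)) (Z := Z) h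
  linarith

/-- the gain of one letter is at most the joint gain -/
theorem gn_fac_le {φ : Type*} {F : Om → φ} (h : Fac (fun u => (F u, Z u)) X') : gn P Z X' V ≤ gn P Z F V := by
  rw [gn_eq, gn_eq, P.I_comm V X', P.I_comm V F]
  exact P.I_mono V (X := F) (X' := X') (Z := Z) h

end prob

end Flx

end

end Pool.Agent.GMH
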