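import Pool.Agent.GMH.Key3

/-!
# GMH.FluxS: the hot pairs at one point of the thin letters, product kernel (row F5d of HARM(3), note 4069 (2); helper9)

One law `p` of two tops with marginals `mx`, `my` (all thin letters given), `e^psi = p / (mx my)`.  The kernel
`1[p ≥ E mx my] E mx my` (`E = e^a`) has norm at most `1/E + 3 th^(1/2)` on `L^2(mx) × L^2(my)`, if the mass of
`{p ≥ E mx my}` is less than `th^2 / E^2` (the point is not in `R0`):
* deep pairs `p ≥ E^2 mx my` : the kernel is at most `p / E`;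
* window, rows or columns of window mass `< th` : Schur;
* the other rows and columns: the letters `y` with window mass `≥ th` have `my`-mass `< th / E^2`.
`fluxS` : the inequality, `fluxS_tv` : the same from the distance `∑ |p - mx my|`, `fluxS_E` : mean over the points.
-/

set_option autoImplicit false
set_option linter.unusedSectionVars false
set_option linter.unusedVariables false

namespace Pool.Agent.GMH

open Finset Pool.Agent.PWZ Pool.Agent.M3

noncomputable section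

namespace Flx

section fin

variable {κ ι : Type*} {sx : Finset κ} {sy : Finset ι}

/-- Cauchy-Schwarz with a kernel -/
theorem cs2 {k : κ → ι → ℝ} (hk : ∀ x ∈ sx, ∀ y ∈ sy, 0 ≤ k x y) (u : κ → ℝ) (v : ι → ℝ) :
    ∑ x ∈ sx, ∑ y ∈ sy, k x y * (u x * v y) ≤
      Real.sqrt ((∑ x ∈ sx, (∑ y ∈ sy, k x y) * u x ^ 2) * ∑ y ∈ sy, (∑ x ∈ sx, k x y) * v y ^ 2) := by
  classical
  have e0 : ∑ x ∈ sx, ∑ y ∈ sy, k x y * (u x * v y) =
      ∑ z ∈ sx ×ˢ sy, (Real.sqrt (k z.1 z.2) * u z.1) * (Real.sqrt (k z.1 z.2) * v z.2) := by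
    rw [Finset.sum_product]
    refine Finset.sum_congr rfl fun x hx => Finset.sum_congr rfl fun y hy => ?_
    have := Real.mul_self_sqrt (hk x hx y hy)
    calc k x y * (u x * v y) = (Real.sqrt (k x y) * Real.sqrt (k x y)) * (u x * v y) := by rw [this]
      _ = _ := by ring
  have e1 : ∑ z ∈ sx ×ˢ sy, (Real.sqrt (k z.1 z.2) * u z.1) ^ 2 = ∑ x ∈ sx, (∑ y ∈ sy, k x y) * u x ^ 2 := by
    rw [Finset.sum_product]
    refine Finset.sum_congr rfl fun x hx => ?_
    rw [Finset.sum_mul]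
    refine Finset.sum_congr rfl fun y hy => ?_
    rw [mul_pow, Real.sq_sqrt (hk x hx y hy)]
  have e2 : ∑ z ∈ sx ×ˢ sy, (Real.sqrt (k z.1 z.2) * v z.2) ^ 2 = ∑ y ∈ sy, (∑ x ∈ sx, k x y) * v y ^ 2 := by
    rw [Finset.sum_product_right]
    refine Finset.sum_congr rfl fun y hy => ?_
    rw [Finset.sum_mul]
    refine Finset.sum_congr rfl fun x hx => ?_
    rw [mul_pow, Real.sq_sqrt (hk x hx y hy)]
  rw [e0]
  refine Real.le_sqrt_of_sq_le ?_
  rw [← e1, ← e2]
  exact Finset.sum_mul_sq_le_sq_mul_sq _ _ _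

/-- Schur's test -/
theorem schur2 {k : κ → ι → ℝ} {mx : κ → ℝ} {my : ι → ℝ} {al be : ℝ} (hk : ∀ x ∈ sx, ∀ y ∈ sy, 0 ≤ k x y)
    (hal : 0 ≤ al) (hbe : 0 ≤ be) (hr : ∀ x ∈ sx, ∑ y ∈ sy, k x y ≤ al * mx x)
    (hc : ∀ y ∈ sy, ∑ x ∈ sx, k x y ≤ be * my y) (u : κ → ℝ) (v : ι → ℝ) :
    ∑ x ∈ sx, ∑ y ∈ sy, k x y * (u x * v y) ≤
      Real.sqrt (al * be) * Real.sqrt ((∑ x ∈ sx, mx x * u x ^ 2) * ∑ y ∈ sy, my y * v y ^ 2) := by
  refine (cs2 hk u v).trans ?_
  rw [← Real.sqrt_mul (mul_nonneg hal hbe)]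
  refine Real.sqrt_le_sqrt ?_
  have h1 : ∑ x ∈ sx, (∑ y ∈ sy, k x y) * u x ^ 2 ≤ al * ∑ x ∈ sx, mx x * u x ^ 2 := by
    rw [Finset.mul_sum]
    refine Finset.sum_le_sum fun x hx => ?_
    have := mul_le_mul_of_nonneg_right (hr x hx) (sq_nonneg (u x))
    linarith
  have h2 : ∑ y ∈ sy, (∑ x ∈ sx, k x y) * v y ^ 2 ≤ be * ∑ y ∈ sy, my y * v y ^ 2 := by
    rw [Finset.mul_sum]
    refine Finset.sum_le_sum fun y hy => ?_
    have := mul_le_mul_of_nonneg_right (hc y hy) (sq_nonneg (v y))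
    linarith
  have h3 : 0 ≤ ∑ x ∈ sx, (∑ y ∈ sy, k x y) * u x ^ 2 :=
    Finset.sum_nonneg fun x hx => mul_nonneg (Finset.sum_nonneg fun y hy => hk x hx y hy) (sq_nonneg _)
  have h4 : 0 ≤ ∑ y ∈ sy, (∑ x ∈ sx, k x y) * v y ^ 2 :=
    Finset.sum_nonneg fun y hy => mul_nonneg (Finset.sum_nonneg fun x hx => hk x hx y hy) (sq_nonneg _)
  calc _ ≤ (al * ∑ x ∈ sx, mx x * u x ^ 2) * (be * ∑ y ∈ sy, my y * v y ^ 2) :=
        mul_le_mul h1 h2 h4 (h3.trans h1)
    _ = _ := by ring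

/-- **the hot pairs at one point** : product kernel -/
theorem fluxS {p : κ → ι → ℝ} {mx : κ → ℝ} {my : ι → ℝ} {E th : ℝ} (hp : ∀ x ∈ sx, ∀ y ∈ sy, 0 ≤ p x y)
    (hmx : ∀ x ∈ sx, ∑ y ∈ sy, p x y = mx x) (hmy : ∀ y ∈ sy, ∑ x ∈ sx, p x y = my y)
    (hE : 1 ≤ E) (hth : 0 < th) (hth1 : th ≤ 1)
    (hR : ∑ x ∈ sx, ∑ y ∈ sy, ind (E * (mx x * my y) ≤ p x y) * p x y < th ^ 2 / E ^ 2)
    {u : κ → ℝ} {v : ι → ℝ} (hu : ∀ x ∈ sx, 0 ≤ u x) (hv : ∀ y ∈ sy, 0 ≤ v y) :
    ∑ x ∈ sx, ∑ y ∈ sy, ind (E * (mx x * my y) ≤ p x y) * (E * (mx x * my y)) * (u x * v y) ≤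
      (1 / E + 3 * Real.sqrt th) * Real.sqrt ((∑ x ∈ sx, mx x * u x ^ 2) * ∑ y ∈ sy, my y * v y ^ 2) := by
  classical
  have hE0 : 0 < E := by linarith
  have mx0 : ∀ x ∈ sx, 0 ≤ mx x := fun x hx => by rw [← hmx x hx]; exact Finset.sum_nonneg fun y hy => hp x hx y hy
  have my0 : ∀ y ∈ sy, 0 ≤ my y := fun y hy => by rw [← hmy y hy]; exact Finset.sum_nonneg fun x hx => hp x hx y hy
  set N := Real.sqrt ((∑ x ∈ sx, mx x * u x ^ 2) * ∑ y ∈ sy, my y * v y ^ 2) with hN
  -- window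
  let W : κ → ι → Prop := fun x y => E * (mx x * my y) ≤ p x y ∧ p x y < E ^ 2 * (mx x * my y)
  let r : κ → ℝ := fun x => ∑ y ∈ sy, ind (W x y) * p x y
  let c : ι → ℝ := fun y => ∑ x ∈ sx, ind (W x y) * p x y
  have wp : ∀ x ∈ sx, ∀ y ∈ sy, 0 ≤ ind (W x y) * p x y := fun x hx y hy => mul_nonneg (ind_nonneg _) (hp x hx y hy)
  have wle : ∀ x ∈ sx, ∀ y ∈ sy, ind (W x y) * p x y ≤ p x y := fun x hx y hy =>
    mul_le_of_le_one_left (hp x hx y hy) (ind_le_one _)
  -- four kernels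
  let k0 : κ → ι → ℝ := fun x y => p x y
  let k1 : κ → ι → ℝ := fun x y => ind (r x < th * mx x) * (ind (W x y) * p x y)
  let k2 : κ → ι → ℝ := fun x y => ind (c y < th * my y) * (ind (W x y) * p x y)
  let k3 : κ → ι → ℝ := fun x y => ind (¬ c y < th * my y) * (ind (W x y) * p x y)
  have split : ∀ x ∈ sx, ∀ y ∈ sy, ind (E * (mx x * my y) ≤ p x y) * (E * (mx x * my y)) ≤
      1 / E * k0 x y + (k1 x y + k2 x y + k3 x y) := by
    intro x hx y hy
    have p0 := hp x hx y hy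
    have m0 := mul_nonneg (mx0 x hx) (my0 y hy)
    have a1 : 0 ≤ k1 x y := mul_nonneg (ind_nonneg _) (wp x hx y hy)
    have a0 : 0 ≤ 1 / E * k0 x y := mul_nonneg (by positivity) p0
    have a23 : k2 x y + k3 x y = ind (W x y) * p x y := by
      show ind (c y < th * my y) * (ind (W x y) * p x y) + ind (¬ c y < th * my y) * (ind (W x y) * p x y) = _
      by_cases h : c y < th * my y
      · rw [ind_of h, ind_not (not_not.2 h)]
        ring
      · rw [ind_not h, ind_of h]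
        ring
    have a4 := wp x hx y hy
    by_cases h1 : E * (mx x * my y) ≤ p x y
    · rw [ind_of h1, one_mul]
      by_cases h2 : p x y < E ^ 2 * (mx x * my y)
      · have hW : W x y := ⟨h1, h2⟩
        have : ind (W x y) * p x y = p x y := by rw [ind_of hW, one_mul]
        linarith
      · push Not at h2
        have h3 : E * (mx x * my y) ≤ 1 / E * k0 x y := by
          show E * (mx x * my y) ≤ 1 / E * p x y
          rw [one_div, ← div_eq_inv_mul, le_div_iff₀ hE0]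
          nlinarith
        linarith
    · rw [ind_not h1, zero_mul]
      linarith
  -- the sums
  have t0 : ∑ x ∈ sx, ∑ y ∈ sy, k0 x y * (u x * v y) ≤ N := by
    have := schur2 (al := 1) (be := 1) (mx := mx) (my := my) (k := k0) hp zero_le_one zero_le_one
      (fun x hx => by rw [one_mul]; exact le_of_eq (hmx x hx)) (fun y hy => by rw [one_mul]; exact le_of_eq (hmy y hy)) u v
    simpa using this
  have t1 : ∑ x ∈ sx, ∑ y ∈ sy, k1 x y * (u x * v y) ≤ Real.sqrt th * N := by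
    have := schur2 (al := th) (be := 1) (mx := mx) (my := my) (k := k1)
      (fun x hx y hy => mul_nonneg (ind_nonneg _) (wp x hx y hy)) hth.le zero_le_one
      (fun x hx => by
        show ∑ y ∈ sy, ind (r x < th * mx x) * (ind (W x y) * p x y) ≤ _
        rw [← Finset.mul_sum]
        by_cases h : r x < th * mx x
        · rw [ind_of h, one_mul]
          exact h.le
        · rw [ind_not h, zero_mul]
          exact mul_nonneg hth.le (mx0 x hx))
      (fun y hy => by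
        rw [one_mul, ← hmy y hy]
        refine Finset.sum_le_sum fun x hx => ?_
        exact (mul_le_of_le_one_left (wp x hx y hy) (ind_le_one _)).trans (wle x hx y hy)) u v
    rw [mul_one] at this
    exact this
  have t2 : ∑ x ∈ sx, ∑ y ∈ sy, k2 x y * (u x * v y) ≤ Real.sqrt th * N := by
    have := schur2 (al := 1) (be := th) (mx := mx) (my := my) (k := k2)
      (fun x hx y hy => mul_nonneg (ind_nonneg _) (wp x hx y hy)) zero_le_one hth.le
      (fun x hx => by
        rw [one_mul, ← hmx x hx]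
        refine Finset.sum_le_sum fun y hy => ?_
        exact (mul_le_of_le_one_left (wp x hx y hy) (ind_le_one _)).trans (wle x hx y hy))
      (fun y hy => by
        show ∑ x ∈ sx, ind (c y < th * my y) * (ind (W x y) * p x y) ≤ _
        rw [← Finset.mul_sum]
        by_cases h : c y < th * my y
        · rw [ind_of h, one_mul]
          exact h.le
        · rw [ind_not h, zero_mul]
          exact mul_nonneg hth.le (my0 y hy)) u v
    rw [one_mul] at this
    exact this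
  -- the heavy columns have small mass
  have hY : E ^ 2 * ∑ y ∈ sy, ind (¬ c y < th * my y) * my y ≤ th := by
    have b1 : th * ∑ y ∈ sy, ind (¬ c y < th * my y) * my y ≤
        ∑ x ∈ sx, ∑ y ∈ sy, ind (E * (mx x * my y) ≤ p x y) * p x y := by
      rw [Finset.mul_sum, Finset.sum_comm]
      refine Finset.sum_le_sum fun y hy => ?_
      by_cases h : c y < th * my y
      · rw [ind_not (not_not.2 h)]
        have : 0 ≤ ∑ x ∈ sx, ind (E * (mx x * my y) ≤ p x y) * p x y :=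
          Finset.sum_nonneg fun x hx => mul_nonneg (ind_nonneg _) (hp x hx y hy)
        simpa using this
      · rw [ind_of h, one_mul]
        push Not at h
        refine h.trans (Finset.sum_le_sum fun x hx => ?_)
        refine mul_le_mul_of_nonneg_right ?_ (hp x hx y hy)
        by_cases hW : W x y
        · rw [ind_of hW, ind_of hW.1]
        · rw [ind_not hW]
          exact ind_nonneg _
    have b2 : th * ∑ y ∈ sy, ind (¬ c y < th * my y) * my y ≤ th ^ 2 / E ^ 2 := b1.trans hR.le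
    rw [le_div_iff₀ (by positivity)] at b2
    have b3 : th * (E ^ 2 * ∑ y ∈ sy, ind (¬ c y < th * my y) * my y) ≤ th * th := by nlinarith
    exact le_of_mul_le_mul_left b3 hth
  have t3 : ∑ x ∈ sx, ∑ y ∈ sy, k3 x y * (u x * v y) ≤ Real.sqrt th * N := by
    have := schur2 (al := th) (be := 1) (mx := mx) (my := my) (k := k3)
      (fun x hx y hy => mul_nonneg (ind_nonneg _) (wp x hx y hy)) hth.le zero_le_one
      (fun x hx => by
        have : ∑ y ∈ sy, k3 x y ≤ mx x * (E ^ 2 * ∑ y ∈ sy, ind (¬ c y < th * my y) * my y) := by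
          rw [Finset.mul_sum, Finset.mul_sum]
          refine Finset.sum_le_sum fun y hy => ?_
          show ind (¬ c y < th * my y) * (ind (W x y) * p x y) ≤ mx x * (E ^ 2 * (ind (¬ c y < th * my y) * my y))
          have q : ind (W x y) * p x y ≤ E ^ 2 * (mx x * my y) := by
            by_cases hW : W x y
            · rw [ind_of hW, one_mul]
              exact hW.2.le
            · rw [ind_not hW, zero_mul]
              exact mul_nonneg (by positivity) (mul_nonneg (mx0 x hx) (my0 y hy))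
          have := mul_le_mul_of_nonneg_left q (ind_nonneg (¬ c y < th * my y))
          linarith
        refine this.trans ?_
        have := mul_le_mul_of_nonneg_left hY (mx0 x hx)
        linarith)
      (fun y hy => by
        rw [one_mul, ← hmy y hy]
        refine Finset.sum_le_sum fun x hx => ?_
        exact (mul_le_of_le_one_left (wp x hx y hy) (ind_le_one _)).trans (wle x hx y hy)) u v
    rw [mul_one] at this
    exact this
  have fin : ∑ x ∈ sx, ∑ y ∈ sy, ind (E * (mx x * my y) ≤ p x y) * (E * (mx x * my y)) * (u x * v y) ≤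
      ∑ x ∈ sx, ∑ y ∈ sy, (1 / E * (k0 x y * (u x * v y)) + (k1 x y * (u x * v y) + k2 x y * (u x * v y) +
        k3 x y * (u x * v y))) := by
    refine Finset.sum_le_sum fun x hx => Finset.sum_le_sum fun y hy => ?_
    have := mul_le_mul_of_nonneg_right (split x hx y hy) (mul_nonneg (hu x hx) (hv y hy))
    linarith
  refine fin.trans ?_
  simp only [Finset.sum_add_distrib, ← Finset.mul_sum]
  have := mul_le_mul_of_nonneg_left t0 (show 0 ≤ 1 / E by positivity)
  linarith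

/-- the hot mass from the distance to the product -/
theorem hot_tv {p : κ → ι → ℝ} {mx : κ → ℝ} {my : ι → ℝ} {E : ℝ} (hp : ∀ x ∈ sx, ∀ y ∈ sy, 0 ≤ p x y) (hE : 2 ≤ E) :
    ∑ x ∈ sx, ∑ y ∈ sy, ind (E * (mx x * my y) ≤ p x y) * p x y ≤
      2 * ∑ x ∈ sx, ∑ y ∈ sy, |p x y - mx x * my y| := by
  rw [Finset.mul_sum]
  refine Finset.sum_le_sum fun x hx => ?_
  rw [Finset.mul_sum]
  refine Finset.sum_le_sum fun y hy => ?_
  by_cases h : E * (mx x * my y) ≤ p x y
  · rw [ind_of h, one_mul]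
    have p0 := hp x hx y hy
    have h1 : 2 * (mx x * my y) ≤ p x y := by
      by_cases hm : 0 ≤ mx x * my y
      · exact (mul_le_mul_of_nonneg_right hE hm).trans h
      · push Not at hm
        linarith
    have := le_abs_self (p x y - mx x * my y)
    linarith
  · rw [ind_not h, zero_mul]
    positivity

theorem fluxS_tv {p : κ → ι → ℝ} {mx : κ → ℝ} {my : ι → ℝ} {E th : ℝ} (hp : ∀ x ∈ sx, ∀ y ∈ sy, 0 ≤ p x y)
    (hmx : ∀ x ∈ sx, ∑ y ∈ sy, p x y = mx x) (hmy : ∀ y ∈ sy, ∑ x ∈ sx, p x y = my y)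
    (hE : 2 ≤ E) (hth : 0 < th) (hth1 : th ≤ 1)
    (hR : 2 * ∑ x ∈ sx, ∑ y ∈ sy, |p x y - mx x * my y| < th ^ 2 / E ^ 2)
    {u : κ → ℝ} {v : ι → ℝ} (hu : ∀ x ∈ sx, 0 ≤ u x) (hv : ∀ y ∈ sy, 0 ≤ v y) :
    ∑ x ∈ sx, ∑ y ∈ sy, ind (E * (mx x * my y) ≤ p x y) * (E * (mx x * my y)) * (u x * v y) ≤
      (1 / E + 3 * Real.sqrt th) * Real.sqrt ((∑ x ∈ sx, mx x * u x ^ 2) * ∑ y ∈ sy, my y * v y ^ 2) :=
  fluxS hp hmx hmy (by linarith) hth hth1 (lt_of_le_of_lt (hot_tv hp hE) hR) hu hv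

/-- light rows of a static relation -/
theorem rowS {p : κ → ι → ℝ} {mx : κ → ℝ} {my : ι → ℝ} {th : ℝ} (hp : ∀ x ∈ sx, ∀ y ∈ sy, 0 ≤ p x y)
    (hmx : ∀ x ∈ sx, ∑ y ∈ sy, p x y = mx x) (hmy : ∀ y ∈ sy, ∑ x ∈ sx, p x y = my y) (hth : 0 ≤ th)
    (H : κ → ι → Prop) (u : κ → ℝ) (v : ι → ℝ) :
    ∑ x ∈ sx, ∑ y ∈ sy, ind (H x y ∧ ∑ y' ∈ sy, ind (H x y') * p x y' < th * mx x) * p x y * (u x * v y) ≤
      Real.sqrt th * Real.sqrt ((∑ x ∈ sx, mx x * u x ^ 2) * ∑ y ∈ sy, my y * v y ^ 2) := by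
  classical
  have mx0 : ∀ x ∈ sx, 0 ≤ mx x := fun x hx => by rw [← hmx x hx]; exact Finset.sum_nonneg fun y hy => hp x hx y hy
  have := schur2 (al := th) (be := 1) (mx := mx) (my := my)
    (k := fun x y => ind (H x y ∧ ∑ y' ∈ sy, ind (H x y') * p x y' < th * mx x) * p x y)
    (fun x hx y hy => mul_nonneg (ind_nonneg _) (hp x hx y hy)) hth zero_le_one
    (fun x hx => by
      by_cases h : ∑ y' ∈ sy, ind (H x y') * p x y' < th * mx x
      · refine le_trans (Finset.sum_le_sum fun y hy => ?_) h.le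
        exact mul_le_mul_of_nonneg_right (ind_mono fun h => h.1) (hp x hx y hy)
      · have : ∑ y ∈ sy, ind (H x y ∧ ∑ y' ∈ sy, ind (H x y') * p x y' < th * mx x) * p x y = 0 :=
          Finset.sum_eq_zero fun y _ => by rw [ind_not (fun h1 => h h1.2), zero_mul]
        rw [this]
        exact mul_nonneg hth (mx0 x hx))
    (fun y hy => by
      rw [one_mul, ← hmy y hy]
      exact Finset.sum_le_sum fun x hx => mul_le_of_le_one_left (hp x hx y hy) (ind_le_one _)) u v
  rw [mul_one] at this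
  exact this

/-- light columns of a static relation -/
theorem colS {p : κ → ι → ℝ} {mx : κ → ℝ} {my : ι → ℝ} {th : ℝ} (hp : ∀ x ∈ sx, ∀ y ∈ sy, 0 ≤ p x y)
    (hmx : ∀ x ∈ sx, ∑ y ∈ sy, p x y = mx x) (hmy : ∀ y ∈ sy, ∑ x ∈ sx, p x y = my y) (hth : 0 ≤ th)
    (H : κ → ι → Prop) (u : κ → ℝ) (v : ι → ℝ) :
    ∑ x ∈ sx, ∑ y ∈ sy, ind (H x y ∧ ∑ x' ∈ sx, ind (H x' y) * p x' y < th * my y) * p x y * (u x * v y) ≤
      Real.sqrt th * Real.sqrt ((∑ x ∈ sx, mx x * u x ^ 2) * ∑ y ∈ sy, my y * v y ^ 2) := by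
  classical
  have my0 : ∀ y ∈ sy, 0 ≤ my y := fun y hy => by rw [← hmy y hy]; exact Finset.sum_nonneg fun x hx => hp x hx y hy
  have := schur2 (al := 1) (be := th) (mx := mx) (my := my)
    (k := fun x y => ind (H x y ∧ ∑ x' ∈ sx, ind (H x' y) * p x' y < th * my y) * p x y)
    (fun x hx y hy => mul_nonneg (ind_nonneg _) (hp x hx y hy)) zero_le_one hth
    (fun x hx => by
      rw [one_mul, ← hmx x hx]
      exact Finset.sum_le_sum fun y hy => mul_le_of_le_one_left (hp x hx y hy) (ind_le_one _))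
    (fun y hy => by
      by_cases h : ∑ x' ∈ sx, ind (H x' y) * p x' y < th * my y
      · refine le_trans (Finset.sum_le_sum fun x hx => ?_) h.le
        exact mul_le_mul_of_nonneg_right (ind_mono fun h => h.1) (hp x hx y hy)
      · have : ∑ x ∈ sx, ind (H x y ∧ ∑ x' ∈ sx, ind (H x' y) * p x' y < th * my y) * p x y = 0 :=
          Finset.sum_eq_zero fun x _ => by rw [ind_not (fun h1 => h h1.2), zero_mul]
        rw [this]
        exact mul_nonneg hth (my0 y hy)) u v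
  rw [one_mul] at this
  exact this

end fin

section prob

variable {Om : Type*} [Fintype Om] (P : FP Om) {κ ι β γ : Type*} (X : Om → κ) (X' : Om → ι) (Z : Om → β) (V : Om → γ)

/-- the joint law given `Z` -/
def pj (w : Om) (x : κ) (y : ι) : ℝ := P.pv Z (fun u => (X u, X' u)) w (x, y)

/-- product kernel of the hot pairs -/
def hker (E : ℝ) (w : Om) (x : κ) (y : ι) : ℝ :=
  ind (E * (P.pv Z X w x * P.pv Z X' w y) ≤ pj P X X' Z w x y) * (E * (P.pv Z X w x * P.pv Z X' w y))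

/-- the point is not far from the product : hot mass -/
def hotm (E : ℝ) (w : Om) : ℝ :=
  ∑ x ∈ vals X, ∑ y ∈ vals X', ind (E * (P.pv Z X w x * P.pv Z X' w y) ≤ pj P X X' Z w x y) * pj P X X' Z w x y

theorem pj_nn (w : Om) (x : κ) (y : ι) : 0 ≤ pj P X X' Z w x y := P.pv_nonneg _ _ _ _

theorem pj_row (w : Om) (x : κ) : ∑ y ∈ vals X', pj P X X' Z w x y = P.pv Z X w x := by
  unfold pj FP.pv
  rw [← P.ce_sum]
  refine congrArg (fun g => P.ce Z g w) ?_
  funext u
  have h := FP.sum_vals X' (fun _ => ind (X u = x)) u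
  rw [← h]
  refine Finset.sum_congr rfl fun y _ => ?_
  rw [mul_comm, ← ind_and]
  exact congrArg ind (propext ⟨fun h => ⟨congrArg Prod.fst h, congrArg Prod.snd h⟩, fun h => Prod.ext h.1 h.2⟩)

theorem pj_col (w : Om) (y : ι) : ∑ x ∈ vals X, pj P X X' Z w x y = P.pv Z X' w y := by
  unfold pj FP.pv
  rw [← P.ce_sum]
  refine congrArg (fun g => P.ce Z g w) ?_
  funext u
  have h := FP.sum_vals X (fun _ => ind (X' u = y)) u
  rw [← h]
  refine Finset.sum_congr rfl fun x _ => ?_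
  rw [← ind_and]
  exact congrArg ind (propext ⟨fun h => ⟨congrArg Prod.fst h, congrArg Prod.snd h⟩, fun h => Prod.ext h.1 h.2⟩)

/-- Cauchy-Schwarz for the mean -/
theorem E_cs {al A B : Om → ℝ} (h0 : ∀ w, 0 ≤ al w) (hA : ∀ w, 0 ≤ A w) (hB : ∀ w, 0 ≤ B w) :
    P.E (fun w => al w * Real.sqrt (A w * B w)) ≤
      Real.sqrt (P.E (fun w => al w * A w) * P.E (fun w => al w * B w)) := by
  have h := E_sum_cs P ({()} : Finset Unit) (fun w _ => al w) (fun w _ => Real.sqrt (A w)) (fun w _ => Real.sqrt (B w))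
    (fun w _ _ _ => h0 w)
  simp only [Finset.sum_singleton] at h
  have e1 : (fun w => al w * (Real.sqrt (A w) * Real.sqrt (B w))) = fun w => al w * Real.sqrt (A w * B w) := by
    funext w
    rw [Real.sqrt_mul (hA w)]
  have e2 : (fun w => al w * Real.sqrt (A w) ^ 2) = fun w => al w * A w := by
    funext w
    rw [Real.sq_sqrt (hA w)]
  have e3 : (fun w => al w * Real.sqrt (B w) ^ 2) = fun w => al w * B w := by
    funext w
    rw [Real.sq_sqrt (hB w)]
  rw [e1, e2, e3] at h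
  exact (le_abs_self _).trans h

/-- **the hot pairs, mean over the points** -/
theorem fluxS_E {al : Om → ℝ} (h0 : ∀ w, 0 ≤ al w) {E th : ℝ} (hE : 1 ≤ E) (hth : 0 < th) (hth1 : th ≤ 1)
    {N : Om → Prop} (hN : ∀ w, P.p w ≠ 0 → N w → hotm P X X' Z E w < th ^ 2 / E ^ 2)
    {u : Om → κ → ℝ} {v : Om → ι → ℝ} (hu : ∀ w x, 0 ≤ u w x) (hv : ∀ w y, 0 ≤ v w y) :
    P.E (fun w => al w * (ind (N w) * ∑ x ∈ vals X, ∑ y ∈ vals X', hker P X X' Z E w x y * (u w x * v w y))) ≤
      (1 / E + 3 * Real.sqrt th) * Real.sqrt (P.E (fun w => al w * ∑ x ∈ vals X, P.pv Z X w x * u w x ^ 2) *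
        P.E (fun w => al w * ∑ y ∈ vals X', P.pv Z X' w y * v w y ^ 2)) := by
  have hc : 0 ≤ 1 / E + 3 * Real.sqrt th := by positivity
  have hA : ∀ w, 0 ≤ ∑ x ∈ vals X, P.pv Z X w x * u w x ^ 2 := fun w =>
    Finset.sum_nonneg fun x _ => mul_nonneg (P.pv_nonneg _ _ _ _) (sq_nonneg _)
  have hB : ∀ w, 0 ≤ ∑ y ∈ vals X', P.pv Z X' w y * v w y ^ 2 := fun w =>
    Finset.sum_nonneg fun y _ => mul_nonneg (P.pv_nonneg _ _ _ _) (sq_nonneg _)
  have h1 : P.E (fun w => al w * (ind (N w) * ∑ x ∈ vals X, ∑ y ∈ vals X', hker P X X' Z E w x y * (u w x * v w y))) ≤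
      P.E (fun w => (1 / E + 3 * Real.sqrt th) * (al w * Real.sqrt ((∑ x ∈ vals X, P.pv Z X w x * u w x ^ 2) *
        ∑ y ∈ vals X', P.pv Z X' w y * v w y ^ 2))) := by
    refine P.E_mono fun w hw => ?_
    have q : ind (N w) * ∑ x ∈ vals X, ∑ y ∈ vals X', hker P X X' Z E w x y * (u w x * v w y) ≤
        (1 / E + 3 * Real.sqrt th) * Real.sqrt ((∑ x ∈ vals X, P.pv Z X w x * u w x ^ 2) *
          ∑ y ∈ vals X', P.pv Z X' w y * v w y ^ 2) := by
      by_cases h : N w
      · rw [ind_of h, one_mul]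
        exact fluxS (fun x _ y _ => pj_nn P X X' Z w x y) (fun x _ => pj_row P X X' Z w x) (fun y _ => pj_col P X X' Z w y)
          hE hth hth1 (hN w hw h) (fun x _ => hu w x) (fun y _ => hv w y)
      · rw [ind_not h, zero_mul]
        positivity
    have := mul_le_mul_of_nonneg_left q (h0 w)
    linarith
  rw [P.E_smul] at h1
  exact h1.trans (mul_le_mul_of_nonneg_left (E_cs P h0 hA hB) hc)

/-- killed part of the ratio at the true additions -/
def kil {κ : Type*} (X : Om → κ) (w : Om) (x : κ) : ℝ := max (1 - rr P Z X V w (V w) x) 0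

theorem kil_nn {κ : Type*} (X : Om → κ) (w : Om) (x : κ) : 0 ≤ kil P Z V X w x := le_max_right _ _

/-- the killed part is paid by the gain -/
theorem kil_gn {κ : Type*} (X : Om → κ) {al : Om → ℝ} (h0 : ∀ w, 0 ≤ al w) (h1 : ∀ w, al w ≤ 1) :
    P.E (fun w => al w * ∑ x ∈ vals X, P.pv Z X w x * kil P Z V X w x ^ 2) ≤ 2 * gn P Z X V := by
  have e : gn P Z X V = P.E (fun w => ∑ x ∈ vals X, P.pv Z X w x * hphi (rr P Z X V w (V w) x)) := by
    have := E_real P V (W := Z) (f := fun w y => ∑ x ∈ vals X, P.pv Z X w x * hphi (rr P Z X V w y x))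
      (fun y a b hab => by
        show ∑ x ∈ vals X, P.pv Z X a x * hphi (rr P Z X V a y x) = ∑ x ∈ vals X, P.pv Z X b x * hphi (rr P Z X V b y x)
        refine Finset.sum_congr rfl fun x _ => ?_
        rw [pvc P X hab x, rrc P X V hab y x])
    rw [this]
    unfold gn
    refine P.E_congr fun w _ => Finset.sum_congr rfl fun y _ => ?_
    rw [Finset.mul_sum]
  rw [e, ← P.E_smul]
  refine P.E_mono fun w _ => ?_
  have n0 : 0 ≤ ∑ x ∈ vals X, P.pv Z X w x * kil P Z V X w x ^ 2 :=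
    Finset.sum_nonneg fun x _ => mul_nonneg (P.pv_nonneg _ _ _ _) (sq_nonneg _)
  refine (mul_le_of_le_one_left n0 (h1 w)).trans ?_
  rw [Finset.mul_sum]
  refine Finset.sum_le_sum fun x _ => ?_
  have r0 := rr_nn P Z X V w (V w) x
  have q : kil P Z V X w x ^ 2 ≤ 2 * hphi (rr P Z X V w (V w) x) := by
    unfold kil
    by_cases h : rr P Z X V w (V w) x ≤ 1
    · rw [max_eq_left (by linarith)]
      have := hphi_sq r0
      rw [max_eq_left h] at this
      nlinarith
    · push Not at h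
      rw [max_eq_right (by linarith)]
      have := hphi_nonneg r0
      nlinarith
  have := mul_le_mul_of_nonneg_left q (P.pv_nonneg Z X w x)
  linarith

/-- **killed hot pairs at a point which is not in `R0`** -/
theorem fluxS_kill {al : Om → ℝ} (h0 : ∀ w, 0 ≤ al w) (h1 : ∀ w, al w ≤ 1) {E th : ℝ} (hE : 1 ≤ E) (hth : 0 < th)
    (hth1 : th ≤ 1) {N : Om → Prop} (hN : ∀ w, P.p w ≠ 0 → N w → hotm P X X' Z E w < th ^ 2 / E ^ 2) :
    P.E (fun w => al w * (ind (N w) * ∑ x ∈ vals X, ∑ y ∈ vals X', hker P X X' Z E w x y *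
      (kil P Z V X w x * kil P Z V X' w y))) ≤ (1 / E + 3 * Real.sqrt th) * (gn P Z X V + gn P Z X' V) := by
  refine (fluxS_E P X X' Z h0 hE hth hth1 hN (fun w x => kil_nn P Z V X w x) (fun w y => kil_nn P Z V X' w y)).trans ?_
  have hc : 0 ≤ 1 / E + 3 * Real.sqrt th := by positivity
  refine mul_le_mul_of_nonneg_left ?_ hc
  have a := kil_gn P Z V X h0 h1
  have b := kil_gn P Z V X' h0 h1
  have g1 := gn_nn P Z X V
  have g2 := gn_nn P Z X' V
  have a0 : 0 ≤ P.E (fun w => al w * ∑ x ∈ vals X, P.pv Z X w x * kil P Z V X w x ^ 2) := P.E_nonneg fun w _ =>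
    mul_nonneg (h0 w) (Finset.sum_nonneg fun x _ => mul_nonneg (P.pv_nonneg _ _ _ _) (sq_nonneg _))
  have b0 : 0 ≤ P.E (fun w => al w * ∑ x ∈ vals X', P.pv Z X' w x * kil P Z V X' w x ^ 2) := P.E_nonneg fun w _ =>
    mul_nonneg (h0 w) (Finset.sum_nonneg fun x _ => mul_nonneg (P.pv_nonneg _ _ _ _) (sq_nonneg _))
  refine Real.sqrt_le_iff.2 ⟨by linarith, ?_⟩
  have := mul_le_mul a b b0 (by linarith)
  nlinarith [sq_nonneg (gn P Z X V - gn P Z X' V)]

end prob

end Flx

end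

end Pool.Agent.GMH
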