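import Pool.Agent.GMH.FoJ

/-!
# GMH/FoJR: FIRST ORDER TERMS WITH A FOREIGN WEIGHT, RATIO OF ONE VERTEX, OVER THE RUN (helper81, row K5)

Run form of `FoJ` (as `FoHR`): `jH` : first factor of a step with the ratios `sr0` (of the digit) and `sr` (of the other
steps); `jh_time` : one time; `jh_run` : the run.
-/

set_option autoImplicit false
set_option linter.unusedSectionVars false
set_option linter.unusedVariables false

namespace Pool.Agent.GMH.TP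

open Finset Pool.Agent.PWZ Pool.Agent.M3 Pool.Agent.GM Pool.Agent.GM.Harm Pool.Agent.GMH Pool.Agent.GMH.NZ
open Pool.Agent.GMH.V3

noncomputable section

/-- values of what a top sees -/
abbrev Cb (X β γ φ : Type) := (Finset (Fin 3) → Option (List (Pt (Fin 3) X β φ) × (Fin 3 → Option φ))) ×
  ((Fin 3 → Option β) × (γ × (Fin 3 → γ)))

section jh

variable {X β γ φ : Type} [Fintype X] [Fintype β] [Fintype φ] [Nonempty X] [Nonempty β]
variable {D : HD (Fin 3) X β γ φ} {al : ℝ} (h : D.Thick al)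
  (v : ℕ → Finset (Fin 3) → X → (Fin 3 → β) → Pt (Fin 3) X β φ) (dg : ℕ → X → ℝ)

/-- first factor of the step `(s, t)` -/
def jH (B : ℝ) (s : Fin 6) (t : ℕ) (i : Fin 3) (sr0 : Pt (Fin 3) X β φ → ℝ → ℝ) (sr : Pt (Fin 3) X β φ → Cb X β γ φ → ℝ)
    (aw : Pt (Fin 3) X β φ → ℝ) : ℝ :=
  if s = 0 then gW (D.P h t) (ZbQ D v (5 * t) i) (fun u : Pt (Fin 3) X β φ => dg t u.1)
    (gJ (D.P h t) (ZbQ D v (5 * t) i) (ZQ D v (5 * t)) (fun u : Pt (Fin 3) X β φ => dg t u.1) B sr0) aw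
  else gW (D.P h t) (ZbQ D v (qs s t) i) (ZbQ D v (qe s t) i)
    (gJ (D.P h t) (ZbQ D v (qs s t) i) (ZQ D v (qs s t)) (ZbQ D v (qe s t) i) B sr) aw

variable {v dg}
variable {N : Finset (Fin 3) → ℝ} {S : Finset (Finset (Fin 3))}
variable {prr : ℕ → Fin 3 → φ → φ} {T : ℕ} {Lam : ℝ}

/-- a step `s ≠ 0` without branches -/
theorem jh_one {B : ℝ} (hB : Real.exp 2 ≤ B) {s : Fin 6} (hs : s ≠ 0) {t : ℕ} {i : Fin 3}
    {aw : Pt (Fin 3) X β φ → ℝ} (hal : Fac (ZQ D v (qs s t)) aw) (h0 : ∀ u, 0 ≤ aw u) {Nn : Pt (Fin 3) X β φ → Prop}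
    (hN : ∀ w, (D.P h t).p w ≠ 0 → Nn w → ¬ B < tS h v s t i w) {wt : Pt (Fin 3) X β φ → Tt X β φ → ℝ}
    (hw : WtL h v t (qs s t) i wt) {sr0 : Pt (Fin 3) X β φ → ℝ → ℝ} {sr : Pt (Fin 3) X β φ → Cb X β γ φ → ℝ}
    (hsr : ∀ w y, 0 ≤ sr w y) : fh h v B s t i aw Nn wt ≤
      Real.sqrt ((jH h v dg B s t i sr0 sr (fun w => aw w * Wq v t i wt w) +
        2 * B * (D.P h t).E (fun w => aw w * (ind (¬ Nn w) * Wq v t i wt w))) * kH h v dg B s t i aw wt) := by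
  have hB1 : 1 ≤ B := by have := Real.add_one_le_exp 2; linarith
  unfold jH kH
  rw [if_neg hs, if_neg hs]
  exact oneJ (P := D.P h t) (F := FQ v t i) (ZQ_Zb (qs s t) i) (Y := ZbQ D v (qe s t) i) hB hal h0 hw.fac hw.nn hw.ac hN
    (gJ_nn _ _ _ hB1) (gJ_le _ _ _ hB1 hsr)

/-- the digit -/
theorem jh_dig (H : D.Hyp dg prr al T Lam) (R : Run h N S (AdmDep D) v) (hS : ∀ l, univ.erase l ∈ S) (hu : univ ∉ S)
    (hN2 : ∀ l, 0 < N (univ.erase l)) {B : ℝ} (hB : Real.exp 2 ≤ B) {t : ℕ} (ht : t < T) {i : Fin 3}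
    {aw : Pt (Fin 3) X β φ → ℝ} (hal : Fac (ZQ D v (5 * t)) aw) (h0 : ∀ u, 0 ≤ aw u) {Nn : Pt (Fin 3) X β φ → Prop}
    (hN : ∀ w, (D.P h t).p w ≠ 0 → Nn w → ¬ B < tS h v 0 t i w) {wt : Pt (Fin 3) X β φ → Tt X β φ → ℝ}
    (hw : WtL h v t (5 * t) i wt) {sr0 : Pt (Fin 3) X β φ → ℝ → ℝ} {sr : Pt (Fin 3) X β φ → Cb X β γ φ → ℝ}
    (hs0 : ∀ w y, 0 ≤ sr0 w y) : fh h v B 0 t i aw Nn wt ≤
      Real.sqrt ((jH h v dg B 0 t i sr0 sr (fun w => aw w * Wq v t i wt w) +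
        2 * B * (D.P h t).E (fun w => aw w * (ind (¬ Nn w) * Wq v t i wt w))) * kH h v dg B 0 t i aw wt) := by
  have hB1 : 1 ≤ B := by have := Real.add_one_le_exp 2; linarith
  have k := oneJ (P := D.P h t) (F := FQ v t i) (ZQ_Zb (5 * t) i) (Y := fun u : Pt (Fin 3) X β φ => dg t u.1) hB hal h0
    hw.fac hw.nn hw.ac (N := Nn) (fun w hp hn => by
      have h1 := not_lt.1 (hN w hp hn)
      have h2 := tau_dig0 h H R.codes ht i hp
      have h3 : 0 ≤ tS h v 0 t i w := tau_nn _ _ _ _ _ _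
      have h4 : tau (D.P h t) (ZbQ D v (5 * t) i) (ZQ D v (5 * t)) (ZbQ D v (5 * t + 1) i) w (ZbQ D v (5 * t + 1) i w) =
        tS h v 0 t i w := rfl
      rw [h4] at h2
      refine not_lt.2 (le_trans (le_of_eq h2) ((mul_le_of_le_one_left h3 (kap_le t)).trans h1))) (gJ_nn _ _ _ hB1) (gJ_le _ _ _ hB1 hs0)
  have e : fh h v B 0 t i aw Nn wt = (D.P h t).E (fun w => aw w * (ind (Nn w) * ∑ x ∈ vals (FQ v t i), wt w x *
      (hwk B (rr (D.P h t) (ZbQ D v (5 * t) i) (FQ v t i) (fun u : Pt (Fin 3) X β φ => dg t u.1) w (dg t w.1) x) - 1))) := by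
    unfold fh
    refine (D.P h t).E_congr fun w hp => ?_
    congr 2
    refine Finset.sum_congr rfl fun x _ => ?_
    have h1 : rS h v 0 t i w x = rr (D.P h t) (ZbQ D v (5 * t) i) (FQ v t i) (fun u : Pt (Fin 3) X β φ => dg t u.1) w
      (dg t w.1) x := rr_dig0 h H R hS hu hN2 ht i hp x
    rw [h1]
  rw [e]
  exact k

/-- both branches -/
theorem jh_two {B : ℝ} (hB : Real.exp 2 ≤ B) {t : ℕ} {i : Fin 3} {aw : Pt (Fin 3) X β φ → ℝ}
    (hal : Fac (ZQ D v (5 * t + 1)) aw) (h0 : ∀ u, 0 ≤ aw u) {N1 N2 : Pt (Fin 3) X β φ → Prop}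
    (hN1 : ∀ w, (D.P h t).p w ≠ 0 → N1 w → ¬ B < tS h v 1 t i w)
    (hN2 : ∀ w, (D.P h t).p w ≠ 0 → N2 w → ¬ B < tS h v 2 t i w) {wt : Pt (Fin 3) X β φ → Tt X β φ → ℝ}
    (hw : WtL h v t (5 * t + 1) i wt) {sr0 : Pt (Fin 3) X β φ → ℝ → ℝ} {sr1 sr2 : Pt (Fin 3) X β φ → Cb X β γ φ → ℝ}
    (hsr1 : ∀ w y, 0 ≤ sr1 w y) (hsr2 : ∀ w y, 0 ≤ sr2 w y) :
    fh h v B 1 t i (fun w => aw w * hvI h v 1 t w) N1 wt + fh h v B 2 t i (fun w => aw w * hvI h v 2 t w) N2 wt ≤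
      Real.sqrt ((jH h v dg B 1 t i sr0 sr1 (fun w => aw w * Wq v t i wt w) +
        2 * B * (D.P h t).E (fun w => aw w * hvI h v 1 t w * (ind (¬ N1 w) * Wq v t i wt w))) * kH h v dg B 1 t i aw wt) +
      Real.sqrt ((jH h v dg B 2 t i sr0 sr2 (fun w => aw w * Wq v t i wt w) +
        2 * B * (D.P h t).E (fun w => aw w * hvI h v 2 t w * (ind (¬ N2 w) * Wq v t i wt w))) * kH h v dg B 2 t i aw wt) := by
  have f1 : Fac (fun u : Pt (Fin 3) X β φ => (ZbQ D v (5 * t + 5) i u, ZbQ D v (5 * t + 1) i u))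
      (fun u => ¬ HV h v t u) := fun a b hab => by
    have := HV_Zb h (φ := φ) (D := D) (v := v) t (show 5 * t + 2 ≤ 5 * t + 5 by omega) i a b (Prod.mk.inj hab).1
    show (¬ HV h v t a) = (¬ HV h v t b)
    rw [this]
  have f2 : Fac (fun u : Pt (Fin 3) X β φ => (ZbQ D v (5 * t + 2) i u, ZbQ D v (5 * t + 1) i u))
      (fun u => ¬ HV h v t u) := fun a b hab => by
    have := HV_Zb h (φ := φ) (D := D) (v := v) t (show 5 * t + 2 ≤ 5 * t + 2 by omega) i a b (Prod.mk.inj hab).1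
    show (¬ HV h v t a) = (¬ HV h v t b)
    rw [this]
  have hB1 : 1 ≤ B := by have := Real.add_one_le_exp 2; linarith
  have k := twoJ (P := D.P h t) (F := FQ v t i) (ZQ_Zb (5 * t + 1) i) (Y1 := ZbQ D v (5 * t + 5) i)
    (Y2 := ZbQ D v (5 * t + 2) i) (A := fun u => ¬ HV h v t u) f1 f2 hB hal h0 hw.fac hw.nn hw.ac hN1 hN2
    (gJ_nn _ _ _ hB1) (gJ_le _ _ _ hB1 hsr1) (gJ_nn _ _ _ hB1) (gJ_le _ _ _ hB1 hsr2)
  have e1 : fh h v B 1 t i (fun w => aw w * hvI h v 1 t w) N1 wt = (D.P h t).E (fun w => aw w * (ind (¬ HV h v t w) *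
      (ind (N1 w) * ∑ x ∈ vals (FQ v t i), wt w x * (hwk B (rr (D.P h t) (ZbQ D v (5 * t + 1) i) (FQ v t i)
        (ZbQ D v (5 * t + 5) i) w (ZbQ D v (5 * t + 5) i w) x) - 1)))) :=
    (D.P h t).E_congr fun w _ => by
      show aw w * ind (¬ HV h v t w) * (ind (N1 w) * _) = aw w * (ind (¬ HV h v t w) * (ind (N1 w) * _))
      rw [mul_assoc]
      rfl
  have e2 : fh h v B 2 t i (fun w => aw w * hvI h v 2 t w) N2 wt = (D.P h t).E (fun w => aw w * (ind (¬ ¬ HV h v t w) *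
      (ind (N2 w) * ∑ x ∈ vals (FQ v t i), wt w x * (hwk B (rr (D.P h t) (ZbQ D v (5 * t + 1) i) (FQ v t i)
        (ZbQ D v (5 * t + 2) i) w (ZbQ D v (5 * t + 2) i w) x) - 1)))) :=
    (D.P h t).E_congr fun w _ => by
      show aw w * ind (HV h v t w) * (ind (N2 w) * _) = aw w * (ind (¬ ¬ HV h v t w) * (ind (N2 w) * _))
      rw [mul_assoc, ind_cg (not_not (a := HV h v t w))]
      rfl
  have e3 : (D.P h t).E (fun w => aw w * hvI h v 1 t w * (ind (¬ N1 w) * Wq v t i wt w)) =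
      (D.P h t).E (fun w => aw w * (ind (¬ HV h v t w) * (ind (¬ N1 w) * ∑ x ∈ vals (FQ v t i), wt w x))) :=
    (D.P h t).E_congr fun w _ => by
      show aw w * ind (¬ HV h v t w) * (ind (¬ N1 w) * _) = aw w * (ind (¬ HV h v t w) * (ind (¬ N1 w) * _))
      rw [mul_assoc]
      rfl
  have e4 : (D.P h t).E (fun w => aw w * hvI h v 2 t w * (ind (¬ N2 w) * Wq v t i wt w)) =
      (D.P h t).E (fun w => aw w * (ind (¬ ¬ HV h v t w) * (ind (¬ N2 w) * ∑ x ∈ vals (FQ v t i), wt w x))) :=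
    (D.P h t).E_congr fun w _ => by
      show aw w * ind (HV h v t w) * (ind (¬ N2 w) * _) = aw w * (ind (¬ ¬ HV h v t w) * (ind (¬ N2 w) * _))
      rw [mul_assoc, ind_cg (not_not (a := HV h v t w))]
      rfl
  rw [e1, e2, e3, e4]
  exact k

/-- one time -/
theorem jh_time (H : D.Hyp dg prr al T Lam) (R : Run h N S (AdmDep D) v) (hS : ∀ l, univ.erase l ∈ S) (hu : univ ∉ S)
    (hN2 : ∀ l, 0 < N (univ.erase l)) {B : ℝ} (hB : Real.exp 2 ≤ B) {t : ℕ} (ht : t < T) {i : Fin 3}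
    {w0 : Fin 6 → Pt (Fin 3) X β φ → ℝ} (hal : ∀ s, Fac (ZQ D v (qs s t)) (w0 s)) (h0 : ∀ s u, 0 ≤ w0 s u)
    (h12 : w0 2 = w0 1) {Nn : Fin 6 → Pt (Fin 3) X β φ → Prop}
    (hN : ∀ s w, (D.P h t).p w ≠ 0 → Nn s w → ¬ B < tS h v s t i w) {wq : ℕ → Pt (Fin 3) X β φ → Tt X β φ → ℝ}
    (hw : ∀ s, WtL h v t (qs s t) i (wq (qs s t))) {sr0 : Pt (Fin 3) X β φ → ℝ → ℝ}
    {sr : Fin 6 → Pt (Fin 3) X β φ → Cb X β γ φ → ℝ} (hs0 : ∀ w y, 0 ≤ sr0 w y) (hsr : ∀ s w y, 0 ≤ sr s w y) :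
    ∑ s, fh h v B s t i (fun w => w0 s w * hvI h v s t w) (Nn s) (wq (qs s t)) ≤
      ∑ s, Real.sqrt ((jH h v dg B s t i sr0 (sr s) (fun w => w0 s w * Wq v t i (wq (qs s t)) w) +
        2 * B * mH h v s t i (w0 s) (Nn s) (wq (qs s t))) * kH h v dg B s t i (w0 s) (wq (qs s t))) := by
  have k0 := jh_dig h H R hS hu hN2 hB ht (i := i) (hal 0) (h0 0) (hN 0) (hw 0) (sr := sr 0) hs0
  have k3 := jh_one h (dg := dg) hB (show (3 : Fin 6) ≠ 0 by decide) (i := i) (hal 3) (h0 3) (hN 3) (hw 3) (sr0 := sr0) (hsr 3)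
  have k4 := jh_one h (dg := dg) hB (show (4 : Fin 6) ≠ 0 by decide) (i := i) (hal 4) (h0 4) (hN 4) (hw 4) (sr0 := sr0) (hsr 4)
  have k5 := jh_one h (dg := dg) hB (show (5 : Fin 6) ≠ 0 by decide) (i := i) (hal 5) (h0 5) (hN 5) (hw 5) (sr0 := sr0) (hsr 5)
  have k1 := jh_two h (dg := dg) hB (i := i) (hal 1) (h0 1) (hN 1) (hN 2) (hw 1) (sr0 := sr0) (hsr 1) (hsr 2)
  have e0 : ∀ s : Fin 6, s ≠ 1 → s ≠ 2 → (fun u => w0 s u * hvI h v s t u) = w0 s := by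
    intro s h1 h2
    funext u
    have : hvI h v s t u = 1 := by
      fin_cases s
      · rfl
      · exact absurd rfl h1
      · exact absurd rfl h2
      all_goals rfl
    rw [this, mul_one]
  have m0 : ∀ s : Fin 6, s ≠ 1 → s ≠ 2 → mH h v s t i (w0 s) (Nn s) (wq (qs s t)) =
      (D.P h t).E (fun w => w0 s w * (ind (¬ Nn s w) * Wq v t i (wq (qs s t)) w)) := by
    intro s h1 h2
    unfold mH
    have := e0 s h1 h2
    refine (D.P h t).E_congr fun w _ => ?_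
    have h3 : w0 s w * hvI h v s t w = w0 s w := congrFun this w
    rw [h3]
  rw [six_sum, six_sum, e0 0 (by decide) (by decide), e0 3 (by decide) (by decide), e0 4 (by decide) (by decide),
    e0 5 (by decide) (by decide), m0 0 (by decide) (by decide), m0 3 (by decide) (by decide), m0 4 (by decide) (by decide),
    m0 5 (by decide) (by decide), h12]
  have q0 : qs 0 t = 5 * t := rfl
  have q1 : qs 1 t = 5 * t + 1 := rfl
  have q2 : qs 2 t = 5 * t + 1 := rfl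
  unfold mH
  rw [q1] at k1
  rw [q0] at k0 ⊢
  rw [q1, q2]
  linarith

/-- **THE RUN** -/
theorem jh_run (H : D.Hyp dg prr al T Lam) (R : Run h N S (AdmDep D) v) (hS : ∀ l, univ.erase l ∈ S) (hu : univ ∉ S)
    (hN2 : ∀ l, 0 < N (univ.erase l)) {B : ℝ} (hB : Real.exp 2 ≤ B) {i : Fin 3}
    {w0 : Fin 6 → ℕ → Pt (Fin 3) X β φ → ℝ} (hal : ∀ t < T, ∀ s, Fac (ZQ D v (qs s t)) (w0 s t))
    (h0 : ∀ s t u, 0 ≤ w0 s t u) (h12 : ∀ t < T, w0 2 t = w0 1 t) {Nn : Fin 6 → ℕ → Pt (Fin 3) X β φ → Prop}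
    (hN : ∀ t < T, ∀ s w, (D.P h t).p w ≠ 0 → Nn s t w → ¬ B < tS h v s t i w)
    {wq : ℕ → ℕ → Pt (Fin 3) X β φ → Tt X β φ → ℝ} (hw : ∀ t < T, ∀ s, WtL h v t (qs s t) i (wq t (qs s t)))
    {sr0 : ℕ → Pt (Fin 3) X β φ → ℝ → ℝ} {sr : Fin 6 → ℕ → Pt (Fin 3) X β φ → Cb X β γ φ → ℝ}
    (hs0 : ∀ t w y, 0 ≤ sr0 t w y) (hsr : ∀ s t w y, 0 ≤ sr s t w y)
    {I M K : ℝ} (hI : ∑ t ∈ range T, ∑ s, jH h v dg B s t i (sr0 t) (sr s t) (fun w => w0 s t w * Wq v t i (wq t (qs s t)) w) ≤ I)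
    (hM : ∑ t ∈ range T, ∑ s, mH h v s t i (w0 s t) (Nn s t) (wq t (qs s t)) ≤ M)
    (hK : ∑ t ∈ range T, ∑ s, kH h v dg B s t i (w0 s t) (wq t (qs s t)) ≤ K) :
    ∑ t ∈ range T, ∑ s, fh h v B s t i (fun w => w0 s t w * hvI h v s t w) (Nn s t) (wq t (qs s t)) ≤
      Real.sqrt ((I + 2 * B * M) * K) := by
  have hB0 : 0 ≤ B := (Real.exp_pos 2).le.trans hB
  have hv01 : ∀ (s : Fin 6) (t : ℕ) (u : Pt (Fin 3) X β φ), 0 ≤ hvI h v s t u := by
    intro s t u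
    fin_cases s
    · exact zero_le_one
    · exact ind_nonneg _
    · exact ind_nonneg _
    all_goals exact zero_le_one
  have hW0 : ∀ t < T, ∀ s w, 0 ≤ Wq v t i (wq t (qs s t)) w := fun t ht s w =>
    Finset.sum_nonneg fun x _ => (hw t ht s).nn w x
  have hB1 : 1 ≤ B := by have := Real.add_one_le_exp 2; linarith
  have i0 : ∀ t < T, ∀ s, 0 ≤ jH h v dg B s t i (sr0 t) (sr s t) (fun w => w0 s t w * Wq v t i (wq t (qs s t)) w) := by
    intro t ht s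
    unfold jH
    split_ifs
    · exact gW_nn _ _ _ (gJ_nn _ _ _ hB1) fun w => mul_nonneg (h0 s t w) (hW0 t ht s w)
    · exact gW_nn _ _ _ (gJ_nn _ _ _ hB1) fun w => mul_nonneg (h0 s t w) (hW0 t ht s w)
  have m0 : ∀ t < T, ∀ s, 0 ≤ mH h v s t i (w0 s t) (Nn s t) (wq t (qs s t)) := fun t ht s =>
    (D.P h t).E_nonneg fun w _ => mul_nonneg (mul_nonneg (h0 s t w) (hv01 s t w))
      (mul_nonneg (ind_nonneg _) (hW0 t ht s w))
  have k0 : ∀ t < T, ∀ s, 0 ≤ kH h v dg B s t i (w0 s t) (wq t (qs s t)) := by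
    intro t ht s
    unfold kH
    split_ifs
    · exact (D.P h t).E_nonneg fun w _ => mul_nonneg (h0 s t w) (Finset.sum_nonneg fun x _ =>
        mul_nonneg ((hw t ht s).nn w x) (sq_nonneg _))
    · exact (D.P h t).E_nonneg fun w _ => mul_nonneg (h0 s t w) (Finset.sum_nonneg fun x _ =>
        mul_nonneg ((hw t ht s).nn w x) (sq_nonneg _))
  set a : ℕ × Fin 6 → ℝ := fun j => if j.1 < T then
    jH h v dg B j.2 j.1 i (sr0 j.1) (sr j.2 j.1) (fun w => w0 j.2 j.1 w * Wq v j.1 i (wq j.1 (qs j.2 j.1)) w) +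
      2 * B * mH h v j.2 j.1 i (w0 j.2 j.1) (Nn j.2 j.1) (wq j.1 (qs j.2 j.1)) else 0 with ha
  set b : ℕ × Fin 6 → ℝ := fun j => if j.1 < T then kH h v dg B j.2 j.1 i (w0 j.2 j.1) (wq j.1 (qs j.2 j.1)) else 0 with hb
  have a0 : ∀ j, 0 ≤ a j := by
    intro j
    rw [ha]
    dsimp only
    split_ifs with hj
    · have h1 := i0 j.1 hj j.2
      have h2 := m0 j.1 hj j.2
      positivity
    · exact le_rfl
  have b0 : ∀ j, 0 ≤ b j := by
    intro j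
    rw [hb]
    dsimp only
    split_ifs with hj
    · exact k0 j.1 hj j.2
    · exact le_rfl
  have h1 : ∑ t ∈ range T, ∑ s, fh h v B s t i (fun w => w0 s t w * hvI h v s t w) (Nn s t) (wq t (qs s t)) ≤
      ∑ j ∈ range T ×ˢ (univ : Finset (Fin 6)), Real.sqrt (a j) * Real.sqrt (b j) := by
    rw [Finset.sum_product]
    refine Finset.sum_le_sum fun t ht => ?_
    have ht' := Finset.mem_range.1 ht
    refine (jh_time h H R hS hu hN2 hB ht' (w0 := fun s => w0 s t) (hal t ht') (fun s u => h0 s t u) (h12 t ht')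
      (hN t ht') (wq := wq t) (hw t ht') (hs0 t) (fun s => hsr s t)).trans (le_of_eq ?_)
    refine Finset.sum_congr rfl fun s _ => ?_
    rw [← Real.sqrt_mul (a0 (t, s))]
    rw [ha, hb]
    dsimp only
    rw [if_pos ht', if_pos ht']
  have h2 := Real.sum_sqrt_mul_sqrt_le (range T ×ˢ (univ : Finset (Fin 6))) a0 b0
  have e1 : ∑ j ∈ range T ×ˢ (univ : Finset (Fin 6)), a j ≤ I + 2 * B * M := by
    rw [Finset.sum_product]
    have e2 : ∑ t ∈ range T, ∑ s, a (t, s) = (∑ t ∈ range T, ∑ s,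
        jH h v dg B s t i (sr0 t) (sr s t) (fun w => w0 s t w * Wq v t i (wq t (qs s t)) w)) +
        2 * B * ∑ t ∈ range T, ∑ s, mH h v s t i (w0 s t) (Nn s t) (wq t (qs s t)) := by
      rw [Finset.mul_sum, ← Finset.sum_add_distrib]
      refine Finset.sum_congr rfl fun t ht => ?_
      rw [Finset.mul_sum, ← Finset.sum_add_distrib]
      refine Finset.sum_congr rfl fun s _ => ?_
      rw [ha]
      dsimp only
      rw [if_pos (Finset.mem_range.1 ht)]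
    rw [e2]
    have := mul_le_mul_of_nonneg_left hM (show 0 ≤ 2 * B by linarith)
    linarith
  have e3 : ∑ j ∈ range T ×ˢ (univ : Finset (Fin 6)), b j ≤ K := by
    rw [Finset.sum_product]
    refine le_trans (le_of_eq ?_) hK
    refine Finset.sum_congr rfl fun t ht => Finset.sum_congr rfl fun s _ => ?_
    rw [hb]
    dsimp only
    rw [if_pos (Finset.mem_range.1 ht)]
  refine h1.trans (h2.trans ?_)
  have s1 : 0 ≤ ∑ j ∈ range T ×ˢ (univ : Finset (Fin 6)), a j := Finset.sum_nonneg fun j _ => a0 j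
  have s2 : 0 ≤ ∑ j ∈ range T ×ˢ (univ : Finset (Fin 6)), b j := Finset.sum_nonneg fun j _ => b0 j
  rw [← Real.sqrt_mul s1]
  exact Real.sqrt_le_sqrt (mul_le_mul e1 e3 s2 (s1.trans e1))

end jh

end

end Pool.Agent.GMH.TP
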