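import Pool.Agent.GMH.GainSum
import Pool.Agent.GMH.Dead

/-!
# GMH/GainAll: ALL THREE LETTERS TOGETHER, digits and public codes (helper81)

* `XA s` : the letters of the three vertices; `eA` : their entropy given the three points and the public information;
* `all_gain` : the sum over the run of the informations of the three letters TOGETHER about the digits and the public codes
  (given the public information) is at most the private costs;
* `all_gain_run` : at most `9 n Lam`.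
-/

set_option autoImplicit false
set_option linter.unusedSectionVars false

namespace Pool.Agent.GMH.V3

open Finset Pool.Agent.PWZ Pool.Agent.M3 Pool.Agent.GM Pool.Agent.GM.Harm Pool.Agent.GMH Pool.Agent.GMH.NZ
open Pool.Agent.GMH.Dead (Dry Hc_time)

namespace GS

section hc3

variable {Om κ ι : Type*} [Fintype Om] (P : FP Om)

theorem Hc_fin3 {f : Fin 3 → Om → κ} (Z : Om → ι) : P.Hc (fun w i => f i w) Z ≤ ∑ i, P.Hc (f i) Z := by
  have h1 : P.Hc (fun w i => f i w) Z ≤ P.Hc (fun w => (f 0 w, f 1 w, f 2 w)) Z := by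
    refine P.Hc_mono _ ?_
    intro a b hab
    simp only [Prod.mk.injEq] at hab
    funext i
    fin_cases i
    · exact hab.1.1
    · exact hab.1.2.1
    · exact hab.1.2.2
  have h2 := P.Hc_chain (f 0) (fun w => (f 1 w, f 2 w)) Z
  have h3 := P.Hc_chain (f 1) (f 2) Z
  have h4 : P.Hc (f 0) (fun w => ((f 1 w, f 2 w), Z w)) ≤ P.Hc (f 0) Z := P.Hc_anti _ (Fac.snd _ _)
  have h5 : P.Hc (f 1) (fun w => (f 2 w, Z w)) ≤ P.Hc (f 1) Z := P.Hc_anti _ (Fac.snd _ _)
  rw [Fin.sum_univ_three]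
  linarith

end hc3

section all

variable {X β γ φ υ : Type} [Fintype X] [Fintype β] [Fintype φ] [Nonempty X] [Nonempty β]
variable {D : HD (Fin 3) X β γ φ} {al : ℝ} (h : D.Thick al) {v : ℕ → Finset (Fin 3) → X → (Fin 3 → β) → υ}
variable {dg : ℕ → X → ℝ} {prr : ℕ → Fin 3 → φ → φ} {T : ℕ} {Lam : ℝ}

/-- the three points do not see functions of the hidden point and the node -/
theorem I_ptsA (hv : Codes D v) {t s n : ℕ} (htn : t ≤ n) (hsn : s ≤ n + 1) {κ : Type*} {F : Pt (Fin 3) X β φ → κ}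
    (hF : Fac (fun w => (w.1, nd D n w)) F) : (D.P h t).I (fun w => w.2.1) F (NP D v s n) = 0 := by
  have h0 := I_zero h (J := (∅ : Finset (Fin 3))) htn
  have hb : Fac (BB (φ := φ) D n (∅ : Finset (Fin 3))) (nd D n) := fun a b hab => (BB_yJ.1 hab).2
  have h1 : (D.P h t).I (fun w => (F w, Um v s ∅ w.1 w.2.1)) (fun w => w.2.1) (BB D n ∅) ≤ 0 := by
    rw [← h0]
    refine (D.P h t).I_mono (X := AA ∅) (fun w => w.2.1) ?_
    intro a b hab
    have h2 : a.1 = b.1 := (AA_eq.1 (Prod.mk.inj hab).1).1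
    have h3 : BB D n ∅ a = BB D n ∅ b := (Prod.mk.inj hab).2
    have h4 : F a = F b := hF a b (Prod.ext h2 (hb a b h3))
    refine Prod.ext h4 ?_
    have h5 := Um_AA hv hsn (Finset.Subset.refl ∅) hab
    exact h5
  rw [(D.P h t).I_chain] at h1
  have h2 := (D.P h t).I_nonneg (fun w => Um v s ∅ w.1 w.2.1) (fun w => w.2.1) (BB D n (∅ : Finset (Fin 3)))
  have h3 : (D.P h t).I F (fun w => w.2.1) (fun w => (Um v s ∅ w.1 w.2.1, BB D n ∅ w)) ≤ 0 := by linarith
  have h4 : (D.P h t).I F (fun w => w.2.1) (fun w => (Um v s ∅ w.1 w.2.1, BB D n ∅ w)) =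
      (D.P h t).I F (fun w => w.2.1) (NP D v s n) := by
    refine (D.P h t).I_congr_cond ?_ ?_
    · intro a b hab
      have h5 := Prod.mk.inj hab
      exact NP_eq.2 ⟨h5.1, hb a b h5.2⟩
    · intro a b hab
      rw [NP_eq] at hab
      refine Prod.ext hab.1 (BB_yJ.2 ⟨?_, hab.2⟩)
      rw [yJ_eq]
      exact fun j hj => absurd hj (Finset.notMem_empty j)
  rw [h4, (D.P h t).I_comm] at h3
  exact le_antisymm h3 ((D.P h t).I_nonneg _ _ _)

/-- the letters of the three vertices -/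
def XA (v : ℕ → Finset (Fin 3) → X → (Fin 3 → β) → υ) (s : ℕ) (w : Pt (Fin 3) X β φ) : Fin 3 → β × List υ := fun i => XL v s i w

variable (v) in
/-- their entropy given the points and the public information, half step `r` -/
noncomputable def eA (r : ℕ) : ℝ := (D.P h 0).Hc (fun w i => XLr v r i w) (fun w => (w.2.1, NPr v D r w))

theorem eA_nonneg (r : ℕ) : 0 ≤ eA h v r := FP.Hc_nonneg _ _ _

theorem dry_ptA : Dry (fun w : Pt (Fin 3) X β φ => w.2.1) := fun _ _ _ h2 => h2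

theorem dry_XA (r : ℕ) : Dry (fun (w : Pt (Fin 3) X β φ) (i : Fin 3) => XLr v r i w) := fun a b h1 h2 =>
  funext fun i => dry_XLr r i a b h1 h2

theorem eA_even (t : ℕ) : eA h v (2 * t) = (D.P h t).Hc (XA v (t + 1)) (fun w => (w.2.1, NP D v (t + 1) t w)) := by
  unfold eA
  rw [Hc_time h (dry_XA _) (dry_ptA.prod (dry_NPr _)) 0 t, NPr_even]
  congr 1
  funext w i
  rw [XLr_even]
  rfl

theorem eA_odd (t : ℕ) : eA h v (2 * t + 1) = (D.P h t).Hc (XA v (t + 1)) (fun w => (w.2.1, NP D v (t + 1) (t + 1) w)) := by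
  unfold eA
  rw [Hc_time h (dry_XA _) (dry_ptA.prod (dry_NPr _)) 0 t, NPr_odd]
  congr 1
  funext w i
  rw [XLr_odd]
  rfl

theorem digit_gainA (H : D.Hyp dg prr al T Lam) (hv : Codes D v) {t : ℕ} (ht : t < T) :
    (D.P h t).I (XA v (t + 1)) (fun u => dg t u.1) (NP D v (t + 1) t) + eA h v (2 * t + 1) ≤ eA h v (2 * t) := by
  rw [eA_even, eA_odd]
  refine gain_step (D.P h t) (Y := fun w => w.2.1) (I_ptsA h hv le_rfl le_rfl ?_) ?_
  · intro a b hab
    have h1 : a.1 = b.1 := (Prod.mk.inj hab).1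
    show dg t a.1 = dg t b.1
    rw [h1]
  · intro a b hab
    have h1 : a.2.1 = b.2.1 := (Prod.mk.inj hab).1
    have h2 : NP D v (t + 1) (t + 1) a = NP D v (t + 1) (t + 1) b := (Prod.mk.inj hab).2
    rw [NP_eq] at h2
    have h3 := (nd_eq.1 h2.2).1
    refine Prod.ext ((H.dg_cell t ht a.1 b.1).1 h3).2 (Prod.ext h1 (NP_eq.2 ⟨h2.1, nd_older (Nat.le_succ t) h2.2⟩))

theorem code_gainA (hv : Codes D v) (t : ℕ) :
    (D.P h t).I (XA v (t + 1)) (Vt v (t + 1) ∅) (NP D v (t + 1) (t + 1)) + eA h v (2 * (t + 1)) ≤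
      eA h v (2 * t + 1) + ∑ i, cst h v (t + 1) {i} := by
  have h1 := gain_step (D.P h t) (XX := XA v (t + 1)) (Y := fun w => w.2.1) (V := Vt v (t + 1) ∅)
    (Z := NP D v (t + 1) (t + 1)) (Z' := NP D v (t + 2) (t + 1)) (I_ptsA h hv (Nat.le_succ t) (Nat.le_succ _) ?_) ?_
  · rw [← eA_odd] at h1
    have h2 : eA h v (2 * (t + 1)) ≤ (D.P h t).Hc (XA v (t + 1)) (fun w => (w.2.1, NP D v (t + 2) (t + 1) w)) +
        ∑ i, cst h v (t + 1) {i} := by
      have h3 : eA h v (2 * (t + 1)) ≤ (D.P h 0).Hc (fun w => ((fun i => XLr v (2 * t + 1 + 1) i w),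
          (fun i => XLr v (2 * t + 1) i w))) (fun w => (w.2.1, NPr v D (2 * t + 1 + 1) w)) := by
        unfold eA
        rw [show 2 * (t + 1) = 2 * t + 1 + 1 by ring]
        exact (D.P h 0).Hc_mono _ ((Fac.fst _ _).trans (Fac.fst _ _))
      rw [(D.P h 0).Hc_chain (fun w i => XLr v (2 * t + 1 + 1) i w) (fun w i => XLr v (2 * t + 1) i w)] at h3
      have h4 : (D.P h 0).Hc (fun w i => XLr v (2 * t + 1 + 1) i w) (fun w => ((fun i => XLr v (2 * t + 1) i w),
          (w.2.1, NPr v D (2 * t + 1 + 1) w))) ≤ ∑ i, cst h v (t + 1) {i} := by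
        refine (Hc_fin3 (D.P h 0) (f := fun i w => XLr v (2 * t + 1 + 1) i w) _).trans (Finset.sum_le_sum fun i _ => ?_)
        rw [← step_one h 0 t i]
        refine (D.P h 0).Hc_anti _ ?_
        intro a b hab
        simp only [Prod.mk.injEq] at hab ⊢
        exact ⟨congrFun hab.1 i, congrFun hab.2.1 i, hab.2.2⟩
      have h5 : (D.P h 0).Hc (fun w i => XLr v (2 * t + 1) i w) (fun w => (w.2.1, NPr v D (2 * t + 1 + 1) w)) =
          (D.P h t).Hc (XA v (t + 1)) (fun w => (w.2.1, NP D v (t + 2) (t + 1) w)) := by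
        rw [Hc_time h (dry_XA _) (dry_ptA.prod (dry_NPr _)) 0 t]
        rw [show 2 * t + 1 + 1 = 2 * (t + 1) by ring, NPr_even]
        congr 1
        funext w i
        rw [XLr_odd]
        rfl
      linarith
    linarith
  · intro a b hab
    have h2 : a.1 = b.1 := (Prod.mk.inj hab).1
    have h3 : nd D (t + 1) a = nd D (t + 1) b := (Prod.mk.inj hab).2
    show v (t + 1) ∅ a.1 a.2.1 = v (t + 1) ∅ b.1 b.2.1
    rw [h2]
    exact hv (t + 1) ∅ b.1 a.2.1 b.2.1 (fun j hj => absurd hj (Finset.notMem_empty j)) (nd_eq.1 h3).2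
  · intro a b hab
    have h2 : a.2.1 = b.2.1 := (Prod.mk.inj hab).1
    have h3 : NP D v (t + 2) (t + 1) a = NP D v (t + 2) (t + 1) b := (Prod.mk.inj hab).2
    rw [NP_eq] at h3
    have h4 := Um_eq.1 h3.1
    exact Prod.ext h4.2 (Prod.ext h2 (NP_eq.2 ⟨h4.1, h3.2⟩))

/-- **ALL THREE LETTERS TOGETHER** -/
theorem all_gain (H : D.Hyp dg prr al T Lam) (hv : Codes D v) :
    ∑ t ∈ range T, ((D.P h t).I (XA v (t + 1)) (fun u => dg t u.1) (NP D v (t + 1) t) +
      (D.P h t).I (XA v (t + 1)) (Vt v (t + 1) ∅) (NP D v (t + 1) (t + 1))) ≤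
      ∑ t ∈ range (T + 1), ∑ i, cst h v t {i} := by
  have h1 : ∀ t ∈ range T, (D.P h t).I (XA v (t + 1)) (fun u => dg t u.1) (NP D v (t + 1) t) +
      (D.P h t).I (XA v (t + 1)) (Vt v (t + 1) ∅) (NP D v (t + 1) (t + 1)) ≤
        ∑ i, cst h v (t + 1) {i} - (eA h v (2 * (t + 1)) - eA h v (2 * t)) := by
    intro t ht
    have a1 := digit_gainA h H hv (Finset.mem_range.1 ht)
    have a2 := code_gainA h hv t
    linarith
  refine (Finset.sum_le_sum h1).trans ?_
  rw [Finset.sum_sub_distrib, Finset.sum_range_sub (fun t => eA h v (2 * t)), Finset.sum_range_succ' _ T]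
  have h2 := eA_nonneg h (v := v) (2 * T)
  have h3 : eA h v (2 * 0) ≤ ∑ i, cst h v 0 {i} := by
    unfold eA
    refine (Hc_fin3 (D.P h 0) (f := fun i w => XLr v (2 * 0) i w) _).trans (Finset.sum_le_sum fun i _ => ?_)
    rw [← start_one h 0 i]
    refine (D.P h 0).Hc_anti _ ?_
    intro a b hab
    simp only [Prod.mk.injEq] at hab ⊢
    exact ⟨congrFun hab.1 i, hab.2⟩
  linarith

end all

section allrun

variable {X β γ φ : Type} [Fintype X] [Fintype β] [Fintype φ] [Nonempty X] [Nonempty β]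
variable {D : HD (Fin 3) X β γ φ} {al : ℝ} (h : D.Thick al) {v : ℕ → Finset (Fin 3) → X → (Fin 3 → β) → Pt (Fin 3) X β φ}
variable {dg : ℕ → X → ℝ} {prr : ℕ → Fin 3 → φ → φ} {T : ℕ} {Lam : ℝ}

theorem all_gain_run (H : D.Hyp dg prr al T Lam) {n N1 : ℝ} (R : Run h (pr3 (Fin 3) n N1) (SS1 (Fin 3)) (AdmDep D) v)
    (hn : 1 ≤ n) (hN1 : 1 ≤ N1) :
    ∑ t ∈ range T, ((D.P h t).I (XA v (t + 1)) (fun u => dg t u.1) (NP D v (t + 1) t) +
      (D.P h t).I (XA v (t + 1)) (Vt v (t + 1) ∅) (NP D v (t + 1) (t + 1))) ≤ 9 * (n * Lam) := by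
  refine (all_gain h H R.codes).trans ?_
  rw [Finset.sum_comm, Fin.sum_univ_three]
  have h0 := cost_thin rfl H hn hN1 R (0 : Fin 3)
  have h1 := cost_thin rfl H hn hN1 R (1 : Fin 3)
  have h2 := cost_thin rfl H hn hN1 R (2 : Fin 3)
  linarith

end allrun

end GS

end Pool.Agent.GMH.V3
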