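import Pool.Agent.GMH.FoM
import Pool.Agent.GMH.FoJR
import Pool.Agent.GMH.GainAll

/-!
# GMH/FoBi: THE PUBLIC VALUE OF A STEP, ITS RATIO AT ONE VERTEX, INFORMATIONS (helper81, row K5 (b))

* `liftF` : a function of the new data as a function of their value;
* `OwV q i` : the class of the letter of `i` (public information, letter); `srS`, `sr0S` : ratio of the new public value at the
  vertex `i` (as a function of what the top `i` sees after the step; `s = 0` : the digit);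
* `ivS` : information of the class of `i` about the new public value, `dnS` : the new public value is dense for `Zb_i`
  (`C P(z|public) < P(z|Zb_i)`);
* `iv_sum`, `dn_sum` : the sums over the run are at most `18 n Lam`.
-/

set_option autoImplicit false
set_option linter.unusedSectionVars false
set_option linter.unusedVariables false

namespace Pool.Agent.GMH.TP

open Finset Pool.Agent.PWZ Pool.Agent.M3 Pool.Agent.GM Pool.Agent.GM.Harm Pool.Agent.GMH Pool.Agent.GMH.NZ
open Pool.Agent.GMH.V3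

noncomputable section

section lift

variable {Om γ δ : Type*}

open Classical in
/-- a map as a function of the value of another one -/
def liftF (Y : Om → γ) (N' : Om → δ) (w0 : Om) (y : γ) : δ := if hy : ∃ u, Y u = y then N' hy.choose else N' w0

theorem liftF_eq {Y : Om → γ} {N' : Om → δ} (h : Fac Y N') (w0 u : Om) : N' u = liftF Y N' w0 (Y u) := by
  unfold liftF
  have hy : ∃ u', Y u' = Y u := ⟨u, rfl⟩
  rw [dif_pos hy]
  exact (h _ _ hy.choose_spec).symm

end lift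

section inf

variable {X β γ φ : Type} [Fintype X] [Fintype β] [Fintype φ] [Nonempty X] [Nonempty β]
variable {D : HD (Fin 3) X β γ φ} {al : ℝ} (h : D.Thick al)
  (v : ℕ → Finset (Fin 3) → X → (Fin 3 → β) → Pt (Fin 3) X β φ) (dg : ℕ → X → ℝ)

/-- the class of the letter of `i` -/
def OwV (D : HD (Fin 3) X β γ φ) (q : ℕ) (i : Fin 3) (u : Pt (Fin 3) X β φ) :
    (List (Pt (Fin 3) X β φ) × (γ × (Fin 3 → γ))) × (β × List (Pt (Fin 3) X β φ)) := (NPq D v q u, XLq v q i u)

/-- ratio of the new public value at the vertex `i` -/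
def srS (s : Fin 6) (t : ℕ) (i : Fin 3) (w : Pt (Fin 3) X β φ) (y : Cb X β γ φ) : ℝ :=
  tau (D.P h t) (NPq D v (qs s t)) (OwV v D (qs s t) i) (NPq D v (qe s t)) w
    (liftF (ZbQ D v (qe s t) i) (NPq D v (qe s t)) w y)

/-- ratio of the digit at the vertex `i` -/
def sr0S (t : ℕ) (i : Fin 3) (w : Pt (Fin 3) X β φ) (y : ℝ) : ℝ :=
  tau (D.P h t) (NPq D v (5 * t)) (OwV v D (5 * t) i) (fun u : Pt (Fin 3) X β φ => dg t u.1) w y

/-- information of the class of `i` about the new public value -/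
def ivS (s : Fin 6) (t : ℕ) (i : Fin 3) : ℝ :=
  if s = 0 then Dt (D.P h t) (NPq D v (5 * t)) (OwV v D (5 * t) i) (fun u : Pt (Fin 3) X β φ => dg t u.1)
  else Dt (D.P h t) (NPq D v (qs s t)) (OwV v D (qs s t) i) (NPq D v (qe s t))

/-- the new public value is dense for what the top `i` sees -/
def dnS (C : ℝ) (s : Fin 6) (t : ℕ) (i : Fin 3) (w : Pt (Fin 3) X β φ) : Prop :=
  if s = 0 then dense (D.P h t) (ZbQ D v (5 * t) i) (NPq D v (5 * t)) (fun u : Pt (Fin 3) X β φ => dg t u.1) C w (dg t w.1)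
  else dense (D.P h t) (ZbQ D v (qs s t) i) (NPq D v (qs s t)) (NPq D v (qe s t)) C w (NPq D v (qe s t) w)

variable {v dg}

theorem srS_nn (s : Fin 6) (t : ℕ) (i : Fin 3) (w : Pt (Fin 3) X β φ) (y : Cb X β γ φ) : 0 ≤ srS h v s t i w y :=
  tau_nn _ _ _ _ _ _

theorem sr0S_nn (t : ℕ) (i : Fin 3) (w : Pt (Fin 3) X β φ) (y : ℝ) : 0 ≤ sr0S h v dg t i w y := tau_nn _ _ _ _ _ _

variable {N : Finset (Fin 3) → ℝ} {S : Finset (Finset (Fin 3))}
variable {prr : ℕ → Fin 3 → φ → φ} {T : ℕ} {Lam : ℝ}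

omit [Nonempty X] [Nonempty β] in
theorem XLq_s (s : Fin 6) (t : ℕ) (i : Fin 3) : XLq (φ := φ) v (qs s t) i = XL v (t + 1) i := by
  have key : ∀ j, j ≤ 4 → XLq (φ := φ) v (5 * t + j) i = XL v (t + 1) i := by
    intro j hj
    unfold XLq
    rw [nc_i t j (by omega) i, if_neg (by omega), add_zero]
  fin_cases s
  · exact key 0 (by omega)
  · exact key 1 (by omega)
  · exact key 1 (by omega)
  · exact key 2 (by omega)
  · exact key 3 (by omega)
  · exact key 4 (by omega)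

omit [Nonempty X] [Nonempty β] in
theorem nc_e (t j : ℕ) (hj : j ≤ 5) : nc (5 * t + j) ∅ = t + 1 + if 1 < j then 1 else 0 := by
  rw [nc_add t j (by unfold pth; simp) hj]
  rfl

omit [Nonempty X] [Nonempty β] in
theorem NPq_a (t : ℕ) : NPq (φ := φ) D v (5 * t) = NP D v (t + 1) t := by
  unfold NPq
  have h1 := nc_e t 0 (by omega)
  have h2 := nn_add t 0 (by omega)
  rw [add_zero] at h1 h2
  rw [h1, h2, if_neg (by omega), add_zero]
  rfl

omit [Nonempty X] [Nonempty β] in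
theorem NPq_b (t : ℕ) : NPq (φ := φ) D v (5 * t + 1) = NP D v (t + 1) (t + 1) := by
  unfold NPq
  rw [nc_e t 1 (by omega), nn_add t 1 (by omega), if_neg (by omega), add_zero]
  rfl

omit [Nonempty X] [Nonempty β] in
theorem NPq_c (t : ℕ) {j : ℕ} (h2 : 2 ≤ j) (h5 : j ≤ 5) : NPq (φ := φ) D v (5 * t + j) = NP D v (t + 2) (t + 1) := by
  unfold NPq
  rw [nc_e t j h5, nn_add t j h5, if_pos (by omega)]
  unfold nnj
  rw [if_neg (by omega)]

/-- the letters and the public information give what a top sees -/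
theorem Zb_XA (s : Fin 6) (t : ℕ) (i : Fin 3) :
    Fac (fun w : Pt (Fin 3) X β φ => (GS.XA v (t + 1) w, NPq D v (qs s t) w)) (ZbQ D v (qs s t) i) := by
  intro a b hab
  simp only [Prod.mk.injEq] at hab
  obtain ⟨h1, h2⟩ := hab
  have hX : ∀ j, XLq v (qs s t) j a = XLq v (qs s t) j b := by
    intro j
    rw [XLq_s s t j]
    exact congrFun h1 j
  have h3 := NP_eq.1 h2
  refine Prod.ext (lo_eq.2 fun I hI => ?_) ?_
  · show SL v (qs s t) I a = SL v (qs s t) I b
    have hc : I.card ≤ 1 := lt_pth card3 (ne_univ i) hI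
    have hno : ∀ l, univ.erase l ≠ I := fun l => er_ne_thin hc
    unfold SL
    rw [LL_eq]
    refine ⟨?_, fun l hl => absurd hl (hno l)⟩
    rcases Finset.card_le_one_iff_subset_singleton.1 hc with ⟨j, hj⟩
    rcases Finset.subset_singleton_iff.1 hj with rfl | rfl
    · exact h3.1
    · exact (Prod.mk.inj (hX j)).2
  · show BB D (nn (qs s t)) (univ.erase i) a = BB D (nn (qs s t)) (univ.erase i) b
    rw [BB_yJ, yJ_eq]
    exact ⟨fun j _ => (Prod.mk.inj (hX j)).1, h3.2⟩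

theorem Ow_XA (s : Fin 6) (t : ℕ) (i : Fin 3) :
    Fac (fun w : Pt (Fin 3) X β φ => (GS.XA v (t + 1) w, NPq D v (qs s t) w)) (OwV v D (qs s t) i) := by
  intro a b hab
  simp only [Prod.mk.injEq] at hab
  unfold OwV
  rw [hab.2, XLq_s s t i]
  exact Prod.ext rfl (congrFun hab.1 i)

theorem Ow_NP (q : ℕ) (i : Fin 3) : Fac (OwV v D q i) (NPq D v q) := fun _ _ hab => (Prod.mk.inj hab).1

/-- the informations of one time -/
theorem inf_one {κ : Type*} {F : Fin 6 → Pt (Fin 3) X β φ → κ} (t : ℕ)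
    (hF : ∀ s, Fac (fun w : Pt (Fin 3) X β φ => (GS.XA v (t + 1) w, NPq D v (qs s t) w)) (F s)) :
    (D.P h t).I (F 0) (fun u : Pt (Fin 3) X β φ => dg t u.1) (NPq D v (5 * t)) +
      ∑ s ∈ univ.erase (0 : Fin 6), (D.P h t).I (F s) (NPq D v (qe s t)) (NPq D v (qs s t)) ≤
      2 * ((D.P h t).I (GS.XA v (t + 1)) (fun u : Pt (Fin 3) X β φ => dg t u.1) (NP D v (t + 1) t) +
        (D.P h t).I (GS.XA v (t + 1)) (Vt v (t + 1) ∅) (NP D v (t + 1) (t + 1))) := by
  have a0 : (D.P h t).I (F 0) (fun u : Pt (Fin 3) X β φ => dg t u.1) (NPq D v (5 * t)) ≤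
      (D.P h t).I (GS.XA v (t + 1)) (fun u : Pt (Fin 3) X β φ => dg t u.1) (NP D v (t + 1) t) := by
    rw [← NPq_a]
    exact (D.P h t).I_mono _ (hF 0)
  have a1 : ∀ (s : Fin 6) (j : ℕ), qs s t = 5 * t + 1 → qe s t = 5 * t + j → 2 ≤ j → j ≤ 5 →
      (D.P h t).I (F s) (NPq D v (qe s t)) (NPq D v (qs s t)) ≤
      (D.P h t).I (GS.XA v (t + 1)) (Vt v (t + 1) ∅) (NP D v (t + 1) (t + 1)) := by
    intro s j h1 h2 h3 h4
    refine ((D.P h t).I_mono _ (hF s)).trans ?_
    rw [h1, h2, NPq_b, NPq_c t h3 h4, (D.P h t).I_comm, (D.P h t).I_comm (GS.XA v (t + 1))]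
    refine (D.P h t).I_mono _ ?_
    intro a b hab
    simp only [Prod.mk.injEq] at hab
    have h5 := NP_eq.1 hab.2
    exact NP_eq.2 ⟨Um_eq.2 ⟨h5.1, hab.1⟩, h5.2⟩
  have a2 : ∀ (s : Fin 6) (j j' : ℕ), qs s t = 5 * t + j → qe s t = 5 * t + j' → 2 ≤ j → j' ≤ 5 → j ≤ j' →
      (D.P h t).I (F s) (NPq D v (qe s t)) (NPq D v (qs s t)) ≤ 0 := by
    intro s j j' h1 h2 h3 h4 h5
    rw [h1, h2, NPq_c t h3 (h5.trans h4), NPq_c t (h3.trans h5) h4, (D.P h t).I_comm]
    have h6 : (D.P h t).I (NP D v (t + 2) (t + 1)) (F s) (NP D v (t + 2) (t + 1)) ≤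
        (D.P h t).I (fun _ : Pt (Fin 3) X β φ => ()) (F s) (NP D v (t + 2) (t + 1)) :=
      (D.P h t).I_mono _ (fun a b hab => (Prod.mk.inj hab).2)
    refine h6.trans (le_of_eq ?_)
    rw [(D.P h t).I_eq_Hc]
    have h7 : (D.P h t).Hc (fun _ : Pt (Fin 3) X β φ => ()) (NP D v (t + 2) (t + 1)) ≤
        (D.P h t).Hc (NP D v (t + 2) (t + 1)) (NP D v (t + 2) (t + 1)) := (D.P h t).Hc_mono _ (fun _ _ _ => rfl)
    have h8 := FP.Hc_nonneg (D.P h t) (fun _ : Pt (Fin 3) X β φ => ()) (NP D v (t + 2) (t + 1))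
    have h9 := FP.Hc_nonneg (D.P h t) (fun _ : Pt (Fin 3) X β φ => ()) (fun w => (F s w, NP D v (t + 2) (t + 1) w))
    have h10 : (D.P h t).Hc (NP D v (t + 2) (t + 1)) (NP D v (t + 2) (t + 1)) = 0 := by
      unfold FP.Hc
      have := (D.P h t).H_congr (X := fun w : Pt (Fin 3) X β φ => (NP D v (t + 2) (t + 1) w, NP D v (t + 2) (t + 1) w))
        (Y := NP D v (t + 2) (t + 1)) (Fac.fst _ _) ((Fac.refl _).prod (Fac.refl _))
      linarith
    have h11 : (D.P h t).Hc (fun _ : Pt (Fin 3) X β φ => ()) (fun w => (F s w, NP D v (t + 2) (t + 1) w)) ≤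
        (D.P h t).Hc (fun _ : Pt (Fin 3) X β φ => ()) (NP D v (t + 2) (t + 1)) := (D.P h t).Hc_anti _ (Fac.snd _ _)
    linarith
  have e : (univ.erase (0 : Fin 6) : Finset (Fin 6)) = {1, 2, 3, 4, 5} := by decide
  rw [e, Finset.sum_insert (by decide), Finset.sum_insert (by decide), Finset.sum_insert (by decide),
    Finset.sum_insert (by decide), Finset.sum_singleton]
  have b1 := a1 1 5 rfl rfl (by omega) (by omega)
  have b2 := a1 2 2 rfl rfl (by omega) (by omega)
  have b3 := a2 3 2 3 rfl rfl (by omega) (by omega) (by omega)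
  have b4 := a2 4 3 4 rfl rfl (by omega) (by omega) (by omega)
  have b5 := a2 5 4 5 rfl rfl (by omega) (by omega) (by omega)
  have c0 := (D.P h t).I_nonneg (GS.XA v (t + 1)) (fun u : Pt (Fin 3) X β φ => dg t u.1) (NP D v (t + 1) t)
  linarith

/-- **the information of the class of one vertex about the public values** -/
theorem iv_sum (H : D.Hyp dg prr al T Lam) {n N1 : ℝ} (R : Run h (pr3 (Fin 3) n N1) (SS1 (Fin 3)) (AdmDep D) v)
    (hn : 1 ≤ n) (hN1 : 1 ≤ N1) (i : Fin 3) : ∑ t ∈ range T, ∑ s, ivS h v dg s t i ≤ 18 * (n * Lam) := by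
  have h1 := GS.all_gain_run h H R hn hN1
  have h2 : ∀ t ∈ range T, ∑ s, ivS h v dg s t i ≤
      2 * ((D.P h t).I (GS.XA v (t + 1)) (fun u : Pt (Fin 3) X β φ => dg t u.1) (NP D v (t + 1) t) +
        (D.P h t).I (GS.XA v (t + 1)) (Vt v (t + 1) ∅) (NP D v (t + 1) (t + 1))) := by
    intro t _
    have k := inf_one h (v := v) (dg := dg) t (F := fun s => OwV v D (qs s t) i) (fun s => Ow_XA s t i)
    refine le_trans (le_of_eq ?_) k
    rw [← Finset.add_sum_erase univ _ (mem_univ (0 : Fin 6))]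
    congr 1
    · unfold ivS
      rw [if_pos rfl, Dt_eq (D.P h t) _ _ _ (Ow_NP (5 * t) i)]
      rfl
    · refine Finset.sum_congr rfl fun s hs => ?_
      unfold ivS
      rw [if_neg (Finset.ne_of_mem_erase hs), Dt_eq (D.P h t) _ _ _ (Ow_NP (qs s t) i)]
  refine (Finset.sum_le_sum h2).trans ?_
  rw [← Finset.mul_sum]
  linarith

/-- **the number of dense public values** -/
theorem dn_sum (H : D.Hyp dg prr al T Lam) {n N1 : ℝ} (R : Run h (pr3 (Fin 3) n N1) (SS1 (Fin 3)) (AdmDep D) v)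
    (hn : 1 ≤ n) (hN1 : 1 ≤ N1) (i : Fin 3) {C : ℝ} (hC : Real.exp 2 ≤ C) :
    ∑ t ∈ range T, ∑ s, (D.P h t).E (fun w => ind (dnS h v dg C s t i w)) ≤ 18 * (n * Lam) := by
  have h1 := GS.all_gain_run h H R hn hN1
  have h2 : ∀ t ∈ range T, ∑ s, (D.P h t).E (fun w => ind (dnS h v dg C s t i w)) ≤
      2 * ((D.P h t).I (GS.XA v (t + 1)) (fun u : Pt (Fin 3) X β φ => dg t u.1) (NP D v (t + 1) t) +
        (D.P h t).I (GS.XA v (t + 1)) (Vt v (t + 1) ∅) (NP D v (t + 1) (t + 1))) := by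
    intro t _
    have k := inf_one h (v := v) (dg := dg) t (F := fun s => ZbQ D v (qs s t) i) (fun s => Zb_XA s t i)
    refine le_trans ?_ k
    rw [← Finset.add_sum_erase univ _ (mem_univ (0 : Fin 6))]
    refine add_le_add ?_ (Finset.sum_le_sum fun s hs => ?_)
    · unfold dnS
      simp only [if_true]
      exact dense_le (D.P h t) _ _ _ (Zb_NPq (5 * t) i) hC
    · unfold dnS
      simp only [Finset.ne_of_mem_erase hs, if_false]
      exact dense_le (D.P h t) _ _ _ (Zb_NPq (qs s t) i) hC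
  refine (Finset.sum_le_sum h2).trans ?_
  rw [← Finset.mul_sum]
  linarith

end inf

end

end Pool.Agent.GMH.TP
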