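import Pool.Agent.GMH.FoW

/-!
# GMH/FoH: FIRST ORDER TERMS WITH A FOREIGN WEIGHT AND A FOREIGN EVENT (helper81, item (2) of helper79, row K5)

`wt w x` : a weight of the letters of one top, seen by ALL thin letters (hot row mass); `N` : an event of the additions of all
faces inside `{tau ≤ B}` (all thin ratios at most `B`); `A` : the branch, seen by `(Y, Zb)`; `al0` seen by `Z`.
* `E_realN` : mean at the true additions on the event `N`;
* `linW` : main part of a branch; `linW_not`, `linW_true`;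
* `branchH` : **ONE BRANCH** `E al0 1_A 1_N sum wt (hwk r - 1) ≤ E al0 linW + ((4 B DtW (al0 W) + 2 B E al0 1_A 1_notN W)
  E al0 sum wt lam^2)^(1/2)`, `W = sum wt`;
* `oneH` (no branch), `twoH` (both branches).
-/

set_option autoImplicit false
set_option linter.unusedSectionVars false
set_option linter.unusedVariables false

namespace Pool.Agent.GMH

open Finset Pool.Agent.PWZ Pool.Agent.M3

noncomputable section

section foh

variable {Om : Type*} [Fintype Om] (P : FP Om) {α β γ δ φ : Type*} (Zb : Om → α) (Z : Om → β) (F : Om → φ)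

/-- mean at the true additions on an event -/
theorem E_realN (Y : Om → γ) (N : Om → Prop) {f : Om → γ → ℝ} (hf : ∀ y, Fac Z (fun w => f w y)) :
    P.E (fun w => ind (N w) * f w (Y w)) =
      P.E (fun w => ∑ y ∈ vals Y, P.ce Z (fun u => ind (N u) * ind (Y u = y)) w * f w y) := by
  classical
  have e1 : P.E (fun w => ind (N w) * f w (Y w)) =
      P.E (fun w => ∑ y ∈ vals Y, f w y * (ind (N w) * ind (Y w = y))) := by
    refine P.E_congr fun w _ => ?_
    have hu : Y w ∈ vals Y := by unfold vals; exact Finset.mem_image_of_mem _ (mem_univ w)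
    rw [Finset.sum_eq_single (Y w)]
    · rw [ind_of rfl]; ring
    · intro y _ hy
      rw [ind_not (show ¬ Y w = y from fun hh => hy hh.symm), mul_zero, mul_zero]
    · exact fun hh => absurd hu hh
  rw [e1, P.E_sum, P.E_sum]
  refine Finset.sum_congr rfl fun y _ => ?_
  refine (P.E_mul_ce (hf y) (fun u => ind (N u) * ind (Y u = y))).symm.trans ?_
  exact P.E_congr fun w _ => by ring

/-- main part of a branch with the weight `wt` -/
def linW (A : Om → Prop) (wt : Om → φ → ℝ) (w : Om) : ℝ := ∑ x ∈ vals F, wt w x *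
  (P.ce Zb (fun u => ind (A u) * ind (F u = x)) w / P.pv Zb F w x - P.ce Zb (fun u => ind (A u)) w)

theorem linW_not (A : Om → Prop) {wt : Om → φ → ℝ} {w : Om} (hw : P.p w ≠ 0)
    (hq : ∀ x, P.pv Zb F w x = 0 → wt w x = 0) : linW P Zb F (fun u => ¬ A u) wt w = -linW P Zb F A wt w := by
  have e0 : ∀ u, ind (¬ A u) = 1 - ind (A u) := by
    intro u
    by_cases h : A u
    · rw [ind_of h, ind_not (not_not.2 h)]; ring
    · rw [ind_not h, ind_of h]; ring
  have e1 : P.ce Zb (fun u => ind (¬ A u)) w = 1 - P.ce Zb (fun u => ind (A u)) w := by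
    simp only [e0]
    have h1 := P.ce_add Zb (fun _ => (1 : ℝ)) (fun u => -ind (A u)) w
    rw [P.ce_neg, P.ce_const _ 1 hw] at h1
    refine Eq.trans (P.ce_congr (fun u _ => ?_) w) (h1.trans ?_)
    · ring
    · ring
  have e2 : ∀ x, P.ce Zb (fun u => ind (¬ A u) * ind (F u = x)) w = P.pv Zb F w x -
      P.ce Zb (fun u => ind (A u) * ind (F u = x)) w := by
    intro x
    have h1 := P.ce_add Zb (fun u => ind (F u = x)) (fun u => -(ind (A u) * ind (F u = x))) w
    rw [P.ce_neg] at h1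
    have h2 : P.pv Zb F w x = P.ce Zb (fun u => ind (F u = x)) w := rfl
    rw [h2]
    refine Eq.trans (P.ce_congr (fun u _ => ?_) w) (h1.trans ?_)
    · rw [e0]; ring
    · ring
  unfold linW
  rw [← Finset.sum_neg_distrib]
  refine Finset.sum_congr rfl fun x _ => ?_
  rw [e1, e2]
  by_cases hx : P.pv Zb F w x = 0
  · rw [hq x hx]; ring
  · rw [sub_div, div_self hx]; ring

theorem linW_true {wt : Om → φ → ℝ} {w : Om} (hw : P.p w ≠ 0) (hq : ∀ x, P.pv Zb F w x = 0 → wt w x = 0) :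
    linW P Zb F (fun _ => True) wt w = 0 := by
  unfold linW
  refine Finset.sum_eq_zero fun x _ => ?_
  by_cases hx : P.pv Zb F w x = 0
  · rw [hq x hx, zero_mul]
  have e1 : P.ce Zb (fun u => ind ((fun _ : Om => True) u)) w = 1 := by
    rw [P.ce_congr (g := fun _ => (1 : ℝ)) (fun u _ => ind_of trivial) w]
    exact P.ce_const _ 1 hw
  have e2 : P.ce Zb (fun u => ind ((fun _ : Om => True) u) * ind (F u = x)) w = P.pv Zb F w x := by
    unfold FP.pv
    exact P.ce_congr (fun u _ => by rw [ind_of trivial, one_mul]) w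
  rw [e1, e2, div_self hx, sub_self, mul_zero]

/-- mean of the branch over independent additions: at most the main part (the strong letters have the good sign) -/
theorem sum_br_le {Y : Om → γ} {A : Om → Prop} (hA : Fac (fun u => (Y u, Zb u)) A) (B : ℝ) {wt : Om → φ → ℝ} {w : Om}
    (hw0 : ∀ x, 0 ≤ wt w x) (hq : ∀ x, P.pv Zb F w x = 0 → wt w x = 0) :
    ∑ y ∈ vals Y, P.pv Zb Y w y * (ind (brV Zb Y A w y) * ∑ x ∈ vals F, wt w x * (hwk B (rr P Zb F Y w y x) - 1)) ≤
      linW P Zb F A wt w := by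
  have e3 : ∑ y ∈ vals Y, P.pv Zb Y w y * (ind (brV Zb Y A w y) * ∑ x ∈ vals F, wt w x * (rr P Zb F Y w y x - 1)) =
      linW P Zb F A wt w := by
    have e4 : ∑ y ∈ vals Y, P.pv Zb Y w y * (ind (brV Zb Y A w y) * ∑ x ∈ vals F, wt w x * (rr P Zb F Y w y x - 1)) =
        ∑ x ∈ vals F, wt w x * (∑ y ∈ vals Y, P.pv Zb Y w y * ind (brV Zb Y A w y) * rr P Zb F Y w y x -
          ∑ y ∈ vals Y, P.pv Zb Y w y * ind (brV Zb Y A w y)) := by
      have e5 : ∀ x ∈ vals F, wt w x * (∑ y ∈ vals Y, P.pv Zb Y w y * ind (brV Zb Y A w y) * rr P Zb F Y w y x -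
          ∑ y ∈ vals Y, P.pv Zb Y w y * ind (brV Zb Y A w y)) =
          ∑ y ∈ vals Y, P.pv Zb Y w y * (ind (brV Zb Y A w y) * (wt w x * (rr P Zb F Y w y x - 1))) := by
        intro x _
        rw [← Finset.sum_sub_distrib, Finset.mul_sum]
        exact Finset.sum_congr rfl fun y _ => by ring
      rw [Finset.sum_congr rfl e5, Finset.sum_comm (s := vals F) (t := vals Y)]
      refine Finset.sum_congr rfl fun y _ => ?_
      rw [Finset.mul_sum, Finset.mul_sum]
    rw [e4]
    unfold linW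
    refine Finset.sum_congr rfl fun x _ => ?_
    rw [sum_br P Zb hA]
    by_cases hx : P.pv Zb F w x = 0
    · rw [hq x hx]; ring
    · congr 2
      rw [eq_div_iff hx, ← sum_brx P Zb F hA w x, Finset.sum_mul]
      refine Finset.sum_congr rfl fun y _ => ?_
      have h := yq_rr P Zb F Y w y x
      calc P.pv Zb Y w y * ind (brV Zb Y A w y) * rr P Zb F Y w y x * P.pv Zb F w x =
          ind (brV Zb Y A w y) * (P.pv Zb Y w y * (P.pv Zb F w x * rr P Zb F Y w y x)) := by ring
        _ = _ := by rw [h]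
  rw [← e3]
  refine Finset.sum_le_sum fun y _ => mul_le_mul_of_nonneg_left (mul_le_mul_of_nonneg_left
    (Finset.sum_le_sum fun x _ => mul_le_mul_of_nonneg_left ?_ (hw0 x)) (ind_nonneg _)) (P.pv_nonneg _ _ _ _)
  have h1 := hwk_add_hsg B (rr P Zb F Y w y x)
  have h2 := hsg_nonneg (B := B) (rr_nn P Zb F Y w y x)
  linarith

variable {P Zb Z F} in
/-- **ONE BRANCH** -/
theorem branchH (hZ : Fac Z Zb) {Y : Om → γ} {A : Om → Prop} (hA : Fac (fun u => (Y u, Zb u)) A) {B : ℝ}
    (hB : Real.exp 2 ≤ B) {al : Om → ℝ} (hal : Fac Z al) (h0 : ∀ w, 0 ≤ al w) {wt : Om → φ → ℝ}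
    (hwt : ∀ x, Fac Z (fun w => wt w x)) (hw0 : ∀ w x, 0 ≤ wt w x)
    (hq : ∀ w, P.p w ≠ 0 → ∀ x, P.pv Zb F w x = 0 → wt w x = 0) {N : Om → Prop}
    (hN : ∀ w, P.p w ≠ 0 → N w → ¬ B < tau P Zb Z Y w (Y w)) :
    P.E (fun w => al w * (ind (A w) * (ind (N w) * ∑ x ∈ vals F, wt w x * (hwk B (rr P Zb F Y w (Y w) x) - 1)))) ≤
      P.E (fun w => al w * linW P Zb F A wt w) +
      Real.sqrt ((4 * B * DtW P Zb Z Y (fun w => al w * ∑ x ∈ vals F, wt w x) +
        2 * B * P.E (fun w => al w * (ind (A w) * (ind (¬ N w) * ∑ x ∈ vals F, wt w x)))) *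
        P.E (fun w => al w * ∑ x ∈ vals F, wt w x * lam P Zb F Y B w x ^ 2)) := by
  classical
  have hB1 : 1 ≤ B := by
    have := Real.add_one_le_exp 2
    linarith
  have hB0 : 0 ≤ B := by linarith
  have hi0 : ∀ w y, 0 ≤ ind (brV Zb Y A w y) := fun w y => ind_nonneg _
  have hi1 : ∀ w y, ind (brV Zb Y A w y) ≤ 1 := fun w y => ind_le_one _
  -- the weights at the additions
  set ph : Om → γ → ℝ := fun w y => ∑ x ∈ vals F, wt w x * (hwk B (rr P Zb F Y w y x) - 1) with hph
  set nu : Om → γ → ℝ := fun w y => P.ce Z (fun u => ind (N u) * ind (Y u = y)) w with hnu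
  set nn' : Om → γ → ℝ := fun w y => P.ce Z (fun u => ind (¬ N u) * ind (Y u = y)) w with hnn
  have nu0 : ∀ w y, 0 ≤ nu w y := fun w y => P.ce_nonneg (fun u _ => mul_nonneg (ind_nonneg _) (ind_nonneg _)) w
  have nn0 : ∀ w y, 0 ≤ nn' w y := fun w y => P.ce_nonneg (fun u _ => mul_nonneg (ind_nonneg _) (ind_nonneg _)) w
  have nusum : ∀ w y, nu w y + nn' w y = P.pv Z Y w y := by
    intro w y
    have h1 := P.ce_add Z (fun u => ind (N u) * ind (Y u = y)) (fun u => ind (¬ N u) * ind (Y u = y)) w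
    rw [hnu, hnn]
    dsimp only
    rw [← h1]
    unfold FP.pv
    refine P.ce_congr (fun u _ => ?_) w
    by_cases h : N u
    · rw [ind_of h, ind_not (not_not.2 h)]; ring
    · rw [ind_not h, ind_of h]; ring
  have nuτ : ∀ w y, B < tau P Zb Z Y w y → nu w y = 0 := by
    intro w y hτ
    rw [hnu]
    dsimp only
    unfold FP.ce
    have : P.E (fun u => ind (Z u = Z w) * (ind (N u) * ind (Y u = y))) = 0 := by
      refine (P.E_congr fun u hu => ?_).trans (P.E_const 0)
      by_cases h1 : Z u = Z w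
      · by_cases h2 : N u
        · by_cases h3 : Y u = y
          · exfalso
            have h4 := hN u hu h2
            rw [h3, tauc P Y hZ h1 y] at h4
            exact h4 hτ
          · rw [ind_not h3]; ring
        · rw [ind_not h2]; ring
      · rw [ind_not h1]; ring
    rw [this, zero_div]
  have fph : ∀ y, Fac Z (fun w => ph w y) := by
    intro y a b hab
    show ∑ x ∈ vals F, wt a x * (hwk B (rr P Zb F Y a y x) - 1) = ∑ x ∈ vals F, wt b x * (hwk B (rr P Zb F Y b y x) - 1)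
    refine Finset.sum_congr rfl fun x _ => ?_
    rw [rrc P F Y (hZ a b hab) y x, show wt a x = wt b x from hwt x a b hab]
  have fbr : ∀ y, Fac Z (fun w => al w * (ind (brV Zb Y A w y) * ph w y)) := by
    intro y a b hab
    show al a * (ind (brV Zb Y A a y) * ph a y) = al b * (ind (brV Zb Y A b y) * ph b y)
    rw [show al a = al b from hal a b hab, brV_fac Y A y (hZ a b hab), show ph a y = ph b y from fph y a b hab]
  -- mean at independent additions
  have e1 : P.E (fun w => al w * (ind (A w) * (ind (N w) * ph w (Y w)))) =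
      P.E (fun w => al w * ∑ y ∈ vals Y, P.pv Zb Y w y * (ind (brV Zb Y A w y) * ph w y)) +
      P.E (fun w => ∑ y ∈ vals Y, al w * ind (brV Zb Y A w y) * (nu w y - P.pv Zb Y w y) * ph w y) := by
    have e0 : P.E (fun w => al w * (ind (A w) * (ind (N w) * ph w (Y w)))) =
        P.E (fun w => ind (N w) * (al w * (ind (brV Zb Y A w (Y w)) * ph w (Y w)))) := by
      refine P.E_congr fun w _ => ?_
      rw [brV_iff hA]
      ring
    rw [e0, E_realN P Z Y N (f := fun w y => al w * (ind (brV Zb Y A w y) * ph w y)) fbr, ← P.E_add]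
    refine P.E_congr fun w _ => ?_
    rw [Finset.mul_sum, ← Finset.sum_add_distrib]
    exact Finset.sum_congr rfl fun y _ => by rw [hnu]; ring
  have k1 : P.E (fun w => al w * ∑ y ∈ vals Y, P.pv Zb Y w y * (ind (brV Zb Y A w y) * ph w y)) ≤
      P.E (fun w => al w * linW P Zb F A wt w) :=
    P.E_mono fun w hw => mul_le_mul_of_nonneg_left (sum_br_le P Zb F hA B (hw0 w) (hq w hw)) (h0 w)
  -- Cauchy - Schwarz
  set th : Om → γ → ℝ := fun w y => nu w y / P.pv Zb Y w y - 1 with hth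
  have hpz : ∀ w y, P.pv Zb Y w y = 0 → nu w y = 0 ∧ nn' w y = 0 := by
    intro w y hy
    have h1 := P.pv_ac hZ Y hy
    have h2 := nusum w y
    rw [h1] at h2
    constructor <;> linarith [nu0 w y, nn0 w y]
  have k2 := E_sum_cs P (vals Y ×ˢ vals F)
    (fun w j => al w * ind (brV Zb Y A w j.1) * P.pv Zb Y w j.1 * wt w j.2)
    (fun w j => th w j.1) (fun w j => hwk B (rr P Zb F Y w j.1 j.2) - 1)
    (fun w _ j _ => mul_nonneg (mul_nonneg (mul_nonneg (h0 w) (hi0 w j.1)) (P.pv_nonneg _ _ _ _)) (hw0 w j.2))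
  have e2 : P.E (fun w => ∑ y ∈ vals Y, al w * ind (brV Zb Y A w y) * (nu w y - P.pv Zb Y w y) * ph w y) =
      P.E (fun w => ∑ j ∈ vals Y ×ˢ vals F, (al w * ind (brV Zb Y A w j.1) * P.pv Zb Y w j.1 * wt w j.2) *
        (th w j.1 * (hwk B (rr P Zb F Y w j.1 j.2) - 1))) := by
    refine P.E_congr fun w _ => ?_
    rw [Finset.sum_product]
    refine Finset.sum_congr rfl fun y _ => ?_
    have h1 : nu w y - P.pv Zb Y w y = P.pv Zb Y w y * th w y := by
      rw [hth]
      dsimp only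
      by_cases hy : P.pv Zb Y w y = 0
      · rw [hy, (hpz w y hy).1]; ring
      · field_simp
    rw [h1, hph]
    dsimp only
    rw [Finset.mul_sum]
    exact Finset.sum_congr rfl fun x _ => by ring
  have k3 : P.E (fun w => ∑ j ∈ vals Y ×ˢ vals F, (al w * ind (brV Zb Y A w j.1) * P.pv Zb Y w j.1 * wt w j.2) *
      th w j.1 ^ 2) ≤ 4 * B * DtW P Zb Z Y (fun w => al w * ∑ x ∈ vals F, wt w x) +
        2 * B * P.E (fun w => al w * (ind (A w) * (ind (¬ N w) * ∑ x ∈ vals F, wt w x))) := by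
    have e3 : P.E (fun w => al w * (ind (A w) * (ind (¬ N w) * ∑ x ∈ vals F, wt w x))) =
        P.E (fun w => ∑ y ∈ vals Y, nn' w y * (al w * (ind (brV Zb Y A w y) * ∑ x ∈ vals F, wt w x))) := by
      rw [← E_realN P Z Y (fun w => ¬ N w) (f := fun w y => al w * (ind (brV Zb Y A w y) * ∑ x ∈ vals F, wt w x))
        (fun y a b hab => by
          show al a * (ind (brV Zb Y A a y) * ∑ x ∈ vals F, wt a x) = al b * (ind (brV Zb Y A b y) * ∑ x ∈ vals F, wt b x)
          rw [show al a = al b from hal a b hab, brV_fac Y A y (hZ a b hab),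
            Finset.sum_congr rfl fun x _ => show wt a x = wt b x from hwt x a b hab])]
      refine P.E_congr fun w _ => ?_
      rw [brV_iff hA]
      ring
    rw [e3]
    unfold DtW
    rw [← P.E_smul, ← P.E_smul, ← P.E_add]
    refine P.E_mono fun w hw => ?_
    rw [Finset.sum_product]
    have e4 : ∀ W : ℝ, 4 * B * (al w * W * ∑ y ∈ vals Y, P.pv Zb Y w y * hphi (tau P Zb Z Y w y)) +
        2 * B * ∑ y ∈ vals Y, nn' w y * (al w * (ind (brV Zb Y A w y) * W)) =
        ∑ y ∈ vals Y, (al w * W) * (4 * B * (P.pv Zb Y w y * hphi (tau P Zb Z Y w y)) +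
          2 * B * (nn' w y * ind (brV Zb Y A w y))) := by
      intro W
      rw [Finset.mul_sum, Finset.mul_sum, Finset.mul_sum, ← Finset.sum_add_distrib]
      exact Finset.sum_congr rfl fun y _ => by ring
    rw [e4]
    refine Finset.sum_le_sum fun y _ => ?_
    have e5 : ∑ x ∈ vals F, (al w * ind (brV Zb Y A w y) * P.pv Zb Y w y * wt w x) * th w y ^ 2 =
        (al w * ∑ x ∈ vals F, wt w x) * (ind (brV Zb Y A w y) * (P.pv Zb Y w y * th w y ^ 2)) := by
      rw [Finset.mul_sum, Finset.sum_mul]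
      exact Finset.sum_congr rfl fun x _ => by ring
    rw [e5]
    have hW0 : 0 ≤ al w * ∑ x ∈ vals F, wt w x := mul_nonneg (h0 w) (Finset.sum_nonneg fun x _ => hw0 w x)
    refine mul_le_mul_of_nonneg_left ?_ hW0
    -- the ratio
    have hp := P.pv_nonneg Zb Y w y
    have hphi0 := hphi_nonneg (tau_nn P Zb Z Y w y)
    have hmain : P.pv Zb Y w y * th w y ^ 2 ≤ 4 * B * (P.pv Zb Y w y * hphi (tau P Zb Z Y w y)) + 2 * B * nn' w y := by
      by_cases hy : P.pv Zb Y w y = 0
      · rw [hy]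
        have := mul_nonneg hB0 (nn0 w y)
        linarith
      have hyp : 0 < P.pv Zb Y w y := lt_of_le_of_ne hp (Ne.symm hy)
      have g1 := wk_sub_sq_le hB (tau_nn P Zb Z Y w y)
      by_cases hτ : B < tau P Zb Z Y w y
      · have t1 : th w y = -1 := by rw [hth]; dsimp only; rw [nuτ w y hτ, zero_div, zero_sub]
        have t2 : hwk B (tau P Zb Z Y w y) = 0 := by unfold hwk; rw [ind_not (not_not.2 hτ)]; ring
        rw [t2] at g1
        rw [t1]
        have := mul_nonneg hB0 (nn0 w y)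
        have h5 : (1 : ℝ) ≤ 2 * B * hphi (tau P Zb Z Y w y) := by linarith
        have h6 : 0 ≤ 2 * B * hphi (tau P Zb Z Y w y) := by positivity
        nlinarith
      · have t2 : hwk B (tau P Zb Z Y w y) = tau P Zb Z Y w y := by unfold hwk; rw [ind_of hτ]; ring
        rw [t2] at g1
        set τ := tau P Zb Z Y w y with hτd
        have hz := yz_eq P Y hZ w y
        rw [← hτd] at hz
        set dl := nn' w y / P.pv Zb Y w y with hdl
        have hdl0 : 0 ≤ dl := div_nonneg (nn0 w y) hp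
        have t3 : th w y = (τ - 1) - dl := by
          rw [hth, hdl]
          dsimp only
          have h7 := nusum w y
          rw [hz] at h7
          have h8 : nu w y = τ * P.pv Zb Y w y - nn' w y := by linarith
          rw [h8, sub_div, mul_div_assoc, div_self hy]
          ring
        have t4 : dl ≤ B := by
          have h7 := nusum w y
          rw [hz] at h7
          rw [hdl, div_le_iff₀ hyp]
          have h8 : nn' w y ≤ τ * P.pv Zb Y w y := by linarith [nu0 w y]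
          exact h8.trans (mul_le_mul_of_nonneg_right (not_lt.1 hτ) hp)
        have t5 : th w y ^ 2 ≤ 2 * (τ - 1) ^ 2 + 2 * B * dl := by
          rw [t3]
          nlinarith [sq_nonneg (τ - 1 + dl), mul_nonneg hdl0 (sub_nonneg.2 t4)]
        have t6 : P.pv Zb Y w y * dl = nn' w y := by rw [hdl]; field_simp
        have t7 := mul_le_mul_of_nonneg_left t5 hp
        have t8 := mul_le_mul_of_nonneg_left g1 hp
        nlinarith
    have h9 : ind (brV Zb Y A w y) * (P.pv Zb Y w y * th w y ^ 2) ≤ ind (brV Zb Y A w y) *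
        (4 * B * (P.pv Zb Y w y * hphi (tau P Zb Z Y w y)) + 2 * B * nn' w y) := mul_le_mul_of_nonneg_left hmain (hi0 w y)
    have h10 : ind (brV Zb Y A w y) * (4 * B * (P.pv Zb Y w y * hphi (tau P Zb Z Y w y))) ≤
        4 * B * (P.pv Zb Y w y * hphi (tau P Zb Z Y w y)) := mul_le_of_le_one_left (by positivity) (hi1 w y)
    nlinarith
  have k4 : P.E (fun w => ∑ j ∈ vals Y ×ˢ vals F, (al w * ind (brV Zb Y A w j.1) * P.pv Zb Y w j.1 * wt w j.2) *
      (hwk B (rr P Zb F Y w j.1 j.2) - 1) ^ 2) ≤ P.E (fun w => al w * ∑ x ∈ vals F, wt w x * lam P Zb F Y B w x ^ 2) := by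
    refine P.E_mono fun w hw => ?_
    rw [Finset.sum_product, Finset.sum_comm, Finset.mul_sum]
    refine Finset.sum_le_sum fun x _ => ?_
    rw [lam_sq, Finset.mul_sum, Finset.mul_sum]
    refine Finset.sum_le_sum fun y _ => ?_
    have h1 := mul_nonneg (h0 w) (mul_nonneg (hw0 w x) (mul_nonneg (P.pv_nonneg Zb Y w y)
      (sq_nonneg (hwk B (rr P Zb F Y w y x) - 1))))
    have h2 := mul_le_of_le_one_left h1 (hi1 w y)
    calc al w * ind (brV Zb Y A w y) * P.pv Zb Y w y * wt w x * (hwk B (rr P Zb F Y w y x) - 1) ^ 2 =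
        ind (brV Zb Y A w y) * (al w * (wt w x * (P.pv Zb Y w y * (hwk B (rr P Zb F Y w y x) - 1) ^ 2))) := by ring
      _ ≤ _ := h2
  have a0 : 0 ≤ P.E (fun w => ∑ j ∈ vals Y ×ˢ vals F, (al w * ind (brV Zb Y A w j.1) * P.pv Zb Y w j.1 * wt w j.2) *
      (hwk B (rr P Zb F Y w j.1 j.2) - 1) ^ 2) := P.E_nonneg fun w _ => Finset.sum_nonneg fun j _ =>
    mul_nonneg (mul_nonneg (mul_nonneg (mul_nonneg (h0 w) (hi0 w j.1)) (P.pv_nonneg _ _ _ _)) (hw0 w j.2)) (sq_nonneg _)
  have a1 : 0 ≤ P.E (fun w => ∑ j ∈ vals Y ×ˢ vals F, (al w * ind (brV Zb Y A w j.1) * P.pv Zb Y w j.1 * wt w j.2) *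
      th w j.1 ^ 2) := P.E_nonneg fun w _ => Finset.sum_nonneg fun j _ =>
    mul_nonneg (mul_nonneg (mul_nonneg (mul_nonneg (h0 w) (hi0 w j.1)) (P.pv_nonneg _ _ _ _)) (hw0 w j.2)) (sq_nonneg _)
  have k5 := k2.trans (Real.sqrt_le_sqrt (mul_le_mul k3 k4 a0 (a1.trans k3)))
  rw [← e2] at k5
  have k6 := (le_abs_self _).trans k5
  show P.E (fun w => al w * (ind (A w) * (ind (N w) * ph w (Y w)))) ≤ _
  rw [e1]
  linarith

variable {P Zb Z F} in
/-- no branch -/
theorem oneH (hZ : Fac Z Zb) {Y : Om → γ} {B : ℝ} (hB : Real.exp 2 ≤ B) {al : Om → ℝ} (hal : Fac Z al)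
    (h0 : ∀ w, 0 ≤ al w) {wt : Om → φ → ℝ} (hwt : ∀ x, Fac Z (fun w => wt w x)) (hw0 : ∀ w x, 0 ≤ wt w x)
    (hq : ∀ w, P.p w ≠ 0 → ∀ x, P.pv Zb F w x = 0 → wt w x = 0) {N : Om → Prop}
    (hN : ∀ w, P.p w ≠ 0 → N w → ¬ B < tau P Zb Z Y w (Y w)) :
    P.E (fun w => al w * (ind (N w) * ∑ x ∈ vals F, wt w x * (hwk B (rr P Zb F Y w (Y w) x) - 1))) ≤
      Real.sqrt ((4 * B * DtW P Zb Z Y (fun w => al w * ∑ x ∈ vals F, wt w x) +
        2 * B * P.E (fun w => al w * (ind (¬ N w) * ∑ x ∈ vals F, wt w x))) *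
        P.E (fun w => al w * ∑ x ∈ vals F, wt w x * lam P Zb F Y B w x ^ 2)) := by
  have k := branchH (P := P) (Y := Y) (A := fun _ => True) hZ (fun _ _ _ => rfl) hB hal h0 hwt hw0 hq hN
  have e1 : P.E (fun w => al w * linW P Zb F (fun _ => True) wt w) = 0 := by
    rw [P.E_congr (g := fun _ => (0 : ℝ)) (fun w hw => by rw [linW_true P Zb F hw (hq w hw), mul_zero])]
    exact P.E_const 0
  rw [e1, zero_add] at k
  simp only [ind_of (trivial : True), one_mul] at k
  exact k

variable {P Zb Z F} in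
/-- **BOTH BRANCHES** -/
theorem twoH (hZ : Fac Z Zb) {Y1 : Om → γ} {Y2 : Om → δ} {A : Om → Prop} (hA1 : Fac (fun u => (Y1 u, Zb u)) A)
    (hA2 : Fac (fun u => (Y2 u, Zb u)) A) {B : ℝ} (hB : Real.exp 2 ≤ B) {al : Om → ℝ} (hal : Fac Z al)
    (h0 : ∀ w, 0 ≤ al w) {wt : Om → φ → ℝ} (hwt : ∀ x, Fac Z (fun w => wt w x)) (hw0 : ∀ w x, 0 ≤ wt w x)
    (hq : ∀ w, P.p w ≠ 0 → ∀ x, P.pv Zb F w x = 0 → wt w x = 0) {N1 N2 : Om → Prop}
    (hN1 : ∀ w, P.p w ≠ 0 → N1 w → ¬ B < tau P Zb Z Y1 w (Y1 w))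
    (hN2 : ∀ w, P.p w ≠ 0 → N2 w → ¬ B < tau P Zb Z Y2 w (Y2 w)) :
    P.E (fun w => al w * (ind (A w) * (ind (N1 w) * ∑ x ∈ vals F, wt w x * (hwk B (rr P Zb F Y1 w (Y1 w) x) - 1)))) +
    P.E (fun w => al w * (ind (¬ A w) * (ind (N2 w) * ∑ x ∈ vals F, wt w x * (hwk B (rr P Zb F Y2 w (Y2 w) x) - 1)))) ≤
      Real.sqrt ((4 * B * DtW P Zb Z Y1 (fun w => al w * ∑ x ∈ vals F, wt w x) +
        2 * B * P.E (fun w => al w * (ind (A w) * (ind (¬ N1 w) * ∑ x ∈ vals F, wt w x)))) *
        P.E (fun w => al w * ∑ x ∈ vals F, wt w x * lam P Zb F Y1 B w x ^ 2)) +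
      Real.sqrt ((4 * B * DtW P Zb Z Y2 (fun w => al w * ∑ x ∈ vals F, wt w x) +
        2 * B * P.E (fun w => al w * (ind (¬ A w) * (ind (¬ N2 w) * ∑ x ∈ vals F, wt w x)))) *
        P.E (fun w => al w * ∑ x ∈ vals F, wt w x * lam P Zb F Y2 B w x ^ 2)) := by
  have k1 := branchH (P := P) (Y := Y1) (A := A) hZ hA1 hB hal h0 hwt hw0 hq hN1
  have k2 := branchH (P := P) (Y := Y2) (A := fun u => ¬ A u) hZ (fun a b hab => by
    have := hA2 a b hab
    show (¬ A a) = (¬ A b)
    rw [this]) hB hal h0 hwt hw0 hq hN2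
  have e : P.E (fun w => al w * linW P Zb F (fun u => ¬ A u) wt w) = -P.E (fun w => al w * linW P Zb F A wt w) := by
    rw [← P.E_neg]
    refine P.E_congr fun w hw => ?_
    rw [linW_not P Zb F A hw (hq w hw)]
    ring
  rw [e] at k2
  linarith

end foh

end

end Pool.Agent.GMH
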