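import Pool.Agent.GMH.FoSum

/-!
# GMH/FoS0: THE FIRST ORDER TERM AT THE DIGIT (helper81)

At the step `s = 0` the tops see the digit and the new cell of the missing point `b_i`.  The new cell is independent of the
hidden point and of the top, given what the top sees, but the missing letter knows it: `log 2` at every time.  So the first
order term is written with the digit alone:
* `Zb_dig` : what the top sees after the digit; `nu_kap` : the new cell has probability `kap t` (`1` or `1/2`);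
* `m_dig`, `pv_dig0`, `tau_dig0` : masses, laws, ratios; `fo_dig` : `fo` at `s = 0` = first order term of the digit with
  threshold `B * kap t` for the missing letter;
* `first_leT` : first order term, two thresholds;
* `fo_sum0` : **THE FIRST ORDER TERMS OF ONE TOP OVER THE RUN**, all six steps, information `9 n Lam`.
-/

set_option autoImplicit false
set_option linter.unusedSectionVars false
set_option linter.unusedVariables false

namespace Pool.Agent.GMH

open Finset Pool.Agent.PWZ Pool.Agent.M3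

noncomputable section

section two

variable {Om : Type*} [Fintype Om] {P : FP Om} {α β γ δ φ : Type*} {Zb : Om → α} {Z : Om → β} {F : Om → φ}

/-- **FIRST ORDER TERM OF ONE TOP**, threshold `B'` for the missing letter, `B` for the top -/
theorem first_leT (hZ : Fac Z Zb) {Y : Om → γ} {B B' : ℝ} (hB : Real.exp 2 ≤ B') (hBB : B' ≤ B) {al : Om → ℝ}
    (hal : Fac Z al) (h0 : ∀ w, 0 ≤ al w) :
    |P.E (fun w => al w * (ind (¬ B' < tau P Zb Z Y w (Y w)) * phi1 P Zb Z F Y B w (Y w)))| ≤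
      Gd P Zb Z F Y al + B * Real.sqrt (8 * (Gd P Zb Z F Y al * DtW P Zb Z Y al)) := by
  have hB2 : Real.exp 2 ≤ B := hB.trans hBB
  have hB1 : 1 ≤ B := by
    have := Real.add_one_le_exp 2
    linarith
  have hB0 : 0 ≤ B := by linarith
  have hB0' : 0 ≤ B' := (Real.exp_pos 2).le.trans hB
  have fτ := tau_fac P Y hZ
  have fφ := phi1_fac P Zb Z F Y (B := B) hZ
  -- mean at independent additions
  have e1 : P.E (fun w => al w * (ind (¬ B' < tau P Zb Z Y w (Y w)) * phi1 P Zb Z F Y B w (Y w))) =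
      P.E (fun w => al w * ∑ y ∈ vals Y, P.pv Zb Y w y * phi1 P Zb Z F Y B w y) +
      P.E (fun w => ∑ y ∈ vals Y, (al w * P.pv Zb Y w y) * ((hwk B' (tau P Zb Z Y w y) - 1) *
        phi1 P Zb Z F Y B w y)) := by
    rw [E_real P Y (W := Z) (f := fun w y => al w * (ind (¬ B' < tau P Zb Z Y w y) * phi1 P Zb Z F Y B w y))
      (fun y a b hab => by
        show al a * (ind (¬ B' < tau P Zb Z Y a y) * phi1 P Zb Z F Y B a y) =
          al b * (ind (¬ B' < tau P Zb Z Y b y) * phi1 P Zb Z F Y B b y)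
        have g1 : al a = al b := hal a b hab
        have g2 := fτ y a b hab
        have g3 := fφ y a b hab
        simp only at g2 g3
        rw [g1, g2, g3]), ← P.E_add]
    refine P.E_congr fun w _ => ?_
    rw [Finset.mul_sum, ← Finset.sum_add_distrib]
    refine Finset.sum_congr rfl fun y _ => ?_
    rw [yz_eq P Y hZ w y]
    unfold hwk
    ring
  -- first part
  have k1 : |P.E (fun w => al w * ∑ y ∈ vals Y, P.pv Zb Y w y * phi1 P Zb Z F Y B w y)| ≤ Gd P Zb Z F Y al := by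
    refine (P.abs_E_le _).trans ?_
    unfold Gd
    refine P.E_mono fun w hw => ?_
    rw [sum_phi1 P Zb Z F Y hZ hB0 hw, abs_mul, abs_neg, abs_of_nonneg (h0 w)]
    have g1 : |∑ y ∈ vals Y, ∑ x ∈ vals F, P.pv Zb Y w y * ((P.pv Z F w x - P.pv Zb F w x) *
        hsg B (rr P Zb F Y w y x))| ≤ ∑ y ∈ vals Y, ∑ x ∈ vals F, P.pv Zb Y w y * (|P.pv Z F w x - P.pv Zb F w x| *
          hphi (rr P Zb F Y w y x)) := by
      refine (Finset.abs_sum_le_sum_abs _ _).trans (Finset.sum_le_sum fun y _ => ?_)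
      refine (Finset.abs_sum_le_sum_abs _ _).trans (Finset.sum_le_sum fun x _ => ?_)
      rw [abs_mul, abs_mul, abs_of_nonneg (P.pv_nonneg Zb Y w y), abs_of_nonneg (hsg_nonneg (rr_nn P Zb F Y w y x))]
      exact mul_le_mul_of_nonneg_left (mul_le_mul_of_nonneg_left (sg_le_hphi hB2 (rr_nn P Zb F Y w y x)) (abs_nonneg _))
        (P.pv_nonneg _ _ _ _)
    refine (mul_le_mul_of_nonneg_left g1 (h0 w)).trans (le_of_eq ?_)
    rw [Finset.mul_sum]
    refine Finset.sum_congr rfl fun y _ => ?_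
    rw [Finset.mul_sum]
    exact Finset.sum_congr rfl fun x _ => by ring
  -- second part
  have k2 := E_sum_cs P (vals Y) (fun w y => al w * P.pv Zb Y w y) (fun w y => hwk B' (tau P Zb Z Y w y) - 1)
    (fun w y => phi1 P Zb Z F Y B w y)
    (fun w _ y _ => mul_nonneg (h0 w) (P.pv_nonneg _ _ _ _))
  have k3 : P.E (fun w => ∑ y ∈ vals Y, (al w * P.pv Zb Y w y) * (hwk B' (tau P Zb Z Y w y) - 1) ^ 2) ≤
      2 * B * DtW P Zb Z Y al := by
    unfold DtW
    rw [← P.E_smul]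
    refine P.E_mono fun w _ => ?_
    have e9 : 2 * B * (al w * ∑ y ∈ vals Y, P.pv Zb Y w y * hphi (tau P Zb Z Y w y)) =
        ∑ y ∈ vals Y, (al w * P.pv Zb Y w y) * (2 * B * hphi (tau P Zb Z Y w y)) := by
      rw [Finset.mul_sum, Finset.mul_sum]
      exact Finset.sum_congr rfl fun y _ => by ring
    rw [e9]
    refine Finset.sum_le_sum fun y _ => ?_
    have g1 := wk_sub_sq_le hB (tau_nn P Zb Z Y w y)
    have g2 := hphi_nonneg (tau_nn P Zb Z Y w y)
    have g3 : 2 * B' * hphi (tau P Zb Z Y w y) ≤ 2 * B * hphi (tau P Zb Z Y w y) :=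
      mul_le_mul_of_nonneg_right (by linarith) g2
    exact mul_le_mul_of_nonneg_left (g1.trans g3) (mul_nonneg (h0 w) (P.pv_nonneg Zb Y w y))
  have k4 : P.E (fun w => ∑ y ∈ vals Y, (al w * P.pv Zb Y w y) * (phi1 P Zb Z F Y B w y) ^ 2) ≤
      4 * B * Gd P Zb Z F Y al := by
    unfold Gd
    rw [← P.E_smul]
    refine P.E_mono fun w hw => ?_
    rw [Finset.mul_sum]
    refine Finset.sum_le_sum fun y _ => ?_
    have g0 := P.pv_nonneg Zb Y w y
    have g1 : phi1 P Zb Z F Y B w y ^ 2 ≤ 2 * ∑ x ∈ vals F, |P.pv Z F w x - P.pv Zb F w x| *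
        (hwk B (rr P Zb F Y w y x) - 1) ^ 2 := by
      have c := Finset.sum_mul_sq_le_sq_mul_sq (vals F) (fun x => Real.sqrt |P.pv Z F w x - P.pv Zb F w x|)
        (fun x => Real.sqrt |P.pv Z F w x - P.pv Zb F w x| * |hwk B (rr P Zb F Y w y x) - 1|)
      have c1 : |phi1 P Zb Z F Y B w y| ≤ ∑ x ∈ vals F, Real.sqrt |P.pv Z F w x - P.pv Zb F w x| *
          (Real.sqrt |P.pv Z F w x - P.pv Zb F w x| * |hwk B (rr P Zb F Y w y x) - 1|) := by
        unfold phi1
        refine (Finset.abs_sum_le_sum_abs _ _).trans (Finset.sum_le_sum fun x _ => ?_)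
        rw [← mul_assoc, Real.mul_self_sqrt (abs_nonneg _), abs_mul]
      have c2 : ∑ x ∈ vals F, Real.sqrt |P.pv Z F w x - P.pv Zb F w x| ^ 2 ≤ 2 := by
        have c3 : ∑ x ∈ vals F, Real.sqrt |P.pv Z F w x - P.pv Zb F w x| ^ 2 ≤
            ∑ x ∈ vals F, (P.pv Z F w x + P.pv Zb F w x) := by
          refine Finset.sum_le_sum fun x _ => ?_
          rw [Real.sq_sqrt (abs_nonneg _), abs_le]
          have a1 := P.pv_nonneg Z F w x
          have a2 := P.pv_nonneg Zb F w x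
          constructor <;> linarith
        rw [Finset.sum_add_distrib, P.pv_sum Z F hw, P.pv_sum Zb F hw] at c3
        linarith
      have c4 : ∑ x ∈ vals F, (Real.sqrt |P.pv Z F w x - P.pv Zb F w x| * |hwk B (rr P Zb F Y w y x) - 1|) ^ 2 =
          ∑ x ∈ vals F, |P.pv Z F w x - P.pv Zb F w x| * (hwk B (rr P Zb F Y w y x) - 1) ^ 2 := by
        refine Finset.sum_congr rfl fun x _ => ?_
        rw [mul_pow, Real.sq_sqrt (abs_nonneg _), sq_abs]
      rw [c4] at c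
      have c5 : 0 ≤ ∑ x ∈ vals F, |P.pv Z F w x - P.pv Zb F w x| * (hwk B (rr P Zb F Y w y x) - 1) ^ 2 :=
        Finset.sum_nonneg fun x _ => mul_nonneg (abs_nonneg _) (sq_nonneg _)
      have c6 := pow_le_pow_left₀ (abs_nonneg _) c1 2
      rw [sq_abs] at c6
      exact c6.trans (c.trans (mul_le_mul_of_nonneg_right c2 c5))
    have g2 : ∑ x ∈ vals F, |P.pv Z F w x - P.pv Zb F w x| * (hwk B (rr P Zb F Y w y x) - 1) ^ 2 ≤
        2 * B * ∑ x ∈ vals F, |P.pv Z F w x - P.pv Zb F w x| * hphi (rr P Zb F Y w y x) := by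
      rw [Finset.mul_sum]
      refine Finset.sum_le_sum fun x _ => ?_
      have a1 := mul_le_mul_of_nonneg_left (wk_sub_sq_le hB2 (rr_nn P Zb F Y w y x))
        (abs_nonneg (P.pv Z F w x - P.pv Zb F w x))
      linarith
    have g4 : phi1 P Zb Z F Y B w y ^ 2 ≤ 4 * B * ∑ x ∈ vals F,
        |P.pv Z F w x - P.pv Zb F w x| * hphi (rr P Zb F Y w y x) := by linarith
    refine (mul_le_mul_of_nonneg_left g4 (mul_nonneg (h0 w) g0)).trans (le_of_eq ?_)
    have e9 : al w * P.pv Zb Y w y * (4 * B * ∑ x ∈ vals F, |P.pv Z F w x - P.pv Zb F w x| *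
        hphi (rr P Zb F Y w y x)) = 4 * B * ((P.pv Zb Y w y * al w) * ∑ x ∈ vals F, |P.pv Z F w x - P.pv Zb F w x| *
        hphi (rr P Zb F Y w y x)) := by ring
    rw [e9, Finset.mul_sum]
    congr 1
    exact Finset.sum_congr rfl fun x _ => by ring
  have hG := Gd_nn P Zb Z F Y (al := al) h0
  have hD := DtW_nn P Zb Z Y h0
  have k5 : Real.sqrt (P.E (fun w => ∑ y ∈ vals Y, (al w * P.pv Zb Y w y) * (hwk B' (tau P Zb Z Y w y) - 1) ^ 2) *
      P.E (fun w => ∑ y ∈ vals Y, (al w * P.pv Zb Y w y) * (phi1 P Zb Z F Y B w y) ^ 2)) ≤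
      B * Real.sqrt (8 * (Gd P Zb Z F Y al * DtW P Zb Z Y al)) := by
    have a1 : 0 ≤ P.E (fun w => ∑ y ∈ vals Y, (al w * P.pv Zb Y w y) * (phi1 P Zb Z F Y B w y) ^ 2) :=
      P.E_nonneg fun w _ => Finset.sum_nonneg fun y _ =>
        mul_nonneg (mul_nonneg (h0 w) (P.pv_nonneg _ _ _ _)) (sq_nonneg _)
    have a2 := mul_le_mul k3 k4 a1 (by positivity)
    have a3 : B * Real.sqrt (8 * (Gd P Zb Z F Y al * DtW P Zb Z Y al)) =
        Real.sqrt (B ^ 2 * (8 * (Gd P Zb Z F Y al * DtW P Zb Z Y al))) := by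
      rw [Real.sqrt_mul (sq_nonneg B), Real.sqrt_sq hB0]
    rw [a3]
    refine Real.sqrt_le_sqrt (a2.trans (le_of_eq ?_))
    ring
  have k6 := k2.trans k5
  rw [e1]
  refine (abs_add_le _ _).trans ?_
  linarith

end two

end

end Pool.Agent.GMH

namespace Pool.Agent.GMH.TP

open Finset Pool.Agent.PWZ Pool.Agent.M3 Pool.Agent.GM Pool.Agent.GM.Harm Pool.Agent.GMH Pool.Agent.GMH.NZ
open Pool.Agent.GMH.V3

noncomputable section

section dig

variable {X β γ φ : Type} [Fintype X] [Fintype β] [Fintype φ] [Nonempty X] [Nonempty β]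
variable {D : HD (Fin 3) X β γ φ} {al : ℝ} (h : D.Thick al)
  {v : ℕ → Finset (Fin 3) → X → (Fin 3 → β) → Pt (Fin 3) X β φ}
variable {N : Finset (Fin 3) → ℝ} {S : Finset (Finset (Fin 3))}
variable {dg : ℕ → X → ℝ} {prr : ℕ → Fin 3 → φ → φ} {T : ℕ} {Lam : ℝ}

/-- **what the top sees after the digit** -/
theorem Zb_dig (H : D.Hyp dg prr al T Lam) {t : ℕ} (ht : t < T) (i : Fin 3) (c u : Pt (Fin 3) X β φ) :
    ZbQ D v (5 * t + 1) i u = ZbQ D v (5 * t + 1) i c ↔ ZbQ D v (5 * t) i u = ZbQ D v (5 * t) i c ∧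
      dg t u.1 = dg t c.1 ∧ D.qb (t + 1) (u.2.1 i) = D.qb (t + 1) (c.2.1 i) := by
  have e : ∀ n, ZbT D v (Equiv.refl (Fin 3)) (t + 1) n i u = ZbT D v (Equiv.refl (Fin 3)) (t + 1) n i c ↔
      lo (LL (φ := φ) (Um v (t + 1))) (univ.erase i) u = lo (LL (Um v (t + 1))) (univ.erase i) c ∧
        BB D n (univ.erase i) u = BB D n (univ.erase i) c := fun n =>
    ⟨fun hh => Prod.mk.inj hh, fun hh => Prod.ext hh.1 hh.2⟩
  rw [ZbQ_0, ZbQ_1, e, e, BB_eq, BB_eq, H.dg_cell t ht u.1 c.1]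
  constructor
  · rintro ⟨h1, h2, ⟨h3, h4⟩, h5⟩
    exact ⟨⟨h1, h2, h3, fun j => D.rb t _ _ (h5 j)⟩, h4, h5 i⟩
  · rintro ⟨⟨h1, h2, h3, h5⟩, h4, h6⟩
    refine ⟨h1, h2, ⟨h3, h4⟩, fun j => ?_⟩
    by_cases hj : j = i
    · rw [hj]; exact h6
    · rw [h2 j (Finset.mem_erase.2 ⟨hj, mem_univ j⟩)]

variable (D) in
/-- probability of the new cell of a known point -/
def kap (t : ℕ) : ℝ := by
  classical
  exact if ∀ b, D.cB (t + 1) b = D.cB t b then 1 else 1 / 2

theorem kap_pos (t : ℕ) : 0 < kap D t := by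
  unfold kap
  split_ifs <;> norm_num

theorem kap_le (t : ℕ) : kap D t ≤ 1 := by
  unfold kap
  split_ifs <;> norm_num

theorem kap_ge (t : ℕ) : 1 / 2 ≤ kap D t := by
  unfold kap
  split_ifs <;> norm_num

theorem nu_kap (H : D.Hyp dg prr al T Lam) {t : ℕ} (ht : t < T) (c : Pt (Fin 3) X β φ) (i : Fin 3) :
    (nuC D t c i).E (fun b => ind (D.qb (t + 1) b = D.qb (t + 1) (c.2.1 i))) = kap D t := by
  classical
  have hA : (FP.unif β).Pr (cY D t c i) ≠ 0 := unif_ne (cY_self t c i)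
  have e1 : (FP.unif β).E (fun b => ind (cY D t c i b) * ind (D.qb (t + 1) b = D.qb (t + 1) (c.2.1 i))) =
      (FP.unif β).Pr (cY D (t + 1) c i) := by
    refine FP.E_congr _ fun b _ => ?_
    by_cases hb : cY D (t + 1) c i b
    · rw [ind_of hb, ind_of (cY_succ c i b hb), one_mul]
      exact ind_of hb
    · rw [ind_not hb]
      have : ind (D.qb (t + 1) b = D.qb (t + 1) (c.2.1 i)) = 0 := ind_not hb
      rw [this, mul_zero]
  have hcard : ∀ r, (FP.unif β).Pr (cY D r c i) = ((D.cB r (c.2.1 i)).card : ℝ) / Fintype.card β := by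
    intro r
    unfold FP.Pr
    rw [FP.unif_E]
    congr 1
    have e1 : ∀ b, ind (cY D r c i b) = if D.qb r b = D.qb r (c.2.1 i) then (1 : ℝ) else 0 := by
      intro b
      unfold ind cY
      split_ifs <;> rfl
    rw [Finset.sum_congr rfl fun b _ => e1 b, ← Finset.sum_filter, Finset.sum_const, nsmul_eq_mul, mul_one]
    congr 2
  unfold nuC
  rw [FP.cond_E hA, e1]
  rw [hcard] at hA
  rw [hcard, hcard, div_div_div_cancel_right₀ (by
    have : (0 : ℝ) < Fintype.card β := by exact_mod_cast Fintype.card_pos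
    exact this.ne')]
  have hc : ((D.cB t (c.2.1 i)).card : ℝ) ≠ 0 := fun hh => hA (by rw [hh, zero_div])
  unfold kap
  split_ifs with hk
  · rw [hk, div_self hc]
  · have h2 := ((H.half t ht).resolve_left hk) (c.2.1 i)
    have h3 : (2 : ℝ) * ((D.cB (t + 1) (c.2.1 i)).card : ℝ) = ((D.cB t (c.2.1 i)).card : ℝ) := by exact_mod_cast h2
    rw [div_eq_iff hc, ← h3]
    ring

/-- masses after the digit -/
theorem m_dig (H : D.Hyp dg prr al T Lam) (hv : Codes D v) {t : ℕ} (ht : t < T) (i : Fin 3) (c : Pt (Fin 3) X β φ) :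
    (D.P h t).m (fun u => (ZbQ D v (5 * t + 1) i u, ZbQ D v (5 * t) i u)) c =
      kap D t * (D.P h t).m (fun u => (dg t u.1, ZbQ D v (5 * t) i u)) c := by
  classical
  have h1 := cls_E (h := h) hv t (5 * t) c i (fun x b => ind (dg t x = dg t c.1) *
    ind (D.qb (t + 1) b = D.qb (t + 1) (c.2.1 i)))
  have h2 := cls_E (h := h) hv t (5 * t) c i (fun x b => ind (dg t x = dg t c.1))
  rw [nn_0] at h1 h2
  simp only [FP.E_smul, nu_kap H ht c i, FP.E_const] at h1 h2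
  have e1 : (D.P h t).m (fun u => (ZbQ D v (5 * t + 1) i u, ZbQ D v (5 * t) i u)) c =
      (D.P h t).E (fun u => ind (ZbQ D v (5 * t) i u = ZbQ D v (5 * t) i c) * (ind (dg t u.1 = dg t c.1) *
        ind (D.qb (t + 1) (u.2.1 i) = D.qb (t + 1) (c.2.1 i)))) := by
    unfold FP.m
    refine FP.E_congr _ fun u _ => ?_
    rw [← ind_and, ← ind_and]
    refine ind_cg ?_
    rw [Prod.mk.injEq, Zb_dig H ht i c u]
    tauto
  have e2 : (D.P h t).m (fun u => (dg t u.1, ZbQ D v (5 * t) i u)) c =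
      (D.P h t).E (fun u => ind (ZbQ D v (5 * t) i u = ZbQ D v (5 * t) i c) * ind (dg t u.1 = dg t c.1)) := by
    unfold FP.m
    refine FP.E_congr _ fun u _ => ?_
    rw [← ind_and]
    refine ind_cg ?_
    rw [Prod.mk.injEq]
    tauto
  rw [e1, e2, h1, h2]
  have e3 : (muC D v (nc (5 * t) ∅) t c).E (fun x => ind (K0 v (5 * t) i c x) * (ind (dg t x = dg t c.1) * kap D t)) =
      kap D t * (muC D v (nc (5 * t) ∅) t c).E (fun x => ind (K0 v (5 * t) i c x) * ind (dg t x = dg t c.1)) := by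
    rw [← FP.E_smul]
    exact FP.E_congr _ fun x _ => by ring
  rw [e3]
  ring

/-- the law of the top after the digit -/
theorem pv_dig0 (H : D.Hyp dg prr al T Lam) (R : Run h N S (AdmDep D) v) (hS : ∀ l, univ.erase l ∈ S) (hu : univ ∉ S)
    (hN : ∀ l, 0 < N (univ.erase l)) {t : ℕ} (ht : t < T) (i : Fin 3) {w : Pt (Fin 3) X β φ} (hw : (D.P h t).p w ≠ 0)
    (x : List (Pt (Fin 3) X β φ) × (Fin 3 → Option φ)) :
    (D.P h t).pv (fun u => (ZbQ D v (5 * t + 1) i u, ZbQ D v (5 * t) i u)) (FQ v t i) w x =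
      (D.P h t).pv (fun u => (dg t u.1, ZbQ D v (5 * t) i u)) (FQ v t i) w x := by
  classical
  have hv := R.codes
  set P := D.P h t with hP
  have hk := kap_pos (D := D) t
  have hm := m_dig h H hv (v := v) ht i w
  unfold FP.pv FP.ce
  rw [← hP] at hm
  rw [hm]
  have e1 : P.E (fun u => ind ((ZbQ D v (5 * t + 1) i u, ZbQ D v (5 * t) i u) =
      (ZbQ D v (5 * t + 1) i w, ZbQ D v (5 * t) i w)) * ind (FQ v t i u = x)) =
      P.E (fun u => ind (ZbQ D v (5 * t) i u = ZbQ D v (5 * t) i w) * (ind (FQ v t i u = x) *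
        (ind (dg t u.1 = dg t w.1) * ind (D.qb (t + 1) (u.2.1 i) = D.qb (t + 1) (w.2.1 i))))) := by
    refine FP.E_congr _ fun u _ => ?_
    rw [← ind_and, ← ind_and, ← ind_and, ← ind_and]
    refine ind_cg ?_
    rw [Prod.mk.injEq, Zb_dig H ht i w u]
    tauto
  have e2 : P.E (fun u => ind ((dg t u.1, ZbQ D v (5 * t) i u) = (dg t w.1, ZbQ D v (5 * t) i w)) *
      ind (FQ v t i u = x)) =
      P.E (fun u => ind (ZbQ D v (5 * t) i u = ZbQ D v (5 * t) i w) * (ind (FQ v t i u = x) * ind (dg t u.1 = dg t w.1))) := by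
    refine FP.E_congr _ fun u _ => ?_
    rw [← ind_and, ← ind_and, ← ind_and]
    refine ind_cg ?_
    rw [Prod.mk.injEq]
    tauto
  rw [e1, e2]
  by_cases hex : ∃ u0, P.p u0 ≠ 0 ∧ ZbQ D v (5 * t) i u0 = ZbQ D v (5 * t) i w ∧ FQ v t i u0 = x
  · obtain ⟨u0, hu0, hz0, hx⟩ := hex
    have hlab : ∀ u, P.p u ≠ 0 → ZbQ D v (5 * t) i u = ZbQ D v (5 * t) i w → (FQ v t i u = x ↔ u.2.2 i = u0.2.2 i) := by
      intro u hu' hz
      rw [← hx]
      exact top_name H R hS hu hN ht.le le_rfl hu' hu0 (hz.trans hz0.symm)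
    have h1 := cls_lab (h := h) hv (t := t) (q := 5 * t) (by rw [nn_0]) w i (fun x b => ind (dg t x = dg t w.1) *
      ind (D.qb (t + 1) b = D.qb (t + 1) (w.2.1 i))) (u0.2.2 i)
    have h2 := cls_lab (h := h) hv (t := t) (q := 5 * t) (by rw [nn_0]) w i (fun x b => ind (dg t x = dg t w.1)) (u0.2.2 i)
    rw [nn_0] at h1 h2
    simp only [FP.E_smul, nu_kap H ht w i, FP.E_const] at h1 h2
    have f1 : P.E (fun u => ind (ZbQ D v (5 * t) i u = ZbQ D v (5 * t) i w) * (ind (FQ v t i u = x) *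
        (ind (dg t u.1 = dg t w.1) * ind (D.qb (t + 1) (u.2.1 i) = D.qb (t + 1) (w.2.1 i))))) =
        P.E (fun u => ind (ZbQ D v (5 * t) i u = ZbQ D v (5 * t) i w) * (ind (u.2.2 i = u0.2.2 i) *
        (ind (dg t u.1 = dg t w.1) * ind (D.qb (t + 1) (u.2.1 i) = D.qb (t + 1) (w.2.1 i))))) := by
      refine P.E_congr fun u hu' => ?_
      by_cases hz : ZbQ D v (5 * t) i u = ZbQ D v (5 * t) i w
      · rw [ind_cg (hlab u hu' hz)]
      · rw [ind_not hz, zero_mul, zero_mul]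
    have f2 : P.E (fun u => ind (ZbQ D v (5 * t) i u = ZbQ D v (5 * t) i w) * (ind (FQ v t i u = x) *
        ind (dg t u.1 = dg t w.1))) =
        P.E (fun u => ind (ZbQ D v (5 * t) i u = ZbQ D v (5 * t) i w) * (ind (u.2.2 i = u0.2.2 i) *
        ind (dg t u.1 = dg t w.1))) := by
      refine P.E_congr fun u hu' => ?_
      by_cases hz : ZbQ D v (5 * t) i u = ZbQ D v (5 * t) i w
      · rw [ind_cg (hlab u hu' hz)]
      · rw [ind_not hz, zero_mul, zero_mul]
    rw [f1, f2, h1, h2]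
    have e3 : (muC D v (nc (5 * t) ∅) t w).E (fun x => ind (K0 v (5 * t) i w x) *
        (D.kf t i x w.2.1 (u0.2.2 i) * (ind (dg t x = dg t w.1) * kap D t))) =
        kap D t * (muC D v (nc (5 * t) ∅) t w).E (fun x => ind (K0 v (5 * t) i w x) *
          (D.kf t i x w.2.1 (u0.2.2 i) * ind (dg t x = dg t w.1))) := by
      rw [← FP.E_smul]
      exact FP.E_congr _ fun x _ => by ring
    rw [e3]
    have e4 : ∀ M A m : ℝ, M * (kap D t * A) / (kap D t * m) = M * A / m := fun M A m => by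
      rw [show M * (kap D t * A) = kap D t * (M * A) by ring]
      exact mul_div_mul_left _ _ hk.ne'
    exact e4 _ _ _
  · have z1 : P.E (fun u => ind (ZbQ D v (5 * t) i u = ZbQ D v (5 * t) i w) * (ind (FQ v t i u = x) *
        (ind (dg t u.1 = dg t w.1) * ind (D.qb (t + 1) (u.2.1 i) = D.qb (t + 1) (w.2.1 i))))) = 0 := by
      refine (P.E_congr fun u hu' => ?_).trans (P.E_const 0)
      by_cases hz : ZbQ D v (5 * t) i u = ZbQ D v (5 * t) i w
      · rw [ind_not (fun hh => hex ⟨u, hu', hz, hh⟩)]; ring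
      · rw [ind_not hz, zero_mul]
    have z2 : P.E (fun u => ind (ZbQ D v (5 * t) i u = ZbQ D v (5 * t) i w) * (ind (FQ v t i u = x) *
        ind (dg t u.1 = dg t w.1))) = 0 := by
      refine (P.E_congr fun u hu' => ?_).trans (P.E_const 0)
      by_cases hz : ZbQ D v (5 * t) i u = ZbQ D v (5 * t) i w
      · rw [ind_not (fun hh => hex ⟨u, hu', hz, hh⟩)]; ring
      · rw [ind_not hz, zero_mul]
    rw [z1, z2, zero_div, zero_div]

/-- the ratio of the top after the digit -/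
theorem rr_dig0 (H : D.Hyp dg prr al T Lam) (R : Run h N S (AdmDep D) v) (hS : ∀ l, univ.erase l ∈ S) (hu : univ ∉ S)
    (hN : ∀ l, 0 < N (univ.erase l)) {t : ℕ} (ht : t < T) (i : Fin 3) {w : Pt (Fin 3) X β φ} (hw : (D.P h t).p w ≠ 0)
    (x : List (Pt (Fin 3) X β φ) × (Fin 3 → Option φ)) :
    rr (D.P h t) (ZbQ D v (5 * t) i) (FQ v t i) (ZbQ D v (5 * t + 1) i) w (ZbQ D v (5 * t + 1) i w) x =
      rr (D.P h t) (ZbQ D v (5 * t) i) (FQ v t i) (fun u => dg t u.1) w (dg t w.1) x := by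
  rw [← real_r (D.P h t) (ZbQ D v (5 * t) i) (FQ v t i) (ZbQ D v (5 * t + 1) i) hw x,
    ← real_r (D.P h t) (ZbQ D v (5 * t) i) (FQ v t i) (fun u => dg t u.1) hw x, pv_dig0 h H R hS hu hN ht i hw x]

theorem phi_dig0 (H : D.Hyp dg prr al T Lam) (R : Run h N S (AdmDep D) v) (hS : ∀ l, univ.erase l ∈ S) (hu : univ ∉ S)
    (hN : ∀ l, 0 < N (univ.erase l)) {t : ℕ} (ht : t < T) (i : Fin 3) {w : Pt (Fin 3) X β φ} (hw : (D.P h t).p w ≠ 0)
    (B : ℝ) : phi1 (D.P h t) (ZbQ D v (5 * t) i) (ZQ D v (5 * t)) (FQ v t i) (ZbQ D v (5 * t + 1) i) B w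
      (ZbQ D v (5 * t + 1) i w) =
      phi1 (D.P h t) (ZbQ D v (5 * t) i) (ZQ D v (5 * t)) (FQ v t i) (fun u => dg t u.1) B w (dg t w.1) := by
  unfold phi1
  exact Finset.sum_congr rfl fun x _ => by rw [rr_dig0 h H R hS hu hN ht i hw x]

/-- the ratio of the missing letter after the digit -/
theorem tau_dig0 (H : D.Hyp dg prr al T Lam) (hv : Codes D v) {t : ℕ} (ht : t < T) (i : Fin 3) {w : Pt (Fin 3) X β φ}
    (hw : (D.P h t).p w ≠ 0) :
    tau (D.P h t) (ZbQ D v (5 * t) i) (ZQ D v (5 * t)) (fun u => dg t u.1) w (dg t w.1) =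
      kap D t * tau (D.P h t) (ZbQ D v (5 * t) i) (ZQ D v (5 * t)) (ZbQ D v (5 * t + 1) i) w (ZbQ D v (5 * t + 1) i w) := by
  classical
  set P := D.P h t with hP
  have hk := kap_pos (D := D) t
  have hm := m_dig h H hv (v := v) ht i w
  rw [← hP] at hm
  have e1 : tau P (ZbQ D v (5 * t) i) (ZQ D v (5 * t)) (ZbQ D v (5 * t + 1) i) w (ZbQ D v (5 * t + 1) i w) =
      (P.m (fun u => (ZbQ D v (5 * t + 1) i u, ZQ D v (5 * t) u)) w / P.m (ZQ D v (5 * t)) w) /
      (P.m (fun u => (ZbQ D v (5 * t + 1) i u, ZbQ D v (5 * t) i u)) w / P.m (ZbQ D v (5 * t) i) w) := by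
    unfold tau
    rw [P.pv_self, P.pv_self]
  have e2 : tau P (ZbQ D v (5 * t) i) (ZQ D v (5 * t)) (fun u => dg t u.1) w (dg t w.1) =
      (P.m (fun u => (dg t u.1, ZQ D v (5 * t) u)) w / P.m (ZQ D v (5 * t)) w) /
      (P.m (fun u => (dg t u.1, ZbQ D v (5 * t) i u)) w / P.m (ZbQ D v (5 * t) i) w) := by
    have k1 : P.pv (ZQ D v (5 * t)) (fun u => dg t u.1) w (dg t w.1) = _ := P.pv_self (ZQ D v (5 * t)) (fun u => dg t u.1) w
    have k2 : P.pv (ZbQ D v (5 * t) i) (fun u => dg t u.1) w (dg t w.1) = _ :=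
      P.pv_self (ZbQ D v (5 * t) i) (fun u => dg t u.1) w
    unfold tau
    rw [k1, k2]
  have e3 : P.m (fun u => (ZbQ D v (5 * t + 1) i u, ZQ D v (5 * t) u)) w = P.m (fun u => (dg t u.1, ZQ D v (5 * t) u)) w := by
    unfold FP.m
    refine P.E_congr fun u _ => ind_cg ?_
    constructor
    · intro hh
      have h1 := (Zb_dig H ht i w u).1 (Prod.mk.inj hh).1
      exact Prod.ext h1.2.1 (Prod.mk.inj hh).2
    · intro hh
      have h0 : dg t u.1 = dg t w.1 ∧ ZQ D v (5 * t) u = ZQ D v (5 * t) w := Prod.mk.inj hh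
      have h1 : ZbQ D v (5 * t) i u = ZbQ D v (5 * t) i w := ZQ_Zb (5 * t) i u w h0.2
      have h2 : u.2.1 = w.2.1 := by
        have h3 := h0.2
        unfold ZQ WW at h3
        exact (Prod.mk.inj (Prod.mk.inj h3).2).1
      exact Prod.ext ((Zb_dig H ht i w u).2 ⟨h1, h0.1, by rw [h2]⟩) h0.2
  rw [e1, e2, e3, hm]
  have m1 := P.m_pos (fun u => (dg t u.1, ZbQ D v (5 * t) i u)) hw
  have m2 := P.m_pos (ZQ D v (5 * t)) hw
  have m3 := P.m_pos (ZbQ D v (5 * t) i) hw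
  field_simp

variable (v dg) in
/-- weighted gain of the digit -/
def gd0 (t : ℕ) (i : Fin 3) (aw : Pt (Fin 3) X β φ → ℝ) : ℝ :=
  Gd (D.P h t) (ZbQ D v (5 * t) i) (ZQ D v (5 * t)) (FQ v t i) (fun u => dg t u.1) aw

variable (v dg) in
/-- weighted information of the missing letter about the digit -/
def dW0 (t : ℕ) (i : Fin 3) (aw : Pt (Fin 3) X β φ → ℝ) : ℝ :=
  DtW (D.P h t) (ZbQ D v (5 * t) i) (ZQ D v (5 * t)) (fun u => dg t u.1) aw

/-- **THE FIRST ORDER TERM AT THE DIGIT** -/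
theorem fo_dig (H : D.Hyp dg prr al T Lam) (R : Run h N S (AdmDep D) v) (hS : ∀ l, univ.erase l ∈ S) (hu : univ ∉ S)
    (hN : ∀ l, 0 < N (univ.erase l)) {t : ℕ} (ht : t < T) {B : ℝ} (hB : 2 * Real.exp 2 ≤ B)
    {aw : Pt (Fin 3) X β φ → ℝ} (hal : Fac (ZQ D v (5 * t)) aw) (h0 : ∀ u, 0 ≤ aw u) (i : Fin 3) :
    |fo h v B 0 t i aw| ≤ gd0 h v dg t i aw + B * Real.sqrt (8 * (gd0 h v dg t i aw * dW0 h v dg t i aw)) := by
  have hk := kap_pos (D := D) t
  have hk1 := kap_le (D := D) t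
  have hk2 := kap_ge (D := D) t
  have hB0 : 0 ≤ B := by have := Real.exp_pos 2; linarith
  have k := first_leT (P := D.P h t) (F := FQ v t i) (ZQ_Zb (5 * t) i) (Y := fun u => dg t u.1) (B := B)
    (B' := kap D t * B) (by nlinarith [Real.exp_pos 2]) (mul_le_of_le_one_left hB0 hk1) hal h0
  have e : fo h v B 0 t i aw = (D.P h t).E (fun w => aw w * (ind (¬ kap D t * B < tau (D.P h t) (ZbQ D v (5 * t) i)
      (ZQ D v (5 * t)) (fun u => dg t u.1) w (dg t w.1)) * phi1 (D.P h t) (ZbQ D v (5 * t) i) (ZQ D v (5 * t)) (FQ v t i)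
        (fun u => dg t u.1) B w (dg t w.1))) := by
    show FO1 (D.P h t) (ZbQ D v (5 * t) i) (ZQ D v (5 * t)) (FQ v t i) (ZbQ D v (5 * t + 1) i) B aw = _
    unfold FO1
    refine (D.P h t).E_congr fun w hw => ?_
    rw [phi_dig0 h H R hS hu hN ht i hw B, tau_dig0 h H R.codes ht i hw, ind_cg (not_congr (mul_lt_mul_iff_right₀ hk))]
  rw [e]
  exact k

/-- the weighted gain of the digit -/
theorem gd0_le (H : D.Hyp dg prr al T Lam) (R : Run h N S (AdmDep D) v) (hN : ∀ J ∈ S, 0 ≤ N J) (h0 : ∅ ∈ S)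
    (hS1 : ∀ i : Fin 3, {i} ∈ S) (hN0 : N ∅ = 1) {N1 : ℝ} (hN1 : ∀ i : Fin 3, N1 ≤ N {i}) (hN1p : 0 < N1)
    (hS : ∀ l, univ.erase l ∈ S) (hu : univ ∉ S) (hN2 : ∀ l, 0 < N (univ.erase l)) {t : ℕ} (ht : t < T)
    {X1 dl a : ℝ} (hdl : 0 < dl) (hdl1 : dl ≤ 1) (hda : Real.exp (-a) ≤ dl) {aw : Pt (Fin 3) X β φ → ℝ}
    (hw : WtS h v X1 dl 0 t aw) (i : Fin 3) : gd0 h v dg t i aw ≤ d1T N1 al X1 dl a * gS h v 0 t i := by
  have hd0 : 0 ≤ d1T N1 al X1 dl a := by
    unfold d1T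
    have := h.pos
    positivity
  have k1 : gd0 h v dg t i aw ≤ d1T N1 al X1 dl a *
      gn (D.P h t) (ZbQ D v (5 * t) i) (FQ v t i) (fun u => dg t u.1) :=
    Gd_le_gn (D.P h t) _ _ _ _ (fun w _ x _ => row_al (t := t) (j := 0) H R hN h0 hS1 hN0 hN1 hN1p hS hu hN2 ht
      (by norm_num) hdl hdl1 hda hw.le (fun u hp hau => ⟨hw.sp u hp hau, fun hh => absurd hh (by norm_num)⟩) i w x)
  refine k1.trans (mul_le_mul_of_nonneg_left ?_ hd0)
  rw [gn_eq]
  show _ ≤ gn (D.P h t) (ZbQ D v (5 * t) i) (FQ v t i) (ZbQ D v (5 * t + 1) i)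
  rw [gn_eq]
  refine (D.P h t).I_mono _ ?_
  intro b c hab
  exact ((Zb_dig H ht i c b).1 (Prod.mk.inj hab).1).2.1

/-- **THE FIRST ORDER TERMS OF ONE TOP OVER THE RUN**, all six steps -/
theorem fo_sum0 (H : D.Hyp dg prr al T Lam) {n N1 : ℝ} (R : Run h (pr3 (Fin 3) n N1) (SS1 (Fin 3)) (AdmDep D) v)
    (hn : 1 ≤ n) (hN1 : 1 ≤ N1) {X1 dl a : ℝ} (hdl : 0 < dl) (hdl1 : dl ≤ 1) (hda : Real.exp (-a) ≤ dl) {B : ℝ}
    (hB : 2 * Real.exp 2 ≤ B) {w0 : Fin 6 → ℕ → Pt (Fin 3) X β φ → ℝ} (hw : ∀ t < T, ∀ s, WtS h v X1 dl s t (w0 s t))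
    (h12 : ∀ t < T, w0 2 t = w0 1 t) (i : Fin 3) :
    ∑ t ∈ range T, |∑ s, fo h v B s t i (fun u => w0 s t u * hvI h v s t u)| ≤
      d1T N1 al X1 dl a * (2 * Lam) + B * Real.sqrt (8 * (d1T N1 al X1 dl a * (2 * Lam) * (9 * (n * Lam)))) := by
  have hB2 : Real.exp 2 ≤ B := by have := Real.exp_pos 2; linarith
  have hB0 : 0 ≤ B := (Real.exp_pos 2).le.trans hB2
  have hd0 : 0 ≤ d1T N1 al X1 dl a := by
    unfold d1T
    have := h.pos
    positivity
  have q1 : ∀ J ∈ SS1 (Fin 3), 0 ≤ pr3 (Fin 3) n N1 J := fun J _ => zero_le_one.trans (pr3_one hn hN1 J)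
  have q2 : (∅ : Finset (Fin 3)) ∈ SS1 (Fin 3) := mem_SS1.2 (by decide)
  have q3 : ∀ i : Fin 3, {i} ∈ SS1 (Fin 3) := fun i => mem_SS1.2 (by revert i; decide)
  have q4 : pr3 (Fin 3) n N1 ∅ = 1 := by unfold pr3; simp
  have q5 : ∀ i : Fin 3, N1 ≤ pr3 (Fin 3) n N1 {i} := fun i => by unfold pr3; simp
  have q6 : ∀ l : Fin 3, univ.erase l ∈ SS1 (Fin 3) := fun l => mem_SS1.2 (Finset.erase_ne_self.2 (mem_univ l))
  have q7 : (univ : Finset (Fin 3)) ∉ SS1 (Fin 3) := fun hh => mem_SS1.1 hh rfl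
  have q8 : ∀ l : Fin 3, 0 < pr3 (Fin 3) n N1 (univ.erase l) := fun l => zero_lt_one.trans_le (pr3_one hn hN1 _)
  set G : ℕ × Fin 6 → ℝ := fun j => if j.2 = 0 then gd0 h v dg j.1 i (w0 0 j.1) else gd h v j.2 j.1 i (w0 j.2 j.1) with hGd
  set W : ℕ × Fin 6 → ℝ := fun j => if j.2 = 0 then dW0 h v dg j.1 i (w0 0 j.1) else dW h v j.2 j.1 i (w0 j.2 j.1) with hWd
  have hG : ∀ t < T, ∀ s, G (t, s) ≤ d1T N1 al X1 dl a * gS h v s t i := by
    intro t ht s
    rw [hGd]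
    dsimp only
    by_cases hs : s = 0
    · subst hs
      rw [if_pos rfl]
      exact gd0_le h H R q1 q2 q3 q4 q5 (zero_lt_one.trans_le hN1) q6 q7 q8 ht hdl hdl1 hda (hw t ht 0) i
    · rw [if_neg hs]
      exact gd_le h H R q1 q2 q3 q4 q5 (zero_lt_one.trans_le hN1) q6 q7 q8 ht s hdl hdl1 hda (hw t ht s) i
  have h1 : ∑ t ∈ range T, |∑ s, fo h v B s t i (fun u => w0 s t u * hvI h v s t u)| ≤
      ∑ j ∈ range T ×ˢ (univ : Finset (Fin 6)), (G j + B * Real.sqrt (8 * (G j * W j))) := by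
    rw [Finset.sum_product]
    refine Finset.sum_le_sum fun t ht => ?_
    have ht' := Finset.mem_range.1 ht
    have k0 := fo_dig h H R q6 q7 q8 ht' hB (hw t ht' 0).fac (hw t ht' 0).nn i
    have k3 := fo_one h hB2 (hw t ht' 3) i
    have k4 := fo_one h hB2 (hw t ht' 4) i
    have k5 := fo_one h hB2 (hw t ht' 5) i
    have k1 := fo_pair h hB2 (hw t ht' 1) i
    have e0 : ∀ s : Fin 6, s ≠ 1 → s ≠ 2 → (fun u => w0 s t u * hvI h v s t u) = w0 s t := by
      intro s h1 h2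
      funext u
      have : hvI h v s t u = 1 := by
        fin_cases s
        · rfl
        · exact absurd rfl h1
        · exact absurd rfl h2
        all_goals rfl
      rw [this, mul_one]
    have e1 : (fun u => w0 1 t u * hvI h v 1 t u) = fun u => w0 1 t u * ind (¬ HV h v t u) := rfl
    have e2 : (fun u => w0 2 t u * hvI h v 2 t u) = fun u => w0 1 t u * ind (HV h v t u) := by rw [h12 t ht']; rfl
    have g0 : G (t, 0) = gd0 h v dg t i (w0 0 t) := if_pos rfl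
    have W0 : W (t, 0) = dW0 h v dg t i (w0 0 t) := if_pos rfl
    have g1 : ∀ s : Fin 6, s ≠ 0 → G (t, s) = gd h v s t i (w0 s t) := fun s hs => if_neg hs
    have W1 : ∀ s : Fin 6, s ≠ 0 → W (t, s) = dW h v s t i (w0 s t) := fun s hs => if_neg hs
    rw [six_sum, six_sum, e0 0 (by decide) (by decide), e0 3 (by decide) (by decide), e0 4 (by decide) (by decide),
      e0 5 (by decide) (by decide), e1, e2, g0, W0, g1 1 (by decide), W1 1 (by decide), g1 2 (by decide), W1 2 (by decide),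
      g1 3 (by decide), W1 3 (by decide), g1 4 (by decide), W1 4 (by decide), g1 5 (by decide), W1 5 (by decide),
      h12 t ht']
    rw [abs_le] at k0 k3 k4 k5 k1 ⊢
    constructor <;> linarith [k0.1, k0.2, k1.1, k1.2, k3.1, k3.2, k4.1, k4.2, k5.1, k5.2]
  refine h1.trans ?_
  have nW : ∀ j ∈ range T ×ˢ (univ : Finset (Fin 6)), 0 ≤ W j := by
    intro j hj
    have hj1 := Finset.mem_range.1 (Finset.mem_product.1 hj).1
    rw [hWd]
    dsimp only
    split_ifs with hs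
    · exact DtW_nn _ _ _ _ (hw j.1 hj1 0).nn
    · exact dW_nn h (hw j.1 hj1 j.2).nn
  have h2 := sum_sq_le (range T ×ˢ (univ : Finset (Fin 6))) (G := G)
    (g := fun j => gS h v j.2 j.1 i) (W := W) hB0 hd0
    (fun j _ => gS_nn h j.2 j.1 i) nW
    (fun j hj => hG j.1 (Finset.mem_range.1 (Finset.mem_product.1 hj).1) j.2)
  refine h2.trans ?_
  have g1 : ∑ j ∈ range T ×ˢ (univ : Finset (Fin 6)), gS h v j.2 j.1 i ≤ 2 * Lam := by
    rw [Finset.sum_product]
    exact gn_sum h H R hn hN1 i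
  have g0 : 0 ≤ ∑ j ∈ range T ×ˢ (univ : Finset (Fin 6)), gS h v j.2 j.1 i := Finset.sum_nonneg fun j _ => gS_nn h j.2 j.1 i
  have g2 : ∑ j ∈ range T ×ˢ (univ : Finset (Fin 6)), W j ≤ 9 * (n * Lam) := by
    rw [Finset.sum_product]
    have h3 := dS_sum h H R hn hN1 i
    have h5 : ∑ t ∈ range T, (D.P h t).I (ZT D v (t + 1) t) (fun u => dg t u.1)
        (ZbT D v (Equiv.refl (Fin 3)) (t + 1) t i) ≤ 3 * (n * Lam) := by
      have h1 := TG.miss_gain_run h H R hn hN1 i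
      refine (Finset.sum_le_sum fun t _ => ?_).trans h1
      have := (D.P h t).I_nonneg (ZT D v (t + 1) (t + 1)) (YT v (Equiv.refl (Fin 3)) (t + 2) i)
        (ZbT D v (Equiv.refl (Fin 3)) (t + 1) (t + 1) i)
      linarith
    have h4 : ∑ t ∈ range T, ∑ s, W (t, s) ≤
        ∑ t ∈ range T, ((D.P h t).I (ZT D v (t + 1) t) (fun u => dg t u.1) (ZbT D v (Equiv.refl (Fin 3)) (t + 1) t i) +
          ∑ s ∈ univ.erase (0 : Fin 6), dS h v s t i) := by
      refine Finset.sum_le_sum fun t ht => ?_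
      have ht' := Finset.mem_range.1 ht
      rw [← Finset.add_sum_erase univ _ (mem_univ (0 : Fin 6))]
      have h6 : ∑ s ∈ univ.erase (0 : Fin 6), W (t, s) ≤ ∑ s ∈ univ.erase (0 : Fin 6), dS h v s t i := by
        refine Finset.sum_le_sum fun s hs => ?_
        have e : W (t, s) = dW h v s t i (w0 s t) := if_neg (Finset.ne_of_mem_erase hs)
        rw [e]
        exact dW_le h (hw t ht' s).le
      have h7 : W (t, 0) ≤ (D.P h t).I (ZT D v (t + 1) t) (fun u => dg t u.1)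
          (ZbT D v (Equiv.refl (Fin 3)) (t + 1) t i) := by
        have e : W (t, 0) = dW0 h v dg t i (w0 0 t) := if_pos rfl
        rw [e]
        refine (DtW_le (D.P h t) _ _ _ (hw t ht' 0).le).trans (le_of_eq ?_)
        rw [Dt_eq (D.P h t) _ _ _ (ZQ_Zb (5 * t) i), ZQ_0, ZbQ_0]
      linarith
    rw [Finset.sum_add_distrib] at h4
    linarith
  have g3 : 0 ≤ ∑ j ∈ range T ×ˢ (univ : Finset (Fin 6)), W j := Finset.sum_nonneg nW
  have g4 := mul_le_mul_of_nonneg_left g1 hd0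
  have g5 : d1T N1 al X1 dl a * (∑ j ∈ range T ×ˢ (univ : Finset (Fin 6)), gS h v j.2 j.1 i) *
      ∑ j ∈ range T ×ˢ (univ : Finset (Fin 6)), W j ≤ d1T N1 al X1 dl a * (2 * Lam) * (9 * (n * Lam)) :=
    mul_le_mul g4 g2 g3 ((mul_nonneg hd0 g0).trans g4)
  have g6 := mul_le_mul_of_nonneg_left (Real.sqrt_le_sqrt (mul_le_mul_of_nonneg_left g5 (by norm_num : (0 : ℝ) ≤ 8))) hB0
  linarith

end dig

end

end Pool.Agent.GMH.TP
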