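import Pool.Agent.GMH.FoHR

/-!
# GMH/FoJ: FIRST ORDER TERMS WITH A FOREIGN WEIGHT, RATIO OF ONE VERTEX (helper81, row K5)

As `FoH`, but the first factor is split by a second ratio `sr w y` (ratio of the letter of ONE vertex):
* `phc` : capped distance of the square roots of two ratios; `x2W` : `E al W sum_y P(y|Zb) phc B tau sr` (XOR part);
* `m2W` : `E al W sum_y P(y|Zb) (hwk (4B) sr - 1)^2`;
* `sq_three` : `(tau - 1)^2 <= 18 B phc B tau sr + 2 (hwk (4B) sr - 1)^2` for `tau <= B`;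
* `branchJ`, `oneJ`, `twoJ`.
-/

set_option autoImplicit false
set_option linter.unusedSectionVars false
set_option linter.unusedVariables false

namespace Pool.Agent.GMH

open Finset Pool.Agent.PWZ Pool.Agent.M3

noncomputable section

section foj

variable {Om : Type*} [Fintype Om] (P : FP Om) {α β γ δ φ : Type*} (Zb : Om → α) (Z : Om → β) (F : Om → φ)

/-- capped distance of two ratios -/
def phc (B τ s : ℝ) : ℝ := (min (Real.sqrt τ) (2 * Real.sqrt B) - min (Real.sqrt s) (2 * Real.sqrt B)) ^ 2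

theorem phc_nn (B τ s : ℝ) : 0 ≤ phc B τ s := sq_nonneg _

/-- three squares -/
theorem sq_three {B τ s : ℝ} (hB : 1 ≤ B) (hτ : 0 ≤ τ) (hτB : τ ≤ B) (hs : 0 ≤ s) :
    (τ - 1) ^ 2 ≤ 18 * B * phc B τ s + 2 * (hwk (4 * B) s - 1) ^ 2 := by
  have hB0 : 0 ≤ B := by linarith
  have h1 : (τ - hwk (4 * B) s) ^ 2 ≤ 9 * B * phc B τ s := by
    unfold phc
    have q1 := Real.sq_sqrt hτ
    have q2 := Real.sq_sqrt hs
    have q3 := Real.sq_sqrt hB0
    have n1 := Real.sqrt_nonneg τ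
    have n2 := Real.sqrt_nonneg s
    have n3 := Real.sqrt_nonneg B
    have l1 : Real.sqrt τ ≤ Real.sqrt B := Real.sqrt_le_sqrt hτB
    unfold hwk
    by_cases h : 4 * B < s
    · rw [ind_not (not_not.2 h), zero_mul, sub_zero]
      have l2 : 2 * Real.sqrt B ≤ Real.sqrt s := by
        have : Real.sqrt (4 * B) ≤ Real.sqrt s := Real.sqrt_le_sqrt h.le
        rw [show (4 : ℝ) * B = 2 ^ 2 * B by ring, Real.sqrt_mul (by norm_num), Real.sqrt_sq (by norm_num)] at this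
        exact this
      rw [min_eq_right l2, min_eq_left (show Real.sqrt τ ≤ 2 * Real.sqrt B by linarith)]
      have l3 : Real.sqrt B ≤ 2 * Real.sqrt B - Real.sqrt τ := by linarith
      have l4 : B ≤ (Real.sqrt τ - 2 * Real.sqrt B) ^ 2 := by
        have : Real.sqrt B ^ 2 ≤ (2 * Real.sqrt B - Real.sqrt τ) ^ 2 := pow_le_pow_left₀ n3 l3 2
        rw [q3] at this
        linarith [show (Real.sqrt τ - 2 * Real.sqrt B) ^ 2 = (2 * Real.sqrt B - Real.sqrt τ) ^ 2 by ring]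
      have l5 : τ ^ 2 ≤ B * B := by nlinarith
      have l6 : B * B ≤ B * (Real.sqrt τ - 2 * Real.sqrt B) ^ 2 := mul_le_mul_of_nonneg_left l4 hB0
      have l7 : 0 ≤ B * (Real.sqrt τ - 2 * Real.sqrt B) ^ 2 := by positivity
      nlinarith
    · rw [ind_of h, one_mul]
      have l2 : Real.sqrt s ≤ 2 * Real.sqrt B := by
        have : Real.sqrt s ≤ Real.sqrt (4 * B) := Real.sqrt_le_sqrt (not_lt.1 h)
        rw [show (4 : ℝ) * B = 2 ^ 2 * B by ring, Real.sqrt_mul (by norm_num), Real.sqrt_sq (by norm_num)] at this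
        exact this
      rw [min_eq_left l2, min_eq_left (show Real.sqrt τ ≤ 2 * Real.sqrt B by linarith)]
      have l3 : (Real.sqrt τ + Real.sqrt s) ^ 2 ≤ 9 * B := by
        have : Real.sqrt τ + Real.sqrt s ≤ 3 * Real.sqrt B := by linarith
        have := pow_le_pow_left₀ (add_nonneg n1 n2) this 2
        rw [mul_pow, q3] at this
        linarith
      have e : (τ - s) ^ 2 = (Real.sqrt τ + Real.sqrt s) ^ 2 * (Real.sqrt τ - Real.sqrt s) ^ 2 := by
        conv_lhs => rw [← q1, ← q2]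
        ring
      rw [e]
      exact mul_le_mul_of_nonneg_right l3 (sq_nonneg _)
  have h2 : (τ - 1) ^ 2 ≤ 2 * (τ - hwk (4 * B) s) ^ 2 + 2 * (hwk (4 * B) s - 1) ^ 2 := by
    nlinarith [sq_nonneg ((τ - hwk (4 * B) s) - (hwk (4 * B) s - 1))]
  nlinarith

/-- XOR part -/
def x2W (Y : Om → γ) (B : ℝ) (sr : Om → γ → ℝ) (al : Om → ℝ) : ℝ :=
  P.E (fun w => al w * ∑ y ∈ vals Y, P.pv Zb Y w y * phc B (tau P Zb Z Y w y) (sr w y))

/-- middle part -/
def m2W (Y : Om → γ) (B : ℝ) (sr : Om → γ → ℝ) (al : Om → ℝ) : ℝ :=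
  P.E (fun w => al w * ∑ y ∈ vals Y, P.pv Zb Y w y * (hwk (4 * B) (sr w y) - 1) ^ 2)

theorem x2W_nn (Y : Om → γ) (B : ℝ) (sr : Om → γ → ℝ) {al : Om → ℝ} (h0 : ∀ w, 0 ≤ al w) : 0 ≤ x2W P Zb Z Y B sr al :=
  P.E_nonneg fun w _ => mul_nonneg (h0 w) (Finset.sum_nonneg fun y _ => mul_nonneg (P.pv_nonneg _ _ _ _) (phc_nn _ _ _))

theorem m2W_nn (Y : Om → γ) (B : ℝ) (sr : Om → γ → ℝ) {al : Om → ℝ} (h0 : ∀ w, 0 ≤ al w) : 0 ≤ m2W P Zb Y B sr al :=
  P.E_nonneg fun w _ => mul_nonneg (h0 w) (Finset.sum_nonneg fun y _ => mul_nonneg (P.pv_nonneg _ _ _ _) (sq_nonneg _))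

theorem x2W_mono (Y : Om → γ) (B : ℝ) (sr : Om → γ → ℝ) {al bl : Om → ℝ} (h : ∀ w, al w ≤ bl w) :
    x2W P Zb Z Y B sr al ≤ x2W P Zb Z Y B sr bl :=
  P.E_mono fun w _ => mul_le_mul_of_nonneg_right (h w) (Finset.sum_nonneg fun y _ =>
    mul_nonneg (P.pv_nonneg _ _ _ _) (phc_nn _ _ _))

/-- the XOR part as a mean of the new data -/
theorem x2W_eq (Y : Om → γ) (B : ℝ) (sr : Om → γ → ℝ) (al : Om → ℝ) : x2W P Zb Z Y B sr al =
    P.E (fun w => al w * P.ce Zb (fun u => phc B (tau P Zb Z Y w (Y u)) (sr w (Y u))) w) := by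
  unfold x2W
  refine P.E_congr fun w _ => ?_
  rw [P.sum_pv (W := Zb) Y (F := fun _ y => phc B (tau P Zb Z Y w y) (sr w y)) (fun _ _ _ _ => rfl) w]

/-- first factor -/
def gW (Y : Om → γ) (G : Om → γ → ℝ) (al : Om → ℝ) : ℝ :=
  P.E (fun w => al w * ∑ y ∈ vals Y, P.pv Zb Y w y * G w y)

theorem gW_nn (Y : Om → γ) {G : Om → γ → ℝ} (hG0 : ∀ w y, 0 ≤ G w y) {al : Om → ℝ} (h0 : ∀ w, 0 ≤ al w) :
    0 ≤ gW P Zb Y G al :=
  P.E_nonneg fun w _ => mul_nonneg (h0 w) (Finset.sum_nonneg fun y _ => mul_nonneg (P.pv_nonneg _ _ _ _) (hG0 w y))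

/-- the function of the ratio of one vertex -/
def gJ (Y : Om → γ) (B : ℝ) (sr : Om → γ → ℝ) (w : Om) (y : γ) : ℝ :=
  36 * B * phc B (tau P Zb Z Y w y) (sr w y) + 4 * (hwk (4 * B) (sr w y) - 1) ^ 2

theorem gJ_nn {Y : Om → γ} {B : ℝ} (hB : 1 ≤ B) {sr : Om → γ → ℝ} (w : Om) (y : γ) : 0 ≤ gJ P Zb Z Y B sr w y := by
  have := phc_nn B (tau P Zb Z Y w y) (sr w y)
  unfold gJ
  positivity

theorem gJ_le {Y : Om → γ} {B : ℝ} (hB : 1 ≤ B) {sr : Om → γ → ℝ} (hs : ∀ w y, 0 ≤ sr w y) (w : Om) (y : γ)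
    (h : ¬ B < tau P Zb Z Y w y) : 2 * (tau P Zb Z Y w y - 1) ^ 2 ≤ gJ P Zb Z Y B sr w y := by
  have := sq_three hB (tau_nn P Zb Z Y w y) (not_lt.1 h) (hs w y)
  unfold gJ
  linarith

theorem gW_gJ (Y : Om → γ) (B : ℝ) (sr : Om → γ → ℝ) (al : Om → ℝ) : gW P Zb Y (gJ P Zb Z Y B sr) al =
    36 * B * x2W P Zb Z Y B sr al + 4 * m2W P Zb Y B sr al := by
  unfold gW gJ x2W m2W
  rw [← P.E_smul, ← P.E_smul, ← P.E_add]
  refine P.E_congr fun w _ => ?_
  rw [Finset.mul_sum, Finset.mul_sum, Finset.mul_sum, Finset.mul_sum, Finset.mul_sum, ← Finset.sum_add_distrib]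
  exact Finset.sum_congr rfl fun y _ => by ring

variable {P Zb Z F} in
/-- **ONE BRANCH** -/
theorem branchJ (hZ : Fac Z Zb) {Y : Om → γ} {A : Om → Prop} (hA : Fac (fun u => (Y u, Zb u)) A) {B : ℝ}
    (hB : Real.exp 2 ≤ B) {al : Om → ℝ} (hal : Fac Z al) (h0 : ∀ w, 0 ≤ al w) {wt : Om → φ → ℝ}
    (hwt : ∀ x, Fac Z (fun w => wt w x)) (hw0 : ∀ w x, 0 ≤ wt w x)
    (hq : ∀ w, P.p w ≠ 0 → ∀ x, P.pv Zb F w x = 0 → wt w x = 0) {N : Om → Prop}
    (hN : ∀ w, P.p w ≠ 0 → N w → ¬ B < tau P Zb Z Y w (Y w)) {G : Om → γ → ℝ} (hG0 : ∀ w y, 0 ≤ G w y)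
    (hG : ∀ w y, ¬ B < tau P Zb Z Y w y → 2 * (tau P Zb Z Y w y - 1) ^ 2 ≤ G w y) :
    P.E (fun w => al w * (ind (A w) * (ind (N w) * ∑ x ∈ vals F, wt w x * (hwk B (rr P Zb F Y w (Y w) x) - 1)))) ≤
      P.E (fun w => al w * linW P Zb F A wt w) +
      Real.sqrt ((gW P Zb Y G (fun w => al w * ∑ x ∈ vals F, wt w x) +
        2 * B * P.E (fun w => al w * (ind (A w) * (ind (¬ N w) * ∑ x ∈ vals F, wt w x)))) *
        P.E (fun w => al w * ∑ x ∈ vals F, wt w x * lam P Zb F Y B w x ^ 2)) := by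
  classical
  have hB1 : 1 ≤ B := by
    have := Real.add_one_le_exp 2
    linarith
  have hB0 : 0 ≤ B := by linarith
  have hi0 : ∀ w y, 0 ≤ ind (brV Zb Y A w y) := fun w y => ind_nonneg _
  have hi1 : ∀ w y, ind (brV Zb Y A w y) ≤ 1 := fun w y => ind_le_one _
  -- the weights at the additions
  set ph : Om → γ → ℝ := fun w y => ∑ x ∈ vals F, wt w x * (hwk B (rr P Zb F Y w y x) - 1) with hph
  set nu : Om → γ → ℝ := fun w y => P.ce Z (fun u => ind (N u) * ind (Y u = y)) w with hnu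
  set nn' : Om → γ → ℝ := fun w y => P.ce Z (fun u => ind (¬ N u) * ind (Y u = y)) w with hnn
  have nu0 : ∀ w y, 0 ≤ nu w y := fun w y => P.ce_nonneg (fun u _ => mul_nonneg (ind_nonneg _) (ind_nonneg _)) w
  have nn0 : ∀ w y, 0 ≤ nn' w y := fun w y => P.ce_nonneg (fun u _ => mul_nonneg (ind_nonneg _) (ind_nonneg _)) w
  have nusum : ∀ w y, nu w y + nn' w y = P.pv Z Y w y := by
    intro w y
    have h1 := P.ce_add Z (fun u => ind (N u) * ind (Y u = y)) (fun u => ind (¬ N u) * ind (Y u = y)) w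
    rw [hnu, hnn]
    dsimp only
    rw [← h1]
    unfold FP.pv
    refine P.ce_congr (fun u _ => ?_) w
    by_cases h : N u
    · rw [ind_of h, ind_not (not_not.2 h)]; ring
    · rw [ind_not h, ind_of h]; ring
  have nuτ : ∀ w y, B < tau P Zb Z Y w y → nu w y = 0 := by
    intro w y hτ
    rw [hnu]
    dsimp only
    unfold FP.ce
    have : P.E (fun u => ind (Z u = Z w) * (ind (N u) * ind (Y u = y))) = 0 := by
      refine (P.E_congr fun u hu => ?_).trans (P.E_const 0)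
      by_cases h1 : Z u = Z w
      · by_cases h2 : N u
        · by_cases h3 : Y u = y
          · exfalso
            have h4 := hN u hu h2
            rw [h3, tauc P Y hZ h1 y] at h4
            exact h4 hτ
          · rw [ind_not h3]; ring
        · rw [ind_not h2]; ring
      · rw [ind_not h1]; ring
    rw [this, zero_div]
  have fph : ∀ y, Fac Z (fun w => ph w y) := by
    intro y a b hab
    show ∑ x ∈ vals F, wt a x * (hwk B (rr P Zb F Y a y x) - 1) = ∑ x ∈ vals F, wt b x * (hwk B (rr P Zb F Y b y x) - 1)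
    refine Finset.sum_congr rfl fun x _ => ?_
    rw [rrc P F Y (hZ a b hab) y x, show wt a x = wt b x from hwt x a b hab]
  have fbr : ∀ y, Fac Z (fun w => al w * (ind (brV Zb Y A w y) * ph w y)) := by
    intro y a b hab
    show al a * (ind (brV Zb Y A a y) * ph a y) = al b * (ind (brV Zb Y A b y) * ph b y)
    rw [show al a = al b from hal a b hab, brV_fac Y A y (hZ a b hab), show ph a y = ph b y from fph y a b hab]
  -- mean at independent additions
  have e1 : P.E (fun w => al w * (ind (A w) * (ind (N w) * ph w (Y w)))) =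
      P.E (fun w => al w * ∑ y ∈ vals Y, P.pv Zb Y w y * (ind (brV Zb Y A w y) * ph w y)) +
      P.E (fun w => ∑ y ∈ vals Y, al w * ind (brV Zb Y A w y) * (nu w y - P.pv Zb Y w y) * ph w y) := by
    have e0 : P.E (fun w => al w * (ind (A w) * (ind (N w) * ph w (Y w)))) =
        P.E (fun w => ind (N w) * (al w * (ind (brV Zb Y A w (Y w)) * ph w (Y w)))) := by
      refine P.E_congr fun w _ => ?_
      rw [brV_iff hA]
      ring
    rw [e0, E_realN P Z Y N (f := fun w y => al w * (ind (brV Zb Y A w y) * ph w y)) fbr, ← P.E_add]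
    refine P.E_congr fun w _ => ?_
    rw [Finset.mul_sum, ← Finset.sum_add_distrib]
    exact Finset.sum_congr rfl fun y _ => by rw [hnu]; ring
  have k1 : P.E (fun w => al w * ∑ y ∈ vals Y, P.pv Zb Y w y * (ind (brV Zb Y A w y) * ph w y)) ≤
      P.E (fun w => al w * linW P Zb F A wt w) :=
    P.E_mono fun w hw => mul_le_mul_of_nonneg_left (sum_br_le P Zb F hA B (hw0 w) (hq w hw)) (h0 w)
  -- Cauchy - Schwarz
  set th : Om → γ → ℝ := fun w y => nu w y / P.pv Zb Y w y - 1 with hth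
  have hpz : ∀ w y, P.pv Zb Y w y = 0 → nu w y = 0 ∧ nn' w y = 0 := by
    intro w y hy
    have h1 := P.pv_ac hZ Y hy
    have h2 := nusum w y
    rw [h1] at h2
    constructor <;> linarith [nu0 w y, nn0 w y]
  have k2 := E_sum_cs P (vals Y ×ˢ vals F)
    (fun w j => al w * ind (brV Zb Y A w j.1) * P.pv Zb Y w j.1 * wt w j.2)
    (fun w j => th w j.1) (fun w j => hwk B (rr P Zb F Y w j.1 j.2) - 1)
    (fun w _ j _ => mul_nonneg (mul_nonneg (mul_nonneg (h0 w) (hi0 w j.1)) (P.pv_nonneg _ _ _ _)) (hw0 w j.2))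
  have e2 : P.E (fun w => ∑ y ∈ vals Y, al w * ind (brV Zb Y A w y) * (nu w y - P.pv Zb Y w y) * ph w y) =
      P.E (fun w => ∑ j ∈ vals Y ×ˢ vals F, (al w * ind (brV Zb Y A w j.1) * P.pv Zb Y w j.1 * wt w j.2) *
        (th w j.1 * (hwk B (rr P Zb F Y w j.1 j.2) - 1))) := by
    refine P.E_congr fun w _ => ?_
    rw [Finset.sum_product]
    refine Finset.sum_congr rfl fun y _ => ?_
    have h1 : nu w y - P.pv Zb Y w y = P.pv Zb Y w y * th w y := by
      rw [hth]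
      dsimp only
      by_cases hy : P.pv Zb Y w y = 0
      · rw [hy, (hpz w y hy).1]; ring
      · field_simp
    rw [h1, hph]
    dsimp only
    rw [Finset.mul_sum]
    exact Finset.sum_congr rfl fun x _ => by ring
  have k3 : P.E (fun w => ∑ j ∈ vals Y ×ˢ vals F, (al w * ind (brV Zb Y A w j.1) * P.pv Zb Y w j.1 * wt w j.2) *
      th w j.1 ^ 2) ≤ gW P Zb Y G (fun w => al w * ∑ x ∈ vals F, wt w x) +
        2 * B * P.E (fun w => al w * (ind (A w) * (ind (¬ N w) * ∑ x ∈ vals F, wt w x))) := by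
    have e3 : P.E (fun w => al w * (ind (A w) * (ind (¬ N w) * ∑ x ∈ vals F, wt w x))) =
        P.E (fun w => ∑ y ∈ vals Y, nn' w y * (al w * (ind (brV Zb Y A w y) * ∑ x ∈ vals F, wt w x))) := by
      rw [← E_realN P Z Y (fun w => ¬ N w) (f := fun w y => al w * (ind (brV Zb Y A w y) * ∑ x ∈ vals F, wt w x))
        (fun y a b hab => by
          show al a * (ind (brV Zb Y A a y) * ∑ x ∈ vals F, wt a x) = al b * (ind (brV Zb Y A b y) * ∑ x ∈ vals F, wt b x)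
          rw [show al a = al b from hal a b hab, brV_fac Y A y (hZ a b hab),
            Finset.sum_congr rfl fun x _ => show wt a x = wt b x from hwt x a b hab])]
      refine P.E_congr fun w _ => ?_
      rw [brV_iff hA]
      ring
    rw [e3]
    unfold gW
    rw [← P.E_smul, ← P.E_add]
    refine P.E_mono fun w hw => ?_
    rw [Finset.sum_product]
    have e4 : ∀ W : ℝ, al w * W * ∑ y ∈ vals Y, P.pv Zb Y w y * G w y +
        2 * B * ∑ y ∈ vals Y, nn' w y * (al w * (ind (brV Zb Y A w y) * W)) =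
        ∑ y ∈ vals Y, (al w * W) * (P.pv Zb Y w y * G w y +
          2 * B * (nn' w y * ind (brV Zb Y A w y))) := by
      intro W
      rw [Finset.mul_sum, Finset.mul_sum, ← Finset.sum_add_distrib]
      exact Finset.sum_congr rfl fun y _ => by ring
    rw [e4]
    refine Finset.sum_le_sum fun y _ => ?_
    have e5 : ∑ x ∈ vals F, (al w * ind (brV Zb Y A w y) * P.pv Zb Y w y * wt w x) * th w y ^ 2 =
        (al w * ∑ x ∈ vals F, wt w x) * (ind (brV Zb Y A w y) * (P.pv Zb Y w y * th w y ^ 2)) := by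
      rw [Finset.mul_sum, Finset.sum_mul]
      exact Finset.sum_congr rfl fun x _ => by ring
    rw [e5]
    have hW0 : 0 ≤ al w * ∑ x ∈ vals F, wt w x := mul_nonneg (h0 w) (Finset.sum_nonneg fun x _ => hw0 w x)
    refine mul_le_mul_of_nonneg_left ?_ hW0
    -- the ratio
    have hp := P.pv_nonneg Zb Y w y
    have hg0 := hG0 w y
    have hmain : P.pv Zb Y w y * th w y ^ 2 ≤ P.pv Zb Y w y * G w y + 2 * B * nn' w y := by
      by_cases hy : P.pv Zb Y w y = 0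
      · rw [hy]
        have := mul_nonneg hB0 (nn0 w y)
        linarith
      have hyp : 0 < P.pv Zb Y w y := lt_of_le_of_ne hp (Ne.symm hy)
      by_cases hτ : B < tau P Zb Z Y w y
      · have t1 : th w y = -1 := by rw [hth]; dsimp only; rw [nuτ w y hτ, zero_div, zero_sub]
        rw [t1]
        have h7 := nusum w y
        rw [nuτ w y hτ, zero_add, yz_eq P Y hZ w y] at h7
        have h8 : P.pv Zb Y w y ≤ nn' w y := by
          rw [h7]
          exact le_mul_of_one_le_left hp (hB1.trans hτ.le)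
        have h9 := mul_nonneg hp hg0
        nlinarith [nn0 w y]
      · set τ := tau P Zb Z Y w y with hτd
        have g1 := hG w y hτ
        rw [← hτd] at g1
        have hz := yz_eq P Y hZ w y
        rw [← hτd] at hz
        set dl := nn' w y / P.pv Zb Y w y with hdl
        have hdl0 : 0 ≤ dl := div_nonneg (nn0 w y) hp
        have t3 : th w y = (τ - 1) - dl := by
          rw [hth, hdl]
          dsimp only
          have h7 := nusum w y
          rw [hz] at h7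
          have h8 : nu w y = τ * P.pv Zb Y w y - nn' w y := by linarith
          rw [h8, sub_div, mul_div_assoc, div_self hy]
          ring
        have t4 : dl ≤ B := by
          have h7 := nusum w y
          rw [hz] at h7
          rw [hdl, div_le_iff₀ hyp]
          have h8 : nn' w y ≤ τ * P.pv Zb Y w y := by linarith [nu0 w y]
          exact h8.trans (mul_le_mul_of_nonneg_right (not_lt.1 hτ) hp)
        have t5 : th w y ^ 2 ≤ 2 * (τ - 1) ^ 2 + 2 * B * dl := by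
          rw [t3]
          nlinarith [sq_nonneg (τ - 1 + dl), mul_nonneg hdl0 (sub_nonneg.2 t4)]
        have t6 : P.pv Zb Y w y * dl = nn' w y := by rw [hdl]; field_simp
        have t7 := mul_le_mul_of_nonneg_left t5 hp
        have t8 := mul_le_mul_of_nonneg_left g1 hp
        nlinarith
    have h9 : ind (brV Zb Y A w y) * (P.pv Zb Y w y * th w y ^ 2) ≤ ind (brV Zb Y A w y) *
        (P.pv Zb Y w y * G w y + 2 * B * nn' w y) := mul_le_mul_of_nonneg_left hmain (hi0 w y)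
    have h10 : ind (brV Zb Y A w y) * (P.pv Zb Y w y * G w y) ≤
        P.pv Zb Y w y * G w y := mul_le_of_le_one_left (mul_nonneg hp hg0) (hi1 w y)
    nlinarith
  have k4 : P.E (fun w => ∑ j ∈ vals Y ×ˢ vals F, (al w * ind (brV Zb Y A w j.1) * P.pv Zb Y w j.1 * wt w j.2) *
      (hwk B (rr P Zb F Y w j.1 j.2) - 1) ^ 2) ≤ P.E (fun w => al w * ∑ x ∈ vals F, wt w x * lam P Zb F Y B w x ^ 2) := by
    refine P.E_mono fun w hw => ?_
    rw [Finset.sum_product, Finset.sum_comm, Finset.mul_sum]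
    refine Finset.sum_le_sum fun x _ => ?_
    rw [lam_sq, Finset.mul_sum, Finset.mul_sum]
    refine Finset.sum_le_sum fun y _ => ?_
    have h1 := mul_nonneg (h0 w) (mul_nonneg (hw0 w x) (mul_nonneg (P.pv_nonneg Zb Y w y)
      (sq_nonneg (hwk B (rr P Zb F Y w y x) - 1))))
    have h2 := mul_le_of_le_one_left h1 (hi1 w y)
    calc al w * ind (brV Zb Y A w y) * P.pv Zb Y w y * wt w x * (hwk B (rr P Zb F Y w y x) - 1) ^ 2 =
        ind (brV Zb Y A w y) * (al w * (wt w x * (P.pv Zb Y w y * (hwk B (rr P Zb F Y w y x) - 1) ^ 2))) := by ring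
      _ ≤ _ := h2
  have a0 : 0 ≤ P.E (fun w => ∑ j ∈ vals Y ×ˢ vals F, (al w * ind (brV Zb Y A w j.1) * P.pv Zb Y w j.1 * wt w j.2) *
      (hwk B (rr P Zb F Y w j.1 j.2) - 1) ^ 2) := P.E_nonneg fun w _ => Finset.sum_nonneg fun j _ =>
    mul_nonneg (mul_nonneg (mul_nonneg (mul_nonneg (h0 w) (hi0 w j.1)) (P.pv_nonneg _ _ _ _)) (hw0 w j.2)) (sq_nonneg _)
  have a1 : 0 ≤ P.E (fun w => ∑ j ∈ vals Y ×ˢ vals F, (al w * ind (brV Zb Y A w j.1) * P.pv Zb Y w j.1 * wt w j.2) *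
      th w j.1 ^ 2) := P.E_nonneg fun w _ => Finset.sum_nonneg fun j _ =>
    mul_nonneg (mul_nonneg (mul_nonneg (mul_nonneg (h0 w) (hi0 w j.1)) (P.pv_nonneg _ _ _ _)) (hw0 w j.2)) (sq_nonneg _)
  have k5 := k2.trans (Real.sqrt_le_sqrt (mul_le_mul k3 k4 a0 (a1.trans k3)))
  rw [← e2] at k5
  have k6 := (le_abs_self _).trans k5
  show P.E (fun w => al w * (ind (A w) * (ind (N w) * ph w (Y w)))) ≤ _
  rw [e1]
  linarith

variable {P Zb Z F} in
/-- no branch -/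
theorem oneJ (hZ : Fac Z Zb) {Y : Om → γ} {B : ℝ} (hB : Real.exp 2 ≤ B) {al : Om → ℝ} (hal : Fac Z al)
    (h0 : ∀ w, 0 ≤ al w) {wt : Om → φ → ℝ} (hwt : ∀ x, Fac Z (fun w => wt w x)) (hw0 : ∀ w x, 0 ≤ wt w x)
    (hq : ∀ w, P.p w ≠ 0 → ∀ x, P.pv Zb F w x = 0 → wt w x = 0) {N : Om → Prop}
    (hN : ∀ w, P.p w ≠ 0 → N w → ¬ B < tau P Zb Z Y w (Y w)) {G : Om → γ → ℝ} (hG0 : ∀ w y, 0 ≤ G w y)
    (hG : ∀ w y, ¬ B < tau P Zb Z Y w y → 2 * (tau P Zb Z Y w y - 1) ^ 2 ≤ G w y) :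
    P.E (fun w => al w * (ind (N w) * ∑ x ∈ vals F, wt w x * (hwk B (rr P Zb F Y w (Y w) x) - 1))) ≤
      Real.sqrt ((gW P Zb Y G (fun w => al w * ∑ x ∈ vals F, wt w x) +
        2 * B * P.E (fun w => al w * (ind (¬ N w) * ∑ x ∈ vals F, wt w x))) *
        P.E (fun w => al w * ∑ x ∈ vals F, wt w x * lam P Zb F Y B w x ^ 2)) := by
  have k := branchJ (P := P) (Y := Y) (A := fun _ => True) hZ (fun _ _ _ => rfl) hB hal h0 hwt hw0 hq hN hG0 hG
  have e1 : P.E (fun w => al w * linW P Zb F (fun _ => True) wt w) = 0 := by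
    rw [P.E_congr (g := fun _ => (0 : ℝ)) (fun w hw => by rw [linW_true P Zb F hw (hq w hw), mul_zero])]
    exact P.E_const 0
  rw [e1, zero_add] at k
  simp only [ind_of (trivial : True), one_mul] at k
  exact k

variable {P Zb Z F} in
/-- **BOTH BRANCHES** -/
theorem twoJ (hZ : Fac Z Zb) {Y1 : Om → γ} {Y2 : Om → δ} {A : Om → Prop} (hA1 : Fac (fun u => (Y1 u, Zb u)) A)
    (hA2 : Fac (fun u => (Y2 u, Zb u)) A) {B : ℝ} (hB : Real.exp 2 ≤ B) {al : Om → ℝ} (hal : Fac Z al)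
    (h0 : ∀ w, 0 ≤ al w) {wt : Om → φ → ℝ} (hwt : ∀ x, Fac Z (fun w => wt w x)) (hw0 : ∀ w x, 0 ≤ wt w x)
    (hq : ∀ w, P.p w ≠ 0 → ∀ x, P.pv Zb F w x = 0 → wt w x = 0) {N1 N2 : Om → Prop}
    (hN1 : ∀ w, P.p w ≠ 0 → N1 w → ¬ B < tau P Zb Z Y1 w (Y1 w))
    (hN2 : ∀ w, P.p w ≠ 0 → N2 w → ¬ B < tau P Zb Z Y2 w (Y2 w)) {G1 : Om → γ → ℝ} {G2 : Om → δ → ℝ}
    (hG10 : ∀ w y, 0 ≤ G1 w y) (hG1 : ∀ w y, ¬ B < tau P Zb Z Y1 w y → 2 * (tau P Zb Z Y1 w y - 1) ^ 2 ≤ G1 w y)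
    (hG20 : ∀ w y, 0 ≤ G2 w y) (hG2 : ∀ w y, ¬ B < tau P Zb Z Y2 w y → 2 * (tau P Zb Z Y2 w y - 1) ^ 2 ≤ G2 w y) :
    P.E (fun w => al w * (ind (A w) * (ind (N1 w) * ∑ x ∈ vals F, wt w x * (hwk B (rr P Zb F Y1 w (Y1 w) x) - 1)))) +
    P.E (fun w => al w * (ind (¬ A w) * (ind (N2 w) * ∑ x ∈ vals F, wt w x * (hwk B (rr P Zb F Y2 w (Y2 w) x) - 1)))) ≤
      Real.sqrt ((gW P Zb Y1 G1 (fun w => al w * ∑ x ∈ vals F, wt w x) +
        2 * B * P.E (fun w => al w * (ind (A w) * (ind (¬ N1 w) * ∑ x ∈ vals F, wt w x)))) *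
        P.E (fun w => al w * ∑ x ∈ vals F, wt w x * lam P Zb F Y1 B w x ^ 2)) +
      Real.sqrt ((gW P Zb Y2 G2 (fun w => al w * ∑ x ∈ vals F, wt w x) +
        2 * B * P.E (fun w => al w * (ind (¬ A w) * (ind (¬ N2 w) * ∑ x ∈ vals F, wt w x)))) *
        P.E (fun w => al w * ∑ x ∈ vals F, wt w x * lam P Zb F Y2 B w x ^ 2)) := by
  have k1 := branchJ (P := P) (Y := Y1) (A := A) hZ hA1 hB hal h0 hwt hw0 hq hN1 hG10 hG1
  have k2 := branchJ (P := P) (Y := Y2) (A := fun u => ¬ A u) hZ (fun a b hab => by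
    have := hA2 a b hab
    show (¬ A a) = (¬ A b)
    rw [this]) hB hal h0 hwt hw0 hq hN2 hG20 hG2
  have e : P.E (fun w => al w * linW P Zb F (fun u => ¬ A u) wt w) = -P.E (fun w => al w * linW P Zb F A wt w) := by
    rw [← P.E_neg]
    refine P.E_congr fun w hw => ?_
    rw [linW_not P Zb F A hw (hq w hw)]
    ring
  rw [e] at k2
  linarith

end foj

end

end Pool.Agent.GMH
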