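import Pool.Agent.GMH.Key3R
import Pool.Agent.GMH.Key3L
import Mathlib.Data.Finset.Image

/-!
# GMH/FoL: THE FRAME `Fo` FOR THE STATICS (helper63)

`Fo F i0` = the tops without the vertex `i0` : entry `j ≠ i0` is `some (F j)`, entry `i0` is `none`.  Everything which KEY3
speaks about, in the frame `Fo`, in terms of the tops:
* `sum_Fo`, `sum_Fn` : sums over the letters; `pv_Fo`, `pv_Fn` : laws; `qF_Fo`, `mF_Fo`, `mF2_Fo`, `rF_Fo`, .. ;
* `gn_Fo`, `gn_Fn`, `Gd_Fo`, `Gd_Fn` : gains; `sum_gn_Fo`, `sum_Gd_Fo` : the sums over the entries;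
* `TVF_Fo`, `TVF_Fn`; `phi1_Fo`, `phi1_Fn` : first order terms;
* `hpair_Fo` : the pair hypothesis of KEY3 for the frame from the visible pair and the rows of the visible tops.
-/

set_option autoImplicit false
set_option linter.unusedSectionVars false
set_option linter.unusedVariables false

namespace Pool.Agent.GMH.FoL

open Finset Pool.Agent.PWZ Pool.Agent.M3 Pool.Agent.GMH

noncomputable section

variable {Om : Type*} [Fintype Om] (P : FP Om) {ι α β γ φ : Type*}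

section gen

variable {F : Fin 3 → Om → φ} {i0 j : Fin 3}

theorem Fo_app (hj : j ≠ i0) (u : Om) : Fo F i0 j u = some (F j u) := by unfold Fo; rw [if_neg hj]

theorem Fn_app (u : Om) : Fo F i0 i0 u = none := by unfold Fo; rw [if_pos rfl]

theorem vals_Fo (hj : j ≠ i0) : vals (Fo F i0 j) = (vals (F j)).map ⟨some, Option.some_injective φ⟩ := by
  classical
  ext x
  unfold vals
  simp only [Finset.mem_image, Finset.mem_univ, true_and, Finset.mem_map, Function.Embedding.coeFn_mk]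
  constructor
  · rintro ⟨u, rfl⟩
    exact ⟨F j u, ⟨u, rfl⟩, (Fo_app hj u).symm⟩
  · rintro ⟨y, ⟨u, rfl⟩, rfl⟩
    exact ⟨u, Fo_app hj u⟩

/-- sum over the letters of a visible top -/
theorem sum_Fo (hj : j ≠ i0) (g : Option φ → ℝ) : ∑ x ∈ vals (Fo F i0 j), g x = ∑ x ∈ vals (F j), g (some x) := by
  rw [vals_Fo hj, Finset.sum_map]
  rfl

theorem vals_Fn (w : Om) : vals (Fo F i0 i0) = ({none} : Finset (Option φ)) := by
  classical
  ext x
  unfold vals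
  simp only [Finset.mem_image, Finset.mem_univ, true_and, Finset.mem_singleton]
  constructor
  · rintro ⟨u, rfl⟩
    exact Fn_app u
  · rintro rfl
    exact ⟨w, Fn_app w⟩

/-- sum over the letters of the missing entry -/
theorem sum_Fn (w : Om) (g : Option φ → ℝ) : ∑ x ∈ vals (Fo F i0 i0), g x = g none := by
  rw [vals_Fn w, Finset.sum_singleton]

theorem some_mem (hj : j ≠ i0) {x : φ} : some x ∈ vals (Fo F i0 j) ↔ x ∈ vals (F j) := by
  rw [vals_Fo hj, Finset.mem_map]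
  constructor
  · rintro ⟨y, hy, e⟩
    rw [← Option.some.inj e]
    exact hy
  · exact fun hx => ⟨x, hx, rfl⟩

theorem mem_Fo (hj : j ≠ i0) {z : Option φ} (hz : z ∈ vals (Fo F i0 j)) : ∃ x ∈ vals (F j), z = some x := by
  rw [vals_Fo hj, Finset.mem_map] at hz
  obtain ⟨y, hy, e⟩ := hz
  exact ⟨y, hy, e.symm⟩

theorem mem_Fn {z : Option φ} (hz : z ∈ vals (Fo F i0 i0)) : z = none := by
  unfold vals at hz
  simp only [Finset.mem_image, Finset.mem_univ, true_and] at hz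
  obtain ⟨u, hu⟩ := hz
  rw [← hu]
  exact Fn_app u

theorem eq_some (hj : j ≠ i0) (x : φ) (u : Om) : (Fo F i0 j u = some x) = (F j u = x) := by
  rw [Fo_app hj]
  exact propext ⟨fun e => Option.some.inj e, fun e => congrArg some e⟩

/-- the law of a visible top -/
theorem pv_Fo (hj : j ≠ i0) (A : Om → ι) (w : Om) (x : φ) : P.pv A (Fo F i0 j) w (some x) = P.pv A (F j) w x := by
  unfold FP.pv
  simp only [eq_some hj x]

/-- the law of the missing entry -/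
theorem pv_Fn (A : Om → ι) {w : Om} (hw : P.p w ≠ 0) : P.pv A (Fo F i0 i0) w none = 1 := by
  unfold FP.pv
  have e : (fun u => ind (Fo F i0 i0 u = none)) = fun _ : Om => (1 : ℝ) := funext fun u => ind_of (Fn_app u)
  rw [e]
  exact FP.ce_const _ _ 1 hw

theorem pv_Fo2 (hj : j ≠ i0) {κ : Type*} (Y : Om → κ) (A : Om → ι) (w : Om) (y : κ) (x : φ) :
    P.pv A (fun u => (Y u, Fo F i0 j u)) w (y, some x) = P.pv A (fun u => (Y u, F j u)) w (y, x) := by
  unfold FP.pv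
  refine P.ce_congr (fun u _ => ?_) w
  have e : ((Y u, Fo F i0 j u) = (y, some x)) = ((Y u, F j u) = (y, x)) := by
    refine propext ⟨fun e => Prod.ext (Prod.mk.inj e).1 ?_, fun e => Prod.ext (Prod.mk.inj e).1 ?_⟩
    · exact (eq_some hj x u).mp (Prod.mk.inj e).2
    · exact (eq_some hj x u).mpr (Prod.mk.inj e).2
  rw [e]

theorem pv_Fn2 {κ : Type*} (Y : Om → κ) (A : Om → ι) (w : Om) (y : κ) :
    P.pv A (fun u => (Y u, Fo F i0 i0 u)) w (y, none) = P.pv A Y w y := by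
  unfold FP.pv
  refine P.ce_congr (fun u _ => ?_) w
  have e : ((Y u, Fo F i0 i0 u) = (y, none)) = (Y u = y) :=
    propext ⟨fun e => (Prod.mk.inj e).1, fun e => Prod.ext e (Fn_app u)⟩
  rw [e]

end gen

/-! ### one entry -/

section one

variable {F : Fin 3 → Om → φ} {i0 j : Fin 3} (Zb : Om → α) (Z : Om → β) (Y : Om → γ)

theorem qy_Fo (hj : j ≠ i0) (w : Om) (y : γ) (x : φ) : qy P Zb (Fo F i0 j) Y w y (some x) = qy P Zb (F j) Y w y x :=
  pv_Fo2 P hj Y Zb w y x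

theorem rr_Fo (hj : j ≠ i0) (w : Om) (y : γ) (x : φ) : rr P Zb (Fo F i0 j) Y w y (some x) = rr P Zb (F j) Y w y x := by
  unfold rr
  rw [qy_Fo P Zb Y hj, pv_Fo P hj]

/-- the ratio of the missing entry -/
theorem rr_Fn {w : Om} (hw : P.p w ≠ 0) {y : γ} (hy : P.pv Zb Y w y ≠ 0) : rr P Zb (Fo F i0 i0) Y w y none = 1 := by
  unfold rr
  have e : qy P Zb (Fo F i0 i0) Y w y none = P.pv Zb Y w y := pv_Fn2 P Y Zb w y
  rw [e, pv_Fn P Zb hw, mul_one, div_self hy]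

theorem gn_Fo (hj : j ≠ i0) : gn P Zb (Fo F i0 j) Y = gn P Zb (F j) Y := by
  unfold gn
  refine P.E_congr fun w _ => Finset.sum_congr rfl fun y _ => ?_
  rw [sum_Fo hj]
  refine Finset.sum_congr rfl fun x _ => ?_
  rw [pv_Fo P hj, rr_Fo P Zb Y hj]

theorem hphi_one : hphi 1 = 0 := by unfold hphi; simp

theorem gn_Fn : gn P Zb (Fo F i0 i0) Y = 0 := by
  unfold gn
  have h1 : ∀ w, P.p w ≠ 0 → ∑ y ∈ vals Y, ∑ x ∈ vals (Fo F i0 i0), P.pv Zb Y w y * (P.pv Zb (Fo F i0 i0) w x *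
      hphi (rr P Zb (Fo F i0 i0) Y w y x)) = 0 := by
    intro w hw
    refine Finset.sum_eq_zero fun y _ => ?_
    rw [sum_Fn w]
    by_cases hy : P.pv Zb Y w y = 0
    · rw [hy, zero_mul]
    · rw [rr_Fn P Zb Y hw hy, hphi_one, mul_zero, mul_zero]
  refine (P.E_congr h1).trans ?_
  unfold FP.E
  simp

theorem Gd_Fo (hj : j ≠ i0) (al : Om → ℝ) : Gd P Zb Z (Fo F i0 j) Y al = Gd P Zb Z (F j) Y al := by
  unfold Gd
  refine P.E_congr fun w _ => Finset.sum_congr rfl fun y _ => ?_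
  rw [sum_Fo hj]
  refine Finset.sum_congr rfl fun x _ => ?_
  rw [pv_Fo P hj, pv_Fo P hj, rr_Fo P Zb Y hj]

theorem Gd_Fn (al : Om → ℝ) : Gd P Zb Z (Fo F i0 i0) Y al = 0 := by
  unfold Gd
  have h1 : ∀ w, P.p w ≠ 0 → ∑ y ∈ vals Y, ∑ x ∈ vals (Fo F i0 i0), P.pv Zb Y w y * (al w *
      |P.pv Z (Fo F i0 i0) w x - P.pv Zb (Fo F i0 i0) w x| * hphi (rr P Zb (Fo F i0 i0) Y w y x)) = 0 := by
    intro w hw
    refine Finset.sum_eq_zero fun y _ => ?_
    rw [sum_Fn w, pv_Fn P Z hw, pv_Fn P Zb hw, sub_self, abs_zero, mul_zero, zero_mul, mul_zero]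
  refine (P.E_congr h1).trans ?_
  unfold FP.E
  simp

theorem phi1_Fo (hj : j ≠ i0) (B : ℝ) (w : Om) (y : γ) : phi1 P Zb Z (Fo F i0 j) Y B w y = phi1 P Zb Z (F j) Y B w y := by
  unfold phi1
  rw [sum_Fo hj]
  refine Finset.sum_congr rfl fun x _ => ?_
  rw [pv_Fo P hj, pv_Fo P hj, rr_Fo P Zb Y hj]

theorem phi1_Fn (B : ℝ) {w : Om} (hw : P.p w ≠ 0) (y : γ) : phi1 P Zb Z (Fo F i0 i0) Y B w y = 0 := by
  unfold phi1
  rw [sum_Fn w, pv_Fn P Z hw, pv_Fn P Zb hw, sub_self, zero_mul]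

end one

/-! ### the frame -/

section fr

variable (F : Fin 3 → Om → φ) (i0 : Fin 3) {j : Fin 3} (Z : Om → β) (Zb : Fin 3 → Om → α) (Y : Fin 3 → Om → γ)

theorem qF_Fo (hj : j ≠ i0) (w : Om) (x : φ) : qF P Zb (Fo F i0) j w (some x) = qF P Zb F j w x := pv_Fo P hj (Zb j) w x

theorem qF_Fn {w : Om} (hw : P.p w ≠ 0) : qF P Zb (Fo F i0) i0 w none = 1 := pv_Fn P (Zb i0) hw

theorem qF'_Fo (hj : j ≠ i0) (w : Om) (x : φ) : qF' P Zb (Fo F i0) Y j w (some x) = qF' P Zb F Y j w x :=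
  pv_Fo P hj (fun u => (Y j u, Zb j u)) w x

theorem qF'_Fn {w : Om} (hw : P.p w ≠ 0) : qF' P Zb (Fo F i0) Y i0 w none = 1 := pv_Fn P (fun u => (Y i0 u, Zb i0 u)) hw

theorem mF_Fo (hj : j ≠ i0) (w : Om) (x : φ) : mF P Z (Fo F i0) j w (some x) = mF P Z F j w x := pv_Fo P hj Z w x

theorem mF_Fn {w : Om} (hw : P.p w ≠ 0) : mF P Z (Fo F i0) i0 w none = 1 := pv_Fn P Z hw

theorem rF_Fo (hj : j ≠ i0) (w : Om) (x : φ) : rF P Zb (Fo F i0) Y j w (some x) = rF P Zb F Y j w x :=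
  rr_Fo P (Zb j) (Y j) hj w (Y j w) x

theorem rF_Fn {w : Om} (hw : P.p w ≠ 0) : rF P Zb (Fo F i0) Y i0 w none = 1 := by
  refine rr_Fn P (Zb i0) (Y i0) hw ?_
  have h1 : P.pv (Zb i0) (Y i0) w (Y i0 w) = P.m (fun u => (Y i0 u, Zb i0 u)) w / P.m (Zb i0) w := P.pv_self (Zb i0) (Y i0) w
  rw [h1]
  exact (div_pos (P.m_pos _ hw) (P.m_pos _ hw)).ne'

theorem rF_le {w : Om} (hw : P.p w ≠ 0) {z : Option φ} (hz : z ∈ vals (Fo F i0 i0)) : rF P Zb (Fo F i0) Y i0 w z = 1 := by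
  rw [mem_Fn hz]
  exact rF_Fn P F i0 Zb Y hw

theorem mF2_Fo {i k : Fin 3} (hi : i ≠ i0) (hk : k ≠ i0) (w : Om) (x y : φ) :
    mF2 P Z (Fo F i0) i k w (some x) (some y) = mF2 P Z F i k w x y := by
  unfold mF2 FP.pv
  refine P.ce_congr (fun u _ => ?_) w
  have e : ((Fo F i0 i u, Fo F i0 k u) = (some x, some y)) = ((F i u, F k u) = (x, y)) := by
    refine propext ⟨fun e => Prod.ext ?_ ?_, fun e => Prod.ext ?_ ?_⟩
    · exact (eq_some hi x u).mp (Prod.mk.inj e).1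
    · exact (eq_some hk y u).mp (Prod.mk.inj e).2
    · exact (eq_some hi x u).mpr (Prod.mk.inj e).1
    · exact (eq_some hk y u).mpr (Prod.mk.inj e).2
  rw [e]

/-- the pair of the missing entry and a visible top -/
theorem mF2_Fn {k : Fin 3} (hk : k ≠ i0) (w : Om) (y : φ) : mF2 P Z (Fo F i0) i0 k w none (some y) = mF P Z F k w y := by
  unfold mF2 mF FP.pv
  refine P.ce_congr (fun u _ => ?_) w
  have e : ((Fo F i0 i0 u, Fo F i0 k u) = (none, some y)) = (F k u = y) := by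
    refine propext ⟨fun e => (eq_some hk y u).mp (Prod.mk.inj e).2, fun e => Prod.ext (Fn_app u) ?_⟩
    exact (eq_some hk y u).mpr e
  rw [e]

theorem mF2_nF {k : Fin 3} (hk : k ≠ i0) (w : Om) (y : φ) : mF2 P Z (Fo F i0) k i0 w (some y) none = mF P Z F k w y := by
  unfold mF2 mF FP.pv
  refine P.ce_congr (fun u _ => ?_) w
  have e : ((Fo F i0 k u, Fo F i0 i0 u) = (some y, none)) = (F k u = y) := by
    refine propext ⟨fun e => (eq_some hk y u).mp (Prod.mk.inj e).1, fun e => Prod.ext ?_ (Fn_app u)⟩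
    exact (eq_some hk y u).mpr e
  rw [e]

/-- the gains of the frame -/
theorem sum_gn_Fo : ∑ j, gn P (Zb j) (Fo F i0 j) (Y j) = ∑ j ∈ univ.erase i0, gn P (Zb j) (F j) (Y j) := by
  rw [← Finset.add_sum_erase univ (fun j => gn P (Zb j) (Fo F i0 j) (Y j)) (mem_univ i0), gn_Fn, zero_add]
  exact Finset.sum_congr rfl fun j hj => gn_Fo P (Zb j) (Y j) (Finset.ne_of_mem_erase hj)

theorem sum_gn_Fo_le : ∑ j, gn P (Zb j) (Fo F i0 j) (Y j) ≤ ∑ j, gn P (Zb j) (F j) (Y j) := by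
  rw [sum_gn_Fo]
  exact Finset.sum_le_sum_of_subset_of_nonneg (Finset.erase_subset _ _) fun j _ _ => gn_nn P (Zb j) (F j) (Y j)

theorem sum_Gd_Fo (al : Om → ℝ) : ∑ j, Gd P (Zb j) Z (Fo F i0 j) (Y j) al =
    ∑ j ∈ univ.erase i0, Gd P (Zb j) Z (F j) (Y j) al := by
  rw [← Finset.add_sum_erase univ (fun j => Gd P (Zb j) Z (Fo F i0 j) (Y j) al) (mem_univ i0), Gd_Fn, zero_add]
  exact Finset.sum_congr rfl fun j hj => Gd_Fo P (Zb j) Z (Y j) (Finset.ne_of_mem_erase hj) al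

theorem sum_Gd_Fo_le {al : Om → ℝ} (h0 : ∀ w, 0 ≤ al w) : ∑ j, Gd P (Zb j) Z (Fo F i0 j) (Y j) al ≤
    ∑ j, Gd P (Zb j) Z (F j) (Y j) al := by
  rw [sum_Gd_Fo]
  exact Finset.sum_le_sum_of_subset_of_nonneg (Finset.erase_subset _ _) fun j _ _ => Gd_nn P (Zb j) Z (F j) (Y j) h0

theorem TVF_Fo (hj : j ≠ i0) (w : Om) : TVF P Z Zb (Fo F i0) j w = TVF P Z Zb F j w := by
  unfold TVF
  rw [sum_Fo hj]
  refine Finset.sum_congr rfl fun x _ => ?_
  rw [mF_Fo P F i0 Z hj, qF_Fo P F i0 Zb hj]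

theorem TVF_Fn {w : Om} (hw : P.p w ≠ 0) : TVF P Z Zb (Fo F i0) i0 w = 0 := by
  unfold TVF
  rw [sum_Fn w, mF_Fn P F i0 Z hw, qF_Fn P F i0 Zb hw, sub_self, abs_zero]

end fr

end

end Pool.Agent.GMH.FoL
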