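import Pool.Agent.GMH.FoJ

/-!
# GMH/FoM: THE MIDDLE PART OF THE FIRST FACTOR (helper81, row K5 (b))

`m2W` with the ratio of one vertex `sr w y = P(N' | class of the vertex) / P(N' | public)` at `N' = np y`, `N'` = new public
value.
* `sum_push` : `sum_y P(Y = y | Zb) g (np y) = sum_z P(N' = z | Zb) g z`;
* `mid_le` : split by the density of the public value (`P(z | Zb) ≤ C P(z | public)` or not): at most
  `C rho1 8 B I + 16 B^2 (rho2 Pr(dense) + E bb 1_dense)`, `rho1` = mean weight in the class of the vertex, `rho2 + bb` = mean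
  weight given `Zb`, `I` = information of the class of the vertex about the public value.
-/

set_option autoImplicit false
set_option linter.unusedSectionVars false
set_option linter.unusedVariables false

namespace Pool.Agent.GMH

open Finset Pool.Agent.PWZ Pool.Agent.M3

noncomputable section

section mid

variable {Om : Type*} [Fintype Om] (P : FP Om) {α γ δ κ ι : Type*} (Zb : Om → α) (Y : Om → γ) (NP : Om → κ) (XN : Om → ι)
  (N' : Om → δ)

variable {Y N'} in
theorem sum_push {np : γ → δ} (hnp : ∀ u, P.p u ≠ 0 → N' u = np (Y u)) (g : δ → ℝ) (w : Om) :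
    ∑ y ∈ vals Y, P.pv Zb Y w y * g (np y) = ∑ z ∈ vals N', P.pv Zb N' w z * g z := by
  rw [P.sum_pv (W := Zb) Y (F := fun _ y => g (np y)) (fun _ _ _ _ => rfl) w,
    P.sum_pv (W := Zb) N' (F := fun _ z => g z) (fun _ _ _ _ => rfl) w]
  exact P.ce_congr (fun u hu => by rw [hnp u hu]) w

/-- square of the truncated ratio -/
def gc (B : ℝ) (w : Om) (z : δ) : ℝ := (hwk (4 * B) (tau P NP XN N' w z) - 1) ^ 2

theorem gc_nn (B : ℝ) (w : Om) (z : δ) : 0 ≤ gc P NP XN N' B w z := sq_nonneg _

theorem gc_le {B : ℝ} (hB : 1 ≤ B) (w : Om) (z : δ) : gc P NP XN N' B w z ≤ (4 * B) ^ 2 := by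
  unfold gc
  have h0 : 0 ≤ tau P NP XN N' w z := tau_nn _ _ _ _ _ _
  have h1 : 0 ≤ hwk (4 * B) (tau P NP XN N' w z) := by
    unfold hwk
    exact mul_nonneg (ind_nonneg _) h0
  have h2 : hwk (4 * B) (tau P NP XN N' w z) ≤ 4 * B := by
    unfold hwk
    by_cases h : 4 * B < tau P NP XN N' w z
    · rw [ind_not (not_not.2 h), zero_mul]; linarith
    · rw [ind_of h, one_mul]; exact not_lt.1 h
  have h3 : |hwk (4 * B) (tau P NP XN N' w z) - 1| ≤ 4 * B := by
    rw [abs_le]
    constructor <;> linarith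
  exact sq_le_sq' (by linarith [(abs_le.1 h3).1]) (abs_le.1 h3).2

theorem gc_fac (hX : Fac XN NP) (B : ℝ) (z : δ) : Fac XN (fun w => gc P NP XN N' B w z) := by
  intro a b hab
  show gc P NP XN N' B a z = gc P NP XN N' B b z
  unfold gc
  rw [tauc P N' hX hab z]

/-- the public value is dense for `Zb` -/
def dense (C : ℝ) (w : Om) (z : δ) : Prop := C < tau P NP Zb N' w z

theorem dense_fac (hZ : Fac Zb NP) (C : ℝ) (z : δ) : Fac Zb (fun w => dense P Zb NP N' C w z) := by
  intro a b hab
  show dense P Zb NP N' C a z = dense P Zb NP N' C b z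
  unfold dense
  rw [tauc P N' hZ hab z]

variable {P Zb Y NP XN N'} in
/-- **THE MIDDLE PART** -/
theorem mid_le (hZ : Fac Zb NP) (hX : Fac XN NP) {np : γ → δ} (hnp : ∀ u, P.p u ≠ 0 → N' u = np (Y u)) {B C : ℝ}
    (hB : Real.exp 2 ≤ B) (hC : 0 ≤ C) {f : Om → ℝ} (f0 : ∀ w, 0 ≤ f w) {rho1 rho2 : ℝ} {bb : Om → ℝ} (hbb : Fac Zb bb)
    (h1 : ∀ w, P.p w ≠ 0 → P.ce XN f w ≤ rho1) (h2 : ∀ w, P.p w ≠ 0 → P.ce Zb f w ≤ rho2 + bb w) :
    m2W P Zb Y B (fun w y => tau P NP XN N' w (np y)) f ≤
      C * (rho1 * (8 * B * Dt P NP XN N')) + (4 * B) ^ 2 * (rho2 * P.E (fun w => ind (dense P Zb NP N' C w (N' w))) +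
        P.E (fun w => bb w * ind (dense P Zb NP N' C w (N' w)))) := by
  have hB1 : 1 ≤ B := by
    have := Real.add_one_le_exp 2
    linarith
  have hB0 : 0 ≤ B := by linarith
  -- the two parts
  set chi : Om → ℝ := fun w => ∑ z ∈ vals N', P.pv NP N' w z * gc P NP XN N' B w z with hchi
  set pi : Om → ℝ := fun w => ∑ z ∈ vals N', P.pv Zb N' w z * ind (dense P Zb NP N' C w z) with hpi
  have e0 : m2W P Zb Y B (fun w y => tau P NP XN N' w (np y)) f =
      P.E (fun w => f w * ∑ z ∈ vals N', P.pv Zb N' w z * gc P NP XN N' B w z) := by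
    unfold m2W
    refine P.E_congr fun w _ => ?_
    rw [← sum_push P Zb hnp (fun z => gc P NP XN N' B w z) w]
    rfl
  have e1 : ∀ w, ∑ z ∈ vals N', P.pv Zb N' w z * gc P NP XN N' B w z ≤ C * chi w + (4 * B) ^ 2 * pi w := by
    intro w
    rw [hchi, hpi]
    dsimp only
    rw [Finset.mul_sum, Finset.mul_sum, ← Finset.sum_add_distrib]
    refine Finset.sum_le_sum fun z _ => ?_
    have g0 := gc_nn P NP XN N' B w z
    have g1 := gc_le P NP XN N' hB1 w z
    have q0 := P.pv_nonneg Zb N' w z
    have q1 := P.pv_nonneg NP N' w z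
    by_cases hd : dense P Zb NP N' C w z
    · rw [ind_of hd]
      have := mul_le_mul_of_nonneg_left g1 q0
      have := mul_nonneg hC (mul_nonneg q1 g0)
      nlinarith
    · rw [ind_not hd]
      have h3 : P.pv Zb N' w z ≤ C * P.pv NP N' w z := by
        have h4 : P.pv Zb N' w z = tau P NP Zb N' w z * P.pv NP N' w z := yz_eq P N' hZ w z
        rw [h4]
        exact mul_le_mul_of_nonneg_right (not_lt.1 hd) q1
      have := mul_le_mul_of_nonneg_right h3 g0
      linarith
  have k1 : m2W P Zb Y B (fun w y => tau P NP XN N' w (np y)) f ≤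
      C * P.E (fun w => f w * chi w) + (4 * B) ^ 2 * P.E (fun w => f w * pi w) := by
    rw [e0, ← P.E_smul, ← P.E_smul, ← P.E_add]
    refine P.E_mono fun w _ => ?_
    have := mul_le_mul_of_nonneg_left (e1 w) (f0 w)
    linarith
  have chi0 : ∀ w, 0 ≤ chi w := fun w => Finset.sum_nonneg fun z _ => mul_nonneg (P.pv_nonneg _ _ _ _) (gc_nn _ _ _ _ _ _ _)
  have pi0 : ∀ w, 0 ≤ pi w := fun w => Finset.sum_nonneg fun z _ => mul_nonneg (P.pv_nonneg _ _ _ _) (ind_nonneg _)
  -- the part of one vertex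
  have fchi : Fac XN chi := by
    intro a b hab
    show ∑ z ∈ vals N', P.pv NP N' a z * gc P NP XN N' B a z = ∑ z ∈ vals N', P.pv NP N' b z * gc P NP XN N' B b z
    refine Finset.sum_congr rfl fun z _ => ?_
    rw [pvc P N' (hX a b hab) z, show gc P NP XN N' B a z = gc P NP XN N' B b z from gc_fac P NP XN N' hX B z a b hab]
  have k2 : P.E (fun w => f w * chi w) ≤ rho1 * (8 * B * Dt P NP XN N') := by
    have a1 : P.E (fun w => f w * chi w) = P.E (fun w => chi w * P.ce XN f w) := by
      rw [P.E_mul_ce fchi f]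
      exact P.E_congr fun w _ => by ring
    rw [a1]
    have a2 : P.E (fun w => chi w * P.ce XN f w) ≤ rho1 * P.E chi := by
      rw [← P.E_smul]
      refine P.E_mono fun w hw => ?_
      have := mul_le_mul_of_nonneg_left (h1 w hw) (chi0 w)
      linarith
    refine a2.trans ?_
    by_cases hr : 0 ≤ rho1
    · refine mul_le_mul_of_nonneg_left ?_ hr
      unfold Dt
      rw [← P.E_smul]
      refine P.E_mono fun w _ => ?_
      rw [hchi]
      dsimp only
      rw [Finset.mul_sum]
      refine Finset.sum_le_sum fun z _ => ?_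
      have h4B : Real.exp 2 ≤ 4 * B := by linarith
      have h3 := wk_sub_sq_le h4B (tau_nn P NP XN N' w z)
      have h4 := mul_le_mul_of_nonneg_left h3 (P.pv_nonneg NP N' w z)
      unfold gc
      linarith
    · -- `rho1 < 0` : the mean of the weight is nonnegative, so there are no points
      exfalso
      have : ∃ w, P.p w ≠ 0 := by
        by_contra hh
        push Not at hh
        have h5 := P.E_const 1
        have h6 : P.E (fun _ => (1 : ℝ)) = P.E (fun _ => (0 : ℝ)) := P.E_congr fun w hw => absurd (hh w) hw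
        rw [h5, P.E_const] at h6
        norm_num at h6
      obtain ⟨w, hw⟩ := this
      have h5 := h1 w hw
      have h6 : 0 ≤ P.ce XN f w := P.ce_nonneg (fun u _ => f0 u) w
      linarith
  -- the dense part
  have fpi : Fac Zb pi := by
    intro a b hab
    show ∑ z ∈ vals N', P.pv Zb N' a z * ind (dense P Zb NP N' C a z) =
      ∑ z ∈ vals N', P.pv Zb N' b z * ind (dense P Zb NP N' C b z)
    refine Finset.sum_congr rfl fun z _ => ?_
    rw [pvc P N' hab z, show dense P Zb NP N' C a z = dense P Zb NP N' C b z from dense_fac P Zb NP N' hZ C z a b hab]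
  have k3 : P.E (fun w => f w * pi w) ≤ rho2 * P.E (fun w => ind (dense P Zb NP N' C w (N' w))) +
      P.E (fun w => bb w * ind (dense P Zb NP N' C w (N' w))) := by
    have a1 : P.E (fun w => f w * pi w) = P.E (fun w => pi w * P.ce Zb f w) := by
      rw [P.E_mul_ce fpi f]
      exact P.E_congr fun w _ => by ring
    have a2 : P.E (fun w => pi w * P.ce Zb f w) ≤ P.E (fun w => pi w * (rho2 + bb w)) :=
      P.E_mono fun w hw => mul_le_mul_of_nonneg_left (h2 w hw) (pi0 w)
    have a3 : P.E (fun w => (rho2 + bb w) * ind (dense P Zb NP N' C w (N' w))) = P.E (fun w => pi w * (rho2 + bb w)) := by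
      rw [E_real P N' (W := Zb) (f := fun w z => (rho2 + bb w) * ind (dense P Zb NP N' C w z)) (fun z a b hab => by
        show (rho2 + bb a) * ind (dense P Zb NP N' C a z) = (rho2 + bb b) * ind (dense P Zb NP N' C b z)
        rw [show bb a = bb b from hbb a b hab,
          show dense P Zb NP N' C a z = dense P Zb NP N' C b z from dense_fac P Zb NP N' hZ C z a b hab])]
      refine P.E_congr fun w _ => ?_
      rw [hpi]
      dsimp only
      rw [Finset.sum_mul]
      exact Finset.sum_congr rfl fun z _ => by ring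
    rw [a1]
    refine a2.trans (le_of_eq ?_)
    rw [← a3, ← P.E_smul, ← P.E_add]
    exact P.E_congr fun w _ => by ring
  have h4B : 0 ≤ (4 * B) ^ 2 := sq_nonneg _
  have m1 := mul_le_mul_of_nonneg_left k2 hC
  have m2 := mul_le_mul_of_nonneg_left k3 h4B
  linarith

/-- dense public values -/
theorem dense_le (hZ : Fac Zb NP) {C : ℝ} (hC : Real.exp 2 ≤ C) :
    P.E (fun w => ind (dense P Zb NP N' C w (N' w))) ≤ P.I Zb N' NP := by
  have h1 := thin_strong P NP Zb N' hZ hC
  rw [Dt_eq P NP Zb N' hZ] at h1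
  exact h1

end mid

end

end Pool.Agent.GMH
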