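import Pool.Agent.GMH.FoFam

/-!
# GMH/FoOne: FIRST ORDER TERMS OF FEW POINTS (helper63)

The first order term of a top with ANY weight `al ≤ al0` (`al` may see everything, `al0` is seen before the step) is at most
`2 B (E al * Gd al0)^(1/2)`; over the run `Gd` is at most `d1T` times the gain, so a family of points of total mass `M` costs at
most `2 B (M d1T 2 Lam)^(1/2)`, and `d1T` is about `N_1^(-1/2)`.
* `FO1_cs` : one law; `fo_cs` : one step; `fo_few` : the run, one top;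
* `fo_all1` : the first order terms of `FullOK` and `TwoOK` only: nothing is needed from the tops `k` of `OneOK`, `OneP` except
  the masses `M k b` of their points.
-/

set_option autoImplicit false
set_option linter.unusedSectionVars false
set_option linter.unusedVariables false

namespace Pool.Agent.GMH

open Finset Pool.Agent.PWZ Pool.Agent.M3

noncomputable section

section one

variable {Om : Type*} [Fintype Om] (P : FP Om) {α β γ φ : Type*} {Zb : Om → α} {Z : Om → β} (F : Om → φ)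

/-- **FEW POINTS** -/
theorem FO1_cs (hZ : Fac Z Zb) (Y : Om → γ) {B : ℝ} (hB : Real.exp 2 ≤ B) {al al0 : Om → ℝ} (hal : Fac Z al0)
    (h0 : ∀ w, 0 ≤ al w) (h01 : ∀ w, al w ≤ al0 w) :
    |FO1 P Zb Z F Y B al| ≤ 2 * B * Real.sqrt (P.E al * Gd P Zb Z F Y al0) := by
  have hB0 : 0 ≤ B := (Real.exp_pos 2).le.trans hB
  have h00 : ∀ w, 0 ≤ al0 w := fun w => (h0 w).trans (h01 w)
  have hG := Gd_nn P Zb Z F Y (al := al0) h00
  have hE : 0 ≤ P.E al := P.E_nonneg fun w _ => h0 w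
  have fτ := tau_fac P Y hZ
  have e1 : |FO1 P Zb Z F Y B al| ≤ P.E (fun w => ∑ x ∈ vals F, (al w * |P.pv Z F w x - P.pv Zb F w x|) *
      (1 * (ind (¬ B < tau P Zb Z Y w (Y w)) * |hwk B (rr P Zb F Y w (Y w) x) - 1|))) := by
    unfold FO1
    refine (P.abs_E_le _).trans (P.E_mono fun w _ => ?_)
    rw [abs_mul, abs_of_nonneg (h0 w), abs_mul, abs_of_nonneg (ind_nonneg _)]
    have g1 : |phi1 P Zb Z F Y B w (Y w)| ≤ ∑ x ∈ vals F, |P.pv Z F w x - P.pv Zb F w x| *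
        |hwk B (rr P Zb F Y w (Y w) x) - 1| := by
      unfold phi1
      refine (Finset.abs_sum_le_sum_abs _ _).trans (Finset.sum_le_sum fun x _ => ?_)
      rw [abs_mul]
    refine (mul_le_mul_of_nonneg_left (mul_le_mul_of_nonneg_left g1 (ind_nonneg _)) (h0 w)).trans (le_of_eq ?_)
    rw [Finset.mul_sum, Finset.mul_sum]
    exact Finset.sum_congr rfl fun x _ => by ring
  have k2 := E_sum_cs P (vals F) (fun w x => al w * |P.pv Z F w x - P.pv Zb F w x|) (fun _ _ => (1 : ℝ))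
    (fun w x => ind (¬ B < tau P Zb Z Y w (Y w)) * |hwk B (rr P Zb F Y w (Y w) x) - 1|)
    (fun w _ x _ => mul_nonneg (h0 w) (abs_nonneg _))
  have k3 : P.E (fun w => ∑ x ∈ vals F, (al w * |P.pv Z F w x - P.pv Zb F w x|) * (1 : ℝ) ^ 2) ≤ 2 * P.E al := by
    rw [← P.E_smul]
    refine P.E_mono fun w hw => ?_
    have c3 : ∑ x ∈ vals F, |P.pv Z F w x - P.pv Zb F w x| ≤ ∑ x ∈ vals F, (P.pv Z F w x + P.pv Zb F w x) := by
      refine Finset.sum_le_sum fun x _ => ?_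
      rw [abs_le]
      have a1 := P.pv_nonneg Z F w x
      have a2 := P.pv_nonneg Zb F w x
      constructor <;> linarith
    rw [Finset.sum_add_distrib, P.pv_sum Z F hw, P.pv_sum Zb F hw] at c3
    have e : ∑ x ∈ vals F, (al w * |P.pv Z F w x - P.pv Zb F w x|) * (1 : ℝ) ^ 2 =
        al w * ∑ x ∈ vals F, |P.pv Z F w x - P.pv Zb F w x| := by
      rw [Finset.mul_sum]
      exact Finset.sum_congr rfl fun x _ => by ring
    rw [e]
    have := mul_le_mul_of_nonneg_left c3 (h0 w)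
    linarith
  have k4 : P.E (fun w => ∑ x ∈ vals F, (al w * |P.pv Z F w x - P.pv Zb F w x|) *
      (ind (¬ B < tau P Zb Z Y w (Y w)) * |hwk B (rr P Zb F Y w (Y w) x) - 1|) ^ 2) ≤
      2 * B ^ 2 * Gd P Zb Z F Y al0 := by
    have g1 : P.E (fun w => ∑ x ∈ vals F, (al w * |P.pv Z F w x - P.pv Zb F w x|) *
        (ind (¬ B < tau P Zb Z Y w (Y w)) * |hwk B (rr P Zb F Y w (Y w) x) - 1|) ^ 2) ≤
        P.E (fun w => (fun w y => al0 w * (ind (¬ B < tau P Zb Z Y w y) * ∑ x ∈ vals F,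
          |P.pv Z F w x - P.pv Zb F w x| * (2 * B * hphi (rr P Zb F Y w y x)))) w (Y w)) := by
      refine P.E_mono fun w _ => ?_
      dsimp only
      rw [Finset.mul_sum, Finset.mul_sum]
      refine Finset.sum_le_sum fun x _ => ?_
      have a1 := wk_sub_sq_le hB (rr_nn P Zb F Y w (Y w) x)
      have a2 : (ind (¬ B < tau P Zb Z Y w (Y w)) * |hwk B (rr P Zb F Y w (Y w) x) - 1|) ^ 2 ≤
          ind (¬ B < tau P Zb Z Y w (Y w)) * (2 * B * hphi (rr P Zb F Y w (Y w) x)) := by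
        rw [mul_pow, sq_abs]
        have a3 : ind (¬ B < tau P Zb Z Y w (Y w)) ^ 2 = ind (¬ B < tau P Zb Z Y w (Y w)) := by
          by_cases hh : ¬ B < tau P Zb Z Y w (Y w)
          · rw [ind_of hh]; norm_num
          · rw [ind_not hh]; norm_num
        rw [a3]
        exact mul_le_mul_of_nonneg_left a1 (ind_nonneg _)
      have a4 : 0 ≤ ind (¬ B < tau P Zb Z Y w (Y w)) * (2 * B * hphi (rr P Zb F Y w (Y w) x)) :=
        mul_nonneg (ind_nonneg _) (mul_nonneg (by positivity) (hphi_nonneg (rr_nn _ _ _ _ _ _ _)))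
      calc al w * |P.pv Z F w x - P.pv Zb F w x| *
            (ind (¬ B < tau P Zb Z Y w (Y w)) * |hwk B (rr P Zb F Y w (Y w) x) - 1|) ^ 2
          ≤ al0 w * |P.pv Z F w x - P.pv Zb F w x| *
            (ind (¬ B < tau P Zb Z Y w (Y w)) * (2 * B * hphi (rr P Zb F Y w (Y w) x))) :=
            mul_le_mul (mul_le_mul_of_nonneg_right (h01 w) (abs_nonneg _)) a2 (sq_nonneg _)
              (mul_nonneg (h00 w) (abs_nonneg _))
        _ = _ := by ring
    refine g1.trans ?_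
    rw [E_real P Y (W := Z) (f := fun w y => al0 w * (ind (¬ B < tau P Zb Z Y w y) * ∑ x ∈ vals F,
          |P.pv Z F w x - P.pv Zb F w x| * (2 * B * hphi (rr P Zb F Y w y x))))
      (fun y a b hab => by
        have g1 : al0 a = al0 b := hal a b hab
        have g2 : tau P Zb Z Y a y = tau P Zb Z Y b y := fτ y a b hab
        have g3 : ∀ x, P.pv Z F a x = P.pv Z F b x := fun x => P.pv_fac Z F x a b hab
        have g4 : ∀ x, P.pv Zb F a x = P.pv Zb F b x := fun x => P.pv_fac Zb F x a b (hZ a b hab)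
        have g5 : ∀ x, rr P Zb F Y a y x = rr P Zb F Y b y x := fun x => rrc P F Y (hZ a b hab) y x
        show al0 a * (ind (¬ B < tau P Zb Z Y a y) * ∑ x ∈ vals F,
          |P.pv Z F a x - P.pv Zb F a x| * (2 * B * hphi (rr P Zb F Y a y x))) = al0 b * (ind (¬ B < tau P Zb Z Y b y) *
          ∑ x ∈ vals F, |P.pv Z F b x - P.pv Zb F b x| * (2 * B * hphi (rr P Zb F Y b y x)))
        rw [g1, g2]
        simp only [g3, g4, g5])]
    unfold Gd
    rw [← P.E_smul]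
    refine P.E_mono fun w _ => ?_
    rw [Finset.mul_sum]
    refine Finset.sum_le_sum fun y _ => ?_
    have a1 : P.pv Z Y w y * ind (¬ B < tau P Zb Z Y w y) ≤ B * P.pv Zb Y w y := by
      by_cases hh : ¬ B < tau P Zb Z Y w y
      · rw [ind_of hh, mul_one, yz_eq P Y hZ w y]
        exact mul_le_mul_of_nonneg_right (not_lt.1 hh) (P.pv_nonneg _ _ _ _)
      · rw [ind_not hh, mul_zero]
        exact mul_nonneg hB0 (P.pv_nonneg _ _ _ _)
    have a2 : 0 ≤ al0 w * ∑ x ∈ vals F, |P.pv Z F w x - P.pv Zb F w x| * (2 * B * hphi (rr P Zb F Y w y x)) :=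
      mul_nonneg (h00 w) (Finset.sum_nonneg fun x _ => mul_nonneg (abs_nonneg _)
        (mul_nonneg (by positivity) (hphi_nonneg (rr_nn _ _ _ _ _ _ _))))
    calc P.pv Z Y w y * (al0 w * (ind (¬ B < tau P Zb Z Y w y) * ∑ x ∈ vals F,
          |P.pv Z F w x - P.pv Zb F w x| * (2 * B * hphi (rr P Zb F Y w y x))))
        = (P.pv Z Y w y * ind (¬ B < tau P Zb Z Y w y)) * (al0 w * ∑ x ∈ vals F,
          |P.pv Z F w x - P.pv Zb F w x| * (2 * B * hphi (rr P Zb F Y w y x))) := by ring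
      _ ≤ (B * P.pv Zb Y w y) * (al0 w * ∑ x ∈ vals F,
          |P.pv Z F w x - P.pv Zb F w x| * (2 * B * hphi (rr P Zb F Y w y x))) := mul_le_mul_of_nonneg_right a1 a2
      _ = _ := by
        rw [Finset.mul_sum, Finset.mul_sum, Finset.mul_sum]
        exact Finset.sum_congr rfl fun x _ => by ring
  have k5 : 0 ≤ P.E (fun w => ∑ x ∈ vals F, (al w * |P.pv Z F w x - P.pv Zb F w x|) *
      (ind (¬ B < tau P Zb Z Y w (Y w)) * |hwk B (rr P Zb F Y w (Y w) x) - 1|) ^ 2) :=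
    P.E_nonneg fun w _ => Finset.sum_nonneg fun x _ => mul_nonneg (mul_nonneg (h0 w) (abs_nonneg _)) (sq_nonneg _)
  have k6 := mul_le_mul k3 k4 k5 (by positivity)
  have k7 : 2 * B * Real.sqrt (P.E al * Gd P Zb Z F Y al0) =
      Real.sqrt (2 * P.E al * (2 * B ^ 2 * Gd P Zb Z F Y al0)) := by
    have e2 : 2 * P.E al * (2 * B ^ 2 * Gd P Zb Z F Y al0) = (2 * B) ^ 2 * (P.E al * Gd P Zb Z F Y al0) := by ring
    rw [e2, Real.sqrt_mul (sq_nonneg _), Real.sqrt_sq (by positivity)]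
  rw [k7]
  exact e1.trans ((le_abs_self _).trans (k2.trans (Real.sqrt_le_sqrt k6)))

end one

/-- Cauchy-Schwarz over a finite set -/
theorem sum_sqrt_le {κ : Type*} (S : Finset κ) {a g : κ → ℝ} (ha : ∀ j ∈ S, 0 ≤ a j) (hg : ∀ j ∈ S, 0 ≤ g j) {M G : ℝ}
    (hM : ∑ j ∈ S, a j ≤ M) (hG : ∑ j ∈ S, g j ≤ G) : ∑ j ∈ S, Real.sqrt (a j * g j) ≤ Real.sqrt (M * G) := by
  have h1 := Finset.sum_mul_sq_le_sq_mul_sq S (fun j => Real.sqrt (a j)) (fun j => Real.sqrt (g j))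
  have h2 : ∑ j ∈ S, Real.sqrt (a j) ^ 2 = ∑ j ∈ S, a j := Finset.sum_congr rfl fun j hj => Real.sq_sqrt (ha j hj)
  have h3 : ∑ j ∈ S, Real.sqrt (g j) ^ 2 = ∑ j ∈ S, g j := Finset.sum_congr rfl fun j hj => Real.sq_sqrt (hg j hj)
  have h4 : ∑ j ∈ S, Real.sqrt (a j * g j) = ∑ j ∈ S, Real.sqrt (a j) * Real.sqrt (g j) :=
    Finset.sum_congr rfl fun j hj => Real.sqrt_mul (ha j hj) _
  rw [h4]
  refine Real.le_sqrt_of_sq_le ?_
  rw [h2, h3] at h1
  refine h1.trans ?_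
  exact mul_le_mul hM hG (Finset.sum_nonneg hg) ((Finset.sum_nonneg ha).trans hM)

end

end Pool.Agent.GMH

namespace Pool.Agent.GMH.TP

open Finset Pool.Agent.PWZ Pool.Agent.M3 Pool.Agent.GM Pool.Agent.GM.Harm Pool.Agent.GMH Pool.Agent.GMH.NZ
open Pool.Agent.GMH.V3

noncomputable section

section few

variable {X β γ φ : Type} [Fintype X] [Fintype β] [Fintype φ] [Nonempty X] [Nonempty β]
variable {D : HD (Fin 3) X β γ φ} {al : ℝ} (h : D.Thick al) {v : ℕ → Finset (Fin 3) → X → (Fin 3 → β) → Pt (Fin 3) X β φ}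
variable {p : AP} {Gd : ℕ → Pt (Fin 3) X β φ → Prop} {st sp : ℕ → Pt (Fin 3) X β φ → Option (Fin 3)}
variable {dg : ℕ → X → ℝ} {prr : ℕ → Fin 3 → φ → φ} {T : ℕ} {Lam : ℝ}

/-- one step -/
theorem fo_cs {B : ℝ} (hB : Real.exp 2 ≤ B) {s : Fin 6} {t : ℕ} {X1 dl : ℝ} {aw w0 : Pt (Fin 3) X β φ → ℝ}
    (hw : WtS h v X1 dl s t w0) (h0 : ∀ u, 0 ≤ aw u) (h1 : ∀ u, aw u ≤ w0 u) (i : Fin 3) :
    |fo h v B s t i aw| ≤ 2 * B * Real.sqrt ((D.P h t).E aw * gd h v s t i w0) :=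
  FO1_cs (D.P h t) (FQ v t i) (ZQ_Zb (qs s t) i) (ZbQ D v (qe s t) i) hB hw.fac h0 h1

/-- **FEW POINTS OVER THE RUN**, one top, one step `s` of every time -/
theorem fo_few (H : D.Hyp dg prr al T Lam) {n N1 : ℝ} (R : Run h (pr3 (Fin 3) n N1) (SS1 (Fin 3)) (AdmDep D) v)
    (hn : 1 ≤ n) (hN1 : 1 ≤ N1) {X1 dl a : ℝ} (hdl : 0 < dl) (hdl1 : dl ≤ 1) (hda : Real.exp (-a) ≤ dl) {B : ℝ}
    (hB : Real.exp 2 ≤ B) (s : Fin 6) {aw w0 : ℕ → Pt (Fin 3) X β φ → ℝ} (hw : ∀ t < T, WtS h v X1 dl s t (w0 t))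
    (h0 : ∀ t < T, ∀ u, 0 ≤ aw t u) (h1 : ∀ t < T, ∀ u, aw t u ≤ w0 t u) (i : Fin 3) {M : ℝ}
    (hM : ∑ t ∈ range T, (D.P h t).E (aw t) ≤ M) :
    ∑ t ∈ range T, |fo h v B s t i (aw t)| ≤ 2 * B * Real.sqrt (M * (d1T N1 al X1 dl a * (2 * Lam))) := by
  have hB0 : 0 ≤ B := (Real.exp_pos 2).le.trans hB
  have hd0 : 0 ≤ d1T N1 al X1 dl a := by
    unfold d1T
    have := h.pos
    positivity
  have hG : ∀ t < T, gd h v s t i (w0 t) ≤ d1T N1 al X1 dl a * gS h v s t i := by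
    intro t ht
    refine gd_le h H R (fun J _ => zero_le_one.trans (pr3_one hn hN1 J)) ?_ ?_ ?_ ?_ (zero_lt_one.trans_le hN1) ?_ ?_ ?_ ht s
      hdl hdl1 hda (hw t ht) i
    · exact mem_SS1.2 (by decide)
    · intro i; exact mem_SS1.2 (by revert i; decide)
    · unfold pr3; simp
    · intro i; unfold pr3; simp
    · intro l; exact mem_SS1.2 (Finset.erase_ne_self.2 (mem_univ l))
    · exact fun hh => mem_SS1.1 hh rfl
    · intro l; exact zero_lt_one.trans_le (pr3_one hn hN1 _)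
  have h2 : ∑ t ∈ range T, |fo h v B s t i (aw t)| ≤
      ∑ t ∈ range T, 2 * B * Real.sqrt ((D.P h t).E (aw t) * gd h v s t i (w0 t)) :=
    Finset.sum_le_sum fun t ht => fo_cs h hB (hw t (Finset.mem_range.1 ht)) (h0 t (Finset.mem_range.1 ht))
      (h1 t (Finset.mem_range.1 ht)) i
  refine h2.trans ?_
  rw [← Finset.mul_sum]
  refine mul_le_mul_of_nonneg_left (sum_sqrt_le (range T)
    (fun t ht => (D.P h t).E_nonneg fun u _ => h0 t (Finset.mem_range.1 ht) u)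
    (fun t ht => gd_nn h (hw t (Finset.mem_range.1 ht)).nn) hM ?_) (by positivity)
  have g1 : ∑ t ∈ range T, gS h v s t i ≤ 2 * Lam := by
    refine le_trans (Finset.sum_le_sum fun t _ => ?_) (gn_sum h H R hn hN1 i)
    exact Finset.single_le_sum (f := fun s => gS h v s t i) (fun s _ => gS_nn h s t i) (mem_univ s)
  refine (Finset.sum_le_sum fun t ht => hG t (Finset.mem_range.1 ht)).trans ?_
  rw [← Finset.mul_sum]
  exact mul_le_mul_of_nonneg_left g1 hd0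

/-- the points of the families `aV` -/
theorem fo_aV (H : D.Hyp dg prr al T Lam) {n N1 : ℝ} (R : Run h (pr3 (Fin 3) n N1) (SS1 (Fin 3)) (AdmDep D) v)
    (hn : 1 ≤ n) (hN1 : 1 ≤ N1) {a : ℝ} (hdl : 0 < p.dl) (hdl1 : p.dl ≤ 1) (hda : Real.exp (-a) ≤ p.dl) {B : ℝ}
    (hB : Real.exp 2 ≤ B) (fG : ∀ t < T, Fac (ZT D v (t + 1) t) (Gd t)) (k : Fin 3) (b : Bool) {M : ℝ}
    (hM : ∑ t ∈ range T, (D.P h t).Pr (aV h v p Gd st sp k b t) ≤ M) (i : Fin 3) :
    ∑ t ∈ range T, |fo h v B (s2 b) t i (fun u => ind (aV h v p Gd st sp k b t u))| ≤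
      2 * B * Real.sqrt (M * (d1T N1 al p.X1 p.dl a * (2 * Lam))) :=
  fo_few h H R hn hN1 hdl hdl1 hda hB (s2 b) (aw := fun t u => ind (aV h v p Gd st sp k b t u))
    (w0 := fun t => wT h v p Gd (s2 b) t) (fun t ht => wT_WtS h (fG t ht) (s2 b)) (fun t _ u => ind_nonneg _)
    (fun t _ u => aV_le_wT h k b t u) i hM

/-- **ALL TOPS, NOTHING FROM `OneOK` AND `OneP`** : `M k b` = mass of the points of the family -/
theorem fo_all1 (H : D.Hyp dg prr al T Lam) {n N1 : ℝ} (R : Run h (pr3 (Fin 3) n N1) (SS1 (Fin 3)) (AdmDep D) v)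
    (hn : 1 ≤ n) (hN1 : 1 ≤ N1) {a : ℝ} (hdl : 0 < p.dl) (hdl1 : p.dl ≤ 1) (hda : Real.exp (-a) ≤ p.dl) {B : ℝ}
    (hB : 2 * Real.exp 2 ≤ B) (fG : ∀ t < T, Fac (ZT D v (t + 1) t) (Gd t)) {M : Fin 3 → Bool → ℝ}
    (hM : ∀ k b, ∑ t ∈ range T, (D.P h t).Pr (aV h v p Gd st sp k b t) ≤ M k b) :
    ∑ t ∈ range T, ∑ s, ∑ i, fo h v B s t i (fun u => ind (aN h v p Gd st sp s t u)) +
      ∑ k, ∑ t ∈ range T, ∑ b : Bool, ∑ i ∈ univ.erase k,
        fo h v B (s2 b) t i (fun u => ind (aV h v p Gd st sp k b t u)) ≤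
      3 * (d1T N1 al p.X1 p.dl a * (2 * Lam) +
        B * Real.sqrt (8 * (d1T N1 al p.X1 p.dl a * (2 * Lam) * (9 * (n * Lam))))) +
      ∑ k, ∑ b : Bool, 2 * B * Real.sqrt (M k b * (d1T N1 al p.X1 p.dl a * (2 * Lam))) := by
  have hB' : Real.exp 2 ≤ B := by linarith [Real.exp_pos 2]
  have h1 := fo_all h H R hn hN1 hdl hdl1 hda hB (v := v) (st := st) (sp := sp) fG
  have h2 : ∀ k, -∑ b : Bool, 2 * B * Real.sqrt (M k b * (d1T N1 al p.X1 p.dl a * (2 * Lam))) ≤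
      ∑ t ∈ range T, ∑ b : Bool, fo h v B (s2 b) t k (fun u => ind (aV h v p Gd st sp k b t u)) := by
    intro k
    rw [Finset.sum_comm, ← Finset.sum_neg_distrib]
    refine Finset.sum_le_sum fun b _ => ?_
    have h3 := fo_aV h H R hn hN1 hdl hdl1 hda hB' (v := v) (st := st) (sp := sp) fG k b (hM k b) k
    have h4 : -∑ t ∈ range T, |fo h v B (s2 b) t k (fun u => ind (aV h v p Gd st sp k b t u))| ≤
        ∑ t ∈ range T, fo h v B (s2 b) t k (fun u => ind (aV h v p Gd st sp k b t u)) := by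
      rw [← Finset.sum_neg_distrib]
      exact Finset.sum_le_sum fun t _ => neg_abs_le _
    linarith
  have h5 := Finset.sum_le_sum fun k (_ : k ∈ (univ : Finset (Fin 3))) => h2 k
  rw [Finset.sum_neg_distrib] at h5
  linarith

end few

end

end Pool.Agent.GMH.TP
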