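import Pool.Agent.GMH.FoFam

/-!
# GMH/FoSt: THE FIRST ORDER TERM OF THE TOP WITHOUT `k` AT THE STATUS `some k` (helper81, step (A) of helper2)

Status seen before the public code (`ZQ (5t+1)`): the light branch (`aV k false`) is compensated by the heavy branch.
* `aV_eq`, `aT2_eq` : the two weights from one weight seen before the step;
* `fo_st` : `|sum_t (fo 1 t k (aV k false) + fo 2 t k (aT 2 and status k))|` is at most the usual error;
* `fo_stN` : the form `- sum_t fo 1 t k (aV k false) ≤ error + sum_t fo 2 t k (..)`;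
* `fo_heavy` : (B) at a heavy public value `fo 2 t k aw ≤ 2 B E (aw * P(LV | ZbQ (5t+1) k))`, `LV` = new public value of
  probability at most `1/2` (ties are heavy and light).
-/

set_option autoImplicit false
set_option linter.unusedSectionVars false
set_option linter.unusedVariables false

namespace Pool.Agent.GMH.TP

open Finset Pool.Agent.PWZ Pool.Agent.M3 Pool.Agent.GM Pool.Agent.GM.Harm Pool.Agent.GMH Pool.Agent.GMH.NZ
open Pool.Agent.GMH.V3

noncomputable section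

section st

variable {X β γ φ : Type} [Fintype X] [Fintype β] [Fintype φ] [Nonempty X] [Nonempty β]
variable {D : HD (Fin 3) X β γ φ} {al : ℝ} (h : D.Thick al) {v : ℕ → Finset (Fin 3) → X → (Fin 3 → β) → Pt (Fin 3) X β φ}
variable {p : AP} {Gd : ℕ → Pt (Fin 3) X β φ → Prop} {st sp : ℕ → Pt (Fin 3) X β φ → Option (Fin 3)}
variable {dg : ℕ → X → ℝ} {prr : ℕ → Fin 3 → φ → φ} {T : ℕ} {Lam : ℝ}

/-- status `some k` at the light public value -/
theorem aV_eq (k : Fin 3) (t : ℕ) (u : Pt (Fin 3) X β φ) :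
    ind (aV h v p Gd st sp k false t u) = wT h v p Gd 1 t u * ind (st t u = some k) * hvI h v 1 t u := by
  have e : wT h v p Gd 1 t u * ind (st t u = some k) * hvI h v 1 t u =
      wT h v p Gd 1 t u * hvI h v 1 t u * ind (st t u = some k) := by ring
  rw [e, wT_eq h (by decide) (by decide), ← ind_and]
  rfl

/-- **BOTH BRANCHES AT THE STATUS `some k`** -/
theorem fo_st (H : D.Hyp dg prr al T Lam) {n N1 : ℝ} (R : Run h (pr3 (Fin 3) n N1) (SS1 (Fin 3)) (AdmDep D) v)
    (hn : 1 ≤ n) (hN1 : 1 ≤ N1) {a : ℝ} (hdl : 0 < p.dl) (hdl1 : p.dl ≤ 1) (hda : Real.exp (-a) ≤ p.dl) {B : ℝ}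
    (hB : 2 * Real.exp 2 ≤ B) (fG : ∀ t < T, Fac (ZT D v (t + 1) t) (Gd t))
    (fst : ∀ t < T, Fac (ZQ D v (5 * t + 1)) (st t)) (k i : Fin 3) :
    ∑ t ∈ range T, |fo h v B 1 t i (fun u => ind (aV h v p Gd st sp k false t u)) +
      fo h v B 2 t i (fun u => ind (aT h v p Gd 2 t u) * ind (st t u = some k))| ≤
      d1T N1 al p.X1 p.dl a * (2 * Lam) + B * Real.sqrt (8 * (d1T N1 al p.X1 p.dl a * (2 * Lam) * (9 * (n * Lam)))) := by
  set w0 : Fin 6 → ℕ → Pt (Fin 3) X β φ → ℝ := fun s t u =>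
    if s = 1 ∨ s = 2 then wT h v p Gd 1 t u * ind (st t u = some k) else 0 with hw0
  have z0 : ∀ s : Fin 6, ¬ (s = 1 ∨ s = 2) → ∀ t, w0 s t = fun _ => 0 := fun s hs t => funext fun u => if_neg hs
  have z1 : ∀ s : Fin 6, (s = 1 ∨ s = 2) → ∀ t, w0 s t = fun u => wT h v p Gd 1 t u * ind (st t u = some k) :=
    fun s hs t => funext fun u => if_pos hs
  have hW : ∀ t < T, ∀ s, WtS h v p.X1 p.dl s t (w0 s t) := by
    intro t ht s
    by_cases hs : s = 1 ∨ s = 2
    · rw [z1 s hs t]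
      have k1 := wT_WtS (p := p) h (fG t ht) s
      have hq : wT h v p Gd s t = wT h v p Gd 1 t := by rcases hs with rfl | rfl <;> rfl
      rw [hq] at k1
      have hqs : qs s t = 5 * t + 1 := by rcases hs with rfl | rfl <;> rfl
      refine ⟨fun x y hab => ?_, fun u => mul_nonneg (k1.nn u) (ind_nonneg _),
        fun u => mul_le_one₀ (k1.le u) (ind_nonneg _) (ind_le_one _),
        fun u hp hu => k1.sp u hp (left_ne_zero_of_mul hu), fun h0 u hp hu => k1.dg h0 u hp (left_ne_zero_of_mul hu)⟩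
      have e1 : wT h v p Gd 1 t x = wT h v p Gd 1 t y := k1.fac x y hab
      have e2 : st t x = st t y := fst t ht x y (by rw [hqs] at hab; exact hab)
      show wT h v p Gd 1 t x * ind (st t x = some k) = wT h v p Gd 1 t y * ind (st t y = some k)
      rw [e1, e2]
    · rw [z0 s hs t]
      exact ⟨fun _ _ _ => rfl, fun _ => le_rfl, fun _ => zero_le_one, fun u _ hu => absurd rfl hu,
        fun _ u _ hu => absurd rfl hu⟩
  have kk := fo_sum0 h H R hn hN1 hdl hdl1 hda hB (w0 := w0) hW (fun t _ => by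
    rw [z1 1 (Or.inl rfl), z1 2 (Or.inr rfl)]) i
  refine (Finset.sum_le_sum fun t ht => le_of_eq ?_).trans kk
  have e0 : ∀ s : Fin 6, ¬ (s = 1 ∨ s = 2) → fo h v B s t i (fun u => w0 s t u * hvI h v s t u) = 0 := by
    intro s hs
    have : (fun u => w0 s t u * hvI h v s t u) = fun _ => 0 := funext fun u => by rw [z0 s hs t, zero_mul]
    rw [this]
    exact FO1_zero _ _ _ _ _ _
  have e1 : (fun u => w0 1 t u * hvI h v 1 t u) = fun u => ind (aV h v p Gd st sp k false t u) := funext fun u => by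
    rw [z1 1 (Or.inl rfl), aV_eq h k t u]
  have e2 : (fun u => w0 2 t u * hvI h v 2 t u) = fun u => ind (aT h v p Gd 2 t u) * ind (st t u = some k) :=
    funext fun u => by
      rw [z1 2 (Or.inr rfl), ← wT_eq h (show (2 : Fin 6) ≠ 3 by decide) (show (2 : Fin 6) ≠ 4 by decide) t u]
      show wT h v p Gd 1 t u * ind (st t u = some k) * hvI h v 2 t u =
        wT h v p Gd 1 t u * hvI h v 2 t u * ind (st t u = some k)
      ring
  rw [six_sum, e0 0 (by decide), e0 3 (by decide), e0 4 (by decide), e0 5 (by decide), e1, e2]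
  congr 1
  ring

/-- the form which is used -/
theorem fo_stN (H : D.Hyp dg prr al T Lam) {n N1 : ℝ} (R : Run h (pr3 (Fin 3) n N1) (SS1 (Fin 3)) (AdmDep D) v)
    (hn : 1 ≤ n) (hN1 : 1 ≤ N1) {a : ℝ} (hdl : 0 < p.dl) (hdl1 : p.dl ≤ 1) (hda : Real.exp (-a) ≤ p.dl) {B : ℝ}
    (hB : 2 * Real.exp 2 ≤ B) (fG : ∀ t < T, Fac (ZT D v (t + 1) t) (Gd t))
    (fst : ∀ t < T, Fac (ZQ D v (5 * t + 1)) (st t)) (k i : Fin 3) :
    -∑ t ∈ range T, fo h v B 1 t i (fun u => ind (aV h v p Gd st sp k false t u)) ≤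
      d1T N1 al p.X1 p.dl a * (2 * Lam) + B * Real.sqrt (8 * (d1T N1 al p.X1 p.dl a * (2 * Lam) * (9 * (n * Lam)))) +
        ∑ t ∈ range T, fo h v B 2 t i (fun u => ind (aT h v p Gd 2 t u) * ind (st t u = some k)) := by
  have h1 := fo_st h H R hn hN1 hdl hdl1 hda hB (p := p) (sp := sp) fG fst k i
  have h2 := Finset.sum_le_sum fun t (_ : t ∈ range T) => neg_abs_le (fo h v B 1 t i (fun u =>
    ind (aV h v p Gd st sp k false t u)) + fo h v B 2 t i (fun u => ind (aT h v p Gd 2 t u) * ind (st t u = some k)))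
  rw [Finset.sum_neg_distrib, Finset.sum_add_distrib] at h2
  linarith

/-! ### the heavy public value -/

variable (v) in
/-- the new public value has probability at most `1/2` given the public information (ties included) -/
def LV (t : ℕ) (w : Pt (Fin 3) X β φ) : Prop :=
  2 * (D.P h t).m (NPq D v (5 * t + 2)) w ≤ (D.P h t).m (NPq D v (5 * t + 1)) w

theorem LV_of_not (t : ℕ) (w : Pt (Fin 3) X β φ) (hw : ¬ HV h v t w) : LV h v t w := by
  unfold HV at hw
  exact (not_le.1 hw).le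

/-- what the top sees after the public code -/
theorem Zb_pub (t : ℕ) (k : Fin 3) {a b : Pt (Fin 3) X β φ} (h1 : ZbQ D v (5 * t + 1) k a = ZbQ D v (5 * t + 1) k b)
    (h2 : NPq D v (5 * t + 2) a = NPq D v (5 * t + 2) b) : ZbQ D v (5 * t + 2) k a = ZbQ D v (5 * t + 2) k b := by
  unfold ZbQ at h1 ⊢
  have e1 : lo (SL (φ := φ) v (5 * t + 1)) (univ.erase k) a = lo (SL v (5 * t + 1)) (univ.erase k) b := (Prod.mk.inj h1).1
  have e2 := (Prod.mk.inj h1).2
  rw [nn_j t le_rfl (by norm_num)] at e2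
  rw [nn_j t (by norm_num) (by norm_num)]
  refine Prod.ext (lo_eq.2 fun I hI => ?_) e2
  have e3 := lo_eq.1 e1 I hI
  rcases (Zb_idx k I).1 hI with rfl | ⟨j, hj, rfl⟩
  · unfold SL
    rw [LL_eq]
    exact ⟨(NP_eq.1 h2).1, fun l hl => absurd hl (no_top l ∅ (by simp))⟩
  · unfold SL at e3 ⊢
    rw [nc_1 t (pth_sing j)] at e3
    rw [nc_add t 2 (pth_sing j) (by norm_num)]
    have e4 : ncj t 2 {j} = t + 1 := by
      unfold ncj
      rw [rk_i j]
      simp
    rw [e4]
    exact e3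

end st

section gen

variable {B : ℝ}
variable {Om : Type*} [Fintype Om] (P : FP Om) {α β γ φ : Type*} (Zb : Om → α) (Z : Om → β) (F : Om → φ) (Y : Om → γ)

theorem phi1_le (hB : 0 ≤ B) {w : Om} (hw : P.p w ≠ 0) (y : γ) : phi1 P Zb Z F Y B w y ≤ B := by
  have e : phi1 P Zb Z F Y B w y = ∑ x ∈ vals F, P.pv Z F w x * hwk B (rr P Zb F Y w y x) -
      ∑ x ∈ vals F, P.pv Zb F w x * hwk B (rr P Zb F Y w y x) := by
    have h1 := P.pv_sum Z F hw
    have h2 := P.pv_sum Zb F hw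
    have h3 : phi1 P Zb Z F Y B w y = ∑ x ∈ vals F, P.pv Z F w x * hwk B (rr P Zb F Y w y x) -
      ∑ x ∈ vals F, P.pv Zb F w x * hwk B (rr P Zb F Y w y x) - (∑ x ∈ vals F, P.pv Z F w x - ∑ x ∈ vals F, P.pv Zb F w x) := by
      unfold phi1
      rw [← Finset.sum_sub_distrib, ← Finset.sum_sub_distrib, ← Finset.sum_sub_distrib]
      exact Finset.sum_congr rfl fun x _ => by ring
    rw [h3, h1, h2]
    ring
  rw [e]
  have h1 : ∑ x ∈ vals F, P.pv Z F w x * hwk B (rr P Zb F Y w y x) ≤ ∑ x ∈ vals F, P.pv Z F w x * B :=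
    Finset.sum_le_sum fun x _ => mul_le_mul_of_nonneg_left (hwk_le hB) (P.pv_nonneg _ _ _ _)
  rw [← Finset.sum_mul, P.pv_sum Z F hw, one_mul] at h1
  have h2 : 0 ≤ ∑ x ∈ vals F, P.pv Zb F w x * hwk B (rr P Zb F Y w y x) :=
    Finset.sum_nonneg fun x _ => mul_nonneg (P.pv_nonneg _ _ _ _) (hwk_nonneg (rr_nn P Zb F Y w y x))
  linarith

variable {Zb Z} in
/-- very likely additions -/
theorem phi1_heavy (hZ : Fac Z Zb) (hB : 2 ≤ B) {w : Om} (hw : P.p w ≠ 0) {y : γ} (hy : 1 / 2 ≤ P.pv Zb Y w y) :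
    phi1 P Zb Z F Y B w y ≤ 2 * (1 - P.pv Zb Y w y) := by
  set c := P.pv Zb Y w y with hc
  have hc0 : 0 < c := by linarith
  have hr : ∀ x, rr P Zb F Y w y x ≤ 1 / c := by
    intro x
    unfold rr
    rw [← hc]
    by_cases hx : P.pv Zb F w x = 0
    · rw [hx, mul_zero, div_zero]
      positivity
    · have hx0 : 0 < P.pv Zb F w x := lt_of_le_of_ne (P.pv_nonneg _ _ _ _) (Ne.symm hx)
      rw [div_le_div_iff₀ (mul_pos hc0 hx0) hc0]
      have := qy_le_x P Zb F Y w y x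
      nlinarith
  have hr2 : ∀ x, rr P Zb F Y w y x ≤ B := fun x => (hr x).trans (by
    rw [div_le_iff₀ hc0]
    nlinarith)
  have e1 : ∀ x, hwk B (rr P Zb F Y w y x) = rr P Zb F Y w y x := fun x => by
    unfold hwk
    rw [ind_of (not_lt.2 (hr2 x))]
    ring
  have e2 : phi1 P Zb Z F Y B w y = ∑ x ∈ vals F, P.pv Z F w x * rr P Zb F Y w y x - 1 := by
    have h1 := P.pv_sum Z F hw
    have h2 := P.pv_sum Zb F hw
    have h4 : ∑ x ∈ vals F, P.pv Zb F w x * rr P Zb F Y w y x = 1 := by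
      have h5 : ∑ x ∈ vals F, c * (P.pv Zb F w x * rr P Zb F Y w y x) = c := by
        have h6 : ∑ x ∈ vals F, P.pv Zb (fun u => (Y u, F u)) w (y, x) = P.pv Zb Y w y :=
          P.pv_marg Zb (A := Y) (B := F) (C := fun u => (Y u, F u)) y (fun x => (y, x)) (fun u b => by
            simp only [Prod.mk.injEq]) w
        rw [hc, ← h6]
        refine Finset.sum_congr rfl fun x _ => ?_
        rw [h6]
        exact yq_rr P Zb F Y w y x
      rw [← Finset.mul_sum] at h5
      exact mul_left_cancel₀ hc0.ne' (h5.trans (mul_one c).symm)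
    have h3 : phi1 P Zb Z F Y B w y = ∑ x ∈ vals F, P.pv Z F w x * rr P Zb F Y w y x -
      ∑ x ∈ vals F, P.pv Zb F w x * rr P Zb F Y w y x - (∑ x ∈ vals F, P.pv Z F w x - ∑ x ∈ vals F, P.pv Zb F w x) := by
      unfold phi1
      rw [← Finset.sum_sub_distrib, ← Finset.sum_sub_distrib, ← Finset.sum_sub_distrib]
      exact Finset.sum_congr rfl fun x _ => by rw [e1 x]; ring
    rw [h3, h1, h2, h4]
    ring
  rw [e2]
  have h7 : ∑ x ∈ vals F, P.pv Z F w x * rr P Zb F Y w y x ≤ ∑ x ∈ vals F, P.pv Z F w x * (1 / c) :=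
    Finset.sum_le_sum fun x _ => mul_le_mul_of_nonneg_left (hr x) (P.pv_nonneg _ _ _ _)
  rw [← Finset.sum_mul, P.pv_sum Z F hw, one_mul] at h7
  have hc1 : c ≤ 1 := by
    have h9 := P.ce_mono (X := Zb) (f := fun u => ind (Y u = y)) (g := fun _ => (1 : ℝ)) (fun u _ => ind_le_one _) w
    rw [P.ce_const _ 1 hw] at h9
    exact h9
  have h8 : 1 / c ≤ 1 + 2 * (1 - c) := by
    rw [div_le_iff₀ hc0]
    nlinarith
  linarith

end gen

section st2

variable {B : ℝ}
variable {X β γ φ : Type} [Fintype X] [Fintype β] [Fintype φ] [Nonempty X] [Nonempty β]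
variable {D : HD (Fin 3) X β γ φ} {al : ℝ} (h : D.Thick al) {v : ℕ → Finset (Fin 3) → X → (Fin 3 → β) → Pt (Fin 3) X β φ}

/-- **(B)** the first order term at a heavy public value -/
theorem fo_heavy (hB : 2 ≤ B) (t : ℕ) (k : Fin 3) {aw : Pt (Fin 3) X β φ → ℝ} (h0 : ∀ u, 0 ≤ aw u)
    (hH : ∀ u, (D.P h t).p u ≠ 0 → aw u ≠ 0 → HV h v t u) :
    fo h v B 2 t k aw ≤ 2 * B * (D.P h t).E (fun w => aw w *
      (D.P h t).ce (ZbQ D v (5 * t + 1) k) (fun u => ind (LV h v t u)) w) := by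
  classical
  set P := D.P h t with hP
  show FO1 P (ZbQ D v (5 * t + 1) k) (ZQ D v (5 * t + 1)) (FQ v t k) (ZbQ D v (5 * t + 2) k) B aw ≤ _
  unfold FO1
  rw [← P.E_smul]
  refine P.E_mono fun w hw => ?_
  by_cases hz : aw w = 0
  · rw [hz, zero_mul, zero_mul, mul_zero]
  have hHV := hH w hw hz
  set eps := P.ce (ZbQ D v (5 * t + 1) k) (fun u => ind (LV h v t u)) w with heps
  have eps0 : 0 ≤ eps := P.ce_nonneg (fun u _ => ind_nonneg _) w
  -- the other values are light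
  have h1 : 1 - P.pv (ZbQ D v (5 * t + 1) k) (ZbQ D v (5 * t + 2) k) w (ZbQ D v (5 * t + 2) k w) ≤ eps := by
    have e1 : 1 - P.pv (ZbQ D v (5 * t + 1) k) (ZbQ D v (5 * t + 2) k) w (ZbQ D v (5 * t + 2) k w) =
        P.ce (ZbQ D v (5 * t + 1) k) (fun u => ind (¬ ZbQ D v (5 * t + 2) k u = ZbQ D v (5 * t + 2) k w)) w := by
      have e2 := P.ce_add (ZbQ D v (5 * t + 1) k) (fun u => ind (ZbQ D v (5 * t + 2) k u = ZbQ D v (5 * t + 2) k w))
        (fun u => ind (¬ ZbQ D v (5 * t + 2) k u = ZbQ D v (5 * t + 2) k w)) w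
      have e3 : P.ce (ZbQ D v (5 * t + 1) k) (fun u => ind (ZbQ D v (5 * t + 2) k u = ZbQ D v (5 * t + 2) k w) +
          ind (¬ ZbQ D v (5 * t + 2) k u = ZbQ D v (5 * t + 2) k w)) w = 1 := by
        rw [P.ce_congr (g := fun _ => (1 : ℝ)) (fun u _ => ?_) w]
        · exact P.ce_const _ 1 hw
        · by_cases hu : ZbQ D v (5 * t + 2) k u = ZbQ D v (5 * t + 2) k w
          · rw [ind_of hu, ind_not (not_not.2 hu), add_zero]
          · rw [ind_not hu, ind_of hu, zero_add]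
      rw [e3] at e2
      unfold FP.pv
      linarith
    rw [e1, heps]
    unfold FP.ce
    refine div_le_div_of_nonneg_right (P.E_mono fun u hu => ?_) (P.m_nonneg _ _)
    by_cases hc : ZbQ D v (5 * t + 1) k u = ZbQ D v (5 * t + 1) k w
    · refine mul_le_mul_of_nonneg_left (ind_mono fun hne => ?_) (ind_nonneg _)
      -- a different public value
      have hne2 : NPq D v (5 * t + 2) u ≠ NPq D v (5 * t + 2) w := fun hh => hne (Zb_pub t k hc hh)
      have hpub : NPq D v (5 * t + 1) u = NPq D v (5 * t + 1) w := Zb_NPq (5 * t + 1) k u w hc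
      unfold HV at hHV
      unfold LV
      have m1 : P.m (NPq D v (5 * t + 1)) u = P.m (NPq D v (5 * t + 1)) w := by unfold FP.m; rw [hpub]
      have m2 : P.m (NPq D v (5 * t + 2)) u + P.m (NPq D v (5 * t + 2)) w ≤ P.m (NPq D v (5 * t + 1)) w := by
        unfold FP.m
        rw [← P.E_add]
        refine P.E_mono fun a _ => ?_
        by_cases ha1 : NPq D v (5 * t + 2) a = NPq D v (5 * t + 2) u
        · have ha2 : NPq D v (5 * t + 2) a ≠ NPq D v (5 * t + 2) w := fun hh => hne2 (ha1.symm.trans hh)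
          have ha3 : NPq D v (5 * t + 1) a = NPq D v (5 * t + 1) w :=
            (NPq_mono (show 5 * t + 1 ≤ 5 * t + 2 by omega) a u ha1).trans hpub
          rw [ind_of ha1, ind_not ha2, ind_of ha3, add_zero]
        · rw [ind_not ha1, zero_add]
          exact ind_mono fun hh => NPq_mono (show 5 * t + 1 ≤ 5 * t + 2 by omega) a w hh
      rw [← hP, m1]
      rw [← hP] at hHV
      linarith
    · rw [ind_not hc, zero_mul, zero_mul]
  have h2 : phi1 P (ZbQ D v (5 * t + 1) k) (ZQ D v (5 * t + 1)) (FQ v t k) (ZbQ D v (5 * t + 2) k) B w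
      (ZbQ D v (5 * t + 2) k w) ≤ 2 * B * eps := by
    rcases le_or_gt (1 / 2) (P.pv (ZbQ D v (5 * t + 1) k) (ZbQ D v (5 * t + 2) k) w (ZbQ D v (5 * t + 2) k w)) with hy | hy
    · refine (phi1_heavy P (FQ v t k) (ZbQ D v (5 * t + 2) k) (ZQ_Zb (5 * t + 1) k) hB hw hy).trans ?_
      nlinarith
    · refine (phi1_le P _ _ _ _ (by linarith) hw _).trans ?_
      nlinarith
  have h3 : ind (¬ B < tau P (ZbQ D v (5 * t + 1) k) (ZQ D v (5 * t + 1)) (ZbQ D v (5 * t + 2) k) w
      (ZbQ D v (5 * t + 2) k w)) * phi1 P (ZbQ D v (5 * t + 1) k) (ZQ D v (5 * t + 1)) (FQ v t k)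
        (ZbQ D v (5 * t + 2) k) B w (ZbQ D v (5 * t + 2) k w) ≤ 2 * B * eps := by
    refine (mul_le_mul_of_nonneg_left h2 (ind_nonneg _)).trans ?_
    exact mul_le_of_le_one_left (by positivity) (ind_le_one _)
  refine (mul_le_mul_of_nonneg_left h3 (h0 w)).trans (le_of_eq ?_)
  ring

end st2

end

end Pool.Agent.GMH.TP
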