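import Pool.Agent.GMH.TopFin

/-!
# GMH/TopGd: the good points of the digits (helper11)

`GdQ t w` : given what the top without `i` sees, the digit has mean at most `1/2` in absolute value, for the three `i`.
* `GdQ_fac` (seen by `ZT (t + 1) t`), `GdQ_of` (`GA → GdQ`);
* `GdQ_thick` : on the good points the digit has probability at least `1/4` given what a top sees; `GdQ_rr` : no top is strong
  (all ratios at most `4`).
-/

set_option autoImplicit false
set_option linter.unusedSectionVars false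

namespace Pool.Agent.GMH.TP

open Finset Pool.Agent.PWZ Pool.Agent.M3 Pool.Agent.GM Pool.Agent.GM.Harm Pool.Agent.GMH Pool.Agent.GMH.NZ
open Pool.Agent.GMH.V3

noncomputable section

variable {X β γ φ υ : Type} [Fintype X] [Fintype β] [Fintype φ] [Nonempty X] [Nonempty β]
variable {D : HD (Fin 3) X β γ φ} {al : ℝ} (h : D.Thick al) (v : ℕ → Finset (Fin 3) → X → (Fin 3 → β) → υ)
variable (dg : ℕ → X → ℝ)

/-- the good points of the digit of the time `t` -/
def GdQ (t : ℕ) (w : Pt (Fin 3) X β φ) : Prop := ∀ i : Fin 3, |ul (UU v) h dg (univ.erase i) t w| ≤ 1 / 2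

variable {v dg}

/-- the mean of the digit given what the top sees -/
theorem ul_Zb (t : ℕ) (i : Fin 3) (w : Pt (Fin 3) X β φ) : ul (UU v) h dg (univ.erase i) t w =
    (D.P h t).ce (ZbT D v (Equiv.refl (Fin 3)) (t + 1) t i) (fun u => dg t u.1) w := ul_ce h (ne_univ i) w

theorem GdQ_fac (t : ℕ) : Fac (ZT (φ := φ) D v (t + 1) t) (GdQ h v dg t) := by
  intro a b hab
  have h1 : ∀ i, ul (UU v) h dg (univ.erase i) t a = ul (UU v) h dg (univ.erase i) t b := fun i => by
    rw [ul_Zb, ul_Zb]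
    exact (D.P h t).ce_fac _ _ a b (ZT_Zb (e := Equiv.refl (Fin 3)) card3 (t + 1) t i a b hab)
  show GdQ h v dg t a = GdQ h v dg t b
  unfold GdQ
  simp only [h1]

theorem GdQ_of {p : AP} {t : ℕ} {w : Pt (Fin 3) X β φ} (hw : V3.GA h v p dg t w) : GdQ h v dg t w := fun i =>
  hw.2 _ (Finset.mem_filter.2 ⟨mem_univ _, by
    have key : ∀ i : Fin 3, (univ.erase i : Finset (Fin 3)).Nonempty := by decide
    exact ⟨key i, ne_univ i⟩⟩)

/-- both values of the digit are likely given what a top sees -/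
theorem GdQ_thick {t : ℕ} (hD : ∀ x, dg t x = 1 ∨ dg t x = -1) {w : Pt (Fin 3) X β φ} (hw : (D.P h t).p w ≠ 0)
    (hG : GdQ h v dg t w) (i : Fin 3) {s : ℝ} (hs : s = 1 ∨ s = -1) :
    1 / 4 ≤ (D.P h t).pv (ZbT D v (Equiv.refl (Fin 3)) (t + 1) t i) (fun u => dg t u.1) w s := by
  have h1 := pv_dig (D.P h t) (W := ZbT D v (Equiv.refl (Fin 3)) (t + 1) t i) (D := fun u : Pt (Fin 3) X β φ => dg t u.1)
    (fun w _ => hD w.1) hs hw
  have h2 := hG i
  rw [ul_Zb, abs_le] at h2
  rw [h1]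
  rcases hs with rfl | rfl <;> linarith [h2.1, h2.2]

omit [Nonempty X] [Nonempty β] in
/-- a ratio is at most the inverse of the probability of the addition -/
theorem rr_le_inv {Om : Type*} [Fintype Om] (P : FP Om) {α γ' φ' : Type*} (Zb : Om → α) (F : Om → φ') (Y : Om → γ')
    {w : Om} {y : γ'} {c : ℝ} (hc : 0 < c) (hy : c ≤ P.pv Zb Y w y) (x : φ') : rr P Zb F Y w y x ≤ 1 / c := by
  unfold rr
  have h1 : qy P Zb F Y w y x ≤ P.pv Zb F w x := by
    unfold qy FP.pv
    refine P.ce_mono (fun u _ => ?_) w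
    exact ind_mono fun hu => congrArg Prod.snd hu
  have h2 := P.pv_nonneg Zb F w x
  rcases h2.eq_or_lt with h3 | h3
  · rw [← h3, mul_zero, div_zero]
    positivity
  · rw [div_le_div_iff₀ (mul_pos (hc.trans_le hy) h3) hc]
    nlinarith

/-- on the good points no top is strong -/
theorem GdQ_rr {t : ℕ} (hD : ∀ x, dg t x = 1 ∨ dg t x = -1) {w : Pt (Fin 3) X β φ} (hw : (D.P h t).p w ≠ 0)
    (hG : GdQ h v dg t w) (i : Fin 3) (x : List υ × (Fin 3 → Option φ)) :
    rF (D.P h t) (ZbT D v (Equiv.refl (Fin 3)) (t + 1) t) (FT v (Equiv.refl (Fin 3)) (t + 1))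
      (fun _ u => dg t u.1) i w x ≤ 4 := by
  have h1 := GdQ_thick h hD hw hG i (hD w.1)
  have h2 := rr_le_inv (D.P h t) (ZbT D v (Equiv.refl (Fin 3)) (t + 1) t i) (FT v (Equiv.refl (Fin 3)) (t + 1) i)
    (fun u : Pt (Fin 3) X β φ => dg t u.1) (by norm_num) h1 x
  norm_num at h2
  exact h2

end

end Pool.Agent.GMH.TP
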