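import Pool.Agent.GMH.FoW
import Pool.Agent.GMH.TopRow
import Pool.Agent.GMH.TopActT
import Pool.Agent.GMH.TopGd

/-!
# GMH/FoSum: THE FIRST ORDER TERMS OF ONE TOP OVER THE RUN (helper81)

* `DtW_eq`, `DtW_half` : the weighted information of the missing letter about the digit and the new cell of its point;
* `fo`, `gd`, `dW` : first order term, weighted gain, weighted information in the step `(s, t)`; `WtS` : weights of a step;
* `gd_le` : weighted gain at most `d1T` times the gain;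
* `HV_Zb` : the heavy public value is seen by every top; `fo_time` : one time; `fo_sum` : the run, both branches together.
-/

set_option autoImplicit false
set_option linter.unusedSectionVars false
set_option linter.unusedVariables false

namespace Pool.Agent.GMH

open Finset Pool.Agent.PWZ Pool.Agent.M3

noncomputable section

section half

variable {Om : Type*} [Fintype Om] (P : FP Om) {α β γ δ φ : Type*} (Zb : Om → α) (Z : Om → β)

variable {Zb Z} in
theorem DtW_eq (hZ : Fac Z Zb) (Y : Om → γ) {al : Om → ℝ} (hal : Fac Z al) :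
    DtW P Zb Z Y al = P.E (fun w => al w * Real.log (tau P Zb Z Y w (Y w))) := by
  rw [E_real P Y (W := Z) (f := fun w y => al w * Real.log (tau P Zb Z Y w y)) (fun y a b hab => by
      show al a * Real.log (tau P Zb Z Y a y) = al b * Real.log (tau P Zb Z Y b y)
      rw [tauc P Y hZ hab y, show al a = al b from hal a b hab])]
  unfold DtW
  refine P.E_congr fun w hw => ?_
  have e2 : ∀ y ∈ vals Y, P.pv Zb Y w y * hphi (tau P Zb Z Y w y) =
      P.pv Z Y w y * Real.log (tau P Zb Z Y w y) - P.pv Z Y w y + P.pv Zb Y w y := by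
    intro y _
    have h := yz_eq P Y hZ w y
    unfold hphi
    rw [h]
    ring
  rw [Finset.sum_congr rfl e2, Finset.sum_add_distrib, Finset.sum_sub_distrib, P.pv_sum Z Y hw, P.pv_sum Zb Y hw,
    sub_add_cancel, Finset.mul_sum]
  exact Finset.sum_congr rfl fun y _ => by ring

variable {Zb Z} in
/-- the additions are the digit and one more bit -/
theorem DtW_half (hZ : Fac Z Zb) {Y : Om → γ} {Dg : Om → δ} (hD : Fac (fun u => (Y u, Zb u)) Dg)
    (hm : ∀ w, P.p w ≠ 0 → P.m (fun u => (Dg u, Zb u)) w ≤ 2 * P.m (fun u => (Y u, Zb u)) w) {al : Om → ℝ}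
    (hal : Fac Z al) (h0 : ∀ w, 0 ≤ al w) :
    DtW P Zb Z Y al ≤ DtW P Zb Z Dg al + Real.log 2 * P.E al := by
  rw [DtW_eq P hZ Y hal, DtW_eq P hZ Dg hal, ← P.E_smul, ← P.E_add]
  refine P.E_mono fun w hw => ?_
  have e : al w * Real.log (tau P Zb Z Dg w (Dg w)) + Real.log 2 * al w =
      al w * (Real.log (tau P Zb Z Dg w (Dg w)) + Real.log 2) := by ring
  rw [e]
  refine mul_le_mul_of_nonneg_left ?_ (h0 w)
  have m1 := P.m_pos Zb hw
  have m2 := P.m_pos (fun u => (Y u, Zb u)) hw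
  have m3 := P.m_pos (fun u => (Dg u, Zb u)) hw
  have m4 := P.m_pos Z hw
  have m5 := P.m_pos (fun u => (Y u, Z u)) hw
  have m6 := P.m_pos (fun u => (Dg u, Z u)) hw
  have t1 : tau P Zb Z Y w (Y w) = (P.m (fun u => (Y u, Z u)) w / P.m Z w) / (P.m (fun u => (Y u, Zb u)) w / P.m Zb w) := by
    unfold tau
    rw [P.pv_self, P.pv_self]
  have t2 : tau P Zb Z Dg w (Dg w) =
      (P.m (fun u => (Dg u, Z u)) w / P.m Z w) / (P.m (fun u => (Dg u, Zb u)) w / P.m Zb w) := by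
    unfold tau
    rw [P.pv_self, P.pv_self]
  have h5 : P.m (fun u => (Y u, Z u)) w ≤ P.m (fun u => (Dg u, Z u)) w := by
    unfold FP.m
    refine P.E_mono fun u _ => ind_mono fun hu => ?_
    simp only [Prod.mk.injEq] at hu ⊢
    exact ⟨hD u w (by simp only [Prod.mk.injEq]; exact ⟨hu.1, hZ u w hu.2⟩), hu.2⟩
  have h6 := hm w hw
  have t3 : tau P Zb Z Y w (Y w) ≤ tau P Zb Z Dg w (Dg w) * 2 := by
    rw [t1, t2]
    set A := P.m (fun u => (Y u, Z u)) w / P.m Z w with hA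
    set A' := P.m (fun u => (Dg u, Z u)) w / P.m Z w with hA'
    set c := P.m (fun u => (Y u, Zb u)) w / P.m Zb w with hc
    set c' := P.m (fun u => (Dg u, Zb u)) w / P.m Zb w with hc'
    have a1 : A ≤ A' := div_le_div_of_nonneg_right h5 m4.le
    have a0 : 0 ≤ A' := by positivity
    have c0 : 0 < c := by positivity
    have c1 : 0 < c' := by positivity
    have c2 : c' ≤ 2 * c := by
      rw [hc, hc', ← mul_div_assoc]
      exact div_le_div_of_nonneg_right h6 m1.le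
    have r1 : A / c ≤ A' / c := div_le_div_of_nonneg_right a1 c0.le
    have r2 : A' / c ≤ A' / c' * 2 := by
      rw [div_mul_eq_mul_div, div_le_div_iff₀ c0 c1]
      nlinarith
    exact r1.trans r2
  have t4 : 0 < tau P Zb Z Y w (Y w) := by rw [t1]; positivity
  have t5 : 0 < tau P Zb Z Dg w (Dg w) := by rw [t2]; positivity
  rw [← Real.log_mul t5.ne' two_ne_zero]
  exact Real.log_le_log t4 t3

end half

/-- sums of the bounds of the first order terms -/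
theorem sum_sq_le {κ : Type*} (S : Finset κ) {G g W : κ → ℝ} {d B : ℝ} (hB : 0 ≤ B) (hd : 0 ≤ d) (hg : ∀ j ∈ S, 0 ≤ g j)
    (hW : ∀ j ∈ S, 0 ≤ W j) (hG : ∀ j ∈ S, G j ≤ d * g j) :
    ∑ j ∈ S, (G j + B * Real.sqrt (8 * (G j * W j))) ≤
      d * ∑ j ∈ S, g j + B * Real.sqrt (8 * (d * (∑ j ∈ S, g j) * ∑ j ∈ S, W j)) := by
  classical
  have h1 : ∑ j ∈ S, G j ≤ d * ∑ j ∈ S, g j := by
    rw [Finset.mul_sum]
    exact Finset.sum_le_sum hG
  set g' : κ → ℝ := fun j => if j ∈ S then 8 * d * g j else 0 with hg'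
  set W' : κ → ℝ := fun j => if j ∈ S then W j else 0 with hW'
  have g0 : ∀ j, 0 ≤ g' j := fun j => by
    rw [hg']
    dsimp only
    split_ifs with hj
    · have := hg j hj
      positivity
    · exact le_rfl
  have w0 : ∀ j, 0 ≤ W' j := fun j => by
    rw [hW']
    dsimp only
    split_ifs with hj
    · exact hW j hj
    · exact le_rfl
  have h2 : ∑ j ∈ S, Real.sqrt (8 * (G j * W j)) ≤ ∑ j ∈ S, Real.sqrt (g' j) * Real.sqrt (W' j) := by
    refine Finset.sum_le_sum fun j hj => ?_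
    rw [← Real.sqrt_mul (g0 j)]
    refine Real.sqrt_le_sqrt ?_
    rw [hg', hW']
    dsimp only
    rw [if_pos hj, if_pos hj]
    have := mul_le_mul_of_nonneg_right (hG j hj) (hW j hj)
    linarith
  have h3 := Real.sum_sqrt_mul_sqrt_le S g0 w0
  have e1 : ∑ j ∈ S, g' j = 8 * d * ∑ j ∈ S, g j := by
    rw [Finset.mul_sum]
    exact Finset.sum_congr rfl fun j hj => by rw [hg']; dsimp only; rw [if_pos hj]
  have e2 : ∑ j ∈ S, W' j = ∑ j ∈ S, W j := Finset.sum_congr rfl fun j hj => by rw [hW']; dsimp only; rw [if_pos hj]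
  rw [e1, e2, ← Real.sqrt_mul (by have := Finset.sum_nonneg hg; positivity)] at h3
  rw [Finset.sum_add_distrib, ← Finset.mul_sum]
  have h4 := mul_le_mul_of_nonneg_left (h2.trans h3) hB
  have e3 : 8 * d * (∑ j ∈ S, g j) * ∑ j ∈ S, W j = 8 * (d * (∑ j ∈ S, g j) * ∑ j ∈ S, W j) := by ring
  rw [e3] at h4
  linarith

end

end Pool.Agent.GMH

namespace Pool.Agent.GMH.TP

open Finset Pool.Agent.PWZ Pool.Agent.M3 Pool.Agent.GM Pool.Agent.GM.Harm Pool.Agent.GMH Pool.Agent.GMH.NZ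
open Pool.Agent.GMH.V3

noncomputable section

section fo

variable {X β γ φ : Type} [Fintype X] [Fintype β] [Fintype φ] [Nonempty X] [Nonempty β]
variable {D : HD (Fin 3) X β γ φ} {al : ℝ} (h : D.Thick al)
  (v : ℕ → Finset (Fin 3) → X → (Fin 3 → β) → Pt (Fin 3) X β φ)

/-- first order term of the top `i` in the step `(s, t)` -/
def fo (B : ℝ) (s : Fin 6) (t : ℕ) (i : Fin 3) (aw : Pt (Fin 3) X β φ → ℝ) : ℝ :=
  FO1 (D.P h t) (ZbQ D v (qs s t) i) (ZQ D v (qs s t)) (FQ v t i) (ZbQ D v (qe s t) i) B aw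

/-- weighted gain of the top `i` in the step `(s, t)` -/
def gd (s : Fin 6) (t : ℕ) (i : Fin 3) (aw : Pt (Fin 3) X β φ → ℝ) : ℝ :=
  Gd (D.P h t) (ZbQ D v (qs s t) i) (ZQ D v (qs s t)) (FQ v t i) (ZbQ D v (qe s t) i) aw

/-- weighted information of the missing letter in the step `(s, t)` -/
def dW (s : Fin 6) (t : ℕ) (i : Fin 3) (aw : Pt (Fin 3) X β φ → ℝ) : ℝ :=
  DtW (D.P h t) (ZbQ D v (qs s t) i) (ZQ D v (qs s t)) (ZbQ D v (qe s t) i) aw

/-- weights of a step : seen before the step, zero off the hypotheses of the rows -/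
structure WtS (X1 dl : ℝ) (s : Fin 6) (t : ℕ) (aw : Pt (Fin 3) X β φ → ℝ) : Prop where
  fac : Fac (ZQ D v (qs s t)) aw
  nn : ∀ u, 0 ≤ aw u
  le : ∀ u, aw u ≤ 1
  sp : ∀ u, (D.P h t).p u ≠ 0 → aw u ≠ 0 → ∀ i k, i ≠ k → spQ h v (qs s t) i k u ≤ X1
  dg : s ≠ 0 → ∀ u, (D.P h t).p u ≠ 0 → aw u ≠ 0 →
    dl * (D.P h t).m (NP D v (t + 1) t) u ≤ (D.P h t).m (NP D v (t + 1) (t + 1)) u

variable {v}
variable {N : Finset (Fin 3) → ℝ} {S : Finset (Finset (Fin 3))}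
variable {dg : ℕ → X → ℝ} {prr : ℕ → Fin 3 → φ → φ} {T : ℕ} {Lam : ℝ}

theorem gd_nn {s : Fin 6} {t : ℕ} {i : Fin 3} {aw : Pt (Fin 3) X β φ → ℝ} (h0 : ∀ u, 0 ≤ aw u) : 0 ≤ gd h v s t i aw :=
  Gd_nn _ _ _ _ _ h0

theorem dW_nn {s : Fin 6} {t : ℕ} {i : Fin 3} {aw : Pt (Fin 3) X β φ → ℝ} (h0 : ∀ u, 0 ≤ aw u) : 0 ≤ dW h v s t i aw :=
  DtW_nn _ _ _ _ h0

theorem dW_le {s : Fin 6} {t : ℕ} {i : Fin 3} {aw : Pt (Fin 3) X β φ → ℝ} (h1 : ∀ u, aw u ≤ 1) :
    dW h v s t i aw ≤ dS h v s t i := DtW_le _ _ _ _ h1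

/-- **THE WEIGHTED GAIN** -/
theorem gd_le (H : D.Hyp dg prr al T Lam) (R : Run h N S (AdmDep D) v) (hN : ∀ J ∈ S, 0 ≤ N J) (h0 : ∅ ∈ S)
    (hS1 : ∀ i : Fin 3, {i} ∈ S) (hN0 : N ∅ = 1) {N1 : ℝ} (hN1 : ∀ i : Fin 3, N1 ≤ N {i}) (hN1p : 0 < N1)
    (hS : ∀ l, univ.erase l ∈ S) (hu : univ ∉ S) (hN2 : ∀ l, 0 < N (univ.erase l)) {t : ℕ} (ht : t < T) (s : Fin 6)
    {X1 dl a : ℝ} (hdl : 0 < dl) (hdl1 : dl ≤ 1) (hda : Real.exp (-a) ≤ dl) {aw : Pt (Fin 3) X β φ → ℝ}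
    (hw : WtS h v X1 dl s t aw) (i : Fin 3) : gd h v s t i aw ≤ d1T N1 al X1 dl a * gS h v s t i := by
  have key : ∀ j, j ≤ 4 → qs s t = 5 * t + j → (j = 1 → s ≠ 0) → ∀ w x,
      (D.P h t).ce (ZbQ D v (qs s t) i) (fun u => aw u * |(D.P h t).pv (ZQ D v (qs s t)) (FQ v t i) u x -
        (D.P h t).pv (ZbQ D v (qs s t) i) (FQ v t i) u x|) w ≤
      d1T N1 al X1 dl a * (D.P h t).pv (ZbQ D v (qs s t) i) (FQ v t i) w x := by
    intro j hj hq hs w x
    have h1 := hw.sp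
    rw [hq] at h1 ⊢
    exact row_al H R hN h0 hS1 hN0 hN1 hN1p hS hu hN2 ht hj hdl hdl1 hda hw.le
      (fun u hp hau => ⟨h1 u hp hau, fun hj1 => hw.dg (hs hj1) u hp hau⟩) i w x
  have row : ∀ w x, (D.P h t).ce (ZbQ D v (qs s t) i) (fun u => aw u * |(D.P h t).pv (ZQ D v (qs s t)) (FQ v t i) u x -
        (D.P h t).pv (ZbQ D v (qs s t) i) (FQ v t i) u x|) w ≤
      d1T N1 al X1 dl a * (D.P h t).pv (ZbQ D v (qs s t) i) (FQ v t i) w x := by
    fin_cases s
    · exact key 0 (by omega) rfl (fun hh => absurd hh (by decide))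
    · exact key 1 (by omega) rfl (fun _ => by decide)
    · exact key 1 (by omega) rfl (fun _ => by decide)
    · exact key 2 (by omega) rfl (fun hh => absurd hh (by decide))
    · exact key 3 (by omega) rfl (fun hh => absurd hh (by decide))
    · exact key 4 (by omega) rfl (fun hh => absurd hh (by decide))
  exact Gd_le_gn (D.P h t) _ _ _ _ (fun w _ x _ => row w x)

/-! ### the heavy public value -/

theorem Zb_NPq (q : ℕ) (i : Fin 3) : Fac (ZbQ (φ := φ) D v q i) (NPq D v q) := by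
  intro a b hab
  unfold ZbQ at hab
  have h1 : lo (SL (φ := φ) v q) (univ.erase i) a = lo (SL v q) (univ.erase i) b := (Prod.mk.inj hab).1
  have h2 := BB_eq.1 (Prod.mk.inj hab).2
  have h3 := lo_eq.1 h1 ∅ ((Zb_idx i ∅).2 (Or.inl rfl))
  unfold SL at h3
  unfold NPq NP nd
  exact Prod.ext (LL_eq.1 h3).1 (Prod.ext h2.2.1 (funext h2.2.2))

theorem HV_NP (t : ℕ) : Fac (NPq (φ := φ) D v (5 * t + 2)) (HV h v t) := by
  intro a b h2
  have h1 := NPq_mono (φ := φ) (D := D) (v := v) (show 5 * t + 1 ≤ 5 * t + 2 by omega) a b h2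
  show HV h v t a = HV h v t b
  unfold HV
  have e1 : (D.P h t).m (NPq D v (5 * t + 1)) a = (D.P h t).m (NPq D v (5 * t + 1)) b := by
    unfold FP.m
    rw [h1]
  have e2 : (D.P h t).m (NPq D v (5 * t + 2)) a = (D.P h t).m (NPq D v (5 * t + 2)) b := by
    unfold FP.m
    rw [h2]
  rw [e1, e2]

/-- every top sees the heavy public value after the step -/
theorem HV_Zb {q' : ℕ} (t : ℕ) (hq : 5 * t + 2 ≤ q') (i : Fin 3) : Fac (ZbQ (φ := φ) D v q' i) (HV h v t) := fun a b hab =>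
  HV_NP h t a b (Zb_NPq (5 * t + 2) i a b (ZbQ_mono hq i a b hab))

variable (v) in
/-- the branch of the step -/
def hvI (s : Fin 6) (t : ℕ) (u : Pt (Fin 3) X β φ) : ℝ := ![1, ind (¬ HV h v t u), ind (HV h v t u), 1, 1, 1] s

/-- the bound of a step -/
theorem fo_one {t : ℕ} {s : Fin 6} {X1 dl B : ℝ} (hB : Real.exp 2 ≤ B) {aw : Pt (Fin 3) X β φ → ℝ}
    (hw : WtS h v X1 dl s t aw) (i : Fin 3) :
    |fo h v B s t i aw| ≤ gd h v s t i aw + B * Real.sqrt (8 * (gd h v s t i aw * dW h v s t i aw)) :=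
  first_leW (P := D.P h t) (F := FQ v t i) (ZQ_Zb (qs s t) i) hB hw.fac hw.nn

theorem fo_pair {t : ℕ} {X1 dl B : ℝ} (hB : Real.exp 2 ≤ B) {aw : Pt (Fin 3) X β φ → ℝ}
    (hw : WtS h v X1 dl 1 t aw) (i : Fin 3) :
    |fo h v B 1 t i (fun u => aw u * ind (¬ HV h v t u)) + fo h v B 2 t i (fun u => aw u * ind (HV h v t u))| ≤
      (gd h v 1 t i aw + B * Real.sqrt (8 * (gd h v 1 t i aw * dW h v 1 t i aw))) +
      (gd h v 2 t i aw + B * Real.sqrt (8 * (gd h v 2 t i aw * dW h v 2 t i aw))) := by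
  have f1 : Fac (fun u : Pt (Fin 3) X β φ => (ZbQ D v (5 * t + 5) i u, ZbQ D v (5 * t + 1) i u))
      (fun u => ¬ HV h v t u) := fun a b hab => by
    have := HV_Zb h (φ := φ) (D := D) (v := v) t (show 5 * t + 2 ≤ 5 * t + 5 by omega) i a b (Prod.mk.inj hab).1
    show (¬ HV h v t a) = (¬ HV h v t b)
    rw [this]
  have f2 : Fac (fun u : Pt (Fin 3) X β φ => (ZbQ D v (5 * t + 2) i u, ZbQ D v (5 * t + 1) i u))
      (fun u => ¬ HV h v t u) := fun a b hab => by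
    have := HV_Zb h (φ := φ) (D := D) (v := v) t (show 5 * t + 2 ≤ 5 * t + 2 by omega) i a b (Prod.mk.inj hab).1
    show (¬ HV h v t a) = (¬ HV h v t b)
    rw [this]
  have k := first_twoW (P := D.P h t) (F := FQ v t i) (ZQ_Zb (5 * t + 1) i) (Y1 := ZbQ D v (5 * t + 5) i)
    (Y2 := ZbQ D v (5 * t + 2) i) (A := fun u => ¬ HV h v t u) f1 f2 hB hw.fac hw.nn
  have e : (fun u => aw u * ind (¬ ¬ HV h v t u)) = fun u => aw u * ind (HV h v t u) := funext fun u => by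
    rw [ind_cg not_not]
  rw [e] at k
  exact k

theorem six_sum (f : Fin 6 → ℝ) : ∑ s, f s = f 0 + f 1 + f 2 + f 3 + f 4 + f 5 := by
  rw [Fin.sum_univ_six]

/-- **ONE TIME** -/
theorem fo_time {t : ℕ} {X1 dl B : ℝ} (hB : Real.exp 2 ≤ B) {w0 : Fin 6 → Pt (Fin 3) X β φ → ℝ}
    (hw : ∀ s, WtS h v X1 dl s t (w0 s)) (h12 : w0 2 = w0 1) (i : Fin 3) :
    |∑ s, fo h v B s t i (fun u => w0 s u * hvI h v s t u)| ≤
      ∑ s, (gd h v s t i (w0 s) + B * Real.sqrt (8 * (gd h v s t i (w0 s) * dW h v s t i (w0 s)))) := by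
  have k0 := fo_one h hB (hw 0) i
  have k3 := fo_one h hB (hw 3) i
  have k4 := fo_one h hB (hw 4) i
  have k5 := fo_one h hB (hw 5) i
  have k1 := fo_pair h hB (hw 1) i
  have e0 : ∀ s : Fin 6, s ≠ 1 → s ≠ 2 → (fun u => w0 s u * hvI h v s t u) = w0 s := by
    intro s h1 h2
    funext u
    have : hvI h v s t u = 1 := by
      fin_cases s
      · rfl
      · exact absurd rfl h1
      · exact absurd rfl h2
      all_goals rfl
    rw [this, mul_one]
  have e1 : (fun u => w0 1 u * hvI h v 1 t u) = fun u => w0 1 u * ind (¬ HV h v t u) := rfl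
  have e2 : (fun u => w0 2 u * hvI h v 2 t u) = fun u => w0 1 u * ind (HV h v t u) := by rw [h12]; rfl
  rw [six_sum, six_sum, e0 0 (by decide) (by decide), e0 3 (by decide) (by decide), e0 4 (by decide) (by decide),
    e0 5 (by decide) (by decide), e1, e2, h12]
  rw [abs_le] at k0 k3 k4 k5 k1 ⊢
  constructor <;> linarith [k0.1, k0.2, k1.1, k1.2, k3.1, k3.2, k4.1, k4.2, k5.1, k5.2]

/-- **THE FIRST ORDER TERMS OF ONE TOP OVER THE RUN** -/
theorem fo_sum (H : D.Hyp dg prr al T Lam) {n N1 : ℝ} (R : Run h (pr3 (Fin 3) n N1) (SS1 (Fin 3)) (AdmDep D) v)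
    (hn : 1 ≤ n) (hN1 : 1 ≤ N1) {X1 dl a : ℝ} (hdl : 0 < dl) (hdl1 : dl ≤ 1) (hda : Real.exp (-a) ≤ dl) {B : ℝ}
    (hB : Real.exp 2 ≤ B) {w0 : Fin 6 → ℕ → Pt (Fin 3) X β φ → ℝ} (hw : ∀ t < T, ∀ s, WtS h v X1 dl s t (w0 s t))
    (h12 : ∀ t < T, w0 2 t = w0 1 t) (i : Fin 3) {D0 : ℝ} (hD0 : ∑ t ∈ range T, dW h v 0 t i (w0 0 t) ≤ D0) :
    ∑ t ∈ range T, |∑ s, fo h v B s t i (fun u => w0 s t u * hvI h v s t u)| ≤
      d1T N1 al X1 dl a * (2 * Lam) +
        B * Real.sqrt (8 * (d1T N1 al X1 dl a * (2 * Lam) * (6 * (n * Lam) + D0))) := by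
  have hB0 : 0 ≤ B := (Real.exp_pos 2).le.trans hB
  have hd0 : 0 ≤ d1T N1 al X1 dl a := by
    unfold d1T
    have := h.pos
    positivity
  have hG : ∀ t < T, ∀ s, gd h v s t i (w0 s t) ≤ d1T N1 al X1 dl a * gS h v s t i := by
    intro t ht s
    refine gd_le h H R (fun J _ => zero_le_one.trans (pr3_one hn hN1 J)) ?_ ?_ ?_ ?_ (zero_lt_one.trans_le hN1) ?_ ?_ ?_ ht s
      hdl hdl1 hda (hw t ht s) i
    · exact mem_SS1.2 (by decide)
    · intro i; exact mem_SS1.2 (by revert i; decide)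
    · unfold pr3; simp
    · intro i; unfold pr3; simp
    · intro l; exact mem_SS1.2 (Finset.erase_ne_self.2 (mem_univ l))
    · exact fun hh => mem_SS1.1 hh rfl
    · intro l; exact zero_lt_one.trans_le (pr3_one hn hN1 _)
  have h1 : ∑ t ∈ range T, |∑ s, fo h v B s t i (fun u => w0 s t u * hvI h v s t u)| ≤
      ∑ j ∈ range T ×ˢ (univ : Finset (Fin 6)), (gd h v j.2 j.1 i (w0 j.2 j.1) +
        B * Real.sqrt (8 * (gd h v j.2 j.1 i (w0 j.2 j.1) * dW h v j.2 j.1 i (w0 j.2 j.1)))) := by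
    rw [Finset.sum_product]
    exact Finset.sum_le_sum fun t ht => fo_time h hB (w0 := fun s => w0 s t) (hw t (Finset.mem_range.1 ht))
      (h12 t (Finset.mem_range.1 ht)) i
  refine h1.trans ?_
  have h2 := sum_sq_le (range T ×ˢ (univ : Finset (Fin 6))) (G := fun j => gd h v j.2 j.1 i (w0 j.2 j.1))
    (g := fun j => gS h v j.2 j.1 i) (W := fun j => dW h v j.2 j.1 i (w0 j.2 j.1)) hB0 hd0
    (fun j _ => gS_nn h j.2 j.1 i)
    (fun j hj => dW_nn h (hw j.1 (Finset.mem_range.1 (Finset.mem_product.1 hj).1) j.2).nn)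
    (fun j hj => hG j.1 (Finset.mem_range.1 (Finset.mem_product.1 hj).1) j.2)
  refine h2.trans ?_
  have g1 : ∑ j ∈ range T ×ˢ (univ : Finset (Fin 6)), gS h v j.2 j.1 i ≤ 2 * Lam := by
    rw [Finset.sum_product]
    exact gn_sum h H R hn hN1 i
  have g0 : 0 ≤ ∑ j ∈ range T ×ˢ (univ : Finset (Fin 6)), gS h v j.2 j.1 i := Finset.sum_nonneg fun j _ => gS_nn h j.2 j.1 i
  have g2 : ∑ j ∈ range T ×ˢ (univ : Finset (Fin 6)), dW h v j.2 j.1 i (w0 j.2 j.1) ≤ 6 * (n * Lam) + D0 := by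
    rw [Finset.sum_product]
    have h3 := dS_sum h H R hn hN1 i
    have h4 : ∑ t ∈ range T, ∑ s, dW h v s t i (w0 s t) ≤
        ∑ t ∈ range T, (dW h v 0 t i (w0 0 t) + ∑ s ∈ univ.erase (0 : Fin 6), dS h v s t i) := by
      refine Finset.sum_le_sum fun t ht => ?_
      rw [← Finset.add_sum_erase univ _ (mem_univ (0 : Fin 6))]
      have := Finset.sum_le_sum fun s (_ : s ∈ univ.erase (0 : Fin 6)) => dW_le h (v := v) (s := s) (t := t) (i := i)
        (hw t (Finset.mem_range.1 ht) s).le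
      linarith
    rw [Finset.sum_add_distrib] at h4
    linarith
  have g3 : 0 ≤ ∑ j ∈ range T ×ˢ (univ : Finset (Fin 6)), dW h v j.2 j.1 i (w0 j.2 j.1) := Finset.sum_nonneg fun j hj =>
    dW_nn h (hw j.1 (Finset.mem_range.1 (Finset.mem_product.1 hj).1) j.2).nn
  have g4 := mul_le_mul_of_nonneg_left g1 hd0
  have g5 : d1T N1 al X1 dl a * (∑ j ∈ range T ×ˢ (univ : Finset (Fin 6)), gS h v j.2 j.1 i) *
      ∑ j ∈ range T ×ˢ (univ : Finset (Fin 6)), dW h v j.2 j.1 i (w0 j.2 j.1) ≤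
      d1T N1 al X1 dl a * (2 * Lam) * (6 * (n * Lam) + D0) :=
    mul_le_mul g4 g2 g3 ((mul_nonneg hd0 g0).trans g4)
  have g6 := mul_le_mul_of_nonneg_left (Real.sqrt_le_sqrt (mul_le_mul_of_nonneg_left g5 (by norm_num : (0 : ℝ) ≤ 8))) hB0
  linarith

end fo

end

end Pool.Agent.GMH.TP
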