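import Pool.Agent.GMH.SsP3

/-!
# GMH/Key3Z: the normalising sum of one step, final form (helper79)

`key3z` : as `key3y` (weight `al <= al0`, `al0` seen by the old state, first order terms left), with
* release weight: `a = a0 w` on the weak tuples outside of the region; a strong bad letter `i` : `a = ai (f i)` if no other
  letter is bad, `a <= ai (f i)` if no other letter is strong and bad (`PRG` instead of `PRF`);
* points with a strong thin letter (`TqF`): the weak tuples in the region are exactly those with a superhot pair and a rising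
  letter (`RPF`); off these points no weak tuple is in the region;
* left at the thin strong points: `TVF`, the undecided points `Rz` (square root of the product of the second moments, `SQF`), the
  kills of the superhot pairs `KPF` and `e3` times their mass `MPF`.
-/

set_option autoImplicit false
set_option linter.unusedSectionVars false
set_option linter.unusedVariables false

namespace Pool.Agent.GMH

open Finset Pool.Agent.PWZ Pool.Agent.M3

noncomputable section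

namespace KT

variable {φ : Type*} {S : Fin 3 → Finset φ} (t : KT S)

theorem sum_pq'_two {i k : Fin 3} (hik : i ≠ k) (g h : φ → ℝ) :
    ∑ F ∈ Fintype.piFinset S, (∏ j, t.q' j (F j)) * (g (F i) * h (F k)) =
      (∑ x ∈ S i, t.q' i x * g x) * ∑ y ∈ S k, t.q' k y * h y := by
  classical
  have h1 : ∀ F : Fin 3 → φ, (∏ j, t.q' j (F j)) * (g (F i) * h (F k)) =
      (t.q' i (F i) * g (F i)) * ∏ j ∈ univ.erase i, (t.q' j (F j) * if j = k then h (F j) else 1) := by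
    intro F
    rw [← Finset.mul_prod_erase univ (fun j => t.q' j (F j)) (mem_univ i), Finset.prod_mul_distrib]
    have e : ∏ j ∈ univ.erase i, (if j = k then h (F j) else 1) = h (F k) := by
      rw [Finset.prod_ite_eq' (univ.erase i) k (fun j => h (F j)), if_pos (Finset.mem_erase.2 ⟨hik.symm, mem_univ k⟩)]
    rw [e]
    ring
  rw [Finset.sum_congr rfl fun F _ => h1 F]
  have h2 := sum_prod_at S i (fun x => t.q' i x * g x) (fun j y => t.q' j y * if j = k then h y else 1)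
  rw [h2]
  congr 1
  rw [← Finset.mul_prod_erase (univ.erase i) _ (Finset.mem_erase.2 ⟨hik.symm, mem_univ k⟩)]
  have e2 : ∏ j ∈ (univ.erase i).erase k, ∑ y ∈ S j, t.q' j y * (if j = k then h y else 1) = 1 := by
    refine Finset.prod_eq_one fun j hj => ?_
    refine Eq.trans (Finset.sum_congr rfl fun y _ => ?_) (t.q'_one j)
    rw [if_neg (Finset.ne_of_mem_erase hj), mul_one]
  rw [e2, mul_one]
  simp only [if_true]

/-- mass of the bad letters under the new law -/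
def Qb (bd : Fin 3 → φ → Prop) (k : Fin 3) : ℝ := ∑ x ∈ S k, ind (bd k x) * t.q' k x

/-- mass of the bad weak letters under the new law -/
def Qw (B : ℝ) (bd : Fin 3 → φ → Prop) (k : Fin 3) : ℝ := ∑ x ∈ S k, ind (bd k x ∧ ¬ B < t.r k x) * t.q' k x

theorem Qb_eq (B : ℝ) (bd : Fin 3 → φ → Prop) (k : Fin 3) : t.Qs B bd k + t.Qw B bd k = t.Qb bd k := by
  unfold Qs Qw Qb
  rw [← Finset.sum_add_distrib]
  refine Finset.sum_congr rfl fun x _ => ?_
  by_cases hb : bd k x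
  · by_cases hs : B < t.r k x
    · rw [ind_of (show t.SB B bd k x from ⟨hs, hb⟩), ind_not (fun h : bd k x ∧ ¬ B < t.r k x => h.2 hs), ind_of hb]; ring
    · rw [ind_not (fun h : t.SB B bd k x => hs h.1), ind_of (⟨hb, hs⟩ : bd k x ∧ ¬ B < t.r k x), ind_of hb]; ring
  · rw [ind_not (fun h : t.SB B bd k x => hb h.2), ind_not (fun h : bd k x ∧ ¬ B < t.r k x => hb h.1), ind_not hb]; ring

variable {B d dd eta e1 : ℝ} {Reg : (Fin 3 → φ) → Prop} {G a : (Fin 3 → φ) → ℝ} {ai : Fin 3 → φ → ℝ}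
  {bd bx : Fin 3 → φ → Prop}

/-- **strong tuples, release weight known only up to a second bad letter** -/
theorem strong_le2 (hB : 1 ≤ B) (hd : 0 ≤ d) (hdd : 0 ≤ dd) (heta : 0 ≤ eta) (heta1 : eta ≤ 1) (he1 : 0 ≤ e1)
    (heB : 1 + e1 ≤ B)
    (hG : ∀ F ∈ Fintype.piFinset S, ¬ Reg F → G F = t.p F / t.pq F) (hGR : ∀ F ∈ Fintype.piFinset S, Reg F → G F ≤ eta)
    (hG0 : ∀ F ∈ Fintype.piFinset S, 0 ≤ G F)
    (ha0 : ∀ F, 0 ≤ a F) (ha1 : ∀ F, a F ≤ 1) (hai0 : ∀ i x, 0 ≤ ai i x) (hai1 : ∀ i x, ai i x ≤ 1)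
    (hai : ∀ F ∈ Fintype.piFinset S, ∀ i, t.SB B bd i (F i) → (∀ k, k ≠ i → ¬ bd k (F k)) → a F = ai i (F i))
    (hai2 : ∀ F ∈ Fintype.piFinset S, ∀ i, t.SB B bd i (F i) → (∀ k, k ≠ i → ¬ t.SB B bd k (F k)) → a F ≤ ai i (F i))
    (Ra : ∀ F ∈ Fintype.piFinset S, ∀ i, t.SB B bd i (F i) → ∀ k, k ≠ i → 1 + e1 < t.r k (F k) → Reg F)
    (Rb : ∀ F ∈ Fintype.piFinset S, ∀ i, B < t.r i (F i) → bx i (F i) → Reg F)
    (Rc : ∀ F ∈ Fintype.piFinset S, ∀ i k, i ≠ k → B < t.r i (F i) → B < t.r k (F k) → (1 + d) * t.pq F < t.p F → Reg F)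
    (hgood : ∀ i, ∀ x ∈ S i, B < t.r i x → ¬ bd i x →
      ∑ F ∈ Fintype.piFinset S, ind (F i = x) * t.rowd i F ≤ dd * t.mg i x)
    {c1 c2 : ℝ} (hc1 : (1 + e1) ^ 2 - 1 + eta + (B ^ 2 * dd + d) ≤ c1)
    (hc2 : (1 + e1) ^ 2 + (B ^ 2 * dd + 1) ≤ c2) :
    ∑ F ∈ Fintype.piFinset S, ind (∃ i, B < t.r i (F i)) * ((∏ i, t.q' i (F i)) * (a F * (G F - 1))) ≤
      ∑ i, ∑ x ∈ S i, ind (B < t.r i x) * (c1 * t.q' i x + c2 * (t.r i x * (ind (¬ bx i x) * t.ke i x))) +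
      ∑ i, t.Qa B bd ai i * ∑ k ∈ univ.erase i, t.Qb bd k := by
  classical
  -- the modified weight
  set one : (Fin 3 → φ) → Fin 3 → Prop := fun F i => t.SB B bd i (F i) ∧ ∀ k, k ≠ i → ¬ t.SB B bd k (F k) with hone
  have huni : ∀ F i j, one F i → one F j → i = j := by
    intro F i j hi hj
    by_contra hne
    exact hi.2 j (fun h => hne h.symm) hj.1
  set a' : (Fin 3 → φ) → ℝ := fun F => if h : ∃ i, one F i then ai h.choose (F h.choose) else a F with ha'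
  have ha'1 : ∀ F i, one F i → a' F = ai i (F i) := by
    intro F i hi
    have hex : ∃ i, one F i := ⟨i, hi⟩
    simp only [ha']
    rw [dif_pos hex, huni F _ i hex.choose_spec hi]
  have ha'2 : ∀ F, (¬ ∃ i, one F i) → a' F = a F := by
    intro F h
    simp only [ha']
    rw [dif_neg h]
  have hb0 : ∀ F, 0 ≤ a' F := by
    intro F
    by_cases h : ∃ i, one F i
    · obtain ⟨i, hi⟩ := h
      rw [ha'1 F i hi]
      exact hai0 _ _
    · rw [ha'2 F h]; exact ha0 F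
  have hb1 : ∀ F, a' F ≤ 1 := by
    intro F
    by_cases h : ∃ i, one F i
    · obtain ⟨i, hi⟩ := h
      rw [ha'1 F i hi]
      exact hai1 _ _
    · rw [ha'2 F h]; exact ha1 F
  have k1 := t.strong_le (a := a') hB hd hdd heta heta1 he1 heB hG hGR hb0 hb1 hai0 hai1
    (fun F hF i hi hk => ha'1 F i ⟨hi, hk⟩) Ra Rb Rc hgood (c1 := c1) (c2 := c2)
    (by have : Fintype.card (Fin 3) - 1 = 2 := by decide
        rw [this]; exact hc1)
    (by have : Fintype.card (Fin 3) - 1 = 2 := by decide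
        rw [this]; exact hc2)
  -- the difference
  have s1 : ∀ F ∈ Fintype.piFinset S, ind (∃ i, B < t.r i (F i)) * ((∏ i, t.q' i (F i)) * (a F * (G F - 1))) ≤
      ind (∃ i, B < t.r i (F i)) * ((∏ i, t.q' i (F i)) * (a' F * (G F - 1))) +
      ∑ i, ∑ k ∈ univ.erase i, (∏ j, t.q' j (F j)) * ((ind (t.SB B bd i (F i)) * ai i (F i)) *
        ind (bd k (F k) ∧ ¬ B < t.r k (F k))) := by
    intro F hF
    have hq := t.pq'_nn hF
    have n0 : ∀ i k, 0 ≤ (∏ j, t.q' j (F j)) * ((ind (t.SB B bd i (F i)) * ai i (F i)) *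
        ind (bd k (F k) ∧ ¬ B < t.r k (F k))) := fun i k =>
      mul_nonneg hq (mul_nonneg (mul_nonneg (ind_nonneg _) (hai0 _ _)) (ind_nonneg _))
    have n1 : 0 ≤ ∑ i, ∑ k ∈ univ.erase i, (∏ j, t.q' j (F j)) * ((ind (t.SB B bd i (F i)) * ai i (F i)) *
        ind (bd k (F k) ∧ ¬ B < t.r k (F k))) := Finset.sum_nonneg fun i _ => Finset.sum_nonneg fun k _ => n0 i k
    by_cases h : ∃ i, one F i
    · obtain ⟨i, hi⟩ := h
      rw [ha'1 F i hi]
      by_cases hk : ∀ k, k ≠ i → ¬ bd k (F k)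
      · rw [hai F hF i hi.1 hk]
        linarith
      · push Not at hk
        obtain ⟨k, hki, hbk⟩ := hk
        have hwk : ¬ B < t.r k (F k) := fun hs => hi.2 k hki ⟨hs, hbk⟩
        have h1 := hai2 F hF i hi.1 hi.2
        have h2 := hG0 F hF
        have h3 : a F * (G F - 1) ≤ ai i (F i) * (G F - 1) + ai i (F i) := by
          have h4 := ha0 F
          have h5 := mul_nonneg (sub_nonneg.2 h1) h2
          nlinarith
        have h6 : (∏ j, t.q' j (F j)) * ai i (F i) ≤ ∑ i, ∑ k ∈ univ.erase i, (∏ j, t.q' j (F j)) *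
            ((ind (t.SB B bd i (F i)) * ai i (F i)) * ind (bd k (F k) ∧ ¬ B < t.r k (F k))) := by
          have a1 := Finset.single_le_sum (f := fun i => ∑ k ∈ univ.erase i, (∏ j, t.q' j (F j)) *
            ((ind (t.SB B bd i (F i)) * ai i (F i)) * ind (bd k (F k) ∧ ¬ B < t.r k (F k))))
            (fun i _ => Finset.sum_nonneg fun k _ => n0 i k) (mem_univ i)
          have a2 := Finset.single_le_sum (f := fun k => (∏ j, t.q' j (F j)) *
            ((ind (t.SB B bd i (F i)) * ai i (F i)) * ind (bd k (F k) ∧ ¬ B < t.r k (F k))))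
            (fun k _ => n0 i k) (Finset.mem_erase.2 ⟨hki, mem_univ k⟩)
          have a3 : (∏ j, t.q' j (F j)) * ((ind (t.SB B bd i (F i)) * ai i (F i)) *
              ind (bd k (F k) ∧ ¬ B < t.r k (F k))) = (∏ j, t.q' j (F j)) * ai i (F i) := by
            rw [ind_of hi.1, ind_of (⟨hbk, hwk⟩ : bd k (F k) ∧ ¬ B < t.r k (F k)), one_mul, mul_one]
          linarith
        have h7 := mul_le_mul_of_nonneg_left h3 hq
        by_cases hs : ∃ i, B < t.r i (F i)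
        · rw [ind_of hs, one_mul, one_mul]
          nlinarith
        · rw [ind_not hs, zero_mul, zero_mul, zero_add]
          exact n1
    · rw [ha'2 F h]
      linarith
  have s2 := Finset.sum_le_sum s1
  rw [Finset.sum_add_distrib] at s2
  have e1' : ∑ F ∈ Fintype.piFinset S, ∑ i, ∑ k ∈ univ.erase i, (∏ j, t.q' j (F j)) *
      ((ind (t.SB B bd i (F i)) * ai i (F i)) * ind (bd k (F k) ∧ ¬ B < t.r k (F k))) =
      ∑ i, t.Qa B bd ai i * ∑ k ∈ univ.erase i, t.Qw B bd k := by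
    rw [Finset.sum_comm]
    refine Finset.sum_congr rfl fun i _ => ?_
    rw [Finset.sum_comm, Finset.mul_sum]
    refine Finset.sum_congr rfl fun k hk => ?_
    rw [t.sum_pq'_two (Finset.ne_of_mem_erase hk).symm (fun x => ind (t.SB B bd i x) * ai i x)
      (fun y => ind (bd k y ∧ ¬ B < t.r k y))]
    unfold Qa Qw
    congr 1
    · exact Finset.sum_congr rfl fun x _ => by ring
    · exact Finset.sum_congr rfl fun y _ => by ring
  have e2' : ∑ i, t.Qa B bd ai i * ∑ k ∈ univ.erase i, t.Qb bd k =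
      ∑ i, t.Qa B bd ai i * ∑ k ∈ univ.erase i, t.Qs B bd k + ∑ i, t.Qa B bd ai i * ∑ k ∈ univ.erase i, t.Qw B bd k := by
    rw [← Finset.sum_add_distrib]
    refine Finset.sum_congr rfl fun i _ => ?_
    rw [← mul_add, ← Finset.sum_add_distrib]
    congr 1
    exact Finset.sum_congr rfl fun k _ => (t.Qb_eq B bd k).symm
  rw [e1'] at s2
  rw [e2']
  linarith

/-! ### the weak part off the thin strong points and at them -/

section weak

variable {e0 e3 E a0 : ℝ}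

/-- the weak part if no weak tuple is in the region and the release weight is a constant -/
theorem weak_a0 (hG : ∀ F ∈ Fintype.piFinset S, ¬ Reg F → G F = t.p F / t.pq F)
    (hw : ∀ F ∈ Fintype.piFinset S, (¬ ∃ i, B < t.r i (F i)) → ¬ Reg F)
    (ha : ∀ F ∈ Fintype.piFinset S, (¬ ∃ i, B < t.r i (F i)) → ¬ Reg F → a F = a0) :
    ∑ F ∈ Fintype.piFinset S, ind (¬ ∃ i, B < t.r i (F i)) * ((∏ i, t.q' i (F i)) * (a F * (G F - 1))) = a0 * t.WK B := by
  unfold WK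
  rw [Finset.mul_sum]
  refine Finset.sum_congr rfl fun F hF => ?_
  by_cases h : ∃ i, B < t.r i (F i)
  · rw [ind_not (not_not.2 h), t.prod_hwk_strong h]
    ring
  · have hR := hw F hF h
    rw [ind_of h, one_mul, t.prod_hwk_weak h, ha F hF h hR]
    have h5 := t.term_off hF (hG F hF hR)
    have e : (∏ i, t.q' i (F i)) * (a0 * (G F - 1)) = a0 * ((∏ i, t.q' i (F i)) * (G F - 1)) := by ring
    rw [e, h5]

/-- distance of the laws of one top -/
def tvi (i : Fin 3) : ℝ := ∑ x ∈ S i, |t.mg i x - t.q i x|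

theorem tvi_nn (i : Fin 3) : 0 ≤ t.tvi i := Finset.sum_nonneg fun _ _ => abs_nonneg _

theorem RI_le (he3 : 0 < e3) (i : Fin 3) : t.RI B e3 i ≤ t.tvi i + 1 / e3 ^ 2 * t.gg B i := by
  unfold RI tvi gg
  rw [Finset.mul_sum, ← Finset.sum_add_distrib]
  refine Finset.sum_le_sum fun x hx => ?_
  have hq := t.q_nn i x hx
  have h1 : t.mg i x ≤ |t.mg i x - t.q i x| + t.q i x := by
    have := le_abs_self (t.mg i x - t.q i x)
    linarith
  have h0 : 0 ≤ 1 / e3 ^ 2 * (t.q i x * t.xi B i x ^ 2) := by positivity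
  by_cases h : 1 + e3 < t.r i x ∧ t.r i x ≤ B
  · rw [ind_of h, mul_one]
    have hx2 : t.xi B i x = t.r i x - 1 := by
      unfold xi hwk
      rw [ind_of (not_lt.2 h.2), one_mul]
    have h2 : 1 ≤ 1 / e3 ^ 2 * t.xi B i x ^ 2 := by
      rw [hx2, one_div, inv_mul_eq_div, le_div_iff₀ (by positivity)]
      nlinarith [h.1]
    have h3 := mul_le_mul_of_nonneg_left h2 hq
    have h4 : t.q i x * (1 / e3 ^ 2 * t.xi B i x ^ 2) = 1 / e3 ^ 2 * (t.q i x * t.xi B i x ^ 2) := by ring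
    rw [h4] at h3
    linarith
  · rw [ind_not h, mul_zero]
    have := abs_nonneg (t.mg i x - t.q i x)
    linarith

theorem SM_le (hB : 0 < B) (i : Fin 3) : ∑ x ∈ S i, t.mg i x * ind (B < t.r i x) ≤
    t.tvi i + 1 / B * ∑ x ∈ S i, ind (B < t.r i x) * t.q' i x := by
  unfold tvi
  rw [Finset.mul_sum, ← Finset.sum_add_distrib]
  refine Finset.sum_le_sum fun x hx => ?_
  have hq := t.q_nn i x hx
  have h1 : t.mg i x ≤ |t.mg i x - t.q i x| + t.q i x := by
    have := le_abs_self (t.mg i x - t.q i x)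
    linarith
  by_cases h : B < t.r i x
  · rw [ind_of h, mul_one, one_mul, ← t.rq hx]
    have h2 : t.q i x ≤ 1 / B * (t.r i x * t.q i x) := by
      rw [one_div, inv_mul_eq_div, le_div_iff₀ hB]
      nlinarith
    linarith
  · rw [ind_not h]
    have := abs_nonneg (t.mg i x - t.q i x)
    simp only [mul_zero, zero_mul, add_zero]
    exact this

theorem tv_le_two : t.tv ≤ 2 := by
  unfold tv
  have h := Finset.sum_le_sum fun f (hf : f ∈ Fintype.piFinset S) => t.abs_diff_le hf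
  rw [Finset.sum_add_distrib, t.p_one] at h
  have h2 := t.sum_q_one (0 : Fin 3) (fun _ => (1 : ℝ))
  simp only [mul_one] at h2
  rw [h2, t.q_one 0] at h
  linarith

theorem sq_am {a b c : ℝ} (hc : 0 ≤ c) (ha : 0 ≤ a) (hb : 0 ≤ b) : Real.sqrt (c * (a * b)) ≤ Real.sqrt c * ((a + b) / 2) := by
  rw [Real.sqrt_mul hc]
  refine mul_le_mul_of_nonneg_left ?_ (Real.sqrt_nonneg _)
  rw [Real.sqrt_le_left (by positivity)]
  nlinarith [sq_nonneg (a - b)]

/-- **THE WEAK PART AT A THIN STRONG POINT, in sums of gains** -/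
theorem ss_fin (hB : 1 ≤ B) (he3 : 0 < e3) (he31 : e3 ≤ 1) (hE : 1 ≤ E) (he0 : 0 ≤ e0) (ha0 : 0 ≤ a0) (ha01 : a0 ≤ 1)
    {rz : Prop} (hrz : ¬ rz → t.tv ≤ e0)
    (hG : ∀ F ∈ Fintype.piFinset S, ¬ Reg F → G F = t.p F / t.pq F) (hGR : ∀ F ∈ Fintype.piFinset S, Reg F → G F ≤ 1)
    (hReg : ∀ F ∈ Fintype.piFinset S, (¬ ∃ i, B < t.r i (F i)) → (Reg F ↔ t.RP B e3 E F))
    (hap : ∀ F, 0 ≤ a F) (ha : ∀ F ∈ Fintype.piFinset S, (¬ ∃ i, B < t.r i (F i)) → ¬ Reg F → a F = a0) :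
    ∑ F ∈ Fintype.piFinset S, ind (¬ ∃ i, B < t.r i (F i)) * ((∏ i, t.q' i (F i)) * (a F * (G F - 1))) ≤
      (B + 2 + 2 * B ^ 3 / E) * ∑ i, t.tvi i +
      ((1 + B) * Real.sqrt (e0 * (E + 1)) + (2 + B) * Real.sqrt (3 / E) + 2 * B ^ 3 / E * (1 / e3 ^ 2)) * ∑ i, t.gg B i +
      2 / B * (∑ i, ∑ x ∈ S i, ind (B < t.r i x) * t.q' i x) +
      (1 + B) * (ind rz * (a0 * (Real.sqrt (2 * (E + 1) * (t.gg B 0 * t.gg B 1)) +
        Real.sqrt (2 * (E + 1) * (t.gg B 0 * t.gg B 2)) + Real.sqrt (2 * (E + 1) * (t.gg B 1 * t.gg B 2))))) +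
      (1 + B) * (t.KP E 0 1 + t.KP E 0 2 + t.KP E 1 2) + (B + 2) * e3 * (t.MP E 0 1 + t.MP E 0 2 + t.MP E 1 2) := by
  have hB0 : (0 : ℝ) < B := by linarith
  have hE0 : (0 : ℝ) < E := by linarith
  have k := t.ss_pair_le hB he3.le he31 hE ha0 hG hGR hReg hap ha
  have g0 := t.gg_nn B 0
  have g1 := t.gg_nn B 1
  have g2 := t.gg_nn B 2
  have tv0 := t.tv_nn
  -- the distances
  have p1 : ∑ i, t.ph B i ≤ B * ∑ i, t.tvi i := by
    rw [Finset.mul_sum]
    exact Finset.sum_le_sum fun i _ => (le_abs_self _).trans (t.abs_ph_le hB i)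
  -- the pair terms
  have p2 : ∀ i j, a0 * Real.sqrt (t.tv * ((E + 1) * (t.gg B i * t.gg B j))) ≤
      Real.sqrt (e0 * (E + 1)) * ((t.gg B i + t.gg B j) / 2) +
        ind rz * (a0 * Real.sqrt (2 * (E + 1) * (t.gg B i * t.gg B j))) := by
    intro i j
    have gi := t.gg_nn B i
    have gj := t.gg_nn B j
    have m0 : 0 ≤ Real.sqrt (e0 * (E + 1)) * ((t.gg B i + t.gg B j) / 2) :=
      mul_nonneg (Real.sqrt_nonneg _) (by linarith)
    by_cases h : rz
    · rw [ind_of h, one_mul]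
      have h1 : t.tv * ((E + 1) * (t.gg B i * t.gg B j)) ≤ 2 * (E + 1) * (t.gg B i * t.gg B j) := by
        rw [mul_assoc 2]
        exact mul_le_mul_of_nonneg_right t.tv_le_two (by positivity)
      have h2 := mul_le_mul_of_nonneg_left (Real.sqrt_le_sqrt h1) ha0
      linarith
    · rw [ind_not h, zero_mul, add_zero]
      have h1 : t.tv * ((E + 1) * (t.gg B i * t.gg B j)) ≤ e0 * (E + 1) * (t.gg B i * t.gg B j) := by
        rw [mul_assoc e0]
        exact mul_le_mul_of_nonneg_right (hrz h) (by positivity)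
      have h2 := (Real.sqrt_le_sqrt h1).trans (sq_am (mul_nonneg he0 (by linarith)) gi gj)
      exact (mul_le_of_le_one_left (Real.sqrt_nonneg _) ha01).trans h2
  have p3 : ∀ i j, a0 * Real.sqrt (3 / E * (t.gg B i * t.gg B j)) ≤ Real.sqrt (3 / E) * ((t.gg B i + t.gg B j) / 2) :=
    fun i j => (mul_le_of_le_one_left (Real.sqrt_nonneg _) ha01).trans
      (sq_am (by positivity) (t.gg_nn B i) (t.gg_nn B j))
  have kp0 : ∀ i j, 0 ≤ t.KP E i j := fun i j => Finset.sum_nonneg fun x _ => Finset.sum_nonneg fun y _ =>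
    mul_nonneg (t.mg2_nn i j x y) (mul_nonneg (ind_nonneg _) (le_max_right _ _))
  have mp0 : ∀ i j, 0 ≤ t.MP E i j := fun i j => Finset.sum_nonneg fun x _ => Finset.sum_nonneg fun y _ =>
    mul_nonneg (t.mg2_nn i j x y) (ind_nonneg _)
  have p4 : ∑ i, t.RI B e3 i ≤ ∑ i, t.tvi i + 1 / e3 ^ 2 * ∑ i, t.gg B i := by
    rw [Finset.mul_sum, ← Finset.sum_add_distrib]
    exact Finset.sum_le_sum fun i _ => t.RI_le he3 i
  have p5 : ∑ i, ∑ x ∈ S i, t.mg i x * ind (B < t.r i x) ≤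
      ∑ i, t.tvi i + 1 / B * ∑ i, ∑ x ∈ S i, ind (B < t.r i x) * t.q' i x := by
    rw [Finset.mul_sum, ← Finset.sum_add_distrib]
    exact Finset.sum_le_sum fun i _ => t.SM_le hB0 i
  have tn : 0 ≤ ∑ i, t.tvi i := Finset.sum_nonneg fun i _ => t.tvi_nn i
  have gn' : 0 ≤ ∑ i, t.gg B i := Finset.sum_nonneg fun i _ => t.gg_nn B i
  have sn : 0 ≤ ∑ i, ∑ x ∈ S i, ind (B < t.r i x) * t.q' i x := Finset.sum_nonneg fun i _ =>
    Finset.sum_nonneg fun x hx => mul_nonneg (ind_nonneg _) (t.q'_nn i x hx)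
  have gs : ∑ i, t.gg B i = t.gg B 0 + t.gg B 1 + t.gg B 2 := Fin.sum_univ_three _
  -- everything
  have q1 : a0 * ∑ i, t.ph B i ≤ B * ∑ i, t.tvi i := by
    have h1 := mul_le_mul_of_nonneg_left p1 ha0
    have h2 := mul_le_of_le_one_left (mul_nonneg hB0.le tn) ha01
    linarith
  have q2 : a0 * ((1 + B) * (Real.sqrt (t.tv * ((E + 1) * (t.gg B 0 * t.gg B 1))) +
          Real.sqrt (t.tv * ((E + 1) * (t.gg B 0 * t.gg B 2))) + Real.sqrt (t.tv * ((E + 1) * (t.gg B 1 * t.gg B 2))))) ≤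
      (1 + B) * Real.sqrt (e0 * (E + 1)) * ∑ i, t.gg B i +
      (1 + B) * (ind rz * (a0 * (Real.sqrt (2 * (E + 1) * (t.gg B 0 * t.gg B 1)) +
        Real.sqrt (2 * (E + 1) * (t.gg B 0 * t.gg B 2)) + Real.sqrt (2 * (E + 1) * (t.gg B 1 * t.gg B 2))))) := by
    have h1 := mul_le_mul_of_nonneg_left (add_le_add (add_le_add (p2 0 1) (p2 0 2)) (p2 1 2)) (show 0 ≤ 1 + B by linarith)
    rw [gs]
    nlinarith
  have q3 : a0 * ((2 + B) * (Real.sqrt (3 / E * (t.gg B 0 * t.gg B 1)) + Real.sqrt (3 / E * (t.gg B 0 * t.gg B 2)) +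
          Real.sqrt (3 / E * (t.gg B 1 * t.gg B 2)))) ≤ (2 + B) * Real.sqrt (3 / E) * ∑ i, t.gg B i := by
    have h1 := mul_le_mul_of_nonneg_left (add_le_add (add_le_add (p3 0 1) (p3 0 2)) (p3 1 2)) (show 0 ≤ 2 + B by linarith)
    rw [gs]
    nlinarith
  have q4 : a0 * ((1 + B) * (t.KP E 0 1 + t.KP E 0 2 + t.KP E 1 2)) ≤ (1 + B) * (t.KP E 0 1 + t.KP E 0 2 + t.KP E 1 2) :=
    mul_le_of_le_one_left (mul_nonneg (by linarith) (add_nonneg (add_nonneg (kp0 _ _) (kp0 _ _)) (kp0 _ _))) ha01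
  have q5 : a0 * ((B + 2) * e3 * (t.MP E 0 1 + t.MP E 0 2 + t.MP E 1 2)) ≤
      (B + 2) * e3 * (t.MP E 0 1 + t.MP E 0 2 + t.MP E 1 2) :=
    mul_le_of_le_one_left (mul_nonneg (by positivity) (add_nonneg (add_nonneg (mp0 _ _) (mp0 _ _)) (mp0 _ _))) ha01
  have hBE : 0 ≤ 2 * B ^ 3 / E := by positivity
  have q6 : a0 * (2 * B ^ 3 / E * ∑ i, t.RI B e3 i) ≤ 2 * B ^ 3 / E * ∑ i, t.tvi i +
      2 * B ^ 3 / E * (1 / e3 ^ 2) * ∑ i, t.gg B i := by
    have r0 : 0 ≤ ∑ i, t.RI B e3 i := Finset.sum_nonneg fun i _ => Finset.sum_nonneg fun x _ =>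
      mul_nonneg (t.mg_nn i x) (ind_nonneg _)
    have h1 := mul_le_of_le_one_left (mul_nonneg hBE r0) ha01
    have h2 := mul_le_mul_of_nonneg_left p4 hBE
    have h3 : 2 * B ^ 3 / E * (∑ i, t.tvi i + 1 / e3 ^ 2 * ∑ i, t.gg B i) = 2 * B ^ 3 / E * ∑ i, t.tvi i +
      2 * B ^ 3 / E * (1 / e3 ^ 2) * ∑ i, t.gg B i := by ring
    rw [h3] at h2
    exact h1.trans h2
  have q7 : a0 * (2 * ∑ i, ∑ x ∈ S i, t.mg i x * ind (B < t.r i x)) ≤ 2 * ∑ i, t.tvi i +
      2 / B * ∑ i, ∑ x ∈ S i, ind (B < t.r i x) * t.q' i x := by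
    have r0 : 0 ≤ ∑ i, ∑ x ∈ S i, t.mg i x * ind (B < t.r i x) := Finset.sum_nonneg fun i _ => Finset.sum_nonneg fun x _ =>
      mul_nonneg (t.mg_nn i x) (ind_nonneg _)
    have h1 := mul_le_of_le_one_left (mul_nonneg (show (0 : ℝ) ≤ 2 by norm_num) r0) ha01
    have h2 := mul_le_mul_of_nonneg_left p5 (show (0 : ℝ) ≤ 2 by norm_num)
    have h3 : 2 * (∑ i, t.tvi i + 1 / B * ∑ i, ∑ x ∈ S i, ind (B < t.r i x) * t.q' i x) = 2 * ∑ i, t.tvi i +
      2 / B * ∑ i, ∑ x ∈ S i, ind (B < t.r i x) * t.q' i x := by ring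
    rw [h3] at h2
    exact h1.trans h2
  have key : ∀ a b c d e f g : ℝ, a0 * (a + b + c + d + e + f + g) = a0 * a + a0 * b + a0 * c + a0 * d + a0 * e + a0 * f +
      a0 * g := fun a b c d e f g => by ring
  rw [key] at k
  have key2 : (B + 2 + 2 * B ^ 3 / E) * ∑ i, t.tvi i = B * ∑ i, t.tvi i + 2 * ∑ i, t.tvi i +
      2 * B ^ 3 / E * ∑ i, t.tvi i := by ring
  have key3 : ((1 + B) * Real.sqrt (e0 * (E + 1)) + (2 + B) * Real.sqrt (3 / E) + 2 * B ^ 3 / E * (1 / e3 ^ 2)) *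
      ∑ i, t.gg B i = (1 + B) * Real.sqrt (e0 * (E + 1)) * ∑ i, t.gg B i + (2 + B) * Real.sqrt (3 / E) * ∑ i, t.gg B i +
      2 * B ^ 3 / E * (1 / e3 ^ 2) * ∑ i, t.gg B i := by ring
  rw [key2, key3]
  linarith

end weak

end KT


section key

variable {Om : Type*} [Fintype Om] (P : FP Om) {α β γ φ : Type*} {Z : Om → β} {Zb : Fin 3 → Om → α}
  (F : Fin 3 → Om → φ) (Y : Fin 3 → Om → γ)

variable (hZ : ∀ i, Fac Z (Zb i))

variable {B eps : ℝ} {al al0 : Om → ℝ}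

variable (Z Zb) in
/-- thin strong point -/
def TqF (B : ℝ) (w : Om) : Prop := ∃ i, B < tF P Z Zb Y i w

variable (Z Zb) in
/-- superhot pair of letters -/
def shF (E : ℝ) (i k : Fin 3) (w : Om) (x y : φ) : Prop := E * (qF P Zb F i w x * qF P Zb F k w y) < mF2 P Z F i k w x y

variable (Z Zb) in
/-- the cut weak tuples: some superhot pair with a rising letter -/
def RPF (B e3 E : ℝ) (w : Om) (f : Fin 3 → φ) : Prop :=
  (∀ i, rF P Zb F Y i w (f i) ≤ B) ∧ ∃ i k, i ≠ k ∧ shF P Z Zb F E i k w (f i) (f k) ∧ 1 + e3 < rF P Zb F Y i w (f i)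

variable (Z Zb) in
/-- kills of the superhot pairs -/
def KPF (E : ℝ) (i k : Fin 3) (w : Om) : ℝ := ∑ x ∈ vals (F i), ∑ y ∈ vals (F k), mF2 P Z F i k w x y *
  (ind (shF P Z Zb F E i k w x y) * max (1 - rF P Zb F Y i w x * rF P Zb F Y k w y) 0)

variable (Z Zb) in
/-- mass of the superhot pairs -/
def MPF (E : ℝ) (i k : Fin 3) (w : Om) : ℝ := ∑ x ∈ vals (F i), ∑ y ∈ vals (F k), mF2 P Z F i k w x y *
  ind (shF P Z Zb F E i k w x y)

/-- strong bad letter against a bad letter, new laws -/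
def PRG (B : ℝ) (bd : Om → Fin 3 → φ → Prop) (ai : Om → Fin 3 → φ → ℝ) (w : Om) : ℝ :=
  ∑ i, (∑ x ∈ vals (F i), ind (SBF P (Zb := Zb) F Y B bd i w x) * (ai w i x * qF' P Zb F Y i w x)) *
    ∑ k ∈ univ.erase i, ∑ x ∈ vals (F k), ind (bd w k x) * qF' P Zb F Y k w x

/-- square root terms at an undecided point -/
def SQF (B E : ℝ) (w : Om) : ℝ :=
  Real.sqrt (2 * (E + 1) * (GGF P F Y (Zb := Zb) B 0 w * GGF P F Y (Zb := Zb) B 1 w)) +
  Real.sqrt (2 * (E + 1) * (GGF P F Y (Zb := Zb) B 0 w * GGF P F Y (Zb := Zb) B 2 w)) +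
  Real.sqrt (2 * (E + 1) * (GGF P F Y (Zb := Zb) B 1 w * GGF P F Y (Zb := Zb) B 2 w))

/-- mass of the strong letters, new laws -/
def QSF (B : ℝ) (i : Fin 3) (w : Om) : ℝ := ∑ x ∈ vals (F i), ind (B < rF P Zb F Y i w x) * qF' P Zb F Y i w x

/-- mean of the strong letters -/
theorem E_QS (hB : Real.exp 2 ≤ B) (i : Fin 3) (h1 : ∀ w, al w ≤ 1) :
    P.E (fun w => al w * QSF P (Zb := Zb) F Y B i w) ≤ gn P (Zb i) (F i) (Y i) := by
  refine le_trans (P.E_mono fun w hw => ?_) (strong_gain P (Zb i) (F i) (Y i) hB)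
  have e : QSF P (Zb := Zb) F Y B i w = ∑ x ∈ vals (F i), P.pv (Zb i) (F i) w x * hsg B (rr P (Zb i) (F i) (Y i) w (Y i w) x) := by
    unfold QSF
    refine Finset.sum_congr rfl fun x _ => ?_
    rw [← rq_F P F Y hw i x]
    unfold rF hsg
    show _ * (_ * P.pv (Zb i) (F i) w x) = _
    ring
  rw [← e]
  refine mul_le_of_le_one_left ?_ (h1 w)
  exact Finset.sum_nonneg fun x _ => mul_nonneg (ind_nonneg _) (P.pv_nonneg _ _ _ _)


include hZ in
/-- **KEY3, FINAL FORM** -/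
theorem key3z (hB : Real.exp 2 ≤ B) {d dd eta e1 e3 E e0 c1 c2 : ℝ} (hd : 0 ≤ d) (hdd : 0 ≤ dd) (heta : 0 ≤ eta)
    (heta1 : eta ≤ 1) (he1 : 0 ≤ e1) (heB : 1 + e1 ≤ B) (he3 : 0 < e3) (he31 : e3 ≤ 1) (hE : 1 ≤ E) (he0 : 0 ≤ e0)
    (heps : 0 ≤ eps)
    (hc1 : (1 + e1) ^ 2 - 1 + eta + (B ^ 2 * dd + d) ≤ c1) (hc2 : (1 + e1) ^ 2 + (B ^ 2 * dd + 1) ≤ c2)
    (hal : Fac Z al0) (h0 : ∀ w, 0 ≤ al w) (h01 : ∀ w, al w ≤ al0 w) (h1 : ∀ w, al0 w ≤ 1)
    {G a : Om → (Fin 3 → φ) → ℝ} {Reg : Om → (Fin 3 → φ) → Prop} {ai : Om → Fin 3 → φ → ℝ} {bd : Om → Fin 3 → φ → Prop}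
    {a0 : Om → ℝ} {Rz : Om → Prop} {H : Om → φ → φ → Prop} (ha0 : ∀ w f, 0 ≤ a w f) (ha1 : ∀ w f, a w f ≤ 1)
    (hai0 : ∀ w i x, 0 ≤ ai w i x) (hai1 : ∀ w i x, ai w i x ≤ 1) (hz0 : ∀ w, 0 ≤ a0 w) (hz1 : ∀ w, a0 w ≤ 1)
    -- the cut density
    (hG : ∀ w, P.p w ≠ 0 → al w ≠ 0 → ∀ f ∈ let_ F, ¬ Reg w f → G w f = pF P Z F w f / ∏ i, qF P Zb F i w (f i))
    (hGR : ∀ w, P.p w ≠ 0 → al w ≠ 0 → ∀ f ∈ let_ F, Reg w f → G w f ≤ eta)
    (hG0 : ∀ w, P.p w ≠ 0 → al w ≠ 0 → ∀ f ∈ let_ F, 0 ≤ G w f)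
    -- the release weight: weak tuples, one strong bad letter
    (haw : ∀ w, P.p w ≠ 0 → al w ≠ 0 → ∀ f ∈ let_ F, (¬ ∃ i, B < rF P Zb F Y i w (f i)) → ¬ Reg w f → a w f = a0 w)
    (hai : ∀ w, P.p w ≠ 0 → al w ≠ 0 → ∀ f ∈ let_ F, ∀ i, SBF P (Zb := Zb) F Y B bd i w (f i) →
      (∀ k, k ≠ i → ¬ bd w k (f k)) → a w f = ai w i (f i))
    (hai2 : ∀ w, P.p w ≠ 0 → al w ≠ 0 → ∀ f ∈ let_ F, ∀ i, SBF P (Zb := Zb) F Y B bd i w (f i) →
      (∀ k, k ≠ i → ¬ SBF P (Zb := Zb) F Y B bd k w (f k)) → a w f ≤ ai w i (f i))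
    -- the region
    (Ra : ∀ w, P.p w ≠ 0 → al w ≠ 0 → ∀ f ∈ let_ F, ∀ i, SBF P (Zb := Zb) F Y B bd i w (f i) → ∀ k, k ≠ i →
      1 + e1 < rF P Zb F Y k w (f k) → Reg w f)
    (Rb : ∀ w, P.p w ≠ 0 → al w ≠ 0 → ∀ f ∈ let_ F, ∀ i, B < rF P Zb F Y i w (f i) → bxF P F Y (Z := Z) (Zb := Zb) B d i w (f i) → Reg w f)
    (Rc : ∀ w, P.p w ≠ 0 → al w ≠ 0 → ∀ f ∈ let_ F, ∀ i k, i ≠ k → B < rF P Zb F Y i w (f i) → B < rF P Zb F Y k w (f k) →
      (1 + d) * ∏ j, qF P Zb F j w (f j) < pF P Z F w f → Reg w f)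
    (hgood : ∀ w, P.p w ≠ 0 → al w ≠ 0 → ∀ i, ∀ x ∈ vals (F i), B < rF P Zb F Y i w x → ¬ bd w i x →
      ∑ f ∈ let_ F, ind (f i = x) * |pF P Z F w f - mF P Z F i w (f i) * ∏ k ∈ univ.erase i, qF P Zb F k w (f k)| ≤
        dd * mF P Z F i w x)
    -- the weak tuples in the region: none off the thin strong points, `RPF` at them
    (hR1 : ∀ w, P.p w ≠ 0 → al w ≠ 0 → ¬ TqF P Z Zb Y B w → ∀ f ∈ let_ F, (¬ ∃ i, B < rF P Zb F Y i w (f i)) → ¬ Reg w f)
    (hR2 : ∀ w, P.p w ≠ 0 → al w ≠ 0 → TqF P Z Zb Y B w → ∀ f ∈ let_ F, (¬ ∃ i, B < rF P Zb F Y i w (f i)) →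
      (Reg w f ↔ RPF P Z Zb F Y B e3 E w f))
    -- decided thin strong points
    (hRz : ∀ w, P.p w ≠ 0 → al w ≠ 0 → TqF P Z Zb Y B w → ¬ Rz w → TVp P Z Zb F w ≤ e0)
    -- two tops
    (hpair : ∀ i k : Fin 3, i < k → ∀ l m : Om → φ → ℝ, (∀ x, Fac (Zb i) (fun w => l w x)) →
      (∀ y, Fac (Zb k) (fun w => m w y)) → (∀ w x, 0 ≤ l w x) → (∀ w y, 0 ≤ m w y) →
      P.E (fun w => ∑ x ∈ vals (F i), ∑ y ∈ vals (F k),
        al0 w * |mF2 P Z F i k w x y - qF P Zb F i w x * qF P Zb F k w y| * (l w x * m w y)) ≤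
        eps * Real.sqrt (P.E (fun w => ∑ x ∈ vals (F i), qF P Zb F i w x * l w x ^ 2) *
          P.E (fun w => ∑ y ∈ vals (F k), qF P Zb F k w y * m w y ^ 2)))
    -- the third top against a pair
    (hHf : ∀ x y, Fac Z (fun w => ind (H w x y)))
    (hH : ∀ w, P.p w ≠ 0 → al w ≠ 0 → ¬ TqF P Z Zb Y B w → ∀ x ∈ vals (F 0), ∀ y ∈ vals (F 1), ¬ H w x y →
      ∑ f ∈ let_ F, ind (f 0 = x ∧ f 1 = y) * |pF P Z F w f - mF2 P Z F 0 1 w x y * qF P Zb F 2 w (f 2)| ≤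
        dd * mF2 P Z F 0 1 w x y)
    (htrip : ∀ l m : Om → φ → ℝ, (∀ x, Fac (Zb 0) (fun w => l w x)) →
      (∀ y, Fac (Zb 1) (fun w => m w y)) → (∀ w x, 0 ≤ l w x) → (∀ w y, 0 ≤ m w y) →
      P.E (fun w => ∑ x ∈ vals (F 0), ∑ y ∈ vals (F 1),
        al0 w * (ind (H w x y) * mF2 P Z F 0 1 w x y) * (l w x * m w y)) ≤
        eps * Real.sqrt (P.E (fun w => ∑ x ∈ vals (F 0), qF P Zb F 0 w x * l w x ^ 2) *
          P.E (fun w => ∑ y ∈ vals (F 1), qF P Zb F 1 w y * m w y ^ 2))) :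
    P.E (fun w => al w * ∑ f ∈ let_ F, (∏ i, qF' P Zb F Y i w (f i)) * (a w f * (G w f - 1))) ≤
      ∑ i, FO1 P (Zb i) Z (F i) (Y i) B al +
      (c1 + c2 * d + (4 + 2 * B + B * dd) * (B ^ 2 * eps) + B ^ 2 * dd +
        (2 * B * ((1 + B) * Real.sqrt (e0 * (E + 1)) + (2 + B) * Real.sqrt (3 / E) + 2 * B ^ 3 / E * (1 / e3 ^ 2)) + 2 / B)) *
          ∑ i, gn P (Zb i) (F i) (Y i) +
      c2 * B * ∑ i, Gd P (Zb i) Z (F i) (Y i) al0 +
      (2 * B + 2 + 2 * B ^ 3 / E) * P.E (fun w => al w * (ind (TqF P Z Zb Y B w) * ∑ i, TVF P Z Zb F i w)) +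
      B * P.E (fun w => al w * ((1 - a0 w) * (ind (¬ TqF P Z Zb Y B w) * ∑ i, TVF P Z Zb F i w))) +
      P.E (fun w => al w * PRG P F Y (Zb := Zb) B bd ai w) +
      (1 + B) * P.E (fun w => al w * (ind (TqF P Z Zb Y B w) * (ind (Rz w) * (a0 w * SQF P F Y (Zb := Zb) B E w)))) +
      (1 + B) * P.E (fun w => al w * (ind (TqF P Z Zb Y B w) *
        (KPF P Z Zb F Y E 0 1 w + KPF P Z Zb F Y E 0 2 w + KPF P Z Zb F Y E 1 2 w))) +
      (B + 2) * e3 * P.E (fun w => al w * (ind (TqF P Z Zb Y B w) *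
        (MPF P Z Zb F E 0 1 w + MPF P Z Zb F E 0 2 w + MPF P Z Zb F E 1 2 w))) := by
  classical
  have hB1 : 1 ≤ B := by
    have := Real.add_one_le_exp 2
    linarith
  have hB0 : 0 ≤ B := by linarith
  have hE0 : 0 < E := by linarith
  have hpw1 : (1 : ℝ) ≤ (1 + e1) ^ 2 := one_le_pow₀ (by linarith)
  have hc10 : 0 ≤ c1 := by
    have : 0 ≤ B ^ 2 * dd := by positivity
    linarith
  have hc20 : 0 ≤ c2 := by
    have : 0 ≤ B ^ 2 * dd := by positivity
    linarith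
  set CC : ℝ := (1 + B) * Real.sqrt (e0 * (E + 1)) + (2 + B) * Real.sqrt (3 / E) + 2 * B ^ 3 / E * (1 / e3 ^ 2) with hCC
  have hCC0 : 0 ≤ CC := by positivity
  set Tq : Om → Prop := TqF P Z Zb Y B with hTq
  -- one point
  have A1 : ∀ w, P.p w ≠ 0 → al w * ∑ f ∈ let_ F, (∏ i, qF' P Zb F Y i w (f i)) * (a w f * (G w f - 1)) ≤
      al w * (ind (¬ Tq w) * (a0 w * (∑ i, phi1 P (Zb i) Z (F i) (Y i) B w (Y i w) +
        ((2 + B * dd) * PAF P F Y (Z := Z) (Zb := Zb) B 0 1 w + PAF P F Y (Z := Z) (Zb := Zb) B 0 2 w +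
          PAF P F Y (Z := Z) (Zb := Zb) B 1 2 w) +
        B * dd * (mxF P F Y (Zb := Zb) B 0 w * mxF P F Y (Zb := Zb) B 1 w) +
        2 * B * HBF P F Y (Z := Z) (Zb := Zb) B H w))) +
        (B + 2 + 2 * B ^ 3 / E) * (al w * (ind (Tq w) * ∑ i, TVF P Z Zb F i w)) +
        CC * (∑ i, al w * GGF P F Y (Zb := Zb) B i w) + 2 / B * (∑ i, al w * QSF P (Zb := Zb) F Y B i w) +
        (1 + B) * (al w * (ind (Tq w) * (ind (Rz w) * (a0 w * SQF P F Y (Zb := Zb) B E w)))) +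
        (1 + B) * (al w * (ind (Tq w) * (KPF P Z Zb F Y E 0 1 w + KPF P Z Zb F Y E 0 2 w + KPF P Z Zb F Y E 1 2 w))) +
        (B + 2) * e3 * (al w * (ind (Tq w) * (MPF P Z Zb F E 0 1 w + MPF P Z Zb F E 0 2 w + MPF P Z Zb F E 1 2 w))) +
        al w * STF P F Y (Z := Z) (Zb := Zb) B d c1 c2 w + al w * PRG P F Y (Zb := Zb) B bd ai w := by
    intro w hw
    by_cases hal0 : al w = 0
    · rw [hal0]
      simp only [zero_mul, mul_zero, add_zero, Finset.sum_const_zero, le_refl]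
    set t := tK P F Y hZ hw with ht
    have hr : ∀ i x, t.r i x = rF P Zb F Y i w x := tK_r P F Y hZ hw
    have hmg : ∀ i x, t.mg i x = mF P Z F i w x := tK_mg P F Y hZ hw
    have hmg2 : ∀ i k x y, t.mg2 i k x y = mF2 P Z F i k w x y := tK_mg2 P F Y hZ hw
    have hxi : ∀ i x, t.xi B i x = xF P F Y (Zb := Zb) B i w x := tK_xi P F Y hZ hw B
    have hq : ∀ i x, t.q i x = qF P Zb F i w x := fun i x => rfl
    have hsh : ∀ i k x y, t.shp E i k x y ↔ shF P Z Zb F E i k w x y := by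
      intro i k x y
      unfold KT.shp shF
      rw [hmg2]
      exact Iff.rfl
    have hRP : ∀ f, t.RP B e3 E f ↔ RPF P Z Zb F Y B e3 E w f := by
      intro f
      unfold KT.RP RPF
      simp only [hr, hsh]
    have fG : ∀ i, t.gg B i = GGF P F Y (Zb := Zb) B i w := by
      intro i
      unfold KT.gg GGF
      refine Finset.sum_congr rfl fun x _ => ?_
      rw [hxi]
      rfl
    have fT : ∀ i, t.tvi i = TVF P Z Zb F i w := by
      intro i
      unfold KT.tvi TVF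
      refine Finset.sum_congr rfl fun x _ => ?_
      rw [hmg]
      rfl
    have fK : ∀ i k, t.KP E i k = KPF P Z Zb F Y E i k w := by
      intro i k
      unfold KT.KP KPF
      refine Finset.sum_congr rfl fun x _ => Finset.sum_congr rfl fun y _ => ?_
      rw [hmg2, hr, hr, show ind (t.shp E i k x y) = ind (shF P Z Zb F E i k w x y) from by rw [propext (hsh i k x y)]]
    have fM : ∀ i k, t.MP E i k = MPF P Z Zb F E i k w := by
      intro i k
      unfold KT.MP MPF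
      refine Finset.sum_congr rfl fun x _ => Finset.sum_congr rfl fun y _ => ?_
      rw [hmg2, show ind (t.shp E i k x y) = ind (shF P Z Zb F E i k w x y) from by rw [propext (hsh i k x y)]]
    have fQ : ∑ i, ∑ x ∈ vals (F i), ind (B < t.r i x) * t.q' i x = ∑ i, QSF P (Zb := Zb) F Y B i w := by
      refine Finset.sum_congr rfl fun i _ => ?_
      unfold QSF
      refine Finset.sum_congr rfl fun x _ => ?_
      rw [hr]
      rfl
    have fV : t.tv = TVp P Z Zb F w := rfl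
    have gG0 : ∀ i, 0 ≤ GGF P F Y (Zb := Zb) B i w := fun i => by rw [← fG]; exact t.gg_nn B i
    have gQ0 : 0 ≤ ∑ i, QSF P (Zb := Zb) F Y B i w := by
      rw [← fQ]
      exact Finset.sum_nonneg fun i _ => Finset.sum_nonneg fun x hx => mul_nonneg (ind_nonneg _) (t.q'_nn i x hx)
    have gS0 : 0 ≤ ∑ i, GGF P F Y (Zb := Zb) B i w := Finset.sum_nonneg fun i _ => gG0 i
    have main : ∑ f ∈ let_ F, (∏ i, qF' P Zb F Y i w (f i)) * (a w f * (G w f - 1)) ≤
        ind (¬ Tq w) * (a0 w * (∑ i, phi1 P (Zb i) Z (F i) (Y i) B w (Y i w) +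
        ((2 + B * dd) * PAF P F Y (Z := Z) (Zb := Zb) B 0 1 w + PAF P F Y (Z := Z) (Zb := Zb) B 0 2 w +
          PAF P F Y (Z := Z) (Zb := Zb) B 1 2 w) +
        B * dd * (mxF P F Y (Zb := Zb) B 0 w * mxF P F Y (Zb := Zb) B 1 w) +
        2 * B * HBF P F Y (Z := Z) (Zb := Zb) B H w)) +
        (B + 2 + 2 * B ^ 3 / E) * (ind (Tq w) * ∑ i, TVF P Z Zb F i w) +
        CC * (∑ i, GGF P F Y (Zb := Zb) B i w) + 2 / B * (∑ i, QSF P (Zb := Zb) F Y B i w) +
        (1 + B) * (ind (Tq w) * (ind (Rz w) * (a0 w * SQF P F Y (Zb := Zb) B E w))) +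
        (1 + B) * (ind (Tq w) * (KPF P Z Zb F Y E 0 1 w + KPF P Z Zb F Y E 0 2 w + KPF P Z Zb F Y E 1 2 w)) +
        (B + 2) * e3 * (ind (Tq w) * (MPF P Z Zb F E 0 1 w + MPF P Z Zb F E 0 2 w + MPF P Z Zb F E 1 2 w)) +
          STF P F Y (Z := Z) (Zb := Zb) B d c1 c2 w + PRG P F Y (Zb := Zb) B bd ai w := by
      have k2 := t.strong_le2 (B := B) (d := d) (dd := dd) (eta := eta) (e1 := e1) (bd := bd w)
        (bx := fun i x => bxF P F Y (Z := Z) (Zb := Zb) B d i w x) (Reg := Reg w) (G := G w) (a := a w) (ai := ai w)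
        hB1 hd hdd heta heta1 he1 heB (hG w hw hal0) (hGR w hw hal0) (hG0 w hw hal0) (ha0 w) (ha1 w) (hai0 w) (hai1 w)
        (fun f hf i hi hk => hai w hw hal0 f hf i (by unfold SBF; unfold KT.SB at hi; rw [hr] at hi; exact hi) hk)
        (fun f hf i hi hk => hai2 w hw hal0 f hf i (by unfold SBF; unfold KT.SB at hi; rw [hr] at hi; exact hi)
          (fun k hki hs => hk k hki (by unfold KT.SB; rw [hr]; exact hs)))
        (fun f hf i hi k hki hk => Ra w hw hal0 f hf i (by unfold SBF; unfold KT.SB at hi; rw [hr] at hi; exact hi) k hki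
          (by rw [hr] at hk; exact hk))
        (fun f hf i hi hb => Rb w hw hal0 f hf i (by rw [hr] at hi; exact hi) hb)
        (fun f hf i k hik hi hk hp => Rc w hw hal0 f hf i k hik (by rw [hr] at hi; exact hi) (by rw [hr] at hk; exact hk) hp)
        (fun i x hx hs hb => by
          have := hgood w hw hal0 i x hx (by rw [hr] at hs; exact hs) hb
          rw [hmg]
          refine le_trans (le_of_eq (Finset.sum_congr rfl fun f _ => ?_)) this
          unfold KT.rowd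
          rw [hmg]
          rfl)
        (c1 := c1) (c2 := c2) hc1 hc2
      have k3 := t.split_sum (B := B) (fun f => (∏ i, t.q' i (f i)) * (a w f * (G w f - 1)))
      have e3' : ∑ i, ∑ x ∈ vals (F i), ind (B < t.r i x) * (c1 * t.q' i x + c2 * (t.r i x *
          (ind (¬ bxF P F Y (Z := Z) (Zb := Zb) B d i w x) * t.ke i x))) =
          STF P F Y (Z := Z) (Zb := Zb) B d c1 c2 w := by
        unfold STF KT.ke
        refine Finset.sum_congr rfl fun i _ => Finset.sum_congr rfl fun x _ => ?_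
        rw [hr, hmg]
        rfl
      have e4 : ∑ i, t.Qa B (bd w) (ai w) i * ∑ k ∈ univ.erase i, t.Qb (bd w) k =
          PRG P F Y (Zb := Zb) B bd ai w := by
        unfold KT.Qa KT.Qb PRG
        refine Finset.sum_congr rfl fun i _ => ?_
        congr 1
        refine Finset.sum_congr rfl fun x _ => ?_
        unfold KT.SB SBF
        rw [hr]
        rfl
      rw [e3', e4] at k2
      refine le_trans (le_of_eq k3) ?_
      have n1 : 0 ≤ CC * ∑ i, GGF P F Y (Zb := Zb) B i w := mul_nonneg hCC0 gS0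
      have n2 : 0 ≤ 2 / B * ∑ i, QSF P (Zb := Zb) F Y B i w := mul_nonneg (by positivity) gQ0
      by_cases hT : Tq w
      · have k1 := t.ss_fin (B := B) (e0 := e0) (e3 := e3) (E := E) (a0 := a0 w) (Reg := Reg w) (G := G w) (a := a w)
          hB1 he3 he31 hE he0 (hz0 w) (hz1 w) (rz := Rz w) (fun h => hRz w hw hal0 hT h) (hG w hw hal0)
          (fun f hf hR => (hGR w hw hal0 f hf hR).trans heta1)
          (fun f hf hs => (hR2 w hw hal0 hT f hf (fun ⟨i, hi⟩ => hs ⟨i, by rw [hr]; exact hi⟩)).trans (hRP f).symm)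
          (ha0 w)
          (fun f hf hs hR => haw w hw hal0 f hf (fun ⟨i, hi⟩ => hs ⟨i, by rw [hr]; exact hi⟩) hR)
        rw [ind_not (not_not.2 hT), ind_of hT]
        rw [fQ] at k1
        simp only [fT, fG, fK, fM] at k1
        have e6 : Real.sqrt (2 * (E + 1) * (GGF P F Y (Zb := Zb) B 0 w * GGF P F Y (Zb := Zb) B 1 w)) +
            Real.sqrt (2 * (E + 1) * (GGF P F Y (Zb := Zb) B 0 w * GGF P F Y (Zb := Zb) B 2 w)) +
            Real.sqrt (2 * (E + 1) * (GGF P F Y (Zb := Zb) B 1 w * GGF P F Y (Zb := Zb) B 2 w)) =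
            SQF P F Y (Zb := Zb) B E w := rfl
        rw [e6, ← hCC] at k1
        simp only [one_mul, zero_mul, zero_add]
        linarith
      · have k1 := t.weak_a0 (B := B) (a0 := a0 w) (Reg := Reg w) (G := G w) (a := a w) (hG w hw hal0)
          (fun f hf hs => hR1 w hw hal0 hT f hf (fun ⟨i, hi⟩ => hs ⟨i, by rw [hr]; exact hi⟩))
          (fun f hf hs hR => haw w hw hal0 f hf (fun ⟨i, hi⟩ => hs ⟨i, by rw [hr]; exact hi⟩) hR)
        have k4 := t.WK_le (B := B) hB1 hdd (H := H w) (fun x hx y hy hxy => by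
          have := hH w hw hal0 hT x hx y hy hxy
          rw [hmg2]
          refine le_trans (le_of_eq (Finset.sum_congr rfl fun f _ => ?_)) this
          rw [hmg2]
          rfl)
        have f2 : ∀ i, t.ph B i = phi1 P (Zb i) Z (F i) (Y i) B w (Y i w) := by
          intro i
          unfold KT.ph phi1
          refine Finset.sum_congr rfl fun x _ => ?_
          rw [hmg, hxi]
          rfl
        have f3 : ∀ i k, t.PA B i k = PAF P F Y (Z := Z) (Zb := Zb) B i k w := by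
          intro i k
          unfold KT.PA PAF
          refine Finset.sum_congr rfl fun x _ => Finset.sum_congr rfl fun y _ => ?_
          rw [hmg2, hxi, hxi]
          rfl
        have f4 : t.HB B (H w) = HBF P F Y (Z := Z) (Zb := Zb) B H w := by
          unfold KT.HB HBF
          refine Finset.sum_congr rfl fun x _ => Finset.sum_congr rfl fun y _ => ?_
          rw [hmg2, hxi, hxi]
        have f5 : ∀ i, t.mx B i = mxF P F Y (Zb := Zb) B i w := by
          intro i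
          unfold KT.mx mxF
          refine Finset.sum_congr rfl fun x _ => ?_
          rw [hxi]
          rfl
        simp only [f2, f3, f4, f5] at k4
        have k5 := mul_le_mul_of_nonneg_left k4 (hz0 w)
        rw [ind_of hT, ind_not hT]
        simp only [one_mul, zero_mul, mul_zero, add_zero]
        linarith
    have h := mul_le_mul_of_nonneg_left main (h0 w)
    rw [← Finset.mul_sum, ← Finset.mul_sum]
    refine h.trans (le_of_eq ?_)
    ring
  -- the weak part at a point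
  set m : Fin 3 → Om → ℝ := fun i w => mxF P F Y (Zb := Zb) B i w with hm
  have hm0 : ∀ i w, 0 ≤ m i w := fun i w => Finset.sum_nonneg fun x _ => mul_nonneg (P.pv_nonneg _ _ _ _) (abs_nonneg _)
  have hPA0 : ∀ i k w, 0 ≤ PAF P F Y (Z := Z) (Zb := Zb) B i k w := fun i k w => Finset.sum_nonneg fun x _ =>
    Finset.sum_nonneg fun y _ => mul_nonneg (abs_nonneg _) (mul_nonneg (abs_nonneg _) (abs_nonneg _))
  have hHB0 : ∀ w, 0 ≤ HBF P F Y (Z := Z) (Zb := Zb) B H w := fun w => Finset.sum_nonneg fun x _ =>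
    Finset.sum_nonneg fun y _ => mul_nonneg (mul_nonneg (ind_nonneg _) (P.pv_nonneg _ _ _ _))
      (mul_nonneg (abs_nonneg _) (abs_nonneg _))
  have hTV0 : ∀ i w, 0 ≤ TVF P Z Zb F i w := fun i w => Finset.sum_nonneg fun x _ => abs_nonneg _
  have A2 : ∀ w, P.p w ≠ 0 → al w * (ind (¬ Tq w) * (a0 w * (∑ i, phi1 P (Zb i) Z (F i) (Y i) B w (Y i w) +
        ((2 + B * dd) * PAF P F Y (Z := Z) (Zb := Zb) B 0 1 w + PAF P F Y (Z := Z) (Zb := Zb) B 0 2 w +
          PAF P F Y (Z := Z) (Zb := Zb) B 1 2 w) +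
        B * dd * (mxF P F Y (Zb := Zb) B 0 w * mxF P F Y (Zb := Zb) B 1 w) +
        2 * B * HBF P F Y (Z := Z) (Zb := Zb) B H w))) ≤
      ∑ i, al w * (ind (¬ B < tau P (Zb i) Z (Y i) w (Y i w)) * phi1 P (Zb i) Z (F i) (Y i) B w (Y i w)) +
      B * (al w * (ind (Tq w) * ∑ i, TVF P Z Zb F i w)) +
      B * (al w * ((1 - a0 w) * (ind (¬ Tq w) * ∑ i, TVF P Z Zb F i w))) +
      ((2 + B * dd) * (ind (¬ B < tF P Z Zb Y 0 w) * ind (¬ B < tF P Z Zb Y 1 w) *
          (al0 w * PAF P F Y (Z := Z) (Zb := Zb) B 0 1 w)) +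
        ind (¬ B < tF P Z Zb Y 0 w) * ind (¬ B < tF P Z Zb Y 2 w) * (al0 w * PAF P F Y (Z := Z) (Zb := Zb) B 0 2 w) +
        ind (¬ B < tF P Z Zb Y 1 w) * ind (¬ B < tF P Z Zb Y 2 w) * (al0 w * PAF P F Y (Z := Z) (Zb := Zb) B 1 2 w)) +
      2 * B * (ind (¬ B < tF P Z Zb Y 0 w) * ind (¬ B < tF P Z Zb Y 1 w) *
        (al0 w * HBF P F Y (Z := Z) (Zb := Zb) B H w)) +
      B * dd * (m 0 w * m 1 w) := by
    intro w hw
    set t := tK P F Y hZ hw with ht
    have hmg : ∀ i x, t.mg i x = mF P Z F i w x := tK_mg P F Y hZ hw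
    have hxi : ∀ i x, t.xi B i x = xF P F Y (Zb := Zb) B i w x := tK_xi P F Y hZ hw B
    have e2' : ∀ i, t.ph B i = phi1 P (Zb i) Z (F i) (Y i) B w (Y i w) := by
      intro i
      unfold KT.ph phi1
      refine Finset.sum_congr rfl fun x _ => ?_
      rw [hmg, hxi]
      rfl
    have a0' := h0 w
    have a01 := h01 w
    have a1 := a01.trans (h1 w)
    have a00 := a0'.trans a01
    have z0 := hz0 w
    have z1 := hz1 w
    have mm : ∀ i k, 0 ≤ m i w * m k w := fun i k => mul_nonneg (hm0 i w) (hm0 k w)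
    have n1 : 0 ≤ B * dd * (m 0 w * m 1 w) := mul_nonneg (by positivity) (mm 0 1)
    have q0 : ∀ i, |phi1 P (Zb i) Z (F i) (Y i) B w (Y i w)| ≤ B * TVF P Z Zb F i w := by
      intro i
      rw [← e2' i]
      refine (t.abs_ph_le hB1 i).trans (mul_le_mul_of_nonneg_left ?_ hB0)
      refine le_of_eq (Finset.sum_congr rfl fun x _ => ?_)
      rw [hmg]
      rfl
    have b : ∀ i, -(B * (al w * TVF P Z Zb F i w)) ≤ al w * (ind (¬ B < tau P (Zb i) Z (Y i) w (Y i w)) *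
        phi1 P (Zb i) Z (F i) (Y i) B w (Y i w)) := fun i => by
      have b1 : |al w * (ind (¬ B < tau P (Zb i) Z (Y i) w (Y i w)) * phi1 P (Zb i) Z (F i) (Y i) B w (Y i w))| ≤
          B * (al w * TVF P Z Zb F i w) := by
        rw [abs_mul, abs_mul, abs_of_nonneg a0', abs_of_nonneg (ind_nonneg _)]
        have b2 := mul_le_of_le_one_left (abs_nonneg (phi1 P (Zb i) Z (F i) (Y i) B w (Y i w)))
          (ind_le_one (¬ B < tau P (Zb i) Z (Y i) w (Y i w)))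
        have b3 := mul_le_mul_of_nonneg_left (b2.trans (q0 i)) a0'
        linarith
      exact (abs_le.1 b1).1
    have i2 : ∀ i k, 0 ≤ ind (¬ B < tF P Z Zb Y i w) * ind (¬ B < tF P Z Zb Y k w) := fun i k =>
      mul_nonneg (ind_nonneg _) (ind_nonneg _)
    have p01 := mul_nonneg (i2 0 1) (mul_nonneg a00 (hPA0 0 1 w))
    have p02 := mul_nonneg (i2 0 2) (mul_nonneg a00 (hPA0 0 2 w))
    have p12 := mul_nonneg (i2 1 2) (mul_nonneg a00 (hPA0 1 2 w))
    have ph := mul_nonneg (i2 0 1) (mul_nonneg a00 (hHB0 w))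
    have p01' := mul_nonneg (show 0 ≤ 2 + B * dd by positivity) p01
    have ph' := mul_nonneg (show 0 ≤ 2 * B by positivity) ph
    by_cases hT : Tq w
    · rw [ind_not (not_not.2 hT), ind_of hT, zero_mul, mul_zero, Fin.sum_univ_three, Fin.sum_univ_three]
      have b0 := b 0
      have b1 := b 1
      have b2 := b 2
      simp only [one_mul, zero_mul, mul_zero, add_zero]
      linarith
    · have hi : ∀ i, ind (¬ B < tau P (Zb i) Z (Y i) w (Y i w)) = 1 := fun i =>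
        ind_of (fun h => hT ⟨i, h⟩)
      have hi2 : ∀ i, ind (¬ B < tF P Z Zb Y i w) = 1 := fun i => hi i
      rw [ind_not hT, ind_of hT]
      simp only [hi, hi2, one_mul, zero_mul, mul_zero, add_zero]
      rw [← Finset.mul_sum]
      -- the weight `a0`
      have az : 0 ≤ al w * a0 w := mul_nonneg a0' z0
      have az1 : al w * a0 w ≤ al0 w := (mul_le_of_le_one_right a0' z1).trans a01
      have az2 : al w * a0 w ≤ 1 := az1.trans (h1 w)
      have r1 := mul_le_mul_of_nonneg_right az1 (hPA0 0 1 w)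
      have r1' := mul_le_mul_of_nonneg_left r1 (show 0 ≤ 2 + B * dd by positivity)
      have r2 := mul_le_mul_of_nonneg_right az1 (hPA0 0 2 w)
      have r3 := mul_le_mul_of_nonneg_right az1 (hPA0 1 2 w)
      have r4 := mul_le_mul_of_nonneg_right az1 (hHB0 w)
      have r4' := mul_le_mul_of_nonneg_left r4 (show 0 ≤ 2 * B by positivity)
      have r5 := mul_le_of_le_one_left n1 az2
      have hmm : m 0 w * m 1 w = mxF P F Y (Zb := Zb) B 0 w * mxF P F Y (Zb := Zb) B 1 w := rfl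
      rw [hmm] at r5 ⊢
      have r6 : -(∑ i, phi1 P (Zb i) Z (F i) (Y i) B w (Y i w)) ≤ B * ∑ i, TVF P Z Zb F i w := by
        rw [← Finset.sum_neg_distrib, Finset.mul_sum]
        exact Finset.sum_le_sum fun i _ => by
          have := (abs_le.1 (q0 i)).1
          linarith
      have r7 := mul_le_mul_of_nonneg_left r6 (mul_nonneg a0' (sub_nonneg.2 z1))
      have e9 : al w * (a0 w * (∑ i, phi1 P (Zb i) Z (F i) (Y i) B w (Y i w) +
        ((2 + B * dd) * PAF P F Y (Z := Z) (Zb := Zb) B 0 1 w + PAF P F Y (Z := Z) (Zb := Zb) B 0 2 w +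
          PAF P F Y (Z := Z) (Zb := Zb) B 1 2 w) +
        B * dd * (mxF P F Y (Zb := Zb) B 0 w * mxF P F Y (Zb := Zb) B 1 w) +
        2 * B * HBF P F Y (Z := Z) (Zb := Zb) B H w)) =
        al w * ∑ i, phi1 P (Zb i) Z (F i) (Y i) B w (Y i w) +
        al w * (1 - a0 w) * -(∑ i, phi1 P (Zb i) Z (F i) (Y i) B w (Y i w)) +
        ((2 + B * dd) * (al w * a0 w * PAF P F Y (Z := Z) (Zb := Zb) B 0 1 w) +
          al w * a0 w * PAF P F Y (Z := Z) (Zb := Zb) B 0 2 w + al w * a0 w * PAF P F Y (Z := Z) (Zb := Zb) B 1 2 w) +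
        al w * a0 w * (B * dd * (mxF P F Y (Zb := Zb) B 0 w * mxF P F Y (Zb := Zb) B 1 w)) +
        2 * B * (al w * a0 w * HBF P F Y (Z := Z) (Zb := Zb) B H w) := by ring
      rw [e9]
      linarith
  have h00 : ∀ w, 0 ≤ al0 w := fun w => (h0 w).trans (h01 w)
  have hal1 : ∀ w, al w ≤ 1 := fun w => (h01 w).trans (h1 w)
  -- pairs
  have B1 : ∀ i k : Fin 3, i < k → P.E (fun w => ind (¬ B < tF P Z Zb Y i w) * ind (¬ B < tF P Z Zb Y k w) *
      (al0 w * PAF P F Y (Z := Z) (Zb := Zb) B i k w)) ≤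
      B ^ 2 * eps * (gn P (Zb i) (F i) (Y i) + gn P (Zb k) (F k) (Y k)) := by
    intro i k hik
    have h2 := pair_gen2 P F Y hZ (eps := eps) hB i k
      (fun w x y => al0 w * |mF2 P Z F i k w x y - qF P Zb F i w x * qF P Zb F k w y|)
      (fun x y a b hab => by
        show al0 a * |mF2 P Z F i k a x y - qF P Zb F i a x * qF P Zb F k a y| =
          al0 b * |mF2 P Z F i k b x y - qF P Zb F i b x * qF P Zb F k b y|
        unfold mF2 qF
        rw [hal a b hab, pvc P _ hab (x, y), pvc P (F i) (hZ i a b hab) x, pvc P (F k) (hZ k a b hab) y])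
      (fun w x y => mul_nonneg (h00 w) (abs_nonneg _)) (hpair i k hik) heps
    refine le_trans (le_of_eq (P.E_congr fun w _ => ?_)) h2
    unfold PAF
    rw [Finset.mul_sum, Finset.mul_sum]
    refine Finset.sum_congr rfl fun x _ => ?_
    rw [Finset.mul_sum, Finset.mul_sum]
    refine Finset.sum_congr rfl fun y _ => ?_
    ring
  have B2 : P.E (fun w => ind (¬ B < tF P Z Zb Y 0 w) * ind (¬ B < tF P Z Zb Y 1 w) *
      (al0 w * HBF P F Y (Z := Z) (Zb := Zb) B H w)) ≤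
      B ^ 2 * eps * (gn P (Zb 0) (F 0) (Y 0) + gn P (Zb 1) (F 1) (Y 1)) := by
    have h2 := pair_gen2 P F Y hZ (eps := eps) hB 0 1
      (fun w x y => al0 w * (ind (H w x y) * mF2 P Z F 0 1 w x y))
      (fun x y a b hab => by
        have g := hHf x y a b hab
        simp only at g
        show al0 a * (ind (H a x y) * mF2 P Z F 0 1 a x y) = al0 b * (ind (H b x y) * mF2 P Z F 0 1 b x y)
        unfold mF2
        rw [hal a b hab, g, pvc P _ hab (x, y)])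
      (fun w x y => mul_nonneg (h00 w) (mul_nonneg (ind_nonneg _) (P.pv_nonneg _ _ _ _))) htrip heps
    refine le_trans (le_of_eq (P.E_congr fun w _ => ?_)) h2
    unfold HBF
    rw [Finset.mul_sum, Finset.mul_sum]
    refine Finset.sum_congr rfl fun x _ => ?_
    rw [Finset.mul_sum, Finset.mul_sum]
    refine Finset.sum_congr rfl fun y _ => ?_
    ring
  have B4 : ∀ i k : Fin 3, P.E (fun w => m i w * m k w) ≤ B * (gn P (Zb i) (F i) (Y i) + gn P (Zb k) (F k) (Y k)) :=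
    fun i k => E_mx_mul P F Y (Zb := Zb) hB i k
  have hST0 : ∀ w, 0 ≤ STF P F Y (Z := Z) (Zb := Zb) B d c1 c2 w := fun w => Finset.sum_nonneg fun i _ =>
    Finset.sum_nonneg fun x _ => mul_nonneg (ind_nonneg _) (add_nonneg (mul_nonneg hc10 (P.pv_nonneg _ _ _ _))
      (mul_nonneg hc20 (mul_nonneg (rr_nn P _ _ _ _ _ _) (mul_nonneg (ind_nonneg _) (le_max_right _ _)))))
  have B6 : P.E (fun w => al w * STF P F Y (Z := Z) (Zb := Zb) B d c1 c2 w) ≤ ∑ i, ((c1 + c2 * d) *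
      gn P (Zb i) (F i) (Y i) + c2 * (B * Gd P (Zb i) Z (F i) (Y i) al0)) :=
    (P.E_mono fun w _ => mul_le_mul_of_nonneg_right (h01 w) (hST0 w)).trans (E_ST P F Y hZ hB hd hc10 hc20 hal h00 h1)
  set S : ℝ := ∑ i, gn P (Zb i) (F i) (Y i) with hS
  have B7 : P.E (fun w => ∑ i, al w * GGF P F Y (Zb := Zb) B i w) ≤ 2 * B * S := by
    rw [P.E_sum, hS, Finset.mul_sum]
    exact Finset.sum_le_sum fun i _ => E_GG P F Y hB i hal1
  have B8 : P.E (fun w => ∑ i, al w * QSF P (Zb := Zb) F Y B i w) ≤ S := by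
    rw [P.E_sum, hS]
    exact Finset.sum_le_sum fun i _ => E_QS P F Y hB i hal1
  -- the weak part in the mean
  have C1 : P.E (fun w => al w * (ind (¬ Tq w) * (a0 w * (∑ i, phi1 P (Zb i) Z (F i) (Y i) B w (Y i w) +
        ((2 + B * dd) * PAF P F Y (Z := Z) (Zb := Zb) B 0 1 w + PAF P F Y (Z := Z) (Zb := Zb) B 0 2 w +
          PAF P F Y (Z := Z) (Zb := Zb) B 1 2 w) +
        B * dd * (mxF P F Y (Zb := Zb) B 0 w * mxF P F Y (Zb := Zb) B 1 w) +
        2 * B * HBF P F Y (Z := Z) (Zb := Zb) B H w)))) ≤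
      ∑ i, FO1 P (Zb i) Z (F i) (Y i) B al +
      B * P.E (fun w => al w * (ind (Tq w) * ∑ i, TVF P Z Zb F i w)) +
      B * P.E (fun w => al w * ((1 - a0 w) * (ind (¬ Tq w) * ∑ i, TVF P Z Zb F i w))) +
      ((2 + B * dd) * (B ^ 2 * eps * (gn P (Zb 0) (F 0) (Y 0) + gn P (Zb 1) (F 1) (Y 1))) +
        B ^ 2 * eps * (gn P (Zb 0) (F 0) (Y 0) + gn P (Zb 2) (F 2) (Y 2)) +
        B ^ 2 * eps * (gn P (Zb 1) (F 1) (Y 1) + gn P (Zb 2) (F 2) (Y 2))) +
      2 * B * (B ^ 2 * eps * (gn P (Zb 0) (F 0) (Y 0) + gn P (Zb 1) (F 1) (Y 1))) +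
      B * dd * (B * (gn P (Zb 0) (F 0) (Y 0) + gn P (Zb 1) (F 1) (Y 1))) := by
    refine (P.E_mono A2).trans ?_
    simp only [P.E_add, P.E_smul]
    have e0' : P.E (fun w => ∑ i, al w * (ind (¬ B < tau P (Zb i) Z (Y i) w (Y i w)) *
        phi1 P (Zb i) Z (F i) (Y i) B w (Y i w))) = ∑ i, P.E (fun w => al w * (ind (¬ B < tau P (Zb i) Z (Y i) w (Y i w)) *
        phi1 P (Zb i) Z (F i) (Y i) B w (Y i w))) := P.E_sum _ _
    rw [e0']
    have g1 : ∑ i, P.E (fun w => al w * (ind (¬ B < tau P (Zb i) Z (Y i) w (Y i w)) *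
        phi1 P (Zb i) Z (F i) (Y i) B w (Y i w))) = ∑ i, FO1 P (Zb i) Z (F i) (Y i) B al := rfl
    have e4 : P.E (fun w => (2 + B * dd) * (ind (¬ B < tF P Z Zb Y 0 w) * ind (¬ B < tF P Z Zb Y 1 w) *
        (al0 w * PAF P F Y (Z := Z) (Zb := Zb) B 0 1 w))) = (2 + B * dd) * P.E (fun w => ind (¬ B < tF P Z Zb Y 0 w) *
        ind (¬ B < tF P Z Zb Y 1 w) * (al0 w * PAF P F Y (Z := Z) (Zb := Zb) B 0 1 w)) := P.E_smul _ _
    have g3 := mul_le_mul_of_nonneg_left (B1 0 1 (by decide)) (show 0 ≤ 2 + B * dd by positivity)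
    have g4 := B1 0 2 (by decide)
    have g5 := B1 1 2 (by decide)
    have g6 := mul_le_mul_of_nonneg_left B2 (show 0 ≤ 2 * B by positivity)
    have g7 := mul_le_mul_of_nonneg_left (B4 0 1) (show 0 ≤ B * dd by positivity)
    simp only [mul_assoc] at e4 g3 g4 g5 g6 g7 g1 ⊢
    linarith
  have g0 := gn_nn P (Zb 0) (F 0) (Y 0)
  have g1 := gn_nn P (Zb 1) (F 1) (Y 1)
  have g2 := gn_nn P (Zb 2) (F 2) (Y 2)
  have C2 := (P.E_mono A1)
  simp only [P.E_add, P.E_smul] at C2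
  refine C2.trans ?_
  have hS3 : S = gn P (Zb 0) (F 0) (Y 0) + gn P (Zb 1) (F 1) (Y 1) + gn P (Zb 2) (F 2) (Y 2) := Fin.sum_univ_three _
  have p01 : gn P (Zb 0) (F 0) (Y 0) + gn P (Zb 1) (F 1) (Y 1) ≤ S := by linarith
  have p02 : gn P (Zb 0) (F 0) (Y 0) + gn P (Zb 2) (F 2) (Y 2) ≤ S := by linarith
  have p12 : gn P (Zb 1) (F 1) (Y 1) + gn P (Zb 2) (F 2) (Y 2) ≤ S := by linarith
  have D1 : (2 + B * dd) * (B ^ 2 * eps * (gn P (Zb 0) (F 0) (Y 0) + gn P (Zb 1) (F 1) (Y 1))) +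
        B ^ 2 * eps * (gn P (Zb 0) (F 0) (Y 0) + gn P (Zb 2) (F 2) (Y 2)) +
        B ^ 2 * eps * (gn P (Zb 1) (F 1) (Y 1) + gn P (Zb 2) (F 2) (Y 2)) +
      2 * B * (B ^ 2 * eps * (gn P (Zb 0) (F 0) (Y 0) + gn P (Zb 1) (F 1) (Y 1))) +
      B * dd * (B * (gn P (Zb 0) (F 0) (Y 0) + gn P (Zb 1) (F 1) (Y 1))) ≤
      ((4 + 2 * B + B * dd) * (B ^ 2 * eps) + B ^ 2 * dd) * S := by
    have r1 := mul_le_mul_of_nonneg_left p01 (show 0 ≤ (2 + B * dd) * (B ^ 2 * eps) + 2 * B * (B ^ 2 * eps) +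
      B * dd * B by positivity)
    have r2 := mul_le_mul_of_nonneg_left p02 (show 0 ≤ B ^ 2 * eps by positivity)
    have r3 := mul_le_mul_of_nonneg_left p12 (show 0 ≤ B ^ 2 * eps by positivity)
    nlinarith
  have D2 : ∑ i, ((c1 + c2 * d) * gn P (Zb i) (F i) (Y i) + c2 * (B * Gd P (Zb i) Z (F i) (Y i) al0)) =
      (c1 + c2 * d) * S + c2 * B * ∑ i, Gd P (Zb i) Z (F i) (Y i) al0 := by
    rw [Finset.sum_add_distrib, ← Finset.mul_sum, ← Finset.mul_sum, ← Finset.mul_sum, mul_assoc c2 B]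
  rw [D2] at B6
  have D3 := mul_le_mul_of_nonneg_left B7 hCC0
  have D4 := mul_le_mul_of_nonneg_left B8 (show 0 ≤ 2 / B by positivity)
  have D5 : (c1 + c2 * d + (4 + 2 * B + B * dd) * (B ^ 2 * eps) + B ^ 2 * dd + (2 * B * CC + 2 / B)) * S =
      (c1 + c2 * d) * S + ((4 + 2 * B + B * dd) * (B ^ 2 * eps) + B ^ 2 * dd) * S + CC * (2 * B * S) + 2 / B * S := by ring
  have D6 : (2 * B + 2 + 2 * B ^ 3 / E) * P.E (fun w => al w * (ind (Tq w) * ∑ i, TVF P Z Zb F i w)) =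
      (B + 2 + 2 * B ^ 3 / E) * P.E (fun w => al w * (ind (Tq w) * ∑ i, TVF P Z Zb F i w)) +
      B * P.E (fun w => al w * (ind (Tq w) * ∑ i, TVF P Z Zb F i w)) := by ring
  rw [D5, D6]
  linarith

end key

end

end Pool.Agent.GMH
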