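import Pool.Agent.GMH.FoOne
import Pool.Agent.GMH.Key3Z

/-!
# GMH/FoT4: the first order terms of the released weak tuples (helper63)

`phi_few` : for a weight `g ≤ al0` (`g` may see everything) the first order terms `phi1` of all tops, at the points without a
strong thin letter, are at most `∑ i, 2 B (E g * Gd_i al0)^(1/2)` : the term (T4) of `key3z` without any bad own law.
`phi_run` : over the run, from the number `M` of the points, at most `3 * 2 B (M d1T 2 Lam)^(1/2)`.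
-/

set_option autoImplicit false
set_option linter.unusedSectionVars false
set_option linter.unusedVariables false

namespace Pool.Agent.GMH

open Finset Pool.Agent.PWZ Pool.Agent.M3

noncomputable section

section one

variable {Om : Type*} [Fintype Om] (P : FP Om) {α β γ φ : Type*} {Z : Om → β} {Zb : Fin 3 → Om → α}
  (F : Fin 3 → Om → φ) (Y : Fin 3 → Om → γ)

/-- **THE FIRST ORDER TERMS OF FEW POINTS, ALL TOPS** -/
theorem phi_few (hZ : ∀ i, Fac Z (Zb i)) {B : ℝ} (hB : Real.exp 2 ≤ B) {g al0 : Om → ℝ} (hal : Fac Z al0)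
    (h0 : ∀ w, 0 ≤ g w) (h01 : ∀ w, g w ≤ al0 w) :
    |P.E (fun w => g w * (ind (¬ TqF P Z Zb Y B w) * ∑ i, phi1 P (Zb i) Z (F i) (Y i) B w (Y i w)))| ≤
      ∑ i, 2 * B * Real.sqrt (P.E g * Gd P (Zb i) Z (F i) (Y i) al0) := by
  have hB0 : 0 ≤ B := (Real.exp_pos 2).le.trans hB
  have h00 : ∀ w, 0 ≤ al0 w := fun w => (h0 w).trans (h01 w)
  have e1 : P.E (fun w => g w * (ind (¬ TqF P Z Zb Y B w) * ∑ i, phi1 P (Zb i) Z (F i) (Y i) B w (Y i w))) =
      ∑ i, FO1 P (Zb i) Z (F i) (Y i) B (fun w => g w * ind (¬ TqF P Z Zb Y B w)) := by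
    unfold FO1
    rw [← P.E_sum]
    refine P.E_congr fun w _ => ?_
    rw [Finset.mul_sum, Finset.mul_sum]
    refine Finset.sum_congr rfl fun i _ => ?_
    dsimp only
    by_cases ht : TqF P Z Zb Y B w
    · rw [ind_not (not_not.2 ht)]
      ring
    · have hi : ¬ B < tau P (Zb i) Z (Y i) w (Y i w) := fun hh => ht ⟨i, hh⟩
      rw [ind_of hi, ind_of ht]
      ring
  rw [e1]
  refine (Finset.abs_sum_le_sum_abs _ _).trans (Finset.sum_le_sum fun i _ => ?_)
  have hg : ∀ w, g w * ind (¬ TqF P Z Zb Y B w) ≤ g w := fun w => mul_le_of_le_one_right (h0 w) (ind_le_one _)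
  refine (FO1_cs P (F i) (hZ i) (Y i) hB hal (fun w => mul_nonneg (h0 w) (ind_nonneg _))
    (fun w => (hg w).trans (h01 w))).trans ?_
  refine mul_le_mul_of_nonneg_left (Real.sqrt_le_sqrt ?_) (by positivity)
  exact mul_le_mul_of_nonneg_right (P.E_mono fun w _ => hg w) (Gd_nn P (Zb i) Z (F i) (Y i) h00)

end one

end

end Pool.Agent.GMH

namespace Pool.Agent.GMH.TP

open Finset Pool.Agent.PWZ Pool.Agent.M3 Pool.Agent.GM Pool.Agent.GM.Harm Pool.Agent.GMH Pool.Agent.GMH.NZ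
open Pool.Agent.GMH.V3

noncomputable section

variable {X β γ φ : Type} [Fintype X] [Fintype β] [Fintype φ] [Nonempty X] [Nonempty β]
variable {D : HD (Fin 3) X β γ φ} {al : ℝ} (h : D.Thick al) {v : ℕ → Finset (Fin 3) → X → (Fin 3 → β) → Pt (Fin 3) X β φ}
variable {dg : ℕ → X → ℝ} {prr : ℕ → Fin 3 → φ → φ} {T : ℕ} {Lam : ℝ}

/-- weighted gain of one top over the run, one step of every time -/
theorem gd_run (H : D.Hyp dg prr al T Lam) {n N1 : ℝ} (R : Run h (pr3 (Fin 3) n N1) (SS1 (Fin 3)) (AdmDep D) v)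
    (hn : 1 ≤ n) (hN1 : 1 ≤ N1) {X1 dl a : ℝ} (hdl : 0 < dl) (hdl1 : dl ≤ 1) (hda : Real.exp (-a) ≤ dl)
    {w0 : Fin 6 → ℕ → Pt (Fin 3) X β φ → ℝ} (hw : ∀ t < T, ∀ s, WtS h v X1 dl s t (w0 s t)) (i : Fin 3) :
    ∑ t ∈ range T, ∑ s, gd h v s t i (w0 s t) ≤ d1T N1 al X1 dl a * (2 * Lam) := by
  have hd0 : 0 ≤ d1T N1 al X1 dl a := by
    unfold d1T
    have := h.pos
    positivity
  have hG : ∀ t < T, ∀ s, gd h v s t i (w0 s t) ≤ d1T N1 al X1 dl a * gS h v s t i := by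
    intro t ht s
    refine gd_le h H R (fun J _ => zero_le_one.trans (pr3_one hn hN1 J)) ?_ ?_ ?_ ?_ (zero_lt_one.trans_le hN1) ?_ ?_ ?_ ht s
      hdl hdl1 hda (hw t ht s) i
    · exact mem_SS1.2 (by decide)
    · intro i; exact mem_SS1.2 (by revert i; decide)
    · unfold pr3; simp
    · intro i; unfold pr3; simp
    · intro l; exact mem_SS1.2 (Finset.erase_ne_self.2 (mem_univ l))
    · exact fun hh => mem_SS1.1 hh rfl
    · intro l; exact zero_lt_one.trans_le (pr3_one hn hN1 _)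
  have h1 : ∑ t ∈ range T, ∑ s, gd h v s t i (w0 s t) ≤ ∑ t ∈ range T, ∑ s, d1T N1 al X1 dl a * gS h v s t i :=
    Finset.sum_le_sum fun t ht => Finset.sum_le_sum fun s _ => hG t (Finset.mem_range.1 ht) s
  refine h1.trans ?_
  simp only [← Finset.mul_sum]
  exact mul_le_mul_of_nonneg_left (gn_sum h H R hn hN1 i) hd0

/-- **FEW POINTS OF ALL STEPS OVER THE RUN** -/
theorem phi_run (H : D.Hyp dg prr al T Lam) {n N1 : ℝ} (R : Run h (pr3 (Fin 3) n N1) (SS1 (Fin 3)) (AdmDep D) v)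
    (hn : 1 ≤ n) (hN1 : 1 ≤ N1) {X1 dl a : ℝ} (hdl : 0 < dl) (hdl1 : dl ≤ 1) (hda : Real.exp (-a) ≤ dl) {B : ℝ}
    (hB : Real.exp 2 ≤ B) {g w0 : Fin 6 → ℕ → Pt (Fin 3) X β φ → ℝ} (hw : ∀ t < T, ∀ s, WtS h v X1 dl s t (w0 s t))
    (h0 : ∀ t < T, ∀ s u, 0 ≤ g s t u) {M : ℝ} (hM : ∑ t ∈ range T, ∑ s, (D.P h t).E (g s t) ≤ M) :
    ∑ t ∈ range T, ∑ s, ∑ i, 2 * B * Real.sqrt ((D.P h t).E (g s t) * gd h v s t i (w0 s t)) ≤
      3 * (2 * B * Real.sqrt (M * (d1T N1 al X1 dl a * (2 * Lam)))) := by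
  have hB0 : 0 ≤ B := (Real.exp_pos 2).le.trans hB
  have key : ∀ i, ∑ t ∈ range T, ∑ s, Real.sqrt ((D.P h t).E (g s t) * gd h v s t i (w0 s t)) ≤
      Real.sqrt (M * (d1T N1 al X1 dl a * (2 * Lam))) := by
    intro i
    rw [← Finset.sum_product' (s := range T) (t := (univ : Finset (Fin 6)))
      (f := fun t s => Real.sqrt ((D.P h t).E (g s t) * gd h v s t i (w0 s t)))]
    refine sum_sqrt_le (range T ×ˢ (univ : Finset (Fin 6))) (a := fun j => (D.P h j.1).E (g j.2 j.1))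
      (g := fun j => gd h v j.2 j.1 i (w0 j.2 j.1))
      (fun j hj => (D.P h j.1).E_nonneg fun u _ => h0 j.1 (Finset.mem_range.1 (Finset.mem_product.1 hj).1) j.2 u)
      (fun j hj => gd_nn h (hw j.1 (Finset.mem_range.1 (Finset.mem_product.1 hj).1) j.2).nn) ?_ ?_
    · rw [Finset.sum_product]
      exact hM
    · rw [Finset.sum_product]
      exact gd_run h H R hn hN1 hdl hdl1 hda hw i
  have e1 : ∑ t ∈ range T, ∑ s, ∑ i, 2 * B * Real.sqrt ((D.P h t).E (g s t) * gd h v s t i (w0 s t)) =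
      ∑ i, 2 * B * ∑ t ∈ range T, ∑ s, Real.sqrt ((D.P h t).E (g s t) * gd h v s t i (w0 s t)) := by
    have e2 : ∀ t ∈ range T, ∑ s, ∑ i, 2 * B * Real.sqrt ((D.P h t).E (g s t) * gd h v s t i (w0 s t)) =
        ∑ i, ∑ s, 2 * B * Real.sqrt ((D.P h t).E (g s t) * gd h v s t i (w0 s t)) := fun t _ => Finset.sum_comm
    rw [Finset.sum_congr rfl e2, Finset.sum_comm]
    refine Finset.sum_congr rfl fun i _ => ?_
    rw [Finset.mul_sum]
    refine Finset.sum_congr rfl fun t _ => ?_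
    rw [Finset.mul_sum]
  rw [e1]
  have h2 := Finset.sum_le_sum fun i (_ : i ∈ (univ : Finset (Fin 3))) =>
    mul_le_mul_of_nonneg_left (key i) (show 0 ≤ 2 * B by positivity)
  refine h2.trans (le_of_eq ?_)
  rw [Finset.sum_const, Finset.card_univ, Fintype.card_fin, nsmul_eq_mul]
  norm_num

end

end Pool.Agent.GMH.TP
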