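import Pool.Agent.GMH.First2

/-!
# GMH/FoW: first order terms with weighted information of the missing letter (helper81)

`DtW al` : the information of the missing letter at the points of the weight `al`.  At the digit the missing letter knows the
new cell of its point, which has up to `log 2` at every time; only the weighted form is small.
* `DtW_le` : at most `Dt`; `branch_leW`, `first_twoW`, `first_leW` : the theorems of `First2`, `Key3P` with `DtW`.
* `FO1_add`, `FO1_sum`, `FO1_zero` : linearity in the weight.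
-/

set_option autoImplicit false
set_option linter.unusedSectionVars false
set_option linter.unusedVariables false

namespace Pool.Agent.GMH

open Finset Pool.Agent.PWZ Pool.Agent.M3

noncomputable section

section two

variable {Om : Type*} [Fintype Om] (P : FP Om) {α β γ δ φ : Type*} (Zb : Om → α) (Z : Om → β) (F : Om → φ)

/-- weighted information of the missing letter -/
def DtW (Y : Om → γ) (al : Om → ℝ) : ℝ := P.E (fun w => al w * ∑ y ∈ vals Y, P.pv Zb Y w y * hphi (tau P Zb Z Y w y))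

theorem DtW_nn (Y : Om → γ) {al : Om → ℝ} (h0 : ∀ w, 0 ≤ al w) : 0 ≤ DtW P Zb Z Y al :=
  P.E_nonneg fun w _ => mul_nonneg (h0 w) (Finset.sum_nonneg fun y _ =>
    mul_nonneg (P.pv_nonneg _ _ _ _) (hphi_nonneg (tau_nn P Zb Z Y w y)))

theorem DtW_le (Y : Om → γ) {al : Om → ℝ} (h1 : ∀ w, al w ≤ 1) : DtW P Zb Z Y al ≤ Dt P Zb Z Y :=
  P.E_mono fun w _ => mul_le_of_le_one_left (Finset.sum_nonneg fun y _ =>
    mul_nonneg (P.pv_nonneg _ _ _ _) (hphi_nonneg (tau_nn P Zb Z Y w y))) (h1 w)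

theorem FO1_add (Y : Om → γ) (B : ℝ) (al bl : Om → ℝ) : FO1 P Zb Z F Y B (fun w => al w + bl w) =
    FO1 P Zb Z F Y B al + FO1 P Zb Z F Y B bl := by
  unfold FO1
  rw [← P.E_add]
  exact P.E_congr fun w _ => by ring

theorem FO1_congr (Y : Om → γ) (B : ℝ) {al bl : Om → ℝ} (hab : ∀ w, P.p w ≠ 0 → al w = bl w) :
    FO1 P Zb Z F Y B al = FO1 P Zb Z F Y B bl := by
  unfold FO1
  exact P.E_congr fun w hw => by rw [hab w hw]

theorem FO1_zero (Y : Om → γ) (B : ℝ) : FO1 P Zb Z F Y B (fun _ => 0) = 0 := by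
  unfold FO1 FP.E
  simp

theorem FO1_sum (Y : Om → γ) (B : ℝ) {κ : Type*} (S : Finset κ) (al : κ → Om → ℝ) :
    FO1 P Zb Z F Y B (fun w => ∑ k ∈ S, al k w) = ∑ k ∈ S, FO1 P Zb Z F Y B (al k) := by
  unfold FO1
  rw [← P.E_sum]
  refine P.E_congr fun w _ => ?_
  rw [Finset.sum_mul]

variable {P Zb Z F} in
/-- **ONE BRANCH**, weighted information -/
theorem branch_leW (hZ : Fac Z Zb) {Y : Om → γ} {A : Om → Prop} (hA : Fac (fun u => (Y u, Zb u)) A) {B : ℝ}
    (hB : Real.exp 2 ≤ B) {al : Om → ℝ} (hal : Fac Z al) (h0 : ∀ w, 0 ≤ al w) :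
    |FO1 P Zb Z F Y B (fun w => al w * ind (A w)) - P.E (fun w => al w * lin1 P Zb Z F A w)| ≤
      Gd P Zb Z F Y al + B * Real.sqrt (8 * (Gd P Zb Z F Y al * DtW P Zb Z Y al)) := by
  have hB1 : 1 ≤ B := by
    have := Real.add_one_le_exp 2
    linarith
  have hB0 : 0 ≤ B := by linarith
  have fτ := tau_fac P Y hZ
  have fφ := phi1_fac P Zb Z F Y (B := B) hZ
  have hi0 : ∀ w y, 0 ≤ ind (brV Zb Y A w y) := fun w y => ind_nonneg _
  have hi1 : ∀ w y, ind (brV Zb Y A w y) ≤ 1 := fun w y => ind_le_one _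
  -- mean at independent additions
  have e1 : FO1 P Zb Z F Y B (fun w => al w * ind (A w)) =
      P.E (fun w => al w * ∑ y ∈ vals Y, P.pv Zb Y w y * (ind (brV Zb Y A w y) * phi1 P Zb Z F Y B w y)) +
      P.E (fun w => ∑ y ∈ vals Y, (al w * P.pv Zb Y w y) * ((hwk B (tau P Zb Z Y w y) - 1) *
        (ind (brV Zb Y A w y) * phi1 P Zb Z F Y B w y))) := by
    have e0 : FO1 P Zb Z F Y B (fun w => al w * ind (A w)) = P.E (fun w => al w * (ind (brV Zb Y A w (Y w)) *
        (ind (¬ B < tau P Zb Z Y w (Y w)) * phi1 P Zb Z F Y B w (Y w)))) := by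
      unfold FO1
      refine P.E_congr fun w _ => ?_
      rw [brV_iff hA]
      ring
    rw [e0, E_real P Y (W := Z) (f := fun w y => al w * (ind (brV Zb Y A w y) * (ind (¬ B < tau P Zb Z Y w y) *
        phi1 P Zb Z F Y B w y)))
      (fun y a b hab => by
        show al a * (ind (brV Zb Y A a y) * (ind (¬ B < tau P Zb Z Y a y) * phi1 P Zb Z F Y B a y)) =
          al b * (ind (brV Zb Y A b y) * (ind (¬ B < tau P Zb Z Y b y) * phi1 P Zb Z F Y B b y))
        have g1 : al a = al b := hal a b hab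
        have g2 := fτ y a b hab
        have g3 := fφ y a b hab
        have g4 := brV_fac Y A y (hZ a b hab)
        simp only at g2 g3
        rw [g1, g2, g3, g4]), ← P.E_add]
    refine P.E_congr fun w _ => ?_
    rw [Finset.mul_sum, ← Finset.sum_add_distrib]
    refine Finset.sum_congr rfl fun y _ => ?_
    rw [yz_eq P Y hZ w y]
    unfold hwk
    ring
  have e2 : P.E (fun w => al w * ∑ y ∈ vals Y, P.pv Zb Y w y * (ind (brV Zb Y A w y) * phi1 P Zb Z F Y B w y)) =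
      P.E (fun w => al w * lin1 P Zb Z F A w) - P.E (fun w => al w * ∑ y ∈ vals Y, ∑ x ∈ vals F, P.pv Zb Y w y *
        (ind (brV Zb Y A w y) * ((P.pv Z F w x - P.pv Zb F w x) * hsg B (rr P Zb F Y w y x)))) := by
    rw [← P.E_sub]
    refine P.E_congr fun w hw => ?_
    rw [sum_phi_br hZ hA B hw]
    ring
  -- first part
  have k1 : |P.E (fun w => al w * ∑ y ∈ vals Y, ∑ x ∈ vals F, P.pv Zb Y w y *
      (ind (brV Zb Y A w y) * ((P.pv Z F w x - P.pv Zb F w x) * hsg B (rr P Zb F Y w y x))))| ≤ Gd P Zb Z F Y al := by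
    refine (P.abs_E_le _).trans ?_
    unfold Gd
    refine P.E_mono fun w hw => ?_
    rw [abs_mul, abs_of_nonneg (h0 w)]
    have g1 : |∑ y ∈ vals Y, ∑ x ∈ vals F, P.pv Zb Y w y * (ind (brV Zb Y A w y) * ((P.pv Z F w x - P.pv Zb F w x) *
        hsg B (rr P Zb F Y w y x)))| ≤ ∑ y ∈ vals Y, ∑ x ∈ vals F, P.pv Zb Y w y * (|P.pv Z F w x - P.pv Zb F w x| *
          hphi (rr P Zb F Y w y x)) := by
      refine (Finset.abs_sum_le_sum_abs _ _).trans (Finset.sum_le_sum fun y _ => ?_)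
      refine (Finset.abs_sum_le_sum_abs _ _).trans (Finset.sum_le_sum fun x _ => ?_)
      rw [abs_mul, abs_mul, abs_mul, abs_of_nonneg (P.pv_nonneg Zb Y w y), abs_of_nonneg (hi0 w y),
        abs_of_nonneg (hsg_nonneg (rr_nn P Zb F Y w y x))]
      have a1 := mul_le_mul_of_nonneg_left (sg_le_hphi hB (rr_nn P Zb F Y w y x)) (abs_nonneg (P.pv Z F w x - P.pv Zb F w x))
      have a2 : 0 ≤ |P.pv Z F w x - P.pv Zb F w x| * hsg B (rr P Zb F Y w y x) :=
        mul_nonneg (abs_nonneg _) (hsg_nonneg (rr_nn P Zb F Y w y x))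
      exact mul_le_mul_of_nonneg_left ((mul_le_of_le_one_left a2 (hi1 w y)).trans a1) (P.pv_nonneg _ _ _ _)
    refine (mul_le_mul_of_nonneg_left g1 (h0 w)).trans (le_of_eq ?_)
    rw [Finset.mul_sum]
    refine Finset.sum_congr rfl fun y _ => ?_
    rw [Finset.mul_sum]
    exact Finset.sum_congr rfl fun x _ => by ring
  -- second part
  have k2 := E_sum_cs P (vals Y) (fun w y => al w * P.pv Zb Y w y) (fun w y => hwk B (tau P Zb Z Y w y) - 1)
    (fun w y => ind (brV Zb Y A w y) * phi1 P Zb Z F Y B w y)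
    (fun w _ y _ => mul_nonneg (h0 w) (P.pv_nonneg _ _ _ _))
  have k3 : P.E (fun w => ∑ y ∈ vals Y, (al w * P.pv Zb Y w y) * (hwk B (tau P Zb Z Y w y) - 1) ^ 2) ≤
      2 * B * DtW P Zb Z Y al := by
    unfold DtW
    rw [← P.E_smul]
    refine P.E_mono fun w _ => ?_
    have e9 : 2 * B * (al w * ∑ y ∈ vals Y, P.pv Zb Y w y * hphi (tau P Zb Z Y w y)) =
        ∑ y ∈ vals Y, (al w * P.pv Zb Y w y) * (2 * B * hphi (tau P Zb Z Y w y)) := by
      rw [Finset.mul_sum, Finset.mul_sum]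
      exact Finset.sum_congr rfl fun y _ => by ring
    rw [e9]
    refine Finset.sum_le_sum fun y _ => ?_
    have g1 := wk_sub_sq_le hB (tau_nn P Zb Z Y w y)
    exact mul_le_mul_of_nonneg_left g1 (mul_nonneg (h0 w) (P.pv_nonneg Zb Y w y))
  have k4 : P.E (fun w => ∑ y ∈ vals Y, (al w * P.pv Zb Y w y) * (ind (brV Zb Y A w y) * phi1 P Zb Z F Y B w y) ^ 2) ≤
      4 * B * Gd P Zb Z F Y al := by
    unfold Gd
    rw [← P.E_smul]
    refine P.E_mono fun w hw => ?_
    rw [Finset.mul_sum]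
    refine Finset.sum_le_sum fun y _ => ?_
    have g0 := P.pv_nonneg Zb Y w y
    have g1 : phi1 P Zb Z F Y B w y ^ 2 ≤ 2 * ∑ x ∈ vals F, |P.pv Z F w x - P.pv Zb F w x| *
        (hwk B (rr P Zb F Y w y x) - 1) ^ 2 := by
      have c := Finset.sum_mul_sq_le_sq_mul_sq (vals F) (fun x => Real.sqrt |P.pv Z F w x - P.pv Zb F w x|)
        (fun x => Real.sqrt |P.pv Z F w x - P.pv Zb F w x| * |hwk B (rr P Zb F Y w y x) - 1|)
      have c1 : |phi1 P Zb Z F Y B w y| ≤ ∑ x ∈ vals F, Real.sqrt |P.pv Z F w x - P.pv Zb F w x| *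
          (Real.sqrt |P.pv Z F w x - P.pv Zb F w x| * |hwk B (rr P Zb F Y w y x) - 1|) := by
        unfold phi1
        refine (Finset.abs_sum_le_sum_abs _ _).trans (Finset.sum_le_sum fun x _ => ?_)
        rw [← mul_assoc, Real.mul_self_sqrt (abs_nonneg _), abs_mul]
      have c2 : ∑ x ∈ vals F, Real.sqrt |P.pv Z F w x - P.pv Zb F w x| ^ 2 ≤ 2 := by
        have c3 : ∑ x ∈ vals F, Real.sqrt |P.pv Z F w x - P.pv Zb F w x| ^ 2 ≤
            ∑ x ∈ vals F, (P.pv Z F w x + P.pv Zb F w x) := by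
          refine Finset.sum_le_sum fun x _ => ?_
          rw [Real.sq_sqrt (abs_nonneg _), abs_le]
          have a1 := P.pv_nonneg Z F w x
          have a2 := P.pv_nonneg Zb F w x
          constructor <;> linarith
        rw [Finset.sum_add_distrib, P.pv_sum Z F hw, P.pv_sum Zb F hw] at c3
        linarith
      have c4 : ∑ x ∈ vals F, (Real.sqrt |P.pv Z F w x - P.pv Zb F w x| * |hwk B (rr P Zb F Y w y x) - 1|) ^ 2 =
          ∑ x ∈ vals F, |P.pv Z F w x - P.pv Zb F w x| * (hwk B (rr P Zb F Y w y x) - 1) ^ 2 := by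
        refine Finset.sum_congr rfl fun x _ => ?_
        rw [mul_pow, Real.sq_sqrt (abs_nonneg _), sq_abs]
      rw [c4] at c
      have c5 : 0 ≤ ∑ x ∈ vals F, |P.pv Z F w x - P.pv Zb F w x| * (hwk B (rr P Zb F Y w y x) - 1) ^ 2 :=
        Finset.sum_nonneg fun x _ => mul_nonneg (abs_nonneg _) (sq_nonneg _)
      have c6 := pow_le_pow_left₀ (abs_nonneg _) c1 2
      rw [sq_abs] at c6
      exact c6.trans (c.trans (mul_le_mul_of_nonneg_right c2 c5))
    have g2 : ∑ x ∈ vals F, |P.pv Z F w x - P.pv Zb F w x| * (hwk B (rr P Zb F Y w y x) - 1) ^ 2 ≤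
        2 * B * ∑ x ∈ vals F, |P.pv Z F w x - P.pv Zb F w x| * hphi (rr P Zb F Y w y x) := by
      rw [Finset.mul_sum]
      refine Finset.sum_le_sum fun x _ => ?_
      have a1 := mul_le_mul_of_nonneg_left (wk_sub_sq_le hB (rr_nn P Zb F Y w y x)) (abs_nonneg (P.pv Z F w x - P.pv Zb F w x))
      linarith
    have g5 : (ind (brV Zb Y A w y) * phi1 P Zb Z F Y B w y) ^ 2 ≤ phi1 P Zb Z F Y B w y ^ 2 := by
      rw [mul_pow]
      have : ind (brV Zb Y A w y) ^ 2 ≤ 1 := by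
        have := pow_le_pow_left₀ (hi0 w y) (hi1 w y) 2
        rwa [one_pow] at this
      exact mul_le_of_le_one_left (sq_nonneg _) this
    have g4 : (ind (brV Zb Y A w y) * phi1 P Zb Z F Y B w y) ^ 2 ≤ 4 * B * ∑ x ∈ vals F,
        |P.pv Z F w x - P.pv Zb F w x| * hphi (rr P Zb F Y w y x) := by linarith
    refine (mul_le_mul_of_nonneg_left g4 (mul_nonneg (h0 w) g0)).trans (le_of_eq ?_)
    have e9 : al w * P.pv Zb Y w y * (4 * B * ∑ x ∈ vals F, |P.pv Z F w x - P.pv Zb F w x| *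
        hphi (rr P Zb F Y w y x)) = 4 * B * ((P.pv Zb Y w y * al w) * ∑ x ∈ vals F, |P.pv Z F w x - P.pv Zb F w x| *
        hphi (rr P Zb F Y w y x)) := by ring
    rw [e9, Finset.mul_sum]
    congr 1
    exact Finset.sum_congr rfl fun x _ => by ring
  have hG := Gd_nn P Zb Z F Y (al := al) h0
  have hD := DtW_nn P Zb Z Y h0
  have k5 : Real.sqrt (P.E (fun w => ∑ y ∈ vals Y, (al w * P.pv Zb Y w y) * (hwk B (tau P Zb Z Y w y) - 1) ^ 2) *
      P.E (fun w => ∑ y ∈ vals Y, (al w * P.pv Zb Y w y) * (ind (brV Zb Y A w y) * phi1 P Zb Z F Y B w y) ^ 2)) ≤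
      B * Real.sqrt (8 * (Gd P Zb Z F Y al * DtW P Zb Z Y al)) := by
    have a1 : 0 ≤ P.E (fun w => ∑ y ∈ vals Y, (al w * P.pv Zb Y w y) * (ind (brV Zb Y A w y) *
        phi1 P Zb Z F Y B w y) ^ 2) :=
      P.E_nonneg fun w _ => Finset.sum_nonneg fun y _ =>
        mul_nonneg (mul_nonneg (h0 w) (P.pv_nonneg _ _ _ _)) (sq_nonneg _)
    have a2 := mul_le_mul k3 k4 a1 (by positivity)
    have a3 : B * Real.sqrt (8 * (Gd P Zb Z F Y al * DtW P Zb Z Y al)) =
        Real.sqrt (B ^ 2 * (8 * (Gd P Zb Z F Y al * DtW P Zb Z Y al))) := by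
      rw [Real.sqrt_mul (sq_nonneg B), Real.sqrt_sq hB0]
    rw [a3]
    refine Real.sqrt_le_sqrt (a2.trans (le_of_eq ?_))
    ring
  have k6 := k2.trans k5
  rw [e1, e2]
  have k7 := abs_sub (P.E (fun w => ∑ y ∈ vals Y, (al w * P.pv Zb Y w y) * ((hwk B (tau P Zb Z Y w y) - 1) *
        (ind (brV Zb Y A w y) * phi1 P Zb Z F Y B w y)))) (P.E (fun w => al w * ∑ y ∈ vals Y, ∑ x ∈ vals F,
        P.pv Zb Y w y * (ind (brV Zb Y A w y) * ((P.pv Z F w x - P.pv Zb F w x) * hsg B (rr P Zb F Y w y x)))))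
  refine le_trans (le_of_eq (congrArg abs ?_)) (k7.trans ?_)
  · ring
  · linarith

variable {P Zb Z F} in
theorem lin1_true (hZ : Fac Z Zb) {w : Om} (hw : P.p w ≠ 0) : lin1 P Zb Z F (fun _ => True) w = 0 := by
  have h1 := lin1_not (P := P) (F := F) hZ (fun _ => True) hw
  have e1 : P.ce Zb (fun u => ind (¬ (fun _ : Om => True) u)) w = 0 := by
    rw [P.ce_congr (g := fun _ => (0 : ℝ)) (fun u _ => ind_not (not_not.2 trivial)) w]
    exact P.ce_const _ 0 hw
  have e2 : lin1 P Zb Z F (fun u => ¬ (fun _ : Om => True) u) w = 0 := by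
    unfold lin1
    refine Finset.sum_eq_zero fun x _ => ?_
    rw [e1]
    have e3 : P.ce Zb (fun u => ind (¬ (fun _ : Om => True) u) * ind (F u = x)) w = 0 := by
      rw [P.ce_congr (g := fun _ => (0 : ℝ)) (fun u _ => by rw [ind_not (not_not.2 trivial), zero_mul]) w]
      exact P.ce_const _ 0 hw
    rw [e3]
    ring
  linarith

variable {P Zb Z F} in
/-- **FIRST ORDER TERM OF ONE TOP**, weighted information -/
theorem first_leW (hZ : Fac Z Zb) {Y : Om → γ} {B : ℝ} (hB : Real.exp 2 ≤ B) {al : Om → ℝ} (hal : Fac Z al)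
    (h0 : ∀ w, 0 ≤ al w) : |FO1 P Zb Z F Y B al| ≤
      Gd P Zb Z F Y al + B * Real.sqrt (8 * (Gd P Zb Z F Y al * DtW P Zb Z Y al)) := by
  have k1 := branch_leW (P := P) (F := F) (Y := Y) (A := fun _ => True) hZ (fun _ _ _ => rfl) hB hal h0
  have e1 : P.E (fun w => al w * lin1 P Zb Z F (fun _ => True) w) = 0 := by
    rw [P.E_congr (g := fun _ => (0 : ℝ)) (fun w hw => by rw [lin1_true hZ hw, mul_zero])]
    exact P.E_const 0
  have e2 : FO1 P Zb Z F Y B (fun w => al w * ind True) = FO1 P Zb Z F Y B al :=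
    FO1_congr P Zb Z F Y B fun w _ => by rw [ind_of trivial, mul_one]
  rw [e1, sub_zero, e2] at k1
  exact k1

variable {P Zb Z F} in
/-- **BOTH BRANCHES TOGETHER**, weighted information -/
theorem first_twoW (hZ : Fac Z Zb) {Y1 : Om → γ} {Y2 : Om → δ} {A : Om → Prop} (hA1 : Fac (fun u => (Y1 u, Zb u)) A)
    (hA2 : Fac (fun u => (Y2 u, Zb u)) A) {B : ℝ} (hB : Real.exp 2 ≤ B) {al : Om → ℝ} (hal : Fac Z al)
    (h0 : ∀ w, 0 ≤ al w) :
    |FO1 P Zb Z F Y1 B (fun w => al w * ind (A w)) + FO1 P Zb Z F Y2 B (fun w => al w * ind (¬ A w))| ≤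
      (Gd P Zb Z F Y1 al + B * Real.sqrt (8 * (Gd P Zb Z F Y1 al * DtW P Zb Z Y1 al))) +
      (Gd P Zb Z F Y2 al + B * Real.sqrt (8 * (Gd P Zb Z F Y2 al * DtW P Zb Z Y2 al))) := by
  have k1 := branch_leW (P := P) (F := F) hZ hA1 hB hal h0
  have k2 := branch_leW (P := P) (F := F) (A := fun u => ¬ A u) hZ (fun a b hab => by
    have := hA2 a b hab
    show (¬ A a) = (¬ A b)
    rw [this]) hB hal h0
  have e : P.E (fun w => al w * lin1 P Zb Z F (fun u => ¬ A u) w) = -P.E (fun w => al w * lin1 P Zb Z F A w) := by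
    rw [← P.E_neg]
    refine P.E_congr fun w hw => ?_
    rw [lin1_not hZ A hw]
    ring
  rw [e] at k2
  rw [abs_le] at k1 k2 ⊢
  constructor <;> linarith [k1.1, k1.2, k2.1, k2.2]

end two

end

end Pool.Agent.GMH
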