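import Pool.Agent.GMH.PrvT
import Pool.Agent.GMH.PigK
import Pool.Agent.GMH.DynF
import Pool.Agent.GMH.StpJ

/-!
# GMH/GM3: the released tuples which are thrown away, three tops (helper27)

* `alv_Ar`, `Ded`, `ded_sum` : alive points, dead levels;
* `gM3` : good at a removal: alive, not near a threshold, not moved, nothing listed over the thin triple, and a free condition;
* `th_cases` : a thrown tuple of `StpT.thO` lies in one of the events: dead level, near, listed, `thp` (private), `thr` (REST),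
  not `Sg`.
-/

set_option autoImplicit false
set_option linter.unusedSectionVars false

namespace Pool.Agent.GMH.GM3

open Finset Pool.Agent.PWZ Pool.Agent.M3 Pool.Agent.GM Pool.Agent.GM.Harm Pool.Agent.GMH Pool.Agent.GMH.NZ
open Pool.Agent.GMH.V3 Pool.Agent.GMH.TP Pool.Agent.GMH.TD Pool.Agent.GMH.Dy Pool.Agent.GMH.MV Pool.Agent.GMH.MVI
open Pool.Agent.GMH.UV Pool.Agent.GMH.KF Pool.Agent.GMH.CK Pool.Agent.GMH.KDT Pool.Agent.GMH.TRF Pool.Agent.GMH.MV8R

noncomputable section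

variable {X β γ φ : Type} [Fintype X] [Fintype β] [Fintype φ] [Nonempty X] [Nonempty β]
variable {D : HD (Fin 3) X β γ φ} {al : ℝ} {h : D.Thick al} {prr : ℕ → Fin 3 → φ → φ} {T : ℕ} {W : Type} [Fintype W]
variable (tb : Tab D prr T W) {v : ℕ → Finset (Fin 3) → X → (Fin 3 → β) → Pt (Fin 3) X β φ}

/-! ### alive -/

/-- alive points in the sense of `Ar` are alive at all states -/
theorem alv_Ar (p : AP) {t : ℕ} (ht : t ≤ T) {w : Om W X β} (hw : tb.Ps.p w ≠ 0) {r : ℕ}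
    (hA : Ar h v p (2 * t + 1) (tb.pt r w)) : Alv h v tb p (5 * t + 1) w := by
  intro q hq
  have hA' : ∀ s ≤ 2 * t + 1, ∀ r, Ar h v p s (tb.pt r w) := fun s hs r =>
    (Ar_lab h p s _ _ _ _).1 (Ar_mono h p hs hA)
  obtain ⟨m, j, hj, rfl⟩ : ∃ m j, j < 5 ∧ q = 5 * m + j := ⟨q / 5, q % 5, Nat.mod_lt _ (by norm_num), by omega⟩
  have e1 : (5 * m + j) / 5 = m := by omega
  rw [e1]
  have hs : (D.P h m).p (tb.pt m w) ≠ 0 := (pul_pt h tb (by omega)).ne hw
  rcases Nat.eq_zero_or_pos j with h0 | h0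
  · subst h0
    exact AQ_0 h p (hA' _ (by omega) m)
  · rcases Nat.lt_or_ge j 2 with h1 | h1
    · obtain rfl : j = 1 := by omega
      exact AQ_1 h p (hA' _ (by omega) m)
    · exact AQ_of h p h1 (by omega) hs (hA' _ (by omega) m)

/-- the dead level -/
def Ded (h : D.Thick al) (v : ℕ → Finset (Fin 3) → X → (Fin 3 → β) → Pt (Fin 3) X β φ) (p : AP) (t : ℕ) (w : Om W X β) : Prop :=
  Alv h v tb p (5 * t + 1) w ∧ ¬ Alv h v tb p (5 * t + 5) w

theorem ded_sum (p : AP) : ∑ t ∈ range T, tb.Ps.Pr (Ded tb h v p t) ≤ tb.Ps.Pr (fun w => ¬ Alv h v tb p (5 * T) w) := by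
  have key : ∀ n, ∑ t ∈ range n, tb.Ps.Pr (Ded tb h v p t) ≤ tb.Ps.Pr (fun w => ¬ Alv h v tb p (5 * n) w) := by
    intro n
    induction n with
    | zero =>
      rw [Finset.range_zero, Finset.sum_empty]
      exact tb.Ps.Pr_nonneg _
    | succ n ih =>
      rw [Finset.sum_range_succ]
      refine (add_le_add ih le_rfl).trans ?_
      unfold FP.Pr
      rw [← tb.Ps.E_add]
      refine tb.Ps.E_mono fun w _ => ?_
      by_cases h1 : Alv h v tb p (5 * n) w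
      · rw [ind_not (fun hh : ¬ _ => hh h1), zero_add]
        refine ind_mono fun hh hA => hh.2 ?_
        rwa [show 5 * n + 5 = 5 * (n + 1) by ring]
      · have h2 : ¬ Ded tb h v p n w := fun hh => h1 (Alv_anti h v tb (by omega) hh.1)
        have h3 : ¬ Alv h v tb p (5 * (n + 1)) w := fun hh => h1 (Alv_anti h v tb (by omega) hh)
        rw [ind_of h1, ind_not h2, ind_of h3, add_zero]
  exact key T

/-! ### good at a removal -/

section defs

variable (v)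

/-- removals -/
def rmv (q : ℕ) (w : Om W X β) : Prop := ruO tb v q w ∨ ∃ i, rpO tb v i q w

variable {v}

/-- a listed tuple over the thin triple -/
def Lsq (M : MS (Om W X β)) (q : ℕ) (w : Om W X β) : Prop := 0 < M.P.ce (TH M q) (fun u => ind (Lst M (nu M q w) q u)) w

variable (v)

/-- good at a removal -/
def gM3 (M : MS (Om W X β)) (c : KC) (x : ℝ) (Al : ℕ → Om W X β → Prop) (be : Fin 10 → Fin 3 → ℕ → Om W X β → Prop)
    (ze : Fin 10 → ℕ → Om W X β → Prop) (Sg : Fin 10 → ℕ → Om W X β → Prop) (k : Fin 10) (q : ℕ) (w : Om W X β) : Prop :=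
  Al q w ∧ ¬ nrT M c x q w ∧ (ruO tb v q w → ¬ Lsq M q w) ∧ (∀ i ∈ vk k, rpO tb v i q w → ¬ MV.Mv M i q w) ∧
    (∀ i ∈ vk k, ruO tb v q w → (be k i q w ∨ ze k q w) → ¬ MV.Mv M i (nu M q w) w) ∧ Sg k q w

end defs

variable {tb} {c : KC} {B : ℝ} {A : Fin 6 → ℕ → Pt (Fin 3) X β φ → Prop}
  {be : Fin 10 → Fin 3 → ℕ → Om W X β → Prop} {ze : Fin 10 → ℕ → Om W X β → Prop} {Sg : Fin 10 → ℕ → Om W X β → Prop}

variable {M : MS (Om W X β)} {p : AP} {x : ℝ}

/-- the other two vertices -/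
def oc (i : Fin 3) : Fin 3 := ![1, 0, 0] i
def od (i : Fin 3) : Fin 3 := ![2, 2, 1] i

theorem oc_od (i : Fin 3) : i ≠ oc i ∧ i ≠ od i ∧ oc i ≠ od i ∧ ∀ j : Fin 3, j = i ∨ j = oc i ∨ j = od i := by
  revert i
  unfold oc od
  decide

/-- thrown at a private removal of `i` -/
def thp (h : D.Thick al) (v : ℕ → Finset (Fin 3) → X → (Fin 3 → β) → Pt (Fin 3) X β φ) (tb : Tab D prr T W)
    (M : MS (Om W X β)) (L : ℝ) (i : Fin 3) (q : ℕ) (w : Om W X β) : Prop :=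
  rpO tb v i q w ∧ alq h v tb (q / 5) (q + 1) L i w ∧ alq h v tb (q / 5) q L (oc i) w ∧
    (MV.Mv M i q w ∨ ∃ c, c ≠ i ∧ hys M c (nu M q w) w)

/-- thrown by REST at a public removal -/
def thr (h : D.Thick al) (v : ℕ → Finset (Fin 3) → X → (Fin 3 → β) → Pt (Fin 3) X β φ) (tb : Tab D prr T W)
    (M : MS (Om W X β)) (L : ℝ) (i : Fin 3) (q : ℕ) (w : Om W X β) : Prop :=
  ruO tb v q w ∧ RZ.Rst M i (oc i) (od i) q w ∧ RZ.Alz h v L (RZ.rho (nu M q w)) (tb.pt 0 w)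

/-- **the cases of a thrown tuple** -/
theorem th_cases {k : Fin 10} {q : ℕ} (hq : q < 5 * T) {w : Om W X β} (hw : tb.Ps.p w ≠ 0) (hMP : M.P = tb.Ps)
    (hAr : q % 5 ≠ 0 → A (sO q) (q / 5) (tb.pt (q / 5) w) → Ar h v p (2 * (q / 5) + 1) (tb.pt (q / 5) w))
    (hAq : 2 ≤ q % 5 → A (sO q) (q / 5) (tb.pt (q / 5) w) → AQ h v p q (tb.pt (q / 5) w))
    (hst : q % 5 = 1 → A (sO q) (q / 5) (tb.pt (q / 5) w) → ∀ i, ¬ hys M i (nu M q w) w)
    (ht : thO h tb v c B A be ze (gM3 tb v M c x (Alv h v tb p) be ze Sg) k q w) :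
    (q % 5 ≠ 0 ∧ Ded tb h v p (q / 5) w) ∨ (rmv tb v q w ∧ nrT M c x q w) ∨ (ruO tb v q w ∧ Lsq M q w) ∨
      (∃ i ∈ vk k, thp h v tb M (max p.X0 p.X1) i q w) ∨
      (∃ i ∈ vk k, thr h v tb M (max p.X0 p.X1) i q w ∧ (be k i q w ∨ ze k q w)) ∨
      (aO tb A q w ∧ rO h tb v c B k q w ∧ btO tb v be ze k q w ∧ ¬ Sg k q w) := by
  obtain ⟨ha, hr, hg, hb⟩ := ht
  have hT : q / 5 ≤ T := by omega
  have hT1 : (q + 1) / 5 ≤ T := by omega
  -- the removal
  have hrm : rmv tb v q w := by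
    rcases hb with ⟨i, _, h1, _⟩ | ⟨h1, _⟩
    · exact Or.inr ⟨i, h1⟩
    · exact Or.inl h1
  have hq0 : q % 5 ≠ 0 := by
    rcases hrm with h1 | ⟨i, h1⟩
    · have := h1.1; omega
    · have := h1.1; omega
  have hA1 : Ar h v p (2 * (q / 5) + 1) (tb.pt (q / 5) w) := hAr hq0 ha
  have hal1 : Alv h v tb p (5 * (q / 5) + 1) w := alv_Ar tb p hT hw hA1
  by_cases hD : Alv h v tb p (5 * (q / 5) + 5) w
  swap
  · exact Or.inl ⟨hq0, hal1, hD⟩
  right
  have hm5 : q % 5 < 5 := Nat.mod_lt _ (by norm_num)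
  have hq5 : 5 * (q / 5) + q % 5 = q := Nat.div_add_mod q 5
  have hAq0 : Alv h v tb p q w := Alv_anti h v tb (by omega) hD
  have hAq1 : Alv h v tb p (q + 1) w := Alv_anti h v tb (by omega) hD
  unfold gM3 at hg
  by_cases h1 : nrT M c x q w
  · exact Or.inl ⟨hrm, h1⟩
  right
  by_cases h2 : ruO tb v q w → ¬ Lsq M q w
  swap
  · push Not at h2
    exact Or.inl h2
  right
  by_cases h3 : ∀ i ∈ vk k, rpO tb v i q w → ¬ MV.Mv M i q w
  swap
  · push Not at h3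
    obtain ⟨i, hi, h4, h5⟩ := h3
    left
    refine ⟨i, hi, h4, ?_, ?_, Or.inl h5⟩
    · refine alq_ss tb (j := q % 5 + 1) (by have := h4.1; omega) (by omega) (by omega) i hT1 hw ?_
      exact ((hAq1 (q + 1) le_rfl).1 i).trans (le_max_left _ _)
    · refine alq_ss tb (j := q % 5) (by have := h4.1; omega) (by omega) (by omega) (oc i) hT hw ?_
      exact ((hAq0 q le_rfl).1 (oc i)).trans (le_max_left _ _)
  right
  by_cases h4 : ∀ i ∈ vk k, ruO tb v q w → (be k i q w ∨ ze k q w) → ¬ MV.Mv M i (nu M q w) w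
  swap
  · push Not at h4
    obtain ⟨i, hi, h5, h6, h7⟩ := h4
    left
    have hMP' : M.P.p w ≠ 0 := by rw [hMP]; exact hw
    refine ⟨i, hi, ⟨h5, ⟨unl_self hMP' (h2 h5), h7, hst h5.1 ha (oc i), hst h5.1 ha (od i)⟩, ?_⟩, h6⟩
    have hro : RZ.rho (nu M q w) ≤ 2 * (q / 5) + 1 := by
      have g1 : nu M q w ≤ q := stg_le q w
      have g2 := RZ.rho_mono g1
      have g3 : RZ.rho q = 2 * (q / 5) + 1 := by
        have := h5.1
        unfold RZ.rho
        omega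
      rwa [g3] at g2
    exact RZ.alz_of_Ar hro ((pul_pt h tb (Nat.zero_le T)).ne hw) rfl rfl hA1
  right
  refine ⟨ha, hr, hb, fun h5 => hg ⟨hAq0, h1, h2, h3, h4, h5⟩⟩

end

end Pool.Agent.GMH.GM3
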