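import Pool.Agent.GMH.Gdy

/-!
# GMH/GdyB (helper63): bad rows of a greedy cover (note 3454 (2))

`bad A T w` : the set `A` is dense (`>= u/2`) outside the covered set at some time `< T` on the path of `w`.
`bad_le` : rows `row (x 0), .., row (x (M-1)), row y` with `x i`, `y` independent with the same law `q`:
`P (row y is bad for the cover of row (x i), i < M) <= 2 / (u (M+1))`.
-/

set_option autoImplicit false
set_option linter.unusedSectionVars false

namespace Pool.Agent.GMH.Gdy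

open Finset Pool.Agent.PWZ Pool.Agent.M3

noncomputable section

variable {Om : Type*} [Fintype Om] (P : FP Om) {κ : ℕ → Type*} (X : ∀ t, Om → κ t) (u : ℝ)

/-- the set `A` is dense outside the covered set at a time `< T` -/
def bad (H : ℕ → Om → Prop) (M : ℕ) (A : Om → Prop) (T : ℕ) (w : Om) : Prop :=
  ∃ s < T, u / 2 ≤ cp P X s (fun v => A v ∧ ¬ cov P X u H M (s + 1) v) w

variable {P X u}

/-- a row which is never taken can be left out -/
theorem skip {H H' : ℕ → Om → Prop} {M j : ℕ} (hX : Filt X) (hj : j ≤ M) (h1 : ∀ r < j, H' r = H r)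
    (h2 : ∀ r, j ≤ r → H' r = H (r + 1)) {w : Om} (s : ℕ) (ht : ∀ s' ≤ s, ¬ tk P X u H (M + 1) s' j w) :
    ∀ v, X s v = X s w → (cov P X u H' M (s + 1) v ↔ cov P X u H (M + 1) (s + 1) v) := by
  have one : ∀ s, (∀ v, X s v = X s w → (cov P X u H' M s v ↔ cov P X u H (M + 1) s v)) →
      ¬ tk P X u H (M + 1) s j w →
      ∀ v, X s v = X s w → (cov P X u H' M (s + 1) v ↔ cov P X u H (M + 1) (s + 1) v) := by
    intro s h0 hts
    have tk_eq : ∀ {C C' A A' : Om → Prop}, (∀ v, X s v = X s w → (C v ↔ C' v)) → A = A' → ∀ v, X s v = X s w →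
        (tk1 P X u s C A v ↔ tk1 P X u s C' A' v) := by
      intro C C' A A' hC hA v hv
      subst hA
      unfold tk1
      rw [cp_congr_on (A := fun v => A v ∧ ¬ C v) (B := fun v => A v ∧ ¬ C' v)]
      intro v' _ hv'
      rw [hC v' (hv'.trans hv)]
    have p1 : ∀ r ≤ j, ∀ v, X s v = X s w → (Cv P X u H' M s r v ↔ Cv P X u H (M + 1) s r v) := by
      intro r
      induction r with
      | zero => intro _ v hv; exact h0 v hv
      | succ r ih =>
        intro hr v hv
        have i1 := ih (by omega)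
        have e1 : Cv P X u H' M s (r + 1) v ↔
            (Cv P X u H' M s r v ∨ (H' r v ∧ tk1 P X u s (Cv P X u H' M s r) (H' r) v)) := Iff.rfl
        have e2 : Cv P X u H (M + 1) s (r + 1) v ↔
            (Cv P X u H (M + 1) s r v ∨ (H r v ∧ tk1 P X u s (Cv P X u H (M + 1) s r) (H r) v)) := Iff.rfl
        rw [e1, e2, i1 v hv, tk_eq i1 (h1 r (by omega)) v hv, h1 r (by omega)]
    have p2 : ∀ r, j ≤ r → ∀ v, X s v = X s w → (Cv P X u H' M s r v ↔ Cv P X u H (M + 1) s (r + 1) v) := by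
      intro r hr
      induction r, hr using Nat.le_induction with
      | base =>
        intro v hv
        have e2 : Cv P X u H (M + 1) s (j + 1) v ↔
            (Cv P X u H (M + 1) s j v ∨ (H j v ∧ tk P X u H (M + 1) s j v)) := Iff.rfl
        have h3 : ¬ tk P X u H (M + 1) s j v := fun h => hts ((tk_fac hv).1 h)
        rw [e2, p1 j le_rfl v hv]
        tauto
      | succ r hr ih =>
        intro v hv
        have e1 : Cv P X u H' M s (r + 1) v ↔
            (Cv P X u H' M s r v ∨ (H' r v ∧ tk1 P X u s (Cv P X u H' M s r) (H' r) v)) := Iff.rfl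
        have e2 : Cv P X u H (M + 1) s (r + 1 + 1) v ↔ (Cv P X u H (M + 1) s (r + 1) v ∨
            (H (r + 1) v ∧ tk1 P X u s (Cv P X u H (M + 1) s (r + 1)) (H (r + 1)) v)) := Iff.rfl
        rw [e1, e2, ih v hv, tk_eq ih (h2 r hr) v hv, h2 r hr]
    intro v hv
    exact p2 M hj v hv
  induction s with
  | zero => exact one 0 (fun _ _ => Iff.rfl) (ht 0 le_rfl)
  | succ s ih =>
    refine one (s + 1) (fun v hv => ?_) (ht (s + 1) le_rfl)
    exact ih (fun s' hs' => ht s' (by omega)) v (hX s v w hv)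

/-- a row which is bad for the cover of the others is taken in the cover of all -/
theorem bad_tk {H H' : ℕ → Om → Prop} {M j : ℕ} (hX : Filt X) (hu : 0 < u) (hj : j ≤ M) (h1 : ∀ r < j, H' r = H r)
    (h2 : ∀ r, j ≤ r → H' r = H (r + 1)) {T : ℕ} {w : Om} (hb : bad P X u H' M (H j) T w) :
    ∃ s < T, tk P X u H (M + 1) s j w := by
  by_contra hcon
  push Not at hcon
  obtain ⟨s, hs, h3⟩ := hb
  have h4 := skip (P := P) (u := u) hX hj h1 h2 s (fun s' hs' => hcon s' (by omega)) (w := w)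
  have h5 := cp_lt (P := P) (X := X) (H := H) (M := M + 1) hu (s := s) (r := j) (by omega) w
  rw [cp_congr_on (B := fun v => H j v ∧ ¬ cov P X u H (M + 1) (s + 1) v)] at h3
  · linarith
  · intro v _ hv
    rw [h4 v hv]

/-! ## iid rows -/

variable {R : Type*}

/-- the rows of a sample -/
def rows (row : R → Om → Prop) {n : ℕ} (x : Fin n → R) (r : ℕ) (v : Om) : Prop := ∃ h : r < n, row (x ⟨r, h⟩) v

theorem rows_lt (row : R → Om → Prop) {n : ℕ} (x : Fin n → R) (j : Fin n) : rows row x j = row (x j) := by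
  funext v
  exact propext ⟨fun ⟨_, h⟩ => h, fun h => ⟨j.2, h⟩⟩

theorem sa_lt {n : ℕ} (j : Fin (n + 1)) {r : ℕ} (h : r < n) (hr : r < j.1) :
    j.succAbove ⟨r, h⟩ = ⟨r, by omega⟩ :=
  Fin.succAbove_of_castSucc_lt j ⟨r, h⟩ hr

theorem sa_ge {n : ℕ} (j : Fin (n + 1)) {r : ℕ} (h : r < n) (hr : j.1 ≤ r) :
    j.succAbove ⟨r, h⟩ = ⟨r + 1, by omega⟩ :=
  Fin.succAbove_of_le_castSucc j ⟨r, h⟩ hr

theorem rows_skip (row : R → Om → Prop) {n : ℕ} (z : Fin (n + 1) → R) (j : Fin (n + 1)) :
    (∀ r < j.1, rows row (fun i => z (j.succAbove i)) r = rows row z r) ∧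
      ∀ r, j.1 ≤ r → rows row (fun i => z (j.succAbove i)) r = rows row z (r + 1) := by
  constructor
  · intro r hr
    funext v
    refine propext ⟨fun ⟨h, h'⟩ => ⟨by omega, ?_⟩, fun ⟨h, h'⟩ => ⟨by have := j.2; omega, ?_⟩⟩
    · have h2 : row (z (j.succAbove ⟨r, h⟩)) v := h'
      rw [sa_lt j h hr] at h2
      exact h2
    · have hn : r < n := by have := j.2; omega
      show row (z (j.succAbove ⟨r, hn⟩)) v
      rw [sa_lt j hn hr]
      exact h'
  · intro r hr
    funext v
    refine propext ⟨fun ⟨h, h'⟩ => ⟨by omega, ?_⟩, fun ⟨h, h'⟩ => ⟨by omega, ?_⟩⟩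
    · have h2 : row (z (j.succAbove ⟨r, h⟩)) v := h'
      rw [sa_ge j h hr] at h2
      exact h2
    · have hn : r < n := by omega
      show row (z (j.succAbove ⟨r, hn⟩)) v
      rw [sa_ge j hn hr]
      exact h'

variable [Fintype R]

/-- the weight of a sample -/
def sw (q : R → ℝ) {n : ℕ} (x : Fin n → R) : ℝ := ∏ i, q (x i)

theorem sw_nonneg {q : R → ℝ} (hq : ∀ a, 0 ≤ q a) {n : ℕ} (x : Fin n → R) : 0 ≤ sw q x :=
  Finset.prod_nonneg fun i _ => hq _

theorem sw_sum {q : R → ℝ} (hq1 : ∑ a, q a = 1) (n : ℕ) : ∑ x : Fin n → R, sw q x = 1 := by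
  classical
  have h := Finset.prod_univ_sum (fun _ : Fin n => (univ : Finset R)) (fun _ a => q a)
  rw [Fintype.piFinset_univ] at h
  unfold sw
  rw [← h]
  exact Finset.prod_eq_one fun _ _ => hq1

/-- one coordinate of a sample of `n + 1` points against the others -/
theorem sw_split (q : R → ℝ) {n : ℕ} (j : Fin (n + 1)) (F : R → (Fin n → R) → ℝ) :
    ∑ z : Fin (n + 1) → R, sw q z * F (z j) (fun i => z (j.succAbove i)) =
      ∑ x : Fin n → R, sw q x * ∑ a, q a * F a x := by
  classical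
  rw [← Equiv.sum_comp (Fin.insertNthEquiv (fun _ => R) j), Fintype.sum_prod_type, Finset.sum_comm]
  refine Finset.sum_congr rfl fun x _ => ?_
  rw [Finset.mul_sum]
  refine Finset.sum_congr rfl fun a _ => ?_
  have e1 : (Fin.insertNthEquiv (fun _ => R) j) (a, x) = j.insertNth a x := rfl
  have e2 : sw q (j.insertNth a x : Fin (n + 1) → R) = q a * sw q x := by
    unfold sw
    rw [Fin.prod_univ_succAbove _ j]
    simp
  rw [e1, e2]
  simp only [Fin.insertNth_apply_same, Fin.insertNth_apply_succAbove]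
  ring

/-- **bad rows** -/
theorem bad_le (hX : Filt X) (hu : 0 < u) {q : R → ℝ} (hq : ∀ a, 0 ≤ q a) (hq1 : ∑ a, q a = 1)
    (row : R → Om → Prop) (M T : ℕ) :
    ∑ x : Fin M → R, sw q x * ∑ a, q a * P.Pr (bad P X u (rows row x) M (row a) T) ≤ 2 / (u * (M + 1)) := by
  have h1 : ∀ j : Fin (M + 1), ∑ x : Fin M → R, sw q x * ∑ a, q a * P.Pr (bad P X u (rows row x) M (row a) T) ≤
      ∑ z : Fin (M + 1) → R, sw q z * ∑ s ∈ range T, P.Pr (tk P X u (rows row z) (M + 1) s j) := by
    intro j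
    rw [← sw_split q j (fun a x => P.Pr (bad P X u (rows row x) M (row a) T))]
    refine Finset.sum_le_sum fun z _ => mul_le_mul_of_nonneg_left ?_ (sw_nonneg hq z)
    have h2 := rows_skip row z j
    refine (P.Pr_mono fun w _ hw => ?_).trans (P.Pr_ex_le (range T) _)
    rw [← rows_lt row z j] at hw
    obtain ⟨s, hs, h3⟩ := bad_tk hX hu (by have := j.2; omega) h2.1 h2.2 hw
    exact ⟨s, mem_range.2 hs, h3⟩
  have h2 : ∑ j : Fin (M + 1), ∑ z : Fin (M + 1) → R, sw q z * ∑ s ∈ range T,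
      P.Pr (tk P X u (rows row z) (M + 1) s j) ≤ 2 / u := by
    rw [Finset.sum_comm]
    have h3 : ∀ z : Fin (M + 1) → R, ∑ j : Fin (M + 1), sw q z * ∑ s ∈ range T,
        P.Pr (tk P X u (rows row z) (M + 1) s j) ≤ sw q z * (2 / u) := by
      intro z
      rw [← Finset.mul_sum, Finset.sum_comm]
      refine mul_le_mul_of_nonneg_left ?_ (sw_nonneg hq z)
      refine le_trans (le_of_eq ?_) (taken_le (P := P) (X := X) (H := rows row z) (M := M + 1) hu T)
      refine Finset.sum_congr rfl fun s _ => ?_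
      exact Fin.sum_univ_eq_sum_range (fun r => P.Pr (tk P X u (rows row z) (M + 1) s r)) (M + 1)
    refine (Finset.sum_le_sum fun z _ => h3 z).trans ?_
    rw [← Finset.sum_mul, sw_sum hq1, one_mul]
  have h4 : ((M : ℝ) + 1) * ∑ x : Fin M → R, sw q x * ∑ a, q a * P.Pr (bad P X u (rows row x) M (row a) T) ≤
      2 / u := by
    refine le_trans (le_of_eq ?_) ((Finset.sum_le_sum fun j _ => h1 j).trans h2)
    rw [Finset.sum_const, Finset.card_univ, Fintype.card_fin, nsmul_eq_mul]
    push_cast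
    rfl
  rw [le_div_iff₀ hu] at h4
  rw [le_div_iff₀ (mul_pos hu (by positivity))]
  linarith

end

end Pool.Agent.GMH.Gdy
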