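import Pool.Agent.GMH.GdyR

/-!
# GMH/GdyN (helper15): NAMES FOR THE PIECES OF A CUMULATIVE COVER (note 4044 (A))

The cover of GMH/GdyR is cumulative: the shape of a piece depends on all rows taken before it, on the whole path.  Here the
pieces get names of bounded length.  A piece is ALIVE (`alv`) at the level `s` if its mass in the cell was `≥ th kap` at
every level since it was taken; `ded s` = the point is in a piece which is not alive.

* `ded_le` : `P (ded at a stopping time) ≤ th P (covered at the stopping time)`;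
* `len_le` : at most `1 / (th kap)` pieces are alive at a level, pointwise; `nm s w` = their list in the order of the takings
  (level of the taking, row, bit), a function of the cell (`nm_fac`);
* `dl l` = decision list of the names `l` : the first section which contains the point decides;
* `sel_dl` : outside `ded` the function of the selected pieces is `dl (nm s w)`; `cov_nm` : outside `ded` a point is covered
  iff it is in one of the named sections;
* `PhL_dl` : the potential is at most the mean of `dl (nm s w)` if the cell has little of `ded`;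
* `payN`, `payD` : `lam P (covered at a stopping time) ≤ 4 E (mean of the named function)`;
* `Cd`, `cd_ex`, `cd_static`, `payC` : codes of the names (at most `N` names, `1 < th kap (N + 1)`), a finite type.
-/

set_option autoImplicit false
set_option linter.unusedSectionVars false

namespace Pool.Agent.GMH.GdyN

open Finset Pool.Agent.PWZ Pool.Agent.M3 Pool.Agent.GMH.Gdy Pool.Agent.GMH.GdyR

noncomputable section

/-! ## optional stopping -/

section stop

variable {Om : Type*} [Fintype Om] {P : FP Om} {κ : ℕ → Type*} {X : ∀ t, Om → κ t}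

theorem stp_bdd {σ : Om → ℕ} : ∃ T, ∀ w, σ w < T := by
  classical
  exact ⟨univ.sup σ + 1, fun w => Nat.lt_succ_of_le (Finset.le_sup (f := σ) (mem_univ w))⟩

/-- a conditional mean at a stopping time -/
theorem E_stop_ce (hX : Filt X) {σ : Om → ℕ} (hσ : Stp X σ) {h : ℕ → Om → ℝ} (hh : ∀ s, Fac (X s) (h s))
    (g : ℕ → Om → ℝ) :
    P.E (fun w => h (σ w) w * P.ce (X (σ w)) (g (σ w)) w) = P.E (fun w => h (σ w) w * g (σ w) w) := by
  obtain ⟨T, hT⟩ := stp_bdd (σ := σ)
  rw [E_stop hT (fun s w => h s w * P.ce (X s) (g s) w), E_stop hT (fun s w => h s w * g s w)]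
  refine Finset.sum_congr rfl fun s _ => ?_
  have h1 : Fac (X s) (fun w => ind (σ w = s) * h s w) := (Stp.eq_fac hX hσ s).mul (hh s)
  have h2 := P.E_mul_ce h1 (g s)
  calc P.E (fun w => ind (σ w = s) * (h s w * P.ce (X s) (g s) w))
      = P.E (fun w => ind (σ w = s) * h s w * P.ce (X s) (g s) w) := P.E_congr fun w _ => by ring
    _ = P.E (fun w => ind (σ w = s) * h s w * g s w) := h2
    _ = _ := P.E_congr fun w _ => by ring

/-- the same for an event -/
theorem E_stop_cp (hX : Filt X) {σ : Om → ℕ} (hσ : Stp X σ) (A : ℕ → Om → Prop) :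
    P.E (fun w => cp P X (σ w) (A (σ w)) w) = P.Pr (fun w => A (σ w) w) := by
  have h := E_stop_ce (P := P) hX hσ (h := fun _ _ => 1) (fun s => Fac.const _ _) (fun s w => ind (A s w))
  simp only [one_mul] at h
  exact h

/-- Markov at a stopping time -/
theorem mk_stop (hX : Filt X) {σ : Om → ℕ} (hσ : Stp X σ) (A : ℕ → Om → Prop) (eps : ℝ) :
    eps * P.Pr (fun w => eps < cp P X (σ w) (A (σ w)) w) ≤ P.Pr (fun w => A (σ w) w) := by
  rw [← E_stop_cp hX hσ A]
  unfold FP.Pr
  rw [← FP.E_smul]
  refine P.E_mono fun w _ => ?_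
  by_cases h : eps < cp P X (σ w) (A (σ w)) w
  · rw [ind_of h, mul_one]
    exact h.le
  · rw [ind_not h, mul_zero]
    exact cp_nonneg _ _ _

end stop

/-! ## living pieces -/

section alive

variable {Om : Type*} [Fintype Om] (P : FP Om) {κ : ℕ → Type*} (X : ∀ t, Om → κ t) {R : Type*}
  (H : ℕ → R → Om → Prop) (f : R → Om → ℝ) (kap lam : ℝ) (K : ℕ) (th : ℝ) {n : ℕ} (x : Fin n → R)

/-- the piece `(t, i)` is alive at the level `s` : mass `≥ th kap` in the cell at every level since the taking -/
def alv (t : ℕ) (i : Fin n) (s : ℕ) (w : Om) : Prop :=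
  ∀ s', t / K ≤ s' → s' ≤ s → th * kap ≤ cp P X s' (pcL P X H f kap lam K x t i) w

/-- the point is in a piece which is not alive -/
def ded (s : ℕ) (w : Om) : Prop :=
  ∃ t < (s + 1) * K, ∃ i, pcL P X H f kap lam K x t i w ∧ ¬ alv P X H f kap lam K th x t i s w

/-- the level at which the piece dies -/
def dth (t : ℕ) (i : Fin n) (s : ℕ) (w : Om) : Prop :=
  (t / K ≤ s ∧ cp P X s (pcL P X H f kap lam K x t i) w < th * kap) ∧
    ∀ s', t / K ≤ s' → s' < s → th * kap ≤ cp P X s' (pcL P X H f kap lam K x t i) w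

variable {P X H f kap lam K th x}

theorem lt_lev {t s : ℕ} (hK : 0 < K) : t < (s + 1) * K ↔ t / K ≤ s := by
  rw [← Nat.div_lt_iff_lt_mul hK]
  exact Nat.lt_succ_iff

theorem alv_fac (hX : Filt X) {t : ℕ} {i : Fin n} {s : ℕ} {v w : Om} (e : X s v = X s w) :
    alv P X H f kap lam K th x t i s v ↔ alv P X H f kap lam K th x t i s w :=
  forall_congr' fun s' => forall_congr' fun _ => forall_congr' fun h => by
    rw [cp_fac s' _ v w (hX.le h v w e)]

theorem alv_anti {t : ℕ} {i : Fin n} {s s' : ℕ} (h : s ≤ s') {w : Om} (hw : alv P X H f kap lam K th x t i s' w) :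
    alv P X H f kap lam K th x t i s w := fun s'' h1 h2 => hw s'' h1 (h2.trans h)

theorem ded_fac {κ' : ℕ → Type*} {G : ∀ t, Om → κ' t} (hG : Filt G) (hX : Filt X) (hK : 0 < K)
    (hGX : ∀ s, Fac (G s) (X s)) (hH : ∀ s a v w, G s v = G s w → (H s a v ↔ H s a w)) (s : ℕ) (v w : Om)
    (e : G s v = G s w) : ded P X H f kap lam K th x s v ↔ ded P X H f kap lam K th x s w := by
  refine exists_congr fun t => and_congr_right fun ht => exists_congr fun i => ?_
  rw [alv_fac hX (hGX s v w e)]
  refine and_congr_left fun _ => ?_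
  -- what a piece sees
  have hs : t / K ≤ s := (lt_lev hK).1 ht
  have h0 : G (t / K) v = G (t / K) w := hG.le hs v w e
  have h1 : GdyR.cov P (rX X K) (rH H K) f kap lam x t v ↔ GdyR.cov P (rX X K) (rH H K) f kap lam x t w := by
    cases t with
    | zero => exact Iff.rfl
    | succ t =>
      refine GdyR.cov_fac (P := P) (X := rX X K) (H := rH H K) (f := f) (kap := kap) (lam := lam) (x := x)
        (G := fun t => G (t / K)) (fun t => hG.le (Nat.div_le_div_right (Nat.le_succ t))) (fun t => hGX (t / K))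
        (fun t a v w h => hH (t / K) a v w h) t v w ?_
      exact hG.le ((Nat.div_le_div_right (Nat.le_succ t)).trans hs) v w e
  unfold pcL pc
  rw [h1, GdyR.tk_fac (show rX X K t v = rX X K t w from hGX _ v w h0)]
  have h2 : rH H K t (x i) v ↔ rH H K t (x i) w := hH (t / K) (x i) v w h0
  rw [h2]

theorem dth_fac (hX : Filt X) {t : ℕ} {i : Fin n} {s : ℕ} {v w : Om} (e : X s v = X s w) :
    dth P X H f kap lam K th x t i s v ↔ dth P X H f kap lam K th x t i s w := by
  unfold dth
  rw [cp_fac s _ v w e]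
  refine and_congr_right fun _ => forall_congr' fun s' => forall_congr' fun _ => forall_congr' fun h => ?_
  rw [cp_fac s' _ v w (hX.le h.le v w e)]

theorem dth_one {t : ℕ} {i : Fin n} {w : Om} (s s' : ℕ) (h : dth P X H f kap lam K th x t i s w)
    (h' : dth P X H f kap lam K th x t i s' w) : s = s' := by
  rcases lt_trichotomy s s' with h1 | h1 | h1
  · exact absurd h.1.2 (not_lt.2 (h'.2 s h.1.1 h1))
  · exact h1
  · exact absurd h'.1.2 (not_lt.2 (h.2 s' h'.1.1 h1))

theorem dth_ex {t : ℕ} {i : Fin n} {s : ℕ} {w : Om} (h : ¬ alv P X H f kap lam K th x t i s w) :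
    ∃ s' ≤ s, dth P X H f kap lam K th x t i s' w := by
  classical
  unfold alv at h
  push Not at h
  have hex : ∃ s', t / K ≤ s' ∧ cp P X s' (pcL P X H f kap lam K x t i) w < th * kap := by
    obtain ⟨s', h1, _, h3⟩ := h
    exact ⟨s', h1, h3⟩
  obtain ⟨s', h1, h2, h3⟩ := h
  refine ⟨Nat.find hex, (Nat.find_min' hex ⟨h1, h3⟩).trans h2, Nat.find_spec hex, fun s'' h4 h5 => ?_⟩
  have := Nat.find_min hex h5
  push Not at this
  exact this h4

/-- a living piece was taken -/
theorem alv_tk (k0 : 0 < kap) (t0 : 0 < th) {t : ℕ} {i : Fin n} {s : ℕ} (hs : t / K ≤ s) {w : Om}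
    (h : alv P X H f kap lam K th x t i s w) : GdyR.tk P (rX X K) (rH H K) f kap lam x t i w := by
  by_contra hn
  have h1 := h (t / K) le_rfl hs
  have h2 : cp P X (t / K) (pcL P X H f kap lam K x t i) w = 0 := by
    have h3 := cp_pc (P := P) (X := rX X K) (H := rH H K) (f := f) (kap := kap) (lam := lam) (x := x) t i w
    rw [ind_not hn, zero_mul] at h3
    exact h3
  rw [h2] at h1
  have := mul_pos t0 k0
  linarith

theorem cp_pcL_zero (hX : Filt X) {t : ℕ} {i : Fin n} {s : ℕ} (hs : t / K ≤ s) {w : Om}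
    (h : ¬ GdyR.tk P (rX X K) (rH H K) f kap lam x t i w) : cp P X s (pcL P X H f kap lam K x t i) w = 0 :=
  cp_zero fun v _ e hv => h ((GdyR.tk_fac (show rX X K t v = rX X K t w from hX.le hs v w e)).1 hv.2)

/-- the sum of the masses of the pieces -/
theorem sum_cp (s s' : ℕ) (w : Om) : ∑ t ∈ range ((s' + 1) * K), ∑ i, cp P X s (pcL P X H f kap lam K x t i) w =
    cp P X s (covL P X H f kap lam K x s') w := by
  unfold cp
  rw [show (fun v => ind (covL P X H f kap lam K x s' v)) = fun v => ∑ t ∈ range ((s' + 1) * K), ∑ i,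
    ind (pcL P X H f kap lam K x t i v) from funext fun v => ind_covL s' v, P.ce_sum]
  exact Finset.sum_congr rfl fun t _ => (P.ce_sum _ _ _ w).symm

theorem cp_le_one {s : ℕ} (A : Om → Prop) {w : Om} (hw : P.p w ≠ 0) : cp P X s A w ≤ 1 :=
  P.ce_le_const (fun _ _ => ind_le_one _) hw

/-- **the number of the living pieces** -/
theorem alv_le (hK : 0 < K) (s : ℕ) {w : Om} (hw : P.p w ≠ 0) :
    th * kap * ∑ t ∈ range ((s + 1) * K), ∑ i, ind (alv P X H f kap lam K th x t i s w) ≤ 1 := by
  have h1 := sum_cp (P := P) (X := X) (H := H) (f := f) (kap := kap) (lam := lam) (K := K) (x := x) s s w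
  have h2 : cp P X s (covL P X H f kap lam K x s) w ≤ 1 := cp_le_one _ hw
  rw [Finset.mul_sum]
  refine (Finset.sum_le_sum fun t ht => ?_).trans (h1.le.trans h2)
  rw [Finset.mul_sum]
  refine Finset.sum_le_sum fun i _ => ?_
  by_cases h : alv P X H f kap lam K th x t i s w
  · rw [ind_of h, mul_one]
    exact h s ((lt_lev hK).1 (mem_range.1 ht)) le_rfl
  · rw [ind_not h, mul_zero]
    exact cp_nonneg _ _ _

/-- **THE DEAD PIECES ARE RARE** : only the fraction `th` of the covered points -/
theorem ded_le (hX : Filt X) (hK : 0 < K) (k0 : 0 ≤ kap) (t0 : 0 ≤ th) {σ : Om → ℕ} (hσ : Stp X σ) :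
    P.Pr (fun w => ded P X H f kap lam K th x (σ w) w) ≤
      th * P.Pr (fun w => covL P X H f kap lam K x (σ w) w) := by
  obtain ⟨T, hT⟩ := stp_bdd (σ := σ)
  -- one piece
  have one : ∀ t i, P.Pr (fun w => ∃ s ∈ range T, pcL P X H f kap lam K x t i w ∧
      (dth P X H f kap lam K th x t i s w ∧ s ≤ σ w)) ≤
      th * P.Pr (fun w => pcL P X H f kap lam K x t i w ∧ t / K ≤ σ w) := by
    intro t i
    have a1 : ∀ s, P.Pr (fun w => pcL P X H f kap lam K x t i w ∧
        (dth P X H f kap lam K th x t i s w ∧ s ≤ σ w)) ≤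
        P.E (fun w => th * (kap * (ind (GdyR.tk P (rX X K) (rH H K) f kap lam x t i w) *
          ind (dth P X H f kap lam K th x t i s w ∧ s ≤ σ w)))) := by
      intro s
      have hf : Fac (X s) (fun w => ind (dth P X H f kap lam K th x t i s w ∧ s ≤ σ w)) :=
        Fac.ind fun v w e => by
          rw [dth_fac hX e, CR.Stp.le_fac hX hσ s e]
      have h1 : P.Pr (fun w => pcL P X H f kap lam K x t i w ∧
          (dth P X H f kap lam K th x t i s w ∧ s ≤ σ w)) =
          P.E (fun w => ind (dth P X H f kap lam K th x t i s w ∧ s ≤ σ w) *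
            cp P X s (pcL P X H f kap lam K x t i) w) := by
        unfold FP.Pr cp
        rw [P.E_mul_ce hf]
        exact P.E_congr fun w _ => by rw [ind_and, mul_comm]
      rw [h1]
      refine P.E_mono fun w _ => ?_
      by_cases h2 : dth P X H f kap lam K th x t i s w ∧ s ≤ σ w
      · rw [ind_of h2, one_mul, mul_one]
        by_cases h3 : GdyR.tk P (rX X K) (rH H K) f kap lam x t i w
        · rw [ind_of h3, mul_one]
          exact h2.1.1.2.le
        · rw [cp_pcL_zero hX h2.1.1.1 h3, ind_not h3, mul_zero, mul_zero]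
      · rw [ind_not h2, zero_mul, mul_zero, mul_zero, mul_zero]
    have a2 : P.Pr (fun w => ∃ s ∈ range T, pcL P X H f kap lam K x t i w ∧
        (dth P X H f kap lam K th x t i s w ∧ s ≤ σ w)) ≤
        P.E (fun w => th * (kap * (ind (t / K ≤ σ w) * ind (GdyR.tk P (rX X K) (rH H K) f kap lam x t i w)))) := by
      refine (P.Pr_ex_le (range T) _).trans ((Finset.sum_le_sum fun s _ => a1 s).trans ?_)
      rw [← FP.E_sum]
      refine P.E_mono fun w _ => ?_
      rw [← Finset.mul_sum, ← Finset.mul_sum, ← Finset.mul_sum]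
      refine mul_le_mul_of_nonneg_left (mul_le_mul_of_nonneg_left ?_ k0) t0
      rw [mul_comm (ind (t / K ≤ σ w))]
      refine mul_le_mul_of_nonneg_left ?_ (ind_nonneg _)
      rw [CR.sum_ind (A := fun s => dth P X H f kap lam K th x t i s w ∧ s ≤ σ w)
        (fun s s' h h' => dth_one s s' h.1 h'.1) T]
      refine ind_mono ?_
      rintro ⟨s, _, h1, h2⟩
      exact h1.1.1.trans h2
    refine a2.trans ?_
    have a3 : P.E (fun w => ind (t / K ≤ σ w) * cp P X (t / K) (pcL P X H f kap lam K x t i) w) =
        P.Pr (fun w => pcL P X H f kap lam K x t i w ∧ t / K ≤ σ w) := by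
      have hf : Fac (X (t / K)) (fun w => ind (t / K ≤ σ w)) := Fac.ind fun v w e => CR.Stp.le_fac hX hσ _ e
      unfold FP.Pr cp
      rw [P.E_mul_ce hf]
      exact P.E_congr fun w _ => by rw [ind_and, mul_comm]
    rw [← a3, ← FP.E_smul]
    refine P.E_mono fun w _ => mul_le_mul_of_nonneg_left ?_ t0
    have a4 : kap * ind (GdyR.tk P (rX X K) (rH H K) f kap lam x t i w) ≤
        cp P X (t / K) (pcL P X H f kap lam K x t i) w :=
      pc_ge (P := P) (X := rX X K) (H := rH H K) (f := f) (kap := kap) (lam := lam) (x := x) t i w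
    calc kap * (ind (t / K ≤ σ w) * ind (GdyR.tk P (rX X K) (rH H K) f kap lam x t i w))
        = ind (t / K ≤ σ w) * (kap * ind (GdyR.tk P (rX X K) (rH H K) f kap lam x t i w)) := by ring
      _ ≤ _ := mul_le_mul_of_nonneg_left a4 (ind_nonneg _)
  -- all pieces
  have h1 : P.Pr (fun w => ded P X H f kap lam K th x (σ w) w) ≤ ∑ t ∈ range (T * K), ∑ i,
      P.Pr (fun w => ∃ s ∈ range T, pcL P X H f kap lam K x t i w ∧
        (dth P X H f kap lam K th x t i s w ∧ s ≤ σ w)) := by
    refine (P.Pr_mono fun w _ h => ?_).trans ((P.Pr_ex_le (range (T * K)) fun t w => ∃ i ∈ (univ : Finset (Fin n)),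
      ∃ s ∈ range T, pcL P X H f kap lam K x t i w ∧ (dth P X H f kap lam K th x t i s w ∧ s ≤ σ w)).trans
      (Finset.sum_le_sum fun t _ => P.Pr_ex_le univ _))
    obtain ⟨t, ht, i, h2, h3⟩ := h
    obtain ⟨s, hs, h4⟩ := dth_ex h3
    have h5 : (σ w + 1) * K ≤ T * K := Nat.mul_le_mul_right K (hT w)
    exact ⟨t, mem_range.2 (by omega), i, mem_univ i, s, mem_range.2 (lt_of_le_of_lt hs (hT w)), h2, h4, hs⟩
  refine h1.trans ((Finset.sum_le_sum fun t _ => Finset.sum_le_sum fun i _ => one t i).trans ?_)
  have h2 : ∑ t ∈ range (T * K), ∑ i, th * P.Pr (fun w => pcL P X H f kap lam K x t i w ∧ t / K ≤ σ w) =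
      th * P.E (fun w => ∑ t ∈ range (T * K), ∑ i, ind (pcL P X H f kap lam K x t i w ∧ t / K ≤ σ w)) := by
    rw [FP.E_sum, Finset.mul_sum]
    refine Finset.sum_congr rfl fun t _ => ?_
    rw [FP.E_sum, Finset.mul_sum]
    rfl
  rw [h2]
  refine mul_le_mul_of_nonneg_left (P.E_mono fun w _ => ?_) t0
  rw [ind_covL]
  have h5 : (σ w + 1) * K ≤ T * K := Nat.mul_le_mul_right K (hT w)
  have h6 : ∑ t ∈ range (T * K), ∑ i, ind (pcL P X H f kap lam K x t i w ∧ t / K ≤ σ w) =
      ∑ t ∈ range ((σ w + 1) * K), ∑ i, ind (pcL P X H f kap lam K x t i w ∧ t / K ≤ σ w) := by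
    symm
    refine Finset.sum_subset (Finset.range_subset_range.2 h5) fun t _ ht => ?_
    refine Finset.sum_eq_zero fun i _ => ind_not fun h => ht (mem_range.2 ((lt_lev hK).2 h.2))
  rw [h6]
  exact Finset.sum_le_sum fun t _ => Finset.sum_le_sum fun i _ => ind_mono fun h => h.1

end alive

/-! ## names -/

section names

variable {Om : Type*} [Fintype Om] (P : FP Om) {κ : ℕ → Type*} (X : ∀ t, Om → κ t) {R : Type*}
  (H : ℕ → R → Om → Prop) (f : R → Om → ℝ) (kap lam : ℝ) (K : ℕ) (th : ℝ) {n : ℕ} (x : Fin n → R)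

open Classical in
/-- decision list: the first section which contains the point decides -/
def dl : List ((ℕ × R) × Bool) → Om → ℝ
  | [] => fun _ => 0
  | p :: l => fun z => if H p.1.1 p.1.2 z then (if p.2 then f p.1.2 z else 0) else dl l z

open Classical in
/-- the name of the living piece of the refined time `t` -/
def nmf (s : ℕ) (w : Om) (t : ℕ) : Option ((ℕ × R) × Bool) :=
  if h : ∃ i, alv P X H f kap lam K th x t i s w then
    some ((t / K, x h.choose), decide (lam * kap / 2 < amL P X H f kap lam K x t h.choose s w))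
  else none

/-- the names of the living pieces, in the order of the takings -/
def nm (s : ℕ) (w : Om) : List ((ℕ × R) × Bool) :=
  (List.range ((s + 1) * K)).filterMap (nmf P X H f kap lam K th x s w)

variable {P X H f kap lam K th x}

open Classical in
theorem dl_cons (p : (ℕ × R) × Bool) (l : List ((ℕ × R) × Bool)) (z : Om) :
    dl H f (p :: l) z = if H p.1.1 p.1.2 z then (if p.2 then f p.1.2 z else 0) else dl H f l z := rfl

theorem dl_le {L : ℝ} (L0 : 0 ≤ L) (hL : ∀ a z, f a z ≤ L) (l : List ((ℕ × R) × Bool)) (z : Om) :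
    dl H f l z ≤ L := by
  classical
  induction l with
  | nil => exact L0
  | cons p l ih =>
    rw [dl_cons]
    split_ifs
    · exact hL _ _
    · exact L0
    · exact ih

theorem le_dl {L : ℝ} (L0 : 0 ≤ L) (hL : ∀ a z, -L ≤ f a z) (l : List ((ℕ × R) × Bool)) (z : Om) :
    -L ≤ dl H f l z := by
  classical
  induction l with
  | nil => exact neg_nonpos.2 L0
  | cons p l ih =>
    rw [dl_cons]
    split_ifs
    · exact hL _ _
    · exact neg_nonpos.2 L0
    · exact ih

theorem dl_zero {l : List ((ℕ × R) × Bool)} (h : ∀ p ∈ l, p.2 = false) (z : Om) : dl H f l z = 0 := by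
  classical
  induction l with
  | nil => rfl
  | cons p l ih =>
    rw [dl_cons, h p List.mem_cons_self]
    rw [ih fun q hq => h q (List.mem_cons_of_mem _ hq)]
    split_ifs <;> first | rfl | simp_all

/-- what a decision list sees -/
theorem dl_facV {ω : Type*} {V : Om → ω} (l : List ((ℕ × R) × Bool))
    (hH : ∀ p ∈ l, ∀ v w, V v = V w → (H p.1.1 p.1.2 v ↔ H p.1.1 p.1.2 w)) (hf : ∀ p ∈ l, Fac V (f p.1.2)) :
    Fac V (dl H f l) := by
  classical
  induction l with
  | nil => exact fun _ _ _ => rfl
  | cons p l ih =>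
    intro v w e
    rw [dl_cons, dl_cons, ih (fun q hq => hH q (List.mem_cons_of_mem _ hq))
      (fun q hq => hf q (List.mem_cons_of_mem _ hq)) v w e, hf p List.mem_cons_self v w e]
    have h1 := hH p List.mem_cons_self v w e
    by_cases h : H p.1.1 p.1.2 w
    · rw [if_pos (h1.2 h), if_pos h]
    · rw [if_neg (fun h2 => h (h1.1 h2)), if_neg h]

theorem nmf_fac (hX : Filt X) {s : ℕ} {v w : Om} (e : X s v = X s w) (t : ℕ) :
    nmf P X H f kap lam K th x s v t = nmf P X H f kap lam K th x s w t := by
  have h1 : (fun i => alv P X H f kap lam K th x t i s v) = fun i => alv P X H f kap lam K th x t i s w :=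
    funext fun i => propext (alv_fac hX e)
  have h2 : (fun i => amL P X H f kap lam K x t i s v) = fun i => amL P X H f kap lam K x t i s w :=
    funext fun i => P.ce_fac (X s) _ v w e
  unfold nmf
  by_cases h : ∃ i, alv P X H f kap lam K th x t i s v
  · have h' : ∃ i, alv P X H f kap lam K th x t i s w := by rwa [← h1]
    rw [dif_pos h, dif_pos h']
    have h3 : h.choose = h'.choose := by
      congr 1
    rw [h3, show amL P X H f kap lam K x t h'.choose s v = amL P X H f kap lam K x t h'.choose s w from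
      congrFun h2 h'.choose]
  · have h' : ¬ ∃ i, alv P X H f kap lam K th x t i s w := by rwa [← h1]
    rw [dif_neg h, dif_neg h']

/-- the names are seen by the cell -/
theorem nm_fac (hX : Filt X) (s : ℕ) : Fac (X s) (nm P X H f kap lam K th x s) := fun v w e => by
  unfold nm
  congr 1
  exact funext fun t => nmf_fac hX e t

theorem mem_nm {s : ℕ} {w : Om} {p : (ℕ × R) × Bool} (h : p ∈ nm P X H f kap lam K th x s w) :
    ∃ t < (s + 1) * K, ∃ i, alv P X H f kap lam K th x t i s w ∧ p.1 = (t / K, x i) ∧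
      (p.2 = true ↔ lam * kap / 2 < amL P X H f kap lam K x t i s w) := by
  unfold nm at h
  rw [List.mem_filterMap] at h
  obtain ⟨t, ht, h2⟩ := h
  unfold nmf at h2
  split_ifs at h2 with h3
  refine ⟨t, List.mem_range.1 ht, h3.choose, h3.choose_spec, ?_⟩
  rw [Option.some.injEq] at h2
  rw [← h2]
  refine ⟨rfl, ?_⟩
  simp

/-- **THE NUMBER OF THE NAMES** -/
theorem len_le (hK : 0 < K) (k0 : 0 ≤ kap) (t0 : 0 ≤ th) (s : ℕ) {w : Om} (hw : P.p w ≠ 0) :
    th * kap * (nm P X H f kap lam K th x s w).length ≤ 1 := by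
  refine le_trans (mul_le_mul_of_nonneg_left ?_ (mul_nonneg t0 k0))
    (alv_le (P := P) (X := X) (H := H) (f := f) (kap := kap) (lam := lam) (th := th) (x := x) hK s hw)
  have h1 : ∀ N, (((List.range N).filterMap (nmf P X H f kap lam K th x s w)).length : ℝ) ≤
      ∑ t ∈ range N, ∑ i, ind (alv P X H f kap lam K th x t i s w) := by
    intro N
    induction N with
    | zero => simp
    | succ N ih =>
      rw [List.range_succ, List.filterMap_append, List.length_append, Finset.sum_range_succ, Nat.cast_add]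
      refine add_le_add ih ?_
      by_cases h : ∃ i, alv P X H f kap lam K th x N i s w
      · have h2 : (([N].filterMap (nmf P X H f kap lam K th x s w)).length : ℝ) ≤ 1 := by
          have := List.length_filterMap_le (nmf P X H f kap lam K th x s w) [N]
          exact_mod_cast this
        obtain ⟨i, hi⟩ := h
        refine h2.trans ?_
        rw [← ind_of hi]
        exact Finset.single_le_sum (f := fun i => ind (alv P X H f kap lam K th x N i s w))
          (fun _ _ => ind_nonneg _) (mem_univ i)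
      · have h2 : nmf P X H f kap lam K th x s w N = none := by
          unfold nmf
          rw [dif_neg h]
        rw [List.filterMap_cons_none h2, List.filterMap_nil, List.length_nil, Nat.cast_zero]
        exact Finset.sum_nonneg fun _ _ => ind_nonneg _
  exact h1 _

/-- the decision list from the refined time `m` on -/
theorem dl_from (hX : Filt X) (hK : 0 < K) (k0 : 0 < kap) (t0 : 0 < th) {s : ℕ} {w z : Om} (e : X s z = X s w)
    (hd : ¬ ded P X H f kap lam K th x s z) : ∀ k m, m + k = (s + 1) * K →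
    ¬ GdyR.cov P (rX X K) (rH H K) f kap lam x m z →
    dl H f ((List.range' m k).filterMap (nmf P X H f kap lam K th x s w)) z =
      ∑ t ∈ Ico m ((s + 1) * K), ∑ i, ind (lam * kap / 2 < amL P X H f kap lam K x t i s w) *
        (ind (pcL P X H f kap lam K x t i z) * f (x i) z) := by
  classical
  intro k
  induction k with
  | zero =>
    intro m hm _
    rw [show m = (s + 1) * K by omega, Finset.Ico_self, Finset.sum_empty]
    rfl
  | succ k ih =>
    intro m hm hc
    have hmN : m < (s + 1) * K := by omega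
    have hms : m / K ≤ s := (lt_lev hK).1 hmN
    rw [List.range'_succ, Finset.sum_eq_sum_Ico_succ_bot hmN]
    -- a piece which contains the point is alive
    have al : ∀ i, pcL P X H f kap lam K x m i z → alv P X H f kap lam K th x m i s w := fun i hi => by
      rw [← alv_fac hX e]
      by_contra h
      exact hd ⟨m, hmN, i, hi, h⟩
    -- the point is not in a piece of the time `m`
    have cnt : (∀ i, ¬ pcL P X H f kap lam K x m i z) →
        (¬ GdyR.cov P (rX X K) (rH H K) f kap lam x (m + 1) z) ∧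
        ∑ i, ind (lam * kap / 2 < amL P X H f kap lam K x m i s w) *
          (ind (pcL P X H f kap lam K x m i z) * f (x i) z) = 0 := fun h => by
      refine ⟨fun h1 => ?_, Finset.sum_eq_zero fun i _ => by rw [ind_not (h i), zero_mul, mul_zero]⟩
      rcases (GdyR.cov_succ m z).1 h1 with h2 | ⟨i, h2⟩
      · exact hc h2
      · exact h i h2
    by_cases h : ∃ i, alv P X H f kap lam K th x m i s w
    · have h2 : nmf P X H f kap lam K th x s w m = some ((m / K, x h.choose),
          decide (lam * kap / 2 < amL P X H f kap lam K x m h.choose s w)) := by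
        unfold nmf
        rw [dif_pos h]
      rw [List.filterMap_cons_some h2, dl_cons]
      have htk : GdyR.tk P (rX X K) (rH H K) f kap lam x m h.choose z :=
        (GdyR.tk_fac (show rX X K m z = rX X K m w from hX.le hms z w e)).2 (alv_tk k0 t0 hms h.choose_spec)
      by_cases h3 : H (m / K) (x h.choose) z
      · have h4 : pcL P X H f kap lam K x m h.choose z := ⟨⟨h3, hc⟩, htk⟩
        rw [if_pos h3, Finset.sum_eq_single h.choose, ind_of h4, one_mul]
        · -- the later pieces do not contain the point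
          have h5 : ∑ t ∈ Ico (m + 1) ((s + 1) * K), ∑ i, ind (lam * kap / 2 < amL P X H f kap lam K x t i s w) *
              (ind (pcL P X H f kap lam K x t i z) * f (x i) z) = 0 := by
            refine Finset.sum_eq_zero fun t ht => Finset.sum_eq_zero fun i _ => ?_
            have h6 : ¬ pcL P X H f kap lam K x t i z := fun h6 => by
              have h7 := (pcL_one h6 h4).1
              rw [Finset.mem_Ico] at ht
              omega
            rw [ind_not h6, zero_mul, mul_zero]
          rw [h5, add_zero]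
          by_cases h8 : lam * kap / 2 < amL P X H f kap lam K x m h.choose s w
          · rw [ind_of h8, one_mul]
            simp only [h8, decide_true, if_true]
          · rw [ind_not h8, zero_mul]
            simp [h8]
        · intro i _ hi
          have h6 : ¬ pcL P X H f kap lam K x m i z := fun h6 => hi (pcL_one h6 h4).2
          rw [ind_not h6, zero_mul, mul_zero]
        · intro h6
          exact absurd (mem_univ _) h6
      · rw [if_neg h3]
        obtain ⟨c1, c2⟩ := cnt fun i hi => by
          have h6 : i = h.choose := GdyR.fs_one hi.2 htk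
          exact h3 (h6 ▸ hi.1.1)
        rw [c2, zero_add]
        exact ih (m + 1) (by omega) c1
    · have h2 : nmf P X H f kap lam K th x s w m = none := by
        unfold nmf
        rw [dif_neg h]
      rw [List.filterMap_cons_none h2]
      obtain ⟨c1, c2⟩ := cnt fun i hi => h ⟨i, al i hi⟩
      rw [c2, zero_add]
      exact ih (m + 1) (by omega) c1

/-- **THE SELECTED PIECES ARE A DECISION LIST OF THE NAMES**, outside the dead pieces -/
theorem sel_dl (hX : Filt X) (hK : 0 < K) (k0 : 0 < kap) (t0 : 0 < th) {s : ℕ} {w z : Om} (e : X s z = X s w)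
    (hd : ¬ ded P X H f kap lam K th x s z) :
    sel P X H f kap lam K x s w z = dl H f (nm P X H f kap lam K th x s w) z := by
  classical
  have h := dl_from hX hK k0 t0 e hd ((s + 1) * K) 0 (by omega) (fun h => h)
  unfold nm
  rw [List.range_eq_range', h]
  unfold sel IT
  rw [Finset.sum_filter, Finset.sum_product, Finset.range_eq_Ico]
  refine Finset.sum_congr rfl fun t _ => Finset.sum_congr rfl fun i _ => ?_
  by_cases h1 : lam * kap / 2 < amL P X H f kap lam K x t i s w
  · rw [if_pos h1, ind_of h1, one_mul]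
  · rw [if_neg h1, ind_not h1, zero_mul]

/-- **THE COVERED SET IS THE UNION OF THE NAMED SECTIONS**, outside the dead pieces -/
theorem cov_nm (hX : Filt X) (hK : 0 < K) (k0 : 0 < kap) (t0 : 0 < th) {s : ℕ} {w z : Om} (e : X s z = X s w)
    (hd : ¬ ded P X H f kap lam K th x s z) :
    covL P X H f kap lam K x s z ↔ ∃ p ∈ nm P X H f kap lam K th x s w, H p.1.1 p.1.2 z := by
  constructor
  · intro h
    obtain ⟨t, ht, i, hi⟩ := (covL_iff s z).1 h
    have hal : alv P X H f kap lam K th x t i s w := by
      rw [← alv_fac hX e]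
      by_contra h1
      exact hd ⟨t, ht, i, hi, h1⟩
    have hs : t / K ≤ s := (lt_lev hK).1 ht
    have hex : ∃ i, alv P X H f kap lam K th x t i s w := ⟨i, hal⟩
    have h2 : nmf P X H f kap lam K th x s w t = some ((t / K, x hex.choose),
        decide (lam * kap / 2 < amL P X H f kap lam K x t hex.choose s w)) := by
      unfold nmf
      rw [dif_pos hex]
    have h3 : hex.choose = i := GdyR.fs_one (alv_tk k0 t0 hs hex.choose_spec) (alv_tk k0 t0 hs hal)
    refine ⟨((t / K, x hex.choose), decide (lam * kap / 2 < amL P X H f kap lam K x t hex.choose s w)), ?_,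
      (?_ : H (t / K) (x hex.choose) z)⟩
    · unfold nm
      rw [List.mem_filterMap]
      exact ⟨t, List.mem_range.2 ht, h2⟩
    · rw [h3]
      exact hi.1.1
  · rintro ⟨p, hp, h⟩
    obtain ⟨t, ht, i, hal, hp1, _⟩ := mem_nm hp
    rw [hp1] at h
    have hs : t / K ≤ s := (lt_lev hK).1 ht
    have htk : GdyR.tk P (rX X K) (rH H K) f kap lam x t i z :=
      (GdyR.tk_fac (show rX X K t z = rX X K t w from hX.le hs z w e)).2 (alv_tk k0 t0 hs hal)
    have h1 : GdyR.cov P (rX X K) (rH H K) f kap lam x (t + 1) z := Or.inr ⟨i, h, htk⟩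
    exact GdyR.cov_mono (show t + 1 ≤ (s + 1) * K by omega) h1

/-! ### payment -/

theorem PhL_eq (s : ℕ) (w : Om) : PhL P X H f kap lam K x s w =
    P.ce (X s) (sel P X H f kap lam K x s w) w - (IT P X H f kap lam K x s w).card * (lam * kap / 2) := by
  classical
  rw [ce_sel, ← nsmul_eq_mul, ← Finset.sum_const, ← Finset.sum_sub_distrib]
  unfold PhL IT
  rw [Finset.sum_filter, Finset.sum_product]
  refine Finset.sum_congr rfl fun t _ => Finset.sum_congr rfl fun i _ => ?_
  split_ifs with h
  · exact max_eq_left (by linarith)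
  · exact max_eq_right (by linarith [not_lt.1 h])

theorem PhL_zero {s : ℕ} {w : Om} (h : IT P X H f kap lam K x s w = ∅) : PhL P X H f kap lam K x s w = 0 := by
  unfold PhL
  refine Finset.sum_eq_zero fun t ht => Finset.sum_eq_zero fun i _ => max_eq_right ?_
  have h1 : (t, i) ∉ IT P X H f kap lam K x s w := by
    rw [h]
    exact Finset.notMem_empty _
  rw [mem_IT] at h1
  have h2 : ¬ lam * kap / 2 < amL P X H f kap lam K x t i s w := fun h2 => h1 ⟨mem_range.1 ht, h2⟩
  linarith [not_lt.1 h2]

/-- **THE POTENTIAL IS AT MOST THE MEAN OF THE NAMED FUNCTION** -/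
theorem PhL_dl (hX : Filt X) (hK : 0 < K) (k0 : 0 < kap) (t0 : 0 < th) (l0 : 0 ≤ lam) {L : ℝ} (L0 : 0 ≤ L)
    (hL : ∀ a z, f a z ≤ L) (hL' : ∀ a z, -L ≤ f a z) {eps : ℝ} (he : 4 * L * eps ≤ lam * kap) {s : ℕ} {w : Om}
    (hb : cp P X s (ded P X H f kap lam K th x s) w ≤ eps) :
    PhL P X H f kap lam K x s w ≤ P.ce (X s) (dl H f (nm P X H f kap lam K th x s w)) w := by
  by_cases hI : IT P X H f kap lam K x s w = ∅
  · rw [PhL_zero hI]
    have h1 : ∀ p ∈ nm P X H f kap lam K th x s w, p.2 = false := by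
      intro p hp
      obtain ⟨t, ht, i, _, _, h2⟩ := mem_nm hp
      rw [← Bool.not_eq_true]
      intro h3
      have h4 : (t, i) ∈ IT P X H f kap lam K x s w := mem_IT.2 ⟨ht, h2.1 h3⟩
      rw [hI] at h4
      exact absurd h4 (Finset.notMem_empty _)
    exact P.ce_nonneg (fun z _ => by rw [dl_zero h1 z]) w
  · have h1 : (1 : ℝ) ≤ (IT P X H f kap lam K x s w).card := by
      have := Finset.card_pos.2 (Finset.nonempty_iff_ne_empty.2 hI)
      exact_mod_cast this
    have h2 : P.ce (X s) (sel P X H f kap lam K x s w) w ≤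
        P.ce (X s) (dl H f (nm P X H f kap lam K th x s w)) w +
          2 * L * cp P X s (ded P X H f kap lam K th x s) w := by
      unfold cp
      rw [← P.ce_smul, ← P.ce_add]
      -- only the cell matters
      have h3 : P.ce (X s) (sel P X H f kap lam K x s w) w =
          P.ce (X s) (fun z => ind (X s z = X s w) * sel P X H f kap lam K x s w z) w :=
        ce_congr_on fun z _ hz => by rw [ind_of hz, one_mul]
      have h4 : P.ce (X s) (fun z => dl H f (nm P X H f kap lam K th x s w) z +
          2 * L * ind (ded P X H f kap lam K th x s z)) w =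
          P.ce (X s) (fun z => ind (X s z = X s w) * (dl H f (nm P X H f kap lam K th x s w) z +
          2 * L * ind (ded P X H f kap lam K th x s z))) w :=
        ce_congr_on fun z _ hz => by rw [ind_of hz, one_mul]
      rw [h3, h4]
      refine P.ce_mono (fun z _ => ?_) w
      by_cases hz : X s z = X s w
      · refine mul_le_mul_of_nonneg_left ?_ (ind_nonneg _)
        by_cases hd : ded P X H f kap lam K th x s z
        · rw [ind_of hd]
          have h5 := sel_le (P := P) (X := X) (H := H) (f := f) (kap := kap) (lam := lam) (K := K) (x := x) L0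
            (fun i z => hL (x i) z) s w z
          have h6 := le_dl (H := H) (f := f) L0 hL' (nm P X H f kap lam K th x s w) z
          linarith
        · rw [ind_not hd, mul_zero, add_zero, sel_dl hX hK k0 t0 hz hd]
      · rw [ind_not hz, zero_mul, zero_mul]
    have h3 : 0 ≤ lam * kap / 2 := by positivity
    have h4 := mul_le_mul_of_nonneg_right h1 h3
    have h5 := mul_le_mul_of_nonneg_left hb L0
    rw [PhL_eq]
    linarith

theorem PhL_le_L (k0 : 0 ≤ kap) (l0 : 0 ≤ lam) {L : ℝ} (L0 : 0 ≤ L) (hL : ∀ a z, f a z ≤ L) (s : ℕ) {w : Om}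
    (hw : P.p w ≠ 0) : PhL P X H f kap lam K x s w ≤ L :=
  (PhL_le k0 l0 s w).trans (P.ce_le_const (fun z _ => sel_le L0 (fun i z => hL (x i) z) s w z) hw)

/-- **PAYMENT WITH NAMES** : being covered at a stopping time is paid by the mean of the named function -/
theorem payN (hX : Filt X) (hK : 0 < K) (k0 : 0 < kap) (t0 : 0 < th) (l0 : 0 ≤ lam) {L : ℝ} (L0 : 0 ≤ L)
    (hL : ∀ a z, f a z ≤ L) (hL' : ∀ a z, -L ≤ f a z) {eps : ℝ} (e0 : 0 < eps) (he : 4 * L * eps ≤ lam * kap)
    (hth : 4 * L * th ≤ lam * eps) {σ : Om → ℕ} (hσ : Stp X σ) :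
    lam * P.Pr (fun w => covL P X H f kap lam K x (σ w) w) ≤
      4 * P.E (fun w => ind (cp P X (σ w) (ded P X H f kap lam K th x (σ w)) w ≤ eps) *
        P.ce (X (σ w)) (dl H f (nm P X H f kap lam K th x (σ w) w)) w) := by
  have h1 := pay (P := P) (X := X) (H := H) (f := f) (kap := kap) (lam := lam) (K := K) (x := x) hX hK l0 hσ
  have h2 : P.E (fun w => PhL P X H f kap lam K x (σ w) w) ≤
      P.E (fun w => ind (cp P X (σ w) (ded P X H f kap lam K th x (σ w)) w ≤ eps) *
        P.ce (X (σ w)) (dl H f (nm P X H f kap lam K th x (σ w) w)) w) +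
      L * P.Pr (fun w => eps < cp P X (σ w) (ded P X H f kap lam K th x (σ w)) w) := by
    unfold FP.Pr
    rw [← FP.E_smul, ← FP.E_add]
    refine P.E_mono fun w hw => ?_
    by_cases h : cp P X (σ w) (ded P X H f kap lam K th x (σ w)) w ≤ eps
    · rw [ind_of h, one_mul, ind_not (not_lt.2 h), mul_zero, add_zero]
      exact PhL_dl hX hK k0 t0 l0 L0 hL hL' he h
    · rw [ind_not h, zero_mul, zero_add, ind_of (not_le.1 h), mul_one]
      exact PhL_le_L k0.le l0 L0 hL _ hw
  have h3 := mk_stop (P := P) hX hσ (fun s => ded P X H f kap lam K th x s) eps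
  have h4 := ded_le (P := P) (X := X) (H := H) (f := f) (kap := kap) (lam := lam) (K := K) (x := x) hX hK k0.le
    t0.le hσ
  set A := P.Pr (fun w => covL P X H f kap lam K x (σ w) w) with hA
  set B := P.Pr (fun w => eps < cp P X (σ w) (ded P X H f kap lam K th x (σ w)) w) with hB
  set E := P.E (fun w => ind (cp P X (σ w) (ded P X H f kap lam K th x (σ w)) w ≤ eps) *
        P.ce (X (σ w)) (dl H f (nm P X H f kap lam K th x (σ w) w)) w) with hE
  have A0 : 0 ≤ A := P.Pr_nonneg _
  have h5 : eps * B ≤ th * A := h3.trans h4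
  -- `4 L B ≤ lam A`
  have h6 : eps * (4 * L * B) ≤ eps * (lam * A) := by
    have h7 := mul_le_mul_of_nonneg_left h5 (show 0 ≤ 4 * L by linarith)
    have h8 := mul_le_mul_of_nonneg_right hth A0
    linarith
  have h7 : 4 * L * B ≤ lam * A := le_of_mul_le_mul_left h6 e0
  linarith

/-- **the same at the point** -/
theorem payD (hX : Filt X) (hK : 0 < K) (k0 : 0 < kap) (t0 : 0 < th) (l0 : 0 ≤ lam) {L : ℝ} (L0 : 0 ≤ L)
    (hL : ∀ a z, f a z ≤ L) (hL' : ∀ a z, -L ≤ f a z) {eps : ℝ} (e0 : 0 < eps) (he : 4 * L * eps ≤ lam * kap)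
    (hth : 4 * L * th ≤ lam * eps) {σ : Om → ℕ} (hσ : Stp X σ) :
    lam * P.Pr (fun w => covL P X H f kap lam K x (σ w) w) ≤
      4 * P.E (fun w => ind (cp P X (σ w) (ded P X H f kap lam K th x (σ w)) w ≤ eps) *
        dl H f (nm P X H f kap lam K th x (σ w) w) w) := by
  refine (payN hX hK k0 t0 l0 L0 hL hL' e0 he hth hσ).trans (le_of_eq ?_)
  congr 1
  have hh : ∀ s, Fac (X s) (fun w => ind (cp P X s (ded P X H f kap lam K th x s) w ≤ eps)) := fun s =>
    Fac.ind fun v w e => by rw [cp_fac s _ v w e]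
  rw [← E_stop_ce (P := P) hX hσ hh (fun s w => dl H f (nm P X H f kap lam K th x s w) w)]
  refine P.E_congr fun w _ => ?_
  congr 1
  exact ce_congr_on fun z _ hz => by rw [nm_fac hX (σ w) z w hz]

/-! ### codes : a finite type for the names -/

/-- codes: at most `N` names, levels `< T`, rows of the list -/
abbrev Cd (T n N : ℕ) : Type := Fin N → Option ((Fin T × Fin n) × Bool)

theorem card_Cd (T n N : ℕ) : Fintype.card (Cd T n N) = (T * n * 2 + 1) ^ N := by
  simp [Cd]

variable (x) in
/-- the list of a code -/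
def dec {T N : ℕ} (c : Cd T n N) : List ((ℕ × R) × Bool) :=
  (List.ofFn c).filterMap fun o => o.map fun p => (((p.1.1 : ℕ), x p.1.2), p.2)

theorem dec_ex {T : ℕ} : ∀ (N : ℕ) (l : List ((ℕ × R) × Bool)), l.length ≤ N →
    (∀ p ∈ l, p.1.1 < T ∧ ∃ i, p.1.2 = x i) → ∃ c : Cd T n N, dec x c = l := by
  intro N
  induction N with
  | zero =>
    intro l hl _
    rw [List.length_eq_zero_iff.1 (Nat.le_zero.1 hl)]
    exact ⟨Fin.elim0, by simp [dec]⟩
  | succ N ih =>
    intro l hl h
    cases l with
    | nil =>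
      obtain ⟨c, hc⟩ := ih [] (Nat.zero_le _) (fun p hp => absurd hp List.not_mem_nil)
      refine ⟨Fin.cons none c, ?_⟩
      unfold dec at hc ⊢
      rw [List.ofFn_cons, List.filterMap_cons_none (by rfl)]
      exact hc
    | cons p l =>
      obtain ⟨c, hc⟩ := ih l (by simpa using hl) (fun q hq => h q (List.mem_cons_of_mem _ hq))
      obtain ⟨h1, i, h2⟩ := h p List.mem_cons_self
      refine ⟨Fin.cons (some ((⟨p.1.1, h1⟩, i), p.2)) c, ?_⟩
      unfold dec at hc ⊢
      rw [List.ofFn_cons, List.filterMap_cons_some (b := p) ?_, hc]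
      show some ((p.1.1, x i), p.2) = some p
      rw [← h2]

/-- **the names have codes** which the cell sees -/
theorem cd_ex (hX : Filt X) (hK : 0 < K) (k0 : 0 ≤ kap) (t0 : 0 ≤ th) {N : ℕ} (hN : 1 < th * kap * (N + 1))
    (T : ℕ) : ∃ cd : ℕ → Om → Cd T n N, (∀ s, Fac (X s) (cd s)) ∧
      ∀ s < T, ∀ w, P.p w ≠ 0 → dec x (cd s w) = nm P X H f kap lam K th x s w := by
  classical
  have h0 : Nonempty (Cd T n N) := ⟨fun _ => none⟩
  have key : ∀ s < T, ∀ w, P.p w ≠ 0 → ∃ c : Cd T n N, dec x c = nm P X H f kap lam K th x s w := by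
    intro s hs w hw
    refine dec_ex N _ ?_ fun p hp => ?_
    · have h1 := len_le (P := P) (X := X) (H := H) (f := f) (kap := kap) (lam := lam) (x := x) hK k0 t0 s hw
      by_contra h2
      have h3 : ((N : ℝ) + 1) ≤ (nm P X H f kap lam K th x s w).length := by
        exact_mod_cast Nat.succ_le_of_lt (not_le.1 h2)
      have h4 := mul_le_mul_of_nonneg_left h3 (mul_nonneg t0 k0)
      linarith
    · obtain ⟨t, ht, i, _, h1, _⟩ := mem_nm hp
      rw [h1]
      exact ⟨lt_of_le_of_lt ((lt_lev hK).1 ht) hs, i, rfl⟩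
  refine ⟨fun s w => if h : ∃ c : Cd T n N, dec x c = nm P X H f kap lam K th x s w then h.choose
    else Classical.choice h0, fun s v w e => ?_, fun s hs w hw => ?_⟩
  · simp only
    rw [nm_fac hX s v w e]
  · simp only
    rw [dif_pos (key s hs w hw)]
    exact (key s hs w hw).choose_spec

/-- static sections: the level of a name does not matter -/
theorem dl_static (hst : ∀ s a z, H s a z ↔ H 0 a z) (l : List ((ℕ × R) × Bool)) (z : Om) :
    dl H f (l.map fun p => ((0, p.1.2), p.2)) z = dl H f l z := by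
  classical
  induction l with
  | nil => rfl
  | cons p l ih =>
    rw [List.map_cons, dl_cons, dl_cons, ih]
    by_cases h : H p.1.1 p.1.2 z
    · have h1 : H 0 p.1.2 z := (hst _ _ _).1 h
      rw [if_pos h]
      exact if_pos h1
    · have h1 : ¬ H 0 p.1.2 z := fun h2 => h ((hst _ _ _).2 h2)
      rw [if_neg h]
      exact if_neg h1

/-- static sections: codes without levels -/
theorem cd_static (hX : Filt X) (hK : 0 < K) (k0 : 0 ≤ kap) (t0 : 0 ≤ th) {N : ℕ} (hN : 1 < th * kap * (N + 1))
    (hst : ∀ s a z, H s a z ↔ H 0 a z) : ∃ cd : ℕ → Om → Cd 1 n N, (∀ s, Fac (X s) (cd s)) ∧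
      ∀ s w, P.p w ≠ 0 → dl H f (dec x (cd s w)) = dl H f (nm P X H f kap lam K th x s w) := by
  classical
  have h0 : Nonempty (Cd 1 n N) := ⟨fun _ => none⟩
  set nm0 : ℕ → Om → List ((ℕ × R) × Bool) := fun s w =>
    (nm P X H f kap lam K th x s w).map fun p => ((0, p.1.2), p.2) with hnm0
  have key : ∀ s w, P.p w ≠ 0 → ∃ c : Cd 1 n N, dec x c = nm0 s w := by
    intro s w hw
    refine dec_ex N _ ?_ fun p hp => ?_
    · have h1 := len_le (P := P) (X := X) (H := H) (f := f) (kap := kap) (lam := lam) (x := x) hK k0 t0 s hw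
      show ((nm P X H f kap lam K th x s w).map _).length ≤ N
      rw [List.length_map]
      by_contra h2
      have h3 : ((N : ℝ) + 1) ≤ (nm P X H f kap lam K th x s w).length := by
        exact_mod_cast Nat.succ_le_of_lt (not_le.1 h2)
      have h4 := mul_le_mul_of_nonneg_left h3 (mul_nonneg t0 k0)
      linarith
    · obtain ⟨q, hq, rfl⟩ := List.mem_map.1 hp
      obtain ⟨t, _, i, _, h1, _⟩ := mem_nm hq
      rw [h1]
      exact ⟨Nat.one_pos, i, rfl⟩
  refine ⟨fun s w => if h : ∃ c : Cd 1 n N, dec x c = nm0 s w then h.choose else Classical.choice h0,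
    fun s v w e => ?_, fun s w hw => funext fun z => ?_⟩
  · have h1 : nm0 s v = nm0 s w := by
      show (nm P X H f kap lam K th x s v).map _ = (nm P X H f kap lam K th x s w).map _
      rw [nm_fac hX s v w e]
    simp only
    rw [h1]
  · simp only
    rw [dif_pos (key s w hw), (key s w hw).choose_spec]
    exact dl_static hst _ z

/-- **the payment as a sum over the codes** -/
theorem payC (hX : Filt X) (hK : 0 < K) (k0 : 0 < kap) (t0 : 0 < th) (l0 : 0 ≤ lam) {L : ℝ} (L0 : 0 ≤ L)
    (hL : ∀ a z, f a z ≤ L) (hL' : ∀ a z, -L ≤ f a z) {eps : ℝ} (e0 : 0 < eps) (he : 4 * L * eps ≤ lam * kap)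
    (hth : 4 * L * th ≤ lam * eps) {σ : Om → ℕ} (hσ : Stp X σ) {C : Type*} [Fintype C] (cd : ℕ → Om → C)
    (g : C → Om → ℝ)
    (hcd : ∀ w, P.p w ≠ 0 → g (cd (σ w) w) w = dl H f (nm P X H f kap lam K th x (σ w) w) w) :
    lam * P.Pr (fun w => covL P X H f kap lam K x (σ w) w) ≤
      4 * ∑ c, P.E (fun w => ind (cp P X (σ w) (ded P X H f kap lam K th x (σ w)) w ≤ eps ∧ cd (σ w) w = c) *
        g c w) := by
  classical
  refine (payD hX hK k0 t0 l0 L0 hL hL' e0 he hth hσ).trans (le_of_eq ?_)
  congr 1
  rw [← FP.E_sum]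
  refine P.E_congr fun w hw => ?_
  rw [Finset.sum_eq_single (cd (σ w) w)]
  · rw [hcd w hw, ind_and, ind_of (rfl : cd (σ w) w = cd (σ w) w), mul_one]
  · intro c _ hc
    rw [ind_and, ind_not (fun h : cd (σ w) w = c => hc h.symm), mul_zero, zero_mul]
  · intro h
    exact absurd (mem_univ _) h

end names

end

end Pool.Agent.GMH.GdyN
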