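import Pool.Agent.GMH.GdyVT
import Pool.Agent.GMH.CR

/-!
# GMH/GdyR (helper40): GREEDY COVERS ALONG A PATH WITH A RELATIVE THRESHOLD (note 4001 (1), (4))

Levels `s` with cells `X s`, rows `a : R` with sections `H s a` and signed weights `f a`.  At every level `K` steps are
made, `K kap > 1`; at a step the first row of the list which wants is taken: its uncovered section `A` in the current
cell has mass `≥ kap` and `lam P (A) ≤ E (1_A f)`.  The covered set grows with the level (it is not started again).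

* `stable` : after a level no row of the list can be taken;
* `taken` : `kap * E #takings ≤ 1`;
* `bad_le`, `bad_ind` : a fresh row can be taken at SOME level with probability `≤ 1 / (kap (M + 1))` in the mean over
  the list (the whole path, no fixed time);
* `pay` : `lam P (covered at a stopping time) ≤ 2 E Phi`, `Phi` = sum over the pieces of (signed mean - lam kap / 2)^+ ;
  `Phi_le` : it is at most the signed mean over the selected pieces, `card_le` : their number;
* `cov_fac`, `cov_change` : what the covered set sees.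
-/

set_option autoImplicit false
set_option linter.unusedSectionVars false

namespace Pool.Agent.GMH.GdyR

open Finset Pool.Agent.PWZ Pool.Agent.M3 Pool.Agent.GMH.Gdy

noncomputable section

/-! ## one step per time -/

section step

variable {Om : Type*} [Fintype Om] (P : FP Om) {κ : ℕ → Type*} (X : ∀ t, Om → κ t) {R : Type*}
  (H : ℕ → R → Om → Prop) (f : R → Om → ℝ) (kap lam : ℝ)

/-- the set `A` with the weight `g` can be taken in the current cell -/
def ok (t : ℕ) (A : Om → Prop) (g : Om → ℝ) (w : Om) : Prop :=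
  kap ≤ cp P X t A w ∧ lam * cp P X t A w ≤ P.ce (X t) (fun z => ind (A z) * g z) w

/-- the row `a` wants at the time `t`, `C` is covered -/
def wt (t : ℕ) (C : Om → Prop) (a : R) (w : Om) : Prop := ok P X kap lam t (fun z => H t a z ∧ ¬ C z) (f a) w

/-- the row `i` is the first one which wants -/
def fs (t : ℕ) (C : Om → Prop) {n : ℕ} (x : Fin n → R) (i : Fin n) (w : Om) : Prop :=
  wt P X H f kap lam t C (x i) w ∧ ∀ j < i, ¬ wt P X H f kap lam t C (x j) w

/-- covered before the time `t` -/
def cov {n : ℕ} (x : Fin n → R) : ℕ → Om → Prop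
  | 0 => fun _ => False
  | t + 1 => fun w => cov x t w ∨ ∃ i, H t (x i) w ∧ fs P X H f kap lam t (cov x t) x i w

/-- the row `i` is taken at the time `t` -/
def tk {n : ℕ} (x : Fin n → R) (t : ℕ) (i : Fin n) (w : Om) : Prop :=
  fs P X H f kap lam t (cov P X H f kap lam x t) x i w

/-- the piece -/
def pc {n : ℕ} (x : Fin n → R) (t : ℕ) (i : Fin n) (w : Om) : Prop :=
  (H t (x i) w ∧ ¬ cov P X H f kap lam x t w) ∧ tk P X H f kap lam x t i w

variable {P X H f kap lam}

theorem ok_congr {t : ℕ} {A A' : Om → Prop} {g : Om → ℝ} {w : Om}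
    (h : ∀ z, P.p z ≠ 0 → X t z = X t w → (A z ↔ A' z)) : ok P X kap lam t A g w ↔ ok P X kap lam t A' g w := by
  unfold ok
  rw [cp_congr_on h, ce_congr_on (f := fun z => ind (A z) * g z) (g := fun z => ind (A' z) * g z)
    (fun z hz hzw => by rw [propext (h z hz hzw)])]

theorem ok_fac {t : ℕ} (A : Om → Prop) (g : Om → ℝ) {v w : Om} (e : X t v = X t w) :
    ok P X kap lam t A g v ↔ ok P X kap lam t A g w := by
  unfold ok
  rw [cp_fac t A v w e, P.ce_fac (X t) (fun z => ind (A z) * g z) v w e]

theorem wt_congr {t : ℕ} {C C' : Om → Prop} {a : R} {w : Om}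
    (h : ∀ z, P.p z ≠ 0 → X t z = X t w → (C z ↔ C' z)) :
    wt P X H f kap lam t C a w ↔ wt P X H f kap lam t C' a w :=
  ok_congr fun z hz hzw => by rw [h z hz hzw]

theorem wt_fac {t : ℕ} {C : Om → Prop} {a : R} {v w : Om} (e : X t v = X t w) :
    wt P X H f kap lam t C a v ↔ wt P X H f kap lam t C a w := ok_fac _ _ e

variable {n : ℕ} {x : Fin n → R}

theorem fs_congr {t : ℕ} {C C' : Om → Prop} {i : Fin n} {w : Om}
    (h : ∀ z, P.p z ≠ 0 → X t z = X t w → (C z ↔ C' z)) :
    fs P X H f kap lam t C x i w ↔ fs P X H f kap lam t C' x i w := by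
  unfold fs
  rw [wt_congr h]
  exact and_congr_right fun _ => forall_congr' fun j => forall_congr' fun _ => not_congr (wt_congr h)

theorem fs_fac {t : ℕ} {C : Om → Prop} {i : Fin n} {v w : Om} (e : X t v = X t w) :
    fs P X H f kap lam t C x i v ↔ fs P X H f kap lam t C x i w := by
  unfold fs
  rw [wt_fac e]
  exact and_congr_right fun _ => forall_congr' fun j => forall_congr' fun _ => not_congr (wt_fac e)

theorem fs_one {t : ℕ} {C : Om → Prop} {i i' : Fin n} {w : Om} (h : fs P X H f kap lam t C x i w)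
    (h' : fs P X H f kap lam t C x i' w) : i = i' := by
  rcases lt_trichotomy i i' with h1 | h1 | h1
  · exact absurd h.1 (h'.2 i h1)
  · exact h1
  · exact absurd h'.1 (h.2 i' h1)

theorem fs_ex {t : ℕ} {C : Om → Prop} {i : Fin n} {w : Om} (h : wt P X H f kap lam t C (x i) w) :
    ∃ j, fs P X H f kap lam t C x j w := by
  classical
  have hne : (univ.filter fun j => wt P X H f kap lam t C (x j) w).Nonempty := ⟨i, by simpa using h⟩
  refine ⟨(univ.filter fun j => wt P X H f kap lam t C (x j) w).min' hne, ?_, fun j hj hj' => ?_⟩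
  · have := Finset.min'_mem _ hne
    simpa using this
  · have := Finset.min'_le (univ.filter fun j => wt P X H f kap lam t C (x j) w) j (by simpa using hj')
    exact absurd hj (not_lt.2 this)

theorem tk_fac {t : ℕ} {i : Fin n} {v w : Om} (e : X t v = X t w) :
    tk P X H f kap lam x t i v ↔ tk P X H f kap lam x t i w := fs_fac e

theorem cov_succ (t : ℕ) (w : Om) : cov P X H f kap lam x (t + 1) w ↔
    cov P X H f kap lam x t w ∨ ∃ i, pc P X H f kap lam x t i w := by
  show (cov P X H f kap lam x t w ∨ ∃ i, H t (x i) w ∧ tk P X H f kap lam x t i w) ↔ _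
  by_cases h : cov P X H f kap lam x t w
  · exact ⟨fun _ => Or.inl h, fun _ => Or.inl h⟩
  · refine or_congr_right (exists_congr fun i => ⟨fun h1 => ⟨⟨h1.1, h⟩, h1.2⟩, fun h1 => ⟨h1.1.1, h1.2⟩⟩)

theorem cov_mono {t t' : ℕ} (h : t ≤ t') {w : Om} (hw : cov P X H f kap lam x t w) :
    cov P X H f kap lam x t' w := by
  induction t', h using Nat.le_induction with
  | base => exact hw
  | succ t' _ ih => exact (cov_succ t' w).2 (Or.inl ih)

theorem cov_iff (t : ℕ) (w : Om) : cov P X H f kap lam x t w ↔ ∃ t' < t, ∃ i, pc P X H f kap lam x t' i w := by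
  induction t with
  | zero => exact ⟨fun h => h.elim, fun ⟨i, hi, _⟩ => absurd hi (Nat.not_lt_zero i)⟩
  | succ t ih =>
    rw [cov_succ, ih]
    constructor
    · rintro (⟨t', ht', h⟩ | h)
      · exact ⟨t', by omega, h⟩
      · exact ⟨t, by omega, h⟩
    · rintro ⟨t', ht', h⟩
      rcases Nat.lt_succ_iff_lt_or_eq.1 ht' with h1 | h1
      · exact Or.inl ⟨t', h1, h⟩
      · exact Or.inr (h1 ▸ h)

/-- the pieces are disjoint -/
theorem pc_one {t t' : ℕ} {i i' : Fin n} {w : Om} (h : pc P X H f kap lam x t i w)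
    (h' : pc P X H f kap lam x t' i' w) : t = t' ∧ i = i' := by
  rcases lt_trichotomy t t' with h1 | h1 | h1
  · exact absurd ((cov_iff t' w).2 ⟨t, h1, i, h⟩) h'.1.2
  · subst h1
    exact ⟨rfl, fs_one h.2 h'.2⟩
  · exact absurd ((cov_iff t w).2 ⟨t', h1, i', h'⟩) h.1.2

theorem sum_pc_i (t : ℕ) (w : Om) : ∑ i, ind (pc P X H f kap lam x t i w) =
    ind (∃ i, pc P X H f kap lam x t i w) := by
  by_cases h : ∃ i, pc P X H f kap lam x t i w
  · obtain ⟨i, hi⟩ := h
    rw [ind_of ⟨i, hi⟩, Finset.sum_eq_single i, ind_of hi]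
    · intro j _ hj
      exact ind_not fun h => hj (pc_one h hi).2
    · intro h
      exact absurd (mem_univ _) h
  · rw [ind_not h]
    exact Finset.sum_eq_zero fun i _ => ind_not fun hi => h ⟨i, hi⟩

theorem ind_cov (t : ℕ) (w : Om) : ind (cov P X H f kap lam x t w) =
    ∑ t' ∈ range t, ∑ i, ind (pc P X H f kap lam x t' i w) := by
  rw [show cov P X H f kap lam x t w = (∃ t' < t, ∃ i, pc P X H f kap lam x t' i w) from propext (cov_iff t w),
    ← Pool.Agent.GMH.CR.sum_ind (fun a b ⟨i, hi⟩ ⟨j, hj⟩ => (pc_one hi hj).1) t]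
  exact Finset.sum_congr rfl fun t' _ => (sum_pc_i t' w).symm

/-- mean over a piece -/
theorem ce_pc (t : ℕ) (i : Fin n) (g : Om → ℝ) (w : Om) :
    P.ce (X t) (fun z => ind (pc P X H f kap lam x t i z) * g z) w = ind (tk P X H f kap lam x t i w) *
      P.ce (X t) (fun z => ind (H t (x i) z ∧ ¬ cov P X H f kap lam x t z) * g z) w := by
  have hf : Fac (X t) (fun z => ind (tk P X H f kap lam x t i z)) := Fac.ind fun v w e => tk_fac e
  rw [← P.ce_mul hf]
  refine P.ce_congr (fun z _ => ?_) w
  unfold pc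
  rw [ind_and (H t (x i) z ∧ ¬ cov P X H f kap lam x t z)]
  ring

theorem cp_pc (t : ℕ) (i : Fin n) (w : Om) : cp P X t (pc P X H f kap lam x t i) w =
    ind (tk P X H f kap lam x t i w) * cp P X t (fun z => H t (x i) z ∧ ¬ cov P X H f kap lam x t z) w := by
  have h := ce_pc (P := P) (X := X) (H := H) (f := f) (kap := kap) (lam := lam) (x := x) t i (fun _ => 1) w
  simp only [mul_one] at h
  exact h

theorem pc_ge (t : ℕ) (i : Fin n) (w : Om) :
    kap * ind (tk P X H f kap lam x t i w) ≤ cp P X t (pc P X H f kap lam x t i) w := by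
  rw [cp_pc]
  by_cases h : tk P X H f kap lam x t i w
  · rw [ind_of h, mul_one, one_mul]
    exact h.1.1
  · rw [ind_not h, mul_zero, zero_mul]

theorem pc_val (t : ℕ) (i : Fin n) (w : Om) : lam * cp P X t (pc P X H f kap lam x t i) w ≤
    P.ce (X t) (fun z => ind (pc P X H f kap lam x t i z) * f (x i) z) w := by
  rw [cp_pc, ce_pc]
  by_cases h : tk P X H f kap lam x t i w
  · rw [ind_of h, one_mul, one_mul]
    exact h.1.2
  · rw [ind_not h, zero_mul, zero_mul, mul_zero]

/-- **the expected number of takings** -/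
theorem taken_le (T : ℕ) : kap * ∑ t ∈ range T, ∑ i, P.Pr (tk P X H f kap lam x t i) ≤ 1 := by
  have h1 : ∀ t i, kap * P.Pr (tk P X H f kap lam x t i) ≤ P.Pr (pc P X H f kap lam x t i) := by
    intro t i
    have h2 : P.Pr (pc P X H f kap lam x t i) = P.E (cp P X t (pc P X H f kap lam x t i)) := (E_cp t _).symm
    rw [h2]
    unfold FP.Pr
    rw [← FP.E_smul]
    exact P.E_mono fun w _ => pc_ge t i w
  rw [Finset.mul_sum]
  refine (Finset.sum_le_sum fun t _ => ?_).trans (?_ : ∑ t ∈ range T, ∑ i, P.Pr (pc P X H f kap lam x t i) ≤ 1)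
  · rw [Finset.mul_sum]
    exact Finset.sum_le_sum fun i _ => h1 t i
  · have h3 : ∑ t ∈ range T, ∑ i, P.Pr (pc P X H f kap lam x t i) = P.Pr (cov P X H f kap lam x T) := by
      have h4 : ∀ t, ∑ i, P.Pr (pc P X H f kap lam x t i) = P.E (fun w => ∑ i, ind (pc P X H f kap lam x t i w)) :=
        fun t => (FP.E_sum P _ _).symm
      rw [Finset.sum_congr rfl fun t _ => h4 t, ← FP.E_sum]
      exact P.E_congr fun w _ => (ind_cov T w).symm
    rw [h3]
    exact P.Pr_le_one _

/-! ### leaving a row out -/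

section skip

variable (z : Fin (n + 1) → R) (j : Fin (n + 1))

theorem fs_skip {t : ℕ} {C : Om → Prop} {w : Om} (h : ¬ fs P X H f kap lam t C z j w) (i : Fin n) :
    fs P X H f kap lam t C (fun i => z (j.succAbove i)) i w ↔ fs P X H f kap lam t C z (j.succAbove i) w := by
  constructor
  · rintro ⟨h1, h2⟩
    refine ⟨h1, fun j' hj' => ?_⟩
    by_cases hjj : j' = j
    · subst hjj
      intro h3
      refine h ⟨h3, fun j'' hj'' => ?_⟩
      obtain ⟨i'', rfl⟩ := Fin.exists_succAbove_eq (ne_of_lt hj'')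
      exact h2 i'' ((Fin.succAbove_lt_succAbove_iff).1 (hj''.trans hj'))
    · obtain ⟨i', rfl⟩ := Fin.exists_succAbove_eq hjj
      exact h2 i' ((Fin.succAbove_lt_succAbove_iff).1 hj')
  · rintro ⟨h1, h2⟩
    exact ⟨h1, fun i' hi' => h2 _ ((Fin.succAbove_lt_succAbove_iff).2 hi')⟩

theorem ex_skip {p : Fin (n + 1) → Prop} (h : ¬ p j) : (∃ i, p i) ↔ ∃ i : Fin n, p (j.succAbove i) := by
  constructor
  · rintro ⟨i, hi⟩
    have hne : i ≠ j := fun h1 => h (h1 ▸ hi)
    obtain ⟨i', rfl⟩ := Fin.exists_succAbove_eq hne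
    exact ⟨i', hi⟩
  · rintro ⟨i, hi⟩
    exact ⟨_, hi⟩

/-- **a row which is never taken can be left out** -/
theorem cov_skip (hX : Filt X) {w : Om} {t : ℕ} (ht : ∀ t' < t, ¬ tk P X H f kap lam z t' j w) :
    ∀ v, (∀ t' < t, X t' v = X t' w) →
      (cov P X H f kap lam (fun i => z (j.succAbove i)) t v ↔ cov P X H f kap lam z t v) := by
  induction t with
  | zero => exact fun _ _ => Iff.rfl
  | succ t ih =>
    intro v hv
    have i1 := ih fun t' ht' => ht t' (by omega)
    have hvt : X t v = X t w := hv t (Nat.lt_succ_self t)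
    -- the two covers agree on the cell
    have i2 : ∀ v', P.p v' ≠ 0 → X t v' = X t v →
        (cov P X H f kap lam (fun i => z (j.succAbove i)) t v' ↔ cov P X H f kap lam z t v') := fun v' _ hv' =>
      i1 v' fun t' ht' => hX.le ht'.le v' w (hv'.trans hvt)
    have h3 : ¬ fs P X H f kap lam t (cov P X H f kap lam z t) z j v := fun h =>
      ht t (Nat.lt_succ_self t) ((tk_fac hvt).1 h)
    show (cov P X H f kap lam (fun i => z (j.succAbove i)) t v ∨ ∃ i : Fin n, H t (z (j.succAbove i)) v ∧
      fs P X H f kap lam t (cov P X H f kap lam (fun i => z (j.succAbove i)) t) (fun i => z (j.succAbove i)) i v) ↔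
      (cov P X H f kap lam z t v ∨ ∃ i, H t (z i) v ∧ fs P X H f kap lam t (cov P X H f kap lam z t) z i v)
    rw [i1 v fun t' ht' => hv t' (by omega), ex_skip j (p := fun i => H t (z i) v ∧
      fs P X H f kap lam t (cov P X H f kap lam z t) z i v) (fun h => h3 h.2)]
    refine or_congr_right (exists_congr fun i => and_congr_right fun _ => ?_)
    rw [fs_congr i2]
    exact fs_skip z j h3 i

end skip

/-! ### payment -/

variable (P X H f kap lam x) in
/-- signed mean over the piece `(t', i)` at the time `t` -/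
def am (t' : ℕ) (i : Fin n) (t : ℕ) (w : Om) : ℝ :=
  P.ce (X t) (fun z => ind (pc P X H f kap lam x t' i z) * f (x i) z) w

variable (P X H f kap lam x) in
/-- the potential -/
def Ph (t : ℕ) (w : Om) : ℝ :=
  ∑ t' ∈ range (t + 1), ∑ i, max (am P X H f kap lam x t' i t w - lam * kap / 2) 0

theorem Ph_nonneg (t : ℕ) (w : Om) : 0 ≤ Ph P X H f kap lam x t w :=
  Finset.sum_nonneg fun _ _ => Finset.sum_nonneg fun _ _ => le_max_right _ _

theorem am_start (l0 : 0 ≤ lam) (t : ℕ) (i : Fin n) (w : Om) :
    lam * cp P X t (pc P X H f kap lam x t i) w / 2 ≤ max (am P X H f kap lam x t i t w - lam * kap / 2) 0 := by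
  have h1 : lam * cp P X t (pc P X H f kap lam x t i) w ≤ am P X H f kap lam x t i t w := pc_val t i w
  by_cases ht : tk P X H f kap lam x t i w
  · have h2 := mul_le_mul_of_nonneg_left (pc_ge (P := P) (X := X) (H := H) (f := f) (kap := kap) (lam := lam)
      (x := x) t i w) l0
    rw [ind_of ht, mul_one] at h2
    refine le_trans ?_ (le_max_left _ _)
    linarith
  · have h2 : cp P X t (pc P X H f kap lam x t i) w = 0 := by rw [cp_pc, ind_not ht, zero_mul]
    rw [h2, mul_zero, zero_div]
    exact le_max_right _ _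

theorem am_jensen (hX : Filt X) {t' t : ℕ} {i : Fin n} (c : ℝ) {h : Om → ℝ} (hh : Fac (X t) h)
    (h0 : ∀ w, 0 ≤ h w) :
    P.E (fun w => h w * max (am P X H f kap lam x t' i t w - c) 0) ≤
      P.E (fun w => h w * max (am P X H f kap lam x t' i (t + 1) w - c) 0) := by
  rw [← P.E_mul_ce hh (fun w => max (am P X H f kap lam x t' i (t + 1) w - c) 0)]
  refine P.E_mono fun w hw => mul_le_mul_of_nonneg_left ?_ (h0 w)
  refine max_le ?_ (P.ce_nonneg (fun _ _ => le_max_right _ _) w)
  have h2 : am P X H f kap lam x t' i t w = P.ce (X t) (am P X H f kap lam x t' i (t + 1)) w := by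
    unfold am
    exact (P.ce_tower (hX t) _ w).symm
  have h3 : P.ce (X t) (fun z => am P X H f kap lam x t' i (t + 1) z - c) w =
      P.ce (X t) (am P X H f kap lam x t' i (t + 1)) w - c := by rw [P.ce_sub, P.ce_const _ _ hw]
  rw [h2, ← h3]
  exact P.ce_mono (fun _ _ => le_max_left _ _) w

theorem E_sum_pc {t : ℕ} {h : Om → ℝ} (hh : Fac (X t) h) :
    P.E (fun w => h w * ∑ i, ind (pc P X H f kap lam x t i w)) =
      P.E (fun w => h w * ∑ i, cp P X t (pc P X H f kap lam x t i) w) := by
  have e : (fun w => ∑ i, cp P X t (pc P X H f kap lam x t i) w) =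
      P.ce (X t) (fun w => ∑ i, ind (pc P X H f kap lam x t i w)) := by
    funext w
    rw [P.ce_sum]
    rfl
  have := P.E_mul_ce hh (fun w => ∑ i, ind (pc P X H f kap lam x t i w))
  rw [← this]
  refine P.E_congr fun w _ => ?_
  rw [← e]

/-- **being covered is paid by the potential** -/
theorem cov_le (hX : Filt X) (l0 : 0 ≤ lam) {σ : Om → ℕ} (hσ : Stp X σ) :
    lam * P.Pr (fun w => cov P X H f kap lam x (σ w + 1) w) ≤
      2 * P.E (fun w => Ph P X H f kap lam x (σ w) w) := by
  have key : ∀ m, lam * P.E (fun w => ind (cov P X H f kap lam x (min (σ w) m + 1) w)) ≤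
      2 * P.E (fun w => Ph P X H f kap lam x (min (σ w) m) w) := by
    intro m
    induction m with
    | zero =>
      have e1 : P.E (fun w => ind (cov P X H f kap lam x (min (σ w) 0 + 1) w)) =
          P.E (fun w => 1 * ∑ i, ind (pc P X H f kap lam x 0 i w)) := by
        refine P.E_congr fun w _ => ?_
        rw [Nat.min_zero, ind_cov, Finset.sum_range_succ, Finset.sum_range_zero, zero_add, one_mul]
      rw [e1, E_sum_pc (Fac.const _ _), ← FP.E_smul, ← FP.E_smul]
      refine P.E_mono fun w _ => ?_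
      rw [Nat.min_zero]
      unfold Ph
      rw [Finset.sum_range_succ, Finset.sum_range_zero, zero_add, one_mul, Finset.mul_sum, Finset.mul_sum]
      refine Finset.sum_le_sum fun i _ => ?_
      have := am_start (P := P) (X := X) (H := H) (f := f) (kap := kap) (lam := lam) (x := x) l0 0 i w
      linarith
    | succ m ih =>
      set h : Om → ℝ := fun w => ind (m < σ w) with hh
      have hf : Fac (X m) h := by
        refine Fac.ind fun v w hvw => ?_
        have := hσ m v w hvw
        omega
      have hf' : Fac (X (m + 1)) h := (hX m).trans hf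
      have e1 : P.E (fun w => ind (cov P X H f kap lam x (min (σ w) (m + 1) + 1) w)) =
          P.E (fun w => ind (cov P X H f kap lam x (min (σ w) m + 1) w)) +
            P.E (fun w => h w * ∑ i, ind (pc P X H f kap lam x (m + 1) i w)) := by
        rw [← FP.E_add]
        refine P.E_congr fun w _ => ?_
        by_cases hw : m < σ w
        · rw [hh]
          simp only
          rw [ind_of hw, one_mul, min_eq_right (by omega), min_eq_right hw.le, ind_cov, ind_cov,
            Finset.sum_range_succ]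
        · rw [hh]
          simp only
          rw [ind_not hw, zero_mul, add_zero, min_eq_left (by omega), min_eq_left (by omega)]
      have e2 : P.E (fun w => Ph P X H f kap lam x (min (σ w) (m + 1)) w) =
          P.E (fun w => Ph P X H f kap lam x (min (σ w) m) w) +
            (P.E (fun w => h w * Ph P X H f kap lam x (m + 1) w) - P.E (fun w => h w * Ph P X H f kap lam x m w)) := by
        rw [← FP.E_sub, ← FP.E_add]
        refine P.E_congr fun w _ => ?_
        by_cases hw : m < σ w
        · rw [hh]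
          simp only
          rw [ind_of hw, min_eq_right (by omega), min_eq_right hw.le]
          ring
        · rw [hh]
          simp only
          rw [ind_not hw, min_eq_left (by omega), min_eq_left (by omega)]
          ring
      -- the old part does not decrease
      have e3 : ∀ t, P.E (fun w => h w * ∑ t' ∈ range (m + 1), ∑ i,
          max (am P X H f kap lam x t' i t w - lam * kap / 2) 0) = ∑ t' ∈ range (m + 1), ∑ i,
          P.E (fun w => h w * max (am P X H f kap lam x t' i t w - lam * kap / 2) 0) := by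
        intro t
        have e4 : ∀ w, h w * ∑ t' ∈ range (m + 1), ∑ i, max (am P X H f kap lam x t' i t w - lam * kap / 2) 0 =
            ∑ t' ∈ range (m + 1), ∑ i, h w * max (am P X H f kap lam x t' i t w - lam * kap / 2) 0 := fun w => by
          rw [Finset.mul_sum]
          exact Finset.sum_congr rfl fun t' _ => Finset.mul_sum _ _ _
        rw [show (fun w => h w * ∑ t' ∈ range (m + 1), ∑ i,
          max (am P X H f kap lam x t' i t w - lam * kap / 2) 0) = fun w => ∑ t' ∈ range (m + 1), ∑ i,
          h w * max (am P X H f kap lam x t' i t w - lam * kap / 2) 0 from funext e4, FP.E_sum]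
        exact Finset.sum_congr rfl fun t' _ => FP.E_sum P _ _
      have h3 : P.E (fun w => h w * Ph P X H f kap lam x m w) ≤ P.E (fun w => h w *
          ∑ t' ∈ range (m + 1), ∑ i, max (am P X H f kap lam x t' i (m + 1) w - lam * kap / 2) 0) := by
        unfold Ph
        rw [e3, e3]
        exact Finset.sum_le_sum fun t' _ => Finset.sum_le_sum fun i _ =>
          am_jensen hX (lam * kap / 2) hf (fun w => ind_nonneg _)
      -- the new part
      have h4 : lam * P.E (fun w => h w * ∑ i, ind (pc P X H f kap lam x (m + 1) i w)) ≤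
          2 * P.E (fun w => h w * ∑ i, max (am P X H f kap lam x (m + 1) i (m + 1) w - lam * kap / 2) 0) := by
        rw [E_sum_pc hf', ← FP.E_smul, ← FP.E_smul]
        refine P.E_mono fun w _ => ?_
        have h5 : lam * ∑ i, cp P X (m + 1) (pc P X H f kap lam x (m + 1) i) w ≤
            2 * ∑ i, max (am P X H f kap lam x (m + 1) i (m + 1) w - lam * kap / 2) 0 := by
          rw [Finset.mul_sum, Finset.mul_sum]
          refine Finset.sum_le_sum fun i _ => ?_
          have := am_start (P := P) (X := X) (H := H) (f := f) (kap := kap) (lam := lam) (x := x) l0 (m + 1) i w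
          linarith
        have h6 := mul_le_mul_of_nonneg_left h5 (ind_nonneg (m < σ w))
        calc lam * (h w * ∑ i, cp P X (m + 1) (pc P X H f kap lam x (m + 1) i) w) =
            ind (m < σ w) * (lam * ∑ i, cp P X (m + 1) (pc P X H f kap lam x (m + 1) i) w) := by
              show lam * (ind (m < σ w) * _) = _
              ring
          _ ≤ _ := h6
          _ = _ := by
              show ind (m < σ w) * _ = 2 * (ind (m < σ w) * _)
              ring
      have e5 : P.E (fun w => h w * Ph P X H f kap lam x (m + 1) w) = P.E (fun w => h w *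
          ∑ t' ∈ range (m + 1), ∑ i, max (am P X H f kap lam x t' i (m + 1) w - lam * kap / 2) 0) +
          P.E (fun w => h w * ∑ i, max (am P X H f kap lam x (m + 1) i (m + 1) w - lam * kap / 2) 0) := by
        rw [← FP.E_add]
        refine P.E_congr fun w _ => ?_
        unfold Ph
        rw [Finset.sum_range_succ _ (m + 1)]
        ring
      rw [e1, e2, mul_add, mul_add]
      linarith
  -- the end
  obtain ⟨m, hm⟩ : ∃ m, ∀ w, σ w ≤ m := by
    classical
    refine ⟨univ.sup σ, fun w => Finset.le_sup (mem_univ w)⟩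
  have h1 := key m
  have h2 : ∀ w, min (σ w) m = σ w := fun w => min_eq_left (hm w)
  simp only [h2] at h1
  exact h1

end step

/-! ## what the covered set sees -/

section meas

variable {Om : Type*} [Fintype Om] {P : FP Om} {κ κ' : ℕ → Type*} {X : ∀ t, Om → κ t} {R : Type*}
  {H : ℕ → R → Om → Prop} {f : R → Om → ℝ} {kap lam : ℝ} {n : ℕ} {x : Fin n → R}

/-- the covered set is seen by a filtration which sees the cells and the sections -/
theorem cov_fac {G : ∀ t, Om → κ' t} (hG : Filt G) (hGX : ∀ t, Fac (G t) (X t))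
    (hH : ∀ t a v w, G t v = G t w → (H t a v ↔ H t a w)) (t : ℕ) :
    ∀ v w, G t v = G t w → (cov P X H f kap lam x (t + 1) v ↔ cov P X H f kap lam x (t + 1) w) := by
  have one : ∀ t, (∀ v w, G t v = G t w → (cov P X H f kap lam x t v ↔ cov P X H f kap lam x t w)) →
      ∀ v w, G t v = G t w → (cov P X H f kap lam x (t + 1) v ↔ cov P X H f kap lam x (t + 1) w) := by
    intro t h0 v w e
    show (cov P X H f kap lam x t v ∨ ∃ i, H t (x i) v ∧ fs P X H f kap lam t (cov P X H f kap lam x t) x i v) ↔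
      (cov P X H f kap lam x t w ∨ ∃ i, H t (x i) w ∧ fs P X H f kap lam t (cov P X H f kap lam x t) x i w)
    rw [h0 v w e]
    refine or_congr_right (exists_congr fun i => ?_)
    rw [hH t (x i) v w e, fs_fac (hGX t v w e)]
  induction t with
  | zero => exact one 0 fun _ _ _ => Iff.rfl
  | succ t ih => exact one (t + 1) fun v w e => ih v w (hG t v w e)

/-- the covered set is a function of `V` -/
theorem cov_facV {ω : Type*} {V : Om → ω} (hX : ∀ t, Fac V (X t)) (hH : ∀ t a v w, V v = V w → (H t a v ↔ H t a w))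
    (t : ℕ) (v w : Om) (e : V v = V w) : cov P X H f kap lam x t v ↔ cov P X H f kap lam x t w := by
  cases t with
  | zero => exact Iff.rfl
  | succ t => exact cov_fac (G := fun _ => V) (fun _ => Fac.refl V) hX hH t v w e

/-- two filtrations with the same conditional means of the functions of `V` -/
theorem cov_change {Y : ∀ t, Om → κ' t} {ω : Type*} {V : Om → ω}
    (hc : ∀ t (g : Om → ℝ), Fac V g → ∀ w, P.p w ≠ 0 → P.ce (X t) g w = P.ce (Y t) g w) (hY : ∀ t, Fac V (Y t))
    (hH : ∀ t a v w, V v = V w → (H t a v ↔ H t a w)) (hf : ∀ a, Fac V (f a)) (t : ℕ) :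
    ∀ w, P.p w ≠ 0 → (cov P X H f kap lam x t w ↔ cov P Y H f kap lam x t w) := by
  induction t with
  | zero => exact fun _ _ => Iff.rfl
  | succ t ih =>
    intro w hw
    have hwt : ∀ a, wt P X H f kap lam t (cov P X H f kap lam x t) a w ↔
        wt P Y H f kap lam t (cov P Y H f kap lam x t) a w := by
      intro a
      have h1 : wt P X H f kap lam t (cov P X H f kap lam x t) a w ↔
          wt P X H f kap lam t (cov P Y H f kap lam x t) a w := wt_congr fun z hz _ => ih z hz
      rw [h1]
      have hA : ∀ v w, V v = V w → ((H t a v ∧ ¬ cov P Y H f kap lam x t v) ↔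
          (H t a w ∧ ¬ cov P Y H f kap lam x t w)) := fun v w e => by
        rw [hH t a v w e, cov_facV hY hH t v w e]
      have e1 : cp P X t (fun z => H t a z ∧ ¬ cov P Y H f kap lam x t z) w =
          cp P Y t (fun z => H t a z ∧ ¬ cov P Y H f kap lam x t z) w := hc t _ (Fac.ind hA) w hw
      have e2 := hc t (fun z => ind (H t a z ∧ ¬ cov P Y H f kap lam x t z) * f a z) ((Fac.ind hA).mul (hf a)) w hw
      unfold wt ok
      rw [e1, e2]
    show (cov P X H f kap lam x t w ∨ ∃ i, H t (x i) w ∧ fs P X H f kap lam t (cov P X H f kap lam x t) x i w) ↔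
      (cov P Y H f kap lam x t w ∨ ∃ i, H t (x i) w ∧ fs P Y H f kap lam t (cov P Y H f kap lam x t) x i w)
    rw [ih w hw]
    refine or_congr_right (exists_congr fun i => and_congr_right fun _ => ?_)
    unfold fs
    rw [hwt]
    exact and_congr_right fun _ => forall_congr' fun j => forall_congr' fun _ => not_congr (hwt _)

/-- the same for the pieces -/
theorem pc_change {Y : ∀ t, Om → κ' t} {ω : Type*} {V : Om → ω}
    (hc : ∀ t (g : Om → ℝ), Fac V g → ∀ w, P.p w ≠ 0 → P.ce (X t) g w = P.ce (Y t) g w) (hY : ∀ t, Fac V (Y t))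
    (hH : ∀ t a v w, V v = V w → (H t a v ↔ H t a w)) (hf : ∀ a, Fac V (f a)) (t : ℕ) (i : Fin n) {w : Om}
    (hw : P.p w ≠ 0) : pc P X H f kap lam x t i w ↔ pc P Y H f kap lam x t i w := by
  have hwt : ∀ a, wt P X H f kap lam t (cov P X H f kap lam x t) a w ↔
      wt P Y H f kap lam t (cov P Y H f kap lam x t) a w := by
    intro a
    have h1 : wt P X H f kap lam t (cov P X H f kap lam x t) a w ↔
        wt P X H f kap lam t (cov P Y H f kap lam x t) a w := wt_congr fun z hz _ => cov_change hc hY hH hf t z hz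
    rw [h1]
    have hA : ∀ v w, V v = V w → ((H t a v ∧ ¬ cov P Y H f kap lam x t v) ↔
        (H t a w ∧ ¬ cov P Y H f kap lam x t w)) := fun v w e => by
      rw [hH t a v w e, cov_facV hY hH t v w e]
    have e1 : cp P X t (fun z => H t a z ∧ ¬ cov P Y H f kap lam x t z) w =
        cp P Y t (fun z => H t a z ∧ ¬ cov P Y H f kap lam x t z) w := hc t _ (Fac.ind hA) w hw
    have e2 := hc t (fun z => ind (H t a z ∧ ¬ cov P Y H f kap lam x t z) * f a z) ((Fac.ind hA).mul (hf a)) w hw
    unfold wt ok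
    rw [e1, e2]
  unfold pc tk fs
  rw [cov_change hc hY hH hf t w hw, hwt]
  exact and_congr_right fun _ => and_congr_right fun _ => forall_congr' fun j => forall_congr' fun _ =>
    not_congr (hwt _)

end meas

/-! ## levels -/

section lev

variable {Om : Type*} [Fintype Om] (P : FP Om) {κ : ℕ → Type*} (X : ∀ t, Om → κ t) {R : Type*}
  (H : ℕ → R → Om → Prop) (f : R → Om → ℝ) (kap lam : ℝ) (K : ℕ)

/-- the cells at the refined time `t` : `K` steps per level -/
def rX (t : ℕ) : Om → κ (t / K) := X (t / K)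

/-- the sections at the refined time -/
def rH (t : ℕ) : R → Om → Prop := H (t / K)

/-- covered after the level `s` -/
def covL {n : ℕ} (x : Fin n → R) (s : ℕ) : Om → Prop := cov P (rX X K) (rH H K) f kap lam x ((s + 1) * K)

/-- the piece of the row `i` at the refined time `t` -/
def pcL {n : ℕ} (x : Fin n → R) (t : ℕ) (i : Fin n) : Om → Prop := pc P (rX X K) (rH H K) f kap lam x t i

/-- the row `a` can be taken at a level `< T`, on the path of `w` -/
def bad {n : ℕ} (x : Fin n → R) (a : R) (T : ℕ) (w : Om) : Prop :=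
  ∃ s < T, ok P X kap lam s (fun z => H s a z ∧ ¬ covL P X H f kap lam K x s z) (f a) w

/-- signed mean over the piece at the level `s` -/
def amL {n : ℕ} (x : Fin n → R) (t : ℕ) (i : Fin n) (s : ℕ) (w : Om) : ℝ :=
  P.ce (X s) (fun z => ind (pcL P X H f kap lam K x t i z) * f (x i) z) w

/-- the potential -/
def PhL {n : ℕ} (x : Fin n → R) (s : ℕ) (w : Om) : ℝ :=
  ∑ t ∈ range ((s + 1) * K), ∑ i, max (amL P X H f kap lam K x t i s w - lam * kap / 2) 0

variable {P X H f kap lam K}

theorem rX_filt (hX : Filt X) : Filt (rX X K) := fun t => hX.le (Nat.div_le_div_right (Nat.le_succ t))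

theorem div_lev (hK : 0 < K) (s : ℕ) {r : ℕ} (hr : r < K) : (s * K + r) / K = s := by
  rw [Nat.add_comm, Nat.add_mul_div_right _ _ hK, Nat.div_eq_of_lt hr, zero_add]

theorem ok_lev {t s : ℕ} (h : t / K = s) {A : Om → Prop} {g : Om → ℝ} {w : Om} :
    ok P (rX X K) kap lam t A g w ↔ ok P X kap lam s A g w := by
  subst h
  exact Iff.rfl

theorem wt_lev {t s : ℕ} (h : t / K = s) {C : Om → Prop} {a : R} {w : Om} :
    wt P (rX X K) (rH H K) f kap lam t C a w ↔ ok P X kap lam s (fun z => H s a z ∧ ¬ C z) (f a) w := by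
  subst h
  exact Iff.rfl

theorem rX_lev {t s : ℕ} (h : t / K = s) {v w : Om} : rX X K t v = rX X K t w ↔ X s v = X s w := by
  subst h
  exact Iff.rfl

theorem cp_lev {t s : ℕ} (h : t / K = s) {A : Om → Prop} {w : Om} : cp P (rX X K) t A w = cp P X s A w := by
  subst h
  rfl

variable {n : ℕ} {x : Fin n → R}

theorem covL_mono {s s' : ℕ} (h : s ≤ s') {w : Om} (hw : covL P X H f kap lam K x s w) :
    covL P X H f kap lam K x s' w := cov_mono (Nat.mul_le_mul_right K (by omega)) hw

theorem ind_covL (s : ℕ) (w : Om) : ind (covL P X H f kap lam K x s w) =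
    ∑ t ∈ range ((s + 1) * K), ∑ i, ind (pcL P X H f kap lam K x t i w) := ind_cov _ w

theorem covL_iff (s : ℕ) (w : Om) : covL P X H f kap lam K x s w ↔
    ∃ t < (s + 1) * K, ∃ i, pcL P X H f kap lam K x t i w := cov_iff _ w

theorem pcL_one {t t' : ℕ} {i i' : Fin n} {w : Om} (h : pcL P X H f kap lam K x t i w)
    (h' : pcL P X H f kap lam K x t' i' w) : t = t' ∧ i = i' := pc_one h h'

/-- **after a level no row of the list can be taken** -/
theorem stable (hK : 1 < kap * K) (s : ℕ) (i : Fin n) {w : Om} (hw : P.p w ≠ 0) :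
    ¬ ok P X kap lam s (fun z => H s (x i) z ∧ ¬ covL P X H f kap lam K x s z) (f (x i)) w := by
  intro hok
  have K0 : 0 < K := by
    rcases Nat.eq_zero_or_pos K with h | h
    · rw [h, Nat.cast_zero, mul_zero] at hK
      linarith
    · exact h
  have kap0 : 0 < kap := by
    have h1 : (0 : ℝ) < K := by exact_mod_cast K0
    by_contra h2
    have h3 := mul_nonpos_of_nonpos_of_nonneg (not_lt.1 h2) h1.le
    linarith
  -- at every step of the level a row is taken
  have hA : ∀ r < K, ∃ j, tk P (rX X K) (rH H K) f kap lam x (s * K + r) j w := by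
    intro r hr
    by_contra hcon
    push Not at hcon
    have h1 : ∀ k, r ≤ k → k ≤ K → ∀ z, X s z = X s w → (cov P (rX X K) (rH H K) f kap lam x (s * K + k) z ↔
        cov P (rX X K) (rH H K) f kap lam x (s * K + r) z) := by
      intro k hk
      induction k, hk using Nat.le_induction with
      | base => exact fun _ _ _ => Iff.rfl
      | succ k hk ih =>
        intro hk1 z hz
        have i1 := ih (by omega)
        have hkk : (s * K + k) / K = s := div_lev K0 s (by omega)
        have e1 : s * K + (k + 1) = s * K + k + 1 := by ring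
        rw [e1, cov_succ, i1 z hz]
        refine ⟨fun h => h.elim id fun ⟨j, hj⟩ => ?_, Or.inl⟩
        exfalso
        have h2 : wt P (rX X K) (rH H K) f kap lam (s * K + k) (cov P (rX X K) (rH H K) f kap lam x (s * K + k))
            (x j) w := (wt_fac ((rX_lev hkk).2 hz)).1 hj.2.1
        have h3 : wt P (rX X K) (rH H K) f kap lam (s * K + k) (cov P (rX X K) (rH H K) f kap lam x (s * K + r))
            (x j) w := (wt_congr fun z' _ hz' => i1 z' ((rX_lev hkk).1 hz')).1 h2
        have h4 : wt P (rX X K) (rH H K) f kap lam (s * K + r) (cov P (rX X K) (rH H K) f kap lam x (s * K + r))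
            (x j) w := (wt_lev (div_lev K0 s hr)).2 ((wt_lev hkk).1 h3)
        obtain ⟨j', hj'⟩ := fs_ex h4
        exact hcon j' hj'
    have h2 : wt P (rX X K) (rH H K) f kap lam (s * K + r) (cov P (rX X K) (rH H K) f kap lam x (s * K + r))
        (x i) w := by
      rw [wt_lev (div_lev K0 s hr)]
      refine (ok_congr fun z _ hz => ?_).1 hok
      have h3 := h1 K hr.le le_rfl z hz
      have e1 : s * K + K = (s + 1) * K := by ring
      rw [e1] at h3
      rw [← h3]
      exact Iff.rfl
    obtain ⟨j', hj'⟩ := fs_ex h2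
    exact hcon j' hj'
  -- the pieces of the level are disjoint
  have h1 : ∀ r < K, kap ≤ ∑ j, cp P X s (pc P (rX X K) (rH H K) f kap lam x (s * K + r) j) w := by
    intro r hr
    obtain ⟨j, hj⟩ := hA r hr
    have h2 := pc_ge (P := P) (X := rX X K) (H := rH H K) (f := f) (kap := kap) (lam := lam) (x := x) (s * K + r) j w
    rw [ind_of hj, mul_one, cp_lev (div_lev K0 s hr)] at h2
    exact h2.trans (Finset.single_le_sum (f := fun j => cp P X s (pc P (rX X K) (rH H K) f kap lam x (s * K + r) j) w)
      (fun _ _ => cp_nonneg _ _ _) (mem_univ j))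
  have h2 : ∑ r ∈ range K, ∑ j, cp P X s (pc P (rX X K) (rH H K) f kap lam x (s * K + r) j) w ≤ 1 := by
    have h3 : ∑ r ∈ range K, ∑ j, cp P X s (pc P (rX X K) (rH H K) f kap lam x (s * K + r) j) w =
        P.ce (X s) (fun z => ∑ r ∈ range K, ∑ j, ind (pc P (rX X K) (rH H K) f kap lam x (s * K + r) j z)) w := by
      rw [P.ce_sum]
      refine Finset.sum_congr rfl fun r _ => ?_
      rw [P.ce_sum]
      rfl
    rw [h3]
    refine P.ce_le_const (fun z _ => ?_) hw
    have h4 := ind_cov (P := P) (X := rX X K) (H := rH H K) (f := f) (kap := kap) (lam := lam) (x := x) (s * K + K) z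
    rw [Finset.sum_range_add] at h4
    have h5 : 0 ≤ ∑ t ∈ range (s * K), ∑ i, ind (pc P (rX X K) (rH H K) f kap lam x t i z) :=
      Finset.sum_nonneg fun _ _ => Finset.sum_nonneg fun _ _ => ind_nonneg _
    have h6 := ind_le_one (cov P (rX X K) (rH H K) f kap lam x (s * K + K) z)
    linarith
  have h3 : ∑ r ∈ range K, kap ≤ 1 := (Finset.sum_le_sum fun r hr => h1 r (mem_range.1 hr)).trans h2
  rw [Finset.sum_const, card_range, nsmul_eq_mul] at h3
  linarith

/-- a row which is bad for the cover of the others is taken in the cover of all -/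
theorem bad_tk (hX : Filt X) (hK : 1 < kap * K) (z : Fin (n + 1) → R) (j : Fin (n + 1)) {T : ℕ} {w : Om}
    (hw : P.p w ≠ 0) (hb : bad P X H f kap lam K (fun i => z (j.succAbove i)) (z j) T w) :
    ∃ t < T * K, tk P (rX X K) (rH H K) f kap lam z t j w := by
  by_contra hcon
  push Not at hcon
  obtain ⟨s, hs, h3⟩ := hb
  have hsT : (s + 1) * K ≤ T * K := Nat.mul_le_mul_right K (by omega)
  have h4 := cov_skip (P := P) (X := rX X K) (H := rH H K) (f := f) (kap := kap) (lam := lam) z j (rX_filt hX) (w := w)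
    (t := (s + 1) * K) (fun t' ht' => hcon t' (by omega))
  refine stable (P := P) (X := X) (H := H) (f := f) (kap := kap) (lam := lam) (x := z) hK s j hw
    ((ok_congr fun v _ hv => ?_).1 h3)
  have h5 : ∀ t' < (s + 1) * K, rX X K t' v = rX X K t' w := fun t' ht' => by
    have h6 : t' / K ≤ s := Nat.lt_succ_iff.1 (Nat.div_lt_of_lt_mul (by rw [Nat.mul_comm]; exact ht'))
    exact hX.le h6 v w hv
  have h6 := h4 v h5
  show (H s (z j) v ∧ ¬ cov P (rX X K) (rH H K) f kap lam (fun i => z (j.succAbove i)) ((s + 1) * K) v) ↔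
    (H s (z j) v ∧ ¬ cov P (rX X K) (rH H K) f kap lam z ((s + 1) * K) v)
  rw [h6]

/-- **A FRESH ROW CAN BE TAKEN AT SOME LEVEL** with small probability, in the mean over the list -/
theorem bad_le [Fintype R] (hX : Filt X) (hK : 1 < kap * K) (k0 : 0 < kap) {q : R → ℝ} (hq : ∀ a, 0 ≤ q a)
    (hq1 : ∑ a, q a = 1) (M T : ℕ) :
    ∑ x : Fin M → R, sw q x * ∑ a, q a * P.Pr (bad P X H f kap lam K x a T) ≤ 1 / (kap * (M + 1)) := by
  have h1 : ∀ j : Fin (M + 1), ∑ x : Fin M → R, sw q x * ∑ a, q a * P.Pr (bad P X H f kap lam K x a T) ≤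
      ∑ z : Fin (M + 1) → R, sw q z * ∑ t ∈ range (T * K), P.Pr (tk P (rX X K) (rH H K) f kap lam z t j) := by
    intro j
    rw [← sw_split q j (fun a x => P.Pr (bad P X H f kap lam K x a T))]
    refine Finset.sum_le_sum fun z _ => mul_le_mul_of_nonneg_left ?_ (sw_nonneg hq z)
    refine (P.Pr_mono fun w hw hb => ?_).trans (P.Pr_ex_le (range (T * K)) _)
    obtain ⟨t, ht, h3⟩ := bad_tk hX hK z j hw hb
    exact ⟨t, mem_range.2 ht, h3⟩
  have h2 : kap * ∑ j : Fin (M + 1), ∑ z : Fin (M + 1) → R, sw q z * ∑ t ∈ range (T * K),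
      P.Pr (tk P (rX X K) (rH H K) f kap lam z t j) ≤ 1 := by
    rw [Finset.sum_comm, Finset.mul_sum]
    have h3 : ∀ z : Fin (M + 1) → R, kap * ∑ j : Fin (M + 1), sw q z * ∑ t ∈ range (T * K),
        P.Pr (tk P (rX X K) (rH H K) f kap lam z t j) ≤ sw q z := by
      intro z
      rw [← Finset.mul_sum, Finset.sum_comm]
      have h4 := taken_le (P := P) (X := rX X K) (H := rH H K) (f := f) (kap := kap) (lam := lam) (x := z) (T * K)
      have h5 := mul_le_mul_of_nonneg_left h4 (sw_nonneg hq z)
      linarith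
    refine (Finset.sum_le_sum fun z _ => h3 z).trans ?_
    rw [sw_sum hq1]
  have h4 : ((M : ℝ) + 1) * ∑ x : Fin M → R, sw q x * ∑ a, q a * P.Pr (bad P X H f kap lam K x a T) ≤
      ∑ j : Fin (M + 1), ∑ z : Fin (M + 1) → R, sw q z * ∑ t ∈ range (T * K),
        P.Pr (tk P (rX X K) (rH H K) f kap lam z t j) := by
    refine le_trans (le_of_eq ?_) (Finset.sum_le_sum fun j _ => h1 j)
    rw [Finset.sum_const, Finset.card_univ, Fintype.card_fin, nsmul_eq_mul]
    push_cast
    rfl
  rw [le_div_iff₀ (mul_pos k0 (by positivity))]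
  have h5 := mul_le_mul_of_nonneg_left h4 k0.le
  linarith

/-! ### payment -/

theorem last_lev (hK : 0 < K) (s : ℕ) : ((s + 1) * K - 1) / K = s := by
  have h1 : (s + 1) * K - 1 = s * K + (K - 1) := by
    have : (s + 1) * K = s * K + K := by ring
    omega
  rw [h1]
  exact div_lev hK s (by omega)

theorem am_lev {t s : ℕ} (h : t / K = s) (t' : ℕ) (i : Fin n) (w : Om) :
    am P (rX X K) (rH H K) f kap lam x t' i t w = amL P X H f kap lam K x t' i s w := by
  subst h
  rfl

/-- **being covered at a stopping time is paid by the potential** -/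
theorem pay (hX : Filt X) (hK : 0 < K) (l0 : 0 ≤ lam) {σ : Om → ℕ} (hσ : Stp X σ) :
    lam * P.Pr (fun w => covL P X H f kap lam K x (σ w) w) ≤
      2 * P.E (fun w => PhL P X H f kap lam K x (σ w) w) := by
  set τ : Om → ℕ := fun w => (σ w + 1) * K - 1 with hτ
  have pos : ∀ w, 0 < (σ w + 1) * K := fun w => Nat.mul_pos (Nat.succ_pos _) hK
  have e0 : ∀ w, τ w + 1 = (σ w + 1) * K := fun w => by
    have := pos w
    show (σ w + 1) * K - 1 + 1 = _
    omega
  have hst : Stp (rX X K) τ := by
    intro t v w e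
    have h1 : ∀ u, τ u ≤ t ↔ σ u + 1 ≤ (t + 1) / K := fun u => by
      rw [Nat.le_div_iff_mul_le hK, ← e0 u]
      omega
    rw [h1, h1]
    rcases Nat.eq_zero_or_pos ((t + 1) / K) with h2 | h2
    · rw [h2]
      omega
    · obtain ⟨m, hm⟩ : ∃ m, (t + 1) / K = m + 1 := ⟨(t + 1) / K - 1, by omega⟩
      rw [hm]
      have h3 : m ≤ t / K := by
        have h4 : (t + 1) / K ≤ t / K + 1 := by
          calc (t + 1) / K ≤ (t + K) / K := Nat.div_le_div_right (by omega)
            _ = t / K + 1 := Nat.add_div_right t hK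
        omega
      have h4 := hσ m v w (hX.le h3 v w e)
      omega
  have h1 := cov_le (P := P) (X := rX X K) (H := rH H K) (f := f) (kap := kap) (lam := lam) (x := x) (rX_filt hX) l0 hst
  have e1 : P.Pr (fun w => cov P (rX X K) (rH H K) f kap lam x (τ w + 1) w) =
      P.Pr (fun w => covL P X H f kap lam K x (σ w) w) := P.Pr_congr fun w _ => by
    rw [e0 w]
    exact Iff.rfl
  have e2 : P.E (fun w => Ph P (rX X K) (rH H K) f kap lam x (τ w) w) =
      P.E (fun w => PhL P X H f kap lam K x (σ w) w) := P.E_congr fun w _ => by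
    unfold Ph PhL
    rw [e0 w]
    refine Finset.sum_congr rfl fun t' _ => Finset.sum_congr rfl fun i _ => ?_
    rw [am_lev (last_lev hK (σ w))]
  rw [e1, e2] at h1
  exact h1

variable (P X H f kap lam K x) in
open Classical in
/-- the selected pieces -/
def IT (s : ℕ) (w : Om) : Finset (ℕ × Fin n) :=
  ((range ((s + 1) * K)) ×ˢ univ).filter fun p => lam * kap / 2 < amL P X H f kap lam K x p.1 p.2 s w

theorem mem_IT {s : ℕ} {w : Om} {p : ℕ × Fin n} : p ∈ IT P X H f kap lam K x s w ↔
    p.1 < (s + 1) * K ∧ lam * kap / 2 < amL P X H f kap lam K x p.1 p.2 s w := by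
  unfold IT
  rw [mem_filter, mem_product, mem_range]
  exact and_congr_left fun _ => and_iff_left (mem_univ _)

variable (P X H f kap lam K x) in
/-- the signed function of the selected pieces: at most one piece contains the point -/
def sel (s : ℕ) (w z : Om) : ℝ :=
  ∑ p ∈ IT P X H f kap lam K x s w, ind (pcL P X H f kap lam K x p.1 p.2 z) * f (x p.2) z

theorem ce_sel (s : ℕ) (w : Om) : P.ce (X s) (sel P X H f kap lam K x s w) w =
    ∑ p ∈ IT P X H f kap lam K x s w, amL P X H f kap lam K x p.1 p.2 s w := P.ce_sum _ _ _ w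

/-- **the potential is at most the signed mean over the selected pieces** -/
theorem PhL_le (k0 : 0 ≤ kap) (l0 : 0 ≤ lam) (s : ℕ) (w : Om) :
    PhL P X H f kap lam K x s w ≤ P.ce (X s) (sel P X H f kap lam K x s w) w := by
  classical
  rw [ce_sel]
  unfold PhL IT
  rw [Finset.sum_filter, Finset.sum_product]
  have h0 : 0 ≤ lam * kap / 2 := by positivity
  refine Finset.sum_le_sum fun t _ => Finset.sum_le_sum fun i _ => ?_
  split_ifs with h
  · exact max_le (by linarith) (by linarith)
  · exact max_le (by linarith [not_lt.1 h]) le_rfl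

theorem sel_le {L : ℝ} (L0 : 0 ≤ L) (hL : ∀ i z, f (x i) z ≤ L) (s : ℕ) (w z : Om) :
    sel P X H f kap lam K x s w z ≤ L := by
  unfold sel
  by_cases h : ∃ p ∈ IT P X H f kap lam K x s w, pcL P X H f kap lam K x p.1 p.2 z
  · obtain ⟨p, hp, h1⟩ := h
    rw [Finset.sum_eq_single p, ind_of h1, one_mul]
    · exact hL _ _
    · intro p' _ hne
      rw [ind_not, zero_mul]
      intro h2
      have h3 := pcL_one h2 h1
      exact hne (Prod.ext h3.1 h3.2)
    · intro h2
      exact absurd hp h2
  · rw [Finset.sum_eq_zero fun p hp => by rw [ind_not fun h1 => h ⟨p, hp, h1⟩, zero_mul]]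
    exact L0

/-- the number of the selected pieces -/
theorem card_le {L : ℝ} (L0 : 0 ≤ L) (hL : ∀ i z, f (x i) z ≤ L) (s : ℕ) {w : Om} (hw : P.p w ≠ 0) :
    (IT P X H f kap lam K x s w).card * (lam * kap / 2) ≤ L := by
  have h1 : (IT P X H f kap lam K x s w).card * (lam * kap / 2) ≤ P.ce (X s) (sel P X H f kap lam K x s w) w := by
    rw [ce_sel, ← nsmul_eq_mul, ← Finset.sum_const]
    exact Finset.sum_le_sum fun p hp => (mem_IT.1 hp).2.le
  exact h1.trans (P.ce_le_const (fun z _ => sel_le L0 hL s w z) hw)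

/-! ### what the covered set sees -/

theorem covL_fac {κ' : ℕ → Type*} {G : ∀ t, Om → κ' t} (hG : Filt G) (hK : 0 < K) (hGX : ∀ s, Fac (G s) (X s))
    (hH : ∀ s a v w, G s v = G s w → (H s a v ↔ H s a w)) (s : ℕ) (v w : Om) (e : G s v = G s w) :
    covL P X H f kap lam K x s v ↔ covL P X H f kap lam K x s w := by
  have h1 := cov_fac (P := P) (X := rX X K) (H := rH H K) (f := f) (kap := kap) (lam := lam) (x := x)
    (G := fun t => G (t / K)) (fun t => hG.le (Nat.div_le_div_right (Nat.le_succ t))) (fun t => hGX (t / K))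
    (fun t a v w h => hH (t / K) a v w h) ((s + 1) * K - 1) v w
  have h2 : (s + 1) * K - 1 + 1 = (s + 1) * K := by
    have : 0 < (s + 1) * K := Nat.mul_pos (Nat.succ_pos _) hK
    omega
  rw [h2] at h1
  refine h1 ?_
  show G (((s + 1) * K - 1) / K) v = G (((s + 1) * K - 1) / K) w
  rw [last_lev hK s]
  exact e

theorem covL_facV {ω : Type*} {V : Om → ω} (hX : ∀ s, Fac V (X s))
    (hH : ∀ s a v w, V v = V w → (H s a v ↔ H s a w)) (s : ℕ) (v w : Om) (e : V v = V w) :
    covL P X H f kap lam K x s v ↔ covL P X H f kap lam K x s w :=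
  cov_facV (fun t => hX (t / K)) (fun t a v w h => hH (t / K) a v w h) _ v w e

theorem bad_facV {ω : Type*} {V : Om → ω} (hX : ∀ s, Fac V (X s)) (a : R) (T : ℕ) (v w : Om) (e : V v = V w) :
    bad P X H f kap lam K x a T v ↔ bad P X H f kap lam K x a T w :=
  exists_congr fun s => and_congr_right fun _ => ok_fac _ _ (hX s v w e)

theorem covL_change {κ' : ℕ → Type*} {Y : ∀ t, Om → κ' t} {ω : Type*} {V : Om → ω}
    (hc : ∀ s (g : Om → ℝ), Fac V g → ∀ w, P.p w ≠ 0 → P.ce (X s) g w = P.ce (Y s) g w) (hY : ∀ s, Fac V (Y s))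
    (hH : ∀ s a v w, V v = V w → (H s a v ↔ H s a w)) (hf : ∀ a, Fac V (f a)) (s : ℕ) {w : Om} (hw : P.p w ≠ 0) :
    covL P X H f kap lam K x s w ↔ covL P Y H f kap lam K x s w :=
  cov_change (X := rX X K) (Y := rX Y K) (fun t g hg w hw => hc (t / K) g hg w hw) (fun t => hY (t / K))
    (fun t a v w h => hH (t / K) a v w h) hf _ w hw

theorem pcL_change {κ' : ℕ → Type*} {Y : ∀ t, Om → κ' t} {ω : Type*} {V : Om → ω}
    (hc : ∀ s (g : Om → ℝ), Fac V g → ∀ w, P.p w ≠ 0 → P.ce (X s) g w = P.ce (Y s) g w) (hY : ∀ s, Fac V (Y s))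
    (hH : ∀ s a v w, V v = V w → (H s a v ↔ H s a w)) (hf : ∀ a, Fac V (f a)) (t : ℕ) (i : Fin n) {w : Om}
    (hw : P.p w ≠ 0) : pcL P X H f kap lam K x t i w ↔ pcL P Y H f kap lam K x t i w :=
  pc_change (X := rX X K) (Y := rX Y K) (fun t g hg w hw => hc (t / K) g hg w hw) (fun t => hY (t / K))
    (fun t a v w h => hH (t / K) a v w h) hf t i hw

end lev

/-! ## one vertex against the others -/

section vertex

variable {Om : Type*} [Fintype Om] {P : FP Om} {κ : ℕ → Type*} {cV : ∀ t, Om → κ t} {α ω : Type*} [Fintype α]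
  {U : Om → α} {V : Om → ω} {H : ℕ → α → Om → Prop} {f : α → Om → ℝ} {kap lam : ℝ} {K : ℕ}

/-- **the true row `U`** : it can be taken at some level with small probability, in the mean over `M` copies -/
theorem bad_ind (hI : P.Indep U V) (hV : ∀ s, Fac V (cV s)) (fV : Filt cV) (hK : 1 < kap * K) (k0 : 0 < kap)
    (M T : ℕ) :
    ∑ x : Fin M → α, sw (fun a => P.Pr (fun w => U w = a)) x *
      P.Pr (fun w => bad P cV H f kap lam K x (U w) T w) ≤ 1 / (kap * (M + 1)) := by
  refine le_trans (le_of_eq ?_) (bad_le (P := P) (X := cV) (H := H) (f := f) (kap := kap) (lam := lam) (K := K) fV hK k0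
    (q := fun a => P.Pr (fun w => U w = a)) (fun a => P.Pr_nonneg _) (sum_Pr_eq U) M T)
  refine Finset.sum_congr rfl fun x _ => ?_
  congr 1
  exact Pr_frz hI (fun a w => bad P cV H f kap lam K x a T w) fun a v w h => bad_facV hV a T v w h

/-- what a row says at the level `s` if it is not bad -/
theorem not_bad (hI : P.Indep U V) {κ' : ℕ → Type*} {cU : ∀ t, Om → κ' t} (hU : ∀ s, Fac U (cU s))
    (hV : ∀ s, Fac V (cV s)) (hH : ∀ s a v w, V v = V w → (H s a v ↔ H s a w)) (hf : ∀ a, Fac V (f a))
    {M : ℕ} {x : Fin M → α} {s T : ℕ} (hs : s < T) {L : ℝ} (L0 : 0 ≤ L) (l0 : 0 ≤ lam) (k0 : 0 ≤ kap)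
    (hL : ∀ a z, f a z ≤ L) {w : Om} (hw : P.p w ≠ 0) (hb : ¬ bad P cV H f kap lam K x (U w) T w) :
    P.ce (fun v => (pair cU cV s v, U v)) (fun v => ind (H s (U v) v ∧ ¬ covL P cV H f kap lam K x s v) *
      f (U v) v) w ≤ lam * P.ce (fun v => (pair cU cV s v, U v))
        (fun v => ind (H s (U v) v ∧ ¬ covL P cV H f kap lam K x s v)) w + L * kap := by
  have hA : ∀ a v w, V v = V w → ((H s a v ∧ ¬ covL P cV H f kap lam K x s v) ↔
      (H s a w ∧ ¬ covL P cV H f kap lam K x s w)) := fun a v w e => by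
    rw [hH s a v w e, covL_facV hV hH s v w e]
  have e1 := ce_frz_real hI hU hV s (fun a v => ind (H s a v ∧ ¬ covL P cV H f kap lam K x s v) * f a v)
    (fun a => (Fac.ind (hA a)).mul (hf a)) hw
  have e2 := ce_frz hI hU hV s (fun a v => H s a v ∧ ¬ covL P cV H f kap lam K x s v) hA hw
  rw [e1, e2]
  have h1 : ¬ ok P cV kap lam s (fun z => H s (U w) z ∧ ¬ covL P cV H f kap lam K x s z) (f (U w)) w := fun h =>
    hb ⟨s, hs, h⟩
  have c0 := cp_nonneg (P := P) (X := cV) s (fun z => H s (U w) z ∧ ¬ covL P cV H f kap lam K x s z) w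
  by_cases h2 : kap ≤ cp P cV s (fun z => H s (U w) z ∧ ¬ covL P cV H f kap lam K x s z) w
  · have h3 : P.ce (cV s) (fun z => ind (H s (U w) z ∧ ¬ covL P cV H f kap lam K x s z) * f (U w) z) w <
        lam * cp P cV s (fun z => H s (U w) z ∧ ¬ covL P cV H f kap lam K x s z) w :=
      not_le.1 fun h => h1 ⟨h2, h⟩
    have := mul_nonneg L0 k0
    linarith
  · have h3 : P.ce (cV s) (fun z => ind (H s (U w) z ∧ ¬ covL P cV H f kap lam K x s z) * f (U w) z) w ≤
        L * cp P cV s (fun z => H s (U w) z ∧ ¬ covL P cV H f kap lam K x s z) w := by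
      unfold cp
      rw [← P.ce_smul]
      refine P.ce_mono (fun z _ => ?_) w
      rw [mul_comm]
      exact mul_le_mul_of_nonneg_right (hL _ z) (ind_nonneg _)
    have h4 := mul_le_mul_of_nonneg_left (not_le.1 h2).le L0
    have := mul_nonneg l0 c0
    linarith

end vertex

end

end Pool.Agent.GMH.GdyR
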