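import Pool.Agent.GMH.Gdy

/-!
# GMH/GdyT (helper63): greedy covers by time dependent rows with weights (note 3934)

`H s r` = the row `r < M` at the time `s` (for example the points which deviate NOW), threshold `u / 2`.  At every time the
rows are handled in their order; a row may be taken many times.  `nwT s r` = newly covered by `r` at the time `s`.
Weights `v t r ≥ 0`, `v s r ≥ lam` on `H s r`, which do not decrease in the mean after the time of the taking.
`aT s r t = E [1_(nwT s r) v t r | node t]`, `PhiT t = ∑ s ≤ t, ∑ r, (aT s r t - lam u / 4)^+`.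

* `cp_ltT` : no sampled row is dense outside the covered set; `taken_leT` : expected number of takings `≤ 2/u`;
* `cov_leT` : `lam P (covered at σ) ≤ 2 E PhiT(σ)`.
-/

set_option autoImplicit false
set_option linter.unusedSectionVars false

namespace Pool.Agent.GMH.Gdy

open Finset Pool.Agent.PWZ Pool.Agent.M3

noncomputable section

variable {Om : Type*} [Fintype Om] (P : FP Om) {κ : ℕ → Type*} (X : ∀ t, Om → κ t) (u : ℝ)
  (H : ℕ → ℕ → Om → Prop) (M : ℕ)

/-- covered before the time `s` -/
def covT : ℕ → Om → Prop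
  | 0 => fun _ => False
  | s + 1 => pass P X u (H s) s (covT s) M

/-- covered before the row `r` at the time `s` -/
def CvT (s r : ℕ) : Om → Prop := pass P X u (H s) s (covT P X u H M s) r

/-- the row `r` is taken at the time `s` -/
def tkT (s r : ℕ) : Om → Prop := tk1 P X u s (CvT P X u H M s r) (H s r)

/-- newly covered by the row `r` at the time `s` -/
def nwT (s r : ℕ) (w : Om) : Prop := H s r w ∧ ¬ CvT P X u H M s r w ∧ tkT P X u H M s r w

variable {P X u H M}

theorem tkT_fac {s r : ℕ} {v w : Om} (h : X s v = X s w) : tkT P X u H M s r v ↔ tkT P X u H M s r w := tk1_fac _ _ h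

theorem CvT_le {s r r' : ℕ} (h : r ≤ r') {w : Om} (hw : CvT P X u H M s r w) : CvT P X u H M s r' w := pass_le _ h hw

theorem CvT_zero (s : ℕ) : CvT P X u H M s 0 = covT P X u H M s := rfl

theorem CvT_last (s : ℕ) : CvT P X u H M s M = covT P X u H M (s + 1) := rfl

theorem CvT_succ (s r : ℕ) (w : Om) : CvT P X u H M s (r + 1) w ↔ CvT P X u H M s r w ∨ nwT P X u H M s r w := by
  show (CvT P X u H M s r w ∨ (H s r w ∧ tkT P X u H M s r w)) ↔ _
  unfold nwT
  tauto

theorem covT_succ {s : ℕ} {w : Om} (hw : covT P X u H M s w) : covT P X u H M (s + 1) w := by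
  rw [← CvT_zero] at hw
  rw [← CvT_last]
  exact CvT_le (Nat.zero_le _) hw

theorem covT_mono {s s' : ℕ} (h : s ≤ s') {w : Om} (hw : covT P X u H M s w) : covT P X u H M s' w := by
  induction s', h using Nat.le_induction with
  | base => exact hw
  | succ s' _ ih => exact covT_succ ih

theorem covT_CvT {s s' r : ℕ} (h : s ≤ s') {w : Om} (hw : covT P X u H M s w) : CvT P X u H M s' r w := by
  have h1 := covT_mono h hw
  rw [← CvT_zero] at h1
  exact CvT_le (Nat.zero_le _) h1

theorem tkT_Cv {s r : ℕ} {w : Om} (ht : tkT P X u H M s r w) (hw : H s r w) : CvT P X u H M s (r + 1) w :=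
  Or.inr ⟨hw, ht⟩

theorem tkT_cov {s r : ℕ} (hr : r < M) {w : Om} (ht : tkT P X u H M s r w) (hw : H s r w) :
    covT P X u H M (s + 1) w := by
  rw [← CvT_last]
  exact CvT_le hr (tkT_Cv ht hw)

/-- **no row of the sample is dense outside the covered set** -/
theorem cp_ltT (hu : 0 < u) {s r : ℕ} (hr : r < M) (w : Om) :
    cp P X s (fun v => H s r v ∧ ¬ covT P X u H M (s + 1) v) w < u / 2 := by
  by_cases ht : tkT P X u H M s r w
  · rw [cp_zero]
    · linarith
    · rintro v _ hv ⟨h1, h2⟩
      exact h2 (tkT_cov hr ((tkT_fac hv).2 ht) h1)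
  · refine lt_of_le_of_lt (cp_mono (fun v hv => ?_) w) (not_le.1 ht)
    refine ⟨hv.1, fun h => hv.2 ?_⟩
    rw [← CvT_last]
    exact CvT_le hr.le h

theorem nwT_cov {s r : ℕ} (hr : r < M) {w : Om} (h : nwT P X u H M s r w) : covT P X u H M (s + 1) w :=
  tkT_cov hr h.2.2 h.1

theorem nwT_not_cov {s r : ℕ} {w : Om} (h : nwT P X u H M s r w) : ¬ covT P X u H M s w := fun h1 =>
  h.2.1 (covT_CvT le_rfl h1)

/-- the covered set is the union of the newly covered sets: one time -/
theorem ind_covT_succ (s : ℕ) (w : Om) :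
    ind (covT P X u H M (s + 1) w) = ind (covT P X u H M s w) + ∑ r ∈ range M, ind (nwT P X u H M s r w) := by
  have h1 : ∀ n, ind (CvT P X u H M s n w) = ind (covT P X u H M s w) + ∑ r ∈ range n, ind (nwT P X u H M s r w) := by
    intro n
    induction n with
    | zero => simp [CvT_zero]
    | succ n ih =>
      rw [Finset.sum_range_succ, ← add_assoc, ← ih, propext (CvT_succ s n w)]
      by_cases h2 : CvT P X u H M s n w
      · rw [ind_of h2, ind_of (Or.inl h2), ind_not (fun h => h.2.1 h2)]
        ring
      · rw [ind_not h2, zero_add]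
        by_cases h3 : nwT P X u H M s n w
        · rw [ind_of h3, ind_of (Or.inr h3)]
        · rw [ind_not h3, ind_not (by tauto)]
  rw [← CvT_last]
  exact h1 M

/-- the conditional probability of the newly covered set -/
theorem cp_nwT (s r : ℕ) (w : Om) : cp P X s (nwT P X u H M s r) w =
    ind (tkT P X u H M s r w) * cp P X s (fun v => H s r v ∧ ¬ CvT P X u H M s r v) w := by
  by_cases ht : tkT P X u H M s r w
  · rw [ind_of ht, one_mul]
    refine cp_congr_on fun v _ hv => ?_
    have := (tkT_fac (P := P) (u := u) (H := H) (M := M) (r := r) hv).2 ht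
    unfold nwT
    tauto
  · rw [ind_not ht, zero_mul]
    refine cp_zero fun v _ hv h => ht ((tkT_fac hv).1 h.2.2)

theorem cp_nwT_ge {s r : ℕ} {w : Om} (ht : tkT P X u H M s r w) : u / 2 ≤ cp P X s (nwT P X u H M s r) w := by
  rw [cp_nwT, ind_of ht, one_mul]
  exact ht

theorem Pr_nwT_ge (s r : ℕ) : u / 2 * P.Pr (tkT P X u H M s r) ≤ P.Pr (nwT P X u H M s r) := by
  rw [← E_cp (X := X) s (nwT P X u H M s r)]
  unfold FP.Pr
  rw [← FP.E_smul]
  refine P.E_mono fun w _ => ?_
  by_cases ht : tkT P X u H M s r w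
  · rw [ind_of ht, mul_one]
    exact cp_nwT_ge ht
  · rw [ind_not ht, mul_zero]
    exact cp_nonneg _ _ _

/-- **expected number of takings** -/
theorem taken_leT (hu : 0 < u) (T : ℕ) : ∑ s ∈ range T, ∑ r ∈ range M, P.Pr (tkT P X u H M s r) ≤ 2 / u := by
  have h1 : ∀ T, ∑ s ∈ range T, ∑ r ∈ range M, P.Pr (nwT P X u H M s r) = P.Pr (covT P X u H M T) := by
    intro T
    induction T with
    | zero =>
      unfold FP.Pr covT
      simp [ind_not not_false, FP.E_const]
    | succ T ih =>
      rw [Finset.sum_range_succ, ih]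
      unfold FP.Pr
      rw [← FP.E_sum, ← FP.E_add]
      exact P.E_congr fun w _ => (ind_covT_succ T w).symm
  have h2 : u / 2 * ∑ s ∈ range T, ∑ r ∈ range M, P.Pr (tkT P X u H M s r) ≤ 1 := by
    rw [Finset.mul_sum]
    calc ∑ s ∈ range T, u / 2 * ∑ r ∈ range M, P.Pr (tkT P X u H M s r)
        ≤ ∑ s ∈ range T, ∑ r ∈ range M, P.Pr (nwT P X u H M s r) := by
          refine Finset.sum_le_sum fun s _ => ?_
          rw [Finset.mul_sum]
          exact Finset.sum_le_sum fun r _ => Pr_nwT_ge s r
      _ = P.Pr (covT P X u H M T) := h1 T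
      _ ≤ 1 := P.Pr_le_one _
  rw [le_div_iff₀ hu]
  linarith

/-- a point is covered once -/
theorem nwT_unique {s s' r r' : ℕ} (hr : r < M) (hr' : r' < M) {w : Om} (h : nwT P X u H M s r w)
    (h' : nwT P X u H M s' r' w) : s = s' ∧ r = r' := by
  have key : ∀ {s s' r r' : ℕ}, r < M → nwT P X u H M s r w → nwT P X u H M s' r' w → s ≤ s' →
      (s = s' → r ≤ r') → s = s' ∧ r = r' := by
    intro s s' r r' hr h h' hs h1
    rcases hs.lt_or_eq with h2 | h2
    · exact absurd (covT_CvT (r := r') (show s + 1 ≤ s' by omega) (nwT_cov hr h)) h'.2.1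
    · have h3 := h1 h2
      subst h2
      rcases h3.lt_or_eq with h4 | h4
      · exact absurd (CvT_le (show r + 1 ≤ r' by omega) (tkT_Cv h.2.2 h.1)) h'.2.1
      · exact ⟨rfl, h4⟩
  rcases lt_trichotomy s s' with hs | hs | hs
  · exact key hr h h' hs.le (fun h => absurd h (by omega))
  · rcases le_total r r' with h2 | h2
    · exact key hr h h' hs.le (fun _ => h2)
    · have := key hr' h' h hs.ge (fun _ => h2)
      exact ⟨this.1.symm, this.2.symm⟩
  · have := key hr' h' h hs.le (fun h => absurd h (by omega))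
    exact ⟨this.1.symm, this.2.symm⟩

/-! ## weights -/

variable (P X u H M) in
/-- mean of the weight of the row `r` on the part covered by the taking `(s, r)`, at the time `t` -/
def aT (v : ℕ → ℕ → Om → ℝ) (s r t : ℕ) (w : Om) : ℝ :=
  P.ce (X t) (fun z => ind (nwT P X u H M s r z) * v t r z) w

variable (P X u H M) in
/-- the potential -/
def PhiT (lam : ℝ) (v : ℕ → ℕ → Om → ℝ) (t : ℕ) (w : Om) : ℝ :=
  ∑ s ∈ range (t + 1), ∑ r ∈ range M, max (aT P X u H M v s r t w - lam * u / 4) 0

theorem PhiT_nonneg (lam : ℝ) (v : ℕ → ℕ → Om → ℝ) (t : ℕ) (w : Om) : 0 ≤ PhiT P X u H M lam v t w :=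
  Finset.sum_nonneg fun _ _ => Finset.sum_nonneg fun _ _ => le_max_right _ _

/-- the weights are at least `lam` on the rows and do not decrease in the mean -/
structure WT (P : FP Om) (X : ∀ t, Om → κ t) (u : ℝ) (H : ℕ → ℕ → Om → Prop) (M : ℕ) (lam : ℝ)
    (v : ℕ → ℕ → Om → ℝ) : Prop where
  lam0 : 0 ≤ lam
  nn : ∀ t r w, 0 ≤ v t r w
  ge : ∀ s r w, P.p w ≠ 0 → H s r w → lam ≤ v s r w
  sub : ∀ s r t w, s ≤ t → P.p w ≠ 0 → P.ce (X t) (fun z => ind (nwT P X u H M s r z) * v t r z) w ≤
    P.ce (X t) (fun z => ind (nwT P X u H M s r z) * v (t + 1) r z) w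

variable {lam : ℝ} {v : ℕ → ℕ → Om → ℝ}

theorem aT_nonneg (hW : WT P X u H M lam v) (s r t : ℕ) (w : Om) : 0 ≤ aT P X u H M v s r t w :=
  P.ce_nonneg (fun z _ => mul_nonneg (ind_nonneg _) (hW.nn t r z)) w

/-- at the time of the taking -/
theorem aT_start (hu : 0 < u) (hW : WT P X u H M lam v) (s r : ℕ) (w : Om) :
    lam * cp P X s (nwT P X u H M s r) w / 2 ≤ max (aT P X u H M v s r s w - lam * u / 4) 0 := by
  have h1 : lam * cp P X s (nwT P X u H M s r) w ≤ aT P X u H M v s r s w := by
    unfold cp aT
    rw [← P.ce_smul]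
    refine P.ce_mono (fun z hz => ?_) w
    by_cases h : nwT P X u H M s r z
    · rw [ind_of h, mul_one, one_mul]
      exact hW.ge s r z hz h.1
    · rw [ind_not h, mul_zero, zero_mul]
  by_cases ht : tkT P X u H M s r w
  · have h2 := mul_le_mul_of_nonneg_left (cp_nwT_ge ht) hW.lam0
    refine le_trans ?_ (le_max_left _ _)
    linarith
  · have h2 : cp P X s (nwT P X u H M s r) w = 0 := by rw [cp_nwT, ind_not ht, zero_mul]
    rw [h2, mul_zero, zero_div]
    exact le_max_right _ _

/-- the halving step -/
theorem aT_jensen (hX : Filt X) (hW : WT P X u H M lam v) {s r t : ℕ} (hst : s ≤ t) (c : ℝ) {h : Om → ℝ}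
    (hh : Fac (X t) h) (h0 : ∀ w, 0 ≤ h w) :
    P.E (fun w => h w * max (aT P X u H M v s r t w - c) 0) ≤
      P.E (fun w => h w * max (aT P X u H M v s r (t + 1) w - c) 0) := by
  rw [← P.E_mul_ce hh (fun w => max (aT P X u H M v s r (t + 1) w - c) 0)]
  refine P.E_mono fun w hw => mul_le_mul_of_nonneg_left ?_ (h0 w)
  refine max_le ?_ (P.ce_nonneg (fun _ _ => le_max_right _ _) w)
  have h2 : aT P X u H M v s r t w ≤ P.ce (X t) (aT P X u H M v s r (t + 1)) w := by
    unfold aT
    rw [P.ce_tower (hX t)]
    exact hW.sub s r t w hst hw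
  have h3 : P.ce (X t) (fun z => aT P X u H M v s r (t + 1) z - c) w =
      P.ce (X t) (aT P X u H M v s r (t + 1)) w - c := by rw [P.ce_sub, P.ce_const _ _ hw]
  calc aT P X u H M v s r t w - c ≤ P.ce (X t) (fun z => aT P X u H M v s r (t + 1) z - c) w := by
        rw [h3]; linarith
    _ ≤ _ := P.ce_mono (fun _ _ => le_max_left _ _) w

theorem E_sum_nwT {s : ℕ} {h : Om → ℝ} (hh : Fac (X s) h) :
    P.E (fun w => h w * ∑ r ∈ range M, ind (nwT P X u H M s r w)) =
      P.E (fun w => h w * ∑ r ∈ range M, cp P X s (nwT P X u H M s r) w) := by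
  have e : (fun w => ∑ r ∈ range M, cp P X s (nwT P X u H M s r) w) =
      P.ce (X s) (fun w => ∑ r ∈ range M, ind (nwT P X u H M s r w)) := by
    funext w
    rw [P.ce_sum]
    rfl
  have := P.E_mul_ce hh (fun w => ∑ r ∈ range M, ind (nwT P X u H M s r w))
  rw [← this]
  refine P.E_congr fun w _ => ?_
  rw [← e]

/-- **the probability of being covered is paid by the potential** -/
theorem cov_leT (hX : Filt X) (hu : 0 < u) (hW : WT P X u H M lam v) {σ : Om → ℕ} (hσ : Stp X σ) :
    lam * P.Pr (fun w => covT P X u H M (σ w + 1) w) ≤ 2 * P.E (fun w => PhiT P X u H M lam v (σ w) w) := by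
  have key : ∀ n, lam * P.E (fun w => ind (covT P X u H M (min (σ w) n + 1) w)) ≤
      2 * P.E (fun w => PhiT P X u H M lam v (min (σ w) n) w) := by
    intro n
    induction n with
    | zero =>
      have e1 : P.E (fun w => ind (covT P X u H M (min (σ w) 0 + 1) w)) =
          P.E (fun w => 1 * ∑ r ∈ range M, ind (nwT P X u H M 0 r w)) := by
        refine P.E_congr fun w _ => ?_
        rw [Nat.min_zero, ind_covT_succ]
        have : ind (covT P X u H M 0 w) = 0 := ind_not (fun h => h)
        rw [this, zero_add, one_mul]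
      rw [e1, E_sum_nwT (Fac.const _ _), ← FP.E_smul, ← FP.E_smul]
      refine P.E_mono fun w _ => ?_
      rw [Nat.min_zero]
      unfold PhiT
      rw [Finset.sum_range_one, one_mul, Finset.mul_sum, Finset.mul_sum]
      refine Finset.sum_le_sum fun r _ => ?_
      have := aT_start hu hW 0 r w
      linarith
    | succ n ih =>
      set h : Om → ℝ := fun w => ind (n < σ w) with hh
      have hf : Fac (X n) h := by
        refine Fac.ind fun v w hvw => ?_
        have := hσ n v w hvw
        omega
      have hf' : Fac (X (n + 1)) h := (hX n).trans hf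
      have e1 : P.E (fun w => ind (covT P X u H M (min (σ w) (n + 1) + 1) w)) =
          P.E (fun w => ind (covT P X u H M (min (σ w) n + 1) w)) +
            P.E (fun w => h w * ∑ r ∈ range M, ind (nwT P X u H M (n + 1) r w)) := by
        rw [← FP.E_add]
        refine P.E_congr fun w _ => ?_
        by_cases hw : n < σ w
        · rw [hh]
          simp only
          rw [ind_of hw, one_mul, min_eq_right (by omega), min_eq_right hw.le, ind_covT_succ (n + 1)]
        · rw [hh]
          simp only
          rw [ind_not hw, zero_mul, add_zero, min_eq_left (by omega), min_eq_left (by omega)]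
      have e2 : P.E (fun w => PhiT P X u H M lam v (min (σ w) (n + 1)) w) =
          P.E (fun w => PhiT P X u H M lam v (min (σ w) n) w) +
            (P.E (fun w => h w * PhiT P X u H M lam v (n + 1) w) - P.E (fun w => h w * PhiT P X u H M lam v n w)) := by
        rw [← FP.E_sub, ← FP.E_add]
        refine P.E_congr fun w _ => ?_
        by_cases hw : n < σ w
        · rw [hh]
          simp only
          rw [ind_of hw, min_eq_right (by omega), min_eq_right hw.le]
          ring
        · rw [hh]
          simp only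
          rw [ind_not hw, min_eq_left (by omega), min_eq_left (by omega)]
          ring
      -- the old part does not decrease
      have h3 : P.E (fun w => h w * PhiT P X u H M lam v n w) ≤ P.E (fun w => h w *
          ∑ s ∈ range (n + 1), ∑ r ∈ range M, max (aT P X u H M v s r (n + 1) w - lam * u / 4) 0) := by
        have e3 : ∀ t, P.E (fun w => h w * ∑ s ∈ range (n + 1), ∑ r ∈ range M,
            max (aT P X u H M v s r t w - lam * u / 4) 0) = ∑ s ∈ range (n + 1), ∑ r ∈ range M,
            P.E (fun w => h w * max (aT P X u H M v s r t w - lam * u / 4) 0) := by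
          intro t
          rw [← Finset.sum_congr rfl fun s _ => P.E_sum (range M) _, ← P.E_sum]
          refine P.E_congr fun w _ => ?_
          rw [Finset.mul_sum]
          exact Finset.sum_congr rfl fun s _ => Finset.mul_sum _ _ _
        show P.E (fun w => h w * ∑ s ∈ range (n + 1), ∑ r ∈ range M,
            max (aT P X u H M v s r n w - lam * u / 4) 0) ≤ _
        rw [e3, e3]
        refine Finset.sum_le_sum fun s hs => Finset.sum_le_sum fun r _ => ?_
        exact aT_jensen hX hW (Nat.lt_succ_iff.1 (mem_range.1 hs)) _ hf (fun w => ind_nonneg _)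
      -- the new part
      have h4 : P.E (fun w => h w *
          ∑ s ∈ range (n + 1), ∑ r ∈ range M, max (aT P X u H M v s r (n + 1) w - lam * u / 4) 0) +
          lam / 2 * P.E (fun w => h w * ∑ r ∈ range M, cp P X (n + 1) (nwT P X u H M (n + 1) r) w) ≤
          P.E (fun w => h w * PhiT P X u H M lam v (n + 1) w) := by
        rw [← FP.E_smul, ← FP.E_add]
        refine P.E_mono fun w _ => ?_
        unfold PhiT
        rw [Finset.sum_range_succ (n := n + 1)]
        have h5 : lam / 2 * ∑ r ∈ range M, cp P X (n + 1) (nwT P X u H M (n + 1) r) w ≤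
            ∑ r ∈ range M, max (aT P X u H M v (n + 1) r (n + 1) w - lam * u / 4) 0 := by
          rw [Finset.mul_sum]
          refine Finset.sum_le_sum fun r _ => ?_
          have := aT_start hu hW (n + 1) r w
          linarith
        have h6 := mul_le_mul_of_nonneg_left h5 (ind_nonneg (n < σ w))
        show ind (n < σ w) * _ + lam / 2 * (ind (n < σ w) * _) ≤ ind (n < σ w) * _
        linarith
      have h5 := E_sum_nwT (P := P) (u := u) (H := H) (M := M) hf'
      rw [e1, e2, h5, mul_add]
      linarith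
  obtain ⟨n, hn⟩ : ∃ n, ∀ w, σ w ≤ n := ⟨∑ w, σ w, fun w => Finset.single_le_sum (fun _ _ => Nat.zero_le _) (mem_univ w)⟩
  have h1 := key n
  have e : ∀ w, min (σ w) n = σ w := fun w => min_eq_left (hn w)
  simp only [e] at h1
  exact h1

end

end Pool.Agent.GMH.Gdy
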