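import Pool.Agent.GMH.GdyT
import Pool.Agent.GMH.GdyB

/-!
# GMH/GdyT2 (helper63): time dependent rows: witness set, weights from conditional means, bad rows (note 3934)

* `ITs` = takings which carry the potential, `kpT` = their weight: `PhiT ≤ kpT`, `|ITs| lam u / 4 ≤ kpT ≤ V`;
* `WT.of_ce` : weights `v t r = (E [ψ r | G t])^+`, `G` a finer filtration which sees the rows;
* `bad_leT` : a fresh time dependent row is bad with probability `≤ 2 / (u (M+1))`.
-/

set_option autoImplicit false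
set_option linter.unusedSectionVars false

namespace Pool.Agent.GMH.Gdy

open Finset Pool.Agent.PWZ Pool.Agent.M3

noncomputable section

variable {Om : Type*} [Fintype Om] {P : FP Om} {κ : ℕ → Type*} {X : ∀ t, Om → κ t} {u : ℝ}
  {H : ℕ → ℕ → Om → Prop} {M : ℕ} {lam : ℝ} {v : ℕ → ℕ → Om → ℝ}

/-! ## the witness set -/

variable (P X u H M lam v) in
open Classical in
/-- the takings which carry the potential -/
def ITs (t : ℕ) (w : Om) : Finset (ℕ × ℕ) :=
  ((range (t + 1)) ×ˢ (range M)).filter fun p => lam * u / 4 < aT P X u H M v p.1 p.2 t w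

variable (P X u H M lam v) in
/-- their weight -/
def kpT (t : ℕ) (w : Om) : ℝ := ∑ p ∈ ITs P X u H M lam v t w, aT P X u H M v p.1 p.2 t w

theorem mem_ITs {t : ℕ} {w : Om} {p : ℕ × ℕ} : p ∈ ITs P X u H M lam v t w ↔
    (p.1 ≤ t ∧ p.2 < M) ∧ lam * u / 4 < aT P X u H M v p.1 p.2 t w := by
  unfold ITs
  rw [mem_filter, mem_product, mem_range, mem_range, Nat.lt_succ_iff]

theorem PhiT_le_kpT (hu : 0 < u) (hl : 0 ≤ lam) (hv : ∀ t r w, 0 ≤ v t r w) (t : ℕ) (w : Om) :
    PhiT P X u H M lam v t w ≤ kpT P X u H M lam v t w := by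
  classical
  unfold PhiT kpT ITs
  rw [Finset.sum_filter, Finset.sum_product]
  refine Finset.sum_le_sum fun s _ => Finset.sum_le_sum fun r _ => ?_
  have h0 : 0 ≤ lam * u / 4 := by positivity
  have h1 : 0 ≤ aT P X u H M v s r t w := P.ce_nonneg (fun z _ => mul_nonneg (ind_nonneg _) (hv t r z)) w
  split_ifs with h
  · exact max_le (by linarith) h1
  · exact max_le (by linarith [not_lt.1 h]) le_rfl

theorem card_le_kpT (t : ℕ) (w : Om) : (ITs P X u H M lam v t w).card * (lam * u / 4) ≤ kpT P X u H M lam v t w := by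
  unfold kpT
  rw [← nsmul_eq_mul, ← Finset.sum_const]
  exact Finset.sum_le_sum fun r hr => (mem_ITs.1 hr).2.le

theorem ITs_nonempty {t : ℕ} {w : Om} (h : 0 < PhiT P X u H M lam v t w) : (ITs P X u H M lam v t w).Nonempty := by
  by_contra hcon
  rw [Finset.not_nonempty_iff_eq_empty] at hcon
  have h1 : PhiT P X u H M lam v t w = 0 := by
    unfold PhiT
    refine Finset.sum_eq_zero fun s hs => Finset.sum_eq_zero fun r hr => ?_
    refine max_eq_right ?_
    by_contra h2
    have : (s, r) ∈ ITs P X u H M lam v t w :=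
      mem_ITs.2 ⟨⟨Nat.lt_succ_iff.1 (mem_range.1 hs), mem_range.1 hr⟩, by linarith [not_le.1 h2]⟩
    rw [hcon] at this
    exact absurd this (notMem_empty _)
  linarith

/-- the weight of the witness set as one conditional mean: every point is covered by at most one taking -/
theorem kpT_eq (t : ℕ) (w : Om) : kpT P X u H M lam v t w =
    P.ce (X t) (fun z => ∑ p ∈ ITs P X u H M lam v t w, ind (nwT P X u H M p.1 p.2 z) * v t p.2 z) w := by
  unfold kpT aT
  rw [P.ce_sum]

/-- a bound of the weights bounds the witness set -/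
theorem kpT_le {V : ℝ} (hv : ∀ t r w, 0 ≤ v t r w) (hV : ∀ t r w, v t r w ≤ V) (t : ℕ) {w : Om} (hw : P.p w ≠ 0) :
    kpT P X u H M lam v t w ≤ V := by
  rw [kpT_eq]
  refine P.ce_le_const (fun z _ => ?_) hw
  by_cases h : ∃ p ∈ ITs P X u H M lam v t w, nwT P X u H M p.1 p.2 z
  · obtain ⟨p, hp, h1⟩ := h
    rw [Finset.sum_eq_single p, ind_of h1, one_mul]
    · exact hV _ _ _
    · intro p' hp' hne
      rw [ind_not, zero_mul]
      intro h2
      have h3 := nwT_unique (mem_ITs.1 hp').1.2 (mem_ITs.1 hp).1.2 h2 h1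
      exact hne (Prod.ext h3.1 h3.2)
    · intro h2
      exact absurd hp h2
  · rw [Finset.sum_eq_zero fun p hp => by rw [ind_not fun h1 => h ⟨p, hp, h1⟩, zero_mul]]
    exact (hv 0 0 z).trans (hV 0 0 z)

/-! ## weights from conditional means -/

section ce

variable {κ' : ℕ → Type*} {G : ∀ t, Om → κ' t}

theorem CvT_fac (hG : Filt G) (hGX : ∀ t, Fac (G t) (X t)) (hH : ∀ s r v w, G s v = G s w → (H s r v ↔ H s r w))
    (s : ℕ) : ∀ r v w, G s v = G s w → (CvT P X u H M s r v ↔ CvT P X u H M s r w) := by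
  have one : ∀ s, (∀ v w, G s v = G s w → (covT P X u H M s v ↔ covT P X u H M s w)) →
      ∀ r v w, G s v = G s w → (CvT P X u H M s r v ↔ CvT P X u H M s r w) := by
    intro s h0 r
    induction r with
    | zero => exact h0
    | succ r ih =>
      intro v w hvw
      have e1 : ∀ v, CvT P X u H M s (r + 1) v ↔ (CvT P X u H M s r v ∨ (H s r v ∧ tkT P X u H M s r v)) :=
        fun v => Iff.rfl
      rw [e1, e1, ih v w hvw, hH s r v w hvw, tkT_fac (hGX s v w hvw)]
  induction s with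
  | zero => exact one 0 (fun _ _ _ => Iff.rfl)
  | succ s ih => exact one (s + 1) (fun v w hvw => ih M v w (hG s v w hvw))

theorem nwT_fac (hG : Filt G) (hGX : ∀ t, Fac (G t) (X t)) (hH : ∀ s r v w, G s v = G s w → (H s r v ↔ H s r w))
    (s r : ℕ) (v w : Om) (h : G s v = G s w) : nwT P X u H M s r v ↔ nwT P X u H M s r w := by
  unfold nwT
  rw [hH s r v w h, CvT_fac hG hGX hH s r v w h, tkT_fac (hGX s v w h)]

variable (P G) in
/-- positive part of the conditional mean of `ψ r` -/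
def vce (ψ : ℕ → Om → ℝ) (t r : ℕ) (w : Om) : ℝ := max (P.ce (G t) (ψ r) w) 0

/-- the submartingale property of the positive part -/
theorem vce_sub (hG : Filt G) (hGX : ∀ t, Fac (G t) (X t)) (ψ : ℕ → Om → ℝ) {N : Om → Prop} {t r : ℕ}
    (hN : ∀ v w, G t v = G t w → (N v ↔ N w)) (w : Om) :
    P.ce (X t) (fun z => ind (N z) * vce P G ψ t r z) w ≤
      P.ce (X t) (fun z => ind (N z) * vce P G ψ (t + 1) r z) w := by
  have h1 : P.ce (X t) (fun z => ind (N z) * vce P G ψ (t + 1) r z) w =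
      P.ce (X t) (P.ce (G t) (fun z => ind (N z) * vce P G ψ (t + 1) r z)) w := (P.ce_tower (hGX t) _ w).symm
  rw [h1]
  refine P.ce_mono (fun z hz => ?_) w
  rw [P.ce_mul (Fac.ind (s := N) fun v w h => by rw [propext (hN v w h)])]
  refine mul_le_mul_of_nonneg_left ?_ (ind_nonneg _)
  refine max_le ?_ (P.ce_nonneg (fun _ _ => le_max_right _ _) z)
  rw [← P.ce_tower (hG t) (ψ r) z]
  exact P.ce_mono (fun _ _ => le_max_left _ _) z

/-- weights from conditional means -/
theorem WT.of_ce (hG : Filt G) (hGX : ∀ t, Fac (G t) (X t)) (hH : ∀ s r v w, G s v = G s w → (H s r v ↔ H s r w))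
    (hl : 0 ≤ lam) (ψ : ℕ → Om → ℝ) (hge : ∀ s r w, P.p w ≠ 0 → H s r w → lam ≤ P.ce (G s) (ψ r) w) :
    WT P X u H M lam (vce P G ψ) where
  lam0 := hl
  nn t r w := le_max_right _ _
  ge s r w hw h := (hge s r w hw h).trans (le_max_left _ _)
  sub s r t w hst _ := vce_sub hG hGX ψ (fun v w h => nwT_fac hG hGX hH s r v w (hG.le hst v w h)) w

end ce

/-! ## bad rows -/

variable (P X u) in
/-- the row `A` is dense outside the covered set at a time `< T` -/
def badT (H : ℕ → ℕ → Om → Prop) (M : ℕ) (A : ℕ → Om → Prop) (T : ℕ) (w : Om) : Prop :=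
  ∃ s < T, u / 2 ≤ cp P X s (fun v => A s v ∧ ¬ covT P X u H M (s + 1) v) w

/-- a row which is never taken can be left out -/
theorem skipT {H H' : ℕ → ℕ → Om → Prop} {M j : ℕ} (hX : Filt X) (hj : j ≤ M) (h1 : ∀ s, ∀ r < j, H' s r = H s r)
    (h2 : ∀ s r, j ≤ r → H' s r = H s (r + 1)) {w : Om} (s : ℕ) (ht : ∀ s' ≤ s, ¬ tkT P X u H (M + 1) s' j w) :
    ∀ v, X s v = X s w → (covT P X u H' M (s + 1) v ↔ covT P X u H (M + 1) (s + 1) v) := by
  have one : ∀ s, (∀ v, X s v = X s w → (covT P X u H' M s v ↔ covT P X u H (M + 1) s v)) →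
      ¬ tkT P X u H (M + 1) s j w →
      ∀ v, X s v = X s w → (covT P X u H' M (s + 1) v ↔ covT P X u H (M + 1) (s + 1) v) := by
    intro s h0 hts
    have tk_eq : ∀ {C C' A A' : Om → Prop}, (∀ v, X s v = X s w → (C v ↔ C' v)) → A = A' → ∀ v, X s v = X s w →
        (tk1 P X u s C A v ↔ tk1 P X u s C' A' v) := by
      intro C C' A A' hC hA v hv
      subst hA
      unfold tk1
      rw [cp_congr_on (A := fun v => A v ∧ ¬ C v) (B := fun v => A v ∧ ¬ C' v)]
      intro v' _ hv'
      rw [hC v' (hv'.trans hv)]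
    have p1 : ∀ r ≤ j, ∀ v, X s v = X s w → (CvT P X u H' M s r v ↔ CvT P X u H (M + 1) s r v) := by
      intro r
      induction r with
      | zero => intro _ v hv; exact h0 v hv
      | succ r ih =>
        intro hr v hv
        have i1 := ih (by omega)
        have e1 : CvT P X u H' M s (r + 1) v ↔
            (CvT P X u H' M s r v ∨ (H' s r v ∧ tk1 P X u s (CvT P X u H' M s r) (H' s r) v)) := Iff.rfl
        have e2 : CvT P X u H (M + 1) s (r + 1) v ↔
            (CvT P X u H (M + 1) s r v ∨ (H s r v ∧ tk1 P X u s (CvT P X u H (M + 1) s r) (H s r) v)) := Iff.rfl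
        rw [e1, e2, i1 v hv, tk_eq i1 (h1 s r (by omega)) v hv, h1 s r (by omega)]
    have p2 : ∀ r, j ≤ r → ∀ v, X s v = X s w → (CvT P X u H' M s r v ↔ CvT P X u H (M + 1) s (r + 1) v) := by
      intro r hr
      induction r, hr using Nat.le_induction with
      | base =>
        intro v hv
        have e2 : CvT P X u H (M + 1) s (j + 1) v ↔
            (CvT P X u H (M + 1) s j v ∨ (H s j v ∧ tkT P X u H (M + 1) s j v)) := Iff.rfl
        have h3 : ¬ tkT P X u H (M + 1) s j v := fun h => hts ((tkT_fac hv).1 h)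
        rw [e2, p1 j le_rfl v hv]
        tauto
      | succ r hr ih =>
        intro v hv
        have e1 : CvT P X u H' M s (r + 1) v ↔
            (CvT P X u H' M s r v ∨ (H' s r v ∧ tk1 P X u s (CvT P X u H' M s r) (H' s r) v)) := Iff.rfl
        have e2 : CvT P X u H (M + 1) s (r + 1 + 1) v ↔ (CvT P X u H (M + 1) s (r + 1) v ∨
            (H s (r + 1) v ∧ tk1 P X u s (CvT P X u H (M + 1) s (r + 1)) (H s (r + 1)) v)) := Iff.rfl
        rw [e1, e2, ih v hv, tk_eq ih (h2 s r hr) v hv, h2 s r hr]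
    intro v hv
    exact p2 M hj v hv
  induction s with
  | zero => exact one 0 (fun _ _ => Iff.rfl) (ht 0 le_rfl)
  | succ s ih =>
    refine one (s + 1) (fun v hv => ?_) (ht (s + 1) le_rfl)
    exact ih (fun s' hs' => ht s' (by omega)) v (hX s v w hv)

/-- a row which is bad for the cover of the others is taken in the cover of all -/
theorem badT_tk {H H' : ℕ → ℕ → Om → Prop} {M j : ℕ} (hX : Filt X) (hu : 0 < u) (hj : j ≤ M)
    (h1 : ∀ s, ∀ r < j, H' s r = H s r) (h2 : ∀ s r, j ≤ r → H' s r = H s (r + 1)) {T : ℕ} {w : Om}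
    (hb : badT P X u H' M (fun s => H s j) T w) : ∃ s < T, tkT P X u H (M + 1) s j w := by
  by_contra hcon
  push Not at hcon
  obtain ⟨s, hs, h3⟩ := hb
  have h4 := skipT (P := P) (u := u) hX hj h1 h2 s (fun s' hs' => hcon s' (by omega)) (w := w)
  have h5 := cp_ltT (P := P) (X := X) (H := H) (M := M + 1) hu (s := s) (r := j) (by omega) w
  rw [cp_congr_on (B := fun v => H s j v ∧ ¬ covT P X u H (M + 1) (s + 1) v)] at h3
  · linarith
  · intro v _ hv
    rw [h4 v hv]

/-- the rows of a sample -/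
def rowsT {R : Type*} (row : R → ℕ → Om → Prop) {n : ℕ} (x : Fin n → R) (s r : ℕ) (v : Om) : Prop :=
  ∃ h : r < n, row (x ⟨r, h⟩) s v

theorem rowsT_eq {R : Type*} (row : R → ℕ → Om → Prop) {n : ℕ} (x : Fin n → R) (s : ℕ) :
    rowsT row x s = rows (fun a => row a s) x := rfl

/-- **bad rows** -/
theorem bad_leT {R : Type*} [Fintype R] (hX : Filt X) (hu : 0 < u) {q : R → ℝ} (hq : ∀ a, 0 ≤ q a)
    (hq1 : ∑ a, q a = 1) (row : R → ℕ → Om → Prop) (M T : ℕ) :
    ∑ x : Fin M → R, sw q x * ∑ a, q a * P.Pr (badT P X u (rowsT row x) M (row a) T) ≤ 2 / (u * (M + 1)) := by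
  have h1 : ∀ j : Fin (M + 1), ∑ x : Fin M → R, sw q x * ∑ a, q a * P.Pr (badT P X u (rowsT row x) M (row a) T) ≤
      ∑ z : Fin (M + 1) → R, sw q z * ∑ s ∈ range T, P.Pr (tkT P X u (rowsT row z) (M + 1) s j) := by
    intro j
    rw [← sw_split q j (fun a x => P.Pr (badT P X u (rowsT row x) M (row a) T))]
    refine Finset.sum_le_sum fun z _ => mul_le_mul_of_nonneg_left ?_ (sw_nonneg hq z)
    refine (P.Pr_mono fun w _ hw => ?_).trans (P.Pr_ex_le (range T) _)
    have e : (fun s => rowsT row z s j) = row (z j) := funext fun s => rows_lt (fun a => row a s) z j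
    rw [← e] at hw
    obtain ⟨s, hs, h3⟩ := badT_tk hX hu (by have := j.2; omega) (fun s => (rows_skip (fun a => row a s) z j).1)
      (fun s => (rows_skip (fun a => row a s) z j).2) hw
    exact ⟨s, mem_range.2 hs, h3⟩
  have h2 : ∑ j : Fin (M + 1), ∑ z : Fin (M + 1) → R, sw q z * ∑ s ∈ range T,
      P.Pr (tkT P X u (rowsT row z) (M + 1) s j) ≤ 2 / u := by
    rw [Finset.sum_comm]
    have h3 : ∀ z : Fin (M + 1) → R, ∑ j : Fin (M + 1), sw q z * ∑ s ∈ range T,
        P.Pr (tkT P X u (rowsT row z) (M + 1) s j) ≤ sw q z * (2 / u) := by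
      intro z
      rw [← Finset.mul_sum, Finset.sum_comm]
      refine mul_le_mul_of_nonneg_left ?_ (sw_nonneg hq z)
      refine le_trans (le_of_eq ?_) (taken_leT (P := P) (X := X) (H := rowsT row z) (M := M + 1) hu T)
      refine Finset.sum_congr rfl fun s _ => ?_
      exact Fin.sum_univ_eq_sum_range (fun r => P.Pr (tkT P X u (rowsT row z) (M + 1) s r)) (M + 1)
    refine (Finset.sum_le_sum fun z _ => h3 z).trans ?_
    rw [← Finset.sum_mul, sw_sum hq1, one_mul]
  have h4 : ((M : ℝ) + 1) * ∑ x : Fin M → R, sw q x * ∑ a, q a * P.Pr (badT P X u (rowsT row x) M (row a) T) ≤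
      2 / u := by
    refine le_trans (le_of_eq ?_) ((Finset.sum_le_sum fun j _ => h1 j).trans h2)
    rw [Finset.sum_const, Finset.card_univ, Fintype.card_fin, nsmul_eq_mul]
    push_cast
    rfl
  rw [le_div_iff₀ hu] at h4
  rw [le_div_iff₀ (mul_pos hu (by positivity))]
  linarith

end

end Pool.Agent.GMH.Gdy
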