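import Pool.Agent.GMH.GdyB
import Pool.Agent.M3.Indep

/-!
# GMH/GdyV (helper63): the cover of one vertex against the others (notes 3454 (2), (3), 3554 (2))

`U` (the vertex) and `V` (all other vertices) are independent, `cU s`, `cV s` their cells, `pair cU cV s` = the node.
`R : α → ω → Prop` = the static relation; `row a w := R a (V w)`.  The cover process of the rows is run with the cells of
`V` only, so the covered set is a function of the sample and of `V`.

* `cov_pair`, `Phi_pair` : the process does not change if it is run with the nodes;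
* `covV_le` : `P (V covered at σ) ≤ 2 E Phi σ` for every stopping time of the nodes;
* `badV_le` : the true row is bad with probability `≤ 2 / (u (M+1))` in the mean over the sample;
* `node_le` : in a node, `P (H, V not covered | node) ≤ u/2 + P (bad | node)`; `rest_le` the form with weights at a
  stopping time; `new_le` the weighted form at the PREVIOUS covered set.
-/

set_option autoImplicit false
set_option linter.unusedSectionVars false

namespace Pool.Agent.GMH.Gdy

open Finset Pool.Agent.PWZ Pool.Agent.M3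

noncomputable section

variable {Om : Type*} [Fintype Om] {P : FP Om}

/-- the node -/
def pair {κ κ' : ℕ → Type*} (cU : ∀ t, Om → κ t) (cV : ∀ t, Om → κ' t) (s : ℕ) (w : Om) : κ s × κ' s := (cU s w, cV s w)

theorem pair_filt {κ κ' : ℕ → Type*} {cU : ∀ t, Om → κ t} {cV : ∀ t, Om → κ' t} (h1 : Filt cU) (h2 : Filt cV) :
    Filt (pair cU cV) := fun t v w h => by
  have h3 : cU (t + 1) v = cU (t + 1) w ∧ cV (t + 1) v = cV (t + 1) w := Prod.mk.injEq _ _ _ _ ▸ h
  show (cU t v, cV t v) = (cU t w, cV t w)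
  rw [h1 t v w h3.1, h2 t v w h3.2]

theorem pair_eq {κ κ' : ℕ → Type*} {cU : ∀ t, Om → κ t} {cV : ∀ t, Om → κ' t} {s : ℕ} {v w : Om} :
    pair cU cV s v = pair cU cV s w ↔ cU s v = cU s w ∧ cV s v = cV s w := Prod.mk.injEq _ _ _ _ ▸ Iff.rfl

/-! ## change of the filtration -/

section change

variable {κ κ' : ℕ → Type*} {X : ∀ t, Om → κ t} {Y : ∀ t, Om → κ' t} {ω : Type*} {V : Om → ω} {u : ℝ}
  {H : ℕ → Om → Prop} {M : ℕ}

/-- the covered sets are functions of `V` -/
theorem Cv_fac (hY : ∀ s, Fac V (Y s)) (hH : ∀ r v w, V v = V w → (H r v ↔ H r w)) (s : ℕ) :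
    ∀ r v w, V v = V w → (Cv P Y u H M s r v ↔ Cv P Y u H M s r w) := by
  have one : ∀ s, (∀ v w, V v = V w → (cov P Y u H M s v ↔ cov P Y u H M s w)) →
      ∀ r v w, V v = V w → (Cv P Y u H M s r v ↔ Cv P Y u H M s r w) := by
    intro s h0 r
    induction r with
    | zero => exact h0
    | succ r ih =>
      intro v w hvw
      have e1 : ∀ v, Cv P Y u H M s (r + 1) v ↔ (Cv P Y u H M s r v ∨ (H r v ∧ tk P Y u H M s r v)) := fun v => Iff.rfl
      rw [e1, e1, ih v w hvw, hH r v w hvw, tk_fac (hY s v w hvw)]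
  induction s with
  | zero => exact one 0 (fun _ _ _ => Iff.rfl)
  | succ s ih => exact one (s + 1) (fun v w hvw => ih M v w hvw)

theorem cov_fac (hY : ∀ s, Fac V (Y s)) (hH : ∀ r v w, V v = V w → (H r v ↔ H r w)) (s : ℕ) (v w : Om)
    (h : V v = V w) : cov P Y u H M s v ↔ cov P Y u H M s w := Cv_fac hY hH s 0 v w h

variable (hc : ∀ s (A : Om → Prop), (∀ v w, V v = V w → (A v ↔ A w)) → ∀ w, P.p w ≠ 0 → cp P X s A w = cp P Y s A w)
include hc

/-- two filtrations with the same conditional probabilities of the events of `V` -/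
theorem Cv_change (hY : ∀ s, Fac V (Y s)) (hH : ∀ r v w, V v = V w → (H r v ↔ H r w)) (s : ℕ) :
    ∀ r w, P.p w ≠ 0 → (Cv P X u H M s r w ↔ Cv P Y u H M s r w) := by
  have tkc : ∀ s (C C' A : Om → Prop), (∀ w, P.p w ≠ 0 → (C w ↔ C' w)) →
      (∀ v w, V v = V w → (C' v ↔ C' w)) → (∀ v w, V v = V w → (A v ↔ A w)) → ∀ w, P.p w ≠ 0 →
      (tk1 P X u s C A w ↔ tk1 P Y u s C' A w) := by
    intro s C C' A h1 h2 h3 w hw
    unfold tk1
    rw [cp_congr_on (A := fun v => A v ∧ ¬ C v) (B := fun v => A v ∧ ¬ C' v), hc s _ _ w hw]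
    · intro v w' h
      rw [h2 v w' h, h3 v w' h]
    · intro v hv _
      rw [h1 v hv]
  have one : ∀ s, (∀ w, P.p w ≠ 0 → (cov P X u H M s w ↔ cov P Y u H M s w)) →
      ∀ r w, P.p w ≠ 0 → (Cv P X u H M s r w ↔ Cv P Y u H M s r w) := by
    intro s h0 r
    induction r with
    | zero => exact h0
    | succ r ih =>
      intro w hw
      have e1 : Cv P X u H M s (r + 1) w ↔
        (Cv P X u H M s r w ∨ (H r w ∧ tk1 P X u s (Cv P X u H M s r) (H r) w)) := Iff.rfl
      have e2 : Cv P Y u H M s (r + 1) w ↔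
        (Cv P Y u H M s r w ∨ (H r w ∧ tk1 P Y u s (Cv P Y u H M s r) (H r) w)) := Iff.rfl
      rw [e1, e2, ih w hw, tkc s _ _ _ ih (Cv_fac hY hH s r) (hH r) w hw]
  induction s with
  | zero => exact one 0 (fun _ _ => Iff.rfl)
  | succ s ih => exact one (s + 1) (fun w hw => ih M w hw)

theorem cov_change (hY : ∀ s, Fac V (Y s)) (hH : ∀ r v w, V v = V w → (H r v ↔ H r w)) (s : ℕ) (w : Om)
    (hw : P.p w ≠ 0) : cov P X u H M s w ↔ cov P Y u H M s w := Cv_change hc hY hH s 0 w hw

theorem nw_fac (hY : ∀ s, Fac V (Y s)) (hH : ∀ r v w, V v = V w → (H r v ↔ H r w)) (s r : ℕ) (v w : Om)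
    (h : V v = V w) : nw P Y u H M s r v ↔ nw P Y u H M s r w := by
  unfold nw
  rw [hH r v w h, Cv_fac hY hH s r v w h, tk_fac (hY s v w h)]

theorem nw_change (hY : ∀ s, Fac V (Y s)) (hH : ∀ r v w, V v = V w → (H r v ↔ H r w)) (s r : ℕ) (w : Om)
    (hw : P.p w ≠ 0) : nw P X u H M s r w ↔ nw P Y u H M s r w := by
  have h1 := Cv_change (u := u) (M := M) hc hY hH s r
  have h2 := Cv_fac (P := P) (u := u) (M := M) hY hH s r
  unfold nw
  rw [h1 w hw]
  have h3 : tk P X u H M s r w ↔ tk P Y u H M s r w := by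
    unfold tk tk1
    rw [cp_congr_on (A := fun v => H r v ∧ ¬ Cv P X u H M s r v) (B := fun v => H r v ∧ ¬ Cv P Y u H M s r v),
      hc s _ _ w hw]
    · intro v w' h
      rw [h2 v w' h, hH r v w' h]
    · intro v hv _
      rw [h1 v hv]
  rw [h3]

theorem Nn_change (hY : ∀ s, Fac V (Y s)) (hH : ∀ r v w, V v = V w → (H r v ↔ H r w)) (r s : ℕ) (w : Om)
    (hw : P.p w ≠ 0) : Nn P X u H M r s w ↔ Nn P Y u H M r s w := by
  induction s with
  | zero => exact Iff.rfl
  | succ s ih =>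
    show (Nn P X u H M r s w ∨ nw P X u H M s r w) ↔ (Nn P Y u H M r s w ∨ nw P Y u H M s r w)
    rw [ih, nw_change hc hY hH s r w hw]

theorem Nn_fac (hY : ∀ s, Fac V (Y s)) (hH : ∀ r v w, V v = V w → (H r v ↔ H r w)) (r s : ℕ) (v w : Om)
    (h : V v = V w) : Nn P Y u H M r s v ↔ Nn P Y u H M r s w := by
  induction s with
  | zero => exact Iff.rfl
  | succ s ih =>
    show (Nn P Y u H M r s v ∨ nw P Y u H M s r v) ↔ (Nn P Y u H M r s w ∨ nw P Y u H M s r w)
    rw [ih, nw_fac hc hY hH s r v w h]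

theorem Phi_change (hY : ∀ s, Fac V (Y s)) (hH : ∀ r v w, V v = V w → (H r v ↔ H r w)) (s : ℕ) (w : Om)
    (hw : P.p w ≠ 0) : Phi P X u H M s w = Phi P Y u H M s w := by
  unfold Phi
  refine Finset.sum_congr rfl fun r _ => ?_
  rw [cp_congr_on (A := Nn P X u H M r (s + 1)) (B := Nn P Y u H M r (s + 1))
    (fun v hv _ => Nn_change hc hY hH r (s + 1) v hv), hc s _ (Nn_fac hc hY hH r (s + 1)) w hw]

end change

/-! ## one vertex against the others -/

section vertex

variable {κ κ' : ℕ → Type*} {cU : ∀ t, Om → κ t} {cV : ∀ t, Om → κ' t} {α ω : Type*} {U : Om → α} {V : Om → ω}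

/-- forgetting the cell of `U` -/
theorem ce_pair (hI : P.Indep U V) (hU : ∀ s, Fac U (cU s)) (hV : ∀ s, Fac V (cV s)) (s : ℕ) {f : Om → ℝ}
    (hf : Fac V f) {w : Om} (hw : P.p w ≠ 0) : P.ce (pair cU cV s) f w = P.ce (cV s) f w := by
  have h1 := P.ce_indep_eq hI.symm (ζ := cV s) (φ := fun _ => ()) (ψ := cU s) (hV s) (hU s) (Fac.const _ _)
    (f := f) ((Fac.fst V (fun _ : Om => ())).trans hf) hw
  rw [P.ce_congr_map (Y := fun v => (cV s v, cU s v)) (fun v w h => by
      have := pair_eq.1 h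
      show (cV s v, cU s v) = (cV s w, cU s w)
      rw [this.1, this.2]) (fun v w h => by
      have h3 : cV s v = cV s w ∧ cU s v = cU s w := Prod.mk.injEq _ _ _ _ ▸ h
      exact pair_eq.2 ⟨h3.2, h3.1⟩), h1]
  exact P.ce_congr_map (fun v w h => (Prod.mk.injEq _ _ _ _ ▸ h : _ ∧ _).1) (fun v w h => by
    show (cV s v, ()) = (cV s w, ())
    rw [h]) f w

theorem cp_pair (hI : P.Indep U V) (hU : ∀ s, Fac U (cU s)) (hV : ∀ s, Fac V (cV s)) (s : ℕ) (A : Om → Prop)
    (hA : ∀ v w, V v = V w → (A v ↔ A w)) (w : Om) (hw : P.p w ≠ 0) : cp P (pair cU cV) s A w = cp P cV s A w :=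
  ce_pair hI hU hV s (Fac.ind hA) hw

/-- freezing `U` -/
theorem ce_freeze (hI : P.Indep U V) (hU : ∀ s, Fac U (cU s)) (hV : ∀ s, Fac V (cV s)) (s : ℕ) (F : α → ω → ℝ)
    {w : Om} (hw : P.p w ≠ 0) :
    P.ce (fun v => (pair cU cV s v, U v)) (fun v => F (U v) (V v)) w = P.ce (cV s) (fun v => F (U w) (V v)) w := by
  have h1 := P.ce_indep hI.symm (ζ := cV s) (φ := U) (ψ := U) (hV s) (Fac.refl _) (Fac.refl _)
    (fun y x => F x y) hw
  rw [P.ce_congr_map (Y := fun v => (cV s v, U v)) (fun v w h => by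
      have h3 : pair cU cV s v = pair cU cV s w ∧ U v = U w := Prod.mk.injEq _ _ _ _ ▸ h
      show (cV s v, U v) = (cV s w, U w)
      rw [(pair_eq.1 h3.1).2, h3.2]) (fun v w h => by
      have h3 : cV s v = cV s w ∧ U v = U w := Prod.mk.injEq _ _ _ _ ▸ h
      show (pair cU cV s v, U v) = (pair cU cV s w, U w)
      rw [pair_eq.2 ⟨hU s v w h3.2, h3.1⟩, h3.2]), h1]
  rfl

variable (R : α → ω → Prop) (V) in
/-- the row of the point `a` -/
def row (a : α) (w : Om) : Prop := R a (V w)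

theorem row_fac {R : α → ω → Prop} (a : α) (v w : Om) (h : V v = V w) : row V R a v ↔ row V R a w := by
  unfold row
  rw [h]

theorem rows_fac {R : α → ω → Prop} {n : ℕ} (x : Fin n → α) (r : ℕ) (v w : Om) (h : V v = V w) :
    rows (row V R) x r v ↔ rows (row V R) x r w := by
  unfold rows
  exact exists_congr fun _ => row_fac _ v w h

variable {R : α → ω → Prop} {u : ℝ} {H : ℕ → Om → Prop} {M : ℕ}

/-- **being covered is paid by the potential**, stopping times of the nodes -/
theorem covV_le (hI : P.Indep U V) (hU : ∀ s, Fac U (cU s)) (hV : ∀ s, Fac V (cV s)) (fU : Filt cU) (fV : Filt cV)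
    (hH : ∀ r v w, V v = V w → (H r v ↔ H r w)) (hu : 0 < u) {σ : Om → ℕ} (hσ : Stp (pair cU cV) σ) :
    P.Pr (fun w => cov P cV u H M (σ w + 1) w) ≤ 2 * P.E (fun w => Phi P cV u H M (σ w) w) := by
  have h1 := cov_le (P := P) (u := u) (H := H) (M := M) (pair_filt fU fV) hu hσ
  rw [P.E_congr (g := fun w => Phi P cV u H M (σ w) w) (fun w hw =>
    Phi_change (cp_pair hI hU hV) hV hH (σ w) w hw)] at h1
  rw [P.Pr_congr (t := fun w => cov P cV u H M (σ w + 1) w) (fun w hw =>
    cov_change (cp_pair hI hU hV) hV hH (σ w + 1) w hw)] at h1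
  exact h1

variable (P cV U V R u) in
/-- the true row is bad for the cover of the rows `H` -/
def badV (H : ℕ → Om → Prop) (M T : ℕ) (w : Om) : Prop := bad P cV u H M (row V R (U w)) T w

theorem bad_fac (hV : ∀ s, Fac V (cV s)) (A : Om → Prop) (T : ℕ) (v w : Om) (h : V v = V w) :
    bad P cV u H M A T v ↔ bad P cV u H M A T w := by
  unfold bad
  refine exists_congr fun s => and_congr_right fun _ => ?_
  rw [cp_fac s _ v w (hV s v w h)]

/-- **bad rows**: the true row is bad with small probability, in the mean over the sample of `M` copies of `U` -/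
theorem badV_le [Fintype α] (hI : P.Indep U V) (hV : ∀ s, Fac V (cV s)) (fV : Filt cV) (hu : 0 < u) (M T : ℕ) :
    ∑ x : Fin M → α, sw (fun a => P.Pr (fun w => U w = a)) x *
      P.Pr (badV P cV U V R u (rows (row V R) x) M T) ≤ 2 / (u * (M + 1)) := by
  classical
  have hq1 : ∑ a, P.Pr (fun w => U w = a) = 1 := by
    unfold FP.Pr
    rw [← FP.E_sum]
    have : ∀ w, ∑ a, ind (U w = a) = (1 : ℝ) := by
      intro w
      rw [Finset.sum_eq_single (U w) (fun b _ hb => ind_not (fun h => hb h.symm)) (fun h => absurd (mem_univ _) h),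
        ind_of rfl]
    simp only [this]
    exact P.E_const 1
  refine le_trans (le_of_eq ?_) (bad_le (P := P) fV hu (fun a => P.Pr_nonneg _) hq1 (row V R) M T)
  refine Finset.sum_congr rfl fun x _ => ?_
  congr 1
  have h1 : ∀ a, P.Pr (fun w => U w = a) * P.Pr (bad P cV u (rows (row V R) x) M (row V R a) T) =
      P.E (fun w => ind (U w = a) * ind (bad P cV u (rows (row V R) x) M (row V R a) T w)) := by
    intro a
    exact (hI _ _ (Fac.ind fun v w h => by rw [h]) (Fac.ind fun v w h => bad_fac hV _ _ v w h)).symm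
  rw [Finset.sum_congr rfl fun a _ => h1 a, ← FP.E_sum]
  refine P.E_congr fun w _ => ?_
  rw [Finset.sum_eq_single (U w)]
  · rw [ind_of rfl, one_mul]
    rfl
  · intro b _ hb
    rw [ind_not (fun h => hb h.symm), zero_mul]
  · intro h
    exact absurd (mem_univ _) h

/-- the conditional probability of the uncovered part of the relation, given the node and `U` -/
theorem ce_unc (hI : P.Indep U V) (hU : ∀ s, Fac U (cU s)) (hV : ∀ s, Fac V (cV s))
    (hH : ∀ r v w, V v = V w → (H r v ↔ H r w)) (s t : ℕ) {w : Om} (hw : P.p w ≠ 0) :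
    P.ce (fun v => (pair cU cV s v, U v)) (fun v => ind (R (U v) (V v) ∧ ¬ cov P cV u H M t v)) w =
      cp P cV s (fun v => row V R (U w) v ∧ ¬ cov P cV u H M t v) w := by
  classical
  have hc := cov_fac (P := P) (u := u) (M := M) hV hH t
  set F : α → ω → ℝ := fun a y => ind (R a y ∧ ¬ ∃ v, V v = y ∧ cov P cV u H M t v) with hF
  have hex : ∀ v, (∃ v', V v' = V v ∧ cov P cV u H M t v') ↔ cov P cV u H M t v :=
    fun v => ⟨fun ⟨v', h1, h2⟩ => (hc v' v h1).1 h2, fun h => ⟨v, rfl, h⟩⟩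
  have e1 : (fun v => ind (R (U v) (V v) ∧ ¬ cov P cV u H M t v)) = fun v => F (U v) (V v) := by
    funext v
    rw [hF]
    simp only [hex v]
  rw [e1, ce_freeze hI hU hV s F hw]
  unfold cp row
  congr 1
  funext v
  rw [hF]
  simp only [hex v]

/-- **in a node the uncovered part of the relation has density at most `u/2`, up to bad rows** -/
theorem node_le (hI : P.Indep U V) (hU : ∀ s, Fac U (cU s)) (hV : ∀ s, Fac V (cV s))
    (hH : ∀ r v w, V v = V w → (H r v ↔ H r w)) (hu : 0 < u) {s T : ℕ} (hs : s < T) {w : Om} (hw : P.p w ≠ 0) :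
    P.ce (pair cU cV s) (fun v => ind (R (U v) (V v) ∧ ¬ cov P cV u H M (s + 1) v)) w ≤
      u / 2 + P.ce (pair cU cV s) (fun v => ind (badV P cV U V R u H M T v)) w := by
  have hfac : Fac (fun v => (pair cU cV s v, U v)) (pair cU cV s) := Fac.fst _ _
  rw [← P.ce_tower hfac, ← P.ce_const (pair cU cV s) (u / 2) hw, ← P.ce_add]
  refine P.ce_mono (fun v hv => ?_) w
  rw [ce_unc hI hU hV hH s (s + 1) hv]
  by_cases hb : badV P cV U V R u H M T v
  · rw [ind_of hb]
    have : cp P cV s (fun v' => row V R (U v) v' ∧ ¬ cov P cV u H M (s + 1) v') v ≤ 1 :=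
      P.ce_le_const (fun _ _ => ind_le_one _) hv
    linarith
  · rw [ind_not hb, add_zero]
    by_contra hcon
    exact hb ⟨s, hs, (not_le.1 hcon).le⟩

/-- the mass of a cell of `V` shrinks by a bounded factor -/
theorem cp_ratio {Y : ∀ t, Om → κ' t} {h : ℝ} {s t : ℕ} (hf : Fac (Y t) (Y s)) {w : Om} (hw : P.p w ≠ 0)
    (hm : P.m (Y s) w ≤ h * P.m (Y t) w) (A : Om → Prop) : cp P Y t A w ≤ h * cp P Y s A w := by
  unfold cp FP.ce
  have h1 := P.m_pos (Y t) hw
  have h2 := P.m_pos (Y s) hw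
  have h3 : P.E (fun v => ind (Y t v = Y t w) * ind (A v)) ≤ P.E (fun v => ind (Y s v = Y s w) * ind (A v)) :=
    P.E_mono fun v _ => mul_le_mul_of_nonneg_right (ind_mono (hf v w)) (ind_nonneg _)
  have h4 : 0 ≤ P.E (fun v => ind (Y s v = Y s w) * ind (A v)) :=
    P.E_nonneg fun v _ => mul_nonneg (ind_nonneg _) (ind_nonneg _)
  rw [div_le_iff₀ h1]
  calc P.E (fun v => ind (Y t v = Y t w) * ind (A v)) ≤ P.E (fun v => ind (Y s v = Y s w) * ind (A v)) := h3
    _ = P.E (fun v => ind (Y s v = Y s w) * ind (A v)) / P.m (Y s) w * P.m (Y s) w := by field_simp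
    _ ≤ P.E (fun v => ind (Y s v = Y s w) * ind (A v)) / P.m (Y s) w * (h * P.m (Y t) w) :=
        mul_le_mul_of_nonneg_left hm (div_nonneg h4 h2.le)
    _ = _ := by ring

end vertex

end

end Pool.Agent.GMH.Gdy
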