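import Pool.Agent.GMH.GdyT2
import Pool.Agent.GMH.GdyV

/-!
# GMH/GdyVT (helper63): time dependent rows, one vertex `U` against the others `V` (as in GMH/GdyV)

* `covT_pair` : the cover run with the cells of `V` and the cover run with the nodes agree on the support;
* `cov_leV` : `lam P(V covered at σ) ≤ 2 E PhiT(σ)`, `σ` a stopping time of the nodes;
* `ce_frz`, `ce_frz_real` : freezing of `U`;
* `badT_le` : the true row is bad with probability `≤ 2 / (u (M+1))` in the mean over the sample.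
-/

set_option autoImplicit false
set_option linter.unusedSectionVars false

namespace Pool.Agent.GMH.Gdy

open Finset Pool.Agent.PWZ Pool.Agent.M3

noncomputable section

variable {Om : Type*} [Fintype Om] {P : FP Om}

section change

variable {κ κ' : ℕ → Type*} {X : ∀ t, Om → κ t} {Y : ∀ t, Om → κ' t} {ω : Type*} {V : Om → ω} {u : ℝ}
  {H : ℕ → ℕ → Om → Prop} {M : ℕ}

/-- the covered sets are functions of `V` -/
theorem CvT_facV (hY : ∀ s, Fac V (Y s)) (hH : ∀ s r v w, V v = V w → (H s r v ↔ H s r w)) (s : ℕ) :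
    ∀ r v w, V v = V w → (CvT P Y u H M s r v ↔ CvT P Y u H M s r w) := by
  have one : ∀ s, (∀ v w, V v = V w → (covT P Y u H M s v ↔ covT P Y u H M s w)) →
      ∀ r v w, V v = V w → (CvT P Y u H M s r v ↔ CvT P Y u H M s r w) := by
    intro s h0 r
    induction r with
    | zero => exact h0
    | succ r ih =>
      intro v w hvw
      have e1 : ∀ v, CvT P Y u H M s (r + 1) v ↔ (CvT P Y u H M s r v ∨ (H s r v ∧ tkT P Y u H M s r v)) :=
        fun v => Iff.rfl
      rw [e1, e1, ih v w hvw, hH s r v w hvw, tkT_fac (hY s v w hvw)]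
  induction s with
  | zero => exact one 0 (fun _ _ _ => Iff.rfl)
  | succ s ih => exact one (s + 1) (fun v w hvw => ih M v w hvw)

theorem covT_facV (hY : ∀ s, Fac V (Y s)) (hH : ∀ s r v w, V v = V w → (H s r v ↔ H s r w)) (s : ℕ) (v w : Om)
    (h : V v = V w) : covT P Y u H M s v ↔ covT P Y u H M s w := CvT_facV hY hH s 0 v w h

variable (hc : ∀ s (A : Om → Prop), (∀ v w, V v = V w → (A v ↔ A w)) → ∀ w, P.p w ≠ 0 → cp P X s A w = cp P Y s A w)
include hc

/-- two filtrations with the same conditional probabilities of the events of `V` -/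
theorem CvT_change (hY : ∀ s, Fac V (Y s)) (hH : ∀ s r v w, V v = V w → (H s r v ↔ H s r w)) (s : ℕ) :
    ∀ r w, P.p w ≠ 0 → (CvT P X u H M s r w ↔ CvT P Y u H M s r w) := by
  have tkc : ∀ s (C C' A : Om → Prop), (∀ w, P.p w ≠ 0 → (C w ↔ C' w)) →
      (∀ v w, V v = V w → (C' v ↔ C' w)) → (∀ v w, V v = V w → (A v ↔ A w)) → ∀ w, P.p w ≠ 0 →
      (tk1 P X u s C A w ↔ tk1 P Y u s C' A w) := by
    intro s C C' A h1 h2 h3 w hw
    unfold tk1
    rw [cp_congr_on (A := fun v => A v ∧ ¬ C v) (B := fun v => A v ∧ ¬ C' v), hc s _ _ w hw]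
    · intro v w' h
      rw [h2 v w' h, h3 v w' h]
    · intro v hv _
      rw [h1 v hv]
  have one : ∀ s, (∀ w, P.p w ≠ 0 → (covT P X u H M s w ↔ covT P Y u H M s w)) →
      ∀ r w, P.p w ≠ 0 → (CvT P X u H M s r w ↔ CvT P Y u H M s r w) := by
    intro s h0 r
    induction r with
    | zero => exact h0
    | succ r ih =>
      intro w hw
      have e1 : CvT P X u H M s (r + 1) w ↔
        (CvT P X u H M s r w ∨ (H s r w ∧ tk1 P X u s (CvT P X u H M s r) (H s r) w)) := Iff.rfl
      have e2 : CvT P Y u H M s (r + 1) w ↔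
        (CvT P Y u H M s r w ∨ (H s r w ∧ tk1 P Y u s (CvT P Y u H M s r) (H s r) w)) := Iff.rfl
      rw [e1, e2, ih w hw, tkc s _ _ _ ih (CvT_facV hY hH s r) (hH s r) w hw]
  induction s with
  | zero => exact one 0 (fun _ _ => Iff.rfl)
  | succ s ih => exact one (s + 1) (fun w hw => ih M w hw)

theorem covT_change (hY : ∀ s, Fac V (Y s)) (hH : ∀ s r v w, V v = V w → (H s r v ↔ H s r w)) (s : ℕ) (w : Om)
    (hw : P.p w ≠ 0) : covT P X u H M s w ↔ covT P Y u H M s w := CvT_change hc hY hH s 0 w hw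

end change

section vertex

variable {κ κ' : ℕ → Type*} {cU : ∀ t, Om → κ t} {cV : ∀ t, Om → κ' t} {α ω : Type*} {U : Om → α} {V : Om → ω}
  {u lam : ℝ} {H : ℕ → ℕ → Om → Prop} {M : ℕ}

/-- the cover with the cells of `V` and the cover with nodes (any finer filtration `X` which sees `V` only through the
cells of `V`) -/
theorem covT_node {κ'' : ℕ → Type*} {X : ∀ t, Om → κ'' t}
    (hXc : ∀ s (f : Om → ℝ), Fac V f → ∀ w, P.p w ≠ 0 → P.ce (X s) f w = P.ce (cV s) f w) (hV : ∀ s, Fac V (cV s))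
    (hH : ∀ s r v w, V v = V w → (H s r v ↔ H s r w)) (s : ℕ) (w : Om) (hw : P.p w ≠ 0) :
    covT P X u H M s w ↔ covT P cV u H M s w :=
  covT_change (fun s A hA w hw => hXc s _ (Fac.ind hA) w hw) hV hH s w hw

/-- **being covered is paid by the potential** -/
theorem cov_leV {κ'' : ℕ → Type*} {X : ∀ t, Om → κ'' t} (hX : Filt X)
    (hXc : ∀ s (f : Om → ℝ), Fac V f → ∀ w, P.p w ≠ 0 → P.ce (X s) f w = P.ce (cV s) f w) (hV : ∀ s, Fac V (cV s))
    (hH : ∀ s r v w, V v = V w → (H s r v ↔ H s r w)) (hu : 0 < u) {v : ℕ → ℕ → Om → ℝ} (hW : WT P X u H M lam v)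
    {σ : Om → ℕ} (hσ : Stp X σ) :
    lam * P.Pr (fun w => covT P cV u H M (σ w + 1) w) ≤ 2 * P.E (fun w => PhiT P X u H M lam v (σ w) w) := by
  have h1 := cov_leT hX hu hW hσ
  rw [P.Pr_congr (t := fun w => covT P cV u H M (σ w + 1) w) (fun w hw =>
    covT_node hXc hV hH (σ w + 1) w hw)] at h1
  exact h1

/-- freezing of `U` in a real function -/
theorem ce_frz_real (hI : P.Indep U V) (hU : ∀ s, Fac U (cU s)) (hV : ∀ s, Fac V (cV s)) (s : ℕ) (f : α → Om → ℝ)
    (hf : ∀ a, Fac V (f a)) {w : Om} (hw : P.p w ≠ 0) :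
    P.ce (fun v => (pair cU cV s v, U v)) (fun v => f (U v) v) w = P.ce (cV s) (f (U w)) w := by
  classical
  set F : α → ω → ℝ := fun a y => if h : ∃ v, V v = y then f a h.choose else 0 with hF
  have hFv : ∀ a v, F a (V v) = f a v := by
    intro a v
    have h : ∃ v', V v' = V v := ⟨v, rfl⟩
    rw [hF]
    simp only [dif_pos h]
    exact hf a _ _ h.choose_spec
  have e1 : (fun v => f (U v) v) = fun v => F (U v) (V v) := funext fun v => (hFv _ _).symm
  rw [e1, ce_freeze hI hU hV s F hw]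
  congr 1
  funext v
  exact hFv _ _

/-- freezing of `U` in an event -/
theorem ce_frz (hI : P.Indep U V) (hU : ∀ s, Fac U (cU s)) (hV : ∀ s, Fac V (cV s)) (s : ℕ) (E : α → Om → Prop)
    (hE : ∀ a v w, V v = V w → (E a v ↔ E a w)) {w : Om} (hw : P.p w ≠ 0) :
    P.ce (fun v => (pair cU cV s v, U v)) (fun v => ind (E (U v) v)) w = cp P cV s (E (U w)) w :=
  ce_frz_real hI hU hV s (fun a v => ind (E a v)) (fun a => Fac.ind (hE a)) hw

/-- an event of the pair `(U, V)`: sum over the values of `U` -/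
theorem Pr_frz [Fintype α] (hI : P.Indep U V) (E : α → Om → Prop) (hE : ∀ a v w, V v = V w → (E a v ↔ E a w)) :
    P.Pr (fun w => E (U w) w) = ∑ a, P.Pr (fun w => U w = a) * P.Pr (E a) := by
  classical
  have h1 : ∀ a, P.Pr (fun w => U w = a) * P.Pr (E a) = P.E (fun w => ind (U w = a) * ind (E a w)) := by
    intro a
    exact (hI _ _ (Fac.ind fun v w h => by rw [h]) (Fac.ind fun v w h => hE a v w h)).symm
  rw [Finset.sum_congr rfl fun a _ => h1 a, ← FP.E_sum]
  refine P.E_congr fun w _ => ?_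
  rw [Finset.sum_eq_single (U w)]
  · rw [ind_of rfl, one_mul]
  · intro b _ hb
    rw [ind_not (fun h => hb h.symm), zero_mul]
  · intro h
    exact absurd (mem_univ _) h

theorem sum_Pr_eq [Fintype α] (U : Om → α) : ∑ a, P.Pr (fun w => U w = a) = 1 := by
  classical
  unfold FP.Pr
  rw [← FP.E_sum]
  have : ∀ w, ∑ a, ind (U w = a) = (1 : ℝ) := by
    intro w
    rw [Finset.sum_eq_single (U w) (fun b _ hb => ind_not (fun h => hb h.symm)) (fun h => absurd (mem_univ _) h),
      ind_of rfl]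
  simp only [this]
  exact P.E_const 1

theorem badT_fac (hV : ∀ s, Fac V (cV s)) (A : ℕ → Om → Prop) (T : ℕ) (v w : Om) (h : V v = V w) :
    badT P cV u H M A T v ↔ badT P cV u H M A T w := by
  unfold badT
  refine exists_congr fun s => and_congr_right fun _ => ?_
  rw [cp_fac s _ v w (hV s v w h)]

/-- **bad rows**: the true row is bad with small probability, in the mean over the sample of `M` copies of `U` -/
theorem badT_le [Fintype α] (hI : P.Indep U V) (hV : ∀ s, Fac V (cV s)) (fV : Filt cV) (hu : 0 < u)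
    (row : α → ℕ → Om → Prop) (M T : ℕ) :
    ∑ x : Fin M → α, sw (fun a => P.Pr (fun w => U w = a)) x *
      P.Pr (fun w => badT P cV u (rowsT row x) M (row (U w)) T w) ≤ 2 / (u * (M + 1)) := by
  refine le_trans (le_of_eq ?_) (bad_leT (P := P) fV hu (fun a => P.Pr_nonneg _) (sum_Pr_eq U) row M T)
  refine Finset.sum_congr rfl fun x _ => ?_
  congr 1
  exact Pr_frz hI (fun a w => badT P cV u (rowsT row x) M (row a) T w) fun a v w h => badT_fac hV _ _ v w h

end vertex

end

end Pool.Agent.GMH.Gdy
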