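import Pool.Agent.GMH.Blk

/-!
# GMH/GhoV (helper85): VERTEX LEMMAS AT THE EXACT VERTEX (note 4001 (6))

`N s` = what is seen at the exact vertex (for example `(b, C_s, D_s)`), `Yc s`, `Yd s` = one more exact point; `CI` : given
`N s` the two sights are independent.  `f s` = one time (seen by `N s`, `f s` and `f s'` imply `s = s'`), `R` = relation.

* `cnt` : probabilities as sums over the times; `sum_le` : comparison of sums at one time;
* `both_le` (V1) : `P (f s, K s, K' s, R) ≤ √b (P (f s, K s) + P (f s, K' s))/2 + P (f s, R, b < cp (R))`;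
* `first_cp`, `both_first` : the same at the first time at which the density is at least `u`, `b = h u`;
* `light_end` (V2) : `E 1_R 1(density at σ < u) X Y ≤ √u (E X + E Y)/2`;
* `late_le`, `late_W` (V3) : `P (f s, U s, R) ≤ kap P (f s) + P (exceptional)`.
-/

set_option autoImplicit false
set_option linter.unusedSectionVars false

namespace Pool.Agent.GMH.GhoV

open Finset Pool.Agent.PWZ Pool.Agent.M3 Pool.Agent.GMH.Gdy Pool.Agent.GMH.CR Pool.Agent.GMH.Three Pool.Agent.GMH.Blk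

noncomputable section

variable {Om : Type*} [Fintype Om] {P : FP Om} {κ κ' κ'' : ℕ → Type*} {N : ∀ t, Om → κ t} {Yc : ∀ t, Om → κ' t}
  {Yd : ∀ t, Om → κ'' t} {R : Om → Prop} {f : ℕ → Om → Prop} {T : ℕ}

/-- the probability of an event at one time as a sum over the times -/
theorem cnt (h1 : ∀ w s s', f s w → f s' w → s = s') (hT : ∀ s w, f s w → s < T) (Q : ℕ → Om → Prop) :
    P.Pr (fun w => ∃ s, f s w ∧ Q s w) = ∑ s ∈ range T, P.E (fun w => ind (f s w) * ind (Q s w)) := by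
  rw [← FP.E_sum]
  unfold FP.Pr
  refine P.E_congr fun w _ => ?_
  have e2 := sum_ind' (A := fun s => f s w ∧ Q s w) (T := T) (fun s s' a b => h1 w s s' a.1 b.1)
    (fun s a => hT s w a.1)
  show ind (∃ s, f s w ∧ Q s w) = _
  rw [← e2]
  exact Finset.sum_congr rfl fun s _ => ind_and _ _

theorem cnt' (h1 : ∀ w s s', f s w → f s' w → s = s') (hT : ∀ s w, f s w → s < T) :
    P.Pr (fun w => ∃ s, f s w) = ∑ s ∈ range T, P.E (fun w => ind (f s w)) := by
  rw [← FP.E_sum]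
  unfold FP.Pr
  refine P.E_congr fun w _ => ?_
  exact (sum_ind' (A := fun s => f s w) (T := T) (h1 w) (fun s a => hT s w a)).symm

/-- the mean of a weight at one time as a sum over the times -/
theorem cntW (h1 : ∀ w s s', f s w → f s' w → s = s') (hT : ∀ s w, f s w → s < T) (Q : ℕ → Om → Prop) (W : Om → ℝ) :
    P.E (fun w => ind (∃ s, f s w ∧ Q s w) * W w) = ∑ s ∈ range T, P.E (fun w => ind (f s w) * (ind (Q s w) * W w)) := by
  rw [← FP.E_sum]
  refine P.E_congr fun w _ => ?_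
  have e2 := sum_ind' (A := fun s => f s w ∧ Q s w) (T := T) (fun s s' a b => h1 w s s' a.1 b.1)
    (fun s a => hT s w a.1)
  rw [← e2, Finset.sum_mul]
  exact Finset.sum_congr rfl fun s _ => by rw [ind_and]; ring

/-- comparison of two means at one time -/
theorem E_le_of_ce {s : ℕ} {g k : Om → ℝ} (hf : ∀ x w, N s x = N s w → (f s x ↔ f s w))
    (h : ∀ w, P.p w ≠ 0 → f s w → P.ce (N s) g w ≤ P.ce (N s) k w) :
    P.E (fun w => ind (f s w) * g w) ≤ P.E (fun w => ind (f s w) * k w) := by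
  have hF : Fac (N s) (fun w => ind (f s w)) := Fac.ind fun x w e => hf x w e
  rw [← P.E_mul_ce hF g, ← P.E_mul_ce hF k]
  refine P.E_mono fun w hw => ?_
  by_cases a : f s w
  · exact mul_le_mul_of_nonneg_left (h w hw a) (ind_nonneg _)
  · rw [ind_not a, zero_mul, zero_mul]

/-- **(V1) BOTH COVERED** -/
theorem both_le (hci : CI P N Yc Yd) (hf : ∀ s x w, N s x = N s w → (f s x ↔ f s w))
    (h1 : ∀ w s s', f s w → f s' w → s = s') (hT : ∀ s w, f s w → s < T) {K K' : ℕ → Om → Prop}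
    (hK : ∀ s x w, Yc s x = Yc s w → (K s x ↔ K s w)) (hK' : ∀ s x w, Yd s x = Yd s w → (K' s x ↔ K' s w)) {b : ℝ} :
    P.Pr (fun w => ∃ s, f s w ∧ K s w ∧ K' s w ∧ R w) ≤
      Real.sqrt b * ((P.Pr (fun w => ∃ s, f s w ∧ K s w) + P.Pr (fun w => ∃ s, f s w ∧ K' s w)) / 2) +
      P.Pr (fun w => ∃ s, f s w ∧ b < cp P N s R w ∧ R w) := by
  rw [cnt h1 hT (fun s w => K s w ∧ K' s w ∧ R w), cnt h1 hT K, cnt h1 hT K', cnt h1 hT (fun s w => b < cp P N s R w ∧ R w),
    ← Finset.sum_add_distrib, Finset.sum_div, Finset.mul_sum, ← Finset.sum_add_distrib]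
  refine Finset.sum_le_sum fun s _ => ?_
  have e1 : P.E (fun w => ind (f s w) * (Real.sqrt b * ((ind (K s w) + ind (K' s w)) / 2) +
      ind (b < cp P N s R w ∧ R w))) =
      Real.sqrt b * ((P.E (fun w => ind (f s w) * ind (K s w)) + P.E (fun w => ind (f s w) * ind (K' s w))) / 2) +
        P.E (fun w => ind (f s w) * ind (b < cp P N s R w ∧ R w)) := by
    rw [← FP.E_add, ← P.E_div_const, ← FP.E_smul, ← FP.E_add]
    exact P.E_congr fun w _ => by ring
  rw [← e1]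
  refine E_le_of_ce (hf s) fun w hw _ => ?_
  have c1 : P.ce (N s) (fun w => Real.sqrt b * ((ind (K s w) + ind (K' s w)) / 2) + ind (b < cp P N s R w ∧ R w)) w =
      Real.sqrt b * ((P.ce (N s) (fun w => ind (K s w)) w + P.ce (N s) (fun w => ind (K' s w)) w) / 2) +
        P.ce (N s) (fun w => ind (b < cp P N s R w ∧ R w)) w := by
    rw [P.ce_add (N s) (fun w => Real.sqrt b * ((ind (K s w) + ind (K' s w)) / 2))
      (fun w => ind (b < cp P N s R w ∧ R w)) w]
    have c2 : P.ce (N s) (fun w => Real.sqrt b * ((ind (K s w) + ind (K' s w)) / 2)) w =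
        Real.sqrt b / 2 * (P.ce (N s) (fun w => ind (K s w)) w + P.ce (N s) (fun w => ind (K' s w)) w) := by
      rw [← P.ce_add (N s) (fun w => ind (K s w)) (fun w => ind (K' s w)) w, ← P.ce_smul]
      exact P.ce_congr (fun x _ => by ring) w
    rw [c2]
    ring
  rw [c1]
  have n1 : 0 ≤ P.ce (N s) (fun w => ind (K s w)) w := P.ce_nonneg (fun _ _ => ind_nonneg _) w
  have n2 : 0 ≤ P.ce (N s) (fun w => ind (K' s w)) w := P.ce_nonneg (fun _ _ => ind_nonneg _) w
  have n3 : 0 ≤ P.ce (N s) (fun w => ind (b < cp P N s R w ∧ R w)) w := P.ce_nonneg (fun _ _ => ind_nonneg _) w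
  by_cases h3 : b < cp P N s R w
  · have h4 : P.ce (N s) (fun w => ind (K s w ∧ K' s w ∧ R w)) w ≤
        P.ce (N s) (fun w => ind (b < cp P N s R w ∧ R w)) w := by
      have h6 : P.ce (N s) (fun w => ind (K s w ∧ K' s w ∧ R w)) w =
          P.ce (N s) (fun w => ind (b < cp P N s R w ∧ K s w ∧ K' s w ∧ R w)) w :=
        ce_congr_on fun x _ hx => by
          rw [cp_fac s R x w hx]
          exact congrArg ind (propext ⟨fun a => ⟨h3, a⟩, fun a => a.2⟩)
      rw [h6]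
      exact P.ce_mono (fun x _ => ind_mono fun a => ⟨a.1, a.2.2.2⟩) w
    have h5 : 0 ≤ Real.sqrt b * ((P.ce (N s) (fun w => ind (K s w)) w + P.ce (N s) (fun w => ind (K' s w)) w) / 2) := by
      positivity
    linarith
  · have h6 := rect hci (s := s) (R := R) (f := fun x => ind (K s x)) (g := fun x => ind (K' s x))
      (Fac.ind fun x w e => hK s x w e) (Fac.ind fun x w e => hK' s x w e) (fun _ => ind_nonneg _)
      (fun _ => ind_le_one _) (fun _ => ind_nonneg _) (fun _ => ind_le_one _) hw (not_lt.1 h3)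
    have h7 : P.ce (N s) (fun w => ind (K s w ∧ K' s w ∧ R w)) w =
        P.ce (N s) (fun x => ind (R x) * (ind (K s x) * ind (K' s x))) w :=
      P.ce_congr (fun x _ => by rw [ind_and, ind_and]; ring) w
    rw [h7]
    linarith

/-- at the first time at which the density is at least `u` it is at most `h u`, except at the time `0` -/
theorem first_cp (fN : Filt N) {u h : ℝ} (h0 : 0 ≤ h) (hm : ∀ s w, P.p w ≠ 0 → P.m (N s) w ≤ h * P.m (N (s + 1)) w)
    {s : ℕ} {w : Om} (hw : P.p w ≠ 0) (hs : ∀ s' < s, cp P N s' R w < u) (hb : h * u < cp P N s R w) : s = 0 := by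
  rcases Nat.eq_zero_or_pos s with h1 | h1
  · exact h1
  · obtain ⟨s', rfl⟩ : ∃ s', s = s' + 1 := ⟨s - 1, by omega⟩
    have h4 := cp_ratio (P := P) (Y := N) (h := h) (s := s') (t := s' + 1) (fN s') hw (hm s' w hw) R
    have h5 := mul_le_mul_of_nonneg_left (hs s' (Nat.lt_succ_self s')).le h0
    exact absurd (h4.trans h5) (not_le.2 hb)

/-- **(V1) BOTH COVERED, AT A TIME BEFORE WHICH THE DENSITY WAS SMALL** -/
theorem both_first (hci : CI P N Yc Yd) (fN : Filt N) (hf : ∀ s x w, N s x = N s w → (f s x ↔ f s w))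
    (h1 : ∀ w s s', f s w → f s' w → s = s') (hT : ∀ s w, f s w → s < T) {K K' : ℕ → Om → Prop}
    (hK : ∀ s x w, Yc s x = Yc s w → (K s x ↔ K s w)) (hK' : ∀ s x w, Yd s x = Yd s w → (K' s x ↔ K' s w))
    {u h : ℝ} (h0 : 0 ≤ h) (hm : ∀ s w, P.p w ≠ 0 → P.m (N s) w ≤ h * P.m (N (s + 1)) w)
    (hbe : ∀ s w, f s w → ∀ s' < s, cp P N s' R w < u) :
    P.Pr (fun w => ∃ s, f s w ∧ K s w ∧ K' s w ∧ R w) ≤
      Real.sqrt (h * u) * ((P.Pr (fun w => ∃ s, f s w ∧ K s w) + P.Pr (fun w => ∃ s, f s w ∧ K' s w)) / 2) +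
      P.Pr (fun w => f 0 w ∧ h * u < cp P N 0 R w ∧ R w) := by
  refine (both_le hci hf h1 hT hK hK').trans (add_le_add le_rfl (P.Pr_mono fun w hw hh => ?_))
  obtain ⟨s, a, b, c⟩ := hh
  have h2 := first_cp fN h0 hm hw (hbe s w a) b
  subst h2
  exact ⟨a, b, c⟩

/-- **(V2) LIGHT AT THE END** -/
theorem light_end (hci : CI P N Yc Yd) (fN : Filt N) {σ : Om → ℕ} (hσ : Stp N σ) (hT : ∀ w, σ w < T)
    {X Y : ℕ → Om → ℝ} (hX : ∀ s, Fac (Yc s) (X s)) (hY : ∀ s, Fac (Yd s) (Y s)) (X0 : ∀ s w, 0 ≤ X s w)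
    (X1 : ∀ s w, X s w ≤ 1) (Y0 : ∀ s w, 0 ≤ Y s w) (Y1 : ∀ s w, Y s w ≤ 1) (u : ℝ) {W : Om → ℝ}
    (hW : ∀ w, W w ≤ X (σ w) w * Y (σ w) w) :
    P.E (fun w => ind (R w ∧ cp P N (σ w) R w < u) * W w) ≤
      Real.sqrt u * ((P.E (fun w => X (σ w) w) + P.E (fun w => Y (σ w) w)) / 2) :=
  (P.E_mono fun w _ => mul_le_mul_of_nonneg_left (hW w) (ind_nonneg _)).trans
    (before hci fN hσ hT hX hY X0 X1 Y0 Y1)

/-- **(V3) UNCOVERED LATE ROWS** -/
theorem late_le (hf : ∀ s x w, N s x = N s w → (f s x ↔ f s w))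
    (h1 : ∀ w s s', f s w → f s' w → s = s') (hT : ∀ s w, f s w → s < T) (U : ℕ → Om → Prop) {kap : ℝ}
    (k0 : 0 ≤ kap) : P.Pr (fun w => ∃ s, f s w ∧ U s w) ≤
      kap * P.Pr (fun w => ∃ s, f s w) + P.Pr (fun w => ∃ s, f s w ∧ kap < cp P N s (U s) w) := by
  rw [cnt h1 hT U, cnt' h1 hT, cnt h1 hT (fun s w => kap < cp P N s (U s) w), Finset.mul_sum, ← Finset.sum_add_distrib]
  refine Finset.sum_le_sum fun s _ => ?_
  have hF : Fac (N s) (fun w => ind (f s w)) := Fac.ind fun x w e => hf s x w e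
  rw [← P.E_mul_ce hF (fun w => ind (U s w)), ← FP.E_smul, ← FP.E_add]
  refine P.E_mono fun w hw => ?_
  have h2 : P.ce (N s) (fun w => ind (U s w)) w ≤ 1 := P.ce_le_const (fun _ _ => ind_le_one _) hw
  have h3 := ind_nonneg (f s w)
  by_cases h4 : kap < cp P N s (U s) w
  · rw [ind_of h4, mul_one]
    have h5 := mul_le_mul_of_nonneg_left h2 h3
    have h6 := mul_nonneg k0 h3
    linarith
  · rw [ind_not h4, mul_zero, add_zero]
    have h5 := mul_le_mul_of_nonneg_left (show P.ce (N s) (fun w => ind (U s w)) w ≤ kap from not_lt.1 h4) h3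
    linarith

/-- (V3) with an exceptional event -/
theorem late_le' (hf : ∀ s x w, N s x = N s w → (f s x ↔ f s w))
    (h1 : ∀ w s s', f s w → f s' w → s = s') (hT : ∀ s w, f s w → s < T) (U : ℕ → Om → Prop) {kap : ℝ}
    (k0 : 0 ≤ kap) {Nx : Om → Prop} (hN : ∀ s w, P.p w ≠ 0 → f s w → ¬ Nx w → cp P N s (U s) w ≤ kap) :
    P.Pr (fun w => ∃ s, f s w ∧ U s w) ≤ kap * P.Pr (fun w => ∃ s, f s w) + P.Pr Nx := by
  refine (late_le hf h1 hT U k0).trans (add_le_add le_rfl (P.Pr_mono fun w hw hh => ?_))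
  obtain ⟨s, a, b⟩ := hh
  by_contra h2
  exact absurd (hN s w hw a h2) (not_le.2 b)

/-- (V3) with a weight `W ≤ G s` at the time `s`, `G s` independent of `U s` given `N s` (other side) -/
theorem late_W (hci : CI P N Yc Yd) (hf : ∀ s x w, N s x = N s w → (f s x ↔ f s w))
    (h1 : ∀ w s s', f s w → f s' w → s = s') (hT : ∀ s w, f s w → s < T) {U : ℕ → Om → Prop}
    (hU : ∀ s x w, Yc s x = Yc s w → (U s x ↔ U s w)) {G : ℕ → Om → ℝ} (hG : ∀ s, Fac (Yd s) (G s))
    (G0 : ∀ s w, 0 ≤ G s w) (G1 : ∀ s w, G s w ≤ 1) {W : Om → ℝ} (hW : ∀ s w, f s w → W w ≤ G s w) {kap : ℝ}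
    (k0 : 0 ≤ kap) : P.E (fun w => ind (∃ s, f s w ∧ U s w) * W w) ≤
      kap * (∑ s ∈ range T, P.E (fun w => ind (f s w) * G s w)) +
        P.Pr (fun w => ∃ s, f s w ∧ kap < cp P N s (U s) w) := by
  rw [cntW h1 hT U W, cnt h1 hT (fun s w => kap < cp P N s (U s) w), Finset.mul_sum, ← Finset.sum_add_distrib]
  refine Finset.sum_le_sum fun s _ => ?_
  have hF : Fac (N s) (fun w => ind (f s w)) := Fac.ind fun x w e => hf s x w e
  have e1 : P.E (fun w => ind (f s w) * (ind (U s w) * W w)) ≤ P.E (fun w => ind (f s w) * (ind (U s w) * G s w)) := by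
    refine P.E_mono fun w _ => ?_
    by_cases a : f s w
    · exact mul_le_mul_of_nonneg_left (mul_le_mul_of_nonneg_left (hW s w a) (ind_nonneg _)) (ind_nonneg _)
    · rw [ind_not a, zero_mul, zero_mul]
  refine e1.trans ?_
  rw [← P.E_mul_ce hF (fun w => ind (U s w) * G s w), ← P.E_mul_ce hF (G s), ← FP.E_smul, ← FP.E_add]
  refine P.E_mono fun w hw => ?_
  have h3 := ind_nonneg (f s w)
  have g0 : 0 ≤ P.ce (N s) (G s) w := P.ce_nonneg (fun x _ => G0 s x) w
  have g1 : P.ce (N s) (G s) w ≤ 1 := P.ce_le_const (fun x _ => G1 s x) hw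
  have u0 : 0 ≤ P.ce (N s) (fun w => ind (U s w)) w := P.ce_nonneg (fun _ _ => ind_nonneg _) w
  have u1 : P.ce (N s) (fun w => ind (U s w)) w ≤ 1 := P.ce_le_const (fun _ _ => ind_le_one _) hw
  rw [hci s (fun x => ind (U s x)) (G s) (Fac.ind fun x w e => hU s x w e) (hG s) w hw]
  by_cases h4 : kap < cp P N s (U s) w
  · rw [ind_of h4, mul_one]
    have h5 : P.ce (N s) (fun w => ind (U s w)) w * P.ce (N s) (G s) w ≤ 1 := mul_le_one₀ u1 g0 g1
    have h6 := mul_le_mul_of_nonneg_left h5 h3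
    have h7 := mul_nonneg k0 (mul_nonneg h3 g0)
    linarith
  · rw [ind_not h4, mul_zero, add_zero]
    have h5 : P.ce (N s) (fun w => ind (U s w)) w * P.ce (N s) (G s) w ≤ kap * P.ce (N s) (G s) w :=
      mul_le_mul_of_nonneg_right (not_lt.1 h4) g0
    have h6 := mul_le_mul_of_nonneg_left h5 h3
    linarith

end

end Pool.Agent.GMH.GhoV
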