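import Pool.Agent.GMH.GhoT
import Pool.Agent.GMH.GhoV

/-!
# GMH/GhoZ (helper85): THE PUBLIC NODE DECISION `T^0` OF NOTE 4001 (6), fixed `a`

Sights as in `GMH/GhoT` : `nd s` = node, `N s` = exact `b` and the cells of `c`, `d`; `Yc s` = exact `(b, c)`, cell of `d`;
`Yd s` = exact `(b, d)`, cell of `c`; `Vc s` = exact `c` and the cells of `b`, `d`, `Vd s` mirror.
`z s` : `T^0 = s ≤ σ` (first time with `P (R | nd s) ≥ u0`), `un s` : `b` is undecided (`P (R | N s') < q` for `s' < s`).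
`Cd s` = covered `(b, d)` (by rows `c_i`), `Cc s` = covered `(b, c)` (by columns `d_i`), ARBITRARY events of `Yd s`, `Yc s`.
RELEASED : `z s`, `un s`, not (`Cd s` and `Cc s`).

* `freezeV`, `ok_frozen` : `U`, `V` independent: the own row at the sight (exact `U`, cell of `V`) = the row of the frozen `U` in
  the process of `V` (in the applications `U` = exact `c`, `V` = (`b`, `d`), and the mirror);
* `L0_iff` : the tuples left by `GhoT` are those with `z s`, `un s` for some `s`;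
* `part_signed` : one part (rows with not `Cd`; columns with `Cd`, not `Cc`): `E 1_(R, z s, G s) ψ ≤ lam P (R, z s, G s) +
  kap P (z s) + L P (z s, bad)`;
* `z_signed` : rows and columns together, arbitrary bad events;
* `z_main` : bad event = the own row (column) is acceptable for the greedy at its sight; with `ok_frozen` this is the bad
  event of the process of `V`;
* `z_both`, `z_unsigned` : both covered; `z_drop` : columns dropped (bad letters).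
-/

set_option autoImplicit false
set_option linter.unusedSectionVars false

namespace Pool.Agent.GMH.GhoZ

open Finset Pool.Agent.PWZ Pool.Agent.M3 Pool.Agent.GMH.Gdy Pool.Agent.GMH.CR Pool.Agent.GMH.Three
open Pool.Agent.GMH.Blk Pool.Agent.GMH.GhoV
open Pool.Agent.GMH.GhoT (L0)
open Pool.Agent.GMH.Grs (ok)
open Pool.Agent.GMH.BlkG (row_le)
open Pool.Agent.GMH.Tree (stp_le stp_eq)

noncomputable section

variable {Om : Type*} [Fintype Om] {P : FP Om}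

/-! ## freezing the exact vertex -/

section frz

variable {κ : Type*} {α ω : Type*} {U : Om → α} {V : Om → ω} {X : Om → κ}

/-- freezing `U` in a function of `U` and `V`, seen at the exact `U` and a cell of `V` -/
theorem freezeV (hI : P.Indep U V) (hX : Fac V X) {F : α → Om → ℝ} (hF : ∀ a, Fac V (F a)) {w : Om} (hw : P.p w ≠ 0) :
    P.ce (fun x => (U x, X x)) (fun x => F (U x) x) w = P.ce X (F (U w)) w := by
  set A : Om → ℝ := fun x => ind (U x = U w) with hA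
  set b : Om → ℝ := fun x => ind (X x = X w) with hb
  set B : Om → ℝ := fun x => ind (X x = X w) * F (U w) x with hB
  have fA : Fac U A := fun x y e => by
    show ind (U x = U w) = ind (U y = U w)
    rw [e]
  have fb : Fac V b := fun x y e => by
    show ind (X x = X w) = ind (X y = X w)
    rw [hX x y e]
  have fB : Fac V B := fun x y e => by
    show ind (X x = X w) * F (U w) x = ind (X y = X w) * F (U w) y
    rw [hX x y e, hF (U w) x y e]
  have e1 : P.E (fun x => ind ((U x, X x) = (U w, X w)) * F (U x) x) = P.E A * P.E B := by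
    rw [← hI A B fA fB]
    refine P.E_congr fun x _ => ?_
    rw [show ((U x, X x) = (U w, X w)) = (U x = U w ∧ X x = X w) from by rw [Prod.mk.injEq], ind_and]
    show ind (U x = U w) * ind (X x = X w) * F (U x) x = ind (U x = U w) * (ind (X x = X w) * F (U w) x)
    by_cases h1 : U x = U w
    · rw [h1]
      ring
    · rw [ind_not h1]
      ring
  have e2 : P.m (fun x => (U x, X x)) w = P.E A * P.E b := by
    rw [← hI A b fA fb]
    refine P.E_congr fun x _ => ?_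
    rw [show ((U x, X x) = (U w, X w)) = (U x = U w ∧ X x = X w) from by rw [Prod.mk.injEq], ind_and]
  have p3 : 0 < P.E A := P.m_pos U hw
  unfold FP.ce
  rw [e1, e2, mul_div_mul_left _ _ p3.ne']
  rfl

variable {H : α → Om → Prop} {C : Om → Prop} {f : α → Om → ℝ} {kap lam : ℝ}

/-- **THE OWN ROW, WITH `U` FROZEN** -/
theorem ok_frozen (hI : P.Indep U V) (hX : Fac V X) (hH : ∀ a x w, V x = V w → (H a x ↔ H a w))
    (hC : ∀ x w, V x = V w → (C x ↔ C w)) (hf : ∀ a, Fac V (f a)) {w : Om} (hw : P.p w ≠ 0) :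
    ok P (fun x => (U x, X x)) kap lam (fun x => H (U x) x ∧ ¬ C x) (fun x => f (U x) x) w ↔
      ok P X kap lam (fun x => H (U w) x ∧ ¬ C x) (f (U w)) w := by
  have e1 : P.ce (fun x => (U x, X x)) (fun x => ind (H (U x) x ∧ ¬ C x)) w =
      P.ce X (fun x => ind (H (U w) x ∧ ¬ C x)) w :=
    freezeV hI hX (F := fun a x => ind (H a x ∧ ¬ C x)) (fun a => Fac.ind fun x y e => by rw [hH a x y e, hC x y e]) hw
  have e2 : P.ce (fun x => (U x, X x)) (fun x => ind (H (U x) x ∧ ¬ C x) * f (U x) x) w =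
      P.ce X (fun x => ind (H (U w) x ∧ ¬ C x) * f (U w) x) w :=
    freezeV hI hX (F := fun a x => ind (H a x ∧ ¬ C x) * f a x) (fun a x y e => by
      show ind (H a x ∧ ¬ C x) * f a x = ind (H a y ∧ ¬ C y) * f a y
      rw [hf a x y e, propext (hH a x y e), propext (hC x y e)]) hw
  unfold ok
  rw [e1, e2]

end frz

/-! ## one part, signed -/

section part

variable {κ : ℕ → Type*} {V : ∀ t, Om → κ t} {R : Om → Prop} {z G Bd : ℕ → Om → Prop} {T : ℕ} {ψ : Om → ℝ}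
  {lam kap L : ℝ}

/-- **ONE PART, SIGNED** : `V s` = the sight at which the sum is small -/
theorem part_signed (hz : ∀ s x w, V s x = V s w → (z s x ↔ z s w)) (z1 : ∀ w s s', z s w → z s' w → s = s')
    (zT : ∀ s w, z s w → s < T)
    (hrow : ∀ s w, P.p w ≠ 0 → z s w → P.ce (V s) (fun x => ind (R x ∧ G s x) * ψ x) w ≤
      lam * P.ce (V s) (fun x => ind (R x ∧ G s x)) w + kap + L * ind (Bd s w)) :
    P.E (fun w => ind (∃ s, z s w ∧ (R w ∧ G s w)) * ψ w) ≤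
      lam * P.Pr (fun w => ∃ s, z s w ∧ (R w ∧ G s w)) + kap * P.Pr (fun w => ∃ s, z s w) +
        L * P.Pr (fun w => ∃ s, z s w ∧ Bd s w) := by
  rw [cntW z1 zT (fun s w => R w ∧ G s w) ψ, cnt z1 zT (fun s w => R w ∧ G s w), cnt' z1 zT, cnt z1 zT Bd,
    Finset.mul_sum, Finset.mul_sum, Finset.mul_sum, ← Finset.sum_add_distrib, ← Finset.sum_add_distrib]
  refine Finset.sum_le_sum fun s _ => ?_
  have hF : Fac (V s) (fun w => ind (z s w)) := Fac.ind fun x w e => hz s x w e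
  rw [← P.E_mul_ce hF (fun w => ind (R w ∧ G s w) * ψ w), ← P.E_mul_ce hF (fun w => ind (R w ∧ G s w)),
    ← FP.E_smul, ← FP.E_smul, ← FP.E_smul, ← FP.E_add, ← FP.E_add]
  refine P.E_mono fun w hw => ?_
  by_cases a : z s w
  · rw [ind_of a, one_mul, one_mul, one_mul, mul_one]
    exact hrow s w hw a
  · rw [ind_not a]
    simp

end part

/-! ## the case part -/

section main

variable {κ κ' κ'' κc κd ν : ℕ → Type*} {N : ∀ t, Om → κ t} {Yc : ∀ t, Om → κ' t} {Yd : ∀ t, Om → κ'' t}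
  {Vc : ∀ t, Om → κc t} {Vd : ∀ t, Om → κd t} {nd : ∀ t, Om → ν t} {R : Om → Prop} {q u0 h lam kap L : ℝ}
  {σ : Om → ℕ} {T : ℕ} {Cc Cd : ℕ → Om → Prop} {ψ : Om → ℝ}

variable (P nd R u0 σ) in
/-- `T^0 = s ≤ σ` -/
def z (s : ℕ) (w : Om) : Prop := fst (fun s w => u0 ≤ cp P nd s R w) s w ∧ s ≤ σ w

variable (P N R q) in
/-- `b` is undecided before `s` -/
def un (s : ℕ) (w : Om) : Prop := ∀ s' < s, cp P N s' R w < q

theorem z_one (w : Om) (s s' : ℕ) (a : z P nd R u0 σ s w) (b : z P nd R u0 σ s' w) : s = s' :=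
  fst_one s s' a.1 b.1

theorem z_fac (fnd : Filt nd) (hσ : Stp nd σ) (s : ℕ) {x w : Om} (e : nd s x = nd s w) :
    z P nd R u0 σ s x ↔ z P nd R u0 σ s w := by
  have h1 : fst (fun s w => u0 ≤ cp P nd s R w) s x ↔ fst (fun s w => u0 ≤ cp P nd s R w) s w := by
    show (u0 ≤ cp P nd s R x ∧ ∀ s' < s, ¬ u0 ≤ cp P nd s' R x) ↔ (u0 ≤ cp P nd s R w ∧ ∀ s' < s, ¬ u0 ≤ cp P nd s' R w)
    rw [cp_fac s R x w e]
    exact and_congr_right fun _ => forall_congr' fun s' => forall_congr' fun hs' => by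
      rw [cp_fac s' R x w (fnd.le hs'.le x w e)]
  unfold z
  rw [h1, stp_le fnd (fun _ => Fac.refl _) hσ e]

theorem un_fac (fN : Filt N) (s : ℕ) {x w : Om} (e : N s x = N s w) : un P N R q s x ↔ un P N R q s w := by
  unfold un
  exact forall_congr' fun s' => forall_congr' fun hs' => by rw [cp_fac s' R x w (fN.le hs'.le x w e)]

/-- the tuples which are left to `T^0` -/
theorem L0_iff (w : Om) : L0 P N nd R q u0 σ w ↔ ∃ s, z P nd R u0 σ s w ∧ un P N R q s w := by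
  constructor
  · rintro ⟨s, hs, h1, h2⟩
    obtain ⟨s', hs', hf⟩ := fst_ex (A := fun s w => u0 ≤ cp P nd s R w) h1
    exact ⟨s', ⟨hf, hs'.trans hs⟩, fun i hi => h2 i (lt_of_lt_of_le hi hs')⟩
  · rintro ⟨s, ⟨h1, h2⟩, h3⟩
    exact ⟨s, h2, h1.1, h3⟩

/-- **ROWS AND COLUMNS, SIGNED** -/
theorem z_signed (fnd : Filt nd) (hσ : Stp nd σ) (hT : ∀ w, σ w < T) (hVc : ∀ s, Fac (Vc s) (nd s))
    (hVd : ∀ s, Fac (Vd s) (nd s)) {Bc Bd : ℕ → Om → Prop} (l0 : 0 ≤ lam)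
    (hrow : ∀ s w, P.p w ≠ 0 → z P nd R u0 σ s w →
      P.ce (Vc s) (fun x => ind (R x ∧ (un P N R q s x ∧ ¬ Cd s x)) * ψ x) w ≤
        lam * P.ce (Vc s) (fun x => ind (R x ∧ (un P N R q s x ∧ ¬ Cd s x))) w + kap + L * ind (Bc s w))
    (hcol : ∀ s w, P.p w ≠ 0 → z P nd R u0 σ s w →
      P.ce (Vd s) (fun x => ind (R x ∧ (un P N R q s x ∧ (Cd s x ∧ ¬ Cc s x))) * ψ x) w ≤
        lam * P.ce (Vd s) (fun x => ind (R x ∧ (un P N R q s x ∧ (Cd s x ∧ ¬ Cc s x)))) w + kap + L * ind (Bd s w)) :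
    P.E (fun w => ind (R w ∧ ∃ s, z P nd R u0 σ s w ∧ un P N R q s w ∧ ¬ (Cc s w ∧ Cd s w)) * ψ w) ≤
      lam * P.Pr (fun w => R w ∧ L0 P N nd R q u0 σ w) + 2 * kap * P.Pr (fun w => ∃ s, z P nd R u0 σ s w) +
        L * (P.Pr (fun w => ∃ s, z P nd R u0 σ s w ∧ Bc s w) + P.Pr (fun w => ∃ s, z P nd R u0 σ s w ∧ Bd s w)) := by
  have z1 := z_one (P := P) (nd := nd) (R := R) (u0 := u0) (σ := σ)
  have zT : ∀ s w, z P nd R u0 σ s w → s < T := fun s w a => lt_of_le_of_lt a.2 (hT w)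
  have hr := part_signed (V := Vc) (R := R) (G := fun s x => un P N R q s x ∧ ¬ Cd s x) (Bd := Bc) (lam := lam)
    (kap := kap) (L := L) (ψ := ψ) (fun s x w e => z_fac (R := R) (u0 := u0) fnd hσ s (hVc s x w e)) z1 zT hrow
  have hk := part_signed (V := Vd) (R := R) (G := fun s x => un P N R q s x ∧ (Cd s x ∧ ¬ Cc s x)) (Bd := Bd)
    (lam := lam) (kap := kap) (L := L) (ψ := ψ) (fun s x w e => z_fac (R := R) (u0 := u0) fnd hσ s (hVd s x w e)) z1 zT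
    hcol
  -- the released event is the disjoint union of rows and columns
  have key : ∀ w, ind (R w ∧ ∃ s, z P nd R u0 σ s w ∧ un P N R q s w ∧ ¬ (Cc s w ∧ Cd s w)) =
      ind (∃ s, z P nd R u0 σ s w ∧ (R w ∧ (un P N R q s w ∧ ¬ Cd s w))) +
      ind (∃ s, z P nd R u0 σ s w ∧ (R w ∧ (un P N R q s w ∧ (Cd s w ∧ ¬ Cc s w)))) := by
    intro w
    by_cases h1 : ∃ s, z P nd R u0 σ s w ∧ (R w ∧ (un P N R q s w ∧ ¬ Cd s w))
    · have h2 : ¬ ∃ s, z P nd R u0 σ s w ∧ (R w ∧ (un P N R q s w ∧ (Cd s w ∧ ¬ Cc s w))) := by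
        rintro ⟨s', a', b', c', d', e'⟩
        obtain ⟨s, a, b, c, d⟩ := h1
        obtain rfl := z1 w s s' a a'
        exact d d'
      rw [ind_of h1, ind_not h2, add_zero]
      obtain ⟨s, a, b, c, d⟩ := h1
      exact ind_of ⟨b, s, a, c, fun e => d e.2⟩
    · rw [ind_not h1, zero_add]
      congr 1
      refine propext ⟨?_, ?_⟩
      · rintro ⟨b, s, a, c, d⟩
        by_cases e : Cd s w
        · exact ⟨s, a, b, c, e, fun g => d ⟨g, e⟩⟩
        · exact absurd ⟨s, a, b, c, e⟩ h1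
      · rintro ⟨s, a, b, c, d, e⟩
        exact ⟨b, s, a, c, fun g => e g.1⟩
  have e1 : P.E (fun w => ind (R w ∧ ∃ s, z P nd R u0 σ s w ∧ un P N R q s w ∧ ¬ (Cc s w ∧ Cd s w)) * ψ w) =
      P.E (fun w => ind (∃ s, z P nd R u0 σ s w ∧ (R w ∧ (un P N R q s w ∧ ¬ Cd s w))) * ψ w) +
      P.E (fun w => ind (∃ s, z P nd R u0 σ s w ∧ (R w ∧ (un P N R q s w ∧ (Cd s w ∧ ¬ Cc s w)))) * ψ w) := by
    rw [← FP.E_add]
    exact P.E_congr fun w _ => by rw [key w]; ring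
  have e2 : P.Pr (fun w => ∃ s, z P nd R u0 σ s w ∧ (R w ∧ (un P N R q s w ∧ ¬ Cd s w))) +
      P.Pr (fun w => ∃ s, z P nd R u0 σ s w ∧ (R w ∧ (un P N R q s w ∧ (Cd s w ∧ ¬ Cc s w)))) ≤
      P.Pr (fun w => R w ∧ L0 P N nd R q u0 σ w) := by
    unfold FP.Pr
    rw [← FP.E_add]
    refine P.E_mono fun w _ => ?_
    rw [← key w]
    exact ind_mono fun ⟨b, s, a, c, _⟩ => ⟨b, (L0_iff w).2 ⟨s, a, c⟩⟩
  rw [e1]
  have e3 := mul_le_mul_of_nonneg_left e2 l0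
  linarith

/-- **THE CASE PART WITH GREEDY COVERS** : bad = the own row (column), cut at `z s`, is acceptable at its sight -/
theorem z_main (fnd : Filt nd) (hσ : Stp nd σ) (hT : ∀ w, σ w < T) (hVc : ∀ s, Fac (Vc s) (nd s))
    (hVd : ∀ s, Fac (Vd s) (nd s)) (l0 : 0 ≤ lam) (k0 : 0 ≤ kap) (L0' : 0 ≤ L) (hL : ∀ x, ψ x ≤ L) :
    P.E (fun w => ind (R w ∧ ∃ s, z P nd R u0 σ s w ∧ un P N R q s w ∧ ¬ (Cc s w ∧ Cd s w)) * ψ w) ≤
      lam * P.Pr (fun w => R w ∧ L0 P N nd R q u0 σ w) + 2 * (L * kap) * P.Pr (fun w => ∃ s, z P nd R u0 σ s w) +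
        L * (P.Pr (fun w => ∃ s < T, ok P (Vc s) kap lam
            (fun x => (z P nd R u0 σ s x ∧ un P N R q s x ∧ R x) ∧ ¬ Cd s x) ψ w) +
          P.Pr (fun w => ∃ s < T, ok P (Vd s) kap lam
            (fun x => (z P nd R u0 σ s x ∧ un P N R q s x ∧ R x ∧ Cd s x) ∧ ¬ Cc s x) ψ w)) := by
  have zT : ∀ s w, z P nd R u0 σ s w → s < T := fun s w a => lt_of_le_of_lt a.2 (hT w)
  have hLk : 0 ≤ L * kap := mul_nonneg L0' k0
  have h1 := z_signed (P := P) (N := N) (nd := nd) (Vc := Vc) (Vd := Vd) (R := R) (q := q) (u0 := u0) (σ := σ)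
    (T := T) (Cc := Cc) (Cd := Cd) (ψ := ψ) (lam := lam) (kap := L * kap) (L := L) fnd hσ hT hVc hVd
    (Bc := fun s => ok P (Vc s) kap lam (fun x => (z P nd R u0 σ s x ∧ un P N R q s x ∧ R x) ∧ ¬ Cd s x) ψ)
    (Bd := fun s => ok P (Vd s) kap lam (fun x => (z P nd R u0 σ s x ∧ un P N R q s x ∧ R x ∧ Cd s x) ∧ ¬ Cc s x) ψ)
    l0 (fun s w hw a => ?_) (fun s w hw a => ?_)
  · refine h1.trans (add_le_add le_rfl (mul_le_mul_of_nonneg_left (add_le_add ?_ ?_) L0'))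
    · exact P.Pr_mono fun w _ ⟨s, a, b⟩ => ⟨s, zT s w a, b⟩
    · exact P.Pr_mono fun w _ ⟨s, a, b⟩ => ⟨s, zT s w a, b⟩
  · have e1 : P.ce (Vc s) (fun x => ind (R x ∧ (un P N R q s x ∧ ¬ Cd s x)) * ψ x) w =
        P.ce (Vc s) (fun x => ind ((z P nd R u0 σ s x ∧ un P N R q s x ∧ R x) ∧ ¬ Cd s x) * ψ x) w :=
      ce_congr_on fun x _ hx => by
        congr 2
        exact propext ⟨fun b => ⟨⟨(z_fac (R := R) (u0 := u0) fnd hσ s (hVc s x w hx)).2 a, b.2.1, b.1⟩, b.2.2⟩,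
          fun b => ⟨b.1.2.2, b.1.2.1, b.2⟩⟩
    have e2 : P.ce (Vc s) (fun x => ind (R x ∧ (un P N R q s x ∧ ¬ Cd s x))) w =
        P.ce (Vc s) (fun x => ind ((z P nd R u0 σ s x ∧ un P N R q s x ∧ R x) ∧ ¬ Cd s x)) w :=
      ce_congr_on fun x _ hx => by
        congr 1
        exact propext ⟨fun b => ⟨⟨(z_fac (R := R) (u0 := u0) fnd hσ s (hVc s x w hx)).2 a, b.2.1, b.1⟩, b.2.2⟩,
          fun b => ⟨b.1.2.2, b.1.2.1, b.2⟩⟩
    rw [e1, e2]
    exact row_le hw l0 k0 L0' hL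
  · have e1 : P.ce (Vd s) (fun x => ind (R x ∧ (un P N R q s x ∧ (Cd s x ∧ ¬ Cc s x))) * ψ x) w =
        P.ce (Vd s) (fun x => ind ((z P nd R u0 σ s x ∧ un P N R q s x ∧ R x ∧ Cd s x) ∧ ¬ Cc s x) * ψ x) w :=
      ce_congr_on fun x _ hx => by
        congr 2
        exact propext ⟨fun b => ⟨⟨(z_fac (R := R) (u0 := u0) fnd hσ s (hVd s x w hx)).2 a, b.2.1, b.1, b.2.2.1⟩,
          b.2.2.2⟩, fun b => ⟨b.1.2.2.1, b.1.2.1, b.1.2.2.2, b.2⟩⟩
    have e2 : P.ce (Vd s) (fun x => ind (R x ∧ (un P N R q s x ∧ (Cd s x ∧ ¬ Cc s x)))) w =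
        P.ce (Vd s) (fun x => ind ((z P nd R u0 σ s x ∧ un P N R q s x ∧ R x ∧ Cd s x) ∧ ¬ Cc s x)) w :=
      ce_congr_on fun x _ hx => by
        congr 1
        exact propext ⟨fun b => ⟨⟨(z_fac (R := R) (u0 := u0) fnd hσ s (hVd s x w hx)).2 a, b.2.1, b.1, b.2.2.1⟩,
          b.2.2.2⟩, fun b => ⟨b.1.2.2.1, b.1.2.1, b.1.2.2.2, b.2⟩⟩
    rw [e1, e2]
    exact row_le hw l0 k0 L0' hL

/-- **BOTH COVERED** -/
theorem z_both (hci : CI P N Yc Yd) (fN : Filt N) (fnd : Filt nd) (hN : ∀ s, Fac (N s) (nd s)) (hσ : Stp nd σ)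
    (hT : ∀ w, σ w < T) (h0 : 0 ≤ h) (hm : ∀ s w, P.p w ≠ 0 → P.m (N s) w ≤ h * P.m (N (s + 1)) w)
    (hCc : ∀ s x w, Yc s x = Yc s w → (Cc s x ↔ Cc s w)) (hCd : ∀ s x w, Yd s x = Yd s w → (Cd s x ↔ Cd s w)) :
    P.Pr (fun w => R w ∧ ∃ s, z P nd R u0 σ s w ∧ un P N R q s w ∧ Cc s w ∧ Cd s w) ≤
      Real.sqrt (h * q) * ((P.Pr (fun w => ∃ s, (z P nd R u0 σ s w ∧ un P N R q s w) ∧ Cc s w) +
        P.Pr (fun w => ∃ s, (z P nd R u0 σ s w ∧ un P N R q s w) ∧ Cd s w)) / 2) +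
      P.Pr (fun w => z P nd R u0 σ 0 w ∧ h * q < cp P N 0 R w ∧ R w) := by
  have h1 := both_first (P := P) (R := R) (N := N) (Yc := Yc) (Yd := Yd) (T := T) (h := h) (u := q)
    (f := fun s w => z P nd R u0 σ s w ∧ un P N R q s w) hci fN
    (fun s x w e => by rw [z_fac fnd hσ s (hN s x w e), un_fac fN s e])
    (fun w s s' a b => z_one w s s' a.1 b.1) (fun s w a => lt_of_le_of_lt a.1.2 (hT w)) hCc hCd h0 hm
    (fun s w a => a.2)
  have e1 : P.Pr (fun w => R w ∧ ∃ s, z P nd R u0 σ s w ∧ un P N R q s w ∧ Cc s w ∧ Cd s w) =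
      P.Pr (fun w => ∃ s, (z P nd R u0 σ s w ∧ un P N R q s w) ∧ Cc s w ∧ Cd s w ∧ R w) := by
    unfold FP.Pr
    refine P.E_congr fun w _ => ?_
    congr 1
    exact propext ⟨fun ⟨a, s, b, c, d, e⟩ => ⟨s, ⟨b, c⟩, d, e, a⟩, fun ⟨s, ⟨b, c⟩, d, e, a⟩ => ⟨a, s, b, c, d, e⟩⟩
  rw [e1]
  refine h1.trans (add_le_add le_rfl (P.Pr_mono fun w _ a => ⟨a.1.1, a.2⟩))

/-- **WHAT IS NOT RELEASED AT `T^0`** -/
theorem z_unsigned {W : Om → ℝ} (W1 : ∀ w, W w ≤ 1) :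
    P.E (fun w => ind ((R w ∧ L0 P N nd R q u0 σ w) ∧
      ¬ ∃ s, z P nd R u0 σ s w ∧ un P N R q s w ∧ ¬ (Cc s w ∧ Cd s w)) * W w) ≤
      P.Pr (fun w => R w ∧ ∃ s, z P nd R u0 σ s w ∧ un P N R q s w ∧ Cc s w ∧ Cd s w) := by
  refine P.E_mono fun w _ => ?_
  by_cases h1 : (R w ∧ L0 P N nd R q u0 σ w) ∧ ¬ ∃ s, z P nd R u0 σ s w ∧ un P N R q s w ∧ ¬ (Cc s w ∧ Cd s w)
  · obtain ⟨⟨hR, hL⟩, h2⟩ := h1
    obtain ⟨s, a, b⟩ := (L0_iff w).1 hL
    have h3 : Cc s w ∧ Cd s w := by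
      by_contra h4
      exact h2 ⟨s, a, b, h4⟩
    rw [ind_of (show (R w ∧ L0 P N nd R q u0 σ w) ∧ ¬ ∃ s, z P nd R u0 σ s w ∧ un P N R q s w ∧ ¬ (Cc s w ∧ Cd s w) from
      ⟨⟨hR, hL⟩, h2⟩), one_mul, ind_of ⟨hR, s, a, b, h3⟩]
    exact W1 w
  · rw [ind_not h1, zero_mul]
    exact ind_nonneg _

/-- **DROPPED** (bad letters, columns not used): density at most `uw` of the covered mass at the exact `b`, or the event -/
theorem z_drop (fN : Filt N) (fnd : Filt nd) (hN : ∀ s, Fac (N s) (nd s)) (hσ : Stp nd σ) (hT : ∀ w, σ w < T)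
    (q0 : 0 ≤ q) (h0 : 0 ≤ h) (hm : ∀ s w, P.p w ≠ 0 → P.m (N s) w ≤ h * P.m (N (s + 1)) w) {uw : ℝ} (w0 : 0 ≤ uw) :
    P.Pr (fun w => R w ∧ ∃ s, z P nd R u0 σ s w ∧ un P N R q s w ∧ Cd s w) ≤
      uw * P.Pr (fun w => ∃ s, (z P nd R u0 σ s w ∧ un P N R q s w) ∧ Cd s w) +
      h * q * P.Pr (fun w => ∃ s, (z P nd R u0 σ s w ∧ un P N R q s w) ∧
        uw * cp P N s (Cd s) w < cp P N s (fun x => R x ∧ Cd s x) w) +
      P.Pr (fun w => z P nd R u0 σ 0 w ∧ h * q < cp P N 0 R w ∧ R w) := by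
  set f : ℕ → Om → Prop := fun s w => z P nd R u0 σ s w ∧ un P N R q s w with hf
  have f1 : ∀ w s s', f s w → f s' w → s = s' := fun w s s' a b => z_one w s s' a.1 b.1
  have fT : ∀ s w, f s w → s < T := fun s w a => lt_of_le_of_lt a.1.2 (hT w)
  have ff : ∀ s x w, N s x = N s w → (f s x ↔ f s w) := fun s x w e => by
    show (z P nd R u0 σ s x ∧ un P N R q s x) ↔ (z P nd R u0 σ s w ∧ un P N R q s w)
    rw [z_fac fnd hσ s (hN s x w e), un_fac fN s e]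
  have e1 : P.Pr (fun w => R w ∧ ∃ s, z P nd R u0 σ s w ∧ un P N R q s w ∧ Cd s w) =
      P.Pr (fun w => ∃ s, f s w ∧ (R w ∧ Cd s w)) := by
    unfold FP.Pr
    refine P.E_congr fun w _ => ?_
    congr 1
    exact propext ⟨fun ⟨a, s, b, c, d⟩ => ⟨s, ⟨b, c⟩, a, d⟩, fun ⟨s, ⟨b, c⟩, a, d⟩ => ⟨a, s, b, c, d⟩⟩
  have e2 : P.Pr (fun w => ∃ s, f s w ∧ (h * q < cp P N s R w ∧ R w)) ≤
      P.Pr (fun w => z P nd R u0 σ 0 w ∧ h * q < cp P N 0 R w ∧ R w) := P.Pr_mono fun w hw ⟨s, a, b, c⟩ => by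
    have h2 := first_cp fN h0 hm hw a.2 b
    subst h2
    exact ⟨a.1, b, c⟩
  rw [e1]
  refine le_trans ?_ (add_le_add le_rfl e2)
  rw [cnt f1 fT (fun s w => R w ∧ Cd s w), cnt f1 fT Cd,
    cnt f1 fT (fun s w => uw * cp P N s (Cd s) w < cp P N s (fun x => R x ∧ Cd s x) w),
    cnt f1 fT (fun s w => h * q < cp P N s R w ∧ R w), Finset.mul_sum, Finset.mul_sum, ← Finset.sum_add_distrib,
    ← Finset.sum_add_distrib]
  refine Finset.sum_le_sum fun s _ => ?_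
  have hF : Fac (N s) (fun w => ind (f s w)) := Fac.ind fun x w e => ff s x w e
  rw [← P.E_mul_ce hF (fun w => ind (R w ∧ Cd s w)), ← P.E_mul_ce hF (fun w => ind (Cd s w)),
    ← P.E_mul_ce hF (fun w => ind (h * q < cp P N s R w ∧ R w)), ← FP.E_smul, ← FP.E_smul, ← FP.E_add, ← FP.E_add]
  refine P.E_mono fun w hw => ?_
  have n0 := ind_nonneg (f s w)
  have n1 : 0 ≤ P.ce (N s) (fun w => ind (Cd s w)) w := P.ce_nonneg (fun _ _ => ind_nonneg _) w
  have n2 : 0 ≤ P.ce (N s) (fun w => ind (h * q < cp P N s R w ∧ R w)) w := P.ce_nonneg (fun _ _ => ind_nonneg _) w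
  have n3 := ind_nonneg (uw * cp P N s (Cd s) w < cp P N s (fun x => R x ∧ Cd s x) w)
  have n4 : P.ce (N s) (fun w => ind (R w ∧ Cd s w)) w ≤ cp P N s R w := cp_mono (fun x a => a.1) w
  have hq0 : 0 ≤ h * q := mul_nonneg h0 q0
  have goal : P.ce (N s) (fun w => ind (R w ∧ Cd s w)) w ≤ uw * P.ce (N s) (fun w => ind (Cd s w)) w +
      h * q * ind (uw * cp P N s (Cd s) w < cp P N s (fun x => R x ∧ Cd s x) w) +
      P.ce (N s) (fun w => ind (h * q < cp P N s R w ∧ R w)) w := by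
    by_cases a2 : uw * cp P N s (Cd s) w < cp P N s (fun x => R x ∧ Cd s x) w
    · rw [ind_of a2, mul_one]
      have h5 := mul_nonneg w0 n1
      by_cases a3 : h * q < cp P N s R w
      · have h6 : cp P N s R w = P.ce (N s) (fun w => ind (h * q < cp P N s R w ∧ R w)) w :=
          ce_congr_on fun x _ hx => by
            rw [cp_fac s R x w hx]
            exact congrArg ind (propext ⟨fun a => ⟨a3, a⟩, fun a => a.2⟩)
        linarith
      · have h6 := not_lt.1 a3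
        linarith
    · rw [ind_not a2, mul_zero, add_zero]
      have h5 : P.ce (N s) (fun w => ind (R w ∧ Cd s w)) w ≤ uw * P.ce (N s) (fun w => ind (Cd s w)) w := not_lt.1 a2
      linarith
  have h7 := mul_le_mul_of_nonneg_left goal n0
  linarith

end main

end

end Pool.Agent.GMH.GhoZ
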