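import Pool.Agent.GMH.Three

/-!
# GMH/Take (helper99): takings at an exact vertex (note 3966; 3951 (3)(a))

Three independent vertices `B`, `C`, `D` with cells, node = the three cells.  Static relation `R b c d`.
`dl s` = `P (R (b, c, .) | cell of d)`, `hv v s` : `v ≤ dl s`.  At the exact `b` the set `{c : hv v s, not taken yet}` is
taken at the time `s` if its density in the cell of `c` is at least `u / 2` (= greedy cover with one time dependent row);
`tkd s` : the true `c` is taken before `s`, `nwd s` : taken at `s`, `tms s` : a taking happens at `s`.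

* `mass_le` : `P (R, c not taken up to s | b, cells) ≤ u / 2 + v`;
* `first_R` : at a first time seen by (exact `b`, cells): `P (R, c not taken before) ≤ h (u / 2 + v) P (..)`;
* `early` : weights `Gbc`, `Gbd`;
* `late` : an event which has conditional probability `≤ kap` at the takings.
-/

set_option autoImplicit false
set_option linter.unusedSectionVars false

namespace Pool.Agent.GMH.Take

open Finset Pool.Agent.PWZ Pool.Agent.M3 Pool.Agent.GMH.Gdy Pool.Agent.GMH.CR Pool.Agent.GMH.Three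

noncomputable section

variable {Om : Type*} [Fintype Om] {P : FP Om} {κ κ' κ'' : ℕ → Type*} {cB : ∀ t, Om → κ t} {cC : ∀ t, Om → κ' t}
  {cD : ∀ t, Om → κ'' t} {α β δ : Type*} {B : Om → α} {C : Om → β} {D : Om → δ} {h : ℝ}

/-- exact `b`, cells of `c` and `d` -/
def xb (B : Om → α) (cC : ∀ t, Om → κ' t) (cD : ∀ t, Om → κ'' t) (s : ℕ) (w : Om) : α × κ' s × κ'' s :=
  (B w, cC s w, cD s w)

/-- exact `b` and `c`, cell of `d` -/
def bc (B : Om → α) (C : Om → β) (cD : ∀ t, Om → κ'' t) (s : ℕ) (w : Om) : α × β × κ'' s := (B w, C w, cD s w)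

theorem xb_eq {s : ℕ} {v w : Om} : xb B cC cD s v = xb B cC cD s w ↔ B v = B w ∧ cC s v = cC s w ∧ cD s v = cD s w := by
  unfold xb
  rw [Prod.mk.injEq, Prod.mk.injEq]

theorem bc_eq {s : ℕ} {v w : Om} : bc B C cD s v = bc B C cD s w ↔ B v = B w ∧ C v = C w ∧ cD s v = cD s w := by
  unfold bc
  rw [Prod.mk.injEq, Prod.mk.injEq]

theorem xb_filt (H : Fr P B C D cB cC cD h) : Filt (xb B cC cD) := fun t v w e => by
  have e' := xb_eq.1 e
  exact xb_eq.2 ⟨e'.1, H.fC t v w e'.2.1, H.fD t v w e'.2.2⟩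

theorem bc_filt (H : Fr P B C D cB cC cD h) : Filt (bc B C cD) := fun t v w e => by
  have e' := bc_eq.1 e
  exact bc_eq.2 ⟨e'.1, e'.2.1, H.fD t v w e'.2.2⟩

theorem bc_xb (H : Fr P B C D cB cC cD h) (t : ℕ) : Fac (bc B C cD t) (xb B cC cD t) := fun v w e => by
  have e' := bc_eq.1 e
  exact xb_eq.2 ⟨e'.1, H.hC t v w e'.2.1, e'.2.2⟩

theorem bc_nd (H : Fr P B C D cB cC cD h) {t : ℕ} {v w : Om} (e : bc B C cD t v = bc B C cD t w) :
    nd cB cC cD t v = nd cB cC cD t w := by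
  have e' := bc_eq.1 e
  exact nd_eq.2 ⟨H.hB t v w e'.1, H.hC t v w e'.2.1, e'.2.2⟩

theorem xb_nd (H : Fr P B C D cB cC cD h) {t : ℕ} {v w : Om} (e : xb B cC cD t v = xb B cC cD t w) :
    nd cB cC cD t v = nd cB cC cD t w := by
  have e' := xb_eq.1 e
  exact nd_eq.2 ⟨H.hB t v w e'.1, e'.2.1, e'.2.2⟩

variable (P B C D cD) in
/-- density of the bad `d` in the row `(b, c)` -/
def dl (R : α → β → δ → Prop) (s : ℕ) (w : Om) : ℝ := mn3 P cD B C D (fun b c d => ind (R b c d)) s w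

variable (P B C D cD) in
/-- the row `(b, c)` is heavy -/
def hv (R : α → β → δ → Prop) (v : ℝ) (s : ℕ) (w : Om) : Prop := v ≤ dl P cD B C D R s w

variable (P B C D cC cD) in
/-- the true `c` is taken before the time `s`, at the exact `b` -/
def tkd (R : α → β → δ → Prop) (u v : ℝ) (s : ℕ) (w : Om) : Prop :=
  covT P (xb B cC cD) u (fun s _ => hv P cD B C D R v s) 1 s w

variable (P B C D cC cD) in
/-- the true `c` is taken at the time `s`, at the exact `b` -/
def nwd (R : α → β → δ → Prop) (u v : ℝ) (s : ℕ) (w : Om) : Prop :=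
  nwT P (xb B cC cD) u (fun s _ => hv P cD B C D R v s) 1 s 0 w

variable (P B C D cC cD) in
/-- a taking happens at the time `s`, at the exact `b` -/
def tms (R : α → β → δ → Prop) (u v : ℝ) (s : ℕ) (w : Om) : Prop :=
  tkT P (xb B cC cD) u (fun s _ => hv P cD B C D R v s) 1 s 0 w

variable {R : α → β → δ → Prop} {u v kap : ℝ} {σ : Om → ℕ} {T : ℕ}

theorem dl_fac {s : ℕ} {x w : Om} (e : bc B C cD s x = bc B C cD s w) : dl P cD B C D R s x = dl P cD B C D R s w := by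
  have e' := bc_eq.1 e
  unfold dl mn3
  rw [e'.1, e'.2.1]
  exact P.ce_fac _ _ x w e'.2.2

theorem hv_fac {s : ℕ} {x w : Om} (e : bc B C cD s x = bc B C cD s w) :
    hv P cD B C D R v s x ↔ hv P cD B C D R v s w := by
  unfold hv
  rw [dl_fac e]

theorem tkd_fac1 (H : Fr P B C D cB cC cD h) {s : ℕ} {x w : Om} (e : bc B C cD s x = bc B C cD s w) :
    tkd P cC cD B C D R u v (s + 1) x ↔ tkd P cC cD B C D R u v (s + 1) w :=
  CvT_fac (P := P) (X := xb B cC cD) (G := bc B C cD) (bc_filt H) (bc_xb H) (fun _ _ _ _ e => hv_fac e) s 1 x w e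

theorem tkd_fac (H : Fr P B C D cB cC cD h) {s : ℕ} {x w : Om} (e : bc B C cD s x = bc B C cD s w) :
    tkd P cC cD B C D R u v s x ↔ tkd P cC cD B C D R u v s w :=
  CvT_fac (P := P) (X := xb B cC cD) (G := bc B C cD) (bc_filt H) (bc_xb H) (fun _ _ _ _ e => hv_fac e) s 0 x w e

theorem nwd_fac (H : Fr P B C D cB cC cD h) {s : ℕ} {x w : Om} (e : bc B C cD s x = bc B C cD s w) :
    nwd P cC cD B C D R u v s x ↔ nwd P cC cD B C D R u v s w :=
  nwT_fac (P := P) (X := xb B cC cD) (G := bc B C cD) (bc_filt H) (bc_xb H) (fun _ _ _ _ e => hv_fac e) s 0 x w e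

theorem tms_fac {s : ℕ} {x w : Om} (e : xb B cC cD s x = xb B cC cD s w) :
    tms P cC cD B C D R u v s x ↔ tms P cC cD B C D R u v s w := tkT_fac e

theorem nwd_tkd {s : ℕ} {w : Om} (e : nwd P cC cD B C D R u v s w) : tkd P cC cD B C D R u v (s + 1) w :=
  nwT_cov Nat.zero_lt_one e

theorem nwd_not {s : ℕ} {w : Om} (e : nwd P cC cD B C D R u v s w) : ¬ tkd P cC cD B C D R u v s w := nwT_not_cov e

theorem tkd_mono {s s' : ℕ} (hs : s ≤ s') {w : Om} (e : tkd P cC cD B C D R u v s w) :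
    tkd P cC cD B C D R u v s' w := covT_mono hs e

theorem nwd_one {s s' : ℕ} {w : Om} (e : nwd P cC cD B C D R u v s w) (e' : nwd P cC cD B C D R u v s' w) : s = s' :=
  (nwT_unique Nat.zero_lt_one Nat.zero_lt_one e e').1

/-- the true `c` is taken before `s` iff at some time -/
theorem tkd_iff {s : ℕ} {w : Om} : tkd P cC cD B C D R u v s w ↔ ∃ s' < s, nwd P cC cD B C D R u v s' w := by
  constructor
  · intro e
    induction s with
    | zero => exact absurd e id
    | succ s ih =>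
      by_cases h1 : tkd P cC cD B C D R u v s w
      · obtain ⟨s', h2, h3⟩ := ih h1
        exact ⟨s', by omega, h3⟩
      · rcases (CvT_succ (P := P) (X := xb B cC cD) (u := u) (H := fun s _ => hv P cD B C D R v s) (M := 1) s 0 w).1 e
          with h2 | h2
        · exact absurd h2 h1
        · exact ⟨s, by omega, h2⟩
  · rintro ⟨s', h1, h2⟩
    exact tkd_mono (by omega) (nwd_tkd h2)

/-- `dl` as a conditional probability -/
theorem ce_bc (H : Fr P B C D cB cC cD h) (s : ℕ) {w : Om} (hw : P.p w ≠ 0) :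
    P.ce (bc B C cD s) (fun x => ind (R (B x) (C x) (D x))) w = dl P cD B C D R s w := by
  have h1 := ce_freeze (P := P) (U := fun w => (B w, C w)) (V := D) (cU := fun _ w => (B w, C w)) (cV := cD)
    H.iD (fun _ => Fac.refl _) H.hD s (fun y d => ind (R y.1 y.2 d)) hw
  unfold dl mn3
  rw [← h1]
  exact P.ce_congr_map (fun x w e => by
    have e' := bc_eq.1 e
    show (((B x, C x), cD s x), (B x, C x)) = (((B w, C w), cD s w), (B w, C w))
    rw [e'.1, e'.2.1, e'.2.2]) (fun x w e => by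
    have e' : pair (fun (_ : ℕ) (w : Om) => (B w, C w)) cD s x = pair (fun (_ : ℕ) (w : Om) => (B w, C w)) cD s w ∧
      (B x, C x) = (B w, C w) := Prod.mk.injEq _ _ _ _ ▸ e
    have e2 : B x = B w ∧ C x = C w := Prod.mk.injEq _ _ _ _ ▸ e'.2
    exact bc_eq.2 ⟨e2.1, e2.2, (pair_eq.1 e'.1).2⟩) _ w

/-- the light rows -/
theorem light_le (H : Fr P B C D cB cC cD h) (v0 : 0 ≤ v) (s : ℕ) {w : Om} (hw : P.p w ≠ 0) :
    P.ce (bc B C cD s) (fun x => ind (¬ hv P cD B C D R v s x) * ind (R (B x) (C x) (D x))) w ≤ v := by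
  have h1 : Fac (bc B C cD s) (fun x => ind (¬ hv P cD B C D R v s x)) :=
    Fac.ind fun x w e => not_congr (hv_fac e)
  rw [P.ce_mul h1, ce_bc H s hw]
  by_cases h2 : hv P cD B C D R v s w
  · rw [ind_not (not_not.2 h2), zero_mul]
    exact v0
  · rw [ind_of h2, one_mul]
    exact (not_le.1 h2).le

/-- **the mass of the bad tuples whose row is not taken** -/
theorem mass_le (H : Fr P B C D cB cC cD h) (u0 : 0 < u) (v0 : 0 ≤ v) (s : ℕ) {w : Om} (hw : P.p w ≠ 0) :
    cp P (xb B cC cD) s (fun x => R (B x) (C x) (D x) ∧ ¬ tkd P cC cD B C D R u v (s + 1) x) w ≤ u / 2 + v := by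
  have h1 : cp P (xb B cC cD) s (fun x => hv P cD B C D R v s x ∧ ¬ tkd P cC cD B C D R u v (s + 1) x) w < u / 2 :=
    cp_ltT (P := P) (X := xb B cC cD) (H := fun s _ => hv P cD B C D R v s) (M := 1) u0 (r := 0) Nat.zero_lt_one w
  have h2 : P.ce (xb B cC cD s) (fun x => ind (¬ hv P cD B C D R v s x) * ind (R (B x) (C x) (D x))) w ≤ v := by
    rw [← P.ce_tower (bc_xb H s)]
    exact P.ce_le_const (fun x hx => light_le H v0 s hx) hw
  have h3 : cp P (xb B cC cD) s (fun x => R (B x) (C x) (D x) ∧ ¬ tkd P cC cD B C D R u v (s + 1) x) w ≤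
      cp P (xb B cC cD) s (fun x => hv P cD B C D R v s x ∧ ¬ tkd P cC cD B C D R u v (s + 1) x) w +
      P.ce (xb B cC cD s) (fun x => ind (¬ hv P cD B C D R v s x) * ind (R (B x) (C x) (D x))) w := by
    unfold cp
    rw [← P.ce_add]
    refine P.ce_mono (fun x _ => ?_) w
    by_cases h4 : R (B x) (C x) (D x) ∧ ¬ tkd P cC cD B C D R u v (s + 1) x
    · rw [ind_of h4]
      by_cases h5 : hv P cD B C D R v s x
      · rw [ind_of ⟨h5, h4.2⟩]
        have := mul_nonneg (ind_nonneg (¬ hv P cD B C D R v s x)) (ind_nonneg (R (B x) (C x) (D x)))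
        linarith
      · rw [ind_of h5, ind_of h4.1, one_mul]
        have := ind_nonneg (hv P cD B C D R v s x ∧ ¬ tkd P cC cD B C D R u v (s + 1) x)
        linarith
    · rw [ind_not h4]
      exact add_nonneg (ind_nonneg _) (mul_nonneg (ind_nonneg _) (ind_nonneg _))
  linarith

/-- **bad tuples at a random time** seen by the exact `b` and the cells: the row is not taken before -/
theorem first_R (H : Fr P B C D cB cC cD h) (u0 : 0 < u) (v0 : 0 ≤ v)
    (hm : ∀ s w, P.p w ≠ 0 → P.m (xb B cC cD s) w ≤ h * P.m (xb B cC cD (s + 1)) w) {e : ℕ → Om → Prop}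
    (he : ∀ s x w, xb B cC cD s x = xb B cC cD s w → (e s x ↔ e s w)) (he1 : ∀ w s s', e s w → e s' w → s = s')
    (heT : ∀ s w, e s w → s < T) :
    P.Pr (fun w => ∃ s, e s w ∧ R (B w) (C w) (D w) ∧ ¬ tkd P cC cD B C D R u v s w) ≤
      h * (u / 2 + v) * P.Pr (fun w => ∃ s, e s w) + P.Pr (e 0) := by
  classical
  have hq0 : 0 ≤ h * (u / 2 + v) := mul_nonneg H.h0 (by linarith)
  have h1 : ∀ s, P.E (fun w => ind (e (s + 1) w) * ind (R (B w) (C w) (D w) ∧ ¬ tkd P cC cD B C D R u v (s + 1) w)) ≤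
      h * (u / 2 + v) * P.E (fun w => ind (e (s + 1) w)) := by
    intro s
    have hf : Fac (xb B cC cD (s + 1)) (fun w => ind (e (s + 1) w)) := Fac.ind fun x w a => he (s + 1) x w a
    rw [← P.E_mul_ce hf, ← FP.E_smul]
    refine P.E_mono fun w hw => ?_
    have h2 := cp_ratio (P := P) (Y := xb B cC cD) (h := h) (s := s) (t := s + 1) (xb_filt H s) hw (hm s w hw)
      (fun x => R (B x) (C x) (D x) ∧ ¬ tkd P cC cD B C D R u v (s + 1) x)
    have h3 := mul_le_mul_of_nonneg_left (mass_le (R := R) H u0 v0 s hw) H.h0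
    have h4 := mul_le_mul_of_nonneg_left (h2.trans h3) (ind_nonneg (e (s + 1) w))
    have h5 : P.ce (xb B cC cD (s + 1)) (fun w => ind (R (B w) (C w) (D w) ∧ ¬ tkd P cC cD B C D R u v (s + 1) w)) w =
      cp P (xb B cC cD) (s + 1) (fun x => R (B x) (C x) (D x) ∧ ¬ tkd P cC cD B C D R u v (s + 1) x) w := rfl
    rw [h5]
    linarith
  have h2 : ∀ s ∈ range T, P.E (fun w => ind (e s w) * ind (R (B w) (C w) (D w) ∧ ¬ tkd P cC cD B C D R u v s w)) ≤
      h * (u / 2 + v) * P.E (fun w => ind (e s w)) + (if s = 0 then P.Pr (e 0) else 0) := by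
    intro s _
    rcases Nat.eq_zero_or_pos s with rfl | hs0
    · rw [if_pos rfl]
      have h3 : P.E (fun w => ind (e 0 w) * ind (R (B w) (C w) (D w) ∧ ¬ tkd P cC cD B C D R u v 0 w)) ≤ P.Pr (e 0) :=
        P.E_mono fun w _ => mul_le_of_le_one_right (ind_nonneg _) (ind_le_one _)
      have h4 : 0 ≤ h * (u / 2 + v) * P.E (fun w => ind (e 0 w)) := mul_nonneg hq0 (P.E_nonneg fun _ _ => ind_nonneg _)
      linarith
    · obtain ⟨s', rfl⟩ : ∃ s', s = s' + 1 := ⟨s - 1, by omega⟩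
      rw [if_neg (by omega), add_zero]
      exact h1 s'
  have e1 : P.Pr (fun w => ∃ s, e s w ∧ R (B w) (C w) (D w) ∧ ¬ tkd P cC cD B C D R u v s w) =
      ∑ s ∈ range T, P.E (fun w => ind (e s w) * ind (R (B w) (C w) (D w) ∧ ¬ tkd P cC cD B C D R u v s w)) := by
    unfold FP.Pr
    rw [← FP.E_sum]
    refine P.E_congr fun w _ => ?_
    rw [← sum_ind' (A := fun s => e s w ∧ R (B w) (C w) (D w) ∧ ¬ tkd P cC cD B C D R u v s w)
      (fun s s' a b => he1 w s s' a.1 b.1) (fun s a => heT s w a.1)]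
    exact Finset.sum_congr rfl fun s _ => ind_and _ _
  rw [e1]
  refine (Finset.sum_le_sum h2).trans ?_
  rw [Finset.sum_add_distrib, ← Finset.mul_sum, Finset.sum_ite_eq' (range T) 0]
  have h5 : ∑ s ∈ range T, P.E (fun w => ind (e s w)) = P.Pr (fun w => ∃ s, e s w) := by
    rw [← FP.E_sum]
    exact P.E_congr fun w _ => sum_ind' (fun s s' => he1 w s s') (fun s => heT s w)
  rw [h5]
  split_ifs
  · exact le_rfl
  · have := P.Pr_nonneg (e 0)
    linarith

/-- the same for the first time of an event family seen by the exact `b` and the cells -/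
theorem first_A (H : Fr P B C D cB cC cD h) (u0 : 0 < u) (v0 : 0 ≤ v)
    (hm : ∀ s w, P.p w ≠ 0 → P.m (xb B cC cD s) w ≤ h * P.m (xb B cC cD (s + 1)) w) (hσ : Stp (nd cB cC cD) σ)
    (hT : ∀ w, σ w < T) {A : ℕ → Om → Prop}
    (hA : ∀ s, ∀ s' ≤ s, ∀ x w, xb B cC cD s x = xb B cC cD s w → (A s' x ↔ A s' w)) :
    P.Pr (fun w => ∃ s, (fst A s w ∧ s ≤ σ w) ∧ R (B w) (C w) (D w) ∧ ¬ tkd P cC cD B C D R u v s w) ≤
      h * (u / 2 + v) * P.Pr (fun w => ∃ s ≤ σ w, A s w) + P.Pr (A 0) := by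
  have h1 := first_R (R := R) (T := T) H u0 v0 hm (e := fun s w => fst A s w ∧ s ≤ σ w) (fun s x w a => by
      have a' := xb_eq.1 a
      have a2 : fst A s x ↔ fst A s w := by
        unfold fst
        rw [hA s s le_rfl x w a]
        exact and_congr_right fun _ => forall_congr' fun s' => forall_congr' fun hs' =>
          not_congr (hA s s' hs'.le x w a)
      rw [a2, Stp.nd_le H hσ (H.hB s x w a'.1) a'.2.1 a'.2.2])
    (fun w s s' a b => fst_one s s' a.1 b.1) (fun s w a => by have := hT w; have := a.2; omega)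
  have h2 : ∀ w, (∃ s, fst A s w ∧ s ≤ σ w) ↔ ∃ s ≤ σ w, A s w := fun w =>
    ⟨fun ⟨s, a, b⟩ => ⟨s, b, a.1⟩, fun ⟨s, a, b⟩ => by
      obtain ⟨s', c, d⟩ := fst_ex b
      exact ⟨s', d, c.trans a⟩⟩
  simp only [h2] at h1
  exact h1.trans (add_le_add le_rfl (P.Pr_mono fun w _ a => a.1.1))

/-! ## nothing is taken up to the end -/

/-- light rows, weight seen by `(b, c)` -/
theorem early_bc (H : Fr P B C D cB cC cD h) (v0 : 0 ≤ v) (hσ : Stp (nd cB cC cD) σ) (hT : ∀ w, σ w < T)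
    {G : ℕ → Om → ℝ} (hG : ∀ s, Fac (bc B C cD s) (G s)) (hG0 : ∀ s w, 0 ≤ G s w) :
    P.E (fun w => G (σ w) w * (ind (¬ hv P cD B C D R v (σ w) w) * ind (R (B w) (C w) (D w)))) ≤
      v * P.E (fun w => G (σ w) w) := by
  rw [E_stop hT (fun s w => G s w * (ind (¬ hv P cD B C D R v s w) * ind (R (B w) (C w) (D w)))), E_stop hT G,
    Finset.mul_sum]
  refine Finset.sum_le_sum fun s _ => ?_
  have hf : Fac (bc B C cD s) (fun w => ind (σ w = s) * G s w) := fun x w a => by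
    have a' := bc_eq.1 a
    show ind (σ x = s) * G s x = ind (σ w = s) * G s w
    rw [propext (Stp.nd_eq' H hσ (H.hB s x w a'.1) (H.hC s x w a'.2.1) a'.2.2), hG s x w a]
  have e1 : P.E (fun w => ind (σ w = s) * (G s w * (ind (¬ hv P cD B C D R v s w) * ind (R (B w) (C w) (D w))))) =
      P.E (fun w => (ind (σ w = s) * G s w) * (ind (¬ hv P cD B C D R v s w) * ind (R (B w) (C w) (D w)))) :=
    P.E_congr fun w _ => by ring
  rw [e1, ← P.E_mul_ce hf, ← FP.E_smul]
  refine P.E_mono fun w hw => ?_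
  have h1 := mul_le_mul_of_nonneg_left (light_le (R := R) H v0 s hw) (mul_nonneg (ind_nonneg (σ w = s)) (hG0 s w))
  linarith

/-- heavy rows which are not taken, weight seen by `(b, d)` -/
theorem early_bd (H : Fr P B C D cB cC cD h) (u0 : 0 < u) (hσ : Stp (nd cB cC cD) σ) (hT : ∀ w, σ w < T)
    {G : ℕ → Om → ℝ} (hG : ∀ s, Fac (fun w => (B w, cC s w, D w)) (G s)) (hG0 : ∀ s w, 0 ≤ G s w) :
    P.E (fun w => G (σ w) w * ind (hv P cD B C D R v (σ w) w ∧ ¬ tkd P cC cD B C D R u v (σ w + 1) w)) ≤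
      u / 2 * P.E (fun w => G (σ w) w) := by
  rw [E_stop hT (fun s w => G s w * ind (hv P cD B C D R v s w ∧ ¬ tkd P cC cD B C D R u v (s + 1) w)), E_stop hT G,
    Finset.mul_sum]
  refine Finset.sum_le_sum fun s _ => ?_
  have hf : Fac (fun w => (cC s w, (B w, D w))) (fun w => ind (σ w = s) * G s w) := fun x w a => by
    have a' : cC s x = cC s w ∧ (B x, D x) = (B w, D w) := Prod.mk.injEq _ _ _ _ ▸ a
    have a2 : B x = B w ∧ D x = D w := Prod.mk.injEq _ _ _ _ ▸ a'.2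
    show ind (σ x = s) * G s x = ind (σ w = s) * G s w
    rw [propext (Stp.nd_eq' H hσ (H.hB s x w a2.1) a'.1 (H.hD s x w a2.2)), hG s x w (by
      show (B x, cC s x, D x) = (B w, cC s w, D w)
      rw [a2.1, a'.1, a2.2])]
  have e1 : P.E (fun w => ind (σ w = s) * (G s w * ind (hv P cD B C D R v s w ∧ ¬ tkd P cC cD B C D R u v (s + 1) w))) =
      P.E (fun w => (ind (σ w = s) * G s w) * ind (hv P cD B C D R v s w ∧ ¬ tkd P cC cD B C D R u v (s + 1) w)) :=
    P.E_congr fun w _ => by ring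
  rw [e1, ← P.E_mul_ce hf, ← FP.E_smul]
  refine P.E_mono fun w hw => ?_
  have h2 := P.ce_indep_eq H.iC (ζ := cC s) (φ := vc B cD s) (ψ := fun w => (B w, D w)) (H.hC s) (Fac.refl _)
    (vc_hV H.hD s) (f := fun w => ind (hv P cD B C D R v s w ∧ ¬ tkd P cC cD B C D R u v (s + 1) w))
    (Fac.ind fun x w a => by
      have a' : C x = C w ∧ vc B cD s x = vc B cD s w := Prod.mk.injEq _ _ _ _ ▸ a
      have a2 := vc_eq.1 a'.2
      have a3 : bc B C cD s x = bc B C cD s w := bc_eq.2 ⟨a2.1, a'.1, a2.2⟩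
      rw [hv_fac a3, tkd_fac1 H a3]) hw
  have h3 : P.ce (fun v => (cC s v, vc B cD s v)) (fun w => ind (hv P cD B C D R v s w ∧
      ¬ tkd P cC cD B C D R u v (s + 1) w)) w =
      cp P (xb B cC cD) s (fun x => hv P cD B C D R v s x ∧ ¬ tkd P cC cD B C D R u v (s + 1) x) w :=
    P.ce_congr_map (fun x w a => by
      have a' : cC s x = cC s w ∧ vc B cD s x = vc B cD s w := Prod.mk.injEq _ _ _ _ ▸ a
      have a2 := vc_eq.1 a'.2
      exact xb_eq.2 ⟨a2.1, a'.1, a2.2⟩) (fun x w a => by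
      have a' := xb_eq.1 a
      show (cC s x, vc B cD s x) = (cC s w, vc B cD s w)
      rw [a'.2.1, vc_eq.2 ⟨a'.1, a'.2.2⟩]) _ w
  have h4 : cp P (xb B cC cD) s (fun x => hv P cD B C D R v s x ∧ ¬ tkd P cC cD B C D R u v (s + 1) x) w < u / 2 :=
    cp_ltT (P := P) (X := xb B cC cD) (H := fun s _ => hv P cD B C D R v s) (M := 1) u0 (r := 0) Nat.zero_lt_one w
  rw [h2, h3]
  have h1 := mul_le_mul_of_nonneg_left h4.le (mul_nonneg (ind_nonneg (σ w = s)) (hG0 s w))
  linarith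

/-- **nothing is taken up to the end** -/
theorem early (H : Fr P B C D cB cC cD h) (u0 : 0 < u) (v0 : 0 ≤ v) (hσ : Stp (nd cB cC cD) σ) (hT : ∀ w, σ w < T)
    {Gc Gd : ℕ → Om → ℝ} (hGc : ∀ s, Fac (bc B C cD s) (Gc s)) (hGc0 : ∀ s w, 0 ≤ Gc s w) (hGc1 : ∀ s w, Gc s w ≤ 1)
    (hGd : ∀ s, Fac (fun w => (B w, cC s w, D w)) (Gd s)) (hGd0 : ∀ s w, 0 ≤ Gd s w) (hGd1 : ∀ s w, Gd s w ≤ 1) :
    P.E (fun w => ind (R (B w) (C w) (D w) ∧ ¬ tkd P cC cD B C D R u v (σ w + 1) w) *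
        (Gc (σ w) w * Gd (σ w) w)) ≤
      v * P.E (fun w => Gc (σ w) w) + u / 2 * P.E (fun w => Gd (σ w) w) := by
  refine le_trans ?_ (add_le_add (early_bc (R := R) H v0 hσ hT hGc hGc0) (early_bd (R := R) (v := v) H u0 hσ hT hGd hGd0))
  rw [← FP.E_add]
  refine P.E_mono fun w _ => ?_
  have c0 := hGc0 (σ w) w
  have c1 := hGc1 (σ w) w
  have d0 := hGd0 (σ w) w
  have d1 := hGd1 (σ w) w
  have p1 : 0 ≤ Gc (σ w) w * (ind (¬ hv P cD B C D R v (σ w) w) * ind (R (B w) (C w) (D w))) :=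
    mul_nonneg c0 (mul_nonneg (ind_nonneg _) (ind_nonneg _))
  have p2 : 0 ≤ Gd (σ w) w * ind (hv P cD B C D R v (σ w) w ∧ ¬ tkd P cC cD B C D R u v (σ w + 1) w) :=
    mul_nonneg d0 (ind_nonneg _)
  by_cases h1 : R (B w) (C w) (D w) ∧ ¬ tkd P cC cD B C D R u v (σ w + 1) w
  · rw [ind_of h1, one_mul]
    by_cases h2 : hv P cD B C D R v (σ w) w
    · have e1 : Gd (σ w) w * ind (hv P cD B C D R v (σ w) w ∧ ¬ tkd P cC cD B C D R u v (σ w + 1) w) = Gd (σ w) w := by
        rw [ind_of ⟨h2, h1.2⟩, mul_one]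
      have e2 : Gc (σ w) w * Gd (σ w) w ≤ Gd (σ w) w := mul_le_of_le_one_left d0 c1
      linarith
    · have e1 : Gc (σ w) w * (ind (¬ hv P cD B C D R v (σ w) w) * ind (R (B w) (C w) (D w))) = Gc (σ w) w := by
        rw [ind_of h2, ind_of h1.1, one_mul, mul_one]
      have e2 : Gc (σ w) w * Gd (σ w) w ≤ Gc (σ w) w := mul_le_of_le_one_right c0 d1
      linarith
  · rw [ind_not h1, zero_mul]
    linarith

/-! ## the takings -/

/-- the number of takings is paid by the taken points -/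
theorem tms_le (H : Fr P B C D cB cC cD h) (hσ : Stp (nd cB cC cD) σ) (hT : ∀ w, σ w < T) :
    u / 2 * ∑ s ∈ range T, P.Pr (fun w => s ≤ σ w ∧ tms P cC cD B C D R u v s w) ≤
      P.Pr (fun w => ∃ s ≤ σ w, nwd P cC cD B C D R u v s w) := by
  have h1 : ∀ s, u / 2 * P.Pr (fun w => s ≤ σ w ∧ tms P cC cD B C D R u v s w) ≤
      P.Pr (fun w => s ≤ σ w ∧ nwd P cC cD B C D R u v s w) := by
    intro s
    have hf : Fac (xb B cC cD s) (fun w => ind (s ≤ σ w)) := Fac.ind fun x w a => by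
      have a' := xb_eq.1 a
      exact Stp.nd_le H hσ (H.hB s x w a'.1) a'.2.1 a'.2.2
    have e1 : P.Pr (fun w => s ≤ σ w ∧ nwd P cC cD B C D R u v s w) =
        P.E (fun w => ind (s ≤ σ w) * cp P (xb B cC cD) s (nwd P cC cD B C D R u v s) w) := by
      unfold cp
      rw [P.E_mul_ce hf]
      exact P.E_congr fun w _ => ind_and _ _
    rw [e1]
    unfold FP.Pr
    rw [← FP.E_smul]
    refine P.E_mono fun w _ => ?_
    rw [ind_and]
    by_cases h2 : tms P cC cD B C D R u v s w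
    · have h3 : u / 2 ≤ cp P (xb B cC cD) s (nwd P cC cD B C D R u v s) w := cp_nwT_ge h2
      rw [ind_of h2, mul_one]
      have := mul_le_mul_of_nonneg_left h3 (ind_nonneg (s ≤ σ w))
      linarith
    · rw [ind_not h2, mul_zero, mul_zero]
      exact mul_nonneg (ind_nonneg _) (cp_nonneg _ _ _)
  rw [Finset.mul_sum]
  refine (Finset.sum_le_sum fun s _ => h1 s).trans (le_of_eq ?_)
  unfold FP.Pr
  rw [← FP.E_sum]
  refine P.E_congr fun w _ => ?_
  rw [sum_ind' (A := fun s => s ≤ σ w ∧ nwd P cC cD B C D R u v s w) (fun s s' a b => nwd_one a.2 b.2)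
    (fun s a => lt_of_le_of_lt a.1 (hT w))]

/-- **an event with small conditional probability at the takings** -/
theorem late (H : Fr P B C D cB cC cD h) (u0 : 0 < u) (k0 : 0 ≤ kap) (hσ : Stp (nd cB cC cD) σ) (hT : ∀ w, σ w < T)
    {Λ N : ℕ → Om → Prop} (hN : ∀ s x w, xb B cC cD s x = xb B cC cD s w → (N s x ↔ N s w))
    (hΛ : ∀ s w, P.p w ≠ 0 → s ≤ σ w → tms P cC cD B C D R u v s w → ¬ N s w → cp P (xb B cC cD) s (Λ s) w ≤ kap) :
    P.Pr (fun w => ∃ s ≤ σ w, nwd P cC cD B C D R u v s w ∧ Λ s w) ≤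
      2 * kap / u * P.Pr (fun w => ∃ s ≤ σ w, nwd P cC cD B C D R u v s w) + P.Pr (fun w => ∃ s < T, N s w) := by
  classical
  have h1 : ∀ s, P.E (fun w => ind (s ≤ σ w ∧ nwd P cC cD B C D R u v s w ∧ Λ s w)) ≤
      P.E (fun w => ind (s ≤ σ w ∧ nwd P cC cD B C D R u v s w ∧ N s w)) +
        kap * P.Pr (fun w => s ≤ σ w ∧ tms P cC cD B C D R u v s w) := by
    intro s
    have hf : Fac (xb B cC cD s) (fun w => ind (s ≤ σ w ∧ tms P cC cD B C D R u v s w ∧ ¬ N s w)) :=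
      Fac.ind fun x w a => by
        have a' := xb_eq.1 a
        rw [Stp.nd_le H hσ (H.hB s x w a'.1) a'.2.1 a'.2.2, tms_fac a, hN s x w a]
    have h2 : P.E (fun w => ind (s ≤ σ w ∧ tms P cC cD B C D R u v s w ∧ ¬ N s w) * ind (Λ s w)) ≤
        kap * P.Pr (fun w => s ≤ σ w ∧ tms P cC cD B C D R u v s w) := by
      rw [← P.E_mul_ce hf]
      unfold FP.Pr
      rw [← FP.E_smul]
      refine P.E_mono fun w hw => ?_
      by_cases h3 : s ≤ σ w ∧ tms P cC cD B C D R u v s w ∧ ¬ N s w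
      · rw [ind_of h3, one_mul, ind_of (show s ≤ σ w ∧ tms P cC cD B C D R u v s w from ⟨h3.1, h3.2.1⟩), mul_one]
        exact hΛ s w hw h3.1 h3.2.1 h3.2.2
      · rw [ind_not h3, zero_mul]
        exact mul_nonneg k0 (ind_nonneg _)
    refine le_trans ?_ (add_le_add le_rfl h2)
    rw [← FP.E_add]
    refine P.E_mono fun w _ => ?_
    by_cases h3 : s ≤ σ w ∧ nwd P cC cD B C D R u v s w ∧ Λ s w
    · by_cases h4 : N s w
      · rw [ind_of h3, ind_of ⟨h3.1, h3.2.1, h4⟩]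
        have := mul_nonneg (ind_nonneg (s ≤ σ w ∧ tms P cC cD B C D R u v s w ∧ ¬ N s w)) (ind_nonneg (Λ s w))
        linarith
      · rw [ind_of h3, ind_of (show s ≤ σ w ∧ tms P cC cD B C D R u v s w ∧ ¬ N s w from ⟨h3.1, h3.2.1.2.2, h4⟩),
          ind_of h3.2.2, one_mul]
        have := ind_nonneg (s ≤ σ w ∧ nwd P cC cD B C D R u v s w ∧ N s w)
        linarith
    · rw [ind_not h3]
      exact add_nonneg (ind_nonneg _) (mul_nonneg (ind_nonneg _) (ind_nonneg _))
  have e1 : P.Pr (fun w => ∃ s ≤ σ w, nwd P cC cD B C D R u v s w ∧ Λ s w) =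
      ∑ s ∈ range T, P.E (fun w => ind (s ≤ σ w ∧ nwd P cC cD B C D R u v s w ∧ Λ s w)) := by
    unfold FP.Pr
    rw [← FP.E_sum]
    refine P.E_congr fun w _ => ?_
    rw [sum_ind' (A := fun s => s ≤ σ w ∧ nwd P cC cD B C D R u v s w ∧ Λ s w) (fun s s' a b => nwd_one a.2.1 b.2.1)
      (fun s a => lt_of_le_of_lt a.1 (hT w))]
  have e2 : ∑ s ∈ range T, P.E (fun w => ind (s ≤ σ w ∧ nwd P cC cD B C D R u v s w ∧ N s w)) ≤
      P.Pr (fun w => ∃ s < T, N s w) := by
    rw [← FP.E_sum]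
    refine P.E_mono fun w _ => ?_
    rw [sum_ind' (A := fun s => s ≤ σ w ∧ nwd P cC cD B C D R u v s w ∧ N s w) (fun s s' a b => nwd_one a.2.1 b.2.1)
      (fun s a => lt_of_le_of_lt a.1 (hT w))]
    exact ind_mono fun ⟨s, a, _, c⟩ => ⟨s, lt_of_le_of_lt a (hT w), c⟩
  have e3 := tms_le (R := R) (u := u) (v := v) H hσ hT
  rw [e1]
  refine (Finset.sum_le_sum fun s _ => h1 s).trans ?_
  rw [Finset.sum_add_distrib, ← Finset.mul_sum]
  have e4 : kap * ∑ s ∈ range T, P.Pr (fun w => s ≤ σ w ∧ tms P cC cD B C D R u v s w) ≤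
      2 * kap / u * P.Pr (fun w => ∃ s ≤ σ w, nwd P cC cD B C D R u v s w) := by
    have := mul_le_mul_of_nonneg_left e3 (show 0 ≤ 2 * kap / u by positivity)
    refine le_trans (le_of_eq ?_) this
    field_simp
  linarith

end

end Pool.Agent.GMH.Take
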