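import Pool.Agent.GMH.GhoP
import Pool.Agent.GMH.GhoZ
import Pool.Agent.GMH.GdyR
import Pool.Agent.GMH.Take

/-!
# GMH/GhoA (helper40): GHOST WORLDS AT FIXED `a` (note 4001), ASSEMBLY

`thin` : sampled exact vertices `z i` (copies of `U`), `G s` = heavy unreleased rows (seen by `(U, V)`), `Kt z s` =
greedy cover along the path of `V` by the sets `G` of the sampled points; pieces have mass `≥ u/2` (`piece`), for the
true `U` the uncovered part of `G s` has mass `≤ u/2` (`unc`) unless `badT` (`bad_z` : `≤ 2/(u (M+1))` in the mean).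
-/

set_option autoImplicit false
set_option linter.unusedSectionVars false

namespace Pool.Agent.GMH.GhoA

open Finset Pool.Agent.PWZ Pool.Agent.M3 Pool.Agent.GMH.Gdy Pool.Agent.GMH.CR Pool.Agent.GMH.Three
open Pool.Agent.GMH.Blk Pool.Agent.GMH.GhoT
open Pool.Agent.GMH.GhoZ (freezeV)

noncomputable section

/-! ## thin covers -/

section thin

variable {Om : Type*} [Fintype Om] (P : FP Om) {κ : ℕ → Type*} (cV : ∀ t, Om → κ t) {α γ ω : Type*} (U : Om → α)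
  (V : Om → ω) (G : ℕ → Om → Prop) (u : ℝ)

/-- the event `G s` with `U` replaced by `a` -/
def GF (a : α) (s : ℕ) (w : Om) : Prop := ∃ v, P.p v ≠ 0 ∧ U v = a ∧ V v = V w ∧ G s v

/-- **the thin cover** after the level `s` -/
def Kt {M : ℕ} (z : Fin M → α) (s : ℕ) (w : Om) : Prop := covT P cV u (rowsT (GF P U V G) z) M (s + 1) w

/-- the true `U` is badly covered -/
def bdt {M : ℕ} (z : Fin M → α) (T : ℕ) (w : Om) : Prop :=
  badT P cV u (rowsT (GF P U V G) z) M (GF P U V G (U w)) T w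

variable {P cV U V G u}

theorem GF_fac (a : α) (s : ℕ) (v w : Om) (h : V v = V w) : GF P U V G a s v ↔ GF P U V G a s w := by
  unfold GF
  rw [h]

theorem GF_iff (hG : ∀ s x w, U x = U w → V x = V w → (G s x ↔ G s w)) (s : ℕ) {w : Om} (hw : P.p w ≠ 0) :
    GF P U V G (U w) s w ↔ G s w :=
  ⟨fun ⟨v, _, h1, h2, h3⟩ => (hG s v w h1 h2).1 h3, fun h => ⟨w, hw, rfl, rfl, h⟩⟩

theorem rowsGF_fac {M : ℕ} (z : Fin M → α) (s r : ℕ) (v w : Om) (h : V v = V w) :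
    rowsT (GF P U V G) z s r v ↔ rowsT (GF P U V G) z s r w :=
  exists_congr fun _ => GF_fac _ s v w h

theorem Kt_facV (hV : ∀ s, Fac V (cV s)) {M : ℕ} (z : Fin M → α) (s : ℕ) (v w : Om) (h : V v = V w) :
    Kt P cV U V G u z s v ↔ Kt P cV U V G u z s w :=
  covT_facV hV (fun s r v w h => rowsGF_fac z s r v w h) (s + 1) v w h

theorem Kt_mono {M : ℕ} (z : Fin M → α) {s s' : ℕ} (h : s ≤ s') {w : Om} (hw : Kt P cV U V G u z s w) :
    Kt P cV U V G u z s' w := covT_mono (by omega) hw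

/-- first time in the cover = newly covered -/
theorem fst_Kt {M : ℕ} (z : Fin M → α) (s : ℕ) (w : Om) : fst (Kt P cV U V G u z) s w ↔
    (covT P cV u (rowsT (GF P U V G) z) M (s + 1) w ∧ ¬ covT P cV u (rowsT (GF P U V G) z) M s w) := by
  constructor
  · rintro ⟨h1, h2⟩
    refine ⟨h1, fun h3 => ?_⟩
    rcases Nat.eq_zero_or_pos s with rfl | hs
    · exact h3
    · obtain ⟨s', rfl⟩ : ∃ s', s = s' + 1 := ⟨s - 1, by omega⟩
      exact h2 s' (Nat.lt_succ_self _) h3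
  · rintro ⟨h1, h2⟩
    exact ⟨h1, fun s' hs' h3 => h2 (covT_mono (by omega) h3)⟩

/-- **the pieces are not small** -/
theorem piece {M : ℕ} (z : Fin M → α) (s : ℕ) {w : Om} :
    cp P cV s (fst (Kt P cV U V G u z) s) w ≤ 0 ∨ u / 2 ≤ cp P cV s (fst (Kt P cV U V G u z) s) w := by
  set H := rowsT (GF P U V G) z with hH
  have e1 : ∀ x, ind (fst (Kt P cV U V G u z) s x) = ∑ r ∈ range M, ind (nwT P cV u H M s r x) := by
    intro x
    have h1 := ind_covT_succ (P := P) (X := cV) (u := u) (H := H) (M := M) s x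
    by_cases h2 : covT P cV u H M s x
    · have h3 : covT P cV u H M (s + 1) x := covT_succ h2
      rw [ind_of h2, ind_of h3] at h1
      rw [ind_not fun h => ((fst_Kt z s x).1 h).2 h2]
      linarith
    · rw [ind_not h2, zero_add] at h1
      rw [← h1]
      congr 1
      exact propext ⟨fun h => ((fst_Kt z s x).1 h).1, fun h => (fst_Kt z s x).2 ⟨h, h2⟩⟩
  have e2 : cp P cV s (fst (Kt P cV U V G u z) s) w = ∑ r ∈ range M, cp P cV s (nwT P cV u H M s r) w := by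
    unfold cp
    rw [← P.ce_sum]
    exact P.ce_congr (fun x _ => e1 x) w
  rw [e2]
  by_cases h : ∃ r < M, tkT P cV u H M s r w
  · obtain ⟨r, hr, ht⟩ := h
    right
    exact (cp_nwT_ge ht).trans (Finset.single_le_sum (f := fun r => cp P cV s (nwT P cV u H M s r) w)
      (fun _ _ => cp_nonneg _ _ _) (mem_range.2 hr))
  · left
    refine (Finset.sum_nonpos fun r hr => ?_)
    rw [cp_nwT, ind_not (fun ht => h ⟨r, mem_range.1 hr, ht⟩), zero_mul]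

/-- **what the true vertex leaves uncovered** -/
theorem unc {U2 : Om → γ} (hI : P.Indep (fun w => (U w, U2 w)) V) (hV : ∀ s, Fac V (cV s))
    (hG : ∀ s x w, U x = U w → V x = V w → (G s x ↔ G s w)) {M : ℕ} (z : Fin M → α) {s T : ℕ} (hs : s < T) {w : Om}
    (hw : P.p w ≠ 0) (hb : ¬ bdt P cV U V G u z T w) :
    P.ce (fun x => ((U x, U2 x), cV s x)) (fun x => ind (G s x ∧ ¬ Kt P cV U V G u z s x)) w ≤ u / 2 := by
  have hF : ∀ a : α × γ, Fac V (fun x => ind (GF P U V G a.1 s x ∧ ¬ Kt P cV U V G u z s x)) := fun a =>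
    Fac.ind fun x y e => by rw [GF_fac a.1 s x y e, Kt_facV hV z s x y e]
  have h1 := freezeV (P := P) (U := fun w => (U w, U2 w)) (V := V) (X := cV s) hI (hV s)
    (F := fun a x => ind (GF P U V G a.1 s x ∧ ¬ Kt P cV U V G u z s x)) hF hw
  have h2 : P.ce (fun x => ((U x, U2 x), cV s x)) (fun x => ind (G s x ∧ ¬ Kt P cV U V G u z s x)) w =
      P.ce (fun x => ((U x, U2 x), cV s x)) (fun x => ind (GF P U V G (U x) s x ∧ ¬ Kt P cV U V G u z s x)) w :=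
    P.ce_congr (fun x hx => by rw [propext (GF_iff hG s hx)]) w
  rw [h2, h1]
  by_contra h3
  exact hb ⟨s, hs, (not_le.1 h3).le⟩

/-- the mean over the sample -/
theorem bad_z [Fintype α] (hI : P.Indep U V) (hV : ∀ s, Fac V (cV s)) (fV : Filt cV) (hu : 0 < u) (M T : ℕ) :
    ∑ z : Fin M → α, sw (fun a => P.Pr (fun w => U w = a)) z * P.Pr (bdt P cV U V G u z T) ≤ 2 / (u * (M + 1)) :=
  badT_le hI hV fV hu (GF P U V G) M T

end thin

/-! ## one side with its thin cover -/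

section side

variable {Om : Type*} [Fintype Om] {P : FP Om} {κ κv κy ν : ℕ → Type*} {cV : ∀ t, Om → κ t} {Vs : ∀ t, Om → κv t}
  {Y : ∀ t, Om → κy t} {nd : ∀ t, Om → ν t} {α γ ω ρ : Type*} {U : Om → α} {U2 : Om → γ} {V : Om → ω} {Z : Om → ρ}
  {R : Om → Prop} {u0 uc u g0 : ℝ} {σ : Om → ℕ} {T : ℕ} {A tk tl S : ℕ → Om → Prop}

variable (P Z R A tl S g0) in
/-- heavy and not released -/
def hvG (s : ℕ) (w : Om) : Prop := ¬ S s w ∧ ¬ lgt P Z A tl R g0 s w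

theorem hvG_fac (hZ1 : Fac (fun w => (U w, V w)) Z) (hS : ∀ s x w, Z x = Z w → (S s x ↔ S s w)) (s : ℕ) (x w : Om)
    (h1 : U x = U w) (h2 : V x = V w) : hvG P Z R g0 A tl S s x ↔ hvG P Z R g0 A tl S s w := by
  have h3 : Z x = Z w := hZ1 x w (by
    show (U x, V x) = (U w, V w)
    rw [h1, h2])
  unfold hvG
  rw [hS s x w h3, lgt_fac s x w h3]

/-- **ONE SIDE, WHAT IS NOT RELEASED**: light, uncovered, thin-covered -/
theorem side (hI : P.Indep (fun w => (U w, U2 w)) V) (hV : ∀ s, Fac V (cV s)) (fY : Filt Y)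
    (hY : ∀ s, Fac (Y s) (nd s)) (hY1 : ∀ s, Fac (Y s) (fun w => ((U w, U2 w), cV s w)))
    (hY2 : ∀ s, Fac (fun w => ((U w, U2 w), cV s w)) (Y s)) (fVs : Filt Vs) (hVs : ∀ s, Fac (Vs s) (nd s))
    (hVV : ∀ s, Fac (Vs s) V) (fnd : Filt nd)
    (hnd : ∀ s (f : Om → ℝ), Fac V f → ∀ w, P.p w ≠ 0 → P.ce (nd s) f w = P.ce (cV s) f w)
    (hZ1 : Fac (fun w => (U w, V w)) Z) (hS : ∀ s x w, Z x = Z w → (S s x ↔ S s w))
    (hσ : Stp nd σ) (hT : ∀ w, σ w < T) (c0 : 0 < uc) (u00 : 0 < u) (z0 : 0 ≤ u0) (g00 : 0 ≤ g0)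
    (A1 : ∀ w s s', A s w → A s' w → s = s') (Aσ : ∀ w s, A s w → s ≤ σ w) (Atk : ∀ w s, A s w → tk s w)
    (Aal : ∀ w s, A s w → al P nd R u0 s w)
    (l1 : ∀ w s s', tl s w → tl s' w → s = s') (lσ : ∀ w s, tl s w → s ≤ σ w)
    (k1 : ∀ w s s', tk s w → tk s' w → s = s') (kY : ∀ s x w, Y s x = Y s w → (tk s x ↔ tk s w))
    {M : ℕ} (z : Fin M → α) :
    P.Pr (fun w => R w ∧ ∃ s, A s w ∧ ¬ S s w) ≤
      g0 * P.Pr (fun w => ∃ s, tl s w) + (u / 2 * P.Pr (fun w => ∃ s ≤ σ w, tk s w) +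
        P.Pr (bdt P cV U V (hvG P Z R g0 A tl S) u z T)) +
        (uc + u0 / (uc * (u / 2))) * P.Pr (fun w => Kt P cV U V (hvG P Z R g0 A tl S) u z (σ w) w) := by
  classical
  set G := hvG P Z R g0 A tl S with hG
  have hGf : ∀ s x w, U x = U w → V x = V w → (G s x ↔ G s w) := fun s x w h1 h2 => hvG_fac hZ1 hS s x w h1 h2
  have h1 := side_left (P := P) (V := Vs) (Y := Y) (nd := nd) (R := R) (u0 := u0) (uc := uc) (uC := u / 2) (uD := u / 2)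
    (g0 := g0) (K := Kt P cV U V G u z) (σ := σ) (T := T) (Z := Z) (A := A) (tk := tk) (tl := tl) (S := S)
    (Bad := bdt P cV U V G u z T) fY hY fVs hVs fnd hσ hT c0 (by positivity) z0 g00 A1 Aσ Atk Aal l1 lσ k1 kY
    (fun s x w e => Kt_facV hV z s x w (hVV s x w e))
    (fun s w hw => by
      have e1 : cp P nd s (fst (Kt P cV U V G u z) s) w = cp P cV s (fst (Kt P cV U V G u z) s) w := by
        refine hnd s _ (Fac.ind fun x y e => ?_) w hw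
        rw [fst_Kt, fst_Kt]
        have e2 := fun t => covT_facV (P := P) (u := u) (M := M) hV
          (fun s r v w h => rowsGF_fac (P := P) (U := U) (G := G) z s r v w h) t x y e
        rw [e2, e2]
      rw [e1]
      exact piece z s)
    (fun s w hw htk hs => by
      have e1 : cp P Y s (fun x => (¬ S s x ∧ ¬ lgt P Z A tl R g0 s x) ∧ ∀ s' ≤ s, ¬ Kt P cV U V G u z s' x) w ≤
          cp P Y s (fun x => G s x ∧ ¬ Kt P cV U V G u z s x) w :=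
        cp_mono (fun x hx => ⟨hx.1, hx.2 s le_rfl⟩) w
      have e2 : cp P Y s (fun x => G s x ∧ ¬ Kt P cV U V G u z s x) w =
          P.ce (fun x => ((U x, U2 x), cV s x)) (fun x => ind (G s x ∧ ¬ Kt P cV U V G u z s x)) w :=
        P.ce_congr_map (hY1 s) (hY2 s) _ w
      have hsT : s < T := lt_of_le_of_lt hs (hT w)
      by_cases hb : bdt P cV U V G u z T w
      · rw [ind_of hb]
        have e3 : cp P Y s (fun x => (¬ S s x ∧ ¬ lgt P Z A tl R g0 s x) ∧ ∀ s' ≤ s, ¬ Kt P cV U V G u z s' x) w ≤ 1 :=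
          P.ce_le_const (fun _ _ => ind_le_one _) hw
        have : 0 < u / 2 := by positivity
        linarith
      · rw [ind_not hb, add_zero]
        exact e1.trans (e2 ▸ unc hI hV hGf z hsT hw hb))
  refine h1.trans ?_
  have h2 : P.Pr (fun w => ∃ s ≤ σ w, fst (Kt P cV U V G u z) s w) ≤
      P.Pr (fun w => Kt P cV U V G u z (σ w) w) := P.Pr_mono fun w _ ⟨s, hs, hf⟩ => Kt_mono z hs hf.1
  have h3 : 0 ≤ uc + u0 / (uc * (u / 2)) := by positivity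
  have h4 := mul_le_mul_of_nonneg_left h2 h3
  linarith

end side

/-! ## the frame: three vertices -/

section frame

open Pool.Agent.GMH.Take (xb bc xb_eq bc_eq xb_filt bc_filt bc_xb bc_nd xb_nd)

variable {Om : Type*} [Fintype Om] {P : FP Om} {κ κ' κ'' : ℕ → Type*} {cB : ∀ t, Om → κ t} {cC : ∀ t, Om → κ' t}
  {cD : ∀ t, Om → κ'' t} {α β δ : Type*} {B : Om → α} {C : Om → β} {D : Om → δ} {h : ℝ}

/-- a function of `c` -/
theorem ce_nC (H : Fr P B C D cB cC cD h) (s : ℕ) (f : Om → ℝ) (hf : Fac C f) (w : Om) (hw : P.p w ≠ 0) :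
    P.ce (nd cB cC cD s) f w = P.ce (cC s) f w := by
  have h1 := ce_pair (P := P) (U := fun w => (B w, D w)) (V := C) (cU := pair cB cD) (cV := cC) H.iC.symm
    (fun s v w e => by
      have e' : B v = B w ∧ D v = D w := Prod.mk.injEq _ _ _ _ ▸ e
      exact pair_eq.2 ⟨H.hB s v w e'.1, H.hD s v w e'.2⟩) H.hC s hf hw
  rw [← h1]
  exact P.ce_congr_map (fun v w e => by
    have e' := nd_eq.1 e
    exact pair_eq.2 ⟨pair_eq.2 ⟨e'.1, e'.2.2⟩, e'.2.1⟩) (fun v w e => by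
    have e' := pair_eq.1 e
    have e2 := pair_eq.1 e'.1
    exact nd_eq.2 ⟨e2.1, e'.2, e2.2⟩) f w

/-- a function of `d` -/
theorem ce_nD (H : Fr P B C D cB cC cD h) (s : ℕ) (f : Om → ℝ) (hf : Fac D f) (w : Om) (hw : P.p w ≠ 0) :
    P.ce (nd cB cC cD s) f w = P.ce (cD s) f w := by
  have h1 := ce_pair (P := P) (U := fun w => (B w, C w)) (V := D) (cU := pair cB cC) (cV := cD) H.iD
    (fun s v w e => by
      have e' : B v = B w ∧ C v = C w := Prod.mk.injEq _ _ _ _ ▸ e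
      exact pair_eq.2 ⟨H.hB s v w e'.1, H.hC s v w e'.2⟩) H.hD s hf hw
  rw [← h1]
  exact P.ce_congr_map (fun v w e => by
    have e' := nd_eq.1 e
    exact pair_eq.2 ⟨pair_eq.2 ⟨e'.1, e'.2.1⟩, e'.2.2⟩) (fun v w e => by
    have e' := pair_eq.1 e
    have e2 := pair_eq.1 e'.1
    exact nd_eq.2 ⟨e2.1, e2.2, e'.2⟩) f w

/-- a function of `(b, d)` at the exact `b` -/
theorem ce_xBD (H : Fr P B C D cB cC cD h) (s : ℕ) (f : Om → ℝ) (hf : Fac (fun w => (B w, D w)) f) (w : Om)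
    (hw : P.p w ≠ 0) : P.ce (xb B cC cD s) f w = P.ce (vc B cD s) f w := by
  have h1 := ce_pair (P := P) (U := C) (V := fun w => (B w, D w)) (cU := cC) (cV := vc B cD) H.iC H.hC
    (vc_hV H.hD) s hf hw
  rw [← h1]
  exact P.ce_congr_map (fun v w e => by
    have e' := xb_eq.1 e
    exact pair_eq.2 ⟨e'.2.1, vc_eq.2 ⟨e'.1, e'.2.2⟩⟩) (fun v w e => by
    have e' := pair_eq.1 e
    have e2 := vc_eq.1 e'.2
    exact xb_eq.2 ⟨e2.1, e'.1, e2.2⟩) f w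

/-- a function of `(b, c)` at the exact `b` -/
theorem ce_xBC (H : Fr P B C D cB cC cD h) (s : ℕ) (f : Om → ℝ) (hf : Fac (fun w => (B w, C w)) f) (w : Om)
    (hw : P.p w ≠ 0) : P.ce (xb B cC cD s) f w = P.ce (vc B cC s) f w := by
  have h1 := ce_pair (P := P) (U := D) (V := fun w => (B w, C w)) (cU := cD) (cV := vc B cC) H.iD.symm H.hD
    (vc_hV H.hC) s hf hw
  rw [← h1]
  exact P.ce_congr_map (fun v w e => by
    have e' := xb_eq.1 e
    exact pair_eq.2 ⟨e'.2.2, vc_eq.2 ⟨e'.1, e'.2.1⟩⟩) (fun v w e => by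
    have e' := pair_eq.1 e
    have e2 := vc_eq.1 e'.2
    exact xb_eq.2 ⟨e2.1, e2.2, e'.1⟩) f w

/-- at the exact `b` the points `c` and `d` are independent -/
theorem ci_frame (H : Fr P B C D cB cC cD h) : CI P (xb B cC cD) (bc B C cD) (bc B D cC) := by
  have h0 := ci (P := P) (cU := vc B cC) (cV := cD) (U := fun w => (B w, C w)) (V := D) H.iD (vc_hV H.hC) H.hD
  intro s f g hf hg w hw
  have h1 := h0 s f g (fun v w e => hf v w (by
    have e' : (B v, C v) = (B w, C w) ∧ cD s v = cD s w := Prod.mk.injEq _ _ _ _ ▸ e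
    have e2 : B v = B w ∧ C v = C w := Prod.mk.injEq _ _ _ _ ▸ e'.1
    exact bc_eq.2 ⟨e2.1, e2.2, e'.2⟩)) (fun v w e => hg v w (by
    have e' : D v = D w ∧ vc B cC s v = vc B cC s w := Prod.mk.injEq _ _ _ _ ▸ e
    have e2 := vc_eq.1 e'.2
    exact bc_eq.2 ⟨e2.1, e'.1, e2.2⟩)) w hw
  have c1 : ∀ f : Om → ℝ, P.ce (xb B cC cD s) f w = P.ce (pair (vc B cC) cD s) f w := fun f =>
    P.ce_congr_map (fun v w e => by
      have e' := xb_eq.1 e
      exact pair_eq.2 ⟨vc_eq.2 ⟨e'.1, e'.2.1⟩, e'.2.2⟩) (fun v w e => by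
      have e' := pair_eq.1 e
      have e2 := vc_eq.1 e'.1
      exact xb_eq.2 ⟨e2.1, e2.2, e'.2⟩) f w
  rw [c1, c1, c1]
  exact h1

theorem m_prod {κ1 κ2 α1 α2 : Type*} {U : Om → α1} {V : Om → α2} {X : Om → κ1} {Y : Om → κ2} (hI : P.Indep U V)
    (hX : Fac U X) (hY : Fac V Y) (w : Om) : P.m (fun v => (X v, Y v)) w = P.m X w * P.m Y w := by
  unfold FP.m
  rw [← hI (fun v => ind (X v = X w)) (fun v => ind (Y v = Y w)) (Fac.ind fun v v' e => by rw [hX v v' e])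
    (Fac.ind fun v v' e => by rw [hY v v' e])]
  refine P.E_congr fun v _ => ?_
  rw [Prod.mk.injEq, ind_and]

/-- the node at the exact `b` shrinks by at most the factor `h ^ 2` -/
theorem m_xb (H : Fr P B C D cB cC cD h) (mD : ∀ s w, P.p w ≠ 0 → P.m (cD s) w ≤ h * P.m (cD (s + 1)) w) (s : ℕ)
    (w : Om) (hw : P.p w ≠ 0) : P.m (xb B cC cD s) w ≤ h ^ 2 * P.m (xb B cC cD (s + 1)) w := by
  have h1 : ∀ t, P.m (xb B cC cD t) w = P.m B w * (P.m (cC t) w * P.m (cD t) w) := fun t => by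
    have e1 := m_prod (P := P) (X := B) (Y := fun v => (cC t v, cD t v)) H.iB (Fac.refl B) (fun v v' e => by
      have e' : C v = C v' ∧ D v = D v' := Prod.mk.injEq _ _ _ _ ▸ e
      show (cC t v, cD t v) = (cC t v', cD t v')
      rw [H.hC t v v' e'.1, H.hD t v v' e'.2]) w
    have hCD : P.Indep C D := H.iC.mono (Fac.refl C) fun v w e =>
      (Prod.mk.injEq _ _ _ _ ▸ e : B v = B w ∧ D v = D w).2
    have e2 := m_prod (P := P) (X := cC t) (Y := cD t) hCD (H.hC t) (H.hD t) w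
    rw [← e2, ← e1]
    rfl
  rw [h1, h1]
  have b0 : 0 ≤ P.m B w := P.m_nonneg _ _
  have c0 : 0 ≤ P.m (cC s) w := P.m_nonneg _ _
  have d0 : 0 ≤ P.m (cD s) w := P.m_nonneg _ _
  have c1 : 0 ≤ P.m (cC (s + 1)) w := P.m_nonneg _ _
  have h2 : P.m (cC s) w * P.m (cD s) w ≤ (h * P.m (cC (s + 1)) w) * (h * P.m (cD (s + 1)) w) :=
    mul_le_mul (H.mC s w hw) (mD s w hw) d0 (mul_nonneg H.h0 c1)
  have h3 := mul_le_mul_of_nonneg_left h2 b0
  calc P.m B w * (P.m (cC s) w * P.m (cD s) w) ≤ _ := h3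
    _ = _ := by ring

variable {R : Om → Prop} {q u0 g0 g0' uc u Lr : ℝ} {σ : Om → ℕ} {T : ℕ} {Cc Cd Sk : ℕ → Om → Prop} {ψ : Om → ℝ}

variable (P cB cC cD B R q u0 σ) in
/-- `T^b = s ≤ σ`, `s < T^0` -/
def tkb (s : ℕ) (w : Om) : Prop := tk P (xb B cC cD) (nd cB cC cD) R q u0 σ s w

variable (P cB cC cD B R q u0 σ Cd) in
/-- rows: `d` is not covered -/
def rw (s : ℕ) (w : Om) : Prop := Ar P (xb B cC cD) (nd cB cC cD) R q u0 σ Cd s w

variable (P cB cC cD B R q u0 σ Cc Cd) in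
/-- columns: `d` is covered, `c` is not -/
def cl (s : ℕ) (w : Om) : Prop := Ak P (xb B cC cD) (nd cB cC cD) R q u0 σ Cc Cd s w

variable (P cB cC cD B C R q u0 σ Cd Lr ψ) in
/-- the decision of the row -/
def dR (s : ℕ) (w : Om) : Prop :=
  dec P R Lr (fun w => (B w, C w)) (rw P cB cC cD B R q u0 σ Cd) ψ s w

variable (P cB cC cD B D R q u0 σ Cc Cd Lr ψ) in
/-- the signed decision of the column -/
def dK (s : ℕ) (w : Om) : Prop :=
  dec P R Lr (fun w => (B w, D w)) (cl P cB cC cD B R q u0 σ Cc Cd) ψ s w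

variable (P cB cC cD B C R q u0 σ Cd Lr ψ g0) in
/-- heavy rows which are not released -/
def hR (s : ℕ) (w : Om) : Prop :=
  hvG P (fun w => (B w, C w)) R g0 (rw P cB cC cD B R q u0 σ Cd) (tkb P cB cC cD B R q u0 σ)
    (dR P cB cC cD B C R q u0 Lr σ Cd ψ) s w

variable (P cB cC cD B D R q u0 σ Cc Cd g0' Sk) in
/-- heavy columns which are not released, decision `Sk` -/
def hK (s : ℕ) (w : Om) : Prop :=
  hvG P (fun w => (B w, D w)) R g0' (cl P cB cC cD B R q u0 σ Cc Cd)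
    (fun s w => tkb P cB cC cD B R q u0 σ s w ∧ Cd s w) Sk s w

/-- **ROWS, WHAT IS NOT RELEASED** -/
theorem rows_left (H : Fr P B C D cB cC cD h) (hσ : Stp (nd cB cC cD) σ) (hT : ∀ w, σ w < T) (c0 : 0 < uc)
    (u00 : 0 < u) (z0 : 0 ≤ u0) (g00 : 0 ≤ g0) {M : ℕ} (z : Fin M → α) :
    P.Pr (fun w => R w ∧ ∃ s, rw P cB cC cD B R q u0 σ Cd s w ∧ ¬ dR P cB cC cD B C R q u0 Lr σ Cd ψ s w) ≤
      g0 * P.Pr (fun w => ∃ s, tkb P cB cC cD B R q u0 σ s w) +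
        (u / 2 * P.Pr (fun w => ∃ s ≤ σ w, tkb P cB cC cD B R q u0 σ s w) +
          P.Pr (bdt P cC B C (hR P cB cC cD B C R q u0 g0 Lr σ Cd ψ) u z T)) +
        (uc + u0 / (uc * (u / 2))) *
          P.Pr (fun w => Kt P cC B C (hR P cB cC cD B C R q u0 g0 Lr σ Cd ψ) u z (σ w) w) :=
  side (P := P) (cV := cC) (U := B) (U2 := D) (V := C) (Vs := xb C cB cD) (Y := bc B D cC) (nd := nd cB cC cD)
    (Z := fun w => (B w, C w)) (R := R) (u0 := u0) (uc := uc) (u := u) (g0 := g0) (σ := σ) (T := T)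
    (A := rw P cB cC cD B R q u0 σ Cd) (tk := tkb P cB cC cD B R q u0 σ) (tl := tkb P cB cC cD B R q u0 σ)
    (S := dR P cB cC cD B C R q u0 Lr σ Cd ψ) H.iC.symm H.hC
    (fun t v w e => by
      have e' := bc_eq.1 e
      exact bc_eq.2 ⟨e'.1, e'.2.1, H.fC t v w e'.2.2⟩)
    (fun s v w e => by
      have e' := bc_eq.1 e
      exact nd_eq.2 ⟨H.hB s v w e'.1, e'.2.2, H.hD s v w e'.2.1⟩)
    (fun s v w e => by
      have e' := bc_eq.1 e
      show ((B v, D v), cC s v) = ((B w, D w), cC s w)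
      rw [e'.1, e'.2.1, e'.2.2])
    (fun s v w e => by
      have e' : (B v, D v) = (B w, D w) ∧ cC s v = cC s w := Prod.mk.injEq _ _ _ _ ▸ e
      have e2 : B v = B w ∧ D v = D w := Prod.mk.injEq _ _ _ _ ▸ e'.1
      exact bc_eq.2 ⟨e2.1, e2.2, e'.2⟩)
    (fun t v w e => by
      have e' := xb_eq.1 e
      exact xb_eq.2 ⟨e'.1, H.fB t v w e'.2.1, H.fD t v w e'.2.2⟩)
    (fun s v w e => by
      have e' := xb_eq.1 e
      exact nd_eq.2 ⟨e'.2.1, H.hC s v w e'.1, e'.2.2⟩)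
    (fun s v w e => (xb_eq.1 e).1) (nd_filt H.fB H.fC H.fD) (ce_nC H) (Fac.refl _)
    (fun s x w e => dec_fac s x w e) hσ hT c0 u00 z0 g00 (fun w s s' a b => Ar_one w s s' a b) (fun w s a => a.1.2)
    (fun w s a => a.1) (fun w s a => a.1.1.2) (fun w s s' a b => tk_one w s s' a b) (fun w s a => a.2)
    (fun w s s' a b => tk_one w s s' a b)
    (fun s x w e => tk_fac (Y := bc B D cC) (xb_filt H) (nd_filt H.fB H.fC H.fD) (fun s v w e => xb_nd H e)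
      (fun s v w e => by
        have e' := bc_eq.1 e
        exact xb_eq.2 ⟨e'.1, e'.2.2, H.hD s v w e'.2.1⟩) hσ s x w e) z

/-- **COLUMNS, WHAT IS NOT RELEASED**, any decision `Sk` seen by `(b, d)` (signed: `dK`; unsigned: `False`) -/
theorem cols_left (H : Fr P B C D cB cC cD h) (hσ : Stp (nd cB cC cD) σ) (hT : ∀ w, σ w < T) (c0 : 0 < uc)
    (u00 : 0 < u) (z0 : 0 ≤ u0) (g00 : 0 ≤ g0')
    (hS : ∀ s x w, (B x, D x) = (B w, D w) → (Sk s x ↔ Sk s w)) {M : ℕ} (z : Fin M → α) :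
    P.Pr (fun w => R w ∧ ∃ s, cl P cB cC cD B R q u0 σ Cc Cd s w ∧ ¬ Sk s w) ≤
      g0' * P.Pr (fun w => ∃ s, tkb P cB cC cD B R q u0 σ s w ∧ Cd s w) +
        (u / 2 * P.Pr (fun w => ∃ s ≤ σ w, tkb P cB cC cD B R q u0 σ s w) +
          P.Pr (bdt P cD B D (hK P cB cC cD B D R q u0 g0' σ Cc Cd Sk) u z T)) +
        (uc + u0 / (uc * (u / 2))) *
          P.Pr (fun w => Kt P cD B D (hK P cB cC cD B D R q u0 g0' σ Cc Cd Sk) u z (σ w) w) :=
  side (P := P) (cV := cD) (U := B) (U2 := C) (V := D) (Vs := xb D cB cC) (Y := bc B C cD) (nd := nd cB cC cD)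
    (Z := fun w => (B w, D w)) (R := R) (u0 := u0) (uc := uc) (u := u) (g0 := g0') (σ := σ) (T := T)
    (A := cl P cB cC cD B R q u0 σ Cc Cd) (tk := tkb P cB cC cD B R q u0 σ)
    (tl := fun s w => tkb P cB cC cD B R q u0 σ s w ∧ Cd s w) (S := Sk) H.iD H.hD
    (bc_filt H) (fun s v w e => bc_nd H e)
    (fun s v w e => by
      have e' := bc_eq.1 e
      show ((B v, C v), cD s v) = ((B w, C w), cD s w)
      rw [e'.1, e'.2.1, e'.2.2])
    (fun s v w e => by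
      have e' : (B v, C v) = (B w, C w) ∧ cD s v = cD s w := Prod.mk.injEq _ _ _ _ ▸ e
      have e2 : B v = B w ∧ C v = C w := Prod.mk.injEq _ _ _ _ ▸ e'.1
      exact bc_eq.2 ⟨e2.1, e2.2, e'.2⟩)
    (fun t v w e => by
      have e' := xb_eq.1 e
      exact xb_eq.2 ⟨e'.1, H.fB t v w e'.2.1, H.fC t v w e'.2.2⟩)
    (fun s v w e => by
      have e' := xb_eq.1 e
      exact nd_eq.2 ⟨e'.2.1, e'.2.2, H.hD s v w e'.1⟩)
    (fun s v w e => (xb_eq.1 e).1) (nd_filt H.fB H.fC H.fD) (ce_nD H) (Fac.refl _)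
    hS hσ hT c0 u00 z0 g00 (fun w s s' a b => Ak_one w s s' a b) (fun w s a => a.1.2)
    (fun w s a => a.1) (fun w s a => a.1.1.2) (fun w s s' a b => tk_one w s s' a.1 b.1) (fun w s a => a.1.2)
    (fun w s s' a b => tk_one w s s' a b)
    (fun s x w e => tk_fac (Y := bc B C cD) (xb_filt H) (nd_filt H.fB H.fC H.fD) (fun s v w e => xb_nd H e)
      (bc_xb H) hσ s x w e) z

/-- a rule of the public nodes is a rule of the exact nodes -/
theorem stpx (H : Fr P B C D cB cC cD h) (hσ : Stp (nd cB cC cD) σ) : Stp (xb B cC cD) σ :=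
  fun s v w e => hσ s v w (xb_nd H e)

theorem bc_BC (s : ℕ) (x w : Om) (e : bc B C cD s x = bc B C cD s w) : (B x, C x) = (B w, C w) := by
  have e' := bc_eq.1 e
  rw [e'.1, e'.2.1]

theorem bc_BD (s : ℕ) (x w : Om) (e : bc B D cC s x = bc B D cC s w) : (B x, D x) = (B w, D w) := by
  have e' := bc_eq.1 e
  rw [e'.1, e'.2.1]

/-- **BOTH COVERED** -/
theorem both (H : Fr P B C D cB cC cD h) (mD : ∀ s w, P.p w ≠ 0 → P.m (cD s) w ≤ h * P.m (cD (s + 1)) w)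
    (hσ : Stp (nd cB cC cD) σ) (hT : ∀ w, σ w < T) (hCc : ∀ s x w, (B x, C x) = (B w, C w) → (Cc s x ↔ Cc s w))
    (hCd : ∀ s x w, (B x, D x) = (B w, D w) → (Cd s x ↔ Cd s w)) :
    P.Pr (fun w => R w ∧ ∃ s ≤ σ w, Tb P (xb B cC cD) R q s w ∧ Cc s w ∧ Cd s w) ≤
      Real.sqrt (h ^ 2 * q) * ((P.Pr (fun w => ∃ s ≤ σ w, Tb P (xb B cC cD) R q s w ∧ Cc s w) +
        P.Pr (fun w => ∃ s ≤ σ w, Tb P (xb B cC cD) R q s w ∧ Cd s w)) / 2) +
      P.Pr (fun w => R w ∧ q ≤ cp P (xb B cC cD) 0 R w) :=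
  block (ci_frame H) (xb_filt H) (stpx H hσ) hT (by have := H.h0; positivity)
    (fun s w hw => m_xb H mD s w hw) (fun s x w e => hCc s x w (bc_BC s x w e))
    (fun s x w e => hCd s x w (bc_BD s x w e))

/-- **THE SAMPLED ROWS ARE GOOD** in the mean -/
theorem bad_rows [Fintype α] (H : Fr P B C D cB cC cD h) (u00 : 0 < u) (M T : ℕ) (G : ℕ → Om → Prop) :
    ∑ z : Fin M → α, sw (fun a => P.Pr (fun w => B w = a)) z * P.Pr (bdt P cC B C G u z T) ≤ 2 / (u * (M + 1)) :=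
  bad_z (H.iB.mono (Fac.refl B) fun v w e => (Prod.mk.injEq _ _ _ _ ▸ e : C v = C w ∧ D v = D w).1) H.hC H.fC u00 M T

theorem bad_cols [Fintype α] (H : Fr P B C D cB cC cD h) (u00 : 0 < u) (M T : ℕ) (G : ℕ → Om → Prop) :
    ∑ z : Fin M → α, sw (fun a => P.Pr (fun w => B w = a)) z * P.Pr (bdt P cD B D G u z T) ≤ 2 / (u * (M + 1)) :=
  bad_z (H.iB.mono (Fac.refl B) fun v w e => (Prod.mk.injEq _ _ _ _ ▸ e : C v = C w ∧ D v = D w).2) H.hD H.fD u00 M T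

/-! ### foreign covers and their payment -/

section pay

open Pool.Agent.GMH.GdyR (covL PhL covL_mono covL_change covL_facV)

variable {ρ : Type*} {Hd : ℕ → ρ → Om → Prop} {fd : ρ → Om → ℝ} {mu lam : ℝ} {K n : ℕ} {xd : Fin n → ρ}

/-- **PAYMENT OF THE FOREIGN ROWS** : `d` covered at the vertex time -/
theorem pay_d (H : Fr P B C D cB cC cD h) (hσ : Stp (nd cB cC cD) σ) (hK : 0 < K) (l0 : 0 ≤ lam)
    (hH : ∀ s a v w, (B v, D v) = (B w, D w) → (Hd s a v ↔ Hd s a w)) (hf : ∀ a, Fac (fun w => (B w, D w)) (fd a)) :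
    lam * P.Pr (fun w => ∃ s ≤ σ w, Tb P (xb B cC cD) R q s w ∧ covL P (vc B cD) Hd fd mu lam K xd s w) ≤
      2 * P.E (fun w => PhL P (xb B cC cD) Hd fd mu lam K xd (σ w) w) := by
  refine le_trans (mul_le_mul_of_nonneg_left (P.Pr_mono fun w hw => ?_) l0)
    (GdyR.pay (P := P) (X := xb B cC cD) (H := Hd) (f := fd) (kap := mu) (lam := lam) (x := xd) (xb_filt H) hK l0
      (stpx H hσ))
  rintro ⟨s, h1, _, h2⟩
  exact (covL_change (V := fun w => (B w, D w)) (ce_xBD H) (vc_hV H.hD) hH hf (σ w) hw).2 (covL_mono h1 h2)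

/-- **PAYMENT OF THE FOREIGN COLUMNS** : `c` covered at the vertex time -/
theorem pay_c (H : Fr P B C D cB cC cD h) (hσ : Stp (nd cB cC cD) σ) (hK : 0 < K) (l0 : 0 ≤ lam)
    (hH : ∀ s a v w, (B v, C v) = (B w, C w) → (Hd s a v ↔ Hd s a w)) (hf : ∀ a, Fac (fun w => (B w, C w)) (fd a)) :
    lam * P.Pr (fun w => ∃ s ≤ σ w, Tb P (xb B cC cD) R q s w ∧ covL P (vc B cC) Hd fd mu lam K xd s w) ≤
      2 * P.E (fun w => PhL P (xb B cC cD) Hd fd mu lam K xd (σ w) w) := by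
  refine le_trans (mul_le_mul_of_nonneg_left (P.Pr_mono fun w hw => ?_) l0)
    (GdyR.pay (P := P) (X := xb B cC cD) (H := Hd) (f := fd) (kap := mu) (lam := lam) (x := xd) (xb_filt H) hK l0
      (stpx H hσ))
  rintro ⟨s, h1, _, h2⟩
  exact (covL_change (V := fun w => (B w, C w)) (ce_xBC H) (vc_hV H.hC) hH hf (σ w) hw).2 (covL_mono h1 h2)

end pay

/-! ### one epoch at the exact `b`: the tuples after the vertex time, at the removals -/

variable {rm nr : Om → Prop} {y Cn L : ℝ}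

/-- the cases -/
theorem cases {w : Om} (hR : R w) {s : ℕ} (ht : tkb P cB cC cD B R q u0 σ s w) (Sr : ℕ → Om → Prop) :
    ((∃ s, rw P cB cC cD B R q u0 σ Cd s w ∧ Sr s w) ∨
      (R w ∧ ∃ s, rw P cB cC cD B R q u0 σ Cd s w ∧ ¬ Sr s w)) ∨
    ((∃ s, cl P cB cC cD B R q u0 σ Cc Cd s w ∧ Sk s w) ∨
      (R w ∧ ∃ s, cl P cB cC cD B R q u0 σ Cc Cd s w ∧ ¬ Sk s w)) ∨
    (R w ∧ ∃ s ≤ σ w, Tb P (xb B cC cD) R q s w ∧ Cc s w ∧ Cd s w) := by
  by_cases h1 : Cd s w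
  · by_cases h2 : Cc s w
    · exact Or.inr (Or.inr ⟨hR, s, ht.2, ht.1.1, h2, h1⟩)
    · by_cases h3 : Sk s w
      · exact Or.inr (Or.inl (Or.inl ⟨s, ⟨ht, h1, h2⟩, h3⟩))
      · exact Or.inr (Or.inl (Or.inr ⟨hR, s, ⟨ht, h1, h2⟩, h3⟩))
  · by_cases h3 : Sr s w
    · exact Or.inl (Or.inl ⟨s, ⟨ht, h1⟩, h3⟩)
    · exact Or.inl (Or.inr ⟨hR, s, ⟨ht, h1⟩, h3⟩)

/-- splitting of the tuples after the vertex time (`s < T^0`), at the removals -/
theorem split (L0' : 0 ≤ L) (hL : ∀ w, ψ w ≤ L) (Sr : ℕ → Om → Prop) :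
    P.E (fun w => ind (rm w ∧ (R w ∧ ∃ s, tkb P cB cC cD B R q u0 σ s w)) * ψ w) ≤
      P.E (fun w => ind (rm w ∧ (R w ∧ ∃ s, rw P cB cC cD B R q u0 σ Cd s w ∧ Sr s w)) * ψ w) +
      P.E (fun w => ind (rm w ∧ (R w ∧ ∃ s, cl P cB cC cD B R q u0 σ Cc Cd s w ∧ Sk s w)) * ψ w) +
      L * (P.Pr (fun w => R w ∧ ∃ s, rw P cB cC cD B R q u0 σ Cd s w ∧ ¬ Sr s w) +
        P.Pr (fun w => R w ∧ ∃ s, cl P cB cC cD B R q u0 σ Cc Cd s w ∧ ¬ Sk s w) +
        P.Pr (fun w => R w ∧ ∃ s ≤ σ w, Tb P (xb B cC cD) R q s w ∧ Cc s w ∧ Cd s w)) := by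
  classical
  have eR : ∀ (f g : Om → ℝ) (A1 A2 A3 : Om → Prop), P.E f + P.E g + L * (P.Pr A1 + P.Pr A2 + P.Pr A3) =
      P.E (fun w => f w + g w + L * (ind (A1 w) + ind (A2 w) + ind (A3 w))) := fun f g A1 A2 A3 => by
    rw [P.E_add, P.E_add, P.E_smul, P.E_add, P.E_add]
    rfl
  rw [eR]
  refine P.E_mono fun w _ => ?_
  have p1 := ind_nonneg (R w ∧ ∃ s, rw P cB cC cD B R q u0 σ Cd s w ∧ ¬ Sr s w)
  have p2 := ind_nonneg (R w ∧ ∃ s, cl P cB cC cD B R q u0 σ Cc Cd s w ∧ ¬ Sk s w)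
  have p3 := ind_nonneg (R w ∧ ∃ s ≤ σ w, Tb P (xb B cC cD) R q s w ∧ Cc s w ∧ Cd s w)
  have p4 : 0 ≤ L * (ind (R w ∧ ∃ s, rw P cB cC cD B R q u0 σ Cd s w ∧ ¬ Sr s w) +
      ind (R w ∧ ∃ s, cl P cB cC cD B R q u0 σ Cc Cd s w ∧ ¬ Sk s w) +
      ind (R w ∧ ∃ s ≤ σ w, Tb P (xb B cC cD) R q s w ∧ Cc s w ∧ Cd s w)) := by positivity
  by_cases h0 : rm w ∧ (R w ∧ ∃ s, tkb P cB cC cD B R q u0 σ s w)
  · obtain ⟨hr, hR, s, ht⟩ := h0
    rw [ind_of (show rm w ∧ (R w ∧ ∃ s, tkb P cB cC cD B R q u0 σ s w) from ⟨hr, hR, s, ht⟩), one_mul]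
    -- rows and columns exclude each other
    have e12 : (∃ s, rw P cB cC cD B R q u0 σ Cd s w ∧ Sr s w) →
        (∃ s, cl P cB cC cD B R q u0 σ Cc Cd s w ∧ Sk s w) → False := by
      rintro ⟨s1, a1, _⟩ ⟨s2, a2, _⟩
      obtain rfl := tk_one w s1 s2 a1.1 a2.1
      exact a1.2 a2.2.1
    have hl := hL w
    have big : ∀ A : Prop, A → (A = (R w ∧ ∃ s, rw P cB cC cD B R q u0 σ Cd s w ∧ ¬ Sr s w) ∨
        A = (R w ∧ ∃ s, cl P cB cC cD B R q u0 σ Cc Cd s w ∧ ¬ Sk s w) ∨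
        A = (R w ∧ ∃ s ≤ σ w, Tb P (xb B cC cD) R q s w ∧ Cc s w ∧ Cd s w)) →
        L ≤ L * (ind (R w ∧ ∃ s, rw P cB cC cD B R q u0 σ Cd s w ∧ ¬ Sr s w) +
          ind (R w ∧ ∃ s, cl P cB cC cD B R q u0 σ Cc Cd s w ∧ ¬ Sk s w) +
          ind (R w ∧ ∃ s ≤ σ w, Tb P (xb B cC cD) R q s w ∧ Cc s w ∧ Cd s w)) := by
      intro A hA hAe
      have h1 : 1 ≤ ind (R w ∧ ∃ s, rw P cB cC cD B R q u0 σ Cd s w ∧ ¬ Sr s w) +
          ind (R w ∧ ∃ s, cl P cB cC cD B R q u0 σ Cc Cd s w ∧ ¬ Sk s w) +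
          ind (R w ∧ ∃ s ≤ σ w, Tb P (xb B cC cD) R q s w ∧ Cc s w ∧ Cd s w) := by
        rcases hAe with e | e | e
        · rw [← e, ind_of hA]
          linarith
        · rw [← e, ind_of hA]
          linarith
        · rw [← e, ind_of hA]
          linarith
      calc L = L * 1 := (mul_one L).symm
        _ ≤ _ := mul_le_mul_of_nonneg_left h1 L0'
    by_cases c1 : ∃ s, rw P cB cC cD B R q u0 σ Cd s w ∧ Sr s w
    · rw [ind_of (show rm w ∧ (R w ∧ ∃ s, rw P cB cC cD B R q u0 σ Cd s w ∧ Sr s w) from ⟨hr, hR, c1⟩),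
        ind_not (fun a => e12 c1 a.2.2 : ¬ (rm w ∧ (R w ∧ ∃ s, cl P cB cC cD B R q u0 σ Cc Cd s w ∧ Sk s w))),
        one_mul, zero_mul, add_zero]
      linarith
    · rw [ind_not (fun a => c1 a.2.2 : ¬ (rm w ∧ (R w ∧ ∃ s, rw P cB cC cD B R q u0 σ Cd s w ∧ Sr s w))), zero_mul,
        zero_add]
      by_cases c2 : ∃ s, cl P cB cC cD B R q u0 σ Cc Cd s w ∧ Sk s w
      · rw [ind_of (show rm w ∧ (R w ∧ ∃ s, cl P cB cC cD B R q u0 σ Cc Cd s w ∧ Sk s w) from ⟨hr, hR, c2⟩), one_mul]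
        linarith
      · rw [ind_not (fun a => c2 a.2.2 : ¬ (rm w ∧ (R w ∧ ∃ s, cl P cB cC cD B R q u0 σ Cc Cd s w ∧ Sk s w))),
          zero_mul, zero_add]
        rcases cases (Cc := Cc) (Cd := Cd) (Sk := Sk) hR ht Sr with (a | a) | (a | a) | a
        · exact absurd a c1
        · exact hl.trans (big _ a (Or.inl rfl))
        · exact absurd a c2
        · exact hl.trans (big _ a (Or.inr (Or.inl rfl)))
        · exact hl.trans (big _ a (Or.inr (Or.inr rfl)))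
  · rw [ind_not h0, zero_mul]
    have n1 : (rm w ∧ (R w ∧ ∃ s, rw P cB cC cD B R q u0 σ Cd s w ∧ Sr s w)) → False := fun ⟨a, b, s, c, _⟩ =>
      h0 ⟨a, b, s, c.1⟩
    have n2 : (rm w ∧ (R w ∧ ∃ s, cl P cB cC cD B R q u0 σ Cc Cd s w ∧ Sk s w)) → False := fun ⟨a, b, s, c, _⟩ =>
      h0 ⟨a, b, s, c.1⟩
    rw [ind_not n1, ind_not n2, zero_mul]
    linarith

/-- **ONE EPOCH, SIGNED ROWS AND SIGNED COLUMNS** -/
theorem epoch_rc (H : Fr P B C D cB cC cD h) (hσ : Stp (nd cB cC cD) σ) (hT : ∀ w, σ w < T) (y0 : 0 ≤ y)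
    (Lr0 : 0 ≤ Lr) (C0 : 0 ≤ Cn) (L0' : 0 ≤ L) (hL : ∀ w, ψ w ≤ L) (hψ : ∀ w, -Cn ≤ ψ w)
    (hnr : ∀ s x w, xb B cC cD s x = xb B cC cD s w → σ w = s → (nr x ↔ nr w)) (hrn : ∀ w, rm w ∨ nr w)
    (hd : ∀ w, P.p w ≠ 0 → nr w → (∃ s ≤ σ w, Tb P (xb B cC cD) R q s w) → cp P (xb B cC cD) (σ w) R w ≤ y) :
    P.E (fun w => ind (rm w ∧ (R w ∧ ∃ s, tkb P cB cC cD B R q u0 σ s w)) * ψ w) ≤
      Lr * P.Pr (fun w => rm w ∧ R w ∧ ∃ s ≤ σ w, Tb P (xb B cC cD) R q s w) +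
        (Lr + Cn) * y * P.Pr (fun w => ∃ s ≤ σ w, Tb P (xb B cC cD) R q s w) +
      L * (P.Pr (fun w => R w ∧ ∃ s, rw P cB cC cD B R q u0 σ Cd s w ∧ ¬ dR P cB cC cD B C R q u0 Lr σ Cd ψ s w) +
        P.Pr (fun w => R w ∧ ∃ s, cl P cB cC cD B R q u0 σ Cc Cd s w ∧ ¬ dK P cB cC cD B D R q u0 Lr σ Cc Cd ψ s w) +
        P.Pr (fun w => R w ∧ ∃ s ≤ σ w, Tb P (xb B cC cD) R q s w ∧ Cc s w ∧ Cd s w)) := by
  have h1 := split (P := P) (cB := cB) (cC := cC) (cD := cD) (B := B) (R := R) (q := q) (u0 := u0) (σ := σ) (Cc := Cc)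
    (Cd := Cd) (Sk := dK P cB cC cD B D R q u0 Lr σ Cc Cd ψ) (ψ := ψ) (rm := rm) L0' hL
    (dR P cB cC cD B C R q u0 Lr σ Cd ψ)
  have h2 := GhoP.gho_epoch (P := P) (N := xb B cC cD) (nd := nd cB cC cD) (R := R) (q := q) (y := y) (u0 := u0)
    (L := Lr) (Cn := Cn) (σ := σ) (T := T) (rm := rm) (nr := nr) (Cc := Cc) (Cd := Cd) (ψ := ψ)
    (Zr := fun w => (B w, C w)) (Zk := fun w => (B w, D w)) (xb_filt H) (stpx H hσ) hT y0
    Lr0 C0 hnr hrn hd hψ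
  exact h1.trans (add_le_add h2 le_rfl)

/-- **ONE EPOCH, SIGNED ROWS ONLY** (what is left of the columns is dropped) -/
theorem epoch_r (H : Fr P B C D cB cC cD h) (hσ : Stp (nd cB cC cD) σ) (hT : ∀ w, σ w < T) (y0 : 0 ≤ y)
    (Lr0 : 0 ≤ Lr) (C0 : 0 ≤ Cn) (L0' : 0 ≤ L) (hL : ∀ w, ψ w ≤ L) (hψ : ∀ w, -Cn ≤ ψ w)
    (hnr : ∀ s x w, xb B cC cD s x = xb B cC cD s w → σ w = s → (nr x ↔ nr w)) (hrn : ∀ w, rm w ∨ nr w)
    (hd : ∀ w, P.p w ≠ 0 → nr w → (∃ s ≤ σ w, Tb P (xb B cC cD) R q s w) → cp P (xb B cC cD) (σ w) R w ≤ y) :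
    P.E (fun w => ind (rm w ∧ (R w ∧ ∃ s, tkb P cB cC cD B R q u0 σ s w)) * ψ w) ≤
      Lr * P.Pr (fun w => rm w ∧ R w ∧ ∃ s ≤ σ w, Tb P (xb B cC cD) R q s w) +
        (Lr + Cn) * y * P.Pr (fun w => ∃ s ≤ σ w, Tb P (xb B cC cD) R q s w) +
      L * (P.Pr (fun w => R w ∧ ∃ s, rw P cB cC cD B R q u0 σ Cd s w ∧ ¬ dR P cB cC cD B C R q u0 Lr σ Cd ψ s w) +
        P.Pr (fun w => R w ∧ ∃ s, cl P cB cC cD B R q u0 σ Cc Cd s w ∧ ¬ False) +
        P.Pr (fun w => R w ∧ ∃ s ≤ σ w, Tb P (xb B cC cD) R q s w ∧ Cc s w ∧ Cd s w)) := by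
  have h1 := split (P := P) (cB := cB) (cC := cC) (cD := cD) (B := B) (R := R) (q := q) (u0 := u0) (σ := σ) (Cc := Cc)
    (Cd := Cd) (Sk := fun _ _ => False) (ψ := ψ) (rm := rm) L0' hL (dR P cB cC cD B C R q u0 Lr σ Cd ψ)
  have e0 : P.E (fun w => ind (rm w ∧ (R w ∧ ∃ s, cl P cB cC cD B R q u0 σ Cc Cd s w ∧ False)) * ψ w) = 0 := by
    have : ∀ w, ind (rm w ∧ (R w ∧ ∃ s, cl P cB cC cD B R q u0 σ Cc Cd s w ∧ False)) * ψ w = 0 := fun w => by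
      rw [ind_not (fun ⟨_, _, _, _, a⟩ => a), zero_mul]
    rw [show (fun w => ind (rm w ∧ (R w ∧ ∃ s, cl P cB cC cD B R q u0 σ Cc Cd s w ∧ False)) * ψ w) = fun _ => (0 : ℝ)
      from funext this, P.E_const]
  have hAr : ∀ w s, rw P cB cC cD B R q u0 σ Cd s w → s < T := fun w s a => lt_of_le_of_lt a.1.2 (hT w)
  have s1 := side_signed (P := P) (R := R) (L := Lr) (Z := fun w => (B w, C w)) (ψ := ψ)
    (A := rw P cB cC cD B R q u0 σ Cd) (T := T) (fun w s s' a b => Ar_one w s s' a b) hAr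
  have r1 := GhoP.rm_signed (P := P) (rm := rm) (nr := nr) (Cn := Cn) (Q := fun w => R w ∧ ∃ s,
    rw P cB cC cD B R q u0 σ Cd s w ∧ dR P cB cC cD B C R q u0 Lr σ Cd ψ s w) (ψ := ψ) hrn hψ C0
  have hσN := stpx H hσ
  have m2 := GhoP.mass_le (P := P) (R := R) (q := q) (rm := rm) (nr := nr) (xb_filt H) hσN hT y0 hnr hrn hd
  have m1 : P.Pr (fun w => R w ∧ ∃ s, rw P cB cC cD B R q u0 σ Cd s w ∧ dR P cB cC cD B C R q u0 Lr σ Cd ψ s w) ≤
      P.Pr (fun w => R w ∧ ∃ s ≤ σ w, Tb P (xb B cC cD) R q s w) :=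
    P.Pr_mono fun w _ ⟨a, s, b, _⟩ => ⟨a, s, b.1.2, b.1.1.1⟩
  have m3 := mul_le_mul_of_nonneg_left (m1.trans m2) Lr0
  have n1 : P.Pr (fun w => nr w ∧ (R w ∧ ∃ s, rw P cB cC cD B R q u0 σ Cd s w ∧
      dR P cB cC cD B C R q u0 Lr σ Cd ψ s w)) ≤ P.Pr (fun w => nr w ∧ R w ∧ ∃ s ≤ σ w, Tb P (xb B cC cD) R q s w) :=
    P.Pr_mono fun w _ ⟨c, a, s, b, _⟩ => ⟨c, a, s, b.1.2, b.1.1.1⟩
  have n2 := GhoP.nr_le (P := P) (R := R) (q := q) (nr := nr) (xb_filt H) hσN hT hnr hd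
  have n3 : P.Pr (fun w => nr w ∧ ∃ s ≤ σ w, Tb P (xb B cC cD) R q s w) ≤
      P.Pr (fun w => ∃ s ≤ σ w, Tb P (xb B cC cD) R q s w) := P.E_mono fun w _ => ind_mono fun h => h.2
  have n4 := mul_le_mul_of_nonneg_left (n1.trans (n2.trans (mul_le_mul_of_nonneg_left n3 y0))) C0
  refine h1.trans ?_
  rw [e0, add_zero]
  refine add_le_add ?_ le_rfl
  have e3 : Lr * (P.Pr (fun w => rm w ∧ R w ∧ ∃ s ≤ σ w, Tb P (xb B cC cD) R q s w) +
      y * P.Pr (fun w => ∃ s ≤ σ w, Tb P (xb B cC cD) R q s w)) +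
      Cn * (y * P.Pr (fun w => ∃ s ≤ σ w, Tb P (xb B cC cD) R q s w)) =
      Lr * P.Pr (fun w => rm w ∧ R w ∧ ∃ s ≤ σ w, Tb P (xb B cC cD) R q s w) +
        (Lr + Cn) * y * P.Pr (fun w => ∃ s ≤ σ w, Tb P (xb B cC cD) R q s w) := by ring
  rw [← e3]
  have s1' : P.E (fun w => ind (R w ∧ ∃ s, rw P cB cC cD B R q u0 σ Cd s w ∧
      dR P cB cC cD B C R q u0 Lr σ Cd ψ s w) * ψ w) ≤ Lr * P.Pr (fun w => R w ∧ ∃ s,
      rw P cB cC cD B R q u0 σ Cd s w ∧ dR P cB cC cD B C R q u0 Lr σ Cd ψ s w) := s1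
  linarith

end frame

end

end Pool.Agent.GMH.GhoA
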