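import Pool.Agent.GMH.AC
import Pool.Agent.M3.S3Min
import Pool.Agent.M3.S3Vec

/-!
# GMH.P2: closeness to independence at one exact vertex, the sampling proof (helper30; note 3933 (A) of helper78)

`Q` law of the hidden point, kernels `k1` (letter `x`) and `k2` (letter `w`), `J, U, V` the laws of `(x, w)`, `x`, `w`.
`lam x` = lower part of `x`, `mu w` = lower part of `w` (at most `M` letters `w` over one lower part).

* `mgf_le`, `hoeff`: Hoeffding bound for `k` independent samples;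
* `sample_test`: tests `g w` with means `G w a`; if the samples and `mu w` are `del`-close to independent and
  `G w >= u/4` is rare for every fixed `w`, then the `w` with `E (G w | w) >= u` are rare;
* `p2_rare`, `p2_mean`: rare letters `w` with `KL (P(x|w) || P(lam x|w) P(x|lam x)) >= 2 u`, and the mean, for kernels;
* on a probability space (`CI P A X Y` : `X`, `Y` independent given the hidden point `A`): `p2_Pr` (rare letters `Y`),
  **`p2_I`** : `I(X; Y | Lx) <= 2 u + log(1/al) e2`, `e2 = (2 log(1/al) / u) (dl + (1/al)(e^(1 - u/(4 kap)) + s) + s)`,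
  `s = e^(-k u^2 / (128 (log(1/al) + 1)^2))`; hypotheses `SatEv` (saturation inside the events of `A`, ratio of prices `kap`)
  and `SatSm` (`k` samples of `X` given `A` and the lower part `My` of `Y` are `dl`-close to independent);
* `tvs_sq`, `tvs_cond`, `tvs_le`: Pinsker for two letters.
-/

set_option autoImplicit false
set_option linter.unusedSectionVars false

namespace Pool.Agent.GMH.P2a

open Finset Pool.Agent.PWZ Pool.Agent.M3

noncomputable section

/-! ## Hoeffding -/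

section hoeff

variable {Ξ : Type*} [Fintype Ξ] {q : Ξ → ℝ}

/-- weight of a sample -/
def smw (q : Ξ → ℝ) {k : ℕ} (x : Fin k → Ξ) : ℝ := ∏ i, q (x i)

theorem smw_nonneg (hq : ∀ x, 0 ≤ q x) {k : ℕ} (x : Fin k → Ξ) : 0 ≤ smw q x := prod_nonneg fun i _ => hq (x i)

theorem smw_sum (hq1 : ∑ x, q x = 1) (k : ℕ) : ∑ x : Fin k → Ξ, smw q x = 1 := by
  have h := Fintype.sum_pow q k
  rw [hq1, one_pow] at h
  exact h.symm

/-- a chord of the exponential function -/
theorem exp_chord {R z t : ℝ} (hR : 0 < R) (hz : |z| ≤ R) :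
    Real.exp (t * z) ≤ Real.cosh (t * R) + z / R * Real.sinh (t * R) := by
  have hz2 := abs_le.mp hz
  have a1 : 0 ≤ (1 + z / R) / 2 := by
    have : -1 ≤ z / R := by rw [le_div_iff₀ hR]; linarith
    linarith
  have a2 : 0 ≤ (1 - z / R) / 2 := by
    have : z / R ≤ 1 := by rw [div_le_one hR]; exact hz2.2
    linarith
  have h := convexOn_exp.2 (Set.mem_univ (t * R)) (Set.mem_univ (-(t * R))) a1 a2 (by ring)
  simp only [smul_eq_mul] at h
  have e : (1 + z / R) / 2 * (t * R) + (1 - z / R) / 2 * -(t * R) = t * z := by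
    field_simp
    ring
  rw [e] at h
  refine h.trans (le_of_eq ?_)
  rw [Real.cosh_eq, Real.sinh_eq]
  ring

theorem mgf_le (hq : ∀ x, 0 ≤ q x) (hq1 : ∑ x, q x = 1) {g : Ξ → ℝ} {m R : ℝ} (hR : 0 < R)
    (hm : ∑ x, q x * g x = m) (hg : ∀ x, q x ≠ 0 → |g x - m| ≤ R) (t : ℝ) :
    ∑ x, q x * Real.exp (t * (g x - m)) ≤ Real.exp (t ^ 2 * R ^ 2 / 2) := by
  have h1 : ∀ x, q x * Real.exp (t * (g x - m)) ≤
      q x * (Real.cosh (t * R) + (g x - m) / R * Real.sinh (t * R)) := by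
    intro x
    by_cases h0 : q x = 0
    · rw [h0, zero_mul, zero_mul]
    · exact mul_le_mul_of_nonneg_left (exp_chord hR (hg x h0)) (hq x)
  have h2 : ∑ x, q x * (Real.cosh (t * R) + (g x - m) / R * Real.sinh (t * R)) = Real.cosh (t * R) := by
    have e : ∀ x, q x * (Real.cosh (t * R) + (g x - m) / R * Real.sinh (t * R)) =
        q x * Real.cosh (t * R) + (q x * g x - q x * m) * (Real.sinh (t * R) / R) := fun x => by ring
    simp only [e]
    rw [sum_add_distrib, ← sum_mul, ← sum_mul, sum_sub_distrib, ← sum_mul, hq1, hm]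
    ring
  calc _ ≤ _ := sum_le_sum fun x _ => h1 x
    _ = _ := h2
    _ ≤ Real.exp ((t * R) ^ 2 / 2) := Real.cosh_le_exp_half_sq _
    _ = _ := by rw [mul_pow]

/-- **Hoeffding** -/
theorem hoeff (hq : ∀ x, 0 ≤ q x) (hq1 : ∑ x, q x = 1) {g : Ξ → ℝ} {m R : ℝ} (hR : 0 < R)
    (hm : ∑ x, q x * g x = m) (hg : ∀ x, q x ≠ 0 → |g x - m| ≤ R) {s : ℝ} (hs : 0 ≤ s) (k : ℕ) :
    ∑ x : Fin k → Ξ, smw q x * ind (k * s ≤ ∑ i, (g (x i) - m)) ≤ Real.exp (-(k * s ^ 2 / (2 * R ^ 2))) := by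
  set t := s / R ^ 2 with ht
  have ht0 : 0 ≤ t := by positivity
  have h1 : ∀ x : Fin k → Ξ, smw q x * ind (k * s ≤ ∑ i, (g (x i) - m)) ≤
      Real.exp (-(t * (k * s))) * ∏ i, (q (x i) * Real.exp (t * (g (x i) - m))) := by
    intro x
    rw [prod_mul_distrib, ← Real.exp_sum, ← mul_sum]
    have h2 := smw_nonneg hq x
    have h3 : ind (k * s ≤ ∑ i, (g (x i) - m)) ≤
        Real.exp (-(t * (k * s))) * Real.exp (t * ∑ i, (g (x i) - m)) := by
      rw [← Real.exp_add]
      by_cases h4 : k * s ≤ ∑ i, (g (x i) - m)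
      · rw [ind_of h4]
        refine Real.one_le_exp ?_
        have := mul_le_mul_of_nonneg_left h4 ht0
        linarith
      · rw [ind_not h4]
        exact (Real.exp_pos _).le
    calc _ ≤ smw q x * (Real.exp (-(t * (k * s))) * Real.exp (t * ∑ i, (g (x i) - m))) :=
          mul_le_mul_of_nonneg_left h3 h2
      _ = _ := by unfold smw; ring
  refine (sum_le_sum fun x _ => h1 x).trans ?_
  rw [← mul_sum, ← Fintype.sum_pow (fun x => q x * Real.exp (t * (g x - m))) k]
  have h5 := mgf_le hq hq1 hR hm hg t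
  have h6 : 0 ≤ ∑ x, q x * Real.exp (t * (g x - m)) := sum_nonneg fun x _ => mul_nonneg (hq x) (Real.exp_pos _).le
  have h7 := pow_le_pow_left₀ h6 h5 k
  rw [← Real.exp_nat_mul] at h7
  calc _ ≤ Real.exp (-(t * (k * s))) * Real.exp (k * (t ^ 2 * R ^ 2 / 2)) :=
        mul_le_mul_of_nonneg_left h7 (Real.exp_pos _).le
    _ = Real.exp (-(k * s ^ 2 / (2 * R ^ 2))) := by
        rw [← Real.exp_add]
        congr 1
        rw [ht]
        field_simp
        ring

end hoeff

/-! ## the sampling test -/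

section test

variable {A Ξ H M' : Type*} [Fintype A] [Fintype Ξ] [Fintype H]
  {Q : A → ℝ} {k1 : A → Ξ → ℝ} {k2 : A → H → ℝ}

/-- mean of a test given the hidden point -/
def Gt (k1 : A → Ξ → ℝ) (g : H → Ξ → ℝ) (w : H) (a : A) : ℝ := ∑ x, k1 a x * g w x

/-- law of the second letter -/
def Vw (Q : A → ℝ) (k2 : A → H → ℝ) (w : H) : ℝ := ∑ a, Q a * k2 a w

/-- kernels -/
structure Ker (Q : A → ℝ) (k1 : A → Ξ → ℝ) : Prop where
  nn : ∀ a x, 0 ≤ k1 a x
  one : ∀ a, Q a ≠ 0 → ∑ x, k1 a x = 1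

theorem Gt_mem {g : H → Ξ → ℝ} (h1 : Ker Q k1) {lo hi : ℝ} (hg : ∀ w x, lo ≤ g w x ∧ g w x ≤ hi) {a : A}
    (ha : Q a ≠ 0) (w : H) : lo ≤ Gt k1 g w a ∧ Gt k1 g w a ≤ hi := by
  have e := h1.one a ha
  constructor
  · calc lo = ∑ x, k1 a x * lo := by rw [← sum_mul, e, one_mul]
      _ ≤ _ := sum_le_sum fun x _ => mul_le_mul_of_nonneg_left (hg w x).1 (h1.nn a x)
  · calc Gt k1 g w a ≤ ∑ x, k1 a x * hi := sum_le_sum fun x _ => mul_le_mul_of_nonneg_left (hg w x).2 (h1.nn a x)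
      _ = hi := by rw [← sum_mul, e, one_mul]

/-- sampling: upper side -/
theorem smp_up {g : H → Ξ → ℝ} (h1 : Ker Q k1) {lo hi : ℝ} (hg : ∀ w x, lo ≤ g w x ∧ g w x ≤ hi) (hlh : lo < hi)
    {a : A} (ha : Q a ≠ 0) (w : H) {u : ℝ} (hu : 0 ≤ u) (k : ℕ) (hG : Gt k1 g w a < u / 4) :
    ∑ x : Fin k → Ξ, smw (k1 a) x * ind (k * (3 * u / 8) ≤ ∑ i, g w (x i)) ≤
      Real.exp (-(k * (u / 8) ^ 2 / (2 * (hi - lo) ^ 2))) := by
  have hR : 0 < hi - lo := by linarith
  refine le_trans (sum_le_sum fun x _ => ?_) (hoeff (h1.nn a) (h1.one a ha) (g := g w) (m := Gt k1 g w a) hR rfl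
    (fun x _ => ?_) (show 0 ≤ u / 8 by linarith) k)
  · refine mul_le_mul_of_nonneg_left ?_ (smw_nonneg (h1.nn a) x)
    by_cases h : k * (3 * u / 8) ≤ ∑ i, g w (x i)
    · rw [ind_of h, ind_of]
      rw [sum_sub_distrib, sum_const, card_univ, Fintype.card_fin, nsmul_eq_mul]
      have : (k : ℝ) * Gt k1 g w a ≤ k * (u / 4) := mul_le_mul_of_nonneg_left hG.le (Nat.cast_nonneg k)
      linarith
    · rw [ind_not h]; exact ind_nonneg _
  · have h2 := Gt_mem h1 hg ha w
    have h3 := hg w x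
    rw [abs_le]
    constructor <;> linarith

/-- sampling: lower side -/
theorem smp_dn {g : H → Ξ → ℝ} (h1 : Ker Q k1) {lo hi : ℝ} (hg : ∀ w x, lo ≤ g w x ∧ g w x ≤ hi) (hlh : lo < hi)
    {a : A} (ha : Q a ≠ 0) (w : H) {u : ℝ} (hu : 0 ≤ u) (k : ℕ) (hG : u / 2 ≤ Gt k1 g w a) :
    1 - Real.exp (-(k * (u / 8) ^ 2 / (2 * (hi - lo) ^ 2))) ≤
      ∑ x : Fin k → Ξ, smw (k1 a) x * ind (k * (3 * u / 8) ≤ ∑ i, g w (x i)) := by
  have hR : 0 < hi - lo := by linarith
  have h := hoeff (h1.nn a) (h1.one a ha) (g := fun x => - g w x) (m := - Gt k1 g w a) hR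
    (by unfold Gt; rw [← sum_neg_distrib]; exact sum_congr rfl fun x _ => by ring)
    (fun x _ => by
      have h2 := Gt_mem h1 hg ha w
      have h3 := hg w x
      rw [abs_le]
      constructor <;> linarith) (show 0 ≤ u / 8 by linarith) k
  have h2 : ∀ x : Fin k → Ξ, smw (k1 a) x ≤ smw (k1 a) x * ind (k * (3 * u / 8) ≤ ∑ i, g w (x i)) +
      smw (k1 a) x * ind (k * (u / 8) ≤ ∑ i, (- g w (x i) - - Gt k1 g w a)) := by
    intro x
    have h0 := smw_nonneg (h1.nn a) x
    by_cases h3 : k * (3 * u / 8) ≤ ∑ i, g w (x i)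
    · rw [ind_of h3, mul_one]
      have := mul_nonneg h0 (ind_nonneg (k * (u / 8) ≤ ∑ i, (- g w (x i) - - Gt k1 g w a)))
      linarith
    · rw [ind_not h3, mul_zero, zero_add, ind_of, mul_one]
      push Not at h3
      rw [sum_sub_distrib, sum_const, card_univ, Fintype.card_fin, nsmul_eq_mul, sum_neg_distrib]
      have : (k : ℝ) * (u / 2) ≤ k * Gt k1 g w a := mul_le_mul_of_nonneg_left hG (Nat.cast_nonneg k)
      linarith
  have h3 := sum_le_sum fun x (_ : x ∈ (univ : Finset (Fin k → Ξ))) => h2 x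
  rw [smw_sum (h1.one a ha), sum_add_distrib] at h3
  linarith

/-- **the sampling test** -/
theorem sample_test (hQ : ∀ a, 0 ≤ Q a) (hQ1 : ∑ a, Q a = 1) (h1 : Ker Q k1) (h2 : Ker Q k2) {mu : H → M'}
    {g : H → Ξ → ℝ} {lo hi : ℝ} (hg : ∀ w x, lo ≤ g w x ∧ g w x ≤ hi) (hlh : lo < hi) (hhi : 0 < hi) {W : H → Prop}
    {u : ℝ} (hu : 0 < u) {k : ℕ} {M e1 dl : ℝ}
    (hW : ∀ w, W w → u * Vw Q k2 w ≤ ∑ a, Q a * (k2 a w * Gt k1 g w a))
    (hrare : ∀ w, W w → ∑ a, Q a * ind (u / 4 ≤ Gt k1 g w a) ≤ e1) (he1 : 0 ≤ e1)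
    (hM : ∀ m : M', ∑ w, ind (W w ∧ mu w = m) ≤ M)
    (hsat : ∀ T : M' → (Fin k → Ξ) → ℝ, (∀ m x, 0 ≤ T m x ∧ T m x ≤ 1) →
      ∑ a, Q a * ∑ w, k2 a w * ∑ x, smw (k1 a) x * T (mu w) x ≤
        ∑ w, Vw Q k2 w * ∑ a, Q a * ∑ x, smw (k1 a) x * T (mu w) x + dl) :
    u / (2 * hi) * ∑ w, ind (W w) * Vw Q k2 w ≤
      dl + M * (e1 + Real.exp (-(k * (u / 8) ^ 2 / (2 * (hi - lo) ^ 2)))) +
        Real.exp (-(k * (u / 8) ^ 2 / (2 * (hi - lo) ^ 2))) := by
  classical
  set ep := Real.exp (-(k * (u / 8) ^ 2 / (2 * (hi - lo) ^ 2))) with hep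
  have hep0 : 0 < ep := Real.exp_pos _
  set B : H → (Fin k → Ξ) → Prop := fun w x => k * (3 * u / 8) ≤ ∑ i, g w (x i) with hB
  set T : M' → (Fin k → Ξ) → ℝ := fun m x => ind (∃ w, (W w ∧ mu w = m) ∧ B w x) with hT
  have hT01 : ∀ m x, 0 ≤ T m x ∧ T m x ≤ 1 := fun m x => ⟨ind_nonneg _, ind_le_one _⟩
  have key := hsat T hT01
  have hV0 : ∀ w, 0 ≤ Vw Q k2 w := fun w => sum_nonneg fun a _ => mul_nonneg (hQ a) (h2.nn a w)
  have hV1 : ∑ w, Vw Q k2 w = 1 := by
    unfold Vw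
    rw [sum_comm]
    calc ∑ a, ∑ w, Q a * k2 a w = ∑ a, Q a := by
          refine sum_congr rfl fun a _ => ?_
          rw [← mul_sum]
          by_cases ha : Q a = 0
          · rw [ha, zero_mul]
          · rw [h2.one a ha, mul_one]
      _ = 1 := hQ1
  -- the law of independent pairs
  have hR : ∀ m, ∑ a, Q a * ∑ x, smw (k1 a) x * T m x ≤ M * (e1 + ep) := by
    intro m
    have h3 : ∀ x, T m x ≤ ∑ w, ind (W w ∧ mu w = m) * ind (B w x) := by
      intro x
      by_cases hx : ∃ w, (W w ∧ mu w = m) ∧ B w x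
      · have e : T m x = 1 := ind_of hx
        rw [e]
        obtain ⟨w, hw1, hw2⟩ := hx
        have := single_le_sum (f := fun w => ind (W w ∧ mu w = m) * ind (B w x))
          (fun w _ => mul_nonneg (ind_nonneg _) (ind_nonneg _)) (mem_univ w)
        simp only [ind_of hw1, ind_of hw2, mul_one] at this
        exact this
      · have e : T m x = 0 := ind_not hx
        rw [e]
        exact sum_nonneg fun w _ => mul_nonneg (ind_nonneg _) (ind_nonneg _)
    have h4 : ∀ a, Q a * ∑ x, smw (k1 a) x * T m x ≤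
        ∑ w, ind (W w ∧ mu w = m) * (Q a * ∑ x, smw (k1 a) x * ind (B w x)) := by
      intro a
      have h5 : ∑ x, smw (k1 a) x * T m x ≤ ∑ w, ind (W w ∧ mu w = m) * ∑ x, smw (k1 a) x * ind (B w x) := by
        calc _ ≤ ∑ x, smw (k1 a) x * ∑ w, ind (W w ∧ mu w = m) * ind (B w x) :=
              sum_le_sum fun x _ => mul_le_mul_of_nonneg_left (h3 x) (smw_nonneg (h1.nn a) x)
          _ = ∑ w, ind (W w ∧ mu w = m) * ∑ x, smw (k1 a) x * ind (B w x) := by
              simp only [mul_sum]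
              rw [sum_comm]
              exact sum_congr rfl fun w _ => sum_congr rfl fun x _ => by ring
      calc _ ≤ Q a * ∑ w, ind (W w ∧ mu w = m) * ∑ x, smw (k1 a) x * ind (B w x) :=
            mul_le_mul_of_nonneg_left h5 (hQ a)
        _ = _ := by rw [mul_sum]; exact sum_congr rfl fun w _ => by ring
    have h6 : ∀ w, W w → ∑ a, Q a * ∑ x, smw (k1 a) x * ind (B w x) ≤ e1 + ep := by
      intro w hw
      have h7 : ∀ a, Q a * ∑ x, smw (k1 a) x * ind (B w x) ≤ Q a * ind (u / 4 ≤ Gt k1 g w a) + Q a * ep := by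
        intro a
        by_cases ha : Q a = 0
        · rw [ha]; simp
        · rw [← mul_add]
          refine mul_le_mul_of_nonneg_left ?_ (hQ a)
          by_cases hG : u / 4 ≤ Gt k1 g w a
          · rw [ind_of hG]
            have h8 : ∑ x, smw (k1 a) x * ind (B w x) ≤ 1 := by
              rw [← smw_sum (h1.one a ha) k]
              refine sum_le_sum fun x _ => ?_
              have := mul_le_mul_of_nonneg_left (ind_le_one (B w x)) (smw_nonneg (h1.nn a) x)
              rwa [mul_one] at this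
            linarith
          · rw [ind_not hG, zero_add]
            push Not at hG
            exact smp_up h1 hg hlh ha w hu.le k hG
      have h9 := sum_le_sum fun a (_ : a ∈ (univ : Finset A)) => h7 a
      rw [sum_add_distrib, ← sum_mul, hQ1, one_mul] at h9
      linarith [hrare w hw]
    calc ∑ a, Q a * ∑ x, smw (k1 a) x * T m x
        ≤ ∑ a, ∑ w, ind (W w ∧ mu w = m) * (Q a * ∑ x, smw (k1 a) x * ind (B w x)) := sum_le_sum fun a _ => h4 a
      _ = ∑ w, ind (W w ∧ mu w = m) * ∑ a, Q a * ∑ x, smw (k1 a) x * ind (B w x) := by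
          rw [sum_comm]
          exact sum_congr rfl fun w _ => by rw [mul_sum]
      _ ≤ ∑ w, ind (W w ∧ mu w = m) * (e1 + ep) := by
          refine sum_le_sum fun w _ => ?_
          by_cases hw : W w ∧ mu w = m
          · exact mul_le_mul_of_nonneg_left (h6 w hw.1) (ind_nonneg _)
          · rw [ind_not hw, zero_mul, zero_mul]
      _ = (∑ w, ind (W w ∧ mu w = m)) * (e1 + ep) := by rw [sum_mul]
      _ ≤ _ := mul_le_mul_of_nonneg_right (hM m) (by linarith)
  have hRHS : ∑ w, Vw Q k2 w * ∑ a, Q a * ∑ x, smw (k1 a) x * T (mu w) x ≤ M * (e1 + ep) := by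
    calc _ ≤ ∑ w, Vw Q k2 w * (M * (e1 + ep)) := sum_le_sum fun w _ => mul_le_mul_of_nonneg_left (hR _) (hV0 w)
      _ = _ := by rw [← sum_mul, hV1, one_mul]
  -- the true law
  set y := ∑ a, Q a * ∑ w, k2 a w * (ind (W w) * ind (u / 2 ≤ Gt k1 g w a)) with hy
  have hy1 : y ≤ 1 := by
    rw [← hQ1]
    refine sum_le_sum fun a _ => ?_
    by_cases ha : Q a = 0
    · rw [ha, zero_mul]
    · have : ∑ w, k2 a w * (ind (W w) * ind (u / 2 ≤ Gt k1 g w a)) ≤ 1 := by
        rw [← h2.one a ha]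
        refine sum_le_sum fun w _ => ?_
        have h3 : ind (W w) * ind (u / 2 ≤ Gt k1 g w a) ≤ 1 :=
          mul_le_one₀ (ind_le_one _) (ind_nonneg _) (ind_le_one _)
        have := mul_le_mul_of_nonneg_left h3 (h2.nn a w)
        rwa [mul_one] at this
      have := mul_le_mul_of_nonneg_left this (hQ a)
      rwa [mul_one] at this
  have hL : y - ep ≤ ∑ a, Q a * ∑ w, k2 a w * ∑ x, smw (k1 a) x * T (mu w) x := by
    have h3 : (1 - ep) * y ≤ ∑ a, Q a * ∑ w, k2 a w * ∑ x, smw (k1 a) x * T (mu w) x := by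
      rw [hy, mul_sum]
      refine sum_le_sum fun a _ => ?_
      by_cases ha : Q a = 0
      · rw [ha]; simp
      · have e : (1 - ep) * (Q a * ∑ w, k2 a w * (ind (W w) * ind (u / 2 ≤ Gt k1 g w a))) =
            Q a * ∑ w, k2 a w * (ind (W w) * ind (u / 2 ≤ Gt k1 g w a) * (1 - ep)) := by
          rw [mul_left_comm, mul_sum]
          congr 1
          exact sum_congr rfl fun w _ => by ring
        rw [e]
        refine mul_le_mul_of_nonneg_left (sum_le_sum fun w _ => mul_le_mul_of_nonneg_left ?_ (h2.nn a w)) (hQ a)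
        have h0 : 0 ≤ ∑ x, smw (k1 a) x * T (mu w) x :=
          sum_nonneg fun x _ => mul_nonneg (smw_nonneg (h1.nn a) x) (hT01 _ _).1
        by_cases hw : W w
        · by_cases hG : u / 2 ≤ Gt k1 g w a
          · rw [ind_of hw, ind_of hG, one_mul, one_mul]
            refine (smp_dn h1 hg hlh ha w hu.le k hG).trans (sum_le_sum fun x _ => ?_)
            refine mul_le_mul_of_nonneg_left ?_ (smw_nonneg (h1.nn a) x)
            by_cases hb : B w x
            · have e2 : T (mu w) x = 1 := ind_of ⟨w, ⟨hw, rfl⟩, hb⟩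
              rw [e2]; exact ind_le_one _
            · have : ind (k * (3 * u / 8) ≤ ∑ i, g w (x i)) = 0 := ind_not hb
              rw [this]; exact (hT01 _ _).1
          · rw [ind_not hG, mul_zero, zero_mul]; exact h0
        · rw [ind_not hw, zero_mul, zero_mul]; exact h0
    have h4 : 0 ≤ y := sum_nonneg fun a _ => mul_nonneg (hQ a) (sum_nonneg fun w _ =>
      mul_nonneg (h2.nn a w) (mul_nonneg (ind_nonneg _) (ind_nonneg _)))
    nlinarith
  have hY : u / (2 * hi) * ∑ w, ind (W w) * Vw Q k2 w ≤ y := by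
    have h3 : ∀ w, W w → u / (2 * hi) * Vw Q k2 w ≤ ∑ a, Q a * (k2 a w * ind (u / 2 ≤ Gt k1 g w a)) := by
      intro w hw
      have h4 : ∑ a, Q a * (k2 a w * Gt k1 g w a) ≤
          hi * (∑ a, Q a * (k2 a w * ind (u / 2 ≤ Gt k1 g w a))) + u / 2 * Vw Q k2 w := by
        unfold Vw
        rw [mul_sum, mul_sum, ← sum_add_distrib]
        refine sum_le_sum fun a _ => ?_
        by_cases ha : Q a = 0
        · rw [ha]; simp
        · have h5 : Gt k1 g w a ≤ hi * ind (u / 2 ≤ Gt k1 g w a) + u / 2 := by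
            by_cases hG : u / 2 ≤ Gt k1 g w a
            · rw [ind_of hG, mul_one]
              have := (Gt_mem h1 hg ha w).2
              linarith
            · rw [ind_not hG, mul_zero, zero_add]
              push Not at hG
              exact hG.le
          have h6 := mul_le_mul_of_nonneg_left h5 (mul_nonneg (hQ a) (h2.nn a w))
          calc Q a * (k2 a w * Gt k1 g w a) = Q a * k2 a w * Gt k1 g w a := by ring
            _ ≤ _ := h6
            _ = _ := by ring
      have h7 := hW w hw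
      have h8 : u / 2 * Vw Q k2 w ≤ hi * (∑ a, Q a * (k2 a w * ind (u / 2 ≤ Gt k1 g w a))) := by linarith
      have h9 : u / (2 * hi) * Vw Q k2 w = u / 2 * Vw Q k2 w / hi := by
        field_simp
      rw [h9, div_le_iff₀ hhi]
      linarith
    have e : y = ∑ w, ind (W w) * ∑ a, Q a * (k2 a w * ind (u / 2 ≤ Gt k1 g w a)) := by
      rw [hy]
      simp only [mul_sum]
      rw [sum_comm]
      exact sum_congr rfl fun w _ => sum_congr rfl fun a _ => by ring
    rw [e, mul_sum]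
    refine sum_le_sum fun w _ => ?_
    by_cases hw : W w
    · rw [ind_of hw, one_mul, one_mul]; exact h3 w hw
    · rw [ind_not hw, zero_mul, zero_mul, mul_zero]
  linarith

end test

/-! ## the log of the mixture -/

section mix

variable {A Ξ H M' L' : Type*} [Fintype A] [Fintype Ξ] [Fintype H]
  {Q : A → ℝ} {k1 : A → Ξ → ℝ} {k2 : A → H → ℝ} {lam : Ξ → L'}

/-- joint law of the two letters -/
def Jw (Q : A → ℝ) (k1 : A → Ξ → ℝ) (k2 : A → H → ℝ) (x : Ξ) (w : H) : ℝ := ∑ a, Q a * (k1 a x * k2 a w)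

/-- sum over the fibre of the lower part -/
def fib (lam : Ξ → L') (f : Ξ → ℝ) (x : Ξ) : ℝ := ∑ x', ind (lam x' = lam x) * f x'

/-- `P(x | lam x, w) / P(x | lam x)` -/
def rat (Q : A → ℝ) (k1 : A → Ξ → ℝ) (k2 : A → H → ℝ) (lam : Ξ → L') (w : H) (x : Ξ) : ℝ :=
  Jw Q k1 k2 x w * fib lam (Vw Q k1) x / (fib lam (fun x' => Jw Q k1 k2 x' w) x * Vw Q k1 x)

/-- `V w` times the relative entropy of `P(x | lam x, w)` and `P(x | lam x)` -/
def Dw (Q : A → ℝ) (k1 : A → Ξ → ℝ) (k2 : A → H → ℝ) (lam : Ξ → L') (w : H) : ℝ :=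
  ∑ x, Jw Q k1 k2 x w * Real.log (rat Q k1 k2 lam w x)

/-- the test function -/
def psw (Q : A → ℝ) (k1 : A → Ξ → ℝ) (k2 : A → H → ℝ) (lam : Ξ → L') (w : H) (x : Ξ) : ℝ :=
  Real.log ((1 + rat Q k1 k2 lam w x) / 2)

theorem fib_eq {f : Ξ → ℝ} {x x' : Ξ} (h : lam x = lam x') : fib lam f x = fib lam f x' := by
  unfold fib; rw [h]

theorem fib_nonneg {f : Ξ → ℝ} (hf : ∀ x, 0 ≤ f x) (x : Ξ) : 0 ≤ fib lam f x :=
  sum_nonneg fun x' _ => mul_nonneg (ind_nonneg _) (hf x')

theorem le_fib {f : Ξ → ℝ} (hf : ∀ x, 0 ≤ f x) (x : Ξ) : f x ≤ fib lam f x := by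
  have := single_le_sum (f := fun x' => ind (lam x' = lam x) * f x') (fun x' _ => mul_nonneg (ind_nonneg _) (hf x'))
    (mem_univ x)
  simp only [ind_of, one_mul] at this
  exact this

theorem Jw_nonneg (hQ : ∀ a, 0 ≤ Q a) (h1 : Ker Q k1) (h2 : Ker Q k2) (x : Ξ) (w : H) : 0 ≤ Jw Q k1 k2 x w :=
  sum_nonneg fun a _ => mul_nonneg (hQ a) (mul_nonneg (h1.nn a x) (h2.nn a w))

theorem Vw_nonneg (hQ : ∀ a, 0 ≤ Q a) (h1 : Ker Q k1) (x : Ξ) : 0 ≤ Vw Q k1 x :=
  sum_nonneg fun a _ => mul_nonneg (hQ a) (h1.nn a x)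

theorem rat_nonneg (hQ : ∀ a, 0 ≤ Q a) (h1 : Ker Q k1) (h2 : Ker Q k2) (w : H) (x : Ξ) :
    0 ≤ rat Q k1 k2 lam w x := by
  have hJ := Jw_nonneg hQ h1 h2
  have hU := Vw_nonneg hQ h1
  exact div_nonneg (mul_nonneg (hJ x w) (fib_nonneg hU x)) (mul_nonneg (fib_nonneg (fun x' => hJ x' w) x) (hU x))

theorem rat_le (hQ : ∀ a, 0 ≤ Q a) (h1 : Ker Q k1) (h2 : Ker Q k2) {al : ℝ} (hal : 0 < al)
    (hth : ∀ x, Vw Q k1 x ≠ 0 → al * fib lam (Vw Q k1) x ≤ Vw Q k1 x) (w : H) (x : Ξ) :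
    rat Q k1 k2 lam w x ≤ 1 / al := by
  have hJ := Jw_nonneg hQ h1 h2
  have hU := Vw_nonneg hQ h1
  unfold rat
  by_cases hx : Vw Q k1 x = 0
  · rw [hx, mul_zero, div_zero]; positivity
  have hx' : 0 < Vw Q k1 x := lt_of_le_of_ne (hU x) (Ne.symm hx)
  by_cases hf : fib lam (fun x' => Jw Q k1 k2 x' w) x = 0
  · rw [hf, zero_mul, div_zero]; positivity
  have hf' : 0 < fib lam (fun x' => Jw Q k1 k2 x' w) x := lt_of_le_of_ne (fib_nonneg (fun x' => hJ x' w) x) (Ne.symm hf)
  rw [div_le_div_iff₀ (mul_pos hf' hx') hal, one_mul]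
  have h3 := hth x hx
  have h4 := le_fib (lam := lam) (fun x' => hJ x' w) x
  calc Jw Q k1 k2 x w * fib lam (Vw Q k1) x * al = Jw Q k1 k2 x w * (al * fib lam (Vw Q k1) x) := by ring
    _ ≤ Jw Q k1 k2 x w * Vw Q k1 x := mul_le_mul_of_nonneg_left h3 (hJ x w)
    _ ≤ _ := mul_le_mul_of_nonneg_right h4 (hU x)

/-- the exponential mean of the test over every fibre -/
theorem psw_fib (hQ : ∀ a, 0 ≤ Q a) (h1 : Ker Q k1) (h2 : Ker Q k2) (w : H) (x : Ξ) :
    fib lam (fun x' => Vw Q k1 x' * Real.exp (psw Q k1 k2 lam w x')) x ≤ fib lam (Vw Q k1) x := by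
  have hJ := Jw_nonneg hQ h1 h2
  have hU := Vw_nonneg hQ h1
  have e : ∀ x', Vw Q k1 x' * Real.exp (psw Q k1 k2 lam w x') =
      Vw Q k1 x' / 2 + Vw Q k1 x' * rat Q k1 k2 lam w x' / 2 := by
    intro x'
    unfold psw
    rw [Real.exp_log (by have := rat_nonneg (lam := lam) hQ h1 h2 w x'; positivity)]
    ring
  have h3 : fib lam (fun x' => Vw Q k1 x' * rat Q k1 k2 lam w x') x ≤ fib lam (Vw Q k1) x := by
    by_cases hf : fib lam (fun x' => Jw Q k1 k2 x' w) x = 0
    · have : fib lam (fun x' => Vw Q k1 x' * rat Q k1 k2 lam w x') x = 0 := by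
        refine sum_eq_zero fun x' _ => ?_
        by_cases hx : lam x' = lam x
        · have : rat Q k1 k2 lam w x' = 0 := by
            unfold rat
            rw [fib_eq hx, fib_eq hx, hf, zero_mul, div_zero]
          show ind _ * (Vw Q k1 x' * rat Q k1 k2 lam w x') = 0
          rw [this, mul_zero, mul_zero]
        · rw [ind_not hx, zero_mul]
      rw [this]; exact fib_nonneg hU x
    · have e2 : ∀ x', ind (lam x' = lam x) * (Vw Q k1 x' * rat Q k1 k2 lam w x') ≤
          ind (lam x' = lam x) * Jw Q k1 k2 x' w * (fib lam (Vw Q k1) x / fib lam (fun x' => Jw Q k1 k2 x' w) x) := by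
        intro x'
        by_cases hx : lam x' = lam x
        · rw [ind_of hx, one_mul, one_mul]
          unfold rat
          rw [fib_eq hx, fib_eq (f := fun x' => Jw Q k1 k2 x' w) hx]
          by_cases hx0 : Vw Q k1 x' = 0
          · rw [hx0, zero_mul]
            exact mul_nonneg (hJ x' w) (div_nonneg (fib_nonneg hU x) (fib_nonneg (fun x' => hJ x' w) x))
          · apply le_of_eq
            field_simp
        · rw [ind_not hx, zero_mul, zero_mul, zero_mul]
      calc _ ≤ ∑ x', ind (lam x' = lam x) * Jw Q k1 k2 x' w *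
            (fib lam (Vw Q k1) x / fib lam (fun x' => Jw Q k1 k2 x' w) x) := sum_le_sum fun x' _ => e2 x'
        _ = fib lam (fun x' => Jw Q k1 k2 x' w) x *
            (fib lam (Vw Q k1) x / fib lam (fun x' => Jw Q k1 k2 x' w) x) := by rw [← sum_mul]; rfl
        _ = _ := by field_simp
  have h4 : fib lam (fun x' => Vw Q k1 x' * Real.exp (psw Q k1 k2 lam w x')) x =
      fib lam (Vw Q k1) x / 2 + fib lam (fun x' => Vw Q k1 x' * rat Q k1 k2 lam w x') x / 2 := by
    unfold fib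
    rw [sum_div, sum_div, ← sum_add_distrib]
    refine sum_congr rfl fun x' _ => ?_
    beta_reduce
    rw [e x']
    ring
  rw [h4]
  linarith

/-- `log ((1 + r) / 2) ≥ log r / 2` -/
theorem half_log_le {r : ℝ} (hr : 0 < r) : Real.log r / 2 ≤ Real.log ((1 + r) / 2) := by
  have h1 : Real.sqrt r ≤ (1 + r) / 2 := by
    have := Real.sq_sqrt hr.le
    nlinarith [sq_nonneg (Real.sqrt r - 1)]
  have h2 := Real.log_le_log (Real.sqrt_pos.2 hr) h1
  rwa [Real.log_sqrt hr.le] at h2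

/-- the mean of the test -/
theorem Dw_half (hQ : ∀ a, 0 ≤ Q a) (h1 : Ker Q k1) (h2 : Ker Q k2) (w : H) :
    Dw Q k1 k2 lam w / 2 ≤ ∑ x, Jw Q k1 k2 x w * psw Q k1 k2 lam w x := by
  have hJ := Jw_nonneg hQ h1 h2
  have hU := Vw_nonneg hQ h1
  unfold Dw
  rw [sum_div]
  refine sum_le_sum fun x _ => ?_
  by_cases h0 : Jw Q k1 k2 x w = 0
  · rw [h0]; simp
  have h0' : 0 < Jw Q k1 k2 x w := lt_of_le_of_ne (hJ x w) (Ne.symm h0)
  have hx : Vw Q k1 x ≠ 0 := by
    intro hh
    apply h0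
    unfold Jw
    refine sum_eq_zero fun a _ => ?_
    have := (sum_eq_zero_iff_of_nonneg fun a _ => mul_nonneg (hQ a) (h1.nn a x)).1 hh a (mem_univ a)
    rw [← mul_assoc, this, zero_mul]
  have hx' : 0 < Vw Q k1 x := lt_of_le_of_ne (hU x) (Ne.symm hx)
  have hr : 0 < rat Q k1 k2 lam w x := by
    unfold rat
    exact div_pos (mul_pos h0' (lt_of_lt_of_le hx' (le_fib hU x)))
      (mul_pos (lt_of_lt_of_le h0' (le_fib (f := fun x' => Jw Q k1 k2 x' w) (fun x' => hJ x' w) x)) hx')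
  have := mul_le_mul_of_nonneg_left (half_log_le hr) h0'.le
  calc _ = Jw Q k1 k2 x w * (Real.log (rat Q k1 k2 lam w x) / 2) := by ring
    _ ≤ _ := this

theorem psw_bd (hQ : ∀ a, 0 ≤ Q a) (h1 : Ker Q k1) (h2 : Ker Q k2) {al : ℝ} (hal : 0 < al) (hal1 : al ≤ 1)
    (hth : ∀ x, Vw Q k1 x ≠ 0 → al * fib lam (Vw Q k1) x ≤ Vw Q k1 x) (w : H) (x : Ξ) :
    -1 ≤ psw Q k1 k2 lam w x ∧ psw Q k1 k2 lam w x ≤ Real.log (1 / al) := by
  have h3 := rat_nonneg (lam := lam) hQ h1 h2 w x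
  have h4 := rat_le hQ h1 h2 hal hth w x
  have h5 : 1 ≤ 1 / al := by rw [le_div_iff₀ hal]; linarith
  unfold psw
  constructor
  · have h6 : Real.log (1 / 2) ≤ Real.log ((1 + rat Q k1 k2 lam w x) / 2) :=
      Real.log_le_log (by norm_num) (by linarith)
    have h7 : -1 ≤ Real.log (1 / 2) := by
      rw [one_div, Real.log_inv]
      have := Real.log_two_lt_d9
      linarith
    linarith
  · exact Real.log_le_log (by linarith) (by linarith)

theorem Gt_psw (w : H) : ∑ a, Q a * (k2 a w * Gt k1 (psw Q k1 k2 lam) w a) =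
    ∑ x, Jw Q k1 k2 x w * psw Q k1 k2 lam w x := by
  unfold Gt Jw
  simp only [mul_sum, sum_mul]
  rw [sum_comm]
  exact sum_congr rfl fun x _ => sum_congr rfl fun a _ => by ring

/-- saturation of the tests inside events: `kap` = ratio of the prices -/
def SatE (Q : A → ℝ) (k1 : A → Ξ → ℝ) (lam : Ξ → L') (kap : ℝ) : Prop :=
  ∀ E : A → Prop, 0 < ∑ a, Q a * ind (E a) → ∀ f : Ξ → ℝ,
    (∀ x, fib lam (fun x' => Vw Q k1 x' * Real.exp (f x')) x ≤ fib lam (Vw Q k1) x) →
    ∑ a, Q a * (ind (E a) * ∑ x, k1 a x * f x) ≤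
      (∑ a, Q a * ind (E a)) * (kap * (Real.log (1 / ∑ a, Q a * ind (E a)) + 1))

/-- closeness of the samples and the lower part of the second letter -/
def SatT (Q : A → ℝ) (k1 : A → Ξ → ℝ) (k2 : A → H → ℝ) (mu : H → M') (k : ℕ) (dl : ℝ) : Prop :=
  ∀ T : M' → (Fin k → Ξ) → ℝ, (∀ m x, 0 ≤ T m x ∧ T m x ≤ 1) →
      ∑ a, Q a * ∑ w, k2 a w * ∑ x, smw (k1 a) x * T (mu w) x ≤
        ∑ w, Vw Q k2 w * ∑ a, Q a * ∑ x, smw (k1 a) x * T (mu w) x + dl

/-- events on which a test is large are rare -/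
theorem rare_of_satE (hQ : ∀ a, 0 ≤ Q a) {kap : ℝ} (hk : 0 < kap) (hs : SatE Q k1 lam kap) {f : Ξ → ℝ}
    (hf : ∀ x, fib lam (fun x' => Vw Q k1 x' * Real.exp (f x')) x ≤ fib lam (Vw Q k1) x) {u : ℝ} :
    ∑ a, Q a * ind (u ≤ ∑ x, k1 a x * f x) ≤ Real.exp (1 - u / kap) := by
  set E : A → Prop := fun a => u ≤ ∑ x, k1 a x * f x with hE
  set m := ∑ a, Q a * ind (E a) with hm
  have hm0 : 0 ≤ m := sum_nonneg fun a _ => mul_nonneg (hQ a) (ind_nonneg _)
  rcases hm0.eq_or_lt with h0 | h0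
  · rw [← h0]; exact (Real.exp_pos _).le
  have h1 := hs E h0 f hf
  have h2 : u * m ≤ ∑ a, Q a * (ind (E a) * ∑ x, k1 a x * f x) := by
    rw [hm, mul_sum]
    refine sum_le_sum fun a _ => ?_
    by_cases ha : E a
    · rw [ind_of ha, mul_one, one_mul, mul_comm u]
      exact mul_le_mul_of_nonneg_left ha (hQ a)
    · rw [ind_not ha, mul_zero, mul_zero, zero_mul, mul_zero]
  have h3 : u ≤ kap * (Real.log (1 / m) + 1) := by
    have h4 : u * m ≤ kap * (Real.log (1 / m) + 1) * m := by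
      calc _ ≤ _ := h2
        _ ≤ _ := h1
        _ = _ := by ring
    exact le_of_mul_le_mul_right h4 h0
  have h5 : u / kap - 1 ≤ Real.log (1 / m) := by
    rw [sub_le_iff_le_add, div_le_iff₀ hk]
    linarith
  rw [one_div, Real.log_inv] at h5
  have h6 : Real.log m ≤ 1 - u / kap := by linarith
  calc m = Real.exp (Real.log m) := (Real.exp_log h0).symm
    _ ≤ _ := Real.exp_le_exp.2 h6

/-- the error of the sampling test -/
def e2 (u kap B M dl : ℝ) (k : ℕ) : ℝ :=
  2 * B / u * (dl + M * (Real.exp (1 - u / (4 * kap)) + Real.exp (-(k * (u / 8) ^ 2 / (2 * (B + 1) ^ 2)))) +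
    Real.exp (-(k * (u / 8) ^ 2 / (2 * (B + 1) ^ 2))))

/-- **(P2), rare letters** -/
theorem p2_rare (hQ : ∀ a, 0 ≤ Q a) (hQ1 : ∑ a, Q a = 1) (h1 : Ker Q k1) (h2 : Ker Q k2) {mu : H → M'}
    {al : ℝ} (hal : 0 < al) (hal1 : al < 1) (hth : ∀ x, Vw Q k1 x ≠ 0 → al * fib lam (Vw Q k1) x ≤ Vw Q k1 x)
    {kap : ℝ} (hk : 0 < kap) (hs : SatE Q k1 lam kap) {k : ℕ} {dl : ℝ} (ht : SatT Q k1 k2 mu k dl) {M : ℝ}
    (hM : ∀ m : M', ∑ w, ind (Vw Q k2 w ≠ 0 ∧ mu w = m) ≤ M) {u : ℝ} (hu : 0 < u) :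
    ∑ w, ind (2 * u * Vw Q k2 w ≤ Dw Q k1 k2 lam w) * Vw Q k2 w ≤ e2 u kap (Real.log (1 / al)) M dl k := by
  set B := Real.log (1 / al) with hB
  have hB0 : 0 < B := Real.log_pos (by rw [lt_div_iff₀ hal]; linarith)
  set W : H → Prop := fun w => Vw Q k2 w ≠ 0 ∧ 2 * u * Vw Q k2 w ≤ Dw Q k1 k2 lam w with hW
  have hg := psw_bd hQ h1 h2 hal hal1.le hth
  have key := sample_test hQ hQ1 h1 h2 (mu := mu) (g := psw Q k1 k2 lam) (lo := -1) (hi := B) hg (by linarith) hB0
    (W := W) hu (k := k) (M := M) (e1 := Real.exp (1 - u / (4 * kap))) (dl := dl)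
    (fun w hw => by
      rw [Gt_psw]
      have := Dw_half (lam := lam) hQ h1 h2 w
      linarith [hw.2])
    (fun w hw => by
      have := rare_of_satE hQ hk hs (f := psw Q k1 k2 lam w) (psw_fib hQ h1 h2 w) (u := u / 4)
      rw [div_div] at this
      exact this) (Real.exp_pos _).le
    (fun m => by
      refine le_trans (sum_le_sum fun w _ => ?_) (hM m)
      by_cases h3 : W w ∧ mu w = m
      · rw [ind_of h3, ind_of ⟨h3.1.1, h3.2⟩]
      · rw [ind_not h3]; exact ind_nonneg _) ht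
  rw [sub_neg_eq_add] at key
  have e : ∑ w, ind (2 * u * Vw Q k2 w ≤ Dw Q k1 k2 lam w) * Vw Q k2 w = ∑ w, ind (W w) * Vw Q k2 w := by
    refine sum_congr rfl fun w _ => ?_
    by_cases h3 : Vw Q k2 w = 0
    · rw [h3, mul_zero, mul_zero]
    · congr 2
      exact propext ⟨fun h => ⟨h3, h⟩, fun h => h.2⟩
  rw [e]
  unfold e2
  have h4 : 0 < u / (2 * B) := by positivity
  have h5 : ∑ w, ind (W w) * Vw Q k2 w = 2 * B / u * (u / (2 * B) * ∑ w, ind (W w) * Vw Q k2 w) := by
    field_simp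
  rw [h5]
  exact mul_le_mul_of_nonneg_left key (by positivity)

/-- pointwise bound of the relative entropy -/
theorem Dw_le (hQ : ∀ a, 0 ≤ Q a) (h1 : Ker Q k1) (h2 : Ker Q k2) {al : ℝ} (hal : 0 < al) (hal1 : al ≤ 1)
    (hth : ∀ x, Vw Q k1 x ≠ 0 → al * fib lam (Vw Q k1) x ≤ Vw Q k1 x) (w : H) :
    Dw Q k1 k2 lam w ≤ Real.log (1 / al) * Vw Q k2 w := by
  have hJ := Jw_nonneg hQ h1 h2
  have h3 : ∑ x, Jw Q k1 k2 x w = Vw Q k2 w := by
    unfold Jw Vw
    rw [sum_comm]
    refine sum_congr rfl fun a _ => ?_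
    by_cases ha : Q a = 0
    · rw [ha]; simp
    · rw [← mul_sum, ← sum_mul, h1.one a ha, one_mul]
  rw [← h3, mul_sum]
  refine sum_le_sum fun x _ => ?_
  rw [mul_comm]
  refine mul_le_mul_of_nonneg_right ?_ (hJ x w)
  have h4 := rat_nonneg (lam := lam) hQ h1 h2 w x
  have h5 := rat_le hQ h1 h2 hal hth w x
  rcases h4.eq_or_lt with h6 | h6
  · rw [← h6, Real.log_zero]
    exact Real.log_nonneg (by rw [le_div_iff₀ hal]; linarith)
  · exact Real.log_le_log h6 h5

/-- **(P2), mean** -/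
theorem p2_mean (hQ : ∀ a, 0 ≤ Q a) (hQ1 : ∑ a, Q a = 1) (h1 : Ker Q k1) (h2 : Ker Q k2) {mu : H → M'}
    {al : ℝ} (hal : 0 < al) (hal1 : al < 1) (hth : ∀ x, Vw Q k1 x ≠ 0 → al * fib lam (Vw Q k1) x ≤ Vw Q k1 x)
    {kap : ℝ} (hk : 0 < kap) (hs : SatE Q k1 lam kap) {k : ℕ} {dl : ℝ} (ht : SatT Q k1 k2 mu k dl) {M : ℝ}
    (hM : ∀ m : M', ∑ w, ind (Vw Q k2 w ≠ 0 ∧ mu w = m) ≤ M) {u : ℝ} (hu : 0 < u) :
    ∑ w, Dw Q k1 k2 lam w ≤ 2 * u + Real.log (1 / al) * e2 u kap (Real.log (1 / al)) M dl k := by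
  have hB0 : 0 < Real.log (1 / al) := Real.log_pos (by rw [lt_div_iff₀ hal]; linarith)
  have h3 := p2_rare hQ hQ1 h1 h2 hal hal1 hth hk hs ht hM hu
  have hV0 := Vw_nonneg hQ h2
  have hV1 : ∑ w, Vw Q k2 w = 1 := by
    unfold Vw
    rw [sum_comm]
    calc ∑ a, ∑ w, Q a * k2 a w = ∑ a, Q a := by
          refine sum_congr rfl fun a _ => ?_
          rw [← mul_sum]
          by_cases ha : Q a = 0
          · rw [ha, zero_mul]
          · rw [h2.one a ha, mul_one]
      _ = 1 := hQ1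
  have h4 : ∀ w, Dw Q k1 k2 lam w ≤ 2 * u * Vw Q k2 w +
      Real.log (1 / al) * (ind (2 * u * Vw Q k2 w ≤ Dw Q k1 k2 lam w) * Vw Q k2 w) := by
    intro w
    by_cases h5 : 2 * u * Vw Q k2 w ≤ Dw Q k1 k2 lam w
    · rw [ind_of h5, one_mul]
      have := Dw_le hQ h1 h2 hal hal1.le hth w
      have h6 : 0 ≤ 2 * u * Vw Q k2 w := mul_nonneg (by linarith) (hV0 w)
      linarith
    · rw [ind_not h5, zero_mul, mul_zero, add_zero]
      push Not at h5
      exact h5.le
  have h5 := sum_le_sum fun w (_ : w ∈ (univ : Finset H)) => h4 w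
  rw [sum_add_distrib, ← mul_sum, ← mul_sum, hV1, mul_one] at h5
  exact h5.trans (by linarith [mul_le_mul_of_nonneg_left h3 hB0.le])

end mix

/-! ## on a probability space -/

section rep

variable {Om : Type*} {κ : Type*}

/-- representative of the fibre -/
def rp (X : Om → κ) (w : Om) : Om := (Quotient.mk (Setoid.ker X) w).out

theorem rp_spec (X : Om → κ) (w : Om) : X (rp X w) = X w :=
  Quotient.exact (s := Setoid.ker X) (Quotient.out_eq _)

theorem rp_eq {X : Om → κ} {v w : Om} (h : X v = X w) : rp X v = rp X w :=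
  congrArg Quotient.out (Quotient.sound (s := Setoid.ker X) h)

theorem rp_iff {X : Om → κ} {v w : Om} : rp X v = rp X w ↔ X v = X w :=
  ⟨fun h => (rp_spec X v).symm.trans ((congrArg X h).trans (rp_spec X w)), rp_eq⟩

theorem exists_fun {X : Om → κ} {f : Om → ℝ} (hf : Fac X f) : ∃ f' : κ → ℝ, ∀ v, f' (X v) = f v := by
  classical
  refine ⟨fun z => if hz : ∃ v, X v = z then f hz.choose else 0, fun v => ?_⟩
  have hz : ∃ u, X u = X v := ⟨v, rfl⟩
  simp only [dif_pos hz]
  exact hf _ _ hz.choose_spec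

end rep

section fp

variable {Om : Type*} [Fintype Om] (P : FP Om) {α κ ι κ' ι' : Type*} {A : Om → α} {X : Om → κ} {Y : Om → ι}
  {Lx : Om → κ'} {My : Om → ι'}

/-- `k` independent samples of a law -/
def iid (q : FP Om) (k : ℕ) : FP (Fin k → Om) where
  p o := smw q.p o
  nn o := smw_nonneg q.nn o
  tot := smw_sum q.tot k

theorem sum_fib (g : Om → ℝ) (r : Om → Om) (F : Om → ℝ) :
    ∑ x, P.E (fun v => g v * ind (r v = x)) * F x = P.E (fun v => g v * F (r v)) := by
  simp only [← P.E_mul_const]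
  rw [← P.E_sum]
  refine P.E_congr fun v _ => ?_
  rw [sum_eq_single (r v)]
  · rw [ind_of rfl, mul_one]
  · intro x _ hx
    rw [ind_not (fun h => hx h.symm), mul_zero, zero_mul]
  · intro hh; exact absurd (mem_univ _) hh

theorem sum_fib' (r : Om → Om) (F : Om → ℝ) : ∑ x, P.E (fun v => ind (r v = x)) * F x = P.E (fun v => F (r v)) := by
  have h := sum_fib P (fun _ => 1) r F
  simp only [one_mul] at h
  exact h

/-- law of the hidden point -/
def Qf (A : Om → α) (a : Om) : ℝ := P.E (fun v => ind (rp A v = a))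

/-- kernel of a letter -/
def kf' (A : Om → α) (X : Om → κ) (a x : Om) : ℝ := P.ce A (fun v => ind (rp X v = x)) a

theorem Qf_nonneg (a : Om) : 0 ≤ Qf P A a := P.E_nonneg fun _ _ => ind_nonneg _

theorem Qf_sum (F : Om → ℝ) : ∑ a, Qf P A a * F a = P.E (fun v => F (rp A v)) := sum_fib' P (rp A) F

theorem Qf_sum_fac {F : Om → ℝ} (hF : Fac A F) : ∑ a, Qf P A a * F a = P.E F := by
  rw [Qf_sum]
  exact P.E_congr fun v _ => hF _ _ (rp_spec A v)

theorem Qf_one : ∑ a, Qf P A a = 1 := by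
  have h := Qf_sum P (A := A) (fun _ => 1)
  simp only [mul_one] at h
  rw [h, P.E_const]

theorem Qf_ne {a : Om} (ha : Qf P A a ≠ 0) : ∃ v, P.p v ≠ 0 ∧ A v = A a := by
  by_contra hcon
  push Not at hcon
  apply ha
  unfold Qf
  rw [← P.E_const 0]
  refine P.E_congr fun v hv => ind_not fun h => ?_
  exact hcon v hv ((rp_spec A v).symm.trans (congrArg A h))

theorem kf'_sum (a : Om) (F : Om → ℝ) : ∑ x, kf' P A X a x * F x = P.ce A (fun v => F (rp X v)) a := by
  unfold kf' FP.ce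
  have h := sum_fib P (fun v => ind (A v = A a)) (rp X) F
  rw [← h, sum_div]
  exact sum_congr rfl fun x _ => by ring

theorem kf'_sum_fac (a : Om) {F : Om → ℝ} (hF : Fac X F) : ∑ x, kf' P A X a x * F x = P.ce A F a := by
  rw [kf'_sum]
  exact P.ce_congr (fun v _ => hF _ _ (rp_spec X v)) a

theorem kf'_ker : Ker (Qf P A) (kf' P A X) where
  nn a x := P.ce_nonneg (fun _ _ => ind_nonneg _) a
  one a ha := by
    obtain ⟨v, hv, hva⟩ := Qf_ne P ha
    have h := kf'_sum P (A := A) (X := X) a (fun _ => 1)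
    simp only [mul_one] at h
    rw [h, ← P.ce_fac A (fun _ => 1) v a hva, P.ce_const A 1 hv]

theorem Vw_fp (x : Om) : Vw (Qf P A) (kf' P A X) x = P.E (fun v => ind (rp X v = x)) := by
  unfold Vw
  have : Fac A (fun a => kf' P A X a x) := P.ce_fac A _
  rw [Qf_sum_fac P this]
  exact P.E_ce A _

theorem Vw_sum (F : Om → ℝ) : ∑ x, Vw (Qf P A) (kf' P A X) x * F x = P.E (fun v => F (rp X v)) := by
  simp only [Vw_fp]
  exact sum_fib' P (rp X) F

/-- the conditional independence for arbitrary functions of the letters -/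
theorem CI.fac (ci : CI P A X Y) {f g : Om → ℝ} (hf : Fac X f) (hg : Fac Y g) {w : Om} (hw : P.p w ≠ 0) :
    P.ce A (fun v => f v * g v) w = P.ce A f w * P.ce A g w := by
  obtain ⟨f', hf'⟩ := exists_fun hf
  obtain ⟨g', hg'⟩ := exists_fun hg
  have h := ci f' g' w hw
  simp only [hf', hg'] at h
  exact h

theorem Jw_fp (ci : CI P A X Y) (x w : Om) :
    Jw (Qf P A) (kf' P A X) (kf' P A Y) x w = P.E (fun v => ind (rp X v = x) * ind (rp Y v = w)) := by
  unfold Jw
  have h1 : Fac A (fun a => kf' P A X a x * kf' P A Y a w) := (P.ce_fac A _).mul (P.ce_fac A _)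
  rw [Qf_sum_fac P h1, ← P.E_ce A (fun v => ind (rp X v = x) * ind (rp Y v = w))]
  refine P.E_congr fun v hv => ?_
  refine (CI.fac P ci ?_ ?_ hv).symm
  · intro a b hab; show ind (rp X a = x) = ind (rp X b = x); rw [rp_eq hab]
  · intro a b hab; show ind (rp Y a = w) = ind (rp Y b = w); rw [rp_eq hab]

theorem Jw_sum (ci : CI P A X Y) (F : Om → Om → ℝ) :
    ∑ w, ∑ x, Jw (Qf P A) (kf' P A X) (kf' P A Y) x w * F w x = P.E (fun v => F (rp Y v) (rp X v)) := by
  simp only [Jw_fp P ci]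
  have h1 : ∀ w, ∑ x, P.E (fun v => ind (rp X v = x) * ind (rp Y v = w)) * F w x =
      P.E (fun v => F w (rp X v) * ind (rp Y v = w)) := by
    intro w
    have h2 := sum_fib P (fun v => ind (rp Y v = w)) (rp X) (F w)
    rw [P.E_congr (g := fun v => ind (rp Y v = w) * F w (rp X v)) fun v _ => mul_comm _ _, ← h2]
    exact sum_congr rfl fun x _ => by rw [P.E_congr fun v _ => mul_comm _ _]
  simp only [h1]
  rw [← P.E_sum]
  refine P.E_congr fun v _ => ?_
  rw [sum_eq_single (rp Y v)]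
  · rw [ind_of rfl, mul_one]
  · intro x _ hx
    rw [ind_not (fun h => hx h.symm), mul_zero]
  · intro hh; exact absurd (mem_univ _) hh

theorem fib_U (hX : Fac X Lx) (x : Om) : fib Lx (Vw (Qf P A) (kf' P A X)) x = P.m Lx x := by
  unfold fib
  have h := Vw_sum P (A := A) (X := X) (fun x' => ind (Lx x' = Lx x))
  rw [sum_congr rfl fun x' _ => mul_comm (ind (Lx x' = Lx x)) _, h]
  unfold FP.m
  exact P.E_congr fun v _ => by rw [hX _ _ (rp_spec X v)]

theorem fib_J (ci : CI P A X Y) (hX : Fac X Lx) (w x : Om) :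
    fib Lx (fun x' => Jw (Qf P A) (kf' P A X) (kf' P A Y) x' w) x =
      P.E (fun v => ind (Lx v = Lx x) * ind (rp Y v = w)) := by
  unfold fib
  simp only [Jw_fp P ci]
  have h := sum_fib P (fun v => ind (rp Y v = w)) (rp X) (fun x' => ind (Lx x' = Lx x))
  have e : ∀ x', ind (Lx x' = Lx x) * P.E (fun v => ind (rp X v = x') * ind (rp Y v = w)) =
      P.E (fun v => ind (rp Y v = w) * ind (rp X v = x')) * ind (Lx x' = Lx x) := by
    intro x'
    rw [mul_comm, P.E_congr fun v _ => mul_comm _ _]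
  rw [sum_congr rfl fun x' _ => e x', h]
  refine P.E_congr fun v _ => ?_
  rw [hX _ _ (rp_spec X v), mul_comm]

/-- the density -/
def dn (X : Om → κ) (Y : Om → ι) (Lx : Om → κ') (v : Om) : ℝ :=
  P.m (fun u => (X u, Y u)) v * P.m Lx v / (P.m (fun u => (Lx u, Y u)) v * P.m X v)

theorem rat_fp (ci : CI P A X Y) (hX : Fac X Lx) (v : Om) :
    rat (Qf P A) (kf' P A X) (kf' P A Y) Lx (rp Y v) (rp X v) = dn P X Y Lx v := by
  unfold rat dn
  rw [fib_U P hX, fib_J P ci hX, Jw_fp P ci, Vw_fp]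
  have e1 : P.E (fun u => ind (rp X u = rp X v) * ind (rp Y u = rp Y v)) = P.m (fun u => (X u, Y u)) v := by
    unfold FP.m
    refine P.E_congr fun u _ => ?_
    rw [← ind_and]
    congr 1
    rw [rp_iff, rp_iff, Prod.mk.injEq]
  have e2 : P.m Lx (rp X v) = P.m Lx v := P.Fac_m Lx _ _ (hX _ _ (rp_spec X v))
  have e3 : P.E (fun u => ind (Lx u = Lx (rp X v)) * ind (rp Y u = rp Y v)) = P.m (fun u => (Lx u, Y u)) v := by
    unfold FP.m
    refine P.E_congr fun u _ => ?_
    rw [← ind_and]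
    congr 1
    rw [rp_iff, hX _ _ (rp_spec X v), Prod.mk.injEq]
  have e4 : P.E (fun u => ind (rp X u = rp X v)) = P.m X v := by
    unfold FP.m
    exact P.E_congr fun u _ => by rw [rp_iff]
  rw [e1, e2, e3, e4]

/-- the information -/
theorem I_dn (hX : Fac X Lx) : P.I X Y Lx = P.E (fun v => Real.log (dn P X Y Lx v)) := by
  rw [P.I_eq_E_log]
  refine P.E_congr fun v _ => ?_
  unfold dn
  rw [P.m_congr (X := fun v => (X v, Y v, Lx v)) (Y := fun v => (X v, Y v))
    (by intro a b h; simp only [Prod.mk.injEq] at h ⊢; tauto)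
    (by intro a b h; simp only [Prod.mk.injEq] at h ⊢; exact ⟨h.1, h.2, hX a b h.1⟩),
    P.m_congr (X := fun v => (X v, Lx v)) (Y := X) (Fac.fst _ _) ((Fac.refl X).prod hX),
    P.m_congr (X := fun v => (Y v, Lx v)) (Y := fun v => (Lx v, Y v))
      (by intro a b h; simp only [Prod.mk.injEq] at h ⊢; tauto)
      (by intro a b h; simp only [Prod.mk.injEq] at h ⊢; tauto), mul_comm (P.m X v)]

/-- saturation of the tests of `X` inside the events of the hidden point -/
def SatEv (A : Om → α) (X : Om → κ) (Lx : Om → κ') (kap : ℝ) : Prop :=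
  ∀ E : Om → Prop, Fac A E → P.Pr E ≠ 0 → ∀ f : Om → ℝ, Fac X f →
    (∀ w, P.p w ≠ 0 → P.ce Lx (fun v => Real.exp (f v)) w ≤ 1) →
    (P.cond E).E f ≤ kap * (Real.log (1 / P.Pr E) + 1)

/-- `k` samples of `X` given the hidden point -/
def smp (A : Om → α) (w : Om) (k : ℕ) : FP (Fin k → Om) := iid (P.cond fun v => A v = A w) k

/-- closeness of the samples and `My` -/
def SatSm (A : Om → α) (X : Om → κ) (My : Om → ι') (k : ℕ) (dl : ℝ) : Prop :=
  ∀ T : Om → (Fin k → Om) → ℝ, (∀ m x, 0 ≤ T m x ∧ T m x ≤ 1) → (∀ x, Fac My fun m => T m x) →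
    (∀ m, ∀ x y : Fin k → Om, (∀ i, X (x i) = X (y i)) → T m x = T m y) →
    P.E (fun w => (smp P A w k).E (T w)) ≤ P.E (fun w => P.E fun v => (smp P A v k).E (T w)) + dl

theorem satE_fp {kap : ℝ} (hX : Fac X Lx) (hs : SatEv P A X Lx kap) : SatE (Qf P A) (kf' P A X) Lx kap := by
  intro E hE f hf
  have e1 : ∑ a, Qf P A a * ind (E a) = P.Pr (fun v => E (rp A v)) := Qf_sum P (fun a => ind (E a))
  have hFE : Fac A (fun v => E (rp A v)) := fun a b hab => by
    show E (rp A a) = E (rp A b); rw [rp_eq hab]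
  have hFf : Fac X (fun v => f (rp X v)) := fun a b hab => by
    show f (rp X a) = f (rp X b); rw [rp_eq hab]
  rw [e1] at hE ⊢
  have h1 := hs _ hFE hE.ne' _ hFf (fun w hw => by
    have h2 := hf w
    rw [fib_U P hX] at h2
    have h3 : fib Lx (fun x' => Vw (Qf P A) (kf' P A X) x' * Real.exp (f x')) w =
        P.E (fun v => ind (Lx v = Lx w) * Real.exp (f (rp X v))) := by
      unfold fib
      have h := Vw_sum P (A := A) (X := X) (fun x' => ind (Lx x' = Lx w) * Real.exp (f x'))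
      rw [sum_congr rfl fun x' _ => mul_left_comm (ind (Lx x' = Lx w)) _ _, h]
      exact P.E_congr fun v _ => by rw [hX _ _ (rp_spec X v)]
    rw [h3] at h2
    unfold FP.ce
    rw [div_le_one (P.m_pos Lx hw)]
    exact h2)
  have e2 : ∑ a, Qf P A a * (ind (E a) * ∑ x, kf' P A X a x * f x) =
      P.Pr (fun v => E (rp A v)) * (P.cond (fun v => E (rp A v))).E (fun v => f (rp X v)) := by
    rw [FP.Pr_mul_cond_E hE.ne', Qf_sum P (fun a => ind (E a) * ∑ x, kf' P A X a x * f x)]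
    have h4 : Fac A (fun v => ind (E (rp A v))) := hFE.comp ind
    rw [← P.E_mul_ce h4 (fun v => f (rp X v))]
    refine P.E_congr fun v _ => ?_
    rw [kf'_sum, P.ce_fac A _ _ _ (rp_spec A v)]
  rw [e2]
  exact mul_le_mul_of_nonneg_left h1 (P.Pr_nonneg _)

/-- the kernel of the samples -/
theorem smp_sum {w : Om} (hw : P.p w ≠ 0) (k : ℕ) (F : (Fin k → Om) → ℝ) :
    ∑ x, smw (kf' P A X (rp A w)) x * F x = (smp P A w k).E (fun o => F (fun i => rp X (o i))) := by
  classical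
  set q := P.cond fun v => A v = A w with hq
  have h1 : ∀ x, kf' P A X (rp A w) x = q.E (fun v => ind (rp X v = x)) := by
    intro x
    unfold kf'
    rw [P.ce_fac A _ _ _ (rp_spec A w), P.ce_eq_cond A _ hw]
  have h2 : ∀ x : Fin k → Om, smw (kf' P A X (rp A w)) x =
      ∑ o : Fin k → Om, smw q.p o * ∏ i, ind (rp X (o i) = x i) := by
    intro x
    unfold smw
    simp only [h1]
    have h := Finset.prod_univ_sum (fun _ : Fin k => (univ : Finset Om)) (fun i v => q.p v * ind (rp X v = x i))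
    rw [Fintype.piFinset_univ] at h
    unfold FP.E
    rw [h]
    exact sum_congr rfl fun o _ => prod_mul_distrib
  have h3 : ∀ (o x : Fin k → Om), ∏ i, ind (rp X (o i) = x i) = ind ((fun i => rp X (o i)) = x) := by
    intro o x
    by_cases h : (fun i => rp X (o i)) = x
    · rw [ind_of h]
      refine prod_eq_one fun i _ => ind_of ?_
      rw [← h]
    · rw [ind_not h]
      rw [funext_iff] at h
      push Not at h
      obtain ⟨i, hi⟩ := h
      exact prod_eq_zero (mem_univ i) (ind_not hi)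
  simp only [h2, h3]
  simp only [sum_mul]
  rw [sum_comm]
  show _ = ∑ o, smw q.p o * F (fun i => rp X (o i))
  refine sum_congr rfl fun o _ => ?_
  rw [sum_eq_single (fun i => rp X (o i))]
  · rw [ind_of rfl, mul_one]
  · intro x _ hx
    rw [ind_not (fun h => hx h.symm), mul_zero, zero_mul]
  · intro hh; exact absurd (mem_univ _) hh

theorem satT_fp {k : ℕ} {dl : ℝ} (hY : Fac Y My) (hs : SatSm P A X My k dl) :
    SatT (Qf P A) (kf' P A X) (kf' P A Y) My k dl := by
  intro T hT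
  have h1 := hs (fun m x => T (My m) (fun i => rp X (x i))) (fun m x => hT _ _)
    (fun x a b hab => by show T (My a) _ = T (My b) _; rw [hab])
    (fun m x y hxy => by
      show T (My m) _ = T (My m) _
      congr 1
      funext i
      exact rp_eq (hxy i))
  have e1 : ∑ a, Qf P A a * ∑ w, kf' P A Y a w * ∑ x, smw (kf' P A X a) x * T (My w) x =
      P.E (fun w => (smp P A w k).E (fun o => T (My w) (fun i => rp X (o i)))) := by
    rw [Qf_sum P (fun a => ∑ w, kf' P A Y a w * ∑ x, smw (kf' P A X a) x * T (My w) x),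
      ← P.E_ce A (fun w => (smp P A w k).E (fun o => T (My w) (fun i => rp X (o i))))]
    refine P.E_congr fun v hv => ?_
    have h2 : Fac Y (fun w => ∑ x, smw (kf' P A X (rp A v)) x * T (My w) x) := fun a b hab => by
      show ∑ x, smw (kf' P A X (rp A v)) x * T (My a) x = ∑ x, smw (kf' P A X (rp A v)) x * T (My b) x
      rw [hY a b hab]
    rw [kf'_sum_fac P _ h2, P.ce_fac A _ _ _ (rp_spec A v)]
    unfold FP.ce
    congr 1
    refine P.E_congr fun u hu => ?_
    by_cases huv : A u = A v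
    · rw [ind_of huv, one_mul, one_mul, ← rp_eq huv]
      exact smp_sum P hu k (fun x => T (My u) x)
    · rw [ind_not huv, zero_mul, zero_mul]
  have e2 : ∑ w, Vw (Qf P A) (kf' P A Y) w * ∑ a, Qf P A a * ∑ x, smw (kf' P A X a) x * T (My w) x =
      P.E (fun w => P.E fun v => (smp P A v k).E (fun o => T (My w) (fun i => rp X (o i)))) := by
    rw [Vw_sum P (A := A) (X := Y) (fun w => ∑ a, Qf P A a * ∑ x, smw (kf' P A X a) x * T (My w) x)]
    refine P.E_congr fun w _ => ?_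
    rw [Qf_sum P (fun a => ∑ x, smw (kf' P A X a) x * T (My (rp Y w)) x)]
    refine P.E_congr fun v hv => ?_
    rw [smp_sum P hv k, hY _ _ (rp_spec Y w)]
  rw [e1, e2]
  exact h1

/-- thick letters: number of the letters over one lower part -/
theorem thick_card {al : ℝ} (hal : 0 < al) (hY : Fac Y My) (hth : ∀ v, P.p v ≠ 0 → al * P.m My v ≤ P.m Y v) (m : ι') :
    ∑ w, ind (Vw (Qf P A) (kf' P A Y) w ≠ 0 ∧ My w = m) ≤ 1 / al := by
  classical
  rw [le_div_iff₀ hal]
  by_cases hm : ∃ v, P.p v ≠ 0 ∧ My v = m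
  · obtain ⟨v0, hv0, hm0⟩ := hm
    have hp := P.m_pos My hv0
    have h1 : ∀ w, ind (Vw (Qf P A) (kf' P A Y) w ≠ 0 ∧ My w = m) * (al * P.m My v0) ≤
        P.E (fun v => ind (My v = m) * ind (rp Y v = w)) := by
      intro w
      by_cases hw : Vw (Qf P A) (kf' P A Y) w ≠ 0 ∧ My w = m
      · rw [ind_of hw, one_mul]
        have h2 := hw.1
        rw [Vw_fp] at h2
        obtain ⟨v, hv, hvw⟩ : ∃ v, P.p v ≠ 0 ∧ rp Y v = w := by
          by_contra hcon
          push Not at hcon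
          apply h2
          rw [← P.E_const 0]
          exact P.E_congr fun v hv => ind_not (hcon v hv)
        have hMv : My v = m := by rw [← hY _ _ (rp_spec Y v), hvw, hw.2]
        have h3 := hth v hv
        rw [P.Fac_m My v v0 (by rw [hMv, hm0])] at h3
        refine h3.trans ?_
        unfold FP.m
        refine P.E_mono fun u _ => ?_
        rw [← ind_and]
        refine ind_mono fun hu => ⟨by rw [← hMv]; exact hY u v hu, by rw [← hvw]; exact rp_eq hu⟩
      · rw [ind_not hw, zero_mul]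
        exact P.E_nonneg fun _ _ => mul_nonneg (ind_nonneg _) (ind_nonneg _)
    have h2 := sum_le_sum fun w (_ : w ∈ (univ : Finset Om)) => h1 w
    have h3 := sum_fib P (fun v => ind (My v = m)) (rp Y) (fun _ => 1)
    simp only [mul_one] at h3
    rw [← sum_mul, h3] at h2
    have h4 : P.E (fun v => ind (My v = m)) = P.m My v0 := by
      unfold FP.m
      exact P.E_congr fun v _ => by rw [hm0]
    rw [h4] at h2
    have h5 : (∑ w, ind (Vw (Qf P A) (kf' P A Y) w ≠ 0 ∧ My w = m)) * al * P.m My v0 ≤ 1 * P.m My v0 := by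
      rw [one_mul, mul_assoc]; exact h2
    exact le_of_mul_le_mul_right h5 hp
  · have : ∑ w, ind (Vw (Qf P A) (kf' P A Y) w ≠ 0 ∧ My w = m) = 0 := by
      refine sum_eq_zero fun w _ => ind_not fun hw => ?_
      obtain ⟨h2, hw2⟩ := hw
      rw [Vw_fp] at h2
      apply h2
      rw [← P.E_const 0]
      refine P.E_congr fun v hv => ind_not fun hvw => hm ⟨v, hv, ?_⟩
      rw [← hY _ _ (rp_spec Y v), hvw, hw2]
    rw [this, zero_mul]
    exact zero_le_one

variable {P}

theorem thx_fp {al : ℝ} (hX : Fac X Lx) (hth : ∀ v, P.p v ≠ 0 → al * P.m Lx v ≤ P.m X v) (x : Om)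
    (hx : Vw (Qf P A) (kf' P A X) x ≠ 0) :
    al * fib Lx (Vw (Qf P A) (kf' P A X)) x ≤ Vw (Qf P A) (kf' P A X) x := by
  rw [fib_U P hX, Vw_fp] at *
  obtain ⟨v, hv, hvx⟩ : ∃ v, P.p v ≠ 0 ∧ rp X v = x := by
    by_contra hcon
    push Not at hcon
    apply hx
    rw [← P.E_const 0]
    exact P.E_congr fun v hv => ind_not (hcon v hv)
  have h1 := hth v hv
  have h2 : P.m Lx x = P.m Lx v := P.Fac_m Lx _ _ (by rw [← hvx, hX _ _ (rp_spec X v)])
  rw [h2]
  refine h1.trans (le_of_eq ?_)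
  unfold FP.m
  refine P.E_congr fun u _ => ?_
  rw [← hvx, rp_iff]

/-- **(P2) on a probability space, mean** -/
theorem p2_I (ci : CI P A X Y) (hX : Fac X Lx) (hY : Fac Y My) {al : ℝ} (hal : 0 < al) (hal1 : al < 1)
    (thX : ∀ v, P.p v ≠ 0 → al * P.m Lx v ≤ P.m X v) (thY : ∀ v, P.p v ≠ 0 → al * P.m My v ≤ P.m Y v)
    {kap : ℝ} (hk : 0 < kap) (hs : SatEv P A X Lx kap) {k : ℕ} {dl : ℝ} (ht : SatSm P A X My k dl)
    {u : ℝ} (hu : 0 < u) :
    P.I X Y Lx ≤ 2 * u + Real.log (1 / al) * e2 u kap (Real.log (1 / al)) (1 / al) dl k := by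
  have h := p2_mean (Qf_nonneg P (A := A)) (Qf_one P) (kf'_ker P) (kf'_ker P) hal hal1 (thx_fp hX thX) hk
    (satE_fp P hX hs) (satT_fp P hY ht) (thick_card P hal hY thY) hu
  refine le_trans (le_of_eq ?_) h
  rw [I_dn P hX]
  unfold Dw
  rw [Jw_sum P ci (fun w x => Real.log (rat (Qf P A) (kf' P A X) (kf' P A Y) Lx w x))]
  exact P.E_congr fun v _ => by rw [rat_fp P ci hX]

/-- the relative entropy of the law of `X` given `Y`, against `P(X | Lx)` -/
def klY (P : FP Om) (X : Om → κ) (Y : Om → ι) (Lx : Om → κ') (w : Om) : ℝ :=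
  P.ce Y (fun v => Real.log (dn P X Y Lx v)) w

/-- **(P2) on a probability space, rare letters** -/
theorem p2_Pr (ci : CI P A X Y) (hX : Fac X Lx) (hY : Fac Y My) {al : ℝ} (hal : 0 < al) (hal1 : al < 1)
    (thX : ∀ v, P.p v ≠ 0 → al * P.m Lx v ≤ P.m X v) (thY : ∀ v, P.p v ≠ 0 → al * P.m My v ≤ P.m Y v)
    {kap : ℝ} (hk : 0 < kap) (hs : SatEv P A X Lx kap) {k : ℕ} {dl : ℝ} (ht : SatSm P A X My k dl)
    {u : ℝ} (hu : 0 < u) :
    P.Pr (fun w => 2 * u ≤ klY P X Y Lx w) ≤ e2 u kap (Real.log (1 / al)) (1 / al) dl k := by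
  have h := p2_rare (Qf_nonneg P (A := A)) (Qf_one P) (kf'_ker P) (kf'_ker P) hal hal1 (thx_fp hX thX) hk
    (satE_fp P hX hs) (satT_fp P hY ht) (thick_card P hal hY thY) hu
  refine le_trans (le_of_eq ?_) h
  have hD : ∀ w, Dw (Qf P A) (kf' P A X) (kf' P A Y) Lx w =
      P.E (fun v => ind (rp Y v = w) * Real.log (dn P X Y Lx v)) := by
    intro w
    have h1 := Jw_sum P ci (fun w' x => ind (w' = w) * Real.log (rat (Qf P A) (kf' P A X) (kf' P A Y) Lx w' x))
    rw [P.E_congr (g := fun v => ind (rp Y v = w) * Real.log (dn P X Y Lx v)) fun v _ => by rw [rat_fp P ci hX]] at h1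
    rw [← h1, sum_eq_single w]
    · unfold Dw
      exact sum_congr rfl fun x _ => by rw [ind_of rfl, one_mul]
    · intro w' _ hw'
      refine sum_eq_zero fun x _ => ?_
      rw [ind_not hw', zero_mul, mul_zero]
    · intro hh; exact absurd (mem_univ _) hh
  have hV : ∀ w, Vw (Qf P A) (kf' P A Y) w = P.E (fun v => ind (rp Y v = w)) := Vw_fp P
  have h2 : ∑ w, ind (2 * u * Vw (Qf P A) (kf' P A Y) w ≤ Dw (Qf P A) (kf' P A X) (kf' P A Y) Lx w) *
      Vw (Qf P A) (kf' P A Y) w = P.E (fun v => ind (2 * u * Vw (Qf P A) (kf' P A Y) (rp Y v) ≤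
        Dw (Qf P A) (kf' P A X) (kf' P A Y) Lx (rp Y v))) := by
    rw [← Vw_sum P (A := A) (X := Y)
      (fun w => ind (2 * u * Vw (Qf P A) (kf' P A Y) w ≤ Dw (Qf P A) (kf' P A X) (kf' P A Y) Lx w))]
    exact sum_congr rfl fun w _ => mul_comm _ _
  rw [h2]
  unfold FP.Pr
  refine P.E_congr fun v hv => ?_
  congr 1
  have e1 : Vw (Qf P A) (kf' P A Y) (rp Y v) = P.m Y v := by
    rw [hV]
    unfold FP.m
    exact P.E_congr fun u _ => by rw [rp_iff]
  have e2 : Dw (Qf P A) (kf' P A X) (kf' P A Y) Lx (rp Y v) = P.m Y v * klY P X Y Lx v := by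
    rw [hD]
    unfold klY FP.ce
    rw [mul_div_cancel₀ _ (P.m_pos Y hv).ne']
    exact P.E_congr fun u _ => by rw [rp_iff]
  rw [e1, e2]
  refine propext ⟨fun h3 => ?_, fun h3 => ?_⟩
  · rw [mul_comm]; exact mul_le_mul_of_nonneg_left h3 (P.m_nonneg Y v)
  · have hp := P.m_pos Y hv
    rw [mul_comm] at h3
    exact le_of_mul_le_mul_left h3 hp

end fp

/-! ## total variation -/

section tv

variable {Om : Type*} [Fintype Om] (P : FP Om) {κ ι κ' : Type*}

/-- total variation (the sum of the absolute values) of the joint law and the product law -/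
def tvs (X : Om → κ) (Y : Om → ι) : ℝ := ∑ x ∈ vals X, ∑ y ∈ vals Y, |lw2 P X Y x y - lw P X x * lw P Y y|

theorem tvs_nonneg (X : Om → κ) (Y : Om → ι) : 0 ≤ tvs P X Y := sum_nonneg fun _ _ => sum_nonneg fun _ _ => abs_nonneg _

theorem lw_m (X : Om → κ) (w : Om) : lw P X (X w) = P.m X w := rfl

theorem lw2_m (X : Om → κ) (Y : Om → ι) (w : Om) : lw2 P X Y (X w) (Y w) = P.m (fun v => (X v, Y v)) w := by
  unfold lw2 FP.m
  refine P.E_congr fun v _ => ?_
  rw [← ind_and, Prod.mk.injEq]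

/-- **Pinsker for two letters** -/
theorem tvs_sq (X : Om → κ) (Y : Om → ι) : tvs P X Y ^ 2 ≤ 2 * P.I X Y (fun _ => ()) := by
  classical
  set d : κ × ι → ℝ := fun z => if 0 ≤ lw2 P X Y z.1 z.2 - lw P X z.1 * lw P Y z.2 then 1 else -1 with hd
  have h0 : ∀ x y, lw P X x * lw P Y y = 0 → lw2 P X Y x y = 0 := by
    intro x y hxy
    have h1 := lw2_nonneg P X Y x y
    have h2 : lw2 P X Y x y ≤ lw P X x := P.E_mono fun w _ => by
      have := mul_le_mul_of_nonneg_left (ind_le_one (Y w = y)) (ind_nonneg (X w = x))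
      rwa [mul_one] at this
    have h3 : lw2 P X Y x y ≤ lw P Y y := P.E_mono fun w _ => by
      have := mul_le_mul_of_nonneg_right (ind_le_one (X w = x)) (ind_nonneg (Y w = y))
      rwa [one_mul] at this
    rcases mul_eq_zero.1 hxy with h | h
    · linarith
    · linarith
  have key := pinsker_vec (vals X ×ˢ vals Y) (p := fun z => lw2 P X Y z.1 z.2) (q := fun z => lw P X z.1 * lw P Y z.2)
    (d := d) (fun z _ => lw2_nonneg P X Y _ _) (fun z _ => mul_nonneg (lw_nonneg P X _) (lw_nonneg P Y _))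
    (by
      rw [sum_product, sum_congr rfl fun x _ => sum_lw2_row P X Y x]
      exact sum_lw_one P X)
    (by
      rw [sum_product]
      simp only [← mul_sum]
      rw [sum_lw_one P Y]
      simp only [mul_one]
      exact sum_lw_one P X)
    (fun z _ h => h0 _ _ h)
    (fun z _ => by
      rw [hd]
      by_cases h : 0 ≤ lw2 P X Y z.1 z.2 - lw P X z.1 * lw P Y z.2
      · simp only [if_pos h]; exact Or.inl trivial
      · simp only [if_neg h]; exact Or.inr trivial)
  have e1 : ∑ z ∈ vals X ×ˢ vals Y, lw2 P X Y z.1 z.2 * d z - ∑ z ∈ vals X ×ˢ vals Y, lw P X z.1 * lw P Y z.2 * d z =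
      tvs P X Y := by
    rw [← sum_sub_distrib, sum_product]
    unfold tvs
    refine sum_congr rfl fun x _ => sum_congr rfl fun y _ => ?_
    rw [← sub_mul, hd]
    by_cases h : 0 ≤ lw2 P X Y x y - lw P X x * lw P Y y
    · simp only [if_pos h]
      rw [abs_of_nonneg h, mul_one]
    · simp only [if_neg h]
      push Not at h
      rw [abs_of_neg h, mul_neg, mul_one]
  have e2 : ∑ z ∈ vals X ×ˢ vals Y, lw2 P X Y z.1 z.2 * Real.log (lw2 P X Y z.1 z.2 / (lw P X z.1 * lw P Y z.2)) =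
      P.I X Y (fun _ => ()) := by
    rw [sum_product, sum_lw2 P X Y (fun x y => Real.log (lw2 P X Y x y / (lw P X x * lw P Y y))), P.I_eq_E_log]
    refine P.E_congr fun w _ => ?_
    have h1 : P.m (fun _ : Om => ()) w = 1 := by
      unfold FP.m
      rw [P.E_congr (g := fun _ => 1) fun v _ => ind_of rfl, P.E_const]
    rw [lw2_m, lw_m, lw_m, h1, mul_one,
      P.m_congr (X := fun v => (X v, Y v, ())) (Y := fun v => (X v, Y v))
        (by intro a b h; simp only [Prod.mk.injEq] at h ⊢; tauto) (by intro a b h; simp only [Prod.mk.injEq] at h ⊢; tauto),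
      P.m_congr (X := fun v => (X v, ())) (Y := X) (Fac.fst _ _) ((Fac.refl X).prod (Fac.const X ())),
      P.m_congr (X := fun v => (Y v, ())) (Y := Y) (Fac.fst _ _) ((Fac.refl Y).prod (Fac.const Y ()))]
  rw [e1, e2] at key
  exact key

/-- the information as a mean over the classes of the condition -/
theorem I_classes (X : Om → κ) (Y : Om → ι) (Z : Om → κ') :
    P.I X Y Z = P.E (fun w => (P.cond fun v => Z v = Z w).I X Y (fun _ => ())) := by
  rw [P.I_eq_E_log, ← P.E_ce Z]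
  refine P.E_congr fun w hw => ?_
  rw [P.ce_eq_cond Z _ hw, FP.I_eq_E_log]
  refine FP.E_congr _ fun v hv => ?_
  obtain ⟨hz, hpv⟩ := (FP.cond_p_ne (P.m_pos Z hw).ne').1 hv
  have hm := (P.m_pos Z hw).ne'
  have h1 : (P.cond fun u => Z u = Z w).m (fun _ : Om => ()) v = 1 := by
    unfold FP.m
    rw [FP.E_congr _ (g := fun _ => 1) fun v _ => ind_of rfl, FP.E_const]
  have h2 : (P.cond fun u => Z u = Z w).m (fun u => (X u, Y u, ())) v = P.m (fun u => (X u, Y u, Z u)) v / P.m Z w := by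
    have h3 := P.cond_m_fibre (fun u => (X u, Y u)) Z hw hz
    rw [FP.m_congr _ (X := fun u => (X u, Y u)) (Y := fun u => (X u, Y u, ()))
        (by intro a b h; simp only [Prod.mk.injEq] at h ⊢; tauto)
        (by intro a b h; simp only [Prod.mk.injEq] at h ⊢; tauto) v] at h3
    rw [h3]
    congr 1
    exact P.m_congr (by intro a b h; simp only [Prod.mk.injEq] at h ⊢; tauto)
        (by intro a b h; simp only [Prod.mk.injEq] at h ⊢; tauto) v
  have h4 : (P.cond fun u => Z u = Z w).m (fun u => (X u, ())) v = P.m (fun u => (X u, Z u)) v / P.m Z w := by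
    rw [← P.cond_m_fibre X Z hw hz]
    exact FP.m_congr _ (Fac.fst _ _) ((Fac.refl X).prod (Fac.const X ())) v
  have h5 : (P.cond fun u => Z u = Z w).m (fun u => (Y u, ())) v = P.m (fun u => (Y u, Z u)) v / P.m Z w := by
    rw [← P.cond_m_fibre Y Z hw hz]
    exact FP.m_congr _ (Fac.fst _ _) ((Fac.refl Y).prod (Fac.const Y ())) v
  rw [h1, h2, h4, h5, P.Fac_m Z v w hz]
  congr 1
  have a := (P.m_pos (fun u => (X u, Z u)) hpv).ne'
  have b := (P.m_pos (fun u => (Y u, Z u)) hpv).ne'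
  field_simp

/-- **conditional form** -/
theorem tvs_cond (X : Om → κ) (Y : Om → ι) (Z : Om → κ') :
    P.E (fun w => tvs (P.cond fun v => Z v = Z w) X Y ^ 2) ≤ 2 * P.I X Y Z := by
  rw [I_classes P X Y Z, ← P.E_smul]
  exact P.E_mono fun w _ => tvs_sq _ X Y

/-- joint law of two letters in terms of the lower part of the first -/
theorem tvs_le {Lx : Om → κ'} {X : Om → κ} (hX : Fac X Lx) (Y : Om → ι) {a b : ℝ} (ha : P.I Lx Y (fun _ => ()) ≤ a)
    (hb : P.I X Y Lx ≤ b) : tvs P X Y ≤ Real.sqrt (2 * (a + b)) := by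
  refine Real.le_sqrt_of_sq_le ((tvs_sq P X Y).trans ?_)
  have h1 := P.I_chain X Lx Y (fun _ => ())
  have h2 : P.I X Y (fun _ => ()) = P.I (fun w => (X w, Lx w)) Y (fun _ => ()) := by
    rw [P.I_comm X Y, P.I_comm (fun w => (X w, Lx w)) Y]
    exact P.I_congr ((Fac.refl X).prod hX) (Fac.fst _ _)
  have h3 : P.I X Y (fun w => (Lx w, ())) = P.I X Y Lx := P.I_congr_cond (Fac.fst _ _) ((Fac.refl Lx).prod (Fac.const Lx ()))
  rw [h2, h1, h3]
  linarith

end tv

end

end Pool.Agent.GMH.P2a
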