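import Pool.Agent.GMH.Rare
import Pool.Agent.GMH.RowP
import Pool.Agent.GMH.P2

/-!
# GMH/GhoC (helper50): GHOST WORLDS, THE WITNESSES OF THE COVERED PIECES (note 4001 (3), (5), H3.T T.6 - T.8)

A row `rho` at the point `c` is tested by its values at keys `d 1, .., d k` (points of the opposite vertex), `pass`.
* `own_fail`, `for_pass` : Hoeffding: a row which passes all exact tests (levels `hi`) fails the sample test (levels `mid`)
  with probability `≤ |I| ep`, a row which misses an exact test (levels `lo`) passes with probability `≤ ep`,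
  `ep = exp (- k δ^2 / (8 R^2))`;
* `piece` : keys i.i.d. in the set `SS`: with probability `≥ 1/2` at least one half of the piece has its own row in the
  sample set and a sample set of class mass `≤ 2 mu`;
* `to_coins` : keys = uniform coins hardwired afterwards: the factor is `P(SS)^k`;
* `coins_rare` : families of `j` pieces: an event which has probability `≤ e1 y^j` for every value of the coins has
  probability `≤ 2 e1 y/δ` in total if the coins are good with probability `≥ δ^j`;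
* `CH` = setting of one class, `Fam` = family `J` of disjoint pieces of total density `κ ≥ |J| u/4` at a point;
  `Bad_le` : the bad hidden points have probability `≤ 2 e (B/δ) e^(-x)`, `B = |Lx| B1^k`, `δ = δ1^k / 2`, `x = N u / 32`;
  `ghost_cover` : at the other points a family has witnesses: event `A` of (thin letter, point) with `κ/8 ≤ Q A`;
  `thin` : `A` has old conditional probability `≤ |J| 2 mu h`; `ghost_paid` : `κ t / 16 ≤ klc` (gain of the thin letter);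
* `phi_fam` : from the potential of a greedy cover to the family of its large pieces;
* tests: `tsS`, `own_signed`, `cls_signed`, `cls_heavy` (rows signed), `own_uns`, `cls_uns` (unsigned).
-/

set_option autoImplicit false
set_option linter.unusedSectionVars false

namespace Pool.Agent.GMH.GhoC

open Finset Pool.Agent.PWZ Pool.Agent.M3

noncomputable section

/-! ## sample tests -/

section smp

variable {D : Type*} [Fintype D]

/-- law of `k` keys -/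
abbrev smp (ν : FP D) (k : ℕ) : FP (Fin k → D) := FPpi fun _ : Fin k => ν

/-- the sample test -/
def pass {ι : Type*} (I : Finset ι) (mid : ι → ℝ) {k : ℕ} (a : ι → Fin k → ℝ) : Prop :=
  ∀ i ∈ I, k * mid i ≤ ∑ r, a i r

theorem hoeff1 (ν : FP D) {g : D → ℝ} {R0 s : ℝ} (hR : 0 < R0) (hg : ∀ d, |g d| ≤ R0) (hs : 0 ≤ s) (k : ℕ) :
    (smp ν k).Pr (fun x => k * s ≤ ∑ r, (g (x r) - ν.E g)) ≤ Real.exp (-(k * s ^ 2 / (8 * R0 ^ 2))) := by
  have hE : |ν.E g| ≤ R0 := (ν.abs_E_le g).trans (ν.E_le_const fun d _ => hg d)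
  have h := P2a.hoeff (q := ν.p) ν.nn ν.tot (g := g) (m := ν.E g) (R := 2 * R0) (by linarith) rfl
    (fun d _ => (abs_sub _ _).trans (by have := hg d; linarith)) hs k
  refine le_trans (le_of_eq ?_) (h.trans (le_of_eq ?_))
  · rfl
  · congr 3
    ring

variable {ι : Type*} {I : Finset ι} {f : ι → D → ℝ} {hi mid lo : ι → ℝ} {R0 δ : ℝ}

/-- a row which passes the exact tests fails the sample test rarely -/
theorem own_fail (ν : FP D) (hR : 0 < R0) (hδ : 0 ≤ δ) (hf : ∀ i d, |f i d| ≤ R0) (hg : ∀ i ∈ I, mid i + δ ≤ hi i)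
    (h : ∀ i ∈ I, hi i ≤ ν.E (f i)) (k : ℕ) :
    (smp ν k).Pr (fun x => ¬ pass I mid fun i r => f i (x r)) ≤ I.card * Real.exp (-(k * δ ^ 2 / (8 * R0 ^ 2))) := by
  have h1 : (smp ν k).Pr (fun x => ¬ pass I mid fun i r => f i (x r)) ≤
      (smp ν k).Pr (fun x => ∃ i ∈ I, k * δ ≤ ∑ r, (- f i (x r) - ν.E (fun d => - f i d))) := by
    refine (smp ν k).Pr_mono fun x _ hx => ?_
    unfold pass at hx
    push Not at hx
    obtain ⟨i, hi1, hi2⟩ := hx
    refine ⟨i, hi1, ?_⟩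
    rw [ν.E_neg, sum_sub_distrib, sum_neg_distrib, sum_const, card_univ, Fintype.card_fin, nsmul_eq_mul]
    have h2 : (k : ℝ) * (mid i + δ) ≤ k * ν.E (f i) :=
      mul_le_mul_of_nonneg_left ((hg i hi1).trans (h i hi1)) (Nat.cast_nonneg k)
    linarith
  have h3 : ∀ i ∈ I, (smp ν k).Pr (fun x => k * δ ≤ ∑ r, (- f i (x r) - ν.E (fun d => - f i d))) ≤
      Real.exp (-(k * δ ^ 2 / (8 * R0 ^ 2))) := fun i _ =>
    hoeff1 ν hR (g := fun d => - f i d) (fun d => by rw [abs_neg]; exact hf i d) hδ k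
  have h4 := sum_le_sum h3
  rw [sum_const, nsmul_eq_mul] at h4
  exact h1.trans (((smp ν k).Pr_ex_le I fun i x => k * δ ≤ ∑ r, (- f i (x r) - ν.E (fun d => - f i d))).trans h4)

/-- a row which misses an exact test passes the sample test rarely -/
theorem for_pass (ν : FP D) (hR : 0 < R0) (hδ : 0 ≤ δ) (hf : ∀ i d, |f i d| ≤ R0) (hg : ∀ i ∈ I, lo i + δ ≤ mid i)
    (h : ∃ i ∈ I, ν.E (f i) ≤ lo i) (k : ℕ) :
    (smp ν k).Pr (fun x => pass I mid fun i r => f i (x r)) ≤ Real.exp (-(k * δ ^ 2 / (8 * R0 ^ 2))) := by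
  obtain ⟨i, hi1, hi2⟩ := h
  refine le_trans ((smp ν k).Pr_mono fun x _ hx => ?_) (hoeff1 ν hR (fun d => hf i d) hδ k)
  have h1 := hx i hi1
  show (k : ℝ) * δ ≤ ∑ r, (f i (x r) - ν.E (f i))
  rw [sum_sub_distrib, sum_const, card_univ, Fintype.card_fin, nsmul_eq_mul]
  have h2 : (k : ℝ) * (ν.E (f i) + δ) ≤ k * mid i :=
    mul_le_mul_of_nonneg_left (by have := hg i hi1; linarith) (Nat.cast_nonneg k)
  linarith

end smp

/-! ## one piece -/

section piece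

variable {C D Rw ι : Type*} [Fintype C] [Fintype D] [Fintype Rw] {I : Finset ι} {hi mid lo : ι → ℝ} {R0 δ mu : ℝ}

/-- the points of the piece with their own row in the sample set, of class mass at most `2 mu` -/
def hlf (I : Finset ι) (mid : ι → ℝ) (mu : ℝ) (m : C → FP Rw) (own : C → Rw) (f : ι → C → Rw → D → ℝ) (Pc : C → Prop)
    {k : ℕ} (x : Fin k → D) (c : C) : Prop :=
  Pc c ∧ (pass I mid fun i r => f i c (own c) (x r)) ∧
    (m c).Pr (fun ρ => pass I mid fun i r => f i c ρ (x r)) ≤ 2 * mu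

/-- **ONE PIECE** -/
theorem piece (ν : FP D) (qc : FP C) (m : C → FP Rw) (own : C → Rw) (f : ι → C → Rw → D → ℝ) (hR : 0 < R0)
    (hδ : 0 ≤ δ) (hf : ∀ i c ρ d, |f i c ρ d| ≤ R0) (h1 : ∀ i ∈ I, mid i + δ ≤ hi i) (h2 : ∀ i ∈ I, lo i + δ ≤ mid i)
    (hmu : 0 < mu) {Pc : C → Prop} (ho : ∀ c, qc.p c ≠ 0 → Pc c → ∀ i ∈ I, hi i ≤ ν.E (f i c (own c)))
    (hm : ∀ c, qc.p c ≠ 0 → Pc c → (m c).Pr (fun ρ => ∀ i ∈ I, lo i < ν.E (f i c ρ)) ≤ mu) {k : ℕ}
    (hk : (I.card + 1 / mu) * Real.exp (-(k * δ ^ 2 / (8 * R0 ^ 2))) ≤ 1 / 4) :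
    1 / 2 ≤ (smp ν k).Pr (fun x => qc.Pr Pc / 2 ≤ qc.Pr (hlf I mid mu m own f Pc x)) := by
  classical
  set S := smp ν k with hS
  set ep := Real.exp (-(k * δ ^ 2 / (8 * R0 ^ 2))) with hep
  have hep0 : 0 < ep := Real.exp_pos _
  set bad : (Fin k → D) → C → Prop := fun x c => Pc c ∧ ¬ hlf I mid mu m own f Pc x c with hbad
  -- the bad points of one `c`
  have hc : ∀ c, qc.p c ≠ 0 → S.Pr (fun x => bad x c) ≤ ind (Pc c) * ((I.card + 1 / mu) * ep) := by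
    intro c hc
    by_cases hPc : Pc c
    · rw [ind_of hPc, one_mul]
      have e1 := own_fail ν hR hδ (f := fun i d => f i c (own c) d) (fun i d => hf i c (own c) d) h1 (ho c hc hPc) k
      -- class mass
      have e2 : S.E (fun x => (m c).Pr (fun ρ => (¬ ∀ i ∈ I, lo i < ν.E (f i c ρ)) ∧
          pass I mid fun i r => f i c ρ (x r))) ≤ ep := by
        unfold FP.Pr
        rw [S.E_swap]
        refine (m c).E_le_const fun ρ _ => ?_
        by_cases hρ : ∀ i ∈ I, lo i < ν.E (f i c ρ)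
        · refine le_trans (le_of_eq ?_) hep0.le
          refine (S.E_congr fun x _ => ?_).trans (S.E_const 0)
          exact ind_not fun hh => hh.1 hρ
        · have hρ' := hρ
          push Not at hρ'
          refine le_trans ?_ (for_pass ν hR hδ (f := fun i d => f i c ρ d) (fun i d => hf i c ρ d) h2 hρ' k)
          exact S.E_mono fun x _ => ind_mono fun hh => hh.2
      have e3 : S.Pr (fun x => 2 * mu < (m c).Pr (fun ρ => pass I mid fun i r => f i c ρ (x r))) ≤ 1 / mu * ep := by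
        have hmk := S.markov (f := fun x => (m c).Pr (fun ρ => (¬ ∀ i ∈ I, lo i < ν.E (f i c ρ)) ∧
          pass I mid fun i r => f i c ρ (x r))) (fun x _ => (m c).Pr_nonneg _) mu
        have h4 : S.Pr (fun x => 2 * mu < (m c).Pr (fun ρ => pass I mid fun i r => f i c ρ (x r))) ≤
            S.Pr (fun x => mu ≤ (m c).Pr (fun ρ => (¬ ∀ i ∈ I, lo i < ν.E (f i c ρ)) ∧
              pass I mid fun i r => f i c ρ (x r))) := by
          refine S.Pr_mono fun x _ hx => ?_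
          have h5 : (m c).Pr (fun ρ => pass I mid fun i r => f i c ρ (x r)) ≤
              (m c).Pr (fun ρ => ∀ i ∈ I, lo i < ν.E (f i c ρ)) +
              (m c).Pr (fun ρ => (¬ ∀ i ∈ I, lo i < ν.E (f i c ρ)) ∧ pass I mid fun i r => f i c ρ (x r)) := by
            refine le_trans ((m c).Pr_mono fun ρ _ hh => ?_) ((m c).Pr_or_le _ _)
            by_cases hρ : ∀ i ∈ I, lo i < ν.E (f i c ρ)
            · exact Or.inl hρ
            · exact Or.inr ⟨hρ, hh⟩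
          have h6 := hm c hc hPc
          linarith
        rw [one_div, inv_mul_eq_div, le_div_iff₀ hmu]
        have := mul_le_mul_of_nonneg_left h4 hmu.le
        linarith
      have e4 : S.Pr (fun x => bad x c) ≤ S.Pr (fun x => ¬ pass I mid fun i r => f i c (own c) (x r)) +
          S.Pr (fun x => 2 * mu < (m c).Pr (fun ρ => pass I mid fun i r => f i c ρ (x r))) := by
        refine le_trans (S.Pr_mono fun x _ hx => ?_) (S.Pr_or_le _ _)
        by_contra hcon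
        rw [not_or, not_not, not_lt] at hcon
        exact hx.2 ⟨hPc, hcon.1, hcon.2⟩
      have e5 : S.Pr (fun x => ¬ pass I mid fun i r => f i c (own c) (x r)) ≤ I.card * ep := e1
      rw [add_mul]
      linarith
    · rw [ind_not hPc, zero_mul]
      refine le_of_eq ((S.E_congr fun x _ => ?_).trans (S.E_const 0))
      exact ind_not fun hh => hPc hh.1
  have hE : S.E (fun x => qc.Pr (bad x)) ≤ qc.Pr Pc / 4 := by
    unfold FP.Pr
    rw [S.E_swap]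
    rw [show qc.E (fun w => ind (Pc w)) / 4 = qc.E (fun w => ind (Pc w) * (1 / 4)) by rw [qc.E_mul_const]; ring]
    refine qc.E_mono fun c hc0 => ?_
    exact (hc c hc0).trans (mul_le_mul_of_nonneg_left hk (ind_nonneg _))
  have hnot : S.Pr (fun x => ¬ qc.Pr Pc / 2 ≤ qc.Pr (hlf I mid mu m own f Pc x)) ≤ 1 / 2 := by
    rcases (qc.Pr_nonneg Pc).lt_or_eq with h0 | h0
    · have hmk := S.markov (f := fun x => qc.Pr (bad x)) (fun x _ => qc.Pr_nonneg _) (qc.Pr Pc / 2)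
      have h4 : S.Pr (fun x => ¬ qc.Pr Pc / 2 ≤ qc.Pr (hlf I mid mu m own f Pc x)) ≤
          S.Pr (fun x => qc.Pr Pc / 2 ≤ qc.Pr (bad x)) := by
        refine S.Pr_mono fun x _ hx => ?_
        have h5 : qc.Pr Pc ≤ qc.Pr (hlf I mid mu m own f Pc x) + qc.Pr (bad x) := by
          refine le_trans (qc.Pr_mono fun c _ hh => ?_) (qc.Pr_or_le _ _)
          by_cases h6 : hlf I mid mu m own f Pc x c
          · exact Or.inl h6
          · exact Or.inr ⟨hh, h6⟩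
        linarith [not_le.1 hx]
      have h6 : qc.Pr Pc / 2 * S.Pr (fun x => qc.Pr Pc / 2 ≤ qc.Pr (bad x)) ≤ qc.Pr Pc / 4 := hmk.trans hE
      have h7 : S.Pr (fun x => qc.Pr Pc / 2 ≤ qc.Pr (bad x)) ≤ 1 / 2 := by
        by_contra hcon
        push Not at hcon
        have := mul_lt_mul_of_pos_left hcon (half_pos h0)
        linarith
      exact h4.trans h7
    · refine le_trans (le_of_eq ((S.E_congr fun x _ => ?_).trans (S.E_const 0))) (by norm_num)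
      refine ind_not fun hh => hh ?_
      rw [← h0, zero_div]
      exact qc.Pr_nonneg _
  have h8 := S.Pr_not (fun x => qc.Pr Pc / 2 ≤ qc.Pr (hlf I mid mu m own f Pc x))
  linarith

end piece

/-! ## keys = coins -/

section coins

theorem prod_ind {α : Type*} (J : Finset α) (S : α → Prop) : ∏ r ∈ J, ind (S r) = ind (∀ r ∈ J, S r) := by
  classical
  by_cases h : ∀ r ∈ J, S r
  · rw [ind_of h]
    exact prod_eq_one fun r hr => ind_of (h r hr)
  · rw [ind_not h]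
    push Not at h
    obtain ⟨r, hr, hS⟩ := h
    exact prod_eq_zero hr (ind_not hS)

/-- **uniform keys hardwired afterwards** : the factor is `P(S)^k` -/
theorem to_coins {D : Type*} [Fintype D] (R : FP D) {S : D → Prop} (hS : R.Pr S ≠ 0) (k : ℕ)
    (A : (Fin k → D) → Prop) :
    R.Pr S ^ k * (smp (R.cond S) k).Pr A = (smp R k).Pr (fun x => (∀ r, S (x r)) ∧ A x) := by
  unfold FP.Pr
  unfold FP.E
  rw [mul_sum]
  refine sum_congr rfl fun x _ => ?_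
  have e1 : (smp (R.cond S) k).p x = ∏ r, (R.cond S).p (x r) := rfl
  have e2 : (smp R k).p x = ∏ r, R.p (x r) := rfl
  have e3 : ∀ r, (R.cond S).p (x r) = ind (S (x r)) * R.p (x r) / R.Pr S := fun r => FP.cond_p hS _
  have h0 : R.Pr S ^ k ≠ 0 := pow_ne_zero _ hS
  have e5 : ind (∀ r ∈ (univ : Finset (Fin k)), S (x r)) = ind (∀ r, S (x r)) := by
    congr 1
    exact propext ⟨fun h r => h r (mem_univ r), fun h r _ => h r⟩
  show R.Pr S ^ k * ((smp (R.cond S) k).p x * ind (A x)) = (smp R k).p x * ind ((∀ r, S (x r)) ∧ A x)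
  rw [e1, e2, prod_congr rfl fun r _ => e3 r, prod_div_distrib, prod_mul_distrib, prod_ind, prod_const, card_univ,
    Fintype.card_fin, ind_and, e5]
  field_simp

theorem FPpi_prod {I Φ : Type*} [Fintype I] [DecidableEq I] [Fintype Φ] (q : I → FP Φ) (g : I → Φ → ℝ) :
    (FPpi q).E (fun θ => ∏ i, g i (θ i)) = ∏ i, (q i).E (g i) := by
  have h := Finset.prod_univ_sum (fun _ : I => (univ : Finset Φ)) (fun i f => (q i).p f * g i f)
  rw [Fintype.piFinset_univ] at h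
  unfold FP.E
  rw [h]
  refine Finset.sum_congr rfl fun θ _ => ?_
  rw [Finset.prod_mul_distrib]
  rfl

/-- events of independent coins -/
theorem fam_prod {I Φ : Type*} [Fintype I] [DecidableEq I] [Fintype Φ] (q : I → FP Φ) (G : I → Φ → Prop) (J : Finset I) :
    (FPpi q).Pr (fun θ => ∀ l ∈ J, G l (θ l)) = ∏ l ∈ J, (q l).Pr (G l) := by
  classical
  have h := FPpi_prod q (fun l z => if l ∈ J then ind (G l z) else 1)
  have e1 : ∀ θ : I → Φ, ∏ l, (if l ∈ J then ind (G l (θ l)) else 1) = ind (∀ l ∈ J, G l (θ l)) := by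
    intro θ
    rw [prod_ite_mem univ J (fun l => ind (G l (θ l))), univ_inter, prod_ind]
  have e2 : ∏ l, (q l).E (fun z => if l ∈ J then ind (G l z) else 1) = ∏ l ∈ J, (q l).Pr (G l) := by
    have h3 : ∀ l, (q l).E (fun z => if l ∈ J then ind (G l z) else 1) = if l ∈ J then (q l).Pr (G l) else 1 := by
      intro l
      by_cases hl : l ∈ J
      · simp only [if_pos hl]
        rfl
      · simp only [if_neg hl]
        exact (q l).E_const 1
    rw [prod_congr rfl fun l _ => h3 l, prod_ite_mem, univ_inter]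
  rw [e2] at h
  rw [← h]
  unfold FP.Pr
  exact (FPpi q).E_congr fun θ _ => (e1 θ).symm

theorem geo_le {z : ℝ} (h0 : 0 ≤ z) (h1 : z ≤ 1 / 2) (n : ℕ) : ∑ i ∈ Icc 1 n, z ^ i ≤ 2 * z := by
  have h6 : ∀ n : ℕ, ∑ i ∈ Icc 1 n, z ^ i ≤ 2 * z * (1 - (1 / 2) ^ n) := by
    intro n
    induction n with
    | zero => simp
    | succ n ih =>
      rw [sum_Icc_succ_top (by omega)]
      have h7 : z ^ (n + 1) ≤ z * (1 / 2) ^ n := by
        rw [pow_succ, mul_comm]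
        exact mul_le_mul_of_nonneg_left (pow_le_pow_left₀ h0 h1 n) h0
      have h8 : (2 : ℝ) * z * (1 - (1 / 2) ^ (n + 1)) = 2 * z * (1 - (1 / 2) ^ n) + z * (1 / 2) ^ n := by
        rw [pow_succ]
        ring
      rw [h8]
      exact add_le_add ih h7
  refine (h6 n).trans ?_
  have h7 : 0 ≤ z * (1 / 2) ^ n := by positivity
  nlinarith

variable {Om Th : Type*} [Fintype Om] [Fintype Th]

/-- **EXCEPTIONAL SETS WITH COINS** : `Ex j θ` rare for every value of the coins -/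
theorem coins_rare (Q : FP Om) (R : FP Th) {n : ℕ} {Ex : ℕ → Th → Om → Prop} {δ y e1 : ℝ} (hδ : 0 < δ) (hy : 0 ≤ y)
    (hyδ : 2 * y ≤ δ) (he1 : 0 ≤ e1)
    (hE : ∀ j ∈ Icc 1 n, ∀ θ, R.p θ ≠ 0 → Q.Pr (Ex j θ) ≤ e1 * y ^ j) :
    Q.Pr (fun w => ∃ j ∈ Icc 1 n, δ ^ j ≤ R.Pr (fun θ => Ex j θ w)) ≤ 2 * e1 * (y / δ) := by
  have hz0 : 0 ≤ y / δ := div_nonneg hy hδ.le
  have hz1 : y / δ ≤ 1 / 2 := by
    rw [div_le_iff₀ hδ]
    linarith
  refine (Q.Pr_ex_le (Icc 1 n) fun j w => δ ^ j ≤ R.Pr (fun θ => Ex j θ w)).trans ?_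
  have h1 : ∀ j ∈ Icc 1 n, Q.Pr (fun w => δ ^ j ≤ R.Pr (fun θ => Ex j θ w)) ≤ e1 * (y / δ) ^ j := by
    intro j hj
    have hmk := Q.markov (f := fun w => R.Pr (fun θ => Ex j θ w)) (fun w _ => R.Pr_nonneg _) (δ ^ j)
    have h2 : Q.E (fun w => R.Pr (fun θ => Ex j θ w)) ≤ e1 * y ^ j := by
      unfold FP.Pr
      rw [Q.E_swap]
      exact R.E_le_const fun θ hθ => hE j hj θ hθ
    rw [div_pow, mul_div_assoc', le_div_iff₀ (pow_pos hδ j)]
    linarith
  refine (sum_le_sum h1).trans ?_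
  rw [← mul_sum]
  have := mul_le_mul_of_nonneg_left (geo_le hz0 hz1 n) he1
  linarith

end coins

/-! ## rare events of one class -/

section rare

variable {Om : Type*} [Fintype Om] {Q : FP Om} {χ κ ζ : Type*} {X : Om → χ} {L : Om → κ} {Z : Om → ζ} {N : ℝ}

theorem exc_one (hN : 0 ≤ N) {A : Om → Prop} (hA : Fac (fun w => (L w, Z w)) A) (hi : Q.Indep X Z)
    (hsat : ∀ E : Om → Prop, Fac X E → Q.Pr E ≠ 0 → N * (Q.cond E).klc Q L Z ≤ 2 * (Real.log (1 / Q.Pr E) + 1))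
    (k0 : ℝ) : Q.Pr (fun w => max k0 (4 * Q.Pr A) ≤ Q.ce X (fun v => ind (A v)) w) ≤ Real.exp (1 - N * k0 / 4) := by
  set k := max k0 (4 * Q.Pr A) with hk
  set E : Om → Prop := fun w => k ≤ Q.ce X (fun v => ind (A v)) w with hEdef
  by_cases hE0 : Q.Pr E = 0
  · rw [hE0]
    exact (Real.exp_pos _).le
  have hE : Fac X E := fun v w h => by
    show (k ≤ Q.ce X _ v) = (k ≤ Q.ce X _ w)
    rw [Q.ce_fac X _ v w h]
  have h1 : (Q.cond E).E (Q.ce Z (fun v => ind (A v))) = Q.Pr A := by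
    rw [FP.cond_E hE0, hi (fun w => ind (E w)) (Q.ce Z (fun v => ind (A v))) (Fac.ind fun v w h => by rw [hE v w h])
      (Q.ce_fac Z _)]
    have h2 : Q.E (Q.ce Z (fun v => ind (A v))) = Q.Pr A := Q.E_ce Z _
    rw [h2]
    exact mul_div_cancel_left₀ _ hE0
  have h2 := rare_le (k := k) hE hE0 (hsat E hE hE0) hN hA (fun w _ hw => hw) (by
    rw [h1]
    have := le_max_right k0 (4 * Q.Pr A)
    rw [← hk] at this
    linarith)
  refine h2.trans (Real.exp_le_exp.2 ?_)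
  have h3 : k0 ≤ k := le_max_left _ _
  have h5 := mul_le_mul_of_nonneg_left h3 hN
  linarith

/-- families of `j` sets -/
theorem exc_fam (hN : 0 ≤ N) {Ψ : Type*} (F : Finset Ψ) {A : Ψ → Om → Prop}
    (hA : ∀ ψ ∈ F, Fac (fun w => (L w, Z w)) (A ψ)) (hi : Q.Indep X Z)
    (hsat : ∀ E : Om → Prop, Fac X E → Q.Pr E ≠ 0 → N * (Q.cond E).klc Q L Z ≤ 2 * (Real.log (1 / Q.Pr E) + 1))
    {B u x : ℝ} (hB : (F.card : ℝ) ≤ B) (hx : x ≤ N * u / 4) (j : ℕ) :
    Q.Pr (fun w => ∃ φ ∈ F.powersetCard j, max (j * u) (4 * Q.Pr (fun v => ∃ ψ ∈ φ, A ψ v)) ≤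
      Q.ce X (fun v => ind (∃ ψ ∈ φ, A ψ v)) w) ≤ Real.exp 1 * (B * Real.exp (-x)) ^ j := by
  classical
  refine (Q.Pr_ex_le (F.powersetCard j) fun φ w => max (j * u) (4 * Q.Pr (fun v => ∃ ψ ∈ φ, A ψ v)) ≤
      Q.ce X (fun v => ind (∃ ψ ∈ φ, A ψ v)) w).trans ?_
  have h1 : ∀ φ ∈ F.powersetCard j, Q.Pr (fun w => max (j * u) (4 * Q.Pr (fun v => ∃ ψ ∈ φ, A ψ v)) ≤
      Q.ce X (fun v => ind (∃ ψ ∈ φ, A ψ v)) w) ≤ Real.exp 1 * Real.exp (-x) ^ j := by
    intro φ hφ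
    have hφ1 := (mem_powersetCard.1 hφ).1
    refine (exc_one hN (A := fun v => ∃ ψ ∈ φ, A ψ v) ?_ hi hsat (j * u)).trans ?_
    · intro v w hvw
      have h2 : ∀ ψ ∈ φ, (A ψ v = A ψ w) := fun ψ hψ => hA ψ (hφ1 hψ) v w hvw
      exact propext ⟨fun ⟨ψ, h3, h4⟩ => ⟨ψ, h3, (h2 ψ h3) ▸ h4⟩, fun ⟨ψ, h3, h4⟩ => ⟨ψ, h3, (h2 ψ h3).symm ▸ h4⟩⟩
    · rw [← Real.exp_nat_mul, ← Real.exp_add]
      refine Real.exp_le_exp.2 ?_
      have := mul_le_mul_of_nonneg_left hx (Nat.cast_nonneg (α := ℝ) j)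
      linarith
  refine (sum_le_sum h1).trans ?_
  rw [sum_const, nsmul_eq_mul, card_powersetCard, mul_pow]
  have h2 : ((F.card.choose j : ℕ) : ℝ) ≤ B ^ j := by
    have h3 : ((F.card.choose j : ℕ) : ℝ) ≤ (F.card : ℝ) ^ j := by exact_mod_cast Nat.choose_le_pow F.card j
    exact h3.trans (pow_le_pow_left₀ (Nat.cast_nonneg _) hB j)
  have h3 : (0 : ℝ) ≤ Real.exp 1 * Real.exp (-x) ^ j := by positivity
  have := mul_le_mul_of_nonneg_right h2 h3
  linarith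

end rare

/-! ## the covered pieces of one class -/

section cover

variable {Om Om' : Type*} [Fintype Om] [Fintype Om'] {χ κ ζ Λ Γ Ee ι Lx C D Rw : Type*} [Fintype Lx] [DecidableEq Lx]
  [Fintype C] [Fintype D] [Fintype Rw] {k : ℕ}

/-- the sample set of the rows at the exact point, empty if its class mass is larger than `2 mu`; as a set of thin letters;
`Po l c ρ` : the row `ρ` is possible -/
def Ts (I : Finset ι) (mid : ι → ℝ) (mu : ℝ) (m : Lx → Ee → C → FP Rw) (f : ι → Lx → Ee → C → Rw → D → Γ → ℝ) (lb' : Rw → Λ)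
    (Po : Lx → C → Rw → Prop) (l : Lx) (x : Fin k → D) (g : Ee × (Fin k → Γ)) (c : C) (a : Λ) : Prop :=
  (m l g.1 c).Pr (fun ρ => pass I mid fun i r => f i l g.1 c ρ (x r) (g.2 r)) ≤ 2 * mu ∧
    ∃ ρ, lb' ρ = a ∧ Po l c ρ ∧ pass I mid fun i r => f i l g.1 c ρ (x r) (g.2 r)

/-- the event of (thin letter, point) of one witness -/
def Aw (I : Finset ι) (mid : ι → ℝ) (mu : ℝ) (m : Lx → Ee → C → FP Rw) (f : ι → Lx → Ee → C → Rw → D → Γ → ℝ) (lb' : Rw → Λ)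
    (Po : Lx → C → Rw → Prop) (X : Om → χ) (Cp : Om → C) (lb : χ → C → Λ) (θ : Lx → Fin k → D) (ψ : Σ _ : Lx, (Ee × (Fin k → Γ))) (v : Om) : Prop :=
  Ts I mid mu m f lb' Po ψ.1 (θ ψ.1) ψ.2 (Cp v) (lb (X v) (Cp v))

/-- all witnesses -/
def Wit (Ve : Lx → Finset Ee) (Vs : Lx → D → Finset Γ) (θ : Lx → Fin k → D) :
    Finset (Σ _ : Lx, (Ee × (Fin k → Γ))) :=
  (univ : Finset Lx).sigma fun l => Ve l ×ˢ Fintype.piFinset fun r => Vs l (θ l r)

theorem Wit_card (Ve : Lx → Finset Ee) (Vs : Lx → D → Finset Γ) {B0 B1 : ℝ} (hB0 : ∀ l, ((Ve l).card : ℝ) ≤ B0)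
    (hB1 : ∀ l d, ((Vs l d).card : ℝ) ≤ B1) (θ : Lx → Fin k → D) :
    ((Wit Ve Vs θ).card : ℝ) ≤ Fintype.card Lx * (B0 * B1 ^ k) := by
  unfold Wit
  rw [card_sigma]
  push_cast
  have h1 : ∀ l ∈ (univ : Finset Lx), ((Ve l ×ˢ Fintype.piFinset fun r => Vs l (θ l r)).card : ℝ) ≤
      B0 * B1 ^ k := by
    intro l _
    rw [card_product, Fintype.card_piFinset]
    push_cast
    refine mul_le_mul (hB0 l) ?_ (prod_nonneg fun _ _ => Nat.cast_nonneg _) ((Nat.cast_nonneg _).trans (hB0 l))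
    calc ∏ r : Fin k, ((Vs l (θ l r)).card : ℝ) ≤ ∏ _r : Fin k, B1 :=
          prod_le_prod (fun _ _ => Nat.cast_nonneg _) fun r _ => hB1 l (θ l r)
      _ = B1 ^ k := by rw [prod_const, card_univ, Fintype.card_fin]
  refine (sum_le_sum h1).trans (le_of_eq ?_)
  rw [sum_const, card_univ, nsmul_eq_mul]

/-- exceptional set of the hidden points for one family of witnesses of `j` pieces -/
def Ex (Q : FP Om) (X : Om → χ) {Ψ : Type*} (A : Ψ → Om → Prop) (F : Finset Ψ) (u : ℝ) (j : ℕ) (w : Om) : Prop :=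
  ∃ φ ∈ F.powersetCard j, max (j * u) (4 * Q.Pr (fun v => ∃ ψ ∈ φ, A ψ v)) ≤
    Q.ce X (fun v => ind (∃ ψ ∈ φ, A ψ v)) w

/-- the setting: `Q` = law of the class, `X` = hidden point, `(L, Z)` = letter of the vertex `c` and what is below it,
`Cp` = the exact point, `lb a c` = thin letter of the tables; `Q'` = law of the class with the coin tables;
`R l` = law of the keys, `SS l w` = set of the keys of the piece `l`, `eta l w ∈ Ve l` = own letter of the piece,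
`γ l w d ∈ Vs l d` = value at the key `d`; `m l e c` = class law of the row at `c`, `Po l c ρ` = possible rows -/
structure CH (Q : FP Om) (Q' : FP Om') (π : Om' → Om) (X : Om → χ) (L : Om → κ) (Z : Om → ζ) (Cp : Om → C)
    (lb : χ → C → Λ) (qc : FP C) (I : Finset ι) (hi mid lo : ι → ℝ) (R0 δ mu : ℝ)
    (f : ι → Lx → Ee → C → Rw → D → Γ → ℝ) (lb' : Rw → Λ) (Po : Lx → C → Rw → Prop) (own : Lx → Om' → C → Rw)
    (Ve : Lx → Finset Ee) (Vs : Lx → D → Finset Γ) (N B0 B1 : ℝ) (k : ℕ) : Prop where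
  pul : ∀ g : Om → ℝ, Q'.E (fun w => g (π w)) = Q.E g
  N0 : 0 ≤ N
  fac : Fac (fun w => (L w, Z w)) (fun w => (lb (X w) (Cp w), Cp w))
  ndp : Q.Indep X Z
  sat : ∀ E : Om → Prop, Fac X E → Q.Pr E ≠ 0 → N * (Q.cond E).klc Q L Z ≤ 2 * (Real.log (1 / Q.Pr E) + 1)
  pts : ∀ (B : C → Prop) w, Q.p w ≠ 0 → Q.ce X (fun v => ind (B (Cp v))) w = qc.Pr B
  rpos : 0 < R0
  dpos : 0 ≤ δ
  bdd : ∀ i l e c ρ d g, |f i l e c ρ d g| ≤ R0
  gap1 : ∀ i ∈ I, mid i + δ ≤ hi i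
  gap2 : ∀ i ∈ I, lo i + δ ≤ mid i
  mpos : 0 < mu
  keys : (I.card + 1 / mu) * Real.exp (-(k * δ ^ 2 / (8 * R0 ^ 2))) ≤ 1 / 4
  vale : ∀ l, ((Ve l).card : ℝ) ≤ B0
  vals : ∀ l d, ((Vs l d).card : ℝ) ≤ B1
  rown : ∀ l w c, Q'.p w ≠ 0 → qc.p c ≠ 0 → lb' (own l w c) = lb (X (π w)) c ∧ Po l c (own l w c)

/-- a family of disjoint pieces at the point `w` -/
structure Fam (qc : FP C) (I : Finset ι) (hi lo : ι → ℝ) (mu : ℝ) (m : Lx → Ee → C → FP Rw)
    (f : ι → Lx → Ee → C → Rw → D → Γ → ℝ) (own : Lx → Om' → C → Rw) (R : Lx → FP D) (SS : Lx → Om' → D → Prop)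
    (eta : Lx → Om' → Ee) (γ : Lx → Om' → D → Γ) (Ve : Lx → Finset Ee) (Vs : Lx → D → Finset Γ) (Pc : Lx → Om' → C → Prop) (δ1 u : ℝ) (J : Finset Lx) (w : Om') :
    Prop where
  ss : ∀ l ∈ J, δ1 ≤ (R l).Pr (SS l w)
  ae : ∀ l ∈ J, eta l w ∈ Ve l
  al : ∀ l ∈ J, ∀ d, (R l).p d ≠ 0 → SS l w d → γ l w d ∈ Vs l d
  ho : ∀ l ∈ J, ∀ c, qc.p c ≠ 0 → Pc l w c → ∀ i ∈ I,
    hi i ≤ ((R l).cond (SS l w)).E (fun d => f i l (eta l w) c (own l w c) d (γ l w d))
  hm : ∀ l ∈ J, ∀ c, qc.p c ≠ 0 → Pc l w c →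
    (m l (eta l w) c).Pr (fun ρ => ∀ i ∈ I, lo i < ((R l).cond (SS l w)).E (fun d => f i l (eta l w) c ρ d (γ l w d))) ≤ mu
  dj : ∀ l ∈ J, ∀ l' ∈ J, l ≠ l' → ∀ c, qc.p c ≠ 0 → Pc l w c → ¬ Pc l' w c
  dens : J.card * (u / 4) ≤ ∑ l ∈ J, qc.Pr (Pc l w)

variable {Q : FP Om} {Q' : FP Om'} {π : Om' → Om} {X : Om → χ} {L : Om → κ} {Z : Om → ζ} {Cp : Om → C}
  {lb : χ → C → Λ} {qc : FP C} {I : Finset ι} {hi mid lo : ι → ℝ} {R0 δ mu : ℝ}
  {m : Lx → Ee → C → FP Rw} {f : ι → Lx → Ee → C → Rw → D → Γ → ℝ} {lb' : Rw → Λ} {Po : Lx → C → Rw → Prop}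
  {own : Lx → Om' → C → Rw} {R : Lx → FP D}
  {SS : Lx → Om' → D → Prop} {eta : Lx → Om' → Ee} {γ : Lx → Om' → D → Γ} {Ve : Lx → Finset Ee}
  {Vs : Lx → D → Finset Γ} {Pc : Lx → Om' → C → Prop} {N B0 B1 δ1 u : ℝ}

theorem p_map (h : ∀ g : Om → ℝ, Q'.E (fun w => g (π w)) = Q.E g) {w : Om'} (hw : Q'.p w ≠ 0) : Q.p (π w) ≠ 0 := by
  classical
  intro h0
  have h1 := h (fun v => ind (v = π w))
  have h2 : Q.E (fun v => ind (v = π w)) = Q.p (π w) := by
    unfold FP.E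
    rw [sum_eq_single (π w)]
    · show Q.p (π w) * ind (π w = π w) = _
      rw [ind_of rfl, mul_one]
    · intro b _ hb
      show Q.p b * ind (b = π w) = 0
      rw [ind_not hb, mul_zero]
    · intro hh
      exact absurd (mem_univ _) hh
  have h3 : Q'.p w ≤ Q'.E (fun v => ind (π v = π w)) := by
    have h4 := single_le_sum (f := fun v => Q'.p v * ind (π v = π w)) (fun v _ => mul_nonneg (Q'.nn v) (ind_nonneg _))
      (mem_univ w)
    have h5 : Q'.p w * ind (π w = π w) = Q'.p w := by rw [ind_of rfl, mul_one]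
    calc Q'.p w = Q'.p w * ind (π w = π w) := h5.symm
      _ ≤ _ := h4
  have h6 : 0 < Q'.p w := lt_of_le_of_ne (Q'.nn w) (Ne.symm hw)
  rw [h2, h0] at h1
  linarith

theorem sum_ind_le {α : Type*} (J : Finset α) (S : α → Prop) (h : ∀ l ∈ J, ∀ l' ∈ J, l ≠ l' → S l → ¬ S l') :
    ∑ l ∈ J, ind (S l) ≤ ind (∃ l ∈ J, S l) := by
  classical
  by_cases h1 : ∃ l ∈ J, S l
  · obtain ⟨l, hl, hS⟩ := h1
    rw [ind_of ⟨l, hl, hS⟩, sum_eq_single l]
    · exact ind_le_one _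
    · intro b hb hbl
      exact ind_not (h l hl b hb (Ne.symm hbl) hS)
    · intro hh
      exact absurd hl hh
  · rw [ind_not h1]
    refine le_of_eq (sum_eq_zero fun l hl => ?_)
    exact ind_not fun hS => h1 ⟨l, hl, hS⟩

variable (qc I mid mu m f own SS eta γ Pc) in
/-- good keys of the piece `l` -/
def gk (w : Om') (l : Lx) (x : Fin k → D) : Prop :=
  (∀ r, SS l w (x r)) ∧ qc.Pr (Pc l w) / 2 ≤
    qc.Pr (hlf I mid mu (m l (eta l w)) (own l w) (fun i c ρ d => f i l (eta l w) c ρ d (γ l w d)) (Pc l w) x)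

/-- the coins are good for a family of `j` pieces with probability `≥ (δ1^k / 2)^j` -/
theorem gk_ge (H : CH Q Q' π X L Z Cp lb qc I hi mid lo R0 δ mu f lb' Po own Ve Vs N B0 B1 k) (hδ1 : 0 < δ1)
    {J : Finset Lx} {w : Om'} (hF : Fam qc I hi lo mu m f own R SS eta γ Ve Vs Pc δ1 u J w) :
    (δ1 ^ k / 2) ^ J.card ≤ (FPpi fun l : Lx => smp (R l) k).Pr (fun θ => ∀ l ∈ J, gk qc I mid mu m f own SS eta γ Pc w l (θ l)) := by
  rw [fam_prod (fun l : Lx => smp (R l) k) (fun l x => gk qc I mid mu m f own SS eta γ Pc w l x) J, ← prod_const]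
  refine prod_le_prod (fun _ _ => by positivity) fun l hl => ?_
  have hS : (R l).Pr (SS l w) ≠ 0 := (lt_of_lt_of_le hδ1 (hF.ss l hl)).ne'
  have h1 := to_coins (R l) hS k (fun x => qc.Pr (Pc l w) / 2 ≤
    qc.Pr (hlf I mid mu (m l (eta l w)) (own l w) (fun i c ρ d => f i l (eta l w) c ρ d (γ l w d)) (Pc l w) x))
  have h2 := piece ((R l).cond (SS l w)) qc (m l (eta l w)) (own l w) (fun i c ρ d => f i l (eta l w) c ρ d (γ l w d))
    H.rpos H.dpos (fun i c ρ d => H.bdd i l _ c ρ d _) H.gap1 H.gap2 H.mpos (Pc := Pc l w) (hF.ho l hl) (hF.hm l hl) H.keys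
  have h3 : (smp (R l) k).Pr (gk qc I mid mu m f own SS eta γ Pc w l) = (R l).Pr (SS l w) ^ k *
      (smp ((R l).cond (SS l w)) k).Pr
      (fun x => qc.Pr (Pc l w) / 2 ≤
        qc.Pr (hlf I mid mu (m l (eta l w)) (own l w) (fun i c ρ d => f i l (eta l w) c ρ d (γ l w d)) (Pc l w) x)) := h1.symm
  rw [h3]
  have h4 := pow_le_pow_left₀ hδ1.le (hF.ss l hl) k
  have h5 : 0 ≤ δ1 ^ k := by positivity
  calc δ1 ^ k / 2 = δ1 ^ k * (1 / 2) := by ring
    _ ≤ (R l).Pr (SS l w) ^ k * (1 / 2) := mul_le_mul_of_nonneg_right h4 (by norm_num)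
    _ ≤ _ := mul_le_mul_of_nonneg_left h2 (h5.trans h4)

/-- the witnesses of the family -/
def wit (eta : Lx → Om' → Ee) (γ : Lx → Om' → D → Γ) (w : Om') (θ : Lx → Fin k → D) (J : Finset Lx) : Finset (Σ _ : Lx, (Ee × (Fin k → Γ))) :=
  J.map ⟨fun l => ⟨l, (eta l w, fun r => γ l w (θ l r))⟩, fun _ _ h => congrArg Sigma.fst h⟩

theorem wit_card (eta : Lx → Om' → Ee) (γ : Lx → Om' → D → Γ) (w : Om') (θ : Lx → Fin k → D) (J : Finset Lx) :
    (wit eta γ w θ J).card = J.card := card_map _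

theorem mem_wit {eta : Lx → Om' → Ee} {γ : Lx → Om' → D → Γ} {w : Om'} {θ : Lx → Fin k → D} {J : Finset Lx} {ψ : Σ _ : Lx, (Ee × (Fin k → Γ))} :
    ψ ∈ wit eta γ w θ J ↔ ∃ l ∈ J, (⟨l, (eta l w, fun r => γ l w (θ l r))⟩ : Σ _ : Lx, (Ee × (Fin k → Γ))) = ψ := by
  unfold wit
  rw [mem_map]
  rfl

theorem wit_sub {J : Finset Lx} {w : Om'} (hF : Fam qc I hi lo mu m f own R SS eta γ Ve Vs Pc δ1 u J w)
    {θ : Lx → Fin k → D} (hθ : (FPpi fun l : Lx => smp (R l) k).p θ ≠ 0)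
    (hg : ∀ l ∈ J, gk qc I mid mu m f own SS eta γ Pc w l (θ l)) : wit eta γ w θ J ⊆ Wit Ve Vs θ := by
  intro ψ hψ
  obtain ⟨l, hl, rfl⟩ := mem_wit.1 hψ
  unfold Wit
  refine mem_sigma.2 ⟨mem_univ _, mem_product.2 ⟨hF.ae l hl, Fintype.mem_piFinset.2 fun r => ?_⟩⟩
  have h1 : (smp (R l) k).p (θ l) ≠ 0 := FPpi_supp hθ l
  have h2 : (R l).p (θ l r) ≠ 0 := FPpi_supp h1 r
  exact hF.al l hl (θ l r) h2 ((hg l hl).1 r)

/-- the event of the family has probability at least `1/2` of the covered mass, given the hidden point -/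
theorem wit_ce (H : CH Q Q' π X L Z Cp lb qc I hi mid lo R0 δ mu f lb' Po own Ve Vs N B0 B1 k) {J : Finset Lx} {w : Om'}
    (hw : Q'.p w ≠ 0) (hF : Fam qc I hi lo mu m f own R SS eta γ Ve Vs Pc δ1 u J w) {θ : Lx → Fin k → D}
    (hg : ∀ l ∈ J, gk qc I mid mu m f own SS eta γ Pc w l (θ l)) :
    (∑ l ∈ J, qc.Pr (Pc l w)) / 2 ≤
      Q.ce X (fun v => ind (∃ ψ ∈ wit eta γ w θ J, Aw I mid mu m f lb' Po X Cp lb θ ψ v)) (π w) := by
  have hπ := p_map H.pul hw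
  set T : C → Prop := fun c => ∃ ψ ∈ wit eta γ w θ J, Ts I mid mu m f lb' Po ψ.1 (θ ψ.1) ψ.2 c (lb (X (π w)) c) with hT
  have e1 : Q.ce X (fun v => ind (∃ ψ ∈ wit eta γ w θ J, Aw I mid mu m f lb' Po X Cp lb θ ψ v)) (π w) =
      Q.ce X (fun v => ind (T (Cp v))) (π w) := by
    unfold FP.ce
    congr 1
    refine Q.E_congr fun v _ => ?_
    by_cases hv : X v = X (π w)
    · have : (∃ ψ ∈ wit eta γ w θ J, Aw I mid mu m f lb' Po X Cp lb θ ψ v) = T (Cp v) := by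
        unfold Aw
        rw [hT, hv]
      show ind (X v = X (π w)) * ind (∃ ψ ∈ wit eta γ w θ J, Aw I mid mu m f lb' Po X Cp lb θ ψ v) =
        ind (X v = X (π w)) * ind (T (Cp v))
      rw [this]
    · rw [ind_not hv, zero_mul, zero_mul]
  rw [e1, H.pts T (π w) hπ]
  have h1 : (∑ l ∈ J, qc.Pr (Pc l w)) / 2 ≤
      ∑ l ∈ J, qc.Pr (hlf I mid mu (m l (eta l w)) (own l w) (fun i c ρ d => f i l (eta l w) c ρ d (γ l w d)) (Pc l w) (θ l)) := by
    rw [sum_div]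
    exact sum_le_sum fun l hl => (hg l hl).2
  refine h1.trans ?_
  unfold FP.Pr
  rw [← qc.E_sum]
  refine qc.E_mono fun c hc => ?_
  refine (sum_ind_le J _ fun l hl l' hl' hne hS hS' => ?_).trans (ind_mono ?_)
  · exact hF.dj l hl l' hl' hne c hc hS.1 hS'.1
  · rintro ⟨l, hl, hS⟩
    refine ⟨⟨l, (eta l w, fun r => γ l w (θ l r))⟩, mem_wit.2 ⟨l, hl, rfl⟩, hS.2.2, own l w c,
      (H.rown l w c hw hc).1, (H.rown l w c hw hc).2, hS.2.1⟩

variable (Q X Cp lb I mid mu m f lb' Po R Ve Vs δ1 u k) in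
/-- **the bad hidden points** -/
def Bad (v : Om) : Prop :=
  ∃ j ∈ Icc 1 (Fintype.card Lx), (δ1 ^ k / 2) ^ j ≤
    (FPpi fun l : Lx => smp (R l) k).Pr (fun θ => Ex Q X (Aw I mid mu m f lb' Po X Cp lb θ) (Wit Ve Vs θ) (u / 8) j v)

theorem Bad_le (H : CH Q Q' π X L Z Cp lb qc I hi mid lo R0 δ mu f lb' Po own Ve Vs N B0 B1 k) (hδ1 : 0 < δ1)
    {x : ℝ} (hx : x ≤ N * u / 32)
    (hy : 2 * (Fintype.card Lx * (B0 * B1 ^ k) * Real.exp (-x)) ≤ δ1 ^ k / 2) (hB0 : 0 ≤ B0) (hB1 : 0 ≤ B1) :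
    Q'.Pr (fun w => Bad k Q X Cp lb I mid mu m f lb' Po R Ve Vs δ1 u (π w)) ≤
      2 * Real.exp 1 * (Fintype.card Lx * (B0 * B1 ^ k) * Real.exp (-x) / (δ1 ^ k / 2)) := by
  have e1 : Q'.Pr (fun w => Bad k Q X Cp lb I mid mu m f lb' Po R Ve Vs δ1 u (π w)) =
      Q.Pr (Bad k Q X Cp lb I mid mu m f lb' Po R Ve Vs δ1 u) :=
    H.pul fun v => ind (Bad k Q X Cp lb I mid mu m f lb' Po R Ve Vs δ1 u v)
  rw [e1]
  refine coins_rare Q (FPpi fun l : Lx => smp (R l) k) (by positivity) (by positivity) hy (Real.exp_pos _).le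
    fun j _ θ _ => ?_
  refine exc_fam H.N0 (Wit Ve Vs θ) (A := Aw I mid mu m f lb' Po X Cp lb θ) (fun ψ _ => ?_) H.ndp H.sat
    (Wit_card Ve Vs H.vale H.vals θ) (by linarith) j
  intro v w hvw
  have h1 : (lb (X v) (Cp v), Cp v) = (lb (X w) (Cp w), Cp w) := H.fac v w hvw
  have h2 := (Prod.mk.inj h1).1
  have h3 := (Prod.mk.inj h1).2
  show Ts I mid mu m f lb' Po ψ.1 (θ ψ.1) ψ.2 (Cp v) (lb (X v) (Cp v)) =
    Ts I mid mu m f lb' Po ψ.1 (θ ψ.1) ψ.2 (Cp w) (lb (X w) (Cp w))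
  rw [h2, h3]

/-- **THE COVERED PIECES HAVE WITNESSES** -/
theorem ghost_cover (H : CH Q Q' π X L Z Cp lb qc I hi mid lo R0 δ mu f lb' Po own Ve Vs N B0 B1 k) (hδ1 : 0 < δ1)
    {J : Finset Lx} (hJ : J.Nonempty) {w : Om'} (hw : Q'.p w ≠ 0)
    (hF : Fam qc I hi lo mu m f own R SS eta γ Ve Vs Pc δ1 u J w)
    (hb : ¬ Bad k Q X Cp lb I mid mu m f lb' Po R Ve Vs δ1 u (π w)) :
    ∃ θ : Lx → Fin k → D, ∃ φ ⊆ Wit Ve Vs θ, φ.card = J.card ∧
      (∑ l ∈ J, qc.Pr (Pc l w)) / 8 ≤ Q.Pr (fun v => ∃ ψ ∈ φ, Aw I mid mu m f lb' Po X Cp lb θ ψ v) := by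
  have h1 := gk_ge H hδ1 hF
  have h2 : (FPpi fun l : Lx => smp (R l) k).Pr
      (fun θ => Ex Q X (Aw I mid mu m f lb' Po X Cp lb θ) (Wit Ve Vs θ) (u / 8) J.card (π w)) < (δ1 ^ k / 2) ^ J.card := by
    by_contra hcon
    exact hb ⟨J.card, mem_Icc.2 ⟨card_pos.2 hJ, card_le_univ J⟩, not_lt.1 hcon⟩
  obtain ⟨θ, hθ, hg, hE⟩ : ∃ θ, (FPpi fun l : Lx => smp (R l) k).p θ ≠ 0 ∧
      (∀ l ∈ J, gk qc I mid mu m f own SS eta γ Pc w l (θ l)) ∧
      ¬ Ex Q X (Aw I mid mu m f lb' Po X Cp lb θ) (Wit Ve Vs θ) (u / 8) J.card (π w) := by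
    by_contra hcon
    push Not at hcon
    have h3 := (FPpi fun l : Lx => smp (R l) k).Pr_mono fun θ hθ hg => hcon θ hθ hg
    linarith
  refine ⟨θ, wit eta γ w θ J, wit_sub hF hθ hg, wit_card eta γ w θ J, ?_⟩
  have h4 := wit_ce H hw hF hg
  have h5 : Q.ce X (fun v => ind (∃ ψ ∈ wit eta γ w θ J, Aw I mid mu m f lb' Po X Cp lb θ ψ v)) (π w) <
      max (J.card * (u / 8)) (4 * Q.Pr (fun v => ∃ ψ ∈ wit eta γ w θ J, Aw I mid mu m f lb' Po X Cp lb θ ψ v)) := by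
    by_contra hcon
    exact hE ⟨wit eta γ w θ J, mem_powersetCard.2 ⟨wit_sub hF hθ hg, wit_card eta γ w θ J⟩, not_lt.1 hcon⟩
  have h6 := hF.dens
  rcases lt_max_iff.1 h5 with h7 | h7
  · exfalso
    linarith
  · linarith

/-! ### the gain -/

theorem ce_mono_on {κ' : Type*} {P : FP Om} {Y : Om → κ'} {g g' : Om → ℝ} {v : Om}
    (h : ∀ w, Y w = Y v → g w ≤ g' w) : P.ce Y g v ≤ P.ce Y g' v := by
  unfold FP.ce
  refine div_le_div_of_nonneg_right (P.E_mono fun w _ => ?_) (P.m_nonneg Y v)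
  by_cases hw : Y w = Y v
  · exact mul_le_mul_of_nonneg_left (h w hw) (ind_nonneg _)
  · rw [ind_not hw, zero_mul, zero_mul]

/-- the witnesses are thin: `P0` = old law of the class, `Z0` = what is below the old letter; the thin letter of a row set of
class mass `x` has probability at most `h x` (thickness of the top) -/
theorem thin {ζ0 : Type*} {P0 : FP Om} {Z0 : Om → ζ0} (hZ0 : Fac Z0 Cp) {h : ℝ} (h0 : 0 ≤ h) (hmu : 0 ≤ mu)
    (hm : ∀ l e (S : Rw → Prop) v, P0.p v ≠ 0 →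
      P0.ce Z0 (fun v' => ind (∃ ρ, lb' ρ = lb (X v') (Cp v') ∧ Po l (Cp v') ρ ∧ S ρ)) v ≤ h * (m l e (Cp v)).Pr S)
    (θ : Lx → Fin k → D) (φ : Finset (Σ _ : Lx, (Ee × (Fin k → Γ)))) {v : Om} (hv : P0.p v ≠ 0) :
    P0.ce Z0 (fun v => ind (∃ ψ ∈ φ, Aw I mid mu m f lb' Po X Cp lb θ ψ v)) v ≤ φ.card * (h * (2 * mu)) := by
  classical
  have h1 : P0.ce Z0 (fun v => ind (∃ ψ ∈ φ, Aw I mid mu m f lb' Po X Cp lb θ ψ v)) v ≤
      ∑ ψ ∈ φ, P0.ce Z0 (fun v => ind (Aw I mid mu m f lb' Po X Cp lb θ ψ v)) v := by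
    rw [← P0.ce_sum]
    exact P0.ce_mono (fun w _ => FP.ind_ex_le φ _) v
  refine h1.trans ?_
  rw [← nsmul_eq_mul, ← sum_const]
  refine sum_le_sum fun ψ _ => ?_
  set c := Cp v with hc
  by_cases hcm : (m ψ.1 ψ.2.1 c).Pr (fun ρ => pass I mid fun i r => f i ψ.1 ψ.2.1 c ρ (θ ψ.1 r) (ψ.2.2 r)) ≤ 2 * mu
  · refine (ce_mono_on (g' := fun v' => ind (∃ ρ, lb' ρ = lb (X v') (Cp v') ∧ Po ψ.1 (Cp v') ρ ∧
      pass I mid fun i r => f i ψ.1 ψ.2.1 c ρ (θ ψ.1 r) (ψ.2.2 r))) fun w hw => ind_mono fun hA => ?_).trans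
      ((hm ψ.1 ψ.2.1 _ v hv).trans (mul_le_mul_of_nonneg_left hcm h0))
    have hcw : Cp w = c := hZ0 w v hw
    have hA2 := hA.2
    rw [hcw] at hA2
    rw [hcw]
    exact hA2
  · have h2 : P0.ce Z0 (fun v => ind (Aw I mid mu m f lb' Po X Cp lb θ ψ v)) v ≤ P0.ce Z0 (fun _ => 0) v := by
      refine ce_mono_on fun w hw => ?_
      have hcw : Cp w = c := hZ0 w v hw
      rw [ind_not fun hA => hcm ?_]
      have hA1 := hA.1
      rw [hcw] at hA1
      exact hA1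
    rw [P0.ce_const Z0 0 hv] at h2
    have : 0 ≤ h * (2 * mu) := by positivity
    linarith

/-- **THE COVERED PIECES ARE PAID** by the thin letter of `c` (`L0`, `Z0` = letter and base of the old law `P0`) -/
theorem ghost_paid {κ0 ζ0 : Type*} (H : CH Q Q' π X L Z Cp lb qc I hi mid lo R0 δ mu f lb' Po own Ve Vs N B0 B1 k)
    (hδ1 : 0 < δ1) {J : Finset Lx} (hJ : J.Nonempty) {w : Om'} (hw : Q'.p w ≠ 0)
    (hF : Fam qc I hi lo mu m f own R SS eta γ Ve Vs Pc δ1 u J w)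
    (hb : ¬ Bad k Q X Cp lb I mid mu m f lb' Po R Ve Vs δ1 u (π w))
    {P0 : FP Om} (hac : Q.Ac P0) {L0 : Om → κ0} {Z0 : Om → ζ0}
    (hL0 : Fac (fun v => (L0 v, Z0 v)) (fun v => (lb (X v) (Cp v), Cp v))) (hZ0 : Fac Z0 Cp) {h : ℝ} (h0 : 0 ≤ h)
    (hm : ∀ l e (S : Rw → Prop) v, P0.p v ≠ 0 →
      P0.ce Z0 (fun v' => ind (∃ ρ, lb' ρ = lb (X v') (Cp v') ∧ Po l (Cp v') ρ ∧ S ρ)) v ≤ h * (m l e (Cp v)).Pr S)
    {t : ℝ} (ht : 0 ≤ t) (htu : Real.exp t * (h * (2 * mu)) ≤ t * u / 64) :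
    (∑ l ∈ J, qc.Pr (Pc l w)) * t / 16 ≤ Q.klc P0 L0 Z0 := by
  obtain ⟨θ, φ, _, hφc, hφ⟩ := ghost_cover H hδ1 hJ hw hF hb
  have hA : Fac (fun v => (L0 v, Z0 v)) (fun v => ∃ ψ ∈ φ, Aw I mid mu m f lb' Po X Cp lb θ ψ v) := by
    intro v v' hv
    have h1 : (lb (X v) (Cp v), Cp v) = (lb (X v') (Cp v'), Cp v') := hL0 v v' hv
    have h2 := (Prod.mk.inj h1).1
    have h3 := (Prod.mk.inj h1).2
    show (∃ ψ ∈ φ, Ts I mid mu m f lb' Po ψ.1 (θ ψ.1) ψ.2 (Cp v) (lb (X v) (Cp v))) =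
      (∃ ψ ∈ φ, Ts I mid mu m f lb' Po ψ.1 (θ ψ.1) ψ.2 (Cp v') (lb (X v') (Cp v')))
    rw [h2, h3]
  have h1 := klc_lin hac hA ht
  have h2 : Q.E (P0.ce Z0 (fun v => ind (∃ ψ ∈ φ, Aw I mid mu m f lb' Po X Cp lb θ ψ v))) ≤ φ.card * (h * (2 * mu)) :=
    Q.E_le_const fun v hv => thin hZ0 h0 H.mpos.le hm θ φ (hac v hv)
  have h3 : 0 ≤ Q.E (P0.ce Z0 (fun v => ind (∃ ψ ∈ φ, Aw I mid mu m f lb' Po X Cp lb θ ψ v))) :=
    Q.E_nonneg fun v _ => P0.ce_nonneg (fun _ _ => ind_nonneg _) v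
  have he : Real.exp t - 1 ≤ Real.exp t := by linarith
  have he0 : 0 ≤ Real.exp t - 1 := by
    have := Real.add_one_le_exp t
    linarith
  have h4 : (Real.exp t - 1) * Q.E (P0.ce Z0 (fun v => ind (∃ ψ ∈ φ, Aw I mid mu m f lb' Po X Cp lb θ ψ v))) ≤
      Real.exp t * (φ.card * (h * (2 * mu))) :=
    mul_le_mul he h2 h3 (Real.exp_pos t).le
  have h5 : Real.exp t * (φ.card * (h * (2 * mu))) ≤ J.card * (t * u / 64) := by
    rw [hφc]
    have := mul_le_mul_of_nonneg_left htu (Nat.cast_nonneg (α := ℝ) J.card)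
    linarith
  have h6 := mul_le_mul_of_nonneg_left hF.dens ht
  have h7 := mul_le_mul_of_nonneg_left hφ ht
  nlinarith

end cover

/-! ## the potential of a greedy cover and the family of its large pieces -/

theorem phi_fam {Lx : Type*} (F : Finset Lx) (a : Lx → ℝ) (v : ℝ) : ∃ J ⊆ F, (J.card * v ≤ ∑ l ∈ J, a l) ∧
    ∑ l ∈ F, max (a l - v) 0 ≤ ∑ l ∈ J, (a l - v) := by
  classical
  refine ⟨F.filter fun l => v < a l, filter_subset _ _, ?_, ?_⟩
  · rw [← nsmul_eq_mul, ← sum_const]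
    exact sum_le_sum fun l hl => (mem_filter.1 hl).2.le
  · rw [sum_filter]
    refine sum_le_sum fun l _ => ?_
    by_cases h : v < a l
    · rw [if_pos h, max_eq_left (by linarith)]
    · rw [if_neg h, max_eq_right (by linarith)]

/-! ## the tests -/

section tests

variable {D : Type*} [Fintype D] {R : FP D} {SS : D → Prop} {g ψ : D → ℝ} {lam g0 kap : ℝ}

/-- signed rows: `true` : the sum, `false` : the mass -/
def tsS (lam x y : ℝ) (i : Bool) : ℝ := if i then y - 7 / 4 * lam * x else x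

/-- levels of the signed test -/
def hiS (lam g0 : ℝ) (i : Bool) : ℝ := if i then lam * g0 / 4 else g0

/-- levels of the signed test -/
def midS (g0 : ℝ) (i : Bool) : ℝ := if i then 0 else g0 / 2

/-- levels of the signed test -/
def loS (lam g0 : ℝ) (i : Bool) : ℝ := if i then -(lam * g0 / 16) else g0 / 4

theorem gap1S (h1 : 0 ≤ g0) (h2 : lam ≤ 1) (h3 : 0 ≤ lam) (i : Bool) : midS g0 i + lam * g0 / 16 ≤ hiS lam g0 i := by
  have h4 : lam * g0 ≤ 1 * g0 := mul_le_mul_of_nonneg_right h2 h1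
  have h5 : 0 ≤ lam * g0 := mul_nonneg h3 h1
  cases i <;> simp only [midS, hiS, if_true, Bool.false_eq_true, if_false] <;> linarith

theorem gap2S (h1 : 0 ≤ g0) (h2 : lam ≤ 1) (h3 : 0 ≤ lam) (i : Bool) : loS lam g0 i + lam * g0 / 16 ≤ midS g0 i := by
  have h4 : lam * g0 ≤ 1 * g0 := mul_le_mul_of_nonneg_right h2 h1
  have h5 : 0 ≤ lam * g0 := mul_nonneg h3 h1
  cases i <;> simp only [midS, loS, if_true, Bool.false_eq_true, if_false] <;> linarith

/-- the mean in `SS` -/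
theorem cond_mean (hS : R.Pr SS ≠ 0) (g : D → ℝ) :
    (R.cond SS).E g * R.Pr SS = R.E (fun d => ind (SS d) * g d) := by
  rw [FP.cond_E hS]
  field_simp

/-- the own row -/
theorem own_signed (hS : R.Pr SS ≠ 0) (h1 : 2 * (lam * R.E (fun d => ind (SS d) * g d)) ≤ R.E (fun d => ind (SS d) * ψ d))
    (h2 : g0 * R.Pr SS ≤ R.E (fun d => ind (SS d) * g d)) (h3 : 0 ≤ lam) (i : Bool) :
    hiS lam g0 i ≤ (R.cond SS).E (fun d => tsS lam (g d) (ψ d) i) := by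
  have hS0 : 0 < R.Pr SS := lt_of_le_of_ne (R.Pr_nonneg SS) (Ne.symm hS)
  rw [← cond_mean hS, ← cond_mean hS] at h1
  rw [← cond_mean hS] at h2
  have h4 : g0 ≤ (R.cond SS).E g := le_of_mul_le_mul_right h2 hS0
  have h5 : 2 * (lam * (R.cond SS).E g) ≤ (R.cond SS).E ψ := by
    refine le_of_mul_le_mul_right ?_ hS0
    linarith
  cases i
  · simp only [hiS, tsS, Bool.false_eq_true, if_false]
    exact h4
  · simp only [hiS, tsS, if_true]
    rw [FP.E_sub, FP.E_smul]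
    have h6 := mul_le_mul_of_nonneg_left h4 h3
    linarith

/-- a class row -/
theorem cls_signed (hS : R.Pr SS ≠ 0) (h3 : 0 ≤ lam)
    (h : ∀ i ∈ (univ : Finset Bool), loS lam g0 i < (R.cond SS).E (fun d => tsS lam (g d) (ψ d) i)) :
    3 / 2 * (lam * R.E (fun d => ind (SS d) * g d)) < R.E (fun d => ind (SS d) * ψ d) ∧
      g0 / 4 * R.Pr SS ≤ R.E (fun d => ind (SS d) * g d) := by
  have hS0 : 0 < R.Pr SS := lt_of_le_of_ne (R.Pr_nonneg SS) (Ne.symm hS)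
  have h4 := h false (mem_univ _)
  have h5 := h true (mem_univ _)
  simp only [loS, tsS, Bool.false_eq_true, if_false] at h4
  simp only [loS, tsS, if_true] at h5
  rw [FP.E_sub, FP.E_smul] at h5
  rw [← cond_mean hS, ← cond_mean hS]
  constructor
  · have h6 := mul_le_mul_of_nonneg_left h4.le h3
    have h7 : 3 / 2 * (lam * (R.cond SS).E g) < (R.cond SS).E ψ := by linarith
    have h8 := mul_lt_mul_of_pos_right h7 hS0
    linarith
  · exact mul_le_mul_of_nonneg_right h4.le hS0.le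

/-- the own row is heavy relative to `DD`, so `SS` is not much smaller than `DD` -/
theorem cls_heavy {DD a b : ℝ} (hg : 0 ≤ g0) (h1 : g0 * DD ≤ a) (h2 : a ≤ R.Pr SS) (h3 : g0 / 4 * R.Pr SS ≤ b) :
    g0 ^ 2 / 4 * DD ≤ b := by
  have h4 := mul_le_mul_of_nonneg_left (h1.trans h2) (show 0 ≤ g0 / 4 by positivity)
  linarith

theorem mass_le (hg : ∀ d, g d ≤ 1) : R.E (fun d => ind (SS d) * g d) ≤ R.Pr SS := by
  refine R.E_mono fun d _ => ?_
  have := mul_le_mul_of_nonneg_left (hg d) (ind_nonneg (SS d))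
  linarith

/-! unsigned rows: one test, levels `kap`, `3 kap / 4`, `kap / 2`, `δ = kap / 4` -/

theorem own_uns (hS : R.Pr SS ≠ 0) (h2 : kap * R.Pr SS ≤ R.E (fun d => ind (SS d) * g d)) :
    kap ≤ (R.cond SS).E g := by
  have hS0 : 0 < R.Pr SS := lt_of_le_of_ne (R.Pr_nonneg SS) (Ne.symm hS)
  rw [← cond_mean hS] at h2
  exact le_of_mul_le_mul_right h2 hS0

theorem cls_uns (hS : R.Pr SS ≠ 0) (h : kap / 2 < (R.cond SS).E g) :
    kap / 2 * R.Pr SS ≤ R.E (fun d => ind (SS d) * g d) := by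
  have hS0 : 0 < R.Pr SS := lt_of_le_of_ne (R.Pr_nonneg SS) (Ne.symm hS)
  rw [← cond_mean hS]
  exact mul_le_mul_of_nonneg_right h.le hS0.le

end tests

end

end Pool.Agent.GMH.GhoC
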