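import Pool.Agent.GMH.GhoC
import Pool.Agent.GMH.InX
import Pool.Agent.GMH.RowC

/-!
# GMH/GhoC2 (helper50): the witnesses of the covered pieces in the process (over GhoC)

`Q` = law of the time `t` in the public class of `w0`, `j` = the vertex `c`, `τ` = time of the tables, `T0 x y` = thin letter of
the vertex `j` at the time `τ` (a function of the present letter).  A thin letter at an exact point is written as a
canonical hidden point (`lbT`), so that rows `X × φ` = (thin letter, top letter) form a finite type.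

* `img` = image law, `indep_supp`, `ce_of_indep`;
* `CH_run` : the setting `CH` of GhoC holds in the class, `N = N {j} / N ∅`;
* `rowq` = class law of (thin letter at the exact point, top letter), top letter with any law `κ` of thickness `al`, e.g. `kq` =
  law of the top letter given the thin letters; `hm_run` : thickness, constant `1 / al`; `P0_indep` : the old class in
  the law of the time `t`;
* `ghost_run` : `ghost_paid` in the process, gain = `klc` of the thin letter of the time `τ` given (exact point, node);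
* `lets`, `lets_card`, `mem_lets` : possible values at a key: thin letters of conditional probability `≥ p` and possible top letters:
  at most `1 / (p al)`.
-/

set_option autoImplicit false
set_option linter.unusedSectionVars false

namespace Pool.Agent.GMH.GhoC

open Finset Pool.Agent.PWZ Pool.Agent.M3 Pool.Agent.GM Pool.Agent.GM.Harm

noncomputable section

/-! ## tools -/

section tools

variable {Om C : Type*} [Fintype Om] [Fintype C] {P : FP Om}

theorem sum_ind_one (c : C) : ∑ b, ind (c = b) = (1 : ℝ) := by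
  classical
  rw [sum_eq_single c (fun b _ hb => ind_not (fun h => hb h.symm)) (fun h => absurd (mem_univ _) h), ind_of rfl]

/-- image law -/
def img (P : FP Om) (f : Om → C) : FP C where
  p c := P.Pr (fun w => f w = c)
  nn c := P.Pr_nonneg _
  tot := by
    unfold FP.Pr
    rw [← P.E_sum]
    simp only [sum_ind_one]
    exact P.E_const 1

theorem img_E (f : Om → C) (g : C → ℝ) : (img P f).E g = P.E (fun w => g (f w)) := by
  classical
  have h1 : (img P f).E g = ∑ c, P.Pr (fun w => f w = c) * g c := rfl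
  have h2 : ∀ c, P.Pr (fun w => f w = c) * g c = P.E (fun w => ind (f w = c) * g c) := fun c =>
    (P.E_mul_const (g c) (fun w => ind (f w = c))).symm
  rw [h1, sum_congr rfl fun c _ => h2 c, ← P.E_sum]
  refine P.E_congr fun w _ => ?_
  rw [sum_eq_single (f w) (fun b _ hb => by rw [ind_not (fun h => hb h.symm), zero_mul])
    (fun h => absurd (mem_univ _) h), ind_of rfl, one_mul]

theorem img_Pr (f : Om → C) (B : C → Prop) : (img P f).Pr B = P.Pr (fun w => B (f w)) := img_E f fun c => ind (B c)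

variable {κ ι κ' ι' : Type*}

/-- independence, maps which agree on the support -/
theorem indep_supp {X : Om → κ} {Z : Om → ι} {X' : Om → κ'} {Z' : Om → ι'} (hI : P.Indep X' Z') (sX sZ : Om → Om)
    (hX : ∀ v, P.p v ≠ 0 → X v = X (sX v)) (hX' : ∀ v w, X' v = X' w → X (sX v) = X (sX w))
    (hZ : ∀ v, P.p v ≠ 0 → Z v = Z (sZ v)) (hZ' : ∀ v w, Z' v = Z' w → Z (sZ v) = Z (sZ w)) : P.Indep X Z := by
  intro f g hf hg
  have h1 : P.E (fun w => f w * g w) = P.E (fun w => f (sX w) * g (sZ w)) := P.E_congr fun v hv => by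
    rw [hf v (sX v) (hX v hv), hg v (sZ v) (hZ v hv)]
  have h2 : P.E f = P.E (fun w => f (sX w)) := P.E_congr fun v hv => hf v (sX v) (hX v hv)
  have h3 : P.E g = P.E (fun w => g (sZ w)) := P.E_congr fun v hv => hg v (sZ v) (hZ v hv)
  rw [h1, h2, h3]
  exact hI (fun w => f (sX w)) (fun w => g (sZ w)) (fun v w hvw => hf _ _ (hX' v w hvw))
    (fun v w hvw => hg _ _ (hZ' v w hvw))

theorem ce_of_indep {X : Om → κ} {Y : Om → ι} (hI : P.Indep X Y) {g : Om → ℝ} (hg : Fac Y g) {w : Om}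
    (hw : P.p w ≠ 0) : P.ce X g w = P.E g := by
  unfold FP.ce
  rw [hI (fun v => ind (X v = X w)) g (Fac.ind fun v v' h => by rw [h]) hg]
  exact mul_div_cancel_left₀ _ (P.m_pos X hw).ne'

end tools

/-! ## the class in the process -/

section run

variable {K X β γ φ υ υ0 : Type} [Fintype K] [DecidableEq K] [Fintype X] [Fintype β] [Fintype φ] [Nonempty X] [Nonempty β]
  {D : HD K X β γ φ} {al : ℝ} {h : D.Thick al} {N : Finset K → ℝ} {S : Finset (Finset K)}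
  {U : Finset K → X → (K → β) → υ} {t τ : ℕ} {j : K}

/-- hidden point and node of the time `τ` -/
def Xt (D : HD K X β γ φ) (τ : ℕ) (v : Pt K X β φ) : X × (γ × (K → γ)) := (v.1, nd D τ v)

open Classical in
/-- known points with the node `n` and the exact point `b` at `j` -/
def yb (D : HD K X β γ φ) (τ : ℕ) (j : K) (n : γ × (K → γ)) (b : β) : K → β :=
  if hh : ∃ y : K → β, y j = b ∧ ∀ i, D.qb τ (y i) = n.2 i then hh.choose else fun _ => b

theorem yb_spec {n : γ × (K → γ)} {b : β} (hh : ∃ y : K → β, y j = b ∧ ∀ i, D.qb τ (y i) = n.2 i) :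
    yb D τ j n b j = b ∧ ∀ i, D.qb τ (yb D τ j n b i) = n.2 i := by
  unfold yb
  rw [dif_pos hh]
  exact hh.choose_spec

/-- thin letter at the exact point `b` as a canonical hidden point -/
def lbT (D : HD K X β γ φ) (τ : ℕ) (j : K) (T0 : X → (K → β) → υ0) (a : X × (γ × (K → γ))) (b : β) : X :=
  Function.invFun (fun x => T0 x (yb D τ j a.2 b)) (T0 a.1 (yb D τ j a.2 b))

/-- `T0` = letter of the vertex `j` at the time `τ` -/
def DepT (D : HD K X β γ φ) (τ : ℕ) (j : K) (T0 : X → (K → β) → υ0) : Prop :=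
  ∀ x y y', y j = y' j → (∀ i, D.qb τ (y i) = D.qb τ (y' i)) → T0 x y = T0 x y'

variable {T0 : X → (K → β) → υ0}

theorem T0_yb (hT : DepT D τ j T0) (v : Pt K X β φ) (x : X) :
    T0 x (yb D τ j (nd D τ v) (v.2.1 j)) = T0 x v.2.1 := by
  have h1 := yb_spec (D := D) (τ := τ) (j := j) (n := nd D τ v) (b := v.2.1 j) ⟨v.2.1, rfl, fun _ => rfl⟩
  exact hT x _ _ h1.1 h1.2

/-- the canonical hidden point has the same letter -/
theorem lbT_spec (hT : DepT D τ j T0) (v : Pt K X β φ) :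
    T0 (lbT D τ j T0 (Xt D τ v) (v.2.1 j)) v.2.1 = T0 v.1 v.2.1 := by
  have h1 : ∃ x, (fun x => T0 x (yb D τ j (nd D τ v) (v.2.1 j))) x = T0 v.1 (yb D τ j (nd D τ v) (v.2.1 j)) :=
    ⟨v.1, rfl⟩
  have h2 := Function.invFun_eq h1
  have h3 : T0 (lbT D τ j T0 (Xt D τ v) (v.2.1 j)) (yb D τ j (nd D τ v) (v.2.1 j)) =
      T0 v.1 (yb D τ j (nd D τ v) (v.2.1 j)) := h2
  rw [T0_yb hT, T0_yb hT] at h3
  exact h3

theorem lbT_congr (hT : DepT D τ j T0) {v w : Pt K X β φ} (h1 : T0 v.1 v.2.1 = T0 w.1 w.2.1)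
    (h2 : nd D τ v = nd D τ w) (h3 : v.2.1 j = w.2.1 j) :
    lbT D τ j T0 (Xt D τ v) (v.2.1 j) = lbT D τ j T0 (Xt D τ w) (w.2.1 j) := by
  rw [← T0_yb hT v, ← T0_yb hT w, h2, h3] at h1
  show Function.invFun (fun x => T0 x (yb D τ j (nd D τ v) (v.2.1 j))) (T0 v.1 (yb D τ j (nd D τ v) (v.2.1 j))) =
    Function.invFun (fun x => T0 x (yb D τ j (nd D τ w) (w.2.1 j))) (T0 w.1 (yb D τ j (nd D τ w) (w.2.1 j)))
  rw [h2, h3, h1]

theorem nd_mono (hts : τ ≤ t) {v w : Pt K X β φ} (hh : nd D t v = nd D t w) : nd D τ v = nd D τ w := by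
  have h1 : D.qa t v.1 = D.qa t w.1 ∧ (fun j => D.qb t (v.2.1 j)) = fun j => D.qb t (w.2.1 j) :=
    Prod.mk.injEq _ _ _ _ ▸ hh
  show (D.qa τ v.1, fun j => D.qb τ (v.2.1 j)) = (D.qa τ w.1, fun j => D.qb τ (w.2.1 j))
  rw [qa_mono D hts h1.1]
  congr 1
  funext i
  exact qb_mono D hts (congrFun h1.2 i)

theorem BB_nd {I : Finset K} {v w : Pt K X β φ} (hh : BB D t I v = BB D t I w) : nd D t v = nd D t w :=
  (Prod.mk.inj (show ((fun j => if j ∈ I then some (v.2.1 j) else Option.none, nd D t v) : (K → Option β) × _) =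
    (fun j => if j ∈ I then some (w.2.1 j) else Option.none, nd D t w) from hh)).2

variable (h) in
theorem cls_supp {w0 : Pt K X β φ} (hw0 : (D.P h t).p w0 ≠ 0) {v : Pt K X β φ}
    (hv : ((D.P h t).cond (xc D U t ∅ w0)).p v ≠ 0) : xc D U t ∅ w0 v := (cond_supp (xc_ne hw0) hv).1

/-- hidden point and known points are independent in the class -/
theorem ndp1 (hU : ∀ I x y y', (∀ j ∈ I, y j = y' j) → (∀ j, D.qb t (y j) = D.qb t (y' j)) → U I x y = U I x y')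
    (hK2 : ∀ l : K, ¬ univ.erase l ⊆ ∅) (hts : τ ≤ t) {w0 : Pt K X β φ} (hw0 : (D.P h t).p w0 ≠ 0) :
    ((D.P h t).cond (xc D U t ∅ w0)).Indep (Xt D τ) (fun w => w.2.1) := by
  have hI := cls_indep (h := h) (t := t) (K0 := ∅) (xc_fac (U := U) ∅ w0 hU hK2)
    (fun v w hv hw => hv.2.trans hw.2.symm) (xc_self U t ∅ w0) (xc_ne hw0)
  refine indep_supp hI (fun v => (v.1, w0.2)) (fun v => v) (fun v hv => ?_) (fun v w hvw => ?_) (fun _ _ => rfl)
    (fun _ _ hvw => hvw)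
  · have h1 := nd_mono hts (BB_nd (cls_supp h hw0 hv).2)
    have h2 : (D.qa τ v.1, fun j => D.qb τ (v.2.1 j)) = (D.qa τ w0.1, fun j => D.qb τ (w0.2.1 j)) := h1
    show (v.1, (D.qa τ v.1, fun j => D.qb τ (v.2.1 j))) = (v.1, (D.qa τ v.1, fun j => D.qb τ (w0.2.1 j)))
    rw [(Prod.mk.inj h2).2]
  · have hvw' : v.1 = w.1 := hvw
    show (v.1, (D.qa τ v.1, fun j => D.qb τ (w0.2.1 j))) = (w.1, (D.qa τ w.1, fun j => D.qb τ (w0.2.1 j)))
    rw [hvw']

/-- hidden point and base of the vertex `j` -/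
theorem ndp2 (hU : ∀ I x y y', (∀ j ∈ I, y j = y' j) → (∀ j, D.qb t (y j) = D.qb t (y' j)) → U I x y = U I x y')
    (hK2 : ∀ l : K, ¬ univ.erase l ⊆ ∅) (hts : τ ≤ t) {w0 : Pt K X β φ} (hw0 : (D.P h t).p w0 ≠ 0) :
    ((D.P h t).cond (xc D U t ∅ w0)).Indep (Xt D τ) (fun w => (lo (LL U) {j} w, BB D t {j} w)) := by
  refine indep_supp (ndp1 hU hK2 hts hw0) (fun v => v) (fun v => (w0.1, v.2.1, w0.2.2)) (fun _ _ => rfl)
    (fun _ _ hvw => hvw) (fun v hv => ?_) (fun v w hvw => ?_)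
  · have h0 := cls_supp h hw0 hv
    have h1 := BB_nd h0.2
    have h2 : D.qa t v.1 = D.qa t w0.1 ∧ (fun j => D.qb t (v.2.1 j)) = fun j => D.qb t (w0.2.1 j) :=
      Prod.mk.injEq _ _ _ _ ▸ h1
    simp only [Prod.mk.injEq, lo_eq, BB_eq]
    refine ⟨fun J hJ => ?_, fun _ _ => trivial, h2.1, fun _ => trivial⟩
    have hJ0 : J = ∅ := Finset.ssubset_singleton_iff.1 hJ
    subst hJ0
    have h3 := h0.1
    rw [le_eq] at h3
    have h4 := h3 ∅ (Finset.Subset.refl _)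
    rw [LL_eq] at h4 ⊢
    refine ⟨h4.1.trans ?_, fun l hl => absurd (hl ▸ Finset.Subset.refl _ : univ.erase l ⊆ ∅) (hK2 l)⟩
    exact hU ∅ w0.1 w0.2.1 v.2.1 (fun j hj => absurd hj (Finset.notMem_empty j)) fun i => (congrFun h2.2 i).symm
  · have hvw' : v.2.1 = w.2.1 := hvw
    have e : ((w0.1, v.2.1, w0.2.2) : Pt K X β φ) = (w0.1, w.2.1, w0.2.2) := by rw [hvw']
    show (lo (LL U) {j} (w0.1, v.2.1, w0.2.2), BB D t {j} (w0.1, v.2.1, w0.2.2)) =
      (lo (LL U) {j} (w0.1, w.2.1, w0.2.2), BB D t {j} (w0.1, w.2.1, w0.2.2))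
    rw [e]

/-- saturation of the letter of `j` in the class -/
theorem sat_run (hU : ∀ I x y y', (∀ j ∈ I, y j = y' j) → (∀ j, D.qb t (y j) = D.qb t (y' j)) → U I x y = U I x y')
    (hs : SatA (D.P h t) (BB D t) N S (LL U) (Dep D t)) (hN : ∀ J ∈ S, 0 ≤ N J) (hK2 : ∀ l : K, ¬ univ.erase l ⊆ ∅)
    (hKS : ∅ ∈ S) (hN0 : 0 < N ∅) (hjS : {j} ∈ S) (hts : τ ≤ t) {w0 : Pt K X β φ} (hw0 : (D.P h t).p w0 ≠ 0)
    (E : Pt K X β φ → Prop) (hE : Fac (Xt D τ) E) (hE0 : ((D.P h t).cond (xc D U t ∅ w0)).Pr E ≠ 0) :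
    N {j} / N ∅ * (((D.P h t).cond (xc D U t ∅ w0)).cond E).klc ((D.P h t).cond (xc D U t ∅ w0)) (LL U {j})
        (fun w => (lo (LL U) {j} w, BB D t {j} w)) ≤
      2 * (Real.log (1 / ((D.P h t).cond (xc D U t ∅ w0)).Pr E) + 1) := by
  have hE' : EvI D t ∅ E := by
    intro v w hvw
    have h1 : (v.1, BB D t ∅ v, tl ∅ ∅ v) = (w.1, BB D t ∅ w, tl ∅ ∅ w) := hvw
    have h2 := (Prod.mk.inj h1).1
    have h3 := (Prod.mk.inj (Prod.mk.inj h1).2).1
    refine hE v w ?_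
    show (v.1, nd D τ v) = (w.1, nd D τ w)
    rw [h2, nd_mono hts (BB_nd h3)]
  have h1 := ex_pub hU hs hN hK2 hKS hjS (Finset.singleton_nonempty j) (Finset.disjoint_empty_right _) hw0 hE' hE0
  rw [div_mul_eq_mul_div, div_le_iff₀ hN0]
  linarith

variable {ι Γ Ee Lx Dk Th Om' : Type} [Fintype Lx] [DecidableEq Lx] [Fintype Dk] [Fintype Th] [Fintype Om']

/-- **THE SETTING OF GhoC IN THE CLASS** ; `Q'` = any law which is mapped to the law of the class (coin tables) -/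
theorem CH_run (hU : ∀ I x y y', (∀ j ∈ I, y j = y' j) → (∀ j, D.qb t (y j) = D.qb t (y' j)) → U I x y = U I x y')
    (hs : SatA (D.P h t) (BB D t) N S (LL U) (Dep D t)) (hN : ∀ J ∈ S, 0 ≤ N J) (hK2 : ∀ l : K, ¬ univ.erase l ⊆ ∅)
    (hKS : ∅ ∈ S) (hN0 : 0 < N ∅) (hjS : {j} ∈ S) (hts : τ ≤ t) (hT : DepT D τ j T0)
    (hTL : ∀ v w : Pt K X β φ, LL U {j} v = LL U {j} w → BB D t {j} v = BB D t {j} w → T0 v.1 v.2.1 = T0 w.1 w.2.1)
    {w0 : Pt K X β φ} (hw0 : (D.P h t).p w0 ≠ 0) {Q' : FP Om'} {π : Om' → Pt K X β φ}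
    (hpul : ∀ g : Pt K X β φ → ℝ, Q'.E (fun w => g (π w)) = ((D.P h t).cond (xc D U t ∅ w0)).E g)
    {I : Finset ι} {hi mid lw : ι → ℝ} {R0 δ mu B0 B1 : ℝ} {k : ℕ} {f : ι → Lx → Ee → β → X × φ → Dk → Γ → ℝ}
    {Po : Lx → β → X × φ → Prop} {own : Lx → Om' → β → X × φ} {Ve : Lx → Finset Ee} {Vs : Lx → Dk → Finset Γ}
    (hR : 0 < R0) (hδ : 0 ≤ δ) (hf : ∀ i l e c ρ d g, |f i l e c ρ d g| ≤ R0) (h1 : ∀ i ∈ I, mid i + δ ≤ hi i)
    (h2 : ∀ i ∈ I, lw i + δ ≤ mid i) (hmu : 0 < mu)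
    (hk : (I.card + 1 / mu) * Real.exp (-(k * δ ^ 2 / (8 * R0 ^ 2))) ≤ 1 / 4)
    (hVe : ∀ l, ((Ve l).card : ℝ) ≤ B0) (hV : ∀ l d, ((Vs l d).card : ℝ) ≤ B1)
    (hown : ∀ l w c, Q'.p w ≠ 0 →
      (∃ v, ((D.P h t).cond (xc D U t ∅ w0)).p v ≠ 0 ∧ v.2.1 j = c) →
      (own l w c).1 = lbT D τ j T0 (Xt D τ (π w)) c ∧ Po l c (own l w c)) :
    CH ((D.P h t).cond (xc D U t ∅ w0)) Q' π (Xt D τ) (LL U {j})
      (fun w => (lo (LL U) {j} w, BB D t {j} w)) (fun w => w.2.1 j) (lbT D τ j T0)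
      (img ((D.P h t).cond (xc D U t ∅ w0)) fun w => w.2.1 j) I hi mid lw R0 δ mu f Prod.fst Po own Ve Vs
      (N {j} / N ∅) B0 B1 k where
  pul := hpul
  N0 := div_nonneg (hN _ hjS) hN0.le
  fac := by
    intro v w hvw
    have e1 : (LL U {j} v, (lo (LL U) {j} v, BB D t {j} v)) = (LL U {j} w, (lo (LL U) {j} w, BB D t {j} w)) := hvw
    have e2 := (Prod.mk.inj e1).1
    have e3 := (Prod.mk.inj (Prod.mk.inj e1).2).2
    have e4 : v.2.1 j = w.2.1 j := by
      rw [BB_eq] at e3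
      exact e3.1 j (Finset.mem_singleton_self j)
    show (lbT D τ j T0 (Xt D τ v) (v.2.1 j), v.2.1 j) = (lbT D τ j T0 (Xt D τ w) (w.2.1 j), w.2.1 j)
    rw [lbT_congr hT (hTL v w e2 e3) (nd_mono hts (BB_nd e3)) e4, e4]
  ndp := ndp2 hU hK2 hts hw0
  sat := sat_run hU hs hN hK2 hKS hN0 hjS hts hw0
  pts B w hw := by
    rw [img_Pr]
    exact ce_of_indep ((ndp1 hU hK2 hts hw0).mono (Fac.refl _) (fun v w' hvw => by
      have hvw' : v.2.1 = w'.2.1 := hvw
      show v.2.1 j = w'.2.1 j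
      rw [hvw'])) (Fac.ind fun v w' hvw => by rw [hvw]) hw
  rpos := hR
  dpos := hδ
  bdd := hf
  gap1 := h1
  gap2 := h2
  mpos := hmu
  keys := hk
  vale := hVe
  vals := hV
  rown l w c hw hc := by
    refine hown l w c hw ?_
    by_contra hcon
    push Not at hcon
    refine hc ((FP.E_congr _ fun v hv => ?_).trans (FP.E_const _ 0))
    exact ind_not fun hh => hcon v hv hh

/-! ## the old law -/

/-- functions of the points have the same mean at all times -/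
theorem E_pts (t τ : ℕ) (g : X → (K → β) → ℝ) :
    (D.P h t).E (fun w => g w.1 w.2.1) = (D.P h τ).E (fun w => g w.1 w.2.1) :=
  (E_labels0 h t g).trans (E_labels0 h τ g).symm

/-- the old class in the law of the time `t`: hidden point and known points are independent -/
theorem P0_indep {Uo : Finset K → X → (K → β) → υ0}
    (hU : ∀ I x y y', (∀ j ∈ I, y j = y' j) → (∀ j, D.qb τ (y j) = D.qb τ (y' j)) → Uo I x y = Uo I x y')
    (hK2 : ∀ l : K, ¬ univ.erase l ⊆ ∅) {w0 : Pt K X β φ} (hw0 : (D.P h t).p w0 ≠ 0) :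
    ((D.P h t).cond (xc D Uo τ ∅ w0)).Indep (fun w => w.1) (fun w => w.2.1) := by
  set V := xc D Uo τ ∅ w0 with hV
  have hf := xc_fac (φ := φ) (D := D) (U := Uo) (t := τ) ∅ w0 hU hK2
  have hVt : (D.P h t).Pr V ≠ 0 := (FP.Pr_pos_of (P := D.P h t) (S := V) hw0 (xc_self Uo τ ∅ w0)).ne'
  -- the event is a function of the points
  have hVe : ∀ w : Pt K X β φ, V w = V (w.1, w.2.1, w0.2.2) := fun w => hf w (w.1, w.2.1, w0.2.2) rfl
  have key : ∀ g : X → (K → β) → ℝ, (D.P h t).E (fun w => ind (V w) * g w.1 w.2.1) =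
      (D.P h τ).E (fun w => ind (V w) * g w.1 w.2.1) := by
    intro g
    have h1 := E_pts (h := h) t τ (fun x y => ind (V (x, y, w0.2.2)) * g x y)
    refine Eq.trans ?_ (h1.trans ?_)
    · exact (D.P h t).E_congr fun w _ => by rw [hVe w]
    · exact (D.P h τ).E_congr fun w _ => by rw [hVe w]
  have hPr : (D.P h t).Pr V = (D.P h τ).Pr V := by
    have := key fun _ _ => 1
    simp only [mul_one] at this
    exact this
  have hVτ : (D.P h τ).Pr V ≠ 0 := by rw [← hPr]; exact hVt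
  have hI := cls_indep (h := h) (t := τ) (K0 := ∅) hf (fun v w hv hw => hv.2.trans hw.2.symm) (xc_self Uo τ ∅ w0) hVτ
  have key2 : ∀ g : X → (K → β) → ℝ, ((D.P h t).cond V).E (fun w => g w.1 w.2.1) =
      ((D.P h τ).cond V).E (fun w => g w.1 w.2.1) := by
    intro g
    rw [FP.cond_E hVt, FP.cond_E hVτ, hPr, key g]
  intro f g hf1 hg1
  have f1 : ∀ w, f w = f (w.1, w0.2) := fun w => hf1 _ _ rfl
  have g1 : ∀ w, g w = g (w0.1, w.2.1, w0.2.2) := fun w => hg1 _ _ rfl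
  have e1 := key2 (fun x y => f (x, w0.2) * g (w0.1, y, w0.2.2))
  have e2 := key2 (fun x _ => f (x, w0.2))
  have e3 := key2 (fun _ y => g (w0.1, y, w0.2.2))
  have e4 := hI (fun w => f (w.1, w0.2)) (fun w => g (w0.1, w.2.1, w0.2.2)) (fun v w hvw => by
      have hvw' : v.1 = w.1 := hvw
      show f (v.1, w0.2) = f (w.1, w0.2)
      rw [hvw']) (fun v w hvw => by
      have hvw' : v.2.1 = w.2.1 := hvw
      show g (w0.1, v.2.1, w0.2.2) = g (w0.1, w.2.1, w0.2.2)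
      rw [hvw'])
  rw [((D.P h t).cond V).E_congr (g := fun w => f (w.1, w0.2) * g (w0.1, w.2.1, w0.2.2))
      (fun w _ => by rw [← f1, ← g1]),
    ((D.P h t).cond V).E_congr (f := f) (g := fun w => f (w.1, w0.2)) (fun w _ => f1 w),
    ((D.P h t).cond V).E_congr (f := g) (g := fun w => g (w0.1, w.2.1, w0.2.2)) (fun w _ => g1 w)]
  exact e1.trans (e4.trans (by rw [e2, e3]))

theorem P0_node {Uo : Finset K → X → (K → β) → υ0} {w0 : Pt K X β φ} (hw0 : (D.P h t).p w0 ≠ 0) {v : Pt K X β φ}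
    (hv : ((D.P h t).cond (xc D Uo τ ∅ w0)).p v ≠ 0) : nd D τ v = nd D τ w0 := by
  have hVt : (D.P h t).Pr (xc D Uo τ ∅ w0) ≠ 0 :=
    (FP.Pr_pos_of (P := D.P h t) (S := xc D Uo τ ∅ w0) hw0 (xc_self Uo τ ∅ w0)).ne'
  exact BB_nd (cond_supp hVt hv).1.2

/-- **class law of the row** at the exact point `c` : canonical thin letter `x`, and top letter with law `κ x` -/
def rowq (P0 : FP (Pt K X β φ)) (D : HD K X β γ φ) (τ : ℕ) (j : K) (T0 : X → (K → β) → υ0) (κ : X → FP φ) (c : β) :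
    FP (X × φ) where
  p ρ := P0.Pr (fun v => lbT D τ j T0 (Xt D τ v) c = ρ.1) * (κ ρ.1).p ρ.2
  nn ρ := mul_nonneg (P0.Pr_nonneg _) ((κ ρ.1).nn _)
  tot := by
    rw [Fintype.sum_prod_type]
    have e1 : ∀ x : X, ∑ F : φ, P0.Pr (fun v => lbT D τ j T0 (Xt D τ v) c = x) * (κ x).p F =
        P0.Pr (fun v => lbT D τ j T0 (Xt D τ v) c = x) := fun x => by
      rw [← mul_sum, (κ x).tot, mul_one]
    rw [sum_congr rfl fun x _ => e1 x]
    unfold FP.Pr
    rw [← P0.E_sum]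
    simp only [sum_ind_one]
    exact P0.E_const 1

theorem rowq_Pr (P0 : FP (Pt K X β φ)) (κ : X → FP φ) (c : β) (A : X × φ → Prop) :
    (rowq P0 D τ j T0 κ c).Pr A = P0.E (fun v => (κ (lbT D τ j T0 (Xt D τ v) c)).Pr fun F =>
      A (lbT D τ j T0 (Xt D τ v) c, F)) := by
  classical
  have e0 : (rowq P0 D τ j T0 κ c).Pr A =
      ∑ x : X, ∑ F : φ, P0.Pr (fun v => lbT D τ j T0 (Xt D τ v) c = x) * (κ x).p F * ind (A (x, F)) :=
    Fintype.sum_prod_type fun ρ : X × φ => P0.Pr (fun v => lbT D τ j T0 (Xt D τ v) c = ρ.1) * (κ ρ.1).p ρ.2 * ind (A ρ)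
  have e1 : ∀ x : X, ∑ F : φ, P0.Pr (fun v => lbT D τ j T0 (Xt D τ v) c = x) * (κ x).p F * ind (A (x, F)) =
      P0.E (fun v => ind (lbT D τ j T0 (Xt D τ v) c = x) * (κ x).Pr fun F => A (x, F)) := fun x => by
    rw [P0.E_mul_const]
    show _ = P0.Pr _ * ∑ F, (κ x).p F * ind (A (x, F))
    rw [mul_sum]
    exact sum_congr rfl fun F _ => by ring
  rw [e0, sum_congr rfl fun x _ => e1 x, ← P0.E_sum]
  refine P0.E_congr fun v _ => ?_
  rw [sum_eq_single (lbT D τ j T0 (Xt D τ v) c)]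
  · rw [ind_of rfl, one_mul]
  · intro x _ hx
    rw [ind_not (fun hh => hx hh.symm), zero_mul]
  · intro hh
    exact absurd (mem_univ _) hh

/-- possible rows -/
def PoR (D : HD K X β γ φ) (τ : ℕ) (i : K) (x0 : X) (y : K → β) (ρ : X × φ) : Prop :=
  ∃ x', D.qa τ x' = D.qa τ x0 ∧ D.kf τ i x' y ρ.2 ≠ 0

/-- **THICKNESS** : the hypothesis of `thin` and `ghost_paid`, `Z0 = (exact point, node)`, constant `1 / al` -/
theorem hm_run {P0 : FP (Pt K X β φ)} {w0 : Pt K X β φ}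
    (hI : P0.Indep (fun w => w.1) (fun w => w.2.1)) (hn : ∀ v, P0.p v ≠ 0 → nd D τ v = nd D τ w0)
    {Lx : Type} (i : K) (yy : Lx → β → K → β) (l : Lx) (κ : X → FP φ) (A : X × φ → Prop) (v : Pt K X β φ)
    (hv : P0.p v ≠ 0) (hal : 0 < al)
    (hκ : ∀ x F, PoR D τ i w0.1 (yy l (v.2.1 j)) (x, F) → al ≤ (κ x).p F) :
    P0.ce (fun w => (w.2.1 j, nd D τ w)) (fun v' => ind (∃ ρ : X × φ, ρ.1 = lbT D τ j T0 (Xt D τ v') (v'.2.1 j) ∧
      PoR D τ i w0.1 (yy l (v'.2.1 j)) ρ ∧ A ρ)) v ≤ 1 / al * (rowq P0 D τ j T0 κ (v.2.1 j)).Pr A := by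
  set c := v.2.1 j with hc
  set G : Pt K X β φ → ℝ := fun v' => ind (∃ ρ : X × φ, ρ.1 = lbT D τ j T0 (v'.1, nd D τ w0) c ∧
      PoR D τ i w0.1 (yy l c) ρ ∧ A ρ) with hG
  have hind : P0.Indep (fun w => (w.2.1 j, nd D τ w)) (fun w => w.1) := by
    refine indep_supp hI.symm (fun w => (v.1, w.2.1, w.2.2)) (fun w => w) (fun w hw => ?_) (fun w w' hww => ?_)
      (fun _ _ => rfl) (fun _ _ hww => hww)
    · have h1 := (hn w hw).trans (hn v hv).symm
      have h2 : (D.qa τ w.1, fun j => D.qb τ (w.2.1 j)) = (D.qa τ v.1, fun j => D.qb τ (v.2.1 j)) := h1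
      show (w.2.1 j, (D.qa τ w.1, fun j => D.qb τ (w.2.1 j))) = (w.2.1 j, (D.qa τ v.1, fun j => D.qb τ (w.2.1 j)))
      rw [(Prod.mk.inj h2).1]
    · have hww' : w.2.1 = w'.2.1 := hww
      show (w.2.1 j, (D.qa τ v.1, fun j => D.qb τ (w.2.1 j))) = (w'.2.1 j, (D.qa τ v.1, fun j => D.qb τ (w'.2.1 j)))
      rw [hww']
  have e1 : P0.ce (fun w => (w.2.1 j, nd D τ w)) (fun v' => ind (∃ ρ : X × φ,
      ρ.1 = lbT D τ j T0 (Xt D τ v') (v'.2.1 j) ∧ PoR D τ i w0.1 (yy l (v'.2.1 j)) ρ ∧ A ρ)) v =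
      P0.ce (fun w => (w.2.1 j, nd D τ w)) G v := by
    unfold FP.ce
    congr 1
    refine P0.E_congr fun v' hv' => ?_
    by_cases hvv : (v'.2.1 j, nd D τ v') = (v.2.1 j, nd D τ v)
    · have h1 := (Prod.mk.inj hvv).1
      have h2 := hn v' hv'
      have h3 : v'.2.1 j = c := h1
      have h4 : Xt D τ v' = (v'.1, nd D τ w0) := by
        show (v'.1, nd D τ v') = _
        rw [h2]
      show ind ((v'.2.1 j, nd D τ v') = (v.2.1 j, nd D τ v)) * ind (∃ ρ : X × φ,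
        ρ.1 = lbT D τ j T0 (Xt D τ v') (v'.2.1 j) ∧ PoR D τ i w0.1 (yy l (v'.2.1 j)) ρ ∧ A ρ) =
        ind ((v'.2.1 j, nd D τ v') = (v.2.1 j, nd D τ v)) * G v'
      rw [h3, h4]
    · rw [ind_not hvv, zero_mul, zero_mul]
  have hGf : Fac (fun w : Pt K X β φ => w.1) G := fun w w' hww => by
    have hww' : w.1 = w'.1 := hww
    show ind (∃ ρ : X × φ, ρ.1 = lbT D τ j T0 (w.1, nd D τ w0) c ∧ PoR D τ i w0.1 (yy l c) ρ ∧ A ρ) =
      ind (∃ ρ : X × φ, ρ.1 = lbT D τ j T0 (w'.1, nd D τ w0) c ∧ PoR D τ i w0.1 (yy l c) ρ ∧ A ρ)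
    rw [hww']
  rw [e1, ce_of_indep hind hGf hv, rowq_Pr, ← P0.E_smul]
  refine P0.E_mono fun v' hv' => ?_
  set x0 := lbT D τ j T0 (Xt D τ v') c with hx0
  have hnn : 0 ≤ (κ x0).Pr fun F => A (x0, F) := FP.Pr_nonneg _ _
  by_cases hex : ∃ ρ : X × φ, ρ.1 = lbT D τ j T0 (v'.1, nd D τ w0) c ∧ PoR D τ i w0.1 (yy l c) ρ ∧ A ρ
  · have hG1 : G v' = 1 := ind_of hex
    rw [hG1]
    obtain ⟨⟨x1, F⟩, h1, h2, h3⟩ := hex
    have h4 : x1 = lbT D τ j T0 (v'.1, nd D τ w0) c := h1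
    have h5 : Xt D τ v' = (v'.1, nd D τ w0) := by
      show (v'.1, nd D τ v') = _
      rw [hn v' hv']
    have h6 : x1 = x0 := by rw [hx0, h5, h4]
    have h9 : al ≤ (κ x0).Pr fun F => A (x0, F) := by
      refine (hκ x0 F ?_).trans ?_
      · rw [← h6]
        exact h2
      · refine le_trans ?_ (single_le_sum (f := fun F => (κ x0).p F * ind (A (x0, F)))
          (fun F _ => mul_nonneg ((κ x0).nn _) (ind_nonneg _)) (mem_univ F))
        show (κ x0).p F ≤ (κ x0).p F * ind (A (x0, F))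
        rw [ind_of (h6 ▸ h3), mul_one]
    rw [one_div, inv_mul_eq_div, le_div_iff₀ hal, one_mul]
    exact h9
  · have hG0 : G v' = 0 := ind_not hex
    rw [hG0]
    positivity

open Classical in
/-- law of the top letter `i` at the points `y`, given an event of the old class (e.g. two thin letters: `q_1` of T.4) -/
def kq (h : D.Thick al) (P0 : FP (Pt K X β φ)) (τ : ℕ) (i : K) (x0 : X) (y : K → β) (V : Pt K X β φ → Prop) : FP φ where
  p F := if P0.Pr V = 0 then D.kf τ i x0 y F else (P0.cond V).E fun v => D.kf τ i v.1 y F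
  nn F := by
    split_ifs
    · exact h.nn _ _ _ _ _
    · exact FP.E_nonneg _ fun v _ => h.nn _ _ _ _ _
  tot := by
    split_ifs
    · exact h.one _ _ _ _
    · rw [← FP.E_sum]
      exact (FP.E_congr _ fun v _ => h.one _ _ _ _).trans (FP.E_const _ 1)

theorem kq_ge {P0 : FP (Pt K X β φ)} {w0 : Pt K X β φ} (hn : ∀ v, P0.p v ≠ 0 → nd D τ v = nd D τ w0) (i : K)
    (y : K → β) (V : Pt K X β φ → Prop) {x : X} {F : φ} (hF : PoR D τ i w0.1 y (x, F)) :
    al ≤ (kq h P0 τ i w0.1 y V).p F := by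
  obtain ⟨x', hx', hF'⟩ := hF
  show al ≤ if P0.Pr V = 0 then D.kf τ i w0.1 y F else (P0.cond V).E fun v => D.kf τ i v.1 y F
  split_ifs with hV
  · exact h.thick τ i x' w0.1 y F hx' hF'
  · rw [← FP.E_const (P0.cond V) al]
    refine FP.E_mono _ fun v hv => ?_
    have h7 : (D.qa τ v.1, fun j => D.qb τ (v.2.1 j)) = (D.qa τ w0.1, fun j => D.qb τ (w0.2.1 j)) :=
      hn v (cond_supp hV hv).2
    exact h.thick τ i x' v.1 y F (by rw [hx', (Prod.mk.inj h7).1]) hF'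

/-! ## values at the keys -/

open Classical in
/-- the possible values at the key `d` of the vertex `i` : thin letters of probability at least `p`, possible top letters
`j` at the points `y` -/
def lets (D : HD K X β γ φ) (al : ℝ) (P0 : FP (Pt K X β φ)) (τ : ℕ) (i j : K) (T1 : X → (K → β) → υ0) (x0 : X)
    (y : K → β) (p : ℝ) (d : β) : Finset (X × φ) :=
  (univ.filter fun x => p ≤ P0.Pr (fun v => lbT D τ i T1 (Xt D τ v) d = x)) ×ˢ lts D τ al j x0 y

theorem lets_card (h : D.Thick al) (P0 : FP (Pt K X β φ)) (i j : K) (T1 : X → (K → β) → υ0) (x0 : X) (y : K → β)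
    {p : ℝ} (hp : 0 < p) (d : β) : ((lets D al P0 τ i j T1 x0 y p d).card : ℝ) ≤ 1 / p * (1 / al) := by
  classical
  unfold lets
  rw [card_product]
  push_cast
  refine mul_le_mul ?_ (lts_card h τ j x0 y) (Nat.cast_nonneg _) (by positivity)
  rw [le_div_iff₀ hp]
  calc ((univ.filter fun x => p ≤ P0.Pr (fun v => lbT D τ i T1 (Xt D τ v) d = x)).card : ℝ) * p =
      ∑ _x ∈ univ.filter fun x => p ≤ P0.Pr (fun v => lbT D τ i T1 (Xt D τ v) d = x), p := by
        rw [sum_const, nsmul_eq_mul]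
    _ ≤ ∑ x ∈ univ.filter fun x => p ≤ P0.Pr (fun v => lbT D τ i T1 (Xt D τ v) d = x),
        P0.Pr (fun v => lbT D τ i T1 (Xt D τ v) d = x) := sum_le_sum fun x hx => (mem_filter.1 hx).2
    _ ≤ ∑ x, P0.Pr (fun v => lbT D τ i T1 (Xt D τ v) d = x) :=
        sum_le_sum_of_subset_of_nonneg (subset_univ _) fun x _ _ => P0.Pr_nonneg _
    _ = 1 := by
        unfold FP.Pr
        rw [← P0.E_sum]
        simp only [sum_ind_one]
        exact P0.E_const 1

open Classical in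
/-- the possible own letters of the sample: canonical thin letters of probability at least `p` -/
def letE (D : HD K X β γ φ) (P0 : FP (Pt K X β φ)) (τ : ℕ) (i : K) (T1 : X → (K → β) → υ0) (p : ℝ) (b : β) : Finset X :=
  univ.filter fun x => p ≤ P0.Pr (fun v => lbT D τ i T1 (Xt D τ v) b = x)

theorem letE_card (P0 : FP (Pt K X β φ)) (i : K) (T1 : X → (K → β) → υ0) {p : ℝ} (hp : 0 < p) (b : β) :
    ((letE D P0 τ i T1 p b).card : ℝ) ≤ 1 / p := by
  classical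
  unfold letE
  rw [le_div_iff₀ hp]
  calc ((univ.filter fun x => p ≤ P0.Pr (fun v => lbT D τ i T1 (Xt D τ v) b = x)).card : ℝ) * p =
      ∑ _x ∈ univ.filter fun x => p ≤ P0.Pr (fun v => lbT D τ i T1 (Xt D τ v) b = x), p := by
        rw [sum_const, nsmul_eq_mul]
    _ ≤ ∑ x ∈ univ.filter fun x => p ≤ P0.Pr (fun v => lbT D τ i T1 (Xt D τ v) b = x),
        P0.Pr (fun v => lbT D τ i T1 (Xt D τ v) b = x) := sum_le_sum fun x hx => (mem_filter.1 hx).2
    _ ≤ ∑ x, P0.Pr (fun v => lbT D τ i T1 (Xt D τ v) b = x) :=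
        sum_le_sum_of_subset_of_nonneg (subset_univ _) fun x _ _ => P0.Pr_nonneg _
    _ = 1 := by
        unfold FP.Pr
        rw [← P0.E_sum]
        simp only [sum_ind_one]
        exact P0.E_const 1

theorem mem_letE {P0 : FP (Pt K X β φ)} {i : K} {T1 : X → (K → β) → υ0} {p : ℝ} {b : β} {x : X}
    (h1 : p ≤ P0.Pr (fun v => lbT D τ i T1 (Xt D τ v) b = x)) : x ∈ letE D P0 τ i T1 p b := by
  classical
  exact mem_filter.2 ⟨mem_univ _, h1⟩

/-- the value at a key is possible -/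
theorem mem_lets (h : D.Thick al) {P0 : FP (Pt K X β φ)} {i j : K} {T1 : X → (K → β) → υ0} {x0 : X} {y : K → β}
    {p : ℝ} {d : β} {x1 x : X} {F : φ} (h1 : p ≤ P0.Pr (fun v => lbT D τ i T1 (Xt D τ v) d = x1))
    (h2 : D.qa τ x = D.qa τ x0) (h3 : D.kf τ j x y F ≠ 0) : (x1, F) ∈ lets D al P0 τ i j T1 x0 y p d := by
  classical
  unfold lets lts
  exact mem_product.2 ⟨mem_filter.2 ⟨mem_univ _, h1⟩, mem_filter.2 ⟨mem_univ _, h.thick τ j x x0 y F h2 h3⟩⟩

/-! ## together -/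

section fin

variable {ι Γ Ee Lx Dk Th Om' : Type} [Fintype Lx] [DecidableEq Lx] [Fintype Dk] [Fintype Th] [Fintype Om']

/-- own rows: canonical thin letter and a possible top letter `F` (read from tables) -/
theorem own_run (hts : τ ≤ t) {w0 : Pt K X β φ} (hw0 : (D.P h t).p w0 ≠ 0) {Q' : FP Om'} {π : Om' → Pt K X β φ}
    (hpul : ∀ g : Pt K X β φ → ℝ, Q'.E (fun w => g (π w)) = ((D.P h t).cond (xc D U t ∅ w0)).E g) (i : K)
    (yy : Lx → β → K → β) {l : Lx} {w : Om'} {c : β} {F : φ} (hw : Q'.p w ≠ 0)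
    (hF : D.kf τ i (π w).1 (yy l c) F ≠ 0) :
    ((lbT D τ j T0 (Xt D τ (π w)) c, F) : X × φ).1 = lbT D τ j T0 (Xt D τ (π w)) c ∧
      PoR D τ i w0.1 (yy l c) (lbT D τ j T0 (Xt D τ (π w)) c, F) := by
  have h1 := p_map hpul hw
  have h2 := nd_mono hts (BB_nd (cls_supp h hw0 h1).2)
  have h3 : (D.qa τ (π w).1, fun j => D.qb τ ((π w).2.1 j)) = (D.qa τ w0.1, fun j => D.qb τ (w0.2.1 j)) := h2
  exact ⟨rfl, (π w).1, (Prod.mk.inj h3).1, hF⟩

/-- the final class is absolutely continuous with respect to the old class -/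
theorem ac_run {Uo : Finset K → X → (K → β) → υ0} {w0 : Pt K X β φ} (hw0 : (D.P h t).p w0 ≠ 0)
    (hsub : ∀ v, xc D U t ∅ w0 v → xc D Uo τ ∅ w0 v) :
    ((D.P h t).cond (xc D U t ∅ w0)).Ac ((D.P h t).cond (xc D Uo τ ∅ w0)) := by
  intro v hv
  have h1 := cond_supp (xc_ne hw0) hv
  have hVt : (D.P h t).Pr (xc D Uo τ ∅ w0) ≠ 0 :=
    (FP.Pr_pos_of (P := D.P h t) (S := xc D Uo τ ∅ w0) hw0 (xc_self Uo τ ∅ w0)).ne'
  exact (FP.cond_p_ne hVt).2 ⟨hsub v h1.1, h1.2⟩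

/-- **THE COVERED PIECES ARE PAID, IN THE PROCESS** : `P0` = old class in the law of the time `t`, rows at the exact points of the
vertex `j` = (thin letter, top letter `i` at the points `yy l c`) -/
theorem ghost_run {Uo : Finset K → X → (K → β) → υ0}
    (hUo : ∀ I x y y', (∀ j ∈ I, y j = y' j) → (∀ j, D.qb τ (y j) = D.qb τ (y' j)) → Uo I x y = Uo I x y')
    (hK2 : ∀ l : K, ¬ univ.erase l ⊆ ∅) {υ1 : Type} {T1 : X → (K → β) → υ1} (hT : DepT D τ j T1) {w0 : Pt K X β φ}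
    (hw0 : (D.P h t).p w0 ≠ 0) (hsub : ∀ v, xc D U t ∅ w0 v → xc D Uo τ ∅ w0 v) {Q' : FP Om'} {π : Om' → Pt K X β φ}
    {I : Finset ι} {hi mid lw : ι → ℝ} {R0 δ mu B0 B1 N' : ℝ} {k : ℕ} {f : ι → Lx → Ee → β → X × φ → Dk → Γ → ℝ}
    {own : Lx → Om' → β → X × φ} {Ve : Lx → Finset Ee} {Vs : Lx → Dk → Finset Γ} (i : K) (yy : Lx → β → K → β)
    (κ : Lx → Ee → β → X → FP φ) (hκ : ∀ l e c x F, PoR D τ i w0.1 (yy l c) (x, F) → al ≤ (κ l e c x).p F)
    (H : CH ((D.P h t).cond (xc D U t ∅ w0)) Q' π (Xt D τ)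
      (LL U {j}) (fun w => (lo (LL U) {j} w, BB D t {j} w)) (fun w => w.2.1 j) (lbT D τ j T1)
      (img ((D.P h t).cond (xc D U t ∅ w0)) fun w => w.2.1 j) I hi mid lw R0 δ mu f Prod.fst
      (fun l c ρ => PoR D τ i w0.1 (yy l c) ρ) own Ve Vs N' B0 B1 k)
    {R : Lx → FP Dk} {SS : Lx → Om' → Dk → Prop} {eta : Lx → Om' → Ee} {γk : Lx → Om' → Dk → Γ}
    {Pc : Lx → Om' → β → Prop} {δ1 u : ℝ} (hδ1 : 0 < δ1) {J : Finset Lx} (hJ : J.Nonempty)
    {w : Om'} (hw : Q'.p w ≠ 0)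
    (hF : Fam (img ((D.P h t).cond (xc D U t ∅ w0)) fun w => w.2.1 j) I hi lw mu
      (fun l e c => rowq ((D.P h t).cond (xc D Uo τ ∅ w0)) D τ j T1 (κ l e c) c) f own R SS eta γk Ve Vs Pc δ1 u J w)
    (hb : ¬ Bad k ((D.P h t).cond (xc D U t ∅ w0)) (Xt D τ) (fun w => w.2.1 j) (lbT D τ j T1) I mid mu
      (fun l e c => rowq ((D.P h t).cond (xc D Uo τ ∅ w0)) D τ j T1 (κ l e c) c) f Prod.fst
      (fun l c ρ => PoR D τ i w0.1 (yy l c) ρ) R Ve Vs δ1 u (π w))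
    {t' : ℝ} (ht : 0 ≤ t') (htu : Real.exp t' * (1 / al * (2 * mu)) ≤ t' * u / 64) :
    (∑ l ∈ J, (img ((D.P h t).cond (xc D U t ∅ w0)) fun w => w.2.1 j).Pr (Pc l w)) * t' / 16 ≤
      ((D.P h t).cond (xc D U t ∅ w0)).klc ((D.P h t).cond (xc D Uo τ ∅ w0)) (fun v => T1 v.1 v.2.1)
        (fun v => (v.2.1 j, nd D τ v)) := by
  refine ghost_paid H hδ1 hJ hw hF hb (ac_run hw0 hsub) ?_ ?_ (h := 1 / al) ?_ ?_ ht htu
  · intro v v' hv
    have h1 : (T1 v.1 v.2.1, (v.2.1 j, nd D τ v)) = (T1 v'.1 v'.2.1, (v'.2.1 j, nd D τ v')) := hv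
    have h2 := (Prod.mk.inj h1).1
    have h3 := (Prod.mk.inj (Prod.mk.inj h1).2).1
    have h4 := (Prod.mk.inj (Prod.mk.inj h1).2).2
    show (lbT D τ j T1 (Xt D τ v) (v.2.1 j), v.2.1 j) = (lbT D τ j T1 (Xt D τ v') (v'.2.1 j), v'.2.1 j)
    rw [lbT_congr hT h2 h4 h3, h3]
  · intro v v' hv
    exact (Prod.mk.inj (show (v.2.1 j, nd D τ v) = (v'.2.1 j, nd D τ v') from hv)).1
  · have := h.pos
    positivity
  · intro l e A v hv
    exact hm_run (P0_indep hUo hK2 hw0) (fun v hv => P0_node hw0 hv) i yy l _ A v hv h.pos (hκ l e _)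

end fin

end run

end

end Pool.Agent.GMH.GhoC
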