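import Pool.Agent.GMH.GhoZ2

/-!
# GMH/GhoCZ (helper85): COARSE COVERS OF PAIRS AT THE EXACT VERTEX (H3.UNM, U.4 (b)), law given `a` and the node at `nu`

`U` = exact `b` with everything attached to it, `V` = `(c, d)`, `X s` = cells of `(c, d)`.  `tk s` = any unique time seen by
(exact `U`, `X s`) (`T^b` of the life), `R` = static event of `(U, V)`, `psZ = f (U) ` = weight `ψ_Z`.
`czc` = cumulative greedy cover of `(c, d)` by the sections of `R, tk s` of the sampled `b_i` (own worlds).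

* `new_mass` : what is newly covered at a level has mass `0` or `≥ kap` in the cell;
* `cz` : `E 1[R, ∃ s, tk s] psZ ≤ lam P (R, tk s, not covered) + L kap P (tk) + L P (bad) + L P (R, tk s, covered)`;
* `cz_thin` : before `T^0` : `P (R, tk s, covered) ≤ (u3 + u0 / (u3 kap)) P (covered at sg)`;
* `cz_pay` : `lam P (covered at sg) ≤ 2 E PhL (sg)`; `cz_all` : together.
-/

set_option autoImplicit false
set_option linter.unusedSectionVars false

namespace Pool.Agent.GMH.GhoCZ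

open Finset Pool.Agent.PWZ Pool.Agent.M3 Pool.Agent.GMH.Gdy Pool.Agent.GMH.CR Pool.Agent.GMH.Three
open Pool.Agent.GMH.Blk Pool.Agent.GMH.GhoV Pool.Agent.GMH.GhoZ
open Pool.Agent.GMH.GhoT (al thin_le)
open Pool.Agent.GMH.GdyR (covL covL_facV covL_mono covL_change covL_iff PhL)

noncomputable section

variable {Om : Type*} [Fintype Om] {P : FP Om}

/-! ## new mass -/

section new

variable {κ : ℕ → Type*} {X : ∀ t, Om → κ t} {R : Type*} {H : ℕ → R → Om → Prop} {f : R → Om → ℝ} {kap lam : ℝ}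
  {K n : ℕ} {x : Fin n → R}

/-- **what is newly covered at a level is not small** -/
theorem new_mass (hK : 0 < K) (s : ℕ) {w : Om} :
    cp P X s (fst (covL P X H f kap lam K x) s) w ≤ 0 ∨ kap ≤ cp P X s (fst (covL P X H f kap lam K x) s) w := by
  by_cases hz : ∃ z, X s z = X s w ∧ fst (covL P X H f kap lam K x) s z
  · obtain ⟨z, hzw, h1, h2⟩ := hz
    right
    obtain ⟨t, ht, i, hp⟩ := (covL_iff s z).1 h1
    have hts : t / K = s := by
      have h3 : t / K ≤ s := Nat.lt_succ_iff.1 (Nat.div_lt_of_lt_mul (by rw [Nat.mul_comm]; exact ht))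
      rcases Nat.lt_or_eq_of_le h3 with h4 | h4
      · refine absurd ((covL_iff (t / K) z).2 ⟨t, ?_, i, hp⟩) (h2 _ h4)
        rw [Nat.mul_comm]
        exact Nat.lt_mul_div_succ t hK
      · exact h4
    have htk : GdyR.tk P (GdyR.rX X K) (GdyR.rH H K) f kap lam x t i w := by
      refine (GdyR.tk_fac (P := P) (X := GdyR.rX X K) ?_).1 hp.2
      exact (GdyR.rX_lev hts).2 hzw
    have h5 := GdyR.pc_ge (P := P) (X := GdyR.rX X K) (H := GdyR.rH H K) (f := f) (kap := kap) (lam := lam) (x := x) t i w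
    rw [ind_of htk, mul_one, GdyR.cp_lev hts] at h5
    refine h5.trans (cp_mono (fun v hv => ⟨(covL_iff s v).2 ⟨t, ht, i, hv⟩, fun s' hs' hc => ?_⟩) w)
    refine hv.1.2 (GdyR.cov_mono ?_ hc)
    have h6 : (s' + 1) * K ≤ s * K := Nat.mul_le_mul_right K (by omega)
    have h7 : s * K ≤ t := by
      rw [← hts]
      exact Nat.div_mul_le_self t K
    exact h6.trans h7
  · left
    refine le_of_eq ?_
    have h3 : cp P X s (fst (covL P X H f kap lam K x) s) w = P.ce (X s) (fun _ => 0) w :=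
      ce_congr_on fun v _ hv => ind_not fun h => hz ⟨v, hv, h⟩
    rw [h3]
    unfold FP.ce
    simp only [mul_zero]
    unfold FP.E
    simp

end new

/-! ## coarse covers -/

section main

variable {α ω : Type*} {U : Om → α} {V : Om → ω} {κ κv ν : ℕ → Type*} {X : ∀ t, Om → κ t} {Vs : ∀ t, Om → κv t}
  {nd : ∀ t, Om → ν t} {tk : ℕ → Om → Prop} {R : Om → Prop} {f : α → Om → ℝ} {psZ : Om → ℝ} {kap lam L u0 u3 : ℝ}
  {K M T : ℕ} {x : Fin M → α} {sg : Om → ℕ}

variable (U V tk R) in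
/-- the section of a sampled `b_i` in its own world -/
def sc : ℕ → α → Om → Prop := sec U V (fun s w => tk s w ∧ R w)

variable (P U V X tk R f kap lam K x) in
/-- the coarse cover of `(c, d)` -/
def czc : ℕ → Om → Prop := covL P X (sc U V tk R) f kap lam K x

theorem czc_V (hX : ∀ s, Fac V (X s)) (s : ℕ) (v w : Om) (e : V v = V w) :
    czc P U V X tk R f kap lam K x s v ↔ czc P U V X tk R f kap lam K x s w :=
  covL_facV (V := V) hX (fun s a v w e => sec_fac s a v w e) s v w e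

/-- **THE RELEASED PART** -/
theorem cz (hI : P.Indep U V) (hX : ∀ s, Fac V (X s))
    (htk : ∀ s x w, (U x, X s x) = (U w, X s w) → (tk s x ↔ tk s w)) (k1 : ∀ w s s', tk s w → tk s' w → s = s')
    (kT : ∀ s w, tk s w → s < T) (hR : ∀ x w, U x = U w → V x = V w → (R x ↔ R w)) (l0 : 0 ≤ lam) (k0 : 0 ≤ kap)
    (L0 : 0 ≤ L) (hL : ∀ w, psZ w ≤ L) (hf : ∀ a, Fac V (f a)) (hg : ∀ w, f (U w) w = psZ w) :
    P.E (fun w => ind (R w ∧ ∃ s, tk s w) * psZ w) ≤
      lam * P.Pr (fun w => ∃ s, (tk s w ∧ R w) ∧ ¬ czc P U V X tk R f kap lam K x s w) +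
        L * kap * P.Pr (fun w => ∃ s, tk s w) +
        L * P.Pr (fun w => GdyR.bad P X (sc U V tk R) f kap lam K x (U w) T w) +
        L * P.Pr (fun w => ∃ s, (tk s w ∧ R w) ∧ czc P U V X tk R f kap lam K x s w) := by
  set c := czc P U V X tk R f kap lam K x with hc
  have hA : ∀ s x w, U x = U w → V x = V w → ((tk s x ∧ R x) ↔ (tk s w ∧ R w)) := fun s x w e e' =>
    and_congr (htk s x w (by rw [e, hX s x w e'])) (hR x w e e')
  have h1 := row_lem (P := P) (A := fun s w => tk s w ∧ R w) (z := tk) (T := T) (K := K) (x := x) hI hX hA htk k1 kT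
    (fun s w a => a.1) l0 k0 L0 hL hf hg
  have e1 : ∀ w, ind (R w ∧ ∃ s, tk s w) * psZ w = ind (∃ s, (tk s w ∧ R w) ∧ ¬ c s w) * psZ w +
      ind (∃ s, (tk s w ∧ R w) ∧ c s w) * psZ w := by
    intro w
    have e2 : ind (R w ∧ ∃ s, tk s w) = ind (∃ s, (tk s w ∧ R w) ∧ ¬ c s w) + ind (∃ s, (tk s w ∧ R w) ∧ c s w) := by
      by_cases h2 : ∃ s, (tk s w ∧ R w) ∧ ¬ c s w
      · have h3 : ¬ ∃ s, (tk s w ∧ R w) ∧ c s w := fun ⟨s', a', b'⟩ => by
          obtain ⟨s, a, b⟩ := h2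
          obtain rfl := k1 w s s' a.1 a'.1
          exact b b'
        obtain ⟨s, a, b⟩ := h2
        rw [ind_of ⟨a.2, s, a.1⟩, ind_of ⟨s, a, b⟩, ind_not h3, add_zero]
      · rw [ind_not h2, zero_add]
        congr 1
        exact propext ⟨fun ⟨r, s, a⟩ => ⟨s, ⟨a, r⟩, by_contra fun b => h2 ⟨s, ⟨a, r⟩, b⟩⟩,
          fun ⟨s, a, _⟩ => ⟨a.2, s, a.1⟩⟩
    rw [e2]
    ring
  have e3 : P.E (fun w => ind (R w ∧ ∃ s, tk s w) * psZ w) =
      P.E (fun w => ind (∃ s, (tk s w ∧ R w) ∧ ¬ c s w) * psZ w) +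
      P.E (fun w => ind (∃ s, (tk s w ∧ R w) ∧ c s w) * psZ w) := by
    rw [← FP.E_add]
    exact P.E_congr fun w _ => e1 w
  have e4 : P.E (fun w => ind (∃ s, (tk s w ∧ R w) ∧ c s w) * psZ w) ≤
      L * P.Pr (fun w => ∃ s, (tk s w ∧ R w) ∧ c s w) := by
    unfold FP.Pr
    rw [← FP.E_smul]
    refine P.E_mono fun w _ => ?_
    have := mul_le_mul_of_nonneg_left (hL w) (ind_nonneg (∃ s, (tk s w ∧ R w) ∧ c s w))
    linarith
  rw [e3]
  have h2 : P.E (fun w => ind (∃ s, (tk s w ∧ R w) ∧ ¬ c s w) * psZ w) ≤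
      lam * P.Pr (fun w => ∃ s, (tk s w ∧ R w) ∧ ¬ c s w) + L * kap * P.Pr (fun w => ∃ s, tk s w) +
        L * P.Pr (fun w => GdyR.bad P X (sc U V tk R) f kap lam K x (U w) T w) := h1
  linarith

/-- **THE COVERED PART BEFORE `T^0`** ; `Vs s` = exact `(c, d)` and the cell of `b` -/
theorem cz_thin (hX : ∀ s, Fac V (X s)) (fVs : Filt Vs) (hVs : ∀ s, Fac (Vs s) (nd s)) (hVV : ∀ s, Fac (Vs s) V)
    (fnd : Filt nd) (hnd : ∀ s (g : Om → ℝ), Fac V g → ∀ w, P.p w ≠ 0 → P.ce (nd s) g w = P.ce (X s) g w)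
    (hsg : Stp nd sg) (hT : ∀ w, sg w < T) (hK : 0 < K) (k0 : 0 < kap) (c0 : 0 < u3) (z0 : 0 ≤ u0)
    (hal : ∀ s w, P.p w ≠ 0 → tk s w → al P nd R u0 s w) (hs : ∀ s w, tk s w → s ≤ sg w) :
    P.Pr (fun w => ∃ s, (tk s w ∧ R w) ∧ czc P U V X tk R f kap lam K x s w) ≤
      (u3 + u0 / (u3 * kap)) * P.Pr (fun w => czc P U V X tk R f kap lam K x (sg w) w) := by
  set c := czc P U V X tk R f kap lam K x with hc
  have h1 := thin_le (P := P) (V := Vs) (nd := nd) (R := R) (u0 := u0) (uc := u3) (uC := kap) (K := c) (σ := sg)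
    (T := T) fVs fnd hVs hsg hT c0 k0 z0 (fun s x w e => czc_V hX s x w (hVV s x w e)) (fun s w hw => by
      have e1 : cp P nd s (fst c s) w = cp P X s (fst c s) w := by
        refine hnd s _ (Fac.ind fun x y e => ?_) w hw
        have hcV : ∀ s', c s' x ↔ c s' y := fun s' => czc_V hX s' x y e
        unfold fst
        rw [propext (hcV s)]
        exact and_congr_right fun _ => forall_congr' fun s' => forall_congr' fun _ => not_congr (hcV s')
      rw [e1]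
      exact new_mass hK s)
  have h2 : P.Pr (fun w => ∃ s, (tk s w ∧ R w) ∧ c s w) ≤
      P.Pr (fun w => R w ∧ ∃ s ≤ sg w, fst c s w ∧ al P nd R u0 s w) := by
    refine P.Pr_mono fun w hw ⟨s, ⟨a, r⟩, b⟩ => ⟨r, ?_⟩
    obtain ⟨s', hs', hf⟩ := fst_ex (A := c) b
    exact ⟨s', hs'.trans (hs s w a), hf, fun s'' h'' => hal s w hw a s'' (h''.trans hs')⟩
  have h3 : P.Pr (fun w => ∃ s ≤ sg w, fst c s w) ≤ P.Pr (fun w => c (sg w) w) :=
    P.Pr_mono fun w _ ⟨s, a, b⟩ => covL_mono a b.1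
  have h4 : 0 ≤ u3 + u0 / (u3 * kap) := by positivity
  exact h2.trans (h1.trans (mul_le_mul_of_nonneg_left h3 h4))

/-- **THE PAYMENT OF THE COARSE COVER** -/
theorem cz_pay (fnd : Filt nd) (hX : ∀ s, Fac V (X s)) (hsg : Stp nd sg)
    (hnd : ∀ s (g : Om → ℝ), Fac V g → ∀ w, P.p w ≠ 0 → P.ce (nd s) g w = P.ce (X s) g w) (hK : 0 < K) (l0 : 0 ≤ lam)
    (hf : ∀ a, Fac V (f a)) :
    lam * P.Pr (fun w => czc P U V X tk R f kap lam K x (sg w) w) ≤
      2 * P.E (fun w => PhL P nd (sc U V tk R) f kap lam K x (sg w) w) := by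
  have h1 := row_pay (P := P) (U := U) (A := fun s w => tk s w ∧ R w) (K := K) (kap := kap) (lam := lam) (x := x) fnd hX
    hsg (fun s g hg w hw => (hnd s g hg w hw).symm) hK l0 hf (E := fun s w => s = sg w) (fun s w e => e.le)
  refine le_trans (mul_le_mul_of_nonneg_left (P.Pr_mono fun w _ a => ?_) l0) h1
  exact ⟨sg w, rfl, a⟩

/-- the bad vertices, in the mean over the sample -/
theorem cz_bad [Fintype α] (hI : P.Indep U V) (hX : ∀ s, Fac V (X s)) (fX : Filt X) (hK : 1 < kap * K) (k0 : 0 < kap)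
    (M T : ℕ) : ∑ x : Fin M → α, sw (fun a => P.Pr (fun w => U w = a)) x *
      P.Pr (fun w => GdyR.bad P X (sc U V tk R) f kap lam K x (U w) T w) ≤ 1 / (kap * (M + 1)) :=
  GdyR.bad_ind hI hX fX hK k0 M T

/-- **COARSE COVERS, PUBLIC EPOCH** -/
theorem cz_all (hI : P.Indep U V) (hX : ∀ s, Fac V (X s))
    (htk : ∀ s x w, (U x, X s x) = (U w, X s w) → (tk s x ↔ tk s w)) (k1 : ∀ w s s', tk s w → tk s' w → s = s')
    (hR : ∀ x w, U x = U w → V x = V w → (R x ↔ R w)) (l0 : 0 ≤ lam) (k0 : 0 < kap)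
    (L0 : 0 ≤ L) (hL : ∀ w, psZ w ≤ L) (hf : ∀ a, Fac V (f a)) (hg : ∀ w, f (U w) w = psZ w)
    (fVs : Filt Vs) (hVs : ∀ s, Fac (Vs s) (nd s)) (hVV : ∀ s, Fac (Vs s) V)
    (fnd : Filt nd) (hnd : ∀ s (g : Om → ℝ), Fac V g → ∀ w, P.p w ≠ 0 → P.ce (nd s) g w = P.ce (X s) g w)
    (hsg : Stp nd sg) (hT : ∀ w, sg w < T) (hK : 0 < K) (c0 : 0 < u3) (z0 : 0 ≤ u0)
    (hal : ∀ s w, P.p w ≠ 0 → tk s w → al P nd R u0 s w) (hs : ∀ s w, tk s w → s ≤ sg w) :
    P.E (fun w => ind (R w ∧ ∃ s, tk s w) * psZ w) ≤ lam * P.Pr (fun w => R w ∧ ∃ s, tk s w) +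
        L * kap * P.Pr (fun w => ∃ s, tk s w) +
        L * P.Pr (fun w => GdyR.bad P X (sc U V tk R) f kap lam K x (U w) T w) +
        L * ((u3 + u0 / (u3 * kap)) * P.Pr (fun w => czc P U V X tk R f kap lam K x (sg w) w)) := by
  have h1 := cz (P := P) (K := K) (x := x) hI hX htk k1 (fun s w a => lt_of_le_of_lt (hs s w a) (hT w)) hR l0 k0.le
    L0 hL hf hg
  have h2 := cz_thin (P := P) (U := U) (f := f) (lam := lam) (x := x) hX fVs hVs hVV fnd hnd hsg hT hK k0 c0 z0 hal hs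
  have h3 := mul_le_mul_of_nonneg_left h2 L0
  have h4 : lam * P.Pr (fun w => ∃ s, (tk s w ∧ R w) ∧ ¬ czc P U V X tk R f kap lam K x s w) ≤
      lam * P.Pr (fun w => R w ∧ ∃ s, tk s w) :=
    mul_le_mul_of_nonneg_left (P.Pr_mono fun w _ ⟨s, a, _⟩ => ⟨a.2, s, a.1⟩) l0
  linarith

end main

end

end Pool.Agent.GMH.GhoCZ
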