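import Pool.Agent.GMH.CR

/-!
# GMH/GhoM (helper40): CLASS MASS OF THE HEAVY ROWS OVER ALL WORLDS (note 4001 (4))

`Z` = exact `(b, c)` (and the path of `c`), `Zx` = `Z` and the row `x` (a class row at `c`), `Y i` = `Zx` and the
cell of `d` at the level `i`.  `A i` = something is taken at the level `i` (disjoint in `i`; its probability given `Zx`
does not depend on `x`), `Cv i` = `d` is covered at the level `i`, `V i` = the row `x` violates at the level `i`,
`N` = the tuple is in the relation, `ψ ≤ L`.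

* `sum_le` : `S_s ≤ lam m_s + L mu0 D_s + L V_s`, sums over the levels `i ≤ s`;
* `cls_gen` : levels at which rows with `V_s > kap D_s` have probability `> mu` given `Z` ;
* `cls_uns` : the unsigned case, rows with `S_s > L (mu0 + kap) D_s` ;
* `cls_le` : rows `x` with `S_s > (3/2) lam m_s`, `m_s ≥ g D_s` : the levels `s` at which their probability given `Z` is
  larger than `mu` are taken with total probability `≤ P (∃ i, A i, V i) / (kap mu)`, where `L (mu0 + kap) ≤ lam g / 2`.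
-/

set_option autoImplicit false
set_option linter.unusedSectionVars false

namespace Pool.Agent.GMH.GhoM

open Finset Pool.Agent.PWZ Pool.Agent.M3 Pool.Agent.GMH.CR

noncomputable section

/-- **the last exceptional level** -/
theorem last_exc {a : ℕ → ℝ} (h0 : ∀ i, 0 ≤ a i) {X : ℕ → Prop} {c : ℝ} (hc : 0 ≤ c)
    (h : ∀ s, X s → ∑ i ∈ range (s + 1), a i ≤ c) (T : ℕ) : ∑ s ∈ range T, a s * ind (X s) ≤ c := by
  induction T with
  | zero => simpa using hc
  | succ n ih =>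
    by_cases hX : X n
    · refine le_trans (Finset.sum_le_sum fun s _ => ?_) (h n hX)
      exact mul_le_of_le_one_right (h0 s) (ind_le_one _)
    · rw [Finset.sum_range_succ, ind_not hX, mul_zero, add_zero]
      exact ih

variable {Om : Type*} [Fintype Om] {P : FP Om} {ζ ξ : Type*} {υ : ℕ → Type*} {Z : Om → ζ} {Zx : Om → ξ}
  {Y : ∀ i, Om → υ i} {A Cv V : ℕ → Om → Prop} {N : Om → Prop} {ψ : Om → ℝ} {lam mu0 L g kap mu : ℝ}

variable (P Zx A Cv ψ) in
/-- signed sum of the row up to the level `s`, over all worlds -/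
def Ss (s : ℕ) (w : Om) : ℝ := ∑ i ∈ range (s + 1), P.ce Zx (fun x => ind (A i x ∧ ¬ Cv i x) * ψ x) w

variable (P Zx A Cv N) in
/-- mass of the relation in the row -/
def ms (s : ℕ) (w : Om) : ℝ := ∑ i ∈ range (s + 1), P.ce Zx (fun x => ind (A i x ∧ ¬ Cv i x ∧ N x)) w

variable (P Zx A) in
/-- mass of what is taken up to the level `s` -/
def Ds (s : ℕ) (w : Om) : ℝ := ∑ i ∈ range (s + 1), P.ce Zx (fun x => ind (A i x)) w

variable (P Zx A V) in
/-- mass of the violating part -/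
def Vs (s : ℕ) (w : Om) : ℝ := ∑ i ∈ range (s + 1), P.ce Zx (fun x => ind (A i x ∧ V i x)) w

theorem ms_nonneg (s : ℕ) (w : Om) : 0 ≤ ms P Zx A Cv N s w :=
  Finset.sum_nonneg fun _ _ => P.ce_nonneg (fun _ _ => ind_nonneg _) w

theorem Ds_nonneg (s : ℕ) (w : Om) : 0 ≤ Ds P Zx A s w :=
  Finset.sum_nonneg fun _ _ => P.ce_nonneg (fun _ _ => ind_nonneg _) w

theorem Vs_nonneg (s : ℕ) (w : Om) : 0 ≤ Vs P Zx A V s w :=
  Finset.sum_nonneg fun _ _ => P.ce_nonneg (fun _ _ => ind_nonneg _) w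

/-- one level -/
theorem level_le (hYZ : ∀ i, Fac (Y i) Zx) (hA : ∀ i x w, Y i x = Y i w → (A i x ↔ A i w))
    (hV : ∀ i x w, Y i x = Y i w → (V i x ↔ V i w)) (l0 : 0 ≤ lam) (m0 : 0 ≤ mu0) (L0 : 0 ≤ L)
    (hL : ∀ w, P.p w ≠ 0 → ψ w ≤ L) (hN : ∀ w, P.p w ≠ 0 → ¬ N w → ψ w = 0) {i : ℕ}
    (hn : ∀ w, P.p w ≠ 0 → A i w → ¬ V i w → P.ce (Y i) (fun x => ind (N x ∧ ¬ Cv i x) * ψ x) w ≤
      lam * P.ce (Y i) (fun x => ind (N x ∧ ¬ Cv i x)) w + L * mu0) (w : Om) :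
    P.ce Zx (fun x => ind (A i x ∧ ¬ Cv i x) * ψ x) w ≤
      lam * P.ce Zx (fun x => ind (A i x ∧ ¬ Cv i x ∧ N x)) w + L * mu0 * P.ce Zx (fun x => ind (A i x)) w +
        L * P.ce Zx (fun x => ind (A i x ∧ V i x)) w := by
  have fA : Fac (Y i) (fun x => ind (A i x)) := Fac.ind fun x w e => hA i x w e
  have fV : Fac (Y i) (fun x => ind (A i x ∧ V i x)) := Fac.ind fun x w e => by rw [hA i x w e, hV i x w e]
  rw [← P.ce_tower (hYZ i) (fun x => ind (A i x ∧ ¬ Cv i x) * ψ x) w,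
    ← P.ce_tower (hYZ i) (fun x => ind (A i x ∧ ¬ Cv i x ∧ N x)) w, ← P.ce_smul, ← P.ce_smul, ← P.ce_smul,
    ← P.ce_add, ← P.ce_add]
  refine P.ce_mono (fun v hv => ?_) w
  have e1 : P.ce (Y i) (fun x => ind (A i x ∧ ¬ Cv i x) * ψ x) v =
      ind (A i v) * P.ce (Y i) (fun x => ind (N x ∧ ¬ Cv i x) * ψ x) v := by
    rw [← P.ce_mul fA]
    refine P.ce_congr (fun x hx => ?_) v
    rw [ind_and, ind_and]
    by_cases h : N x
    · rw [ind_of h]
      ring
    · rw [hN x hx h]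
      ring
  have e2 : P.ce (Y i) (fun x => ind (A i x ∧ ¬ Cv i x ∧ N x)) v =
      ind (A i v) * P.ce (Y i) (fun x => ind (N x ∧ ¬ Cv i x)) v := by
    rw [← P.ce_mul fA]
    refine P.ce_congr (fun x _ => ?_) v
    rw [ind_and, ind_and, ind_and]
    ring
  rw [e1, e2]
  have c0 : 0 ≤ P.ce (Y i) (fun x => ind (N x ∧ ¬ Cv i x)) v := P.ce_nonneg (fun _ _ => ind_nonneg _) v
  by_cases hAv : A i v
  · rw [ind_of hAv, one_mul, one_mul, mul_one]
    by_cases hVv : V i v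
    · rw [ind_of ⟨hAv, hVv⟩, mul_one]
      have h1 : P.ce (Y i) (fun x => ind (N x ∧ ¬ Cv i x) * ψ x) v ≤ L := by
        refine P.ce_le_const (fun x hx => ?_) hv
        have h2 := ind_nonneg (N x ∧ ¬ Cv i x)
        have h3 := ind_le_one (N x ∧ ¬ Cv i x)
        have h4 := hL x hx
        nlinarith
      have h2 := mul_nonneg l0 c0
      have h3 := mul_nonneg L0 m0
      linarith
    · rw [ind_not fun h => hVv h.2, mul_zero, add_zero]
      exact hn v hv hAv hVv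
  · rw [ind_not hAv, zero_mul, zero_mul, mul_zero, mul_zero, zero_add, ind_not fun h => hAv h.1, mul_zero, add_zero]

/-- **the sum of a class row** -/
theorem sum_le (hYZ : ∀ i, Fac (Y i) Zx) (hA : ∀ i x w, Y i x = Y i w → (A i x ↔ A i w))
    (hV : ∀ i x w, Y i x = Y i w → (V i x ↔ V i w)) (l0 : 0 ≤ lam) (m0 : 0 ≤ mu0) (L0 : 0 ≤ L)
    (hL : ∀ w, P.p w ≠ 0 → ψ w ≤ L) (hN : ∀ w, P.p w ≠ 0 → ¬ N w → ψ w = 0) {s : ℕ}
    (hn : ∀ i ≤ s, ∀ w, P.p w ≠ 0 → A i w → ¬ V i w → P.ce (Y i) (fun x => ind (N x ∧ ¬ Cv i x) * ψ x) w ≤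
      lam * P.ce (Y i) (fun x => ind (N x ∧ ¬ Cv i x)) w + L * mu0) (w : Om) :
    Ss P Zx A Cv ψ s w ≤ lam * ms P Zx A Cv N s w + L * mu0 * Ds P Zx A s w + L * Vs P Zx A V s w := by
  unfold Ss ms Ds Vs
  rw [Finset.mul_sum, Finset.mul_sum, Finset.mul_sum, ← Finset.sum_add_distrib, ← Finset.sum_add_distrib]
  refine Finset.sum_le_sum fun i hi => ?_
  exact level_le hYZ hA hV l0 m0 L0 hL hN (hn i (Nat.lt_succ_iff.1 (mem_range.1 hi))) w

variable (P Zx A Cv N ψ lam g) in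
/-- heavy rows of a large sum at the level `s` -/
def hvy (s : ℕ) (w : Om) : Prop :=
  3 / 2 * (lam * ms P Zx A Cv N s w) < Ss P Zx A Cv ψ s w ∧ g * Ds P Zx A s w ≤ ms P Zx A Cv N s w

theorem hvy_vio (l0 : 0 ≤ lam) (L0 : 0 < L) (hg : L * (mu0 + kap) ≤ lam * g / 2) {s : ℕ} {w : Om}
    (h : Ss P Zx A Cv ψ s w ≤ lam * ms P Zx A Cv N s w + L * mu0 * Ds P Zx A s w + L * Vs P Zx A V s w)
    (hh : hvy P Zx A Cv N ψ lam g s w) : kap * Ds P Zx A s w < Vs P Zx A V s w := by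
  have d0 := Ds_nonneg (P := P) (Zx := Zx) (A := A) s w
  have h1 := mul_le_mul_of_nonneg_left hh.2 l0
  have h2 := mul_le_mul_of_nonneg_right hg d0
  have h3 := hh.1
  have h4 : L * (kap * Ds P Zx A s w) < L * Vs P Zx A V s w := by nlinarith
  exact lt_of_mul_lt_mul_left h4 L0.le

/-- **THE CLASS MASS**: the exceptional levels -/
theorem cls_gen (hZ : Fac Zx Z) (k0 : 0 < kap) (u0 : 0 < mu) (hA1 : ∀ w i j, A i w → A j w → i = j)
    (hAx : ∀ i w, P.p w ≠ 0 → P.ce Zx (fun x => ind (A i x)) w = P.ce Z (fun x => ind (A i x)) w) {T : ℕ}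
    {E : ℕ → Om → Prop} (hE : ∀ s < T, ∀ w, P.p w ≠ 0 → E s w → kap * Ds P Zx A s w ≤ Vs P Zx A V s w) :
    ∑ s ∈ range T, P.Pr (fun w => A s w ∧ mu < P.ce Z (fun x => ind (E s x)) w) ≤
      P.Pr (fun w => ∃ i < T, A i w ∧ V i w) / (kap * mu) := by
  classical
  set v : Om → ℝ := P.ce Z (fun x => ind (∃ i < T, A i x ∧ V i x)) with hv
  have v0 : ∀ w, 0 ≤ v w := fun w => P.ce_nonneg (fun _ _ => ind_nonneg _) w
  have km : 0 < kap * mu := mul_pos k0 u0
  -- one exceptional level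
  have key : ∀ s < T, ∀ w, P.p w ≠ 0 → mu < P.ce Z (fun x => ind (E s x)) w →
      ∑ i ∈ range (s + 1), P.ce Z (fun x => ind (A i x)) w ≤ v w / (kap * mu) := by
    intro s hs w hw hX
    set D : ℝ := ∑ i ∈ range (s + 1), P.ce Z (fun x => ind (A i x)) w with hD
    have D0 : 0 ≤ D := Finset.sum_nonneg fun _ _ => P.ce_nonneg (fun _ _ => ind_nonneg _) w
    have h1 : kap * D * P.ce Z (fun x => ind (E s x)) w ≤ v w := by
      have h2 : P.ce Z (fun x => kap * (∑ i ∈ range (s + 1), P.ce Z (fun y => ind (A i y)) x) * ind (E s x)) w =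
          kap * D * P.ce Z (fun x => ind (E s x)) w := by
        have hf : Fac Z (fun x => kap * (∑ i ∈ range (s + 1), P.ce Z (fun y => ind (A i y)) x)) := fun x y e => by
          show kap * _ = kap * _
          congr 1
          exact Finset.sum_congr rfl fun i _ => P.ce_fac Z (fun y => ind (A i y)) x y e
        exact P.ce_mul hf (fun x => ind (E s x)) w
      rw [← h2]
      have h3 : P.ce Z (fun x => kap * (∑ i ∈ range (s + 1), P.ce Z (fun y => ind (A i y)) x) * ind (E s x)) w ≤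
          P.ce Z (fun x => Vs P Zx A V s x) w := by
        refine P.ce_mono (fun x hx => ?_) w
        by_cases hEx : E s x
        · rw [ind_of hEx, mul_one]
          have h4 : ∑ i ∈ range (s + 1), P.ce Z (fun y => ind (A i y)) x = Ds P Zx A s x :=
            Finset.sum_congr rfl fun i _ => (hAx i x hx).symm
          rw [h4]
          exact hE s hs x hx hEx
        · rw [ind_not hEx, mul_zero]
          exact Vs_nonneg s x
      refine h3.trans ?_
      unfold Vs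
      rw [P.ce_sum]
      have h5 : ∀ i, P.ce Z (P.ce Zx (fun x => ind (A i x ∧ V i x))) w = P.ce Z (fun x => ind (A i x ∧ V i x)) w :=
        fun i => P.ce_tower hZ _ w
      have h6 : ∑ i ∈ range (s + 1), P.ce Z (fun z => P.ce Zx (fun x => ind (A i x ∧ V i x)) z) w =
          P.ce Z (fun z => ∑ i ∈ range (s + 1), ind (A i z ∧ V i z)) w := by
        rw [P.ce_sum]
        exact Finset.sum_congr rfl fun i _ => h5 i
      rw [h6]
      refine P.ce_mono (fun x _ => ?_) w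
      rw [sum_ind (fun i j a b => hA1 x i j a.1 b.1) (s + 1)]
      exact ind_mono fun ⟨i, hi, h⟩ => ⟨i, by omega, h⟩
    rw [le_div_iff₀ km]
    have h2 : kap * D * mu ≤ kap * D * P.ce Z (fun x => ind (E s x)) w :=
      mul_le_mul_of_nonneg_left hX.le (mul_nonneg k0.le D0)
    linarith
  -- sum of the levels
  have e1 : ∀ s, P.Pr (fun w => A s w ∧ mu < P.ce Z (fun x => ind (E s x)) w) =
      P.E (fun w => P.ce Z (fun x => ind (A s x)) w * ind (mu < P.ce Z (fun x => ind (E s x)) w)) := by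
    intro s
    have hf : Fac Z (fun w => ind (mu < P.ce Z (fun x => ind (E s x)) w)) := Fac.ind fun x w e => by
      rw [P.ce_fac Z (fun x => ind (E s x)) x w e]
    unfold FP.Pr
    have e2 := P.E_mul_ce hf (fun x => ind (A s x))
    rw [show (fun w => P.ce Z (fun x => ind (A s x)) w * ind (mu < P.ce Z (fun x => ind (E s x)) w)) =
      fun w => ind (mu < P.ce Z (fun x => ind (E s x)) w) * P.ce Z (fun x => ind (A s x)) w from
        funext fun w => mul_comm _ _, e2]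
    exact P.E_congr fun w _ => by rw [ind_and, mul_comm]
  rw [Finset.sum_congr rfl fun s _ => e1 s, ← FP.E_sum]
  have e3 : P.Pr (fun w => ∃ i < T, A i w ∧ V i w) / (kap * mu) = P.E (fun w => v w / (kap * mu)) := by
    rw [P.E_div_const]
    congr 1
    exact (P.E_ce Z _).symm
  rw [e3]
  refine P.E_mono fun w hw => ?_
  have h7 := last_exc (a := fun s => P.ce Z (fun x => ind (A s x)) w)
    (fun _ => P.ce_nonneg (fun _ _ => ind_nonneg _) w) (X := fun s => s < T ∧ mu < P.ce Z (fun x => ind (E s x)) w)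
    (c := v w / (kap * mu)) (div_nonneg (v0 w) km.le) (fun s hs => key s hs.1 w hw hs.2) T
  refine le_trans (le_of_eq (Finset.sum_congr rfl fun s hs => ?_)) h7
  have h8 : (mu < P.ce Z (fun x => ind (E s x)) w) = (s < T ∧ mu < P.ce Z (fun x => ind (E s x)) w) :=
    propext ⟨fun h => ⟨mem_range.1 hs, h⟩, fun h => h.2⟩
  rw [← h8]

/-- **THE CLASS MASS**, signed rows -/
theorem cls_le (hZ : Fac Zx Z) (hYZ : ∀ i, Fac (Y i) Zx) (hA : ∀ i x w, Y i x = Y i w → (A i x ↔ A i w))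
    (hV : ∀ i x w, Y i x = Y i w → (V i x ↔ V i w)) (l0 : 0 ≤ lam) (m0 : 0 ≤ mu0) (L0 : 0 < L) (k0 : 0 < kap)
    (u0 : 0 < mu) (hg : L * (mu0 + kap) ≤ lam * g / 2) (hL : ∀ w, P.p w ≠ 0 → ψ w ≤ L)
    (hN : ∀ w, P.p w ≠ 0 → ¬ N w → ψ w = 0)
    (hA1 : ∀ w i j, A i w → A j w → i = j)
    (hAx : ∀ i w, P.p w ≠ 0 → P.ce Zx (fun x => ind (A i x)) w = P.ce Z (fun x => ind (A i x)) w) {T : ℕ}
    (hn : ∀ i < T, ∀ w, P.p w ≠ 0 → A i w → ¬ V i w → P.ce (Y i) (fun x => ind (N x ∧ ¬ Cv i x) * ψ x) w ≤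
      lam * P.ce (Y i) (fun x => ind (N x ∧ ¬ Cv i x)) w + L * mu0)
    {E : ℕ → Om → Prop} (hE : ∀ s < T, ∀ w, P.p w ≠ 0 → E s w → hvy P Zx A Cv N ψ lam g s w) :
    ∑ s ∈ range T, P.Pr (fun w => A s w ∧ mu < P.ce Z (fun x => ind (E s x)) w) ≤
      P.Pr (fun w => ∃ i < T, A i w ∧ V i w) / (kap * mu) :=
  cls_gen hZ k0 u0 hA1 hAx fun s hs w hw h => (hvy_vio l0 L0 hg
    (sum_le hYZ hA hV l0 m0 L0.le hL hN (fun i hi => hn i (by omega)) w) (hE s hs w hw h)).le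

/-- **THE CLASS MASS**, unsigned rows (`ψ` = indicator of the bad tuples, absolute threshold) -/
theorem cls_uns (hZ : Fac Zx Z) (hYZ : ∀ i, Fac (Y i) Zx) (hA : ∀ i x w, Y i x = Y i w → (A i x ↔ A i w))
    (hV : ∀ i x w, Y i x = Y i w → (V i x ↔ V i w)) (m0 : 0 ≤ mu0) (L0 : 0 < L) (k0 : 0 < kap) (u0 : 0 < mu)
    (hL : ∀ w, P.p w ≠ 0 → ψ w ≤ L) (hN : ∀ w, P.p w ≠ 0 → ¬ N w → ψ w = 0)
    (hA1 : ∀ w i j, A i w → A j w → i = j)
    (hAx : ∀ i w, P.p w ≠ 0 → P.ce Zx (fun x => ind (A i x)) w = P.ce Z (fun x => ind (A i x)) w) {T : ℕ}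
    (hn : ∀ i < T, ∀ w, P.p w ≠ 0 → A i w → ¬ V i w →
      P.ce (Y i) (fun x => ind (N x ∧ ¬ Cv i x) * ψ x) w ≤ L * mu0)
    {E : ℕ → Om → Prop} (hE : ∀ s < T, ∀ w, P.p w ≠ 0 → E s w →
      L * (mu0 + kap) * Ds P Zx A s w ≤ Ss P Zx A Cv ψ s w) :
    ∑ s ∈ range T, P.Pr (fun w => A s w ∧ mu < P.ce Z (fun x => ind (E s x)) w) ≤
      P.Pr (fun w => ∃ i < T, A i w ∧ V i w) / (kap * mu) := by
  refine cls_gen hZ k0 u0 hA1 hAx fun s hs w hw h => ?_
  have h1 := sum_le (lam := 0) (mu0 := mu0) hYZ hA hV le_rfl m0 L0.le hL hN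
    (fun i hi v hv a b => by
      rw [zero_mul, zero_add]
      exact hn i (by omega) v hv a b) w (s := s) (Cv := Cv)
  have h2 := hE s hs w hw h
  have h3 : L * (kap * Ds P Zx A s w) ≤ L * Vs P Zx A V s w := by linarith
  exact le_of_mul_le_mul_left h3 L0

end

end Pool.Agent.GMH.GhoM
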