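import Pool.Agent.GMH.GhoA
import Pool.Agent.GMH.GhoC
import Pool.Agent.GMH.GhoM
import Pool.Agent.GMH.RowP

/-!
# GMH/GhoF (helper40): THE FAMILY OF THE PIECES OF A THIN COVER AT FIXED `a` (H3.T, T.6 - T.8)

* `opt_sub` : a submartingale from `s` on, stopped;
* `covV_le` : `P (cover at σ) ≤ 2 E PhV (σ)`, `PhV` = sum over the pieces AND their labels of `(current mass - v)^+`,
  if at every taking `v * (number of labels) ≤ u / 4` (labels: `Unit` for the rows, the living piece of the other cover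
  for the columns, names of the start of the life of the sample);
* `Row1` : what is needed of one row (level 1): mass of the set of the worlds, values, own row, class mass;
* `piece`, `piece_unique`, `Bg` (large pieces of a sample with a name: at most `1/v`), `el`, `JJ`, `PcL`, `SSL` :
  index `l` = (sample, number of the large piece, name), no time in the index;
* `famA` : the fields of `GhoC.Fam` at a node from `Row1` of the sets `G s` (law of the keys `R l` by index);
* `pot_le` : `PhV ≤ E over the coin tables of the sum over the family of (mass - v)`.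
-/

set_option autoImplicit false
set_option linter.unusedSectionVars false

namespace Pool.Agent.GMH.GhoF

open Finset Pool.Agent.PWZ Pool.Agent.M3 Pool.Agent.GMH.Gdy Pool.Agent.GMH.CR
open Pool.Agent.GMH.GhoA

noncomputable section

/-! ## optional stopping -/

section opt

variable {Om : Type*} [Fintype Om] {P : FP Om} {κ : ℕ → Type*} {X : ∀ t, Om → κ t}

theorem stp_ge {σ : Om → ℕ} (hX : Filt X) (hσ : Stp X σ) (s : ℕ) : Fac (X s) (fun w => ind (s ≤ σ w)) := by
  refine Fac.ind fun v w h => ?_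
  rcases Nat.eq_zero_or_pos s with rfl | hs
  · exact ⟨fun _ => Nat.zero_le _, fun _ => Nat.zero_le _⟩
  · obtain ⟨n, rfl⟩ : ∃ n, s = n + 1 := ⟨s - 1, by omega⟩
    have := hσ n v w (hX n v w h)
    omega

/-- **a submartingale from `s` on, stopped** -/
theorem opt_sub {σ : Om → ℕ} (hσ : Stp X σ) {f : ℕ → Om → ℝ} {s : ℕ}
    (hf : ∀ t, s ≤ t → ∀ w, P.p w ≠ 0 → f t w ≤ P.ce (X t) (f (t + 1)) w) :
    P.E (fun w => ind (s ≤ σ w) * f s w) ≤ P.E (fun w => ind (s ≤ σ w) * f (σ w) w) := by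
  have key : ∀ n, P.E (fun w => ind (s ≤ σ w) * f s w) ≤
      P.E (fun w => ind (s ≤ σ w) * f (min (σ w) (s + n)) w) := by
    intro n
    induction n with
    | zero =>
      refine P.E_mono fun w _ => ?_
      by_cases h : s ≤ σ w
      · rw [ind_of h, Nat.add_zero, min_eq_right h]
      · rw [ind_not h, zero_mul, zero_mul]
    | succ n ih =>
      refine ih.trans ?_
      set h : Om → ℝ := fun w => ind (s + n < σ w) with hh
      have hf' : Fac (X (s + n)) h := by
        refine Fac.ind fun v w hvw => ?_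
        have := hσ (s + n) v w hvw
        omega
      have e1 : P.E (fun w => ind (s ≤ σ w) * f (min (σ w) (s + (n + 1))) w) =
          P.E (fun w => ind (s ≤ σ w) * f (min (σ w) (s + n)) w) +
            (P.E (fun w => h w * f (s + n + 1) w) - P.E (fun w => h w * f (s + n) w)) := by
        rw [← FP.E_sub, ← FP.E_add]
        refine P.E_congr fun w _ => ?_
        by_cases hw : s + n < σ w
        · rw [hh]
          simp only
          rw [ind_of hw, ind_of (by omega : s ≤ σ w), min_eq_right (by omega : s + (n + 1) ≤ σ w),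
            min_eq_right hw.le]
          show 1 * f (s + n + 1) w = _
          ring
        · rw [hh]
          simp only
          rw [ind_not hw, min_eq_left (by omega : σ w ≤ s + (n + 1)), min_eq_left (by omega : σ w ≤ s + n)]
          ring
      have h2 : P.E (fun w => h w * f (s + n) w) ≤ P.E (fun w => h w * f (s + n + 1) w) := by
        rw [← P.E_mul_ce hf' (f (s + n + 1))]
        exact P.E_mono fun w hw => mul_le_mul_of_nonneg_left (hf (s + n) (by omega) w hw) (ind_nonneg _)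
      linarith
  obtain ⟨n, hn⟩ : ∃ n, ∀ w, σ w ≤ n := ⟨univ.sup σ, fun w => Finset.le_sup (mem_univ w)⟩
  refine (key n).trans (le_of_eq (P.E_congr fun w _ => ?_))
  rw [min_eq_left (by have := hn w; omega)]

/-- the positive part of a martingale -/
theorem cp_jensen (hX : Filt X) (A : Om → Prop) (v : ℝ) (t : ℕ) {w : Om} (hw : P.p w ≠ 0) :
    max (cp P X t A w - v) 0 ≤ P.ce (X t) (fun z => max (cp P X (t + 1) A z - v) 0) w := by
  refine max_le ?_ (P.ce_nonneg (fun _ _ => le_max_right _ _) w)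
  have h2 : cp P X t A w = P.ce (X t) (cp P X (t + 1) A) w := by
    unfold cp
    rw [P.ce_tower (hX t)]
  have h3 : P.ce (X t) (fun z => cp P X (t + 1) A z - v) w = P.ce (X t) (cp P X (t + 1) A) w - v := by
    rw [P.ce_sub, P.ce_const _ _ hw]
  rw [h2, ← h3]
  exact P.ce_mono (fun _ _ => le_max_left _ _) w

end opt

/-! ## the potential of a cover with labels -/

section pot

variable {Om : Type*} [Fintype Om] (P : FP Om) {κ : ℕ → Type*} (X : ∀ t, Om → κ t) (u : ℝ) (H : ℕ → ℕ → Om → Prop)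
  (M : ℕ) {Λ : Type*} [Fintype Λ] (Lb : ℕ → ℕ → Λ → Om → Prop) (v : ℝ)

/-- the piece `(s, r)` with the label `p` -/
def pl (s r : ℕ) (p : Λ) (w : Om) : Prop := nwT P X u H M s r w ∧ Lb s r p w

/-- the potential -/
def PhV (t : ℕ) (w : Om) : ℝ :=
  ∑ s ∈ range (t + 1), ∑ r ∈ range M, ∑ p, max (cp P X t (pl P X u H M Lb s r p) w - v) 0

variable {P X u H M Lb v}

theorem PhV_nonneg (t : ℕ) (w : Om) : 0 ≤ PhV P X u H M Lb v t w :=
  Finset.sum_nonneg fun _ _ => Finset.sum_nonneg fun _ _ => Finset.sum_nonneg fun _ _ => le_max_right _ _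

theorem ind_covT_sum (n : ℕ) (w : Om) :
    ind (covT P X u H M n w) = ∑ s ∈ range n, ∑ r ∈ range M, ind (nwT P X u H M s r w) := by
  induction n with
  | zero =>
    rw [Finset.sum_range_zero]
    exact ind_not fun h => h
  | succ n ih => rw [Finset.sum_range_succ, ← ih, ind_covT_succ]

theorem sum_pl (l1 : ∀ s r w, nwT P X u H M s r w → ∃ p, Lb s r p w ∧ ∀ p', Lb s r p' w → p' = p) (s r : ℕ) (w : Om) :
    ∑ p, ind (pl P X u H M Lb s r p w) = ind (nwT P X u H M s r w) := by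
  classical
  by_cases h : nwT P X u H M s r w
  · obtain ⟨p, hp, hu⟩ := l1 s r w h
    rw [ind_of h, Finset.sum_eq_single p]
    · exact ind_of ⟨h, hp⟩
    · intro p' _ hne
      exact ind_not fun h' => hne (hu p' h'.2)
    · intro hh
      exact absurd (mem_univ _) hh
  · rw [ind_not h]
    exact Finset.sum_eq_zero fun p _ => ind_not fun h' => h h'.1

theorem start_le (l1 : ∀ s r w, nwT P X u H M s r w → ∃ p, Lb s r p w ∧ ∀ p', Lb s r p' w → p' = p)
    (hc : ∀ s r w, v * ((univ.filter fun p => 0 < cp P X s (pl P X u H M Lb s r p) w).card : ℝ) ≤ u / 4)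
    (s r : ℕ) (w : Om) :
    cp P X s (nwT P X u H M s r) w ≤ 2 * ∑ p, max (cp P X s (pl P X u H M Lb s r p) w - v) 0 := by
  classical
  have h0 : 0 ≤ ∑ p, max (cp P X s (pl P X u H M Lb s r p) w - v) 0 :=
    Finset.sum_nonneg fun _ _ => le_max_right _ _
  by_cases ht : tkT P X u H M s r w
  · have h1 := cp_nwT_ge ht
    have e1 : cp P X s (nwT P X u H M s r) w = ∑ p, cp P X s (pl P X u H M Lb s r p) w := by
      unfold cp
      rw [← P.ce_sum]
      exact P.ce_congr (fun x _ => (sum_pl l1 s r x).symm) w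
    have e2 : ∑ p, cp P X s (pl P X u H M Lb s r p) w =
        ∑ p ∈ univ.filter (fun p => 0 < cp P X s (pl P X u H M Lb s r p) w), cp P X s (pl P X u H M Lb s r p) w := by
      rw [Finset.sum_filter_of_ne]
      intro p _ hne
      exact lt_of_le_of_ne (cp_nonneg _ _ _) (Ne.symm hne)
    have h2 : ∑ p ∈ univ.filter (fun p => 0 < cp P X s (pl P X u H M Lb s r p) w),
        (cp P X s (pl P X u H M Lb s r p) w - v) ≤ ∑ p, max (cp P X s (pl P X u H M Lb s r p) w - v) 0 :=
      (Finset.sum_le_sum fun p _ => le_max_left _ _).trans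
        (Finset.sum_le_sum_of_subset_of_nonneg (filter_subset _ _) fun _ _ _ => le_max_right _ _)
    rw [Finset.sum_sub_distrib, Finset.sum_const, nsmul_eq_mul, ← e2, ← e1] at h2
    have h3 := hc s r w
    linarith
  · have h2 : cp P X s (nwT P X u H M s r) w = 0 := by rw [cp_nwT, ind_not ht, zero_mul]
    rw [h2]
    linarith

/-- **THE COVER IS PAID BY THE POTENTIAL** (labels) -/
theorem covV_le (hX : Filt X)
    (l1 : ∀ s r w, nwT P X u H M s r w → ∃ p, Lb s r p w ∧ ∀ p', Lb s r p' w → p' = p)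
    (hc : ∀ s r w, v * ((univ.filter fun p => 0 < cp P X s (pl P X u H M Lb s r p) w).card : ℝ) ≤ u / 4)
    {σ : Om → ℕ} (hσ : Stp X σ) :
    P.Pr (fun w => covT P X u H M (σ w + 1) w) ≤ 2 * P.E (fun w => PhV P X u H M Lb v (σ w) w) := by
  classical
  obtain ⟨N, hN⟩ : ∃ N, ∀ w, σ w < N := ⟨univ.sup σ + 1, fun w => Nat.lt_succ_of_le (Finset.le_sup (mem_univ w))⟩
  have sum_ind : ∀ (f : ℕ → ℝ) (w : Om), ∑ s ∈ range (σ w + 1), f s = ∑ s ∈ range N, ind (s ≤ σ w) * f s := by
    intro f w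
    have h1 : range (σ w + 1) = (range N).filter (fun s => s ≤ σ w) := by
      ext s
      have := hN w
      simp only [mem_range, mem_filter]
      omega
    rw [h1, Finset.sum_filter]
    refine Finset.sum_congr rfl fun s _ => ?_
    by_cases h : s ≤ σ w
    · rw [if_pos h, ind_of h, one_mul]
    · rw [if_neg h, ind_not h, zero_mul]
  have e1 : P.Pr (fun w => covT P X u H M (σ w + 1) w) =
      ∑ s ∈ range N, ∑ r ∈ range M, P.E (fun w => ind (s ≤ σ w) * ind (nwT P X u H M s r w)) := by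
    unfold FP.Pr
    rw [show (fun w => ind (covT P X u H M (σ w + 1) w)) = fun w => ∑ s ∈ range N, ∑ r ∈ range M,
      ind (s ≤ σ w) * ind (nwT P X u H M s r w) from funext fun w => by
        rw [ind_covT_sum, sum_ind]
        exact Finset.sum_congr rfl fun s _ => by rw [Finset.mul_sum]]
    rw [P.E_sum]
    exact Finset.sum_congr rfl fun s _ => P.E_sum _ _
  have e2 : P.E (fun w => PhV P X u H M Lb v (σ w) w) = ∑ s ∈ range N, ∑ r ∈ range M, ∑ p,
      P.E (fun w => ind (s ≤ σ w) * max (cp P X (σ w) (pl P X u H M Lb s r p) w - v) 0) := by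
    rw [show (fun w => PhV P X u H M Lb v (σ w) w) = fun w => ∑ s ∈ range N, ∑ r ∈ range M, ∑ p,
      ind (s ≤ σ w) * max (cp P X (σ w) (pl P X u H M Lb s r p) w - v) 0 from funext fun w => by
        unfold PhV
        rw [sum_ind]
        refine Finset.sum_congr rfl fun s _ => ?_
        rw [Finset.mul_sum]
        exact Finset.sum_congr rfl fun r _ => by rw [Finset.mul_sum]]
    rw [P.E_sum]
    refine Finset.sum_congr rfl fun s _ => ?_
    rw [P.E_sum]
    exact Finset.sum_congr rfl fun r _ => P.E_sum _ _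
  rw [e1, e2, Finset.mul_sum]
  refine Finset.sum_le_sum fun s _ => ?_
  rw [Finset.mul_sum]
  refine Finset.sum_le_sum fun r _ => ?_
  have h1 : P.E (fun w => ind (s ≤ σ w) * ind (nwT P X u H M s r w)) =
      P.E (fun w => ind (s ≤ σ w) * cp P X s (nwT P X u H M s r) w) :=
    (P.E_mul_ce (stp_ge hX hσ s) (fun w => ind (nwT P X u H M s r w))).symm
  have h2 : P.E (fun w => ind (s ≤ σ w) * cp P X s (nwT P X u H M s r) w) ≤
      P.E (fun w => ∑ p, 2 * (ind (s ≤ σ w) * max (cp P X s (pl P X u H M Lb s r p) w - v) 0)) := by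
    refine P.E_mono fun w _ => ?_
    have h3 := mul_le_mul_of_nonneg_left (start_le l1 hc s r w) (ind_nonneg (s ≤ σ w))
    refine h3.trans (le_of_eq ?_)
    rw [Finset.mul_sum, Finset.mul_sum]
    exact Finset.sum_congr rfl fun p _ => by ring
  rw [h1]
  refine h2.trans ?_
  rw [P.E_sum, Finset.mul_sum]
  refine Finset.sum_le_sum fun p _ => ?_
  rw [P.E_smul]
  have h4 := opt_sub (P := P) (f := fun t w => max (cp P X t (pl P X u H M Lb s r p) w - v) 0) (s := s) hσ
    fun t _ w hw => cp_jensen hX _ v t hw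
  linarith

end pot

/-! ## level 1 data of one row -/

/-- what is needed of one row: `SS` = set of the worlds, `F i ρ d` = value of the test `i` of the row `ρ` at `d` -/
structure Row1 {δ ι Rw : Type*} [Fintype δ] [Fintype Rw] (R : FP δ) (I : Finset ι) (hi lo : ι → ℝ) (mu : ℝ)
    (mr : FP Rw) (F : ι → Rw → δ → ℝ) (ow : Rw) (Va : δ → Prop) (δ1 : ℝ) (SS : δ → Prop) : Prop where
  ss : δ1 ≤ R.Pr SS
  al : ∀ d, R.p d ≠ 0 → SS d → Va d
  ho : ∀ i ∈ I, hi i ≤ (R.cond SS).E (F i ow)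
  hm : mr.Pr (fun ρ => ∀ i ∈ I, lo i < (R.cond SS).E (F i ρ)) ≤ mu

/-! ## the family of the large pieces at a node -/

section fam

variable {Om : Type*} [Fintype Om] (P : FP Om) {κ : ℕ → Type*} (cC : ∀ t, Om → κ t) {α β δ Rw Γ ι Λ Nm C' : Type*}
  [Fintype δ] [Fintype Rw] [Fintype Λ] [Fintype Nm] [Fintype C'] (B : Om → α) (C : Om → β) (G : ℕ → Om → Prop) (u : ℝ)
  {M : ℕ} (z : Fin M → α) (lab : ℕ → Om → Λ)

/-- label of the row `r` at the point of `w` -/
def Lab (s r : ℕ) (p : Λ) (w : Om) : Prop :=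
  ∃ y, P.p y ≠ 0 ∧ (∃ h : r < M, B y = z ⟨r, h⟩) ∧ C y = C w ∧ G s y ∧ lab s y = p

/-- the piece, as a set of points -/
def piece (s r : ℕ) (p : Λ) (c : β) : Prop :=
  ∃ x, P.p x ≠ 0 ∧ C x = c ∧ pl P cC u (rowsT (GF P B C G) z) M (Lab P B C G z lab) s r p x

variable {P cC B C G u z lab}

theorem lab_one (hlab : ∀ s x y, P.p x ≠ 0 → P.p y ≠ 0 → B x = B y → C x = C y → lab s x = lab s y) (s r : ℕ) (w : Om)
    (h : nwT P cC u (rowsT (GF P B C G) z) M s r w) :
    ∃ p, Lab P B C G z lab s r p w ∧ ∀ p', Lab P B C G z lab s r p' w → p' = p := by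
  obtain ⟨h1, v, hv, hB, hC, hG⟩ := h.1
  refine ⟨lab s v, ⟨v, hv, ⟨h1, hB⟩, hC, hG, rfl⟩, ?_⟩
  rintro p' ⟨y, hy, ⟨_, hB'⟩, hC', _, rfl⟩
  exact hlab s y v hy hv (hB'.trans hB.symm) (hC'.trans hC.symm)

theorem nwT_facV (hC : ∀ s, Fac C (cC s)) {s r : ℕ} {x x' : Om} (e : C x = C x') :
    nwT P cC u (rowsT (GF P B C G) z) M s r x ↔ nwT P cC u (rowsT (GF P B C G) z) M s r x' := by
  unfold nwT
  rw [rowsGF_fac z s r x x' e, CvT_facV hC (fun s r v w h => rowsGF_fac z s r v w h) s r x x' e,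
    tkT_fac (hC s x x' e)]

/-- **the pieces are disjoint** -/
theorem piece_unique (hC : ∀ s, Fac C (cC s))
    (hlab : ∀ s x y, P.p x ≠ 0 → P.p y ≠ 0 → B x = B y → C x = C y → lab s x = lab s y) {s r s' r' : ℕ} {p p' : Λ}
    {c : β} (h : piece P cC B C G u z lab s r p c) (h' : piece P cC B C G u z lab s' r' p' c) :
    s = s' ∧ r = r' ∧ p = p' := by
  obtain ⟨x, hx, hxc, h1, h2⟩ := h
  obtain ⟨x', hx', hxc', h1', h2'⟩ := h'
  have e : C x' = C x := hxc'.trans hxc.symm
  have h3 := (nwT_facV hC e).1 h1'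
  obtain ⟨hr, _⟩ := h1.1
  obtain ⟨hr', _⟩ := h1'.1
  obtain ⟨rfl, rfl⟩ := nwT_unique hr hr' h1 h3
  refine ⟨rfl, rfl, ?_⟩
  obtain ⟨q, _, hq2⟩ := lab_one (cC := cC) (u := u) hlab s r x h1
  have h4 : Lab P B C G z lab s r p' x := by
    obtain ⟨y, a, b, c, d⟩ := h2'
    exact ⟨y, a, b, c.trans e, d⟩
  rw [hq2 p h2, hq2 p' h4]

variable (P cC B C G u z lab) in
/-- mass of the piece for the law `qc` of the points `e` -/
def aM (qc : FP C') (e : C' → β) (r : ℕ) (a : ℕ × Λ) : ℝ := qc.Pr (fun c' => piece P cC B C G u z lab a.1 r a.2 (e c'))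

variable (P cC B C G u z lab) in
/-- large pieces of the row `r` with the name `n` -/
def Bg (qc : FP C') (e : C' → β) (v : ℝ) (t : ℕ) (nm : Λ → Nm) (r : ℕ) (n : Nm) : Finset (ℕ × Λ) := by
  classical
  exact (range (t + 1) ×ˢ (univ : Finset Λ)).filter fun a => v < aM P cC B C G u z lab qc e r a ∧ nm a.2 = n

theorem mem_Bg {qc : FP C'} {e : C' → β} {v : ℝ} {t : ℕ} {nm : Λ → Nm} {r : ℕ} {n : Nm} {a : ℕ × Λ} :
    a ∈ Bg P cC B C G u z lab qc e v t nm r n ↔ a.1 ≤ t ∧ v < aM P cC B C G u z lab qc e r a ∧ nm a.2 = n := by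
  classical
  unfold Bg
  simp only [mem_filter, mem_product, mem_range, mem_univ, and_true]
  exact ⟨fun ⟨a, b⟩ => ⟨by omega, b⟩, fun ⟨a, b⟩ => ⟨by omega, b⟩⟩

theorem Bg_card (hC : ∀ s, Fac C (cC s))
    (hlab : ∀ s x y, P.p x ≠ 0 → P.p y ≠ 0 → B x = B y → C x = C y → lab s x = lab s y) {qc : FP C'} {e : C' → β}
    {v : ℝ} {t : ℕ} {nm : Λ → Nm} {r : ℕ} {n : Nm} :
    ((Bg P cC B C G u z lab qc e v t nm r n).card : ℝ) * v ≤ 1 := by
  classical
  have h1 : ((Bg P cC B C G u z lab qc e v t nm r n).card : ℝ) * v ≤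
      ∑ a ∈ Bg P cC B C G u z lab qc e v t nm r n, aM P cC B C G u z lab qc e r a := by
    rw [← nsmul_eq_mul, ← sum_const]
    exact sum_le_sum fun a ha => (mem_Bg.1 ha).2.1.le
  refine h1.trans ?_
  unfold aM FP.Pr
  rw [← qc.E_sum]
  refine (qc.E_le_const fun c hc => ?_)
  have h2 := GhoC.sum_ind_le (Bg P cC B C G u z lab qc e v t nm r n)
    (fun a => piece P cC B C G u z lab a.1 r a.2 (e c)) (fun a _ a' _ hne h h' => hne (by
      obtain ⟨e1, _, e2⟩ := piece_unique hC hlab h h'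
      exact Prod.ext e1 e2))
  exact h2.trans (ind_le_one _)

end fam

/-! ### the enumeration: sample, number of the piece, name -/

theorem sum_enum {A : Type*} (S : Finset A) {Jm : ℕ} (h : S.card ≤ Jm) (g : A → ℝ) :
    ∑ a ∈ S, g a = ∑ j : Fin Jm, if hj : j.val < S.card then g (S.equivFin.symm ⟨j.val, hj⟩).1 else 0 := by
  classical
  set F : ℕ → ℝ := fun k => if hk : k < S.card then g (S.equivFin.symm ⟨k, hk⟩).1 else 0 with hF
  have e1 : ∑ j : Fin Jm, (if hj : j.val < S.card then g (S.equivFin.symm ⟨j.val, hj⟩).1 else 0) =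
      ∑ k ∈ range Jm, F k := Fin.sum_univ_eq_sum_range F Jm
  have e2 : ∑ k ∈ range S.card, F k = ∑ i : Fin S.card, g (S.equivFin.symm i).1 := by
    rw [← Fin.sum_univ_eq_sum_range F S.card]
    refine Finset.sum_congr rfl fun i _ => ?_
    show (if hk : i.val < S.card then g (S.equivFin.symm ⟨i.val, hk⟩).1 else 0) = _
    rw [dif_pos i.2]
  have e3 : ∑ i : Fin S.card, g (S.equivFin.symm i).1 = ∑ a : S, g a.1 :=
    Equiv.sum_comp S.equivFin.symm fun a : S => g a.1
  have e4 : ∑ k ∈ range S.card, F k = ∑ k ∈ range Jm, F k :=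
    Finset.sum_subset (Finset.range_subset_range.2 h) fun k _ hk => by
      show (if hk : k < S.card then g (S.equivFin.symm ⟨k, hk⟩).1 else 0) = 0
      rw [dif_neg (by simpa using hk)]
  rw [e1, ← e4, e2, e3, Finset.sum_coe_sort S g]

section enum

variable {Om : Type*} [Fintype Om] (P : FP Om) {κ : ℕ → Type*} (cC : ∀ t, Om → κ t) {α β δ Rw Γ ι Λ Nm C' : Type*}
  [Fintype δ] [Fintype Rw] [Fintype Λ] [Fintype Nm] [Fintype C'] (B : Om → α) (C : Om → β) (G : ℕ → Om → Prop) (u : ℝ)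
  {M : ℕ} (z : Fin M → α) (lab : ℕ → Om → Λ) (qc : FP C') (e : C' → β) (v : ℝ) (t : ℕ) (nm : Λ → Nm) {Jm : ℕ}

/-- the piece with the index `l` = (sample, number, name) -/
def el (l : Fin M × Fin Jm × Nm) : Option (ℕ × Λ) :=
  if h : l.2.1.val < (Bg P cC B C G u z lab qc e v t nm l.1 l.2.2).card then
    Option.some ((Bg P cC B C G u z lab qc e v t nm l.1 l.2.2).equivFin.symm ⟨l.2.1.val, h⟩).1
  else Option.none

/-- the family -/
def JJ : Finset (Fin M × Fin Jm × Nm) := by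
  classical
  exact univ.filter fun l => l.2.1.val < (Bg P cC B C G u z lab qc e v t nm l.1 l.2.2).card

/-- the covered set of the index `l` -/
def PcL (l : Fin M × Fin Jm × Nm) (c : C') : Prop :=
  ∃ a, el P cC B C G u z lab qc e v t nm l = some a ∧ piece P cC B C G u z lab a.1 l.1 a.2 (e c)

variable {P cC B C G u z lab qc e v t nm}

theorem mem_JJ {l : Fin M × Fin Jm × Nm} : l ∈ JJ P cC B C G u z lab qc e v t nm ↔
    l.2.1.val < (Bg P cC B C G u z lab qc e v t nm l.1 l.2.2).card := by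
  classical
  unfold JJ
  simp only [mem_filter, mem_univ, true_and]

theorem el_mem {l : Fin M × Fin Jm × Nm} {a : ℕ × Λ} (h : el P cC B C G u z lab qc e v t nm l = some a) :
    a ∈ Bg P cC B C G u z lab qc e v t nm l.1 l.2.2 := by
  unfold el at h
  by_cases h1 : l.2.1.val < (Bg P cC B C G u z lab qc e v t nm l.1 l.2.2).card
  · rw [dif_pos h1] at h
    have h2 := Option.some.inj h
    rw [← h2]
    exact ((Bg P cC B C G u z lab qc e v t nm l.1 l.2.2).equivFin.symm ⟨l.2.1.val, h1⟩).2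
  · rw [dif_neg h1] at h
    exact absurd h (by simp)

theorem el_some {l : Fin M × Fin Jm × Nm} (h : l ∈ JJ P cC B C G u z lab qc e v t nm) :
    ∃ a, el P cC B C G u z lab qc e v t nm l = some a := by
  have h1 := mem_JJ.1 h
  unfold el
  rw [dif_pos h1]
  exact ⟨_, rfl⟩

theorem el_inj {l l' : Fin M × Fin Jm × Nm} {a : ℕ × Λ} (h : el P cC B C G u z lab qc e v t nm l = some a)
    (h' : el P cC B C G u z lab qc e v t nm l' = some a) (h1 : l.1 = l'.1) : l = l' := by
  have m := (mem_Bg.1 (el_mem h)).2.2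
  have m' := (mem_Bg.1 (el_mem h')).2.2
  obtain ⟨r, j, n⟩ := l
  obtain ⟨r', j', n'⟩ := l'
  obtain rfl : r = r' := h1
  obtain rfl : n = n' := m.symm.trans m'
  unfold el at h h'
  by_cases h2 : j.val < (Bg P cC B C G u z lab qc e v t nm r n).card
  · by_cases h3 : j'.val < (Bg P cC B C G u z lab qc e v t nm r n).card
    · rw [dif_pos h2] at h
      rw [dif_pos h3] at h'
      have h4 := (Option.some.inj h).trans (Option.some.inj h').symm
      have h5 := (Bg P cC B C G u z lab qc e v t nm r n).equivFin.symm.injective (Subtype.ext h4)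
      have h6 : j.val = j'.val := Fin.mk.inj_iff.1 h5
      rw [Fin.ext h6]
    · rw [dif_neg h3] at h'
      exact absurd h' (by simp)
  · rw [dif_neg h2] at h
    exact absurd h (by simp)

/-- **the sum over the family** -/
theorem sum_JJ (hJ : ∀ r n, (Bg P cC B C G u z lab qc e v t nm r n).card ≤ Jm) :
    ∑ s ∈ range (t + 1), ∑ r ∈ range M, ∑ p, max (qc.Pr (fun c => piece P cC B C G u z lab s r p (e c)) - v) 0 =
      ∑ l ∈ JJ (Jm := Jm) P cC B C G u z lab qc e v t nm,
        (qc.Pr (PcL P cC B C G u z lab qc e v t nm l) - v) := by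
  classical
  have e0 : ∀ l : Fin M × Fin Jm × Nm, (if l ∈ JJ P cC B C G u z lab qc e v t nm then
      (qc.Pr (PcL P cC B C G u z lab qc e v t nm l) - v) else 0) =
      if h : l.2.1.val < (Bg P cC B C G u z lab qc e v t nm l.1 l.2.2).card then
        aM P cC B C G u z lab qc e l.1
          ((Bg P cC B C G u z lab qc e v t nm l.1 l.2.2).equivFin.symm ⟨l.2.1.val, h⟩).1 - v else 0 := by
    intro l
    by_cases h : l.2.1.val < (Bg P cC B C G u z lab qc e v t nm l.1 l.2.2).card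
    · rw [if_pos (mem_JJ.2 h), dif_pos h]
      congr 1
      have e1 : el P cC B C G u z lab qc e v t nm l =
          some ((Bg P cC B C G u z lab qc e v t nm l.1 l.2.2).equivFin.symm ⟨l.2.1.val, h⟩).1 := by
        unfold el
        rw [dif_pos h]
      show qc.Pr _ = qc.Pr _
      congr 1
      funext c
      exact propext ⟨fun ⟨a, ha, hp⟩ => by
        have := Option.some.inj (e1.symm.trans ha)
        rw [this]
        exact hp, fun hp => ⟨_, e1, hp⟩⟩
    · rw [if_neg (fun hh => h (mem_JJ.1 hh)), dif_neg h]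
  have e1 : ∑ l ∈ JJ (Jm := Jm) P cC B C G u z lab qc e v t nm,
      (qc.Pr (PcL P cC B C G u z lab qc e v t nm l) - v) = ∑ l : Fin M × Fin Jm × Nm,
      (if l ∈ JJ P cC B C G u z lab qc e v t nm then (qc.Pr (PcL P cC B C G u z lab qc e v t nm l) - v) else 0) := by
    rw [Finset.sum_ite_mem, Finset.univ_inter]
  rw [e1, Finset.sum_congr rfl fun l _ => e0 l, Fintype.sum_prod_type]
  have e2 : ∑ s ∈ range (t + 1), ∑ r ∈ range M, ∑ p,
      max (qc.Pr (fun c => piece P cC B C G u z lab s r p (e c)) - v) 0 =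
      ∑ r : Fin M, ∑ a ∈ range (t + 1) ×ˢ (univ : Finset Λ), max (aM P cC B C G u z lab qc e r a - v) 0 := by
    rw [Finset.sum_comm]
    rw [← Fin.sum_univ_eq_sum_range (fun r => ∑ s ∈ range (t + 1), ∑ p,
      max (qc.Pr (fun c => piece P cC B C G u z lab s r p (e c)) - v) 0) M]
    refine Finset.sum_congr rfl fun r _ => ?_
    rw [Finset.sum_product]
    rfl
  rw [e2]
  refine Finset.sum_congr rfl fun r _ => ?_
  rw [Fintype.sum_prod_type, Finset.sum_comm]
  have e3 : ∑ a ∈ range (t + 1) ×ˢ (univ : Finset Λ), max (aM P cC B C G u z lab qc e r a - v) 0 =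
      ∑ n : Nm, ∑ a ∈ Bg P cC B C G u z lab qc e v t nm r n, (aM P cC B C G u z lab qc e r a - v) := by
    have e4 : ∀ n : Nm, ∑ a ∈ Bg P cC B C G u z lab qc e v t nm r n, (aM P cC B C G u z lab qc e r a - v) =
        ∑ a ∈ (range (t + 1) ×ˢ (univ : Finset Λ)).filter (fun a => nm a.2 = n),
          max (aM P cC B C G u z lab qc e r a - v) 0 := by
      intro n
      have hsub : Bg P cC B C G u z lab qc e v t nm r n ⊆
          (range (t + 1) ×ˢ (univ : Finset Λ)).filter (fun a => nm a.2 = n) := fun a ha => by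
        have h1 := mem_Bg.1 ha
        simp only [mem_filter, mem_product, mem_range, mem_univ, and_true]
        exact ⟨by omega, h1.2.2⟩
      rw [← Finset.sum_subset hsub]
      · refine Finset.sum_congr rfl fun a ha => ?_
        rw [max_eq_left (by have := (mem_Bg.1 ha).2.1; linarith)]
      · intro a ha hna
        simp only [mem_filter, mem_product, mem_range, mem_univ, and_true] at ha
        refine max_eq_right ?_
        by_contra hc
        exact hna (mem_Bg.2 ⟨by omega, by linarith, ha.2⟩)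
    rw [Finset.sum_congr rfl fun n _ => e4 n]
    exact (Finset.sum_fiberwise (range (t + 1) ×ˢ (univ : Finset Λ)) (fun a => nm a.2)
      fun a => max (aM P cC B C G u z lab qc e r a - v) 0).symm
  rw [e3]
  refine Finset.sum_congr rfl fun n _ => ?_
  exact sum_enum _ (hJ r n) fun a => aM P cC B C G u z lab qc e r a - v

end enum

/-! ## the family with its data -/

/-- a family of disjoint pieces with its data (`GhoC.Fam` at one point, keys with the law `R l`) -/
structure FamA {Lx C' δ ι Rw : Type*} [Fintype C'] [Fintype δ] [Fintype Rw] (qc : FP C') (I : Finset ι)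
    (hi lo : ι → ℝ) (mu : ℝ) (m : Lx → C' → FP Rw) (F : ι → Lx → C' → Rw → δ → ℝ) (own : Lx → C' → Rw)
    (R : Lx → FP δ) (SS : Lx → δ → Prop) (Va : Lx → δ → Prop) (Pc : Lx → C' → Prop) (δ1 v : ℝ) (J : Finset Lx) :
    Prop where
  ss : ∀ l ∈ J, δ1 ≤ (R l).Pr (SS l)
  al : ∀ l ∈ J, ∀ d, (R l).p d ≠ 0 → SS l d → Va l d
  ho : ∀ l ∈ J, ∀ c, qc.p c ≠ 0 → Pc l c → ∀ i ∈ I, hi i ≤ ((R l).cond (SS l)).E (F i l c (own l c))
  hm : ∀ l ∈ J, ∀ c, qc.p c ≠ 0 → Pc l c →
    (m l c).Pr (fun ρ => ∀ i ∈ I, lo i < ((R l).cond (SS l)).E (F i l c ρ)) ≤ mu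
  dj : ∀ l ∈ J, ∀ l' ∈ J, l ≠ l' → ∀ c, qc.p c ≠ 0 → Pc l c → ¬ Pc l' c
  dens : J.card * v ≤ ∑ l ∈ J, qc.Pr (Pc l)

section famA

variable {Om : Type*} [Fintype Om] (P : FP Om) {κ : ℕ → Type*} (cC : ∀ t, Om → κ t) {α β δ Rw ι Λ Nm C' : Type*}
  [Fintype δ] [Fintype Rw] [Fintype Λ] [Fintype Nm] [Fintype C'] (B : Om → α) (C : Om → β) (G : ℕ → Om → Prop) (u : ℝ)
  {M : ℕ} (z : Fin M → α) (lab : ℕ → Om → Λ) (qc : FP C') (e : C' → β) (v : ℝ) (t : ℕ) (nm : Λ → Nm) {Jm : ℕ}
  (SSf : ℕ → Om → δ → Prop)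

/-- the set of the worlds of the index `l` at the node of `w` -/
def SSL (w : Om) (l : Fin M × Fin Jm × Nm) (d : δ) : Prop :=
  ∃ a y, el P cC B C G u z lab qc e v t nm l = Option.some a ∧ P.p y ≠ 0 ∧ B y = z l.1 ∧ cC a.1 y = cC a.1 w ∧
    G a.1 y ∧ lab a.1 y = a.2 ∧ SSf a.1 y d

variable {P cC B C G u z lab qc e v t nm SSf}

/-- **THE FAMILY OF THE LARGE PIECES AT A NODE** : `l` = (sample, number of the large piece, name) -/
theorem famA (hC : ∀ s, Fac C (cC s)) (fC : Filt cC)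
    (hlab : ∀ s x y, P.p x ≠ 0 → P.p y ≠ 0 → B x = B y → C x = C y → lab s x = lab s y)
    (hloc : ∀ s x y, P.p x ≠ 0 → P.p y ≠ 0 → B x = B y → cC s x = cC s y → lab s x = lab s y → G s x → G s y →
      ∀ d, SSf s x d ↔ SSf s y d)
    {R : α → Nm → FP δ} {I : Finset ι} {hi lo : ι → ℝ} {mu δ1 : ℝ} {mr : α → β → FP Rw}
    {F : ι → α → β → Rw → δ → ℝ} {own : α → β → Rw} {Va : α → Nm → δ → Prop}
    (hrow : ∀ s y, P.p y ≠ 0 → G s y → Row1 (R (B y) (nm (lab s y))) I hi lo mu (mr (B y) (C y))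
      (fun i ρ d => F i (B y) (C y) ρ d) (own (B y) (C y)) (Va (B y) (nm (lab s y))) δ1 (SSf s y))
    (w : Om) (hsup : ∀ c, qc.p c ≠ 0 → ∃ x, P.p x ≠ 0 ∧ cC t x = cC t w ∧ C x = e c) (v0 : 0 < v) :
    FamA qc I hi lo mu (fun l c => mr (z l.1) (e c)) (fun i l c => F i (z l.1) (e c)) (fun l c => own (z l.1) (e c))
      (fun l => R (z l.1) l.2.2) (SSL P cC B C G u z lab qc e v t nm SSf w) (fun l => Va (z l.1) l.2.2)
      (PcL P cC B C G u z lab qc e v t nm) δ1 v (JJ (Jm := Jm) P cC B C G u z lab qc e v t nm) := by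
  classical
  -- the data of a point of the piece
  have data : ∀ (l : Fin M × Fin Jm × Nm) (a : ℕ × Λ), el P cC B C G u z lab qc e v t nm l = Option.some a →
      ∀ c, qc.p c ≠ 0 → piece P cC B C G u z lab a.1 l.1 a.2 (e c) → ∃ y, P.p y ≠ 0 ∧ B y = z l.1 ∧ C y = e c ∧
        cC a.1 y = cC a.1 w ∧ G a.1 y ∧ lab a.1 y = a.2 ∧ nm (lab a.1 y) = l.2.2 ∧
        SSL P cC B C G u z lab qc e v t nm SSf w l = SSf a.1 y := by
    intro l a hl c hc hp
    have hB := mem_Bg.1 (el_mem hl)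
    obtain ⟨x, hx, hxc, _, y, hy, ⟨hr, hBy⟩, hCy, hGy, hly⟩ := hp
    obtain ⟨x', hx', hct, hxe⟩ := hsup c hc
    have e1 : C y = C x' := by rw [hCy, hxc, hxe]
    have e2 : cC a.1 y = cC a.1 w := (fC.le hB.1) y w (by rw [hC t y x' e1, hct])
    have hBy' : B y = z l.1 := hBy
    refine ⟨y, hy, hBy', hCy.trans hxc, e2, hGy, hly, by rw [hly]; exact hB.2.2, ?_⟩
    funext d
    refine propext ⟨?_, fun h => ⟨a, y, hl, hy, hBy', e2, hGy, hly, h⟩⟩
    rintro ⟨a', y', hl', hy', hB', hc', hG', hla', hS'⟩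
    obtain rfl := Option.some.inj (hl.symm.trans hl')
    exact (hloc a.1 y' y hy' hy (hB'.trans hBy'.symm) (hc'.trans e2.symm) (hla'.trans hly.symm) hG' hGy d).1 hS'
  -- a point of a piece of the family
  have point : ∀ l ∈ JJ (Jm := Jm) P cC B C G u z lab qc e v t nm, ∃ a y,
      el P cC B C G u z lab qc e v t nm l = Option.some a ∧ P.p y ≠ 0 ∧ B y = z l.1 ∧ G a.1 y ∧
        nm (lab a.1 y) = l.2.2 ∧ SSL P cC B C G u z lab qc e v t nm SSf w l = SSf a.1 y := by
    intro l hl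
    obtain ⟨a, ha⟩ := el_some hl
    have h1 := (mem_Bg.1 (el_mem ha)).2.1
    obtain ⟨c, hc, hp⟩ : ∃ c, qc.p c ≠ 0 ∧ piece P cC B C G u z lab a.1 l.1 a.2 (e c) := by
      by_contra hcon
      push Not at hcon
      have h2 : aM P cC B C G u z lab qc e l.1 a ≤ 0 := by
        unfold aM FP.Pr
        exact qc.E_le_const fun c hc => (ind_not (hcon c hc)).le
      linarith
    obtain ⟨y, hy, hBy, _, _, hG, _, hn, hS⟩ := data l a ha c hc hp
    exact ⟨a, y, ha, hy, hBy, hG, hn, hS⟩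
  refine ⟨?_, ?_, ?_, ?_, ?_, ?_⟩
  · intro l hl
    obtain ⟨a, y, _, hy, hB, hG, hn, hS⟩ := point l hl
    have h := (hrow a.1 y hy hG).ss
    rw [hS, ← hn, ← hB]
    exact h
  · intro l hl d hd hSS
    obtain ⟨a, y, _, hy, hB, hG, hn, hS⟩ := point l hl
    have h := (hrow a.1 y hy hG).al d
    rw [hS] at hSS
    rw [hn, hB] at h
    exact h hd hSS
  · rintro l _ c hc ⟨a, ha, hp⟩ i hi'
    obtain ⟨y, hy, hB, hCy, _, hG, _, hn, hS⟩ := data l a ha c hc hp
    have h := (hrow a.1 y hy hG).ho i hi'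
    rw [hn, hB, hCy] at h
    rw [hS]
    exact h
  · rintro l _ c hc ⟨a, ha, hp⟩
    obtain ⟨y, hy, hB, hCy, _, hG, _, hn, hS⟩ := data l a ha c hc hp
    have h := (hrow a.1 y hy hG).hm
    rw [hn, hB, hCy] at h
    rw [hS]
    exact h
  · rintro l _ l' _ hne c _ ⟨a, ha, hp⟩ ⟨a', ha', hp'⟩
    obtain ⟨e1, e2, e3⟩ := piece_unique hC hlab hp hp'
    have e4 : a = a' := Prod.ext e1 e3
    rw [← e4] at ha'
    exact hne (el_inj ha ha' (Fin.ext e2))
  · rw [← nsmul_eq_mul, ← sum_const]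
    refine sum_le_sum fun l hl => ?_
    obtain ⟨a, ha⟩ := el_some hl
    have h1 := (mem_Bg.1 (el_mem ha)).2.1.le
    refine h1.trans (qc.Pr_mono fun c _ hp => ⟨a, ha, hp⟩)

/-- the sum of the large masses is the sum over the family -/
theorem fam_sum (hC : ∀ s, Fac C (cC s))
    (hlab : ∀ s x y, P.p x ≠ 0 → P.p y ≠ 0 → B x = B y → C x = C y → lab s x = lab s y) (v0 : 0 < v)
    (hJ : 1 ≤ v * Jm) :
    ∑ s ∈ range (t + 1), ∑ r ∈ range M, ∑ p, max (qc.Pr (fun c => piece P cC B C G u z lab s r p (e c)) - v) 0 =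
      ∑ l ∈ JJ (Jm := Jm) P cC B C G u z lab qc e v t nm,
        (qc.Pr (PcL P cC B C G u z lab qc e v t nm l) - v) := by
  refine sum_JJ fun r n => ?_
  have h1 := Bg_card (P := P) (cC := cC) (B := B) (C := C) (G := G) (u := u) (z := z) (lab := lab) (qc := qc) (e := e)
    (v := v) (t := t) (nm := nm) (r := r) (n := n) hC hlab
  have h2 : ((Bg P cC B C G u z lab qc e v t nm r n).card : ℝ) * v ≤ Jm * v := by linarith
  exact_mod_cast le_of_mul_le_mul_right h2 v0

/-- **THE POTENTIAL IS PAID BY THE FAMILIES**; `θ` = coin tables, `e θ` = the points with their tables -/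
theorem pot_le {Θ : Type*} [Fintype Θ] (Tw : FP Θ) {eθ : Θ → C' → β} (hC : ∀ s, Fac C (cC s))
    (hlab : ∀ s x y, P.p x ≠ 0 → P.p y ≠ 0 → B x = B y → C x = C y → lab s x = lab s y) (v0 : 0 < v)
    (hJ : 1 ≤ v * Jm) {w : Om} (hlaw : ∀ A : β → Prop, P.ce (cC t) (fun x => ind (A (C x))) w =
      Tw.E (fun θ => qc.Pr (fun c => A (eθ θ c)))) :
    PhV P cC u (rowsT (GF P B C G) z) M (Lab P B C G z lab) v t w ≤
      Tw.E (fun θ => ∑ l ∈ JJ (Jm := Jm) P cC B C G u z lab qc (eθ θ) v t nm,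
        (qc.Pr (PcL P cC B C G u z lab qc (eθ θ) v t nm l) - v)) := by
  have e1 : ∀ s r p, cp P cC t (pl P cC u (rowsT (GF P B C G) z) M (Lab P B C G z lab) s r p) w =
      Tw.E (fun θ => qc.Pr (fun c => piece P cC B C G u z lab s r p (eθ θ c))) := by
    intro s r p
    rw [← hlaw]
    unfold cp
    refine P.ce_congr (fun x hx => ?_) w
    congr 1
    refine propext ⟨fun h => ⟨x, hx, rfl, h⟩, ?_⟩
    rintro ⟨x', _, he, h1, y, h2⟩
    refine ⟨(nwT_facV hC he).1 h1, y, h2.1, h2.2.1, h2.2.2.1.trans he, h2.2.2.2⟩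
  have e2 : ∀ θ, ∑ s ∈ range (t + 1), ∑ r ∈ range M, ∑ p,
      max (qc.Pr (fun c => piece P cC B C G u z lab s r p (eθ θ c)) - v) 0 =
      ∑ l ∈ JJ (Jm := Jm) P cC B C G u z lab qc (eθ θ) v t nm,
        (qc.Pr (PcL P cC B C G u z lab qc (eθ θ) v t nm l) - v) := fun θ => fam_sum hC hlab v0 hJ
  rw [← show (fun θ => ∑ s ∈ range (t + 1), ∑ r ∈ range M, ∑ p,
      max (qc.Pr (fun c => piece P cC B C G u z lab s r p (eθ θ c)) - v) 0) = _ from funext e2]
  unfold PhV
  rw [Tw.E_sum]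
  refine sum_le_sum fun s _ => ?_
  rw [Tw.E_sum]
  refine sum_le_sum fun r _ => ?_
  rw [Tw.E_sum]
  refine sum_le_sum fun p _ => ?_
  rw [e1]
  refine max_le ?_ (Tw.E_nonneg fun _ _ => le_max_right _ _)
  have h1 : Tw.E (fun θ => qc.Pr (fun c => piece P cC B C G u z lab s r p (eθ θ c))) - v =
      Tw.E (fun θ => qc.Pr (fun c => piece P cC B C G u z lab s r p (eθ θ c)) - v) := by
    rw [Tw.E_sub, Tw.E_const]
  rw [h1]
  exact Tw.E_mono fun _ _ => le_max_left _ _

end famA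

end

end Pool.Agent.GMH.GhoF
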