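import Pool.Agent.GMH.GhoA

/-!
# GMH/GhoHb (helper85): KIND `H` AT THE VERTEX TIME (H3.UNM: hot and far pairs, unsigned rows and columns), fixed `a`

Frame of `GMH/GhoA`.  `tkb s` : `T^b = s ≤ σ`, `s < T^0`; `rw s` : `d` not covered, `cl s` : `d` covered, `c` not; light :
density of the row (column) in the ghost set at most `g0` (`g0'`) of its measure.

* `rows_leftS` : rows with ANY decision `Sr` seen by `(b, c)` (unsigned: `False`);
* `epoch_u` : `P (R, ∃ s, tkb s) ≤ g0 P (tkb) + g0' P (tkb, Cd) + u P (tkb) + bad + (uc + 2 u0 / (uc u)) (P (Kt) + P (Kt')) +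
  both covered`.
-/

set_option autoImplicit false
set_option linter.unusedSectionVars false

namespace Pool.Agent.GMH.GhoHb

open Finset Pool.Agent.PWZ Pool.Agent.M3 Pool.Agent.GMH.Gdy Pool.Agent.GMH.CR Pool.Agent.GMH.Three
open Pool.Agent.GMH.Blk Pool.Agent.GMH.GhoT Pool.Agent.GMH.GhoA
open Pool.Agent.GMH.Take (xb bc xb_eq bc_eq xb_filt bc_filt bc_xb bc_nd xb_nd)

noncomputable section

variable {Om : Type*} [Fintype Om] {P : FP Om} {κ κ' κ'' : ℕ → Type*} {cB : ∀ t, Om → κ t} {cC : ∀ t, Om → κ' t}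
  {cD : ∀ t, Om → κ'' t} {α β δ : Type*} {B : Om → α} {C : Om → β} {D : Om → δ} {h : ℝ} {R : Om → Prop}
  {q u0 g0 g0' uc u : ℝ} {σ : Om → ℕ} {T : ℕ} {Cc Cd Sr Sk : ℕ → Om → Prop}

variable (P cB cC cD B C R q u0 σ Cd g0 Sr) in
/-- heavy rows which are not released, decision `Sr` -/
def hS (s : ℕ) (w : Om) : Prop :=
  hvG P (fun w => (B w, C w)) R g0 (rw P cB cC cD B R q u0 σ Cd) (tkb P cB cC cD B R q u0 σ) Sr s w

/-- **ROWS, WHAT IS NOT RELEASED**, any decision `Sr` seen by `(b, c)` -/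
theorem rows_leftS (H : Fr P B C D cB cC cD h) (hσ : Stp (nd cB cC cD) σ) (hT : ∀ w, σ w < T) (c0 : 0 < uc)
    (u00 : 0 < u) (z0 : 0 ≤ u0) (g00 : 0 ≤ g0)
    (hS' : ∀ s x w, (B x, C x) = (B w, C w) → (Sr s x ↔ Sr s w)) {M : ℕ} (z : Fin M → α) :
    P.Pr (fun w => R w ∧ ∃ s, rw P cB cC cD B R q u0 σ Cd s w ∧ ¬ Sr s w) ≤
      g0 * P.Pr (fun w => ∃ s, tkb P cB cC cD B R q u0 σ s w) +
        (u / 2 * P.Pr (fun w => ∃ s ≤ σ w, tkb P cB cC cD B R q u0 σ s w) +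
          P.Pr (bdt P cC B C (hS P cB cC cD B C R q u0 g0 σ Cd Sr) u z T)) +
        (uc + u0 / (uc * (u / 2))) *
          P.Pr (fun w => Kt P cC B C (hS P cB cC cD B C R q u0 g0 σ Cd Sr) u z (σ w) w) :=
  side (P := P) (cV := cC) (U := B) (U2 := D) (V := C) (Vs := xb C cB cD) (Y := bc B D cC) (nd := nd cB cC cD)
    (Z := fun w => (B w, C w)) (R := R) (u0 := u0) (uc := uc) (u := u) (g0 := g0) (σ := σ) (T := T)
    (A := rw P cB cC cD B R q u0 σ Cd) (tk := tkb P cB cC cD B R q u0 σ) (tl := tkb P cB cC cD B R q u0 σ)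
    (S := Sr) H.iC.symm H.hC
    (fun t v w e => by
      have e' := bc_eq.1 e
      exact bc_eq.2 ⟨e'.1, e'.2.1, H.fC t v w e'.2.2⟩)
    (fun s v w e => by
      have e' := bc_eq.1 e
      exact nd_eq.2 ⟨H.hB s v w e'.1, e'.2.2, H.hD s v w e'.2.1⟩)
    (fun s v w e => by
      have e' := bc_eq.1 e
      show ((B v, D v), cC s v) = ((B w, D w), cC s w)
      rw [e'.1, e'.2.1, e'.2.2])
    (fun s v w e => by
      have e' : (B v, D v) = (B w, D w) ∧ cC s v = cC s w := Prod.mk.injEq _ _ _ _ ▸ e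
      have e2 : B v = B w ∧ D v = D w := Prod.mk.injEq _ _ _ _ ▸ e'.1
      exact bc_eq.2 ⟨e2.1, e2.2, e'.2⟩)
    (fun t v w e => by
      have e' := xb_eq.1 e
      exact xb_eq.2 ⟨e'.1, H.fB t v w e'.2.1, H.fD t v w e'.2.2⟩)
    (fun s v w e => by
      have e' := xb_eq.1 e
      exact nd_eq.2 ⟨e'.2.1, H.hC s v w e'.1, e'.2.2⟩)
    (fun s v w e => (xb_eq.1 e).1) (nd_filt H.fB H.fC H.fD) (ce_nC H) (Fac.refl _)
    hS' hσ hT c0 u00 z0 g00 (fun w s s' a b => Ar_one w s s' a b) (fun w s a => a.1.2)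
    (fun w s a => a.1) (fun w s a => a.1.1.2) (fun w s s' a b => tk_one w s s' a b) (fun w s a => a.2)
    (fun w s s' a b => tk_one w s s' a b)
    (fun s x w e => tk_fac (Y := bc B D cC) (xb_filt H) (nd_filt H.fB H.fC H.fD) (fun s v w e => xb_nd H e)
      (fun s v w e => by
        have e' := bc_eq.1 e
        exact xb_eq.2 ⟨e'.1, e'.2.2, H.hD s v w e'.2.1⟩) hσ s x w e) z

/-- **ONE LIFE, UNSIGNED ROWS AND COLUMNS** -/
theorem epoch_u (H : Fr P B C D cB cC cD h) (hσ : Stp (nd cB cC cD) σ) (hT : ∀ w, σ w < T) (c0 : 0 < uc)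
    (u00 : 0 < u) (z0 : 0 ≤ u0) (g00 : 0 ≤ g0) (g00' : 0 ≤ g0') {M M' : ℕ} (z : Fin M → α) (z' : Fin M' → α) :
    P.Pr (fun w => R w ∧ ∃ s, tkb P cB cC cD B R q u0 σ s w) ≤
      g0 * P.Pr (fun w => ∃ s, tkb P cB cC cD B R q u0 σ s w) +
        g0' * P.Pr (fun w => ∃ s, tkb P cB cC cD B R q u0 σ s w ∧ Cd s w) +
        u * P.Pr (fun w => ∃ s ≤ σ w, tkb P cB cC cD B R q u0 σ s w) +
        (P.Pr (bdt P cC B C (hS P cB cC cD B C R q u0 g0 σ Cd (fun _ _ => False)) u z T) +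
          P.Pr (bdt P cD B D (hK P cB cC cD B D R q u0 g0' σ Cc Cd (fun _ _ => False)) u z' T)) +
        (uc + u0 / (uc * (u / 2))) *
          (P.Pr (fun w => Kt P cC B C (hS P cB cC cD B C R q u0 g0 σ Cd (fun _ _ => False)) u z (σ w) w) +
            P.Pr (fun w => Kt P cD B D (hK P cB cC cD B D R q u0 g0' σ Cc Cd (fun _ _ => False)) u z' (σ w) w)) +
        P.Pr (fun w => R w ∧ ∃ s ≤ σ w, Tb P (xb B cC cD) R q s w ∧ Cc s w ∧ Cd s w) := by
  have h1 := rows_leftS (P := P) (R := R) (q := q) (u0 := u0) (g0 := g0) (uc := uc) (u := u) (Cd := Cd)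
    (Sr := fun _ _ => False) H hσ hT c0 u00 z0 g00 (fun _ _ _ _ => Iff.rfl) z
  have h2 := cols_left (P := P) (R := R) (q := q) (u0 := u0) (g0' := g0') (uc := uc) (u := u) (Cc := Cc) (Cd := Cd)
    (Sk := fun _ _ => False) H hσ hT c0 u00 z0 g00' (fun _ _ _ _ => Iff.rfl) z'
  have h3 : P.Pr (fun w => R w ∧ ∃ s, tkb P cB cC cD B R q u0 σ s w) ≤
      P.Pr (fun w => R w ∧ ∃ s, rw P cB cC cD B R q u0 σ Cd s w ∧ ¬ False) +
        P.Pr (fun w => R w ∧ ∃ s, cl P cB cC cD B R q u0 σ Cc Cd s w ∧ ¬ False) +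
        P.Pr (fun w => R w ∧ ∃ s ≤ σ w, Tb P (xb B cC cD) R q s w ∧ Cc s w ∧ Cd s w) := by
    unfold FP.Pr
    rw [← FP.E_add, ← FP.E_add]
    refine P.E_mono fun w _ => ?_
    have n1 := ind_nonneg (R w ∧ ∃ s, rw P cB cC cD B R q u0 σ Cd s w ∧ ¬ False)
    have n2 := ind_nonneg (R w ∧ ∃ s, cl P cB cC cD B R q u0 σ Cc Cd s w ∧ ¬ False)
    have n3 := ind_nonneg (R w ∧ ∃ s ≤ σ w, Tb P (xb B cC cD) R q s w ∧ Cc s w ∧ Cd s w)
    by_cases a : R w ∧ ∃ s, tkb P cB cC cD B R q u0 σ s w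
    · obtain ⟨hR, s, ht⟩ := a
      rw [ind_of (show R w ∧ ∃ s, tkb P cB cC cD B R q u0 σ s w from ⟨hR, s, ht⟩)]
      by_cases b1 : Cd s w
      · by_cases b2 : Cc s w
        · rw [ind_of (show R w ∧ ∃ s ≤ σ w, Tb P (xb B cC cD) R q s w ∧ Cc s w ∧ Cd s w from
            ⟨hR, s, ht.2, ht.1.1, b2, b1⟩)]
          linarith
        · rw [ind_of (show R w ∧ ∃ s, cl P cB cC cD B R q u0 σ Cc Cd s w ∧ ¬ False from
            ⟨hR, s, ⟨ht, b1, b2⟩, id⟩)]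
          linarith
      · rw [ind_of (show R w ∧ ∃ s, rw P cB cC cD B R q u0 σ Cd s w ∧ ¬ False from ⟨hR, s, ⟨ht, b1⟩, id⟩)]
        linarith
    · rw [ind_not a]
      linarith
  generalize uc + u0 / (uc * (u / 2)) = k at h1 h2 ⊢
  refine h3.trans (le_trans (add_le_add (add_le_add h1 h2) le_rfl) (le_of_eq ?_))
  ring

end

end Pool.Agent.GMH.GhoHb
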