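import Pool.Agent.GMH.GhoF

/-!
# GMH/GhoL (helper40): LEVEL 1 OF THE GHOST WORLDS (exact `b`, H3.T, T.5 - T.7), FROM THE SUMS OVER THE WORLDS TO `Row1`

`(B, C)` = exact row, `D` = the other vertex, independent of `(B, C)`, with the law `R` (law of the keys);
`A i` = what is decided at the level `i` (`DD`), `Cv i` = covered at the level `i` (`SS` = decided, not covered);
`Gr b c ρ d` = relation of the row `ρ` at `(b, c)` with `d`, `ps` = its weight, `own b c` = own row, `mr b c` = class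
law.
* `conv` : sums over the levels of conditional means given the exact row = one mean over the keys in `SSf`;
* `row1_signed`, `row1_uns` : not released, not light, `DD` not tiny, class mass `≤ mu` give `Row1` (for `GhoF.famA`);
* `tiny_le` : levels with tiny `DD`;
* `CvH` : cumulative cover of the other vertex by a list of foreign rows (point, coin), `GdyR`;
* `cls_list`, `cls_mean`, `cls_list_uns`, `cls_mean_uns` : the class mass for one list and in the mean over the lists of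
  `M` rows: `∑ s, P (A s, class mass > mu) ≤ 1 / (mu0 (M + 1)) / (kap mu)`.
-/

set_option autoImplicit false
set_option linter.unusedSectionVars false

namespace Pool.Agent.GMH.GhoL

open Finset Pool.Agent.PWZ Pool.Agent.M3 Pool.Agent.GMH.Gdy Pool.Agent.GMH.CR
open Pool.Agent.GMH.GhoF (Row1)

noncomputable section

/-! ## independent vertex with a law -/

section law

variable {Om : Type*} [Fintype Om] {P : FP Om} {ω κ : Type*} [Fintype ω]

/-- freezing what is exact -/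
theorem ce_law {R : FP ω} {W : Om → ω} (hW : ∀ g : ω → ℝ, P.E (fun w => g (W w)) = R.E g) {V : Om → κ}
    (hI : P.Indep W V) {F : ω → Om → ℝ} (hF : ∀ d, Fac V (F d)) {x : Om} (hx : P.p x ≠ 0) :
    P.ce V (fun y => F (W y) y) x = R.E (fun d => F d x) := by
  have e1 : P.E (fun v => ind (V v = V x) * F (W v) v) = P.E (fun v => F (W v) x * ind (V v = V x)) := by
    refine P.E_congr fun v _ => ?_
    by_cases h : V v = V x
    · rw [hF (W v) v x h, mul_comm]
    · rw [ind_not h, zero_mul, mul_zero]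
  have e2 : P.E (fun v => F (W v) x * ind (V v = V x)) = P.E (fun v => F (W v) x) * P.m V x :=
    hI _ _ (fun v v' e => by
      show F (W v) x = F (W v') x
      rw [e]) (fun v v' e => by
      show ind (V v = V x) = ind (V v' = V x)
      rw [e])
  unfold FP.ce
  rw [e1, e2, hW fun d => F d x, mul_div_assoc, div_self (P.m_pos V hx).ne', mul_one]

end law

/-! ## sums over the worlds -/

section lev

variable {Om : Type*} [Fintype Om] (P : FP Om) {α β δ Rw : Type*} [Fintype δ] [Fintype Rw] (B : Om → α) (C : Om → β)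
  (D : Om → δ) (A Cv : ℕ → Om → Prop)

/-- decided up to the level `s`, not covered at the decision -/
def gh (s : ℕ) (y : Om) : Prop := ∃ i ≤ s, A i y ∧ ¬ Cv i y

/-- the worlds of the exact row -/
def SSf (s : ℕ) (x : Om) (d : δ) : Prop := ∃ y, P.p y ≠ 0 ∧ B y = B x ∧ C y = C x ∧ D y = d ∧ gh A Cv s y

/-- mass of what is decided up to the level `s` -/
def DDs (s : ℕ) (x : Om) : ℝ := ∑ i ∈ range (s + 1), P.ce (fun w => (B w, C w)) (fun y => ind (A i y)) x

variable {P B C D A Cv} {R : FP δ} {T : ℕ}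

theorem sum_gh (A1 : ∀ w i j, A i w → A j w → i = j) (s : ℕ) (y : Om) :
    ∑ i ∈ range (s + 1), ind (A i y ∧ ¬ Cv i y) = ind (gh A Cv s y) := by
  classical
  by_cases h : gh A Cv s y
  · obtain ⟨i, hi, ha⟩ := h
    rw [ind_of ⟨i, hi, ha⟩, Finset.sum_eq_single i]
    · exact ind_of ha
    · intro j _ hj
      exact ind_not fun h' => hj (A1 y j i h'.1 ha.1)
    · intro hh
      exact absurd (mem_range.2 (by omega)) hh
  · rw [ind_not h]
    exact Finset.sum_eq_zero fun i hi => ind_not fun h' => h ⟨i, by have := mem_range.1 hi; omega, h'⟩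

theorem SSf_own (hA : ∀ s x y, B x = B y → C x = C y → D x = D y → (gh A Cv s x ↔ gh A Cv s y)) {s : ℕ} {y : Om}
    (hy : P.p y ≠ 0) : SSf P B C D A Cv s y (D y) ↔ gh A Cv s y :=
  ⟨fun ⟨y', _, e1, e2, e3, h⟩ => (hA s y' y e1 e2 e3).1 h, fun h => ⟨y, hy, rfl, rfl, rfl, h⟩⟩

theorem SSf_fac (s : ℕ) (d : δ) (x x' : Om) (e : (B x, C x) = (B x', C x')) :
    SSf P B C D A Cv s x d ↔ SSf P B C D A Cv s x' d := by
  have e' : B x = B x' ∧ C x = C x' := Prod.mk.injEq _ _ _ _ ▸ e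
  unfold SSf
  rw [e'.1, e'.2]

/-- **the sums over the levels as one mean over the keys** -/
theorem conv (hR : ∀ g : δ → ℝ, P.E (fun w => g (D w)) = R.E g) (hI : P.Indep D (fun w => (B w, C w)))
    (A1 : ∀ w i j, A i w → A j w → i = j)
    (hA : ∀ s x y, B x = B y → C x = C y → D x = D y → (gh A Cv s x ↔ gh A Cv s y)) (F : α → β → δ → ℝ) {x : Om}
    (hx : P.p x ≠ 0) (s : ℕ) :
    ∑ i ∈ range (s + 1), P.ce (fun w => (B w, C w)) (fun y => ind (A i y ∧ ¬ Cv i y) * F (B y) (C y) (D y)) x =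
      R.E (fun d => ind (SSf P B C D A Cv s x d) * F (B x) (C x) d) := by
  rw [← P.ce_sum]
  have e1 : P.ce (fun w => (B w, C w))
      (fun y => ∑ i ∈ range (s + 1), ind (A i y ∧ ¬ Cv i y) * F (B y) (C y) (D y)) x =
      P.ce (fun w => (B w, C w)) (fun y => (fun d y => ind (SSf P B C D A Cv s y d) * F (B y) (C y) d) (D y) y) x := by
    refine P.ce_congr (fun y hy => ?_) x
    rw [← Finset.sum_mul, sum_gh A1]
    show ind (gh A Cv s y) * F (B y) (C y) (D y) = ind (SSf P B C D A Cv s y (D y)) * F (B y) (C y) (D y)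
    rw [propext (SSf_own hA hy)]
  rw [e1]
  refine ce_law (F := fun d y => ind (SSf P B C D A Cv s y d) * F (B y) (C y) d) hR hI (fun d y y' e => ?_) hx
  have e' : B y = B y' ∧ C y = C y' := Prod.mk.injEq _ _ _ _ ▸ e
  show ind (SSf P B C D A Cv s y d) * F (B y) (C y) d = ind (SSf P B C D A Cv s y' d) * F (B y') (C y') d
  rw [propext (SSf_fac s d y y' e), e'.1, e'.2]

/-- locality of the worlds: `SSf` depends on the cell of the exact row only -/
theorem SSf_loc {κ Λ : ℕ → Type*} {cC : ∀ t, Om → κ t} {lab : ∀ t, Om → Λ t} (hI : P.Indep D (fun w => (B w, C w)))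
    (hloc : ∀ s x y, P.p x ≠ 0 → P.p y ≠ 0 → B x = B y → cC s x = cC s y → lab s x = lab s y → D x = D y →
      (gh A Cv s x ↔ gh A Cv s y)) (hC : ∀ s, Fac C (cC s)) (hl : ∀ s, Fac (fun w => (B w, C w)) (lab s))
    {s : ℕ} {x y : Om} (hx : P.p x ≠ 0) (hy : P.p y ≠ 0) (h1 : B x = B y) (h2 : cC s x = cC s y)
    (h3 : lab s x = lab s y) (d : δ) : SSf P B C D A Cv s x d ↔ SSf P B C D A Cv s y d := by
  -- a world at the exact row of `y` with the point `d`
  have key : ∀ x y : Om, P.p x ≠ 0 → P.p y ≠ 0 → B x = B y → cC s x = cC s y → lab s x = lab s y →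
      SSf P B C D A Cv s x d → SSf P B C D A Cv s y d := by
    rintro x y _ hy h1 h2 h3 ⟨x', hx', hB, hC', hD, hg⟩
    obtain ⟨y', hy', hBy, hCy, hDy⟩ : ∃ y', P.p y' ≠ 0 ∧ B y' = B y ∧ C y' = C y ∧ D y' = d := by
      by_contra hcon
      push Not at hcon
      have e1 := hI (fun v => ind (D v = d)) (fun v => ind ((B v, C v) = (B y, C y)))
        (Fac.ind fun v v' e => by rw [e]) (Fac.ind fun v v' e => by
          have e' : (B v, C v) = (B v', C v') := e
          rw [e'])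
      have e2 : P.E (fun v => ind (D v = d) * ind ((B v, C v) = (B y, C y))) = 0 := by
        have e3 : P.E (fun v => ind (D v = d) * ind ((B v, C v) = (B y, C y))) = P.E (fun _ => (0 : ℝ)) := by
          refine P.E_congr fun v hv => ?_
          by_cases h4 : D v = d
          · by_cases h5 : (B v, C v) = (B y, C y)
            · have h6 : B v = B y ∧ C v = C y := Prod.mk.injEq _ _ _ _ ▸ h5
              exact absurd h4 (hcon v hv h6.1 h6.2)
            · rw [ind_not h5, mul_zero]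
          · rw [ind_not h4, zero_mul]
        rw [e3, P.E_const]
      rw [e2] at e1
      have p1 : 0 < P.E (fun v => ind (D v = d)) := by
        have := P.m_pos D hx'
        unfold FP.m at this
        rw [hD] at this
        exact this
      have p2 : 0 < P.E (fun v => ind ((B v, C v) = (B y, C y))) := P.m_pos (fun w => (B w, C w)) hy
      have := mul_pos p1 p2
      linarith
    refine ⟨y', hy', hBy, hCy, hDy, ?_⟩
    refine (hloc s x' y' hx' hy' (hB.trans (h1.trans hBy.symm)) ?_ ?_ (hD.trans hDy.symm)).1 hg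
    · rw [hC s x' x hC', h2, hC s y' y hCy]
    · have e1 : lab s x' = lab s x := hl s x' x (by
        show (B x', C x') = (B x, C x)
        rw [hB, hC'])
      have e2 : lab s y' = lab s y := hl s y' y (by
        show (B y', C y') = (B y, C y)
        rw [hBy, hCy])
      rw [e1, h3, e2]
  exact ⟨key x y hx hy h1 h2 h3, key y x hy hx h1.symm h2.symm h3.symm⟩

/-! ### one row -/

variable (P B C D A Cv) in
/-- mass of the relation in the row `ρ` -/
def mR (Gr : α → β → Rw → δ → Prop) (s : ℕ) (ρ : Rw) (x : Om) : ℝ :=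
  ∑ i ∈ range (s + 1), P.ce (fun w => (B w, C w)) (fun y => ind (A i y ∧ ¬ Cv i y ∧ Gr (B y) (C y) ρ (D y))) x

variable (P B C D A Cv) in
/-- signed sum of the row `ρ` -/
def sR (Gr : α → β → Rw → δ → Prop) (ps : α → β → Rw → δ → ℝ) (s : ℕ) (ρ : Rw) (x : Om) : ℝ :=
  ∑ i ∈ range (s + 1), P.ce (fun w => (B w, C w))
    (fun y => ind (A i y ∧ ¬ Cv i y) * (ind (Gr (B y) (C y) ρ (D y)) * ps (B y) (C y) ρ (D y))) x

variable (P B C D A Cv) in
/-- **class mass of the rows which look like an unreleased heavy row** -/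
def cmS (mr : α → β → FP Rw) (Gr : α → β → Rw → δ → Prop) (ps : α → β → Rw → δ → ℝ) (lam g : ℝ) (s : ℕ) (x : Om) : ℝ :=
  (mr (B x) (C x)).Pr fun ρ => 3 / 2 * (lam * mR P B C D A Cv Gr s ρ x) < sR P B C D A Cv Gr ps s ρ x ∧
    g * DDs P B C A s x ≤ mR P B C D A Cv Gr s ρ x

variable (P B C D A Cv) in
/-- the same, unsigned -/
def cmU (mr : α → β → FP Rw) (Gr : α → β → Rw → δ → Prop) (g : ℝ) (s : ℕ) (x : Om) : ℝ :=
  (mr (B x) (C x)).Pr fun ρ => g * DDs P B C A s x ≤ mR P B C D A Cv Gr s ρ x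

variable {Gr : α → β → Rw → δ → Prop} {ps : α → β → Rw → δ → ℝ} {own : α → β → Rw} {mr : α → β → FP Rw}
  {Rr : Om → Prop} {ψ : Om → ℝ} {lam g0 mu δ1 : ℝ} {Va : α → δ → Prop}

theorem mR_eq (hR : ∀ g : δ → ℝ, P.E (fun w => g (D w)) = R.E g) (hI : P.Indep D (fun w => (B w, C w)))
    (A1 : ∀ w i j, A i w → A j w → i = j)
    (hA : ∀ s x y, B x = B y → C x = C y → D x = D y → (gh A Cv s x ↔ gh A Cv s y)) {x : Om} (hx : P.p x ≠ 0) (s : ℕ)
    (ρ : Rw) : mR P B C D A Cv Gr s ρ x =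
      R.E (fun d => ind (SSf P B C D A Cv s x d) * ind (Gr (B x) (C x) ρ d)) := by
  rw [← conv hR hI A1 hA (fun b c d => ind (Gr b c ρ d)) hx s]
  refine Finset.sum_congr rfl fun i _ => P.ce_congr (fun y _ => ?_) x
  rw [← ind_and]
  congr 1
  exact propext ⟨fun ⟨a, b, c⟩ => ⟨⟨a, b⟩, c⟩, fun ⟨⟨a, b⟩, c⟩ => ⟨a, b, c⟩⟩

theorem sR_eq (hR : ∀ g : δ → ℝ, P.E (fun w => g (D w)) = R.E g) (hI : P.Indep D (fun w => (B w, C w)))
    (A1 : ∀ w i j, A i w → A j w → i = j)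
    (hA : ∀ s x y, B x = B y → C x = C y → D x = D y → (gh A Cv s x ↔ gh A Cv s y)) {x : Om} (hx : P.p x ≠ 0) (s : ℕ)
    (ρ : Rw) : sR P B C D A Cv Gr ps s ρ x =
      R.E (fun d => ind (SSf P B C D A Cv s x d) * (ind (Gr (B x) (C x) ρ d) * ps (B x) (C x) ρ d)) :=
  conv hR hI A1 hA (fun b c d => ind (Gr b c ρ d) * ps b c ρ d) hx s

/-- the set of the worlds is not larger than `DD` -/
theorem SS_le (hR : ∀ g : δ → ℝ, P.E (fun w => g (D w)) = R.E g) (hI : P.Indep D (fun w => (B w, C w)))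
    (A1 : ∀ w i j, A i w → A j w → i = j)
    (hA : ∀ s x y, B x = B y → C x = C y → D x = D y → (gh A Cv s x ↔ gh A Cv s y)) {x : Om} (hx : P.p x ≠ 0)
    (s : ℕ) : R.Pr (SSf P B C D A Cv s x) ≤ DDs P B C A s x := by
  have h := conv hR hI A1 hA (fun _ _ _ => 1) hx s
  have e1 : R.Pr (SSf P B C D A Cv s x) = R.E (fun d => ind (SSf P B C D A Cv s x d) * 1) :=
    R.E_congr fun d _ => (mul_one _).symm
  rw [e1, ← h]
  refine Finset.sum_le_sum fun i _ => P.ce_mono (fun y _ => ?_) x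
  rw [mul_one]
  exact ind_mono fun h => h.1

/-- **ONE ROW, SIGNED** -/
theorem row1_signed (hR : ∀ g : δ → ℝ, P.E (fun w => g (D w)) = R.E g) (hI : P.Indep D (fun w => (B w, C w)))
    (A1 : ∀ w i j, A i w → A j w → i = j)
    (hA : ∀ s x y, B x = B y → C x = C y → D x = D y → (gh A Cv s x ↔ gh A Cv s y))
    (hRr : ∀ y, P.p y ≠ 0 → (Rr y ↔ Gr (B y) (C y) (own (B y) (C y)) (D y)))
    (hψ : ∀ y, P.p y ≠ 0 → Rr y → ψ y = ps (B y) (C y) (own (B y) (C y)) (D y))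
    (hVa : ∀ s y, P.p y ≠ 0 → gh A Cv s y → Va (B y) (D y)) (l0 : 0 ≤ lam) (g00 : 0 ≤ g0) (d0 : 0 < δ1) {s : ℕ}
    {x : Om} (hx : P.p x ≠ 0)
    (h1 : 2 * (lam * ∑ i ∈ range (s + 1), P.ce (fun w => (B w, C w)) (fun y => ind ((A i y ∧ ¬ Cv i y) ∧ Rr y)) x) ≤
      ∑ i ∈ range (s + 1), P.ce (fun w => (B w, C w)) (fun y => ind (A i y ∧ ¬ Cv i y) * (ind (Rr y) * ψ y)) x)
    (h2 : g0 * DDs P B C A s x ≤
      ∑ i ∈ range (s + 1), P.ce (fun w => (B w, C w)) (fun y => ind ((A i y ∧ ¬ Cv i y) ∧ Rr y)) x)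
    (h3 : δ1 ≤ g0 * DDs P B C A s x) (h4 : cmS P B C D A Cv mr Gr ps lam (g0 ^ 2 / 4) s x ≤ mu) :
    Row1 R univ (GhoC.hiS lam g0) (GhoC.loS lam g0) mu (mr (B x) (C x))
      (fun i ρ d => GhoC.tsS lam (ind (Gr (B x) (C x) ρ d)) (ind (Gr (B x) (C x) ρ d) * ps (B x) (C x) ρ d) i)
      (own (B x) (C x)) (Va (B x)) δ1 (SSf P B C D A Cv s x) := by
  have eM : ∑ i ∈ range (s + 1), P.ce (fun w => (B w, C w)) (fun y => ind ((A i y ∧ ¬ Cv i y) ∧ Rr y)) x =
      R.E (fun d => ind (SSf P B C D A Cv s x d) * ind (Gr (B x) (C x) (own (B x) (C x)) d)) := by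
    rw [← conv hR hI A1 hA (fun b c d => ind (Gr b c (own b c) d)) hx s]
    refine Finset.sum_congr rfl fun i _ => P.ce_congr (fun y hy => ?_) x
    rw [← ind_and, propext (hRr y hy)]
  have eS : ∑ i ∈ range (s + 1), P.ce (fun w => (B w, C w)) (fun y => ind (A i y ∧ ¬ Cv i y) * (ind (Rr y) * ψ y)) x =
      R.E (fun d => ind (SSf P B C D A Cv s x d) * (ind (Gr (B x) (C x) (own (B x) (C x)) d) *
        ps (B x) (C x) (own (B x) (C x)) d)) := by
    rw [← conv hR hI A1 hA (fun b c d => ind (Gr b c (own b c) d) * ps b c (own b c) d) hx s]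
    refine Finset.sum_congr rfl fun i _ => P.ce_congr (fun y hy => ?_) x
    by_cases h : Rr y
    · rw [ind_of h, ind_of ((hRr y hy).1 h), hψ y hy h]
    · rw [ind_not h, ind_not fun h' => h ((hRr y hy).2 h'), zero_mul, zero_mul]
  rw [eM, eS] at h1
  rw [eM] at h2
  have h5 := SS_le (R := R) hR hI A1 hA hx s
  have h6 : R.E (fun d => ind (SSf P B C D A Cv s x d) * ind (Gr (B x) (C x) (own (B x) (C x)) d)) ≤
      R.Pr (SSf P B C D A Cv s x) := GhoC.mass_le fun _ => ind_le_one _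
  have h7 : δ1 ≤ R.Pr (SSf P B C D A Cv s x) := h3.trans (h2.trans h6)
  have h8 : R.Pr (SSf P B C D A Cv s x) ≠ 0 := (lt_of_lt_of_le d0 h7).ne'
  refine ⟨h7, ?_, fun i _ => ?_, ?_⟩
  · rintro d _ ⟨y, hy, hB, _, hD, hg⟩
    have := hVa s y hy hg
    rw [hB, hD] at this
    exact this
  · exact GhoC.own_signed h8 h1 ((mul_le_mul_of_nonneg_left h5 g00).trans h2) l0 i
  · refine le_trans ((mr (B x) (C x)).Pr_mono fun ρ _ hρ => ?_) h4
    have h9 := GhoC.cls_signed (R := R) (SS := SSf P B C D A Cv s x) (g := fun d => ind (Gr (B x) (C x) ρ d))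
      (ψ := fun d => ind (Gr (B x) (C x) ρ d) * ps (B x) (C x) ρ d) (lam := lam) (g0 := g0) h8 l0 hρ
    rw [mR_eq (R := R) hR hI A1 hA hx s ρ, sR_eq (R := R) hR hI A1 hA hx s ρ]
    exact ⟨h9.1, GhoC.cls_heavy g00 h2 h6 h9.2⟩

/-- **ONE ROW, UNSIGNED** : one test -/
theorem row1_uns (hR : ∀ g : δ → ℝ, P.E (fun w => g (D w)) = R.E g) (hI : P.Indep D (fun w => (B w, C w)))
    (A1 : ∀ w i j, A i w → A j w → i = j)
    (hA : ∀ s x y, B x = B y → C x = C y → D x = D y → (gh A Cv s x ↔ gh A Cv s y))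
    (hRr : ∀ y, P.p y ≠ 0 → (Rr y ↔ Gr (B y) (C y) (own (B y) (C y)) (D y)))
    (hVa : ∀ s y, P.p y ≠ 0 → gh A Cv s y → Va (B y) (D y)) (g00 : 0 ≤ g0) (d0 : 0 < δ1) {s : ℕ}
    {x : Om} (hx : P.p x ≠ 0)
    (h2 : g0 * DDs P B C A s x ≤
      ∑ i ∈ range (s + 1), P.ce (fun w => (B w, C w)) (fun y => ind ((A i y ∧ ¬ Cv i y) ∧ Rr y)) x)
    (h3 : δ1 ≤ g0 * DDs P B C A s x) (h4 : cmU P B C D A Cv mr Gr (g0 ^ 2 / 2) s x ≤ mu) :
    Row1 R (univ : Finset Unit) (fun _ => g0) (fun _ => g0 / 2) mu (mr (B x) (C x))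
      (fun _ ρ d => ind (Gr (B x) (C x) ρ d)) (own (B x) (C x)) (Va (B x)) δ1 (SSf P B C D A Cv s x) := by
  have eM : ∑ i ∈ range (s + 1), P.ce (fun w => (B w, C w)) (fun y => ind ((A i y ∧ ¬ Cv i y) ∧ Rr y)) x =
      R.E (fun d => ind (SSf P B C D A Cv s x d) * ind (Gr (B x) (C x) (own (B x) (C x)) d)) := by
    rw [← conv hR hI A1 hA (fun b c d => ind (Gr b c (own b c) d)) hx s]
    refine Finset.sum_congr rfl fun i _ => P.ce_congr (fun y hy => ?_) x
    rw [← ind_and, propext (hRr y hy)]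
  rw [eM] at h2
  have h5 := SS_le (R := R) hR hI A1 hA hx s
  have h6 : R.E (fun d => ind (SSf P B C D A Cv s x d) * ind (Gr (B x) (C x) (own (B x) (C x)) d)) ≤
      R.Pr (SSf P B C D A Cv s x) := GhoC.mass_le fun _ => ind_le_one _
  have h7 : δ1 ≤ R.Pr (SSf P B C D A Cv s x) := h3.trans (h2.trans h6)
  have h8 : R.Pr (SSf P B C D A Cv s x) ≠ 0 := (lt_of_lt_of_le d0 h7).ne'
  refine ⟨h7, ?_, fun i _ => ?_, ?_⟩
  · rintro d _ ⟨y, hy, hB, _, hD, hg⟩
    have := hVa s y hy hg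
    rw [hB, hD] at this
    exact this
  · exact GhoC.own_uns h8 ((mul_le_mul_of_nonneg_left h5 g00).trans h2)
  · refine le_trans ((mr (B x) (C x)).Pr_mono fun ρ _ hρ => ?_) h4
    have h9 := GhoC.cls_uns (R := R) (SS := SSf P B C D A Cv s x) (g := fun d => ind (Gr (B x) (C x) ρ d))
      (kap := g0) h8 (hρ () (mem_univ _))
    rw [mR_eq (R := R) hR hI A1 hA hx s ρ]
    have h10 := mul_le_mul_of_nonneg_left (h2.trans h6) (show 0 ≤ g0 / 2 by positivity)
    linarith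

/-- **levels with tiny `DD`** -/
theorem tiny_le {d : ℝ} (d0 : 0 ≤ d) (T : ℕ) :
    ∑ s ∈ range T, P.Pr (fun w => A s w ∧ DDs P B C A s w ≤ d) ≤ d := by
  have e1 : ∀ s, P.Pr (fun w => A s w ∧ DDs P B C A s w ≤ d) =
      P.E (fun w => P.ce (fun w => (B w, C w)) (fun y => ind (A s y)) w * ind (DDs P B C A s w ≤ d)) := by
    intro s
    have hf : Fac (fun w => (B w, C w)) (fun w => ind (DDs P B C A s w ≤ d)) := by
      refine Fac.ind fun v w e => ?_
      unfold DDs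
      rw [Finset.sum_congr rfl fun i _ => P.ce_fac (fun w => (B w, C w)) (fun y => ind (A i y)) v w e]
    have h1 := P.E_mul_ce hf (fun y => ind (A s y))
    rw [show (fun w => P.ce (fun w => (B w, C w)) (fun y => ind (A s y)) w * ind (DDs P B C A s w ≤ d)) =
      fun w => ind (DDs P B C A s w ≤ d) * P.ce (fun w => (B w, C w)) (fun y => ind (A s y)) w from
        funext fun w => mul_comm _ _, h1]
    refine P.E_congr fun w _ => ?_
    rw [ind_and, mul_comm]
  rw [Finset.sum_congr rfl fun s _ => e1 s, ← P.E_sum]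
  refine P.E_le_const fun w _ => ?_
  exact GhoM.last_exc (a := fun s => P.ce (fun w => (B w, C w)) (fun y => ind (A s y)) w)
    (fun s => P.ce_nonneg (fun _ _ => ind_nonneg _) w) (X := fun s => DDs P B C A s w ≤ d) d0 (fun s h => h) T

end lev

/-! ## the class mass in the mean over the lists -/

section coin

variable {Om Xi : Type*} [Fintype Om] [Fintype Xi] {P : FP Om} {Q : FP Xi} {κ : Type*}

/-- the coin is exact -/
theorem ce_coin (X : Om → κ) (F : Om × Xi → ℝ) {w : Om × Xi} (hw : Q.p w.2 ≠ 0) :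
    (FP.pr P Q).ce (fun v => (X v.1, v.2)) F w = P.ce X (fun v => F (v, w.2)) w.1 := by
  classical
  have e0 : ∀ g : Xi → ℝ, Q.E (fun t => ind (t = w.2) * g t) = Q.p w.2 * g w.2 := by
    intro g
    unfold FP.E
    rw [Finset.sum_eq_single w.2]
    · show Q.p w.2 * (ind (w.2 = w.2) * g w.2) = _
      rw [ind_of rfl, one_mul]
    · intro b _ hb
      show Q.p b * (ind (b = w.2) * g b) = 0
      rw [ind_not hb, zero_mul, mul_zero]
    · intro hh
      exact absurd (mem_univ _) hh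
  have e1 : ∀ G : Om × Xi → ℝ, (FP.pr P Q).E (fun v => ind ((X v.1, v.2) = (X w.1, w.2)) * G v) =
      Q.p w.2 * P.E (fun v => ind (X v = X w.1) * G (v, w.2)) := by
    intro G
    rw [FP.pr_E, ← P.E_smul]
    refine P.E_congr fun v _ => ?_
    have e2 : Q.E (fun t => ind ((X v, t) = (X w.1, w.2)) * G (v, t)) =
        Q.E (fun t => ind (t = w.2) * (ind (X v = X w.1) * G (v, t))) := by
      refine Q.E_congr fun t _ => ?_
      rw [show ((X v, t) = (X w.1, w.2)) = (X v = X w.1 ∧ t = w.2) from by rw [Prod.mk.injEq], ind_and]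
      ring
    show Q.E (fun t => ind ((X v, t) = (X w.1, w.2)) * G (v, t)) = _
    rw [e2, e0]
  have e3 : (FP.pr P Q).m (fun v => (X v.1, v.2)) w = Q.p w.2 * P.m X w.1 := by
    have h := e1 fun _ => 1
    have h1 : (FP.pr P Q).E (fun v => ind ((X v.1, v.2) = (X w.1, w.2)) * (fun _ => (1 : ℝ)) v) =
        (FP.pr P Q).m (fun v => (X v.1, v.2)) w := (FP.pr P Q).E_congr fun v _ => mul_one _
    have h2 : P.E (fun v => ind (X v = X w.1) * (fun _ => (1 : ℝ)) (v, w.2)) = P.m X w.1 :=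
      P.E_congr fun v _ => mul_one _
    rw [← h1, ← h2]
    exact h
  unfold FP.ce
  rw [e3, show (FP.pr P Q).E (fun v => ind ((X v.1, v.2) = (X w.1, w.2)) * F v) = _ from e1 F, mul_div_mul_left _ _ hw]

end coin

section cls

open Pool.Agent.GMH.GdyR (ok covL bad bad_le covL_facV bad_facV)

variable {Om Xi : Type*} [Fintype Om] [Fintype Xi] {P : FP Om} {Q : FP Xi} {κ : ℕ → Type*} {cV : ∀ t, Om → κ t}
  {α β δ Rw : Type*} [Fintype β] [Fintype δ] [Fintype Rw] {B : Om → α} {C : Om → β} {D : Om → δ}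
  {A : ℕ → Om → Prop} {Gr : α → β → Rw → δ → Prop} {ps : α → β → Rw → δ → ℝ} {mr : α → β → FP Rw}
  {row : α → β → Xi → Rw} {lam mu0 L g kap mu : ℝ} {K M T : ℕ}

variable (B D Gr row) in
/-- section of the foreign row `a` = (point, coin) -/
def secH (_ : ℕ) (a : β × Xi) (v : Om) : Prop := Gr (B v) a.1 (row (B v) a.1 a.2) (D v)

variable (B D ps row) in
/-- weight of the foreign row -/
def wtH (a : β × Xi) (v : Om) : ℝ := ps (B v) a.1 (row (B v) a.1 a.2) (D v)

variable (P cV B D Gr ps row lam mu0 K) in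
/-- the cover by the list `x` -/
def CvH (x : Fin M → β × Xi) (s : ℕ) : Om → Prop := covL P cV (secH B D Gr row) (wtH B D ps row) mu0 lam K x s

theorem secH_fac (s : ℕ) (a : β × Xi) (v w : Om) (e : (B v, D v) = (B w, D w)) :
    secH B D Gr row s a v ↔ secH B D Gr row s a w := by
  have e' : B v = B w ∧ D v = D w := Prod.mk.injEq _ _ _ _ ▸ e
  unfold secH
  rw [e'.1, e'.2]

theorem wtH_fac (a : β × Xi) : Fac (fun w => (B w, D w)) (wtH B D ps row a) := fun v w e => by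
  have e' : B v = B w ∧ D v = D w := Prod.mk.injEq _ _ _ _ ▸ e
  unfold wtH
  rw [e'.1, e'.2]

variable (P Q C) in
/-- law of the foreign rows -/
def qH (a : β × Xi) : ℝ := P.Pr (fun w => C w = a.1) * Q.p a.2

theorem qH_nn (a : β × Xi) : 0 ≤ qH P Q C a := mul_nonneg (P.Pr_nonneg _) (Q.nn _)

theorem qH_one : ∑ a, qH P Q C a = 1 := by
  rw [Fintype.sum_prod_type]
  unfold qH
  have e1 : ∀ c : β, ∑ t : Xi, P.Pr (fun w => C w = c) * Q.p t = P.Pr (fun w => C w = c) := fun c => by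
    rw [← Finset.mul_sum, Q.tot, mul_one]
  rw [Finset.sum_congr rfl fun c _ => e1 c]
  exact sum_Pr_eq C

/-- the own row as a foreign row: bad rows in the mean over the lists -/
theorem bad_row (hI : P.Indep C (fun w => (B w, D w))) (hV : ∀ s, Fac (fun w => (B w, D w)) (cV s)) (fV : Filt cV)
    (hK : 1 < mu0 * K) (m0 : 0 < mu0) :
    ∑ x : Fin M → β × Xi, sw (qH P Q C) x * (FP.pr P Q).Pr (fun w => bad P cV (secH B D Gr row) (wtH B D ps row) mu0 lam
      K x (C w.1, w.2) T w.1) ≤ 1 / (mu0 * (M + 1)) := by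
  refine le_trans (le_of_eq ?_) (bad_le (P := P) (X := cV) (H := secH B D Gr row) (f := wtH B D ps row) (kap := mu0)
    (lam := lam) (K := K) fV hK m0 (q := qH P Q C) qH_nn qH_one M T)
  refine Finset.sum_congr rfl fun x _ => ?_
  congr 1
  have e1 : (FP.pr P Q).Pr (fun w => bad P cV (secH B D Gr row) (wtH B D ps row) mu0 lam K x (C w.1, w.2) T w.1) =
      Q.E (fun t => P.Pr (fun w => bad P cV (secH B D Gr row) (wtH B D ps row) mu0 lam K x (C w, t) T w)) := by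
    unfold FP.Pr
    rw [FP.pr_E]
    unfold FP.E
    rw [show (∑ w, P.p w * ∑ t, Q.p t * ind (bad P cV (secH B D Gr row) (wtH B D ps row) mu0 lam K x (C w, t) T w)) =
      ∑ w, ∑ t, P.p w * (Q.p t * ind (bad P cV (secH B D Gr row) (wtH B D ps row) mu0 lam K x (C w, t) T w)) from
        Finset.sum_congr rfl fun w _ => Finset.mul_sum _ _ _, Finset.sum_comm]
    refine Finset.sum_congr rfl fun t _ => ?_
    rw [Finset.mul_sum]
    exact Finset.sum_congr rfl fun w _ => by ring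
  rw [e1, Fintype.sum_prod_type]
  have e2 : ∀ t, P.Pr (fun w => bad P cV (secH B D Gr row) (wtH B D ps row) mu0 lam K x (C w, t) T w) =
      ∑ c, P.Pr (fun w => C w = c) * P.Pr (bad P cV (secH B D Gr row) (wtH B D ps row) mu0 lam K x (c, t) T) :=
    fun t => Pr_frz hI (fun c w => bad P cV (secH B D Gr row) (wtH B D ps row) mu0 lam K x (c, t) T w)
      fun c v w h => bad_facV hV (c, t) T v w h
  rw [show (fun t => P.Pr (fun w => bad P cV (secH B D Gr row) (wtH B D ps row) mu0 lam K x (C w, t) T w)) = _ from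
    funext e2]
  unfold FP.E
  rw [show (∑ t, Q.p t * ∑ c, P.Pr (fun w => C w = c) *
      P.Pr (bad P cV (secH B D Gr row) (wtH B D ps row) mu0 lam K x (c, t) T)) = ∑ t, ∑ c, Q.p t *
      (P.Pr (fun w => C w = c) * P.Pr (bad P cV (secH B D Gr row) (wtH B D ps row) mu0 lam K x (c, t) T)) from
        Finset.sum_congr rfl fun t _ => Finset.mul_sum _ _ _, Finset.sum_comm]
  exact Finset.sum_congr rfl fun c _ => Finset.sum_congr rfl fun t _ => by
    show _ = P.Pr (fun w => C w = c) * Q.p t * _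
    ring

variable {Cv : ℕ → Om → Prop}

theorem ms_lift (s : ℕ) {w : Om × Xi} (hw : Q.p w.2 ≠ 0) :
    GhoM.ms (FP.pr P Q) (fun v => ((B v.1, C v.1), v.2)) (fun i v => A i v.1) (fun i v => Cv i v.1)
      (fun v => Gr (B v.1) (C v.1) (row (B v.1) (C v.1) v.2) (D v.1)) s w =
      mR P B C D A Cv Gr s (row (B w.1) (C w.1) w.2) w.1 := by
  unfold GhoM.ms mR
  refine Finset.sum_congr rfl fun i _ => ?_
  rw [show (FP.pr P Q).ce (fun v => ((B v.1, C v.1), v.2)) (fun x => ind (A i x.1 ∧ ¬ Cv i x.1 ∧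
      Gr (B x.1) (C x.1) (row (B x.1) (C x.1) x.2) (D x.1))) w = _ from ce_coin (P := P) (fun w => (B w, C w)) _ hw]
  refine ce_congr_on fun v _ e => ?_
  have e' : B v = B w.1 ∧ C v = C w.1 := Prod.mk.injEq _ _ _ _ ▸ e
  show ind (A i v ∧ ¬ Cv i v ∧ Gr (B v) (C v) (row (B v) (C v) w.2) (D v)) = _
  rw [e'.1, e'.2]

theorem Ss_lift (s : ℕ) {w : Om × Xi} (hw : Q.p w.2 ≠ 0) :
    GhoM.Ss (FP.pr P Q) (fun v => ((B v.1, C v.1), v.2)) (fun i v => A i v.1) (fun i v => Cv i v.1)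
      (fun v => ind (Gr (B v.1) (C v.1) (row (B v.1) (C v.1) v.2) (D v.1)) *
        ps (B v.1) (C v.1) (row (B v.1) (C v.1) v.2) (D v.1)) s w =
      sR P B C D A Cv Gr ps s (row (B w.1) (C w.1) w.2) w.1 := by
  unfold GhoM.Ss sR
  refine Finset.sum_congr rfl fun i _ => ?_
  rw [show (FP.pr P Q).ce (fun v => ((B v.1, C v.1), v.2)) (fun x => ind (A i x.1 ∧ ¬ Cv i x.1) *
      (ind (Gr (B x.1) (C x.1) (row (B x.1) (C x.1) x.2) (D x.1)) *
        ps (B x.1) (C x.1) (row (B x.1) (C x.1) x.2) (D x.1))) w = _ from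
      ce_coin (P := P) (fun w => (B w, C w)) _ hw]
  refine ce_congr_on fun v _ e => ?_
  have e' : B v = B w.1 ∧ C v = C w.1 := Prod.mk.injEq _ _ _ _ ▸ e
  show ind (A i v ∧ ¬ Cv i v) * (ind (Gr (B v) (C v) (row (B v) (C v) w.2) (D v)) *
    ps (B v) (C v) (row (B v) (C v) w.2) (D v)) = _
  rw [e'.1, e'.2]

theorem Ds_lift (s : ℕ) {w : Om × Xi} (hw : Q.p w.2 ≠ 0) :
    GhoM.Ds (FP.pr P Q) (fun v => ((B v.1, C v.1), v.2)) (fun i v => A i v.1) s w = DDs P B C A s w.1 := by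
  unfold GhoM.Ds DDs
  refine Finset.sum_congr rfl fun i _ => ?_
  exact ce_coin (P := P) (fun w => (B w, C w)) (fun x => ind (A i x.1)) hw

theorem lhs_lift (hmr : ∀ b c (S : Rw → Prop), (mr b c).Pr S = Q.Pr (fun t => S (row b c t))) (s : ℕ)
    {Ep : Om → Rw → Prop} (hEp : ∀ ρ v w, (B v, C v) = (B w, C w) → (Ep v ρ ↔ Ep w ρ)) :
    (FP.pr P Q).Pr (fun w => A s w.1 ∧ mu < (FP.pr P Q).ce (fun v => (B v.1, C v.1))
      (fun v => ind (Ep v.1 (row (B v.1) (C v.1) v.2))) w) =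
      P.Pr (fun w => A s w ∧ mu < (mr (B w) (C w)).Pr (Ep w)) := by
  have e1 : ∀ w : Om × Xi, P.p w.1 ≠ 0 → (FP.pr P Q).ce (fun v => (B v.1, C v.1))
      (fun v => ind (Ep v.1 (row (B v.1) (C v.1) v.2))) w = (mr (B w.1) (C w.1)).Pr (Ep w.1) := by
    intro w hw
    rw [lift_ce' P Q (fun w => (B w, C w)) (fun v => ind (Ep v.1 (row (B v.1) (C v.1) v.2))) w]
    have hf : Fac (fun w => (B w, C w)) (fun v => (mr (B v) (C v)).Pr (Ep v)) := fun v v' e => by
      have e' : B v = B v' ∧ C v = C v' := Prod.mk.injEq _ _ _ _ ▸ e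
      show (mr (B v) (C v)).Pr (Ep v) = (mr (B v') (C v')).Pr (Ep v')
      rw [e'.1, e'.2, show Ep v = Ep v' from funext fun ρ => propext (hEp ρ v v' e)]
    rw [← P.ce_of_fac hf hw]
    refine P.ce_congr (fun v _ => ?_) w.1
    rw [hmr]
    rfl
  have e2 : (FP.pr P Q).Pr (fun w => A s w.1 ∧ mu < (FP.pr P Q).ce (fun v => (B v.1, C v.1))
      (fun v => ind (Ep v.1 (row (B v.1) (C v.1) v.2))) w) =
      (FP.pr P Q).Pr (fun w => A s w.1 ∧ mu < (mr (B w.1) (C w.1)).Pr (Ep w.1)) := by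
    refine (FP.pr P Q).E_congr fun w hw => ?_
    show ind (A s w.1 ∧ mu < (FP.pr P Q).ce (fun v => (B v.1, C v.1))
      (fun v => ind (Ep v.1 (row (B v.1) (C v.1) v.2))) w) =
      ind (A s w.1 ∧ mu < (mr (B w.1) (C w.1)).Pr (Ep w.1))
    rw [e1 w ((pr_supp P Q).1 hw).1]
  rw [e2]
  exact lift_Pr P Q fun w => A s w ∧ mu < (mr (B w) (C w)).Pr (Ep w)

theorem DDs_fac (s : ℕ) (v w : Om) (e : (B v, C v) = (B w, C w)) : DDs P B C A s v = DDs P B C A s w := by
  unfold DDs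
  exact Finset.sum_congr rfl fun i _ => P.ce_fac (fun w => (B w, C w)) (fun y => ind (A i y)) v w e

theorem mR_fac (s : ℕ) (ρ : Rw) (v w : Om) (e : (B v, C v) = (B w, C w)) :
    mR P B C D A Cv Gr s ρ v = mR P B C D A Cv Gr s ρ w := by
  unfold mR
  exact Finset.sum_congr rfl fun i _ => P.ce_fac (fun w => (B w, C w))
    (fun y => ind (A i y ∧ ¬ Cv i y ∧ Gr (B y) (C y) ρ (D y))) v w e

theorem sR_fac (s : ℕ) (ρ : Rw) (v w : Om) (e : (B v, C v) = (B w, C w)) :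
    sR P B C D A Cv Gr ps s ρ v = sR P B C D A Cv Gr ps s ρ w := by
  unfold sR
  exact Finset.sum_congr rfl fun i _ => P.ce_fac (fun w => (B w, C w))
    (fun y => ind (A i y ∧ ¬ Cv i y) * (ind (Gr (B y) (C y) ρ (D y)) * ps (B y) (C y) ρ (D y))) v w e

/-- what a row which is not bad says at the level `i` -/
theorem not_ok (hI : P.Indep C (fun w => (B w, D w))) (hV : ∀ s, Fac (fun w => (B w, D w)) (cV s))
    (L0 : 0 ≤ L) (l0 : 0 ≤ lam) (m0 : 0 ≤ mu0) (hL : ∀ b c ρ d, ps b c ρ d ≤ L) (x : Fin M → β × Xi) (i : ℕ)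
    {w : Om × Xi} (hw : P.p w.1 ≠ 0) (hw2 : Q.p w.2 ≠ 0)
    (hb : ¬ ok P cV mu0 lam i (fun z => secH B D Gr row i (C w.1, w.2) z ∧
      ¬ CvH P cV B D Gr ps row lam mu0 K x i z) (wtH B D ps row (C w.1, w.2)) w.1) :
    (FP.pr P Q).ce (fun v => ((C v.1, cV i v.1), v.2)) (fun v => ind (Gr (B v.1) (C v.1) (row (B v.1) (C v.1) v.2)
      (D v.1) ∧ ¬ CvH P cV B D Gr ps row lam mu0 K x i v.1) *
      (ind (Gr (B v.1) (C v.1) (row (B v.1) (C v.1) v.2) (D v.1)) *
        ps (B v.1) (C v.1) (row (B v.1) (C v.1) v.2) (D v.1))) w ≤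
      lam * (FP.pr P Q).ce (fun v => ((C v.1, cV i v.1), v.2)) (fun v => ind (Gr (B v.1) (C v.1)
        (row (B v.1) (C v.1) v.2) (D v.1) ∧ ¬ CvH P cV B D Gr ps row lam mu0 K x i v.1)) w + L * mu0 := by
  set S : β → Om → Prop := fun c v => secH B D Gr row i (c, w.2) v ∧ ¬ CvH P cV B D Gr ps row lam mu0 K x i v with hS
  have hSf : ∀ c, Fac (fun w => (B w, D w)) (fun v => ind (S c v)) := fun c => Fac.ind fun v v' e => by
    show (secH B D Gr row i (c, w.2) v ∧ ¬ CvH P cV B D Gr ps row lam mu0 K x i v) ↔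
      (secH B D Gr row i (c, w.2) v' ∧ ¬ CvH P cV B D Gr ps row lam mu0 K x i v')
    rw [secH_fac i (c, w.2) v v' e, show CvH P cV B D Gr ps row lam mu0 K x i v ↔
      CvH P cV B D Gr ps row lam mu0 K x i v' from
        covL_facV hV (fun s a v w e => secH_fac s a v w e) i v v' e]
  have hWf : ∀ c, Fac (fun w => (B w, D w)) (fun v => ind (S c v) * wtH B D ps row (c, w.2) v) := fun c =>
    (hSf c).mul (wtH_fac (c, w.2))
  have e1 := ce_coin (P := P) (Q := Q) (fun v => (C v, cV i v)) (fun v => ind (Gr (B v.1) (C v.1)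
      (row (B v.1) (C v.1) v.2) (D v.1) ∧ ¬ CvH P cV B D Gr ps row lam mu0 K x i v.1) *
      (ind (Gr (B v.1) (C v.1) (row (B v.1) (C v.1) v.2) (D v.1)) *
        ps (B v.1) (C v.1) (row (B v.1) (C v.1) v.2) (D v.1))) hw2
  have e2 := ce_coin (P := P) (Q := Q) (fun v => (C v, cV i v)) (fun v => ind (Gr (B v.1) (C v.1)
      (row (B v.1) (C v.1) v.2) (D v.1) ∧ ¬ CvH P cV B D Gr ps row lam mu0 K x i v.1)) hw2
  rw [e1, e2]
  have e3 : P.ce (fun v => (C v, cV i v)) (fun v => ind (Gr (B v) (C v) (row (B v) (C v) w.2) (D v) ∧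
      ¬ CvH P cV B D Gr ps row lam mu0 K x i v) * (ind (Gr (B v) (C v) (row (B v) (C v) w.2) (D v)) *
        ps (B v) (C v) (row (B v) (C v) w.2) (D v))) w.1 =
      P.ce (cV i) (fun v => ind (S (C w.1) v) * wtH B D ps row (C w.1, w.2) v) w.1 := by
    rw [← GhoZ.freezeV (U := C) hI (hV i) (F := fun c v => ind (S c v) * wtH B D ps row (c, w.2) v) hWf hw]
    refine P.ce_congr (fun v _ => ?_) w.1
    show ind (Gr (B v) (C v) (row (B v) (C v) w.2) (D v) ∧ ¬ CvH P cV B D Gr ps row lam mu0 K x i v) *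
      (ind (Gr (B v) (C v) (row (B v) (C v) w.2) (D v)) * ps (B v) (C v) (row (B v) (C v) w.2) (D v)) =
      ind (Gr (B v) (C v) (row (B v) (C v) w.2) (D v) ∧ ¬ CvH P cV B D Gr ps row lam mu0 K x i v) *
        ps (B v) (C v) (row (B v) (C v) w.2) (D v)
    by_cases h : Gr (B v) (C v) (row (B v) (C v) w.2) (D v)
    · rw [ind_of h, one_mul]
    · rw [ind_not (fun h' => h h'.1 : ¬ (Gr (B v) (C v) (row (B v) (C v) w.2) (D v) ∧
        ¬ CvH P cV B D Gr ps row lam mu0 K x i v)), zero_mul, zero_mul]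
  have e4 : P.ce (fun v => (C v, cV i v)) (fun v => ind (Gr (B v) (C v) (row (B v) (C v) w.2) (D v) ∧
      ¬ CvH P cV B D Gr ps row lam mu0 K x i v)) w.1 = P.ce (cV i) (fun v => ind (S (C w.1) v)) w.1 := by
    rw [← GhoZ.freezeV (U := C) hI (hV i) (F := fun c v => ind (S c v)) hSf hw]
    rfl
  show P.ce (fun v => (C v, cV i v)) (fun v => ind (Gr (B v) (C v) (row (B v) (C v) w.2) (D v) ∧
      ¬ CvH P cV B D Gr ps row lam mu0 K x i v) * (ind (Gr (B v) (C v) (row (B v) (C v) w.2) (D v)) *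
        ps (B v) (C v) (row (B v) (C v) w.2) (D v))) w.1 ≤ lam * P.ce (fun v => (C v, cV i v)) (fun v =>
      ind (Gr (B v) (C v) (row (B v) (C v) w.2) (D v) ∧ ¬ CvH P cV B D Gr ps row lam mu0 K x i v)) w.1 + L * mu0
  rw [e3, e4]
  have c0 : 0 ≤ P.ce (cV i) (fun v => ind (S (C w.1) v)) w.1 := P.ce_nonneg (fun _ _ => ind_nonneg _) _
  by_cases h2 : mu0 ≤ cp P cV i (S (C w.1)) w.1
  · have h3 : P.ce (cV i) (fun v => ind (S (C w.1) v) * wtH B D ps row (C w.1, w.2) v) w.1 <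
        lam * cp P cV i (S (C w.1)) w.1 := not_le.1 fun h => hb ⟨h2, h⟩
    have h4 : cp P cV i (S (C w.1)) w.1 = P.ce (cV i) (fun v => ind (S (C w.1) v)) w.1 := rfl
    rw [h4] at h3
    have := mul_nonneg L0 m0
    linarith
  · have h3 : P.ce (cV i) (fun v => ind (S (C w.1) v) * wtH B D ps row (C w.1, w.2) v) w.1 ≤
        L * P.ce (cV i) (fun v => ind (S (C w.1) v)) w.1 := by
      rw [← P.ce_smul]
      refine P.ce_mono (fun v _ => ?_) w.1
      rw [mul_comm]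
      exact mul_le_mul_of_nonneg_right (hL _ _ _ _) (ind_nonneg _)
    have h4 := mul_le_mul_of_nonneg_left (show P.ce (cV i) (fun v => ind (S (C w.1) v)) w.1 ≤ mu0 from
      (not_le.1 h2).le) L0
    have := mul_nonneg l0 c0
    linarith

theorem hit_le (x : Fin M → β × Xi) :
    (FP.pr P Q).Pr (fun w => ∃ i < T, A i w.1 ∧ ok P cV mu0 lam i (fun z => secH B D Gr row i (C w.1, w.2) z ∧
      ¬ CvH P cV B D Gr ps row lam mu0 K x i z) (wtH B D ps row (C w.1, w.2)) w.1) ≤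
      (FP.pr P Q).Pr (fun w => bad P cV (secH B D Gr row) (wtH B D ps row) mu0 lam K x (C w.1, w.2) T w.1) :=
  (FP.pr P Q).Pr_mono fun _ _ ⟨i, hi, _, h⟩ => ⟨i, hi, h⟩

/-- **THE CLASS MASS FOR ONE LIST**, signed -/
theorem cls_list (hI : P.Indep C (fun w => (B w, D w))) (hV : ∀ s, Fac (fun w => (B w, D w)) (cV s))
    (hB : ∀ s, Fac (cV s) B) (hA : ∀ i x w, C x = C w → cV i x = cV i w → (A i x ↔ A i w))
    (A1 : ∀ w i j, A i w → A j w → i = j)
    (hmr : ∀ b c (S : Rw → Prop), (mr b c).Pr S = Q.Pr (fun t => S (row b c t)))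
    (L0 : 0 < L) (l0 : 0 ≤ lam) (m0 : 0 ≤ mu0) (k0 : 0 < kap) (u0 : 0 < mu) (hg : L * (mu0 + kap) ≤ lam * g / 2)
    (hL : ∀ b c ρ d, ps b c ρ d ≤ L) (x : Fin M → β × Xi) :
    ∑ s ∈ range T, P.Pr (fun w => A s w ∧
      mu < cmS P B C D A (CvH P cV B D Gr ps row lam mu0 K x) mr Gr ps lam g s w) ≤
      (FP.pr P Q).Pr (fun w => bad P cV (secH B D Gr row) (wtH B D ps row) mu0 lam K x (C w.1, w.2) T w.1) /
        (kap * mu) := by
  set Cx := CvH P cV B D Gr ps row lam mu0 K x with hCx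
  have hx2 : ∀ (v w : Om × Xi), ((C v.1, cV 0 v.1), v.2) = ((C v.1, cV 0 v.1), v.2) := fun _ _ => rfl
  have h := GhoM.cls_le (P := FP.pr P Q) (Z := fun v => (B v.1, C v.1)) (Zx := fun v => ((B v.1, C v.1), v.2))
    (Y := fun i v => ((C v.1, cV i v.1), v.2)) (A := fun i v => A i v.1) (Cv := fun i v => Cx i v.1)
    (V := fun i w => ok P cV mu0 lam i (fun z => secH B D Gr row i (C w.1, w.2) z ∧ ¬ Cx i z)
      (wtH B D ps row (C w.1, w.2)) w.1)
    (N := fun v => Gr (B v.1) (C v.1) (row (B v.1) (C v.1) v.2) (D v.1))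
    (ψ := fun v => ind (Gr (B v.1) (C v.1) (row (B v.1) (C v.1) v.2) (D v.1)) *
        ps (B v.1) (C v.1) (row (B v.1) (C v.1) v.2) (D v.1))
    (lam := lam) (mu0 := mu0) (L := L) (g := g) (kap := kap) (mu := mu) (T := T)
    (E := fun s v => 3 / 2 * (lam * mR P B C D A Cx Gr s (row (B v.1) (C v.1) v.2) v.1) <
        sR P B C D A Cx Gr ps s (row (B v.1) (C v.1) v.2) v.1 ∧
        g * DDs P B C A s v.1 ≤ mR P B C D A Cx Gr s (row (B v.1) (C v.1) v.2) v.1 ∧ Q.p v.2 ≠ 0)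
    (fun v w e => by
      have e' : (B v.1, C v.1) = (B w.1, C w.1) ∧ v.2 = w.2 := Prod.mk.injEq _ _ _ _ ▸ e
      exact e'.1)
    (fun i v w e => by
      have e' : (C v.1, cV i v.1) = (C w.1, cV i w.1) ∧ v.2 = w.2 := Prod.mk.injEq _ _ _ _ ▸ e
      have e2 : C v.1 = C w.1 ∧ cV i v.1 = cV i w.1 := Prod.mk.injEq _ _ _ _ ▸ e'.1
      show ((B v.1, C v.1), v.2) = ((B w.1, C w.1), w.2)
      rw [hB i v.1 w.1 e2.2, e2.1, e'.2])
    (fun i v w e => by
      have e' : (C v.1, cV i v.1) = (C w.1, cV i w.1) ∧ v.2 = w.2 := Prod.mk.injEq _ _ _ _ ▸ e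
      have e2 : C v.1 = C w.1 ∧ cV i v.1 = cV i w.1 := Prod.mk.injEq _ _ _ _ ▸ e'.1
      exact hA i v.1 w.1 e2.1 e2.2)
    (fun i v w e => by
      have e' : (C v.1, cV i v.1) = (C w.1, cV i w.1) ∧ v.2 = w.2 := Prod.mk.injEq _ _ _ _ ▸ e
      have e2 : C v.1 = C w.1 ∧ cV i v.1 = cV i w.1 := Prod.mk.injEq _ _ _ _ ▸ e'.1
      show ok P cV mu0 lam i (fun z => secH B D Gr row i (C v.1, v.2) z ∧ ¬ Cx i z) (wtH B D ps row (C v.1, v.2)) v.1 ↔
        ok P cV mu0 lam i (fun z => secH B D Gr row i (C w.1, w.2) z ∧ ¬ Cx i z) (wtH B D ps row (C w.1, w.2)) w.1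
      rw [e2.1, e'.2]
      exact GdyR.ok_fac _ _ e2.2)
    l0 m0 L0 k0 u0 hg
    (fun w _ => by
      show ind _ * _ ≤ L
      have h1 := mul_le_mul_of_nonneg_left (hL (B w.1) (C w.1) (row (B w.1) (C w.1) w.2) (D w.1))
        (ind_nonneg (Gr (B w.1) (C w.1) (row (B w.1) (C w.1) w.2) (D w.1)))
      have h2 := mul_le_mul_of_nonneg_right (ind_le_one (Gr (B w.1) (C w.1) (row (B w.1) (C w.1) w.2) (D w.1))) L0.le
      linarith)
    (fun w _ hn => by
      show ind _ * _ = 0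
      rw [ind_not hn, zero_mul])
    (fun w i j => A1 w.1 i j)
    (fun i w hw => by
      have hw' := (pr_supp P Q).1 hw
      rw [show (FP.pr P Q).ce (fun v => ((B v.1, C v.1), v.2)) (fun x => ind (A i x.1)) w = _ from
        ce_coin (P := P) (fun w => (B w, C w)) (fun x => ind (A i x.1)) hw'.2]
      exact (lift_ce P Q (fun w => (B w, C w)) (fun y => ind (A i y)) w).symm)
    (fun i _ w hw _ hb => by
      have hw' := (pr_supp P Q).1 hw
      exact not_ok hI hV L0.le l0 m0 hL x i hw'.1 hw'.2 hb)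
    (fun s _ w hw hE => by
      have hw' := (pr_supp P Q).1 hw
      unfold GhoM.hvy
      rw [ms_lift s hw'.2, Ss_lift s hw'.2, Ds_lift s hw'.2]
      exact ⟨hE.1, hE.2.1⟩)
  refine le_trans ?_ (h.trans ?_)
  · refine Finset.sum_le_sum fun s _ => le_of_eq ?_
    have e1 := lhs_lift (P := P) (Q := Q) (A := A) (mu := mu) (row := row) hmr s (Ep := fun v ρ =>
      3 / 2 * (lam * mR P B C D A Cx Gr s ρ v) < sR P B C D A Cx Gr ps s ρ v ∧
        g * DDs P B C A s v ≤ mR P B C D A Cx Gr s ρ v) (fun ρ v w e => by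
        rw [mR_fac s ρ v w e, sR_fac s ρ v w e, DDs_fac s v w e])
    unfold cmS
    rw [← e1]
    refine (FP.pr P Q).E_congr fun w _ => ?_
    have e2 : (FP.pr P Q).ce (fun v => (B v.1, C v.1)) (fun v => ind (3 / 2 * (lam * mR P B C D A Cx Gr s
        (row (B v.1) (C v.1) v.2) v.1) < sR P B C D A Cx Gr ps s (row (B v.1) (C v.1) v.2) v.1 ∧
        g * DDs P B C A s v.1 ≤ mR P B C D A Cx Gr s (row (B v.1) (C v.1) v.2) v.1)) w =
        (FP.pr P Q).ce (fun v => (B v.1, C v.1)) (fun v => ind (3 / 2 * (lam * mR P B C D A Cx Gr s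
        (row (B v.1) (C v.1) v.2) v.1) < sR P B C D A Cx Gr ps s (row (B v.1) (C v.1) v.2) v.1 ∧
        g * DDs P B C A s v.1 ≤ mR P B C D A Cx Gr s (row (B v.1) (C v.1) v.2) v.1 ∧ Q.p v.2 ≠ 0)) w := by
      refine (FP.pr P Q).ce_congr (fun v hv => ?_) w
      have hv' := ((pr_supp P Q).1 hv).2
      congr 1
      exact propext ⟨fun ⟨a, b⟩ => ⟨a, b, hv'⟩, fun ⟨a, b, _⟩ => ⟨a, b⟩⟩
    show ind (A s w.1 ∧ mu < _) = ind (A s w.1 ∧ mu < _)
    rw [e2]
  · have hk : 0 < kap * mu := mul_pos k0 u0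
    exact div_le_div_of_nonneg_right (hit_le x) hk.le

/-- **THE CLASS MASS IN THE MEAN OVER THE LISTS**, signed -/
theorem cls_mean (hI : P.Indep C (fun w => (B w, D w))) (hV : ∀ s, Fac (fun w => (B w, D w)) (cV s)) (fV : Filt cV)
    (hB : ∀ s, Fac (cV s) B) (hA : ∀ i x w, C x = C w → cV i x = cV i w → (A i x ↔ A i w))
    (A1 : ∀ w i j, A i w → A j w → i = j)
    (hmr : ∀ b c (S : Rw → Prop), (mr b c).Pr S = Q.Pr (fun t => S (row b c t)))
    (L0 : 0 < L) (l0 : 0 ≤ lam) (m0 : 0 < mu0) (hK : 1 < mu0 * K) (k0 : 0 < kap) (u0 : 0 < mu)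
    (hg : L * (mu0 + kap) ≤ lam * g / 2) (hL : ∀ b c ρ d, ps b c ρ d ≤ L) :
    ∑ x : Fin M → β × Xi, sw (qH P Q C) x * ∑ s ∈ range T, P.Pr (fun w => A s w ∧
      mu < cmS P B C D A (CvH P cV B D Gr ps row lam mu0 K x) mr Gr ps lam g s w) ≤
      1 / (mu0 * (M + 1)) / (kap * mu) := by
  have hk : 0 < kap * mu := mul_pos k0 u0
  have h1 := bad_row (P := P) (Q := Q) (Gr := Gr) (ps := ps) (row := row) (lam := lam) (M := M) (T := T) hI hV fV hK m0
  refine le_trans (Finset.sum_le_sum fun x _ => mul_le_mul_of_nonneg_left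
    (cls_list (K := K) hI hV hB hA A1 hmr L0 l0 m0.le k0 u0 hg hL x) (sw_nonneg qH_nn x)) ?_
  rw [show (∑ x : Fin M → β × Xi, sw (qH P Q C) x * ((FP.pr P Q).Pr (fun w => bad P cV (secH B D Gr row)
    (wtH B D ps row) mu0 lam K x (C w.1, w.2) T w.1) / (kap * mu))) = (∑ x : Fin M → β × Xi, sw (qH P Q C) x *
    (FP.pr P Q).Pr (fun w => bad P cV (secH B D Gr row) (wtH B D ps row) mu0 lam K x (C w.1, w.2) T w.1)) /
      (kap * mu) from by
      rw [Finset.sum_div]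
      exact Finset.sum_congr rfl fun x _ => (mul_div_assoc _ _ _).symm]
  exact div_le_div_of_nonneg_right h1 hk.le

/-! ### unsigned -/

/-- weight one -/
def one4 (_ : α) (_ : β) (_ : Rw) (_ : δ) : ℝ := 1

theorem Ss_lift_one (s : ℕ) {w : Om × Xi} (hw : Q.p w.2 ≠ 0) :
    GhoM.Ss (FP.pr P Q) (fun v => ((B v.1, C v.1), v.2)) (fun i v => A i v.1) (fun i v => Cv i v.1)
      (fun v => ind (Gr (B v.1) (C v.1) (row (B v.1) (C v.1) v.2) (D v.1))) s w =
      mR P B C D A Cv Gr s (row (B w.1) (C w.1) w.2) w.1 := by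
  rw [← ms_lift (P := P) (Q := Q) (A := A) (Cv := Cv) (Gr := Gr) (row := row) s hw]
  unfold GhoM.ms GhoM.Ss
  refine Finset.sum_congr rfl fun i _ => (FP.pr P Q).ce_congr (fun v _ => ?_) w
  rw [← ind_and]
  congr 1
  exact propext ⟨fun ⟨⟨a, b⟩, c⟩ => ⟨a, b, c⟩, fun ⟨a, b, c⟩ => ⟨⟨a, b⟩, c⟩⟩

/-- **THE CLASS MASS FOR ONE LIST**, unsigned -/
theorem cls_list_uns (hI : P.Indep C (fun w => (B w, D w))) (hV : ∀ s, Fac (fun w => (B w, D w)) (cV s))
    (hB : ∀ s, Fac (cV s) B) (hA : ∀ i x w, C x = C w → cV i x = cV i w → (A i x ↔ A i w))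
    (A1 : ∀ w i j, A i w → A j w → i = j)
    (hmr : ∀ b c (S : Rw → Prop), (mr b c).Pr S = Q.Pr (fun t => S (row b c t)))
    (m0 : 0 ≤ mu0) (k0 : 0 < kap) (u0 : 0 < mu) (hg : mu0 + kap ≤ g) (x : Fin M → β × Xi) :
    ∑ s ∈ range T, P.Pr (fun w => A s w ∧
      mu < cmU P B C D A (CvH P cV B D Gr one4 row 1 mu0 K x) mr Gr g s w) ≤
      (FP.pr P Q).Pr (fun w => bad P cV (secH B D Gr row) (wtH B D one4 row) mu0 1 K x (C w.1, w.2) T w.1) /
        (kap * mu) := by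
  set Cx := CvH P cV B D Gr one4 row 1 mu0 K x with hCx
  have hCf : ∀ i v v', (B v, D v) = (B v', D v') → (Cx i v ↔ Cx i v') := fun i v v' e =>
    covL_facV hV (fun s a v w e => secH_fac s a v w e) i v v' e
  have h := GhoM.cls_uns (P := FP.pr P Q) (Z := fun v => (B v.1, C v.1)) (Zx := fun v => ((B v.1, C v.1), v.2))
    (Y := fun i v => ((C v.1, cV i v.1), v.2)) (A := fun i v => A i v.1) (Cv := fun i v => Cx i v.1)
    (V := fun i w => ok P cV mu0 1 i (fun z => secH B D Gr row i (C w.1, w.2) z ∧ ¬ Cx i z)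
      (wtH B D one4 row (C w.1, w.2)) w.1)
    (N := fun v => Gr (B v.1) (C v.1) (row (B v.1) (C v.1) v.2) (D v.1))
    (ψ := fun v => ind (Gr (B v.1) (C v.1) (row (B v.1) (C v.1) v.2) (D v.1)))
    (mu0 := mu0) (L := 1) (kap := kap) (mu := mu) (T := T)
    (E := fun s v => g * DDs P B C A s v.1 ≤ mR P B C D A Cx Gr s (row (B v.1) (C v.1) v.2) v.1 ∧ Q.p v.2 ≠ 0)
    (fun v w e => by
      have e' : (B v.1, C v.1) = (B w.1, C w.1) ∧ v.2 = w.2 := Prod.mk.injEq _ _ _ _ ▸ e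
      exact e'.1)
    (fun i v w e => by
      have e' : (C v.1, cV i v.1) = (C w.1, cV i w.1) ∧ v.2 = w.2 := Prod.mk.injEq _ _ _ _ ▸ e
      have e2 : C v.1 = C w.1 ∧ cV i v.1 = cV i w.1 := Prod.mk.injEq _ _ _ _ ▸ e'.1
      show ((B v.1, C v.1), v.2) = ((B w.1, C w.1), w.2)
      rw [hB i v.1 w.1 e2.2, e2.1, e'.2])
    (fun i v w e => by
      have e' : (C v.1, cV i v.1) = (C w.1, cV i w.1) ∧ v.2 = w.2 := Prod.mk.injEq _ _ _ _ ▸ e
      have e2 : C v.1 = C w.1 ∧ cV i v.1 = cV i w.1 := Prod.mk.injEq _ _ _ _ ▸ e'.1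
      exact hA i v.1 w.1 e2.1 e2.2)
    (fun i v w e => by
      have e' : (C v.1, cV i v.1) = (C w.1, cV i w.1) ∧ v.2 = w.2 := Prod.mk.injEq _ _ _ _ ▸ e
      have e2 : C v.1 = C w.1 ∧ cV i v.1 = cV i w.1 := Prod.mk.injEq _ _ _ _ ▸ e'.1
      show ok P cV mu0 1 i (fun z => secH B D Gr row i (C v.1, v.2) z ∧ ¬ Cx i z) (wtH B D one4 row (C v.1, v.2)) v.1 ↔
        ok P cV mu0 1 i (fun z => secH B D Gr row i (C w.1, w.2) z ∧ ¬ Cx i z) (wtH B D one4 row (C w.1, w.2)) w.1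
      rw [e2.1, e'.2]
      exact GdyR.ok_fac _ _ e2.2)
    m0 one_pos k0 u0 (fun w _ => ind_le_one _) (fun w _ hn => ind_not hn)
    (fun w i j => A1 w.1 i j)
    (fun i w hw => by
      have hw' := (pr_supp P Q).1 hw
      rw [show (FP.pr P Q).ce (fun v => ((B v.1, C v.1), v.2)) (fun x => ind (A i x.1)) w = _ from
        ce_coin (P := P) (fun w => (B w, C w)) (fun x => ind (A i x.1)) hw'.2]
      exact (lift_ce P Q (fun w => (B w, C w)) (fun y => ind (A i y)) w).symm)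
    (fun i _ w hw _ hb => by
      have hw' := (pr_supp P Q).1 hw
      set S : β → Om → Prop := fun c v => secH B D Gr row i (c, w.2) v ∧ ¬ Cx i v with hS
      have hSf : ∀ c, Fac (fun w => (B w, D w)) (fun v => ind (S c v)) := fun c => Fac.ind fun v v' e => by
        show (secH B D Gr row i (c, w.2) v ∧ ¬ Cx i v) ↔ (secH B D Gr row i (c, w.2) v' ∧ ¬ Cx i v')
        rw [secH_fac i (c, w.2) v v' e, hCf i v v' e]
      have e1 := ce_coin (P := P) (Q := Q) (fun v => (C v, cV i v)) (fun v => ind (Gr (B v.1) (C v.1)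
        (row (B v.1) (C v.1) v.2) (D v.1) ∧ ¬ Cx i v.1) *
        ind (Gr (B v.1) (C v.1) (row (B v.1) (C v.1) v.2) (D v.1))) hw'.2
      rw [e1, one_mul]
      have e4 : P.ce (fun v => (C v, cV i v)) (fun v => ind (Gr (B v) (C v) (row (B v) (C v) w.2) (D v) ∧ ¬ Cx i v) *
          ind (Gr (B v) (C v) (row (B v) (C v) w.2) (D v))) w.1 = cp P cV i (S (C w.1)) w.1 := by
        show _ = P.ce (cV i) (fun v => ind (S (C w.1) v)) w.1
        rw [← GhoZ.freezeV (U := C) hI (hV i) (F := fun c v => ind (S c v)) hSf hw'.1]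
        refine P.ce_congr (fun v _ => ?_) w.1
        show ind (Gr (B v) (C v) (row (B v) (C v) w.2) (D v) ∧ ¬ Cx i v) *
          ind (Gr (B v) (C v) (row (B v) (C v) w.2) (D v)) =
          ind (Gr (B v) (C v) (row (B v) (C v) w.2) (D v) ∧ ¬ Cx i v)
        rw [← ind_and]
        congr 1
        exact propext ⟨fun h => h.1, fun h => ⟨h, h.1⟩⟩
      show P.ce (fun v => (C v, cV i v)) (fun v => ind (Gr (B v) (C v) (row (B v) (C v) w.2) (D v) ∧ ¬ Cx i v) *
          ind (Gr (B v) (C v) (row (B v) (C v) w.2) (D v))) w.1 ≤ mu0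
      rw [e4]
      by_contra hcon
      refine hb ⟨(not_le.1 hcon).le, ?_⟩
      rw [one_mul]
      refine le_of_eq (P.ce_congr (fun v _ => ?_) w.1)
      show ind (S (C w.1) v) = ind (S (C w.1) v) * 1
      rw [mul_one])
    (fun s _ w hw hE => by
      have hw' := (pr_supp P Q).1 hw
      rw [Ss_lift_one s hw'.2, Ds_lift s hw'.2, one_mul]
      refine le_trans (mul_le_mul_of_nonneg_right hg ?_) hE.1
      exact Finset.sum_nonneg fun _ _ => P.ce_nonneg (fun _ _ => ind_nonneg _) _)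
  refine le_trans ?_ (h.trans ?_)
  · refine Finset.sum_le_sum fun s _ => le_of_eq ?_
    have e1 := lhs_lift (P := P) (Q := Q) (A := A) (mu := mu) (row := row) hmr s (Ep := fun v ρ =>
      g * DDs P B C A s v ≤ mR P B C D A Cx Gr s ρ v) (fun ρ v w e => by
        rw [mR_fac s ρ v w e, DDs_fac s v w e])
    unfold cmU
    rw [← e1]
    refine (FP.pr P Q).E_congr fun w _ => ?_
    have e2 : (FP.pr P Q).ce (fun v => (B v.1, C v.1)) (fun v => ind (
        g * DDs P B C A s v.1 ≤ mR P B C D A Cx Gr s (row (B v.1) (C v.1) v.2) v.1)) w =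
        (FP.pr P Q).ce (fun v => (B v.1, C v.1)) (fun v => ind (
        g * DDs P B C A s v.1 ≤ mR P B C D A Cx Gr s (row (B v.1) (C v.1) v.2) v.1 ∧ Q.p v.2 ≠ 0)) w := by
      refine (FP.pr P Q).ce_congr (fun v hv => ?_) w
      have hv' := ((pr_supp P Q).1 hv).2
      congr 1
      exact propext ⟨fun a => ⟨a, hv'⟩, fun ⟨a, _⟩ => a⟩
    show ind (A s w.1 ∧ mu < _) = ind (A s w.1 ∧ mu < _)
    rw [e2]
  · have hk : 0 < kap * mu := mul_pos k0 u0
    exact div_le_div_of_nonneg_right (hit_le x) hk.le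

/-- **THE CLASS MASS IN THE MEAN OVER THE LISTS**, unsigned -/
theorem cls_mean_uns (hI : P.Indep C (fun w => (B w, D w))) (hV : ∀ s, Fac (fun w => (B w, D w)) (cV s))
    (fV : Filt cV) (hB : ∀ s, Fac (cV s) B) (hA : ∀ i x w, C x = C w → cV i x = cV i w → (A i x ↔ A i w))
    (A1 : ∀ w i j, A i w → A j w → i = j)
    (hmr : ∀ b c (S : Rw → Prop), (mr b c).Pr S = Q.Pr (fun t => S (row b c t)))
    (m0 : 0 < mu0) (hK : 1 < mu0 * K) (k0 : 0 < kap) (u0 : 0 < mu) (hg : mu0 + kap ≤ g) :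
    ∑ x : Fin M → β × Xi, sw (qH P Q C) x * ∑ s ∈ range T, P.Pr (fun w => A s w ∧
      mu < cmU P B C D A (CvH P cV B D Gr one4 row 1 mu0 K x) mr Gr g s w) ≤
      1 / (mu0 * (M + 1)) / (kap * mu) := by
  have hk : 0 < kap * mu := mul_pos k0 u0
  have h1 := bad_row (P := P) (Q := Q) (Gr := Gr) (ps := one4) (row := row) (lam := 1) (M := M) (T := T) hI hV fV hK m0
  refine le_trans (Finset.sum_le_sum fun x _ => mul_le_mul_of_nonneg_left
    (cls_list_uns (K := K) hI hV hB hA A1 hmr m0.le k0 u0 hg x) (sw_nonneg qH_nn x)) ?_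
  rw [show (∑ x : Fin M → β × Xi, sw (qH P Q C) x * ((FP.pr P Q).Pr (fun w => bad P cV (secH B D Gr row)
    (wtH B D one4 row) mu0 1 K x (C w.1, w.2) T w.1) / (kap * mu))) = (∑ x : Fin M → β × Xi, sw (qH P Q C) x *
    (FP.pr P Q).Pr (fun w => bad P cV (secH B D Gr row) (wtH B D one4 row) mu0 1 K x (C w.1, w.2) T w.1)) /
      (kap * mu) from by
      rw [Finset.sum_div]
      exact Finset.sum_congr rfl fun x _ => (mul_div_assoc _ _ _).symm]
  exact div_le_div_of_nonneg_right h1 hk.le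

end cls

end

end Pool.Agent.GMH.GhoL
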