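import Pool.Agent.GMH.GhoZ2

/-!
# GMH/GhoLW (helper85): LOOMIS - WHITNEY AT A NODE AND AT A UNIQUE TIME (note 4025 (5), `E_4`)

`nd s` = node, `Nb s`, `Nc s` = one exact point, `Ybc s`, `Ybd s`, `Ycd s` = two exact points; given the coarser sight the
finer ones are independent (`Blk.CI`).

* `ci_ce` : a function of one sight, seen from the other one, is seen from the coarser one;
* `lw` : `P (K1, K2, K3 | nd) ^ 2 ≤ P (K1 | nd) P (K2 | nd) P (K3 | nd)`, `K1`, `K2`, `K3` events of two points each;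
* `both_gen`, `tri_gen` : at a unique time `f s`, with a TIME DEPENDENT relation `Rs s` :
  `P (f s, K1, K2, K3, Rs s) ≤ t (P (f s, K1) + P (f s, K2) + P (f s, K3)) / 3 + P (f s, Rs s, b < density of Rs s)`, `b ≤ t ^ 3`;
* `tri_le` : static relation, the density at the node was `< u` before the time `f s`, `h u ≤ t ^ 3`.
-/

set_option autoImplicit false
set_option linter.unusedSectionVars false

namespace Pool.Agent.GMH.GhoLW

open Finset Pool.Agent.PWZ Pool.Agent.M3 Pool.Agent.GMH.Gdy Pool.Agent.GMH.CR Pool.Agent.GMH.Three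
open Pool.Agent.GMH.Blk Pool.Agent.GMH.GhoV

noncomputable section

variable {Om : Type*} [Fintype Om] {P : FP Om} {κ κb κc κ1 κ2 κ3 : ℕ → Type*} {nd : ∀ t, Om → κ t}
  {Nb : ∀ t, Om → κb t} {Nc : ∀ t, Om → κc t} {Y1 : ∀ t, Om → κ1 t} {Y2 : ∀ t, Om → κ2 t} {Y3 : ∀ t, Om → κ3 t}
  {R : Om → Prop} {T : ℕ}

/-- a function of one sight, seen from the other one -/
theorem ci_ce (hci : CI P Nb Y1 Y2) {s : ℕ} (h1 : Fac (Y1 s) (Nb s)) {g : Om → ℝ} (hg : Fac (Y2 s) g) {w : Om}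
    (hw : P.p w ≠ 0) : P.ce (Y1 s) g w = P.ce (Nb s) g w := by
  refine P.ce_unique (h1.trans (P.ce_fac (Nb s) g)) (fun u hu => ?_) hw
  have e1 : P.E (fun w => u w * g w) = P.E (fun w => P.ce (Nb s) u w * P.ce (Nb s) g w) := by
    rw [← P.E_ce (Nb s) (fun w => u w * g w)]
    exact P.E_congr fun w hw => hci s u g hu hg w hw
  rw [e1]
  have e2 := P.E_mul_ce (P.ce_fac (Nb s) g) u
  calc P.E (fun w => P.ce (Nb s) u w * P.ce (Nb s) g w) = P.E (fun w => P.ce (Nb s) g w * P.ce (Nb s) u w) :=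
        P.E_congr fun w _ => mul_comm _ _
    _ = P.E (fun w => P.ce (Nb s) g w * u w) := e2
    _ = P.E (fun w => u w * P.ce (Nb s) g w) := P.E_congr fun w _ => mul_comm _ _

/-- **LOOMIS - WHITNEY** : `Y1` = `(b, c)`, `Y2` = `(b, d)`, `Y3` = `(c, d)` -/
theorem lw (h0 : CI P nd Nb Nc) (hb : CI P Nb Y1 Y2) (hc : CI P Nc Y1 Y3) {s : ℕ} (f1 : Fac (Y1 s) (Nb s))
    (f2 : Fac (Y1 s) (Nc s)) (f3 : Fac (Nb s) (nd s)) (f4 : Fac (Nc s) (nd s)) {K1 K2 K3 : Om → Prop}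
    (k1 : ∀ x w, Y1 s x = Y1 s w → (K1 x ↔ K1 w)) (k2 : ∀ x w, Y2 s x = Y2 s w → (K2 x ↔ K2 w))
    (k3 : ∀ x w, Y3 s x = Y3 s w → (K3 x ↔ K3 w)) {w : Om} (hw : P.p w ≠ 0) :
    P.ce (nd s) (fun x => ind (K1 x ∧ K2 x ∧ K3 x)) w ^ 2 ≤ P.ce (nd s) (fun x => ind (K1 x)) w *
      (P.ce (nd s) (fun x => ind (K2 x)) w * P.ce (nd s) (fun x => ind (K3 x)) w) := by
  have sq : ∀ p : Prop, ind p ^ 2 = ind p := fun p => by
    by_cases hp : p
    · rw [ind_of hp]; ring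
    · rw [ind_not hp]; ring
  set u : Om → ℝ := P.ce (Y1 s) (fun x => ind (K2 x) * ind (K3 x)) with hu
  have e1 : P.ce (nd s) (fun x => ind (K1 x ∧ K2 x ∧ K3 x)) w = P.ce (nd s) (fun x => ind (K1 x) * u x) w := by
    have F1 : Fac (Y1 s) (fun x => ind (K1 x)) := Fac.ind fun x w e => k1 x w e
    rw [← P.ce_tower (f1.trans f3) (fun x => ind (K1 x ∧ K2 x ∧ K3 x)) w]
    refine P.ce_congr (fun v hv => ?_) w
    rw [hu, ← P.ce_mul F1]
    exact P.ce_congr (fun x _ => by rw [ind_and, ind_and]) v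
  have e2 : ∀ v, P.p v ≠ 0 → u v ^ 2 ≤ P.ce (Nb s) (fun x => ind (K2 x)) v * P.ce (Nc s) (fun x => ind (K3 x)) v := by
    intro v hv
    have h1 := P.ce_mul_sq_le (Y1 s) (fun x => ind (K2 x)) (fun x => ind (K3 x)) v
    simp only [sq] at h1
    rw [ci_ce hb f1 (Fac.ind fun x w e => k2 x w e) hv, ci_ce hc f2 (Fac.ind fun x w e => k3 x w e) hv] at h1
    exact h1
  have e3 : P.ce (nd s) (fun x => u x ^ 2) w ≤ P.ce (nd s) (fun x => ind (K2 x)) w *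
      P.ce (nd s) (fun x => ind (K3 x)) w := by
    refine (P.ce_mono (fun v hv => e2 v hv) w).trans (le_of_eq ?_)
    rw [h0 s _ _ (P.ce_fac (Nb s) _) (P.ce_fac (Nc s) _) w hw, P.ce_tower f3, P.ce_tower f4]
  rw [e1]
  have h2 := P.ce_mul_sq_le (nd s) (fun x => ind (K1 x)) u w
  simp only [sq] at h2
  exact h2.trans (mul_le_mul_of_nonneg_left e3 (P.ce_nonneg (fun _ _ => ind_nonneg _) w))

/-- numbers -/
theorem cube {x a t p q r : ℝ} (t0 : 0 ≤ t) (p0 : 0 ≤ p) (q0 : 0 ≤ q) (r0 : 0 ≤ r) (h1 : x ≤ a)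
    (h2 : a ≤ t ^ 3) (h3 : x ^ 2 ≤ p * (q * r)) : x ≤ t * ((p + q + r) / 3) := by
  have a1 : x ^ 3 ≤ t ^ 3 * (p * (q * r)) := by
    have e : x ^ 3 = x * x ^ 2 := by ring
    rw [e]
    exact mul_le_mul (h1.trans h2) h3 (sq_nonneg _) (by positivity)
  have a2 : p * (q * r) ≤ ((p + q + r) / 3) ^ 3 := by
    nlinarith [mul_nonneg p0 (sq_nonneg (q - r)), mul_nonneg q0 (sq_nonneg (p - r)), mul_nonneg r0 (sq_nonneg (p - q)),
      mul_nonneg p0 (sq_nonneg (p - q)), mul_nonneg p0 (sq_nonneg (p - r)), mul_nonneg q0 (sq_nonneg (q - r)),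
      mul_nonneg q0 (sq_nonneg (q - p)), mul_nonneg r0 (sq_nonneg (r - p)), mul_nonneg r0 (sq_nonneg (r - q)),
      sq_nonneg (p + q + r)]
  have a3 : x ^ 3 ≤ (t * ((p + q + r) / 3)) ^ 3 := by
    rw [mul_pow]
    exact a1.trans (mul_le_mul_of_nonneg_left a2 (by positivity))
  have a4 : 0 ≤ t * ((p + q + r) / 3) := by positivity
  by_contra h
  exact absurd a3 (not_le.2 (pow_lt_pow_left₀ (not_le.1 h) a4 (by norm_num)))

variable {f : ℕ → Om → Prop}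

variable {Rs : ℕ → Om → Prop}

/-- on the cell of a unique time the relation `∃ s, f s, Rs s` is `Rs s` -/
theorem cp_star {ρ : ℕ → Type*} {Z : ∀ t, Om → ρ t} (hf : ∀ s x w, Z s x = Z s w → (f s x ↔ f s w))
    (h1 : ∀ w s s', f s w → f s' w → s = s') {s : ℕ} {w : Om} (a : f s w) :
    cp P Z s (fun w => ∃ s, f s w ∧ Rs s w) w = cp P Z s (Rs s) w := by
  refine ce_congr_on fun x _ hx => congrArg ind (propext ⟨?_, ?_⟩)
  · rintro ⟨s', b, c⟩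
    obtain rfl := h1 x s s' ((hf s x w hx).2 a) b
    exact c
  · exact fun c => ⟨s, (hf s x w hx).2 a, c⟩

theorem star_iff (h1 : ∀ w s s', f s w → f s' w → s = s') (Q : ℕ → Om → Prop) (w : Om) :
    (∃ s, f s w ∧ Q s w ∧ ∃ s, f s w ∧ Rs s w) ↔ ∃ s, f s w ∧ Q s w ∧ Rs s w := by
  constructor
  · rintro ⟨s, a, b, s', a', c⟩
    obtain rfl := h1 w s s' a a'
    exact ⟨s, a, b, c⟩
  · rintro ⟨s, a, b, c⟩
    exact ⟨s, a, b, s, a, c⟩

/-- **BOTH COVERED, time dependent relation** -/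
theorem both_gen (hci : CI P Nb Y1 Y2) (hf : ∀ s x w, Nb s x = Nb s w → (f s x ↔ f s w))
    (h1 : ∀ w s s', f s w → f s' w → s = s') (hT : ∀ s w, f s w → s < T) {K1 K2 : ℕ → Om → Prop}
    (k1 : ∀ s x w, Y1 s x = Y1 s w → (K1 s x ↔ K1 s w)) (k2 : ∀ s x w, Y2 s x = Y2 s w → (K2 s x ↔ K2 s w)) {b : ℝ} :
    P.Pr (fun w => ∃ s, f s w ∧ (K1 s w ∧ K2 s w) ∧ Rs s w) ≤
      Real.sqrt b * ((P.Pr (fun w => ∃ s, f s w ∧ K1 s w) + P.Pr (fun w => ∃ s, f s w ∧ K2 s w)) / 2) +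
      P.Pr (fun w => ∃ s, f s w ∧ b < cp P Nb s (Rs s) w ∧ Rs s w) := by
  have h := both_le (P := P) (R := fun w => ∃ s, f s w ∧ Rs s w) hci hf h1 hT k1 k2 (b := b)
  have e1 : P.Pr (fun w => ∃ s, f s w ∧ (K1 s w ∧ K2 s w) ∧ Rs s w) =
      P.Pr (fun w => ∃ s, f s w ∧ K1 s w ∧ K2 s w ∧ ∃ s, f s w ∧ Rs s w) := P.Pr_congr fun w _ => by
    rw [← star_iff h1 (fun s w => K1 s w ∧ K2 s w) w]
    exact exists_congr fun s => and_congr_right fun _ => and_assoc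
  have e2 : P.Pr (fun w => ∃ s, f s w ∧ b < cp P Nb s (fun w => ∃ s, f s w ∧ Rs s w) w ∧ ∃ s, f s w ∧ Rs s w) =
      P.Pr (fun w => ∃ s, f s w ∧ b < cp P Nb s (Rs s) w ∧ Rs s w) := P.Pr_congr fun w _ => by
    rw [← star_iff h1 (fun s w => b < cp P Nb s (Rs s) w) w]
    refine exists_congr fun s => and_congr_right fun a => ?_
    rw [cp_star hf h1 a]
  rw [e1]
  rw [e2] at h
  exact h

/-- **ALL THREE PAIRS COVERED AT A UNIQUE TIME, time dependent relation** -/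
theorem tri_gen (h0 : CI P nd Nb Nc) (hb : CI P Nb Y1 Y2) (hc : CI P Nc Y1 Y3) (f1 : ∀ s, Fac (Y1 s) (Nb s))
    (f2 : ∀ s, Fac (Y1 s) (Nc s)) (f3 : ∀ s, Fac (Nb s) (nd s)) (f4 : ∀ s, Fac (Nc s) (nd s))
    (hf : ∀ s x w, nd s x = nd s w → (f s x ↔ f s w)) (h1 : ∀ w s s', f s w → f s' w → s = s')
    (hT : ∀ s w, f s w → s < T) {K1 K2 K3 : ℕ → Om → Prop}
    (k1 : ∀ s x w, Y1 s x = Y1 s w → (K1 s x ↔ K1 s w)) (k2 : ∀ s x w, Y2 s x = Y2 s w → (K2 s x ↔ K2 s w))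
    (k3 : ∀ s x w, Y3 s x = Y3 s w → (K3 s x ↔ K3 s w)) {b t : ℝ} (t0 : 0 ≤ t) (ht : b ≤ t ^ 3) :
    P.Pr (fun w => ∃ s, f s w ∧ K1 s w ∧ K2 s w ∧ K3 s w ∧ Rs s w) ≤
      t * ((P.Pr (fun w => ∃ s, f s w ∧ K1 s w) + P.Pr (fun w => ∃ s, f s w ∧ K2 s w) +
        P.Pr (fun w => ∃ s, f s w ∧ K3 s w)) / 3) + P.Pr (fun w => ∃ s, f s w ∧ b < cp P nd s (Rs s) w ∧ Rs s w) := by
  rw [cnt h1 hT (fun s w => K1 s w ∧ K2 s w ∧ K3 s w ∧ Rs s w), cnt h1 hT K1, cnt h1 hT K2, cnt h1 hT K3,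
    cnt h1 hT (fun s w => b < cp P nd s (Rs s) w ∧ Rs s w), ← Finset.sum_add_distrib, ← Finset.sum_add_distrib,
    Finset.sum_div, Finset.mul_sum, ← Finset.sum_add_distrib]
  refine Finset.sum_le_sum fun s _ => ?_
  have e1 : P.E (fun w => ind (f s w) * (t * ((ind (K1 s w) + ind (K2 s w) + ind (K3 s w)) / 3) +
      ind (b < cp P nd s (Rs s) w ∧ Rs s w))) =
      t * ((P.E (fun w => ind (f s w) * ind (K1 s w)) + P.E (fun w => ind (f s w) * ind (K2 s w)) +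
        P.E (fun w => ind (f s w) * ind (K3 s w))) / 3) +
        P.E (fun w => ind (f s w) * ind (b < cp P nd s (Rs s) w ∧ Rs s w)) := by
    rw [← FP.E_add, ← FP.E_add, ← P.E_div_const, ← FP.E_smul, ← FP.E_add]
    exact P.E_congr fun w _ => by ring
  rw [← e1]
  refine E_le_of_ce (N := nd) (hf s) fun w hw _ => ?_
  have c1 : P.ce (nd s) (fun w => t * ((ind (K1 s w) + ind (K2 s w) + ind (K3 s w)) / 3) +
      ind (b < cp P nd s (Rs s) w ∧ Rs s w)) w =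
      t * ((P.ce (nd s) (fun w => ind (K1 s w)) w + P.ce (nd s) (fun w => ind (K2 s w)) w +
        P.ce (nd s) (fun w => ind (K3 s w)) w) / 3) +
        P.ce (nd s) (fun w => ind (b < cp P nd s (Rs s) w ∧ Rs s w)) w := by
    rw [P.ce_add (nd s) (fun w => t * ((ind (K1 s w) + ind (K2 s w) + ind (K3 s w)) / 3))
      (fun w => ind (b < cp P nd s (Rs s) w ∧ Rs s w)) w]
    have c2 : P.ce (nd s) (fun w => t * ((ind (K1 s w) + ind (K2 s w) + ind (K3 s w)) / 3)) w =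
        t / 3 * (P.ce (nd s) (fun w => ind (K1 s w)) w + P.ce (nd s) (fun w => ind (K2 s w)) w +
          P.ce (nd s) (fun w => ind (K3 s w)) w) := by
      rw [← P.ce_add (nd s) (fun w => ind (K1 s w)) (fun w => ind (K2 s w)) w,
        ← P.ce_add (nd s) (fun w => ind (K1 s w) + ind (K2 s w)) (fun w => ind (K3 s w)) w, ← P.ce_smul]
      exact P.ce_congr (fun x _ => by ring) w
    rw [c2]
    ring
  rw [c1]
  have n1 : 0 ≤ P.ce (nd s) (fun w => ind (K1 s w)) w := P.ce_nonneg (fun _ _ => ind_nonneg _) w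
  have n2 : 0 ≤ P.ce (nd s) (fun w => ind (K2 s w)) w := P.ce_nonneg (fun _ _ => ind_nonneg _) w
  have n4 : 0 ≤ P.ce (nd s) (fun w => ind (K3 s w)) w := P.ce_nonneg (fun _ _ => ind_nonneg _) w
  have n3 : 0 ≤ P.ce (nd s) (fun w => ind (b < cp P nd s (Rs s) w ∧ Rs s w)) w :=
    P.ce_nonneg (fun _ _ => ind_nonneg _) w
  have n5 : 0 ≤ P.ce (nd s) (fun w => ind (K1 s w ∧ K2 s w ∧ K3 s w ∧ Rs s w)) w :=
    P.ce_nonneg (fun _ _ => ind_nonneg _) w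
  by_cases h3 : b < cp P nd s (Rs s) w
  · have h4 : P.ce (nd s) (fun w => ind (K1 s w ∧ K2 s w ∧ K3 s w ∧ Rs s w)) w ≤
        P.ce (nd s) (fun w => ind (b < cp P nd s (Rs s) w ∧ Rs s w)) w := by
      have h6 : P.ce (nd s) (fun w => ind (K1 s w ∧ K2 s w ∧ K3 s w ∧ Rs s w)) w =
          P.ce (nd s) (fun w => ind (b < cp P nd s (Rs s) w ∧ K1 s w ∧ K2 s w ∧ K3 s w ∧ Rs s w)) w :=
        ce_congr_on fun x _ hx => by
          rw [cp_fac s (Rs s) x w hx]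
          exact congrArg ind (propext ⟨fun a => ⟨h3, a⟩, fun a => a.2⟩)
      rw [h6]
      exact P.ce_mono (fun x _ => ind_mono fun a => ⟨a.1, a.2.2.2.2⟩) w
    have h5 : 0 ≤ t * ((P.ce (nd s) (fun w => ind (K1 s w)) w + P.ce (nd s) (fun w => ind (K2 s w)) w +
        P.ce (nd s) (fun w => ind (K3 s w)) w) / 3) := by positivity
    linarith
  · have h6 := lw h0 hb hc (f1 s) (f2 s) (f3 s) (f4 s) (k1 s) (k2 s) (k3 s) hw
    have h7 : P.ce (nd s) (fun w => ind (K1 s w ∧ K2 s w ∧ K3 s w ∧ Rs s w)) w ≤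
        P.ce (nd s) (fun w => ind (K1 s w ∧ K2 s w ∧ K3 s w)) w :=
      P.ce_mono (fun x _ => ind_mono fun a => ⟨a.1, a.2.1, a.2.2.1⟩) w
    have h8 : P.ce (nd s) (fun w => ind (K1 s w ∧ K2 s w ∧ K3 s w ∧ Rs s w)) w ≤ cp P nd s (Rs s) w :=
      P.ce_mono (fun x _ => ind_mono fun a => a.2.2.2) w
    have h9 : P.ce (nd s) (fun w => ind (K1 s w ∧ K2 s w ∧ K3 s w ∧ Rs s w)) w ^ 2 ≤
        P.ce (nd s) (fun w => ind (K1 s w)) w * (P.ce (nd s) (fun w => ind (K2 s w)) w *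
          P.ce (nd s) (fun w => ind (K3 s w)) w) := (pow_le_pow_left₀ n5 h7 2).trans h6
    have h10 := cube t0 n1 n2 n4 (h8.trans (not_lt.1 h3)) ht h9
    linarith

/-- **ALL THREE PAIRS COVERED, AT A TIME BEFORE WHICH THE DENSITY WAS SMALL** -/
theorem tri_le (h0 : CI P nd Nb Nc) (hb : CI P Nb Y1 Y2) (hc : CI P Nc Y1 Y3) (f1 : ∀ s, Fac (Y1 s) (Nb s))
    (f2 : ∀ s, Fac (Y1 s) (Nc s)) (f3 : ∀ s, Fac (Nb s) (nd s)) (f4 : ∀ s, Fac (Nc s) (nd s)) (fnd : Filt nd)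
    (hf : ∀ s x w, nd s x = nd s w → (f s x ↔ f s w)) (h1 : ∀ w s s', f s w → f s' w → s = s')
    (hT : ∀ s w, f s w → s < T) {K1 K2 K3 : ℕ → Om → Prop}
    (k1 : ∀ s x w, Y1 s x = Y1 s w → (K1 s x ↔ K1 s w)) (k2 : ∀ s x w, Y2 s x = Y2 s w → (K2 s x ↔ K2 s w))
    (k3 : ∀ s x w, Y3 s x = Y3 s w → (K3 s x ↔ K3 s w)) {u h t : ℝ} (hh : 0 ≤ h)
    (hm : ∀ s w, P.p w ≠ 0 → P.m (nd s) w ≤ h * P.m (nd (s + 1)) w) (t0 : 0 ≤ t) (ht : h * u ≤ t ^ 3)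
    (hbe : ∀ s w, f s w → ∀ s' < s, cp P nd s' R w < u) :
    P.Pr (fun w => ∃ s, f s w ∧ K1 s w ∧ K2 s w ∧ K3 s w ∧ R w) ≤
      t * ((P.Pr (fun w => ∃ s, f s w ∧ K1 s w) + P.Pr (fun w => ∃ s, f s w ∧ K2 s w) +
        P.Pr (fun w => ∃ s, f s w ∧ K3 s w)) / 3) + P.Pr (fun w => f 0 w ∧ h * u < cp P nd 0 R w ∧ R w) := by
  have hlast : P.Pr (fun w => ∃ s, f s w ∧ (h * u < cp P nd s R w ∧ R w)) ≤
      P.Pr (fun w => f 0 w ∧ h * u < cp P nd 0 R w ∧ R w) := P.Pr_mono fun w hw ⟨s, a, b, c⟩ => by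
    have h2 := first_cp fnd hh hm hw (hbe s w a) b
    subst h2
    exact ⟨a, b, c⟩
  exact (tri_gen (Rs := fun _ => R) h0 hb hc f1 f2 f3 f4 hf h1 hT k1 k2 k3 t0 ht).trans
    (add_le_add le_rfl hlast)

end

end Pool.Agent.GMH.GhoLW
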