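import Pool.Agent.GMH.GhoT

/-!
# GMH/GhoP (helper99): KINDS OF ENDS AND COUNTS FOR THE VERTEX TIME (notes 3963 (4), 3965 (B)(ii), 4001 (6))

An epoch starts at the time `0` and ends at `σ`; `rm` = removal, `nr` = end which is public (no removal).  At an end `nr` the
density of `R` at the exact vertex is at most `y`.  `Tb` = vertex time (`Blk`), `q > y`.
* `rel_ge` : `q P (T^b ≤ σ) ≤ P (R, T^b ≤ σ)`;
* `nr_le` : `P (nr, R, T^b ≤ σ) ≤ y P (nr, T^b ≤ σ)`;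
* `cnt_le` : `(q - y) P (T^b ≤ σ) ≤ P (rm, R, T^b ≤ σ)` (so the number of vertex times is bounded by the exits);
* `rm_signed` : `E 1_rm 1_Q ψ ≤ E 1_Q ψ + Cn P (nr, Q)`;
* `gho_epoch` : the signed part of `GhoT` (rows and columns) at the removals in terms of `mm = P (rm, R, T^b ≤ σ)` only.
-/

set_option autoImplicit false
set_option linter.unusedSectionVars false

namespace Pool.Agent.GMH.GhoP

open Finset Pool.Agent.PWZ Pool.Agent.M3 Pool.Agent.GMH.Gdy Pool.Agent.GMH.CR Pool.Agent.GMH.Three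
open Pool.Agent.GMH.Blk Pool.Agent.GMH.GhoT
open Pool.Agent.GMH.Tree (stp_le stp_eq one_sum one_cnt)

noncomputable section

variable {Om : Type*} [Fintype Om] {P : FP Om} {κ ν : ℕ → Type*} {N : ∀ t, Om → κ t} {nd : ∀ t, Om → ν t}
  {R : Om → Prop} {q y u0 L Cn : ℝ} {σ : Om → ℕ} {T : ℕ} {rm nr : Om → Prop}

/-- the density at the vertex time is at least `q` -/
theorem rel_ge (fN : Filt N) (hσ : Stp N σ) (hT : ∀ w, σ w < T) :
    q * P.Pr (fun w => ∃ s ≤ σ w, Tb P N R q s w) ≤ P.Pr (fun w => R w ∧ ∃ s ≤ σ w, Tb P N R q s w) := by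
  rw [← one_sum (Y := N) fN (fun s => Fac.refl (N s)) hσ hT (f := Tb P N R q) (fun s x w e => Tb_fac fN s e)
    (fun w s s' a b => Tb_one w s s' a b),
    ← one_cnt hT (f := Tb P N R q) (fun w s s' a b => Tb_one w s s' a b), Finset.mul_sum]
  refine Finset.sum_le_sum fun s _ => ?_
  rw [← FP.E_smul]
  refine P.E_mono fun w _ => ?_
  by_cases h : Tb P N R q s w ∧ s ≤ σ w
  · rw [ind_of h, one_mul, mul_one]
    exact h.1.1
  · rw [ind_not h, mul_zero, zero_mul]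

/-- the relation at the ends `nr` -/
theorem nr_le (fN : Filt N) (hσ : Stp N σ) (hT : ∀ w, σ w < T)
    (hnr : ∀ s x w, N s x = N s w → σ w = s → (nr x ↔ nr w))
    (hd : ∀ w, P.p w ≠ 0 → nr w → (∃ s ≤ σ w, Tb P N R q s w) → cp P N (σ w) R w ≤ y) :
    P.Pr (fun w => nr w ∧ R w ∧ ∃ s ≤ σ w, Tb P N R q s w) ≤
      y * P.Pr (fun w => nr w ∧ ∃ s ≤ σ w, Tb P N R q s w) := by
  have e1 : P.Pr (fun w => nr w ∧ R w ∧ ∃ s ≤ σ w, Tb P N R q s w) =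
      P.E (fun w => ind (nr w ∧ ∃ s ≤ σ w, Tb P N R q s w) * ind (R w)) := by
    unfold FP.Pr
    refine P.E_congr fun w _ => ?_
    rw [← ind_and]
    congr 1
    exact propext ⟨fun ⟨a, b, c⟩ => ⟨⟨a, c⟩, b⟩, fun ⟨⟨a, c⟩, b⟩ => ⟨a, b, c⟩⟩
  have e2 : P.Pr (fun w => nr w ∧ ∃ s ≤ σ w, Tb P N R q s w) =
      P.E (fun w => ind (nr w ∧ ∃ s ≤ σ w, Tb P N R q s w) * 1) := by
    unfold FP.Pr
    exact P.E_congr fun w _ => (mul_one _).symm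
  rw [e1, e2, E_stop hT (fun s w => ind (nr w ∧ ∃ s' ≤ s, Tb P N R q s' w) * ind (R w)),
    E_stop hT (fun s w => ind (nr w ∧ ∃ s' ≤ s, Tb P N R q s' w) * 1), Finset.mul_sum]
  refine Finset.sum_le_sum fun s _ => ?_
  have hF : Fac (N s) (fun w => ind (σ w = s) * ind (nr w ∧ ∃ s' ≤ s, Tb P N R q s' w)) := fun x w e => by
    show ind (σ x = s) * ind (nr x ∧ ∃ s' ≤ s, Tb P N R q s' x) =
      ind (σ w = s) * ind (nr w ∧ ∃ s' ≤ s, Tb P N R q s' w)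
    have e1 : (σ x = s) = (σ w = s) := propext (stp_eq fN (fun _ => Fac.refl _) hσ e)
    rw [e1]
    by_cases h : σ w = s
    · have e2 : (nr x ∧ ∃ s' ≤ s, Tb P N R q s' x) = (nr w ∧ ∃ s' ≤ s, Tb P N R q s' w) := by
        rw [propext (hnr s x w e h)]
        congr 1
        exact propext (exists_congr fun s' => and_congr_right fun hs' => Tb_fac fN s' (fN.le hs' x w e))
      rw [e2]
    · rw [ind_not h, zero_mul, zero_mul]
  have h1 : P.E (fun w => ind (σ w = s) * (ind (nr w ∧ ∃ s' ≤ s, Tb P N R q s' w) * ind (R w))) =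
      P.E (fun w => (ind (σ w = s) * ind (nr w ∧ ∃ s' ≤ s, Tb P N R q s' w)) * cp P N s R w) := by
    have : P.E (fun w => ind (σ w = s) * (ind (nr w ∧ ∃ s' ≤ s, Tb P N R q s' w) * ind (R w))) =
        P.E (fun w => (ind (σ w = s) * ind (nr w ∧ ∃ s' ≤ s, Tb P N R q s' w)) * ind (R w)) :=
      P.E_congr fun w _ => by ring
    rw [this]
    exact (P.E_mul_ce hF _).symm
  rw [h1, ← FP.E_smul]
  refine P.E_mono fun w hw => ?_
  by_cases h : σ w = s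
  · by_cases h2 : nr w ∧ ∃ s' ≤ s, Tb P N R q s' w
    · rw [ind_of h, ind_of h2, one_mul, one_mul, mul_one, mul_one, ← h]
      exact hd w hw h2.1 (by rw [h]; exact h2.2)
    · rw [ind_not h2]
      simp
  · rw [ind_not h]
    simp

/-- **the number of vertex times** -/
theorem cnt_le (fN : Filt N) (hσ : Stp N σ) (hT : ∀ w, σ w < T) (y0 : 0 ≤ y)
    (hnr : ∀ s x w, N s x = N s w → σ w = s → (nr x ↔ nr w)) (hrn : ∀ w, rm w ∨ nr w)
    (hd : ∀ w, P.p w ≠ 0 → nr w → (∃ s ≤ σ w, Tb P N R q s w) → cp P N (σ w) R w ≤ y) :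
    (q - y) * P.Pr (fun w => ∃ s ≤ σ w, Tb P N R q s w) ≤
      P.Pr (fun w => rm w ∧ R w ∧ ∃ s ≤ σ w, Tb P N R q s w) := by
  have h1 := rel_ge (P := P) (R := R) (q := q) fN hσ hT
  have h2 := nr_le fN hσ hT hnr hd
  have h3 : P.Pr (fun w => R w ∧ ∃ s ≤ σ w, Tb P N R q s w) ≤
      P.Pr (fun w => rm w ∧ R w ∧ ∃ s ≤ σ w, Tb P N R q s w) +
      P.Pr (fun w => nr w ∧ R w ∧ ∃ s ≤ σ w, Tb P N R q s w) := by
    unfold FP.Pr
    rw [← FP.E_add]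
    refine P.E_mono fun w _ => ?_
    by_cases h4 : R w ∧ ∃ s ≤ σ w, Tb P N R q s w
    · have a1 := ind_nonneg (rm w ∧ R w ∧ ∃ s ≤ σ w, Tb P N R q s w)
      have a2 := ind_nonneg (nr w ∧ R w ∧ ∃ s ≤ σ w, Tb P N R q s w)
      rcases hrn w with h5 | h5
      · rw [ind_of h4, ind_of (show rm w ∧ R w ∧ ∃ s ≤ σ w, Tb P N R q s w from ⟨h5, h4⟩)]
        linarith
      · rw [ind_of h4, ind_of (show nr w ∧ R w ∧ ∃ s ≤ σ w, Tb P N R q s w from ⟨h5, h4⟩)]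
        linarith
    · rw [ind_not h4]
      exact add_nonneg (ind_nonneg _) (ind_nonneg _)
  have h4 : P.Pr (fun w => nr w ∧ ∃ s ≤ σ w, Tb P N R q s w) ≤ P.Pr (fun w => ∃ s ≤ σ w, Tb P N R q s w) :=
    P.E_mono fun w _ => ind_mono fun h => h.2
  have h5 := mul_le_mul_of_nonneg_left h4 y0
  linarith

/-- the mass of the relation after the vertex time -/
theorem mass_le (fN : Filt N) (hσ : Stp N σ) (hT : ∀ w, σ w < T) (y0 : 0 ≤ y)
    (hnr : ∀ s x w, N s x = N s w → σ w = s → (nr x ↔ nr w)) (hrn : ∀ w, rm w ∨ nr w)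
    (hd : ∀ w, P.p w ≠ 0 → nr w → (∃ s ≤ σ w, Tb P N R q s w) → cp P N (σ w) R w ≤ y) :
    P.Pr (fun w => R w ∧ ∃ s ≤ σ w, Tb P N R q s w) ≤
      P.Pr (fun w => rm w ∧ R w ∧ ∃ s ≤ σ w, Tb P N R q s w) + y * P.Pr (fun w => ∃ s ≤ σ w, Tb P N R q s w) := by
  have h2 := nr_le fN hσ hT hnr hd
  have h3 : P.Pr (fun w => R w ∧ ∃ s ≤ σ w, Tb P N R q s w) ≤
      P.Pr (fun w => rm w ∧ R w ∧ ∃ s ≤ σ w, Tb P N R q s w) +
      P.Pr (fun w => nr w ∧ R w ∧ ∃ s ≤ σ w, Tb P N R q s w) := by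
    unfold FP.Pr
    rw [← FP.E_add]
    refine P.E_mono fun w _ => ?_
    by_cases h4 : R w ∧ ∃ s ≤ σ w, Tb P N R q s w
    · have a1 := ind_nonneg (rm w ∧ R w ∧ ∃ s ≤ σ w, Tb P N R q s w)
      have a2 := ind_nonneg (nr w ∧ R w ∧ ∃ s ≤ σ w, Tb P N R q s w)
      rcases hrn w with h5 | h5
      · rw [ind_of h4, ind_of (show rm w ∧ R w ∧ ∃ s ≤ σ w, Tb P N R q s w from ⟨h5, h4⟩)]
        linarith
      · rw [ind_of h4, ind_of (show nr w ∧ R w ∧ ∃ s ≤ σ w, Tb P N R q s w from ⟨h5, h4⟩)]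
        linarith
    · rw [ind_not h4]
      exact add_nonneg (ind_nonneg _) (ind_nonneg _)
  have h4 : P.Pr (fun w => nr w ∧ ∃ s ≤ σ w, Tb P N R q s w) ≤ P.Pr (fun w => ∃ s ≤ σ w, Tb P N R q s w) :=
    P.E_mono fun w _ => ind_mono fun h => h.2
  have h5 := mul_le_mul_of_nonneg_left h4 y0
  linarith

/-- removals only -/
theorem rm_signed {Q : Om → Prop} {ψ : Om → ℝ} (hrn : ∀ w, rm w ∨ nr w) (hψ : ∀ w, -Cn ≤ ψ w) (C0 : 0 ≤ Cn) :
    P.E (fun w => ind (rm w ∧ Q w) * ψ w) ≤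
      P.E (fun w => ind (Q w) * ψ w) + Cn * P.Pr (fun w => nr w ∧ Q w) := by
  unfold FP.Pr
  rw [← FP.E_smul, ← FP.E_add]
  refine P.E_mono fun w _ => ?_
  have a1 := ind_nonneg (nr w ∧ Q w)
  by_cases h1 : Q w
  · by_cases h2 : rm w
    · rw [ind_of h1, ind_of (show rm w ∧ Q w from ⟨h2, h1⟩), one_mul]
      have := mul_nonneg C0 a1
      linarith
    · have h3 : nr w := (hrn w).resolve_left h2
      rw [ind_of h1, ind_not (fun h => h2 h.1 : ¬ (rm w ∧ Q w)), ind_of (show nr w ∧ Q w from ⟨h3, h1⟩), zero_mul,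
        one_mul, mul_one]
      linarith [hψ w]
  · rw [ind_not h1, ind_not (fun h => h1 h.2 : ¬ (rm w ∧ Q w)), ind_not (fun h => h1 h.2 : ¬ (nr w ∧ Q w))]
    simp

variable {Cc Cd : ℕ → Om → Prop} {ψ : Om → ℝ} {ρ ρ' : Type*} {Zr : Om → ρ} {Zk : Om → ρ'}

/-- **THE SIGNED PART OF ONE EPOCH AT THE REMOVALS** (rows and columns), with `PT = P (T^b ≤ σ)` and
`mm = P (rm, R, T^b ≤ σ)`; by `cnt_le` `PT ≤ mm / (q - y)` -/
theorem gho_epoch (fN : Filt N) (hσ : Stp N σ) (hT : ∀ w, σ w < T) (y0 : 0 ≤ y) (L0' : 0 ≤ L) (C0 : 0 ≤ Cn)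
    (hnr : ∀ s x w, N s x = N s w → σ w = s → (nr x ↔ nr w)) (hrn : ∀ w, rm w ∨ nr w)
    (hd : ∀ w, P.p w ≠ 0 → nr w → (∃ s ≤ σ w, Tb P N R q s w) → cp P N (σ w) R w ≤ y) (hψ : ∀ w, -Cn ≤ ψ w) :
    P.E (fun w => ind (rm w ∧ (R w ∧ ∃ s, Ar P N nd R q u0 σ Cd s w ∧
        dec P R L Zr (Ar P N nd R q u0 σ Cd) ψ s w)) * ψ w) +
      P.E (fun w => ind (rm w ∧ (R w ∧ ∃ s, Ak P N nd R q u0 σ Cc Cd s w ∧
        dec P R L Zk (Ak P N nd R q u0 σ Cc Cd) ψ s w)) * ψ w) ≤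
      L * P.Pr (fun w => rm w ∧ R w ∧ ∃ s ≤ σ w, Tb P N R q s w) +
        (L + Cn) * y * P.Pr (fun w => ∃ s ≤ σ w, Tb P N R q s w) := by
  have hAr : ∀ w s, Ar P N nd R q u0 σ Cd s w → s < T := fun w s a => lt_of_le_of_lt a.1.2 (hT w)
  have hAk : ∀ w s, Ak P N nd R q u0 σ Cc Cd s w → s < T := fun w s a => lt_of_le_of_lt a.1.2 (hT w)
  have s1 := side_signed (P := P) (R := R) (L := L) (Z := Zr) (ψ := ψ) (A := Ar P N nd R q u0 σ Cd) (T := T)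
    (fun w s s' a b => Ar_one w s s' a b) hAr
  have s2 := side_signed (P := P) (R := R) (L := L) (Z := Zk) (ψ := ψ) (A := Ak P N nd R q u0 σ Cc Cd) (T := T)
    (fun w s s' a b => Ak_one w s s' a b) hAk
  have r1 := rm_signed (P := P) (rm := rm) (nr := nr) (Cn := Cn) (Q := fun w => R w ∧ ∃ s,
    Ar P N nd R q u0 σ Cd s w ∧ dec P R L Zr (Ar P N nd R q u0 σ Cd) ψ s w) (ψ := ψ) hrn hψ C0
  have r2 := rm_signed (P := P) (rm := rm) (nr := nr) (Cn := Cn) (Q := fun w => R w ∧ ∃ s,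
    Ak P N nd R q u0 σ Cc Cd s w ∧ dec P R L Zk (Ak P N nd R q u0 σ Cc Cd) ψ s w) (ψ := ψ) hrn hψ C0
  have m1 := rel_mass (P := P) (N := N) (nd := nd) (R := R) (q := q) (u0 := u0) (σ := σ) (Cc := Cc) (Cd := Cd)
    (dec P R L Zr (Ar P N nd R q u0 σ Cd) ψ) (dec P R L Zk (Ak P N nd R q u0 σ Cc Cd) ψ)
  have m2 := mass_le fN hσ hT y0 hnr hrn hd
  have m3 := mul_le_mul_of_nonneg_left (m1.trans m2) L0'
  -- the ends `nr`
  have n1 : P.Pr (fun w => nr w ∧ (R w ∧ ∃ s, Ar P N nd R q u0 σ Cd s w ∧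
      dec P R L Zr (Ar P N nd R q u0 σ Cd) ψ s w)) +
      P.Pr (fun w => nr w ∧ (R w ∧ ∃ s, Ak P N nd R q u0 σ Cc Cd s w ∧
        dec P R L Zk (Ak P N nd R q u0 σ Cc Cd) ψ s w)) ≤
      P.Pr (fun w => nr w ∧ R w ∧ ∃ s ≤ σ w, Tb P N R q s w) := by
    unfold FP.Pr
    rw [← FP.E_add]
    refine P.E_mono fun w _ => ?_
    by_cases h1 : nr w ∧ (R w ∧ ∃ s, Ar P N nd R q u0 σ Cd s w ∧ dec P R L Zr (Ar P N nd R q u0 σ Cd) ψ s w)
    · obtain ⟨hn, hR, s, hA, _⟩ := h1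
      have h2 : ¬ (nr w ∧ (R w ∧ ∃ s, Ak P N nd R q u0 σ Cc Cd s w ∧
          dec P R L Zk (Ak P N nd R q u0 σ Cc Cd) ψ s w)) := by
        rintro ⟨_, _, s', hA', _⟩
        obtain rfl := tk_one w s s' hA.1 hA'.1
        exact hA.2 hA'.2.1
      rw [ind_not h2, add_zero]
      exact ind_mono fun _ => ⟨hn, hR, s, hA.1.2, hA.1.1.1⟩
    · rw [ind_not h1, zero_add]
      exact ind_mono fun ⟨hn, hR, s, hA, _⟩ => ⟨hn, hR, s, hA.1.2, hA.1.1.1⟩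
  have n2 := nr_le fN hσ hT hnr hd
  have n3 : P.Pr (fun w => nr w ∧ ∃ s ≤ σ w, Tb P N R q s w) ≤ P.Pr (fun w => ∃ s ≤ σ w, Tb P N R q s w) :=
    P.E_mono fun w _ => ind_mono fun h => h.2
  have n4 := mul_le_mul_of_nonneg_left (n1.trans (n2.trans (mul_le_mul_of_nonneg_left n3 y0))) C0
  have e3 : L * (P.Pr (fun w => rm w ∧ R w ∧ ∃ s ≤ σ w, Tb P N R q s w) +
      y * P.Pr (fun w => ∃ s ≤ σ w, Tb P N R q s w)) + Cn * (y * P.Pr (fun w => ∃ s ≤ σ w, Tb P N R q s w)) =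
      L * P.Pr (fun w => rm w ∧ R w ∧ ∃ s ≤ σ w, Tb P N R q s w) +
        (L + Cn) * y * P.Pr (fun w => ∃ s ≤ σ w, Tb P N R q s w) := by ring
  rw [← e3]
  linarith

end

end Pool.Agent.GMH.GhoP
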