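import Pool.Agent.GMH.GhoZ2
import Pool.Agent.GMH.GhoP

/-!
# GMH/GhoS (helper37): SINGLES, KIND `S` (H3.UNM, U.6), fixed `a`

`nd s` = node, `BC` = two exact points, `D` = the third one, `Xbc s`, `Xd s` their cells; `R` = static relation of the public
epoch, `T^S` = first time with `P (R | nd s) ≥ uS` (`GhoZ.z`: `T^S = s ≤ σ`), `N s` = an exact vertex.

* `meet_le` : before `T^S`, two faces which meet at the vertex `N`: `E 1_(R, M_0(σ) < uS) W ≤ √u' (E X + E Y)/2 +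
  uS/u' P (heavy end) + P (removal which is not heavy, P (R | N σ) ≥ u')`;
* `dec_le` : at an exact vertex, density `< u'` at the end: `≤ u' P (decided)`;
* `As`, `Cd`, `Bs`, `Cb` : `T^S ≤ σ`, `d` covered by the rows of the samples `(b_i, c_i)`, `(b, c)` covered by the rows of the
  samples `d_i`; `drop_le` : the whole relation after `T^S`; `bad_d`, `bad_bc`, `pay_d`, `pay_bc`; `cnt_S` number of `T^S`;
* `total` : one public epoch.
-/

set_option autoImplicit false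
set_option linter.unusedSectionVars false

namespace Pool.Agent.GMH.GhoS

open Finset Pool.Agent.PWZ Pool.Agent.M3 Pool.Agent.GMH.Gdy Pool.Agent.GMH.CR Pool.Agent.GMH.Three
open Pool.Agent.GMH.Blk Pool.Agent.GMH.GhoV
open Pool.Agent.GMH.Tree (stp_le stp_eq one_sum one_cnt)
open Pool.Agent.GMH.GhoZ (z z_one z_fac sec sec_fac row_mass row_pay)
open Pool.Agent.GMH.GdyR (covL covL_facV PhL)

noncomputable section

variable {Om : Type*} [Fintype Om] {P : FP Om}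

/-! ## before `T^S`: two faces which meet at a vertex -/

section meet

variable {κ κ' κ'' ν : ℕ → Type*} {N : ∀ t, Om → κ t} {Yc : ∀ t, Om → κ' t} {Yd : ∀ t, Om → κ'' t}
  {nd : ∀ t, Om → ν t} {R : Om → Prop} {σ : Om → ℕ} {T : ℕ} {uS u' : ℝ}

/-- a stopping time of the coarser filtration is a stopping time of the finer one -/
theorem stp_up (nN : ∀ s, Fac (N s) (nd s)) (hσ : Stp nd σ) : Stp N σ := fun t x w e => hσ t x w (nN t x w e)

/-- vertices with a large density at a node of small density are few -/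
theorem few_le (fnd : Filt nd) (nN : ∀ s, Fac (N s) (nd s)) (hσ : Stp nd σ) (hT : ∀ w, σ w < T) (u0 : 0 < u')
    (S0 : 0 ≤ uS) {Hv : ℕ → Om → Prop} (hHv : ∀ s x w, nd s x = nd s w → (Hv s x ↔ Hv s w)) :
    P.Pr (fun w => Hv (σ w) w ∧ cp P nd (σ w) R w < uS ∧ u' ≤ cp P N (σ w) R w) ≤
      uS / u' * P.Pr (fun w => Hv (σ w) w) := by
  have e0 : P.Pr (fun w => Hv (σ w) w ∧ cp P nd (σ w) R w < uS ∧ u' ≤ cp P N (σ w) R w) =
      P.E (fun w => ind (Hv (σ w) w ∧ cp P nd (σ w) R w < uS ∧ u' ≤ cp P N (σ w) R w)) := rfl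
  have e1 : P.Pr (fun w => Hv (σ w) w) = P.E (fun w => ind (Hv (σ w) w)) := rfl
  rw [e0, e1, E_stop hT (fun s w => ind (Hv s w ∧ cp P nd s R w < uS ∧ u' ≤ cp P N s R w)),
    E_stop hT (fun s w => ind (Hv s w)), Finset.mul_sum]
  refine Finset.sum_le_sum fun s _ => ?_
  have hF : Fac (nd s) (fun w => ind (σ w = s) * (ind (Hv s w) * ind (cp P nd s R w < uS))) := fun x w e => by
    show ind (σ x = s) * (ind (Hv s x) * ind (cp P nd s R x < uS)) =
      ind (σ w = s) * (ind (Hv s w) * ind (cp P nd s R w < uS))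
    rw [cp_fac s R x w e, propext (stp_eq fnd (fun _ => Fac.refl _) hσ e), propext (hHv s x w e)]
  have h1 : P.E (fun w => ind (σ w = s) * ind (Hv s w ∧ cp P nd s R w < uS ∧ u' ≤ cp P N s R w)) ≤
      P.E (fun w => (ind (σ w = s) * (ind (Hv s w) * ind (cp P nd s R w < uS))) * (cp P N s R w / u')) := by
    refine P.E_mono fun w _ => ?_
    have n1 := ind_nonneg (σ w = s)
    have n2 := ind_nonneg (Hv s w)
    have n3 := ind_nonneg (cp P nd s R w < uS)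
    have n4 : 0 ≤ cp P N s R w := cp_nonneg _ _ _
    by_cases h : Hv s w ∧ cp P nd s R w < uS ∧ u' ≤ cp P N s R w
    · rw [ind_of h, ind_of h.1, ind_of h.2.1, mul_one, mul_one]
      have h5 : 1 ≤ cp P N s R w / u' := by rw [le_div_iff₀ u0]; linarith [h.2.2]
      have h6 := mul_le_mul_of_nonneg_left h5 n1
      linarith
    · rw [ind_not h, mul_zero]
      positivity
  have h2 : P.E (fun w => (ind (σ w = s) * (ind (Hv s w) * ind (cp P nd s R w < uS))) * (cp P N s R w / u')) =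
      P.E (fun w => (ind (σ w = s) * (ind (Hv s w) * ind (cp P nd s R w < uS))) * (cp P nd s R w / u')) := by
    rw [← P.E_mul_ce hF (fun w => cp P N s R w / u')]
    refine P.E_congr fun w _ => ?_
    congr 1
    have e2 : P.ce (nd s) (fun w => cp P N s R w / u') w = P.ce (nd s) (cp P N s R) w / u' := by
      have e3 : (fun w => cp P N s R w / u') = fun w => u'⁻¹ * cp P N s R w := funext fun w => by
        rw [div_eq_inv_mul]
      rw [e3, P.ce_smul, div_eq_inv_mul]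
    rw [e2]
    congr 1
    exact P.ce_tower (nN s) (fun w => ind (R w)) w
  refine h1.trans (h2.le.trans ?_)
  rw [← FP.E_smul]
  refine P.E_mono fun w _ => ?_
  have n1 := ind_nonneg (σ w = s)
  have n2 := ind_nonneg (Hv s w)
  have n4 : 0 ≤ uS / u' := div_nonneg S0 u0.le
  by_cases h : cp P nd s R w < uS
  · rw [ind_of h, mul_one]
    have h3 : cp P nd s R w / u' ≤ uS / u' := div_le_div_of_nonneg_right h.le u0.le
    have h4 := mul_le_mul_of_nonneg_left h3 (mul_nonneg n1 n2)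
    linarith
  · rw [ind_not h, mul_zero, mul_zero, zero_mul]
    positivity

/-- **BEFORE `T^S`, TWO FACES WHICH MEET AT THE VERTEX `N`** -/
theorem meet_le (hci : CI P N Yc Yd) (fN : Filt N) (fnd : Filt nd) (nN : ∀ s, Fac (N s) (nd s)) (hσ : Stp nd σ)
    (hT : ∀ w, σ w < T) {X Y : ℕ → Om → ℝ} (hX : ∀ s, Fac (Yc s) (X s)) (hY : ∀ s, Fac (Yd s) (Y s))
    (X0 : ∀ s w, 0 ≤ X s w) (X1 : ∀ s w, X s w ≤ 1) (Y0 : ∀ s w, 0 ≤ Y s w) (Y1 : ∀ s w, Y s w ≤ 1) (u0 : 0 < u')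
    (S0 : 0 ≤ uS) {Hv : ℕ → Om → Prop} (hHv : ∀ s x w, nd s x = nd s w → (Hv s x ↔ Hv s w)) {rm : Om → Prop}
    {W : Om → ℝ} (hW : ∀ w, W w ≤ X (σ w) w * Y (σ w) w) (hr : ∀ w, W w ≤ ind (rm w)) :
    P.E (fun w => ind (R w ∧ cp P nd (σ w) R w < uS) * W w) ≤
      Real.sqrt u' * ((P.E (fun w => X (σ w) w) + P.E (fun w => Y (σ w) w)) / 2) +
        uS / u' * P.Pr (fun w => Hv (σ w) w) +
        P.Pr (fun w => rm w ∧ R w ∧ ¬ Hv (σ w) w ∧ u' ≤ cp P N (σ w) R w) := by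
  have h1 := light_end (R := R) hci fN (stp_up nN hσ) hT hX hY X0 X1 Y0 Y1 u' (W := fun w => X (σ w) w * Y (σ w) w)
    (fun w => le_rfl)
  have h2 := few_le (P := P) (R := R) (uS := uS) fnd nN hσ hT u0 S0 hHv
  refine le_trans ?_ (add_le_add (add_le_add h1 h2) le_rfl)
  have e0 : P.Pr (fun w => Hv (σ w) w ∧ cp P nd (σ w) R w < uS ∧ u' ≤ cp P N (σ w) R w) =
      P.E (fun w => ind (Hv (σ w) w ∧ cp P nd (σ w) R w < uS ∧ u' ≤ cp P N (σ w) R w)) := rfl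
  have e1 : P.Pr (fun w => rm w ∧ R w ∧ ¬ Hv (σ w) w ∧ u' ≤ cp P N (σ w) R w) =
      P.E (fun w => ind (rm w ∧ R w ∧ ¬ Hv (σ w) w ∧ u' ≤ cp P N (σ w) R w)) := rfl
  rw [e0, e1, ← FP.E_add, ← FP.E_add]
  refine P.E_mono fun w _ => ?_
  have n1 := ind_nonneg (R w ∧ cp P N (σ w) R w < u')
  have n2 := ind_nonneg (Hv (σ w) w ∧ cp P nd (σ w) R w < uS ∧ u' ≤ cp P N (σ w) R w)
  have n3 := ind_nonneg (rm w ∧ R w ∧ ¬ Hv (σ w) w ∧ u' ≤ cp P N (σ w) R w)
  have n4 : 0 ≤ X (σ w) w * Y (σ w) w := mul_nonneg (X0 _ _) (Y0 _ _)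
  have n5 := ind_le_one (rm w)
  by_cases a : R w ∧ cp P nd (σ w) R w < uS
  · rw [ind_of a, one_mul]
    by_cases b : cp P N (σ w) R w < u'
    · rw [ind_of ⟨a.1, b⟩, one_mul]
      have := hW w
      linarith
    · by_cases c : Hv (σ w) w
      · rw [ind_of (show Hv (σ w) w ∧ cp P nd (σ w) R w < uS ∧ u' ≤ cp P N (σ w) R w from ⟨c, a.2, not_lt.1 b⟩)]
        have h3 := hr w
        have h4 := mul_nonneg n1 n4
        linarith
      · by_cases d : rm w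
        · rw [ind_of (show rm w ∧ R w ∧ ¬ Hv (σ w) w ∧ u' ≤ cp P N (σ w) R w from ⟨d, a.1, c, not_lt.1 b⟩)]
          have h3 := hr w
          have h4 := mul_nonneg n1 n4
          linarith
        · have h3 := hr w
          rw [ind_not d] at h3
          have h4 := mul_nonneg n1 n4
          linarith
  · rw [ind_not a, zero_mul]
    have h4 := mul_nonneg n1 n4
    linarith

/-- **DECIDED AT AN EXACT VERTEX, SMALL DENSITY AT THE END** -/
theorem dec_le (fN : Filt N) (hσ : Stp N σ) (hT : ∀ w, σ w < T) (u0 : 0 ≤ u') {Dc : ℕ → Om → Prop}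
    (hDc : ∀ s x w, N s x = N s w → (Dc s x ↔ Dc s w)) :
    P.Pr (fun w => Dc (σ w) w ∧ R w ∧ cp P N (σ w) R w < u') ≤ u' * P.Pr (fun w => Dc (σ w) w) := by
  have e0 : P.Pr (fun w => Dc (σ w) w ∧ R w ∧ cp P N (σ w) R w < u') =
      P.E (fun w => ind (Dc (σ w) w ∧ R w ∧ cp P N (σ w) R w < u')) := rfl
  have e1 : P.Pr (fun w => Dc (σ w) w) = P.E (fun w => ind (Dc (σ w) w)) := rfl
  rw [e0, e1, E_stop hT (fun s w => ind (Dc s w ∧ R w ∧ cp P N s R w < u')),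
    E_stop hT (fun s w => ind (Dc s w)), Finset.mul_sum]
  refine Finset.sum_le_sum fun s _ => ?_
  have hF : Fac (N s) (fun w => ind (σ w = s) * (ind (Dc s w) * ind (cp P N s R w < u'))) := fun x w e => by
    show ind (σ x = s) * (ind (Dc s x) * ind (cp P N s R x < u')) =
      ind (σ w = s) * (ind (Dc s w) * ind (cp P N s R w < u'))
    rw [cp_fac s R x w e, propext (stp_eq fN (fun _ => Fac.refl _) hσ e), propext (hDc s x w e)]
  have h1 : P.E (fun w => ind (σ w = s) * ind (Dc s w ∧ R w ∧ cp P N s R w < u')) =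
      P.E (fun w => (ind (σ w = s) * (ind (Dc s w) * ind (cp P N s R w < u'))) * ind (R w)) :=
    P.E_congr fun w _ => by
      rw [ind_and, ind_and]
      ring
  rw [h1, ← P.E_mul_ce hF (fun w => ind (R w)), ← FP.E_smul]
  refine P.E_mono fun w _ => ?_
  have n1 := ind_nonneg (σ w = s)
  have n2 := ind_nonneg (Dc s w)
  by_cases h : cp P N s R w < u'
  · rw [ind_of h, mul_one]
    have h4 := mul_le_mul_of_nonneg_left h.le (mul_nonneg n1 n2)
    have h5 : cp P N s R w = P.ce (N s) (fun w => ind (R w)) w := rfl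
    rw [← h5]
    linarith
  · rw [ind_not h, mul_zero, mul_zero, zero_mul]
    positivity

end meet

/-! ## after `T^S` -/

section after

variable {β δ : Type*} {BC : Om → β} {D : Om → δ} {κb κd ν : ℕ → Type*} {Xbc : ∀ t, Om → κb t} {Xd : ∀ t, Om → κd t}
  {nd : ∀ t, Om → ν t} {R : Om → Prop} {uS h kap kap' : ℝ} {σ : Om → ℕ} {T : ℕ} {K K' M M' : ℕ}
  {x : Fin M → β} {y : Fin M' → δ}

variable (P BC D Xbc Xd nd R σ T) in
/-- the setting: `(b, c)` and `d` at fixed `a` -/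
structure Ss : Prop where
  iD : P.Indep BC D
  fXd : Filt Xd
  fXb : Filt Xbc
  hXd : ∀ s, Fac D (Xd s)
  hXb : ∀ s, Fac BC (Xbc s)
  nb : ∀ s, Fac (nd s) (fun v => (Xbc s v, Xd s v))
  bn : ∀ s, Fac (fun v => (Xbc s v, Xd s v)) (nd s)
  pR : ∀ x w, BC x = BC w → D x = D w → (R x ↔ R w)
  st : Stp nd σ
  sT : ∀ w, σ w < T

theorem Ss.fnd (hs : Ss P BC D Xbc Xd nd R σ T) : Filt nd := fun t v w e =>
  hs.bn t v w (pair_filt hs.fXb hs.fXd t v w (hs.nb (t + 1) v w e))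

theorem Ss.vB (hs : Ss P BC D Xbc Xd nd R σ T) (s : ℕ) : Fac (fun v => (BC v, Xd s v)) (nd s) := fun v w e => by
  have e1 : BC v = BC w ∧ Xd s v = Xd s w := Prod.mk.injEq _ _ _ _ ▸ e
  exact hs.bn s v w (Prod.ext (hs.hXb s v w e1.1) e1.2)

theorem Ss.vD (hs : Ss P BC D Xbc Xd nd R σ T) (s : ℕ) : Fac (fun v => (D v, Xbc s v)) (nd s) := fun v w e => by
  have e1 : D v = D w ∧ Xbc s v = Xbc s w := Prod.mk.injEq _ _ _ _ ▸ e
  exact hs.bn s v w (Prod.ext e1.2 (hs.hXd s v w e1.1))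

/-- a function of `d` : the cell of `(b, c)` may be forgotten -/
theorem Ss.cd (hs : Ss P BC D Xbc Xd nd R σ T) (s : ℕ) {g : Om → ℝ} (hg : Fac D g) {w : Om} (hw : P.p w ≠ 0) :
    P.ce (Xd s) g w = P.ce (nd s) g w :=
  GhoZ.chg (U := BC) (V := D) (cU := Xbc s) (X := Xd s) (nd := nd s) hs.iD (hs.hXb s) (hs.hXd s) (hs.bn s) (hs.nb s) hg hw

/-- a function of `(b, c)` : the cell of `d` may be forgotten -/
theorem Ss.cb (hs : Ss P BC D Xbc Xd nd R σ T) (s : ℕ) {g : Om → ℝ} (hg : Fac BC g) {w : Om} (hw : P.p w ≠ 0) :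
    P.ce (Xbc s) g w = P.ce (nd s) g w :=
  GhoZ.chg (U := D) (V := BC) (cU := Xd s) (X := Xbc s) (nd := nd s) hs.iD.symm (hs.hXd s) (hs.hXb s)
    (fun v w e => by
      have e1 : Xd s v = Xd s w ∧ Xbc s v = Xbc s w := Prod.mk.injEq _ _ _ _ ▸ e
      exact hs.bn s v w (Prod.ext e1.2 e1.1))
    (fun v w e => by
      have e1 : Xbc s v = Xbc s w ∧ Xd s v = Xd s w := Prod.mk.injEq _ _ _ _ ▸ hs.nb s v w e
      exact Prod.ext e1.2 e1.1) hg hw

theorem Ss.ci (hs : Ss P BC D Xbc Xd nd R σ T) :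
    CI P nd (fun s v => (BC v, Xd s v)) (fun s v => (D v, Xbc s v)) := by
  intro s f g hf hg w hw
  have h1 := Blk.ci (P := P) hs.iD hs.hXb hs.hXd s f g hf hg w hw
  have c1 : ∀ k : Om → ℝ, P.ce (nd s) k w = P.ce (pair Xbc Xd s) k w := fun k =>
    P.ce_congr_map (hs.nb s) (hs.bn s) k w
  rw [c1, c1, c1]
  exact h1

variable (P nd R uS σ) in
/-- the tuples of `T^S = s ≤ σ` -/
def As (s : ℕ) (w : Om) : Prop := z P nd R uS σ s w ∧ R w

variable (P BC D Xd nd R uS σ kap K x) in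
/-- `d` covered by the rows of the sample `(b_i, c_i)` -/
def Cd (s : ℕ) (w : Om) : Prop := covL P Xd (sec BC D (As P nd R uS σ)) (fun _ _ => 1) kap 1 K x s w

variable (P BC D Xd nd R uS σ kap K x) in
/-- the tuples with `d` covered -/
def Bs (s : ℕ) (w : Om) : Prop := As P nd R uS σ s w ∧ Cd P BC D Xd nd R uS kap σ K x s w

variable (P BC D Xbc Xd nd R uS σ kap kap' K K' x y) in
/-- `(b, c)` covered by the rows of the sample `d_i` -/
def Cb (s : ℕ) (w : Om) : Prop :=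
  covL P Xbc (sec D BC (Bs P BC D Xd nd R uS kap σ K x)) (fun _ _ => 1) kap' 1 K' y s w

theorem As_fac (hs : Ss P BC D Xbc Xd nd R σ T) (s : ℕ) (v w : Om) (e : BC v = BC w) (e' : D v = D w) :
    As P nd R uS σ s v ↔ As P nd R uS σ s w := by
  have e1 : nd s v = nd s w := hs.vB s v w (Prod.ext e (hs.hXd s v w e'))
  unfold As
  rw [z_fac hs.fnd hs.st s e1, hs.pR v w e e']

theorem Cd_fac (hs : Ss P BC D Xbc Xd nd R σ T) (s : ℕ) (v w : Om) (e : D v = D w) :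
    Cd P BC D Xd nd R uS kap σ K x s v ↔ Cd P BC D Xd nd R uS kap σ K x s w :=
  covL_facV (V := D) hs.hXd (fun s a v w e => sec_fac s a v w e) s v w e

theorem Bs_fac (hs : Ss P BC D Xbc Xd nd R σ T) (s : ℕ) (v w : Om) (e : BC v = BC w) (e' : D v = D w) :
    Bs P BC D Xd nd R uS kap σ K x s v ↔ Bs P BC D Xd nd R uS kap σ K x s w := by
  unfold Bs
  rw [As_fac hs s v w e e', Cd_fac hs s v w e']

theorem Cb_fac (hs : Ss P BC D Xbc Xd nd R σ T) (s : ℕ) (v w : Om) (e : BC v = BC w) :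
    Cb P BC D Xbc Xd nd R uS kap kap' σ K K' x y s v ↔ Cb P BC D Xbc Xd nd R uS kap kap' σ K K' x y s w :=
  covL_facV (V := BC) hs.hXb (fun s a v w e => sec_fac s a v w e) s v w e

/-- uncovered `d` -/
theorem unc_d (hs : Ss P BC D Xbc Xd nd R σ T) (k0 : 0 ≤ kap) :
    P.Pr (fun w => ∃ s, As P nd R uS σ s w ∧ ¬ Cd P BC D Xd nd R uS kap σ K x s w) ≤
      kap * P.Pr (fun w => ∃ s, z P nd R uS σ s w) +
        P.Pr (fun w => GdyR.bad P Xd (sec BC D (As P nd R uS σ)) (fun _ _ => 1) kap 1 K x (BC w) T w) :=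
  row_mass (U := BC) (V := D) (X := Xd) (A := As P nd R uS σ) (z := z P nd R uS σ) hs.iD hs.hXd
    (fun s v w e e' => As_fac hs s v w e e')
    (fun s v w e => z_fac (R := R) (u0 := uS) hs.fnd hs.st s (hs.vB s v w e)) (fun w s s' a b => z_one w s s' a b)
    (fun _ w a => lt_of_le_of_lt a.2 (hs.sT w)) (fun _ _ a => a.1) k0

/-- `d` covered, uncovered `(b, c)` -/
theorem unc_bc (hs : Ss P BC D Xbc Xd nd R σ T) (k0 : 0 ≤ kap') :
    P.Pr (fun w => ∃ s, Bs P BC D Xd nd R uS kap σ K x s w ∧ ¬ Cb P BC D Xbc Xd nd R uS kap kap' σ K K' x y s w) ≤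
      kap' * P.Pr (fun w => ∃ s, z P nd R uS σ s w) +
        P.Pr (fun w => GdyR.bad P Xbc (sec D BC (Bs P BC D Xd nd R uS kap σ K x)) (fun _ _ => 1) kap' 1 K' y (D w)
          T w) :=
  row_mass (U := D) (V := BC) (X := Xbc) (A := Bs P BC D Xd nd R uS kap σ K x) (z := z P nd R uS σ) hs.iD.symm hs.hXb
    (fun s v w e e' => Bs_fac hs s v w e' e)
    (fun s v w e => z_fac (R := R) (u0 := uS) hs.fnd hs.st s (hs.vD s v w e)) (fun w s s' a b => z_one w s s' a b)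
    (fun _ w a => lt_of_le_of_lt a.2 (hs.sT w)) (fun _ _ a => a.1.1) k0

/-- **THE WHOLE RELATION AFTER `T^S`** -/
theorem drop_le (hs : Ss P BC D Xbc Xd nd R σ T) (k0 : 0 ≤ kap) (k0' : 0 ≤ kap') (h0 : 0 ≤ h)
    (hm : ∀ s w, P.p w ≠ 0 → P.m (nd s) w ≤ h * P.m (nd (s + 1)) w) :
    P.Pr (fun w => R w ∧ ∃ s, z P nd R uS σ s w) ≤
      (kap + kap') * P.Pr (fun w => ∃ s, z P nd R uS σ s w) +
      (P.Pr (fun w => GdyR.bad P Xd (sec BC D (As P nd R uS σ)) (fun _ _ => 1) kap 1 K x (BC w) T w) +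
        P.Pr (fun w => GdyR.bad P Xbc (sec D BC (Bs P BC D Xd nd R uS kap σ K x)) (fun _ _ => 1) kap' 1 K' y (D w)
          T w)) +
      (Real.sqrt (h * uS) * ((P.Pr (fun w => ∃ s, z P nd R uS σ s w ∧
          Cb P BC D Xbc Xd nd R uS kap kap' σ K K' x y s w) +
        P.Pr (fun w => ∃ s, z P nd R uS σ s w ∧ Cd P BC D Xd nd R uS kap σ K x s w)) / 2) +
      P.Pr (fun w => z P nd R uS σ 0 w ∧ h * uS < cp P nd 0 R w ∧ R w)) := by
  have h1 := unc_d (kap := kap) (uS := uS) (K := K) (x := x) hs k0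
  have h2 := unc_bc (kap := kap) (kap' := kap') (uS := uS) (K := K) (K' := K') (x := x) (y := y) hs k0'
  have h3 := both_first (P := P) (N := nd) (R := R) (f := z P nd R uS σ) (T := T) (u := uS) (h := h)
    (K := Cb P BC D Xbc Xd nd R uS kap kap' σ K K' x y) (K' := Cd P BC D Xd nd R uS kap σ K x) hs.ci hs.fnd
    (fun s x w e => z_fac hs.fnd hs.st s e) (fun w s s' a b => z_one w s s' a b)
    (fun _ w a => lt_of_le_of_lt a.2 (hs.sT w))
    (fun s v w e => Cb_fac hs s v w (Prod.mk.injEq _ _ _ _ ▸ e : BC v = BC w ∧ Xd s v = Xd s w).1)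
    (fun s v w e => Cd_fac hs s v w (Prod.mk.injEq _ _ _ _ ▸ e : D v = D w ∧ Xbc s v = Xbc s w).1)
    h0 hm (fun s w a s' hs' => not_le.1 (a.1.2 s' hs'))
  have h4 : P.Pr (fun w => R w ∧ ∃ s, z P nd R uS σ s w) ≤
      P.Pr (fun w => ∃ s, As P nd R uS σ s w ∧ ¬ Cd P BC D Xd nd R uS kap σ K x s w) +
      P.Pr (fun w => ∃ s, Bs P BC D Xd nd R uS kap σ K x s w ∧ ¬ Cb P BC D Xbc Xd nd R uS kap kap' σ K K' x y s w) +
      P.Pr (fun w => ∃ s, z P nd R uS σ s w ∧ Cb P BC D Xbc Xd nd R uS kap kap' σ K K' x y s w ∧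
        Cd P BC D Xd nd R uS kap σ K x s w ∧ R w) := by
    unfold FP.Pr
    rw [← FP.E_add, ← FP.E_add]
    refine P.E_mono fun w _ => ?_
    have n1 := ind_nonneg (∃ s, As P nd R uS σ s w ∧ ¬ Cd P BC D Xd nd R uS kap σ K x s w)
    have n2 := ind_nonneg (∃ s, Bs P BC D Xd nd R uS kap σ K x s w ∧
      ¬ Cb P BC D Xbc Xd nd R uS kap kap' σ K K' x y s w)
    have n3 := ind_nonneg (∃ s, z P nd R uS σ s w ∧ Cb P BC D Xbc Xd nd R uS kap kap' σ K K' x y s w ∧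
        Cd P BC D Xd nd R uS kap σ K x s w ∧ R w)
    by_cases a : R w ∧ ∃ s, z P nd R uS σ s w
    · obtain ⟨r, s, hz⟩ := a
      rw [ind_of ⟨r, s, hz⟩]
      by_cases b : Cd P BC D Xd nd R uS kap σ K x s w
      · by_cases c : Cb P BC D Xbc Xd nd R uS kap kap' σ K K' x y s w
        · rw [ind_of (show ∃ s, z P nd R uS σ s w ∧ Cb P BC D Xbc Xd nd R uS kap kap' σ K K' x y s w ∧
            Cd P BC D Xd nd R uS kap σ K x s w ∧ R w from ⟨s, hz, c, b, r⟩)]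
          linarith
        · rw [ind_of (show ∃ s, Bs P BC D Xd nd R uS kap σ K x s w ∧
            ¬ Cb P BC D Xbc Xd nd R uS kap kap' σ K K' x y s w from ⟨s, ⟨⟨hz, r⟩, b⟩, c⟩)]
          linarith
      · rw [ind_of (show ∃ s, As P nd R uS σ s w ∧ ¬ Cd P BC D Xd nd R uS kap σ K x s w from ⟨s, ⟨hz, r⟩, b⟩)]
        linarith
    · rw [ind_not a]
      linarith
  linarith

/-- bad rows `(b_i, c_i)` -/
theorem bad_d [Fintype β] (hs : Ss P BC D Xbc Xd nd R σ T) (hK : 1 < kap * K) (k0 : 0 < kap) (M : ℕ) :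
    ∑ x : Fin M → β, sw (fun a => P.Pr (fun w => BC w = a)) x *
      P.Pr (fun w => GdyR.bad P Xd (sec BC D (As P nd R uS σ)) (fun _ _ => 1) kap 1 K x (BC w) T w) ≤
      1 / (kap * (M + 1)) :=
  GdyR.bad_ind hs.iD hs.hXd hs.fXd hK k0 M T

/-- bad rows `d_i`, for every sample `x` -/
theorem bad_bc [Fintype δ] (hs : Ss P BC D Xbc Xd nd R σ T) (hK : 1 < kap' * K') (k0 : 0 < kap') (M' : ℕ)
    (x : Fin M → β) :
    ∑ y : Fin M' → δ, sw (fun a => P.Pr (fun w => D w = a)) y *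
      P.Pr (fun w => GdyR.bad P Xbc (sec D BC (Bs P BC D Xd nd R uS kap σ K x)) (fun _ _ => 1) kap' 1 K' y (D w)
        T w) ≤ 1 / (kap' * (M' + 1)) :=
  GdyR.bad_ind hs.iD.symm hs.hXb hs.fXb hK k0 M' T

/-- **PAYMENT BY `l_d`** -/
theorem pay_d (hs : Ss P BC D Xbc Xd nd R σ T) (hK : 0 < K) :
    P.Pr (fun w => ∃ s, z P nd R uS σ s w ∧ Cd P BC D Xd nd R uS kap σ K x s w) ≤
      2 * P.E (fun w => PhL P nd (sec BC D (As P nd R uS σ)) (fun _ _ => 1) kap 1 K x (σ w) w) := by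
  have h1 := row_pay (P := P) (U := BC) (V := D) (X := Xd) (nd := nd) (A := As P nd R uS σ) (f := fun _ _ => (1 : ℝ))
    (kap := kap) (lam := 1) (K := K) (x := x) (σ := σ) hs.fnd hs.hXd hs.st (fun s g hg w hw => hs.cd s hg hw) hK
    zero_le_one (fun _ => Fac.const _ _) (E := z P nd R uS σ) (fun _ _ a => a.2)
  rw [one_mul] at h1
  exact h1

/-- **PAYMENT BY THE TOP OF `(b, c)` (OR BY `l_b`, `l_c`)** -/
theorem pay_bc (hs : Ss P BC D Xbc Xd nd R σ T) (hK : 0 < K') :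
    P.Pr (fun w => ∃ s, z P nd R uS σ s w ∧ Cb P BC D Xbc Xd nd R uS kap kap' σ K K' x y s w) ≤
      2 * P.E (fun w => PhL P nd (sec D BC (Bs P BC D Xd nd R uS kap σ K x)) (fun _ _ => 1) kap' 1 K' y (σ w) w) := by
  have h1 := row_pay (P := P) (U := D) (V := BC) (X := Xbc) (nd := nd) (A := Bs P BC D Xd nd R uS kap σ K x)
    (f := fun _ _ => (1 : ℝ)) (kap := kap') (lam := 1) (K := K') (x := y) (σ := σ) hs.fnd hs.hXb hs.st
    (fun s g hg w hw => hs.cb s hg hw) hK zero_le_one (fun _ => Fac.const _ _) (E := z P nd R uS σ) (fun _ _ a => a.2)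
  rw [one_mul] at h1
  exact h1

/-- **THE NUMBER OF `T^S`** -/
theorem cnt_S {yS : ℝ} {rm nr : Om → Prop} (fnd : Filt nd) (hσ : Stp nd σ) (hT : ∀ w, σ w < T) (y0 : 0 ≤ yS)
    (hnr : ∀ s x w, nd s x = nd s w → σ w = s → (nr x ↔ nr w)) (hrn : ∀ w, rm w ∨ nr w)
    (hd : ∀ w, P.p w ≠ 0 → nr w → (∃ s, z P nd R uS σ s w) → cp P nd (σ w) R w ≤ yS) :
    (uS - yS) * P.Pr (fun w => ∃ s, z P nd R uS σ s w) ≤ P.Pr (fun w => rm w ∧ R w ∧ ∃ s, z P nd R uS σ s w) := by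
  have e1 : ∀ w, (∃ s ≤ σ w, Tb P nd R uS s w) = (∃ s, z P nd R uS σ s w) := fun w =>
    propext ⟨fun ⟨s, a, b⟩ => ⟨s, b, a⟩, fun ⟨s, b, a⟩ => ⟨s, a, b⟩⟩
  have h1 := GhoP.cnt_le (P := P) (N := nd) (R := R) (q := uS) (y := yS) (σ := σ) (T := T) (rm := rm) (nr := nr) fnd hσ
    hT y0 hnr hrn (fun w hw a b => hd w hw a (e1 w ▸ b))
  simp only [e1] at h1
  exact h1

end after

/-! ## one public epoch -/

section tot

variable {β δ : Type*} {BC : Om → β} {D : Om → δ} {κb κd ν : ℕ → Type*} {Xbc : ∀ t, Om → κb t} {Xd : ∀ t, Om → κd t}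
  {nd : ∀ t, Om → ν t} {R : Om → Prop} {uS u' h kap kap' : ℝ} {σ : Om → ℕ} {T : ℕ} {K K' M M' : ℕ}
  {x : Fin M → β} {y : Fin M' → δ}
  {ι : Type*} [Fintype ι] {κ κ' κ'' : ι → ℕ → Type*} {N : ∀ i t, Om → κ i t} {Yc : ∀ i t, Om → κ' i t}
  {Yd : ∀ i t, Om → κ'' i t}

/-- **ONE PUBLIC EPOCH** : the weight is at most `Xt Yt` (face `bc` active, `l_d` strong) plus the sum over the vertices `i`
of `X i Y i` (two active faces which meet there) -/
theorem total (hs : Ss P BC D Xbc Xd nd R σ T) (k0 : 0 ≤ kap) (k0' : 0 ≤ kap') (h0 : 0 ≤ h)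
    (hm : ∀ s w, P.p w ≠ 0 → P.m (nd s) w ≤ h * P.m (nd (s + 1)) w)
    {Xt Yt : ℕ → Om → ℝ} (hXt : ∀ s, Fac (fun v => (BC v, Xd s v)) (Xt s))
    (hYt : ∀ s, Fac (fun v => (D v, Xbc s v)) (Yt s)) (Xt0 : ∀ s w, 0 ≤ Xt s w) (Xt1 : ∀ s w, Xt s w ≤ 1)
    (Yt0 : ∀ s w, 0 ≤ Yt s w) (Yt1 : ∀ s w, Yt s w ≤ 1)
    (hci : ∀ i, CI P (N i) (Yc i) (Yd i)) (fN : ∀ i, Filt (N i)) (nN : ∀ i s, Fac (N i s) (nd s))
    {X Y : ι → ℕ → Om → ℝ} (hX : ∀ i s, Fac (Yc i s) (X i s)) (hY : ∀ i s, Fac (Yd i s) (Y i s))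
    (X0 : ∀ i s w, 0 ≤ X i s w) (X1 : ∀ i s w, X i s w ≤ 1) (Y0 : ∀ i s w, 0 ≤ Y i s w) (Y1 : ∀ i s w, Y i s w ≤ 1)
    (u0 : 0 < u') (S0 : 0 ≤ uS) {Hv : ℕ → Om → Prop} (hHv : ∀ s x w, nd s x = nd s w → (Hv s x ↔ Hv s w))
    {rm : Om → Prop} {W : Om → ℝ} (hW : ∀ w, W w ≤ Xt (σ w) w * Yt (σ w) w + ∑ i, X i (σ w) w * Y i (σ w) w)
    (hr : ∀ w, W w ≤ ind (rm w)) :
    P.E (fun w => ind (R w) * W w) ≤
      Real.sqrt uS * ((P.E (fun w => Xt (σ w) w) + P.E (fun w => Yt (σ w) w)) / 2) +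
      (∑ i, (Real.sqrt u' * ((P.E (fun w => X i (σ w) w) + P.E (fun w => Y i (σ w) w)) / 2) +
        uS / u' * P.Pr (fun w => Hv (σ w) w) +
        P.Pr (fun w => rm w ∧ R w ∧ ¬ Hv (σ w) w ∧ u' ≤ cp P (N i) (σ w) R w))) +
      ((kap + kap') * P.Pr (fun w => ∃ s, z P nd R uS σ s w) +
      (P.Pr (fun w => GdyR.bad P Xd (sec BC D (As P nd R uS σ)) (fun _ _ => 1) kap 1 K x (BC w) T w) +
        P.Pr (fun w => GdyR.bad P Xbc (sec D BC (Bs P BC D Xd nd R uS kap σ K x)) (fun _ _ => 1) kap' 1 K' y (D w)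
          T w)) +
      (Real.sqrt (h * uS) * ((P.Pr (fun w => ∃ s, z P nd R uS σ s w ∧
          Cb P BC D Xbc Xd nd R uS kap kap' σ K K' x y s w) +
        P.Pr (fun w => ∃ s, z P nd R uS σ s w ∧ Cd P BC D Xd nd R uS kap σ K x s w)) / 2) +
      P.Pr (fun w => z P nd R uS σ 0 w ∧ h * uS < cp P nd 0 R w ∧ R w))) := by
  have h1 := light_end (R := R) hs.ci hs.fnd hs.st hs.sT hXt hYt Xt0 Xt1 Yt0 Yt1 uS
    (W := fun w => Xt (σ w) w * Yt (σ w) w) (fun w => le_rfl)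
  have h2 : ∀ i, P.E (fun w => ind (R w ∧ cp P nd (σ w) R w < uS) *
      min (X i (σ w) w * Y i (σ w) w) (ind (rm w))) ≤ _ := fun i =>
    meet_le (P := P) (N := N i) (nd := nd) (R := R) (uS := uS) (u' := u') (T := T) (hci i) (fN i) hs.fnd (nN i) hs.st
      hs.sT (hX i) (hY i) (X0 i) (X1 i) (Y0 i) (Y1 i) u0 S0 hHv (rm := rm)
      (W := fun w => min (X i (σ w) w * Y i (σ w) w) (ind (rm w))) (fun w => min_le_left _ _) (fun w => min_le_right _ _)
  have h3 := drop_le (K := K) (K' := K') (x := x) (y := y) (uS := uS) hs k0 k0' h0 hm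
  refine le_trans ?_ (add_le_add (add_le_add h1 (Finset.sum_le_sum fun i _ => h2 i)) h3)
  have e0 : P.Pr (fun w => R w ∧ ∃ s, z P nd R uS σ s w) = P.E (fun w => ind (R w ∧ ∃ s, z P nd R uS σ s w)) := rfl
  rw [e0, ← FP.E_sum, ← FP.E_add, ← FP.E_add]
  refine P.E_mono fun w _ => ?_
  have n1 := ind_nonneg (R w ∧ cp P nd (σ w) R w < uS)
  have n2 := ind_nonneg (R w ∧ ∃ s, z P nd R uS σ s w)
  have n3 : 0 ≤ Xt (σ w) w * Yt (σ w) w := mul_nonneg (Xt0 _ _) (Yt0 _ _)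
  have n4 : ∀ i, 0 ≤ min (X i (σ w) w * Y i (σ w) w) (ind (rm w)) := fun i =>
    le_min (mul_nonneg (X0 _ _ _) (Y0 _ _ _)) (ind_nonneg _)
  have n5 : 0 ≤ ∑ i, ind (R w ∧ cp P nd (σ w) R w < uS) * min (X i (σ w) w * Y i (σ w) w) (ind (rm w)) :=
    Finset.sum_nonneg fun i _ => mul_nonneg n1 (n4 i)
  have n6 := mul_nonneg n1 n3
  have w1 : W w ≤ 1 := (hr w).trans (ind_le_one _)
  by_cases r : R w
  · rw [ind_of r, one_mul]
    by_cases a : ∃ s, z P nd R uS σ s w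
    · rw [ind_of (show R w ∧ ∃ s, z P nd R uS σ s w from ⟨r, a⟩)]
      linarith
    · have b : cp P nd (σ w) R w < uS := by
        by_contra hb
        obtain ⟨s, hs', hf⟩ := fst_ex (A := fun s w => uS ≤ cp P nd s R w) (not_lt.1 hb)
        exact a ⟨s, hf, hs'⟩
      rw [ind_of (show R w ∧ cp P nd (σ w) R w < uS from ⟨r, b⟩)]
      simp only [one_mul]
      have c : W w ≤ Xt (σ w) w * Yt (σ w) w + ∑ i, min (X i (σ w) w * Y i (σ w) w) (ind (rm w)) := by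
        by_cases d : ∃ i, ind (rm w) ≤ X i (σ w) w * Y i (σ w) w
        · obtain ⟨i, hi⟩ := d
          have c1 : min (X i (σ w) w * Y i (σ w) w) (ind (rm w)) ≤
              ∑ i, min (X i (σ w) w * Y i (σ w) w) (ind (rm w)) :=
            Finset.single_le_sum (f := fun i => min (X i (σ w) w * Y i (σ w) w) (ind (rm w))) (fun i _ => n4 i)
              (mem_univ i)
          rw [min_eq_right hi] at c1
          have := hr w
          linarith
        · have c2 : ∀ i, min (X i (σ w) w * Y i (σ w) w) (ind (rm w)) = X i (σ w) w * Y i (σ w) w := fun i =>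
            min_eq_left (not_le.1 fun hi => d ⟨i, hi⟩).le
          rw [Finset.sum_congr rfl fun i _ => c2 i]
          exact hW w
      linarith
  · rw [ind_not r, zero_mul]
    linarith

end tot

end

end Pool.Agent.GMH.GhoS
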