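import Pool.Agent.GMH.Ghost
import Pool.Agent.GMH.BlkG

/-!
# GMH/GhoT (helper99): THE CASE LIST (6) OF NOTE 4001 (GHOST WORLDS), fixed `a`

`nd s` = node, `N s` = exact `b` and the cells of `c`, `d`; `Yc s` = exact `(b, c)` and the cell of `d`, `Yd s` mirror;
`Vc s` = exact `c` and the cells of `b`, `d`, `Vd s` mirror; `Zr` = exact `(b, c)`, `Zk` = exact `(b, d)` (no time).
`R` relation, `σ` stopping time of the nodes, `Tb s` = first time with `P (R | N s) ≥ q`, `al s` : `P (R | nd s') < u0` for all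
`s' ≤ s` (so `s < T^0`).  `tk s` : `T^b = s ≤ σ`, `al s`.  `Cc s`, `Cd s` covers by listed columns, rows.
ROWS : `Ar s` = `tk s`, not `Cd s`; decision `Ghost.sel P Zr Ar R ψ L s`, light / heavy = `UU`; `Kc` = thin covers of `c`.
COLUMNS : `Ak s` = `tk s`, `Cd s`, not `Cc s`; mirror.
* `light_le`, `thin_le`, `drop_le`;
* `side_signed`, `side_left` : one side;
* `gho_signed`, `gho_unsigned` : rows and columns (`R0`); `ghx_signed`, `ghx_unsigned` : rows only (bad `F_bc`), what lies in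
  `Cd` is dropped.
-/

set_option autoImplicit false
set_option linter.unusedSectionVars false

namespace Pool.Agent.GMH.GhoT

open Finset Pool.Agent.PWZ Pool.Agent.M3 Pool.Agent.GMH.Gdy Pool.Agent.GMH.CR Pool.Agent.GMH.Three
open Pool.Agent.GMH.Blk
open Pool.Agent.GMH.Tree (stp_le stp_eq one_sum one_cnt)
open Pool.Agent.GMH.Tree3 (ev_le)
open Pool.Agent.GMH.Ghost (sel sel_fac ghost_le)

noncomputable section

/-! ## light levels -/

/-- the sum over the light levels -/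
theorem light_aux (a b : ℕ → ℝ) (ha : ∀ s, 0 ≤ a s) (hb : ∀ s, 0 ≤ b s) (T : ℕ) :
    ∑ s ∈ range T, (if ∑ i ∈ range (s + 1), a i < ∑ i ∈ range (s + 1), b i then a s else 0) ≤
      min (∑ s ∈ range T, a s) (∑ s ∈ range T, b s) := by
  induction T with
  | zero => simp
  | succ n ih =>
    rw [Finset.sum_range_succ]
    by_cases h : ∑ i ∈ range (n + 1), a i < ∑ i ∈ range (n + 1), b i
    · rw [if_pos h]
      have h1 : ∑ s ∈ range n, (if ∑ i ∈ range (s + 1), a i < ∑ i ∈ range (s + 1), b i then a s else 0) + a n ≤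
          ∑ s ∈ range (n + 1), a s := by
        rw [Finset.sum_range_succ]
        have := ih.trans (min_le_left _ _)
        linarith
      exact le_min h1 (h1.trans h.le)
    · rw [if_neg h, add_zero]
      refine ih.trans (min_le_min ?_ ?_)
      · rw [Finset.sum_range_succ]
        linarith [ha n]
      · rw [Finset.sum_range_succ]
        linarith [hb n]

variable {Om : Type*} [Fintype Om] {P : FP Om}

section light

variable {ρ : Type*} {Z : Om → ρ} {A tk : ℕ → Om → Prop} {R : Om → Prop} {g0 : ℝ} {T : ℕ}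

variable (P Z A R tk g0) in
/-- the row is light at the level `s` -/
def lgt (s : ℕ) (w : Om) : Prop :=
  ∑ i ∈ range (s + 1), P.ce Z (fun x => ind (A i x ∧ R x)) w < ∑ i ∈ range (s + 1), g0 * P.ce Z (fun x => ind (tk i x)) w

theorem lgt_fac (s : ℕ) (x w : Om) (h : Z x = Z w) : lgt P Z A tk R g0 s x ↔ lgt P Z A tk R g0 s w := by
  unfold lgt
  have e1 : ∀ i, g0 * P.ce Z (fun x => ind (tk i x)) x = g0 * P.ce Z (fun x => ind (tk i x)) w := fun i => by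
    rw [P.ce_fac Z (fun x => ind (tk i x)) x w h]
  rw [Finset.sum_congr rfl fun i _ => P.ce_fac Z (fun x => ind (A i x ∧ R x)) x w h,
    Finset.sum_congr rfl fun i _ => e1 i]

/-- **light rows** -/
theorem light_le (g00 : 0 ≤ g0) (h1 : ∀ w s s', A s w → A s' w → s = s') (hT : ∀ w s, A s w → s < T)
    (k1 : ∀ w s s', tk s w → tk s' w → s = s') (kT : ∀ w s, tk s w → s < T) :
    P.Pr (fun w => ∃ s, A s w ∧ lgt P Z A tk R g0 s w ∧ R w) ≤ g0 * P.Pr (fun w => ∃ s, tk s w) := by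
  have e1 : P.Pr (fun w => ∃ s, A s w ∧ lgt P Z A tk R g0 s w ∧ R w) =
      ∑ s ∈ range T, P.E (fun w => ind (A s w ∧ lgt P Z A tk R g0 s w ∧ R w)) := by
    unfold FP.Pr
    rw [← FP.E_sum]
    exact P.E_congr fun w _ => (sum_ind' (A := fun s => A s w ∧ lgt P Z A tk R g0 s w ∧ R w)
      (fun s s' a b => h1 w s s' a.1 b.1) (fun s a => hT w s a.1)).symm
  have e2 : P.Pr (fun w => ∃ s, tk s w) = ∑ s ∈ range T, P.E (P.ce Z fun x => ind (tk s x)) := by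
    unfold FP.Pr
    rw [Finset.sum_congr rfl fun s _ => P.E_ce Z (fun x => ind (tk s x)), ← FP.E_sum]
    exact P.E_congr fun w _ => (sum_ind' (A := fun s => tk s w) (fun s s' a b => k1 w s s' a b)
      (fun s a => kT w s a)).symm
  have e3 : ∀ s, P.E (fun w => ind (A s w ∧ lgt P Z A tk R g0 s w ∧ R w)) =
      P.E (fun w => ind (lgt P Z A tk R g0 s w) * P.ce Z (fun x => ind (A s x ∧ R x)) w) := fun s => by
    rw [P.E_mul_ce (Fac.ind fun x w h => lgt_fac s x w h)]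
    exact P.E_congr fun w _ => by
      rw [ind_and, ind_and, ind_and]
      ring
  rw [e1, e2, Finset.sum_congr rfl fun s _ => e3 s, ← FP.E_sum, ← FP.E_sum, ← FP.E_smul]
  refine P.E_mono fun w _ => ?_
  have h3 := light_aux (fun s => P.ce Z (fun x => ind (A s x ∧ R x)) w) (fun s => g0 * P.ce Z (fun x => ind (tk s x)) w)
    (fun s => P.ce_nonneg (fun _ _ => ind_nonneg _) w)
    (fun s => mul_nonneg g00 (P.ce_nonneg (fun _ _ => ind_nonneg _) w)) T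
  have h4 : ∀ (s : ℕ) (r : ℝ), (if ∑ i ∈ range (s + 1), P.ce Z (fun x => ind (A i x ∧ R x)) w <
      ∑ i ∈ range (s + 1), g0 * P.ce Z (fun x => ind (tk i x)) w then r else 0) =
      ind (lgt P Z A tk R g0 s w) * r := fun s r => by
    by_cases h : lgt P Z A tk R g0 s w
    · rw [ind_of h, one_mul]
      exact if_pos h
    · rw [ind_not h, zero_mul]
      exact if_neg h
  simp only [h4] at h3
  refine h3.trans ((min_le_right _ _).trans (le_of_eq ?_))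
  rw [Finset.mul_sum]

end light

/-! ## thin covers -/

section thin

variable {κ ν : ℕ → Type*} {V : ∀ t, Om → κ t} {nd : ∀ t, Om → ν t} {R : Om → Prop} {u0 uc uC : ℝ}
  {K : ℕ → Om → Prop} {σ : Om → ℕ} {T : ℕ}

variable (P nd R u0) in
/-- before `T^0` -/
def al (s : ℕ) (w : Om) : Prop := ∀ s' ≤ s, cp P nd s' R w < u0

theorem al_fac (fnd : Filt nd) (s : ℕ) {x w : Om} (e : nd s x = nd s w) : al P nd R u0 s x ↔ al P nd R u0 s w := by
  unfold al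
  exact forall_congr' fun s' => forall_congr' fun hs' => by rw [cp_fac s' R x w (fnd.le hs' x w e)]

/-- **thin covers, at the exact vertex; `V s` = exact vertex and the cells of the others** -/
theorem thin_le (fV : Filt V) (fnd : Filt nd) (hV : ∀ s, Fac (V s) (nd s)) (hσ : Stp nd σ) (hT : ∀ w, σ w < T)
    (c0 : 0 < uc) (C0 : 0 < uC) (z0 : 0 ≤ u0) (hK : ∀ s x w, V s x = V s w → (K s x ↔ K s w))
    (hpc : ∀ s w, P.p w ≠ 0 → cp P nd s (fst K s) w ≤ 0 ∨ uC ≤ cp P nd s (fst K s) w) :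
    P.Pr (fun w => R w ∧ ∃ s ≤ σ w, fst K s w ∧ al P nd R u0 s w) ≤
      (uc + u0 / (uc * uC)) * P.Pr (fun w => ∃ s ≤ σ w, fst K s w) := by
  classical
  have hfK : ∀ s x w, V s x = V s w → (fst K s x ↔ fst K s w) := fun s x w e => by
    unfold fst
    rw [hK s x w e]
    exact and_congr_right fun _ => forall_congr' fun s' => forall_congr' fun hs' =>
      not_congr (hK s' x w (fV.le hs'.le x w e))
  have e1 : P.Pr (fun w => R w ∧ ∃ s ≤ σ w, fst K s w ∧ al P nd R u0 s w) =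
      ∑ s ∈ range T, P.E (fun w => ind ((fst K s w ∧ al P nd R u0 s w) ∧ s ≤ σ w) * cp P V s R w) := by
    rw [one_sum (Y := V) fV hV hσ hT (f := fun s w => fst K s w ∧ al P nd R u0 s w) (fun s x w e => by
      rw [hfK s x w e, al_fac fnd s (hV s x w e)]) (fun w s s' a b => fst_one s s' a.1 b.1)]
  have e2 : P.Pr (fun w => ∃ s ≤ σ w, fst K s w) = ∑ s ∈ range T, P.E (fun w => ind (fst K s w ∧ s ≤ σ w)) :=
    (one_cnt hT (f := fst K) (fun w s s' a b => fst_one s s' a b)).symm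
  rw [e1, e2, Finset.mul_sum]
  refine Finset.sum_le_sum fun s _ => ?_
  -- small density at the exact vertex, or large
  have h1 : P.E (fun w => ind ((fst K s w ∧ al P nd R u0 s w) ∧ s ≤ σ w) * cp P V s R w) ≤
      uc * P.E (fun w => ind (fst K s w ∧ s ≤ σ w)) +
      P.E (fun w => ind (al P nd R u0 s w ∧ s ≤ σ w) * ind (fst K s w ∧ uc ≤ cp P V s R w)) := by
    rw [← FP.E_smul, ← FP.E_add]
    refine P.E_mono fun w hw => ?_
    have n1 := ind_nonneg (fst K s w ∧ s ≤ σ w)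
    have n2 : 0 ≤ ind (al P nd R u0 s w ∧ s ≤ σ w) * ind (fst K s w ∧ uc ≤ cp P V s R w) :=
      mul_nonneg (ind_nonneg _) (ind_nonneg _)
    by_cases a1 : (fst K s w ∧ al P nd R u0 s w) ∧ s ≤ σ w
    · rw [ind_of a1, one_mul, ind_of (show fst K s w ∧ s ≤ σ w from ⟨a1.1.1, a1.2⟩), mul_one,
        ind_of (show al P nd R u0 s w ∧ s ≤ σ w from ⟨a1.1.2, a1.2⟩), one_mul]
      by_cases a2 : uc ≤ cp P V s R w
      · rw [ind_of (show fst K s w ∧ uc ≤ cp P V s R w from ⟨a1.1.1, a2⟩)]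
        have : cp P V s R w ≤ 1 := P.ce_le_const (fun _ _ => ind_le_one _) hw
        linarith
      · rw [ind_not (fun h => a2 h.2 : ¬ (fst K s w ∧ uc ≤ cp P V s R w)), add_zero]
        exact (not_le.1 a2).le
    · rw [ind_not a1, zero_mul]
      have := mul_nonneg c0.le n1
      linarith
  have hF : Fac (nd s) (fun w => ind (al P nd R u0 s w ∧ s ≤ σ w)) := Fac.ind fun x w e => by
    rw [al_fac fnd s e, stp_le fnd (fun _ => Fac.refl _) hσ e]
  have h2 : P.E (fun w => ind (al P nd R u0 s w ∧ s ≤ σ w) * ind (fst K s w ∧ uc ≤ cp P V s R w)) ≤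
      u0 / (uc * uC) * P.E (fun w => ind (fst K s w ∧ s ≤ σ w)) := by
    have hS : Fac (nd s) (fun w => ind (s ≤ σ w)) := Fac.ind fun x w e => stp_le fnd (fun _ => Fac.refl _) hσ e
    have e3 : P.E (fun w => ind (fst K s w ∧ s ≤ σ w)) = P.E (fun w => ind (s ≤ σ w) * cp P nd s (fst K s) w) := by
      have : P.E (fun w => ind (fst K s w ∧ s ≤ σ w)) = P.E (fun w => ind (s ≤ σ w) * ind (fst K s w)) :=
        P.E_congr fun w _ => by rw [ind_and]; ring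
      rw [this]
      exact (P.E_mul_ce hS _).symm
    rw [e3, ← P.E_mul_ce hF, ← FP.E_smul]
    refine P.E_mono fun w hw => ?_
    have n1 : 0 ≤ cp P nd s (fst K s) w := cp_nonneg _ _ _
    have n2 : 0 ≤ u0 / (uc * uC) := div_nonneg z0 (mul_pos c0 C0).le
    have n3 := ind_nonneg (s ≤ σ w)
    by_cases a1 : al P nd R u0 s w ∧ s ≤ σ w
    · rw [ind_of a1, one_mul, ind_of a1.2, one_mul]
      -- Markov
      have m1 : uc * P.ce (nd s) (fun x => ind (uc ≤ cp P V s R x)) w ≤ cp P nd s R w := by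
        have : cp P nd s R w = P.ce (nd s) (cp P V s R) w := (P.ce_tower (hV s) (fun x => ind (R x)) w).symm
        rw [this, ← P.ce_smul]
        refine P.ce_mono (fun x _ => ?_) w
        by_cases a2 : uc ≤ cp P V s R x
        · rw [ind_of a2, mul_one]
          exact a2
        · rw [ind_not a2, mul_zero]
          exact cp_nonneg _ _ _
      have m2 : cp P nd s R w < u0 := a1.1 s le_rfl
      have m3 : P.ce (nd s) (fun x => ind (fst K s x ∧ uc ≤ cp P V s R x)) w ≤ u0 / uc := by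
        rw [le_div_iff₀ c0]
        have : P.ce (nd s) (fun x => ind (fst K s x ∧ uc ≤ cp P V s R x)) w ≤
            P.ce (nd s) (fun x => ind (uc ≤ cp P V s R x)) w := P.ce_mono (fun x _ => ind_mono fun h => h.2) w
        have := mul_le_mul_of_nonneg_left this c0.le
        linarith
      have m4 : P.ce (nd s) (fun x => ind (fst K s x ∧ uc ≤ cp P V s R x)) w ≤ cp P nd s (fst K s) w :=
        P.ce_mono (fun x _ => ind_mono fun h => h.1) w
      rcases hpc s w hw with h3 | h3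
      · have h4 : 0 ≤ u0 / (uc * uC) * cp P nd s (fst K s) w := mul_nonneg n2 n1
        linarith
      · have h4 : u0 / uc ≤ u0 / (uc * uC) * cp P nd s (fst K s) w := by
          have h5 := mul_le_mul_of_nonneg_left h3 n2
          have h6 : u0 / (uc * uC) * uC = u0 / uc := by
            field_simp
          rw [h6] at h5
          exact h5
        linarith
    · rw [ind_not a1, zero_mul]
      exact mul_nonneg n2 (mul_nonneg n3 n1)
  have h3 : (uc + u0 / (uc * uC)) * P.E (fun w => ind (fst K s w ∧ s ≤ σ w)) =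
      uc * P.E (fun w => ind (fst K s w ∧ s ≤ σ w)) + u0 / (uc * uC) * P.E (fun w => ind (fst K s w ∧ s ≤ σ w)) := by
    ring
  rw [h3]
  linarith

end thin

/-! ## one side -/

section side

variable {κ κ' ν : ℕ → Type*} {V : ∀ t, Om → κ t} {Y : ∀ t, Om → κ' t} {nd : ∀ t, Om → ν t} {R : Om → Prop}
  {u0 uc uC uD g0 L : ℝ} {K : ℕ → Om → Prop} {σ : Om → ℕ} {T : ℕ} {ρ : Type*} {Z : Om → ρ} {A tk tl S : ℕ → Om → Prop}
  {ψ : Om → ℝ} {Bad : Om → Prop}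

variable (P Z A R ψ L) in
/-- the decision of the exact row (level by level, all worlds) -/
def dec (s : ℕ) (w : Om) : Prop := sel P Z A R (fun x => ind (R x) * ψ x) L s w

theorem dec_fac (s : ℕ) (x w : Om) (h : Z x = Z w) : dec P R L Z A ψ s x ↔ dec P R L Z A ψ s w := sel_fac s x w h

/-- **one side, signed** -/
theorem side_signed (h1 : ∀ w s s', A s w → A s' w → s = s') (hT : ∀ w s, A s w → s < T) :
    P.E (fun w => ind (R w ∧ ∃ s, A s w ∧ dec P R L Z A ψ s w) * ψ w) ≤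
      L * P.Pr (fun w => R w ∧ ∃ s, A s w ∧ dec P R L Z A ψ s w) := by
  have h := ghost_le (P := P) (Z := Z) (A := A) (R := R) (ψ := fun x => ind (R x) * ψ x) (L := L) h1 hT
  have e1 : P.E (fun w => ind (R w ∧ ∃ s, A s w ∧ dec P R L Z A ψ s w) * ψ w) =
      P.E (fun w => ind (∃ s, A s w ∧ sel P Z A R (fun x => ind (R x) * ψ x) L s w) * (ind (R w) * ψ w)) :=
    P.E_congr fun w _ => by
      rw [ind_and]
      show ind (R w) * ind (∃ s, A s w ∧ sel P Z A R (fun x => ind (R x) * ψ x) L s w) * ψ w = _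
      ring
  have e2 : P.Pr (fun w => R w ∧ ∃ s, A s w ∧ dec P R L Z A ψ s w) =
      P.Pr (fun w => (∃ s, A s w ∧ sel P Z A R (fun x => ind (R x) * ψ x) L s w) ∧ R w) := by
    unfold FP.Pr
    refine P.E_congr fun w _ => ?_
    congr 1
    exact propext ⟨fun ⟨a, b⟩ => ⟨b, a⟩, fun ⟨b, a⟩ => ⟨a, b⟩⟩
  rw [e1, e2]
  exact h

/-- **one side, what is left**: light, heavy and not covered, covered by thin covers.  `Y s` = the sight which sees `tk s`
(exact `(b, d)` and the cell of `c` for the rows), `V s` = exact `c` and the cells of the others, `Z` = exact row -/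
theorem side_left (fY : Filt Y) (hY : ∀ s, Fac (Y s) (nd s)) (fV : Filt V) (hV : ∀ s, Fac (V s) (nd s)) (fnd : Filt nd)
    (hσ : Stp nd σ) (hT : ∀ w, σ w < T) (c0 : 0 < uc) (C0 : 0 < uC) (z0 : 0 ≤ u0) (g00 : 0 ≤ g0)
    (A1 : ∀ w s s', A s w → A s' w → s = s') (Aσ : ∀ w s, A s w → s ≤ σ w) (Atk : ∀ w s, A s w → tk s w)
    (Aal : ∀ w s, A s w → al P nd R u0 s w)
    (l1 : ∀ w s s', tl s w → tl s' w → s = s') (lσ : ∀ w s, tl s w → s ≤ σ w)
    (k1 : ∀ w s s', tk s w → tk s' w → s = s') (kY : ∀ s x w, Y s x = Y s w → (tk s x ↔ tk s w))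
    (hK : ∀ s x w, V s x = V s w → (K s x ↔ K s w))
    (hpc : ∀ s w, P.p w ≠ 0 → cp P nd s (fst K s) w ≤ 0 ∨ uC ≤ cp P nd s (fst K s) w)
    (hunc : ∀ s w, P.p w ≠ 0 → tk s w → s ≤ σ w →
      cp P Y s (fun x => (¬ S s x ∧ ¬ lgt P Z A tl R g0 s x) ∧ ∀ s' ≤ s, ¬ K s' x) w ≤ uD + ind (Bad w)) :
    P.Pr (fun w => R w ∧ ∃ s, A s w ∧ ¬ S s w) ≤
      g0 * P.Pr (fun w => ∃ s, tl s w) + (uD * P.Pr (fun w => ∃ s ≤ σ w, tk s w) + P.Pr Bad) +
        (uc + u0 / (uc * uC)) * P.Pr (fun w => ∃ s ≤ σ w, fst K s w) := by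
  classical
  have pw : ∀ w, ind (R w ∧ ∃ s, A s w ∧ ¬ S s w) ≤
      ind (∃ s, A s w ∧ lgt P Z A tl R g0 s w ∧ R w) +
      ind (∃ s ≤ σ w, tk s w ∧ ((¬ S s w ∧ ¬ lgt P Z A tl R g0 s w) ∧ ∀ s' ≤ s, ¬ K s' w)) +
      ind (R w ∧ ∃ s ≤ σ w, fst K s w ∧ al P nd R u0 s w) := by
    intro w
    have p1 := ind_nonneg (∃ s, A s w ∧ lgt P Z A tl R g0 s w ∧ R w)
    have p2 := ind_nonneg (∃ s ≤ σ w, tk s w ∧ ((¬ S s w ∧ ¬ lgt P Z A tl R g0 s w) ∧ ∀ s' ≤ s, ¬ K s' w))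
    have p3 := ind_nonneg (R w ∧ ∃ s ≤ σ w, fst K s w ∧ al P nd R u0 s w)
    by_cases h1 : R w ∧ ∃ s, A s w ∧ ¬ S s w
    · obtain ⟨hR, s, hA, hS⟩ := h1
      have h2 := ind_le_one (R w ∧ ∃ s, A s w ∧ ¬ S s w)
      by_cases h3 : lgt P Z A tl R g0 s w
      · rw [ind_of (show ∃ s, A s w ∧ lgt P Z A tl R g0 s w ∧ R w from ⟨s, hA, h3, hR⟩)]
        linarith
      · by_cases h4 : ∃ s' ≤ s, K s' w
        · obtain ⟨s', hs', hKs⟩ := h4
          obtain ⟨s2, hs2, hf⟩ := fst_ex (A := K) hKs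
          have h5 : al P nd R u0 s2 w := fun i hi => Aal w s hA i (hi.trans (hs2.trans hs'))
          rw [ind_of (show R w ∧ ∃ s ≤ σ w, fst K s w ∧ al P nd R u0 s w from
            ⟨hR, s2, (hs2.trans hs').trans (Aσ w s hA), hf, h5⟩)]
          linarith
        · rw [ind_of (show ∃ s ≤ σ w, tk s w ∧ ((¬ S s w ∧ ¬ lgt P Z A tl R g0 s w) ∧ ∀ s' ≤ s, ¬ K s' w) from
            ⟨s, Aσ w s hA, Atk w s hA, ⟨hS, h3⟩, fun s' hs' h5 => h4 ⟨s', hs', h5⟩⟩)]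
          linarith
    · rw [ind_not h1]
      linarith
  have b1 := light_le (P := P) (Z := Z) (A := A) (tk := tl) (R := R) (g0 := g0) (T := T) g00 A1
    (fun w s a => lt_of_le_of_lt (Aσ w s a) (hT w)) l1 (fun w s a => lt_of_le_of_lt (lσ w s a) (hT w))
  have b2 := ev_le (P := P) (Y := Y) (nd := nd) (σ := σ) (T := T) fY hY hσ hT (ka := uD) (f := tk)
    kY k1 (Q := fun s x => (¬ S s x ∧ ¬ lgt P Z A tl R g0 s x) ∧ ∀ s' ≤ s, ¬ K s' x) (Bad := Bad) hunc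
  have b3 := thin_le (P := P) (V := V) (nd := nd) (R := R) (u0 := u0) (uc := uc) (uC := uC) (K := K) (σ := σ) (T := T)
    fV fnd hV hσ hT c0 C0 z0 hK hpc
  have b0 : P.Pr (fun w => R w ∧ ∃ s, A s w ∧ ¬ S s w) ≤
      P.Pr (fun w => ∃ s, A s w ∧ lgt P Z A tl R g0 s w ∧ R w) +
      P.Pr (fun w => ∃ s ≤ σ w, tk s w ∧ ((¬ S s w ∧ ¬ lgt P Z A tl R g0 s w) ∧ ∀ s' ≤ s, ¬ K s' w)) +
      P.Pr (fun w => R w ∧ ∃ s ≤ σ w, fst K s w ∧ al P nd R u0 s w) := by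
    unfold FP.Pr
    rw [← FP.E_add, ← FP.E_add]
    exact P.E_mono fun w _ => pw w
  linarith

end side

/-! ## the case list -/

section main

variable {κ κ' κ'' ν : ℕ → Type*} {N : ∀ t, Om → κ t} {Yc : ∀ t, Om → κ' t} {Yd : ∀ t, Om → κ'' t}
  {nd : ∀ t, Om → ν t} {R : Om → Prop} {q u0 h : ℝ} {σ : Om → ℕ} {T : ℕ} {Cc Cd Sr Sk : ℕ → Om → Prop}

variable (P N nd R q u0 σ) in
/-- `T^b = s ≤ σ`, `s < T^0` -/
def tk (s : ℕ) (w : Om) : Prop := (Tb P N R q s w ∧ al P nd R u0 s w) ∧ s ≤ σ w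

variable (P N nd R q u0 σ Cd) in
/-- rows: `T^b = s ≤ σ`, `s < T^0`, `d` not covered -/
def Ar (s : ℕ) (w : Om) : Prop := tk P N nd R q u0 σ s w ∧ ¬ Cd s w

variable (P N nd R q u0 σ Cc Cd) in
/-- columns: `T^b = s ≤ σ`, `s < T^0`, `d` covered, `c` not -/
def Ak (s : ℕ) (w : Om) : Prop := tk P N nd R q u0 σ s w ∧ (Cd s w ∧ ¬ Cc s w)

variable (P N nd R q u0 σ) in
/-- left to the node time `T^0` : `T^0 ≤ σ`, `T^0 ≤ T^b` -/
def L0 (w : Om) : Prop := ∃ s ≤ σ w, u0 ≤ cp P nd s R w ∧ ∀ s' < s, cp P N s' R w < q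

theorem tk_one (w : Om) (s s' : ℕ) (a : tk P N nd R q u0 σ s w) (b : tk P N nd R q u0 σ s' w) : s = s' :=
  Tb_one w s s' a.1.1 b.1.1

theorem Ar_one (w : Om) (s s' : ℕ) (a : Ar P N nd R q u0 σ Cd s w) (b : Ar P N nd R q u0 σ Cd s' w) : s = s' :=
  tk_one w s s' a.1 b.1

theorem Ak_one (w : Om) (s s' : ℕ) (a : Ak P N nd R q u0 σ Cc Cd s w) (b : Ak P N nd R q u0 σ Cc Cd s' w) : s = s' :=
  tk_one w s s' a.1 b.1

theorem tk_fac {ρ : ℕ → Type*} {Y : ∀ t, Om → ρ t} (fN : Filt N) (fnd : Filt nd) (hN : ∀ s, Fac (N s) (nd s))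
    (hY : ∀ s, Fac (Y s) (N s)) (hσ : Stp nd σ) (s : ℕ) (x w : Om) (e : Y s x = Y s w) :
    tk P N nd R q u0 σ s x ↔ tk P N nd R q u0 σ s w := by
  unfold tk
  have e1 := hY s x w e
  have e2 := hN s x w e1
  rw [Tb_fac fN s e1, al_fac fnd s e2, stp_le fnd (fun _ => Fac.refl _) hσ e2]

theorem stp_fine (hN : ∀ s, Fac (N s) (nd s)) (hσ : Stp nd σ) : Stp N σ := fun s x w e => hσ s x w (hN s x w e)

/-- **the cases** -/
theorem gho_cases {w : Om} (hR : R w) (h0 : ¬ L0 P N nd R q u0 σ w)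
    (hr : ¬ ∃ s, Ar P N nd R q u0 σ Cd s w ∧ Sr s w) (hk : ¬ ∃ s, Ak P N nd R q u0 σ Cc Cd s w ∧ Sk s w) :
    (R w ∧ cp P N (σ w) R w < q) ∨ (R w ∧ ∃ s, Ar P N nd R q u0 σ Cd s w ∧ ¬ Sr s w) ∨
    (R w ∧ ∃ s, Ak P N nd R q u0 σ Cc Cd s w ∧ ¬ Sk s w) ∨ (R w ∧ ∃ s ≤ σ w, Tb P N R q s w ∧ Cc s w ∧ Cd s w) := by
  by_cases h2 : ∃ s ≤ σ w, q ≤ cp P N s R w
  · obtain ⟨s1, hs1, h3⟩ := h2
    obtain ⟨s, hs, hf⟩ := fst_ex (A := fun s w => q ≤ cp P N s R w) h3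
    have h4 : al P nd R u0 s w := fun s' hs' => not_le.1 fun h5 =>
      h0 ⟨s', (hs'.trans hs).trans hs1, h5, fun s2 hs2 => not_le.1 (hf.2 s2 (lt_of_lt_of_le hs2 hs'))⟩
    have h5 : tk P N nd R q u0 σ s w := ⟨⟨hf, h4⟩, hs.trans hs1⟩
    by_cases h6 : Cd s w
    · by_cases h7 : Cc s w
      · exact Or.inr (Or.inr (Or.inr ⟨hR, s, hs.trans hs1, hf, h7, h6⟩))
      · exact Or.inr (Or.inr (Or.inl ⟨hR, s, ⟨h5, h6, h7⟩, fun h8 => hk ⟨s, ⟨h5, h6, h7⟩, h8⟩⟩))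
    · exact Or.inr (Or.inl ⟨hR, s, ⟨h5, h6⟩, fun h8 => hr ⟨s, ⟨h5, h6⟩, h8⟩⟩)
  · exact Or.inl ⟨hR, not_le.1 fun h4 => h2 ⟨σ w, le_rfl, h4⟩⟩

/-- **WHAT IS NOT RELEASED** (apart from `L0`); the two middle terms are bounded by `side_left` -/
theorem gho_unsigned (hci : CI P N Yc Yd) (fN : Filt N) (hN : ∀ s, Fac (N s) (nd s)) (hσ : Stp nd σ) (hT : ∀ w, σ w < T)
    (h0 : 0 ≤ h) (hm : ∀ s w, P.p w ≠ 0 → P.m (N s) w ≤ h * P.m (N (s + 1)) w)
    (hCc : ∀ s x w, Yc s x = Yc s w → (Cc s x ↔ Cc s w)) (hCd : ∀ s x w, Yd s x = Yd s w → (Cd s x ↔ Cd s w))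
    {Xa Yb : ℕ → Om → ℝ} (hX : ∀ s, Fac (Yc s) (Xa s)) (hY : ∀ s, Fac (Yd s) (Yb s)) (X0 : ∀ s w, 0 ≤ Xa s w)
    (X1 : ∀ s w, Xa s w ≤ 1) (Y0 : ∀ s w, 0 ≤ Yb s w) (Y1 : ∀ s w, Yb s w ≤ 1) {W : Om → ℝ} (W1 : ∀ w, W w ≤ 1)
    (hW : ∀ w, W w ≤ Xa (σ w) w * Yb (σ w) w) :
    P.E (fun w => ind ((R w ∧ ¬ L0 P N nd R q u0 σ w) ∧ (¬ (∃ s, Ar P N nd R q u0 σ Cd s w ∧ Sr s w)) ∧
      ¬ ∃ s, Ak P N nd R q u0 σ Cc Cd s w ∧ Sk s w) * W w) ≤
      Real.sqrt q * ((P.E (fun w => Xa (σ w) w) + P.E (fun w => Yb (σ w) w)) / 2) +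
      P.Pr (fun w => R w ∧ ∃ s, Ar P N nd R q u0 σ Cd s w ∧ ¬ Sr s w) +
      P.Pr (fun w => R w ∧ ∃ s, Ak P N nd R q u0 σ Cc Cd s w ∧ ¬ Sk s w) +
      (Real.sqrt (h * q) * ((P.Pr (fun w => ∃ s ≤ σ w, Tb P N R q s w ∧ Cc s w) +
        P.Pr (fun w => ∃ s ≤ σ w, Tb P N R q s w ∧ Cd s w)) / 2) + P.Pr (fun w => R w ∧ q ≤ cp P N 0 R w)) := by
  classical
  have pw : ∀ w, ind ((R w ∧ ¬ L0 P N nd R q u0 σ w) ∧ (¬ (∃ s, Ar P N nd R q u0 σ Cd s w ∧ Sr s w)) ∧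
      ¬ ∃ s, Ak P N nd R q u0 σ Cc Cd s w ∧ Sk s w) * W w ≤
      ind (R w ∧ cp P N (σ w) R w < q) * (Xa (σ w) w * Yb (σ w) w) +
      ind (R w ∧ ∃ s, Ar P N nd R q u0 σ Cd s w ∧ ¬ Sr s w) + ind (R w ∧ ∃ s, Ak P N nd R q u0 σ Cc Cd s w ∧ ¬ Sk s w) +
      ind (R w ∧ ∃ s ≤ σ w, Tb P N R q s w ∧ Cc s w ∧ Cd s w) := by
    intro w
    have p1 : 0 ≤ ind (R w ∧ cp P N (σ w) R w < q) * (Xa (σ w) w * Yb (σ w) w) :=
      mul_nonneg (ind_nonneg _) (mul_nonneg (X0 _ _) (Y0 _ _))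
    have p2 := ind_nonneg (R w ∧ ∃ s, Ar P N nd R q u0 σ Cd s w ∧ ¬ Sr s w)
    have p3 := ind_nonneg (R w ∧ ∃ s, Ak P N nd R q u0 σ Cc Cd s w ∧ ¬ Sk s w)
    have p4 := ind_nonneg (R w ∧ ∃ s ≤ σ w, Tb P N R q s w ∧ Cc s w ∧ Cd s w)
    by_cases h1 : (R w ∧ ¬ L0 P N nd R q u0 σ w) ∧ (¬ (∃ s, Ar P N nd R q u0 σ Cd s w ∧ Sr s w)) ∧
      ¬ ∃ s, Ak P N nd R q u0 σ Cc Cd s w ∧ Sk s w
    · rw [ind_of h1, one_mul]
      have hw1 := W1 w
      rcases gho_cases h1.1.1 h1.1.2 h1.2.1 h1.2.2 with c | c | c | c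
      · rw [ind_of c, one_mul]
        have := hW w
        linarith
      · rw [ind_of c]
        linarith
      · rw [ind_of c]
        linarith
      · rw [ind_of c]
        linarith
    · rw [ind_not h1, zero_mul]
      linarith
  refine (P.E_mono fun w _ => pw w).trans ?_
  rw [FP.E_add, FP.E_add, FP.E_add]
  have hσN := stp_fine hN hσ
  have b1 := before hci fN hσN hT hX hY X0 X1 Y0 Y1 (R := R) (q := q)
  have b4 := block hci fN hσN hT h0 hm hCc hCd (R := R) (q := q)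
  exact add_le_add (add_le_add (add_le_add b1 le_rfl) le_rfl) b4

/-- released mass of rows and columns together -/
theorem rel_mass (Sr Sk : ℕ → Om → Prop) : P.Pr (fun w => R w ∧ ∃ s, Ar P N nd R q u0 σ Cd s w ∧ Sr s w) +
    P.Pr (fun w => R w ∧ ∃ s, Ak P N nd R q u0 σ Cc Cd s w ∧ Sk s w) ≤
      P.Pr (fun w => R w ∧ ∃ s ≤ σ w, Tb P N R q s w) := by
  unfold FP.Pr
  rw [← FP.E_add]
  refine P.E_mono fun w _ => ?_
  by_cases h1 : R w ∧ ∃ s, Ar P N nd R q u0 σ Cd s w ∧ Sr s w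
  · obtain ⟨hR, s, hA, _⟩ := h1
    have h2 : ¬ (R w ∧ ∃ s, Ak P N nd R q u0 σ Cc Cd s w ∧ Sk s w) := by
      rintro ⟨_, s', hA', _⟩
      obtain rfl := tk_one w s s' hA.1 hA'.1
      exact hA.2 hA'.2.1
    rw [ind_not h2, add_zero]
    exact ind_mono fun _ => ⟨hR, s, hA.1.2, hA.1.1.1⟩
  · rw [ind_not h1, zero_add]
    exact ind_mono fun ⟨hR, s, hA, _⟩ => ⟨hR, s, hA.1.2, hA.1.1.1⟩

/-- **dropping what lies in `Cd`** (bad letters): density at most `uw` of the covered mass, or the event `CB` -/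
theorem drop_le (fN : Filt N) (hN : ∀ s, Fac (N s) (nd s)) (hσ : Stp nd σ) (hT : ∀ w, σ w < T) (q0 : 0 ≤ q) (h0 : 0 ≤ h)
    (hm : ∀ s w, P.p w ≠ 0 → P.m (N s) w ≤ h * P.m (N (s + 1)) w) {uw : ℝ} (w0 : 0 ≤ uw) :
    P.Pr (fun w => R w ∧ ∃ s ≤ σ w, Tb P N R q s w ∧ Cd s w) ≤
      uw * P.Pr (fun w => ∃ s ≤ σ w, Tb P N R q s w ∧ Cd s w) +
      h * q * P.Pr (fun w => ∃ s ≤ σ w, Tb P N R q s w ∧
        uw * cp P N s (Cd s) w < cp P N s (fun x => R x ∧ Cd s x) w) + P.Pr (fun w => R w ∧ q ≤ cp P N 0 R w) := by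
  classical
  have hσN := stp_fine hN hσ
  have cnt : ∀ Q : ℕ → Om → Prop, P.Pr (fun w => ∃ s ≤ σ w, Tb P N R q s w ∧ Q s w) =
      ∑ s ∈ range T, P.E (fun w => ind (Tb P N R q s w ∧ s ≤ σ w) * ind (Q s w)) := fun Q => by
    rw [← FP.E_sum]
    unfold FP.Pr
    refine P.E_congr fun w _ => ?_
    have e2 := sum_ind' (A := fun s => (Tb P N R q s w ∧ s ≤ σ w) ∧ Q s w) (T := T)
      (fun s s' a b => Tb_one w s s' a.1.1 b.1.1) (fun s a => lt_of_le_of_lt a.1.2 (hT w))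
    have e3 : (∃ s, (Tb P N R q s w ∧ s ≤ σ w) ∧ Q s w) = (∃ s ≤ σ w, Tb P N R q s w ∧ Q s w) :=
      propext ⟨fun ⟨s, a⟩ => ⟨s, a.1.2, a.1.1, a.2⟩, fun ⟨s, a, b, c⟩ => ⟨s, ⟨b, a⟩, c⟩⟩
    show ind (∃ s ≤ σ w, Tb P N R q s w ∧ Q s w) = _
    rw [← e3, ← e2]
    exact Finset.sum_congr rfl fun s _ => ind_and _ _
  have c0 : P.Pr (fun w => R w ∧ ∃ s ≤ σ w, Tb P N R q s w ∧ Cd s w) =
      P.Pr (fun w => ∃ s ≤ σ w, Tb P N R q s w ∧ (R w ∧ Cd s w)) := by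
    unfold FP.Pr
    refine P.E_congr fun w _ => ?_
    congr 1
    exact propext ⟨fun ⟨a, s, b, c, d⟩ => ⟨s, b, c, a, d⟩, fun ⟨s, b, c, a, d⟩ => ⟨a, s, b, c, d⟩⟩
  rw [c0, cnt, cnt, cnt, Finset.mul_sum, Finset.mul_sum, ← Finset.sum_add_distrib]
  have key : ∀ s ∈ range T, P.E (fun w => ind (Tb P N R q s w ∧ s ≤ σ w) * ind (R w ∧ Cd s w)) ≤
      (uw * P.E (fun w => ind (Tb P N R q s w ∧ s ≤ σ w) * ind (Cd s w)) +
        h * q * P.E (fun w => ind (Tb P N R q s w ∧ s ≤ σ w) *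
          ind (uw * cp P N s (Cd s) w < cp P N s (fun x => R x ∧ Cd s x) w))) +
      (if s = 0 then P.Pr (fun w => R w ∧ q ≤ cp P N 0 R w) else 0) := by
    intro s _
    have hF : Fac (N s) (fun w => ind (Tb P N R q s w ∧ s ≤ σ w)) := Fac.ind fun x w e => by
      rw [Tb_fac fN s e, stp_le fN (fun _ => Fac.refl _) hσN e]
    have pos : 0 ≤ uw * P.E (fun w => ind (Tb P N R q s w ∧ s ≤ σ w) * ind (Cd s w)) +
        h * q * P.E (fun w => ind (Tb P N R q s w ∧ s ≤ σ w) *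
          ind (uw * cp P N s (Cd s) w < cp P N s (fun x => R x ∧ Cd s x) w)) := by
      have a1 : 0 ≤ P.E (fun w => ind (Tb P N R q s w ∧ s ≤ σ w) * ind (Cd s w)) :=
        P.E_nonneg fun _ _ => mul_nonneg (ind_nonneg _) (ind_nonneg _)
      have a2 : 0 ≤ P.E (fun w => ind (Tb P N R q s w ∧ s ≤ σ w) *
          ind (uw * cp P N s (Cd s) w < cp P N s (fun x => R x ∧ Cd s x) w)) :=
        P.E_nonneg fun _ _ => mul_nonneg (ind_nonneg _) (ind_nonneg _)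
      positivity
    rcases Nat.eq_zero_or_pos s with rfl | hs0
    · rw [if_pos rfl]
      have : P.E (fun w => ind (Tb P N R q 0 w ∧ 0 ≤ σ w) * ind (R w ∧ Cd 0 w)) ≤
          P.Pr (fun w => R w ∧ q ≤ cp P N 0 R w) := P.E_mono fun w _ => by
        rw [← ind_and]
        exact ind_mono fun a => ⟨a.2.1, a.1.1.1⟩
      linarith
    · obtain ⟨s', rfl⟩ : ∃ s', s = s' + 1 := ⟨s - 1, by omega⟩
      rw [if_neg (by omega), add_zero]
      rw [← P.E_mul_ce hF (fun w => ind (R w ∧ Cd (s' + 1) w)), ← P.E_mul_ce hF (fun w => ind (Cd (s' + 1) w)),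
        ← FP.E_smul, ← FP.E_smul, ← FP.E_add]
      refine P.E_mono fun w hw => ?_
      by_cases a1 : Tb P N R q (s' + 1) w ∧ s' + 1 ≤ σ w
      · rw [ind_of a1, one_mul, one_mul, one_mul]
        have h4 := cp_ratio (P := P) (Y := N) (h := h) (s := s') (t := s' + 1) (fN s') hw (hm s' w hw) R
        have h5 : cp P N (s' + 1) R w ≤ h * q :=
          h4.trans (mul_le_mul_of_nonneg_left (not_le.1 (a1.1.2 s' (Nat.lt_succ_self s'))).le h0)
        have h6 : cp P N (s' + 1) (fun x => R x ∧ Cd (s' + 1) x) w ≤ cp P N (s' + 1) R w := cp_mono (fun x a => a.1) w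
        have h7 : 0 ≤ cp P N (s' + 1) (Cd (s' + 1)) w := cp_nonneg _ _ _
        show cp P N (s' + 1) (fun x => R x ∧ Cd (s' + 1) x) w ≤ uw * cp P N (s' + 1) (Cd (s' + 1)) w +
          h * q * ind (uw * cp P N (s' + 1) (Cd (s' + 1)) w < cp P N (s' + 1) (fun x => R x ∧ Cd (s' + 1) x) w)
        by_cases a2 : uw * cp P N (s' + 1) (Cd (s' + 1)) w < cp P N (s' + 1) (fun x => R x ∧ Cd (s' + 1) x) w
        · rw [ind_of a2, mul_one]
          have := mul_nonneg w0 h7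
          linarith
        · rw [ind_not a2, mul_zero, add_zero]
          exact not_lt.1 a2
      · rw [ind_not a1, zero_mul, zero_mul, zero_mul]
        simp
  refine (Finset.sum_le_sum key).trans ?_
  rw [Finset.sum_add_distrib, Finset.sum_ite_eq' (range T) 0]
  have := P.Pr_nonneg (fun w => R w ∧ q ≤ cp P N 0 R w)
  split_ifs <;> linarith

end main

end

end Pool.Agent.GMH.GhoT
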