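import Pool.Agent.GMH.PayT

/-!
# GMH/GhoX (helper50): RARITY OF THE OWN MATCHED SET AT AN EXACT VERTEX ((C1), private and a-free ends)

The exact point of the vertex is hardwired: everything may depend on it.  Rows at the exact points `c` of the other vertex have witnesses
(`k` keys), the class law is the one of the END of the life, so no gain is available and a family of total density
`≥ |J| u/4` is impossible outside the bad hidden points.

* `one_rare` : setting `CH` of GhoC, class law in the same class: `P (a family exists) ≤ 2 e (B/δ) e^(-x)`;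
* `rowq_two`, `hm_old` : the class law of the end against the one of the start of the life, rows of unmoved letters;
* `rare_tab` : the same in the process with tables and coins;
* `priv_ce` : in the class of the exact vertex (letter of surprisal `≤ X0`) the event has conditional probability `≤ e^X0 ε`;
* `priv_sum` : all classes, any event `En` of the exact vertex: `P (En, bad) ≤ e^X0 ε P (En)`;
* `One`, `dens_tab` : one static set of rows (the own matched set): `P (density ≥ kp) ≤ (2/kp) 2 e (B/δ) e^(-x)`,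
  `x ≤ N_1 kp / 16`, density averaged over the coins; `One.of_old` : with the class law of the start; `num` : numbers.
-/

set_option autoImplicit false
set_option linter.unusedSectionVars false

namespace Pool.Agent.GMH.GhoX

open Finset Pool.Agent.PWZ Pool.Agent.M3 Pool.Agent.GM Pool.Agent.GM.Harm Pool.Agent.GMH.GhoC Pool.Agent.GMH.EpG
open Pool.Agent.GMH.PayT

noncomputable section

/-! ## one class -/

section one

variable {Om Om' : Type*} [Fintype Om] [Fintype Om'] {χ κ ζ Λ Γ Ee ι Lx C D Rw : Type*} [Fintype Lx] [DecidableEq Lx]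
  [Fintype C] [Fintype D] [Fintype Rw] {k : ℕ}
variable {Q : FP Om} {Q' : FP Om'} {π : Om' → Om} {X : Om → χ} {L : Om → κ} {Z : Om → ζ} {Cp : Om → C}
  {lb : χ → C → Λ} {qc : FP C} {I : Finset ι} {hi mid lo : ι → ℝ} {R0 δ mu : ℝ}
  {m : Lx → Ee → C → FP Rw} {f : ι → Lx → Ee → C → Rw → D → Γ → ℝ} {lb' : Rw → Λ} {Po : Lx → C → Rw → Prop}
  {own : Lx → Om' → C → Rw} {R : Lx → FP D} {SS : Lx → Om' → D → Prop} {eta : Lx → Om' → Ee} {γ : Lx → Om' → D → Γ}
  {Ve : Lx → Finset Ee} {Vs : Lx → D → Finset Γ} {Pc : Lx → Om' → C → Prop} {N B0 B1 δ1 u : ℝ}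

/-- **A FAMILY IS RARE** if the class laws `m` are those of the same class -/
theorem one_rare {ζ0 : Type*} (H : CH Q Q' π X L Z Cp lb qc I hi mid lo R0 δ mu f lb' Po own Ve Vs N B0 B1 k)
    (hδ1 : 0 < δ1) {Z0 : Om → ζ0} (hZ0 : Fac Z0 Cp) {h : ℝ} (h0 : 0 ≤ h)
    (hm : ∀ l e (S : Rw → Prop) v, Q.p v ≠ 0 →
      Q.ce Z0 (fun v' => ind (∃ ρ, lb' ρ = lb (X v') (Cp v') ∧ Po l (Cp v') ρ ∧ S ρ)) v ≤ h * (m l e (Cp v)).Pr S)
    (hmu' : h * (2 * mu) < u / 32) {x : ℝ} (hx : x ≤ N * u / 32)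
    (hy : 2 * (Fintype.card Lx * (B0 * B1 ^ k) * Real.exp (-x)) ≤ δ1 ^ k / 2) (hB0 : 0 ≤ B0) (hB1 : 0 ≤ B1) :
    Q'.Pr (fun w => ∃ J : Finset Lx, J.Nonempty ∧ Fam qc I hi lo mu m f own R SS eta γ Ve Vs Pc δ1 u J w) ≤
      2 * Real.exp 1 * (Fintype.card Lx * (B0 * B1 ^ k) * Real.exp (-x) / (δ1 ^ k / 2)) := by
  refine (Q'.Pr_mono (t := fun w => Bad k Q X Cp lb I mid mu m f lb' Po R Ve Vs δ1 u (π w)) fun w hw hJ => ?_).trans
    (Bad_le H hδ1 hx hy hB0 hB1)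
  obtain ⟨J, hJ, hF⟩ := hJ
  by_contra hb
  obtain ⟨θ, φ, -, hc, hφ⟩ := ghost_cover H hδ1 hJ hw hF hb
  have h2 : Q.Pr (fun v => ∃ ψ ∈ φ, Aw I mid mu m f lb' Po X Cp lb θ ψ v) ≤ φ.card * (h * (2 * mu)) := by
    have e : Q.E (Q.ce Z0 (fun v => ind (∃ ψ ∈ φ, Aw I mid mu m f lb' Po X Cp lb θ ψ v))) =
        Q.Pr (fun v => ∃ ψ ∈ φ, Aw I mid mu m f lb' Po X Cp lb θ ψ v) := Q.E_ce Z0 _
    rw [← e]
    exact Q.E_le_const fun v hv => thin hZ0 h0 H.mpos.le hm θ φ hv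
  have h3 := hF.dens
  have h4 : (0 : ℝ) < J.card := by exact_mod_cast card_pos.2 hJ
  rw [hc] at h2
  have h5 := mul_lt_mul_of_pos_left hmu' h4
  have h6 := hφ.trans h2
  have h7 : (∑ l ∈ J, qc.Pr (Pc l w)) / 8 < J.card * (u / 32) := h6.trans_lt h5
  have h8 : (J.card : ℝ) * (u / 32) = J.card * (u / 4) / 8 := by ring
  rw [h8] at h7
  linarith

end one

/-! ## the class law of the end and of the start -/

section two

variable {K X β γ φ υ0 : Type} [Fintype K] [DecidableEq K] [Fintype X] [Fintype β] [Fintype φ] [Nonempty X] [Nonempty β]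
  {D : HD K X β γ φ} {τ : ℕ} {j : K} {T0 : X → (K → β) → υ0}

/-- rows of letters of probability at most `g` times the old one -/
theorem rowq_two {P0 Q : FP (Pt K X β φ)} (κ : X → FP φ) (c : β) {A : X × φ → Prop} {g : ℝ}
    (hA : ∀ ρ, A ρ → Q.Pr (fun v => lbT D τ j T0 (Xt D τ v) c = ρ.1) ≤
      g * P0.Pr (fun v => lbT D τ j T0 (Xt D τ v) c = ρ.1)) :
    (rowq Q D τ j T0 κ c).Pr A ≤ g * (rowq P0 D τ j T0 κ c).Pr A := by
  show ∑ ρ, (rowq Q D τ j T0 κ c).p ρ * ind (A ρ) ≤ g * ∑ ρ, (rowq P0 D τ j T0 κ c).p ρ * ind (A ρ)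
  rw [mul_sum]
  refine sum_le_sum fun ρ _ => ?_
  by_cases hρ : A ρ
  · rw [ind_of hρ, mul_one, mul_one]
    have h1 := mul_le_mul_of_nonneg_right (hA ρ hρ) ((κ ρ.1).nn ρ.2)
    refine h1.trans (le_of_eq ?_)
    rw [mul_assoc]
    rfl
  · rw [ind_not hρ, mul_zero, mul_zero, mul_zero]

/-- **the class mass in the new class** : tests which vanish on moved letters, one level nonnegative -/
theorem hm_old {P0 Q : FP (Pt K X β φ)} (κ : X → FP φ) (c : β) {ι : Type} {I : Finset ι} {lo : ι → ℝ}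
    {tt : ι → X × φ → ℝ} {g mu : ℝ} (hg : 0 < g) (hlo : ∃ i ∈ I, 0 ≤ lo i)
    (hun : ∀ i ρ, ¬ Q.Pr (fun v => lbT D τ j T0 (Xt D τ v) c = ρ.1) ≤
      g * P0.Pr (fun v => lbT D τ j T0 (Xt D τ v) c = ρ.1) → tt i ρ ≤ 0)
    (h : (rowq P0 D τ j T0 κ c).Pr (fun ρ => ∀ i ∈ I, lo i < tt i ρ) ≤ mu / g) :
    (rowq Q D τ j T0 κ c).Pr (fun ρ => ∀ i ∈ I, lo i < tt i ρ) ≤ mu := by
  have h1 := rowq_two (P0 := P0) (Q := Q) (D := D) (τ := τ) (j := j) (T0 := T0) κ c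
    (A := fun ρ => ∀ i ∈ I, lo i < tt i ρ) (g := g) (fun ρ hρ => by
      by_contra hcon
      obtain ⟨i, hi, h0⟩ := hlo
      have h2 := hρ i hi
      have h3 := hun i ρ hcon
      linarith)
  refine h1.trans ?_
  have h2 := mul_le_mul_of_nonneg_left h hg.le
  rwa [mul_div_cancel₀ _ hg.ne'] at h2

end two

/-! ## the frame with tables -/

section tab

open Pool.Agent.GMH.Dy (Om Tab pul_pt)

variable {X β γ φ υ : Type} [Fintype X] [Fintype β] [Fintype φ] [Nonempty X] [Nonempty β]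
variable {D : HD (Fin 3) X β γ φ} {al : ℝ} {h : D.Thick al} {prr : ℕ → Fin 3 → φ → φ} {T : ℕ} {W : Type} [Fintype W]
variable {tb : Tab D prr T W} {v : ℕ → Finset (Fin 3) → X → (Fin 3 → β) → υ} {j : Fin 3}

/-- **RARITY IN ONE CLASS, TABLES AND COINS** : `s` = start, `t` = end of the life, `j` = the vertex of the rows, `i` = their top
letter; class laws at the end -/
theorem rare_tab {N : Finset (Fin 3) → ℝ} {S : Finset (Finset (Fin 3))} (hv : Codes D v) {s t : ℕ} (hst : s ≤ t)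
    (ht : t ≤ T) (hs : SatA (D.P h t) (BB D t) N S (LL (Um v (t + 1))) (Dep D t)) (hN : ∀ J ∈ S, 0 ≤ N J)
    (hKS : ∅ ∈ S) (hN0 : 0 < N ∅) (hjS : {j} ∈ S) {w0 : Om W X β} (hw0 : tb.Ps.p w0 ≠ 0)
    {ι Γ Ee Lx Dk Θ : Type} [Fintype Lx] [DecidableEq Lx] [Fintype Dk] [Fintype Θ] (Tw : FP Θ)
    {I : Finset ι} {hi mid lw : ι → ℝ} {R0 δ mu B0 B1 : ℝ} {k : ℕ} {f : ι → Lx → Ee → β → X × φ → Dk → Γ → ℝ}
    {own : Lx → Om W X β × Θ → β → X × φ} {Ve : Lx → Finset Ee} {Vs : Lx → Dk → Finset Γ} (i : Fin 3)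
    (yy : Lx → β → Fin 3 → β) (κ : Lx → Ee → β → X → FP φ)
    (hκ : ∀ l e c x F, PoR D s i w0.1 (yy l c) (x, F) → al ≤ (κ l e c x).p F)
    (hR : 0 < R0) (hδ : 0 ≤ δ) (hf : ∀ i l e c ρ d g, |f i l e c ρ d g| ≤ R0) (h1 : ∀ i ∈ I, mid i + δ ≤ hi i)
    (h2 : ∀ i ∈ I, lw i + δ ≤ mid i) (hmu : 0 < mu)
    (hk : (I.card + 1 / mu) * Real.exp (-(k * δ ^ 2 / (8 * R0 ^ 2))) ≤ 1 / 4)
    (hVe : ∀ l, ((Ve l).card : ℝ) ≤ B0) (hV : ∀ l d, ((Vs l d).card : ℝ) ≤ B1)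
    (hown : ∀ l w θ c, (Qc tb v t w0).p w ≠ 0 → Tw.p θ ≠ 0 → D.qb t c = D.qb t (w0.2.2 j) →
      (own l (w, θ) c).1 = lbT D s j (fun x y => Um v (s + 1) {j} x y) (Xt D s (tb.pt t w)) c ∧
        PoR D s i w0.1 (yy l c) (own l (w, θ) c))
    {R : Lx → FP Dk} {SS : Lx → Om W X β × Θ → Dk → Prop} {eta : Lx → Om W X β × Θ → Ee}
    {γk : Lx → Om W X β × Θ → Dk → Γ} {Pc : Lx → Om W X β × Θ → β → Prop} {δ1 u : ℝ} (hδ1 : 0 < δ1)
    (hmu' : 1 / al * (2 * mu) < u / 32) {x : ℝ} (hx : x ≤ N {j} / N ∅ * u / 32)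
    (hy : 2 * (Fintype.card Lx * (B0 * B1 ^ k) * Real.exp (-x)) ≤ δ1 ^ k / 2) (hB0 : 0 ≤ B0) (hB1 : 0 ≤ B1) :
    (FP.pr (Qc tb v t w0) Tw).Pr (fun w => ∃ J : Finset Lx, J.Nonempty ∧
      Fam (img (Qc tb v t w0) fun w => w.2.2 j) I hi lw mu
        (fun l e c => rowq ((D.P h t).cond (xc D (Um v (t + 1)) t ∅ (tb.pt t w0))) D s j
          (fun x y => Um v (s + 1) {j} x y) (κ l e c) c) f own R SS eta γk Ve Vs Pc δ1 u J w) ≤
      2 * Real.exp 1 * (Fintype.card Lx * (B0 * B1 ^ k) * Real.exp (-x) / (δ1 ^ k / 2)) := by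
  classical
  have hP := pul_pt h tb ht
  have hw1 : (D.P h t).p (tb.pt t w0) ≠ 0 := hP.ne hw0
  have hQ := Qc_pul (h := h) (v := v) ht hw0
  have hK2 : ∀ l : Fin 3, ¬ univ.erase l ⊆ (∅ : Finset (Fin 3)) := fun l hl =>
    noTop (j := 0) (Finset.empty_subset _) l (Finset.subset_empty.1 hl)
  set Q1 := (D.P h t).cond (xc D (Um v (t + 1)) t ∅ (tb.pt t w0)) with hQ1
  -- the law with coins
  have hpul : ∀ g : Pt (Fin 3) X β φ → ℝ, (FP.pr (Qc tb v t w0) Tw).E (fun w => g (tb.pt t w.1)) = Q1.E g := by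
    intro g
    rw [lift_E (Qc tb v t w0) Tw (fun w => g (tb.pt t w))]
    exact hQ.E g
  have himg : (img Q1 fun w => w.2.1 j) = img (Qc tb v t w0) fun w => w.2.2 j := by
    have e : ∀ c, (img Q1 fun w => w.2.1 j).p c = (img (Qc tb v t w0) fun w => w.2.2 j).p c := fun c =>
      (hQ.Pr (fun w : Pt (Fin 3) X β φ => w.2.1 j = c)).symm
    generalize (img Q1 fun w => w.2.1 j) = A at e ⊢
    generalize (img (Qc tb v t w0) fun w => w.2.2 j) = B at e ⊢
    cases A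
    cases B
    congr 1
    funext c
    exact e c
  have hT : DepT D s j (fun x y => Um v (s + 1) {j} x y) := by
    intro x y y' h3 h4
    exact Um_dep hv s {j} x y y' (fun i hi => by rw [Finset.mem_singleton.1 hi]; exact h3) h4
  have H := CH_run (h := h) (t := t) (τ := s) (j := j) (U := Um v (t + 1)) (N := N) (S := S)
    (T0 := fun x y => Um v (s + 1) {j} x y) (Q' := FP.pr (Qc tb v t w0) Tw) (π := fun w => tb.pt t w.1)
    (I := I) (hi := hi) (mid := mid) (lw := lw) (R0 := R0) (δ := δ) (mu := mu) (B0 := B0) (B1 := B1) (k := k) (f := f)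
    (Po := fun l c ρ => PoR D s i (tb.pt t w0).1 (yy l c) ρ) (own := own) (Ve := Ve) (Vs := Vs)
    (Um_dep hv t) hs hN hK2 hKS hN0 hjS hst hT (fun a b hab _ => by
      have h3 := (LL_eq.1 hab).1
      exact (List.map_inj_left.2 fun r hr => (List.map_inj_left.1 h3) r (List.mem_range.2 (by
        have := List.mem_range.1 hr
        omega)))) hw1 hpul hR hδ hf h1 h2 hmu hk hVe hV
    (fun l w c hw hc => by
      have hw' := (pr_supp (Qc tb v t w0) Tw).1 hw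
      obtain ⟨a, ha, hac⟩ := hc
      have h3 := cond_supp (xc_ne hw1) ha
      have h4 := h3.1.2
      rw [BB_eq] at h4
      exact hown l w.1 w.2 c hw'.1 hw'.2 (by
        rw [← hac]
        exact h4.2.2 j))
  have hind : Q1.Indep (fun w => w.1) (fun w => w.2.1) :=
    (ndp1 (h := h) (Um_dep hv t) hK2 hst hw1).mono (fun a b hab => (Prod.mk.inj hab).1) (Fac.refl _)
  have hn : ∀ a, Q1.p a ≠ 0 → nd D s a = nd D s (tb.pt t w0) := fun a ha => nd_mono hst (BB_nd (cls_supp h hw1 ha).2)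
  have hal := h.pos
  rw [← himg]
  refine one_rare H hδ1 (Z0 := fun a => (a.2.1 j, nd D s a)) (fun a b hab => (Prod.mk.inj hab).1) (h := 1 / al)
    (by positivity) ?_ hmu' hx hy hB0 hB1
  intro l e A a ha
  exact hm_run hind hn i yy l (κ l e (a.2.1 j)) A a ha hal (fun x F hF => hκ l e _ x F hF)

/-! ## the class of the exact vertex -/

theorem indep_cond2 {Ω : Type*} [Fintype Ω] {P : FP Ω} {κ ι : Type*} {X : Ω → κ} {Y : Ω → ι} (h : P.Indep X Y)
    {A B : Ω → Prop} (hA : Fac X A) (hB : Fac Y B) : (P.cond fun w => A w ∧ B w).Indep X Y := by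
  by_cases h0 : P.Pr (fun w => A w ∧ B w) = 0
  · have : P.cond (fun w => A w ∧ B w) = P := by unfold FP.cond; rw [dif_pos h0]
    rw [this]; exact h
  intro f g hf hg
  have hA' : Fac X (fun w => ind (A w)) := Fac.ind fun v w e => by rw [hA v w e]
  have hB' : Fac Y (fun w => ind (B w)) := Fac.ind fun v w e => by rw [hB v w e]
  rw [FP.cond_E h0, FP.cond_E h0, FP.cond_E h0]
  have e0 : P.Pr (fun w => A w ∧ B w) = P.E (fun w => ind (A w)) * P.E (fun w => ind (B w)) := by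
    rw [← h _ _ hA' hB']
    exact P.E_congr fun w _ => ind_and _ _
  have e1 : P.E (fun w => ind (A w ∧ B w) * (f w * g w)) = P.E (fun w => ind (A w) * f w) * P.E (fun w => ind (B w) * g w) := by
    rw [← h _ _ (hA'.mul hf) (hB'.mul hg)]
    exact P.E_congr fun w _ => by rw [ind_and]; ring
  have e2 : P.E (fun w => ind (A w ∧ B w) * f w) = P.E (fun w => ind (A w) * f w) * P.E (fun w => ind (B w)) := by
    rw [← h _ _ (hA'.mul hf) hB']
    exact P.E_congr fun w _ => by rw [ind_and]; ring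
  have e3 : P.E (fun w => ind (A w ∧ B w) * g w) = P.E (fun w => ind (A w)) * P.E (fun w => ind (B w) * g w) := by
    rw [← h _ _ hA' (hB'.mul hg)]
    exact P.E_congr fun w _ => by rw [ind_and]; ring
  rw [e0] at h0
  rw [e0, e1, e2, e3]
  have h1 := left_ne_zero_of_mul h0
  have h2 := right_ne_zero_of_mul h0
  field_simp

/-- hidden point with tables and the known points are independent -/
theorem Ps_indep : tb.Ps.Indep (fun w => (w.1, w.2.1)) (fun w => w.2.2) := by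
  intro f g hf hg
  obtain ⟨x0⟩ : Nonempty X := inferInstance
  obtain ⟨ω0⟩ : Nonempty (Fin 3 → W) := by
    by_contra hcon
    rw [not_nonempty_iff] at hcon
    have h1 := tb.Ps.tot
    have h2 : ∀ w : Om W X β, tb.Ps.p w = 0 := fun w => (hcon.false w.2.1).elim
    rw [sum_congr rfl fun w _ => h2 w, sum_const_zero] at h1
    exact zero_ne_one h1
  obtain ⟨y0⟩ : Nonempty (Fin 3 → β) := inferInstance
  have ef : ∀ x ω y, f (x, ω, y) = f (x, ω, y0) := fun x ω y => hf _ _ rfl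
  have eg : ∀ x ω y, g (x, ω, y) = g (x0, ω0, y) := fun x ω y => hg _ _ rfl
  rw [Dy.Ps_E, Dy.Ps_E, Dy.Ps_E]
  simp only [ef, eg]
  have h1 : ∀ x ω, (FP.unif (Fin 3 → β)).E (fun y => f (x, ω, y0) * g (x0, ω0, y)) =
      f (x, ω, y0) * (FP.unif (Fin 3 → β)).E (fun y => g (x0, ω0, y)) := fun x ω => by rw [FP.E_smul]
  simp only [h1, FP.E_const, FP.E_mul_const]

/-- the class of the exact vertex `i1` -/
def Cv (D : HD (Fin 3) X β γ φ) (v : ℕ → Finset (Fin 3) → X → (Fin 3 → β) → υ) (i1 : Fin 3) (t : ℕ) (w : Om W X β) :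
    List υ × (β × (List υ × (γ × (Fin 3 → γ)))) := (lt v i1 t w, Ax D v i1 t w)

/-- the points of `w0` -/
def at0 (w0 u : Om W X β) : Om W X β := (u.1, u.2.1, w0.2.2)

/-- in the class the hidden point and the known points are independent -/
theorem Qc_indep (hv : Codes D v) {t : ℕ} (w0 : Om W X β) :
    (Qc tb v t w0).Indep (fun w => (w.1, w.2.1)) (fun w => w.2.2) := by
  have h1 := indep_cond2 (Ps_indep (tb := tb)) (A := fun u => Um v (t + 1) ∅ u.1 w0.2.2 = Um v (t + 1) ∅ w0.1 w0.2.2 ∧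
      D.qa t u.1 = D.qa t w0.1) (B := fun u => ∀ i, D.qb t (u.2.2 i) = D.qb t (w0.2.2 i)) (fun a b e => by
        have e1 := (Prod.mk.inj e).1
        show (_ ∧ _) = (_ ∧ _)
        rw [e1]) (fun a b e => by
        have e1 : a.2.2 = b.2.2 := e
        show (∀ i, _) = (∀ i, _)
        rw [e1])
  have e : (fun u : Om W X β => cl D v t u = cl D v t w0) = fun u => ((Um v (t + 1) ∅ u.1 w0.2.2 =
      Um v (t + 1) ∅ w0.1 w0.2.2 ∧ D.qa t u.1 = D.qa t w0.1) ∧ ∀ i, D.qb t (u.2.2 i) = D.qb t (w0.2.2 i)) := by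
    funext u
    refine propext ?_
    rw [cl_eq]
    constructor
    · rintro ⟨a, b, c⟩
      refine ⟨⟨?_, b⟩, c⟩
      rw [← a]
      exact Um_dep hv t ∅ _ _ _ (fun i hi => absurd hi (Finset.notMem_empty i)) fun i => (c i).symm
    · rintro ⟨⟨a, b⟩, c⟩
      refine ⟨?_, b, c⟩
      rw [← a]
      exact Um_dep hv t ∅ _ _ _ (fun i hi => absurd hi (Finset.notMem_empty i)) c
  unfold Qc
  rw [e]
  exact h1

/-- **THE CLASS OF THE EXACT VERTEX** `i1`, letter of surprisal `≤ X0`; `bad` sees the hidden point, the tables, the exact point of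
`i1` and the cells -/
theorem priv_ce (hv : Codes D v) {t : ℕ} (i1 : Fin 3) {w0 : Om W X β} (hw0 : tb.Ps.p w0 ≠ 0) {bad : Om W X β → Prop}
    (hbad : ∀ u u' : Om W X β, u.1 = u'.1 → u.2.1 = u'.2.1 → u.2.2 i1 = u'.2.2 i1 →
      (∀ i, D.qb t (u.2.2 i) = D.qb t (u'.2.2 i)) → bad u → bad u') {ε X0 : ℝ}
    (hε : (Qc tb v t w0).Pr (fun u => bad (at0 w0 u)) ≤ ε) (hX : sp tb.Ps (lt v i1 t) (Ax D v i1 t) w0 ≤ X0) :
    tb.Ps.ce (Cv D v i1 t) (fun u => ind (bad u)) w0 ≤ Real.exp X0 * ε := by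
  set P := tb.Ps with hP
  have hcl : P.Pr (fun u => cl D v t u = cl D v t w0) ≠ 0 := (P.m_pos (cl D v t) hw0).ne'
  have hm1 := P.m_pos (Ax D v i1 t) hw0
  have hm2 := P.m_pos (Cv D v i1 t) hw0
  -- the numerator
  have h1 : P.E (fun u => ind (Cv D v i1 t u = Cv D v i1 t w0) * ind (bad u)) ≤ ε * P.m (Ax D v i1 t) w0 := by
    have h2 : P.E (fun u => ind (Cv D v i1 t u = Cv D v i1 t w0) * ind (bad u)) ≤
        P.E (fun u => ind (cl D v t u = cl D v t w0) * (ind (bad (at0 w0 u)) * ind (u.2.2 i1 = w0.2.2 i1))) := by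
      refine P.E_mono fun u _ => ?_
      rw [← ind_and, ← ind_and, ← ind_and]
      refine ind_mono ?_
      rintro ⟨e, hb⟩
      have e1 : Ax D v i1 t u = Ax D v i1 t w0 := (Prod.mk.inj e).2
      have e2 : u.2.2 i1 = w0.2.2 i1 := (Prod.mk.inj e1).1
      have e3 : cl D v t u = cl D v t w0 := (Prod.mk.inj e1).2
      exact ⟨e3, hbad u (at0 w0 u) rfl rfl e2 (cl_eq.1 e3).2.2 hb, e2⟩
    have h3 : P.E (fun u => ind (cl D v t u = cl D v t w0) * (ind (bad (at0 w0 u)) * ind (u.2.2 i1 = w0.2.2 i1))) =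
        P.Pr (fun u => cl D v t u = cl D v t w0) *
          ((Qc tb v t w0).Pr (fun u => bad (at0 w0 u)) * (Qc tb v t w0).Pr (fun u => u.2.2 i1 = w0.2.2 i1)) := by
      have e4 := Qc_indep (tb := tb) hv (t := t) w0 (fun u => ind (bad (at0 w0 u)))
        (fun u => ind (u.2.2 i1 = w0.2.2 i1)) (fun a b e => by
          have e5 := Prod.mk.inj e
          show ind (bad (a.1, a.2.1, w0.2.2)) = ind (bad (b.1, b.2.1, w0.2.2))
          rw [e5.1, e5.2]) (fun a b e => by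
          have e5 : a.2.2 = b.2.2 := e
          show ind (a.2.2 i1 = _) = ind (b.2.2 i1 = _)
          rw [e5])
      have e6 : (Qc tb v t w0).Pr (fun u => bad (at0 w0 u)) * (Qc tb v t w0).Pr (fun u => u.2.2 i1 = w0.2.2 i1) =
          (Qc tb v t w0).E (fun u => ind (bad (at0 w0 u)) * ind (u.2.2 i1 = w0.2.2 i1)) := e4.symm
      rw [e6]
      unfold Qc
      rw [FP.cond_E hcl]
      field_simp
    have h4 : P.m (Ax D v i1 t) w0 = P.Pr (fun u => cl D v t u = cl D v t w0) *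
        (Qc tb v t w0).Pr (fun u => u.2.2 i1 = w0.2.2 i1) := by
      have e7 : (Qc tb v t w0).Pr (fun u => u.2.2 i1 = w0.2.2 i1) =
          P.E (fun u => ind (cl D v t u = cl D v t w0) * ind (u.2.2 i1 = w0.2.2 i1)) /
            P.Pr (fun u => cl D v t u = cl D v t w0) := FP.cond_E hcl _
      rw [e7, mul_div_cancel₀ _ hcl]
      refine P.E_congr fun u _ => ?_
      rw [← ind_and]
      refine congrArg ind (propext ⟨fun e => ?_, fun e => ?_⟩)
      · have e1 := Prod.mk.inj (show (u.2.2 i1, cl D v t u) = (w0.2.2 i1, cl D v t w0) from e)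
        exact ⟨e1.2, e1.1⟩
      · show (u.2.2 i1, cl D v t u) = (w0.2.2 i1, cl D v t w0)
        rw [e.1, e.2]
    rw [h3] at h2
    rw [h4]
    refine h2.trans ?_
    have h5 : 0 ≤ P.Pr (fun u => cl D v t u = cl D v t w0) := P.Pr_nonneg _
    have h6 : 0 ≤ (Qc tb v t w0).Pr (fun u => u.2.2 i1 = w0.2.2 i1) := FP.Pr_nonneg _ _
    have h7 := mul_le_mul_of_nonneg_left (mul_le_mul_of_nonneg_right hε h6) h5
    linarith
  have h8 : P.m (Ax D v i1 t) w0 ≤ Real.exp X0 * P.m (Cv D v i1 t) w0 := by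
    have h9 : Real.log (P.m (Ax D v i1 t) w0) ≤ X0 + Real.log (P.m (Cv D v i1 t) w0) := by
      have e : sp P (lt v i1 t) (Ax D v i1 t) w0 = Real.log (P.m (Ax D v i1 t) w0) - Real.log (P.m (Cv D v i1 t) w0) := rfl
      rw [e] at hX
      linarith
    have h10 := Real.exp_le_exp.2 h9
    rwa [Real.exp_add, Real.exp_log hm1, Real.exp_log hm2] at h10
  have hε0 : 0 ≤ ε := (FP.Pr_nonneg _ _).trans hε
  show P.E (fun u => ind (Cv D v i1 t u = Cv D v i1 t w0) * ind (bad u)) / P.m (Cv D v i1 t) w0 ≤ _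
  rw [div_le_iff₀ hm2]
  have h11 := mul_le_mul_of_nonneg_left h8 hε0
  linarith

/-- **ALL CLASSES** : `En` = any event of the class of the exact vertex, at its points the letter has surprisal `≤ X0`; `bad θ` = the
bad event, `bad' w0 θ` = the same in the class of `w0` (start of the life fixed) -/
theorem priv_sum (hv : Codes D v) {t : ℕ} (i1 : Fin 3) {En : Om W X β → Prop} (hEn : Fac (Cv D v i1 t) En)
    {Θ : Type} [Fintype Θ] (Tw : FP Θ) {bad : Θ → Om W X β → Prop} {bad' : Om W X β → Θ → Om W X β → Prop}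
    (hb : ∀ w0 θ u, tb.Ps.p w0 ≠ 0 → En w0 → Cv D v i1 t u = Cv D v i1 t w0 → bad θ u → bad' w0 θ u)
    (hbad : ∀ w0 θ (u u' : Om W X β), u.1 = u'.1 → u.2.1 = u'.2.1 → u.2.2 i1 = u'.2.2 i1 →
      (∀ i, D.qb t (u.2.2 i) = D.qb t (u'.2.2 i)) → bad' w0 θ u → bad' w0 θ u') {ε X0 : ℝ}
    (hε : ∀ w0, tb.Ps.p w0 ≠ 0 → En w0 →
      (FP.pr (Qc tb v t w0) Tw).Pr (fun p => bad' w0 p.2 (at0 w0 p.1)) ≤ ε)
    (hX : ∀ w0, tb.Ps.p w0 ≠ 0 → En w0 → sp tb.Ps (lt v i1 t) (Ax D v i1 t) w0 ≤ X0) :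
    Tw.E (fun θ => tb.Ps.Pr (fun u => En u ∧ bad θ u)) ≤ Real.exp X0 * ε * tb.Ps.Pr En := by
  have h1 : ∀ θ, tb.Ps.Pr (fun u => En u ∧ bad θ u) =
      tb.Ps.E (fun w => ind (En w) * tb.Ps.ce (Cv D v i1 t) (fun u => ind (bad θ u)) w) := fun θ => by
    have e1 := tb.Ps.E_ce_mul (X := Cv D v i1 t) (h := fun w => ind (En w)) (Fac.ind fun a b e => by rw [hEn a b e])
      (fun u => ind (bad θ u))
    refine Eq.trans ?_ (e1.symm.trans ?_)
    · exact tb.Ps.E_congr fun w _ => (ind_and _ _).trans (mul_comm _ _)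
    · exact tb.Ps.E_congr fun w _ => mul_comm _ _
  simp only [h1]
  rw [Tw.E_swap]
  have h2 : Real.exp X0 * ε * tb.Ps.Pr En = tb.Ps.E (fun w => ind (En w) * (Real.exp X0 * ε)) := by
    rw [FP.E_mul_const]
    show _ = tb.Ps.Pr En * _
    ring
  rw [h2]
  refine tb.Ps.E_mono fun w hw => ?_
  rw [FP.E_smul]
  by_cases hE : En w
  swap
  · rw [ind_not hE, zero_mul, zero_mul]
  refine mul_le_mul_of_nonneg_left ?_ (ind_nonneg _)
  -- one class
  have h3 : ∀ θ, tb.Ps.ce (Cv D v i1 t) (fun u => ind (bad θ u)) w ≤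
      Real.exp X0 * (Qc tb v t w).Pr (fun u => bad' w θ (at0 w u)) := fun θ => by
    refine le_trans ?_ (priv_ce hv i1 hw (bad := bad' w θ) (hbad w θ) le_rfl (hX w hw hE))
    exact ce_mono_on fun u hu => ind_mono fun h4 => hb w θ u hw hE hu h4
  refine (Tw.E_mono fun θ _ => h3 θ).trans ?_
  rw [FP.E_smul]
  refine mul_le_mul_of_nonneg_left (le_trans (le_of_eq ?_) (hε w hw hE)) (Real.exp_pos _).le
  unfold FP.Pr
  rw [FP.pr_E, Tw.E_swap]

/-! ## one static set of rows -/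

/-- data of one set `Pc` of points whose own rows are matched in the worlds `SS` -/
structure One {C D ι Rw : Type*} [Fintype C] [Fintype D] [Fintype Rw] (qc : FP C) (R : FP D) (I : Finset ι)
    (hi lo : ι → ℝ) (mu : ℝ) (m : C → FP Rw) (F : ι → C → Rw → D → ℝ) (own : C → Rw) (SS Va : D → Prop)
    (Pc : C → Prop) (δ1 : ℝ) : Prop where
  ss : δ1 ≤ R.Pr SS
  al : ∀ d, R.p d ≠ 0 → SS d → Va d
  ho : ∀ c, qc.p c ≠ 0 → Pc c → ∀ i ∈ I, hi i ≤ (R.cond SS).E (F i c (own c))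
  hm : ∀ c, qc.p c ≠ 0 → Pc c → (m c).Pr (fun ρ => ∀ i ∈ I, lo i < (R.cond SS).E (F i c ρ)) ≤ mu

/-- **THE DENSITY OF THE MATCHED SET IS SMALL** : `Dn` = density, averaged over the coins; class law of the end -/
theorem dens_tab {N : Finset (Fin 3) → ℝ} {S : Finset (Finset (Fin 3))} (hv : Codes D v) {s t : ℕ} (hst : s ≤ t)
    (ht : t ≤ T) (hs : SatA (D.P h t) (BB D t) N S (LL (Um v (t + 1))) (Dep D t)) (hN : ∀ J ∈ S, 0 ≤ N J)
    (hKS : ∅ ∈ S) (hN0 : 0 < N ∅) (hjS : {j} ∈ S) {w0 : Om W X β} (hw0 : tb.Ps.p w0 ≠ 0)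
    {ι Γ Ee Dk Θ : Type} [Fintype Dk] [Fintype Θ] (Tw : FP Θ)
    {I : Finset ι} {hi mid lw : ι → ℝ} {R0 δ mu B0 B1 : ℝ} {k : ℕ} {f : ι → Ee → β → X × φ → Dk → Γ → ℝ}
    {own : Om W X β × Θ → β → X × φ} {Ve : Finset Ee} {Vs : Dk → Finset Γ} (i : Fin 3)
    (yy : β → Fin 3 → β) (κ : Ee → β → X → FP φ)
    (hκ : ∀ e c x F, PoR D s i w0.1 (yy c) (x, F) → al ≤ (κ e c x).p F)
    (hR : 0 < R0) (hδ : 0 ≤ δ) (hf : ∀ i e c ρ d g, |f i e c ρ d g| ≤ R0) (h1 : ∀ i ∈ I, mid i + δ ≤ hi i)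
    (h2 : ∀ i ∈ I, lw i + δ ≤ mid i) (hmu : 0 < mu)
    (hk : (I.card + 1 / mu) * Real.exp (-(k * δ ^ 2 / (8 * R0 ^ 2))) ≤ 1 / 4)
    (hVe : (Ve.card : ℝ) ≤ B0) (hV : ∀ d, ((Vs d).card : ℝ) ≤ B1)
    (hown : ∀ w θ c, (Qc tb v t w0).p w ≠ 0 → Tw.p θ ≠ 0 → D.qb t c = D.qb t (w0.2.2 j) →
      (own (w, θ) c).1 = lbT D s j (fun x y => Um v (s + 1) {j} x y) (Xt D s (tb.pt t w)) c ∧
        PoR D s i w0.1 (yy c) (own (w, θ) c))
    {R : FP Dk} {SS : Om W X β × Θ → Dk → Prop} {eta : Om W X β × Θ → Ee}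
    {γk : Om W X β × Θ → Dk → Γ} {Pc : Om W X β × Θ → β → Prop} {δ1 kp : ℝ} (hδ1 : 0 < δ1) (hkp : 0 < kp)
    (hF : ∀ w θ, (Qc tb v t w0).p w ≠ 0 → Tw.p θ ≠ 0 → kp / 2 ≤ (img (Qc tb v t w0) fun w => w.2.2 j).Pr (Pc (w, θ)) →
      eta (w, θ) ∈ Ve ∧ One (img (Qc tb v t w0) fun w => w.2.2 j) R I hi lw mu
        (fun c => rowq ((D.P h t).cond (xc D (Um v (t + 1)) t ∅ (tb.pt t w0))) D s j
          (fun x y => Um v (s + 1) {j} x y) (κ (eta (w, θ)) c) c)
        (fun i c ρ d => f i (eta (w, θ)) c ρ d (γk (w, θ) d)) (own (w, θ)) (SS (w, θ)) (fun d => γk (w, θ) d ∈ Vs d)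
        (Pc (w, θ)) δ1)
    (hmu' : 1 / al * (2 * mu) < kp / 16) {x : ℝ} (hx : x ≤ N {j} / N ∅ * kp / 16)
    (hy : 2 * (B0 * B1 ^ k * Real.exp (-x)) ≤ δ1 ^ k / 2) (hB0 : 0 ≤ B0) (hB1 : 0 ≤ B1) {Dn : Om W X β → ℝ}
    (hDn : ∀ w, (Qc tb v t w0).p w ≠ 0 → Dn w ≤ Tw.E fun θ => (img (Qc tb v t w0) fun w => w.2.2 j).Pr (Pc (w, θ))) :
    (Qc tb v t w0).Pr (fun w => kp ≤ Dn w) ≤
      2 / kp * (2 * Real.exp 1 * (B0 * B1 ^ k * Real.exp (-x) / (δ1 ^ k / 2))) := by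
  classical
  set Q := Qc tb v t w0 with hQ
  have key := rare_tab (h := h) (tb := tb) (j := j) hv hst ht hs hN hKS hN0 hjS hw0 (Lx := Unit) Tw (I := I) (hi := hi)
    (mid := mid) (lw := lw) (R0 := R0) (δ := δ) (mu := mu) (B0 := B0) (B1 := B1) (k := k)
    (f := fun i _ e c ρ d g => f i e c ρ d g) (own := fun _ => own) (Ve := fun _ => Ve) (Vs := fun _ => Vs) i
    (fun _ => yy) (fun _ => κ) (fun _ => hκ) hR hδ (fun i _ => hf i) h1 h2 hmu hk (fun _ => hVe) (fun _ => hV)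
    (fun _ => hown) (R := fun _ => R) (SS := fun _ => SS) (eta := fun _ => eta) (γk := fun _ => γk)
    (Pc := fun _ => Pc) (δ1 := δ1) (u := 2 * kp) hδ1 (by linarith) (x := x) (by linarith)
    (by rw [Fintype.card_unit]; push_cast; rw [one_mul]; exact hy) hB0 hB1
  rw [Fintype.card_unit] at key
  push_cast at key
  rw [one_mul, ← hQ] at key
  -- the event of the pairs
  set E2 : Om W X β × Θ → Prop := fun p => kp / 2 ≤ (img Q fun w => w.2.2 j).Pr (Pc p) with hE2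
  have h3 : (FP.pr Q Tw).Pr E2 ≤ 2 * Real.exp 1 * (B0 * B1 ^ k * Real.exp (-x) / (δ1 ^ k / 2)) := by
    refine ((FP.pr Q Tw).Pr_mono fun p hp hp2 => ?_).trans key
    have hp' := (pr_supp Q Tw).1 hp
    obtain ⟨ha, hO⟩ := hF p.1 p.2 hp'.1 hp'.2 hp2
    exact ⟨{()}, Finset.singleton_nonempty _,
      { ss := fun _ _ => hO.ss
        ae := fun _ _ => ha
        al := fun _ _ => hO.al
        ho := fun _ _ => hO.ho
        hm := fun _ _ => hO.hm
        dj := fun l _ l' _ hne => absurd rfl hne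
        dens := by
          rw [Finset.card_singleton, Finset.sum_singleton]
          push_cast
          have : kp / 2 ≤ (img Q fun w => w.2.2 j).Pr (Pc p) := hp2
          linarith }⟩
  -- the mean over the coins
  have h4 : ∀ w, Q.p w ≠ 0 → ind (kp ≤ Dn w) * (kp / 2) ≤ Tw.Pr (fun θ => E2 (w, θ)) := by
    intro w hw
    by_cases hk' : kp ≤ Dn w
    swap
    · rw [ind_not hk', zero_mul]
      exact Tw.Pr_nonneg _
    rw [ind_of hk', one_mul]
    have h5 : Tw.E (fun θ => (img Q fun w => w.2.2 j).Pr (Pc (w, θ))) ≤ Tw.E (fun θ => ind (E2 (w, θ)) + kp / 2) := by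
      refine Tw.E_mono fun θ _ => ?_
      by_cases h6 : E2 (w, θ)
      · rw [ind_of h6]
        have := (img Q fun w => w.2.2 j).Pr_le_one (Pc (w, θ))
        linarith
      · rw [ind_not h6]
        have h7 : (img Q fun w => w.2.2 j).Pr (Pc (w, θ)) < kp / 2 := not_le.1 h6
        linarith
    rw [FP.E_add, FP.E_const] at h5
    have h8 := hDn w hw
    have h9 : Tw.E (fun θ => ind (E2 (w, θ))) = Tw.Pr fun θ => E2 (w, θ) := rfl
    rw [h9] at h5
    linarith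
  have h10 : Q.Pr (fun w => kp ≤ Dn w) * (kp / 2) ≤ (FP.pr Q Tw).Pr E2 := by
    have e1 : Q.Pr (fun w => kp ≤ Dn w) * (kp / 2) = Q.E (fun w => ind (kp ≤ Dn w) * (kp / 2)) := (Q.E_mul_const _ _).symm
    have e2 : (FP.pr Q Tw).Pr E2 = Q.E fun w => Tw.Pr fun θ => E2 (w, θ) := FP.pr_E Q Tw _
    rw [e1, e2]
    exact Q.E_mono h4
  have h11 := h10.trans h3
  rw [div_mul_eq_mul_div, le_div_iff₀ hkp]
  linarith

/-- numbers -/
theorem num {M B0 B1 δ1 x c0 e0 e1 g : ℝ} {k : ℕ} (hM : 0 ≤ M) (hM1 : M ≤ Real.exp c0) (hB0 : 0 ≤ B0)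
    (h0 : B0 ≤ Real.exp e0) (hB1 : 0 ≤ B1) (h1 : B1 ≤ Real.exp e1) (hδ : Real.exp (-g) ≤ δ1)
    (hx : c0 + e0 + k * (e1 + g) + 2 ≤ x) : 2 * (M * (B0 * B1 ^ k) * Real.exp (-x)) ≤ δ1 ^ k / 2 ∧
      2 * Real.exp 1 * (M * (B0 * B1 ^ k) * Real.exp (-x) / (δ1 ^ k / 2)) ≤
        Real.exp (3 + c0 + e0 + k * (e1 + g) - x) := by
  have he2 : (4 : ℝ) ≤ Real.exp 2 := by
    have h3 := Real.add_one_le_exp (1 : ℝ)
    have h4 : Real.exp 2 = Real.exp 1 * Real.exp 1 := by rw [← Real.exp_add]; norm_num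
    rw [h4]
    nlinarith
  have hA : M * (B0 * B1 ^ k) ≤ Real.exp (c0 + e0 + k * e1) := by
    rw [Real.exp_add, Real.exp_add, mul_assoc]
    refine mul_le_mul hM1 (mul_le_mul h0 ?_ (pow_nonneg hB1 k) (Real.exp_pos _).le) (by positivity) (Real.exp_pos _).le
    rw [Real.exp_nat_mul]
    exact pow_le_pow_left₀ hB1 h1 k
  have hD : Real.exp (-(k * g)) ≤ δ1 ^ k := by
    rw [show -(k * g) = (k : ℝ) * (-g) by ring, Real.exp_nat_mul]
    exact pow_le_pow_left₀ (Real.exp_pos _).le hδ k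
  have hD0 : 0 < δ1 ^ k := (Real.exp_pos _).trans_le hD
  have hAx : M * (B0 * B1 ^ k) * Real.exp (-x) ≤ Real.exp (c0 + e0 + k * e1 - x) := by
    rw [sub_eq_add_neg, Real.exp_add]
    exact mul_le_mul_of_nonneg_right hA (Real.exp_pos _).le
  constructor
  · have h5 : Real.exp (c0 + e0 + k * e1 - x) * 4 ≤ Real.exp (-(k * g)) := by
      calc Real.exp (c0 + e0 + k * e1 - x) * 4 ≤ Real.exp (c0 + e0 + k * e1 - x) * Real.exp 2 :=
            mul_le_mul_of_nonneg_left he2 (Real.exp_pos _).le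
        _ = Real.exp (c0 + e0 + k * e1 - x + 2) := (Real.exp_add _ _).symm
        _ ≤ Real.exp (-(k * g)) := Real.exp_le_exp.2 (by linarith)
    linarith
  · rw [← mul_div_assoc, div_le_iff₀ (by positivity)]
    have h6 : Real.exp (3 + c0 + e0 + k * (e1 + g) - x) * Real.exp (-(k * g)) =
        Real.exp 1 * (Real.exp 2 * Real.exp (c0 + e0 + k * e1 - x)) := by
      rw [← Real.exp_add, ← Real.exp_add, ← Real.exp_add]
      congr 1
      ring
    have h7 : Real.exp (3 + c0 + e0 + k * (e1 + g) - x) * Real.exp (-(k * g)) ≤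
        Real.exp (3 + c0 + e0 + k * (e1 + g) - x) * δ1 ^ k := mul_le_mul_of_nonneg_left hD (Real.exp_pos _).le
    have h8 : Real.exp 1 * (4 * (M * (B0 * B1 ^ k) * Real.exp (-x))) ≤
        Real.exp 1 * (Real.exp 2 * Real.exp (c0 + e0 + k * e1 - x)) :=
      mul_le_mul_of_nonneg_left (mul_le_mul he2 hAx (by positivity) (Real.exp_pos _).le) (Real.exp_pos _).le
    linarith

/-- from the class law of the start of the life: tests vanish on moved letters -/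
theorem One.of_old {j : Fin 3} {s : ℕ} {υ0 : Type} {T0 : X → (Fin 3 → β) → υ0} {P0 Q : FP (Pt (Fin 3) X β φ)} {Dk ι : Type}
    [Fintype Dk] {qc : FP β} {R : FP Dk} {I : Finset ι} {hi lo : ι → ℝ} {mu g : ℝ} {κ : β → X → FP φ}
    {F : ι → β → X × φ → Dk → ℝ} {own : β → X × φ} {SS Va : Dk → Prop} {Pc : β → Prop} {δ1 : ℝ} (hg : 0 < g)
    (hlo : ∃ i ∈ I, 0 ≤ lo i)
    (hun : ∀ i c ρ d, ¬ Q.Pr (fun v => lbT D s j T0 (Xt D s v) c = ρ.1) ≤
      g * P0.Pr (fun v => lbT D s j T0 (Xt D s v) c = ρ.1) → F i c ρ d ≤ 0)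
    (hO : One qc R I hi lo (mu / g) (fun c => rowq P0 D s j T0 (κ c) c) F own SS Va Pc δ1) :
    One qc R I hi lo mu (fun c => rowq Q D s j T0 (κ c) c) F own SS Va Pc δ1 where
  ss := hO.ss
  al := hO.al
  ho := hO.ho
  hm c hc hp := by
    refine hm_old (P0 := P0) (Q := Q) (κ c) c (tt := fun i ρ => (R.cond SS).E (F i c ρ)) hg hlo (fun i ρ hn => ?_)
      (hO.hm c hc hp)
    exact (R.cond SS).E_le_const fun d _ => hun i c ρ d hn

end tab

end

end Pool.Agent.GMH.GhoX
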