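import Pool.Agent.GMH.ThK

/-!
# GMH/GhoX2 (helper50): GhoX WITH STARTS AND ENDS AT SUBSTATES

* `rare_tabS`, `dens_tabS` : tables and own letters of the STATE `ν` (start of the life), class of the level `t` (end);
* `NPo_cl`, `Qst_cl` : the public class of a state `q ∈ [5 t - 3, 5 t]` is the one of the level `t`;
* `priv_ceS`, `priv_sumS` : class of the exact vertex at ANY state `q` (`CN` of MVdef: letter and public class).
-/

set_option autoImplicit false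
set_option linter.unusedSectionVars false

namespace Pool.Agent.GMH.GhoX2

open Finset Pool.Agent.PWZ Pool.Agent.M3 Pool.Agent.GM Pool.Agent.GM.Harm Pool.Agent.GMH Pool.Agent.GMH.GhoC
open Pool.Agent.GMH.EpG Pool.Agent.GMH.PayT Pool.Agent.GMH.PayTs Pool.Agent.GMH.GhoX Pool.Agent.GMH.ThK
open Pool.Agent.GMH.Dy (Om Tab pul_pt)
open Pool.Agent.GMH.MVI (NPo XLo NPo_fac XLo_fac NPo_le XLo_le)

noncomputable section

variable {X β γ φ υ : Type} [Fintype X] [Fintype β] [Fintype φ] [Nonempty X] [Nonempty β]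
variable {D : HD (Fin 3) X β γ φ} {al : ℝ} {h : D.Thick al} {prr : ℕ → Fin 3 → φ → φ} {T : ℕ} {W : Type} [Fintype W]
variable {tb : Tab D prr T W} {v : ℕ → Finset (Fin 3) → X → (Fin 3 → β) → υ} {j : Fin 3}

/-- **RARITY IN ONE CLASS, TABLES AND COINS** : state `ν` = start, level `t` = end of the life, `j` = the vertex of the rows, `i` = their top
letter; class laws at the end -/
theorem rare_tabS {N : Finset (Fin 3) → ℝ} {S : Finset (Finset (Fin 3))} (hv : Codes D v) {ν t : ℕ} (hν : ν ≤ 5 * t)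
    (ht : t ≤ T) (hs : SatA (D.P h t) (BB D t) N S (LL (Um v (t + 1))) (Dep D t)) (hN : ∀ J ∈ S, 0 ≤ N J)
    (hKS : ∅ ∈ S) (hN0 : 0 < N ∅) (hjS : {j} ∈ S) {w0 : Om W X β} (hw0 : tb.Ps.p w0 ≠ 0)
    {ι Γ Ee Lx Dk Θ : Type} [Fintype Lx] [DecidableEq Lx] [Fintype Dk] [Fintype Θ] (Tw : FP Θ)
    {I : Finset ι} {hi mid lw : ι → ℝ} {R0 δ mu B0 B1 : ℝ} {k : ℕ} {f : ι → Lx → Ee → β → X × φ → Dk → Γ → ℝ}
    {own : Lx → Om W X β × Θ → β → X × φ} {Ve : Lx → Finset Ee} {Vs : Lx → Dk → Finset Γ} (i : Fin 3)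
    (yy : Lx → β → Fin 3 → β) (κ : Lx → Ee → β → X → FP φ)
    (hκ : ∀ l e c x F, PoR D (TP.nn ν) i w0.1 (yy l c) (x, F) → al ≤ (κ l e c x).p F)
    (hR : 0 < R0) (hδ : 0 ≤ δ) (hf : ∀ i l e c ρ d g, |f i l e c ρ d g| ≤ R0) (h1 : ∀ i ∈ I, mid i + δ ≤ hi i)
    (h2 : ∀ i ∈ I, lw i + δ ≤ mid i) (hmu : 0 < mu)
    (hk : (I.card + 1 / mu) * Real.exp (-(k * δ ^ 2 / (8 * R0 ^ 2))) ≤ 1 / 4)
    (hVe : ∀ l, ((Ve l).card : ℝ) ≤ B0) (hV : ∀ l d, ((Vs l d).card : ℝ) ≤ B1)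
    (hown : ∀ l w θ c, (Qc tb v t w0).p w ≠ 0 → Tw.p θ ≠ 0 → D.qb t c = D.qb t (w0.2.2 j) →
      (own l (w, θ) c).1 = lbT D (TP.nn ν) j (Uq v ν {j}) (Xt D (TP.nn ν) (tb.pt t w)) c ∧
        PoR D (TP.nn ν) i w0.1 (yy l c) (own l (w, θ) c))
    {R : Lx → FP Dk} {SS : Lx → Om W X β × Θ → Dk → Prop} {eta : Lx → Om W X β × Θ → Ee}
    {γk : Lx → Om W X β × Θ → Dk → Γ} {Pc : Lx → Om W X β × Θ → β → Prop} {δ1 u : ℝ} (hδ1 : 0 < δ1)
    (hmu' : 1 / al * (2 * mu) < u / 32) {x : ℝ} (hx : x ≤ N {j} / N ∅ * u / 32)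
    (hy : 2 * (Fintype.card Lx * (B0 * B1 ^ k) * Real.exp (-x)) ≤ δ1 ^ k / 2) (hB0 : 0 ≤ B0) (hB1 : 0 ≤ B1) :
    (FP.pr (Qc tb v t w0) Tw).Pr (fun w => ∃ J : Finset Lx, J.Nonempty ∧
      Fam (img (Qc tb v t w0) fun w => w.2.2 j) I hi lw mu
        (fun l e c => rowq ((D.P h t).cond (xc D (Um v (t + 1)) t ∅ (tb.pt t w0))) D (TP.nn ν) j
          (Uq v ν {j}) (κ l e c) c) f own R SS eta γk Ve Vs Pc δ1 u J w) ≤
      2 * Real.exp 1 * (Fintype.card Lx * (B0 * B1 ^ k) * Real.exp (-x) / (δ1 ^ k / 2)) := by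
  classical
  have hP := pul_pt h tb ht
  have hw1 : (D.P h t).p (tb.pt t w0) ≠ 0 := hP.ne hw0
  have hQ := Qc_pul (h := h) (v := v) ht hw0
  have hK2 : ∀ l : Fin 3, ¬ univ.erase l ⊆ (∅ : Finset (Fin 3)) := fun l hl =>
    noTop (j := 0) (Finset.empty_subset _) l (Finset.subset_empty.1 hl)
  set Q1 := (D.P h t).cond (xc D (Um v (t + 1)) t ∅ (tb.pt t w0)) with hQ1
  -- the law with coins
  have hpul : ∀ g : Pt (Fin 3) X β φ → ℝ, (FP.pr (Qc tb v t w0) Tw).E (fun w => g (tb.pt t w.1)) = Q1.E g := by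
    intro g
    rw [lift_E (Qc tb v t w0) Tw (fun w => g (tb.pt t w))]
    exact hQ.E g
  have himg : (img Q1 fun w => w.2.1 j) = img (Qc tb v t w0) fun w => w.2.2 j := by
    have e : ∀ c, (img Q1 fun w => w.2.1 j).p c = (img (Qc tb v t w0) fun w => w.2.2 j).p c := fun c =>
      (hQ.Pr (fun w : Pt (Fin 3) X β φ => w.2.1 j = c)).symm
    generalize (img Q1 fun w => w.2.1 j) = A at e ⊢
    generalize (img (Qc tb v t w0) fun w => w.2.2 j) = B at e ⊢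
    cases A
    cases B
    congr 1
    funext c
    exact e c
  have hnn : TP.nn ν ≤ t := by
    have h3 := TP.nn_mono hν
    rwa [nn5] at h3
  have hT : DepT D (TP.nn ν) j (Uq v ν {j}) := by
    intro x y y' h3 h4
    exact Uq_dep hv ν {j} x y y' (fun i hi => by rw [Finset.mem_singleton.1 hi]; exact h3) h4
  have H := CH_run (h := h) (t := t) (τ := TP.nn ν) (j := j) (U := Um v (t + 1)) (N := N) (S := S)
    (T0 := Uq v ν {j}) (Q' := FP.pr (Qc tb v t w0) Tw) (π := fun w => tb.pt t w.1)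
    (I := I) (hi := hi) (mid := mid) (lw := lw) (R0 := R0) (δ := δ) (mu := mu) (B0 := B0) (B1 := B1) (k := k) (f := f)
    (Po := fun l c ρ => PoR D (TP.nn ν) i (tb.pt t w0).1 (yy l c) ρ) (own := own) (Ve := Ve) (Vs := Vs)
    (Um_dep hv t) hs hN hK2 hKS hN0 hjS hnn hT (fun a b hab _ => by
      have h3 := (LL_eq.1 hab).1
      have h4 : TP.nc ν {j} ≤ t + 1 := by
        have h5 := TP.nc_mono hν (pth1 j)
        rwa [nc5 t (pth1 j)] at h5
      exact (List.map_inj_left.2 fun r hr => (List.map_inj_left.1 h3) r (List.mem_range.2 (by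
        have := List.mem_range.1 hr
        omega)))) hw1 hpul hR hδ hf h1 h2 hmu hk hVe hV
    (fun l w c hw hc => by
      have hw' := (pr_supp (Qc tb v t w0) Tw).1 hw
      obtain ⟨a, ha, hac⟩ := hc
      have h3 := cond_supp (xc_ne hw1) ha
      have h4 := h3.1.2
      rw [BB_eq] at h4
      exact hown l w.1 w.2 c hw'.1 hw'.2 (by
        rw [← hac]
        exact h4.2.2 j))
  have hind : Q1.Indep (fun w => w.1) (fun w => w.2.1) :=
    (ndp1 (h := h) (Um_dep hv t) hK2 hnn hw1).mono (fun a b hab => (Prod.mk.inj hab).1) (Fac.refl _)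
  have hn : ∀ a, Q1.p a ≠ 0 → nd D (TP.nn ν) a = nd D (TP.nn ν) (tb.pt t w0) := fun a ha => nd_mono hnn (BB_nd (cls_supp h hw1 ha).2)
  have hal := h.pos
  rw [← himg]
  refine one_rare H hδ1 (Z0 := fun a => (a.2.1 j, nd D (TP.nn ν) a)) (fun a b hab => (Prod.mk.inj hab).1) (h := 1 / al)
    (by positivity) ?_ hmu' hx hy hB0 hB1
  intro l e A a ha
  exact hm_run hind hn i yy l (κ l e (a.2.1 j)) A a ha hal (fun x F hF => hκ l e _ x F hF)

/-- **THE DENSITY OF THE MATCHED SET IS SMALL** : `Dn` = density, averaged over the coins; class law of the end -/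
theorem dens_tabS {N : Finset (Fin 3) → ℝ} {S : Finset (Finset (Fin 3))} (hv : Codes D v) {ν t : ℕ} (hν : ν ≤ 5 * t)
    (ht : t ≤ T) (hs : SatA (D.P h t) (BB D t) N S (LL (Um v (t + 1))) (Dep D t)) (hN : ∀ J ∈ S, 0 ≤ N J)
    (hKS : ∅ ∈ S) (hN0 : 0 < N ∅) (hjS : {j} ∈ S) {w0 : Om W X β} (hw0 : tb.Ps.p w0 ≠ 0)
    {ι Γ Ee Dk Θ : Type} [Fintype Dk] [Fintype Θ] (Tw : FP Θ)
    {I : Finset ι} {hi mid lw : ι → ℝ} {R0 δ mu B0 B1 : ℝ} {k : ℕ} {f : ι → Ee → β → X × φ → Dk → Γ → ℝ}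
    {own : Om W X β × Θ → β → X × φ} {Ve : Finset Ee} {Vs : Dk → Finset Γ} (i : Fin 3)
    (yy : β → Fin 3 → β) (κ : Ee → β → X → FP φ)
    (hκ : ∀ e c x F, PoR D (TP.nn ν) i w0.1 (yy c) (x, F) → al ≤ (κ e c x).p F)
    (hR : 0 < R0) (hδ : 0 ≤ δ) (hf : ∀ i e c ρ d g, |f i e c ρ d g| ≤ R0) (h1 : ∀ i ∈ I, mid i + δ ≤ hi i)
    (h2 : ∀ i ∈ I, lw i + δ ≤ mid i) (hmu : 0 < mu)
    (hk : (I.card + 1 / mu) * Real.exp (-(k * δ ^ 2 / (8 * R0 ^ 2))) ≤ 1 / 4)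
    (hVe : (Ve.card : ℝ) ≤ B0) (hV : ∀ d, ((Vs d).card : ℝ) ≤ B1)
    (hown : ∀ w θ c, (Qc tb v t w0).p w ≠ 0 → Tw.p θ ≠ 0 → D.qb t c = D.qb t (w0.2.2 j) →
      (own (w, θ) c).1 = lbT D (TP.nn ν) j (Uq v ν {j}) (Xt D (TP.nn ν) (tb.pt t w)) c ∧
        PoR D (TP.nn ν) i w0.1 (yy c) (own (w, θ) c))
    {R : FP Dk} {SS : Om W X β × Θ → Dk → Prop} {eta : Om W X β × Θ → Ee}
    {γk : Om W X β × Θ → Dk → Γ} {Pc : Om W X β × Θ → β → Prop} {δ1 kp : ℝ} (hδ1 : 0 < δ1) (hkp : 0 < kp)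
    (hF : ∀ w θ, (Qc tb v t w0).p w ≠ 0 → Tw.p θ ≠ 0 → kp / 2 ≤ (img (Qc tb v t w0) fun w => w.2.2 j).Pr (Pc (w, θ)) →
      eta (w, θ) ∈ Ve ∧ One (img (Qc tb v t w0) fun w => w.2.2 j) R I hi lw mu
        (fun c => rowq ((D.P h t).cond (xc D (Um v (t + 1)) t ∅ (tb.pt t w0))) D (TP.nn ν) j
          (Uq v ν {j}) (κ (eta (w, θ)) c) c)
        (fun i c ρ d => f i (eta (w, θ)) c ρ d (γk (w, θ) d)) (own (w, θ)) (SS (w, θ)) (fun d => γk (w, θ) d ∈ Vs d)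
        (Pc (w, θ)) δ1)
    (hmu' : 1 / al * (2 * mu) < kp / 16) {x : ℝ} (hx : x ≤ N {j} / N ∅ * kp / 16)
    (hy : 2 * (B0 * B1 ^ k * Real.exp (-x)) ≤ δ1 ^ k / 2) (hB0 : 0 ≤ B0) (hB1 : 0 ≤ B1) {Dn : Om W X β → ℝ}
    (hDn : ∀ w, (Qc tb v t w0).p w ≠ 0 → Dn w ≤ Tw.E fun θ => (img (Qc tb v t w0) fun w => w.2.2 j).Pr (Pc (w, θ))) :
    (Qc tb v t w0).Pr (fun w => kp ≤ Dn w) ≤
      2 / kp * (2 * Real.exp 1 * (B0 * B1 ^ k * Real.exp (-x) / (δ1 ^ k / 2))) := by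
  classical
  set Q := Qc tb v t w0 with hQ
  have key := rare_tabS (h := h) (tb := tb) (j := j) hv hν ht hs hN hKS hN0 hjS hw0 (Lx := Unit) Tw (I := I) (hi := hi)
    (mid := mid) (lw := lw) (R0 := R0) (δ := δ) (mu := mu) (B0 := B0) (B1 := B1) (k := k)
    (f := fun i _ e c ρ d g => f i e c ρ d g) (own := fun _ => own) (Ve := fun _ => Ve) (Vs := fun _ => Vs) i
    (fun _ => yy) (fun _ => κ) (fun _ => hκ) hR hδ (fun i _ => hf i) h1 h2 hmu hk (fun _ => hVe) (fun _ => hV)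
    (fun _ => hown) (R := fun _ => R) (SS := fun _ => SS) (eta := fun _ => eta) (γk := fun _ => γk)
    (Pc := fun _ => Pc) (δ1 := δ1) (u := 2 * kp) hδ1 (by linarith) (x := x) (by linarith)
    (by rw [Fintype.card_unit]; push_cast; rw [one_mul]; exact hy) hB0 hB1
  rw [Fintype.card_unit] at key
  push_cast at key
  rw [one_mul, ← hQ] at key
  -- the event of the pairs
  set E2 : Om W X β × Θ → Prop := fun p => kp / 2 ≤ (img Q fun w => w.2.2 j).Pr (Pc p) with hE2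
  have h3 : (FP.pr Q Tw).Pr E2 ≤ 2 * Real.exp 1 * (B0 * B1 ^ k * Real.exp (-x) / (δ1 ^ k / 2)) := by
    refine ((FP.pr Q Tw).Pr_mono fun p hp hp2 => ?_).trans key
    have hp' := (pr_supp Q Tw).1 hp
    obtain ⟨ha, hO⟩ := hF p.1 p.2 hp'.1 hp'.2 hp2
    exact ⟨{()}, Finset.singleton_nonempty _,
      { ss := fun _ _ => hO.ss
        ae := fun _ _ => ha
        al := fun _ _ => hO.al
        ho := fun _ _ => hO.ho
        hm := fun _ _ => hO.hm
        dj := fun l _ l' _ hne => absurd rfl hne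
        dens := by
          rw [Finset.card_singleton, Finset.sum_singleton]
          push_cast
          have : kp / 2 ≤ (img Q fun w => w.2.2 j).Pr (Pc p) := hp2
          linarith }⟩
  -- the mean over the coins
  have h4 : ∀ w, Q.p w ≠ 0 → ind (kp ≤ Dn w) * (kp / 2) ≤ Tw.Pr (fun θ => E2 (w, θ)) := by
    intro w hw
    by_cases hk' : kp ≤ Dn w
    swap
    · rw [ind_not hk', zero_mul]
      exact Tw.Pr_nonneg _
    rw [ind_of hk', one_mul]
    have h5 : Tw.E (fun θ => (img Q fun w => w.2.2 j).Pr (Pc (w, θ))) ≤ Tw.E (fun θ => ind (E2 (w, θ)) + kp / 2) := by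
      refine Tw.E_mono fun θ _ => ?_
      by_cases h6 : E2 (w, θ)
      · rw [ind_of h6]
        have := (img Q fun w => w.2.2 j).Pr_le_one (Pc (w, θ))
        linarith
      · rw [ind_not h6]
        have h7 : (img Q fun w => w.2.2 j).Pr (Pc (w, θ)) < kp / 2 := not_le.1 h6
        linarith
    rw [FP.E_add, FP.E_const] at h5
    have h8 := hDn w hw
    have h9 : Tw.E (fun θ => ind (E2 (w, θ))) = Tw.Pr fun θ => E2 (w, θ) := rfl
    rw [h9] at h5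
    linarith
  have h10 : Q.Pr (fun w => kp ≤ Dn w) * (kp / 2) ≤ (FP.pr Q Tw).Pr E2 := by
    have e1 : Q.Pr (fun w => kp ≤ Dn w) * (kp / 2) = Q.E (fun w => ind (kp ≤ Dn w) * (kp / 2)) := (Q.E_mul_const _ _).symm
    have e2 : (FP.pr Q Tw).Pr E2 = Q.E fun w => Tw.Pr fun θ => E2 (w, θ) := FP.pr_E Q Tw _
    rw [e1, e2]
    exact Q.E_mono h4
  have h11 := h10.trans h3
  rw [div_mul_eq_mul_div, le_div_iff₀ hkp]
  linarith

/-! ## the class of the exact vertex at a state -/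

/-- the public class of the states `5 t - 3, ..., 5 t` -/
theorem NPo_cl {q t : ℕ} (h1 : 5 * t ≤ q + 3) (h2 : q ≤ 5 * t) {a b : Om W X β} :
    NPo tb v q a = NPo tb v q b ↔ cl D v t a = cl D v t b := by
  have e1 : TP.nc q ∅ = t + 1 ∧ TP.nn q = t := by
    rcases Nat.eq_zero_or_pos t with h3 | h3
    · subst h3
      obtain rfl : q = 0 := by omega
      exact ⟨nc5 0 pth0, nn5 0⟩
    · obtain ⟨s, rfl⟩ : ∃ s, t = s + 1 := ⟨t - 1, by omega⟩
      obtain ⟨i, hi, rfl⟩ : ∃ i, 2 ≤ i ∧ q = 5 * s + i := ⟨q - 5 * s, by omega, by omega⟩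
      have h4 : i ≤ 5 := by omega
      rw [TP.nc_add s i pth0 h4, TP.nn_add s i h4]
      unfold TP.ncj TP.nnj
      have h5 : TP.rk ∅ < i := by
        have : TP.rk ∅ ≤ 1 := by decide
        omega
      rw [if_pos h5, if_neg (by omega)]
      exact ⟨rfl, rfl⟩
  rw [NPo_iff, cl_eq, e1.1, e1.2]

theorem Qst_cl {q t : ℕ} (h1 : 5 * t ≤ q + 3) (h2 : q ≤ 5 * t) (w : Om W X β) : Qst tb v q w = Qc tb v t w := by
  unfold Qst Qc
  congr 1
  funext u
  exact propext (NPo_cl h1 h2)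

/-- **THE CLASS OF THE EXACT VERTEX** `i1` at the state `q`, letter of surprisal `≤ X0` -/
theorem priv_ceS (hv : Codes D v) {q : ℕ} (i1 : Fin 3) {w0 : Om W X β} (hw0 : tb.Ps.p w0 ≠ 0) {bad : Om W X β → Prop}
    (hbad : ∀ u u' : Om W X β, u.1 = u'.1 → u.2.1 = u'.2.1 → u.2.2 i1 = u'.2.2 i1 →
      (∀ i, D.qb (TP.nn q) (u.2.2 i) = D.qb (TP.nn q) (u'.2.2 i)) → bad u → bad u') {ε X0 : ℝ}
    (hε : (Qst tb v q w0).Pr (fun u => bad (at0 w0 u)) ≤ ε)
    (hX : sp tb.Ps (XLo tb v i1 q) (fun u => (u.2.2 i1, NPo tb v q u)) w0 ≤ X0) :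
    tb.Ps.ce (fun u => (XLo tb v i1 q u, NPo tb v q u)) (fun u => ind (bad u)) w0 ≤ Real.exp X0 * ε := by
  set P := tb.Ps with hP
  have hcl : P.Pr (fun u => NPo tb v q u = NPo tb v q w0) ≠ 0 := (P.m_pos (NPo tb v q) hw0).ne'
  have hm1 := P.m_pos (fun u => (u.2.2 i1, NPo tb v q u)) hw0
  have hm2 := P.m_pos (fun u => (XLo tb v i1 q u, NPo tb v q u)) hw0
  -- the numerator
  have h1 : P.E (fun u => ind ((XLo tb v i1 q u, NPo tb v q u) = (XLo tb v i1 q w0, NPo tb v q w0)) * ind (bad u)) ≤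
      ε * P.m (fun u => (u.2.2 i1, NPo tb v q u)) w0 := by
    have h2 : P.E (fun u => ind ((XLo tb v i1 q u, NPo tb v q u) = (XLo tb v i1 q w0, NPo tb v q w0)) * ind (bad u)) ≤
        P.E (fun u => ind (NPo tb v q u = NPo tb v q w0) * (ind (bad (at0 w0 u)) * ind (u.2.2 i1 = w0.2.2 i1))) := by
      refine P.E_mono fun u _ => ?_
      rw [← ind_and, ← ind_and, ← ind_and]
      refine ind_mono ?_
      rintro ⟨e, hb⟩
      have e1 := Prod.mk.inj e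
      have e2 : u.2.2 i1 = w0.2.2 i1 := XLo_pt q u w0 e1.1
      exact ⟨e1.2, hbad u (at0 w0 u) rfl rfl e2 (NPo_iff.1 e1.2).2.2 hb, e2⟩
    have h3 : P.E (fun u => ind (NPo tb v q u = NPo tb v q w0) * (ind (bad (at0 w0 u)) * ind (u.2.2 i1 = w0.2.2 i1))) =
        P.Pr (fun u => NPo tb v q u = NPo tb v q w0) *
          ((Qst tb v q w0).Pr (fun u => bad (at0 w0 u)) * (Qst tb v q w0).Pr (fun u => u.2.2 i1 = w0.2.2 i1)) := by
      have e4 := Qst_indep (tb := tb) hv q w0 (fun u => ind (bad (at0 w0 u)))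
        (fun u => ind (u.2.2 i1 = w0.2.2 i1)) (fun a b e => by
          have e5 := Prod.mk.inj e
          show ind (bad (a.1, a.2.1, w0.2.2)) = ind (bad (b.1, b.2.1, w0.2.2))
          rw [e5.1, e5.2]) (fun a b e => by
          have e5 : a.2.2 = b.2.2 := e
          show ind (a.2.2 i1 = _) = ind (b.2.2 i1 = _)
          rw [e5])
      have e6 : (Qst tb v q w0).Pr (fun u => bad (at0 w0 u)) * (Qst tb v q w0).Pr (fun u => u.2.2 i1 = w0.2.2 i1) =
          (Qst tb v q w0).E (fun u => ind (bad (at0 w0 u)) * ind (u.2.2 i1 = w0.2.2 i1)) := e4.symm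
      rw [e6]
      unfold Qst
      rw [FP.cond_E hcl]
      field_simp
    have h4 : P.m (fun u => (u.2.2 i1, NPo tb v q u)) w0 = P.Pr (fun u => NPo tb v q u = NPo tb v q w0) *
        (Qst tb v q w0).Pr (fun u => u.2.2 i1 = w0.2.2 i1) := by
      have e7 : (Qst tb v q w0).Pr (fun u => u.2.2 i1 = w0.2.2 i1) =
          P.E (fun u => ind (NPo tb v q u = NPo tb v q w0) * ind (u.2.2 i1 = w0.2.2 i1)) /
            P.Pr (fun u => NPo tb v q u = NPo tb v q w0) := FP.cond_E hcl _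
      rw [e7, mul_div_cancel₀ _ hcl]
      refine P.E_congr fun u _ => ?_
      rw [← ind_and]
      refine congrArg ind (propext ⟨fun e => ?_, fun e => ?_⟩)
      · have e1 := Prod.mk.inj (show (u.2.2 i1, NPo tb v q u) = (w0.2.2 i1, NPo tb v q w0) from e)
        exact ⟨e1.2, e1.1⟩
      · show (u.2.2 i1, NPo tb v q u) = (w0.2.2 i1, NPo tb v q w0)
        rw [e.1, e.2]
    rw [h3] at h2
    rw [h4]
    refine h2.trans ?_
    have h5 : 0 ≤ P.Pr (fun u => NPo tb v q u = NPo tb v q w0) := P.Pr_nonneg _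
    have h6 : 0 ≤ (Qst tb v q w0).Pr (fun u => u.2.2 i1 = w0.2.2 i1) := FP.Pr_nonneg _ _
    have h7 := mul_le_mul_of_nonneg_left (mul_le_mul_of_nonneg_right hε h6) h5
    linarith
  have e8 : P.m (fun u => (XLo tb v i1 q u, (u.2.2 i1, NPo tb v q u))) w0 =
      P.m (fun u => (XLo tb v i1 q u, NPo tb v q u)) w0 := by
    refine P.m_congr (fun a b e => ?_) (fun a b e => ?_) w0
    · have e1 := Prod.mk.inj e
      have e2 := Prod.mk.inj e1.2
      show (XLo tb v i1 q a, NPo tb v q a) = (XLo tb v i1 q b, NPo tb v q b)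
      rw [e1.1, e2.2]
    · have e1 := Prod.mk.inj (show (XLo tb v i1 q a, NPo tb v q a) = (XLo tb v i1 q b, NPo tb v q b) from e)
      have e2 : a.2.2 i1 = b.2.2 i1 := XLo_pt q a b e1.1
      show (XLo tb v i1 q a, (a.2.2 i1, NPo tb v q a)) = (XLo tb v i1 q b, (b.2.2 i1, NPo tb v q b))
      rw [e1.1, e1.2, e2]
  have h8 : P.m (fun u => (u.2.2 i1, NPo tb v q u)) w0 ≤
      Real.exp X0 * P.m (fun u => (XLo tb v i1 q u, NPo tb v q u)) w0 := by
    have h9 : Real.log (P.m (fun u => (u.2.2 i1, NPo tb v q u)) w0) ≤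
        X0 + Real.log (P.m (fun u => (XLo tb v i1 q u, NPo tb v q u)) w0) := by
      have e : sp P (XLo tb v i1 q) (fun u => (u.2.2 i1, NPo tb v q u)) w0 =
          Real.log (P.m (fun u => (u.2.2 i1, NPo tb v q u)) w0) -
            Real.log (P.m (fun u => (XLo tb v i1 q u, (u.2.2 i1, NPo tb v q u))) w0) := rfl
      rw [e, e8] at hX
      linarith
    have h10 := Real.exp_le_exp.2 h9
    rwa [Real.exp_add, Real.exp_log hm1, Real.exp_log hm2] at h10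
  have hε0 : 0 ≤ ε := (FP.Pr_nonneg _ _).trans hε
  show P.E (fun u => ind ((XLo tb v i1 q u, NPo tb v q u) = (XLo tb v i1 q w0, NPo tb v q w0)) * ind (bad u)) /
    P.m (fun u => (XLo tb v i1 q u, NPo tb v q u)) w0 ≤ _
  rw [div_le_iff₀ hm2]
  have h11 := mul_le_mul_of_nonneg_left h8 hε0
  linarith

/-- **ALL CLASSES** : `En` = any event of the class of the exact vertex at the state `q` -/
theorem priv_sumS (hv : Codes D v) {q : ℕ} (i1 : Fin 3) {En : Om W X β → Prop}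
    (hEn : Fac (fun u => (XLo tb v i1 q u, NPo tb v q u)) En)
    {Θ : Type} [Fintype Θ] (Tw : FP Θ) {bad : Θ → Om W X β → Prop} {bad' : Om W X β → Θ → Om W X β → Prop}
    (hb : ∀ w0 θ u, tb.Ps.p w0 ≠ 0 → En w0 → XLo tb v i1 q u = XLo tb v i1 q w0 → NPo tb v q u = NPo tb v q w0 →
      bad θ u → bad' w0 θ u)
    (hbad : ∀ w0 θ (u u' : Om W X β), u.1 = u'.1 → u.2.1 = u'.2.1 → u.2.2 i1 = u'.2.2 i1 →
      (∀ i, D.qb (TP.nn q) (u.2.2 i) = D.qb (TP.nn q) (u'.2.2 i)) → bad' w0 θ u → bad' w0 θ u') {ε X0 : ℝ}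
    (hε : ∀ w0, tb.Ps.p w0 ≠ 0 → En w0 →
      (FP.pr (Qst tb v q w0) Tw).Pr (fun p => bad' w0 p.2 (at0 w0 p.1)) ≤ ε)
    (hX : ∀ w0, tb.Ps.p w0 ≠ 0 → En w0 → sp tb.Ps (XLo tb v i1 q) (fun u => (u.2.2 i1, NPo tb v q u)) w0 ≤ X0) :
    Tw.E (fun θ => tb.Ps.Pr (fun u => En u ∧ bad θ u)) ≤ Real.exp X0 * ε * tb.Ps.Pr En := by
  have h1 : ∀ θ, tb.Ps.Pr (fun u => En u ∧ bad θ u) =
      tb.Ps.E (fun w => ind (En w) * tb.Ps.ce (fun u => (XLo tb v i1 q u, NPo tb v q u)) (fun u => ind (bad θ u)) w) :=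
    fun θ => by
    have e1 := tb.Ps.E_ce_mul (X := fun u => (XLo tb v i1 q u, NPo tb v q u)) (h := fun w => ind (En w))
      (Fac.ind fun a b e => by rw [hEn a b e]) (fun u => ind (bad θ u))
    refine Eq.trans ?_ (e1.symm.trans ?_)
    · exact tb.Ps.E_congr fun w _ => (ind_and _ _).trans (mul_comm _ _)
    · exact tb.Ps.E_congr fun w _ => mul_comm _ _
  simp only [h1]
  rw [Tw.E_swap]
  have h2 : Real.exp X0 * ε * tb.Ps.Pr En = tb.Ps.E (fun w => ind (En w) * (Real.exp X0 * ε)) := by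
    rw [FP.E_mul_const]
    show _ = tb.Ps.Pr En * _
    ring
  rw [h2]
  refine tb.Ps.E_mono fun w hw => ?_
  rw [FP.E_smul]
  by_cases hE : En w
  swap
  · rw [ind_not hE, zero_mul, zero_mul]
  refine mul_le_mul_of_nonneg_left ?_ (ind_nonneg _)
  -- one class
  have h3 : ∀ θ, tb.Ps.ce (fun u => (XLo tb v i1 q u, NPo tb v q u)) (fun u => ind (bad θ u)) w ≤
      Real.exp X0 * (Qst tb v q w).Pr (fun u => bad' w θ (at0 w u)) := fun θ => by
    refine le_trans ?_ (priv_ceS hv i1 hw (bad := bad' w θ) (hbad w θ) le_rfl (hX w hw hE))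
    exact ce_mono_on fun u hu => ind_mono fun h4 => by
      have e1 := Prod.mk.inj (show (XLo tb v i1 q u, NPo tb v q u) = (XLo tb v i1 q w, NPo tb v q w) from hu)
      exact hb w θ u hw hE e1.1 e1.2 h4
  refine (Tw.E_mono fun θ _ => h3 θ).trans ?_
  rw [FP.E_smul]
  refine mul_le_mul_of_nonneg_left (le_trans (le_of_eq ?_) (hε w hw hE)) (Real.exp_pos _).le
  unfold FP.Pr
  rw [FP.pr_E, Tw.E_swap]

end

end Pool.Agent.GMH.GhoX2
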