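import Pool.Agent.GMH.GhoZ
import Pool.Agent.GMH.GdyR

/-!
# GMH/GhoZ2 (helper85): `T^0` WITH THE COVERS BY OWN SAMPLED ROWS AND COLUMNS (H3.T, T.10), fixed `a`

`B`, `C`, `D` exact points; `C` independent of `(B, D)`, `D` independent of `(B, C)`; `Xd s` = cells of `b`, `d`, `Xc s` = cells
of `b`, `c`, `nd s` = node.  `x : Fin M → α` sampled points `c_i`, `y : Fin M → δ` sampled points `d_i`.
The row of `c'` at the level `s` : `(b, d)` such that in the world `(b, c', d)` the tuple is in `R`, `T^0 = s ≤ σ`, `b` is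
undecided (`sec`).  `Cdz x s` = cumulative greedy cover (`GMH/GdyR`) of `(b, d)` by the rows of the sample; the column of
`d'` : the same with `(b, d')` in `Cdz x s`; `Ccz x y s` = cover of `(b, c)` by the columns of the sample.

* `sec_own`, `own_bad` : the own row is acceptable at its sight at some level iff it is bad for the process of `V`;
* `row_lem`, `row_mass`, `row_pay` : THE ROW LEMMA for any `U`, `V`, relation with selection bits `A s`, weight `ψ` (signed,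
  unsigned) and its payment; bad rows in the mean over the sample: `own_bad_le` or `GdyR.bad_ind`;
* `z_inst` : `E 1_(R, T^0, not both covered) ψ ≤ lam P (R, L0) + 2 L kap P (z) + L (P (bad row) + P (bad column))`;
* `bad_row`, `bad_col` : bad `≤ 1 / (kap (M + 1))` in the mean over the samples;
* `z_row`, `z_mass` : rows only, unsigned columns (relations where only one face is strong);
* `pay_row`, `pay_col` : `lam P (T^0 ≤ σ, undecided, covered) ≤ 2 E PhL (σ)`, potential at the node.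
-/

set_option autoImplicit false
set_option linter.unusedSectionVars false

namespace Pool.Agent.GMH.GhoZ

open Finset Pool.Agent.PWZ Pool.Agent.M3 Pool.Agent.GMH.Gdy Pool.Agent.GMH.CR Pool.Agent.GMH.Three
open Pool.Agent.GMH.Blk Pool.Agent.GMH.GhoV
open Pool.Agent.GMH.GhoT (L0)
open Pool.Agent.GMH.Grs (ok)
open Pool.Agent.GMH.BlkG (row_le)
open Pool.Agent.GMH.GdyR (covL covL_facV covL_mono covL_change PhL)

noncomputable section

variable {Om : Type*} [Fintype Om] {P : FP Om}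

/-! ## the section of an event -/

section sct

variable {α ω : Type*} {U : Om → α} {V : Om → ω} {κ : ℕ → Type*} {X : ∀ t, Om → κ t} {A : ℕ → Om → Prop}

variable (U V A) in
/-- the section of the event `A s` at `U = u`, an event of `V` -/
def sec (s : ℕ) (u : α) (w : Om) : Prop := ∃ v, V v = V w ∧ U v = u ∧ A s v

theorem sec_fac (s : ℕ) (u : α) (x w : Om) (e : V x = V w) : sec U V A s u x ↔ sec U V A s u w := by
  unfold sec
  rw [e]

theorem sec_own (hA : ∀ s x w, U x = U w → V x = V w → (A s x ↔ A s w)) (s : ℕ) (w : Om) :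
    sec U V A s (U w) w ↔ A s w :=
  ⟨fun ⟨v, e1, e2, h⟩ => (hA s v w e2 e1).1 h, fun h => ⟨w, rfl, rfl, h⟩⟩

variable {f : α → Om → ℝ} {g : Om → ℝ} {kap lam : ℝ} {K M T : ℕ} {x : Fin M → α}

/-- **THE OWN ROW IS ACCEPTABLE AT SOME LEVEL = BAD IN THE PROCESS OF `V`** -/
theorem own_bad (hI : P.Indep U V) (hX : ∀ s, Fac V (X s)) (hA : ∀ s x w, U x = U w → V x = V w → (A s x ↔ A s w))
    (hf : ∀ a, Fac V (f a)) (hg : ∀ w, f (U w) w = g w) {w : Om} (hw : P.p w ≠ 0) :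
    (∃ s < T, ok P (fun v => (U v, X s v)) kap lam
      (fun v => A s v ∧ ¬ covL P X (sec U V A) f kap lam K x s v) g w) ↔
      GdyR.bad P X (sec U V A) f kap lam K x (U w) T w := by
  unfold GdyR.bad
  refine exists_congr fun s => and_congr_right fun _ => ?_
  have h1 := ok_frozen (P := P) (U := U) (V := V) (X := X s) (H := sec U V A s)
    (C := covL P X (sec U V A) f kap lam K x s) (f := f) (kap := kap) (lam := lam) hI (hX s)
    (fun a v u e => sec_fac s a v u e) (fun v u e => covL_facV hX (fun s a v w e => sec_fac s a v w e) s v u e) hf hw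
  have e1 : (fun v => A s v ∧ ¬ covL P X (sec U V A) f kap lam K x s v) =
      (fun v => sec U V A s (U v) v ∧ ¬ covL P X (sec U V A) f kap lam K x s v) := by
    funext v
    rw [propext (sec_own hA s v)]
  have e2 : g = fun v => f (U v) v := funext fun v => (hg v).symm
  rw [e1, e2]
  exact h1

/-- **bad own rows, in the mean over the sample** -/
theorem own_bad_le [Fintype α] (hI : P.Indep U V) (hX : ∀ s, Fac V (X s)) (fX : Filt X)
    (hA : ∀ s x w, U x = U w → V x = V w → (A s x ↔ A s w)) (hf : ∀ a, Fac V (f a)) (hg : ∀ w, f (U w) w = g w)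
    (hK : 1 < kap * K) (k0 : 0 < kap) (M T : ℕ) :
    ∑ x : Fin M → α, sw (fun a => P.Pr (fun w => U w = a)) x *
      P.Pr (fun w => ∃ s < T, ok P (fun v => (U v, X s v)) kap lam
        (fun v => A s v ∧ ¬ covL P X (sec U V A) f kap lam K x s v) g w) ≤ 1 / (kap * (M + 1)) := by
  refine le_trans (le_of_eq ?_) (GdyR.bad_ind (P := P) (cV := X) (H := sec U V A) (f := f) (kap := kap) (lam := lam) (K := K)
    hI hX fX hK k0 M T)
  refine Finset.sum_congr rfl fun x _ => ?_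
  congr 1
  exact P.Pr_congr fun w hw => own_bad hI hX hA hf hg hw

end sct

/-! ## forgetting the cell of `U` -/

section chg

variable {α ω : Type*} {U : Om → α} {V : Om → ω} {κ κ' ν : Type*} {cU : Om → κ} {X : Om → κ'} {nd : Om → ν}

/-- a function of `V` : the cell of `U` may be forgotten -/
theorem chg (hI : P.Indep U V) (hU : Fac U cU) (hX : Fac V X) (hn : Fac (fun v => (cU v, X v)) nd)
    (hn' : Fac nd (fun v => (cU v, X v))) {g : Om → ℝ} (hg : Fac V g) {w : Om} (hw : P.p w ≠ 0) :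
    P.ce X g w = P.ce nd g w := by
  have h1 := freezeV (P := P) (U := cU) (V := V) (X := X) (F := fun _ => g) (hI.mono hU (Fac.refl _)) hX
    (fun _ => hg) hw
  rw [← h1]
  exact P.ce_congr_map hn hn' g w

end chg

/-! ## one part with the rule `ok` -/

section pok

variable {κ : ℕ → Type*} {V : ∀ t, Om → κ t} {z A Cv : ℕ → Om → Prop} {T : ℕ} {ψ : Om → ℝ} {lam kap L : ℝ}

/-- signed -/
theorem part_ok (hz : ∀ s x w, V s x = V s w → (z s x ↔ z s w)) (z1 : ∀ w s s', z s w → z s' w → s = s')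
    (zT : ∀ s w, z s w → s < T) (hA : ∀ s w, A s w → z s w) (l0 : 0 ≤ lam) (k0 : 0 ≤ kap) (L0' : 0 ≤ L)
    (hL : ∀ w, ψ w ≤ L) :
    P.E (fun w => ind (∃ s, A s w ∧ ¬ Cv s w) * ψ w) ≤ lam * P.Pr (fun w => ∃ s, A s w ∧ ¬ Cv s w) +
      L * kap * P.Pr (fun w => ∃ s, z s w) +
      L * P.Pr (fun w => ∃ s < T, ok P (V s) kap lam (fun x => A s x ∧ ¬ Cv s x) ψ w) := by
  have h1 := part_signed (P := P) (V := V) (R := fun _ => True) (z := z) (G := fun s w => A s w ∧ ¬ Cv s w)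
    (Bd := fun s => ok P (V s) kap lam (fun x => True ∧ (A s x ∧ ¬ Cv s x)) ψ) (T := T) (ψ := ψ) (lam := lam)
    (kap := L * kap) (L := L) hz z1 zT (fun s w hw _ => row_le hw l0 k0 L0' hL)
  have e1 : ∀ w, (∃ s, z s w ∧ (A s w ∧ ¬ Cv s w)) = (∃ s, A s w ∧ ¬ Cv s w) := fun w =>
    propext ⟨fun ⟨s, _, b⟩ => ⟨s, b⟩, fun ⟨s, b⟩ => ⟨s, hA s w b.1, b⟩⟩
  simp only [true_and] at h1
  simp only [e1] at h1
  refine h1.trans (add_le_add le_rfl (mul_le_mul_of_nonneg_left ?_ L0'))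
  exact P.Pr_mono fun w _ ⟨s, a, b⟩ => ⟨s, zT s w a, b⟩

/-- unsigned -/
theorem part_mass (hz : ∀ s x w, V s x = V s w → (z s x ↔ z s w)) (z1 : ∀ w s s', z s w → z s' w → s = s')
    (zT : ∀ s w, z s w → s < T) (hA : ∀ s w, A s w → z s w) (k0 : 0 ≤ kap) :
    P.Pr (fun w => ∃ s, A s w ∧ ¬ Cv s w) ≤ kap * P.Pr (fun w => ∃ s, z s w) +
      P.Pr (fun w => ∃ s < T, ok P (V s) kap 1 (fun x => A s x ∧ ¬ Cv s x) (fun _ => 1) w) := by
  have h1 := part_signed (P := P) (V := V) (R := fun _ => True) (z := z) (G := fun s w => A s w ∧ ¬ Cv s w)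
    (Bd := fun s => ok P (V s) kap 1 (fun x => A s x ∧ ¬ Cv s x) (fun _ => 1)) (T := T) (ψ := fun _ => 1) (lam := 0)
    (kap := kap) (L := 1) hz z1 zT (fun s w hw _ => ?_)
  · have e1 : ∀ w, (∃ s, z s w ∧ (True ∧ (A s w ∧ ¬ Cv s w))) = (∃ s, A s w ∧ ¬ Cv s w) := fun w =>
      propext ⟨fun ⟨s, _, _, b⟩ => ⟨s, b⟩, fun ⟨s, b⟩ => ⟨s, hA s w b.1, trivial, b⟩⟩
    simp only [e1, mul_one, zero_mul, zero_add, one_mul] at h1
    refine le_trans h1 (add_le_add le_rfl ?_)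
    exact P.Pr_mono fun w _ ⟨s, a, b⟩ => ⟨s, zT s w a, b⟩
  · simp only [true_and, mul_one, zero_mul, zero_add, one_mul]
    have h3 : P.ce (V s) (fun v => ind (A s v ∧ ¬ Cv s v)) w ≤ 1 := P.ce_le_const (fun _ _ => ind_le_one _) hw
    by_cases h4 : kap ≤ P.ce (V s) (fun v => ind (A s v ∧ ¬ Cv s v)) w
    · have h5 : ok P (V s) kap 1 (fun x => A s x ∧ ¬ Cv s x) (fun _ => 1) w := ⟨h4, by simp only [mul_one, one_mul]; exact le_rfl⟩
      rw [ind_of h5]
      linarith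
    · have h5 := ind_nonneg (ok P (V s) kap 1 (fun x => A s x ∧ ¬ Cv s x) (fun _ => 1) w)
      have h6 := (not_le.1 h4).le
      linarith

end pok

/-! ## THE ROW LEMMA, for any relation, selection and weight -/

section rowl

variable {α ω ι : Type*} {U : Om → α} {V : Om → ω} {κ ν : ℕ → Type*} {X : ∀ t, Om → κ t} {nd : ∀ t, Om → ν t}
  {A z : ℕ → Om → Prop} {f : α → Om → ℝ} {ψ : Om → ℝ} {kap lam L : ℝ} {K M T : ℕ} {x : Fin M → α} {σ : Om → ℕ}

/-- **THE ROW LEMMA, SIGNED** : `A s ⊆ z s` any event of `(U, V)`, `z` a unique time seen by (exact `U`, cell of `V`); the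
part of `A` which is not in the greedy cover of the sampled rows -/
theorem row_lem (hI : P.Indep U V) (hX : ∀ s, Fac V (X s)) (hA : ∀ s x w, U x = U w → V x = V w → (A s x ↔ A s w))
    (hz : ∀ s x w, (U x, X s x) = (U w, X s w) → (z s x ↔ z s w)) (z1 : ∀ w s s', z s w → z s' w → s = s')
    (zT : ∀ s w, z s w → s < T) (hAz : ∀ s w, A s w → z s w) (l0 : 0 ≤ lam) (k0 : 0 ≤ kap) (L0' : 0 ≤ L)
    (hL : ∀ w, ψ w ≤ L) (hf : ∀ a, Fac V (f a)) (hg : ∀ w, f (U w) w = ψ w) :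
    P.E (fun w => ind (∃ s, A s w ∧ ¬ covL P X (sec U V A) f kap lam K x s w) * ψ w) ≤
      lam * P.Pr (fun w => ∃ s, A s w ∧ ¬ covL P X (sec U V A) f kap lam K x s w) +
        L * kap * P.Pr (fun w => ∃ s, z s w) +
        L * P.Pr (fun w => GdyR.bad P X (sec U V A) f kap lam K x (U w) T w) := by
  refine (part_ok (P := P) (V := fun s v => (U v, X s v)) hz z1 zT hAz l0 k0 L0' hL).trans (le_of_eq ?_)
  congr 2
  exact P.Pr_congr fun w hw => own_bad hI hX hA hf hg hw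

/-- **THE ROW LEMMA, UNSIGNED** -/
theorem row_mass (hI : P.Indep U V) (hX : ∀ s, Fac V (X s)) (hA : ∀ s x w, U x = U w → V x = V w → (A s x ↔ A s w))
    (hz : ∀ s x w, (U x, X s x) = (U w, X s w) → (z s x ↔ z s w)) (z1 : ∀ w s s', z s w → z s' w → s = s')
    (zT : ∀ s w, z s w → s < T) (hAz : ∀ s w, A s w → z s w) (k0 : 0 ≤ kap) :
    P.Pr (fun w => ∃ s, A s w ∧ ¬ covL P X (sec U V A) (fun _ _ => 1) kap 1 K x s w) ≤
      kap * P.Pr (fun w => ∃ s, z s w) +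
        P.Pr (fun w => GdyR.bad P X (sec U V A) (fun _ _ => 1) kap 1 K x (U w) T w) := by
  refine (part_mass (P := P) (V := fun s v => (U v, X s v)) hz z1 zT hAz k0).trans (le_of_eq ?_)
  congr 1
  exact P.Pr_congr fun w hw => own_bad hI hX hA (fun _ => Fac.const _ _) (fun _ => rfl) hw

/-- **PAYMENT OF THE COVER** at a stopping time of the nodes -/
theorem row_pay (fnd : Filt nd) (hX : ∀ s, Fac V (X s)) (hσ : Stp nd σ)
    (hc : ∀ s (g : Om → ℝ), Fac V g → ∀ w, P.p w ≠ 0 → P.ce (X s) g w = P.ce (nd s) g w) (hK : 0 < K) (l0 : 0 ≤ lam)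
    (hf : ∀ a, Fac V (f a)) {E : ℕ → Om → Prop} (hE : ∀ s w, E s w → s ≤ σ w) :
    lam * P.Pr (fun w => ∃ s, E s w ∧ covL P X (sec U V A) f kap lam K x s w) ≤
      2 * P.E (fun w => PhL P nd (sec U V A) f kap lam K x (σ w) w) := by
  refine le_trans (mul_le_mul_of_nonneg_left (P.Pr_mono fun w hw => ?_) l0)
    (GdyR.pay (P := P) (X := nd) (H := sec U V A) (f := f) (kap := kap) (lam := lam) (x := x) fnd hK l0 hσ)
  rintro ⟨s, h1, h2⟩
  have h3 : covL P X (sec U V A) f kap lam K x (σ w) w := covL_mono (hE s w h1) h2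
  exact (covL_change (X := nd) (V := V) (Y := X) (fun s g hg w hw => (hc s g hg w hw).symm)
    hX (fun s a v w e => sec_fac s a v w e) hf (σ w) hw).2 h3

end rowl

/-! ## the two covers -/

section two

variable {β α δ : Type*} {B : Om → β} {C : Om → α} {D : Om → δ} {κ κ' κc κd κb ν : ℕ → Type*}
  {N : ∀ t, Om → κb t} {Yc : ∀ t, Om → κ t} {Yd : ∀ t, Om → κ' t} {Xd : ∀ t, Om → κd t} {Xc : ∀ t, Om → κc t}
  {nd : ∀ t, Om → ν t} {R : Om → Prop} {q u0 h lam kap L : ℝ} {σ : Om → ℕ} {T : ℕ} {ψ : Om → ℝ}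
  {K K' M M' : ℕ}
  {x : Fin M → α} {y : Fin M' → δ} {lam' kap' : ℝ} {fd : α → Om → ℝ} {fc : δ → Om → ℝ}

variable (P B C D N nd Xc Xd R σ T) in
/-- the setting: three exact points at fixed `a` -/
structure Zs : Prop where
  iC : P.Indep C (fun v => (B v, D v))
  iD : P.Indep D (fun v => (B v, C v))
  fnd : Filt nd
  fN : Filt N
  fXd : Filt Xd
  fXc : Filt Xc
  hXd : ∀ s, Fac (fun v => (B v, D v)) (Xd s)
  hXc : ∀ s, Fac (fun v => (B v, C v)) (Xc s)
  vC : ∀ s, Fac (fun v => (C v, Xd s v)) (nd s)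
  vD : ∀ s, Fac (fun v => (D v, Xc s v)) (nd s)
  nN : ∀ s, Fac (N s) (nd s)
  pN : ∀ s x w, B x = B w → C x = C w → D x = D w → N s x = N s w
  pR : ∀ x w, B x = B w → C x = C w → D x = D w → (R x ↔ R w)
  chd : ∀ s (g : Om → ℝ), Fac (fun v => (B v, D v)) g → ∀ w, P.p w ≠ 0 → P.ce (Xd s) g w = P.ce (nd s) g w
  chc : ∀ s (g : Om → ℝ), Fac (fun v => (B v, C v)) g → ∀ w, P.p w ≠ 0 → P.ce (Xc s) g w = P.ce (nd s) g w
  st : Stp nd σ
  sT : ∀ w, σ w < T

variable (P N nd R q u0 σ) in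
/-- the tuples of `T^0 = s ≤ σ` with `b` undecided -/
def Az (s : ℕ) (w : Om) : Prop := z P nd R u0 σ s w ∧ un P N R q s w ∧ R w

variable (P B C D N nd Xd R q u0 σ fd kap lam K x) in
/-- `(b, d)` covered by the rows of the sample -/
def Cdz (s : ℕ) (w : Om) : Prop :=
  covL P Xd (sec C (fun v => (B v, D v)) (Az P N nd R q u0 σ)) fd kap lam K x s w

variable (P B C D N nd Xd R q u0 σ fd kap lam K x) in
/-- the tuples with `(b, d)` covered -/
def Bz (s : ℕ) (w : Om) : Prop :=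
  z P nd R u0 σ s w ∧ un P N R q s w ∧ R w ∧ Cdz P B C D N Xd nd R q u0 lam kap σ K x fd s w

variable (P B C D N nd Xd Xc R q u0 σ fd fc kap lam kap' lam' K K' x y) in
/-- `(b, c)` covered by the columns of the sample; rows `lam`, `kap`, `K`, columns `lam'`, `kap'`, `K'` -/
def Ccz (s : ℕ) (w : Om) : Prop :=
  covL P Xc (sec D (fun v => (B v, C v)) (Bz P B C D N Xd nd R q u0 lam kap σ K x fd)) fc kap' lam' K' y s w

theorem Az_fac (hz : Zs P B C D N Xd Xc nd R σ T) (s : ℕ) (v w : Om) (eC : C v = C w)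
    (e : (B v, D v) = (B w, D w)) : Az P N nd R q u0 σ s v ↔ Az P N nd R q u0 σ s w := by
  have e1 : B v = B w ∧ D v = D w := Prod.mk.injEq _ _ _ _ ▸ e
  have e2 : N s v = N s w := hz.pN s v w e1.1 eC e1.2
  unfold Az
  rw [z_fac hz.fnd hz.st s (hz.nN s v w e2), un_fac hz.fN s e2, hz.pR v w e1.1 eC e1.2]

theorem Cdz_fac (hz : Zs P B C D N Xd Xc nd R σ T) (s : ℕ) (v w : Om) (e : (B v, D v) = (B w, D w)) :
    Cdz P B C D N Xd nd R q u0 lam kap σ K x fd s v ↔ Cdz P B C D N Xd nd R q u0 lam kap σ K x fd s w :=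
  covL_facV (V := fun v => (B v, D v)) hz.hXd (fun s a v w e => sec_fac s a v w e) s v w e

theorem Bz_fac (hz : Zs P B C D N Xd Xc nd R σ T) (s : ℕ) (v w : Om) (eD : D v = D w)
    (e : (B v, C v) = (B w, C w)) : Bz P B C D N Xd nd R q u0 lam kap σ K x fd s v ↔
      Bz P B C D N Xd nd R q u0 lam kap σ K x fd s w := by
  have e1 : B v = B w ∧ C v = C w := Prod.mk.injEq _ _ _ _ ▸ e
  have e2 : (B v, D v) = (B w, D w) := by rw [e1.1, eD]
  have h1 := Az_fac (P := P) (q := q) (u0 := u0) hz s v w e1.2 e2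
  have h2 := Cdz_fac (P := P) (q := q) (u0 := u0) (lam := lam) (kap := kap) (K := K) (x := x) (fd := fd) hz s v w e2
  unfold Az at h1
  unfold Bz
  rw [h2]
  constructor
  · rintro ⟨a, b, c, d⟩
    obtain ⟨a', b', c'⟩ := h1.1 ⟨a, b, c⟩
    exact ⟨a', b', c', d⟩
  · rintro ⟨a, b, c, d⟩
    obtain ⟨a', b', c'⟩ := h1.2 ⟨a, b, c⟩
    exact ⟨a', b', c', d⟩

theorem Ccz_fac (hz : Zs P B C D N Xd Xc nd R σ T) (s : ℕ) (v w : Om) (e : (B v, C v) = (B w, C w)) :
    Ccz P B C D N Xd Xc nd R q u0 lam kap σ K K' x y lam' kap' fd fc s v ↔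
      Ccz P B C D N Xd Xc nd R q u0 lam kap σ K K' x y lam' kap' fd fc s w :=
  covL_facV (V := fun v => (B v, C v)) hz.hXc (fun s a v w e => sec_fac s a v w e) s v w e

/-- **THE CASE PART AT `T^0`, SIGNED** (released: not both covered) -/
theorem z_inst (hz : Zs P B C D N Xd Xc nd R σ T) (l0 : 0 ≤ lam) (k0 : 0 ≤ kap) (L0' : 0 ≤ L) (hL : ∀ w, ψ w ≤ L)
    (gd : ∀ a, Fac (fun v => (B v, D v)) (fd a)) (gd' : ∀ w, fd (C w) w = ψ w)
    (gc : ∀ a, Fac (fun v => (B v, C v)) (fc a)) (gc' : ∀ w, fc (D w) w = ψ w) :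
    P.E (fun w => ind (R w ∧ ∃ s, z P nd R u0 σ s w ∧ un P N R q s w ∧
        ¬ (Ccz P B C D N Xd Xc nd R q u0 lam kap σ K K' x y lam kap fd fc s w ∧
          Cdz P B C D N Xd nd R q u0 lam kap σ K x fd s w)) * ψ w) ≤
      lam * P.Pr (fun w => R w ∧ L0 P N nd R q u0 σ w) + 2 * (L * kap) * P.Pr (fun w => ∃ s, z P nd R u0 σ s w) +
        L * (P.Pr (fun w => GdyR.bad P Xd (sec C (fun v => (B v, D v)) (Az P N nd R q u0 σ)) fd kap lam K x (C w) T w) +
          P.Pr (fun w => GdyR.bad P Xc (sec D (fun v => (B v, C v)) (Bz P B C D N Xd nd R q u0 lam kap σ K x fd))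
            fc kap lam K' y (D w) T w)) := by
  have h1 := z_main (P := P) (N := N) (nd := nd) (Vc := fun s v => (C v, Xd s v)) (Vd := fun s v => (D v, Xc s v))
    (R := R) (q := q) (u0 := u0) (σ := σ) (T := T)
    (Cc := Ccz P B C D N Xd Xc nd R q u0 lam kap σ K K' x y lam kap fd fc) (Cd := Cdz P B C D N Xd nd R q u0 lam kap σ K x fd)
    (ψ := ψ) (lam := lam) (kap := kap) (L := L) hz.fnd hz.st hz.sT hz.vC hz.vD l0 k0 L0' hL
  refine h1.trans (le_of_eq ?_)
  congr 3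
  · exact P.Pr_congr fun w hw => own_bad (A := Az P N nd R q u0 σ) hz.iC hz.hXd
      (fun s v w e e' => Az_fac hz s v w e e') gd gd' hw
  · exact P.Pr_congr fun w hw => own_bad (A := Bz P B C D N Xd nd R q u0 lam kap σ K x fd) hz.iD hz.hXc
      (fun s v w e e' => Bz_fac hz s v w e e') gc gc' hw

/-- **ROWS ONLY** -/
theorem z_row (hz : Zs P B C D N Xd Xc nd R σ T) (l0 : 0 ≤ lam) (k0 : 0 ≤ kap) (L0' : 0 ≤ L) (hL : ∀ w, ψ w ≤ L)
    (gd : ∀ a, Fac (fun v => (B v, D v)) (fd a)) (gd' : ∀ w, fd (C w) w = ψ w) :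
    P.E (fun w => ind (∃ s, Az P N nd R q u0 σ s w ∧
        ¬ Cdz P B C D N Xd nd R q u0 lam kap σ K x fd s w) * ψ w) ≤
      lam * P.Pr (fun w => ∃ s, Az P N nd R q u0 σ s w ∧
        ¬ Cdz P B C D N Xd nd R q u0 lam kap σ K x fd s w) + L * kap * P.Pr (fun w => ∃ s, z P nd R u0 σ s w) +
        L * P.Pr (fun w => GdyR.bad P Xd (sec C (fun v => (B v, D v)) (Az P N nd R q u0 σ)) fd kap lam K x (C w) T w) :=
  row_lem (A := Az P N nd R q u0 σ) hz.iC hz.hXd (fun s v w e e' => Az_fac hz s v w e e')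
    (fun s v w e => z_fac (R := R) (u0 := u0) hz.fnd hz.st s (hz.vC s v w e)) (fun w s s' a b => z_one w s s' a b)
    (fun s w a => lt_of_le_of_lt a.2 (hz.sT w)) (fun s w a => a.1) l0 k0 L0' hL gd gd'

/-- **UNSIGNED COLUMNS** : `(b, d)` covered, `(b, c)` not covered (columns taken with `lam' = 1`, weight 1) -/
theorem z_mass (hz : Zs P B C D N Xd Xc nd R σ T) (k0 : 0 ≤ kap') :
    P.Pr (fun w => ∃ s, Bz P B C D N Xd nd R q u0 lam kap σ K x fd s w ∧
        ¬ Ccz P B C D N Xd Xc nd R q u0 lam kap σ K K' x y 1 kap' fd (fun _ _ => 1) s w) ≤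
      kap' * P.Pr (fun w => ∃ s, z P nd R u0 σ s w) +
        P.Pr (fun w => GdyR.bad P Xc (sec D (fun v => (B v, C v)) (Bz P B C D N Xd nd R q u0 lam kap σ K x fd))
          (fun _ _ => 1) kap' 1 K' y (D w) T w) :=
  row_mass (A := Bz P B C D N Xd nd R q u0 lam kap σ K x fd) hz.iD hz.hXc (fun s v w e e' => Bz_fac hz s v w e e')
    (fun s v w e => z_fac (R := R) (u0 := u0) hz.fnd hz.st s (hz.vD s v w e)) (fun w s s' a b => z_one w s s' a b)
    (fun s w a => lt_of_le_of_lt a.2 (hz.sT w)) (fun s w a => a.1) k0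

/-- bad rows -/
theorem bad_row [Fintype α] (hz : Zs P B C D N Xd Xc nd R σ T) (hK : 1 < kap * K) (k0 : 0 < kap) (M : ℕ)
    (fd : α → Om → ℝ) :
    ∑ x : Fin M → α, sw (fun a => P.Pr (fun w => C w = a)) x *
      P.Pr (fun w => GdyR.bad P Xd (sec C (fun v => (B v, D v)) (Az P N nd R q u0 σ)) fd kap lam K x (C w) T w) ≤
      1 / (kap * (M + 1)) :=
  GdyR.bad_ind hz.iC hz.hXd hz.fXd hK k0 M T

/-- bad columns, for every sample of rows -/
theorem bad_col [Fintype δ] (hz : Zs P B C D N Xd Xc nd R σ T) (hK : 1 < kap' * K') (k0 : 0 < kap') (M' : ℕ)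
    (fd : α → Om → ℝ) (fc : δ → Om → ℝ) (x : Fin M → α) :
    ∑ y : Fin M' → δ, sw (fun a => P.Pr (fun w => D w = a)) y *
      P.Pr (fun w => GdyR.bad P Xc (sec D (fun v => (B v, C v)) (Bz P B C D N Xd nd R q u0 lam kap σ K x fd))
        fc kap' lam' K' y (D w) T w) ≤ 1 / (kap' * (M' + 1)) :=
  GdyR.bad_ind hz.iD hz.hXc hz.fXc hK k0 M' T

/-- **BOTH COVERED** -/
theorem z_both_inst (hz : Zs P B C D N Xd Xc nd R σ T) (hci : CI P N Yc Yd) (h0 : 0 ≤ h)
    (hm : ∀ s w, P.p w ≠ 0 → P.m (N s) w ≤ h * P.m (N (s + 1)) w) (hYc : ∀ s, Fac (Yc s) (fun v => (B v, C v)))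
    (hYd : ∀ s, Fac (Yd s) (fun v => (B v, D v))) :
    P.Pr (fun w => R w ∧ ∃ s, z P nd R u0 σ s w ∧ un P N R q s w ∧
        Ccz P B C D N Xd Xc nd R q u0 lam kap σ K K' x y lam' kap' fd fc s w ∧
        Cdz P B C D N Xd nd R q u0 lam kap σ K x fd s w) ≤
      Real.sqrt (h * q) * ((P.Pr (fun w => ∃ s, (z P nd R u0 σ s w ∧ un P N R q s w) ∧
          Ccz P B C D N Xd Xc nd R q u0 lam kap σ K K' x y lam' kap' fd fc s w) +
        P.Pr (fun w => ∃ s, (z P nd R u0 σ s w ∧ un P N R q s w) ∧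
          Cdz P B C D N Xd nd R q u0 lam kap σ K x fd s w)) / 2) +
      P.Pr (fun w => z P nd R u0 σ 0 w ∧ h * q < cp P N 0 R w ∧ R w) :=
  z_both (P := P) (N := N) (nd := nd) (R := R) (q := q) (u0 := u0) (σ := σ) (T := T)
    (Cc := Ccz P B C D N Xd Xc nd R q u0 lam kap σ K K' x y lam' kap' fd fc) (Cd := Cdz P B C D N Xd nd R q u0 lam kap σ K x fd)
    hci hz.fN hz.fnd hz.nN hz.st hz.sT h0 hm (fun s v w e => Ccz_fac hz s v w (hYc s v w e))
    (fun s v w e => Cdz_fac hz s v w (hYd s v w e))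

/-! ## payment -/

/-- **PAYMENT OF THE ROWS** : `(b, d)` covered at `T^0 ≤ σ` -/
theorem pay_row (hz : Zs P B C D N Xd Xc nd R σ T) (hK : 0 < K) (l0 : 0 ≤ lam)
    (gd : ∀ a, Fac (fun v => (B v, D v)) (fd a)) :
    lam * P.Pr (fun w => ∃ s, (z P nd R u0 σ s w ∧ un P N R q s w) ∧
        Cdz P B C D N Xd nd R q u0 lam kap σ K x fd s w) ≤
      2 * P.E (fun w => PhL P nd (sec C (fun v => (B v, D v)) (Az P N nd R q u0 σ)) fd kap lam K x (σ w) w) :=
  row_pay hz.fnd hz.hXd hz.st hz.chd hK l0 gd (E := fun s w => z P nd R u0 σ s w ∧ un P N R q s w) fun s w a => a.1.2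

/-- **PAYMENT OF THE COLUMNS** : `(b, c)` covered at `T^0 ≤ σ` -/
theorem pay_col (hz : Zs P B C D N Xd Xc nd R σ T) (hK : 0 < K') (l0 : 0 ≤ lam')
    (gc : ∀ a, Fac (fun v => (B v, C v)) (fc a)) :
    lam' * P.Pr (fun w => ∃ s, (z P nd R u0 σ s w ∧ un P N R q s w) ∧
        Ccz P B C D N Xd Xc nd R q u0 lam kap σ K K' x y lam' kap' fd fc s w) ≤
      2 * P.E (fun w => PhL P nd (sec D (fun v => (B v, C v)) (Bz P B C D N Xd nd R q u0 lam kap σ K x fd)) fc
        kap' lam' K' y (σ w) w) :=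
  row_pay hz.fnd hz.hXc hz.st hz.chc hK l0 gc (E := fun s w => z P nd R u0 σ s w ∧ un P N R q s w) fun s w a => a.1.2

end two

end

end Pool.Agent.GMH.GhoZ
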