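import Pool.Agent.GMH.GhoLW

/-!
# GMH/GhoZ3 (helper85): THREE-BODY TERMS AT `T^0`: NINE COVERS (note 4025 (5), (6)), fixed `a`

`W` = the exact points `(b, c, d)`, events of `W`.  `zz s` = the time (unique, seen by the node).  A FACE (`Face`) = an exact
point `U` against the pair `V` of the two others with the process `X` of the cells of `V`.
Faces: `FB` : `U = b`, rows `b_i` over `(c, d)`; `FC` : `U = c`, rows `c_i` over `(b, d)`; `FD` : `U = d` over `(b, c)`.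

* `cv A f x` = greedy cover of the sections of `A` by the sampled points `x`;
* `one_cov` : the part of `A` not in the cover; `two_cov` : an event, two covers one after the other;
* `nine` : `ψ = ψ_Z + J_b = ψ_Y + J_c = ψ_X + J_d`, covers `AZ`, (`AY1`, `AX1`), `AY`, (`AZ2`, `AX2`), `AX`, (`AZ3`, `AY3`):
  `E 1_A ψ ≤ 2 lam P (A) + 9 L kap P (zz) + L (nine bad rows) + L (three both covered) + L P (A, AZ, AY, AX)`;
* `five` : the same with one unsigned cover `AU` of `(b, c)` and no `J_d` (relation which sees the top of `(b, c)`);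
* `both_cov`, `tri_cov` : both covered at an undecided exact vertex, all three covered at the node (time dependent relation
  `Rs s`, exceptional event = the density is large at the time); `pay_cov` : payment of one cover at a stopping time;
* `nine_all`, `five_all` : everything together.
`S.A s` = ANY event of `W` with `S.A s ⊆ zz s` : relation at the time `s`, own epochs, life, undecided bits.
-/

set_option autoImplicit false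
set_option linter.unusedSectionVars false

namespace Pool.Agent.GMH.GhoZ3

open Finset Pool.Agent.PWZ Pool.Agent.M3 Pool.Agent.GMH.Gdy Pool.Agent.GMH.CR Pool.Agent.GMH.Three
open Pool.Agent.GMH.Blk Pool.Agent.GMH.GhoV Pool.Agent.GMH.GhoZ
open Pool.Agent.GMH.GdyR (covL covL_facV covL_mono covL_change PhL)

noncomputable section

variable {Om : Type*} [Fintype Om] {P : FP Om} {ω ν : Type*} {W : Om → ω}

/-! ## faces -/

section face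

variable {α β : Type*} {κ : ℕ → Type*}

/-- an exact point `U` against the pair `V` of the two others -/
structure Face (P : FP Om) (W : Om → ω) (zz : ℕ → Om → Prop) (U : Om → α) (V : Om → β) (X : ∀ t, Om → κ t) : Prop where
  iI : P.Indep U V
  hX : ∀ s, Fac V (X s)
  fX : Filt X
  hz : ∀ s x w, (U x, X s x) = (U w, X s w) → (zz s x ↔ zz s w)
  hUV : ∀ x w, U x = U w → V x = V w → W x = W w
  hVo : Fac W V

variable {zz : ℕ → Om → Prop} {U : Om → α} {V : Om → β} {X : ∀ t, Om → κ t} {A : ℕ → Om → Prop} {f : α → Om → ℝ}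
  {J : Om → ℝ} {kap lam L : ℝ} {K M T : ℕ} {x : Fin M → α}

/-- an event of the exact points -/
def Ev (W : Om → ω) (A : ℕ → Om → Prop) : Prop := ∀ s x w, W x = W w → (A s x ↔ A s w)

theorem Ev.and {A B : ℕ → Om → Prop} (hA : Ev W A) (hB : Ev W B) : Ev W (fun s w => A s w ∧ B s w) :=
  fun s x w e => and_congr (hA s x w e) (hB s x w e)

theorem Ev.not {A : ℕ → Om → Prop} (hA : Ev W A) : Ev W (fun s w => ¬ A s w) :=
  fun s x w e => not_congr (hA s x w e)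

variable (P U V X A f kap lam K x) in
/-- the greedy cover of the sections of `A` by the sampled points -/
def cv : ℕ → Om → Prop := covL P X (sec U V A) f kap lam K x

variable (P U V X A f kap lam K x T) in
/-- the probability that the true point is bad -/
def bp : ℝ := P.Pr (fun w => GdyR.bad P X (sec U V A) f kap lam K x (U w) T w)

theorem cv_V (F : Face P W zz U V X) : Ev V (cv P U V X A f kap lam K x) := fun s v w e =>
  covL_facV (V := V) F.hX (fun s a v w e => sec_fac s a v w e) s v w e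

theorem cv_ev (F : Face P W zz U V X) : Ev W (cv P U V X A f kap lam K x) := fun s v w e =>
  cv_V F s v w (F.hVo v w e)

theorem bp_le [Fintype α] (F : Face P W zz U V X) (hK : 1 < kap * K) (k0 : 0 < kap) (M T : ℕ) :
    ∑ x : Fin M → α, sw (fun a => P.Pr (fun w => U w = a)) x * bp P U V X A f kap lam K T x ≤ 1 / (kap * (M + 1)) :=
  GdyR.bad_ind F.iI F.hX F.fX hK k0 M T

/-- **ONE COVER, SIGNED** -/
theorem one_cov (F : Face P W zz U V X) (z1 : ∀ w s s', zz s w → zz s' w → s = s') (zT : ∀ s w, zz s w → s < T)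
    (hA : Ev W A) (hAz : ∀ s w, A s w → zz s w) (l0 : 0 ≤ lam) (k0 : 0 ≤ kap) (L0' : 0 ≤ L) (hL : ∀ w, J w ≤ L)
    (hf : ∀ a, Fac V (f a)) (hg : ∀ w, f (U w) w = J w) :
    P.E (fun w => ind (∃ s, A s w ∧ ¬ cv P U V X A f kap lam K x s w) * J w) ≤
      lam * P.Pr (fun w => ∃ s, A s w ∧ ¬ cv P U V X A f kap lam K x s w) +
        L * kap * P.Pr (fun w => ∃ s, zz s w) + L * bp P U V X A f kap lam K T x :=
  row_lem F.iI F.hX (fun s x w e e' => hA s x w (F.hUV x w e e')) F.hz z1 zT hAz l0 k0 L0' hL hf hg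

/-- **ONE COVER, UNSIGNED** -/
theorem one_mass (F : Face P W zz U V X) (z1 : ∀ w s s', zz s w → zz s' w → s = s') (zT : ∀ s w, zz s w → s < T)
    (hA : Ev W A) (hAz : ∀ s w, A s w → zz s w) (k0 : 0 ≤ kap) :
    P.Pr (fun w => ∃ s, A s w ∧ ¬ cv P U V X A (fun _ _ => 1) kap 1 K x s w) ≤
      kap * P.Pr (fun w => ∃ s, zz s w) + bp P U V X A (fun _ _ => 1) kap 1 K T x :=
  row_mass F.iI F.hX (fun s x w e e' => hA s x w (F.hUV x w e e')) F.hz z1 zT hAz k0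

/-- splitting by a second event -/
theorem spl (z1 : ∀ w s s', zz s w → zz s' w → s = s') {A B : ℕ → Om → Prop} (hAz : ∀ s w, A s w → zz s w) (w : Om) :
    ind (∃ s, A s w) = ind (∃ s, A s w ∧ ¬ B s w) + ind (∃ s, A s w ∧ B s w) := by
  by_cases h1 : ∃ s, A s w ∧ ¬ B s w
  · have h2 : ¬ ∃ s, A s w ∧ B s w := fun ⟨s', a', b'⟩ => by
      obtain ⟨s, a, b⟩ := h1
      obtain rfl := z1 w s s' (hAz s w a) (hAz s' w a')
      exact b b'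
    obtain ⟨s, a, b⟩ := h1
    rw [ind_of ⟨s, a⟩, ind_of ⟨s, a, b⟩, ind_not h2, add_zero]
  · rw [ind_not h1, zero_add]
    congr 1
    exact propext ⟨fun ⟨s, a⟩ => ⟨s, a, by_contra fun b => h1 ⟨s, a, b⟩⟩, fun ⟨s, a, _⟩ => ⟨s, a⟩⟩

theorem E_spl (z1 : ∀ w s s', zz s w → zz s' w → s = s') {A B : ℕ → Om → Prop} (hAz : ∀ s w, A s w → zz s w)
    (J : Om → ℝ) : P.E (fun w => ind (∃ s, A s w) * J w) =
      P.E (fun w => ind (∃ s, A s w ∧ ¬ B s w) * J w) + P.E (fun w => ind (∃ s, A s w ∧ B s w) * J w) := by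
  rw [← FP.E_add]
  exact P.E_congr fun w _ => by rw [spl z1 hAz w]; ring

theorem Pr_spl (z1 : ∀ w s s', zz s w → zz s' w → s = s') {A B : ℕ → Om → Prop} (hAz : ∀ s w, A s w → zz s w) :
    P.Pr (fun w => ∃ s, A s w) = P.Pr (fun w => ∃ s, A s w ∧ ¬ B s w) + P.Pr (fun w => ∃ s, A s w ∧ B s w) := by
  unfold FP.Pr
  rw [← FP.E_add]
  exact P.E_congr fun w _ => spl z1 hAz w

variable {α' β' : Type*} {κ' : ℕ → Type*} {U' : Om → α'} {V' : Om → β'} {X' : ∀ t, Om → κ' t} {f' : α' → Om → ℝ}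
  {M' : ℕ} {x' : Fin M' → α'}

/-- **TWO COVERS ONE AFTER THE OTHER** -/
theorem two_cov (F : Face P W zz U V X) (F' : Face P W zz U' V' X') (z1 : ∀ w s s', zz s w → zz s' w → s = s')
    (zT : ∀ s w, zz s w → s < T) (hA : Ev W A) (hAz : ∀ s w, A s w → zz s w) (l0 : 0 ≤ lam) (k0 : 0 ≤ kap)
    (L0' : 0 ≤ L) (hL : ∀ w, J w ≤ L) (hf : ∀ a, Fac V (f a)) (hg : ∀ w, f (U w) w = J w)
    (hf' : ∀ a, Fac V' (f' a)) (hg' : ∀ w, f' (U' w) w = J w) :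
    P.E (fun w => ind (∃ s, A s w) * J w) ≤ lam * P.Pr (fun w => ∃ s, A s w) +
      2 * (L * kap * P.Pr (fun w => ∃ s, zz s w)) + L * (bp P U V X A f kap lam K T x +
        bp P U' V' X' (fun s w => A s w ∧ cv P U V X A f kap lam K x s w) f' kap lam K T x') +
      L * P.Pr (fun w => ∃ s, (A s w ∧ cv P U V X A f kap lam K x s w) ∧
        cv P U' V' X' (fun s w => A s w ∧ cv P U V X A f kap lam K x s w) f' kap lam K x' s w) := by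
  set c := cv P U V X A f kap lam K x with hc
  set A' : ℕ → Om → Prop := fun s w => A s w ∧ c s w with hA'
  set c' := cv P U' V' X' A' f' kap lam K x' with hc'
  have hAz' : ∀ s w, A' s w → zz s w := fun s w a => hAz s w a.1
  have e1 := E_spl (P := P) z1 (A := A) (B := c) hAz J
  have e2 := E_spl (P := P) z1 (A := A') (B := c') hAz' J
  have p1 := Pr_spl (P := P) z1 (A := A) (B := c) hAz
  have p2 := Pr_spl (P := P) z1 (A := A') (B := c') hAz'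
  have h1 := one_cov (P := P) (T := T) (K := K) (x := x) F z1 zT hA hAz l0 k0 L0' hL hf hg
  have h2 := one_cov (P := P) (T := T) (K := K) (x := x') (A := A') F' z1 zT (hA.and (cv_ev F)) hAz' l0 k0 L0' hL
    hf' hg'
  have h3 : P.E (fun w => ind (∃ s, A' s w ∧ c' s w) * J w) ≤ L * P.Pr (fun w => ∃ s, A' s w ∧ c' s w) := by
    unfold FP.Pr
    rw [← FP.E_smul]
    refine P.E_mono fun w _ => ?_
    have := mul_le_mul_of_nonneg_left (hL w) (ind_nonneg (∃ s, A' s w ∧ c' s w))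
    linarith
  have h4 : 0 ≤ P.Pr (fun w => ∃ s, A' s w ∧ c' s w) := P.Pr_nonneg _
  have h5 := mul_nonneg l0 h4
  have h6 : lam * P.Pr (fun w => ∃ s, A s w) = lam * P.Pr (fun w => ∃ s, A s w ∧ ¬ c s w) +
      lam * P.Pr (fun w => ∃ s, A' s w ∧ ¬ c' s w) + lam * P.Pr (fun w => ∃ s, A' s w ∧ c' s w) := by
    rw [p1, show (fun w => ∃ s, A s w ∧ c s w) = (fun w => ∃ s, A' s w) from rfl, p2]
    ring
  rw [e1, show (fun w => ind (∃ s, A s w ∧ c s w) * J w) = (fun w => ind (∃ s, A' s w) * J w) from rfl, e2, h6]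
  linarith

end face

/-! ## the system of the nine covers -/

/-- exact points, pairs, cells, tests, samples -/
structure Sys (Om β γ δ ωB ωC ωD : Type*) (κB κC κD : ℕ → Type*) (M : ℕ) where
  B : Om → β
  C : Om → γ
  D : Om → δ
  VB : Om → ωB
  VC : Om → ωC
  VD : Om → ωD
  XB : ∀ t, Om → κB t
  XC : ∀ t, Om → κC t
  XD : ∀ t, Om → κD t
  fZ : β → Om → ℝ
  fY : γ → Om → ℝ
  fX : δ → Om → ℝ
  bc : γ → Om → ℝ
  bd : δ → Om → ℝ
  cb : β → Om → ℝ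
  cd : δ → Om → ℝ
  db : β → Om → ℝ
  dc : γ → Om → ℝ
  b1 : Fin M → β
  b2 : Fin M → β
  b3 : Fin M → β
  c1 : Fin M → γ
  c2 : Fin M → γ
  c3 : Fin M → γ
  d1 : Fin M → δ
  d2 : Fin M → δ
  d3 : Fin M → δ
  kap : ℝ
  lam : ℝ
  K : ℕ
  A : ℕ → Om → Prop

namespace Sys

variable {β γ δ ωB ωC ωD : Type*} {κB κC κD : ℕ → Type*} {M : ℕ} (S : Sys Om β γ δ ωB ωC ωD κB κC κD M) (P : FP Om)

/-- `(c, d)` covered by rows `b_i`, test `ψ_Z` -/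
def AZ : ℕ → Om → Prop := cv P S.B S.VB S.XB S.A S.fZ S.kap S.lam S.K S.b1

/-- first part: `ψ = ψ_Z + J_b` -/
def E1 (s : ℕ) (w : Om) : Prop := S.A s w ∧ ¬ S.AZ P s w

/-- `(b, d)` covered by rows `c_i`, test `J_b` -/
def AY1 : ℕ → Om → Prop := cv P S.C S.VC S.XC (S.E1 P) S.bc S.kap S.lam S.K S.c1

/-- covered by rows -/
def G1 (s : ℕ) (w : Om) : Prop := S.E1 P s w ∧ S.AY1 P s w

/-- `(b, c)` covered by columns `d_i`, test `J_b` -/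
def AX1 : ℕ → Om → Prop := cv P S.D S.VD S.XD (S.G1 P) S.bd S.kap S.lam S.K S.d1

/-- the rest after `AZ` -/
def A1 (s : ℕ) (w : Om) : Prop := S.A s w ∧ S.AZ P s w

/-- `(b, d)` covered by rows `c_i`, test `ψ_Y` -/
def AY : ℕ → Om → Prop := cv P S.C S.VC S.XC (S.A1 P) S.fY S.kap S.lam S.K S.c2

/-- second part: `ψ = ψ_Y + J_c` -/
def E2 (s : ℕ) (w : Om) : Prop := S.A1 P s w ∧ ¬ S.AY P s w

/-- `(c, d)` covered by rows `b_i`, test `J_c` -/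
def AZ2 : ℕ → Om → Prop := cv P S.B S.VB S.XB (S.E2 P) S.cb S.kap S.lam S.K S.b2

/-- covered by rows -/
def G2 (s : ℕ) (w : Om) : Prop := S.E2 P s w ∧ S.AZ2 P s w

/-- `(b, c)` covered by columns `d_i`, test `J_c` -/
def AX2 : ℕ → Om → Prop := cv P S.D S.VD S.XD (S.G2 P) S.cd S.kap S.lam S.K S.d2

/-- the rest after `AY` -/
def A2 (s : ℕ) (w : Om) : Prop := S.A1 P s w ∧ S.AY P s w

/-- `(b, c)` covered by rows `d_i`, test `ψ_X` -/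
def AX : ℕ → Om → Prop := cv P S.D S.VD S.XD (S.A2 P) S.fX S.kap S.lam S.K S.d3

/-- third part: `ψ = ψ_X + J_d` -/
def E3 (s : ℕ) (w : Om) : Prop := S.A2 P s w ∧ ¬ S.AX P s w

/-- `(c, d)` covered by rows `b_i`, test `J_d` -/
def AZ3 : ℕ → Om → Prop := cv P S.B S.VB S.XB (S.E3 P) S.db S.kap S.lam S.K S.b3

/-- covered by rows -/
def G3 (s : ℕ) (w : Om) : Prop := S.E3 P s w ∧ S.AZ3 P s w

/-- `(b, d)` covered by columns `c_i`, test `J_d` -/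
def AY3 : ℕ → Om → Prop := cv P S.C S.VC S.XC (S.G3 P) S.dc S.kap S.lam S.K S.c3

/-- the hypotheses, for the vertices `b`, `c` only -/
structure Ok2 (W : Om → ω) (zz : ℕ → Om → Prop) (T : ℕ) (L : ℝ) (ψ : Om → ℝ) : Prop where
  FB : Face P W zz S.B S.VB S.XB
  FC : Face P W zz S.C S.VC S.XC
  FD : Face P W zz S.D S.VD S.XD
  z1 : ∀ w s s', zz s w → zz s' w → s = s'
  zT : ∀ s w, zz s w → s < T
  evA : Ev W S.A
  Az : ∀ s w, S.A s w → zz s w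
  l0 : 0 ≤ S.lam
  k0 : 0 ≤ S.kap
  L0 : 0 ≤ L
  vZ : ∀ a, Fac S.VB (S.fZ a)
  vY : ∀ a, Fac S.VC (S.fY a)
  vbc : ∀ a, Fac S.VC (S.bc a)
  vcb : ∀ a, Fac S.VB (S.cb a)
  iZ : ∀ s w, S.A s w → ψ w ≤ S.fZ (S.B w) w + S.bc (S.C w) w
  iY : ∀ s w, S.A s w → ψ w ≤ S.fY (S.C w) w + S.cb (S.B w) w
  LZ : ∀ w, S.fZ (S.B w) w ≤ L
  LY : ∀ w, S.fY (S.C w) w ≤ L
  Lb : ∀ w, S.bc (S.C w) w ≤ L
  Lc : ∀ w, S.cb (S.B w) w ≤ L
  Lψ : ∀ w, ψ w ≤ L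

/-- the hypotheses, for the three vertices -/
structure Ok3 (W : Om → ω) (zz : ℕ → Om → Prop) (T : ℕ) (L : ℝ) (ψ : Om → ℝ) : Prop extends Ok2 S P W zz T L ψ where
  vX : ∀ a, Fac S.VD (S.fX a)
  vbd : ∀ a, Fac S.VD (S.bd a)
  vcd : ∀ a, Fac S.VD (S.cd a)
  vdb : ∀ a, Fac S.VB (S.db a)
  vdc : ∀ a, Fac S.VC (S.dc a)
  ibd : ∀ w, S.bd (S.D w) w = S.bc (S.C w) w
  icd : ∀ w, S.cd (S.D w) w = S.cb (S.B w) w
  idc : ∀ w, S.dc (S.C w) w = S.db (S.B w) w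
  iX : ∀ s w, S.A s w → ψ w ≤ S.fX (S.D w) w + S.db (S.B w) w
  LX : ∀ w, S.fX (S.D w) w ≤ L
  Ld : ∀ w, S.db (S.B w) w ≤ L

/-- the nine bad probabilities -/
def bads (T : ℕ) : ℝ :=
  bp P S.B S.VB S.XB S.A S.fZ S.kap S.lam S.K T S.b1 +
  (bp P S.C S.VC S.XC (S.E1 P) S.bc S.kap S.lam S.K T S.c1 + bp P S.D S.VD S.XD (S.G1 P) S.bd S.kap S.lam S.K T S.d1) +
  bp P S.C S.VC S.XC (S.A1 P) S.fY S.kap S.lam S.K T S.c2 +
  (bp P S.B S.VB S.XB (S.E2 P) S.cb S.kap S.lam S.K T S.b2 + bp P S.D S.VD S.XD (S.G2 P) S.cd S.kap S.lam S.K T S.d2) +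
  bp P S.D S.VD S.XD (S.A2 P) S.fX S.kap S.lam S.K T S.d3 +
  (bp P S.B S.VB S.XB (S.E3 P) S.db S.kap S.lam S.K T S.b3 + bp P S.C S.VC S.XC (S.G3 P) S.dc S.kap S.lam S.K T S.c3)

variable {S P} {zz : ℕ → Om → Prop} {T : ℕ} {L : ℝ} {ψ : Om → ℝ}

theorem E_two {A : ℕ → Om → Prop} {g k : Om → ℝ} (h : ∀ s w, A s w → ψ w ≤ g w + k w) :
    P.E (fun w => ind (∃ s, A s w) * ψ w) ≤
      P.E (fun w => ind (∃ s, A s w) * g w) + P.E (fun w => ind (∃ s, A s w) * k w) := by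
  rw [← FP.E_add]
  refine P.E_mono fun w _ => ?_
  by_cases a : ∃ s, A s w
  · obtain ⟨s, a'⟩ := a
    rw [ind_of ⟨s, a'⟩]
    have := h s w a'
    linarith
  · rw [ind_not a]
    simp

theorem E_le_Pr {A : ℕ → Om → Prop} (h : ∀ w, ψ w ≤ L) :
    P.E (fun w => ind (∃ s, A s w) * ψ w) ≤ L * P.Pr (fun w => ∃ s, A s w) := by
  unfold FP.Pr
  rw [← FP.E_smul]
  refine P.E_mono fun w _ => ?_
  have := mul_le_mul_of_nonneg_left (h w) (ind_nonneg (∃ s, A s w))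
  linarith

theorem evE1 (h : S.Ok2 P W zz T L ψ) : Ev W (S.E1 P) := h.evA.and (cv_ev h.FB).not
theorem evG1 (h : S.Ok2 P W zz T L ψ) : Ev W (S.G1 P) := (evE1 h).and (cv_ev h.FC)
theorem evA1 (h : S.Ok2 P W zz T L ψ) : Ev W (S.A1 P) := h.evA.and (cv_ev h.FB)
theorem evE2 (h : S.Ok2 P W zz T L ψ) : Ev W (S.E2 P) := (evA1 h).and (cv_ev h.FC).not
theorem evG2 (h : S.Ok2 P W zz T L ψ) : Ev W (S.G2 P) := (evE2 h).and (cv_ev h.FB)
theorem evA2 (h : S.Ok2 P W zz T L ψ) : Ev W (S.A2 P) := (evA1 h).and (cv_ev h.FC)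
theorem evE3 (h : S.Ok2 P W zz T L ψ) : Ev W (S.E3 P) := (evA2 h).and (cv_ev h.FD).not
theorem evG3 (h : S.Ok2 P W zz T L ψ) : Ev W (S.G3 P) := (evE3 h).and (cv_ev h.FB)

/-- **NINE COVERS** -/
theorem nine (h : S.Ok3 P W zz T L ψ) :
    P.E (fun w => ind (∃ s, S.A s w) * ψ w) ≤ 2 * (S.lam * P.Pr (fun w => ∃ s, S.A s w)) +
      9 * (L * S.kap * P.Pr (fun w => ∃ s, zz s w)) + L * S.bads P T +
      L * (P.Pr (fun w => ∃ s, S.G1 P s w ∧ S.AX1 P s w) + P.Pr (fun w => ∃ s, S.G2 P s w ∧ S.AX2 P s w) +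
        P.Pr (fun w => ∃ s, S.G3 P s w ∧ S.AY3 P s w)) +
      L * P.Pr (fun w => ∃ s, S.A2 P s w ∧ S.AX P s w) := by
  have h2 := h.toOk2
  have z1 := h2.z1
  have s1 := E_spl (P := P) z1 (A := S.A) (B := S.AZ P) h2.Az ψ
  have s2 := E_spl (P := P) z1 (A := S.A1 P) (B := S.AY P) (fun s w a => h2.Az s w a.1) ψ
  have s3 := E_spl (P := P) z1 (A := S.A2 P) (B := S.AX P) (fun s w a => h2.Az s w a.1.1) ψ
  have q1 := Pr_spl (P := P) z1 (A := S.A) (B := S.AZ P) h2.Az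
  have q2 := Pr_spl (P := P) z1 (A := S.A1 P) (B := S.AY P) (fun s w a => h2.Az s w a.1)
  have q3 := Pr_spl (P := P) z1 (A := S.A2 P) (B := S.AX P) (fun s w a => h2.Az s w a.1.1)
  -- part 1
  have a1 := E_two (P := P) (A := S.E1 P) (ψ := ψ) (g := fun w => S.fZ (S.B w) w) (k := fun w => S.bc (S.C w) w)
    fun s w a => h2.iZ s w a.1
  have a2 := one_cov (P := P) (T := T) (K := S.K) (x := S.b1) (A := S.A) (J := fun w => S.fZ (S.B w) w) h2.FB z1 h2.zT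
    h2.evA h2.Az h2.l0 h2.k0 h2.L0 h2.LZ h2.vZ fun _ => rfl
  have a3 := two_cov (P := P) (T := T) (K := S.K) (x := S.c1) (x' := S.d1) (A := S.E1 P)
    (J := fun w => S.bc (S.C w) w) h2.FC h2.FD z1 h2.zT (evE1 h2) (fun s w a => h2.Az s w a.1) h2.l0 h2.k0 h2.L0 h2.Lb
    h2.vbc (fun _ => rfl) h.vbd h.ibd
  -- part 2
  have b1 := E_two (P := P) (A := S.E2 P) (ψ := ψ) (g := fun w => S.fY (S.C w) w) (k := fun w => S.cb (S.B w) w)
    fun s w a => h2.iY s w a.1.1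
  have b2 := one_cov (P := P) (T := T) (K := S.K) (x := S.c2) (A := S.A1 P) (J := fun w => S.fY (S.C w) w) h2.FC z1
    h2.zT (evA1 h2) (fun s w a => h2.Az s w a.1) h2.l0 h2.k0 h2.L0 h2.LY h2.vY fun _ => rfl
  have b3 := two_cov (P := P) (T := T) (K := S.K) (x := S.b2) (x' := S.d2) (A := S.E2 P)
    (J := fun w => S.cb (S.B w) w) h2.FB h2.FD z1 h2.zT (evE2 h2) (fun s w a => h2.Az s w a.1.1) h2.l0 h2.k0 h2.L0
    h2.Lc h2.vcb (fun _ => rfl) h.vcd h.icd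
  -- part 3
  have c1 := E_two (P := P) (A := S.E3 P) (ψ := ψ) (g := fun w => S.fX (S.D w) w) (k := fun w => S.db (S.B w) w)
    fun s w a => h.iX s w a.1.1.1
  have c2 := one_cov (P := P) (T := T) (K := S.K) (x := S.d3) (A := S.A2 P) (J := fun w => S.fX (S.D w) w) h2.FD z1
    h2.zT (evA2 h2) (fun s w a => h2.Az s w a.1.1) h2.l0 h2.k0 h2.L0 h.LX h.vX fun _ => rfl
  have c3 := two_cov (P := P) (T := T) (K := S.K) (x := S.b3) (x' := S.c3) (A := S.E3 P)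
    (J := fun w => S.db (S.B w) w) h2.FB h2.FC z1 h2.zT (evE3 h2) (fun s w a => h2.Az s w a.1.1.1) h2.l0 h2.k0 h2.L0
    h.Ld h.vdb (fun _ => rfl) h.vdc h.idc
  have d1 := E_le_Pr (P := P) (A := fun s w => S.A2 P s w ∧ S.AX P s w) h2.Lψ
  have n1 : 0 ≤ S.lam * P.Pr (fun w => ∃ s, S.A2 P s w ∧ S.AX P s w) := mul_nonneg h2.l0 (P.Pr_nonneg _)
  have t1 : S.lam * P.Pr (fun w => ∃ s, S.A s w) = S.lam * P.Pr (fun w => ∃ s, S.E1 P s w) +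
      S.lam * P.Pr (fun w => ∃ s, S.E2 P s w) + S.lam * P.Pr (fun w => ∃ s, S.E3 P s w) +
      S.lam * P.Pr (fun w => ∃ s, S.A2 P s w ∧ S.AX P s w) := by
    have e1 : P.Pr (fun w => ∃ s, S.A s w) = P.Pr (fun w => ∃ s, S.E1 P s w) + P.Pr (fun w => ∃ s, S.A1 P s w) := q1
    have e2 : P.Pr (fun w => ∃ s, S.A1 P s w) = P.Pr (fun w => ∃ s, S.E2 P s w) + P.Pr (fun w => ∃ s, S.A2 P s w) := q2
    have e3 : P.Pr (fun w => ∃ s, S.A2 P s w) =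
      P.Pr (fun w => ∃ s, S.E3 P s w) + P.Pr (fun w => ∃ s, S.A2 P s w ∧ S.AX P s w) := q3
    rw [e1, e2, e3]
    ring
  have u1 : P.E (fun w => ind (∃ s, S.A s w) * ψ w) = P.E (fun w => ind (∃ s, S.E1 P s w) * ψ w) +
      P.E (fun w => ind (∃ s, S.A1 P s w) * ψ w) := s1
  have u2 : P.E (fun w => ind (∃ s, S.A1 P s w) * ψ w) = P.E (fun w => ind (∃ s, S.E2 P s w) * ψ w) +
      P.E (fun w => ind (∃ s, S.A2 P s w) * ψ w) := s2
  have u3 : P.E (fun w => ind (∃ s, S.A2 P s w) * ψ w) = P.E (fun w => ind (∃ s, S.E3 P s w) * ψ w) +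
      P.E (fun w => ind (∃ s, S.A2 P s w ∧ S.AX P s w) * ψ w) := s3
  have v1 : P.E (fun w => ind (∃ s, S.E1 P s w) * S.fZ (S.B w) w) ≤ S.lam * P.Pr (fun w => ∃ s, S.E1 P s w) +
      L * S.kap * P.Pr (fun w => ∃ s, zz s w) + L * bp P S.B S.VB S.XB S.A S.fZ S.kap S.lam S.K T S.b1 := a2
  have v2 : P.E (fun w => ind (∃ s, S.E2 P s w) * S.fY (S.C w) w) ≤ S.lam * P.Pr (fun w => ∃ s, S.E2 P s w) +
      L * S.kap * P.Pr (fun w => ∃ s, zz s w) + L * bp P S.C S.VC S.XC (S.A1 P) S.fY S.kap S.lam S.K T S.c2 := b2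
  have v3 : P.E (fun w => ind (∃ s, S.E3 P s w) * S.fX (S.D w) w) ≤ S.lam * P.Pr (fun w => ∃ s, S.E3 P s w) +
      L * S.kap * P.Pr (fun w => ∃ s, zz s w) + L * bp P S.D S.VD S.XD (S.A2 P) S.fX S.kap S.lam S.K T S.d3 := c2
  have w1 : P.E (fun w => ind (∃ s, S.E1 P s w) * S.bc (S.C w) w) ≤ S.lam * P.Pr (fun w => ∃ s, S.E1 P s w) +
      2 * (L * S.kap * P.Pr (fun w => ∃ s, zz s w)) + L * (bp P S.C S.VC S.XC (S.E1 P) S.bc S.kap S.lam S.K T S.c1 +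
        bp P S.D S.VD S.XD (S.G1 P) S.bd S.kap S.lam S.K T S.d1) +
      L * P.Pr (fun w => ∃ s, S.G1 P s w ∧ S.AX1 P s w) := a3
  have w2 : P.E (fun w => ind (∃ s, S.E2 P s w) * S.cb (S.B w) w) ≤ S.lam * P.Pr (fun w => ∃ s, S.E2 P s w) +
      2 * (L * S.kap * P.Pr (fun w => ∃ s, zz s w)) + L * (bp P S.B S.VB S.XB (S.E2 P) S.cb S.kap S.lam S.K T S.b2 +
        bp P S.D S.VD S.XD (S.G2 P) S.cd S.kap S.lam S.K T S.d2) +
      L * P.Pr (fun w => ∃ s, S.G2 P s w ∧ S.AX2 P s w) := b3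
  have w3 : P.E (fun w => ind (∃ s, S.E3 P s w) * S.db (S.B w) w) ≤ S.lam * P.Pr (fun w => ∃ s, S.E3 P s w) +
      2 * (L * S.kap * P.Pr (fun w => ∃ s, zz s w)) + L * (bp P S.B S.VB S.XB (S.E3 P) S.db S.kap S.lam S.K T S.b3 +
        bp P S.C S.VC S.XC (S.G3 P) S.dc S.kap S.lam S.K T S.c3) +
      L * P.Pr (fun w => ∃ s, S.G3 P s w ∧ S.AY3 P s w) := c3
  have d1' : P.E (fun w => ind (∃ s, S.A2 P s w ∧ S.AX P s w) * ψ w) ≤
      L * P.Pr (fun w => ∃ s, S.A2 P s w ∧ S.AX P s w) := d1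
  unfold bads
  rw [u1, u2, u3, t1]
  linarith

/-! ### two vertices, one unsigned cover -/

/-- `(b, c)` covered by columns `d_i`, unsigned -/
def AU (S : Sys Om β γ δ ωB ωC ωD κB κC κD M) (P : FP Om) : ℕ → Om → Prop :=
  cv P S.D S.VD S.XD S.A (fun _ _ => 1) S.kap 1 S.K S.d3

/-- the five bad probabilities -/
def bad5 (S : Sys Om β γ δ ωB ωC ωD κB κC κD M) (P : FP Om) (T : ℕ) : ℝ :=
  bp P S.B S.VB S.XB S.A S.fZ S.kap S.lam S.K T S.b1 + bp P S.C S.VC S.XC (S.E1 P) S.bc S.kap S.lam S.K T S.c1 +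
  bp P S.C S.VC S.XC (S.A1 P) S.fY S.kap S.lam S.K T S.c2 +
  bp P S.B S.VB S.XB (S.E2 P) S.cb S.kap S.lam S.K T S.b2 +
  bp P S.D S.VD S.XD S.A (fun _ _ => 1) S.kap 1 S.K T S.d3

theorem AU_V (h : S.Ok2 P W zz T L ψ) : Ev S.VD (S.AU P) := cv_V h.FD

/-- **FIVE COVERS** : the relation sees the top of `(b, c)` -/
theorem five (h : S.Ok2 P W zz T L ψ) :
    P.E (fun w => ind (∃ s, S.A s w) * ψ w) ≤ 2 * (S.lam * P.Pr (fun w => ∃ s, S.A s w)) +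
      5 * (L * S.kap * P.Pr (fun w => ∃ s, zz s w)) + L * S.bad5 P T +
      L * (P.Pr (fun w => ∃ s, S.G1 P s w ∧ S.AU P s w) + P.Pr (fun w => ∃ s, S.G2 P s w ∧ S.AU P s w) +
        P.Pr (fun w => ∃ s, S.A2 P s w ∧ S.AU P s w)) := by
  have z1 := h.z1
  have s1 := E_spl (P := P) z1 (A := S.A) (B := S.AZ P) h.Az ψ
  have s2 := E_spl (P := P) z1 (A := S.A1 P) (B := S.AY P) (fun s w a => h.Az s w a.1) ψ
  have q1 := Pr_spl (P := P) z1 (A := S.A) (B := S.AZ P) h.Az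
  have q2 := Pr_spl (P := P) z1 (A := S.A1 P) (B := S.AY P) (fun s w a => h.Az s w a.1)
  -- part 1
  have a1 := E_two (P := P) (A := S.E1 P) (ψ := ψ) (g := fun w => S.fZ (S.B w) w) (k := fun w => S.bc (S.C w) w)
    fun s w a => h.iZ s w a.1
  have a2 := one_cov (P := P) (T := T) (K := S.K) (x := S.b1) (A := S.A) (J := fun w => S.fZ (S.B w) w) h.FB z1 h.zT
    h.evA h.Az h.l0 h.k0 h.L0 h.LZ h.vZ fun _ => rfl
  have a3 := one_cov (P := P) (T := T) (K := S.K) (x := S.c1) (A := S.E1 P) (J := fun w => S.bc (S.C w) w) h.FC z1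
    h.zT (evE1 h) (fun s w a => h.Az s w a.1) h.l0 h.k0 h.L0 h.Lb h.vbc (fun _ => rfl)
  have a4 := E_spl (P := P) z1 (A := S.E1 P) (B := S.AY1 P) (fun s w a => h.Az s w a.1) (fun w => S.bc (S.C w) w)
  have a5 := E_le_Pr (P := P) (A := S.G1 P) (ψ := fun w => S.bc (S.C w) w) h.Lb
  -- part 2
  have b1 := E_two (P := P) (A := S.E2 P) (ψ := ψ) (g := fun w => S.fY (S.C w) w) (k := fun w => S.cb (S.B w) w)
    fun s w a => h.iY s w a.1.1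
  have b2 := one_cov (P := P) (T := T) (K := S.K) (x := S.c2) (A := S.A1 P) (J := fun w => S.fY (S.C w) w) h.FC z1
    h.zT (evA1 h) (fun s w a => h.Az s w a.1) h.l0 h.k0 h.L0 h.LY h.vY fun _ => rfl
  have b3 := one_cov (P := P) (T := T) (K := S.K) (x := S.b2) (A := S.E2 P) (J := fun w => S.cb (S.B w) w) h.FB z1
    h.zT (evE2 h) (fun s w a => h.Az s w a.1.1) h.l0 h.k0 h.L0 h.Lc h.vcb (fun _ => rfl)
  have b4 := E_spl (P := P) z1 (A := S.E2 P) (B := S.AZ2 P) (fun s w a => h.Az s w a.1.1) (fun w => S.cb (S.B w) w)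
  have b5 := E_le_Pr (P := P) (A := S.G2 P) (ψ := fun w => S.cb (S.B w) w) h.Lc
  -- part 3
  have d1 := E_le_Pr (P := P) (A := S.A2 P) h.Lψ
  -- the unsigned cover
  have m1 := one_mass (P := P) (T := T) (K := S.K) (x := S.d3) (A := S.A) h.FD z1 h.zT h.evA h.Az h.k0
  have r1 := Pr_spl (P := P) z1 (A := S.G1 P) (B := S.AU P) (fun s w a => h.Az s w a.1.1)
  have r2 := Pr_spl (P := P) z1 (A := S.G2 P) (B := S.AU P) (fun s w a => h.Az s w a.1.1.1)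
  have r3 := Pr_spl (P := P) z1 (A := S.A2 P) (B := S.AU P) (fun s w a => h.Az s w a.1.1)
  have r4 : P.Pr (fun w => ∃ s, S.G1 P s w ∧ ¬ S.AU P s w) + P.Pr (fun w => ∃ s, S.G2 P s w ∧ ¬ S.AU P s w) +
      P.Pr (fun w => ∃ s, S.A2 P s w ∧ ¬ S.AU P s w) ≤ P.Pr (fun w => ∃ s, S.A s w ∧ ¬ S.AU P s w) := by
    have t1 := Pr_spl (P := P) z1 (A := fun s w => S.A s w ∧ ¬ S.AU P s w) (B := S.AZ P) (fun s w a => h.Az s w a.1)
    have t2 := Pr_spl (P := P) z1 (A := fun s w => (S.A s w ∧ ¬ S.AU P s w) ∧ S.AZ P s w) (B := S.AY P)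
      (fun s w a => h.Az s w a.1.1)
    rw [t1, t2]
    refine le_trans (le_of_eq (add_assoc _ _ _)) (add_le_add ?_ (add_le_add ?_ ?_))
    · exact P.Pr_mono fun w _ ⟨s, a, b⟩ => ⟨s, ⟨a.1.1, b⟩, a.1.2⟩
    · exact P.Pr_mono fun w _ ⟨s, a, b⟩ => ⟨s, ⟨⟨a.1.1.1, b⟩, a.1.1.2⟩, a.1.2⟩
    · exact P.Pr_mono fun w _ ⟨s, a, b⟩ => ⟨s, ⟨⟨a.1.1, b⟩, a.1.2⟩, a.2⟩
  have n1 : 0 ≤ S.lam * P.Pr (fun w => ∃ s, S.A2 P s w) := mul_nonneg h.l0 (P.Pr_nonneg _)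
  have e0 : S.lam * P.Pr (fun w => ∃ s, S.A s w) = S.lam * P.Pr (fun w => ∃ s, S.E1 P s w) +
      S.lam * P.Pr (fun w => ∃ s, S.E2 P s w) + S.lam * P.Pr (fun w => ∃ s, S.A2 P s w) := by
    have e1 : P.Pr (fun w => ∃ s, S.A s w) = P.Pr (fun w => ∃ s, S.E1 P s w) + P.Pr (fun w => ∃ s, S.A1 P s w) := q1
    have e2 : P.Pr (fun w => ∃ s, S.A1 P s w) = P.Pr (fun w => ∃ s, S.E2 P s w) + P.Pr (fun w => ∃ s, S.A2 P s w) := q2
    rw [e1, e2]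
    ring
  have u1 : P.E (fun w => ind (∃ s, S.A s w) * ψ w) = P.E (fun w => ind (∃ s, S.E1 P s w) * ψ w) +
      P.E (fun w => ind (∃ s, S.A1 P s w) * ψ w) := s1
  have u2 : P.E (fun w => ind (∃ s, S.A1 P s w) * ψ w) = P.E (fun w => ind (∃ s, S.E2 P s w) * ψ w) +
      P.E (fun w => ind (∃ s, S.A2 P s w) * ψ w) := s2
  have v1 : P.E (fun w => ind (∃ s, S.E1 P s w) * S.fZ (S.B w) w) ≤ S.lam * P.Pr (fun w => ∃ s, S.E1 P s w) +
      L * S.kap * P.Pr (fun w => ∃ s, zz s w) + L * bp P S.B S.VB S.XB S.A S.fZ S.kap S.lam S.K T S.b1 := a2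
  have v2 : P.E (fun w => ind (∃ s, S.E2 P s w) * S.fY (S.C w) w) ≤ S.lam * P.Pr (fun w => ∃ s, S.E2 P s w) +
      L * S.kap * P.Pr (fun w => ∃ s, zz s w) + L * bp P S.C S.VC S.XC (S.A1 P) S.fY S.kap S.lam S.K T S.c2 := b2
  have w1 : P.E (fun w => ind (∃ s, S.E1 P s w ∧ ¬ S.AY1 P s w) * S.bc (S.C w) w) ≤
      S.lam * P.Pr (fun w => ∃ s, S.E1 P s w ∧ ¬ S.AY1 P s w) + L * S.kap * P.Pr (fun w => ∃ s, zz s w) +
        L * bp P S.C S.VC S.XC (S.E1 P) S.bc S.kap S.lam S.K T S.c1 := a3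
  have w2 : P.E (fun w => ind (∃ s, S.E2 P s w ∧ ¬ S.AZ2 P s w) * S.cb (S.B w) w) ≤
      S.lam * P.Pr (fun w => ∃ s, S.E2 P s w ∧ ¬ S.AZ2 P s w) + L * S.kap * P.Pr (fun w => ∃ s, zz s w) +
        L * bp P S.B S.VB S.XB (S.E2 P) S.cb S.kap S.lam S.K T S.b2 := b3
  have x1 : P.E (fun w => ind (∃ s, S.E1 P s w) * S.bc (S.C w) w) =
      P.E (fun w => ind (∃ s, S.E1 P s w ∧ ¬ S.AY1 P s w) * S.bc (S.C w) w) +
      P.E (fun w => ind (∃ s, S.G1 P s w) * S.bc (S.C w) w) := a4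
  have x2 : P.E (fun w => ind (∃ s, S.E2 P s w) * S.cb (S.B w) w) =
      P.E (fun w => ind (∃ s, S.E2 P s w ∧ ¬ S.AZ2 P s w) * S.cb (S.B w) w) +
      P.E (fun w => ind (∃ s, S.G2 P s w) * S.cb (S.B w) w) := b4
  have y1 : S.lam * P.Pr (fun w => ∃ s, S.E1 P s w ∧ ¬ S.AY1 P s w) ≤ S.lam * P.Pr (fun w => ∃ s, S.E1 P s w) :=
    mul_le_mul_of_nonneg_left (P.Pr_mono fun w _ ⟨s, a⟩ => ⟨s, a.1⟩) h.l0
  have y2 : S.lam * P.Pr (fun w => ∃ s, S.E2 P s w ∧ ¬ S.AZ2 P s w) ≤ S.lam * P.Pr (fun w => ∃ s, S.E2 P s w) :=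
    mul_le_mul_of_nonneg_left (P.Pr_mono fun w _ ⟨s, a⟩ => ⟨s, a.1⟩) h.l0
  have m2 : P.Pr (fun w => ∃ s, S.A s w ∧ ¬ S.AU P s w) ≤ S.kap * P.Pr (fun w => ∃ s, zz s w) +
      bp P S.D S.VD S.XD S.A (fun _ _ => 1) S.kap 1 S.K T S.d3 := m1
  have m3 := mul_le_mul_of_nonneg_left (r4.trans m2) h.L0
  have m4 : L * (P.Pr (fun w => ∃ s, S.G1 P s w) + P.Pr (fun w => ∃ s, S.G2 P s w) + P.Pr (fun w => ∃ s, S.A2 P s w)) =
      L * (P.Pr (fun w => ∃ s, S.G1 P s w ∧ ¬ S.AU P s w) + P.Pr (fun w => ∃ s, S.G2 P s w ∧ ¬ S.AU P s w) +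
        P.Pr (fun w => ∃ s, S.A2 P s w ∧ ¬ S.AU P s w)) +
      L * (P.Pr (fun w => ∃ s, S.G1 P s w ∧ S.AU P s w) + P.Pr (fun w => ∃ s, S.G2 P s w ∧ S.AU P s w) +
        P.Pr (fun w => ∃ s, S.A2 P s w ∧ S.AU P s w)) := by
    rw [r1, r2, r3]
    ring
  unfold bad5
  rw [u1, u2, e0]
  rw [x1] at a1
  rw [x2] at b1
  linarith

end Sys

/-! ## both covered, three covered, payment -/

section bc

variable {zz ub Rs : ℕ → Om → Prop} {T : ℕ} {κ κb κc κ1 κ2 κ3 : ℕ → Type*} {nd : ∀ t, Om → κ t} {Nb : ∀ t, Om → κb t}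
  {Nc : ∀ t, Om → κc t} {Y1 : ∀ t, Om → κ1 t} {Y2 : ∀ t, Om → κ2 t} {Y3 : ∀ t, Om → κ3 t} {b t : ℝ}

/-- **BOTH COVERED** at the exact vertex of `Nb`; `ub` = undecided, alive -/
theorem both_cov (hci : CI P Nb Y1 Y2) (hz : ∀ s x w, Nb s x = Nb s w → (zz s x ↔ zz s w))
    (hu : ∀ s x w, Nb s x = Nb s w → (ub s x ↔ ub s w)) (z1 : ∀ w s s', zz s w → zz s' w → s = s')
    (zT : ∀ s w, zz s w → s < T) {β1 β2 : Type*} {V1 : Om → β1} {V2 : Om → β2} (h1 : ∀ s, Fac (Y1 s) V1)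
    (h2 : ∀ s, Fac (Y2 s) V2) {E c c' : ℕ → Om → Prop} (hE : ∀ s w, E s w → zz s w ∧ ub s w ∧ Rs s w) (hc : Ev V2 c)
    (hc' : Ev V1 c') :
    P.Pr (fun w => ∃ s, (E s w ∧ c s w) ∧ c' s w) ≤
      Real.sqrt b * ((P.Pr (fun w => ∃ s, zz s w ∧ c' s w) + P.Pr (fun w => ∃ s, zz s w ∧ c s w)) / 2) +
      P.Pr (fun w => ∃ s, (zz s w ∧ ub s w) ∧ b < cp P Nb s (Rs s) w ∧ Rs s w) := by
  have h3 := GhoLW.both_gen (P := P) (f := fun s w => zz s w ∧ ub s w) (Rs := Rs) (T := T) (b := b) hci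
    (fun s x w e => and_congr (hz s x w e) (hu s x w e)) (fun w s s' a a' => z1 w s s' a.1 a'.1)
    (fun s w a => zT s w a.1) (K1 := c') (K2 := c) (fun s x w e => hc' s x w (h1 s x w e))
    (fun s x w e => hc s x w (h2 s x w e))
  refine (P.Pr_mono fun w _ ⟨s, a, a'⟩ => ⟨s, ⟨(hE s w a.1).1, (hE s w a.1).2.1⟩, ⟨a', a.2⟩, (hE s w a.1).2.2⟩).trans
    (h3.trans (add_le_add (mul_le_mul_of_nonneg_left ?_ (Real.sqrt_nonneg _)) le_rfl))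
  have e1 : P.Pr (fun w => ∃ s, (zz s w ∧ ub s w) ∧ c' s w) ≤ P.Pr (fun w => ∃ s, zz s w ∧ c' s w) :=
    P.Pr_mono fun w _ ⟨s, a, a'⟩ => ⟨s, a.1, a'⟩
  have e2 : P.Pr (fun w => ∃ s, (zz s w ∧ ub s w) ∧ c s w) ≤ P.Pr (fun w => ∃ s, zz s w ∧ c s w) :=
    P.Pr_mono fun w _ ⟨s, a, a'⟩ => ⟨s, a.1, a'⟩
  linarith

/-- **THREE COVERED** at the node -/
theorem tri_cov (h0 : CI P nd Nb Nc) (hb : CI P Nb Y1 Y2) (hc : CI P Nc Y1 Y3) (f1 : ∀ s, Fac (Y1 s) (Nb s))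
    (f2 : ∀ s, Fac (Y1 s) (Nc s)) (f3 : ∀ s, Fac (Nb s) (nd s)) (f4 : ∀ s, Fac (Nc s) (nd s))
    (hz : ∀ s x w, nd s x = nd s w → (zz s x ↔ zz s w)) (z1 : ∀ w s s', zz s w → zz s' w → s = s')
    (zT : ∀ s w, zz s w → s < T) {β1 β2 β3 : Type*} {V1 : Om → β1} {V2 : Om → β2} {V3 : Om → β3}
    (h1 : ∀ s, Fac (Y1 s) V1) (h2 : ∀ s, Fac (Y2 s) V2) (h3 : ∀ s, Fac (Y3 s) V3) {E c1 c2 c3 : ℕ → Om → Prop}
    (hE : ∀ s w, E s w → zz s w ∧ Rs s w) (k1 : Ev V1 c1) (k2 : Ev V2 c2) (k3 : Ev V3 c3) (t0 : 0 ≤ t)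
    (ht : b ≤ t ^ 3) :
    P.Pr (fun w => ∃ s, E s w ∧ c1 s w ∧ c2 s w ∧ c3 s w) ≤
      t * ((P.Pr (fun w => ∃ s, zz s w ∧ c1 s w) + P.Pr (fun w => ∃ s, zz s w ∧ c2 s w) +
        P.Pr (fun w => ∃ s, zz s w ∧ c3 s w)) / 3) +
      P.Pr (fun w => ∃ s, zz s w ∧ b < cp P nd s (Rs s) w ∧ Rs s w) := by
  refine (P.Pr_mono fun w _ ⟨s, a, a1, a2, a3⟩ => ⟨s, (hE s w a).1, a1, a2, a3, (hE s w a).2⟩).trans
    (GhoLW.tri_gen (P := P) (Rs := Rs) (T := T) (b := b) h0 hb hc f1 f2 f3 f4 hz z1 zT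
      (fun s x w e => k1 s x w (h1 s x w e)) (fun s x w e => k2 s x w (h2 s x w e))
      (fun s x w e => k3 s x w (h3 s x w e)) t0 ht)

/-- **PAYMENT OF ONE COVER** at a stopping time of the nodes -/
theorem pay_cov {α β : Type*} {κx : ℕ → Type*} {U : Om → α} {V : Om → β} {X : ∀ t, Om → κx t} (F : Face P W zz U V X)
    {A : ℕ → Om → Prop} {f : α → Om → ℝ} {kap lam : ℝ} {K M : ℕ} {x : Fin M → α} {σ : Om → ℕ} (fnd : Filt nd)
    (hσ : Stp nd σ) (hch : ∀ s (g : Om → ℝ), Fac V g → ∀ w, P.p w ≠ 0 → P.ce (X s) g w = P.ce (nd s) g w)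
    (hK : 0 < K) (l0 : 0 ≤ lam) (hf : ∀ a, Fac V (f a)) (hzσ : ∀ s w, zz s w → s ≤ σ w) :
    lam * P.Pr (fun w => ∃ s, zz s w ∧ cv P U V X A f kap lam K x s w) ≤
      2 * P.E (fun w => PhL P nd (sec U V A) f kap lam K x (σ w) w) :=
  row_pay fnd F.hX hσ hch hK l0 hf hzσ

end bc

/-! ## everything together -/

section all

variable {β γ δ ωB ωC ωD : Type*} {κB κC κD : ℕ → Type*} {M : ℕ} {S : Sys Om β γ δ ωB ωC ωD κB κC κD M}
  {zz Rs ub uc ud : ℕ → Om → Prop} {T : ℕ} {L b t : ℝ} {ψ : Om → ℝ} {κ κb κc κd κ1 κ2 κ3 : ℕ → Type*}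
  {nd : ∀ t, Om → κ t} {Nb : ∀ t, Om → κb t} {Nc : ∀ t, Om → κc t} {Nd : ∀ t, Om → κd t} {Y1 : ∀ t, Om → κ1 t}
  {Y2 : ∀ t, Om → κ2 t} {Y3 : ∀ t, Om → κ3 t}

/-- the sights: node `nd`; one exact point `Nb`, `Nc`; two exact points `Y1` = `(b, c)`, `Y2` = `(b, d)`, `Y3` = `(c, d)`;
`ub`, `uc` = `b`, `c` undecided (and alive), `Rs` = relation -/
structure Si2 (P : FP Om) (S : Sys Om β γ δ ωB ωC ωD κB κC κD M) (zz Rs ub uc : ℕ → Om → Prop) (nd : ∀ t, Om → κ t)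
    (Nb : ∀ t, Om → κb t) (Nc : ∀ t, Om → κc t) (Y1 : ∀ t, Om → κ1 t) (Y2 : ∀ t, Om → κ2 t)
    (Y3 : ∀ t, Om → κ3 t) : Prop where
  ci0 : CI P nd Nb Nc
  cib : CI P Nb Y1 Y2
  cic : CI P Nc Y1 Y3
  fb : ∀ s, Fac (Y1 s) (Nb s)
  fc : ∀ s, Fac (Y1 s) (Nc s)
  gb : ∀ s, Fac (Nb s) (nd s)
  gc : ∀ s, Fac (Nc s) (nd s)
  zn : ∀ s x w, nd s x = nd s w → (zz s x ↔ zz s w)
  hub : ∀ s x w, Nb s x = Nb s w → (ub s x ↔ ub s w)
  huc : ∀ s x w, Nc s x = Nc s w → (uc s x ↔ uc s w)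
  w1 : ∀ s, Fac (Y1 s) S.VD
  w2 : ∀ s, Fac (Y2 s) S.VC
  w3 : ∀ s, Fac (Y3 s) S.VB
  Ab : ∀ s w, S.A s w → ub s w
  Ac : ∀ s w, S.A s w → uc s w
  AR : ∀ s w, S.A s w → Rs s w

/-- the third vertex -/
structure Si3 (P : FP Om) (S : Sys Om β γ δ ωB ωC ωD κB κC κD M) (zz Rs ub uc ud : ℕ → Om → Prop)
    (nd : ∀ t, Om → κ t) (Nb : ∀ t, Om → κb t) (Nc : ∀ t, Om → κc t) (Nd : ∀ t, Om → κd t) (Y1 : ∀ t, Om → κ1 t)
    (Y2 : ∀ t, Om → κ2 t) (Y3 : ∀ t, Om → κ3 t) : Prop extends Si2 P S zz Rs ub uc nd Nb Nc Y1 Y2 Y3 where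
  cid : CI P Nd Y2 Y3
  gd : ∀ s, Fac (Nd s) (nd s)
  hud : ∀ s x w, Nd s x = Nd s w → (ud s x ↔ ud s w)
  Ad : ∀ s w, S.A s w → ud s w

variable (P zz) in
/-- covered at the time of `zz` -/
def cz (c : ℕ → Om → Prop) : ℝ := P.Pr (fun w => ∃ s, zz s w ∧ c s w)

variable (P zz) in
/-- the exceptional event at a sight: the density of the relation is large at the time -/
def exc {κ : ℕ → Type*} (N : ∀ t, Om → κ t) (Rs u : ℕ → Om → Prop) (b : ℝ) : ℝ :=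
  P.Pr (fun w => ∃ s, (zz s w ∧ u s w) ∧ b < cp P N s (Rs s) w ∧ Rs s w)

/-- **THE THREE-BODY TERM AT `T^0`, NINE COVERS** -/
theorem nine_all (h : S.Ok3 P W zz T L ψ) (g : Si3 P S zz Rs ub uc ud nd Nb Nc Nd Y1 Y2 Y3) (t0 : 0 ≤ t) {b0 : ℝ}
    (ht : b0 ≤ t ^ 3) :
    P.E (fun w => ind (∃ s, S.A s w) * ψ w) ≤ 2 * (S.lam * P.Pr (fun w => ∃ s, S.A s w)) +
      9 * (L * S.kap * P.Pr (fun w => ∃ s, zz s w)) + L * S.bads P T +
      L * (Real.sqrt b * ((cz P zz (S.AX1 P) + cz P zz (S.AY1 P) + cz P zz (S.AX2 P) + cz P zz (S.AZ2 P) +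
        cz P zz (S.AY3 P) + cz P zz (S.AZ3 P)) / 2)) +
      L * (t * ((cz P zz (S.AX P) + cz P zz (S.AY P) + cz P zz (S.AZ P)) / 3)) +
      L * (exc P zz Nb Rs ub b + exc P zz Nc Rs uc b + exc P zz Nd Rs ud b +
        exc P zz nd Rs (fun _ _ => True) b0) := by
  have h2 := h.toOk2
  have g2 := g.toSi2
  have h0 := Sys.nine h
  have e1 := both_cov (P := P) (zz := zz) (ub := ub) (Rs := Rs) (T := T) (b := b) (E := S.E1 P) (c := S.AY1 P)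
    (c' := S.AX1 P) g2.cib (fun s x w e => g2.zn s x w (g2.gb s x w e)) g2.hub h2.z1 h2.zT g2.w1 g2.w2
    (fun s w a => ⟨h2.Az s w a.1, g2.Ab s w a.1, g2.AR s w a.1⟩) (cv_V h2.FC) (cv_V h2.FD)
  have e2 := both_cov (P := P) (zz := zz) (ub := uc) (Rs := Rs) (T := T) (b := b) (E := S.E2 P) (c := S.AZ2 P)
    (c' := S.AX2 P) g2.cic (fun s x w e => g2.zn s x w (g2.gc s x w e)) g2.huc h2.z1 h2.zT g2.w1 g2.w3
    (fun s w a => ⟨h2.Az s w a.1.1, g2.Ac s w a.1.1, g2.AR s w a.1.1⟩) (cv_V h2.FB) (cv_V h2.FD)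
  have e3 := both_cov (P := P) (zz := zz) (ub := ud) (Rs := Rs) (T := T) (b := b) (E := S.E3 P) (c := S.AZ3 P)
    (c' := S.AY3 P) g.cid (fun s x w e => g2.zn s x w (g.gd s x w e)) g.hud h2.z1 h2.zT g2.w2 g2.w3
    (fun s w a => ⟨h2.Az s w a.1.1.1, g.Ad s w a.1.1.1, g2.AR s w a.1.1.1⟩) (cv_V h2.FB) (cv_V h2.FC)
  have e4 := tri_cov (P := P) (zz := zz) (Rs := Rs) (T := T) (b := b0) (t := t) (E := S.A) (c1 := S.AX P)
    (c2 := S.AY P) (c3 := S.AZ P) g2.ci0 g2.cib g2.cic g2.fb g2.fc g2.gb g2.gc g2.zn h2.z1 h2.zT g2.w1 g2.w2 g2.w3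
    (fun s w a => ⟨h2.Az s w a, g2.AR s w a⟩) (cv_V h2.FD) (cv_V h2.FC) (cv_V h2.FB) t0 ht
  have e5 : P.Pr (fun w => ∃ s, S.A2 P s w ∧ S.AX P s w) ≤
      P.Pr (fun w => ∃ s, S.A s w ∧ S.AX P s w ∧ S.AY P s w ∧ S.AZ P s w) :=
    P.Pr_mono fun w _ ⟨s, a, a'⟩ => ⟨s, a.1.1, a', a.2, a.1.2⟩
  have e6 : P.Pr (fun w => ∃ s, zz s w ∧ b0 < cp P nd s (Rs s) w ∧ Rs s w) =
      exc P zz nd Rs (fun _ _ => True) b0 := by
    unfold exc
    simp only [and_true]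
  rw [e6] at e4
  have f1 := mul_le_mul_of_nonneg_left e1 h2.L0
  have f2 := mul_le_mul_of_nonneg_left e2 h2.L0
  have f3 := mul_le_mul_of_nonneg_left e3 h2.L0
  have f4 := mul_le_mul_of_nonneg_left (e5.trans e4) h2.L0
  have k1 : P.Pr (fun w => ∃ s, (S.E1 P s w ∧ S.AY1 P s w) ∧ S.AX1 P s w) =
      P.Pr (fun w => ∃ s, S.G1 P s w ∧ S.AX1 P s w) := rfl
  have k2 : P.Pr (fun w => ∃ s, (S.E2 P s w ∧ S.AZ2 P s w) ∧ S.AX2 P s w) =
      P.Pr (fun w => ∃ s, S.G2 P s w ∧ S.AX2 P s w) := rfl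
  have k3 : P.Pr (fun w => ∃ s, (S.E3 P s w ∧ S.AZ3 P s w) ∧ S.AY3 P s w) =
      P.Pr (fun w => ∃ s, S.G3 P s w ∧ S.AY3 P s w) := rfl
  rw [k1] at f1
  rw [k2] at f2
  rw [k3] at f3
  unfold cz exc
  unfold exc at f4
  linarith

/-- **THE THREE-BODY TERM AT `T^0`, THE RELATION SEES THE TOP OF `(b, c)`** -/
theorem five_all (h : S.Ok2 P W zz T L ψ) (g : Si2 P S zz Rs ub uc nd Nb Nc Y1 Y2 Y3) (t0 : 0 ≤ t) {b0 : ℝ}
    (ht : b0 ≤ t ^ 3) :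
    P.E (fun w => ind (∃ s, S.A s w) * ψ w) ≤ 2 * (S.lam * P.Pr (fun w => ∃ s, S.A s w)) +
      5 * (L * S.kap * P.Pr (fun w => ∃ s, zz s w)) + L * S.bad5 P T +
      L * (Real.sqrt b * ((2 * cz P zz (S.AU P) + cz P zz (S.AY1 P) + cz P zz (S.AZ2 P)) / 2)) +
      L * (t * ((cz P zz (S.AU P) + cz P zz (S.AY P) + cz P zz (S.AZ P)) / 3)) +
      L * (exc P zz Nb Rs ub b + exc P zz Nc Rs uc b + exc P zz nd Rs (fun _ _ => True) b0) := by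
  have h0 := Sys.five h
  have e1 := both_cov (P := P) (zz := zz) (ub := ub) (Rs := Rs) (T := T) (b := b) (E := S.E1 P) (c := S.AY1 P)
    (c' := S.AU P) g.cib (fun s x w e => g.zn s x w (g.gb s x w e)) g.hub h.z1 h.zT g.w1 g.w2
    (fun s w a => ⟨h.Az s w a.1, g.Ab s w a.1, g.AR s w a.1⟩) (cv_V h.FC) (cv_V h.FD)
  have e2 := both_cov (P := P) (zz := zz) (ub := uc) (Rs := Rs) (T := T) (b := b) (E := S.E2 P) (c := S.AZ2 P)
    (c' := S.AU P) g.cic (fun s x w e => g.zn s x w (g.gc s x w e)) g.huc h.z1 h.zT g.w1 g.w3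
    (fun s w a => ⟨h.Az s w a.1.1, g.Ac s w a.1.1, g.AR s w a.1.1⟩) (cv_V h.FB) (cv_V h.FD)
  have e4 := tri_cov (P := P) (zz := zz) (Rs := Rs) (T := T) (b := b0) (t := t) (E := S.A) (c1 := S.AU P)
    (c2 := S.AY P) (c3 := S.AZ P) g.ci0 g.cib g.cic g.fb g.fc g.gb g.gc g.zn h.z1 h.zT g.w1 g.w2 g.w3
    (fun s w a => ⟨h.Az s w a, g.AR s w a⟩) (cv_V h.FD) (cv_V h.FC) (cv_V h.FB) t0 ht
  have e5 : P.Pr (fun w => ∃ s, S.A2 P s w ∧ S.AU P s w) ≤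
      P.Pr (fun w => ∃ s, S.A s w ∧ S.AU P s w ∧ S.AY P s w ∧ S.AZ P s w) :=
    P.Pr_mono fun w _ ⟨s, a, a'⟩ => ⟨s, a.1.1, a', a.2, a.1.2⟩
  have e6 : P.Pr (fun w => ∃ s, zz s w ∧ b0 < cp P nd s (Rs s) w ∧ Rs s w) =
      exc P zz nd Rs (fun _ _ => True) b0 := by
    unfold exc
    simp only [and_true]
  rw [e6] at e4
  have f1 := mul_le_mul_of_nonneg_left e1 h.L0
  have f2 := mul_le_mul_of_nonneg_left e2 h.L0
  have f4 := mul_le_mul_of_nonneg_left (e5.trans e4) h.L0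
  have k1 : P.Pr (fun w => ∃ s, (S.E1 P s w ∧ S.AY1 P s w) ∧ S.AU P s w) =
      P.Pr (fun w => ∃ s, S.G1 P s w ∧ S.AU P s w) := rfl
  have k2 : P.Pr (fun w => ∃ s, (S.E2 P s w ∧ S.AZ2 P s w) ∧ S.AU P s w) =
      P.Pr (fun w => ∃ s, S.G2 P s w ∧ S.AU P s w) := rfl
  rw [k1] at f1
  rw [k2] at f2
  unfold cz exc
  unfold exc at f4
  linarith

end all

end

end Pool.Agent.GMH.GhoZ3
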