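import Pool.Agent.GMH.GhoZ3

/-!
# GMH/GhoZ4 (helper85): TWO-BODY TERMS AT `T^0` (H3.T, T.10), time dependent relation, any life bits, fixed `a`

`A s ⊆ zz s` = any event of the exact points: relation at the time `s`, own epochs, alive, `b` undecided.  Rows : exact `c`
(face `F`) over `(b, d)`; columns : exact `d` (face `F'`) over `(b, c)`.

* `ten` : signed rows, signed columns, both covered at the undecided exact `b`;
* `tenX` : signed rows, UNSIGNED columns (the relation sees the top of `(b, c)`).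
-/

set_option autoImplicit false
set_option linter.unusedSectionVars false

namespace Pool.Agent.GMH.GhoZ3

open Finset Pool.Agent.PWZ Pool.Agent.M3 Pool.Agent.GMH.Gdy Pool.Agent.GMH.Blk Pool.Agent.GMH.GhoZ

noncomputable section

variable {Om : Type*} [Fintype Om] {P : FP Om} {ω : Type*} {W : Om → ω} {α β α' β' : Type*}
  {κ κ' κb κ1 κ2 : ℕ → Type*} {zz Rs ub A : ℕ → Om → Prop} {U : Om → α} {V : Om → β} {X : ∀ t, Om → κ t}
  {U' : Om → α'} {V' : Om → β'} {X' : ∀ t, Om → κ' t} {f : α → Om → ℝ} {f' : α' → Om → ℝ} {ψ : Om → ℝ}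
  {kap kap' lam L b : ℝ} {K K' M M' T : ℕ} {x : Fin M → α} {x' : Fin M' → α'} {Nb : ∀ t, Om → κb t}
  {Y1 : ∀ t, Om → κ1 t} {Y2 : ∀ t, Om → κ2 t}

/-- **TWO-BODY AT `T^0`, SIGNED ROWS AND COLUMNS** -/
theorem ten (F : Face P W zz U V X) (F' : Face P W zz U' V' X') (z1 : ∀ w s s', zz s w → zz s' w → s = s')
    (zT : ∀ s w, zz s w → s < T) (hA : Ev W A) (hAz : ∀ s w, A s w → zz s w) (l0 : 0 ≤ lam) (k0 : 0 ≤ kap)
    (L0' : 0 ≤ L) (hL : ∀ w, ψ w ≤ L) (hf : ∀ a, Fac V (f a)) (hg : ∀ w, f (U w) w = ψ w)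
    (hf' : ∀ a, Fac V' (f' a)) (hg' : ∀ w, f' (U' w) w = ψ w) (hci : CI P Nb Y1 Y2)
    (hz : ∀ s x w, Nb s x = Nb s w → (zz s x ↔ zz s w)) (hu : ∀ s x w, Nb s x = Nb s w → (ub s x ↔ ub s w))
    (h1 : ∀ s, Fac (Y1 s) V') (h2 : ∀ s, Fac (Y2 s) V) (hE : ∀ s w, A s w → ub s w ∧ Rs s w) :
    P.E (fun w => ind (∃ s, A s w) * ψ w) ≤ lam * P.Pr (fun w => ∃ s, A s w) +
      2 * (L * kap * P.Pr (fun w => ∃ s, zz s w)) + L * (bp P U V X A f kap lam K T x +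
        bp P U' V' X' (fun s w => A s w ∧ cv P U V X A f kap lam K x s w) f' kap lam K T x') +
      L * (Real.sqrt b * ((cz P zz (cv P U' V' X' (fun s w => A s w ∧ cv P U V X A f kap lam K x s w) f' kap lam K x') +
        cz P zz (cv P U V X A f kap lam K x)) / 2)) + L * exc P zz Nb Rs ub b := by
  have e1 := two_cov (P := P) (K := K) (x := x) (x' := x') F F' z1 zT hA hAz l0 k0 L0' hL hf hg hf' hg'
  have e2 := both_cov (P := P) (zz := zz) (ub := ub) (Rs := Rs) (T := T) (b := b) (E := A)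
    (c := cv P U V X A f kap lam K x)
    (c' := cv P U' V' X' (fun s w => A s w ∧ cv P U V X A f kap lam K x s w) f' kap lam K x') hci hz hu z1 zT h1 h2
    (fun s w a => ⟨hAz s w a, hE s w a⟩) (cv_V F) (cv_V F')
  have e3 := mul_le_mul_of_nonneg_left e2 L0'
  unfold cz exc
  linarith

/-- **TWO-BODY AT `T^0`, SIGNED ROWS, UNSIGNED COLUMNS** -/
theorem tenX (F : Face P W zz U V X) (F' : Face P W zz U' V' X') (z1 : ∀ w s s', zz s w → zz s' w → s = s')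
    (zT : ∀ s w, zz s w → s < T) (hA : Ev W A) (hAz : ∀ s w, A s w → zz s w) (l0 : 0 ≤ lam) (k0 : 0 ≤ kap)
    (k0' : 0 ≤ kap') (L0' : 0 ≤ L) (hL : ∀ w, ψ w ≤ L) (hf : ∀ a, Fac V (f a)) (hg : ∀ w, f (U w) w = ψ w)
    (hci : CI P Nb Y1 Y2) (hz : ∀ s x w, Nb s x = Nb s w → (zz s x ↔ zz s w))
    (hu : ∀ s x w, Nb s x = Nb s w → (ub s x ↔ ub s w)) (h1 : ∀ s, Fac (Y1 s) V') (h2 : ∀ s, Fac (Y2 s) V)
    (hE : ∀ s w, A s w → ub s w ∧ Rs s w) :
    P.E (fun w => ind (∃ s, A s w) * ψ w) ≤ lam * P.Pr (fun w => ∃ s, A s w) +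
      L * (kap + kap') * P.Pr (fun w => ∃ s, zz s w) + L * (bp P U V X A f kap lam K T x +
        bp P U' V' X' A (fun _ _ => 1) kap' 1 K' T x') +
      L * (Real.sqrt b * ((cz P zz (cv P U' V' X' A (fun _ _ => 1) kap' 1 K' x') +
        cz P zz (cv P U V X A f kap lam K x)) / 2)) + L * exc P zz Nb Rs ub b := by
  set c := cv P U V X A f kap lam K x with hc
  set c' := cv P U' V' X' A (fun _ _ => (1 : ℝ)) kap' 1 K' x' with hc'
  have s1 := E_spl (P := P) z1 (A := A) (B := c) hAz ψ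
  have e1 := one_cov (P := P) (T := T) (K := K) (x := x) F z1 zT hA hAz l0 k0 L0' hL hf hg
  have e2 := one_mass (P := P) (T := T) (K := K') (x := x') F' z1 zT hA hAz k0'
  have e3 := Sys.E_le_Pr (P := P) (A := fun s w => A s w ∧ c s w) hL
  have e4 := Pr_spl (P := P) z1 (A := fun s w => A s w ∧ c s w) (B := c') (fun s w a => hAz s w a.1)
  have e5 : P.Pr (fun w => ∃ s, (A s w ∧ c s w) ∧ ¬ c' s w) ≤ P.Pr (fun w => ∃ s, A s w ∧ ¬ c' s w) :=
    P.Pr_mono fun w _ ⟨s, a, a'⟩ => ⟨s, a.1, a'⟩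
  have e6 := both_cov (P := P) (zz := zz) (ub := ub) (Rs := Rs) (T := T) (b := b) (E := A) (c := c) (c' := c') hci hz
    hu z1 zT h1 h2 (fun s w a => ⟨hAz s w a, hE s w a⟩) (cv_V F) (cv_V F')
  have e7 := mul_le_mul_of_nonneg_left e6 L0'
  have e8 := mul_le_mul_of_nonneg_left (e5.trans e2) L0'
  have e9 : lam * P.Pr (fun w => ∃ s, A s w ∧ ¬ c s w) ≤ lam * P.Pr (fun w => ∃ s, A s w) :=
    mul_le_mul_of_nonneg_left (P.Pr_mono fun w _ ⟨s, a⟩ => ⟨s, a.1⟩) l0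
  rw [e4] at e3
  rw [s1]
  unfold cz exc
  linarith

end

end Pool.Agent.GMH.GhoZ3
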