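import Pool.Agent.GMH.GhoZ4

/-!
# GMH/GhoZ5 (helper85): THREE-BODY TERMS AT `T^0` WITH FIVE COVERS, three covers if the relation sees a top (helper84)

Any two covered faces share an undecided vertex, so no Loomis - Whitney.  Functions: `ψ ≤ ψ_Z + ψ_Y^b + sg`,
`ψ ≤ ψ_Z + ψ_X^b + sg`, `ψ ≤ ψ_Y + ψ_X^c + sg` where `A` holds (`sg` = the single laws).
`AZ` rows `b_i`, `ψ_Z` on `A`; `(c, d)` not in `AZ` : `AY1` rows `c_i`, `ψ_Y^b`; in `AY1` : `AX1` rows `d_i`, `ψ_X^b`;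
`(c, d)` in `AZ` : `AY2` rows `c_i`, `ψ_Y` and `AX2` rows `d_i`, `ψ_X^c`, own case lists.

* `Sy.r0` : `E 1_A ψ ≤ 2 lam P (A) + 5 L kap P (zz) + L (bad) + L (both at b, d, c) + E 1_A sg`;
* `Sy.gx` : the relation sees the top of `(b, c)` : unsigned `AU`, `AZ`, `AY1`;
* `r0_all`, `gx_all` : with the bounds of the both terms.
-/

set_option autoImplicit false
set_option linter.unusedSectionVars false

namespace Pool.Agent.GMH.GhoZ3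

open Finset Pool.Agent.PWZ Pool.Agent.M3 Pool.Agent.GMH.Gdy Pool.Agent.GMH.Blk Pool.Agent.GMH.GhoZ

noncomputable section

variable {Om : Type*} [Fintype Om] {P : FP Om} {ω : Type*} {W : Om → ω}

/-- exact points, pairs, cells, tests, samples -/
structure Sy (Om β γ δ ωB ωC ωD : Type*) (κB κC κD : ℕ → Type*) (M : ℕ) where
  B : Om → β
  C : Om → γ
  D : Om → δ
  VB : Om → ωB
  VC : Om → ωC
  VD : Om → ωD
  XB : ∀ t, Om → κB t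
  XC : ∀ t, Om → κC t
  XD : ∀ t, Om → κD t
  pZ : β → Om → ℝ
  pY : γ → Om → ℝ
  Yb : γ → Om → ℝ
  Xb : δ → Om → ℝ
  Xc : δ → Om → ℝ
  sg : Om → ℝ
  b1 : Fin M → β
  c1 : Fin M → γ
  c2 : Fin M → γ
  d1 : Fin M → δ
  d2 : Fin M → δ
  kap : ℝ
  lam : ℝ
  K : ℕ
  A : ℕ → Om → Prop

namespace Sy

variable {β γ δ ωB ωC ωD : Type*} {κB κC κD : ℕ → Type*} {M : ℕ} (S : Sy Om β γ δ ωB ωC ωD κB κC κD M) (P : FP Om)

/-- `(c, d)` covered by rows `b_i`, test `ψ_Z` -/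
def AZ : ℕ → Om → Prop := cv P S.B S.VB S.XB S.A S.pZ S.kap S.lam S.K S.b1

/-- part I -/
def E1 (s : ℕ) (w : Om) : Prop := S.A s w ∧ ¬ S.AZ P s w

/-- `(b, d)` covered by rows `c_i`, test `ψ_Y^b` -/
def AY1 : ℕ → Om → Prop := cv P S.C S.VC S.XC (S.E1 P) S.Yb S.kap S.lam S.K S.c1

/-- part I, covered by rows -/
def G1 (s : ℕ) (w : Om) : Prop := S.E1 P s w ∧ S.AY1 P s w

/-- `(b, c)` covered by rows `d_i`, test `ψ_X^b` -/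
def AX1 : ℕ → Om → Prop := cv P S.D S.VD S.XD (S.G1 P) S.Xb S.kap S.lam S.K S.d1

/-- part II -/
def A1 (s : ℕ) (w : Om) : Prop := S.A s w ∧ S.AZ P s w

/-- `(b, d)` covered by rows `c_i`, test `ψ_Y` -/
def AY2 : ℕ → Om → Prop := cv P S.C S.VC S.XC (S.A1 P) S.pY S.kap S.lam S.K S.c2

/-- `(b, c)` covered by rows `d_i`, test `ψ_X^c` -/
def AX2 : ℕ → Om → Prop := cv P S.D S.VD S.XD (S.A1 P) S.Xc S.kap S.lam S.K S.d2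

/-- `(b, c)` covered by rows `d_i`, unsigned -/
def AU : ℕ → Om → Prop := cv P S.D S.VD S.XD S.A (fun _ _ => 1) S.kap 1 S.K S.d1

/-- common hypotheses -/
structure Ok (W : Om → ω) (zz : ℕ → Om → Prop) (T : ℕ) (L : ℝ) (ψ : Om → ℝ) : Prop where
  FB : Face P W zz S.B S.VB S.XB
  FC : Face P W zz S.C S.VC S.XC
  FD : Face P W zz S.D S.VD S.XD
  z1 : ∀ w s s', zz s w → zz s' w → s = s'
  zT : ∀ s w, zz s w → s < T
  evA : Ev W S.A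
  Az : ∀ s w, S.A s w → zz s w
  l0 : 0 ≤ S.lam
  k0 : 0 ≤ S.kap
  L0 : 0 ≤ L
  vZ : ∀ a, Fac S.VB (S.pZ a)
  vYb : ∀ a, Fac S.VC (S.Yb a)
  iY : ∀ s w, S.A s w → ψ w ≤ S.pZ (S.B w) w + S.Yb (S.C w) w + S.sg w
  LZ : ∀ w, S.pZ (S.B w) w ≤ L
  LY : ∀ w, S.Yb (S.C w) w ≤ L
  Lψ : ∀ w, ψ w ≤ L
  sg0 : ∀ w, 0 ≤ S.sg w

/-- hypotheses for the kind `R0` -/
structure Okr (W : Om → ω) (zz : ℕ → Om → Prop) (T : ℕ) (L : ℝ) (ψ : Om → ℝ) : Prop extends Ok S P W zz T L ψ where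
  vY : ∀ a, Fac S.VC (S.pY a)
  vXb : ∀ a, Fac S.VD (S.Xb a)
  vXc : ∀ a, Fac S.VD (S.Xc a)
  iX : ∀ s w, S.A s w → ψ w ≤ S.pZ (S.B w) w + S.Xb (S.D w) w + S.sg w
  iC : ∀ s w, S.A s w → ψ w ≤ S.pY (S.C w) w + S.Xc (S.D w) w + S.sg w
  Lp : ∀ w, S.pY (S.C w) w ≤ L
  Lb : ∀ w, S.Xb (S.D w) w ≤ L
  Lc : ∀ w, S.Xc (S.D w) w ≤ L

/-- the bad probabilities of the kind `R0` -/
def bad5 (T : ℕ) : ℝ :=
  bp P S.B S.VB S.XB S.A S.pZ S.kap S.lam S.K T S.b1 + bp P S.C S.VC S.XC (S.E1 P) S.Yb S.kap S.lam S.K T S.c1 +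
  bp P S.D S.VD S.XD (S.G1 P) S.Xb S.kap S.lam S.K T S.d1 +
  bp P S.C S.VC S.XC (S.A1 P) S.pY S.kap S.lam S.K T S.c2 + bp P S.D S.VD S.XD (S.A1 P) S.Xc S.kap S.lam S.K T S.d2

/-- the bad probabilities, the relation sees a top -/
def bad3 (T : ℕ) : ℝ :=
  bp P S.B S.VB S.XB S.A S.pZ S.kap S.lam S.K T S.b1 + bp P S.C S.VC S.XC (S.E1 P) S.Yb S.kap S.lam S.K T S.c1 +
  bp P S.D S.VD S.XD S.A (fun _ _ => 1) S.kap 1 S.K T S.d1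

variable {S P} {zz : ℕ → Om → Prop} {T : ℕ} {L : ℝ} {ψ : Om → ℝ}

theorem E_three {A : ℕ → Om → Prop} {g k r : Om → ℝ} (h : ∀ s w, A s w → ψ w ≤ g w + k w + r w) :
    P.E (fun w => ind (∃ s, A s w) * ψ w) ≤ P.E (fun w => ind (∃ s, A s w) * g w) +
      P.E (fun w => ind (∃ s, A s w) * k w) + P.E (fun w => ind (∃ s, A s w) * r w) := by
  rw [← FP.E_add, ← FP.E_add]
  refine P.E_mono fun w _ => ?_
  by_cases a : ∃ s, A s w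
  · obtain ⟨s, a'⟩ := a
    rw [ind_of ⟨s, a'⟩]
    have := h s w a'
    linarith
  · rw [ind_not a]
    simp

theorem evE1 (h : S.Ok P W zz T L ψ) : Ev W (S.E1 P) := h.evA.and (cv_ev h.FB).not
theorem evG1 (h : S.Ok P W zz T L ψ) : Ev W (S.G1 P) := (evE1 h).and (cv_ev h.FC)
theorem evA1 (h : S.Ok P W zz T L ψ) : Ev W (S.A1 P) := h.evA.and (cv_ev h.FB)

/-- **FIVE COVERS** -/
theorem r0 (h : S.Okr P W zz T L ψ) :
    P.E (fun w => ind (∃ s, S.A s w) * ψ w) ≤ 2 * (S.lam * P.Pr (fun w => ∃ s, S.A s w)) +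
      5 * (L * S.kap * P.Pr (fun w => ∃ s, zz s w)) + L * S.bad5 P T +
      L * (P.Pr (fun w => ∃ s, S.G1 P s w ∧ S.AX1 P s w) + P.Pr (fun w => ∃ s, S.A1 P s w ∧ S.AY2 P s w) +
        P.Pr (fun w => ∃ s, S.A1 P s w ∧ S.AX2 P s w)) + P.E (fun w => ind (∃ s, S.A s w) * S.sg w) := by
  have h2 := h.toOk
  have z1 := h2.z1
  have s1 : P.E (fun w => ind (∃ s, S.A s w) * ψ w) = P.E (fun w => ind (∃ s, S.E1 P s w) * ψ w) +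
      P.E (fun w => ind (∃ s, S.A1 P s w) * ψ w) := E_spl z1 h2.Az ψ
  have s2 : P.E (fun w => ind (∃ s, S.E1 P s w) * ψ w) =
      P.E (fun w => ind (∃ s, S.E1 P s w ∧ ¬ S.AY1 P s w) * ψ w) + P.E (fun w => ind (∃ s, S.G1 P s w) * ψ w) :=
    E_spl z1 (fun s w a => h2.Az s w a.1) ψ
  have sg1 : P.E (fun w => ind (∃ s, S.A s w) * S.sg w) = P.E (fun w => ind (∃ s, S.E1 P s w) * S.sg w) +
      P.E (fun w => ind (∃ s, S.A1 P s w) * S.sg w) := E_spl z1 h2.Az S.sg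
  have sg2 : P.E (fun w => ind (∃ s, S.E1 P s w) * S.sg w) =
      P.E (fun w => ind (∃ s, S.E1 P s w ∧ ¬ S.AY1 P s w) * S.sg w) +
      P.E (fun w => ind (∃ s, S.G1 P s w) * S.sg w) := E_spl z1 (fun s w a => h2.Az s w a.1) S.sg
  have sz : P.E (fun w => ind (∃ s, S.E1 P s w) * S.pZ (S.B w) w) =
      P.E (fun w => ind (∃ s, S.E1 P s w ∧ ¬ S.AY1 P s w) * S.pZ (S.B w) w) +
      P.E (fun w => ind (∃ s, S.G1 P s w) * S.pZ (S.B w) w) :=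
    E_spl z1 (fun s w a => h2.Az s w a.1) (fun w => S.pZ (S.B w) w)
  have q1 : P.Pr (fun w => ∃ s, S.A s w) = P.Pr (fun w => ∃ s, S.E1 P s w) + P.Pr (fun w => ∃ s, S.A1 P s w) :=
    Pr_spl z1 h2.Az
  have q2 : P.Pr (fun w => ∃ s, S.E1 P s w) = P.Pr (fun w => ∃ s, S.E1 P s w ∧ ¬ S.AY1 P s w) +
      P.Pr (fun w => ∃ s, S.G1 P s w) := Pr_spl z1 (fun s w a => h2.Az s w a.1)
  -- part I, rows
  have a1 := E_three (P := P) (A := fun s w => S.E1 P s w ∧ ¬ S.AY1 P s w) (ψ := ψ) (g := fun w => S.pZ (S.B w) w)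
    (k := fun w => S.Yb (S.C w) w) (r := S.sg) fun s w a => h2.iY s w a.1.1
  have a2 := E_three (P := P) (A := S.G1 P) (ψ := ψ) (g := fun w => S.pZ (S.B w) w) (k := fun w => S.Xb (S.D w) w)
    (r := S.sg) fun s w a => h.iX s w a.1.1
  have a3 : P.E (fun w => ind (∃ s, S.E1 P s w) * S.pZ (S.B w) w) ≤ S.lam * P.Pr (fun w => ∃ s, S.E1 P s w) +
      L * S.kap * P.Pr (fun w => ∃ s, zz s w) + L * bp P S.B S.VB S.XB S.A S.pZ S.kap S.lam S.K T S.b1 :=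
    one_cov h2.FB z1 h2.zT h2.evA h2.Az h2.l0 h2.k0 h2.L0 h2.LZ h2.vZ fun _ => rfl
  have a4 : P.E (fun w => ind (∃ s, S.E1 P s w ∧ ¬ S.AY1 P s w) * S.Yb (S.C w) w) ≤
      S.lam * P.Pr (fun w => ∃ s, S.E1 P s w ∧ ¬ S.AY1 P s w) + L * S.kap * P.Pr (fun w => ∃ s, zz s w) +
        L * bp P S.C S.VC S.XC (S.E1 P) S.Yb S.kap S.lam S.K T S.c1 :=
    one_cov h2.FC z1 h2.zT (evE1 h2) (fun s w a => h2.Az s w a.1) h2.l0 h2.k0 h2.L0 h2.LY h2.vYb fun _ => rfl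
  have a5 : P.E (fun w => ind (∃ s, S.G1 P s w) * S.Xb (S.D w) w) =
      P.E (fun w => ind (∃ s, S.G1 P s w ∧ ¬ S.AX1 P s w) * S.Xb (S.D w) w) +
      P.E (fun w => ind (∃ s, S.G1 P s w ∧ S.AX1 P s w) * S.Xb (S.D w) w) :=
    E_spl z1 (fun s w a => h2.Az s w a.1.1) (fun w => S.Xb (S.D w) w)
  have a6 : P.E (fun w => ind (∃ s, S.G1 P s w ∧ ¬ S.AX1 P s w) * S.Xb (S.D w) w) ≤
      S.lam * P.Pr (fun w => ∃ s, S.G1 P s w ∧ ¬ S.AX1 P s w) + L * S.kap * P.Pr (fun w => ∃ s, zz s w) +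
        L * bp P S.D S.VD S.XD (S.G1 P) S.Xb S.kap S.lam S.K T S.d1 :=
    one_cov h2.FD z1 h2.zT (evG1 h2) (fun s w a => h2.Az s w a.1.1) h2.l0 h2.k0 h2.L0 h.Lb h.vXb fun _ => rfl
  have a7 := Sys.E_le_Pr (P := P) (A := fun s w => S.G1 P s w ∧ S.AX1 P s w) (ψ := fun w => S.Xb (S.D w) w) h.Lb
  have a8 : S.lam * P.Pr (fun w => ∃ s, S.G1 P s w ∧ ¬ S.AX1 P s w) ≤ S.lam * P.Pr (fun w => ∃ s, S.G1 P s w) :=
    mul_le_mul_of_nonneg_left (P.Pr_mono fun w _ ⟨s, a⟩ => ⟨s, a.1⟩) h2.l0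
  -- part II
  have b1 := E_three (P := P) (A := S.A1 P) (ψ := ψ) (g := fun w => S.pY (S.C w) w) (k := fun w => S.Xc (S.D w) w)
    (r := S.sg) fun s w a => h.iC s w a.1
  have b2 : P.E (fun w => ind (∃ s, S.A1 P s w) * S.pY (S.C w) w) =
      P.E (fun w => ind (∃ s, S.A1 P s w ∧ ¬ S.AY2 P s w) * S.pY (S.C w) w) +
      P.E (fun w => ind (∃ s, S.A1 P s w ∧ S.AY2 P s w) * S.pY (S.C w) w) :=
    E_spl z1 (fun s w a => h2.Az s w a.1) (fun w => S.pY (S.C w) w)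
  have b3 : P.E (fun w => ind (∃ s, S.A1 P s w ∧ ¬ S.AY2 P s w) * S.pY (S.C w) w) ≤
      S.lam * P.Pr (fun w => ∃ s, S.A1 P s w ∧ ¬ S.AY2 P s w) + L * S.kap * P.Pr (fun w => ∃ s, zz s w) +
        L * bp P S.C S.VC S.XC (S.A1 P) S.pY S.kap S.lam S.K T S.c2 :=
    one_cov h2.FC z1 h2.zT (evA1 h2) (fun s w a => h2.Az s w a.1) h2.l0 h2.k0 h2.L0 h.Lp h.vY fun _ => rfl
  have b4 := Sys.E_le_Pr (P := P) (A := fun s w => S.A1 P s w ∧ S.AY2 P s w) (ψ := fun w => S.pY (S.C w) w) h.Lp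
  have b5 : P.E (fun w => ind (∃ s, S.A1 P s w) * S.Xc (S.D w) w) =
      P.E (fun w => ind (∃ s, S.A1 P s w ∧ ¬ S.AX2 P s w) * S.Xc (S.D w) w) +
      P.E (fun w => ind (∃ s, S.A1 P s w ∧ S.AX2 P s w) * S.Xc (S.D w) w) :=
    E_spl z1 (fun s w a => h2.Az s w a.1) (fun w => S.Xc (S.D w) w)
  have b6 : P.E (fun w => ind (∃ s, S.A1 P s w ∧ ¬ S.AX2 P s w) * S.Xc (S.D w) w) ≤
      S.lam * P.Pr (fun w => ∃ s, S.A1 P s w ∧ ¬ S.AX2 P s w) + L * S.kap * P.Pr (fun w => ∃ s, zz s w) +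
        L * bp P S.D S.VD S.XD (S.A1 P) S.Xc S.kap S.lam S.K T S.d2 :=
    one_cov h2.FD z1 h2.zT (evA1 h2) (fun s w a => h2.Az s w a.1) h2.l0 h2.k0 h2.L0 h.Lc h.vXc fun _ => rfl
  have b7 := Sys.E_le_Pr (P := P) (A := fun s w => S.A1 P s w ∧ S.AX2 P s w) (ψ := fun w => S.Xc (S.D w) w) h.Lc
  have b8 : S.lam * P.Pr (fun w => ∃ s, S.A1 P s w ∧ ¬ S.AY2 P s w) ≤ S.lam * P.Pr (fun w => ∃ s, S.A1 P s w) :=
    mul_le_mul_of_nonneg_left (P.Pr_mono fun w _ ⟨s, a⟩ => ⟨s, a.1⟩) h2.l0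
  have b9 : S.lam * P.Pr (fun w => ∃ s, S.A1 P s w ∧ ¬ S.AX2 P s w) ≤ S.lam * P.Pr (fun w => ∃ s, S.A1 P s w) :=
    mul_le_mul_of_nonneg_left (P.Pr_mono fun w _ ⟨s, a⟩ => ⟨s, a.1⟩) h2.l0
  have t1 : S.lam * P.Pr (fun w => ∃ s, S.A s w) = S.lam * P.Pr (fun w => ∃ s, S.E1 P s w) +
      S.lam * P.Pr (fun w => ∃ s, S.A1 P s w) := by
    rw [q1]
    ring
  have t2 : S.lam * P.Pr (fun w => ∃ s, S.E1 P s w) = S.lam * P.Pr (fun w => ∃ s, S.E1 P s w ∧ ¬ S.AY1 P s w) +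
      S.lam * P.Pr (fun w => ∃ s, S.G1 P s w) := by
    rw [q2]
    ring
  unfold bad5
  linarith

/-- **THREE COVERS**, the relation sees the top of `(b, c)` -/
theorem gx (h : S.Ok P W zz T L ψ) :
    P.E (fun w => ind (∃ s, S.A s w) * ψ w) ≤ 2 * (S.lam * P.Pr (fun w => ∃ s, S.A s w)) +
      3 * (L * S.kap * P.Pr (fun w => ∃ s, zz s w)) + L * S.bad3 P T +
      L * (P.Pr (fun w => ∃ s, S.G1 P s w ∧ S.AU P s w) + P.Pr (fun w => ∃ s, S.A1 P s w ∧ S.AU P s w)) +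
      P.E (fun w => ind (∃ s, S.A s w) * S.sg w) := by
  have z1 := h.z1
  have s1 : P.E (fun w => ind (∃ s, S.A s w) * ψ w) = P.E (fun w => ind (∃ s, S.E1 P s w) * ψ w) +
      P.E (fun w => ind (∃ s, S.A1 P s w) * ψ w) := E_spl z1 h.Az ψ
  have sg1 : P.E (fun w => ind (∃ s, S.A s w) * S.sg w) = P.E (fun w => ind (∃ s, S.E1 P s w) * S.sg w) +
      P.E (fun w => ind (∃ s, S.A1 P s w) * S.sg w) := E_spl z1 h.Az S.sg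
  have sg2 : 0 ≤ P.E (fun w => ind (∃ s, S.A1 P s w) * S.sg w) :=
    P.E_nonneg fun w _ => mul_nonneg (ind_nonneg _) (h.sg0 w)
  have q1 : P.Pr (fun w => ∃ s, S.A s w) = P.Pr (fun w => ∃ s, S.E1 P s w) + P.Pr (fun w => ∃ s, S.A1 P s w) :=
    Pr_spl z1 h.Az
  have a1 := E_three (P := P) (A := S.E1 P) (ψ := ψ) (g := fun w => S.pZ (S.B w) w)
    (k := fun w => S.Yb (S.C w) w) (r := S.sg) fun s w a => h.iY s w a.1
  have a3 : P.E (fun w => ind (∃ s, S.E1 P s w) * S.pZ (S.B w) w) ≤ S.lam * P.Pr (fun w => ∃ s, S.E1 P s w) +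
      L * S.kap * P.Pr (fun w => ∃ s, zz s w) + L * bp P S.B S.VB S.XB S.A S.pZ S.kap S.lam S.K T S.b1 :=
    one_cov h.FB z1 h.zT h.evA h.Az h.l0 h.k0 h.L0 h.LZ h.vZ fun _ => rfl
  have a4 : P.E (fun w => ind (∃ s, S.E1 P s w ∧ ¬ S.AY1 P s w) * S.Yb (S.C w) w) ≤
      S.lam * P.Pr (fun w => ∃ s, S.E1 P s w ∧ ¬ S.AY1 P s w) + L * S.kap * P.Pr (fun w => ∃ s, zz s w) +
        L * bp P S.C S.VC S.XC (S.E1 P) S.Yb S.kap S.lam S.K T S.c1 :=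
    one_cov h.FC z1 h.zT (evE1 h) (fun s w a => h.Az s w a.1) h.l0 h.k0 h.L0 h.LY h.vYb fun _ => rfl
  have a5 : P.E (fun w => ind (∃ s, S.E1 P s w) * S.Yb (S.C w) w) =
      P.E (fun w => ind (∃ s, S.E1 P s w ∧ ¬ S.AY1 P s w) * S.Yb (S.C w) w) +
      P.E (fun w => ind (∃ s, S.G1 P s w) * S.Yb (S.C w) w) :=
    E_spl z1 (fun s w a => h.Az s w a.1) (fun w => S.Yb (S.C w) w)
  have a6 := Sys.E_le_Pr (P := P) (A := S.G1 P) (ψ := fun w => S.Yb (S.C w) w) h.LY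
  have a7 := Sys.E_le_Pr (P := P) (A := S.A1 P) (ψ := ψ) h.Lψ
  have a8 : S.lam * P.Pr (fun w => ∃ s, S.E1 P s w ∧ ¬ S.AY1 P s w) ≤ S.lam * P.Pr (fun w => ∃ s, S.E1 P s w) :=
    mul_le_mul_of_nonneg_left (P.Pr_mono fun w _ ⟨s, a⟩ => ⟨s, a.1⟩) h.l0
  -- the unsigned cover
  have m1 : P.Pr (fun w => ∃ s, S.A s w ∧ ¬ S.AU P s w) ≤ S.kap * P.Pr (fun w => ∃ s, zz s w) +
      bp P S.D S.VD S.XD S.A (fun _ _ => 1) S.kap 1 S.K T S.d1 := one_mass h.FD z1 h.zT h.evA h.Az h.k0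
  have r1 : P.Pr (fun w => ∃ s, S.G1 P s w) = P.Pr (fun w => ∃ s, S.G1 P s w ∧ ¬ S.AU P s w) +
      P.Pr (fun w => ∃ s, S.G1 P s w ∧ S.AU P s w) := Pr_spl z1 (fun s w a => h.Az s w a.1.1)
  have r2 : P.Pr (fun w => ∃ s, S.A1 P s w) = P.Pr (fun w => ∃ s, S.A1 P s w ∧ ¬ S.AU P s w) +
      P.Pr (fun w => ∃ s, S.A1 P s w ∧ S.AU P s w) := Pr_spl z1 (fun s w a => h.Az s w a.1)
  have r4 : P.Pr (fun w => ∃ s, S.G1 P s w ∧ ¬ S.AU P s w) + P.Pr (fun w => ∃ s, S.A1 P s w ∧ ¬ S.AU P s w) ≤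
      P.Pr (fun w => ∃ s, S.A s w ∧ ¬ S.AU P s w) := by
    rw [Pr_spl (P := P) z1 (A := fun s w => S.A s w ∧ ¬ S.AU P s w) (B := S.AZ P) (fun s w a => h.Az s w a.1)]
    refine add_le_add ?_ ?_
    · exact P.Pr_mono fun w _ ⟨s, a, b⟩ => ⟨s, ⟨a.1.1, b⟩, a.1.2⟩
    · exact P.Pr_mono fun w _ ⟨s, a, b⟩ => ⟨s, ⟨a.1, b⟩, a.2⟩
  have m3 := mul_le_mul_of_nonneg_left (r4.trans m1) h.L0
  have m4 : L * P.Pr (fun w => ∃ s, S.G1 P s w) + L * P.Pr (fun w => ∃ s, S.A1 P s w) =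
      L * (P.Pr (fun w => ∃ s, S.G1 P s w ∧ ¬ S.AU P s w) + P.Pr (fun w => ∃ s, S.A1 P s w ∧ ¬ S.AU P s w)) +
      L * (P.Pr (fun w => ∃ s, S.G1 P s w ∧ S.AU P s w) + P.Pr (fun w => ∃ s, S.A1 P s w ∧ S.AU P s w)) := by
    rw [r1, r2]
    ring
  have n1 : 0 ≤ S.lam * P.Pr (fun w => ∃ s, S.A1 P s w) := mul_nonneg h.l0 (P.Pr_nonneg _)
  have t1 : S.lam * P.Pr (fun w => ∃ s, S.A s w) = S.lam * P.Pr (fun w => ∃ s, S.E1 P s w) +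
      S.lam * P.Pr (fun w => ∃ s, S.A1 P s w) := by
    rw [q1]
    ring
  unfold bad3
  linarith

end Sy

/-! ## with the bounds of the both terms -/

section all

variable {β γ δ ωB ωC ωD : Type*} {κB κC κD : ℕ → Type*} {M : ℕ} {S : Sy Om β γ δ ωB ωC ωD κB κC κD M}
  {zz Rs ub uc ud : ℕ → Om → Prop} {T : ℕ} {L b : ℝ} {ψ : Om → ℝ} {κb κc κd κ1 κ2 κ3 : ℕ → Type*}
  {Nb : ∀ t, Om → κb t} {Nc : ∀ t, Om → κc t} {Nd : ∀ t, Om → κd t} {Y1 : ∀ t, Om → κ1 t}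
  {Y2 : ∀ t, Om → κ2 t} {Y3 : ∀ t, Om → κ3 t}

/-- the sights at `b` and `c` : `Y1` = `(b, c)`, `Y2` = `(b, d)`, `Y3` = `(c, d)` -/
structure Sv2 (P : FP Om) (S : Sy Om β γ δ ωB ωC ωD κB κC κD M) (zz Rs ub uc : ℕ → Om → Prop)
    (Nb : ∀ t, Om → κb t) (Nc : ∀ t, Om → κc t) (Y1 : ∀ t, Om → κ1 t) (Y2 : ∀ t, Om → κ2 t)
    (Y3 : ∀ t, Om → κ3 t) : Prop where
  cib : CI P Nb Y1 Y2
  cic : CI P Nc Y1 Y3
  zb : ∀ s x w, Nb s x = Nb s w → (zz s x ↔ zz s w)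
  zc : ∀ s x w, Nc s x = Nc s w → (zz s x ↔ zz s w)
  hub : ∀ s x w, Nb s x = Nb s w → (ub s x ↔ ub s w)
  huc : ∀ s x w, Nc s x = Nc s w → (uc s x ↔ uc s w)
  w1 : ∀ s, Fac (Y1 s) S.VD
  w2 : ∀ s, Fac (Y2 s) S.VC
  w3 : ∀ s, Fac (Y3 s) S.VB
  Ab : ∀ s w, S.A s w → ub s w
  Ac : ∀ s w, S.A s w → uc s w
  AR : ∀ s w, S.A s w → Rs s w

/-- the sight at `d` -/
structure Sv3 (P : FP Om) (S : Sy Om β γ δ ωB ωC ωD κB κC κD M) (zz Rs ub uc ud : ℕ → Om → Prop)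
    (Nb : ∀ t, Om → κb t) (Nc : ∀ t, Om → κc t) (Nd : ∀ t, Om → κd t) (Y1 : ∀ t, Om → κ1 t)
    (Y2 : ∀ t, Om → κ2 t) (Y3 : ∀ t, Om → κ3 t) : Prop extends Sv2 P S zz Rs ub uc Nb Nc Y1 Y2 Y3 where
  cid : CI P Nd Y2 Y3
  zd : ∀ s x w, Nd s x = Nd s w → (zz s x ↔ zz s w)
  hud : ∀ s x w, Nd s x = Nd s w → (ud s x ↔ ud s w)
  Ad : ∀ s w, S.A s w → ud s w

/-- **THE THREE-BODY TERM AT `T^0`, ALL VERTICES UNDECIDED** -/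
theorem r0_all (h : S.Okr P W zz T L ψ) (g : Sv3 P S zz Rs ub uc ud Nb Nc Nd Y1 Y2 Y3) :
    P.E (fun w => ind (∃ s, S.A s w) * ψ w) ≤ 2 * (S.lam * P.Pr (fun w => ∃ s, S.A s w)) +
      5 * (L * S.kap * P.Pr (fun w => ∃ s, zz s w)) + L * S.bad5 P T +
      L * (Real.sqrt b * ((cz P zz (S.AX1 P) + cz P zz (S.AY1 P) + cz P zz (S.AY2 P) + cz P zz (S.AX2 P) +
        2 * cz P zz (S.AZ P)) / 2)) +
      L * (exc P zz Nb Rs ub b + exc P zz Nc Rs uc b + exc P zz Nd Rs ud b) +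
      P.E (fun w => ind (∃ s, S.A s w) * S.sg w) := by
  have h2 := h.toOk
  have g2 := g.toSv2
  have h0 := Sy.r0 h
  have e1 : P.Pr (fun w => ∃ s, S.G1 P s w ∧ S.AX1 P s w) ≤ _ :=
    both_cov (P := P) (zz := zz) (ub := ub) (Rs := Rs) (T := T) (b := b) (E := S.E1 P) (c := S.AY1 P)
    (c' := S.AX1 P) g2.cib g2.zb g2.hub h2.z1 h2.zT g2.w1 g2.w2
    (fun s w a => ⟨h2.Az s w a.1, g2.Ab s w a.1, g2.AR s w a.1⟩) (cv_V h2.FC) (cv_V h2.FD)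
  have e2 : P.Pr (fun w => ∃ s, S.A1 P s w ∧ S.AY2 P s w) ≤ _ :=
    both_cov (P := P) (zz := zz) (ub := ud) (Rs := Rs) (T := T) (b := b) (E := S.A) (c := S.AZ P)
    (c' := S.AY2 P) g.cid g.zd g.hud h2.z1 h2.zT g2.w2 g2.w3
    (fun s w a => ⟨h2.Az s w a, g.Ad s w a, g2.AR s w a⟩) (cv_V h2.FB) (cv_V h2.FC)
  have e3 : P.Pr (fun w => ∃ s, S.A1 P s w ∧ S.AX2 P s w) ≤ _ :=
    both_cov (P := P) (zz := zz) (ub := uc) (Rs := Rs) (T := T) (b := b) (E := S.A) (c := S.AZ P)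
    (c' := S.AX2 P) g2.cic g2.zc g2.huc h2.z1 h2.zT g2.w1 g2.w3
    (fun s w a => ⟨h2.Az s w a, g2.Ac s w a, g2.AR s w a⟩) (cv_V h2.FB) (cv_V h2.FD)
  have f1 := mul_le_mul_of_nonneg_left e1 h2.L0
  have f2 := mul_le_mul_of_nonneg_left e2 h2.L0
  have f3 := mul_le_mul_of_nonneg_left e3 h2.L0
  unfold cz exc
  linarith

/-- **THE THREE-BODY TERM AT `T^0`, THE RELATION SEES THE TOP OF `(b, c)`** -/
theorem gx_all (h : S.Ok P W zz T L ψ) (g : Sv2 P S zz Rs ub uc Nb Nc Y1 Y2 Y3) :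
    P.E (fun w => ind (∃ s, S.A s w) * ψ w) ≤ 2 * (S.lam * P.Pr (fun w => ∃ s, S.A s w)) +
      3 * (L * S.kap * P.Pr (fun w => ∃ s, zz s w)) + L * S.bad3 P T +
      L * (Real.sqrt b * ((2 * cz P zz (S.AU P) + cz P zz (S.AY1 P) + cz P zz (S.AZ P)) / 2)) +
      L * (exc P zz Nb Rs ub b + exc P zz Nc Rs uc b) + P.E (fun w => ind (∃ s, S.A s w) * S.sg w) := by
  have h0 := Sy.gx h
  have e1 : P.Pr (fun w => ∃ s, S.G1 P s w ∧ S.AU P s w) ≤ _ :=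
    both_cov (P := P) (zz := zz) (ub := ub) (Rs := Rs) (T := T) (b := b) (E := S.E1 P) (c := S.AY1 P)
    (c' := S.AU P) g.cib g.zb g.hub h.z1 h.zT g.w1 g.w2
    (fun s w a => ⟨h.Az s w a.1, g.Ab s w a.1, g.AR s w a.1⟩) (cv_V h.FC) (cv_V h.FD)
  have e2 : P.Pr (fun w => ∃ s, S.A1 P s w ∧ S.AU P s w) ≤ _ :=
    both_cov (P := P) (zz := zz) (ub := uc) (Rs := Rs) (T := T) (b := b) (E := S.A) (c := S.AZ P)
    (c' := S.AU P) g.cic g.zc g.huc h.z1 h.zT g.w1 g.w3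
    (fun s w a => ⟨h.Az s w a, g.Ac s w a, g.AR s w a⟩) (cv_V h.FB) (cv_V h.FD)
  have f1 := mul_le_mul_of_nonneg_left e1 h.L0
  have f2 := mul_le_mul_of_nonneg_left e2 h.L0
  unfold cz exc
  linarith

end all

end

end Pool.Agent.GMH.GhoZ3
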