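import Pool.Agent.GMH.GhoZ5

/-!
# GMH/GhoZ6 (helper85): UNSIGNED KINDS `H`, `HT` AT `T^0` (H3.UNM, U.5), fixed `a`

* `hk` : two unsigned covers, both covered at the undecided vertex (kind `H`: hot and far pairs);
* `ht` : three unsigned covers, Loomis - Whitney at the node (kind `HT`: hot triples).
-/

set_option autoImplicit false
set_option linter.unusedSectionVars false

namespace Pool.Agent.GMH.GhoZ3

open Finset Pool.Agent.PWZ Pool.Agent.M3 Pool.Agent.GMH.Gdy Pool.Agent.GMH.Blk Pool.Agent.GMH.GhoZ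

noncomputable section

variable {Om : Type*} [Fintype Om] {P : FP Om} {ω : Type*} {W : Om → ω} {α β α' β' α'' β'' : Type*}
  {κ κ' κ'' κn κb κc κ1 κ2 κ3 : ℕ → Type*} {zz Rs ub A : ℕ → Om → Prop} {U : Om → α} {V : Om → β} {X : ∀ t, Om → κ t}
  {U' : Om → α'} {V' : Om → β'} {X' : ∀ t, Om → κ' t} {U'' : Om → α''} {V'' : Om → β''} {X'' : ∀ t, Om → κ'' t}
  {kap kap' kap'' b t : ℝ} {K K' K'' M M' M'' T : ℕ} {x : Fin M → α} {x' : Fin M' → α'} {x'' : Fin M'' → α''}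
  {nd : ∀ t, Om → κn t} {Nb : ∀ t, Om → κb t} {Nc : ∀ t, Om → κc t} {Y1 : ∀ t, Om → κ1 t} {Y2 : ∀ t, Om → κ2 t}
  {Y3 : ∀ t, Om → κ3 t}

/-- unsigned cover -/
def cu (P : FP Om) (U : Om → α) (V : Om → β) (X : ∀ t, Om → κ t) (A : ℕ → Om → Prop) (kap : ℝ) (K : ℕ)
    (x : Fin M → α) : ℕ → Om → Prop := cv P U V X A (fun _ _ => 1) kap 1 K x

/-- its bad probability -/
def bu (P : FP Om) (U : Om → α) (V : Om → β) (X : ∀ t, Om → κ t) (A : ℕ → Om → Prop) (kap : ℝ) (K T : ℕ)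
    (x : Fin M → α) : ℝ := bp P U V X A (fun _ _ => 1) kap 1 K T x

/-- two unsigned covers one after the other -/
theorem two_mass (F : Face P W zz U V X) (F' : Face P W zz U' V' X') (z1 : ∀ w s s', zz s w → zz s' w → s = s')
    (zT : ∀ s w, zz s w → s < T) (hA : Ev W A) (hAz : ∀ s w, A s w → zz s w) (k0 : 0 ≤ kap) (k0' : 0 ≤ kap') :
    P.Pr (fun w => ∃ s, A s w) ≤ (kap + kap') * P.Pr (fun w => ∃ s, zz s w) +
      (bu P U V X A kap K T x + bu P U' V' X' A kap' K' T x') +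
      P.Pr (fun w => ∃ s, (A s w ∧ cu P U V X A kap K x s w) ∧ cu P U' V' X' A kap' K' x' s w) := by
  have e1 := Pr_spl (P := P) z1 (A := A) (B := cu P U V X A kap K x) hAz
  have e2 := Pr_spl (P := P) z1 (A := fun s w => A s w ∧ cu P U V X A kap K x s w)
    (B := cu P U' V' X' A kap' K' x') (fun s w a => hAz s w a.1)
  have e3 : P.Pr (fun w => ∃ s, A s w ∧ ¬ cu P U V X A kap K x s w) ≤
      kap * P.Pr (fun w => ∃ s, zz s w) + bu P U V X A kap K T x := one_mass F z1 zT hA hAz k0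
  have e4 : P.Pr (fun w => ∃ s, A s w ∧ ¬ cu P U' V' X' A kap' K' x' s w) ≤
      kap' * P.Pr (fun w => ∃ s, zz s w) + bu P U' V' X' A kap' K' T x' := one_mass F' z1 zT hA hAz k0'
  have e5 : P.Pr (fun w => ∃ s, (A s w ∧ cu P U V X A kap K x s w) ∧ ¬ cu P U' V' X' A kap' K' x' s w) ≤
      P.Pr (fun w => ∃ s, A s w ∧ ¬ cu P U' V' X' A kap' K' x' s w) :=
    P.Pr_mono fun w _ ⟨s, a, a'⟩ => ⟨s, a.1, a'⟩
  rw [e1, e2]
  linarith

/-- **KIND `H`** -/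
theorem hk (F : Face P W zz U V X) (F' : Face P W zz U' V' X') (z1 : ∀ w s s', zz s w → zz s' w → s = s')
    (zT : ∀ s w, zz s w → s < T) (hA : Ev W A) (hAz : ∀ s w, A s w → zz s w) (k0 : 0 ≤ kap) (k0' : 0 ≤ kap')
    (hci : CI P Nb Y1 Y2) (hz : ∀ s x w, Nb s x = Nb s w → (zz s x ↔ zz s w))
    (hu : ∀ s x w, Nb s x = Nb s w → (ub s x ↔ ub s w)) (h1 : ∀ s, Fac (Y1 s) V') (h2 : ∀ s, Fac (Y2 s) V)
    (hE : ∀ s w, A s w → ub s w ∧ Rs s w) :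
    P.Pr (fun w => ∃ s, A s w) ≤ (kap + kap') * P.Pr (fun w => ∃ s, zz s w) +
      (bu P U V X A kap K T x + bu P U' V' X' A kap' K' T x') +
      Real.sqrt b * ((cz P zz (cu P U' V' X' A kap' K' x') + cz P zz (cu P U V X A kap K x)) / 2) +
      exc P zz Nb Rs ub b := by
  have e1 := two_mass (P := P) (K := K) (x := x) (K' := K') (x' := x') F F' z1 zT hA hAz k0 k0'
  have e2 := both_cov (P := P) (zz := zz) (ub := ub) (Rs := Rs) (T := T) (b := b) (E := A)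
    (c := cu P U V X A kap K x) (c' := cu P U' V' X' A kap' K' x') hci hz hu z1 zT h1 h2
    (fun s w a => ⟨hAz s w a, hE s w a⟩) (cv_V F) (cv_V F')
  unfold cz exc
  linarith

/-- **KIND `HT`** : faces `F` : `U = b` over `(c, d)`, `F'` : `c` over `(b, d)`, `F''` : `d` over `(b, c)` -/
theorem ht (F : Face P W zz U V X) (F' : Face P W zz U' V' X') (F'' : Face P W zz U'' V'' X'')
    (z1 : ∀ w s s', zz s w → zz s' w → s = s') (zT : ∀ s w, zz s w → s < T) (hA : Ev W A)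
    (hAz : ∀ s w, A s w → zz s w) (k0 : 0 ≤ kap) (k0' : 0 ≤ kap') (k0'' : 0 ≤ kap'') (h0 : CI P nd Nb Nc)
    (hb : CI P Nb Y1 Y2) (hc : CI P Nc Y1 Y3) (f1 : ∀ s, Fac (Y1 s) (Nb s)) (f2 : ∀ s, Fac (Y1 s) (Nc s))
    (f3 : ∀ s, Fac (Nb s) (nd s)) (f4 : ∀ s, Fac (Nc s) (nd s)) (hz : ∀ s x w, nd s x = nd s w → (zz s x ↔ zz s w))
    (h1 : ∀ s, Fac (Y1 s) V'') (h2 : ∀ s, Fac (Y2 s) V') (h3 : ∀ s, Fac (Y3 s) V) (hE : ∀ s w, A s w → Rs s w)
    (t0 : 0 ≤ t) (ht : b ≤ t ^ 3) :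
    P.Pr (fun w => ∃ s, A s w) ≤ (kap + kap' + kap'') * P.Pr (fun w => ∃ s, zz s w) +
      (bu P U V X A kap K T x + bu P U' V' X' A kap' K' T x' + bu P U'' V'' X'' A kap'' K'' T x'') +
      t * ((cz P zz (cu P U'' V'' X'' A kap'' K'' x'') + cz P zz (cu P U' V' X' A kap' K' x') +
        cz P zz (cu P U V X A kap K x)) / 3) + exc P zz nd Rs (fun _ _ => True) b := by
  have e1 := two_mass (P := P) (K := K) (x := x) (K' := K') (x' := x') F F' z1 zT hA hAz k0 k0'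
  have e2 := Pr_spl (P := P) z1 (A := fun s w => (A s w ∧ cu P U V X A kap K x s w) ∧ cu P U' V' X' A kap' K' x' s w)
    (B := cu P U'' V'' X'' A kap'' K'' x'') (fun s w a => hAz s w a.1.1)
  have e3 : P.Pr (fun w => ∃ s, A s w ∧ ¬ cu P U'' V'' X'' A kap'' K'' x'' s w) ≤
      kap'' * P.Pr (fun w => ∃ s, zz s w) + bu P U'' V'' X'' A kap'' K'' T x'' := one_mass F'' z1 zT hA hAz k0''
  have e4 : P.Pr (fun w => ∃ s, ((A s w ∧ cu P U V X A kap K x s w) ∧ cu P U' V' X' A kap' K' x' s w) ∧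
      ¬ cu P U'' V'' X'' A kap'' K'' x'' s w) ≤ P.Pr (fun w => ∃ s, A s w ∧ ¬ cu P U'' V'' X'' A kap'' K'' x'' s w) :=
    P.Pr_mono fun w _ ⟨s, a, a'⟩ => ⟨s, a.1.1, a'⟩
  have e5 := tri_cov (P := P) (zz := zz) (Rs := Rs) (T := T) (b := b) (t := t) (E := A)
    (c1 := cu P U'' V'' X'' A kap'' K'' x'') (c2 := cu P U' V' X' A kap' K' x') (c3 := cu P U V X A kap K x)
    h0 hb hc f1 f2 f3 f4 hz z1 zT h1 h2 h3 (fun s w a => ⟨hAz s w a, hE s w a⟩) (cv_V F'') (cv_V F') (cv_V F) t0 ht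
  have e6 : P.Pr (fun w => ∃ s, ((A s w ∧ cu P U V X A kap K x s w) ∧ cu P U' V' X' A kap' K' x' s w) ∧
      cu P U'' V'' X'' A kap'' K'' x'' s w) ≤ P.Pr (fun w => ∃ s, A s w ∧ cu P U'' V'' X'' A kap'' K'' x'' s w ∧
        cu P U' V' X' A kap' K' x' s w ∧ cu P U V X A kap K x s w) :=
    P.Pr_mono fun w _ ⟨s, a, a'⟩ => ⟨s, a.1.1, a', a.2, a.1.2⟩
  have e7 : P.Pr (fun w => ∃ s, zz s w ∧ b < cp P nd s (Rs s) w ∧ Rs s w) =
      exc P zz nd Rs (fun _ _ => True) b := by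
    unfold exc
    simp only [and_true]
  rw [e7] at e5
  unfold cz
  linarith

end

end Pool.Agent.GMH.GhoZ3
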