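import Pool.Agent.GMH.Tree

/-!
# GMH/Ghost (helper60): RELEASE BY AVERAGES OVER ALL WORLDS (note 4001 (2))

A row is not tested at the current node but against the sum over all worlds in which it is taken: the decision is a function
of the exact row `Z` only (for example `Z = (b, c)`: it does not look at the path of `d`), and it is made level by level.

* `ladder` : for real sequences `a, b` and `L` : at the levels `s` with `∑_{i ≤ s} a i ≤ L ∑_{i ≤ s} b i` the sum of `a` is
  at most `L` times the sum of `b`;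
* `sel` : the decision; `ghost_signed` : `E[∑_s 1(A s, sel s) ψ] ≤ L P(A s, sel s, R for some s)`;
* `ghost_le` : the same for one event with pairwise disjoint `A s`.
-/

set_option autoImplicit false
set_option linter.unusedSectionVars false

namespace Pool.Agent.GMH.Ghost

open Finset Pool.Agent.PWZ Pool.Agent.M3 Pool.Agent.GMH.Gdy Pool.Agent.GMH.CR Pool.Agent.GMH.Three Pool.Agent.GMH.Tree

noncomputable section

/-- **THE LADDER** (strong form): the sum over the good levels is at most the final value and at most `0` -/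
theorem ladder_aux (f : ℕ → ℝ) (h0 : f 0 ≤ 0) (T : ℕ) :
    ∑ s ∈ range T, (if f (s + 1) ≤ 0 then f (s + 1) - f s else 0) ≤ min (f T) 0 - f 0 := by
  induction T with
  | zero => simp [h0]
  | succ n ih =>
    rw [Finset.sum_range_succ]
    by_cases h : f (n + 1) ≤ 0
    · rw [if_pos h, min_eq_left h]
      have := min_le_left (f n) 0
      linarith
    · rw [if_neg h, min_eq_right (not_le.mp h).le]
      have := min_le_right (f n) 0
      linarith

/-- **THE LADDER** -/
theorem ladder (a b : ℕ → ℝ) (L : ℝ) (T : ℕ) :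
    ∑ s ∈ range T, (if ∑ i ∈ range (s + 1), a i ≤ L * ∑ i ∈ range (s + 1), b i then a s else 0) ≤
      L * ∑ s ∈ range T, (if ∑ i ∈ range (s + 1), a i ≤ L * ∑ i ∈ range (s + 1), b i then b s else 0) := by
  set f : ℕ → ℝ := fun n => ∑ i ∈ range n, a i - L * ∑ i ∈ range n, b i with hf
  have h1 := ladder_aux f (by simp [hf]) T
  have h2 : min (f T) 0 - f 0 ≤ 0 := by
    have := min_le_right (f T) 0
    have h3 : f 0 = 0 := by simp [hf]
    linarith
  have h3 := h1.trans h2
  rw [Finset.mul_sum, ← sub_nonpos, ← Finset.sum_sub_distrib]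
  refine le_trans (le_of_eq (Finset.sum_congr rfl fun s _ => ?_)) h3
  have e1 : f (s + 1) - f s = a s - L * b s := by
    simp only [hf, Finset.sum_range_succ]
    ring
  by_cases h : ∑ i ∈ range (s + 1), a i ≤ L * ∑ i ∈ range (s + 1), b i
  · have h4 : f (s + 1) ≤ 0 := by
      show ∑ i ∈ range (s + 1), a i - L * ∑ i ∈ range (s + 1), b i ≤ 0
      linarith
    rw [if_pos h, if_pos h, if_pos h4, e1]
  · have h4 : ¬ f (s + 1) ≤ 0 := fun h5 => h (by
      have h6 : ∑ i ∈ range (s + 1), a i - L * ∑ i ∈ range (s + 1), b i ≤ 0 := h5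
      linarith)
    rw [if_neg h, if_neg h, if_neg h4]
    ring

variable {Om : Type*} [Fintype Om] (P : FP Om) {κ : Type*} (Z : Om → κ) (A : ℕ → Om → Prop) (R : Om → Prop)
  (ψ : Om → ℝ) (L : ℝ)

/-- **THE DECISION**: the sum of `ψ` over all worlds of the row in which something is taken up to the level `s`, against
`L` times the mass of `R` there -/
def sel (s : ℕ) (w : Om) : Prop :=
  ∑ i ∈ range (s + 1), P.ce Z (fun x => ind (A i x) * ψ x) w ≤
    L * ∑ i ∈ range (s + 1), P.ce Z (fun x => ind (A i x ∧ R x)) w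

variable {P Z A R ψ L}

theorem sel_fac (s : ℕ) (x w : Om) (h : Z x = Z w) : sel P Z A R ψ L s x ↔ sel P Z A R ψ L s w := by
  unfold sel
  rw [Finset.sum_congr rfl fun i _ => P.ce_fac Z (fun x => ind (A i x) * ψ x) x w h,
    Finset.sum_congr rfl fun i _ => P.ce_fac Z (fun x => ind (A i x ∧ R x)) x w h]

/-- **RELEASE BY AVERAGES**: the signed sum of the released part is at most `L` times the released mass of `R` -/
theorem ghost_signed (T : ℕ) :
    ∑ s ∈ range T, P.E (fun w => ind (A s w ∧ sel P Z A R ψ L s w) * ψ w) ≤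
      L * ∑ s ∈ range T, P.E (fun w => ind (A s w ∧ sel P Z A R ψ L s w ∧ R w)) := by
  have h1 : ∀ s, P.E (fun w => ind (A s w ∧ sel P Z A R ψ L s w) * ψ w) =
      P.E (fun w => ind (sel P Z A R ψ L s w) * P.ce Z (fun x => ind (A s x) * ψ x) w) := fun s => by
    rw [P.E_mul_ce (Fac.ind fun x w h => sel_fac s x w h)]
    exact P.E_congr fun w _ => by
      rw [ind_and]
      ring
  have h2 : ∀ s, P.E (fun w => ind (A s w ∧ sel P Z A R ψ L s w ∧ R w)) =
      P.E (fun w => ind (sel P Z A R ψ L s w) * P.ce Z (fun x => ind (A s x ∧ R x)) w) := fun s => by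
    rw [P.E_mul_ce (Fac.ind fun x w h => sel_fac s x w h)]
    exact P.E_congr fun w _ => by
      rw [ind_and, ind_and, ind_and]
      ring
  rw [Finset.sum_congr rfl fun s _ => h1 s, Finset.sum_congr rfl fun s _ => h2 s, ← FP.E_sum, ← FP.E_sum, ← FP.E_smul]
  refine P.E_mono fun w _ => ?_
  have h3 := ladder (fun s => P.ce Z (fun x => ind (A s x) * ψ x) w) (fun s => P.ce Z (fun x => ind (A s x ∧ R x)) w) L T
  have h4 : ∀ (s : ℕ) (r : ℝ), (if ∑ i ∈ range (s + 1), P.ce Z (fun x => ind (A i x) * ψ x) w ≤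
      L * ∑ i ∈ range (s + 1), P.ce Z (fun x => ind (A i x ∧ R x)) w then r else 0) =
      ind (sel P Z A R ψ L s w) * r := fun s r => by
    by_cases h : sel P Z A R ψ L s w
    · rw [ind_of h, one_mul]
      exact if_pos h
    · rw [ind_not h, zero_mul]
      exact if_neg h
  simp only [h4] at h3
  exact h3

/-- the same for one event: `A s` pairwise disjoint -/
theorem ghost_le {T : ℕ} (h1 : ∀ w s s', A s w → A s' w → s = s') (hT : ∀ w s, A s w → s < T) :
    P.E (fun w => ind (∃ s, A s w ∧ sel P Z A R ψ L s w) * ψ w) ≤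
      L * P.Pr (fun w => (∃ s, A s w ∧ sel P Z A R ψ L s w) ∧ R w) := by
  have h := ghost_signed (P := P) (Z := Z) (A := A) (R := R) (ψ := ψ) (L := L) T
  have e1 : P.E (fun w => ind (∃ s, A s w ∧ sel P Z A R ψ L s w) * ψ w) =
      ∑ s ∈ range T, P.E (fun w => ind (A s w ∧ sel P Z A R ψ L s w) * ψ w) := by
    rw [← FP.E_sum]
    refine P.E_congr fun w _ => ?_
    rw [← Finset.sum_mul, sum_ind' (A := fun s => A s w ∧ sel P Z A R ψ L s w) (fun s s' a b => h1 w s s' a.1 b.1)
      (fun s a => hT w s a.1)]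
  have e2 : P.Pr (fun w => (∃ s, A s w ∧ sel P Z A R ψ L s w) ∧ R w) =
      ∑ s ∈ range T, P.E (fun w => ind (A s w ∧ sel P Z A R ψ L s w ∧ R w)) := by
    unfold FP.Pr
    rw [← FP.E_sum]
    refine P.E_congr fun w _ => ?_
    rw [ind_and, ← sum_ind' (A := fun s => A s w ∧ sel P Z A R ψ L s w) (fun s s' a b => h1 w s s' a.1 b.1)
      (fun s a => hT w s a.1), Finset.sum_mul]
    exact Finset.sum_congr rfl fun s _ => by
      rw [ind_and, ind_and, ind_and]
      ring
  rw [e1, e2]
  exact h

end

end Pool.Agent.GMH.Ghost
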