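import Pool.Agent.GMH.Blk

/-!
# GMH/Grs (helper99): STATIC GREEDY COVERS WITH A RELATIVE THRESHOLD (decision 43561, note 3986 (B))

At one node (`X : Om → κ`), `M` rows: `H r` = section of the row `r`, `f r` = its weight.  The list of the rows is passed
again and again; at the step `n` the row `n % M` is taken if the uncovered part `A` of its section has mass `≥ kap` and
`lam P (A) ≤ E (1_A f)`.

* `gs n` : covered after `n` steps, `pc n` : the piece of the step `n`, disjoint (`pc_one`), `gs_iff`;
* `tkn_le` : the number of the pieces is at most `1 / kap`;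
* `stable` : after `M * K` steps, `K kap > 1`, no row of the list can be taken;
* `pay` : `lam P (gs n) ≤ E Σ 1[pc i] f`.
-/

set_option autoImplicit false
set_option linter.unusedSectionVars false

namespace Pool.Agent.GMH.Grs

open Finset Pool.Agent.PWZ Pool.Agent.M3

noncomputable section

variable {Om : Type*} [Fintype Om] {P : FP Om} {κ : Type*} {X : Om → κ} {H : ℕ → Om → Prop} {f : ℕ → Om → ℝ}
  {kap lam : ℝ} {M : ℕ}

variable (P X kap lam) in
/-- the event `A` with the weight `g` can be taken -/
def ok (A : Om → Prop) (g : Om → ℝ) (w : Om) : Prop :=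
  kap ≤ P.ce X (fun x => ind (A x)) w ∧ lam * P.ce X (fun x => ind (A x)) w ≤ P.ce X (fun x => ind (A x) * g x) w

variable (P X kap lam H f M) in
/-- covered after `n` steps -/
def gs : ℕ → Om → Prop
  | 0 => fun _ => False
  | n + 1 => fun w => gs n w ∨ (H (n % M) w ∧ ok P X kap lam (fun x => H (n % M) x ∧ ¬ gs n x) (f (n % M)) w)

variable (P X kap lam H f M) in
/-- the step `n` takes -/
def tkn (n : ℕ) (w : Om) : Prop :=
  ok P X kap lam (fun x => H (n % M) x ∧ ¬ gs P X H f kap lam M n x) (f (n % M)) w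

variable (P X kap lam H f M) in
/-- the piece of the step `n` -/
def pc (n : ℕ) (w : Om) : Prop := (H (n % M) w ∧ ¬ gs P X H f kap lam M n w) ∧ tkn P X H f kap lam M n w

theorem ok_fac (A : Om → Prop) (g : Om → ℝ) {x w : Om} (e : X x = X w) :
    ok P X kap lam A g x ↔ ok P X kap lam A g w := by
  unfold ok
  rw [P.ce_fac X (fun x => ind (A x)) x w e, P.ce_fac X (fun x => ind (A x) * g x) x w e]

theorem tkn_fac (n : ℕ) {x w : Om} (e : X x = X w) : tkn P X H f kap lam M n x ↔ tkn P X H f kap lam M n w :=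
  ok_fac _ _ e

theorem gs_succ (n : ℕ) (w : Om) : gs P X H f kap lam M (n + 1) w ↔
    gs P X H f kap lam M n w ∨ pc P X H f kap lam M n w := by
  show gs P X H f kap lam M n w ∨ (H (n % M) w ∧ tkn P X H f kap lam M n w) ↔ _
  unfold pc
  by_cases h : gs P X H f kap lam M n w
  · exact ⟨fun _ => Or.inl h, fun _ => Or.inl h⟩
  · constructor
    · rintro (h1 | ⟨h1, h2⟩)
      · exact Or.inl h1
      · exact Or.inr ⟨⟨h1, h⟩, h2⟩
    · rintro (h1 | ⟨⟨h1, _⟩, h2⟩)
      · exact Or.inl h1
      · exact Or.inr ⟨h1, h2⟩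

theorem gs_mono {n n' : ℕ} (h : n ≤ n') {w : Om} (hw : gs P X H f kap lam M n w) : gs P X H f kap lam M n' w := by
  induction n', h using Nat.le_induction with
  | base => exact hw
  | succ n' _ ih => exact (gs_succ n' w).2 (Or.inl ih)

theorem gs_iff (n : ℕ) (w : Om) : gs P X H f kap lam M n w ↔ ∃ i < n, pc P X H f kap lam M i w := by
  induction n with
  | zero => exact ⟨fun h => h.elim, fun ⟨i, hi, _⟩ => absurd hi (Nat.not_lt_zero i)⟩
  | succ n ih =>
    rw [gs_succ, ih]
    constructor
    · rintro (⟨i, hi, h⟩ | h)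
      · exact ⟨i, by omega, h⟩
      · exact ⟨n, by omega, h⟩
    · rintro ⟨i, hi, h⟩
      rcases Nat.lt_succ_iff_lt_or_eq.1 hi with h1 | h1
      · exact Or.inl ⟨i, h1, h⟩
      · exact Or.inr (h1 ▸ h)

/-- the pieces are disjoint -/
theorem pc_one {i j : ℕ} {w : Om} (h1 : pc P X H f kap lam M i w) (h2 : pc P X H f kap lam M j w) : i = j := by
  rcases lt_trichotomy i j with h | h | h
  · exact absurd ((gs_iff j w).2 ⟨i, h, h1⟩) h2.1.2
  · exact h
  · exact absurd ((gs_iff i w).2 ⟨j, h, h2⟩) h1.1.2

theorem ind_gs (n : ℕ) (w : Om) : ind (gs P X H f kap lam M n w) = ∑ i ∈ range n, ind (pc P X H f kap lam M i w) := by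
  rw [show gs P X H f kap lam M n w = (∃ i < n, pc P X H f kap lam M i w) from propext (gs_iff n w)]
  exact (Pool.Agent.GMH.CR.sum_ind (fun i j a b => pc_one a b) n).symm

/-- mass of a piece -/
theorem ce_pc (n : ℕ) (g : Om → ℝ) (w : Om) : P.ce X (fun x => ind (pc P X H f kap lam M n x) * g x) w =
    ind (tkn P X H f kap lam M n w) *
      P.ce X (fun x => ind (H (n % M) x ∧ ¬ gs P X H f kap lam M n x) * g x) w := by
  have hf : Fac X (fun x => ind (tkn P X H f kap lam M n x)) := Fac.ind fun x y e => tkn_fac n e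
  rw [← P.ce_mul hf]
  congr 1
  funext x
  show ind (pc P X H f kap lam M n x) * g x = ind (tkn P X H f kap lam M n x) *
    (ind (H (n % M) x ∧ ¬ gs P X H f kap lam M n x) * g x)
  unfold pc
  rw [ind_and (H (n % M) x ∧ ¬ gs P X H f kap lam M n x)]
  ring

theorem pc_ge (n : ℕ) (w : Om) : kap * ind (tkn P X H f kap lam M n w) ≤
    P.ce X (fun x => ind (pc P X H f kap lam M n x)) w := by
  have h1 := ce_pc (P := P) (X := X) (H := H) (f := f) (kap := kap) (lam := lam) (M := M) n (fun _ => 1) w
  simp only [mul_one] at h1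
  rw [h1]
  by_cases h2 : tkn P X H f kap lam M n w
  · rw [ind_of h2, mul_one, one_mul]
    exact h2.1
  · rw [ind_not h2, mul_zero, zero_mul]

/-- **the number of the pieces** -/
theorem tkn_le (n : ℕ) {w : Om} (hw : P.p w ≠ 0) :
    kap * ∑ i ∈ range n, ind (tkn P X H f kap lam M i w) ≤ 1 := by
  rw [Finset.mul_sum]
  refine (Finset.sum_le_sum fun i _ => pc_ge i w).trans ?_
  rw [← P.ce_sum]
  refine P.ce_le_const (fun x _ => ?_) hw
  rw [← ind_gs n x]
  exact ind_le_one _

/-- payment of the covers -/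
theorem pay_node (n : ℕ) (w : Om) : lam * P.ce X (fun x => ind (gs P X H f kap lam M n x)) w ≤
    P.ce X (fun x => ∑ i ∈ range n, ind (pc P X H f kap lam M i x) * f (i % M) x) w := by
  have e1 : (fun x => ind (gs P X H f kap lam M n x)) = fun x => ∑ i ∈ range n, ind (pc P X H f kap lam M i x) :=
    funext fun x => ind_gs n x
  rw [e1, P.ce_sum, P.ce_sum, Finset.mul_sum]
  refine Finset.sum_le_sum fun i _ => ?_
  rw [ce_pc]
  have h1 := ce_pc (P := P) (X := X) (H := H) (f := f) (kap := kap) (lam := lam) (M := M) i (fun _ => 1) w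
  simp only [mul_one] at h1
  rw [h1]
  by_cases h2 : tkn P X H f kap lam M i w
  · rw [ind_of h2, one_mul, one_mul]
    exact h2.2
  · rw [ind_not h2, zero_mul, zero_mul, mul_zero]

/-- a pass in which nothing is taken: nothing is taken any more -/
theorem stay (hM : 0 < M) {n : ℕ} {w : Om} (h : ∀ i < M, ¬ tkn P X H f kap lam M (n + i) w) :
    ∀ k, (∀ x, P.p x ≠ 0 → X x = X w → (gs P X H f kap lam M (n + k) x ↔ gs P X H f kap lam M n x)) ∧
      ¬ tkn P X H f kap lam M (n + k) w := by
  -- the covered set does not change during the pass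
  have st : ∀ k ≤ M, ∀ x, X x = X w → (gs P X H f kap lam M (n + k) x ↔ gs P X H f kap lam M n x) := by
    intro k
    induction k with
    | zero => intro _ x _; exact Iff.rfl
    | succ k ih =>
      intro hk x hx
      rw [← Nat.add_assoc, gs_succ, ih (by omega) x hx]
      refine ⟨fun h1 => h1.elim id fun h2 => absurd ((tkn_fac (n + k) hx).1 h2.2) (h k (by omega)), Or.inl⟩
  -- a step depends on the row and on the covered set only
  have same : ∀ a b : ℕ, a % M = b % M → (∀ x, P.p x ≠ 0 → X x = X w →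
      (gs P X H f kap lam M a x ↔ gs P X H f kap lam M b x)) →
      (tkn P X H f kap lam M a w ↔ tkn P X H f kap lam M b w) := by
    intro a b hab hg
    unfold tkn ok
    have e1 : ∀ g : Om → ℝ, P.ce X (fun x => ind (H (a % M) x ∧ ¬ gs P X H f kap lam M a x) * g x) w =
        P.ce X (fun x => ind (H (b % M) x ∧ ¬ gs P X H f kap lam M b x) * g x) w := fun g => by
      refine Pool.Agent.GMH.Gdy.ce_congr_on fun x hx hxw => ?_
      rw [hab, propext (hg x hx hxw)]
    have e2 := e1 (fun _ => 1)
    simp only [mul_one] at e2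
    rw [e2, e1 (f (a % M)), hab]
  intro k
  induction k using Nat.strong_induction_on with
  | _ k ih =>
    have g1 : ∀ x, P.p x ≠ 0 → X x = X w → (gs P X H f kap lam M (n + k) x ↔ gs P X H f kap lam M n x) := by
      intro x hx hxw
      rcases Nat.eq_zero_or_pos k with rfl | hk
      · exact Iff.rfl
      · obtain ⟨k', rfl⟩ : ∃ k', k = k' + 1 := ⟨k - 1, by omega⟩
        have h1 := ih k' (by omega)
        rw [← Nat.add_assoc, gs_succ, h1.1 x hx hxw]
        exact ⟨fun h2 => h2.elim id fun h3 => absurd ((tkn_fac (n + k') hxw).1 h3.2) h1.2, Or.inl⟩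
    refine ⟨g1, ?_⟩
    -- the same row in the pass
    obtain ⟨i, hi, him⟩ : ∃ i < M, (n + i) % M = (n + k) % M := ⟨k % M, Nat.mod_lt k hM, by rw [Nat.add_mod_mod]⟩
    refine fun h1 => h i hi ((same (n + i) (n + k) him fun x hx hxw => ?_).2 h1)
    rw [g1 x hx hxw]
    exact st i hi.le x hxw

/-- **after enough passes no row of the list can be taken** -/
theorem stable (hM : 0 < M) {K : ℕ} (hk : 0 ≤ kap) (hK : 1 < kap * K) {w : Om} (hw : P.p w ≠ 0) (r : ℕ) (hr : r < M) :
    ¬ ok P X kap lam (fun x => H r x ∧ ¬ gs P X H f kap lam M (M * K) x) (f r) w := by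
  classical
  -- a pass without taking
  obtain ⟨j, hj, hp⟩ : ∃ j < K, ∀ i < M, ¬ tkn P X H f kap lam M (M * j + i) w := by
    by_contra hcon
    push Not at hcon
    have h1 : (K : ℝ) ≤ ∑ n ∈ range (M * K), ind (tkn P X H f kap lam M n w) := by
      have h2 : ∀ k ≤ K, (k : ℝ) ≤ ∑ n ∈ range (M * k), ind (tkn P X H f kap lam M n w) := by
        intro k
        induction k with
        | zero => intro _; simp
        | succ k ih =>
          intro hkK
          obtain ⟨i, hi, ht⟩ := hcon k (by omega)
          have h3 := ih (by omega)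
          have h4 : M * (k + 1) = M * k + M := by ring
          rw [h4, Finset.sum_range_add, Nat.cast_succ]
          have h5 : (1 : ℝ) ≤ ∑ x ∈ range M, ind (tkn P X H f kap lam M (M * k + x) w) := by
            have h6 := Finset.single_le_sum (f := fun x => ind (tkn P X H f kap lam M (M * k + x) w))
              (fun x _ => ind_nonneg _) (mem_range.2 hi)
            rwa [ind_of ht] at h6
          linarith
      exact h2 K le_rfl
    have h7 := tkn_le (P := P) (X := X) (H := H) (f := f) (kap := kap) (lam := lam) (M := M) (M * K) hw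
    have h8 := mul_le_mul_of_nonneg_left h1 hk
    linarith
  have hst := stay hM hp
  -- the row `r` at the end
  have hMK : M * j ≤ M * K := Nat.mul_le_mul_left M hj.le
  have g1 := (hst (M * K - M * j)).1
  have g2 := (hst (M * K - M * j + r)).1
  have t2 := (hst (M * K - M * j + r)).2
  have e1 : M * j + (M * K - M * j) = M * K := by omega
  have e2 : M * j + (M * K - M * j + r) = M * K + r := by omega
  rw [e1] at g1
  rw [e2] at g2 t2
  have e3 : (M * K + r) % M = r := by rw [Nat.mul_add_mod, Nat.mod_eq_of_lt hr]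
  intro hok
  apply t2
  unfold tkn
  rw [e3]
  have e4 : ∀ g : Om → ℝ, P.ce X (fun x => ind (H r x ∧ ¬ gs P X H f kap lam M (M * K + r) x) * g x) w =
      P.ce X (fun x => ind (H r x ∧ ¬ gs P X H f kap lam M (M * K) x) * g x) w := fun g => by
    refine Pool.Agent.GMH.Gdy.ce_congr_on fun x hx hxw => ?_
    rw [propext (g2 x hx hxw), propext (g1 x hx hxw)]
  have e5 := e4 (fun _ => 1)
  simp only [mul_one] at e5
  unfold ok
  rw [e5, e4 (f r)]
  exact hok

/-- the cover sees what the rows see -/
theorem gs_fac {ρ : Type*} {Z : Om → ρ} (hX : Fac Z X) (hH : ∀ r x w, Z x = Z w → (H r x ↔ H r w)) (n : ℕ)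
    {x w : Om} (e : Z x = Z w) : gs P X H f kap lam M n x ↔ gs P X H f kap lam M n w := by
  induction n with
  | zero => exact Iff.rfl
  | succ n ih =>
    show gs P X H f kap lam M n x ∨ (H (n % M) x ∧ tkn P X H f kap lam M n x) ↔
      gs P X H f kap lam M n w ∨ (H (n % M) w ∧ tkn P X H f kap lam M n w)
    rw [ih, hH (n % M) x w e, tkn_fac n (hX x w e)]

end

end Pool.Agent.GMH.Grs
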