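import Pool.Agent.GMH.TopNT
import Pool.Agent.GMH.BitKL
import Pool.Agent.GMH.RelP

/-!
# GMH/HPair: two tops given what one of them sees (helper49, row F3 of H3.LEAN)

* `wt_ev` : weights are means of events; `E_lab1`, `E_lab2` : labels given the points;
* `own_E`, `own_lab` : the class of the own letter of one vertex (`OwQ`); `cls_lab2` : the class of what a top sees, both labels;
* `ev_own` : events and weights of the hidden point inside the own class of the common vertex of two tops: the law of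
  (letter of `i`, label of the top without `k`) does not move (`BitKL.face_exact`, `BitKL.let_one`);
* `wt_own`, `wt_let` : the same for weights; `two_let` : a letter does not move the own class of the other vertex;
* `cs3` : Cauchy - Schwarz for a nonnegative kernel (rows and columns);
* `pair_row` : the ROW bound, `pairE` : `PairE` for the states with old letters (`q = 5t, 5t+1, 5t+2, 5t+3, 5t+4`).

WARNING. `pair_row`, `pairE` are true, but useful only if the total surprise `X1` is below `n` (a row has exceptional points,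
whose surprise is of the order of `n`); the average over the class of ONE vertex is what `PairE` needs (HPair2).
-/

set_option autoImplicit false
set_option linter.unusedSectionVars false

namespace Pool.Agent.GMH.TP

open Finset Pool.Agent.PWZ Pool.Agent.M3 Pool.Agent.GM Pool.Agent.GM.Harm Pool.Agent.GMH Pool.Agent.GMH.NZ
open Pool.Agent.GMH.V3

noncomputable section

/-! ### weights -/

/-- **weights are means of events** -/
theorem wt_ev {X : Type} [Fintype X] (μ : FP X) {a b : X → ℝ} {B : ℝ}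
    (hE : ∀ E : X → Prop, |μ.E (fun x => ind (E x) * a x)| ≤ μ.E (fun x => ind (E x) * b x) + B) {g : X → ℝ}
    (g0 : ∀ x, 0 ≤ g x) (g1 : ∀ x, g x ≤ 1) :
    |μ.E (fun x => g x * a x)| ≤ μ.E (fun x => g x * b x) + B := by
  classical
  set R : FP (X → Bool) := FPpi fun x => bern (g x) (g0 x) (g1 x) with hR
  have e0 : ∀ x, R.E (fun θ => ind (θ x = true)) = g x := fun x => by
    rw [hR, FPpi_E (fun x => bern (g x) (g0 x) (g1 x)) x (fun b => ind (b = true))]
    exact bern_E _ _ _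
  have e1 : ∀ f : X → ℝ, μ.E (fun x => g x * f x) = R.E (fun θ => μ.E (fun x => ind (θ x = true) * f x)) := by
    intro f
    rw [← FP.E_swap μ R (fun x θ => ind (θ x = true) * f x)]
    refine μ.E_congr fun x _ => ?_
    rw [FP.E_mul_const, e0]
  rw [e1 a, e1 b]
  refine (FP.abs_E_le _ _).trans ?_
  rw [← R.E_const B, ← FP.E_add]
  exact R.E_mono fun θ _ => hE fun x => θ x = true

/-- a function which factors on a set -/
theorem fac_ext {Om κ : Type*} (A : Om → Prop) (Y : Om → κ) (g : Om → ℝ) (h1 : ∀ u, A u → |g u| ≤ 1)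
    (h2 : ∀ u u', A u → A u' → Y u = Y u' → g u = g u') : ∃ f : κ → ℝ, (∀ y, |f y| ≤ 1) ∧ ∀ u, A u → f (Y u) = g u := by
  classical
  refine ⟨fun y => if hh : ∃ u, A u ∧ Y u = y then g hh.choose else 0, fun y => ?_, fun u hu => ?_⟩
  · by_cases hh : ∃ u, A u ∧ Y u = y
    · simp only [dif_pos hh]
      exact h1 _ hh.choose_spec.1
    · simp only [dif_neg hh, abs_zero]
      exact zero_le_one
  · have hh : ∃ u', A u' ∧ Y u' = Y u := ⟨u, hu, rfl⟩
    simp only [dif_pos hh]
    exact h2 _ _ hh.choose_spec.1 hu hh.choose_spec.2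

section lab

variable {X β γ φ υ : Type} [Fintype X] [Fintype β] [Fintype φ] [Nonempty X] [Nonempty β]
variable {D : HD (Fin 3) X β γ φ} {al : ℝ} (h : D.Thick al)

/-- one label given the points -/
theorem E_lab1 (t : ℕ) (k : Fin 3) (g : X → (Fin 3 → β) → φ → ℝ) :
    (D.P h t).E (fun u => g u.1 u.2.1 (u.2.2 k)) =
      (D.P h t).E (fun u => ∑ F, D.kf t k u.1 u.2.1 F * g u.1 u.2.1 F) := by
  rw [E_letter h t k (fun z F => g z.1 z.2 F)]
  exact (GMH.E_pts h t (fun z => ∑ F, D.kf t k z.1 z.2 F * g z.1 z.2 F)).symm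

/-- two labels given the points, one of them fixed -/
theorem E_lab2 (t : ℕ) {i k : Fin 3} (hik : i ≠ k) (F0 : φ) (g : X → (Fin 3 → β) → φ → ℝ) :
    (D.P h t).E (fun u => ind (u.2.2 i = F0) * g u.1 u.2.1 (u.2.2 k)) =
      (D.P h t).E (fun u => D.kf t i u.1 u.2.1 F0 * ∑ F, D.kf t k u.1 u.2.1 F * g u.1 u.2.1 F) := by
  classical
  have e1 : ∀ u : Pt (Fin 3) X β φ, ind (u.2.2 i = F0) * g u.1 u.2.1 (u.2.2 k) =
      ∑ F : φ, g u.1 u.2.1 F * ind (∀ l ∈ ({i, k} : Finset (Fin 3)), u.2.2 l = (if l = k then F else F0)) := by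
    intro u
    rw [Finset.sum_eq_single (u.2.2 k)]
    · rw [mul_comm]
      congr 1
      refine ind_cg ?_
      rw [Finset.forall_mem_insert]
      simp only [Finset.mem_singleton, forall_eq, if_true, hik, if_false, and_true]
    · intro F _ hF
      rw [ind_not, mul_zero]
      intro hh
      have := hh k (Finset.mem_insert_of_mem (Finset.mem_singleton_self k))
      rw [if_pos rfl] at this
      exact hF this.symm
    · intro hn; exact absurd (mem_univ _) hn
  have e2 : ∀ u : Pt (Fin 3) X β φ, D.kf t i u.1 u.2.1 F0 * ∑ F, D.kf t k u.1 u.2.1 F * g u.1 u.2.1 F =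
      ∑ F : φ, g u.1 u.2.1 F * ∏ l ∈ ({i, k} : Finset (Fin 3)), D.kf t l u.1 u.2.1 (if l = k then F else F0) := by
    intro u
    rw [Finset.mul_sum]
    refine Finset.sum_congr rfl fun F _ => ?_
    rw [Finset.prod_pair hik, if_neg hik, if_pos rfl]
    ring
  rw [(D.P h t).E_congr (fun u _ => e1 u), (D.P h t).E_congr (fun u _ => e2 u), FP.E_sum, FP.E_sum]
  refine Finset.sum_congr rfl fun F _ => ?_
  have h1 := E_labels h ({i, k} : Finset (Fin 3)) t (fun x y => g x y F) (fun l => if l = k then F else F0)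
  have h2 := E_labels0 h t (fun x y => g x y F * ∏ l ∈ ({i, k} : Finset (Fin 3)), D.kf t l x y (if l = k then F else F0))
  exact h1.trans h2.symm

end lab


section own

variable {X β γ φ υ : Type} [Fintype X] [Fintype β] [Fintype φ] [Nonempty X] [Nonempty β]
variable {D : HD (Fin 3) X β γ φ} {al : ℝ} {h : D.Thick al} {v : ℕ → Finset (Fin 3) → X → (Fin 3 → β) → υ}

variable (D v) in
/-- the class of the own letter of the vertex `l` at the state `q` -/
def OwQ (q : ℕ) (l : Fin 3) (c u : Pt (Fin 3) X β φ) : Prop :=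
  NPq D v q u = NPq D v q c ∧ XLq v q l u = XLq v q l c

variable (v) in
/-- the hidden points with the own letter of `l` -/
def Cl (s : ℕ) (l : Fin 3) (c : Pt (Fin 3) X β φ) (x : X) : Prop :=
  Um v s {l} x c.2.1 = Um v s {l} c.1 c.2.1

theorem NPq_iff (hv : Codes D v) (q : ℕ) (c u : Pt (Fin 3) X β φ) :
    NPq D v q u = NPq D v q c ↔ cX D v (nc q ∅) (nn q) c u.1 ∧ ∀ j, cY D (nn q) c j (u.2.1 j) :=
  NP_iff hv (nc_le q ∅) c u

/-- the letter in a public class -/
theorem XLq_code (hv : Codes D v) {q : ℕ} {c u : Pt (Fin 3) X β φ} (hu : NPq D v q u = NPq D v q c) (i : Fin 3) :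
    XLq v q i u = (u.2.1 i, code v (nc q {i}) c i u.1 (u.2.1 i)) := by
  have h1 := ((NPq_iff hv q c u).1 hu).2
  unfold XLq XL code
  refine Prod.ext rfl ?_
  show Um v (nc q {i}) {i} u.1 u.2.1 = Um v (nc q {i}) {i} u.1 (Function.update c.2.1 i (u.2.1 i))
  refine Um_codes hv (nc_le q {i}) {i} u.1 (fun j hj => ?_) fun j => ?_
  · rw [Finset.mem_singleton.1 hj, Function.update_self]
  · by_cases hj : j = i
    · subst hj; rw [Function.update_self]
    · rw [Function.update_of_ne hj]; exact h1 j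

theorem OwQ_iff (hv : Codes D v) (q : ℕ) (l : Fin 3) (c u : Pt (Fin 3) X β φ) :
    OwQ D v q l c u ↔ NPq D v q u = NPq D v q c ∧ u.2.1 l = c.2.1 l ∧ Cl v (nc q {l}) l c u.1 := by
  unfold OwQ
  refine and_congr_right fun h1 => ?_
  rw [XLq_code hv h1 l]
  unfold XLq XL Cl code
  rw [Prod.mk.injEq]
  refine and_congr_right fun h2 => ?_
  rw [h2, Function.update_eq_self]

variable (D v) in
/-- the mass of the public cell and of one exact point -/
def Ml (q : ℕ) (l : Fin 3) (c : Pt (Fin 3) X β φ) : ℝ :=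
  ((FP.unif X).Pr (cX D v (nc q ∅) (nn q) c) * ∏ j, (FP.unif β).Pr (cY D (nn q) c j)) * mC D (nn q) c l (c.2.1 l)

theorem Ml_pos (q : ℕ) (l : Fin 3) (c : Pt (Fin 3) X β φ) : 0 < Ml D v q l c := by
  unfold Ml
  refine mul_pos (mul_pos ?_ ?_) ?_
  · exact lt_of_le_of_ne (FP.Pr_nonneg _ _) (Ne.symm (unif_ne (cX_self _ _ c)))
  · exact Finset.prod_pos fun j _ => lt_of_le_of_ne (FP.Pr_nonneg _ _) (Ne.symm (unif_ne (cY_self _ c j)))
  · have h4 : (nuC D (nn q) c l).p (c.2.1 l) ≠ 0 := by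
      unfold nuC
      refine (FP.cond_p_ne (unif_ne (cY_self (nn q) c l))).2 ⟨cY_self (nn q) c l, ?_⟩
      show (Fintype.card β : ℝ)⁻¹ ≠ 0
      exact inv_ne_zero (by exact_mod_cast Fintype.card_ne_zero)
    exact FP.Pr_pos_of (P := nuC D (nn q) c l) (S := fun b => b = c.2.1 l) h4 rfl

/-- a function of the hidden point and of the point of `d`, exact point at `l` -/
theorem exl_E (hv : Codes D v) (t q : ℕ) (c : Pt (Fin 3) X β φ) {d l : Fin 3} (hdl : d ≠ l) (G : X → β → ℝ) :
    (D.P h t).E (fun u => ind (NPq D v q u = NPq D v q c ∧ u.2.1 l = c.2.1 l) * G u.1 (u.2.1 d)) =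
    Ml D v q l c * (muC D v (nc q ∅) (nn q) c).E (fun x => (nuC D (nn q) c d).E (G x)) := by
  classical
  set M := (FP.unif X).Pr (cX D v (nc q ∅) (nn q) c) * ∏ j, (FP.unif β).Pr (cY D (nn q) c j) with hM
  have e1 : ∀ x b', G x b' = ∑ b : β, ind (b' = b) * G x b := by
    intro x b'
    rw [Finset.sum_eq_single b']
    · rw [ind_of rfl, one_mul]
    · intro b _ hb; rw [ind_not (Ne.symm hb), zero_mul]
    · intro hn; exact absurd (mem_univ _) hn
  set uu : β → Fin 3 → β → ℝ := fun b j b' => if j = d then ind (b' = b) else if j = l then ind (b' = c.2.1 l) else 1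
    with huu
  have hl : l ∈ univ.erase d := Finset.mem_erase.2 ⟨hdl.symm, mem_univ l⟩
  have e2 : (D.P h t).E (fun u => ind (NPq D v q u = NPq D v q c ∧ u.2.1 l = c.2.1 l) * G u.1 (u.2.1 d)) =
      ∑ b : β, (D.P h t).E (fun u => ind (NP D v (nc q ∅) (nn q) u = NP D v (nc q ∅) (nn q) c) *
        (G u.1 b * ∏ j, uu b j (u.2.1 j))) := by
    rw [← FP.E_sum]
    refine FP.E_congr _ fun u _ => ?_
    rw [← Finset.mul_sum, ind_and]
    have e4 : ∀ b : β, ∏ j, uu b j (u.2.1 j) = ind (u.2.1 d = b) * ind (u.2.1 l = c.2.1 l) := by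
      intro b
      rw [← Finset.mul_prod_erase univ _ (mem_univ d), ← Finset.mul_prod_erase (univ.erase d) _ hl]
      have e5 : ∏ j ∈ (univ.erase d).erase l, uu b j (u.2.1 j) = 1 := by
        refine Finset.prod_eq_one fun j hj => ?_
        have h1 := Finset.ne_of_mem_erase hj
        have h2 := Finset.ne_of_mem_erase (Finset.mem_of_mem_erase hj)
        simp only [huu]
        rw [if_neg h2, if_neg h1]
      rw [e5, mul_one]
      simp only [huu, if_true, hdl.symm, if_false]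
    have e3 : G u.1 (u.2.1 d) = ∑ b : β, ind (u.2.1 d = b) * G u.1 b := e1 u.1 (u.2.1 d)
    rw [mul_assoc]
    refine congrArg₂ (· * ·) rfl ?_
    conv_lhs => rw [e3]
    rw [Finset.mul_sum]
    refine Finset.sum_congr rfl fun b _ => ?_
    rw [e4]
    ring
  rw [e2]
  have e4 : ∀ b : β, (D.P h t).E (fun u => ind (NP D v (nc q ∅) (nn q) u = NP D v (nc q ∅) (nn q) c) *
        (G u.1 b * ∏ j, uu b j (u.2.1 j))) =
      M * mC D (nn q) c l (c.2.1 l) * (mC D (nn q) c d b * (muC D v (nc q ∅) (nn q) c).E (fun x => G x b)) := by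
    intro b
    have h1 := cell_E (h := h) hv t (nc_le q ∅) c (fun x => G x b) (uu b)
    rw [h1, ← hM]
    have h2 : ∏ j, (nuC D (nn q) c j).E (uu b j) = mC D (nn q) c d b * mC D (nn q) c l (c.2.1 l) := by
      rw [← Finset.mul_prod_erase univ _ (mem_univ d), ← Finset.mul_prod_erase (univ.erase d) _ hl]
      have e5 : ∏ j ∈ (univ.erase d).erase l, (nuC D (nn q) c j).E (uu b j) = 1 := by
        refine Finset.prod_eq_one fun j hj => ?_
        have h1 := Finset.ne_of_mem_erase hj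
        have h2 := Finset.ne_of_mem_erase (Finset.mem_of_mem_erase hj)
        have h3 : uu b j = fun _ => 1 := by
          funext b'
          simp only [huu]
          rw [if_neg h2, if_neg h1]
        rw [h3]
        exact FP.E_const _ _
      rw [e5, mul_one]
      have e6 : uu b d = fun b' => ind (b' = b) := by
        funext b'
        simp only [huu, if_true]
      have e7 : uu b l = fun b' => ind (b' = c.2.1 l) := by
        funext b'
        simp only [huu, if_true, hdl.symm, if_false]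
      rw [e6, e7]
      rfl
    rw [h2]
    ring
  rw [Finset.sum_congr rfl fun b _ => e4 b, ← Finset.mul_sum]
  unfold Ml
  rw [← hM]
  congr 1
  have e5 : ∀ x, (nuC D (nn q) c d).E (G x) = ∑ b : β, mC D (nn q) c d b * G x b := by
    intro x
    have h3 : (nuC D (nn q) c d).E (G x) = (nuC D (nn q) c d).E (fun b' => ∑ b : β, ind (b' = b) * G x b) :=
      FP.E_congr _ fun b' _ => e1 x b'
    rw [h3, FP.E_sum]
    exact Finset.sum_congr rfl fun b _ => FP.E_mul_const _ _ _
  simp only [e5]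
  rw [FP.E_sum]
  exact Finset.sum_congr rfl fun b _ => (FP.E_smul _ _ _).symm

/-- a function of the hidden point and of the point of `d` in the class of the own letter of `l` -/
theorem own_E (hv : Codes D v) (t q : ℕ) (c : Pt (Fin 3) X β φ) {d l : Fin 3} (hdl : d ≠ l) (G : X → β → ℝ) :
    (D.P h t).E (fun u => ind (OwQ D v q l c u) * G u.1 (u.2.1 d)) =
    Ml D v q l c * (muC D v (nc q ∅) (nn q) c).E (fun x => ind (Cl v (nc q {l}) l c x) * (nuC D (nn q) c d).E (G x)) := by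
  have h1 := exl_E (h := h) hv t q c hdl (fun x b => ind (Cl v (nc q {l}) l c x) * G x b)
  simp only [FP.E_smul] at h1
  rw [← h1]
  refine FP.E_congr _ fun u _ => ?_
  rw [ind_cg (OwQ_iff hv q l c u), ind_and, ind_and, ind_and]
  ring

variable (D v) in
/-- mean over the point of `i` and the label of `k` -/
def Ph (t n s : ℕ) (c : Pt (Fin 3) X β φ) (i k : Fin 3) (f : β × List υ → φ → ℝ) (x : X) : ℝ :=
  (nuC D n c i).E (fun b => ∑ F, D.kf t k x (Function.update c.2.1 i b) F * f (b, code v s c i x b) F)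

variable (D v) in
/-- mean over the point of `i` -/
def Ps (n s : ℕ) (c : Pt (Fin 3) X β φ) (i : Fin 3) (g : β × List υ → ℝ) (x : X) : ℝ :=
  (nuC D n c i).E (fun b => g (b, code v s c i x b))

/-- the label of `k` in the class of the own letter of `l` -/
theorem own_lab (hv : Codes D v) {t q : ℕ} (hq : t ≤ nn q) (c : Pt (Fin 3) X β φ) {i k l : Fin 3} (hil : i ≠ l)
    (hik : i ≠ k) (hlk : l ≠ k) (A : X → Prop) (f : β × List υ → φ → ℝ) :
    (D.P h t).E (fun u => ind (OwQ D v q l c u) * (ind (A u.1) * f (XLq v q i u) (u.2.2 k))) =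
    Ml D v q l c * (muC D v (nc q ∅) (nn q) c).E
      (fun x => ind (Cl v (nc q {l}) l c x) * (ind (A x) * Ph D v t (nn q) (nc q {i}) c i k f x)) := by
  classical
  obtain ⟨w1, _⟩ := (D.P h t).exists_p_ne
  have eO : ∀ u : Pt (Fin 3) X β φ, OwQ D v q l c u ↔ OwQ D v q l c (u.1, u.2.1, w1.2.2) := fun u => Iff.rfl
  have eX : ∀ u : Pt (Fin 3) X β φ, XLq v q i u = XLq v q i (u.1, u.2.1, w1.2.2) := fun u => rfl
  have e1 := E_lab1 h t k (fun x y F => ind (OwQ D v q l c (x, y, w1.2.2)) * (ind (A x) * f (XLq v q i (x, y, w1.2.2)) F))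
  have e2 : (D.P h t).E (fun u => ind (OwQ D v q l c u) * (ind (A u.1) * f (XLq v q i u) (u.2.2 k))) =
      (D.P h t).E (fun u => ind (OwQ D v q l c u) * (fun x b => ind (A x) *
        ∑ F, D.kf t k x (Function.update c.2.1 i b) F * f (b, code v (nc q {i}) c i x b) F) u.1 (u.2.1 i)) := by
    refine e1.trans (FP.E_congr _ fun u _ => ?_)
    show ∑ F, D.kf t k u.1 u.2.1 F * (ind (OwQ D v q l c u) * (ind (A u.1) * f (XLq v q i u) F)) =
      ind (OwQ D v q l c u) * (ind (A u.1) *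
        ∑ F, D.kf t k u.1 (Function.update c.2.1 i (u.2.1 i)) F * f (u.2.1 i, code v (nc q {i}) c i u.1 (u.2.1 i)) F)
    by_cases ho : OwQ D v q l c u
    · have h1 := (OwQ_iff hv q l c u).1 ho
      have h2 := ((NPq_iff hv q c u).1 h1.1).2
      have e3 : D.kf t k u.1 (Function.update c.2.1 i (u.2.1 i)) = D.kf t k u.1 u.2.1 := by
        refine D.dep t k u.1 _ _ (fun j hj => ?_) ?_
        · by_cases hji : j = i
          · subst hji; rw [Function.update_self]
          · rw [Function.update_of_ne hji]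
            have hjl : j = l := by
              have key : ∀ i k l j : Fin 3, i ≠ l → i ≠ k → l ≠ k → j ≠ k → j ≠ i → j = l := by decide
              exact key i k l j hil hik hlk hj hji
            rw [hjl]; exact h1.2.1.symm
        · rw [Function.update_of_ne hik.symm]
          exact qb_mono D hq (h2 k).symm
      rw [ind_of ho, one_mul, e3, XLq_code hv h1.1 i, Finset.mul_sum]
      refine Finset.sum_congr rfl fun F _ => ?_
      ring
    · rw [ind_not ho, zero_mul]
      exact Finset.sum_eq_zero fun F _ => by rw [zero_mul, mul_zero]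
  rw [e2, own_E hv t q c hil (fun x b => ind (A x) *
        ∑ F, D.kf t k x (Function.update c.2.1 i b) F * f (b, code v (nc q {i}) c i x b) F)]
  congr 1
  refine FP.E_congr _ fun x _ => ?_
  rw [FP.E_smul]
  rfl

/-- both labels in the class of what the top without `i` sees -/
theorem cls_lab2 (hv : Codes D v) {t q : ℕ} (c : Pt (Fin 3) X β φ) {i k : Fin 3} (hik : i ≠ k) (hq : t ≤ nn q)
    (F0 : φ) (f : β × List υ → φ → ℝ) :
    (D.P h t).E (fun u => ind (ZbQ D v q i u = ZbQ D v q i c) * (ind (u.2.2 i = F0) * f (XLq v q i u) (u.2.2 k))) =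
    Mz D v q i c * (muC D v (nc q ∅) (nn q) c).E
      (fun x => ind (K0 v q i c x) * (D.kf t i x c.2.1 F0 * Ph D v t (nn q) (nc q {i}) c i k f x)) := by
  classical
  obtain ⟨w1, _⟩ := (D.P h t).exists_p_ne
  have e1 := E_lab2 h t hik F0 (fun x y F => ind (ZbQ D v q i (x, y, w1.2.2) = ZbQ D v q i c) *
    f (XLq v q i (x, y, w1.2.2)) F)
  have e2 : (D.P h t).E (fun u => ind (ZbQ D v q i u = ZbQ D v q i c) * (ind (u.2.2 i = F0) *
      f (XLq v q i u) (u.2.2 k))) =
      (D.P h t).E (fun u => ind (ZbQ D v q i u = ZbQ D v q i c) * (fun x b => D.kf t i x c.2.1 F0 *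
        ∑ F, D.kf t k x (Function.update c.2.1 i b) F * f (b, code v (nc q {i}) c i x b) F) u.1 (u.2.1 i)) := by
    have e3 : ∀ u : Pt (Fin 3) X β φ, ZbQ D v q i (u.1, u.2.1, w1.2.2) = ZbQ D v q i u := fun u =>
      ZbQ_xy q i u.1 u.2.1 w1.2.2 u.2.2
    have e4 : (D.P h t).E (fun u => ind (ZbQ D v q i u = ZbQ D v q i c) * (ind (u.2.2 i = F0) *
        f (XLq v q i u) (u.2.2 k))) = (D.P h t).E (fun u => ind (u.2.2 i = F0) *
          (ind (ZbQ D v q i (u.1, u.2.1, w1.2.2) = ZbQ D v q i c) * f (XLq v q i (u.1, u.2.1, w1.2.2)) (u.2.2 k))) := by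
      refine FP.E_congr _ fun u _ => ?_
      rw [e3]
      show ind (ZbQ D v q i u = ZbQ D v q i c) * (ind (u.2.2 i = F0) * f (XLq v q i u) (u.2.2 k)) =
        ind (u.2.2 i = F0) * (ind (ZbQ D v q i u = ZbQ D v q i c) * f (XLq v q i u) (u.2.2 k))
      ring
    rw [e4]
    refine e1.trans (FP.E_congr _ fun u _ => ?_)
    simp only [e3]
    show D.kf t i u.1 u.2.1 F0 * ∑ F, D.kf t k u.1 u.2.1 F * (ind (ZbQ D v q i u = ZbQ D v q i c) * f (XLq v q i u) F) =
      ind (ZbQ D v q i u = ZbQ D v q i c) * (D.kf t i u.1 c.2.1 F0 *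
        ∑ F, D.kf t k u.1 (Function.update c.2.1 i (u.2.1 i)) F * f (u.2.1 i, code v (nc q {i}) c i u.1 (u.2.1 i)) F)
    by_cases hz : ZbQ D v q i u = ZbQ D v q i c
    · have h1 := (Zb_iff hv q i c u).1 hz
      have h2 := Zb_pts hz
      have e5 : Function.update c.2.1 i (u.2.1 i) = u.2.1 := by
        funext j
        by_cases hj : j = i
        · subst hj; rw [Function.update_self]
        · rw [Function.update_of_ne hj]; exact (h2.1 j hj).symm
      have e6 : XLq v q i u = (u.2.1 i, code v (nc q {i}) c i u.1 (u.2.1 i)) := XLq_code hv h1.1 i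
      rw [ind_of hz, one_mul, e5, e6, D.dep t i u.1 u.2.1 c.2.1 h2.1 (qb_mono D hq (h2.2.2 i))]
      congr 1
      exact Finset.sum_congr rfl fun F _ => by rw [one_mul]
    · rw [ind_not hz, zero_mul]
      have : ∑ F, D.kf t k u.1 u.2.1 F * ((0 : ℝ) * f (XLq v q i u) F) = 0 :=
        Finset.sum_eq_zero fun F _ => by rw [zero_mul, mul_zero]
      rw [this, mul_zero]
  rw [e2, cls_E hv t q c i (fun x b => D.kf t i x c.2.1 F0 *
        ∑ F, D.kf t k x (Function.update c.2.1 i b) F * f (b, code v (nc q {i}) c i x b) F)]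
  congr 1
  refine FP.E_congr _ fun x _ => ?_
  rw [FP.E_smul]
  rfl

end own

section row

variable {X β γ φ : Type} [Fintype X] [Fintype β] [Fintype φ] [Nonempty X] [Nonempty β]
variable {D : HD (Fin 3) X β γ φ} {al : ℝ} {h : D.Thick al} {N : Finset (Fin 3) → ℝ} {S : Finset (Finset (Fin 3))}
  {v : ℕ → Finset (Fin 3) → X → (Fin 3 → β) → Pt (Fin 3) X β φ} {dg : ℕ → X → ℝ} {prr : ℕ → Fin 3 → φ → φ} {T : ℕ}
  {Lam : ℝ}

/-- three vertices of the run -/
theorem bk_run (R : Run h N S (AdmDep D) v) (hN : ∀ J ∈ S, 0 ≤ N J) (h0 : ∅ ∈ S) (hS1 : ∀ i : Fin 3, {i} ∈ S)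
    (hS : ∀ l, univ.erase l ∈ S) (hN1 : ∀ i : Fin 3, 0 < N {i}) (hN2 : ∀ l, 0 < N (univ.erase l)) (t : ℕ) {b c d : Fin 3}
    (hbc : b ≠ c) (hbd : b ≠ d) (hcd : c ≠ d) : Bk h N S (fun I x y => UU v I t x y) t b c d where
  dep := fun I x y y' h1 h2 => (sys_UU R.codes).dep I t x y y' h1 h2
  sat := R.dep hN t
  nn := hN
  bc := hbc
  bd := hbd
  cd := hcd
  all := by
    have key : ∀ b c d : Fin 3, b ≠ c → b ≠ d → c ≠ d → ∀ j, j = b ∨ j = c ∨ j = d := by decide
    exact key b c d hbc hbd hcd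
  s0 := h0
  s1 := hS1
  s2 := hS
  n1 := hN1
  n2 := hN2

theorem pub0_NP (t : ℕ) (c u : Pt (Fin 3) X β φ) : pub0 D t (fun I x y => UU v I t x y) c u ↔
    NP D v (t + 1) t u = NP D v (t + 1) t c := by
  have h1 : (NP D v (t + 1) t u = NP D v (t + 1) t c) = xc D (fun I x y => UU v I t x y) t ∅ c u :=
    congrFun (NP_xc (D := D) (v := v) t c) u
  rw [h1]
  unfold pub0 xc
  rw [Prod.mk.injEq]

/-- the class of the own letter, saturated state -/
theorem clsb_Ow {t : ℕ} {l : Fin 3} {c w0 u : Pt (Fin 3) X β φ} (hw : OwQ D v (5 * t) l c w0) :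
    clsb (fun I x y => UU v I t x y) (pub0 D t (fun I x y => UU v I t x y) w0) l w0 u ↔ OwQ D v (5 * t) l c u := by
  have hnc : nc (5 * t) ∅ = t + 1 := by
    have h1 := nc_add t 0 (J := ∅) pth_emp (by omega)
    rw [add_zero] at h1
    rw [h1]
    unfold ncj
    rw [if_neg (Nat.not_lt_zero _), add_zero]
  have hnl : nc (5 * t) {l} = t + 1 := by
    have h1 := nc_add t 0 (J := {l}) (pth_sing l) (by omega)
    rw [add_zero] at h1
    rw [h1]
    unfold ncj
    rw [if_neg (Nat.not_lt_zero _), add_zero]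
  have hnn : nn (5 * t) = t := nn_0 t
  unfold clsb
  rw [pub0_NP]
  unfold OwQ at hw ⊢
  unfold NPq XLq at *
  rw [hnc, hnl, hnn] at hw ⊢
  rw [hw.1, ← hw.2]
  constructor
  · rintro ⟨h1, h2, h3⟩
    exact ⟨h1, Prod.ext h2 h3⟩
  · rintro ⟨h1, h2⟩
    exact ⟨h1, congrArg Prod.fst h2, congrArg Prod.snd h2⟩

/-- constants -/
def kap0 (N1 a : ℝ) : ℝ := Real.sqrt (4 * (a + 1) / N1)

def kap1 (N1 N2 a : ℝ) : ℝ := 2 * Real.sqrt (2 * N1 * (a + 1) / N2) + 2 * kap0 N1 a

/-- two surprises: `b` inside the own class, `a` from the public class and the exact point -/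
def kapB (N1 N2 a b : ℝ) : ℝ := 2 * Real.sqrt (2 * N1 * (b + 1) / N2) + 2 * kap0 N1 a

theorem kapB_same (N1 N2 a : ℝ) : kapB N1 N2 a a = kap1 N1 N2 a := rfl

/-- **events of the hidden point inside the own class of the common vertex**, two surprises -/
theorem ev_own2 (R : Run h N S (AdmDep D) v) (hN : ∀ J ∈ S, 0 ≤ N J) (h0 : ∅ ∈ S) (hS1 : ∀ i : Fin 3, {i} ∈ S)
    (hS : ∀ l, univ.erase l ∈ S) (hN0 : N ∅ = 1) {N1 N2 : ℝ} (hN1 : ∀ i : Fin 3, N {i} = N1) (hN1p : 0 < N1)
    (hN2 : ∀ l, N (univ.erase l) = N2) (hN2p : 0 < N2) (t : ℕ) {c : Pt (Fin 3) X β φ}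
    {i k l : Fin 3} (hil : i ≠ l) (hik : i ≠ k) (hlk : l ≠ k) {A : X → Prop} {a bb : ℝ}
    (hA : Real.exp (-a) ≤ (muC D v (t + 1) t c).E (fun x => ind (A x) * ind (Cl v (t + 1) l c x)))
    (hB : Real.exp (-bb) * (muC D v (t + 1) t c).E (fun x => ind (Cl v (t + 1) l c x)) ≤
      (muC D v (t + 1) t c).E (fun x => ind (A x) * ind (Cl v (t + 1) l c x)))
    {f : β × List (Pt (Fin 3) X β φ) → φ → ℝ} (hf : ∀ z F, |f z F| ≤ 1) :
    |(muC D v (t + 1) t c).E (fun x => ind (A x) * (ind (Cl v (t + 1) l c x) * (Ph D v t t (t + 1) c i k f x -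
      (muC D v (t + 1) t c).E (fun x => ind (Cl v (t + 1) l c x) * Ph D v t t (t + 1) c i k f x) /
        (muC D v (t + 1) t c).E (fun x => ind (Cl v (t + 1) l c x)))))| ≤
      kapB N1 N2 a bb * (muC D v (t + 1) t c).E (fun x => ind (A x) * ind (Cl v (t + 1) l c x)) := by
  classical
  have : Nonempty φ := ⟨c.2.2 0⟩
  have hv := R.codes
  set P := D.P h t with hP
  set μ := muC D v (t + 1) t c with hμ
  set U : Finset (Fin 3) → X → (Fin 3 → β) → List (Pt (Fin 3) X β φ) := fun I x y => UU v I t x y with hUd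
  set CC : X → Prop := Cl v (t + 1) l c with hCC
  set Φ : X → ℝ := Ph D v t t (t + 1) c i k f with hΦ
  have hnc : nc (5 * t) ∅ = t + 1 := by
    have h1 := nc_add t 0 (J := ∅) pth_emp (by omega)
    rw [add_zero] at h1
    rw [h1]
    unfold ncj
    rw [if_neg (Nat.not_lt_zero _), add_zero]
  have hns : ∀ j : Fin 3, nc (5 * t) {j} = t + 1 := fun j => by
    have h1 := nc_add t 0 (J := {j}) (pth_sing j) (by omega)
    rw [add_zero] at h1
    rw [h1]
    unfold ncj
    rw [if_neg (Nat.not_lt_zero _), add_zero]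
  have hnn : nn (5 * t) = t := nn_0 t
  have B : Bk h N S U t l k i := bk_run R hN h0 hS1 hS (fun j => by rw [hN1]; exact hN1p)
    (fun j => by rw [hN2]; exact hN2p) t hlk (Ne.symm hil) (Ne.symm hik)
  -- masses
  set M := Ml D v (5 * t) l c with hM
  have hMp : 0 < M := Ml_pos _ _ _
  set V : Pt (Fin 3) X β φ → Prop := fun u => OwQ D v (5 * t) l c u ∧ A u.1 with hV
  set m := μ.E (fun x => ind (A x) * ind (CC x)) with hm
  set mC := μ.E (fun x => ind (CC x)) with hmC
  have hm0 : 0 < m := (Real.exp_pos _).trans_le hA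
  have PrV : P.Pr V = M * m := by
    have h1 := own_E (h := h) hv t (5 * t) c hil (fun x _ => ind (A x))
    rw [hnc, hnn, hns] at h1
    simp only [FP.E_const] at h1
    rw [hm]
    have e1 : μ.E (fun x => ind (A x) * ind (CC x)) = μ.E (fun x => ind (CC x) * ind (A x)) :=
      FP.E_congr _ fun x _ => mul_comm _ _
    rw [e1, ← h1]
    exact FP.E_congr _ fun u _ => ind_and _ _
  have PrC : P.Pr (OwQ D v (5 * t) l c) = M * mC := by
    have h1 := own_E (h := h) hv t (5 * t) c hil (fun _ _ => 1)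
    rw [hnc, hnn, hns] at h1
    simp only [FP.E_const, mul_one] at h1
    exact h1
  have PrB : P.Pr (fun u => NPq D v (5 * t) u = NPq D v (5 * t) c ∧ u.2.1 l = c.2.1 l) = M := by
    have h1 := exl_E (h := h) hv t (5 * t) c hil (fun _ _ => 1)
    simp only [FP.E_const, mul_one] at h1
    exact h1
  have hPV : 0 < P.Pr V := by rw [PrV]; exact mul_pos hMp hm0
  have mCm : m ≤ mC := FP.E_mono _ fun x _ => by
    have := mul_le_mul_of_nonneg_right (ind_le_one (A x)) (ind_nonneg (CC x))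
    rwa [one_mul] at this
  have mC1 : mC ≤ 1 := by
    rw [← μ.E_const 1]
    exact FP.E_mono _ fun x _ => ind_le_one _
  have hmC0 : 0 < mC := hm0.trans_le mCm
  have hPC : 0 < P.Pr (OwQ D v (5 * t) l c) := by rw [PrC]; exact mul_pos hMp hmC0
  obtain ⟨w0, hw0, hVw0⟩ : ∃ w0, P.p w0 ≠ 0 ∧ V w0 := by
    by_contra hcon
    push Not at hcon
    have h1 : P.Pr V = 0 := by
      unfold FP.Pr
      refine (P.E_congr fun u hu' => ?_).trans (P.E_const 0)
      exact ind_not (hcon u hu')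
    exact hPV.ne' h1
  have hcls : clsb U (pub0 D t U w0) l w0 = OwQ D v (5 * t) l c := funext fun u => propext (clsb_Ow hVw0.1)
  have I : Ib h U t l w0 V :=
    { fac := by
        intro x y hxy
        unfold Ah at hxy
        rw [Prod.mk.injEq, BB_eq] at hxy
        have h1 : OwQ D v (5 * t) l c x ↔ OwQ D v (5 * t) l c y := by
          rw [OwQ_iff hv, OwQ_iff hv, NPq_iff hv, NPq_iff hv, hxy.1, hxy.2.1 l (Finset.mem_singleton_self l)]
          rw [hnn]
          have h2 : ∀ j, cY D t c j (x.2.1 j) ↔ cY D t c j (y.2.1 j) := fun j => by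
            unfold cY
            rw [hxy.2.2.2 j]
          rw [forall_congr' h2]
        show (OwQ D v (5 * t) l c x ∧ A x.1) = (OwQ D v (5 * t) l c y ∧ A y.1)
        rw [propext h1, hxy.1]
      self := hVw0
      supp := hw0
      sub := fun u hu' => by rw [hcls]; exact hu'.1 }
  have IC : Ib h U t l w0 (OwQ D v (5 * t) l c) := by
    have := I.cls B
    rwa [hcls] at this
  -- laws
  have eQC : QC h U t l w0 = P.cond (OwQ D v (5 * t) l c) := by unfold QC; rw [hcls]
  set QV := P.cond V with hQV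
  set QCl := P.cond (OwQ D v (5 * t) l c) with hQCl
  set h' : Pt (Fin 3) X β φ → ℝ := fun u => f (XLq v (5 * t) i u) (u.2.2 k) with hh'
  have ezf : ∀ u : Pt (Fin 3) X β φ, zf U i u = XLq v (5 * t) i u := by
    intro u
    unfold zf XLq XL
    rw [hns]
    rfl
  have h'1 : ∀ u, |h' u| ≤ 1 := fun u => hf _ _
  have EV : QV.E h' = μ.E (fun x => ind (CC x) * (ind (A x) * Φ x)) / m := by
    rw [hQV, FP.cond_E hPV.ne', PrV]
    have h1 := own_lab (h := h) hv (t := t) (q := 5 * t) (by rw [hnn]) c hil hik hlk A f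
    rw [hnc, hnn, hns, hns] at h1
    rw [← mul_div_mul_left _ m hMp.ne', ← h1]
    congr 1
    refine FP.E_congr _ fun u _ => ?_
    show ind (OwQ D v (5 * t) l c u ∧ A u.1) * h' u = _
    rw [ind_and]
    ring
  have EC : QCl.E h' = μ.E (fun x => ind (CC x) * Φ x) / mC := by
    rw [hQCl, FP.cond_E hPC.ne', PrC]
    have h1 := own_lab (h := h) hv (t := t) (q := 5 * t) (by rw [hnn]) c hil hik hlk (fun _ => True) f
    rw [hnc, hnn, hns, hns] at h1
    simp only [ind_of trivial, one_mul] at h1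
    rw [← mul_div_mul_left _ mC hMp.ne', ← h1]
  -- the surprise
  have la : 0 ≤ a := by
    have h1 := hA.trans (mCm.trans mC1)
    have h2 := Real.exp_le_one_iff.1 h1
    linarith
  have lC : Real.log (1 / (QC h U t l w0).Pr V) ≤ bb := by
    have e1 : (QC h U t l w0).Pr V = m / mC := by
      rw [eQC]
      unfold FP.Pr
      rw [FP.cond_E hPC.ne', PrC]
      have e2 : P.E (fun u => ind (OwQ D v (5 * t) l c u) * ind (V u)) = P.Pr V := by
        unfold FP.Pr
        refine FP.E_congr _ fun u _ => ?_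
        rw [← ind_and]
        exact ind_cg ⟨fun hh => hh.2, fun hh => ⟨hh.1, hh⟩⟩
      rw [e2, PrV, mul_div_mul_left _ _ hMp.ne']
    rw [e1, one_div, Real.log_inv]
    have h1 : Real.exp (-bb) ≤ m / mC := by
      rw [le_div_iff₀ hmC0]
      exact hB
    have h2 := Real.log_le_log (Real.exp_pos _) h1
    rw [Real.log_exp] at h2
    linarith
  have hxB : xc D U t {l} w0 = fun u => NPq D v (5 * t) u = NPq D v (5 * t) c ∧ u.2.1 l = c.2.1 l := by
    funext u
    have h1 : xc D U t ∅ w0 u ↔ NPq D v (5 * t) u = NPq D v (5 * t) c := by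
      have h2 : (NP D v (t + 1) t u = NP D v (t + 1) t w0) = xc D U t ∅ w0 u := congrFun (NP_xc (D := D) (v := v) t w0) u
      rw [← h2]
      have h3 : NPq D v (5 * t) w0 = NPq D v (5 * t) c := hVw0.1.1
      rw [← h3]
      unfold NPq
      rw [hnc, hnn]
    rw [xc_hwV]
    unfold hwV
    refine propext ?_
    rw [h1]
    simp only [Finset.mem_singleton, forall_eq]
    have h4 : w0.2.1 l = c.2.1 l := ((OwQ_iff hv (5 * t) l c w0).1 hVw0.1).2.1
    rw [h4]
  have lB : ∀ W : Pt (Fin 3) X β φ → Prop, (∀ u, W u → OwQ D v (5 * t) l c u) → ∀ m', Real.exp (-a) ≤ m' →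
      P.Pr W = M * m' → Lb h U t l w0 W ≤ a := by
    intro W hW m' hm' hPW
    have e1 : (QB h U t l w0).Pr W = m' := by
      unfold QB FP.Pr
      rw [hxB] at *
      rw [FP.cond_E (by rw [PrB]; exact hMp.ne'), PrB]
      have e2 : P.E (fun u => ind (NPq D v (5 * t) u = NPq D v (5 * t) c ∧ u.2.1 l = c.2.1 l) * ind (W u)) = P.Pr W := by
        unfold FP.Pr
        refine FP.E_congr _ fun u _ => ?_
        rw [← ind_and]
        refine ind_cg ⟨fun hh => hh.2, fun hh => ⟨?_, hh⟩⟩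
        have h1 := (OwQ_iff hv (5 * t) l c u).1 (hW u hh)
        exact ⟨h1.1, h1.2.1⟩
      rw [e2, hPW, mul_div_cancel_left₀ _ hMp.ne']
    unfold Lb
    rw [e1, one_div, Real.log_inv]
    have h2 := Real.log_le_log (Real.exp_pos _) hm'
    rw [Real.log_exp] at h2
    linarith
  -- the three transfers
  set g : Pt (Fin 3) X β φ → ℝ := QCl.ce (zf U i) h' with hg
  have g1 : ∀ u, |g u| ≤ 1 := fun u => QCl.abs_ce_le_one (fun w _ => h'1 w) (zf U i) u
  have gf : Fac (zf U i) g := QCl.ce_fac _ _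
  have acC : QV.Ac QCl := by
    have h1 := I.acC
    rw [eQC] at h1
    exact h1
  have t1 : |QV.E (fun w => h' w - g w)| ≤ 2 * Real.sqrt (2 * N1 * (bb + 1) / N2) := by
    have h1 := dev_klc (P := QCl) (Q := QV) acC (Y := fun w => w.2.2 k) (W := zf U i) (h := h')
      (fun x y hxy => by
        rw [Prod.mk.injEq] at hxy
        show f (XLq v (5 * t) i x) (x.2.2 k) = f (XLq v (5 * t) i y) (y.2.2 k)
        rw [← ezf, ← ezf, hxy.1, hxy.2]) zero_le_one h'1
    rw [mul_one] at h1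
    refine h1.trans (mul_le_mul_of_nonneg_left (Real.sqrt_le_sqrt ?_) (by norm_num))
    have h2 := face_exact B I
    rw [hN2, hN1, eQC] at h2
    rw [eQC] at lC
    rw [le_div_iff₀ hN2p]
    have h3 : 2 * N1 * (Real.log (1 / QCl.Pr V) + 1) ≤ 2 * N1 * (bb + 1) :=
      mul_le_mul_of_nonneg_left (by linarith) (by linarith)
    have h4 : QV.klc QCl (fun w => w.2.2 k) (zf U i) * N2 = N2 * QV.klc QCl (fun w => w.2.2 k) (zf U i) := mul_comm _ _
    rw [h4]
    exact h2.trans h3
  have kb : ∀ W : Pt (Fin 3) X β φ → Prop, Ib h U t l w0 W → Lb h U t l w0 W ≤ a →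
      |(P.cond W).E g - (QB h U t l w0).E g| ≤ kap0 N1 a := by
    intro W IW hW
    have h1 := FP.pinsker_test IW.acB (X := zf U i) (f := g) gf g1
    rw [one_mul] at h1
    refine h1.trans (Real.sqrt_le_sqrt ?_)
    have h2 := let_one B.swap IW
    rw [hN1, hN0] at h2
    rw [le_div_iff₀ hN1p]
    linarith
  have t2 := kb V I (lB V (fun u hu' => hu'.1) m hA PrV)
  have t3 := kb (OwQ D v (5 * t) l c) IC (lB _ (fun u hu' => hu') mC (hA.trans mCm) PrC)
  have t4 : QCl.E g = QCl.E h' := QCl.E_ce (zf U i) h'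
  have key : |QV.E h' - QCl.E h'| ≤ kapB N1 N2 a bb := by
    unfold kapB
    have e1 : QV.E (fun w => h' w - g w) = QV.E h' - QV.E g := FP.E_sub _ _ _
    rw [e1] at t1
    have e2 : QV.E h' - QCl.E h' = (QV.E h' - QV.E g) + (QV.E g - (QB h U t l w0).E g) -
        (QCl.E g - (QB h U t l w0).E g) := by rw [t4]; ring
    rw [e2]
    refine (abs_sub _ _).trans ?_
    have h1 := abs_add_le (QV.E h' - QV.E g) (QV.E g - (QB h U t l w0).E g)
    linarith
  -- conclusion
  have fin : μ.E (fun x => ind (A x) * (ind (CC x) * (Φ x - μ.E (fun x => ind (CC x) * Φ x) / mC))) =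
      m * (QV.E h' - QCl.E h') := by
    rw [EV, EC]
    set φb := μ.E (fun x => ind (CC x) * Φ x) / mC with hφb
    have e1 : μ.E (fun x => ind (A x) * (ind (CC x) * (Φ x - φb))) =
        μ.E (fun x => ind (CC x) * (ind (A x) * Φ x)) - φb * m := by
      rw [hm, ← FP.E_smul, ← FP.E_sub]
      exact FP.E_congr _ fun x _ => by ring
    rw [e1]
    field_simp
  show |μ.E (fun x => ind (A x) * (ind (CC x) * (Φ x - μ.E (fun x => ind (CC x) * Φ x) / mC)))| ≤ _
  rw [fin, abs_mul, abs_of_pos hm0, mul_comm]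
  exact mul_le_mul_of_nonneg_right key hm0.le

/-- **events of the hidden point inside the own class of the common vertex** -/
theorem ev_own (R : Run h N S (AdmDep D) v) (hN : ∀ J ∈ S, 0 ≤ N J) (h0 : ∅ ∈ S) (hS1 : ∀ i : Fin 3, {i} ∈ S)
    (hS : ∀ l, univ.erase l ∈ S) (hN0 : N ∅ = 1) {N1 N2 : ℝ} (hN1 : ∀ i : Fin 3, N {i} = N1) (hN1p : 0 < N1)
    (hN2 : ∀ l, N (univ.erase l) = N2) (hN2p : 0 < N2) (t : ℕ) {c : Pt (Fin 3) X β φ}
    {i k l : Fin 3} (hil : i ≠ l) (hik : i ≠ k) (hlk : l ≠ k) {A : X → Prop} {a : ℝ}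
    (hA : Real.exp (-a) ≤ (muC D v (t + 1) t c).E (fun x => ind (A x) * ind (Cl v (t + 1) l c x)))
    {f : β × List (Pt (Fin 3) X β φ) → φ → ℝ} (hf : ∀ z F, |f z F| ≤ 1) :
    |(muC D v (t + 1) t c).E (fun x => ind (A x) * (ind (Cl v (t + 1) l c x) * (Ph D v t t (t + 1) c i k f x -
      (muC D v (t + 1) t c).E (fun x => ind (Cl v (t + 1) l c x) * Ph D v t t (t + 1) c i k f x) /
        (muC D v (t + 1) t c).E (fun x => ind (Cl v (t + 1) l c x)))))| ≤
      kap1 N1 N2 a * (muC D v (t + 1) t c).E (fun x => ind (A x) * ind (Cl v (t + 1) l c x)) := by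
  rw [← kapB_same]
  refine ev_own2 R hN h0 hS1 hS hN0 hN1 hN1p hN2 hN2p t hil hik hlk hA ?_ hf
  have m1 : (muC D v (t + 1) t c).E (fun x => ind (Cl v (t + 1) l c x)) ≤ 1 := by
    rw [← (muC D v (t + 1) t c).E_const 1]
    exact FP.E_mono _ fun x _ => ind_le_one _
  have := mul_le_mul_of_nonneg_left m1 (Real.exp_pos (-a)).le
  rw [mul_one] at this
  exact this.trans hA

omit [Nonempty X] in
theorem Ph_abs (h : D.Thick al) (t n s : ℕ) (c : Pt (Fin 3) X β φ) (i k : Fin 3)
    {f : β × List (Pt (Fin 3) X β φ) → φ → ℝ} (hf : ∀ z F, |f z F| ≤ 1) (x : X) :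
    |Ph D v t n s c i k f x| ≤ 1 := by
  unfold Ph
  refine (FP.abs_E_le _ _).trans ?_
  rw [← (nuC D n c i).E_const 1]
  refine FP.E_mono _ fun b _ => ?_
  refine (Finset.abs_sum_le_sum_abs _ _).trans ?_
  rw [← h.one t k x (Function.update c.2.1 i b)]
  refine Finset.sum_le_sum fun F _ => ?_
  rw [abs_mul, abs_of_nonneg (h.nn _ _ _ _ _)]
  have := mul_le_mul_of_nonneg_left (hf (b, code v s c i x b) F) (h.nn t k x (Function.update c.2.1 i b) F)
  rwa [mul_one] at this

/-- the mean of the label inside the own class -/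
def fbr (D : HD (Fin 3) X β γ φ) (v : ℕ → Finset (Fin 3) → X → (Fin 3 → β) → Pt (Fin 3) X β φ) (t : ℕ)
    (c : Pt (Fin 3) X β φ) (i k l : Fin 3) (f : β × List (Pt (Fin 3) X β φ) → φ → ℝ) : ℝ :=
  (muC D v (t + 1) t c).E (fun x => ind (Cl v (t + 1) l c x) * Ph D v t t (t + 1) c i k f x) /
    (muC D v (t + 1) t c).E (fun x => ind (Cl v (t + 1) l c x))

theorem fbr_abs (h : D.Thick al) (t : ℕ) (c : Pt (Fin 3) X β φ) (i k l : Fin 3)
    {f : β × List (Pt (Fin 3) X β φ) → φ → ℝ} (hf : ∀ z F, |f z F| ≤ 1) : |fbr D v t c i k l f| ≤ 1 := by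
  unfold fbr
  set m := (muC D v (t + 1) t c).E (fun x => ind (Cl v (t + 1) l c x)) with hm
  have hm0 : 0 ≤ m := FP.E_nonneg _ fun _ _ => ind_nonneg _
  rw [abs_div, abs_of_nonneg hm0]
  refine div_le_one_of_le₀ ?_ hm0
  refine (FP.abs_E_le _ _).trans (FP.E_mono _ fun x _ => ?_)
  rw [abs_mul, abs_of_nonneg (ind_nonneg _)]
  have := mul_le_mul_of_nonneg_left (Ph_abs h t t (t + 1) c i k hf x (v := v)) (ind_nonneg (Cl v (t + 1) l c x))
  rwa [mul_one] at this

/-- **weights of the hidden point inside the own class of the common vertex** -/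
theorem wt_own (R : Run h N S (AdmDep D) v) (hN : ∀ J ∈ S, 0 ≤ N J) (h0 : ∅ ∈ S) (hS1 : ∀ i : Fin 3, {i} ∈ S)
    (hS : ∀ l, univ.erase l ∈ S) (hN0 : N ∅ = 1) {N1 N2 : ℝ} (hN1 : ∀ i : Fin 3, N {i} = N1) (hN1p : 0 < N1)
    (hN2 : ∀ l, N (univ.erase l) = N2) (hN2p : 0 < N2) (t : ℕ) {c : Pt (Fin 3) X β φ}
    {i k l : Fin 3} (hil : i ≠ l) (hik : i ≠ k) (hlk : l ≠ k) (a : ℝ)
    {f : β × List (Pt (Fin 3) X β φ) → φ → ℝ} (hf : ∀ z F, |f z F| ≤ 1) {g : X → ℝ} (g0 : ∀ x, 0 ≤ g x)
    (g1 : ∀ x, g x ≤ 1) :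
    |(muC D v (t + 1) t c).E (fun x => g x * (ind (Cl v (t + 1) l c x) * Ph D v t t (t + 1) c i k f x)) -
      fbr D v t c i k l f * (muC D v (t + 1) t c).E (fun x => g x * ind (Cl v (t + 1) l c x))| ≤
      kap1 N1 N2 a * (muC D v (t + 1) t c).E (fun x => g x * ind (Cl v (t + 1) l c x)) + 2 * Real.exp (-a) := by
  set μ := muC D v (t + 1) t c with hμ
  set φb := fbr D v t c i k l f with hφb
  have hφ1 : |φb| ≤ 1 := fbr_abs h t c i k l hf
  have hk1 : 0 ≤ kap1 N1 N2 a := by
    unfold kap1 kap0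
    positivity
  have key := wt_ev μ (a := fun x => ind (Cl v (t + 1) l c x) * (Ph D v t t (t + 1) c i k f x - φb))
    (b := fun x => kap1 N1 N2 a * ind (Cl v (t + 1) l c x)) (B := 2 * Real.exp (-a)) (fun E => ?_) g0 g1
  · have e1 : μ.E (fun x => g x * (ind (Cl v (t + 1) l c x) * (Ph D v t t (t + 1) c i k f x - φb))) =
        μ.E (fun x => g x * (ind (Cl v (t + 1) l c x) * Ph D v t t (t + 1) c i k f x)) -
        φb * μ.E (fun x => g x * ind (Cl v (t + 1) l c x)) := by
      rw [← FP.E_smul, ← FP.E_sub]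
      exact FP.E_congr _ fun x _ => by ring
    have e2 : μ.E (fun x => g x * (kap1 N1 N2 a * ind (Cl v (t + 1) l c x))) =
        kap1 N1 N2 a * μ.E (fun x => g x * ind (Cl v (t + 1) l c x)) := by
      rw [← FP.E_smul]
      exact FP.E_congr _ fun x _ => by ring
    rw [e1, e2] at key
    exact key
  · have e2 : μ.E (fun x => ind (E x) * (kap1 N1 N2 a * ind (Cl v (t + 1) l c x))) =
        kap1 N1 N2 a * μ.E (fun x => ind (E x) * ind (Cl v (t + 1) l c x)) := by
      rw [← FP.E_smul]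
      exact FP.E_congr _ fun x _ => by ring
    rw [e2]
    have hm0 : 0 ≤ μ.E (fun x => ind (E x) * ind (Cl v (t + 1) l c x)) :=
      FP.E_nonneg _ fun _ _ => mul_nonneg (ind_nonneg _) (ind_nonneg _)
    have hx := Real.exp_pos (-a)
    rcases le_or_gt (Real.exp (-a)) (μ.E (fun x => ind (E x) * ind (Cl v (t + 1) l c x))) with h1 | h1
    · have h2 := ev_own R hN h0 hS1 hS hN0 hN1 hN1p hN2 hN2p t hil hik hlk h1 hf
      refine h2.trans ?_
      linarith
    · have h3 : |μ.E (fun x => ind (E x) * (ind (Cl v (t + 1) l c x) * (Ph D v t t (t + 1) c i k f x - φb)))| ≤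
          2 * μ.E (fun x => ind (E x) * ind (Cl v (t + 1) l c x)) := by
        refine (FP.abs_E_le _ _).trans ?_
        rw [← FP.E_smul]
        refine FP.E_mono _ fun x _ => ?_
        have h4 := Ph_abs h t t (t + 1) c i k hf x (v := v)
        have h5 : |Ph D v t t (t + 1) c i k f x - φb| ≤ 2 := by
          refine (abs_sub _ _).trans ?_
          linarith
        rw [abs_mul, abs_mul, abs_of_nonneg (ind_nonneg _), abs_of_nonneg (ind_nonneg _), ← mul_assoc]
        have := mul_le_mul_of_nonneg_left h5 (mul_nonneg (ind_nonneg (E x)) (ind_nonneg (Cl v (t + 1) l c x)))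
        linarith
      have h6 := mul_nonneg hk1 hm0
      linarith

/-- **weights of the hidden point inside the own class of the common vertex**, two surprises -/
theorem wt_own2 (R : Run h N S (AdmDep D) v) (hN : ∀ J ∈ S, 0 ≤ N J) (h0 : ∅ ∈ S) (hS1 : ∀ i : Fin 3, {i} ∈ S)
    (hS : ∀ l, univ.erase l ∈ S) (hN0 : N ∅ = 1) {N1 N2 : ℝ} (hN1 : ∀ i : Fin 3, N {i} = N1) (hN1p : 0 < N1)
    (hN2 : ∀ l, N (univ.erase l) = N2) (hN2p : 0 < N2) (t : ℕ) {c : Pt (Fin 3) X β φ}
    {i k l : Fin 3} (hil : i ≠ l) (hik : i ≠ k) (hlk : l ≠ k) (a bb : ℝ)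
    {f : β × List (Pt (Fin 3) X β φ) → φ → ℝ} (hf : ∀ z F, |f z F| ≤ 1) {g : X → ℝ} (g0 : ∀ x, 0 ≤ g x)
    (g1 : ∀ x, g x ≤ 1) :
    |(muC D v (t + 1) t c).E (fun x => g x * (ind (Cl v (t + 1) l c x) * Ph D v t t (t + 1) c i k f x)) -
      fbr D v t c i k l f * (muC D v (t + 1) t c).E (fun x => g x * ind (Cl v (t + 1) l c x))| ≤
      kapB N1 N2 a bb * (muC D v (t + 1) t c).E (fun x => g x * ind (Cl v (t + 1) l c x)) +
        2 * (Real.exp (-a) + Real.exp (-bb) * (muC D v (t + 1) t c).E (fun x => ind (Cl v (t + 1) l c x))) := by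
  set μ := muC D v (t + 1) t c with hμ
  set φb := fbr D v t c i k l f with hφb
  have hφ1 : |φb| ≤ 1 := fbr_abs h t c i k l hf
  have hk1 : 0 ≤ kapB N1 N2 a bb := by
    unfold kapB kap0
    positivity
  set mC := μ.E (fun x => ind (Cl v (t + 1) l c x)) with hmC
  have mC0 : 0 ≤ mC := FP.E_nonneg _ fun _ _ => ind_nonneg _
  have key := wt_ev μ (a := fun x => ind (Cl v (t + 1) l c x) * (Ph D v t t (t + 1) c i k f x - φb))
    (b := fun x => kapB N1 N2 a bb * ind (Cl v (t + 1) l c x)) (B := 2 * (Real.exp (-a) + Real.exp (-bb) * mC))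
    (fun E => ?_) g0 g1
  · have e1 : μ.E (fun x => g x * (ind (Cl v (t + 1) l c x) * (Ph D v t t (t + 1) c i k f x - φb))) =
        μ.E (fun x => g x * (ind (Cl v (t + 1) l c x) * Ph D v t t (t + 1) c i k f x)) -
        φb * μ.E (fun x => g x * ind (Cl v (t + 1) l c x)) := by
      rw [← FP.E_smul, ← FP.E_sub]
      exact FP.E_congr _ fun x _ => by ring
    have e2 : μ.E (fun x => g x * (kapB N1 N2 a bb * ind (Cl v (t + 1) l c x))) =
        kapB N1 N2 a bb * μ.E (fun x => g x * ind (Cl v (t + 1) l c x)) := by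
      rw [← FP.E_smul]
      exact FP.E_congr _ fun x _ => by ring
    rw [e1, e2] at key
    exact key
  · have e2 : μ.E (fun x => ind (E x) * (kapB N1 N2 a bb * ind (Cl v (t + 1) l c x))) =
        kapB N1 N2 a bb * μ.E (fun x => ind (E x) * ind (Cl v (t + 1) l c x)) := by
      rw [← FP.E_smul]
      exact FP.E_congr _ fun x _ => by ring
    rw [e2]
    have hm0 : 0 ≤ μ.E (fun x => ind (E x) * ind (Cl v (t + 1) l c x)) :=
      FP.E_nonneg _ fun _ _ => mul_nonneg (ind_nonneg _) (ind_nonneg _)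
    have hx := Real.exp_pos (-a)
    have hx2 := mul_nonneg (Real.exp_pos (-bb)).le mC0
    have h3 : |μ.E (fun x => ind (E x) * (ind (Cl v (t + 1) l c x) * (Ph D v t t (t + 1) c i k f x - φb)))| ≤
        2 * μ.E (fun x => ind (E x) * ind (Cl v (t + 1) l c x)) := by
      refine (FP.abs_E_le _ _).trans ?_
      rw [← FP.E_smul]
      refine FP.E_mono _ fun x _ => ?_
      have h4 := Ph_abs h t t (t + 1) c i k hf x (v := v)
      have h5 : |Ph D v t t (t + 1) c i k f x - φb| ≤ 2 := by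
        refine (abs_sub _ _).trans ?_
        linarith
      rw [abs_mul, abs_mul, abs_of_nonneg (ind_nonneg _), abs_of_nonneg (ind_nonneg _), ← mul_assoc]
      have := mul_le_mul_of_nonneg_left h5 (mul_nonneg (ind_nonneg (E x)) (ind_nonneg (Cl v (t + 1) l c x)))
      linarith
    have h6 := mul_nonneg hk1 hm0
    rcases le_or_gt (Real.exp (-a)) (μ.E (fun x => ind (E x) * ind (Cl v (t + 1) l c x))) with h1 | h1
    · rcases le_or_gt (Real.exp (-bb) * mC) (μ.E (fun x => ind (E x) * ind (Cl v (t + 1) l c x))) with h2 | h2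
      · have h2 := ev_own2 R hN h0 hS1 hS hN0 hN1 hN1p hN2 hN2p t hil hik hlk h1 h2 hf
        refine h2.trans ?_
        linarith
      · linarith
    · linarith

/-- the same for functions of the letter alone -/
theorem wt_let (R : Run h N S (AdmDep D) v) (hN : ∀ J ∈ S, 0 ≤ N J) (h0 : ∅ ∈ S) (hS1 : ∀ i : Fin 3, {i} ∈ S)
    (hN0 : N ∅ = 1) {N1 : ℝ} (hN1 : ∀ i : Fin 3, N {i} = N1) (hN1p : 0 < N1) (t : ℕ) {c : Pt (Fin 3) X β φ}
    (hc : (D.P h t).p c ≠ 0) (i : Fin 3) (a : ℝ) {f : β × List (Pt (Fin 3) X β φ) → ℝ} (hf : ∀ z, |f z| ≤ 1)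
    {g : X → ℝ} (g0 : ∀ x, 0 ≤ g x) (g1 : ∀ x, g x ≤ 1) :
    |(muC D v (t + 1) t c).E (fun x => g x * Ps D v t (t + 1) c i f x) -
      (muC D v (t + 1) t c).E (Ps D v t (t + 1) c i f) * (muC D v (t + 1) t c).E g| ≤
      kap0 N1 a * (muC D v (t + 1) t c).E g + 2 * Real.exp (-a) := by
  have : Nonempty φ := ⟨c.2.2 0⟩
  have h1 := dvW_test (D := D) (v := v) (t + 1) t c i g hf
  have h2 := dvW_le (D := D) (v := v) (s := t + 1) (n := t) (c := c) (k := i)
    (fun E => dvC_all R hN h0 hS1 hN0 (fun j => (hN1 j).ge) hN1p t hc i a E) g0 g1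
  have h3 := h1.trans h2
  rw [mul_comm ((muC D v (t + 1) t c).E (Ps D v t (t + 1) c i f))]
  exact h3

/-! ### states with old letters -/

theorem nc_old (t : ℕ) {q : ℕ} (h5 : 5 * t ≤ q) (h4 : q ≤ 5 * t + 4) (j : Fin 3) : nc q {j} = t + 1 := by
  obtain ⟨j', rfl⟩ := Nat.exists_eq_add_of_le h5
  rw [nc_add t j' (pth_sing j) (by omega)]
  have key : ∀ j' ≤ 4, ∀ j : Fin 3, ¬ rk {j} < j' := by decide
  unfold ncj
  rw [if_neg (key j' (by omega) j), add_zero]

theorem nc_0ge (t : ℕ) {q : ℕ} (h5 : 5 * t ≤ q) : t + 1 ≤ nc q ∅ := by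
  have h1 := nc_mono h5 pth_emp
  have h2 := nc_add t 0 (J := ∅) pth_emp (by omega)
  rw [add_zero] at h2
  rw [h2] at h1
  unfold ncj at h1
  rw [if_neg (Nat.not_lt_zero _), add_zero] at h1
  exact h1

theorem nn_ge (t : ℕ) {q : ℕ} (h5 : 5 * t ≤ q) : t ≤ nn q := by
  have := nn_mono h5
  rwa [nn_0] at this

theorem nn_le1 (t : ℕ) {q : ℕ} (h5 : 5 * t ≤ q) (h4 : q ≤ 5 * t + 4) : nn q = t ∨ nn q = t + 1 := by
  obtain ⟨j', rfl⟩ := Nat.exists_eq_add_of_le h5
  rw [nn_add t j' (by omega)]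
  unfold nnj
  split_ifs
  · exact Or.inl rfl
  · exact Or.inr rfl

theorem cX_mono {s s' n n' : ℕ} (hs : s' ≤ s) (hn : n' ≤ n) {c : Pt (Fin 3) X β φ} {x : X} (hx : cX D v s n c x) :
    cX D v s' n' c x := by
  refine ⟨?_, qa_mono D hn hx.2⟩
  have h1 := congrArg (List.take s') hx.1
  rwa [take_Um hs, take_Um hs] at h1

/-- the law of the hidden point of a finer cell -/
theorem muQ_E {s s' n n' : ℕ} (hs : s' ≤ s) (hn : n' ≤ n) (c : Pt (Fin 3) X β φ) (H : X → ℝ) :
    (muC D v s' n' c).E (fun x => ind (cX D v s n c x) * H x) =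
      (muC D v s' n' c).Pr (cX D v s n c) * (muC D v s n c).E H := by
  have hA : (FP.unif X).Pr (cX D v s n c) ≠ 0 := unif_ne (cX_self s n c)
  have hA' : (FP.unif X).Pr (cX D v s' n' c) ≠ 0 := unif_ne (cX_self s' n' c)
  unfold muC
  show _ = ((FP.unif X).cond (cX D v s' n' c)).E (fun x => ind (cX D v s n c x)) * _
  rw [FP.cond_E hA', FP.cond_E hA', FP.cond_E hA]
  have e0 : ∀ x, ind (cX D v s' n' c x) * ind (cX D v s n c x) = ind (cX D v s n c x) := by
    intro x
    by_cases hx : cX D v s n c x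
    · rw [ind_of hx, ind_of (cX_mono hs hn hx), one_mul]
    · rw [ind_not hx, mul_zero]
  have e1 : (FP.unif X).E (fun x => ind (cX D v s' n' c x) * (ind (cX D v s n c x) * H x)) =
      (FP.unif X).E (fun x => ind (cX D v s n c x) * H x) :=
    FP.E_congr _ fun x _ => by rw [← mul_assoc, e0]
  have e2 : (FP.unif X).E (fun x => ind (cX D v s' n' c x) * ind (cX D v s n c x)) =
      (FP.unif X).Pr (cX D v s n c) := FP.E_congr _ fun x _ => e0 x
  rw [e1, e2]
  field_simp

/-- the law of a known point of a finer cell -/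
theorem nu_half (H : D.Hyp dg prr al T Lam) {t : ℕ} (ht : t < T) {q : ℕ} (h5 : 5 * t ≤ q) (h4 : q ≤ 5 * t + 4)
    (c : Pt (Fin 3) X β φ) (i : Fin 3) : ∃ r : β → ℝ, (∀ b, 0 ≤ r b ∧ r b ≤ 1) ∧
      ∀ G : β → ℝ, (nuC D (nn q) c i).E G = 2 * (nuC D t c i).E (fun b => r b * G b) := by
  classical
  have hm : ∀ b, mC D (nn q) c i b ≤ 2 * mC D t c i b := by
    intro b
    rcases nn_le1 t h5 h4 with h1 | h1
    · rw [h1]
      have := mC_nonneg (D := D) t c i b
      linarith
    · rw [h1]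
      exact mC_succ H ht c i b
  have hs : ∀ (n : ℕ) (G : β → ℝ), (nuC D n c i).E G = ∑ b : β, mC D n c i b * G b := by
    intro n G
    have h3 : (nuC D n c i).E G = (nuC D n c i).E (fun b' => ∑ b : β, ind (b' = b) * G b) := by
      refine FP.E_congr _ fun b' _ => ?_
      rw [Finset.sum_eq_single b']
      · rw [ind_of rfl, one_mul]
      · intro b _ hb; rw [ind_not (Ne.symm hb), zero_mul]
      · intro hn; exact absurd (mem_univ _) hn
    rw [h3, FP.E_sum]
    exact Finset.sum_congr rfl fun b _ => FP.E_mul_const _ _ _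
  refine ⟨fun b => mC D (nn q) c i b / (2 * mC D t c i b), fun b => ⟨?_, ?_⟩, fun G => ?_⟩
  · exact div_nonneg (mC_nonneg _ c i b) (mul_nonneg (by norm_num) (mC_nonneg _ c i b))
  · exact div_le_one_of_le₀ (hm b) (mul_nonneg (by norm_num) (mC_nonneg _ c i b))
  · rw [hs, hs, Finset.mul_sum]
    refine Finset.sum_congr rfl fun b _ => ?_
    by_cases h0 : mC D t c i b = 0
    · have h1 := hm b
      rw [h0, mul_zero] at h1
      have h2 : mC D (nn q) c i b = 0 := le_antisymm h1 (mC_nonneg _ c i b)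
      rw [h0, h2]
      ring
    · field_simp

/-- the mass of the finer public cell -/
theorem del_mu (hv : Codes D v) (t : ℕ) {q : ℕ} (h5 : 5 * t ≤ q) {c : Pt (Fin 3) X β φ} {del : ℝ}
    (hdel : del * (D.P h t).m (NPq D v (5 * t)) c ≤ (D.P h t).m (NPq D v q) c) :
    del ≤ (muC D v (t + 1) t c).Pr (cX D v (nc q ∅) (nn q) c) := by
  have hnc : nc (5 * t) ∅ = t + 1 := by
    have h1 := nc_add t 0 (J := ∅) pth_emp (by omega)
    rw [add_zero] at h1
    rw [h1]
    unfold ncj
    rw [if_neg (Nat.not_lt_zero _), add_zero]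
  have e1 : (D.P h t).m (NPq D v (5 * t)) c = (FP.unif X).Pr (cX D v (t + 1) t c) *
      ∏ j, (FP.unif β).Pr (cY D t c j) := by
    have h1 := cell_Pr (h := h) hv t (s := t + 1) (n := t) le_rfl c
    rw [← h1]
    unfold NPq
    rw [hnc, nn_0]
    rfl
  have e2 : (D.P h t).m (NPq D v q) c = (FP.unif X).Pr (cX D v (nc q ∅) (nn q) c) *
      ∏ j, (FP.unif β).Pr (cY D (nn q) c j) := cell_Pr (h := h) hv t (nc_le q ∅) c
  rw [e1, e2] at hdel
  have hA : (FP.unif X).Pr (cX D v (t + 1) t c) ≠ 0 := unif_ne (cX_self (t + 1) t c)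
  have hA' : (FP.unif X).Pr (cX D v (nc q ∅) (nn q) c) ≠ 0 := unif_ne (cX_self _ _ c)
  have e3 : (FP.unif X).Pr (cX D v (t + 1) t c) * (muC D v (t + 1) t c).Pr (cX D v (nc q ∅) (nn q) c) =
      (FP.unif X).Pr (cX D v (nc q ∅) (nn q) c) := by
    unfold muC
    show (FP.unif X).Pr (cX D v (t + 1) t c) * ((FP.unif X).cond (cX D v (t + 1) t c)).E
      (fun x => ind (cX D v (nc q ∅) (nn q) c x)) = _
    rw [FP.Pr_mul_cond_E hA]
    unfold FP.Pr
    refine FP.E_congr _ fun x _ => ?_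
    by_cases hx : cX D v (nc q ∅) (nn q) c x
    · rw [ind_of hx, ind_of (cX_mono (nc_0ge t h5) (nn_ge t h5) hx), one_mul]
    · rw [ind_not hx, mul_zero]
  have h1 : ∏ j, (FP.unif β).Pr (cY D (nn q) c j) ≤ ∏ j, (FP.unif β).Pr (cY D t c j) :=
    Finset.prod_le_prod (fun j _ => FP.Pr_nonneg _ _) fun j _ => FP.Pr_mono _ fun b _ hb =>
      qb_mono D (nn_ge t h5) hb
  have h2 : 0 < ∏ j, (FP.unif β).Pr (cY D t c j) :=
    Finset.prod_pos fun j _ => lt_of_le_of_ne (FP.Pr_nonneg _ _) (Ne.symm (unif_ne (cY_self t c j)))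
  have h3 := mul_le_mul_of_nonneg_left h1 (FP.Pr_nonneg (FP.unif X) (cX D v (nc q ∅) (nn q) c))
  rw [← e3] at h3 hdel
  have h4 : 0 < (FP.unif X).Pr (cX D v (t + 1) t c) := lt_of_le_of_ne (FP.Pr_nonneg _ _) (Ne.symm hA)
  refine le_of_mul_le_mul_left ?_ (mul_pos h4 h2)
  linarith

/-- what a top sees, from the public information and the letters -/
theorem Zb_of (hv : Codes D v) {q : ℕ} {k : Fin 3} {u u' : Pt (Fin 3) X β φ} (hn : NPq D v q u = NPq D v q u')
    (hx : ∀ j, j ≠ k → XLq v q j u = XLq v q j u') : ZbQ D v q k u = ZbQ D v q k u' := by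
  rw [Zb_iff hv]
  refine ⟨hn, fun j hj => congrArg Prod.fst (hx j hj), fun j hj => ?_⟩
  have h1 : Um v (nc q {j}) {j} u.1 u.2.1 = Um v (nc q {j}) {j} u'.1 u'.2.1 := congrArg Prod.snd (hx j hj)
  rw [← h1]
  have h2 := ((NPq_iff hv q u' u).1 hn).2
  refine Um_codes hv (nc_le q {j}) {j} u.1 (fun l hl => ?_) fun l => (h2 l).symm
  rw [Finset.mem_singleton.1 hl]
  exact (congrArg Prod.fst (hx j hj)).symm

/-- all thin labels, from what a top sees and the missing letter -/
theorem Z_of {q : ℕ} {i : Fin 3} {u u' : Pt (Fin 3) X β φ} (hz : ZbQ D v q i u = ZbQ D v q i u')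
    (hx : XLq v q i u = XLq v q i u') : ZQ D v q u = ZQ D v q u' := by
  have e3 := Zb_pts hz
  have e4 : u.2.1 i = u'.2.1 i := congrArg Prod.fst hx
  have e5 : Um v (nc q {i}) {i} u.1 u.2.1 = Um v (nc q {i}) {i} u'.1 u'.2.1 := congrArg Prod.snd hx
  unfold ZQ
  refine Prod.ext (funext fun J => ?_) ?_
  · show SL v q J.1 u = SL v q J.1 u'
    have hJ := J.2
    by_cases hJd : J.1 = {i}
    · rw [hJd]
      unfold SL
      rw [LL_eq]
      refine ⟨e5, fun l hl => absurd hl (no_top l {i} (by simp))⟩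
    · have hsub : J.1 ⊂ univ.erase i := by
        have key : ∀ (d : Fin 3) (J : Finset (Fin 3)), J.card ≤ 1 → J ≠ {d} → J ⊂ univ.erase d := by decide
        exact key i J.1 hJ hJd
      unfold ZbQ at hz
      simp only [Prod.mk.injEq] at hz
      exact lo_eq.1 hz.1 J.1 hsub
  · show WW D (nn q) u = WW D (nn q) u'
    rw [WW_eq]
    refine ⟨funext fun j => ?_, e3.2.1⟩
    by_cases hj : j = i
    · rw [hj]; exact e4
    · exact e3.1 j hj

theorem Zb_own (hv : Codes D v) {q : ℕ} {i l : Fin 3} (hli : l ≠ i) {u c : Pt (Fin 3) X β φ}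
    (hz : ZbQ D v q i u = ZbQ D v q i c) : OwQ D v q l c u := by
  rw [OwQ_iff hv]
  obtain ⟨h1, h2, h3⟩ := (Zb_iff hv q i c u).1 hz
  exact ⟨h1, h2 l hli, h3 l hli⟩

theorem own_fac (hv : Codes D v) {q : ℕ} {l k : Fin 3} (hlk : l ≠ k) (c : Pt (Fin 3) X β φ) :
    Fac (ZbQ D v q k) (OwQ D v q l c) := by
  intro x y hxy
  have h1 := Zb_own hv hlk hxy
  show OwQ D v q l c x = OwQ D v q l c y
  refine propext ⟨fun hh => ?_, fun hh => ?_⟩
  · exact ⟨(h1.1.symm.trans hh.1), (h1.2.symm.trans hh.2)⟩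
  · exact ⟨h1.1.trans hh.1, h1.2.trans hh.2⟩

theorem XLq_fac (hv : Codes D v) {q : ℕ} {i k : Fin 3} (hik : i ≠ k) : Fac (ZbQ (φ := φ) D v q k) (XLq v q i) := by
  intro x y hxy
  exact (Zb_own hv hik hxy).2

/-- **four comparisons** -/
theorem four_br {m1 m2 ml A2 Al B1 Bl fb pb k1 k0 B m0 : ℝ} (hm0 : 0 < m0) (h1 : m0 ≤ m1) (h2 : m0 ≤ m2) (hl : m0 ≤ ml)
    (hB : 0 ≤ B) (e : Al = Bl) (b1 : |A2 - fb * m2| ≤ k1 * m2 + B) (b2 : |Al - fb * ml| ≤ k1 * ml + B)
    (b3 : |Bl - pb * ml| ≤ k0 * ml + B) (b4 : |B1 - pb * m1| ≤ k0 * m1 + B) :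
    A2 / m2 - B1 / m1 ≤ 2 * k1 + 2 * k0 + 4 * B / m0 := by
  have one : ∀ {A m f k : ℝ}, m0 ≤ m → |A - f * m| ≤ k * m + B → |A / m - f| ≤ k + B / m0 := by
    intro A m f k hm hA
    have hmp : 0 < m := hm0.trans_le hm
    have e1 : A / m - f = (A - f * m) / m := by field_simp
    rw [e1, abs_div, abs_of_pos hmp]
    have h3 : |A - f * m| / m ≤ (k * m + B) / m := div_le_div_of_nonneg_right hA hmp.le
    refine h3.trans ?_
    have e2 : (k * m + B) / m = k + B / m := by field_simp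
    rw [e2]
    have h4 : B / m ≤ B / m0 := div_le_div_of_nonneg_left hB hm0 hm
    linarith
  have c1 := (abs_le.1 (one h2 b1)).2
  have c2 := (abs_le.1 (one hl b2)).1
  have c3 := (abs_le.1 (one hl b3)).2
  have c4 := (abs_le.1 (one h1 b4)).1
  rw [e] at c2
  have e3 : 4 * B / m0 = 4 * (B / m0) := by ring
  rw [e3]
  linarith

/-- constant of the rows; `dp` = mass of the cell and of the pair of letters -/
def epsR (N1 N2 al a dp : ℝ) : ℝ := 4 * kap1 N1 N2 a + 4 * kap0 N1 a + 16 * Real.exp (-a) / (al * dp)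

/-- **THE ROW BOUND OF TWO TOPS** : given what the top without `i` sees -/
theorem pair_row (H : D.Hyp dg prr al T Lam) (R : Run h N S (AdmDep D) v) (hN : ∀ J ∈ S, 0 ≤ N J) (h0 : ∅ ∈ S)
    (hS1 : ∀ i : Fin 3, {i} ∈ S) (hS : ∀ l, univ.erase l ∈ S) (hu : univ ∉ S) (hN0 : N ∅ = 1) {N1 N2 : ℝ}
    (hN1 : ∀ i : Fin 3, N {i} = N1) (hN1p : 0 < N1) (hN2 : ∀ l, N (univ.erase l) = N2) (hN2p : 0 < N2) {t q : ℕ}
    (ht : t < T) (h5 : 5 * t ≤ q) (h4 : q ≤ 5 * t + 4) {i k l : Fin 3} (hil : i ≠ l) (hik : i ≠ k) (hlk : l ≠ k)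
    {w : Pt (Fin 3) X β φ} (hw : (D.P h t).p w ≠ 0) {a del p0 : ℝ} (hdel0 : 0 < del) (hp0 : 0 < p0)
    (hdel : del ≤ (muC D v (t + 1) t w).Pr (cX D v (nc q ∅) (nn q) w))
    (hpr : p0 ≤ (muC D v (nc q ∅) (nn q) w).Pr (K0 v q i w)) (x : Tt X β φ) :
    (D.P h t).ce (ZbQ D v q i) (fun u => ∑ y ∈ vals (FQ v t k), |mF2 (D.P h t) (ZQ D v q) (FQ v t) i k u x y -
      qF (D.P h t) (ZbQ D v q) (FQ v t) i u x * qF (D.P h t) (ZbQ D v q) (FQ v t) k u y|) w ≤
      epsR N1 N2 al a (del * p0) * qF (D.P h t) (ZbQ D v q) (FQ v t) i w x := by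
  classical
  have hNl : ∀ l, 0 < N (univ.erase l) := fun l => by rw [hN2]; exact hN2p
  set P := D.P h t with hP
  set Z := ZQ (φ := φ) D v q with hZ
  set Zb := ZbQ (φ := φ) D v q with hZb
  set F := FQ (φ := φ) v t with hF
  have hv := R.codes
  set μ := muC D v (t + 1) t w with hμ
  set μq := muC D v (nc q ∅) (nn q) w with hμq
  have hni := nc_old t h5 h4 i
  have hnl := nc_old t h5 h4 l
  have htn := nn_ge t h5
  by_cases hx0 : qF P Zb F i w x = 0
  · have e1 : P.ce (Zb i) (fun u => ∑ y ∈ vals (F k), |mF2 P Z F i k u x y - qF P Zb F i u x * qF P Zb F k u y|) w = 0 := by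
      unfold FP.ce
      have e2 : P.E (fun u => ind (Zb i u = Zb i w) *
          ∑ y ∈ vals (F k), |mF2 P Z F i k u x y - qF P Zb F i u x * qF P Zb F k u y|) = 0 := by
        refine (P.E_congr fun u hu' => ?_).trans (P.E_const 0)
        by_cases hz : Zb i u = Zb i w
        · have e3 : qF P Zb F i u x = 0 := by
            have h1 : qF P Zb F i u x = qF P Zb F i w x := P.pv_fac _ _ _ u w hz
            rw [h1, hx0]
          have e4 : P.pv Z (F i) u x = 0 := P.pv_ac (ZQ_Zb q i) (F i) e3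
          have e5 : ∀ y, mF2 P Z F i k u x y = 0 := by
            intro y
            refine le_antisymm ?_ (P.pv_nonneg _ _ _ _)
            rw [← e4]
            unfold mF2 FP.pv
            refine P.ce_mono (fun u' _ => ind_mono fun hh => congrArg Prod.fst hh) u
          rw [Finset.sum_eq_zero fun y _ => by rw [e3, e5, zero_mul, sub_self, abs_zero], mul_zero]
        · rw [ind_not hz, zero_mul]
      rw [e2, zero_div]
    rw [e1, hx0, mul_zero]
  · obtain ⟨u0, hu0, hz0, hx⟩ : ∃ u0, P.p u0 ≠ 0 ∧ Zb i u0 = Zb i w ∧ F i u0 = x := by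
      by_contra hcon
      push Not at hcon
      apply hx0
      unfold qF FP.pv FP.ce
      have e2 : P.E (fun u => ind (Zb i u = Zb i w) * ind (F i u = x)) = 0 := by
        refine (P.E_congr fun u hu' => ?_).trans (P.E_const 0)
        by_cases hz : Zb i u = Zb i w
        · rw [ind_not (hcon u hu' hz), mul_zero]
        · rw [ind_not hz, zero_mul]
      rw [e2, zero_div]
    set F0 := u0.2.2 i with hF0
    have hlab : ∀ u, P.p u ≠ 0 → Zb i u = Zb i w → (F i u = x ↔ u.2.2 i = F0) := by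
      intro u hu' hz
      rw [← hx]
      exact top_name H R hS hu hNl ht.le h5 hu' hu0 (hz.trans hz0.symm)
    -- the signs
    set M : Pt (Fin 3) X β φ → Tt X β φ → ℝ := fun u y => mF2 P Z F i k u x y - qF P Zb F i w x * qF P Zb F k u y with hM
    set sg : ℝ → ℝ := fun r => if 0 ≤ r then 1 else -1 with hsg
    have sg1 : ∀ r, |sg r| ≤ 1 := fun r => by
      simp only [hsg]
      split_ifs
      · rw [abs_one]
      · rw [abs_neg, abs_one]
    have sg2 : ∀ r, |r| = sg r * r := fun r => by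
      simp only [hsg]
      split_ifs with hr
      · rw [abs_of_nonneg hr, one_mul]
      · rw [abs_of_neg (not_le.1 hr)]; ring
    have MZ : ∀ u u', Z u = Z u' → ∀ y, M u y = M u' y := by
      intro u u' huu y
      have h1 : mF2 P Z F i k u x y = mF2 P Z F i k u' x y := P.pv_fac _ _ _ u u' huu
      have h2 : qF P Zb F k u y = qF P Zb F k u' y := P.pv_fac _ _ _ u u' (ZQ_Zb q k u u' huu)
      show mF2 P Z F i k u x y - _ * qF P Zb F k u y = mF2 P Z F i k u' x y - _ * qF P Zb F k u' y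
      rw [h1, h2]
    have hst : ∀ y, ∃ st : β × List (Pt (Fin 3) X β φ) → ℝ, (∀ z, |st z| ≤ 1) ∧
        ∀ u, (P.p u ≠ 0 ∧ Zb i u = Zb i w) → st (XLq v q i u) = sg (M u y) := fun y =>
      fac_ext (fun u => P.p u ≠ 0 ∧ Zb i u = Zb i w) (XLq v q i) (fun u => sg (M u y)) (fun u _ => sg1 _)
        (fun u u' hu' hu'' hX => congrArg sg (MZ u u' (Z_of (hu'.2.trans hu''.2.symm) hX) y))
    choose st st1 st2 using hst
    -- points of the own class
    have own2 : ∀ u u', OwQ D v q l w u → OwQ D v q l w u' → XLq v q i u = XLq v q i u' → Zb k u = Zb k u' := by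
      intro u u' ho ho' hX
      refine Zb_of hv (ho.1.trans ho'.1.symm) fun j hj => ?_
      have key : ∀ i k l j : Fin 3, i ≠ l → i ≠ k → l ≠ k → j ≠ k → j = i ∨ j = l := by decide
      rcases key i k l j hil hik hlk hj with rfl | rfl
      · exact hX
      · exact ho.2.trans ho'.2.symm
    obtain ⟨f', f1, f2⟩ := fac_ext (fun u => P.p u ≠ 0 ∧ OwQ D v q l w u) (fun u => (XLq v q i u, u.2.2 k))
      (fun u => st (F k u) (XLq v q i u)) (fun u _ => st1 _ _) (fun u u' hu' hu'' hY => by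
        rw [Prod.mk.injEq] at hY
        have h1 := own2 u u' hu'.2 hu''.2 hY.1
        have h2 : F k u = F k u' := (top_name H R hS hu hNl ht.le h5 hu'.1 hu''.1 h1).2 hY.2
        rw [hY.1, h2])
    obtain ⟨G, G1, G2⟩ := fac_ext (fun u => P.p u ≠ 0 ∧ OwQ D v q l w u) (XLq v q i)
      (fun u => ∑ y ∈ vals (F k), st y (XLq v q i u) * qF P Zb F k u y) (fun u hu' => by
        refine (Finset.abs_sum_le_sum_abs _ _).trans ?_
        rw [← P.pv_sum (Zb k) (F k) hu'.1]
        refine Finset.sum_le_sum fun y _ => ?_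
        have hq0 : 0 ≤ qF P Zb F k u y := P.pv_nonneg _ _ _ _
        rw [abs_mul, abs_of_nonneg hq0]
        have := mul_le_mul_of_nonneg_right (st1 y (XLq v q i u)) hq0
        rwa [one_mul] at this) (fun u u' hu' hu'' hX => by
        have h1 := own2 u u' hu'.2 hu''.2 hX
        refine Finset.sum_congr rfl fun y _ => ?_
        have h2 : qF P Zb F k u y = qF P Zb F k u' y := P.pv_fac _ _ _ u u' h1
        rw [hX, h2])
    set f : β × List (Pt (Fin 3) X β φ) → φ → ℝ := fun z Fv => f' (z, Fv) with hf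
    -- the numerator
    have num : P.E (fun u => ind (Zb i u = Zb i w) *
        ∑ y ∈ vals (F k), |mF2 P Z F i k u x y - qF P Zb F i u x * qF P Zb F k u y|) =
        P.E (fun u => ind (Zb i u = Zb i w) * (ind (u.2.2 i = F0) * f (XLq v q i u) (u.2.2 k))) -
        qF P Zb F i w x * P.E (fun u => ind (Zb i u = Zb i w) * G (XLq v q i u)) := by
      have e1 : ∀ u, P.p u ≠ 0 → ind (Zb i u = Zb i w) *
          ∑ y ∈ vals (F k), |mF2 P Z F i k u x y - qF P Zb F i u x * qF P Zb F k u y| =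
          ∑ y ∈ vals (F k), (ind (Zb i u = Zb i w) * st y (XLq v q i u)) * mF2 P Z F i k u x y -
          qF P Zb F i w x * (ind (Zb i u = Zb i w) * G (XLq v q i u)) := by
        intro u hu'
        by_cases hz : Zb i u = Zb i w
        · have h1 : qF P Zb F i u x = qF P Zb F i w x := P.pv_fac _ _ _ u w hz
          have h2 : G (XLq v q i u) = ∑ y ∈ vals (F k), st y (XLq v q i u) * qF P Zb F k u y :=
            G2 u ⟨hu', Zb_own hv hil.symm hz⟩
          rw [ind_of hz, h1, h2, one_mul, one_mul, Finset.mul_sum, ← Finset.sum_sub_distrib]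
          refine Finset.sum_congr rfl fun y _ => ?_
          rw [one_mul, show mF2 P Z F i k u x y - qF P Zb F i w x * qF P Zb F k u y = M u y from rfl, sg2,
            ← st2 y u ⟨hu', hz⟩]
          show st y (XLq v q i u) * (mF2 P Z F i k u x y - qF P Zb F i w x * qF P Zb F k u y) = _
          ring
        · rw [ind_not hz]
          simp
      rw [P.E_congr e1, FP.E_sub, FP.E_smul, FP.E_sum]
      congr 1
      have e2 : ∀ y ∈ vals (F k), P.E (fun u => (ind (Zb i u = Zb i w) * st y (XLq v q i u)) * mF2 P Z F i k u x y) =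
          P.E (fun u => (ind (Zb i u = Zb i w) * st y (XLq v q i u)) * ind ((F i u, F k u) = (x, y))) := by
        intro y _
        refine P.E_mul_ce (X := Z) (h := fun u => ind (Zb i u = Zb i w) * st y (XLq v q i u)) (fun a' b' hab => ?_)
          (fun u => ind ((F i u, F k u) = (x, y)))
        show ind (Zb i a' = Zb i w) * st y (XLq v q i a') = ind (Zb i b' = Zb i w) * st y (XLq v q i b')
        rw [show Zb i a' = Zb i b' from ZQ_Zb q i a' b' hab, ZQ_XLq q i a' b' hab]
      rw [Finset.sum_congr rfl e2, ← FP.E_sum]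
      refine P.E_congr fun u hu' => ?_
      by_cases hz : Zb i u = Zb i w
      · rw [ind_of hz, one_mul]
        have h2 : f (XLq v q i u) (u.2.2 k) = st (F k u) (XLq v q i u) := f2 u ⟨hu', Zb_own hv hil.symm hz⟩
        rw [h2, Finset.sum_eq_single (F k u)]
        · rw [one_mul, mul_comm]
          congr 1
          refine ind_cg ?_
          rw [Prod.mk.injEq, ← hlab u hu' hz]
          exact ⟨fun hh => hh.1, fun hh => ⟨hh, rfl⟩⟩
        · intro y _ hy
          rw [ind_not (fun hh => hy (congrArg Prod.snd hh).symm), mul_zero]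
        · intro hn
          exact absurd (mem_valsOf (F k) u) hn
      · rw [ind_not hz, zero_mul]
        exact Finset.sum_eq_zero fun y _ => by rw [zero_mul, zero_mul]
    -- the tower in the own class
    have tow : P.E (fun u => ind (OwQ D v q l w u) * f (XLq v q i u) (u.2.2 k)) =
        P.E (fun u => ind (OwQ D v q l w u) * G (XLq v q i u)) := by
      have e1 : P.E (fun u => ind (OwQ D v q l w u) * f (XLq v q i u) (u.2.2 k)) =
          ∑ y ∈ vals (F k), P.E (fun u => (ind (OwQ D v q l w u) * st y (XLq v q i u)) * ind (F k u = y)) := by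
        rw [← FP.E_sum]
        refine P.E_congr fun u hu' => ?_
        by_cases ho : OwQ D v q l w u
        · have h2 : f (XLq v q i u) (u.2.2 k) = st (F k u) (XLq v q i u) := f2 u ⟨hu', ho⟩
          rw [h2, Finset.sum_eq_single (F k u)]
          · rw [ind_of (rfl : F k u = F k u), mul_one]
          · intro y _ hy
            have h3 : ind (F k u = y) = 0 := ind_not (fun hh => hy hh.symm)
            rw [h3, mul_zero]
          · intro hn
            exact absurd (mem_valsOf (F k) u) hn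
        · rw [ind_not ho, zero_mul]
          exact (Finset.sum_eq_zero fun y _ => by rw [zero_mul, zero_mul]).symm
      have e2 : ∀ y ∈ vals (F k), P.E (fun u => (ind (OwQ D v q l w u) * st y (XLq v q i u)) * ind (F k u = y)) =
          P.E (fun u => (ind (OwQ D v q l w u) * st y (XLq v q i u)) * qF P Zb F k u y) := by
        intro y _
        refine (P.E_mul_ce (X := Zb k) (h := fun u => ind (OwQ D v q l w u) * st y (XLq v q i u))
          (fun a' b' hab => ?_) (fun u => ind (F k u = y))).symm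
        have h1 : OwQ D v q l w a' = OwQ D v q l w b' := own_fac hv hlk w a' b' hab
        show ind (OwQ D v q l w a') * st y (XLq v q i a') = ind (OwQ D v q l w b') * st y (XLq v q i b')
        rw [h1, XLq_fac hv hik a' b' hab]
      rw [e1, Finset.sum_congr rfl e2, ← FP.E_sum]
      refine P.E_congr fun u hu' => ?_
      by_cases ho : OwQ D v q l w u
      · have h2 : G (XLq v q i u) = ∑ y ∈ vals (F k), st y (XLq v q i u) * qF P Zb F k u y := G2 u ⟨hu', ho⟩
        rw [ind_of ho, h2, one_mul]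
        exact Finset.sum_congr rfl fun y _ => by rw [one_mul]
      · rw [ind_not ho, zero_mul]
        exact Finset.sum_eq_zero fun y _ => by rw [zero_mul, zero_mul]
    -- the class of the hidden point
    obtain ⟨r, r01, hr⟩ := nu_half H ht h5 h4 w i
    set fr : β × List (Pt (Fin 3) X β φ) → φ → ℝ := fun z Fv => r z.1 * f z Fv with hfr
    set Gr : β × List (Pt (Fin 3) X β φ) → ℝ := fun z => r z.1 * G z with hGr
    have hfr1 : ∀ z Fv, |fr z Fv| ≤ 1 := fun z Fv => by
      simp only [hfr]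
      rw [abs_mul, abs_of_nonneg (r01 z.1).1]
      exact mul_le_one₀ (r01 z.1).2 (abs_nonneg _) (f1 (z, Fv))
    have hGr1 : ∀ z, |Gr z| ≤ 1 := fun z => by
      simp only [hGr]
      rw [abs_mul, abs_of_nonneg (r01 z.1).1]
      exact mul_le_one₀ (r01 z.1).2 (abs_nonneg _) (G1 z)
    set Φ : X → ℝ := Ph D v t t (t + 1) w i k fr with hΦ
    set Ψ : X → ℝ := Ps D v t (t + 1) w i Gr with hΨ
    have ePh : ∀ x', Ph D v t (nn q) (nc q {i}) w i k f x' = 2 * Φ x' := by
      intro x'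
      simp only [hΦ]
      unfold Ph
      rw [hni, hr]
      congr 1
      refine FP.E_congr _ fun b _ => ?_
      rw [Finset.mul_sum]
      refine Finset.sum_congr rfl fun Fv _ => ?_
      simp only [hfr]
      ring
    have ePs : ∀ x', Ps D v (nn q) (nc q {i}) w i G x' = 2 * Ψ x' := by
      intro x'
      simp only [hΨ]
      unfold Ps
      rw [hni, hr]
    set cq := cX D v (nc q ∅) (nn q) w with hcq
    set m0 := μ.Pr cq with hm0
    have hm0p : 0 < m0 := hdel0.trans_le hdel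
    have muE : ∀ Hh : X → ℝ, μ.E (fun x' => ind (cq x') * Hh x') = m0 * μq.E Hh := fun Hh =>
      muQ_E (nc_0ge t h5) htn w Hh
    set KK := K0 v q i w with hKK
    set CC := Cl v (t + 1) l w with hCC
    have hKC : ∀ x', KK x' → CC x' := fun x' hx' => by
      have h1 := hx' l hil.symm
      rw [hnl] at h1
      exact h1
    set kf := fun x' => D.kf t i x' w.2.1 F0 with hkf
    have kf0 : ∀ x', 0 ≤ kf x' := fun x' => h.nn _ _ _ _ _
    have kf1 : ∀ x', kf x' ≤ 1 := fun x' => kf_le_one h t i x' w.2.1 F0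
    -- masses
    set m1 := μ.E (fun x' => ind (cq x') * ind (KK x')) with hm1
    set m2 := μ.E (fun x' => ind (cq x') * (ind (KK x') * kf x')) with hm2
    set ml := μ.E (fun x' => ind (cq x') * ind (CC x')) with hml
    have e_m1 : m1 = m0 * μq.E (fun x' => ind (KK x')) := muE _
    have e_m2 : m2 = m0 * μq.E (fun x' => ind (KK x') * kf x') := muE _
    have hm1p : del * p0 ≤ m1 := by
      rw [e_m1]
      exact mul_le_mul hdel hpr hp0.le (hdel0.le.trans hdel)
    have hal1 : al ≤ 1 := hal_one h i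
    have hm2p : al * (del * p0) ≤ m2 := by
      refine (mul_le_mul_of_nonneg_left hm1p h.pos.le).trans ?_
      rw [hm1, hm2, ← FP.E_smul]
      refine FP.E_mono _ fun x' _ => ?_
      by_cases hk : KK x'
      · by_cases hcx : cq x'
        · rw [ind_of hk, ind_of hcx]
          simp only [one_mul, mul_one]
          have h2 := Zb_pts hz0
          have h3 : D.kf t i u0.1 u0.2.1 F0 ≠ 0 := by
            have h6 : (∏ l, D.kf t l u0.1 u0.2.1 (u0.2.2 l)) /
              (Fintype.card X * (Fintype.card β : ℝ) ^ Fintype.card (Fin 3)) ≠ 0 := hu0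
            exact Finset.prod_ne_zero_iff.1 (div_ne_zero_iff.1 h6).1 i (mem_univ i)
          have h7 := h.thick t i u0.1 x' u0.2.1 F0 (qa_mono D htn (h2.2.1.trans hcx.2.symm)) h3
          rwa [D.dep t i x' u0.2.1 w.2.1 h2.1 (qb_mono D htn (h2.2.2 i))] at h7
        · rw [ind_not hcx, zero_mul, zero_mul, mul_zero]
      · rw [ind_not hk, mul_zero, mul_zero, zero_mul, mul_zero]
    have hmlp : m1 ≤ ml := FP.E_mono _ fun x' _ =>
      mul_le_mul_of_nonneg_left (ind_mono (hKC x')) (ind_nonneg _)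
    have hdp : 0 < del * p0 := mul_pos hdel0 hp0
    have hadp : 0 < al * (del * p0) := mul_pos h.pos hdp
    have hadp1 : al * (del * p0) ≤ del * p0 := by
      have := mul_le_mul_of_nonneg_right hal1 hdp.le
      rwa [one_mul] at this
    -- the four comparisons
    have b1 : |μ.E (fun x' => ind (cq x') * (ind (KK x') * (kf x' * Φ x'))) - fbr D v t w i k l fr * m2| ≤
        kap1 N1 N2 a * m2 + 2 * Real.exp (-a) := by
      have h1 := wt_own R hN h0 hS1 hS hN0 hN1 hN1p hN2 hN2p t hil hik hlk a hfr1 (c := w)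
        (g := fun x' => ind (cq x') * (ind (KK x') * kf x'))
        (fun x' => mul_nonneg (ind_nonneg _) (mul_nonneg (ind_nonneg _) (kf0 x')))
        (fun x' => mul_le_one₀ (ind_le_one _) (mul_nonneg (ind_nonneg _) (kf0 x'))
          (mul_le_one₀ (ind_le_one _) (kf0 x') (kf1 x')))
      have e1 : ∀ x', ind (cq x') * (ind (KK x') * kf x') * ind (CC x') = ind (cq x') * (ind (KK x') * kf x') := by
        intro x'
        by_cases hk : KK x'
        · rw [ind_of (hKC x' hk), mul_one]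
        · rw [ind_not hk, zero_mul, mul_zero, zero_mul]
      have e2 : ∀ x', ind (cq x') * (ind (KK x') * kf x') * (ind (CC x') * Φ x') =
          ind (cq x') * (ind (KK x') * (kf x' * Φ x')) := by
        intro x'
        rw [← mul_assoc, e1]
        ring
      simp only [hCC] at e1 e2
      simp only [e1, ← hμ] at h1
      rw [show (fun x' => ind (cq x') * (ind (KK x') * (kf x' * Φ x'))) =
        fun x' => ind (cq x') * (ind (KK x') * kf x') * (ind (CC x') * Φ x') from funext fun x' => (e2 x').symm]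
      exact h1
    have b2 : |μ.E (fun x' => ind (cq x') * (ind (CC x') * Φ x')) - fbr D v t w i k l fr * ml| ≤
        kap1 N1 N2 a * ml + 2 * Real.exp (-a) :=
      wt_own R hN h0 hS1 hS hN0 hN1 hN1p hN2 hN2p t hil hik hlk a hfr1 (c := w) (g := fun x' => ind (cq x'))
        (fun x' => ind_nonneg _) (fun x' => ind_le_one _)
    have b3 : |μ.E (fun x' => ind (cq x') * (ind (CC x') * Ψ x')) - μ.E Ψ * ml| ≤
        kap0 N1 a * ml + 2 * Real.exp (-a) := by
      have h1 := wt_let R hN h0 hS1 hN0 hN1 hN1p t hw i a hGr1 (g := fun x' => ind (cq x') * ind (CC x'))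
        (fun x' => mul_nonneg (ind_nonneg _) (ind_nonneg _))
        (fun x' => mul_le_one₀ (ind_le_one _) (ind_nonneg _) (ind_le_one _))
      simp only [mul_assoc] at h1
      exact h1
    have b4 : |μ.E (fun x' => ind (cq x') * (ind (KK x') * Ψ x')) - μ.E Ψ * m1| ≤
        kap0 N1 a * m1 + 2 * Real.exp (-a) := by
      have h1 := wt_let R hN h0 hS1 hN0 hN1 hN1p t hw i a hGr1 (g := fun x' => ind (cq x') * ind (KK x'))
        (fun x' => mul_nonneg (ind_nonneg _) (ind_nonneg _))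
        (fun x' => mul_le_one₀ (ind_le_one _) (ind_nonneg _) (ind_le_one _))
      simp only [mul_assoc] at h1
      exact h1
    -- the two functions agree inside the own class
    have e_AB : μ.E (fun x' => ind (cq x') * (ind (CC x') * Φ x')) = μ.E (fun x' => ind (cq x') * (ind (CC x') * Ψ x')) := by
      rw [muE, muE]
      congr 1
      have h1 := own_lab (h := h) hv htn w hil hik hlk (fun _ => True) f
      have h2 := own_E (h := h) hv t q w hil (fun x' b => G (b, code v (nc q {i}) w i x' b))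
      have h3 : P.E (fun u => ind (OwQ D v q l w u) * (ind True * f (XLq v q i u) (u.2.2 k))) =
          P.E (fun u => ind (OwQ D v q l w u) * G (u.2.1 i, code v (nc q {i}) w i u.1 (u.2.1 i))) := by
        have e1 : P.E (fun u => ind (OwQ D v q l w u) * (ind True * f (XLq v q i u) (u.2.2 k))) =
            P.E (fun u => ind (OwQ D v q l w u) * f (XLq v q i u) (u.2.2 k)) :=
          P.E_congr fun u _ => by rw [ind_of trivial, one_mul]
        rw [e1, tow]
        refine P.E_congr fun u _ => ?_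
        by_cases ho : OwQ D v q l w u
        · rw [XLq_code hv ho.1 i]
        · rw [ind_not ho, zero_mul, zero_mul]
      rw [h3] at h1
      have h6 := h1.symm.trans h2
      have h7 := mul_left_cancel₀ (Ml_pos (D := D) (v := v) q l w).ne' h6
      rw [hnl] at h7
      have e2 : μq.E (fun x' => ind (CC x') * (ind True * Ph D v t (nn q) (nc q {i}) w i k f x')) =
          2 * μq.E (fun x' => ind (CC x') * Φ x') := by
        rw [← FP.E_smul]
        exact FP.E_congr _ fun x' _ => by rw [ePh, ind_of trivial]; ring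
      have e3 : μq.E (fun x' => ind (CC x') * (nuC D (nn q) w i).E (fun b => G (b, code v (nc q {i}) w i x' b))) =
          2 * μq.E (fun x' => ind (CC x') * Ψ x') := by
        rw [← FP.E_smul]
        refine FP.E_congr _ fun x' _ => ?_
        have := ePs x'
        unfold Ps at this
        rw [this]
        ring
      have h8 : μq.E (fun x' => ind (CC x') * (ind True * Ph D v t (nn q) (nc q {i}) w i k f x')) =
        μq.E (fun x' => ind (CC x') * (nuC D (nn q) w i).E (fun b => G (b, code v (nc q {i}) w i x' b))) := h7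
      rw [e2, e3] at h8
      linarith
    have key := four_br hadp (hadp1.trans hm1p) hm2p (hadp1.trans (hm1p.trans hmlp))
      (mul_nonneg (by norm_num) (Real.exp_pos (-a)).le) e_AB b1 b2 b3 b4
    -- conclusion
    set A' := μq.E (fun x' => ind (KK x') * (kf x' * Φ x')) with hA'
    set B' := μq.E (fun x' => ind (KK x') * Ψ x') with hB'
    set e1 := μq.E (fun x' => ind (KK x')) with he1
    set e2 := μq.E (fun x' => ind (KK x') * kf x') with he2
    have e1p : 0 < e1 := hp0.trans_le hpr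
    have e2p : 0 < e2 := by
      have h1 := hadp.trans_le hm2p
      rw [e_m2] at h1
      exact (pos_iff_pos_of_mul_pos h1).1 hm0p
    have hMz := Mz_pos (D := D) (v := v) q i w
    have nf : P.E (fun u => ind (Zb i u = Zb i w) * (ind (u.2.2 i = F0) * f (XLq v q i u) (u.2.2 k))) =
        Mz D v q i w * (2 * A') := by
      have h1 := cls_lab2 (h := h) hv w hik htn F0 f
      refine h1.trans ?_
      congr 1
      rw [hA', ← FP.E_smul]
      refine FP.E_congr _ fun x' _ => ?_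
      rw [ePh]
      ring
    have nG : P.E (fun u => ind (Zb i u = Zb i w) * G (XLq v q i u)) = Mz D v q i w * (2 * B') := by
      have h1 := cls_E (h := h) hv t q w i (fun x' b => G (b, code v (nc q {i}) w i x' b))
      have h2 : P.E (fun u => ind (Zb i u = Zb i w) * G (XLq v q i u)) =
          P.E (fun u => ind (Zb i u = Zb i w) * G (u.2.1 i, code v (nc q {i}) w i u.1 (u.2.1 i))) := by
        refine P.E_congr fun u _ => ?_
        by_cases hz : Zb i u = Zb i w
        · have h3 : NPq D v q u = NPq D v q w := ((Zb_iff hv q i w u).1 hz).1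
          rw [XLq_code hv h3 i]
        · rw [ind_not hz, zero_mul, zero_mul]
      rw [h2]
      refine h1.trans ?_
      congr 1
      rw [hB', ← FP.E_smul]
      refine FP.E_congr _ fun x' _ => ?_
      have := ePs x'
      unfold Ps at this
      rw [this]
      ring
    have nm : P.m (Zb i) w = Mz D v q i w * e1 := by
      have h1 := cls_E (h := h) hv t q w i (fun _ _ => 1)
      simp only [FP.E_const, mul_one] at h1
      exact h1
    have nq : qF P Zb F i w x = e2 / e1 := by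
      have h1 := cls_lab (h := h) hv htn w i (fun _ _ => 1) F0
      simp only [FP.E_const, mul_one] at h1
      have h2 : P.E (fun u => ind (Zb i u = Zb i w) * ind (F i u = x)) = Mz D v q i w * e2 := by
        refine Eq.trans ?_ h1
        refine P.E_congr fun u hu' => ?_
        by_cases hz : Zb i u = Zb i w
        · rw [ind_cg (hlab u hu' hz)]
        · rw [ind_not hz, zero_mul, zero_mul]
      unfold qF FP.pv FP.ce
      rw [h2, nm]
      exact mul_div_mul_left _ _ hMz.ne'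
    have r1 : μ.E (fun x' => ind (cq x') * (ind (KK x') * (kf x' * Φ x'))) / m2 = A' / e2 := by
      rw [muE, e_m2, mul_div_mul_left _ _ hm0p.ne']
    have r2 : μ.E (fun x' => ind (cq x') * (ind (KK x') * Ψ x')) / m1 = B' / e1 := by
      rw [muE, e_m1, mul_div_mul_left _ _ hm0p.ne']
    rw [r1, r2] at key
    have fin : P.ce (Zb i) (fun u => ∑ y ∈ vals (F k), |mF2 P Z F i k u x y - qF P Zb F i u x * qF P Zb F k u y|) w =
        2 * (e2 / e1) * (A' / e2 - B' / e1) := by
      unfold FP.ce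
      rw [num, nf, nG, nm, nq]
      field_simp
    rw [fin, nq]
    have h9 := mul_le_mul_of_nonneg_left key (mul_nonneg (show (0 : ℝ) ≤ 2 by norm_num) (div_nonneg e2p.le e1p.le))
    refine h9.trans (le_of_eq ?_)
    unfold epsR
    ring

/-- the class of the own letter as a map -/
def OwM (D : HD (Fin 3) X β γ φ) (v : ℕ → Finset (Fin 3) → X → (Fin 3 → β) → Pt (Fin 3) X β φ) (q : ℕ) (l : Fin 3)
    (u : Pt (Fin 3) X β φ) : (List (Pt (Fin 3) X β φ) × (γ × (Fin 3 → γ))) × (β × List (Pt (Fin 3) X β φ)) :=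
  (NPq D v q u, XLq v q l u)

theorem OwM_iff (q : ℕ) (l : Fin 3) (c u : Pt (Fin 3) X β φ) : OwM D v q l u = OwM D v q l c ↔ OwQ D v q l c u := by
  unfold OwM OwQ
  rw [Prod.mk.injEq]

/-- a mean over a class of a law, given an event -/
theorem four_two {m1 ml B1 Bl pb k0 B m0 : ℝ} (hm0 : 0 < m0) (h1 : m0 ≤ m1) (hl : m0 ≤ ml)
    (hB : 0 ≤ B) (b3 : |Bl - pb * ml| ≤ k0 * ml + B) (b4 : |B1 - pb * m1| ≤ k0 * m1 + B) :
    |B1 / m1 - Bl / ml| ≤ 2 * k0 + 2 * B / m0 := by
  have one : ∀ {A m f k : ℝ}, m0 ≤ m → |A - f * m| ≤ k * m + B → |A / m - f| ≤ k + B / m0 := by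
    intro A m f k hm hA
    have hmp : 0 < m := hm0.trans_le hm
    have e1 : A / m - f = (A - f * m) / m := by field_simp
    rw [e1, abs_div, abs_of_pos hmp]
    have h3 : |A - f * m| / m ≤ (k * m + B) / m := div_le_div_of_nonneg_right hA hmp.le
    refine h3.trans ?_
    have e2 : (k * m + B) / m = k + B / m := by field_simp
    rw [e2]
    have h4 : B / m ≤ B / m0 := div_le_div_of_nonneg_left hB hm0 hm
    linarith
  have c1 := one h1 b4
  have c2 := one hl b3
  have e3 : 2 * B / m0 = 2 * (B / m0) := by ring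
  rw [e3]
  have h3 : B1 / m1 - Bl / ml = (B1 / m1 - pb) - (Bl / ml - pb) := by ring
  rw [h3]
  refine (abs_sub _ _).trans ?_
  linarith

/-- **TWO LETTERS GIVEN THE OWN LETTER OF THE THIRD VERTEX** : the letter of `i` given what the top without `i` sees and
given the own class of `l` -/
theorem two_let (H : D.Hyp dg prr al T Lam) (R : Run h N S (AdmDep D) v) (hN : ∀ J ∈ S, 0 ≤ N J) (h0 : ∅ ∈ S)
    (hS1 : ∀ i : Fin 3, {i} ∈ S) (hN0 : N ∅ = 1) {N1 : ℝ} (hN1 : ∀ i : Fin 3, N {i} = N1) (hN1p : 0 < N1) {t q : ℕ}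
    (ht : t < T) (h5 : 5 * t ≤ q) (h4 : q ≤ 5 * t + 4) {i l : Fin 3} (hil : i ≠ l)
    {w : Pt (Fin 3) X β φ} (hw : (D.P h t).p w ≠ 0) {a del p0 : ℝ} (hdel0 : 0 < del) (hp0 : 0 < p0)
    (hdel : del ≤ (muC D v (t + 1) t w).Pr (cX D v (nc q ∅) (nn q) w))
    (hpr : p0 ≤ (muC D v (nc q ∅) (nn q) w).Pr (K0 v q i w)) {f : β × List (Pt (Fin 3) X β φ) → ℝ}
    (hf : ∀ z, |f z| ≤ 1) :
    |(D.P h t).ce (ZbQ D v q i) (fun u => f (XLq v q i u)) w - (D.P h t).ce (OwM D v q l) (fun u => f (XLq v q i u)) w| ≤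
      4 * kap0 N1 a + 8 * Real.exp (-a) / (del * p0) := by
  classical
  set P := D.P h t with hP
  have hv := R.codes
  set μ := muC D v (t + 1) t w with hμ
  set μq := muC D v (nc q ∅) (nn q) w with hμq
  have hni := nc_old t h5 h4 i
  have hnl := nc_old t h5 h4 l
  have htn := nn_ge t h5
  obtain ⟨r, r01, hr⟩ := nu_half H ht h5 h4 w i
  set Gr : β × List (Pt (Fin 3) X β φ) → ℝ := fun z => r z.1 * f z with hGr
  have hGr1 : ∀ z, |Gr z| ≤ 1 := fun z => by
    simp only [hGr]
    rw [abs_mul, abs_of_nonneg (r01 z.1).1]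
    exact mul_le_one₀ (r01 z.1).2 (abs_nonneg _) (hf z)
  set Ψ : X → ℝ := Ps D v t (t + 1) w i Gr with hΨ
  have ePs : ∀ x', (nuC D (nn q) w i).E (fun b => f (b, code v (nc q {i}) w i x' b)) = 2 * Ψ x' := by
    intro x'
    simp only [hΨ]
    unfold Ps
    rw [hni, hr]
  set cq := cX D v (nc q ∅) (nn q) w with hcq
  set m0 := μ.Pr cq with hm0
  have hm0p : 0 < m0 := hdel0.trans_le hdel
  have muE : ∀ Hh : X → ℝ, μ.E (fun x' => ind (cq x') * Hh x') = m0 * μq.E Hh := fun Hh =>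
    muQ_E (nc_0ge t h5) htn w Hh
  set KK := K0 v q i w with hKK
  set CC := Cl v (t + 1) l w with hCC
  have hKC : ∀ x', KK x' → CC x' := fun x' hx' => by
    have h1 := hx' l hil.symm
    rw [hnl] at h1
    exact h1
  set m1 := μ.E (fun x' => ind (cq x') * ind (KK x')) with hm1
  set ml := μ.E (fun x' => ind (cq x') * ind (CC x')) with hml
  have e_m1 : m1 = m0 * μq.E (fun x' => ind (KK x')) := muE _
  have e_ml : ml = m0 * μq.E (fun x' => ind (CC x')) := muE _
  have hm1p : del * p0 ≤ m1 := by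
    rw [e_m1]
    exact mul_le_mul hdel hpr hp0.le (hdel0.le.trans hdel)
  have hmlp : m1 ≤ ml := FP.E_mono _ fun x' _ =>
    mul_le_mul_of_nonneg_left (ind_mono (hKC x')) (ind_nonneg _)
  have hdp : 0 < del * p0 := mul_pos hdel0 hp0
  have b3 : |μ.E (fun x' => ind (cq x') * (ind (CC x') * Ψ x')) - μ.E Ψ * ml| ≤
      kap0 N1 a * ml + 2 * Real.exp (-a) := by
    have h1 := wt_let R hN h0 hS1 hN0 hN1 hN1p t hw i a hGr1 (g := fun x' => ind (cq x') * ind (CC x'))
      (fun x' => mul_nonneg (ind_nonneg _) (ind_nonneg _))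
      (fun x' => mul_le_one₀ (ind_le_one _) (ind_nonneg _) (ind_le_one _))
    simp only [mul_assoc] at h1
    exact h1
  have b4 : |μ.E (fun x' => ind (cq x') * (ind (KK x') * Ψ x')) - μ.E Ψ * m1| ≤
      kap0 N1 a * m1 + 2 * Real.exp (-a) := by
    have h1 := wt_let R hN h0 hS1 hN0 hN1 hN1p t hw i a hGr1 (g := fun x' => ind (cq x') * ind (KK x'))
      (fun x' => mul_nonneg (ind_nonneg _) (ind_nonneg _))
      (fun x' => mul_le_one₀ (ind_le_one _) (ind_nonneg _) (ind_le_one _))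
    simp only [mul_assoc] at h1
    exact h1
  have key := four_two hdp hm1p (hm1p.trans hmlp) (mul_nonneg (by norm_num) (Real.exp_pos (-a)).le) b3 b4
  set B' := μq.E (fun x' => ind (KK x') * Ψ x') with hB'
  set C' := μq.E (fun x' => ind (CC x') * Ψ x') with hC'
  set e1 := μq.E (fun x' => ind (KK x')) with he1
  set e2 := μq.E (fun x' => ind (CC x')) with he2
  have hMz := Mz_pos (D := D) (v := v) q i w
  have hMl := Ml_pos (D := D) (v := v) q l w
  have n1 : P.ce (ZbQ D v q i) (fun u => f (XLq v q i u)) w = 2 * (B' / e1) := by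
    have h1 := cls_E (h := h) hv t q w i (fun x' b => f (b, code v (nc q {i}) w i x' b))
    have h2 : P.E (fun u => ind (ZbQ D v q i u = ZbQ D v q i w) * f (XLq v q i u)) = Mz D v q i w * (2 * B') := by
      have h3 : P.E (fun u => ind (ZbQ D v q i u = ZbQ D v q i w) * f (XLq v q i u)) =
          P.E (fun u => ind (ZbQ D v q i u = ZbQ D v q i w) * f (u.2.1 i, code v (nc q {i}) w i u.1 (u.2.1 i))) := by
        refine P.E_congr fun u _ => ?_
        by_cases hz : ZbQ D v q i u = ZbQ D v q i w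
        · have h4 : NPq D v q u = NPq D v q w := ((Zb_iff hv q i w u).1 hz).1
          rw [XLq_code hv h4 i]
        · rw [ind_not hz, zero_mul, zero_mul]
      rw [h3]
      refine h1.trans ?_
      congr 1
      rw [hB', ← FP.E_smul]
      refine FP.E_congr _ fun x' _ => ?_
      rw [ePs]
      ring
    have h3 : P.m (ZbQ D v q i) w = Mz D v q i w * e1 := by
      have h4 := cls_E (h := h) hv t q w i (fun _ _ => 1)
      simp only [FP.E_const, mul_one] at h4
      exact h4
    unfold FP.ce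
    rw [h2, h3, mul_div_mul_left _ _ hMz.ne']
    ring
  have n2 : P.ce (OwM D v q l) (fun u => f (XLq v q i u)) w = 2 * (C' / e2) := by
    have h1 := own_E (h := h) hv t q w hil (fun x' b => f (b, code v (nc q {i}) w i x' b))
    rw [hnl] at h1
    have h2 : P.E (fun u => ind (OwM D v q l u = OwM D v q l w) * f (XLq v q i u)) = Ml D v q l w * (2 * C') := by
      have h3 : P.E (fun u => ind (OwM D v q l u = OwM D v q l w) * f (XLq v q i u)) =
          P.E (fun u => ind (OwQ D v q l w u) * f (u.2.1 i, code v (nc q {i}) w i u.1 (u.2.1 i))) := by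
        refine P.E_congr fun u _ => ?_
        rw [ind_cg (OwM_iff q l w u)]
        by_cases ho : OwQ D v q l w u
        · rw [XLq_code hv ho.1 i]
        · rw [ind_not ho, zero_mul, zero_mul]
      rw [h3]
      refine h1.trans ?_
      congr 1
      rw [hC', ← FP.E_smul]
      refine FP.E_congr _ fun x' _ => ?_
      rw [ePs]
      ring
    have h3 : P.m (OwM D v q l) w = Ml D v q l w * e2 := by
      have h4 := own_E (h := h) hv t q w hil (fun _ _ => 1)
      rw [hnl] at h4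
      simp only [FP.E_const, mul_one] at h4
      have h5 : P.m (OwM D v q l) w = P.E (fun u => ind (OwQ D v q l w u)) := by
        unfold FP.m
        exact P.E_congr fun u _ => ind_cg (OwM_iff q l w u)
      rw [h5]
      exact h4
    unfold FP.ce
    rw [h2, h3, mul_div_mul_left _ _ hMl.ne']
    ring
  have r1 : μ.E (fun x' => ind (cq x') * (ind (CC x') * Ψ x')) / ml = C' / e2 := by
    rw [muE, e_ml, mul_div_mul_left _ _ hm0p.ne']
  have r2 : μ.E (fun x' => ind (cq x') * (ind (KK x') * Ψ x')) / m1 = B' / e1 := by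
    rw [muE, e_m1, mul_div_mul_left _ _ hm0p.ne']
  rw [r1, r2] at key
  rw [n1, n2, ← mul_sub, abs_mul, abs_of_pos (show (0 : ℝ) < 2 by norm_num)]
  have e9 : 4 * kap0 N1 a + 8 * Real.exp (-a) / (del * p0) =
      2 * (2 * kap0 N1 a + 2 * (2 * Real.exp (-a)) / (del * p0)) := by ring
  rw [e9]
  exact mul_le_mul_of_nonneg_left key (by norm_num)

/-- Cauchy-Schwarz for a nonnegative kernel -/
theorem cs3 {Om κ κ' : Type*} [Fintype Om] (P : FP Om) (sx : Finset κ) (sy : Finset κ') (K : Om → κ → κ' → ℝ)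
    (K0 : ∀ w x y, 0 ≤ K w x y) (l : Om → κ → ℝ) (m : Om → κ' → ℝ) :
    P.E (fun w => ∑ x ∈ sx, ∑ y ∈ sy, K w x y * (l w x * m w y)) ≤
      Real.sqrt (P.E (fun w => ∑ x ∈ sx, ∑ y ∈ sy, K w x y * l w x ^ 2) *
        P.E (fun w => ∑ x ∈ sx, ∑ y ∈ sy, K w x y * m w y ^ 2)) := by
  classical
  have ex : ∀ G : Om → κ → κ' → ℝ, P.E (fun w => ∑ x ∈ sx, ∑ y ∈ sy, G w x y) =
      ∑ z ∈ (univ : Finset Om) ×ˢ (sx ×ˢ sy), P.p z.1 * G z.1 z.2.1 z.2.2 := by
    intro G
    unfold FP.E
    rw [Finset.sum_product]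
    refine Finset.sum_congr rfl fun w _ => ?_
    rw [Finset.sum_product, Finset.mul_sum]
    refine Finset.sum_congr rfl fun x _ => ?_
    rw [Finset.mul_sum]
  rw [ex (fun w x y => K w x y * (l w x * m w y)), ex (fun w x y => K w x y * l w x ^ 2),
    ex (fun w x y => K w x y * m w y ^ 2)]
  have h1 := Finset.sum_mul_sq_le_sq_mul_sq ((univ : Finset Om) ×ˢ (sx ×ˢ sy))
    (fun z => Real.sqrt (P.p z.1 * K z.1 z.2.1 z.2.2) * l z.1 z.2.1)
    (fun z => Real.sqrt (P.p z.1 * K z.1 z.2.1 z.2.2) * m z.1 z.2.2)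
  have hs : ∀ z : Om × (κ × κ'), Real.sqrt (P.p z.1 * K z.1 z.2.1 z.2.2) ^ 2 = P.p z.1 * K z.1 z.2.1 z.2.2 := fun z =>
    Real.sq_sqrt (mul_nonneg (P.nn z.1) (K0 _ _ _))
  have e1 : ∀ z : Om × (κ × κ'), (Real.sqrt (P.p z.1 * K z.1 z.2.1 z.2.2) * l z.1 z.2.1) *
      (Real.sqrt (P.p z.1 * K z.1 z.2.1 z.2.2) * m z.1 z.2.2) =
      P.p z.1 * (K z.1 z.2.1 z.2.2 * (l z.1 z.2.1 * m z.1 z.2.2)) := by
    intro z
    have := hs z
    calc _ = Real.sqrt (P.p z.1 * K z.1 z.2.1 z.2.2) ^ 2 * (l z.1 z.2.1 * m z.1 z.2.2) := by ring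
      _ = _ := by rw [this]; ring
  have e2 : ∀ z : Om × (κ × κ'), (Real.sqrt (P.p z.1 * K z.1 z.2.1 z.2.2) * l z.1 z.2.1) ^ 2 =
      P.p z.1 * (K z.1 z.2.1 z.2.2 * l z.1 z.2.1 ^ 2) := by
    intro z
    rw [mul_pow, hs]; ring
  have e3 : ∀ z : Om × (κ × κ'), (Real.sqrt (P.p z.1 * K z.1 z.2.1 z.2.2) * m z.1 z.2.2) ^ 2 =
      P.p z.1 * (K z.1 z.2.1 z.2.2 * m z.1 z.2.2 ^ 2) := by
    intro z
    rw [mul_pow, hs]; ring
  simp only [e1, e2, e3] at h1
  exact (le_abs_self _).trans (Real.abs_le_sqrt h1)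

/-- constant of `PairE` -/
def epsP (N1 N2 al X1 del a : ℝ) : ℝ := epsR N1 N2 al a (del * Real.exp (-X1))

theorem epsP_nonneg {N1 N2 al X1 del a : ℝ} (hal : 0 ≤ al) (hdel : 0 ≤ del) : 0 ≤ epsP N1 N2 al X1 del a := by
  unfold epsP epsR kap1 kap0
  have := Real.exp_pos (-X1)
  have := Real.exp_pos (-a)
  positivity

/-- **the rows with a weight** -/
theorem pair_row_al (H : D.Hyp dg prr al T Lam) (R : Run h N S (AdmDep D) v) (hN : ∀ J ∈ S, 0 ≤ N J) (h0 : ∅ ∈ S)
    (hS1 : ∀ i : Fin 3, {i} ∈ S) (hS : ∀ l, univ.erase l ∈ S) (hu : univ ∉ S) (hN0 : N ∅ = 1) {N1 N2 : ℝ}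
    (hN1 : ∀ i : Fin 3, N {i} = N1) (hN1p : 0 < N1) (hN2 : ∀ l, N (univ.erase l) = N2) (hN2p : 0 < N2) {t q : ℕ}
    (ht : t < T) (h5 : 5 * t ≤ q) (h4 : q ≤ 5 * t + 4) {X1 a del : ℝ} (hdel0 : 0 < del) {aw : Pt (Fin 3) X β φ → ℝ}
    (a1 : ∀ u, aw u ≤ 1)
    (hal : ∀ u, (D.P h t).p u ≠ 0 → aw u ≠ 0 → (∀ i k, i ≠ k → spQ h v q i k u ≤ X1) ∧
      del * (D.P h t).m (NPq D v (5 * t)) u ≤ (D.P h t).m (NPq D v q) u) {i k : Fin 3} (hik : i ≠ k)
    (w : Pt (Fin 3) X β φ) (x : Tt X β φ) :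
    (D.P h t).ce (ZbQ D v q i) (fun u => aw u * ∑ y ∈ vals (FQ v t k), |mF2 (D.P h t) (ZQ D v q) (FQ v t) i k u x y -
      qF (D.P h t) (ZbQ D v q) (FQ v t) i u x * qF (D.P h t) (ZbQ D v q) (FQ v t) k u y|) w ≤
      epsP N1 N2 al X1 del a * qF (D.P h t) (ZbQ D v q) (FQ v t) i w x := by
  classical
  have hq5 : q / 5 = t := by omega
  have hv := R.codes
  set KK : Pt (Fin 3) X β φ → ℝ := fun u => ∑ y ∈ vals (FQ v t k), |mF2 (D.P h t) (ZQ D v q) (FQ v t) i k u x y -
      qF (D.P h t) (ZbQ D v q) (FQ v t) i u x * qF (D.P h t) (ZbQ D v q) (FQ v t) k u y| with hKK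
  have KK0 : ∀ u, 0 ≤ KK u := fun u => Finset.sum_nonneg fun y _ => abs_nonneg _
  have he0 := epsP_nonneg (N1 := N1) (N2 := N2) (X1 := X1) (a := a) h.pos.le hdel0.le
  by_cases hex : ∃ u, (D.P h t).p u ≠ 0 ∧ aw u ≠ 0 ∧ ZbQ D v q i u = ZbQ D v q i w
  · obtain ⟨u, hu', hau, hzu⟩ := hex
    obtain ⟨hsp, hdg⟩ := hal u hu' hau
    obtain ⟨l, hil, hlk⟩ : ∃ l : Fin 3, i ≠ l ∧ l ≠ k := by
      have key : ∀ i k : Fin 3, ∃ l : Fin 3, i ≠ l ∧ l ≠ k := by decide
      exact key i k
    have hpr : Real.exp (-X1) ≤ (muC D v (nc q ∅) (nn q) u).Pr (K0 v q i u) := by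
      rw [← K0_mass (h := h) hv hq5 (d := i) (i := k) (k := l) hlk.symm hik.symm hil.symm hu']
      exact Real.exp_le_exp.2 (neg_le_neg (hsp k l hlk.symm))
    have hdm := del_mu (h := h) hv t h5 hdg
    have key := pair_row H R hN h0 hS1 hS hu hN0 hN1 hN1p hN2 hN2p ht h5 h4 hil hik hlk hu' (a := a) hdel0
      (Real.exp_pos (-X1)) hdm hpr x
    have e3 : (D.P h t).ce (ZbQ D v q i) (fun u => aw u * KK u) w ≤ (D.P h t).ce (ZbQ D v q i) KK u := by
      have e4 := (D.P h t).ce_fac (ZbQ D v q i) (fun u => aw u * KK u) u w hzu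
      rw [← e4]
      refine (D.P h t).ce_mono (fun u' _ => ?_) u
      have := mul_le_mul_of_nonneg_right (a1 u') (KK0 u')
      rwa [one_mul] at this
    have e5 : qF (D.P h t) (ZbQ D v q) (FQ v t) i u x = qF (D.P h t) (ZbQ D v q) (FQ v t) i w x :=
      (D.P h t).pv_fac _ _ _ u w hzu
    rw [← e5]
    exact e3.trans key
  · push Not at hex
    have e1 : (D.P h t).ce (ZbQ D v q i) (fun u => aw u * KK u) w = 0 := by
      unfold FP.ce
      have e2 : (D.P h t).E (fun u => ind (ZbQ D v q i u = ZbQ D v q i w) * (aw u * KK u)) = 0 := by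
        refine ((D.P h t).E_congr fun u hu' => ?_).trans ((D.P h t).E_const 0)
        by_cases hz : ZbQ D v q i u = ZbQ D v q i w
        · by_cases ha : aw u = 0
          · rw [ha, zero_mul, mul_zero]
          · exact absurd hz (hex u hu' ha)
        · rw [ind_not hz, zero_mul]
      rw [e2, zero_div]
    rw [e1]
    exact mul_nonneg he0 ((D.P h t).pv_nonneg _ _ _ _)

/-- the two tops exchanged -/
theorem mF2_sw (t q : ℕ) (i k : Fin 3) (w : Pt (Fin 3) X β φ) (x y : Tt X β φ) :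
    mF2 (D.P h t) (ZQ D v q) (FQ v t) i k w x y = mF2 (D.P h t) (ZQ D v q) (FQ v t) k i w y x := by
  unfold mF2 FP.pv FP.ce
  congr 1
  refine FP.E_congr _ fun u _ => ?_
  congr 1
  refine ind_cg ⟨fun hh => ?_, fun hh => ?_⟩
  · exact Prod.ext (congrArg Prod.snd hh) (congrArg Prod.fst hh)
  · exact Prod.ext (congrArg Prod.snd hh) (congrArg Prod.fst hh)

/-- **TWO TOPS** : hypothesis `hpair` of KEY3 in the states with old letters (`q = 5t + j`, `j ≤ 4`) -/
theorem pairE (H : D.Hyp dg prr al T Lam) (R : Run h N S (AdmDep D) v) (hN : ∀ J ∈ S, 0 ≤ N J) (h0 : ∅ ∈ S)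
    (hS1 : ∀ i : Fin 3, {i} ∈ S) (hS : ∀ l, univ.erase l ∈ S) (hu : univ ∉ S) (hN0 : N ∅ = 1) {N1 N2 : ℝ}
    (hN1 : ∀ i : Fin 3, N {i} = N1) (hN1p : 0 < N1) (hN2 : ∀ l, N (univ.erase l) = N2) (hN2p : 0 < N2) {t q : ℕ}
    (ht : t < T) (h5 : 5 * t ≤ q) (h4 : q ≤ 5 * t + 4) {X1 a del : ℝ} (hdel0 : 0 < del) {aw : Pt (Fin 3) X β φ → ℝ}
    (a0 : ∀ u, 0 ≤ aw u) (a1 : ∀ u, aw u ≤ 1)
    (hal : ∀ u, (D.P h t).p u ≠ 0 → aw u ≠ 0 → (∀ i k, i ≠ k → spQ h v q i k u ≤ X1) ∧
      del * (D.P h t).m (NPq D v (5 * t)) u ≤ (D.P h t).m (NPq D v q) u) :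
    PairE h v t q aw (epsP N1 N2 al X1 del a) := by
  classical
  intro i k hlt l m hl hm l0 m0
  have hik : i ≠ k := ne_of_lt hlt
  set P := D.P h t with hP
  set eps := epsP N1 N2 al X1 del a with heps
  have he0 : 0 ≤ eps := epsP_nonneg (N1 := N1) (N2 := N2) (X1 := X1) (a := a) h.pos.le hdel0.le
  set Kk : Pt (Fin 3) X β φ → Tt X β φ → Tt X β φ → ℝ := fun w x y => aw w *
    |mF2 P (ZQ D v q) (FQ v t) i k w x y - qF P (ZbQ D v q) (FQ v t) i w x * qF P (ZbQ D v q) (FQ v t) k w y| with hKk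
  have h1 := cs3 P (vals (FQ v t i)) (vals (FQ v t k)) Kk (fun w x y => mul_nonneg (a0 w) (abs_nonneg _)) l m
  have r1 : P.E (fun w => ∑ x ∈ vals (FQ v t i), ∑ y ∈ vals (FQ v t k), Kk w x y * l w x ^ 2) ≤
      eps * P.E (fun w => ∑ x ∈ vals (FQ v t i), qF P (ZbQ D v q) (FQ v t) i w x * l w x ^ 2) := by
    rw [FP.E_sum, FP.E_sum, Finset.mul_sum]
    refine Finset.sum_le_sum fun x _ => ?_
    have e1 : P.E (fun w => ∑ y ∈ vals (FQ v t k), Kk w x y * l w x ^ 2) =
        P.E (fun w => l w x ^ 2 * P.ce (ZbQ D v q i) (fun u => aw u * ∑ y ∈ vals (FQ v t k),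
          |mF2 P (ZQ D v q) (FQ v t) i k u x y - qF P (ZbQ D v q) (FQ v t) i u x *
            qF P (ZbQ D v q) (FQ v t) k u y|) w) := by
      rw [P.E_mul_ce ((hl x).comp (fun z => z ^ 2))]
      refine P.E_congr fun w _ => ?_
      rw [Finset.mul_sum, Finset.mul_sum]
      exact Finset.sum_congr rfl fun y _ => by simp only [hKk]; ring
    rw [e1, ← FP.E_smul]
    refine P.E_mono fun w _ => ?_
    have h2 := pair_row_al H R hN h0 hS1 hS hu hN0 hN1 hN1p hN2 hN2p ht h5 h4 (a := a) hdel0 a1 hal hik w x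
    have h3 := mul_le_mul_of_nonneg_left h2 (sq_nonneg (l w x))
    linarith
  have r2 : P.E (fun w => ∑ x ∈ vals (FQ v t i), ∑ y ∈ vals (FQ v t k), Kk w x y * m w y ^ 2) ≤
      eps * P.E (fun w => ∑ y ∈ vals (FQ v t k), qF P (ZbQ D v q) (FQ v t) k w y * m w y ^ 2) := by
    have e0 : P.E (fun w => ∑ x ∈ vals (FQ v t i), ∑ y ∈ vals (FQ v t k), Kk w x y * m w y ^ 2) =
        P.E (fun w => ∑ y ∈ vals (FQ v t k), ∑ x ∈ vals (FQ v t i), Kk w x y * m w y ^ 2) :=
      P.E_congr fun w _ => Finset.sum_comm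
    rw [e0, FP.E_sum, FP.E_sum, Finset.mul_sum]
    refine Finset.sum_le_sum fun y _ => ?_
    have e1 : P.E (fun w => ∑ x ∈ vals (FQ v t i), Kk w x y * m w y ^ 2) =
        P.E (fun w => m w y ^ 2 * P.ce (ZbQ D v q k) (fun u => aw u * ∑ x ∈ vals (FQ v t i),
          |mF2 P (ZQ D v q) (FQ v t) k i u y x - qF P (ZbQ D v q) (FQ v t) k u y *
            qF P (ZbQ D v q) (FQ v t) i u x|) w) := by
      rw [P.E_mul_ce ((hm y).comp (fun z => z ^ 2))]
      refine P.E_congr fun w _ => ?_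
      rw [Finset.mul_sum, Finset.mul_sum]
      refine Finset.sum_congr rfl fun x _ => ?_
      simp only [hKk]
      rw [mF2_sw t q i k w x y, mul_comm (qF P (ZbQ D v q) (FQ v t) i w x)]
      ring
    rw [e1, ← FP.E_smul]
    refine P.E_mono fun w _ => ?_
    have h2 := pair_row_al H R hN h0 hS1 hS hu hN0 hN1 hN1p hN2 hN2p ht h5 h4 (a := a) hdel0 a1 hal hik.symm w y
    have h3 := mul_le_mul_of_nonneg_left h2 (sq_nonneg (m w y))
    linarith
  set A := P.E (fun w => ∑ x ∈ vals (FQ v t i), qF P (ZbQ D v q) (FQ v t) i w x * l w x ^ 2) with hA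
  set B := P.E (fun w => ∑ y ∈ vals (FQ v t k), qF P (ZbQ D v q) (FQ v t) k w y * m w y ^ 2) with hB
  have A0 : 0 ≤ A := P.E_nonneg fun w _ => Finset.sum_nonneg fun x _ =>
    mul_nonneg (P.pv_nonneg _ _ _ _) (sq_nonneg _)
  have B0 : 0 ≤ B := P.E_nonneg fun w _ => Finset.sum_nonneg fun x _ =>
    mul_nonneg (P.pv_nonneg _ _ _ _) (sq_nonneg _)
  refine h1.trans ?_
  have hK0 : 0 ≤ P.E (fun w => ∑ x ∈ vals (FQ v t i), ∑ y ∈ vals (FQ v t k), Kk w x y * m w y ^ 2) :=
    P.E_nonneg fun w _ => Finset.sum_nonneg fun x _ => Finset.sum_nonneg fun y _ =>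
      mul_nonneg (mul_nonneg (a0 w) (abs_nonneg _)) (sq_nonneg _)
  have h2 : P.E (fun w => ∑ x ∈ vals (FQ v t i), ∑ y ∈ vals (FQ v t k), Kk w x y * l w x ^ 2) *
      P.E (fun w => ∑ x ∈ vals (FQ v t i), ∑ y ∈ vals (FQ v t k), Kk w x y * m w y ^ 2) ≤ eps ^ 2 * (A * B) := by
    refine (mul_le_mul r1 r2 hK0 (mul_nonneg he0 A0)).trans (le_of_eq ?_)
    ring
  refine (Real.sqrt_le_sqrt h2).trans (le_of_eq ?_)
  rw [Real.sqrt_mul (sq_nonneg eps), Real.sqrt_sq he0]

end row

end

end Pool.Agent.GMH.TP
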