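import Pool.Agent.GMH.HPair

/-!
# GMH/HPair2: exceptional rows of two tops (helper49, row F3 of H3.LEAN)

* `SBd` : rows `x` of the top `i` which see the bad values of the top `k` with probability above `e`;
* `exc_row` : **exceptional rows are super rare inside the class of the own letter of the common vertex, for EVERY exact point
  of `k`** : probability at most `8 / (al e) (exp (-a) / dp + exp (L - bb))`, where `bb` is of the order `n e^2`.
-/

set_option autoImplicit false
set_option linter.unusedSectionVars false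

namespace Pool.Agent.GMH.TP

open Finset Pool.Agent.PWZ Pool.Agent.M3 Pool.Agent.GM Pool.Agent.GM.Harm Pool.Agent.GMH Pool.Agent.GMH.NZ
open Pool.Agent.GMH.V3

noncomputable section

section exc

variable {X β γ φ : Type} [Fintype X] [Fintype β] [Fintype φ] [Nonempty X] [Nonempty β]
variable {D : HD (Fin 3) X β γ φ} {al : ℝ} {h : D.Thick al} {N : Finset (Fin 3) → ℝ} {S : Finset (Finset (Fin 3))}
  {v : ℕ → Finset (Fin 3) → X → (Fin 3 → β) → Pt (Fin 3) X β φ} {dg : ℕ → X → ℝ} {prr : ℕ → Fin 3 → φ → φ} {T : ℕ}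
  {Lam : ℝ}

/-- a mean is nonnegative if all class sums are -/
theorem E_nn_cls {Om κ : Type*} [Fintype Om] (P : FP Om) (Y : Om → κ) {H : Om → ℝ}
    (hh : ∀ w0, P.p w0 ≠ 0 → 0 ≤ P.E (fun u => ind (Y u = Y w0) * H u)) : 0 ≤ P.E H := by
  rw [← P.E_ce Y H]
  refine FP.E_nonneg _ fun w hw => ?_
  unfold FP.ce
  exact div_nonneg (hh w hw) (P.m_pos Y hw).le

variable (h v) in
/-- the row of `w` sees the bad values of the top `k` too often -/
def SBd (t q : ℕ) (i k : Fin 3) (B : Pt (Fin 3) X β φ → Tt X β φ → Prop) (e : ℝ) (w : Pt (Fin 3) X β φ) : Prop :=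
  ∃ x ∈ vals (FQ v t i), e * qF (D.P h t) (ZbQ D v q) (FQ v t) i w x <
    (D.P h t).ce (ZbQ D v q i) (fun u => ∑ y ∈ vals (FQ v t k), ind (B u y) *
      mF2 (D.P h t) (ZQ D v q) (FQ v t) i k u x y) w

theorem SBd_fac (t q : ℕ) (i k : Fin 3) (B : Pt (Fin 3) X β φ → Tt X β φ → Prop) (e : ℝ) :
    Fac (ZbQ D v q i) (SBd h v t q i k B e) := by
  intro a b hab
  unfold SBd
  have h1 : ∀ x, qF (D.P h t) (ZbQ D v q) (FQ v t) i a x = qF (D.P h t) (ZbQ D v q) (FQ v t) i b x := fun x =>
    (D.P h t).pv_fac _ _ _ a b hab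
  have h2 : ∀ x, (D.P h t).ce (ZbQ D v q i) (fun u => ∑ y ∈ vals (FQ v t k), ind (B u y) *
      mF2 (D.P h t) (ZQ D v q) (FQ v t) i k u x y) a = (D.P h t).ce (ZbQ D v q i) (fun u => ∑ y ∈ vals (FQ v t k),
        ind (B u y) * mF2 (D.P h t) (ZQ D v q) (FQ v t) i k u x y) b := fun x => (D.P h t).ce_fac _ _ a b hab
  simp only [h1, h2]

/-- the label of an exceptional row -/
theorem SBd_lab (H : D.Hyp dg prr al T Lam) (R : Run h N S (AdmDep D) v) (hS : ∀ l, univ.erase l ∈ S) (hu : univ ∉ S)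
    (hN2 : ∀ l, 0 < N (univ.erase l)) {t q : ℕ} (ht : t < T) (h5 : 5 * t ≤ q) {i k : Fin 3}
    {B : Pt (Fin 3) X β φ → Tt X β φ → Prop} (hB : ∀ y, Fac (ZbQ D v q k) (fun w => B w y)) {e : ℝ}
    {w : Pt (Fin 3) X β φ} (hw : (D.P h t).p w ≠ 0) (hS' : SBd h v t q i k B e w) :
    ∃ F0 : φ, (∃ u0, (D.P h t).p u0 ≠ 0 ∧ ZbQ D v q i u0 = ZbQ D v q i w ∧ u0.2.2 i = F0) ∧
      e * (D.P h t).E (fun u => ind (ZbQ D v q i u = ZbQ D v q i w) * ind (u.2.2 i = F0)) ≤
        (D.P h t).E (fun u => ind (ZbQ D v q i u = ZbQ D v q i w) * (ind (u.2.2 i = F0) * ind (B u (FQ v t k u)))) := by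
  classical
  set P := D.P h t with hP
  set Z := ZQ (φ := φ) D v q with hZ
  set Zb := ZbQ (φ := φ) D v q with hZb
  set F := FQ (φ := φ) v t with hF
  obtain ⟨x, hx, hlt⟩ := hS'
  have hm : 0 < P.m (Zb i) w := P.m_pos _ hw
  have num : P.E (fun u => ind (Zb i u = Zb i w) * ∑ y ∈ vals (F k), ind (B u y) * mF2 P Z F i k u x y) =
      P.E (fun u => ind (Zb i u = Zb i w) * (ind (F i u = x) * ind (B u (F k u)))) := by
    have e1 : P.E (fun u => ind (Zb i u = Zb i w) * ∑ y ∈ vals (F k), ind (B u y) * mF2 P Z F i k u x y) =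
        ∑ y ∈ vals (F k), P.E (fun u => (ind (Zb i u = Zb i w) * ind (B u y)) * mF2 P Z F i k u x y) := by
      rw [← FP.E_sum]
      refine P.E_congr fun u _ => ?_
      rw [Finset.mul_sum]
      exact Finset.sum_congr rfl fun y _ => by ring
    have e2 : ∀ y ∈ vals (F k), P.E (fun u => (ind (Zb i u = Zb i w) * ind (B u y)) * mF2 P Z F i k u x y) =
        P.E (fun u => (ind (Zb i u = Zb i w) * ind (B u y)) * ind ((F i u, F k u) = (x, y))) := by
      intro y _
      refine P.E_mul_ce (X := Z) (h := fun u => ind (Zb i u = Zb i w) * ind (B u y)) (fun a' b' hab => ?_)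
        (fun u => ind ((F i u, F k u) = (x, y)))
      have h1 : B a' y = B b' y := hB y a' b' (ZQ_Zb q k a' b' hab)
      show ind (Zb i a' = Zb i w) * ind (B a' y) = ind (Zb i b' = Zb i w) * ind (B b' y)
      rw [show Zb i a' = Zb i b' from ZQ_Zb q i a' b' hab, h1]
    rw [e1, Finset.sum_congr rfl e2, ← FP.E_sum]
    refine P.E_congr fun u _ => ?_
    rw [Finset.sum_eq_single (F k u)]
    · have h1 : ind ((F i u, F k u) = (x, F k u)) = ind (F i u = x) := ind_cg (by
        rw [Prod.mk.injEq]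
        exact ⟨fun hh => hh.1, fun hh => ⟨hh, rfl⟩⟩)
      rw [h1]
      ring
    · intro y _ hy
      have h3 : ind ((F i u, F k u) = (x, y)) = 0 := ind_not (fun hh => hy (congrArg Prod.snd hh).symm)
      rw [h3, mul_zero]
    · intro hn
      exact absurd (mem_valsOf (F k) u) hn
  have q1 : qF P Zb F i w x = P.E (fun u => ind (Zb i u = Zb i w) * ind (F i u = x)) / P.m (Zb i) w := rfl
  set Q0 := P.E (fun u => ind (Zb i u = Zb i w) * ind (F i u = x)) with hQ0
  set A0 := P.E (fun u => ind (Zb i u = Zb i w) * (ind (F i u = x) * ind (B u (F k u)))) with hA0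
  have hA : e * Q0 < A0 := by
    have h1 : P.ce (Zb i) (fun u => ∑ y ∈ vals (F k), ind (B u y) * mF2 P Z F i k u x y) w = A0 / P.m (Zb i) w := by
      unfold FP.ce
      rw [num]
    rw [h1, q1, ← mul_div_assoc, div_lt_div_iff_of_pos_right hm] at hlt
    exact hlt
  have hAQ : A0 ≤ Q0 := P.E_mono fun u _ => mul_le_mul_of_nonneg_left
    (mul_le_of_le_one_right (ind_nonneg _) (ind_le_one _)) (ind_nonneg _)
  have hQn : Q0 ≠ 0 := by
    intro h0
    rw [h0, mul_zero] at hA
    rw [h0] at hAQ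
    linarith
  obtain ⟨u0, hu0, hz0, hx0⟩ : ∃ u0, P.p u0 ≠ 0 ∧ Zb i u0 = Zb i w ∧ F i u0 = x := by
    by_contra hcon
    push Not at hcon
    apply hQn
    rw [hQ0]
    refine (P.E_congr fun u hu' => ?_).trans (P.E_const 0)
    by_cases hz : Zb i u = Zb i w
    · rw [ind_not (hcon u hu' hz), mul_zero]
    · rw [ind_not hz, zero_mul]
  have hlab : ∀ u, P.p u ≠ 0 → Zb i u = Zb i w → (F i u = x ↔ u.2.2 i = u0.2.2 i) := by
    intro u hu' hz
    rw [← hx0]
    exact top_name H R hS hu hN2 ht.le h5 hu' hu0 (hz.trans hz0.symm)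
  refine ⟨u0.2.2 i, ⟨u0, hu0, hz0, rfl⟩, ?_⟩
  have e1 : P.E (fun u => ind (Zb i u = Zb i w) * ind (u.2.2 i = u0.2.2 i)) = Q0 := by
    refine P.E_congr fun u hu' => ?_
    by_cases hz : Zb i u = Zb i w
    · rw [ind_cg (hlab u hu' hz)]
    · rw [ind_not hz, zero_mul, zero_mul]
  have e2 : P.E (fun u => ind (Zb i u = Zb i w) * (ind (u.2.2 i = u0.2.2 i) * ind (B u (F k u)))) = A0 := by
    refine P.E_congr fun u hu' => ?_
    by_cases hz : Zb i u = Zb i w
    · rw [ind_cg (hlab u hu' hz)]
    · rw [ind_not hz, zero_mul, zero_mul]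
  rw [e1, e2]
  exact hA.le

/-- the mean over the label does not depend on the point of the own class -/
theorem Ph_own (hv : Codes D v) {t q : ℕ} (hq : t ≤ nn q) {c w : Pt (Fin 3) X β φ} {i k l : Fin 3} (hil : i ≠ l)
    (hik : i ≠ k) (hlk : l ≠ k) (hw : OwQ D v q l c w) (f : β × List (Pt (Fin 3) X β φ) → φ → ℝ) (x : X) :
    Ph D v t (nn q) (nc q {i}) w i k f x = Ph D v t (nn q) (nc q {i}) c i k f x := by
  have h1 := (OwQ_iff hv q l c w).1 hw
  have h2 := ((NPq_iff hv q c w).1 h1.1).2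
  have e0 : nuC D (nn q) w i = nuC D (nn q) c i := by
    unfold nuC
    have : cY D (nn q) w i = cY D (nn q) c i := by
      funext b
      have h3 : D.qb (nn q) (w.2.1 i) = D.qb (nn q) (c.2.1 i) := h2 i
      unfold cY
      rw [h3]
    rw [this]
  unfold Ph
  rw [e0]
  refine FP.E_congr _ fun b _ => Finset.sum_congr rfl fun Fv _ => ?_
  have hup : ∀ j, D.qb (nn q) (Function.update w.2.1 i b j) = D.qb (nn q) (Function.update c.2.1 i b j) := by
    intro j
    by_cases hj : j = i
    · subst hj; rw [Function.update_self, Function.update_self]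
    · rw [Function.update_of_ne hj, Function.update_of_ne hj]; exact h2 j
  have e1 : D.kf t k x (Function.update w.2.1 i b) = D.kf t k x (Function.update c.2.1 i b) := by
    refine D.dep t k x _ _ (fun j hj => ?_) (qb_mono D hq (hup k))
    by_cases hji : j = i
    · subst hji; rw [Function.update_self, Function.update_self]
    · rw [Function.update_of_ne hji, Function.update_of_ne hji]
      have hjl : j = l := by
        have key : ∀ i k l j : Fin 3, i ≠ l → i ≠ k → l ≠ k → j ≠ k → j ≠ i → j = l := by decide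
        exact key i k l j hil hik hlk hj hji
      rw [hjl]; exact h1.2.1
  have e2 : code v (nc q {i}) w i x b = code v (nc q {i}) c i x b := by
    unfold code
    refine Um_codes hv (nc_le q {i}) {i} x (fun j hj => ?_) hup
    rw [Finset.mem_singleton.1 hj, Function.update_self, Function.update_self]
  rw [e1, e2]

theorem exists_lab (h : D.Thick al) (t : ℕ) (x : X) (y : Fin 3 → β) : ∃ F : Fin 3 → φ, (D.P h t).p (x, y, F) ≠ 0 := by
  have h1 : ∀ l : Fin 3, ∃ F : φ, D.kf t l x y F ≠ 0 := by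
    intro l
    by_contra hcon
    push Not at hcon
    have h2 := h.one t l x y
    rw [Finset.sum_eq_zero fun F _ => hcon F] at h2
    exact zero_ne_one h2
  choose F hF using h1
  refine ⟨F, ?_⟩
  show (∏ l, D.kf t l x y (F l)) / (Fintype.card X * (Fintype.card β : ℝ) ^ Fintype.card (Fin 3)) ≠ 0
  refine div_ne_zero (Finset.prod_ne_zero_iff.2 fun l _ => hF l) ?_
  refine mul_ne_zero ?_ (pow_ne_zero _ ?_)
  · exact_mod_cast Fintype.card_ne_zero
  · exact_mod_cast Fintype.card_ne_zero

/-- **EXCEPTIONAL ROWS ARE SUPER RARE**, for every exact point of `k` -/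
theorem exc_row (H : D.Hyp dg prr al T Lam) (R : Run h N S (AdmDep D) v) (hN : ∀ J ∈ S, 0 ≤ N J) (h0 : ∅ ∈ S)
    (hS1 : ∀ i : Fin 3, {i} ∈ S) (hS : ∀ l, univ.erase l ∈ S) (hu : univ ∉ S) (hN0 : N ∅ = 1) {N1 N2 : ℝ}
    (hN1 : ∀ i : Fin 3, N {i} = N1) (hN1p : 0 < N1) (hN2 : ∀ l, N (univ.erase l) = N2) (hN2p : 0 < N2) {t q : ℕ}
    (ht : t < T) (h5 : 5 * t ≤ q) (h4 : q ≤ 5 * t + 4) {i k l : Fin 3} (hil : i ≠ l) (hik : i ≠ k) (hlk : l ≠ k)
    {c : Pt (Fin 3) X β φ} {a bb L dp e β0 : ℝ} (he : 0 < e) (hdp : 0 < dp)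
    (hm : dp ≤ (muC D v (t + 1) t c).E (fun x => ind (cX D v (nc q ∅) (nn q) c x) * ind (Cl v (t + 1) l c x)))
    (hL : Real.exp (-L) * (muC D v (t + 1) t c).E (fun x => ind (Cl v (t + 1) l c x)) ≤
      (muC D v (t + 1) t c).E (fun x => ind (cX D v (nc q ∅) (nn q) c x) * ind (Cl v (t + 1) l c x)))
    {B : Pt (Fin 3) X β φ → Tt X β φ → Prop} (hB : ∀ y, Fac (ZbQ D v q k) (fun w => B w y))
    (hβ : (D.P h t).E (fun u => ind (OwQ D v q l c u) * ind (B u (FQ v t k u))) ≤
      β0 * (D.P h t).E (fun u => ind (OwQ D v q l c u)))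
    (hnum : β0 + 4 * kapB N1 N2 a bb + 4 * (Real.exp (-a) / dp + Real.exp (L - bb)) ≤ e / 2) :
    (D.P h t).E (fun u => ind (OwQ D v q l c u) * ind (SBd h v t q i k B e u)) ≤
      8 / (al * e) * (Real.exp (-a) / dp + Real.exp (L - bb)) * (D.P h t).E (fun u => ind (OwQ D v q l c u)) := by
  classical
  have hNl : ∀ l, 0 < N (univ.erase l) := fun l => by rw [hN2]; exact hN2p
  set P := D.P h t with hP
  set Zb := ZbQ (φ := φ) D v q with hZb
  set F := FQ (φ := φ) v t with hF
  have hv := R.codes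
  set μ := muC D v (t + 1) t c with hμ
  set μq := muC D v (nc q ∅) (nn q) c with hμq
  have hni := nc_old t h5 h4 i
  have hnl := nc_old t h5 h4 l
  have htn := nn_ge t h5
  set cq := cX D v (nc q ∅) (nn q) c with hcq
  set CC := Cl v (t + 1) l c with hCC
  set O := OwQ D v q l c with hO
  set mq := μ.E (fun x => ind (cq x) * ind (CC x)) with hmq
  set mC := μ.E (fun x => ind (CC x)) with hmC
  have hmq0 : 0 < mq := hdp.trans_le hm
  have hmC0 : 0 ≤ mC := FP.E_nonneg _ fun _ _ => ind_nonneg _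
  set m0 := μ.Pr cq with hm0
  have muE : ∀ Hh : X → ℝ, μ.E (fun x' => ind (cq x') * Hh x') = m0 * μq.E Hh := fun Hh =>
    muQ_E (nc_0ge t h5) htn c Hh
  have m00 : 0 ≤ m0 := FP.Pr_nonneg _ _
  set e2 := μq.E (fun x => ind (CC x)) with he2
  have emq : mq = m0 * e2 := muE _
  have hm0p : 0 < m0 := by
    rcases m00.lt_or_eq with h1 | h1
    · exact h1
    · rw [emq, ← h1, zero_mul] at hmq0
      exact absurd hmq0 (lt_irrefl _)
  have he2p : 0 < e2 := by
    rw [emq] at hmq0
    exact (pos_iff_pos_of_mul_pos hmq0).1 hm0p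
  -- the bad values as a function of the letter and the label
  have own2 : ∀ u u', O u → O u' → XLq v q i u = XLq v q i u' → Zb k u = Zb k u' := by
    intro u u' ho ho' hX
    refine Zb_of hv (ho.1.trans ho'.1.symm) fun j hj => ?_
    have key : ∀ i k l j : Fin 3, i ≠ l → i ≠ k → l ≠ k → j ≠ k → j = i ∨ j = l := by decide
    rcases key i k l j hil hik hlk hj with rfl | rfl
    · exact hX
    · exact ho.2.trans ho'.2.symm
  obtain ⟨f', f1, f2⟩ := fac_ext (fun u => P.p u ≠ 0 ∧ O u) (fun u => (XLq v q i u, u.2.2 k))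
    (fun u => ind (B u (F k u))) (fun u _ => by rw [abs_of_nonneg (ind_nonneg _)]; exact ind_le_one _)
    (fun u u' hu' hu'' hY => by
      rw [Prod.mk.injEq] at hY
      have h1 := own2 u u' hu'.2 hu''.2 hY.1
      have h2 : F k u = F k u' := (top_name H R hS hu hNl ht.le h5 hu'.1 hu''.1 h1).2 hY.2
      have h3 : B u (F k u) = B u' (F k u') := by
        rw [h2]
        exact hB (F k u') u u' h1
      rw [h3])
  set f : β × List (Pt (Fin 3) X β φ) → φ → ℝ := fun z Fv => f' (z, Fv) with hf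
  obtain ⟨r, r01, hr⟩ := nu_half H ht h5 h4 c i
  set fr : β × List (Pt (Fin 3) X β φ) → φ → ℝ := fun z Fv => r z.1 * f z Fv with hfr
  have hfr1 : ∀ z Fv, |fr z Fv| ≤ 1 := fun z Fv => by
    simp only [hfr]
    rw [abs_mul, abs_of_nonneg (r01 z.1).1]
    exact mul_le_one₀ (r01 z.1).2 (abs_nonneg _) (f1 (z, Fv))
  set Φ : X → ℝ := Ph D v t t (t + 1) c i k fr with hΦ
  have ePh : ∀ x', Ph D v t (nn q) (nc q {i}) c i k f x' = 2 * Φ x' := by
    intro x'
    simp only [hΦ]
    unfold Ph
    rw [hni, hr]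
    congr 1
    refine FP.E_congr _ fun b _ => ?_
    rw [Finset.mul_sum]
    refine Finset.sum_congr rfl fun Fv _ => ?_
    simp only [hfr]
    ring
  set fb := fbr D v t c i k l fr with hfb
  set κB := kapB N1 N2 a bb with hκB
  set E0 := Real.exp (-a) + Real.exp (-bb) * mC with hE0
  have hE00 : 0 ≤ E0 := add_nonneg (Real.exp_pos _).le (mul_nonneg (Real.exp_pos _).le hmC0)
  have hM := Ml_pos (D := D) (v := v) q l c
  set M := Ml D v q l c with hMd
  have PO : P.E (fun u => ind (O u)) = M * e2 := by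
    have h1 := own_E (h := h) hv t q c hil (fun _ _ => 1)
    rw [hnl] at h1
    simp only [FP.E_const, mul_one] at h1
    exact h1
  -- the small error
  have hEm : E0 / mq ≤ Real.exp (-a) / dp + Real.exp (L - bb) := by
    rw [hE0, add_div]
    refine add_le_add (div_le_div_of_nonneg_left (Real.exp_pos _).le hdp hm) ?_
    rw [div_le_iff₀ hmq0]
    have e3 : Real.exp (L - bb) = Real.exp (-bb) * Real.exp L := by rw [← Real.exp_add]; ring_nf
    have e4 : mC ≤ Real.exp L * mq := by
      have h1 := mul_le_mul_of_nonneg_left hL (Real.exp_pos L).le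
      rw [← mul_assoc, ← Real.exp_add, add_neg_cancel, Real.exp_zero, one_mul] at h1
      exact h1
    rw [e3, mul_assoc]
    exact mul_le_mul_of_nonneg_left e4 (Real.exp_pos _).le
  -- the mean inside the own class
  have hfbu : fb ≤ β0 / 2 + κB + 2 * (E0 / mq) := by
    have h1 := wt_own2 R hN h0 hS1 hS hN0 hN1 hN1p hN2 hN2p t hil hik hlk a bb hfr1 (c := c) (g := fun x' => ind (cq x'))
      (fun x' => ind_nonneg _) (fun x' => ind_le_one _)
    have h2 : μ.E (fun x' => ind (cq x') * (ind (CC x') * Φ x')) ≤ β0 / 2 * mq := by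
      have h3 := own_lab (h := h) hv htn c hil hik hlk (fun _ => True) f
      have h4 : P.E (fun u => ind (O u) * (ind True * f (XLq v q i u) (u.2.2 k))) =
          P.E (fun u => ind (O u) * ind (B u (F k u))) := by
        refine P.E_congr fun u hu' => ?_
        by_cases ho : O u
        · rw [ind_of ho, ind_of trivial, one_mul, one_mul]
          have h5 : f (XLq v q i u) (u.2.2 k) = ind (B u (F k u)) := f2 u ⟨hu', ho⟩
          rw [h5, one_mul]
        · rw [ind_not ho, zero_mul, zero_mul]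
      rw [h4, hnl] at h3
      have h5 : μq.E (fun x => ind (Cl v (t + 1) l c x) * (ind True * Ph D v t (nn q) (nc q {i}) c i k f x)) =
          2 * μq.E (fun x => ind (CC x) * Φ x) := by
        rw [← FP.E_smul]
        exact FP.E_congr _ fun x' _ => by rw [ePh, ind_of trivial]; ring
      have h6 : M * (2 * μq.E (fun x => ind (CC x) * Φ x)) ≤ β0 * (M * e2) := by
        rw [← h5, ← PO]
        exact h3.symm.le.trans hβ
      have h7 : μq.E (fun x => ind (CC x) * Φ x) ≤ β0 / 2 * e2 := by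
        have h8 : M * (2 * μq.E (fun x => ind (CC x) * Φ x)) ≤ M * (β0 * e2) := by
          refine h6.trans (le_of_eq ?_)
          ring
        have h9 := le_of_mul_le_mul_left h8 hM
        linarith
      rw [muE, emq]
      have := mul_le_mul_of_nonneg_left h7 m00
      linarith
    have h4' : -(κB * mq + 2 * E0) ≤ μ.E (fun x' => ind (cq x') * (ind (CC x') * Φ x')) - fb * mq := (abs_le.1 h1).1
    have h5 : fb * mq ≤ (β0 / 2 + κB) * mq + 2 * E0 := by linarith
    have h6 : fb ≤ ((β0 / 2 + κB) * mq + 2 * E0) / mq := (le_div_iff₀ hmq0).2 h5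
    refine h6.trans (le_of_eq ?_)
    field_simp
  -- points with the exact point `b` at `k`
  choose lab hlab using fun (x : X) (b : β) => exists_lab (D := D) h t x (Function.update c.2.1 k b)
  set pt : X → β → Pt (Fin 3) X β φ := fun x b => (x, Function.update c.2.1 k b, lab x b) with hpt
  have hOpt : ∀ x b, cY D (nn q) c k b → (O (pt x b) ↔ cq x ∧ CC x) := by
    intro x b hb
    show OwQ D v q l c (pt x b) ↔ _
    rw [OwQ_iff hv, NPq_iff hv, hnl]
    have h1 : ∀ j, cY D (nn q) c j ((pt x b).2.1 j) := by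
      intro j
      show cY D (nn q) c j (Function.update c.2.1 k b j)
      by_cases hj : j = k
      · subst hj; rw [Function.update_self]; exact hb
      · rw [Function.update_of_ne hj]; exact cY_self _ c j
    have h2 : (pt x b).2.1 l = c.2.1 l := by
      show Function.update c.2.1 k b l = c.2.1 l
      rw [Function.update_of_ne hlk]
    exact ⟨fun hh => ⟨hh.1.1, hh.2.2⟩, fun hh => ⟨⟨hh.1, h1⟩, h2, hh.2⟩⟩
  -- the label of an exceptional row
  set GG : Pt (Fin 3) X β φ → φ → Prop := fun w F0 =>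
    (∃ u0, P.p u0 ≠ 0 ∧ Zb i u0 = Zb i w ∧ u0.2.2 i = F0) ∧
      e * P.E (fun u => ind (Zb i u = Zb i w) * ind (u.2.2 i = F0)) ≤
        P.E (fun u => ind (Zb i u = Zb i w) * (ind (u.2.2 i = F0) * ind (B u (F k u)))) with hGG
  have GGf : ∀ w w' F0, Zb i w = Zb i w' → GG w F0 → GG w' F0 := by
    intro w w' F0 hz hh
    simp only [hGG] at hh ⊢
    rw [← hz]
    exact hh
  obtain ⟨Fs, hFs⟩ : ∃ Fs : (Finset (Fin 3) → Option (List (Pt (Fin 3) X β φ) × (Fin 3 → Option φ))) ×
      ((Fin 3 → Option β) × (γ × (Fin 3 → γ))) → φ, ∀ w, P.p w ≠ 0 → SBd h v t q i k B e w → GG w (Fs (Zb i w)) := by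
    refine ⟨fun z => if hh : ∃ w, (P.p w ≠ 0 ∧ SBd h v t q i k B e w) ∧ Zb i w = z then
      (SBd_lab H R hS hu hNl ht h5 hB hh.choose_spec.1.1 hh.choose_spec.1.2).choose else c.2.2 i, fun w hw hs => ?_⟩
    have hh : ∃ w', (P.p w' ≠ 0 ∧ SBd h v t q i k B e w') ∧ Zb i w' = Zb i w := ⟨w, ⟨hw, hs⟩, rfl⟩
    simp only [dif_pos hh]
    exact GGf _ _ _ hh.choose_spec.2
      (SBd_lab H R hS hu hNl ht h5 hB hh.choose_spec.1.1 hh.choose_spec.1.2).choose_spec
  set SS : X → β → Prop := fun x b => SBd h v t q i k B e (pt x b) with hSS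
  set gg : β → X → ℝ := fun b x => ind (O (pt x b) ∧ SS x b) *
    D.kf t i x (Function.update c.2.1 k b) (Fs (Zb i (pt x b))) with hgg
  have gg0 : ∀ b x, 0 ≤ gg b x := fun b x => mul_nonneg (ind_nonneg _) (h.nn _ _ _ _ _)
  have gg1 : ∀ b x, gg b x ≤ 1 := fun b x => mul_le_one₀ (ind_le_one _) (h.nn _ _ _ _ _) (kf_le_one h t i x _ _)
  have hOf : Fac (Zb i) O := own_fac hv hil.symm c
  have hSf : Fac (Zb i) (SBd h v t q i k B e) := SBd_fac t q i k B e
  -- the class inequality
  have hcl : ∀ b, cY D (nn q) c k b → 0 ≤ μq.E (fun x => gg b x * (2 * Φ x - e)) := by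
    intro b hb
    refine E_nn_cls μq (fun x => Zb i (pt x b)) fun x0 hx0 => ?_
    by_cases hg : O (pt x0 b) ∧ SS x0 b
    · set w0 := pt x0 b with hw0
      have hp0 : P.p w0 ≠ 0 := hlab x0 b
      have hG := hFs w0 hp0 hg.2
      set F0 := Fs (Zb i w0) with hF0
      have h1 := hG.2
      have hN0' : NPq D v q w0 = NPq D v q c := hg.1.1
      have hX0 : cX D v (nc q ∅) (nn q) w0 = cq := by
        funext x
        have h2 := ((NPq_iff hv q c w0).1 hN0').1
        have h3 : Um v (nc q ∅) ∅ w0.1 c.2.1 = Um v (nc q ∅) ∅ c.1 c.2.1 := h2.1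
        have h4 : D.qa (nn q) w0.1 = D.qa (nn q) c.1 := h2.2
        have h5 : ∀ x', Um v (nc q ∅) ∅ x' w0.2.1 = Um v (nc q ∅) ∅ x' c.2.1 := fun x' =>
          Um_codes hv (nc_le q ∅) ∅ x' (fun j hj => absurd hj (Finset.notMem_empty j))
            ((NPq_iff hv q c w0).1 hN0').2
        show cX D v (nc q ∅) (nn q) w0 x = cX D v (nc q ∅) (nn q) c x
        unfold cX
        rw [h5, h5, h3, h4]
      have hmu : muC D v (nc q ∅) (nn q) w0 = μq := by
        rw [hμq]
        unfold muC
        rw [hX0]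
      have a1 := cls_lab (h := h) hv htn w0 i (fun _ _ => 1) F0
      have a2 := cls_lab2 (h := h) hv w0 hik htn F0 f
      rw [hmu] at a1 a2
      simp only [FP.E_const, mul_one] at a1
      have a3 : P.E (fun u => ind (Zb i u = Zb i w0) * (ind (u.2.2 i = F0) * ind (B u (F k u)))) =
          P.E (fun u => ind (Zb i u = Zb i w0) * (ind (u.2.2 i = F0) * f (XLq v q i u) (u.2.2 k))) := by
        refine P.E_congr fun u hu' => ?_
        by_cases hz : Zb i u = Zb i w0
        · have ho : O u := by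
            have : O u = O w0 := hOf u w0 hz
            rw [this]; exact hg.1
          have h5 : f (XLq v q i u) (u.2.2 k) = ind (B u (F k u)) := f2 u ⟨hu', ho⟩
          rw [h5]
        · rw [ind_not hz, zero_mul, zero_mul]
      rw [a3, a1, a2] at h1
      have hMz := Mz_pos (D := D) (v := v) q i w0
      have h2 : e * μq.E (fun x => ind (K0 v q i w0 x) * D.kf t i x w0.2.1 F0) ≤
          μq.E (fun x => ind (K0 v q i w0 x) * (D.kf t i x w0.2.1 F0 * Ph D v t (nn q) (nc q {i}) w0 i k f x)) := by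
        refine le_of_mul_le_mul_left ?_ hMz
        refine le_trans (le_of_eq ?_) h1
        ring
      have h3 : 0 ≤ μq.E (fun x => ind (K0 v q i w0 x) * (D.kf t i x w0.2.1 F0 * (2 * Φ x - e))) := by
        have e3 : μq.E (fun x => ind (K0 v q i w0 x) * (D.kf t i x w0.2.1 F0 * (2 * Φ x - e))) =
            μq.E (fun x => ind (K0 v q i w0 x) * (D.kf t i x w0.2.1 F0 * Ph D v t (nn q) (nc q {i}) w0 i k f x)) -
            e * μq.E (fun x => ind (K0 v q i w0 x) * D.kf t i x w0.2.1 F0) := by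
          rw [← FP.E_smul, ← FP.E_sub]
          refine FP.E_congr _ fun x _ => ?_
          rw [Ph_own hv htn hil hik hlk hg.1 f x, ePh]
          ring
        rw [e3]
        linarith
      refine h3.trans (le_of_eq ?_)
      refine FP.E_congr _ fun x hx => ?_
      have hcx : cq x := (cond_supp (P := FP.unif X) (unif_ne (cX_self (nc q ∅) (nn q) c)) hx).1
      have hiff : Zb i (pt x b) = Zb i w0 ↔ K0 v q i w0 x := by
        show ZbQ D v q i (pt x b) = ZbQ D v q i w0 ↔ _
        rw [Zb_iff hv]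
        refine ⟨fun hh => hh.2.2, fun hh => ⟨?_, fun j _ => rfl, hh⟩⟩
        rw [NP_iff hv (nc_le q ∅)]
        refine ⟨?_, fun j => cY_self _ w0 j⟩
        rw [hX0]
        exact hcx
      by_cases hz : Zb i (pt x b) = Zb i w0
      · have ho : O (pt x b) ∧ SS x b := by
          have g1 : O (pt x b) = O w0 := hOf _ _ hz
          have g2 : SBd h v t q i k B e (pt x b) = SBd h v t q i k B e w0 := hSf _ _ hz
          refine ⟨by rw [g1]; exact hg.1, ?_⟩
          show SBd h v t q i k B e (pt x b)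
          rw [g2]
          exact hg.2
        show _ = ind (Zb i (pt x b) = Zb i w0) * (gg b x * (2 * Φ x - e))
        rw [ind_of (hiff.1 hz), ind_of hz]
        simp only [hgg]
        rw [ind_of ho, hz]
        ring
      · show _ = ind (Zb i (pt x b) = Zb i w0) * (gg b x * (2 * Φ x - e))
        rw [ind_not (fun hh => hz (hiff.2 hh)), ind_not hz, zero_mul, zero_mul]
    · refine le_of_eq ?_
      symm
      refine (FP.E_congr _ fun x _ => ?_).trans (FP.E_const _ 0)
      show ind (Zb i (pt x b) = Zb i (pt x0 b)) * (gg b x * (2 * Φ x - e)) = 0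
      by_cases hz : Zb i (pt x b) = Zb i (pt x0 b)
      · have h1 : gg b x = 0 := by
          simp only [hgg]
          rw [ind_not, zero_mul]
          rintro ⟨g1, g2⟩
          apply hg
          have k1 : O (pt x b) = O (pt x0 b) := hOf _ _ hz
          have k2 : SBd h v t q i k B e (pt x b) = SBd h v t q i k B e (pt x0 b) := hSf _ _ hz
          exact ⟨by rw [← k1]; exact g1, by show SBd h v t q i k B e (pt x0 b); rw [← k2]; exact g2⟩
        rw [h1, zero_mul, mul_zero]
      · rw [ind_not hz, zero_mul]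
  -- the mass of the exceptional letters
  have hal0 := h.pos
  have hmass : ∀ b, cY D (nn q) c k b → μq.E (fun x => ind (CC x) * ind (SS x b)) ≤ 8 * E0 / (al * e * m0) := by
    intro b hb
    set G0 := μ.E (fun x => ind (cq x) * gg b x) with hG0
    have eG : G0 = m0 * μq.E (gg b) := muE _
    have h1 : e * G0 ≤ 2 * μ.E (fun x => ind (cq x) * (gg b x * Φ x)) := by
      rw [eG, muE]
      have h2 : e * μq.E (gg b) ≤ 2 * μq.E (fun x => gg b x * Φ x) := by
        have h3 := hcl b hb
        have e3 : μq.E (fun x => gg b x * (2 * Φ x - e)) = 2 * μq.E (fun x => gg b x * Φ x) - e * μq.E (gg b) := by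
          rw [← FP.E_smul, ← FP.E_smul, ← FP.E_sub]
          exact FP.E_congr _ fun x _ => by ring
        rw [e3] at h3
        linarith
      have := mul_le_mul_of_nonneg_left h2 m00
      linarith
    have hgC : ∀ x, ind (cq x) * gg b x * ind (CC x) = ind (cq x) * gg b x := by
      intro x
      by_cases ho : O (pt x b)
      · rw [ind_of ((hOpt x b hb).1 ho).2, mul_one]
      · have h0' : gg b x = 0 := by
          simp only [hgg]
          have h1' : ind (O (pt x b) ∧ SS x b) = 0 := ind_not (fun hh => ho hh.1)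
          rw [h1', zero_mul]
        rw [h0', mul_zero, zero_mul]
    have h2 := wt_own2 R hN h0 hS1 hS hN0 hN1 hN1p hN2 hN2p t hil hik hlk a bb hfr1 (c := c)
      (g := fun x' => ind (cq x') * gg b x') (fun x' => mul_nonneg (ind_nonneg _) (gg0 b x'))
      (fun x' => mul_le_one₀ (ind_le_one _) (gg0 b x') (gg1 b x'))
    have e1 : μ.E (fun x => ind (cq x) * gg b x * (ind (CC x) * Φ x)) = μ.E (fun x => ind (cq x) * (gg b x * Φ x)) :=
      FP.E_congr _ fun x _ => by
        have := hgC x
        calc _ = (ind (cq x) * gg b x * ind (CC x)) * Φ x := by ring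
          _ = _ := by rw [this]; ring
    have e2' : μ.E (fun x => ind (cq x) * gg b x * ind (CC x)) = G0 := FP.E_congr _ fun x _ => hgC x
    have h3 : |μ.E (fun x => ind (cq x) * (gg b x * Φ x)) - fb * G0| ≤ κB * G0 + 2 * E0 := by
      rw [← e1, ← e2']
      exact h2
    have h4' := (abs_le.1 h3).2
    have G00 : 0 ≤ G0 := FP.E_nonneg _ fun x _ => mul_nonneg (ind_nonneg _) (gg0 b x)
    have h5' : e * G0 ≤ (β0 + 4 * κB + 4 * (E0 / mq)) * G0 + 4 * E0 := by
      have h6 := mul_le_mul_of_nonneg_right hfbu G00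
      nlinarith
    have h6 : β0 + 4 * κB + 4 * (E0 / mq) ≤ e / 2 := by linarith
    have h7 := mul_le_mul_of_nonneg_right h6 G00
    have h8 : e * G0 ≤ 8 * E0 := by linarith
    -- the label has probability at least `al`
    have h9 : al * μ.E (fun x => ind (cq x) * (ind (CC x) * ind (SS x b))) ≤ G0 := by
      rw [← FP.E_smul]
      refine FP.E_mono _ fun x _ => ?_
      by_cases hx : cq x ∧ CC x ∧ SS x b
      · have ho : O (pt x b) := (hOpt x b hb).2 ⟨hx.1, hx.2.1⟩
        have hG := hFs (pt x b) (hlab x b) hx.2.2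
        obtain ⟨u0, hu0, hz0, hF0⟩ := hG.1
        have k3 : D.kf t i u0.1 u0.2.1 (u0.2.2 i) ≠ 0 := by
          have k6 : (∏ l, D.kf t l u0.1 u0.2.1 (u0.2.2 l)) /
            (Fintype.card X * (Fintype.card β : ℝ) ^ Fintype.card (Fin 3)) ≠ 0 := hu0
          exact Finset.prod_ne_zero_iff.1 (div_ne_zero_iff.1 k6).1 i (mem_univ i)
        have k2 := Zb_pts hz0
        have k7 := h.thick t i u0.1 x u0.2.1 (u0.2.2 i) (qa_mono D htn k2.2.1) k3
        rw [D.dep t i x u0.2.1 (Function.update c.2.1 k b) k2.1 (qb_mono D htn (k2.2.2 i)), hF0] at k7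
        simp only [hgg]
        rw [ind_of hx.1, ind_of hx.2.1, ind_of hx.2.2, ind_of ⟨ho, hx.2.2⟩]
        simp only [one_mul, mul_one]
        exact k7
      · have h0' : ind (cq x) * (ind (CC x) * ind (SS x b)) = 0 := by
          by_cases a1 : cq x
          · by_cases a2 : CC x
            · have a3 : ¬ SS x b := fun hh => hx ⟨a1, a2, hh⟩
              rw [ind_not a3, mul_zero, mul_zero]
            · rw [ind_not a2, zero_mul, mul_zero]
          · rw [ind_not a1, zero_mul]
        rw [h0', mul_zero]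
        exact mul_nonneg (ind_nonneg _) (gg0 b x)
    rw [muE] at h9
    rw [le_div_iff₀ (by positivity)]
    have h10 := mul_le_mul_of_nonneg_left h9 he.le
    calc μq.E (fun x => ind (CC x) * ind (SS x b)) * (al * e * m0) =
        e * (al * (m0 * μq.E (fun x => ind (CC x) * ind (SS x b)))) := by ring
      _ ≤ 8 * E0 := h10.trans h8
  -- conclusion
  have hkl : k ≠ l := hlk.symm
  have fin1 : P.E (fun u => ind (O u) * ind (SBd h v t q i k B e u)) =
      M * (nuC D (nn q) c k).E (fun b => μq.E (fun x => ind (CC x) * ind (SS x b))) := by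
    have h1 := own_E (h := h) hv t q c hkl (fun x b => ind (SS x b))
    rw [hnl] at h1
    have e1 : P.E (fun u => ind (O u) * ind (SBd h v t q i k B e u)) =
        P.E (fun u => ind (O u) * ind (SS u.1 (u.2.1 k))) := by
      refine P.E_congr fun u _ => ?_
      by_cases ho : O u
      · have h2 := (OwQ_iff hv q l c u).1 ho
        have h3 := (NPq_iff hv q c u).1 h2.1
        have hb : cY D (nn q) c k (u.2.1 k) := h3.2 k
        have h4 : Zb i (pt u.1 (u.2.1 k)) = Zb i u := by
          have ho' : O (pt u.1 (u.2.1 k)) := (hOpt _ _ hb).2 ⟨h3.1, by rw [hCC, ← hnl]; exact h2.2.2⟩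
          refine Zb_of hv (ho'.1.trans ho.1.symm) fun j hj => ?_
          have key : ∀ i k l j : Fin 3, i ≠ l → i ≠ k → l ≠ k → j ≠ i → j = k ∨ j = l := by decide
          rcases key i k l j hil hik hlk hj with rfl | rfl
          · rw [XLq_code hv ho'.1 j, XLq_code hv ho.1 j]
            show (Function.update c.2.1 j (u.2.1 j) j, code v (nc q {j}) c j u.1 (Function.update c.2.1 j (u.2.1 j) j)) = _
            rw [Function.update_self]
          · exact ho'.2.trans ho.2.symm
        have h5 : SBd h v t q i k B e (pt u.1 (u.2.1 k)) = SBd h v t q i k B e u := hSf _ _ h4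
        show _ = ind (O u) * ind (SBd h v t q i k B e (pt u.1 (u.2.1 k)))
        rw [h5]
      · rw [ind_not ho, zero_mul, zero_mul]
    rw [e1]
    refine h1.trans ?_
    congr 1
    rw [← FP.E_swap]
    exact FP.E_congr _ fun x _ => (FP.E_smul _ _ _).symm
  have fin2 : (nuC D (nn q) c k).E (fun b => μq.E (fun x => ind (CC x) * ind (SS x b))) ≤ 8 * E0 / (al * e * m0) := by
    rw [← (nuC D (nn q) c k).E_const (8 * E0 / (al * e * m0))]
    refine FP.E_mono _ fun b hb => hmass b ?_
    exact (cond_supp (P := FP.unif β) (unif_ne (cY_self (nn q) c k)) hb).1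
  rw [fin1, PO]
  refine (mul_le_mul_of_nonneg_left fin2 hM.le).trans ?_
  have fin3 : M * (8 * E0 / (al * e * m0)) = 8 / (al * e) * (E0 / mq) * (M * e2) := by
    rw [emq]
    field_simp
  rw [fin3]
  refine mul_le_mul_of_nonneg_right (mul_le_mul_of_nonneg_left hEm (by positivity)) (by positivity)

end exc

end

end Pool.Agent.GMH.TP
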