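import Pool.Agent.GMH.HPair

/-!
# GMH/HPairC: the constants of `PairE` (helper49, row F3 of H3.LEAN)
-/

set_option autoImplicit false
set_option linter.unusedSectionVars false

namespace Pool.Agent.GMH.TP

noncomputable section

/-- relative entropy of the first swap (`BitDev.kap1`, numbers of the run) -/
def kk1 (N1 N2 al X0 Lo L : ℝ) : ℝ :=
  2 * N1 * (L + 1) / N2 + (2 * (Lo + 1) + 2 * Real.log ((Real.exp X0 + 1) * (1 / al))) / N1

/-- relative entropy of the second swap (`BitDev.kap2`, numbers of the run) -/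
def kk2 (N1 N2 al X0 R0 ep : ℝ) (kb : ℕ) (Lo L : ℝ) : ℝ :=
  L / (N2 / (2 * N1)) +
    2 * ((2 * (Lo + L + 1) + 2 * (kb * Real.log ((Real.exp X0 + 1) * (1 / al + 1)))) / N1 + Real.log (1 / al) + 3) /
      (N2 / (2 * N1)) +
    N2 / (2 * N1) * (R0 + L / (N2 / (2 * N1))) ^ 2 / (2 * kb) + 2 * ep

/-- mass of the cell and of a pair of letters -/
def dpP (X1 del : ℝ) : ℝ := del * Real.exp (-X1)

/-- the mean deviation inside the own class -/
def dM (N1 N2 al X0 X1 del R0 ep : ℝ) (kb : ℕ) (L : ℝ) : ℝ :=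
  4 * (Real.sqrt (2 * kk2 N1 N2 al X0 R0 ep kb (Real.log (1 / dpP X1 del)) L) +
    3 * Real.sqrt (2 * kk1 N1 N2 al X0 (Real.log (1 / dpP X1 del)) L))

/-- two letters -/
def kapT (N1 X1 del a : ℝ) : ℝ := 4 * kap0 N1 a + 8 * Real.exp (-a) / dpP X1 del

/-- the super small probability -/
def tinP (X1 del L a bb : ℝ) : ℝ := Real.exp (-a) / dpP X1 del + Real.exp (L - bb)

/-- numbers for `PairE` -/
structure PairNum (N1 N2 al X0 X1 del dl L a bb R0 ep e tau : ℝ) (kb : ℕ) (eps : ℝ) : Prop where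
  hda : Real.exp (-a) ≤ dl
  kb0 : 0 < kb
  ep0 : 0 < ep
  ep2 : ep ≤ 1 / 2
  hR0 : Real.log (1 / ep) ≤ R0
  hR1 : Real.log (1 / al) ≤ R0
  hkR : N2 / (2 * N1) * (R0 + L / (N2 / (2 * N1))) ≤ 2 * kb
  e0 : 0 < e
  t0 : 0 < tau
  num : dM N1 N2 al X0 X1 del R0 ep kb L / tau + 4 * kapB N1 N2 a bb + 4 * tinP X1 del L a bb ≤ e / 2
  fin : Real.sqrt (2 * tau) + Real.sqrt (dM N1 N2 al X0 X1 del R0 ep kb L / tau + kapT N1 X1 del a) + Real.sqrt e +
    Real.sqrt (8 / (al * e) * tinP X1 del L a bb + kapT N1 X1 del a + d1T N1 al X1 dl a) ≤ eps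

end

end Pool.Agent.GMH.TP
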