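import Pool.Agent.GMH.HPairM
import Pool.Agent.GMH.HPair2
import Pool.Agent.GMH.TopNT

/-!
# GMH/HPairF: `PairE`, the assembly (helper49, row F3 of H3.LEAN)

* `schurE` : rows and columns of a nonnegative kernel;
* `pair_fin` : **`PairE`** at the states `5t ≤ q ≤ 5t + 4` for weights on alive points whose own classes see the public cell.
-/

set_option autoImplicit false
set_option linter.unusedSectionVars false

namespace Pool.Agent.GMH.TP

open Finset Pool.Agent.PWZ Pool.Agent.M3 Pool.Agent.GM Pool.Agent.GM.Harm Pool.Agent.GMH Pool.Agent.GMH.NZ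
open Pool.Agent.GMH.V3

noncomputable section

section gen

variable {Om κ κ' ι ι' : Type*} [Fintype Om] (P : FP Om)

/-- rows and columns of a nonnegative kernel -/
theorem schurE {Zi : Om → ι} {Zk : Om → ι'} (sx : Finset κ) (sy : Finset κ') (K : Om → κ → κ' → ℝ)
    (K0 : ∀ w x y, 0 ≤ K w x y) {qi : Om → κ → ℝ} {qk : Om → κ' → ℝ} {r c : ℝ} (r0 : 0 ≤ r)
    (q0 : ∀ w x, 0 ≤ qi w x) (q0' : ∀ w y, 0 ≤ qk w y)
    (hr : ∀ w, P.p w ≠ 0 → ∀ x ∈ sx, P.ce Zi (fun u => ∑ y ∈ sy, K u x y) w ≤ r * qi w x)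
    (hc : ∀ w, P.p w ≠ 0 → ∀ y ∈ sy, P.ce Zk (fun u => ∑ x ∈ sx, K u x y) w ≤ c * qk w y)
    {l : Om → κ → ℝ} {m : Om → κ' → ℝ} (hl : ∀ x, Fac Zi (fun w => l w x)) (hm : ∀ y, Fac Zk (fun w => m w y)) :
    P.E (fun w => ∑ x ∈ sx, ∑ y ∈ sy, K w x y * (l w x * m w y)) ≤
      Real.sqrt (r * c) * Real.sqrt (P.E (fun w => ∑ x ∈ sx, qi w x * l w x ^ 2) *
        P.E (fun w => ∑ y ∈ sy, qk w y * m w y ^ 2)) := by
  classical
  have h1 : P.E (fun w => ∑ x ∈ sx, ∑ y ∈ sy, K w x y * l w x ^ 2) ≤ r * P.E (fun w => ∑ x ∈ sx, qi w x * l w x ^ 2) := by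
    have e1 : P.E (fun w => ∑ x ∈ sx, ∑ y ∈ sy, K w x y * l w x ^ 2) =
        ∑ x ∈ sx, P.E (fun w => l w x ^ 2 * P.ce Zi (fun u => ∑ y ∈ sy, K u x y) w) := by
      rw [FP.E_sum]
      refine Finset.sum_congr rfl fun x _ => ?_
      have hf : Fac Zi (fun w => l w x ^ 2) := (hl x).comp fun z => z ^ 2
      rw [P.E_mul_ce hf]
      refine P.E_congr fun w _ => ?_
      rw [Finset.mul_sum]
      exact Finset.sum_congr rfl fun y _ => by ring
    rw [e1, ← FP.E_smul, ← FP.E_sum]
    refine P.E_mono fun w hw => ?_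
    rw [Finset.mul_sum]
    refine Finset.sum_le_sum fun x hx => ?_
    have := mul_le_mul_of_nonneg_left (hr w hw x hx) (sq_nonneg (l w x))
    refine this.trans (le_of_eq ?_)
    ring
  have h2 : P.E (fun w => ∑ x ∈ sx, ∑ y ∈ sy, K w x y * m w y ^ 2) ≤ c * P.E (fun w => ∑ y ∈ sy, qk w y * m w y ^ 2) := by
    have e1 : P.E (fun w => ∑ x ∈ sx, ∑ y ∈ sy, K w x y * m w y ^ 2) =
        ∑ y ∈ sy, P.E (fun w => m w y ^ 2 * P.ce Zk (fun u => ∑ x ∈ sx, K u x y) w) := by
      have e2 : P.E (fun w => ∑ x ∈ sx, ∑ y ∈ sy, K w x y * m w y ^ 2) =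
          P.E (fun w => ∑ y ∈ sy, ∑ x ∈ sx, K w x y * m w y ^ 2) := P.E_congr fun w _ => Finset.sum_comm
      rw [e2, FP.E_sum]
      refine Finset.sum_congr rfl fun y _ => ?_
      have hf : Fac Zk (fun w => m w y ^ 2) := (hm y).comp fun z => z ^ 2
      rw [P.E_mul_ce hf]
      refine P.E_congr fun w _ => ?_
      rw [Finset.mul_sum]
      exact Finset.sum_congr rfl fun x _ => by ring
    rw [e1, ← FP.E_smul, ← FP.E_sum]
    refine P.E_mono fun w hw => ?_
    rw [Finset.mul_sum]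
    refine Finset.sum_le_sum fun y hy => ?_
    have := mul_le_mul_of_nonneg_left (hc w hw y hy) (sq_nonneg (m w y))
    refine this.trans (le_of_eq ?_)
    ring
  set A := P.E (fun w => ∑ x ∈ sx, qi w x * l w x ^ 2) with hA
  set B := P.E (fun w => ∑ y ∈ sy, qk w y * m w y ^ 2) with hB
  have hA0 : 0 ≤ A := FP.E_nonneg _ fun w _ => Finset.sum_nonneg fun x _ => mul_nonneg (q0 w x) (sq_nonneg _)
  have h20 : 0 ≤ P.E (fun w => ∑ x ∈ sx, ∑ y ∈ sy, K w x y * m w y ^ 2) := FP.E_nonneg _ fun w _ =>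
    Finset.sum_nonneg fun x _ => Finset.sum_nonneg fun y _ => mul_nonneg (K0 w x y) (sq_nonneg _)
  refine (cs3 P sx sy K K0 l m).trans ?_
  rw [← Real.sqrt_mul' _ (mul_nonneg hA0 (FP.E_nonneg _ fun w _ => Finset.sum_nonneg fun y _ =>
    mul_nonneg (q0' w y) (sq_nonneg _)))]
  refine Real.sqrt_le_sqrt ?_
  refine (mul_le_mul h1 h2 h20 (mul_nonneg r0 hA0)).trans (le_of_eq ?_)
  ring

/-- a marginal -/
theorem mF2_row (Z : Om → ι) (F : Om → κ) (G : Om → κ') (w : Om) (x : κ) :
    ∑ y ∈ vals G, P.pv Z (fun u => (F u, G u)) w (x, y) = P.pv Z F w x := by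
  classical
  have e1 : ∑ y ∈ vals G, P.pv Z (fun u => (F u, G u)) w (x, y) =
      P.ce Z (fun u => ∑ y ∈ vals G, ind ((F u, G u) = (x, y))) w := (P.ce_sum Z (vals G) _ w).symm
  rw [e1]
  unfold FP.pv
  refine P.ce_congr (fun u _ => ?_) w
  rw [Finset.sum_eq_single (G u)]
  · refine ind_cg ?_
    rw [Prod.mk.injEq]
    exact ⟨fun hh => hh.1, fun hh => ⟨hh, rfl⟩⟩
  · intro y _ hy
    exact ind_not fun hh => hy (congrArg Prod.snd hh).symm
  · intro hn
    exact absurd (mem_valsOf G u) hn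

theorem mF2_col (Z : Om → ι) (F : Om → κ) (G : Om → κ') (w : Om) (y : κ') :
    ∑ x ∈ vals F, P.pv Z (fun u => (F u, G u)) w (x, y) = P.pv Z G w y := by
  classical
  have e1 : ∑ x ∈ vals F, P.pv Z (fun u => (F u, G u)) w (x, y) =
      P.ce Z (fun u => ∑ x ∈ vals F, ind ((F u, G u) = (x, y))) w := (P.ce_sum Z (vals F) _ w).symm
  rw [e1]
  unfold FP.pv
  refine P.ce_congr (fun u _ => ?_) w
  rw [Finset.sum_eq_single (F u)]
  · refine ind_cg ?_
    rw [Prod.mk.injEq]
    exact ⟨fun hh => hh.2, fun hh => ⟨rfl, hh⟩⟩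
  · intro x _ hx
    exact ind_not fun hh => hx (congrArg Prod.fst hh).symm
  · intro hn
    exact absurd (mem_valsOf F u) hn

end gen

section run

variable {X β γ φ : Type} [Fintype X] [Fintype β] [Fintype φ] [Nonempty X] [Nonempty β]
variable {D : HD (Fin 3) X β γ φ} {al : ℝ} {h : D.Thick al} {N : Finset (Fin 3) → ℝ} {S : Finset (Finset (Fin 3))}
  {v : ℕ → Finset (Fin 3) → X → (Fin 3 → β) → Pt (Fin 3) X β φ} {dg : ℕ → X → ℝ} {prr : ℕ → Fin 3 → φ → φ} {T : ℕ}
  {Lam : ℝ}

theorem m_Ow (t q : ℕ) (l : Fin 3) (c : Pt (Fin 3) X β φ) :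
    (D.P h t).m (OwM D v q l) c = (D.P h t).E (fun u => ind (OwQ D v q l c u)) := by
  unfold FP.m
  exact FP.E_congr _ fun u _ => ind_cg (OwM_iff q l c u)

/-- masses at an alive point -/
theorem aliv_own (hv : Codes D v) {t q : ℕ} (h5 : 5 * t ≤ q) (h4 : q ≤ 5 * t + 4) {X1 del L : ℝ}
    {u : Pt (Fin 3) X β φ} (hu' : (D.P h t).p u ≠ 0) (hsp : ∀ i k, i ≠ k → spQ h v q i k u ≤ X1) (hdel0 : 0 < del)
    (hdel : del * (D.P h t).m (NPq D v (5 * t)) u ≤ (D.P h t).m (NPq D v q) u)
    (hLL : ∀ l, Real.exp (-L) * (D.P h t).m (OwM D v (5 * t) l) u ≤ (D.P h t).m (OwM D v q l) u) (l : Fin 3) :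
    dpP X1 del ≤ (muC D v (t + 1) t u).E (fun x => ind (cX D v (nc q ∅) (nn q) u x) * ind (Cl v (t + 1) l u x)) ∧
    Real.exp (-L) * (muC D v (t + 1) t u).E (fun x => ind (Cl v (t + 1) l u x)) ≤
      (muC D v (t + 1) t u).E (fun x => ind (cX D v (nc q ∅) (nn q) u x) * ind (Cl v (t + 1) l u x)) ∧
    ∀ i, Real.exp (-X1) ≤ (muC D v (nc q ∅) (nn q) u).Pr (K0 v q i u) := by
  have hq5 : q / 5 = t := by omega
  have htn := nn_ge t h5
  have hpr : ∀ i, Real.exp (-X1) ≤ (muC D v (nc q ∅) (nn q) u).Pr (K0 v q i u) := by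
    intro d
    obtain ⟨i, k, hik, hid, hkd⟩ : ∃ i k : Fin 3, i ≠ k ∧ i ≠ d ∧ k ≠ d := by
      have key : ∀ d : Fin 3, ∃ i k : Fin 3, i ≠ k ∧ i ≠ d ∧ k ≠ d := by decide
      exact key d
    rw [← K0_mass (h := h) hv hq5 hik hid hkd hu']
    exact Real.exp_le_exp.2 (neg_le_neg (hsp i k hik))
  refine ⟨?_, ?_, hpr⟩
  · rw [muQ_E (nc_0ge t h5) htn u (fun x => ind (Cl v (t + 1) l u x))]
    have h1 := del_mu (h := h) hv t h5 hdel
    obtain ⟨i, hil⟩ : ∃ i : Fin 3, i ≠ l := by
      have key : ∀ l : Fin 3, ∃ i : Fin 3, i ≠ l := by decide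
      exact key l
    have h2 : Real.exp (-X1) ≤ (muC D v (nc q ∅) (nn q) u).E (fun x => ind (Cl v (t + 1) l u x)) := by
      refine (hpr i).trans (FP.E_mono _ fun x _ => ind_mono fun hx => ?_)
      have h3 := hx l hil.symm
      rw [nc_old t h5 h4 l] at h3
      exact h3
    exact mul_le_mul h1 h2 (Real.exp_pos _).le (hdel0.le.trans h1)
  · have h1 := hLL l
    rw [m_Ow, m_Ow] at h1
    have hM := Ml_pos (D := D) (v := v) (5 * t) l u
    have h2 : (D.P h t).E (fun w => ind (OwQ D v (5 * t) l u w)) =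
        Ml D v (5 * t) l u * (muC D v (t + 1) t u).E (fun x => ind (Cl v (t + 1) l u x)) := Pr_own hv t u l
    have h3 : (D.P h t).E (fun w => ind (OwQ D v q l u w)) ≤ Ml D v (5 * t) l u *
        (muC D v (t + 1) t u).E (fun x => ind (cX D v (nc q ∅) (nn q) u x) * ind (Cl v (t + 1) l u x)) := by
      rw [← Pr_Vo (h := h) hv t u l (cX D v (nc q ∅) (nn q) u)]
      exact FP.E_mono _ fun w _ => ind_mono fun ho => ((ZQ_Vo hv h5 h4 ho w).1 rfl).1
    rw [h2] at h1
    have h6 := h1.trans h3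
    refine le_of_mul_le_mul_left (le_trans (le_of_eq ?_) h6) hM
    ring

/-- **`PairE`** -/
theorem pair_fin (H : D.Hyp dg prr al T Lam) (R : Run h N S (AdmDep D) v) (hN : ∀ J ∈ S, 0 ≤ N J) (h0 : ∅ ∈ S)
    (hS1 : ∀ i : Fin 3, {i} ∈ S) (hS : ∀ l, univ.erase l ∈ S) (hu : univ ∉ S) (hN0 : N ∅ = 1) {N1 N2 : ℝ}
    (hN1 : ∀ i : Fin 3, N {i} = N1) (hN1p : 0 < N1) (hN2 : ∀ l, N (univ.erase l) = N2) (hN2p : 0 < N2) {t q : ℕ}
    (ht : t < T) (h5 : 5 * t ≤ q) (h4 : q ≤ 5 * t + 4) {X0 X1 del L a bb R0 ep e tau eps : ℝ} {kb : ℕ}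
    (hdel0 : 0 < del) (hdel1 : del ≤ 1) (PN : PairNum N1 N2 al X0 X1 del del L a bb R0 ep e tau kb eps)
    {aw : Pt (Fin 3) X β φ → ℝ} (a0 : ∀ u, 0 ≤ aw u) (a1 : ∀ u, aw u ≤ 1)
    (hal : ∀ u, (D.P h t).p u ≠ 0 → aw u ≠ 0 → (∀ i k, i ≠ k → spQ h v q i k u ≤ X1) ∧
      (∀ i, ssQ h v (5 * t) i u ≤ X0) ∧ del * (D.P h t).m (NPq D v (5 * t)) u ≤ (D.P h t).m (NPq D v q) u ∧
      ∀ l, Real.exp (-L) * (D.P h t).m (OwM D v (5 * t) l) u ≤ (D.P h t).m (OwM D v q l) u) :
    PairE h v t q aw eps := by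
  classical
  have hNl : ∀ l, 0 < N (univ.erase l) := fun l => by rw [hN2]; exact hN2p
  intro i k hik' lf mf hlf hmf l0 m0
  have hik : i ≠ k := ne_of_lt hik'
  obtain ⟨l, hil, hlk⟩ : ∃ l : Fin 3, i ≠ l ∧ l ≠ k := by
    have key : ∀ i k : Fin 3, ∃ l : Fin 3, i ≠ l ∧ l ≠ k := by decide
    exact key i k
  set P := D.P h t with hP
  set Z := ZQ (φ := φ) D v q with hZ
  set Zb := ZbQ (φ := φ) D v q with hZb
  set F := FQ (φ := φ) v t with hF
  have hv := R.codes
  have hal1 : al ≤ 1 := hal_one h i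
  have halp := h.pos
  have he := PN.e0
  have htau := PN.t0
  have hdp : 0 < dpP X1 del := mul_pos hdel0 (Real.exp_pos _)
  set qi : Pt (Fin 3) X β φ → Tt X β φ → ℝ := fun w x => qF P Zb F i w x with hqi
  set qk : Pt (Fin 3) X β φ → Tt X β φ → ℝ := fun w y => qF P Zb F k w y with hqk
  set m2 : Pt (Fin 3) X β φ → Tt X β φ → Tt X β φ → ℝ := fun w x y => mF2 P Z F i k w x y with hm2
  set K : Pt (Fin 3) X β φ → Tt X β φ → Tt X β φ → ℝ := fun w x y => aw w * |m2 w x y - qi w x * qk w y| with hK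
  have qi0 : ∀ w x, 0 ≤ qi w x := fun w x => P.pv_nonneg _ _ _ _
  have qk0 : ∀ w y, 0 ≤ qk w y := fun w y => P.pv_nonneg _ _ _ _
  have m20 : ∀ w x y, 0 ≤ m2 w x y := fun w x y => P.pv_nonneg _ _ _ _
  have K0' : ∀ w x y, 0 ≤ K w x y := fun w x y => mul_nonneg (a0 w) (abs_nonneg _)
  have qi1 : ∀ w, P.p w ≠ 0 → ∑ x ∈ vals (F i), qi w x = 1 := fun w hw => P.pv_sum (Zb i) (F i) hw
  have qk1 : ∀ w, P.p w ≠ 0 → ∑ y ∈ vals (F k), qk w y = 1 := fun w hw => P.pv_sum (Zb k) (F k) hw
  have fqi : ∀ x, Fac (Zb i) (fun w => qi w x) := fun x => P.pv_fac _ _ _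
  have fqk : ∀ y, Fac (Zb k) (fun w => qk w y) := fun y => P.pv_fac _ _ _
  have row : ∀ w x, ∑ y ∈ vals (F k), m2 w x y = P.pv Z (F i) w x := fun w x => mF2_row P Z (F i) (F k) w x
  have col : ∀ w y, ∑ x ∈ vals (F i), m2 w x y = P.pv Z (F k) w y := fun w y => mF2_col P Z (F i) (F k) w y
  have ti : ∀ w x, P.ce (Zb i) (fun u => P.pv Z (F i) u x) w = qi w x := fun w x =>
    P.ce_tower (ZQ_Zb q i) (fun u => ind (F i u = x)) w
  have tk : ∀ w y, P.ce (Zb k) (fun u => P.pv Z (F k) u y) w = qk w y := fun w y =>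
    P.ce_tower (ZQ_Zb q k) (fun u => ind (F k u = y)) w
  -- bad values and exceptional rows
  set B : Pt (Fin 3) X β φ → Tt X β φ → Prop := fun w y =>
    tau * qk w y < P.ce (Zb k) (fun u => ∑ x ∈ vals (F i), K u x y) w with hB
  have fB : ∀ y, Fac (Zb k) (fun w => B w y) := by
    intro y a' b' hab
    have h1 : qk a' y = qk b' y := fqk y a' b' hab
    have h2 : P.ce (Zb k) (fun u => ∑ x ∈ vals (F i), K u x y) a' = P.ce (Zb k) (fun u => ∑ x ∈ vals (F i), K u x y) b' :=
      P.ce_fac _ _ a' b' hab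
    show (tau * qk a' y < P.ce (Zb k) (fun u => ∑ x ∈ vals (F i), K u x y) a') =
      (tau * qk b' y < P.ce (Zb k) (fun u => ∑ x ∈ vals (F i), K u x y) b')
    rw [h1, h2]
  set SB : Pt (Fin 3) X β φ → Prop := SBd h v t q i k B e with hSB
  have fS : Fac (Zb i) SB := SBd_fac t q i k B e
  set dm := dM N1 N2 al X0 X1 del R0 ep kb L with hdm
  set b0 := dm / tau with hb0
  set κ := kapT N1 X1 del a with hκ
  set tin := tinP X1 del L a bb with htin
  have dm0 : 0 ≤ dm := by
    rw [hdm]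
    unfold dM
    positivity
  have b00 : 0 ≤ b0 := div_nonneg dm0 htau.le
  have κ0 : 0 ≤ κ := by
    rw [hκ]
    unfold kapT kap0
    have := Real.exp_pos (-a)
    positivity
  have tin0 : 0 ≤ tin := by
    rw [htin]
    unfold tinP
    have := Real.exp_pos (-a)
    have := Real.exp_pos (L - bb)
    positivity
  -- facts at an alive point
  have mean : ∀ u, P.p u ≠ 0 → aw u ≠ 0 →
      P.E (fun w => ind (OwQ D v q l u w) * ∑ x ∈ vals (F i), ∑ y ∈ vals (F k), K w x y) ≤
        dm * P.E (fun w => ind (OwQ D v q l u w)) := by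
    intro u hu' hau
    obtain ⟨g1, g2, g3, g4⟩ := hal u hu' hau
    obtain ⟨a1', a2', a3'⟩ := aliv_own hv h5 h4 hu' g1 hdel0 g3 g4 l
    have key := mean_own H R hN h0 hS1 hS hu hN0 hN1 hN1p hN2 hN2p ht h5 h4 hil hik hlk hu' (X0 := X0) hdp a1' a2'
      PN.kb0 PN.ep0 PN.ep2 PN.hR0 PN.hR1 PN.hkR a1 (fun w hw haw => (hal w hw haw).2.1)
    refine le_trans (le_of_eq (P.E_congr fun w _ => ?_)) key
    congr 1
    rw [Finset.mul_sum]
    exact Finset.sum_congr rfl fun x _ => by rw [Finset.mul_sum]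
  have bmass0 : ∀ u, P.p u ≠ 0 → aw u ≠ 0 →
      P.E (fun w => ind (OwQ D v q l u w) * ∑ y ∈ vals (F k), ind (B w y) * qk w y) ≤
        b0 * P.E (fun w => ind (OwQ D v q l u w)) := by
    intro u hu' hau
    have h1 := mean u hu' hau
    have fO : Fac (Zb k) (OwQ D v q l u) := own_fac hv hlk u
    have h2 : tau * P.E (fun w => ind (OwQ D v q l u w) * ∑ y ∈ vals (F k), ind (B w y) * qk w y) ≤
        P.E (fun w => ind (OwQ D v q l u w) * ∑ x ∈ vals (F i), ∑ y ∈ vals (F k), K w x y) := by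
      have e1 : P.E (fun w => ind (OwQ D v q l u w) * ∑ x ∈ vals (F i), ∑ y ∈ vals (F k), K w x y) =
          P.E (fun w => ∑ y ∈ vals (F k), ind (OwQ D v q l u w) * P.ce (Zb k) (fun u' => ∑ x ∈ vals (F i), K u' x y) w) := by
        have e2 : ∀ w, ind (OwQ D v q l u w) * ∑ x ∈ vals (F i), ∑ y ∈ vals (F k), K w x y =
            ∑ y ∈ vals (F k), ind (OwQ D v q l u w) * ∑ x ∈ vals (F i), K w x y := by
          intro w
          rw [Finset.sum_comm, Finset.mul_sum]
        rw [P.E_congr fun w _ => e2 w, FP.E_sum, FP.E_sum]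
        refine Finset.sum_congr rfl fun y _ => (P.E_mul_ce (fO.comp fun p => ind p) _).symm
      rw [e1, ← FP.E_smul]
      refine P.E_mono fun w hw => ?_
      rw [Finset.mul_sum, Finset.mul_sum]
      refine Finset.sum_le_sum fun y _ => ?_
      by_cases hBw : B w y
      · rw [ind_of hBw, one_mul]
        have h3 := mul_le_mul_of_nonneg_left (le_of_lt hBw) (ind_nonneg (OwQ D v q l u w))
        refine le_trans (le_of_eq ?_) h3
        ring
      · rw [ind_not hBw, zero_mul, mul_zero, mul_zero]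
        exact mul_nonneg (ind_nonneg _) (P.ce_nonneg (fun u' _ => Finset.sum_nonneg fun x _ => K0' u' x y) w)
    have h3 := h2.trans h1
    rw [hb0, div_mul_eq_mul_div, le_div_iff₀ htau]
    linarith
  have bmass : ∀ u, P.p u ≠ 0 → aw u ≠ 0 →
      P.E (fun w => ind (OwQ D v q l u w) * ind (B w (F k w))) ≤ b0 * P.E (fun w => ind (OwQ D v q l u w)) := by
    intro u hu' hau
    refine le_trans (le_of_eq ?_) (bmass0 u hu' hau)
    have fO : Fac (Zb k) (OwQ D v q l u) := own_fac hv hlk u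
    have e1 : P.E (fun w => ind (OwQ D v q l u w) * ∑ y ∈ vals (F k), ind (B w y) * qk w y) =
        ∑ y ∈ vals (F k), P.E (fun w => (ind (OwQ D v q l u w) * ind (B w y)) * ind (F k w = y)) := by
      have e2 : ∀ w, ind (OwQ D v q l u w) * ∑ y ∈ vals (F k), ind (B w y) * qk w y =
          ∑ y ∈ vals (F k), (ind (OwQ D v q l u w) * ind (B w y)) * qk w y := by
        intro w
        rw [Finset.mul_sum]
        exact Finset.sum_congr rfl fun y _ => by ring
      rw [P.E_congr fun w _ => e2 w, FP.E_sum]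
      refine Finset.sum_congr rfl fun y _ => ?_
      refine P.E_mul_ce (X := Zb k) (h := fun w => ind (OwQ D v q l u w) * ind (B w y)) (fun a' b' hab => ?_)
        (fun w => ind (F k w = y))
      have g1 : OwQ D v q l u a' = OwQ D v q l u b' := fO a' b' hab
      have g2 : B a' y = B b' y := fB y a' b' hab
      show ind (OwQ D v q l u a') * ind (B a' y) = ind (OwQ D v q l u b') * ind (B b' y)
      rw [g1, g2]
    rw [e1, ← FP.E_sum]
    refine P.E_congr fun w _ => ?_
    rw [Finset.sum_eq_single (F k w)]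
    · rw [ind_of (rfl : F k w = F k w), mul_one]
    · intro y _ hy
      have h3 : ind (F k w = y) = 0 := ind_not (fun hh => hy hh.symm)
      rw [h3, mul_zero]
    · intro hn
      exact absurd (mem_valsOf (F k) w) hn
  have smass : ∀ u, P.p u ≠ 0 → aw u ≠ 0 →
      P.E (fun w => ind (OwQ D v q l u w) * ind (SB w)) ≤ 8 / (al * e) * tin * P.E (fun w => ind (OwQ D v q l u w)) := by
    intro u hu' hau
    obtain ⟨g1, g2, g3, g4⟩ := hal u hu' hau
    obtain ⟨a1', a2', a3'⟩ := aliv_own hv h5 h4 hu' g1 hdel0 g3 g4 l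
    exact exc_row H R hN h0 hS1 hS hu hN0 hN1 hN1p hN2 hN2p ht h5 h4 hil hik hlk he hdp a1' a2' fB (bmass u hu' hau)
      PN.num
  -- a function seen by the other top, given what one top sees
  have gce : ∀ j o : Fin 3, j ≠ l → j ≠ o → l ≠ o → ∀ g : Pt (Fin 3) X β φ → ℝ, Fac (Zb o) g →
      (∀ w, P.p w ≠ 0 → 0 ≤ g w) → (∀ w, P.p w ≠ 0 → g w ≤ 1) → ∀ (b : ℝ) (u : Pt (Fin 3) X β φ), P.p u ≠ 0 →
      aw u ≠ 0 → P.E (fun w => ind (OwQ D v q l u w) * g w) ≤ b * P.E (fun w => ind (OwQ D v q l u w)) →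
      P.ce (Zb j) g u ≤ b + κ := by
    intro j o hjl hjo hlo g fg g0 g1 b u hu' hau hb
    obtain ⟨c1, c2, c3, c4⟩ := hal u hu' hau
    obtain ⟨a1', a2', a3'⟩ := aliv_own hv h5 h4 hu' c1 hdel0 c3 c4 l
    have own2 : ∀ w w', OwQ D v q l u w → OwQ D v q l u w' → XLq v q j w = XLq v q j w' → Zb o w = Zb o w' := by
      intro w w' ho ho' hX
      refine Zb_of hv (ho.1.trans ho'.1.symm) fun j' hj' => ?_
      have key : ∀ j o l j' : Fin 3, j ≠ l → j ≠ o → l ≠ o → j' ≠ o → j' = j ∨ j' = l := by decide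
      rcases key j o l j' hjl hjo hlo hj' with rfl | rfl
      · exact hX
      · exact ho.2.trans ho'.2.symm
    obtain ⟨f, f1, f2⟩ := fac_ext (fun w => P.p w ≠ 0 ∧ OwQ D v q l u w) (XLq v q j) g
      (fun w hw => by rw [abs_of_nonneg (g0 w hw.1)]; exact g1 w hw.1)
      (fun w w' hw hw' hX => fg w w' (own2 w w' hw.2 hw'.2 hX))
    have key := two_let H R hN h0 hS1 hN0 hN1 hN1p ht h5 h4 (i := j) (l := l) hjl hu' (a := a) hdel0
      (Real.exp_pos (-X1)) (del_mu (h := h) hv t h5 c3) (a3' j) (f := f) f1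
    have e1 : P.ce (Zb j) (fun w => f (XLq v q j w)) u = P.ce (Zb j) g u := by
      unfold FP.ce
      congr 1
      refine P.E_congr fun w hw => ?_
      by_cases hz : Zb j w = Zb j u
      · have h7 : f (XLq v q j w) = g w := f2 w ⟨hw, Zb_own hv hjl.symm hz⟩
        show ind (Zb j w = Zb j u) * f (XLq v q j w) = _
        rw [h7]
      · rw [ind_not hz, zero_mul, zero_mul]
    have e2 : P.ce (OwM D v q l) (fun w => f (XLq v q j w)) u =
        P.E (fun w => ind (OwQ D v q l u w) * g w) / P.E (fun w => ind (OwQ D v q l u w)) := by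
      unfold FP.ce
      rw [m_Ow]
      congr 1
      refine P.E_congr fun w hw => ?_
      rw [ind_cg (OwM_iff q l u w)]
      by_cases ho : OwQ D v q l u w
      · have h7 : f (XLq v q j w) = g w := f2 w ⟨hw, ho⟩
        show ind (OwQ D v q l u w) * f (XLq v q j w) = _
        rw [h7]
      · rw [ind_not ho, zero_mul, zero_mul]
    have hpos : 0 < P.E (fun w => ind (OwQ D v q l u w)) := by
      rw [← m_Ow (h := h)]
      exact P.m_pos _ hu'
    have e3 : P.E (fun w => ind (OwQ D v q l u w) * g w) / P.E (fun w => ind (OwQ D v q l u w)) ≤ b := by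
      rw [div_le_iff₀ hpos]
      exact hb
    have h9 := (abs_le.1 key).2
    have e1' : (D.P h t).ce (ZbQ D v q j) (fun w => f (XLq v q j w)) u = P.ce (Zb j) g u := e1
    have e2' : (D.P h t).ce (OwM D v q l) (fun w => f (XLq v q j w)) u =
      P.E (fun w => ind (OwQ D v q l u w) * g w) / P.E (fun w => ind (OwQ D v q l u w)) := e2
    rw [e1', e2'] at h9
    have h10 : κ = 4 * kap0 N1 a + 8 * Real.exp (-a) / (del * Real.exp (-X1)) := rfl
    linarith
  -- classes without alive points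
  have dead : ∀ (j : Fin 3) (w : Pt (Fin 3) X β φ), (¬ ∃ u, P.p u ≠ 0 ∧ aw u ≠ 0 ∧ Zb j u = Zb j w) →
      ∀ f : Pt (Fin 3) X β φ → ℝ, (∀ u, aw u = 0 → f u = 0) → P.ce (Zb j) f w = 0 := by
    intro j w hex f hf
    push Not at hex
    unfold FP.ce
    have e2 : P.E (fun u => ind (Zb j u = Zb j w) * f u) = 0 := by
      refine (P.E_congr fun u hu' => ?_).trans (P.E_const 0)
      by_cases hz : Zb j u = Zb j w
      · by_cases ha : aw u = 0
        · rw [hf u ha, mul_zero]
        · exact absurd hz (hex u hu' ha)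
      · rw [ind_not hz, zero_mul]
    rw [e2, zero_div]
  -- the four kernels
  set K1 : Pt (Fin 3) X β φ → Tt X β φ → Tt X β φ → ℝ := fun w x y => ind (¬ B w y) * K w x y with hK1
  set K2 : Pt (Fin 3) X β φ → Tt X β φ → Tt X β φ → ℝ := fun w x y => ind (B w y) * (aw w * (qi w x * qk w y)) with hK2
  set K3 : Pt (Fin 3) X β φ → Tt X β φ → Tt X β φ → ℝ := fun w x y =>
    ind (¬ SB w) * (aw w * (ind (B w y) * m2 w x y)) with hK3
  set K4 : Pt (Fin 3) X β φ → Tt X β φ → Tt X β φ → ℝ := fun w x y =>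
    ind (SB w) * (aw w * (ind (B w y) * m2 w x y)) with hK4
  have K10 : ∀ w x y, 0 ≤ K1 w x y := fun w x y => mul_nonneg (ind_nonneg _) (K0' w x y)
  have K20 : ∀ w x y, 0 ≤ K2 w x y := fun w x y =>
    mul_nonneg (ind_nonneg _) (mul_nonneg (a0 w) (mul_nonneg (qi0 w x) (qk0 w y)))
  have K30 : ∀ w x y, 0 ≤ K3 w x y := fun w x y =>
    mul_nonneg (ind_nonneg _) (mul_nonneg (a0 w) (mul_nonneg (ind_nonneg _) (m20 w x y)))
  have K40 : ∀ w x y, 0 ≤ K4 w x y := fun w x y =>
    mul_nonneg (ind_nonneg _) (mul_nonneg (a0 w) (mul_nonneg (ind_nonneg _) (m20 w x y)))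
  have Kle : ∀ w x y, K w x y ≤ K1 w x y + K2 w x y + K3 w x y + K4 w x y := by
    intro w x y
    have b1 : |m2 w x y - qi w x * qk w y| ≤ m2 w x y + qi w x * qk w y := by
      refine (abs_sub _ _).trans ?_
      rw [abs_of_nonneg (m20 w x y), abs_of_nonneg (mul_nonneg (qi0 w x) (qk0 w y))]
    have b2 := mul_le_mul_of_nonneg_left b1 (a0 w)
    by_cases hb : B w y
    · have c1 : K1 w x y = 0 := by
        simp only [hK1]
        rw [ind_not (not_not.2 hb), zero_mul]
      have c2 : K2 w x y = aw w * (qi w x * qk w y) := by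
        simp only [hK2]
        rw [ind_of hb, one_mul]
      have c3 : K3 w x y + K4 w x y = aw w * m2 w x y := by
        simp only [hK3, hK4]
        rw [ind_of hb, one_mul]
        by_cases hs : SB w
        · have d1 : ind (¬ SB w) = 0 := ind_not (not_not.2 hs)
          rw [d1, ind_of hs]
          ring
        · have d1 : ind (¬ SB w) = 1 := ind_of hs
          rw [d1, ind_not hs]
          ring
      have c4 : K w x y = aw w * |m2 w x y - qi w x * qk w y| := rfl
      linarith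
    · have c1 : K1 w x y = K w x y := by
        simp only [hK1]
        rw [ind_of hb, one_mul]
      have := K20 w x y
      have := K30 w x y
      have := K40 w x y
      linarith
  -- rows and columns
  have b1 : P.E (fun w => ∑ x ∈ vals (F i), ∑ y ∈ vals (F k), K1 w x y * (lf w x * mf w y)) ≤
      Real.sqrt (2 * tau) * Real.sqrt (P.E (fun w => ∑ x ∈ vals (F i), qi w x * lf w x ^ 2) *
        P.E (fun w => ∑ y ∈ vals (F k), qk w y * mf w y ^ 2)) := by
    refine schurE P (vals (F i)) (vals (F k)) K1 K10 (by norm_num) qi0 qk0 (fun w hw x _ => ?_) (fun w hw y _ => ?_)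
      hlf hmf
    · have h1 : P.ce (Zb i) (fun u => ∑ y ∈ vals (F k), K1 u x y) w ≤
          P.ce (Zb i) (fun u => P.pv Z (F i) u x + qi u x) w := by
        refine P.ce_mono (fun u hu' => ?_) w
        have h2 : ∑ y ∈ vals (F k), K1 u x y ≤ ∑ y ∈ vals (F k), (m2 u x y + qi u x * qk u y) := by
          refine Finset.sum_le_sum fun y _ => ?_
          have c1 : |m2 u x y - qi u x * qk u y| ≤ m2 u x y + qi u x * qk u y := by
            refine (abs_sub _ _).trans ?_
            rw [abs_of_nonneg (m20 u x y), abs_of_nonneg (mul_nonneg (qi0 u x) (qk0 u y))]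
          have c2 : K1 u x y ≤ K u x y := mul_le_of_le_one_left (K0' u x y) (ind_le_one _)
          have c3 : K u x y ≤ |m2 u x y - qi u x * qk u y| := mul_le_of_le_one_left (abs_nonneg _) (a1 u)
          linarith
        rw [Finset.sum_add_distrib, row, ← Finset.mul_sum, qk1 u hu', mul_one] at h2
        exact h2
      rw [P.ce_add, ti, P.ce_of_fac (fqi x) hw] at h1
      linarith
    · by_cases hb : B w y
      · have h1 : P.ce (Zb k) (fun u => ∑ x ∈ vals (F i), K1 u x y) w = 0 := by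
          unfold FP.ce
          have h2 : P.E (fun u => ind (Zb k u = Zb k w) * ∑ x ∈ vals (F i), K1 u x y) = 0 := by
            refine (P.E_congr fun u _ => ?_).trans (P.E_const 0)
            by_cases hz : Zb k u = Zb k w
            · have h3 : B u y := by
                have : B u y = B w y := fB y u w hz
                rw [this]; exact hb
              have h4' : ∑ x ∈ vals (F i), K1 u x y = 0 := Finset.sum_eq_zero fun x _ => by
                simp only [hK1]
                rw [ind_not (not_not.2 h3), zero_mul]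
              rw [h4', mul_zero]
            · rw [ind_not hz, zero_mul]
          rw [h2, zero_div]
        rw [h1]
        exact mul_nonneg htau.le (qk0 w y)
      · refine le_trans (P.ce_mono (fun u _ => Finset.sum_le_sum fun x _ => ?_) w) (not_lt.1 hb)
        exact mul_le_of_le_one_left (K0' u x y) (ind_le_one _)
  have b2 : P.E (fun w => ∑ x ∈ vals (F i), ∑ y ∈ vals (F k), K2 w x y * (lf w x * mf w y)) ≤
      Real.sqrt ((b0 + κ) * 1) * Real.sqrt (P.E (fun w => ∑ x ∈ vals (F i), qi w x * lf w x ^ 2) *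
        P.E (fun w => ∑ y ∈ vals (F k), qk w y * mf w y ^ 2)) := by
    refine schurE P (vals (F i)) (vals (F k)) K2 K20 (add_nonneg b00 κ0) qi0 qk0 (fun w hw x _ => ?_)
      (fun w hw y _ => ?_) hlf hmf
    · by_cases hex : ∃ u, P.p u ≠ 0 ∧ aw u ≠ 0 ∧ Zb i u = Zb i w
      · obtain ⟨u, hu', hau, hzu⟩ := hex
        have fg : Fac (Zb k) (fun w' => ∑ y ∈ vals (F k), ind (B w' y) * qk w' y) := by
          intro a' b' hab
          refine Finset.sum_congr rfl fun y _ => ?_
          have g1 : B a' y = B b' y := fB y a' b' hab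
          have g2 : qk a' y = qk b' y := fqk y a' b' hab
          rw [g1, g2]
        have h1 := gce i k hil hik hlk (fun w' => ∑ y ∈ vals (F k), ind (B w' y) * qk w' y) fg
          (fun w' _ => Finset.sum_nonneg fun y _ => mul_nonneg (ind_nonneg _) (qk0 w' y))
          (fun w' hw' => by
            rw [← qk1 w' hw']
            exact Finset.sum_le_sum fun y _ => mul_le_of_le_one_left (qk0 w' y) (ind_le_one _))
          b0 u hu' hau (bmass0 u hu' hau)
        have h2 : P.ce (Zb i) (fun u' => ∑ y ∈ vals (F k), K2 u' x y) w ≤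
            P.ce (Zb i) (fun u' => qi u' x * ∑ y ∈ vals (F k), ind (B u' y) * qk u' y) w := by
          refine P.ce_mono (fun u' _ => ?_) w
          rw [Finset.mul_sum]
          refine Finset.sum_le_sum fun y _ => ?_
          have c1 : 0 ≤ qi u' x * (ind (B u' y) * qk u' y) :=
            mul_nonneg (qi0 u' x) (mul_nonneg (ind_nonneg _) (qk0 u' y))
          calc K2 u' x y = aw u' * (qi u' x * (ind (B u' y) * qk u' y)) := by simp only [hK2]; ring
            _ ≤ _ := mul_le_of_le_one_left c1 (a1 u')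
        rw [P.ce_mul (fqi x)] at h2
        have h3 : P.ce (Zb i) (fun u' => ∑ y ∈ vals (F k), ind (B u' y) * qk u' y) w =
            P.ce (Zb i) (fun u' => ∑ y ∈ vals (F k), ind (B u' y) * qk u' y) u := (P.ce_fac _ _ u w hzu).symm
        rw [h3] at h2
        have h6 := mul_le_mul_of_nonneg_left h1 (qi0 w x)
        linarith
      · rw [dead i w hex _ (fun u' ha => Finset.sum_eq_zero fun y _ => by simp only [hK2]; rw [ha, zero_mul, mul_zero])]
        exact mul_nonneg (add_nonneg b00 κ0) (qi0 w x)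
    · rw [one_mul]
      have h2 : P.ce (Zb k) (fun u' => ∑ x ∈ vals (F i), K2 u' x y) w ≤ P.ce (Zb k) (fun u' => qk u' y) w := by
        refine P.ce_mono (fun u' hu' => ?_) w
        have h3 : ∑ x ∈ vals (F i), K2 u' x y ≤ ∑ x ∈ vals (F i), qk u' y * qi u' x := by
          refine Finset.sum_le_sum fun x _ => ?_
          have c1 : 0 ≤ qi u' x * qk u' y := mul_nonneg (qi0 u' x) (qk0 u' y)
          have c2 : aw u' * (qi u' x * qk u' y) ≤ qi u' x * qk u' y := mul_le_of_le_one_left c1 (a1 u')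
          have c3 : K2 u' x y ≤ aw u' * (qi u' x * qk u' y) :=
            mul_le_of_le_one_left (mul_nonneg (a0 u') c1) (ind_le_one _)
          linarith
        have h4' : ∑ x ∈ vals (F i), qk u' y * qi u' x = qk u' y := by rw [← Finset.mul_sum, qi1 u' hu', mul_one]
        rw [h4'] at h3
        exact h3
      rwa [P.ce_of_fac (fqk y) hw] at h2
  have b3 : P.E (fun w => ∑ x ∈ vals (F i), ∑ y ∈ vals (F k), K3 w x y * (lf w x * mf w y)) ≤
      Real.sqrt (e * 1) * Real.sqrt (P.E (fun w => ∑ x ∈ vals (F i), qi w x * lf w x ^ 2) *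
        P.E (fun w => ∑ y ∈ vals (F k), qk w y * mf w y ^ 2)) := by
    refine schurE P (vals (F i)) (vals (F k)) K3 K30 he.le qi0 qk0 (fun w hw x hx => ?_) (fun w hw y _ => ?_) hlf hmf
    · by_cases hs : SB w
      · have h1 : P.ce (Zb i) (fun u => ∑ y ∈ vals (F k), K3 u x y) w = 0 := by
          unfold FP.ce
          have h2 : P.E (fun u => ind (Zb i u = Zb i w) * ∑ y ∈ vals (F k), K3 u x y) = 0 := by
            refine (P.E_congr fun u _ => ?_).trans (P.E_const 0)
            by_cases hz : Zb i u = Zb i w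
            · have h3 : SB u := by
                have : SB u = SB w := fS u w hz
                rw [this]; exact hs
              have h4' : ∑ y ∈ vals (F k), K3 u x y = 0 := Finset.sum_eq_zero fun y _ => by
                simp only [hK3]
                rw [ind_not (not_not.2 h3), zero_mul]
              rw [h4', mul_zero]
            · rw [ind_not hz, zero_mul]
          rw [h2, zero_div]
        rw [h1]
        exact mul_nonneg he.le (qi0 w x)
      · have h1 : P.ce (Zb i) (fun u => ∑ y ∈ vals (F k), ind (B u y) * m2 u x y) w ≤ e * qi w x := by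
          by_contra hh
          exact hs ⟨x, hx, not_le.1 hh⟩
        refine le_trans (P.ce_mono (fun u _ => Finset.sum_le_sum fun y _ => ?_) w) h1
        have c1 : 0 ≤ ind (B u y) * m2 u x y := mul_nonneg (ind_nonneg _) (m20 u x y)
        have c2 : aw u * (ind (B u y) * m2 u x y) ≤ ind (B u y) * m2 u x y := mul_le_of_le_one_left c1 (a1 u)
        have c3 : K3 u x y ≤ aw u * (ind (B u y) * m2 u x y) :=
          mul_le_of_le_one_left (mul_nonneg (a0 u) c1) (ind_le_one _)
        linarith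
    · rw [one_mul]
      have h2 : P.ce (Zb k) (fun u' => ∑ x ∈ vals (F i), K3 u' x y) w ≤ P.ce (Zb k) (fun u' => P.pv Z (F k) u' y) w := by
        refine P.ce_mono (fun u' hu' => ?_) w
        rw [← col]
        refine Finset.sum_le_sum fun x _ => ?_
        have c1 : 0 ≤ ind (B u' y) * m2 u' x y := mul_nonneg (ind_nonneg _) (m20 u' x y)
        have c2 : aw u' * (ind (B u' y) * m2 u' x y) ≤ ind (B u' y) * m2 u' x y := mul_le_of_le_one_left c1 (a1 u')
        have c3 : K3 u' x y ≤ aw u' * (ind (B u' y) * m2 u' x y) :=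
          mul_le_of_le_one_left (mul_nonneg (a0 u') c1) (ind_le_one _)
        have c4 : ind (B u' y) * m2 u' x y ≤ m2 u' x y := mul_le_of_le_one_left (m20 u' x y) (ind_le_one _)
        linarith
      rwa [tk] at h2
  have b4 : P.E (fun w => ∑ x ∈ vals (F i), ∑ y ∈ vals (F k), K4 w x y * (lf w x * mf w y)) ≤
      Real.sqrt (1 * (8 / (al * e) * tin + κ + d1T N1 al X1 del a)) *
        Real.sqrt (P.E (fun w => ∑ x ∈ vals (F i), qi w x * lf w x ^ 2) *
        P.E (fun w => ∑ y ∈ vals (F k), qk w y * mf w y ^ 2)) := by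
    refine schurE P (vals (F i)) (vals (F k)) K4 K40 zero_le_one qi0 qk0 (fun w hw x _ => ?_) (fun w hw y _ => ?_)
      hlf hmf
    · rw [one_mul]
      have h2 : P.ce (Zb i) (fun u' => ∑ y ∈ vals (F k), K4 u' x y) w ≤ P.ce (Zb i) (fun u' => P.pv Z (F i) u' x) w := by
        refine P.ce_mono (fun u' hu' => ?_) w
        rw [← row]
        refine Finset.sum_le_sum fun y _ => ?_
        have c1 : 0 ≤ ind (B u' y) * m2 u' x y := mul_nonneg (ind_nonneg _) (m20 u' x y)
        have c2 : aw u' * (ind (B u' y) * m2 u' x y) ≤ ind (B u' y) * m2 u' x y := mul_le_of_le_one_left c1 (a1 u')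
        have c3 : K4 u' x y ≤ aw u' * (ind (B u' y) * m2 u' x y) :=
          mul_le_of_le_one_left (mul_nonneg (a0 u') c1) (ind_le_one _)
        have c4 : ind (B u' y) * m2 u' x y ≤ m2 u' x y := mul_le_of_le_one_left (m20 u' x y) (ind_le_one _)
        linarith
      rwa [ti] at h2
    · -- the column
      have hrow : P.ce (Zb k) (fun u => aw u * |P.pv Z (F k) u y - P.pv (Zb k) (F k) u y|) w ≤
          d1T N1 al X1 del a * P.pv (Zb k) (F k) w y := by
        obtain ⟨j, hj⟩ := Nat.exists_eq_add_of_le h5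
        subst hj
        refine row_al H R hN h0 hS1 hN0 (fun j' => (hN1 j').ge) hN1p hS hu hNl ht (by omega) hdel0 hdel1 PN.hda a1
          (fun u hu' hau => ?_) k w y
        obtain ⟨c1, c2, c3, c4⟩ := hal u hu' hau
        refine ⟨c1, fun hj1 => ?_⟩
        subst hj1
        have e1 : NPq (φ := φ) D v (5 * t) = NP D v (t + 1) t := by
          unfold NPq
          rw [nc5_emp, nn_0]
        have e2 : NPq (φ := φ) D v (5 * t + 1) = NP D v (t + 1) (t + 1) := by
          unfold NPq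
          rw [nc_1 t pth_emp, nn_1]
        rw [e1, e2] at c3
        exact c3
      have h2 : P.ce (Zb k) (fun u' => ∑ x ∈ vals (F i), K4 u' x y) w ≤
          P.ce (Zb k) (fun u' => qk u' y * (ind (SB u') * aw u') + aw u' * |P.pv Z (F k) u' y - P.pv (Zb k) (F k) u' y|)
            w := by
        refine P.ce_mono (fun u' hu' => ?_) w
        have c0 : 0 ≤ ind (SB u') * aw u' := mul_nonneg (ind_nonneg _) (a0 u')
        have c1 : ∑ x ∈ vals (F i), K4 u' x y ≤ (ind (SB u') * aw u') * P.pv Z (F k) u' y := by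
          rw [← col, Finset.mul_sum]
          refine Finset.sum_le_sum fun x _ => ?_
          have c4 : ind (B u' y) * m2 u' x y ≤ m2 u' x y := mul_le_of_le_one_left (m20 u' x y) (ind_le_one _)
          calc K4 u' x y = (ind (SB u') * aw u') * (ind (B u' y) * m2 u' x y) := by simp only [hK4]; ring
            _ ≤ _ := mul_le_mul_of_nonneg_left c4 c0
        have c2 : P.pv Z (F k) u' y ≤ qk u' y + |P.pv Z (F k) u' y - P.pv (Zb k) (F k) u' y| := by
          have := le_abs_self (P.pv Z (F k) u' y - P.pv (Zb k) (F k) u' y)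
          have e1 : qk u' y = P.pv (Zb k) (F k) u' y := rfl
          linarith
        have c3 := mul_le_mul_of_nonneg_left c2 c0
        have c5 : (ind (SB u') * aw u') * |P.pv Z (F k) u' y - P.pv (Zb k) (F k) u' y| ≤
            aw u' * |P.pv Z (F k) u' y - P.pv (Zb k) (F k) u' y| :=
          mul_le_mul_of_nonneg_right (mul_le_of_le_one_left (a0 u') (ind_le_one _)) (abs_nonneg _)
        rw [mul_add] at c3
        linarith
      rw [P.ce_add, P.ce_mul (fqk y)] at h2
      have h3 : P.ce (Zb k) (fun u' => ind (SB u') * aw u') w ≤ 8 / (al * e) * tin + κ := by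
        by_cases hex : ∃ u, P.p u ≠ 0 ∧ aw u ≠ 0 ∧ Zb k u = Zb k w
        · obtain ⟨u, hu', hau, hzu⟩ := hex
          have h4' := gce k i hlk.symm hik.symm hil.symm (fun w' => ind (SB w')) (fS.comp fun p => ind p)
            (fun _ _ => ind_nonneg _) (fun _ _ => ind_le_one _) (8 / (al * e) * tin) u hu' hau (smass u hu' hau)
          have h5' : P.ce (Zb k) (fun u' => ind (SB u') * aw u') w ≤ P.ce (Zb k) (fun u' => ind (SB u')) w :=
            P.ce_mono (fun u' _ => mul_le_of_le_one_right (ind_nonneg _) (a1 u')) w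
          have h6 : P.ce (Zb k) (fun u' => ind (SB u')) u = P.ce (Zb k) (fun u' => ind (SB u')) w := P.ce_fac _ _ u w hzu
          rw [← h6] at h5'
          exact h5'.trans h4'
        · rw [dead k w hex _ (fun u' ha => by rw [ha, mul_zero])]
          positivity
      have h7 := mul_le_mul_of_nonneg_left h3 (qk0 w y)
      have h8 : P.pv (Zb k) (F k) w y = qk w y := rfl
      rw [h8] at hrow
      calc _ ≤ qk w y * P.ce (Zb k) (fun u' => ind (SB u') * aw u') w +
            P.ce (Zb k) (fun u => aw u * |P.pv Z (F k) u y - P.pv (Zb k) (F k) u y|) w := h2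
        _ ≤ qk w y * (8 / (al * e) * tin + κ) + d1T N1 al X1 del a * qk w y := add_le_add h7 hrow
        _ = _ := by ring
  -- the sum
  set RR := Real.sqrt (P.E (fun w => ∑ x ∈ vals (F i), qi w x * lf w x ^ 2) *
        P.E (fun w => ∑ y ∈ vals (F k), qk w y * mf w y ^ 2)) with hRR
  have tot : P.E (fun w => ∑ x ∈ vals (F i), ∑ y ∈ vals (F k), K w x y * (lf w x * mf w y)) ≤
      P.E (fun w => ∑ x ∈ vals (F i), ∑ y ∈ vals (F k), K1 w x y * (lf w x * mf w y)) +
      P.E (fun w => ∑ x ∈ vals (F i), ∑ y ∈ vals (F k), K2 w x y * (lf w x * mf w y)) +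
      P.E (fun w => ∑ x ∈ vals (F i), ∑ y ∈ vals (F k), K3 w x y * (lf w x * mf w y)) +
      P.E (fun w => ∑ x ∈ vals (F i), ∑ y ∈ vals (F k), K4 w x y * (lf w x * mf w y)) := by
    rw [← FP.E_add, ← FP.E_add, ← FP.E_add]
    refine P.E_mono fun w _ => ?_
    rw [← Finset.sum_add_distrib, ← Finset.sum_add_distrib, ← Finset.sum_add_distrib]
    refine Finset.sum_le_sum fun x _ => ?_
    rw [← Finset.sum_add_distrib, ← Finset.sum_add_distrib, ← Finset.sum_add_distrib]
    refine Finset.sum_le_sum fun y _ => ?_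
    have := mul_le_mul_of_nonneg_right (Kle w x y) (mul_nonneg (l0 w x) (m0 w y))
    linarith
  have hfin := mul_le_mul_of_nonneg_right PN.fin (Real.sqrt_nonneg (P.E (fun w => ∑ x ∈ vals (F i), qi w x * lf w x ^ 2) *
        P.E (fun w => ∑ y ∈ vals (F k), qk w y * mf w y ^ 2)))
  rw [mul_one] at b2 b3
  rw [one_mul] at b4
  calc _ ≤ P.E (fun w => ∑ x ∈ vals (F i), ∑ y ∈ vals (F k), K w x y * (lf w x * mf w y)) := le_rfl
    _ ≤ (Real.sqrt (2 * tau) + Real.sqrt (b0 + κ) + Real.sqrt e +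
        Real.sqrt (8 / (al * e) * tin + κ + d1T N1 al X1 del a)) * RR := by linarith
    _ ≤ eps * RR := hfin

end run

end

end Pool.Agent.GMH.TP
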