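import Pool.Agent.GMH.TriS
import Pool.Agent.GMH.TriE
import Pool.Agent.GMH.TopAl
import Pool.Agent.GMH.BitDev

/-!
# GMH.TriB: one bit of one vertex at a step of the run (helper80; H3.REL R.5, R.8)
-/

set_option autoImplicit false
set_option linter.unusedSectionVars false

namespace Pool.Agent.GMH.TP

open Finset Pool.Agent.PWZ Pool.Agent.M3 Pool.Agent.GM Pool.Agent.GM.Harm Pool.Agent.GMH Pool.Agent.GMH.NZ
open Pool.Agent.GMH.V3

noncomputable section

namespace TriB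

/-- **few values of small surprise** -/
theorem few {Om κ ι : Type*} [Fintype Om] (P : FP Om) (X : Om → κ) (Z : Om → ι) (z : ι) (a : ℝ) :
    ∃ s : Finset κ, (s.card : ℝ) ≤ Real.exp a ∧ ∀ w, P.p w ≠ 0 → Z w = z → sp P X Z w ≤ a → X w ∈ s := by
  classical
  set B : Finset Om := univ.filter fun w => P.p w ≠ 0 ∧ Z w = z ∧ sp P X Z w ≤ a with hB
  set s := B.image X with hs
  refine ⟨s, ?_, fun w h1 h2 h3 => Finset.mem_image_of_mem _ (Finset.mem_filter.2 ⟨mem_univ w, h1, h2, h3⟩)⟩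
  rcases s.eq_empty_or_nonempty with h0 | ⟨x0, hx0⟩
  · rw [h0]
    simp only [Finset.card_empty, Nat.cast_zero]
    exact (Real.exp_pos a).le
  obtain ⟨w0, hw0, -⟩ := Finset.mem_image.1 hx0
  obtain ⟨-, p0, z0, -⟩ := Finset.mem_filter.1 hw0
  have hm : 0 < P.m Z w0 := P.m_pos Z p0
  have k1 : ∀ x ∈ s, P.m Z w0 ≤ Real.exp a * P.E (fun w => ind (Z w = z) * ind (X w = x)) := by
    intro x hx
    obtain ⟨w, hw, hxw⟩ := Finset.mem_image.1 hx
    obtain ⟨-, p1, z1, s1⟩ := Finset.mem_filter.1 hw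
    have e1 : P.m Z w = P.m Z w0 := by unfold FP.m; rw [z1, z0]
    have e2 : P.m (fun v => (X v, Z v)) w = P.E (fun v => ind (Z v = z) * ind (X v = x)) := by
      unfold FP.m
      refine P.E_congr fun v _ => ?_
      rw [← ind_and, ← z1, ← hxw]
      congr 1
      rw [Prod.mk.injEq]
      exact propext ⟨fun hh => ⟨hh.2, hh.1⟩, fun hh => ⟨hh.2, hh.1⟩⟩
    have m1 := P.m_pos (fun v => (X v, Z v)) p1
    have s2 : sp P X Z w ≤ a := s1
    unfold sp at s2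
    rw [← Real.log_div (P.m_pos Z p1).ne' m1.ne'] at s2
    have s3 := Real.exp_le_exp.2 s2
    rw [Real.exp_log (div_pos (P.m_pos Z p1) m1), div_le_iff₀ m1, e1, e2] at s3
    exact s3
  have k2 : (s.card : ℝ) * P.m Z w0 ≤ Real.exp a * P.m Z w0 := by
    have k3 : ∑ x ∈ s, P.m Z w0 ≤ ∑ x ∈ s, Real.exp a * P.E (fun w => ind (Z w = z) * ind (X w = x)) :=
      Finset.sum_le_sum k1
    rw [Finset.sum_const, nsmul_eq_mul, ← Finset.mul_sum, ← FP.E_sum] at k3
    refine k3.trans (mul_le_mul_of_nonneg_left ?_ (Real.exp_pos a).le)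
    unfold FP.m
    rw [z0]
    refine P.E_mono fun w _ => ?_
    rw [← Finset.mul_sum]
    refine mul_le_of_le_one_right (ind_nonneg _) ?_
    by_cases hx : X w ∈ s
    · rw [Finset.sum_eq_single (X w) (fun y _ hy => ind_not fun hh => hy hh.symm) (fun hh => absurd hx hh)]
      exact ind_le_one _
    · rw [Finset.sum_eq_zero fun y hy => ind_not fun hh : X w = y => hx (hh ▸ hy)]
      exact zero_le_one
  exact le_of_mul_le_mul_right k2 hm

section run

variable {X β γ φ : Type} [Fintype X] [Fintype β] [Fintype φ] [Nonempty X] [Nonempty β]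
variable {D : HD (Fin 3) X β γ φ} {al : ℝ} {h : D.Thick al} {v : ℕ → Finset (Fin 3) → X → (Fin 3 → β) → Pt (Fin 3) X β φ}
variable {t : ℕ} {b c d : Fin 3} {w0 : Pt (Fin 3) X β φ}

theorem all3 {b c d : Fin 3} (bc : b ≠ c) (bd : b ≠ d) (cd : c ≠ d) (j : Fin 3) : j = b ∨ j = c ∨ j = d := by
  revert b c d j
  decide

/-- the saturated state of the time `t` -/
theorem Bk_run {n N1 : ℝ} (hn : 1 ≤ n) (hN1 : 1 ≤ N1)
    (R : Run h (pr3 (Fin 3) n N1) (SS1 (Fin 3)) (AdmDep D) v) (bc : b ≠ c) (bd : b ≠ d) (cd : c ≠ d) (t : ℕ) :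
    Bk h (pr3 (Fin 3) n N1) (SS1 (Fin 3)) (Um v (t + 1)) t b c d where
  dep := fun I x y y' h1 h2 => (sys_UU R.codes).dep I t x y y' h1 h2
  sat := Run.dep R (fun J _ => zero_le_one.trans (pr3_one hn hN1 J)) t
  nn := fun J _ => zero_le_one.trans (pr3_one hn hN1 J)
  bc := bc
  bd := bd
  cd := cd
  all := all3 bc bd cd
  s0 := mem_SS1.2 (by decide)
  s1 := fun j => mem_SS1.2 (by revert j; decide)
  s2 := fun j => mem_SS1.2 (Finset.erase_ne_self.2 (mem_univ j))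
  n1 := fun j => zero_lt_one.trans_le (pr3_one hn hN1 _)
  n2 := fun j => zero_lt_one.trans_le (pr3_one hn hN1 _)

/-- the labels of the final state of the step -/
theorem ZQ_5 {a e : Pt (Fin 3) X β φ} : ZQ D v (5 * t + 5) a = ZQ D v (5 * t + 5) e ↔
    (∀ J, pth J → LL (Um v (t + 2)) J a = LL (Um v (t + 2)) J e) ∧ a.2.1 = e.2.1 ∧ nd D (t + 1) a = nd D (t + 1) e := by
  have hq : 5 * t + 5 = 5 * (t + 1) := by ring
  have hnc : ∀ J, pth J → nc (5 * (t + 1)) J = t + 2 := fun J hJ => by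
    have h1 := nc_add (t + 1) 0 hJ (by omega)
    rw [add_zero] at h1
    rw [h1]
    unfold ncj
    rw [if_neg (Nat.not_lt_zero _)]
  rw [hq]
  unfold ZQ
  rw [Prod.mk.injEq, nn_0]
  unfold WW
  rw [Prod.mk.injEq]
  refine and_congr_left fun _ => ⟨fun hh J hJ => ?_, fun hh => funext fun J => ?_⟩
  · have h1 : SL (φ := φ) v (5 * (t + 1)) J a = SL v (5 * (t + 1)) J e := congrFun hh ⟨J, hJ⟩
    unfold SL at h1
    rwa [hnc J hJ] at h1
  · show SL (φ := φ) v (5 * (t + 1)) J.1 a = SL v (5 * (t + 1)) J.1 e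
    unfold SL
    rw [hnc J.1 J.2]
    exact hh J.1 J.2

theorem pth_cases {b c d : Fin 3} (bc : b ≠ c) (bd : b ≠ d) (cd : c ≠ d) {J : Finset (Fin 3)} (hJ : pth J) :
    J = ∅ ∨ J = {b} ∨ J = {c} ∨ J = {d} := by
  have key : ∀ (b c d : Fin 3), b ≠ c → b ≠ d → c ≠ d → ∀ J : Finset (Fin 3), J.card ≤ 1 →
      J = ∅ ∨ J = {b} ∨ J = {c} ∨ J = {d} := by decide
  exact key b c d bc bd cd J hJ

theorem LL_thin {U : Finset (Fin 3) → X → (Fin 3 → β) → List (Pt (Fin 3) X β φ)} {J : Finset (Fin 3)} (hJ : pth J)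
    {a e : Pt (Fin 3) X β φ} : LL U J a = LL U J e ↔ U J a.1 a.2.1 = U J e.1 e.2.1 := by
  rw [LL_eq]
  refine ⟨fun hh => hh.1, fun hh => ⟨hh, fun l hl => ?_⟩⟩
  exfalso
  have h3 : (univ.erase l : Finset (Fin 3)).card = 2 := by
    rw [Finset.card_erase_of_mem (mem_univ l)]
    rfl
  have hJ' : J.card ≤ 1 := hJ
  rw [← hl] at hJ'
  omega

/-- the final thin labels as lower letters of the class -/
theorem Wb_run {n N1 : ℝ} (B : Bk h (pr3 (Fin 3) n N1) (SS1 (Fin 3)) (Um v (t + 2)) (t + 1) b c d) :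
    Wb h (Um v (t + 2)) (t + 1) b c d w0 (ZQ (φ := φ) D v (5 * t + 5)) where
  zb := by
    intro i a e hae
    obtain ⟨h1, h2, h3⟩ := ZQ_5.1 hae
    unfold Zo
    rw [Prod.mk.injEq, lo_eq, BB_eq]
    unfold nd at h3
    rw [Prod.mk.injEq] at h3
    exact ⟨fun I hI => h1 I (lt_pth card3 (ne_univ i) hI), fun j _ => congrFun h2 j, h3.1, fun j => congrFun h3.2 j⟩
  fib := by
    intro a e _ _ ha he hc hd
    refine ZQ_5.2 ⟨fun J hJ => ?_, ?_, ?_⟩
    · rw [LL_thin hJ]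
      have hc' := (pair_iff.1 (show ((a.2.1 c, Um v (t + 2) {c} a.1 a.2.1) : β × _) = (e.2.1 c, _) from hc)).2
      have hd' := (pair_iff.1 (show ((a.2.1 d, Um v (t + 2) {d} a.1 a.2.1) : β × _) = (e.2.1 d, _) from hd)).2
      have hb' : Um v (t + 2) {b} a.1 a.2.1 = Um v (t + 2) {b} e.1 e.2.1 := ha.2.2.trans he.2.2.symm
      have h0 := (pub0_C (D := D) (U := Um v (t + 2)) (t := t + 1) w0).let0 a e ha.1 he.1
      rcases pth_cases B.bc B.bd B.cd hJ with rfl | rfl | rfl | rfl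
      · exact h0
      · exact hb'
      · exact hc'
      · exact hd'
    · funext j
      rcases B.all j with rfl | rfl | rfl
      · exact ha.2.1.trans he.2.1.symm
      · exact (pair_iff.1 (show ((a.2.1 _, Um v (t + 2) {_} a.1 a.2.1) : β × _) = (e.2.1 _, _) from hc)).1
      · exact (pair_iff.1 (show ((a.2.1 _, Um v (t + 2) {_} a.1 a.2.1) : β × _) = (e.2.1 _, _) from hd)).1
    · have h0 := (pub0_C (D := D) (U := Um v (t + 2)) (t := t + 1) w0).nod a e ha.1 he.1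
      rw [BB_eq] at h0
      unfold nd
      exact Prod.ext h0.2.1 (funext h0.2.2)

/-! ### surprises -/

/-- the surprise of a letter, law of any time -/
theorem ssQ_at (q : ℕ) (i : Fin 3) (w : Pt (Fin 3) X β φ) (s : ℕ) :
    ssQ h v q i w = sp (D.P h s) (XLq v q i) (fun u => (u.2.1 i, NPq D v q u)) w :=
  sp_xy h (xy_XLq q i) (fun x y F F' => by
    show (y i, NPq D v q (x, y, F)) = (y i, NPq D v q (x, y, F'))
    rw [xy_NPq (D := D) (v := v) q x y F F']) (q / 5) s w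

theorem nc_5 {J : Finset (Fin 3)} (hJ : pth J) : nc (5 * t + 5) J = t + 2 := by
  rw [show 5 * t + 5 = 5 * (t + 1) by ring]
  have h1 := nc_add (t + 1) 0 hJ (by omega)
  rw [add_zero] at h1
  rw [h1]
  unfold ncj
  rw [if_neg (Nat.not_lt_zero _)]

theorem nn_5 : nn (5 * t + 5) = t + 1 := by
  rw [show 5 * t + 5 = 5 * (t + 1) by ring, nn_0]

theorem nc_b {q : ℕ} (hq : 5 * t + 5 ≤ q) (hq5 : q ≤ 5 * t + 5) : nc q {b} = t + 2 := by
  have h1 := nc_mono hq (J := {b}) (by unfold pth; simp)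
  have h2 := nc_mono hq5 (J := {b}) (by unfold pth; simp)
  rw [nc_5 (by unfold pth; simp)] at h2
  have hb := b.2
  rw [nc_add _ _ (by unfold pth; simp) (by omega)] at h1
  have key : ∀ b : Fin 3, rk {b} < 5 := by decide
  unfold ncj at h1
  rw [if_pos (key b)] at h1
  omega

theorem nc_0 {q : ℕ} (hq : 5 * t + 2 ≤ q) (hq5 : q ≤ 5 * t + 5) : nc q ∅ = t + 2 := by
  have h1 := nc_mono hq (J := ∅) (by unfold pth; simp)
  have h2 := nc_mono hq5 (J := ∅) (by unfold pth; simp)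
  rw [nc_5 (by unfold pth; simp)] at h2
  rw [nc_emp t (by omega) (by omega)] at h1
  omega

theorem nn_q {q : ℕ} (hq : 5 * t + 1 ≤ q) (hq5 : q ≤ 5 * t + 5) : nn q = t + 1 := by
  have h1 := nn_mono hq
  have h2 := nn_mono hq5
  rw [nn_5] at h2
  rw [nn_j t (by omega) (by omega)] at h1
  omega

/-- the surprise of a final letter -/
theorem ssQ_same {q : ℕ} (hq : 5 * t + 5 ≤ q) (hq5 : q ≤ 5 * t + 5) (w : Pt (Fin 3) X β φ) :
    ssQ h v q b w = ssQ h v (5 * t + 5) b w := by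
  rw [ssQ_at q b w (t + 1), ssQ_at (5 * t + 5) b w (t + 1)]
  have e1 : XLq (φ := φ) v q b = XLq v (5 * t + 5) b := by
    funext u
    unfold XLq
    rw [nc_b hq hq5, nc_5 (by unfold pth; simp)]
  have e2 : NPq (φ := φ) D v q = NPq D v (5 * t + 5) := by
    funext u
    unfold NPq
    rw [nc_0 (by omega) hq5, nc_5 (by unfold pth; simp), nn_q (by omega) hq5, nn_5]
  rw [e1, e2]

theorem NPq_5 {a e : Pt (Fin 3) X β φ} : NPq D v (5 * t + 5) a = NPq D v (5 * t + 5) e ↔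
    Um v (t + 2) ∅ a.1 a.2.1 = Um v (t + 2) ∅ e.1 e.2.1 ∧ nd D (t + 1) a = nd D (t + 1) e := by
  unfold NPq NP
  rw [nc_5 (by unfold pth; simp), nn_5, Prod.mk.injEq]

theorem xc_iff {a e : Pt (Fin 3) X β φ} : xc D (Um v (t + 2)) (t + 1) {b} e a ↔
    (a.2.1 b = e.2.1 b ∧ NPq D v (5 * t + 5) a = NPq D v (5 * t + 5) e) := by
  rw [NPq_5]
  unfold xc
  rw [le_eq, BB_eq]
  unfold nd
  rw [Prod.mk.injEq]
  constructor
  · rintro ⟨h1, h2, h3, h4⟩
    exact ⟨h2 b (Finset.mem_singleton_self b), (LL_eq.1 (h1 ∅ (Finset.Subset.refl _))).1, h3, funext h4⟩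
  · rintro ⟨h1, h2, h3, h4⟩
    refine ⟨fun I hI => ?_, fun j hj => by rw [Finset.mem_singleton.1 hj]; exact h1, h3, fun j => congrFun h4 j⟩
    rw [Finset.subset_empty.1 hI, LL_thin (by unfold pth; simp)]
    exact h2

theorem clsb_iff {a e : Pt (Fin 3) X β φ} : clsb (Um v (t + 2)) (pub0 D (t + 1) (Um v (t + 2)) e) b e a ↔
    (XLq v (5 * t + 5) b a = XLq v (5 * t + 5) b e ∧ a.2.1 b = e.2.1 b ∧
      NPq D v (5 * t + 5) a = NPq D v (5 * t + 5) e) := by
  unfold XLq XL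
  rw [nc_5 (by unfold pth; simp), Prod.mk.injEq]
  unfold clsb
  constructor
  · rintro ⟨h1, h2, h3⟩
    have hx : xc D (Um v (t + 2)) (t + 1) {b} e a := by
      unfold pub0 at h1
      rw [pair_iff, BB_eq] at h1
      refine ⟨h1.1, ?_⟩
      rw [BB_eq]
      exact ⟨fun j hj => by rw [Finset.mem_singleton.1 hj]; exact h2, h1.2.2⟩
    exact ⟨⟨h2, h3⟩, xc_iff.1 hx⟩
  · rintro ⟨⟨h2, h3⟩, h4⟩
    have hx := xc_iff.2 h4
    have hB := hx.2
    rw [BB_eq] at hB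
    refine ⟨?_, h2, h3⟩
    unfold pub0
    rw [pair_iff, BB_eq]
    exact ⟨hx.1, fun j hj => absurd hj (Finset.notMem_empty j), hB.2⟩

/-- **own letter** -/
theorem own_ss (hw0 : (D.P h (t + 1)).p w0 ≠ 0) :
    Real.log (1 / (QB h (Um v (t + 2)) (t + 1) b w0).Pr (clsb (Um v (t + 2)) (pub0 D (t + 1) (Um v (t + 2)) w0) b w0)) =
      ssQ h v (5 * t + 5) b w0 := by
  rw [ssQ_at (5 * t + 5) b w0 (t + 1)]
  set P := D.P h (t + 1) with hP
  set C := clsb (Um v (t + 2)) (pub0 D (t + 1) (Um v (t + 2)) w0) b w0 with hC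
  set x := xc D (Um v (t + 2)) (t + 1) {b} w0 with hx
  have x0 : 0 < P.Pr x := FP.Pr_pos_of (S := x) hw0 (xc_self _ _ _ w0)
  have c0 : 0 < P.Pr C := FP.Pr_pos_of (S := C) hw0 ⟨rfl, rfl, rfl⟩
  have e1 : P.m (fun u => (u.2.1 b, NPq D v (5 * t + 5) u)) w0 = P.Pr x := by
    refine P.E_congr fun u _ => ?_
    congr 1
    rw [Prod.mk.injEq]
    exact propext xc_iff.symm
  have e2 : P.m (fun u => (XLq v (5 * t + 5) b u, (u.2.1 b, NPq D v (5 * t + 5) u))) w0 = P.Pr C := by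
    refine P.E_congr fun u _ => ?_
    congr 1
    refine propext (Iff.trans ?_ clsb_iff.symm)
    exact pair_iff.trans (and_congr_right fun _ => pair_iff)
  have e3 : (QB h (Um v (t + 2)) (t + 1) b w0).Pr C = P.Pr C / P.Pr x := by
    show ((D.P h (t + 1)).cond x).E (fun u => ind (C u)) = _
    rw [FP.cond_E x0.ne']
    congr 1
    refine P.E_congr fun u _ => ?_
    by_cases hu : C u
    · rw [ind_of hu, ind_of (xc_iff.2 (clsb_iff.1 hu).2 : x u), one_mul]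
    · rw [ind_not hu, mul_zero]
  rw [e3, one_div_div, Real.log_div x0.ne' c0.ne']
  unfold sp
  rw [e1, e2]

/-- surprise of the event -/
theorem Lb_eq {V : Pt (Fin 3) X β φ → Prop} (I : Ib h (Um v (t + 2)) (t + 1) b w0 V) :
    Lb h (Um v (t + 2)) (t + 1) b w0 V =
      ssQ h v (5 * t + 5) b w0 + Real.log (1 / (QC h (Um v (t + 2)) (t + 1) b w0).Pr V) := by
  rw [← own_ss I.supp]
  set U := Um v (t + 2) with hU
  set C := clsb U (pub0 D (t + 1) U w0) b w0 with hC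
  have hB0 : (QB h U (t + 1) b w0).Pr C ≠ 0 := by
    have h1 : (QB h U (t + 1) b w0).p w0 ≠ 0 := (FP.cond_p_ne (xc_ne I.supp)).2 ⟨I.inx I.self, I.supp⟩
    exact (FP.Pr_pos_of (S := C) h1 (I.sub _ I.self)).ne'
  have e1 : QC h U (t + 1) b w0 = (QB h U (t + 1) b w0).cond C := by
    unfold QB QC
    have e : (fun u => xc D U (t + 1) {b} w0 u ∧ C u) = C := by
      funext u
      exact propext ⟨fun hh => hh.2, fun hh => ⟨xc_iff.2 (clsb_iff.1 hh).2, hh⟩⟩
    rw [FP.cond_cond (by rw [e]; exact I.cls_ne), e]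
  have e2 : (QB h U (t + 1) b w0).Pr V = (QB h U (t + 1) b w0).Pr C * (QC h U (t + 1) b w0).Pr V := by
    rw [e1]
    show _ = (QB h U (t + 1) b w0).Pr C * ((QB h U (t + 1) b w0).cond C).E (fun u => ind (V u))
    rw [FP.cond_E hB0, mul_div_cancel₀ _ hB0]
    refine (QB h U (t + 1) b w0).E_congr fun u _ => ?_
    by_cases hu : V u
    · rw [ind_of hu, ind_of (I.sub u hu), one_mul]
    · rw [ind_not hu, mul_zero]
  unfold Lb
  have hB1 : 0 < (QB h U (t + 1) b w0).Pr C := lt_of_le_of_ne (FP.Pr_nonneg _ _) hB0.symm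
  have hC1 : 0 < (QC h U (t + 1) b w0).Pr V := lt_of_le_of_ne (FP.Pr_nonneg _ _) I.neC.symm
  rw [e2, ← Real.log_mul (by positivity) (by positivity)]
  congr 1
  field_simp

/-! ### typical letters -/

/-- typical letters of the vertex `e` at the state `q`, public information of `w0` -/
def Ty (h : D.Thick al) (v : ℕ → Finset (Fin 3) → X → (Fin 3 → β) → Pt (Fin 3) X β φ) (X0 : ℝ) (t q : ℕ) (e : Fin 3)
    (w0 : Pt (Fin 3) X β φ) (y : β) (u : List (Pt (Fin 3) X β φ)) : Prop :=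
  ∃ w, (D.P h (t + 1)).p w ≠ 0 ∧ NPq D v q w = NPq D v q w0 ∧ w.2.1 e = y ∧ Um v (nc q {e}) {e} w.1 w.2.1 = u ∧
    ssQ h v q e w ≤ X0

theorem Ty_card (X0 : ℝ) (q : ℕ) (e : Fin 3) (w0 : Pt (Fin 3) X β φ) (y : β) :
    ∃ s : Finset (List (Pt (Fin 3) X β φ)), (s.card : ℝ) ≤ Real.exp X0 ∧ ∀ u, Ty h v X0 t q e w0 y u → u ∈ s := by
  classical
  obtain ⟨s, hs, hs2⟩ := few (D.P h (t + 1)) (XLq v q e) (fun u => (u.2.1 e, NPq D v q u)) (y, NPq D v q w0) X0
  refine ⟨s.image Prod.snd, ?_, ?_⟩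
  · refine le_trans ?_ hs
    exact_mod_cast Finset.card_image_le
  · rintro u ⟨w, h1, h2, h3, h4, h5⟩
    rw [ssQ_at q e w (t + 1)] at h5
    have h6 := hs2 w h1 (Prod.ext h3 h2) h5
    exact Finset.mem_image.2 ⟨_, h6, h4⟩

/-- typical final letters -/
def Tf (h : D.Thick al) (v : ℕ → Finset (Fin 3) → X → (Fin 3 → β) → Pt (Fin 3) X β φ) (X0 : ℝ) (t : ℕ)
    (w0 : Pt (Fin 3) X β φ) (y : β) (u : List (Pt (Fin 3) X β φ)) : Prop := ∃ e : Fin 3, Ty h v X0 t (5 * t + 5) e w0 y u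

theorem Tf_card (X0 : ℝ) (w0 : Pt (Fin 3) X β φ) (y : β) :
    ∃ s : Finset (List (Pt (Fin 3) X β φ)), (s.card : ℝ) ≤ 3 * Real.exp X0 ∧ ∀ u, Tf h v X0 t w0 y u → u ∈ s := by
  classical
  choose s h1 h2 using fun e : Fin 3 => Ty_card (h := h) (v := v) (t := t) X0 (5 * t + 5) e w0 y
  refine ⟨univ.biUnion s, ?_, ?_⟩
  · have k1 : ((univ.biUnion s).card : ℝ) ≤ ∑ e : Fin 3, ((s e).card : ℝ) := by
      exact_mod_cast Finset.card_biUnion_le
    refine k1.trans ((Finset.sum_le_sum fun e _ => h1 e).trans (le_of_eq ?_))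
    rw [Finset.sum_const, Finset.card_univ, Fintype.card_fin, nsmul_eq_mul]
    norm_num
  · rintro u ⟨e, he⟩
    exact Finset.mem_biUnion.2 ⟨e, mem_univ e, h2 e u he⟩

end run

end TriB

end

end Pool.Agent.GMH.TP
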