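import Pool.Agent.GMH.HPairC
import Pool.Agent.GMH.BitDev
import Pool.Agent.GMH.TriB

/-!
# GMH/HPairM: two tops in the mean over the class of the own letter of the common vertex (helper49, row F3 of H3.LEAN)

* `tv_coarse`, `tv_pair`, `prod_split` : abstract comparisons;
* `ib_own`, `ib_lC`, `ib_lB` : the own class with an event of the hidden point, as an event of `BitKL`;
* `mean_own` : **the mean deviation of two tops from the product**, over the own class at the state `q` : `BitDev.sw1`, `sw2`.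
-/

set_option autoImplicit false
set_option linter.unusedSectionVars false

namespace Pool.Agent.GMH.TP

open Finset Pool.Agent.PWZ Pool.Agent.M3 Pool.Agent.GM Pool.Agent.GM.Harm Pool.Agent.GMH Pool.Agent.GMH.NZ
open Pool.Agent.GMH.V3

noncomputable section

section gen

variable {Om κ κ' ι ι' : Type*} [Fintype Om] (P : FP Om)

/-- a coarser conditioning brings the law nearer to a law seen by it -/
theorem tv_coarse {Zf : Om → ι} {Zc : Om → ι'} (hfc : Fac Zf Zc) (X : Om → κ) (s : Finset κ) {p : Om → κ → ℝ}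
    (hp : ∀ x, Fac Zc (fun u => p u x)) {g : Om → ℝ} (hg : Fac Zc g) (g0 : ∀ u, 0 ≤ g u) :
    P.E (fun u => g u * ∑ x ∈ s, |p u x - P.pv Zc X u x|) ≤ P.E (fun u => g u * ∑ x ∈ s, |p u x - P.pv Zf X u x|) := by
  have h1 : ∀ u, P.p u ≠ 0 → g u * ∑ x ∈ s, |p u x - P.pv Zc X u x| ≤
      ∑ x ∈ s, g u * P.ce Zc (fun v => |p v x - P.pv Zf X v x|) u := by
    intro u hu
    rw [Finset.mul_sum]
    refine Finset.sum_le_sum fun x _ => mul_le_mul_of_nonneg_left ?_ (g0 u)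
    have e1 : p u x - P.pv Zc X u x = P.ce Zc (fun v => p v x - P.pv Zf X v x) u := by
      rw [P.ce_sub, P.ce_of_fac (hp x) hu]
      congr 1
      exact (P.ce_tower hfc (fun v => ind (X v = x)) u).symm
    rw [e1]
    exact P.abs_ce_le _ _ _
  refine (P.E_mono h1).trans (le_of_eq ?_)
  rw [FP.E_sum]
  have h2 : ∀ x ∈ s, P.E (fun u => g u * P.ce Zc (fun v => |p v x - P.pv Zf X v x|) u) =
      P.E (fun u => g u * |p u x - P.pv Zf X u x|) := fun x _ => P.E_mul_ce hg _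
  rw [Finset.sum_congr rfl h2, ← FP.E_sum]
  exact P.E_congr fun u _ => by rw [Finset.mul_sum]

/-- the law of a pair against a product with a law seen by the conditioning -/
theorem tv_pair (Z : Om → ι) (F : Om → κ) (G : Om → κ') {p : Om → κ' → ℝ} (hp : ∀ y, Fac Z (fun u => p u y))
    {g : Om → ℝ} (hg : Fac Z g) (g0 : ∀ u, 0 ≤ g u) :
    P.E (fun u => g u * ∑ x ∈ vals F, ∑ y ∈ vals G, |P.pv Z (fun w => (F w, G w)) u (x, y) - P.pv Z F u x * p u y|) ≤
      P.E (fun u => g u * ∑ y ∈ vals G, |P.pv (fun w => (F w, Z w)) G u y - p u y|) := by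
  classical
  set W : Om → κ × ι := fun w => (F w, Z w) with hW
  have hWZ : Fac W Z := Fac.snd _ _
  have h1 : ∀ u, P.p u ≠ 0 → g u * ∑ x ∈ vals F, ∑ y ∈ vals G,
      |P.pv Z (fun w => (F w, G w)) u (x, y) - P.pv Z F u x * p u y| ≤
      ∑ x ∈ vals F, ∑ y ∈ vals G, g u * P.ce Z (fun v => ind (F v = x) * |P.pv W G v y - p v y|) u := by
    intro u hu
    rw [Finset.mul_sum]
    refine Finset.sum_le_sum fun x _ => ?_
    rw [Finset.mul_sum]
    refine Finset.sum_le_sum fun y _ => mul_le_mul_of_nonneg_left ?_ (g0 u)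
    have hx : Fac W (fun v => ind (F v = x)) := by
      intro a b hab
      have h2 : F a = F b := congrArg Prod.fst hab
      show ind (F a = x) = ind (F b = x)
      rw [h2]
    have e1 : P.pv Z (fun w => (F w, G w)) u (x, y) = P.ce Z (fun v => ind (F v = x) * P.pv W G v y) u := by
      have e2 : P.pv Z (fun w => (F w, G w)) u (x, y) = P.ce Z (fun v => ind (F v = x) * ind (G v = y)) u := by
        unfold FP.pv
        refine P.ce_congr (fun v _ => ?_) u
        rw [← ind_and]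
        exact ind_cg (by rw [Prod.mk.injEq])
      rw [e2, ← P.ce_tower hWZ]
      exact P.ce_congr (fun v _ => P.ce_mul hx (fun v => ind (G v = y)) v) u
    have e3 : P.pv Z F u x * p u y = P.ce Z (fun v => ind (F v = x) * p v y) u :=
      (P.ce_mul' (hp y) (fun v => ind (F v = x)) u).symm
    rw [e1, e3, ← P.ce_sub]
    refine (P.abs_ce_le _ _ _).trans (P.ce_mono (fun v _ => ?_) u)
    rw [← mul_sub, abs_mul, abs_of_nonneg (ind_nonneg _)]
  refine (P.E_mono h1).trans (le_of_eq ?_)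
  rw [FP.E_sum]
  have h2 : ∀ x ∈ vals F, P.E (fun u => ∑ y ∈ vals G, g u * P.ce Z (fun v => ind (F v = x) * |P.pv W G v y - p v y|) u) =
      P.E (fun u => ∑ y ∈ vals G, g u * (ind (F u = x) * |P.pv W G u y - p u y|)) := by
    intro x _
    rw [FP.E_sum, FP.E_sum]
    exact Finset.sum_congr rfl fun y _ => P.E_mul_ce hg _
  rw [Finset.sum_congr rfl h2, ← FP.E_sum]
  refine P.E_congr fun u _ => ?_
  rw [Finset.sum_comm, Finset.mul_sum]
  refine Finset.sum_congr rfl fun y _ => ?_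
  rw [Finset.sum_eq_single (F u)]
  · rw [ind_of rfl, one_mul]
  · intro x _ hx
    rw [ind_not (fun hh => hx hh.symm), zero_mul, mul_zero]
  · intro hn
    exact absurd (mem_valsOf F u) hn

omit [Fintype Om] in
/-- three distances -/
theorem prod_split {s : Finset κ} {s' : Finset κ'} {m2 : κ → κ' → ℝ} {mi qi : κ → ℝ} {pk qk : κ' → ℝ}
    (hq : ∀ x, 0 ≤ qi x) (hp : ∀ y, 0 ≤ pk y) (hq1 : ∑ x ∈ s, qi x = 1) (hp1 : ∑ y ∈ s', pk y = 1) :
    ∑ x ∈ s, ∑ y ∈ s', |m2 x y - qi x * qk y| ≤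
      ∑ x ∈ s, ∑ y ∈ s', |m2 x y - mi x * pk y| + ∑ x ∈ s, |mi x - qi x| + ∑ y ∈ s', |pk y - qk y| := by
  have h1 : ∀ x y, |m2 x y - qi x * qk y| ≤ |m2 x y - mi x * pk y| + |mi x - qi x| * pk y + qi x * |pk y - qk y| := by
    intro x y
    have e1 : m2 x y - qi x * qk y = (m2 x y - mi x * pk y) + (mi x - qi x) * pk y + qi x * (pk y - qk y) := by ring
    rw [e1]
    refine (abs_add_le _ _).trans (add_le_add ((abs_add_le _ _).trans (add_le_add le_rfl ?_)) ?_)
    · rw [abs_mul, abs_of_nonneg (hp y)]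
    · rw [abs_mul, abs_of_nonneg (hq x)]
  refine (Finset.sum_le_sum fun x _ => Finset.sum_le_sum fun y _ => h1 x y).trans (le_of_eq ?_)
  have h2 : ∀ x, ∑ y ∈ s', (|m2 x y - mi x * pk y| + |mi x - qi x| * pk y + qi x * |pk y - qk y|) =
      ∑ y ∈ s', |m2 x y - mi x * pk y| + |mi x - qi x| + qi x * ∑ y ∈ s', |pk y - qk y| := by
    intro x
    rw [Finset.sum_add_distrib, Finset.sum_add_distrib, ← Finset.mul_sum, ← Finset.mul_sum, hp1, mul_one]
  rw [Finset.sum_congr rfl fun x _ => h2 x, Finset.sum_add_distrib, Finset.sum_add_distrib, ← Finset.sum_mul, hq1, one_mul]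

/-- the law inside an event which the conditioning sees -/
theorem pv_cond_ev {Y1 : Om → ι} {Y2 : Om → ι'} (X : Om → κ) {V : Om → Prop} (hV : P.Pr V ≠ 0) {u : Om}
    (hu : ∀ v, P.p v ≠ 0 → (Y1 v = Y1 u ↔ V v ∧ Y2 v = Y2 u)) (x : κ) :
    P.pv Y1 X u x = (P.cond V).pv Y2 X u x := by
  unfold FP.pv FP.ce FP.m
  rw [FP.cond_E hV, FP.cond_E hV]
  have e1 : P.E (fun v => ind (Y1 v = Y1 u) * ind (X v = x)) =
      P.E (fun v => ind (V v) * (ind (Y2 v = Y2 u) * ind (X v = x))) := by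
    refine P.E_congr fun v hv => ?_
    rw [ind_cg (hu v hv), ind_and, mul_assoc]
  have e2 : P.E (fun v => ind (Y1 v = Y1 u)) = P.E (fun v => ind (V v) * ind (Y2 v = Y2 u)) := by
    refine P.E_congr fun v hv => ?_
    rw [ind_cg (hu v hv), ind_and]
  have e3 : P.Pr (fun v => Y1 v = Y1 u) = P.E (fun v => ind (V v) * ind (Y2 v = Y2 u)) := e2
  have e4 : (P.cond V).Pr (fun v => Y2 v = Y2 u) = P.E (fun v => ind (V v) * ind (Y2 v = Y2 u)) / P.Pr V :=
    FP.cond_E hV _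
  first
    | rw [e1, e3, e4, div_div_div_cancel_right₀ hV]
    | rw [e1, e2, div_div_div_cancel_right₀ hV]

end gen

section run

variable {X β γ φ : Type} [Fintype X] [Fintype β] [Fintype φ] [Nonempty X] [Nonempty β]
variable {D : HD (Fin 3) X β γ φ} {al : ℝ} {h : D.Thick al} {N : Finset (Fin 3) → ℝ} {S : Finset (Finset (Fin 3))}
  {v : ℕ → Finset (Fin 3) → X → (Fin 3 → β) → Pt (Fin 3) X β φ} {dg : ℕ → X → ℝ} {prr : ℕ → Fin 3 → φ → φ} {T : ℕ}
  {Lam : ℝ}

variable (v) in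
/-- the codes of the time `t` -/
abbrev Ut (t : ℕ) : Finset (Fin 3) → X → (Fin 3 → β) → List (Pt (Fin 3) X β φ) := fun I x y => UU v I t x y

variable (D v) in
/-- the own class with an event of the hidden point -/
def Vo (t : ℕ) (l : Fin 3) (c : Pt (Fin 3) X β φ) (A : X → Prop) (u : Pt (Fin 3) X β φ) : Prop :=
  OwQ D v (5 * t) l c u ∧ A u.1

theorem nc5_emp (t : ℕ) : nc (5 * t) ∅ = t + 1 := by
  have h1 := nc_add t 0 (J := ∅) pth_emp (by omega)
  rw [add_zero] at h1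
  rw [h1]
  unfold ncj
  rw [if_neg (Nat.not_lt_zero _), add_zero]

theorem nc5_sing (t : ℕ) (j : Fin 3) : nc (5 * t) {j} = t + 1 := by
  have h1 := nc_add t 0 (J := {j}) (pth_sing j) (by omega)
  rw [add_zero] at h1
  rw [h1]
  unfold ncj
  rw [if_neg (Nat.not_lt_zero _), add_zero]

theorem cls_own (t : ℕ) (l : Fin 3) (c : Pt (Fin 3) X β φ) :
    clsb (Ut v t) (pub0 D t (Ut v t) c) l c = OwQ D v (5 * t) l c :=
  funext fun _ => propext (clsb_Ow (w0 := c) ⟨rfl, rfl⟩)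

theorem ib_own (hv : Codes D v) {t : ℕ} {c : Pt (Fin 3) X β φ} (hc : (D.P h t).p c ≠ 0) (l : Fin 3) {A : X → Prop}
    (hA : A c.1) : Ib h (Ut v t) t l c (Vo D v t l c A) where
  fac := by
    intro x y hxy
    unfold Ah at hxy
    rw [Prod.mk.injEq, BB_eq] at hxy
    have h1 : OwQ D v (5 * t) l c x ↔ OwQ D v (5 * t) l c y := by
      rw [OwQ_iff hv, OwQ_iff hv, NPq_iff hv, NPq_iff hv, hxy.1, hxy.2.1 l (Finset.mem_singleton_self l)]
      rw [nn_0]
      have h2 : ∀ j, cY D t c j (x.2.1 j) ↔ cY D t c j (y.2.1 j) := fun j => by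
        unfold cY
        rw [hxy.2.2.2 j]
      rw [forall_congr' h2]
    show (OwQ D v (5 * t) l c x ∧ A x.1) = (OwQ D v (5 * t) l c y ∧ A y.1)
    rw [propext h1, hxy.1]
  self := ⟨⟨rfl, rfl⟩, hA⟩
  supp := hc
  sub := fun u hu' => by rw [cls_own]; exact hu'.1

theorem Pr_Vo (hv : Codes D v) (t : ℕ) (c : Pt (Fin 3) X β φ) (l : Fin 3) (A : X → Prop) :
    (D.P h t).Pr (Vo D v t l c A) =
      Ml D v (5 * t) l c * (muC D v (t + 1) t c).E (fun x => ind (A x) * ind (Cl v (t + 1) l c x)) := by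
  obtain ⟨i, hil⟩ : ∃ i : Fin 3, i ≠ l := by
    have key : ∀ l : Fin 3, ∃ i : Fin 3, i ≠ l := by decide
    exact key l
  have h1 := own_E (h := h) hv t (5 * t) c hil (fun x _ => ind (A x))
  rw [nc5_emp, nn_0, nc5_sing] at h1
  simp only [FP.E_const] at h1
  have e1 : (muC D v (t + 1) t c).E (fun x => ind (A x) * ind (Cl v (t + 1) l c x)) =
      (muC D v (t + 1) t c).E (fun x => ind (Cl v (t + 1) l c x) * ind (A x)) :=
    FP.E_congr _ fun x _ => mul_comm _ _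
  rw [e1, ← h1]
  exact FP.E_congr _ fun u _ => ind_and _ _

theorem Pr_own (hv : Codes D v) (t : ℕ) (c : Pt (Fin 3) X β φ) (l : Fin 3) :
    (D.P h t).Pr (OwQ D v (5 * t) l c) =
      Ml D v (5 * t) l c * (muC D v (t + 1) t c).E (fun x => ind (Cl v (t + 1) l c x)) := by
  have h1 := Pr_Vo (h := h) hv t c l (fun _ => True)
  have e1 : (D.P h t).Pr (Vo D v t l c fun _ => True) = (D.P h t).Pr (OwQ D v (5 * t) l c) :=
    FP.E_congr _ fun u _ => ind_cg ⟨fun hh => hh.1, fun hh => ⟨hh, trivial⟩⟩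
  rw [← e1, h1]
  congr 1
  exact FP.E_congr _ fun x _ => by rw [ind_of trivial, one_mul]

/-- the surprise inside the own class -/
theorem ib_lC (hv : Codes D v) {t : ℕ} {c : Pt (Fin 3) X β φ} (l : Fin 3) {A : X → Prop} {L : ℝ}
    (hm : 0 < (muC D v (t + 1) t c).E (fun x => ind (A x) * ind (Cl v (t + 1) l c x)))
    (hL : Real.exp (-L) * (muC D v (t + 1) t c).E (fun x => ind (Cl v (t + 1) l c x)) ≤
      (muC D v (t + 1) t c).E (fun x => ind (A x) * ind (Cl v (t + 1) l c x))) :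
    Real.log (1 / (QC h (Ut v t) t l c).Pr (Vo D v t l c A)) ≤ L := by
  set m := (muC D v (t + 1) t c).E (fun x => ind (A x) * ind (Cl v (t + 1) l c x)) with hmd
  set mC := (muC D v (t + 1) t c).E (fun x => ind (Cl v (t + 1) l c x)) with hmC
  have hMp := Ml_pos (D := D) (v := v) (5 * t) l c
  have mCm : m ≤ mC := FP.E_mono _ fun x _ => by
    have := mul_le_mul_of_nonneg_right (ind_le_one (A x)) (ind_nonneg (Cl v (t + 1) l c x))
    rwa [one_mul] at this
  have hmC0 : 0 < mC := hm.trans_le mCm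
  have PrC := Pr_own (h := h) hv t c l
  have PrV := Pr_Vo (h := h) hv t c l A
  have hPC : 0 < (D.P h t).Pr (OwQ D v (5 * t) l c) := by rw [PrC]; exact mul_pos hMp hmC0
  have e1 : (QC h (Ut v t) t l c).Pr (Vo D v t l c A) = m / mC := by
    unfold QC
    rw [cls_own]
    unfold FP.Pr
    rw [FP.cond_E hPC.ne', PrC]
    have e2 : (D.P h t).E (fun u => ind (OwQ D v (5 * t) l c u) * ind (Vo D v t l c A u)) =
        (D.P h t).Pr (Vo D v t l c A) := by
      unfold FP.Pr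
      refine FP.E_congr _ fun u _ => ?_
      rw [← ind_and]
      exact ind_cg ⟨fun hh => hh.2, fun hh => ⟨hh.1, hh⟩⟩
    rw [e2, PrV, mul_div_mul_left _ _ hMp.ne']
  rw [e1, one_div, Real.log_inv]
  have h1 : Real.exp (-L) ≤ m / mC := by
    rw [le_div_iff₀ hmC0]
    exact hL
  have h2 := Real.log_le_log (Real.exp_pos _) h1
  rw [Real.log_exp] at h2
  linarith

/-- the surprise from the public class and the exact point -/
theorem ib_lB (hv : Codes D v) {t : ℕ} {c : Pt (Fin 3) X β φ} (l : Fin 3) {A : X → Prop} {dp : ℝ} (hdp : 0 < dp)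
    (hm : dp ≤ (muC D v (t + 1) t c).E (fun x => ind (A x) * ind (Cl v (t + 1) l c x))) :
    Lb h (Ut v t) t l c (Vo D v t l c A) ≤ Real.log (1 / dp) := by
  set m := (muC D v (t + 1) t c).E (fun x => ind (A x) * ind (Cl v (t + 1) l c x)) with hmd
  have hMp := Ml_pos (D := D) (v := v) (5 * t) l c
  have PrV := Pr_Vo (h := h) hv t c l A
  obtain ⟨i, hil⟩ : ∃ i : Fin 3, i ≠ l := by
    have key : ∀ l : Fin 3, ∃ i : Fin 3, i ≠ l := by decide
    exact key l
  have PrB : (D.P h t).Pr (fun u => NPq D v (5 * t) u = NPq D v (5 * t) c ∧ u.2.1 l = c.2.1 l) = Ml D v (5 * t) l c := by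
    have h1 := exl_E (h := h) hv t (5 * t) c hil (fun _ _ => 1)
    simp only [FP.E_const, mul_one] at h1
    exact h1
  have hxB : xc D (Ut v t) t {l} c = fun u => NPq D v (5 * t) u = NPq D v (5 * t) c ∧ u.2.1 l = c.2.1 l := by
    funext u
    have h1 : xc D (Ut v t) t ∅ c u ↔ NPq D v (5 * t) u = NPq D v (5 * t) c := by
      have h2 : (NP D v (t + 1) t u = NP D v (t + 1) t c) = xc D (Ut v t) t ∅ c u :=
        congrFun (NP_xc (D := D) (v := v) t c) u
      rw [← h2]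
      unfold NPq
      rw [nc5_emp, nn_0]
    rw [xc_hwV]
    unfold hwV
    refine propext ?_
    rw [h1]
    simp only [Finset.mem_singleton, forall_eq]
  have e1 : (QB h (Ut v t) t l c).Pr (Vo D v t l c A) = m := by
    unfold QB
    rw [hxB]
    unfold FP.Pr
    rw [FP.cond_E (by rw [PrB]; exact hMp.ne'), PrB]
    have e2 : (D.P h t).E (fun u => ind (NPq D v (5 * t) u = NPq D v (5 * t) c ∧ u.2.1 l = c.2.1 l) *
        ind (Vo D v t l c A u)) = (D.P h t).Pr (Vo D v t l c A) := by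
      unfold FP.Pr
      refine FP.E_congr _ fun u _ => ?_
      rw [← ind_and]
      refine ind_cg ⟨fun hh => hh.2, fun hh => ⟨?_, hh⟩⟩
      have h1 := (OwQ_iff hv (5 * t) l c u).1 hh.1
      exact ⟨h1.1, h1.2.1⟩
    rw [e2, PrV, mul_div_cancel_left₀ _ hMp.ne']
  unfold Lb
  rw [e1]
  exact Real.log_le_log (one_div_pos.2 (hdp.trans_le hm)) (one_div_le_one_div_of_le hdp hm)

theorem Zo_eq (t : ℕ) (j : Fin 3) : Zo (φ := φ) D (Ut v t) t j = ZbQ D v (5 * t) j := by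
  rw [ZbQ_0]
  rfl

theorem zf_eq (t : ℕ) (j : Fin 3) : zf (Ut v t) j = XLq (φ := φ) v (5 * t) j := by
  funext u
  unfold zf XLq XL
  rw [nc5_sing]
  rfl

theorem wb_own (hv : Codes D v) {t : ℕ} {c : Pt (Fin 3) X β φ} {l i k : Fin 3} (hil : i ≠ l) (hik : i ≠ k) (hlk : l ≠ k) :
    Wb h (Ut v t) t l k i c (ZQ (φ := φ) D v (5 * t)) where
  zb := fun j => by rw [Zo_eq]; exact ZQ_Zb _ j
  fib := fun a b _ _ ha hb hk hi => by
    rw [cls_own] at ha hb
    have hX : ∀ j, XLq v (5 * t) j a = XLq v (5 * t) j b := by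
      intro j
      have key : ∀ i k l j : Fin 3, i ≠ l → i ≠ k → l ≠ k → j = i ∨ j = k ∨ j = l := by decide
      rcases key i k l j hil hik hlk with rfl | rfl | rfl
      · rw [← zf_eq]; exact hi
      · rw [← zf_eq]; exact hk
      · exact ha.2.trans hb.2.symm
    exact Z_of (Zb_of hv (ha.1.trans hb.1.symm) (fun j _ => hX j)) (hX i)

variable (h v) in
/-- typical letters of the vertex `i` in the public class of `c` -/
def TyI (t : ℕ) (c : Pt (Fin 3) X β φ) (X0 : ℝ) (i : Fin 3) (b : β) (z : List (Pt (Fin 3) X β φ)) : Prop :=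
  ∃ u : Pt (Fin 3) X β φ, (D.P h t).p u ≠ 0 ∧ u.2.1 i = b ∧ NPq D v (5 * t) u = NPq D v (5 * t) c ∧
    Ut v t {i} u.1 u.2.1 = z ∧ ssQ h v (5 * t) i u ≤ X0

theorem TyI_few (t : ℕ) (c : Pt (Fin 3) X β φ) (X0 : ℝ) (i : Fin 3) (b : β) :
    ∃ s : Finset (List (Pt (Fin 3) X β φ)), (s.card : ℝ) ≤ Real.exp X0 ∧ ∀ z, TyI h v t c X0 i b z → z ∈ s := by
  classical
  have ht : 5 * t / 5 = t := by omega
  obtain ⟨s, hs, hs2⟩ := TriB.few (D.P h t) (XLq v (5 * t) i) (fun u => (u.2.1 i, NPq D v (5 * t) u))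
    (b, NPq D v (5 * t) c) X0
  refine ⟨s.image Prod.snd, ?_, fun z hz => ?_⟩
  · exact le_trans (by exact_mod_cast Finset.card_image_le) hs
  · obtain ⟨u, h1, h2, h3, h4, h5⟩ := hz
    refine Finset.mem_image.2 ⟨XLq v (5 * t) i u, hs2 u h1 (Prod.ext h2 h3) ?_, ?_⟩
    · unfold ssQ at h5
      rw [ht] at h5
      exact h5
    · rw [← h4, ← zf_eq]
      rfl

/-- the name of a top as a function of its label -/
theorem name_map (H : D.Hyp dg prr al T Lam) (R : Run h N S (AdmDep D) v) (hS : ∀ l, univ.erase l ∈ S) (hu : univ ∉ S)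
    (hN2 : ∀ l, 0 < N (univ.erase l)) {t q : ℕ} (ht : t < T) (h5 : 5 * t ≤ q) (j : Fin 3) (w : Pt (Fin 3) X β φ) :
    ∃ e : φ → Tt X β φ, Function.Injective e ∧
      ∀ u, (D.P h t).p u ≠ 0 → ZbQ D v q j u = ZbQ D v q j w → FQ v t j u = e (Fc j u) := by
  classical
  have hj : ∀ l, (univ.erase l : Finset (Fin 3)) = univ.erase j ↔ l = j := by
    intro l
    have key : ∀ j l : Fin 3, (univ.erase l : Finset (Fin 3)) = univ.erase j ↔ l = j := by decide
    exact key j l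
  refine ⟨fun Fv => (if hh : ∃ u, (D.P h t).p u ≠ 0 ∧ ZbQ D v q j u = ZbQ D v q j w ∧ u.2.2 j = Fv then
    (FQ v t j hh.choose).1 else [], fun l => if univ.erase l = univ.erase j then some Fv else none), ?_, ?_⟩
  · intro a b hab
    have h1 := congrFun (congrArg Prod.snd hab) j
    simp only [if_true] at h1
    exact Option.some_injective _ h1
  · intro u hu' hz
    have hh : ∃ u', (D.P h t).p u' ≠ 0 ∧ ZbQ D v q j u' = ZbQ D v q j w ∧ u'.2.2 j = Fc j u := ⟨u, hu', hz, rfl⟩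
    have h2 := hh.choose_spec
    have h3 : FQ v t j u = FQ v t j hh.choose :=
      (top_name H R hS hu hN2 ht.le h5 hu' h2.1 (hz.trans h2.2.1.symm)).2 h2.2.2.symm
    refine Prod.ext ?_ ?_
    · simp only [dif_pos hh]
      exact congrArg Prod.fst h3
    · funext l
      show (if univ.erase l = univ.erase j then some (u.2.2 l) else none) =
        if univ.erase l = univ.erase j then some (Fc j u) else none
      by_cases hl : (univ.erase l : Finset (Fin 3)) = univ.erase j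
      · rw [if_pos hl, if_pos hl, (hj l).1 hl]
        rfl
      · rw [if_neg hl, if_neg hl]

/-- all thin labels of the state `q` inside the own class -/
theorem ZQ_Vo (hv : Codes D v) {t q : ℕ} (h5 : 5 * t ≤ q) (h4 : q ≤ 5 * t + 4) {l : Fin 3} {c u : Pt (Fin 3) X β φ}
    (ho : OwQ D v q l c u) (u' : Pt (Fin 3) X β φ) : ZQ D v q u' = ZQ D v q u ↔
      Vo D v t l c (cX D v (nc q ∅) (nn q) c) u' ∧ ZQ D v (5 * t) u' = ZQ D v (5 * t) u := by
  have hX : ∀ j, XLq (φ := φ) v q j = XLq v (5 * t) j := by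
    intro j
    unfold XLq
    rw [nc_old t h5 h4 j, nc5_sing]
  have h1 := (OwQ_iff hv q l c u).1 ho
  have h2 := (NPq_iff hv q c u).1 h1.1
  constructor
  · intro hz
    have h3 : ZQ D v (5 * t) u' = ZQ D v (5 * t) u := ZQ_mono h5 u' u hz
    have h6 : OwQ D v q l c u' := by
      obtain ⟨i, hil⟩ : ∃ i : Fin 3, i ≠ l := by
        have key : ∀ l : Fin 3, ∃ i : Fin 3, i ≠ l := by decide
        exact key l
      have h7 : OwQ D v q l c u' = OwQ D v q l c u := own_fac hv hil.symm c u' u (ZQ_Zb q i u' u hz)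
      rw [h7]
      exact ho
    have h8 := (OwQ_iff hv q l c u').1 h6
    have h9 := (NPq_iff hv q c u').1 h8.1
    refine ⟨⟨?_, h9.1⟩, h3⟩
    rw [OwQ_iff hv, NPq_iff hv, nc5_emp, nn_0, nc5_sing]
    refine ⟨⟨cX_mono (nc_0ge t h5) (nn_ge t h5) h9.1, fun j => qb_mono D (nn_ge t h5) (h9.2 j)⟩, h8.2.1, ?_⟩
    have h10 := h8.2.2
    rw [nc_old t h5 h4 l] at h10
    exact h10
  · rintro ⟨⟨_, hcx⟩, hW⟩
    have hXX : ∀ j, XLq v q j u' = XLq v q j u := by
      intro j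
      rw [hX j]
      exact ZQ_XLq (5 * t) j u' u hW
    have hN : NPq D v q u' = NPq D v q u := by
      rw [NPq_iff hv]
      have hp : ∀ j, u'.2.1 j = u.2.1 j := fun j => congrArg Prod.fst (hXX j)
      refine ⟨?_, fun j => ?_⟩
      · have h3 : Um v (nc q ∅) ∅ u'.1 c.2.1 = Um v (nc q ∅) ∅ c.1 c.2.1 := hcx.1
        have h4' : D.qa (nn q) u'.1 = D.qa (nn q) c.1 := hcx.2
        have h5' : Um v (nc q ∅) ∅ u.1 c.2.1 = Um v (nc q ∅) ∅ c.1 c.2.1 := h2.1.1
        have h6' : D.qa (nn q) u.1 = D.qa (nn q) c.1 := h2.1.2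
        have h7 : ∀ x', Um v (nc q ∅) ∅ x' u.2.1 = Um v (nc q ∅) ∅ x' c.2.1 := fun x' =>
          Um_codes hv (nc_le q ∅) ∅ x' (fun j hj => absurd hj (Finset.notMem_empty j)) h2.2
        unfold cX
        rw [h7, h7]
        exact ⟨h3.trans h5'.symm, h4'.trans h6'.symm⟩
      · unfold cY
        rw [hp j]
    exact Z_of (i := l) (Zb_of hv hN fun j _ => hXX j) (hXX l)

/-- the cells of the known points cost a factor `4` -/
theorem Vo_le (H : D.Hyp dg prr al T Lam) (hv : Codes D v) {t q : ℕ} (ht : t < T) (h5 : 5 * t ≤ q) (h4 : q ≤ 5 * t + 4)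
    (l : Fin 3) (c : Pt (Fin 3) X β φ) : (D.P h t).Pr (Vo D v t l c (cX D v (nc q ∅) (nn q) c)) ≤
      4 * (D.P h t).E (fun u => ind (OwQ D v q l c u)) := by
  classical
  obtain ⟨i, hil⟩ : ∃ i : Fin 3, i ≠ l := by
    have key : ∀ l : Fin 3, ∃ i : Fin 3, i ≠ l := by decide
    exact key l
  set μ := muC D v (t + 1) t c with hμ
  set μq := muC D v (nc q ∅) (nn q) c with hμq
  set cq := cX D v (nc q ∅) (nn q) c with hcq
  have htn := nn_ge t h5
  have PO : (D.P h t).E (fun u => ind (OwQ D v q l c u)) = Ml D v q l c * μq.E (fun x => ind (Cl v (t + 1) l c x)) := by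
    have h1 := own_E (h := h) hv t q c hil (fun _ _ => 1)
    rw [nc_old t h5 h4 l] at h1
    simp only [FP.E_const, mul_one] at h1
    exact h1
  rw [Pr_Vo hv, PO, muQ_E (nc_0ge t h5) htn c (fun x => ind (Cl v (t + 1) l c x))]
  have hA' : (FP.unif X).Pr (cX D v (t + 1) t c) ≠ 0 := unif_ne (cX_self (t + 1) t c)
  have e3 : (FP.unif X).Pr (cX D v (t + 1) t c) * μ.Pr cq = (FP.unif X).Pr cq := by
    rw [hμ]
    unfold muC
    show (FP.unif X).Pr (cX D v (t + 1) t c) * ((FP.unif X).cond (cX D v (t + 1) t c)).E (fun x => ind (cq x)) = _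
    rw [FP.Pr_mul_cond_E hA']
    unfold FP.Pr
    refine FP.E_congr _ fun x _ => ?_
    by_cases hx : cq x
    · rw [ind_of hx, ind_of (cX_mono (nc_0ge t h5) htn hx), one_mul]
    · rw [ind_not hx, mul_zero]
  have hr : ∀ (n : ℕ) (j : Fin 3), 0 < (FP.unif β).Pr (cY D n c j) := fun n j =>
    lt_of_le_of_ne (FP.Pr_nonneg _ _) (Ne.symm (unif_ne (cY_self n c j)))
  have hu : ∀ n, (FP.unif β).Pr (cY D n c l) * mC D n c l (c.2.1 l) = (FP.unif β).Pr (fun b => b = c.2.1 l) := by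
    intro n
    unfold mC nuC
    rw [FP.Pr_mul_cond_E (unif_ne (cY_self n c l))]
    unfold FP.Pr
    refine FP.E_congr _ fun b _ => ?_
    by_cases hb : b = c.2.1 l
    · subst hb; rw [ind_of (cY_self n c l), one_mul]
    · have h3 : ind (b = c.2.1 l) = 0 := ind_not hb
      rw [h3, mul_zero]
  have h2 : ∀ j, (FP.unif β).Pr (cY D t c j) ≤ 2 * (FP.unif β).Pr (cY D (nn q) c j) := by
    intro j
    rcases nn_le1 t h5 h4 with h1 | h1
    · rw [h1]
      have := hr t j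
      linarith
    · rw [h1]
      exact cY_half H ht c j
  have h3 : ∏ j ∈ univ.erase l, (FP.unif β).Pr (cY D t c j) ≤
      4 * ∏ j ∈ univ.erase l, (FP.unif β).Pr (cY D (nn q) c j) := by
    refine (Finset.prod_le_prod (fun j _ => (hr t j).le) fun j _ => h2 j).trans (le_of_eq ?_)
    rw [Finset.prod_mul_distrib, Finset.prod_const, Finset.card_erase_of_mem (mem_univ l), Finset.card_univ,
      Fintype.card_fin]
    norm_num
  have e5 : ∀ n, (∏ j, (FP.unif β).Pr (cY D n c j)) * mC D n c l (c.2.1 l) =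
      (FP.unif β).Pr (fun b => b = c.2.1 l) * ∏ j ∈ univ.erase l, (FP.unif β).Pr (cY D n c j) := by
    intro n
    rw [← Finset.mul_prod_erase univ _ (mem_univ l), ← hu n]
    ring
  have h6 : Ml D v (5 * t) l c * μ.Pr cq ≤ 4 * Ml D v q l c := by
    unfold Ml
    rw [nc5_emp, nn_0]
    have e6 : (FP.unif X).Pr (cX D v (t + 1) t c) * ∏ j, (FP.unif β).Pr (cY D t c j) = (∏ j, (FP.unif β).Pr (cY D t c j)) *
      (FP.unif X).Pr (cX D v (t + 1) t c) := mul_comm _ _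
    have e7 : (FP.unif X).Pr (cX D v (t + 1) t c) * (∏ j, (FP.unif β).Pr (cY D t c j)) * mC D t c l (c.2.1 l) *
        μ.Pr cq = (FP.unif X).Pr cq * ((∏ j, (FP.unif β).Pr (cY D t c j)) * mC D t c l (c.2.1 l)) := by
      rw [← e3]; ring
    have e8 : 4 * ((FP.unif X).Pr cq * (∏ j, (FP.unif β).Pr (cY D (nn q) c j)) * mC D (nn q) c l (c.2.1 l)) =
        (FP.unif X).Pr cq * (4 * ((∏ j, (FP.unif β).Pr (cY D (nn q) c j)) * mC D (nn q) c l (c.2.1 l))) := by ring
    rw [e7, e8, e5 t, e5 (nn q)]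
    refine mul_le_mul_of_nonneg_left ?_ (FP.Pr_nonneg _ _)
    have h7 := mul_le_mul_of_nonneg_left h3 (FP.Pr_nonneg (FP.unif β) fun b => b = c.2.1 l)
    refine h7.trans (le_of_eq ?_)
    ring
  have h8 : 0 ≤ μq.E (fun x => ind (Cl v (t + 1) l c x)) := FP.E_nonneg _ fun _ _ => ind_nonneg _
  have h9 := mul_le_mul_of_nonneg_right h6 h8
  calc _ = Ml D v (5 * t) l c * μ.Pr cq * μq.E (fun x => ind (Cl v (t + 1) l c x)) := by ring
    _ ≤ 4 * Ml D v q l c * μq.E (fun x => ind (Cl v (t + 1) l c x)) := h9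
    _ = _ := by ring

theorem XLq_5 {t q : ℕ} (h5 : 5 * t ≤ q) (h4 : q ≤ 5 * t + 4) (j : Fin 3) :
    XLq (φ := φ) v q j = XLq v (5 * t) j := by
  unfold XLq
  rw [nc_old t h5 h4 j, nc5_sing]

/-- **THE MEAN DEVIATION OF TWO TOPS FROM THE PRODUCT**, inside the own class of the common vertex -/
theorem mean_own (H : D.Hyp dg prr al T Lam) (R : Run h N S (AdmDep D) v) (hN : ∀ J ∈ S, 0 ≤ N J) (h0 : ∅ ∈ S)
    (hS1 : ∀ i : Fin 3, {i} ∈ S) (hS : ∀ l, univ.erase l ∈ S) (hu : univ ∉ S) (hN0 : N ∅ = 1) {N1 N2 : ℝ}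
    (hN1 : ∀ i : Fin 3, N {i} = N1) (hN1p : 0 < N1) (hN2 : ∀ l, N (univ.erase l) = N2) (hN2p : 0 < N2) {t q : ℕ}
    (ht : t < T) (h5 : 5 * t ≤ q) (h4 : q ≤ 5 * t + 4) {i k l : Fin 3} (hil : i ≠ l) (hik : i ≠ k) (hlk : l ≠ k)
    {c : Pt (Fin 3) X β φ} (hc : (D.P h t).p c ≠ 0) {X0 L dp R0 ep : ℝ} {kb : ℕ} (hdp : 0 < dp)
    (hm : dp ≤ (muC D v (t + 1) t c).E (fun x => ind (cX D v (nc q ∅) (nn q) c x) * ind (Cl v (t + 1) l c x)))
    (hL : Real.exp (-L) * (muC D v (t + 1) t c).E (fun x => ind (Cl v (t + 1) l c x)) ≤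
      (muC D v (t + 1) t c).E (fun x => ind (cX D v (nc q ∅) (nn q) c x) * ind (Cl v (t + 1) l c x)))
    (hkb : 0 < kb) (hep : 0 < ep) (hep2 : ep ≤ 1 / 2) (hR0 : Real.log (1 / ep) ≤ R0) (hR1 : Real.log (1 / al) ≤ R0)
    (hkR : N2 / (2 * N1) * (R0 + L / (N2 / (2 * N1))) ≤ 2 * kb)
    {aw : Pt (Fin 3) X β φ → ℝ} (a1 : ∀ u, aw u ≤ 1)
    (hty : ∀ u, (D.P h t).p u ≠ 0 → aw u ≠ 0 → ∀ j, ssQ h v (5 * t) j u ≤ X0) :
    (D.P h t).E (fun u => ind (OwQ D v q l c u) * (aw u * ∑ x ∈ vals (FQ v t i), ∑ y ∈ vals (FQ v t k),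
      |mF2 (D.P h t) (ZQ D v q) (FQ v t) i k u x y - qF (D.P h t) (ZbQ D v q) (FQ v t) i u x *
        qF (D.P h t) (ZbQ D v q) (FQ v t) k u y|)) ≤
      4 * (Real.sqrt (2 * kk2 N1 N2 al X0 R0 ep kb (Real.log (1 / dp)) L) +
        3 * Real.sqrt (2 * kk1 N1 N2 al X0 (Real.log (1 / dp)) L)) *
        (D.P h t).E (fun u => ind (OwQ D v q l c u)) := by
  classical
  have hNl : ∀ l, 0 < N (univ.erase l) := fun l => by rw [hN2]; exact hN2p
  have hNs : ∀ j : Fin 3, 0 < N {j} := fun j => by rw [hN1]; exact hN1p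
  set P := D.P h t with hP
  set Z := ZQ (φ := φ) D v q with hZ
  set Zb := ZbQ (φ := φ) D v q with hZb
  set Z5 := ZbQ (φ := φ) D v (5 * t) with hZ5
  set W := ZQ (φ := φ) D v (5 * t) with hW
  set F := FQ (φ := φ) v t with hF
  have hv := R.codes
  set cq := cX D v (nc q ∅) (nn q) c with hcq
  set O := OwQ D v q l c with hO
  set V := Vo D v t l c cq with hV
  set Lo := Real.log (1 / dp) with hLo
  have hmp := hdp.trans_le hm
  have I : Ib h (Ut v t) t l c V := ib_own hv hc l (cX_self (nc q ∅) (nn q) c)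
  have hPV : P.Pr V ≠ 0 := I.ne
  set Q := P.cond V with hQ
  have lB : Lb h (Ut v t) t l c V ≤ Lo := ib_lB hv l hdp hm
  have lC : Real.log (1 / (QC h (Ut v t) t l c).Pr V) ≤ L := ib_lC hv l hmp hL
  have hOV : ∀ u, O u → V u := fun u ho => ((ZQ_Vo hv h5 h4 ho u).1 rfl).1
  -- typical letters
  set Ai : Fin 3 → Pt (Fin 3) X β φ → ℝ := fun j u => ind (TyI h v t c X0 j (u.2.1 j) (Ut v t {j} u.1 u.2.1)) with hAi
  have A0 : ∀ j u, 0 ≤ Ai j u := fun _ _ => ind_nonneg _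
  have A1 : ∀ j u, Ai j u ≤ 1 := fun _ _ => ind_le_one _
  have fA5 : ∀ j, Fac (XLq (φ := φ) v (5 * t) j) (Ai j) := by
    intro j a b hab
    rw [← zf_eq] at hab
    have h1 := congrArg Prod.fst hab
    have h2 := congrArg Prod.snd hab
    have h3 : a.2.1 j = b.2.1 j := h1
    have h4' : Ut v t {j} a.1 a.2.1 = Ut v t {j} b.1 b.2.1 := h2
    show ind (TyI h v t c X0 j (a.2.1 j) (Ut v t {j} a.1 a.2.1)) = ind (TyI h v t c X0 j (b.2.1 j) (Ut v t {j} b.1 b.2.1))
    rw [h3, h4']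
  have hAT : ∀ j, ∀ w, V w → Ai j w ≠ 0 → TyI h v t c X0 j (w.2.1 j) (Ut v t {j} w.1 w.2.1) := by
    intro j w _ ha
    by_contra hh
    exact ha (ind_not hh)
  -- the distances at the points of the class
  have cv : ∀ (j : Fin 3) (u : Pt (Fin 3) X β φ), O u →
      ∑ x ∈ vals (F j), |P.pv (Z5 j) (F j) u x - P.pv Z (F j) u x| = tvp Q P (Fc j) W (Zo D (Ut v t) t j) u := by
    intro j u ho
    obtain ⟨e, he, hx⟩ := name_map H R hS hu hNl ht (le_refl (5 * t)) j u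
    have h1 : tvp Q P (Fc j) W (Zo D (Ut v t) t j) u = tvp Q P (F j) W (Z5 j) u := by
      rw [Zo_eq]
      exact tvp_trunc (FP.cond_ac _ V) (ZQ_Zb (5 * t) j) (fun _ _ => Iff.rfl) (fun _ _ => Iff.rfl) he
        (fun w hw hz => hx w hw hz)
    rw [h1]
    unfold tvp
    refine Finset.sum_congr rfl fun x _ => ?_
    have h2 : P.pv Z (F j) u x = Q.pv W (F j) u x := pv_cond_ev P (F j) hPV (fun w _ => ZQ_Vo hv h5 h4 ho w) x
    rw [h2, abs_sub_comm]
  have cv2 : ∀ (u : Pt (Fin 3) X β φ), P.p u ≠ 0 → O u →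
      ∑ y ∈ vals (F k), |P.pv (fun w => (F i w, Z w)) (F k) u y - P.pv (Z5 k) (F k) u y| =
        tvp Q P (Fc k) (fun w => (Fc i w, W w)) (Zo D (Ut v t) t k) u := by
    intro u hu' ho
    obtain ⟨e, he, hx⟩ := name_map H R hS hu hNl ht (le_refl (5 * t)) k u
    have h1 : tvp Q P (Fc k) (fun w => (Fc i w, W w)) (Zo D (Ut v t) t k) u =
        tvp Q P (F k) (fun w => (F i w, W w)) (Z5 k) u := by
      rw [Zo_eq]
      refine tvp_trunc (FP.cond_ac _ V) ((Fac.snd _ _).trans (ZQ_Zb (5 * t) k)) (fun _ _ => Iff.rfl) (fun w hw => ?_) he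
        (fun w hw hz => hx w hw hz)
      have hw' : P.p w ≠ 0 := FP.cond_ac _ V w hw
      refine pair_iff.trans (Iff.trans ?_ pair_iff.symm)
      constructor
      · rintro ⟨g1, g2⟩
        exact ⟨(top_name H R hS hu hNl ht.le (le_refl (5 * t)) hw' hu' (ZQ_Zb (5 * t) i w u g2)).2 g1, g2⟩
      · rintro ⟨g1, g2⟩
        exact ⟨(top_name H R hS hu hNl ht.le (le_refl (5 * t)) hw' hu' (ZQ_Zb (5 * t) i w u g2)).1 g1, g2⟩
    rw [h1]
    unfold tvp
    refine Finset.sum_congr rfl fun x _ => ?_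
    have h2 : P.pv (fun w => (F i w, Z w)) (F k) u x = Q.pv (fun w => (F i w, W w)) (F k) u x := by
      refine pv_cond_ev P (F k) hPV (fun w _ => ?_) x
      have h3 : Z w = Z u ↔ V w ∧ W w = W u := ZQ_Vo hv h5 h4 ho w
      refine pair_iff.trans (Iff.trans ?_ (and_congr_right fun _ => pair_iff).symm)
      rw [h3]
      exact ⟨fun hh => ⟨hh.2.1, hh.1, hh.2.2⟩, fun hh => ⟨hh.2.1, hh.1, hh.2.2⟩⟩
    rw [h2]
  -- from the class to the event
  have toV : ∀ (a : Pt (Fin 3) X β φ → ℝ) (f g : Pt (Fin 3) X β φ → ℝ), (∀ u, 0 ≤ a u) → (∀ u, 0 ≤ g u) →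
      (∀ u, P.p u ≠ 0 → O u → f u = g u) →
      P.E (fun u => (ind (O u) * a u) * f u) ≤ P.Pr V * Q.E (fun u => a u * g u) := by
    intro a f g ha hg hfg
    rw [FP.Pr_mul_cond_E hPV]
    refine P.E_mono fun u hu' => ?_
    by_cases ho : O u
    · rw [ind_of ho, ind_of (hOV u ho), hfg u hu' ho, one_mul, one_mul]
    · rw [ind_not ho, zero_mul, zero_mul]
      exact mul_nonneg (ind_nonneg _) (mul_nonneg (ha u) (hg u))
  have kk1e : ∀ j, Pool.Agent.GMH.kap1 N al (Real.exp X0) l j Lo L = kk1 N1 N2 al X0 Lo L := by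
    intro j
    unfold Pool.Agent.GMH.kap1 kk1
    rw [hN1, hN1, hN2, hN0]
    simp only [mul_one, one_mul]
  have kk2e : Pool.Agent.GMH.kap2 N al (Real.exp X0) R0 ep kb l k Lo L = kk2 N1 N2 al X0 R0 ep kb Lo L := by
    unfold Pool.Agent.GMH.kap2 kk2
    rw [hN1, hN1, hN2, hN0]
    simp only [mul_one, one_mul]
  set s1 := Real.sqrt (2 * kk1 N1 N2 al X0 Lo L) with hs1
  set s2 := Real.sqrt (2 * kk2 N1 N2 al X0 R0 ep kb Lo L) with hs2
  have T1 : ∀ j o : Fin 3, o ≠ l → o ≠ j → l ≠ j →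
      P.E (fun u => (ind (O u) * Ai o u) * ∑ x ∈ vals (F j), |P.pv (Z5 j) (F j) u x - P.pv Z (F j) u x|) ≤
        P.Pr V * s1 := by
    intro j o hol hoj hlj
    have B : Bk h N S (Ut v t) t l j o := bk_run R hN h0 hS1 hS hNs hNl t hlj hol.symm hoj.symm
    have key := sw1 B I (wb_own hv hol hoj hlj) (Typ := TyI h v t c X0 o) (M := Real.exp X0) (TyI_few t c X0 o) lB lC
      (a := Ai o) (A0 o) (A1 o) (hAT o)
    rw [kk1e] at key
    refine (toV (Ai o) _ _ (A0 o) (fun u => tvp_nonneg u) fun u _ ho => cv j u ho).trans ?_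
    exact mul_le_mul_of_nonneg_left key (P.Pr_nonneg V)
  have T2 : P.E (fun u => (ind (O u) * Ai i u) * ∑ y ∈ vals (F k), |P.pv (fun w => (F i w, Z w)) (F k) u y -
      P.pv (Z5 k) (F k) u y|) ≤ P.Pr V * s2 := by
    have B : Bk h N S (Ut v t) t l i k := bk_run R hN h0 hS1 hS hNs hNl t hil.symm hlk hik
    have hkR' : N (univ.erase k) / (2 * N {l}) * (R0 + L / (N (univ.erase k) / (2 * N {l}))) ≤ 2 * kb := by
      rw [hN1, hN2]; exact hkR
    have key := sw2 B I (wb_own hv hlk.symm hik.symm hil.symm) (Typ := TyI h v t c X0 i) (M := Real.exp X0)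
      (TyI_few t c X0 i) lB lC hkb hep hep2 hR0 hR1 hkR' (a := Ai i) (A0 i) (A1 i) (hAT i)
    rw [kk2e] at key
    refine (toV (Ai i) _ _ (A0 i) (fun u => tvp_nonneg u) fun u hu' ho => cv2 u hu' ho).trans ?_
    exact mul_le_mul_of_nonneg_left key (P.Pr_nonneg V)
  -- measurability
  have fO : ∀ j, l ≠ j → Fac (Zb j) O := fun j hj => own_fac hv hj c
  have fA : ∀ o j, o ≠ j → Fac (Zb j) (Ai o) := by
    intro o j hoj
    have h1 : Fac (Zb j) (XLq v q o) := XLq_fac hv hoj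
    rw [XLq_5 h5 h4 o] at h1
    exact h1.trans (fA5 o)
  have fg : ∀ o j, o ≠ j → l ≠ j → Fac (Zb j) (fun u => ind (O u) * Ai o u) := by
    intro o j hoj hlj a b hab
    have g1 : O a = O b := fO j hlj a b hab
    have g2 : Ai o a = Ai o b := fA o j hoj a b hab
    show ind (O a) * Ai o a = ind (O b) * Ai o b
    rw [g1, g2]
  have g0 : ∀ o u, 0 ≤ ind (O u) * Ai o u := fun o u => mul_nonneg (ind_nonneg _) (A0 o u)
  have f5 : ∀ j x, Fac (Zb j) (fun u => P.pv (Z5 j) (F j) u x) := by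
    intro j x a b hab
    exact P.pv_fac (Z5 j) (F j) x a b (ZbQ_mono h5 j a b hab)
  -- the three terms
  have E1 : P.E (fun u => (ind (O u) * Ai i u) * ∑ x ∈ vals (F i), ∑ y ∈ vals (F k),
      |mF2 P Z F i k u x y - P.pv Z (F i) u x * P.pv (Z5 k) (F k) u y|) ≤ P.Pr V * s2 := by
    refine le_trans ?_ T2
    exact tv_pair P Z (F i) (F k) (p := fun u y => P.pv (Z5 k) (F k) u y)
      (fun y => (ZQ_Zb q k).trans (f5 k y)) ((ZQ_Zb q k).trans (fg i k hik hlk)) (g0 i)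
  have E2 : ∀ j o : Fin 3, o ≠ l → o ≠ j → l ≠ j →
      P.E (fun u => (ind (O u) * Ai o u) * ∑ x ∈ vals (F j), |P.pv (Z5 j) (F j) u x - P.pv (Zb j) (F j) u x|) ≤
        P.Pr V * s1 := by
    intro j o hol hoj hlj
    refine le_trans ?_ (T1 j o hol hoj hlj)
    exact tv_coarse P (ZQ_Zb q j) (F j) (vals (F j)) (p := fun u x => P.pv (Z5 j) (F j) u x) (f5 j) (fg o j hoj hlj) (g0 o)
  -- pointwise
  have pw : ∀ u, P.p u ≠ 0 → ind (O u) * (aw u * ∑ x ∈ vals (F i), ∑ y ∈ vals (F k),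
      |mF2 P Z F i k u x y - qF P Zb F i u x * qF P Zb F k u y|) ≤
      (ind (O u) * Ai i u) * ∑ x ∈ vals (F i), ∑ y ∈ vals (F k),
        |mF2 P Z F i k u x y - P.pv Z (F i) u x * P.pv (Z5 k) (F k) u y| +
      ((ind (O u) * Ai k u) * ∑ x ∈ vals (F i), |P.pv (Z5 i) (F i) u x - P.pv Z (F i) u x| +
        (ind (O u) * Ai k u) * ∑ x ∈ vals (F i), |P.pv (Z5 i) (F i) u x - P.pv (Zb i) (F i) u x|) +
      (ind (O u) * Ai i u) * ∑ y ∈ vals (F k), |P.pv (Z5 k) (F k) u y - P.pv (Zb k) (F k) u y| := by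
    intro u hu'
    set S0 := ∑ x ∈ vals (F i), ∑ y ∈ vals (F k), |mF2 P Z F i k u x y - qF P Zb F i u x * qF P Zb F k u y| with hS0
    set S1 := ∑ x ∈ vals (F i), ∑ y ∈ vals (F k),
        |mF2 P Z F i k u x y - P.pv Z (F i) u x * P.pv (Z5 k) (F k) u y| with hS1'
    set S2 := ∑ x ∈ vals (F i), |P.pv (Z5 i) (F i) u x - P.pv Z (F i) u x| with hS2
    set S3 := ∑ x ∈ vals (F i), |P.pv (Z5 i) (F i) u x - P.pv (Zb i) (F i) u x| with hS3
    set S4 := ∑ y ∈ vals (F k), |P.pv (Z5 k) (F k) u y - P.pv (Zb k) (F k) u y| with hS4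
    have n0 : 0 ≤ S0 := Finset.sum_nonneg fun _ _ => Finset.sum_nonneg fun _ _ => abs_nonneg _
    have n1 : 0 ≤ S1 := Finset.sum_nonneg fun _ _ => Finset.sum_nonneg fun _ _ => abs_nonneg _
    have n2 : 0 ≤ S2 := Finset.sum_nonneg fun _ _ => abs_nonneg _
    have n3 : 0 ≤ S3 := Finset.sum_nonneg fun _ _ => abs_nonneg _
    have n4 : 0 ≤ S4 := Finset.sum_nonneg fun _ _ => abs_nonneg _
    by_cases ho : O u
    · rw [ind_of ho]
      simp only [one_mul]
      by_cases ha : aw u = 0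
      · rw [ha, zero_mul]
        have b1 := mul_nonneg (A0 i u) n1
        have b2 := mul_nonneg (A0 k u) n2
        have b3 := mul_nonneg (A0 k u) n3
        have b4 := mul_nonneg (A0 i u) n4
        linarith
      · have hA' : ∀ j, Ai j u = 1 := by
          intro j
          refine ind_of ⟨u, hu', rfl, ?_, rfl, hty u hu' ha j⟩
          exact (hOV u ho).1.1
        rw [hA' i, hA' k]
        simp only [one_mul]
        have b0 : aw u * S0 ≤ S0 := mul_le_of_le_one_left n0 (a1 u)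
        have key := prod_split (s := vals (F i)) (s' := vals (F k)) (m2 := fun x y => mF2 P Z F i k u x y)
          (mi := fun x => P.pv Z (F i) u x) (qi := fun x => qF P Zb F i u x) (pk := fun y => P.pv (Z5 k) (F k) u y)
          (qk := fun y => qF P Zb F k u y) (fun x => P.pv_nonneg _ _ _ _) (fun y => P.pv_nonneg _ _ _ _)
          (P.pv_sum (Zb i) (F i) hu') (P.pv_sum (Z5 k) (F k) hu')
        have b2 : ∑ x ∈ vals (F i), |P.pv Z (F i) u x - qF P Zb F i u x| ≤ S2 + S3 := by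
          rw [hS2, hS3, ← Finset.sum_add_distrib]
          refine Finset.sum_le_sum fun x _ => ?_
          have e1 : P.pv Z (F i) u x - qF P Zb F i u x =
              -(P.pv (Z5 i) (F i) u x - P.pv Z (F i) u x) + (P.pv (Z5 i) (F i) u x - P.pv (Zb i) (F i) u x) := by
            show P.pv Z (F i) u x - P.pv (Zb i) (F i) u x = _
            ring
          rw [e1]
          refine (abs_add_le _ _).trans (add_le_add (le_of_eq (abs_neg _)) le_rfl)
        have b3 : ∑ y ∈ vals (F k), |P.pv (Z5 k) (F k) u y - qF P Zb F k u y| = S4 := rfl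
        have b4 : S0 ≤ S1 + ∑ x ∈ vals (F i), |P.pv Z (F i) u x - qF P Zb F i u x| +
          ∑ y ∈ vals (F k), |P.pv (Z5 k) (F k) u y - qF P Zb F k u y| := key
        linarith
    · rw [ind_not ho]
      simp only [zero_mul, add_zero]
      exact le_rfl
  have tot := P.E_mono pw
  rw [FP.E_add, FP.E_add, FP.E_add] at tot
  have t2 := T1 i k hlk.symm hik.symm hil.symm
  have t3 := E2 i k hlk.symm hik.symm hil.symm
  have t4 := E2 k i hil hik hlk
  have hVle := Vo_le (h := h) H hv ht h5 h4 l c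
  have ss : 0 ≤ s2 + 3 * s1 := by positivity
  have h6 := mul_le_mul_of_nonneg_right hVle ss
  refine tot.trans ?_
  have h7 : P.Pr V * (s2 + 3 * s1) ≤ 4 * P.E (fun u => ind (O u)) * (s2 + 3 * s1) := h6
  calc _ ≤ P.Pr V * s2 + (P.Pr V * s1 + P.Pr V * s1) + P.Pr V * s1 := by linarith
    _ = P.Pr V * (s2 + 3 * s1) := by ring
    _ ≤ _ := h7
    _ = _ := by ring

end run

end

end Pool.Agent.GMH.TP
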