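import Pool.Agent.GMH.HPairC
import Pool.Agent.GMH.Fin3N

/-!
# GMH/HPairN: the numbers of `PairE` (helper53, row F3 of H3.LEAN)

`x = 2 Lam`, `n = x^c0`, `N1 = x^(A^2 (c0 + 1))`; for `c0 ≥ 10 j + 80`, masses of the cells at least `N1^(-5)` and
`L ≤ x^(c0 - 8 j - 60)` the constants of `PairE` give the loss `x^(-j)` (`pair_num`).
-/

set_option autoImplicit false
set_option linter.unusedSectionVars false

namespace Pool.Agent.GMH.TP

open Pool.Agent.GMH Pool.Agent.GMH.V3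

noncomputable section

namespace PN

variable {x : ℝ}

/-- logarithm of an inverse mass -/
theorem log_inv (hx : 4 ≤ x) {c : ℕ} {d : ℝ} (hd : x ^ (-(5 * c : ℤ)) ≤ d) :
    Real.log (1 / d) ≤ x ^ ((c : ℤ) / 2 + 4) := by
  have hx0 := Fn.pos hx
  have h00 : 0 < x ^ (-(5 * c : ℤ)) := Fn.zpos hx _
  have h1 : Real.log (1 / d) ≤ 5 * (c * x) := by
    rw [one_div, Real.log_inv]
    have h2 := Real.log_le_log h00 hd
    rw [Real.log_zpow] at h2
    have h3 : Real.log x ≤ x := by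
      have := Real.log_le_sub_one_of_pos hx0
      linarith
    have h4 : (0 : ℝ) ≤ 5 * (c : ℝ) := by positivity
    have h5 := mul_le_mul_of_nonneg_left h3 h4
    push_cast at h2
    nlinarith
  refine h1.trans ?_
  have h2 : (c : ℝ) * x ≤ x ^ ((c : ℤ) / 2 + 1 + 1) := Fn.mul2 hx hx0.le (Fn.nat hx c) (by rw [zpow_one])
  refine (Fn.mul2 hx (by positivity) (Fn.cst hx 2 (c := 5) (by norm_num)) h2).trans (Fn.zle hx ?_)
  push_cast
  omega

theorem log_inv_nn {d : ℝ} (h0 : 0 < d) (h1 : d ≤ 1) : 0 ≤ Real.log (1 / d) := by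
  apply Real.log_nonneg
  rw [le_div_iff₀ h0]
  linarith

theorem log_al {Lam al : ℝ} (h0 : 0 < al) (hal : Real.exp (-Lam) ≤ al) : Real.log (1 / al) ≤ Lam := by
  rw [one_div, Real.log_inv]
  have := Real.log_le_log (Real.exp_pos _) hal
  rw [Real.log_exp] at this
  linarith

/-- the logarithm of `exp X0 + 1` -/
theorem log_ex {X0 : ℝ} (h : 0 ≤ X0) : Real.log (Real.exp X0 + 1) ≤ X0 + 1 := by
  have h1 : Real.exp X0 + 1 ≤ Real.exp (X0 + 1) := by
    rw [Real.exp_add]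
    have h2 : 2 ≤ Real.exp 1 := by
      have := Real.add_one_le_exp (1 : ℝ)
      linarith
    have h3 : 1 ≤ Real.exp X0 := Real.one_le_exp h
    nlinarith
  have h2 := Real.log_le_log (by positivity) h1
  rwa [Real.log_exp] at h2

/-- masses `del exp (-X1)` -/
theorem log_dp {X1 del : ℝ} (h : 0 < del) : Real.log (1 / dpP X1 del) = X1 + Real.log (1 / del) := by
  unfold dpP
  rw [one_div, one_div, Real.log_inv, Real.log_inv, Real.log_mul h.ne' (Real.exp_pos _).ne', Real.log_exp]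
  ring

end PN

/-- **THE NUMBERS OF `PairE`** -/
theorem pair_num {Lam : ℝ} (hL : 2 ≤ Lam) {A c0 j : ℕ} (hA : 80 ≤ A) (hc : 10 * j + 80 ≤ c0) {al del dl L : ℝ}
    (hal : Real.exp (-Lam) ≤ al) (hal1 : al ≤ 1) (hdel : (2 * Lam) ^ (-(5 * c1F A c0 : ℤ)) ≤ del) (hdel1 : del ≤ 1)
    (hdl : (2 * Lam) ^ (-(5 * c1F A c0 : ℤ)) ≤ dl) (hdl1 : dl ≤ 1) (hL0 : 0 ≤ L)
    (hLL : L ≤ (2 * Lam) ^ ((c0 : ℤ) - 8 * j - 60)) :
    ∃ (a bb R0 ep e tau : ℝ) (kb : ℕ), PairNum (pw Lam (c1F A c0)) (pw Lam c0 * pw Lam (c1F A c0)) al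
      (apF Lam A c0).X0 (apF Lam A c0).X1 del dl L a bb R0 ep e tau kb ((2 * Lam) ^ (-(j : ℤ))) := by
  have hx : (4 : ℝ) ≤ 2 * Lam := by linarith
  have hx0 : (0 : ℝ) < 2 * Lam := by linarith
  have hal0 : 0 < al := (Real.exp_pos _).trans_le hal
  have pz : ∀ c : ℕ, pw Lam c = (2 * Lam) ^ (c : ℤ) := fun c => by unfold pw; rw [zpow_natCast]
  have P := Fn.zpos hx
  have hc1 := c1_big (c0 := c0) hA
  have hcX : (cXF A c0 : ℕ) = 3 * c0 + 3 * A := rfl
  have hX1e : (apF Lam A c0).X1 = 3 * (2 * Lam) ^ ((cXF A c0 : ℕ) : ℤ) := by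
    show 3 * pw Lam (cXF A c0) = _
    rw [pz]
  have hX0e : (apF Lam A c0).X0 = (2 * Lam) ^ ((cXF A c0 : ℕ) : ℤ) := by
    show pw Lam (cXF A c0) = _
    rw [pz]
  set X1 := (apF Lam A c0).X1 with hX1
  set X0 := (apF Lam A c0).X0 with hX0
  set c1 := c1F A c0 with hc1d
  set x : ℝ := 2 * Lam with hxd
  have hdel0 : 0 < del := (P _).trans_le hdel
  have hdl0 : 0 < dl := (P _).trans_le hdl
  have hLx : Lam ≤ x ^ (1 : ℤ) := by rw [zpow_one]; linarith
  -- N1, N2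
  set N1 : ℝ := pw Lam c1 with hN1
  have N1z : N1 = x ^ (c1 : ℤ) := pz c1
  have hN1p : 0 < N1 := by rw [N1z]; exact P _
  set n : ℝ := pw Lam c0 with hn
  have nz : n = x ^ (c0 : ℤ) := pz c0
  have hnp : 0 < n := by rw [nz]; exact P _
  have iN1 : N1⁻¹ = x ^ (-(c1 : ℤ)) := by rw [N1z, zpow_neg]
  have ine : n⁻¹ = x ^ (-(c0 : ℤ)) := by rw [nz, zpow_neg]
  have em : n * N1 / (2 * N1) = n / 2 := by field_simp
  have e1 : ∀ b : ℝ, 2 * N1 * b / (n * N1) = 2 * (b * n⁻¹) := fun b => by field_simp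
  -- the choices
  set ld := Real.log (1 / del) with hld
  set ll := Real.log (1 / dl) with hll
  have ld0 : 0 ≤ ld := PN.log_inv_nn hdel0 hdel1
  have ll0 : 0 ≤ ll := PN.log_inv_nn hdl0 hdl1
  have ldz : ld ≤ x ^ ((c1 : ℤ) / 2 + 4) := PN.log_inv hx hdel
  have llz : ll ≤ x ^ ((c1 : ℤ) / 2 + 4) := PN.log_inv hx hdl
  have lal : Real.log (1 / al) ≤ Lam := PN.log_al hal0 hal
  have lal0 : 0 ≤ Real.log (1 / al) := PN.log_inv_nn hal0 hal1
  have X1p : 0 ≤ X1 := by rw [hX1e]; have := P ((cXF A c0 : ℕ) : ℤ); linarith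
  have X0p : 0 ≤ X0 := by rw [hX0e]; exact (P _).le
  set y : ℝ := x ^ ((c0 : ℤ) + 64) with hy
  have y0 : 0 ≤ y := (P _).le
  set a : ℝ := X1 + ld + ll + Lam + y with ha
  set bb : ℝ := x ^ ((c0 : ℤ) - 4 * j - 22) with hbb
  set R0 : ℝ := x ^ ((j : ℤ) + 4) with hR0
  set ep : ℝ := Real.exp (-R0) with hep
  set kb : ℕ := ⌈n ^ 2⌉₊ with hkb
  set tau : ℝ := x ^ (-(2 * (j : ℤ)) - 5) with htau
  set e : ℝ := x ^ (2 * (-(j : ℤ) - 2)) with he
  -- sizes
  have X1z : X1 ≤ x ^ ((c1 : ℤ) / 2 + 4) := by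
    rw [hX1e]
    refine (Fn.mul2 hx (P _).le (Fn.cst hx 1 (c := 3) (by norm_num)) le_rfl).trans (Fn.zle hx ?_)
    push_cast [hcX]
    omega
  have X0z : X0 ≤ x ^ (((cXF A c0 : ℕ) : ℤ)) := by rw [hX0e]
  have Lz : Lam ≤ x ^ ((c1 : ℤ) / 2 + 4) := hLx.trans (Fn.zle hx (by omega))
  have yz : y ≤ x ^ ((c1 : ℤ) / 2 + 4) := Fn.zle hx (by omega)
  have oz : (1 : ℝ) ≤ x ^ ((c1 : ℤ) / 2 + 4) := (Fn.one hx).trans (Fn.zle hx (by omega))
  have az : a + 1 ≤ x ^ ((c1 : ℤ) / 2 + 7) := by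
    have q1 := Fn.add2 hx X1z ldz
    have q2 := Fn.add2 hx llz Lz
    have q3 := Fn.add2 hx yz oz
    have q4 := Fn.add2 hx (Fn.add2 hx q1 q2) (q3.trans (Fn.zle hx (show (c1 : ℤ) / 2 + 4 + 1 ≤ (c1 : ℤ) / 2 + 4 + 1 + 1 by
      omega)))
    have q5 : a + 1 = X1 + ld + (ll + Lam) + (y + 1) := by rw [ha]; ring
    rw [q5]
    exact q4.trans (Fn.zle hx (by omega))
  have a0 : 0 ≤ a := by rw [ha]; linarith
  have Loe : Real.log (1 / dpP X1 del) = X1 + ld := PN.log_dp hdel0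
  set Lo := Real.log (1 / dpP X1 del) with hLo
  have Loa : Lo ≤ a := by rw [Loe, ha]; linarith
  have Lo0 : 0 ≤ Lo := by rw [Loe]; linarith
  have Loz : Lo + 1 ≤ x ^ ((c1 : ℤ) / 2 + 7) := by linarith
  have lex : Real.log (Real.exp X0 + 1) ≤ X0 + 1 := PN.log_ex X0p
  have lex0 : 0 ≤ Real.log (Real.exp X0 + 1) := Real.log_nonneg (by linarith [Real.exp_pos X0])
  have W1 : Real.log ((Real.exp X0 + 1) * (1 / al)) ≤ X0 + Lam + 2 := by
    rw [Real.log_mul (by positivity) (by positivity)]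
    linarith
  have W2 : Real.log ((Real.exp X0 + 1) * (1 / al + 1)) ≤ X0 + Lam + 2 := by
    rw [Real.log_mul (by positivity) (by positivity)]
    have q1 : 1 / al + 1 ≤ Real.exp (Lam + 1) := by
      have q2 : 1 ≤ 1 / al := by rw [le_div_iff₀ hal0]; linarith
      have q3 : 1 / al ≤ Real.exp Lam := by
        rw [div_le_iff₀ hal0]
        have := mul_le_mul_of_nonneg_left hal (Real.exp_pos Lam).le
        rw [← Real.exp_add] at this
        simpa using this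
      have q4 : 2 ≤ Real.exp 1 := by
        have := Real.add_one_le_exp (1 : ℝ)
        linarith
      have q6 : Real.exp Lam * 2 ≤ Real.exp Lam * Real.exp 1 := mul_le_mul_of_nonneg_left q4 (Real.exp_pos _).le
      rw [Real.exp_add]
      linarith
    have q5 := Real.log_le_log (by positivity) q1
    rw [Real.log_exp] at q5
    linarith
  have W20 : 0 ≤ Real.log ((Real.exp X0 + 1) * (1 / al + 1)) := by
    apply Real.log_nonneg
    have q2 : 0 < 1 / al := by positivity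
    exact one_le_mul_of_one_le_of_one_le (by linarith [Real.exp_pos X0]) (by linarith)
  have Wz : X0 + Lam + 2 ≤ x ^ (((cXF A c0 : ℕ) : ℤ) + 2) := by
    have q1 : Lam + 2 ≤ x ^ ((1 : ℤ)) := by rw [zpow_one]; linarith
    have q2 := Fn.add2 hx X0z (q1.trans (Fn.zle hx (show (1 : ℤ) ≤ ((cXF A c0 : ℕ) : ℤ) by push_cast [hcX]; omega)))
    have q3 : X0 + Lam + 2 = X0 + (Lam + 2) := by ring
    rw [q3]
    exact q2.trans (Fn.zle hx (by omega))
  -- kb
  have n1 : 1 ≤ n := by rw [nz]; exact (Fn.one hx).trans (Fn.zle hx (by omega))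
  have kbl : n ^ 2 ≤ (kb : ℝ) := Nat.le_ceil _
  have kbu : (kb : ℝ) ≤ 2 * n ^ 2 := by
    have := Nat.ceil_lt_add_one (a := n ^ 2) (by positivity)
    have q1 : 1 ≤ n ^ 2 := one_le_pow₀ n1
    linarith
  have kb0 : (0 : ℝ) < kb := lt_of_lt_of_le (by positivity) kbl
  have n2z : n ^ 2 = x ^ (2 * (c0 : ℤ)) := by
    rw [nz, two_mul, zpow_add₀ hx0.ne', sq]
  -- L / m
  have L1z : L + 1 ≤ x ^ ((c0 : ℤ) - 8 * j - 59) := by
    have q1 : (1 : ℝ) ≤ x ^ ((c0 : ℤ) - 8 * j - 60) := (Fn.one hx).trans (Fn.zle hx (by omega))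
    exact (Fn.add2 hx hLL q1).trans (Fn.zle hx (by omega))
  have Lme : L / (n / 2) = 2 * (L * n⁻¹) := by field_simp
  have Lm : L / (n / 2) ≤ x ^ (-(8 * (j : ℤ)) - 59) := by
    rw [Lme, ine]
    refine (Fn.mul2 hx (mul_nonneg hL0 (P _).le) (Fn.cst hx 1 (c := 2) (by norm_num))
      (Fn.mul2 hx (P _).le hLL le_rfl)).trans (Fn.zle hx ?_)
    push_cast
    omega
  have Lm0 : 0 ≤ L / (n / 2) := by positivity
  -- kk1
  have K1 : kk1 N1 (n * N1) al X0 Lo L ≤ x ^ (-(8 * (j : ℤ)) - 56) := by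
    unfold kk1
    rw [e1]
    have q1 : 2 * ((L + 1) * n⁻¹) ≤ x ^ (-(8 * (j : ℤ)) - 58) := by
      rw [ine]
      refine (Fn.mul2 hx (mul_nonneg (by linarith) (P _).le) (Fn.cst hx 1 (c := 2) (by norm_num))
        (Fn.mul2 hx (P _).le L1z le_rfl)).trans (Fn.zle hx ?_)
      push_cast
      omega
    have q2 : 2 * (Lo + 1) + 2 * Real.log ((Real.exp X0 + 1) * (1 / al)) ≤ x ^ ((c1 : ℤ) / 2 + 9) := by
      have r1 : Lo + 1 + Real.log ((Real.exp X0 + 1) * (1 / al)) ≤ x ^ ((c1 : ℤ) / 2 + 7 + 1) := by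
        refine Fn.add2 hx Loz ((W1.trans Wz).trans (Fn.zle hx ?_))
        push_cast [hcX]
        omega
      have r0 : 0 ≤ Lo + 1 + Real.log ((Real.exp X0 + 1) * (1 / al)) := by
        rw [Real.log_mul (by positivity) (by positivity)]
        linarith
      have r2 := Fn.mul2 hx r0 (Fn.cst hx 1 (c := 2) (by norm_num)) r1
      have r3 : 2 * (Lo + 1) + 2 * Real.log ((Real.exp X0 + 1) * (1 / al)) =
        2 * (Lo + 1 + Real.log ((Real.exp X0 + 1) * (1 / al))) := by ring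
      rw [r3]
      exact r2.trans (Fn.zle hx (by push_cast; omega))
    have q3 : (2 * (Lo + 1) + 2 * Real.log ((Real.exp X0 + 1) * (1 / al))) / N1 ≤ x ^ (-(8 * (j : ℤ)) - 58) := by
      rw [div_eq_mul_inv, iN1]
      refine (Fn.mul2 hx (P _).le q2 le_rfl).trans (Fn.zle hx ?_)
      omega
    exact (Fn.add2 hx q1 q3).trans (Fn.zle hx (by omega))
  have K10 : 0 ≤ kk1 N1 (n * N1) al X0 Lo L := by
    unfold kk1
    have : 0 ≤ Real.log ((Real.exp X0 + 1) * (1 / al)) := by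
      rw [Real.log_mul (by positivity) (by positivity)]
      linarith
    positivity
  -- R0
  have R0x : x ≤ R0 := by
    have := Fn.zle hx (show (1 : ℤ) ≤ (j : ℤ) + 4 by omega)
    rwa [zpow_one] at this
  have epz : ep ≤ x ^ (-(8 * (j : ℤ)) - 60) := by
    have h2 : ((8 * j + 60 : ℕ) : ℝ) * x ≤ R0 := by
      have h3 : ((8 * j + 60 : ℕ) : ℝ) ≤ x ^ ((j : ℤ) + 3) := by
        have h4 : 8 * j + 60 ≤ 4 ^ (j + 3) := by
          have : ∀ i : ℕ, 8 * i + 60 ≤ 4 ^ (i + 3) := by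
            intro i
            induction i with
            | zero => norm_num
            | succ i ih => rw [show i + 1 + 3 = (i + 3) + 1 by ring, pow_succ]; omega
          exact this j
        have h5 := Fn.cst hx (j + 3) (c := ((8 * j + 60 : ℕ) : ℝ)) (by exact_mod_cast h4)
        refine h5.trans (Fn.zle hx (by push_cast; omega))
      have h6 := Fn.mul2 hx hx0.le h3 (show x ≤ x ^ (1 : ℤ) by rw [zpow_one])
      exact h6.trans (Fn.zle hx (by omega))
    refine (Fn.expneg hx (8 * j + 60) h2).trans (Fn.zle hx ?_)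
    push_cast
    omega
  have epp : 0 < ep := Real.exp_pos _
  have R0z : R0 + L / (n / 2) ≤ x ^ ((j : ℤ) + 5) :=
    (Fn.add2 hx (a := (j : ℤ) + 4) le_rfl (Lm.trans (Fn.zle hx (by omega)))).trans (Fn.zle hx (by omega))
  have R00 : 0 ≤ R0 + L / (n / 2) := by
    have : 0 ≤ R0 := (P _).le
    linarith
  -- kk2
  have K2 : kk2 N1 (n * N1) al X0 R0 ep kb Lo L ≤ x ^ (-(8 * (j : ℤ)) - 56) := by
    unfold kk2
    rw [em]
    have q2 : 2 * ((2 * (Lo + L + 1) + 2 * (kb * Real.log ((Real.exp X0 + 1) * (1 / al + 1)))) / N1 +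
        Real.log (1 / al) + 3) / (n / 2) ≤ x ^ (-(8 * (j : ℤ)) - 59) := by
      have r1 : kb * Real.log ((Real.exp X0 + 1) * (1 / al + 1)) ≤ x ^ ((c1 : ℤ) / 2 + 8) := by
        have s1 : (kb : ℝ) ≤ x ^ (2 * (c0 : ℤ) + 1) := by
          refine kbu.trans ((Fn.mul2 hx (by positivity) (Fn.cst hx 1 (c := 2) (by norm_num)) (le_of_eq n2z)).trans
            (Fn.zle hx ?_))
          push_cast
          omega
        refine (Fn.mul2 hx W20 s1 (W2.trans Wz)).trans (Fn.zle hx ?_)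
        push_cast [hcX]
        omega
      have r2 : Lo + L + 1 ≤ x ^ ((c1 : ℤ) / 2 + 8) := by
        have s1 := Fn.add2 hx Loz (hLL.trans (Fn.zle hx (show (c0 : ℤ) - 8 * j - 60 ≤ (c1 : ℤ) / 2 + 7 by omega)))
        have s2 : Lo + L + 1 = Lo + 1 + L := by ring
        rw [s2]
        exact s1.trans (Fn.zle hx (by omega))
      have r3 : 2 * (Lo + L + 1) + 2 * (kb * Real.log ((Real.exp X0 + 1) * (1 / al + 1))) ≤ x ^ ((c1 : ℤ) / 2 + 10) := by
        have s1 := Fn.mul2 hx (add_nonneg (by linarith) (mul_nonneg kb0.le W20)) (Fn.cst hx 1 (c := 2) (by norm_num))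
          (Fn.add2 hx r2 r1)
        have s2 : 2 * (Lo + L + 1) + 2 * (kb * Real.log ((Real.exp X0 + 1) * (1 / al + 1))) =
          2 * (Lo + L + 1 + kb * Real.log ((Real.exp X0 + 1) * (1 / al + 1))) := by ring
        rw [s2]
        exact s1.trans (Fn.zle hx (by push_cast; omega))
      have r4 : (2 * (Lo + L + 1) + 2 * (kb * Real.log ((Real.exp X0 + 1) * (1 / al + 1)))) / N1 ≤ 1 := by
        rw [div_eq_mul_inv, iN1]
        refine (Fn.mul2 hx (P _).le r3 le_rfl).trans ?_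
        rw [← zpow_zero x]
        exact Fn.zle hx (by omega)
      have r5 : (2 * (Lo + L + 1) + 2 * (kb * Real.log ((Real.exp X0 + 1) * (1 / al + 1)))) / N1 +
          Real.log (1 / al) + 3 ≤ x ^ (2 : ℤ) := by
        have s1 : x ^ (2 : ℤ) = x * x := by rw [show (2 : ℤ) = 1 + 1 by norm_num, zpow_add₀ hx0.ne', zpow_one]
        rw [s1]
        have s2 : x * 4 ≤ x * x := mul_le_mul_of_nonneg_left hx hx0.le
        linarith
      have r50 : 0 ≤ (2 * (Lo + L + 1) + 2 * (kb * Real.log ((Real.exp X0 + 1) * (1 / al + 1)))) / N1 +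
          Real.log (1 / al) + 3 := by
        have : 0 ≤ (2 * (Lo + L + 1) + 2 * (kb * Real.log ((Real.exp X0 + 1) * (1 / al + 1)))) / N1 := by positivity
        linarith
      set Q := (2 * (Lo + L + 1) + 2 * (kb * Real.log ((Real.exp X0 + 1) * (1 / al + 1)))) / N1 +
          Real.log (1 / al) + 3 with hQ
      have r6 : 2 * Q / (n / 2) = 4 * (Q * n⁻¹) := by field_simp; ring
      rw [r6, ine]
      refine (Fn.mul2 hx (mul_nonneg r50 (P _).le) (Fn.cst hx 1 (c := 4) (by norm_num))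
        (Fn.mul2 hx (P _).le r5 le_rfl)).trans (Fn.zle hx ?_)
      push_cast
      omega
    have q3 : n / 2 * (R0 + L / (n / 2)) ^ 2 / (2 * kb) ≤ x ^ (-(8 * (j : ℤ)) - 59) := by
      have r1 : (R0 + L / (n / 2)) ^ 2 ≤ x ^ (2 * (j : ℤ) + 10) := by
        rw [sq]
        exact (Fn.mul2 hx R00 R0z R0z).trans (Fn.zle hx (by omega))
      have r2 : n / 2 * (R0 + L / (n / 2)) ^ 2 / (2 * kb) ≤ n⁻¹ * (R0 + L / (n / 2)) ^ 2 := by
        rw [div_le_iff₀ (by positivity)]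
        have s1 : n / 2 ≤ n⁻¹ * (2 * kb) := by
          have s2 : n⁻¹ * (2 * n ^ 2) ≤ n⁻¹ * (2 * kb) := mul_le_mul_of_nonneg_left (by linarith) (by positivity)
          have s3 : n⁻¹ * (2 * n ^ 2) = 2 * n := by field_simp
          linarith
        have s4 := mul_le_mul_of_nonneg_right s1 (sq_nonneg (R0 + L / (n / 2)))
        linarith
      refine r2.trans ?_
      rw [ine]
      refine (Fn.mul2 hx (sq_nonneg _) le_rfl r1).trans (Fn.zle hx ?_)
      omega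
    have q4 : 2 * ep ≤ x ^ (-(8 * (j : ℤ)) - 59) := by
      refine (Fn.mul2 hx epp.le (Fn.cst hx 1 (c := 2) (by norm_num)) epz).trans (Fn.zle hx ?_)
      push_cast
      omega
    have q5 := Fn.add2 hx (Fn.add2 hx Lm q2) ((Fn.add2 hx q3 q4))
    have q6 : L / (n / 2) + 2 * ((2 * (Lo + L + 1) + 2 * (kb * Real.log ((Real.exp X0 + 1) * (1 / al + 1)))) / N1 +
        Real.log (1 / al) + 3) / (n / 2) + n / 2 * (R0 + L / (n / 2)) ^ 2 / (2 * kb) + 2 * ep =
      L / (n / 2) + 2 * ((2 * (Lo + L + 1) + 2 * (kb * Real.log ((Real.exp X0 + 1) * (1 / al + 1)))) / N1 +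
        Real.log (1 / al) + 3) / (n / 2) + (n / 2 * (R0 + L / (n / 2)) ^ 2 / (2 * kb) + 2 * ep) := by ring
    rw [q6]
    exact q5.trans (Fn.zle hx (by omega))
  have K20 : 0 ≤ kk2 N1 (n * N1) al X0 R0 ep kb Lo L := by
    unfold kk2
    rw [em]
    positivity
  -- dM
  have sK : ∀ {u : ℝ}, 0 ≤ u → u ≤ x ^ (-(8 * (j : ℤ)) - 56) → Real.sqrt (2 * u) ≤ x ^ (-(4 * (j : ℤ)) - 27) := by
    intro u hu0 hu
    refine Fn.sqrt_le hx ((Fn.mul2 hx hu0 (Fn.cst hx 1 (c := 2) (by norm_num)) hu).trans (Fn.zle hx ?_))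
    push_cast
    omega
  have dMz : dM N1 (n * N1) al X0 X1 del R0 ep kb L ≤ x ^ (-(4 * (j : ℤ)) - 25) := by
    unfold dM
    have q1 := sK K20 K2
    have q2 := sK K10 K1
    have q3 : 4 * (Real.sqrt (2 * kk2 N1 (n * N1) al X0 R0 ep kb Lo L) +
        3 * Real.sqrt (2 * kk1 N1 (n * N1) al X0 Lo L)) ≤ 16 * x ^ (-(4 * (j : ℤ)) - 27) := by linarith
    refine q3.trans ((Fn.mul2 hx (P _).le (Fn.cst hx 2 (c := 16) (by norm_num)) le_rfl).trans (Fn.zle hx ?_))
    push_cast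
    omega
  have dM0 : 0 ≤ dM N1 (n * N1) al X0 X1 del R0 ep kb L := by unfold dM; positivity
  have dMt : dM N1 (n * N1) al X0 X1 del R0 ep kb L / tau ≤ x ^ (-(2 * (j : ℤ)) - 20) := by
    have it : tau⁻¹ = x ^ (2 * (j : ℤ) + 5) := by
      rw [htau, ← zpow_neg]
      congr 1
      ring
    rw [div_eq_mul_inv, it]
    exact (Fn.mul2 hx (P _).le dMz le_rfl).trans (Fn.zle hx (by omega))
  -- the tiny masses
  have Tn : Real.exp (-y) ≤ x ^ (-(4 * (j : ℤ)) - 60) := by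
    have h2 : ((4 * j + 60 : ℕ) : ℝ) * x ≤ y := by
      refine (Fn.mul2 hx hx0.le (Fn.nat hx (4 * j + 60)) (show x ≤ x ^ (1 : ℤ) by rw [zpow_one])).trans (Fn.zle hx ?_)
      push_cast
      omega
    refine (Fn.expneg hx (4 * j + 60) h2).trans (Fn.zle hx ?_)
    push_cast
    omega
  have exl : Real.exp (-ll) = dl := by
    rw [hll, one_div, Real.log_inv, neg_neg, Real.exp_log hdl0]
  have exd : Real.exp (-ld) = del := by
    rw [hld, one_div, Real.log_inv, neg_neg, Real.exp_log hdel0]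
  have dpe : dpP X1 del = Real.exp (-(X1 + ld)) := by
    unfold dpP
    rw [show -(X1 + ld) = -ld + -X1 by ring, Real.exp_add, exd]
  have dpp : 0 < dpP X1 del := by rw [dpe]; exact Real.exp_pos _
  have tin1 : Real.exp (-a) / dpP X1 del ≤ al * Real.exp (-y) := by
    rw [dpe, ← Real.exp_sub]
    have r1 : -a - -(X1 + ld) = -ll + (-Lam + -y) := by rw [ha]; ring
    rw [r1, Real.exp_add, Real.exp_add, exl]
    have r2 : Real.exp (-Lam) * Real.exp (-y) ≤ al * Real.exp (-y) :=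
      mul_le_mul_of_nonneg_right hal (Real.exp_pos _).le
    have r3 : dl * (Real.exp (-Lam) * Real.exp (-y)) ≤ 1 * (Real.exp (-Lam) * Real.exp (-y)) :=
      mul_le_mul_of_nonneg_right hdl1 (by positivity)
    linarith
  have tin2 : Real.exp (L - bb) ≤ al * x ^ (-(4 * (j : ℤ)) - 60) := by
    have r1 : L + Lam + ((4 * j + 60 : ℕ) : ℝ) * x ≤ bb := by
      have s1 : L ≤ x ^ ((c0 : ℤ) - 4 * j - 24) := hLL.trans (Fn.zle hx (by omega))
      have s2 : Lam ≤ x ^ ((c0 : ℤ) - 4 * j - 24) := hLx.trans (Fn.zle hx (by omega))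
      have s3 : ((4 * j + 60 : ℕ) : ℝ) * x ≤ x ^ ((c0 : ℤ) - 4 * j - 24 + 1) := by
        refine (Fn.mul2 hx hx0.le (Fn.nat hx (4 * j + 60)) (show x ≤ x ^ (1 : ℤ) by rw [zpow_one])).trans (Fn.zle hx ?_)
        push_cast
        omega
      exact (Fn.add2 hx (Fn.add2 hx s1 s2) s3).trans (Fn.zle hx (by omega))
    have r2 : L - bb ≤ -Lam + -(((4 * j + 60 : ℕ) : ℝ) * x) := by linarith
    refine (Real.exp_le_exp.2 r2).trans ?_
    rw [Real.exp_add]
    refine mul_le_mul hal ((Fn.expneg hx (4 * j + 60) le_rfl).trans (Fn.zle hx ?_)) (Real.exp_pos _).le hal0.le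
    push_cast
    omega
  have tinz : tinP X1 del L a bb ≤ al * x ^ (-(4 * (j : ℤ)) - 59) := by
    unfold tinP
    have r1 : al * (Real.exp (-y) + x ^ (-(4 * (j : ℤ)) - 60)) ≤ al * x ^ (-(4 * (j : ℤ)) - 59) :=
      mul_le_mul_of_nonneg_left ((Fn.add2 hx Tn le_rfl).trans (Fn.zle hx (by omega))) hal0.le
    rw [mul_add] at r1
    linarith
  have tin0 : 0 ≤ tinP X1 del L a bb := by unfold tinP; positivity
  -- the sqrt of (a + 1) / N1
  have sa : Real.sqrt ((a + 1) / N1) ≤ x ^ (-(2 * (j : ℤ)) - 40) := by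
    refine Fn.sqrt_le hx ?_
    rw [div_eq_mul_inv, iN1]
    refine (Fn.mul2 hx (P _).le az le_rfl).trans (Fn.zle hx ?_)
    omega
  have k0z : kap0 N1 a ≤ x ^ (-(2 * (j : ℤ)) - 39) := by
    have r1 : kap0 N1 a = 2 * Real.sqrt ((a + 1) / N1) := by
      unfold kap0
      rw [mul_div_assoc, Real.sqrt_mul (by norm_num : (0 : ℝ) ≤ 4), show (4 : ℝ) = 2 ^ 2 by norm_num,
        Real.sqrt_sq (by norm_num)]
    rw [r1]
    refine (Fn.mul2 hx (Real.sqrt_nonneg _) (Fn.cst hx 1 (c := 2) (by norm_num)) sa).trans (Fn.zle hx ?_)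
    push_cast
    omega
  have k00 : 0 ≤ kap0 N1 a := Real.sqrt_nonneg _
  have kBz : 4 * kapB N1 (n * N1) a bb ≤ x ^ (-(2 * (j : ℤ)) - 7) := by
    unfold kapB
    rw [e1]
    have r0 : bb + 1 ≤ x ^ ((c0 : ℤ) - 4 * j - 21) := by
      have q1 : (1 : ℝ) ≤ x ^ ((c0 : ℤ) - 4 * j - 22) := (Fn.one hx).trans (Fn.zle hx (by omega))
      exact (Fn.add2 hx (a := (c0 : ℤ) - 4 * j - 22) le_rfl q1).trans (Fn.zle hx (by omega))
    have bb0 : 0 ≤ bb := (P _).le
    have r1 : Real.sqrt (2 * ((bb + 1) * n⁻¹)) ≤ x ^ (-(2 * (j : ℤ)) - 10) := by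
      refine Fn.sqrt_le hx ?_
      rw [ine]
      refine (Fn.mul2 hx (mul_nonneg (by linarith) (P _).le) (Fn.cst hx 1 (c := 2) (by norm_num))
        (Fn.mul2 hx (P _).le r0 le_rfl)).trans (Fn.zle hx ?_)
      push_cast
      omega
    have r2 : 8 * Real.sqrt (2 * ((bb + 1) * n⁻¹)) ≤ x ^ (-(2 * (j : ℤ)) - 8) := by
      refine (Fn.mul2 hx (Real.sqrt_nonneg _) (Fn.cst hx 2 (c := 8) (by norm_num)) r1).trans (Fn.zle hx ?_)
      push_cast
      omega
    have r3 : 8 * kap0 N1 a ≤ x ^ (-(2 * (j : ℤ)) - 8) := by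
      refine (Fn.mul2 hx k00 (Fn.cst hx 2 (c := 8) (by norm_num)) k0z).trans (Fn.zle hx ?_)
      push_cast
      omega
    have r4 := Fn.add2 hx r2 r3
    have r5 : 4 * (2 * Real.sqrt (2 * ((bb + 1) * n⁻¹)) + 2 * kap0 N1 a) =
      8 * Real.sqrt (2 * ((bb + 1) * n⁻¹)) + 8 * kap0 N1 a := by ring
    rw [r5]
    exact r4.trans (Fn.zle hx (by omega))
  have kTz : kapT N1 X1 del a ≤ x ^ (-(2 * (j : ℤ)) - 20) := by
    unfold kapT
    have r1 : 4 * kap0 N1 a ≤ x ^ (-(2 * (j : ℤ)) - 21) := by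
      refine (Fn.mul2 hx k00 (Fn.cst hx 1 (c := 4) (by norm_num)) k0z).trans (Fn.zle hx ?_)
      push_cast
      omega
    have r2 : 8 * Real.exp (-a) / dpP X1 del ≤ x ^ (-(2 * (j : ℤ)) - 21) := by
      rw [mul_div_assoc]
      have s1 : Real.exp (-a) / dpP X1 del ≤ x ^ (-(4 * (j : ℤ)) - 60) := by
        refine tin1.trans ((mul_le_mul_of_nonneg_right hal1 (Real.exp_pos _).le).trans ?_)
        rw [one_mul]
        exact Tn
      refine (Fn.mul2 hx (by positivity) (Fn.cst hx 2 (c := 8) (by norm_num)) s1).trans (Fn.zle hx ?_)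
      push_cast
      omega
    exact (Fn.add2 hx r1 r2).trans (Fn.zle hx (by omega))
  have kT0 : 0 ≤ kapT N1 X1 del a := by unfold kapT; positivity
  have d1z : d1T N1 al X1 dl a ≤ x ^ (-(2 * (j : ℤ)) - 20) := by
    unfold d1T
    have r1 : 32 * Real.sqrt ((a + 1) / N1) ≤ x ^ (-(2 * (j : ℤ)) - 21) := by
      refine (Fn.mul2 hx (Real.sqrt_nonneg _) (Fn.cst hx 3 (c := 32) (by norm_num)) sa).trans (Fn.zle hx ?_)
      push_cast
      omega
    have r2 : Real.exp (X1 - a) / (dl * al) ≤ Real.exp (-y) := by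
      rw [div_le_iff₀ (by positivity)]
      have s1 : X1 - a = -ld + (-ll + (-Lam + -y)) := by rw [ha]; ring
      rw [s1, Real.exp_add, Real.exp_add, Real.exp_add, exl, exd]
      have s2 : Real.exp (-Lam) * Real.exp (-y) ≤ al * Real.exp (-y) :=
        mul_le_mul_of_nonneg_right hal (Real.exp_pos _).le
      have s3 : dl * (Real.exp (-Lam) * Real.exp (-y)) ≤ dl * (al * Real.exp (-y)) :=
        mul_le_mul_of_nonneg_left s2 hdl0.le
      have s4 : del * (dl * (Real.exp (-Lam) * Real.exp (-y))) ≤ 1 * (dl * (Real.exp (-Lam) * Real.exp (-y))) :=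
        mul_le_mul_of_nonneg_right hdel1 (by positivity)
      linarith
    have r3 : 8 * Real.exp (X1 - a) / (dl * al) ≤ x ^ (-(2 * (j : ℤ)) - 21) := by
      rw [mul_div_assoc]
      refine (Fn.mul2 hx (by positivity) (Fn.cst hx 2 (c := 8) (by norm_num)) (r2.trans Tn)).trans (Fn.zle hx ?_)
      push_cast
      omega
    exact (Fn.add2 hx r1 r3).trans (Fn.zle hx (by omega))
  have d10 : 0 ≤ d1T N1 al X1 dl a := by unfold d1T; positivity
  refine ⟨a, bb, R0, ep, e, tau, kb, ?_⟩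
  refine ⟨?_, ?_, epp, ?_, ?_, ?_, ?_, P _, P _, ?_, ?_⟩
  · -- hda
    rw [← exl]
    exact Real.exp_le_exp.2 (by rw [ha]; linarith)
  · exact_mod_cast kb0
  · have q1 : ep ≤ Real.exp (-1) := Real.exp_le_exp.2 (by linarith)
    have q2 : Real.exp (-1) ≤ 1 / 2 := by
      rw [Real.exp_neg, one_div]
      refine inv_anti₀ (by norm_num) ?_
      have := Real.add_one_le_exp (1 : ℝ)
      linarith
    exact q1.trans q2
  · rw [hep, one_div, ← Real.exp_neg, neg_neg, Real.log_exp]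
  · linarith
  · -- hkR
    rw [em]
    have q1 : n / 2 * (R0 + L / (n / 2)) ≤ n * x ^ ((j : ℤ) + 5) := by
      refine mul_le_mul (by linarith) R0z R00 hnp.le
    have q2 : n * x ^ ((j : ℤ) + 5) ≤ n * n := by
      refine mul_le_mul_of_nonneg_left ?_ hnp.le
      rw [nz]
      exact Fn.zle hx (by omega)
    rw [← sq] at q2
    linarith
  · -- num
    have q1 : x ^ (-(2 * (j : ℤ)) - 5) ≤ e / 2 := by
      have r1 := Fn.mul2 hx (P (-(2 * (j : ℤ)) - 5)).le (Fn.cst hx 1 (c := 2) (by norm_num)) (le_refl (x ^ (-(2 * (j : ℤ)) - 5)))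
      have r2 : x ^ (((1 : ℕ) : ℤ) + (-(2 * (j : ℤ)) - 5)) = e := by
        rw [he]
        congr 1
        push_cast
        ring
      rw [r2] at r1
      linarith
    refine le_trans ?_ q1
    have q2 : 4 * tinP X1 del L a bb ≤ x ^ (-(2 * (j : ℤ)) - 6) := by
      have r1 : tinP X1 del L a bb ≤ x ^ (-(4 * (j : ℤ)) - 59) :=
        tinz.trans ((mul_le_mul_of_nonneg_right hal1 (P _).le).trans (by rw [one_mul]))
      refine (Fn.mul2 hx tin0 (Fn.cst hx 1 (c := 4) (by norm_num)) r1).trans (Fn.zle hx ?_)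
      push_cast
      omega
    have q3 := Fn.add2 hx (dMt.trans (Fn.zle hx (show -(2 * (j : ℤ)) - 20 ≤ -(2 * (j : ℤ)) - 7 by omega))) kBz
    exact (Fn.add2 hx (q3.trans (Fn.zle hx (show -(2 * (j : ℤ)) - 7 + 1 ≤ -(2 * (j : ℤ)) - 6 by omega))) q2).trans
      (Fn.zle hx (by omega))
  · -- fin
    have q1 : Real.sqrt (2 * tau) ≤ x ^ (-(j : ℤ) - 2) := by
      refine Fn.sqrt_le hx ((Fn.mul2 hx (P _).le (Fn.cst hx 1 (c := 2) (by norm_num)) le_rfl).trans (Fn.zle hx ?_))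
      push_cast
      omega
    have q2 : Real.sqrt (dM N1 (n * N1) al X0 X1 del R0 ep kb L / tau + kapT N1 X1 del a) ≤ x ^ (-(j : ℤ) - 2) :=
      Fn.sqrt_le hx ((Fn.add2 hx dMt kTz).trans (Fn.zle hx (by omega)))
    have q3 : Real.sqrt e ≤ x ^ (-(j : ℤ) - 2) := Fn.sqrt_le hx le_rfl
    have q4 : Real.sqrt (8 / (al * e) * tinP X1 del L a bb + kapT N1 X1 del a + d1T N1 al X1 dl a) ≤
        x ^ (-(j : ℤ) - 2) := by
      refine Fn.sqrt_le hx ?_
      have r1 : 8 / (al * e) * tinP X1 del L a bb ≤ x ^ (-(2 * (j : ℤ)) - 20) := by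
        have ie : e⁻¹ = x ^ (2 * (j : ℤ) + 4) := by
          rw [he, ← zpow_neg]
          congr 1
          ring
        have e0 : 0 < e := P _
        have s1 : 8 / (al * e) * tinP X1 del L a bb ≤ 8 / (al * e) * (al * x ^ (-(4 * (j : ℤ)) - 59)) :=
          mul_le_mul_of_nonneg_left tinz (by positivity)
        have s2 : 8 / (al * e) * (al * x ^ (-(4 * (j : ℤ)) - 59)) = 8 * (e⁻¹ * x ^ (-(4 * (j : ℤ)) - 59)) := by
          field_simp
        rw [s2, ie] at s1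
        refine s1.trans ((Fn.mul2 hx (mul_nonneg (P _).le (P _).le) (Fn.cst hx 2 (c := 8) (by norm_num))
          (Fn.mul2 hx (P _).le le_rfl le_rfl)).trans (Fn.zle hx ?_))
        push_cast
        omega
      have r2 := Fn.add2 hx (Fn.add2 hx r1 kTz) (d1z.trans (Fn.zle hx (show -(2 * (j : ℤ)) - 20 ≤
        -(2 * (j : ℤ)) - 20 + 1 by omega)))
      exact r2.trans (Fn.zle hx (by omega))
    have q5 := Fn.add2 hx (Fn.add2 hx q1 q2) (Fn.add2 hx q3 q4)
    have q6 : Real.sqrt (2 * tau) + Real.sqrt (dM N1 (n * N1) al X0 X1 del R0 ep kb L / tau + kapT N1 X1 del a) +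
        Real.sqrt e + Real.sqrt (8 / (al * e) * tinP X1 del L a bb + kapT N1 X1 del a + d1T N1 al X1 dl a) =
      Real.sqrt (2 * tau) + Real.sqrt (dM N1 (n * N1) al X0 X1 del R0 ep kb L / tau + kapT N1 X1 del a) +
        (Real.sqrt e + Real.sqrt (8 / (al * e) * tinP X1 del L a bb + kapT N1 X1 del a + d1T N1 al X1 dl a)) := by
      ring
    rw [q6]
    exact q5.trans (Fn.zle hx (by omega))

end

end Pool.Agent.GMH.TP
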