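import Pool.Agent.GMH.TopTripD
import Pool.Agent.GMH.TopNT
import Pool.Agent.GMH.TriB
import Pool.Agent.GMH.BitUn

/-!
# GMH/TopTripE: hypothesis `htrip` of KEY3 for the run (helper91, row F3 of H3.LEAN)

* `dvC_al` : the distances of the events at the states `5t + j`, `j ≤ 4`;
* `AL_of` : alive points of the run are alive in the sense of `trip_of`;
* `epT_num` : the numbers;
* `trip_run` : `TripE` at `5t + j` from `PairE`, error and threshold `(pw Lam K)⁻¹`, `c0 ≥ 6 K + 22`;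
* `trip_NT` : the form needed by `NT_sum`; `AW`, `trip_step` : the form needed by `NoS` (all steps).
-/

set_option autoImplicit false
set_option linter.unusedSectionVars false

namespace Pool.Agent.GMH.TP

open Finset Pool.Agent.PWZ Pool.Agent.M3 Pool.Agent.GM Pool.Agent.GM.Harm Pool.Agent.GMH Pool.Agent.GMH.NZ
open Pool.Agent.GMH.V3

noncomputable section

variable {X β γ φ : Type} [Fintype X] [Fintype β] [Fintype φ] [Nonempty X] [Nonempty β]
variable {D : HD (Fin 3) X β γ φ} {al : ℝ} {h : D.Thick al} {v : ℕ → Finset (Fin 3) → X → (Fin 3 → β) → Pt (Fin 3) X β φ}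

namespace TE

section gen

variable {N : Finset (Fin 3) → ℝ} {S : Finset (Finset (Fin 3))} {dg : ℕ → X → ℝ} {prr : ℕ → Fin 3 → φ → φ} {T : ℕ}
  {Lam : ℝ}

/-- **distances of the events at the states of the run** -/
theorem dvC_al (H : D.Hyp dg prr al T Lam) (R : Run h N S (AdmDep D) v) (hN : ∀ J ∈ S, 0 ≤ N J) (h0 : ∅ ∈ S)
    (hS1 : ∀ i : Fin 3, {i} ∈ S) (hN0 : N ∅ = 1) {N1 : ℝ} (hN1 : ∀ i : Fin 3, N1 ≤ N {i}) (hN1p : 0 < N1)
    {t j : ℕ} (ht : t < T) (hj : j ≤ 4) {dl a : ℝ} (hdl : 0 < dl) (hdl1 : dl ≤ 1) (hda : Real.exp (-a) ≤ dl)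
    {u : Pt (Fin 3) X β φ} (hu' : (D.P h t).p u ≠ 0)
    (hdg : j = 1 → dl * (D.P h t).m (NP D v (t + 1) t) u ≤ (D.P h t).m (NP D v (t + 1) (t + 1)) u)
    (d : Fin 3) (E : X → Prop) :
    dvC D v (nc (5 * t + j) ∅) (nn (5 * t + j)) u d E ≤ (4 * Real.sqrt (4 * (a + 1) / N1)) *
      (muC D v (nc (5 * t + j) ∅) (nn (5 * t + j)) u).Pr E + 2 * Real.exp (-a) / dl := by
  classical
  set q := 5 * t + j with hq
  have hv := R.codes
  have hx := Real.exp_pos (-a)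
  have hB1 : 2 * Real.exp (-a) ≤ 2 * Real.exp (-a) / dl := by
    rw [le_div_iff₀ hdl]
    nlinarith
  have hs0 := Real.sqrt_nonneg (4 * (a + 1) / N1)
  rcases Nat.lt_or_ge j 1 with hj0 | hj1
  · have hj' : j = 0 := by omega
    have e1 : nc q ∅ = t + 1 := by
      rw [hq, nc_add t j pth_emp (by omega), hj']
      unfold ncj
      rw [if_neg (Nat.not_lt_zero _), add_zero]
    have e2 : nn q = t := by rw [hq, hj', add_zero]; exact nn_0 t
    rw [e1, e2]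
    have h1 := dvC_all R hN h0 hS1 hN0 hN1 hN1p t hu' d a E
    have h2 := FP.Pr_nonneg (muC D v (t + 1) t u) E
    have h3 := mul_nonneg hs0 h2
    linarith
  · rcases Nat.lt_or_ge j 2 with hj2 | hj2
    · have hj' : j = 1 := by omega
      have e1 : nc q ∅ = t + 1 := by rw [hq, hj']; exact nc_1 t pth_emp
      have e2 : nn q = t + 1 := by rw [hq, hj']; exact nn_1 t
      rw [e1, e2]
      exact dvC_dig H R hN h0 hS1 hN0 hN1 hN1p ht hu' hdl hda (dig_mu hv (hdg hj')) d E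
    · have e1 : nc q ∅ = t + 2 := nc_emp t hj2 (by omega)
      have e2 : nn q = t + 1 := nn_j t (by omega) (by omega)
      rw [e1, e2]
      obtain ⟨F', hF'⟩ : ∃ F' : Fin 3 → φ, ∀ l, D.kf (t + 1) l u.1 u.2.1 (F' l) ≠ 0 := by
        have h1 : ∀ l : Fin 3, ∃ F : φ, D.kf (t + 1) l u.1 u.2.1 F ≠ 0 := by
          intro l
          by_contra hcon
          push Not at hcon
          have h2 := h.one (t + 1) l u.1 u.2.1
          rw [Finset.sum_eq_zero fun F _ => hcon F] at h2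
          exact absurd h2 (by norm_num)
        choose F' hF' using h1
        exact ⟨F', hF'⟩
      have hc : (D.P h (t + 1)).p (u.1, u.2.1, F') ≠ 0 := by
        show (∏ l, D.kf (t + 1) l u.1 u.2.1 (F' l)) /
          (Fintype.card X * (Fintype.card β : ℝ) ^ Fintype.card (Fin 3)) ≠ 0
        refine div_ne_zero (Finset.prod_ne_zero_iff.2 fun l _ => hF' l) (mul_ne_zero ?_ (pow_ne_zero _ ?_))
        · exact_mod_cast Fintype.card_ne_zero
        · exact_mod_cast Fintype.card_ne_zero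
      have h1 := dvC_all R hN h0 hS1 hN0 hN1 hN1p (t + 1) hc d a E
      have h1' : dvC D v (t + 2) (t + 1) u d E ≤
          Real.sqrt (4 * (a + 1) / N1) * (muC D v (t + 2) (t + 1) u).Pr E + 2 * Real.exp (-a) := h1
      have h2 := FP.Pr_nonneg (muC D v (t + 2) (t + 1) u) E
      have h3 := mul_nonneg hs0 h2
      linarith

/-- alive points of the run -/
theorem AL_of (hv : Codes D v) {t j : ℕ} (hj : j ≤ 4) {w : Pt (Fin 3) X β φ} (hw : (D.P h t).p w ≠ 0) {X1 del dl : ℝ}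
    (hdel1 : 2 * del ≤ dl) (hdl1 : dl ≤ 1)
    (hsp : ∀ i k, i ≠ k → spQ h v (5 * t + j) i k w ≤ X1)
    (hdg : 1 ≤ j → dl * (D.P h t).m (NP D v (t + 1) t) w ≤ (D.P h t).m (NP D v (t + 1) (t + 1)) w)
    (hhv : 2 ≤ j → HV h v t w) : AL h v t (5 * t + j) X1 del w := by
  classical
  refine ⟨fun i k hik => ?_, ?_⟩
  · obtain ⟨d, hid, hkd⟩ : ∃ d : Fin 3, i ≠ d ∧ k ≠ d := by
      have key : ∀ i k : Fin 3, i ≠ k → ∃ d : Fin 3, i ≠ d ∧ k ≠ d := by decide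
      exact key i k hik
    have hq5 : (5 * t + j) / 5 = t := by omega
    have h1 := K0_mass (h := h) hv hq5 hik hid hkd hw
    have h2 : (LK v (5 * t + j) {i, k} w) = K0 v (5 * t + j) d w := by
      funext x
      refine propext ⟨fun hh l hl => hh l ?_, fun hh l hl => hh l ?_⟩
      · have key : ∀ d i k l : Fin 3, i ≠ k → i ≠ d → k ≠ d → l ≠ d → l ∈ ({i, k} : Finset (Fin 3)) := by decide
        exact key d i k l hik hid hkd hl
      · rcases Finset.mem_insert.1 hl with rfl | hl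
        · exact hid
        · rw [Finset.mem_singleton.1 hl]; exact hkd
    rw [h2, ← h1]
    exact Real.exp_le_exp.2 (neg_le_neg (hsp i k hik))
  · have hm := (D.P h t).m_nonneg (NP D v (t + 1) t) w
    have hm' := (D.P h t).m_nonneg (NP D v (t + 1) (t + 1)) w
    have a1 : del * (D.P h t).m (NP D v (t + 1) t) w ≤ dl / 2 * (D.P h t).m (NP D v (t + 1) t) w :=
      mul_le_mul_of_nonneg_right (by linarith) hm
    rcases Nat.lt_or_ge j 1 with hj0 | hj1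
    · have hj' : j = 0 := by omega
      subst hj'
      rw [add_zero, nc_0t t pth_emp, nn_0]
      nlinarith
    · have h2 := hdg hj1
      rcases Nat.lt_or_ge j 2 with hj2 | hj2
      · have hj' : j = 1 := by omega
        subst hj'
        rw [nc_1 t pth_emp, nn_1]
        linarith
      · have e1 : nc (5 * t + j) ∅ = t + 2 := nc_emp t hj2 (by omega)
        have e2 : nn (5 * t + j) = t + 1 := nn_j t (by omega) (by omega)
        rw [e1, e2]
        have h3 : (D.P h t).m (NPq D v (5 * t + 1)) w ≤ 2 * (D.P h t).m (NPq D v (5 * t + 2)) w := hhv hj2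
        unfold NPq at h3
        rw [nc_1 t pth_emp, nn_1, nc_emp t le_rfl (by omega), nn_j t (j := 2) (by omega) (by omega)] at h3
        linarith

end gen

/-! ### numbers -/

section num

variable {Lam : ℝ}

/-- the surprise bound of the pairs and of the public value -/
theorem X_num (hL : 2 ≤ Lam) {A c0 : ℕ} (hA : 80 ≤ A) :
    (apF Lam A c0).X1 + Real.log (1 / ((apF Lam A c0).dl / 2)) + 1 ≤ (2 * Lam) ^ (((c1F A c0 : ℕ) : ℤ) / 2 + 8) := by
  have hx : (4 : ℝ) ≤ 2 * Lam := by linarith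
  have hx0 : (0 : ℝ) < 2 * Lam := by linarith
  have pz : ∀ c : ℕ, pw Lam c = (2 * Lam) ^ (c : ℤ) := fun c => by unfold pw; rw [zpow_natCast]
  have P := Fn.zpos hx
  have hc1 := c1_big (c0 := c0) hA
  have hcX : (cXF A c0 : ℕ) = 3 * c0 + 3 * A := rfl
  have t1 : (apF Lam A c0).X1 ≤ (2 * Lam) ^ (((c1F A c0 : ℕ) : ℤ) / 2 + 5) := by
    have e : (apF Lam A c0).X1 = 3 * (2 * Lam) ^ ((cXF A c0 : ℕ) : ℤ) := by
      show 3 * pw Lam (cXF A c0) = _
      rw [pz]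
    rw [e]
    refine (Fn.mul2 hx (P _).le (Fn.cst hx 1 (c := 3) (by norm_num)) le_rfl).trans (Fn.zle hx ?_)
    push_cast [hcX]
    omega
  have t2 : Real.log (1 / ((apF Lam A c0).dl / 2)) ≤ (2 * Lam) ^ (((c1F A c0 : ℕ) : ℤ) / 2 + 5) := by
    have hp : 0 < pw Lam (4 * c1F A c0) := zero_lt_one.trans_le (pw_one hL _)
    have e : 1 / ((apF Lam A c0).dl / 2) = 2 * pw Lam (4 * c1F A c0) := by
      show 1 / ((pw Lam (4 * c1F A c0))⁻¹ / 2) = _
      field_simp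
    rw [e, Real.log_mul (by norm_num) hp.ne']
    have e2 : Real.log (pw Lam (4 * c1F A c0)) = ((4 * c1F A c0 : ℕ) : ℝ) * Real.log (2 * Lam) := by
      unfold pw
      rw [Real.log_pow]
    rw [e2]
    have l1 : Real.log 2 ≤ 1 := by
      have := Real.log_le_sub_one_of_pos (show (0 : ℝ) < 2 by norm_num)
      linarith
    have l2 : Real.log (2 * Lam) ≤ 2 * Lam := by
      have := Real.log_le_sub_one_of_pos hx0
      linarith
    have l3 : ((c1F A c0 : ℕ) : ℝ) ≤ (2 * Lam) ^ (((c1F A c0 : ℕ) : ℤ) / 2 + 1) := Fn.nat hx _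
    have l4 : ((4 * c1F A c0 : ℕ) : ℝ) * Real.log (2 * Lam) ≤
        (2 * Lam) ^ ((1 : ℤ) + (((c1F A c0 : ℕ) : ℤ) / 2 + 1) + 1) := by
      have h1 : ((4 * c1F A c0 : ℕ) : ℝ) * Real.log (2 * Lam) ≤ ((4 * c1F A c0 : ℕ) : ℝ) * (2 * Lam) :=
        mul_le_mul_of_nonneg_left l2 (Nat.cast_nonneg _)
      refine h1.trans (Fn.mul2 hx hx0.le ?_ (by rw [zpow_one]))
      push_cast
      exact Fn.mul2 hx (by positivity) (Fn.cst hx 1 (by norm_num)) l3
    have l5 : Real.log 2 ≤ (2 * Lam) ^ ((1 : ℤ) + (((c1F A c0 : ℕ) : ℤ) / 2 + 1) + 1) :=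
      l1.trans ((Fn.one hx).trans (Fn.zle hx (by omega)))
    exact (Fn.add2 hx l5 l4).trans (Fn.zle hx (by omega))
  have t3 : (1 : ℝ) ≤ (2 * Lam) ^ (((c1F A c0 : ℕ) : ℤ) / 2 + 6) := (Fn.one hx).trans (Fn.zle hx (by omega))
  have t4 := Fn.add2 hx t1 t2
  have t4' : (apF Lam A c0).X1 + Real.log (1 / ((apF Lam A c0).dl / 2)) ≤ (2 * Lam) ^ (((c1F A c0 : ℕ) : ℤ) / 2 + 6) :=
    t4.trans (Fn.zle hx (by omega))
  exact (Fn.add2 hx t4' t3).trans (Fn.zle hx (by omega))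

/-- the level of the events -/
def aE (Lam : ℝ) (A c0 : ℕ) : ℝ :=
  (apF Lam A c0).X1 + Real.log (1 / ((apF Lam A c0).dl / 2)) + pw Lam (c0 + 64)

/-- the distances are tiny -/
theorem kp_num (hL : 2 ≤ Lam) {A c0 : ℕ} (hA : 80 ≤ A) :
    4 * Real.sqrt (4 * (aE Lam A c0 + 1) / pw Lam (c1F A c0)) +
      2 * Real.exp (-aE Lam A c0) / ((apF Lam A c0).dl / 2) * Real.exp (apF Lam A c0).X1 ≤
      (2 * Lam) ^ (-((c0 : ℤ) + 61)) := by
  have hx : (4 : ℝ) ≤ 2 * Lam := by linarith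
  have hx0 : (0 : ℝ) < 2 * Lam := by linarith
  have pz : ∀ c : ℕ, pw Lam c = (2 * Lam) ^ (c : ℤ) := fun c => by unfold pw; rw [zpow_natCast]
  have P := Fn.zpos hx
  have hc1 := c1_big (c0 := c0) hA
  have hdl : 0 < (apF Lam A c0).dl := by
    show 0 < (pw Lam (4 * c1F A c0))⁻¹
    exact inv_pos.2 (zero_lt_one.trans_le (pw_one hL _))
  set X1 := (apF Lam A c0).X1 with hX1
  set dl := (apF Lam A c0).dl with hdle
  have u0 := X_num (c0 := c0) hL hA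
  rw [← hX1, ← hdle] at u0
  have t1 : aE Lam A c0 + 1 ≤ (2 * Lam) ^ (((c1F A c0 : ℕ) : ℤ) / 2 + 9) := by
    have e : aE Lam A c0 + 1 = (X1 + Real.log (1 / (dl / 2)) + 1) + pw Lam (c0 + 64) := by
      unfold aE
      ring
    have h2 : pw Lam (c0 + 64) ≤ (2 * Lam) ^ (((c1F A c0 : ℕ) : ℤ) / 2 + 8) := by
      rw [pz]
      refine Fn.zle hx ?_
      push_cast
      omega
    rw [e]
    exact (Fn.add2 hx u0 h2).trans (Fn.zle hx (by omega))
  have t2 : 4 * (aE Lam A c0 + 1) / pw Lam (c1F A c0) ≤ (2 * Lam) ^ (2 * (-((c0 : ℤ) + 64))) := by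
    have ipz : (pw Lam (c1F A c0))⁻¹ = (2 * Lam) ^ (-((c1F A c0 : ℕ) : ℤ)) := by rw [pz (c1F A c0), zpow_neg]
    rw [div_eq_mul_inv, ipz]
    have h3 : 4 * (aE Lam A c0 + 1) ≤ (2 * Lam) ^ ((1 : ℤ) + (((c1F A c0 : ℕ) : ℤ) / 2 + 9)) :=
      (mul_le_mul_of_nonneg_left t1 (by norm_num)).trans
        (Fn.mul2 hx (P _).le (Fn.cst hx 1 (c := 4) (by norm_num)) le_rfl)
    refine (Fn.mul2 hx (P _).le h3 le_rfl).trans (Fn.zle hx ?_)
    omega
  have t3 : 4 * Real.sqrt (4 * (aE Lam A c0 + 1) / pw Lam (c1F A c0)) ≤ (2 * Lam) ^ (-((c0 : ℤ) + 63)) := by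
    refine (Fn.mul2 hx (Real.sqrt_nonneg _) (Fn.cst hx 1 (c := 4) (by norm_num)) (Fn.sqrt_le hx t2)).trans
      (Fn.zle hx ?_)
    push_cast
    omega
  have e2 : 2 * Real.exp (-aE Lam A c0) / (dl / 2) * Real.exp X1 = 2 * Real.exp (-pw Lam (c0 + 64)) := by
    have hl : Real.exp (-Real.log (1 / (dl / 2))) = dl / 2 := by
      rw [one_div, Real.log_inv, neg_neg, Real.exp_log (by linarith)]
    have e3 : -aE Lam A c0 = -X1 + (-Real.log (1 / (dl / 2)) + -pw Lam (c0 + 64)) := by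
      unfold aE
      ring
    have e4 : Real.exp (-X1) * Real.exp X1 = 1 := by rw [← Real.exp_add]; simp
    rw [e3, Real.exp_add, Real.exp_add, hl]
    have e5 : 2 * (Real.exp (-X1) * (dl / 2 * Real.exp (-pw Lam (c0 + 64)))) / (dl / 2) * Real.exp X1 =
        (Real.exp (-X1) * Real.exp X1) * (2 * Real.exp (-pw Lam (c0 + 64)) * (dl / dl)) := by
      field_simp
    rw [e5, e4, div_self hdl.ne', mul_one, one_mul]
  have u1 : 2 * Real.exp (-pw Lam (c0 + 64)) ≤ (2 * Lam) ^ (-((c0 : ℤ) + 63)) := by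
    refine (Fn.mul2 hx (Real.exp_pos _).le (Fn.cst hx 1 (c := 2) (by norm_num)) (Fn.expneg hx (c0 + 64) ?_)).trans
      (Fn.zle hx (by push_cast; omega))
    rw [pz]
    refine (Fn.mul2 hx hx0.le (Fn.nat hx (c0 + 64)) (by rw [zpow_one])).trans (Fn.zle hx ?_)
    push_cast
    omega
  rw [e2]
  exact (Fn.add2 hx t3 u1).trans (Fn.zle hx (by omega))

/-- **the number of `htrip`** -/
theorem epT_num (hL : 2 ≤ Lam) {c0 K : ℕ} (hK : 6 * K + 22 ≤ c0) {e1 kp : ℝ} (hkp0 : 0 ≤ kp)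
    (he1 : e1 ≤ (pw Lam (2 * K + 6))⁻¹) (hkp : kp ≤ (2 * Lam) ^ (-((c0 : ℤ) + 61))) :
    epT e1 ((2 * Lam) ^ (-((c0 : ℤ) - 3))) kp (pw Lam K)⁻¹ ≤ (pw Lam K)⁻¹ := by
  have hx : (4 : ℝ) ≤ 2 * Lam := by linarith
  have hx0 : (0 : ℝ) < 2 * Lam := by linarith
  have pz : ∀ c : ℕ, pw Lam c = (2 * Lam) ^ (c : ℤ) := fun c => by unfold pw; rw [zpow_natCast]
  have ipz : ∀ c : ℕ, (pw Lam c)⁻¹ = (2 * Lam) ^ (-(c : ℤ)) := fun c => by rw [pz, zpow_neg]
  have P := Fn.zpos hx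
  rw [ipz] at he1
  push_cast at he1
  have a1 : Real.sqrt (2 * (2 * Lam) ^ (-((c0 : ℤ) - 3))) ≤ (2 * Lam) ^ (-(3 * (K : ℤ) + 9)) := by
    refine Fn.sqrt_le hx ?_
    refine (Fn.mul2 hx (P _).le (Fn.cst hx 1 (c := 2) (by norm_num)) le_rfl).trans (Fn.zle hx ?_)
    push_cast
    omega
  have a2 : 16 * Real.sqrt (2 * (2 * Lam) ^ (-((c0 : ℤ) - 3))) ≤ (2 * Lam) ^ (-(3 * (K : ℤ) + 7)) := by
    refine (Fn.mul2 hx (Real.sqrt_nonneg _) (Fn.cst hx 2 (c := 16) (by norm_num)) a1).trans (Fn.zle hx ?_)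
    push_cast
    omega
  have a3 : 6 * kp ≤ (2 * Lam) ^ (-(3 * (K : ℤ) + 7)) := by
    refine (Fn.mul2 hx hkp0 (Fn.cst hx 2 (c := 6) (by norm_num)) hkp).trans (Fn.zle hx ?_)
    push_cast
    omega
  have a4 : e3T ((2 * Lam) ^ (-((c0 : ℤ) - 3))) kp ≤ (2 * Lam) ^ (-(3 * (K : ℤ) + 6)) := by
    unfold e3T
    exact (Fn.add2 hx a2 a3).trans (Fn.zle hx (by omega))
  have h30 : 0 ≤ e3T ((2 * Lam) ^ (-((c0 : ℤ) - 3))) kp := by
    unfold e3T
    have := Real.sqrt_nonneg (2 * (2 * Lam) ^ (-((c0 : ℤ) - 3)))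
    linarith
  have a5 : ((pw Lam K)⁻¹)⁻¹ * e3T ((2 * Lam) ^ (-((c0 : ℤ) - 3))) kp ≤ (2 * Lam) ^ (-(2 * (K : ℤ) + 6)) := by
    rw [inv_inv, pz]
    exact (Fn.mul2 hx h30 le_rfl a4).trans (Fn.zle hx (by omega))
  have a6 : 2 * kp ≤ (2 * Lam) ^ (-(2 * (K : ℤ) + 6)) := by
    refine (Fn.mul2 hx hkp0 (Fn.cst hx 1 (c := 2) (by norm_num)) hkp).trans (Fn.zle hx ?_)
    push_cast
    omega
  have a7 : e1 ≤ (2 * Lam) ^ (-(2 * (K : ℤ) + 6)) := he1
  have a8 : ((pw Lam K)⁻¹)⁻¹ * e3T ((2 * Lam) ^ (-((c0 : ℤ) - 3))) kp + e1 + 2 * kp ≤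
      (2 * Lam) ^ (2 * (-((K : ℤ) + 2))) := by
    have b1 := (Fn.add2 hx a5 a7).trans (Fn.zle hx (show -(2 * (K : ℤ) + 6) + 1 ≤ -(2 * (K : ℤ) + 5) by omega))
    have b2 := a6.trans (Fn.zle hx (show -(2 * (K : ℤ) + 6) ≤ -(2 * (K : ℤ) + 5) by omega))
    exact (Fn.add2 hx b1 b2).trans (Fn.zle hx (by omega))
  have a9 := Fn.sqrt_le hx a8
  have c1 : e1 + 2 * kp ≤ (2 * Lam) ^ (-((K : ℤ) + 2)) :=
    (Fn.add2 hx a7 a6).trans (Fn.zle hx (by omega))
  unfold epT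
  rw [ipz K]
  rw [ipz K] at a9
  exact (Fn.add2 hx c1 a9).trans (Fn.zle hx (by omega))

end num

/-! ### the run -/

section run

variable {dg : ℕ → X → ℝ} {prr : ℕ → Fin 3 → φ → φ} {T : ℕ} {Lam : ℝ}

theorem PairE_mono {t q : ℕ} {aw : Pt (Fin 3) X β φ → ℝ} {e e' : ℝ} (hp : PairE h v t q aw e) (hee : e ≤ e') :
    PairE h v t q aw e' := by
  intro i k hik l m fl fm l0 m0
  refine (hp i k hik l m fl fm l0 m0).trans (mul_le_mul_of_nonneg_right hee (Real.sqrt_nonneg _))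

theorem TripE_mono {t q : ℕ} {aw : Pt (Fin 3) X β φ → ℝ} {e e' dd : ℝ} (hp : TripE h v t q aw e dd) (hee : e ≤ e') :
    TripE h v t q aw e' dd := by
  intro l m fl fm l0 m0
  refine (hp l m fl fm l0 m0).trans (mul_le_mul_of_nonneg_right hee (Real.sqrt_nonneg _))

/-- **`htrip` FOR THE RUN** -/
theorem trip_run (H : D.Hyp dg prr al T Lam) (hL : 2 ≤ Lam) {A c0 K : ℕ} (hA : 80 ≤ A) (hK : 6 * K + 22 ≤ c0)
    (R : Run h (pr3 (Fin 3) (pw Lam c0) (pw Lam (c1F A c0))) (SS1 (Fin 3)) (AdmDep D) v) {t j : ℕ} (ht : t < T)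
    (hj : j ≤ 4) {Aw : Pt (Fin 3) X β φ → Prop} (fA' : Fac (ZQ (φ := φ) D v (5 * t + j)) Aw)
    (hAw : ∀ w, (D.P h t).p w ≠ 0 → Aw w → (∀ i k, i ≠ k → spQ h v (5 * t + j) i k w ≤ (apF Lam A c0).X1) ∧
      (1 ≤ j → (apF Lam A c0).dl * (D.P h t).m (NP D v (t + 1) t) w ≤ (D.P h t).m (NP D v (t + 1) (t + 1)) w) ∧
      (2 ≤ j → HV h v t w)) {e1 : ℝ} (he1 : e1 ≤ (pw Lam (2 * K + 6))⁻¹)
    (hp : PairE h v t (5 * t + j) (fun w => ind (Aw w)) e1) {aw : Pt (Fin 3) X β φ → ℝ}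
    (haw : ∀ w, (D.P h t).p w ≠ 0 → aw w ≤ ind (Aw w)) :
    TripE h v t (5 * t + j) aw (pw Lam K)⁻¹ (pw Lam K)⁻¹ := by
  classical
  have hx : (4 : ℝ) ≤ 2 * Lam := by linarith
  have hx0 : (0 : ℝ) < 2 * Lam := by linarith
  have p1 : ∀ c, (1 : ℝ) ≤ pw Lam c := fun c => pw_one hL c
  have pz : ∀ c : ℕ, pw Lam c = (2 * Lam) ^ (c : ℤ) := fun c => by unfold pw; rw [zpow_natCast]
  have P := Fn.zpos hx
  obtain ⟨w1, _⟩ := (D.P h t).exists_p_ne
  have : Nonempty φ := ⟨w1.2.2 0⟩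
  have hv := R.codes
  have hc1 := c1_big (c0 := c0) hA
  set n : ℝ := pw Lam c0 with hn
  set N1 : ℝ := pw Lam (c1F A c0) with hN1
  set p := apF Lam A c0 with hp0
  have hdl : 0 < p.dl := by
    show 0 < (pw Lam (4 * c1F A c0))⁻¹
    exact inv_pos.2 (zero_lt_one.trans_le (p1 _))
  have hdl1 : p.dl ≤ 1 := by
    show (pw Lam (4 * c1F A c0))⁻¹ ≤ 1
    exact inv_le_one_of_one_le₀ (p1 _)
  have hX1 : 0 ≤ p.X1 := by
    show 0 ≤ 3 * pw Lam (cXF A c0)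
    linarith [p1 (cXF A c0)]
  have hN1p : (0 : ℝ) < N1 := zero_lt_one.trans_le (p1 _)
  have hN : ∀ J ∈ SS1 (Fin 3), 0 ≤ pr3 (Fin 3) n N1 J := fun J _ => zero_le_one.trans (pr3_one (p1 _) (p1 _) J)
  have hS0 : ∅ ∈ SS1 (Fin 3) := mem_SS1.2 (by decide)
  have hS1 : ∀ i : Fin 3, {i} ∈ SS1 (Fin 3) := fun i => mem_SS1.2 (by revert i; decide)
  have hS2 : ∀ l : Fin 3, univ.erase l ∈ SS1 (Fin 3) := fun l => mem_SS1.2 (Finset.erase_ne_self.2 (mem_univ l))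
  have hu : univ ∉ SS1 (Fin 3) := fun hh => mem_SS1.1 hh rfl
  have hN2 : ∀ l : Fin 3, 0 < pr3 (Fin 3) n N1 (univ.erase l) := fun l =>
    zero_lt_one.trans_le (pr3_one (p1 _) (p1 _) _)
  -- logarithms
  have hld : 0 ≤ Real.log (1 / (p.dl / 2)) := by
    refine Real.log_nonneg ?_
    rw [le_div_iff₀ (by linarith)]
    linarith
  have hal0 : 0 ≤ Real.log (1 / al) := by
    have h1 := sp_Zb_le H R hS2 hu hN2 ht.le (le_refl (5 * t)) 0 ‹(D.P h t).p w1 ≠ 0›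
    exact (sp_nonneg (D.P h t) (FQ v t 0) (ZbQ D v (5 * t) 0) ‹_›).trans h1
  have hal1 : Real.log (1 / al) ≤ Lam := TT.log_al H h.pos
  -- the level
  set a := aE Lam A c0 with ha
  have ha0 : 0 ≤ a := by
    rw [ha]
    unfold aE
    have := p1 (c0 + 64)
    linarith
  have hda : Real.exp (-a) ≤ p.dl / 2 := by
    have hl : Real.exp (-Real.log (1 / (p.dl / 2))) = p.dl / 2 := by
      rw [one_div, Real.log_inv, neg_neg, Real.exp_log (by linarith)]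
    have h2 : Real.exp (-a) ≤ Real.exp (-Real.log (1 / (p.dl / 2))) := by
      refine Real.exp_le_exp.2 (neg_le_neg ?_)
      rw [ha]
      unfold aE
      have := p1 (c0 + 64)
      linarith
    rwa [hl] at h2
  have S := St_j (t := t) hj
  -- numbers
  set κ : ℝ := 4 * Real.sqrt (4 * (a + 1) / N1) with hκ
  set B0 : ℝ := 2 * Real.exp (-a) / (p.dl / 2) with hB0
  have hκ0 : 0 ≤ κ := by positivity
  have hB00 : 0 ≤ B0 := by positivity
  have hkp := kp_num (c0 := c0) hL hA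
  rw [← hp0, ← ha, ← hN1, ← hκ, ← hB0] at hkp
  have hX := X_num (c0 := c0) hL hA
  rw [← hp0] at hX
  have hkap : 2 * (p.X1 + Real.log (1 / (p.dl / 2)) + 1) +
      2 * ((pr3 (Fin 3) n N1 {0} + pr3 (Fin 3) n N1 {1}) * Real.log (1 / al)) ≤
      pr3 (Fin 3) n N1 (univ.erase 2) * (2 * Lam) ^ (-((c0 : ℤ) - 3)) := by
    rw [pr3_s, pr3_s, pr3_top (by simp)]
    have r0 : n * N1 * (2 * Lam) ^ (-((c0 : ℤ) - 3)) = (2 * Lam) ^ (((c1F A c0 : ℕ) : ℤ) + 3) := by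
      rw [hn, hN1, pz, pz, ← zpow_add₀ hx0.ne', ← zpow_add₀ hx0.ne']
      congr 1
      ring
    rw [r0]
    have r1 : 2 * (p.X1 + Real.log (1 / (p.dl / 2)) + 1) ≤ (2 * Lam) ^ (((c1F A c0 : ℕ) : ℤ) + 2) :=
      (mul_le_mul_of_nonneg_left hX (by norm_num)).trans ((Fn.mul2 hx (P _).le
        (Fn.cst hx 1 (c := 2) (by norm_num)) le_rfl).trans (Fn.zle hx (by push_cast; omega)))
    have r2 : 2 * ((N1 + N1) * Real.log (1 / al)) ≤ (2 * Lam) ^ (((c1F A c0 : ℕ) : ℤ) + 2) := by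
      have r3 : 2 * ((N1 + N1) * Real.log (1 / al)) ≤ 2 * (N1 * (2 * Lam)) := by
        have := mul_le_mul_of_nonneg_left hal1 hN1p.le
        nlinarith
      refine r3.trans ?_
      rw [hN1, pz]
      refine (Fn.mul2 hx (by positivity) (Fn.cst hx 1 (c := 2) (by norm_num))
        (Fn.mul2 hx hx0.le le_rfl (by rw [zpow_one]))).trans (Fn.zle hx (by push_cast; omega))
    exact (Fn.add2 hx r1 r2).trans (Fn.zle hx (by omega))
  have he10 : 0 ≤ max e1 0 := le_max_right _ _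
  have key := trip_of (h := h) (v := v) (t := t) (q := 5 * t + j) H ht hv S
    (TriB.Bk_run (p1 c0) (p1 _) R (b := 2) (c := 0) (d := 1) (by decide) (by decide) (by decide) t)
    (fun j a b ha' hb' hab => top_name H R hS2 hu hN2 ht.le le_rfl ha' hb' hab) (pr3_0 n N1) (κ := κ) (B0 := B0)
    (X1 := p.X1) (del := p.dl / 2) hκ0 hB00 hX1 (by linarith) ?_
    (kap := (2 * Lam) ^ (-((c0 : ℤ) - 3))) ?_ hkap fA' ?_ he10 (inv_pos.2 (zero_lt_one.trans_le (p1 K)))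
    (PairE_mono hp (le_max_left e1 0)) haw
  · refine TripE_mono key ?_
    have hkp' : κ + B0 * Real.exp p.X1 ≤ (2 * Lam) ^ (-((c0 : ℤ) + 61)) := hkp
    refine epT_num hL hK (by positivity) (max_le he1 ?_) hkp'
    exact inv_nonneg.2 (zero_le_one.trans (p1 _))
  · -- distances
    intro u hu' hdel i E
    refine dvC_al H R hN hS0 hS1 (pr3_0 n N1) (fun i => (pr3_s n N1 i).ge) hN1p ht hj (dl := p.dl / 2)
      (by linarith) (by linarith) hda hu' ?_ i E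
    intro hj1
    subst hj1
    have h1 := hdel
    rw [nc_1 t pth_emp, nn_1] at h1
    exact h1
  · exact mul_nonneg (add_nonneg (by rw [pr3_s]; exact hN1p.le) (by rw [pr3_s]; exact hN1p.le)) hal0
  · intro w hw hA'
    obtain ⟨h1, h2, h3⟩ := hAw w hw hA'
    exact AL_of hv hj hw (by linarith) hdl1 h1 h2 h3

/-- **the form needed by `NT_sum`** -/
theorem trip_NT (H : D.Hyp dg prr al T Lam) (hL : 2 ≤ Lam) {A c0 K : ℕ} (hA : 80 ≤ A) (hK : 6 * K + 22 ≤ c0)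
    (R : Run h (pr3 (Fin 3) (pw Lam c0) (pw Lam (c1F A c0))) (SS1 (Fin 3)) (AdmDep D) v) {e1 : ℝ}
    (he1 : e1 ≤ (pw Lam (2 * K + 6))⁻¹)
    (hp : ∀ t < T, PairE h v t (5 * t) (fun w => ind (Ar h v (apF Lam A c0) (2 * t) w ∧ GdQ h v dg t w)) e1) :
    ∀ t < T, TripE h v t (5 * t) (fun w => ind (Ar h v (apF Lam A c0) (2 * t) w ∧ GdQ h v dg t w))
      (pw Lam K)⁻¹ (pw Lam K)⁻¹ := by
  intro t ht
  refine trip_run (t := t) (j := 0) H hL hA hK R ht (by omega)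
    (Aw := fun w => Ar h v (apF Lam A c0) (2 * t) w ∧ GdQ h v dg t w) ?_ ?_ he1 (hp t ht) (fun w _ => le_rfl)
  · intro a b hab
    have g1 : Ar h v (apF Lam A c0) (2 * t) a = Ar h v (apF Lam A c0) (2 * t) b := Ar0_fac h _ t a b hab
    have g2 : GdQ h v dg t a = GdQ h v dg t b := GdQ_fac h t a b (by rw [← ZQ_0]; exact hab)
    show (_ ∧ _) = (_ ∧ _)
    rw [g1, g2]
  · intro w _ hw
    exact ⟨fun i k hik => (AQ_0 h _ hw.1).2 i k hik, fun h0 => absurd h0 (by norm_num), fun h0 => absurd h0 (by norm_num)⟩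

/-- alive at the state before the step, seen by all thin letters of this state -/
def AZ (h : D.Thick al) (v : ℕ → Finset (Fin 3) → X → (Fin 3 → β) → Pt (Fin 3) X β φ) (p : AP) (s : Fin 6) (t : ℕ)
    (w : Pt (Fin 3) X β φ) : Prop :=
  AQ h v p (qs s t) w ∧
  (s ≠ 0 → p.dl * (D.P h t).m (NP D v (t + 1) t) w ≤ (D.P h t).m (NP D v (t + 1) (t + 1)) w) ∧
  (s = 3 ∨ s = 4 ∨ s = 5 → HV h v t w)

theorem AZ_of {p : AP} {Gd : ℕ → Pt (Fin 3) X β φ → Prop} {s : Fin 6} {t : ℕ} {w : Pt (Fin 3) X β φ}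
    (hw : aT h v p Gd s t w) : AZ h v p s t w := by
  refine ⟨hw.2, (aT_facts p hw).2.2, ?_⟩
  rintro (rfl | rfl | rfl)
  · exact hw.1.2
  · exact hw.1.2
  · exact hw.1.2

theorem AZ_fac (p : AP) (s : Fin 6) (t : ℕ) : Fac (ZQ (φ := φ) D v (qs s t)) (AZ h v p s t) := by
  intro a b hab
  have e1 : AQ h v p (qs s t) a = AQ h v p (qs s t) b := AQ_fac h p (qs s t) a b hab
  have e2 : (s ≠ 0 → p.dl * (D.P h t).m (NP D v (t + 1) t) a ≤ (D.P h t).m (NP D v (t + 1) (t + 1)) a) =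
      (s ≠ 0 → p.dl * (D.P h t).m (NP D v (t + 1) t) b ≤ (D.P h t).m (NP D v (t + 1) (t + 1)) b) := by
    by_cases hs : s = 0
    · exact propext ⟨fun _ h0 => absurd hs h0, fun _ h0 => absurd hs h0⟩
    · have h5 : 5 * t + 1 ≤ qs s t := by
        fin_cases s <;> first | exact absurd rfl hs | (simp [qs])
      have h6 : NPq D v (5 * t + 1) a = NPq D v (5 * t + 1) b :=
        NPq_mono (φ := φ) (D := D) (v := v) h5 a b (ZQ_NPq (φ := φ) (D := D) (v := v) _ a b hab)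
      unfold NPq at h6
      rw [nc_1 t pth_emp, nn_1] at h6
      have h7 : NP D v (t + 1) t a = NP D v (t + 1) t b :=
        NP_mono (D := D) (v := v) (le_refl (t + 1)) (Nat.le_succ t) a b h6
      have m1 : (D.P h t).m (NP D v (t + 1) (t + 1)) a = (D.P h t).m (NP D v (t + 1) (t + 1)) b :=
        (D.P h t).Fac_m _ a b h6
      have m2 : (D.P h t).m (NP D v (t + 1) t) a = (D.P h t).m (NP D v (t + 1) t) b := (D.P h t).Fac_m _ a b h7
      rw [m1, m2]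
  have e3 : (s = 3 ∨ s = 4 ∨ s = 5 → HV h v t a) = (s = 3 ∨ s = 4 ∨ s = 5 → HV h v t b) := by
    by_cases hs : s = 3 ∨ s = 4 ∨ s = 5
    · have h5 : 5 * t + 2 ≤ qs s t := by
        rcases hs with rfl | rfl | rfl <;> simp [qs]
      have h6 : HV h v t a = HV h v t b := HV_fac h t a b (ZQ_mono h5 a b hab)
      rw [h6]
    · exact propext ⟨fun _ h0 => absurd h0 hs, fun _ h0 => absurd h0 hs⟩
  show (_ ∧ _ ∧ _) = (_ ∧ _ ∧ _)
  rw [e1, e2, e3]

/-- **the form needed by `NoS`** : the states before the steps -/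
theorem trip_step (H : D.Hyp dg prr al T Lam) (hL : 2 ≤ Lam) {A c0 K : ℕ} (hA : 80 ≤ A) (hK : 6 * K + 22 ≤ c0)
    (R : Run h (pr3 (Fin 3) (pw Lam c0) (pw Lam (c1F A c0))) (SS1 (Fin 3)) (AdmDep D) v) {t : ℕ} (ht : t < T)
    (s : Fin 6) {Aw : Pt (Fin 3) X β φ → Prop} (fA' : Fac (ZQ (φ := φ) D v (qs s t)) Aw)
    (hAw : ∀ w, (D.P h t).p w ≠ 0 → Aw w → AZ h v (apF Lam A c0) s t w) {e1 : ℝ} (he1 : e1 ≤ (pw Lam (2 * K + 6))⁻¹)
    (hp : PairE h v t (qs s t) (fun w => ind (Aw w)) e1) {aw : Pt (Fin 3) X β φ → ℝ}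
    (haw : ∀ w, (D.P h t).p w ≠ 0 → aw w ≤ ind (Aw w)) :
    TripE h v t (qs s t) aw (pw Lam K)⁻¹ (pw Lam K)⁻¹ := by
  have key : ∀ j, j ≤ 4 → qs s t = 5 * t + j → (1 ≤ j → s ≠ 0) → (2 ≤ j → s = 3 ∨ s = 4 ∨ s = 5) →
      TripE h v t (qs s t) aw (pw Lam K)⁻¹ (pw Lam K)⁻¹ := by
    intro j hj hq hs1 hs2
    rw [hq] at fA' hp ⊢
    refine trip_run (t := t) (j := j) H hL hA hK R ht hj fA' ?_ he1 hp haw
    intro w hw hA'
    obtain ⟨a1, a2, a3⟩ := hAw w hw hA'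
    rw [hq] at a1
    exact ⟨a1.2, fun h1 => a2 (hs1 h1), fun h2 => a3 (hs2 h2)⟩
  fin_cases s
  · exact key 0 (by omega) rfl (by omega) (by omega)
  · exact key 1 (by omega) rfl (by decide) (by omega)
  · exact key 1 (by omega) rfl (by decide) (by omega)
  · exact key 2 (by omega) rfl (by decide) (by decide)
  · exact key 3 (by omega) rfl (by decide) (by decide)
  · exact key 4 (by omega) rfl (by decide) (by decide)

end run

end TE

end

end Pool.Agent.GMH.TP
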