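import Pool.Agent.GMH.HPair
import Pool.Agent.GMH.CKB
import Pool.Agent.GMH.Fin3N

/-!
# GMH/TopTyB: the heavy public value inside the own classes (helper91; needed by `PairE` at the step `5`)

* `heavy_cls` : `N'` finer than `N`; points whose `N'` value is heavy in the class of `N` but has conditional probability below
  `e` in the class of `(N, X)`: probability at most `4 e H(N' | N)`;
* `TyB L t l` : the new public value has probability at least `exp (-L)` in the own class of the vertex `l` (`OwM`);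
* `TyB_fac` : seen by `ZQ (5t+4)`; `TyB_one`, `TyB_sum` : the alive points without `TyB`, ANY `L ≥ log 2`;
* `Own_L` : `TyB` and the digit condition give the condition of `HPair` on the own classes;
* `TyB_num` : the number for `L = pw Lam (c0 - c)`.
-/

set_option autoImplicit false
set_option linter.unusedSectionVars false

namespace Pool.Agent.GMH.TP

open Finset Pool.Agent.PWZ Pool.Agent.M3 Pool.Agent.GM Pool.Agent.GM.Harm Pool.Agent.GMH Pool.Agent.GMH.NZ
open Pool.Agent.GMH.V3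

noncomputable section

namespace TY

section gen

variable {Om κ κ' ι : Type*} [Fintype Om] (P : FP Om) {N : Om → κ} {N' : Om → κ'} (X : Om → ι)

/-- one class of `(N, X)` in the values of `N'` -/
theorem ce_div (hN : Fac N' N) (u w : Om) :
    P.ce N' (fun y => ind ((N y, X y) = (N u, X u)) / P.m (fun z => (N' z, X z)) y) w ≤ ind (N w = N u) / P.m N' w := by
  have hm0 : 0 ≤ P.m N' w := P.m_nonneg N' w
  unfold FP.ce
  refine div_le_div_of_nonneg_right ?_ hm0
  by_cases hu : N w = N u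
  · rw [ind_of hu]
    set M := P.E (fun y => ind (N' y = N' w ∧ X y = X u)) with hM
    have M0 : 0 ≤ M := P.E_nonneg fun _ _ => ind_nonneg _
    have e1 : P.E (fun y => ind (N' y = N' w) * (ind ((N y, X y) = (N u, X u)) / P.m (fun z => (N' z, X z)) y)) =
        M / M := by
      rw [div_eq_mul_inv M M, hM, ← P.E_mul_const]
      refine P.E_congr fun y _ => ?_
      by_cases h1 : N' y = N' w ∧ X y = X u
      · have e2 : P.m (fun z => (N' z, X z)) y = M := by
          unfold FP.m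
          rw [hM]
          refine P.E_congr fun z _ => ind_cg ?_
          rw [Prod.mk.injEq, h1.1, h1.2]
        have e3 : (N y, X y) = (N u, X u) := by rw [Prod.mk.injEq]; exact ⟨(hN y w h1.1).trans hu, h1.2⟩
        rw [ind_of h1, ind_of h1.1, ind_of e3, e2, one_mul, one_div]
        ring
      · rw [ind_not h1]
        by_cases h2 : N' y = N' w
        · have h3 : ¬ (N y, X y) = (N u, X u) := fun hh => h1 ⟨h2, (Prod.mk.inj hh).2⟩
          rw [ind_not h3, zero_div, mul_zero, zero_mul]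
        · rw [ind_not h2, zero_mul, zero_mul]
    rw [e1]
    exact div_self_le_one M
  · rw [ind_not hu]
    refine le_of_eq ((P.E_congr fun y _ => ?_).trans (P.E_const 0))
    beta_reduce
    by_cases h2 : N' y = N' w
    · have h3 : ¬ (N y, X y) = (N u, X u) := fun hh => hu ((hN y w h2).symm.trans (Prod.mk.inj hh).1)
      rw [ind_not h3, zero_div, mul_zero]
    · rw [ind_not h2, zero_mul]

/-- ratios of the classes of `(N, X)` against ratios of the classes of `N` -/
theorem ratio_le (hN : Fac N' N) {A : Om → Prop} (fA : Fac N' A) :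
    P.E (fun w => ind (A w) * (P.m (fun z => (N z, X z)) w / P.m (fun z => (N' z, X z)) w)) ≤
      P.E (fun w => ind (A w) * (P.m N w / P.m N' w)) := by
  have fI : Fac N' (fun w => ind (A w)) := fA.comp fun q => ind q
  have e1 : P.E (fun w => ind (A w) * (P.m (fun z => (N z, X z)) w / P.m (fun z => (N' z, X z)) w)) =
      P.E (fun u => P.E (fun w => ind (A w) * (ind ((N w, X w) = (N u, X u)) / P.m (fun z => (N' z, X z)) w))) := by
    rw [← P.E_swap P (fun w u => ind (A w) * (ind ((N w, X w) = (N u, X u)) / P.m (fun z => (N' z, X z)) w))]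
    refine P.E_congr fun w _ => ?_
    rw [P.E_smul]
    congr 1
    have e2 : ∀ u, ind ((N w, X w) = (N u, X u)) / P.m (fun z => (N' z, X z)) w =
        ind ((N u, X u) = (N w, X w)) * (P.m (fun z => (N' z, X z)) w)⁻¹ := by
      intro u
      rw [div_eq_mul_inv, ind_cg (eq_comm (a := (N w, X w)) (b := (N u, X u)))]
    simp only [e2]
    rw [P.E_mul_const, div_eq_mul_inv]
    rfl
  have e3 : P.E (fun w => ind (A w) * (P.m N w / P.m N' w)) =
      P.E (fun u => P.E (fun w => ind (A w) * (ind (N w = N u) / P.m N' w))) := by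
    rw [← P.E_swap P (fun w u => ind (A w) * (ind (N w = N u) / P.m N' w))]
    refine P.E_congr fun w _ => ?_
    rw [P.E_smul]
    congr 1
    have e2 : ∀ u, ind (N w = N u) / P.m N' w = ind (N u = N w) * (P.m N' w)⁻¹ := by
      intro u
      rw [div_eq_mul_inv, ind_cg (eq_comm (a := N w) (b := N u))]
    simp only [e2]
    rw [P.E_mul_const, div_eq_mul_inv]
    rfl
  rw [e1, e3]
  refine P.E_mono fun u _ => ?_
  have h1 := P.E_mul_ce fI (fun w => ind ((N w, X w) = (N u, X u)) / P.m (fun z => (N' z, X z)) w)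
  rw [← h1]
  exact P.E_mono fun w _ => mul_le_mul_of_nonneg_left (ce_div P X hN u w) (ind_nonneg _)

/-- **heavy values in the finer classes** -/
theorem heavy_cls (hN : Fac N' N) {e : ℝ} (he0 : 0 < e) (he : e ≤ 1 / 2) :
    P.Pr (fun w => P.m N w ≤ 2 * P.m N' w ∧
      ¬ e * P.m (fun z => (N z, X z)) w ≤ P.m (fun z => (N' z, X z)) w) ≤ 4 * e * P.Hc N' N := by
  have fA : Fac N' (fun w => P.m N w ≤ 2 * P.m N' w) := by
    intro a b hab
    have h1 : P.m N a = P.m N b := P.Fac_m N a b (hN a b hab)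
    have h2 : P.m N' a = P.m N' b := P.Fac_m N' a b hab
    show (_ ≤ _) = (_ ≤ _)
    rw [h1, h2]
  have hr := ratio_le P X hN fA
  have eH : P.Hc N' N = P.E (fun w => Real.log (P.m N w / P.m N' w)) := by
    rw [Hc_eq_E_log]
    refine P.E_congr fun w _ => ?_
    rw [P.m_congr (X := fun v => (N' v, N v)) (Y := N') (Fac.fst _ _) ((Fac.refl N').prod hN) w]
  -- heavy points: ratio minus one against the logarithm
  have s1 : P.E (fun w => ind (P.m N w ≤ 2 * P.m N' w) * (P.m N w / P.m N' w - 1)) ≤ 2 * P.Hc N' N := by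
    rw [eH, ← P.E_smul]
    refine P.E_mono fun w hw => ?_
    have p1 := P.m_pos N' hw
    have p2 := P.m_anti hN w
    have h1 : 1 ≤ P.m N w / P.m N' w := (one_le_div p1).2 p2
    have h0 : 0 ≤ Real.log (P.m N w / P.m N' w) := Real.log_nonneg h1
    by_cases hA : P.m N w ≤ 2 * P.m N' w
    · rw [ind_of hA, one_mul]
      have h2 : P.m N w / P.m N' w ≤ 2 := (div_le_iff₀ p1).2 hA
      set r := P.m N w / P.m N' w with hr'
      have hrp : 0 < r := by linarith
      have h3 := Real.one_sub_inv_le_log_of_pos hrp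
      have h4 : r - 1 ≤ 2 * (1 - r⁻¹) := by
        have h5 : r * r⁻¹ = 1 := mul_inv_cancel₀ hrp.ne'
        have h6 : 1 / 2 ≤ r⁻¹ := by
          rw [one_div]
          exact inv_anti₀ hrp h2
        nlinarith
      linarith
    · rw [ind_not hA, zero_mul]
      linarith
  -- the ratios of the finer classes
  have s2 : P.E (fun w => ind (P.m N w ≤ 2 * P.m N' w) *
      (P.m (fun z => (N z, X z)) w / P.m (fun z => (N' z, X z)) w - 1)) ≤ 2 * P.Hc N' N := by
    refine le_trans ?_ s1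
    have e1 : ∀ f : Om → ℝ, P.E (fun w => ind (P.m N w ≤ 2 * P.m N' w) * (f w - 1)) =
        P.E (fun w => ind (P.m N w ≤ 2 * P.m N' w) * f w) - P.E (fun w => ind (P.m N w ≤ 2 * P.m N' w)) := by
      intro f
      rw [← P.E_sub]
      exact P.E_congr fun w _ => by ring
    rw [e1 (fun w => P.m (fun z => (N z, X z)) w / P.m (fun z => (N' z, X z)) w), e1 (fun w => P.m N w / P.m N' w)]
    linarith
  -- Markov
  have s3 : (1 / (2 * e)) * P.Pr (fun w => P.m N w ≤ 2 * P.m N' w ∧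
      ¬ e * P.m (fun z => (N z, X z)) w ≤ P.m (fun z => (N' z, X z)) w) ≤
      P.E (fun w => ind (P.m N w ≤ 2 * P.m N' w) *
        (P.m (fun z => (N z, X z)) w / P.m (fun z => (N' z, X z)) w - 1)) := by
    unfold FP.Pr
    rw [← P.E_smul]
    refine P.E_mono fun w hw => ?_
    have p1 := P.m_pos (fun z => (N' z, X z)) hw
    have fO : Fac (fun z => (N' z, X z)) (fun z => (N z, X z)) := fun a b hab =>
      Prod.ext (hN a b (Prod.mk.inj hab).1) (Prod.mk.inj hab).2
    have p2 := P.m_anti fO w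
    have h1 : 1 ≤ P.m (fun z => (N z, X z)) w / P.m (fun z => (N' z, X z)) w := (one_le_div p1).2 p2
    by_cases hb : P.m N w ≤ 2 * P.m N' w ∧ ¬ e * P.m (fun z => (N z, X z)) w ≤ P.m (fun z => (N' z, X z)) w
    · rw [ind_of hb, ind_of hb.1, mul_one, one_mul]
      have h2 := not_le.1 hb.2
      have h3 : 1 / e ≤ P.m (fun z => (N z, X z)) w / P.m (fun z => (N' z, X z)) w := by
        rw [div_le_div_iff₀ he0 p1]
        linarith
      have h4 : 1 / (2 * e) = 1 / e - 1 / (2 * e) := by field_simp; ring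
      have h5 : 1 ≤ 1 / (2 * e) := by rw [le_div_iff₀ (by linarith)]; linarith
      linarith
    · rw [ind_not hb, mul_zero]
      exact mul_nonneg (ind_nonneg _) (by linarith)
  have h6 := s3.trans s2
  have h7 : 0 < 2 * e := by linarith
  rw [one_div, inv_mul_le_iff₀ h7] at h6
  linarith

end gen

end TY

section run

variable {X β γ φ : Type} [Fintype X] [Fintype β] [Fintype φ] [Nonempty X] [Nonempty β]
variable {D : HD (Fin 3) X β γ φ} {al : ℝ} (h : D.Thick al) (v : ℕ → Finset (Fin 3) → X → (Fin 3 → β) → Pt (Fin 3) X β φ)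

/-- the new public value is not rare in the own class of the vertex `l` -/
def TyB (L : ℝ) (t : ℕ) (l : Fin 3) (w : Pt (Fin 3) X β φ) : Prop :=
  Real.exp (-L) * (D.P h t).m (OwM D v (5 * t + 1) l) w ≤ (D.P h t).m (OwM D v (5 * t + 4) l) w

variable {v} {dg : ℕ → X → ℝ} {prr : ℕ → Fin 3 → φ → φ} {T : ℕ} {Lam : ℝ}

theorem OwM_fac (q : ℕ) (l : Fin 3) : Fac (ZQ (φ := φ) D v q) (OwM D v q l) := fun a b hab =>
  Prod.ext (ZQ_NPq (φ := φ) (D := D) (v := v) q a b hab) (ZQ_XLq q l a b hab)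

theorem XLq_14 (t : ℕ) (l : Fin 3) : XLq (φ := φ) v (5 * t + 4) l = XLq v (5 * t + 1) l := by
  unfold XLq
  rw [nc_old t (by omega) (by omega) l, nc_old t (by omega) (by omega) l]

/-- seen by the thin letters of the state `5t + 4` -/
theorem TyB_fac (L : ℝ) (t : ℕ) (l : Fin 3) : Fac (ZQ (φ := φ) D v (5 * t + 4)) (TyB h v L t l) := by
  intro a b hab
  have h1 : OwM D v (5 * t + 4) l a = OwM D v (5 * t + 4) l b := OwM_fac _ _ a b hab
  have h2 : OwM D v (5 * t + 1) l a = OwM D v (5 * t + 1) l b :=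
    OwM_fac _ _ a b (ZQ_mono (show 5 * t + 1 ≤ 5 * t + 4 by omega) a b hab)
  have m1 : (D.P h t).m (OwM D v (5 * t + 4) l) a = (D.P h t).m (OwM D v (5 * t + 4) l) b := (D.P h t).Fac_m _ a b h1
  have m2 : (D.P h t).m (OwM D v (5 * t + 1) l) a = (D.P h t).m (OwM D v (5 * t + 1) l) b := (D.P h t).Fac_m _ a b h2
  show (_ ≤ _) = (_ ≤ _)
  rw [m1, m2]

/-- also by finer states -/
theorem TyB_fac' (L : ℝ) (t : ℕ) (l : Fin 3) {q : ℕ} (hq : 5 * t + 4 ≤ q) : Fac (ZQ (φ := φ) D v q) (TyB h v L t l) :=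
  (ZQ_mono hq).trans (TyB_fac h L t l)

/-- **ONE TIME** -/
theorem TyB_one {L : ℝ} (hL : Real.exp (-L) ≤ 1 / 2) (t : ℕ) (l : Fin 3) :
    (D.P h t).Pr (fun w => HV h v t w ∧ ¬ TyB h v L t l w) ≤ 4 * Real.exp (-L) * cst h v (t + 1) ∅ := by
  have h1 := TY.heavy_cls (D.P h t) (N := NPq D v (5 * t + 1)) (N' := NPq D v (5 * t + 2)) (XLq (φ := φ) v (5 * t + 1) l)
    (NPq_mono (by omega)) (Real.exp_pos (-L)) hL
  have h2 : (D.P h t).Hc (NPq D v (5 * t + 2)) (NPq D v (5 * t + 1)) = cst h v (t + 1) ∅ := CKB.Hc_NPq h t t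
  rw [h2] at h1
  refine le_trans (le_of_eq ?_) h1
  unfold FP.Pr
  refine (D.P h t).E_congr fun w _ => ind_cg ?_
  have e4 : OwM D v (5 * t + 4) l = fun z => (NPq (φ := φ) D v (5 * t + 2) z, XLq v (5 * t + 1) l z) := by
    funext z
    unfold OwM
    rw [XLq_14, NPq_mid t (j := 4) (by omega) (by omega)]
  unfold HV TyB
  rw [e4]
  exact Iff.rfl

/-- **ALL TIMES** : the budget of the public values is `3 n N1 Lam` -/
theorem TyB_sum (H : D.Hyp dg prr al T Lam) {n N1 : ℝ} (hn : 1 ≤ n) (hN1 : 1 ≤ N1)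
    (R : Run h (pr3 (Fin 3) n N1) (SS1 (Fin 3)) (AdmDep D) v) {L : ℝ} (hL : Real.exp (-L) ≤ 1 / 2) (l : Fin 3) :
    ∑ t ∈ range T, (D.P h t).Pr (fun w => HV h v t w ∧ ¬ TyB h v L t l w) ≤ 12 * Real.exp (-L) * (n * N1 * Lam) := by
  have h1 := Finset.sum_le_sum fun t (_ : t ∈ range T) => TyB_one h (v := v) hL t l
  refine h1.trans ?_
  rw [← Finset.mul_sum]
  have h2 : ∑ t ∈ range T, cst h v (t + 1) ∅ ≤ 3 * (n * N1 * Lam) := by
    have h3 := cost_le h H (N := pr3 (Fin 3) n N1) (Ntop := n * N1)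
      (fun J => lt_of_lt_of_le zero_lt_one (pr3_one hn hN1 J)) (fun l => (pr3_top rfl n N1 l).le)
      (fun t _ => R.nonpos (admDep_ok D) t) (J := ∅) (ne_u rfl)
    have e : pr3 (Fin 3) n N1 ∅ = 1 := by
      unfold pr3
      rw [if_pos Finset.card_empty]
    rw [e, div_one, Fintype.card_fin, Finset.sum_range_succ' _ T] at h3
    push_cast at h3
    have := cst_nonneg h (v := v) 0 ∅
    linarith
  have h4 : 0 ≤ 4 * Real.exp (-L) := by positivity
  calc _ ≤ 4 * Real.exp (-L) * (3 * (n * N1 * Lam)) := mul_le_mul_of_nonneg_left h2 h4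
    _ = _ := by ring

/-- the three vertices together -/
theorem TyB_sum3 (H : D.Hyp dg prr al T Lam) {n N1 : ℝ} (hn : 1 ≤ n) (hN1 : 1 ≤ N1)
    (R : Run h (pr3 (Fin 3) n N1) (SS1 (Fin 3)) (AdmDep D) v) {L : ℝ} (hL : Real.exp (-L) ≤ 1 / 2) :
    ∑ t ∈ range T, (D.P h t).Pr (fun w => HV h v t w ∧ ¬ ∀ l, TyB h v L t l w) ≤
      36 * Real.exp (-L) * (n * N1 * Lam) := by
  have h1 : ∀ t ∈ range T, (D.P h t).Pr (fun w => HV h v t w ∧ ¬ ∀ l, TyB h v L t l w) ≤
      ∑ l : Fin 3, (D.P h t).Pr (fun w => HV h v t w ∧ ¬ TyB h v L t l w) := by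
    intro t _
    unfold FP.Pr
    rw [← (D.P h t).E_sum]
    refine (D.P h t).E_mono fun w _ => ?_
    by_cases hw : HV h v t w ∧ ¬ ∀ l, TyB h v L t l w
    · rw [ind_of hw]
      obtain ⟨l, hl⟩ := not_forall.1 hw.2
      have h2 := Finset.single_le_sum (f := fun l => ind (HV h v t w ∧ ¬ TyB h v L t l w)) (fun l _ => ind_nonneg _)
        (mem_univ l)
      rw [ind_of ⟨hw.1, hl⟩] at h2
      exact h2
    · rw [ind_not hw]
      exact Finset.sum_nonneg fun l _ => ind_nonneg _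
  refine (Finset.sum_le_sum h1).trans ?_
  rw [Finset.sum_comm]
  refine (Finset.sum_le_sum fun l _ => TyB_sum h H hn hN1 R hL l).trans (le_of_eq ?_)
  rw [Finset.sum_const, Finset.card_univ, Fintype.card_fin]
  simp
  ring

/-- the condition of `HPair` on the own classes, from `TyB` and the digit given the own letter -/
theorem Own_L {p : AP} (hdl : 0 < p.dl) {L : ℝ} {t : ℕ} {l : Fin 3} {w : Pt (Fin 3) X β φ} (hT : TyB h v L t l w)
    (hd : dgl h v p t (XL v (t + 1) l) w) :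
    Real.exp (-(L + Real.log (1 / p.dl))) * (D.P h t).m (OwM D v (5 * t) l) w ≤
      (D.P h t).m (OwM D v (5 * t + 4) l) w := by
  have h0 : OwM D v (5 * t) l = fun z => (NP (φ := φ) D v (t + 1) t z, XL v (t + 1) l z) := by
    funext z
    unfold OwM NPq XLq
    rw [nc_old t (le_refl _) (by omega) l, nn_0]
    have h1 := nc_add t 0 (J := ∅) pth_emp (by omega)
    rw [add_zero] at h1
    rw [h1]
    unfold ncj
    rw [if_neg (Nat.not_lt_zero _), add_zero]
  have h1 : OwM D v (5 * t + 1) l = fun z => (NP (φ := φ) D v (t + 1) (t + 1) z, XL v (t + 1) l z) := by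
    funext z
    unfold OwM NPq XLq
    rw [nc_old t (by omega) (by omega) l, nn_1, nc_1 t pth_emp]
  have hd' : p.dl * (D.P h t).m (fun u => (XL v (t + 1) l u, NP D v (t + 1) t u)) w ≤
      (D.P h t).m (fun u => (XL v (t + 1) l u, NP D v (t + 1) (t + 1) u)) w := hd
  have s1 : ∀ n : ℕ, (D.P h t).m (fun u => (XL v (t + 1) l u, NP D v (t + 1) n u)) w =
      (D.P h t).m (fun u => (NP D v (t + 1) n u, XL v (t + 1) l u)) w := by
    intro n
    unfold FP.m
    refine (D.P h t).E_congr fun y _ => ind_cg ⟨fun hh => ?_, fun hh => ?_⟩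
    · exact Prod.ext (congrArg Prod.snd hh) (congrArg Prod.fst hh)
    · exact Prod.ext (congrArg Prod.snd hh) (congrArg Prod.fst hh)
  rw [s1, s1] at hd'
  have hT' : Real.exp (-L) * (D.P h t).m (OwM D v (5 * t + 1) l) w ≤ (D.P h t).m (OwM D v (5 * t + 4) l) w := hT
  rw [h1] at hT'
  rw [h0]
  have e1 : Real.exp (-(L + Real.log (1 / p.dl))) = Real.exp (-L) * p.dl := by
    rw [neg_add, Real.exp_add, one_div, Real.log_inv, neg_neg, Real.exp_log hdl]
  rw [e1]
  have h5 := mul_le_mul_of_nonneg_left hd' (Real.exp_pos (-L)).le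
  calc _ = Real.exp (-L) * (p.dl * (D.P h t).m (fun u => (NP D v (t + 1) t u, XL v (t + 1) l u)) w) := by ring
    _ ≤ _ := h5
    _ ≤ _ := hT'

/-- the same for the alive points of the step `5` -/
theorem Own_Ar {p : AP} (hdl : 0 < p.dl) {L : ℝ} {t : ℕ} {l : Fin 3} {w : Pt (Fin 3) X β φ} (hT : TyB h v L t l w)
    (hA : Ar h v p (2 * t + 1) w) :
    Real.exp (-(L + Real.log (1 / p.dl))) * (D.P h t).m (OwM D v (5 * t) l) w ≤
      (D.P h t).m (OwM D v (5 * t + 4) l) w := Own_L h hdl hT ((hA.2.2.2 t le_rfl).1 l)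

end run

/-! ### the number -/

/-- `L = pw Lam (c0 - c)` : the bad points against the trivial bound `exp (3 Lam)` of a normalisation -/
theorem TyB_num {Lam : ℝ} (hL : 2 ≤ Lam) {A c0 c M : ℕ} (hc : c + 1 ≤ c0) (hM : c0 + c1F A c0 + M + 6 ≤ 4 ^ (c0 - c - 1)) :
    Real.exp (3 * Lam) * (36 * Real.exp (-pw Lam (c0 - c)) * (pw Lam c0 * pw Lam (c1F A c0) * Lam)) ≤ (pw Lam M)⁻¹ := by
  have hx : (4 : ℝ) ≤ 2 * Lam := by linarith
  have hx0 : (0 : ℝ) < 2 * Lam := by linarith
  have pz : ∀ c : ℕ, pw Lam c = (2 * Lam) ^ (c : ℤ) := fun c => by unfold pw; rw [zpow_natCast]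
  have ipz : ∀ c : ℕ, (pw Lam c)⁻¹ = (2 * Lam) ^ (-(c : ℤ)) := fun c => by rw [pz, zpow_neg]
  have e1 : Real.exp (3 * Lam) * Real.exp (-pw Lam (c0 - c)) ≤ (2 * Lam) ^ (-((c0 + c1F A c0 + M + 4 : ℕ) : ℤ)) := by
    rw [← Real.exp_add]
    have h1 : 3 * Lam + -pw Lam (c0 - c) = -(pw Lam (c0 - c) - 3 * Lam) := by ring
    rw [h1]
    refine Fn.expneg hx _ ?_
    have h2 : pw Lam (c0 - c) = (2 * Lam) ^ (c0 - c - 1) * (2 * Lam) := by
      unfold pw
      rw [← pow_succ]
      congr 1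
      omega
    have h3 : ((c0 + c1F A c0 + M + 6 : ℕ) : ℝ) ≤ (2 * Lam) ^ (c0 - c - 1) := by
      refine le_trans ?_ (pow_le_pow_left₀ (by norm_num) hx (c0 - c - 1))
      exact_mod_cast hM
    have h4 := mul_le_mul_of_nonneg_right h3 hx0.le
    rw [h2]
    have h5 : ((c0 + c1F A c0 + M + 6 : ℕ) : ℝ) = ((c0 + c1F A c0 + M + 4 : ℕ) : ℝ) + 2 := by push_cast; ring
    rw [h5] at h4
    linarith
  have e2 : 36 * Lam ≤ (2 * Lam) ^ (4 : ℤ) := by
    have h1 : Lam ≤ (2 * Lam) ^ (1 : ℤ) := by rw [zpow_one]; linarith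
    exact (Fn.mul2 hx (by linarith) (Fn.cst hx 3 (c := 36) (by norm_num)) h1).trans (Fn.zle hx (by norm_num))
  have e3 : pw Lam c0 * pw Lam (c1F A c0) ≤ (2 * Lam) ^ ((c0 : ℤ) + ((c1F A c0 : ℕ) : ℤ)) := by
    rw [pz, pz, ← zpow_add₀ hx0.ne']
  have e4 : Real.exp (3 * Lam) * (36 * Real.exp (-pw Lam (c0 - c)) * (pw Lam c0 * pw Lam (c1F A c0) * Lam)) =
      (Real.exp (3 * Lam) * Real.exp (-pw Lam (c0 - c))) * ((36 * Lam) * (pw Lam c0 * pw Lam (c1F A c0))) := by ring
  have p0 : 0 ≤ pw Lam c0 * pw Lam (c1F A c0) := mul_nonneg (by unfold pw; positivity) (by unfold pw; positivity)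
  rw [e4, ipz]
  refine (Fn.mul2 hx (mul_nonneg (by linarith) p0) e1 (Fn.mul2 hx p0 e2 e3)).trans (Fn.zle hx ?_)
  push_cast
  omega

end

end Pool.Agent.GMH.TP
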