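import Pool.Agent.GMH.HPairF
import Pool.Agent.GMH.TopTripE
import Pool.Agent.GMH.TopTyB

/-!
# GMH/HPairR: `PairE` and `TripE` for the six steps of the run (helper49, row F3 of H3.LEAN)

* `PA h v p L s t` : alive before the step `s` (`AZ`), typical letters at `5t`, the cell of the state is not too unlikely inside
  the class of the own letter of every vertex (`exp (-L)`); seen by `ZQ (qs s t)` (`PA_fac`);
* `PA_of0`, `PA_of1`, `PA_of5` : the alive points of the steps (`L = 0`, `log (1/dl)`, `L' + log (1/dl)` with `TyB L'`);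
* `pair_run` : `PairE` for the weight `ind (PA ..)`.
-/

set_option autoImplicit false
set_option linter.unusedSectionVars false

namespace Pool.Agent.GMH.TP

open Finset Pool.Agent.PWZ Pool.Agent.M3 Pool.Agent.GM Pool.Agent.GM.Harm Pool.Agent.GMH Pool.Agent.GMH.NZ
open Pool.Agent.GMH.V3

noncomputable section

section run

variable {X β γ φ : Type} [Fintype X] [Fintype β] [Fintype φ] [Nonempty X] [Nonempty β]
variable {D : HD (Fin 3) X β γ φ} {al : ℝ} {h : D.Thick al}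
  {v : ℕ → Finset (Fin 3) → X → (Fin 3 → β) → Pt (Fin 3) X β φ} {dg : ℕ → X → ℝ} {prr : ℕ → Fin 3 → φ → φ} {T : ℕ}
  {Lam : ℝ}

variable (h v) in
/-- the cell of the state `q` inside the own classes of the state `5t` -/
def LLo (L : ℝ) (t q : ℕ) (w : Pt (Fin 3) X β φ) : Prop :=
  ∀ l, Real.exp (-L) * (D.P h t).m (OwM D v (5 * t) l) w ≤ (D.P h t).m (OwM D v q l) w

variable (h v) in
/-- alive before the step, with typical letters and own classes -/
def PA (p : AP) (L : ℝ) (s : Fin 6) (t : ℕ) (w : Pt (Fin 3) X β φ) : Prop :=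
  TE.AZ h v p s t w ∧ (∀ i, ssQ h v (5 * t) i w ≤ p.X0) ∧ LLo h v L t (qs s t) w

theorem qs_le4 (s : Fin 6) (t : ℕ) : qs s t ≤ 5 * t + 4 := by fin_cases s <;> simp [qs]

theorem LLo_mono {L L' : ℝ} (hL : L ≤ L') {t q : ℕ} {w : Pt (Fin 3) X β φ} (hw : LLo h v L t q w) : LLo h v L' t q w :=
  fun l => (mul_le_mul_of_nonneg_right (Real.exp_le_exp.2 (neg_le_neg hL)) ((D.P h t).m_nonneg _ w)).trans (hw l)

theorem PA_mono {p : AP} {L L' : ℝ} (hL : L ≤ L') {s : Fin 6} {t : ℕ} {w : Pt (Fin 3) X β φ} (hw : PA h v p L s t w) :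
    PA h v p L' s t w := ⟨hw.1, hw.2.1, LLo_mono hL hw.2.2⟩

theorem LLo_fac (L : ℝ) {t q : ℕ} (hq : 5 * t ≤ q) : Fac (ZQ (φ := φ) D v q) (LLo h v L t q) := by
  intro a b hab
  have h1 : ∀ l, (D.P h t).m (OwM D v q l) a = (D.P h t).m (OwM D v q l) b := fun l =>
    (D.P h t).Fac_m _ a b (OwM_fac q l a b hab)
  have h2 : ∀ l, (D.P h t).m (OwM D v (5 * t) l) a = (D.P h t).m (OwM D v (5 * t) l) b := fun l =>
    (D.P h t).Fac_m _ a b (OwM_fac (5 * t) l a b (ZQ_mono hq a b hab))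
  unfold LLo
  simp only [h1, h2]

theorem PA_fac (p : AP) (L : ℝ) (s : Fin 6) (t : ℕ) : Fac (ZQ (φ := φ) D v (qs s t)) (PA h v p L s t) := by
  intro a b hab
  have h1 : TE.AZ h v p s t a = TE.AZ h v p s t b := TE.AZ_fac p s t a b hab
  have h2 : LLo h v L t (qs s t) a = LLo h v L t (qs s t) b := LLo_fac L (qs_ge s t) a b hab
  have h3 : ∀ i, ssQ h v (5 * t) i a = ssQ h v (5 * t) i b := by
    intro i
    have h4 := ZQ_mono (qs_ge s t) a b hab
    have h5 := ZQ_XLq (5 * t) i a b h4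
    have h6 := ZQ_NPq (φ := φ) (D := D) (v := v) (5 * t) a b h4
    have h7 : a.2.1 i = b.2.1 i := congrArg Prod.fst h5
    unfold ssQ
    exact sp_fac _ _ _ a b (Prod.ext h5 (Prod.ext h7 h6))
  show (_ ∧ _) = (_ ∧ _)
  rw [h1, h2]
  simp only [h3]

/-- **`PairE` on alive points** -/
theorem pair_run0 (H : D.Hyp dg prr al T Lam) (hL : 2 ≤ Lam) {A c0 : ℕ}
    (R : Run h (pr3 (Fin 3) (pw Lam c0) (pw Lam (c1F A c0))) (SS1 (Fin 3)) (AdmDep D) v) {t : ℕ} (ht : t < T)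
    (s : Fin 6) {L a bb R0 ep e tau eps : ℝ} {kb : ℕ}
    (PN : PairNum (pw Lam (c1F A c0)) (pw Lam c0 * pw Lam (c1F A c0)) al (apF Lam A c0).X0 (apF Lam A c0).X1
      ((apF Lam A c0).dl / 2) ((apF Lam A c0).dl / 2) L a bb R0 ep e tau kb eps) {aw : Pt (Fin 3) X β φ → ℝ}
    (a0 : ∀ u, 0 ≤ aw u) (a1 : ∀ u, aw u ≤ 1)
    (haw : ∀ w, (D.P h t).p w ≠ 0 → aw w ≠ 0 → PA h v (apF Lam A c0) L s t w) : PairE h v t (qs s t) aw eps := by
  have p1 : ∀ c, (1 : ℝ) ≤ pw Lam c := fun c => pw_one hL c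
  set n : ℝ := pw Lam c0 with hn
  set N1 : ℝ := pw Lam (c1F A c0) with hN1
  set p := apF Lam A c0 with hp0
  have hdl : 0 < p.dl := by
    show 0 < (pw Lam (4 * c1F A c0))⁻¹
    exact inv_pos.2 (zero_lt_one.trans_le (p1 _))
  have hdl1 : p.dl ≤ 1 := by
    show (pw Lam (4 * c1F A c0))⁻¹ ≤ 1
    exact inv_le_one_of_one_le₀ (p1 _)
  have hN1p : (0 : ℝ) < N1 := zero_lt_one.trans_le (p1 _)
  have hN : ∀ J ∈ SS1 (Fin 3), 0 ≤ pr3 (Fin 3) n N1 J := fun J _ => zero_le_one.trans (pr3_one (p1 _) (p1 _) J)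
  have hS0 : ∅ ∈ SS1 (Fin 3) := mem_SS1.2 (by decide)
  have hS1 : ∀ i : Fin 3, {i} ∈ SS1 (Fin 3) := fun i => mem_SS1.2 (by revert i; decide)
  have hS2 : ∀ l : Fin 3, univ.erase l ∈ SS1 (Fin 3) := fun l => mem_SS1.2 (Finset.erase_ne_self.2 (mem_univ l))
  have hu : univ ∉ SS1 (Fin 3) := fun hh => mem_SS1.1 hh rfl
  have hv := R.codes
  refine pair_fin H R hN hS0 hS1 hS2 hu (pr3_0 n N1) (N1 := N1) (N2 := n * N1) (fun i => pr3_s n N1 i) hN1p
    (fun l => pr3_top rfl n N1 l) (mul_pos (zero_lt_one.trans_le (p1 _)) hN1p) ht (qs_ge s t) (qs_le4 s t)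
    (X0 := p.X0) (X1 := p.X1) (del := p.dl / 2) (by linarith) (by linarith) PN a0 a1 (fun u hu' hau => ?_)
  obtain ⟨⟨g1, g2, g3⟩, g4, g5⟩ := haw u hu' hau
  refine ⟨g1.2, g4, ?_, g5⟩
  have key : ∀ j, j ≤ 4 → qs s t = 5 * t + j → (1 ≤ j → s ≠ 0) → (2 ≤ j → s = 3 ∨ s = 4 ∨ s = 5) →
      p.dl / 2 * (D.P h t).m (NPq D v (5 * t)) u ≤ (D.P h t).m (NPq D v (qs s t)) u := by
    intro j hj hq hs1 hs2
    have g1' := g1.2
    rw [hq] at g1' ⊢
    have h1 := (TE.AL_of (h := h) hv hj hu' (X1 := p.X1) (del := p.dl / 2) (dl := p.dl) (by linarith) hdl1 g1'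
      (fun h1 => g2 (hs1 h1)) (fun h2 => g3 (hs2 h2))).2
    have e1 : NPq (φ := φ) D v (5 * t) = NP D v (t + 1) t := by
      unfold NPq
      rw [nc5_emp, nn_0]
    rw [e1]
    exact h1
  fin_cases s
  · exact key 0 (by omega) rfl (by omega) (by omega)
  · exact key 1 (by omega) rfl (by decide) (by omega)
  · exact key 1 (by omega) rfl (by decide) (by omega)
  · exact key 2 (by omega) rfl (by decide) (by decide)
  · exact key 3 (by omega) rfl (by decide) (by decide)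
  · exact key 4 (by omega) rfl (by decide) (by decide)

/-! ### alive points of the steps -/

theorem OwM_mid (t : ℕ) {j : ℕ} (h2 : 2 ≤ j) (h4 : j ≤ 4) (l : Fin 3) : OwM (φ := φ) D v (5 * t + j) l = OwM D v (5 * t + 4) l := by
  funext z
  unfold OwM
  rw [NPq_mid t h2 (by omega), NPq_mid t (j := 4) (by omega) (by omega)]
  unfold XLq
  rw [nc_old t (by omega) (by omega) l, nc_old t (by omega) (by omega) l]

theorem LLo_0 {L : ℝ} (hL : 0 ≤ L) (t : ℕ) (w : Pt (Fin 3) X β φ) : LLo h v L t (5 * t) w := by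
  intro l
  have h0 := (D.P h t).m_nonneg (OwM D v (5 * t) l) w
  have h1 : Real.exp (-L) ≤ 1 := Real.exp_le_one_iff.2 (by linarith)
  calc _ ≤ 1 * (D.P h t).m (OwM D v (5 * t) l) w := mul_le_mul_of_nonneg_right h1 h0
    _ = _ := one_mul _

theorem LLo_1 {p : AP} (hdl : 0 < p.dl) {L : ℝ} (hL : 0 ≤ L) {t : ℕ} {w : Pt (Fin 3) X β φ}
    (hA : Ar h v p (2 * t + 1) w) : LLo h v (L + Real.log (1 / p.dl)) t (5 * t + 1) w := by
  intro l
  have hd : dgl h v p t (XL v (t + 1) l) w := (hA.2.2.2 t le_rfl).1 l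
  have h0 : OwM D v (5 * t) l = fun z => (NP (φ := φ) D v (t + 1) t z, XL v (t + 1) l z) := by
    funext z
    unfold OwM NPq XLq
    rw [nc_old t (le_refl _) (by omega) l, nn_0, nc5_emp]
  have h1 : OwM D v (5 * t + 1) l = fun z => (NP (φ := φ) D v (t + 1) (t + 1) z, XL v (t + 1) l z) := by
    funext z
    unfold OwM NPq XLq
    rw [nc_old t (by omega) (by omega) l, nn_1, nc_1 t pth_emp]
  have s1 : ∀ n : ℕ, (D.P h t).m (fun u => (XL v (t + 1) l u, NP D v (t + 1) n u)) w =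
      (D.P h t).m (fun u => (NP D v (t + 1) n u, XL v (t + 1) l u)) w := by
    intro n
    unfold FP.m
    refine (D.P h t).E_congr fun y _ => ind_cg ⟨fun hh => ?_, fun hh => ?_⟩
    · exact Prod.ext (congrArg Prod.snd hh) (congrArg Prod.fst hh)
    · exact Prod.ext (congrArg Prod.snd hh) (congrArg Prod.fst hh)
  have hd' : p.dl * (D.P h t).m (fun u => (XL v (t + 1) l u, NP D v (t + 1) t u)) w ≤
      (D.P h t).m (fun u => (XL v (t + 1) l u, NP D v (t + 1) (t + 1) u)) w := hd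
  rw [s1, s1] at hd'
  rw [h0, h1]
  refine le_trans ?_ hd'
  refine mul_le_mul_of_nonneg_right ?_ ((D.P h t).m_nonneg _ w)
  have e1 : Real.exp (-(L + Real.log (1 / p.dl))) = Real.exp (-L) * p.dl := by
    rw [neg_add, Real.exp_add, one_div, Real.log_inv, neg_neg, Real.exp_log hdl]
  rw [e1]
  have h2 : Real.exp (-L) ≤ 1 := Real.exp_le_one_iff.2 (by linarith)
  nlinarith

theorem LLo_2 {p : AP} (hdl : 0 < p.dl) {L : ℝ} {t j : ℕ} (h2 : 2 ≤ j) (h4 : j ≤ 4) {w : Pt (Fin 3) X β φ}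
    (hA : Ar h v p (2 * t + 1) w) (hT : ∀ l, TyB h v L t l w) : LLo h v (L + Real.log (1 / p.dl)) t (5 * t + j) w := by
  intro l
  rw [OwM_mid t h2 h4 l]
  exact Own_Ar h hdl (hT l) hA

/-- **the alive points of the steps** : `TyB` (all vertices) at the steps `3, 4, 5` -/
theorem PA_of {p : AP} (hdl : 0 < p.dl) (hdl1 : p.dl ≤ 1) {L : ℝ} (hL : 0 ≤ L) {Gd : ℕ → Pt (Fin 3) X β φ → Prop}
    {s : Fin 6} {t : ℕ} {w : Pt (Fin 3) X β φ} (hw : aT h v p Gd s t w)
    (hT : s = 3 ∨ s = 4 ∨ s = 5 → ∀ l, TyB h v L t l w) : PA h v p (L + Real.log (1 / p.dl)) s t w := by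
  have hlog : 0 ≤ Real.log (1 / p.dl) := Real.log_nonneg ((one_le_div hdl).2 hdl1)
  have hA0 : Ar h v p (2 * t) w := by
    have := hw.1
    fin_cases s
    · exact this.1
    all_goals exact Ar_mono h p (by omega) this.1
  have hA1 : s ≠ 0 → Ar h v p (2 * t + 1) w := by
    intro hs
    have := hw.1
    fin_cases s
    · exact absurd rfl hs
    all_goals exact this.1
  refine ⟨TE.AZ_of hw, (AQ_0 h p hA0).1, ?_⟩
  fin_cases s
  · exact LLo_0 (add_nonneg hL hlog) t w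
  · exact LLo_1 hdl hL (hA1 (by decide))
  · exact LLo_1 hdl hL (hA1 (by decide))
  · exact LLo_2 hdl (le_refl 2) (by omega) (hA1 (by decide)) (hT (by decide))
  · exact LLo_2 hdl (by omega) (by omega) (hA1 (by decide)) (hT (by decide))
  · exact LLo_2 hdl (by omega) (le_refl 4) (hA1 (by decide)) (hT (by decide))

/-- the step `0`, all digits -/
theorem PA_of0 {p : AP} {L : ℝ} (hL : 0 ≤ L) {t : ℕ} {w : Pt (Fin 3) X β φ} (hA : Ar h v p (2 * t) w) :
    PA h v p L 0 t w :=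
  ⟨⟨AQ_0 h p hA, fun h0 => absurd rfl h0, fun h0 => absurd h0 (by decide)⟩, (AQ_0 h p hA).1, LLo_0 hL t w⟩

/-- `TyB` is seen at the state after the new public value -/
theorem TyB_fac2 (L : ℝ) (t : ℕ) (l : Fin 3) : Fac (ZQ (φ := φ) D v (5 * t + 2)) (TyB h v L t l) := by
  intro a b hab
  have h1 : OwM D v (5 * t + 2) l a = OwM D v (5 * t + 2) l b := OwM_fac _ _ a b hab
  have h2 : OwM D v (5 * t + 1) l a = OwM D v (5 * t + 1) l b :=
    OwM_fac _ _ a b (ZQ_mono (show 5 * t + 1 ≤ 5 * t + 2 by omega) a b hab)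
  have m1 := (D.P h t).Fac_m _ a b h1
  have m2 := (D.P h t).Fac_m _ a b h2
  unfold TyB
  rw [OwM_mid t (le_refl 2) (by omega) l] at m1
  rw [m1, m2]

end run

end

end Pool.Agent.GMH.TP
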