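import Pool.Agent.GMH.HPairR
import Pool.Agent.GMH.HPairN

/-!
# GMH/HPairT: `PairE` and `TripE` of the run, with numbers (helper49, row F3 of H3.LEAN)

* `pair_run` : `PairE` at the state before the step `s`, error `(pw Lam j)⁻¹`, for weights living in `PA`,
  `c0 ≥ 10 j + 80`, `L ≤ (2 Lam) ^ (c0 - 8 j - 60)`;
* `LTy` : `L` of `TyB` plus the digit; `LTy_num`;
* `pair_step`, `tripP_step` : the forms needed by `NoS`; `PA_ty`; `pair_0` : the states `5t`, any digits;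
* `NT_run` : the first normalisation, all inputs proved.
-/

set_option autoImplicit false
set_option linter.unusedSectionVars false

namespace Pool.Agent.GMH.TP

open Finset Pool.Agent.PWZ Pool.Agent.M3 Pool.Agent.GM Pool.Agent.GM.Harm Pool.Agent.GMH Pool.Agent.GMH.NZ
open Pool.Agent.GMH.V3

noncomputable section

section run

variable {X β γ φ : Type} [Fintype X] [Fintype β] [Fintype φ] [Nonempty X] [Nonempty β]
variable {D : HD (Fin 3) X β γ φ} {al : ℝ} {h : D.Thick al}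
  {v : ℕ → Finset (Fin 3) → X → (Fin 3 → β) → Pt (Fin 3) X β φ} {dg : ℕ → X → ℝ} {prr : ℕ → Fin 3 → φ → φ} {T : ℕ}
  {Lam : ℝ}

/-- **`PairE` OF THE RUN** -/
theorem pair_run (H : D.Hyp dg prr al T Lam) (hL : 2 ≤ Lam) {A c0 j : ℕ} (hA : 80 ≤ A) (hc : 10 * j + 80 ≤ c0)
    (R : Run h (pr3 (Fin 3) (pw Lam c0) (pw Lam (c1F A c0))) (SS1 (Fin 3)) (AdmDep D) v) {t : ℕ} (ht : t < T)
    (s : Fin 6) {L : ℝ} (hL0 : 0 ≤ L) (hLL : L ≤ (2 * Lam) ^ ((c0 : ℤ) - 8 * j - 60)) {aw : Pt (Fin 3) X β φ → ℝ}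
    (a0 : ∀ u, 0 ≤ aw u) (a1 : ∀ u, aw u ≤ 1)
    (haw : ∀ w, (D.P h t).p w ≠ 0 → aw w ≠ 0 → PA h v (apF Lam A c0) L s t w) :
    PairE h v t (qs s t) aw (pw Lam j)⁻¹ := by
  have hx : (4 : ℝ) ≤ 2 * Lam := by linarith
  have pz : ∀ c : ℕ, pw Lam c = (2 * Lam) ^ (c : ℤ) := fun c => by unfold pw; rw [zpow_natCast]
  have ipz : ∀ c : ℕ, (pw Lam c)⁻¹ = (2 * Lam) ^ (-(c : ℤ)) := fun c => by rw [pz, zpow_neg]
  have hc1 := c1_big (c0 := c0) hA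
  obtain ⟨w1, hw1⟩ := (D.P h t).exists_p_ne
  have : Nonempty φ := ⟨w1.2.2 0⟩
  have hS2 : ∀ l : Fin 3, univ.erase l ∈ SS1 (Fin 3) := fun l => mem_SS1.2 (Finset.erase_ne_self.2 (mem_univ l))
  have hu : univ ∉ SS1 (Fin 3) := fun hh => mem_SS1.1 hh rfl
  have hN2 : ∀ l : Fin 3, 0 < pr3 (Fin 3) (pw Lam c0) (pw Lam (c1F A c0)) (univ.erase l) := fun l =>
    zero_lt_one.trans_le (pr3_one (pw_one hL _) (pw_one hL _) _)
  have hal1' : Real.log (1 / al) ≤ Lam := TT.log_al H h.pos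
  have hal : Real.exp (-Lam) ≤ al := by
    have h1 : Real.exp (-Lam) ≤ Real.exp (-Real.log (1 / al)) := Real.exp_le_exp.2 (neg_le_neg hal1')
    rwa [one_div, Real.log_inv, neg_neg, Real.exp_log h.pos] at h1
  have hal1 : al ≤ 1 := by
    have h1 := sp_Zb_le H R hS2 hu hN2 ht.le (le_refl (5 * t)) 0 hw1
    have h2 := (sp_nonneg (D.P h t) (FQ v t 0) (ZbQ D v (5 * t) 0) hw1).trans h1
    rw [one_div, Real.log_inv] at h2
    by_contra hcon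
    have h3 := Real.log_pos (not_le.1 hcon)
    linarith
  have hdl : (2 * Lam) ^ (-(5 * c1F A c0 : ℤ)) ≤ (apF Lam A c0).dl / 2 := by
    have e : (apF Lam A c0).dl = (2 * Lam) ^ (-((4 * c1F A c0 : ℕ) : ℤ)) := by
      show (pw Lam (4 * c1F A c0))⁻¹ = _
      rw [ipz]
    rw [e, le_div_iff₀ (by norm_num)]
    have h1 := Fn.mul2 hx (by norm_num : (0 : ℝ) ≤ 2) (le_refl ((2 * Lam) ^ (-(5 * c1F A c0 : ℤ))))
      (Fn.cst hx 1 (c := 2) (by norm_num))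
    refine h1.trans (Fn.zle hx ?_)
    push_cast
    omega
  have hdl1 : (apF Lam A c0).dl / 2 ≤ 1 := by
    have : (apF Lam A c0).dl ≤ 1 := by
      show (pw Lam (4 * c1F A c0))⁻¹ ≤ 1
      exact inv_le_one_of_one_le₀ (pw_one hL _)
    linarith
  obtain ⟨a, bb, R0, ep, e, tau, kb, PN⟩ := pair_num (j := j) hL hA hc hal hal1 hdl hdl1 hdl hdl1 hL0 hLL
  rw [ipz]
  exact pair_run0 H hL R ht s PN a0 a1 haw

/-- the level of the own classes with `TyB` -/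
def LTy (Lam : ℝ) (A c0 c : ℕ) : ℝ := pw Lam (c0 - c) + Real.log (1 / (apF Lam A c0).dl)

theorem LTy_nn (hL : 2 ≤ Lam) (A c0 c : ℕ) : 0 ≤ LTy Lam A c0 c := by
  have h1 := pw_one hL (c0 - c)
  have hdl : 0 < (apF Lam A c0).dl := by
    show 0 < (pw Lam (4 * c1F A c0))⁻¹
    exact inv_pos.2 (zero_lt_one.trans_le (pw_one hL _))
  have hdl1 : (apF Lam A c0).dl ≤ 1 := by
    show (pw Lam (4 * c1F A c0))⁻¹ ≤ 1
    exact inv_le_one_of_one_le₀ (pw_one hL _)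
  have h2 : 0 ≤ Real.log (1 / (apF Lam A c0).dl) := Real.log_nonneg ((one_le_div hdl).2 hdl1)
  unfold LTy
  linarith

theorem LTy_num (hL : 2 ≤ Lam) {A c0 c j : ℕ} (hcj : 8 * j + 62 ≤ c) (hc : c ≤ c0) (hn : 4 * c1F A c0 ≤ 4 ^ (c0 - c)) :
    LTy Lam A c0 c ≤ (2 * Lam) ^ ((c0 : ℤ) - 8 * j - 60) := by
  have hx : (4 : ℝ) ≤ 2 * Lam := by linarith
  have hx0 : (0 : ℝ) < 2 * Lam := by linarith
  have pz : ∀ c : ℕ, pw Lam c = (2 * Lam) ^ (c : ℤ) := fun c => by unfold pw; rw [zpow_natCast]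
  have e1 : Real.log (1 / (apF Lam A c0).dl) = ((4 * c1F A c0 : ℕ) : ℝ) * Real.log (2 * Lam) := by
    have e : (apF Lam A c0).dl = (pw Lam (4 * c1F A c0))⁻¹ := rfl
    rw [e, one_div, inv_inv]
    unfold pw
    rw [Real.log_pow]
  have l2 : Real.log (2 * Lam) ≤ 2 * Lam := by
    have := Real.log_le_sub_one_of_pos hx0
    linarith
  have l3 : ((4 * c1F A c0 : ℕ) : ℝ) ≤ (2 * Lam) ^ (((c0 - c : ℕ) : ℤ)) := by
    rw [zpow_natCast]
    refine le_trans ?_ (pow_le_pow_left₀ (by norm_num) hx (c0 - c))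
    exact_mod_cast hn
  have l4 : ((4 * c1F A c0 : ℕ) : ℝ) * Real.log (2 * Lam) ≤ (2 * Lam) ^ ((((c0 - c : ℕ) : ℤ)) + 1) := by
    have h1 : ((4 * c1F A c0 : ℕ) : ℝ) * Real.log (2 * Lam) ≤ ((4 * c1F A c0 : ℕ) : ℝ) * (2 * Lam) :=
      mul_le_mul_of_nonneg_left l2 (Nat.cast_nonneg _)
    exact h1.trans (Fn.mul2 hx hx0.le l3 (by rw [zpow_one]))
  have l5 : pw Lam (c0 - c) ≤ (2 * Lam) ^ ((((c0 - c : ℕ) : ℤ)) + 1) := by
    rw [pz]
    exact Fn.zle hx (by omega)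
  unfold LTy
  rw [e1]
  refine (Fn.add2 hx l5 l4).trans (Fn.zle hx ?_)
  omega

/-- **`PairE` with `TyB`** -/
theorem pair_step (H : D.Hyp dg prr al T Lam) (hL : 2 ≤ Lam) {A c0 c j : ℕ} (hA : 80 ≤ A) (hcj : 8 * j + 62 ≤ c)
    (hcc : c ≤ c0) (hc : 10 * j + 80 ≤ c0) (hn : 4 * c1F A c0 ≤ 4 ^ (c0 - c))
    (R : Run h (pr3 (Fin 3) (pw Lam c0) (pw Lam (c1F A c0))) (SS1 (Fin 3)) (AdmDep D) v) {t : ℕ} (ht : t < T)
    (s : Fin 6) {aw : Pt (Fin 3) X β φ → ℝ} (a0 : ∀ u, 0 ≤ aw u) (a1 : ∀ u, aw u ≤ 1)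
    (haw : ∀ w, (D.P h t).p w ≠ 0 → aw w ≠ 0 → PA h v (apF Lam A c0) (LTy Lam A c0 c) s t w) :
    PairE h v t (qs s t) aw (pw Lam j)⁻¹ :=
  pair_run H hL hA hc R ht s (LTy_nn hL A c0 c) (LTy_num hL hcj hcc hn) a0 a1 haw

/-- alive points of the step with typical public values are in `PA` -/
theorem PA_ty (hL : 2 ≤ Lam) {A c0 c : ℕ} {Gd : ℕ → Pt (Fin 3) X β φ → Prop} {s : Fin 6} {t : ℕ}
    {w : Pt (Fin 3) X β φ} (hw : aT h v (apF Lam A c0) Gd s t w)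
    (hT : s = 3 ∨ s = 4 ∨ s = 5 → ∀ l, TyB h v (pw Lam (c0 - c)) t l w) :
    PA h v (apF Lam A c0) (LTy Lam A c0 c) s t w := by
  refine PA_of ?_ ?_ ?_ hw hT
  · show 0 < (pw Lam (4 * c1F A c0))⁻¹
    exact inv_pos.2 (zero_lt_one.trans_le (pw_one hL _))
  · show (pw Lam (4 * c1F A c0))⁻¹ ≤ 1
    exact inv_le_one_of_one_le₀ (pw_one hL _)
  · exact zero_le_one.trans (pw_one hL _)

/-- **`TripE` with `TyB`** : error and threshold `(pw Lam K)⁻¹`, for weights below the indicator of a part of `PA` -/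
theorem tripP_step (H : D.Hyp dg prr al T Lam) (hL : 2 ≤ Lam) {A c0 c K : ℕ} (hA : 80 ≤ A) (hcj : 16 * K + 110 ≤ c)
    (hcc : c ≤ c0) (hc : 20 * K + 140 ≤ c0) (hn : 4 * c1F A c0 ≤ 4 ^ (c0 - c))
    (R : Run h (pr3 (Fin 3) (pw Lam c0) (pw Lam (c1F A c0))) (SS1 (Fin 3)) (AdmDep D) v) {t : ℕ} (ht : t < T)
    (s : Fin 6) {aw : Pt (Fin 3) X β φ → ℝ}
    (haw : ∀ w, (D.P h t).p w ≠ 0 → aw w ≤ ind (PA h v (apF Lam A c0) (LTy Lam A c0 c) s t w)) :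
    TripE h v t (qs s t) aw (pw Lam K)⁻¹ (pw Lam K)⁻¹ := by
  refine TE.trip_step H hL hA (by omega) R ht s (PA_fac (apF Lam A c0) (LTy Lam A c0 c) s t) (fun w _ hw => hw.1)
    (le_refl (pw Lam (2 * K + 6))⁻¹) ?_ haw
  exact pair_step (j := 2 * K + 6) H hL hA (by omega) hcc (by omega) hn R ht s (fun u => ind_nonneg _) (fun u => ind_le_one _)
    (fun w _ hw => by by_contra hcon; exact hw (ind_not hcon))

/-- **`PairE` at the states `5t`**, any digits -/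
theorem pair_0 (H : D.Hyp dg prr al T Lam) (hL : 2 ≤ Lam) {A c0 j : ℕ} (hA : 80 ≤ A) (hc : 10 * j + 80 ≤ c0)
    (R : Run h (pr3 (Fin 3) (pw Lam c0) (pw Lam (c1F A c0))) (SS1 (Fin 3)) (AdmDep D) v) {t : ℕ} (ht : t < T)
    {aw : Pt (Fin 3) X β φ → ℝ} (a0 : ∀ u, 0 ≤ aw u) (a1 : ∀ u, aw u ≤ 1)
    (haw : ∀ w, (D.P h t).p w ≠ 0 → aw w ≠ 0 → Ar h v (apF Lam A c0) (2 * t) w) :
    PairE h v t (5 * t) aw (pw Lam j)⁻¹ := by
  have hx : (4 : ℝ) ≤ 2 * Lam := by linarith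
  exact pair_run H hL hA hc R ht 0 (le_refl 0) (Fn.zpos hx _).le a0 a1 fun w hw hw' =>
    PA_of0 (le_refl 0) (haw w hw hw')

/-- **THE FIRST NORMALISATION**, all inputs proved -/
theorem NT_run (H : D.Hyp dg prr al T Lam) (hL : 2 ≤ Lam) {A c0 : ℕ} (hA : 80 ≤ A) (hc : 740 ≤ c0)
    (R : Run h (pr3 (Fin 3) (pw Lam c0) (pw Lam (c1F A c0))) (SS1 (Fin 3)) (AdmDep D) v) :
    ∑ t ∈ range T, V3.NT h v dg t (fun w => Ar h v (apF Lam A c0) (2 * t) w ∧ GdQ h v dg t w) ≤ (pw Lam 16)⁻¹ := by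
  have hp : ∀ j, 10 * j + 80 ≤ c0 → ∀ t < T, PairE h v t (5 * t)
      (fun w => ind (Ar h v (apF Lam A c0) (2 * t) w ∧ GdQ h v dg t w)) (pw Lam j)⁻¹ := fun j hj t ht =>
    pair_0 H hL hA hj R ht (fun u => ind_nonneg _) (fun u => ind_le_one _)
      (fun w _ hw => by by_contra hcon; exact hw (ind_not fun h1 => hcon h1.1))
  have h0 : 0 ≤ (pw Lam 30)⁻¹ := inv_nonneg.2 (zero_le_one.trans (pw_one hL _))
  exact NT_sum h H hL hA R h0 h0 le_rfl le_rfl (hp 30 (by omega))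
    (TE.trip_NT (K := 30) H hL hA (by omega) R (le_refl _) (hp 66 (by omega)))

end run

end

end Pool.Agent.GMH.TP
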