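import Pool.Agent.GMH.Key3S

/-!
# GMH/Hot1: one step of the hot potential (helper78, note 4068)

Frame of `GMH/Key3S`: `Z` = all thin letters, `Zb i` = what the top `i` sees, `Y i` and `V` = additions.  `hph t0 x = max (x - t0) 0`,
hot tuples: `t0 < psC`.
* `hph_sub_le` : `hph t0 x - hph t0 y ≤ 1[t0 < x] (x - y)`;
* `rC` : ratio of a letter, `psC_diff` : `lossC` is the difference of the two log densities;
* `hot_step` : for every `g`, the fall of the hot potential is at most `E 1[hot] g` at the true tuple plus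
  `E ∑_(f hot) (p(f) ∏ r_i e^(-g) - p'(f))`;
* `hot_kill` : the hot mass of a relation `X` is at most the real cost of `X`, the rise of the hot tuples off `X`, the hot mass
  which is lost and the rise of the potential.
-/

set_option autoImplicit false
set_option linter.unusedSectionVars false
set_option linter.unusedVariables false

namespace Pool.Agent.GMH

open Finset Pool.Agent.PWZ Pool.Agent.M3

noncomputable section

/-- the hot part -/
def hphi0 (t0 x : ℝ) : ℝ := max (x - t0) 0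

theorem hphi0_nn (t0 x : ℝ) : 0 ≤ hphi0 t0 x := le_max_right _ _

theorem hphi0_sub_le (t0 x y : ℝ) : hphi0 t0 x - hphi0 t0 y ≤ ind (t0 < x) * (x - y) := by
  unfold hphi0
  by_cases h : t0 < x
  · rw [ind_of h, one_mul, max_eq_left (by linarith)]
    have := le_max_left (y - t0) 0
    linarith
  · rw [ind_not h, zero_mul, max_eq_right (by linarith [not_lt.1 h])]
    have := le_max_right (y - t0) 0
    linarith

section hot

variable {Om : Type*} [Fintype Om] (P : FP Om) {I α β γ φ ν : Type*} [Fintype I] [DecidableEq I]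
  {Z : Om → β} {Zb : I → Om → α} (F : I → Om → φ) {Y : I → Om → γ} {V : Om → ν}

variable (Zb Y) in
/-- ratio of a letter -/
def rC (i : I) (w : Om) (x : φ) : ℝ := P.pv (fun u => (Y i u, Zb i u)) (F i) w x / P.pv (Zb i) (F i) w x

theorem rC_nn (i : I) (w : Om) (x : φ) : 0 ≤ rC P Zb F Y i w x := div_nonneg (P.pv_nonneg _ _ _ _) (P.pv_nonneg _ _ _ _)

variable (Z Zb Y V) in
/-- log density after the additions -/
def psC' (w : Om) (f : I → φ) : ℝ := psC P (fun u => (V u, Z u)) (fun i u => (Y i u, Zb i u)) F w f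

/-- the pointwise loss as a difference -/
theorem psC_diff (hZ : ∀ i, Fac Z (Zb i)) (hV : ∀ i, Fac (fun u => (V u, Z u)) (Y i)) {w : Om} (hw : P.p w ≠ 0)
    {f : I → φ} (hf : 0 < P.pv (fun u => (V u, Z u)) (tup F) w f) (hF : f ∈ let_ F) :
    psC P Z Zb F w f - psC' P Z Zb F Y V w f =
      Real.log (P.pv Z (tup F) w f * (∏ i, rC P Zb F Y i w (f i)) / P.pv (fun u => (V u, Z u)) (tup F) w f) := by
  set t := tabC P Z Zb F Y V hZ hV hw with ht
  have hp : 0 < P.pv Z (tup F) w f := by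
    refine lt_of_le_of_ne (P.pv_nonneg _ _ _ _) fun h => hf.ne' ?_
    exact P.pv_ac (Fac.snd _ _) (tup F) h.symm
  have hq' : ∀ i, 0 < P.pv (fun u => (Y i u, Zb i u)) (F i) w (f i) := fun i =>
    lt_of_le_of_ne (P.pv_nonneg _ _ _ _) fun h => hf.ne' (t.acp' f hF i h.symm)
  have hq : ∀ i, 0 < P.pv (Zb i) (F i) w (f i) := fun i =>
    lt_of_le_of_ne (P.pv_nonneg _ _ _ _) fun h => hp.ne' (t.acp f hF i h.symm)
  have e1 : psC' P Z Zb F Y V w f = Real.log (P.pv (fun u => (V u, Z u)) (tup F) w f /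
      ∏ i, P.pv (fun u => (Y i u, Zb i u)) (F i) w (f i)) := rfl
  have hQ : 0 < ∏ i, P.pv (Zb i) (F i) w (f i) := Finset.prod_pos fun i _ => hq i
  have hQ' : 0 < ∏ i, P.pv (fun u => (Y i u, Zb i u)) (F i) w (f i) := Finset.prod_pos fun i _ => hq' i
  rw [e1]
  unfold psC
  rw [← Real.log_div (div_pos hp hQ).ne' (div_pos hf hQ').ne']
  congr 1
  unfold rC
  rw [Finset.prod_div_distrib]
  field_simp

/-- one tuple -/
theorem hot_tup {t0 g ps ps' p p' R : ℝ} (hp' : 0 ≤ p') (hp : 0 ≤ p) (hR : 0 ≤ R)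
    (h : 0 < p' → ps - ps' = Real.log (p * R / p')) (h1 : 0 < p' → 0 < p * R) :
    p' * (hphi0 t0 ps - hphi0 t0 ps') ≤ p' * (ind (t0 < ps) * g) + ind (t0 < ps) * (p * R * Real.exp (-g) - p') := by
  rcases hp'.eq_or_lt with h0 | h0
  · rw [← h0, zero_mul, zero_mul, zero_add, sub_zero]
    exact mul_nonneg (ind_nonneg _) (mul_nonneg (mul_nonneg hp hR) (Real.exp_pos _).le)
  · have h2 := hphi0_sub_le t0 ps ps'
    have h3 := mul_le_mul_of_nonneg_left h2 h0.le
    refine h3.trans ?_
    have h4 : ps - ps' ≤ g + (p * R * Real.exp (-g) / p' - 1) := by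
      rw [h h0]
      have h5 : 0 < p * R * Real.exp (-g) / p' := div_pos (mul_pos (h1 h0) (Real.exp_pos _)) h0
      have h6 := Real.log_le_sub_one_of_pos h5
      have h7 : Real.log (p * R * Real.exp (-g) / p') = Real.log (p * R / p') - g := by
        have e : p * R * Real.exp (-g) / p' = (p * R / p') * Real.exp (-g) := by ring
        rw [e, Real.log_mul (div_pos (h1 h0) h0).ne' (Real.exp_pos _).ne', Real.log_exp]
        ring
      linarith
    have h8 : p' * (ps - ps') ≤ p' * g + (p * R * Real.exp (-g) - p') := by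
      have h9 := mul_le_mul_of_nonneg_left h4 h0.le
      have e : p' * (g + (p * R * Real.exp (-g) / p' - 1)) = p' * g + (p * R * Real.exp (-g) - p') := by
        field_simp
      linarith
    have h10 := mul_le_mul_of_nonneg_left h8 (ind_nonneg (t0 < ps))
    linarith

/-- **ONE STEP OF THE HOT POTENTIAL** -/
theorem hot_step (hZ : ∀ i, Fac Z (Zb i)) (hV : ∀ i, Fac (fun u => (V u, Z u)) (Y i)) (t0 : ℝ) {al : Om → ℝ}
    (hal : Fac (fun u => (V u, Z u)) al) (h0 : ∀ w, 0 ≤ al w) {g : Om → (I → φ) → ℝ}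
    (hg : ∀ f, Fac (fun u => (V u, Z u)) (fun w => g w f)) :
    P.E (fun w => al w * (hphi0 t0 (psC P Z Zb F w (tup F w)) - hphi0 t0 (psC' P Z Zb F Y V w (tup F w)))) ≤
      P.E (fun w => al w * (ind (t0 < psC P Z Zb F w (tup F w)) * g w (tup F w))) +
      P.E (fun w => al w * ∑ f ∈ let_ F, ind (t0 < psC P Z Zb F w f) *
        (P.pv Z (tup F) w f * (∏ i, rC P Zb F Y i w (f i)) * Real.exp (-g w f) -
          P.pv (fun u => (V u, Z u)) (tup F) w f)) := by
  classical
  have f1 : ∀ f, Fac (fun u => (V u, Z u)) (fun w => psC P Z Zb F w f) := fun f =>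
    (Fac.snd _ _).trans (psC_fac P F hZ f)
  have f2 : ∀ f, Fac (fun u => (V u, Z u)) (fun w => psC' P Z Zb F Y V w f) := fun f =>
    psC_fac P F (Z := fun u => (V u, Z u)) (Zb := fun i u => (Y i u, Zb i u))
      (fun i a b hab => by
        have e1 := hV i a b hab
        have e2 : Z a = Z b := (Prod.mk.inj hab).2
        simp only [Prod.mk.injEq]
        exact ⟨e1, hZ i a b e2⟩) f
  have e1 := E_tup P F hal (g := fun w f => hphi0 t0 (psC P Z Zb F w f) - hphi0 t0 (psC' P Z Zb F Y V w f))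
    (fun f a b hab => by
      have g1 : psC P Z Zb F a f = psC P Z Zb F b f := f1 f a b hab
      have g2 : psC' P Z Zb F Y V a f = psC' P Z Zb F Y V b f := f2 f a b hab
      simp only [g1, g2])
  have e2 := E_tup P F hal (g := fun w f => ind (t0 < psC P Z Zb F w f) * g w f)
    (fun f a b hab => by
      have g1 : psC P Z Zb F a f = psC P Z Zb F b f := f1 f a b hab
      have g2 : g a f = g b f := hg f a b hab
      simp only [g1, g2])
  rw [e1, e2, ← P.E_add]
  refine P.E_mono fun w hw => ?_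
  rw [← mul_add, ← Finset.sum_add_distrib]
  refine mul_le_mul_of_nonneg_left ?_ (h0 w)
  refine Finset.sum_le_sum fun f hf => ?_
  set t := tabC P Z Zb F Y V hZ hV hw with ht
  refine hot_tup (P.pv_nonneg _ _ _ _) (P.pv_nonneg _ _ _ _) (Finset.prod_nonneg fun i _ => rC_nn P F i w (f i))
    (fun h1 => psC_diff P F hZ hV hw h1 hf) (fun h1 => ?_)
  have hp : 0 < P.pv Z (tup F) w f := by
    refine lt_of_le_of_ne (P.pv_nonneg _ _ _ _) fun h => h1.ne' ?_
    exact P.pv_ac (Fac.snd _ _) (tup F) h.symm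
  refine mul_pos hp (Finset.prod_pos fun i _ => ?_)
  have hq' : 0 < P.pv (fun u => (Y i u, Zb i u)) (F i) w (f i) :=
    lt_of_le_of_ne (P.pv_nonneg _ _ _ _) fun h => h1.ne' (t.acp' f hf i h.symm)
  have hq : 0 < P.pv (Zb i) (F i) w (f i) :=
    lt_of_le_of_ne (P.pv_nonneg _ _ _ _) fun h => hp.ne' (t.acp f hf i h.symm)
  exact div_pos hq' hq

/-- the hot mass which the additions do not see is constant in the mean -/
theorem hot_mean (hZ : ∀ i, Fac Z (Zb i)) (t0 : ℝ) {al : Om → ℝ} (hal : Fac Z al) :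
    P.E (fun w => al w * ∑ f ∈ let_ F, ind (t0 < psC P Z Zb F w f) * P.pv (fun u => (V u, Z u)) (tup F) w f) =
      P.E (fun w => al w * ∑ f ∈ let_ F, ind (t0 < psC P Z Zb F w f) * P.pv Z (tup F) w f) := by
  classical
  have f1 : ∀ f, Fac Z (fun w => ind (t0 < psC P Z Zb F w f)) := fun f a b hab => by
    have g1 : psC P Z Zb F a f = psC P Z Zb F b f := psC_fac P F hZ f a b hab
    simp only [g1]
  have e1 := E_tup P F (W := Z) hal (g := fun w f => ind (t0 < psC P Z Zb F w f)) f1
  have e2 := E_tup P F (W := fun u => (V u, Z u)) ((Fac.snd _ _).trans hal)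
    (g := fun w f => ind (t0 < psC P Z Zb F w f)) (fun f => (Fac.snd _ _).trans (f1 f))
  have c : ∀ (W : Om → ℝ) (p : Om → (I → φ) → ℝ), P.E (fun w => W w * ∑ f ∈ let_ F, ind (t0 < psC P Z Zb F w f) * p w f) =
      P.E (fun w => W w * ∑ f ∈ let_ F, p w f * ind (t0 < psC P Z Zb F w f)) := fun W p => by
    refine P.E_congr fun w _ => ?_
    congr 1
    exact Finset.sum_congr rfl fun f _ => mul_comm _ _
  rw [c, c, ← e1, ← e2]

variable (Zb Y) in
/-- cost of a tuple of the relation -/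
def gX (X : Om → (I → φ) → Prop) (w : Om) (f : I → φ) : ℝ :=
  ind (X w f) * (max (Real.log (∏ i, rC P Zb F Y i w (f i))) 0 + 1)

theorem gX_le (X : Om → (I → φ) → Prop) {w : Om} {f : I → φ} (h : X w f) :
    (∏ i, rC P Zb F Y i w (f i)) * Real.exp (-gX P Zb F Y X w f) ≤ Real.exp (-1) := by
  have hR : 0 ≤ ∏ i, rC P Zb F Y i w (f i) := Finset.prod_nonneg fun i _ => rC_nn P F i w (f i)
  have e : Real.exp (-gX P Zb F Y X w f) =
      Real.exp (-max (Real.log (∏ i, rC P Zb F Y i w (f i))) 0) * Real.exp (-1) := by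
    rw [← Real.exp_add]
    congr 1
    unfold gX
    rw [ind_of h]
    ring
  rw [e, ← mul_assoc]
  refine mul_le_of_le_one_left (Real.exp_pos _).le ?_
  rcases hR.eq_or_lt with h0 | h0
  · rw [← h0, zero_mul]
    exact zero_le_one
  · have h1 : (∏ i, rC P Zb F Y i w (f i)) = Real.exp (Real.log (∏ i, rC P Zb F Y i w (f i))) := (Real.exp_log h0).symm
    rw [h1, Real.log_exp, ← Real.exp_add, Real.exp_le_one_iff]
    have := le_max_left (Real.log (∏ i, rC P Zb F Y i w (f i))) 0
    linarith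

/-- **HOT MASS OF A RELATION `X` IN ONE STEP** : at most the real cost of `X`, the rise of the potential, the rise of the hot
tuples off `X` and the hot mass which is lost -/
theorem hot_kill (hZ : ∀ i, Fac Z (Zb i)) (hV : ∀ i, Fac (fun u => (V u, Z u)) (Y i)) (t0 : ℝ) {al : Om → ℝ}
    (hal : Fac (fun u => (V u, Z u)) al) (h0 : ∀ w, 0 ≤ al w) {X : Om → (I → φ) → Prop}
    (hX : ∀ f, Fac (fun u => (V u, Z u)) (fun w => X w f)) :
    (1 - Real.exp (-1)) * P.E (fun w => al w * ∑ f ∈ let_ F, ind (t0 < psC P Z Zb F w f ∧ X w f) *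
        P.pv Z (tup F) w f) ≤
      P.E (fun w => al w * (hphi0 t0 (psC' P Z Zb F Y V w (tup F w)) - hphi0 t0 (psC P Z Zb F w (tup F w)))) +
      P.E (fun w => al w * (ind (t0 < psC P Z Zb F w (tup F w) ∧ X w (tup F w)) *
        (max (Real.log (∏ i, rC P Zb F Y i w (F i w))) 0 + 1))) +
      P.E (fun w => al w * ∑ f ∈ let_ F, ind (t0 < psC P Z Zb F w f ∧ ¬ X w f) *
        (P.pv Z (tup F) w f * (∏ i, rC P Zb F Y i w (f i) - 1))) +
      P.E (fun w => al w * ∑ f ∈ let_ F, ind (t0 < psC P Z Zb F w f) *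
        (P.pv Z (tup F) w f - P.pv (fun u => (V u, Z u)) (tup F) w f)) := by
  classical
  have fr : ∀ i x, Fac (fun u => (V u, Z u)) (fun w => rC P Zb F Y i w x) := by
    intro i x a b hab
    have e1 := hV i a b hab
    have e2 : Z a = Z b := (Prod.mk.inj hab).2
    have g1 : P.pv (fun u => (Y i u, Zb i u)) (F i) a x = P.pv (fun u => (Y i u, Zb i u)) (F i) b x :=
      P.pv_fac _ _ _ a b (by simp only [Prod.mk.injEq]; exact ⟨e1, hZ i a b e2⟩)
    have g2 : P.pv (Zb i) (F i) a x = P.pv (Zb i) (F i) b x := P.pv_fac _ _ _ a b (hZ i a b e2)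
    show rC P Zb F Y i a x = rC P Zb F Y i b x
    unfold rC
    rw [g1, g2]
  have fg : ∀ f, Fac (fun u => (V u, Z u)) (fun w => gX P Zb F Y X w f) := by
    intro f a b hab
    have g1 : ∀ i, rC P Zb F Y i a (f i) = rC P Zb F Y i b (f i) := fun i => fr i (f i) a b hab
    have g2 : X a f = X b f := hX f a b hab
    show gX P Zb F Y X a f = gX P Zb F Y X b f
    unfold gX
    simp only [g1, g2]
  have k := hot_step P F hZ hV t0 hal h0 (g := fun w f => gX P Zb F Y X w f) fg
  have e1 : P.E (fun w => al w * (ind (t0 < psC P Z Zb F w (tup F w)) * gX P Zb F Y X w (tup F w))) =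
      P.E (fun w => al w * (ind (t0 < psC P Z Zb F w (tup F w) ∧ X w (tup F w)) *
        (max (Real.log (∏ i, rC P Zb F Y i w (F i w))) 0 + 1))) := by
    refine P.E_congr fun w _ => ?_
    rw [ind_and]
    unfold gX
    have e : ∀ i, tup F w i = F i w := fun _ => rfl
    simp only [e]
    ring
  have e2 : P.E (fun w => al w * ∑ f ∈ let_ F, ind (t0 < psC P Z Zb F w f) *
        (P.pv Z (tup F) w f * (∏ i, rC P Zb F Y i w (f i)) * Real.exp (-gX P Zb F Y X w f) -
          P.pv (fun u => (V u, Z u)) (tup F) w f)) ≤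
      -((1 - Real.exp (-1)) * P.E (fun w => al w * ∑ f ∈ let_ F, ind (t0 < psC P Z Zb F w f ∧ X w f) *
        P.pv Z (tup F) w f)) +
      P.E (fun w => al w * ∑ f ∈ let_ F, ind (t0 < psC P Z Zb F w f ∧ ¬ X w f) *
        (P.pv Z (tup F) w f * (∏ i, rC P Zb F Y i w (f i) - 1))) +
      P.E (fun w => al w * ∑ f ∈ let_ F, ind (t0 < psC P Z Zb F w f) *
        (P.pv Z (tup F) w f - P.pv (fun u => (V u, Z u)) (tup F) w f)) := by
    rw [← P.E_smul, ← P.E_neg, ← P.E_add, ← P.E_add]
    refine P.E_mono fun w hw => ?_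
    have e3 : ∀ a b c : ℝ, -((1 - Real.exp (-1)) * (al w * a)) + al w * b + al w * c =
        al w * (-((1 - Real.exp (-1)) * a) + b + c) := fun a b c => by ring
    rw [e3]
    refine mul_le_mul_of_nonneg_left ?_ (h0 w)
    rw [Finset.mul_sum, ← Finset.sum_neg_distrib, ← Finset.sum_add_distrib, ← Finset.sum_add_distrib]
    refine Finset.sum_le_sum fun f _ => ?_
    have hp := P.pv_nonneg Z (tup F) w f
    by_cases hh : t0 < psC P Z Zb F w f
    · by_cases hx : X w f
      · rw [ind_of hh, ind_of (show t0 < psC P Z Zb F w f ∧ X w f from ⟨hh, hx⟩),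
          ind_not (show ¬ (t0 < psC P Z Zb F w f ∧ ¬ X w f) from fun h => h.2 hx)]
        have h1 := mul_le_mul_of_nonneg_left (gX_le P F (Zb := Zb) (Y := Y) X hx) hp
        have e4 : P.pv Z (tup F) w f * ((∏ i, rC P Zb F Y i w (f i)) * Real.exp (-gX P Zb F Y X w f)) =
            P.pv Z (tup F) w f * (∏ i, rC P Zb F Y i w (f i)) * Real.exp (-gX P Zb F Y X w f) := by ring
        rw [e4] at h1
        linarith
      · rw [ind_of hh, ind_not (show ¬ (t0 < psC P Z Zb F w f ∧ X w f) from fun h => hx h.2),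
          ind_of (show t0 < psC P Z Zb F w f ∧ ¬ X w f from ⟨hh, hx⟩)]
        have e5 : gX P Zb F Y X w f = 0 := by
          unfold gX
          rw [ind_not hx, zero_mul]
        rw [e5, neg_zero, Real.exp_zero]
        linarith
    · rw [ind_not hh, ind_not (show ¬ (t0 < psC P Z Zb F w f ∧ X w f) from fun h => hh h.1),
        ind_not (show ¬ (t0 < psC P Z Zb F w f ∧ ¬ X w f) from fun h => hh h.1)]
      linarith
  have e6 : P.E (fun w => al w * (hphi0 t0 (psC' P Z Zb F Y V w (tup F w)) - hphi0 t0 (psC P Z Zb F w (tup F w)))) =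
      -P.E (fun w => al w * (hphi0 t0 (psC P Z Zb F w (tup F w)) - hphi0 t0 (psC' P Z Zb F Y V w (tup F w)))) := by
    rw [← P.E_neg]
    exact P.E_congr fun w _ => by ring
  rw [e1] at k
  rw [e6]
  linarith

end hot

end

end Pool.Agent.GMH
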