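import Pool.Agent.GMH.TopEq

/-!
# GMH/TopStep: the six steps of one time of the top level (helper11)

Steps `s : Fin 6` of the time `t` (states of `GMH/TopDef`), all with the law and the tops of the time `t`:
`0` digit (`5t → 5t+1`, alive and not `Gd`), `1` joint step (`5t+1 → 5t+5`, light public value), `2` public code
(`5t+1 → 5t+2`, heavy public value), `3, 4` nothing, `5` the private codes of the three vertices together (`5t+4 → 5t+5`,
heavy public value; the states `5t+2`, `5t+3`, `5t+4` are equal).  All steps with all three tops (4052 (1) of helper84).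
* `qs`, `qe`, `aS`, `lossS`, `step_sum` : the codes and the digit of one time are the six steps;
* `ZQ_mid`, `ZbQ_mid`, `NPq_mid`, `XLq_mid`, `loss_34` : the states `5t+2`, `5t+3`, `5t+4`; `drop_le` : a letter without own
  addition drops out in the mean (not used for the steps);
* continued in `GMH/TopKin` (Lemma S with kinds at the steps).
-/

set_option autoImplicit false
set_option linter.unusedSectionVars false

namespace Pool.Agent.GMH.TP

open Finset Pool.Agent.PWZ Pool.Agent.M3 Pool.Agent.GM Pool.Agent.GM.Harm Pool.Agent.GMH Pool.Agent.GMH.NZ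
open Pool.Agent.GMH.V3

noncomputable section

/-! ### an inert letter drops out -/

section gen

variable {Om : Type*} [Fintype Om] (P : FP Om) {I α β' γ' φ' ν : Type*} [Fintype I] [DecidableEq I]
  {Z : Om → β'} {Zb : I → Om → α} (F : I → Om → φ') {Y : I → Om → γ'} {V : Om → ν}

theorem mul_log_ge {p q : ℝ} (hp : 0 ≤ p) (hq : 0 ≤ q) (hac : q = 0 → p = 0) : p - q ≤ p * Real.log (p / q) := by
  rcases hp.eq_or_lt with h0 | h0
  · rw [← h0, zero_mul]; linarith
  · have hq0 : 0 < q := lt_of_le_of_ne hq fun h => h0.ne' (hac h.symm)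
    have h1 := Real.one_sub_inv_le_log_of_pos (div_pos h0 hq0)
    have h2 := mul_le_mul_of_nonneg_left h1 hp
    have h3 : p * (1 - (p / q)⁻¹) = p - q := by
      field_simp
    linarith

omit [Fintype I] [DecidableEq I] in
theorem sp_unit {ι : Type*} (X : Om → φ') (C : Om → ι) (w : Om) : sp P (tup fun _ : Unit => X) C w = sp P X C w :=
  sp_congr P (fun a b hab => by
      simp only [Prod.mk.injEq] at hab
      exact congrFun hab.1 ()) (Fac.refl C)
    (fun a b hab => by
      simp only [Prod.mk.injEq] at hab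
      exact funext fun _ => hab.1) (Fac.refl C) w

/-- conditional informations decrease in the mean, also with a weight seen by the finer information -/
theorem E_sp_drop {A : Om → α} {B : Om → β'} (hBA : Fac B A) (X : Om → φ') {al : Om → ℝ} (hal : Fac B al)
    (h0 : ∀ w, 0 ≤ al w) : 0 ≤ P.E (fun w => al w * (sp P X A w - sp P X B w)) := by
  classical
  have e1 : P.E (fun w => al w * (sp P X A w - sp P X B w)) = P.E (fun w => al w *
      Real.log (P.pv B (tup fun _ : Unit => X) w (tup (fun _ : Unit => X) w) /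
        P.pv A (tup fun _ : Unit => X) w (tup (fun _ : Unit => X) w))) := by
    refine P.E_congr fun w hw => ?_
    rw [log_ratio_sp P (A := A) (A' := B) (X := tup fun _ : Unit => X) hw]
    rw [sp_unit, sp_unit]
  have hg : ∀ f, Fac B (fun w => Real.log (P.pv B (tup fun _ : Unit => X) w f / P.pv A (tup fun _ : Unit => X) w f)) := by
    intro f a b hab
    have g1 : P.pv B (tup fun _ : Unit => X) a f = P.pv B (tup fun _ : Unit => X) b f := P.pv_fac _ _ _ a b hab
    have g2 : P.pv A (tup fun _ : Unit => X) a f = P.pv A (tup fun _ : Unit => X) b f :=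
      P.pv_fac _ _ _ a b (hBA a b hab)
    show Real.log _ = Real.log _
    rw [g1, g2]
  rw [e1, E_tup P (fun _ : Unit => X) hal
    (g := fun w f => Real.log (P.pv B (tup fun _ : Unit => X) w f / P.pv A (tup fun _ : Unit => X) w f)) hg]
  refine P.E_nonneg fun w hw => mul_nonneg (h0 w) ?_
  have s1 : ∑ f ∈ let_ (fun _ : Unit => X), P.pv B (tup fun _ : Unit => X) w f = 1 := by
    have h := sum_tup P (W := B) (fun _ : Unit => X) (F := fun _ _ => 1) (fun _ _ _ _ => rfl) w
    simp only [mul_one] at h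
    rw [P.ce_const _ 1 hw] at h
    exact h
  have s2 : ∑ f ∈ let_ (fun _ : Unit => X), P.pv A (tup fun _ : Unit => X) w f = 1 := by
    have h := sum_tup P (W := A) (fun _ : Unit => X) (F := fun _ _ => 1) (fun _ _ _ _ => rfl) w
    simp only [mul_one] at h
    rw [P.ce_const _ 1 hw] at h
    exact h
  have s3 : ∑ f ∈ let_ (fun _ : Unit => X), (P.pv B (tup fun _ : Unit => X) w f - P.pv A (tup fun _ : Unit => X) w f) ≤
      ∑ f ∈ let_ (fun _ : Unit => X), P.pv B (tup fun _ : Unit => X) w f *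
        Real.log (P.pv B (tup fun _ : Unit => X) w f / P.pv A (tup fun _ : Unit => X) w f) :=
    Finset.sum_le_sum fun f _ => mul_log_ge (P.pv_nonneg _ _ _ _) (P.pv_nonneg _ _ _ _)
      fun h => P.pv_ac hBA (tup fun _ : Unit => X) h
  rw [Finset.sum_sub_distrib, s1, s2] at s3
  linarith

/-- **a letter without own addition drops out** -/
theorem drop_le (hZ : ∀ i, Fac Z (Zb i)) (i0 : I) (hY : Fac (Zb i0) (Y i0)) {al : Om → ℝ}
    (hal : Fac (fun u => (V u, Z u)) al) (h0 : ∀ w, 0 ≤ al w) :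
    P.E (fun w => al w * lossC P Z Zb F Y V w) ≤ P.E (fun w => al w * lossC P Z Zb (Fo F i0) Y V w) := by
  have h1 := E_sp_drop P (A := fun u => (tup (Fo F i0) u, Z u)) (B := fun u => (V u, (tup (Fo F i0) u, Z u)))
    (Fac.snd _ _) (F i0) (al := al) (fun a b hab => by
      simp only [Prod.mk.injEq] at hab
      exact hal a b (by simp only [Prod.mk.injEq]; exact ⟨hab.1, hab.2.2⟩)) h0
  have e : P.E (fun w => al w * lossC P Z Zb F Y V w) = P.E (fun w => al w * lossC P Z Zb (Fo F i0) Y V w) -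
      P.E (fun w => al w * (sp P (F i0) (fun u => (tup (Fo F i0) u, Z u)) w -
        sp P (F i0) (fun u => (V u, (tup (Fo F i0) u, Z u))) w)) := by
    rw [← P.E_sub]
    refine P.E_congr fun w hw => ?_
    rw [lossC_split P F i0 hw, lossC_sp P (fun _ : Unit => F i0) hw]
    have k1 : sp P (F i0) (fun u => (Y i0 u, Zb i0 u)) w = sp P (F i0) (Zb i0) w :=
      sp_congr P (Fac.fst _ _) (Fac.snd _ _) (Fac.fst _ _)
        (fun a b hab => by simp only [Prod.mk.injEq]; exact ⟨hY a b hab, hab⟩) w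
    simp only [Finset.univ_unique, Finset.sum_singleton]
    rw [k1, sp_unit, sp_unit]
    ring
  linarith

omit [Fintype I] [DecidableEq I] in
theorem sp_name {φ'' ι : Type*} {G : I → Om → φ''} (h1 : ∀ i, Fac (F i) (G i)) (h2 : ∀ i, Fac (G i) (F i)) (i : I)
    (C : Om → ι) (w : Om) : sp P (F i) C w = sp P (G i) C w :=
  sp_congr P (fun a b hab => by simp only [Prod.mk.injEq] at hab; exact h1 i a b hab.1) (Fac.refl C)
    (fun a b hab => by simp only [Prod.mk.injEq] at hab; exact h2 i a b hab.1) (Fac.refl C) w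

omit [Fintype I] [DecidableEq I] in
theorem sp_tname {φ'' ι : Type*} {G : I → Om → φ''} (h1 : ∀ i, Fac (F i) (G i)) (h2 : ∀ i, Fac (G i) (F i))
    (C : Om → ι) (w : Om) : sp P (tup F) C w = sp P (tup G) C w :=
  sp_congr P (fun a b hab => by
      simp only [Prod.mk.injEq] at hab
      exact funext fun i => h1 i a b (congrFun hab.1 i)) (Fac.refl C)
    (fun a b hab => by
      simp only [Prod.mk.injEq] at hab
      exact funext fun i => h2 i a b (congrFun hab.1 i)) (Fac.refl C) w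

/-- the loss does not see the names of the letters -/
theorem lossC_name {φ'' : Type*} {G : I → Om → φ''} (h1 : ∀ i, Fac (F i) (G i)) (h2 : ∀ i, Fac (G i) (F i)) {w : Om}
    (hw : P.p w ≠ 0) : lossC P Z Zb F Y V w = lossC P Z Zb G Y V w := by
  rw [lossC_sp P F hw, lossC_sp P G hw, sp_tname P F h1 h2, sp_tname P F h1 h2]
  congr 1
  exact Finset.sum_congr rfl fun i _ => by rw [sp_name P F h1 h2, sp_name P F h1 h2]

end gen

/-! ### the six steps -/

/-- state before the step -/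
def qs (s : Fin 6) (t : ℕ) : ℕ := ![5 * t, 5 * t + 1, 5 * t + 1, 5 * t + 2, 5 * t + 3, 5 * t + 4] s

/-- state after the step -/
def qe (s : Fin 6) (t : ℕ) : ℕ := ![5 * t + 1, 5 * t + 5, 5 * t + 2, 5 * t + 3, 5 * t + 4, 5 * t + 5] s

theorem qs_le_qe (s : Fin 6) (t : ℕ) : qs s t ≤ qe s t := by
  fin_cases s <;> simp [qs, qe]

theorem nn_qs (s : Fin 6) (t : ℕ) : t ≤ nn (qs s t) := by
  have h1 : 5 * t ≤ qs s t := by fin_cases s <;> simp [qs] <;> omega
  have h2 := nn_mono h1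
  rw [nn_0] at h2
  exact h2

section hd

variable {X β γ φ υ : Type} [Fintype X] [Fintype β] [Fintype φ] [Nonempty X] [Nonempty β]
variable {D : HD (Fin 3) X β γ φ} {al : ℝ} (h : D.Thick al) (v : ℕ → Finset (Fin 3) → X → (Fin 3 → β) → υ)

/-- heavy public value of the code of the time `t` -/
def HV (t : ℕ) (w : Pt (Fin 3) X β φ) : Prop :=
  (D.P h t).m (NPq D v (5 * t + 1)) w ≤ 2 * (D.P h t).m (NPq D v (5 * t + 2)) w

/-- the alive points of the step -/
def aS (p : AP) (Gd : ℕ → Pt (Fin 3) X β φ → Prop) (s : Fin 6) (t : ℕ) (w : Pt (Fin 3) X β φ) : Prop :=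
  ![Ar h v p (2 * t) w ∧ ¬ Gd t w, Ar h v p (2 * t + 1) w ∧ ¬ HV h v t w, Ar h v p (2 * t + 1) w ∧ HV h v t w,
    Ar h v p (2 * t + 1) w ∧ HV h v t w, Ar h v p (2 * t + 1) w ∧ HV h v t w, Ar h v p (2 * t + 1) w ∧ HV h v t w] s

/-- the loss of the step, all three tops -/
def lossS (s : Fin 6) (t : ℕ) (w : Pt (Fin 3) X β φ) : ℝ :=
  lossC (D.P h t) (ZQ D v (qs s t)) (ZbQ D v (qs s t)) (FQ v t) (ZbQ D v (qe s t)) (ZQ D v (qe s t)) w

variable {v}

theorem NPq_mono {q q' : ℕ} (hq : q ≤ q') : Fac (NPq (φ := φ) D v q') (NPq D v q) := by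
  intro a b hab
  unfold NPq NP at hab ⊢
  simp only [Prod.mk.injEq] at hab ⊢
  refine ⟨?_, nd_mono' (nn_mono hq) a b hab.2⟩
  have h1 := nc_mono hq (J := ∅) (by unfold pth; simp)
  unfold Um at hab ⊢
  rw [List.map_inj_left] at hab ⊢
  exact fun r hr => hab.1 r (List.mem_range.2 (by have := List.mem_range.1 hr; omega))

theorem ZQ_NPq (q : ℕ) : Fac (ZQ (φ := φ) D v q) (NPq D v q) := by
  intro a b hab
  unfold ZQ WW at hab
  unfold NPq NP
  simp only [Prod.mk.injEq] at hab ⊢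
  have h1 := congrFun hab.1 ⟨∅, by unfold pth; simp⟩
  have h2 : LL (φ := φ) (Um v (nc q ∅)) ∅ a = LL (Um v (nc q ∅)) ∅ b := h1
  exact ⟨(LL_eq.1 h2).1, hab.2.2⟩

/-- heavy values are seen after the public code -/
theorem HV_fac (t : ℕ) : Fac (ZQ (φ := φ) D v (5 * t + 2)) (HV h v t) := by
  intro a b hab
  have h2 := ZQ_NPq (φ := φ) (D := D) (v := v) (5 * t + 2) a b hab
  have h1 := NPq_mono (φ := φ) (D := D) (v := v) (show 5 * t + 1 ≤ 5 * t + 2 by omega) a b h2
  show HV h v t a = HV h v t b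
  unfold HV
  have e1 : (D.P h t).m (NPq D v (5 * t + 1)) a = (D.P h t).m (NPq D v (5 * t + 1)) b := by
    unfold FP.m
    rw [h1]
  have e2 : (D.P h t).m (NPq D v (5 * t + 2)) a = (D.P h t).m (NPq D v (5 * t + 2)) b := by
    unfold FP.m
    rw [h2]
  rw [e1, e2]

theorem Ar0_fac (p : AP) (t : ℕ) : Fac (ZQ (φ := φ) D v (5 * t)) (Ar h v p (2 * t)) := fun a b hab => by
  rw [ZQ_0] at hab
  exact propext (Ar_fac h p (TH_of_all (s := t + 1) (n := t) (by unfold tm; omega) (by unfold nt; omega) hab))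

theorem Ar1_fac (p : AP) (t : ℕ) : Fac (ZQ (φ := φ) D v (5 * t + 1)) (Ar h v p (2 * t + 1)) := fun a b hab => by
  rw [ZQ_1] at hab
  exact propext (Ar_fac h p (TH_of_all (s := t + 1) (n := t + 1) (by unfold tm; omega) (by unfold nt; omega) hab))

/-- the alive set of the step is seen after the step -/
theorem aS_fac (p : AP) {Gd : ℕ → Pt (Fin 3) X β φ → Prop} {t : ℕ} (fG : Fac (ZT D v (t + 1) t) (Gd t)) (s : Fin 6) :
    Fac (fun w : Pt (Fin 3) X β φ => (ZQ D v (qe s t) w, ZQ D v (qs s t) w)) (aS h v p Gd s t) := by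
  intro a b hab
  have fG' : Fac (ZQ (φ := φ) D v (5 * t)) (Gd t) := by rw [ZQ_0]; exact fG
  simp only [Prod.mk.injEq] at hab
  have r1 : Ar h v p (2 * t + 1) a = Ar h v p (2 * t + 1) b ∨ s = 0 := by
    by_cases hs : s = 0
    · exact Or.inr hs
    · left
      refine Ar1_fac h p t a b (ZQ_mono (show 5 * t + 1 ≤ qs s t by
        fin_cases s <;> first | exact absurd rfl hs | (simp [qs])) a b hab.2)
  have r2 : HV h v t a = HV h v t b ∨ s = 0 := by
    by_cases hs : s = 0
    · exact Or.inr hs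
    · left
      refine HV_fac h t a b (ZQ_mono (show 5 * t + 2 ≤ qe s t by
        fin_cases s <;> first | exact absurd rfl hs | (simp [qe])) a b hab.1)
  fin_cases s
  · have e1 : Ar h v p (2 * t) a = Ar h v p (2 * t) b := Ar0_fac h p t a b hab.2
    have e2 : Gd t a = Gd t b := fG' a b hab.2
    show (Ar h v p (2 * t) a ∧ ¬ Gd t a) = (Ar h v p (2 * t) b ∧ ¬ Gd t b)
    rw [e1, e2]
  all_goals
    rcases r1 with r1 | r1
    · rcases r2 with r2 | r2
      · show (_ ∧ _) = (_ ∧ _)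
        rw [r1, r2]
      · exact absurd r2 (by decide)
    · exact absurd r1 (by decide)

/-! ### the states `5 t + 2`, `5 t + 3`, `5 t + 4` are equal -/

theorem nc_mid (t : ℕ) {j : ℕ} (h2 : 2 ≤ j) (h4 : j ≤ 4) {J : Finset (Fin 3)} (hJ : pth J) :
    nc (5 * t + j) J = nc (5 * t + 2) J := by
  rw [nc_add t j hJ (by omega), nc_add t 2 hJ (by omega)]
  unfold ncj
  have key : ∀ J : Finset (Fin 3), rk J = 1 ∨ 4 ≤ rk J := by decide
  rcases key J with hr | hr
  · rw [if_pos (by omega), if_pos (by omega)]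
  · rw [if_neg (by omega), if_neg (by omega)]

theorem nn_mid (t : ℕ) {j : ℕ} (h2 : 2 ≤ j) (h4 : j ≤ 4) : nn (5 * t + j) = nn (5 * t + 2) := by
  rw [nn_add t j (by omega), nn_add t 2 (by omega)]
  unfold nnj
  rw [if_neg (by omega), if_neg (by omega)]

omit [Nonempty X] [Nonempty β] in
theorem SL_mid (t : ℕ) {j : ℕ} (h2 : 2 ≤ j) (h4 : j ≤ 4) {J : Finset (Fin 3)} (hJ : pth J) :
    SL (φ := φ) v (5 * t + j) J = SL v (5 * t + 2) J := by
  unfold SL
  rw [nc_mid t h2 h4 hJ]

omit [Nonempty X] [Nonempty β] in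
theorem ZQ_mid (t : ℕ) {j : ℕ} (h2 : 2 ≤ j) (h4 : j ≤ 4) : ZQ (φ := φ) D v (5 * t + j) = ZQ D v (5 * t + 2) := by
  funext w
  unfold ZQ
  rw [nn_mid t h2 h4]
  refine Prod.ext (funext fun J => ?_) rfl
  show SL v (5 * t + j) J.1 w = SL v (5 * t + 2) J.1 w
  rw [SL_mid t h2 h4 J.2]

omit [Nonempty X] [Nonempty β] in
theorem ZbQ_mid (t : ℕ) {j : ℕ} (h2 : 2 ≤ j) (h4 : j ≤ 4) (i : Fin 3) :
    ZbQ (φ := φ) D v (5 * t + j) i = ZbQ D v (5 * t + 2) i := by
  funext w
  unfold ZbQ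
  rw [nn_mid t h2 h4]
  refine Prod.ext (funext fun I => ?_) rfl
  show lo (SL v (5 * t + j)) (univ.erase i) w I = lo (SL v (5 * t + 2)) (univ.erase i) w I
  unfold lo
  by_cases hI : I ⊂ univ.erase i
  · rw [if_pos hI, if_pos hI, SL_mid t h2 h4 (lt_pth card3 (ne_univ i) hI)]
  · rw [if_neg hI, if_neg hI]

omit [Nonempty X] [Nonempty β] in
theorem NPq_mid (t : ℕ) {j : ℕ} (h2 : 2 ≤ j) (h4 : j ≤ 4) : NPq (φ := φ) D v (5 * t + j) = NPq D v (5 * t + 2) := by
  unfold NPq
  rw [nn_mid t h2 h4, nc_mid t h2 h4 (by unfold pth; simp)]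

omit [Nonempty X] [Nonempty β] in
theorem XLq_mid (t : ℕ) {j : ℕ} (h2 : 2 ≤ j) (h4 : j ≤ 4) (i : Fin 3) :
    XLq (φ := φ) v (5 * t + j) i = XLq v (5 * t + 2) i := by
  unfold XLq
  rw [nc_mid t h2 h4 (by unfold pth; simp)]

/-- **the steps `3` and `4` cost nothing** -/
theorem loss_34 {s : Fin 6} (hs : s = 3 ∨ s = 4) (t : ℕ) {w : Pt (Fin 3) X β φ} (hw : (D.P h t).p w ≠ 0) :
    lossS h v s t w = 0 := by
  have key : ∀ q q' : ℕ, q ≤ q' → ZQ (φ := φ) D v q' = ZQ D v q → (∀ i, ZbQ (φ := φ) D v q' i = ZbQ D v q i) →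
      lsQ v h t q q' w = 0 := fun q q' hq e1 e2 => by
    rw [lsQ_eq h hq hw]
    unfold iQ
    simp only [e1, e2, sub_self]
  rcases hs with rfl | rfl
  · exact key (5 * t + 2) (5 * t + 3) (by omega) (ZQ_mid t (by omega) (by omega))
      (fun i => ZbQ_mid t (by omega) (by omega) i)
  · exact key (5 * t + 3) (5 * t + 4) (by omega)
      ((ZQ_mid t (by omega) (by omega)).trans (ZQ_mid t (j := 3) (by omega) (by omega)).symm)
      (fun i => (ZbQ_mid t (by omega) (by omega) i).trans (ZbQ_mid t (j := 3) (by omega) (by omega) i).symm)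

/-- **ONE TIME** : the codes and the digit are the six steps -/
theorem step_sum {dg : ℕ → X → ℝ} {prr : ℕ → Fin 3 → φ → φ} {T : ℕ} {Lam : ℝ} (H : D.Hyp dg prr al T Lam)
    (hv : Codes D v) {t : ℕ} (ht : t < T) (p : AP) (Gd : ℕ → Pt (Fin 3) X β φ → Prop) :
    V3.LT h v t (Ar h v p (2 * t + 1)) + DT h v dg t (fun w => Ar h v p (2 * t) w ∧ ¬ Gd t w) =
      ∑ s, (D.P h t).E (fun w => ind (aS h v p Gd s t w) * lossS h v s t w) := by
  classical
  rw [LT_eq h t, DT_eq h H hv ht]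
  have e1 : (D.P h t).E (fun w => ind (Ar h v p (2 * t + 1) w) * lsQ v h t (5 * t + 1) (5 * t + 5) w) =
      (D.P h t).E (fun w => ind (Ar h v p (2 * t + 1) w ∧ ¬ HV h v t w) * lsQ v h t (5 * t + 1) (5 * t + 5) w) +
      ((D.P h t).E (fun w => ind (Ar h v p (2 * t + 1) w ∧ HV h v t w) * lsQ v h t (5 * t + 1) (5 * t + 2) w) +
      ((D.P h t).E (fun w => ind (Ar h v p (2 * t + 1) w ∧ HV h v t w) * lsQ v h t (5 * t + 2) (5 * t + 3) w) +
      ((D.P h t).E (fun w => ind (Ar h v p (2 * t + 1) w ∧ HV h v t w) * lsQ v h t (5 * t + 3) (5 * t + 4) w) +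
      (D.P h t).E (fun w => ind (Ar h v p (2 * t + 1) w ∧ HV h v t w) * lsQ v h t (5 * t + 4) (5 * t + 5) w)))) := by
    rw [← (D.P h t).E_add, ← (D.P h t).E_add, ← (D.P h t).E_add, ← (D.P h t).E_add]
    refine (D.P h t).E_congr fun w hw => ?_
    have k1 := lsQ_add h (v := v) (t := t) (show 5 * t + 1 ≤ 5 * t + 2 by omega) (show 5 * t + 2 ≤ 5 * t + 5 by omega) hw
    have k2 := lsQ_add h (v := v) (t := t) (show 5 * t + 2 ≤ 5 * t + 3 by omega) (show 5 * t + 3 ≤ 5 * t + 5 by omega) hw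
    have k3 := lsQ_add h (v := v) (t := t) (show 5 * t + 3 ≤ 5 * t + 4 by omega) (show 5 * t + 4 ≤ 5 * t + 5 by omega) hw
    by_cases hA : Ar h v p (2 * t + 1) w
    · by_cases hH : HV h v t w
      · rw [ind_of hA, ind_not (fun hh : Ar h v p (2 * t + 1) w ∧ ¬ HV h v t w => hh.2 hH),
          ind_of (⟨hA, hH⟩ : Ar h v p (2 * t + 1) w ∧ HV h v t w)]
        linarith
      · rw [ind_of hA, ind_of (⟨hA, hH⟩ : Ar h v p (2 * t + 1) w ∧ ¬ HV h v t w),
          ind_not (fun hh : Ar h v p (2 * t + 1) w ∧ HV h v t w => hH hh.2)]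
        ring
    · rw [ind_not hA, ind_not (fun hh : Ar h v p (2 * t + 1) w ∧ ¬ HV h v t w => hA hh.1),
        ind_not (fun hh : Ar h v p (2 * t + 1) w ∧ HV h v t w => hA hh.1)]
      ring
  rw [e1, Fin.sum_univ_six]
  show _ = (D.P h t).E (fun w => ind (Ar h v p (2 * t) w ∧ ¬ Gd t w) * lsQ v h t (5 * t) (5 * t + 1) w) +
    (D.P h t).E (fun w => ind (Ar h v p (2 * t + 1) w ∧ ¬ HV h v t w) * lsQ v h t (5 * t + 1) (5 * t + 5) w) +
    (D.P h t).E (fun w => ind (Ar h v p (2 * t + 1) w ∧ HV h v t w) * lsQ v h t (5 * t + 1) (5 * t + 2) w) +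
    (D.P h t).E (fun w => ind (Ar h v p (2 * t + 1) w ∧ HV h v t w) * lsQ v h t (5 * t + 2) (5 * t + 3) w) +
    (D.P h t).E (fun w => ind (Ar h v p (2 * t + 1) w ∧ HV h v t w) * lsQ v h t (5 * t + 3) (5 * t + 4) w) +
    (D.P h t).E (fun w => ind (Ar h v p (2 * t + 1) w ∧ HV h v t w) * lsQ v h t (5 * t + 4) (5 * t + 5) w)
  ring

end hd

end

end Pool.Agent.GMH.TP
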