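import Pool.Agent.GMH.TTot
import Pool.Agent.GMH.TopStep

/-!
# GMH/Hot2: the convex potential of the hot tuples over the run (note 4068 of helper78), helper93

* `hph t0 x = max (x - t0) 0`, `hph_sub_le`, `hph_le_exp`;
* `hph_grow`, `hph_letters` : new letters never lower the mean of `hph t0 iR` on an event of the old labels;
* `MH` the potential on the alive points, `hot_end` : at the end it is at most `mT`;
* `hot_total` : the gains of all digits and additions together are at most `mT + 3 Lam Pd`;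
* `psQ`, `hot_steps` : the same for the states of `GMH/TopDef` and the six steps of `GMH/TopStep`.
-/

set_option autoImplicit false
set_option linter.unusedSectionVars false

namespace Pool.Agent.GMH.Hot2

open Finset Pool.Agent.PWZ Pool.Agent.M3 Pool.Agent.GM Pool.Agent.GM.Harm Pool.Agent.GMH Pool.Agent.GMH.NZ
open Pool.Agent.GMH.V3 Pool.Agent.GMH.V3.TT Pool.Agent.GMH.TP

noncomputable section

/-! ### the convex function -/

/-- the convex function -/
def hph (t0 x : ℝ) : ℝ := max (x - t0) 0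

theorem hph_nonneg (t0 x : ℝ) : 0 ≤ hph t0 x := le_max_right _ _

theorem hph_sub_le (t0 x y : ℝ) : hph t0 x - hph t0 y ≤ ind (t0 < x) * (x - y) := by
  unfold hph
  have h2 := le_max_left (y - t0) 0
  have h3 := le_max_right (y - t0) 0
  by_cases hx : t0 < x
  · rw [ind_of hx, one_mul, max_eq_left (by linarith)]
    linarith
  · rw [ind_not hx, zero_mul, max_eq_right (by linarith [not_lt.1 hx])]
    linarith

theorem hph_mono {t0 x y : ℝ} (h : x ≤ y) : hph t0 x ≤ hph t0 y := max_le_max (by linarith) le_rfl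

theorem hph_le {t0 x c : ℝ} (ht : 0 ≤ t0) (hx : x ≤ c) (hc : 0 ≤ c) : hph t0 x ≤ c := max_le (by linarith) hc

/-- at the end -/
theorem hph_le_exp {t0 : ℝ} (ht : 1 ≤ t0) (x : ℝ) : hph t0 x ≤ x - 1 + Real.exp (-x) := by
  have h1 := Real.add_one_le_exp (-x)
  have h2 := Real.exp_pos (-x)
  unfold hph
  refine max_le ?_ ?_
  · linarith
  · linarith

/-! ### growth of the labels -/

section rel

variable {K : Type} {Om υ ν υ' κ κ' ι : Type*} [Fintype Om] [Fintype K] [DecidableEq K] (P : FP Om)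
  (p p' : Finset K → Prop) [DecidablePred p] [DecidablePred p']

theorem m_of_fac {Z : Om → ι} {Y : Om → κ} (h : Fac Z Y) {a b : Om} (hab : Z a = Z b) : P.m Y a = P.m Y b := by
  unfold FP.m
  rw [h a b hab]

theorem sp_of_fac {X : Om → κ} {Z : Om → κ'} {Y : Om → ι} (h : Fac Y (fun w => (X w, Z w))) : Fac Y (sp P X Z) := by
  intro a b hab
  unfold sp
  rw [m_of_fac P (h.trans (Fac.snd _ _)) hab, m_of_fac P h hab]

/-- the relative potential is seen by the labels -/
theorem iR_fac (hp : ∀ I J : Finset K, I ⊆ J → p J → p I) (hsub : ∀ J, p' J → p J) (L : Finset K → Om → υ)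
    (W : Om → κ) : Fac (fun w => (all (LP p L) w, W w)) (iR P p p' L W) := by
  have e1 : ∀ J, p J → Fac (fun w => (all (LP p L) w, W w)) (sp P (L J) (fun w => (lo L J w, W w))) := by
    intro J hJ
    refine sp_of_fac P fun a b hab => ?_
    simp only [Prod.mk.injEq] at hab ⊢
    exact ⟨congrFun hab.1 ⟨J, hJ⟩, lo_eq.2 fun I hI => congrFun hab.1 ⟨I, hp I J hI.subset hJ⟩, hab.2⟩
  have e2 : Fac (fun w => (all (LP p L) w, W w)) (sp P (all (LP p L)) (fun w => (all (LP p' L) w, W w))) := by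
    refine sp_of_fac P fun a b hab => ?_
    simp only [Prod.mk.injEq] at hab ⊢
    exact ⟨hab.1, funext fun I => congrFun hab.1 ⟨I.1, hsub I.1 I.2⟩, hab.2⟩
  intro a b hab
  unfold iR
  rw [e2 a b hab, Finset.sum_congr rfl fun J hJ => e1 J (Finset.mem_filter.1 hJ).2.1 a b hab]

/-- **new letters never lower the mean** -/
theorem hph_grow (t0 : ℝ) (hp : ∀ I J : Finset K, I ⊆ J → p J → p I) (hsub : ∀ J, p' J → p J) {L : Finset K → Om → υ}
    {V : Finset K → Om → ν} {L' : Finset K → Om → υ'} (hL : ∀ J a b, L' J a = L' J b ↔ L J a = L J b ∧ V J a = V J b)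
    (hlo : ∀ J, p J → ∀ a b, lo V J a = lo V J b) (hV : ∀ J, p' J → ∀ a b, V J a = V J b) (W : Om → κ) {S : Om → Prop}
    (hS : Fac (fun w => (all (LP p L) w, W w)) S) :
    P.E (fun w => ind (S w) * hph t0 (iR P p p' L W w)) ≤ P.E (fun w => ind (S w) * hph t0 (iR P p p' L' W w)) := by
  have hS2 : Fac (fun w => (all (LP p L) w, W w)) (fun w => S w ∧ t0 < iR P p p' L W w) := by
    intro a b hab
    have h1 := hS a b hab
    have h2 := iR_fac P p p' hp hsub L W a b hab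
    show (S a ∧ t0 < iR P p p' L W a) = (S b ∧ t0 < iR P p p' L W b)
    rw [h1, h2]
  have k := iR_grow P p p' hp hL hlo hV W hS2
  have k2 : P.E (fun w => ind (S w) * hph t0 (iR P p p' L W w)) - P.E (fun w => ind (S w) * hph t0 (iR P p p' L' W w)) ≤
      P.E (fun w => ind (S w ∧ t0 < iR P p p' L W w) * iR P p p' L W w) -
        P.E (fun w => ind (S w ∧ t0 < iR P p p' L W w) * iR P p p' L' W w) := by
    rw [← P.E_sub, ← P.E_sub]
    refine P.E_mono fun w _ => ?_
    by_cases hw : S w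
    · have h1 := hph_sub_le t0 (iR P p p' L W w) (iR P p p' L' W w)
      have h2 : ind (S w ∧ t0 < iR P p p' L W w) = ind (t0 < iR P p p' L W w) :=
        ind_cg (by simp only [hw, true_and])
      rw [h2, ind_of hw]
      linarith
    · rw [ind_not hw, ind_not (fun hh => hw hh.1)]
      linarith
  linarith

end rel

/-! ### the process -/

section proc

variable {K X β γ φ υ : Type} [Fintype K] [DecidableEq K] [Fintype X] [Fintype β] [Fintype φ] [Nonempty X] [Nonempty β]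
  {D : HD K X β γ φ} {al : ℝ} (h : D.Thick al) {dg : ℕ → X → ℝ} {prr : ℕ → K → φ → φ} {T : ℕ} {Lam : ℝ}
  {v : ℕ → Finset K → X → (K → β) → υ} {p p' : Finset K → Prop} [DecidablePred p] [DecidablePred p'] {t : ℕ}

/-- **the letters of the time `t + 1`** -/
theorem hph_letters (t0 : ℝ) (hp : ∀ I J : Finset K, I ⊆ J → p J → p I) (hsub : ∀ J, p' J → p J) (hu : ¬ p univ)
    (hl : ∀ l : K, ¬ p' (univ.erase l))
    (hpr : ∀ l x y F, D.kf t l x y F = ∑ F', ind (prr t l F' = F) * D.kf (t + 1) l x y F') (n s : ℕ)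
    {S : Pt K X β φ → Prop} (hS : Fac (fun w => (all (LP p (LL (Um v n))) w, WW D s w)) S) :
    (D.P h t).E (fun w => ind (S w) * hph t0 (iR (D.P h t) p p' (LL (Um v n)) (WW D s) w)) ≤
      (D.P h (t + 1)).E (fun w => ind (S (old prr t w)) *
        hph t0 (iR (D.P h (t + 1)) p p' (LL (Um v n)) (WW D s) w)) := by
  have h1 : (D.P h t).E (fun w => ind (S w) * hph t0 (iR (D.P h t) p p' (LL (Um v n)) (WW D s) w)) =
      (D.P h (t + 1)).E (fun w => ind (S (old prr t w)) *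
        hph t0 (iR (D.P h (t + 1)) p p' (fun I w => LL (Um v n) I (old prr t w)) (WW D s) w)) := by
    rw [← push_E h hpr]
    refine (D.P h (t + 1)).E_congr fun w _ => ?_
    rw [iR_push h hpr]
  rw [h1]
  refine hph_grow (D.P h (t + 1)) p p' t0 hp hsub (V := fun J w => ltr J w) ?_ ?_ ?_ (WW D s) ?_
  · intro J a b
    rw [LL_eq, LL_eq, ltr_eq]
    constructor
    · rintro ⟨h2, h3⟩
      exact ⟨⟨h2, fun l hl => congrArg (prr t l) (h3 l hl)⟩, h3⟩
    · rintro ⟨⟨h2, _⟩, h3⟩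
      exact ⟨h2, h3⟩
  · intro J hJ a b
    have hj : J ≠ univ := fun hh => hu (hh ▸ hJ)
    rw [lo_eq]
    intro I hI
    rw [ltr_eq]
    exact fun l hl' => absurd hl' (lt_no hj hI)
  · intro J hJ a b
    rw [ltr_eq]
    exact fun l hl' => absurd (hl' ▸ hJ) (hl l)
  · intro a b hab
    refine hS (old prr t a) (old prr t b) ?_
    simp only [Prod.mk.injEq] at hab ⊢
    exact hab

end proc

/-! ### the run -/

section run

variable {X β γ φ : Type} [Fintype X] [Fintype β] [Fintype φ] [Nonempty X] [Nonempty β]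
variable {D : HD (Fin 3) X β γ φ} {al : ℝ} (h : D.Thick al)
  {v : ℕ → Finset (Fin 3) → X → (Fin 3 → β) → Pt (Fin 3) X β φ}
variable {dg : ℕ → X → ℝ} {prr : ℕ → Fin 3 → φ → φ} {T : ℕ} {Lam : ℝ}

variable (v) in
/-- the relative potential, letters of the time `n`, node of the time `s` -/
def iT (t n s : ℕ) (w : Pt (Fin 3) X β φ) : ℝ :=
  iR (D.P h t) (fun J : Finset (Fin 3) => J ≠ univ) pth (LL (Um v n)) (WW D s) w

variable (v) in
/-- the potential of the hot tuples on the points of `a` -/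
def MH (t0 : ℝ) (a : ℕ → Pt (Fin 3) X β φ → Prop) (t : ℕ) : ℝ :=
  (D.P h t).E (fun w => ind (a t w) * hph t0 (iT h v t (t + 1) t w))

theorem MH_nonneg (t0 : ℝ) (a : ℕ → Pt (Fin 3) X β φ → Prop) (t : ℕ) : 0 ≤ MH h v t0 a t :=
  (D.P h t).E_nonneg fun w _ => mul_nonneg (ind_nonneg _) (hph_nonneg _ _)

/-- **the end** -/
theorem hot_end (H : D.Hyp dg prr al T Lam) {n N1 : ℝ} (R : Run h (pr3 (Fin 3) n N1) (SS1 (Fin 3)) (AdmDep D) v)
    (hn : 1 ≤ n) (hN1 : 1 ≤ N1) {t : ℕ} (ht : t ≤ T) {t0 : ℝ} (ht0 : 1 ≤ t0) (a : ℕ → Pt (Fin 3) X β φ → Prop) :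
    MH h v t0 a t ≤ mT n N1 Lam := by
  have hK : Fintype.card (Fin 3) = 3 := rfl
  have h2 := EndTR.endT3_run hK R H hn hN1 ht
  rw [← Mt_MR h (v := v) (t := t) down_ne pth_down (ne_u hK) pth0 (pth_sub hK), ← E_iR] at h2
  have h3 := E_exp_neg_iR (D.P h t) (fun J : Finset (Fin 3) => J ≠ univ) pth down_ne (LL (Um v (t + 1))) (WW D t)
  have h4 : MH h v t0 a t ≤ (D.P h t).E (fun w => iT h v t (t + 1) t w - 1 + Real.exp (-iT h v t (t + 1) t w)) := by
    refine (D.P h t).E_mono fun w _ => ?_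
    refine le_trans ?_ (hph_le_exp ht0 _)
    have k1 := hph_nonneg t0 (iT h v t (t + 1) t w)
    have k2 := ind_le_one (a t w)
    nlinarith
  have h5 : (D.P h t).E (fun w => iT h v t (t + 1) t w - 1 + Real.exp (-iT h v t (t + 1) t w)) =
      (D.P h t).E (iT h v t (t + 1) t) - 1 + (D.P h t).E (fun w => Real.exp (-iT h v t (t + 1) t w)) := by
    rw [(D.P h t).E_add (fun w => iT h v t (t + 1) t w - 1), (D.P h t).E_sub (fun w => iT h v t (t + 1) t w),
      (D.P h t).E_const]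
  have h6 : (D.P h t).E (iT h v t (t + 1) t) ≤ 54 * n * Lam / N1 + 24 * Lam / n + 12 * Lam / N1 := h2
  have h7 : (D.P h t).E (fun w => Real.exp (-iT h v t (t + 1) t w)) ≤ 1 := h3
  unfold mT
  linarith

/-- the pointwise bound -/
theorem hph_top (H : D.Hyp dg prr al T Lam) {n N1 : ℝ} (R : Run h (pr3 (Fin 3) n N1) (SS1 (Fin 3)) (AdmDep D) v)
    (hn : 1 ≤ n) (hN1 : 1 ≤ N1) {t s : ℕ} (ht : t ≤ T) (hts : t ≤ s) {t0 : ℝ} (ht0 : 0 ≤ t0) {w : Pt (Fin 3) X β φ}
    (hw : (D.P h t).p w ≠ 0) : hph t0 (iT h v t (t + 1) s w) ≤ 3 * Lam := by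
  have hK : Fintype.card (Fin 3) = 3 := rfl
  have hN0 : ∀ l : Fin 3, 0 < pr3 (Fin 3) n N1 (univ.erase l) := fun l => zero_lt_one.trans_le (pr3_one hn hN1 _)
  have hSl : ∀ l : Fin 3, univ.erase l ∈ SS1 (Fin 3) := fun l => mem_SS1.2 (Finset.erase_ne_self.2 (mem_univ l))
  have hSu : (univ : Finset (Fin 3)) ∉ SS1 (Fin 3) := fun hh => mem_SS1.1 hh rfl
  have h1 := iR_top_le hK H R hSl hSu hN0 ht hts hw
  have h2 := log_al H h.pos
  have h3 : (1 : ℝ) ≤ Lam := H.Lam1
  refine hph_le ht0 (h1.trans ?_) (by linarith)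
  linarith

variable (v) in
/-- gain of the digit -/
def gD (t0 : ℝ) (t : ℕ) (a : Pt (Fin 3) X β φ → Prop) : ℝ :=
  (D.P h t).E (fun w => ind (a w) * (hph t0 (iT h v t (t + 1) (t + 1) w) - hph t0 (iT h v t (t + 1) t w)))

variable (v) in
/-- gain of the additions -/
def gL (t0 : ℝ) (t : ℕ) (a : Pt (Fin 3) X β φ → Prop) : ℝ :=
  (D.P h t).E (fun w => ind (a w) * (hph t0 (iT h v t (t + 2) (t + 1) w) - hph t0 (iT h v t (t + 1) (t + 1) w)))

/-- one time -/
theorem hot_one (H : D.Hyp dg prr al T Lam) {n N1 : ℝ} (R : Run h (pr3 (Fin 3) n N1) (SS1 (Fin 3)) (AdmDep D) v)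
    (hn : 1 ≤ n) (hN1 : 1 ≤ N1) {a : ℕ → Pt (Fin 3) X β φ → Prop} (ha : ∀ r w, a (r + 1) w → a r w)
    (hxy : ∀ r, XY (a r)) {t : ℕ} (ht : t < T) (fa1 : Fac (ZT D v (t + 1) (t + 1)) (a (2 * t + 1))) {t0 : ℝ}
    (ht0 : 1 ≤ t0) :
    gD h v t0 t (a (2 * t)) + gL h v t0 t (a (2 * t + 1)) ≤
      MH h v t0 (fun t => a (2 * t)) (t + 1) - MH h v t0 (fun t => a (2 * t)) t +
      3 * Lam * ((D.P h t).Pr (fun w => a (2 * t) w ∧ ¬ a (2 * t + 1) w) +
        (D.P h (t + 1)).Pr (fun w => a (2 * t + 1) w ∧ ¬ a (2 * (t + 1)) w)) := by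
  have hK : Fintype.card (Fin 3) = 3 := rfl
  have hold : ∀ r, ∀ w : Pt (Fin 3) X β φ, a r (old prr t w) = a r w := fun r w => hxy r w.1 w.2.1 _ _
  -- killed by the digit
  have e1 : (D.P h t).E (fun w => ind (a (2 * t) w) * hph t0 (iT h v t (t + 1) (t + 1) w)) ≤
      (D.P h t).E (fun w => ind (a (2 * t + 1) w) * hph t0 (iT h v t (t + 1) (t + 1) w)) +
        3 * Lam * (D.P h t).Pr (fun w => a (2 * t) w ∧ ¬ a (2 * t + 1) w) := by
    unfold FP.Pr
    rw [← FP.E_smul, ← FP.E_add]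
    refine (D.P h t).E_mono fun w hw => ?_
    have h1 := hph_top h H R hn hN1 ht.le (Nat.le_succ t) (zero_le_one.trans ht0) hw
    by_cases h2 : a (2 * t + 1) w
    · rw [ind_of h2, ind_of (ha (2 * t) w h2), ind_not (fun hh => hh.2 h2)]
      linarith
    · by_cases h3 : a (2 * t) w
      · rw [ind_of h3, ind_not h2, ind_of ⟨h3, h2⟩]
        linarith
      · rw [ind_not h3, ind_not h2, ind_not (fun hh => h3 hh.1)]
        linarith
  -- letters
  have hS : Fac (fun w => (all (LP (fun J : Finset (Fin 3) => J ≠ univ) (LL (Um v (t + 2)))) w, WW D (t + 1) w))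
      (a (2 * t + 1)) := by
    intro x y hxy'
    refine fa1 x y ?_
    simp only [Prod.mk.injEq] at hxy'
    unfold ZT
    refine Prod.ext (funext fun i => ?_) hxy'.2
    have h1 : LL (Um v (t + 2)) i.1 x = LL (Um v (t + 2)) i.1 y := congrFun hxy'.1 ⟨i.1, pth_sub hK i.1 i.2⟩
    exact LL_mono (Nat.le_succ _) h1
  have e2 : (D.P h t).E (fun w => ind (a (2 * t + 1) w) * hph t0 (iT h v t (t + 2) (t + 1) w)) ≤
      (D.P h (t + 1)).E (fun w => ind (a (2 * t + 1) w) * hph t0 (iT h v (t + 1) (t + 2) (t + 1) w)) := by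
    have k := hph_letters h (v := v) (prr := prr) (p := fun J : Finset (Fin 3) => J ≠ univ) (p' := pth) t0 down_ne
      (pth_sub hK) (fun hh => hh rfl) (pth_er hK) (H.kf_pr t ht) (t + 2) (t + 1) hS
    simp only [hold] at k
    exact k
  -- killed by the additions and letters
  have e3 : (D.P h (t + 1)).E (fun w => ind (a (2 * t + 1) w) * hph t0 (iT h v (t + 1) (t + 2) (t + 1) w)) ≤
      MH h v t0 (fun t => a (2 * t)) (t + 1) +
        3 * Lam * (D.P h (t + 1)).Pr (fun w => a (2 * t + 1) w ∧ ¬ a (2 * (t + 1)) w) := by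
    unfold FP.Pr MH
    rw [← FP.E_smul, ← FP.E_add]
    refine (D.P h (t + 1)).E_mono fun w hw => ?_
    have h1 := hph_top h H R hn hN1 (show t + 1 ≤ T from ht) (le_refl (t + 1)) (zero_le_one.trans ht0) hw
    by_cases h2 : a (2 * (t + 1)) w
    · rw [ind_of h2, ind_of (ha (2 * t + 1) w h2), ind_not (fun hh => hh.2 h2)]
      linarith
    · by_cases h3 : a (2 * t + 1) w
      · rw [ind_of h3, ind_not h2, ind_of ⟨h3, h2⟩]
        linarith
      · rw [ind_not h3, ind_not h2, ind_not (fun hh => h3 hh.1)]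
        linarith
  have g : ∀ (A B : Pt (Fin 3) X β φ → ℝ) (b : Pt (Fin 3) X β φ → Prop), (D.P h t).E (fun w => ind (b w) * (A w - B w)) =
      (D.P h t).E (fun w => ind (b w) * A w) - (D.P h t).E (fun w => ind (b w) * B w) := by
    intro A B b
    rw [← FP.E_sub]
    exact (D.P h t).E_congr fun w _ => by ring
  have e4 : MH h v t0 (fun t => a (2 * t)) t = (D.P h t).E (fun w => ind (a (2 * t) w) * hph t0 (iT h v t (t + 1) t w)) :=
    rfl
  unfold gD gL
  rw [g, g, e4]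
  linarith

/-- **THE HOT POTENTIAL OVER THE RUN** : all gains together -/
theorem hot_total (H : D.Hyp dg prr al T Lam) {n N1 : ℝ} (R : Run h (pr3 (Fin 3) n N1) (SS1 (Fin 3)) (AdmDep D) v)
    (hn : 1 ≤ n) (hN1 : 1 ≤ N1) {a : ℕ → Pt (Fin 3) X β φ → Prop} (ha : ∀ r w, a (r + 1) w → a r w)
    (hxy : ∀ r, XY (a r)) (fa1 : ∀ t < T, Fac (ZT D v (t + 1) (t + 1)) (a (2 * t + 1)))
    {Pd : ℝ} (hPd : (D.P h T).Pr (fun w => ¬ a (2 * T) w) ≤ Pd) {t0 : ℝ} (ht0 : 1 ≤ t0) :
    ∑ t ∈ range T, (gD h v t0 t (a (2 * t)) + gL h v t0 t (a (2 * t + 1))) ≤ mT n N1 Lam + 3 * Lam * Pd := by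
  have hL : 1 ≤ Lam := H.Lam1
  have h1 := Finset.sum_le_sum fun t (ht : t ∈ range T) =>
    hot_one h H R hn hN1 ha hxy (Finset.mem_range.1 ht) (fa1 t (Finset.mem_range.1 ht)) ht0
  have e1 : ∑ t ∈ range T, (MH h v t0 (fun t => a (2 * t)) (t + 1) - MH h v t0 (fun t => a (2 * t)) t +
      3 * Lam * ((D.P h t).Pr (fun w => a (2 * t) w ∧ ¬ a (2 * t + 1) w) +
        (D.P h (t + 1)).Pr (fun w => a (2 * t + 1) w ∧ ¬ a (2 * (t + 1)) w))) =
      MH h v t0 (fun t => a (2 * t)) T - MH h v t0 (fun t => a (2 * t)) 0 +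
      3 * Lam * ∑ t ∈ range T, ((D.P h t).Pr (fun w => a (2 * t) w ∧ ¬ a (2 * t + 1) w) +
        (D.P h (t + 1)).Pr (fun w => a (2 * t + 1) w ∧ ¬ a (2 * (t + 1)) w)) := by
    rw [Finset.sum_add_distrib, Finset.sum_range_sub (fun t => MH h v t0 (fun t => a (2 * t)) t), ← Finset.mul_sum]
  rw [e1] at h1
  have h2 := mul_le_mul_of_nonneg_left ((killT (T := T) H ha hxy).trans hPd) (show 0 ≤ 3 * Lam by linarith)
  have h3 := hot_end h H R hn hN1 (le_refl T) ht0 (fun t => a (2 * t))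
  have h4 := MH_nonneg h (v := v) t0 (fun t => a (2 * t)) 0
  linarith

end run

end

end Pool.Agent.GMH.Hot2
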