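import Pool.Agent.GMH.Hot2
import Pool.Agent.GMH.TopAl

/-!
# GMH/Hot2S: the hot potential in the states and steps of `GMH/TopDef`, `GMH/TopStep`, `GMH/TopAl`, helper93

* `psQ t q w` = log density of the tops of the time `t` at the true tuple, state `q`;
* `iT_psQ0`, `iT_psQ1` : `iT t (t+1) t = psQ t (5t)`, `iT t (t+1) (t+1) = psQ t (5t+1)`;
* `gQ t0 t q q' a` = mean gain from the state `q` to the state `q'` on `a`;
* `gQ_dig`, `gQ_codes` : the digit and the additions;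
* `gQ_split` : the additions are the steps `1, .., 5` of `GMH/TopStep`;
* `hot_stepS`, `hot_stepT` : **the gains of all steps together**, alive sets `aS` resp. `aT`.
-/

set_option autoImplicit false
set_option linter.unusedSectionVars false

namespace Pool.Agent.GMH.Hot2

open Finset Pool.Agent.PWZ Pool.Agent.M3 Pool.Agent.GM Pool.Agent.GM.Harm Pool.Agent.GMH Pool.Agent.GMH.NZ
open Pool.Agent.GMH.V3 Pool.Agent.GMH.V3.TT Pool.Agent.GMH.TP

noncomputable section

section st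

variable {X β γ φ υ : Type} [Fintype X] [Fintype β] [Fintype φ] [Nonempty X] [Nonempty β]
variable {D : HD (Fin 3) X β γ φ} {al : ℝ} (h : D.Thick al) {v : ℕ → Finset (Fin 3) → X → (Fin 3 → β) → υ}

variable (v) in
/-- log density of the tops of the time `t` at the true tuple, state `q` -/
def psQ (t q : ℕ) (w : Pt (Fin 3) X β φ) : ℝ :=
  psC (D.P h t) (ZQ D v q) (ZbQ D v q) (FQ v t) w (tup (FQ v t) w)

theorem psQ_iQ {t q : ℕ} {w : Pt (Fin 3) X β φ} (hw : (D.P h t).p w ≠ 0) : psQ h v t q w = iQ v h t q w :=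
  (iQ_psC h hw).symm

/-- the relative potential by the tops -/
theorem iR_tops (hv : Codes D v) {t s n : ℕ} (hts : t ≤ s) (hn : n ≤ s + 1) {w : Pt (Fin 3) X β φ}
    (hw : (D.P h t).p w ≠ 0) :
    iR (D.P h t) (fun J : Finset (Fin 3) => J ≠ univ) pth (LL (Um v n)) (WW D s) w =
      ∑ i, sp (D.P h t) (FT v (Equiv.refl (Fin 3)) n i) (ZbT D v (Equiv.refl (Fin 3)) n s i) w -
        sp (D.P h t) (tup (FT v (Equiv.refl (Fin 3)) n)) (ZT D v n s) w := by
  classical
  have hK : Fintype.card (Fin 3) = 3 := rfl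
  set P := D.P h t with hP
  set e : Fin 3 ≃ Fin 3 := Equiv.refl (Fin 3) with he
  set L : Finset (Fin 3) → Pt (Fin 3) X β φ → List υ × (Fin 3 → Option φ) := LL (Um v n) with hL
  unfold iR
  rw [sum_top3 hK]
  have e1 : ∀ i : Fin 3, sp P (L (univ.erase i)) (fun w => (lo L (univ.erase i) w, WW D s w)) w =
      sp P (FT v e n i) (ZbT D v e n s i) w := fun i =>
    sp_base h hts (LL_AA hv hn (Finset.Subset.refl _))
      (fun a b hab => lo_eq.2 fun I hI => LL_AA hv hn hI.subset a b hab) hw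
  have htup : ∀ a b : Pt (Fin 3) X β φ, tup (FT v e n) a = tup (FT v e n) b ↔
      ∀ J : Finset (Fin 3), J ≠ univ → ¬ pth J → L J a = L J b := by
    intro a b
    constructor
    · intro hh J hJ hJ2
      have h3 : ∃ j, j ∉ J := by
        by_contra hc
        push Not at hc
        exact hJ (Finset.eq_univ_of_forall hc)
      obtain ⟨j, hj⟩ := h3
      have h4 : J = univ.erase j := by
        refine Finset.eq_of_subset_of_card_le (fun k hk => Finset.mem_erase.2 ⟨fun hh => hj (hh ▸ hk), mem_univ k⟩) ?_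
        rw [card_er hK]
        unfold pth at hJ2
        omega
      have h6 : FT v e n j a = FT v e n j b := congrFun hh j
      rw [h4]
      exact h6
    · intro hh
      funext i
      exact hh _ (ne_univ i) (pth_er hK i)
  have e3 : sp P (all (LP (fun J : Finset (Fin 3) => J ≠ univ) L)) (fun w => (all (LP pth L) w, WW D s w)) w =
      sp P (tup (FT v e n)) (ZT D v n s) w := by
    have k1 : ∀ a b : Pt (Fin 3) X β φ, ZT D v n s a = ZT D v n s b ↔ all (LP pth L) a = all (LP pth L) b ∧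
        WW D s a = WW D s b := by
      intro a b
      unfold ZT
      rw [Prod.mk.injEq]
    refine sp_congr P ?_ ?_ ?_ ?_ w
    · intro a b hab
      simp only [Prod.mk.injEq] at hab
      exact (htup a b).2 fun J hJ _ => congrFun hab.1 ⟨J, hJ⟩
    · intro a b hab
      simp only [Prod.mk.injEq] at hab
      exact (k1 a b).2 hab
    · intro a b hab
      simp only [Prod.mk.injEq, k1] at hab
      refine funext fun J => ?_
      by_cases hJ : pth J.1
      · exact congrFun hab.2.1 ⟨J.1, hJ⟩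
      · exact (htup a b).1 hab.1 J.1 J.2 hJ
    · intro a b hab
      simp only [Prod.mk.injEq]
      exact (k1 a b).1 hab
  rw [Finset.sum_congr rfl fun i _ => e1 i, e3]

theorem iR_iQ0 (hv : Codes D v) {t : ℕ} {w : Pt (Fin 3) X β φ} (hw : (D.P h t).p w ≠ 0) :
    iR (D.P h t) (fun J : Finset (Fin 3) => J ≠ univ) pth (LL (Um v (t + 1))) (WW D t) w = psQ h v t (5 * t) w := by
  rw [psQ_iQ h hw, iR_tops h hv (le_refl t) (le_refl (t + 1)) hw]
  unfold iQ
  have e0 : ZbQ (φ := φ) D v (5 * t) = ZbT D v (Equiv.refl (Fin 3)) (t + 1) t := funext fun i => ZbQ_0 t i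
  rw [ZQ_0, e0]
  rfl

theorem iR_iQ1 (hv : Codes D v) {t : ℕ} {w : Pt (Fin 3) X β φ} (hw : (D.P h t).p w ≠ 0) :
    iR (D.P h t) (fun J : Finset (Fin 3) => J ≠ univ) pth (LL (Um v (t + 1))) (WW D (t + 1)) w =
      psQ h v t (5 * t + 1) w := by
  rw [psQ_iQ h hw, iR_tops h hv (Nat.le_succ t) (Nat.le_succ (t + 1)) hw]
  unfold iQ
  have e1 : ZbQ (φ := φ) D v (5 * t + 1) = ZbT D v (Equiv.refl (Fin 3)) (t + 1) (t + 1) := funext fun i => ZbQ_1 t i
  rw [ZQ_1, e1]
  rfl

/-- thin labels of the time `t + 2`, tops of the time `t + 1` -/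
def LM (v : ℕ → Finset (Fin 3) → X → (Fin 3 → β) → υ) (t : ℕ) (J : Finset (Fin 3)) (w : Pt (Fin 3) X β φ) :
    List υ × (Fin 3 → Option φ) :=
  if pth J then LL (Um v (t + 2)) J w else LL (Um v (t + 1)) J w

theorem iR_iQ5 (hv : Codes D v) {t : ℕ} {w : Pt (Fin 3) X β φ} (hw : (D.P h t).p w ≠ 0) :
    iR (D.P h t) (fun J : Finset (Fin 3) => J ≠ univ) pth (LM v t) (WW D (t + 1)) w = psQ h v t (5 * t + 5) w := by
  have hK : Fintype.card (Fin 3) = 3 := rfl
  have h1 := iR_lossC h (e := Equiv.refl (Fin 3)) hK hv (Nat.le_succ t) (Nat.le_succ (t + 1)) (le_refl (t + 2)) hw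
  rw [lossC_codes h t hw, lsQ_eq h (by omega) hw, iR_iQ1 h hv hw, psQ_iQ h hw] at h1
  have h2 : iR (D.P h t) (fun J : Finset (Fin 3) => J ≠ univ) pth (LM v t) (WW D (t + 1)) w =
      iR (D.P h t) (fun J : Finset (Fin 3) => J ≠ univ) pth
        (fun J w => if pth J then LL (Um v (t + 2)) J w else LL (Um v (t + 1)) J w) (WW D (t + 1)) w := rfl
  rw [psQ_iQ h hw, h2]
  linarith

variable (v) in
/-- mean gain of the hot potential from the state `q` to the state `q'` on the points of `a` -/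
def gQ (t0 : ℝ) (t q q' : ℕ) (a : Pt (Fin 3) X β φ → Prop) : ℝ :=
  (D.P h t).E (fun w => ind (a w) * (hph t0 (psQ h v t q' w) - hph t0 (psQ h v t q w)))

end st

section run

variable {X β γ φ : Type} [Fintype X] [Fintype β] [Fintype φ] [Nonempty X] [Nonempty β]
variable {D : HD (Fin 3) X β γ φ} {al : ℝ} (h : D.Thick al)
  {v : ℕ → Finset (Fin 3) → X → (Fin 3 → β) → Pt (Fin 3) X β φ}
variable {dg : ℕ → X → ℝ} {prr : ℕ → Fin 3 → φ → φ} {T : ℕ} {Lam : ℝ}

/-- the digit -/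
theorem gQ_dig (hv : Codes D v) (t0 : ℝ) (t : ℕ) (a : Pt (Fin 3) X β φ → Prop) :
    gD h v t0 t a = gQ h v t0 t (5 * t) (5 * t + 1) a := by
  unfold gD gQ iT
  exact (D.P h t).E_congr fun w hw => by rw [iR_iQ0 h hv hw, iR_iQ1 h hv hw]

/-- the additions -/
theorem gQ_codes (hv : Codes D v) (t0 : ℝ) (t : ℕ) {a : Pt (Fin 3) X β φ → Prop} (fa : Fac (ZT D v (t + 1) (t + 1)) a) :
    gQ h v t0 t (5 * t + 1) (5 * t + 5) a ≤ gL h v t0 t a := by
  classical
  have hK : Fintype.card (Fin 3) = 3 := rfl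
  have h1 : (D.P h t).E (fun w => ind (a w) * hph t0 (iR (D.P h t) (fun J : Finset (Fin 3) => J ≠ univ) pth (LM v t)
        (WW D (t + 1)) w)) ≤
      (D.P h t).E (fun w => ind (a w) * hph t0 (iR (D.P h t) (fun J : Finset (Fin 3) => J ≠ univ) pth (LL (Um v (t + 2)))
        (WW D (t + 1)) w)) := by
    refine hph_grow (D.P h t) (fun J : Finset (Fin 3) => J ≠ univ) pth t0 down_ne (pth_sub hK)
      (V := fun J w => if pth J then none else some (LL (φ := φ) (Um v (t + 2)) J w)) ?_ ?_ ?_ (WW D (t + 1)) ?_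
    · intro J a b
      unfold LM
      by_cases hJ : pth J
      · rw [if_pos hJ, if_pos hJ, if_pos hJ, if_pos hJ]
        exact ⟨fun hh => ⟨hh, rfl⟩, fun hh => hh.1⟩
      · rw [if_neg hJ, if_neg hJ, if_neg hJ, if_neg hJ]
        exact ⟨fun hh => ⟨LL_mono (Nat.le_succ _) hh, congrArg some hh⟩, fun hh => Option.some.inj hh.2⟩
    · intro J hJ a b
      rw [lo_eq]
      intro I hI
      show (if pth I then none else some (LL (φ := φ) (Um v (t + 2)) I a)) = if pth I then none else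
        some (LL (φ := φ) (Um v (t + 2)) I b)
      rw [if_pos (lt_pth hK hJ hI), if_pos (lt_pth hK hJ hI)]
    · intro J hJ a b
      show (if pth J then none else some (LL (φ := φ) (Um v (t + 2)) J a)) = if pth J then none else
        some (LL (φ := φ) (Um v (t + 2)) J b)
      rw [if_pos hJ, if_pos hJ]
    · intro x y hxy
      simp only [Prod.mk.injEq] at hxy
      refine fa x y ?_
      refine Prod.ext (funext fun J => ?_) hxy.2
      have h2 : LM v t J.1 x = LM v t J.1 y := congrFun hxy.1 ⟨J.1, pth_sub hK J.1 J.2⟩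
      unfold LM at h2
      rw [if_pos J.2, if_pos J.2] at h2
      exact LL_mono (Nat.le_succ _) h2
  have g : ∀ (A B : Pt (Fin 3) X β φ → ℝ), (D.P h t).E (fun w => ind (a w) * (A w - B w)) =
      (D.P h t).E (fun w => ind (a w) * A w) - (D.P h t).E (fun w => ind (a w) * B w) := by
    intro A B
    rw [← FP.E_sub]
    exact (D.P h t).E_congr fun w _ => by ring
  have e1 : (D.P h t).E (fun w => ind (a w) * hph t0 (psQ h v t (5 * t + 5) w)) =
      (D.P h t).E (fun w => ind (a w) * hph t0 (iR (D.P h t) (fun J : Finset (Fin 3) => J ≠ univ) pth (LM v t)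
        (WW D (t + 1)) w)) := (D.P h t).E_congr fun w hw => by rw [iR_iQ5 h hv hw]
  have e2 : (D.P h t).E (fun w => ind (a w) * hph t0 (psQ h v t (5 * t + 1) w)) =
      (D.P h t).E (fun w => ind (a w) * hph t0 (iT h v t (t + 1) (t + 1) w)) :=
    (D.P h t).E_congr fun w hw => by unfold iT; rw [iR_iQ1 h hv hw]
  have h3 : (D.P h t).E (fun w => ind (a w) * hph t0 (iR (D.P h t) (fun J : Finset (Fin 3) => J ≠ univ) pth
      (LL (Um v (t + 2))) (WW D (t + 1)) w)) = (D.P h t).E (fun w => ind (a w) * hph t0 (iT h v t (t + 2) (t + 1) w)) :=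
    rfl
  unfold gQ gL
  rw [g, g, e1, e2]
  linarith

/-- **the additions are the steps `1, .., 5`** -/
theorem gQ_split (t0 : ℝ) (p : AP) (Gd : ℕ → Pt (Fin 3) X β φ → Prop) (t : ℕ) :
    gQ h v t0 t (5 * t + 1) (5 * t + 5) (Ar h v p (2 * t + 1)) =
      ∑ s ∈ univ.erase (0 : Fin 6), gQ h v t0 t (qs s t) (qe s t) (aS h v p Gd s t) := by
  classical
  have e0 : (univ.erase (0 : Fin 6)) = {1, 2, 3, 4, 5} := by decide
  have e1 : gQ h v t0 t (5 * t + 1) (5 * t + 5) (Ar h v p (2 * t + 1)) =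
      gQ h v t0 t (5 * t + 1) (5 * t + 5) (fun w => Ar h v p (2 * t + 1) w ∧ ¬ HV h v t w) +
      (gQ h v t0 t (5 * t + 1) (5 * t + 2) (fun w => Ar h v p (2 * t + 1) w ∧ HV h v t w) +
      (gQ h v t0 t (5 * t + 2) (5 * t + 3) (fun w => Ar h v p (2 * t + 1) w ∧ HV h v t w) +
      (gQ h v t0 t (5 * t + 3) (5 * t + 4) (fun w => Ar h v p (2 * t + 1) w ∧ HV h v t w) +
      gQ h v t0 t (5 * t + 4) (5 * t + 5) (fun w => Ar h v p (2 * t + 1) w ∧ HV h v t w)))) := by
    unfold gQ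
    rw [← (D.P h t).E_add, ← (D.P h t).E_add, ← (D.P h t).E_add, ← (D.P h t).E_add]
    refine (D.P h t).E_congr fun w _ => ?_
    by_cases hA : Ar h v p (2 * t + 1) w
    · by_cases hH : HV h v t w
      · rw [ind_of hA, ind_not (fun hh : Ar h v p (2 * t + 1) w ∧ ¬ HV h v t w => hh.2 hH),
          ind_of (⟨hA, hH⟩ : Ar h v p (2 * t + 1) w ∧ HV h v t w)]
        ring
      · rw [ind_of hA, ind_of (⟨hA, hH⟩ : Ar h v p (2 * t + 1) w ∧ ¬ HV h v t w),
          ind_not (fun hh : Ar h v p (2 * t + 1) w ∧ HV h v t w => hH hh.2)]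
        ring
    · rw [ind_not hA, ind_not (fun hh : Ar h v p (2 * t + 1) w ∧ ¬ HV h v t w => hA hh.1),
        ind_not (fun hh : Ar h v p (2 * t + 1) w ∧ HV h v t w => hA hh.1)]
      ring
  rw [e1, e0, Finset.sum_insert (by decide), Finset.sum_insert (by decide), Finset.sum_insert (by decide),
    Finset.sum_insert (by decide), Finset.sum_singleton]
  rfl

/-- pointwise bound at every state -/
theorem psQ_top (H : D.Hyp dg prr al T Lam) {n N1 : ℝ} (R : Run h (pr3 (Fin 3) n N1) (SS1 (Fin 3)) (AdmDep D) v)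
    (hn : 1 ≤ n) (hN1 : 1 ≤ N1) {t q : ℕ} (ht : t ≤ T) (hq : 5 * t ≤ q) {t0 : ℝ} (ht0 : 0 ≤ t0) {w : Pt (Fin 3) X β φ}
    (hw : (D.P h t).p w ≠ 0) : hph t0 (psQ h v t q w) ≤ 3 * Lam := by
  have hN0 : ∀ l : Fin 3, 0 < pr3 (Fin 3) n N1 (univ.erase l) := fun l => zero_lt_one.trans_le (pr3_one hn hN1 _)
  have hSl : ∀ l : Fin 3, univ.erase l ∈ SS1 (Fin 3) := fun l => mem_SS1.2 (Finset.erase_ne_self.2 (mem_univ l))
  have hSu : (univ : Finset (Fin 3)) ∉ SS1 (Fin 3) := fun hh => mem_SS1.1 hh rfl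
  have h2 := log_al H h.pos
  have h3 : (1 : ℝ) ≤ Lam := H.Lam1
  rw [psQ_iQ h hw]
  unfold iQ
  have h1 := Finset.sum_le_sum fun i (_ : i ∈ (univ : Finset (Fin 3))) => sp_Zb_le H R hSl hSu hN0 ht hq i hw
  have h4 := sp_nonneg (D.P h t) (tup (FQ v t)) (ZQ D v q) hw
  rw [Finset.sum_const, Finset.card_univ, nsmul_eq_mul] at h1
  have hc : ((Fintype.card (Fin 3) : ℕ) : ℝ) = 3 := by simp
  rw [hc] at h1
  refine hph_le ht0 ?_ (by linarith)
  linarith

/-- **THE GAINS OF ALL STEPS**, alive sets `aS` -/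
theorem hot_stepS (H : D.Hyp dg prr al T Lam) {n N1 : ℝ} (R : Run h (pr3 (Fin 3) n N1) (SS1 (Fin 3)) (AdmDep D) v)
    (hn : 1 ≤ n) (hN1 : 1 ≤ N1) (p : AP) (Gd : ℕ → Pt (Fin 3) X β φ → Prop) {Pd : ℝ}
    (hPd : (D.P h T).Pr (fun w => ¬ Ar h v p (2 * T) w) ≤ Pd) {t0 : ℝ} (ht0 : 1 ≤ t0) :
    ∑ t ∈ range T, (gQ h v t0 t (5 * t) (5 * t + 1) (fun w => Ar h v p (2 * t) w ∧ Gd t w) +
      ∑ s, gQ h v t0 t (qs s t) (qe s t) (aS h v p Gd s t)) ≤ mT n N1 Lam + 3 * Lam * Pd := by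
  classical
  have hv := R.codes
  have fz1 : ∀ t, Fac (ZT (φ := φ) D v (t + 1) (t + 1)) (Ar h v p (2 * t + 1)) := fun t a b hab => by
    refine propext (Ar_fac h p (TH_of_all (s := t + 1) (n := t + 1) (by unfold tm; omega) (by unfold nt; omega) hab))
  have h1 := hot_total h H R hn hN1 (a := Ar h v p) (fun r w hw => Ar_mono h p (Nat.le_succ r) hw)
    (fun r x y F F' => propext (Ar_lab h p r x y F F')) (fun t _ => fz1 t) hPd ht0
  refine le_trans (Finset.sum_le_sum fun t _ => ?_) h1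
  have h2 := gQ_codes h hv t0 t (fz1 t)
  have h3 := gQ_split h (v := v) t0 p Gd t
  have h4 := gQ_dig h hv t0 t (Ar h v p (2 * t))
  have h5 : gQ h v t0 t (5 * t) (5 * t + 1) (Ar h v p (2 * t)) =
      gQ h v t0 t (5 * t) (5 * t + 1) (fun w => Ar h v p (2 * t) w ∧ Gd t w) +
      gQ h v t0 t (5 * t) (5 * t + 1) (fun w => Ar h v p (2 * t) w ∧ ¬ Gd t w) := by
    unfold gQ
    rw [← (D.P h t).E_add]
    refine (D.P h t).E_congr fun w _ => ?_
    by_cases hA : Ar h v p (2 * t) w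
    · by_cases hG : Gd t w
      · rw [ind_of hA, ind_of (⟨hA, hG⟩ : Ar h v p (2 * t) w ∧ Gd t w),
          ind_not (fun hh : Ar h v p (2 * t) w ∧ ¬ Gd t w => hh.2 hG)]
        ring
      · rw [ind_of hA, ind_of (⟨hA, hG⟩ : Ar h v p (2 * t) w ∧ ¬ Gd t w),
          ind_not (fun hh : Ar h v p (2 * t) w ∧ Gd t w => hG hh.2)]
        ring
    · rw [ind_not hA, ind_not (fun hh : Ar h v p (2 * t) w ∧ Gd t w => hA hh.1),
        ind_not (fun hh : Ar h v p (2 * t) w ∧ ¬ Gd t w => hA hh.1)]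
      ring
  have h6 : ∑ s, gQ h v t0 t (qs s t) (qe s t) (aS h v p Gd s t) =
      gQ h v t0 t (5 * t) (5 * t + 1) (fun w => Ar h v p (2 * t) w ∧ ¬ Gd t w) +
      ∑ s ∈ univ.erase (0 : Fin 6), gQ h v t0 t (qs s t) (qe s t) (aS h v p Gd s t) :=
    (Finset.add_sum_erase univ _ (mem_univ (0 : Fin 6))).symm
  rw [h6, ← h3]
  linarith

/-- **THE GAINS OF ALL STEPS**, alive sets `aT` (alive before the step) -/
theorem hot_stepT (H : D.Hyp dg prr al T Lam) {n N1 : ℝ} (R : Run h (pr3 (Fin 3) n N1) (SS1 (Fin 3)) (AdmDep D) v)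
    (hn : 1 ≤ n) (hN1 : 1 ≤ N1) (p : AP) (Gd : ℕ → Pt (Fin 3) X β φ → Prop) {Pd : ℝ}
    (hPd : (D.P h T).Pr (fun w => ¬ Ar h v p (2 * T) w) ≤ Pd) {t0 : ℝ} (ht0 : 1 ≤ t0) :
    ∑ t ∈ range T, (gQ h v t0 t (5 * t) (5 * t + 1) (fun w => Ar h v p (2 * t) w ∧ Gd t w) +
      ∑ s, gQ h v t0 t (qs s t) (qe s t) (aT h v p Gd s t)) ≤ mT n N1 Lam + 12 * Lam * Pd := by
  classical
  have hL : (1 : ℝ) ≤ Lam := H.Lam1
  have h1 := hot_stepS h H R hn hN1 p Gd hPd ht0
  have one : ∀ t ∈ range T, (gQ h v t0 t (5 * t) (5 * t + 1) (fun w => Ar h v p (2 * t) w ∧ Gd t w) +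
      ∑ s, gQ h v t0 t (qs s t) (qe s t) (aT h v p Gd s t)) ≤
      (gQ h v t0 t (5 * t) (5 * t + 1) (fun w => Ar h v p (2 * t) w ∧ Gd t w) +
      ∑ s, gQ h v t0 t (qs s t) (qe s t) (aS h v p Gd s t)) +
      9 * Lam * (D.P h (t + 1)).Pr (fun w => Ar h v p (2 * t + 1) w ∧ ¬ Ar h v p (2 * (t + 1)) w) := by
    intro t ht
    have htT := Finset.mem_range.1 ht
    have hk : (D.P h t).Pr (fun w => Ar h v p (2 * t + 1) w ∧ ¬ Ar h v p (2 * (t + 1)) w) =
        (D.P h (t + 1)).Pr (fun w => Ar h v p (2 * t + 1) w ∧ ¬ Ar h v p (2 * (t + 1)) w) := by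
      refine Pr_xy h (fun x y F F' => ?_) t (t + 1)
      show (_ ∧ ¬ _) = (_ ∧ ¬ _)
      rw [propext (Ar_lab h p (2 * t + 1) x y F F'), propext (Ar_lab h p (2 * (t + 1)) x y F F')]
    have key : ∀ s : Fin 6, gQ h v t0 t (qs s t) (qe s t) (aT h v p Gd s t) ≤
        gQ h v t0 t (qs s t) (qe s t) (aS h v p Gd s t) + (if s.1 ≤ 2 then 0 else
          3 * Lam * (D.P h t).Pr (fun w => Ar h v p (2 * t + 1) w ∧ ¬ Ar h v p (2 * (t + 1)) w)) := by
      intro s
      by_cases hs : s.1 ≤ 2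
      · rw [if_pos hs, add_zero]
        unfold gQ
        refine le_of_eq ((D.P h t).E_congr fun w _ => ?_)
        by_cases hw : aS h v p Gd s t w
        · rw [ind_of hw, ind_of (aT_small p hs hw)]
        · rw [ind_not hw, ind_not (fun hh => hw hh.1)]
      · rw [if_neg hs]
        unfold gQ FP.Pr
        rw [← FP.E_smul, ← FP.E_add]
        refine (D.P h t).E_mono fun w hw => ?_
        have hl := psQ_top h H R hn hN1 htT.le (qs_ge s t) (zero_le_one.trans ht0) hw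
        have hl' := hph_nonneg t0 (psQ h v t (qe s t) w)
        by_cases h1 : aS h v p Gd s t w
        · by_cases h2 : aT h v p Gd s t w
          · rw [ind_of h1, ind_of h2]
            have := mul_nonneg (show (0 : ℝ) ≤ 3 * Lam by linarith)
              (ind_nonneg (Ar h v p (2 * t + 1) w ∧ ¬ Ar h v p (2 * (t + 1)) w))
            linarith
          · rw [ind_of h1, ind_not h2, ind_of (aT_kill p hw h1 h2)]
            linarith
        · rw [ind_not h1, ind_not (fun hh => h1 hh.1), zero_mul, zero_add]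
          exact mul_nonneg (by linarith) (ind_nonneg _)
    have h3 := Finset.sum_le_sum fun s (_ : s ∈ (univ : Finset (Fin 6))) => key s
    rw [Finset.sum_add_distrib] at h3
    have h4 : ∑ s : Fin 6, (if s.1 ≤ 2 then 0 else
        3 * Lam * (D.P h t).Pr (fun w => Ar h v p (2 * t + 1) w ∧ ¬ Ar h v p (2 * (t + 1)) w)) =
        9 * Lam * (D.P h (t + 1)).Pr (fun w => Ar h v p (2 * t + 1) w ∧ ¬ Ar h v p (2 * (t + 1)) w) := by
      rw [← hk, Fin.sum_univ_six]
      simp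
      ring
    rw [h4] at h3
    linarith
  refine (Finset.sum_le_sum one).trans ?_
  rw [Finset.sum_add_distrib, ← Finset.mul_sum]
  have h2 := (sum_killT (h := h) (v := v) H p).trans hPd
  have h3 := mul_le_mul_of_nonneg_left h2 (show 0 ≤ 9 * Lam by linarith)
  linarith

end run

end

end Pool.Agent.GMH.Hot2
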