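import Pool.Agent.GMH.TopAct

/-!
# GMH/TopGJ: the JOINT gains of the tops (helper54)

The three tops together, given all thin labels:
* `hJ t q` : entropy of the tuple of tops in the state `q`, law of the time `t`;
* `gJ s t` : what the tuple of tops learns in the step `(s, t)` (`gn` of the tuple, `gJ_eq`, `gJ_I`);
* `gJ_sum` : the joint gains of the six steps of all times are at most `6 Lam`.
-/

set_option autoImplicit false
set_option linter.unusedSectionVars false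

namespace Pool.Agent.GMH.TP

open Finset Pool.Agent.PWZ Pool.Agent.M3 Pool.Agent.GM Pool.Agent.GM.Harm Pool.Agent.GMH Pool.Agent.GMH.NZ
open Pool.Agent.GMH.V3

noncomputable section

/-! ### tuples -/

section gen

variable {Om : Type*} [Fintype Om] (P : FP Om) {α φ' ψ' : Type*}

/-- subadditivity for a tuple -/
theorem Hc_tup_le (F : Fin 3 → Om → φ') (Z : Om → α) : P.Hc (tup F) Z ≤ ∑ i, P.Hc (F i) Z := by
  have h1 : P.Hc (tup F) Z ≤ P.Hc (fun w => (F 0 w, (F 1 w, F 2 w))) Z := by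
    refine P.Hc_mono _ ?_
    intro a b hab
    simp only [Prod.mk.injEq] at hab
    obtain ⟨⟨h0, h1, h2⟩, _⟩ := hab
    funext i
    fin_cases i
    · exact h0
    · exact h1
    · exact h2
  have h2 := P.Hc_chain (F 0) (fun w => (F 1 w, F 2 w)) Z
  have h3 := P.Hc_chain (F 1) (F 2) Z
  have h4 : P.Hc (F 0) (fun w => ((F 1 w, F 2 w), Z w)) ≤ P.Hc (F 0) Z :=
    P.Hc_anti _ fun a b hab => (Prod.mk.inj hab).2
  have h5 : P.Hc (F 1) (fun w => (F 2 w, Z w)) ≤ P.Hc (F 1) Z := P.Hc_anti _ fun a b hab => (Prod.mk.inj hab).2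
  rw [Fin.sum_univ_three]
  linarith

/-- a tuple through another tuple -/
theorem Hc_tup_via (F : Fin 3 → Om → φ') (G : Fin 3 → Om → ψ') (Z : Om → α) :
    P.Hc (tup F) Z ≤ P.Hc (tup G) Z + ∑ i, P.Hc (F i) (fun w => (G i w, Z w)) := by
  have h1 : P.Hc (tup F) Z ≤ P.Hc (fun w => (tup F w, tup G w)) Z :=
    P.Hc_mono _ fun a b hab => (Prod.mk.inj (Prod.mk.inj hab).1).1
  have h2 := P.Hc_chain (tup F) (tup G) Z
  have h3 := Hc_tup_le P F (fun w => (tup G w, Z w))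
  have h4 : ∑ i, P.Hc (F i) (fun w => (tup G w, Z w)) ≤ ∑ i, P.Hc (F i) (fun w => (G i w, Z w)) := by
    refine Finset.sum_le_sum fun i _ => P.Hc_anti _ ?_
    intro a b hab
    simp only [Prod.mk.injEq] at hab ⊢
    exact ⟨congrFun hab.1 i, hab.2⟩
  linarith

end gen

/-! ### the run -/

section hd

variable {X β γ φ : Type} [Fintype X] [Fintype β] [Fintype φ] [Nonempty X] [Nonempty β]
variable {D : HD (Fin 3) X β γ φ} {al : ℝ} (h : D.Thick al)
  (v : ℕ → Finset (Fin 3) → X → (Fin 3 → β) → Pt (Fin 3) X β φ)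
variable {dg : ℕ → X → ℝ} {prr : ℕ → Fin 3 → φ → φ} {T : ℕ} {Lam : ℝ}

/-- entropy of the tuple of tops in the state `q`, law of the time `t` -/
def hJ (t q : ℕ) : ℝ := (D.P h t).Hc (tup (FQ v t)) (ZQ D v q)

/-- the joint gain of the tops in the step `(s, t)` -/
def gJ (s : Fin 6) (t : ℕ) : ℝ := gn (D.P h t) (ZQ D v (qs s t)) (tup (FQ v t)) (ZQ D v (qe s t))

variable {v}

theorem hJ_anti {q q' : ℕ} (hq : q ≤ q') (t : ℕ) : hJ h v t q' ≤ hJ h v t q := (D.P h t).Hc_anti _ (ZQ_mono hq)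

theorem hJ_nn (t q : ℕ) : 0 ≤ hJ h v t q := FP.Hc_nonneg _ _ _

theorem gJ_nn (s : Fin 6) (t : ℕ) : 0 ≤ gJ h v s t := gn_nn _ _ _ _

theorem gJ_I (s : Fin 6) (t : ℕ) : gJ h v s t = (D.P h t).I (ZQ D v (qe s t)) (tup (FQ v t)) (ZQ D v (qs s t)) :=
  gn_eq _ _ _ _

theorem gJ_eq (s : Fin 6) (t : ℕ) : gJ h v s t = hJ h v t (qs s t) - hJ h v t (qe s t) := by
  unfold gJ hJ
  rw [gn_eq, (D.P h t).I_eq_Hc']
  congr 1
  refine le_antisymm ((D.P h t).Hc_anti _ fun a b hab => ?_) ((D.P h t).Hc_anti _ fun a b hab => ?_)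
  · exact (Prod.mk.inj hab).1
  · simp only [Prod.mk.injEq]
    exact ⟨hab, ZQ_mono (qs_le_qe s t) a b hab⟩

/-- the six steps of one time -/
theorem gJ_six (t : ℕ) : ∑ s, gJ h v s t ≤ 2 * (hJ h v t (5 * t) - hJ h v t (5 * t + 5)) := by
  have k0 : gJ h v 0 t = hJ h v t (5 * t) - hJ h v t (5 * t + 1) := gJ_eq h (v := v) 0 t
  have k1 : gJ h v 1 t = hJ h v t (5 * t + 1) - hJ h v t (5 * t + 5) := gJ_eq h (v := v) 1 t
  have k2 : gJ h v 2 t = hJ h v t (5 * t + 1) - hJ h v t (5 * t + 2) := gJ_eq h (v := v) 2 t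
  have k3 : gJ h v 3 t = hJ h v t (5 * t + 2) - hJ h v t (5 * t + 3) := gJ_eq h (v := v) 3 t
  have k4 : gJ h v 4 t = hJ h v t (5 * t + 3) - hJ h v t (5 * t + 4) := gJ_eq h (v := v) 4 t
  have k5 : gJ h v 5 t = hJ h v t (5 * t + 4) - hJ h v t (5 * t + 5) := gJ_eq h (v := v) 5 t
  have h1 := hJ_anti h (v := v) (show 5 * t ≤ 5 * t + 1 by omega) t
  rw [Fin.sum_univ_six, k0, k1, k2, k3, k4, k5]
  linarith

/-- the thin labels do not see the labels of the tops -/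
theorem ZQ_oldJ (t q : ℕ) (w : Pt (Fin 3) X β φ) : ZQ D v q (old prr t w) = ZQ D v q w := by
  have e1 : all (LP pth (SL v q)) (old prr t w) = all (LP pth (SL v q)) w := by
    funext J
    show SL v q J.1 (old prr t w) = SL v q J.1 w
    unfold SL
    rw [LL_eq]
    refine ⟨rfl, fun l hl => ?_⟩
    exfalso
    have h1 : J.1.card ≤ 1 := J.2
    rw [← hl, Finset.card_erase_of_mem (mem_univ l)] at h1
    simp at h1
  show (_, _) = (_, _)
  rw [e1]
  rfl

/-- the codes of the tops cost nothing, jointly -/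
theorem codeJ {n N1 : ℝ} (R : Run h (pr3 (Fin 3) n N1) (SS1 (Fin 3)) (AdmDep D) v) (hn : 1 ≤ n) (hN1 : 1 ≤ N1)
    (t : ℕ) (i : Fin 3) :
    (D.P h (t + 1)).Hc (FQ v (t + 1) i) (fun w => (FQ v t i w, ZQ D v (5 * t + 5) w)) ≤ 0 := by
  set J : Finset (Fin 3) := univ.erase i with hJd
  have hc : cost (D.P h (t + 1)) (BB D (t + 1)) (LL (Um v (t + 1))) (Vt v (t + 1)) J = 0 := by
    refine R.top_cost (mem_SS1.2 (ne_univ i)) (top_max (fun hh => mem_SS1.1 hh rfl)) ?_ (t + 1)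
    exact zero_lt_one.trans_le (pr3_one hn hN1 _)
  have h1 : (D.P h (t + 1)).Hc (FQ v (t + 1) i) (fun w => (FQ v t i w, ZQ D v (5 * t + 5) w)) ≤
      (D.P h (t + 1)).Hc (Vt v (t + 1) J) (fun w => (FQ v t i w, ZQ D v (5 * t + 5) w)) := by
    refine (D.P h (t + 1)).Hc_mono _ ?_
    intro a b hab
    simp only [Prod.mk.injEq] at hab
    obtain ⟨h2, h3, _⟩ := hab
    have h4 : LL (φ := φ) (Um v (t + 1)) J a = LL (Um v (t + 1)) J b := h3
    show LL (Um v (t + 1 + 1)) J a = LL (Um v (t + 1 + 1)) J b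
    rw [LL_eq] at h4 ⊢
    exact ⟨Um_eq.2 ⟨h4.1, h2⟩, h4.2⟩
  have h3 : (D.P h (t + 1)).Hc (Vt v (t + 1) J) (fun w => (FQ v t i w, ZQ D v (5 * t + 5) w)) ≤
      cost (D.P h (t + 1)) (BB D (t + 1)) (LL (Um v (t + 1))) (Vt v (t + 1)) J := by
    unfold cost
    refine (D.P h (t + 1)).Hc_anti _ ?_
    intro a b hab
    simp only [Prod.mk.injEq] at hab ⊢
    obtain ⟨h4, h5⟩ := hab
    have h4' : LL (φ := φ) (Um v (t + 1)) J a = LL (Um v (t + 1)) J b := h4
    have h6 := ZQ_Zb (φ := φ) (D := D) (v := v) (5 * t + 5) i a b h5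
    rw [ZbQ_5] at h6
    have h8 : lo (LL (φ := φ) (Um v (t + 2))) J a = lo (LL (Um v (t + 2))) J b := congrArg Prod.fst h6
    have h9 : BB D (t + 1) J a = BB D (t + 1) J b := congrArg Prod.snd h6
    have h7 : ∀ I, I ⊂ J → LL (φ := φ) (Um v (t + 2)) I a = LL (Um v (t + 2)) I b := lo_eq.1 h8
    refine ⟨lo_eq.2 fun I hI => ?_, ?_, h9⟩
    · have := h7 I hI
      rw [LL_eq] at this
      exact (Um_eq.1 this.1).2
    · rw [le_eq]
      intro I hI
      rcases hI.eq_or_ssubset with rfl | hI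
      · exact h4'
      · have := h7 I hI
        rw [LL_eq] at this ⊢
        exact ⟨(Um_eq.1 this.1).1, this.2⟩
  linarith

/-- births, jointly -/
theorem birthJ (H : D.Hyp dg prr al T Lam) {n N1 : ℝ} (R : Run h (pr3 (Fin 3) n N1) (SS1 (Fin 3)) (AdmDep D) v)
    (hn : 1 ≤ n) (hN1 : 1 ≤ N1) {t : ℕ} (ht : t < T) :
    hJ h v (t + 1) (5 * (t + 1)) ≤ hJ h v t (5 * t + 5) + ∑ i, birth h prr t i := by
  have eq5 : 5 * (t + 1) = 5 * t + 5 := by ring
  have h1 := Hc_tup_via (D.P h (t + 1)) (FQ v (t + 1)) (FQ v t) (ZQ D v (5 * t + 5))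
  have h2 : ∑ i, (D.P h (t + 1)).Hc (FQ v (t + 1) i) (fun w => (FQ v t i w, ZQ D v (5 * t + 5) w)) ≤ 0 :=
    Finset.sum_nonpos fun i _ => codeJ h R hn hN1 t i
  have h3 := Hc_tup_via (D.P h (t + 1)) (FQ v t) (fun i w => FQ v t i (old prr t w)) (ZQ D v (5 * t + 5))
  have h4 : (D.P h (t + 1)).Hc (tup fun i w => FQ v t i (old prr t w)) (ZQ D v (5 * t + 5)) = hJ h v t (5 * t + 5) := by
    unfold hJ
    rw [← push_Hc h (H.kf_pr t ht) (tup (FQ v t)) (ZQ D v (5 * t + 5))]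
    congr 1
    funext w
    exact (ZQ_oldJ t (5 * t + 5) w).symm
  have h5 : ∀ i, (D.P h (t + 1)).Hc (FQ v t i) (fun w => (FQ v t i (old prr t w), ZQ D v (5 * t + 5) w)) ≤
      birth h prr t i := by
    intro i
    set J : Finset (Fin 3) := univ.erase i with hJd
    have g1 : (D.P h (t + 1)).Hc (FQ v t i) (fun w => (FQ v t i (old prr t w), ZQ D v (5 * t + 5) w)) ≤
        (D.P h (t + 1)).Hc (fun w => w.2.2 i) (fun w => (FQ v t i (old prr t w), ZQ D v (5 * t + 5) w)) := by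
      refine (D.P h (t + 1)).Hc_mono _ ?_
      intro a b hab
      simp only [Prod.mk.injEq] at hab
      obtain ⟨h2, h3, _⟩ := hab
      have h4 : LL (φ := φ) (Um v (t + 1)) J (old prr t a) = LL (Um v (t + 1)) J (old prr t b) := h3
      show LL (Um v (t + 1)) J a = LL (Um v (t + 1)) J b
      rw [LL_eq] at h4 ⊢
      refine ⟨h4.1, fun l' hl' => ?_⟩
      have : l' = i := erase_inj' (hl'.trans hJd)
      rw [this]; exact h2
    have g2 : (D.P h (t + 1)).Hc (fun w => w.2.2 i) (fun w => (FQ v t i (old prr t w), ZQ D v (5 * t + 5) w)) ≤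
        (D.P h (t + 1)).Hc (fun w => w.2.2 i) (fun w => (prr t i (w.2.2 i), BB D (t + 1) J w)) := by
      refine (D.P h (t + 1)).Hc_anti _ ?_
      intro a b hab
      simp only [Prod.mk.injEq] at hab ⊢
      have h4 : LL (φ := φ) (Um v (t + 1)) J (old prr t a) = LL (Um v (t + 1)) J (old prr t b) := hab.1
      have h6 := ZQ_Zb (φ := φ) (D := D) (v := v) (5 * t + 5) i a b hab.2
      rw [ZbQ_5] at h6
      rw [LL_eq] at h4
      exact ⟨h4.2 i rfl, congrArg Prod.snd h6⟩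
    have g3 := birth_BB h (prr := prr) (t := t) (J := J) (l := i) rfl
    linarith
  have h6 := Finset.sum_le_sum fun i (_ : i ∈ (univ : Finset (Fin 3))) => h5 i
  rw [eq5]
  have h7 : hJ h v (t + 1) (5 * t + 5) = (D.P h (t + 1)).Hc (tup (FQ v (t + 1))) (ZQ D v (5 * t + 5)) := rfl
  rw [h7]
  linarith

theorem startJ {n N1 : ℝ} (R : Run h (pr3 (Fin 3) n N1) (SS1 (Fin 3)) (AdmDep D) v)
    (hn : 1 ≤ n) (hN1 : 1 ≤ N1) : hJ h v 0 0 ≤ ∑ i, birth0 h i := by
  have h1 := Hc_tup_le (D.P h 0) (FQ v 0) (ZQ D v 0)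
  have h2 : ∀ i, (D.P h 0).Hc (FQ v 0 i) (ZQ D v 0) ≤ birth0 h i := by
    intro i
    have g1 : (D.P h 0).Hc (FQ v 0 i) (ZQ D v 0) ≤ (D.P h 0).Hc (FQ v 0 i) (ZbQ D v 0 i) :=
      (D.P h 0).Hc_anti _ (ZQ_Zb 0 i)
    have g2 := hQ_0 h (v := v) 0 i
    have g3 := TG.start_le h R hn hN1 i
    have g4 : (D.P h 0).Hc (FQ v 0 i) (ZbQ D v 0 i) = hQ h v 0 (5 * 0) i := rfl
    linarith
  have h3 := Finset.sum_le_sum fun i (_ : i ∈ (univ : Finset (Fin 3))) => h2 i
  unfold hJ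
  linarith

/-- **THE JOINT GAINS OF THE TOPS** in the six steps of all times -/
theorem gJ_sum (H : D.Hyp dg prr al T Lam) {n N1 : ℝ} (R : Run h (pr3 (Fin 3) n N1) (SS1 (Fin 3)) (AdmDep D) v)
    (hn : 1 ≤ n) (hN1 : 1 ≤ N1) : ∑ t ∈ range T, ∑ s, gJ h v s t ≤ 6 * Lam := by
  have key : ∀ S ≤ T, ∑ t ∈ range S, (hJ h v t (5 * t) - hJ h v t (5 * t + 5)) + hJ h v S (5 * S) ≤
      ∑ i, birth0 h i + ∑ t ∈ range S, ∑ i, birth h prr t i := by
    intro S
    induction S with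
    | zero =>
      intro _
      rw [Finset.sum_range_zero, Finset.sum_range_zero, zero_add, add_zero]
      exact startJ h R hn hN1
    | succ S ih =>
      intro hS
      have h0 := ih (by omega)
      have h2 := birthJ h H R hn hN1 (show S < T by omega)
      rw [Finset.sum_range_succ, Finset.sum_range_succ]
      linarith
  have h1 := key T le_rfl
  have h2 := Finset.sum_le_sum fun i (_ : i ∈ (univ : Finset (Fin 3))) => birth_le h H i
  rw [Finset.sum_add_distrib, Finset.sum_comm] at h2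
  rw [Finset.sum_const, Finset.card_univ, Fintype.card_fin, nsmul_eq_mul] at h2
  push_cast at h2
  have h3 : 0 ≤ hJ h v T (5 * T) := hJ_nn h T _
  have h4 : ∑ t ∈ range T, ∑ s, gJ h v s t ≤ ∑ t ∈ range T, 2 * (hJ h v t (5 * t) - hJ h v t (5 * t + 5)) :=
    Finset.sum_le_sum fun t _ => gJ_six h t
  rw [← Finset.mul_sum] at h4
  linarith

/-! ### one top, given all thin labels -/

variable (v) in
/-- entropy of the top `i` given ALL thin labels of the state `q`, law of the time `t` -/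
def hA (t q : ℕ) (i : Fin 3) : ℝ := (D.P h t).Hc (FQ v t i) (ZQ D v q)

variable (v) in
/-- the gain of the top `i` in the step `(s, t)`, given ALL thin labels -/
def gA (s : Fin 6) (t : ℕ) (i : Fin 3) : ℝ := gn (D.P h t) (ZQ D v (qs s t)) (FQ v t i) (ZQ D v (qe s t))

theorem hA_anti {q q' : ℕ} (hq : q ≤ q') (t : ℕ) (i : Fin 3) : hA h v t q' i ≤ hA h v t q i :=
  (D.P h t).Hc_anti _ (ZQ_mono hq)

theorem gA_nn (s : Fin 6) (t : ℕ) (i : Fin 3) : 0 ≤ gA h v s t i := gn_nn _ _ _ _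

theorem gA_I (s : Fin 6) (t : ℕ) (i : Fin 3) :
    gA h v s t i = (D.P h t).I (ZQ D v (qe s t)) (FQ v t i) (ZQ D v (qs s t)) := gn_eq _ _ _ _

theorem gA_eq (s : Fin 6) (t : ℕ) (i : Fin 3) : gA h v s t i = hA h v t (qs s t) i - hA h v t (qe s t) i := by
  unfold gA hA
  rw [gn_eq, (D.P h t).I_eq_Hc']
  congr 1
  refine le_antisymm ((D.P h t).Hc_anti _ fun a b hab => ?_) ((D.P h t).Hc_anti _ fun a b hab => ?_)
  · exact (Prod.mk.inj hab).1
  · simp only [Prod.mk.injEq]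
    exact ⟨hab, ZQ_mono (qs_le_qe s t) a b hab⟩

theorem gA_six (t : ℕ) (i : Fin 3) : ∑ s, gA h v s t i ≤ 2 * (hA h v t (5 * t) i - hA h v t (5 * t + 5) i) := by
  have k0 : gA h v 0 t i = hA h v t (5 * t) i - hA h v t (5 * t + 1) i := gA_eq h (v := v) 0 t i
  have k1 : gA h v 1 t i = hA h v t (5 * t + 1) i - hA h v t (5 * t + 5) i := gA_eq h (v := v) 1 t i
  have k2 : gA h v 2 t i = hA h v t (5 * t + 1) i - hA h v t (5 * t + 2) i := gA_eq h (v := v) 2 t i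
  have k3 : gA h v 3 t i = hA h v t (5 * t + 2) i - hA h v t (5 * t + 3) i := gA_eq h (v := v) 3 t i
  have k4 : gA h v 4 t i = hA h v t (5 * t + 3) i - hA h v t (5 * t + 4) i := gA_eq h (v := v) 4 t i
  have k5 : gA h v 5 t i = hA h v t (5 * t + 4) i - hA h v t (5 * t + 5) i := gA_eq h (v := v) 5 t i
  have h1 := hA_anti h (v := v) (show 5 * t ≤ 5 * t + 1 by omega) t i
  rw [Fin.sum_univ_six, k0, k1, k2, k3, k4, k5]
  linarith

/-- births of one top -/
theorem birthA (H : D.Hyp dg prr al T Lam) {n N1 : ℝ} (R : Run h (pr3 (Fin 3) n N1) (SS1 (Fin 3)) (AdmDep D) v)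
    (hn : 1 ≤ n) (hN1 : 1 ≤ N1) {t : ℕ} (ht : t < T) (i : Fin 3) :
    hA h v (t + 1) (5 * (t + 1)) i ≤ hA h v t (5 * t + 5) i + birth h prr t i := by
  have eq5 : 5 * (t + 1) = 5 * t + 5 := by ring
  have c1 := codeJ h R hn hN1 t i
  have a1 : (D.P h (t + 1)).Hc (FQ v (t + 1) i) (ZQ D v (5 * t + 5)) ≤
      (D.P h (t + 1)).Hc (FQ v t i) (ZQ D v (5 * t + 5)) := by
    have g1 : (D.P h (t + 1)).Hc (FQ v (t + 1) i) (ZQ D v (5 * t + 5)) ≤
        (D.P h (t + 1)).Hc (fun w => (FQ v (t + 1) i w, FQ v t i w)) (ZQ D v (5 * t + 5)) :=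
      (D.P h (t + 1)).Hc_mono _ fun a b hab => (Prod.mk.inj (Prod.mk.inj hab).1).1
    have g2 := (D.P h (t + 1)).Hc_chain (FQ v (t + 1) i) (FQ v t i) (ZQ D v (5 * t + 5))
    linarith
  have a2 : (D.P h (t + 1)).Hc (FQ v t i) (ZQ D v (5 * t + 5)) ≤
      (D.P h (t + 1)).Hc (fun w => FQ v t i (old prr t w)) (ZQ D v (5 * t + 5)) + birth h prr t i := by
    set J : Finset (Fin 3) := univ.erase i with hJd
    have g0 : (D.P h (t + 1)).Hc (FQ v t i) (ZQ D v (5 * t + 5)) ≤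
        (D.P h (t + 1)).Hc (fun w => (w.2.2 i, FQ v t i (old prr t w))) (ZQ D v (5 * t + 5)) := by
      refine (D.P h (t + 1)).Hc_mono _ ?_
      intro a b hab
      simp only [Prod.mk.injEq] at hab
      obtain ⟨⟨h2, h3⟩, _⟩ := hab
      have h4 : LL (φ := φ) (Um v (t + 1)) J (old prr t a) = LL (Um v (t + 1)) J (old prr t b) := h3
      show LL (Um v (t + 1)) J a = LL (Um v (t + 1)) J b
      rw [LL_eq] at h4 ⊢
      refine ⟨h4.1, fun l' hl' => ?_⟩
      have : l' = i := erase_inj' (hl'.trans hJd)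
      rw [this]; exact h2
    have g1 := (D.P h (t + 1)).Hc_chain (fun w => w.2.2 i) (fun w => FQ v t i (old prr t w)) (ZQ D v (5 * t + 5))
    have g2 : (D.P h (t + 1)).Hc (fun w => w.2.2 i) (fun w => (FQ v t i (old prr t w), ZQ D v (5 * t + 5) w)) ≤
        (D.P h (t + 1)).Hc (fun w => w.2.2 i) (fun w => (prr t i (w.2.2 i), BB D (t + 1) J w)) := by
      refine (D.P h (t + 1)).Hc_anti _ ?_
      intro a b hab
      simp only [Prod.mk.injEq] at hab ⊢
      have h4 : LL (φ := φ) (Um v (t + 1)) J (old prr t a) = LL (Um v (t + 1)) J (old prr t b) := hab.1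
      have h6 := ZQ_Zb (φ := φ) (D := D) (v := v) (5 * t + 5) i a b hab.2
      rw [ZbQ_5] at h6
      rw [LL_eq] at h4
      exact ⟨h4.2 i rfl, congrArg Prod.snd h6⟩
    have g3 := birth_BB h (prr := prr) (t := t) (J := J) (l := i) rfl
    linarith
  have a3 : (D.P h (t + 1)).Hc (fun w => FQ v t i (old prr t w)) (ZQ D v (5 * t + 5)) = hA h v t (5 * t + 5) i := by
    unfold hA
    rw [← push_Hc h (H.kf_pr t ht) (FQ v t i) (ZQ D v (5 * t + 5))]
    congr 1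
    funext w
    exact (ZQ_oldJ t (5 * t + 5) w).symm
  rw [eq5]
  have h7 : hA h v (t + 1) (5 * t + 5) i = (D.P h (t + 1)).Hc (FQ v (t + 1) i) (ZQ D v (5 * t + 5)) := rfl
  rw [h7]
  linarith

theorem startA {n N1 : ℝ} (R : Run h (pr3 (Fin 3) n N1) (SS1 (Fin 3)) (AdmDep D) v)
    (hn : 1 ≤ n) (hN1 : 1 ≤ N1) (i : Fin 3) : hA h v 0 0 i ≤ birth0 h i := by
  have g1 : (D.P h 0).Hc (FQ v 0 i) (ZQ D v 0) ≤ (D.P h 0).Hc (FQ v 0 i) (ZbQ D v 0 i) :=
    (D.P h 0).Hc_anti _ (ZQ_Zb 0 i)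
  have g2 := hQ_0 h (v := v) 0 i
  have g3 := TG.start_le h R hn hN1 i
  have g4 : (D.P h 0).Hc (FQ v 0 i) (ZbQ D v 0 i) = hQ h v 0 (5 * 0) i := rfl
  unfold hA
  linarith

/-- **THE GAINS OF ONE TOP GIVEN ALL THIN LABELS** in the six steps of all times -/
theorem gA_sum (H : D.Hyp dg prr al T Lam) {n N1 : ℝ} (R : Run h (pr3 (Fin 3) n N1) (SS1 (Fin 3)) (AdmDep D) v)
    (hn : 1 ≤ n) (hN1 : 1 ≤ N1) (i : Fin 3) : ∑ t ∈ range T, ∑ s, gA h v s t i ≤ 2 * Lam := by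
  have key : ∀ S ≤ T, ∑ t ∈ range S, (hA h v t (5 * t) i - hA h v t (5 * t + 5) i) + hA h v S (5 * S) i ≤
      birth0 h i + ∑ t ∈ range S, birth h prr t i := by
    intro S
    induction S with
    | zero =>
      intro _
      rw [Finset.sum_range_zero, Finset.sum_range_zero, zero_add, add_zero]
      exact startA h R hn hN1 i
    | succ S ih =>
      intro hS
      have h0 := ih (by omega)
      have h2 := birthA h H R hn hN1 (show S < T by omega) i
      rw [Finset.sum_range_succ, Finset.sum_range_succ]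
      linarith
  have h1 := key T le_rfl
  have h2 := birth_le h H i
  have h3 : 0 ≤ hA h v T (5 * T) i := FP.Hc_nonneg _ _ _
  have h4 : ∑ t ∈ range T, ∑ s, gA h v s t i ≤ ∑ t ∈ range T, 2 * (hA h v t (5 * t) i - hA h v t (5 * t + 5) i) :=
    Finset.sum_le_sum fun t _ => gA_six h t i
  rw [← Finset.mul_sum] at h4
  linarith

end hd

end

end Pool.Agent.GMH.TP
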