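import Pool.Agent.GMH.Hot2S
import Pool.Agent.GMH.TopGJ

/-!
# GMH/Hot2p: the potential of the hot PAIRS over the run (helper89; notes 4068, 4081, row K1 / (K) for pairs)

Frame `Fo (FQ v t) i` (the two tops `j ≠ i`), states of `GMH/TopDef`, steps of `GMH/TopStep`.
* `psF P Z Zb F` : log density of the tuple `F` at the true tuple by surprisals (`psC_psF`); `psF_exp`, `psF_grow`, `psF_hph` :
  finer tops never lower the mean of `hph t0 psF` on an event of the old tops and `Z`;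
* `Gp` : gain of a potential between two states; `run_potS`, `run_potT` : **any potential** with bounds, births and end;
* `ps2` : log density of the pair without `i`; `ps2_top`, `ps2_birth`, `ps2_end`;
* `hot2_stepS`, `hot2_stepT` : **the gains of all steps together** for the pair.
-/

set_option autoImplicit false
set_option linter.unusedSectionVars false

namespace Pool.Agent.GMH.Hot2

open Finset Pool.Agent.PWZ Pool.Agent.M3 Pool.Agent.GM Pool.Agent.GM.Harm Pool.Agent.GMH Pool.Agent.GMH.NZ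
open Pool.Agent.GMH.V3 Pool.Agent.GMH.V3.TT Pool.Agent.GMH.TP

noncomputable section

/-! ### any frame -/

section gen

variable {Om : Type*} [Fintype Om] (P : FP Om) {I α β' φ₁ φ₂ : Type*} [Fintype I] [DecidableEq I]

/-- log density of the tuple at the true tuple -/
def psF (Z : Om → β') (Zb : I → Om → α) (F : I → Om → φ₁) (w : Om) : ℝ :=
  ∑ i, sp P (F i) (Zb i) w - sp P (tup F) Z w

theorem psC_psF {Z : Om → β'} {Zb : I → Om → α} {F : I → Om → φ₁} {w : Om} (hw : P.p w ≠ 0) :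
    psC P Z Zb F w (tup F w) = psF P Z Zb F w := psC_true P F hw

/-- **normalisation** -/
theorem psF_exp (Z : Om → β') (Zb : I → Om → α) (hZ : ∀ i, Fac Z (Zb i)) (F : I → Om → φ₁) {S : Om → Prop}
    (hS : Fac Z S) : P.E (fun w => ind (S w) * Real.exp (-psF P Z Zb F w)) ≤ P.Pr S := by
  classical
  set G : Om → (I → φ₁) → ℝ := fun w f => (∏ i, P.pv (Zb i) (F i) w (f i)) / P.pv Z (tup F) w f with hG
  have hGf : ∀ f, Fac Z (fun w => G w f) := fun f a b hab => by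
    have g2 : ∀ i, P.pv (Zb i) (F i) a (f i) = P.pv (Zb i) (F i) b (f i) := fun i =>
      P.pv_fac _ _ _ a b (hZ i a b hab)
    have g4 : P.pv Z (tup F) a f = P.pv Z (tup F) b f := P.pv_fac _ _ _ a b hab
    show (∏ i, P.pv (Zb i) (F i) a (f i)) / P.pv Z (tup F) a f = (∏ i, P.pv (Zb i) (F i) b (f i)) / P.pv Z (tup F) b f
    simp only [g2, g4]
  have e1 : ∀ w, P.p w ≠ 0 → Real.exp (-psF P Z Zb F w) = G w (tup F w) := by
    intro w hw
    rw [← psC_psF P hw]
    have h1 := P.pv_self_pos Z (tup F) hw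
    have h2 : ∀ i, 0 < P.pv (Zb i) (F i) w (tup F w i) := fun i => P.pv_self_pos (Zb i) (F i) hw
    unfold psC
    rw [← Real.log_inv, inv_div, Real.exp_log (div_pos (Finset.prod_pos fun i _ => h2 i) h1)]
  have e2 : P.E (fun w => ind (S w) * Real.exp (-psF P Z Zb F w)) =
      P.E (fun w => ind (S w) * P.ce Z (fun u => G u (tup F u)) w) := by
    rw [P.E_mul_ce (hS.comp fun q => ind q)]
    exact P.E_congr fun w hw => by rw [e1 w hw]
  rw [e2]
  refine P.E_mono fun w hw => ?_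
  refine mul_le_of_le_one_right (ind_nonneg _) ?_
  rw [← P.sum_pv (W := Z) (tup F) (F := G) hGf w]
  have h3 : ∑ f ∈ vals (tup F), P.pv Z (tup F) w f * G w f ≤ ∑ f ∈ let_ F, ∏ i, P.pv (Zb i) (F i) w (f i) := by
    have h4 : ∀ f, P.pv Z (tup F) w f * G w f ≤ ∏ i, P.pv (Zb i) (F i) w (f i) := by
      intro f
      have h5 : 0 ≤ ∏ i, P.pv (Zb i) (F i) w (f i) := Finset.prod_nonneg fun i _ => P.pv_nonneg _ _ _ _
      rcases (P.pv_nonneg Z (tup F) w f).eq_or_lt with h6 | h6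
      · rw [← h6, zero_mul]; exact h5
      · exact le_of_eq (mul_div_cancel₀ _ h6.ne')
    refine (Finset.sum_le_sum fun f _ => h4 f).trans ?_
    refine Finset.sum_le_sum_of_subset_of_nonneg (fun f hf => ?_) fun f _ _ => Finset.prod_nonneg fun i _ => P.pv_nonneg _ _ _ _
    obtain ⟨u, rfl⟩ := exists_of_vals hf
    exact tup_mem F u
  refine h3.trans (le_of_eq ?_)
  have h7 := Finset.prod_univ_sum (fun i => vals (F i)) (fun i x => P.pv (Zb i) (F i) w x)
  unfold let_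
  rw [← h7]
  exact Finset.prod_eq_one fun i _ => P.pv_sum (Zb i) (F i) hw

/-- **finer tops** -/
theorem psF_grow {Z : Om → β'} {Zb : I → Om → α} (hZ : ∀ i, Fac Z (Zb i)) {F : I → Om → φ₁} {F' : I → Om → φ₂}
    (hF : ∀ i, Fac (fun w => (F' i w, Zb i w)) (F i)) {S : Om → Prop} (hS : Fac (fun w => (tup F w, Z w)) S) :
    P.E (fun w => ind (S w) * (psF P Z Zb F w - psF P Z Zb F' w)) ≤ 0 := by
  classical
  have k := psF_exp P (fun w => (tup F w, Z w)) (fun i w => (F i w, Zb i w)) (fun i a b hab => by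
    simp only [Prod.mk.injEq] at hab ⊢
    exact ⟨congrFun hab.1 i, hZ i a b hab.2⟩) F' hS
  have e1 : ∀ w, psF P (fun w => (tup F w, Z w)) (fun i w => (F i w, Zb i w)) F' w =
      psF P Z Zb F' w - psF P Z Zb F w := by
    intro w
    unfold psF
    have a1 : ∀ i, sp P (F' i) (Zb i) w = sp P (F i) (Zb i) w + sp P (F' i) (fun w => (F i w, Zb i w)) w := by
      intro i
      have b1 := sp_chain P (F' i) (F i) (Zb i) w
      have b2 : sp P (fun w => (F' i w, F i w)) (Zb i) w = sp P (F' i) (Zb i) w :=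
        sp_congr P (fun a b hab => (Prod.mk.inj (Prod.mk.inj hab).1).1) (Fac.refl _)
          (fun a b hab => by
            have := hF i a b hab
            simp only [Prod.mk.injEq] at hab ⊢
            exact ⟨hab.1, this⟩) (Fac.refl _) w
      rw [← b2]
      exact b1
    have a2 : sp P (tup F') Z w = sp P (tup F) Z w + sp P (tup F') (fun w => (tup F w, Z w)) w := by
      have b1 := sp_chain P (tup F') (tup F) Z w
      have b2 : sp P (fun w => (tup F' w, tup F w)) Z w = sp P (tup F') Z w :=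
        sp_congr P (fun a b hab => (Prod.mk.inj (Prod.mk.inj hab).1).1) (Fac.refl _)
          (fun a b hab => by
            simp only [Prod.mk.injEq] at hab ⊢
            refine ⟨hab.1, funext fun i => hF i a b ?_⟩
            simp only [Prod.mk.injEq]
            exact ⟨congrFun hab.1 i, hZ i a b hab.2⟩) (Fac.refl _) w
      rw [← b2]
      exact b1
    rw [a2, Finset.sum_congr rfl fun i _ => a1 i, Finset.sum_add_distrib]
    ring
  have h1 : P.E (fun w => ind (S w) * (psF P Z Zb F w - psF P Z Zb F' w)) ≤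
      P.E (fun w => ind (S w) * Real.exp (-psF P (fun w => (tup F w, Z w)) (fun i w => (F i w, Zb i w)) F' w)) - P.Pr S := by
    have e2 : P.E (fun w => ind (S w) * Real.exp (-psF P (fun w => (tup F w, Z w)) (fun i w => (F i w, Zb i w)) F' w)) -
        P.Pr S = P.E (fun w => ind (S w) *
          Real.exp (-psF P (fun w => (tup F w, Z w)) (fun i w => (F i w, Zb i w)) F' w) - ind (S w)) := by
      rw [P.E_sub]
      rfl
    rw [e2]
    refine P.E_mono fun w _ => ?_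
    rw [e1 w]
    have h2 := Real.add_one_le_exp (-(psF P Z Zb F' w - psF P Z Zb F w))
    have h3 := mul_le_mul_of_nonneg_left h2 (ind_nonneg (S w))
    nlinarith [ind_nonneg (S w)]
  linarith

theorem psF_fac (Z : Om → β') (Zb : I → Om → α) (hZ : ∀ i, Fac Z (Zb i)) (F : I → Om → φ₁) :
    Fac (fun w => (tup F w, Z w)) (psF P Z Zb F) := by
  have e1 : ∀ i, Fac (fun w => (tup F w, Z w)) (sp P (F i) (Zb i)) := fun i =>
    sp_of_fac P fun a b hab => by
      simp only [Prod.mk.injEq] at hab ⊢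
      exact ⟨congrFun hab.1 i, hZ i a b hab.2⟩
  have e2 : Fac (fun w => (tup F w, Z w)) (sp P (tup F) Z) := sp_of_fac P (Fac.refl _)
  intro a b hab
  unfold psF
  rw [e2 a b hab, Finset.sum_congr rfl fun i _ => e1 i a b hab]

/-- **finer tops, the hot part** -/
theorem psF_hph (t0 : ℝ) {Z : Om → β'} {Zb : I → Om → α} (hZ : ∀ i, Fac Z (Zb i)) {F : I → Om → φ₁} {F' : I → Om → φ₂}
    (hF : ∀ i, Fac (fun w => (F' i w, Zb i w)) (F i)) {S : Om → Prop} (hS : Fac (fun w => (tup F w, Z w)) S) :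
    P.E (fun w => ind (S w) * hph t0 (psF P Z Zb F w)) ≤ P.E (fun w => ind (S w) * hph t0 (psF P Z Zb F' w)) := by
  have hS2 : Fac (fun w => (tup F w, Z w)) (fun w => S w ∧ t0 < psF P Z Zb F w) := by
    intro a b hab
    have h1 := hS a b hab
    have h2 := psF_fac P Z Zb hZ F a b hab
    show (S a ∧ t0 < psF P Z Zb F a) = (S b ∧ t0 < psF P Z Zb F b)
    rw [h1, h2]
  have k := psF_grow P hZ hF hS2
  have k2 : P.E (fun w => ind (S w) * hph t0 (psF P Z Zb F w)) - P.E (fun w => ind (S w) * hph t0 (psF P Z Zb F' w)) ≤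
      P.E (fun w => ind (S w ∧ t0 < psF P Z Zb F w) * (psF P Z Zb F w - psF P Z Zb F' w)) := by
    rw [← P.E_sub]
    refine P.E_mono fun w _ => ?_
    by_cases hw : S w
    · have h1 := hph_sub_le t0 (psF P Z Zb F w) (psF P Z Zb F' w)
      have h2 : ind (S w ∧ t0 < psF P Z Zb F w) = ind (t0 < psF P Z Zb F w) :=
        ind_cg (by simp only [hw, true_and])
      rw [h2, ind_of hw]
      linarith
    · rw [ind_not hw, ind_not (fun hh => hw hh.1)]
      linarith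
  linarith

/-- mean of the hot part -/
theorem psF_hph_le {t0 : ℝ} (ht0 : 1 ≤ t0) {Z : Om → β'} {Zb : I → Om → α} (hZ : ∀ i, Fac Z (Zb i)) (F : I → Om → φ₁) :
    P.E (fun w => hph t0 (psF P Z Zb F w)) ≤ P.E (psF P Z Zb F) := by
  have h1 := psF_exp P Z Zb hZ F (S := fun _ => True) (fun _ _ _ => rfl)
  have h2 : P.Pr (fun _ : Om => True) = 1 := by
    unfold FP.Pr
    rw [P.E_congr (g := fun _ => 1) fun w _ => ind_of trivial, P.E_const]
  have h3 : P.E (fun w => hph t0 (psF P Z Zb F w)) ≤ P.E (fun w => psF P Z Zb F w - 1 + ind True *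
      Real.exp (-psF P Z Zb F w)) := by
    refine P.E_mono fun w _ => ?_
    rw [ind_of trivial, one_mul]
    exact hph_le_exp ht0 _
  rw [P.E_add (fun w => psF P Z Zb F w - 1), P.E_sub (psF P Z Zb F), P.E_const] at h3
  rw [h2] at h1
  linarith

end gen

/-! ### pushing -/

section push

variable {K X β γ φ : Type} [Fintype K] [DecidableEq K] [Fintype X] [Fintype β] [Fintype φ] [Nonempty X] [Nonempty β]
  {D : HD K X β γ φ} {al : ℝ} (h : D.Thick al) {prr : ℕ → K → φ → φ} {t : ℕ}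

theorem sp_push (hpr : ∀ l x y F, D.kf t l x y F = ∑ F', ind (prr t l F' = F) * D.kf (t + 1) l x y F')
    {κ ι : Type*} (A : Pt K X β φ → κ) (B : Pt K X β φ → ι) (w : Pt K X β φ) :
    sp (D.P h t) A B (old prr t w) = sp (D.P h (t + 1)) (fun u => A (old prr t u)) (fun u => B (old prr t u)) w := by
  unfold sp
  rw [← push_m h hpr B w, ← push_m h hpr (fun v => (A v, B v)) w]

theorem psF_push (hpr : ∀ l x y F, D.kf t l x y F = ∑ F', ind (prr t l F' = F) * D.kf (t + 1) l x y F')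
    {I α β' φ₁ : Type*} [Fintype I] (Z : Pt K X β φ → β') (Zb : I → Pt K X β φ → α) (F : I → Pt K X β φ → φ₁)
    (w : Pt K X β φ) :
    psF (D.P h t) Z Zb F (old prr t w) = psF (D.P h (t + 1)) (fun u => Z (old prr t u)) (fun i u => Zb i (old prr t u))
      (fun i u => F i (old prr t u)) w := by
  unfold psF
  rw [sp_push h hpr, Finset.sum_congr rfl fun i _ => sp_push h hpr (F i) (Zb i) w]
  rfl

end push


/-! ### any potential over the run -/

section run

variable {X β γ φ : Type} [Fintype X] [Fintype β] [Fintype φ] [Nonempty X] [Nonempty β]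
variable {D : HD (Fin 3) X β γ φ} {al : ℝ} (h : D.Thick al)
  {v : ℕ → Finset (Fin 3) → X → (Fin 3 → β) → Pt (Fin 3) X β φ}
variable {dg : ℕ → X → ℝ} {prr : ℕ → Fin 3 → φ → φ} {T : ℕ} {Lam : ℝ}

/-- gain of a potential from the state `q` to the state `q'` on the points of `a` -/
def Gp (Φ : ℕ → ℕ → Pt (Fin 3) X β φ → ℝ) (t q q' : ℕ) (a : Pt (Fin 3) X β φ → Prop) : ℝ :=
  (D.P h t).E (fun w => ind (a w) * (Φ t q' w - Φ t q w))

theorem Gp_split (Φ : ℕ → ℕ → Pt (Fin 3) X β φ → ℝ) (p : AP) (Gd : ℕ → Pt (Fin 3) X β φ → Prop) (t : ℕ) :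
    Gp h Φ t (5 * t + 1) (5 * t + 5) (Ar h v p (2 * t + 1)) =
      ∑ s ∈ univ.erase (0 : Fin 6), Gp h Φ t (qs s t) (qe s t) (aS h v p Gd s t) := by
  classical
  have e0 : (univ.erase (0 : Fin 6)) = {1, 2, 3, 4, 5} := by decide
  have e1 : Gp h Φ t (5 * t + 1) (5 * t + 5) (Ar h v p (2 * t + 1)) =
      Gp h Φ t (5 * t + 1) (5 * t + 5) (fun w => Ar h v p (2 * t + 1) w ∧ ¬ HV h v t w) +
      (Gp h Φ t (5 * t + 1) (5 * t + 2) (fun w => Ar h v p (2 * t + 1) w ∧ HV h v t w) +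
      (Gp h Φ t (5 * t + 2) (5 * t + 3) (fun w => Ar h v p (2 * t + 1) w ∧ HV h v t w) +
      (Gp h Φ t (5 * t + 3) (5 * t + 4) (fun w => Ar h v p (2 * t + 1) w ∧ HV h v t w) +
      Gp h Φ t (5 * t + 4) (5 * t + 5) (fun w => Ar h v p (2 * t + 1) w ∧ HV h v t w)))) := by
    unfold Gp
    rw [← (D.P h t).E_add, ← (D.P h t).E_add, ← (D.P h t).E_add, ← (D.P h t).E_add]
    refine (D.P h t).E_congr fun w _ => ?_
    by_cases hA : Ar h v p (2 * t + 1) w
    · by_cases hH : HV h v t w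
      · rw [ind_of hA, ind_not (fun hh : Ar h v p (2 * t + 1) w ∧ ¬ HV h v t w => hh.2 hH),
          ind_of (⟨hA, hH⟩ : Ar h v p (2 * t + 1) w ∧ HV h v t w)]
        ring
      · rw [ind_of hA, ind_of (⟨hA, hH⟩ : Ar h v p (2 * t + 1) w ∧ ¬ HV h v t w),
          ind_not (fun hh : Ar h v p (2 * t + 1) w ∧ HV h v t w => hH hh.2)]
        ring
    · rw [ind_not hA, ind_not (fun hh : Ar h v p (2 * t + 1) w ∧ ¬ HV h v t w => hA hh.1),
        ind_not (fun hh : Ar h v p (2 * t + 1) w ∧ HV h v t w => hA hh.1)]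
      ring
  rw [e1, e0, Finset.sum_insert (by decide), Finset.sum_insert (by decide), Finset.sum_insert (by decide),
    Finset.sum_insert (by decide), Finset.sum_singleton]
  rfl

theorem Gp_sub (Φ : ℕ → ℕ → Pt (Fin 3) X β φ → ℝ) (t q q' : ℕ) (a : Pt (Fin 3) X β φ → Prop) :
    Gp h Φ t q q' a = (D.P h t).E (fun w => ind (a w) * Φ t q' w) - (D.P h t).E (fun w => ind (a w) * Φ t q w) := by
  unfold Gp
  rw [← FP.E_sub]
  exact (D.P h t).E_congr fun w _ => by ring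

/-- what a potential needs -/
structure Pot (Φ : ℕ → ℕ → Pt (Fin 3) X β φ → ℝ) (v : ℕ → Finset (Fin 3) → X → (Fin 3 → β) → Pt (Fin 3) X β φ)
    (p : AP) (T : ℕ) (B mE : ℝ) : Prop where
  nn : ∀ t q w, 0 ≤ Φ t q w
  B0 : 0 ≤ B
  le : ∀ t ≤ T, ∀ q, 5 * t ≤ q → ∀ w, (D.P h t).p w ≠ 0 → Φ t q w ≤ B
  birth : ∀ t < T, (D.P h t).E (fun w => ind (Ar h v p (2 * t + 1) w) * Φ t (5 * t + 5) w) ≤
    (D.P h (t + 1)).E (fun w => ind (Ar h v p (2 * t + 1) w) * Φ (t + 1) (5 * (t + 1)) w)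
  fin : (D.P h T).E (fun w => Φ T (5 * T) w) ≤ mE

/-- **ANY POTENTIAL, ALL STEPS**, alive sets `aS` -/
theorem run_potS (H : D.Hyp dg prr al T Lam) {Φ : ℕ → ℕ → Pt (Fin 3) X β φ → ℝ} {p : AP} {B mE : ℝ}
    (hΦ : Pot h Φ v p T B mE) (Gd : ℕ → Pt (Fin 3) X β φ → Prop) {Pd : ℝ}
    (hPd : (D.P h T).Pr (fun w => ¬ Ar h v p (2 * T) w) ≤ Pd) :
    ∑ t ∈ range T, (Gp h Φ t (5 * t) (5 * t + 1) (fun w => Ar h v p (2 * t) w ∧ Gd t w) +
      ∑ s, Gp h Φ t (qs s t) (qe s t) (aS h v p Gd s t)) ≤ mE + B * Pd := by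
  classical
  set M : ℕ → ℝ := fun t => (D.P h t).E (fun w => ind (Ar h v p (2 * t) w) * Φ t (5 * t) w) with hM
  have kill : ∀ (t q r : ℕ), t ≤ T → 5 * t ≤ q → (D.P h t).E (fun w => ind (Ar h v p r w) * Φ t q w) ≤
      (D.P h t).E (fun w => ind (Ar h v p (r + 1) w) * Φ t q w) +
        B * (D.P h t).Pr (fun w => Ar h v p r w ∧ ¬ Ar h v p (r + 1) w) := by
    intro t q r ht hq
    unfold FP.Pr
    rw [← FP.E_smul, ← FP.E_add]
    refine (D.P h t).E_mono fun w hw => ?_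
    have h1 := hΦ.le t ht q hq w hw
    have h0 := hΦ.nn t q w
    by_cases h2 : Ar h v p (r + 1) w
    · rw [ind_of h2, ind_of (Ar_mono h p (Nat.le_succ r) h2), ind_not (fun hh => hh.2 h2)]
      linarith
    · by_cases h3 : Ar h v p r w
      · rw [ind_of h3, ind_not h2, ind_of ⟨h3, h2⟩]
        linarith
      · rw [ind_not h3, ind_not h2, ind_not (fun hh => h3 hh.1)]
        linarith
  have one : ∀ t ∈ range T, (Gp h Φ t (5 * t) (5 * t + 1) (fun w => Ar h v p (2 * t) w ∧ Gd t w) +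
      ∑ s, Gp h Φ t (qs s t) (qe s t) (aS h v p Gd s t)) ≤ (M (t + 1) - M t) +
      B * ((D.P h t).Pr (fun w => Ar h v p (2 * t) w ∧ ¬ Ar h v p (2 * t + 1) w) +
        (D.P h (t + 1)).Pr (fun w => Ar h v p (2 * t + 1) w ∧ ¬ Ar h v p (2 * (t + 1)) w)) := by
    intro t ht
    have htT := Finset.mem_range.1 ht
    have h3 := Gp_split h (v := v) Φ p Gd t
    have h5 : Gp h Φ t (5 * t) (5 * t + 1) (Ar h v p (2 * t)) =
        Gp h Φ t (5 * t) (5 * t + 1) (fun w => Ar h v p (2 * t) w ∧ Gd t w) +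
        Gp h Φ t (5 * t) (5 * t + 1) (fun w => Ar h v p (2 * t) w ∧ ¬ Gd t w) := by
      unfold Gp
      rw [← (D.P h t).E_add]
      refine (D.P h t).E_congr fun w _ => ?_
      by_cases hA : Ar h v p (2 * t) w
      · by_cases hG : Gd t w
        · rw [ind_of hA, ind_of (⟨hA, hG⟩ : Ar h v p (2 * t) w ∧ Gd t w),
            ind_not (fun hh : Ar h v p (2 * t) w ∧ ¬ Gd t w => hh.2 hG)]
          ring
        · rw [ind_of hA, ind_of (⟨hA, hG⟩ : Ar h v p (2 * t) w ∧ ¬ Gd t w),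
            ind_not (fun hh : Ar h v p (2 * t) w ∧ Gd t w => hG hh.2)]
          ring
      · rw [ind_not hA, ind_not (fun hh : Ar h v p (2 * t) w ∧ Gd t w => hA hh.1),
          ind_not (fun hh : Ar h v p (2 * t) w ∧ ¬ Gd t w => hA hh.1)]
        ring
    have h6 : ∑ s, Gp h Φ t (qs s t) (qe s t) (aS h v p Gd s t) =
        Gp h Φ t (5 * t) (5 * t + 1) (fun w => Ar h v p (2 * t) w ∧ ¬ Gd t w) +
        ∑ s ∈ univ.erase (0 : Fin 6), Gp h Φ t (qs s t) (qe s t) (aS h v p Gd s t) :=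
      (Finset.add_sum_erase univ _ (mem_univ (0 : Fin 6))).symm
    have k1 := Gp_sub h Φ t (5 * t) (5 * t + 1) (Ar h v p (2 * t))
    have k2 := Gp_sub h Φ t (5 * t + 1) (5 * t + 5) (Ar h v p (2 * t + 1))
    have k3 := kill t (5 * t + 1) (2 * t) htT.le (by omega)
    have k4 := hΦ.birth t htT
    have k5 := kill (t + 1) (5 * (t + 1)) (2 * t + 1) htT (le_refl _)
    have e2 : 2 * t + 1 + 1 = 2 * (t + 1) := by ring
    rw [e2] at k5
    simp only [hM]
    rw [h6, ← h3]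
    linarith
  refine (Finset.sum_le_sum one).trans ?_
  rw [Finset.sum_add_distrib, Finset.sum_range_sub M, ← Finset.mul_sum]
  have h2 := mul_le_mul_of_nonneg_left ((killT (h := h) (T := T) H (a := Ar h v p)
    (fun r w hw => Ar_mono h p (Nat.le_succ r) hw) (fun r x y F F' => propext (Ar_lab h p r x y F F'))).trans hPd) hΦ.B0
  have h3 : M T ≤ mE := by
    refine le_trans ((D.P h T).E_mono fun w _ => ?_) hΦ.fin
    exact mul_le_of_le_one_left (hΦ.nn T (5 * T) w) (ind_le_one _)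
  have h4 : 0 ≤ M 0 := (D.P h 0).E_nonneg fun w _ => mul_nonneg (ind_nonneg _) (hΦ.nn _ _ w)
  linarith

/-- **ANY POTENTIAL, ALL STEPS**, alive sets `aT` (alive before the step) -/
theorem run_potT (H : D.Hyp dg prr al T Lam) {Φ : ℕ → ℕ → Pt (Fin 3) X β φ → ℝ} {p : AP} {B mE : ℝ}
    (hΦ : Pot h Φ v p T B mE) (Gd : ℕ → Pt (Fin 3) X β φ → Prop) {Pd : ℝ}
    (hPd : (D.P h T).Pr (fun w => ¬ Ar h v p (2 * T) w) ≤ Pd) :
    ∑ t ∈ range T, (Gp h Φ t (5 * t) (5 * t + 1) (fun w => Ar h v p (2 * t) w ∧ Gd t w) +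
      ∑ s, Gp h Φ t (qs s t) (qe s t) (aT h v p Gd s t)) ≤ mE + 4 * B * Pd := by
  classical
  have h1 := run_potS h H hΦ Gd hPd
  have one : ∀ t ∈ range T, (Gp h Φ t (5 * t) (5 * t + 1) (fun w => Ar h v p (2 * t) w ∧ Gd t w) +
      ∑ s, Gp h Φ t (qs s t) (qe s t) (aT h v p Gd s t)) ≤
      (Gp h Φ t (5 * t) (5 * t + 1) (fun w => Ar h v p (2 * t) w ∧ Gd t w) +
      ∑ s, Gp h Φ t (qs s t) (qe s t) (aS h v p Gd s t)) +
      3 * B * (D.P h (t + 1)).Pr (fun w => Ar h v p (2 * t + 1) w ∧ ¬ Ar h v p (2 * (t + 1)) w) := by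
    intro t ht
    have htT := Finset.mem_range.1 ht
    have hk : (D.P h t).Pr (fun w => Ar h v p (2 * t + 1) w ∧ ¬ Ar h v p (2 * (t + 1)) w) =
        (D.P h (t + 1)).Pr (fun w => Ar h v p (2 * t + 1) w ∧ ¬ Ar h v p (2 * (t + 1)) w) := by
      refine Pr_xy h (fun x y F F' => ?_) t (t + 1)
      show (_ ∧ ¬ _) = (_ ∧ ¬ _)
      rw [propext (Ar_lab h p (2 * t + 1) x y F F'), propext (Ar_lab h p (2 * (t + 1)) x y F F')]
    have key : ∀ s : Fin 6, Gp h Φ t (qs s t) (qe s t) (aT h v p Gd s t) ≤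
        Gp h Φ t (qs s t) (qe s t) (aS h v p Gd s t) + (if s.1 ≤ 2 then 0 else
          B * (D.P h t).Pr (fun w => Ar h v p (2 * t + 1) w ∧ ¬ Ar h v p (2 * (t + 1)) w)) := by
      intro s
      by_cases hs : s.1 ≤ 2
      · rw [if_pos hs, add_zero]
        unfold Gp
        refine le_of_eq ((D.P h t).E_congr fun w _ => ?_)
        by_cases hw : aS h v p Gd s t w
        · rw [ind_of hw, ind_of (aT_small p hs hw)]
        · rw [ind_not hw, ind_not (fun hh => hw hh.1)]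
      · rw [if_neg hs]
        unfold Gp FP.Pr
        rw [← FP.E_smul, ← FP.E_add]
        refine (D.P h t).E_mono fun w hw => ?_
        have hl := hΦ.le t htT.le (qs s t) (qs_ge s t) w hw
        have hl' := hΦ.nn t (qe s t) w
        by_cases h1 : aS h v p Gd s t w
        · by_cases h2 : aT h v p Gd s t w
          · rw [ind_of h1, ind_of h2]
            have := mul_nonneg hΦ.B0 (ind_nonneg (Ar h v p (2 * t + 1) w ∧ ¬ Ar h v p (2 * (t + 1)) w))
            linarith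
          · rw [ind_of h1, ind_not h2, ind_of (aT_kill p hw h1 h2)]
            linarith
        · rw [ind_not h1, ind_not (fun hh => h1 hh.1), zero_mul, zero_add]
          exact mul_nonneg hΦ.B0 (ind_nonneg _)
    have h3 := Finset.sum_le_sum fun s (_ : s ∈ (univ : Finset (Fin 6))) => key s
    rw [Finset.sum_add_distrib] at h3
    have h4 : ∑ s : Fin 6, (if s.1 ≤ 2 then 0 else
        B * (D.P h t).Pr (fun w => Ar h v p (2 * t + 1) w ∧ ¬ Ar h v p (2 * (t + 1)) w)) =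
        3 * B * (D.P h (t + 1)).Pr (fun w => Ar h v p (2 * t + 1) w ∧ ¬ Ar h v p (2 * (t + 1)) w) := by
      rw [← hk, Fin.sum_univ_six]
      simp
      ring
    rw [h4] at h3
    linarith
  refine (Finset.sum_le_sum one).trans ?_
  rw [Finset.sum_add_distrib, ← Finset.mul_sum]
  have h2 := (sum_killT (h := h) (v := v) H p).trans hPd
  have h3 := mul_le_mul_of_nonneg_left h2 (show 0 ≤ 3 * B by linarith [hΦ.B0])
  linarith

/-! ### the pairs -/

variable (v) in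
/-- log density of the two tops other than `i` at the true tuple, state `q` -/
def ps2 (i : Fin 3) (t q : ℕ) (w : Pt (Fin 3) X β φ) : ℝ :=
  psF (D.P h t) (ZQ D v q) (ZbQ D v q) (Fo (FQ v t) i) w

theorem ps2_psC {i : Fin 3} {t q : ℕ} {w : Pt (Fin 3) X β φ} (hw : (D.P h t).p w ≠ 0) :
    psC (D.P h t) (ZQ D v q) (ZbQ D v q) (Fo (FQ v t) i) w (tup (Fo (FQ v t) i) w) = ps2 h v i t q w :=
  psC_psF (D.P h t) hw

/-- pointwise bound at every state -/
theorem ps2_top (H : D.Hyp dg prr al T Lam) {n N1 : ℝ} (R : Run h (pr3 (Fin 3) n N1) (SS1 (Fin 3)) (AdmDep D) v)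
    (hn : 1 ≤ n) (hN1 : 1 ≤ N1) {t q : ℕ} (ht : t ≤ T) (hq : 5 * t ≤ q) {t0 : ℝ} (ht0 : 0 ≤ t0) (i : Fin 3)
    {w : Pt (Fin 3) X β φ} (hw : (D.P h t).p w ≠ 0) : hph t0 (ps2 h v i t q w) ≤ 3 * Lam := by
  have hN0 : ∀ l : Fin 3, 0 < pr3 (Fin 3) n N1 (univ.erase l) := fun l => zero_lt_one.trans_le (pr3_one hn hN1 _)
  have hSl : ∀ l : Fin 3, univ.erase l ∈ SS1 (Fin 3) := fun l => mem_SS1.2 (Finset.erase_ne_self.2 (mem_univ l))
  have hSu : (univ : Finset (Fin 3)) ∉ SS1 (Fin 3) := fun hh => mem_SS1.1 hh rfl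
  have h2 := log_al H h.pos
  have h3 : (1 : ℝ) ≤ Lam := H.Lam1
  have h1 : ∑ j, sp (D.P h t) (Fo (FQ v t) i j) (ZbQ D v q j) w ≤ ∑ _j : Fin 3, Real.log (1 / al) := by
    refine Finset.sum_le_sum fun j _ => ?_
    have k := sp_Zb_le H R hSl hSu hN0 ht hq j hw
    by_cases hj : j = i
    · rw [hj, Fo_self]
      exact (sp_nonneg _ _ _ hw).trans k
    · rw [Fo_ne (D.P h t) (FQ v t) hj]
      exact k
  have h4 := sp_nonneg (D.P h t) (tup (Fo (FQ v t) i)) (ZQ D v q) hw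
  rw [Finset.sum_const, Finset.card_univ, nsmul_eq_mul] at h1
  have hc : ((Fintype.card (Fin 3) : ℕ) : ℝ) = 3 := by simp
  rw [hc] at h1
  unfold ps2 psF
  refine hph_le ht0 ?_ (by linarith)
  linarith

/-- the labels of the tops of the time `t + 1` decide those of the time `t` -/
theorem FQ_old (t : ℕ) (j : Fin 3) {a b : Pt (Fin 3) X β φ} (hab : FQ v (t + 1) j a = FQ v (t + 1) j b) :
    FQ v t j (old prr t a) = FQ v t j (old prr t b) := by
  have h4 : LL (φ := φ) (Um v (t + 1 + 1)) (univ.erase j) a = LL (Um v (t + 1 + 1)) (univ.erase j) b := hab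
  show LL (φ := φ) (Um v (t + 1)) (univ.erase j) (old prr t a) = LL (Um v (t + 1)) (univ.erase j) (old prr t b)
  rw [LL_eq] at h4 ⊢
  exact ⟨(Um_eq.1 h4.1).1, fun l hl => congrArg (prr t l) (h4.2 l hl)⟩

/-- **births** -/
theorem ps2_birth (H : D.Hyp dg prr al T Lam) (t0 : ℝ) (i : Fin 3) {t : ℕ} (ht : t < T) (p : AP) :
    (D.P h t).E (fun w => ind (Ar h v p (2 * t + 1) w) * hph t0 (ps2 h v i t (5 * t + 5) w)) ≤
      (D.P h (t + 1)).E (fun w => ind (Ar h v p (2 * t + 1) w) * hph t0 (ps2 h v i (t + 1) (5 * (t + 1)) w)) := by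
  have eq5 : 5 * (t + 1) = 5 * t + 5 := by ring
  rw [eq5]
  have hZo : ∀ w, ZQ (φ := φ) D v (5 * t + 5) (old prr t w) = ZQ D v (5 * t + 5) w := ZQ_oldJ t (5 * t + 5)
  have hZbo : ∀ j w, ZbQ (φ := φ) D v (5 * t + 5) j (old prr t w) = ZbQ D v (5 * t + 5) j w := fun j w =>
    ZQ_Zb (5 * t + 5) j _ _ (hZo w)
  have e1 : (D.P h t).E (fun w => ind (Ar h v p (2 * t + 1) w) * hph t0 (ps2 h v i t (5 * t + 5) w)) =
      (D.P h (t + 1)).E (fun w => ind (Ar h v p (2 * t + 1) w) * hph t0 (psF (D.P h (t + 1)) (ZQ D v (5 * t + 5))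
        (ZbQ D v (5 * t + 5)) (fun j u => Fo (FQ v t) i j (old prr t u)) w)) := by
    rw [← push_E h (H.kf_pr t ht)]
    refine (D.P h (t + 1)).E_congr fun w _ => ?_
    have a1 : Ar h v p (2 * t + 1) (old prr t w) = Ar h v p (2 * t + 1) w := propext (Ar_lab h p _ w.1 w.2.1 _ _)
    have a2 : ps2 h v i t (5 * t + 5) (old prr t w) = psF (D.P h (t + 1)) (ZQ D v (5 * t + 5)) (ZbQ D v (5 * t + 5))
        (fun j u => Fo (FQ v t) i j (old prr t u)) w := by
      unfold ps2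
      rw [psF_push h (H.kf_pr t ht)]
      have b1 : (fun u => ZQ (φ := φ) D v (5 * t + 5) (old prr t u)) = ZQ D v (5 * t + 5) := funext hZo
      have b2 : (fun (j : Fin 3) u => ZbQ (φ := φ) D v (5 * t + 5) j (old prr t u)) = ZbQ D v (5 * t + 5) :=
        funext fun j => funext fun u => hZbo j u
      rw [b1, b2]
    rw [a1, a2]
  rw [e1]
  unfold ps2
  refine psF_hph (D.P h (t + 1)) t0 (fun j => ZQ_Zb (5 * t + 5) j) (fun j a b hab => ?_) (fun a b hab => ?_)
  · have h1 : Fo (FQ v (t + 1)) i j a = Fo (FQ v (t + 1)) i j b := (Prod.mk.inj hab).1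
    show Fo (FQ v t) i j (old prr t a) = Fo (FQ v t) i j (old prr t b)
    unfold Fo at h1 ⊢
    by_cases hj : j = i
    · rw [if_pos hj, if_pos hj]
    · rw [if_neg hj, if_neg hj] at h1 ⊢
      exact congrArg some (FQ_old t j (Option.some.inj h1))
  · exact Ar1_fac h p t a b (ZQ_mono (show 5 * t + 1 ≤ 5 * t + 5 by omega) a b (Prod.mk.inj hab).2)

/-- the pair is below the triple in the mean -/
theorem ps2_le3 (i : Fin 3) (t q : ℕ) : (D.P h t).E (ps2 h v i t q) ≤ (D.P h t).E (psQ h v t q) := by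
  have e1 : (D.P h t).E (psQ h v t q) = (D.P h t).E (psF (D.P h t) (ZQ D v q) (ZbQ D v q) (FQ v t)) :=
    (D.P h t).E_congr fun w hw => psC_psF (D.P h t) hw
  rw [e1, ← sub_nonneg, ← FP.E_sub]
  have e2 : ∀ w, psF (D.P h t) (ZQ D v q) (ZbQ D v q) (FQ v t) w - ps2 h v i t q w =
      sp (D.P h t) (FQ v t i) (ZbQ D v q i) w - sp (D.P h t) (FQ v t i) (fun w => (tup (Fo (FQ v t) i) w, ZQ D v q w)) w := by
    intro w
    unfold ps2 psF
    have k1 := Fo_chain (D.P h t) (FQ v t) i (ZQ D v q) w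
    rw [sp_unit (D.P h t) (FQ v t i) (fun u => (tup (Fo (FQ v t) i) u, ZQ D v q u)) w] at k1
    have k2 : ∑ j, sp (D.P h t) (FQ v t j) (ZbQ D v q j) w = sp (D.P h t) (FQ v t i) (ZbQ D v q i) w +
        ∑ j, sp (D.P h t) (Fo (FQ v t) i j) (ZbQ D v q j) w := by
      rw [← Finset.add_sum_erase univ (fun j => sp (D.P h t) (FQ v t j) (ZbQ D v q j) w) (mem_univ i),
        ← Finset.add_sum_erase univ (fun j => sp (D.P h t) (Fo (FQ v t) i j) (ZbQ D v q j) w) (mem_univ i), Fo_self, zero_add]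
      congr 1
      exact Finset.sum_congr rfl fun j hj => (Fo_ne (D.P h t) (FQ v t) (Finset.ne_of_mem_erase hj) _ w).symm
    rw [k1, k2]
    ring
  simp only [e2]
  rw [FP.E_sub, E_sp, E_sp]
  have h3 := (D.P h t).Hc_anti (FQ v t i) (Y := fun w => (tup (Fo (FQ v t) i) w, ZQ D v q w)) (Z := ZbQ D v q i)
    ((Fac.snd _ _).trans (ZQ_Zb q i))
  linarith

/-- **the end** -/
theorem ps2_end (H : D.Hyp dg prr al T Lam) {n N1 : ℝ} (R : Run h (pr3 (Fin 3) n N1) (SS1 (Fin 3)) (AdmDep D) v)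
    (hn : 1 ≤ n) (hN1 : 1 ≤ N1) {t : ℕ} (ht : t ≤ T) {t0 : ℝ} (ht0 : 1 ≤ t0) (i : Fin 3) :
    (D.P h t).E (fun w => hph t0 (ps2 h v i t (5 * t) w)) ≤ mT n N1 Lam := by
  have hK : Fintype.card (Fin 3) = 3 := rfl
  have h1 : (D.P h t).E (fun w => hph t0 (ps2 h v i t (5 * t) w)) ≤ (D.P h t).E (ps2 h v i t (5 * t)) :=
    psF_hph_le (D.P h t) ht0 (fun j => ZQ_Zb (5 * t) j) (Fo (FQ v t) i)
  have h2 := EndTR.endT3_run hK R H hn hN1 ht
  rw [← Mt_MR h (v := v) (t := t) down_ne pth_down (ne_u hK) pth0 (pth_sub hK), ← E_iR] at h2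
  have h3 : (D.P h t).E (psQ h v t (5 * t)) = (D.P h t).E (iR (D.P h t) (fun J : Finset (Fin 3) => J ≠ univ) pth
      (LL (Um v (t + 1))) (WW D t)) := (D.P h t).E_congr fun w hw => (iR_iQ0 h R.codes hw).symm
  have h4 := ps2_le3 h (v := v) i t (5 * t)
  have h5 : (D.P h t).E (psQ h v t (5 * t)) ≤ 54 * n * Lam / N1 + 24 * Lam / n + 12 * Lam / N1 := by
    rw [h3]
    exact h2
  unfold mT
  linarith

/-- the potential of the pair -/
theorem ps2_pot (H : D.Hyp dg prr al T Lam) {n N1 : ℝ} (R : Run h (pr3 (Fin 3) n N1) (SS1 (Fin 3)) (AdmDep D) v)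
    (hn : 1 ≤ n) (hN1 : 1 ≤ N1) (p : AP) {t0 : ℝ} (ht0 : 1 ≤ t0) (i : Fin 3) :
    Pot h (fun t q w => hph t0 (ps2 h v i t q w)) v p T (3 * Lam) (mT n N1 Lam) where
  nn _ _ _ := hph_nonneg _ _
  B0 := by have : (1 : ℝ) ≤ Lam := H.Lam1; linarith
  le _ ht _ hq _ hw := ps2_top h H R hn hN1 ht hq (zero_le_one.trans ht0) i hw
  birth _ ht := ps2_birth h H t0 i ht p
  fin := ps2_end h H R hn hN1 (le_refl T) ht0 i

/-- **THE PAIR WITHOUT `i`, ALL STEPS**, alive sets `aS` -/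
theorem hot2_stepS (H : D.Hyp dg prr al T Lam) {n N1 : ℝ} (R : Run h (pr3 (Fin 3) n N1) (SS1 (Fin 3)) (AdmDep D) v)
    (hn : 1 ≤ n) (hN1 : 1 ≤ N1) (p : AP) (Gd : ℕ → Pt (Fin 3) X β φ → Prop) {Pd : ℝ}
    (hPd : (D.P h T).Pr (fun w => ¬ Ar h v p (2 * T) w) ≤ Pd) {t0 : ℝ} (ht0 : 1 ≤ t0) (i : Fin 3) :
    ∑ t ∈ range T, (Gp h (fun t q w => hph t0 (ps2 h v i t q w)) t (5 * t) (5 * t + 1)
        (fun w => Ar h v p (2 * t) w ∧ Gd t w) +
      ∑ s, Gp h (fun t q w => hph t0 (ps2 h v i t q w)) t (qs s t) (qe s t) (aS h v p Gd s t)) ≤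
      mT n N1 Lam + 3 * Lam * Pd :=
  run_potS h H (ps2_pot h H R hn hN1 p ht0 i) Gd hPd

/-- **THE PAIR WITHOUT `i`, ALL STEPS**, alive sets `aT` -/
theorem hot2_stepT (H : D.Hyp dg prr al T Lam) {n N1 : ℝ} (R : Run h (pr3 (Fin 3) n N1) (SS1 (Fin 3)) (AdmDep D) v)
    (hn : 1 ≤ n) (hN1 : 1 ≤ N1) (p : AP) (Gd : ℕ → Pt (Fin 3) X β φ → Prop) {Pd : ℝ}
    (hPd : (D.P h T).Pr (fun w => ¬ Ar h v p (2 * T) w) ≤ Pd) {t0 : ℝ} (ht0 : 1 ≤ t0) (i : Fin 3) :
    ∑ t ∈ range T, (Gp h (fun t q w => hph t0 (ps2 h v i t q w)) t (5 * t) (5 * t + 1)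
        (fun w => Ar h v p (2 * t) w ∧ Gd t w) +
      ∑ s, Gp h (fun t q w => hph t0 (ps2 h v i t q w)) t (qs s t) (qe s t) (aT h v p Gd s t)) ≤
      mT n N1 Lam + 12 * Lam * Pd := by
  have h1 := run_potT h H (ps2_pot h H R hn hN1 p ht0 i) Gd hPd
  refine h1.trans (le_of_eq ?_)
  ring

/-- the steps `3` and `4` are trivial -/
theorem Gp_34 (t0 : ℝ) (i : Fin 3) {s : Fin 6} (hs : s = 3 ∨ s = 4) (t : ℕ) (a : Pt (Fin 3) X β φ → Prop) :
    Gp h (fun t q w => hph t0 (ps2 h v i t q w)) t (qs s t) (qe s t) a = 0 := by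
  have key : ∀ q q' : ℕ, ZQ (φ := φ) D v q' = ZQ D v q → (∀ j, ZbQ (φ := φ) D v q' j = ZbQ D v q j) →
      Gp h (fun t q w => hph t0 (ps2 h v i t q w)) t q q' a = 0 := by
    intro q q' e1 e2
    have e3 : ZbQ (φ := φ) D v q' = ZbQ D v q := funext e2
    have e4 : ∀ w, ps2 h v i t q' w = ps2 h v i t q w := fun w => by
      unfold ps2
      rw [e1, e3]
    unfold Gp
    simp only [e4, sub_self, mul_zero]
    exact (D.P h t).E_const 0
  rcases hs with rfl | rfl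
  · exact key (5 * t + 2) (5 * t + 3) (ZQ_mid t (by omega) (by omega)) fun j => ZbQ_mid t (by omega) (by omega) j
  · exact key (5 * t + 3) (5 * t + 4)
      ((ZQ_mid t (by omega) (by omega)).trans (ZQ_mid t (j := 3) (by omega) (by omega)).symm)
      (fun j => (ZbQ_mid t (by omega) (by omega) j).trans (ZbQ_mid t (j := 3) (by omega) (by omega) j).symm)

end run

end

end Pool.Agent.GMH.Hot2
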