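import Pool.Agent.GMH.RegT2

/-!
# GMH/RegD: the fourth part of the region of the cut, hot pairs at thin strong points (helper78)

`RegD B E e3 w f` : some missing thin letter is strong (`B < tF`), all letters of `f` are weak, and some pair `(i,k)` is hot,
`E q_i q_k < m2_ik`, and both letters rise, `1 + e3 < r_i(f_i)`, `1 + e3 < r_k(f_k)` (trivial letters of the frame `Fo` never
count).
* `RegD_fac`, `RegD_true`; `Rd3`, `Rd2` : the steps of `GMH/TopSplit` and `GMH/TwoSplit`; `UnrS_or`, `UnrS2_or` : the term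
  `UnrS` of the union of two regions is at most the sum, so `Rg3`, `Rg2` of `GMH/RegT`, `GMH/RegT2` stay as they are.
-/

set_option autoImplicit false
set_option linter.unusedSectionVars false

namespace Pool.Agent.GMH.KF

open Finset Pool.Agent.PWZ Pool.Agent.M3 Pool.Agent.GMH

noncomputable section

variable {Om : Type*} [Fintype Om] (P : FP Om) {α β γ φ : Type*} (Z : Om → β) (Zb : Fin 3 → Om → α) (F : Fin 3 → Om → φ)
  (Y : Fin 3 → Om → γ)

/-- the pair `(x,y)` of the tops `i`, `k` is hot, given all thin letters -/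
def hotF (E : ℝ) (i k : Fin 3) (w : Om) (x y : φ) : Prop :=
  E * (qF P Zb F i w x * qF P Zb F k w y) < mF2 P Z F i k w x y

/-- **(d) HOT PAIRS AT THIN STRONG POINTS** -/
def RegD (B E e3 : ℝ) (w : Om) (f : Fin 3 → φ) : Prop :=
  (∃ j, B < tF P Z Zb Y j w) ∧ (∀ j, rF P Zb F Y j w (f j) ≤ B) ∧
    ∃ i k : Fin 3, i ≠ k ∧ hotF P Z Zb F E i k w (f i) (f k) ∧ 1 + e3 < rF P Zb F Y i w (f i) ∧
      1 + e3 < rF P Zb F Y k w (f k)

variable {Z Zb Y}

theorem hotF_fac (hZ : ∀ i, Fac Z (Zb i)) (E : ℝ) (i k : Fin 3) (x y : φ) : Fac Z (fun w => hotF P Z Zb F E i k w x y) := by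
  intro a b hab
  have h1 : ∀ i x, qF P Zb F i a x = qF P Zb F i b x := fun i x => qF_fac P F hZ i x a b hab
  have h2 : mF2 P Z F i k a x y = mF2 P Z F i k b x y := P.pv_fac Z (fun u => (F i u, F k u)) (x, y) a b hab
  show hotF P Z Zb F E i k a x y = hotF P Z Zb F E i k b x y
  unfold hotF
  rw [h1, h1, h2]

theorem RegD_fac {ν : Type*} {V : Om → ν} (hZ : ∀ i, Fac Z (Zb i)) (hV : ∀ i, Fac (fun u => (V u, Z u)) (Y i))
    (B E e3 : ℝ) (f : Fin 3 → φ) : Fac (fun u => (V u, Z u)) (fun w => RegD P Z Zb F Y B E e3 w f) := by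
  intro a b hab
  have hz : Z a = Z b := (Prod.mk.inj hab).2
  have hy : ∀ i, (fun u => (Y i u, Z u)) a = (fun u => (Y i u, Z u)) b := fun i => Prod.ext (hV i a b hab) hz
  have h1 : ∀ i, rF P Zb F Y i a (f i) = rF P Zb F Y i b (f i) := fun i => rF_fac P F hZ i (f i) a b (hy i)
  have h2 : ∀ i, tF P Z Zb Y i a = tF P Z Zb Y i b := fun i => tF_fac P hZ i a b (hy i)
  have h3 : ∀ i k, hotF P Z Zb F E i k a (f i) (f k) = hotF P Z Zb F E i k b (f i) (f k) := fun i k =>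
    hotF_fac P F hZ E i k (f i) (f k) a b hz
  show RegD P Z Zb F Y B E e3 a f = RegD P Z Zb F Y B E e3 b f
  unfold RegD
  simp only [h1, h2, h3]

variable {P F}

/-- what a tuple of the region has -/
theorem RegD_pair {B E e3 : ℝ} {w : Om} {f : Fin 3 → φ} (h : RegD P Z Zb F Y B E e3 w f) :
    (∃ j, B < tF P Z Zb Y j w) ∧ ∃ i k : Fin 3, i ≠ k ∧ hotF P Z Zb F E i k w (f i) (f k) ∧
      1 + e3 < rF P Zb F Y i w (f i) := by
  obtain ⟨h1, _, i, k, hik, h3, h4, _⟩ := h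
  exact ⟨h1, i, k, hik, h3, h4⟩

end

end Pool.Agent.GMH.KF

namespace Pool.Agent.GMH.TP

open Finset Pool.Agent.PWZ Pool.Agent.M3 Pool.Agent.GM Pool.Agent.GM.Harm Pool.Agent.GMH Pool.Agent.GMH.NZ
open Pool.Agent.GMH.V3 Pool.Agent.GMH.KF

noncomputable section

variable {X β γ φ : Type} [Fintype X] [Fintype β] [Fintype φ] [Nonempty X] [Nonempty β]
variable {D : HD (Fin 3) X β γ φ} {al : ℝ} (h : D.Thick al) (v : ℕ → Finset (Fin 3) → X → (Fin 3 → β) → Pt (Fin 3) X β φ)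

/-- **REGION (d) OF THE STEP** `(s, t)` -/
def Rd3 (B E e3 : ℝ) (s : Fin 6) (t : ℕ) (w : Pt (Fin 3) X β φ) (f : Tu X β φ) : Prop :=
  RegD (D.P h t) (ZQ D v (qs s t)) (ZbQ D v (qs s t)) (FQ v t) (ZbQ D v (qe s t)) B E e3 w f

theorem Rd3_fac (B E e3 : ℝ) (s : Fin 6) (t : ℕ) (f : Tu X β φ) :
    Fac (VZ (φ := φ) D v s t) (fun w => Rd3 h v B E e3 s t w f) :=
  RegD_fac (D.P h t) (FQ v t) (V := ZQ D v (qe s t)) (fun i => ZQ_Zb _ i)
    (fun i a b hab => ZQ_Zb _ i a b (Prod.mk.inj hab).1) B E e3 f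

/-- region (d) in the frame two -/
def Rd2 (B E e3 : ℝ) (i : Fin 3) (b : Bool) (t : ℕ) (w : Pt (Fin 3) X β φ) (f : T2 X β φ) : Prop :=
  RegD (D.P h t) (ZQ D v (qs (s2 b) t)) (ZbQ D v (qs (s2 b) t)) (Fo (FQ v t) i) (ZbQ D v (qe (s2 b) t)) B E e3 w f

theorem Rd2_fac (B E e3 : ℝ) (i : Fin 3) (b : Bool) (t : ℕ) (f : T2 X β φ) :
    Fac (VZ (φ := φ) D v (s2 b) t) (fun w => Rd2 h v B E e3 i b t w f) :=
  RegD_fac (D.P h t) (Fo (FQ v t) i) (V := ZQ D v (qe (s2 b) t)) (fun j => ZQ_Zb _ j)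
    (fun j a b' hab => ZQ_Zb _ j a b' (Prod.mk.inj hab).1) B E e3 f

variable {h v}

/-- **THE UNION OF TWO REGIONS** -/
theorem UnrS_or {c : KC} {B : ℝ} {Rg Rg' : Fin 6 → ℕ → Pt (Fin 3) X β φ → Tu X β φ → Prop}
    {bt : Fin 10 → Fin 3 → ℕ → Pt (Fin 3) X β φ → Prop} {bz : Fin 10 → ℕ → Pt (Fin 3) X β φ → Prop}
    (A : Fin 6 → ℕ → Pt (Fin 3) X β φ → Prop) {eta : ℝ} (h0 : 0 < eta) (h1 : eta ≤ 1) (s : Fin 6) (t : ℕ) :
    UnrS h v c B (fun s t w f => Rg s t w f ∨ Rg' s t w f) bt bz A eta s t ≤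
      UnrS h v c B Rg bt bz A eta s t + UnrS h v c B Rg' bt bz A eta s t := by
  unfold UnrS
  rw [← (D.P h t).E_add]
  refine (D.P h t).E_mono fun w _ => ?_
  have a1 : 0 ≤ ind (A s t w) := ind_nonneg _
  have a2 : 0 ≤ 1 - rw3 h v c B bt bz s t w := by linarith [(rw3_01 (h := h) (v := v) (c := c) (B := B) (bt := bt) (bz := bz) s t w).2]
  have a3 : 0 ≤ max (psS h v s t w) 0 + Real.log (1 / eta) :=
    add_nonneg (le_max_right _ _) (Real.log_nonneg ((one_le_div h0).2 h1))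
  have a4 : ind (Rg s t w (tup (FQ v t) w) ∨ Rg' s t w (tup (FQ v t) w)) ≤
      ind (Rg s t w (tup (FQ v t) w)) + ind (Rg' s t w (tup (FQ v t) w)) := by
    by_cases c1 : Rg s t w (tup (FQ v t) w)
    · rw [ind_of c1, ind_of (Or.inl c1)]
      linarith [ind_nonneg (Rg' s t w (tup (FQ v t) w))]
    · by_cases c2 : Rg' s t w (tup (FQ v t) w)
      · rw [ind_of c2, ind_of (Or.inr c2)]
        linarith [ind_nonneg (Rg s t w (tup (FQ v t) w))]
      · rw [ind_not (not_or.2 ⟨c1, c2⟩)]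
        linarith [ind_nonneg (Rg s t w (tup (FQ v t) w)), ind_nonneg (Rg' s t w (tup (FQ v t) w))]
  have a5 := mul_le_mul_of_nonneg_left (mul_le_mul_of_nonneg_left (mul_le_mul_of_nonneg_right a4 a3) a2) a1
  calc _ ≤ _ := a5
    _ = _ := by ring

theorem UnrS2_or {c : KC} {B : ℝ} {i : Fin 3} {rk : Finset (Fin 10)}
    {Rg Rg' : Bool → ℕ → Pt (Fin 3) X β φ → T2 X β φ → Prop}
    {bt : Fin 10 → ℕ → Pt (Fin 3) X β φ → Prop} {bz : Fin 10 → ℕ → Pt (Fin 3) X β φ → Prop}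
    (A : Bool → ℕ → Pt (Fin 3) X β φ → Prop) {eta : ℝ} (h0 : 0 < eta) (h1 : eta ≤ 1) (b : Bool) (t : ℕ) :
    UnrS2 h v c B i rk (fun b t w f => Rg b t w f ∨ Rg' b t w f) bt bz A eta b t ≤
      UnrS2 h v c B i rk Rg bt bz A eta b t + UnrS2 h v c B i rk Rg' bt bz A eta b t := by
  unfold UnrS2
  rw [← (D.P h t).E_add]
  refine (D.P h t).E_mono fun w _ => ?_
  have a1 : 0 ≤ ind (A b t w) := ind_nonneg _
  have a2 : 0 ≤ 1 - rw2 h v c B i rk bt bz b t w := by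
    linarith [(rw2_01 (h := h) (v := v) (c := c) (B := B) (i := i) (rk := rk) (bt := bt) (bz := bz) b t w).2]
  have a3 : 0 ≤ max (psS2 h v i b t w) 0 + Real.log (1 / eta) :=
    add_nonneg (le_max_right _ _) (Real.log_nonneg ((one_le_div h0).2 h1))
  have a4 : ind (Rg b t w (tup (Fo (FQ v t) i) w) ∨ Rg' b t w (tup (Fo (FQ v t) i) w)) ≤
      ind (Rg b t w (tup (Fo (FQ v t) i) w)) + ind (Rg' b t w (tup (Fo (FQ v t) i) w)) := by
    by_cases c1 : Rg b t w (tup (Fo (FQ v t) i) w)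
    · rw [ind_of c1, ind_of (Or.inl c1)]
      linarith [ind_nonneg (Rg' b t w (tup (Fo (FQ v t) i) w))]
    · by_cases c2 : Rg' b t w (tup (Fo (FQ v t) i) w)
      · rw [ind_of c2, ind_of (Or.inr c2)]
        linarith [ind_nonneg (Rg b t w (tup (Fo (FQ v t) i) w))]
      · rw [ind_not (not_or.2 ⟨c1, c2⟩)]
        linarith [ind_nonneg (Rg b t w (tup (Fo (FQ v t) i) w)), ind_nonneg (Rg' b t w (tup (Fo (FQ v t) i) w))]
  have a5 := mul_le_mul_of_nonneg_left (mul_le_mul_of_nonneg_left (mul_le_mul_of_nonneg_right a4 a3) a2) a1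
  calc _ ≤ _ := a5
    _ = _ := by ring

end

end Pool.Agent.GMH.TP
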