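import Pool.Agent.GMH.Bef2
import Pool.Agent.GMH.RegD
import Pool.Agent.GMH.FoL

/-!
# GMH/HotE: FRAME OF THE REAL SIDE OF THE HOT POTENTIAL (helper1; note 4068 (H1), event E1)

The pair of the two tops which see the vertex `i` is hot at the start of a joint step (`s = 1` or `s = 5`) and one of its two
letters rises, `1 + del < r_j`.
* `htP E i s t`, `riP del i s t` : the two conditions at the law `D.P h t`; `heO` : the event on the table space, for any `Al`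
  (alive, thin strong, ...) and any `Ht` (hot at the true pair); `heO_tr` : the transfer;
* `unrS_hot`, `unrS2_hot` : the unreleased sums of the regions `Rd3`, `Rd2` of `GMH/RegD` are at most
  `(3 Lam + log (1 / eta)) ∑ Pr (alive, hot, rising)`;
* `hiO` : one letter is not active; `hqO` : the life of `i` goes on; `htO` : at an end, not `gM`; `hkO` : undecided and blocked;
  `stpsH` : the steps of the released tuples (`rp i` : the life of `i` ends in a joint private step, removal or a-free end);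
* `heO_sum` : **`∑ Pr heO ≤ ∑ Pr hiO + ∑ Pr hqO + ∑ Pr htO + √uB (240 Lam / e ^ 2) + ∑ Pr hkO + ∑ E rels`**.
-/

set_option autoImplicit false
set_option linter.unusedSectionVars false
set_option linter.unusedVariables false

namespace Pool.Agent.GMH.TRF

open Finset Pool.Agent.PWZ Pool.Agent.M3 Pool.Agent.GM Pool.Agent.GM.Harm Pool.Agent.GMH Pool.Agent.GMH.NZ
open Pool.Agent.GMH.V3 Pool.Agent.GMH.TP Pool.Agent.GMH.TD Pool.Agent.GMH.Dy Pool.Agent.GMH.MV Pool.Agent.GMH.MVI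
open Pool.Agent.GMH.UV Pool.Agent.GMH.KF Pool.Agent.GMH.CK

noncomputable section

variable {X β γ φ : Type} [Fintype X] [Fintype β] [Fintype φ] [Nonempty X] [Nonempty β]
variable {D : HD (Fin 3) X β γ φ} {al : ℝ} (h : D.Thick al) {prr : ℕ → Fin 3 → φ → φ} {T : ℕ} {W : Type} [Fintype W]
variable (tb : Tab D prr T W) (v : ℕ → Finset (Fin 3) → X → (Fin 3 → β) → Pt (Fin 3) X β φ)
variable (i : Fin 3) (Al Ht gM : ℕ → Om W X β → Prop) (e del : ℝ)

/-! ### the events -/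

/-- **A HOT PAIR WITH A RISING LETTER** in a joint step -/
def heO (q : ℕ) (w : Om W X β) : Prop := (q % 5 = 1 ∨ q % 5 = 4) ∧ Al q w ∧ Ht q w ∧ ∃ j, j ≠ i ∧ 1 + del < rtO h tb v j q w

/-- one of the two letters is not active -/
def hiO (q : ℕ) (w : Om W X β) : Prop := heO h tb v i Al Ht del q w ∧ ¬ ac2 h tb v i e q w

/-- the steps: the life of `i` ends in a joint private step, light public values -/
def stpsH (M : US (Om W X β)) (g : ℕ → Om W X β → ℝ) : Stps (Om := Om W X β) where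
  rp := fun j q w => j = i ∧ q % 5 = 4 ∧ UV.tv M i (q + 1) w = q + 1
  ru := ruO tb v
  gd := fun q w => Al q w ∧ Ht q w ∧ gM q w
  g := g

/-- two active letters, the life of `i` goes on -/
def hqO (M : US (Om W X β)) (q : ℕ) (w : Om W X β) : Prop :=
  (q % 5 = 4 ∧ UV.tv M i (q + 1) w ≠ q + 1) ∧ Al q w ∧ Ht q w ∧ ac2 h tb v i e q w

/-- two active letters at an end, not good -/
def htO (M : US (Om W X β)) (q : ℕ) (w : Om W X β) : Prop :=
  ((q % 5 = 4 ∧ UV.tv M i (q + 1) w = q + 1) ∨ ruO tb v q w) ∧ Al q w ∧ Ht q w ∧ ¬ gM q w ∧ ac2 h tb v i e q w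

/-- good at an end, two active letters, undecided -/
def huO (M : US (Om W X β)) (Q : Kd (Om W X β)) (q : ℕ) (w : Om W X β) : Prop :=
  (Al q w ∧ Ht q w ∧ gM q w) ∧ ac2 h tb v i e q w ∧
    (((q % 5 = 4 ∧ UV.tv M i (q + 1) w = q + 1) ∧ ¬ bet M Q i q w) ∨ (ruO tb v q w ∧ ¬ Z0 M Q q w ∧ ¬ bet M Q i q w))

/-- good at an end of the life of `i`, two active letters, undecided and blocked by the zone -/
def hkO (M : US (Om W X β)) (Q : Kd (Om W X β)) (q : ℕ) (w : Om W X β) : Prop :=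
  (Al q w ∧ Ht q w ∧ gM q w) ∧ ac2 h tb v i e q w ∧ (q % 5 = 4 ∧ UV.tv M i (q + 1) w = q + 1) ∧ ¬ bet M Q i q w ∧
    blk M Q i q w

variable {h tb v i Al Ht gM e del}

/-- **THE CASES** -/
theorem heO_cases (M : US (Om W X β)) (Q : Kd (Om W X β)) (g : ℕ → Om W X β → ℝ) (hV : Q.Vk = {i}) {q : ℕ} {w : Om W X β}
    (hAl : q % 5 = 1 → Al q w → ruO tb v q w) (hw : heO h tb v i Al Ht del q w) :
    hiO h tb v i Al Ht e del q w ∨ hqO h tb v i Al Ht e M q w ∨ htO h tb v i Al Ht gM e M q w ∨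
      huO h tb v i Al Ht gM e M Q q w ∨ relp M Q (stpsH tb v i Al Ht gM M g) i q w ∨
        relu M Q (stpsH tb v i Al Ht gM M g) q w := by
  classical
  by_cases ha : ac2 h tb v i e q w
  · refine Or.inr ?_
    obtain ⟨hs, hA, hH, _⟩ := hw
    rcases hs with h1 | h4
    · have hru := hAl h1 hA
      by_cases hg : gM q w
      · refine Or.inr (Or.inr ?_)
        by_cases hb : Z0 M Q q w ∨ ∃ u ∈ Q.Vk, bet M Q u q w
        · exact Or.inr (Or.inr ⟨⟨hA, hH, hg⟩, hru, hb⟩)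
        · refine Or.inl ⟨⟨hA, hH, hg⟩, ha, Or.inr ⟨hru, fun hh => hb (Or.inl hh), fun hh => hb (Or.inr ⟨i, ?_, hh⟩)⟩⟩
          rw [hV]
          exact mem_singleton_self i
      · exact Or.inr (Or.inl ⟨Or.inr hru, hA, hH, hg, ha⟩)
    · by_cases ht : UV.tv M i (q + 1) w = q + 1
      · by_cases hg : gM q w
        · refine Or.inr (Or.inr ?_)
          by_cases hb : bet M Q i q w
          · exact Or.inr (Or.inl ⟨⟨hA, hH, hg⟩, ⟨rfl, h4, ht⟩, hb⟩)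
          · exact Or.inl ⟨⟨hA, hH, hg⟩, ha, Or.inl ⟨⟨h4, ht⟩, hb⟩⟩
        · exact Or.inr (Or.inl ⟨Or.inl ⟨h4, ht⟩, hA, hH, hg, ha⟩)
      · exact Or.inl ⟨⟨h4, ht⟩, hA, hH, ha⟩
  · exact Or.inl ⟨hw, ha⟩

/-- the released tuples are counted by `rels` -/
theorem rel_rels (M : US (Om W X β)) (Q : Kd (Om W X β)) (S : Stps (Om := Om W X β)) (hV : Q.Vk = {i}) (q : ℕ) :
    tb.Ps.Pr (fun w => relp M Q S i q w ∨ relu M Q S q w) ≤ tb.Ps.E (fun w => rels M Q S q w) := by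
  classical
  unfold FP.Pr
  refine tb.Ps.E_mono fun w _ => ?_
  show ind (relp M Q S i q w ∨ relu M Q S q w) ≤ ∑ u ∈ Q.Vk, ind (relp M Q S u q w) + ind (relu M Q S q w)
  rw [hV, Finset.sum_singleton]
  by_cases h1 : relp M Q S i q w
  · rw [ind_of h1, ind_of (Or.inl h1)]
    linarith [ind_nonneg (relu M Q S q w)]
  · by_cases h2 : relu M Q S q w
    · rw [ind_of h2, ind_of (Or.inr h2)]
      linarith [ind_nonneg (relp M Q S i q w)]
    · rw [ind_not (not_or.2 ⟨h1, h2⟩)]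
      linarith [ind_nonneg (relp M Q S i q w), ind_nonneg (relu M Q S q w)]

/-- one substep -/
theorem heO_le (M : US (Om W X β)) (Q : Kd (Om W X β)) (g : ℕ → Om W X β → ℝ) (hV : Q.Vk = {i}) {q : ℕ}
    (hAl : ∀ w, tb.Ps.p w ≠ 0 → q % 5 = 1 → Al q w → ruO tb v q w) :
    tb.Ps.Pr (heO h tb v i Al Ht del q) ≤ tb.Ps.Pr (hiO h tb v i Al Ht e del q) + tb.Ps.Pr (hqO h tb v i Al Ht e M q) +
      tb.Ps.Pr (htO h tb v i Al Ht gM e M q) + tb.Ps.Pr (huO h tb v i Al Ht gM e M Q q) +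
        tb.Ps.E (fun w => rels M Q (stpsH tb v i Al Ht gM M g) q w) := by
  have h0 := rel_rels (tb := tb) M Q (stpsH tb v i Al Ht gM M g) hV q
  have h1 := tb.Ps.Pr_or_le (hiO h tb v i Al Ht e del q) (fun w => hqO h tb v i Al Ht e M q w ∨
    htO h tb v i Al Ht gM e M q w ∨ huO h tb v i Al Ht gM e M Q q w ∨
      (relp M Q (stpsH tb v i Al Ht gM M g) i q w ∨ relu M Q (stpsH tb v i Al Ht gM M g) q w))
  have h2 := tb.Ps.Pr_or_le (hqO h tb v i Al Ht e M q) (fun w =>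
    htO h tb v i Al Ht gM e M q w ∨ huO h tb v i Al Ht gM e M Q q w ∨
      (relp M Q (stpsH tb v i Al Ht gM M g) i q w ∨ relu M Q (stpsH tb v i Al Ht gM M g) q w))
  have h3 := tb.Ps.Pr_or_le (htO h tb v i Al Ht gM e M q) (fun w => huO h tb v i Al Ht gM e M Q q w ∨
      (relp M Q (stpsH tb v i Al Ht gM M g) i q w ∨ relu M Q (stpsH tb v i Al Ht gM M g) q w))
  have h4 := tb.Ps.Pr_or_le (huO h tb v i Al Ht gM e M Q q) (fun w =>
      (relp M Q (stpsH tb v i Al Ht gM M g) i q w ∨ relu M Q (stpsH tb v i Al Ht gM M g) q w))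
  have h5 := tb.Ps.Pr_mono (t := fun w => hiO h tb v i Al Ht e del q w ∨ (hqO h tb v i Al Ht e M q w ∨
    (htO h tb v i Al Ht gM e M q w ∨ (huO h tb v i Al Ht gM e M Q q w ∨
      (relp M Q (stpsH tb v i Al Ht gM M g) i q w ∨ relu M Q (stpsH tb v i Al Ht gM M g) q w)))))
    (fun w hw hh => heO_cases (e := e) (gM := gM) M Q g hV (hAl w hw) hh)
  linarith

/-! ### undecided tuples -/

section run

variable (h tb v i Al Ht gM e del)
variable (hv : Codes D v) {d1 kb d0 k0 p1 z : ℝ} (hd1 : 0 < d1) (hd11 : d1 ≤ 1) (hkb : 0 < kb) (hd0 : 0 < d0)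
  (hd01 : d0 ≤ 1) (hk0 : 0 < k0) (hp1 : 0 < p1) (hz : 0 < z) (g : ℕ → Om W X β → ℝ) (Q : Kd (Om W X β))

/-- the ends are seen -/
theorem stSH : StS (USi tb hv d1 kb d0 k0 p1 z hd1 hd11 hkb hd0 hd01 hk0 hp1 hz)
    (stpsH tb v i Al Ht gM (USi tb hv d1 kb d0 k0 p1 z hd1 hd11 hkb hd0 hd01 hk0 hp1 hz) g) where
  ru := fun q x w hh => by
    show ruO tb v q x ↔ ruO tb v q w
    unfold ruO
    refine and_congr_right fun _ => ?_
    have e1 : NPo tb v (q + 1) x = NPo tb v (q + 1) w :=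
      MVIp.NPq_sgt tb hv le_rfl (nc_le (q + 1) ∅) ∅ 0 x w hh
    have e0 : NPo tb v q x = NPo tb v q w := NPo_fac tb q x w e1
    rw [tb.Ps.Fac_m (NPo tb v (q + 1)) x w e1, tb.Ps.Fac_m (NPo tb v q) x w e0]
  rp := fun j q x w hh => by
    show (j = i ∧ q % 5 = 4 ∧ UV.tv _ i (q + 1) x = q + 1) ↔ (j = i ∧ q % 5 = 4 ∧ UV.tv _ i (q + 1) w = q + 1)
    refine and_congr_right fun hj => and_congr_right fun _ => ?_
    subst hj
    rw [tau_S (seen_i tb hv hd1 hd11 hkb hd0 hd01 hk0 hp1 hz) j le_rfl x w hh]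
  ci := fun j j' hjj => Dy.ci_vv tb TP.nn hjj

variable {g Q}

/-- **THE UNDECIDED HOT PAIRS** -/
theorem hu_sum {dg : ℕ → X → ℝ} {Lam : ℝ} (H : D.Hyp dg prr al T Lam) {n N1 : ℝ}
    (R : Run h (pr3 (Fin 3) n N1) (SS1 (Fin 3)) (AdmDep D) v) (hn : 1 ≤ n) (hN1 : 1 ≤ N1) (he : 0 < e) (he1 : e ≤ 1)
    (hV : Q.Vk = {i})
    (hkd : ∀ w, tb.Ps.p w ≠ 0 → ∀ q, Al q w → Ht q w → gM q w →
      ((q % 5 = 4 ∧ UV.tv (USi tb hv d1 kb d0 k0 p1 z hd1 hd11 hkb hd0 hd01 hk0 hp1 hz) i (q + 1) w = q + 1) ∨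
        ruO tb v q w) →
      Q.kd (some i) (UV.tv (USi tb hv d1 kb d0 k0 p1 z hd1 hd11 hkb hd0 hd01 hk0 hp1 hz) i q w) w) :
    ∑ q ∈ range (5 * T), tb.Ps.Pr (huO h tb v i Al Ht gM e
        (USi tb hv d1 kb d0 k0 p1 z hd1 hd11 hkb hd0 hd01 hk0 hp1 hz) Q q) ≤
      Real.sqrt Q.uB * (240 * Lam / e ^ 2) +
        ∑ q ∈ range (5 * T), tb.Ps.Pr (hkO h tb v i Al Ht gM e
          (USi tb hv d1 kb d0 k0 p1 z hd1 hd11 hkb hd0 hd01 hk0 hp1 hz) Q q) := by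
  classical
  set M := USi tb hv d1 kb d0 k0 p1 z hd1 hd11 hkb hd0 hd01 hk0 hp1 hz with hM
  set S : Stps (Om := Om W X β) := stpsH tb v i Al Ht gM M (fun _ _ => 0) with hS
  have HS : StS M S := stSH tb v i Al Ht gM hv hd1 hd11 hkb hd0 hd01 hk0 hp1 hz (fun _ _ => 0)
  have HB := bfS_i h tb hv hd1 hd11 hkb hd0 hd01 hk0 hp1 hz e
  have Hs : Seen M := seen_i tb hv hd1 hd11 hkb hd0 hd01 hk0 hp1 hz
  obtain ⟨j, l, hij, hil, hjl⟩ := two_oth i
  have p1' := prv_sum (Q := Q) Hs HS HB (fun w _ u q hr => by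
    show q % 5 ≠ 0
    have := hr.2.1
    omega) hij hil hjl (5 * T)
  have p2' := pub_hxy (Q := Q) Hs HS HB (fun w _ q hr => by
    show q % 5 ≠ 0
    have := hr.1
    omega) hij hil hjl (by rw [hV]; exact Finset.mem_singleton_self i) (5 * T)
  have hd : ∀ j', ∑ q ∈ range (5 * T), M.P.Pr (fun w => S.rp i q w ∧ acO h tb v e j' q w) +
      ∑ q ∈ range (5 * T), M.P.Pr (fun w => S.ru q w ∧ acO h tb v e j' q w) ≤ 240 * Lam / e ^ 2 := by
    intro j'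
    refine le_trans ?_ (acO_sum h tb H R hn hN1 j' he he1)
    rw [← Finset.sum_add_distrib]
    refine Finset.sum_le_sum fun q _ => ?_
    show tb.Ps.E _ + tb.Ps.E _ ≤ tb.Ps.E _
    rw [← FP.E_add]
    refine tb.Ps.E_mono fun w _ => ?_
    by_cases h1 : S.rp i q w
    · have h2 : ¬ S.ru q w := fun hh => by
        have a1 := h1.2.1
        have a2 := hh.1
        omega
      rw [ind_not (fun hh : S.ru q w ∧ _ => h2 hh.1), add_zero]
      exact ind_mono fun hh => hh.2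
    · rw [ind_not (fun hh : S.rp i q w ∧ _ => h1 hh.1), zero_add]
      exact ind_mono fun hh => hh.2
  have hq0 : 0 ≤ Real.sqrt Q.uB := Real.sqrt_nonneg _
  have hsum : Real.sqrt Q.uB * ((∑ q ∈ range (5 * T), M.P.Pr (fun w => S.rp i q w ∧ acO h tb v e j q w) +
        ∑ q ∈ range (5 * T), M.P.Pr (fun w => S.rp i q w ∧ acO h tb v e l q w)) / 2) +
      Real.sqrt Q.uB * ((∑ q ∈ range (5 * T), M.P.Pr (fun w => S.ru q w ∧ acO h tb v e j q w) +
        ∑ q ∈ range (5 * T), M.P.Pr (fun w => S.ru q w ∧ acO h tb v e l q w)) / 2) ≤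
      Real.sqrt Q.uB * (240 * Lam / e ^ 2) := by
    rw [← mul_add]
    refine mul_le_mul_of_nonneg_left ?_ hq0
    have := hd j
    have := hd l
    linarith
  have hcov : ∑ q ∈ range (5 * T), tb.Ps.Pr (huO h tb v i Al Ht gM e M Q q) ≤
      ∑ q ∈ range (5 * T), M.P.Pr (fun w => unv M Q S i q w ∧ acO h tb v e j q w ∧ acO h tb v e l q w) +
      ∑ q ∈ range (5 * T), M.P.Pr (fun w => unu M Q S q w ∧ acO h tb v e j q w ∧ acO h tb v e l q w) +
      ∑ q ∈ range (5 * T), tb.Ps.Pr (hkO h tb v i Al Ht gM e M Q q) := by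
    rw [← Finset.sum_add_distrib, ← Finset.sum_add_distrib]
    refine Finset.sum_le_sum fun q _ => ?_
    have h1 := tb.Ps.Pr_or_le (fun w => unv M Q S i q w ∧ acO h tb v e j q w ∧ acO h tb v e l q w)
      (fun w => (unu M Q S q w ∧ acO h tb v e j q w ∧ acO h tb v e l q w) ∨ hkO h tb v i Al Ht gM e M Q q w)
    have h2 := tb.Ps.Pr_or_le (fun w => unu M Q S q w ∧ acO h tb v e j q w ∧ acO h tb v e l q w)
      (hkO h tb v i Al Ht gM e M Q q)
    refine le_trans (tb.Ps.Pr_mono fun w hw hh => ?_) (le_trans h1 ?_)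
    · obtain ⟨⟨hA, hH, hg⟩, ha, hr⟩ := hh
      have aj := ha j hij.symm
      have al' := ha l hil.symm
      have hiv : i ∈ Q.Vk := by rw [hV]; exact Finset.mem_singleton_self i
      rcases hr with ⟨hr, hnb⟩ | ⟨hr, hnz, hnb⟩
      · have hk1 := Q.hkv i hiv _ _ (hkd w hw q hA hH hg (Or.inl hr))
        by_cases hblk : blk M Q i q w
        · exact Or.inr (Or.inr ⟨⟨hA, hH, hg⟩, ha, hr, hnb, hblk⟩)
        · exact Or.inl ⟨⟨⟨rfl, hr⟩, hk1, ⟨hnb, fun hh => hh⟩, hblk⟩, aj, al'⟩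
      · have hk1 := Q.hkv i hiv _ _ (hkd w hw q hA hH hg (Or.inr hr))
        refine Or.inr (Or.inl ⟨⟨hr, fun u hu => ?_, fun u hu => ?_, hnz⟩, aj, al'⟩)
        · rw [hV, Finset.mem_singleton] at hu
          subst hu
          exact hk1
        · rw [hV, Finset.mem_singleton] at hu
          subst hu
          exact ⟨hnb, fun hh => hh⟩
    · have e1 : M.P = tb.Ps := rfl
      rw [e1]
      linarith
  linarith

/-- **THE REAL SIDE OF THE HOT POTENTIAL, ONE PAIR** -/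
theorem heO_sum {dg : ℕ → X → ℝ} {Lam : ℝ} (H : D.Hyp dg prr al T Lam) {n N1 : ℝ}
    (R : Run h (pr3 (Fin 3) n N1) (SS1 (Fin 3)) (AdmDep D) v) (hn : 1 ≤ n) (hN1 : 1 ≤ N1) (he : 0 < e) (he1 : e ≤ 1)
    (hV : Q.Vk = {i}) (hAl : ∀ q < 5 * T, ∀ w, tb.Ps.p w ≠ 0 → q % 5 = 1 → Al q w → ruO tb v q w)
    (hkd : ∀ w, tb.Ps.p w ≠ 0 → ∀ q, Al q w → Ht q w → gM q w →
      ((q % 5 = 4 ∧ UV.tv (USi tb hv d1 kb d0 k0 p1 z hd1 hd11 hkb hd0 hd01 hk0 hp1 hz) i (q + 1) w = q + 1) ∨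
        ruO tb v q w) →
      Q.kd (some i) (UV.tv (USi tb hv d1 kb d0 k0 p1 z hd1 hd11 hkb hd0 hd01 hk0 hp1 hz) i q w) w) :
    ∑ q ∈ range (5 * T), tb.Ps.Pr (heO h tb v i Al Ht del q) ≤
      ∑ q ∈ range (5 * T), tb.Ps.Pr (hiO h tb v i Al Ht e del q) +
      ∑ q ∈ range (5 * T), tb.Ps.Pr (hqO h tb v i Al Ht e
          (USi tb hv d1 kb d0 k0 p1 z hd1 hd11 hkb hd0 hd01 hk0 hp1 hz) q) +
      ∑ q ∈ range (5 * T), tb.Ps.Pr (htO h tb v i Al Ht gM e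
          (USi tb hv d1 kb d0 k0 p1 z hd1 hd11 hkb hd0 hd01 hk0 hp1 hz) q) +
      (Real.sqrt Q.uB * (240 * Lam / e ^ 2) +
        ∑ q ∈ range (5 * T), tb.Ps.Pr (hkO h tb v i Al Ht gM e
          (USi tb hv d1 kb d0 k0 p1 z hd1 hd11 hkb hd0 hd01 hk0 hp1 hz) Q q)) +
      ∑ q ∈ range (5 * T), tb.Ps.E (fun w => rels (USi tb hv d1 kb d0 k0 p1 z hd1 hd11 hkb hd0 hd01 hk0 hp1 hz) Q
          (stpsH tb v i Al Ht gM (USi tb hv d1 kb d0 k0 p1 z hd1 hd11 hkb hd0 hd01 hk0 hp1 hz) g) q w) := by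
  have h1 := hu_sum h tb v i Al Ht gM e hv hd1 hd11 hkb hd0 hd01 hk0 hp1 hz (Q := Q) H R hn hN1 he he1 hV hkd
  have h2 : ∑ q ∈ range (5 * T), tb.Ps.Pr (heO h tb v i Al Ht del q) ≤ _ := Finset.sum_le_sum fun q hq =>
    heO_le (h := h) (e := e) (gM := gM) (USi tb hv d1 kb d0 k0 p1 z hd1 hd11 hkb hd0 hd01 hk0 hp1 hz) Q g hV
      (fun w hw hq1 hA => hAl q (Finset.mem_range.1 hq) w hw hq1 hA)
  rw [Finset.sum_add_distrib, Finset.sum_add_distrib, Finset.sum_add_distrib, Finset.sum_add_distrib] at h2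
  linarith

end run

/-! ### the law of the state -/

section law

variable (h tb v i del)

/-- the pair which sees the vertex `i` is hot at the start of the step `(s, t)` -/
def htP (E : ℝ) (s : Fin 6) (t : ℕ) (w : Pt (Fin 3) X β φ) : Prop :=
  ∃ j k : Fin 3, j ≠ i ∧ k ≠ i ∧ j ≠ k ∧
    hotF (D.P h t) (ZQ D v (qs s t)) (ZbQ D v (qs s t)) (FQ v t) E j k w (FQ v t j w) (FQ v t k w)

/-- a letter of the pair rises -/
def riP (s : Fin 6) (t : ℕ) (w : Pt (Fin 3) X β φ) : Prop := ∃ j, j ≠ i ∧ 1 + del < rS h v s t j w (FQ v t j w)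

/-- some missing thin letter is strong -/
def ssP (B : ℝ) (s : Fin 6) (t : ℕ) (w : Pt (Fin 3) X β φ) : Prop :=
  ∃ j, B < Pool.Agent.GMH.tF (D.P h t) (ZQ D v (qs s t)) (ZbQ D v (qs s t)) (ZbQ D v (qe s t)) j w

/-- hot at the true pair, on the table space -/
def hO (E : ℝ) (q : ℕ) (w : Om W X β) : Prop := htP h v i E (sO q) (q / 5) (tb.pt (q / 5) w)

variable {h tb v i del}

theorem heO_pt (A : Fin 6 → ℕ → Pt (Fin 3) X β φ → Prop) (E : ℝ) {q : ℕ} (hq : q % 5 = 1 ∨ q % 5 = 4) (hT : q / 5 ≤ T) :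
    tb.Ps.Pr (heO h tb v i (aO tb A) (hO h tb v i E) del q) = (D.P h (q / 5)).Pr (fun w => A (sO q) (q / 5) w ∧
      htP h v i E (sO q) (q / 5) w ∧ riP h v i del (sO q) (q / 5) w) := by
  unfold FP.Pr
  rw [← (pul_pt h tb hT).E]
  refine tb.Ps.E_congr fun w _ => ?_
  congr 1
  exact propext ⟨fun hh => hh.2, fun hh => ⟨hq, hh⟩⟩

/-- **TRANSFER** -/
theorem heO_tr (A : Fin 6 → ℕ → Pt (Fin 3) X β φ → Prop) (E : ℝ) :
    ∑ t ∈ range T, ((D.P h t).Pr (fun w => A 1 t w ∧ htP h v i E 1 t w ∧ riP h v i del 1 t w) +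
      (D.P h t).Pr (fun w => A 5 t w ∧ htP h v i E 5 t w ∧ riP h v i del 5 t w)) ≤
      ∑ q ∈ range (5 * T), tb.Ps.Pr (heO h tb v i (aO tb A) (hO h tb v i E) del q) := by
  rw [sum_five]
  refine Finset.sum_le_sum fun t ht => ?_
  have ht' := (Finset.mem_range.1 ht).le
  have k1 := heO_pt (h := h) (tb := tb) (v := v) (i := i) (del := del) A E (q := 5 * t + 1) (Or.inl (by omega)) (by omega)
  have k4 := heO_pt (h := h) (tb := tb) (v := v) (i := i) (del := del) A E (q := 5 * t + 4) (Or.inr (by omega)) (by omega)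
  rw [sO_v1 (by omega), show (5 * t + 1) / 5 = t by omega] at k1
  rw [sO_v4 (by omega), show (5 * t + 4) / 5 = t by omega] at k4
  rw [k1, k4]
  have nn : ∀ q, 0 ≤ tb.Ps.Pr (heO h tb v i (aO tb A) (hO h tb v i E) del q) := fun q => tb.Ps.Pr_nonneg _
  linarith [nn (5 * t), nn (5 * t + 2), nn (5 * t + 3)]

/-- the third vertex -/
theorem thd {j k : Fin 3} (hjk : j ≠ k) : ∃ i : Fin 3, j ≠ i ∧ k ≠ i := by
  have key : ∀ j k : Fin 3, j ≠ k → ∃ i : Fin 3, j ≠ i ∧ k ≠ i := by decide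
  exact key j k hjk

/-- a tuple of the region `Rd3` is a hot pair with a rising letter -/
theorem Rd3_hot {B E e3 : ℝ} {s : Fin 6} {t : ℕ} {w : Pt (Fin 3) X β φ} (hh : Rd3 h v B E e3 s t w (tup (FQ v t) w)) :
    ∃ i, ssP h v B s t w ∧ htP h v i E s t w ∧ riP h v i e3 s t w := by
  obtain ⟨h1, j, k, hjk, h3, h4⟩ := RegD_pair hh
  obtain ⟨i, hji, hki⟩ := thd hjk
  exact ⟨i, h1, ⟨j, k, hji, hki, hjk, h3⟩, j, hji, h4⟩

/-- the frame two -/
theorem Rd2_hot {B E e3 : ℝ} (h3 : 0 ≤ e3) {b : Bool} {t : ℕ} {w : Pt (Fin 3) X β φ} (hw : (D.P h t).p w ≠ 0)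
    (hh : Rd2 h v B E e3 i b t w (tup (Fo (FQ v t) i) w)) :
    ssP h v B (s2 b) t w ∧ htP h v i E (s2 b) t w ∧ riP h v i e3 (s2 b) t w := by
  obtain ⟨h1, _, j, k, hjk, h5, h6, h7⟩ := hh
  have f : ∀ l, tup (Fo (FQ v t) i) w l = Fo (FQ v t) i l w := fun _ => rfl
  rw [f] at h6 h7
  rw [f, f] at h5
  have hj : j ≠ i := by
    rintro rfl
    rw [FoL.Fn_app, FoL.rF_Fn (D.P h t) (FQ v t) j _ _ hw] at h6
    linarith
  have hk : k ≠ i := by
    rintro rfl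
    rw [FoL.Fn_app, FoL.rF_Fn (D.P h t) (FQ v t) k _ _ hw] at h7
    linarith
  have ej : Fo (FQ v t) i j w = some (FQ v t j w) := by unfold Fo; rw [if_neg hj]
  have ek : Fo (FQ v t) i k w = some (FQ v t k w) := by unfold Fo; rw [if_neg hk]
  rw [ej, FoL.rF_Fo (D.P h t) (FQ v t) i _ _ hj] at h6
  refine ⟨h1, ⟨j, k, hj, hk, hjk, ?_⟩, j, hj, h6⟩
  unfold hotF at h5 ⊢
  rw [ej, ek, FoL.qF_Fo (D.P h t) (FQ v t) i _ hj, FoL.qF_Fo (D.P h t) (FQ v t) i _ hk,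
    FoL.mF2_Fo (D.P h t) (FQ v t) i _ hj hk] at h5
  exact h5

/-! ### the unreleased sums of the region (d) -/

/-- **FULL FRAME, ONE STEP** -/
theorem unrS_hot {c : KC} {B' : ℝ} {bt : Fin 10 → Fin 3 → ℕ → Pt (Fin 3) X β φ → Prop}
    {bz : Fin 10 → ℕ → Pt (Fin 3) X β φ → Prop} (A : Fin 6 → ℕ → Pt (Fin 3) X β φ → Prop) {dg : ℕ → X → ℝ} {Lam : ℝ}
    (H : D.Hyp dg prr al T Lam) {N : Finset (Fin 3) → ℝ} (R : Run h N (SS1 (Fin 3)) (AdmDep D) v)
    (hN : ∀ l : Fin 3, 0 < N (univ.erase l)) {eta : ℝ} (h0 : 0 < eta) (h1 : eta ≤ 1) (B E e3 : ℝ) (s : Fin 6) {t : ℕ}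
    (ht : t ≤ T) :
    UnrS h v c B' (Rd3 h v B E e3) bt bz A eta s t ≤ (3 * Lam + Real.log (1 / eta)) *
      ∑ i, (D.P h t).Pr (fun w => (A s t w ∧ ssP h v B s t w) ∧ htP h v i E s t w ∧ riP h v i e3 s t w) := by
  classical
  have hlog : 0 ≤ Real.log (1 / eta) := Real.log_nonneg (by rw [le_div_iff₀ h0]; linarith)
  have hLc : 0 ≤ 3 * Lam + Real.log (1 / eta) := by linarith [H.Lam1]
  unfold UnrS FP.Pr
  rw [← FP.E_sum, ← (D.P h t).E_smul]
  refine (D.P h t).E_mono fun w hw => ?_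
  have hq : 5 * t ≤ qs s t := by fin_cases s <;> simp [qs]
  have e2 : psS h v s t w ≤ 3 * Lam := psi_le H R hN ht hq hw
  have hm0 : 0 ≤ max (psS h v s t w) 0 + Real.log (1 / eta) := add_nonneg (le_max_right _ _) hlog
  have hm1 : max (psS h v s t w) 0 + Real.log (1 / eta) ≤ 3 * Lam + Real.log (1 / eta) :=
    add_le_add (max_le e2 (by linarith [H.Lam1])) le_rfl
  obtain ⟨r0, r1⟩ := rw3_01 (h := h) (v := v) (c := c) (B := B') (bt := bt) (bz := bz) s t w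
  have hS : 0 ≤ ∑ i, ind ((A s t w ∧ ssP h v B s t w) ∧ htP h v i E s t w ∧ riP h v i e3 s t w) :=
    Finset.sum_nonneg fun i _ => ind_nonneg _
  by_cases hA : A s t w
  · by_cases hR : Rd3 h v B E e3 s t w (tup (FQ v t) w)
    · obtain ⟨i, h3, h4, h5⟩ := Rd3_hot hR
      have h6 : 1 ≤ ∑ i, ind ((A s t w ∧ ssP h v B s t w) ∧ htP h v i E s t w ∧ riP h v i e3 s t w) := by
        have h7 := Finset.single_le_sum (f := fun i => ind ((A s t w ∧ ssP h v B s t w) ∧ htP h v i E s t w ∧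
          riP h v i e3 s t w)) (fun i _ => ind_nonneg _) (mem_univ i)
        have h8 : ind ((A s t w ∧ ssP h v B s t w) ∧ htP h v i E s t w ∧ riP h v i e3 s t w) = 1 :=
          ind_of ⟨⟨hA, h3⟩, h4, h5⟩
        simp only [h8] at h7
        exact h7
      refine (un_num (ind_le_one _) r0 r1 (ind_nonneg _) (ind_le_one _) hm0 hm1).trans ?_
      exact le_mul_of_one_le_right hLc h6
    · rw [ind_not hR, zero_mul, mul_zero, mul_zero]
      exact mul_nonneg hLc hS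
  · rw [ind_not hA, zero_mul]
    exact mul_nonneg hLc hS

/-- **FRAME TWO, ONE STEP** -/
theorem unrS2_hot {c : KC} {B' : ℝ} {rk : Finset (Fin 10)} {bt : Fin 10 → ℕ → Pt (Fin 3) X β φ → Prop}
    {bz : Fin 10 → ℕ → Pt (Fin 3) X β φ → Prop} (A : Bool → ℕ → Pt (Fin 3) X β φ → Prop) {dg : ℕ → X → ℝ} {Lam : ℝ}
    (H : D.Hyp dg prr al T Lam) {N : Finset (Fin 3) → ℝ} (R : Run h N (SS1 (Fin 3)) (AdmDep D) v)
    (hN : ∀ l : Fin 3, 0 < N (univ.erase l)) {eta : ℝ} (h0 : 0 < eta) (h1 : eta ≤ 1) (B E : ℝ) {e3 : ℝ} (h3 : 0 ≤ e3)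
    (b : Bool) {t : ℕ} (ht : t ≤ T) :
    UnrS2 h v c B' i rk (Rd2 h v B E e3 i) bt bz A eta b t ≤ (3 * Lam + Real.log (1 / eta)) *
      (D.P h t).Pr (fun w => (A b t w ∧ ssP h v B (s2 b) t w) ∧ htP h v i E (s2 b) t w ∧ riP h v i e3 (s2 b) t w) := by
  classical
  have hlog : 0 ≤ Real.log (1 / eta) := Real.log_nonneg (by rw [le_div_iff₀ h0]; linarith)
  have hLc : 0 ≤ 3 * Lam + Real.log (1 / eta) := by linarith [H.Lam1]
  unfold UnrS2 FP.Pr
  rw [← (D.P h t).E_smul]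
  refine (D.P h t).E_mono fun w hw => ?_
  have e2 : psS2 h v i b t w ≤ 3 * Lam := by
    cases b
    · exact psi2_le H R hN ht (show 5 * t ≤ 5 * t + 1 by omega) i hw
    · exact psi2_le H R hN ht (show 5 * t ≤ 5 * t + 4 by omega) i hw
  have hm0 : 0 ≤ max (psS2 h v i b t w) 0 + Real.log (1 / eta) := add_nonneg (le_max_right _ _) hlog
  have hm1 : max (psS2 h v i b t w) 0 + Real.log (1 / eta) ≤ 3 * Lam + Real.log (1 / eta) :=
    add_le_add (max_le e2 (by linarith [H.Lam1])) le_rfl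
  obtain ⟨r0, r1⟩ := rw2_01 (h := h) (v := v) (c := c) (B := B') (i := i) (rk := rk) (bt := bt) (bz := bz) b t w
  by_cases hA : A b t w
  · by_cases hR : Rd2 h v B E e3 i b t w (tup (Fo (FQ v t) i) w)
    · obtain ⟨h4, h5, h6⟩ := Rd2_hot h3 hw hR
      rw [ind_of (show (A b t w ∧ ssP h v B (s2 b) t w) ∧ htP h v i E (s2 b) t w ∧ riP h v i e3 (s2 b) t w from
        ⟨⟨hA, h4⟩, h5, h6⟩), mul_one]
      exact un_num (ind_le_one _) r0 r1 (ind_nonneg _) (ind_le_one _) hm0 hm1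
    · rw [ind_not hR, zero_mul, mul_zero, mul_zero]
      exact mul_nonneg hLc (ind_nonneg _)
  · rw [ind_not hA, zero_mul]
    exact mul_nonneg hLc (ind_nonneg _)

end law

end

end Pool.Agent.GMH.TRF
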