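import Pool.Agent.GMH.HotK
import Pool.Agent.GMH.KDTw

/-!
# GMH/HotT (helper22): TRANSFER OF THE HOT PAIR KINDS (unsigned, two levels)

`hotq i a s q w` = the true pair of the vertex `i` is hot, tables of the state `q` (`GMH/HotK`).  All its values are tables with
the vertex `i` inside, so stability at the exact `i` (`GMH/KDT1`) moves it: `hotq i a s q → hotq i (a - 1) (2 s) r`, both ways
(`hq_stb`, `hq_stb'`).
* `hq_prv` : private removal of `i`, any state of the exact epoch; `hq_pub` : public removal; `hq_nu` : public epoch;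
* `hk_prv`, `hk_pub`, `hk_nu` : the tables `eT τ` of the start of the life of `i`, of the public start; `hk_prv'`, `hk_pub'`,
  `hk_nu'` : back, from the start to the removal.
-/

set_option autoImplicit false
set_option linter.unusedSectionVars false

namespace Pool.Agent.GMH.HotT

open Finset Pool.Agent.PWZ Pool.Agent.M3 Pool.Agent.GM Pool.Agent.GM.Harm Pool.Agent.GMH Pool.Agent.GMH.NZ
open Pool.Agent.GMH.V3 Pool.Agent.GMH.TP Pool.Agent.GMH.TD Pool.Agent.GMH.Dy Pool.Agent.GMH.MV Pool.Agent.GMH.MVI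
open Pool.Agent.GMH.CK Pool.Agent.GMH.KF Pool.Agent.GMH.KDT Pool.Agent.GMH.KDL Pool.Agent.GMH.KDTw

noncomputable section

variable {X β γ φ : Type} [Fintype X] [Fintype β] [Fintype φ] [Nonempty X] [Nonempty β]
variable {D : HD (Fin 3) X β γ φ} {al : ℝ} {h : D.Thick al} {N : Finset (Fin 3) → ℝ} {SS : Finset (Finset (Fin 3))}
  {v : ℕ → Finset (Fin 3) → X → (Fin 3 → β) → Pt (Fin 3) X β φ}
variable {dg : ℕ → X → ℝ} {prr : ℕ → Fin 3 → φ → φ} {T : ℕ} {Lam : ℝ} {W : Type} [Fintype W] (tb : Tab D prr T W)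
variable {d1 kb d0 k0 p1 z : ℝ} (hd1 : 0 < d1) (hd11 : d1 ≤ 1) (hkb : 0 < kb) (hd0 : 0 < d0) (hd01 : d0 ≤ 1) (hk0 : 0 < k0)
  (hp1 : 0 < p1) (hz : 0 < z)

/-- the single of a top which sees the vertex `i` -/
theorem sgl_stb (H : D.Hyp dg prr al T Lam) (R : Run h N SS (AdmDep D) v) (hS : ∀ l, univ.erase l ∈ SS) (hu : univ ∉ SS)
    (hN : ∀ l, 0 < N (univ.erase l)) {e : ℝ} {q r : ℕ} (hq : q / 5 ≤ T) (hr : r / 5 ≤ T) {w : Om W X β}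
    (hw : tb.Ps.p w ≠ 0) {i l : Fin 3} (hl : l ≠ i)
    (hs : Stb (MSi tb (v := v) d1 kb d0 k0 p1 z hd1 hd11 hkb hd0 hd01 hk0 hp1 hz) i e r q w) :
    |sgl h v tb l q w - sgl h v tb l r w| ≤ 4 * e := by
  have s1 := sg3_lt tb hd1 hd11 hkb hd0 hd01 hk0 hp1 hz H R hS hu hN hq l hw
  have s2 := sg3_lt tb hd1 hd11 hkb hd0 hd01 hk0 hp1 hz H R hS hu hN hr l hw
  set M := MSi tb (v := v) d1 kb d0 k0 p1 z hd1 hd11 hkb hd0 hd01 hk0 hp1 hz with hM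
  have hwM : M.P.p w ≠ 0 := hw
  have a1 := abs_le.1 (lt_stb (mem_univ i) {l} hwM hs)
  have a2 := abs_le.1 (lt_stb (Finset.mem_erase.2 ⟨hl.symm, mem_univ i⟩ : i ∈ univ.erase l) {l} hwM hs)
  have e1 : sgl h v tb l q w = lt M univ {l} q w - lt M (univ.erase l) {l} q w := s1
  have e2 : sgl h v tb l r w = lt M univ {l} r w - lt M (univ.erase l) {l} r w := s2
  rw [e1, e2, abs_le]
  constructor <;> linarith [a1.1, a1.2, a2.1, a2.2]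

/-- the single in the public epoch -/
theorem sgl_unl (H : D.Hyp dg prr al T Lam) (R : Run h N SS (AdmDep D) v) (hS : ∀ l, univ.erase l ∈ SS) (hu : univ ∉ SS)
    (hN : ∀ l, 0 < N (univ.erase l)) {q r : ℕ} (hq : q / 5 ≤ T) (hr : r / 5 ≤ T) {w : Om W X β}
    (hw : tb.Ps.p w ≠ 0) (l : Fin 3)
    (hL : ¬ Lst (MSi tb (v := v) d1 kb d0 k0 p1 z hd1 hd11 hkb hd0 hd01 hk0 hp1 hz)
        (nu (MSi tb (v := v) d1 kb d0 k0 p1 z hd1 hd11 hkb hd0 hd01 hk0 hp1 hz) q w) q w)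
    (h1 : nu (MSi tb (v := v) d1 kb d0 k0 p1 z hd1 hd11 hkb hd0 hd01 hk0 hp1 hz) q w ≤ r) (h2 : r ≤ q) :
    |sgl h v tb l q w - sgl h v tb l r w| ≤ 16 * d0 := by
  have s1 := sg3_lt tb hd1 hd11 hkb hd0 hd01 hk0 hp1 hz H R hS hu hN hq l hw
  have s2 := sg3_lt tb hd1 hd11 hkb hd0 hd01 hk0 hp1 hz H R hS hu hN hr l hw
  set M := MSi tb (v := v) d1 kb d0 k0 p1 z hd1 hd11 hkb hd0 hd01 hk0 hp1 hz with hM
  have hwM : M.P.p w ≠ 0 := hw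
  have a1 := abs_le.1 (lt_unl univ {l} hwM hL h1 h2)
  have a2 := abs_le.1 (lt_unl (univ.erase l) {l} hwM hL h1 h2)
  have e1 : sgl h v tb l q w = lt M univ {l} q w - lt M (univ.erase l) {l} q w := s1
  have e2 : sgl h v tb l r w = lt M univ {l} r w - lt M (univ.erase l) {l} r w := s2
  have e0 : M.d0 = d0 := rfl
  rw [e0] at a1 a2
  rw [e1, e2, abs_le]
  constructor <;> linarith [a1.1, a1.2, a2.1, a2.2]

/-- from the logarithms to the relation -/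
theorem hq_move {i : Fin 3} {a s : ℝ} (hs : 0 < s) {q r : ℕ} (hq : q / 5 ≤ T) (hr : r / 5 ≤ T) {w : Om W X β}
    (hw : tb.Ps.p w ≠ 0) (h1 : |pq2 h v tb i q w - pq2 h v tb i r w| ≤ 1)
    (h2 : ∀ l, l ≠ i → |sgl h v tb l q w - sgl h v tb l r w| ≤ 1 / 2) (hh : hotq h v tb i a s q w) :
    hotq h v tb i (a - 1) (2 * s) r w := by
  have g1 := (hotq_log h v tb hs ((pul_pt h tb hq).ne hw)).1 hh
  refine (hotq_log h v tb (by positivity) ((pul_pt h tb hr).ne hw)).2 ⟨?_, fun l hl => ?_⟩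
  · have := (abs_le.1 h1).2
    linarith [g1.1]
  · have a1 := (abs_le.1 (h2 l (Finset.ne_of_mem_erase hl))).1
    have a2 := g1.2 l hl
    have a3 := Real.log_two_gt_d9
    rw [Real.log_mul (by norm_num) hs.ne']
    linarith

/-- **TRANSFER under stability at the exact `i`**, from the later to the earlier state -/
theorem hq_stb (H : D.Hyp dg prr al T Lam) (R : Run h N SS (AdmDep D) v) (hS : ∀ l, univ.erase l ∈ SS) (hu : univ ∉ SS)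
    (hN : ∀ l, 0 < N (univ.erase l)) {e : ℝ} (he : e ≤ 1 / 8) {q r : ℕ} (hq : q / 5 ≤ T) {w : Om W X β}
    (hw : tb.Ps.p w ≠ 0) {i : Fin 3} (h2 : r ≤ q)
    (hst : Stb (MSi tb (v := v) d1 kb d0 k0 p1 z hd1 hd11 hkb hd0 hd01 hk0 hp1 hz) i e r q w) {a s : ℝ} (hs : 0 < s)
    (hh : hotq h v tb i a s q w) : hotq h v tb i (a - 1) (2 * s) r w := by
  have hr := (Nat.div_le_div_right (c := 5) h2).trans hq
  have g1 := p2_stb tb hd1 hd11 hkb hd0 hd01 hk0 hp1 hz H R hS hu hN hq hw h2 hst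
  exact hq_move tb hs hq hr hw (by linarith) (fun l hl =>
    (sgl_stb tb hd1 hd11 hkb hd0 hd01 hk0 hp1 hz H R hS hu hN hq hr hw hl hst).trans (by linarith)) hh

/-- **TRANSFER under stability at the exact `i`**, from the earlier to the later state -/
theorem hq_stb' (H : D.Hyp dg prr al T Lam) (R : Run h N SS (AdmDep D) v) (hS : ∀ l, univ.erase l ∈ SS) (hu : univ ∉ SS)
    (hN : ∀ l, 0 < N (univ.erase l)) {e : ℝ} (he : e ≤ 1 / 8) {q r : ℕ} (hq : q / 5 ≤ T) {w : Om W X β}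
    (hw : tb.Ps.p w ≠ 0) {i : Fin 3} (h2 : r ≤ q)
    (hst : Stb (MSi tb (v := v) d1 kb d0 k0 p1 z hd1 hd11 hkb hd0 hd01 hk0 hp1 hz) i e r q w) {a s : ℝ} (hs : 0 < s)
    (hh : hotq h v tb i a s r w) : hotq h v tb i (a - 1) (2 * s) q w := by
  have hr := (Nat.div_le_div_right (c := 5) h2).trans hq
  have g1 := p2_stb tb hd1 hd11 hkb hd0 hd01 hk0 hp1 hz H R hS hu hN hq hw h2 hst
  rw [abs_sub_comm] at g1
  refine hq_move tb hs hr hq hw (by linarith) (fun l hl => ?_) hh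
  rw [abs_sub_comm]
  exact (sgl_stb tb hd1 hd11 hkb hd0 hd01 hk0 hp1 hz H R hS hu hN hq hr hw hl hst).trans (by linarith)

/-- **PRIVATE REMOVAL of `i`** : any state of the exact epoch -/
theorem hq_prv (H : D.Hyp dg prr al T Lam) (R : Run h N SS (AdmDep D) v) (hS : ∀ l, univ.erase l ∈ SS) (hu : univ ∉ SS)
    (hN : ∀ l, 0 < N (univ.erase l)) (he : d1 ≤ 1 / 32) {q : ℕ} (hq : q / 5 ≤ T) {w : Om W X β}
    (hw : tb.Ps.p w ≠ 0) {i : Fin 3}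
    (hm : ¬ MV.Mv (MSi tb (v := v) d1 kb d0 k0 p1 z hd1 hd11 hkb hd0 hd01 hk0 hp1 hz) i q w) {r : ℕ}
    (h1 : MV.tau (MSi tb (v := v) d1 kb d0 k0 p1 z hd1 hd11 hkb hd0 hd01 hk0 hp1 hz) i q w ≤ r) (h2 : r ≤ q) {a s : ℝ}
    (hs : 0 < s) (hh : hotq h v tb i a s q w) : hotq h v tb i (a - 1) (2 * s) r w :=
  hq_stb tb hd1 hd11 hkb hd0 hd01 hk0 hp1 hz H R hS hu hN (show 4 * d1 ≤ 1 / 8 by linarith) hq hw h2
    (stb_of (M := MSi tb (v := v) d1 kb d0 k0 p1 z hd1 hd11 hkb hd0 hd01 hk0 hp1 hz) hw hm h1 h2) hs hh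

/-- **PUBLIC REMOVAL** : any state of the exact epoch of `i` -/
theorem hq_pub (H : D.Hyp dg prr al T Lam) (R : Run h N SS (AdmDep D) v) (hS : ∀ l, univ.erase l ∈ SS) (hu : univ ∉ SS)
    (hN : ∀ l, 0 < N (univ.erase l)) (he : 4 * d1 + 16 * d0 ≤ 1 / 8) {q : ℕ} (hq : q / 5 ≤ T) {w : Om W X β}
    (hw : tb.Ps.p w ≠ 0) {i : Fin 3}
    (hm : ¬ MV.Mv (MSi tb (v := v) d1 kb d0 k0 p1 z hd1 hd11 hkb hd0 hd01 hk0 hp1 hz) i
      (nu (MSi tb (v := v) d1 kb d0 k0 p1 z hd1 hd11 hkb hd0 hd01 hk0 hp1 hz) q w) w)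
    (hL : ¬ 0 < tb.Ps.ce (TH (MSi tb (v := v) d1 kb d0 k0 p1 z hd1 hd11 hkb hd0 hd01 hk0 hp1 hz) q) (fun u =>
      ind (Lst (MSi tb (v := v) d1 kb d0 k0 p1 z hd1 hd11 hkb hd0 hd01 hk0 hp1 hz)
        (nu (MSi tb (v := v) d1 kb d0 k0 p1 z hd1 hd11 hkb hd0 hd01 hk0 hp1 hz) q w) q u)) w) {r : ℕ}
    (h1 : MV.tau (MSi tb (v := v) d1 kb d0 k0 p1 z hd1 hd11 hkb hd0 hd01 hk0 hp1 hz) i q w ≤ r) (h2 : r ≤ q) {a s : ℝ}
    (hs : 0 < s) (hh : hotq h v tb i a s q w) : hotq h v tb i (a - 1) (2 * s) r w :=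
  hq_stb tb hd1 hd11 hkb hd0 hd01 hk0 hp1 hz H R hS hu hN he hq hw h2
    (stb_pub (M := MSi tb (v := v) d1 kb d0 k0 p1 z hd1 hd11 hkb hd0 hd01 hk0 hp1 hz) hw hm hL h1 h2).2 hs hh

/-- **PUBLIC REMOVAL** : any state of the public epoch -/
theorem hq_nu (H : D.Hyp dg prr al T Lam) (R : Run h N SS (AdmDep D) v) (hS : ∀ l, univ.erase l ∈ SS) (hu : univ ∉ SS)
    (hN : ∀ l, 0 < N (univ.erase l)) (he : d0 ≤ 1 / 64) {q : ℕ} (hq : q / 5 ≤ T) {w : Om W X β}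
    (hw : tb.Ps.p w ≠ 0) (i : Fin 3)
    (hL : ¬ Lst (MSi tb (v := v) d1 kb d0 k0 p1 z hd1 hd11 hkb hd0 hd01 hk0 hp1 hz)
        (nu (MSi tb (v := v) d1 kb d0 k0 p1 z hd1 hd11 hkb hd0 hd01 hk0 hp1 hz) q w) q w) {r : ℕ}
    (h1 : nu (MSi tb (v := v) d1 kb d0 k0 p1 z hd1 hd11 hkb hd0 hd01 hk0 hp1 hz) q w ≤ r) (h2 : r ≤ q) {a s : ℝ}
    (hs : 0 < s) (hh : hotq h v tb i a s q w) : hotq h v tb i (a - 1) (2 * s) r w := by
  have hr := (Nat.div_le_div_right (c := 5) h2).trans hq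
  have g1 := p2_nu tb hd1 hd11 hkb hd0 hd01 hk0 hp1 hz H R hS hu hN hq hw i hL h1 h2
  exact hq_move tb hs hq hr hw (by linarith) (fun l _ =>
    (sgl_unl tb hd1 hd11 hkb hd0 hd01 hk0 hp1 hz H R hS hu hN hq hr hw l hL h1 h2).trans (by linarith)) hh

/-- **PUBLIC EPOCH**, from the earlier to the later state -/
theorem hq_nu' (H : D.Hyp dg prr al T Lam) (R : Run h N SS (AdmDep D) v) (hS : ∀ l, univ.erase l ∈ SS) (hu : univ ∉ SS)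
    (hN : ∀ l, 0 < N (univ.erase l)) (he : d0 ≤ 1 / 64) {q : ℕ} (hq : q / 5 ≤ T) {w : Om W X β}
    (hw : tb.Ps.p w ≠ 0) (i : Fin 3)
    (hL : ¬ Lst (MSi tb (v := v) d1 kb d0 k0 p1 z hd1 hd11 hkb hd0 hd01 hk0 hp1 hz)
        (nu (MSi tb (v := v) d1 kb d0 k0 p1 z hd1 hd11 hkb hd0 hd01 hk0 hp1 hz) q w) q w) {r : ℕ}
    (h1 : nu (MSi tb (v := v) d1 kb d0 k0 p1 z hd1 hd11 hkb hd0 hd01 hk0 hp1 hz) q w ≤ r) (h2 : r ≤ q) {a s : ℝ}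
    (hs : 0 < s) (hh : hotq h v tb i a s r w) : hotq h v tb i (a - 1) (2 * s) q w := by
  have hr := (Nat.div_le_div_right (c := 5) h2).trans hq
  have g1 := p2_nu tb hd1 hd11 hkb hd0 hd01 hk0 hp1 hz H R hS hu hN hq hw i hL h1 h2
  rw [abs_sub_comm] at g1
  refine hq_move tb hs hr hq hw (by linarith) (fun l _ => ?_) hh
  rw [abs_sub_comm]
  exact (sgl_unl tb hd1 hd11 hkb hd0 hd01 hk0 hp1 hz H R hS hu hN hq hr hw l hL h1 h2).trans (by linarith)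

/-! ### the tables of a start (RULE L), life of the status clock -/

/-- **PRIVATE REMOVAL of `i`, start of the life of `i`** -/
theorem hk_prv (H : D.Hyp dg prr al T Lam) (R : Run h N SS (AdmDep D) v) (hS : ∀ l, univ.erase l ∈ SS) (hu : univ ∉ SS)
    (hN : ∀ l, 0 < N (univ.erase l)) (he : d1 ≤ 1 / 32) {q : ℕ} (hq : q / 5 ≤ T) {w : Om W X β}
    (hw : tb.Ps.p w ≠ 0) (hl : ¬ ltL v tb q w) {i : Fin 3}
    (hm : ¬ MV.Mv (MSi tb (v := v) d1 kb d0 k0 p1 z hd1 hd11 hkb hd0 hd01 hk0 hp1 hz) i q w) {a s : ℝ}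
    (hs : 0 < s) (hh : hotq h v tb i a s q w) : hotk h v tb i (a - 1) (2 * s)
      (tauS (MSi tb (v := v) d1 kb d0 k0 p1 z hd1 hd11 hkb hd0 hd01 hk0 hp1 hz) i q w) w := by
  have g1 := (tau_tauS (M := MSi tb (v := v) d1 kb d0 k0 p1 z hd1 hd11 hkb hd0 hd01 hk0 hp1 hz) i q w).trans
    (le_eT (v := v) tb _ w)
  have g2 := eT_le (v := v) tb (tauS_le (M := MSi tb (v := v) d1 kb d0 k0 p1 z hd1 hd11 hkb hd0 hd01 hk0 hp1 hz) i q w) hl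
  exact hq_prv tb hd1 hd11 hkb hd0 hd01 hk0 hp1 hz H R hS hu hN he hq hw hm g1 g2 hs hh

/-- **PUBLIC REMOVAL, start of the life of `i`** -/
theorem hk_pub (H : D.Hyp dg prr al T Lam) (R : Run h N SS (AdmDep D) v) (hS : ∀ l, univ.erase l ∈ SS) (hu : univ ∉ SS)
    (hN : ∀ l, 0 < N (univ.erase l)) (he : 4 * d1 + 16 * d0 ≤ 1 / 8) {q : ℕ} (hq : q / 5 ≤ T) {w : Om W X β}
    (hw : tb.Ps.p w ≠ 0) (hl : ¬ ltL v tb q w) {i : Fin 3}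
    (hm : ¬ MV.Mv (MSi tb (v := v) d1 kb d0 k0 p1 z hd1 hd11 hkb hd0 hd01 hk0 hp1 hz) i
      (nu (MSi tb (v := v) d1 kb d0 k0 p1 z hd1 hd11 hkb hd0 hd01 hk0 hp1 hz) q w) w)
    (hL : ¬ 0 < tb.Ps.ce (TH (MSi tb (v := v) d1 kb d0 k0 p1 z hd1 hd11 hkb hd0 hd01 hk0 hp1 hz) q) (fun u =>
      ind (Lst (MSi tb (v := v) d1 kb d0 k0 p1 z hd1 hd11 hkb hd0 hd01 hk0 hp1 hz)
        (nu (MSi tb (v := v) d1 kb d0 k0 p1 z hd1 hd11 hkb hd0 hd01 hk0 hp1 hz) q w) q u)) w) {a s : ℝ}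
    (hs : 0 < s) (hh : hotq h v tb i a s q w) : hotk h v tb i (a - 1) (2 * s)
      (tauS (MSi tb (v := v) d1 kb d0 k0 p1 z hd1 hd11 hkb hd0 hd01 hk0 hp1 hz) i q w) w := by
  have g1 := (tau_tauS (M := MSi tb (v := v) d1 kb d0 k0 p1 z hd1 hd11 hkb hd0 hd01 hk0 hp1 hz) i q w).trans
    (le_eT (v := v) tb _ w)
  have g2 := eT_le (v := v) tb (tauS_le (M := MSi tb (v := v) d1 kb d0 k0 p1 z hd1 hd11 hkb hd0 hd01 hk0 hp1 hz) i q w) hl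
  exact hq_pub tb hd1 hd11 hkb hd0 hd01 hk0 hp1 hz H R hS hu hN he hq hw hm hL g1 g2 hs hh

/-- **PUBLIC REMOVAL, public start** -/
theorem hk_nu (H : D.Hyp dg prr al T Lam) (R : Run h N SS (AdmDep D) v) (hS : ∀ l, univ.erase l ∈ SS) (hu : univ ∉ SS)
    (hN : ∀ l, 0 < N (univ.erase l)) (he : d0 ≤ 1 / 64) {q : ℕ} (hq : q / 5 ≤ T) {w : Om W X β}
    (hw : tb.Ps.p w ≠ 0) (hl : ¬ ltL v tb q w) (i : Fin 3)
    (hL : ¬ Lst (MSi tb (v := v) d1 kb d0 k0 p1 z hd1 hd11 hkb hd0 hd01 hk0 hp1 hz)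
        (nu (MSi tb (v := v) d1 kb d0 k0 p1 z hd1 hd11 hkb hd0 hd01 hk0 hp1 hz) q w) q w) {a s : ℝ}
    (hs : 0 < s) (hh : hotq h v tb i a s q w) : hotk h v tb i (a - 1) (2 * s)
      (nu (MSi tb (v := v) d1 kb d0 k0 p1 z hd1 hd11 hkb hd0 hd01 hk0 hp1 hz) q w) w := by
  have g1 := le_eT (v := v) tb (nu (MSi tb (v := v) d1 kb d0 k0 p1 z hd1 hd11 hkb hd0 hd01 hk0 hp1 hz) q w) w
  have g2 := eT_le (v := v) tb (nu_le (M := MSi tb (v := v) d1 kb d0 k0 p1 z hd1 hd11 hkb hd0 hd01 hk0 hp1 hz) q w) hl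
  exact hq_nu tb hd1 hd11 hkb hd0 hd01 hk0 hp1 hz H R hS hu hN he hq hw i hL g1 g2 hs hh

/-! ### from the start of the life to the removal -/

/-- **PRIVATE REMOVAL of `i`**, from the start of the life of `i` to the removal -/
theorem hk_prv' (H : D.Hyp dg prr al T Lam) (R : Run h N SS (AdmDep D) v) (hS : ∀ l, univ.erase l ∈ SS) (hu : univ ∉ SS)
    (hN : ∀ l, 0 < N (univ.erase l)) (he : d1 ≤ 1 / 32) {q : ℕ} (hq : q / 5 ≤ T) {w : Om W X β}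
    (hw : tb.Ps.p w ≠ 0) (hl : ¬ ltL v tb q w) {i : Fin 3}
    (hm : ¬ MV.Mv (MSi tb (v := v) d1 kb d0 k0 p1 z hd1 hd11 hkb hd0 hd01 hk0 hp1 hz) i q w) {a s : ℝ}
    (hs : 0 < s) (hh : hotk h v tb i a s
      (tauS (MSi tb (v := v) d1 kb d0 k0 p1 z hd1 hd11 hkb hd0 hd01 hk0 hp1 hz) i q w) w) :
    hotq h v tb i (a - 1) (2 * s) q w := by
  have g1 := (tau_tauS (M := MSi tb (v := v) d1 kb d0 k0 p1 z hd1 hd11 hkb hd0 hd01 hk0 hp1 hz) i q w).trans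
    (le_eT (v := v) tb _ w)
  have g2 := eT_le (v := v) tb (tauS_le (M := MSi tb (v := v) d1 kb d0 k0 p1 z hd1 hd11 hkb hd0 hd01 hk0 hp1 hz) i q w) hl
  exact hq_stb' tb hd1 hd11 hkb hd0 hd01 hk0 hp1 hz H R hS hu hN (show 4 * d1 ≤ 1 / 8 by linarith) hq hw g2
    (stb_of (M := MSi tb (v := v) d1 kb d0 k0 p1 z hd1 hd11 hkb hd0 hd01 hk0 hp1 hz) hw hm g1 g2) hs hh

/-- **PUBLIC REMOVAL**, from the start of the life of `i` to the removal -/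
theorem hk_pub' (H : D.Hyp dg prr al T Lam) (R : Run h N SS (AdmDep D) v) (hS : ∀ l, univ.erase l ∈ SS) (hu : univ ∉ SS)
    (hN : ∀ l, 0 < N (univ.erase l)) (he : 4 * d1 + 16 * d0 ≤ 1 / 8) {q : ℕ} (hq : q / 5 ≤ T) {w : Om W X β}
    (hw : tb.Ps.p w ≠ 0) (hl : ¬ ltL v tb q w) {i : Fin 3}
    (hm : ¬ MV.Mv (MSi tb (v := v) d1 kb d0 k0 p1 z hd1 hd11 hkb hd0 hd01 hk0 hp1 hz) i
      (nu (MSi tb (v := v) d1 kb d0 k0 p1 z hd1 hd11 hkb hd0 hd01 hk0 hp1 hz) q w) w)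
    (hL : ¬ 0 < tb.Ps.ce (TH (MSi tb (v := v) d1 kb d0 k0 p1 z hd1 hd11 hkb hd0 hd01 hk0 hp1 hz) q) (fun u =>
      ind (Lst (MSi tb (v := v) d1 kb d0 k0 p1 z hd1 hd11 hkb hd0 hd01 hk0 hp1 hz)
        (nu (MSi tb (v := v) d1 kb d0 k0 p1 z hd1 hd11 hkb hd0 hd01 hk0 hp1 hz) q w) q u)) w) {a s : ℝ}
    (hs : 0 < s) (hh : hotk h v tb i a s
      (tauS (MSi tb (v := v) d1 kb d0 k0 p1 z hd1 hd11 hkb hd0 hd01 hk0 hp1 hz) i q w) w) :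
    hotq h v tb i (a - 1) (2 * s) q w := by
  have g1 := (tau_tauS (M := MSi tb (v := v) d1 kb d0 k0 p1 z hd1 hd11 hkb hd0 hd01 hk0 hp1 hz) i q w).trans
    (le_eT (v := v) tb _ w)
  have g2 := eT_le (v := v) tb (tauS_le (M := MSi tb (v := v) d1 kb d0 k0 p1 z hd1 hd11 hkb hd0 hd01 hk0 hp1 hz) i q w) hl
  exact hq_stb' tb hd1 hd11 hkb hd0 hd01 hk0 hp1 hz H R hS hu hN he hq hw g2
    (stb_pub (M := MSi tb (v := v) d1 kb d0 k0 p1 z hd1 hd11 hkb hd0 hd01 hk0 hp1 hz) hw hm hL g1 g2).2 hs hh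

/-- **PUBLIC REMOVAL**, from the public start to the removal -/
theorem hk_nu' (H : D.Hyp dg prr al T Lam) (R : Run h N SS (AdmDep D) v) (hS : ∀ l, univ.erase l ∈ SS) (hu : univ ∉ SS)
    (hN : ∀ l, 0 < N (univ.erase l)) (he : d0 ≤ 1 / 64) {q : ℕ} (hq : q / 5 ≤ T) {w : Om W X β}
    (hw : tb.Ps.p w ≠ 0) (hl : ¬ ltL v tb q w) (i : Fin 3)
    (hL : ¬ Lst (MSi tb (v := v) d1 kb d0 k0 p1 z hd1 hd11 hkb hd0 hd01 hk0 hp1 hz)
        (nu (MSi tb (v := v) d1 kb d0 k0 p1 z hd1 hd11 hkb hd0 hd01 hk0 hp1 hz) q w) q w) {a s : ℝ}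
    (hs : 0 < s) (hh : hotk h v tb i a s
      (nu (MSi tb (v := v) d1 kb d0 k0 p1 z hd1 hd11 hkb hd0 hd01 hk0 hp1 hz) q w) w) :
    hotq h v tb i (a - 1) (2 * s) q w := by
  have g1 := le_eT (v := v) tb (nu (MSi tb (v := v) d1 kb d0 k0 p1 z hd1 hd11 hkb hd0 hd01 hk0 hp1 hz) q w) w
  have g2 := eT_le (v := v) tb (nu_le (M := MSi tb (v := v) d1 kb d0 k0 p1 z hd1 hd11 hkb hd0 hd01 hk0 hp1 hz) q w) hl
  exact hq_nu' tb hd1 hd11 hkb hd0 hd01 hk0 hp1 hz H R hS hu hN he hq hw i hL g1 g2 hs hh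

end

end Pool.Agent.GMH.HotT
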