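import Pool.Agent.GMH.StpT2
import Pool.Agent.GMH.StpJ
import Pool.Agent.GMH.KDTw

/-!
# GMH/StpI2 (helper21; row TWO): the fields of `StpOK` for the frame two at the vertex `i`

Removals `rpO tb v i q` (private, vertex `i`) and `ruO tb v q` (public), steps `stps2` of `GMH/StpT2`, clock `tauS` (`CS`).
* `qs_s2`, `rO2_kq` : the released relation is the static kind `kq2` of the state `q`;
* `umP2 i q` : good at the private removal (not moved at `i`, not near a threshold of the two tops), `umU2 i q` : good at the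
  public removal (nothing listed over the thin triple, not near, not moved at `i` at the public start);
* `al2` : alive since the start (any family `al0` of events); `gM2` : the further condition of the good tuples;
* `sts_tauS`, `sts_nu` : the status of `i` at the starts is that of the removal;
* `tr2_prv`, `tr2_pub`, `tr2_nu` : kinds and log density at the removal and for the tables `eT τ` of the starts;
* `Q2ok` : a kind of the frame two: `kd (some i) τ` and `kd none τ` are `sts i τ`, `kq2 c i k (eT τ)`, alive until `eT τ`;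
  `psi = max (pq2 i (eT τ)) (-K)`; `f2_kdv`, `f2_psv`, `f2_kd0`, `f2_ps0`, `f2_lst` : the fields; `stpOK_two` : `StpOK`.
-/

set_option autoImplicit false
set_option linter.unusedSectionVars false

namespace Pool.Agent.GMH.TRF

open Finset Pool.Agent.PWZ Pool.Agent.M3 Pool.Agent.GM Pool.Agent.GM.Harm Pool.Agent.GMH Pool.Agent.GMH.NZ
open Pool.Agent.GMH.V3 Pool.Agent.GMH.TP Pool.Agent.GMH.TD Pool.Agent.GMH.Dy Pool.Agent.GMH.MV Pool.Agent.GMH.MVI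
open Pool.Agent.GMH.UV Pool.Agent.GMH.KF Pool.Agent.GMH.CK Pool.Agent.GMH.KDT Pool.Agent.GMH.KDTw

noncomputable section

theorem qs_s2 {q : ℕ} (hq : q % 5 = 1 ∨ q % 5 = 4) : qs (s2 (b2 q)) (q / 5) = q := by
  have hq5 : 5 * (q / 5) + q % 5 = q := Nat.div_add_mod q 5
  by_cases h1 : q % 5 = 1
  · have e : s2 (b2 q) = 1 := by
      unfold b2 s2
      rw [if_pos h1]
      rfl
    rw [e]
    show 5 * (q / 5) + 1 = q
    omega
  · have h2 := hq.resolve_left h1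
    have e : s2 (b2 q) = 5 := by
      unfold b2 s2
      rw [if_neg h1]
      rfl
    rw [e]
    show 5 * (q / 5) + 4 = q
    omega

variable {X β γ φ : Type} [Fintype X] [Fintype β] [Fintype φ] [Nonempty X] [Nonempty β]
variable {D : HD (Fin 3) X β γ φ} {al : ℝ} {h : D.Thick al} {prr : ℕ → Fin 3 → φ → φ} {T : ℕ} {W : Type} [Fintype W]
variable (tb : Tab D prr T W) {v : ℕ → Finset (Fin 3) → X → (Fin 3 → β) → Pt (Fin 3) X β φ}
variable {N : Finset (Fin 3) → ℝ} {SS : Finset (Finset (Fin 3))} {dg : ℕ → X → ℝ} {Lam : ℝ}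

/-- the released relation is the static kind of the state `q` -/
theorem rO2_kq {c : KC} {B : ℝ} {i : Fin 3} {rk : Finset (Fin 10)} {k : Fin 10} {q : ℕ} {w : Om W X β}
    (hq : rpO tb v i q w ∨ ruO tb v q w) (hr : rO2 h tb v c B i rk k q w) : k ∈ rk ∧ kq2 h v tb c i k q w := by
  have hq' : q % 5 = 1 ∨ q % 5 = 4 := by
    rcases hq with h1 | h1
    · exact Or.inr h1.1
    · exact Or.inl h1.1
  unfold rO2 rel2 at hr
  rw [qs_s2 hq'] at hr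
  exact ⟨hr.1, hr.2.1⟩

/-! ### the status at the starts -/

section sts

variable {Om' : Type} [Fintype Om'] {M : MS Om'}

theorem sts_tauS (i : Fin 3) (q : ℕ) (w : Om') : MV.sts M i (MV.tauS M i q w) w ↔ MV.sts M i q w :=
  MV.sts_const le_rfl (MV.tauS_le i q w)

theorem sts_nu (i : Fin 3) (q : ℕ) (w : Om') : MV.sts M i (MV.nu M q w) w ↔ MV.sts M i q w := by
  have h1 : MV.nu M (MV.nu M q w) w = MV.nu M q w := stg_mid rfl le_rfl (MV.nu_le q w)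
  unfold MV.sts
  rw [h1]

end sts

variable {d1 kb d0 k0 p1 z : ℝ} (hd1 : 0 < d1) (hd11 : d1 ≤ 1) (hkb : 0 < kb) (hd0 : 0 < d0) (hd01 : d0 ≤ 1) (hk0 : 0 < k0)
  (hp1 : 0 < p1) (hz : 0 < z)

/-- good at the private removal of the vertex `i`, two tops: not moved, not near a threshold -/
def umP2 (c : KC) (i : Fin 3) (q : ℕ) (w : Om W X β) : Prop :=
  ¬ MV.Mv (MSi tb (v := v) d1 kb d0 k0 p1 z hd1 hd11 hkb hd0 hd01 hk0 hp1 hz) i q w ∧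
  ¬ nrW (MSi tb (v := v) d1 kb d0 k0 p1 z hd1 hd11 hkb hd0 hd01 hk0 hp1 hz) c i (4000 * d1) q w

/-- good at the public removal, two tops: nothing listed over the thin triple, not near a threshold, `i` not moved at the
public start -/
def umU2 (c : KC) (i : Fin 3) (q : ℕ) (w : Om W X β) : Prop :=
  (¬ 0 < tb.Ps.ce (TH (MSi tb (v := v) d1 kb d0 k0 p1 z hd1 hd11 hkb hd0 hd01 hk0 hp1 hz) q) (fun u =>
      ind (Lst (MSi tb (v := v) d1 kb d0 k0 p1 z hd1 hd11 hkb hd0 hd01 hk0 hp1 hz)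
        (nu (MSi tb (v := v) d1 kb d0 k0 p1 z hd1 hd11 hkb hd0 hd01 hk0 hp1 hz) q w) q u)) w) ∧
  ¬ nrW (MSi tb (v := v) d1 kb d0 k0 p1 z hd1 hd11 hkb hd0 hd01 hk0 hp1 hz) c i (1000 * (4 * d1 + 16 * d0)) q w ∧
  ¬ MV.Mv (MSi tb (v := v) d1 kb d0 k0 p1 z hd1 hd11 hkb hd0 hd01 hk0 hp1 hz) i
    (nu (MSi tb (v := v) d1 kb d0 k0 p1 z hd1 hd11 hkb hd0 hd01 hk0 hp1 hz) q w) w

/-- **the good tuples of the frame two** : alive (any family `al0`, decreasing in time), good at the removal -/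
def gM2 (c : KC) (i : Fin 3) (al0 : ℕ → Om W X β → Prop) (q : ℕ) (w : Om W X β) : Prop :=
  q / 5 ≤ T ∧ al0 q w ∧
  (rpO tb v i q w → umP2 tb (v := v) hd1 hd11 hkb hd0 hd01 hk0 hp1 hz c i q w) ∧
  (ruO tb v q w → umU2 tb (v := v) hd1 hd11 hkb hd0 hd01 hk0 hp1 hz c i q w)

section tr

variable (H : D.Hyp dg prr al T Lam) (R : Run h N SS (AdmDep D) v) (hS : ∀ l, univ.erase l ∈ SS) (hu : univ ∉ SS)
  (hN : ∀ l, 0 < N (univ.erase l))

include H R hS hu hN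

/-- **PRIVATE REMOVAL** against the start of the life -/
theorem tr2_prv {c : KC} (h3 : 0 < c.dH) (h4 : c.dH ≤ 1 / 4) (he : d1 ≤ 1 / 400) {q : ℕ} (hq : q / 5 ≤ T)
    {w : Om W X β} (hw : tb.Ps.p w ≠ 0) {i : Fin 3} (hr : rpO tb v i q w)
    (hm : umP2 tb (v := v) hd1 hd11 hkb hd0 hd01 hk0 hp1 hz c i q w) :
    (∀ κ, kq2 h v tb c i κ q w ↔ kq2 h v tb c i κ
      (eT v tb (MV.tauS (MSi tb (v := v) d1 kb d0 k0 p1 z hd1 hd11 hkb hd0 hd01 hk0 hp1 hz) i q w) w) w) ∧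
    |pq2 h v tb i q w - pq2 h v tb i
      (eT v tb (MV.tauS (MSi tb (v := v) d1 kb d0 k0 p1 z hd1 hd11 hkb hd0 hd01 hk0 hp1 hz) i q w) w) w| ≤ 24 * d1 :=
  kd2_prv tb hd1 hd11 hkb hd0 hd01 hk0 hp1 hz H R hS hu hN h3 h4 he hq hw (nl_rp tb hr) hm.1 hm.2

/-- **PUBLIC REMOVAL** against the start of the life of `i` -/
theorem tr2_pub {c : KC} (h3 : 0 < c.dH) (h4 : c.dH ≤ 1 / 4) (he : 4 * d1 + 16 * d0 ≤ 1 / 100) {q : ℕ}
    (hq : q / 5 ≤ T) {w : Om W X β} (hw : tb.Ps.p w ≠ 0) (hr : ruO tb v q w) {i : Fin 3}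
    (hm : umU2 tb (v := v) hd1 hd11 hkb hd0 hd01 hk0 hp1 hz c i q w) :
    (∀ κ, kq2 h v tb c i κ q w ↔ kq2 h v tb c i κ
      (eT v tb (MV.tauS (MSi tb (v := v) d1 kb d0 k0 p1 z hd1 hd11 hkb hd0 hd01 hk0 hp1 hz) i q w) w) w) ∧
    |pq2 h v tb i q w - pq2 h v tb i
      (eT v tb (MV.tauS (MSi tb (v := v) d1 kb d0 k0 p1 z hd1 hd11 hkb hd0 hd01 hk0 hp1 hz) i q w) w) w| ≤
      24 * d1 + 96 * d0 :=
  kd2_pub tb hd1 hd11 hkb hd0 hd01 hk0 hp1 hz H R hS hu hN h3 h4 he hq hw (nl_ru tb hr) hm.2.2 hm.1 hm.2.1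

/-- **PUBLIC REMOVAL** against the public start -/
theorem tr2_nu {c : KC} (h3 : 0 < c.dH) (h4 : c.dH ≤ 1 / 4) (he : 4 * d1 + 16 * d0 ≤ 1 / 100) {q : ℕ}
    (hq : q / 5 ≤ T) {w : Om W X β} (hw : tb.Ps.p w ≠ 0) (hr : ruO tb v q w) {i : Fin 3}
    (hm : umU2 tb (v := v) hd1 hd11 hkb hd0 hd01 hk0 hp1 hz c i q w) :
    (∀ κ, kq2 h v tb c i κ q w ↔ kq2 h v tb c i κ
      (eT v tb (MV.nu (MSi tb (v := v) d1 kb d0 k0 p1 z hd1 hd11 hkb hd0 hd01 hk0 hp1 hz) q w) w) w) ∧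
    |pq2 h v tb i q w - pq2 h v tb i
      (eT v tb (MV.nu (MSi tb (v := v) d1 kb d0 k0 p1 z hd1 hd11 hkb hd0 hd01 hk0 hp1 hz) q w) w) w| ≤ 24 * d0 :=
  kd2_nu tb hd1 hd11 hkb hd0 hd01 hk0 hp1 hz H R hS hu hN h3 h4 (by linarith) hq hw (nl_ru tb hr) hm.1
    (nrW_mono (by linarith) hm.2.1)

end tr

/-- the lives start before the public epoch -/
theorem lst2 {c : KC} {q : ℕ} {w : Om W X β} (hw : tb.Ps.p w ≠ 0) {i : Fin 3}
    (hm : umU2 tb (v := v) hd1 hd11 hkb hd0 hd01 hk0 hp1 hz c i q w) (j : Fin 3) :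
    MV.tauS (MSi tb (v := v) d1 kb d0 k0 p1 z hd1 hd11 hkb hd0 hd01 hk0 hp1 hz) j q w ≤
      MV.nu (MSi tb (v := v) d1 kb d0 k0 p1 z hd1 hd11 hkb hd0 hd01 hk0 hp1 hz) q w :=
  tauS_lst (unl_self (M := MSi tb (v := v) d1 kb d0 k0 p1 z hd1 hd11 hkb hd0 hd01 hk0 hp1 hz) hw hm.1)

/-- the signed test against the truncated log density -/
theorem gO2_max {K δ : ℝ} (hδ : 0 ≤ δ) {i : Fin 3} {q : ℕ} {w : Om W X β} {y : ℝ} (hy : |pq2 h v tb i q w - y| ≤ δ) :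
    gO2 h tb v i K q w ≤ max y (-K) + δ := by
  have h1 := (abs_le.1 hy).2
  unfold gO2
  refine max_le ?_ ?_
  · have := le_max_left y (-K)
    linarith
  · have := le_max_right y (-K)
    linarith

/-! ### a kind of the frame two -/

/-- relation of a start `τ` : status of `i`, static kind of the tables `eT τ`, alive until `eT τ` -/
def kR2 (h : D.Thick al) (c : KC) (i : Fin 3) (al0 : ℕ → Om W X β → Prop) (k : Fin 10) (τ : ℕ) (w : Om W X β) : Prop :=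
  MV.sts (MSi tb (v := v) d1 kb d0 k0 p1 z hd1 hd11 hkb hd0 hd01 hk0 hp1 hz) i τ w ∧
    kq2 h v tb c i k (eT v tb τ w) w ∧ al0 (eT v tb τ w) w

/-- `Q` is the kind `k` of the frame two at `i` -/
structure Q2ok (h : D.Thick al) (v : ℕ → Finset (Fin 3) → X → (Fin 3 → β) → Pt (Fin 3) X β φ) (c : KC) (i : Fin 3)
    (al0 : ℕ → Om W X β → Prop) (k : Fin 10) (K : ℝ) (Q : Kd (Om W X β)) : Prop where
  Vk : Q.Vk = {i}
  kdv : ∀ τ w, kR2 tb (v := v) hd1 hd11 hkb hd0 hd01 hk0 hp1 hz h c i al0 k τ w → Q.kd (some i) τ w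
  kd0 : ∀ τ w, kR2 tb (v := v) hd1 hd11 hkb hd0 hd01 hk0 hp1 hz h c i al0 k τ w → Q.kd Option.none τ w
  psi : ∀ o τ w, max (pq2 h v tb i (eT v tb τ w) w) (-K) ≤ Q.psi o τ w

section fld

variable (H : D.Hyp dg prr al T Lam) (R : Run h N SS (AdmDep D) v) (hS : ∀ l, univ.erase l ∈ SS) (hu : univ ∉ SS)
  (hN : ∀ l, 0 < N (univ.erase l))
variable {c : KC} (h3 : 0 < c.dH) (h4 : c.dH ≤ 1 / 4) (he : 4 * d1 + 16 * d0 ≤ 1 / 100)
variable {B : ℝ} {i : Fin 3} {rk : Finset (Fin 10)} {A : Bool → ℕ → Pt (Fin 3) X β φ → Prop}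
  {gM : Fin 10 → ℕ → Om W X β → Prop} {al0 : ℕ → Om W X β → Prop} {k : Fin 10}
variable (ha : ∀ q q' w, q' ≤ q → al0 q w → al0 q' w)
  (hg : ∀ q w, tb.Ps.p w ≠ 0 → gM k q w → gM2 tb (v := v) hd1 hd11 hkb hd0 hd01 hk0 hp1 hz c i al0 q w)
  (hst : ∀ q w, q / 5 ≤ T → tb.Ps.p w ≠ 0 → aO2 tb A q w → (rpO tb v i q w ∨ ruO tb v q w) →
    MV.sts (MSi tb (v := v) d1 kb d0 k0 p1 z hd1 hd11 hkb hd0 hd01 hk0 hp1 hz) i q w)

include H R hS hu hN h3 h4 he ha hg hst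

/-- **the start of the life** : relation and log density -/
theorem f2_v {K : ℝ} {q : ℕ} {w : Om W X β} (hw : tb.Ps.p w ≠ 0) (hgd : gdO2 h tb v c B i rk A gM k q w)
    (hr : rpO tb v i q w ∨ ruO tb v q w) :
    kR2 tb (v := v) hd1 hd11 hkb hd0 hd01 hk0 hp1 hz h c i al0 k
      (MV.tauS (MSi tb (v := v) d1 kb d0 k0 p1 z hd1 hd11 hkb hd0 hd01 hk0 hp1 hz) i q w) w ∧
    gO2 h tb v i K q w ≤ max (pq2 h v tb i (eT v tb
      (MV.tauS (MSi tb (v := v) d1 kb d0 k0 p1 z hd1 hd11 hkb hd0 hd01 hk0 hp1 hz) i q w) w) w) (-K) +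
        (24 * d1 + 96 * d0) := by
  obtain ⟨g1, g2, g3⟩ := hgd
  obtain ⟨hq, a0, aP, aU⟩ := hg q w hw g3
  have g4 := (rO2_kq tb hr g2).2
  have g5 := (sts_tauS (M := MSi tb (v := v) d1 kb d0 k0 p1 z hd1 hd11 hkb hd0 hd01 hk0 hp1 hz) i q w).2 (hst q w hq hw g1 hr)
  have nl : ¬ ltL v tb q w := by
    rcases hr with h1 | h1
    · exact nl_rp tb h1
    · exact nl_ru tb h1
  have g6 := eT_le (v := v) tb (MV.tauS_le (M := MSi tb (v := v) d1 kb d0 k0 p1 z hd1 hd11 hkb hd0 hd01 hk0 hp1 hz) i q w) nl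
  have g7 := ha q _ w g6 a0
  rcases hr with h1 | h1
  · obtain ⟨t1, t2⟩ := tr2_prv tb hd1 hd11 hkb hd0 hd01 hk0 hp1 hz H R hS hu hN h3 h4 (by linarith) hq hw h1 (aP h1)
    exact ⟨⟨g5, (t1 k).1 g4, g7⟩, gO2_max tb (by linarith) (t2.trans (by linarith))⟩
  · obtain ⟨t1, t2⟩ := tr2_pub tb hd1 hd11 hkb hd0 hd01 hk0 hp1 hz H R hS hu hN h3 h4 he hq hw h1 (aU h1)
    exact ⟨⟨g5, (t1 k).1 g4, g7⟩, gO2_max tb (by linarith) t2⟩

/-- **the public start** : relation and log density -/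
theorem f2_0 {K : ℝ} {q : ℕ} {w : Om W X β} (hw : tb.Ps.p w ≠ 0) (hgd : gdO2 h tb v c B i rk A gM k q w)
    (hr : ruO tb v q w) :
    kR2 tb (v := v) hd1 hd11 hkb hd0 hd01 hk0 hp1 hz h c i al0 k
      (MV.nu (MSi tb (v := v) d1 kb d0 k0 p1 z hd1 hd11 hkb hd0 hd01 hk0 hp1 hz) q w) w ∧
    gO2 h tb v i K q w ≤ max (pq2 h v tb i (eT v tb
      (MV.nu (MSi tb (v := v) d1 kb d0 k0 p1 z hd1 hd11 hkb hd0 hd01 hk0 hp1 hz) q w) w) w) (-K) + 24 * d0 := by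
  obtain ⟨g1, g2, g3⟩ := hgd
  obtain ⟨hq, a0, aP, aU⟩ := hg q w hw g3
  have g4 := (rO2_kq tb (Or.inr hr) g2).2
  have g5 := (sts_nu (M := MSi tb (v := v) d1 kb d0 k0 p1 z hd1 hd11 hkb hd0 hd01 hk0 hp1 hz) i q w).2
    (hst q w hq hw g1 (Or.inr hr))
  have g6 := eT_le (v := v) tb (MV.nu_le (M := MSi tb (v := v) d1 kb d0 k0 p1 z hd1 hd11 hkb hd0 hd01 hk0 hp1 hz) q w)
    (nl_ru tb hr)
  have g7 := ha q _ w g6 a0
  obtain ⟨t1, t2⟩ := tr2_nu tb hd1 hd11 hkb hd0 hd01 hk0 hp1 hz H R hS hu hN h3 h4 he hq hw hr (aU hr)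
  exact ⟨⟨g5, (t1 k).1 g4, g7⟩, gO2_max tb (by linarith) t2⟩

/-- field `gdv`, relation -/
theorem f2_kdv {K : ℝ} {Q : Kd (Om W X β)} (hQ : Q2ok tb hd1 hd11 hkb hd0 hd01 hk0 hp1 hz h v c i al0 k K Q) {j : Fin 3}
    (hj : j ∈ Q.Vk) {q : ℕ} {w : Om W X β} (hw : tb.Ps.p w ≠ 0) (hgd : gdO2 h tb v c B i rk A gM k q w)
    (hr : rp2 tb v i j q w ∨ ruO tb v q w) :
    Q.kd (some j) (MV.tauS (MSi tb (v := v) d1 kb d0 k0 p1 z hd1 hd11 hkb hd0 hd01 hk0 hp1 hz) j q w) w := by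
  rw [hQ.Vk, Finset.mem_singleton] at hj
  subst hj
  have h1 : rpO tb v j q w ∨ ruO tb v q w := hr.imp_left fun a => a.2
  exact hQ.kdv _ _ (f2_v tb hd1 hd11 hkb hd0 hd01 hk0 hp1 hz H R hS hu hN h3 h4 he ha hg hst (K := K) hw hgd h1).1

/-- field `gdv`, log density -/
theorem f2_psv {K : ℝ} {Q : Kd (Om W X β)} (hQ : Q2ok tb hd1 hd11 hkb hd0 hd01 hk0 hp1 hz h v c i al0 k K Q) {j : Fin 3}
    (hj : j ∈ Q.Vk) {q : ℕ} {w : Om W X β} (hw : tb.Ps.p w ≠ 0) (hgd : gdO2 h tb v c B i rk A gM k q w)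
    (hr : rp2 tb v i j q w ∨ ruO tb v q w) : gO2 h tb v i K q w ≤
      Q.psi (some j) (MV.tauS (MSi tb (v := v) d1 kb d0 k0 p1 z hd1 hd11 hkb hd0 hd01 hk0 hp1 hz) j q w) w +
        (24 * d1 + 96 * d0) := by
  rw [hQ.Vk, Finset.mem_singleton] at hj
  subst hj
  have h1 : rpO tb v j q w ∨ ruO tb v q w := hr.imp_left fun a => a.2
  have h2 := (f2_v tb hd1 hd11 hkb hd0 hd01 hk0 hp1 hz H R hS hu hN h3 h4 he ha hg hst (K := K) hw hgd h1).2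
  have h5 := hQ.psi (some j) (MV.tauS (MSi tb (v := v) d1 kb d0 k0 p1 z hd1 hd11 hkb hd0 hd01 hk0 hp1 hz) j q w) w
  linarith

/-- field `gd0`, relation -/
theorem f2_kd0 {K : ℝ} {Q : Kd (Om W X β)} (hQ : Q2ok tb hd1 hd11 hkb hd0 hd01 hk0 hp1 hz h v c i al0 k K Q)
    {q : ℕ} {w : Om W X β} (hw : tb.Ps.p w ≠ 0) (hgd : gdO2 h tb v c B i rk A gM k q w) (hr : ruO tb v q w) :
    Q.kd Option.none (MV.nu (MSi tb (v := v) d1 kb d0 k0 p1 z hd1 hd11 hkb hd0 hd01 hk0 hp1 hz) q w) w :=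
  hQ.kd0 _ _ (f2_0 tb hd1 hd11 hkb hd0 hd01 hk0 hp1 hz H R hS hu hN h3 h4 he ha hg hst (K := K) hw hgd hr).1

/-- field `gd0`, log density -/
theorem f2_ps0 {K : ℝ} {Q : Kd (Om W X β)} (hQ : Q2ok tb hd1 hd11 hkb hd0 hd01 hk0 hp1 hz h v c i al0 k K Q)
    {q : ℕ} {w : Om W X β} (hw : tb.Ps.p w ≠ 0) (hgd : gdO2 h tb v c B i rk A gM k q w) (hr : ruO tb v q w) :
    gO2 h tb v i K q w ≤
      Q.psi Option.none (MV.nu (MSi tb (v := v) d1 kb d0 k0 p1 z hd1 hd11 hkb hd0 hd01 hk0 hp1 hz) q w) w +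
        (24 * d1 + 96 * d0) := by
  have h2 := (f2_0 tb hd1 hd11 hkb hd0 hd01 hk0 hp1 hz H R hS hu hN h3 h4 he ha hg hst (K := K) hw hgd hr).2
  have h5 := hQ.psi Option.none (MV.nu (MSi tb (v := v) d1 kb d0 k0 p1 z hd1 hd11 hkb hd0 hd01 hk0 hp1 hz) q w) w
  linarith

omit H R hS hu hN h3 h4 he ha hst in
/-- field `lst` -/
theorem f2_lst {q : ℕ} {w : Om W X β} (hw : tb.Ps.p w ≠ 0) (hgd : gdO2 h tb v c B i rk A gM k q w) (hr : ruO tb v q w)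
    (j : Fin 3) : MV.tauS (MSi tb (v := v) d1 kb d0 k0 p1 z hd1 hd11 hkb hd0 hd01 hk0 hp1 hz) j q w ≤
      MV.nu (MSi tb (v := v) d1 kb d0 k0 p1 z hd1 hd11 hkb hd0 hd01 hk0 hp1 hz) q w :=
  lst2 tb hd1 hd11 hkb hd0 hd01 hk0 hp1 hz hw ((hg q w hw hgd.2.2).2.2.2 hr) j

/-- **`StpOK` OF THE FRAME TWO** -/
theorem stpOK_two (hv : Codes D v) {K : ℝ} {Q : Kd (Om W X β)}
    (hQ : Q2ok tb hd1 hd11 hkb hd0 hd01 hk0 hp1 hz h v c i al0 k K Q)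
    (gda : ∀ w, tb.Ps.p w ≠ 0 → ∀ q, gdO2 h tb v c B i rk A gM k q w →
      ((∃ j, rp2 tb v i j q w) ∨ ruO tb v q w) → Q.al q w) :
    StpOK (USi tb hv d1 kb d0 k0 p1 z hd1 hd11 hkb hd0 hd01 hk0 hp1 hz) Q (stps2 h tb v c B i rk A gM K k)
      (24 * d1 + 96 * d0) :=
  stpOK2 h tb hv hd1 hd11 hkb hd0 hd01 hk0 hp1 hz
    (fun _ _ _ _ hr => endp2 tb hv hd1 hd11 hkb hd0 hd01 hk0 hp1 hz hr)
    (fun _ _ j _ hr => endu2 tb hv hd1 hd11 hkb hd0 hd01 hk0 hp1 hz j hr)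
    (fun w hw j hj q hgd hr _ => f2_kdv tb hd1 hd11 hkb hd0 hd01 hk0 hp1 hz H R hS hu hN h3 h4 he ha hg hst hQ hj hw hgd hr)
    (fun w hw j hj q hgd hr _ =>
      f2_psv tb hd1 hd11 hkb hd0 hd01 hk0 hp1 hz H R hS hu hN h3 h4 he ha hg hst hQ hj hw hgd hr)
    (fun w hw q hgd hr _ => f2_kd0 tb hd1 hd11 hkb hd0 hd01 hk0 hp1 hz H R hS hu hN h3 h4 he ha hg hst hQ hw hgd hr)
    (fun w hw q hgd hr _ =>
      f2_ps0 tb hd1 hd11 hkb hd0 hd01 hk0 hp1 hz H R hS hu hN h3 h4 he ha hg hst hQ hw hgd hr)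
    gda
    (fun w hw j _ q hgd hr => f2_lst tb hd1 hd11 hkb hd0 hd01 hk0 hp1 hz hg hw hgd hr j)

end fld

/-! ### the status from the alive sets of the run -/

/-- `hst` of the alive sets `aV` : the status maps of the run -/
theorem hst_aV {Gd : ℕ → Pt (Fin 3) X β φ → Prop} {p : AP} {st sp : ℕ → Pt (Fin 3) X β φ → Option (Fin 3)} (i : Fin 3)
    (h1 : ∀ t ≤ T, ∀ w, tb.Ps.p w ≠ 0 → st t (tb.pt t w) = some i →
      MV.sts (MSi tb (v := v) d1 kb d0 k0 p1 z hd1 hd11 hkb hd0 hd01 hk0 hp1 hz) i (5 * t + 1) w)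
    (h2 : ∀ t ≤ T, ∀ w, tb.Ps.p w ≠ 0 → sp t (tb.pt t w) = some i →
      MV.sts (MSi tb (v := v) d1 kb d0 k0 p1 z hd1 hd11 hkb hd0 hd01 hk0 hp1 hz) i (5 * t + 4) w)
    {q : ℕ} (hq : q / 5 ≤ T) {w : Om W X β} (hw : tb.Ps.p w ≠ 0) (ha : aO2 tb (TP.aV h v p Gd st sp i) q w)
    (hr : rpO tb v i q w ∨ ruO tb v q w) :
    MV.sts (MSi tb (v := v) d1 kb d0 k0 p1 z hd1 hd11 hkb hd0 hd01 hk0 hp1 hz) i q w := by
  have hq5 : 5 * (q / 5) + q % 5 = q := Nat.div_add_mod q 5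
  rcases hr with g | g
  · have e1 : q % 5 = 4 := g.1
    have e2 : b2 q = true := by unfold b2; rw [if_neg (by omega)]
    unfold aO2 at ha
    rw [e2] at ha
    have e4 := h2 (q / 5) hq w hw ha.2
    rwa [show 5 * (q / 5) + 4 = q by omega] at e4
  · have e1 : q % 5 = 1 := g.1
    have e2 : b2 q = false := by unfold b2; rw [if_pos e1]
    unfold aO2 at ha
    rw [e2] at ha
    have e4 := h1 (q / 5) hq w hw ha.2
    rwa [show 5 * (q / 5) + 1 = q by omega] at e4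

end

end Pool.Agent.GMH.TRF
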