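import Pool.Agent.GMH.HotD
import Pool.Agent.GMH.HotT
import Pool.Agent.GMH.HotE
import Pool.Agent.GMH.StpI2
import Pool.Agent.GMH.ActO

/-!
# GMH/HotE2 (helper89): the exits of the kind `HOT_i` : steps, active tops in a life which goes on (parts (R') and (Q) of HotE)

* `lold S A r s` : log probability of the tops `A` of the time `r` given the letters of `S`, the points, public information, all of
  the time `s`; `old_bd`, `old_move` : unmoved in the step `q`: it differs from `lt S A q` by at most `9 d1`;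
* `rtO_old` : at the joint private step the log ratio of the true letter of the top `j` is `lold - lt`; `act_moved` : an ACTIVE top
  is moved at every exact vertex which it sees;
* `quiet_cls` : the life goes on: the class mass of any set of moved points is below `kb`; `quiet_act` : the same for the active
  letters; `quiet_mk` : Markov for a finer sight;
* `gMH`, `stpOK_hot`, `stpOK_KHot` : the steps of `HOT_i` (ends of lives at the joint private step, public removals).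
-/

set_option autoImplicit false
set_option linter.unusedSectionVars false

namespace Pool.Agent.GMH.HotE2

open Finset Pool.Agent.PWZ Pool.Agent.M3 Pool.Agent.GM Pool.Agent.GM.Harm Pool.Agent.GMH Pool.Agent.GMH.NZ
open Pool.Agent.GMH.V3 Pool.Agent.GMH.TP Pool.Agent.GMH.TD Pool.Agent.GMH.Dy Pool.Agent.GMH.MV Pool.Agent.GMH.MVI
open Pool.Agent.GMH.CK Pool.Agent.GMH.KF Pool.Agent.GMH.KDT Pool.Agent.GMH.KDL Pool.Agent.GMH.UV Pool.Agent.GMH.TRF

noncomputable section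

/-! ### any data of the clocks -/

section ms

variable {Om : Type} [Fintype Om] (M : MS Om)

/-- log probability of the tops `A` of the time `r` given the letters of `S`, the points and the public information of `s` -/
def lold (S A : Finset (Fin 3)) (r s : ℕ) (w : Om) : ℝ :=
  Real.log (M.P.m (fun u => (LF M (∅, A) r u, (LF M (S, ∅) s u, M.NP s u))) w / M.P.m (fun u => (LF M (S, ∅) s u, M.NP s u)) w)

variable {M}

/-- **the old tops against the new tables** : the difference is at most the birth of the step -/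
theorem old_bd {v : Fin 3} {S : Finset (Fin 3)} (hv : v ∈ S) (A : Finset (Fin 3)) (q : ℕ) {w : Om} (hw : M.P.p w ≠ 0) :
    lt M S A (q + 1) w ≤ lold M S A q (q + 1) w ∧
      lold M S A q (q + 1) w ≤ lt M S A (q + 1) w + bi M.P (CN M v) (LF M (S, A)) (YF M (S, A)) q w := by
  have m0 := M.P.m_pos (fun u => (LF M (S, ∅) (q + 1) u, M.NP (q + 1) u)) hw
  have m1 := M.P.m_pos (fun u => (LF M (∅, A) q u, (LF M (S, ∅) (q + 1) u, M.NP (q + 1) u))) hw
  have m2 := M.P.m_pos (fun u => (LF M (S, A) (q + 1) u, M.NP (q + 1) u)) hw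
  have m3 := M.P.m_pos (fun u => (LF M (S, A) q u, CN M v (q + 1) u)) hw
  have m4 := M.P.m_pos (fun u => (YF M (S, A) u, CN M v (q + 1) u)) hw
  have e1 : M.P.m (fun u => (LF M (S, A) (q + 1) u, M.NP (q + 1) u)) w ≤
      M.P.m (fun u => (LF M (∅, A) q u, (LF M (S, ∅) (q + 1) u, M.NP (q + 1) u))) w := by
    refine M.P.m_anti ?_ w
    intro a b hab
    have g1 := LF_eq.1 (Prod.mk.inj hab).1
    refine Prod.ext (LF_eq.2 ⟨fun j hj => absurd hj (Finset.notMem_empty j), fun j hj => M.hT j q a b (g1.2.1 j hj), g1.2.2⟩)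
      (Prod.ext (LF_eq.2 ⟨g1.1, fun j hj => absurd hj (Finset.notMem_empty j), g1.2.2⟩) (Prod.mk.inj hab).2)
  have e2 : M.P.m (fun u => (LF M (∅, A) q u, (LF M (S, ∅) (q + 1) u, M.NP (q + 1) u))) w ≤
      M.P.m (fun u => (LF M (S, A) q u, CN M v (q + 1) u)) w := by
    refine M.P.m_anti ?_ w
    intro a b hab
    have g1 := LF_eq.1 (Prod.mk.inj hab).1
    have g2 := Prod.mk.inj (Prod.mk.inj hab).2
    have g3 := LF_eq.1 g2.1
    refine Prod.ext (LF_eq.2 ⟨fun j hj => M.hX j q a b (g3.1 j hj), g1.2.1, g1.2.2⟩) (Prod.ext (g3.1 v hv) g2.2)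
  have e3 : M.P.m (fun u => (LF M (S, A) (q + 1) u, CN M v (q + 1) u)) w =
      M.P.m (fun u => (LF M (S, A) (q + 1) u, M.NP (q + 1) u)) w := m_exa hv A (q + 1) w
  have l1 := Real.log_le_log m2 e1
  have l2 := Real.log_le_log m1 e2
  unfold bi lqn lq lold
  rw [lt_eq hw, e3, Real.log_div m3.ne' m4.ne', Real.log_div m2.ne' m4.ne', Real.log_div m1.ne' m0.ne']
  constructor <;> linarith

/-- an unmoved point stays unmoved before -/
theorem Ex_mono {v : Fin 3} {ν s s' : ℕ} (hs : s ≤ s') {w : Om} (h : Ex M v ν s w) : Ex M v ν s' w := by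
  rcases h with ⟨j, h1, h2, h3⟩ | ⟨j, h1, h2, h3⟩
  · exact Or.inl ⟨j, h1, h2.trans hs, h3⟩
  · exact Or.inr ⟨j, h1, h2.trans hs, h3⟩

/-- **AN UNMOVED POINT : the law of the old tops after the step** -/
theorem old_move {v : Fin 3} {S : Finset (Fin 3)} (hv : v ∈ S) (A : Finset (Fin 3)) {ν q : ℕ} (hν : ν ≤ q) {w : Om}
    (hw : M.P.p w ≠ 0) (h : ¬ Ex M v ν (q + 1) w) : |lold M S A q (q + 1) w - lt M S A q w| ≤ 9 * M.d1 := by
  have h1 := abs_le.1 (lt_move hv A (hν.trans (Nat.le_succ q)) hw h)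
  have h2 := abs_le.1 (lt_move hv A hν hw fun hh => h (Ex_mono (Nat.le_succ q) hh))
  have h3 := old_bd hv A q hw
  have h4 : ¬ Mv1 M.P (CN M v) (LF M (S, A)) (YF M (S, A)) M.d1 ν (q + 1) w :=
    not_Mv1 M.hd1 (hν.trans (Nat.le_succ q)) (fun g => h (Or.inl g)) (S, A)
  have h5 : ∑ j ∈ Ico ν (q + 1), bi M.P (CN M v) (LF M (S, A)) (YF M (S, A)) j w < M.d1 :=
    lt_of_not_ge fun hc => h4 (Or.inr hc)
  have h6 : bi M.P (CN M v) (LF M (S, A)) (YF M (S, A)) q w ≤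
      ∑ j ∈ Ico ν (q + 1), bi M.P (CN M v) (LF M (S, A)) (YF M (S, A)) j w :=
    Finset.single_le_sum (f := fun j => bi M.P (CN M v) (LF M (S, A)) (YF M (S, A)) j w)
      (fun j _ => bi_nn v (S, A) j hw) (Finset.mem_Ico.2 ⟨hν, Nat.lt_succ_self q⟩)
  have h7 := M.hd1
  rw [abs_le]
  constructor <;> linarith [h1.1, h1.2, h2.1, h2.2, h3.1, h3.2]

/-- **THE LIFE GOES ON : THE MOVED POINTS HAVE CLASS MASS BELOW `kb`** -/
theorem quiet_cls {v : Fin 3} {q : ℕ} {w : Om} (hg : MV.tau M v (q + 1) w ≠ q + 1) {A : Om → Prop}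
    (hA : ∀ u, M.P.p u ≠ 0 → CN M v (q + 1) u = CN M v (q + 1) w → A u → Ex M v (MV.tau M v q u) (q + 1) u) :
    M.P.ce (CN M v (q + 1)) (fun u => ind (A u)) w < M.kb := by
  have h1 : ¬ Cx M v (MV.tau M v q w) (q + 1) w := fun hc => hg (stg_pos hc)
  have h2 : ¬ M.kb ≤ M.P.ce (CN M v (q + 1)) (fun u => ind (Ex M v (MV.tau M v q w) (q + 1) u)) w := fun hc =>
    h1 (Or.inr (Or.inr hc))
  refine lt_of_le_of_lt ?_ (not_le.1 h2)
  unfold FP.ce
  refine div_le_div_of_nonneg_right (M.P.E_mono fun u hu => ?_) (M.P.m_nonneg _ _)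
  by_cases hc : CN M v (q + 1) u = CN M v (q + 1) w
  · rw [ind_of hc, one_mul, one_mul]
    refine ind_mono fun ha => ?_
    have h3 := hA u hu hc ha
    have h4 : MV.tau M v q u = MV.tau M v q w := MV.tau_fac M v q u w (CN_step M v q u w hc)
    rw [h4] at h3
    exact h3
  · rw [ind_not hc, zero_mul, zero_mul]

theorem tau_of_tauS {v : Fin 3} {q : ℕ} {w : Om} (h : MV.tauS M v (q + 1) w ≠ q + 1) : MV.tau M v (q + 1) w ≠ q + 1 :=
  fun hc => h (stg_pos (Or.inl hc))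

/-- Markov for a finer sight -/
theorem quiet_mk {κ κ' : Type*} {P : FP Om} {N : Om → κ} {Z : Om → κ'} (hZ : Fac Z N) {A : Om → Prop} {g : ℝ}
    (hg : 0 < g) {w : Om} (h : P.ce N (fun u => ind (A u)) w ≤ g) :
    P.ce N (fun u => ind (Real.sqrt g < P.ce Z (fun v => ind (A v)) u)) w ≤ Real.sqrt g := by
  have h0 : 0 < Real.sqrt g := Real.sqrt_pos.2 hg
  have h1 : Real.sqrt g * P.ce N (fun u => ind (Real.sqrt g < P.ce Z (fun v => ind (A v)) u)) w ≤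
      P.ce N (P.ce Z (fun v => ind (A v))) w := by
    rw [← P.ce_smul]
    refine P.ce_mono (fun u _ => ?_) w
    by_cases hu : Real.sqrt g < P.ce Z (fun v => ind (A v)) u
    · rw [ind_of hu, mul_one]
      exact hu.le
    · rw [ind_not hu, mul_zero]
      exact P.ce_nonneg (fun _ _ => ind_nonneg _) u
  have h3 : P.ce N (P.ce Z (fun v => ind (A v))) w = P.ce N (fun u => ind (A u)) w := P.ce_tower hZ _ w
  rw [h3] at h1
  have h2 : Real.sqrt g * Real.sqrt g = g := Real.mul_self_sqrt hg.le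
  nlinarith

end ms

/-! ### the run -/

section run

variable {X β γ φ : Type} [Fintype X] [Fintype β] [Fintype φ] [Nonempty X] [Nonempty β]
variable {D : HD (Fin 3) X β γ φ} {al : ℝ} {h : D.Thick al} {N : Finset (Fin 3) → ℝ} {SS : Finset (Finset (Fin 3))}
  {v : ℕ → Finset (Fin 3) → X → (Fin 3 → β) → Pt (Fin 3) X β φ}
variable {dg : ℕ → X → ℝ} {prr : ℕ → Fin 3 → φ → φ} {T : ℕ} {Lam : ℝ} {W : Type} [Fintype W] (tb : Tab D prr T W)
variable {d1 kb d0 k0 p1 z : ℝ} (hd1 : 0 < d1) (hd11 : d1 ≤ 1) (hkb : 0 < kb) (hd0 : 0 < d0) (hd01 : d0 ≤ 1) (hk0 : 0 < k0)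
  (hp1 : 0 < p1) (hz : 0 < z)

/-- the mass of the old top `i` and of what it sees at a later state, with all points -/
theorem m_one' (H : D.Hyp dg prr al T Lam) (R : Run h N SS (AdmDep D) v) (hS : ∀ l, univ.erase l ∈ SS) (hu : univ ∉ SS)
    (hN : ∀ l, 0 < N (univ.erase l)) {q q' : ℕ} (hq : q / 5 ≤ T) (hqq : q ≤ q') (i : Fin 3) {w : Om W X β}
    (hw : tb.Ps.p w ≠ 0) :
    (D.P h (q / 5)).m (fun u => (FQ v (q / 5) i u, (lo (SL v q') (univ.erase i) u, WW D (TP.nn q') u))) (tb.pt (q / 5) w) =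
      tb.Ps.m (fun u => (LF (MSi tb (v := v) d1 kb d0 k0 p1 z hd1 hd11 hkb hd0 hd01 hk0 hp1 hz) (∅, {i}) q u,
        (LF (MSi tb (v := v) d1 kb d0 k0 p1 z hd1 hd11 hkb hd0 hd01 hk0 hp1 hz) (univ.erase i, ∅) q' u, NPo tb v q' u))) w := by
  have hp := pul_pt h tb hq
  rw [← hp.m (fun u => (FQ v (q / 5) i u, (lo (SL v q') (univ.erase i) u, WW D (TP.nn q') u))) w]
  unfold FP.m
  refine tb.Ps.E_congr fun u hu' => ?_
  refine congrArg ind (propext ?_)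
  have hq5 : 5 * (q / 5) ≤ q' := (Nat.mul_div_le q 5).trans hqq
  have hTF : TFo tb i q u = TFo tb i q w ↔ (tb.pt (q / 5) u).2.2 i = (tb.pt (q / 5) w).2.2 i := by
    constructor
    · intro hh
      have h1 := congrFun hh (q / 5)
      unfold TFo at h1
      rw [if_pos ⟨le_rfl, hq⟩, if_pos ⟨le_rfl, hq⟩] at h1
      exact Option.some.inj h1
    · intro hh
      funext t'
      unfold TFo
      by_cases h3 : t' ≤ q / 5 ∧ t' ≤ T
      · rw [if_pos h3, if_pos h3, lab_hist tb h3.1 hq i hu' hw hh]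
      · rw [if_neg h3, if_neg h3]
  have key : (lo (SL v q') (univ.erase i) (tb.pt (q / 5) u), WW D (TP.nn q') (tb.pt (q / 5) u)) =
      (lo (SL v q') (univ.erase i) (tb.pt (q / 5) w), WW D (TP.nn q') (tb.pt (q / 5) w)) →
      (FQ v (q / 5) i (tb.pt (q / 5) u) = FQ v (q / 5) i (tb.pt (q / 5) w) ↔ TFo tb i q u = TFo tb i q w) := by
    intro hz'
    rw [hTF]
    refine top_name H R hS hu hN hq hq5 (hp.ne hu') (hp.ne hw) ?_
    exact Prod.ext (Prod.mk.inj hz').1 (WW_BB D (TP.nn q') _ _ _ (Prod.mk.inj hz').2)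
  constructor
  · intro hab
    have g1 := (Prod.mk.inj hab).1
    have g2 := (Prod.mk.inj hab).2
    have g3 := RW_eq.1 g2
    refine Prod.ext (LF_eq.2 ⟨fun j hj => absurd hj (Finset.notMem_empty j), fun j hj => ?_, YF_eq.2 g3.2.1⟩)
      (Prod.ext (LF_eq.2 ⟨g3.1, fun j hj => absurd hj (Finset.notMem_empty j), YF_eq.2 g3.2.1⟩) g3.2.2)
    rw [Finset.mem_singleton.1 hj]
    exact (key g2).1 g1
  · intro hab
    have g1 := LF_eq.1 (Prod.mk.inj hab).1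
    have g0 := (Prod.mk.inj hab).2
    have g4 := LF_eq.1 (Prod.mk.inj g0).1
    have g2 : (lo (SL v q') (univ.erase i) (tb.pt (q / 5) u), WW D (TP.nn q') (tb.pt (q / 5) u)) =
        (lo (SL v q') (univ.erase i) (tb.pt (q / 5) w), WW D (TP.nn q') (tb.pt (q / 5) w)) :=
      RW_eq.2 ⟨g4.1, YF_eq.1 g4.2.2, (Prod.mk.inj g0).2⟩
    exact Prod.ext ((key g2).2 (g1.2.1 i (Finset.mem_singleton_self i))) g2

/-- the mass of what the top `i` sees at a later state, with all points -/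
theorem m_zero' {t q' : ℕ} (ht : t ≤ T) (i : Fin 3) {w : Om W X β} :
    (D.P h t).m (fun u => (lo (SL v q') (univ.erase i) u, WW D (TP.nn q') u)) (tb.pt t w) =
      tb.Ps.m (fun u => (LF (MSi tb (v := v) d1 kb d0 k0 p1 z hd1 hd11 hkb hd0 hd01 hk0 hp1 hz) (univ.erase i, ∅) q' u,
        NPo tb v q' u)) w := by
  have hp := pul_pt h tb ht
  rw [← hp.m (fun u => (lo (SL v q') (univ.erase i) u, WW D (TP.nn q') u)) w]
  unfold FP.m
  refine tb.Ps.E_congr fun u hu' => ?_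
  refine congrArg ind (propext ?_)
  constructor
  · intro hab
    have g3 := RW_eq.1 hab
    exact Prod.ext (LF_eq.2 ⟨g3.1, fun j hj => absurd hj (Finset.notMem_empty j), YF_eq.2 g3.2.1⟩) g3.2.2
  · intro hab
    have g1 := LF_eq.1 (Prod.mk.inj hab).1
    exact RW_eq.2 ⟨g1.1, YF_eq.1 g1.2.2, (Prod.mk.inj hab).2⟩

/-- **the own law of the old top at a later state** -/
theorem pv_old (H : D.Hyp dg prr al T Lam) (R : Run h N SS (AdmDep D) v) (hS : ∀ l, univ.erase l ∈ SS) (hu : univ ∉ SS)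
    (hN : ∀ l, 0 < N (univ.erase l)) {q q' : ℕ} (hq : q / 5 ≤ T) (hqq : q ≤ q') (i : Fin 3) {w : Om W X β}
    (hw : tb.Ps.p w ≠ 0) :
    Real.log ((D.P h (q / 5)).pv (ZbQ D v q' i) (FQ v (q / 5) i) (tb.pt (q / 5) w) (FQ v (q / 5) i (tb.pt (q / 5) w))) =
      lold (MSi tb (v := v) d1 kb d0 k0 p1 z hd1 hd11 hkb hd0 hd01 hk0 hp1 hz) (univ.erase i) {i} q q' w := by
  have hpw := (pul_pt h tb hq).ne hw
  have hnn : q / 5 ≤ TP.nn q' := (TP.nn_le q).trans (TP.nn_mono hqq)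
  have h0 := pv_base h hnn (J := univ.erase i) (X' := FQ v (q / 5) i) (R := lo (SL v q') (univ.erase i))
    (LL_AA R.codes (by omega) (Finset.Subset.refl _))
    (fun a b hab => lo_eq.2 fun I hI => LL_AA R.codes (TP.nc_le q' I) hI.subset a b hab) hpw
    (FQ v (q / 5) i (tb.pt (q / 5) w))
  have h1 := m_one' tb hd1 hd11 hkb hd0 hd01 hk0 hp1 hz H R hS hu hN hq hqq i hw
  have h2 := m_zero' (h := h) tb hd1 hd11 hkb hd0 hd01 hk0 hp1 hz (v := v) (q' := q') hq i (w := w)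
  have h3 : (D.P h (q / 5)).pv (ZbQ D v q' i) (FQ v (q / 5) i) (tb.pt (q / 5) w) (FQ v (q / 5) i (tb.pt (q / 5) w)) =
      (D.P h (q / 5)).pv (fun w => (lo (SL v q') (univ.erase i) w, WW D (TP.nn q') w)) (FQ v (q / 5) i)
        (tb.pt (q / 5) w) (FQ v (q / 5) i (tb.pt (q / 5) w)) := h0.symm
  rw [h3, FP.pv_self, h1, h2]
  rfl

/-- **THE RATIO OF THE TRUE LETTER IN THE JOINT PRIVATE STEP** -/
theorem rtO_old (H : D.Hyp dg prr al T Lam) (R : Run h N SS (AdmDep D) v) (hS : ∀ l, univ.erase l ∈ SS) (hu : univ ∉ SS)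
    (hN : ∀ l, 0 < N (univ.erase l)) {q : ℕ} (hq : q / 5 ≤ T) (h4 : q % 5 = 4) (j : Fin 3) {w : Om W X β}
    (hw : tb.Ps.p w ≠ 0) : Real.log (rtO h tb v j q w) =
      lold (MSi tb (v := v) d1 kb d0 k0 p1 z hd1 hd11 hkb hd0 hd01 hk0 hp1 hz) (univ.erase j) {j} q (q + 1) w -
        lt (MSi tb (v := v) d1 kb d0 k0 p1 z hd1 hd11 hkb hd0 hd01 hk0 hp1 hz) (univ.erase j) {j} q w := by
  have hpw := (pul_pt h tb hq).ne hw
  have e1 : qe (sO q) (q / 5) = q + 1 := by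
    rw [sO_v4 h4]
    show 5 * (q / 5) + 5 = q + 1
    omega
  have e2 : qs (sO q) (q / 5) = q := by
    rw [sO_v4 h4]
    show 5 * (q / 5) + 4 = q
    omega
  have h1 := pv_old tb hd1 hd11 hkb hd0 hd01 hk0 hp1 hz H R hS hu hN hq (Nat.le_succ q) j hw
  have h2 := tab_Zb tb hd1 hd11 hkb hd0 hd01 hk0 hp1 hz H R hS hu hN hq j hw
  have p1' : 0 < (D.P h (q / 5)).pv (ZbQ D v (q + 1) j) (FQ v (q / 5) j) (tb.pt (q / 5) w)
      (FQ v (q / 5) j (tb.pt (q / 5) w)) := (D.P h (q / 5)).pv_self_pos _ _ hpw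
  have p2' : 0 < (D.P h (q / 5)).pv (ZbQ D v q j) (FQ v (q / 5) j) (tb.pt (q / 5) w)
      (FQ v (q / 5) j (tb.pt (q / 5) w)) := (D.P h (q / 5)).pv_self_pos _ _ hpw
  have e3 : (D.P h (q / 5)).pv (ZbQ D v q j) (FQ v (q / 5) j) (tb.pt (q / 5) w) (FQ v (q / 5) j (tb.pt (q / 5) w)) =
      (D.P h (q / 5)).m (fun u => (FQ v (q / 5) j u, ZbQ D v q j u)) (tb.pt (q / 5) w) /
        (D.P h (q / 5)).m (ZbQ D v q j) (tb.pt (q / 5) w) := FP.pv_self _ _ _ _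
  unfold rtO
  rw [rS_eq h (sO q) (q / 5) j hpw, e1, e2, Real.log_div p1'.ne' p2'.ne', h1, e3, h2]

theorem rtO_pos {q : ℕ} (hq : q / 5 ≤ T) (j : Fin 3) {w : Om W X β} (hw : tb.Ps.p w ≠ 0) :
    0 < rtO h tb v j q w := by
  have hpw := (pul_pt h tb hq).ne hw
  unfold rtO
  rw [rS_eq h (sO q) (q / 5) j hpw]
  exact div_pos ((D.P h (q / 5)).pv_self_pos _ _ hpw) ((D.P h (q / 5)).pv_self_pos _ _ hpw)

/-- **AN ACTIVE TOP IS MOVED** at every exact vertex which it sees, whatever the start -/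
theorem act_moved (H : D.Hyp dg prr al T Lam) (R : Run h N SS (AdmDep D) v) (hS : ∀ l, univ.erase l ∈ SS) (hu : univ ∉ SS)
    (hN : ∀ l, 0 < N (univ.erase l)) {e : ℝ} (he : 18 * d1 ≤ e) (h9 : d1 ≤ 1 / 9) {q : ℕ} (hq : q / 5 ≤ T)
    (h4 : q % 5 = 4) {i j : Fin 3} (hj : j ≠ i) {ν : ℕ} (hν : ν ≤ q) {w : Om W X β} (hw : tb.Ps.p w ≠ 0)
    (ha : acO h tb v e j q w) :
    Ex (MSi tb (v := v) d1 kb d0 k0 p1 z hd1 hd11 hkb hd0 hd01 hk0 hp1 hz) i ν (q + 1) w := by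
  by_contra hn
  have h1 := rtO_old tb hd1 hd11 hkb hd0 hd01 hk0 hp1 hz H R hS hu hN hq h4 j hw
  have h2 := rtO_pos (h := h) (v := v) tb hq j hw
  have h3 : |Real.log (rtO h tb v j q w)| ≤ 9 * d1 := by
    rw [h1]
    exact old_move (M := MSi tb (v := v) d1 kb d0 k0 p1 z hd1 hd11 hkb hd0 hd01 hk0 hp1 hz)
      (Finset.mem_erase.2 ⟨hj.symm, mem_univ i⟩) {j} hν hw hn
  have h5 := abs_le.1 h3
  have h6 : rtO h tb v j q w ≤ Real.exp (9 * d1) := by
    calc rtO h tb v j q w = Real.exp (Real.log (rtO h tb v j q w)) := (Real.exp_log h2).symm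
      _ ≤ _ := Real.exp_le_exp.2 h5.2
  have h7 : Real.exp (-(9 * d1)) ≤ rtO h tb v j q w := by
    calc Real.exp (-(9 * d1)) ≤ Real.exp (Real.log (rtO h tb v j q w)) := Real.exp_le_exp.2 h5.1
      _ = _ := Real.exp_log h2
  have h8 : Real.exp (9 * d1) ≤ 1 + 2 * (9 * d1) := by
    have := Real.abs_exp_sub_one_le (x := 9 * d1) (by rw [abs_of_nonneg (by linarith)]; linarith)
    rw [abs_of_nonneg (show 0 ≤ 9 * d1 by linarith)] at this
    linarith [(abs_le.1 this).2]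
  have h10 := Real.add_one_le_exp (-(9 * d1))
  have h11 := ha.2
  rcases lt_abs.1 h11 with g | g <;> linarith

/-- **THE LIFE GOES ON : THE CLASS MASS OF THE ACTIVE LETTERS** -/
theorem quiet_act (H : D.Hyp dg prr al T Lam) (R : Run h N SS (AdmDep D) v) (hS : ∀ l, univ.erase l ∈ SS) (hu : univ ∉ SS)
    (hN : ∀ l, 0 < N (univ.erase l)) {e : ℝ} (he : 18 * d1 ≤ e) (h9 : d1 ≤ 1 / 9) {q : ℕ} (hq : q / 5 ≤ T)
    (h4 : q % 5 = 4) {i j : Fin 3} (hj : j ≠ i) {w : Om W X β}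
    (hg : tauS (MSi tb (v := v) d1 kb d0 k0 p1 z hd1 hd11 hkb hd0 hd01 hk0 hp1 hz) i (q + 1) w ≠ q + 1) :
    tb.Ps.ce (CN (MSi tb (v := v) d1 kb d0 k0 p1 z hd1 hd11 hkb hd0 hd01 hk0 hp1 hz) i (q + 1))
      (fun u => ind (acO h tb v e j q u)) w < kb :=
  quiet_cls (M := MSi tb (v := v) d1 kb d0 k0 p1 z hd1 hd11 hkb hd0 hd01 hk0 hp1 hz) (tau_of_tauS hg)
    fun _ hu' _ ha => act_moved tb hd1 hd11 hkb hd0 hd01 hk0 hp1 hz H R hS hu hN he h9 hq h4 hj (stg_le _ _) hu' ha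

/-! ### the steps of the kind `HOT_i` -/

/-- good at an end of a life of `i` in the joint private step: not moved; at a public removal: nothing of the thin triple is
listed, `i` not moved at the public start -/
def gMH (i : Fin 3) (q : ℕ) (w : Om W X β) : Prop :=
  q / 5 ≤ T ∧ (q % 5 = 4 → ¬ MV.Mv (MSi tb (v := v) d1 kb d0 k0 p1 z hd1 hd11 hkb hd0 hd01 hk0 hp1 hz) i q w) ∧
  (ruO tb v q w → ¬ 0 < tb.Ps.ce (TH (MSi tb (v := v) d1 kb d0 k0 p1 z hd1 hd11 hkb hd0 hd01 hk0 hp1 hz) q) (fun u =>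
      ind (Lst (MSi tb (v := v) d1 kb d0 k0 p1 z hd1 hd11 hkb hd0 hd01 hk0 hp1 hz)
        (nu (MSi tb (v := v) d1 kb d0 k0 p1 z hd1 hd11 hkb hd0 hd01 hk0 hp1 hz) q w) q u)) w ∧
    ¬ MV.Mv (MSi tb (v := v) d1 kb d0 k0 p1 z hd1 hd11 hkb hd0 hd01 hk0 hp1 hz) i
      (nu (MSi tb (v := v) d1 kb d0 k0 p1 z hd1 hd11 hkb hd0 hd01 hk0 hp1 hz) q w) w)

/-- relation of a start of the kind `HOT_i` : hot in the tables `eT τ`, alive until then -/
def kRH (h : D.Thick al) (v : ℕ → Finset (Fin 3) → X → (Fin 3 → β) → Pt (Fin 3) X β φ) (i : Fin 3) (a s : ℝ)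
    (al0 : ℕ → Om W X β → Prop) (τ : ℕ) (w : Om W X β) : Prop := hotk h v tb i a s τ w ∧ al0 (eT v tb τ w) w

variable (hv : Codes D v)

section ok

variable (H : D.Hyp dg prr al T Lam) (R : Run h N SS (AdmDep D) v) (hS : ∀ l, univ.erase l ∈ SS) (hu : univ ∉ SS)
  (hN : ∀ l, 0 < N (univ.erase l)) (he : 4 * d1 + 16 * d0 ≤ 1 / 8) {i : Fin 3} {a s : ℝ} (hs : 0 < s)
  {Al gM al0 : ℕ → Om W X β → Prop} (ha : ∀ q q' w, q' ≤ q → al0 q w → al0 q' w)
  (hAl : ∀ q w, tb.Ps.p w ≠ 0 → Al q w → al0 q w) (hL : ∀ q w, q % 5 = 4 → Al q w → ¬ ltL v tb q w)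
  (hg : ∀ q w, gM q w → gMH tb (v := v) hd1 hd11 hkb hd0 hd01 hk0 hp1 hz i q w)

include H R hS hu hN he hs ha hAl hL hg

/-- **the start of the life of `i`** -/
theorem hot_v {q : ℕ} {w : Om W X β} (hw : tb.Ps.p w ≠ 0) (h1 : Al q w) (h2 : hotq h v tb i a s q w) (h3 : gM q w)
    (hr : q % 5 = 4 ∨ ruO tb v q w) : kRH tb h v i (a - 1) (2 * s) al0
      (tauS (MSi tb (v := v) d1 kb d0 k0 p1 z hd1 hd11 hkb hd0 hd01 hk0 hp1 hz) i q w) w := by
  obtain ⟨hq, aP, aU⟩ := hg q w h3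
  have nl : ¬ ltL v tb q w := hr.elim (fun g => hL q w g h1) (nl_ru tb)
  refine ⟨?_, ha q _ w (eT_le (v := v) tb (tauS_le _ q w) nl) (hAl q w hw h1)⟩
  rcases hr with g | g
  · exact HotT.hk_prv tb hd1 hd11 hkb hd0 hd01 hk0 hp1 hz H R hS hu hN (by linarith) hq hw nl (aP g) hs h2
  · exact HotT.hk_pub tb hd1 hd11 hkb hd0 hd01 hk0 hp1 hz H R hS hu hN he hq hw nl (aU g).2 (aU g).1 hs h2

/-- **the public start** -/
theorem hot_0 {q : ℕ} {w : Om W X β} (hw : tb.Ps.p w ≠ 0) (h1 : Al q w) (h2 : hotq h v tb i a s q w) (h3 : gM q w)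
    (hr : ruO tb v q w) : kRH tb h v i (a - 1) (2 * s) al0
      (nu (MSi tb (v := v) d1 kb d0 k0 p1 z hd1 hd11 hkb hd0 hd01 hk0 hp1 hz) q w) w := by
  obtain ⟨hq, _, aU⟩ := hg q w h3
  have nl := nl_ru tb hr
  refine ⟨?_, ha q _ w (eT_le (v := v) tb (nu_le q w) nl) (hAl q w hw h1)⟩
  exact HotT.hk_nu tb hd1 hd11 hkb hd0 hd01 hk0 hp1 hz H R hS hu hN (by linarith) hq hw nl i
    (unl_self (M := MSi tb (v := v) d1 kb d0 k0 p1 z hd1 hd11 hkb hd0 hd01 hk0 hp1 hz) hw (aU hr).1) hs h2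

omit H R hS hu hN he hs ha hAl hL in
/-- the lives start before the public epoch -/
theorem hot_l {q : ℕ} {w : Om W X β} (hw : tb.Ps.p w ≠ 0) (h3 : gM q w) (hr : ruO tb v q w) (j : Fin 3) :
    tauS (MSi tb (v := v) d1 kb d0 k0 p1 z hd1 hd11 hkb hd0 hd01 hk0 hp1 hz) j q w ≤
      nu (MSi tb (v := v) d1 kb d0 k0 p1 z hd1 hd11 hkb hd0 hd01 hk0 hp1 hz) q w :=
  tauS_lst (unl_self (M := MSi tb (v := v) d1 kb d0 k0 p1 z hd1 hd11 hkb hd0 hd01 hk0 hp1 hz) hw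
    ((hg q w h3).2.2 hr).1)

/-- **`StpOK` OF THE KIND `HOT_i`** -/
theorem stpOK_hot {Q : Kd (Om W X β)} (hV : Q.Vk = {i})
    (hk : ∀ τ w, kRH tb h v i (a - 1) (2 * s) al0 τ w → Q.kd (some i) τ w ∧ Q.kd Option.none τ w)
    (hqa : ∀ τ w, al0 τ w → Q.al τ w)
    (hp : ∀ o τ w, 1 ≤ Q.psi o τ w) {g : ℕ → Om W X β → ℝ} (hg1 : ∀ q w, g q w ≤ 1) :
    StpOK (USi tb hv d1 kb d0 k0 p1 z hd1 hd11 hkb hd0 hd01 hk0 hp1 hz) Q
      (stpsH tb v i Al (hotq h v tb i a s) gM (USi tb hv d1 kb d0 k0 p1 z hd1 hd11 hkb hd0 hd01 hk0 hp1 hz) g) 0 where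
  endp := by
    rintro w _ j q ⟨rfl, _, h1⟩
    exact h1
  endu := fun w _ j q hr => endu2 tb hv hd1 hd11 hkb hd0 hd01 hk0 hp1 hz j hr
  end0 := fun w _ q hr => nu_lt2 _ (lt_ru2 tb hv hd1 hd11 hkb hd0 hd01 hk0 hp1 hz hr)
  disj := by
    rintro w _ j q ⟨_, h1, _⟩ hr
    have := hr.1
    omega
  gdv := by
    intro w hw j hj q hgd hr _
    rw [hV, Finset.mem_singleton] at hj
    subst hj
    exact (hk _ w (hot_v tb hd1 hd11 hkb hd0 hd01 hk0 hp1 hz H R hS hu hN he hs ha hAl hL hg hw hgd.1 hgd.2.1 hgd.2.2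
      (hr.imp_left fun g => g.2.1))).1
  gdp := by
    intro w hw j hj q hgd hr _
    rw [add_zero]
    exact (hg1 q w).trans (hp _ _ _)
  gd0 := fun w hw q hgd hr _ => (hk _ w (hot_0 tb hd1 hd11 hkb hd0 hd01 hk0 hp1 hz H R hS hu hN he hs ha hAl hL hg hw
    hgd.1 hgd.2.1 hgd.2.2 hr)).2
  gdp0 := by
    intro w hw q hgd hr _
    rw [add_zero]
    exact (hg1 q w).trans (hp _ _ _)
  gda := fun w hw q hgd _ => hqa _ w (hAl q w hw hgd.1)
  exz := fun _ _ _ _ _ _ _ _ _ _ _ h => h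
  lst := fun w hw j _ q hgd hr => hot_l tb hd1 hd11 hkb hd0 hd01 hk0 hp1 hz hg hw hgd.2.2 hr j

end ok

/-- **`StpOK` FOR THE KIND `KHot`** -/
theorem stpOK_KHot (H : D.Hyp dg prr al T Lam) (R : Run h N SS (AdmDep D) v) (hS : ∀ l, univ.erase l ∈ SS) (hu : univ ∉ SS)
    (hN : ∀ l, 0 < N (univ.erase l)) (he : 4 * d1 + 16 * d0 ≤ 1 / 8) {i : Fin 3} {a s uB u0 : ℝ} (hs : 0 < s) (p : AP)
    {Al gM : ℕ → Om W X β → Prop} (hAl : ∀ q w, tb.Ps.p w ≠ 0 → Al q w → Alv h v tb p q w)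
    (hL : ∀ q w, q % 5 = 4 → Al q w → ¬ ltL v tb q w)
    (hg : ∀ q w, gM q w → gMH tb (v := v) hd1 hd11 hkb hd0 hd01 hk0 hp1 hz i q w) :
    StpOK (USi tb hv d1 kb d0 k0 p1 z hd1 hd11 hkb hd0 hd01 hk0 hp1 hz) (KHot h v tb p i (a - 1) (2 * s) uB u0)
      (stpsH tb v i Al (hotq h v tb i a s) gM (USi tb hv d1 kb d0 k0 p1 z hd1 hd11 hkb hd0 hd01 hk0 hp1 hz)
        (fun _ _ => 1)) 0 :=
  stpOK_hot tb hd1 hd11 hkb hd0 hd01 hk0 hp1 hz hv H R hS hu hN he hs (al0 := Alv h v tb p)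
    (fun _ _ _ hq hh => Alv_anti h v tb hq hh) hAl hL hg rfl (fun _ _ hh => ⟨hotO_some.2 hh, hotO_none.2 hh⟩)
    (fun _ _ hh => hh)
    (fun _ _ _ => le_rfl) fun _ _ => le_rfl

end run

end

end Pool.Agent.GMH.HotE2
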