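import Pool.Agent.GMH.Unm

/-!
# GMH/HotU (helper22): THE UNSIGNED SUM OF ONE KIND OVER ALL REMOVALS

Kind `Q` with `psi = 1`, steps `A` with `g = 1` (`rp v`, `ru` arbitrary events with the right ends).  `NH` = the number of the
decided lives and of the zones in the relation: **`uns_sum`** : the sum of the releases is at most `NH`; nothing else is lost.
`uns_le` : the same for any weight `0 ≤ g ≤ L`.
-/

set_option autoImplicit false
set_option linter.unusedSectionVars false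

namespace Pool.Agent.GMH.UV

open Finset Pool.Agent.PWZ Pool.Agent.M3 Pool.Agent.GMH.TD Pool.Agent.GMH.CK Pool.Agent.GMH.MV Pool.Agent.GMH.UnmL

noncomputable section

variable {Om : Type} [Fintype Om] (M : US Om) (Q : Kd Om)

/-- the decided lives of the vertex `v` in the relation -/
def NHv (T : ℕ) (v : Fin 3) : ℝ := ∑ τ ∈ range T, M.P.Pr (fun w => tv M v τ w = τ ∧ dcv M Q T v τ w)

/-- the zones in the relation -/
def NH0 (T : ℕ) : ℝ := ∑ n ∈ range T, M.P.Pr (fun w => nu M.toMS n w = n ∧ dc0 M Q T n w)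

/-- **the number of the hot kinds** -/
def NH (T : ℕ) : ℝ := ∑ v ∈ Q.Vk, NHv M Q T v + NH0 M Q T

variable {M Q}

theorem NHv_nn (T : ℕ) (v : Fin 3) : 0 ≤ NHv M Q T v := Finset.sum_nonneg fun _ _ => M.P.Pr_nonneg _

theorem NH0_nn (T : ℕ) : 0 ≤ NH0 M Q T := Finset.sum_nonneg fun _ _ => M.P.Pr_nonneg _

theorem NH_nn (T : ℕ) : 0 ≤ NH M Q T := add_nonneg (Finset.sum_nonneg fun v _ => NHv_nn T v) (NH0_nn T)

/-- **THE UNSIGNED SUM OF ONE KIND** -/
theorem uns_sum {A : Stps (Om := Om)} (H : StpOK M Q A 0) (hp : ∀ o τ w, Q.psi o τ w = 1) (hg : ∀ q w, A.g q w = 1)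
    (T : ℕ) : ∑ q ∈ range T, M.P.E (rels M Q A q) ≤ NH M Q T := by
  have h1 := signed (Kc := 0) H T (fun w _ o τ => by rw [hp]; norm_num)
  simp only [hp, hg, mul_one, zero_mul, add_zero] at h1
  exact h1

/-- **the same for a bounded weight** -/
theorem uns_le {A : Stps (Om := Om)} (H : StpOK M Q A 0) (hp : ∀ o τ w, Q.psi o τ w = 1) (hg : ∀ q w, A.g q w = 1)
    (T : ℕ) {L : ℝ} (hL : 0 ≤ L) {f : ℕ → Om → ℝ} (hf : ∀ q w, M.P.p w ≠ 0 → f q w ≤ L) :
    ∑ q ∈ range T, M.P.E (fun w => rels M Q A q w * f q w) ≤ L * NH M Q T := by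
  refine le_trans ?_ (mul_le_mul_of_nonneg_left (uns_sum H hp hg T) hL)
  rw [Finset.mul_sum]
  refine Finset.sum_le_sum fun q _ => ?_
  rw [← FP.E_smul]
  refine M.P.E_mono fun w hw => ?_
  have h0 : 0 ≤ rels M Q A q w :=
    add_nonneg (Finset.sum_nonneg fun _ _ => ind_nonneg _) (ind_nonneg _)
  rw [mul_comm L]
  exact mul_le_mul_of_nonneg_left (hf q w hw) h0

end

end Pool.Agent.GMH.UV
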