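import Pool.Agent.GMH.HotE2
import Pool.Agent.GMH.HotU
import Pool.Agent.GMH.HotC
import Pool.Agent.GMH.ConTM2

/-!
# GMH/HotE3 (helper89): GMH/HotE2 over `Ctx`

* `C.gMH ka i q` : good for the kind `HOT_i`; `hot_rel` : `∑ E rels` of the steps of `HOT_i` is at most the number `NH` of the
  decided lives and zones of the kind `QH i (a - 1) (2 s)`;
* `hcl` : two numbers: activity threshold at least `ix Lam K`: the life of `i` goes on in the joint private step: the class mass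
  of the active letters of a top which sees `i` is below `kb`; `act_ex` : an active letter is moved.
-/

set_option autoImplicit false
set_option linter.unusedSectionVars false
set_option linter.unusedVariables false

namespace Pool.Agent.GMH.CX

open Finset Pool.Agent.PWZ Pool.Agent.M3 Pool.Agent.GM Pool.Agent.GM.Harm Pool.Agent.GMH Pool.Agent.GMH.NZ
open Pool.Agent.GMH.V3 Pool.Agent.GMH.TP Pool.Agent.GMH.TD Pool.Agent.GMH.Dy Pool.Agent.GMH.CTM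
open Pool.Agent.GMH.CK Pool.Agent.GMH.UV Pool.Agent.GMH.TRF

noncomputable section

/-- good for the kind `HOT_i` -/
def Ctx.gMH (C : Ctx) (ka : ℕ) (i : Fin 3) (q : ℕ) (w : C.O) : Prop :=
  HotE2.gMH C.tb (v := C.v) (C.d1_pos ka) (C.d1_le ka) (C.kb_pos ka) C.d0_pos C.d0_le C.d0_pos C.p1_pos (C.z_pos ka) i q w

/-- the steps of the kind `HOT_i` -/
def Ctx.SH (C : Ctx) (ka : ℕ) (i : Fin 3) (a s : ℝ) (Al gM : ℕ → C.O → Prop) : Stps (Om := C.O) :=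
  stpsH C.tb C.v i Al (C.HQ i a s) gM (C.U ka) (fun _ _ => 1)

/-- **`StpOK` OVER `Ctx`** -/
theorem hot_ok (ka A : ℕ) : AllC A fun C => ∀ (i : Fin 3) (a s uB u0 : ℝ), 0 < s → ∀ Al gM : ℕ → C.O → Prop,
    (∀ q w, C.tb.Ps.p w ≠ 0 → Al q w → C.AV q w) → (∀ q w, q % 5 = 4 → Al q w → ¬ ltL C.v C.tb q w) →
    (∀ q w, gM q w → C.gMH ka i q w) →
      StpOK (C.U ka) (C.QH i (a - 1) (2 * s) uB u0) (C.SH ka i a s Al gM) 0 := by
  refine ⟨ka + 1, fun C _ hc i a s uB u0 hs Al gM h1 h2 h3 => ?_⟩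
  obtain ⟨n1, n2⟩ := C.d_num (ka := ka) hc
  exact HotE2.stpOK_KHot C.tb (C.d1_pos ka) (C.d1_le ka) (C.kb_pos ka) C.d0_pos C.d0_le C.d0_pos C.p1_pos (C.z_pos ka)
    C.codes C.H C.R Ctx.hS' Ctx.hu' C.hN' (by linarith) hs C.p h1 h2 h3

/-- **THE RELEASED HOT PAIRS** are at most the decided lives and zones of the kind -/
theorem hot_rel (ka A : ℕ) : AllC A fun C => ∀ (i : Fin 3) (a s uB u0 : ℝ), 0 < s → ∀ Al gM : ℕ → C.O → Prop,
    (∀ q w, C.tb.Ps.p w ≠ 0 → Al q w → C.AV q w) → (∀ q w, q % 5 = 4 → Al q w → ¬ ltL C.v C.tb q w) →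
    (∀ q w, gM q w → C.gMH ka i q w) → ∀ T : ℕ,
      ∑ q ∈ range T, C.tb.Ps.E (rels (C.U ka) (C.QH i (a - 1) (2 * s) uB u0) (C.SH ka i a s Al gM) q) ≤
        NH (C.U ka) (C.QH i (a - 1) (2 * s) uB u0) T :=
  (hot_ok ka A).mono fun _ hC i a s uB u0 hs Al gM h1 h2 h3 T =>
    uns_sum (hC i a s uB u0 hs Al gM h1 h2 h3) (fun _ _ _ => rfl) (fun _ _ => rfl) T

/-- the numbers of the activity -/
theorem act_num (ka A K : ℕ) : AllC A fun C => 18 * MVN.d1 C.Lam ka C.c0 ≤ CT.ix C.Lam K ∧ MVN.d1 C.Lam ka C.c0 ≤ 1 / 9 := by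
  obtain ⟨m, hm⟩ := Filter.eventually_atTop.1 (CT.exp_n A ka (K + 3))
  refine ⟨m, fun C hA hc => ?_⟩
  have h1 := hm C.c0 hc C.Lam C.hL
  have hL := C.hL
  have h2 : MVN.d1 C.Lam ka C.c0 ≤ CT.ix C.Lam (K + 3) := by
    have e1 : MVN.pe C.Lam ka C.c0 = pw C.Lam C.c0 * CT.ix C.Lam ka := by
      unfold MVN.pe CT.ix
      rw [div_eq_mul_inv]
    have e2 : 0 ≤ MVN.pe C.Lam ka C.c0 := by
      rw [e1]
      exact mul_nonneg (CT.pw_pos hL _).le (CT.ix_pos hL _).le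
    refine (Real.exp_le_exp.2 (show -(2 * MVN.pe C.Lam ka C.c0) ≤ -(pw C.Lam C.c0 * CT.ix C.Lam ka) by
      rw [← e1]; linarith)).trans (h1.trans ?_)
    exact CT.ix_anti hL (by nlinarith [Nat.zero_le (c1F A C.c0), Nat.zero_le C.c0])
  have h3 : CT.ix C.Lam 3 ≤ 1 / 64 := by
    unfold CT.ix pw
    rw [inv_eq_one_div]
    refine one_div_le_one_div_of_le (by norm_num) ?_
    calc (64 : ℝ) = 4 ^ 3 := by norm_num
      _ ≤ (2 * C.Lam) ^ 3 := pow_le_pow_left₀ (by norm_num) (by linarith) 3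
  have h4 : CT.ix C.Lam (K + 3) ≤ CT.ix C.Lam K * (1 / 64) := by
    rw [CT.ix_add]
    exact mul_le_mul_of_nonneg_left h3 (CT.ix_pos hL K).le
  have h5 := CT.ix_le_one hL K
  have h6 := CT.ix_pos hL K
  constructor <;> linarith

/-- **THE LIFE OF `i` GOES ON: THE CLASS MASS OF THE ACTIVE LETTERS** -/
theorem hcl (ka A K : ℕ) : AllC A fun C => ∀ e, CT.ix C.Lam K ≤ e → ∀ q, q / 5 ≤ C.T → q % 5 = 4 → ∀ i j : Fin 3, j ≠ i →
    ∀ w : C.O, UV.tv (C.U ka) i (q + 1) w ≠ q + 1 →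
      C.tb.Ps.ce (MV.CN (C.M ka) i (q + 1)) (fun u => ind (acO C.h C.tb C.v e j q u)) w < MVN.kb C.Lam ka C.c0 :=
  (act_num ka A K).mono fun C hn e he q hq h4 i j hj w hg =>
    HotE2.quiet_act C.tb (C.d1_pos ka) (C.d1_le ka) (C.kb_pos ka) C.d0_pos C.d0_le C.d0_pos C.p1_pos (C.z_pos ka) C.H C.R
      Ctx.hS' Ctx.hu' C.hN' (hn.1.trans he) hn.2 hq h4 hj hg

/-- **AN ACTIVE LETTER IS MOVED** -/
theorem act_ex (ka A K : ℕ) : AllC A fun C => ∀ e, CT.ix C.Lam K ≤ e → ∀ q, q / 5 ≤ C.T → q % 5 = 4 → ∀ i j : Fin 3, j ≠ i →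
    ∀ ν ≤ q, ∀ w : C.O, C.tb.Ps.p w ≠ 0 → acO C.h C.tb C.v e j q w → MV.Ex (C.M ka) i ν (q + 1) w :=
  (act_num ka A K).mono fun C hn e he q hq h4 i j hj ν hν w hw ha =>
    HotE2.act_moved C.tb (C.d1_pos ka) (C.d1_le ka) (C.kb_pos ka) C.d0_pos C.d0_le C.d0_pos C.p1_pos (C.z_pos ka) C.H C.R
      Ctx.hS' Ctx.hu' C.hN' (hn.1.trans he) hn.2 hq h4 hj hν hw ha

end

end Pool.Agent.GMH.CX
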