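import Pool.Agent.GMH.HotNS

/-!
# GMH.HotFX: an event of a top and what it sees, the other top keeps its own law (tool; helper9)

`b` = exact point (a parameter: no letter, nothing public), `c` = exact point with its class.
* `hw_bound0` : the hardwired row bound of `InP` without event, no price at level `0`;
* **`fx`** : `N_(cd) klc(P | E ‖ P | exact b ; F_b | Zf b) ≤ 2 N_c (log (1/π) + 1)`, `E` = any event of (hidden point, points
  `b`, `c`, node, label of `{b, c}`) inside the class of `c`, `π = P(E | exact b, class of c)`.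
  (If `E` fixes the letter of `b`, its surprise is in `log (1/π)`.)
-/

set_option autoImplicit false
set_option linter.unusedSectionVars false
set_option linter.unusedVariables false

namespace Pool.Agent.GMH

open Finset Pool.Agent.PWZ Pool.Agent.M3 Pool.Agent.GM Pool.Agent.GM.Harm

section hw0

variable {K X β γ φ υ ν : Type} [Fintype K] [DecidableEq K] [Fintype X] [Fintype β] [Fintype φ] [Nonempty X] [Nonempty β]
  {D : HD K X β γ φ} {al : ℝ} {h : D.Thick al} {N : Finset K → ℝ} {S : Finset (Finset K)}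

/-- **HARDWIRED ROW BOUND WITHOUT EVENT** : no price at level `0` -/
theorem hw_bound0 {U : Finset K → X → (K → β) → υ} {t : ℕ}
    (hU : ∀ I x y y', (∀ j ∈ I, y j = y' j) → (∀ j, D.qb t (y j) = D.qb t (y' j)) → U I x y = U I x y')
    (hs : SatA (D.P h t) (BB D t) N S (LL U) (Dep D t)) (hN : ∀ J ∈ S, 0 ≤ N J) (hK2 : ∀ l : K, ¬ univ.erase l ⊆ ∅)
    {I J0 : Finset K} (hJ0S : J0 ∈ S) (hIJ : Disjoint J0 I)
    {V : Pt K X β φ → Prop} (hV : Fac (fun w => (le (LL U) ∅ w, BB D t ∅ w)) V)
    (hV1 : ∀ v w, V v → V w → BB D t ∅ v = BB D t ∅ w) {w0 : Pt K X β φ} (hw0 : V w0)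
    (hV0 : (D.P h t).Pr V ≠ 0) {c : K → β} (hc : ∀ i ∈ I, D.qb t (w0.2.1 i) = D.qb t (c i))
    {G : Finset K → Pt K X β φ → ν} (hG : GI D t I G) {b : ℝ}
    (hb : ∑ J ∈ S, N J * cost (FP.pr ((D.P h t).cond V) (coinT h t))
      (fun I w => BB D t I w.1) (fun I w => LL U I w.1) (fun J w => G J (hwm D t I c w)) J ≤ b) :
    N J0 * ((D.P h t).cond (hwV I c V)).I (LL U J0) (lo G J0) (fun w => (lo (LL U) J0 w, BB D t J0 w)) ≤ 2 * b := by
  classical
  set Q := (D.P h t).cond V with hQ
  set R := coinT h t with hR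
  set m := hwm D t I c with hm
  set Q' := (D.P h t).cond (hwV I c V) with hQ'
  have hV' : Fac (fun w => (w.1, BB D t ∅ w)) V := by
    intro v w hvw
    simp only [Prod.mk.injEq, BB_eq] at hvw
    refine hV v w ?_
    simp only [Prod.mk.injEq, le_eq, BB_eq]
    refine ⟨fun I' hI' => ?_, hvw.2⟩
    rw [LL_eq]
    refine ⟨?_, fun l hl => ?_⟩
    · rw [hvw.1]
      exact hU I' w.1 v.2.1 w.2.1 (fun j hj => absurd (hI' hj) (Finset.notMem_empty j)) hvw.2.2.2
    · exact absurd (hl ▸ hI' : univ.erase l ⊆ ∅) (hK2 l)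
  obtain ⟨hne, hpul⟩ := hw_pul h (Finset.disjoint_empty_left I) hV' hV1 hw0 hV0 hc
  have hcls := hs.cls hU hK2 hV hV0
  have hsup : ∀ w, (FP.pr Q R).p w ≠ 0 → ∀ i ∈ I, D.qb t (w.1.2.1 i) = D.qb t (c i) := by
    intro w hw i hi
    have hVw : V w.1 := (cond_supp hV0 ((pr_supp Q R).1 hw).1).1
    have := hV1 _ _ hVw hw0
    rw [BB_eq] at this
    rw [this.2.2 i]
    exact hc i hi
  have hqb : ∀ w, (FP.pr Q R).p w ≠ 0 → ∀ j, D.qb t (hwy I c w.1.2.1 j) = D.qb t (w.1.2.1 j) := by
    intro w hw j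
    unfold hwy
    split_ifs with hj
    · exact (hsup w hw j hj).symm
    · rfl
  have hLL : ∀ J, J ⊆ J0 → ∀ w, (FP.pr Q R).p w ≠ 0 → LL U J w.1 = LL U J (m w) := by
    intro J hJ w hw
    have hJI : ∀ j ∈ J, j ∉ I := fun j hj => Finset.disjoint_left.1 hIJ (hJ hj)
    rw [LL_eq]
    refine ⟨?_, fun l hl => ?_⟩
    · show U J w.1.1 w.1.2.1 = U J w.1.1 (hwy I c w.1.2.1)
      refine hU J w.1.1 _ _ (fun j hj => ?_) fun j => (hqb w hw j).symm
      unfold hwy
      rw [if_neg (hJI j hj)]
    · show w.1.2.2 l = if ∃ i ∈ I, i ≠ l then rd D t w.2 l w.1.1 (hwy I c w.1.2.1) else w.1.2.2 l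
      rw [if_neg]
      rintro ⟨i, hi, hil⟩
      exact hJI i (hl ▸ Finset.mem_erase.2 ⟨hil, mem_univ i⟩) hi
  have hlo : ∀ w, (FP.pr Q R).p w ≠ 0 → lo (fun I (w : Pt K X β φ × (K → Cn K X β φ)) => LL U I w.1) J0 w =
      lo (LL U) J0 (m w) := by
    intro w hw
    funext J
    unfold lo
    by_cases hJ : J ⊂ J0
    · rw [if_pos hJ, if_pos hJ]
      exact congrArg some (hLL J hJ.1 w hw)
    · rw [if_neg hJ, if_neg hJ]
  have hBB : ∀ w, (FP.pr Q R).p w ≠ 0 → BB D t J0 w.1 = BB D t J0 (m w) := by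
    intro w hw
    rw [BB_eq]
    refine ⟨fun j hj => ?_, rfl, fun j => (hqb w hw j).symm⟩
    show w.1.2.1 j = hwy I c w.1.2.1 j
    unfold hwy
    rw [if_neg (Finset.disjoint_left.1 hIJ hj)]
  have hphi : 0 ≤ Phi (FP.pr Q R) (fun I w => BB D t I w.1) N S (fun I w => LL U I w.1) (fun J w => G J (m w)) := by
    refine hcls.coin hN _ fun θ => ?_
    have hpt : ∀ (J : Finset K) (a b : Pt K X β φ), a.1 = b.1 → (∀ j ∈ J, a.2.1 j = b.2.1 j) →
        (∀ j, D.qb t (a.2.1 j) = D.qb t (b.2.1 j)) → (∀ j ∈ I ∪ J, hwy I c a.2.1 j = hwy I c b.2.1 j) ∧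
        (∀ j, D.qb t (hwy I c a.2.1 j) = D.qb t (hwy I c b.2.1 j)) := by
      intro J a b _ h2 h3
      refine ⟨fun j hj => ?_, fun j => ?_⟩
      · unfold hwy
        by_cases hjI : j ∈ I
        · rw [if_pos hjI, if_pos hjI]
        · rw [if_neg hjI, if_neg hjI]
          exact h2 j ((Finset.mem_union.1 hj).resolve_left hjI)
      · unfold hwy
        by_cases hjI : j ∈ I
        · rw [if_pos hjI, if_pos hjI]
        · rw [if_neg hjI, if_neg hjI]; exact h3 j
    constructor
    · intro J a b' h1 h2 h3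
      show G J (m (a, θ)) = G J (m (b', θ))
      have h4 := hpt J a b' h1 h2 h3
      refine hG J _ _ ?_
      simp only [Prod.mk.injEq, BB_eq]
      exact ⟨h1, ⟨h4.1, congrArg (D.qa t) h1, h4.2⟩, hwm_tl h1 h4.1 h4.2⟩
    · intro J hJ
      exact absurd (Finset.empty_subset J) hJ
  have h5 : Phi (FP.pr Q R) (fun I w => BB D t I w.1) N S (fun I w => LL U I w.1) (fun J w => G J (m w)) =
      2 * ∑ J ∈ S, N J * cost (FP.pr Q R) (fun I w => BB D t I w.1) (fun I w => LL U I w.1) (fun J w => G J (m w)) J -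
      ∑ J ∈ S, N J * gain (FP.pr Q R) (fun I w => BB D t I w.1) (fun I w => LL U I w.1) (fun J w => G J (m w)) J := by
    unfold Phi
    rw [Finset.mul_sum, ← Finset.sum_sub_distrib]
    exact Finset.sum_congr rfl fun J _ => by ring
  have h6 : N J0 * (FP.pr Q R).I (fun w => LL U J0 w.1) (lo (fun J w => G J (m w)) J0)
      (fun w => (lo (fun I (w : Pt K X β φ × (K → Cn K X β φ)) => LL U I w.1) J0 w, BB D t J0 w.1)) ≤
      ∑ J ∈ S, N J * gain (FP.pr Q R) (fun I w => BB D t I w.1) (fun I w => LL U I w.1) (fun J w => G J (m w)) J :=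
    Finset.single_le_sum (f := fun J => N J * gain (FP.pr Q R) (fun I w => BB D t I w.1) (fun I w => LL U I w.1)
      (fun J w => G J (m w)) J) (fun J hJ => mul_nonneg (hN J hJ) gain_nonneg) hJ0S
  have e2 : (FP.pr Q R).I (fun w => LL U J0 w.1) (lo (fun J w => G J (m w)) J0)
      (fun w => (lo (fun I (w : Pt K X β φ × (K → Cn K X β φ)) => LL U I w.1) J0 w, BB D t J0 w.1)) =
      Q'.I (LL U J0) (lo G J0) (fun w => (lo (LL U) J0 w, BB D t J0 w)) := by
    rw [← pul_I hpul (LL U J0) (lo G J0) (fun w => (lo (LL U) J0 w, BB D t J0 w))]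
    refine I_congr_eq (fun v hv => hLL J0 (Finset.Subset.refl _) v hv) (fun v _ => rfl) fun v hv => ?_
    rw [hlo v hv, hBB v hv]
  rw [e2] at h6
  rw [h5] at hphi
  linarith

end hw0


section fx

variable {K X β γ φ υ : Type} [Fintype K] [DecidableEq K] [Fintype X] [Fintype β] [Fintype φ] [Nonempty X] [Nonempty β]
  {D : HD K X β γ φ} {al : ℝ} {h : D.Thick al} {N : Finset K → ℝ} {S : Finset (Finset K)}
  {U : Finset K → X → (K → β) → υ} {t : ℕ} {b c d : K} {w0 : Pt K X β φ}

/-- **LEMMA FX**: `b` = exact point (no letter, a parameter), `c` = exact point with its class, `E` = event of (hidden point,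
points `b`, `c`, node, label of `{b, c}`) inside the class: the far label keeps its own law -/
theorem fx (B : Bk h N S U t b c d) (hw0 : (D.P h t).p w0 ≠ 0) {E : Pt K X β φ → Prop}
    (hE : Fac (fun w => (w.1, BB D t {b, c} w, w.2.2 d)) E)
    (hEc : ∀ w, E w → clsb U (pub0 D t U w0) c w0 w) (hE0 : (QB h U t b w0).Pr E ≠ 0) {ρ : Type}
    {Yl : Pt K X β φ → ρ} (hYl : Fac (fun w : Pt K X β φ => (w.2.2 b, Zf D U t b w)) Yl) :
    N (univ.erase b) * ((QB h U t b w0).cond E).klc (QB h U t b w0) Yl (Zf D U t b) ≤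
      2 * (N {c} * (Real.log (1 / ((QB h U t b w0).cond (clsb U (pub0 D t U w0) c w0)).Pr E) + 1)) := by
  classical
  set J : Finset K := univ.erase b with hJ
  set Q := QB h U t b w0 with hQ
  set A := clsb U (pub0 D t U w0) c w0 with hA
  have hcJ : c ∈ J := Finset.mem_erase.2 ⟨B.bc.symm, mem_univ c⟩
  have hdJ : d ∈ J := Finset.mem_erase.2 ⟨B.bd.symm, mem_univ d⟩
  have hdisj : Disjoint J ({b} : Finset K) := by
    rw [Finset.disjoint_singleton_right]
    exact fun hh => (Finset.mem_erase.1 hh).1 rfl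
  set G : Finset K → Pt K X β φ → Option Prop := fun J' w => if J' = {c} then some (E w) else none with hG
  have htl : (univ.erase d : Finset K) ⊆ ({b} : Finset K) ∪ {c} ∧ ∃ i ∈ ({b} : Finset K), i ≠ d := by
    refine ⟨fun j hj => ?_, b, Finset.mem_singleton_self b, B.bd⟩
    rw [Finset.mem_union, Finset.mem_singleton, Finset.mem_singleton]
    rcases B.all j with h7 | h7 | h7
    · exact Or.inl h7
    · exact Or.inr h7
    · exact absurd h7 (Finset.mem_erase.1 hj).1
  have hGI : GI D t {b} G := by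
    intro J' v w hvw
    simp only [Prod.mk.injEq] at hvw
    obtain ⟨h1, h2, h4⟩ := hvw
    show (if J' = {c} then some (E v) else none) = if J' = {c} then some (E w) else none
    by_cases hJ' : J' = {c}
    · rw [if_pos hJ', if_pos hJ']
      subst hJ'
      have h5 := congrFun h4 d
      unfold tl at h5
      rw [if_pos htl, if_pos htl] at h5
      have h6 : v.2.2 d = w.2.2 d := Option.some.inj h5
      exact congrArg some (hE v w (by
        simp only [Prod.mk.injEq]
        exact ⟨h1, h2, h6⟩))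
    · rw [if_neg hJ', if_neg hJ']
  set m := hwm D t {b} w0.2.1 with hm
  set PE := FP.pr ((D.P h t).cond (xc D U t ∅ w0)) (coinT h t) with hPE
  have hx0 : (D.P h t).Pr (xc D U t ∅ w0) ≠ 0 := xc_ne hw0
  obtain ⟨hne, hpul⟩ := hw_pul h (I := {b}) (Finset.disjoint_empty_left {b}) (V := xc D U t ∅ w0)
    (xc_fac (U := U) ∅ w0 B.dep B.era) (fun v w hv hw => hv.2.trans hw.2.symm) (w0 := w0) (xc_self U t ∅ w0) hx0
    (c := w0.2.1) (fun _ _ => rfl)
  rw [← xc_hwV] at hpul
  have hpE : Pul PE Q m := hpul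
  -- masses
  have hPrE : 0 < Q.Pr E := lt_of_le_of_ne (Q.Pr_nonneg E) (Ne.symm hE0)
  have hPrA : 0 < Q.Pr A := lt_of_lt_of_le hPrE (Q.Pr_mono fun w _ hw => hEc w hw)
  set pi := (Q.cond A).Pr E with hpi
  have hpi0 : Q.Pr A * pi = Q.Pr E := by
    rw [hpi]
    show Q.Pr A * (Q.cond A).E (fun w => ind (E w)) = Q.E (fun w => ind (E w))
    rw [FP.Pr_mul_cond_E hPrA.ne']
    refine Q.E_congr fun w _ => ?_
    by_cases hw : E w
    · rw [ind_of hw, ind_of (hEc w hw), one_mul]
    · rw [ind_not hw, mul_zero]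
  have hpip : 0 < pi := by
    by_contra hh
    push Not at hh
    have h1 := mul_nonpos_of_nonneg_of_nonpos hPrA.le hh
    rw [hpi0] at h1
    linarith
  have hcost : ∑ J' ∈ S, N J' * cost PE (fun I w => BB D t I w.1) (fun I w => LL U I w.1) (fun J' w => G J' (m w)) J' ≤
      N {c} * (Q.Pr E * (Real.log (1 / pi) + 1)) := by
    have hc0 : cost PE (fun I w => BB D t I w.1) (fun I w => LL U I w.1) (fun J' w => G J' (m w)) {c} ≤
        Q.Pr E * (Real.log (1 / pi) + 1) := by
      unfold cost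
      have e : (fun (J' : Finset K) (w : Pt K X β φ × (K → Cn K X β φ)) => G J' (m w)) {c} =
          fun w => some (E (m w)) := by
        funext w
        show (if ({c} : Finset K) = {c} then some (E (m w)) else none) = _
        rw [if_pos rfl]
      rw [e]
      -- the class of `c` is seen
      set A' : Pt K X β φ × (K → Cn K X β φ) → Prop := fun w => A w.1 with hA'
      have hsup : ∀ w, PE.p w ≠ 0 → xc D U t ∅ w0 w.1 := fun w hw => (cond_supp hx0 ((pr_supp _ _).1 hw).1).1
      have hAm : ∀ w, PE.p w ≠ 0 → (A (m w) ↔ A' w) := by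
        intro w hw
        have hx := hsup w hw
        have hqb : ∀ j, D.qb t (hwy {b} w0.2.1 w.1.2.1 j) = D.qb t (w.1.2.1 j) := by
          intro j
          unfold hwy
          have h2 := hx.2
          rw [BB_eq] at h2
          split_ifs with hj
          · exact (h2.2.2 j).symm
          · rfl
        have hyc : hwy {b} w0.2.1 w.1.2.1 c = w.1.2.1 c := by
          unfold hwy
          rw [if_neg (fun hh => B.bc.symm (Finset.mem_singleton.1 hh))]
        have hpub : pub0 D t U w0 (m w) ↔ pub0 D t U w0 w.1 := by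
          unfold pub0
          have e1 : (le (LL U) ∅ (m w), BB D t ∅ (m w)) = (le (LL U) ∅ w.1, BB D t ∅ w.1) := by
            rw [Prod.mk.injEq, le_eq, BB_eq]
            refine ⟨fun I hI => ?_, fun j hj => absurd hj (Finset.notMem_empty j), rfl, fun j => hqb j⟩
            rw [LL_eq]
            refine ⟨B.dep I w.1.1 _ _ (fun j hj => absurd (hI hj) (Finset.notMem_empty j)) hqb, fun l hl => ?_⟩
            exact absurd (hl ▸ hI) (B.era l)
          rw [e1]
        have hUc : U {c} w.1.1 (hwy {b} w0.2.1 w.1.2.1) = U {c} w.1.1 w.1.2.1 :=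
          B.dep {c} w.1.1 _ _ (fun j hj => by rw [Finset.mem_singleton.1 hj]; exact hyc) hqb
        show (pub0 D t U w0 (m w) ∧ hwy {b} w0.2.1 w.1.2.1 c = w0.2.1 c ∧
          U {c} w.1.1 (hwy {b} w0.2.1 w.1.2.1) = U {c} w0.1 w0.2.1) ↔
          (pub0 D t U w0 w.1 ∧ w.1.2.1 c = w0.2.1 c ∧ U {c} w.1.1 w.1.2.1 = U {c} w0.1 w0.2.1)
        rw [hpub, hyc, hUc]
      have hfA : Fac (fun w : Pt K X β φ × (K → Cn K X β φ) =>
          (lo (fun (J' : Finset K) w => G J' (m w)) {c} w, le (fun I (w : Pt K X β φ × (K → Cn K X β φ)) => LL U I w.1) {c} w,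
            BB D t {c} w.1)) A' := by
        intro v w hvw
        simp only [Prod.mk.injEq] at hvw
        obtain ⟨-, h2, h3⟩ := hvw
        rw [le_eq] at h2
        have hc1 := h2 {c} (Finset.Subset.refl _)
        have h01 : LL U ∅ v.1 = LL U ∅ w.1 := h2 ∅ (Finset.empty_subset _)
        rw [BB_eq] at h3
        have hpub : (le (LL U) ∅ v.1, BB D t ∅ v.1) = (le (LL U) ∅ w.1, BB D t ∅ w.1) := by
          rw [Prod.mk.injEq, le_eq, BB_eq]
          exact ⟨fun I hI => by rw [Finset.subset_empty.1 hI]; exact h01,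
            fun j hj => absurd hj (Finset.notMem_empty j), h3.2⟩
        have hpt : v.1.2.1 c = w.1.2.1 c := h3.1 c (Finset.mem_singleton_self c)
        have hlt : U {c} v.1.1 v.1.2.1 = U {c} w.1.1 w.1.2.1 := (LL_eq.1 (show LL U {c} v.1 = LL U {c} w.1 from hc1)).1
        show (pub0 D t U w0 v.1 ∧ v.1.2.1 c = w0.2.1 c ∧ U {c} v.1.1 v.1.2.1 = U {c} w0.1 w0.2.1) =
          (pub0 D t U w0 w.1 ∧ w.1.2.1 c = w0.2.1 c ∧ U {c} w.1.1 w.1.2.1 = U {c} w0.1 w0.2.1)
        unfold pub0
        rw [hpub, hpt, hlt]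
      have hA0 : PE.Pr A' = Q.Pr A := by
        rw [← hpE.Pr A]
        exact PE.E_congr fun w hw => by
          show ind (A' w) = ind (A (m w))
          rw [propext (hAm w hw)]
      have hA0' : PE.Pr A' ≠ 0 := by rw [hA0]; exact hPrA.ne'
      -- replace the event by its part in the class
      have eE : ∀ w, PE.p w ≠ 0 → E (m w) → A' w := fun w hw hE' => (hAm w hw).1 (hEc _ hE')
      set F : Pt K X β φ × (K → Cn K X β φ) → Prop := fun w => E (m w) ∧ A' w with hF
      have e1 : PE.Hc (fun w => some (E (m w))) (fun w : Pt K X β φ × (K → Cn K X β φ) =>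
          (lo (fun (J' : Finset K) w => G J' (m w)) {c} w, le (fun I (w : Pt K X β φ × (K → Cn K X β φ)) => LL U I w.1) {c} w,
            BB D t {c} w.1)) = PE.Hc F (fun w : Pt K X β φ × (K → Cn K X β φ) =>
          (lo (fun (J' : Finset K) w => G J' (m w)) {c} w, le (fun I (w : Pt K X β φ × (K → Cn K X β φ)) => LL U I w.1) {c} w,
            BB D t {c} w.1)) := by
        unfold FP.Hc
        congr 1
        refine FP.H_congr_supp fun v w hv hw => ?_
        have k : ∀ u, PE.p u ≠ 0 → (F u = E (m u)) := fun u hu => propext ⟨fun hh => hh.1, fun hh => ⟨hh, eE u hu hh⟩⟩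
        constructor
        · intro hh
          have h8 := congrArg Prod.snd hh
          have h9 : some (E (m v)) = some (E (m w)) := congrArg Prod.fst hh
          exact Prod.ext (by rw [k v hv, k w hw]; exact Option.some.inj h9) h8
        · intro hh
          have h8 := congrArg Prod.snd hh
          have h9 : F v = F w := congrArg Prod.fst hh
          rw [k v hv, k w hw] at h9
          exact Prod.ext (congrArg some h9) h8
      rw [e1, Hc_cut hA0' hfA (fun v w hv hw => propext ⟨fun hh => absurd hh.2 hv, fun hh => absurd hh.2 hw⟩)]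
      have hp1 : (PE.cond A').Pr F = pi := by
        have h1 : PE.Pr A' * (PE.cond A').Pr F = Q.Pr E := by
          show PE.Pr A' * (PE.cond A').E (fun w => ind (F w)) = _
          rw [FP.Pr_mul_cond_E hA0', ← hpE.Pr E]
          refine PE.E_congr fun w hw => ?_
          by_cases hw' : E (m w)
          · rw [ind_of hw', ind_of (eE w hw hw'), ind_of (show F w from ⟨hw', eE w hw hw'⟩), one_mul]
          · rw [ind_not hw', ind_not (fun hh : F w => hw' hh.1), mul_zero]
        rw [hA0, ← hpi0] at h1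
        exact mul_left_cancel₀ hPrA.ne' h1
      have h2 : (PE.cond A').Hc F (fun w : Pt K X β φ × (K → Cn K X β φ) =>
          (lo (fun (J' : Finset K) w => G J' (m w)) {c} w, le (fun I (w : Pt K X β φ × (K → Cn K X β φ)) => LL U I w.1) {c} w,
            BB D t {c} w.1)) ≤ pi * (Real.log (1 / pi) + 1) := by
        have h3 := H_event_le (P := PE.cond A') (E := F) (by rw [hp1]; exact hpip)
        rw [hp1] at h3
        refine le_trans ?_ h3
        have h6 : (PE.cond A').Hc F (fun w : Pt K X β φ × (K → Cn K X β φ) =>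
          (lo (fun (J' : Finset K) w => G J' (m w)) {c} w, le (fun I (w : Pt K X β φ × (K → Cn K X β φ)) => LL U I w.1) {c} w,
            BB D t {c} w.1)) ≤ (PE.cond A').Hc F (fun _ => ()) := FP.Hc_anti _ _ fun _ _ _ => rfl
        have h7 : (PE.cond A').Hc F (fun _ => ()) = (PE.cond A').H F := by
          unfold FP.Hc
          rw [FP.H_const, sub_zero]
          exact FP.H_congr _ (Fac.fst _ _) ((Fac.refl F).prod (Fac.const F ()))
        linarith
      have h3 := mul_le_mul_of_nonneg_left h2 (PE.Pr_nonneg A')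
      rw [hA0] at h3 ⊢
      refine h3.trans (le_of_eq ?_)
      rw [← hpi0]
      ring
    have hcJ' : ∀ J', J' ≠ {c} → cost PE (fun I w => BB D t I w.1) (fun I w => LL U I w.1)
        (fun J' w => G J' (m w)) J' = 0 := by
      intro J' hJ'
      refine cost_const fun v w => ?_
      show (if J' = {c} then _ else none) = if J' = {c} then _ else none
      rw [if_neg hJ', if_neg hJ']
    have h2 : ∀ J' ∈ S, N J' * cost PE (fun I w => BB D t I w.1) (fun I w => LL U I w.1)
        (fun J' w => G J' (m w)) J' ≤ if J' = {c} then N {c} * (Q.Pr E * (Real.log (1 / pi) + 1)) else 0 := by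
      intro J' hJ'
      by_cases hJ0 : J' = {c}
      · subst hJ0
        rw [if_pos rfl]
        exact mul_le_mul_of_nonneg_left hc0 (B.nn {c} (B.s1 c))
      · rw [if_neg hJ0, hcJ' J' hJ0, mul_zero]
    refine (Finset.sum_le_sum h2).trans (le_of_eq ?_)
    rw [Finset.sum_ite_eq' S {c}, if_pos (B.s1 c)]
  have hxV : Fac (fun w : Pt K X β φ => (le (LL U) ∅ w, BB D t ∅ w)) (xc D U t ∅ w0) := by
    intro v w hvw
    simp only [Prod.mk.injEq] at hvw
    show (le (LL U) ∅ v = le (LL U) ∅ w0 ∧ BB D t ∅ v = BB D t ∅ w0) =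
      (le (LL U) ∅ w = le (LL U) ∅ w0 ∧ BB D t ∅ w = BB D t ∅ w0)
    rw [hvw.1, hvw.2]
  have h1 := hw_bound0 (h := h) B.dep B.sat B.nn B.era (I := {b}) (J0 := J) (B.s2 b) hdisj (V := xc D U t ∅ w0) hxV
    (fun v w hv hw => hv.2.trans hw.2.symm) (xc_self U t ∅ w0) hx0 (c := w0.2.1) (fun _ _ => rfl) hGI hcost
  rw [← xc_hwV] at h1
  change N J * Q.I (LL U J) (lo G J) (fun w => (lo (LL U) J w, BB D t J w)) ≤ _ at h1
  have hZ : (fun w : Pt K X β φ => (lo (LL U) J w, BB D t J w)) = Zf D U t b := rfl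
  rw [hZ] at h1
  -- the information of the event
  have e2 : Q.I Yl E (Zf D U t b) ≤ Q.I (LL U J) (lo G J) (Zf D U t b) := by
    refine le_trans (FP.I_mono _ (X := LL U J) (X' := Yl) _ fun v w hvw => ?_) ?_
    · rw [Prod.mk.injEq] at hvw
      exact hYl v w (Prod.ext ((LL_eq.1 hvw.1).2 b rfl) hvw.2)
    · rw [FP.I_comm, FP.I_comm _ (LL U J) (lo G J)]
      refine FP.I_mono _ (X := lo G J) (X' := E) _ fun v w hvw => ?_
      have h4 : lo G J v = lo G J w := congrArg Prod.fst hvw
      have hcss : ({c} : Finset K) ⊂ J := by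
        rw [Finset.ssubset_iff_of_subset (Finset.singleton_subset_iff.2 hcJ)]
        exact ⟨d, hdJ, fun hh => B.cd (Finset.mem_singleton.1 hh).symm⟩
      have h5 := lo_eq.1 h4 {c} hcss
      have h6 : (if ({c} : Finset K) = {c} then some (E v) else none) =
        if ({c} : Finset K) = {c} then some (E w) else none := h5
      rw [if_pos rfl, if_pos rfl] at h6
      exact Option.some.inj h6
  have e3 := klc_event_le Q hE0 Yl (Zf D U t b)
  have hNJ := (B.n2 b).le
  have e4 := mul_le_mul_of_nonneg_left (e3.trans e2) hNJ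
  have e5 : Q.Pr E * (N J * (Q.cond E).klc Q Yl (Zf D U t b)) ≤
      Q.Pr E * (2 * (N {c} * (Real.log (1 / pi) + 1))) := by
    calc Q.Pr E * (N J * (Q.cond E).klc Q Yl (Zf D U t b)) = N J * (Q.Pr E * (Q.cond E).klc Q Yl (Zf D U t b)) := by ring
      _ ≤ N J * Q.I (LL U J) (lo G J) (Zf D U t b) := e4
      _ ≤ 2 * (N {c} * (Q.Pr E * (Real.log (1 / pi) + 1))) := h1
      _ = _ := by ring
  exact le_of_mul_le_mul_left e5 hPrE

end fx

end Pool.Agent.GMH
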