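import Pool.Agent.GMH.ActO
import Pool.Agent.GMH.TopRow

/-!
# GMH/HotHv: QUIET PAIRS (helper54): two active tops over the exact vertex `i`, the life of `i` goes on

State `q` (for the run `q = 5 t + 5`), law `D.P h t`; top `d` sees `i, k`; top `k` sees `i, d`; `Bk` = event of what the top `k` sees.
* `cell_H`, `cls_iff`, `Bk_up`, `f_eq` : the class of the exact vertex `i`; `Bk` as a set of letters of `d`;
* `pair_ce` : for a pair `(i, k)` of mass at least `p0` : `P(Bk | F_d, Zb_d) ≤ P(Bk | class of i) + 2 κ + B / (al p0) + B / p0`;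
* `pair_two` : `P(A_d, A_k, pair alive, P(A_k | class of i) ≤ G) ≤ (G / al + 2 κ + 2 B / (al p0)) P(A_d)`;
* `hq_sum` : the sum over the run on the table space.
-/

set_option autoImplicit false
set_option linter.unusedSectionVars false

namespace Pool.Agent.GMH.TP.HotHv

open Finset Pool.Agent.PWZ Pool.Agent.M3 Pool.Agent.GM Pool.Agent.GM.Harm Pool.Agent.GMH Pool.Agent.GMH.NZ
open Pool.Agent.GMH.V3 Pool.Agent.GMH.TP

noncomputable section

section wt

variable {X β γ φ υ : Type} [Fintype X] [Fintype β] [Fintype φ] [Nonempty X] [Nonempty β]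
variable {D : HD (Fin 3) X β γ φ} {al : ℝ} {h : D.Thick al} {v : ℕ → Finset (Fin 3) → X → (Fin 3 → β) → υ}

/-- the exact point `i`, the point of `d` free, in a public cell -/
theorem cell_H (hv : Codes D v) (t : ℕ) {s n : ℕ} (hs : s ≤ n + 1) (c : Pt (Fin 3) X β φ) {i d : Fin 3} (hid : i ≠ d)
    (G : X → β → ℝ) :
    (D.P h t).E (fun u => ind (NP D v s n u = NP D v s n c) * (ind (u.2.1 i = c.2.1 i) * G u.1 (u.2.1 d))) =
    (((FP.unif X).Pr (cX D v s n c) * ∏ j, (FP.unif β).Pr (cY D n c j)) * mC D n c i (c.2.1 i)) *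
      (muC D v s n c).E (fun x => (nuC D n c d).E (G x)) := by
  classical
  set M := (FP.unif X).Pr (cX D v s n c) * ∏ j, (FP.unif β).Pr (cY D n c j) with hM
  have e1 : ∀ x b', G x b' = ∑ b : β, ind (b' = b) * G x b := by
    intro x b'
    rw [Finset.sum_eq_single b']
    · rw [ind_of rfl, one_mul]
    · intro b _ hb; rw [ind_not (Ne.symm hb), zero_mul]
    · intro hn; exact absurd (mem_univ _) hn
  have e2 : (D.P h t).E (fun u => ind (NP D v s n u = NP D v s n c) * (ind (u.2.1 i = c.2.1 i) * G u.1 (u.2.1 d))) =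
      ∑ b : β, (D.P h t).E (fun u => ind (NP D v s n u = NP D v s n c) *
        (G u.1 b * ∏ j, ((if j = i then ind (u.2.1 j = c.2.1 i) else 1) * (if j = d then ind (u.2.1 j = b) else 1)))) := by
    rw [← FP.E_sum]
    refine FP.E_congr _ fun u _ => ?_
    rw [← Finset.mul_sum]
    congr 1
    conv_lhs => rw [e1 u.1 (u.2.1 d)]
    rw [Finset.mul_sum]
    refine Finset.sum_congr rfl fun b _ => ?_
    rw [Finset.prod_mul_distrib, Finset.prod_ite_eq' univ i (fun j => ind (u.2.1 j = c.2.1 i)),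
      Finset.prod_ite_eq' univ d (fun j => ind (u.2.1 j = b)), if_pos (mem_univ i), if_pos (mem_univ d)]
    ring
  rw [e2]
  have e4 : ∀ b : β, (D.P h t).E (fun u => ind (NP D v s n u = NP D v s n c) *
        (G u.1 b * ∏ j, ((if j = i then ind (u.2.1 j = c.2.1 i) else 1) * (if j = d then ind (u.2.1 j = b) else 1)))) =
      M * mC D n c i (c.2.1 i) * (mC D n c d b * (muC D v s n c).E (fun x => G x b)) := by
    intro b
    have h1 := cell_E (h := h) hv t hs c (fun x => G x b)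
      (fun j b' => (if j = i then ind (b' = c.2.1 i) else 1) * (if j = d then ind (b' = b) else 1))
    rw [h1, ← hM]
    have h2 : ∀ j, (nuC D n c j).E (fun b' => (if j = i then ind (b' = c.2.1 i) else 1) *
        (if j = d then ind (b' = b) else 1)) =
        (if j = i then mC D n c i (c.2.1 i) else 1) * (if j = d then mC D n c d b else 1) := by
      intro j
      by_cases hj : j = i
      · subst hj
        simp only [if_true, hid, if_false, mul_one]; rfl
      · by_cases hj' : j = d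
        · subst hj'
          simp only [if_true, hj, if_false, one_mul]; rfl
        · simp only [hj, hj', if_false, one_mul]; exact FP.E_const _ _
    rw [Finset.prod_congr rfl fun j _ => h2 j, Finset.prod_mul_distrib, Finset.prod_ite_eq' univ i,
      Finset.prod_ite_eq' univ d, if_pos (mem_univ i), if_pos (mem_univ d)]
    ring
  rw [Finset.sum_congr rfl fun b _ => e4 b, ← Finset.mul_sum]
  congr 1
  have e5 : ∀ x, (nuC D n c d).E (G x) = ∑ b : β, mC D n c d b * G x b := by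
    intro x
    have h3 : (nuC D n c d).E (G x) = (nuC D n c d).E (fun b' => ∑ b : β, ind (b' = b) * G x b) :=
      FP.E_congr _ fun b' _ => e1 x b'
    rw [h3, FP.E_sum]
    exact Finset.sum_congr rfl fun b _ => FP.E_mul_const _ _ _
  simp only [e5]
  rw [FP.E_sum]
  exact Finset.sum_congr rfl fun b _ => (FP.E_smul _ _ _).symm

variable (v) in
/-- the hidden points with the letter of `c` at the vertex `i` -/
def K1 (q : ℕ) (i : Fin 3) (c : Pt (Fin 3) X β φ) (x : X) : Prop :=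
  Um v (nc q {i}) {i} x c.2.1 = Um v (nc q {i}) {i} c.1 c.2.1

/-- the class of the exact vertex `i` -/
theorem cls_iff (hv : Codes D v) (q : ℕ) (i : Fin 3) (c u : Pt (Fin 3) X β φ) :
    (XLq v q i u, NPq D v q u) = (XLq v q i c, NPq D v q c) ↔
      NP D v (nc q ∅) (nn q) u = NP D v (nc q ∅) (nn q) c ∧ u.2.1 i = c.2.1 i ∧ K1 v q i c u.1 := by
  have hN : NPq D v q u = NPq D v q c ↔ NP D v (nc q ∅) (nn q) u = NP D v (nc q ∅) (nn q) c := Iff.rfl
  have key : NPq D v q u = NPq D v q c → u.2.1 i = c.2.1 i →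
      Um v (nc q {i}) {i} u.1 u.2.1 = Um v (nc q {i}) {i} u.1 c.2.1 := by
    intro hnp hy
    refine Um_codes hv (nc_le q {i}) {i} u.1 (fun l hl => by rw [Finset.mem_singleton.1 hl]; exact hy) ?_
    exact ((NP_iff hv (nc_le q ∅) c u).1 hnp).2
  unfold XLq XL K1
  simp only [Prod.mk.injEq]
  constructor
  · rintro ⟨⟨h1, h2⟩, h3⟩
    exact ⟨h3, h1, by rw [← key h3 h1]; exact h2⟩
  · rintro ⟨h3, h1, h2⟩
    exact ⟨⟨h1, by rw [key h3 h1]; exact h2⟩, h3⟩

theorem K1_of {q : ℕ} {i d : Fin 3} (hid : i ≠ d) {c : Pt (Fin 3) X β φ} {x : X} (h1 : K0 v q d c x) : K1 v q i c x :=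
  h1 i hid

/-- the point with the hidden point `x` and the point `b` of `d` -/
def upc (c : Pt (Fin 3) X β φ) (d : Fin 3) (x : X) (b : β) : Pt (Fin 3) X β φ := (x, Function.update c.2.1 d b, c.2.2)

/-- what the top `k` sees does not depend on the point of `k` -/
theorem Zb_up (hv : Codes D v) {q : ℕ} {i k d : Fin 3} (hik : i ≠ k) (hid : i ≠ d) (hkd : k ≠ d)
    {c u : Pt (Fin 3) X β φ} (hN : NP D v (nc q ∅) (nn q) u = NP D v (nc q ∅) (nn q) c) (hy : u.2.1 i = c.2.1 i) :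
    ZbQ D v q k u = ZbQ D v q k (upc c d u.1 (u.2.1 d)) := by
  have hcl := ((NP_iff hv (nc_le q ∅) c u).1 hN).2
  have hcells : ∀ j, D.qb (nn q) (u.2.1 j) = D.qb (nn q) ((upc c d u.1 (u.2.1 d)).2.1 j) := by
    intro j
    show D.qb (nn q) (u.2.1 j) = D.qb (nn q) (Function.update c.2.1 d (u.2.1 d) j)
    by_cases hj : j = d
    · subst hj; rw [Function.update_self]
    · rw [Function.update_of_ne hj]; exact hcl j
  rw [Zb_iff hv]
  refine ⟨?_, fun j hj => ?_, fun j hj => rfl⟩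
  · unfold NP nd
    refine Prod.ext ?_ (Prod.ext rfl (funext fun j => hcells j))
    exact Um_codes hv (nc_le q ∅) ∅ u.1 (fun j hj => absurd hj (Finset.notMem_empty j)) hcells
  · show u.2.1 j = Function.update c.2.1 d (u.2.1 d) j
    have hjj : ∀ i k d j : Fin 3, i ≠ k → i ≠ d → k ≠ d → j ≠ k → j = i ∨ j = d := by decide
    rcases hjj i k d j hik hid hkd hj with rfl | rfl
    · rw [Function.update_of_ne hid]; exact hy
    · rw [Function.update_self]

/-- a prefix of the codes -/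
theorem take_UmQ {s s' : ℕ} (hs : s' ≤ s) (I : Finset (Fin 3)) (x : X) (y : Fin 3 → β) :
    (Um v s I x y).take s' = Um v s' I x y := by
  unfold Um
  rw [← List.map_take, List.take_range, min_eq_left hs]

/-- the event as a set of letters of `d` -/
def fB (D : HD (Fin 3) X β γ φ) (v : ℕ → Finset (Fin 3) → X → (Fin 3 → β) → υ) (q : ℕ) (i d : Fin 3)
    (Bk : Pt (Fin 3) X β φ → Prop) (c : Pt (Fin 3) X β φ) (z : β × List υ) : ℝ :=
  ind (∃ x, K1 v q i c x ∧ cX D v (nc q ∅) (nn q) c x ∧ cY D (nn q) c d z.1 ∧ code v (nc q ∅) c d x z.1 = z.2 ∧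
    Bk (upc c d x z.1))

theorem fB_eq (hv : Codes D v) {q : ℕ} {i k d : Fin 3} (hik : i ≠ k) (hid : i ≠ d) (hkd : k ≠ d)
    (hsd : nc q {d} ≤ nc q ∅) {Bk : Pt (Fin 3) X β φ → Prop} (hB : Fac (ZbQ D v q k) Bk) (c : Pt (Fin 3) X β φ) {x : X}
    {b : β} (hx : cX D v (nc q ∅) (nn q) c x) (h1 : K1 v q i c x) (hb : cY D (nn q) c d b) :
    ind (Bk (upc c d x b)) = fB D v q i d Bk c (b, code v (nc q ∅) c d x b) := by
  unfold fB
  refine ind_cg ⟨fun hh => ⟨x, h1, hx, hb, rfl, hh⟩, ?_⟩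
  rintro ⟨x', k1, hx', _, hc, hh⟩
  have hcells : ∀ j, D.qb (nn q) (c.2.1 j) = D.qb (nn q) (Function.update c.2.1 d b j) := by
    intro j
    by_cases hj : j = d
    · subst hj; rw [Function.update_self]; exact hb.symm
    · rw [Function.update_of_ne hj]
  have eZ : ZbQ D v q k (upc c d x' b) = ZbQ D v q k (upc c d x b) := by
    rw [Zb_iff hv]
    refine ⟨?_, fun j _ => rfl, fun j hj => ?_⟩
    · unfold NP nd
      refine Prod.ext ?_ (Prod.ext ?_ rfl)
      · show Um v (nc q ∅) ∅ x' (Function.update c.2.1 d b) = Um v (nc q ∅) ∅ x (Function.update c.2.1 d b)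
        have a1 := Um_codes hv (nc_le q ∅) ∅ x' (y := c.2.1) (y' := Function.update c.2.1 d b)
          (fun j hj => absurd hj (Finset.notMem_empty j)) hcells
        have a2 := Um_codes hv (nc_le q ∅) ∅ x (y := c.2.1) (y' := Function.update c.2.1 d b)
          (fun j hj => absurd hj (Finset.notMem_empty j)) hcells
        rw [← a1, ← a2, hx'.1, hx.1]
      · show D.qa (nn q) x' = D.qa (nn q) x
        rw [hx'.2, hx.2]
    · show Um v (nc q {j}) {j} x' (Function.update c.2.1 d b) = Um v (nc q {j}) {j} x (Function.update c.2.1 d b)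
      have hjj : ∀ i k d j : Fin 3, i ≠ k → i ≠ d → k ≠ d → j ≠ k → j = i ∨ j = d := by decide
      rcases hjj i k d j hik hid hkd hj with rfl | rfl
      · have hex : ∀ l ∈ ({j} : Finset (Fin 3)), c.2.1 l = Function.update c.2.1 d b l := fun l hl => by
          rw [Finset.mem_singleton.1 hl, Function.update_of_ne hid]
        have a1 := Um_codes hv (nc_le q {j}) {j} x' hex hcells
        have a2 := Um_codes hv (nc_le q {j}) {j} x hex hcells
        rw [← a1, ← a2]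
        exact k1.trans h1.symm
      · have a1 : (code v (nc q ∅) c j x' b).take (nc q {j}) = (code v (nc q ∅) c j x b).take (nc q {j}) := by
          show _ = _
          rw [hc]
        unfold code at a1
        rw [take_UmQ hsd, take_UmQ hsd] at a1
        exact a1
  exact (iff_of_eq (hB _ _ eZ)).1 hh

end wt

/-! ### the row of a pair -/

section row

variable {X β γ φ : Type} [Fintype X] [Fintype β] [Fintype φ] [Nonempty X] [Nonempty β]
variable {D : HD (Fin 3) X β γ φ} {al : ℝ} {h : D.Thick al} {N : Finset (Fin 3) → ℝ} {S : Finset (Finset (Fin 3))}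
  {v : ℕ → Finset (Fin 3) → X → (Fin 3 → β) → Pt (Fin 3) X β φ} {dg : ℕ → X → ℝ} {prr : ℕ → Fin 3 → φ → φ} {T : ℕ}
  {Lam : ℝ}

theorem ce_cls {Om κ : Type*} [Fintype Om] (P : FP Om) (Z : Om → κ) (f : Om → ℝ) {w : Om} {M a b : ℝ} (hM : 0 < M)
    (h1 : P.E (fun u => ind (Z u = Z w) * f u) = M * a) (h2 : P.m Z w = M * b) : P.ce Z f w = a / b := by
  unfold FP.ce
  rw [h1, h2]
  exact mul_div_mul_left _ _ hM.ne'

variable (v) in
/-- the class of the exact vertex `i` -/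
def Xc (D : HD (Fin 3) X β γ φ) (q : ℕ) (i : Fin 3) (w : Pt (Fin 3) X β φ) := (XLq v q i w, NPq D v q w)

/-- **THE ROW OF A PAIR** : the letter of `d` given the top `d`, and given the exact vertex `i` -/
theorem pair_ce (H : D.Hyp dg prr al T Lam) (R : Run h N S (AdmDep D) v) (hS : ∀ l, univ.erase l ∈ S) (hu : univ ∉ S)
    (hN : ∀ l, 0 < N (univ.erase l)) {t q : ℕ} (ht : t ≤ T) (hq : 5 * t ≤ q) {i k d : Fin 3} (hik : i ≠ k) (hid : i ≠ d)
    (hkd : k ≠ d) (hsd : nc q {d} ≤ nc q ∅) {Bk : Pt (Fin 3) X β φ → Prop} (hB : Fac (ZbQ D v q k) Bk)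
    {w : Pt (Fin 3) X β φ} (hw : (D.P h t).p w ≠ 0) {κ B p0 : ℝ} (hB0 : 0 ≤ B) (hp0 : 0 < p0)
    (hE : ∀ E : X → Prop, dvC D v (nc q ∅) (nn q) w d E ≤ κ * (muC D v (nc q ∅) (nn q) w).Pr E + B)
    (hpr : p0 ≤ (muC D v (nc q ∅) (nn q) w).Pr (K0 v q d w)) :
    (D.P h t).ce (fun u => (FQ v t d u, ZbQ D v q d u)) (fun u => ind (Bk u)) w ≤
      (D.P h t).ce (Xc v D q i) (fun u => ind (Bk u)) w + (2 * κ + B / (al * p0) + B / p0) := by
  classical
  have : Nonempty φ := ⟨w.2.2 0⟩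
  set P := D.P h t with hP
  set s := nc q ∅ with hs
  set n := nn q with hn
  set μ := muC D v s n w with hμ
  set ν := nuC D n w d with hν
  have hv := R.codes
  have htn : t ≤ n := by
    have := nn_mono hq
    rwa [nn_0] at this
  set F0 := w.2.2 d with hF0
  have hlab : ∀ u, P.p u ≠ 0 → ZbQ D v q d u = ZbQ D v q d w → (FQ v t d u = FQ v t d w ↔ u.2.2 d = F0) :=
    fun u hu' hz => top_name H R hS hu hN ht hq hu' hw hz
  -- weights
  set g1 : X → ℝ := fun x' => ind (K1 v q i w x') with hg1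
  set g2 : X → ℝ := fun x' => ind (K0 v q d w x') * D.kf t d x' w.2.1 F0 with hg2
  have g10 : ∀ x', 0 ≤ g1 x' := fun x' => ind_nonneg _
  have g11 : ∀ x', g1 x' ≤ 1 := fun x' => ind_le_one _
  have g20 : ∀ x', 0 ≤ g2 x' := fun x' => mul_nonneg (ind_nonneg _) (h.nn _ _ _ _ _)
  have g21 : ∀ x', g2 x' ≤ 1 := fun x' =>
    mul_le_one₀ (ind_le_one _) (h.nn _ _ _ _ _) (kf_le_one h t d x' w.2.1 F0)
  have k1 := dvW_le hE g10 g11
  have k2 := dvW_le hE g20 g21
  have hkf : D.kf t d w.1 w.2.1 F0 ≠ 0 := by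
    have h4 : (∏ l, D.kf t l w.1 w.2.1 (w.2.2 l)) /
      (Fintype.card X * (Fintype.card β : ℝ) ^ Fintype.card (Fin 3)) ≠ 0 := hw
    exact Finset.prod_ne_zero_iff.1 (div_ne_zero_iff.1 h4).1 d (mem_univ d)
  have hc1 : p0 ≤ μ.E g1 := hpr.trans (FP.Pr_mono _ fun x' _ hh => K1_of hid hh)
  have hc2 : al * p0 ≤ μ.E g2 := by
    refine (mul_le_mul_of_nonneg_left hpr h.pos.le).trans ?_
    unfold FP.Pr
    rw [← FP.E_smul]
    refine FP.E_mono _ fun x' hx' => ?_
    by_cases hk : K0 v q d w x'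
    · simp only [hg2]
      rw [ind_of hk, mul_one, one_mul]
      have h1 : cX D v s n w x' := (cond_supp (P := FP.unif X) (A := cX D v s n w) (unif_ne (cX_self s n w)) hx').1
      exact h.thick t d w.1 x' w.2.1 F0 (qa_mono D htn h1.2.symm) hkf
    · simp only [hg2]
      rw [ind_not hk, mul_zero, zero_mul]
  have hc1p : 0 < μ.E g1 := hp0.trans_le hc1
  have hc2p : 0 < μ.E g2 := (mul_pos h.pos hp0).trans_le hc2
  have hM := Mz_pos (D := D) (v := v) q d w
  -- the letters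
  set f := fB D v q i d Bk w with hf
  have hf1 : ∀ z, |f z| ≤ 1 := fun z => by
    simp only [hf]
    unfold fB
    rw [abs_of_nonneg (ind_nonneg _)]
    exact ind_le_one _
  set G : X → β → ℝ := fun x' b => ind (Bk (upc w d x' b)) with hG
  set Ψ : X → β → ℝ := fun x' b => f (b, code v s w d x' b) with hΨ
  have hGΨ : ∀ x', μ.p x' ≠ 0 → K1 v q i w x' → ν.E (G x') = ν.E (Ψ x') := by
    intro x' hx' hk
    have h1 : cX D v s n w x' := (cond_supp (P := FP.unif X) (A := cX D v s n w) (unif_ne (cX_self s n w)) hx').1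
    refine ν.E_congr fun b hb => ?_
    have h2 : cY D n w d b := (cond_supp (P := FP.unif β) (A := cY D n w d) (unif_ne (cY_self n w d)) hb).1
    exact fB_eq hv hik hid hkd hsd hB w h1 hk h2
  -- the class of the top
  have n2 : P.ce (fun u => (FQ v t d u, ZbQ D v q d u)) (fun u => ind (Bk u)) w =
      μ.E (fun x' => g2 x' * ν.E (Ψ x')) / μ.E g2 := by
    refine ce_cls P (fun u => (FQ v t d u, ZbQ D v q d u)) (fun u => ind (Bk u)) hM ?_ ?_
    · have h1 := cls_lab (h := h) hv htn w d G F0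
      have h3 : μ.E (fun x' => g2 x' * ν.E (Ψ x')) =
          μ.E (fun x' => ind (K0 v q d w x') * (D.kf t d x' w.2.1 F0 * ν.E (G x'))) := by
        refine FP.E_congr _ fun x' hx' => ?_
        simp only [hg2]
        by_cases hk : K0 v q d w x'
        · rw [hGΨ x' hx' (K1_of hid hk)]; ring
        · rw [ind_not hk]; ring
      rw [h3, ← h1]
      refine P.E_congr fun u hu' => ?_
      have e0 : ind ((FQ v t d u, ZbQ D v q d u) = (FQ v t d w, ZbQ D v q d w)) =
          ind (ZbQ D v q d u = ZbQ D v q d w) * ind (FQ v t d u = FQ v t d w) := by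
        rw [← ind_and]
        exact ind_cg (by rw [Prod.mk.injEq]; exact and_comm)
      rw [e0]
      by_cases hz : ZbQ D v q d u = ZbQ D v q d w
      · rw [ind_cg (hlab u hu' hz)]
        have hN := ((Zb_iff hv q d w u).1 hz).1
        have hy : u.2.1 i = w.2.1 i := (Zb_pts hz).1 i hid
        have e1 : Bk u = Bk (upc w d u.1 (u.2.1 d)) := hB _ _ (Zb_up hv hik hid hkd hN hy)
        simp only [hG]
        rw [e1]; ring
      · rw [ind_not hz]; ring
    · have h1 := cls_lab (h := h) hv htn w d (fun _ _ => 1) F0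
      simp only [FP.E_const, mul_one] at h1
      show P.m _ w = Mz D v q d w * μ.E g2
      rw [← h1]
      unfold FP.m
      refine P.E_congr fun u hu' => ?_
      have e0 : ind ((FQ v t d u, ZbQ D v q d u) = (FQ v t d w, ZbQ D v q d w)) =
          ind (ZbQ D v q d u = ZbQ D v q d w) * ind (FQ v t d u = FQ v t d w) := by
        rw [← ind_and]
        exact ind_cg (by rw [Prod.mk.injEq]; exact and_comm)
      rw [e0]
      by_cases hz : ZbQ D v q d u = ZbQ D v q d w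
      · rw [ind_cg (hlab u hu' hz)]
      · rw [ind_not hz]; ring
  -- the class of the exact vertex
  set Mi := ((FP.unif X).Pr (cX D v s n w) * ∏ j, (FP.unif β).Pr (cY D n w j)) * mC D n w i (w.2.1 i) with hMi
  have hMip : 0 < Mi := by
    refine mul_pos (mul_pos ?_ ?_) (nuC_p_nonneg n w i)
    · exact lt_of_le_of_ne (FP.Pr_nonneg _ _) (Ne.symm (unif_ne (cX_self _ _ w)))
    · exact Finset.prod_pos fun j _ => lt_of_le_of_ne (FP.Pr_nonneg _ _) (Ne.symm (unif_ne (cY_self _ w j)))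
  have n1 : P.ce (Xc v D q i) (fun u => ind (Bk u)) w = μ.E (fun x' => g1 x' * ν.E (Ψ x')) / μ.E g1 := by
    refine ce_cls P (Xc v D q i) (fun u => ind (Bk u)) hMip ?_ ?_
    · have h1 := cell_H (h := h) hv t (nc_le q ∅) w hid (fun x' b => ind (K1 v q i w x') * G x' b)
      simp only [FP.E_smul] at h1
      have h3 : μ.E (fun x' => g1 x' * ν.E (Ψ x')) = μ.E (fun x' => ind (K1 v q i w x') * ν.E (G x')) := by
        refine FP.E_congr _ fun x' hx' => ?_
        simp only [hg1]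
        by_cases hk : K1 v q i w x'
        · rw [hGΨ x' hx' hk]
        · rw [ind_not hk]; ring
      rw [h3]
      refine Eq.trans ?_ h1
      refine P.E_congr fun u _ => ?_
      have e0 : ind (Xc v D q i u = Xc v D q i w) = ind (NP D v (nc q ∅) (nn q) u = NP D v (nc q ∅) (nn q) w) *
          (ind (u.2.1 i = w.2.1 i) * ind (K1 v q i w u.1)) := by
        rw [← ind_and, ← ind_and]
        exact ind_cg (cls_iff hv q i w u)
      rw [e0]
      by_cases hN : NP D v (nc q ∅) (nn q) u = NP D v (nc q ∅) (nn q) w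
      · by_cases hy : u.2.1 i = w.2.1 i
        · have e1 : Bk u = Bk (upc w d u.1 (u.2.1 d)) := hB _ _ (Zb_up hv hik hid hkd hN hy)
          simp only [hG]
          rw [e1]; ring
        · rw [ind_not hy]; ring
      · rw [ind_not hN, zero_mul, zero_mul, zero_mul]
    · have h1 := cell_H (h := h) hv t (nc_le q ∅) w hid (fun x' _ => ind (K1 v q i w x'))
      simp only [FP.E_const] at h1
      refine Eq.trans ?_ h1
      unfold FP.m
      refine P.E_congr fun u _ => ?_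
      have e0 : ind (Xc v D q i u = Xc v D q i w) = ind (NP D v (nc q ∅) (nn q) u = NP D v (nc q ∅) (nn q) w) *
          (ind (u.2.1 i = w.2.1 i) * ind (K1 v q i w u.1)) := by
        rw [← ind_and, ← ind_and]
        exact ind_cg (cls_iff hv q i w u)
      exact e0
  have t1 := dvW_test (D := D) (v := v) s n w d g1 hf1
  have t2 := dvW_test (D := D) (v := v) s n w d g2 hf1
  set cc := μ.E (fun x' => ν.E (fun b => f (b, code v s w d x' b))) with hcc
  set a1 := μ.E (fun x' => g1 x' * ν.E (Ψ x')) with ha1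
  set a2 := μ.E (fun x' => g2 x' * ν.E (Ψ x')) with ha2
  set e1 := μ.E g1 with he1
  set e2 := μ.E g2 with he2
  have u1 : |a1 - e1 * cc| ≤ κ * e1 + B := t1.trans k1
  have u2 : |a2 - e2 * cc| ≤ κ * e2 + B := t2.trans k2
  rw [n1, n2]
  have v1 := (abs_le.1 u1).1
  have v2 := (abs_le.1 u2).2
  have w1 : B / e1 ≤ B / p0 := div_le_div_of_nonneg_left hB0 hp0 hc1
  have w2 : B / e2 ≤ B / (al * p0) := div_le_div_of_nonneg_left hB0 (mul_pos h.pos hp0) hc2
  have y1 : cc - κ - B / e1 ≤ a1 / e1 := by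
    rw [le_div_iff₀ hc1p]
    have : B / e1 * e1 = B := div_mul_cancel₀ B hc1p.ne'
    nlinarith
  have y2 : a2 / e2 ≤ cc + κ + B / e2 := by
    rw [div_le_iff₀ hc2p]
    have : B / e2 * e2 = B := div_mul_cancel₀ B hc2p.ne'
    nlinarith
  linarith

/-- what the top `d ≠ i` sees contains the class of the exact vertex `i` -/
theorem Zb_Xc (hv : Codes D v) {q : ℕ} {i d : Fin 3} (hid : i ≠ d) : Fac (ZbQ (φ := φ) D v q d) (Xc v D q i) := by
  intro a b hab
  obtain ⟨h1, h2, h3⟩ := (Zb_iff hv q d b a).1 hab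
  exact (cls_iff hv q i b a).2 ⟨h1, h2 i hid, h3 i hid⟩

theorem ce_ind_pos {Om κ : Type*} [Fintype Om] (P : FP Om) (Z : Om → κ) (A : Om → Prop) {w : Om} (hw : P.p w ≠ 0)
    (hA : A w) : 0 < P.ce Z (fun u => ind (A u)) w := by
  have hp : 0 < P.p w := lt_of_le_of_ne (P.nn w) (Ne.symm hw)
  unfold FP.ce
  refine div_pos (lt_of_lt_of_le hp ?_) (P.m_pos Z hw)
  unfold FP.E
  refine le_trans (le_of_eq ?_) (Finset.single_le_sum (f := fun u => P.p u * (ind (Z u = Z w) * ind (A u)))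
    (fun u _ => mul_nonneg (P.nn u) (mul_nonneg (ind_nonneg _) (ind_nonneg _))) (mem_univ w))
  rw [ind_of rfl, ind_of hA, mul_one, mul_one]

/-- thickness of an event of a top -/
theorem thick_ev (H : D.Hyp dg prr al T Lam) (R : Run h N S (AdmDep D) v) (hS : ∀ l, univ.erase l ∈ S) (hu : univ ∉ S)
    (hN : ∀ l, 0 < N (univ.erase l)) {t q : ℕ} (ht : t ≤ T) (hq : 5 * t ≤ q) (k : Fin 3) {Ak : Pt (Fin 3) X β φ → Prop}
    (fA : Fac (fun u => (FQ v t k u, ZbQ D v q k u)) Ak) {w : Pt (Fin 3) X β φ} (hw : (D.P h t).p w ≠ 0) :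
    al * ind (0 < (D.P h t).ce (ZbQ D v q k) (fun u => ind (Ak u)) w) ≤
      (D.P h t).ce (ZbQ D v q k) (fun u => ind (Ak u)) w := by
  classical
  set P := D.P h t with hP
  by_cases hB : 0 < P.ce (ZbQ D v q k) (fun u => ind (Ak u)) w
  · rw [ind_of hB, mul_one]
    have hex : ∃ u, P.p u ≠ 0 ∧ ZbQ D v q k u = ZbQ D v q k w ∧ Ak u := by
      by_contra hcon
      push Not at hcon
      have e1 : P.ce (ZbQ D v q k) (fun u => ind (Ak u)) w = 0 := by
        unfold FP.ce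
        have e2 : P.E (fun u => ind (ZbQ D v q k u = ZbQ D v q k w) * ind (Ak u)) = 0 := by
          refine (P.E_congr fun u hu' => ?_).trans (P.E_const 0)
          by_cases hz : ZbQ D v q k u = ZbQ D v q k w
          · rw [ind_not (hcon u hu' hz), mul_zero]
          · rw [ind_not hz, zero_mul]
        rw [e2, zero_div]
      linarith
    obtain ⟨u, hu', hz, hA⟩ := hex
    have h1 := Zb_thick H R hS hu hN ht hq k hu'
    have h2 : P.m (fun u => (FQ v t k u, ZbQ D v q k u)) u ≤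
        P.E (fun u' => ind (ZbQ D v q k u' = ZbQ D v q k w) * ind (Ak u')) := by
      unfold FP.m
      refine P.E_mono fun u' _ => ?_
      rw [← ind_and]
      refine ind_mono fun hh => ?_
      exact ⟨(Prod.mk.inj hh).2.trans hz, (iff_of_eq (fA u' u hh)).2 hA⟩
    have h3 : P.m (ZbQ D v q k) u = P.m (ZbQ D v q k) w := P.Fac_m (ZbQ D v q k) u w hz
    unfold FP.ce
    rw [le_div_iff₀ (P.m_pos _ hw), ← h3]
    exact h1.trans h2
  · rw [ind_not hB, mul_zero]
    exact P.ce_nonneg (fun _ _ => ind_nonneg _) w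

/-- **TWO ACTIVE TOPS OVER THE EXACT VERTEX `i`**, the class of `i` has small active mass -/
theorem pair_two (H : D.Hyp dg prr al T Lam) (R : Run h N S (AdmDep D) v) (hS : ∀ l, univ.erase l ∈ S) (hu : univ ∉ S)
    (hN : ∀ l, 0 < N (univ.erase l)) {t q : ℕ} (ht : t ≤ T) (hq : 5 * t ≤ q) {i k d : Fin 3} (hik : i ≠ k) (hid : i ≠ d)
    (hkd : k ≠ d) (hsd : nc q {d} ≤ nc q ∅) {Ad Ak Al : Pt (Fin 3) X β φ → Prop}
    (fd : Fac (fun u => (FQ v t d u, ZbQ D v q d u)) Ad) (fk : Fac (fun u => (FQ v t k u, ZbQ D v q k u)) Ak)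
    (fAl : Fac (ZbQ D v q d) Al) {κ B p0 G : ℝ} (hB0 : 0 ≤ B) (hp0 : 0 < p0)
    (hAl : ∀ w, (D.P h t).p w ≠ 0 → Al w → (∀ E : X → Prop, dvC D v (nc q ∅) (nn q) w d E ≤
      κ * (muC D v (nc q ∅) (nn q) w).Pr E + B) ∧ p0 ≤ (muC D v (nc q ∅) (nn q) w).Pr (K0 v q d w)) :
    (D.P h t).Pr (fun w => Al w ∧ Ad w ∧ Ak w ∧ (D.P h t).ce (Xc v D q i) (fun u => ind (Ak u)) w ≤ G) ≤
      (G / al + (2 * κ + B / (al * p0) + B / p0)) * (D.P h t).Pr (fun w => Al w ∧ Ad w ∧
        (D.P h t).ce (Xc v D q i) (fun u => ind (Ak u)) w ≤ G) := by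
  classical
  set P := D.P h t with hP
  set Bk : Pt (Fin 3) X β φ → Prop := fun u => 0 < P.ce (ZbQ D v q k) (fun u => ind (Ak u)) u with hBk
  have fB : Fac (ZbQ D v q k) Bk := fun a b hab => by
    show (0 < _) = (0 < _)
    rw [P.ce_fac (ZbQ D v q k) (fun u => ind (Ak u)) a b hab]
  set Sx : Pt (Fin 3) X β φ → Prop := fun w => Al w ∧ Ad w ∧ P.ce (Xc v D q i) (fun u => ind (Ak u)) w ≤ G with hSx
  have hv := R.codes
  have fS : Fac (fun u => (FQ v t d u, ZbQ D v q d u)) Sx := fun a b hab => by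
    have hz : ZbQ D v q d a = ZbQ D v q d b := (Prod.mk.inj hab).2
    show (Al a ∧ Ad a ∧ _) = (Al b ∧ Ad b ∧ _)
    rw [show Al a = Al b from fAl a b hz, show Ad a = Ad b from fd a b hab,
      P.ce_fac (Xc v D q i) (fun u => ind (Ak u)) a b (Zb_Xc hv hid a b hz)]
  have fI : Fac (fun u => (FQ v t d u, ZbQ D v q d u)) (fun w => ind (Sx w)) := fS.comp fun q => ind q
  have hpos : ∀ w, P.p w ≠ 0 → Ak w → Bk w := fun w hw hA => ce_ind_pos P (ZbQ D v q k) Ak hw hA
  have h1 : P.Pr (fun w => Al w ∧ Ad w ∧ Ak w ∧ P.ce (Xc v D q i) (fun u => ind (Ak u)) w ≤ G) ≤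
      P.E (fun w => ind (Sx w) * ind (Bk w)) := by
    unfold FP.Pr
    refine P.E_mono fun w hw => ?_
    rw [← ind_and]
    exact ind_mono fun hh => ⟨⟨hh.1, hh.2.1, hh.2.2.2⟩, hpos w hw hh.2.2.1⟩
  refine h1.trans ?_
  rw [← FP.E_mul_ce P fI (fun w => ind (Bk w))]
  unfold FP.Pr
  rw [← P.E_smul]
  refine P.E_mono fun w hw => ?_
  by_cases hs : Sx w
  · rw [ind_of hs, one_mul, mul_one]
    obtain ⟨a1, a2⟩ := hAl w hw hs.1
    have h2 := pair_ce H R hS hu hN ht hq hik hid hkd hsd fB hw hB0 hp0 a1 a2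
    have h3 : P.ce (Xc v D q i) (fun u => ind (Bk u)) w ≤ G / al := by
      rw [le_div_iff₀ h.pos, mul_comm]
      have h4 : al * P.ce (Xc v D q i) (fun u => ind (Bk u)) w ≤ P.ce (Xc v D q i) (fun u => ind (Ak u)) w := by
        rw [← P.ce_smul, ← P.ce_tower (Zb_Xc hv hik) (fun u => ind (Ak u)) w]
        exact P.ce_mono (fun u hu' => thick_ev H R hS hu hN ht hq k fk hu') w
      exact h4.trans hs.2.2
    linarith
  · rw [ind_not hs, zero_mul, mul_zero]

/-! ### the saturated state `5 t + 5` -/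

/-- a pair of letters which is alive at the state `5 t + 5` -/
theorem al_row (R : Run h N S (AdmDep D) v) (hN : ∀ J ∈ S, 0 ≤ N J) (h0 : ∅ ∈ S)
    (hS1 : ∀ i : Fin 3, {i} ∈ S) (hN0 : N ∅ = 1) {N1 : ℝ} (hN1 : ∀ i : Fin 3, N1 ≤ N {i}) (hN1p : 0 < N1) {t : ℕ}
    {i k d : Fin 3} (hik : i ≠ k) (hid : i ≠ d) (hkd : k ≠ d) {w : Pt (Fin 3) X β φ}
    {X1 : ℝ} (a : ℝ) (hsp : spQ h v (5 * t + 5) i k w ≤ X1) :
    (∀ E : X → Prop, dvC D v (nc (5 * t + 5) ∅) (nn (5 * t + 5)) w d E ≤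
      Real.sqrt (4 * (a + 1) / N1) * (muC D v (nc (5 * t + 5) ∅) (nn (5 * t + 5)) w).Pr E + 2 * Real.exp (-a)) ∧
    Real.exp (-X1) ≤ (muC D v (nc (5 * t + 5) ∅) (nn (5 * t + 5)) w).Pr (K0 v (5 * t + 5) d w) := by
  have hv := R.codes
  have e1 : nc (5 * t + 5) ∅ = t + 2 := nc_emp t (by omega) le_rfl
  have e2 : nn (5 * t + 5) = t + 1 := nn_j t (by omega) le_rfl
  obtain ⟨F', hF'⟩ : ∃ F' : Fin 3 → φ, ∀ l, D.kf (t + 1) l w.1 w.2.1 (F' l) ≠ 0 := by
    have h1 : ∀ l : Fin 3, ∃ F : φ, D.kf (t + 1) l w.1 w.2.1 F ≠ 0 := by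
      intro l
      by_contra hcon
      push Not at hcon
      have h2 := h.one (t + 1) l w.1 w.2.1
      rw [Finset.sum_eq_zero fun F _ => hcon F] at h2
      exact absurd h2 (by norm_num)
    choose F' hF' using h1
    exact ⟨F', hF'⟩
  have hc : (D.P h (t + 1)).p (w.1, w.2.1, F') ≠ 0 := by
    show (∏ l, D.kf (t + 1) l w.1 w.2.1 (F' l)) /
      (Fintype.card X * (Fintype.card β : ℝ) ^ Fintype.card (Fin 3)) ≠ 0
    refine div_ne_zero (Finset.prod_ne_zero_iff.2 fun l _ => hF' l) (mul_ne_zero ?_ (pow_ne_zero _ ?_))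
    · exact_mod_cast Fintype.card_ne_zero
    · exact_mod_cast Fintype.card_ne_zero
  constructor
  · intro E
    rw [e1, e2]
    have h1 := dvC_all R hN h0 hS1 hN0 hN1 hN1p (t + 1) hc d a E
    exact h1
  · have h1 := K0_mass (h := h) hv (t := t + 1) (q := 5 * t + 5) (by omega) hik hid hkd hc
    have h2 : spQ h v (5 * t + 5) i k (w.1, w.2.1, F') = spQ h v (5 * t + 5) i k w := rfl
    rw [h2] at h1
    refine (Real.exp_le_exp.2 (neg_le_neg hsp)).trans (le_of_eq ?_)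
    exact h1

/-- the constant -/
def cQ (al G N1 X1 a : ℝ) : ℝ :=
  G / al + (2 * Real.sqrt (4 * (a + 1) / N1) + 2 * Real.exp (-a) / (al * Real.exp (-X1)) + 2 * Real.exp (-a) / Real.exp (-X1))

variable (h v) in
/-- the top `j` is active in the joint private step -/
def acP (e : ℝ) (t : ℕ) (j : Fin 3) (w : Pt (Fin 3) X β φ) : Prop := e < |rS h v 5 t j w (FQ v t j w) - 1|

theorem acP_fac (e : ℝ) (t : ℕ) (j : Fin 3) : Fac (fun u => (FQ v t j u, ZbQ D v (5 * t + 5) j u)) (acP h v e t j) := by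
  intro a b hab
  obtain ⟨f1, f2⟩ := Prod.mk.inj hab
  have f2' : ZbQ D v (qe 5 t) j a = ZbQ D v (qe 5 t) j b := f2
  have f3 : ZbQ D v (qs 5 t) j a = ZbQ D v (qs 5 t) j b := ZbQ_mono (qs_le_qe 5 t) j _ _ f2'
  have e0 : rS h v 5 t j a (FQ v t j a) = rS h v 5 t j b (FQ v t j b) := by
    unfold rS
    rw [f1, f2']
    exact rr_fac (D.P h t) (ZbQ D v (qs 5 t) j) (FQ v t j) (ZbQ D v (qe 5 t) j) _ _ _ _ f3
  unfold acP
  rw [e0]

/-- **QUIET PAIRS, ONE STEP** -/
theorem quiet_pt (H : D.Hyp dg prr al T Lam) (R : Run h N S (AdmDep D) v) (hN : ∀ J ∈ S, 0 ≤ N J) (h0 : ∅ ∈ S)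
    (hS1 : ∀ i : Fin 3, {i} ∈ S) (hN0 : N ∅ = 1) {N1 : ℝ} (hN1 : ∀ i : Fin 3, N1 ≤ N {i}) (hN1p : 0 < N1)
    (hS : ∀ l, univ.erase l ∈ S) (hu : univ ∉ S) (hN2 : ∀ l, 0 < N (univ.erase l)) {t : ℕ} (ht : t ≤ T)
    {i k d : Fin 3} (hik : i ≠ k) (hid : i ≠ d) (hkd : k ≠ d) (e X1 a G : ℝ) :
    (D.P h t).Pr (fun w => spQ h v (5 * t + 5) i k w ≤ X1 ∧ acP h v e t d w ∧ acP h v e t k w ∧
      (D.P h t).ce (Xc v D (5 * t + 5) i) (fun u => ind (acP h v e t k u)) w ≤ G) ≤
      cQ al G N1 X1 a * (D.P h t).Pr (fun w => spQ h v (5 * t + 5) i k w ≤ X1 ∧ acP h v e t d w ∧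
        (D.P h t).ce (Xc v D (5 * t + 5) i) (fun u => ind (acP h v e t k u)) w ≤ G) := by
  have hv := R.codes
  have hsd : nc (5 * t + 5) {d} ≤ nc (5 * t + 5) ∅ := by
    rw [nc_emp t (by omega) le_rfl]
    exact nc_le2 t le_rfl (pth_sing d)
  have fAl : Fac (ZbQ (φ := φ) D v (5 * t + 5) d) (fun w => spQ h v (5 * t + 5) i k w ≤ X1) := by
    intro u c hz
    obtain ⟨b1, b2, b3⟩ := (Zb_iff hv (5 * t + 5) d c u).1 hz
    have x1 := (cls_iff hv (5 * t + 5) i c u).2 ⟨b1, b2 i hid, b3 i hid⟩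
    have x2 := (cls_iff hv (5 * t + 5) k c u).2 ⟨b1, b2 k hkd, b3 k hkd⟩
    obtain ⟨x3, x4⟩ := Prod.mk.inj x1
    obtain ⟨x5, _⟩ := Prod.mk.inj x2
    have e1 : (u.2.1 i, u.2.1 k, NPq D v (5 * t + 5) u) = (c.2.1 i, c.2.1 k, NPq D v (5 * t + 5) c) := by
      rw [b2 i hid, b2 k hkd, x4]
    have e2 : ((XLq v (5 * t + 5) i u, XLq v (5 * t + 5) k u), (u.2.1 i, u.2.1 k, NPq D v (5 * t + 5) u)) =
        ((XLq v (5 * t + 5) i c, XLq v (5 * t + 5) k c), (c.2.1 i, c.2.1 k, NPq D v (5 * t + 5) c)) := by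
      rw [x3, x5, e1]
    have e3 : spQ h v (5 * t + 5) i k u = spQ h v (5 * t + 5) i k c := by
      unfold spQ sp
      rw [(D.P h ((5 * t + 5) / 5)).Fac_m (fun u => (u.2.1 i, u.2.1 k, NPq D v (5 * t + 5) u)) u c e1,
        (D.P h ((5 * t + 5) / 5)).Fac_m (fun u => ((XLq v (5 * t + 5) i u, XLq v (5 * t + 5) k u),
          (u.2.1 i, u.2.1 k, NPq D v (5 * t + 5) u))) u c e2]
    show (spQ h v (5 * t + 5) i k u ≤ X1) = (spQ h v (5 * t + 5) i k c ≤ X1)
    rw [e3]
  have key := pair_two H R hS hu hN2 ht (show 5 * t ≤ 5 * t + 5 by omega) hik hid hkd hsd (acP_fac (h := h) (v := v) e t d)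
    (acP_fac (h := h) (v := v) e t k) fAl (κ := Real.sqrt (4 * (a + 1) / N1)) (B := 2 * Real.exp (-a))
    (p0 := Real.exp (-X1)) (G := G) (by positivity) (Real.exp_pos _)
    (fun w _ hal => al_row R hN h0 hS1 hN0 hN1 hN1p hik hid hkd a hal)
  exact key

theorem cQ_nn {N1 X1 a G : ℝ} (hG : 0 ≤ G) (hal : 0 < al) : 0 ≤ cQ al G N1 X1 a := by
  unfold cQ
  positivity

end row

/-! ### table space -/

section tab

open Pool.Agent.GMH.TD Pool.Agent.GMH.Dy Pool.Agent.GMH.MV Pool.Agent.GMH.MVI Pool.Agent.GMH.TRF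

variable {X β γ φ : Type} [Fintype X] [Fintype β] [Fintype φ] [Nonempty X] [Nonempty β]
variable {D : HD (Fin 3) X β γ φ} {al : ℝ} {h : D.Thick al} {prr : ℕ → Fin 3 → φ → φ} {T : ℕ} {W : Type} [Fintype W]
variable (tb : Tab D prr T W) {v : ℕ → Finset (Fin 3) → X → (Fin 3 → β) → Pt (Fin 3) X β φ}

theorem acO_P {e : ℝ} {j : Fin 3} {t : ℕ} (w : Om W X β) :
    acO h tb v e j (5 * t + 4) w ↔ acP h v e t j (tb.pt t w) := by
  have hd : (5 * t + 4) / 5 = t := by omega
  unfold acO acP rtO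
  rw [hd, sO_v4 (by omega)]
  exact ⟨fun hh => hh.2, fun hh => ⟨by omega, hh⟩⟩

/-- the class of the exact vertex on the table space -/
theorem ce_Xc {t : ℕ} (ht : t ≤ T) (q : ℕ) (i : Fin 3) (A : Pt (Fin 3) X β φ → Prop) (w : Om W X β) :
    tb.Ps.ce (fun u => (XLo tb v i q u, NPo tb v q u)) (fun u => ind (A (tb.pt t u))) w =
      (D.P h t).ce (Xc v D q i) (fun u => ind (A u)) (tb.pt t w) := by
  have hP := pul_pt h tb ht
  have e1 : ∀ u : Om W X β, (XLo tb v i q u, NPo tb v q u) = Xc v D q i (tb.pt t u) := fun u => rfl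
  unfold FP.ce
  simp only [e1]
  rw [← hP.m (Xc v D q i) w, ← hP.E (fun u => ind (Xc v D q i u = Xc v D q i (tb.pt t w)) * ind (A u))]

theorem pr3_e (n N1 : ℝ) : pr3 (Fin 3) n N1 ∅ = 1 := by
  unfold pr3
  simp

theorem pr3_v (n N1 : ℝ) (b : Fin 3) : pr3 (Fin 3) n N1 {b} = N1 := by
  unfold pr3
  simp

/-- **QUIET PAIRS, SUM OVER THE RUN** -/
theorem quiet_sum {dg : ℕ → X → ℝ} {Lam : ℝ} (H : D.Hyp dg prr al T Lam) {n N1 : ℝ}
    (R : Run h (pr3 (Fin 3) n N1) (SS1 (Fin 3)) (AdmDep D) v) (hn : 1 ≤ n) (hN1 : 1 ≤ N1) {i k d : Fin 3} (hik : i ≠ k)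
    (hid : i ≠ d) (hkd : k ≠ d) {e : ℝ} (he : 0 < e) (he1 : e ≤ 1) (X1 a : ℝ) {G : ℝ} (hG : 0 ≤ G) :
    ∑ q ∈ range (5 * T), tb.Ps.Pr (fun w => q % 5 = 4 ∧ spQ h v (q + 1) i k (tb.pt (q / 5) w) ≤ X1 ∧
      acO h tb v e d q w ∧ acO h tb v e k q w ∧
      tb.Ps.ce (fun u => (XLo tb v i (q + 1) u, NPo tb v (q + 1) u)) (fun u => ind (acO h tb v e k q u)) w ≤ G) ≤
    cQ al G N1 X1 a * (240 * Lam / e ^ 2) := by
  classical
  have hc := cQ_nn (N1 := N1) (X1 := X1) (a := a) hG h.pos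
  refine le_trans ?_ (mul_le_mul_of_nonneg_left (acO_sum h tb H R hn hN1 d he he1) hc)
  rw [Finset.mul_sum]
  refine Finset.sum_le_sum fun q hq => ?_
  have hq' := Finset.mem_range.1 hq
  by_cases h4 : q % 5 = 4
  · obtain ⟨t, rfl⟩ : ∃ t, q = 5 * t + 4 := ⟨q / 5, by omega⟩
    have hd : (5 * t + 4) / 5 = t := by omega
    have ht : t ≤ T := by omega
    have hP := pul_pt h tb ht
    have hsing : ∀ j : Fin 3, ({j} : Finset (Fin 3)) ∈ SS1 (Fin 3) := by decide
    have key := quiet_pt H R (fun J _ => zero_le_one.trans (pr3_one hn hN1 J)) (by decide) hsing (pr3_e n N1)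
      (N1 := N1) (fun j => (pr3_v n N1 j).ge) (by linarith) (by decide) (by decide)
      (fun l => zero_lt_one.trans_le (pr3_one hn hN1 _)) ht hik hid hkd e X1 a G
    have e1 : tb.Ps.Pr (fun w => (5 * t + 4) % 5 = 4 ∧ spQ h v (5 * t + 4 + 1) i k (tb.pt ((5 * t + 4) / 5) w) ≤ X1 ∧
      acO h tb v e d (5 * t + 4) w ∧ acO h tb v e k (5 * t + 4) w ∧
      tb.Ps.ce (fun u => (XLo tb v i (5 * t + 4 + 1) u, NPo tb v (5 * t + 4 + 1) u))
        (fun u => ind (acO h tb v e k (5 * t + 4) u)) w ≤ G) =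
      (D.P h t).Pr (fun w => spQ h v (5 * t + 5) i k w ≤ X1 ∧ acP h v e t d w ∧ acP h v e t k w ∧
      (D.P h t).ce (Xc v D (5 * t + 5) i) (fun u => ind (acP h v e t k u)) w ≤ G) := by
      unfold FP.Pr
      rw [← hP.E]
      refine tb.Ps.E_congr fun w _ => ind_cg ?_
      beta_reduce
      rw [acO_P tb w, acO_P tb w, hd]
      have e2 : (fun u => ind (acO h tb v e k (5 * t + 4) u)) = fun u => ind (acP h v e t k (tb.pt t u)) :=
        funext fun u => ind_cg (acO_P tb u)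
      rw [e2, ce_Xc (h := h) tb ht (5 * t + 4 + 1) i (acP h v e t k) w]
      exact ⟨fun hh => hh.2, fun hh => ⟨by omega, hh⟩⟩
    rw [e1]
    refine key.trans (mul_le_mul_of_nonneg_left ?_ hc)
    have e3 : tb.Ps.Pr (acO h tb v e d (5 * t + 4)) = (D.P h t).Pr (acP h v e t d) := by
      unfold FP.Pr
      rw [← hP.E]
      exact tb.Ps.E_congr fun w _ => ind_cg (acO_P tb w)
    rw [e3]
    exact (D.P h t).Pr_mono fun w _ hh => hh.2.1
  · have e0 : tb.Ps.Pr (fun w => q % 5 = 4 ∧ spQ h v (q + 1) i k (tb.pt (q / 5) w) ≤ X1 ∧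
      acO h tb v e d q w ∧ acO h tb v e k q w ∧
      tb.Ps.ce (fun u => (XLo tb v i (q + 1) u, NPo tb v (q + 1) u)) (fun u => ind (acO h tb v e k q u)) w ≤ G) = 0 := by
      unfold FP.Pr
      rw [← tb.Ps.E_const 0]
      exact tb.Ps.E_congr fun w _ => ind_not fun hh => h4 hh.1
    rw [e0]
    exact mul_nonneg hc (tb.Ps.Pr_nonneg _)

end tab

end

end Pool.Agent.GMH.TP.HotHv
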