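import Pool.Agent.GMH.HotE
import Pool.Agent.GMH.HotHv
import Pool.Agent.GMH.DynF

/-!
# GMH/HotHq (helper54): part (Q) of HotE : two active letters, the life of `i` goes on

* `kill_sum` : `∑ Pr (alive at q, dead at q + 1) ≤ Pr (dead at 5 T)`;
* `hq_sum` : **`∑ Pr hqO ≤ cQ (240 Lam / e ^ 2) + Pr (dead)`**; `hcl` = `HotE2.quiet_act`, `G = kb`.
-/

set_option autoImplicit false
set_option linter.unusedSectionVars false

namespace Pool.Agent.GMH.TP.HotHv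

open Finset Pool.Agent.PWZ Pool.Agent.M3 Pool.Agent.GM Pool.Agent.GM.Harm Pool.Agent.GMH Pool.Agent.GMH.NZ
open Pool.Agent.GMH.V3 Pool.Agent.GMH.TP Pool.Agent.GMH.TD Pool.Agent.GMH.Dy Pool.Agent.GMH.MV Pool.Agent.GMH.MVI
open Pool.Agent.GMH.UV Pool.Agent.GMH.TRF

noncomputable section

variable {X β γ φ : Type} [Fintype X] [Fintype β] [Fintype φ] [Nonempty X] [Nonempty β]
variable {D : HD (Fin 3) X β γ φ} {al : ℝ} {h : D.Thick al} {prr : ℕ → Fin 3 → φ → φ} {T : ℕ} {W : Type} [Fintype W]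
variable (tb : Tab D prr T W) {v : ℕ → Finset (Fin 3) → X → (Fin 3 → β) → Pt (Fin 3) X β φ}

/-- **THE FIRST DEATH** -/
theorem kill_sum (p : AP) (M : ℕ) : ∑ q ∈ range M, tb.Ps.Pr (fun w => Alv h v tb p q w ∧
    ¬ AQ h v p (q + 1) (tb.pt ((q + 1) / 5) w)) ≤ tb.Ps.Pr (fun w => ¬ Alv h v tb p M w) := by
  classical
  unfold FP.Pr
  rw [← FP.E_sum]
  refine tb.Ps.E_mono fun w _ => ?_
  by_cases hex : ∃ q ∈ range M, Alv h v tb p q w ∧ ¬ AQ h v p (q + 1) (tb.pt ((q + 1) / 5) w)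
  · obtain ⟨q, hq, h1, h2⟩ := hex
    have hqM := Finset.mem_range.1 hq
    rw [Finset.sum_eq_single q]
    · exact ind_mono fun _ hA => h2 (hA (q + 1) hqM)
    · intro r hr hne
      refine ind_not ?_
      rintro ⟨h3, h4⟩
      rcases lt_or_gt_of_ne hne with h5 | h5
      · exact h4 (h1 (r + 1) h5)
      · exact h2 (h3 (q + 1) h5)
    · intro hn; exact absurd hq hn
  · push Not at hex
    rw [Finset.sum_eq_zero fun q hq => ind_not fun hh => hh.2 (hex q hq hh.1)]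
    exact ind_nonneg _

variable {i : Fin 3} {Al Ht : ℕ → Om W X β → Prop}

/-- **PART (Q) OF HotE** -/
theorem hq_sum {dg : ℕ → X → ℝ} {Lam : ℝ} (H : D.Hyp dg prr al T Lam) {n N1 : ℝ}
    (R : Run h (pr3 (Fin 3) n N1) (SS1 (Fin 3)) (AdmDep D) v) (hn : 1 ≤ n) (hN1 : 1 ≤ N1) (hv : Codes D v)
    {d1 kb d0 k0 p1 z : ℝ} (hd1 : 0 < d1) (hd11 : d1 ≤ 1) (hkb : 0 < kb) (hd0 : 0 < d0)
    (hd01 : d0 ≤ 1) (hk0 : 0 < k0) (hp1 : 0 < p1) (hz : 0 < z) {e : ℝ} (he : 0 < e) (he1 : e ≤ 1) (p : AP) (a : ℝ)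
    {k : Fin 3} (hki : k ≠ i) (hAl : ∀ w, tb.Ps.p w ≠ 0 → ∀ q, Al q w → Alv h v tb p q w)
    (hcl : ∀ w, tb.Ps.p w ≠ 0 → ∀ q < 5 * T, q % 5 = 4 →
      UV.tv (USi tb hv d1 kb d0 k0 p1 z hd1 hd11 hkb hd0 hd01 hk0 hp1 hz) i (q + 1) w ≠ q + 1 →
      tb.Ps.ce (CN (MSi tb (v := v) d1 kb d0 k0 p1 z hd1 hd11 hkb hd0 hd01 hk0 hp1 hz) i (q + 1))
        (fun u => ind (acO h tb v e k q u)) w < kb) :
    ∑ q ∈ range (5 * T), tb.Ps.Pr (hqO h tb v i Al Ht e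
        (USi tb hv d1 kb d0 k0 p1 z hd1 hd11 hkb hd0 hd01 hk0 hp1 hz) q) ≤
      cQ al kb N1 p.X1 a * (240 * Lam / e ^ 2) + tb.Ps.Pr (fun w => ¬ Alv h v tb p (5 * T) w) := by
  classical
  obtain ⟨d, hdi, hdk⟩ : ∃ d : Fin 3, d ≠ i ∧ d ≠ k := by
    have key : ∀ i k : Fin 3, ∃ d : Fin 3, d ≠ i ∧ d ≠ k := by decide
    exact key i k
  have h1 := quiet_sum tb H R hn hN1 (i := i) (k := k) (d := d) hki.symm hdi.symm hdk.symm he he1 p.X1 a hkb.le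
  have h2 := kill_sum (h := h) (v := v) tb p (5 * T)
  refine le_trans ?_ (add_le_add h1 h2)
  rw [← Finset.sum_add_distrib]
  refine Finset.sum_le_sum fun q hq => ?_
  have hq' := Finset.mem_range.1 hq
  refine le_trans (tb.Ps.Pr_mono fun w hw hh => ?_) (tb.Ps.Pr_or_le _ _)
  obtain ⟨⟨h4, hg⟩, hA, _, hac⟩ := hh
  by_cases hQ : AQ h v p (q + 1) (tb.pt ((q + 1) / 5) w)
  · refine Or.inl ⟨h4, ?_, hac d hdi, hac k hki, (hcl w hw q hq' h4 hg).le⟩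
    have h5 := hQ.2 i k hki.symm
    exact h5
  · exact Or.inr ⟨hAl w hw q hA, hQ⟩

end

end Pool.Agent.GMH.TP.HotHv
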