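import Pool.Agent.GMH.TopActT
import Pool.Agent.GMH.TopRow

/-!
# GMH/HotI0: definitions for the inert rows of the hot potential (helper84)

`sg t q q' d` : ratio of the true letter of `d` of the state `q` under the public step from `q` to `q'` (law of the time `t`);
`gI del t q d` : public probability of `del / 2 < |sg - 1|`, seen at the state `5 t + 5`.
-/

set_option autoImplicit false

namespace Pool.Agent.GMH.TP.HotIn

open Finset Pool.Agent.PWZ Pool.Agent.M3 Pool.Agent.GM Pool.Agent.GM.Harm Pool.Agent.GMH Pool.Agent.GMH.NZ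
open Pool.Agent.GMH.V3 Pool.Agent.GMH.TP

noncomputable section

variable {X β γ φ : Type} [Fintype X] [Fintype β] [Fintype φ] [Nonempty X] [Nonempty β]
variable {D : HD (Fin 3) X β γ φ} {al : ℝ} (h : D.Thick al)
  (v : ℕ → Finset (Fin 3) → X → (Fin 3 → β) → Pt (Fin 3) X β φ)

/-- ratio of the true letter of `d` under the public step -/
def sg (t q q' : ℕ) (d : Fin 3) (w : Pt (Fin 3) X β φ) : ℝ :=
  (D.P h t).pv (NPq D v q') (XLq v q d) w (XLq v q d w) / (D.P h t).pv (NPq D v q) (XLq v q d) w (XLq v q d w)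

/-- public probability of a moving letter of `d` -/
def gI (del : ℝ) (t q : ℕ) (d : Fin 3) (w : Pt (Fin 3) X β φ) : ℝ :=
  (D.P h t).ce (NPq D v (5 * t + 5)) (fun u => ind (del / 2 < |sg h v t q (5 * t + 5) d u - 1|)) w

end

end Pool.Agent.GMH.TP.HotIn
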