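import Pool.Agent.GMH.HotHv
import Pool.Agent.GMH.HotI0

/-!
# GMH/HotIa: THE OWN RATIO OF THE MISSING THIN LETTER AT THE PUBLIC CLASS (helper54; P1 + P2 of HotIn, helper84)

Steps `s = 1` (`5t + 1 → 5t + 5`) and `s = 5` (`5t + 4 → 5t + 5`), law `D.P h t`, top `d`, `z = XLq v q d` the missing letter at
the start `q = qs s t`; `tS` = ratio of the missing letter, `sg` = the ratio of the public laws of `z` at `5t + 5` and at `q`.
* `tau_gen` : finite probability (three laws of one letter close to public laws);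
* `row_test` : test functions of the missing letter, given what the top sees, and given its label too, against the public class;
* `tau_cls_q` : `P(del < |tau - 1| | F_d, Zb_d q') ≤ P(del/2 < |sg - 1| | NPq q') + eI`, any `q = 5t+j ≤ q' = 5t+j'`;
* **`tau_cls`** : the steps `s = 1`, `s = 5`, with `gI`; `sg_five` : `sg = 1` at `s = 5`;
* **`tau_hv`** : the step `s = 2` (`5t+1 → 5t+2`) with a heavy value : `P(8 < tS | F_d, Zb_d (5t+2))` small.
-/

set_option autoImplicit false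
set_option linter.unusedSectionVars false

namespace Pool.Agent.GMH.TP.HotIn

open Finset Pool.Agent.PWZ Pool.Agent.M3 Pool.Agent.GM Pool.Agent.GM.Harm Pool.Agent.GMH Pool.Agent.GMH.NZ
open Pool.Agent.GMH.V3 Pool.Agent.GMH.TP

noncomputable section

section gen

variable {Om : Type*} [Fintype Om] (P : FP Om) {κ ι ι1 ι2 ι3 ι4 : Type*}

theorem ce_vals (W : Om → ι) (z : Om → κ) (g : κ → ℝ) (w : Om) :
    P.ce W (fun u => g (z u)) w = ∑ ζ ∈ vals z, P.pv W z w ζ * g ζ :=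
  (P.sum_pv (W := W) z (F := fun _ ζ => g ζ) (fun _ _ _ _ => rfl) w).symm

/-- letters of which the ratio of two laws is far from one -/
theorem ratio_le (W : Om → ι) (W' : Om → ι1) (z : Om → κ) (w : Om) {e δ : ℝ} (he : 0 < e)
    (ht : ∀ f : κ → ℝ, (∀ ζ, |f ζ| ≤ 1) → |P.ce W (fun u => f (z u)) w - P.ce W' (fun u => f (z u)) w| ≤ δ) :
    ∑ ζ ∈ vals z, P.pv W' z w ζ * ind (e < |P.pv W z w ζ / P.pv W' z w ζ - 1|) ≤ δ / e := by
  classical
  set f : κ → ℝ := fun ζ => ind (e < |P.pv W z w ζ / P.pv W' z w ζ - 1|) *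
    (if P.pv W' z w ζ ≤ P.pv W z w ζ then 1 else -1) with hf
  have hf1 : ∀ ζ, |f ζ| ≤ 1 := fun ζ => by
    simp only [hf]
    rw [abs_mul, abs_of_nonneg (ind_nonneg _)]
    have h1 : |(if P.pv W' z w ζ ≤ P.pv W z w ζ then (1 : ℝ) else -1)| = 1 := by split_ifs <;> simp
    rw [h1, mul_one]
    exact ind_le_one _
  have h1 := (abs_le.1 (ht f hf1)).2
  rw [ce_vals, ce_vals, ← Finset.sum_sub_distrib] at h1
  rw [le_div_iff₀ he, Finset.sum_mul]
  refine le_trans (Finset.sum_le_sum fun ζ _ => ?_) h1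
  have n1 := P.pv_nonneg W z w ζ
  have n2 := P.pv_nonneg W' z w ζ
  by_cases hr : e < |P.pv W z w ζ / P.pv W' z w ζ - 1|
  · have e1 : P.pv W z w ζ * f ζ - P.pv W' z w ζ * f ζ = |P.pv W z w ζ - P.pv W' z w ζ| := by
      simp only [hf]
      rw [ind_of hr, one_mul]
      split_ifs with hle
      · rw [abs_of_nonneg (by linarith)]; ring
      · rw [abs_of_nonpos (by linarith)]; ring
    rw [e1, ind_of hr, mul_one]
    rcases n2.eq_or_lt with h0 | h0
    · rw [← h0, zero_mul]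
      exact abs_nonneg _
    · have e2 : P.pv W z w ζ / P.pv W' z w ζ - 1 = (P.pv W z w ζ - P.pv W' z w ζ) / P.pv W' z w ζ := by
        field_simp
      rw [e2, abs_div, abs_of_pos h0, lt_div_iff₀ h0] at hr
      linarith
  · simp only [hf]
    rw [ind_not hr]
    simp

/-- **three laws of one letter** -/
theorem tau_gen (WF : Om → ι) (Wn : Om → ι1) (Wo : Om → ι2) (Cn : Om → ι3) (Co : Om → ι4) (z : Om → κ) {w : Om}
    (hw : P.p w ≠ 0) {del δx δn δo : ℝ} (hd : 0 < del) (hd1 : del ≤ 1)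
    (hac : ∀ ζ, P.pv Co z w ζ = 0 → P.pv Cn z w ζ = 0)
    (tx : ∀ f : κ → ℝ, (∀ ζ, |f ζ| ≤ 1) → |P.ce WF (fun u => f (z u)) w - P.ce Cn (fun u => f (z u)) w| ≤ δx)
    (tn : ∀ f : κ → ℝ, (∀ ζ, |f ζ| ≤ 1) → |P.ce Wn (fun u => f (z u)) w - P.ce Cn (fun u => f (z u)) w| ≤ δn)
    (tq : ∀ f : κ → ℝ, (∀ ζ, |f ζ| ≤ 1) → |P.ce Wo (fun u => f (z u)) w - P.ce Co (fun u => f (z u)) w| ≤ δo)
    {T s : Om → ℝ} (hT : ∀ u, P.p u ≠ 0 → WF u = WF w → T u = P.pv Wn z w (z u) / P.pv Wo z w (z u))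
    (hs : ∀ u, P.p u ≠ 0 → Cn u = Cn w → s u = P.pv Cn z w (z u) / P.pv Co z w (z u)) :
    P.ce WF (fun u => ind (del < |T u - 1|)) w ≤
      P.ce Cn (fun u => ind (del / 2 < |s u - 1|)) w + (δx + 8 / del * δn + 16 / del * δo) := by
  classical
  set r1 : κ → ℝ := fun ζ => P.pv Wn z w ζ / P.pv Cn z w ζ with hr1
  set r2 : κ → ℝ := fun ζ => P.pv Wo z w ζ / P.pv Co z w ζ with hr2
  set r3 : κ → ℝ := fun ζ => P.pv Cn z w ζ / P.pv Co z w ζ with hr3
  set g : κ → ℝ := fun ζ => ind (del / 2 < |r3 ζ - 1| ∨ del / 8 < |r1 ζ - 1| ∨ (del / 8 < |r2 ζ - 1| ∧ r3 ζ ≤ 2)) with hg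
  have hg1 : ∀ ζ, |g ζ| ≤ 1 := fun ζ => by
    simp only [hg]
    rw [abs_of_nonneg (ind_nonneg _)]
    exact ind_le_one _
  -- pointwise
  have h1 : P.ce WF (fun u => ind (del < |T u - 1|)) w ≤ P.ce WF (fun u => g (z u)) w := by
    unfold FP.ce
    refine div_le_div_of_nonneg_right (P.E_mono fun u hu => ?_) (P.m_nonneg _ _)
    by_cases hz : WF u = WF w
    · rw [ind_of hz, one_mul, one_mul]
      show ind (del < |T u - 1|) ≤ g (z u)
      by_cases hb : del < |T u - 1|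
      · have hh : del / 2 < |r3 (z u) - 1| ∨ del / 8 < |r1 (z u) - 1| ∨ (del / 8 < |r2 (z u) - 1| ∧ r3 (z u) ≤ 2) := by
          by_contra hno
          push Not at hno
          obtain ⟨a3, a1, a2'⟩ := hno
          have b3 := abs_le.1 a3
          have a2 : |r2 (z u) - 1| ≤ del / 8 := by
            by_contra hc
            push Not at hc
            have := a2' hc
            linarith
          have b1 := abs_le.1 a1
          have b2 := abs_le.1 a2
          have p1 : 0 < r1 (z u) := by linarith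
          have p2 : 0 < r2 (z u) := by linarith
          have p3 : 0 < r3 (z u) := by linarith
          have q1 : P.pv Cn z w (z u) ≠ 0 := fun h0 => by
            simp only [hr1, h0, div_zero] at p1
            exact lt_irrefl _ p1
          have q2 : P.pv Co z w (z u) ≠ 0 := fun h0 => by
            simp only [hr2, h0, div_zero] at p2
            exact lt_irrefl _ p2
          have q3 : P.pv Wo z w (z u) ≠ 0 := fun h0 => by
            simp only [hr2, h0, zero_div] at p2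
            exact lt_irrefl _ p2
          have eT : T u = r1 (z u) * r3 (z u) / r2 (z u) := by
            rw [hT u hu hz]
            simp only [hr1, hr2, hr3]
            field_simp
          have hle : |T u - 1| ≤ del := by
            rw [eT, abs_le]
            constructor
            · have h5 : (1 - del) * r2 (z u) ≤ r1 (z u) * r3 (z u) := by
                have h6 : (1 - del) * r2 (z u) ≤ (1 - del) * (1 + del / 8) :=
                  mul_le_mul_of_nonneg_left (by linarith) (by linarith)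
                have h7 : (1 - del / 8) * (1 - del / 2) ≤ r1 (z u) * r3 (z u) :=
                  mul_le_mul (by linarith) (by linarith) (by linarith) p1.le
                nlinarith
              have h8 : 1 - del ≤ r1 (z u) * r3 (z u) / r2 (z u) := by rwa [le_div_iff₀ p2]
              linarith
            · have h5 : r1 (z u) * r3 (z u) ≤ (1 + del) * r2 (z u) := by
                have h6 : (1 + del) * (1 - del / 8) ≤ (1 + del) * r2 (z u) :=
                  mul_le_mul_of_nonneg_left (by linarith) (by linarith)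
                have h7 : r1 (z u) * r3 (z u) ≤ (1 + del / 8) * (1 + del / 2) :=
                  mul_le_mul (by linarith) (by linarith) p3.le (by linarith)
                nlinarith
              have h8 : r1 (z u) * r3 (z u) / r2 (z u) ≤ 1 + del := by rwa [div_le_iff₀ p2]
              linarith
          linarith
        simp only [hg]
        rw [ind_of hh]
        exact ind_le_one _
      · rw [ind_not hb]
        exact ind_nonneg _
    · rw [ind_not hz, zero_mul, zero_mul]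
  have h2 := (abs_le.1 (tx g hg1)).2
  -- the public class
  have h3 : P.ce Cn (fun u => g (z u)) w ≤ P.ce Cn (fun u => ind (del / 2 < |s u - 1|)) w + (8 / del * δn + 16 / del * δo) := by
    have e1 : P.ce Cn (fun u => ind (del / 2 < |s u - 1|)) w =
        ∑ ζ ∈ vals z, P.pv Cn z w ζ * ind (del / 2 < |r3 ζ - 1|) := by
      rw [← ce_vals P Cn z (fun ζ => ind (del / 2 < |r3 ζ - 1|)) w]
      unfold FP.ce
      congr 1
      refine P.E_congr fun u hu => ?_
      by_cases hz : Cn u = Cn w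
      · show ind (Cn u = Cn w) * ind (del / 2 < |s u - 1|) = ind (Cn u = Cn w) * ind (del / 2 < |r3 (z u) - 1|)
        rw [hs u hu hz]
      · rw [ind_not hz, zero_mul, zero_mul]
    have k1 := ratio_le P Wn Cn z w (show 0 < del / 8 by linarith) tn
    have k2 := ratio_le P Wo Co z w (show 0 < del / 8 by linarith) tq
    rw [ce_vals P Cn z g w, e1]
    have k3 : ∑ ζ ∈ vals z, P.pv Cn z w ζ * g ζ ≤ ∑ ζ ∈ vals z, (P.pv Cn z w ζ * ind (del / 2 < |r3 ζ - 1|) +
        (P.pv Cn z w ζ * ind (del / 8 < |r1 ζ - 1|) + 2 * (P.pv Co z w ζ * ind (del / 8 < |r2 ζ - 1|)))) := by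
      refine Finset.sum_le_sum fun ζ _ => ?_
      have n1 := P.pv_nonneg Cn z w ζ
      have n2 := P.pv_nonneg Co z w ζ
      have m1 : 0 ≤ P.pv Cn z w ζ * ind (del / 2 < |r3 ζ - 1|) := mul_nonneg n1 (ind_nonneg _)
      have m2 : 0 ≤ P.pv Cn z w ζ * ind (del / 8 < |r1 ζ - 1|) := mul_nonneg n1 (ind_nonneg _)
      have m3 : 0 ≤ P.pv Co z w ζ * ind (del / 8 < |r2 ζ - 1|) := mul_nonneg n2 (ind_nonneg _)
      by_cases hh : del / 2 < |r3 ζ - 1| ∨ del / 8 < |r1 ζ - 1| ∨ (del / 8 < |r2 ζ - 1| ∧ r3 ζ ≤ 2)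
      · simp only [hg]
        rw [ind_of hh, mul_one]
        rcases hh with hh | hh | ⟨hh, h2'⟩
        · rw [ind_of hh, mul_one] at m1 ⊢; linarith
        · rw [ind_of hh, mul_one] at m2 ⊢; linarith
        · rw [ind_of hh, mul_one] at m3 ⊢
          have : P.pv Cn z w ζ ≤ 2 * P.pv Co z w ζ := by
            rcases n2.eq_or_lt with h0 | h0
            · rw [hac ζ h0.symm]; linarith
            · have : P.pv Cn z w ζ / P.pv Co z w ζ ≤ 2 := h2'
              rwa [div_le_iff₀ h0] at this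
          linarith
      · simp only [hg]
        rw [ind_not hh, mul_zero]
        linarith
    rw [Finset.sum_add_distrib, Finset.sum_add_distrib, ← Finset.mul_sum] at k3
    have e2 : δn / (del / 8) = 8 / del * δn := by field_simp
    have e3 : 2 * (δo / (del / 8)) = 16 / del * δo := by field_simp; ring
    linarith
  linarith

/-- the same with a public ratio at most two -/
theorem tau_gen2 (WF : Om → ι) (Wn : Om → ι1) (Wo : Om → ι2) (Cn : Om → ι3) (Co : Om → ι4) (z : Om → κ) {w : Om}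
    {δx δn δo : ℝ} (h2 : ∀ ζ, P.pv Cn z w ζ ≤ 2 * P.pv Co z w ζ)
    (tx : ∀ f : κ → ℝ, (∀ ζ, |f ζ| ≤ 1) → |P.ce WF (fun u => f (z u)) w - P.ce Cn (fun u => f (z u)) w| ≤ δx)
    (tn : ∀ f : κ → ℝ, (∀ ζ, |f ζ| ≤ 1) → |P.ce Wn (fun u => f (z u)) w - P.ce Cn (fun u => f (z u)) w| ≤ δn)
    (tq : ∀ f : κ → ℝ, (∀ ζ, |f ζ| ≤ 1) → |P.ce Wo (fun u => f (z u)) w - P.ce Co (fun u => f (z u)) w| ≤ δo)
    {T : Om → ℝ} (hT : ∀ u, P.p u ≠ 0 → WF u = WF w → T u = P.pv Wn z w (z u) / P.pv Wo z w (z u)) :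
    P.ce WF (fun u => ind (8 < T u)) w ≤ δx + 2 * δn + 4 * δo := by
  classical
  set r1 : κ → ℝ := fun ζ => P.pv Wn z w ζ / P.pv Cn z w ζ with hr1
  set r2 : κ → ℝ := fun ζ => P.pv Wo z w ζ / P.pv Co z w ζ with hr2
  set g : κ → ℝ := fun ζ => ind (1 / 2 < |r1 ζ - 1| ∨ 1 / 2 < |r2 ζ - 1|) with hg
  have hg1 : ∀ ζ, |g ζ| ≤ 1 := fun ζ => by
    simp only [hg]
    rw [abs_of_nonneg (ind_nonneg _)]
    exact ind_le_one _
  have h1 : P.ce WF (fun u => ind (8 < T u)) w ≤ P.ce WF (fun u => g (z u)) w := by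
    unfold FP.ce
    refine div_le_div_of_nonneg_right (P.E_mono fun u hu => ?_) (P.m_nonneg _ _)
    by_cases hz : WF u = WF w
    · rw [ind_of hz, one_mul, one_mul]
      show ind (8 < T u) ≤ g (z u)
      by_cases hb : 8 < T u
      · have hh : 1 / 2 < |r1 (z u) - 1| ∨ 1 / 2 < |r2 (z u) - 1| := by
          by_contra hno
          push Not at hno
          obtain ⟨a1, a2⟩ := hno
          have b1 := abs_le.1 a1
          have b2 := abs_le.1 a2
          have p1 : 0 < r1 (z u) := by linarith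
          have p2 : 0 < r2 (z u) := by linarith
          have n1 := P.pv_nonneg Cn z w (z u)
          have n2 := P.pv_nonneg Co z w (z u)
          have q1 : P.pv Cn z w (z u) ≠ 0 := fun h0 => by
            simp only [hr1, h0, div_zero] at p1
            exact lt_irrefl _ p1
          have q2 : P.pv Co z w (z u) ≠ 0 := fun h0 => by
            simp only [hr2, h0, div_zero] at p2
            exact lt_irrefl _ p2
          have q3 : P.pv Wo z w (z u) ≠ 0 := fun h0 => by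
            simp only [hr2, h0, zero_div] at p2
            exact lt_irrefl _ p2
          have c2 : 0 < P.pv Co z w (z u) := lt_of_le_of_ne n2 q2.symm
          have e3 : P.pv Cn z w (z u) / P.pv Co z w (z u) ≤ 2 := by
            rw [div_le_iff₀ c2]
            exact h2 (z u)
          have n3 : 0 ≤ P.pv Cn z w (z u) / P.pv Co z w (z u) := div_nonneg n1 n2
          have eT : T u = r1 (z u) * (P.pv Cn z w (z u) / P.pv Co z w (z u)) / r2 (z u) := by
            rw [hT u hu hz]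
            simp only [hr1, hr2]
            field_simp
          rw [eT, lt_div_iff₀ p2] at hb
          have h7 : r1 (z u) * (P.pv Cn z w (z u) / P.pv Co z w (z u)) ≤ (3 / 2) * 2 :=
            mul_le_mul (by linarith) e3 n3 (by norm_num)
          linarith
        simp only [hg]
        rw [ind_of hh]
        exact ind_le_one _
      · rw [ind_not hb]
        exact ind_nonneg _
    · rw [ind_not hz, zero_mul, zero_mul]
  have h3 := (abs_le.1 (tx g hg1)).2
  have k1 := ratio_le P Wn Cn z w (show (0:ℝ) < 1 / 2 by norm_num) tn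
  have k2 := ratio_le P Wo Co z w (show (0:ℝ) < 1 / 2 by norm_num) tq
  have k3 : ∑ ζ ∈ vals z, P.pv Cn z w ζ * g ζ ≤ ∑ ζ ∈ vals z, (P.pv Cn z w ζ * ind (1 / 2 < |r1 ζ - 1|) +
      2 * (P.pv Co z w ζ * ind (1 / 2 < |r2 ζ - 1|))) := by
    refine Finset.sum_le_sum fun ζ _ => ?_
    have n1 := P.pv_nonneg Cn z w ζ
    have n2 := P.pv_nonneg Co z w ζ
    have m2 : 0 ≤ P.pv Cn z w ζ * ind (1 / 2 < |r1 ζ - 1|) := mul_nonneg n1 (ind_nonneg _)
    have m3 : 0 ≤ P.pv Co z w ζ * ind (1 / 2 < |r2 ζ - 1|) := mul_nonneg n2 (ind_nonneg _)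
    by_cases hh : 1 / 2 < |r1 ζ - 1| ∨ 1 / 2 < |r2 ζ - 1|
    · simp only [hg]
      rw [ind_of hh, mul_one]
      rcases hh with hh | hh
      · rw [ind_of hh, mul_one] at m2 ⊢; linarith
      · rw [ind_of hh, mul_one] at m3 ⊢
        have := h2 ζ
        linarith
    · simp only [hg]
      rw [ind_not hh, mul_zero]
      linarith
  rw [Finset.sum_add_distrib, ← Finset.mul_sum, ← ce_vals P Cn z g w] at k3
  have e2 : δn / (1 / 2) = 2 * δn := by ring
  have e3 : δo / (1 / 2) = 2 * δo := by ring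
  rw [e2] at k1
  rw [e3] at k2
  linarith

/-- Bayes for the missing letter -/
theorem bayes {Z : Om → ι} {Wo : Om → ι1} {Wn : Om → ι2} {z : Om → κ} (h1 : Fac Z (fun u => (z u, Wo u)))
    (h2 : Fac (fun u => (z u, Wo u)) Z) (h3 : Fac Wn Wo) {u : Om} (hu : P.p u ≠ 0) :
    P.pv Z Wn u (Wn u) / P.pv Wo Wn u (Wn u) = P.pv Wn z u (z u) / P.pv Wo z u (z u) := by
  have hz : Fac Z z := h1.trans fun a b hab => (Prod.mk.inj hab).1
  have hzo : Fac Z Wo := h1.trans fun a b hab => (Prod.mk.inj hab).2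
  rw [P.pv_self, P.pv_self, P.pv_self, P.pv_self]
  have e1 : P.m (fun v => (Wn v, Z v)) u = P.m (fun v => (z v, Wn v)) u := by
    refine P.m_congr (fun a b hab => ?_) (fun a b hab => ?_) u
    · simp only [Prod.mk.injEq] at hab ⊢
      exact ⟨hz a b hab.2, hab.1⟩
    · simp only [Prod.mk.injEq] at hab ⊢
      exact ⟨hab.2, h2 a b (Prod.ext hab.1 (h3 a b hab.2))⟩
  have e2 : P.m (fun v => (Wn v, Wo v)) u = P.m Wn u := by
    refine P.m_congr (fun a b hab => (Prod.mk.inj hab).1) (fun a b hab => Prod.ext hab (h3 a b hab)) u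
  have e3 : P.m Z u = P.m (fun v => (z v, Wo v)) u := P.m_congr h1 h2 u
  rw [e1, e2, e3]
  have p1 := (P.m_pos (fun v => (z v, Wn v)) hu).ne'
  have p2 := (P.m_pos Wn hu).ne'
  have p3 := (P.m_pos (fun v => (z v, Wo v)) hu).ne'
  have p4 := (P.m_pos Wo hu).ne'
  field_simp

end gen

/-! ### test functions of the missing letter -/

section wt

variable {X β γ φ υ : Type} [Fintype X] [Fintype β] [Fintype φ] [Nonempty X] [Nonempty β]
variable {D : HD (Fin 3) X β γ φ} {al : ℝ} {h : D.Thick al} {v : ℕ → Finset (Fin 3) → X → (Fin 3 → β) → υ}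

/-- the point of `d` in a public cell -/
theorem cell_F (hv : Codes D v) (t : ℕ) {s n : ℕ} (hs : s ≤ n + 1) (c : Pt (Fin 3) X β φ) (d : Fin 3) (G : X → β → ℝ) :
    (D.P h t).E (fun u => ind (NP D v s n u = NP D v s n c) * G u.1 (u.2.1 d)) =
    ((FP.unif X).Pr (cX D v s n c) * ∏ j, (FP.unif β).Pr (cY D n c j)) *
      (muC D v s n c).E (fun x => (nuC D n c d).E (G x)) := by
  classical
  set M := (FP.unif X).Pr (cX D v s n c) * ∏ j, (FP.unif β).Pr (cY D n c j) with hM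
  have e1 : ∀ x b', G x b' = ∑ b : β, ind (b' = b) * G x b := by
    intro x b'
    rw [Finset.sum_eq_single b']
    · rw [ind_of rfl, one_mul]
    · intro b _ hb; rw [ind_not (Ne.symm hb), zero_mul]
    · intro hn; exact absurd (mem_univ _) hn
  have e2 : (D.P h t).E (fun u => ind (NP D v s n u = NP D v s n c) * G u.1 (u.2.1 d)) =
      ∑ b : β, (D.P h t).E (fun u => ind (NP D v s n u = NP D v s n c) *
        (G u.1 b * ∏ j, (if j = d then ind (u.2.1 j = b) else 1))) := by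
    rw [← FP.E_sum]
    refine FP.E_congr _ fun u _ => ?_
    rw [← Finset.mul_sum]
    congr 1
    conv_lhs => rw [e1 u.1 (u.2.1 d)]
    refine Finset.sum_congr rfl fun b _ => ?_
    rw [Finset.prod_ite_eq' univ d (fun j => ind (u.2.1 j = b)), if_pos (mem_univ d)]
    ring
  rw [e2]
  have e4 : ∀ b : β, (D.P h t).E (fun u => ind (NP D v s n u = NP D v s n c) *
        (G u.1 b * ∏ j, (if j = d then ind (u.2.1 j = b) else 1))) =
      M * (mC D n c d b * (muC D v s n c).E (fun x => G x b)) := by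
    intro b
    have h1 := cell_E (h := h) hv t hs c (fun x => G x b)
      (fun j b' => if j = d then ind (b' = b) else 1)
    rw [h1, ← hM]
    have h2 : ∀ j, (nuC D n c j).E (fun b' => if j = d then ind (b' = b) else 1) =
        if j = d then mC D n c d b else 1 := by
      intro j
      by_cases hj' : j = d
      · subst hj'
        simp only [if_true]; rfl
      · simp only [hj', if_false]; exact FP.E_const _ _
    rw [Finset.prod_congr rfl fun j _ => h2 j, Finset.prod_ite_eq' univ d, if_pos (mem_univ d)]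
    ring
  rw [Finset.sum_congr rfl fun b _ => e4 b, ← Finset.mul_sum]
  congr 1
  have e5 : ∀ x, (nuC D n c d).E (G x) = ∑ b : β, mC D n c d b * G x b := by
    intro x
    have h3 : (nuC D n c d).E (G x) = (nuC D n c d).E (fun b' => ∑ b : β, ind (b' = b) * G x b) :=
      FP.E_congr _ fun b' _ => e1 x b'
    rw [h3, FP.E_sum]
    exact Finset.sum_congr rfl fun b _ => FP.E_mul_const _ _ _
  simp only [e5]
  rw [FP.E_sum]
  exact Finset.sum_congr rfl fun b _ => (FP.E_smul _ _ _).symm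

/-- the letter of `d` in a public cell -/
theorem XL_code (hv : Codes D v) {q m : ℕ} (hm : m ≤ nc q ∅) (d : Fin 3) {w u : Pt (Fin 3) X β φ}
    (hN : NP D v (nc q ∅) (nn q) u = NP D v (nc q ∅) (nn q) w) :
    XL v m d u = (u.2.1 d, (code v (nc q ∅) w d u.1 (u.2.1 d)).take m) := by
  have hcl := ((NP_iff hv (nc_le q ∅) w u).1 hN).2
  unfold XL code
  rw [HotHv.take_UmQ hm]
  refine Prod.ext rfl ?_
  show Um v m {d} u.1 u.2.1 = Um v m {d} u.1 (Function.update w.2.1 d (u.2.1 d))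
  refine Um_codes hv (hm.trans (nc_le q ∅)) {d} u.1 (fun j hj => ?_) fun j => ?_
  · rw [Finset.mem_singleton.1 hj, Function.update_self]
  · by_cases hj : j = d
    · subst hj; rw [Function.update_self]
    · rw [Function.update_of_ne hj]; exact hcl j

end wt

section row

variable {X β γ φ : Type} [Fintype X] [Fintype β] [Fintype φ] [Nonempty X] [Nonempty β]
variable {D : HD (Fin 3) X β γ φ} {al : ℝ} {h : D.Thick al} {N : Finset (Fin 3) → ℝ} {S : Finset (Finset (Fin 3))}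
  {v : ℕ → Finset (Fin 3) → X → (Fin 3 → β) → Pt (Fin 3) X β φ} {dg : ℕ → X → ℝ} {prr : ℕ → Fin 3 → φ → φ} {T : ℕ}
  {Lam : ℝ}

/-- **TEST FUNCTIONS OF THE MISSING LETTER** -/
theorem row_test (H : D.Hyp dg prr al T Lam) (R : Run h N S (AdmDep D) v) (hS : ∀ l, univ.erase l ∈ S) (hu : univ ∉ S)
    (hN : ∀ l, 0 < N (univ.erase l)) {t q m : ℕ} (ht : t ≤ T) (hq : 5 * t ≤ q) {d : Fin 3} (hm : m ≤ nc q ∅)
    {w : Pt (Fin 3) X β φ} (hw : (D.P h t).p w ≠ 0) {κ B p0 : ℝ} (hB0 : 0 ≤ B) (hp0 : 0 < p0)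
    (hE : ∀ E : X → Prop, dvC D v (nc q ∅) (nn q) w d E ≤ κ * (muC D v (nc q ∅) (nn q) w).Pr E + B)
    (hpr : p0 ≤ (muC D v (nc q ∅) (nn q) w).Pr (K0 v q d w)) (f0 : β × List (Pt (Fin 3) X β φ) → ℝ)
    (hf0 : ∀ z, |f0 z| ≤ 1) :
    |(D.P h t).ce (ZbQ D v q d) (fun u => f0 (XL v m d u)) w - (D.P h t).ce (NPq D v q) (fun u => f0 (XL v m d u)) w| ≤
        κ + B / p0 ∧
      |(D.P h t).ce (fun u => (FQ v t d u, ZbQ D v q d u)) (fun u => f0 (XL v m d u)) w -
        (D.P h t).ce (NPq D v q) (fun u => f0 (XL v m d u)) w| ≤ κ + B / (al * p0) := by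
  classical
  have : Nonempty φ := ⟨w.2.2 0⟩
  set P := D.P h t with hP
  set s := nc q ∅ with hs
  set n := nn q with hn
  set μ := muC D v s n w with hμ
  set ν := nuC D n w d with hν
  have hv := R.codes
  have htn : t ≤ n := by
    have := nn_mono hq
    rwa [nn_0] at this
  set F0 := w.2.2 d with hF0
  have hlab : ∀ u, P.p u ≠ 0 → ZbQ D v q d u = ZbQ D v q d w → (FQ v t d u = FQ v t d w ↔ u.2.2 d = F0) :=
    fun u hu' hz => top_name H R hS hu hN ht hq hu' hw hz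
  -- weights
  set g1 : X → ℝ := fun x' => ind (K0 v q d w x') with hg1
  set g2 : X → ℝ := fun x' => ind (K0 v q d w x') * D.kf t d x' w.2.1 F0 with hg2
  have g10 : ∀ x', 0 ≤ g1 x' := fun x' => ind_nonneg _
  have g11 : ∀ x', g1 x' ≤ 1 := fun x' => ind_le_one _
  have g20 : ∀ x', 0 ≤ g2 x' := fun x' => mul_nonneg (ind_nonneg _) (h.nn _ _ _ _ _)
  have g21 : ∀ x', g2 x' ≤ 1 := fun x' =>
    mul_le_one₀ (ind_le_one _) (h.nn _ _ _ _ _) (kf_le_one h t d x' w.2.1 F0)
  have k1 := dvW_le hE g10 g11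
  have k2 := dvW_le hE g20 g21
  have hkf : D.kf t d w.1 w.2.1 F0 ≠ 0 := by
    have h4 : (∏ l, D.kf t l w.1 w.2.1 (w.2.2 l)) /
      (Fintype.card X * (Fintype.card β : ℝ) ^ Fintype.card (Fin 3)) ≠ 0 := hw
    exact Finset.prod_ne_zero_iff.1 (div_ne_zero_iff.1 h4).1 d (mem_univ d)
  have hc1 : p0 ≤ μ.E g1 := hpr
  have hc2 : al * p0 ≤ μ.E g2 := by
    refine (mul_le_mul_of_nonneg_left hpr h.pos.le).trans ?_
    unfold FP.Pr
    rw [← FP.E_smul]
    refine FP.E_mono _ fun x' hx' => ?_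
    by_cases hk : K0 v q d w x'
    · simp only [hg2]
      rw [ind_of hk, mul_one, one_mul]
      have h1 : cX D v s n w x' := (cond_supp (P := FP.unif X) (A := cX D v s n w) (unif_ne (cX_self s n w)) hx').1
      exact h.thick t d w.1 x' w.2.1 F0 (qa_mono D htn h1.2.symm) hkf
    · simp only [hg2]
      rw [ind_not hk, mul_zero, zero_mul]
  have hc1p : 0 < μ.E g1 := hp0.trans_le hc1
  have hc2p : 0 < μ.E g2 := (mul_pos h.pos hp0).trans_le hc2
  have hM := Mz_pos (D := D) (v := v) q d w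
  -- the letters
  set f : β × List (Pt (Fin 3) X β φ) → ℝ := fun z => f0 (z.1, z.2.take m) with hf
  have hf1 : ∀ z, |f z| ≤ 1 := fun z => hf0 _
  set Ψ : X → β → ℝ := fun x' b => f (b, code v s w d x' b) with hΨ
  have hcell : ∀ u, NP D v s n u = NP D v s n w → f0 (XL v m d u) = Ψ u.1 (u.2.1 d) := fun u hN' => by
    rw [XL_code hv hm d hN']
  have hZN : ∀ u, ZbQ D v q d u = ZbQ D v q d w → NP D v s n u = NP D v s n w := fun u hz => ((Zb_iff hv q d w u).1 hz).1
  -- the three classes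
  have n0 : P.ce (NPq D v q) (fun u => f0 (XL v m d u)) w = μ.E (fun x' => ν.E (Ψ x')) := by
    have hA : (0:ℝ) < (FP.unif X).Pr (cX D v s n w) * ∏ j, (FP.unif β).Pr (cY D n w j) := by
      refine mul_pos ?_ ?_
      · exact lt_of_le_of_ne (FP.Pr_nonneg _ _) (Ne.symm (unif_ne (cX_self _ _ w)))
      · exact Finset.prod_pos fun j _ => lt_of_le_of_ne (FP.Pr_nonneg _ _) (Ne.symm (unif_ne (cY_self _ w j)))
    have h1 := cell_F (h := h) hv t (nc_le q ∅) w d Ψ
    have h2 := cell_F (h := h) hv t (nc_le q ∅) w d (fun _ _ => 1)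
    simp only [FP.E_const, mul_one] at h2
    have h3 := HotHv.ce_cls P (NPq D v q) (fun u => f0 (XL v m d u)) (w := w) (a := μ.E (fun x' => ν.E (Ψ x'))) (b := 1)
      hA ?_ ?_
    · rw [h3, div_one]
    · rw [← h1]
      refine P.E_congr fun u _ => ?_
      by_cases hN' : NP D v s n u = NP D v s n w
      · rw [hcell u hN']; rfl
      · have hN'' : ¬ NPq D v q u = NPq D v q w := hN'
        rw [ind_not hN'', ind_not hN', zero_mul, zero_mul]
    · rw [mul_one, ← h2]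
      rfl
  have n1 : P.ce (ZbQ D v q d) (fun u => f0 (XL v m d u)) w = μ.E (fun x' => g1 x' * ν.E (Ψ x')) / μ.E g1 := by
    refine HotHv.ce_cls P (ZbQ D v q d) (fun u => f0 (XL v m d u)) hM ?_ ?_
    · have h1 := cls_E (h := h) hv t q w d Ψ
      rw [← h1]
      refine P.E_congr fun u _ => ?_
      by_cases hz : ZbQ D v q d u = ZbQ D v q d w
      · rw [hcell u (hZN u hz)]
      · rw [ind_not hz, zero_mul, zero_mul]
    · have h1 := cls_E (h := h) hv t q w d (fun _ _ => 1)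
      simp only [FP.E_const, mul_one] at h1
      exact h1
  have n2 : P.ce (fun u => (FQ v t d u, ZbQ D v q d u)) (fun u => f0 (XL v m d u)) w =
      μ.E (fun x' => g2 x' * ν.E (Ψ x')) / μ.E g2 := by
    have e0 : ∀ u, ind ((FQ v t d u, ZbQ D v q d u) = (FQ v t d w, ZbQ D v q d w)) =
        ind (ZbQ D v q d u = ZbQ D v q d w) * ind (FQ v t d u = FQ v t d w) := fun u => by
      rw [← ind_and]
      exact ind_cg (by rw [Prod.mk.injEq]; exact and_comm)
    refine HotHv.ce_cls P (fun u => (FQ v t d u, ZbQ D v q d u)) (fun u => f0 (XL v m d u)) hM ?_ ?_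
    · have h1 := cls_lab (h := h) hv htn w d Ψ F0
      have h3 : μ.E (fun x' => g2 x' * ν.E (Ψ x')) =
          μ.E (fun x' => ind (K0 v q d w x') * (D.kf t d x' w.2.1 F0 * ν.E (Ψ x'))) :=
        FP.E_congr _ fun x' _ => by simp only [hg2]; ring
      rw [h3, ← h1]
      refine P.E_congr fun u hu' => ?_
      rw [e0]
      by_cases hz : ZbQ D v q d u = ZbQ D v q d w
      · rw [ind_cg (hlab u hu' hz), hcell u (hZN u hz)]; ring
      · rw [ind_not hz]; ring
    · have h1 := cls_lab (h := h) hv htn w d (fun _ _ => 1) F0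
      simp only [FP.E_const, mul_one] at h1
      show P.m _ w = Mz D v q d w * μ.E g2
      rw [← h1]
      unfold FP.m
      refine P.E_congr fun u hu' => ?_
      rw [e0]
      by_cases hz : ZbQ D v q d u = ZbQ D v q d w
      · rw [ind_cg (hlab u hu' hz)]
      · rw [ind_not hz]; ring
  have t1 := dvW_test (D := D) (v := v) s n w d g1 hf1
  have t2 := dvW_test (D := D) (v := v) s n w d g2 hf1
  rw [n0, n1, n2]
  set cc := μ.E (fun x' => ν.E (Ψ x')) with hcc
  set a1 := μ.E (fun x' => g1 x' * ν.E (Ψ x')) with ha1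
  set a2 := μ.E (fun x' => g2 x' * ν.E (Ψ x')) with ha2
  set e1 := μ.E g1 with he1
  set e2 := μ.E g2 with he2
  have u1 : |a1 - e1 * cc| ≤ κ * e1 + B := t1.trans k1
  have u2 : |a2 - e2 * cc| ≤ κ * e2 + B := t2.trans k2
  have w1 : B / e1 ≤ B / p0 := div_le_div_of_nonneg_left hB0 hp0 hc1
  have w2 : B / e2 ≤ B / (al * p0) := div_le_div_of_nonneg_left hB0 (mul_pos h.pos hp0) hc2
  constructor
  · have z1 : a1 / e1 - cc = (a1 - e1 * cc) / e1 := by field_simp
    rw [z1, abs_div, abs_of_pos hc1p]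
    have z2 : |a1 - e1 * cc| / e1 ≤ (κ * e1 + B) / e1 := div_le_div_of_nonneg_right u1 hc1p.le
    have z3 : (κ * e1 + B) / e1 = κ + B / e1 := by field_simp
    linarith
  · have z1 : a2 / e2 - cc = (a2 - e2 * cc) / e2 := by field_simp
    rw [z1, abs_div, abs_of_pos hc2p]
    have z2 : |a2 - e2 * cc| / e2 ≤ (κ * e2 + B) / e2 := div_le_div_of_nonneg_right u2 hc2p.le
    have z3 : (κ * e2 + B) / e2 = κ + B / e2 := by field_simp
    linarith

/-- the distances of the events, states `5t + j`, `1 ≤ j ≤ 5` -/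
theorem dist_j (H : D.Hyp dg prr al T Lam) (R : Run h N S (AdmDep D) v) (hN : ∀ J ∈ S, 0 ≤ N J) (h0 : ∅ ∈ S)
    (hS1 : ∀ i : Fin 3, {i} ∈ S) (hN0 : N ∅ = 1) {N1 : ℝ} (hN1 : ∀ i : Fin 3, N1 ≤ N {i}) (hN1p : 0 < N1) {t j : ℕ}
    (ht : t < T) (hj1 : 1 ≤ j) (hj5 : j ≤ 5) {dl a : ℝ} (hdl : 0 < dl) (hdl1 : dl ≤ 1) (hda : Real.exp (-a) ≤ dl)
    {u : Pt (Fin 3) X β φ} (hu' : (D.P h t).p u ≠ 0)
    (hdg : j = 1 → dl * (D.P h t).m (NP D v (t + 1) t) u ≤ (D.P h t).m (NP D v (t + 1) (t + 1)) u) (d : Fin 3)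
    (E : X → Prop) : dvC D v (nc (5 * t + j) ∅) (nn (5 * t + j)) u d E ≤
      (4 * Real.sqrt (4 * (a + 1) / N1)) * (muC D v (nc (5 * t + j) ∅) (nn (5 * t + j)) u).Pr E +
        2 * Real.exp (-a) / dl := by
  classical
  have hv := R.codes
  have hx := Real.exp_pos (-a)
  have hB1 : 2 * Real.exp (-a) ≤ 2 * Real.exp (-a) / dl := by
    rw [le_div_iff₀ hdl]
    nlinarith
  have hs0 := Real.sqrt_nonneg (4 * (a + 1) / N1)
  rcases Nat.lt_or_ge j 2 with hj2 | hj2
  · have hj' : j = 1 := by omega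
    have e1 : nc (5 * t + j) ∅ = t + 1 := by rw [hj']; exact nc_1 t pth_emp
    have e2 : nn (5 * t + j) = t + 1 := by rw [hj']; exact nn_1 t
    rw [e1, e2]
    exact dvC_dig H R hN h0 hS1 hN0 hN1 hN1p ht hu' hdl hda (dig_mu hv (hdg hj')) d E
  · have e1 : nc (5 * t + j) ∅ = t + 2 := nc_emp t hj2 hj5
    have e2 : nn (5 * t + j) = t + 1 := nn_j t hj1 hj5
    rw [e1, e2]
    obtain ⟨F', hF'⟩ : ∃ F' : Fin 3 → φ, ∀ l, D.kf (t + 1) l u.1 u.2.1 (F' l) ≠ 0 := by
      have h1 : ∀ l : Fin 3, ∃ F : φ, D.kf (t + 1) l u.1 u.2.1 F ≠ 0 := by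
        intro l
        by_contra hcon
        push Not at hcon
        have h2 := h.one (t + 1) l u.1 u.2.1
        rw [Finset.sum_eq_zero fun F _ => hcon F] at h2
        exact absurd h2 (by norm_num)
      choose F' hF' using h1
      exact ⟨F', hF'⟩
    have hc : (D.P h (t + 1)).p (u.1, u.2.1, F') ≠ 0 := by
      show (∏ l, D.kf (t + 1) l u.1 u.2.1 (F' l)) /
        (Fintype.card X * (Fintype.card β : ℝ) ^ Fintype.card (Fin 3)) ≠ 0
      refine div_ne_zero (Finset.prod_ne_zero_iff.2 fun l _ => hF' l) (mul_ne_zero ?_ (pow_ne_zero _ ?_))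
      · exact_mod_cast Fintype.card_ne_zero
      · exact_mod_cast Fintype.card_ne_zero
    have h1 := dvC_all R hN h0 hS1 hN0 hN1 hN1p (t + 1) hc d a E
    have h1' : dvC D v (t + 2) (t + 1) u d E ≤
        Real.sqrt (4 * (a + 1) / N1) * (muC D v (t + 2) (t + 1) u).Pr E + 2 * Real.exp (-a) := h1
    have h2 := FP.Pr_nonneg (muC D v (t + 2) (t + 1) u) E
    have h3 := mul_nonneg hs0 h2
    linarith

/-- the mass of the pair of letters, any point -/
theorem K0_mass' (hv : Codes D v) (q : ℕ) {d i k : Fin 3} (hik : i ≠ k) (hid : i ≠ d) (hkd : k ≠ d)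
    (w : Pt (Fin 3) X β φ) :
    Real.exp (-spQ h v q i k w) = (muC D v (nc q ∅) (nn q) w).Pr (K0 v q d w) := by
  obtain ⟨F', hF'⟩ : ∃ F' : Fin 3 → φ, ∀ l, D.kf (q / 5) l w.1 w.2.1 (F' l) ≠ 0 := by
    have h1 : ∀ l : Fin 3, ∃ F : φ, D.kf (q / 5) l w.1 w.2.1 F ≠ 0 := by
      intro l
      by_contra hcon
      push Not at hcon
      have h2 := h.one (q / 5) l w.1 w.2.1
      rw [Finset.sum_eq_zero fun F _ => hcon F] at h2
      exact absurd h2 (by norm_num)
    choose F' hF' using h1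
    exact ⟨F', hF'⟩
  have hc : (D.P h (q / 5)).p (w.1, w.2.1, F') ≠ 0 := by
    show (∏ l, D.kf (q / 5) l w.1 w.2.1 (F' l)) /
      (Fintype.card X * (Fintype.card β : ℝ) ^ Fintype.card (Fin 3)) ≠ 0
    refine div_ne_zero (Finset.prod_ne_zero_iff.2 fun l _ => hF' l) (mul_ne_zero ?_ (pow_ne_zero _ ?_))
    · exact_mod_cast Fintype.card_ne_zero
    · exact_mod_cast Fintype.card_ne_zero
  have h1 := K0_mass (h := h) hv (t := q / 5) (q := q) rfl hik hid hkd hc
  exact h1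

/-- the price of the transfer -/
def eI (al N1 X1 dl a del : ℝ) : ℝ := 25 / del * (8 * Real.sqrt ((a + 1) / N1) + 2 * Real.exp (X1 - a) / (dl * al))

/-- the ratio of the missing letter between two states, by the laws of the letter -/
theorem tQ_eq {t q q' : ℕ} (hq : q ≤ q') (d : Fin 3) {u : Pt (Fin 3) X β φ} (hu : (D.P h t).p u ≠ 0) :
    tau (D.P h t) (ZbQ D v q d) (ZQ D v q) (ZbQ D v q' d) u (ZbQ D v q' d u) =
      (D.P h t).pv (ZbQ D v q' d) (XLq v q d) u (XLq v q d u) /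
      (D.P h t).pv (ZbQ D v q d) (XLq v q d) u (XLq v q d u) := by
  have h1 : Fac (ZQ (φ := φ) D v q) (fun u => (XLq v q d u, ZbQ D v q d u)) := fun a b hab =>
    Prod.ext (ZQ_XLq q d a b hab) (ZQ_Zb q d a b hab)
  have h2 : Fac (fun u : Pt (Fin 3) X β φ => (XLq v q d u, ZbQ D v q d u)) (ZQ D v q) :=
    fun a b hab => ZQ_of q d (Prod.mk.inj hab).1 (Prod.mk.inj hab).2
  exact bayes (D.P h t) h1 h2 (ZbQ_mono (φ := φ) (D := D) (v := v) hq d) hu

/-- the missing letter of `5t + j` at the states `5t + j` and `5t + j'` -/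
theorem tests (H : D.Hyp dg prr al T Lam) (R : Run h N S (AdmDep D) v) (hN : ∀ J ∈ S, 0 ≤ N J) (h0 : ∅ ∈ S)
    (hS1 : ∀ i : Fin 3, {i} ∈ S) (hN0 : N ∅ = 1) {N1 : ℝ} (hN1 : ∀ i : Fin 3, N1 ≤ N {i}) (hN1p : 0 < N1)
    (hS : ∀ l, univ.erase l ∈ S) (hu : univ ∉ S) (hN2 : ∀ l, 0 < N (univ.erase l)) {t j j' : ℕ} (ht : t < T)
    (hj : j ≤ 4) (hjj : j ≤ j') (hj1 : 1 ≤ j') (hj5 : j' ≤ 5) {i k d : Fin 3} (hik : i ≠ k) (hid : i ≠ d) (hkd : k ≠ d)
    {w : Pt (Fin 3) X β φ} (hw : (D.P h t).p w ≠ 0) {X1 dl a : ℝ} (h1 : spQ h v (5 * t + j') i k w ≤ X1)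
    (hdg : j' = 1 → dl * (D.P h t).m (NP D v (t + 1) t) w ≤ (D.P h t).m (NP D v (t + 1) (t + 1)) w)
    (hdl : 0 < dl) (hdl1 : dl ≤ 1) (hda : Real.exp (-a) ≤ dl) (f : β × List (Pt (Fin 3) X β φ) → ℝ)
    (hf : ∀ z, |f z| ≤ 1) :
    |(D.P h t).ce (ZbQ D v (5 * t + j') d) (fun u => f (XLq v (5 * t + j) d u)) w -
        (D.P h t).ce (NPq D v (5 * t + j')) (fun u => f (XLq v (5 * t + j) d u)) w| ≤
        8 * Real.sqrt ((a + 1) / N1) + 2 * Real.exp (X1 - a) / (dl * al) ∧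
      |(D.P h t).ce (fun u => (FQ v t d u, ZbQ D v (5 * t + j') d u)) (fun u => f (XLq v (5 * t + j) d u)) w -
        (D.P h t).ce (NPq D v (5 * t + j')) (fun u => f (XLq v (5 * t + j) d u)) w| ≤
        8 * Real.sqrt ((a + 1) / N1) + 2 * Real.exp (X1 - a) / (dl * al) := by
  classical
  have hv := R.codes
  have hx := Real.exp_pos (-a)
  have hp1 := Real.exp_pos (-X1)
  have hal1 : al ≤ 1 := by
    have h3 : D.kf t d w.1 w.2.1 (w.2.2 d) ≠ 0 := by
      have h4 : (∏ l, D.kf t l w.1 w.2.1 (w.2.2 l)) /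
        (Fintype.card X * (Fintype.card β : ℝ) ^ Fintype.card (Fin 3)) ≠ 0 := hw
      exact Finset.prod_ne_zero_iff.1 (div_ne_zero_iff.1 h4).1 d (mem_univ d)
    exact (h.thick t d w.1 w.1 w.2.1 (w.2.2 d) rfl h3).trans (kf_le_one h t d w.1 w.2.1 (w.2.2 d))
  have hm : nc (5 * t + j) {d} = t + 1 := by rw [nc_i t j (by omega) d, if_neg (by omega)]
  have hsd : nc (5 * t + j) {d} ≤ nc (5 * t + j') ∅ := by
    rw [hm]
    rcases Nat.lt_or_ge j' 2 with hj2 | hj2
    · have hj' : j' = 1 := by omega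
      rw [hj', nc_1 t pth_emp]
    · rw [nc_emp t hj2 (by omega)]; omega
  have hB0 : 0 ≤ 2 * Real.exp (-a) / dl := by positivity
  have key := row_test H R hS hu hN2 (t := t) (q := 5 * t + j') (m := nc (5 * t + j) {d}) (d := d) ht.le (by omega) hsd
    hw hB0 hp1 (fun E => dist_j H R hN h0 hS1 hN0 hN1 hN1p ht hj1 (by omega) hdl hdl1 hda hw hdg d E)
    (by rw [← K0_mass' (h := h) hv (5 * t + j') hik hid hkd w]; exact Real.exp_le_exp.2 (neg_le_neg h1)) f hf
  have hBp : 2 * Real.exp (-a) / dl / Real.exp (-X1) = 2 * Real.exp (X1 - a) / dl := by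
    rw [show X1 - a = X1 + -a by ring, Real.exp_add, Real.exp_neg X1]
    field_simp
  have hBa : 2 * Real.exp (-a) / dl / (al * Real.exp (-X1)) = 2 * Real.exp (X1 - a) / (dl * al) := by
    rw [show al * Real.exp (-X1) = Real.exp (-X1) * al by ring, ← div_div, hBp, div_div]
  have hle : 2 * Real.exp (-a) / dl / Real.exp (-X1) ≤ 2 * Real.exp (-a) / dl / (al * Real.exp (-X1)) := by
    refine div_le_div_of_nonneg_left hB0 (mul_pos h.pos hp1) ?_
    nlinarith
  have hκe : 4 * Real.sqrt (4 * (a + 1) / N1) = 8 * Real.sqrt ((a + 1) / N1) := by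
    rw [show 4 * (a + 1) / N1 = 2 ^ 2 * ((a + 1) / N1) by ring, Real.sqrt_mul (by norm_num),
      Real.sqrt_sq (by norm_num)]
    ring
  rw [hκe, hBa] at key
  rw [hBa] at hle
  exact ⟨key.1.trans (by linarith), key.2⟩

/-- **THE TRANSFER, any two states** `5t + j`, `5t + j'` -/
theorem tau_cls_q (H : D.Hyp dg prr al T Lam) (R : Run h N S (AdmDep D) v) (hN : ∀ J ∈ S, 0 ≤ N J) (h0 : ∅ ∈ S)
    (hS1 : ∀ i : Fin 3, {i} ∈ S) (hN0 : N ∅ = 1) {N1 : ℝ} (hN1 : ∀ i : Fin 3, N1 ≤ N {i}) (hN1p : 0 < N1)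
    (hS : ∀ l, univ.erase l ∈ S) (hu : univ ∉ S) (hN2 : ∀ l, 0 < N (univ.erase l)) {t j j' : ℕ} (ht : t < T)
    (hj1 : 1 ≤ j) (hj : j ≤ 4) (hjj : j ≤ j') (hj5 : j' ≤ 5) {i k d : Fin 3} (hik : i ≠ k) (hid : i ≠ d) (hkd : k ≠ d)
    {w : Pt (Fin 3) X β φ} (hw : (D.P h t).p w ≠ 0) {X1 dl a del : ℝ} (h1 : spQ h v (5 * t + j) i k w ≤ X1)
    (h2 : spQ h v (5 * t + j') i k w ≤ X1)
    (hdg : j = 1 → dl * (D.P h t).m (NP D v (t + 1) t) w ≤ (D.P h t).m (NP D v (t + 1) (t + 1)) w)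
    (hdl : 0 < dl) (hdl1 : dl ≤ 1) (hda : Real.exp (-a) ≤ dl) (hd : 0 < del) (hd1 : del ≤ 1) :
    (D.P h t).ce (fun u => (FQ v t d u, ZbQ D v (5 * t + j') d u)) (fun u => ind (del <
      |tau (D.P h t) (ZbQ D v (5 * t + j) d) (ZQ D v (5 * t + j)) (ZbQ D v (5 * t + j') d) u
        (ZbQ D v (5 * t + j') d u) - 1|)) w ≤
      (D.P h t).ce (NPq D v (5 * t + j')) (fun u => ind (del / 2 < |sg h v t (5 * t + j) (5 * t + j') d u - 1|)) w +
        eI al N1 X1 dl a del := by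
  classical
  have tn := tests H R hN h0 hS1 hN0 hN1 hN1p hS hu hN2 ht hj hjj (by omega) hj5 hik hid hkd hw h2
    (fun hh => hdg (by omega)) hdl hdl1 hda
  have tq := tests H R hN h0 hS1 hN0 hN1 hN1p hS hu hN2 ht hj le_rfl hj1 (by omega) hik hid hkd hw h1 hdg hdl hdl1 hda
  have hqs : 5 * t + j ≤ 5 * t + j' := by omega
  have key := tau_gen (D.P h t) (fun u => (FQ v t d u, ZbQ D v (5 * t + j') d u)) (ZbQ D v (5 * t + j') d)
    (ZbQ D v (5 * t + j) d) (NPq D v (5 * t + j')) (NPq D v (5 * t + j)) (XLq v (5 * t + j) d) hw hd hd1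
    (fun ζ hz => (D.P h t).pv_ac (NPq_mono (φ := φ) (D := D) (v := v) hqs) (XLq v (5 * t + j) d) hz)
    (fun f hf => (tn f hf).2) (fun f hf => (tn f hf).1) (fun f hf => (tq f hf).1)
    (T := fun u => tau (D.P h t) (ZbQ D v (5 * t + j) d) (ZQ D v (5 * t + j)) (ZbQ D v (5 * t + j') d) u
        (ZbQ D v (5 * t + j') d u)) (s := sg h v t (5 * t + j) (5 * t + j') d)
    (fun u hu' hz => by
      have hz' : ZbQ D v (5 * t + j') d u = ZbQ D v (5 * t + j') d w := (Prod.mk.inj hz).2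
      show tau (D.P h t) (ZbQ D v (5 * t + j) d) (ZQ D v (5 * t + j)) (ZbQ D v (5 * t + j') d) u
        (ZbQ D v (5 * t + j') d u) = _
      rw [tQ_eq hqs d hu']
      have e1 := (D.P h t).pv_fac (ZbQ D v (5 * t + j') d) (XLq v (5 * t + j) d) (XLq v (5 * t + j) d u) u w hz'
      have e2 := (D.P h t).pv_fac (ZbQ D v (5 * t + j) d) (XLq v (5 * t + j) d) (XLq v (5 * t + j) d u) u w
        (ZbQ_mono hqs d u w hz')
      simp only at e1 e2
      rw [e1, e2])
    (fun u hu' hz => by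
      unfold sg
      have e1 := (D.P h t).pv_fac (NPq D v (5 * t + j')) (XLq v (5 * t + j) d) (XLq v (5 * t + j) d u) u w hz
      have e2 := (D.P h t).pv_fac (NPq D v (5 * t + j)) (XLq v (5 * t + j) d) (XLq v (5 * t + j) d u) u w
        (NPq_mono hqs u w hz)
      simp only at e1 e2
      rw [e1, e2])
  refine key.trans (add_le_add_right ?_ _)
  -- the numbers
  have hE0n : 0 ≤ 8 * Real.sqrt ((a + 1) / N1) + 2 * Real.exp (X1 - a) / (dl * al) := by
    have := h.pos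
    positivity
  unfold eI
  set E0 := 8 * Real.sqrt ((a + 1) / N1) + 2 * Real.exp (X1 - a) / (dl * al) with hE0
  have hdd : 1 ≤ 1 / del := by rw [le_div_iff₀ hd]; linarith
  have c3 : E0 ≤ 1 / del * E0 := by nlinarith
  have c5 : 25 / del * E0 = 1 / del * E0 + 8 / del * E0 + 16 / del * E0 := by ring
  rw [c5]
  linarith

/-- **THE TRANSFER OF THE OWN RATIO OF THE MISSING LETTER TO THE PUBLIC CLASS** -/
theorem tau_cls (H : D.Hyp dg prr al T Lam) (R : Run h N S (AdmDep D) v) (hN : ∀ J ∈ S, 0 ≤ N J) (h0 : ∅ ∈ S)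
    (hS1 : ∀ i : Fin 3, {i} ∈ S) (hN0 : N ∅ = 1) {N1 : ℝ} (hN1 : ∀ i : Fin 3, N1 ≤ N {i}) (hN1p : 0 < N1)
    (hS : ∀ l, univ.erase l ∈ S) (hu : univ ∉ S) (hN2 : ∀ l, 0 < N (univ.erase l)) {t : ℕ} (ht : t < T) {s : Fin 6}
    (hs : s = 1 ∨ s = 5) {i k d : Fin 3} (hik : i ≠ k) (hid : i ≠ d) (hkd : k ≠ d) {w : Pt (Fin 3) X β φ}
    (hw : (D.P h t).p w ≠ 0) {X1 dl a del : ℝ} (h1 : spQ h v (qs s t) i k w ≤ X1) (h2 : spQ h v (5 * t + 5) i k w ≤ X1)
    (hdg : s = 1 → dl * (D.P h t).m (NP D v (t + 1) t) w ≤ (D.P h t).m (NP D v (t + 1) (t + 1)) w)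
    (hdl : 0 < dl) (hdl1 : dl ≤ 1) (hda : Real.exp (-a) ≤ dl) (hd : 0 < del) (hd1 : del ≤ 1) :
    (D.P h t).ce (fun u => (FQ v t d u, ZbQ D v (5 * t + 5) d u)) (fun u => ind (del < |tS h v s t d u - 1|)) w ≤
      gI h v del t (qs s t) d w + eI al N1 X1 dl a del := by
  rcases hs with rfl | rfl
  · exact tau_cls_q H R hN h0 hS1 hN0 hN1 hN1p hS hu hN2 (j := 1) (j' := 5) ht le_rfl (by omega) (by omega) le_rfl hik hid
      hkd hw h1 h2 (fun _ => hdg rfl) hdl hdl1 hda hd hd1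
  · exact tau_cls_q H R hN h0 hS1 hN0 hN1 hN1p hS hu hN2 (j := 4) (j' := 5) ht (by omega) le_rfl (by omega) le_rfl hik hid
      hkd hw h1 h2 (fun hh => absurd hh (by omega)) hdl hdl1 hda hd hd1

/-- **the heavy value** (`s = 2`, `5t + 1 → 5t + 2`) : the own ratio of the missing letter is at most `8` -/
theorem tau_hv (H : D.Hyp dg prr al T Lam) (R : Run h N S (AdmDep D) v) (hN : ∀ J ∈ S, 0 ≤ N J) (h0 : ∅ ∈ S)
    (hS1 : ∀ i : Fin 3, {i} ∈ S) (hN0 : N ∅ = 1) {N1 : ℝ} (hN1 : ∀ i : Fin 3, N1 ≤ N {i}) (hN1p : 0 < N1)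
    (hS : ∀ l, univ.erase l ∈ S) (hu : univ ∉ S) (hN2 : ∀ l, 0 < N (univ.erase l)) {t : ℕ} (ht : t < T)
    {i k d : Fin 3} (hik : i ≠ k) (hid : i ≠ d) (hkd : k ≠ d) {w : Pt (Fin 3) X β φ}
    (hw : (D.P h t).p w ≠ 0) {X1 dl a : ℝ} (h1 : spQ h v (5 * t + 1) i k w ≤ X1) (h2 : spQ h v (5 * t + 2) i k w ≤ X1)
    (hdg : dl * (D.P h t).m (NP D v (t + 1) t) w ≤ (D.P h t).m (NP D v (t + 1) (t + 1)) w)
    (hHV : HV h v t w) (hdl : 0 < dl) (hdl1 : dl ≤ 1) (hda : Real.exp (-a) ≤ dl) :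
    (D.P h t).ce (fun u => (FQ v t d u, ZbQ D v (5 * t + 2) d u)) (fun u => ind (8 < tS h v 2 t d u)) w ≤
      7 * (8 * Real.sqrt ((a + 1) / N1) + 2 * Real.exp (X1 - a) / (dl * al)) := by
  classical
  have tn := tests H R hN h0 hS1 hN0 hN1 hN1p hS hu hN2 (j := 1) (j' := 2) ht (by omega) (by omega) (by omega) (by omega)
    hik hid hkd hw h2 (fun hh => absurd hh (by omega)) hdl hdl1 hda
  have tq := tests H R hN h0 hS1 hN0 hN1 hN1p hS hu hN2 (j := 1) (j' := 1) ht (by omega) le_rfl le_rfl (by omega)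
    hik hid hkd hw h1 (fun _ => hdg) hdl hdl1 hda
  have hqs : 5 * t + 1 ≤ 5 * t + 2 := by omega
  have key := tau_gen2 (D.P h t) (fun u => (FQ v t d u, ZbQ D v (5 * t + 2) d u)) (ZbQ D v (5 * t + 2) d)
    (ZbQ D v (5 * t + 1) d) (NPq D v (5 * t + 2)) (NPq D v (5 * t + 1)) (XLq v (5 * t + 1) d) (w := w)
    (fun ζ => by
      have n2 : 0 ≤ (D.P h t).m (NPq D v (5 * t + 2)) w := FP.m_nonneg _ _ _
      have p1 := (D.P h t).m_pos (NPq D v (5 * t + 1)) hw
      have p2 := (D.P h t).m_pos (NPq D v (5 * t + 2)) hw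
      have hh : (D.P h t).m (NPq D v (5 * t + 1)) w ≤ 2 * (D.P h t).m (NPq D v (5 * t + 2)) w := by
        have := hHV
        unfold HV at this
        first
          | linarith
          | (rw [div_le_iff₀ p1] at this; linarith)
          | (rw [le_div_iff₀ p1] at this; linarith)
      unfold FP.pv FP.ce
      have h3 : (D.P h t).E (fun u => ind (NPq D v (5 * t + 2) u = NPq D v (5 * t + 2) w) *
          ind (XLq v (5 * t + 1) d u = ζ)) ≤
          (D.P h t).E (fun u => ind (NPq D v (5 * t + 1) u = NPq D v (5 * t + 1) w) *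
          ind (XLq v (5 * t + 1) d u = ζ)) := by
        refine (D.P h t).E_mono fun u _ => mul_le_mul_of_nonneg_right (ind_mono fun hh => ?_) (ind_nonneg _)
        exact NPq_mono hqs u w hh
      have h4 : 0 ≤ (D.P h t).E (fun u => ind (NPq D v (5 * t + 1) u = NPq D v (5 * t + 1) w) *
          ind (XLq v (5 * t + 1) d u = ζ)) := (D.P h t).E_nonneg fun u _ => mul_nonneg (ind_nonneg _) (ind_nonneg _)
      rw [div_le_iff₀ p2, mul_assoc, div_mul_eq_mul_div, mul_div_assoc']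
      rw [le_div_iff₀ p1]
      nlinarith)
    (fun f hf => (tn f hf).2) (fun f hf => (tn f hf).1) (fun f hf => (tq f hf).1)
    (T := tS h v 2 t d)
    (fun u hu' hz => by
      have hz' : ZbQ D v (5 * t + 2) d u = ZbQ D v (5 * t + 2) d w := (Prod.mk.inj hz).2
      have e0 : tS h v 2 t d u = tau (D.P h t) (ZbQ D v (5 * t + 1) d) (ZQ D v (5 * t + 1)) (ZbQ D v (5 * t + 2) d) u
        (ZbQ D v (5 * t + 2) d u) := rfl
      rw [e0, tQ_eq hqs d hu']
      have e1 := (D.P h t).pv_fac (ZbQ D v (5 * t + 2) d) (XLq v (5 * t + 1) d) (XLq v (5 * t + 1) d u) u w hz'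
      have e2 := (D.P h t).pv_fac (ZbQ D v (5 * t + 1) d) (XLq v (5 * t + 1) d) (XLq v (5 * t + 1) d u) u w
        (ZbQ_mono hqs d u w hz')
      simp only at e1 e2
      rw [e1, e2])
  linarith

/-- at `s = 5` the public class does not move -/
theorem sg_five (t : ℕ) (d : Fin 3) {w : Pt (Fin 3) X β φ} (hw : (D.P h t).p w ≠ 0) :
    sg h v t (5 * t + 4) (5 * t + 5) d w = 1 := by
  have e1 : NPq (φ := φ) D v (5 * t + 5) = NPq D v (5 * t + 4) := by
    unfold NPq
    rw [nc_emp t (by omega) le_rfl, nc_emp t (by omega) (by omega), nn_j t (by omega) le_rfl, nn_j t (by omega) (by omega)]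
  unfold sg
  rw [e1]
  exact div_self ((D.P h t).pv_self_pos (NPq D v (5 * t + 4)) (XLq v (5 * t + 4) d) hw).ne'

end row

end

end Pool.Agent.GMH.TP.HotIn
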