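import Pool.Agent.GMH.HotI0
import Pool.Agent.GMH.GainSum

/-!
# GMH/HotIc: count of the public moves of one thin letter (helper84)

* `sg_act` : one public step `5 t + 1 → 5 t + 5`; `sg_sum` : the sum over the run is at most `1080 n Lam / e ^ 2`;
* `gI_sum` : the classes of the state `5 t + 5` with `th ≤ gI` : sum at most `4320 n Lam / (th del ^ 2)`.
-/

set_option autoImplicit false
set_option linter.unusedSectionVars false

namespace Pool.Agent.GMH.TP.HotIn

open Finset Pool.Agent.PWZ Pool.Agent.M3 Pool.Agent.GM Pool.Agent.GM.Harm Pool.Agent.GMH Pool.Agent.GMH.NZ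
open Pool.Agent.GMH.V3 Pool.Agent.GMH.TP

noncomputable section

variable {X β γ φ : Type} [Fintype X] [Fintype β] [Fintype φ] [Nonempty X] [Nonempty β]
variable {D : HD (Fin 3) X β γ φ} {al : ℝ} (h : D.Thick al)
  {v : ℕ → Finset (Fin 3) → X → (Fin 3 → β) → Pt (Fin 3) X β φ}
variable {dg : ℕ → X → ℝ} {prr : ℕ → Fin 3 → φ → φ} {T : ℕ} {Lam : ℝ}

/-- the ratio is the ratio of `Key3P` -/
theorem sg_rr {t q q' : ℕ} (hq : q ≤ q') (d : Fin 3) {w : Pt (Fin 3) X β φ} (hw : (D.P h t).p w ≠ 0) :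
    sg h v t q q' d w = rr (D.P h t) (NPq D v q) (XLq v q d) (NPq D v q') w (NPq D v q' w) (XLq v q d w) := by
  have h1 := real_r (D.P h t) (NPq D v q) (XLq v q d) (NPq D v q') hw (XLq v q d w)
  rw [← h1]
  unfold sg
  congr 1
  exact (D.P h t).ce_congr_map (fun a b hab => by simp only [Prod.mk.injEq]; exact ⟨hab, NPq_mono hq a b hab⟩)
    (fun a b hab => (Prod.mk.inj hab).1) _ w

theorem sg_act1 {t q q' : ℕ} (hq : q ≤ q') (d : Fin 3) {e : ℝ} (he : 0 < e) (he1 : e ≤ 1) :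
    (D.P h t).Pr (fun w => e < |sg h v t q q' d w - 1|) ≤
      120 / e ^ 2 * (D.P h t).I (XLq v q d) (NPq D v q') (NPq D v q) := by
  have h1 := act_real (D.P h t) (NPq D v q) (XLq v q d) (NPq D v q') he he1
  rw [gn_eq, FP.I_comm] at h1
  refine le_trans (le_of_eq ?_) h1
  unfold FP.Pr
  refine FP.E_congr _ fun w hw => ?_
  show ind (e < |sg h v t q q' d w - 1|) = _
  rw [sg_rr h hq d hw]

/-- one public step -/
theorem sg_act (t : ℕ) (d : Fin 3) {e : ℝ} (he : 0 < e) (he1 : e ≤ 1) :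
    (D.P h t).Pr (fun w => e < |sg h v t (5 * t + 1) (5 * t + 5) d w - 1|) ≤
      120 / e ^ 2 * (D.P h t).I (XL v (t + 1) d) (Vt v (t + 1) ∅) (NP D v (t + 1) (t + 1)) := by
  refine (sg_act1 h (by omega) d he he1).trans (mul_le_mul_of_nonneg_left ?_ (by positivity))
  have e1 : XLq (φ := φ) v (5 * t + 1) d = XL v (t + 1) d := by
    unfold XLq
    rw [nc_1 t (pth_sing d)]
  have e2 : NPq (φ := φ) D v (5 * t + 1) = NP D v (t + 1) (t + 1) := by
    unfold NPq
    rw [nc_1 t pth_emp, nn_1]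
  have e3 : NPq (φ := φ) D v (5 * t + 5) = NP D v (t + 2) (t + 1) := by
    unfold NPq
    rw [nc_emp t (by omega) (by omega), nn_5]
  rw [e1, e2, e3]
  refine le_of_eq ?_
  have k1 : (D.P h t).I (NP D v (t + 2) (t + 1)) (XL v (t + 1) d) (NP D v (t + 1) (t + 1)) =
      (D.P h t).I (Vt v (t + 1) ∅) (XL v (t + 1) d) (NP D v (t + 1) (t + 1)) := by
    refine le_antisymm ((D.P h t).I_mono _ fun a b hab => ?_) ((D.P h t).I_mono _ fun a b hab => ?_)
    · have g1 := Prod.mk.inj hab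
      have g2 := NP_eq.1 g1.2
      exact NP_eq.2 ⟨Um_eq.2 ⟨g2.1, g1.1⟩, g2.2⟩
    · have g1 := NP_eq.1 (Prod.mk.inj hab).1
      exact (Um_eq.1 g1.1).2
  rw [FP.I_comm, k1, FP.I_comm]

/-- **THE COUNT OF THE PUBLIC MOVES OF A LETTER** -/
theorem sg_sum (H : D.Hyp dg prr al T Lam) {n N1 : ℝ} (R : Run h (pr3 (Fin 3) n N1) (SS1 (Fin 3)) (AdmDep D) v)
    (hn : 1 ≤ n) (hN1 : 1 ≤ N1) (d : Fin 3) {e : ℝ} (he : 0 < e) (he1 : e ≤ 1) :
    ∑ t ∈ range T, (D.P h t).Pr (fun w => e < |sg h v t (5 * t + 1) (5 * t + 5) d w - 1|) ≤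
      1080 * (n * Lam) / e ^ 2 := by
  have h1 := gain_sum h H R.codes
  have h2 := Finset.sum_le_sum fun i (_ : i ∈ (univ : Finset (Fin 3))) => cost_thin (h := h) rfl H hn hN1 R i
  have h3 : ∑ t ∈ range T, (D.P h t).I (XL v (t + 1) d) (Vt v (t + 1) ∅) (NP D v (t + 1) (t + 1)) ≤
      ∑ t ∈ range T, (KV h v (fun u => dg t u.1) t (t + 1) t + KV h v (Vt v (t + 1) ∅) t (t + 1) (t + 1)) := by
    refine Finset.sum_le_sum fun t _ => ?_
    have g1 := KV_nonneg h (v := v) (fun u : Pt (Fin 3) X β φ => dg t u.1) t (t + 1) t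
    have g2 : (D.P h t).I (XL v (t + 1) d) (Vt v (t + 1) ∅) (NP D v (t + 1) (t + 1)) ≤
        KV h v (Vt v (t + 1) ∅) t (t + 1) (t + 1) := by
      unfold KV
      exact Finset.single_le_sum (f := fun i => (D.P h t).I (XL v (t + 1) i) (Vt v (t + 1) ∅) (NP D v (t + 1) (t + 1)))
        (fun i _ => FP.I_nonneg _ _ _ _) (mem_univ d)
    linarith
  have h4 : ∑ i : Fin 3, 3 * (n * Lam) = 9 * (n * Lam) := by
    rw [Finset.sum_const, Finset.card_univ, Fintype.card_fin]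
    ring
  rw [h4] at h2
  have h5 : ∑ t ∈ range T, (D.P h t).I (XL v (t + 1) d) (Vt v (t + 1) ∅) (NP D v (t + 1) (t + 1)) ≤ 9 * (n * Lam) :=
    h3.trans (h1.trans h2)
  have h6 := Finset.sum_le_sum fun t (_ : t ∈ range T) => sg_act h (v := v) t d he he1
  rw [← Finset.mul_sum] at h6
  refine h6.trans ((mul_le_mul_of_nonneg_left h5 (by positivity)).trans (le_of_eq ?_))
  ring

theorem gI_nn (del : ℝ) (t q : ℕ) (d : Fin 3) (w : Pt (Fin 3) X β φ) : 0 ≤ gI h v del t q d w :=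
  (D.P h t).ce_nonneg (fun _ _ => ind_nonneg _) w

/-- the mean of the public probability -/
theorem gI_E (del : ℝ) (t q : ℕ) (d : Fin 3) : (D.P h t).E (gI h v del t q d) =
    (D.P h t).Pr (fun u => del / 2 < |sg h v t q (5 * t + 5) d u - 1|) :=
  (D.P h t).E_ce _ _

/-- **THE CLASSES WHERE THE LETTER MOVES** -/
theorem gI_sum (H : D.Hyp dg prr al T Lam) {n N1 : ℝ} (R : Run h (pr3 (Fin 3) n N1) (SS1 (Fin 3)) (AdmDep D) v)
    (hn : 1 ≤ n) (hN1 : 1 ≤ N1) (d : Fin 3) {del th : ℝ} (hd : 0 < del) (hd1 : del ≤ 1) (hth : 0 < th) :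
    ∑ t ∈ range T, (D.P h t).Pr (fun w => th ≤ gI h v del t (5 * t + 1) d w) ≤
      4320 * (n * Lam) / (th * del ^ 2) := by
  have h1 : ∀ t ∈ range T, (D.P h t).Pr (fun w => th ≤ gI h v del t (5 * t + 1) d w) ≤
      1 / th * (D.P h t).Pr (fun u => del / 2 < |sg h v t (5 * t + 1) (5 * t + 5) d u - 1|) := by
    intro t _
    rw [← gI_E, ← FP.E_smul]
    unfold FP.Pr
    refine (D.P h t).E_mono fun w _ => ?_
    have g0 := gI_nn h (v := v) del t (5 * t + 1) d w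
    by_cases hw : th ≤ gI h v del t (5 * t + 1) d w
    · rw [ind_of hw, one_div, ← div_eq_inv_mul, le_div_iff₀ hth]
      linarith
    · rw [ind_not hw]
      positivity
  have h2 := sg_sum h H R hn hN1 d (e := del / 2) (by positivity) (by linarith)
  have h3 := Finset.sum_le_sum h1
  rw [← Finset.mul_sum] at h3
  refine h3.trans ((mul_le_mul_of_nonneg_left h2 (by positivity)).trans (le_of_eq ?_))
  field_simp
  ring

/-- the public probability is seen at the state `5 t + 5` -/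
theorem gI_fac (del : ℝ) (t q : ℕ) (d : Fin 3) : Fac (NPq (φ := φ) D v (5 * t + 5)) (gI h v del t q d) :=
  (D.P h t).ce_fac _ _

end

end Pool.Agent.GMH.TP.HotIn
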