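import Pool.Agent.GMH.HotNS
import Pool.Agent.GMH.TriB

/-!
# GMH.HotNR: the new saturation at a hardwired vertex, for the run (rows (H1), (H2) of note 4068; helper9)

Final state `5t + 5` of the step, law of the time `t`, tops `FQ v t`.  `b` is hardwired, `F_b` = top without `b`,
`F_d` = top without `d` (it sees `b` and `c`).
* `ZbQ_5`, `Wf_ZQ`, `FQ_det1`, `pv_push` : dictionary between the law of the time `t` and the saturated state of the time `t + 1`;
* **`ns_run`** : `E 1_G 1_act log (P(F_b | F_d, thin labels) / P(F_b | own))` at most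
  `2/(n N1) (Lo + 1) P(G) + 2/n ((log cc + 1 + log (1/al)) P(G, act) + P(G)/cc)`, `act` = event of (hidden point, points `b`,
  `c`, node, `F_d`), seen by `(F_d, thin labels)`, `G` = event of the class `TriS.Cb` of `b`;
* **`ns_rare`**, **`ns_rare_sum`** : `L P(G, act, F_b in Rr) ≤ ` the same `+ (e^L - 1) E 1_G 1_act P(Rr | own)`.
-/

set_option autoImplicit false
set_option linter.unusedSectionVars false
set_option linter.unusedVariables false

namespace Pool.Agent.GMH.TP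

open Finset Pool.Agent.PWZ Pool.Agent.M3 Pool.Agent.GM Pool.Agent.GM.Harm Pool.Agent.GMH Pool.Agent.GMH.NZ
open Pool.Agent.GMH.V3

noncomputable section

namespace HotNR

variable {X β γ φ : Type} [Fintype X] [Fintype β] [Fintype φ] [Nonempty X] [Nonempty β]
variable {D : HD (Fin 3) X β γ φ} {al : ℝ} {h : D.Thick al} {v : ℕ → Finset (Fin 3) → X → (Fin 3 → β) → Pt (Fin 3) X β φ}
variable {dg : ℕ → X → ℝ} {prr : ℕ → Fin 3 → φ → φ} {T : ℕ} {Lam : ℝ} {t : ℕ} {b c d : Fin 3}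

/-- what a face sees below, at the final state -/
theorem ZbQ_5 (i : Fin 3) : ZbQ (φ := φ) D v (5 * t + 5) i = Zf D (Um v (t + 2)) (t + 1) i := by
  funext w
  unfold ZbQ Zf
  rw [TriB.nn_5]
  refine Prod.ext (funext fun I => ?_) rfl
  show lo (SL v (5 * t + 5)) (univ.erase i) w I = lo (LL (Um v (t + 2))) (univ.erase i) w I
  unfold lo
  by_cases hI : I ⊂ univ.erase i
  · rw [if_pos hI, if_pos hI]
    unfold SL
    rw [TriB.nc_5 (lt_pth card3 (ne_univ i) hI)]
  · rw [if_neg hI, if_neg hI]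

/-- all thin labels, at the final state -/
theorem Wf_ZQ (bc : b ≠ c) (bd : b ≠ d) (cd : c ≠ d) {a e : Pt (Fin 3) X β φ} :
    Wf D (Um v (t + 2)) (t + 1) a = Wf D (Um v (t + 2)) (t + 1) e ↔ ZQ D v (5 * t + 5) a = ZQ D v (5 * t + 5) e := by
  rw [TriB.ZQ_5]
  unfold Wf
  rw [Prod.mk.injEq, Prod.mk.injEq (le (LL (Um v (t + 2))) ∅ a), le_eq, BB_eq]
  unfold nd
  rw [Prod.mk.injEq (D.qa (t + 1) a.1)]
  constructor
  · rintro ⟨⟨h1, -, h2, h3⟩, h4⟩
    have hz : ∀ j, (a.2.1 j, Um v (t + 2) {j} a.1 a.2.1) = (e.2.1 j, Um v (t + 2) {j} e.1 e.2.1) := fun j => congrFun h4 j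
    refine ⟨fun J hJ => ?_, funext fun j => congrArg Prod.fst (hz j), h2, funext h3⟩
    rw [TriB.LL_thin hJ]
    rcases TriB.pth_cases bc bd cd hJ with rfl | rfl | rfl | rfl
    · exact (LL_eq.1 (h1 ∅ (Finset.Subset.refl _))).1
    · exact congrArg Prod.snd (hz b)
    · exact congrArg Prod.snd (hz c)
    · exact congrArg Prod.snd (hz d)
  · rintro ⟨h1, h2, h3, h4⟩
    refine ⟨⟨fun I hI => ?_, fun j hj => absurd hj (Finset.notMem_empty j), h3, fun j => congrFun h4 j⟩, funext fun j => ?_⟩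
    · rw [Finset.subset_empty.1 hI]
      exact h1 ∅ (by unfold pth; simp)
    · exact Prod.ext (congrFun h2 j) ((TriB.LL_thin (by unfold pth; simp)).1 (h1 {j} (by unfold pth; simp)))

/-- **one old top is determined** by the new label and the final letters it sees -/
theorem FQ_det1 (H : D.Hyp dg prr al T Lam) {N : Finset (Fin 3) → ℝ} (R : Run h N (SS1 (Fin 3)) (AdmDep D) v)
    (hN : ∀ l : Fin 3, 0 < N (univ.erase l)) (ht : t < T) (i : Fin 3) {a e : Pt (Fin 3) X β φ}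
    (ha : (D.P h (t + 1)).p a ≠ 0) (he : (D.P h (t + 1)).p e ≠ 0) (hl : a.2.2 i = e.2.2 i)
    (hZ : ZbQ D v (5 * t + 5) i a = ZbQ D v (5 * t + 5) i e) :
    FQ v t i (old prr t a) = FQ v t i (old prr t e) := by
  have ha' := old_supp H ht ha
  have he' := old_supp H ht he
  have hZ0 : ZbQ D v (5 * t) i a = ZbQ D v (5 * t) i e := ZbQ_mono (by omega) i a e hZ
  unfold ZbQ at hZ0
  rw [Prod.mk.injEq, nn_0] at hZ0
  have hU : ∀ I, I ⊂ univ.erase i → Um v (t + 1) I a.1 a.2.1 = Um v (t + 1) I e.1 e.2.1 := by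
    intro I hI
    have hp : pth I := lt_pth card3 (ne_univ i) hI
    have h1 := lo_eq.1 hZ0.1 I hI
    unfold SL at h1
    have h2 := nc_add t 0 hp (by omega)
    rw [add_zero] at h2
    unfold ncj at h2
    rw [if_neg (Nat.not_lt_zero _)] at h2
    rw [h2] at h1
    exact (LL_eq.1 h1).1
  show LL (Um v (t + 1)) (univ.erase i) (old prr t a) = LL (Um v (t + 1)) (univ.erase i) (old prr t e)
  rw [LL_eq]
  refine ⟨?_, fun l hl' => ?_⟩
  · have hS : univ.erase i ∈ SS1 (Fin 3) := mem_SS1.2 (Finset.erase_ne_self.2 (mem_univ i))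
    have hu : (univ : Finset (Fin 3)) ∉ SS1 (Fin 3) := fun hh => mem_SS1.1 hh rfl
    refine R.top_det H hS hu (hN i) t ht.le (old prr t a) (old prr t e) ha' he' ?_ (fun I hI => hU I hI) ?_
    · exact hZ0.2
    · show prr t i (a.2.2 i) = prr t i (e.2.2 i)
      rw [hl]
  · have hli : l = i := by
      by_contra hne
      have h1 : i ∈ (univ.erase l : Finset (Fin 3)) := Finset.mem_erase.2 ⟨fun hh => hne hh.symm, mem_univ i⟩
      rw [hl'] at h1
      exact (Finset.mem_erase.1 h1).1 rfl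
    show prr t l (a.2.2 l) = prr t l (e.2.2 l)
    rw [hli, hl]

theorem Zb_old (q : ℕ) (i : Fin 3) (w : Pt (Fin 3) X β φ) : ZbQ D v q i (old prr t w) = ZbQ D v q i w := by
  unfold ZbQ
  refine Prod.ext (funext fun I => ?_) rfl
  show lo (SL v q) (univ.erase i) (old prr t w) I = lo (SL v q) (univ.erase i) w I
  unfold lo
  by_cases hI : I ⊂ univ.erase i
  · rw [if_pos hI, if_pos hI]
    exact congrArg some (TriS.SL_old (lt_pth card3 (ne_univ i) hI) t w)
  · rw [if_neg hI, if_neg hI]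

/-- conditional laws of the next time -/
theorem pv_push (H : D.Hyp dg prr al T Lam) (ht : t < T) {κ ρ : Type*} (W : Pt (Fin 3) X β φ → κ)
    (Y : Pt (Fin 3) X β φ → ρ) (w : Pt (Fin 3) X β φ) (f : ρ) :
    (D.P h (t + 1)).pv (fun u => W (old prr t u)) (fun u => Y (old prr t u)) w f =
      (D.P h t).pv W Y (old prr t w) f := by
  have hpr := H.kf_pr t ht
  rw [pv_num, pv_num]
  unfold FP.m
  rw [← push_E h hpr (fun u => ind (W u = W (old prr t w)) * ind (Y u = f)),
    ← push_E h hpr (fun u => ind (W u = W (old prr t w)))]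

theorem ssQ_old (q : ℕ) (i : Fin 3) (w : Pt (Fin 3) X β φ) : ssQ h v q i (old prr t w) = ssQ h v q i w := by
  rcases w with ⟨x, y, F⟩
  exact sp_fac _ _ _ _ _ rfl

theorem cb_old (U : Finset (Fin 3) → X → (Fin 3 → β) → List (Pt (Fin 3) X β φ)) (s : ℕ) (w : Pt (Fin 3) X β φ) :
    TriS.Cb D U s b (old prr t w) = TriS.Cb D U s b w := by
  unfold TriS.Cb
  refine Prod.ext (Prod.ext ?_ rfl) rfl
  rw [le_eq]
  intro I hI
  rw [Finset.subset_empty.1 hI, TriB.LL_thin (by unfold pth; simp)]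
  rfl

/-- **THE NEW SATURATION AT A HARDWIRED VERTEX, RUN FORM**: `b` hardwired, `F_d` sees `b` and `c`, `F_b` does not see `b`;
`act` = event of (hidden point, points `b`, `c`, node, top `F_d`), `G` = event of the class of `b` -/
theorem ns_run {n N1 : ℝ} (hn : 1 ≤ n) (hN1 : 1 ≤ N1) (H : D.Hyp dg prr al T Lam)
    (R : Run h (pr3 (Fin 3) n N1) (SS1 (Fin 3)) (AdmDep D) v) (ht : t < T) (bc : b ≠ c) (bd : b ≠ d) (cd : c ≠ d)
    {act : Pt (Fin 3) X β φ → Prop} (hact : Fac (fun w => (w.1, BB D (t + 1) {b, c} w, FQ v t d w)) act)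
    (hax : Fac (fun w => (FQ v t d w, ZQ D v (5 * t + 5) w)) act)
    {G : Pt (Fin 3) X β φ → Prop} (hG : Fac (TriS.Cb D (Um v (t + 2)) (t + 1) b) G) {Lo : ℝ}
    (hLo : ∀ w, (D.P h t).p w ≠ 0 → G w → ssQ h v (5 * t + 5) b w ≤ Lo) {cc : ℝ} (hcc : 0 < cc) :
    (D.P h t).E (fun w => ind (G w) * (ind (act w) * Real.log
      ((D.P h t).pv (fun u => (FQ v t d u, ZQ D v (5 * t + 5) u)) (FQ v t b) w (FQ v t b w) /
        (D.P h t).pv (ZbQ D v (5 * t + 5) b) (FQ v t b) w (FQ v t b w)))) ≤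
      2 / (n * N1) * ((Lo + 1) * (D.P h t).Pr G) +
        2 / n * ((Real.log cc + 1 + Real.log (1 / al)) * (D.P h t).Pr (fun w => G w ∧ act w) +
          1 / cc * (D.P h t).Pr G) := by
  have hN : ∀ l : Fin 3, 0 < pr3 (Fin 3) n N1 (univ.erase l) := fun l => zero_lt_one.trans_le (pr3_one hn hN1 _)
  have B : Bk h (pr3 (Fin 3) n N1) (SS1 (Fin 3)) (Um v (t + 2)) (t + 1) b c d := TriB.Bk_run hn hN1 R bc bd cd (t + 1)
  have hpr := H.kf_pr t ht
  set P1 := D.P h (t + 1) with hP1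
  set P0 := D.P h t with hP0
  set U := Um v (t + 2) with hU
  have hGo : ∀ w, G (old prr t w) = G w := fun w => hG _ _ (cb_old _ _ w)
  have hZo : ∀ w, ZQ D v (5 * t + 5) (old prr t w) = ZQ D v (5 * t + 5) w := fun w => TriS.ZQ_old (prr := prr) _ t w
  have ed : (univ.erase d : Finset (Fin 3)) = {b, c} := B.rot'.era2
  have k := ns_lin (h := h) (t := t + 1) B (Xl := fun w => FQ v t d (old prr t w)) (fun a e ha he hl hW =>
      FQ_det1 H R hN ht d ha he hl (ZQ_Zb _ d a e ((Wf_ZQ bc bd cd).1 hW)))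
    (Yl := fun w => FQ v t b (old prr t w)) (fun a e ha he hl hZ => by
      refine FQ_det1 H R hN ht b ha he hl ?_
      rw [ZbQ_5]; exact hZ)
    (act := fun w => act (old prr t w)) (fun a e ha he h1 h2 h3 => by
      have hZ : ZbQ D v (5 * t + 5) d a = ZbQ D v (5 * t + 5) d e := by
        rw [ZbQ_5]
        refine Zf_fac B.rot' a e (Prod.ext h1 ?_)
        show BB D (t + 1) (univ.erase d) a = BB D (t + 1) (univ.erase d) e
        rw [ed]; exact h2
      have h4 := FQ_det1 H R hN ht d ha he h3 hZ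
      have h5 := hact (old prr t a) (old prr t e) (by
        show (a.1, BB D (t + 1) {b, c} a, _) = (e.1, BB D (t + 1) {b, c} e, _)
        rw [h1, h2, h4])
      rw [h5])
    (fun a e ha he hx hW => by
      have h5 := hax (old prr t a) (old prr t e) (Prod.ext hx (by
        show ZQ D v (5 * t + 5) (old prr t a) = ZQ D v (5 * t + 5) (old prr t e)
        rw [hZo, hZo]
        exact (Wf_ZQ bc bd cd).1 hW))
      rw [h5])
    (G := G) hG (Lo := Lo) (fun w hw hGw => by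
      have h1 := hLo (old prr t w) (old_supp H ht hw) (by rw [hGo]; exact hGw)
      rw [ssQ_old, ← TriB.own_ss hw] at h1
      exact h1) hcc
  -- the left side at the law of the time `t`
  have e1 : P0.E (fun w => ind (G w) * (ind (act w) * Real.log
      (P0.pv (fun u => (FQ v t d u, ZQ D v (5 * t + 5) u)) (FQ v t b) w (FQ v t b w) /
        P0.pv (ZbQ D v (5 * t + 5) b) (FQ v t b) w (FQ v t b w)))) =
      P1.E (fun w => ind (G w) * (ind (act (old prr t w)) *
      Real.log (P1.pv (fun u => (FQ v t d (old prr t u), Wf D U (t + 1) u)) (fun u => FQ v t b (old prr t u)) w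
        (FQ v t b (old prr t w)) /
        P1.pv (Zf D U (t + 1) b) (fun u => FQ v t b (old prr t u)) w (FQ v t b (old prr t w))))) := by
    rw [← push_E h hpr]
    refine P1.E_congr fun w hw => ?_
    have a1 : P0.pv (fun u => (FQ v t d u, ZQ D v (5 * t + 5) u)) (FQ v t b) (old prr t w) (FQ v t b (old prr t w)) =
        P1.pv (fun u => (FQ v t d (old prr t u), Wf D U (t + 1) u)) (fun u => FQ v t b (old prr t u)) w
        (FQ v t b (old prr t w)) := by
      rw [← pv_push H ht]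
      refine pv_supp (fun u _ => ?_) (fun _ _ => rfl) _
      rw [Prod.mk.injEq, Prod.mk.injEq (FQ v t d (old prr t u)), hZo, hZo]
      exact and_congr_right fun _ => (Wf_ZQ bc bd cd).symm
    have a2 : P0.pv (ZbQ D v (5 * t + 5) b) (FQ v t b) (old prr t w) (FQ v t b (old prr t w)) =
        P1.pv (Zf D U (t + 1) b) (fun u => FQ v t b (old prr t u)) w (FQ v t b (old prr t w)) := by
      rw [← pv_push H ht, ← ZbQ_5]
      refine pv_supp (fun u _ => ?_) (fun _ _ => rfl) _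
      rw [Zb_old, Zb_old]
    rw [a1, a2, hGo]
  have e2 : P1.Pr G = P0.Pr G := by
    have := push_E h hpr (fun w => ind (G w))
    unfold FP.Pr
    rw [← this]
    exact P1.E_congr fun w _ => by rw [hGo]
  have e3 : P1.Pr (fun w => G w ∧ act (old prr t w)) = P0.Pr (fun w => G w ∧ act w) := by
    have := push_E h hpr (fun w => ind (G w ∧ act w))
    unfold FP.Pr
    rw [← this]
    exact P1.E_congr fun w _ => by rw [hGo]
  rw [e2, e3, pr3_top (by simp) n N1 b] at k
  have e4 : pr3 (Fin 3) n N1 ∅ = 1 := by unfold pr3; simp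
  have e5 : pr3 (Fin 3) n N1 {c} = N1 := by unfold pr3; simp
  rw [e4, e5] at k
  rw [e1]
  have n0 : 0 < n := by linarith
  have N0 : 0 < N1 := by linarith
  have hp : 0 < n * N1 := mul_pos n0 N0
  have k' := (le_div_iff₀' hp).2 k
  refine k'.trans (le_of_eq ?_)
  field_simp

/-- the class is seen by all the thin labels -/
theorem cb_fac (b : Fin 3) : Fac (ZQ (φ := φ) D v (5 * t + 5)) (TriS.Cb D (Um v (t + 2)) (t + 1) b) :=
  (TriS.VZ_final 5 t).trans (TriS.VZ_Cb (by simp [qe]))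

/-- **A RARE RELATION OF THE TWO TOPS**, `F_b` in the row `Rr` of `(F_d, thin labels)` while `F_d` is active -/
theorem ns_rare {n N1 : ℝ} (hn : 1 ≤ n) (hN1 : 1 ≤ N1) (H : D.Hyp dg prr al T Lam)
    (R : Run h (pr3 (Fin 3) n N1) (SS1 (Fin 3)) (AdmDep D) v) (ht : t < T) (bc : b ≠ c) (bd : b ≠ d) (cd : c ≠ d)
    {act : Pt (Fin 3) X β φ → Prop} (hact : Fac (fun w => (w.1, BB D (t + 1) {b, c} w, FQ v t d w)) act)
    (hax : Fac (fun w => (FQ v t d w, ZQ D v (5 * t + 5) w)) act)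
    {G : Pt (Fin 3) X β φ → Prop} (hG : Fac (TriS.Cb D (Um v (t + 2)) (t + 1) b) G) {Lo : ℝ}
    (hLo : ∀ w, (D.P h t).p w ≠ 0 → G w → ssQ h v (5 * t + 5) b w ≤ Lo) {cc : ℝ} (hcc : 0 < cc)
    {Rr : Pt (Fin 3) X β φ → List (Pt (Fin 3) X β φ) × (Fin 3 → Option φ) → Prop}
    (hR : ∀ f, Fac (fun w => (FQ v t d w, ZQ D v (5 * t + 5) w)) (fun w => Rr w f)) {L : ℝ} (hL : 0 ≤ L) :
    L * (D.P h t).Pr (fun w => (G w ∧ act w) ∧ Rr w (FQ v t b w)) ≤
      2 / (n * N1) * ((Lo + 1) * (D.P h t).Pr G) +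
        2 / n * ((Real.log cc + 1 + Real.log (1 / al)) * (D.P h t).Pr (fun w => G w ∧ act w) +
          1 / cc * (D.P h t).Pr G) +
      (Real.exp L - 1) * (D.P h t).E (fun w => ind (G w ∧ act w) *
        ∑ f ∈ vals (FQ v t b), (D.P h t).pv (ZbQ D v (5 * t + 5) b) (FQ v t b) w f * ind (Rr w f)) := by
  have k1 := ns_run hn hN1 H R ht bc bd cd hact hax hG hLo hcc
  have hu : Fac (fun w => (FQ v t d w, ZQ D v (5 * t + 5) w)) (fun w => ind (G w ∧ act w)) := by
    intro a e hae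
    have h1 : act a = act e := hax a e hae
    have h2 : G a = G e := hG _ _ (cb_fac b a e (congrArg Prod.snd hae))
    show ind (G a ∧ act a) = ind (G e ∧ act e)
    rw [h1, h2]
  have k2 := rare_row (P := D.P h t) (Y := FQ v t b) (W := fun w => (FQ v t d w, ZQ D v (5 * t + 5) w))
    (Z := ZbQ D v (5 * t + 5) b) ((Fac.snd _ _).trans (ZQ_Zb _ b)) hu (fun w => ind_nonneg _) hR hL
  have e1 : (D.P h t).E (fun w => ind (G w ∧ act w) * ind (Rr w (FQ v t b w))) =
      (D.P h t).Pr (fun w => (G w ∧ act w) ∧ Rr w (FQ v t b w)) := FP.E_congr _ fun w _ => (ind_and _ _).symm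
  have e2 : (D.P h t).E (fun w => ind (G w ∧ act w) * Real.log
      ((D.P h t).pv (fun u => (FQ v t d u, ZQ D v (5 * t + 5) u)) (FQ v t b) w (FQ v t b w) /
        (D.P h t).pv (ZbQ D v (5 * t + 5) b) (FQ v t b) w (FQ v t b w))) =
      (D.P h t).E (fun w => ind (G w) * (ind (act w) * Real.log
      ((D.P h t).pv (fun u => (FQ v t d u, ZQ D v (5 * t + 5) u)) (FQ v t b) w (FQ v t b w) /
        (D.P h t).pv (ZbQ D v (5 * t + 5) b) (FQ v t b) w (FQ v t b w)))) :=
    FP.E_congr _ fun w _ => by rw [ind_and]; ring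
  rw [e1, e2] at k2
  linarith

/-- the same, summed over the times -/
theorem ns_rare_sum {n N1 : ℝ} (hn : 1 ≤ n) (hN1 : 1 ≤ N1) (H : D.Hyp dg prr al T Lam)
    (R : Run h (pr3 (Fin 3) n N1) (SS1 (Fin 3)) (AdmDep D) v) (bc : b ≠ c) (bd : b ≠ d) (cd : c ≠ d)
    {act : ℕ → Pt (Fin 3) X β φ → Prop}
    (hact : ∀ t < T, Fac (fun w => (w.1, BB D (t + 1) {b, c} w, FQ v t d w)) (act t))
    (hax : ∀ t < T, Fac (fun w => (FQ v t d w, ZQ D v (5 * t + 5) w)) (act t))
    {G : ℕ → Pt (Fin 3) X β φ → Prop} (hG : ∀ t < T, Fac (TriS.Cb D (Um v (t + 2)) (t + 1) b) (G t)) {Lo : ℝ}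
    (hLo0 : 0 ≤ Lo) (hLo : ∀ t < T, ∀ w, (D.P h t).p w ≠ 0 → G t w → ssQ h v (5 * t + 5) b w ≤ Lo)
    {Rr : ℕ → Pt (Fin 3) X β φ → List (Pt (Fin 3) X β φ) × (Fin 3 → Option φ) → Prop}
    (hR : ∀ t < T, ∀ f, Fac (fun w => (FQ v t d w, ZQ D v (5 * t + 5) w)) (fun w => Rr t w f)) {L : ℝ} (hL : 0 ≤ L)
    {NT MT : ℝ} (hNT0 : 0 < NT) (hNM : NT ≤ MT) (hNT : ∑ t ∈ range T, (D.P h t).Pr (fun w => G t w ∧ act t w) ≤ NT)
    (hMT : ∑ t ∈ range T, (D.P h t).Pr (G t) ≤ MT) :
    L * ∑ t ∈ range T, (D.P h t).Pr (fun w => (G t w ∧ act t w) ∧ Rr t w (FQ v t b w)) ≤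
      2 / (n * N1) * ((Lo + 1) * MT) + 2 / n * (NT * (Real.log (MT / NT) + 2 + Real.log (1 / al))) +
      (Real.exp L - 1) * ∑ t ∈ range T, (D.P h t).E (fun w => ind (G t w ∧ act t w) *
        ∑ f ∈ vals (FQ v t b), (D.P h t).pv (ZbQ D v (5 * t + 5) b) (FQ v t b) w f * ind (Rr t w f)) := by
  have hcc : 0 < MT / NT := div_pos (hNT0.trans_le hNM) hNT0
  have k := Finset.sum_le_sum fun t (ht : t ∈ range T) =>
    ns_rare hn hN1 H R (Finset.mem_range.1 ht) bc bd cd (hact t (Finset.mem_range.1 ht)) (hax t (Finset.mem_range.1 ht))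
      (hG t (Finset.mem_range.1 ht)) (hLo t (Finset.mem_range.1 ht)) hcc (hR t (Finset.mem_range.1 ht)) hL
  simp only [← Finset.mul_sum, Finset.sum_add_distrib] at k
  refine k.trans (add_le_add (add_le_add ?_ ?_) le_rfl)
  · have h1 := mul_le_mul_of_nonneg_left hMT (show 0 ≤ Lo + 1 by linarith)
    exact mul_le_mul_of_nonneg_left h1 (by positivity)
  · refine mul_le_mul_of_nonneg_left ?_ (by positivity)
    have hal : 0 ≤ Real.log (1 / al) := Real.log_nonneg (by
      rw [le_div_iff₀ h.pos, one_mul]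
      exact hal_one h b)
    have h0 : 0 ≤ Real.log (MT / NT) := Real.log_nonneg (by rw [le_div_iff₀ hNT0, one_mul]; exact hNM)
    have h1 := mul_le_mul_of_nonneg_left hNT (show 0 ≤ Real.log (MT / NT) + 1 + Real.log (1 / al) by linarith)
    have h2 := mul_le_mul_of_nonneg_left hMT (show 0 ≤ 1 / (MT / NT) by positivity)
    have h3 : 1 / (MT / NT) * MT = NT := by
      have : 0 < MT := hNT0.trans_le hNM
      field_simp
    rw [h3] at h2
    nlinarith

end HotNR

end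

end Pool.Agent.GMH.TP
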