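import Pool.Agent.GMH.HotIc
import Pool.Agent.GMH.HotNR
import Pool.Agent.GMH.HotK
import Pool.Agent.GMH.TopAl

/-!
# GMH/HotIn: THE INERT ROWS OF THE HOT POTENTIAL (helper84)

Top `d` (it sees `b`, `c`) is active and its OWN missing letter moves, `del < |tS - 1|`; the pair with the top `b` (it sees `c`,
`d`) is hot before the step and the top `b` is weak, `rS ≤ K` (in particular inert).  Steps `s = 1`, `s = 5`.
* `AS` : the pair `b`, `c` is alive before and after the step; `acP` : active; `InP` : the event;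
* `in_off` : where the letter moves with public probability below `th` : at most `(th + eI) Pr (active)` (no hot pair needed);
* `in_on` : the other classes (step `s = 1`), sum over the run, by the new saturation at the hardwired vertex (`HotNR`);
* **`in_sum1`**, **`in_sum5`** : the sums over the run.
`htau` (the relative independence of the own missing letter) is `tau_cls` of `GMH/HotIa`.
-/

set_option autoImplicit false
set_option linter.unusedSectionVars false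
set_option linter.unusedVariables false

namespace Pool.Agent.GMH.TP.HotIn

open Finset Pool.Agent.PWZ Pool.Agent.M3 Pool.Agent.GM Pool.Agent.GM.Harm Pool.Agent.GMH Pool.Agent.GMH.NZ
open Pool.Agent.GMH.V3 Pool.Agent.GMH.TP

noncomputable section

theorem pv_zero' {Om ζ ζ' κ : Type*} [Fintype Om] {P : FP Om} {X : Om → κ} {Y : Om → ζ} {Y' : Om → ζ'} (hY : Fac Y' Y)
    {w : Om} (hw : P.p w ≠ 0) {x : κ} (h0 : P.pv Y X w x = 0) : P.pv Y' X w x = 0 := by
  have m1 := P.m_pos Y hw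
  have e1 : P.E (fun u => ind (Y u = Y w) * ind (X u = x)) = 0 := by
    have h1 : P.E (fun u => ind (Y u = Y w) * ind (X u = x)) / P.m Y w = 0 := h0
    rcases div_eq_zero_iff.1 h1 with h2 | h2
    · exact h2
    · exact absurd h2 m1.ne'
  have e2 : P.E (fun u => ind (Y' u = Y' w) * ind (X u = x)) ≤ P.E (fun u => ind (Y u = Y w) * ind (X u = x)) :=
    P.E_mono fun u _ => mul_le_mul_of_nonneg_right (ind_mono fun hh => hY u w hh) (ind_nonneg _)
  have e3 : 0 ≤ P.E (fun u => ind (Y' u = Y' w) * ind (X u = x)) :=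
    P.E_nonneg fun u _ => mul_nonneg (ind_nonneg _) (ind_nonneg _)
  show P.E (fun u => ind (Y' u = Y' w) * ind (X u = x)) / P.m Y' w = 0
  rw [le_antisymm (e2.trans e1.le) e3, zero_div]

variable {X β γ φ : Type} [Fintype X] [Fintype β] [Fintype φ] [Nonempty X] [Nonempty β]
variable {D : HD (Fin 3) X β γ φ} {al : ℝ} (h : D.Thick al)
  (v : ℕ → Finset (Fin 3) → X → (Fin 3 → β) → Pt (Fin 3) X β φ)
variable {dg : ℕ → X → ℝ} {prr : ℕ → Fin 3 → φ → φ} {T : ℕ} {Lam : ℝ}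

/-- the pair `b`, `c` is alive before and after the step -/
def AS (X1 dl : ℝ) (s : Fin 6) (t : ℕ) (b c : Fin 3) (w : Pt (Fin 3) X β φ) : Prop :=
  spQ h v (qs s t) b c w ≤ X1 ∧ spQ h v (5 * t + 5) b c w ≤ X1 ∧
    (s = 1 → dl * (D.P h t).m (NP D v (t + 1) t) w ≤ (D.P h t).m (NP D v (t + 1) (t + 1)) w)

/-- the top `d` is active in the step -/
def acP (e : ℝ) (s : Fin 6) (t : ℕ) (d : Fin 3) (w : Pt (Fin 3) X β φ) : Prop :=
  e < |rS h v s t d w (FQ v t d w) - 1|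

/-- **the inert event** for a relation `Ht` of the letter of the top `b` -/
def InP (X1 dl X0 e del K : ℝ) (Ht : Pt (Fin 3) X β φ → Tt X β φ → Prop) (s : Fin 6) (t : ℕ) (b c d : Fin 3)
    (w : Pt (Fin 3) X β φ) : Prop :=
  (AS h v X1 dl s t b c w ∧ ssQ h v (5 * t + 5) b w ≤ X0 ∧ acP h v e s t d w) ∧ del < |tS h v s t d w - 1| ∧
    Ht w (FQ v t b w) ∧ rS h v s t b w (FQ v t b w) ≤ K

variable {v}

/-! ### what the events see -/

theorem zb_np (q : ℕ) (d : Fin 3) : Fac (ZbQ (φ := φ) D v q d) (NPq D v q) := by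
  intro a b hab
  unfold ZbQ at hab
  have h1 : lo (SL (φ := φ) v q) (univ.erase d) a = lo (SL v q) (univ.erase d) b := (Prod.mk.inj hab).1
  have h2 := BB_eq.1 (Prod.mk.inj hab).2
  have h3 := lo_eq.1 h1 ∅ ((Zb_idx d ∅).2 (Or.inl rfl))
  unfold SL at h3
  unfold NPq NP nd
  exact Prod.ext (LL_eq.1 h3).1 (Prod.ext h2.2.1 (funext h2.2.2))

theorem zb_xl (q : ℕ) {b d : Fin 3} (hbd : b ≠ d) : Fac (ZbQ (φ := φ) D v q d) (XLq v q b) := by
  intro x y hab
  unfold ZbQ at hab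
  have h1 : lo (SL (φ := φ) v q) (univ.erase d) x = lo (SL v q) (univ.erase d) y := (Prod.mk.inj hab).1
  have h2 := BB_eq.1 (Prod.mk.inj hab).2
  have h3 := lo_eq.1 h1 {b} ((Zb_idx d {b}).2 (Or.inr ⟨b, hbd, rfl⟩))
  unfold SL at h3
  exact Prod.ext (h2.1 b (Finset.mem_erase.2 ⟨hbd, mem_univ b⟩)) (LL_eq.1 h3).1

theorem sp_zb (q : ℕ) {b c d : Fin 3} (hbd : b ≠ d) (hcd : c ≠ d) : Fac (ZbQ (φ := φ) D v q d) (spQ h v q b c) := by
  intro x y hab
  have h1 := zb_np q d x y hab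
  have h2 := zb_xl q hbd x y hab
  have h3 := zb_xl q hcd x y hab
  have e2 : x.2.1 b = y.2.1 b := congrArg Prod.fst h2
  have e3 : x.2.1 c = y.2.1 c := congrArg Prod.fst h3
  exact sp_fac _ _ _ x y (Prod.ext (Prod.ext h2 h3) (Prod.ext e2 (Prod.ext e3 h1)))

theorem m_np {t : ℕ} {s n : ℕ} : Fac (NP (φ := φ) D v s n) (fun w => (D.P h t).m (NP D v s n) w) := by
  intro a b hab
  show (D.P h t).m (NP D v s n) a = (D.P h t).m (NP D v s n) b
  unfold FP.m
  rw [hab]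

theorem AS_zb (X1 dl : ℝ) {s : Fin 6} (hs : s = 1 ∨ s = 5) (t : ℕ) {b c d : Fin 3} (hbd : b ≠ d) (hcd : c ≠ d) :
    Fac (ZbQ (φ := φ) D v (5 * t + 5) d) (AS h v X1 dl s t b c) := by
  intro x y hab
  have hq : qs s t ≤ 5 * t + 5 := by rcases hs with rfl | rfl <;> simp [qs]
  have e1 := sp_zb h (qs s t) hbd hcd x y (ZbQ_mono hq d x y hab)
  have e2 := sp_zb h (5 * t + 5) hbd hcd x y hab
  have h1 := NPq_mono (φ := φ) (D := D) (v := v) (show 5 * t + 1 ≤ 5 * t + 5 by omega) x y (zb_np (5 * t + 5) d x y hab)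
  have e3 : NP D v (t + 1) (t + 1) x = NP D v (t + 1) (t + 1) y := by
    unfold NPq at h1
    rwa [nc_1 t pth_emp, nn_1] at h1
  have e4 : NP D v (t + 1) t x = NP D v (t + 1) t y := by
    have h2 := NP_eq.1 e3
    exact NP_eq.2 ⟨h2.1, nd_older (Nat.le_succ t) h2.2⟩
  have e5 := m_np h (t := t) x y e3
  have e6 := m_np h (t := t) x y e4
  show (spQ h v (qs s t) b c x ≤ X1 ∧ spQ h v (5 * t + 5) b c x ≤ X1 ∧
    (s = 1 → dl * (D.P h t).m (NP D v (t + 1) t) x ≤ (D.P h t).m (NP D v (t + 1) (t + 1)) x)) =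
    (spQ h v (qs s t) b c y ≤ X1 ∧ spQ h v (5 * t + 5) b c y ≤ X1 ∧
    (s = 1 → dl * (D.P h t).m (NP D v (t + 1) t) y ≤ (D.P h t).m (NP D v (t + 1) (t + 1)) y))
  rw [e1, e2]
  have e5' : (D.P h t).m (NP D v (t + 1) (t + 1)) x = (D.P h t).m (NP D v (t + 1) (t + 1)) y := e5
  have e6' : (D.P h t).m (NP D v (t + 1) t) x = (D.P h t).m (NP D v (t + 1) t) y := e6
  rw [e5', e6']

theorem rS_zb (s : Fin 6) (t : ℕ) (d : Fin 3) (x : Tt X β φ) :
    Fac (ZbQ (φ := φ) D v (qe s t) d) (fun w => rS h v s t d w x) := by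
  intro a b hab
  show rr (D.P h t) (ZbQ D v (qs s t) d) (FQ v t d) (ZbQ D v (qe s t) d) a (ZbQ D v (qe s t) d a) x =
    rr (D.P h t) (ZbQ D v (qs s t) d) (FQ v t d) (ZbQ D v (qe s t) d) b (ZbQ D v (qe s t) d b) x
  rw [hab]
  exact rrc _ _ _ (ZbQ_mono (qs_le_qe s t) d a b hab) _ _

theorem qe_15 {s : Fin 6} (hs : s = 1 ∨ s = 5) (t : ℕ) : qe s t = 5 * t + 5 := by
  rcases hs with rfl | rfl <;> rfl

theorem acP_fz (e : ℝ) {s : Fin 6} (hs : s = 1 ∨ s = 5) (t : ℕ) (d : Fin 3) :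
    Fac (fun w : Pt (Fin 3) X β φ => (FQ v t d w, ZbQ D v (5 * t + 5) d w)) (acP h v e s t d) := by
  intro a b hab
  have h1 : FQ v t d a = FQ v t d b := (Prod.mk.inj hab).1
  have h2 : ZbQ D v (qe s t) d a = ZbQ D v (qe s t) d b := by rw [qe_15 hs]; exact (Prod.mk.inj hab).2
  show (e < |rS h v s t d a (FQ v t d a) - 1|) = (e < |rS h v s t d b (FQ v t d b) - 1|)
  rw [h1]
  have h3 : rS h v s t d a (FQ v t d b) = rS h v s t d b (FQ v t d b) := rS_zb h s t d _ a b h2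
  rw [h3]

theorem gI_fz (del : ℝ) (t q : ℕ) (d : Fin 3) : Fac (ZbQ (φ := φ) D v (5 * t + 5) d) (gI h v del t q d) :=
  fun a b hab => gI_fac h del t q d a b (zb_np _ d a b hab)

/-! ### small public probability -/

/-- **NO HOT PAIR NEEDED** -/
theorem in_off {X1 dl e del th eI : ℝ} (hI : 0 ≤ th + eI) {s : Fin 6} (hs : s = 1 ∨ s = 5) (t : ℕ) {b c d : Fin 3}
    (hbd : b ≠ d) (hcd : c ≠ d)
    (htau : ∀ w, (D.P h t).p w ≠ 0 → AS h v X1 dl s t b c w →
      (D.P h t).ce (fun u => (FQ v t d u, ZbQ D v (5 * t + 5) d u)) (fun u => ind (del < |tS h v s t d u - 1|)) w ≤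
        gI h v del t (qs s t) d w + eI) :
    (D.P h t).Pr (fun w => (AS h v X1 dl s t b c w ∧ acP h v e s t d w ∧ gI h v del t (qs s t) d w < th) ∧
      del < |tS h v s t d w - 1|) ≤ (th + eI) * (D.P h t).Pr (acP h v e s t d) := by
  set P := D.P h t with hP
  set W : Pt (Fin 3) X β φ → _ := fun u => (FQ v t d u, ZbQ D v (5 * t + 5) d u) with hW
  set U : Pt (Fin 3) X β φ → Prop := fun w => AS h v X1 dl s t b c w ∧ acP h v e s t d w ∧
    gI h v del t (qs s t) d w < th with hU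
  have fU : Fac W (fun w => ind (U w)) := by
    intro a e' hab
    have h1 := (Prod.mk.inj hab).2
    have k1 : AS h v X1 dl s t b c a = AS h v X1 dl s t b c e' := AS_zb h X1 dl hs t hbd hcd a e' h1
    have k2 : acP h v e s t d a = acP h v e s t d e' := acP_fz h e hs t d a e' hab
    have k3 : gI h v del t (qs s t) d a = gI h v del t (qs s t) d e' := gI_fz h del t (qs s t) d a e' h1
    show ind (AS h v X1 dl s t b c a ∧ acP h v e s t d a ∧ gI h v del t (qs s t) d a < th) =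
      ind (AS h v X1 dl s t b c e' ∧ acP h v e s t d e' ∧ gI h v del t (qs s t) d e' < th)
    rw [k1, k2, k3]
  have e1 : P.Pr (fun w => U w ∧ del < |tS h v s t d w - 1|) =
      P.E (fun w => ind (U w) * P.ce W (fun u => ind (del < |tS h v s t d u - 1|)) w) := by
    unfold FP.Pr
    rw [← P.E_ce W (fun w => ind (U w ∧ del < |tS h v s t d w - 1|))]
    refine P.E_congr fun w _ => ?_
    rw [← P.ce_mul fU]
    exact P.ce_congr (fun u _ => ind_and _ _) w
  rw [e1]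
  show _ ≤ (th + eI) * P.E (fun w => ind (acP h v e s t d w))
  rw [← P.E_smul]
  refine P.E_mono fun w hw => ?_
  by_cases hUw : U w
  · rw [ind_of hUw, one_mul]
    have h2 := htau w hw hUw.1
    have h3 := hUw.2.2
    have h4 : ind (acP h v e s t d w) = 1 := ind_of hUw.2.1
    rw [h4, mul_one]
    linarith
  · rw [ind_not hUw, zero_mul]
    exact mul_nonneg hI (ind_nonneg _)

/-! ### large public probability -/

theorem ZbQ_J {b c d : Fin 3} (hbd : b ≠ d) (hcd : c ≠ d) (hbc : b ≠ c) (hv : Codes D v) (t : ℕ) :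
    Fac (fun w : Pt (Fin 3) X β φ => (w.1, BB D (t + 1) {b, c} w)) (ZbQ D v (5 * t + 5) d) := by
  intro x y hxy
  have h1 : x.1 = y.1 := (Prod.mk.inj hxy).1
  have h2 : BB D (t + 1) {b, c} x = BB D (t + 1) {b, c} y := (Prod.mk.inj hxy).2
  have ed : (univ.erase d : Finset (Fin 3)) = {b, c} := by
    have key : ∀ b c d : Fin 3, b ≠ d → c ≠ d → b ≠ c → (univ.erase d : Finset (Fin 3)) = {b, c} := by decide
    exact key b c d hbd hcd hbc
  have h3 : BB D (t + 1) (univ.erase d) x = BB D (t + 1) (univ.erase d) y := by rw [ed]; exact h2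
  have h4 := BB_eq.1 h3
  unfold ZbQ
  rw [nn_5]
  refine Prod.ext (lo_eq.2 fun I hI => ?_) h3
  unfold SL
  rw [LL_eq]
  refine ⟨?_, fun l hl => ?_⟩
  · rw [h1]
    refine Um_codes hv ((nc_le _ I).trans (by rw [nn_5])) I y.1 (fun j hj => h4.1 j (hI.1 hj)) fun j => h4.2.2 j
  · exfalso
    have key : ∀ d l : Fin 3, ∀ I : Finset (Fin 3), I ⊂ univ.erase d → univ.erase l ≠ I := by decide
    exact key d l I hI hl

theorem acP_J (e : ℝ) {b c d : Fin 3} (hbd : b ≠ d) (hcd : c ≠ d) (hbc : b ≠ c) (hv : Codes D v) (t : ℕ) :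
    Fac (fun w : Pt (Fin 3) X β φ => (w.1, BB D (t + 1) {b, c} w, FQ v t d w)) (acP h v e 1 t d) := by
  intro x y hxy
  have h1 : x.1 = y.1 := (Prod.mk.inj hxy).1
  have h2 := Prod.mk.inj (Prod.mk.inj hxy).2
  exact acP_fz h e (Or.inl rfl) t d x y (Prod.ext h2.2 (ZbQ_J hbd hcd hbc hv t x y (Prod.ext h1 h2.1)))

/-- the event of the class of `b` -/
def GI (X0 th del : ℝ) (t : ℕ) (b d : Fin 3) (w : Pt (Fin 3) X β φ) : Prop :=
  th ≤ gI h v del t (5 * t + 1) d w ∧ ssQ h v (5 * t + 5) b w ≤ X0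

theorem GI_cb (X0 th del : ℝ) (t : ℕ) (b d : Fin 3) :
    Fac (TriS.Cb D (Um v (t + 2)) (t + 1) b) (GI h (v := v) X0 th del t b d) := by
  intro x y hxy
  have hxy' : ((le (LL (Um v (t + 2))) ∅ x, BB D (t + 1) ∅ x), x.2.1 b, Um v (t + 2) {b} x.1 x.2.1) =
      ((le (LL (Um v (t + 2))) ∅ y, BB D (t + 1) ∅ y), y.2.1 b, Um v (t + 2) {b} y.1 y.2.1) := hxy
  have h1 := Prod.mk.inj hxy'
  have h2 := Prod.mk.inj h1.1
  have h3 := Prod.mk.inj h1.2
  have h4 : NPq D v (5 * t + 5) x = NPq D v (5 * t + 5) y := by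
    unfold NPq NP nd
    rw [nc_emp t (by omega) (by omega), nn_5]
    have h5 := BB_eq.1 h2.2
    refine Prod.ext ?_ (Prod.ext h5.2.1 (funext h5.2.2))
    exact (LL_eq.1 (le_eq.1 h2.1 ∅ (Finset.Subset.refl _))).1
  have h6 : XLq v (5 * t + 5) b x = XLq v (5 * t + 5) b y := by
    unfold XLq
    rw [nc_i t 5 (by omega) b, if_pos (by omega)]
    exact h1.2
  have e1 : gI h v del t (5 * t + 1) d x = gI h v del t (5 * t + 1) d y := gI_fac h del t (5 * t + 1) d x y h4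
  have e2 : ssQ h v (5 * t + 5) b x = ssQ h v (5 * t + 5) b y :=
    sp_fac _ _ _ x y (Prod.ext h6 (Prod.ext h3.1 h4))
  show (th ≤ gI h v del t (5 * t + 1) d x ∧ ssQ h v (5 * t + 5) b x ≤ X0) =
    (th ≤ gI h v del t (5 * t + 1) d y ∧ ssQ h v (5 * t + 5) b y ≤ X0)
  rw [e1, e2]

/-- weak letters: the new mass of a row -/
theorem weak_row {t : ℕ} {b : Fin 3} {K rho : ℝ} (hK : 0 ≤ K) {Ht : Tt X β φ → Prop} {w : Pt (Fin 3) X β φ}
    (hw : (D.P h t).p w ≠ 0)
    (hr : ∑ f ∈ vals (FQ v t b), ind (Ht f) * (D.P h t).pv (ZbQ D v (5 * t + 1) b) (FQ v t b) w f ≤ rho) :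
    ∑ f ∈ vals (FQ v t b), (D.P h t).pv (ZbQ D v (5 * t + 5) b) (FQ v t b) w f * ind (Ht f ∧ rS h v 1 t b w f ≤ K) ≤
      K * rho := by
  refine le_trans (Finset.sum_le_sum fun f _ => ?_)
    ((le_of_eq (Finset.mul_sum _ _ _).symm).trans (mul_le_mul_of_nonneg_left hr hK))
  have n1 := (D.P h t).pv_nonneg (ZbQ D v (5 * t + 5) b) (FQ v t b) w f
  have n2 := (D.P h t).pv_nonneg (ZbQ D v (5 * t + 1) b) (FQ v t b) w f
  by_cases hf : Ht f ∧ rS h v 1 t b w f ≤ K
  · rw [ind_of hf, ind_of hf.1, mul_one, one_mul]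
    have h1 := rS_eq h (v := v) 1 t b hw f
    have h2 := hf.2
    rw [h1] at h2
    have h3 : (D.P h t).pv (ZbQ D v (5 * t + 5) b) (FQ v t b) w f / (D.P h t).pv (ZbQ D v (5 * t + 1) b) (FQ v t b) w f ≤
        K := h2
    rcases n2.eq_or_lt with h4 | h4
    · rw [pv_zero' (ZbQ_mono (show 5 * t + 1 ≤ 5 * t + 5 by omega) b) hw h4.symm, ← h4, mul_zero]
    · rwa [div_le_iff₀ h4] at h3
  · rw [ind_not hf, mul_zero]
    exact mul_nonneg hK (mul_nonneg (ind_nonneg _) n2)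

/-- the bound of the classes where the letter moves -/
def cI (al n N1 Lam X0 th del e K rho L : ℝ) : ℝ :=
  1 / L * (2 / (n * N1) * ((X0 + 1) * (4320 * (n * Lam) / (th * del ^ 2) + 240 * Lam / e ^ 2)) +
    2 / n * (240 * Lam / e ^ 2 * (Real.log ((4320 * (n * Lam) / (th * del ^ 2) + 240 * Lam / e ^ 2) / (240 * Lam / e ^ 2)) +
      2 + Real.log (1 / al))) + (Real.exp L - 1) * (K * rho * (240 * Lam / e ^ 2)))

/-- **THE CLASSES WHERE THE LETTER MOVES** -/
theorem in_on {n N1 : ℝ} (hn : 1 ≤ n) (hN1 : 1 ≤ N1) (H : D.Hyp dg prr al T Lam)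
    (R : Run h (pr3 (Fin 3) n N1) (SS1 (Fin 3)) (AdmDep D) v) (hLam : 0 < Lam) {b c d : Fin 3} (bc : b ≠ c) (bd : b ≠ d)
    (cd : c ≠ d) {X0 th del e K rho L : ℝ} (hX0 : 0 ≤ X0) (hth : 0 < th) (hdel : 0 < del) (hdel1 : del ≤ 1) (he : 0 < e)
    (he1 : e ≤ 1) (hK : 0 ≤ K) (hrho : 0 ≤ rho) (hL : 0 < L) {Ht : ℕ → Pt (Fin 3) X β φ → Tt X β φ → Prop}
    (hf : ∀ t < T, ∀ f, Fac (fun w => (FQ v t d w, ZQ D v (5 * t + 1) w)) (fun w => Ht t w f))
    (hr : ∀ t < T, ∀ w, (D.P h t).p w ≠ 0 →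
      ∑ f ∈ vals (FQ v t b), ind (Ht t w f) * (D.P h t).pv (ZbQ D v (5 * t + 1) b) (FQ v t b) w f ≤ rho) :
    ∑ t ∈ range T, (D.P h t).Pr (fun w => (GI h (v := v) X0 th del t b d w ∧ acP h v e 1 t d w) ∧
      Ht t w (FQ v t b w) ∧ rS h v 1 t b w (FQ v t b w) ≤ K) ≤ cI al n N1 Lam X0 th del e K rho L := by
  have hv := R.codes
  set NT := 240 * Lam / e ^ 2 with hNTd
  set MT := 4320 * (n * Lam) / (th * del ^ 2) + NT with hMTd
  have hNT0 : 0 < NT := by positivity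
  have n0 : 0 < n := by linarith
  have N0 : 0 < N1 := by linarith
  have hM0 : 0 ≤ 4320 * (n * Lam) / (th * del ^ 2) := by positivity
  have hNM : NT ≤ MT := by linarith
  -- activity
  have hact := ga_real h H R hn hN1 d he he1 (aw := fun _ _ _ => 1) (fun _ _ _ => le_rfl)
  have hNT1 : ∑ t ∈ range T, (D.P h t).Pr (acP h v e 1 t d) ≤ NT := by
    refine le_trans (Finset.sum_le_sum fun t _ => ?_) hact
    have h1 := Finset.single_le_sum (f := fun s => (D.P h t).E (fun w => (1 : ℝ) *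
      ind (e < |rS h v s t d w (FQ v t d w) - 1|))) (fun s _ => FP.E_nonneg _ fun _ _ =>
        mul_nonneg zero_le_one (ind_nonneg _)) (mem_univ (1 : Fin 6))
    refine le_trans (le_of_eq ?_) h1
    show (D.P h t).E (fun w => ind (acP h v e 1 t d w)) = (D.P h t).E (fun w => (1 : ℝ) *
      ind (e < |rS h v 1 t d w (FQ v t d w) - 1|))
    exact FP.E_congr _ fun w _ => (one_mul _).symm
  have hNT : ∑ t ∈ range T, (D.P h t).Pr (fun w => GI h (v := v) X0 th del t b d w ∧ acP h v e 1 t d w) ≤ NT :=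
    (Finset.sum_le_sum fun t _ => (D.P h t).Pr_mono fun w _ hh => hh.2).trans hNT1
  have hMT : ∑ t ∈ range T, (D.P h t).Pr (GI h (v := v) X0 th del t b d) ≤ MT := by
    refine (Finset.sum_le_sum fun t _ => (D.P h t).Pr_mono fun w _ hh => hh.1).trans ?_
    have h1 := gI_sum h H R hn hN1 d hdel hdel1 hth
    linarith
  have key := HotNR.ns_rare_sum (h := h) hn hN1 H R bc bd cd (act := fun t => acP h v e 1 t d)
    (fun t _ => acP_J h e bd cd bc hv t)
    (fun t _ x y hxy => acP_fz h e (Or.inl rfl) t d x y (Prod.ext (Prod.mk.inj hxy).1 (ZQ_Zb _ d x y (Prod.mk.inj hxy).2)))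
    (G := fun t => GI h (v := v) X0 th del t b d) (fun t _ => GI_cb h X0 th del t b d) hX0
    (fun t _ w _ hG => hG.2) (Rr := fun t w f => Ht t w f ∧ rS h v 1 t b w f ≤ K) (fun t ht f x y hxy => by
      have h1 := (Prod.mk.inj hxy).1
      have h2 : ZQ D v (5 * t + 5) x = ZQ D v (5 * t + 5) y := (Prod.mk.inj hxy).2
      have e1 : Ht t x f = Ht t y f := hf t ht f x y (Prod.ext h1 (ZQ_mono (by omega) x y h2))
      have e2 : rS h v 1 t b x f = rS h v 1 t b y f := rS_zb h 1 t b f x y (ZQ_Zb _ b x y h2)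
      show (Ht t x f ∧ rS h v 1 t b x f ≤ K) = (Ht t y f ∧ rS h v 1 t b y f ≤ K)
      rw [e1, e2]) hL.le hNT0 hNM hNT hMT
  have k2 : ∑ t ∈ range T, (D.P h t).E (fun w => ind (GI h (v := v) X0 th del t b d w ∧ acP h v e 1 t d w) *
      ∑ f ∈ vals (FQ v t b), (D.P h t).pv (ZbQ D v (5 * t + 5) b) (FQ v t b) w f *
        ind (Ht t w f ∧ rS h v 1 t b w f ≤ K)) ≤ K * rho * NT := by
    have h1 : ∀ t ∈ range T, (D.P h t).E (fun w => ind (GI h (v := v) X0 th del t b d w ∧ acP h v e 1 t d w) *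
      ∑ f ∈ vals (FQ v t b), (D.P h t).pv (ZbQ D v (5 * t + 5) b) (FQ v t b) w f *
        ind (Ht t w f ∧ rS h v 1 t b w f ≤ K)) ≤ K * rho * (D.P h t).Pr (fun w =>
          GI h (v := v) X0 th del t b d w ∧ acP h v e 1 t d w) := by
      intro t ht
      show _ ≤ K * rho * (D.P h t).E (fun w => ind (GI h (v := v) X0 th del t b d w ∧ acP h v e 1 t d w))
      rw [← FP.E_smul]
      refine FP.E_mono _ fun w hw => ?_
      rw [mul_comm (K * rho)]
      exact mul_le_mul_of_nonneg_left (weak_row h hK hw (hr t (Finset.mem_range.1 ht) w hw)) (ind_nonneg _)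
    refine (Finset.sum_le_sum h1).trans ?_
    rw [← Finset.mul_sum]
    exact mul_le_mul_of_nonneg_left hNT (mul_nonneg hK hrho)
  have k3 : 0 ≤ Real.exp L - 1 := by linarith [Real.add_one_le_exp L]
  have k4 := mul_le_mul_of_nonneg_left k2 k3
  have k5 := key.trans (add_le_add le_rfl k4)
  unfold cI
  rw [← hNTd, ← hMTd, one_div, ← div_eq_inv_mul, le_div_iff₀ hL, mul_comm]
  exact k5

end

end Pool.Agent.GMH.TP.HotIn
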