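import Pool.Agent.GMH.HotIn
import Pool.Agent.GMH.HotIa
import Pool.Agent.GMH.HotHq

/-!
# GMH/HotIq: THE INERT ROWS OF THE HOT POTENTIAL, SUM OVER THE RUN (helper84)

* `in_sum1`, `in_sum5` : the sums of the steps `s = 1`, `s = 5` for any relation `Ht` with thin rows (law of the time `t`);
* `HtQ` : the relation `hotQ a s` of `GMH/HotK`, rows at most `s exp (-a)`;
* `hnO` : table space: joint step, alive, hot pair of the vertex `i`, a top `d ≠ i` active with its OWN missing letter moving,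
  `del < |tS - 1|`, the other top weak (`rtO ≤ K`; in particular not active);
* **`hn_sum`** : `∑ Pr hnO ≤ 2 cIn + 2 Pr (dead)`.
-/

set_option autoImplicit false
set_option linter.unusedSectionVars false
set_option linter.unusedVariables false

namespace Pool.Agent.GMH.TP.HotIn

open Finset Pool.Agent.PWZ Pool.Agent.M3 Pool.Agent.GM Pool.Agent.GM.Harm Pool.Agent.GMH Pool.Agent.GMH.NZ
open Pool.Agent.GMH.V3 Pool.Agent.GMH.TP Pool.Agent.GMH.KF Pool.Agent.GMH.Dy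

noncomputable section

section pt

variable {X β γ φ : Type} [Fintype X] [Fintype β] [Fintype φ] [Nonempty X] [Nonempty β]
variable {D : HD (Fin 3) X β γ φ} {al : ℝ} (h : D.Thick al)
  {v : ℕ → Finset (Fin 3) → X → (Fin 3 → β) → Pt (Fin 3) X β φ}
variable {dg : ℕ → X → ℝ} {prr : ℕ → Fin 3 → φ → φ} {T : ℕ} {Lam : ℝ}

/-- `tau_cls` in the form of `in_off` -/
theorem tau_in (H : D.Hyp dg prr al T Lam) {n N1 : ℝ} (hn : 1 ≤ n) (hN1 : 1 ≤ N1)
    (R : Run h (pr3 (Fin 3) n N1) (SS1 (Fin 3)) (AdmDep D) v) {t : ℕ} (ht : t < T) {s : Fin 6} (hs : s = 1 ∨ s = 5)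
    {b c d : Fin 3} (bc : b ≠ c) (bd : b ≠ d) (cd : c ≠ d) {X1 dl a del : ℝ} (hdl : 0 < dl) (hdl1 : dl ≤ 1)
    (hda : Real.exp (-a) ≤ dl) (hd : 0 < del) (hd1 : del ≤ 1) {w : Pt (Fin 3) X β φ} (hw : (D.P h t).p w ≠ 0)
    (hA : AS h v X1 dl s t b c w) :
    (D.P h t).ce (fun u => (FQ v t d u, ZbQ D v (5 * t + 5) d u)) (fun u => ind (del < |tS h v s t d u - 1|)) w ≤
      gI h v del t (qs s t) d w + eI al N1 X1 dl a del := by
  have hsing : ∀ j : Fin 3, ({j} : Finset (Fin 3)) ∈ SS1 (Fin 3) := by decide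
  exact tau_cls H R (fun J _ => zero_le_one.trans (pr3_one hn hN1 J)) (by decide) hsing (HotHv.pr3_e n N1)
    (fun j => (HotHv.pr3_v n N1 j).ge) (by linarith) (by decide) (by decide)
    (fun l => zero_lt_one.trans_le (pr3_one hn hN1 _)) ht hs bc bd cd hw hA.1 hA.2.1 hA.2.2 hdl hdl1 hda hd hd1

omit [Fintype X] [Fintype β] [Fintype φ] [Nonempty X] [Nonempty β] in
theorem eI_nn {al N1 X1 dl a del : ℝ} (hal : 0 < al) (hdl : 0 < dl) (hd : 0 < del) : 0 ≤ eI al N1 X1 dl a del := by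
  unfold eI
  positivity

/-- the sum of the activity of one top in one step -/
theorem ac_sum (H : D.Hyp dg prr al T Lam) {n N1 : ℝ} (hn : 1 ≤ n) (hN1 : 1 ≤ N1)
    (R : Run h (pr3 (Fin 3) n N1) (SS1 (Fin 3)) (AdmDep D) v) (d : Fin 3) {e : ℝ} (he : 0 < e) (he1 : e ≤ 1) (s : Fin 6) :
    ∑ t ∈ range T, (D.P h t).Pr (acP h v e s t d) ≤ 240 * Lam / e ^ 2 := by
  have hact := ga_real h H R hn hN1 d he he1 (aw := fun _ _ _ => 1) (fun _ _ _ => le_rfl)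
  refine le_trans (Finset.sum_le_sum fun t _ => ?_) hact
  have h1 := Finset.single_le_sum (f := fun s => (D.P h t).E (fun w => (1 : ℝ) *
    ind (e < |rS h v s t d w (FQ v t d w) - 1|))) (fun s _ => FP.E_nonneg _ fun _ _ =>
      mul_nonneg zero_le_one (ind_nonneg _)) (mem_univ s)
  refine le_trans (le_of_eq ?_) h1
  show (D.P h t).E (fun w => ind (acP h v e s t d w)) = (D.P h t).E (fun w => (1 : ℝ) *
    ind (e < |rS h v s t d w (FQ v t d w) - 1|))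
  exact FP.E_congr _ fun w _ => (one_mul _).symm

/-- **STEP `s = 5`** : neither the hot pair nor the other top is used -/
theorem in_sum5 (H : D.Hyp dg prr al T Lam) {n N1 : ℝ} (hn : 1 ≤ n) (hN1 : 1 ≤ N1)
    (R : Run h (pr3 (Fin 3) n N1) (SS1 (Fin 3)) (AdmDep D) v) {b c d : Fin 3} (bc : b ≠ c) (bd : b ≠ d) (cd : c ≠ d)
    {X1 dl a del e : ℝ} (hdl : 0 < dl) (hdl1 : dl ≤ 1) (hda : Real.exp (-a) ≤ dl) (hd : 0 < del) (hd1 : del ≤ 1)
    (he : 0 < e) (he1 : e ≤ 1) :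
    ∑ t ∈ range T, (D.P h t).Pr (fun w => (AS h v X1 dl 5 t b c w ∧ acP h v e 5 t d w) ∧
      del < |tS h v 5 t d w - 1|) ≤ eI al N1 X1 dl a del * (240 * Lam / e ^ 2) := by
  have h0 := eI_nn h.pos (N1 := N1) (X1 := X1) (a := a) hdl hd
  have h1 : ∀ t ∈ range T, (D.P h t).Pr (fun w => (AS h v X1 dl 5 t b c w ∧ acP h v e 5 t d w) ∧
      del < |tS h v 5 t d w - 1|) ≤ eI al N1 X1 dl a del * (D.P h t).Pr (acP h v e 5 t d) := by
    intro t ht
    have ht' := Finset.mem_range.1 ht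
    refine le_of_forall_pos_le_add fun th hth => ?_
    have k1 := in_off h (th := th) (add_nonneg hth.le h0) (Or.inr rfl) t bd cd (X1 := X1) (dl := dl) (e := e) (del := del)
      (fun w hw hA => tau_in h H hn hN1 R ht' (Or.inr rfl) bc bd cd hdl hdl1 hda hd hd1 hw hA)
    have k2 : (D.P h t).Pr (fun w => (AS h v X1 dl 5 t b c w ∧ acP h v e 5 t d w) ∧ del < |tS h v 5 t d w - 1|) ≤
        (D.P h t).Pr (fun w => (AS h v X1 dl 5 t b c w ∧ acP h v e 5 t d w ∧ gI h v del t (qs 5 t) d w < th) ∧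
          del < |tS h v 5 t d w - 1|) := by
      refine (D.P h t).Pr_mono fun w hw hh => ⟨⟨hh.1.1, hh.1.2, ?_⟩, hh.2⟩
      have e1 : gI h v del t (5 * t + 4) d w = 0 := by
        unfold gI FP.ce
        have e2 : (D.P h t).E (fun u => ind (NPq D v (5 * t + 5) u = NPq D v (5 * t + 5) w) *
            ind (del / 2 < |sg h v t (5 * t + 4) (5 * t + 5) d u - 1|)) = 0 := by
          refine ((D.P h t).E_congr fun u hu => ?_).trans ((D.P h t).E_const 0)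
          rw [sg_five t d hu, sub_self, abs_zero, ind_not (not_lt.2 (by positivity)), mul_zero]
        rw [e2, zero_div]
      show gI h v del t (5 * t + 4) d w < th
      rw [e1]
      exact hth
    have k3 := (D.P h t).Pr_le_one (acP h v e 5 t d)
    have k4 := (D.P h t).Pr_nonneg (acP h v e 5 t d)
    nlinarith
  refine (Finset.sum_le_sum h1).trans ?_
  rw [← Finset.mul_sum]
  exact mul_le_mul_of_nonneg_left (ac_sum h H hn hN1 R d he he1 5) h0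

/-- **STEP `s = 1`** -/
theorem in_sum1 {n N1 : ℝ} (hn : 1 ≤ n) (hN1 : 1 ≤ N1) (H : D.Hyp dg prr al T Lam)
    (R : Run h (pr3 (Fin 3) n N1) (SS1 (Fin 3)) (AdmDep D) v) (hLam : 0 < Lam) {b c d : Fin 3} (bc : b ≠ c) (bd : b ≠ d)
    (cd : c ≠ d) {X0 X1 dl a th del e K rho L : ℝ} (hdl : 0 < dl) (hdl1 : dl ≤ 1) (hda : Real.exp (-a) ≤ dl)
    (hX0 : 0 ≤ X0) (hth : 0 < th) (hdel : 0 < del) (hdel1 : del ≤ 1) (he : 0 < e)
    (he1 : e ≤ 1) (hK : 0 ≤ K) (hrho : 0 ≤ rho) (hL : 0 < L) {Ht : ℕ → Pt (Fin 3) X β φ → Tt X β φ → Prop}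
    (hf : ∀ t < T, ∀ f, Fac (fun w => (FQ v t d w, ZQ D v (5 * t + 1) w)) (fun w => Ht t w f))
    (hr : ∀ t < T, ∀ w, (D.P h t).p w ≠ 0 →
      ∑ f ∈ vals (FQ v t b), ind (Ht t w f) * (D.P h t).pv (ZbQ D v (5 * t + 1) b) (FQ v t b) w f ≤ rho) :
    ∑ t ∈ range T, (D.P h t).Pr (InP h v X1 dl X0 e del K (Ht t) 1 t b c d) ≤
      (th + eI al N1 X1 dl a del) * (240 * Lam / e ^ 2) + cI al n N1 Lam X0 th del e K rho L := by
  have h0 := eI_nn h.pos (N1 := N1) (X1 := X1) (a := a) hdl hdel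
  have k0 := in_on h hn hN1 H R hLam bc bd cd hX0 hth hdel hdel1 he he1 hK hrho hL hf hr
  have k1 : ∀ t ∈ range T, (D.P h t).Pr (InP h v X1 dl X0 e del K (Ht t) 1 t b c d) ≤
      (th + eI al N1 X1 dl a del) * (D.P h t).Pr (acP h v e 1 t d) +
        (D.P h t).Pr (fun w => (GI h (v := v) X0 th del t b d w ∧ acP h v e 1 t d w) ∧
          Ht t w (FQ v t b w) ∧ rS h v 1 t b w (FQ v t b w) ≤ K) := by
    intro t ht
    have ht' := Finset.mem_range.1 ht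
    have k1 := in_off h (th := th) (add_nonneg hth.le h0) (Or.inl rfl) t bd cd (X1 := X1) (dl := dl) (e := e) (del := del)
      (fun w hw hA => tau_in h H hn hN1 R ht' (Or.inl rfl) bc bd cd hdl hdl1 hda hdel hdel1 hw hA)
    refine le_trans (le_trans ((D.P h t).Pr_mono fun w hw hh => ?_) ((D.P h t).Pr_or_le _ _)) (add_le_add k1 le_rfl)
    obtain ⟨⟨g1, g2, g3⟩, g4, g5, g6⟩ := hh
    rcases lt_or_ge (gI h v del t (5 * t + 1) d w) th with h2 | h2
    · exact Or.inl ⟨⟨g1, g3, h2⟩, g4⟩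
    · exact Or.inr ⟨⟨⟨h2, g2⟩, g3⟩, g5, g6⟩
  refine (Finset.sum_le_sum k1).trans ?_
  rw [Finset.sum_add_distrib, ← Finset.mul_sum]
  exact add_le_add (mul_le_mul_of_nonneg_left (ac_sum h H hn hN1 R d he he1 1) (add_nonneg hth.le h0)) k0

/-! ### the relation `hotQ` -/

variable (v) in
/-- the pair of the vertex `c` is hot, as a relation of the letter of the top `b` -/
def HtQ (a0 s0 : ℝ) (c b : Fin 3) (t : ℕ) (w : Pt (Fin 3) X β φ) (f : Tt X β φ) : Prop :=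
  hotQ (D.P h t) (ZQ D v (5 * t + 1)) (ZbQ D v (5 * t + 1)) (FQ v t) a0 s0 c w (Function.update (tup (FQ v t) w) b f)

theorem opp_3 {b c d : Fin 3} (bc : b ≠ c) (bd : b ≠ d) (cd : c ≠ d) : opp c = {d, b} := by
  have key : ∀ b c d : Fin 3, b ≠ c → b ≠ d → c ≠ d → univ.erase c = ({d, b} : Finset (Fin 3)) := by decide
  exact key b c d bc bd cd

theorem HtQ_fac (a0 s0 : ℝ) {b c d : Fin 3} (bc : b ≠ c) (bd : b ≠ d) (cd : c ≠ d) (t : ℕ) (f : Tt X β φ) :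
    Fac (fun w => (FQ v t d w, ZQ D v (5 * t + 1) w)) (fun w => HtQ h v a0 s0 c b t w f) := by
  intro x y hxy
  have h1 : FQ v t d x = FQ v t d y := (Prod.mk.inj hxy).1
  have h2 : ZQ D v (5 * t + 1) x = ZQ D v (5 * t + 1) y := (Prod.mk.inj hxy).2
  have e1 := hotQ_fac (D.P h t) (Zb := ZbQ D v (5 * t + 1)) (FQ v t) (fun i => ZQ_Zb (5 * t + 1) i) a0 s0 c
    (Function.update (tup (FQ v t) x) b f) x y h2
  show hotQ (D.P h t) (ZQ D v (5 * t + 1)) (ZbQ D v (5 * t + 1)) (FQ v t) a0 s0 c x _ =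
    hotQ (D.P h t) (ZQ D v (5 * t + 1)) (ZbQ D v (5 * t + 1)) (FQ v t) a0 s0 c y _
  refine Eq.trans e1 ?_
  refine propext (hotQ_dep _ _ _ _ a0 s0 c y fun l hl => ?_)
  rw [opp_3 bc bd cd, Finset.mem_insert, Finset.mem_singleton] at hl
  rcases hl with rfl | rfl
  · rw [Function.update_of_ne bd.symm, Function.update_of_ne bd.symm]
    exact h1
  · rw [Function.update_self, Function.update_self]

/-- the rows of `HtQ` are thin -/
theorem HtQ_row (a0 : ℝ) {s0 : ℝ} (hs0 : 0 ≤ s0) {b c d : Fin 3} (bc : b ≠ c) (bd : b ≠ d) (cd : c ≠ d) (t : ℕ)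
    (w : Pt (Fin 3) X β φ) :
    ∑ f ∈ vals (FQ v t b), ind (HtQ h v a0 s0 c b t w f) * (D.P h t).pv (ZbQ D v (5 * t + 1) b) (FQ v t b) w f ≤
      s0 * Real.exp (-a0) :=
  hotQ_row (D.P h t) (FQ v t) (Z := ZQ D v (5 * t + 1)) (Zb := ZbQ D v (5 * t + 1)) a0 hs0 (opp_3 bc bd cd) bd.symm w
    (tup (FQ v t) w)

theorem HtQ_true (a0 s0 : ℝ) (c b : Fin 3) (t : ℕ) (w : Pt (Fin 3) X β φ) : HtQ h v a0 s0 c b t w (FQ v t b w) ↔
    hotQ (D.P h t) (ZQ D v (5 * t + 1)) (ZbQ D v (5 * t + 1)) (FQ v t) a0 s0 c w (tup (FQ v t) w) := by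
  unfold HtQ
  have e : Function.update (tup (FQ v t) w) b (FQ v t b w) = tup (FQ v t) w := Function.update_eq_self b (tup (FQ v t) w)
  rw [e]

/-- the bound of one ordered pair of tops -/
def cIn (al n N1 Lam X0 X1 dl a th del e K rho L : ℝ) : ℝ :=
  (th + 2 * eI al N1 X1 dl a del) * (240 * Lam / e ^ 2) + cI al n N1 Lam X0 th del e K rho L

end pt

/-! ### table space -/

section tab

open Pool.Agent.GMH.TD Pool.Agent.GMH.MV Pool.Agent.GMH.MVI Pool.Agent.GMH.TRF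

variable {X β γ φ : Type} [Fintype X] [Fintype β] [Fintype φ] [Nonempty X] [Nonempty β]
variable {D : HD (Fin 3) X β γ φ} {al : ℝ} (h : D.Thick al) {prr : ℕ → Fin 3 → φ → φ} {T : ℕ} {W : Type} [Fintype W]
variable (tb : Tab D prr T W) (v : ℕ → Finset (Fin 3) → X → (Fin 3 → β) → Pt (Fin 3) X β φ)

/-- one ordered pair of tops: `d` active with its own missing letter moving, `b` weak -/
def hn1 (Al Ht : ℕ → Om W X β → Prop) (e del K : ℝ) (d b : Fin 3) (q : ℕ) (w : Om W X β) : Prop :=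
  (q % 5 = 1 ∨ q % 5 = 4) ∧ Al q w ∧ Ht q w ∧ acO h tb v e d q w ∧
    del < |tS h v (sO q) (q / 5) d (tb.pt (q / 5) w) - 1| ∧ rtO h tb v b q w ≤ K

/-- **THE INERT EVENT** of the vertex `i` -/
def hnO (i : Fin 3) (Al Ht : ℕ → Om W X β → Prop) (e del K : ℝ) (q : ℕ) (w : Om W X β) : Prop :=
  ∃ d b : Fin 3, d ≠ i ∧ b ≠ i ∧ b ≠ d ∧ hn1 h tb v Al Ht e del K d b q w

variable {h v}

/-- the deaths between two states -/
theorem kill_two (p : AP) {r r' q q' : ℕ} (h1 : r ≤ q) (h2 : q' ≤ r') (hq : q ≤ q') :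
    tb.Ps.Pr (fun w => Alv h v tb p q w ∧ ¬ Alv h v tb p q' w) ≤
      tb.Ps.Pr (Alv h v tb p r) - tb.Ps.Pr (Alv h v tb p r') := by
  have e1 : tb.Ps.Pr (fun w => Alv h v tb p q w ∧ ¬ Alv h v tb p q' w) = tb.Ps.Pr (Alv h v tb p q) -
      tb.Ps.Pr (Alv h v tb p q') := by
    unfold FP.Pr
    rw [← FP.E_sub]
    refine FP.E_congr _ fun w _ => ?_
    by_cases h3 : Alv h v tb p q' w
    · rw [ind_not (fun hh => hh.2 h3), ind_of h3, ind_of (Alv_anti h v tb hq h3), sub_self]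
    · rw [ind_not h3, sub_zero]
      exact ind_cg ⟨fun hh => hh.1, fun hh => ⟨hh, h3⟩⟩
  have e2 := tb.Ps.Pr_mono (s := Alv h v tb p q) (t := Alv h v tb p r) fun w _ hh => Alv_anti h v tb h1 hh
  have e3 := tb.Ps.Pr_mono (s := Alv h v tb p r') (t := Alv h v tb p q') fun w _ hh => Alv_anti h v tb h2 hh
  linarith

/-- one ordered pair, sum over the run -/
theorem hn1_sum {dg : ℕ → X → ℝ} {Lam : ℝ} (H : D.Hyp dg prr al T Lam) {n N1 : ℝ} (hn : 1 ≤ n) (hN1 : 1 ≤ N1)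
    (R : Run h (pr3 (Fin 3) n N1) (SS1 (Fin 3)) (AdmDep D) v) (hLam : 0 < Lam) {i d b : Fin 3} (di : d ≠ i) (bi : b ≠ i)
    (bd : b ≠ d) (p : AP) {Al : ℕ → Om W X β → Prop} {a0 s0 a th del e K L : ℝ} (hs0 : 0 ≤ s0) (hdl : 0 < p.dl)
    (hdl1 : p.dl ≤ 1) (hda : Real.exp (-a) ≤ p.dl) (hX0 : 0 ≤ p.X0) (hth : 0 < th) (hdel : 0 < del) (hdel1 : del ≤ 1)
    (he : 0 < e) (he1 : e ≤ 1) (hK : 0 ≤ K) (hL : 0 < L)
    (hAl : ∀ w, tb.Ps.p w ≠ 0 → ∀ q, Al q w → Alv h v tb p q w)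
    (hdg : ∀ w, tb.Ps.p w ≠ 0 → ∀ t < T, Al (5 * t + 1) w → p.dl * (D.P h t).m (NP D v (t + 1) t) (tb.pt t w) ≤
      (D.P h t).m (NP D v (t + 1) (t + 1)) (tb.pt t w)) :
    ∑ q ∈ range (5 * T), tb.Ps.Pr (hn1 h tb v Al (hotq h v tb i a0 s0) e del K d b q) ≤
      cIn al n N1 Lam p.X0 p.X1 p.dl a th del e K (s0 * Real.exp (-a0)) L +
        2 * tb.Ps.Pr (fun w => ¬ Alv h v tb p (5 * T) w) := by
  set k1 : ℕ → ℝ := fun t => (D.P h t).Pr (InP h v p.X1 p.dl p.X0 e del K (HtQ h v a0 s0 i b t) 1 t b i d) with hk1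
  set k5 : ℕ → ℝ := fun t => (D.P h t).Pr (fun w => (AS h v p.X1 p.dl 5 t b i w ∧ acP h v e 5 t d w) ∧
      del < |tS h v 5 t d w - 1|) with hk5
  set kk : ℕ → ℝ := fun t => tb.Ps.Pr (Alv h v tb p (5 * t)) - tb.Ps.Pr (Alv h v tb p (5 * (t + 1))) with hkk
  have z : ∀ q, q % 5 ≠ 1 → q % 5 ≠ 4 → tb.Ps.Pr (hn1 h tb v Al (hotq h v tb i a0 s0) e del K d b q) = 0 := by
    intro q g1 g4
    unfold FP.Pr
    rw [← tb.Ps.E_const 0]
    refine tb.Ps.E_congr fun w _ => ind_not fun hh => ?_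
    rcases hh.1 with g | g
    · exact g1 g
    · exact g4 g
  have one : ∀ t ∈ range T, tb.Ps.Pr (hn1 h tb v Al (hotq h v tb i a0 s0) e del K d b (5 * t + 1)) ≤ k1 t + kk t := by
    intro t ht
    have ht' := Finset.mem_range.1 ht
    have hP := pul_pt h tb ht'.le
    have hd1 : (5 * t + 1) / 5 = t := by omega
    have e1 : k1 t = tb.Ps.Pr (fun w => InP h v p.X1 p.dl p.X0 e del K (HtQ h v a0 s0 i b t) 1 t b i d (tb.pt t w)) := by
      rw [hk1]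
      unfold FP.Pr
      exact (hP.E _).symm
    have e2 := kill_two tb p (h := h) (v := v) (r := 5 * t) (r' := 5 * (t + 1)) (q := 5 * t + 1) (q' := 5 * t + 5)
      (by omega) (by omega) (by omega)
    rw [e1]
    refine le_trans (le_trans (tb.Ps.Pr_mono fun w hw hh => ?_) (tb.Ps.Pr_or_le _ _)) (add_le_add le_rfl e2)
    obtain ⟨-, g2, g3, g4, g5, g6⟩ := hh
    have hA1 := hAl w hw _ g2
    by_cases hA5 : Alv h v tb p (5 * t + 5) w
    · refine Or.inl ⟨⟨⟨?_, ?_, fun _ => hdg w hw t ht' g2⟩, ?_, ?_⟩, ?_, ?_, ?_⟩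
      · have h3 := (hA1 (5 * t + 1) le_rfl).2 b i bi
        exact h3
      · have h3 := (hA5 (5 * t + 5) le_rfl).2 b i bi
        exact h3
      · have h3 := (hA5 (5 * t + 5) le_rfl).1 b
        exact h3
      · have h3 := g4.2
        unfold rtO at h3
        rw [hd1, sO_v1 (by omega)] at h3
        exact h3
      · rw [hd1, sO_v1 (by omega)] at g5
        exact g5
      · refine (HtQ_true h a0 s0 i b t (tb.pt t w)).2 ?_
        unfold hotq at g3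
        rw [hd1] at g3
        exact g3
      · unfold rtO at g6
        rw [hd1, sO_v1 (by omega)] at g6
        exact g6
    · exact Or.inr ⟨hA1, hA5⟩
  have five : ∀ t ∈ range T, tb.Ps.Pr (hn1 h tb v Al (hotq h v tb i a0 s0) e del K d b (5 * t + 4)) ≤ k5 t + kk t := by
    intro t ht
    have ht' := Finset.mem_range.1 ht
    have hP := pul_pt h tb ht'.le
    have hd1 : (5 * t + 4) / 5 = t := by omega
    have e1 : k5 t = tb.Ps.Pr (fun w => (AS h v p.X1 p.dl 5 t b i (tb.pt t w) ∧ acP h v e 5 t d (tb.pt t w)) ∧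
        del < |tS h v 5 t d (tb.pt t w) - 1|) := by
      rw [hk5]
      unfold FP.Pr
      exact (hP.E _).symm
    have e2 := kill_two tb p (h := h) (v := v) (r := 5 * t) (r' := 5 * (t + 1)) (q := 5 * t + 4) (q' := 5 * t + 5)
      (by omega) (by omega) (by omega)
    rw [e1]
    refine le_trans (le_trans (tb.Ps.Pr_mono fun w hw hh => ?_) (tb.Ps.Pr_or_le _ _)) (add_le_add le_rfl e2)
    obtain ⟨-, g2, g3, g4, g5, g6⟩ := hh
    have hA1 := hAl w hw _ g2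
    by_cases hA5 : Alv h v tb p (5 * t + 5) w
    · refine Or.inl ⟨⟨⟨?_, ?_, fun hh => absurd hh (by decide)⟩, ?_⟩, ?_⟩
      · have h3 := (hA1 (5 * t + 4) le_rfl).2 b i bi
        exact h3
      · have h3 := (hA5 (5 * t + 5) le_rfl).2 b i bi
        exact h3
      · have h3 := g4.2
        unfold rtO at h3
        rw [hd1, sO_v4 (by omega)] at h3
        exact h3
      · rw [hd1, sO_v4 (by omega)] at g5
        exact g5
    · exact Or.inr ⟨hA1, hA5⟩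
  have hk : ∑ t ∈ range T, kk t ≤ tb.Ps.Pr (fun w => ¬ Alv h v tb p (5 * T) w) := by
    rw [hkk, Finset.sum_range_sub' (fun t => tb.Ps.Pr (Alv h v tb p (5 * t))), tb.Ps.Pr_not]
    linarith [tb.Ps.Pr_le_one (Alv h v tb p (5 * 0))]
  have s1 := in_sum1 h hn hN1 H R hLam bi bd di.symm (X1 := p.X1) (a := a) hdl hdl1 hda hX0 hth hdel hdel1 he he1 hK
    (rho := s0 * Real.exp (-a0)) (mul_nonneg hs0 (Real.exp_pos _).le) hL (Ht := fun t => HtQ h v a0 s0 i b t)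
    (fun t _ f => HtQ_fac h a0 s0 bi bd di.symm t f) (fun t _ w _ => HtQ_row h a0 hs0 bi bd di.symm t w)
  have s5 := in_sum5 h H hn hN1 R bi bd di.symm (X1 := p.X1) (a := a) hdl hdl1 hda hdel hdel1 he he1
  rw [TRF.sum_five]
  have key : ∀ t ∈ range T, (tb.Ps.Pr (hn1 h tb v Al (hotq h v tb i a0 s0) e del K d b (5 * t)) +
      tb.Ps.Pr (hn1 h tb v Al (hotq h v tb i a0 s0) e del K d b (5 * t + 1)) +
      tb.Ps.Pr (hn1 h tb v Al (hotq h v tb i a0 s0) e del K d b (5 * t + 2)) +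
      tb.Ps.Pr (hn1 h tb v Al (hotq h v tb i a0 s0) e del K d b (5 * t + 3)) +
      tb.Ps.Pr (hn1 h tb v Al (hotq h v tb i a0 s0) e del K d b (5 * t + 4))) ≤ k1 t + k5 t + 2 * kk t := by
    intro t ht
    rw [z (5 * t) (by omega) (by omega), z (5 * t + 2) (by omega) (by omega), z (5 * t + 3) (by omega) (by omega)]
    have g1 := one t ht
    have g5 := five t ht
    linarith
  refine (Finset.sum_le_sum key).trans ?_
  rw [Finset.sum_add_distrib, Finset.sum_add_distrib, ← Finset.mul_sum]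
  unfold cIn
  have s1' : ∑ t ∈ range T, k1 t ≤ (th + eI al N1 p.X1 p.dl a del) * (240 * Lam / e ^ 2) +
      cI al n N1 Lam p.X0 th del e K (s0 * Real.exp (-a0)) L := s1
  have s5' : ∑ t ∈ range T, k5 t ≤ eI al N1 p.X1 p.dl a del * (240 * Lam / e ^ 2) := s5
  nlinarith

/-- **THE INERT ROWS, SUM OVER THE RUN** -/
theorem hn_sum {dg : ℕ → X → ℝ} {Lam : ℝ} (H : D.Hyp dg prr al T Lam) {n N1 : ℝ} (hn : 1 ≤ n) (hN1 : 1 ≤ N1)
    (R : Run h (pr3 (Fin 3) n N1) (SS1 (Fin 3)) (AdmDep D) v) (hLam : 0 < Lam) (i : Fin 3) (p : AP)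
    {Al : ℕ → Om W X β → Prop} {a0 s0 a th del e K L : ℝ} (hs0 : 0 ≤ s0) (hdl : 0 < p.dl)
    (hdl1 : p.dl ≤ 1) (hda : Real.exp (-a) ≤ p.dl) (hX0 : 0 ≤ p.X0) (hth : 0 < th) (hdel : 0 < del) (hdel1 : del ≤ 1)
    (he : 0 < e) (he1 : e ≤ 1) (hK : 0 ≤ K) (hL : 0 < L)
    (hAl : ∀ w, tb.Ps.p w ≠ 0 → ∀ q, Al q w → Alv h v tb p q w)
    (hdg : ∀ w, tb.Ps.p w ≠ 0 → ∀ t < T, Al (5 * t + 1) w → p.dl * (D.P h t).m (NP D v (t + 1) t) (tb.pt t w) ≤
      (D.P h t).m (NP D v (t + 1) (t + 1)) (tb.pt t w)) :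
    ∑ q ∈ range (5 * T), tb.Ps.Pr (hnO h tb v i Al (hotq h v tb i a0 s0) e del K q) ≤
      2 * cIn al n N1 Lam p.X0 p.X1 p.dl a th del e K (s0 * Real.exp (-a0)) L +
        4 * tb.Ps.Pr (fun w => ¬ Alv h v tb p (5 * T) w) := by
  obtain ⟨j, k, hji, hki, hjk⟩ : ∃ j k : Fin 3, j ≠ i ∧ k ≠ i ∧ j ≠ k := by
    have key : ∀ i : Fin 3, ∃ j k : Fin 3, j ≠ i ∧ k ≠ i ∧ j ≠ k := by decide
    exact key i
  have g1 := hn1_sum tb H hn hN1 R hLam hji hki hjk.symm p hs0 hdl hdl1 hda hX0 hth hdel hdel1 he he1 hK hL hAl hdg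
    (a0 := a0)
  have g2 := hn1_sum tb H hn hN1 R hLam hki hji hjk p hs0 hdl hdl1 hda hX0 hth hdel hdel1 he he1 hK hL hAl hdg
    (a0 := a0)
  have g3 : ∀ q ∈ range (5 * T), tb.Ps.Pr (hnO h tb v i Al (hotq h v tb i a0 s0) e del K q) ≤
      tb.Ps.Pr (hn1 h tb v Al (hotq h v tb i a0 s0) e del K j k q) +
        tb.Ps.Pr (hn1 h tb v Al (hotq h v tb i a0 s0) e del K k j q) := by
    intro q _
    refine le_trans (tb.Ps.Pr_mono fun w _ hh => ?_) (tb.Ps.Pr_or_le _ _)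
    obtain ⟨d, b, h1, h2, h3, h4⟩ := hh
    have key : ∀ i j k d b : Fin 3, j ≠ i → k ≠ i → j ≠ k → d ≠ i → b ≠ i → b ≠ d → (d = j ∧ b = k) ∨ (d = k ∧ b = j) := by
      decide
    rcases key i j k d b hji hki hjk h1 h2 h3 with ⟨rfl, rfl⟩ | ⟨rfl, rfl⟩
    · exact Or.inl h4
    · exact Or.inr h4
  refine (Finset.sum_le_sum g3).trans ?_
  rw [Finset.sum_add_distrib]
  linarith

end tab

end

end Pool.Agent.GMH.TP.HotIn
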