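import Pool.Agent.GMH.Key3

/-!
# GMH.HotKL: the mass of the hot tuples is paid by the joint relative entropy of one step (row HOT, (H2); helper9)

`p`, `mu` = old and new joint law of the tops (`mu ≪ p`), `mgl` = marginals, `A` = a set of tuples with
`p ≥ D0 ∏ p_i`, `E` = a set of tuples which contains `{mu > K ∏ u_i}` (the new state is not near a product there).
* `hot_le` : `p(A) ≤ (3 + 2 K n) KL(mu | p) + 2 mu(A ∩ E)` if `24 K ≤ D0` (`n` = number of tops), for every size of `p(A)`;
* `hot_step` : the same for the conditional laws of a process, with a weight which sees the new state.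
-/

set_option autoImplicit false
set_option linter.unusedSectionVars false
set_option linter.unusedVariables false

namespace Pool.Agent.GMH

open Finset Pool.Agent.PWZ Pool.Agent.M3

noncomputable section

section fin

variable {ι φ : Type*} [Fintype ι] (s : ι → Finset φ)

/-- the tuples -/
def tps : Finset (ι → φ) := by
  classical
  exact Fintype.piFinset s

theorem mem_tps {f : ι → φ} : f ∈ tps s ↔ ∀ i, f i ∈ s i := by
  classical
  unfold tps
  exact Fintype.mem_piFinset

/-- the marginal laws -/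
def mgl (p : (ι → φ) → ℝ) (i : ι) (x : φ) : ℝ := ∑ f ∈ tps s, ind (f i = x) * p f

/-- relative entropy -/
def kls (mu p : (ι → φ) → ℝ) : ℝ := ∑ f ∈ tps s, mu f * Real.log (mu f / p f)

variable {s}

theorem sum_mgl (p : (ι → φ) → ℝ) (i : ι) (g : φ → ℝ) :
    ∑ x ∈ s i, mgl s p i x * g x = ∑ f ∈ tps s, p f * g (f i) := by
  unfold mgl
  simp only [Finset.sum_mul]
  rw [Finset.sum_comm]
  refine Finset.sum_congr rfl fun f hf => ?_
  rw [Finset.sum_eq_single (f i)]
  · rw [ind_of rfl]
    ring
  · intro x _ hx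
    rw [ind_not (fun h => hx h.symm)]
    ring
  · intro h
    exact absurd ((mem_tps s).1 hf i) h

theorem mgl_nn {p : (ι → φ) → ℝ} (hp : ∀ f ∈ tps s, 0 ≤ p f) (i : ι) (x : φ) : 0 ≤ mgl s p i x :=
  Finset.sum_nonneg fun f hf => mul_nonneg (ind_nonneg _) (hp f hf)

theorem mgl_ge {p : (ι → φ) → ℝ} (hp : ∀ f ∈ tps s, 0 ≤ p f) {f : ι → φ} (hf : f ∈ tps s) (i : ι) :
    p f ≤ mgl s p i (f i) := by
  unfold mgl
  have h := Finset.single_le_sum (f := fun g => ind (g i = f i) * p g)
    (fun g hg => mul_nonneg (ind_nonneg _) (hp g hg)) hf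
  have e : ind (f i = f i) * p f = p f := by rw [ind_of rfl, one_mul]
  have h' : ind (f i = f i) * p f ≤ ∑ g ∈ tps s, ind (g i = f i) * p g := h
  rw [e] at h'
  exact h'

theorem mgl_one {p : (ι → φ) → ℝ} (hp1 : ∑ f ∈ tps s, p f = 1) (i : ι) : ∑ x ∈ s i, mgl s p i x = 1 := by
  have h := sum_mgl (s := s) p i (fun _ => 1)
  simp only [mul_one] at h
  rw [h, hp1]

/-- sums over the product law -/
theorem sum_prod (q : ι → φ → ℝ) (h1 : ∀ i, ∑ x ∈ s i, q i x = 1) (i : ι) (g : φ → ℝ) :
    ∑ f ∈ tps s, (∏ j, q j (f j)) * g (f i) = ∑ x ∈ s i, q i x * g x := by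
  classical
  have e : ∀ f : ι → φ, (∏ j, q j (f j)) * g (f i) = ∏ j, (if j = i then q j (f j) * g (f j) else q j (f j)) := by
    intro f
    rw [← Finset.mul_prod_erase univ (fun j => q j (f j)) (mem_univ i),
      ← Finset.mul_prod_erase univ (fun j => if j = i then q j (f j) * g (f j) else q j (f j)) (mem_univ i), if_pos rfl]
    have : ∏ j ∈ univ.erase i, (if j = i then q j (f j) * g (f j) else q j (f j)) = ∏ j ∈ univ.erase i, q j (f j) :=
      Finset.prod_congr rfl fun j hj => if_neg (Finset.ne_of_mem_erase hj)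
    rw [this]
    ring
  unfold tps
  simp only [e]
  rw [← Finset.prod_univ_sum s (fun j x => if j = i then q j x * g x else q j x)]
  rw [← Finset.mul_prod_erase univ _ (mem_univ i)]
  have : ∏ j ∈ univ.erase i, ∑ x ∈ s j, (if j = i then q j x * g x else q j x) = 1 :=
    Finset.prod_eq_one fun j hj => by
      rw [← h1 j]
      exact Finset.sum_congr rfl fun x _ => if_neg (Finset.ne_of_mem_erase hj)
  rw [this, mul_one]
  exact Finset.sum_congr rfl fun x _ => if_pos rfl

theorem sum_prod_one (q : ι → φ → ℝ) (h1 : ∀ i, ∑ x ∈ s i, q i x = 1) : ∑ f ∈ tps s, ∏ j, q j (f j) = 1 := by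
  classical
  unfold tps
  rw [← Finset.prod_univ_sum s (fun j x => q j x)]
  exact Finset.prod_eq_one fun j _ => h1 j

/-- log-sum inequality for one marginal -/
theorem mgl_kl {mu p : (ι → φ) → ℝ} (hp : ∀ f ∈ tps s, 0 ≤ p f) (hm : ∀ f ∈ tps s, 0 ≤ mu f)
    (hac : ∀ f ∈ tps s, p f = 0 → mu f = 0) (hp1 : ∑ f ∈ tps s, p f = 1) (hm1 : ∑ f ∈ tps s, mu f = 1) (i : ι) :
    ∑ x ∈ s i, mgl s mu i x * Real.log (mgl s mu i x / mgl s p i x) ≤ kls s mu p := by
  rw [sum_mgl mu i (fun x => Real.log (mgl s mu i x / mgl s p i x))]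
  have h1 : ∀ f ∈ tps s, mu f * Real.log (mgl s mu i (f i) / mgl s p i (f i)) + (mu f -
      p f * (mgl s mu i (f i) / mgl s p i (f i))) ≤ mu f * Real.log (mu f / p f) := by
    intro f hf
    by_cases hmf : mu f = 0
    · rw [hmf]
      have h2 : 0 ≤ p f * (mgl s mu i (f i) / mgl s p i (f i)) :=
        mul_nonneg (hp f hf) (div_nonneg (mgl_nn hm i _) (mgl_nn hp i _))
      simp only [zero_mul]
      linarith
    · have hm0 : 0 < mu f := lt_of_le_of_ne (hm f hf) (Ne.symm hmf)
      have hp0 : 0 < p f := lt_of_le_of_ne (hp f hf) (fun h => hmf (hac f hf h.symm))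
      have hu0 : 0 < mgl s mu i (f i) := lt_of_lt_of_le hm0 (mgl_ge hm hf i)
      have hq0 : 0 < mgl s p i (f i) := lt_of_lt_of_le hp0 (mgl_ge hp hf i)
      set u := mgl s mu i (f i)
      set q := mgl s p i (f i)
      have h3 := Real.log_le_sub_one_of_pos (show 0 < (p f * (u / q)) / mu f by positivity)
      have h4 : Real.log ((p f * (u / q)) / mu f) = Real.log (u / q) - Real.log (mu f / p f) := by
        rw [Real.log_div (by positivity) hmf, Real.log_mul hp0.ne' (by positivity), Real.log_div hmf hp0.ne']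
        ring
      rw [h4] at h3
      have h5 := mul_le_mul_of_nonneg_left h3 hm0.le
      have h6 : mu f * (p f * (u / q) / mu f - 1) = p f * (u / q) - mu f := by
        field_simp
      rw [h6] at h5
      linarith
  have h2 := Finset.sum_le_sum h1
  rw [Finset.sum_add_distrib, Finset.sum_sub_distrib, hm1] at h2
  have h3 : ∑ f ∈ tps s, p f * (mgl s mu i (f i) / mgl s p i (f i)) ≤ 1 := by
    rw [← sum_mgl p i (fun x => mgl s mu i x / mgl s p i x), ← mgl_one hm1 i]
    refine Finset.sum_le_sum fun x _ => ?_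
    by_cases hq : mgl s p i x = 0
    · rw [hq, zero_mul]
      exact mgl_nn hm i x
    · rw [mul_div_cancel₀ _ hq]
  unfold kls
  linarith

theorem kls_nn {mu p : (ι → φ) → ℝ} (hp : ∀ f ∈ tps s, 0 ≤ p f) (hm : ∀ f ∈ tps s, 0 ≤ mu f)
    (hac : ∀ f ∈ tps s, p f = 0 → mu f = 0) (hp1 : ∑ f ∈ tps s, p f = 1) (hm1 : ∑ f ∈ tps s, mu f = 1) :
    0 ≤ kls s mu p := by
  have h1 : ∀ f ∈ tps s, mu f - p f ≤ mu f * Real.log (mu f / p f) := by
    intro f hf
    by_cases hmf : mu f = 0
    · rw [hmf, zero_mul]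
      have := hp f hf
      linarith
    · have hm0 : 0 < mu f := lt_of_le_of_ne (hm f hf) (Ne.symm hmf)
      have hp0 : 0 < p f := lt_of_le_of_ne (hp f hf) (fun h => hmf (hac f hf h.symm))
      have h3 := Real.log_le_sub_one_of_pos (show 0 < p f / mu f by positivity)
      have h4 : Real.log (p f / mu f) = - Real.log (mu f / p f) := by
        rw [Real.log_div hp0.ne' hmf, Real.log_div hmf hp0.ne']
        ring
      rw [h4] at h3
      have h5 := mul_le_mul_of_nonneg_left h3 hm0.le
      have h6 : mu f * (p f / mu f - 1) = p f - mu f := by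
        field_simp
      rw [h6] at h5
      linarith
  have h2 := Finset.sum_le_sum h1
  rw [Finset.sum_sub_distrib, hm1, hp1] at h2
  unfold kls
  linarith

/-- the marginals: `∏ u(A) ≤ n KL + 2 ∏ p(A)` -/
theorem prod_dv {mu p : (ι → φ) → ℝ} (hp : ∀ f ∈ tps s, 0 ≤ p f) (hm : ∀ f ∈ tps s, 0 ≤ mu f)
    (hac : ∀ f ∈ tps s, p f = 0 → mu f = 0) (hp1 : ∑ f ∈ tps s, p f = 1) (hm1 : ∑ f ∈ tps s, mu f = 1)
    (A : (ι → φ) → Prop) :
    ∑ f ∈ tps s, ind (A f) * ∏ j, mgl s mu j (f j) ≤
      (Fintype.card ι : ℝ) * kls s mu p + 2 * ∑ f ∈ tps s, ind (A f) * ∏ j, mgl s p j (f j) := by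
  classical
  have hu0 : ∀ i x, 0 ≤ mgl s mu i x := mgl_nn hm
  have hq0 : ∀ i x, 0 ≤ mgl s p i x := mgl_nn hp
  have hacm : ∀ i x, mgl s p i x = 0 → mgl s mu i x = 0 := by
    intro i x h
    unfold mgl at h ⊢
    rw [Finset.sum_eq_zero_iff_of_nonneg (fun f hf => mul_nonneg (ind_nonneg _) (hp f hf))] at h
    refine Finset.sum_eq_zero fun f hf => ?_
    rcases mul_eq_zero.1 (h f hf) with h1 | h1
    · rw [h1, zero_mul]
    · rw [hac f hf h1, mul_zero]
  -- pointwise
  have h1 : ∀ f ∈ tps s, ind (A f) * ∏ j, mgl s mu j (f j) ≤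
      (∏ j, mgl s mu j (f j)) * (∑ j, Real.log (mgl s mu j (f j) / mgl s p j (f j))) -
        ∏ j, mgl s mu j (f j) + ∏ j, mgl s p j (f j) + 2 * (ind (A f) * ∏ j, mgl s p j (f j)) := by
    intro f hf
    set U := ∏ j, mgl s mu j (f j) with hU
    set R := ∏ j, mgl s p j (f j) with hR
    have hR0 : 0 ≤ R := Finset.prod_nonneg fun j _ => hq0 j _
    by_cases hz : U = 0
    · rw [hz]
      have h2 : 0 ≤ ind (A f) * R := mul_nonneg (ind_nonneg _) hR0
      simp only [mul_zero, zero_mul]
      linarith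
    · have hU0 : 0 < U := lt_of_le_of_ne (Finset.prod_nonneg fun j _ => hu0 j _) (Ne.symm hz)
      have hj : ∀ j, mgl s mu j (f j) ≠ 0 := fun j h => hz (Finset.prod_eq_zero (mem_univ j) h)
      have hk : ∀ j, mgl s p j (f j) ≠ 0 := fun j h => hj j (hacm j _ h)
      have hR1 : 0 < R := Finset.prod_pos fun j _ => lt_of_le_of_ne (hq0 j _) (Ne.symm (hk j))
      have e1 : ∑ j, Real.log (mgl s mu j (f j) / mgl s p j (f j)) = Real.log (U / R) := by
        rw [hU, hR, ← Finset.prod_div_distrib, Real.log_prod]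
        intro j _
        exact div_ne_zero (hj j) (hk j)
      rw [e1]
      by_cases hA : A f
      · rw [ind_of hA, one_mul, one_mul]
        -- U log (U/R) - 2 U + 3 R >= 0
        have h3 := Real.log_le_sub_one_of_pos (show 0 < (Real.exp 1 * R) / U by positivity)
        have h4 : Real.log ((Real.exp 1 * R) / U) = 1 - Real.log (U / R) := by
          rw [Real.log_div (by positivity) hU0.ne', Real.log_mul (Real.exp_pos 1).ne' hR1.ne', Real.log_exp,
            Real.log_div hU0.ne' hR1.ne']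
          ring
        rw [h4] at h3
        have h5 := mul_le_mul_of_nonneg_left h3 hU0.le
        have h6 : U * (Real.exp 1 * R / U - 1) = Real.exp 1 * R - U := by
          field_simp
        rw [h6] at h5
        have h7 : Real.exp 1 * R ≤ 3 * R := mul_le_mul_of_nonneg_right (by
          have := Real.exp_one_lt_d9
          linarith) hR1.le
        linarith
      · rw [ind_not hA, zero_mul, zero_mul]
        have h3 := Real.log_le_sub_one_of_pos (show 0 < R / U by positivity)
        have h4 : Real.log (R / U) = - Real.log (U / R) := by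
          rw [Real.log_div hR1.ne' hU0.ne', Real.log_div hU0.ne' hR1.ne']
          ring
        rw [h4] at h3
        have h5 := mul_le_mul_of_nonneg_left h3 hU0.le
        have h6 : U * (R / U - 1) = R - U := by
          field_simp
        rw [h6] at h5
        linarith
  have h2 := Finset.sum_le_sum h1
  rw [Finset.sum_add_distrib, Finset.sum_add_distrib, Finset.sum_sub_distrib, ← Finset.mul_sum,
    sum_prod_one (fun j => mgl s mu j) (fun i => mgl_one hm1 i), sum_prod_one (fun j => mgl s p j) (fun i => mgl_one hp1 i)]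
    at h2
  have h3 : ∑ f ∈ tps s, (∏ j, mgl s mu j (f j)) * (∑ j, Real.log (mgl s mu j (f j) / mgl s p j (f j))) ≤
      (Fintype.card ι : ℝ) * kls s mu p := by
    have e : ∑ f ∈ tps s, (∏ j, mgl s mu j (f j)) * (∑ j, Real.log (mgl s mu j (f j) / mgl s p j (f j))) =
        ∑ i, ∑ x ∈ s i, mgl s mu i x * Real.log (mgl s mu i x / mgl s p i x) := by
      simp only [Finset.mul_sum]
      rw [Finset.sum_comm]
      refine Finset.sum_congr rfl fun i _ => ?_
      exact sum_prod (fun j => mgl s mu j) (fun j => mgl_one hm1 j) i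
        (fun x => Real.log (mgl s mu i x / mgl s p i x))
    rw [e]
    refine (Finset.sum_le_sum fun i _ => mgl_kl hp hm hac hp1 hm1 i).trans (le_of_eq ?_)
    rw [Finset.sum_const, Finset.card_univ, nsmul_eq_mul]
  linarith

/-- **the mass of the hot tuples** -/
theorem hot_le {mu p : (ι → φ) → ℝ} (hp : ∀ f ∈ tps s, 0 ≤ p f) (hm : ∀ f ∈ tps s, 0 ≤ mu f)
    (hac : ∀ f ∈ tps s, p f = 0 → mu f = 0) (hp1 : ∑ f ∈ tps s, p f = 1) (hm1 : ∑ f ∈ tps s, mu f = 1)
    {A E : (ι → φ) → Prop} {D0 K : ℝ} (hK : 1 ≤ K) (hD : 24 * K ≤ D0)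
    (hA : ∀ f ∈ tps s, A f → D0 * ∏ j, mgl s p j (f j) ≤ p f)
    (hE : ∀ f ∈ tps s, A f → ¬ E f → mu f ≤ K * ∏ j, mgl s mu j (f j)) :
    ∑ f ∈ tps s, ind (A f) * p f ≤ (3 + 2 * K * Fintype.card ι) * kls s mu p +
      2 * ∑ f ∈ tps s, ind (A f ∧ E f) * mu f := by
  classical
  set h := ∑ f ∈ tps s, ind (A f) * p f with hh
  set kap := kls s mu p with hkap
  set e := ∑ f ∈ tps s, ind (A f ∧ E f) * mu f with he
  have hkap0 : 0 ≤ kap := kls_nn hp hm hac hp1 hm1
  have hh0 : 0 ≤ h := Finset.sum_nonneg fun f hf => mul_nonneg (ind_nonneg _) (hp f hf)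
  have he0 : 0 ≤ e := Finset.sum_nonneg fun f hf => mul_nonneg (ind_nonneg _) (hm f hf)
  have hn0 : (0 : ℝ) ≤ Fintype.card ι := Nat.cast_nonneg _
  have l2 := Real.log_two_lt_d9
  have l2p := Real.log_two_gt_d9
  -- step 1 : h / 2 ≤ kap + log 2 * mu(A)
  have s1 : h / 2 ≤ kap + Real.log 2 * ∑ f ∈ tps s, ind (A f) * mu f := by
    have q1 : ∀ f ∈ tps s, ind (A f) * p f / 2 + (mu f - p f) ≤
        mu f * Real.log (mu f / p f) + Real.log 2 * (ind (A f) * mu f) := by
      intro f hf
      have p0 := hp f hf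
      by_cases hmf : mu f = 0
      · rw [hmf]
        have : ind (A f) * p f ≤ p f := mul_le_of_le_one_left p0 (ind_le_one _)
        simp only [mul_zero, zero_mul]
        linarith
      · have hm0 : 0 < mu f := lt_of_le_of_ne (hm f hf) (Ne.symm hmf)
        have hp0 : 0 < p f := lt_of_le_of_ne p0 (fun h => hmf (hac f hf h.symm))
        by_cases hAf : A f
        · rw [ind_of hAf]
          have h3 := Real.log_le_sub_one_of_pos (show 0 < (p f / 2) / mu f by positivity)
          have h4 : Real.log ((p f / 2) / mu f) = - Real.log (mu f / p f) - Real.log 2 := by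
            rw [Real.log_div (by positivity) hmf, Real.log_div hp0.ne' (by norm_num), Real.log_div hmf hp0.ne']
            ring
          rw [h4] at h3
          have h5 := mul_le_mul_of_nonneg_left h3 hm0.le
          have h6 : mu f * (p f / 2 / mu f - 1) = p f / 2 - mu f := by
            field_simp
          rw [h6] at h5
          linarith
        · rw [ind_not hAf]
          have h3 := Real.log_le_sub_one_of_pos (show 0 < p f / mu f by positivity)
          have h4 : Real.log (p f / mu f) = - Real.log (mu f / p f) := by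
            rw [Real.log_div hp0.ne' hmf, Real.log_div hmf hp0.ne']
            ring
          rw [h4] at h3
          have h5 := mul_le_mul_of_nonneg_left h3 hm0.le
          have h6 : mu f * (p f / mu f - 1) = p f - mu f := by
            field_simp
          rw [h6] at h5
          linarith
    have q2 := Finset.sum_le_sum q1
    rw [Finset.sum_add_distrib, Finset.sum_sub_distrib, hm1, hp1, Finset.sum_add_distrib, ← Finset.mul_sum,
      ← Finset.sum_div] at q2
    show h / 2 ≤ kls s mu p + _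
    unfold kls
    linarith
  -- step 2 : mu(A) ≤ mu(A ∩ E) + K ∏ u(A)
  have s2 : ∑ f ∈ tps s, ind (A f) * mu f ≤ e + K * ∑ f ∈ tps s, ind (A f) * ∏ j, mgl s mu j (f j) := by
    rw [Finset.mul_sum, he, ← Finset.sum_add_distrib]
    refine Finset.sum_le_sum fun f hf => ?_
    have pu : 0 ≤ ∏ j, mgl s mu j (f j) := Finset.prod_nonneg fun j _ => mgl_nn hm j _
    by_cases hAf : A f
    · by_cases hEf : E f
      · rw [ind_of hAf, ind_of (⟨hAf, hEf⟩ : A f ∧ E f)]
        have : 0 ≤ K * ∏ j, mgl s mu j (f j) := mul_nonneg (by linarith) pu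
        linarith
      · rw [ind_of hAf, ind_not (fun h => hEf h.2 : ¬ (A f ∧ E f))]
        have := hE f hf hAf hEf
        linarith
    · rw [ind_not hAf, ind_not (fun h => hAf h.1 : ¬ (A f ∧ E f))]
      simp
  have s3 := prod_dv hp hm hac hp1 hm1 A
  -- step 4 : ∏ p(A) ≤ h / D0
  have s4 : D0 * ∑ f ∈ tps s, ind (A f) * ∏ j, mgl s p j (f j) ≤ h := by
    rw [Finset.mul_sum, hh]
    refine Finset.sum_le_sum fun f hf => ?_
    by_cases hAf : A f
    · rw [ind_of hAf]
      have := hA f hf hAf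
      linarith
    · rw [ind_not hAf]
      simp
  set a := ∑ f ∈ tps s, ind (A f) * mu f with ha
  set b := ∑ f ∈ tps s, ind (A f) * ∏ j, mgl s mu j (f j) with hb
  set c := ∑ f ∈ tps s, ind (A f) * ∏ j, mgl s p j (f j) with hc
  have c0 : 0 ≤ c := Finset.sum_nonneg fun f _ => mul_nonneg (ind_nonneg _) (Finset.prod_nonneg fun j _ => mgl_nn hp j _)
  have k1 : K * b ≤ K * (Fintype.card ι * kap + 2 * c) := mul_le_mul_of_nonneg_left s3 (by linarith)
  have k2 : 24 * K * c ≤ h := (mul_le_mul_of_nonneg_right hD c0).trans s4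
  have a1 : a ≤ e + K * (Fintype.card ι * kap) + h / 12 := by nlinarith
  have a2 : Real.log 2 * a ≤ 7 / 10 * (e + K * (Fintype.card ι * kap) + h / 12) := by
    have hz : 0 ≤ e + K * (Fintype.card ι * kap) + h / 12 := by
      have : 0 ≤ K * (Fintype.card ι * kap) := mul_nonneg (by linarith) (mul_nonneg hn0 hkap0)
      linarith
    have w1 := mul_le_mul_of_nonneg_left a1 (show 0 ≤ Real.log 2 by linarith)
    have w2 := mul_le_mul_of_nonneg_right (show Real.log 2 ≤ 7 / 10 by linarith) hz
    linarith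
  have hnk : 0 ≤ K * (Fintype.card ι * kap) := mul_nonneg (by linarith) (mul_nonneg hn0 hkap0)
  nlinarith

end fin

end

end Pool.Agent.GMH
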