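import Pool.Agent.GMH.HotSR

/-!
# GMH/HotMI: the information of a pair of tops in a state (helper89; row K4)

Pair `F j`, `F k` : frame `Fo F i`, `{i, j, k}` all indices.  Weight `a` seen by the state `N`.
* `mul_inf_psF` : `E a mul_inf P F N = E a (sum_i sp (F i) N - sp (tup F) N)`, any frame;
* `mul_inf_pair` : `E a mul_inf P (Fo F i) N = E a (sp (F k) N - sp (F k) (F j, N))`;
* `mul_inf_own` : at most `E a (sp (F k) Nb - sp (F k) (F j, N))`, `Nb` coarser than `N`;
* `sp_log` : `sp (F k) Nb - sp (F k) (F j, N) = log (P(F k | F j, N) / P(F k | Nb))`.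
-/

set_option autoImplicit false
set_option linter.unusedSectionVars false

namespace Pool.Agent.GMH.Hot2

open Finset Pool.Agent.PWZ Pool.Agent.M3 Pool.Agent.GM Pool.Agent.GM.Harm Pool.Agent.GMH Pool.Agent.GMH.NZ
open Pool.Agent.GMH.V3 Pool.Agent.GMH.V3.TT Pool.Agent.GMH.TP

noncomputable section

variable {Om : Type*} [Fintype Om] (P : FP Om) {ι φ₁ ν ν' : Type*} [Fintype ι] [DecidableEq ι]

/-- the information of the tops by surprisals -/
theorem mul_inf_psF (F : ι → Om → φ₁) (N : Om → ν) {a : Om → ℝ} (ha : Fac N a) :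
    P.E (fun w => a w * mul_inf P F N w) = P.E (fun w => a w * (∑ i, sp P (F i) N w - sp P (tup F) N w)) := by
  rw [mul_inf_real P F N ha]
  refine P.E_congr fun w hw => ?_
  congr 1
  exact psC_psF P (Z := N) (Zb := fun _ : ι => N) (F := F) hw

theorem sp_log {κ τ : Type*} (X : Om → κ) (A : Om → ν) (B : Om → τ) {w : Om} (hw : P.p w ≠ 0) :
    sp P X A w - sp P X B w = Real.log (P.pv B X w (X w) / P.pv A X w (X w)) := by
  have m1 := P.m_pos A hw
  have m2 := P.m_pos (fun u => (X u, A u)) hw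
  have m3 := P.m_pos B hw
  have m4 := P.m_pos (fun u => (X u, B u)) hw
  rw [P.pv_self, P.pv_self, Real.log_div (div_pos m4 m3).ne' (div_pos m2 m1).ne', Real.log_div m4.ne' m3.ne',
    Real.log_div m2.ne' m1.ne']
  unfold sp
  ring

/-- **the pair** -/
theorem mul_inf_pair (F : ι → Om → φ₁) {i j k : ι} (hij : j ≠ i) (hik : k ≠ i) (hjk : j ≠ k)
    (hall : ∀ l, l = i ∨ l = j ∨ l = k) (N : Om → ν) {a : Om → ℝ} (ha : Fac N a) :
    P.E (fun w => a w * mul_inf P (Fo F i) N w) =
      P.E (fun w => a w * (sp P (F k) N w - sp P (F k) (fun u => (F j u, N u)) w)) := by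
  rw [mul_inf_psF P (Fo F i) N ha]
  refine P.E_congr fun w _ => ?_
  congr 1
  have e1 : ∑ l, sp P (Fo F i l) N w = sp P (F j) N w + sp P (F k) N w := by
    have hu : (univ : Finset ι) = {i, j, k} := by
      ext l
      simp only [mem_univ, mem_insert, mem_singleton, true_iff]
      exact hall l
    rw [hu, Finset.sum_insert (by
      simp only [mem_insert, mem_singleton, not_or]
      exact ⟨hij.symm, hik.symm⟩), Finset.sum_insert (by rw [mem_singleton]; exact hjk), Finset.sum_singleton,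
      Fo_self, Fo_ne P F hij, Fo_ne P F hik, zero_add]
  have e2 : sp P (tup (Fo F i)) N w = sp P (fun u => (F k u, F j u)) N w := by
    refine sp_congr P (fun x y hxy => ?_) (Fac.refl _) (fun x y hxy => ?_) (Fac.refl _) w
    · have h1 : tup (Fo F i) x = tup (Fo F i) y := (Prod.mk.inj hxy).1
      have h2 : ∀ l, l ≠ i → F l x = F l y := fun l hl => by
        have h3 : Fo F i l x = Fo F i l y := congrFun h1 l
        unfold Fo at h3
        rw [if_neg hl, if_neg hl] at h3
        exact Option.some.inj h3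
      show (F k x, F j x) = (F k y, F j y)
      rw [h2 k hik, h2 j hij]
    · simp only [Prod.mk.injEq] at hxy
      funext l
      show Fo F i l x = Fo F i l y
      unfold Fo
      rcases hall l with rfl | rfl | rfl
      · rw [if_pos rfl, if_pos rfl]
      · rw [if_neg hij, if_neg hij, hxy.1.2]
      · rw [if_neg hik, if_neg hik, hxy.1.1]
  have e3 := sp_chain P (F k) (F j) N w
  rw [e1, e2, e3]
  ring

/-- **the pair against the own law** -/
theorem mul_inf_own (F : ι → Om → φ₁) {i j k : ι} (hij : j ≠ i) (hik : k ≠ i) (hjk : j ≠ k)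
    (hall : ∀ l, l = i ∨ l = j ∨ l = k) {N : Om → ν} {Nb : Om → ν'} (hN : Fac N Nb) {a : Om → ℝ} (ha : Fac N a)
    (a0 : ∀ w, 0 ≤ a w) : P.E (fun w => a w * mul_inf P (Fo F i) N w) ≤
      P.E (fun w => a w * (sp P (F k) Nb w - sp P (F k) (fun u => (F j u, N u)) w)) := by
  rw [mul_inf_pair P F hij hik hjk hall N ha]
  have h1 := E_sp_drop P hN (F k) ha a0
  have h2 : P.E (fun w => a w * (sp P (F k) Nb w - sp P (F k) (fun u => (F j u, N u)) w)) =
      P.E (fun w => a w * (sp P (F k) N w - sp P (F k) (fun u => (F j u, N u)) w)) +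
      P.E (fun w => a w * (sp P (F k) Nb w - sp P (F k) N w)) := by
    rw [← P.E_add]
    exact P.E_congr fun w _ => by ring
  rw [h2]
  linarith

/-- the same by logarithms -/
theorem mul_inf_own_log (F : ι → Om → φ₁) {i j k : ι} (hij : j ≠ i) (hik : k ≠ i) (hjk : j ≠ k)
    (hall : ∀ l, l = i ∨ l = j ∨ l = k) {N : Om → ν} {Nb : Om → ν'} (hN : Fac N Nb) {a : Om → ℝ} (ha : Fac N a)
    (a0 : ∀ w, 0 ≤ a w) : P.E (fun w => a w * mul_inf P (Fo F i) N w) ≤
      P.E (fun w => a w * Real.log (P.pv (fun u => (F j u, N u)) (F k) w (F k w) / P.pv Nb (F k) w (F k w))) := by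
  refine (mul_inf_own P F hij hik hjk hall hN ha a0).trans (le_of_eq (P.E_congr fun w hw => ?_))
  rw [sp_log P (F k) Nb (fun u => (F j u, N u)) hw]

end

end Pool.Agent.GMH.Hot2
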