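import Pool.Agent.GMH.BitKL
import Pool.Agent.GMH.BitPrR

/-!
# GMH.HotNS: the new saturation at a hardwired vertex, with an event of the second top (rows (H1), (H2) of note 4068; helper9)

`|K| = 3`, vertices `b`, `c`, `d`; state saturated (`Bk`); `b` is hardwired.  `Y` = top of `{c, d}`, `X` = top of `{b, c}`,
`act` = event of (hidden point, points `b`, `c`, node, label of the face `{b, c}`),
`wl act X` = `X` on `act`, nothing else.  `V` = class of (public information, exact point and letter of `b`) (map `cbm`).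
* `ns_class` : `N (klc(Q, QB; Y | ..) + I_Q(Y; wl act X | ..)) ≤ 2 N 0 (Lb V + 1) + 2 N c π (log (1/π) + 1 + log (1/al))`,
  `π = Q(act)`;
* `log_wl_le` : `E_Q 1_act log (Q(Y | X, Z) / P(Y | Z)) ≤ klc + I(Y; wl act X | Z)`, if `act` is seen by `(X, Z)`;
* `klp_dv`, `dv_row`, `rare_row` : change of law at a row: `L P(Y in R) ≤ E log (P(Y | W) / P(Y | Z)) + (e^L - 1) E P(R | Z)`;
* `ns_log` : one class: the mean of `1_act log (P(Y | X, Wf) / P(Y | Zf b))` has the bound of `ns_class`; `X`, `Y`, `act` are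
  known on the support only (old tops are functions of the new labels and the letters there);
* **`ns_avg`** : the mean over the classes, weight `g ≥ 0` of the class; `ns_lin` : linear form.
-/

set_option autoImplicit false
set_option linter.unusedSectionVars false
set_option linter.unusedVariables false

namespace Pool.Agent.GMH

open Finset Pool.Agent.PWZ Pool.Agent.M3 Pool.Agent.GM Pool.Agent.GM.Harm

section evw

variable {Om : Type*} [Fintype Om] (P : FP Om) {κ τ : Type*}

/-- a label on an event, nothing off the event -/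
noncomputable def wl (act : Om → Prop) (X : Om → τ) (w : Om) : Option τ := by
  classical
  exact if act w then some (X w) else none

theorem wl_in {act : Om → Prop} {X : Om → τ} {w : Om} (h : act w) : wl act X w = some (X w) := by
  unfold wl
  rw [if_pos h]

theorem wl_out {act : Om → Prop} {X : Om → τ} {w : Om} (h : ¬ act w) : wl act X w = none := by
  unfold wl
  rw [if_neg h]

theorem wl_eq {act : Om → Prop} {X : Om → τ} {v w : Om} (hw : act w) : wl act X v = wl act X w ↔ act v ∧ X v = X w := by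
  rw [wl_in hw]
  by_cases hv : act v
  · rw [wl_in hv]
    exact ⟨fun h => ⟨hv, Option.some.inj h⟩, fun h => by rw [h.2]⟩
  · rw [wl_out hv]
    exact ⟨fun h => by simp at h, fun h => absurd h.1 hv⟩

/-- entropy of a label on an event -/
theorem Hc_wl (act : Om → Prop) (X : Om → τ) (C : Om → κ) {M : ℝ} (hM : 1 ≤ M)
    (hcard : ∀ w, P.p w ≠ 0 → act w → ∃ s : Finset τ, (s.card : ℝ) ≤ M ∧ ∀ v, P.p v ≠ 0 → act v → C v = C w → X v ∈ s) :
    P.Hc (wl act X) C ≤ P.Pr act * (Real.log (1 / P.Pr act) + 1 + Real.log M) := by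
  classical
  by_cases h0 : P.Pr act = 0
  · rw [h0, zero_mul, ← Real.log_one]
    refine Hc_le_card P _ _ fun w hw => ⟨{none}, by simp, fun v hv _ => ?_⟩
    have hv' : ¬ act v := by
      intro hav
      have := FP.Pr_pos_of (P := P) (S := act) hv hav
      exact this.ne' h0
    rw [wl_out hv']
    exact Finset.mem_singleton_self _
  · have hpos : 0 < P.Pr act := lt_of_le_of_ne (P.Pr_nonneg _) (Ne.symm h0)
    have h1 : P.Hc (wl act X) C ≤ P.Hc (fun w => (wl act X w, act w)) C :=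
      P.Hc_mono _ fun a b hab => congrArg Prod.fst (Prod.mk.inj hab).1
    have h2 := P.Hc_chain (wl act X) act C
    have h3 : P.Hc act C ≤ P.Pr act * (Real.log (1 / P.Pr act) + 1) := by
      have h4 := H_event_le (P := P) hpos
      have h5 : P.Hc act C ≤ P.H act := by
        have h6 : P.Hc act C ≤ P.Hc act (fun _ : Om => ()) := P.Hc_anti _ fun _ _ _ => rfl
        have h7 : P.Hc act (fun _ : Om => ()) = P.H act := by
          unfold FP.Hc
          rw [FP.H_const, sub_zero]
          exact P.H_congr (Fac.fst _ _) ((Fac.refl act).prod (Fac.const act ()))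
        linarith
      linarith
    have h4 : P.Hc (wl act X) (fun w => (act w, C w)) ≤ P.Pr act * Real.log M := by
      rw [Hc_cut h0 (Z := fun w => (act w, C w)) (Fac.fst _ _) (fun v w hv hw => by rw [wl_out hv, wl_out hw])]
      refine mul_le_mul_of_nonneg_left ?_ hpos.le
      refine Hc_le_card _ _ _ fun w hw => ?_
      obtain ⟨ha, hp⟩ := cond_supp h0 hw
      obtain ⟨s, hs1, hs2⟩ := hcard w hp ha
      refine ⟨s.image some, ?_, fun v hv hvw => ?_⟩
      · have : ((s.image some : Finset (Option τ)).card : ℝ) ≤ s.card := by exact_mod_cast Finset.card_image_le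
        exact this.trans hs1
      · obtain ⟨ha', hp'⟩ := cond_supp h0 hv
        rw [wl_in ha']
        exact Finset.mem_image_of_mem _ (hs2 v hp' ha' (Prod.mk.inj hvw).2)
    linarith

end evw

section bit

variable {K X β γ φ υ : Type} [Fintype K] [DecidableEq K] [Fintype X] [Fintype β] [Fintype φ] [Nonempty X] [Nonempty β]
  {D : HD K X β γ φ} {al : ℝ} {h : D.Thick al} {N : Finset K → ℝ} {S : Finset (Finset K)}
  {U : Finset K → X → (K → β) → υ} {t : ℕ} {b c d : K} {w0 : Pt K X β φ} {V : Pt K X β φ → Prop}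

/-- **THE NEW SATURATION AT A HARDWIRED VERTEX, one class** -/
theorem ns_class (B : Bk h N S U t b c d) (I : Ib h U t b w0 V) {τ ρ : Type} {Xl : Pt K X β φ → τ}
    (hXl : Fac (fun w : Pt K X β φ => w.2.2 d) Xl) {Yl : Pt K X β φ → ρ} (hYl : Fac (LL U (univ.erase b)) Yl)
    {act : Pt K X β φ → Prop} (hact : Fac (fun w => (w.1, BB D t {b, c} w, w.2.2 d)) act) :
    N (univ.erase b) * (((D.P h t).cond V).klc (QB h U t b w0) Yl (fun w => (zf U c w, zf U d w)) +
      ((D.P h t).cond V).I Yl (wl act Xl) (fun w => (zf U c w, zf U d w))) ≤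
      2 * N ∅ * (Lb h U t b w0 V + 1) + 2 * (N {c} * (((D.P h t).cond V).Pr act *
        (Real.log (1 / ((D.P h t).cond V).Pr act) + 1 + Real.log (1 / al)))) := by
  classical
  set J : Finset K := univ.erase b with hJ
  have hcJ : c ∈ J := Finset.mem_erase.2 ⟨B.bc.symm, mem_univ c⟩
  have hdJ : d ∈ J := Finset.mem_erase.2 ⟨B.bd.symm, mem_univ d⟩
  have hdisj : Disjoint J ({b} : Finset K) := by
    rw [Finset.disjoint_singleton_right]
    exact fun hh => (Finset.mem_erase.1 hh).1 rfl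
  set G : Finset K → Pt K X β φ → Option τ := fun J' w => if J' = {c} then wl act Xl w else none with hG
  have htl : (univ.erase d : Finset K) ⊆ ({b} : Finset K) ∪ {c} ∧ ∃ i ∈ ({b} : Finset K), i ≠ d := by
    refine ⟨fun j hj => ?_, b, Finset.mem_singleton_self b, B.bd⟩
    rw [Finset.mem_union, Finset.mem_singleton, Finset.mem_singleton]
    rcases B.all j with h7 | h7 | h7
    · exact Or.inl h7
    · exact Or.inr h7
    · exact absurd h7 (Finset.mem_erase.1 hj).1
  have hGI : GI D t {b} G := by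
    intro J' v w hvw
    simp only [Prod.mk.injEq] at hvw
    obtain ⟨h1, h2, h4⟩ := hvw
    show (if J' = {c} then wl act Xl v else none) = if J' = {c} then wl act Xl w else none
    by_cases hJ' : J' = {c}
    · rw [if_pos hJ', if_pos hJ']
      subst hJ'
      have h5 := congrFun h4 d
      unfold tl at h5
      rw [if_pos htl, if_pos htl] at h5
      have h6 : v.2.2 d = w.2.2 d := Option.some.inj h5
      have h7 : act v = act w := hact v w (by
        simp only [Prod.mk.injEq]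
        exact ⟨h1, h2, h6⟩)
      have h8 : Xl v = Xl w := hXl v w h6
      unfold wl
      rw [h7, h8]
    · rw [if_neg hJ', if_neg hJ']
  set m := hwm D t {b} w0.2.1 with hm
  set PE := (FP.pr ((D.P h t).cond (xc D U t ∅ w0)) (coinT h t)).cond fun w => V (m w) with hPE
  -- the law
  have hx0 : (D.P h t).Pr (xc D U t ∅ w0) ≠ 0 := xc_ne I.supp
  obtain ⟨hne, hpul⟩ := hw_pul h (I := {b}) (Finset.disjoint_empty_left {b}) (V := xc D U t ∅ w0)
    (xc_fac (U := U) ∅ w0 B.dep B.era) (fun v w hv hw => hv.2.trans hw.2.symm) (w0 := w0) (xc_self U t ∅ w0) hx0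
    (c := w0.2.1) (fun _ _ => rfl)
  rw [← xc_hwV] at hpul
  have hpE : Pul PE ((D.P h t).cond V) m := by
    have h1 := pul_cond hpul I.neB
    have h2 : ((D.P h t).cond (xc D U t {b} w0)).cond V = (D.P h t).cond V := I.condB
    rw [h2] at h1
    exact h1
  have hpi : PE.Pr (fun w => act (m w)) = ((D.P h t).cond V).Pr act := hpE.Pr act
  have hal1 : 1 ≤ 1 / al := by
    rw [le_div_iff₀ h.pos, one_mul]
    exact hal_one h b
  have hcost : ∑ J' ∈ S, N J' * cost PE (fun I w => BB D t I w.1) (fun I w => LL U I w.1) (fun J' w => G J' (m w)) J' ≤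
      N {c} * (((D.P h t).cond V).Pr act * (Real.log (1 / ((D.P h t).cond V).Pr act) + 1 + Real.log (1 / al))) := by
    have hc0 : cost PE (fun I w => BB D t I w.1) (fun I w => LL U I w.1) (fun J' w => G J' (m w)) {c} ≤
        ((D.P h t).cond V).Pr act * (Real.log (1 / ((D.P h t).cond V).Pr act) + 1 + Real.log (1 / al)) := by
      unfold cost
      have e : (fun (J' : Finset K) (w : Pt K X β φ × (K → Cn K X β φ)) => G J' (m w)) {c} =
          wl (fun w => act (m w)) (fun w => Xl (m w)) := by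
        funext w
        show (if ({c} : Finset K) = {c} then wl act Xl (m w) else none) = _
        rw [if_pos rfl]
        rfl
      rw [e, ← hpi]
      refine Hc_wl PE _ _ _ hal1 fun w hw _ => ?_
      set s0 : Finset φ := univ.filter fun F => al ≤ D.kf t d w.1.1 (hwy {b} w0.2.1 w.1.2.1) F with hs0
      have hcard : (s0.card : ℝ) ≤ 1 / al := poss_card h d w.1.1 (hwy {b} w0.2.1 w.1.2.1)
      -- read from the label of the face
      set rdX : φ → τ := fun F => if hF : ∃ u : Pt K X β φ, u.2.2 d = F then Xl hF.choose else Xl w0 with hrdX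
      have hrd : ∀ u : Pt K X β φ, Xl u = rdX (u.2.2 d) := by
        intro u
        have hF : ∃ u' : Pt K X β φ, u'.2.2 d = u.2.2 d := ⟨u, rfl⟩
        show Xl u = if hF : ∃ u' : Pt K X β φ, u'.2.2 d = u.2.2 d then Xl hF.choose else Xl w0
        rw [dif_pos hF]
        exact (hXl _ _ hF.choose_spec).symm
      refine ⟨s0.image rdX, ?_, fun v hv _ hvw => ?_⟩
      · have h2 : ((s0.image rdX).card : ℝ) ≤ s0.card := by exact_mod_cast Finset.card_image_le
        exact h2.trans hcard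
      · have hv' := (pr_supp ((D.P h t).cond (xc D U t ∅ w0)) (coinT h t)).1 (FP.cond_ac _ _ v hv)
        simp only [Prod.mk.injEq] at hvw
        obtain ⟨-, -, h3⟩ := hvw
        rw [BB_eq] at h3
        obtain ⟨h3, h4, h5⟩ := h3
        rw [hrd (m v)]
        refine Finset.mem_image_of_mem _ (Finset.mem_filter.2 ⟨mem_univ _, ?_⟩)
        show al ≤ D.kf t d w.1.1 (hwy {b} w0.2.1 w.1.2.1)
          (if ∃ i ∈ ({b} : Finset K), i ≠ d then rd D t v.2 d v.1.1 (hwy {b} w0.2.1 v.1.2.1) else v.1.2.2 d)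
        rw [if_pos ⟨b, Finset.mem_singleton_self b, B.bd⟩]
        refine rd_poss hv'.2 d h4 (fun j hj => ?_) fun j => ?_
        · unfold hwy
          by_cases hjb : j ∈ ({b} : Finset K)
          · rw [if_pos hjb, if_pos hjb]
          · rw [if_neg hjb, if_neg hjb]
            refine h3 j ?_
            rcases B.all j with h7 | h7 | h7
            · exact absurd (Finset.mem_singleton.2 h7) hjb
            · exact Finset.mem_singleton.2 h7
            · exact absurd h7 hj
        · unfold hwy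
          by_cases hjb : j ∈ ({b} : Finset K)
          · rw [if_pos hjb, if_pos hjb]
          · rw [if_neg hjb, if_neg hjb]; exact h5 j
    have hcJ' : ∀ J', J' ≠ {c} → cost PE (fun I w => BB D t I w.1) (fun I w => LL U I w.1)
        (fun J' w => G J' (m w)) J' = 0 := by
      intro J' hJ'
      refine cost_const fun v w => ?_
      show (if J' = {c} then _ else none) = if J' = {c} then _ else none
      rw [if_neg hJ', if_neg hJ']
    have h2 : ∀ J' ∈ S, N J' * cost PE (fun I w => BB D t I w.1) (fun I w => LL U I w.1)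
        (fun J' w => G J' (m w)) J' ≤ if J' = {c} then N {c} * (((D.P h t).cond V).Pr act *
          (Real.log (1 / ((D.P h t).cond V).Pr act) + 1 + Real.log (1 / al))) else 0 := by
      intro J' hJ'
      by_cases hJ0 : J' = {c}
      · subst hJ0
        rw [if_pos rfl]
        exact mul_le_mul_of_nonneg_left hc0 (B.nn {c} (B.s1 c))
      · rw [if_neg hJ0, hcJ' J' hJ0, mul_zero]
    refine (Finset.sum_le_sum h2).trans (le_of_eq ?_)
    rw [Finset.sum_ite_eq' S {c}, if_pos (B.s1 c)]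
  have h1 := ex_bound (h := h) B.dep B.sat B.nn B.era B.s0 (I := {b}) (J0 := J) (B.s2 b) ⟨c, hcJ⟩ hdisj (w0 := w0) I.supp
    I.ev I.neB hGI hcost
  have hPQ : ((D.P h t).cond (xc D U t {b} w0)).cond V = (D.P h t).cond V := I.condB
  rw [hPQ] at h1
  change N J * (((D.P h t).cond V).klc (QB h U t b w0) (LL U J) (fun w => (lo (LL U) J w, BB D t J w)) +
    ((D.P h t).cond V).I (LL U J) (lo G J) (fun w => (lo (LL U) J w, BB D t J w))) ≤
    2 * N ∅ * (Lb h U t b w0 V + 1) + _ at h1
  have hac : ((D.P h t).cond V).Ac (QB h U t b w0) := I.acB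
  -- fibres
  have hfib : ∀ v w, (QB h U t b w0).p v ≠ 0 → (QB h U t b w0).p w ≠ 0 →
      ((zf U c v, zf U d v) = (zf U c w, zf U d w) ↔ (lo (LL U) J v, BB D t J v) = (lo (LL U) J w, BB D t J w)) := by
    intro v w hv hw
    have hx := xc_pub (QB_supp I.supp hv) (QB_supp I.supp hw)
    rw [fib2 (U := U) (p := c) (q := d) (r := b) B.cd B.bc.symm B.bd.symm (fun j => by
      rcases B.all j with h1 | h1 | h1
      · exact Or.inr (Or.inr h1)
      · exact Or.inl h1
      · exact Or.inr (Or.inl h1)) hx.1 hx.2, Prod.mk.injEq]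
  have e1 : ((D.P h t).cond V).klc (QB h U t b w0) Yl (fun w => (zf U c w, zf U d w)) ≤
      ((D.P h t).cond V).klc (QB h U t b w0) (LL U J) (fun w => (lo (LL U) J w, BB D t J w)) := by
    rw [klc_congr_supp hac (L := Yl) (L' := Yl) (Z := fun w => (zf U c w, zf U d w))
      (Z' := fun w => (lo (LL U) J w, BB D t J w)) hfib (fun _ _ _ _ _ => Iff.rfl)]
    exact klc_mono hac fun v w hvw => hYl v w (congrArg Prod.fst hvw)
  have e2 : ((D.P h t).cond V).I Yl (wl act Xl) (fun w => (zf U c w, zf U d w)) ≤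
      ((D.P h t).cond V).I (LL U J) (lo G J) (fun w => (lo (LL U) J w, BB D t J w)) := by
    rw [I_supp (P := (D.P h t).cond V) (X1 := Yl) (X2 := Yl)
      (Y1 := wl act Xl) (Y2 := wl act Xl) (Z1 := fun w => (zf U c w, zf U d w))
      (Z2 := fun w => (lo (LL U) J w, BB D t J w)) (fun _ _ _ _ => Iff.rfl) (fun _ _ _ _ => Iff.rfl)
      (fun v w hv hw => hfib v w (hac v hv) (hac w hw))]
    refine le_trans (FP.I_mono _ (X := LL U J) (X' := Yl) _ fun v w hvw => hYl v w (congrArg Prod.fst hvw)) ?_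
    rw [FP.I_comm, FP.I_comm _ (LL U J) (lo G J)]
    refine FP.I_mono _ (X := lo G J) (X' := wl act Xl) _ fun v w hvw => ?_
    have h4 : lo G J v = lo G J w := congrArg Prod.fst hvw
    have hcss : ({c} : Finset K) ⊂ J := by
      rw [Finset.ssubset_iff_of_subset (Finset.singleton_subset_iff.2 hcJ)]
      exact ⟨d, hdJ, fun hh => B.cd (Finset.mem_singleton.1 hh).symm⟩
    have h5 := lo_eq.1 h4 {c} hcss
    have h6 : (if ({c} : Finset K) = {c} then wl act Xl v else none) =
      if ({c} : Finset K) = {c} then wl act Xl w else none := h5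
    rw [if_pos rfl, if_pos rfl] at h6
    exact h6
  have hNJ := (B.n2 b).le
  have h2 := mul_le_mul_of_nonneg_left (add_le_add e1 e2) hNJ
  linarith

end bit

section evl

variable {Om : Type*} [Fintype Om] {P Q : FP Om} {κ τ ρ ζ : Type*}

theorem ind_wl_fac (act : Om → Prop) (X : Om → τ) : Fac (wl act X) act := by
  intro v w hvw
  by_cases hw : act w
  · have h1 := (wl_eq hw).1 hvw
    exact propext ⟨fun _ => hw, fun _ => h1.1⟩
  · have h1 : ¬ act v := by
      intro hv
      rw [wl_in hv, wl_out hw] at hvw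
      cases hvw
    exact propext ⟨fun h => absurd h h1, fun h => absurd h hw⟩

/-- the mean of the integrand as a mean of relative entropies -/
theorem ce_log_klp {Y : Om → ρ} {W : Om → κ} {Z : Om → ζ} (hWZ : Fac W Z) (w : Om) :
    klp Q P Y W Z w = Q.ce W (fun u => Real.log (Q.pv W Y u (Y u) / P.pv Z Y u (Y u))) w := by
  refine Q.sum_pv (W := W) Y (F := fun w f => Real.log (Q.pv W Y w f / P.pv Z Y w f)) (fun f v w hvw => ?_) w
  have h1 : Q.pv W Y v f = Q.pv W Y w f := Q.pv_fac W Y f v w hvw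
  have h2 : P.pv Z Y v f = P.pv Z Y w f := P.pv_fac Z Y f v w (hWZ v w hvw)
  show Real.log (Q.pv W Y v f / P.pv Z Y v f) = Real.log (Q.pv W Y w f / P.pv Z Y w f)
  rw [h1, h2]

/-- **the integrand on the event** -/
theorem log_wl_le (hac : Q.Ac P) {X : Om → τ} {Y : Om → ρ} {Z : Om → ζ} {act : Om → Prop}
    (hact : ∀ v w, Q.p v ≠ 0 → Q.p w ≠ 0 → X v = X w → Z v = Z w → (act v ↔ act w)) :
    Q.E (fun w => ind (act w) * Real.log (Q.pv (fun v => (X v, Z v)) Y w (Y w) / P.pv Z Y w (Y w))) ≤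
      Q.klc P Y Z + Q.I Y (wl act X) Z := by
  set W : Om → Option τ × ζ := fun w => (wl act X w, Z w) with hW
  have hWZ : Fac W Z := Fac.snd _ _
  have hWa : Fac W act := (Fac.fst _ _).trans (ind_wl_fac act X)
  have e1 : Q.I Y W Z = Q.I Y (wl act X) Z := by
    rw [Q.I_comm, Q.I_comm Y (wl act X) Z]
    exact le_antisymm (Q.I_mono Y (X := wl act X) (X' := W) (Fac.refl _)) (Q.I_mono Y ((Fac.fst _ _).trans (Fac.fst _ _)))
  rw [← e1, ← E_klp hac hWZ]
  -- on the event the two conditional laws agree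
  have e2 : ∀ w, Q.p w ≠ 0 → ind (act w) * Real.log (Q.pv (fun v => (X v, Z v)) Y w (Y w) / P.pv Z Y w (Y w)) =
      ind (act w) * Real.log (Q.pv W Y w (Y w) / P.pv Z Y w (Y w)) := by
    intro w hw
    by_cases ha : act w
    · have h1 : Q.pv (fun v => (X v, Z v)) Y w (Y w) = Q.pv W Y w (Y w) := by
        have h2 : ∀ v, Q.p v ≠ 0 → ((X v, Z v) = (X w, Z w) ↔ W v = W w) := by
          intro v hv
          rw [hW]
          simp only [Prod.mk.injEq]
          constructor
          · rintro ⟨h3, h4⟩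
            exact ⟨(wl_eq ha).2 ⟨(hact v w hv hw h3 h4).2 ha, h3⟩, h4⟩
          · rintro ⟨h3, h4⟩
            exact ⟨((wl_eq ha).1 h3).2, h4⟩
        rw [pv_num, pv_num]
        have h5 : Q.m (fun v => (X v, Z v)) w = Q.m W w :=
          Q.E_congr fun v hv => by
            show ind ((X v, Z v) = (X w, Z w)) = ind (W v = W w)
            rw [propext (h2 v hv)]
        rw [h5]
        congr 1
        exact Q.E_congr fun v hv => by rw [propext (h2 v hv)]
      rw [h1]
    · rw [ind_not ha, zero_mul, zero_mul]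
  rw [Q.E_congr e2]
  have hfa : Fac W (fun w => ind (act w)) := hWa.comp fun q => ind q
  have e3 : Q.E (fun w => ind (act w) * Real.log (Q.pv W Y w (Y w) / P.pv Z Y w (Y w))) =
      Q.E (fun w => ind (act w) * klp Q P Y W Z w) := by
    rw [← Q.E_mul_ce hfa]
    exact Q.E_congr fun w _ => by rw [ce_log_klp hWZ w]
  rw [e3]
  refine Q.E_mono fun w hw => ?_
  have h1 := klp_nonneg (X := Y) hac hWZ hw
  exact mul_le_of_le_one_left h1 (ind_le_one _)

/-- **change of law at a row**: a test function of the row against its exponential mean -/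
theorem klp_dv (hac : Q.Ac P) {Y : Om → ρ} {W : Om → κ} {Z : Om → ζ} (hWZ : Fac W Z) {w : Om} (hw : Q.p w ≠ 0)
    (F : ρ → ℝ) : ∑ f ∈ vals Y, Q.pv W Y w f * F f ≤
      klp Q P Y W Z w + Real.log (∑ f ∈ vals Y, P.pv Z Y w f * Real.exp (F f)) := by
  classical
  set p : ρ → ℝ := fun f => Q.pv W Y w f with hp
  set q : ρ → ℝ := fun f => P.pv Z Y w f with hq
  have p0 : ∀ f, 0 ≤ p f := fun f => Q.pv_nonneg _ _ _ _
  have q0 : ∀ f, 0 ≤ q f := fun f => P.pv_nonneg _ _ _ _
  have ps : ∑ f ∈ vals Y, p f = 1 := Q.pv_sum W Y hw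
  have qs : ∑ f ∈ vals Y, q f = 1 := P.pv_sum Z Y (hac w hw)
  have hpq : ∀ f, q f = 0 → p f = 0 := fun f hf => pv_acQ hac hWZ hw hf
  set M : ℝ := ∑ f ∈ vals Y, q f * Real.exp (F f) with hM
  have hM0 : 0 < M := by
    have h1 : ∃ f ∈ vals Y, q f ≠ 0 := by
      by_contra hno
      push Not at hno
      rw [Finset.sum_eq_zero hno] at qs
      exact zero_ne_one qs
    obtain ⟨f, hf, hqf⟩ := h1
    exact Finset.sum_pos' (fun f _ => mul_nonneg (q0 f) (Real.exp_pos _).le)
      ⟨f, hf, mul_pos (lt_of_le_of_ne (q0 f) (Ne.symm hqf)) (Real.exp_pos _)⟩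
  have key : ∀ f ∈ vals Y, p f * F f ≤ p f * Real.log (p f / q f) + (p f * Real.log M + (q f * Real.exp (F f) / M - p f)) := by
    intro f _
    rcases (p0 f).eq_or_lt with h0 | h0
    · rw [← h0]
      have := mul_nonneg (q0 f) (Real.exp_pos (F f)).le
      have := div_nonneg this hM0.le
      simp only [zero_mul, sub_zero, zero_add]
      exact this
    · have hq0 : 0 < q f := lt_of_le_of_ne (q0 f) fun h => h0.ne' (hpq f h.symm)
      have h1 : Real.log (q f * Real.exp (F f) / (M * p f)) ≤ q f * Real.exp (F f) / (M * p f) - 1 :=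
        Real.log_le_sub_one_of_pos (by positivity)
      have h2 : Real.log (q f * Real.exp (F f) / (M * p f)) = F f - Real.log (p f / q f) - Real.log M := by
        rw [Real.log_div (by positivity) (by positivity), Real.log_mul hq0.ne' (Real.exp_pos _).ne', Real.log_exp,
          Real.log_mul hM0.ne' h0.ne', Real.log_div h0.ne' hq0.ne']
        ring
      rw [h2] at h1
      have h3 := mul_le_mul_of_nonneg_left h1 h0.le
      have h4 : p f * (q f * Real.exp (F f) / (M * p f) - 1) = q f * Real.exp (F f) / M - p f := by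
        field_simp
      rw [h4] at h3
      linarith
  refine (Finset.sum_le_sum key).trans (le_of_eq ?_)
  rw [Finset.sum_add_distrib, Finset.sum_add_distrib, Finset.sum_sub_distrib, ← Finset.sum_div, ← Finset.sum_mul, ps,
    div_self hM0.ne', one_mul, sub_self, add_zero]
  rfl

end evl


section evm

variable {Om : Type*} [Fintype Om] {P : FP Om} {κ κ' τ ρ ρ' ζ : Type*}

/-- conditional law, same fibres and same label on the support -/
theorem pv_supp {W : Om → κ} {W' : Om → κ'} {w : Om} (h : ∀ v, P.p v ≠ 0 → (W v = W w ↔ W' v = W' w)) {Y Y' : Om → ρ}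
    (hY : ∀ v, P.p v ≠ 0 → Y v = Y' v) (f : ρ) : P.pv W Y w f = P.pv W' Y' w f := by
  rw [pv_num, pv_num]
  have h5 : P.m W w = P.m W' w := P.E_congr fun v hv => by
    show ind (W v = W w) = ind (W' v = W' w)
    rw [propext (h v hv)]
  rw [h5]
  congr 1
  exact P.E_congr fun v hv => by rw [propext (h v hv), hY v hv]

/-- a map which is a function of another one on the support -/
theorem ext_fac {W : Om → κ} {g : Om → τ} (h : ∀ v w, P.p v ≠ 0 → P.p w ≠ 0 → W v = W w → g v = g w) :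
    ∃ g' : Om → τ, Fac W g' ∧ ∀ w, P.p w ≠ 0 → g' w = g w := by
  classical
  obtain ⟨w0, _⟩ := P.exists_p_ne
  set G : κ → τ := fun x => if hx : ∃ u, P.p u ≠ 0 ∧ W u = x then g hx.choose else g w0 with hG
  refine ⟨fun w => G (W w), fun v w hvw => ?_, fun w hw => ?_⟩
  · show G (W v) = G (W w)
    rw [hvw]
  · show G (W w) = g w
    have hx : ∃ u, P.p u ≠ 0 ∧ W u = W w := ⟨w, hw, rfl⟩
    simp only [hG]
    rw [dif_pos hx]
    exact h _ _ hx.choose_spec.1 hw hx.choose_spec.2

/-- conditional law of a label read from a finer one and the condition -/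
theorem pv_map (P : FP Om) {W : Om → κ} {Y : Om → ρ} {Y1 : Om → ρ'} (h : Fac (fun w => (Y w, W w)) Y1) :
    ∃ r : ρ × κ → ρ', (∀ v, Y1 v = r (Y v, W v)) ∧ ∀ (Q : FP Om) (w : Om) (f : ρ'),
      Q.pv W Y1 w f = ∑ F ∈ vals Y, Q.pv W Y w F * ind (r (F, W w) = f) := by
  classical
  obtain ⟨w0, _⟩ := P.exists_p_ne
  set r : ρ × κ → ρ' := fun x => if hx : ∃ u, (Y u, W u) = x then Y1 hx.choose else Y1 w0 with hr
  have hrd : ∀ v, Y1 v = r (Y v, W v) := by
    intro v
    have hx : ∃ u, (Y u, W u) = (Y v, W v) := ⟨v, rfl⟩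
    simp only [hr]
    rw [dif_pos hx]
    exact (h _ _ hx.choose_spec).symm
  refine ⟨r, hrd, fun Q w f => ?_⟩
  rw [Q.sum_pv (W := W) Y (F := fun w F => ind (r (F, W w) = f)) (fun F v w hvw => by
    show ind (r (F, W v) = f) = ind (r (F, W w) = f)
    rw [hvw]) w]
  show Q.ce W (fun v => ind (Y1 v = f)) w = Q.ce W (fun v => ind (r (Y v, W v) = f)) w
  exact Q.ce_congr (fun v _ => by rw [hrd v]) w

/-- **a test of the row against its exponential mean**, weight seen by the row -/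
theorem dv_row {Y : Om → ρ} {W : Om → κ} {Z : Om → ζ} (hWZ : Fac W Z) {u : Om → ℝ} (hu : Fac W u) (u0 : ∀ w, 0 ≤ u w)
    {F : Om → ρ → ℝ} (hF : ∀ f, Fac W (fun w => F w f)) :
    P.E (fun w => u w * F w (Y w)) ≤ P.E (fun w => u w * Real.log (P.pv W Y w (Y w) / P.pv Z Y w (Y w))) +
      P.E (fun w => u w * Real.log (∑ f ∈ vals Y, P.pv Z Y w f * Real.exp (F w f))) := by
  rw [← P.E_mul_ce hu (fun w => F w (Y w)), ← P.E_mul_ce hu (fun w => Real.log (P.pv W Y w (Y w) / P.pv Z Y w (Y w))),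
    ← P.E_add]
  refine P.E_mono fun w hw => ?_
  have h1 := klp_dv (P := P) (Q := P) (fun _ h => h) (Y := Y) hWZ hw (F w)
  rw [P.sum_pv (W := W) Y (F := F) hF w, ce_log_klp hWZ w] at h1
  have h2 := mul_le_mul_of_nonneg_left h1 (u0 w)
  linarith

/-- **an event of the row against its mass at the reference** -/
theorem rare_row {Y : Om → ρ} {W : Om → κ} {Z : Om → ζ} (hWZ : Fac W Z) {u : Om → ℝ} (hu : Fac W u) (u0 : ∀ w, 0 ≤ u w)
    {R : Om → ρ → Prop} (hR : ∀ f, Fac W (fun w => R w f)) {L : ℝ} (hL : 0 ≤ L) :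
    L * P.E (fun w => u w * ind (R w (Y w))) ≤
      P.E (fun w => u w * Real.log (P.pv W Y w (Y w) / P.pv Z Y w (Y w))) +
        (Real.exp L - 1) * P.E (fun w => u w * ∑ f ∈ vals Y, P.pv Z Y w f * ind (R w f)) := by
  have k := dv_row (P := P) (Y := Y) hWZ hu u0 (F := fun w f => L * ind (R w f)) (fun f v w hvw => by
    show L * ind (R v f) = L * ind (R w f)
    rw [show R v f = R w f from hR f v w hvw])
  have e1 : P.E (fun w => u w * (L * ind (R w (Y w)))) = L * P.E (fun w => u w * ind (R w (Y w))) := by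
    rw [← P.E_smul]
    exact P.E_congr fun w _ => by ring
  rw [e1] at k
  refine k.trans (add_le_add le_rfl ?_)
  rw [← P.E_smul]
  refine P.E_mono fun w hw => ?_
  have h1 : ∑ f ∈ vals Y, P.pv Z Y w f * Real.exp (L * ind (R w f)) =
      1 + (Real.exp L - 1) * ∑ f ∈ vals Y, P.pv Z Y w f * ind (R w f) := by
    have hs := P.pv_sum Z Y hw
    have h0 : ∀ f ∈ vals Y, P.pv Z Y w f * Real.exp (L * ind (R w f)) =
        P.pv Z Y w f + (Real.exp L - 1) * (P.pv Z Y w f * ind (R w f)) := by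
      intro f _
      by_cases hf : R w f
      · rw [ind_of hf, mul_one, mul_one]; ring
      · rw [ind_not hf, mul_zero, Real.exp_zero]; ring
    rw [Finset.sum_congr rfl h0, Finset.sum_add_distrib, hs, Finset.mul_sum]
  have h2 : 0 ≤ (Real.exp L - 1) * ∑ f ∈ vals Y, P.pv Z Y w f * ind (R w f) :=
    mul_nonneg (by have := Real.add_one_le_exp L; linarith)
      (Finset.sum_nonneg fun f _ => mul_nonneg (P.pv_nonneg _ _ _ _) (ind_nonneg _))
  rw [h1]
  have h3 := Real.log_le_sub_one_of_pos (show 0 < 1 + (Real.exp L - 1) * ∑ f ∈ vals Y, P.pv Z Y w f * ind (R w f) by linarith)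
  have h4 := mul_le_mul_of_nonneg_left h3 (u0 w)
  linarith

/-- entropy of a rare event, linear form -/
theorem ent_lin {p c : ℝ} (hp : 0 ≤ p) (hc : 0 < c) : p * Real.log (1 / p) ≤ p * Real.log c + 1 / c := by
  rcases hp.eq_or_lt with h0 | h0
  · rw [← h0, zero_mul, zero_mul, zero_add]
    exact (one_div_pos.2 hc).le
  · have h1 : Real.log (1 / (c * p)) ≤ 1 / (c * p) - 1 := Real.log_le_sub_one_of_pos (by positivity)
    have h2 : Real.log (1 / (c * p)) = Real.log (1 / p) - Real.log c := by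
      rw [Real.log_div one_ne_zero (by positivity), Real.log_mul hc.ne' h0.ne', Real.log_div one_ne_zero h0.ne']
      ring
    rw [h2] at h1
    have h3 := mul_le_mul_of_nonneg_left h1 h0.le
    have h4 : p * (1 / (c * p) - 1) = 1 / c - p := by field_simp
    rw [h4] at h3
    linarith

end evm

section avg

variable {K X β γ φ υ : Type} [Fintype K] [DecidableEq K] [Fintype X] [Fintype β] [Fintype φ] [Nonempty X] [Nonempty β]
  {D : HD K X β γ φ} {al : ℝ} {h : D.Thick al} {N : Finset K → ℝ} {S : Finset (Finset K)}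
  {U : Finset K → X → (K → β) → υ} {t : ℕ} {b c d : K} {w0 : Pt K X β φ}

/-- public letter, node, exact point and own letter of `b` -/
noncomputable def cbm (D : HD K X β γ φ) (U : Finset K → X → (K → β) → υ) (t : ℕ) (b : K) (w : Pt K X β φ) :
    ((Finset K → Option (υ × (K → Option φ))) × ((K → Option β) × (γ × (K → γ)))) × β × υ :=
  ((le (LL U) ∅ w, BB D t ∅ w), w.2.1 b, U {b} w.1 w.2.1)

theorem cbm_cls (w0 : Pt K X β φ) : (fun w => cbm D U t b w = cbm D U t b w0) = clsb U (pub0 D t U w0) b w0 := by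
  funext w
  refine propext ?_
  show _ ↔ (pub0 D t U w0 w ∧ w.2.1 b = w0.2.1 b ∧ U {b} w.1 w.2.1 = U {b} w0.1 w0.2.1)
  unfold pub0 cbm
  rw [Prod.mk.injEq (le (LL U) ∅ w, BB D t ∅ w), Prod.mk.injEq (w.2.1 b)]

theorem cls_I (B : Bk h N S U t b c d) (hw0 : (D.P h t).p w0 ≠ 0) : Ib h U t b w0 (clsb U (pub0 D t U w0) b w0) :=
  ⟨clsb_Ah B.dep (pub0_C w0) B.oth, ⟨rfl, rfl, rfl⟩, hw0, fun _ hv => hv⟩

theorem Wf_cbm : Fac (Wf D U t) (cbm D U t b) := by
  intro v w hvw
  unfold Wf at hvw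
  rw [Prod.mk.injEq] at hvw
  have h1 : zf U b v = zf U b w := congrFun hvw.2 b
  unfold zf at h1
  unfold cbm
  rw [Prod.mk.injEq (le (LL U) ∅ v, BB D t ∅ v)]
  exact ⟨hvw.1, h1⟩

theorem Wf_cls : Fac (Wf D U t) (clsb U (pub0 D t U w0) b w0) := by
  intro v u h1
  have h2 := Wf_cbm (b := b) v u h1
  have h3 := congrFun (cbm_cls (D := D) (U := U) (t := t) (b := b) w0) v
  have h4 := congrFun (cbm_cls (D := D) (U := U) (t := t) (b := b) w0) u
  rw [← h3, ← h4, h2]

/-- surprise of the exact letter of `b`, from the public class with the exact point -/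
noncomputable def lsb (h : D.Thick al) (U : Finset K → X → (K → β) → υ) (t : ℕ) (b : K) (w : Pt K X β φ) : ℝ :=
  Real.log (1 / (QB h U t b w).Pr (clsb U (pub0 D t U w) b w))

/-- measure of the event in the class of `b` -/
noncomputable def pib (h : D.Thick al) (U : Finset K → X → (K → β) → υ) (t : ℕ) (b : K) (act : Pt K X β φ → Prop)
    (w : Pt K X β φ) : ℝ := (D.P h t).ce (cbm D U t b) (fun v => ind (act v)) w

theorem pib_eq {act : Pt K X β φ → Prop} {w : Pt K X β φ} (hw : (D.P h t).p w ≠ 0) :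
    pib h U t b act w = ((D.P h t).cond (clsb U (pub0 D t U w) b w)).Pr act := by
  unfold pib
  rw [(D.P h t).ce_eq_cond _ _ hw, cbm_cls]
  rfl

theorem pib_nonneg {act : Pt K X β φ → Prop} (w : Pt K X β φ) : 0 ≤ pib h U t b act w :=
  (D.P h t).ce_nonneg (fun v _ => ind_nonneg _) w

theorem pib_le_one {act : Pt K X β φ → Prop} {w : Pt K X β φ} (hw : (D.P h t).p w ≠ 0) : pib h U t b act w ≤ 1 :=
  (D.P h t).ce_le_const (fun v _ => ind_le_one _) hw

/-- in the class, the far label under the exact law is the far label given what it sees -/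
theorem pv_own (B : Bk h N S U t b c d) {ρ : Type} {Yl : Pt K X β φ → ρ}
    (hYl : Fac (fun w : Pt K X β φ => (w.2.2 b, Zf D U t b w)) Yl) {w : Pt K X β φ} (hw : (D.P h t).p w ≠ 0) (f : ρ) :
    (D.P h t).pv (Zf D U t b) Yl w f = (QB h U t b w).pv (Zf D U t b) Yl w f := by
  obtain ⟨r, _, h1⟩ := pv_map (D.P h t) (W := Zf D U t b) (Y := fun u : Pt K X β φ => u.2.2 b) hYl
  rw [h1, h1]
  exact Finset.sum_congr rfl fun F _ => by rw [pv_hw B hw F]

/-- **THE INTEGRAND, one class** (all maps known everywhere) -/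
theorem ns_log0 (B : Bk h N S U t b c d) (hw0 : (D.P h t).p w0 ≠ 0) {τ ρ : Type} {Xl : Pt K X β φ → τ}
    (hXl : Fac (fun w : Pt K X β φ => (w.2.2 d, Wf D U t w)) Xl) {Yl : Pt K X β φ → ρ}
    (hYl : Fac (fun w : Pt K X β φ => (w.2.2 b, Zf D U t b w)) Yl)
    {act : Pt K X β φ → Prop} (hact : Fac (fun w => (w.1, BB D t {b, c} w, w.2.2 d)) act)
    (hax : ∀ v w, (D.P h t).p v ≠ 0 → (D.P h t).p w ≠ 0 → Xl v = Xl w → Wf D U t v = Wf D U t w → (act v ↔ act w)) :
    N (univ.erase b) * ((D.P h t).cond (clsb U (pub0 D t U w0) b w0)).E (fun w => ind (act w) *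
      Real.log ((D.P h t).pv (fun v => (Xl v, Wf D U t v)) Yl w (Yl w) / (D.P h t).pv (Zf D U t b) Yl w (Yl w))) ≤
      2 * N ∅ * (lsb h U t b w0 + 1) + 2 * (N {c} * (pib h U t b act w0 *
        (Real.log (1 / pib h U t b act w0) + 1 + Real.log (1 / al)))) := by
  set V := clsb U (pub0 D t U w0) b w0 with hV
  have I : Ib h U t b w0 V := cls_I B hw0
  set Q := (D.P h t).cond V with hQ
  have hV0 : (D.P h t).Pr V ≠ 0 := I.ne
  have k := ns_class B I (Xl := fun w => w.2.2 d) (Fac.refl _) (Yl := LL (φ := φ) U (univ.erase b)) (Fac.refl _) hact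
  rw [← pib_eq hw0] at k
  have hac : Q.Ac (QB h U t b w0) := I.acB
  have hsup : ∀ v, Q.p v ≠ 0 → V v ∧ (D.P h t).p v ≠ 0 := fun v hv => cond_supp hV0 hv
  -- fibres
  have hfB : ∀ v w, (QB h U t b w0).p v ≠ 0 → (QB h U t b w0).p w ≠ 0 →
      ((zf U c v, zf U d v) = (zf U c w, zf U d w) ↔ Zf D U t b v = Zf D U t b w) := by
    intro v w hv hw
    have xv := QB_supp hw0 hv
    have xw := QB_supp hw0 hw
    have h1 : le (LL U) ∅ v = le (LL U) ∅ w := xv.1.trans xw.1.symm
    rw [Zf_iff B h1 (xc_pub xv xw).1, Prod.mk.injEq (zf U c v)]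
  have hfW : ∀ v w, V v → V w → (Zf D U t b v = Zf D U t b w ↔ Wf D U t v = Wf D U t w) := by
    intro v w hv hw
    have h1 : (le (LL U) ∅ v, BB D t ∅ v) = (le (LL U) ∅ w, BB D t ∅ w) :=
      (show (le (LL U) ∅ v, BB D t ∅ v) = (le (LL U) ∅ w0, BB D t ∅ w0) from hv.1).trans
        (show (le (LL U) ∅ w, BB D t ∅ w) = (le (LL U) ∅ w0, BB D t ∅ w0) from hw.1).symm
    have h2 := Prod.mk.inj h1
    rw [Zf_iff B h2.1 h2.2]
    unfold Wf
    rw [Prod.mk.injEq (le (LL U) ∅ v, BB D t ∅ v)]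
    constructor
    · intro hh
      refine ⟨h1, funext fun j => ?_⟩
      rcases B.all j with h7 | h7 | h7
      · rw [h7]
        unfold zf
        rw [hv.2.1, hv.2.2, hw.2.1, hw.2.2]
      · rw [h7]; exact hh.1
      · rw [h7]; exact hh.2
    · intro hh
      exact ⟨congrFun hh.2 c, congrFun hh.2 d⟩
  -- from the plain labels
  have e1 : Q.klc (QB h U t b w0) Yl (Zf D U t b) ≤
      Q.klc (QB h U t b w0) (LL U (univ.erase b)) (fun w => (zf U c w, zf U d w)) := by
    rw [klc_congr_supp hac (L := LL U (univ.erase b)) (L' := LL U (univ.erase b)) (Z := fun w => (zf U c w, zf U d w))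
      (Z' := Zf D U t b) hfB (fun _ _ _ _ _ => Iff.rfl)]
    refine klc_mono hac fun v w hvw => hYl v w ?_
    rw [Prod.mk.injEq] at hvw ⊢
    exact ⟨(LL_eq.1 hvw.1).2 b rfl, hvw.2⟩
  have e2 : Q.I Yl (wl act Xl) (Zf D U t b) ≤
      Q.I (LL U (univ.erase b)) (wl act (fun w => w.2.2 d)) (fun w => (zf U c w, zf U d w)) := by
    rw [I_supp (P := Q) (X1 := LL U (univ.erase b)) (X2 := LL U (univ.erase b))
      (Y1 := wl act (fun w : Pt K X β φ => w.2.2 d)) (Y2 := wl act (fun w : Pt K X β φ => w.2.2 d))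
      (Z1 := fun w => (zf U c w, zf U d w)) (Z2 := Wf D U t) (fun _ _ _ _ => Iff.rfl) (fun _ _ _ _ => Iff.rfl)
      (fun v w hv hw => (hfB v w (hac v hv) (hac w hw)).trans (hfW v w (hsup v hv).1 (hsup w hw).1)),
      I_supp (P := Q) (X1 := Yl) (X2 := Yl) (Y1 := wl act Xl) (Y2 := wl act Xl)
      (Z1 := Zf D U t b) (Z2 := Wf D U t) (fun _ _ _ _ => Iff.rfl) (fun _ _ _ _ => Iff.rfl)
      (fun v w hv hw => hfW v w (hsup v hv).1 (hsup w hw).1)]
    refine le_trans (FP.I_mono _ (X := LL U (univ.erase b)) (X' := Yl) _ fun v w hvw => ?_) ?_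
    · rw [Prod.mk.injEq] at hvw
      exact hYl v w (Prod.ext ((LL_eq.1 hvw.1).2 b rfl) (Wf_Zf B v w hvw.2))
    · rw [FP.I_comm, FP.I_comm _ (LL U (univ.erase b)) (wl act (fun w : Pt K X β φ => w.2.2 d))]
      refine FP.I_mono _ (X := wl act (fun w : Pt K X β φ => w.2.2 d)) (X' := wl act Xl) _ fun v w hvw => ?_
      rw [Prod.mk.injEq] at hvw
      obtain ⟨h1, h2⟩ := hvw
      by_cases hw : act w
      · have h3 := (wl_eq hw).1 h1
        exact (wl_eq hw).2 ⟨h3.1, hXl v w (Prod.ext h3.2 h2)⟩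
      · have hv : ¬ act v := by
          have h3 := ind_wl_fac act (fun w : Pt K X β φ => w.2.2 d) v w h1
          rw [h3]; exact hw
        rw [wl_out hv, wl_out hw]
  have k2 := log_wl_le (P := QB h U t b w0) (Q := Q) hac (X := Xl) (Y := Yl) (Z := Zf D U t b) (act := act)
    (fun v w hv hw hx hz => hax v w (hsup v hv).2 (hsup w hw).2 hx ((hfW v w (hsup v hv).1 (hsup w hw).1).1 hz))
  have hNJ := (B.n2 b).le
  have e : Q.E (fun w => ind (act w) *
      Real.log ((D.P h t).pv (fun v => (Xl v, Wf D U t v)) Yl w (Yl w) / (D.P h t).pv (Zf D U t b) Yl w (Yl w))) =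
      Q.E (fun w => ind (act w) *
      Real.log (Q.pv (fun v => (Xl v, Zf D U t b v)) Yl w (Yl w) / (QB h U t b w0).pv (Zf D U t b) Yl w (Yl w))) := by
    refine Q.E_congr fun w hw => ?_
    obtain ⟨hVw, hp⟩ := hsup w hw
    have a1 : (D.P h t).pv (Zf D U t b) Yl w (Yl w) = (QB h U t b w0).pv (Zf D U t b) Yl w (Yl w) := by
      rw [pv_own B hYl hp, I.QB_mv hVw]
    have a2 : (D.P h t).pv (fun v => (Xl v, Wf D U t v)) Yl w (Yl w) =
        Q.pv (fun v => (Xl v, Zf D U t b v)) Yl w (Yl w) := by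
      have hC : Fac (fun v => (Xl v, Wf D U t v)) V := (Fac.snd _ _).trans Wf_cls
      rw [← cond_pv hC hV0 Yl hVw (Yl w)]
      refine pv_supp (fun v hv => ?_) (fun _ _ => rfl) _
      rw [Prod.mk.injEq, Prod.mk.injEq (Xl v), hfW v w (hsup v hv).1 hVw]
    rw [a1, a2]
  rw [e]
  have h3 := mul_le_mul_of_nonneg_left (k2.trans (add_le_add e1 e2)) hNJ
  exact h3.trans k

/-- **THE INTEGRAND, one class** (maps known on the support) -/
theorem ns_log (B : Bk h N S U t b c d) (hw0 : (D.P h t).p w0 ≠ 0) {τ ρ : Type} {Xl : Pt K X β φ → τ}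
    (hXl : ∀ v w, (D.P h t).p v ≠ 0 → (D.P h t).p w ≠ 0 → v.2.2 d = w.2.2 d → Wf D U t v = Wf D U t w → Xl v = Xl w)
    {Yl : Pt K X β φ → ρ} (hYl : ∀ v w, (D.P h t).p v ≠ 0 → (D.P h t).p w ≠ 0 → v.2.2 b = w.2.2 b →
      Zf D U t b v = Zf D U t b w → Yl v = Yl w)
    {act : Pt K X β φ → Prop} (hact : ∀ v w, (D.P h t).p v ≠ 0 → (D.P h t).p w ≠ 0 → v.1 = w.1 →
      BB D t {b, c} v = BB D t {b, c} w → v.2.2 d = w.2.2 d → (act v ↔ act w))
    (hax : ∀ v w, (D.P h t).p v ≠ 0 → (D.P h t).p w ≠ 0 → Xl v = Xl w → Wf D U t v = Wf D U t w → (act v ↔ act w)) :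
    N (univ.erase b) * ((D.P h t).cond (clsb U (pub0 D t U w0) b w0)).E (fun w => ind (act w) *
      Real.log ((D.P h t).pv (fun v => (Xl v, Wf D U t v)) Yl w (Yl w) / (D.P h t).pv (Zf D U t b) Yl w (Yl w))) ≤
      2 * N ∅ * (lsb h U t b w0 + 1) + 2 * (N {c} * (pib h U t b act w0 *
        (Real.log (1 / pib h U t b act w0) + 1 + Real.log (1 / al)))) := by
  obtain ⟨X', x1, x2⟩ := ext_fac (P := D.P h t) (W := fun w : Pt K X β φ => (w.2.2 d, Wf D U t w)) (g := Xl)
    (fun v w hv hw hvw => hXl v w hv hw (congrArg Prod.fst hvw) (congrArg Prod.snd hvw))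
  obtain ⟨Y', y1, y2⟩ := ext_fac (P := D.P h t) (W := fun w : Pt K X β φ => (w.2.2 b, Zf D U t b w)) (g := Yl)
    (fun v w hv hw hvw => hYl v w hv hw (congrArg Prod.fst hvw) (congrArg Prod.snd hvw))
  obtain ⟨a', a1, a2⟩ := ext_fac (P := D.P h t) (W := fun w : Pt K X β φ => (w.1, BB D t {b, c} w, w.2.2 d)) (g := act)
    (fun v w hv hw hvw => by
      simp only [Prod.mk.injEq] at hvw
      exact propext (hact v w hv hw hvw.1 hvw.2.1 hvw.2.2))
  have k := ns_log0 B hw0 x1 y1 a1 (fun v w hv hw hx hz => by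
    rw [a2 v hv, a2 w hw]
    exact hax v w hv hw (by rw [← x2 v hv, ← x2 w hw]; exact hx) hz)
  have e0 : pib h U t b a' w0 = pib h U t b act w0 := by
    unfold pib
    exact (D.P h t).ce_congr (fun v hv => by rw [a2 v hv]) w0
  have hV0 := (cls_I (w0 := w0) B hw0).ne
  rw [e0] at k
  refine le_trans (le_of_eq ?_) k
  congr 1
  refine FP.E_congr _ fun w hw => ?_
  have hp := (cond_supp hV0 hw).2
  rw [a2 w hp, y2 w hp]
  have e1 : (D.P h t).pv (fun v => (Xl v, Wf D U t v)) Yl w (Yl w) = (D.P h t).pv (fun v => (X' v, Wf D U t v)) Y' w (Yl w) :=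
    pv_supp (fun v hv => by rw [Prod.mk.injEq, Prod.mk.injEq (X' v), x2 v hv, x2 w hp]) (fun v hv => (y2 v hv).symm) _
  have e2 : (D.P h t).pv (Zf D U t b) Yl w (Yl w) = (D.P h t).pv (Zf D U t b) Y' w (Yl w) :=
    pv_supp (fun v hv => Iff.rfl) (fun v hv => (y2 v hv).symm) _
  rw [e1, e2]

/-- **THE INTEGRAND, mean over the classes** with a weight of the class -/
theorem ns_avg (B : Bk h N S U t b c d) {τ ρ : Type} {Xl : Pt K X β φ → τ}
    (hXl : ∀ v w, (D.P h t).p v ≠ 0 → (D.P h t).p w ≠ 0 → v.2.2 d = w.2.2 d → Wf D U t v = Wf D U t w → Xl v = Xl w)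
    {Yl : Pt K X β φ → ρ} (hYl : ∀ v w, (D.P h t).p v ≠ 0 → (D.P h t).p w ≠ 0 → v.2.2 b = w.2.2 b →
      Zf D U t b v = Zf D U t b w → Yl v = Yl w)
    {act : Pt K X β φ → Prop} (hact : ∀ v w, (D.P h t).p v ≠ 0 → (D.P h t).p w ≠ 0 → v.1 = w.1 →
      BB D t {b, c} v = BB D t {b, c} w → v.2.2 d = w.2.2 d → (act v ↔ act w))
    (hax : ∀ v w, (D.P h t).p v ≠ 0 → (D.P h t).p w ≠ 0 → Xl v = Xl w → Wf D U t v = Wf D U t w → (act v ↔ act w))
    {g : Pt K X β φ → ℝ} (hg : Fac (cbm D U t b) g) (g0 : ∀ w, 0 ≤ g w) :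
    N (univ.erase b) * (D.P h t).E (fun w => g w * (ind (act w) *
      Real.log ((D.P h t).pv (fun v => (Xl v, Wf D U t v)) Yl w (Yl w) / (D.P h t).pv (Zf D U t b) Yl w (Yl w)))) ≤
      2 * N ∅ * (D.P h t).E (fun w => g w * (lsb h U t b w + 1)) +
        2 * (N {c} * (D.P h t).E (fun w => g w * (pib h U t b act w *
        (Real.log (1 / pib h U t b act w) + 1 + Real.log (1 / al))))) := by
  set P := D.P h t with hP
  set L : Pt K X β φ → ℝ := fun w => ind (act w) *
    Real.log (P.pv (fun v => (Xl v, Wf D U t v)) Yl w (Yl w) / P.pv (Zf D U t b) Yl w (Yl w)) with hL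
  rw [← P.E_mul_ce hg, ← P.E_smul, ← P.E_smul, ← P.E_smul, ← P.E_smul, ← P.E_add]
  refine P.E_mono fun w hw => ?_
  have k := ns_log (w0 := w) B hw hXl hYl hact hax
  have e : P.ce (cbm D U t b) L w = (P.cond (clsb U (pub0 D t U w) b w)).E L := by
    rw [P.ce_eq_cond _ _ hw, cbm_cls]
  rw [e]
  have h1 := mul_le_mul_of_nonneg_left k (g0 w)
  show N (univ.erase b) * (g w * (P.cond (clsb U (pub0 D t U w) b w)).E L) ≤ _
  have h2 : N (univ.erase b) * (g w * (P.cond (clsb U (pub0 D t U w) b w)).E L) =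
      g w * (N (univ.erase b) * (P.cond (clsb U (pub0 D t U w) b w)).E L) := by ring
  rw [h2]
  refine h1.trans (le_of_eq ?_)
  ring

/-- **linear form** : `G` an event of the class, letters of surprise at most `Lo` there, any `cc > 0` -/
theorem ns_lin (B : Bk h N S U t b c d) {τ ρ : Type} {Xl : Pt K X β φ → τ}
    (hXl : ∀ v w, (D.P h t).p v ≠ 0 → (D.P h t).p w ≠ 0 → v.2.2 d = w.2.2 d → Wf D U t v = Wf D U t w → Xl v = Xl w)
    {Yl : Pt K X β φ → ρ} (hYl : ∀ v w, (D.P h t).p v ≠ 0 → (D.P h t).p w ≠ 0 → v.2.2 b = w.2.2 b →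
      Zf D U t b v = Zf D U t b w → Yl v = Yl w)
    {act : Pt K X β φ → Prop} (hact : ∀ v w, (D.P h t).p v ≠ 0 → (D.P h t).p w ≠ 0 → v.1 = w.1 →
      BB D t {b, c} v = BB D t {b, c} w → v.2.2 d = w.2.2 d → (act v ↔ act w))
    (hax : ∀ v w, (D.P h t).p v ≠ 0 → (D.P h t).p w ≠ 0 → Xl v = Xl w → Wf D U t v = Wf D U t w → (act v ↔ act w))
    {G : Pt K X β φ → Prop} (hG : Fac (cbm D U t b) G) {Lo : ℝ}
    (hLo : ∀ w, (D.P h t).p w ≠ 0 → G w → lsb h U t b w ≤ Lo) {cc : ℝ} (hcc : 0 < cc) :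
    N (univ.erase b) * (D.P h t).E (fun w => ind (G w) * (ind (act w) *
      Real.log ((D.P h t).pv (fun v => (Xl v, Wf D U t v)) Yl w (Yl w) / (D.P h t).pv (Zf D U t b) Yl w (Yl w)))) ≤
      2 * N ∅ * ((Lo + 1) * (D.P h t).Pr G) +
        2 * (N {c} * ((Real.log cc + 1 + Real.log (1 / al)) * (D.P h t).Pr (fun w => G w ∧ act w) +
          1 / cc * (D.P h t).Pr G)) := by
  have hfG : Fac (cbm D U t b) (fun w => ind (G w)) := hG.comp fun q => ind q
  refine (ns_avg B hXl hYl hact hax hfG fun w => ind_nonneg _).trans (add_le_add ?_ ?_)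
  · have h1 : (D.P h t).E (fun w => ind (G w) * (lsb h U t b w + 1)) ≤ (Lo + 1) * (D.P h t).Pr G := by
      unfold FP.Pr
      rw [← FP.E_smul]
      refine FP.E_mono _ fun w hw => ?_
      by_cases hGw : G w
      · rw [ind_of hGw, one_mul, mul_one]
        have := hLo w hw hGw
        linarith
      · rw [ind_not hGw, zero_mul, mul_zero]
    exact mul_le_mul_of_nonneg_left h1 (mul_nonneg (by norm_num) (B.nn ∅ B.s0))
  · refine mul_le_mul_of_nonneg_left (mul_le_mul_of_nonneg_left ?_ (B.nn {c} (B.s1 c))) (by norm_num)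
    have h2 : (D.P h t).Pr (fun w => G w ∧ act w) = (D.P h t).E (fun w => ind (G w) * pib h U t b act w) := by
      unfold pib
      rw [FP.E_mul_ce _ hfG]
      exact FP.E_congr _ fun w _ => ind_and _ _
    rw [h2, ← FP.E_smul]
    unfold FP.Pr
    rw [← FP.E_smul, ← FP.E_add]
    refine FP.E_mono _ fun w hw => ?_
    have h3 := ent_lin (pib_nonneg (h := h) (U := U) (t := t) (b := b) (act := act) w) hcc
    have h4 := mul_le_mul_of_nonneg_left h3 (ind_nonneg (G w))
    nlinarith [h4]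

end avg

end Pool.Agent.GMH
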