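import Pool.Agent.GMH.RarNG
import Pool.Agent.GMH.HotC

/-!
# GMH/HotNd (helper98): CLASS MASSES OF THE HOT PAIRS, THE NODE FIELDS FOR THE HOT KINDS

* `hotM_mass` : given all thin letters the mass of the hot pairs is at most `2 D0` (distance from independence);
* **`hb_x`** : class of an exact vertex with the condition `gdc`, **`hb_n`** : public class `okq` : mass of `hotq j a s q`, alive,
  at most `x^(-K)`, any `K` (levels `log 2 + 2 log s ≤ a`);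
* `Hmh` : the same for the relation of the life and the public relation (`hotA` of `tauO (C.U ka) o q`); **`hmh_all`**.
-/

set_option autoImplicit false
set_option linter.unusedSectionVars false

namespace Pool.Agent.GMH.HotNd

open Finset Pool.Agent.PWZ Pool.Agent.M3 Pool.Agent.GM Pool.Agent.GM.Harm Pool.Agent.GMH
open Pool.Agent.GMH.Dy Pool.Agent.GMH.MVI Pool.Agent.GMH.MVIp Pool.Agent.GMH.KF
open Pool.Agent.GMH.UV (US Kd tv Stps StpC Dn De0 af0 sf rd0 M0 Z0)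
open Pool.Agent.GMH.TRF (ruO)
open Pool.Agent.GMH.ExK
open Pool.Agent.GMH.CX Pool.Agent.GMH.V3 Pool.Agent.GMH.CT
open Pool.Agent.GMH.CLM (R0G bad_ok ltL_fac eT_lt ce_mono_cls ce_or_cls ce_fine ce_fine2 ce_ind_le_one)
open Pool.Agent.GMH.RarN
open Pool.Agent.GMH.RarR0 (gdc gdc_zero)

noncomputable section

/-! ### given all thin letters -/

section abs

variable {Om : Type} [Fintype Om] (P : FP Om) {β φ : Type*} {Z : Om → β} (F : Fin 3 → Om → φ)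

theorem hotM_mass {i : Fin 3} {w : Om} (hw : P.p w ≠ 0) {a : ℝ} (ha : Real.log 2 ≤ a) :
    P.ce Z (fun u => ind (hotM P Z F a i w (tup F u))) w ≤ 2 * D0 P F Z w := by
  refine (mass_gen P F (opp i) hw (H := fun f => hotM P Z F a i w f) (A := 2) (B := 0) ?_ (by norm_num) le_rfl ?_).trans
    (le_of_eq (by ring))
  · intro f g h
    have e : ∀ l ∈ opp i, mF P Z F l w (g l) = mF P Z F l w (f l) := fun l hl => by rw [h l hl]
    have e2 : pS P Z F (opp i) w g = pS P Z F (opp i) w f := pS_cong P F w h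
    show hotM P Z F a i w g ↔ hotM P Z F a i w f
    unfold hotM
    rw [e2, Finset.prod_congr rfl e]
    refine and_congr ?_ Iff.rfl
    exact forall₂_congr fun l hl => by rw [e l hl]
  · intro f _ hf
    have h1 : Real.exp a * ∏ l ∈ opp i, mF P Z F l w (f l) ≤ pS P Z F (opp i) w f := hf.2
    have h2 : (2 : ℝ) ≤ Real.exp a := by
      have := Real.exp_le_exp.2 ha
      rwa [Real.exp_log (by norm_num)] at this
    have h3 : 0 ≤ ∏ l ∈ opp i, mF P Z F l w (f l) := Finset.prod_nonneg fun l _ => mF_nn P F l w (f l)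
    have h4 : 2 * ∏ l ∈ opp i, mF P Z F l w (f l) ≤ pS P Z F (opp i) w f :=
      (mul_le_mul_of_nonneg_right h2 h3).trans h1
    have h5 := le_abs_self (pS P Z F (opp i) w f - ∏ l ∈ opp i, mF P Z F l w (f l))
    rw [zero_mul, add_zero]
    linarith

variable {α : Type*} {Zb : Fin 3 → Om → α}

/-- the hot pairs given all thin letters -/
theorem hotQ_mass {i : Fin 3} {w : Om} (hw : P.p w ≠ 0) {a s : ℝ} (hs : 0 < s) (ha : Real.log 2 + 2 * Real.log s ≤ a) :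
    P.ce Z (fun u => ind (hotQ P Z Zb F a s i u (tup F u))) w ≤ 2 * D0 P F Z w := by
  refine le_trans ?_ (hotM_mass P F (Z := Z) (i := i) hw (a := a - 2 * Real.log s) (by linarith))
  refine CLM.ce_mono_cls fun u hu hc => ind_mono fun hh => ?_
  have h1 : hotM P Z F (a - 2 * Real.log s) i u (tup F u) := KF.hotQ_M hs hh
  exact (iff_of_eq (hotM_fac P F (Z := Z) (a - 2 * Real.log s) i (tup F u) u w hc)).1 h1

end abs

/-! ### the run -/

section run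

variable {X β γ φ : Type} [Fintype X] [Fintype β] [Fintype φ] [Nonempty X] [Nonempty β]
variable {D : HD (Fin 3) X β γ φ} {al : ℝ} (h : D.Thick al) {prr : ℕ → Fin 3 → φ → φ} {T : ℕ} {W : Type} [Fintype W]
variable (tb : Tab D prr T W) (v : ℕ → Finset (Fin 3) → X → (Fin 3 → β) → Pt (Fin 3) X β φ)

/-- all thin letters of the state `q` -/
def Zt (q : ℕ) (u : Om W X β) := TP.ZQ D v q (tb.pt (q / 5) u)

variable {h tb v}

/-- **hot outside `R0`, given all thin letters** -/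
theorem hot_Z {c : KC} {j : Fin 3} {a s : ℝ} (hs : 0 < s) (ha : Real.log 2 + 2 * Real.log s ≤ a) (he : 0 ≤ c.e1) {q : ℕ}
    (hq : q / 5 ≤ T) {w : Om W X β} (hw : tb.Ps.p w ≠ 0) :
    tb.Ps.ce (Zt tb v q) (fun u => ind (hotq h v tb j a s q u ∧ ¬ ck h v tb Option.none c 1 q u)) w ≤ 4 * c.e1 := by
  have H0 : Pul tb.Ps (D.P h (q / 5)) (tb.pt (q / 5)) := pul_pt h tb hq
  have hp := H0.ne hw
  have hck : ∀ u, tb.Ps.p u ≠ 0 → (ck h v tb Option.none c 1 q u ↔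
      2 * c.e1 ≤ D0 (D.P h (q / 5)) (TP.FQ v (q / 5)) (TP.ZQ D v q) (tb.pt (q / 5) u)) := fun u hu =>
    (co_Ap (by omega)).trans (Ap1_iff (D.P h (q / 5)) (TP.FQ v (q / 5)) (Z := TP.ZQ D v q) c (H0.ne hu) _)
  have hD : Fac (TP.ZQ D v q) (D0 (D.P h (q / 5)) (TP.FQ v (q / 5)) (TP.ZQ D v q)) := fun a b e => by
    unfold D0
    refine Finset.sum_congr rfl fun g _ => ?_
    have e1 : pF (D.P h (q / 5)) (TP.ZQ D v q) (TP.FQ v (q / 5)) a g =
        pF (D.P h (q / 5)) (TP.ZQ D v q) (TP.FQ v (q / 5)) b g := FP.pv_fac _ _ _ _ _ _ e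
    have e2 : ∀ i, mF (D.P h (q / 5)) (TP.ZQ D v q) (TP.FQ v (q / 5)) i a (g i) =
        mF (D.P h (q / 5)) (TP.ZQ D v q) (TP.FQ v (q / 5)) i b (g i) := fun i => FP.pv_fac _ _ _ _ _ _ e
    rw [e1, Finset.prod_congr rfl fun i _ => e2 i]
  by_cases h1 : 2 * c.e1 ≤ D0 (D.P h (q / 5)) (TP.FQ v (q / 5)) (TP.ZQ D v q) (tb.pt (q / 5) w)
  · have h2 : tb.Ps.ce (Zt tb v q) (fun u => ind (hotq h v tb j a s q u ∧ ¬ ck h v tb Option.none c 1 q u)) w ≤
        tb.Ps.ce (Zt tb v q) (fun _ => 0) w := by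
      refine ce_mono_cls fun u hu hc => le_of_eq (ind_not fun hh => hh.2 ((hck u hu).2 ?_))
      rw [hD _ _ (show TP.ZQ D v q (tb.pt (q / 5) u) = TP.ZQ D v q (tb.pt (q / 5) w) from hc)]
      exact h1
    rw [tb.Ps.ce_const _ 0 hw] at h2
    linarith
  · have h2 := hotQ_mass (D.P h (q / 5)) (TP.FQ v (q / 5)) (Z := TP.ZQ D v q) (Zb := TP.ZbQ D v q) (i := j) hp hs ha
    have h3 : tb.Ps.ce (Zt tb v q) (fun u => ind (hotq h v tb j a s q u)) w =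
        (D.P h (q / 5)).ce (TP.ZQ D v q) (fun u => ind (hotQ (D.P h (q / 5)) (TP.ZQ D v q) (TP.ZbQ D v q)
          (TP.FQ v (q / 5)) a s j u (tup (TP.FQ v (q / 5)) u))) (tb.pt (q / 5) w) :=
      H0.ce (TP.ZQ D v q) (fun u => ind (hotQ (D.P h (q / 5)) (TP.ZQ D v q) (TP.ZbQ D v q)
          (TP.FQ v (q / 5)) a s j u (tup (TP.FQ v (q / 5)) u))) w
    have h4 : tb.Ps.ce (Zt tb v q) (fun u => ind (hotq h v tb j a s q u ∧ ¬ ck h v tb Option.none c 1 q u)) w ≤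
        tb.Ps.ce (Zt tb v q) (fun u => ind (hotq h v tb j a s q u)) w :=
      tb.Ps.ce_mono (fun _ _ => ind_mono fun hh => hh.1) w
    rw [h3] at h4
    linarith

/-- **base: any class seen by the thin letters** -/
theorem hot_base {κ' : Type*} {K : Om W X β → κ'} {c : KC} {j : Fin 3} {a s : ℝ} (hs : 0 < s)
    (ha : Real.log 2 + 2 * Real.log s ≤ a) (he : 0 ≤ c.e1) {q : ℕ} (hq : q / 5 ≤ T) (hK : Fac (Zt tb v q) K)
    {p : V3.AP} {r0 : ℝ} {w : Om W X β} (hw : tb.Ps.p w ≠ 0)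
    (hr : tb.Ps.ce K (fun u => ind (ck h v tb Option.none c 1 q u ∧ Alv h v tb p q u)) w ≤ r0) :
    tb.Ps.ce K (fun u => ind (hotq h v tb j a s q u ∧ Alv h v tb p q u)) w ≤ r0 + 4 * c.e1 := by
  have h1 : tb.Ps.ce K (fun u => ind (hotq h v tb j a s q u ∧ Alv h v tb p q u)) w ≤
      tb.Ps.ce K (fun u => ind (ck h v tb Option.none c 1 q u ∧ Alv h v tb p q u)) w +
        tb.Ps.ce K (fun u => ind (hotq h v tb j a s q u ∧ ¬ ck h v tb Option.none c 1 q u)) w := by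
    refine ce_or_cls fun u _ _ hh => ?_
    by_cases h2 : ck h v tb Option.none c 1 q u
    · exact Or.inl ⟨h2, hh.2⟩
    · exact Or.inr ⟨hh.1, h2⟩
  have h2 := ce_fine (P := tb.Ps) hK hw fun u hu => hot_Z (h := h) (tb := tb) (v := v) (c := c) (j := j) hs ha he hq hu
  linarith

theorem NPo_Zt (q : ℕ) : Fac (Zt tb v q) (NPo tb v q) := fun a b e =>
  (show TP.NPq D v q (tb.pt (q / 5) a) = TP.NPq D v q (tb.pt (q / 5) b) from
    TP.ZQ_NPq q (tb.pt (q / 5) a) (tb.pt (q / 5) b) e)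

theorem XN_Zt (q : ℕ) (i : Fin 3) : Fac (Zt tb v q) (fun u => (XLo tb v i q u, NPo tb v q u)) :=
  fun a b e => Prod.ext
    (show TP.XLq v q i (tb.pt (q / 5) a) = TP.XLq v q i (tb.pt (q / 5) b) from
      TP.ZQ_XLq (D := D) q i (tb.pt (q / 5) a) (tb.pt (q / 5) b) e) (NPo_Zt q a b e)

end run

/-! ### over `Ctx` -/

/-- thresholds with the given `e1` -/
def kce (e : ℝ) : KC := ⟨0, e, 0, 0, 0, 0⟩

theorem ix_four' {Lam : ℝ} (hL : 2 ≤ Lam) (s : ℕ) : 4 * ix Lam (s + 1) ≤ ix Lam s := RarN.ix4 hL s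

/-- **HOT PAIRS, EXACT VERTEX**, tables of the state -/
theorem hb_x {A : ℕ} (hA : 80 ≤ A) {sl K : ℕ} (hK : 3 * K ≤ sl) : AllC A (fun C => ∀ L, 0 ≤ L → L ≤ Lr C.Lam sl C.c0 →
    ∀ (j : Fin 3) (a s : ℝ), 0 < s → Real.log 2 + 2 * Real.log s ≤ a → ∀ q ≤ 5 * C.T, ∀ i, ∀ w, C.tb.Ps.p w ≠ 0 →
      gdc C.tb C.v L i q w →
      C.tb.Ps.ce (fun u => (XLo C.tb C.v i q u, NPo C.tb C.v q u)) (fun u => ind (C.HQ j a s q u ∧ C.AV q u)) w ≤
        2 * ix C.Lam (K + 1)) := by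
  refine (r0B_ctx hA (sq := sl) (e := K + 3) (K := K + 1) (by omega)).mono fun C h L hL0 hL1 j a s hs ha q hq i w hw hg => ?_
  have hL := C.hL
  have h1 := h L hL0 hL1 (kce (ix C.Lam (K + 3))) (by
    show ix C.Lam (K + 3) ≤ 2 * ix C.Lam (K + 3)
    have := CT.ix_nn hL (K + 3)
    linarith) q hq i w hw hg
  have h2 := hot_base (h := C.h) (tb := C.tb) (v := C.v) (c := kce (ix C.Lam (K + 3))) (j := j) hs ha (CT.ix_nn hL _)
    (show q / 5 ≤ C.T by omega) (XN_Zt q i) hw h1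
  have h3 := ix_four' hL (K + 1)
  have h4 := ix_four' hL (K + 2)
  have h5 := CT.ix_nn hL (K + 2)
  have e1 : (kce (ix C.Lam (K + 3))).e1 = ix C.Lam (K + 3) := rfl
  rw [e1] at h2
  have h6 : 4 * ix C.Lam (K + 3) ≤ ix C.Lam (K + 1) := by linarith
  refine h2.trans ?_
  linarith

/-- the numbers of the moves -/
def NM (C : Ctx) (ka K : ℕ) : Prop :=
  Real.exp (4 * C.Lam) * MVN.kb C.Lam ka C.c0 + MVN.d0 C.Lam C.c0 ≤ ix C.Lam K

theorem nm_all (A ka K : ℕ) : AllC A (fun C => NM C ka K) :=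
  (AllC.of_Ev (CLM.mov_num ka K)).mono fun C h => by
    have h1 : 0 ≤ Real.exp (4 * C.Lam) * MVN.d0 C.Lam C.c0 := mul_nonneg (Real.exp_pos _).le C.d0_pos.le
    unfold NM
    rw [mul_add] at h
    linarith

theorem lv_mono {a s : ℝ} (hs : 0 < s) (h : Real.log 2 + 2 * Real.log (2 * s) ≤ a - 1) :
    Real.log 2 + 2 * Real.log s ≤ a := by
  have h2 := Real.log_two_gt_d9
  rw [Real.log_mul (by norm_num) hs.ne'] at h
  linarith

/-- **THE RELATION OF THE LIFE OF `i`, EXACT VERTEX** -/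
theorem hx_all {A : ℕ} (hA : 80 ≤ A) (ka : ℕ) {sl K : ℕ} (hK : 3 * K ≤ sl) : AllC A (fun C => ∀ L, 0 ≤ L →
    L ≤ Lr C.Lam sl C.c0 → ∀ (i : Fin 3) (a s : ℝ), 0 < s → Real.log 2 + 2 * Real.log (2 * s) ≤ a - 1 → ∀ q ≤ 5 * C.T,
      ∀ w, C.tb.Ps.p w ≠ 0 → (¬ ltL C.v C.tb q w → gdc C.tb C.v L i q w) →
      C.tb.Ps.ce (MV.CN (C.M ka) i q) (fun u => ind (C.HA i a s (MV.tauS (C.M ka) i q u) u ∧ C.AV q u)) w ≤
        3 * ix C.Lam (K + 1)) := by
  refine (((hb_x hA hK).and (nm_all A ka (K + 1))).and (hot_prv' ka A)).mono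
    fun C hh L hL0 hL1 i a s hs ha q hq w hw hg => ?_
  obtain ⟨⟨hb, hn⟩, hp⟩ := hh
  have hL := C.hL
  have i0 := CT.ix_nn hL (K + 1)
  have kb0 := mul_nonneg (Real.exp_pos (4 * C.Lam)).le (C.kb_pos ka).le
  have d00 := C.d0_pos
  unfold NM at hn
  by_cases hl : ltL C.v C.tb q w
  · have h5 : 5 * (q / 5) + 5 ≤ 5 * C.T := by
      have := hl.1
      omega
    have hle : q ≤ 5 * (q / 5) + 5 := by omega
    have s1 : C.tb.Ps.ce (MV.CN (C.M ka) i q) (fun u => ind (C.HA i a s (MV.tauS (C.M ka) i q u) u ∧ C.AV q u)) w ≤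
        C.tb.Ps.ce (MV.CN (C.M ka) i q) (fun u => ind (C.HQ i a s (5 * (q / 5) + 5) u ∧ C.AV (5 * (q / 5) + 5) u)) w := by
      refine ce_mono_cls fun u hu hc => ind_mono fun hh => ?_
      have hlu : ltL C.v C.tb q u := (ltL_fac C.tb (MV.CN_NP (C.M ka) i q u w hc)).2 hl
      obtain ⟨g1, g2⟩ := KDV.ltL_tauS C.tb (C.d1_pos ka) (C.d1_le ka) (C.kb_pos ka) C.d0_pos C.d0_le C.d0_pos C.p1_pos
        (C.z_pos ka) hlu i
      have e1 : eT C.v C.tb (MV.tauS (C.M ka) i q u) u = 5 * (q / 5) + 5 := eT_lt C.tb g1 g2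
      have g3 := hh.1
      obtain ⟨g4, g5⟩ := g3
      have g6 : hotq C.h C.v C.tb i a s (eT C.v C.tb (MV.tauS (C.M ka) i q u) u) u := g4
      rw [e1] at g5 g6
      exact ⟨g6, g5⟩
    have s2 : C.tb.Ps.ce (MV.CN (C.M ka) i q) (fun u => ind (C.HQ i a s (5 * (q / 5) + 5) u ∧ C.AV (5 * (q / 5) + 5) u)) w ≤
        2 * ix C.Lam (K + 1) :=
      ce_fine (MV.CN_le (C.M ka) i hle) hw fun u hu => hb L hL0 hL1 i a s hs (lv_mono hs ha) _ h5 i u hu
        (gdc_zero C.tb hL0 i (by omega) u)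
    linarith
  · have s1 : C.tb.Ps.ce (MV.CN (C.M ka) i q) (fun u => ind (C.HA i a s (MV.tauS (C.M ka) i q u) u ∧ C.AV q u)) w ≤
        C.tb.Ps.ce (MV.CN (C.M ka) i q) (fun u => ind (MV.Mv (C.M ka) i q u)) w +
          C.tb.Ps.ce (MV.CN (C.M ka) i q) (fun u => ind (C.HQ i (a - 1) (2 * s) q u ∧ C.AV q u)) w := by
      refine ce_or_cls fun u hu hc hh => ?_
      have hlu : ¬ ltL C.v C.tb q u := fun h6 => hl ((ltL_fac C.tb (MV.CN_NP (C.M ka) i q u w hc)).1 h6)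
      by_cases hm : MV.Mv (C.M ka) i q u
      · exact Or.inl hm
      · exact Or.inr ⟨hp q (by omega) u hu hlu i hm a s hs hh.1.1, hh.2⟩
    have hTk : MV.Thk (C.M ka) C.Lam := (MVI.thks C.h C.tb C.v (C.d1_pos ka) (C.d1_le ka) (C.kb_pos ka) C.d0_pos C.d0_le
      C.d0_pos C.p1_pos (C.z_pos ka) C.H).thk
    have s2 : C.tb.Ps.ce (MV.CN (C.M ka) i q) (fun u => ind (MV.Mv (C.M ka) i q u)) w ≤
        Real.exp (4 * C.Lam) * MVN.kb C.Lam ka C.c0 := MV.Mv_mass (C.M ka) hTk i q hw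
    have s3 : C.tb.Ps.ce (MV.CN (C.M ka) i q) (fun u => ind (C.HQ i (a - 1) (2 * s) q u ∧ C.AV q u)) w ≤
        2 * ix C.Lam (K + 1) := hb L hL0 hL1 i (a - 1) (2 * s) (by linarith) ha q hq i w hw (hg hl)
    linarith

/-- **THE RELATION OF THE LIFE OF `i`, AT THE NODE**, life of the public start -/
theorem hn_all {A : ℕ} (hA : 80 ≤ A) (ka : ℕ) {sl K : ℕ} (hK : 3 * K ≤ sl) : AllC A (fun C => ∀ (i : Fin 3) (a s : ℝ),
    0 < s → Real.log 2 + 2 * Real.log (2 * s) ≤ a - 1 → ∀ q ≤ 5 * C.T, ∀ w, C.tb.Ps.p w ≠ 0 →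
      okq C.tb C.v (lr C.Lam sl C.c0) q w →
      C.tb.Ps.ce (NPo C.tb C.v q) (fun u => ind (C.HA i a s (MV.tauS (C.M ka) i (MV.nu (C.M ka) q u) u) u ∧ C.AV q u)) w ≤
        5 * ix C.Lam (K + 1)) := by
  refine (((hx_all hA ka hK).and (nm_all A ka (K + 1))).and (AllC.of_Ev (lw_num A sl (K + 1)))).mono
    fun C hh i a s hs ha q hq w hw hok => ?_
  obtain ⟨⟨hx, hn⟩, hlw⟩ := hh
  have hL := C.hL
  have i0 := CT.ix_nn hL (K + 1)
  have kb0 := mul_nonneg (Real.exp_pos (4 * C.Lam)).le (C.kb_pos ka).le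
  unfold NM at hn
  have s1 : C.tb.Ps.ce (NPo C.tb C.v q) (fun u => ind (C.HA i a s (MV.tauS (C.M ka) i (MV.nu (C.M ka) q u) u) u ∧ C.AV q u)) w ≤
      C.tb.Ps.ce (NPo C.tb C.v q) (fun u => ind (MV.Lst (C.M ka) (MV.nu (C.M ka) q u) q u)) w +
        C.tb.Ps.ce (NPo C.tb C.v q) (fun u => ind (C.HA i a s (MV.tauS (C.M ka) i q u) u ∧ C.AV q u)) w := by
    refine ce_or_cls fun u hu hc hh => ?_
    by_cases hLs : MV.Lst (C.M ka) (MV.nu (C.M ka) q u) q u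
    · exact Or.inl hLs
    · right
      have g1 : MV.tauS (C.M ka) i q u ≤ MV.nu (C.M ka) q u := KDT.tauS_lst hLs
      have g2 : MV.tauS (C.M ka) i (MV.nu (C.M ka) q u) u = MV.tauS (C.M ka) i q u := CK.stg_mid rfl g1 (MV.nu_le q u)
      rw [g2] at hh
      exact hh
  have s2 : C.tb.Ps.ce (NPo C.tb C.v q) (fun u => ind (MV.Lst (C.M ka) (MV.nu (C.M ka) q u) q u)) w ≤ MVN.d0 C.Lam C.c0 :=
    (MV.Lst_mass' (C.M ka) q hw).le
  have s3 : C.tb.Ps.ce (NPo C.tb C.v q) (fun u => ind (C.HA i a s (MV.tauS (C.M ka) i q u) u ∧ C.AV q u)) w ≤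
      3 * ix C.Lam (K + 1) + ix C.Lam (K + 1) := by
    refine (ce_fine2 (P := C.tb.Ps) (MV.CN_NP (C.M ka) i q)
      (B := fun u => ¬ ltL C.v C.tb q u ∧ ¬ gdc C.tb C.v (Lr C.Lam sl C.c0) i q u) (by linarith) hw fun u hu hc hB =>
        hx _ (Lr_nn hL sl C.c0) le_rfl i a s hs ha q hq u hu fun hl => by_contra fun h9 => hB ⟨hl, h9⟩).trans
      (add_le_add le_rfl ((bad_ok C.tb i hw hok).trans hlw))
  linarith

/-- **THE PUBLIC RELATION, AT THE NODE** -/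
theorem h0_all {A : ℕ} (hA : 80 ≤ A) (ka : ℕ) {sl K : ℕ} (hK : 3 * K ≤ sl) : AllC A (fun C => ∀ (i : Fin 3) (a s : ℝ),
    0 < s → Real.log 2 + 2 * Real.log (2 * s) ≤ a - 1 → ∀ q ≤ 5 * C.T, ∀ w, C.tb.Ps.p w ≠ 0 →
      okq C.tb C.v (lr C.Lam sl C.c0) q w →
      C.tb.Ps.ce (NPo C.tb C.v q) (fun u => ind (C.HA i a s (MV.nu (C.M ka) q u) u ∧ C.AV q u)) w ≤
        5 * ix C.Lam (K + 1)) := by
  refine ((((hb_x hA hK).and (nm_all A ka (K + 1))).and (AllC.of_Ev (lw_num A sl (K + 1)))).and (hot_nu' ka A)).mono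
    fun C hh i a s hs ha q hq w hw hok => ?_
  obtain ⟨⟨⟨hb, hn⟩, hlw⟩, hp⟩ := hh
  have hL := C.hL
  have i0 := CT.ix_nn hL (K + 1)
  have kb0 := mul_nonneg (Real.exp_pos (4 * C.Lam)).le (C.kb_pos ka).le
  unfold NM at hn
  by_cases hl : ltL C.v C.tb q w
  · have h5 : 5 * (q / 5) + 5 ≤ 5 * C.T := by
      have := hl.1
      omega
    have hle : q ≤ 5 * (q / 5) + 5 := by omega
    have s1 : C.tb.Ps.ce (NPo C.tb C.v q) (fun u => ind (C.HA i a s (MV.nu (C.M ka) q u) u ∧ C.AV q u)) w ≤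
        C.tb.Ps.ce (NPo C.tb C.v q) (fun u => ind (C.HQ i a s (5 * (q / 5) + 5) u ∧ C.AV (5 * (q / 5) + 5) u)) w := by
      refine ce_mono_cls fun u hu hc => ind_mono fun hh => ?_
      have hlu : ltL C.v C.tb q u := (ltL_fac C.tb hc).2 hl
      obtain ⟨g1, g2⟩ := KDV.ltL_nu C.tb (C.d1_pos ka) (C.d1_le ka) (C.kb_pos ka) C.d0_pos C.d0_le C.d0_pos C.p1_pos
        (C.z_pos ka) hlu
      have e1 : eT C.v C.tb (MV.nu (C.M ka) q u) u = 5 * (q / 5) + 5 := eT_lt C.tb g1 g2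
      have g3 := hh.1
      obtain ⟨g4, g5⟩ := g3
      have g6 : hotq C.h C.v C.tb i a s (eT C.v C.tb (MV.nu (C.M ka) q u) u) u := g4
      rw [e1] at g5 g6
      exact ⟨g6, g5⟩
    have s2 : C.tb.Ps.ce (NPo C.tb C.v q) (fun u => ind (C.HQ i a s (5 * (q / 5) + 5) u ∧ C.AV (5 * (q / 5) + 5) u)) w ≤
        2 * ix C.Lam (K + 1) :=
      ce_fine ((MV.CN_NP (C.M ka) 0 _).trans (MV.NP_le (C.M ka) hle)) hw fun u hu =>
        hb _ (Lr_nn hL sl C.c0) le_rfl i a s hs (lv_mono hs ha) _ h5 0 u hu (gdc_zero C.tb (Lr_nn hL sl C.c0) 0 (by omega) u)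
    linarith
  · have s1 : C.tb.Ps.ce (NPo C.tb C.v q) (fun u => ind (C.HA i a s (MV.nu (C.M ka) q u) u ∧ C.AV q u)) w ≤
        C.tb.Ps.ce (NPo C.tb C.v q) (fun u => ind (MV.Lst (C.M ka) (MV.nu (C.M ka) q u) q u)) w +
          C.tb.Ps.ce (NPo C.tb C.v q) (fun u => ind (C.HQ i (a - 1) (2 * s) q u ∧ C.AV q u)) w := by
      refine ce_or_cls fun u hu hc hh => ?_
      have hlu : ¬ ltL C.v C.tb q u := fun h6 => hl ((ltL_fac C.tb hc).1 h6)
      by_cases hLs : MV.Lst (C.M ka) (MV.nu (C.M ka) q u) q u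
      · exact Or.inl hLs
      · exact Or.inr ⟨hp q (by omega) u hu hlu i hLs a s hs hh.1.1, hh.2⟩
    have s2 : C.tb.Ps.ce (NPo C.tb C.v q) (fun u => ind (MV.Lst (C.M ka) (MV.nu (C.M ka) q u) q u)) w ≤ MVN.d0 C.Lam C.c0 :=
      (MV.Lst_mass' (C.M ka) q hw).le
    have s3 : C.tb.Ps.ce (NPo C.tb C.v q) (fun u => ind (C.HQ i (a - 1) (2 * s) q u ∧ C.AV q u)) w ≤
        2 * ix C.Lam (K + 1) + ix C.Lam (K + 1) := by
      refine (ce_fine2 (P := C.tb.Ps) (MV.CN_NP (C.M ka) 0 q)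
        (B := fun u => ¬ ltL C.v C.tb q u ∧ ¬ gdc C.tb C.v (Lr C.Lam sl C.c0) 0 q u) (by linarith) hw fun u hu hc hB =>
          hb _ (Lr_nn hL sl C.c0) le_rfl i (a - 1) (2 * s) (by linarith) ha q hq 0 u hu ?_).trans
        (add_le_add le_rfl ((bad_ok C.tb 0 hw hok).trans hlw))
      by_contra h9
      exact hB ⟨fun hlu => hl ((ltL_fac C.tb hc).1 hlu), h9⟩
    linarith

end

end Pool.Agent.GMH.HotNd
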