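import Pool.Agent.GMH.HotNd

/-!
# GMH/HotNf (helper98): THE NODE FIELDS FOR ANY RELATION WITH CLASS MASSES, AND FOR THE HOT KINDS

The node of helper88 (`RarN.node_sum`, `RarN.node_new`) for a relation family `B` (seen at its state, alive):
* `NdB C ka lam o' eta B A` : alive at `q` the relation `A q` is inside `B (eT (tauO o' q))`, class masses at most `eta`;
* `af0B`, `stB`, `finB` (over `Ctx`); `NdG C ka sq sl Q` : for the relations `Rn Q o (nu q)`, every `o`;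
* **`afzG`**, **`dnG`**, **`sfG`**, **`rdzG`**, **`fzG`**, **`neG`** : all node sums at most `x^(-s)`, for every `Q` with `NdG`;
* `ndG_hot` : `NdG` for every `Q` inside the hot pairs (`Q.kv o ⊆ hotO i a s o`, `Q.al ⊆ Alv`), levels
  `log 2 + 2 log (2 s) ≤ a - 1`; **`ne_hot`** etc.
-/

set_option autoImplicit false
set_option linter.unusedSectionVars false

namespace Pool.Agent.GMH.HotNd

open Finset Pool.Agent.PWZ Pool.Agent.M3 Pool.Agent.GM Pool.Agent.GM.Harm Pool.Agent.GMH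
open Pool.Agent.GMH.Dy Pool.Agent.GMH.MVI Pool.Agent.GMH.MVIp Pool.Agent.GMH.KF
open Pool.Agent.GMH.UV (US Kd tv Stps StpC Dn De0 af0 sf rd0 M0 Z0)
open Pool.Agent.GMH.TRF (ruO)
open Pool.Agent.GMH.ExK
open Pool.Agent.GMH.CX Pool.Agent.GMH.V3 Pool.Agent.GMH.CT
open Pool.Agent.GMH.RarN

noncomputable section

section node

variable (C : Ctx) (ka : ℕ)

/-- the node data of a relation -/
structure NdB (lam : ℝ) (o' : Option (Fin 3)) (eta : ℝ) (B A : ℕ → C.O → Prop) : Prop where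
  sn : ∀ e ≤ 5 * C.T, Sn C.tb C.v e (B e)
  al : ∀ e w, B e w → Alv C.h C.v C.tb C.p e w
  sub : ∀ q ≤ 5 * C.T, ∀ w, C.tb.Ps.p w ≠ 0 → A q w → Alv C.h C.v C.tb C.p q w → At' C.tb C.v (tauO (C.U ka) o' q) B w
  hm : ∀ q ≤ 5 * C.T, ∀ w, C.tb.Ps.p w ≠ 0 → okq C.tb C.v lam q w →
    C.tb.Ps.ce (NPo C.tb C.v q) (fun u => ind (At' C.tb C.v (tauO (C.U ka) o' q) B u ∧ Alv C.h C.v C.tb C.p q u)) w ≤ eta
  nu : ∀ q ≤ 5 * C.T, ∀ w, C.tb.Ps.p w ≠ 0 → A q w → Alv C.h C.v C.tb C.p (MV.nu (C.M ka) q w) w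

variable {lam L1 eta y : ℝ} {o' : Option (Fin 3)} {B A Cc : ℕ → C.O → Prop}

/-- sight after the step -/
theorem nB_end (hlam : 2 ≤ lam) (hL1 : 0 ≤ L1) (hy0 : 0 < y) (N : NdB C ka lam o' eta B A)
    (hC : ∀ q < 5 * C.T, Fac (NPo C.tb C.v (q + 1)) (Cc q))
    (hCl : ∀ q < 5 * C.T, q % 5 = 1 → ∀ w, C.tb.Ps.p w ≠ 0 → Cc q w → hz C.tb C.v (q / 5) w) (hy : HyN C lam L1 eta y) :
    ∑ q ∈ range (5 * C.T), C.tb.Ps.Pr (fun w => Cc q w ∧ y < C.tb.Ps.ce (sgt C.D ∅ (TP.nn (q + 1))) (fun u => ind (A q u)) w) ≤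
      Real.exp (-L1) * ∑ q ∈ range (5 * C.T), C.tb.Ps.Pr (Cc q) + 160 * Real.exp (-lam) * (C.n * C.N1 * C.Lam) +
        2 / y * ∑ q ∈ range (5 * C.T), C.tb.Ps.Pr (fun w => Cc q w ∧ A q w ∧ ¬ Alv C.h C.v C.tb C.p q w) := by
  have k1 := node_sum (h := C.h) (tb := C.tb) C.codes (C.d1_pos ka) (C.d1_le ka) (C.kb_pos ka) C.d0_pos C.d0_le C.d0_pos
    C.p1_pos (C.z_pos ka) C.n1 C.N11 C.R C.H (pX0 C) hlam hL1 o' (B := B) N.sn N.al
    (A := fun q => At' C.tb C.v (tauO (C.U ka) o' q) B) (C := Cc)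
    (fun q _ w _ => Iff.rfl) hC hCl (fun q hq w hw _ ho => N.hm q hq.le w hw ho) hy
  have k2 : ∀ q ∈ range (5 * C.T), C.tb.Ps.Pr (fun w => Cc q w ∧
      y < C.tb.Ps.ce (sgt C.D ∅ (TP.nn (q + 1))) (fun u => ind (A q u)) w) ≤
      C.tb.Ps.Pr (fun w => Cc q w ∧ y / 2 ≤ C.tb.Ps.ce (sgt C.D ∅ (TP.nn (q + 1))) (fun u => ind (At' C.tb C.v
        (tauO (C.U ka) o' q) B u ∧ Alv C.h C.v C.tb C.p q u)) w) +
        2 / y * C.tb.Ps.Pr (fun w => Cc q w ∧ A q w ∧ ¬ Alv C.h C.v C.tb C.p q w) := fun q hq => by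
    have hq' := mem_range.1 hq
    have k3 := RarS.split_le (P := C.tb.Ps) (X := sgt C.D ∅ (TP.nn (q + 1))) (E := Cc q)
      (fun a b e => iff_of_eq (hC q hq' a b (sgt_NPo C.codes (q + 1) a b e))) (A q) (Alv C.h C.v C.tb C.p q) hy0
    refine k3.trans (add_le_add (C.tb.Ps.Pr_mono fun w _ hh => ⟨hh.1, hh.2.le.trans ?_⟩) le_rfl)
    exact C.tb.Ps.ce_mono (fun u hu => ind_mono fun g => ⟨N.sub q hq'.le u hu g.1 g.2, g.2⟩) w
  refine (Finset.sum_le_sum k2).trans ?_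
  rw [Finset.sum_add_distrib, ← Finset.mul_sum]
  linarith

/-- sight at the state of the tables -/
theorem nB_st (hlam : 2 ≤ lam) (hL1 : 0 ≤ L1) (hy0 : 0 < y) (N : NdB C ka lam o' eta B A)
    (hC : ∀ q ≤ 5 * C.T, Fac (NPo C.tb C.v q) (Cc q)) (hy : HyN C lam L1 eta y) :
    ∑ q ∈ range (5 * C.T + 1), C.tb.Ps.Pr (fun w => Cc q w ∧ y < C.tb.Ps.ce (sgt C.D ∅ (TP.nn q)) (fun u => ind (A q u)) w) ≤
      Real.exp (-L1) * ∑ q ∈ range (5 * C.T + 1), C.tb.Ps.Pr (Cc q) + 160 * Real.exp (-lam) * (C.n * C.N1 * C.Lam) +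
        2 / y * ∑ q ∈ range (5 * C.T + 1), C.tb.Ps.Pr (fun w => Cc q w ∧ A q w ∧ ¬ Alv C.h C.v C.tb C.p q w) := by
  have k1 := node_new (h := C.h) (tb := C.tb) C.codes (C.d1_pos ka) (C.d1_le ka) (C.kb_pos ka) C.d0_pos C.d0_le C.d0_pos
    C.p1_pos (C.z_pos ka) C.n1 C.N11 C.R C.H (pX0 C) hlam hL1 o' (B := B) N.sn N.al
    (A := fun q => At' C.tb C.v (tauO (C.U ka) o' q) B) (C := Cc)
    (fun q _ w _ => Iff.rfl) hC (fun q hq w hw _ ho => N.hm q hq w hw ho) hy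
  have k2 : ∀ q ∈ range (5 * C.T + 1), C.tb.Ps.Pr (fun w => Cc q w ∧
      y < C.tb.Ps.ce (sgt C.D ∅ (TP.nn q)) (fun u => ind (A q u)) w) ≤
      C.tb.Ps.Pr (fun w => Cc q w ∧ y / 2 ≤ C.tb.Ps.ce (sgt C.D ∅ (TP.nn q)) (fun u => ind (At' C.tb C.v
        (tauO (C.U ka) o' q) B u ∧ Alv C.h C.v C.tb C.p q u)) w) +
        2 / y * C.tb.Ps.Pr (fun w => Cc q w ∧ A q w ∧ ¬ Alv C.h C.v C.tb C.p q w) := fun q hq => by
    have hq' : q ≤ 5 * C.T := Nat.lt_succ_iff.1 (mem_range.1 hq)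
    have k3 := RarS.split_le (P := C.tb.Ps) (X := sgt C.D ∅ (TP.nn q)) (E := Cc q)
      (fun a b e => iff_of_eq (hC q hq' a b (sgt_NPo C.codes q a b e))) (A q) (Alv C.h C.v C.tb C.p q) hy0
    refine k3.trans (add_le_add (C.tb.Ps.Pr_mono fun w _ hh => ⟨hh.1, hh.2.le.trans ?_⟩) le_rfl)
    exact C.tb.Ps.ce_mono (fun u hu => ind_mono fun g => ⟨N.sub q hq' u hu g.1 g.2, g.2⟩) w
  refine (Finset.sum_le_sum k2).trans ?_
  rw [Finset.sum_add_distrib, ← Finset.mul_sum]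
  linarith

/-- **NEW PUBLIC STARTS WHICH ARE NOT REMOVALS** -/
theorem af0B (hlam : 2 ≤ lam) (hL1 : 0 ≤ L1) (hy0 : 0 < y) (N : NdB C ka lam o' eta B A) (hy : HyN C lam L1 eta y) :
    ∑ q ∈ range (5 * C.T), C.tb.Ps.Pr (fun w => (MV.nu (C.M ka) (q + 1) w = q + 1 ∧ ¬ ruO C.tb C.v q w) ∧
        y < C.tb.Ps.ce (sgt C.D ∅ (TP.nn (q + 1))) (fun u => ind (A q u)) w) ≤
      Real.exp (-L1) * MV.N0 (C.M ka) (5 * C.T) + 160 * Real.exp (-lam) * (C.n * C.N1 * C.Lam) +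
        2 / y * (pw C.Lam (C.c0 + C.A))⁻¹ := by
  have k1 := nB_end C ka hlam hL1 hy0 N (Cc := fun q w => MV.nu (C.M ka) (q + 1) w = q + 1 ∧ ¬ ruO C.tb C.v q w)
    (fun q _ => afE_fac C.tb (C.d1_pos ka) (C.d1_le ka) (C.kb_pos ka) C.d0_pos C.d0_le C.d0_pos C.p1_pos (C.z_pos ka) q)
    (fun q _ h1 w _ hc => nru_hz C.tb h1 hc.2) hy
  have k2 : ∑ q ∈ range (5 * C.T), C.tb.Ps.Pr (fun w => MV.nu (C.M ka) (q + 1) w = q + 1 ∧ ¬ ruO C.tb C.v q w) ≤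
      MV.N0 (C.M ka) (5 * C.T) := Finset.sum_le_sum fun q _ => C.tb.Ps.Pr_mono fun w _ hh => hh.1
  have k3 : ∑ q ∈ range (5 * C.T), C.tb.Ps.Pr (fun w => (MV.nu (C.M ka) (q + 1) w = q + 1 ∧ ¬ ruO C.tb C.v q w) ∧ A q w ∧
      ¬ Alv C.h C.v C.tb C.p q w) ≤ (pw C.Lam (C.c0 + C.A))⁻¹ := by
    have h1 := RelD.dead_once (P := C.tb.Ps) (C := MV.C0 (C.M ka)) (Al := fun q => Alv C.h C.v C.tb C.p q)
      (fun w _ q hh => Alv_anti C.h C.v C.tb (Nat.le_succ q) hh) (e := fun q w => MV.nu (C.M ka) q w)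
      (fun w _ q => le_rfl) (5 * C.T)
    refine le_trans (Finset.sum_le_sum fun q hq => C.tb.Ps.Pr_mono fun w hw hh => ?_) (h1.trans C.dead_le)
    exact ⟨hh.1.1, N.nu q (mem_range.1 hq).le w hw hh.2.1, hh.2.2⟩
  have k4 := mul_le_mul_of_nonneg_left k2 (Real.exp_pos (-L1)).le
  have k5 := mul_le_mul_of_nonneg_left k3 (show 0 ≤ 2 / y by positivity)
  linarith

/-- **PUBLIC STARTS** -/
theorem stB (hlam : 2 ≤ lam) (hL1 : 0 ≤ L1) (hy0 : 0 < y) (N : NdB C ka lam o' eta B A) (hy : HyN C lam L1 eta y) :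
    ∑ q ∈ range (5 * C.T + 1), C.tb.Ps.Pr (fun w => MV.nu (C.M ka) q w = q ∧
        y < C.tb.Ps.ce (sgt C.D ∅ (TP.nn q)) (fun u => ind (A q u)) w) ≤
      Real.exp (-L1) * (2 + MV.N0 (C.M ka) (5 * C.T)) + 160 * Real.exp (-lam) * (C.n * C.N1 * C.Lam) := by
  have k1 := nB_st C ka hlam hL1 hy0 N (Cc := fun q w => MV.nu (C.M ka) q w = q)
    (fun q _ => fun a b e => by
      have h1 : MV.nu (C.M ka) q a = MV.nu (C.M ka) q b := MV.nu_fac (M := C.M ka) q a b e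
      show (_ = _) = (_ = _)
      rw [h1]) hy
  have k2 : ∑ q ∈ range (5 * C.T + 1), C.tb.Ps.Pr (fun w => MV.nu (C.M ka) q w = q) ≤ 2 + MV.N0 (C.M ka) (5 * C.T) := by
    rw [Finset.sum_range_succ]
    have h1 := MV.starts_le (C.M ka) (5 * C.T)
    have h2 := C.tb.Ps.Pr_le_one (fun w => MV.nu (C.M ka) (5 * C.T) w = 5 * C.T)
    have h3 : ∑ s ∈ range (5 * C.T), C.tb.Ps.Pr (fun w => MV.nu (C.M ka) s w = s) ≤ 1 + MV.N0 (C.M ka) (5 * C.T) := h1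
    linarith
  have k3 : ∑ q ∈ range (5 * C.T + 1), C.tb.Ps.Pr (fun w => MV.nu (C.M ka) q w = q ∧ A q w ∧
      ¬ Alv C.h C.v C.tb C.p q w) = 0 := by
    refine Finset.sum_eq_zero fun q hq => ?_
    unfold FP.Pr
    rw [C.tb.Ps.E_congr (g := fun _ => 0) fun w hw => ind_not fun hh => by
      have h1 := N.nu q (Nat.lt_succ_iff.1 (mem_range.1 hq)) w hw hh.2.1
      rw [hh.1] at h1
      exact hh.2.2 h1, C.tb.Ps.E_const]
  have k4 := mul_le_mul_of_nonneg_left k2 (Real.exp_pos (-L1)).le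
  rw [k3, mul_zero, add_zero] at k1
  linarith

/-- **ONE TIME** -/
theorem finB (hlam : 2 ≤ lam) (hL1 : 0 ≤ L1) (hy0 : 0 < y) (N : NdB C ka lam o' eta B A) (hy : HyN C lam L1 eta y)
    {m : ℕ} (hmT : m ≤ 5 * C.T) :
    C.tb.Ps.Pr (fun w => y < C.tb.Ps.ce (sgt C.D ∅ (TP.nn m)) (fun u => ind (A m u)) w) ≤
      Real.exp (-L1) + 160 * Real.exp (-lam) * (C.n * C.N1 * C.Lam) + 2 / y * (pw C.Lam (C.c0 + C.A))⁻¹ := by
  classical
  have k1 := nB_st C ka hlam hL1 hy0 N (Cc := fun q _ => q = m) (fun q _ => fun a b e => rfl) hy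
  have k2 : ∀ (F : ℕ → C.O → Prop), ∑ q ∈ range (5 * C.T + 1), C.tb.Ps.Pr (fun w => q = m ∧ F q w) =
      C.tb.Ps.Pr (F m) := by
    intro F
    rw [Finset.sum_eq_single m]
    · exact C.tb.Ps.Pr_congr fun w _ => ⟨fun hh => hh.2, fun hh => ⟨rfl, hh⟩⟩
    · intro q _ hq
      unfold FP.Pr
      rw [C.tb.Ps.E_congr (g := fun _ => 0) fun w _ => ind_not fun hh => hq hh.1, C.tb.Ps.E_const]
    · intro hq
      exact absurd (mem_range.2 (Nat.lt_succ_of_le hmT)) hq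
  rw [k2 (fun q w => y < C.tb.Ps.ce (sgt C.D ∅ (TP.nn q)) (fun u => ind (A q u)) w),
    k2 (fun q w => A q w ∧ ¬ Alv C.h C.v C.tb C.p q w)] at k1
  have k3 : ∑ q ∈ range (5 * C.T + 1), C.tb.Ps.Pr (fun _ => q = m) ≤ 1 := by
    have h1 := k2 (fun _ _ => True)
    have h2 : ∑ q ∈ range (5 * C.T + 1), C.tb.Ps.Pr (fun _ => q = m) =
        ∑ q ∈ range (5 * C.T + 1), C.tb.Ps.Pr (fun _ => q = m ∧ True) :=
      Finset.sum_congr rfl fun q _ => C.tb.Ps.Pr_congr fun w _ => ⟨fun hh => ⟨hh, trivial⟩, fun hh => hh.1⟩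
    rw [h2, h1]
    exact C.tb.Ps.Pr_le_one _
  have k4 : C.tb.Ps.Pr (fun w => A m w ∧ ¬ Alv C.h C.v C.tb C.p m w) ≤ (pw C.Lam (C.c0 + C.A))⁻¹ :=
    (C.tb.Ps.Pr_mono fun w _ hh h5 => hh.2 (Alv_anti C.h C.v C.tb hmT h5)).trans C.dead_le
  have k5 := mul_le_mul_of_nonneg_left k3 (Real.exp_pos (-L1)).le
  have k6 := mul_le_mul_of_nonneg_left k4 (show 0 ≤ 2 / y by positivity)
  linarith

/-- the node data of the relations of `Q` -/
structure NdG (sq sl : ℕ) (Q : Kd C.O) : Prop where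
  nd : ∀ o : Option (Fin 3), ∃ B : ℕ → C.O → Prop, NdB C ka (lr C.Lam sl C.c0) o (4 ^ 8 * ix C.Lam (2 * sq)) B
    (fun q w => UV.Rn (C.U ka) Q o (MV.nu (C.M ka) q w) w)

end node

/-- the kinds of helper88 -/
theorem ndG_nod {C : Ctx} {ka sq sl : ℕ} {Q : Kd C.O} {fr : Option (Fin 3)} {c : KC} {κ : Fin 10} (h : Nod C ka sq sl Q fr c κ) :
    NdG C ka sq sl Q where
  nd := fun o => ⟨Bv C.h C.v C.tb C.p fr c κ o, {
    sn := fun e he => (Sn_cv C.n1 C.N11 C.R C.H fr c κ o (by omega)).and (Sn_Alv C.p (by omega))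
    al := fun e w hb => hb.2
    sub := fun q hq w hw hA hAl => (h.sub.sr C ka o).1 q hq w hw hA hAl
    hm := fun q hq w hw ho => h.hm o q hq w hw ho
    nu := fun q hq w hw hA => (h.sub.sr C ka o).2 q hq w hw hA }⟩

section fields

variable {A : ℕ} (hA : 80 ≤ A) (ka sq sl s : ℕ) (hs : 20 ≤ sq)

include hA hs

/-- **AFZ** -/
theorem afzG : AllC A (fun C => ∀ Q : Kd C.O, NdG C ka sq sl Q →
    ∀ St : Stps (Om := C.O), (∀ q w, St.ru q w ↔ ruO C.tb C.v q w) → ∀ y, ix C.Lam sq ≤ y → ∀ o,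
    ∑ q ∈ range (5 * C.T), (C.U ka).P.Pr (fun w => af0 (C.U ka) Q St q w ∧ y < De0 (C.U ka) Q o q w) ≤ ix C.Lam s) := by
  refine (numN_all hA ka sq sl (s + 1) hs).mono fun C hh Q hQ St hru y hy o => ?_
  have hL := C.hL
  obtain ⟨B, N⟩ := hQ.nd o
  have h1 := af0B C ka (lam := lr C.Lam sl C.c0) (L1 := pw C.Lam (16 * C.c0)) (y := ix C.Lam sq) hh.l2
    (CT.pw_pos hL _).le (ix_pos hL _) N hh.hy
  have h2 := ix4 hL s
  have h3 := hh.hN
  rw [mul_add] at h3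
  have h4 := mul_pos (Real.exp_pos (-(pw C.Lam (16 * C.c0)))) (show (0 : ℝ) < 2 by norm_num)
  have h5 := ix_pos hL (s + 1)
  refine le_trans (Finset.sum_le_sum fun q _ => (C.U ka).P.Pr_mono fun w _ g => ?_) (h1.trans (by linarith [hh.he, hh.hd]))
  exact ⟨⟨g.1.1, fun hr => g.1.2.2 ((hru q w).2 hr)⟩, lt_of_le_of_lt hy g.2⟩

/-- all public starts -/
theorem dnG : AllC A (fun C => ∀ Q : Kd C.O, NdG C ka sq sl Q → ∀ y, ix C.Lam sq ≤ y → ∀ o,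
    ∑ q ∈ range (5 * C.T + 1), (C.U ka).P.Pr (fun w => MV.nu (C.U ka).toMS q w = q ∧ y < Dn (C.U ka) Q o q w) ≤
      ix C.Lam s) := by
  refine (numN_all hA ka sq sl (s + 1) hs).mono fun C hh Q hQ y hy o => ?_
  have hL := C.hL
  obtain ⟨B, N⟩ := hQ.nd o
  have h1 := stB C ka (lam := lr C.Lam sl C.c0) (L1 := pw C.Lam (16 * C.c0)) (y := ix C.Lam sq) hh.l2
    (CT.pw_pos hL _).le (ix_pos hL _) N hh.hy
  have h2 := ix4 hL s
  have h5 := ix_pos hL (s + 1)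
  refine le_trans (Finset.sum_le_sum fun q _ => (C.U ka).P.Pr_mono fun w _ g => ?_) (h1.trans (by linarith [hh.he, hh.hN]))
  exact ⟨g.1, lt_of_le_of_lt hy g.2⟩

/-- **SF** -/
theorem sfG : AllC A (fun C => ∀ Q : Kd C.O, NdG C ka sq sl Q → ∀ St : Stps (Om := C.O), ∀ y, ix C.Lam sq ≤ y → ∀ o,
    ∑ n ∈ range (5 * C.T), (C.U ka).P.Pr (fun w => sf (C.U ka) St n w ∧ y < Dn (C.U ka) Q o n w) ≤ ix C.Lam s) := by
  refine (dnG hA ka sq sl s hs).mono fun C h Q hQ St y hy o => ?_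
  refine le_trans ?_ (h Q hQ y hy o)
  rw [Finset.sum_range_succ]
  have h2 := (C.U ka).P.Pr_nonneg (fun w => MV.nu (C.U ka).toMS (5 * C.T) w = 5 * C.T ∧ y < Dn (C.U ka) Q o (5 * C.T) w)
  have h3 : ∑ n ∈ range (5 * C.T), (C.U ka).P.Pr (fun w => sf (C.U ka) St n w ∧ y < Dn (C.U ka) Q o n w) ≤
      ∑ q ∈ range (5 * C.T), (C.U ka).P.Pr (fun w => MV.nu (C.U ka).toMS q w = q ∧ y < Dn (C.U ka) Q o q w) :=
    Finset.sum_le_sum fun q _ => (C.U ka).P.Pr_mono fun w _ hh => ⟨hh.1.1, hh.2⟩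
  linarith

/-- **RDZ**, any relations `Q'` of the new starts -/
theorem rdzG : AllC A (fun C => ∀ Q Q' : Kd C.O, NdG C ka sq sl Q' →
    ∀ St : Stps (Om := C.O), StpC (C.U ka) St → ∀ y, ix C.Lam sq ≤ y → ∀ o,
    ∑ q ∈ range (5 * C.T), (C.U ka).P.Pr (fun w => rd0 (C.U ka) Q St q w ∧ y < Dn (C.U ka) Q' o (q + 1) w) ≤
      ix C.Lam s) := by
  refine (dnG hA ka sq sl s hs).mono fun C h Q Q' hQ St hC y hy o => ?_
  refine le_trans ?_ (h Q' hQ y hy o)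
  rw [Finset.sum_range_succ']
  have h2 := (C.U ka).P.Pr_nonneg (fun w => MV.nu (C.U ka).toMS 0 w = 0 ∧ y < Dn (C.U ka) Q' o 0 w)
  have h3 : ∑ q ∈ range (5 * C.T), (C.U ka).P.Pr (fun w => rd0 (C.U ka) Q St q w ∧ y < Dn (C.U ka) Q' o (q + 1) w) ≤
      ∑ q ∈ range (5 * C.T), (C.U ka).P.Pr (fun w => MV.nu (C.U ka).toMS (q + 1) w = q + 1 ∧
        y < Dn (C.U ka) Q' o (q + 1) w) :=
    Finset.sum_le_sum fun q _ => (C.U ka).P.Pr_mono fun w hw hh => ⟨hC.end0 w hw q hh.1.1, hh.2⟩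
  linarith

/-- **FZ AT EVERY TIME** -/
theorem fzG : AllC A (fun C => ∀ Q : Kd C.O, NdG C ka sq sl Q → ∀ y, ix C.Lam sq ≤ y → ∀ o, ∀ m ≤ 5 * C.T,
    (C.U ka).P.Pr (fun w => Z0 (C.U ka) Q m w ∧ y < Dn (C.U ka) Q o m w) ≤ ix C.Lam s) := by
  refine (numN_all hA ka sq sl (s + 1) hs).mono fun C hh Q hQ y hy o m hm => ?_
  have hL := C.hL
  obtain ⟨B, N⟩ := hQ.nd o
  have h1 := finB C ka (lam := lr C.Lam sl C.c0) (L1 := pw C.Lam (16 * C.c0)) (y := ix C.Lam sq) hh.l2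
    (CT.pw_pos hL _).le (ix_pos hL _) N hh.hy hm
  have h2 := ix4 hL s
  have h3 := hh.hN
  have h5 := ix_pos hL (s + 1)
  have h6 : 0 ≤ MV.N0 (C.M ka) (5 * C.T) := Finset.sum_nonneg fun _ _ => C.tb.Ps.Pr_nonneg _
  have h7 : Real.exp (-(pw C.Lam (16 * C.c0))) ≤ Real.exp (-(pw C.Lam (16 * C.c0))) * (2 + MV.N0 (C.M ka) (5 * C.T)) :=
    le_mul_of_one_le_right (Real.exp_pos _).le (by linarith)
  refine ((C.U ka).P.Pr_mono fun w _ g => lt_of_le_of_lt hy g.2).trans (h1.trans ?_)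
  linarith [hh.he, hh.hd]

/-- **NE** : a zone which begins at its public start -/
theorem neG : AllC A (fun C => ∀ Q : Kd C.O, NdG C ka sq sl Q → ∀ y, 4 * ix C.Lam sq < y →
    ∑ q ∈ range (5 * C.T + 1), (C.U ka).P.Pr (fun w => MV.nu (C.U ka).toMS q w = q ∧ y ≤ M0 (C.U ka) Q q w) ≤
      ix C.Lam s) := by
  classical
  refine (dnG hA ka sq sl (s + 1) hs).mono fun C h Q hQ y hy => ?_
  have hL := C.hL
  have k1 : ∀ q w, M0 (C.U ka) Q q w = ∑ o : Option (Fin 3), Dn (C.U ka) Q o q w := fun q w =>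
    UV.M0_eq (M := C.U ka)
      (seen_i C.tb C.codes (C.d1_pos ka) (C.d1_le ka) (C.kb_pos ka) C.d0_pos C.d0_le C.d0_pos C.p1_pos (C.z_pos ka)) q w
  have k2 : ∀ q ∈ range (5 * C.T + 1), (C.U ka).P.Pr (fun w => MV.nu (C.U ka).toMS q w = q ∧ y ≤ M0 (C.U ka) Q q w) ≤
      ∑ o : Option (Fin 3), (C.U ka).P.Pr (fun w => MV.nu (C.U ka).toMS q w = q ∧ ix C.Lam sq < Dn (C.U ka) Q o q w) := by
    intro q _
    unfold FP.Pr
    rw [← FP.E_sum]
    refine (C.U ka).P.E_mono fun w _ => ?_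
    have n1 : ∀ o ∈ (univ : Finset (Option (Fin 3))), 0 ≤ ind (MV.nu (C.U ka).toMS q w = q ∧ ix C.Lam sq < Dn (C.U ka) Q o q w) :=
      fun _ _ => ind_nonneg _
    by_cases h1 : MV.nu (C.U ka).toMS q w = q ∧ y ≤ M0 (C.U ka) Q q w
    · rw [ind_of h1]
      have h2 : ∃ o, ix C.Lam sq < Dn (C.U ka) Q o q w := by
        by_contra hcon
        push Not at hcon
        have h3 : M0 (C.U ka) Q q w ≤ 4 * ix C.Lam sq := by
          rw [k1]
          refine (Finset.sum_le_card_nsmul _ _ (ix C.Lam sq) fun o _ => hcon o).trans (le_of_eq ?_)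
          rw [Finset.card_univ, nsmul_eq_mul, Fintype.card_option, Fintype.card_fin]
          norm_num
        linarith [h1.2]
      obtain ⟨o, ho⟩ := h2
      have h4 := Finset.single_le_sum n1 (mem_univ o)
      rw [ind_of ⟨h1.1, ho⟩] at h4
      exact h4
    · rw [ind_not h1]
      exact Finset.sum_nonneg n1
  refine (Finset.sum_le_sum k2).trans ?_
  rw [Finset.sum_comm]
  have h5 := ix_four' hL s
  refine (Finset.sum_le_card_nsmul _ _ (ix C.Lam (s + 1)) fun o _ => h Q hQ _ le_rfl o).trans ?_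
  rw [Finset.card_univ, nsmul_eq_mul, Fintype.card_option, Fintype.card_fin]
  norm_num
  linarith

end fields

/-! ### the hot pairs -/

theorem Sn_hotq (C : Ctx) (j : Fin 3) (a s : ℝ) {q : ℕ} (hT : q ≤ 5 * C.T + 4) : Sn C.tb C.v q (C.HQ j a s q) := by
  intro u w hu hw he hh
  have h1 : tup (TP.FQ C.v (q / 5)) (C.tb.pt (q / 5) u) = tup (TP.FQ C.v (q / 5)) (C.tb.pt (q / 5) w) :=
    funext fun i => Es_F C.n1 C.N11 C.R C.H hT hu hw he i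
  have h2 : hotQ (C.D.P C.h (q / 5)) (TP.ZQ C.D C.v q) (TP.ZbQ C.D C.v q) (TP.FQ C.v (q / 5)) a s j (C.tb.pt (q / 5) u)
      (tup (TP.FQ C.v (q / 5)) (C.tb.pt (q / 5) u)) := hh
  show hotQ (C.D.P C.h (q / 5)) (TP.ZQ C.D C.v q) (TP.ZbQ C.D C.v q) (TP.FQ C.v (q / 5)) a s j (C.tb.pt (q / 5) w)
      (tup (TP.FQ C.v (q / 5)) (C.tb.pt (q / 5) w))
  rw [← h1]
  exact (iff_of_eq (hotQ_fac (C.D.P C.h (q / 5)) (TP.FQ C.v (q / 5)) (fun i => TP.ZQ_Zb q i) a s j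
    (tup (TP.FQ C.v (q / 5)) (C.tb.pt (q / 5) u)) _ _ (Es_Z he))).1 h2

/-- the relations of `Q` are inside the hot pairs of the vertex `i` -/
structure KSubH (C : Ctx) (Q : Kd C.O) (i : Fin 3) (a s : ℝ) : Prop where
  sub : ∀ o τ w, Q.kv o τ w → (∀ j, o = some j → j = i) ∧ C.HA i a s τ w
  al : ∀ n w, Q.al n w → Alv C.h C.v C.tb C.p n w

/-- **`NdG` FOR THE HOT KINDS** -/
theorem ndG_hot {A : ℕ} (hA : 80 ≤ A) (ka : ℕ) {sq sl : ℕ} (hK : 6 * sq ≤ sl) : AllC A (fun C => ∀ (i : Fin 3) (a s : ℝ),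
    0 < s → Real.log 2 + 2 * Real.log (2 * s) ≤ a - 1 → ∀ Q : Kd C.O, KSubH C Q i a s → NdG C ka sq sl Q) := by
  refine ((hn_all hA ka (sl := sl) (K := 2 * sq) (by omega)).and (h0_all hA ka (sl := sl) (K := 2 * sq) (by omega))).mono
    fun C hh i a s hs ha Q hQ => ⟨fun o => ?_⟩
  obtain ⟨h1, h2⟩ := hh
  have hL := C.hL
  have e4 : 5 * ix C.Lam (2 * sq + 1) ≤ 4 ^ 8 * ix C.Lam (2 * sq) := by
    have b1 := ix_four' hL (2 * sq)
    have b2 := CT.ix_nn hL (2 * sq)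
    norm_num
    linarith
  have hal : ∀ q w, UV.Rn (C.U ka) Q o (MV.nu (C.M ka) q w) w → Alv C.h C.v C.tb C.p (MV.nu (C.M ka) q w) w := by
    intro q w hR
    cases o with
    | none => exact Alv_anti C.h C.v C.tb (tau_leT C _ w) (hQ.sub _ _ _ hR).2.2
    | some j => exact hQ.al _ _ hR.2
  by_cases ho : ∀ j, o = some j → j = i
  · refine ⟨fun e w => C.HQ i a s e w ∧ Alv C.h C.v C.tb C.p e w, {
      sn := fun e he => (Sn_hotq C i a s (by omega)).and (Sn_Alv C.p (by omega))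
      al := fun e w hb => hb.2
      sub := fun q hq w hw hR hAl => ?_
      hm := fun q hq w hw hok => ?_
      nu := fun q hq w hw hR => hal q w hR }⟩
    · cases o with
      | none => exact (hQ.sub _ _ _ hR).2
      | some j => exact (hQ.sub _ _ _ hR.1).2
    · cases o with
      | none => exact (h2 i a s hs ha q hq w hw hok).trans e4
      | some j =>
        have hj := ho j rfl
        subst hj
        exact (h1 j a s hs ha q hq w hw hok).trans e4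
  · refine ⟨fun _ _ => False, {
      sn := fun e he u w _ _ _ hh => hh
      al := fun e w hb => hb.elim
      sub := fun q hq w hw hR hAl => ?_
      hm := fun q hq w hw hok => ?_
      nu := fun q hq w hw hR => hal q w hR }⟩
    · exfalso
      cases o with
      | none => exact ho fun j e => by cases e
      | some j => exact ho (hQ.sub _ _ _ hR.1).1
    · have h3 : C.tb.Ps.ce (NPo C.tb C.v q) (fun u => ind (At' C.tb C.v (tauO (C.U ka) o q) (fun _ _ => False) u ∧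
          Alv C.h C.v C.tb C.p q u)) w = 0 := by
        rw [C.tb.Ps.ce_congr (g := fun _ => 0) (fun u _ => ind_not fun hh => hh.1), C.tb.Ps.ce_const _ _ hw]
      rw [h3]
      have := CT.ix_nn hL (2 * sq)
      positivity

end

end Pool.Agent.GMH.HotNd
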