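import Pool.Agent.GMH.HotNR

/-!
# GMH.HotRow: hot rows at typical data of a top (K5 of note 4068, helper11 / helper79; helper9)

`X` = top `F_d` (it sees `b`, `c`), `Y` = top `F_b` (it sees `c`, `d`).  `Lro` = mean, given what `F_d` sees and its own
label, of the relative entropy of the row of `F_b` given `X` and all thin letters against its own law.
* `hot_kl_ce`, `hot_Lro` : the mass of the hot pairs given (data, label of `F_d`) is at most `Lro / (log D - 1)`;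
* `row_cls` : in EVERY class of (public information, exact point and letter of the vertex `b`) the data of `F_d` with
  `Lro >= y` have mass `pi` with `N_2 y pi <= 2 N_0 (lsb + 1) + 2 N_1 pi (log (1/pi) + 1 + log (1/al))`;
* `row_num` : for `y >= (4/n)(log N_1 + 1 + log (1/al))` : `pi <= (lsb + 1)/N_1`.
Run form (`TP.HotRow`): `LrQ t q b d` = the same at the state `q`, law and tops of the time `t`; `hot_LrQ` (any state `q`),
`row_50` (state `5t`), `row_55` (state `5t + 5`): in every class of `b` with `ssQ <= Lo` the mass of any event `act` of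
(`F_d`, `ZbQ q d`) on which `LrQ >= y` is at most `(Lo + 1)/N_1`, as soon as `y >= (4/n)(log N_1 + 1 + log (1/al))`.
-/

set_option autoImplicit false
set_option linter.unusedSectionVars false
set_option linter.unusedVariables false

namespace Pool.Agent.GMH

open Finset Pool.Agent.PWZ Pool.Agent.M3 Pool.Agent.GM Pool.Agent.GM.Harm

section abs

variable {Om : Type*} [Fintype Om] {P : FP Om} {κ κ' τ ρ ζ : Type*}

/-- **hot letters of a row against its relative entropy** -/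
theorem hot_kl {Y : Om → ρ} {W : Om → κ} {Z : Om → ζ} (hWZ : Fac W Z) {w : Om} (hw : P.p w ≠ 0) {Dd : ℝ} (hD : 1 ≤ Dd) :
    (Real.log Dd - 1) * P.ce W (fun v => ind (Dd * P.pv Z Y v (Y v) ≤ P.pv W Y v (Y v))) w ≤ klp P P Y W Z w := by
  classical
  have D0 : 0 < Dd := lt_of_lt_of_le zero_lt_one hD
  set R : Om → ρ → Prop := fun v f => Dd * P.pv Z Y v f ≤ P.pv W Y v f with hR
  have hRf : ∀ f, Fac W (fun v => ind (R v f)) := by
    intro f v u hvu
    have h1 : P.pv Z Y v f = P.pv Z Y u f := P.pv_fac Z Y f v u (hWZ v u hvu)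
    have h2 : P.pv W Y v f = P.pv W Y u f := P.pv_fac W Y f v u hvu
    show ind (Dd * P.pv Z Y v f ≤ P.pv W Y v f) = ind (Dd * P.pv Z Y u f ≤ P.pv W Y u f)
    rw [h1, h2]
  have e1 : P.ce W (fun v => ind (Dd * P.pv Z Y v (Y v) ≤ P.pv W Y v (Y v))) w =
      ∑ f ∈ vals Y, P.pv W Y w f * ind (R w f) := (P.sum_pv (W := W) Y (F := fun v f => ind (R v f)) hRf w).symm
  have k := klp_dv (P := P) (Q := P) (fun _ h => h) (Y := Y) hWZ hw (fun f => Real.log Dd * ind (R w f))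
  have e2 : ∑ f ∈ vals Y, P.pv W Y w f * (Real.log Dd * ind (R w f)) =
      Real.log Dd * ∑ f ∈ vals Y, P.pv W Y w f * ind (R w f) := by
    rw [Finset.mul_sum]
    exact Finset.sum_congr rfl fun f _ => by ring
  have e3 : ∑ f ∈ vals Y, P.pv Z Y w f * Real.exp (Real.log Dd * ind (R w f)) =
      1 + (Dd - 1) * ∑ f ∈ vals Y, P.pv Z Y w f * ind (R w f) := by
    have h0 : ∀ f ∈ vals Y, P.pv Z Y w f * Real.exp (Real.log Dd * ind (R w f)) =
        P.pv Z Y w f + (Dd - 1) * (P.pv Z Y w f * ind (R w f)) := by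
      intro f _
      by_cases hf : R w f
      · rw [ind_of hf, mul_one, mul_one, Real.exp_log D0]; ring
      · rw [ind_not hf, mul_zero, Real.exp_zero]; ring
    rw [Finset.sum_congr rfl h0, Finset.sum_add_distrib, P.pv_sum Z Y hw, Finset.mul_sum]
  have h4 : (Dd - 1) * ∑ f ∈ vals Y, P.pv Z Y w f * ind (R w f) ≤ ∑ f ∈ vals Y, P.pv W Y w f * ind (R w f) := by
    rw [Finset.mul_sum]
    refine Finset.sum_le_sum fun f _ => ?_
    by_cases hf : R w f
    · rw [ind_of hf, mul_one, mul_one]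
      have h5 : Dd * P.pv Z Y w f ≤ P.pv W Y w f := hf
      have h6 := P.pv_nonneg Z Y w f
      linarith
    · rw [ind_not hf, mul_zero, mul_zero, mul_zero]
  have h5 : 0 ≤ (Dd - 1) * ∑ f ∈ vals Y, P.pv Z Y w f * ind (R w f) :=
    mul_nonneg (by linarith) (Finset.sum_nonneg fun f _ => mul_nonneg (P.pv_nonneg _ _ _ _) (ind_nonneg _))
  have h6 := Real.log_le_sub_one_of_pos (show 0 < 1 + (Dd - 1) * ∑ f ∈ vals Y, P.pv Z Y w f * ind (R w f) by linarith)
  rw [e2, e3] at k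
  rw [e1]
  linarith

/-- the same after a mean over the rows -/
theorem hot_kl_ce {Y : Om → ρ} {W : Om → κ} {V : Om → κ'} {Z : Om → ζ} (hWZ : Fac W Z) (hWV : Fac W V) (w : Om)
    {Dd : ℝ} (hD : 1 ≤ Dd) :
    (Real.log Dd - 1) * P.ce V (fun v => ind (Dd * P.pv Z Y v (Y v) ≤ P.pv W Y v (Y v))) w ≤
      P.ce V (fun v => Real.log (P.pv W Y v (Y v) / P.pv Z Y v (Y v))) w := by
  rw [← P.ce_tower hWV (fun v => ind (Dd * P.pv Z Y v (Y v) ≤ P.pv W Y v (Y v))),
    ← P.ce_tower hWV (fun v => Real.log (P.pv W Y v (Y v) / P.pv Z Y v (Y v))), ← P.ce_smul]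
  refine P.ce_mono (fun v hv => ?_) w
  rw [← ce_log_klp hWZ v]
  exact hot_kl hWZ hv hD

/-- the relative entropy of the row, seen from `V`, is nonnegative -/
theorem ce_log_nonneg {Y : Om → ρ} {W : Om → κ} {V : Om → κ'} {Z : Om → ζ} (hWZ : Fac W Z) (hWV : Fac W V) (w : Om) :
    0 ≤ P.ce V (fun v => Real.log (P.pv W Y v (Y v) / P.pv Z Y v (Y v))) w := by
  rw [← P.ce_tower hWV (fun v => Real.log (P.pv W Y v (Y v) / P.pv Z Y v (Y v)))]
  refine P.ce_nonneg (fun v hv => ?_) w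
  rw [← ce_log_klp hWZ v]
  exact klp_nonneg (X := Y) (fun _ h => h) hWZ hv

end abs

section row

variable {K X β γ φ υ : Type} [Fintype K] [DecidableEq K] [Fintype X] [Fintype β] [Fintype φ] [Nonempty X] [Nonempty β]
  {D : HD K X β γ φ} {al : ℝ} {h : D.Thick al} {N : Finset K → ℝ} {S : Finset (Finset K)}
  {U : Finset K → X → (K → β) → υ} {t : ℕ} {b c d : K} {w0 : Pt K X β φ}

/-- **relative entropy of the row of `F_b`, seen from the data and the label of `F_d`** -/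
noncomputable def Lro {τ ρ : Type} (h : D.Thick al) (U : Finset K → X → (K → β) → υ) (t : ℕ) (b d : K)
    (Xl : Pt K X β φ → τ) (Yl : Pt K X β φ → ρ) (w : Pt K X β φ) : ℝ :=
  (D.P h t).ce (fun v => (Xl v, Zf D U t d v)) (fun v => Real.log
    ((D.P h t).pv (fun v => (Xl v, Wf D U t v)) Yl v (Yl v) / (D.P h t).pv (Zf D U t b) Yl v (Yl v))) w

theorem Lro_fac {τ ρ : Type} {Xl : Pt K X β φ → τ} {Yl : Pt K X β φ → ρ} :
    Fac (fun v => (Xl v, Zf D U t d v)) (Lro h U t b d Xl Yl) := (D.P h t).ce_fac _ _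

theorem Lro_nonneg (B : Bk h N S U t b c d) {τ ρ : Type} {Xl : Pt K X β φ → τ} {Yl : Pt K X β φ → ρ} (w : Pt K X β φ) :
    0 ≤ Lro h U t b d Xl Yl w :=
  ce_log_nonneg (W := fun v => (Xl v, Wf D U t v)) (Z := Zf D U t b) ((Fac.snd _ _).trans (Wf_Zf B))
    ((Fac.fst _ _).prod ((Fac.snd _ _).trans (Wf_Zf B.rot'))) w

/-- **hot pairs given the data and the label of `F_d`** -/
theorem hot_Lro (B : Bk h N S U t b c d) {τ ρ : Type} {Xl : Pt K X β φ → τ} {Yl : Pt K X β φ → ρ} (w : Pt K X β φ)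
    {Dd : ℝ} (hD : 1 ≤ Dd) :
    (Real.log Dd - 1) * (D.P h t).ce (fun v => (Xl v, Zf D U t d v)) (fun v => ind
      (Dd * (D.P h t).pv (Zf D U t b) Yl v (Yl v) ≤ (D.P h t).pv (fun v => (Xl v, Wf D U t v)) Yl v (Yl v))) w ≤
      Lro h U t b d Xl Yl w :=
  hot_kl_ce (W := fun v => (Xl v, Wf D U t v)) (Z := Zf D U t b) ((Fac.snd _ _).trans (Wf_Zf B))
    ((Fac.fst _ _).prod ((Fac.snd _ _).trans (Wf_Zf B.rot'))) w hD

theorem Zf_cbm (B : Bk h N S U t b c d) : Fac (Zf D U t d) (cbm D U t b) := by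
  intro v w hvw
  have h1 := Zf_pub B.rot' hvw
  have h2 := ((Zf_iff B.rot' h1.1 h1.2).1 hvw).1
  unfold zf at h2
  unfold cbm
  rw [h1.1, h1.2, h2]

/-- **THE ROW SEEN FROM THE DATA OF `F_d`, in every class of the vertex `b`** -/
theorem row_cls (B : Bk h N S U t b c d) (hw0 : (D.P h t).p w0 ≠ 0) {τ ρ : Type} {Xl : Pt K X β φ → τ}
    (hXl : ∀ v w, (D.P h t).p v ≠ 0 → (D.P h t).p w ≠ 0 → v.2.2 d = w.2.2 d → Zf D U t d v = Zf D U t d w → Xl v = Xl w)
    {Yl : Pt K X β φ → ρ} (hYl : ∀ v w, (D.P h t).p v ≠ 0 → (D.P h t).p w ≠ 0 → v.2.2 b = w.2.2 b →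
      Zf D U t b v = Zf D U t b w → Yl v = Yl w) {act : Pt K X β φ → Prop} (hact : Fac (fun v => (Xl v, Zf D U t d v)) act)
    {y : ℝ} (hy : ∀ w, (D.P h t).p w ≠ 0 → act w → y ≤ Lro h U t b d Xl Yl w) :
    N (univ.erase b) * (y * pib h U t b act w0) ≤
      2 * N ∅ * (lsb h U t b w0 + 1) + 2 * (N {c} * (pib h U t b act w0 *
        (Real.log (1 / pib h U t b act w0) + 1 + Real.log (1 / al)))) := by
  have ed : (univ.erase d : Finset K) = {b, c} := B.rot'.era2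
  have hZ : ∀ v w : Pt K X β φ, v.1 = w.1 → BB D t {b, c} v = BB D t {b, c} w → Zf D U t d v = Zf D U t d w := by
    intro v w h1 h2
    refine Zf_fac B.rot' v w (Prod.ext h1 ?_)
    show BB D t (univ.erase d) v = BB D t (univ.erase d) w
    rw [ed]; exact h2
  have k := ns_log (w0 := w0) B hw0 (Xl := Xl) (fun v w hv hw h1 h2 => hXl v w hv hw h1 (Wf_Zf B.rot' v w h2))
    (Yl := Yl) hYl (act := act) (fun v w hv hw h1 h2 h3 => by
      have h4 := hZ v w h1 h2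
      rw [hact v w (Prod.ext (hXl v w hv hw h3 h4) h4)])
    (fun v w hv hw h1 h2 => by
      rw [hact v w (Prod.ext h1 (Wf_Zf B.rot' v w h2))])
  refine le_trans ?_ k
  refine mul_le_mul_of_nonneg_left ?_ (B.n2 b).le
  -- the mean in the class is the mean of `Lro`
  set P := D.P h t with hP
  set L : Pt K X β φ → ℝ := fun w => Real.log (P.pv (fun v => (Xl v, Wf D U t v)) Yl w (Yl w) /
    P.pv (Zf D U t b) Yl w (Yl w)) with hL
  have hfa : Fac (fun v => (Xl v, Zf D U t d v)) (fun w => ind (act w)) := hact.comp fun q => ind q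
  have hfc : Fac (fun v => (Xl v, Zf D U t d v)) (cbm D U t b) := (Fac.snd _ _).trans (Zf_cbm B)
  have e1 : (P.cond (clsb U (pub0 D t U w0) b w0)).E (fun w => ind (act w) * L w) =
      P.ce (cbm D U t b) (fun w => ind (act w) * L w) w0 := by
    rw [P.ce_eq_cond _ _ hw0, cbm_cls]
  have e2 : P.ce (cbm D U t b) (fun w => ind (act w) * L w) w0 =
      P.ce (cbm D U t b) (fun w => ind (act w) * Lro h U t b d Xl Yl w) w0 := by
    rw [← P.ce_tower hfc (fun w => ind (act w) * L w)]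
    refine P.ce_congr (fun v _ => ?_) w0
    rw [P.ce_mul hfa]
    rfl
  rw [e1, e2]
  unfold pib
  rw [← P.ce_smul]
  refine P.ce_mono (fun v hv => ?_) w0
  by_cases ha : act v
  · rw [ind_of ha, mul_one, one_mul]
    exact hy v hv ha
  · rw [ind_not ha, mul_zero, zero_mul]

/-- solving for the mass -/
theorem row_solve {N0 N1 N2 y p G la : ℝ} (hN2 : 0 < N2) (hN1 : 0 ≤ N1) (hy : 0 < y) (hp : 0 ≤ p) (hla : 0 ≤ la)
    {M : ℝ} (hM : 1 ≤ M) (hyM : 4 * N1 * (Real.log M + 1 + la) ≤ N2 * y)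
    (k : N2 * (y * p) ≤ G + 2 * (N1 * (p * (Real.log (1 / p) + 1 + la)))) : p ≤ max (1 / M) (2 * G / (N2 * y)) := by
  rcases le_total p (1 / M) with h1 | h1
  · exact h1.trans (le_max_left _ _)
  · refine le_trans ?_ (le_max_right _ _)
    have M0 : 0 < M := by linarith
    have p0 : 0 < p := lt_of_lt_of_le (one_div_pos.2 M0) h1
    have h2 : Real.log (1 / p) ≤ Real.log M := by
      refine Real.log_le_log (one_div_pos.2 p0) ?_
      rw [div_le_iff₀ p0]
      have := mul_le_mul_of_nonneg_left h1 M0.le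
      rw [mul_one_div_cancel M0.ne'] at this
      linarith
    have h3 : 2 * (N1 * (p * (Real.log (1 / p) + 1 + la))) ≤ N2 * y * p / 2 := by
      have h4 : p * (Real.log (1 / p) + 1 + la) ≤ p * (Real.log M + 1 + la) :=
        mul_le_mul_of_nonneg_left (by linarith) p0.le
      have h5 := mul_le_mul_of_nonneg_left h4 hN1
      have h6 := mul_le_mul_of_nonneg_right hyM p0.le
      nlinarith
    rw [le_div_iff₀ (mul_pos hN2 hy)]
    nlinarith

/-- **IN NUMBERS** : `N_0 = 1`, `N_1`, `N_2 = n N_1` -/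
theorem row_num (B : Bk h N S U t b c d) (hw0 : (D.P h t).p w0 ≠ 0) {τ ρ : Type} {Xl : Pt K X β φ → τ}
    (hXl : ∀ v w, (D.P h t).p v ≠ 0 → (D.P h t).p w ≠ 0 → v.2.2 d = w.2.2 d → Zf D U t d v = Zf D U t d w → Xl v = Xl w)
    {Yl : Pt K X β φ → ρ} (hYl : ∀ v w, (D.P h t).p v ≠ 0 → (D.P h t).p w ≠ 0 → v.2.2 b = w.2.2 b →
      Zf D U t b v = Zf D U t b w → Yl v = Yl w) {act : Pt K X β φ → Prop} (hact : Fac (fun v => (Xl v, Zf D U t d v)) act)
    {y : ℝ} (hy : ∀ w, (D.P h t).p w ≠ 0 → act w → y ≤ Lro h U t b d Xl Yl w)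
    {n N1 : ℝ} (hn : 0 < n) (hN1 : 1 ≤ N1) (e0 : N ∅ = 1) (e1 : N {c} = N1) (e2 : N (univ.erase b) = n * N1)
    (hyn : 4 / n * (Real.log N1 + 1 + Real.log (1 / al)) ≤ y) {Lo : ℝ} (hLo : lsb h U t b w0 ≤ Lo) (hLo0 : 0 ≤ Lo) :
    pib h U t b act w0 ≤ (Lo + 1) / N1 := by
  have k := row_cls B hw0 hXl hYl hact hy
  rw [e0, e1, e2] at k
  have hal1 : 1 ≤ 1 / al := by
    rw [le_div_iff₀ h.pos, one_mul]
    exact hal_one h b
  have hla : 0 ≤ Real.log (1 / al) := Real.log_nonneg hal1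
  have hl1 : 0 ≤ Real.log N1 := Real.log_nonneg hN1
  have N0 : 0 < N1 := by linarith
  have y0 : 0 < y := lt_of_lt_of_le (mul_pos (by positivity) (by linarith)) hyn
  have h1 : 4 * (Real.log N1 + 1 + Real.log (1 / al)) ≤ n * y := by
    have h2 := mul_le_mul_of_nonneg_left hyn hn.le
    have h3 : n * (4 / n * (Real.log N1 + 1 + Real.log (1 / al))) = 4 * (Real.log N1 + 1 + Real.log (1 / al)) := by
      field_simp
    linarith
  have h4 := row_solve (N0 := 1) (G := 2 * 1 * (lsb h U t b w0 + 1)) (mul_pos hn N0) N0.le y0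
    (pib_nonneg (h := h) (U := U) (t := t) (b := b) (act := act) w0) hla hN1
    (by have := mul_le_mul_of_nonneg_left h1 N0.le; nlinarith) k
  refine h4.trans (max_le ?_ ?_)
  · exact div_le_div_of_nonneg_right (by linarith) N0.le
  · rw [div_le_div_iff₀ (mul_pos (mul_pos hn N0) y0) N0]
    have h5 : 4 ≤ n * y := by linarith
    have h6 : (0:ℝ) ≤ Lo + 1 := by linarith
    have h7 := mul_le_mul_of_nonneg_left h5 (mul_nonneg h6 N0.le)
    have h8 : 2 * (2 * 1 * (lsb h U t b w0 + 1)) * N1 ≤ 4 * (Lo + 1) * N1 :=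
      mul_le_mul_of_nonneg_right (by linarith) N0.le
    nlinarith

end row

end Pool.Agent.GMH

namespace Pool.Agent.GMH.TP

open Finset Pool.Agent.PWZ Pool.Agent.M3 Pool.Agent.GM Pool.Agent.GM.Harm Pool.Agent.GMH Pool.Agent.GMH.NZ
open Pool.Agent.GMH.V3

noncomputable section

namespace HotRow

variable {X β γ φ : Type} [Fintype X] [Fintype β] [Fintype φ] [Nonempty X] [Nonempty β]
variable {D : HD (Fin 3) X β γ φ} {al : ℝ} {h : D.Thick al} {v : ℕ → Finset (Fin 3) → X → (Fin 3 → β) → Pt (Fin 3) X β φ}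
variable {dg : ℕ → X → ℝ} {prr : ℕ → Fin 3 → φ → φ} {T : ℕ} {Lam : ℝ} {t : ℕ} {b c d : Fin 3}

/-! ### the saturated state `5t` -/

theorem nc_50 {J : Finset (Fin 3)} (hJ : pth J) : nc (5 * t) J = t + 1 := by
  have h1 := nc_add t 0 hJ (by omega)
  rw [add_zero] at h1
  rw [h1]
  unfold ncj
  rw [if_neg (Nat.not_lt_zero _)]

theorem ZbQ_50 (i : Fin 3) : ZbQ (φ := φ) D v (5 * t) i = Zf D (Um v (t + 1)) t i := by
  funext w
  unfold ZbQ Zf
  rw [nn_0]
  refine Prod.ext (funext fun I => ?_) rfl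
  show lo (SL v (5 * t)) (univ.erase i) w I = lo (LL (Um v (t + 1))) (univ.erase i) w I
  unfold lo
  by_cases hI : I ⊂ univ.erase i
  · rw [if_pos hI, if_pos hI]
    unfold SL
    rw [nc_50 (lt_pth card3 (ne_univ i) hI)]
  · rw [if_neg hI, if_neg hI]

theorem ZQ_50 {a e : Pt (Fin 3) X β φ} : ZQ D v (5 * t) a = ZQ D v (5 * t) e ↔
    (∀ J, pth J → LL (Um v (t + 1)) J a = LL (Um v (t + 1)) J e) ∧ a.2.1 = e.2.1 ∧ nd D t a = nd D t e := by
  unfold ZQ
  rw [Prod.mk.injEq, nn_0]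
  unfold WW
  rw [Prod.mk.injEq]
  refine and_congr_left fun _ => ⟨fun hh J hJ => ?_, fun hh => funext fun J => ?_⟩
  · have h1 : SL (φ := φ) v (5 * t) J a = SL v (5 * t) J e := congrFun hh ⟨J, hJ⟩
    unfold SL at h1
    rwa [nc_50 hJ] at h1
  · show SL (φ := φ) v (5 * t) J.1 a = SL v (5 * t) J.1 e
    unfold SL
    rw [nc_50 J.2]
    exact hh J.1 J.2

theorem Wf_ZQ0 (bc : b ≠ c) (bd : b ≠ d) (cd : c ≠ d) {a e : Pt (Fin 3) X β φ} :
    Wf D (Um v (t + 1)) t a = Wf D (Um v (t + 1)) t e ↔ ZQ D v (5 * t) a = ZQ D v (5 * t) e := by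
  rw [ZQ_50]
  unfold Wf
  rw [Prod.mk.injEq, Prod.mk.injEq (le (LL (Um v (t + 1))) ∅ a), le_eq, BB_eq]
  unfold nd
  rw [Prod.mk.injEq (D.qa t a.1)]
  constructor
  · rintro ⟨⟨h1, -, h2, h3⟩, h4⟩
    have hz : ∀ j, (a.2.1 j, Um v (t + 1) {j} a.1 a.2.1) = (e.2.1 j, Um v (t + 1) {j} e.1 e.2.1) := fun j => congrFun h4 j
    refine ⟨fun J hJ => ?_, funext fun j => congrArg Prod.fst (hz j), h2, funext h3⟩
    rw [TriB.LL_thin hJ]
    rcases TriB.pth_cases bc bd cd hJ with rfl | rfl | rfl | rfl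
    · exact (LL_eq.1 (h1 ∅ (Finset.Subset.refl _))).1
    · exact congrArg Prod.snd (hz b)
    · exact congrArg Prod.snd (hz c)
    · exact congrArg Prod.snd (hz d)
  · rintro ⟨h1, h2, h3, h4⟩
    refine ⟨⟨fun I hI => ?_, fun j hj => absurd hj (Finset.notMem_empty j), h3, fun j => congrFun h4 j⟩, funext fun j => ?_⟩
    · rw [Finset.subset_empty.1 hI]
      exact h1 ∅ (by unfold pth; simp)
    · exact Prod.ext (congrFun h2 j) ((TriB.LL_thin (by unfold pth; simp)).1 (h1 {j} (by unfold pth; simp)))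

/-- a top is determined by its label and what it sees -/
theorem FQ_det0 (H : D.Hyp dg prr al T Lam) {N : Finset (Fin 3) → ℝ} (R : Run h N (SS1 (Fin 3)) (AdmDep D) v)
    (hN : ∀ l : Fin 3, 0 < N (univ.erase l)) (ht : t ≤ T) (i : Fin 3) {a e : Pt (Fin 3) X β φ}
    (ha : (D.P h t).p a ≠ 0) (he : (D.P h t).p e ≠ 0) (hl : a.2.2 i = e.2.2 i)
    (hZ0 : ZbQ D v (5 * t) i a = ZbQ D v (5 * t) i e) : FQ v t i a = FQ v t i e := by
  unfold ZbQ at hZ0
  rw [Prod.mk.injEq, nn_0] at hZ0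
  have hU : ∀ I, I ⊂ univ.erase i → Um v (t + 1) I a.1 a.2.1 = Um v (t + 1) I e.1 e.2.1 := by
    intro I hI
    have hp : pth I := lt_pth card3 (ne_univ i) hI
    have h1 := lo_eq.1 hZ0.1 I hI
    unfold SL at h1
    rw [nc_50 hp] at h1
    exact (LL_eq.1 h1).1
  show LL (Um v (t + 1)) (univ.erase i) a = LL (Um v (t + 1)) (univ.erase i) e
  rw [LL_eq]
  refine ⟨?_, fun l hl' => ?_⟩
  · have hS : univ.erase i ∈ SS1 (Fin 3) := mem_SS1.2 (Finset.erase_ne_self.2 (mem_univ i))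
    have hu : (univ : Finset (Fin 3)) ∉ SS1 (Fin 3) := fun hh => mem_SS1.1 hh rfl
    exact R.top_det H hS hu (hN i) t ht a e ha he hZ0.2 (fun I hI => hU I hI) hl
  · have hli : l = i := by
      by_contra hne
      have h1 : i ∈ (univ.erase l : Finset (Fin 3)) := Finset.mem_erase.2 ⟨fun hh => hne hh.symm, mem_univ i⟩
      rw [hl'] at h1
      exact (Finset.mem_erase.1 h1).1 rfl
    rw [hli]
    exact hl

theorem NPq_50 {a e : Pt (Fin 3) X β φ} : NPq D v (5 * t) a = NPq D v (5 * t) e ↔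
    Um v (t + 1) ∅ a.1 a.2.1 = Um v (t + 1) ∅ e.1 e.2.1 ∧ nd D t a = nd D t e := by
  unfold NPq NP
  rw [nc_50 (by unfold pth; simp), nn_0, Prod.mk.injEq]

/-- the class of the vertex `b` -/
theorem cbm_50 {a e : Pt (Fin 3) X β φ} : cbm D (Um v (t + 1)) t b a = cbm D (Um v (t + 1)) t b e ↔
    (XLq v (5 * t) b a, NPq D v (5 * t) a) = (XLq v (5 * t) b e, NPq D v (5 * t) e) := by
  have hx : ∀ u : Pt (Fin 3) X β φ, XLq v (5 * t) b u = (u.2.1 b, Um v (t + 1) {b} u.1 u.2.1) := by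
    intro u
    unfold XLq XL
    rw [nc_50 (by unfold pth; simp)]
  constructor
  · intro hh
    have h1 : (le (LL (Um v (t + 1))) ∅ a, BB D t ∅ a) = (le (LL (Um v (t + 1))) ∅ e, BB D t ∅ e) := congrArg Prod.fst hh
    have h2 : (a.2.1 b, Um v (t + 1) {b} a.1 a.2.1) = (e.2.1 b, Um v (t + 1) {b} e.1 e.2.1) := congrArg Prod.snd hh
    obtain ⟨h3, h4⟩ := Prod.mk.inj h1
    rw [le_eq] at h3
    rw [BB_eq] at h4
    refine Prod.ext ?_ (NPq_50.2 ⟨(LL_eq.1 (h3 ∅ (Finset.Subset.refl _))).1, Prod.ext h4.2.1 (funext h4.2.2)⟩)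
    show XLq v (5 * t) b a = XLq v (5 * t) b e
    rw [hx, hx]
    exact h2
  · intro hh
    have h1 : XLq v (5 * t) b a = XLq v (5 * t) b e := congrArg Prod.fst hh
    obtain ⟨h2, h3⟩ := NPq_50.1 (congrArg Prod.snd hh : NPq D v (5 * t) a = NPq D v (5 * t) e)
    rw [hx, hx] at h1
    unfold nd at h3
    rw [Prod.mk.injEq] at h3
    refine Prod.ext (Prod.ext ?_ ?_) h1
    · show le (LL (Um v (t + 1))) ∅ a = le (LL (Um v (t + 1))) ∅ e
      rw [le_eq]
      intro I hI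
      rw [Finset.subset_empty.1 hI, TriB.LL_thin (by unfold pth; simp)]
      exact h2
    · show BB D t ∅ a = BB D t ∅ e
      rw [BB_eq]
      exact ⟨fun j hj => absurd hj (Finset.notMem_empty j), h3.1, fun j => congrFun h3.2 j⟩

/-- surprise of the letter -/
theorem lsb_50 {w : Pt (Fin 3) X β φ} (hw : (D.P h t).p w ≠ 0) : lsb h (Um v (t + 1)) t b w = ssQ h v (5 * t) b w := by
  rw [TriB.ssQ_at (5 * t) b w t]
  set P := D.P h t with hP
  set C := clsb (Um v (t + 1)) (pub0 D t (Um v (t + 1)) w) b w with hC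
  set x := xc D (Um v (t + 1)) t {b} w with hx
  have x0 : 0 < P.Pr x := FP.Pr_pos_of (S := x) hw (xc_self _ _ _ w)
  have c0 : 0 < P.Pr C := FP.Pr_pos_of (S := C) hw ⟨rfl, rfl, rfl⟩
  have xiff : ∀ a, x a ↔ (a.2.1 b = w.2.1 b ∧ NPq D v (5 * t) a = NPq D v (5 * t) w) := by
    intro a
    rw [NPq_50]
    show (le (LL (Um v (t + 1))) ∅ a = le (LL (Um v (t + 1))) ∅ w ∧ BB D t {b} a = BB D t {b} w) ↔ _
    rw [le_eq, BB_eq]
    unfold nd
    rw [Prod.mk.injEq]
    constructor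
    · rintro ⟨h1, h2, h3, h4⟩
      exact ⟨h2 b (Finset.mem_singleton_self b), (LL_eq.1 (h1 ∅ (Finset.Subset.refl _))).1, h3, funext h4⟩
    · rintro ⟨h1, h2, h3, h4⟩
      refine ⟨fun I hI => ?_, fun j hj => by rw [Finset.mem_singleton.1 hj]; exact h1, h3, fun j => congrFun h4 j⟩
      rw [Finset.subset_empty.1 hI, TriB.LL_thin (by unfold pth; simp)]
      exact h2
  have ciff : ∀ a, C a ↔ (XLq v (5 * t) b a = XLq v (5 * t) b w ∧ NPq D v (5 * t) a = NPq D v (5 * t) w) := by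
    intro a
    have h1 := congrFun (cbm_cls (D := D) (U := Um v (t + 1)) (t := t) (b := b) w) a
    rw [hC, ← h1]
    show cbm D (Um v (t + 1)) t b a = cbm D (Um v (t + 1)) t b w ↔ _
    rw [cbm_50, Prod.mk.injEq]
  have hpt : ∀ a e : Pt (Fin 3) X β φ, XLq v (5 * t) b a = XLq v (5 * t) b e → a.2.1 b = e.2.1 b :=
    fun a e hae => congrArg Prod.fst hae
  have e1 : P.m (fun u => (u.2.1 b, NPq D v (5 * t) u)) w = P.Pr x := by
    refine P.E_congr fun u _ => ?_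
    congr 1
    rw [Prod.mk.injEq]
    exact propext (xiff u).symm
  have e2 : P.m (fun u => (XLq v (5 * t) b u, (u.2.1 b, NPq D v (5 * t) u))) w = P.Pr C := by
    refine P.E_congr fun u _ => ?_
    congr 1
    refine propext ?_
    rw [Prod.mk.injEq, Prod.mk.injEq (u.2.1 b), ciff u]
    exact ⟨fun hh => ⟨hh.1, hh.2.2⟩, fun hh => ⟨hh.1, hpt _ _ hh.1, hh.2⟩⟩
  have e3 : (QB h (Um v (t + 1)) t b w).Pr C = P.Pr C / P.Pr x := by
    show ((D.P h t).cond x).E (fun u => ind (C u)) = _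
    rw [FP.cond_E x0.ne']
    congr 1
    refine P.E_congr fun u _ => ?_
    by_cases hu : C u
    · have h1 : x u := (xiff u).2 ⟨hpt _ _ ((ciff u).1 hu).1, ((ciff u).1 hu).2⟩
      rw [ind_of hu, ind_of h1, one_mul]
    · rw [ind_not hu, mul_zero]
  unfold lsb
  rw [e3, one_div_div, Real.log_div x0.ne' c0.ne']
  unfold sp
  rw [e1, e2]

/-! ### the row at a state -/

/-- **relative entropy of the row of `F_b` at the state `q`, seen from the data and the label of `F_d`** -/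
def LrQ (h : D.Thick al) (v : ℕ → Finset (Fin 3) → X → (Fin 3 → β) → Pt (Fin 3) X β φ) (t q : ℕ) (b d : Fin 3)
    (w : Pt (Fin 3) X β φ) : ℝ :=
  (D.P h t).ce (fun u => (FQ v t d u, ZbQ D v q d u)) (fun u => Real.log
    ((D.P h t).pv (fun u => (FQ v t d u, ZQ D v q u)) (FQ v t b) u (FQ v t b u) /
      (D.P h t).pv (ZbQ D v q b) (FQ v t b) u (FQ v t b u))) w

theorem LrQ_fac {q : ℕ} : Fac (fun u => (FQ v t d u, ZbQ D v q d u)) (LrQ h v t q b d) := (D.P h t).ce_fac _ _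

theorem LrQ_nonneg (q : ℕ) (w : Pt (Fin 3) X β φ) : 0 ≤ LrQ h v t q b d w :=
  ce_log_nonneg (W := fun u => (FQ v t d u, ZQ D v q u)) (Z := ZbQ D v q b) ((Fac.snd _ _).trans (ZQ_Zb q b))
    ((Fac.fst _ _).prod ((Fac.snd _ _).trans (ZQ_Zb q d))) w

/-- **(HR2) hot pairs given the data and the label of `F_d`, any state** -/
theorem hot_LrQ (q : ℕ) (w : Pt (Fin 3) X β φ) {Dd : ℝ} (hD : 1 ≤ Dd) :
    (Real.log Dd - 1) * (D.P h t).ce (fun u => (FQ v t d u, ZbQ D v q d u)) (fun u => ind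
      (Dd * (D.P h t).pv (ZbQ D v q b) (FQ v t b) u (FQ v t b u) ≤
        (D.P h t).pv (fun u => (FQ v t d u, ZQ D v q u)) (FQ v t b) u (FQ v t b u))) w ≤ LrQ h v t q b d w :=
  hot_kl_ce (W := fun u => (FQ v t d u, ZQ D v q u)) (Z := ZbQ D v q b) ((Fac.snd _ _).trans (ZQ_Zb q b))
    ((Fac.fst _ _).prod ((Fac.snd _ _).trans (ZQ_Zb q d))) w hD

/-- **(HR1) IN EVERY CLASS OF THE VERTEX `b`, state `5t`** -/
theorem row_50 {n N1 : ℝ} (hn : 1 ≤ n) (hN1 : 1 ≤ N1) (H : D.Hyp dg prr al T Lam)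
    (R : Run h (pr3 (Fin 3) n N1) (SS1 (Fin 3)) (AdmDep D) v) (ht : t ≤ T) (bc : b ≠ c) (bd : b ≠ d) (cd : c ≠ d)
    {act : Pt (Fin 3) X β φ → Prop} (hact : Fac (fun u => (FQ v t d u, ZbQ D v (5 * t) d u)) act) {y : ℝ}
    (hy : ∀ w, (D.P h t).p w ≠ 0 → act w → y ≤ LrQ h v t (5 * t) b d w)
    (hyn : 4 / n * (Real.log N1 + 1 + Real.log (1 / al)) ≤ y) {Lo : ℝ} (hLo0 : 0 ≤ Lo) {w : Pt (Fin 3) X β φ}
    (hw : (D.P h t).p w ≠ 0) (hLo : ssQ h v (5 * t) b w ≤ Lo) :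
    (D.P h t).ce (fun u => (XLq v (5 * t) b u, NPq D v (5 * t) u)) (fun u => ind (act u)) w ≤ (Lo + 1) / N1 := by
  have hN : ∀ l : Fin 3, 0 < pr3 (Fin 3) n N1 (univ.erase l) := fun l => zero_lt_one.trans_le (pr3_one hn hN1 _)
  have B : Bk h (pr3 (Fin 3) n N1) (SS1 (Fin 3)) (Um v (t + 1)) t b c d := TriB.Bk_run hn hN1 R bc bd cd t
  have e4 : pr3 (Fin 3) n N1 ∅ = 1 := by unfold pr3; simp
  have e5 : pr3 (Fin 3) n N1 {c} = N1 := by unfold pr3; simp
  have eL : ∀ u, Lro h (Um v (t + 1)) t b d (FQ v t d) (FQ v t b) u = LrQ h v t (5 * t) b d u := by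
    intro u
    unfold Lro LrQ
    have a0 : ∀ u, (D.P h t).pv (fun v' => (FQ v t d v', Wf D (Um v (t + 1)) t v')) (FQ v t b) u (FQ v t b u) =
        (D.P h t).pv (fun u => (FQ v t d u, ZQ D v (5 * t) u)) (FQ v t b) u (FQ v t b u) := by
      intro u
      refine pv_supp (fun u' _ => ?_) (fun _ _ => rfl) _
      rw [Prod.mk.injEq, Prod.mk.injEq (FQ v t d u')]
      exact and_congr_right fun _ => Wf_ZQ0 bc bd cd
    simp only [a0, ZbQ_50]
  have k := row_num (w0 := w) B hw (Xl := FQ v t d) (fun a e ha he h1 h2 =>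
      FQ_det0 H R hN ht d ha he h1 (by rw [ZbQ_50]; exact h2))
    (Yl := FQ v t b) (fun a e ha he h1 h2 => FQ_det0 H R hN ht b ha he h1 (by rw [ZbQ_50]; exact h2))
    (act := act) (by rw [← ZbQ_50]; exact hact) (y := y) (fun u hu hau => by rw [eL]; exact hy u hu hau)
    (n := n) (N1 := N1) (by linarith) hN1 e4 e5 (pr3_top (by simp) n N1 b) hyn (Lo := Lo)
    (by rw [lsb_50 hw]; exact hLo) hLo0
  refine le_trans (le_of_eq ?_) k
  unfold pib
  exact (D.P h t).ce_congr_map (fun a e hae => cbm_50.2 hae) (fun a e hae => cbm_50.1 hae) _ _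

/-! ### the new saturated state `5t + 5`, law of the time `t` -/

theorem ce_push (H : D.Hyp dg prr al T Lam) (ht : t < T) {κ : Type*} (W : Pt (Fin 3) X β φ → κ)
    (f : Pt (Fin 3) X β φ → ℝ) (w : Pt (Fin 3) X β φ) :
    (D.P h (t + 1)).ce (fun u => W (old prr t u)) (fun u => f (old prr t u)) w = (D.P h t).ce W f (old prr t w) := by
  have hpr := H.kf_pr t ht
  unfold FP.ce FP.m
  rw [← push_E h hpr (fun u => ind (W u = W (old prr t w)) * f u),
    ← push_E h hpr (fun u => ind (W u = W (old prr t w)))]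

theorem old_surj (H : D.Hyp dg prr al T Lam) (ht : t < T) {w : Pt (Fin 3) X β φ} (hw : (D.P h t).p w ≠ 0) :
    ∃ u, (D.P h (t + 1)).p u ≠ 0 ∧ old prr t u = w := by
  by_contra hno
  push Not at hno
  have h1 := push_E h (H.kf_pr t ht) (fun u => ind (u = w))
  have h2 : (D.P h (t + 1)).E (fun u => ind (old prr t u = w)) = 0 := by
    have h3 : (D.P h (t + 1)).E (fun u => ind (old prr t u = w)) = (D.P h (t + 1)).E (fun _ => 0) :=
      (D.P h (t + 1)).E_congr fun u hu => ind_not (hno u hu)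
    rw [h3]
    exact (D.P h (t + 1)).E_const 0
  have h3 : (0 : ℝ) < (D.P h t).Pr (fun u => u = w) := FP.Pr_pos_of (S := fun u => u = w) hw rfl
  unfold FP.Pr at h3
  rw [← h1, h2] at h3
  exact lt_irrefl _ h3

/-- **(HR1) IN EVERY CLASS OF THE VERTEX `b`, state `5t + 5`, tops and law of the time `t`** -/
theorem row_55 {n N1 : ℝ} (hn : 1 ≤ n) (hN1 : 1 ≤ N1) (H : D.Hyp dg prr al T Lam)
    (R : Run h (pr3 (Fin 3) n N1) (SS1 (Fin 3)) (AdmDep D) v) (ht : t < T) (bc : b ≠ c) (bd : b ≠ d) (cd : c ≠ d)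
    {act : Pt (Fin 3) X β φ → Prop} (hact : Fac (fun u => (FQ v t d u, ZbQ D v (5 * t + 5) d u)) act) {y : ℝ}
    (hy : ∀ w, (D.P h t).p w ≠ 0 → act w → y ≤ LrQ h v t (5 * t + 5) b d w)
    (hyn : 4 / n * (Real.log N1 + 1 + Real.log (1 / al)) ≤ y) {Lo : ℝ} (hLo0 : 0 ≤ Lo) {w : Pt (Fin 3) X β φ}
    (hw : (D.P h t).p w ≠ 0) (hLo : ssQ h v (5 * t + 5) b w ≤ Lo) :
    (D.P h t).ce (fun u => (XLq v (5 * t + 5) b u, NPq D v (5 * t + 5) u)) (fun u => ind (act u)) w ≤ (Lo + 1) / N1 := by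
  have hN : ∀ l : Fin 3, 0 < pr3 (Fin 3) n N1 (univ.erase l) := fun l => zero_lt_one.trans_le (pr3_one hn hN1 _)
  have B : Bk h (pr3 (Fin 3) n N1) (SS1 (Fin 3)) (Um v (t + 2)) (t + 1) b c d := TriB.Bk_run hn hN1 R bc bd cd (t + 1)
  have e4 : pr3 (Fin 3) n N1 ∅ = 1 := by unfold pr3; simp
  have e5 : pr3 (Fin 3) n N1 {c} = N1 := by unfold pr3; simp
  have hZo : ∀ u, ZQ D v (5 * t + 5) (old prr t u) = ZQ D v (5 * t + 5) u := fun u => TriS.ZQ_old (prr := prr) _ t u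
  have hao : Fac (fun u => (FQ v t d (old prr t u), Zf D (Um v (t + 2)) (t + 1) d u)) (fun u => act (old prr t u)) := by
    intro a e hae
    rw [Prod.mk.injEq, ← HotNR.ZbQ_5] at hae
    refine hact _ _ (Prod.ext hae.1 ?_)
    show ZbQ D v (5 * t + 5) d (old prr t a) = ZbQ D v (5 * t + 5) d (old prr t e)
    rw [HotNR.Zb_old, HotNR.Zb_old]
    exact hae.2
  have eL : ∀ u, Lro h (Um v (t + 2)) (t + 1) b d (fun u => FQ v t d (old prr t u)) (fun u => FQ v t b (old prr t u)) u =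
      LrQ h v t (5 * t + 5) b d (old prr t u) := by
    intro u
    unfold Lro LrQ
    rw [← ce_push H ht]
    have a1 : ∀ u, (D.P h t).pv (fun u => (FQ v t d u, ZQ D v (5 * t + 5) u)) (FQ v t b) (old prr t u) (FQ v t b (old prr t u)) =
        (D.P h (t + 1)).pv (fun u => (FQ v t d (old prr t u), Wf D (Um v (t + 2)) (t + 1) u)) (fun u => FQ v t b (old prr t u)) u
        (FQ v t b (old prr t u)) := by
      intro u
      rw [← HotNR.pv_push H ht]
      refine pv_supp (fun u' _ => ?_) (fun _ _ => rfl) _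
      rw [Prod.mk.injEq, Prod.mk.injEq (FQ v t d (old prr t u')), hZo, hZo]
      exact and_congr_right fun _ => (HotNR.Wf_ZQ bc bd cd).symm
    have a2 : ∀ u, (D.P h t).pv (ZbQ D v (5 * t + 5) b) (FQ v t b) (old prr t u) (FQ v t b (old prr t u)) =
        (D.P h (t + 1)).pv (Zf D (Um v (t + 2)) (t + 1) b) (fun u => FQ v t b (old prr t u)) u (FQ v t b (old prr t u)) := by
      intro u
      rw [← HotNR.pv_push H ht, ← HotNR.ZbQ_5]
      refine pv_supp (fun u' _ => ?_) (fun _ _ => rfl) _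
      rw [HotNR.Zb_old, HotNR.Zb_old]
    simp only [a1, a2]
    have a3 : ∀ u, ZbQ D v (5 * t + 5) d (old prr t u) = Zf D (Um v (t + 2)) (t + 1) d u := fun u => by
      rw [HotNR.Zb_old, HotNR.ZbQ_5]
    simp only [a3]
  obtain ⟨w', hw', rfl⟩ := old_surj (prr := prr) H ht hw
  have k := row_num (w0 := w') B hw' (Xl := fun u => FQ v t d (old prr t u)) (fun a e ha he h1 h2 =>
      HotNR.FQ_det1 H R hN ht d ha he h1 (by rw [HotNR.ZbQ_5]; exact h2))
    (Yl := fun u => FQ v t b (old prr t u)) (fun a e ha he h1 h2 =>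
      HotNR.FQ_det1 H R hN ht b ha he h1 (by rw [HotNR.ZbQ_5]; exact h2))
    (act := fun u => act (old prr t u)) hao (y := y) (fun u hu hau => by
      rw [eL]; exact hy _ (old_supp H ht hu) hau)
    (n := n) (N1 := N1) (by linarith) hN1 e4 e5 (pr3_top (by simp) n N1 b) hyn (Lo := Lo)
    (by
      have h1 := lsb_50 (v := v) (b := b) hw'
      have h2 : 5 * (t + 1) = 5 * t + 5 := by ring
      rw [h2] at h1
      rw [h1, ← HotNR.ssQ_old (prr := prr) (t := t)]; exact hLo) hLo0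
  refine le_trans (le_of_eq ?_) k
  unfold pib
  rw [← ce_push H ht]
  have h2 : 5 * (t + 1) = 5 * t + 5 := by ring
  have hC : ∀ a e : Pt (Fin 3) X β φ, cbm D (Um v (t + 2)) (t + 1) b a = cbm D (Um v (t + 2)) (t + 1) b e ↔
      (XLq v (5 * t + 5) b a, NPq D v (5 * t + 5) a) = (XLq v (5 * t + 5) b e, NPq D v (5 * t + 5) e) := by
    intro a e
    have := cbm_50 (D := D) (v := v) (t := t + 1) (b := b) (a := a) (e := e)
    rwa [h2] at this
  exact (D.P h (t + 1)).ce_congr_map (fun a e hae => (hC a e).2 hae) (fun a e hae => (hC a e).1 hae) _ _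

end HotRow

end

end Pool.Agent.GMH.TP
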