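import Pool.Agent.GMH.HotSt
import Pool.Agent.GMH.TopGJ
import Pool.Agent.GMH.TopKinV
import Pool.Agent.GMH.Hot2p

/-!
# GMH/HotSR: the mass of the hot pairs, sum over the steps of a run (helper89; row K4 of the hot potential)

Pair of the two tops other than `i` : frame `Fo (FQ v t) i`, state `ZQ (qs s t)` before, `ZQ (qe s t)` after the step.
* `gn2_le`, `gn2_sum` : the gains of the pair in all steps are at most `6 Lam`;
* `mul_inf_V` : the information in `VZ s t` is the one in `ZQ (qe s t)`;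
* `hot_run`, `hot_runQ` : the sum over the steps of `E a P(A | before)` is at most `6 Lam (3 + 6 K)` and the information of the
  pair in the new states (and the mass of the bad letters, form with own laws);
* `hot_run_ps` : the hot set `{t0 < psC}` of the potential `ps2`.
-/

set_option autoImplicit false
set_option linter.unusedSectionVars false

namespace Pool.Agent.GMH.Hot2

open Finset Pool.Agent.PWZ Pool.Agent.M3 Pool.Agent.GM Pool.Agent.GM.Harm Pool.Agent.GMH Pool.Agent.GMH.NZ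
open Pool.Agent.GMH.V3 Pool.Agent.GMH.V3.TT Pool.Agent.GMH.TP

noncomputable section

section gen

variable {Om : Type*} [Fintype Om] (P : FP Om) {ι φ₁ β' γ' : Type*} [Fintype ι] (F : ι → Om → φ₁)

theorem pv_VZ {κ : Type*} {Z : Om → β'} {V : Om → γ'} (h : Fac V Z) (X : Om → κ) (w : Om) (x : κ) :
    P.pv (fun u => (V u, Z u)) X w x = P.pv V X w x := by
  unfold FP.pv FP.ce FP.m
  have e : ∀ v, ((V v, Z v) = (V w, Z w)) = (V v = V w) := fun v => by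
    rw [Prod.mk.injEq]
    exact propext ⟨fun hh => hh.1, fun hh => ⟨hh, h v w hh⟩⟩
  simp only [e]

/-- the information of the tops in the state of the pair of maps -/
theorem mul_inf_V {Z : Om → β'} {V : Om → γ'} (h : Fac V Z) (w : Om) :
    mul_inf P F (fun u => (V u, Z u)) w = mul_inf P F V w := by
  unfold mul_inf
  refine Finset.sum_congr rfl fun f _ => ?_
  rw [pv_VZ P h (tup F) w f, Finset.prod_congr rfl fun i _ => pv_VZ P h (F i) w (f i)]

end gen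

section run

variable {X β γ φ : Type} [Fintype X] [Fintype β] [Fintype φ] [Nonempty X] [Nonempty β]
variable {D : HD (Fin 3) X β γ φ} {al : ℝ} (h : D.Thick al)
  (v : ℕ → Finset (Fin 3) → X → (Fin 3 → β) → Pt (Fin 3) X β φ)
variable {dg : ℕ → X → ℝ} {prr : ℕ → Fin 3 → φ → φ} {T : ℕ} {Lam : ℝ}

/-- the gain of the pair in one step -/
def gn2 (i : Fin 3) (s : Fin 6) (t : ℕ) : ℝ := gn (D.P h t) (ZQ D v (qs s t)) (tup (Fo (FQ v t) i)) (ZQ D v (qe s t))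

variable {v}

theorem gn2_le (i : Fin 3) (s : Fin 6) (t : ℕ) : gn2 h v i s t ≤ gJ h v s t := by
  refine Flx.gn_fac_le (D.P h t) _ _ _ fun a b hab => ?_
  have h1 : tup (FQ v t) a = tup (FQ v t) b := (Prod.mk.inj hab).1
  funext j
  show Fo (FQ v t) i j a = Fo (FQ v t) i j b
  unfold Fo
  have h2 : FQ v t j a = FQ v t j b := congrFun h1 j
  rw [h2]

theorem gn2_nn (i : Fin 3) (s : Fin 6) (t : ℕ) : 0 ≤ gn2 h v i s t := gn_nn _ _ _ _

/-- **the gains of the pair** -/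
theorem gn2_sum (H : D.Hyp dg prr al T Lam) {n N1 : ℝ} (R : Run h (pr3 (Fin 3) n N1) (SS1 (Fin 3)) (AdmDep D) v)
    (hn : 1 ≤ n) (hN1 : 1 ≤ N1) (i : Fin 3) : ∑ t ∈ range T, ∑ s, gn2 h v i s t ≤ 6 * Lam :=
  (Finset.sum_le_sum fun t _ => Finset.sum_le_sum fun s _ => gn2_le h i s t).trans (gJ_sum h H R hn hN1)

/-- relations of the pair -/
abbrev R2 (X β φ : Type) := Fin 6 → ℕ → Pt (Fin 3) X β φ → (Fin 3 → Option (List (Pt (Fin 3) X β φ) × (Fin 3 → Option φ))) → Prop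

/-- **THE HOT MASS OVER THE RUN**, laws given all thin labels -/
theorem hot_run (H : D.Hyp dg prr al T Lam) {n N1 : ℝ} (R : Run h (pr3 (Fin 3) n N1) (SS1 (Fin 3)) (AdmDep D) v)
    (hn : 1 ≤ n) (hN1 : 1 ≤ N1) (i : Fin 3) {a : Fin 6 → ℕ → Pt (Fin 3) X β φ → ℝ} (a0 : ∀ s t w, 0 ≤ a s t w)
    (a1 : ∀ s t w, a s t w ≤ 1) {D0 K : ℝ} (hK : Real.exp 2 ≤ K) (hD : 24 * K ≤ D0) {A : R2 X β φ}
    (hA : ∀ s, ∀ t < T, ∀ w, (D.P h t).p w ≠ 0 → a s t w ≠ 0 → ∀ f ∈ fts (Fo (FQ v t) i), A s t w f →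
      D0 * ∏ j, (D.P h t).pv (ZQ D v (qs s t)) (Fo (FQ v t) i j) w (f j) ≤
        (D.P h t).pv (ZQ D v (qs s t)) (tup (Fo (FQ v t) i)) w f) :
    ∑ t ∈ range T, ∑ s, (D.P h t).E (fun w => a s t w *
        massA (D.P h t) (Fo (FQ v t) i) (ZQ D v (qs s t)) (A s t) w) ≤
      (3 + 6 * K) * (6 * Lam) + 2 * ∑ t ∈ range T, ∑ s, (D.P h t).E (fun w => a s t w *
        mul_inf (D.P h t) (Fo (FQ v t) i) (ZQ D v (qe s t)) w) := by
  have K0 : 0 ≤ K := (Real.exp_pos 2).le.trans hK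
  have one : ∀ t ∈ range T, ∀ s ∈ (univ : Finset (Fin 6)), (D.P h t).E (fun w => a s t w *
      massA (D.P h t) (Fo (FQ v t) i) (ZQ D v (qs s t)) (A s t) w) ≤
      (3 + 6 * K) * gn2 h v i s t + 2 * (D.P h t).E (fun w => a s t w *
        mul_inf (D.P h t) (Fo (FQ v t) i) (ZQ D v (qe s t)) w) := by
    intro t ht s _
    have k := hot_stepI (D.P h t) (Fo (FQ v t) i) (ZQ D v (qs s t)) (ZQ D v (qe s t)) (a0 s t) (a1 s t) hK hD
      (A := A s t) (hA s t (Finset.mem_range.1 ht))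
    have e1 : ∀ w, mul_inf (D.P h t) (Fo (FQ v t) i) (fun u => (ZQ D v (qe s t) u, ZQ D v (qs s t) u)) w =
        mul_inf (D.P h t) (Fo (FQ v t) i) (ZQ D v (qe s t)) w := fun w =>
      mul_inf_V (D.P h t) _ (ZQ_mono (qs_le_qe s t)) w
    simp only [e1] at k
    refine k.trans (le_of_eq ?_)
    rw [Fintype.card_fin]
    unfold gn2
    push_cast
    ring
  refine (Finset.sum_le_sum fun t ht => Finset.sum_le_sum (one t ht)).trans ?_
  simp only [Finset.sum_add_distrib, ← Finset.mul_sum]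
  have h1 := mul_le_mul_of_nonneg_left (gn2_sum h H R hn hN1 i) (show 0 ≤ 3 + 6 * K by linarith)
  linarith

/-- **THE HOT MASS OVER THE RUN**, own laws -/
theorem hot_runQ (H : D.Hyp dg prr al T Lam) {n N1 : ℝ} (R : Run h (pr3 (Fin 3) n N1) (SS1 (Fin 3)) (AdmDep D) v)
    (hn : 1 ≤ n) (hN1 : 1 ≤ N1) (i : Fin 3) {a : Fin 6 → ℕ → Pt (Fin 3) X β φ → ℝ} (a0 : ∀ s t w, 0 ≤ a s t w)
    (a1 : ∀ s t w, a s t w ≤ 1) {B D0 K : ℝ} (hB : 0 ≤ B) (hK : Real.exp 2 ≤ K) (hD : 24 * K ≤ D0) {A : R2 X β φ}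
    (hA : ∀ s, ∀ t < T, ∀ w, (D.P h t).p w ≠ 0 → a s t w ≠ 0 → ∀ f ∈ fts (Fo (FQ v t) i), A s t w f →
      D0 * B ^ 3 * ∏ j, (D.P h t).pv (ZbQ D v (qs s t) j) (Fo (FQ v t) i j) w (f j) ≤
        (D.P h t).pv (ZQ D v (qs s t)) (tup (Fo (FQ v t) i)) w f) :
    ∑ t ∈ range T, ∑ s, (D.P h t).E (fun w => a s t w *
        massA (D.P h t) (Fo (FQ v t) i) (ZQ D v (qs s t)) (A s t) w) ≤
      (3 + 6 * K) * (6 * Lam) + 2 * ∑ t ∈ range T, ∑ s, (D.P h t).E (fun w => a s t w *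
        mul_inf (D.P h t) (Fo (FQ v t) i) (ZQ D v (qe s t)) w) +
      ∑ t ∈ range T, ∑ s, (D.P h t).E (fun w => a s t w *
        massA (D.P h t) (Fo (FQ v t) i) (ZQ D v (qs s t))
          (bdl (D.P h t) (Fo (FQ v t) i) (ZQ D v (qs s t)) B (ZbQ D v (qs s t))) w) := by
  have K0 : 0 ≤ K := (Real.exp_pos 2).le.trans hK
  have one : ∀ t ∈ range T, ∀ s ∈ (univ : Finset (Fin 6)), (D.P h t).E (fun w => a s t w *
      massA (D.P h t) (Fo (FQ v t) i) (ZQ D v (qs s t)) (A s t) w) ≤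
      ((3 + 6 * K) * gn2 h v i s t + 2 * (D.P h t).E (fun w => a s t w *
        mul_inf (D.P h t) (Fo (FQ v t) i) (ZQ D v (qe s t)) w)) + (D.P h t).E (fun w => a s t w *
        massA (D.P h t) (Fo (FQ v t) i) (ZQ D v (qs s t))
          (bdl (D.P h t) (Fo (FQ v t) i) (ZQ D v (qs s t)) B (ZbQ D v (qs s t))) w) := by
    intro t ht s _
    have k := hot_stepQ (D.P h t) (Fo (FQ v t) i) (ZQ D v (qs s t)) (ZQ D v (qe s t)) (ZbQ D v (qs s t)) (a0 s t) (a1 s t)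
      hB hK hD (A := A s t) (fun w hw ha f hf hAf => by
        rw [Fintype.card_fin]
        exact hA s t (Finset.mem_range.1 ht) w hw ha f hf hAf)
    have e1 : ∀ w, mul_inf (D.P h t) (Fo (FQ v t) i) (fun u => (ZQ D v (qe s t) u, ZQ D v (qs s t) u)) w =
        mul_inf (D.P h t) (Fo (FQ v t) i) (ZQ D v (qe s t)) w := fun w =>
      mul_inf_V (D.P h t) _ (ZQ_mono (qs_le_qe s t)) w
    simp only [e1] at k
    refine k.trans (le_of_eq ?_)
    rw [Fintype.card_fin]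
    unfold gn2
    push_cast
    ring
  refine (Finset.sum_le_sum fun t ht => Finset.sum_le_sum (one t ht)).trans ?_
  simp only [Finset.sum_add_distrib, ← Finset.mul_sum]
  have h1 := mul_le_mul_of_nonneg_left (gn2_sum h H R hn hN1 i) (show 0 ≤ 3 + 6 * K by linarith)
  linarith

variable (v) in
/-- the hot relation of the pair in the state before the step -/
def hotR (t0 : ℝ) (i : Fin 3) : R2 X β φ := fun s t w f =>
  0 < (D.P h t).pv (ZQ D v (qs s t)) (tup (Fo (FQ v t) i)) w f ∧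
    t0 < psC (D.P h t) (ZQ D v (qs s t)) (ZbQ D v (qs s t)) (Fo (FQ v t) i) w f

theorem hotR_dens {t0 : ℝ} {i : Fin 3} {s : Fin 6} {t : ℕ} {w : Pt (Fin 3) X β φ}
    {f : Fin 3 → Option (List (Pt (Fin 3) X β φ) × (Fin 3 → Option φ))} (hf : hotR h v t0 i s t w f) :
    Real.exp t0 * ∏ j, (D.P h t).pv (ZbQ D v (qs s t) j) (Fo (FQ v t) i j) w (f j) ≤
      (D.P h t).pv (ZQ D v (qs s t)) (tup (Fo (FQ v t) i)) w f := by
  obtain ⟨h1, h2⟩ := hf
  have h3 : 0 ≤ ∏ j, (D.P h t).pv (ZbQ D v (qs s t) j) (Fo (FQ v t) i j) w (f j) :=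
    Finset.prod_nonneg fun _ _ => (D.P h t).pv_nonneg _ _ _ _
  rcases h3.eq_or_lt with h4 | h4
  · rw [← h4, mul_zero]
    exact h1.le
  · unfold psC at h2
    have h5 := (Real.lt_log_iff_exp_lt (div_pos h1 h4)).1 h2
    rw [lt_div_iff₀ h4] at h5
    exact h5.le

/-- **THE HOT MASS OF THE POTENTIAL** : `exp t0 >= D0 B^3` -/
theorem hot_run_ps (H : D.Hyp dg prr al T Lam) {n N1 : ℝ} (R : Run h (pr3 (Fin 3) n N1) (SS1 (Fin 3)) (AdmDep D) v)
    (hn : 1 ≤ n) (hN1 : 1 ≤ N1) (i : Fin 3) {a : Fin 6 → ℕ → Pt (Fin 3) X β φ → ℝ} (a0 : ∀ s t w, 0 ≤ a s t w)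
    (a1 : ∀ s t w, a s t w ≤ 1) {B D0 K t0 : ℝ} (hB : 0 ≤ B) (hK : Real.exp 2 ≤ K) (hD : 24 * K ≤ D0)
    (ht0 : D0 * B ^ 3 ≤ Real.exp t0) :
    ∑ t ∈ range T, ∑ s, (D.P h t).E (fun w => a s t w *
        massA (D.P h t) (Fo (FQ v t) i) (ZQ D v (qs s t)) (hotR h v t0 i s t) w) ≤
      (3 + 6 * K) * (6 * Lam) + 2 * ∑ t ∈ range T, ∑ s, (D.P h t).E (fun w => a s t w *
        mul_inf (D.P h t) (Fo (FQ v t) i) (ZQ D v (qe s t)) w) +
      ∑ t ∈ range T, ∑ s, (D.P h t).E (fun w => a s t w *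
        massA (D.P h t) (Fo (FQ v t) i) (ZQ D v (qs s t))
          (bdl (D.P h t) (Fo (FQ v t) i) (ZQ D v (qs s t)) B (ZbQ D v (qs s t))) w) :=
  hot_runQ h H R hn hN1 i a0 a1 hB hK hD (A := hotR h v t0 i) fun _ t _ _ _ _ _ _ hf =>
    (mul_le_mul_of_nonneg_right ht0 (Finset.prod_nonneg fun _ _ => (D.P h t).pv_nonneg _ _ _ _)).trans (hotR_dens h hf)

end run

end

end Pool.Agent.GMH.Hot2
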