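import Pool.Agent.GMH.FluxL
import Pool.Agent.GMH.HotKL

/-!
# GMH.HotSt: the mass of the hot tuples, one step of a process (row HOT (H2) of note 4068, linear exits of note 4077; helper9)

State `Z → (V, Z)`, tops `F i`, `n` = number of tops.
* `hot_stepK` : `E[a P(A | Z)] ≤ (3 + 2 K n) gn P Z (tup F) V + 2 E[a P'(A, P' > K ∏ P'_i | (V, Z))]`, `A` = any relation of
  the old tables with `P(f | Z) ≥ D0 ∏ P(f_i | Z)`, `a` = any weight in `[0, 1]` (it may see the new state);
* `mul_inf` = information between the tops in a state, `mul_inf_ge` : it is at least the mass of `{P' > K ∏ P'_i}`, `K ≥ e^2`;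
* `hot_stepI` : `E[a P(A | Z)] ≤ (3 + 2 K n) gn P Z (tup F) V + 2 E[a mul_inf (V, Z)]`;
* `hot_stepQ` : the same for own laws `q_i` (`psC`), with the mass of the letters `P(x | Z) > B q_i(x)`;
* `lin_exit_I` : the form with the row mass `hotx` of the true `X`, `infx` = information of `X'` and the true `X` in the new state.
-/

set_option autoImplicit false
set_option linter.unusedSectionVars false
set_option linter.unusedVariables false

namespace Pool.Agent.GMH

open Finset Pool.Agent.PWZ Pool.Agent.M3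

noncomputable section

/-- mass of `{mu > K nu}` -/
theorem big_le {τ : Type*} {s : Finset τ} {mu nu : τ → ℝ} (hm : ∀ f ∈ s, 0 ≤ mu f) (hn : ∀ f ∈ s, 0 ≤ nu f)
    (hac : ∀ f ∈ s, nu f = 0 → mu f = 0) (h1 : ∑ f ∈ s, nu f ≤ ∑ f ∈ s, mu f) {K : ℝ} (hK : Real.exp 2 ≤ K) :
    ∑ f ∈ s, ind (K * nu f < mu f) * mu f ≤ ∑ f ∈ s, mu f * Real.log (mu f / nu f) := by
  have key : ∀ f ∈ s, ind (K * nu f < mu f) * mu f ≤ mu f * Real.log (mu f / nu f) - mu f + nu f := by
    intro f hf
    by_cases hmf : mu f = 0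
    · rw [hmf]
      have := hn f hf
      simp only [mul_zero, zero_mul]
      linarith
    · have hm0 : 0 < mu f := lt_of_le_of_ne (hm f hf) (Ne.symm hmf)
      have hn0 : 0 < nu f := lt_of_le_of_ne (hn f hf) (fun h => hmf (hac f hf h.symm))
      by_cases h : K * nu f < mu f
      · rw [ind_of h, one_mul]
        have h2 : 2 ≤ Real.log (mu f / nu f) := by
          rw [Real.le_log_iff_exp_le (div_pos hm0 hn0), le_div_iff₀ hn0]
          exact (mul_le_mul_of_nonneg_right hK hn0.le).trans h.le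
        have h3 := mul_le_mul_of_nonneg_left h2 hm0.le
        linarith
      · rw [ind_not h, zero_mul]
        have h3 := Real.log_le_sub_one_of_pos (show 0 < nu f / mu f by positivity)
        have h4 : Real.log (nu f / mu f) = - Real.log (mu f / nu f) := by
          rw [Real.log_div hn0.ne' hmf, Real.log_div hmf hn0.ne']
          ring
        rw [h4] at h3
        have h5 := mul_le_mul_of_nonneg_left h3 hm0.le
        have h6 : mu f * (nu f / mu f - 1) = nu f - mu f := by
          field_simp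
        rw [h6] at h5
        linarith
  have h2 := Finset.sum_le_sum key
  rw [Finset.sum_add_distrib, Finset.sum_sub_distrib] at h2
  linarith

section prob

variable {Om : Type*} [Fintype Om] (P : FP Om) {ι φ β γ ν : Type*} [Fintype ι] (F : ι → Om → φ) (Z : Om → β) (V : Om → γ)

/-- the possible tuples -/
def fts : Finset (ι → φ) := tps (fun i => vals (F i))

theorem tup_mem_fts (w : Om) : tup F w ∈ fts F := (mem_tps _).2 fun i => FP.mem_vals (F i) w

/-- sums over the possible tuples -/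
theorem sum_fts (N : Om → ν) (w : Om) (g : (ι → φ) → ℝ) :
    ∑ f ∈ fts F, P.pv N (tup F) w f * g f = ∑ f ∈ vals (tup F), P.pv N (tup F) w f * g f := by
  classical
  have hsub : vals (tup F) ⊆ fts F := by
    intro f hf
    have : ∃ u, tup F u = f := by
      unfold vals at hf
      simpa using hf
    obtain ⟨u, rfl⟩ := this
    exact tup_mem_fts F u
  refine (Finset.sum_subset hsub fun f _ hf => ?_).symm
  have h0 : P.pv N (tup F) w f = 0 := by
    by_contra hne
    obtain ⟨u, _, _, hu⟩ := Flx.pv_ne P N (tup F) hne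
    exact hf (hu ▸ FP.mem_vals (tup F) u)
  rw [h0, zero_mul]

theorem pv_fts_one (N : Om → ν) {w : Om} (hw : P.p w ≠ 0) : ∑ f ∈ fts F, P.pv N (tup F) w f = 1 := by
  have h := sum_fts P F N w (fun _ => 1)
  simp only [mul_one] at h
  rw [h, P.pv_sum N (tup F) hw]

/-- the marginals -/
theorem mgl_pv (N : Om → ν) (w : Om) (i : ι) (x : φ) :
    mgl (fun i => vals (F i)) (fun f => P.pv N (tup F) w f) i x = P.pv N (F i) w x := by
  have e1 : mgl (fun i => vals (F i)) (fun f => P.pv N (tup F) w f) i x =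
      ∑ f ∈ fts F, P.pv N (tup F) w f * ind (f i = x) := by
    unfold mgl
    exact Finset.sum_congr rfl fun f _ => mul_comm _ _
  rw [e1, sum_fts P F N w (fun f => ind (f i = x)), P.sum_pv (W := N) (tup F) (F := fun _ f => ind (f i = x))
    (fun _ _ _ _ => rfl) w]
  rfl

/-- relative entropy of one step, the state is named -/
def klt (w : Om) : ℝ := kls (fun i => vals (F i)) (fun f => P.pv (fun u => (V u, Z u)) (tup F) w f)
  (fun f => P.pv Z (tup F) w f)

theorem klt_nn {w : Om} (hw : P.p w ≠ 0) : 0 ≤ klt P F Z V w :=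
  kls_nn (fun f _ => P.pv_nonneg _ _ _ _) (fun f _ => P.pv_nonneg _ _ _ _)
    (fun f _ h => P.pv_ac (fun a b hab => (Prod.mk.inj hab).2) (tup F) h) (pv_fts_one P F Z hw)
    (pv_fts_one P F (fun u => (V u, Z u)) hw)

theorem klt_E : P.E (klt P F Z V) = gn P Z (tup F) V := by
  rw [gn_eq, I_pv P V (tup F) Z, ← P.E_ce (fun u => (V u, Z u))
    (fun w => Real.log (P.pv (fun u => (V u, Z u)) (tup F) w (tup F w) / P.pv Z (tup F) w (tup F w)))]
  refine P.E_congr fun w _ => ?_
  unfold klt kls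
  have h := sum_fts P F (fun u => (V u, Z u)) w
    (fun f => Real.log (P.pv (fun u => (V u, Z u)) (tup F) w f / P.pv Z (tup F) w f))
  have h' : ∑ f ∈ tps (fun i => vals (F i)), P.pv (fun u => (V u, Z u)) (tup F) w f *
      Real.log (P.pv (fun u => (V u, Z u)) (tup F) w f / P.pv Z (tup F) w f) =
      ∑ f ∈ vals (tup F), P.pv (fun u => (V u, Z u)) (tup F) w f *
      Real.log (P.pv (fun u => (V u, Z u)) (tup F) w f / P.pv Z (tup F) w f) := h
  rw [h']
  exact P.sum_pv (W := fun u => (V u, Z u)) (tup F)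
    (F := fun w f => Real.log (P.pv (fun u => (V u, Z u)) (tup F) w f / P.pv Z (tup F) w f))
    (fun f a b hab => by
      show Real.log (P.pv (fun u => (V u, Z u)) (tup F) a f / P.pv Z (tup F) a f) =
        Real.log (P.pv (fun u => (V u, Z u)) (tup F) b f / P.pv Z (tup F) b f)
      have hz : Z a = Z b := (Prod.mk.inj hab).2
      have h1 : P.pv (fun u => (V u, Z u)) (tup F) a f = P.pv (fun u => (V u, Z u)) (tup F) b f := pvc P _ hab f
      rw [h1, pvc P (tup F) hz f]) w

/-- the mass of a relation of the tables of a state -/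
def massA (N : Om → ν) (A : Om → (ι → φ) → Prop) (w : Om) : ℝ := ∑ f ∈ fts F, ind (A w f) * P.pv N (tup F) w f

theorem massA_nn (N : Om → ν) (A : Om → (ι → φ) → Prop) (w : Om) : 0 ≤ massA P F N A w :=
  Finset.sum_nonneg fun f _ => mul_nonneg (ind_nonneg _) (P.pv_nonneg _ _ _ _)

/-- it is a conditional probability -/
theorem massA_ce (N : Om → ν) {A : Om → (ι → φ) → Prop} (hA : ∀ a b, N a = N b → ∀ f, (A a f ↔ A b f)) (w : Om) :
    massA P F N A w = P.ce N (fun u => ind (A u (tup F u))) w := by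
  unfold massA
  have e1 : ∑ f ∈ fts F, ind (A w f) * P.pv N (tup F) w f = ∑ f ∈ fts F, P.pv N (tup F) w f * ind (A w f) :=
    Finset.sum_congr rfl fun f _ => mul_comm _ _
  rw [e1, sum_fts P F N w (fun f => ind (A w f)), P.sum_pv (W := N) (tup F) (F := fun w f => ind (A w f))
    (fun f a b hab => by
      show ind (A a f) = ind (A b f)
      rw [propext (hA a b hab f)]) w]

/-- not a product in the new state -/
def npr (K : ℝ) (N : Om → ν) (w : Om) (f : ι → φ) : Prop := K * ∏ i, P.pv N (F i) w (f i) < P.pv N (tup F) w f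

/-- information between the tops in a state -/
def mul_inf (N : Om → ν) (w : Om) : ℝ := ∑ f ∈ fts F, P.pv N (tup F) w f *
  Real.log (P.pv N (tup F) w f / ∏ i, P.pv N (F i) w (f i))

/-- **one step, pointwise** -/
theorem hot_step_w {D0 K : ℝ} (hK : 1 ≤ K) (hD : 24 * K ≤ D0) {A : Om → (ι → φ) → Prop} {w : Om} (hw : P.p w ≠ 0)
    (hA : ∀ f ∈ fts F, A w f → D0 * ∏ i, P.pv Z (F i) w (f i) ≤ P.pv Z (tup F) w f) :
    massA P F Z A w ≤ (3 + 2 * K * Fintype.card ι) * klt P F Z V w +
      2 * massA P F (fun u => (V u, Z u)) (fun w f => A w f ∧ npr P F K (fun u => (V u, Z u)) w f) w := by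
  have key := hot_le (s := fun i => vals (F i)) (mu := fun f => P.pv (fun u => (V u, Z u)) (tup F) w f)
    (p := fun f => P.pv Z (tup F) w f) (fun f _ => P.pv_nonneg _ _ _ _) (fun f _ => P.pv_nonneg _ _ _ _)
    (fun f _ h => P.pv_ac (fun a b hab => (Prod.mk.inj hab).2) (tup F) h) (pv_fts_one P F Z hw)
    (pv_fts_one P F (fun u => (V u, Z u)) hw) (A := A w) (E := npr P F K (fun u => (V u, Z u)) w) hK hD
    (fun f hf h => by
      have h1 : ∀ i, mgl (fun i => vals (F i)) (fun f => P.pv Z (tup F) w f) i (f i) = P.pv Z (F i) w (f i) :=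
        fun i => mgl_pv P F Z w i (f i)
      simp only [h1]
      exact hA f hf h)
    (fun f hf _ h => by
      have h1 : ∀ i, mgl (fun i => vals (F i)) (fun f => P.pv (fun u => (V u, Z u)) (tup F) w f) i (f i) =
        P.pv (fun u => (V u, Z u)) (F i) w (f i) := fun i => mgl_pv P F (fun u => (V u, Z u)) w i (f i)
      simp only [h1]
      exact not_lt.1 h)
  exact key

/-- **one step, in the mean** : any weight -/
theorem hot_stepK {a : Om → ℝ} (a0 : ∀ w, 0 ≤ a w) (a1 : ∀ w, a w ≤ 1) {D0 K : ℝ} (hK : 1 ≤ K) (hD : 24 * K ≤ D0)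
    {A : Om → (ι → φ) → Prop} (hA : ∀ w, P.p w ≠ 0 → a w ≠ 0 → ∀ f ∈ fts F, A w f →
      D0 * ∏ i, P.pv Z (F i) w (f i) ≤ P.pv Z (tup F) w f) :
    P.E (fun w => a w * massA P F Z A w) ≤ (3 + 2 * K * Fintype.card ι) * gn P Z (tup F) V +
      2 * P.E (fun w => a w * massA P F (fun u => (V u, Z u))
        (fun w f => A w f ∧ npr P F K (fun u => (V u, Z u)) w f) w) := by
  have c0 : 0 ≤ 3 + 2 * K * Fintype.card ι := by
    have : (0 : ℝ) ≤ Fintype.card ι := Nat.cast_nonneg _
    have := mul_nonneg (show 0 ≤ 2 * K by linarith) this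
    linarith
  rw [← klt_E, ← P.E_smul, ← P.E_smul, ← P.E_add]
  refine P.E_mono fun w hw => ?_
  have k0 := klt_nn P F Z V hw
  by_cases h : a w = 0
  · rw [h]
    simp only [zero_mul, mul_zero, add_zero]
    exact mul_nonneg c0 k0
  · have key := mul_le_mul_of_nonneg_left (hot_step_w P F Z V hK hD hw (hA w hw h)) (a0 w)
    have := mul_le_of_le_one_left (mul_nonneg c0 k0) (a1 w)
    linarith

/-- the mass of the tuples which are far from the product is at most the information between the tops -/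
theorem mul_inf_ge {K : ℝ} (hK : Real.exp 2 ≤ K) (N : Om → ν) {w : Om} (hw : P.p w ≠ 0) :
    massA P F N (npr P F K N) w ≤ mul_inf P F N w := by
  unfold massA mul_inf
  have h1 : ∀ i, ∑ x ∈ vals (F i), P.pv N (F i) w x = 1 := fun i => P.pv_sum N (F i) hw
  have h2 := sum_prod_one (s := fun i => vals (F i)) (fun i x => P.pv N (F i) w x) h1
  refine big_le (s := fts F) (mu := fun f => P.pv N (tup F) w f) (nu := fun f => ∏ i, P.pv N (F i) w (f i))
    (fun f _ => P.pv_nonneg _ _ _ _) (fun f _ => Finset.prod_nonneg fun i _ => P.pv_nonneg _ _ _ _)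
    (fun f hf h => ?_) (by rw [pv_fts_one P F N hw]; exact le_of_eq h2) hK
  obtain ⟨i, _, hi⟩ := Finset.prod_eq_zero_iff.1 h
  have h3 := mgl_ge (s := fun i => vals (F i)) (p := fun f => P.pv N (tup F) w f) (fun f _ => P.pv_nonneg _ _ _ _) hf i
  rw [mgl_pv P F N w i (f i), hi] at h3
  exact le_antisymm h3 (P.pv_nonneg _ _ _ _)

theorem mul_inf_nn (N : Om → ν) {w : Om} (hw : P.p w ≠ 0) : 0 ≤ mul_inf P F N w :=
  (massA_nn P F N _ w).trans (mul_inf_ge P F le_rfl N hw)

theorem massA_mono (N : Om → ν) {A B : Om → (ι → φ) → Prop} {w : Om} (h : ∀ f ∈ fts F, A w f → B w f) :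
    massA P F N A w ≤ massA P F N B w :=
  Finset.sum_le_sum fun f hf => mul_le_mul_of_nonneg_right (ind_mono (h f hf)) (P.pv_nonneg _ _ _ _)

/-- **one step, with the information between the tops in the new state** -/
theorem hot_stepI {a : Om → ℝ} (a0 : ∀ w, 0 ≤ a w) (a1 : ∀ w, a w ≤ 1) {D0 K : ℝ} (hK : Real.exp 2 ≤ K)
    (hD : 24 * K ≤ D0) {A : Om → (ι → φ) → Prop} (hA : ∀ w, P.p w ≠ 0 → a w ≠ 0 → ∀ f ∈ fts F, A w f →
      D0 * ∏ i, P.pv Z (F i) w (f i) ≤ P.pv Z (tup F) w f) :
    P.E (fun w => a w * massA P F Z A w) ≤ (3 + 2 * K * Fintype.card ι) * gn P Z (tup F) V +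
      2 * P.E (fun w => a w * mul_inf P F (fun u => (V u, Z u)) w) := by
  have hK1 : 1 ≤ K := le_trans (Real.one_le_exp (by norm_num)) hK
  refine (hot_stepK P F Z V a0 a1 hK1 hD hA).trans (add_le_add le_rfl ?_)
  refine mul_le_mul_of_nonneg_left (P.E_mono fun w hw => mul_le_mul_of_nonneg_left ?_ (a0 w)) (by norm_num)
  exact (massA_mono P F _ fun f _ h => h.2).trans (mul_inf_ge P F hK _ hw)

/-- the information between the tops, real form -/
theorem mul_inf_real (N : Om → ν) {a : Om → ℝ} (ha : Fac N a) : P.E (fun w => a w * mul_inf P F N w) =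
    P.E (fun w => a w * Real.log (P.pv N (tup F) w (tup F w) / ∏ i, P.pv N (F i) w (F i w))) := by
  rw [← P.E_mul_ce ha (fun w => Real.log (P.pv N (tup F) w (tup F w) / ∏ i, P.pv N (F i) w (F i w)))]
  refine P.E_congr fun w _ => ?_
  congr 1
  unfold mul_inf
  rw [sum_fts P F N w (fun f => Real.log (P.pv N (tup F) w f / ∏ i, P.pv N (F i) w (f i)))]
  exact P.sum_pv (W := N) (tup F) (F := fun w f => Real.log (P.pv N (tup F) w f / ∏ i, P.pv N (F i) w (f i)))
    (fun f a b hab => by
      show Real.log (P.pv N (tup F) a f / ∏ i, P.pv N (F i) a (f i)) =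
        Real.log (P.pv N (tup F) b f / ∏ i, P.pv N (F i) b (f i))
      rw [pvc P (tup F) hab f]
      congr 2
      exact Finset.prod_congr rfl fun i _ => pvc P (F i) hab (f i)) w

/-! ### own laws -/

/-- bad letters: the law given all thin letters is more than `B` times the own law -/
def bdl {ν' : ι → Type*} (B : ℝ) (Zb : ∀ i, Om → ν' i) (w : Om) (f : ι → φ) : Prop :=
  ∃ i, B * P.pv (Zb i) (F i) w (f i) < P.pv Z (F i) w (f i)

/-- **one step for a relation with `P(f | Z) ≥ B^n D0 ∏ q_i(f_i)`, `q_i` = own laws** -/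
theorem hot_stepQ {ν' : ι → Type*} (Zb : ∀ i, Om → ν' i) {a : Om → ℝ} (a0 : ∀ w, 0 ≤ a w) (a1 : ∀ w, a w ≤ 1)
    {B D0 K : ℝ} (hB : 0 ≤ B) (hK : Real.exp 2 ≤ K) (hD : 24 * K ≤ D0) {A : Om → (ι → φ) → Prop}
    (hA : ∀ w, P.p w ≠ 0 → a w ≠ 0 → ∀ f ∈ fts F, A w f →
      D0 * B ^ Fintype.card ι * ∏ i, P.pv (Zb i) (F i) w (f i) ≤ P.pv Z (tup F) w f) :
    P.E (fun w => a w * massA P F Z A w) ≤ (3 + 2 * K * Fintype.card ι) * gn P Z (tup F) V +
      2 * P.E (fun w => a w * mul_inf P F (fun u => (V u, Z u)) w) +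
      P.E (fun w => a w * massA P F Z (bdl P F Z B Zb) w) := by
  have hD0 : 0 ≤ D0 := by
    have := Real.exp_pos 2
    linarith
  have key := hot_stepI P F Z V a0 a1 hK hD (A := fun w f => A w f ∧ ¬ bdl P F Z B Zb w f) (fun w hw ha f hf h => by
    refine le_trans ?_ (hA w hw ha f hf h.1)
    rw [mul_assoc]
    refine mul_le_mul_of_nonneg_left ?_ hD0
    have h2 : ∀ i, P.pv Z (F i) w (f i) ≤ B * P.pv (Zb i) (F i) w (f i) := by
      intro i
      by_contra hc
      exact h.2 ⟨i, not_le.1 hc⟩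
    calc ∏ i, P.pv Z (F i) w (f i) ≤ ∏ i, (B * P.pv (Zb i) (F i) w (f i)) :=
          Finset.prod_le_prod (fun i _ => P.pv_nonneg _ _ _ _) fun i _ => h2 i
      _ = _ := by rw [Finset.prod_mul_distrib, Finset.prod_const, Finset.card_univ])
  have h1 : P.E (fun w => a w * massA P F Z A w) ≤
      P.E (fun w => a w * massA P F Z (fun w f => A w f ∧ ¬ bdl P F Z B Zb w f) w) +
        P.E (fun w => a w * massA P F Z (bdl P F Z B Zb) w) := by
    rw [← P.E_add]
    refine P.E_mono fun w _ => ?_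
    rw [← mul_add]
    refine mul_le_mul_of_nonneg_left ?_ (a0 w)
    unfold massA
    rw [← Finset.sum_add_distrib]
    refine Finset.sum_le_sum fun f _ => ?_
    rw [← add_mul]
    refine mul_le_mul_of_nonneg_right ?_ (P.pv_nonneg _ _ _ _)
    by_cases h2 : bdl P F Z B Zb w f
    · rw [ind_of h2]
      have := ind_le_one (A w f)
      have := ind_nonneg (A w f ∧ ¬ bdl P F Z B Zb w f)
      linarith
    · rw [ind_not h2, add_zero]
      exact ind_mono fun h3 => ⟨h3, h2⟩
  linarith

end prob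

/-! ### the row of the true letter -/

namespace Flx

section fin

variable {ι : Type*} {sy : Finset ι}

/-- one law: `a, ra` = law of `y` given `x` and ratio, `b, rb` = law of `y` and ratio, `rc` = ratio of the two new laws -/
theorem lin_exit2 {a ra b rb rc : ι → ℝ} (ha : ∀ y ∈ sy, 0 ≤ a y) (hra : ∀ y ∈ sy, 0 ≤ ra y) (hb : ∀ y ∈ sy, 0 ≤ b y)
    (hrb : ∀ y ∈ sy, 0 ≤ rb y) (hrc : ∀ y ∈ sy, 0 ≤ rc y) (hc : ∀ y ∈ sy, a y * ra y = b y * rb y * rc y)
    (A : ι → Prop) {E : ℝ} (hE : 4 * Real.exp 2 ≤ E) (hot : E * ∑ y ∈ sy, ind (A y) * b y ≤ ∑ y ∈ sy, ind (A y) * a y) :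
    ∑ y ∈ sy, ind (A y) * a y ≤ 8 * ∑ y ∈ sy, a y * hphi (ra y) + 4 * ∑ y ∈ sy, b y * hphi (rb y) +
      11 * ∑ y ∈ sy, (b y * rb y) * hphi (rc y) := by
  set h := ∑ y ∈ sy, ind (A y) * a y with hh
  set h' := ∑ y ∈ sy, ind (A y) * (a y * ra y) with hh'
  set k' := ∑ y ∈ sy, ind (A y) * (b y * rb y) with hk'
  have h0 : 0 ≤ h := Finset.sum_nonneg fun y hy => mul_nonneg (ind_nonneg _) (ha y hy)
  have k0 : 0 ≤ k' := Finset.sum_nonneg fun y hy => mul_nonneg (ind_nonneg _) (mul_nonneg (hb y hy) (hrb y hy))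
  have A0 : 0 ≤ ∑ y ∈ sy, a y * hphi (ra y) :=
    Finset.sum_nonneg fun y hy => mul_nonneg (ha y hy) (hphi_nonneg (hra y hy))
  have B0 : 0 ≤ ∑ y ∈ sy, b y * hphi (rb y) :=
    Finset.sum_nonneg fun y hy => mul_nonneg (hb y hy) (hphi_nonneg (hrb y hy))
  have C0 : 0 ≤ ∑ y ∈ sy, (b y * rb y) * hphi (rc y) :=
    Finset.sum_nonneg fun y hy => mul_nonneg (mul_nonneg (hb y hy) (hrb y hy)) (hphi_nonneg (hrc y hy))
  have key := lin_exit1 ha hra hb hrb A hE hot
  rw [← hh, ← hh', ← hk'] at key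
  by_cases c : k' < h' / 2
  · -- the new laws are different on the row
    by_cases c1 : h' ≤ h / 2
    · have := evt_dual ha hra A (t := 1 / 2) (by norm_num)
      rw [← hh, ← hh'] at this
      have l2 : Real.log (1 / 2) = - Real.log 2 := by
        rw [one_div, Real.log_inv]
      have l3 := Real.log_two_lt_d9
      have l4 : 0 < Real.log 2 := Real.log_pos (by norm_num)
      rw [l2] at this
      have l5 : h' * Real.log 2 ≤ h / 2 * Real.log 2 := mul_le_mul_of_nonneg_right c1 l4.le
      have l6 : h * Real.log 2 ≤ h * 0.6931471808 := mul_le_mul_of_nonneg_left l3.le h0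
      nlinarith
    · push Not at c1
      have := evt_dual (q := fun y => b y * rb y) (r := rc) (fun y hy => mul_nonneg (hb y hy) (hrb y hy)) hrc A
        (t := 2) (by norm_num)
      have e : ∑ y ∈ sy, ind (A y) * (b y * rb y * rc y) = h' :=
        Finset.sum_congr rfl fun y hy => by rw [hc y hy]
      rw [e, ← hk'] at this
      have l3 := Real.log_two_gt_d9
      have l6 : h' * 0.6931471803 ≤ h' * Real.log 2 := mul_le_mul_of_nonneg_left l3.le (by linarith)
      nlinarith
  · push Not at c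
    -- `k' ≥ h' / 2`
    by_cases c1 : h' ≤ h / 2
    · have := evt_dual ha hra A (t := 1 / 2) (by norm_num)
      rw [← hh, ← hh'] at this
      have l2 : Real.log (1 / 2) = - Real.log 2 := by
        rw [one_div, Real.log_inv]
      have l3 := Real.log_two_lt_d9
      have l4 : 0 < Real.log 2 := Real.log_pos (by norm_num)
      rw [l2] at this
      have l5 : h' * Real.log 2 ≤ h / 2 * Real.log 2 := mul_le_mul_of_nonneg_right c1 l4.le
      have l6 : h * Real.log 2 ≤ h * 0.6931471808 := mul_le_mul_of_nonneg_left l3.le h0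
      nlinarith
    · push Not at c1
      set k := ∑ y ∈ sy, ind (A y) * b y with hk
      have kk0 : 0 ≤ k := Finset.sum_nonneg fun y hy => mul_nonneg (ind_nonneg _) (hb y hy)
      have c2 : h / 4 ≤ k' := by linarith
      have E0 : 0 < E := lt_of_lt_of_le (by positivity) hE
      have hE' : E / 4 ≥ Real.exp 2 := by linarith
      have hlog : 2 ≤ Real.log (E / 4) := by
        rw [Real.le_log_iff_exp_le (by positivity)]
        exact hE'
      have := evt_dual hb hrb A (t := E / 4) (by positivity)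
      rw [← hk, ← hk'] at this
      have l1 : h / 4 * 2 ≤ k' * Real.log (E / 4) :=
        mul_le_mul c2 hlog (by norm_num) (le_trans (by positivity) c2)
      have l2 : (E / 4 - 1) * k ≤ h / 4 := by nlinarith
      linarith

end fin

section prob

variable {Om : Type*} [Fintype Om] (P : FP Om) {κ ι β γ : Type*} (X : Om → κ) (X' : Om → ι) (Z : Om → β) (V : Om → γ)

/-- information of `X'` and the true `X` in the state `Z` -/
def infx (w : Om) : ℝ := ∑ y ∈ vals X', P.pv Z X' w y * hphi (rr P Z X' X w (X w) y)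

theorem infx_nn (w : Om) : 0 ≤ infx P X X' Z w :=
  Finset.sum_nonneg fun y _ => mul_nonneg (P.pv_nonneg _ _ _ _) (hphi_nonneg (rr_nn P Z X' X w _ y))

theorem infx_E : P.E (infx P X X' Z) = P.I X X' Z := by
  rw [← gn_eq]
  exact (gn_real P Z X X').symm

/-- product of the old law and the ratio = new law -/
theorem pv_rr {κ : Type*} (F : Om → κ) {w : Om} (hw : P.p w ≠ 0) (y : κ) :
    P.pv Z F w y * rr P Z F V w (V w) y = P.pv (fun u => (V u, Z u)) F w y := by
  have h := real_r P Z F V hw y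
  by_cases h0 : P.pv Z F w y = 0
  · rw [h0, zero_mul]
    exact (P.pv_ac (fun a b hab => (Prod.mk.inj hab).2) F h0).symm
  · rw [← h]
    field_simp

/-- **linear exits at one point, with the information in the new state** -/
theorem lin_exit_Iw {E : ℝ} (hE : 4 * Real.exp 2 ≤ E) {H : Om → κ → ι → Prop} {w : Om} (hw : P.p w ≠ 0)
    (hH : ∀ y ∈ vals X', H w (X w) y → E * (P.pv Z X w (X w) * P.pv Z X' w y) ≤ pj P X X' Z w (X w) y) :
    hotx P X X' Z H w ≤ 8 * ∑ y ∈ vals X', P.pv (fun u => (X u, Z u)) X' w y *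
        hphi (rr P (fun u => (X u, Z u)) X' V w (V w) y) +
      4 * ∑ y ∈ vals X', P.pv Z X' w y * hphi (rr P Z X' V w (V w) y) + 11 * infx P X X' (fun u => (V u, Z u)) w := by
  set ZX : Om → κ × β := fun u => (X u, Z u) with hZX
  have mx := P.pv_self_pos Z X hw
  have e1 := fun y => pv_rr P ZX V X' hw y
  have e2 := fun y => pv_rr P Z V X' hw y
  have e4 := fun y => pv_rr P (fun u => (V u, Z u)) X X' hw y
  have e3 : ∀ y, P.pv Z X w (X w) * P.pv ZX X' w y = pj P X X' Z w (X w) y := by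
    intro y
    have h := pv_V P Z X' X hw y
    have h2 := yq_rr P Z X X' w y (X w)
    have h3 : qy P Z X X' w y (X w) = P.pv Z (fun u => (X' u, X u)) w (y, X w) := rfl
    have h4 : P.pv Z (fun u => (X' u, X u)) w (y, X w) = P.pv Z (fun u => (X u, X' u)) w (X w, y) := by
      unfold FP.pv
      refine congrArg (fun g => P.ce Z g w) ?_
      funext u
      refine congrArg ind (propext ?_)
      simp only [Prod.mk.injEq]
      exact and_comm
    show P.pv Z X w (X w) * P.pv (fun u => (X u, Z u)) X' w y = P.pv Z (fun u => (X u, X' u)) w (X w, y)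
    rw [h, ← h4, ← h3, ← h2]
    ring
  have e5 : ∀ y, P.pv (fun u => (V u, ZX u)) X' w y = P.pv (fun u => (X u, (V u, Z u))) X' w y := by
    intro y
    unfold FP.pv
    exact P.ce_congr_map (fun a b h => by simp only [hZX, Prod.mk.injEq] at h ⊢; tauto)
      (fun a b h => by simp only [hZX, Prod.mk.injEq] at h ⊢; tauto) _ w
  have key := lin_exit2 (sy := vals X') (a := fun y => P.pv ZX X' w y) (ra := fun y => rr P ZX X' V w (V w) y)
    (b := fun y => P.pv Z X' w y) (rb := fun y => rr P Z X' V w (V w) y)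
    (rc := fun y => rr P (fun u => (V u, Z u)) X' X w (X w) y) (fun y _ => P.pv_nonneg _ _ _ _)
    (fun y _ => rr_nn P ZX X' V w _ y) (fun y _ => P.pv_nonneg _ _ _ _) (fun y _ => rr_nn P Z X' V w _ y)
    (fun y _ => rr_nn P _ X' X w _ y) (fun y _ => by rw [e1 y, e2 y, e4 y, e5 y])
    (fun y => H w (X w) y) hE (by
      rw [Finset.mul_sum]
      refine Finset.sum_le_sum fun y hy => ?_
      by_cases h : H w (X w) y
      · rw [ind_of h, one_mul, one_mul]
        have h1 := hH y hy h
        rw [← e3 y] at h1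
        have h2 : P.pv Z X w (X w) * (E * P.pv Z X' w y) ≤ P.pv Z X w (X w) * P.pv ZX X' w y := by linarith
        exact le_of_mul_le_mul_left h2 mx
      · rw [ind_not h]
        simp)
  have s1 : ∑ y ∈ vals X', (P.pv Z X' w y * rr P Z X' V w (V w) y) * hphi (rr P (fun u => (V u, Z u)) X' X w (X w) y) =
      infx P X X' (fun u => (V u, Z u)) w := by
    unfold infx
    exact Finset.sum_congr rfl fun y _ => by rw [e2 y]
  rw [s1] at key
  exact key

/-- **linear exits, one step, with the information in the new state** -/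
theorem lin_exit_I {al : Om → ℝ} (h0 : ∀ w, 0 ≤ al w) (h1 : ∀ w, al w ≤ 1) {E : ℝ} (hE : 4 * Real.exp 2 ≤ E)
    {H : Om → κ → ι → Prop} (hH : ∀ w, P.p w ≠ 0 → al w ≠ 0 → ∀ y ∈ vals X', H w (X w) y →
      E * (P.pv Z X w (X w) * P.pv Z X' w y) ≤ pj P X X' Z w (X w) y) :
    P.E (fun w => al w * hotx P X X' Z H w) ≤ 8 * gn P (fun u => (X u, Z u)) X' V + 4 * gn P Z X' V +
      11 * P.E (fun w => al w * infx P X X' (fun u => (V u, Z u)) w) := by
  rw [gn_real P (fun u => (X u, Z u)) V X', gn_real P Z V X', ← P.E_smul, ← P.E_smul, ← P.E_smul, ← P.E_add, ← P.E_add]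
  refine P.E_mono fun w hw => ?_
  have A0 : 0 ≤ ∑ y ∈ vals X', P.pv (fun u => (X u, Z u)) X' w y *
        hphi (rr P (fun u => (X u, Z u)) X' V w (V w) y) :=
    Finset.sum_nonneg fun y _ => mul_nonneg (P.pv_nonneg _ _ _ _) (hphi_nonneg (rr_nn P _ X' V w _ y))
  have B0 : 0 ≤ ∑ y ∈ vals X', P.pv Z X' w y * hphi (rr P Z X' V w (V w) y) :=
    Finset.sum_nonneg fun y _ => mul_nonneg (P.pv_nonneg _ _ _ _) (hphi_nonneg (rr_nn P _ X' V w _ y))
  by_cases ha : al w = 0
  · rw [ha]
    simp only [zero_mul, mul_zero, add_zero]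
    linarith
  · have key := mul_le_mul_of_nonneg_left (lin_exit_Iw P X X' Z V hE hw (hH w hw ha)) (h0 w)
    have a1 := mul_le_of_le_one_left A0 (h1 w)
    have a2 := mul_le_of_le_one_left B0 (h1 w)
    linarith

end prob

end Flx

end

end Pool.Agent.GMH
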