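import Pool.Agent.GMH.HvDef
import Pool.Agent.GMH.CKB
import Pool.Agent.GMH.P2R
import Pool.Agent.GMH.TopSplit

/-!
# GMH/HvC: THE SUPPRESSED PARTNERS OF AN EXACT VERTEX, the true top suppressed at the digit (helper41; row A6' of H3.LEAN, H4, H5)

* `low_true` : the true letter is rarely suppressed: `Pr (r < c) <= 500 c gn` for `c <= 1/2`;
* `pt_indep` : a point is independent of the hidden point and of the other points;
* `XE q` : entropy of the letter of `k` given its point in the class of the exact vertex `b`; `x_step`, `x_sum` : what the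
  class of `b` learns about the letter of `k` from the digits and the public codes is at most the cost of the private codes of `k`;
* `sup_countX` (H4), `dig_sup` (H5).
-/

set_option autoImplicit false
set_option linter.unusedSectionVars false

namespace Pool.Agent.GMH.Hv

open Finset Pool.Agent.PWZ Pool.Agent.M3 Pool.Agent.GM Pool.Agent.GM.Harm Pool.Agent.GMH Pool.Agent.GMH.NZ
open Pool.Agent.GMH.V3 Pool.Agent.GMH.TP Pool.Agent.GMH.KF

noncomputable section

/-! ### one space -/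

section gen

variable {Om : Type*} [Fintype Om] (P : FP Om)

/-- **the true letter is rarely suppressed** -/
theorem low_true {α γ φ : Type*} (Zb : Om → α) (F : Om → φ) (Y : Om → γ) {c : ℝ} (hc : 0 < c) (hc1 : c ≤ 1 / 2) :
    P.Pr (fun w => rr P Zb F Y w (Y w) (F w) < c) ≤ c * (500 * gn P Zb F Y) := by
  have e0 : P.Pr (fun w => rr P Zb F Y w (Y w) (F w) < c) = P.E (fun w => ind (rr P Zb F Y w (Y w) (F w) < c)) := rfl
  rw [e0, E_pair P Zb F Y (f := fun w y x => ind (rr P Zb F Y w y x < c)) (fun y x a b hab => by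
    show ind (rr P Zb F Y a y x < c) = ind (rr P Zb F Y b y x < c)
    rw [rrc P F Y hab y x])]
  unfold gn
  rw [← P.E_smul, ← P.E_smul]
  refine P.E_mono fun w _ => ?_
  rw [Finset.mul_sum, Finset.mul_sum]
  refine Finset.sum_le_sum fun y _ => ?_
  rw [Finset.mul_sum, Finset.mul_sum]
  refine Finset.sum_le_sum fun x _ => ?_
  have hr := rr_nn P Zb F Y w y x
  have hy := P.pv_nonneg Zb Y w y
  have hx := P.pv_nonneg Zb F w x
  have hp := hphi_nonneg hr
  rw [← yq_rr P Zb F Y w y x]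
  by_cases h1 : rr P Zb F Y w y x < c
  · rw [ind_of h1, mul_one]
    have h2 : (49 / 100 : ℝ) < |rr P Zb F Y w y x - 1| := by
      rw [abs_of_nonpos (by linarith)]
      linarith
    have h3 := (act_num (e := 49 / 100) (by norm_num) (by norm_num) hr h2).1
    have h4 : 1 ≤ 500 * hphi (rr P Zb F Y w y x) := by
      refine h3.trans (mul_le_mul_of_nonneg_right (by norm_num) hp)
    have h5 : rr P Zb F Y w y x ≤ c * (500 * hphi (rr P Zb F Y w y x)) := by
      nlinarith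
    have h6 : P.pv Zb Y w y * (P.pv Zb F w x * rr P Zb F Y w y x) ≤
        P.pv Zb Y w y * (P.pv Zb F w x * (c * (500 * hphi (rr P Zb F Y w y x)))) :=
      mul_le_mul_of_nonneg_left (mul_le_mul_of_nonneg_left h5 hx) hy
    refine h6.trans (le_of_eq ?_)
    ring
  · rw [ind_not h1, mul_zero]
    positivity

/-- independence of `B` and `A` and a function `g` of `B` -/
theorem I_fun0 {κ ι μ ν ρ : Type*} {B : Om → κ} {A : Om → ι} {g : Om → μ} (hg : Fac B g)
    (h0 : P.I B A (fun _ => ()) = 0) {V : Om → ν} {R : Om → ρ} (hV : Fac (fun w => (A w, g w)) V)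
    (hR : Fac (fun w => (A w, g w)) R) : P.I B V (fun w => (R w, g w)) = 0 := by
  have h1 : P.I (fun w => (B w, g w)) A (fun _ => ()) ≤ 0 := by
    rw [← h0]
    exact P.I_mono (X := B) A (fun a b hab => Prod.ext (Prod.mk.inj hab).1 (hg a b (Prod.mk.inj hab).1))
  rw [P.I_chain] at h1
  have h2 := P.I_nonneg g A (fun _ => ())
  have h3 : P.I B A (fun w => (g w, ())) ≤ 0 := by linarith
  have h4 : P.I (fun w => (V w, R w)) B (fun w => (g w, ())) ≤ 0 := by
    rw [P.I_comm] at h3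
    refine le_trans (P.I_mono (X := A) B ?_) h3
    intro a b hab
    have e1 : A a = A b := (Prod.mk.inj hab).1
    have e2 : g a = g b := (Prod.mk.inj (Prod.mk.inj hab).2).1
    have e3 : (A a, g a) = (A b, g b) := Prod.ext e1 e2
    exact Prod.ext (hV a b e3) (hR a b e3)
  rw [P.I_chain] at h4
  have h5 := P.I_nonneg R B (fun w => (g w, ()))
  have h6 : P.I V B (fun w => (R w, g w, ())) ≤ 0 := by linarith
  rw [P.I_comm] at h6
  have h7 : P.I B V (fun w => (R w, g w, ())) = P.I B V (fun w => (R w, g w)) :=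
    P.I_congr_cond (fun a b hab => by
      simp only [Prod.mk.injEq, and_true] at hab
      exact Prod.ext hab.1 hab.2) (fun a b hab => by
      simp only [Prod.mk.injEq] at hab
      simp only [Prod.mk.injEq, and_true]
      exact hab)
  rw [h7] at h6
  exact le_antisymm h6 (P.I_nonneg _ _ _)

end gen

variable {X β γ φ : Type} [Fintype X] [Fintype β] [Fintype φ] [Nonempty X] [Nonempty β]
variable {D : HD (Fin 3) X β γ φ} {al : ℝ} (h : D.Thick al)
  {v : ℕ → Finset (Fin 3) → X → (Fin 3 → β) → Pt (Fin 3) X β φ}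
variable {dg : ℕ → X → ℝ} {prr : ℕ → Fin 3 → φ → φ} {T : ℕ} {Lam n N1 : ℝ}

/-! ### points -/

/-- the hidden point and the other points -/
def Aw (k : Fin 3) (w : Pt (Fin 3) X β φ) : X × (Fin 3 → Option β) :=
  (w.1, fun i => if i = k then Option.none else some (w.2.1 i))

theorem Aw_eq {k : Fin 3} {a b : Pt (Fin 3) X β φ} (hab : Aw k a = Aw k b) :
    a.1 = b.1 ∧ ∀ i, i ≠ k → a.2.1 i = b.2.1 i := by
  refine ⟨(congrArg Prod.fst hab : (Aw k a).1 = (Aw k b).1), fun i hi => ?_⟩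
  have h1 := congrFun (congrArg Prod.snd hab) i
  have h2 : (if i = k then Option.none else some (a.2.1 i)) = (if i = k then Option.none else some (b.2.1 i)) := h1
  rw [if_neg hi, if_neg hi] at h2
  exact Option.some.inj h2

theorem Aw_mk {k : Fin 3} {a b : Pt (Fin 3) X β φ} (h1 : a.1 = b.1) (h2 : ∀ i, i ≠ k → a.2.1 i = b.2.1 i) :
    Aw k a = Aw k b := by
  refine Prod.ext h1 (funext fun i => ?_)
  show (if i = k then Option.none else some (a.2.1 i)) = (if i = k then Option.none else some (b.2.1 i))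
  by_cases hi : i = k
  · rw [if_pos hi, if_pos hi]
  · rw [if_neg hi, if_neg hi, h2 i hi]

/-- **a point is independent of the hidden point and of the other points** -/
theorem pt_indep (t : ℕ) (k : Fin 3) : (D.P h t).Indep (fun w => w.2.1 k) (Aw k) := by
  classical
  intro f g hf hg
  obtain ⟨w0, _⟩ := (D.P h t).exists_p_ne
  obtain ⟨b0⟩ := (inferInstance : Nonempty β)
  set e := Equiv.funSplitAt k β with he
  set f' : β → ℝ := fun b => f (w0.1, fun _ => b, w0.2.2) with hf'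
  set G : X → ({j : Fin 3 // j ≠ k} → β) → ℝ := fun x z => g (x, e.symm (b0, z), w0.2.2) with hG
  have ek : ∀ p : β × ({j : Fin 3 // j ≠ k} → β), e.symm p k = p.1 := fun p => by
    have := congrArg Prod.fst (e.apply_symm_apply p)
    exact this
  have ej : ∀ (p : β × ({j : Fin 3 // j ≠ k} → β)) (j : Fin 3) (hj : j ≠ k), e.symm p j = p.2 ⟨j, hj⟩ := fun p j hj => by
    have := congrFun (congrArg Prod.snd (e.apply_symm_apply p)) ⟨j, hj⟩
    exact this
  have ff : ∀ (x : X) (y : Fin 3 → β) (l : Fin 3 → φ), f (x, y, l) = f' (y k) := fun x y l => hf _ _ rfl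
  have gg : ∀ (x : X) (b : β) (z : {j : Fin 3 // j ≠ k} → β) (l : Fin 3 → φ), g (x, e.symm (b, z), l) = G x z :=
    fun x b z l => hg _ _ (Aw_mk rfl fun j hj => by
      show e.symm (b, z) j = e.symm (b0, z) j
      rw [ej _ j hj, ej _ j hj])
  have gg' : ∀ (x : X) (y : Fin 3 → β) (l : Fin 3 → φ), g (x, y, l) = g (x, y, w0.2.2) := fun x y l => hg _ _ rfl
  have cZ : (Fintype.card β : ℝ) * (Fintype.card ({j : Fin 3 // j ≠ k} → β) : ℝ) = (Fintype.card β : ℝ) ^ 3 := by
    have h1 := Fintype.card_congr e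
    rw [Fintype.card_prod, Fintype.card_fun, Fintype.card_fin] at h1
    exact_mod_cast h1.symm
  have S1 : ∀ F : (Fin 3 → β) → ℝ, ∑ y, F y = ∑ b, ∑ z, F (e.symm (b, z)) := fun F => by
    rw [← Fintype.sum_prod_type' (f := fun b z => F (e.symm (b, z)))]
    exact (Equiv.sum_comp e.symm F).symm
  have E1 : (D.P h t).E f = (∑ _x : X, ∑ y : Fin 3 → β, f' (y k)) / GMH.nn X β (Fin 3) := by
    rw [← E_labels0 h t (fun _ y => f' (y k))]
    exact (D.P h t).E_congr fun w _ => ff w.1 w.2.1 w.2.2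
  have E2 : (D.P h t).E g = (∑ x, ∑ y, g (x, y, w0.2.2)) / GMH.nn X β (Fin 3) := by
    rw [← E_labels0 h t (fun x y => g (x, y, w0.2.2))]
    exact (D.P h t).E_congr fun w _ => gg' w.1 w.2.1 w.2.2
  have E3 : (D.P h t).E (fun w => f w * g w) = (∑ x, ∑ y, f' (y k) * g (x, y, w0.2.2)) / GMH.nn X β (Fin 3) := by
    rw [← E_labels0 h t (fun x y => f' (y k) * g (x, y, w0.2.2))]
    refine (D.P h t).E_congr fun w _ => ?_
    show f w * g w = f' (w.2.1 k) * g (w.1, w.2.1, w0.2.2)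
    rw [← ff w.1 w.2.1 w.2.2, ← gg' w.1 w.2.1 w.2.2]
  set Sf := ∑ b, f' b with hSf
  set SG := ∑ x, ∑ z, G x z with hSG
  have s1 : ∑ _x : X, ∑ y : Fin 3 → β, f' (y k) =
      (Fintype.card X : ℝ) * ((Fintype.card ({j : Fin 3 // j ≠ k} → β) : ℝ) * Sf) := by
    rw [Finset.sum_const, Finset.card_univ, nsmul_eq_mul, S1]
    congr 1
    simp only [ek, Finset.sum_const, Finset.card_univ, nsmul_eq_mul]
    rw [hSf, Finset.mul_sum]
  have s2 : ∑ x, ∑ y, g (x, y, w0.2.2) = (Fintype.card β : ℝ) * SG := by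
    rw [hSG, Finset.mul_sum]
    refine Finset.sum_congr rfl fun x _ => ?_
    rw [S1]
    simp only [gg, Finset.sum_const, Finset.card_univ, nsmul_eq_mul]
  have s3 : ∑ x, ∑ y, f' (y k) * g (x, y, w0.2.2) = Sf * SG := by
    rw [hSG, Finset.mul_sum]
    refine Finset.sum_congr rfl fun x _ => ?_
    rw [S1]
    simp only [gg, ek]
    rw [hSf, Finset.sum_mul]
    refine Finset.sum_congr rfl fun b _ => ?_
    rw [Finset.mul_sum]
  rw [E1, E2, E3, s1, s2, s3]
  have cX : (Fintype.card X : ℝ) ≠ 0 := by exact_mod_cast Fintype.card_ne_zero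
  have cB : (Fintype.card β : ℝ) ≠ 0 := by exact_mod_cast Fintype.card_ne_zero
  have hn : GMH.nn X β (Fin 3) = (Fintype.card X : ℝ) * ((Fintype.card β : ℝ) *
      (Fintype.card ({j : Fin 3 // j ≠ k} → β) : ℝ)) := by
    rw [cZ]
    rfl
  have cZ0 : (Fintype.card ({j : Fin 3 // j ≠ k} → β) : ℝ) ≠ 0 := by
    intro hz
    rw [hz, mul_zero] at cZ
    exact (pow_ne_zero 3 cB) cZ.symm
  rw [hn]
  field_simp

/-! ### letters and public information -/

theorem cells {t : ℕ} {k : Fin 3} {a b : Pt (Fin 3) X β φ} (hab : Aw k a = Aw k b)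
    (hg : D.qb (t + 1) (a.2.1 k) = D.qb (t + 1) (b.2.1 k)) (j : Fin 3) :
    D.qb (t + 1) (a.2.1 j) = D.qb (t + 1) (b.2.1 j) := by
  by_cases hj : j = k
  · rw [hj]; exact hg
  · rw [(Aw_eq hab).2 j hj]

theorem nn_top {t q : ℕ} (hq : q ≤ 5 * t + 5) : TP.nn q ≤ t + 1 := by
  have h1 := nn_mono hq
  rwa [nn_5] at h1

/-- the public information -/
theorem NPq_of (hv : Codes D v) {t q : ℕ} (hq : q ≤ 5 * t + 5) {k : Fin 3} {a b : Pt (Fin 3) X β φ}
    (hab : Aw k a = Aw k b) (hg : D.qb (t + 1) (a.2.1 k) = D.qb (t + 1) (b.2.1 k)) : NPq D v q a = NPq D v q b := by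
  have h1 := (Aw_eq hab).1
  have h2 := cells hab hg
  have h3 := nn_top hq
  have h4 := nc_le q ∅
  unfold NPq
  rw [NP_eq, nd_eq, h1]
  refine ⟨?_, rfl, fun j => qb_mono D h3 (h2 j)⟩
  rw [Um_iff]
  intro r hr
  exact hv r ∅ b.1 a.2.1 b.2.1 (fun j hj => absurd hj (Finset.notMem_empty j)) fun j => qb_mono D (by omega) (h2 j)

/-- the letter of another vertex -/
theorem XLq_of (hv : Codes D v) {t q : ℕ} (hq : q ≤ 5 * t + 5) {k c : Fin 3} (hck : c ≠ k) {a b : Pt (Fin 3) X β φ}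
    (hab : Aw k a = Aw k b) (hg : D.qb (t + 1) (a.2.1 k) = D.qb (t + 1) (b.2.1 k)) : XLq v q c a = XLq v q c b := by
  have h1 := (Aw_eq hab).1
  have h2 := cells hab hg
  have h3 := nn_top hq
  have h4 := nc_le q {c}
  have h5 := (Aw_eq hab).2 c hck
  unfold XLq
  rw [XL_eq]
  refine ⟨h5, ?_⟩
  rw [Um_iff]
  intro r hr
  rw [h1]
  refine hv r {c} b.1 a.2.1 b.2.1 (fun j hj => ?_) fun j => qb_mono D (by omega) (h2 j)
  rw [Finset.mem_singleton.1 hj]
  exact h5

/-- the letters do not move before the private codes -/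
theorem XLq_j (t : ℕ) {j : ℕ} (hj : j ≤ 4) (i : Fin 3) : XLq (φ := φ) v (5 * t + j) i = XLq v (5 * t) i := by
  have h0 := nc_i t 0 (by omega) i
  rw [add_zero, if_neg (by omega)] at h0
  unfold XLq
  rw [nc_i t j (by omega) i, if_neg (by omega), h0]

/-- what the top `i` sees: the letters of the two other vertices and the public information -/
theorem ZbQ_iff {i b k : Fin 3} (hib : i ≠ b) (hik : i ≠ k) (hkb : k ≠ b) {q : ℕ} {x y : Pt (Fin 3) X β φ} :
    ZbQ D v q i x = ZbQ D v q i y ↔ XLq v q b x = XLq v q b y ∧ XLq v q k x = XLq v q k y ∧ NPq D v q x = NPq D v q y := by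
  have hmem : ∀ j : Fin 3, j ∈ univ.erase i ↔ j = b ∨ j = k := by
    intro j
    rw [Finset.mem_erase]
    have key : ∀ i b k j : Fin 3, i ≠ b → i ≠ k → k ≠ b → (j ≠ i ↔ j = b ∨ j = k) := by decide
    have := key i b k j hib hik hkb
    exact ⟨fun hh => this.1 hh.1, fun hh => ⟨this.2 hh, mem_univ j⟩⟩
  have hno : ∀ I : Finset (Fin 3), I.card ≤ 1 → ∀ l, univ.erase l ≠ I := fun I hI l => er_ne_thin hI
  have hs1 : ∀ j : Fin 3, j = b ∨ j = k → ({j} : Finset (Fin 3)) ⊂ univ.erase i := by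
    have key : ∀ i b k j : Fin 3, i ≠ b → i ≠ k → k ≠ b → (j = b ∨ j = k) → ({j} : Finset (Fin 3)) ⊂ univ.erase i := by
      decide
    exact fun j => key i b k j hib hik hkb
  have hs0 : (∅ : Finset (Fin 3)) ⊂ univ.erase i := by
    have key : ∀ i : Fin 3, (∅ : Finset (Fin 3)) ⊂ univ.erase i := by decide
    exact key i
  have hs2 : ∀ I : Finset (Fin 3), I ⊂ univ.erase i → I = ∅ ∨ I = {b} ∨ I = {k} := by
    have key : ∀ i b k : Fin 3, i ≠ b → i ≠ k → k ≠ b → ∀ I : Finset (Fin 3), I ⊂ univ.erase i → I = ∅ ∨ I = {b} ∨ I = {k} := by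
      decide
    exact key i b k hib hik hkb
  have hSL : ∀ I : Finset (Fin 3), I.card ≤ 1 → (SL (φ := φ) v q I x = SL v q I y ↔
      Um v (nc q I) I x.1 x.2.1 = Um v (nc q I) I y.1 y.2.1) := by
    intro I hI
    unfold SL
    rw [LL_eq]
    exact ⟨fun hh => hh.1, fun hh => ⟨hh, fun l hl => absurd hl (hno I hI l)⟩⟩
  have c0 : (∅ : Finset (Fin 3)).card ≤ 1 := by simp
  have c1 : ∀ j : Fin 3, ({j} : Finset (Fin 3)).card ≤ 1 := fun j => by simp
  unfold ZbQ XLq NPq
  rw [Prod.mk.injEq, lo_eq, BB_eq, XL_eq, XL_eq, NP_eq, nd_eq]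
  constructor
  · rintro ⟨h1, h2, h3, h4⟩
    exact ⟨⟨h2 b ((hmem b).2 (Or.inl rfl)), (hSL {b} (c1 b)).1 (h1 {b} (hs1 b (Or.inl rfl)))⟩,
      ⟨h2 k ((hmem k).2 (Or.inr rfl)), (hSL {k} (c1 k)).1 (h1 {k} (hs1 k (Or.inr rfl)))⟩,
      (hSL ∅ c0).1 (h1 ∅ hs0), h3, h4⟩
  · rintro ⟨⟨h1, h2⟩, ⟨h3, h4⟩, h5, h6, h7⟩
    refine ⟨fun I hI => ?_, fun j hj => ?_, h6, h7⟩
    · rcases hs2 I hI with rfl | rfl | rfl
      · exact (hSL ∅ c0).2 h5
      · exact (hSL {b} (c1 b)).2 h2
      · exact (hSL {k} (c1 k)).2 h4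
    · rcases (hmem j).1 hj with rfl | rfl
      · exact h1
      · exact h3

/-! ### the letter of the partner in the class of the exact vertex -/

variable (D v) in
/-- class of the exact vertex, with the cell of the next digit of the partner -/
def Zc (b k : Fin 3) (t q : ℕ) (w : Pt (Fin 3) X β φ) := ((XLq v (5 * t) b w, NPq D v q w), D.qb (t + 1) (w.2.1 k))

variable (v) in
/-- entropy of the letter of the partner in the class of the exact vertex -/
def XE (b k : Fin 3) (q : ℕ) : ℝ := (D.P h 0).Hc (XLq v q k) (fun w => (w.2.1 k, (XLq v q b w, NPq D v q w)))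

theorem XE_nn (b k : Fin 3) (q : ℕ) : 0 ≤ XE h v b k q := FP.Hc_nonneg _ _ _

theorem XE_time (b k : Fin 3) (q t : ℕ) :
    XE h v b k q = (D.P h t).Hc (XLq v q k) (fun w => (w.2.1 k, (XLq v q b w, NPq D v q w))) :=
  Dead.Hc_time h (CKB.dry_XLq q k) ((TP.dry_pt k).prod ((CKB.dry_XLq q b).prod (CKB.dry_NPq q))) 0 t

/-- what the class of `b` learns about the letter of `k` -/
theorem x_step (hv : Codes D v) {b k : Fin 3} (hkb : k ≠ b) (t : ℕ) {j : ℕ} (hj : j ≤ 1) :
    gn (D.P h t) (Zc D v b k t (5 * t + j)) (XLq v (5 * t) k) (NPq D v (5 * t + j + 1)) + XE h v b k (5 * t + j + 1) ≤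
      XE h v b k (5 * t + j) := by
  have h0 : (D.P h t).I (fun w => w.2.1 k) (NPq D v (5 * t + j + 1)) (Zc D v b k t (5 * t + j)) = 0 := by
    refine I_fun0 (D.P h t) (B := fun w => w.2.1 k) (A := Aw k) (g := fun w => D.qb (t + 1) (w.2.1 k))
      (V := NPq D v (5 * t + j + 1)) (R := fun w => (XLq v (5 * t) b w, NPq D v (5 * t + j) w)) ?_
      (I_of_indep (pt_indep h t k)) ?_ ?_
    · intro a b' hab
      show D.qb (t + 1) (a.2.1 k) = D.qb (t + 1) (b'.2.1 k)
      rw [show a.2.1 k = b'.2.1 k from hab]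
    · intro a b' hab
      exact NPq_of hv (by omega) (Prod.mk.inj hab).1 (Prod.mk.inj hab).2
    · intro a b' hab
      exact Prod.ext (XLq_of hv (by omega) hkb.symm (Prod.mk.inj hab).1 (Prod.mk.inj hab).2)
        (NPq_of hv (by omega) (Prod.mk.inj hab).1 (Prod.mk.inj hab).2)
  have h1 : Fac (fun w => (w.2.1 k, (XLq v (5 * t + j + 1) b w, NPq D v (5 * t + j + 1) w)))
      (fun w => (NPq D v (5 * t + j + 1) w, w.2.1 k, Zc D v b k t (5 * t + j) w)) := by
    intro a b' hab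
    have e1 : a.2.1 k = b'.2.1 k := (Prod.mk.inj hab).1
    have e2 : XLq v (5 * t + j + 1) b a = XLq v (5 * t + j + 1) b b' := (Prod.mk.inj (Prod.mk.inj hab).2).1
    have e3 : NPq D v (5 * t + j + 1) a = NPq D v (5 * t + j + 1) b' := (Prod.mk.inj (Prod.mk.inj hab).2).2
    have e4 : XLq v (5 * t) b a = XLq v (5 * t) b b' := by
      have := XLq_j (φ := φ) (v := v) t (j := j + 1) (by omega) b
      rw [← add_assoc] at this
      rw [← this]
      exact e2
    have e5 := NPq_mono (φ := φ) (D := D) (v := v) (show 5 * t + j ≤ 5 * t + j + 1 by omega) a b' e3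
    show (NPq D v (5 * t + j + 1) a, a.2.1 k, ((XLq v (5 * t) b a, NPq D v (5 * t + j) a), D.qb (t + 1) (a.2.1 k))) =
      (NPq D v (5 * t + j + 1) b', b'.2.1 k, ((XLq v (5 * t) b b', NPq D v (5 * t + j) b'), D.qb (t + 1) (b'.2.1 k)))
    rw [e1, e3, e4, e5]
  have h2 := GS.gain_step (D.P h t) (XX := XLq v (5 * t) k) h0 h1
  have e0 : gn (D.P h t) (Zc D v b k t (5 * t + j)) (XLq v (5 * t) k) (NPq D v (5 * t + j + 1)) =
      (D.P h t).I (XLq v (5 * t) k) (NPq D v (5 * t + j + 1)) (Zc D v b k t (5 * t + j)) := by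
    rw [gn_eq, (D.P h t).I_comm]
  have e1 : XE h v b k (5 * t + j + 1) = (D.P h t).Hc (XLq v (5 * t) k)
      (fun w => (w.2.1 k, (XLq v (5 * t + j + 1) b w, NPq D v (5 * t + j + 1) w))) := by
    rw [XE_time h b k _ t]
    have := XLq_j (φ := φ) (v := v) t (j := j + 1) (by omega) k
    rw [← add_assoc] at this
    rw [this]
  have e2 : (D.P h t).Hc (XLq v (5 * t) k) (fun w => (w.2.1 k, Zc D v b k t (5 * t + j) w)) ≤ XE h v b k (5 * t + j) := by
    rw [XE_time h b k _ t, XLq_j (φ := φ) (v := v) t (j := j) (by omega) k]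
    refine (D.P h t).Hc_anti _ ?_
    intro a b' hab
    have f1 : a.2.1 k = b'.2.1 k := (Prod.mk.inj hab).1
    have f2 : ((XLq v (5 * t) b a, NPq D v (5 * t + j) a), D.qb (t + 1) (a.2.1 k)) =
      ((XLq v (5 * t) b b', NPq D v (5 * t + j) b'), D.qb (t + 1) (b'.2.1 k)) := (Prod.mk.inj hab).2
    have f3 := (Prod.mk.inj (Prod.mk.inj f2).1).1
    have f4 := (Prod.mk.inj (Prod.mk.inj f2).1).2
    simp only [Prod.mk.injEq]
    refine ⟨f1, ?_, f4⟩
    rw [XLq_j (φ := φ) (v := v) t (j := j) (by omega) b]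
    exact f3
  rw [e0, e1]
  exact h2.trans e2

/-- births of the letter -/
theorem x_birth (b k : Fin 3) (q : ℕ) : XE h v b k (q + 1) ≤ XE h v b k q + CKB.cq h v q k := by
  unfold XE
  have h1 : (D.P h 0).Hc (XLq v (q + 1) k) (fun w => (w.2.1 k, (XLq v (q + 1) b w, NPq D v (q + 1) w))) ≤
      (D.P h 0).Hc (fun w => (XLq v (q + 1) k w, XLq v q k w))
        (fun w => (w.2.1 k, (XLq v (q + 1) b w, NPq D v (q + 1) w))) :=
    (D.P h 0).Hc_mono _ ((Fac.fst _ _).trans (Fac.fst _ _))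
  rw [(D.P h 0).Hc_chain (XLq v (q + 1) k) (XLq v q k)] at h1
  have h2 : (D.P h 0).Hc (XLq v q k) (fun w => (w.2.1 k, (XLq v (q + 1) b w, NPq D v (q + 1) w))) ≤
      (D.P h 0).Hc (XLq v q k) (fun w => (w.2.1 k, (XLq v q b w, NPq D v q w))) := by
    refine (D.P h 0).Hc_anti _ ?_
    intro a b' hab
    have f1 := (Prod.mk.inj hab).1
    have f2 := (Prod.mk.inj (Prod.mk.inj hab).2).1
    have f3 := (Prod.mk.inj (Prod.mk.inj hab).2).2
    exact Prod.ext f1 (Prod.ext (CKB.XLq_fac q b a b' f2) (CKB.NPq_fac q a b' f3))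
  have h3 : (D.P h 0).Hc (XLq v (q + 1) k) (fun w => (XLq v q k w, (w.2.1 k, (XLq v (q + 1) b w, NPq D v (q + 1) w)))) ≤
      CKB.cq h v q k := by
    refine le_trans ((D.P h 0).Hc_anti _ ?_) (CKB.step_q h 0 q k)
    intro a b' hab
    simp only [Prod.mk.injEq] at hab ⊢
    exact ⟨hab.1, hab.2.1, hab.2.2.2⟩
  linarith

theorem x_start (b k : Fin 3) : XE h v b k 0 ≤ cst h v 0 {k} := by
  rw [← CKB.start_q h (v := v) 0 k]
  unfold XE
  refine (D.P h 0).Hc_anti _ ?_
  intro a b' hab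
  simp only [Prod.mk.injEq] at hab ⊢
  exact ⟨hab.1, hab.2.2⟩

/-- **THE BUDGET OF THE CLASS OF THE EXACT VERTEX** : all it learns about the letter of the partner -/
theorem x_sum (H : D.Hyp dg prr al T Lam) (R : Run h (pr3 (Fin 3) n N1) (SS1 (Fin 3)) (AdmDep D) v) (hn : 1 ≤ n)
    (hN1 : 1 ≤ N1) (b k : Fin 3) : ∑ t ∈ range T, (XE h v b k (5 * t) - XE h v b k (5 * t + 2)) ≤ 3 * (n * Lam) := by
  have key : ∀ S, ∑ t ∈ range S, (XE h v b k (5 * t) - XE h v b k (5 * t + 2)) + XE h v b k (5 * S) ≤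
      XE h v b k 0 + ∑ q ∈ range (5 * S), CKB.cq h v q k := by
    intro S
    induction S with
    | zero => simp
    | succ S ih =>
      have c0 := CKB.cq_nonneg h (v := v) (5 * S) k
      have c1 := CKB.cq_nonneg h (v := v) (5 * S + 1) k
      have b2 := x_birth h (v := v) b k (5 * S + 1 + 1)
      have b3 := x_birth h (v := v) b k (5 * S + 1 + 1 + 1)
      have b4 := x_birth h (v := v) b k (5 * S + 1 + 1 + 1 + 1)
      rw [Finset.sum_range_succ, show 5 * (S + 1) = 5 * S + 1 + 1 + 1 + 1 + 1 by ring, Finset.sum_range_succ,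
        Finset.sum_range_succ, Finset.sum_range_succ, Finset.sum_range_succ, Finset.sum_range_succ]
      rw [show 5 * S + 2 = 5 * S + 1 + 1 by ring]
      linarith
  have h1 := key T
  have h2 := XE_nn h (v := v) b k (5 * T)
  have h3 := x_start h (v := v) b k
  have h4 := GMH.cost_thin rfl H hn hN1 R k
  rw [CKB.sum_cq] at h1
  rw [Finset.sum_range_succ'] at h4
  linarith

/-! ### the ratio of the partner -/

/-- expected by the class of the exact vertex, suppressed for the top: the letter of the partner is suppressed -/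
theorem rr_small {i b k : Fin 3} (hib : i ≠ b) (hik : i ≠ k) (hkb : k ≠ b) {B eps : ℝ} (hB : 16 ≤ B * eps) (he : 0 < eps)
    {t j : ℕ} (hj : j ≤ 1) {w : Pt (Fin 3) X β φ} (hw : (D.P h t).p w ≠ 0) (hok : eps ≤ pX h v t (5 * t + j + 1) b w)
    (hs : B * (D.P h t).m (ZbQ D v (5 * t + j + 1) i) w < (D.P h t).m (ZbQ D v (5 * t + j) i) w) :
    rr (D.P h t) (Zc D v b k t (5 * t + j)) (XLq v (5 * t) k) (NPq D v (5 * t + j + 1)) w (NPq D v (5 * t + j + 1) w)
      (XLq v (5 * t) k w) < 1 / 16 := by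
  set P := D.P h t with hP
  have xb : ∀ c : Fin 3, XLq (φ := φ) v (5 * t + j + 1) c = XLq v (5 * t) c := fun c => by
    have := XLq_j (φ := φ) (v := v) t (j := j + 1) (by omega) c
    rwa [← add_assoc] at this
  have xa : ∀ c : Fin 3, XLq (φ := φ) v (5 * t + j) c = XLq v (5 * t) c := fun c =>
    XLq_j (φ := φ) (v := v) t (j := j) (by omega) c
  have hnn : TP.nn (5 * t + j + 1) = t + 1 := by
    rw [show 5 * t + j + 1 = 5 * t + (j + 1) by ring, nn_add t (j + 1) (by omega)]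
    unfold nnj
    rw [if_neg (by omega)]
  have hcell : Fac (NPq (φ := φ) D v (5 * t + j + 1)) (fun w => D.qb (t + 1) (w.2.1 k)) := by
    intro a b' hab
    have h1 : nd D (TP.nn (5 * t + j + 1)) a = nd D (TP.nn (5 * t + j + 1)) b' := congrArg Prod.snd hab
    rw [hnn] at h1
    exact (nd_eq.1 h1).2 k
  have hmono := NPq_mono (φ := φ) (D := D) (v := v) (show 5 * t + j ≤ 5 * t + j + 1 by omega)
  have hmono0 := NPq_mono (φ := φ) (D := D) (v := v) (show 5 * t ≤ 5 * t + j by omega)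
  -- the masses
  have e1 : P.m (fun u => ((NPq D v (5 * t + j + 1) u, XLq v (5 * t) k u), Zc D v b k t (5 * t + j) u)) w =
      P.m (ZbQ D v (5 * t + j + 1) i) w := by
    refine P.m_congr (fun a b' hab => ?_) (fun a b' hab => ?_) w
    · have f1 := (Prod.mk.inj (Prod.mk.inj hab).1).1
      have f2 := (Prod.mk.inj (Prod.mk.inj hab).1).2
      have f3 := (Prod.mk.inj (Prod.mk.inj (Prod.mk.inj hab).2).1).1
      rw [ZbQ_iff hib hik hkb, xb, xb]
      exact ⟨f3, f2, f1⟩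
    · rw [ZbQ_iff hib hik hkb, xb, xb] at hab
      obtain ⟨f1, f2, f3⟩ := hab
      refine Prod.ext (Prod.ext f3 f2) (Prod.ext (Prod.ext f1 (hmono a b' f3)) (hcell a b' f3))
  have e2 : P.m (fun u => (XLq v (5 * t) k u, Zc D v b k t (5 * t + j) u)) w = P.m (ZbQ D v (5 * t + j) i) w := by
    refine P.m_congr (fun a b' hab => ?_) (fun a b' hab => ?_) w
    · have f2 := (Prod.mk.inj hab).1
      have f3 := (Prod.mk.inj (Prod.mk.inj (Prod.mk.inj hab).2).1).1
      have f4 := (Prod.mk.inj (Prod.mk.inj (Prod.mk.inj hab).2).1).2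
      rw [ZbQ_iff hib hik hkb, xa, xa]
      exact ⟨f3, f2, f4⟩
    · rw [ZbQ_iff hib hik hkb, xa, xa] at hab
      obtain ⟨f1, f2, f3⟩ := hab
      refine Prod.ext f2 (Prod.ext (Prod.ext f1 f3) ?_)
      show D.qb (t + 1) (a.2.1 k) = D.qb (t + 1) (b'.2.1 k)
      rw [show a.2.1 k = b'.2.1 k from congrArg Prod.fst f2]
  have e3 : P.m (fun u => (NPq D v (5 * t + j + 1) u, Zc D v b k t (5 * t + j) u)) w =
      P.m (fun u => (XLq v (5 * t) b u, NPq D v (5 * t + j + 1) u)) w := by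
    refine P.m_congr (fun a b' hab => ?_) (fun a b' hab => ?_) w
    · have f2 := (Prod.mk.inj hab).1
      have f3 := (Prod.mk.inj (Prod.mk.inj (Prod.mk.inj hab).2).1).1
      exact Prod.ext f3 f2
    · have f1 := (Prod.mk.inj hab).1
      have f2 := (Prod.mk.inj hab).2
      exact Prod.ext f2 (Prod.ext (Prod.ext f1 (hmono a b' f2)) (hcell a b' f2))
  have e4 : P.m (Zc D v b k t (5 * t + j)) w ≤ P.m (CX D v (5 * t) b) w := by
    refine P.E_mono fun a _ => ind_mono fun hab => ?_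
    have f1 := (Prod.mk.inj (Prod.mk.inj hab).1).1
    have f2 := (Prod.mk.inj (Prod.mk.inj hab).1).2
    exact Prod.ext f1 (hmono0 a w f2)
  have q1 : qy P (Zc D v b k t (5 * t + j)) (XLq v (5 * t) k) (NPq D v (5 * t + j + 1)) w (NPq D v (5 * t + j + 1) w)
      (XLq v (5 * t) k w) = P.m (ZbQ D v (5 * t + j + 1) i) w / P.m (Zc D v b k t (5 * t + j)) w := by
    rw [← e1]
    exact P.pv_self (Zc D v b k t (5 * t + j)) (fun u => (NPq D v (5 * t + j + 1) u, XLq v (5 * t) k u)) w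
  have q2 : P.pv (Zc D v b k t (5 * t + j)) (NPq D v (5 * t + j + 1)) w (NPq D v (5 * t + j + 1) w) =
      P.m (fun u => (XLq v (5 * t) b u, NPq D v (5 * t + j + 1) u)) w / P.m (Zc D v b k t (5 * t + j)) w := by
    rw [← e3]
    exact P.pv_self _ _ w
  have q3 : P.pv (Zc D v b k t (5 * t + j)) (XLq v (5 * t) k) w (XLq v (5 * t) k w) =
      P.m (ZbQ D v (5 * t + j) i) w / P.m (Zc D v b k t (5 * t + j)) w := by
    rw [← e2]
    exact P.pv_self _ _ w
  unfold rr
  rw [q1, q2, q3]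
  unfold pX at hok
  rw [← hP] at hok
  have m3 := P.m_pos (ZbQ D v (5 * t + j + 1) i) hw
  have m2 := P.m_pos (ZbQ D v (5 * t + j) i) hw
  have mZ := P.m_pos (Zc D v b k t (5 * t + j)) hw
  have mY := P.m_pos (fun u => (XLq v (5 * t) b u, NPq D v (5 * t + j + 1) u)) hw
  have m0 := P.m_pos (CX D v (5 * t) b) hw
  rw [le_div_iff₀ m0] at hok
  set M3 := P.m (ZbQ D v (5 * t + j + 1) i) w
  set M2 := P.m (ZbQ D v (5 * t + j) i) w
  set MZ := P.m (Zc D v b k t (5 * t + j)) w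
  set MY := P.m (fun u => (XLq v (5 * t) b u, NPq D v (5 * t + j + 1) u)) w
  set M0 := P.m (CX D v (5 * t) b) w
  have r1 : M3 / MZ / (MY / MZ * (M2 / MZ)) = M3 * MZ / (MY * M2) := by
    field_simp
  rw [r1, div_lt_iff₀ (mul_pos mY m2)]
  have r2 : B * M3 * (eps * M0) < M2 * (eps * M0) := mul_lt_mul_of_pos_right hs (mul_pos he m0)
  have r3 : M2 * (eps * M0) ≤ M2 * MY := mul_le_mul_of_nonneg_left hok m2.le
  have r4 : 16 * (M3 * M0) ≤ B * eps * (M3 * M0) := mul_le_mul_of_nonneg_right hB (mul_pos m3 m0).le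
  have r5 : M3 * MZ ≤ M3 * M0 := mul_le_mul_of_nonneg_left e4 m3.le
  have r6 : B * M3 * (eps * M0) = B * eps * (M3 * M0) := by ring
  have r7 : M2 * MY = MY * M2 := mul_comm _ _
  linarith

/-- one step of the public information -/
theorem sup_one (hv : Codes D v) {i b k : Fin 3} (hib : i ≠ b) (hik : i ≠ k) (hkb : k ≠ b) {B eps : ℝ}
    (hB : 16 ≤ B * eps) (he : 0 < eps) {t j : ℕ} (hj : j ≤ 1) :
    (D.P h t).Pr (fun w => eps ≤ pX h v t (5 * t + j + 1) b w ∧
      B * (D.P h t).m (ZbQ D v (5 * t + j + 1) i) w < (D.P h t).m (ZbQ D v (5 * t + j) i) w) ≤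
      32 * (XE h v b k (5 * t) - XE h v b k (5 * t + 2)) := by
  have h1 := low_true (D.P h t) (Zc D v b k t (5 * t + j)) (XLq v (5 * t) k) (NPq D v (5 * t + j + 1))
    (c := 1 / 16) (by norm_num) (by norm_num)
  have h2 : (D.P h t).Pr (fun w => eps ≤ pX h v t (5 * t + j + 1) b w ∧
      B * (D.P h t).m (ZbQ D v (5 * t + j + 1) i) w < (D.P h t).m (ZbQ D v (5 * t + j) i) w) ≤
      (D.P h t).Pr (fun w => rr (D.P h t) (Zc D v b k t (5 * t + j)) (XLq v (5 * t) k) (NPq D v (5 * t + j + 1)) w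
        (NPq D v (5 * t + j + 1) w) (XLq v (5 * t) k w) < 1 / 16) :=
    (D.P h t).Pr_mono fun w hw hh => rr_small h hib hik hkb hB he hj hw hh.1 hh.2
  have s0 := x_step h hv hkb t (j := 0) (by omega)
  have s1 := x_step h hv hkb t (j := 1) (by omega)
  have g0 := gn_nn (D.P h t) (Zc D v b k t (5 * t + 0)) (XLq v (5 * t) k) (NPq D v (5 * t + 0 + 1))
  have g1 := gn_nn (D.P h t) (Zc D v b k t (5 * t + 1)) (XLq v (5 * t) k) (NPq D v (5 * t + 1 + 1))
  have s : gn (D.P h t) (Zc D v b k t (5 * t + j)) (XLq v (5 * t) k) (NPq D v (5 * t + j + 1)) ≤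
      XE h v b k (5 * t) - XE h v b k (5 * t + 2) := by
    rw [add_zero] at s0 g0
    rw [show 5 * t + 1 + 1 = 5 * t + 2 by ring] at s1 g1
    have hj' : j = 0 ∨ j = 1 := by omega
    rcases hj' with rfl | rfl
    · rw [add_zero]
      linarith
    · rw [show 5 * t + 1 + 1 = 5 * t + 2 by ring]
      linarith
  have g : 0 ≤ gn (D.P h t) (Zc D v b k t (5 * t + j)) (XLq v (5 * t) k) (NPq D v (5 * t + j + 1)) := gn_nn _ _ _ _
  linarith

/-- the step of the private codes -/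
theorem sup_five {i b k : Fin 3} (hib : i ≠ b) (hik : i ≠ k) (hkb : k ≠ b) {B : ℝ} (hB : 2 ≤ B) (t : ℕ) :
    (D.P h t).Pr (fun w => B * (D.P h t).m (ZbQ D v (5 * t + 5) i) w < (D.P h t).m (ZbQ D v (5 * t + 4) i) w) ≤
      2 * (cst h v (t + 1) {b} + cst h v (t + 1) {k}) := by
  have h1 : (D.P h t).Pr (fun w => B * (D.P h t).m (ZbQ D v (5 * t + 5) i) w < (D.P h t).m (ZbQ D v (5 * t + 4) i) w) ≤
      (D.P h t).Pr (fun w => 2 * (D.P h t).m (ZbQ D v (5 * t + 5) i) w < (D.P h t).m (ZbQ D v (5 * t + 4) i) w) := by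
    refine (D.P h t).Pr_mono fun w hw hh => ?_
    have m := ((D.P h t).m_pos (ZbQ D v (5 * t + 5) i) hw).le
    have : 2 * (D.P h t).m (ZbQ D v (5 * t + 5) i) w ≤ B * (D.P h t).m (ZbQ D v (5 * t + 5) i) w :=
      mul_le_mul_of_nonneg_right hB m
    linarith
  have h2 := TD.C5.Pr_light (D.P h t) (ZbQ D v (5 * t + 4) i) (ZbQ D v (5 * t + 5) i) (ZbQ_mono (by omega) i)
  have eN : NPq (φ := φ) D v (5 * t + 5) = NPq D v (5 * t + 4) := by
    have a1 := CKB.NPq_new (φ := φ) (D := D) (v := v) (t := t) (j := 4) (by omega) (by omega)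
    have a2 := CKB.NPq_new (φ := φ) (D := D) (v := v) (t := t) (j := 3) (by omega) (by omega)
    exact a1.trans a2.symm
  have h3 : (D.P h t).Hc (ZbQ D v (5 * t + 5) i) (ZbQ D v (5 * t + 4) i) ≤
      (D.P h t).Hc (fun w => (XLq v (5 * t + 5) b w, XLq v (5 * t + 5) k w)) (ZbQ D v (5 * t + 4) i) := by
    refine (D.P h t).Hc_mono _ ?_
    intro x y hxy
    have f1 := (Prod.mk.inj (Prod.mk.inj hxy).1).1
    have f2 := (Prod.mk.inj (Prod.mk.inj hxy).1).2
    have f3 := (Prod.mk.inj hxy).2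
    rw [ZbQ_iff hib hik hkb] at f3 ⊢
    exact ⟨f1, f2, by rw [eN]; exact f3.2.2⟩
  have hF : ∀ c : Fin 3, (c = b ∨ c = k) → Fac (ZbQ (φ := φ) D v (5 * t + 4) i)
      (fun w => (XLq v (5 * t + 4) c w, w.2.1 c, NPq D v (5 * t + 4 + 1) w)) := by
    intro c hc x y hxy
    rw [ZbQ_iff hib hik hkb] at hxy
    have f1 : XLq v (5 * t + 4) c x = XLq v (5 * t + 4) c y := by
      rcases hc with rfl | rfl
      · exact hxy.1
      · exact hxy.2.1
    have f2 : x.2.1 c = y.2.1 c := congrArg Prod.fst f1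
    show (XLq v (5 * t + 4) c x, x.2.1 c, NPq D v (5 * t + 5) x) = (XLq v (5 * t + 4) c y, y.2.1 c, NPq D v (5 * t + 5) y)
    rw [f1, f2, eN, hxy.2.2]
  have h4 := Hc_pair_le (D.P h t) (F := XLq v (5 * t + 5) b) (G := XLq v (5 * t + 5) k) (hF b (Or.inl rfl))
    (hF k (Or.inr rfl))
  have h5 := CKB.step_q h (v := v) t (5 * t + 4) b
  have h6 := CKB.step_q h (v := v) t (5 * t + 4) k
  have c1 : ∀ c : Fin 3, CKB.cq h v (5 * t + 4) c ≤ cst h v (t + 1) {c} := fun c => by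
    unfold CKB.cq
    rw [show (5 * t + 4) / 5 = t by omega]
    exact mul_le_of_le_one_left (cst_nonneg h _ _) (ind_le_one _)
  have h7 : (D.P h t).Hc (ZbQ D v (5 * t + 5) i) (ZbQ D v (5 * t + 4) i) ≤ cst h v (t + 1) {b} + cst h v (t + 1) {k} := by
    have := c1 b
    have := c1 k
    refine h3.trans (h4.trans ?_)
    have h5' : (D.P h t).Hc (XLq v (5 * t + 5) b) (fun w => (XLq v (5 * t + 4) b w, w.2.1 b, NPq D v (5 * t + 4 + 1) w)) ≤
      CKB.cq h v (5 * t + 4) b := h5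
    have h6' : (D.P h t).Hc (XLq v (5 * t + 5) k) (fun w => (XLq v (5 * t + 4) k w, w.2.1 k, NPq D v (5 * t + 4 + 1) w)) ≤
      CKB.cq h v (5 * t + 4) k := h6
    linarith
  refine h1.trans (h2.trans ?_)
  rw [div_le_iff₀ (Real.log_pos (by norm_num))]
  have hl := Real.log_two_gt_d9
  have p1 := cst_nonneg h (v := v) (t + 1) {b}
  have p2 := cst_nonneg h (v := v) (t + 1) {k}
  nlinarith

theorem cst_sum1 (H : D.Hyp dg prr al T Lam) (R : Run h (pr3 (Fin 3) n N1) (SS1 (Fin 3)) (AdmDep D) v) (hn : 1 ≤ n)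
    (hN1 : 1 ≤ N1) (b : Fin 3) : ∑ t ∈ range T, cst h v (t + 1) {b} ≤ 3 * (n * Lam) := by
  have h4 := GMH.cost_thin rfl H hn hN1 R b
  rw [Finset.sum_range_succ'] at h4
  have := cst_nonneg h (v := v) 0 {b}
  linarith

/-- **(H4) THE NUMBER OF THE SUPPRESSED PARTNERS OF AN EXACT VERTEX** -/
theorem sup_countX (H : D.Hyp dg prr al T Lam) (R : Run h (pr3 (Fin 3) n N1) (SS1 (Fin 3)) (AdmDep D) v) (hn : 1 ≤ n)
    (hN1 : 1 ≤ N1) {i b k : Fin 3} (hib : i ≠ b) (hik : i ≠ k) (hkb : k ≠ b) {B eps : ℝ} (hB : 16 ≤ B * eps) (he : 0 < eps)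
    (he1 : eps ≤ 1) {s : Fin 6} (hs : s = 0 ∨ s = 2 ∨ s = 5) :
    ∑ t ∈ range T, (D.P h t).Pr (fun w => ok h v eps s t b k w ∧ sup h v B s t i w) ≤ 1000 * (n * Lam) := by
  have hL := H.Lam1
  have hnL : 0 ≤ n * Lam := by positivity
  have x1 := x_sum h H R hn hN1 b k
  have hB2 : 2 ≤ B := by
    by_contra hcon
    push Not at hcon
    have : B * eps < 16 := by
      rcases le_or_gt B 0 with hb | hb
      · have := mul_nonpos_of_nonpos_of_nonneg hb he.le
        linarith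
      · nlinarith
    linarith
  rcases hs with rfl | rfl | rfl
  · have k1 : ∀ t ∈ range T, (D.P h t).Pr (fun w => ok h v eps 0 t b k w ∧ sup h v B 0 t i w) ≤
        32 * (XE h v b k (5 * t) - XE h v b k (5 * t + 2)) := fun t _ => by
      refine le_trans ((D.P h t).Pr_mono fun w _ hh => ?_) (sup_one h R.codes hib hik hkb hB he (t := t) (j := 0) (by omega))
      exact ⟨hh.1.1 (by decide), hh.2⟩
    have k2 := Finset.sum_le_sum k1
    rw [← Finset.mul_sum] at k2
    linarith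
  · have k1 : ∀ t ∈ range T, (D.P h t).Pr (fun w => ok h v eps 2 t b k w ∧ sup h v B 2 t i w) ≤
        32 * (XE h v b k (5 * t) - XE h v b k (5 * t + 2)) := fun t _ => by
      refine le_trans ((D.P h t).Pr_mono fun w _ hh => ?_) (sup_one h R.codes hib hik hkb hB he (t := t) (j := 1) (by omega))
      exact ⟨hh.1.1 (by decide), hh.2⟩
    have k2 := Finset.sum_le_sum k1
    rw [← Finset.mul_sum] at k2
    linarith
  · have k1 : ∀ t ∈ range T, (D.P h t).Pr (fun w => ok h v eps 5 t b k w ∧ sup h v B 5 t i w) ≤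
        2 * (cst h v (t + 1) {b} + cst h v (t + 1) {k}) := fun t _ => by
      refine le_trans ((D.P h t).Pr_mono fun w _ hh => ?_) (sup_five h hib hik hkb hB2 t)
      exact hh.2
    have k2 := Finset.sum_le_sum k1
    rw [← Finset.mul_sum, Finset.sum_add_distrib] at k2
    have k3 := cst_sum1 h H R hn hN1 b
    have k4 := cst_sum1 h H R hn hN1 k
    linarith

/-- **(H5) THE TRUE TOP SUPPRESSED AT THE DIGIT** -/
theorem dig_sup (H : D.Hyp dg prr al T Lam) (R : Run h (pr3 (Fin 3) n N1) (SS1 (Fin 3)) (AdmDep D) v) (hn : 1 ≤ n)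
    (hN1 : 1 ≤ N1) {i : Fin 3} {c : ℝ} (hc : 0 < c) (hc1 : c ≤ 1 / 2) :
    ∑ t ∈ range T, (D.P h t).Pr (fun w => rS h v 0 t i w (FQ v t i w) < c) ≤ c * (1000 * Lam) := by
  have k1 : ∀ t ∈ range T, (D.P h t).Pr (fun w => rS h v 0 t i w (FQ v t i w) < c) ≤ c * 500 * ∑ s, TP.gS h v s t i :=
    fun t _ => by
      have h1 := low_true (D.P h t) (ZbQ D v (qs 0 t) i) (FQ v t i) (ZbQ D v (qe 0 t) i) hc hc1
      have h2 : TP.gS h v 0 t i ≤ ∑ s, TP.gS h v s t i :=
        Finset.single_le_sum (f := fun s => TP.gS h v s t i) (fun s _ => gS_nn h s t i) (mem_univ 0)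
      have h3 : c * 500 * TP.gS h v 0 t i ≤ c * 500 * ∑ s, TP.gS h v s t i := mul_le_mul_of_nonneg_left h2 (by positivity)
      have h4 : c * (500 * gn (D.P h t) (ZbQ D v (qs 0 t) i) (FQ v t i) (ZbQ D v (qe 0 t) i)) = c * 500 * TP.gS h v 0 t i := by
        unfold TP.gS
        ring
      exact (h1.trans h4.le).trans h3
  have k2 := Finset.sum_le_sum k1
  rw [← Finset.mul_sum] at k2
  have k3 := mul_le_mul_of_nonneg_left (gn_sum h H R hn hN1 i) (show 0 ≤ c * 500 by positivity)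
  linarith

end

end Pool.Agent.GMH.Hv
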