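import Pool.Agent.GMH.RegT
import Pool.Agent.GMH.TopActT

/-!
# GMH/HvDef: heavy values and digits, definitions (helper11; row A6' of H3.LEAN)

Steps `s = 0` (digit), `s = 2` (heavy public value), `s = 5` (private codes, all values heavy).
* `CX q b` : class of the exact vertex `b` at the state `q`; `pN t q`, `pX t q b` : probability of the public additions of
  `5 t → q` in the public class and in the class of `b` (state `5 t`);
* `sup B s t i` : what the top `i` sees is suppressed by `B` in the step; `rS_sup` : strong top ⇒ suppressed;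
* `rT t q i` : ratio of the true top `i` from `5 t` to `q`.
-/

set_option autoImplicit false
set_option linter.unusedSectionVars false

namespace Pool.Agent.GMH.Hv

open Finset Pool.Agent.PWZ Pool.Agent.M3 Pool.Agent.GM Pool.Agent.GM.Harm Pool.Agent.GMH Pool.Agent.GMH.NZ
open Pool.Agent.GMH.V3 Pool.Agent.GMH.TP Pool.Agent.GMH.KF

noncomputable section

variable {X β γ φ : Type} [Fintype X] [Fintype β] [Fintype φ] [Nonempty X] [Nonempty β]
variable {D : HD (Fin 3) X β γ φ} {al : ℝ} (h : D.Thick al)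
  (v : ℕ → Finset (Fin 3) → X → (Fin 3 → β) → Pt (Fin 3) X β φ)

variable (D) in
/-- the class of the exact vertex `b` -/
def CX (q : ℕ) (b : Fin 3) (w : Pt (Fin 3) X β φ) := (XLq v q b w, NPq D v q w)

/-- probability of the public additions of `5 t → q`, public class -/
def pN (t q : ℕ) (w : Pt (Fin 3) X β φ) : ℝ := (D.P h t).m (NPq D v q) w / (D.P h t).m (NPq D v (5 * t)) w

/-- probability of the public additions of `5 t → q`, class of the exact vertex `b` at the state `5 t` -/
def pX (t q : ℕ) (b : Fin 3) (w : Pt (Fin 3) X β φ) : ℝ :=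
  (D.P h t).m (fun u => (XLq v (5 * t) b u, NPq D v q u)) w / (D.P h t).m (CX D v (5 * t) b) w

/-- what the top `i` sees is suppressed in the step -/
def sup (B : ℝ) (s : Fin 6) (t : ℕ) (i : Fin 3) (w : Pt (Fin 3) X β φ) : Prop :=
  B * (D.P h t).m (ZbQ D v (qe s t) i) w < (D.P h t).m (ZbQ D v (qs s t) i) w

/-- ratio of the true top `i` from the state `5 t` to the state `q` -/
def rT (t q : ℕ) (i : Fin 3) (w : Pt (Fin 3) X β φ) : ℝ :=
  (D.P h t).pv (ZbQ D v q i) (FQ v t i) w (FQ v t i w) / (D.P h t).pv (ZbQ D v (5 * t) i) (FQ v t i) w (FQ v t i w)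

/-- the own conditions of the exact vertex `b` and the partner `k` of a heavy step -/
def ok (eps : ℝ) (s : Fin 6) (t : ℕ) (b k : Fin 3) (w : Pt (Fin 3) X β φ) : Prop :=
  (s ≠ 5 → eps ≤ pX h v t (qe s t) b w) ∧ (s = 5 → ¬ lpv h v b t w ∧ ¬ lpv h v k t w)

variable {v}

/-- **a strong top sees a suppressed step** -/
theorem rS_sup {B : ℝ} {s : Fin 6} {t : ℕ} {i : Fin 3} {w : Pt (Fin 3) X β φ} (hw : (D.P h t).p w ≠ 0)
    (hr : B < rS h v s t i w (FQ v t i w)) : sup h v B s t i w := by
  unfold sup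
  rw [rS_eq h s t i hw (FQ v t i w)] at hr
  set P := D.P h t with hP
  set F := FQ v t i with hF
  have m1 := P.m_pos (ZbQ D v (qe s t) i) hw
  have m0 := P.m_pos (ZbQ D v (qs s t) i) hw
  have e1 : P.pv (ZbQ D v (qe s t) i) F w (F w) =
      P.E (fun u => ind (ZbQ D v (qe s t) i u = ZbQ D v (qe s t) i w) * ind (F u = F w)) / P.m (ZbQ D v (qe s t) i) w := rfl
  have e0 : P.pv (ZbQ D v (qs s t) i) F w (F w) =
      P.E (fun u => ind (ZbQ D v (qs s t) i u = ZbQ D v (qs s t) i w) * ind (F u = F w)) / P.m (ZbQ D v (qs s t) i) w := rfl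
  set a := P.E (fun u => ind (ZbQ D v (qe s t) i u = ZbQ D v (qe s t) i w) * ind (F u = F w)) with ha
  set b := P.E (fun u => ind (ZbQ D v (qs s t) i u = ZbQ D v (qs s t) i w) * ind (F u = F w)) with hb
  have hab : a ≤ b := P.E_mono fun u _ => mul_le_mul_of_nonneg_right
    (ind_mono fun e => ZbQ_mono (qs_le_qe s t) i u w e) (ind_nonneg _)
  have ha0 : 0 ≤ a := P.E_nonneg fun u _ => mul_nonneg (ind_nonneg _) (ind_nonneg _)
  have hb0 : 0 < b := by
    refine lt_of_le_of_ne (ha0.trans hab) fun hb0 => ?_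
    rw [e0, ← hb0, zero_div, div_zero] at hr
    have hp : 0 < P.p w := lt_of_le_of_ne (P.nn w) (Ne.symm hw)
    have : P.p w ≤ b := by
      rw [hb]
      unfold FP.E
      refine le_trans (le_of_eq ?_) (Finset.single_le_sum (f := fun u => P.p u * (ind (ZbQ D v (qs s t) i u =
        ZbQ D v (qs s t) i w) * ind (F u = F w))) (fun u _ => mul_nonneg (P.nn u) (mul_nonneg (ind_nonneg _)
          (ind_nonneg _))) (mem_univ w))
      rw [ind_of rfl, ind_of rfl, mul_one, mul_one]
    linarith
  rw [e1, e0, div_div_div_eq, lt_div_iff₀ (mul_pos m1 hb0)] at hr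
  have h2 : a * P.m (ZbQ D v (qs s t) i) w ≤ b * P.m (ZbQ D v (qs s t) i) w := mul_le_mul_of_nonneg_right hab m0.le
  have h3 : B * P.m (ZbQ D v (qe s t) i) w * b < P.m (ZbQ D v (qs s t) i) w * b := by linarith
  exact lt_of_mul_lt_mul_right h3 hb0.le

end

end Pool.Agent.GMH.Hv
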