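import Pool.Agent.GMH.GamR

/-!
# GMH/HvM (helper19): MASS OF THE SUPPRESSED LETTERS (row A6', for H1)

`P` = public law, `Qb` = law in a class, `Qe` = law in the class and under the additions, `Z` = a letter.
* `m_small` : masses of events of rarer letters;
* **`sup_mass`** : the letters with `64 Qe(z) ≤ Qb(z)` have `P`-mass at most `3 (kl (Qe, P) + kl (Qb, P))`.
-/

set_option autoImplicit false
set_option linter.unusedSectionVars false

namespace Pool.Agent.GMH.Hv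

open Finset Pool.Agent.PWZ Pool.Agent.M3

noncomputable section

variable {Om : Type*} [Fintype Om] {P Q Qb Qe : FP Om} {κ : Type*}

/-- letters which are `c` times rarer under `Q` -/
theorem m_small {Z : Om → κ} {A : Om → Prop} (hA : Fac Z A) {c : ℝ}
    (h1 : ∀ w, Q.p w ≠ 0 → A w → c * Q.m Z w ≤ P.m Z w) : c * Q.Pr A ≤ P.Pr A := by
  have h2 := Q.E_ratio_le P (X := Z) (h := fun w => ind (A w)) (hA.comp fun q => ind q) (fun _ _ => ind_nonneg _)
  refine le_trans ?_ h2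
  unfold FP.Pr
  rw [← Q.E_smul]
  refine Q.E_mono fun w hw => ?_
  by_cases hAw : A w
  · rw [ind_of hAw, mul_one, mul_one, le_div_iff₀ (Q.m_pos Z hw)]
    exact h1 w hw hAw
  · rw [ind_not hAw, mul_zero, mul_zero]

/-- **MASS OF THE SUPPRESSED LETTERS** -/
theorem sup_mass (hb : Qb.Ac P) (he : Qe.Ac P) {Z : Om → κ} {A : Om → Prop} (hA : Fac Z A)
    (h64 : ∀ w, P.p w ≠ 0 → A w → 64 * Qe.m Z w ≤ Qb.m Z w) : P.Pr A ≤ 3 * (Qe.kl P Z + Qb.kl P Z) := by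
  classical
  set A1 : Om → Prop := fun w => A w ∧ 8 * Qe.m Z w ≤ P.m Z w with hA1
  set A2 : Om → Prop := fun w => A w ∧ ¬ 8 * Qe.m Z w ≤ P.m Z w with hA2
  have m1 : Fac Z (Qe.m Z) := Qe.Fac_m Z
  have m2 : Fac Z (P.m Z) := P.Fac_m Z
  have fA1 : Fac Z A1 := fun a b hab => by
    show (A a ∧ 8 * Qe.m Z a ≤ P.m Z a) = (A b ∧ 8 * Qe.m Z b ≤ P.m Z b)
    rw [hA a b hab, m1 a b hab, m2 a b hab]
  have fA2 : Fac Z A2 := fun a b hab => by
    show (A a ∧ ¬ 8 * Qe.m Z a ≤ P.m Z a) = (A b ∧ ¬ 8 * Qe.m Z b ≤ P.m Z b)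
    rw [hA a b hab, m1 a b hab, m2 a b hab]
  have e0 : P.Pr A ≤ P.Pr A1 + P.Pr A2 := by
    refine le_trans ?_ (P.Pr_or_le A1 A2)
    unfold FP.Pr
    refine P.E_mono fun w _ => ind_mono fun hw => ?_
    by_cases h8 : 8 * Qe.m Z w ≤ P.m Z w
    · exact Or.inl ⟨hw, h8⟩
    · exact Or.inr ⟨hw, h8⟩
  have s1 : 8 * Qe.Pr A1 ≤ P.Pr A1 := m_small fA1 fun w _ hw => hw.2
  have s2 : 8 * P.Pr A2 ≤ Qb.Pr A2 := m_small fA2 fun w hw hA2w => by
    have h1 := h64 w hw hA2w.1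
    have h2 := not_le.1 hA2w.2
    linarith
  have b1 := GamR.kl_bwd he fA1
  have b2 := GamR.kl_fwd hb fA2
  have k1 := FP.kl_nonneg he Z
  have k2 := FP.kl_nonneg hb Z
  linarith

end

end Pool.Agent.GMH.Hv
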