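import Pool.Agent.GMH.HvS
import Pool.Agent.GMH.Ctx

/-!
# GMH/HvN (helper19): HEAVY VALUES AND DIGITS, the numbers, over `Ctx`

`B = x^kB`, activity `x^(-kE)`, thresholds `eps0 = eps1 = c = x^(-a)`, `y = x^(-m)`, `y5 = 64 x^(-kB)` (`x = 2 Lam`):
* `hv_num` : the bound of `GMH/HvS` is at most `x^(-g)` if `2 kE + g + 12 ≤ m, kB`, `g + 24 ≤ a ≤ 500`, `c0` large;
* `hvs_all` : the sums for all runs with large `c0` are at most `x^(-g)` if also `2 a + 3 ≤ kB`.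
-/

set_option autoImplicit false
set_option linter.unusedSectionVars false

namespace Pool.Agent.GMH.Hv

open Finset Pool.Agent.PWZ Pool.Agent.M3 Pool.Agent.GM Pool.Agent.GM.Harm Pool.Agent.GMH Pool.Agent.GMH.NZ
open Pool.Agent.GMH.V3 Pool.Agent.GMH.TP Pool.Agent.GMH.KF Pool.Agent.GMH.CX

noncomputable section

/-- logarithms and thresholds are small against `Y = x^(3 c0 + 3 A + 10)` -/
theorem hv_Y {A a c0 : ℕ} (ha : a ≤ c0) {Lam : ℝ} (hL : 2 ≤ Lam) {eps : ℝ} (he : (pw Lam (2 * a))⁻¹ ≤ eps) :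
    20 + 8 * ((apF Lam A c0).X0 + (apF Lam A c0).X1) + 8 * Real.log (1 / eps) ≤ (2 * Lam) ^ (3 * c0 + 3 * A + 10) := by
  set x : ℝ := 2 * Lam with hx0
  have hx : 4 ≤ x := by rw [hx0]; linarith
  have hxp : 0 < x := by linarith
  have pz : ∀ c : ℕ, pw Lam c = x ^ c := fun c => rfl
  have hX0 : (apF Lam A c0).X0 = x ^ (3 * c0 + 3 * A) := rfl
  have hX1 : (apF Lam A c0).X1 = 3 * x ^ (3 * c0 + 3 * A) := rfl
  have hlogx : Real.log x ≤ x := (Real.log_le_sub_one_of_pos hxp).trans (by linarith)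
  have hep : 0 < eps := lt_of_lt_of_le (inv_pos.2 (by rw [pz]; positivity)) he
  have hl : Real.log (1 / eps) ≤ 2 * a * x := by
    have h1 : 1 / eps ≤ x ^ (2 * a) := by
      rw [div_le_iff₀ hep]
      have h2 := mul_le_mul_of_nonneg_left he (show 0 ≤ x ^ (2 * a) by positivity)
      rw [pz, mul_inv_cancel₀ (by positivity)] at h2
      exact h2
    have h3 := Real.log_le_log (by positivity) h1
    rw [Real.log_pow] at h3
    push_cast at h3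
    refine h3.trans ?_
    exact mul_le_mul_of_nonneg_left hlogx (by positivity)
  set Y : ℝ := x ^ (3 * c0 + 3 * A + 10) with hY
  rw [hX0, hX1]
  have h1 : (1 : ℝ) ≤ x ^ (3 * c0 + 3 * A) := one_le_pow₀ (by linarith)
  have h2 : (a : ℝ) ≤ x ^ (3 * c0 + 3 * A) := by
    have h3 : (a : ℝ) ≤ 4 ^ a := by
      exact_mod_cast (Nat.lt_pow_self (by norm_num : 1 < 4)).le
    refine h3.trans ((pow_le_pow_left₀ (by norm_num) hx a).trans ?_)
    exact pow_le_pow_right₀ (by linarith) (by omega)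
  have h4 : (a : ℝ) * x ≤ x ^ (3 * c0 + 3 * A) * x := mul_le_mul_of_nonneg_right h2 hxp.le
  have h5 : Y = x ^ (3 * c0 + 3 * A) * x * x ^ 9 := by
    rw [hY]
    ring
  have h6 : (4 : ℝ) ^ 9 ≤ x ^ 9 := pow_le_pow_left₀ (by norm_num) hx 9
  have h7 : 0 < x ^ (3 * c0 + 3 * A) := by positivity
  have h8 : x ^ (3 * c0 + 3 * A) ≤ x ^ (3 * c0 + 3 * A) * x := le_mul_of_one_le_right h7.le (by linarith)
  have h9 : x ^ (3 * c0 + 3 * A) * x * 4 ^ 9 ≤ Y := by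
    rw [h5]
    exact mul_le_mul_of_nonneg_left h6 (by positivity)
  norm_num at h9
  nlinarith

/-- the tail -/
theorem hv_tail {A m a g c0 : ℕ} (hA : 80 ≤ A) (hc : 20 * (m + 2 * a + g + 100) ≤ c0) {Lam : ℝ} (hL : 2 ≤ Lam)
    {eps y : ℝ} (he : (pw Lam (2 * a))⁻¹ ≤ eps) (hy : (pw Lam m)⁻¹ ≤ y) :
    1 / y * Real.exp (20 + 8 * ((apF Lam A c0).X0 + (apF Lam A c0).X1) + 8 * Real.log (1 / eps) -
      pw Lam (c1F A c0) * y / 64) * (1000 * (pw Lam c0 * Lam)) ≤ (2 * Lam) ^ (-((g + 5 : ℕ) : ℤ)) := by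
  have hY1 := hv_Y (A := A) (a := a) (c0 := c0) (by omega) hL he
  set x : ℝ := 2 * Lam with hx0
  have hx : 4 ≤ x := by rw [hx0]; linarith
  have hxp : 0 < x := by linarith
  have pz : ∀ c : ℕ, pw Lam c = x ^ c := fun c => rfl
  have hbig : 80 * c0 + 80 * A ≤ c1F A c0 := c1_big (c0 := c0) hA
  have hyp : 0 < y := lt_of_lt_of_le (inv_pos.2 (by rw [pz]; positivity)) hy
  -- the exponent
  have e1 : x ^ (c1F A c0 - m - 3) ≤ pw Lam (c1F A c0) * y / 64 := by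
    have h1 : pw Lam (c1F A c0) * (pw Lam m)⁻¹ ≤ pw Lam (c1F A c0) * y :=
      mul_le_mul_of_nonneg_left hy (by rw [pz]; positivity)
    have h2 : pw Lam (c1F A c0) * (pw Lam m)⁻¹ = x ^ (c1F A c0 - m) := by
      rw [pz, pz, pow_sub₀ x hxp.ne' (by omega)]
    have h3 : x ^ (c1F A c0 - m) = x ^ (c1F A c0 - m - 3) * x ^ 3 := by
      rw [← pow_add]
      congr 1
      omega
    have h4 : (4 : ℝ) ^ 3 ≤ x ^ 3 := pow_le_pow_left₀ (by norm_num) hx 3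
    norm_num at h4
    have h5 : 0 < x ^ (c1F A c0 - m - 3) := by positivity
    have h6 := mul_le_mul_of_nonneg_left h4 h5.le
    rw [le_div_iff₀ (by norm_num)]
    linarith
  set Y : ℝ := x ^ (3 * c0 + 3 * A + 10) with hY
  -- the gain
  have hZ : (((m + c0 + g + 20 : ℕ) : ℝ)) * x + Y ≤ x ^ (c1F A c0 - m - 3) := by
    have h1 : ((m + c0 + g + 20 : ℕ) : ℝ) ≤ x ^ (m + c0 + g + 20) := by
      have h3 : ((m + c0 + g + 20 : ℕ) : ℝ) ≤ 4 ^ (m + c0 + g + 20) := by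
        exact_mod_cast (Nat.lt_pow_self (by norm_num : 1 < 4)).le
      exact h3.trans (pow_le_pow_left₀ (by norm_num) hx _)
    have h2 : (((m + c0 + g + 20 : ℕ) : ℝ)) * x ≤ x ^ (m + c0 + g + 21) := by
      rw [pow_succ]
      exact mul_le_mul_of_nonneg_right h1 hxp.le
    have h3 : x ^ (m + c0 + g + 21) ≤ x ^ (c1F A c0 - m - 4) := pow_le_pow_right₀ (by linarith) (by omega)
    have h4 : Y ≤ x ^ (c1F A c0 - m - 4) := pow_le_pow_right₀ (by linarith) (by omega)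
    have h5 : x ^ (c1F A c0 - m - 3) = x ^ (c1F A c0 - m - 4) * x := by
      rw [← pow_succ]
      congr 1
      omega
    have h6 : 0 < x ^ (c1F A c0 - m - 4) := by positivity
    rw [h5]
    nlinarith
  have hE : Real.exp (20 + 8 * ((apF Lam A c0).X0 + (apF Lam A c0).X1) + 8 * Real.log (1 / eps) -
      pw Lam (c1F A c0) * y / 64) ≤ x ^ (-((m + c0 + g + 20 : ℕ) : ℤ)) := by
    have h1 : 20 + 8 * ((apF Lam A c0).X0 + (apF Lam A c0).X1) + 8 * Real.log (1 / eps) - pw Lam (c1F A c0) * y / 64 ≤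
        -(((m + c0 + g + 20 : ℕ) : ℝ) * x) := by linarith
    exact (Real.exp_le_exp.2 h1).trans (Fn.expneg hx (m + c0 + g + 20) le_rfl)
  have hf : 1 / y ≤ x ^ (m : ℤ) := by
    rw [zpow_natCast, div_le_iff₀ hyp]
    have h2 := mul_le_mul_of_nonneg_left hy (show 0 ≤ x ^ m by positivity)
    rw [pz, mul_inv_cancel₀ (by positivity)] at h2
    exact h2
  have hl3 : 1000 * (pw Lam c0 * Lam) ≤ x ^ (((c0 + 6 : ℕ) : ℤ)) := by
    rw [pz, zpow_natCast]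
    have h1 : x ^ (c0 + 6) = x ^ c0 * x * x ^ 5 := by ring
    have h2 : (4 : ℝ) ^ 5 ≤ x ^ 5 := pow_le_pow_left₀ (by norm_num) hx 5
    have h3 : 0 < x ^ c0 := by positivity
    have h4 : Lam ≤ x := by rw [hx0]; linarith
    have h5 : x ^ c0 * Lam ≤ x ^ c0 * x := mul_le_mul_of_nonneg_left h4 h3.le
    have h6 : x ^ c0 * x * 4 ^ 5 ≤ x ^ (c0 + 6) := by
      rw [h1]
      exact mul_le_mul_of_nonneg_left h2 (by positivity)
    norm_num at h6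
    have h7 : 0 < x ^ c0 * x := by positivity
    linarith
  have h1 := Fn.mul2 hx (Real.exp_pos _).le hf hE
  have h2 := Fn.mul2 hx (by have := pw_one hL c0; positivity) h1 hl3
  refine h2.trans (Fn.zle hx ?_)
  push_cast
  omega

/-- the hypothesis of the masses -/
theorem hv_mass {A m a c0 : ℕ} (hA : 80 ≤ A) (hc : 20 * (m + 2 * a + 100) ≤ c0) {Lam : ℝ} (hL : 2 ≤ Lam) {eps : ℝ}
    (he : (pw Lam (2 * a))⁻¹ ≤ eps) :
    10 ^ 4 * (1 + (apF Lam A c0).X0 + (apF Lam A c0).X1 + Real.log (1 / eps)) ≤ pw Lam (c1F A c0) * (pw Lam m)⁻¹ := by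
  have hY1 := hv_Y (A := A) (a := a) (c0 := c0) (by omega) hL he
  set x : ℝ := 2 * Lam with hx0
  have hx : 4 ≤ x := by rw [hx0]; linarith
  have hxp : 0 < x := by linarith
  have pz : ∀ c : ℕ, pw Lam c = x ^ c := fun c => rfl
  have hbig : 80 * c0 + 80 * A ≤ c1F A c0 := c1_big (c0 := c0) hA
  have h2 : pw Lam (c1F A c0) * (pw Lam m)⁻¹ = x ^ (c1F A c0 - m) := by
    rw [pz, pz, pow_sub₀ x hxp.ne' (by omega)]
  have h3 : x ^ (c1F A c0 - m) = x ^ (c1F A c0 - m - 6) * x ^ 6 := by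
    rw [← pow_add]
    congr 1
    omega
  have h4 : (4 : ℝ) ^ 6 ≤ x ^ 6 := pow_le_pow_left₀ (by norm_num) hx 6
  norm_num at h4
  have h5 : x ^ (3 * c0 + 3 * A + 10) ≤ x ^ (c1F A c0 - m - 6) := pow_le_pow_right₀ (by linarith) (by omega)
  have h6 : 0 < x ^ (c1F A c0 - m - 6) := by positivity
  have h7 := mul_le_mul_of_nonneg_left h4 h6.le
  rw [h2, h3]
  linarith

/-- numbers of the logarithms -/
theorem hv_log {a b k : ℕ} (hb : b ≤ 2 * a) (ha : a ≤ 500) {x : ℝ} (hx : 4 ≤ x) (hk : k = b) :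
    Real.log (1 / (x ^ k)⁻¹) + 1 ≤ x ^ (6 : ℤ) := by
  subst hk
  have hxp : 0 < x := by linarith
  rw [one_div, inv_inv, Real.log_pow]
  have h1 : Real.log x ≤ x - 1 := Real.log_le_sub_one_of_pos hxp
  have h2 : (k : ℝ) ≤ 1000 := by
    have : k ≤ 1000 := by omega
    exact_mod_cast this
  have h3 : (k : ℝ) * Real.log x ≤ 1000 * (x - 1) := by
    have h4 : 0 ≤ Real.log x := Real.log_nonneg (by linarith)
    nlinarith
  have h5 : x ^ (6 : ℤ) = x ^ 5 * x := by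
    rw [← pow_succ]
    exact zpow_natCast x 6
  have h6 : (4 : ℝ) ^ 5 ≤ x ^ 5 := pow_le_pow_left₀ (by norm_num) hx 5
  norm_num at h6
  rw [h5]
  nlinarith

/-- the activity part -/
theorem hv_act {m kE g : ℕ} (hm : 2 * kE + g + 12 ≤ m) {Lam : ℝ} (hL : 2 ≤ Lam) {y : ℝ}
    (hy : y ≤ 64 * (pw Lam m)⁻¹) : y * (240 * Lam / ((pw Lam kE)⁻¹) ^ 2) ≤ (2 * Lam) ^ (-((g + 4 : ℕ) : ℤ)) := by
  set x : ℝ := 2 * Lam with hx0
  have hx : 4 ≤ x := by rw [hx0]; linarith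
  have hxp : 0 < x := by linarith
  have pz : ∀ c : ℕ, pw Lam c = x ^ c := fun c => rfl
  have iz : ∀ c : ℕ, (pw Lam c)⁻¹ = x ^ (-(c : ℤ)) := fun c => by rw [pz]; exact Fn.inv hx c
  have hLx : Lam ≤ x ^ (1 : ℤ) := by rw [zpow_one, hx0]; linarith
  have hL0 : 0 ≤ Lam := by linarith
  have h0 : 0 ≤ 240 * Lam / ((pw Lam kE)⁻¹) ^ 2 := by positivity
  refine (mul_le_mul_of_nonneg_right hy h0).trans ?_
  have e1 : 64 * (pw Lam m)⁻¹ * (240 * Lam / ((pw Lam kE)⁻¹) ^ 2) = 15360 * (pw Lam m)⁻¹ * Lam * pw Lam (2 * kE) := by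
    have h1 : ((pw Lam kE)⁻¹) ^ 2 = (pw Lam (2 * kE))⁻¹ := by
      rw [pz, pz, inv_pow, ← pow_mul, mul_comm]
    rw [h1, div_eq_mul_inv, inv_inv]
    ring
  rw [e1]
  have c1 : (15360 : ℝ) ≤ x ^ (7 : ℤ) := Fn.cst hx 7 (by norm_num)
  have c2 := Fn.mul2 hx (by rw [iz]; exact (Fn.zpos hx _).le) c1 (iz m).le
  have c3 := Fn.mul2 hx hL0 c2 hLx
  have c4 := Fn.mul2 hx (by rw [pz]; positivity) c3 (show pw Lam (2 * kE) ≤ x ^ ((2 * kE : ℕ) : ℤ) by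
    rw [pz, zpow_natCast])
  refine c4.trans (Fn.zle hx ?_)
  push_cast
  omega

/-- **THE NUMBERS** -/
theorem hv_num {A kB m a kE g c0 : ℕ} (hA : 80 ≤ A) (hkB : 2 * kE + g + 12 ≤ kB) (hm : 2 * kE + g + 12 ≤ m)
    (ha : g + 24 ≤ a) (ha1 : a ≤ 500) (hc : 20 * (m + kB + 2 * a + g + 100) ≤ c0) {Lam : ℝ} (hL : 2 ≤ Lam) {dd : ℝ}
    (hd : dd ≤ (pw Lam (c0 + A))⁻¹) :
    HVB Lam (pw Lam c0) (pw Lam (c1F A c0)) (apF Lam A c0).X0 (apF Lam A c0).X1 (pw Lam kE)⁻¹ (pw Lam m)⁻¹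
      (64 * (pw Lam kB)⁻¹) (pw Lam a)⁻¹ (pw Lam a)⁻¹ (pw Lam a)⁻¹ dd ≤ (pw Lam g)⁻¹ := by
  have ip : ∀ c : ℕ, 0 < (pw Lam c)⁻¹ := fun c => inv_pos.2 (zero_lt_one.trans_le (pw_one hL c))
  have t1 := hv_act hm hL (show (pw Lam m)⁻¹ ≤ 64 * (pw Lam m)⁻¹ by linarith [ip m])
  have t1' := hv_act hkB hL (y := 64 * (pw Lam kB)⁻¹) le_rfl
  set x : ℝ := 2 * Lam with hx0
  have hx : 4 ≤ x := by rw [hx0]; linarith
  have hxp : 0 < x := by linarith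
  have pz : ∀ c : ℕ, pw Lam c = x ^ c := fun c => rfl
  have iz : ∀ c : ℕ, (pw Lam c)⁻¹ = x ^ (-(c : ℤ)) := fun c => by rw [pz]; exact Fn.inv hx c
  have hLx : Lam ≤ x ^ (1 : ℤ) := by rw [zpow_one, hx0]; linarith
  have hL0 : 0 ≤ Lam := by linarith
  -- (2) tails
  have t2 := hv_tail (m := m) (a := a) (g := g) (c0 := c0) hA (by omega) hL (eps := (pw Lam a)⁻¹ * (pw Lam a)⁻¹)
    (y := (pw Lam m)⁻¹) (le_of_eq (by rw [pz, pz, ← mul_inv, ← pow_add, two_mul])) le_rfl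
  have t3 := hv_tail (m := kB) (a := a) (g := g) (c0 := c0) hA (by omega) hL (eps := 1) (y := 64 * (pw Lam kB)⁻¹)
    (inv_le_one_of_one_le₀ (pw_one hL _)) (by linarith [ip kB])
  have z53 : x ^ (-((g + 5 : ℕ) : ℤ)) ≤ x ^ (-((g + 4 : ℕ) : ℤ)) := Fn.zle hx (by push_cast; omega)
  -- (3) exact vertex, public class
  have c6 : (10 ^ 6 / (1 / 2 : ℝ) ^ 2) ≤ x ^ (11 : ℤ) := Fn.cst hx 11 (by norm_num)
  have t4 : XB Lam (pw Lam a)⁻¹ (pw Lam a)⁻¹ ≤ x ^ (-((g + 4 : ℕ) : ℤ)) := by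
    unfold XB
    have e1 : (pw Lam a)⁻¹ * (pw Lam a)⁻¹ = (x ^ (2 * a))⁻¹ := by rw [pz, ← mul_inv, ← pow_add, two_mul]
    rw [e1]
    have c1 := hv_log (a := a) (b := 2 * a) le_rfl ha1 hx rfl
    have n1 : 0 ≤ Real.log (1 / (x ^ (2 * a))⁻¹) + 1 := by
      rw [one_div, inv_inv, Real.log_pow]
      have : 0 ≤ Real.log x := Real.log_nonneg (by linarith)
      positivity
    have c2 := Fn.mul2 hx n1 (iz a).le c1
    have c3 := Fn.mul2 hx hL0 c2 hLx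
    have n2 : 0 ≤ (pw Lam a)⁻¹ * (Real.log (1 / (x ^ (2 * a))⁻¹) + 1) * Lam := by
      have : 0 ≤ (pw Lam a)⁻¹ := inv_nonneg.2 (by rw [pz]; positivity)
      exact mul_nonneg (mul_nonneg this n1) hL0
    have c4 := Fn.mul2 hx n2 c6 c3
    refine c4.trans (Fn.zle hx ?_)
    push_cast
    omega
  have t5 : PB Lam (pw Lam a)⁻¹ ≤ x ^ (-((g + 4 : ℕ) : ℤ)) := by
    unfold PB
    have e1 : (pw Lam a)⁻¹ = (x ^ a)⁻¹ := by rw [pz]
    have c1 := hv_log (a := a) (b := a) (by omega) ha1 hx rfl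
    have n1 : 0 ≤ Real.log (1 / (x ^ a)⁻¹) + 1 := by
      rw [one_div, inv_inv, Real.log_pow]
      have : 0 ≤ Real.log x := Real.log_nonneg (by linarith)
      positivity
    rw [← e1] at c1 n1
    have c2 := Fn.mul2 hx n1 (iz a).le c1
    have c3 := Fn.mul2 hx hL0 c2 hLx
    have n2 : 0 ≤ (pw Lam a)⁻¹ * (Real.log (1 / (pw Lam a)⁻¹) + 1) * Lam := by
      have : 0 ≤ (pw Lam a)⁻¹ := inv_nonneg.2 (by rw [pz]; positivity)
      exact mul_nonneg (mul_nonneg this n1) hL0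
    have c4 := Fn.mul2 hx n2 c6 c3
    refine c4.trans (Fn.zle hx ?_)
    push_cast
    omega
  have t6 : (pw Lam a)⁻¹ * (1000 * Lam) ≤ x ^ (-((g + 4 : ℕ) : ℤ)) := by
    have c1 : (1000 : ℝ) ≤ x ^ (5 : ℤ) := Fn.cst hx 5 (by norm_num)
    have c2 := Fn.mul2 hx hL0 c1 hLx
    have c3 := Fn.mul2 hx (by positivity) (iz a).le c2
    refine c3.trans (Fn.zle hx ?_)
    push_cast
    omega
  have t7 : dd ≤ x ^ (-((g + 4 : ℕ) : ℤ)) := by
    rw [iz] at hd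
    refine hd.trans (Fn.zle hx ?_)
    push_cast
    omega
  have h6 : x ^ (-(g : ℤ)) = x ^ (-((g + 4 : ℕ) : ℤ)) * x ^ 4 := by
    rw [← zpow_natCast x 4, ← zpow_add₀ hxp.ne']
    congr 1
    push_cast
    ring
  have h7 : (4 : ℝ) ^ 4 ≤ x ^ 4 := pow_le_pow_left₀ (by norm_num) hx 4
  norm_num at h7
  set z := x ^ (-((g + 4 : ℕ) : ℤ)) with hz
  have hz0 : 0 < z := Fn.zpos hx _
  unfold HVB HB
  rw [iz g, h6]
  have h8 : z * 256 ≤ z * x ^ 4 := mul_le_mul_of_nonneg_left h7 hz0.le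
  rw [← hx0] at t2 t3
  have t2' := t2.trans z53
  have t3' := t3.trans z53
  linarith

/-- stronger thresholds -/
theorem stw_mono {X β γ φ : Type} [Fintype X] [Fintype β] [Fintype φ] [Nonempty X] [Nonempty β]
    {D : HD (Fin 3) X β γ φ} {al : ℝ} {h : D.Thick al} {v : ℕ → Finset (Fin 3) → X → (Fin 3 → β) → Pt (Fin 3) X β φ}
    {B B' e e' : ℝ} (hB : B' ≤ B) (he : e' ≤ e) {s : Fin 6} {t : ℕ} {i k : Fin 3} {w : Pt (Fin 3) X β φ}
    (hw : stw h v B e s t i k w) : stw h v B' e' s t i k w := ⟨hB.trans_lt hw.1, he.trans_lt hw.2⟩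

/-- **HEAVY VALUES AND DIGITS, ALL RUNS** -/
theorem hvs_all {A kB kE g : ℕ} (hA : 80 ≤ A) (hkB : 2 * kE + g + 12 ≤ kB) (hkB2 : 2 * g + 52 ≤ kB) (hg : g ≤ 400) :
    AllC A (fun C => ∀ (Gd : ℕ → C.Q → Prop) (Al : Fin 6 → ℕ → C.Q → Prop),
      (∀ s t w, Al s t w → aS C.h C.v C.p Gd s t w) → ∀ B e : ℝ, pw C.Lam kB ≤ B → (pw C.Lam kE)⁻¹ ≤ e →
      ∑ t ∈ range C.T, (C.D.P C.h t).Pr (fun w => Al 0 t w ∧ ∃ i k, i ≠ k ∧ stw C.h C.v B e 0 t i k w) +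
      ∑ t ∈ range C.T, (C.D.P C.h t).Pr (fun w => Al 2 t w ∧ ∃ i k, i ≠ k ∧ stw C.h C.v B e 2 t i k w) +
      ∑ t ∈ range C.T, (C.D.P C.h t).Pr (fun w => Al 5 t w ∧ ∃ i k, i ≠ k ∧ (∀ j, j ≠ i → ¬ lpv C.h C.v j t w) ∧
        stw C.h C.v B e 5 t i k w) ≤ (pw C.Lam g)⁻¹) := by
  refine ⟨20 * ((2 * kE + g + 12) + kB + 2 * (g + 24) + g + 100), fun C hCA hc Gd Al hAl B e hB he => ?_⟩
  have hA' : 80 ≤ C.A := by rw [hCA]; exact hA
  have hL := C.hL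
  have ip : ∀ c : ℕ, 0 < (pw C.Lam c)⁻¹ := fun c => inv_pos.2 (zero_lt_one.trans_le (pw_one hL c))
  have i1 : ∀ c : ℕ, (pw C.Lam c)⁻¹ ≤ 1 := fun c => inv_le_one_of_one_le₀ (pw_one hL c)
  have hx : (4 : ℝ) ≤ 2 * C.Lam := by linarith
  have pge : ∀ (k c : ℕ), k ≤ c → (4 : ℝ) ^ k ≤ pw C.Lam c := fun k c hkc =>
    (pow_le_pow_right₀ (by norm_num) hkc).trans (pow_le_pow_left₀ (by norm_num) hx c)
  have psub : ∀ a b c : ℕ, a + b = c → pw C.Lam c * (pw C.Lam a)⁻¹ = pw C.Lam b := fun a b c habc => by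
    have h1 : pw C.Lam c = pw C.Lam a * pw C.Lam b := by unfold pw; rw [← habc, pow_add]
    rw [h1, mul_comm (pw C.Lam a), mul_assoc, mul_inv_cancel₀ (zero_lt_one.trans_le (pw_one hL a)).ne', mul_one]
  have ile : ∀ (k c : ℕ), k ≤ c → (pw C.Lam c)⁻¹ ≤ ((4 : ℝ) ^ k)⁻¹ := fun k c hkc =>
    inv_anti₀ (by positivity) (pge k c hkc)
  set a : ℕ := g + 24 with ha
  set m : ℕ := 2 * kE + g + 12 with hm
  have hmono : ∀ s t i k w, stw C.h C.v B e s t i k w → stw C.h C.v (pw C.Lam kB) (pw C.Lam kE)⁻¹ s t i k w :=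
    fun s t i k w hw => stw_mono hB he hw
  have e64 : 128 ≤ pw C.Lam kB * ((pw C.Lam a)⁻¹ * (pw C.Lam a)⁻¹) := by
    have h1 : (pw C.Lam a)⁻¹ * (pw C.Lam a)⁻¹ = (pw C.Lam (2 * a))⁻¹ := by
      unfold pw
      rw [← mul_inv, ← pow_add, two_mul a]
    rw [h1, psub (2 * a) (kB - 2 * a) kB (by omega)]
    have h2 := pge 4 (kB - 2 * a) (by omega)
    norm_num at h2
    linarith
  have hmass : 10 ^ 4 * (1 + C.p.X0 + C.p.X1 + Real.log (1 / ((pw C.Lam a)⁻¹ * (pw C.Lam a)⁻¹))) ≤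
      pw C.Lam (c1F C.A C.c0) * (pw C.Lam m)⁻¹ := by
    refine hv_mass (m := m) (a := a) (c0 := C.c0) hA' (by omega) hL (le_of_eq ?_)
    unfold pw
    rw [← mul_inv, ← pow_add, two_mul a]
  have hX0 : 0 ≤ C.p.X0 := (zero_le_one.trans (pw_one hL (cXF C.A C.c0)))
  have hX1 : 0 ≤ C.p.X1 := mul_nonneg (by norm_num) (zero_le_one.trans (pw_one hL (cXF C.A C.c0)))
  have y51 : 64 * (pw C.Lam kB)⁻¹ ≤ 1 := by
    have h1 := ile 3 kB (by omega)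
    norm_num at h1
    linarith
  have c2 : 2 ≤ pw C.Lam kB * (pw C.Lam a)⁻¹ := by
    rw [psub a (kB - a) kB (by omega)]
    have h2 := pge 1 (kB - a) (by omega)
    norm_num at h2
    linarith
  have i64 : (pw C.Lam a)⁻¹ ≤ 1 / 64 := by
    have h1 := ile 3 a (by omega)
    norm_num at h1
    linarith
  have B2 : 2 ≤ pw C.Lam kB := by
    have h2 := pge 1 kB (by omega)
    norm_num at h2
    linarith
  have key := hvs C.h C.H C.R C.n1 C.N11 C.p hX0 hX1 (Gd := Gd) hAl (B := pw C.Lam kB) (e := (pw C.Lam kE)⁻¹)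
    (y := (pw C.Lam m)⁻¹) (y5 := 64 * (pw C.Lam kB)⁻¹) (eps0 := (pw C.Lam a)⁻¹) (eps1 := (pw C.Lam a)⁻¹)
    (c := (pw C.Lam a)⁻¹) B2 (ip kE) (i1 kE) (ip a) i64 (ip a) (by linarith) (ip m) (i1 m) e64 hmass
    (by linarith [ip kB]) y51 (le_of_eq (by rw [div_eq_mul_inv])) (ip a) (by linarith) c2
  have num := hv_num (A := C.A) (kB := kB) (m := m) (a := a) (kE := kE) (g := g) (c0 := C.c0) hA' hkB le_rfl le_rfl
    (by omega) hc hL (dd := DD C.h (v := C.v) C.p C.T) C.hd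
  refine le_trans ?_ (key.trans num)
  refine add_le_add (add_le_add ?_ ?_) ?_
  · refine Finset.sum_le_sum fun t _ => ?_
    unfold FP.Pr
    refine (C.D.P C.h t).E_mono fun w _ => ind_mono ?_
    rintro ⟨a1, i, k, hik, a2⟩
    exact ⟨a1, i, k, hik, hmono 0 t i k w a2⟩
  · refine Finset.sum_le_sum fun t _ => ?_
    unfold FP.Pr
    refine (C.D.P C.h t).E_mono fun w _ => ind_mono ?_
    rintro ⟨a1, i, k, hik, a2⟩
    exact ⟨a1, i, k, hik, hmono 2 t i k w a2⟩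
  · refine Finset.sum_le_sum fun t _ => ?_
    unfold FP.Pr
    refine (C.D.P C.h t).E_mono fun w _ => ind_mono ?_
    rintro ⟨a1, i, k, hik, a3, a2⟩
    exact ⟨a1, i, k, hik, a3, hmono 5 t i k w a2⟩

end

end Pool.Agent.GMH.Hv
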