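import Pool.Agent.GMH.HvDef
import Pool.Agent.GMH.DeadY
import Pool.Agent.GMH.VTot
import Pool.Agent.GMH.V3D
import Pool.Agent.GMH.UnmSt

/-!
# GMH/HvP: activity of a top when the public class does not expect the additions (helper87, row (H3) of HvS)

`q = 5 t + j`, `j = 1` (digit) or `j = 2` (digit and heavy public value).
* `psi_mono`, `light_psi` : numbers, one class with a digit of small probability;
* `Hc_cut_le` : entropy of a map cut on an event of the class, given the class;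
* `rp`, `yr`, `Ce` : representatives of the cells of the time `t + 1`; `E_Ce` : the cells do not see the hidden point;
* `pub_gain` : saturation against a function of (hidden point, node);
* `gq`, `bdw`, `Gq` : the public additions as a function of the hidden point, cut on the unexpected values;
* `act_sum`, `Hv.act_pub` : the sum over the run is at most `10^6 / e^2 eps0 (log (1 / eps0) + 1) Lam`.
-/

set_option autoImplicit false
set_option linter.unusedSectionVars false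

namespace Pool.Agent.GMH.Hv.HP

open Finset Pool.Agent.PWZ Pool.Agent.M3 Pool.Agent.GM Pool.Agent.GM.Harm Pool.Agent.GMH Pool.Agent.GMH.NZ
open Pool.Agent.GMH.V3 Pool.Agent.GMH.TP Pool.Agent.GMH.KF

noncomputable section

/-! ### numbers -/

/-- `x (log (2 / x) + 1)` increases -/
theorem psi_mono {x y : ℝ} (hx : 0 < x) (hxy : x ≤ y) (hy : y ≤ 2) :
    x * (Real.log (2 / x) + 1) ≤ y * (Real.log (2 / y) + 1) := by
  have hy0 : 0 < y := hx.trans_le hxy
  have e1 : Real.log (2 / x) = Real.log (2 / y) + Real.log (y / x) := by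
    rw [← Real.log_mul (by positivity) (by positivity)]
    congr 1
    field_simp
  have h1 : Real.log (y / x) ≤ y / x - 1 := Real.log_le_sub_one_of_pos (by positivity)
  have h2 : x * Real.log (y / x) ≤ y - x := by
    have := mul_le_mul_of_nonneg_left h1 hx.le
    have e2 : x * (y / x - 1) = y - x := by field_simp
    linarith
  have h3 : 0 ≤ Real.log (2 / y) := Real.log_nonneg (by rw [le_div_iff₀ hy0]; linarith)
  rw [e1]
  nlinarith

section abs

variable {Om : Type*} [Fintype Om] (P : FP Om) {κ χ : Type*}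

theorem ce_sup_le {Z : Om → κ} {f g : Om → ℝ} {w : Om}
    (hfg : ∀ u, P.p u ≠ 0 → Z u = Z w → f u ≤ g u) : P.ce Z f w ≤ P.ce Z g w := by
  unfold FP.ce
  refine div_le_div_of_nonneg_right (P.E_mono fun u hu => ?_) (P.m_nonneg _ _)
  by_cases h1 : Z u = Z w
  · exact mul_le_mul_of_nonneg_left (hfg u hu h1) (ind_nonneg _)
  · rw [ind_not h1, zero_mul, zero_mul]

/-- **one class** : the price of a digit with a small conditional probability -/
theorem light_psi {Z : Om → κ} {d : Om → ℝ} (hd : ∀ u, d u = 1 ∨ d u = -1) {e : ℝ}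
    (he0 : 0 < e) (he : e ≤ 1 / 4) {w : Om} (hw : P.p w ≠ 0) :
    P.ce Z (fun u => ind (P.pv Z d u (d u) ≤ e) * (Real.log (2 / P.pv Z d u (d u)) + 1)) w ≤
      4 * (e * (Real.log (2 / e) + 1)) * P.ce Z d w ^ 2 := by
  set B : Om → Prop := fun u => P.pv Z d u (d u) ≤ e with hB
  have hpsi : 0 ≤ e * (Real.log (2 / e) + 1) := by
    have : 0 ≤ Real.log (2 / e) := Real.log_nonneg (by rw [le_div_iff₀ he0]; linarith)
    positivity
  by_cases hex : ∃ u0, P.p u0 ≠ 0 ∧ Z u0 = Z w ∧ B u0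
  · obtain ⟨u0, hu0, hz0, hb0⟩ := hex
    set q := P.ce Z (fun u => ind (d u = d u0)) w with hq
    have hq1 : P.pv Z d u0 (d u0) = q := P.pv_fac Z d (d u0) u0 w hz0
    have hq2 : q ≤ e := by rw [← hq1]; exact hb0
    have hq0 : 0 < q := by rw [← hq1]; exact P.pv_self_pos Z d hu0
    -- the other value is not light
    have hB1 : ∀ u, P.p u ≠ 0 → Z u = Z w → B u → d u = d u0 := by
      intro u hu hz hb
      by_contra hne
      have h1 : P.ce Z (fun x => ind (d x = d u)) w + P.ce Z (fun x => ind (d x = d u0)) w = 1 := by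
        rw [← P.ce_add, ← P.ce_const Z (1 : ℝ) hw]
        refine P.ce_congr (fun x _ => ?_) w
        by_cases h2 : d x = d u
        · rw [ind_of h2, ind_not (fun h3 => hne (h2.symm.trans h3))]
          norm_num
        · have h3 : d x = d u0 := by
            rcases hd x with a | a <;> rcases hd u with b | b <;> rcases hd u0 with c | c
            · exact absurd (a.trans b.symm) h2
            · exact absurd (a.trans b.symm) h2
            · exact a.trans c.symm
            · exact absurd (b.trans c.symm) hne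
            · exact absurd (b.trans c.symm) hne
            · exact a.trans c.symm
            · exact absurd (a.trans b.symm) h2
            · exact absurd (a.trans b.symm) h2
          rw [ind_not h2, ind_of h3]
          norm_num
      have h2 : P.ce Z (fun x => ind (d x = d u)) w ≤ e := by
        have h3 : P.pv Z d u (d u) = P.ce Z (fun x => ind (d x = d u)) w := P.pv_fac Z d (d u) u w hz
        rw [← h3]
        exact hb
      linarith
    have h5 : P.ce Z (fun u => ind (B u) * (Real.log (2 / P.pv Z d u (d u)) + 1)) w ≤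
        q * (Real.log (2 / q) + 1) := by
      have hlq : 0 ≤ Real.log (2 / q) + 1 := by
        have : 0 ≤ Real.log (2 / q) := Real.log_nonneg (by rw [le_div_iff₀ hq0]; linarith)
        linarith
      have h6 : P.ce Z (fun u => ind (B u) * (Real.log (2 / P.pv Z d u (d u)) + 1)) w ≤
          P.ce Z (fun u => (Real.log (2 / q) + 1) * ind (d u = d u0)) w := by
        refine ce_sup_le P fun u hu hz => ?_
        by_cases hb : B u
        · have h7 := hB1 u hu hz hb
          have h8 : P.pv Z d u (d u) = q := by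
            rw [h7]
            exact P.pv_fac Z d (d u0) u w hz
          rw [ind_of hb, ind_of h7, h8]
          linarith
        · rw [ind_not hb, zero_mul]
          exact mul_nonneg hlq (ind_nonneg _)
      refine h6.trans (le_of_eq ?_)
      rw [P.ce_smul, ← hq]
      ring
    have h6 : P.ce Z d w = d u0 * (2 * q - 1) := by
      have h7 : P.ce Z d w = P.ce Z (fun u => 2 * d u0 * ind (d u = d u0) + -d u0) w := by
        refine P.ce_congr (fun u _ => ?_) w
        by_cases hu : d u = d u0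
        · rw [ind_of hu, hu]
          ring
        · rw [ind_not hu]
          rcases hd u with a | a <;> rcases hd u0 with b | b
          · exact absurd (a.trans b.symm) hu
          · rw [a, b]
            ring
          · rw [a, b]
            ring
          · exact absurd (a.trans b.symm) hu
      rw [h7, P.ce_add, P.ce_smul, P.ce_const _ _ hw, ← hq]
      ring
    have h8 : d u0 ^ 2 = 1 := by rcases hd u0 with a | a <;> rw [a] <;> norm_num
    rw [h6, mul_pow, h8, one_mul]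
    have h9 : 1 / 4 ≤ (2 * q - 1) ^ 2 := by nlinarith
    have h10 := psi_mono hq0 hq2 (by linarith : e ≤ 2)
    have h11 := mul_le_mul_of_nonneg_left h9 (show 0 ≤ 4 * (e * (Real.log (2 / e) + 1)) by linarith)
    show P.ce Z (fun u => ind (B u) * (Real.log (2 / P.pv Z d u (d u)) + 1)) w ≤ _
    linarith
  · have h1 : P.ce Z (fun u => ind (B u) * (Real.log (2 / P.pv Z d u (d u)) + 1)) w ≤ 0 := by
      refine (ce_sup_le P (g := fun _ => 0) fun u hu hz => ?_).trans (le_of_eq (P.ce_const _ _ hw))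
      rw [ind_not fun hb => hex ⟨u, hu, hz, hb⟩, zero_mul]
    have h2 : 0 ≤ 4 * (e * (Real.log (2 / e) + 1)) * P.ce Z d w ^ 2 := by positivity
    exact h1.trans h2

/-- **a map cut on an event of small values** : `G` = `g` where `b` holds, one value elsewhere; `b` is decided by `g` in the
class -/
theorem Hc_cut_le {ι : Type*} {Z : Om → κ} {g : Om → χ} {G : Om → ι} {b : Om → Prop}
    (hb : ∀ u w, Z u = Z w → g u = g w → (b u ↔ b w)) (hG1 : ∀ u w, b u → b w → (G u = G w ↔ g u = g w))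
    (hG2 : ∀ u w, ¬ b w → (G u = G w ↔ ¬ b u)) :
    P.Hc G Z ≤ P.E (fun w => ind (b w) * (Real.log (1 / P.pv Z g w (g w)) + 1)) := by
  rw [Hc_eq_E_log]
  set a : Om → ℝ := fun w => P.E (fun u => ind (Z u = Z w) * ind (¬ b u)) with ha
  have fa : Fac Z (fun w => P.m Z w / a w) := fun u w e => by
    simp only [ha]
    rw [P.Fac_m Z u w e, e]
  have h1 : P.E (fun w => Real.log (P.m Z w / P.m (fun v => (G v, Z v)) w)) ≤
      P.E (fun w => ind (b w) * Real.log (1 / P.pv Z g w (g w)) + ind (¬ b w) * (P.m Z w / a w - 1)) := by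
    refine P.E_mono fun w hw => ?_
    by_cases hbw : b w
    · rw [ind_of hbw, ind_not (not_not.2 hbw), zero_mul, add_zero, one_mul, P.pv_self, one_div_div]
      have e1 : P.m (fun v => (G v, Z v)) w = P.m (fun u => (g u, Z u)) w := by
        unfold FP.m
        refine P.E_congr fun u _ => congrArg ind (propext ?_)
        simp only [Prod.mk.injEq]
        constructor
        · rintro ⟨h2, h3⟩
          have hbu : b u := by
            by_contra hbu
            exact (hG2 w u hbu).1 h2.symm hbw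
          exact ⟨(hG1 u w hbu hbw).1 h2, h3⟩
        · rintro ⟨h2, h3⟩
          exact ⟨(hG1 u w ((hb u w h3 h2).2 hbw) hbw).2 h2, h3⟩
      rw [e1]
    · rw [ind_not hbw, ind_of hbw, zero_mul, zero_add, one_mul]
      have e1 : P.m (fun v => (G v, Z v)) w = a w := by
        simp only [ha]
        unfold FP.m
        refine P.E_congr fun u _ => ?_
        rw [← ind_and]
        refine congrArg ind (propext ?_)
        rw [Prod.mk.injEq, hG2 u w hbw]
        exact ⟨fun h => ⟨h.2, h.1⟩, fun h => ⟨h.2, h.1⟩⟩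
      rw [← e1]
      exact Real.log_le_sub_one_of_pos (div_pos (P.m_pos _ hw) (P.m_pos _ hw))
  have h2 : P.E (fun w => ind (¬ b w) * (P.m Z w / a w)) ≤ 1 := by
    rw [P.E_congr (g := fun w => P.m Z w / a w * ind (¬ b w)) fun w _ => mul_comm _ _, ← P.E_mul_ce fa]
    refine P.E_le_const fun w hw => ?_
    have h3 : P.ce Z (fun u => ind (¬ b u)) w = a w / P.m Z w := rfl
    rw [h3]
    by_cases h4 : a w = 0
    · rw [h4]
      norm_num
    · have h5 := (P.m_pos Z hw).ne'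
      exact le_of_eq (by field_simp)
  refine h1.trans ?_
  rw [P.E_add]
  have e3 : P.E (fun w => ind (¬ b w) * (P.m Z w / a w - 1)) =
      P.E (fun w => ind (¬ b w) * (P.m Z w / a w)) - P.E (fun w => ind (¬ b w)) := by
    rw [← P.E_sub]
    exact P.E_congr fun w _ => by ring
  have e4 : P.E (fun w => ind (¬ b w)) = 1 - P.E (fun w => ind (b w)) := P.Pr_not b
  have e5 : P.E (fun w => ind (b w) * (Real.log (1 / P.pv Z g w (g w)) + 1)) =
      P.E (fun w => ind (b w) * Real.log (1 / P.pv Z g w (g w))) + P.E (fun w => ind (b w)) := by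
    rw [← P.E_add]
    exact P.E_congr fun w _ => by ring
  rw [e3, e4, e5]
  linarith

/-- conditional probabilities depend on the fibre of the point only -/
theorem pv_of_iff {ι ι' : Type*} {Z : Om → ι} {Z' : Om → ι'} (F : Om → χ) {w : Om} (h : ∀ u, Z u = Z w ↔ Z' u = Z' w)
    (x : χ) : P.pv Z F w x = P.pv Z' F w x := by
  unfold FP.pv FP.ce FP.m
  have e : ∀ u, ind (Z u = Z w) = ind (Z' u = Z' w) := fun u => congrArg ind (propext (h u))
  congr 1
  · exact P.E_congr fun u _ => by rw [e u]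
  · exact P.E_congr fun u _ => e u

end abs

/-! ### cells -/

/-- counting tuples with conditions on every coordinate -/
theorem sum_box {β : Type} [Fintype β] (Q : Fin 3 → β → Prop) :
    ∑ y : Fin 3 → β, ind (∀ j, Q j (y j)) = ∏ j, ∑ b, ind (Q j b) := by
  have h2 := Finset.prod_univ_sum (fun _ : Fin 3 => (univ : Finset β)) (fun j b => ind (Q j b))
  rw [Fintype.piFinset_univ] at h2
  rw [h2]
  refine Finset.sum_congr rfl fun y _ => ?_
  by_cases h : ∀ j, Q j (y j)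
  · rw [ind_of h]
    exact (Finset.prod_eq_one fun j _ => ind_of (h j)).symm
  · rw [ind_not h]
    push Not at h
    obtain ⟨j, hj⟩ := h
    exact (Finset.prod_eq_zero (mem_univ j) (ind_not hj)).symm

/-- **conditions which take the part `th` of every cell of every coordinate** -/
theorem sum_cells {β γ : Type} [Fintype β] (q : β → γ) (s : Fin 3 → β → Prop) (th : ℝ)
    (hs : ∀ j b0, ∑ b, ind (q b = q b0 ∧ s j b) = th * ∑ b, ind (q b = q b0))
    (F : (Fin 3 → β) → ℝ) (hF : ∀ y y', (∀ j, q (y j) = q (y' j)) → F y = F y') :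
    ∑ y, F y * ind (∀ j, s j (y j)) = th ^ 3 * ∑ y, F y := by
  set c : (Fin 3 → β) → ℝ := fun y => ∑ y' : Fin 3 → β, ind (∀ j, q (y' j) = q (y j)) with hc
  have c0 : ∀ y, 0 < c y := fun y => by
    have h1 : ind (∀ j, q (y j) = q (y j)) = 1 := ind_of fun _ => rfl
    have h2 := Finset.single_le_sum (f := fun y' : Fin 3 → β => ind (∀ j, q (y' j) = q (y j)))
      (fun _ _ => ind_nonneg _) (mem_univ y)
    simp only [hc]
    have h3 : (0 : ℝ) < 1 := one_pos
    have h4 : ind (∀ j, q (y j) = q (y j)) ≤ ∑ y' : Fin 3 → β, ind (∀ j, q (y' j) = q (y j)) := h2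
    rw [h1] at h4
    linarith
  have cc : ∀ y y' : Fin 3 → β, (∀ j, q (y j) = q (y' j)) → c y = c y' := fun y y' h => by
    simp only [hc]
    refine Finset.sum_congr rfl fun z _ => congrArg ind (propext ?_)
    exact ⟨fun h1 j => (h1 j).trans (h j), fun h1 j => (h1 j).trans (h j).symm⟩
  have h1 : ∀ y, F y * ind (∀ j, s j (y j)) =
      ∑ y', F y' * ind (∀ j, q (y' j) = q (y j)) * ind (∀ j, s j (y j)) / c y' := by
    intro y
    have e1 : ∀ y', F y' * ind (∀ j, q (y' j) = q (y j)) * ind (∀ j, s j (y j)) / c y' =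
        F y * ind (∀ j, s j (y j)) / c y * ind (∀ j, q (y' j) = q (y j)) := by
      intro y'
      by_cases h : ∀ j, q (y' j) = q (y j)
      · rw [ind_of h, hF y' y h, cc y' y h]
        ring
      · rw [ind_not h]
        ring
    rw [Finset.sum_congr rfl fun y' _ => e1 y', ← Finset.mul_sum]
    have e2 : ∑ y' : Fin 3 → β, ind (∀ j, q (y' j) = q (y j)) = c y := rfl
    rw [e2]
    have := (c0 y).ne'
    field_simp
  rw [Finset.sum_congr rfl fun y _ => h1 y, Finset.sum_comm, Finset.mul_sum]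
  refine Finset.sum_congr rfl fun y' _ => ?_
  have e3 : ∑ y : Fin 3 → β, F y' * ind (∀ j, q (y' j) = q (y j)) * ind (∀ j, s j (y j)) / c y' =
      F y' / c y' * ∑ y : Fin 3 → β, ind (∀ j, q (y j) = q (y' j) ∧ s j (y j)) := by
    rw [Finset.mul_sum]
    refine Finset.sum_congr rfl fun y _ => ?_
    have e4 : ind (∀ j, q (y j) = q (y' j) ∧ s j (y j)) = ind (∀ j, q (y' j) = q (y j)) * ind (∀ j, s j (y j)) := by
      rw [← ind_and]
      refine congrArg ind (propext ?_)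
      exact ⟨fun h => ⟨fun j => (h j).1.symm, fun j => (h j).2⟩, fun h j => ⟨(h.1 j).symm, h.2 j⟩⟩
    rw [e4]
    ring
  have e5 : ∑ y : Fin 3 → β, ind (∀ j, q (y j) = q (y' j) ∧ s j (y j)) = th ^ 3 * c y' := by
    rw [sum_box fun j b => q b = q (y' j) ∧ s j b]
    simp only [hc]
    rw [sum_box fun j b => q b = q (y' j)]
    rw [Finset.prod_congr rfl fun j _ => hs j (y' j), Finset.prod_mul_distrib, Finset.prod_const, Finset.card_univ,
      Fintype.card_fin]
  rw [e3, e5]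
  have := (c0 y').ne'
  field_simp

section hd

variable {X β γ φ : Type} [Fintype X] [Fintype β] [Fintype φ] [Nonempty X] [Nonempty β]
variable {D : HD (Fin 3) X β γ φ} {al : ℝ} (h : D.Thick al)
  {v : ℕ → Finset (Fin 3) → X → (Fin 3 → β) → Pt (Fin 3) X β φ}
variable {dg : ℕ → X → ℝ} {prr : ℕ → Fin 3 → φ → φ} {T : ℕ} {Lam : ℝ}

open Classical in
/-- a point of the cell `g` of the time `t` -/
def rp0 (D : HD (Fin 3) X β γ φ) (t : ℕ) (g : γ) : β :=
  if hg : ∃ b, D.qb t b = g then hg.choose else Classical.arbitrary β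

open Classical in
/-- a point of the other half of the cell -/
def rp1 (D : HD (Fin 3) X β γ φ) (t : ℕ) (g : γ) : β :=
  if hg : ∃ b, D.qb t b = g ∧ D.qb (t + 1) b ≠ D.qb (t + 1) (rp0 D t g) then hg.choose else rp0 D t g

/-- representatives of the halves -/
def rp (D : HD (Fin 3) X β γ φ) (t : ℕ) (e : Bool) (g : γ) : β := if e then rp1 D t g else rp0 D t g

theorem rp0_qb (t : ℕ) (b : β) : D.qb t (rp0 D t (D.qb t b)) = D.qb t b := by
  have hg : ∃ b', D.qb t b' = D.qb t b := ⟨b, rfl⟩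
  unfold rp0
  rw [dif_pos hg]
  exact hg.choose_spec

theorem rp1_qb (t : ℕ) (b : β) : D.qb t (rp1 D t (D.qb t b)) = D.qb t b := by
  unfold rp1
  split_ifs with hg
  · exact hg.choose_spec.1
  · exact rp0_qb t b

theorem rp_qb (t : ℕ) (e : Bool) (b : β) : D.qb t (rp D t e (D.qb t b)) = D.qb t b := by
  unfold rp
  split_ifs
  · exact rp1_qb t b
  · exact rp0_qb t b

theorem card_cB (t : ℕ) (b0 : β) : ∑ b, ind (D.qb t b = D.qb t b0) = ((D.cB t b0).card : ℝ) := by
  classical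
  unfold HD.cB ind
  rw [Finset.sum_boole]

/-- the representatives meet all cells -/
theorem rp_cov (H : D.Hyp dg prr al T Lam) {t : ℕ} (ht : t < T) (b : β) :
    ∃ e, D.qb (t + 1) b = D.qb (t + 1) (rp D t e (D.qb t b)) := by
  classical
  by_cases h0 : D.qb (t + 1) b = D.qb (t + 1) (rp0 D t (D.qb t b))
  · exact ⟨false, h0⟩
  · have hg : ∃ b', D.qb t b' = D.qb t b ∧ D.qb (t + 1) b' ≠ D.qb (t + 1) (rp0 D t (D.qb t b)) := ⟨b, rfl, h0⟩
    refine ⟨true, ?_⟩
    have e1 : rp D t true (D.qb t b) = hg.choose := by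
      unfold rp rp1
      rw [if_pos rfl, dif_pos hg]
    rw [e1]
    obtain ⟨h1, h2⟩ := hg.choose_spec
    set b1 := hg.choose with hb1
    set b0 := rp0 D t (D.qb t b) with hb0
    have hq0 : D.qb t b0 = D.qb t b := rp0_qb t b
    rcases H.half t ht with hh | hh
    · exact absurd (mem_cB.1 (show b ∈ D.cB (t + 1) b0 by rw [hh b0]; exact mem_cB.2 hq0.symm)) h0
    · by_contra hne
      have s0 : D.cB (t + 1) b ⊆ D.cB t b := fun x hx => mem_cB.2 (D.rb t _ _ (mem_cB.1 hx))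
      have s1 : D.cB (t + 1) b0 ⊆ D.cB t b := fun x hx => mem_cB.2 ((D.rb t _ _ (mem_cB.1 hx)).trans hq0)
      have s2 : D.cB (t + 1) b1 ⊆ D.cB t b := fun x hx => mem_cB.2 ((D.rb t _ _ (mem_cB.1 hx)).trans h1)
      have c0 : 2 * (D.cB (t + 1) b0).card = (D.cB t b).card := by
        rw [hh b0]
        congr 1
        ext x
        rw [mem_cB, mem_cB, hq0]
      have c1 : 2 * (D.cB (t + 1) b1).card = (D.cB t b).card := by
        rw [hh b1]
        congr 1
        ext x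
        rw [mem_cB, mem_cB, h1]
      have d01 : Disjoint (D.cB (t + 1) b0) (D.cB (t + 1) b1) := by
        rw [Finset.disjoint_left]
        intro x hx hx'
        exact h2 ((mem_cB.1 hx').symm.trans (mem_cB.1 hx))
      have hu : (D.cB (t + 1) b0) ∪ (D.cB (t + 1) b1) = D.cB t b := by
        refine Finset.eq_of_subset_of_card_le (Finset.union_subset s1 s2) ?_
        rw [Finset.card_union_of_disjoint d01]
        omega
      have hb : b ∈ (D.cB (t + 1) b0) ∪ (D.cB (t + 1) b1) := by rw [hu]; exact mem_cB.2 rfl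
      rcases Finset.mem_union.1 hb with h3 | h3
      · exact h0 (mem_cB.1 h3)
      · exact hne (mem_cB.1 h3)

/-- the representatives of the cells of the known points -/
def yr (D : HD (Fin 3) X β γ φ) (t : ℕ) (e : Fin 3 → Bool) (w : Pt (Fin 3) X β φ) : Fin 3 → β :=
  fun j => rp D t (e j) (D.qb t (w.2.1 j))

/-- the known points are in the halves of the representatives -/
def Ce (D : HD (Fin 3) X β γ φ) (t : ℕ) (e : Fin 3 → Bool) (w : Pt (Fin 3) X β φ) : Prop :=
  ∀ j, D.qb (t + 1) (w.2.1 j) = D.qb (t + 1) (yr D t e w j)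

theorem Ce_cov (H : D.Hyp dg prr al T Lam) {t : ℕ} (ht : t < T) (w : Pt (Fin 3) X β φ) : ∃ e, Ce D t e w := by
  choose e he using fun j => rp_cov H ht (w.2.1 j)
  exact ⟨e, he⟩

/-- hidden point and cells -/
def sg (D : HD (Fin 3) X β γ φ) (t : ℕ) (w : Pt (Fin 3) X β φ) : X × (Fin 3 → γ) := (w.1, fun j => D.qb t (w.2.1 j))

theorem sg_eq {t : ℕ} {a b : Pt (Fin 3) X β φ} : sg D t a = sg D t b ↔
    a.1 = b.1 ∧ ∀ j, D.qb t (a.2.1 j) = D.qb t (b.2.1 j) := by
  unfold sg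
  rw [Prod.mk.injEq, funext_iff]

/-- **the halves do not see (hidden point, cells)** -/
theorem E_Ce (H : D.Hyp dg prr al T Lam) {t : ℕ} (ht : t < T) : ∃ th : ℝ, 1 / 8 ≤ th ∧ ∀ (e : Fin 3 → Bool)
    {f : Pt (Fin 3) X β φ → ℝ}, Fac (sg D t) f → (D.P h t).E (fun w => f w * ind (Ce D t e w)) = th * (D.P h t).E f := by
  classical
  obtain ⟨w0, _⟩ := (D.P h t).exists_p_ne
  obtain ⟨r, hr, hr2⟩ : ∃ r : ℝ, 1 / 2 ≤ r ∧ ∀ b0 : β, ((D.cB (t + 1) b0).card : ℝ) = r * ((D.cB t b0).card : ℝ) := by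
    rcases H.half t ht with hh | hh
    · exact ⟨1, by norm_num, fun b0 => by rw [hh b0, one_mul]⟩
    · refine ⟨1 / 2, le_rfl, fun b0 => ?_⟩
      have h1 : (2 : ℝ) * ((D.cB (t + 1) b0).card : ℝ) = ((D.cB t b0).card : ℝ) := by exact_mod_cast hh b0
      linarith
  refine ⟨r ^ 3, ?_, fun e f hf => ?_⟩
  · have h1 : (1 / 2 : ℝ) ^ 3 ≤ r ^ 3 := pow_le_pow_left₀ (by norm_num) hr 3
    norm_num at h1 ⊢
    linarith
  have e1 : (D.P h t).E (fun w => f w * ind (Ce D t e w)) =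
      (FP.unif (X × (Fin 3 → β))).E (fun z => f (z.1, z.2, w0.2.2) * ind (Ce D t e (z.1, z.2, w0.2.2))) := by
    rw [← E_pts h t fun z => f (z.1, z.2, w0.2.2) * ind (Ce D t e (z.1, z.2, w0.2.2))]
    refine (D.P h t).E_congr fun w _ => ?_
    rw [hf w (w.1, w.2.1, w0.2.2) rfl]
    rfl
  have e2 : (D.P h t).E f = (FP.unif (X × (Fin 3 → β))).E (fun z => f (z.1, z.2, w0.2.2)) := by
    rw [← E_pts h t fun z => f (z.1, z.2, w0.2.2)]
    refine (D.P h t).E_congr fun w _ => ?_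
    exact hf w (w.1, w.2.1, w0.2.2) rfl
  rw [e1, e2, FP.unif_E, FP.unif_E, mul_div_assoc', Fintype.sum_prod_type, Fintype.sum_prod_type, Finset.mul_sum]
  congr 1
  refine Finset.sum_congr rfl fun x _ => ?_
  have key := sum_cells (D.qb t) (fun j b => D.qb (t + 1) b = D.qb (t + 1) (rp D t (e j) (D.qb t b))) r ?_
    (fun y => f (x, y, w0.2.2)) fun y y' hy => hf _ _ (sg_eq.2 ⟨rfl, hy⟩)
  · exact key
  · intro j b0
    rw [card_cB, show (∑ b, ind (D.qb t b = D.qb t b0 ∧ D.qb (t + 1) b = D.qb (t + 1) (rp D t (e j) (D.qb t b)))) =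
      ∑ b, ind (D.qb (t + 1) b = D.qb (t + 1) (rp D t (e j) (D.qb t b0))) from Finset.sum_congr rfl fun b _ =>
        congrArg ind (propext ⟨fun hh => by rw [← hh.1]; exact hh.2, fun hh => ?_⟩), card_cB, hr2]
    · have h1 : D.cB t (rp D t (e j) (D.qb t b0)) = D.cB t b0 := by
        ext x
        rw [mem_cB, mem_cB, rp_qb]
      rw [h1]
    · have h1 : D.qb t b = D.qb t b0 := (D.rb t _ _ hh).trans (rp_qb t (e j) b0)
      exact ⟨h1, by rw [h1]; exact hh⟩

/-! ### the states -/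

theorem Um_nd (hv : Codes D v) {s t : ℕ} (hs : s ≤ t + 1) (x : X) {y y' : Fin 3 → β}
    (hy : ∀ j, D.qb t (y j) = D.qb t (y' j)) : Um v s ∅ x y = Um v s ∅ x y' := by
  unfold Um
  rw [List.map_inj_left]
  intro r hr
  have hr' := List.mem_range.1 hr
  exact hv r ∅ x y y' (fun j hj => absurd hj (Finset.notMem_empty j)) fun j => qb_le (by omega) (hy j)

theorem nc_z (t : ℕ) (J : Finset (Fin 3)) : nc (5 * t) J = t + 1 := by
  unfold nc ncj
  rw [Nat.mul_mod_right, Nat.mul_div_cancel_left t (by norm_num), if_neg (Nat.not_lt_zero _)]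

theorem nn_z (t : ℕ) : TP.nn (5 * t) = t := by
  unfold TP.nn TP.nnj
  rw [Nat.mul_mod_right, Nat.mul_div_cancel_left t (by norm_num), if_pos rfl]

theorem nc_e {j : ℕ} (hj : j = 1 ∨ j = 2) (t : ℕ) : nc (5 * t + j) ∅ = t + j := by
  rw [nc_add t j (by unfold pth; simp) (by omega)]
  unfold ncj rk
  rcases hj with rfl | rfl <;> simp

theorem nn_e {j : ℕ} (hj : j = 1 ∨ j = 2) (t : ℕ) : TP.nn (5 * t + j) = t + 1 := by
  rw [nn_add t j (by omega)]
  unfold TP.nnj
  rw [if_neg (by omega)]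

theorem nc_l {j : ℕ} (hj : j = 1 ∨ j = 2) (t : ℕ) (l : Fin 3) : nc (5 * t + j) {l} = t + 1 := by
  rw [nc_i t j (by omega) l, if_neg (by omega)]

theorem N5_eq {t : ℕ} {a b : Pt (Fin 3) X β φ} : NPq D v (5 * t) a = NPq D v (5 * t) b ↔
    Um v (t + 1) ∅ a.1 a.2.1 = Um v (t + 1) ∅ b.1 b.2.1 ∧ D.qa t a.1 = D.qa t b.1 ∧
      ∀ j, D.qb t (a.2.1 j) = D.qb t (b.2.1 j) := by
  show ((Um v (nc (5 * t) ∅) ∅ a.1 a.2.1, (D.qa (TP.nn (5 * t)) a.1, fun j => D.qb (TP.nn (5 * t)) (a.2.1 j))) =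
    (Um v (nc (5 * t) ∅) ∅ b.1 b.2.1, (D.qa (TP.nn (5 * t)) b.1, fun j => D.qb (TP.nn (5 * t)) (b.2.1 j)))) ↔ _
  rw [nc_z, nn_z, Prod.mk.injEq, Prod.mk.injEq, funext_iff]

theorem Nj_eq {j : ℕ} (hj : j = 1 ∨ j = 2) {t : ℕ} {a b : Pt (Fin 3) X β φ} :
    NPq D v (5 * t + j) a = NPq D v (5 * t + j) b ↔
    Um v (t + j) ∅ a.1 a.2.1 = Um v (t + j) ∅ b.1 b.2.1 ∧ D.qa (t + 1) a.1 = D.qa (t + 1) b.1 ∧
      ∀ k, D.qb (t + 1) (a.2.1 k) = D.qb (t + 1) (b.2.1 k) := by
  show ((Um v (nc (5 * t + j) ∅) ∅ a.1 a.2.1, (D.qa (TP.nn (5 * t + j)) a.1, fun k => D.qb (TP.nn (5 * t + j)) (a.2.1 k))) =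
    (Um v (nc (5 * t + j) ∅) ∅ b.1 b.2.1, (D.qa (TP.nn (5 * t + j)) b.1, fun k => D.qb (TP.nn (5 * t + j)) (b.2.1 k)))) ↔ _
  rw [nc_e hj, nn_e hj, Prod.mk.injEq, Prod.mk.injEq, funext_iff]

theorem N5_sg (hv : Codes D v) (t : ℕ) : Fac (sg (φ := φ) D t) (NPq D v (5 * t)) := by
  intro a b hab
  obtain ⟨h1, h2⟩ := sg_eq.1 hab
  refine N5_eq.2 ⟨?_, by rw [h1], h2⟩
  rw [h1]
  exact Um_nd hv le_rfl _ h2

/-- the public additions, computed at the representatives -/
def gq (v : ℕ → Finset (Fin 3) → X → (Fin 3 → β) → Pt (Fin 3) X β φ) (D : HD (Fin 3) X β γ φ) (t q : ℕ)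
    (e : Fin 3 → Bool) (w : Pt (Fin 3) X β φ) : List (Pt (Fin 3) X β φ) × (γ × (Fin 3 → γ)) :=
  NPq D v q (w.1, yr D t e w, w.2.2)

theorem yr_eq {t : ℕ} {e : Fin 3 → Bool} {a b : Pt (Fin 3) X β φ} (h2 : ∀ j, D.qb t (a.2.1 j) = D.qb t (b.2.1 j)) :
    yr D t e a = yr D t e b := by
  funext j
  unfold yr
  rw [h2 j]

theorem gq_sg (t q : ℕ) (e : Fin 3 → Bool) : Fac (sg (φ := φ) D t) (gq v D t q e) := by
  intro a b hab
  obtain ⟨h1, h2⟩ := sg_eq.1 hab
  show NPq D v q (a.1, yr D t e a, a.2.2) = NPq D v q (b.1, yr D t e b, b.2.2)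
  rw [h1, yr_eq h2]
  rfl

theorem gq_Ce (hv : Codes D v) {j : ℕ} (hj : j = 1 ∨ j = 2) {t : ℕ} {e : Fin 3 → Bool} {w : Pt (Fin 3) X β φ}
    (hw : Ce D t e w) : NPq D v (5 * t + j) w = gq v D t (5 * t + j) e w := by
  unfold gq
  rw [Nj_eq hj]
  exact ⟨Um_nd hv (by omega) _ hw, rfl, hw⟩

/-- two points of one class, the second in the halves `e` : the new class is the class of the additions at the
representatives and the halves -/
theorem Nj_iff (hv : Codes D v) {j : ℕ} (hj : j = 1 ∨ j = 2) {t : ℕ} {e : Fin 3 → Bool} {u w : Pt (Fin 3) X β φ}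
    (hw : Ce D t e w) : NPq D v (5 * t + j) u = NPq D v (5 * t + j) w ↔
      ((gq v D t (5 * t + j) e u, NPq D v (5 * t) u) = (gq v D t (5 * t + j) e w, NPq D v (5 * t) w) ∧ Ce D t e u) := by
  constructor
  · intro hu
    obtain ⟨h1, h2, h3⟩ := (Nj_eq hj).1 hu
    have h4 : ∀ k, D.qb t (u.2.1 k) = D.qb t (w.2.1 k) := fun k => D.rb t _ _ (h3 k)
    have h5 : Ce D t e u := fun k => by rw [h3 k, hw k, yr_eq h4]
    refine ⟨Prod.ext ?_ (N5_eq.2 ⟨?_, D.ra t _ _ h2, h4⟩), h5⟩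
    · show gq v D t (5 * t + j) e u = gq v D t (5 * t + j) e w
      rw [← gq_Ce hv hj h5, ← gq_Ce hv hj hw]
      exact hu
    · rcases hj with rfl | rfl
      · exact h1
      · exact (Um_eq.1 h1).1
  · rintro ⟨h1, h3⟩
    rw [gq_Ce hv hj h3, gq_Ce hv hj hw]
    exact (Prod.mk.inj h1).1

/-- the digit instead of the additions -/
theorem N1_iff (H : D.Hyp dg prr al T Lam) {t : ℕ} (ht : t < T) {e : Fin 3 → Bool}
    {u w : Pt (Fin 3) X β φ} (hw : Ce D t e w) : NPq D v (5 * t + 1) u = NPq D v (5 * t + 1) w ↔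
      ((dg t u.1, NPq D v (5 * t) u) = (dg t w.1, NPq D v (5 * t) w) ∧ Ce D t e u) := by
  rw [Nj_eq (Or.inl rfl), Prod.mk.injEq, N5_eq, H.dg_cell t ht]
  constructor
  · rintro ⟨h1, h2, h3⟩
    have h4 : ∀ k, D.qb t (u.2.1 k) = D.qb t (w.2.1 k) := fun k => D.rb t _ _ (h3 k)
    exact ⟨⟨h2.2, h1, h2.1, h4⟩, fun k => by rw [h3 k, hw k, yr_eq h4]⟩
  · rintro ⟨⟨h1, h2, h3, h4⟩, h5⟩
    exact ⟨h2, ⟨h3, h1⟩, fun k => by rw [h5 k, hw k, yr_eq h4]⟩

/-- masses of classes and halves -/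
theorem m_Ce {t : ℕ} {th : ℝ} {e : Fin 3 → Bool} (hth : ∀ {f : Pt (Fin 3) X β φ → ℝ}, Fac (sg D t) f →
    (D.P h t).E (fun w => f w * ind (Ce D t e w)) = th * (D.P h t).E f) {κ ι : Type*} {Z : Pt (Fin 3) X β φ → κ}
    {Z' : Pt (Fin 3) X β φ → ι} (hZ : Fac (sg D t) Z') {w : Pt (Fin 3) X β φ}
    (hi : ∀ u, Z u = Z w ↔ (Z' u = Z' w ∧ Ce D t e u)) : (D.P h t).m Z w = th * (D.P h t).m Z' w := by
  unfold FP.m
  rw [← hth (f := fun u => ind (Z' u = Z' w)) (Fac.ind fun a b hab => by rw [hZ a b hab])]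
  refine (D.P h t).E_congr fun u _ => ?_
  rw [← ind_and]
  exact congrArg ind (propext (hi u))

/-! ### saturation -/

theorem FQ_AA (hv : Codes D v) (t : ℕ) (i : Fin 3) :
    Fac (fun w : Pt (Fin 3) X β φ => (AA (univ.erase i) w, BB D t (univ.erase i) w)) (FQ v t i) := by
  intro a b hab
  show LL (Um v (t + 1)) (univ.erase i) a = LL (Um v (t + 1)) (univ.erase i) b
  rw [LL_eq]
  exact ⟨Um_AA hv le_rfl (Finset.Subset.refl _) hab, fun l hl =>
    (AA_eq.1 (Prod.mk.inj hab).1).2 l (hl ▸ Finset.Subset.refl _)⟩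

theorem Zb_eq (t : ℕ) (i : Fin 3) : ZbQ (φ := φ) D v (5 * t) i =
    fun w => (lo (LL (Um v (t + 1))) (univ.erase i) w, BB D t (univ.erase i) w) := ZbQ_0 t i

/-- **saturation against a function of the hidden point and the cells** -/
theorem pub_gain {n N1 : ℝ} (R : Run h (pr3 (Fin 3) n N1) (SS1 (Fin 3)) (AdmDep D) v) (hn : 1 ≤ n) (hN1 : 1 ≤ N1)
    (t : ℕ) (i : Fin 3) {κ : Type*} {W : Pt (Fin 3) X β φ → κ} (hW : Fac (sg D t) W) :
    n * N1 * (D.P h t).I W (FQ v t i) (ZbQ D v (5 * t) i) ≤ 2 * (D.P h t).Hc W (NPq D v (5 * t)) := by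
  classical
  set P := D.P h t with hP
  set L := LL (φ := φ) (Um v (t + 1)) with hL
  have hN : ∀ J ∈ SS1 (Fin 3), 0 ≤ pr3 (Fin 3) n N1 J := fun J _ => zero_le_one.trans (pr3_one hn hN1 J)
  have hsat : SatA P (BB D t) (pr3 (Fin 3) n N1) (SS1 (Fin 3)) L (Dep D t) := R.dep hN t
  have h0 : 0 ≤ Phi P (BB D t) (pr3 (Fin 3) n N1) (SS1 (Fin 3)) L (fun _ => W) :=
    hsat.gen (fun _ => W) fun J a b h1 _ h3 => hW a b (sg_eq.2 ⟨h1, h3⟩)
  have hei : univ.erase i ≠ (∅ : Finset (Fin 3)) := by revert i; decide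
  have h1S : univ.erase i ∈ SS1 (Fin 3) := mem_SS1.2 (by revert i; decide)
  have h2S : (∅ : Finset (Fin 3)) ∈ SS1 (Fin 3) := mem_SS1.2 (by decide)
  have hg : ∀ J, 0 ≤ gain P (BB D t) L (fun _ => W) J := fun J => P.I_nonneg _ _ _
  have hc : ∀ J, J ≠ ∅ → cost P (BB D t) L (fun _ => W) J = 0 := by
    intro J hJ
    refine Hc_of_fac P fun a b hab => ?_
    have h3 : lo (fun _ => W) J a = lo (fun _ => W) J b := (Prod.mk.inj hab).1
    exact lo_eq.1 h3 ∅ (Finset.ssubset_iff_subset_ne.2 ⟨Finset.empty_subset _, Ne.symm hJ⟩)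
  have key : ∀ J ∈ SS1 (Fin 3), pr3 (Fin 3) n N1 J * (2 * cost P (BB D t) L (fun _ => W) J -
      gain P (BB D t) L (fun _ => W) J) ≤
      (if J = ∅ then 2 * cost P (BB D t) L (fun _ => W) ∅ else 0) -
        (if J = univ.erase i then n * N1 * gain P (BB D t) L (fun _ => W) (univ.erase i) else 0) := by
    intro J hJ
    by_cases c0 : J = ∅
    · subst c0
      rw [if_pos rfl, if_neg (Ne.symm hei), V3.VT.prN0]
      have := hg ∅
      linarith
    · rw [if_neg c0, hc J c0]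
      by_cases c1 : J = univ.erase i
      · subst c1
        rw [if_pos rfl, pr3_top card3 n N1 i]
        linarith
      · rw [if_neg c1]
        have := mul_nonneg (hN J hJ) (hg J)
        linarith
  have h1 := Finset.sum_le_sum key
  rw [Finset.sum_sub_distrib, Finset.sum_ite_eq' _ ∅, if_pos h2S, Finset.sum_ite_eq' _ (univ.erase i), if_pos h1S] at h1
  have h2 : n * N1 * gain P (BB D t) L (fun _ => W) (univ.erase i) ≤ 2 * cost P (BB D t) L (fun _ => W) ∅ := by
    unfold Phi at h0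
    linarith
  have h3 : cost P (BB D t) L (fun _ => W) ∅ ≤ P.Hc W (NPq D v (5 * t)) := by
    refine P.Hc_anti W fun a b hab => ?_
    obtain ⟨-, h4⟩ := Prod.mk.inj hab
    obtain ⟨h5, h6⟩ := Prod.mk.inj h4
    have h7 := BB_eq.1 h6
    exact N5_eq.2 ⟨(LL_eq.1 (le_eq.1 h5 ∅ (Finset.Subset.refl _))).1, h7.2.1, h7.2.2⟩
  have h4 : P.I W (FQ v t i) (ZbQ D v (5 * t) i) ≤ gain P (BB D t) L (fun _ => W) (univ.erase i) := by
    rw [Zb_eq]
    unfold gain
    rw [P.I_comm (L (univ.erase i))]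
    refine P.I_mono (X := lo (fun _ => W) (univ.erase i)) (X' := W) (FQ v t i) fun a b hab => ?_
    have h5 : lo (fun _ => W) (univ.erase i) a = lo (fun _ => W) (univ.erase i) b := (Prod.mk.inj hab).1
    exact lo_eq.1 h5 ∅ (Finset.ssubset_iff_subset_ne.2 ⟨Finset.empty_subset _, Ne.symm hei⟩)
  have h5 : 0 ≤ n * N1 := by positivity
  have h6 := mul_le_mul_of_nonneg_left h4 h5
  linarith

/-- **the half of the missing point is free** -/
theorem cell_free (hv : Codes D v) (t : ℕ) (i : Fin 3) {κ : Type*} {G : Pt (Fin 3) X β φ → κ} (hG : Fac (sg D t) G) :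
    (D.P h t).I (fun w => (D.qb (t + 1) (w.2.1 i), G w)) (FQ v t i) (ZbQ D v (5 * t) i) ≤
      (D.P h t).I G (FQ v t i) (ZbQ D v (5 * t) i) := by
  have h1 := (D.P h t).I_chain (fun w : Pt (Fin 3) X β φ => D.qb (t + 1) (w.2.1 i)) G (FQ v t i) (ZbQ D v (5 * t) i)
  have hGA : Fac (fun w : Pt (Fin 3) X β φ => (AA (univ.erase i) w, BB D t (univ.erase i) w)) G := by
    intro a b hab
    exact hG a b (sg_eq.2 ⟨(AA_eq.1 (Prod.mk.inj hab).1).1, (BB_eq.1 (Prod.mk.inj hab).2).2.2⟩)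
  have h2 := TG.I_miss h (le_refl t) i (V := FQ v t i) (R := fun w => (G w, lo (LL (Um v (t + 1))) (univ.erase i) w))
    (FQ_AA hv t i) (hGA.prod (TG.lo_AA' hv le_rfl _))
  have h3 : (D.P h t).I (fun w : Pt (Fin 3) X β φ => w.2.1 i) (FQ v t i) (fun w => (G w, ZbQ D v (5 * t) i w)) = 0 := by
    rw [← h2, Zb_eq]
    refine (D.P h t).I_congr_cond (fun a b hab => ?_) fun a b hab => ?_
    · simp only [Prod.mk.injEq] at hab ⊢
      exact ⟨⟨hab.1, hab.2.1⟩, hab.2.2⟩
    · simp only [Prod.mk.injEq] at hab ⊢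
      exact ⟨hab.1.1, hab.1.2, hab.2⟩
  have h4 : (D.P h t).I (fun w : Pt (Fin 3) X β φ => D.qb (t + 1) (w.2.1 i)) (FQ v t i)
      (fun w => (G w, ZbQ D v (5 * t) i w)) ≤
      (D.P h t).I (fun w : Pt (Fin 3) X β φ => w.2.1 i) (FQ v t i) (fun w => (G w, ZbQ D v (5 * t) i w)) :=
    (D.P h t).I_mono (X := fun w : Pt (Fin 3) X β φ => w.2.1 i) (FQ v t i) fun a b hab => by
      show D.qb (t + 1) (a.2.1 i) = D.qb (t + 1) (b.2.1 i)
      rw [(Prod.mk.inj hab).1]
  linarith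

/-! ### the unexpected additions -/

/-- the digit is not expected, the value of the code is at least half of it -/
def bdw (v : ℕ → Finset (Fin 3) → X → (Fin 3 → β) → Pt (Fin 3) X β φ) (dg : ℕ → X → ℝ) (eps0 : ℝ) (t q : ℕ)
    (e : Fin 3 → Bool) (w : Pt (Fin 3) X β φ) : Prop :=
  (D.P h t).pv (NPq D v (5 * t)) (fun u => dg t u.1) w (dg t w.1) ≤ 16 * eps0 ∧
    (D.P h t).pv (NPq D v (5 * t)) (fun u => dg t u.1) w (dg t w.1) ≤
      2 * (D.P h t).pv (NPq D v (5 * t)) (gq v D t q e) w (gq v D t q e w)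

open Classical in
/-- the additions, cut -/
def Gq (v : ℕ → Finset (Fin 3) → X → (Fin 3 → β) → Pt (Fin 3) X β φ) (dg : ℕ → X → ℝ) (eps0 : ℝ) (t q : ℕ)
    (e : Fin 3 → Bool) (w : Pt (Fin 3) X β φ) : Option (List (Pt (Fin 3) X β φ) × (γ × (Fin 3 → γ))) :=
  if bdw h v dg eps0 t q e w then some (gq v D t q e w) else none

theorem gq_dg (H : D.Hyp dg prr al T Lam) {t : ℕ} (ht : t < T) {j : ℕ} (hj : j = 1 ∨ j = 2) {e : Fin 3 → Bool}
    {a b : Pt (Fin 3) X β φ} (hab : gq v D t (5 * t + j) e a = gq v D t (5 * t + j) e b) : dg t a.1 = dg t b.1 := by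
  have h1 := ((Nj_eq hj).1 hab).2.1
  exact ((H.dg_cell t ht _ _).1 h1).2

theorem bdw_iff (H : D.Hyp dg prr al T Lam) {t : ℕ} (ht : t < T) {j : ℕ} (hj : j = 1 ∨ j = 2) {eps0 : ℝ}
    {e : Fin 3 → Bool} {a b : Pt (Fin 3) X β φ} (h1 : NPq D v (5 * t) a = NPq D v (5 * t) b)
    (h2 : gq v D t (5 * t + j) e a = gq v D t (5 * t + j) e b) :
    bdw h v dg eps0 t (5 * t + j) e a ↔ bdw h v dg eps0 t (5 * t + j) e b := by
  have e1 : (D.P h t).pv (NPq D v (5 * t)) (fun u => dg t u.1) a (dg t a.1) =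
      (D.P h t).pv (NPq D v (5 * t)) (fun u => dg t u.1) b (dg t b.1) := by
    rw [gq_dg H ht hj h2]
    exact (D.P h t).pv_fac (NPq D v (5 * t)) (fun u => dg t u.1) (dg t b.1) a b h1
  have e2 : (D.P h t).pv (NPq D v (5 * t)) (gq v D t (5 * t + j) e) a (gq v D t (5 * t + j) e a) =
      (D.P h t).pv (NPq D v (5 * t)) (gq v D t (5 * t + j) e) b (gq v D t (5 * t + j) e b) := by
    rw [h2]
    exact (D.P h t).pv_fac (NPq D v (5 * t)) (gq v D t (5 * t + j) e) (gq v D t (5 * t + j) e b) a b h1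
  unfold bdw
  rw [e1, e2]

theorem Gq_pos {t q : ℕ} {eps0 : ℝ} {e : Fin 3 → Bool} {w : Pt (Fin 3) X β φ} (hw : bdw h v dg eps0 t q e w) :
    Gq h v dg eps0 t q e w = some (gq v D t q e w) := if_pos hw

theorem Gq_neg {t q : ℕ} {eps0 : ℝ} {e : Fin 3 → Bool} {w : Pt (Fin 3) X β φ} (hw : ¬ bdw h v dg eps0 t q e w) :
    Gq h v dg eps0 t q e w = none := if_neg hw

theorem Gq_sg (hv : Codes D v) (H : D.Hyp dg prr al T Lam) {t : ℕ} (ht : t < T) {j : ℕ} (hj : j = 1 ∨ j = 2)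
    (eps0 : ℝ) (e : Fin 3 → Bool) : Fac (sg D t) (Gq h v dg eps0 t (5 * t + j) e) := by
  intro a b hab
  have h1 := gq_sg (v := v) t (5 * t + j) e a b hab
  have h2 := bdw_iff h H ht hj (eps0 := eps0) (N5_sg hv t a b hab) h1
  by_cases hb : bdw h v dg eps0 t (5 * t + j) e b
  · rw [Gq_pos h hb, Gq_pos h (h2.2 hb), h1]
  · rw [Gq_neg h hb, Gq_neg h fun hh => hb (h2.1 hh)]

/-- **the entropy of the unexpected additions** -/
theorem Hc_Gq (H : D.Hyp dg prr al T Lam) {t : ℕ} (ht : t < T) {j : ℕ} (hj : j = 1 ∨ j = 2)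
    {eps0 : ℝ} (h0 : 0 < eps0) (h01 : eps0 ≤ 1 / 64) (e : Fin 3 → Bool) :
    (D.P h t).Hc (Gq h v dg eps0 t (5 * t + j) e) (NPq D v (5 * t)) ≤
      64 * (eps0 * (Real.log (1 / eps0) + 1)) * (D.P h t).E (fun w => mm (UU v) h dg t w ^ 2) := by
  set P := D.P h t with hP
  set N := NPq (φ := φ) D v (5 * t) with hN
  set d : Pt (Fin 3) X β φ → ℝ := fun u => dg t u.1 with hd
  have h1 := Hc_cut_le P (Z := N) (g := gq v D t (5 * t + j) e) (G := Gq h v dg eps0 t (5 * t + j) e)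
    (b := bdw h v dg eps0 t (5 * t + j) e) (fun u w e1 e2 => bdw_iff h H ht hj e1 e2)
    (fun u w hu hw => by
      rw [Gq_pos h hu, Gq_pos h hw]
      exact Option.some_inj)
    (fun u w hw => by
      rw [Gq_neg h hw]
      by_cases hu : bdw h v dg eps0 t (5 * t + j) e u
      · rw [Gq_pos h hu]
        exact ⟨fun hh => absurd hh (Option.some_ne_none _), fun hh => absurd hu hh⟩
      · rw [Gq_neg h hu]
        exact ⟨fun _ => hu, fun _ => rfl⟩)
  have h2 : P.E (fun w => ind (bdw h v dg eps0 t (5 * t + j) e w) *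
      (Real.log (1 / P.pv N (gq v D t (5 * t + j) e) w (gq v D t (5 * t + j) e w)) + 1)) ≤
      P.E (fun w => ind (P.pv N d w (d w) ≤ 16 * eps0) * (Real.log (2 / P.pv N d w (d w)) + 1)) := by
    refine P.E_mono fun w hw => ?_
    have pD := P.pv_self_pos N d hw
    have pG := P.pv_self_pos N (gq v D t (5 * t + j) e) hw
    have hl : P.pv N d w (d w) ≤ 16 * eps0 → 0 ≤ Real.log (2 / P.pv N d w (d w)) + 1 := fun h3 => by
      have : 0 ≤ Real.log (2 / P.pv N d w (d w)) := Real.log_nonneg (by rw [le_div_iff₀ pD]; linarith)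
      linarith
    by_cases hb : bdw h v dg eps0 t (5 * t + j) e w
    · have hb1 : P.pv N d w (d w) ≤ 16 * eps0 := hb.1
      have hb2 : P.pv N d w (d w) ≤ 2 * P.pv N (gq v D t (5 * t + j) e) w (gq v D t (5 * t + j) e w) := hb.2
      rw [ind_of hb, ind_of hb1, one_mul, one_mul]
      have h3 : Real.log (1 / P.pv N (gq v D t (5 * t + j) e) w (gq v D t (5 * t + j) e w)) ≤
          Real.log (2 / P.pv N d w (d w)) := by
        refine Real.log_le_log (by positivity) ?_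
        rw [div_le_div_iff₀ pG pD]
        linarith
      linarith
    · rw [ind_not hb, zero_mul]
      by_cases h3 : P.pv N d w (d w) ≤ 16 * eps0
      · rw [ind_of h3, one_mul]
        exact hl h3
      · rw [ind_not h3, zero_mul]
  have h3 : P.E (fun w => ind (P.pv N d w (d w) ≤ 16 * eps0) * (Real.log (2 / P.pv N d w (d w)) + 1)) ≤
      4 * (16 * eps0 * (Real.log (2 / (16 * eps0)) + 1)) * P.E (fun w => mm (UU v) h dg t w ^ 2) := by
    rw [← P.E_ce N, ← P.E_smul]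
    refine P.E_mono fun w hw => ?_
    have h4 := light_psi P (Z := N) (d := d) (fun u => H.dg_val t u.1) (e := 16 * eps0) (by linarith) (by linarith) hw
    have h5 : mm (UU v) h dg t w = P.ce N d w := by
      rw [V3.DA.mm_NP]
      have e5 : N = V3.NP D v (t + 1) t := by
        funext u
        show V3.NP D v (nc (5 * t) ∅) (TP.nn (5 * t)) u = _
        rw [nc_z, nn_z]
      rw [e5]
    rw [h5]
    exact h4
  have h4 : Real.log (2 / (16 * eps0)) ≤ Real.log (1 / eps0) := by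
    refine Real.log_le_log (by positivity) ?_
    rw [div_le_div_iff₀ (by positivity) h0]
    linarith
  have h5 : 0 ≤ P.E (fun w => mm (UU v) h dg t w ^ 2) := P.E_nonneg fun w _ => sq_nonneg _
  have h6 : 4 * (16 * eps0 * (Real.log (2 / (16 * eps0)) + 1)) ≤ 64 * (eps0 * (Real.log (1 / eps0) + 1)) := by
    have := mul_le_mul_of_nonneg_left h4 h0.le
    linarith
  exact h1.trans (h2.trans (h3.trans (mul_le_mul_of_nonneg_right h6 h5)))

/-! ### what the top sees -/

theorem Zq_eq (q : ℕ) (i : Fin 3) {a b : Pt (Fin 3) X β φ} : ZbQ D v q i a = ZbQ D v q i b ↔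
    (∀ I, I ⊂ univ.erase i → Um v (nc q I) I a.1 a.2.1 = Um v (nc q I) I b.1 b.2.1) ∧
      (∀ k ∈ univ.erase i, a.2.1 k = b.2.1 k) ∧ D.qa (TP.nn q) a.1 = D.qa (TP.nn q) b.1 ∧
        ∀ k, D.qb (TP.nn q) (a.2.1 k) = D.qb (TP.nn q) (b.2.1 k) := by
  constructor
  · intro hab
    have h1 := lo_eq.1 (Prod.mk.inj hab).1
    exact ⟨fun I hI => (LL_eq.1 (h1 I hI)).1, BB_eq.1 (Prod.mk.inj hab).2⟩
  · rintro ⟨h1, h2⟩
    exact Prod.ext (lo_eq.2 fun I hI => LL_eq.2 ⟨h1 I hI, fun l hl => absurd hl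
      (er_ne_thin (lt_pth card3 (ne_univ i) hI))⟩) (BB_eq.2 h2)

/-- the fibre of the new state at a point with unexpected additions -/
theorem fib_new (hv : Codes D v) (H : D.Hyp dg prr al T Lam) {t : ℕ} (ht : t < T) {j : ℕ} (hj : j = 1 ∨ j = 2)
    {eps0 : ℝ} {e : Fin 3 → Bool} (i : Fin 3) {w : Pt (Fin 3) X β φ} (hw : Ce D t e w)
    (hb : bdw h v dg eps0 t (5 * t + j) e w) (u : Pt (Fin 3) X β φ) :
    ZbQ D v (5 * t + j) i u = ZbQ D v (5 * t + j) i w ↔
      ((D.qb (t + 1) (u.2.1 i), Gq h v dg eps0 t (5 * t + j) e u), ZbQ D v (5 * t) i u) =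
        ((D.qb (t + 1) (w.2.1 i), Gq h v dg eps0 t (5 * t + j) e w), ZbQ D v (5 * t) i w) := by
  have hem : (∅ : Finset (Fin 3)) ⊂ univ.erase i := by revert i; decide
  constructor
  · intro hu
    obtain ⟨h1, h2, h3, h4⟩ := (Zq_eq _ i).1 hu
    have h5 := h1 ∅ hem
    rw [nc_e hj] at h5
    rw [nn_e hj] at h3 h4
    have h6 : NPq D v (5 * t + j) u = NPq D v (5 * t + j) w := (Nj_eq hj).2 ⟨h5, h3, h4⟩
    obtain ⟨h7, h8⟩ := (Nj_iff hv hj hw).1 h6
    obtain ⟨h9, h10⟩ := Prod.mk.inj h7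
    have h11 := (bdw_iff h H ht hj (eps0 := eps0) h10 h9).2 hb
    refine Prod.ext (Prod.ext (h4 i) ?_) (ZbQ_mono (show 5 * t ≤ 5 * t + j by omega) i u w hu)
    show Gq h v dg eps0 t (5 * t + j) e u = Gq h v dg eps0 t (5 * t + j) e w
    rw [Gq_pos h hb, Gq_pos h h11, h9]
  · intro hu
    obtain ⟨h1, h2⟩ := Prod.mk.inj hu
    obtain ⟨h3, h4⟩ := Prod.mk.inj h1
    obtain ⟨h5, h6, h7, h8⟩ := (Zq_eq _ i).1 h2
    rw [nn_z] at h7 h8
    have h9 : gq v D t (5 * t + j) e u = gq v D t (5 * t + j) e w := by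
      rw [Gq_pos h hb] at h4
      by_cases hbu : bdw h v dg eps0 t (5 * t + j) e u
      · rw [Gq_pos h hbu] at h4
        exact Option.some.inj h4
      · rw [Gq_neg h hbu] at h4
        exact absurd h4.symm (Option.some_ne_none _)
    have h10 : NPq D v (5 * t) u = NPq D v (5 * t) w := by
      refine N5_eq.2 ⟨?_, h7, h8⟩
      have := h5 ∅ hem
      rwa [nc_z] at this
    have h11 : ∀ k, D.qb (t + 1) (u.2.1 k) = D.qb (t + 1) (w.2.1 k) := by
      intro k
      by_cases hk : k = i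
      · rw [hk]
        exact h3
      · rw [h6 k (Finset.mem_erase.2 ⟨hk, mem_univ k⟩)]
    have h12 : Ce D t e u := fun k => by rw [h11 k, hw k, yr_eq h8]
    have h13 : NPq D v (5 * t + j) u = NPq D v (5 * t + j) w := (Nj_iff hv hj hw).2 ⟨Prod.ext h9 h10, h12⟩
    obtain ⟨h14, h15, h16⟩ := (Nj_eq hj).1 h13
    refine (Zq_eq _ i).2 ⟨fun I hI => ?_, h6, by rw [nn_e hj]; exact h15, by rw [nn_e hj]; exact h16⟩
    have h17 : I.card ≤ 1 := lt_pth card3 (ne_univ i) hI
    rcases Nat.lt_or_ge I.card 1 with h18 | h18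
    · have h19 : I = ∅ := Finset.card_eq_zero.1 (by omega)
      subst h19
      rw [nc_e hj]
      exact h14
    · obtain ⟨l, rfl⟩ := Finset.card_eq_one.1 (le_antisymm h17 h18)
      have h19 := h5 {l} hI
      rw [nc_z] at h19
      rw [nc_l hj]
      exact h19

/-- **activity at the unexpected additions**, one system of halves -/
theorem act_e (hv : Codes D v) (H : D.Hyp dg prr al T Lam) {t : ℕ} (ht : t < T) {j : ℕ} (hj : j = 1 ∨ j = 2)
    {eps0 : ℝ} (e : Fin 3 → Bool) (i : Fin 3) {a : ℝ} (ha : 0 < a) (ha1 : a ≤ 1) :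
    (D.P h t).Pr (fun w => Ce D t e w ∧ bdw h v dg eps0 t (5 * t + j) e w ∧ a < |rT h v t (5 * t + j) i w - 1|) ≤
      120 / a ^ 2 * (D.P h t).I (Gq h v dg eps0 t (5 * t + j) e) (FQ v t i) (ZbQ D v (5 * t) i) := by
  set P := D.P h t with hP
  set Y : Pt (Fin 3) X β φ → γ × Option (List (Pt (Fin 3) X β φ) × (γ × (Fin 3 → γ))) :=
    fun w => (D.qb (t + 1) (w.2.1 i), Gq h v dg eps0 t (5 * t + j) e w) with hY
  have h1 := act_real P (ZbQ D v (5 * t) i) (FQ v t i) Y ha ha1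
  rw [gn_eq] at h1
  have h2 := cell_free h hv t i (Gq_sg h hv H ht hj eps0 e)
  have h3 : 120 / a ^ 2 * P.I Y (FQ v t i) (ZbQ D v (5 * t) i) ≤
      120 / a ^ 2 * P.I (Gq h v dg eps0 t (5 * t + j) e) (FQ v t i) (ZbQ D v (5 * t) i) :=
    mul_le_mul_of_nonneg_left h2 (by positivity)
  refine le_trans ?_ (h1.trans h3)
  refine P.Pr_mono fun w hw hh => ?_
  obtain ⟨hc, hb, hr⟩ := hh
  have e1 : rT h v t (5 * t + j) i w = rr P (ZbQ D v (5 * t) i) (FQ v t i) Y w (Y w) (FQ v t i w) := by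
    rw [← real_r P (ZbQ D v (5 * t) i) (FQ v t i) Y hw (FQ v t i w)]
    unfold rT
    rw [pv_of_iff P (FQ v t i) (Z' := fun u => (Y u, ZbQ D v (5 * t) i u)) (fib_new h hv H ht hj i hc hb) (FQ v t i w)]
  rw [← e1]
  exact hr

/-- unexpected additions of a point -/
theorem bdw_of (hv : Codes D v) (H : D.Hyp dg prr al T Lam) {t : ℕ} (ht : t < T) {j : ℕ} (hj : j = 1 ∨ j = 2)
    {eps0 : ℝ} {th : ℝ} (hth : 1 / 8 ≤ th) {e : Fin 3 → Bool}
    (hE : ∀ {f : Pt (Fin 3) X β φ → ℝ}, Fac (sg D t) f →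
      (D.P h t).E (fun w => f w * ind (Ce D t e w)) = th * (D.P h t).E f) {w : Pt (Fin 3) X β φ}
    (hw : (D.P h t).p w ≠ 0) (hc : Ce D t e w) (h2 : j = 2 → HV h v t w) (hp : pN h v t (5 * t + j) w < eps0) :
    bdw h v dg eps0 t (5 * t + j) e w := by
  set P := D.P h t with hP
  have m5 := P.m_pos (NPq D v (5 * t)) hw
  have th0 : 0 < th := by linarith
  have e1 : P.m (NPq D v (5 * t + j)) w = th * P.m (fun u => (gq v D t (5 * t + j) e u, NPq D v (5 * t) u)) w :=
    m_Ce h hE (Z' := fun u => (gq v D t (5 * t + j) e u, NPq D v (5 * t) u)) ((gq_sg t _ e).prod (N5_sg hv t))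
      fun u => Nj_iff hv hj hc
  have e2 : P.m (NPq D v (5 * t + 1)) w = th * P.m (fun u => (dg t u.1, NPq D v (5 * t) u)) w :=
    m_Ce h hE (Z' := fun u => (dg t u.1, NPq D v (5 * t) u)) (Fac.prod (fun a b hab => by
      rw [(sg_eq.1 hab).1]) (N5_sg hv t)) fun u => N1_iff H ht hc
  have e3 : P.m (NPq D v (5 * t + 1)) w ≤ 2 * P.m (NPq D v (5 * t + j)) w := by
    rcases hj with rfl | rfl
    · have := P.m_nonneg (NPq D v (5 * t + 1)) w
      linarith
    · exact h2 rfl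
  have e4 : P.m (NPq D v (5 * t + j)) w < eps0 * P.m (NPq D v (5 * t)) w := by
    unfold pN at hp
    rwa [div_lt_iff₀ m5] at hp
  set mG := P.m (fun u => (gq v D t (5 * t + j) e u, NPq D v (5 * t) u)) w with hmG
  set mD := P.m (fun u => (dg t u.1, NPq D v (5 * t) u)) w with hmD
  have g1 : P.pv (NPq D v (5 * t)) (gq v D t (5 * t + j) e) w (gq v D t (5 * t + j) e w) =
      mG / P.m (NPq D v (5 * t)) w := P.pv_self _ _ _
  have g2 : P.pv (NPq D v (5 * t)) (fun u => dg t u.1) w (dg t w.1) = mD / P.m (NPq D v (5 * t)) w :=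
    P.pv_self (NPq D v (5 * t)) (fun u => dg t u.1) w
  have k1 : mD ≤ 2 * mG := by
    rw [e1, e2] at e3
    have : th * mD ≤ th * (2 * mG) := by linarith
    exact le_of_mul_le_mul_left this th0
  have k2 : mG ≤ 8 * (eps0 * P.m (NPq D v (5 * t)) w) := by
    rw [e1] at e4
    have hG := P.m_nonneg (fun u => (gq v D t (5 * t + j) e u, NPq D v (5 * t) u)) w
    have : 1 / 8 * mG ≤ th * mG := mul_le_mul_of_nonneg_right hth hG
    linarith
  unfold bdw
  rw [g1, g2]
  constructor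
  · rw [div_le_iff₀ m5]
    linarith
  · rw [mul_div_assoc', div_le_div_iff_of_pos_right m5]
    exact k1

/-- the sum over the run -/
theorem act_sum (H : D.Hyp dg prr al T Lam) {n N1 : ℝ} (R : Run h (pr3 (Fin 3) n N1) (SS1 (Fin 3)) (AdmDep D) v)
    (hn : 1 ≤ n) (hN1 : 1 ≤ N1) {j : ℕ} (hj : j = 1 ∨ j = 2) {i : Fin 3} {e eps0 : ℝ} (he : 0 < e) (he1 : e ≤ 1)
    (h0 : 0 < eps0) (h01 : eps0 ≤ 1 / 64) :
    ∑ t ∈ range T, (D.P h t).Pr (fun w => (j = 2 → HV h v t w) ∧ pN h v t (5 * t + j) w < eps0 ∧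
      e < |rT h v t (5 * t + j) i w - 1|) ≤ 10 ^ 6 / e ^ 2 * (eps0 * (Real.log (1 / eps0) + 1) * Lam) := by
  have hv := R.codes
  have hnN : 0 < n * N1 := by positivity
  set K : ℝ := eps0 * (Real.log (1 / eps0) + 1) with hK
  have hK0 : 0 ≤ K := by
    have : 0 ≤ Real.log (1 / eps0) := Real.log_nonneg (by rw [le_div_iff₀ h0]; linarith)
    positivity
  have key : ∀ t ∈ range T, (D.P h t).Pr (fun w => (j = 2 → HV h v t w) ∧ pN h v t (5 * t + j) w < eps0 ∧
      e < |rT h v t (5 * t + j) i w - 1|) ≤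
      122880 / (e ^ 2 * (n * N1)) * K * (D.P h t).E (fun w => mm (UU v) h dg t w ^ 2) := by
    intro t ht'
    have ht := Finset.mem_range.1 ht'
    obtain ⟨th, hth, hE⟩ := E_Ce h H ht
    have h1 : (D.P h t).Pr (fun w => (j = 2 → HV h v t w) ∧ pN h v t (5 * t + j) w < eps0 ∧
        e < |rT h v t (5 * t + j) i w - 1|) ≤ ∑ b : Fin 3 → Bool, (D.P h t).Pr (fun w => Ce D t b w ∧
          bdw h v dg eps0 t (5 * t + j) b w ∧ e < |rT h v t (5 * t + j) i w - 1|) := by
      refine le_trans ((D.P h t).Pr_mono fun w hw hh => ?_) ((D.P h t).Pr_ex_le univ _)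
      obtain ⟨b, hb⟩ := Ce_cov H ht w
      exact ⟨b, mem_univ b, hb, bdw_of h hv H ht hj hth (hE b) hw hb hh.1 hh.2.1, hh.2.2⟩
    have h2 : ∀ b ∈ (univ : Finset (Fin 3 → Bool)), (D.P h t).Pr (fun w => Ce D t b w ∧
        bdw h v dg eps0 t (5 * t + j) b w ∧ e < |rT h v t (5 * t + j) i w - 1|) ≤
        15360 / (e ^ 2 * (n * N1)) * K * (D.P h t).E (fun w => mm (UU v) h dg t w ^ 2) := by
      intro b _
      have h3 := act_e h hv H ht hj (eps0 := eps0) b i he he1
      have h4 := pub_gain h R hn hN1 t i (Gq_sg h hv H ht hj eps0 b)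
      have h5 := Hc_Gq h (v := v) H ht hj h0 h01 b
      refine h3.trans ?_
      have h6 : (D.P h t).I (Gq h v dg eps0 t (5 * t + j) b) (FQ v t i) (ZbQ D v (5 * t) i) ≤
          2 * (64 * K * (D.P h t).E (fun w => mm (UU v) h dg t w ^ 2)) / (n * N1) := by
        rw [le_div_iff₀ hnN]
        linarith
      have h7 := mul_le_mul_of_nonneg_left h6 (show 0 ≤ 120 / e ^ 2 by positivity)
      refine h7.trans (le_of_eq ?_)
      field_simp
      ring
    refine h1.trans ((Finset.sum_le_sum h2).trans (le_of_eq ?_))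
    rw [Finset.sum_const, Finset.card_univ, nsmul_eq_mul]
    have : Fintype.card (Fin 3 → Bool) = 8 := by decide
    rw [this]
    push_cast
    ring
  refine (Finset.sum_le_sum key).trans ?_
  rw [← Finset.mul_sum]
  have h3 := V3.VT.sum_mm H hn hN1 R
  have hc : 0 ≤ 122880 / (e ^ 2 * (n * N1)) * K := by positivity
  have h4 := mul_le_mul_of_nonneg_left h3 hc
  refine h4.trans ?_
  have h5 : 122880 / (e ^ 2 * (n * N1)) * K * (8 * (n * N1 * Lam)) = 983040 / e ^ 2 * (K * Lam) := by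
    field_simp
    ring
  rw [h5]
  have hL := H.Lam1
  refine mul_le_mul_of_nonneg_right ?_ (by positivity)
  exact div_le_div_of_nonneg_right (by norm_num) (by positivity)

end hd

end

end Pool.Agent.GMH.Hv.HP

namespace Pool.Agent.GMH.Hv

open Finset Pool.Agent.PWZ Pool.Agent.M3 Pool.Agent.GM Pool.Agent.GM.Harm Pool.Agent.GMH Pool.Agent.GMH.NZ
open Pool.Agent.GMH.V3 Pool.Agent.GMH.TP Pool.Agent.GMH.KF

noncomputable section

variable {X β γ φ : Type} [Fintype X] [Fintype β] [Fintype φ] [Nonempty X] [Nonempty β]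
variable {D : HD (Fin 3) X β γ φ} {al : ℝ} (h : D.Thick al)
  {v : ℕ → Finset (Fin 3) → X → (Fin 3 → β) → Pt (Fin 3) X β φ}
variable {dg : ℕ → X → ℝ} {prr : ℕ → Fin 3 → φ → φ} {T : ℕ} {Lam n N1 : ℝ}

/-- **(H3) ACTIVITY WHEN THE PUBLIC CLASS DOES NOT EXPECT THE ADDITIONS** -/
theorem act_pub (H : D.Hyp dg prr al T Lam) (R : Run h (pr3 (Fin 3) n N1) (SS1 (Fin 3)) (AdmDep D) v) (hn : 1 ≤ n)
    (hN1 : 1 ≤ N1) {j : ℕ} (hj : j = 1 ∨ j = 2) {i : Fin 3} {e eps0 : ℝ} (he : 0 < e) (he1 : e ≤ 1)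
    (h0 : 0 < eps0) (h01 : eps0 ≤ 1 / 64) :
    ∑ t ∈ range T, (D.P h t).Pr (fun w => (j = 2 → HV h v t w) ∧ pN h v t (5 * t + j) w < eps0 ∧
      e < |rT h v t (5 * t + j) i w - 1|) ≤ 10 ^ 6 / e ^ 2 * (eps0 * (Real.log (1 / eps0) + 1) * Lam) :=
  HP.act_sum h H R hn hN1 hj he he1 h0 h01

end

end Pool.Agent.GMH.Hv
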