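import Pool.Agent.GMH.HvRa

/-!
# GMH/HvR: H1 of the block HvS, rarity of the density of the suppressed partner at the exact vertex (helper56)

* `asm` : product of the partner event with what the other top sees; `case1`, `case64` (digit, heavy public value), `case2`
  (private codes, heavy values); `Hv.pair_rare`, `Hv.pair_rare1`.
-/

set_option autoImplicit false
set_option linter.unusedSectionVars false

namespace Pool.Agent.GMH.HvR

open Finset Pool.Agent.PWZ Pool.Agent.M3 Pool.Agent.GM Pool.Agent.GM.Harm Pool.Agent.GMH Pool.Agent.GMH.V3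
open Pool.Agent.GMH.TP Pool.Agent.GMH.TD Pool.Agent.GMH.Dy Pool.Agent.GMH.MVI Pool.Agent.GMH.MVIp Pool.Agent.GMH.GamR

noncomputable section

variable {X β γ φ : Type} [Fintype X] [Fintype β] [Fintype φ] [Nonempty X] [Nonempty β]
variable {D : HD (Fin 3) X β γ φ} {al : ℝ} (h : D.Thick al) {prr : ℕ → Fin 3 → φ → φ} {T : ℕ} {W : Type} [Fintype W]
variable {tb : Tab D prr T W} {v : ℕ → Finset (Fin 3) → X → (Fin 3 → β) → Pt (Fin 3) X β φ}

/-! ### letters -/

theorem NPo_iff {q : ℕ} {a b : Om W X β} : NPo tb v q a = NPo tb v q b ↔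
    Um v (TP.nc q ∅) ∅ a.1 a.2.2 = Um v (TP.nc q ∅) ∅ b.1 b.2.2 ∧ D.qa (TP.nn q) a.1 = D.qa (TP.nn q) b.1 ∧
      ∀ j, D.qb (TP.nn q) (a.2.2 j) = D.qb (TP.nn q) (b.2.2 j) := by
  show ((Um v (TP.nc q ∅) ∅ a.1 a.2.2, (D.qa (TP.nn q) a.1, fun j => D.qb (TP.nn q) (a.2.2 j))) =
    (Um v (TP.nc q ∅) ∅ b.1 b.2.2, (D.qa (TP.nn q) b.1, fun j => D.qb (TP.nn q) (b.2.2 j)))) ↔ _
  rw [Prod.mk.injEq, Prod.mk.injEq, funext_iff]

theorem XLo_mono {q q' : ℕ} (hq : q' ≤ q) (j : Fin 3) : Fac (XLo tb v j q) (XLo tb v j q') := by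
  intro a b e
  rw [XLo_iff] at e ⊢
  refine ⟨e.1, ?_⟩
  have h1 := nc_mono hq (J := {j}) (by unfold pth; simp)
  have h2 := e.2
  unfold Um at h2 ⊢
  rw [List.map_inj_left] at h2 ⊢
  exact fun r hr => h2 r (List.mem_range.2 (by have := List.mem_range.1 hr; omega))

theorem LT_mono {J : Finset (Fin 3)} {q1 q2 q1' q2' : ℕ} (h1 : q1' ≤ q1) (h2 : q2' ≤ q2) {w u : Om W X β}
    (e : LT tb v J q1 q2 w u) : LT tb v J q1' q2' w u :=
  ⟨fun j hj => XLo_mono h1 j _ _ (e.1 j hj), NPq_mono h2 _ _ e.2⟩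

theorem s_sub : ∀ i j : Fin 3, j ≠ i → ({j} : Finset (Fin 3)) ⊂ univ.erase i := by decide

theorem e_sub : ∀ i : Fin 3, (∅ : Finset (Fin 3)) ⊂ univ.erase i := by decide

theorem sub_cases : ∀ i : Fin 3, ∀ J : Finset (Fin 3), J ⊂ univ.erase i → J = ∅ ∨ ∃ j, j ≠ i ∧ J = {j} := by decide

theorem sub_no : ∀ i : Fin 3, ∀ J : Finset (Fin 3), J ⊂ univ.erase i → ∀ l, univ.erase l ≠ J := by decide

theorem three : ∀ i b k j : Fin 3, i ≠ b → i ≠ k → k ≠ b → j ≠ i → j = b ∨ j = k := by decide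

/-- what the top `i` sees -/
theorem Zb_LT (t q : ℕ) {i b k : Fin 3} (hib : i ≠ b) (hik : i ≠ k) (hkb : k ≠ b) (u w : Om W X β) :
    ZbQ D v q i (tb.pt t u) = ZbQ D v q i (tb.pt t w) ↔ LT tb v {b, k} q q w u := by
  constructor
  · intro e
    obtain ⟨h1, h2⟩ := Prod.mk.inj e
    rw [lo_eq] at h1
    rw [BB_eq] at h2
    refine ⟨fun j hj => ?_, ?_⟩
    · have hji : j ≠ i := by
        rcases Finset.mem_insert.1 hj with e1 | e1
        · rw [e1]
          exact hib.symm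
        · rw [Finset.mem_singleton.1 e1]
          exact hik.symm
      exact XLo_iff.2 ⟨h2.1 j (Finset.mem_erase.2 ⟨hji, mem_univ j⟩), (LL_eq.1 (h1 {j} (s_sub i j hji))).1⟩
    · exact NPo_iff.2 ⟨(LL_eq.1 (h1 ∅ (e_sub i))).1, h2.2⟩
  · rintro ⟨h1, h2⟩
    rw [NPo_iff] at h2
    have hp : ∀ j, j ≠ i → XLo tb v j q u = XLo tb v j q w := fun j hj => h1 j (by
      rcases three i b k j hib hik hkb hj with e | e
      · rw [e]
        exact Finset.mem_insert_self b {k}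
      · rw [e]
        exact Finset.mem_insert_of_mem (Finset.mem_singleton_self k))
    refine Prod.ext (lo_eq.2 fun J hJ => ?_) (BB_eq.2 ⟨fun j hj => ?_, h2.2⟩)
    · refine LL_eq.2 ⟨?_, fun l hl => absurd hl (sub_no i J hJ l)⟩
      rcases sub_cases i J hJ with e | ⟨j, hj, e⟩
      · rw [e]
        exact h2.1
      · rw [e]
        exact (XLo_iff.1 (hp j hj)).2
    · exact (XLo_iff.1 (hp j (Finset.mem_erase.1 hj).1)).1

/-- masses of functions of the points, space with tables -/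
theorem mT {κ : Type*} {f : Pt (Fin 3) X β φ → κ} (hf : XY f) (s t : ℕ) (u : Om W X β) :
    (D.P h s).m f (tb.pt t u) = tb.Ps.m (fun x => f (tb.pt 0 x)) u := by
  rw [TP.m_xy h hf s 0, (pul_pt h tb (Nat.zero_le T)).m f u]
  exact (D.P h 0).Fac_m f _ _ (hf _ _ _ _)

theorem xy_Zb (q : ℕ) (i : Fin 3) : XY (ZbQ (φ := φ) D v q i) := by
  intro x y F F'
  refine Prod.ext (lo_eq.2 fun J hJ => LL_eq.2 ⟨rfl, fun l hl => absurd hl (sub_no i J hJ l)⟩)
    (BB_eq.2 ⟨fun _ _ => rfl, rfl, fun _ => rfl⟩)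

/-! ### the product -/

theorem asm {b k i : Fin 3} (hib : i ≠ b) (hik : i ≠ k) (hkb : k ≠ b) (hv : Codes D v) {τ q n1 : ℕ} (hn1 : n1 = TP.nn q)
    (hnc : ∀ j : Fin 3, TP.nc (5 * τ) {j} ≤ n1 + 1) {A G : Om W X β → Prop} (hA : Fac (C2 tb v b k τ q) A)
    (hG : Fac (fun u : Om W X β => (sgt D {b} n1 u, crd {k} {i} u)) G) {y M : ℝ} (hy : 0 ≤ y)
    (hM : ∀ w, tb.Ps.p w ≠ 0 → A w → tb.Ps.ce (C2 tb v b k τ q) (fun u => ind (y ≤ dl tb D b n1 A u)) w ≤ M) :
    tb.Ps.Pr (fun u => A u ∧ G u) ≤ y * tb.Ps.Pr G + M * tb.Ps.Pr A := by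
  have fA : Fac (fun u : Om W X β => (sgt D {b} n1 u, crd ({k} : Finset (Fin 3))ᶜ ({i} : Finset (Fin 3))ᶜ u)) A := by
    intro x z e
    obtain ⟨e1, e2⟩ := Prod.mk.inj e
    refine hA x z ((C2_iff tb).2 ⟨fun j hj => ?_, ?_⟩)
    · have hji : j ≠ i := by
        rcases Finset.mem_insert.1 hj with e3 | e3
        · rw [e3]
          exact hib.symm
        · rw [Finset.mem_singleton.1 e3]
          exact hik.symm
      have hp : x.2.2 j = z.2.2 j := (crd_eq.1 e2).2 j (Finset.mem_compl.2 fun hh => hji (Finset.mem_singleton.1 hh))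
      refine XLo_iff.2 ⟨hp, ?_⟩
      rw [(sgt_eq.1 e1).1]
      exact Um_y hv (hnc j) z.1 (fun l hl => by rw [Finset.mem_singleton.1 hl]; exact hp) (sgt_eq.1 e1).2.2
    · exact NPo_y hv hn1.symm.le (sgt_eq.1 e1).1 (sgt_eq.1 e1).2.2
  set dd : Om W X β → ℝ := dl tb D b n1 A with hdd
  have hd0 : ∀ u, 0 ≤ dd u := fun u => tb.Ps.ce_nonneg (fun _ _ => ind_nonneg _) u
  have fd : Fac (sgt (W := W) D {b} n1) dd := tb.Ps.ce_fac _ _
  -- the product
  have e1 : tb.Ps.Pr (fun u => A u ∧ G u) = tb.Ps.E (fun u => dd u * ind (G u)) := by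
    have e2 : tb.Ps.Pr (fun u => A u ∧ G u) = tb.Ps.E (fun u => ind (A u) * ind (G u)) :=
      tb.Ps.E_congr fun u _ => ind_and _ _
    rw [e2, ← tb.Ps.E_ce (sgt D {b} n1) (fun u => ind (A u) * ind (G u)), ← tb.Ps.E_mul_ce fd (fun u => ind (G u))]
    refine tb.Ps.E_congr fun u hu => ?_
    have e3 := sgt_indep tb {b} n1 {k} {i} (f := fun u => ind (G u)) (g := fun u => ind (A u))
      (Fac.ind fun x z e => by rw [hG x z e]) (Fac.ind fun x z e => by rw [fA x z e]) hu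
    have e4 : tb.Ps.ce (sgt D {b} n1) (fun u => ind (A u) * ind (G u)) u =
        tb.Ps.ce (sgt D {b} n1) (fun u => ind (G u) * ind (A u)) u :=
      tb.Ps.ce_congr (fun x _ => mul_comm _ _) u
    rw [e4, e3, mul_comm]
    rfl
  have e5 : tb.Ps.E (fun u => dd u * ind (G u)) ≤ y * tb.Ps.Pr G + tb.Ps.E (fun u => ind (y ≤ dd u) * dd u) := by
    have e6 : y * tb.Ps.Pr G = tb.Ps.E (fun u => y * ind (G u)) := (tb.Ps.E_smul y _).symm
    rw [e6, ← tb.Ps.E_add]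
    refine tb.Ps.E_mono fun u _ => ?_
    by_cases h1 : y ≤ dd u
    · rw [ind_of h1, one_mul]
      have h2 := mul_le_mul_of_nonneg_left (ind_le_one (G u)) (hd0 u)
      have h3 := mul_nonneg hy (ind_nonneg (G u))
      linarith
    · rw [ind_not h1, zero_mul, add_zero]
      exact mul_le_mul_of_nonneg_right (not_le.1 h1).le (ind_nonneg _)
  have e7 : tb.Ps.E (fun u => ind (y ≤ dd u) * dd u) ≤ M * tb.Ps.Pr A := by
    have e8 : tb.Ps.E (fun u => ind (y ≤ dd u) * dd u) = tb.Ps.E (fun u => ind (y ≤ dd u) * ind (A u)) :=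
      tb.Ps.E_mul_ce (h := fun u => ind (y ≤ dd u)) (Fac.ind fun x z e => by rw [fd x z e]) (fun u => ind (A u))
    have e9 : tb.Ps.E (fun u => ind (y ≤ dd u) * ind (A u)) =
        tb.Ps.E (fun u => ind (A u) * tb.Ps.ce (C2 tb v b k τ q) (fun u => ind (y ≤ dd u)) u) := by
      rw [tb.Ps.E_mul_ce (h := fun u => ind (A u)) (Fac.ind fun x z e => by rw [hA x z e]) (fun u => ind (y ≤ dd u))]
      exact tb.Ps.E_congr fun u _ => mul_comm _ _
    have e10 : M * tb.Ps.Pr A = tb.Ps.E (fun u => M * ind (A u)) := (tb.Ps.E_smul M _).symm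
    rw [e8, e9, e10]
    refine tb.Ps.E_mono fun u hu => ?_
    by_cases h1 : A u
    · rw [ind_of h1, one_mul, mul_one]
      exact hM u hu h1
    · rw [ind_not h1, zero_mul, mul_zero]
  rw [e1]
  linarith

/-! ### what the other top sees -/

theorem top_fac {b k i : Fin 3} (hib : i ≠ b) (hik : i ≠ k) (hkb : k ≠ b) (hv : Codes D v) {t q : ℕ} (htq : t ≤ TP.nn q)
    {G : Pt (Fin 3) X β φ → Prop} (hG : Fac (fun w => (ZbQ D v q k w, FQ v t k w)) G) :
    Fac (fun u : Om W X β => (sgt D {b} (TP.nn q) u, crd {k} {i} u)) (fun u => G (tb.pt t u)) := by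
  intro x z e
  obtain ⟨e1, e2⟩ := Prod.mk.inj e
  obtain ⟨s1, s2, s3⟩ := sgt_eq.1 e1
  obtain ⟨c1, c2⟩ := crd_eq.1 e2
  have hp : ∀ j, j ≠ k → x.2.2 j = z.2.2 j := fun j hj => by
    rcases three k b i j hkb hik.symm hib hj with e | e
    · rw [e]
      exact s2 b (Finset.mem_singleton_self b)
    · rw [e]
      exact c2 i (Finset.mem_singleton_self i)
  refine hG _ _ (Prod.ext ?_ ?_)
  · refine (Zb_LT t q hkb hik.symm hib x z).2 ⟨fun j hj => ?_, NPo_y hv le_rfl s1 s3⟩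
    have hjk : j ≠ k := by
      rcases Finset.mem_insert.1 hj with e3 | e3
      · rw [e3]
        exact hkb.symm
      · rw [Finset.mem_singleton.1 e3]
        exact hik
    refine XLo_iff.2 ⟨hp j hjk, ?_⟩
    rw [s1]
    exact Um_y hv (nc_le q {j}) z.1 (fun l hl => by rw [Finset.mem_singleton.1 hl]; exact hp j hjk) s3
  · show LL (Um v (t + 1)) (univ.erase k) (tb.pt t x) = LL (Um v (t + 1)) (univ.erase k) (tb.pt t z)
    have hc : ∀ j, D.qb t (x.2.2 j) = D.qb t (z.2.2 j) := fun j => qb_mono D htq (s3 j)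
    refine LL_eq.2 ⟨?_, fun l hl => ?_⟩
    · show Um v (t + 1) (univ.erase k) x.1 x.2.2 = Um v (t + 1) (univ.erase k) z.1 z.2.2
      rw [s1]
      exact Um_y hv (n := t) le_rfl z.1 (fun j hj => hp j (Finset.mem_erase.1 hj).1) hc
    · have hlk : l = k := by
        by_contra hne
        have h1 : l ∈ univ.erase k := Finset.mem_erase.2 ⟨hne, mem_univ l⟩
        rw [← hl] at h1
        exact (Finset.mem_erase.1 h1).1 rfl
      rw [hlk]
      show tb.lab t k (x.2.1 k) x.1 x.2.2 = tb.lab t k (z.2.1 k) z.1 z.2.2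
      rw [c1 k (Finset.mem_singleton_self k), s1]
      exact tb.dep t k _ _ _ _ hp (hc k)

/-! ### surprisals -/

theorem sp_exp {Om : Type*} [Fintype Om] (P : FP Om) {κ ι : Type*} {L : Om → κ} {Z : Om → ι} {w : Om} (hw : P.p w ≠ 0)
    {x : ℝ} (hx : sp P L Z w ≤ x) : Real.exp (-x) * P.m Z w ≤ P.m (fun u => (L u, Z u)) w := by
  have p1 := P.m_pos Z hw
  have p2 := P.m_pos (fun u => (L u, Z u)) hw
  unfold sp at hx
  have h1 : Real.log (P.m Z w) - x ≤ Real.log (P.m (fun u => (L u, Z u)) w) := by linarith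
  have h2 := Real.exp_le_exp.2 h1
  rw [Real.exp_log p2, Real.exp_sub, Real.exp_log p1, div_eq_mul_inv, ← Real.exp_neg, mul_comm] at h2
  exact h2

/-- the letter of `b` -/
theorem ss_mx (hv : Codes D v) {b : Fin 3} {q : ℕ} {w : Om W X β} (hw : tb.Ps.p w ≠ 0) (t : ℕ) {x : ℝ}
    (hx : ssQ h v q b (tb.pt t w) ≤ x) :
    Real.exp (-x) * mx tb (FX tb v ∅ q q w) ≤ mx tb (FX tb v {b} q q w) := by
  have e1 : sp tb.Ps (XLo tb v b q) (fun u => (u.2.2 b, NPo tb v q u)) w = ssQ h v q b (tb.pt t w) := by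
    unfold ssQ sp
    rw [mT h (f := fun u : Pt (Fin 3) X β φ => (u.2.1 b, NPq D v q u)) (fun _ _ _ _ => rfl),
      mT h (f := fun u : Pt (Fin 3) X β φ => (XLq v q b u, (u.2.1 b, NPq D v q u))) (fun _ _ _ _ => rfl)]
    rfl
  have e2 := sp_exp tb.Ps hw (e1.le.trans hx)
  have e3 : tb.Ps.m (fun u => (u.2.2 b, NPo tb v q u)) w = mx tb (FX tb v ∅ q q w) * my tb (GY D {b} (TP.nn q) w) := by
    rw [← E_split]
    unfold FP.m
    refine tb.Ps.E_congr fun u _ => congrArg ind (propext ?_)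
    have e4 := LT_iff (tb := tb) hv (J := ∅) (q1 := q) (q2 := q) (w0 := w) (u := u)
      (fun j hj => absurd hj (Finset.notMem_empty j))
    constructor
    · intro e
      obtain ⟨h1, h2⟩ := e4.1 ⟨fun j hj => absurd hj (Finset.notMem_empty j), (Prod.mk.inj e).2⟩
      exact ⟨h1, fun j hj => by rw [Finset.mem_singleton.1 hj]; exact (Prod.mk.inj e).1, h2.2⟩
    · rintro ⟨h1, h2, h3⟩
      exact Prod.ext (h2 b (Finset.mem_singleton_self b))
        (e4.2 ⟨h1, fun j hj => absurd hj (Finset.notMem_empty j), h3⟩).2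
  have e5 : tb.Ps.m (fun u => (XLo tb v b q u, (u.2.2 b, NPo tb v q u))) w =
      mx tb (FX tb v {b} q q w) * my tb (GY D {b} (TP.nn q) w) := by
    refine m_LT hv (fun j _ => nc_le q {j}) fun u => ?_
    constructor
    · intro e
      exact ⟨fun j hj => by rw [Finset.mem_singleton.1 hj]; exact (Prod.mk.inj e).1, (Prod.mk.inj (Prod.mk.inj e).2).2⟩
    · rintro ⟨h1, h2⟩
      have h3 := h1 b (Finset.mem_singleton_self b)
      exact Prod.ext h3 (Prod.ext (XLo_iff.1 h3).1 h2)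
  rw [e3, e5, ← mul_assoc] at e2
  exact le_of_mul_le_mul_right e2 (my_pos tb hw (GY_self _ _ w))

/-- the pair of letters -/
theorem spp_mx (hv : Codes D v) {b k : Fin 3} {q : ℕ} {w : Om W X β} (hw : tb.Ps.p w ≠ 0) (t : ℕ) {x : ℝ}
    (hx : spQ h v q b k (tb.pt t w) ≤ x) :
    Real.exp (-x) * mx tb (FX tb v ∅ q q w) ≤ mx tb (FX tb v {b, k} q q w) := by
  have e1 : sp tb.Ps (fun u => (XLo tb v b q u, XLo tb v k q u)) (fun u => (u.2.2 b, u.2.2 k, NPo tb v q u)) w =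
      spQ h v q b k (tb.pt t w) := by
    unfold spQ sp
    rw [mT h (f := fun u : Pt (Fin 3) X β φ => (u.2.1 b, u.2.1 k, NPq D v q u)) (fun _ _ _ _ => rfl),
      mT h (f := fun u : Pt (Fin 3) X β φ => ((XLq v q b u, XLq v q k u), (u.2.1 b, u.2.1 k, NPq D v q u)))
        (fun _ _ _ _ => rfl)]
    rfl
  have e2 := sp_exp tb.Ps hw (e1.le.trans hx)
  have e3 : tb.Ps.m (fun u => (u.2.2 b, u.2.2 k, NPo tb v q u)) w =
      mx tb (FX tb v ∅ q q w) * my tb (GY D {b, k} (TP.nn q) w) := by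
    rw [← E_split]
    unfold FP.m
    refine tb.Ps.E_congr fun u _ => congrArg ind (propext ?_)
    have e4 := LT_iff (tb := tb) hv (J := ∅) (q1 := q) (q2 := q) (w0 := w) (u := u)
      (fun j hj => absurd hj (Finset.notMem_empty j))
    constructor
    · intro e
      have n1 := Prod.mk.inj e
      have n2 := Prod.mk.inj n1.2
      obtain ⟨h1, h2⟩ := e4.1 ⟨fun j hj => absurd hj (Finset.notMem_empty j), n2.2⟩
      refine ⟨h1, fun j hj => ?_, h2.2⟩
      rcases Finset.mem_insert.1 hj with e5 | e5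
      · rw [e5]
        exact n1.1
      · rw [Finset.mem_singleton.1 e5]
        exact n2.1
    · rintro ⟨h1, h2, h3⟩
      exact Prod.ext (h2 b (Finset.mem_insert_self b {k}))
        (Prod.ext (h2 k (Finset.mem_insert_of_mem (Finset.mem_singleton_self k)))
          (e4.2 ⟨h1, fun j hj => absurd hj (Finset.notMem_empty j), h3⟩).2)
  have e5 : tb.Ps.m (fun u => ((XLo tb v b q u, XLo tb v k q u), (u.2.2 b, u.2.2 k, NPo tb v q u))) w =
      mx tb (FX tb v {b, k} q q w) * my tb (GY D {b, k} (TP.nn q) w) := by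
    refine m_LT hv (fun j _ => nc_le q {j}) fun u => ?_
    constructor
    · intro e
      have n1 := Prod.mk.inj (Prod.mk.inj e).1
      have n2 := Prod.mk.inj (Prod.mk.inj (Prod.mk.inj e).2).2
      refine ⟨fun j hj => ?_, n2.2⟩
      rcases Finset.mem_insert.1 hj with e5 | e5
      · rw [e5]
        exact n1.1
      · rw [Finset.mem_singleton.1 e5]
        exact n1.2
    · rintro ⟨h1, h2⟩
      have h3 := h1 b (Finset.mem_insert_self b {k})
      have h4 := h1 k (Finset.mem_insert_of_mem (Finset.mem_singleton_self k))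
      exact Prod.ext (Prod.ext h3 h4) (Prod.ext (XLo_iff.1 h3).1 (Prod.ext (XLo_iff.1 h4).1 h2))
  rw [e3, e5, ← mul_assoc] at e2
  exact le_of_mul_le_mul_right e2 (my_pos tb hw (GY_self _ _ w))

/-! ### digit and heavy public value -/

theorem FX_nc {J : Finset (Fin 3)} {q q' q2 : ℕ} (hnc : ∀ j : Fin 3, TP.nc q {j} = TP.nc q' {j}) (w : Om W X β) :
    FX tb v J q q2 w = FX tb v J q' q2 w := by
  funext x
  unfold FX
  refine propext (and_congr_left fun _ => forall_congr' fun j => forall_congr' fun _ => ?_)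
  rw [hnc j]

theorem XLo_nc {q q' : ℕ} {j : Fin 3} (hnc : TP.nc q {j} = TP.nc q' {j}) {a b : Om W X β}
    (e : XLo tb v j q a = XLo tb v j q b) : XLo tb v j q' a = XLo tb v j q' b := by
  rw [XLo_iff] at e ⊢
  rw [← hnc]
  exact e

/-- mass of what the top sees -/
theorem Zb_mx (hv : Codes D v) (t q : ℕ) {i b k : Fin 3} (hib : i ≠ b) (hik : i ≠ k) (hkb : k ≠ b) (w : Om W X β) :
    (D.P h t).m (ZbQ D v q i) (tb.pt t w) = mx tb (FX tb v {b, k} q q w) * my tb (GY D {b, k} (TP.nn q) w) := by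
  rw [mT h (xy_Zb q i)]
  exact m_LT hv (fun j _ => nc_le q {j}) fun u => Zb_LT 0 q hib hik hkb u w

theorem pX_mx (hv : Codes D v) {t q : ℕ} (hq : 5 * t ≤ q) {b : Fin 3} {w : Om W X β} (hw : tb.Ps.p w ≠ 0) {eps : ℝ}
    (he : 0 ≤ eps) (hx : eps ≤ Hv.pX h v t q b (tb.pt t w)) :
    eps * mx tb (FX tb v {b} (5 * t) (5 * t) w) ≤ mx tb (FX tb v {b} (5 * t) q w) := by
  have htq : t ≤ TP.nn q := by
    have := nn_mono hq
    rwa [nn5] at this
  have hnc : ∀ j ∈ ({b} : Finset (Fin 3)), TP.nc (5 * t) {j} ≤ TP.nn q + 1 := fun j _ => by rw [nc5]; omega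
  have e1 : (D.P h t).m (fun u => (XLq v (5 * t) b u, NPq D v q u)) (tb.pt t w) =
      mx tb (FX tb v {b} (5 * t) q w) * my tb (GY D {b} (TP.nn q) w) := by
    rw [mT h (f := fun u : Pt (Fin 3) X β φ => (XLq v (5 * t) b u, NPq D v q u)) (fun _ _ _ _ => rfl)]
    refine m_LT hv hnc fun u => ?_
    constructor
    · intro e
      exact ⟨fun j hj => by rw [Finset.mem_singleton.1 hj]; exact (Prod.mk.inj e).1, (Prod.mk.inj e).2⟩
    · rintro ⟨h1, h2⟩
      exact Prod.ext (h1 b (Finset.mem_singleton_self b)) h2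
  have e2 : (D.P h t).m (Hv.CX D v (5 * t) b) (tb.pt t w) =
      mx tb (FX tb v {b} (5 * t) (5 * t) w) * my tb (GY D {b} (TP.nn (5 * t)) w) := by
    rw [mT h (f := Hv.CX D v (5 * t) b) (fun _ _ _ _ => rfl)]
    refine m_LT hv (fun j _ => nc_le (5 * t) {j}) fun u => ?_
    constructor
    · intro e
      exact ⟨fun j hj => by rw [Finset.mem_singleton.1 hj]; exact (Prod.mk.inj e).1, (Prod.mk.inj e).2⟩
    · rintro ⟨h1, h2⟩
      exact Prod.ext (h1 b (Finset.mem_singleton_self b)) h2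
  unfold Hv.pX at hx
  rw [e1, e2, nn5] at hx
  have p1 : 0 < mx tb (FX tb v {b} (5 * t) (5 * t) w) := mx_pos tb hw (FX_self _ _ _ w)
  have p2 : 0 < my tb (GY D {b} t w) := my_pos tb hw (GY_self _ _ w)
  rw [le_div_iff₀ (mul_pos p1 p2), ← mul_assoc] at hx
  have h3 : my tb (GY D {b} (TP.nn q) w) ≤ my tb (GY D {b} t w) :=
    my_mono tb fun y e => ⟨e.1, fun j => qb_mono D htq (e.2 j)⟩
  have h4 := mul_le_mul_of_nonneg_left h3 (mx_nn tb (FX tb v {b} (5 * t) q w))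
  exact le_of_mul_le_mul_right (hx.trans h4) p2

/-- change of the base point, letter of the partner -/
theorem reb (hv : Codes D v) {b k : Fin 3} {t q q2 : ℕ} (h5 : 5 * t ≤ q2) (hq2 : q2 ≤ q) {w0 u' u : Om W X β}
    (e : LT tb v {b} (5 * t) q w0 u') : (XLo tb v k (5 * t) u = XLo tb v k (5 * t) u' ∧
      FX tb v {b} (5 * t) q2 w0 u.1 ∧ GY D {b} t w0 u.2.2) ↔
      (FX tb v {b, k} (5 * t) q2 u' u.1 ∧ GY D {b, k} t u' u.2.2) := by
  have ht2 : t ≤ TP.nn q2 := by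
    have := nn_mono h5
    rwa [nn5] at this
  have hnc : ∀ j ∈ ({b} : Finset (Fin 3)), TP.nc (5 * t) {j} ≤ TP.nn q2 + 1 := fun j _ => by rw [nc5]; omega
  have e2 : LT tb v {b} (5 * t) q2 w0 u' := LT_mono le_rfl hq2 e
  have hB := fun x => FX_base hv hnc e2 (x := x)
  have hbb : u'.2.2 b = w0.2.2 b := (XLo_iff.1 (e.1 b (Finset.mem_singleton_self b))).1
  have hcc : ∀ j, D.qb t (u'.2.2 j) = D.qb t (w0.2.2 j) := fun j =>
    qb_mono D (by
      have := nn_mono (h5.trans hq2)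
      rwa [nn5] at this) (NPo_qb e.2 j)
  constructor
  · rintro ⟨h1, h2, h3, h4⟩
    have h1' := XLo_iff.1 h1
    have h6 := (hB u.1).2 h2
    have hcu : ∀ j, D.qb t (u.2.2 j) = D.qb t (u'.2.2 j) := fun j => (h4 j).trans (hcc j).symm
    refine ⟨⟨fun j hj => ?_, h6.2⟩, fun j hj => ?_, hcu⟩
    · rcases Finset.mem_insert.1 hj with e5 | e5
      · rw [e5]
        exact h6.1 b (Finset.mem_singleton_self b)
      · rw [Finset.mem_singleton.1 e5, ← h1'.2]
        exact Um_y hv (n := t) (by rw [nc5]) u.1 (fun l hl => by rw [Finset.mem_singleton.1 hl]; exact h1'.1.symm)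
          fun j => (hcu j).symm
    · rcases Finset.mem_insert.1 hj with e5 | e5
      · rw [e5, hbb]
        exact h3 b (Finset.mem_singleton_self b)
      · rw [Finset.mem_singleton.1 e5]
        exact h1'.1
  · rintro ⟨h1, h2, h3⟩
    have hk := h2 k (Finset.mem_insert_of_mem (Finset.mem_singleton_self k))
    have hb := h2 b (Finset.mem_insert_self b {k})
    refine ⟨XLo_iff.2 ⟨hk, ?_⟩, (hB u.1).1 ⟨fun j hj => h1.1 j (by
      rw [Finset.mem_singleton.1 hj]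
      exact Finset.mem_insert_self b {k}), h1.2⟩, fun j hj => by
        rw [Finset.mem_singleton.1 hj, ← hbb]
        exact hb, fun j => (h3 j).trans (hcc j)⟩
    rw [← h1.1 k (Finset.mem_insert_of_mem (Finset.mem_singleton_self k))]
    exact Um_y hv (n := t) (by rw [nc5]) u.1 (fun l hl => by rw [Finset.mem_singleton.1 hl]; exact hk) h3

/-- the partner event, digit and heavy public value -/
def A1 (v : ℕ → Finset (Fin 3) → X → (Fin 3 → β) → Pt (Fin 3) X β φ) (tb : Tab D prr T W) (B eps X0 X1 : ℝ) (s : Fin 6)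
    (t q : ℕ) (i b k : Fin 3) (u : Om W X β) : Prop :=
  (eps ≤ Hv.pX h v t q b (tb.pt t u) ∧ Hv.sup h v B s t i (tb.pt t u)) ∧ ssQ h v (5 * t) b (tb.pt t u) ≤ X0 ∧
    spQ h v q b k (tb.pt t u) ≤ X1

theorem A1_fac {B eps X0 X1 : ℝ} {s : Fin 6} {t q : ℕ} (hqe : qe s t = q) (hq : 5 * t ≤ q)
    (hnc : ∀ j : Fin 3, TP.nc q {j} = TP.nc (5 * t) {j}) {i b k : Fin 3} (hib : i ≠ b) (hik : i ≠ k) (hkb : k ≠ b) :
    Fac (C2 tb v b k t q) (A1 h v tb B eps X0 X1 s t q i b k) := by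
  intro x z e
  have e1 := (C2_iff tb).1 e
  have hb := e1.1 b (Finset.mem_insert_self b {k})
  have hk := e1.1 k (Finset.mem_insert_of_mem (Finset.mem_singleton_self k))
  have hN := e1.2
  have hN5 : NPo tb v (5 * t) x = NPo tb v (5 * t) z := NPq_mono hq _ _ hN
  have hbq : XLo tb v b q x = XLo tb v b q z := XLo_nc (hnc b).symm hb
  have hkq : XLo tb v k q x = XLo tb v k q z := XLo_nc (hnc k).symm hk
  have hZ : ZbQ D v q i (tb.pt t x) = ZbQ D v q i (tb.pt t z) :=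
    (Zb_LT t q hib hik hkb x z).2 ⟨fun j hj => XLo_nc (hnc j).symm (e1.1 j hj), hN⟩
  have g1 : Hv.pX h v t q b (tb.pt t x) = Hv.pX h v t q b (tb.pt t z) := by
    unfold Hv.pX
    rw [(D.P h t).Fac_m (fun u => (XLq v (5 * t) b u, NPq D v q u)) (tb.pt t x) (tb.pt t z) (Prod.ext hb hN),
      (D.P h t).Fac_m (Hv.CX D v (5 * t) b) (tb.pt t x) (tb.pt t z) (Prod.ext hb hN5)]
  have g2 : Hv.sup h v B s t i (tb.pt t x) = Hv.sup h v B s t i (tb.pt t z) := by
    unfold Hv.sup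
    rw [hqe, (D.P h t).Fac_m (ZbQ D v q i) (tb.pt t x) (tb.pt t z) hZ,
      (D.P h t).Fac_m (ZbQ D v (qs s t) i) (tb.pt t x) (tb.pt t z) (ZbQ_mono (hqe ▸ qs_le_qe s t) i _ _ hZ)]
  have g3 : ssQ h v (5 * t) b (tb.pt t x) = ssQ h v (5 * t) b (tb.pt t z) :=
    sp_fac _ _ _ _ _ (Prod.ext hb (Prod.ext (XLo_iff.1 hb).1 hN5))
  have g4 : spQ h v q b k (tb.pt t x) = spQ h v q b k (tb.pt t z) :=
    sp_fac _ _ _ _ _ (Prod.ext (Prod.ext hbq hkq) (Prod.ext (XLo_iff.1 hb).1 (Prod.ext (XLo_iff.1 hk).1 hN)))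
  show (_ ∧ _) = (_ ∧ _)
  rw [g1, g2, g3, g4]

theorem case1 {n N1 : ℝ} (hn : 1 ≤ n) (hN1 : 1 ≤ N1) (R : Run h (pr3 (Fin 3) n N1) (SS1 (Fin 3)) (AdmDep D) v)
    {dg : ℕ → X → ℝ} {Lam : ℝ} (H : D.Hyp dg prr al T Lam) {s : Fin 6} {t q : ℕ} (ht : t < T) (hqe : qe s t = q)
    (hq5 : 5 * t ≤ qs s t) (hnn : TP.nn q = t + 1) (hnc : ∀ j : Fin 3, TP.nc q {j} = TP.nc (5 * t) {j}) {i b k : Fin 3}
    (hib : i ≠ b) (hik : i ≠ k) (hkb : k ≠ b) {B y eps X0 X1 : ℝ} (hB : 1 ≤ B) (he : 0 < eps)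
    (hyB : 64 / (B * eps) ≤ y) (hLy : 64 * (X0 + Real.log (1 / eps) + 1) ≤ N1 * y) {w : Om W X β}
    (hw : tb.Ps.p w ≠ 0) (hAw : A1 h v tb B eps X0 X1 s t q i b k w) :
    tb.Ps.ce (C2 tb v b k t q) (fun u => ind (y ≤ dl tb D b (TP.nn q) (A1 h v tb B eps X0 X1 s t q i b k) u)) w ≤
      Real.exp (1 + (X0 + X1 + Real.log (1 / eps)) - N1 * y / 16) := by
  have hv := R.codes
  have hq : 5 * t ≤ q := hq5.trans (hqe ▸ qs_le_qe s t)
  set A := A1 h v tb B eps X0 X1 s t q i b k with hA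
  have fA : Fac (C2 tb v b k t q) A := A1_fac h hqe hq hnc hib hik hkb
  have hBpos : 0 < B := by linarith
  have hlog : Real.exp (-(Real.log (1 / eps))) = eps := by
    rw [one_div, Real.log_inv, neg_neg, Real.exp_log he]
  have a1 := ss_mx h hv hw t hAw.2.1
  have a2 := pX_mx h hv hq hw he.le hAw.1.1
  have a3 := spp_mx h hv hw t hAw.2.2
  have a4 : mx tb (FX tb v {b} (5 * t) q w) ≤ mx tb (FX tb v ∅ q q w) :=
    mx_mono tb fun x e => ⟨fun j hj => absurd hj (Finset.notMem_empty j), e.2⟩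
  have hL0 : Real.exp (-(X0 + Real.log (1 / eps))) * mx tb (FX tb v ∅ (5 * t) (5 * t) w) ≤
      mx tb (FX tb v {b} (5 * t) q w) := by
    rw [neg_add, Real.exp_add, hlog, mul_comm (Real.exp (-X0)) eps, mul_assoc]
    exact (mul_le_mul_of_nonneg_left a1 he.le).trans a2
  have hL1 : Real.exp (-(X0 + X1 + Real.log (1 / eps))) * mx tb (FX tb v ∅ (5 * t) (5 * t) w) ≤
      mx tb (FX tb v {b, k} (5 * t) q w) := by
    have e1 : -(X0 + X1 + Real.log (1 / eps)) = -X1 + -(X0 + Real.log (1 / eps)) := by ring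
    rw [e1, Real.exp_add, mul_assoc]
    rw [FX_nc hnc (J := {b, k})] at a3
    exact (mul_le_mul_of_nonneg_left (hL0.trans a4) (Real.exp_pos _).le).trans a3
  have hBe : 0 < B * eps := mul_pos hBpos he
  have hy0 : 0 ≤ y := le_trans (by positivity) hyB
  refine core (κ := 2 / (B * eps)) hn hN1 R H ht.le hq (Or.inr ⟨hnn, ht⟩) hkb fA hw hy0 ?_ hL0 hL1 ?_ ?_
  · -- the letters one by one
    have f1 := few tb.Ps (Z' := XLo tb v k (5 * t)) (Z := XLo tb v k (5 * t))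
      (E1 := fun u => FX tb v {b} (5 * t) q w u.1 ∧ GY D {b} t w u.2.2)
      (E2 := fun u => FX tb v {b} (5 * t) (5 * t) w u.1 ∧ GY D {b} t w u.2.2) (A := Ak tb v b k t q A w)
      (a := 2 / B) (c := 1) (Fac.refl _) Ak_fac (by positivity) zero_le_one ?_ (fun _ _ _ _ => by rw [one_mul])
    · refine f1.trans ?_
      have e1 : tb.Ps.Pr (fun u => FX tb v {b} (5 * t) (5 * t) w u.1 ∧ GY D {b} t w u.2.2) =
          mx tb (FX tb v {b} (5 * t) (5 * t) w) * my tb (GY D {b} t w) := E_split tb _ _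
      have e2 : tb.Ps.Pr (fun u => FX tb v {b} (5 * t) q w u.1 ∧ GY D {b} t w u.2.2) =
          mx tb (FX tb v {b} (5 * t) q w) * my tb (GY D {b} t w) := E_split tb _ _
      rw [e1, e2, mul_one]
      have e3 := mul_le_mul_of_nonneg_right a2 (my_nn tb (GY D {b} t w))
      have e4 : 2 / B = 2 / (B * eps) * eps := by
        field_simp
      rw [e4, mul_assoc (2 / (B * eps))]
      refine mul_le_mul_of_nonneg_left ?_ (by positivity)
      rw [← mul_assoc]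
      exact e3
    · intro x hx hE1 hAx
      obtain ⟨u', hu', h2, h3, h4⟩ := hAx
      have e1 : ∀ q2, 5 * t ≤ q2 → q2 ≤ q → tb.Ps.E (fun u => ind (XLo tb v k (5 * t) u = XLo tb v k (5 * t) x) *
          ind (FX tb v {b} (5 * t) q2 w u.1 ∧ GY D {b} t w u.2.2)) =
          mx tb (FX tb v {b, k} (5 * t) q2 u') * my tb (GY D {b, k} t u') := by
        intro q2 g1 g2
        rw [← E_split]
        refine tb.Ps.E_congr fun u _ => ?_
        rw [← ind_and, ← h3]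
        exact congrArg ind (propext (reb hv g1 g2 h2))
      rw [e1 q hq le_rfl, e1 (5 * t) le_rfl hq]
      have s1 := h4.1.2
      unfold Hv.sup at s1
      rw [hqe, Zb_mx h hv t q hib hik hkb u', hnn, FX_nc hnc (J := {b, k})] at s1
      have s2 : (D.P h t).m (ZbQ D v (qs s t) i) (tb.pt t u') ≤ (D.P h t).m (ZbQ D v (5 * t) i) (tb.pt t u') :=
        (D.P h t).E_mono fun _ _ => ind_mono fun e => ZbQ_mono hq5 i _ _ e
      rw [Zb_mx h hv t (5 * t) hib hik hkb u', nn5] at s2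
      have s3 := my_half tb H hkb ht hu'
      have s4 := mul_le_mul_of_nonneg_left s3 (mx_nn tb (FX tb v {b, k} (5 * t) q u'))
      rw [div_mul_eq_mul_div, le_div_iff₀ hBpos]
      have s5 := mul_le_mul_of_nonneg_left s4 hBpos.le
      linarith
  · have e1 : 2 / (B * eps) = 64 / (B * eps) / 32 := by ring
    have e2 : 0 ≤ 64 / (B * eps) := by positivity
    rw [e1]
    linarith
  · exact hLy

/-- the same, mass of the letters from the relative entropies -/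
theorem case64 {n N1 : ℝ} (hn : 1 ≤ n) (hN1 : 1 ≤ N1) (R : Run h (pr3 (Fin 3) n N1) (SS1 (Fin 3)) (AdmDep D) v)
    {dg : ℕ → X → ℝ} {Lam : ℝ} (H : D.Hyp dg prr al T Lam) {s : Fin 6} {t q : ℕ} (ht : t < T) (hqe : qe s t = q)
    (hq5 : 5 * t ≤ qs s t) (hnn : TP.nn q = t + 1) (hnc : ∀ j : Fin 3, TP.nc q {j} = TP.nc (5 * t) {j}) {i b k : Fin 3}
    (hib : i ≠ b) (hik : i ≠ k) (hkb : k ≠ b) {B y eps X0 X1 : ℝ} (hB : 1 ≤ B) (he : 0 < eps) (hy0 : 0 ≤ y)
    (hBe : 128 ≤ B * eps) (hLy : 96 * (X0 + Real.log (1 / eps) + 1) ≤ N1 * y) {w : Om W X β}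
    (hw : tb.Ps.p w ≠ 0) (hAw : A1 h v tb B eps X0 X1 s t q i b k w) :
    tb.Ps.ce (C2 tb v b k t q) (fun u => ind (y ≤ dl tb D b (TP.nn q) (A1 h v tb B eps X0 X1 s t q i b k) u)) w ≤
      Real.exp (1 + (X0 + X1 + Real.log (1 / eps)) - N1 * y / 16) := by
  have hv := R.codes
  have hq : 5 * t ≤ q := hq5.trans (hqe ▸ qs_le_qe s t)
  set A := A1 h v tb B eps X0 X1 s t q i b k with hA
  have fA : Fac (C2 tb v b k t q) A := A1_fac h hqe hq hnc hib hik hkb
  have hBpos : 0 < B := by linarith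
  have hlog : Real.exp (-(Real.log (1 / eps))) = eps := by
    rw [one_div, Real.log_inv, neg_neg, Real.exp_log he]
  have a1 := ss_mx h hv hw t hAw.2.1
  have a2 := pX_mx h hv hq hw he.le hAw.1.1
  have a3 := spp_mx h hv hw t hAw.2.2
  have a4 : mx tb (FX tb v {b} (5 * t) q w) ≤ mx tb (FX tb v ∅ q q w) :=
    mx_mono tb fun x e => ⟨fun j hj => absurd hj (Finset.notMem_empty j), e.2⟩
  have hL0 : Real.exp (-(X0 + Real.log (1 / eps))) * mx tb (FX tb v ∅ (5 * t) (5 * t) w) ≤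
      mx tb (FX tb v {b} (5 * t) q w) := by
    rw [neg_add, Real.exp_add, hlog, mul_comm (Real.exp (-X0)) eps, mul_assoc]
    exact (mul_le_mul_of_nonneg_left a1 he.le).trans a2
  have hL1 : Real.exp (-(X0 + X1 + Real.log (1 / eps))) * mx tb (FX tb v ∅ (5 * t) (5 * t) w) ≤
      mx tb (FX tb v {b, k} (5 * t) q w) := by
    have e1 : -(X0 + X1 + Real.log (1 / eps)) = -X1 + -(X0 + Real.log (1 / eps)) := by ring
    rw [e1, Real.exp_add, mul_assoc]
    rw [FX_nc hnc (J := {b, k})] at a3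
    exact (mul_le_mul_of_nonneg_left (hL0.trans a4) (Real.exp_pos _).le).trans a3
  refine core64 hn hN1 R H ht.le hq (Or.inr ⟨hnn, ht⟩) hkb fA hw hy0 ?_ hL0 hL1 hLy
  rintro x ⟨u', hu', h2, h3, h4⟩
  have e1 : ∀ q2, 5 * t ≤ q2 → q2 ≤ q → tb.Ps.E (fun u => ind (XLo tb v k (5 * t) u = XLo tb v k (5 * t) x) *
      ind (FX tb v {b} (5 * t) q2 w u.1 ∧ GY D {b} t w u.2.2)) =
      mx tb (FX tb v {b, k} (5 * t) q2 u') * my tb (GY D {b, k} t u') := by
    intro q2 g1 g2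
    rw [← E_split]
    refine tb.Ps.E_congr fun u _ => ?_
    rw [← ind_and, ← h3]
    exact congrArg ind (propext (reb hv g1 g2 h2))
  have e5 : tb.Ps.Pr (fun u => FX tb v {b} (5 * t) (5 * t) w u.1 ∧ GY D {b} t w u.2.2) =
      mx tb (FX tb v {b} (5 * t) (5 * t) w) * my tb (GY D {b} t w) := E_split tb _ _
  have e6 : tb.Ps.Pr (fun u => FX tb v {b} (5 * t) q w u.1 ∧ GY D {b} t w u.2.2) =
      mx tb (FX tb v {b} (5 * t) q w) * my tb (GY D {b} t w) := E_split tb _ _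
  rw [e1 q hq le_rfl, e1 (5 * t) le_rfl hq, e5, e6]
  have s1 := h4.1.2
  unfold Hv.sup at s1
  rw [hqe, Zb_mx h hv t q hib hik hkb u', hnn, FX_nc hnc (J := {b, k})] at s1
  have s2 : (D.P h t).m (ZbQ D v (qs s t) i) (tb.pt t u') ≤ (D.P h t).m (ZbQ D v (5 * t) i) (tb.pt t u') :=
    (D.P h t).E_mono fun _ _ => ind_mono fun e => ZbQ_mono hq5 i _ _ e
  rw [Zb_mx h hv t (5 * t) hib hik hkb u', nn5] at s2
  have s3 := my_half tb H hkb ht hu'
  have s4 := mul_le_mul_of_nonneg_left s3 (mx_nn tb (FX tb v {b, k} (5 * t) q u'))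
  have s5 := mul_le_mul_of_nonneg_left s4 hBpos.le
  -- `B U ≤ 2 V`, `eps m5 ≤ mq`
  set U := mx tb (FX tb v {b, k} (5 * t) q u') * my tb (GY D {b, k} t u') with hU
  set V := mx tb (FX tb v {b, k} (5 * t) (5 * t) u') * my tb (GY D {b, k} t u') with hV
  set m5 := mx tb (FX tb v {b} (5 * t) (5 * t) w) with hm5
  set mq := mx tb (FX tb v {b} (5 * t) q w) with hmq
  set g := my tb (GY D {b} t w) with hg
  have hU0 : 0 ≤ U := mul_nonneg (mx_nn tb _) (my_nn tb _)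
  have hV0 : 0 ≤ V := mul_nonneg (mx_nn tb _) (my_nn tb _)
  have hm50 : 0 ≤ m5 := mx_nn tb _
  have hg0 : 0 ≤ g := my_nn tb _
  have t1 : B * U ≤ 2 * V := by linarith
  have t2 : 64 * (U * m5) ≤ V * mq := by
    have t3 : B * U * (eps * m5) ≤ 2 * V * mq := mul_le_mul t1 a2 (mul_nonneg he.le hm50) (by linarith)
    have t4 : 128 * (U * m5) ≤ B * eps * (U * m5) := mul_le_mul_of_nonneg_right hBe (mul_nonneg hU0 hm50)
    have t5 : B * U * (eps * m5) = B * eps * (U * m5) := by ring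
    linarith
  have t6 := mul_le_mul_of_nonneg_right t2 hg0
  calc 64 * (U * (m5 * g)) = 64 * (U * m5) * g := by ring
    _ ≤ V * mq * g := t6
    _ = V * (mq * g) := by ring

/-! ### the private codes, all values heavy -/

/-- the partner event, private codes -/
def A2 (v : ℕ → Finset (Fin 3) → X → (Fin 3 → β) → Pt (Fin 3) X β φ) (tb : Tab D prr T W) (B X0 X1 : ℝ) (t : ℕ)
    (i b k : Fin 3) (u : Om W X β) : Prop :=
  ((¬ lpv h v b t (tb.pt t u) ∧ ¬ lpv h v k t (tb.pt t u)) ∧ Hv.sup h v B 5 t i (tb.pt t u)) ∧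
    ssQ h v (5 * (t + 1)) b (tb.pt t u) ≤ X0 ∧ spQ h v (5 * (t + 1)) b k (tb.pt t u) ≤ X1

theorem LT_sym {J : Finset (Fin 3)} {q1 q2 : ℕ} {w u : Om W X β} (e : LT tb v J q1 q2 w u) : LT tb v J q1 q2 u w :=
  ⟨fun j hj => (e.1 j hj).symm, e.2.symm⟩

theorem lpv_eq {t : ℕ} {j : Fin 3} {x z : Om W X β} (h1 : XLo tb v j (5 * t + 5) x = XLo tb v j (5 * t + 5) z)
    (h2 : NPo tb v (5 * t + 5) x = NPo tb v (5 * t + 5) z) : lpv h v j t (tb.pt t x) = lpv h v j t (tb.pt t z) := by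
  have h3 : XLo tb v j (5 * t + 4) x = XLo tb v j (5 * t + 4) z := XLo_mono (by omega) j _ _ h1
  have h4 : NPo tb v (5 * t + 4) x = NPo tb v (5 * t + 4) z :=
    NPq_mono (D := D) (v := v) (show 5 * t + 4 ≤ 5 * t + 5 by omega) _ _ h2
  unfold lpv
  rw [(D.P h t).Fac_m (fun u => (XLq v (5 * t + 5) j u, NPq D v (5 * t + 5) u)) (tb.pt t x) (tb.pt t z) (Prod.ext h1 h2),
    (D.P h t).Fac_m (fun u => (XLq v (5 * t + 4) j u, NPq D v (5 * t + 4) u)) (tb.pt t x) (tb.pt t z) (Prod.ext h3 h4)]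

/-- heavy private value -/
theorem lpv_mT {t : ℕ} {j : Fin 3} {x : Om W X β} (hx : ¬ lpv h v j t (tb.pt t x)) :
    tb.Ps.m (fun u => (XLo tb v j (5 * t + 4) u, NPo tb v (5 * t + 4) u)) x ≤
      2 * tb.Ps.m (fun u => (XLo tb v j (5 * t + 5) u, NPo tb v (5 * t + 5) u)) x := by
  unfold lpv at hx
  rw [mT h (f := fun u : Pt (Fin 3) X β φ => (XLq v (5 * t + 5) j u, NPq D v (5 * t + 5) u)) (fun _ _ _ _ => rfl),
    mT h (f := fun u : Pt (Fin 3) X β φ => (XLq v (5 * t + 4) j u, NPq D v (5 * t + 4) u)) (fun _ _ _ _ => rfl)] at hx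
  exact not_lt.1 hx

theorem A2_fac {B X0 X1 : ℝ} {t : ℕ} {i b k : Fin 3} (hib : i ≠ b) (hik : i ≠ k) (hkb : k ≠ b) :
    Fac (C2 tb v b k (t + 1) (5 * (t + 1))) (A2 h v tb B X0 X1 t i b k) := by
  intro x z e
  have e1 := (C2_iff tb).1 e
  have hb := e1.1 b (Finset.mem_insert_self b {k})
  have hk := e1.1 k (Finset.mem_insert_of_mem (Finset.mem_singleton_self k))
  have hN := e1.2
  have hZ : ZbQ D v (5 * (t + 1)) i (tb.pt t x) = ZbQ D v (5 * (t + 1)) i (tb.pt t z) := (Zb_LT t _ hib hik hkb x z).2 e1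
  have g0 : lpv h v b t (tb.pt t x) = lpv h v b t (tb.pt t z) := lpv_eq h hb hN
  have g1 : lpv h v k t (tb.pt t x) = lpv h v k t (tb.pt t z) := lpv_eq h hk hN
  have g2 : Hv.sup h v B 5 t i (tb.pt t x) = Hv.sup h v B 5 t i (tb.pt t z) := by
    have q1 : (D.P h t).m (ZbQ D v (qe 5 t) i) (tb.pt t x) = (D.P h t).m (ZbQ D v (qe 5 t) i) (tb.pt t z) :=
      (D.P h t).Fac_m (ZbQ D v (qe 5 t) i) (tb.pt t x) (tb.pt t z) hZ
    have q2 : (D.P h t).m (ZbQ D v (qs 5 t) i) (tb.pt t x) = (D.P h t).m (ZbQ D v (qs 5 t) i) (tb.pt t z) :=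
      (D.P h t).Fac_m (ZbQ D v (qs 5 t) i) (tb.pt t x) (tb.pt t z) (ZbQ_mono (qs_le_qe 5 t) i _ _ hZ)
    unfold Hv.sup
    rw [q1, q2]
  have g3 : ssQ h v (5 * (t + 1)) b (tb.pt t x) = ssQ h v (5 * (t + 1)) b (tb.pt t z) :=
    sp_fac _ _ _ _ _ (Prod.ext hb (Prod.ext (XLo_iff.1 hb).1 hN))
  have g4 : spQ h v (5 * (t + 1)) b k (tb.pt t x) = spQ h v (5 * (t + 1)) b k (tb.pt t z) :=
    sp_fac _ _ _ _ _ (Prod.ext (Prod.ext hb hk) (Prod.ext (XLo_iff.1 hb).1 (Prod.ext (XLo_iff.1 hk).1 hN)))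
  show ((_ ∧ _) ∧ _) = ((_ ∧ _) ∧ _)
  rw [g0, g1, g2, g3, g4]

theorem case2 {n N1 : ℝ} (hn : 1 ≤ n) (hN1 : 1 ≤ N1) (R : Run h (pr3 (Fin 3) n N1) (SS1 (Fin 3)) (AdmDep D) v)
    {dg : ℕ → X → ℝ} {Lam : ℝ} (H : D.Hyp dg prr al T Lam) {t : ℕ} (ht : t < T) {i b k : Fin 3}
    (hib : i ≠ b) (hik : i ≠ k) (hkb : k ≠ b) {B y X0 X1 : ℝ} (hB : 1 ≤ B)
    (hyB : 64 / B ≤ y) (hLy : 64 * (X0 + 1) ≤ N1 * y) {w : Om W X β}
    (hw : tb.Ps.p w ≠ 0) (hAw : A2 h v tb B X0 X1 t i b k w) :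
    tb.Ps.ce (C2 tb v b k (t + 1) (5 * (t + 1)))
      (fun u => ind (y ≤ dl tb D b (TP.nn (5 * (t + 1))) (A2 h v tb B X0 X1 t i b k) u)) w ≤
      Real.exp (1 + X1 - N1 * y / 16) := by
  have hv := R.codes
  set A := A2 h v tb B X0 X1 t i b k with hA
  have fA : Fac (C2 tb v b k (t + 1) (5 * (t + 1))) A := A2_fac h hib hik hkb
  have hBpos : 0 < B := by linarith
  have a1 := ss_mx h hv hw t hAw.2.1
  have a3 := spp_mx h hv hw t hAw.2.2
  have hL := fun u : Om W X β => LT_iff (tb := tb) hv (J := {b}) (q1 := 5 * (t + 1)) (q2 := 5 * (t + 1)) (w0 := w) (u := u)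
    (fun j _ => nc_le _ _)
  have hE1 : ∀ u : Om W X β, (FX tb v {b} (5 * (t + 1)) (5 * (t + 1)) w u.1 ∧ GY D {b} (t + 1) w u.2.2) ↔
      LT tb v {b} (5 * (t + 1)) (5 * (t + 1)) w u := fun u => by
    have := hL u
    rw [nn5] at this
    exact this.symm
  have hy0 : 0 ≤ y := le_trans (by positivity) hyB
  refine core (κ := 4 / B) hn hN1 R H (show t + 1 ≤ T by omega) le_rfl (Or.inl (nn5 (t + 1))) hkb fA hw hy0 ?_ a1 a3 ?_ hLy
  · have q5 : (5 : ℕ) * (t + 1) = 5 * t + 5 := rfl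
    have q4 : 5 * t + 4 ≤ 5 * (t + 1) := by omega
    have f1 := few tb.Ps (Z' := fun u => (XLo tb v k (5 * (t + 1)) u, NPo tb v (5 * (t + 1)) u))
      (Z := fun u => (XLo tb v k (5 * t + 4) u, NPo tb v (5 * t + 4) u))
      (E1 := fun u => FX tb v {b} (5 * (t + 1)) (5 * (t + 1)) w u.1 ∧ GY D {b} (t + 1) w u.2.2)
      (E2 := fun u => LT tb v {b} (5 * t + 4) (5 * t + 4) w u) (A := Ak tb v b k (t + 1) (5 * (t + 1)) A w)
      (a := 1 / B) (c := 2) (fun x z e => Prod.ext (XLo_mono q4 k _ _ (Prod.mk.inj e).1)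
        (NPq_mono (D := D) (v := v) q4 _ _ (Prod.mk.inj e).2)) (fun x z e => Ak_fac x z (Prod.mk.inj e).1)
      (by positivity) (by norm_num) ?_ ?_
    · refine f1.trans ?_
      have e1 : tb.Ps.Pr (fun u => LT tb v {b} (5 * t + 4) (5 * t + 4) w u) =
          tb.Ps.m (fun u => (XLo tb v b (5 * t + 4) u, NPo tb v (5 * t + 4) u)) w := by
        unfold FP.m
        refine tb.Ps.E_congr fun u _ => congrArg ind (propext ⟨fun e => ?_, fun e => ?_⟩)
        · exact Prod.ext (e.1 b (Finset.mem_singleton_self b)) e.2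
        · exact ⟨fun j hj => by rw [Finset.mem_singleton.1 hj]; exact (Prod.mk.inj e).1, (Prod.mk.inj e).2⟩
      have e2 : tb.Ps.Pr (fun u => FX tb v {b} (5 * (t + 1)) (5 * (t + 1)) w u.1 ∧ GY D {b} (t + 1) w u.2.2) =
          tb.Ps.m (fun u => (XLo tb v b (5 * t + 5) u, NPo tb v (5 * t + 5) u)) w := by
        unfold FP.m
        refine tb.Ps.E_congr fun u _ => congrArg ind (propext ((hE1 u).trans ⟨fun e => ?_, fun e => ?_⟩))
        · exact Prod.ext (e.1 b (Finset.mem_singleton_self b)) e.2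
        · exact ⟨fun j hj => by rw [Finset.mem_singleton.1 hj]; exact (Prod.mk.inj e).1, (Prod.mk.inj e).2⟩
      rw [e1, e2]
      have e3 := lpv_mT h hAw.1.1.1
      have e4 : 1 / B * 2 * (2 * tb.Ps.m (fun u => (XLo tb v b (5 * t + 5) u, NPo tb v (5 * t + 5) u)) w) =
          4 / B * tb.Ps.m (fun u => (XLo tb v b (5 * t + 5) u, NPo tb v (5 * t + 5) u)) w := by ring
      rw [← e4]
      exact mul_le_mul_of_nonneg_left e3 (by positivity)
    · intro x hx hEx hAx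
      obtain ⟨u', hu', h2, h3, h4⟩ := hAx
      have hEx' := (hE1 x).1 hEx
      have hNx : NPo tb v (5 * (t + 1)) u' = NPo tb v (5 * (t + 1)) x := h2.2.trans hEx'.2.symm
      have hbx : XLo tb v b (5 * (t + 1)) u' = XLo tb v b (5 * (t + 1)) x :=
        (h2.1 b (Finset.mem_singleton_self b)).trans (hEx'.1 b (Finset.mem_singleton_self b)).symm
      have h2' : LT tb v {b} (5 * t + 4) (5 * t + 4) w u' := LT_mono q4 q4 h2
      -- both sides are masses of what the top sees at `u'`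
      have e1 : tb.Ps.E (fun u => ind ((XLo tb v k (5 * (t + 1)) u, NPo tb v (5 * (t + 1)) u) =
          (XLo tb v k (5 * (t + 1)) x, NPo tb v (5 * (t + 1)) x)) *
          ind (FX tb v {b} (5 * (t + 1)) (5 * (t + 1)) w u.1 ∧ GY D {b} (t + 1) w u.2.2)) =
          (D.P h t).m (ZbQ D v (5 * (t + 1)) i) (tb.pt t u') := by
        rw [mT h (xy_Zb (5 * (t + 1)) i)]
        unfold FP.m
        refine tb.Ps.E_congr fun u _ => ?_
        rw [← ind_and]
        refine congrArg ind (propext ((and_congr_right fun _ => hE1 u).trans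
          (Iff.trans ⟨fun e => ?_, fun e => ?_⟩ (Zb_LT 0 (5 * (t + 1)) hib hik hkb u u').symm)))
        · refine ⟨fun j hj => ?_, (Prod.mk.inj e.1).2.trans hNx.symm⟩
          rcases Finset.mem_insert.1 hj with e5 | e5
          · rw [e5]
            exact (e.2.1 b (Finset.mem_singleton_self b)).trans (h2.1 b (Finset.mem_singleton_self b)).symm
          · rw [Finset.mem_singleton.1 e5]
            exact (Prod.mk.inj e.1).1.trans h3.symm
        · refine ⟨Prod.ext ((e.1 k (Finset.mem_insert_of_mem (Finset.mem_singleton_self k))).trans h3) (e.2.trans hNx),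
            fun j hj => ?_, e.2.trans h2.2⟩
          rw [Finset.mem_singleton.1 hj]
          exact (e.1 b (Finset.mem_insert_self b {k})).trans (h2.1 b (Finset.mem_singleton_self b))
      have e2 : tb.Ps.E (fun u => ind ((XLo tb v k (5 * t + 4) u, NPo tb v (5 * t + 4) u) =
          (XLo tb v k (5 * t + 4) x, NPo tb v (5 * t + 4) x)) * ind (LT tb v {b} (5 * t + 4) (5 * t + 4) w u)) =
          (D.P h t).m (ZbQ D v (5 * t + 4) i) (tb.pt t u') := by
        have k1 : XLo tb v k (5 * t + 4) u' = XLo tb v k (5 * t + 4) x := XLo_mono q4 k _ _ h3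
        have k2 : NPo tb v (5 * t + 4) u' = NPo tb v (5 * t + 4) x := NPq_mono (D := D) (v := v) q4 _ _ hNx
        rw [mT h (xy_Zb (5 * t + 4) i)]
        unfold FP.m
        refine tb.Ps.E_congr fun u _ => ?_
        rw [← ind_and]
        refine congrArg ind (propext (Iff.trans ⟨fun e => ?_, fun e => ?_⟩ (Zb_LT 0 (5 * t + 4) hib hik hkb u u').symm))
        · refine ⟨fun j hj => ?_, (Prod.mk.inj e.1).2.trans k2.symm⟩
          rcases Finset.mem_insert.1 hj with e5 | e5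
          · rw [e5]
            exact (e.2.1 b (Finset.mem_singleton_self b)).trans (h2'.1 b (Finset.mem_singleton_self b)).symm
          · rw [Finset.mem_singleton.1 e5]
            exact (Prod.mk.inj e.1).1.trans k1.symm
        · refine ⟨Prod.ext ((e.1 k (Finset.mem_insert_of_mem (Finset.mem_singleton_self k))).trans k1) (e.2.trans k2),
            fun j hj => ?_, e.2.trans h2'.2⟩
          rw [Finset.mem_singleton.1 hj]
          exact (e.1 b (Finset.mem_insert_self b {k})).trans (h2'.1 b (Finset.mem_singleton_self b))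
      rw [e1, e2, one_div, inv_mul_eq_div, le_div_iff₀ hBpos, mul_comm]
      exact (show B * (D.P h t).m (ZbQ D v (5 * (t + 1)) i) (tb.pt t u') < (D.P h t).m (ZbQ D v (5 * t + 4) i) (tb.pt t u')
        from h4.1.2).le
    · intro x hx hEx hAx
      obtain ⟨u', hu', h2, h3, h4⟩ := hAx
      have hEx' := (hE1 x).1 hEx
      have hNx : NPo tb v (5 * (t + 1)) u' = NPo tb v (5 * (t + 1)) x := h2.2.trans hEx'.2.symm
      have k1 : XLo tb v k (5 * t + 4) u' = XLo tb v k (5 * t + 4) x := XLo_mono q4 k _ _ h3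
      have k2 : NPo tb v (5 * t + 4) u' = NPo tb v (5 * t + 4) x := NPq_mono (D := D) (v := v) q4 _ _ hNx
      have e3 := lpv_mT h h4.1.1.2
      rw [tb.Ps.Fac_m (fun u => (XLo tb v k (5 * t + 4) u, NPo tb v (5 * t + 4) u)) u' x (Prod.ext k1 k2),
        tb.Ps.Fac_m (fun u => (XLo tb v k (5 * t + 5) u, NPo tb v (5 * t + 5) u)) u' x (Prod.ext h3 hNx)] at e3
      exact e3
  · have e1 : 4 / B = 64 / B / 16 := by ring
    rw [e1]
    linarith

theorem nc_15 (t : ℕ) : ∀ j : Fin 3, TP.nc (5 * t + 1) {j} = TP.nc (5 * t) {j} := fun j => by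
  rw [GamR.nc51, GamR.nc5]

theorem nc_25 (t : ℕ) : ∀ j : Fin 3, TP.nc (5 * t + 2) {j} = TP.nc (5 * t) {j} := fun j => by
  rw [GamR.nc5]
  unfold TP.nc TP.ncj
  have h1 : ∀ j : Fin 3, ¬ TP.rk {j} < 2 := by decide
  rw [show (5 * t + 2) % 5 = 2 by omega, show (5 * t + 2) / 5 = t by omega, if_neg (h1 j)]

theorem nn_25 (t : ℕ) : TP.nn (5 * t + 2) = t + 1 := by
  unfold TP.nn TP.nnj
  rw [show (5 * t + 2) % 5 = 2 by omega, show (5 * t + 2) / 5 = t by omega, if_neg (by norm_num)]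

/-- the two numbers together -/
theorem fin_num {X0 X1 y l N x g q p c : ℝ} (hX0 : 0 ≤ X0) (hX1 : 0 ≤ X1) (hl : 0 ≤ l) (hy : 0 < y) (hy1 : y ≤ 1)
    (hN : 0 ≤ N) (hc : c ≤ 1 + (X0 + X1 + l) - N * y / 16) (hx : x ≤ y * g + Real.exp c * p) (hp0 : 0 ≤ p) (hpq : p ≤ q) :
    x ≤ y * g + 1 / y * Real.exp (20 + 8 * (X0 + X1) + 8 * l - N * y / 64) * q := by
  have h1 : Real.exp c ≤ 1 / y * Real.exp (20 + 8 * (X0 + X1) + 8 * l - N * y / 64) := by
    have h2 : c ≤ 20 + 8 * (X0 + X1) + 8 * l - N * y / 64 := by nlinarith [mul_nonneg hN hy.le]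
    have h3 : 1 ≤ 1 / y := by rw [le_div_iff₀ hy]; linarith
    calc Real.exp c ≤ Real.exp (20 + 8 * (X0 + X1) + 8 * l - N * y / 64) := Real.exp_le_exp.2 h2
      _ ≤ _ := le_mul_of_one_le_left (Real.exp_pos _).le h3
  have h4 : Real.exp c * p ≤ 1 / y * Real.exp (20 + 8 * (X0 + X1) + 8 * l - N * y / 64) * q :=
    mul_le_mul h1 hpq hp0 (by positivity)
  linarith

end

end Pool.Agent.GMH.HvR

namespace Pool.Agent.GMH.Hv

open Finset Pool.Agent.PWZ Pool.Agent.M3 Pool.Agent.GM Pool.Agent.GM.Harm Pool.Agent.GMH Pool.Agent.GMH.NZ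
open Pool.Agent.GMH.V3 Pool.Agent.GMH.TP Pool.Agent.GMH.KF Pool.Agent.GMH.Dy Pool.Agent.GMH.HvR

noncomputable section

variable {X β γ φ : Type} [Fintype X] [Fintype β] [Fintype φ] [Nonempty X] [Nonempty β]
variable {D : HD (Fin 3) X β γ φ} {al : ℝ} (h : D.Thick al)
  {v : ℕ → Finset (Fin 3) → X → (Fin 3 → β) → Pt (Fin 3) X β φ}
variable {dg : ℕ → X → ℝ} {prr : ℕ → Fin 3 → φ → φ} {T : ℕ} {Lam n N1 : ℝ}

/-- **(H1)** : rarity of the density of the suppressed partner at the exact vertex `b`, and the product -/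
theorem pair_rare (H : D.Hyp dg prr al T Lam) (R : Run h (pr3 (Fin 3) n N1) (SS1 (Fin 3)) (AdmDep D) v) (hn : 1 ≤ n)
    (hN1 : 1 ≤ N1) (p : AP) (hX0 : 0 ≤ p.X0) (hX1 : 0 ≤ p.X1) {t : ℕ} (ht : t < T) {s : Fin 6}
    (hs : s = 0 ∨ s = 2 ∨ s = 5) {i k b : Fin 3} (hik : i ≠ k) (hib : i ≠ b) (hkb : k ≠ b) {B y eps : ℝ} (hB : 1 ≤ B)
    (he : 0 < eps) (he1 : eps ≤ 1) (hy : 0 < y) (hy1 : y ≤ 1) (hyB : 64 / (B * eps) ≤ y)
    {G : Pt (Fin 3) X β φ → Prop} (hG : Fac (fun w => (ZbQ D v (qe s t) k w, FQ v t k w)) G) :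
    (D.P h t).Pr (fun w => AQ h v p (5 * t) w ∧ AQ h v p (qe s t) w ∧ ok h v eps s t b k w ∧ sup h v B s t i w ∧ G w) ≤
      y * (D.P h t).Pr G + 1 / y * Real.exp (20 + 8 * (p.X0 + p.X1) + 8 * Real.log (1 / eps) - N1 * y / 64) *
        (D.P h t).Pr (fun w => ok h v eps s t b k w ∧ sup h v B s t i w) := by
  obtain ⟨W, iW, nW, ⟨tb⟩⟩ := exists_tab h H
  have hv := R.codes
  have H0 : Pul tb.Ps (D.P h t) (tb.pt t) := pul_pt h tb ht.le
  have hl : 0 ≤ Real.log (1 / eps) := Real.log_nonneg (by rw [le_div_iff₀ he]; linarith)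
  have hq0 : 0 ≤ (D.P h t).Pr (fun w => ok h v eps s t b k w ∧ sup h v B s t i w) := (D.P h t).Pr_nonneg _
  have hg0 : 0 ≤ (D.P h t).Pr G := (D.P h t).Pr_nonneg _
  by_cases hLy : 64 * (p.X0 + Real.log (1 / eps) + 1) ≤ N1 * y
  · rcases hs with e | e | e
    · subst e
      have hqe : qe 0 t = 5 * t + 1 := rfl
      have hM := fun w hw hAw => case1 (tb := tb) h hn hN1 R H (s := 0) ht hqe (show 5 * t ≤ qs 0 t from le_rfl)
        (GamR.nn51 t) (nc_15 t) hib hik hkb hB he hyB hLy (X1 := p.X1) (w := w) hw hAw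
      have hf := asm (tb := tb) (v := v) (D := D) hib hik hkb hv rfl (fun j => by rw [GamR.nc5, GamR.nn51]; omega)
        (A1_fac h hqe (Nat.le_succ _) (nc_15 t) hib hik hkb)
        (top_fac (tb := tb) hib hik hkb hv (by rw [GamR.nn51]; omega) hG) hy.le hM
      refine fin_num (g := (D.P h t).Pr G) (p := tb.Ps.Pr (A1 h v tb B eps p.X0 p.X1 0 t (5 * t + 1) i b k)) hX0 hX1 hl hy
        hy1 (by linarith) le_rfl (le_trans ?_ (hf.trans (le_of_eq ?_))) (tb.Ps.Pr_nonneg _) ?_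
      · rw [← H0.Pr]
        refine tb.Ps.E_mono fun u _ => ind_mono ?_
        rintro ⟨h1, h2, h3, h4, h5⟩
        exact ⟨⟨⟨h3.1 (by decide), h4⟩, h1.1 b, h2.2 b k hkb.symm⟩, h5⟩
      · rw [← H0.Pr]
      · rw [← H0.Pr]
        refine tb.Ps.E_mono fun u _ => ind_mono ?_
        rintro ⟨⟨h3, h4⟩, _⟩
        exact ⟨⟨fun _ => h3, fun hh => absurd hh (by decide)⟩, h4⟩
    · subst e
      have hqe : qe 2 t = 5 * t + 2 := rfl
      have hM := fun w hw hAw => case1 (tb := tb) h hn hN1 R H (s := 2) ht hqe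
        (show 5 * t ≤ qs 2 t from Nat.le_succ _) (nn_25 t) (nc_25 t) hib hik hkb hB he hyB hLy (X1 := p.X1) (w := w) hw hAw
      have hf := asm (tb := tb) (v := v) (D := D) hib hik hkb hv rfl (fun j => by rw [GamR.nc5, nn_25]; omega)
        (A1_fac h hqe (by omega) (nc_25 t) hib hik hkb)
        (top_fac (tb := tb) hib hik hkb hv (by rw [nn_25]; omega) hG) hy.le hM
      refine fin_num (g := (D.P h t).Pr G) (p := tb.Ps.Pr (A1 h v tb B eps p.X0 p.X1 2 t (5 * t + 2) i b k)) hX0 hX1 hl hy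
        hy1 (by linarith) le_rfl (le_trans ?_ (hf.trans (le_of_eq ?_))) (tb.Ps.Pr_nonneg _) ?_
      · rw [← H0.Pr]
        refine tb.Ps.E_mono fun u _ => ind_mono ?_
        rintro ⟨h1, h2, h3, h4, h5⟩
        exact ⟨⟨⟨h3.1 (by decide), h4⟩, h1.1 b, h2.2 b k hkb.symm⟩, h5⟩
      · rw [← H0.Pr]
      · rw [← H0.Pr]
        refine tb.Ps.E_mono fun u _ => ind_mono ?_
        rintro ⟨⟨h3, h4⟩, _⟩
        exact ⟨⟨fun _ => h3, fun hh => absurd hh (by decide)⟩, h4⟩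
    · subst e
      have hBe : 64 / B ≤ y := by
        refine le_trans ?_ hyB
        refine div_le_div_of_nonneg_left (by norm_num) (mul_pos (by linarith) he) ?_
        exact mul_le_of_le_one_right (by linarith) he1
      have hM := fun w hw hAw => case2 (tb := tb) h hn hN1 R H ht hib hik hkb hB hBe
        (show 64 * (p.X0 + 1) ≤ N1 * y by linarith) (X1 := p.X1) (w := w) hw hAw
      have hf := asm (tb := tb) (v := v) (D := D) hib hik hkb hv rfl (fun j => by rw [GamR.nc5, GamR.nn5])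
        (A2_fac (B := B) (X0 := p.X0) (X1 := p.X1) h hib hik hkb)
        (top_fac (tb := tb) (q := 5 * (t + 1)) hib hik hkb hv (by rw [GamR.nn5]; omega) hG) hy.le hM
      refine fin_num (g := (D.P h t).Pr G) (p := tb.Ps.Pr (A2 h v tb B p.X0 p.X1 t i b k)) hX0 hX1 hl hy
        hy1 (by linarith) (show 1 + p.X1 - N1 * y / 16 ≤ _ by linarith) (le_trans ?_ (hf.trans (le_of_eq ?_)))
        (tb.Ps.Pr_nonneg _) ?_
      · rw [← H0.Pr]
        refine tb.Ps.E_mono fun u _ => ind_mono ?_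
        rintro ⟨h1, h2, h3, h4, h5⟩
        exact ⟨⟨⟨h3.2 rfl, h4⟩, h2.1 b, h2.2 b k hkb.symm⟩, h5⟩
      · rw [← H0.Pr]
      · rw [← H0.Pr]
        refine tb.Ps.E_mono fun u _ => ind_mono ?_
        rintro ⟨⟨h3, h4⟩, _⟩
        exact ⟨⟨fun hh => absurd rfl hh, fun _ => h3⟩, h4⟩
  · -- the bound is trivial
    have h1 : 0 ≤ 20 + 8 * (p.X0 + p.X1) + 8 * Real.log (1 / eps) - N1 * y / 64 := by
      have := not_le.1 hLy
      linarith
    have h2 := Real.one_le_exp h1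
    have h3 : 1 ≤ 1 / y := by rw [le_div_iff₀ hy]; linarith
    have h4 : 1 ≤ 1 / y * Real.exp (20 + 8 * (p.X0 + p.X1) + 8 * Real.log (1 / eps) - N1 * y / 64) :=
      one_le_mul_of_one_le_of_one_le h3 h2
    have h5 : (D.P h t).Pr (fun w => AQ h v p (5 * t) w ∧ AQ h v p (qe s t) w ∧ ok h v eps s t b k w ∧
        sup h v B s t i w ∧ G w) ≤ (D.P h t).Pr (fun w => ok h v eps s t b k w ∧ sup h v B s t i w) :=
      (D.P h t).E_mono fun w _ => ind_mono fun e => ⟨e.2.2.1, e.2.2.2.1⟩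
    have h6 := le_mul_of_one_le_left hq0 h4
    have h7 := mul_nonneg hy.le hg0
    linarith

/-- **(H1), digit and heavy public value, large exponent** : the condition on `B eps` is a constant -/
theorem pair_rare1 (H : D.Hyp dg prr al T Lam) (R : Run h (pr3 (Fin 3) n N1) (SS1 (Fin 3)) (AdmDep D) v) (hn : 1 ≤ n)
    (hN1 : 1 ≤ N1) (p : AP) (hX0 : 0 ≤ p.X0) (hX1 : 0 ≤ p.X1) {t : ℕ} (ht : t < T) {s : Fin 6}
    (hs : s = 0 ∨ s = 2) {i k b : Fin 3} (hik : i ≠ k) (hib : i ≠ b) (hkb : k ≠ b) {B y eps : ℝ} (hB : 1 ≤ B)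
    (he : 0 < eps) (he1 : eps ≤ 1) (hy : 0 < y) (hy1 : y ≤ 1) (hBe : 128 ≤ B * eps)
    (hNy : 10 ^ 4 * (1 + p.X0 + p.X1 + Real.log (1 / eps)) ≤ N1 * y)
    {G : Pt (Fin 3) X β φ → Prop} (hG : Fac (fun w => (ZbQ D v (qe s t) k w, FQ v t k w)) G) :
    (D.P h t).Pr (fun w => AQ h v p (5 * t) w ∧ AQ h v p (qe s t) w ∧ ok h v eps s t b k w ∧ sup h v B s t i w ∧ G w) ≤
      y * (D.P h t).Pr G + 1 / y * Real.exp (20 + 8 * (p.X0 + p.X1) + 8 * Real.log (1 / eps) - N1 * y / 64) *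
        (D.P h t).Pr (fun w => ok h v eps s t b k w ∧ sup h v B s t i w) := by
  obtain ⟨W, iW, nW, ⟨tb⟩⟩ := exists_tab h H
  have hv := R.codes
  have H0 : Pul tb.Ps (D.P h t) (tb.pt t) := pul_pt h tb ht.le
  have hl : 0 ≤ Real.log (1 / eps) := Real.log_nonneg (by rw [le_div_iff₀ he]; linarith)
  have hLy : 96 * (p.X0 + Real.log (1 / eps) + 1) ≤ N1 * y := by linarith
  rcases hs with e | e
  · subst e
    have hqe : qe 0 t = 5 * t + 1 := rfl
    have hM := fun w hw hAw => case64 (tb := tb) h hn hN1 R H (s := 0) ht hqe (show 5 * t ≤ qs 0 t from le_rfl)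
      (GamR.nn51 t) (nc_15 t) hib hik hkb hB he hy.le hBe hLy (X1 := p.X1) (w := w) hw hAw
    have hf := asm (tb := tb) (v := v) (D := D) hib hik hkb hv rfl (fun j => by rw [GamR.nc5, GamR.nn51]; omega)
      (A1_fac h hqe (Nat.le_succ _) (nc_15 t) hib hik hkb)
      (top_fac (tb := tb) hib hik hkb hv (by rw [GamR.nn51]; omega) hG) hy.le hM
    refine fin_num (g := (D.P h t).Pr G) (p := tb.Ps.Pr (A1 h v tb B eps p.X0 p.X1 0 t (5 * t + 1) i b k)) hX0 hX1 hl hy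
      hy1 (by linarith) le_rfl (le_trans ?_ (hf.trans (le_of_eq ?_))) (tb.Ps.Pr_nonneg _) ?_
    · rw [← H0.Pr]
      refine tb.Ps.E_mono fun u _ => ind_mono ?_
      rintro ⟨h1, h2, h3, h4, h5⟩
      exact ⟨⟨⟨h3.1 (by decide), h4⟩, h1.1 b, h2.2 b k hkb.symm⟩, h5⟩
    · rw [← H0.Pr]
    · rw [← H0.Pr]
      refine tb.Ps.E_mono fun u _ => ind_mono ?_
      rintro ⟨⟨h3, h4⟩, _⟩
      exact ⟨⟨fun _ => h3, fun hh => absurd hh (by decide)⟩, h4⟩
  · subst e
    have hqe : qe 2 t = 5 * t + 2 := rfl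
    have hM := fun w hw hAw => case64 (tb := tb) h hn hN1 R H (s := 2) ht hqe
      (show 5 * t ≤ qs 2 t from Nat.le_succ _) (nn_25 t) (nc_25 t) hib hik hkb hB he hy.le hBe hLy (X1 := p.X1) (w := w)
      hw hAw
    have hf := asm (tb := tb) (v := v) (D := D) hib hik hkb hv rfl (fun j => by rw [GamR.nc5, nn_25]; omega)
      (A1_fac h hqe (by omega) (nc_25 t) hib hik hkb)
      (top_fac (tb := tb) hib hik hkb hv (by rw [nn_25]; omega) hG) hy.le hM
    refine fin_num (g := (D.P h t).Pr G) (p := tb.Ps.Pr (A1 h v tb B eps p.X0 p.X1 2 t (5 * t + 2) i b k)) hX0 hX1 hl hy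
      hy1 (by linarith) le_rfl (le_trans ?_ (hf.trans (le_of_eq ?_))) (tb.Ps.Pr_nonneg _) ?_
    · rw [← H0.Pr]
      refine tb.Ps.E_mono fun u _ => ind_mono ?_
      rintro ⟨h1, h2, h3, h4, h5⟩
      exact ⟨⟨⟨h3.1 (by decide), h4⟩, h1.1 b, h2.2 b k hkb.symm⟩, h5⟩
    · rw [← H0.Pr]
    · rw [← H0.Pr]
      refine tb.Ps.E_mono fun u _ => ind_mono ?_
      rintro ⟨⟨h3, h4⟩, _⟩
      exact ⟨⟨fun _ => h3, fun hh => absurd hh (by decide)⟩, h4⟩

end

end Pool.Agent.GMH.Hv
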