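import Pool.Agent.GMH.HvDef
import Pool.Agent.GMH.GamR
import Pool.Agent.GMH.TabE
import Pool.Agent.GMH.HvM

/-!
# GMH/HvRa: rarity at the exact vertex with the hardwired letter of the partner (helper56; for H1 of `GMH/HvS`)

Space with tables.  `FX J q1 q2 w0 x` : the hidden point `x` with the points of `w0` has the letters (state `q1`) of the vertices
`J` and the public information (state `q2`) of `w0`; `GY J n w0 y` : the points of `J` exactly, the cells of the time `n`.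
* `few` : letters compared one by one; `Ps_mul`, `mx`, `my`, `LT_iff` : product of the two parts;
* `Clb`, `kl_satb` : class with the exact point `b`, saturation; `half1` : one new half cell;
* `core` : the density of the partner event is rarely at least `y`, RELATIVE to the class of both letters.
-/

set_option autoImplicit false
set_option linter.unusedSectionVars false

namespace Pool.Agent.GMH.HvR

open Finset Pool.Agent.PWZ Pool.Agent.M3 Pool.Agent.GM Pool.Agent.GM.Harm Pool.Agent.GMH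
open Pool.Agent.GMH.TP Pool.Agent.GMH.TD Pool.Agent.GMH.Dy Pool.Agent.GMH.MVI Pool.Agent.GMH.MVIp Pool.Agent.GMH.GamR

noncomputable section

section abs

variable {Om : Type*} [Fintype Om] (P : FP Om) {κ κ' : Type*}

/-- letters compared one by one -/
theorem few {Z' : Om → κ} {Z : Om → κ'} {E1 E2 A : Om → Prop} (hZ : Fac Z' Z) (hA : Fac Z' A) {a c : ℝ} (ha : 0 ≤ a)
    (hc : 0 ≤ c) (h1 : ∀ w, P.p w ≠ 0 → E1 w → A w →
      P.E (fun u => ind (Z' u = Z' w) * ind (E1 u)) ≤ a * P.E (fun u => ind (Z u = Z w) * ind (E2 u)))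
    (h2 : ∀ w, P.p w ≠ 0 → E1 w → A w → P.m Z w ≤ c * P.m Z' w) :
    P.E (fun w => ind (E1 w) * ind (A w)) ≤ a * c * P.Pr E2 := by
  have e1 : P.E (fun w => ind (E1 w) * ind (A w)) = P.E (fun w => ind (A w) * P.ce Z' (fun u => ind (E1 u)) w) := by
    rw [P.E_mul_ce (h := fun w => ind (A w)) (Fac.ind fun a b e => by rw [hA a b e]) (fun u => ind (E1 u))]
    exact P.E_congr fun w _ => mul_comm _ _
  have e2 : a * c * P.Pr E2 = P.E (fun w => a * c * P.ce Z (fun u => ind (E2 u)) w) := by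
    rw [P.E_smul, P.E_ce]
    rfl
  rw [e1, e2]
  refine P.E_mono fun w hw => ?_
  have h0 : 0 ≤ P.ce Z (fun u => ind (E2 u)) w := P.ce_nonneg (fun _ _ => ind_nonneg _) w
  by_cases hAw : A w
  · rw [ind_of hAw, one_mul]
    by_cases hex : ∃ u, P.p u ≠ 0 ∧ Z' u = Z' w ∧ E1 u
    · obtain ⟨u, hu, hz, hE⟩ := hex
      have hAu : A u := by rw [hA u w hz]; exact hAw
      have g1 := h1 u hu hE hAu
      have g2 := h2 u hu hE hAu
      rw [← P.ce_fac Z' _ u w hz, ← P.ce_fac Z _ u w (hZ u w hz)]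
      have m1 := P.m_pos Z' hu
      have m0 := P.m_pos Z hu
      unfold FP.ce
      rw [div_le_iff₀ m1]
      have x0 : 0 ≤ P.E (fun v => ind (Z v = Z u) * ind (E2 v)) :=
        P.E_nonneg fun _ _ => mul_nonneg (ind_nonneg _) (ind_nonneg _)
      have g3 : P.E (fun v => ind (Z v = Z u) * ind (E2 v)) ≤
          c * (P.E (fun v => ind (Z v = Z u) * ind (E2 v)) / P.m Z u) * P.m Z' u := by
        have e : c * (P.E (fun v => ind (Z v = Z u) * ind (E2 v)) / P.m Z u) * P.m Z' u =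
            P.E (fun v => ind (Z v = Z u) * ind (E2 v)) / P.m Z u * (c * P.m Z' u) := by ring
        rw [e]
        calc P.E (fun v => ind (Z v = Z u) * ind (E2 v)) =
            P.E (fun v => ind (Z v = Z u) * ind (E2 v)) / P.m Z u * P.m Z u := (div_mul_cancel₀ _ m0.ne').symm
          _ ≤ _ := mul_le_mul_of_nonneg_left g2 (div_nonneg x0 m0.le)
      refine g1.trans ((mul_le_mul_of_nonneg_left g3 ha).trans (le_of_eq ?_))
      ring
    · have e : P.ce Z' (fun u => ind (E1 u)) w = 0 := by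
        rw [ce_sup P (g := fun _ => 0) fun u hu hz => ind_not fun hE => hex ⟨u, hu, hz, hE⟩, P.ce_const _ _ hw]
      rw [e]
      positivity
  · rw [ind_not hAw, zero_mul]
    positivity

end abs

section run

variable {X β γ φ : Type} [Fintype X] [Fintype β] [Fintype φ] [Nonempty X] [Nonempty β]
variable {D : HD (Fin 3) X β γ φ} {al : ℝ} {h : D.Thick al} {prr : ℕ → Fin 3 → φ → φ} {T : ℕ} {W : Type} [Fintype W]
variable (tb : Tab D prr T W) {v : ℕ → Finset (Fin 3) → X → (Fin 3 → β) → Pt (Fin 3) X β φ}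

/-! ### product of the hidden point and the known points -/

theorem Ps_mul (f : X → ℝ) (g : (Fin 3 → β) → ℝ) : tb.Ps.E (fun u => f u.1 * g u.2.2) =
    tb.Ps.E (fun u => f u.1) * tb.Ps.E (fun u => g u.2.2) := by
  classical
  rw [Ps_pos tb (fun p => f p.1 * g p.2), Ps_pos tb (fun p => f p.1), Ps_pos tb (fun p => g p.2), FP.unif_E, FP.unif_E,
    FP.unif_E, Fintype.sum_prod_type, Fintype.sum_prod_type, Fintype.sum_prod_type, Fintype.card_prod]
  have hX : (Fintype.card X : ℝ) ≠ 0 := by exact_mod_cast Fintype.card_ne_zero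
  have hY : (Fintype.card (Fin 3 → β) : ℝ) ≠ 0 := by exact_mod_cast Fintype.card_ne_zero
  have e1 : ∑ x : X, ∑ y : Fin 3 → β, f (x, y).1 * g (x, y).2 = (∑ x : X, f x) * ∑ y : Fin 3 → β, g y := by
    rw [Finset.sum_mul]
    exact Finset.sum_congr rfl fun x _ => by rw [Finset.mul_sum]
  have e2 : ∑ x : X, ∑ _y : Fin 3 → β, f x = (Fintype.card (Fin 3 → β) : ℝ) * ∑ x : X, f x := by
    rw [Finset.mul_sum]
    exact Finset.sum_congr rfl fun x _ => by rw [Finset.sum_const, Finset.card_univ, nsmul_eq_mul]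
  have e3 : ∑ _x : X, ∑ y : Fin 3 → β, g y = (Fintype.card X : ℝ) * ∑ y : Fin 3 → β, g y := by
    rw [Finset.sum_const, Finset.card_univ, nsmul_eq_mul]
  rw [e1]
  have e2' : ∑ x : X, ∑ y : Fin 3 → β, f (x, y).1 = (Fintype.card (Fin 3 → β) : ℝ) * ∑ x : X, f x := e2
  have e3' : ∑ x : X, ∑ y : Fin 3 → β, g (x, y).2 = (Fintype.card X : ℝ) * ∑ y : Fin 3 → β, g y := e3
  rw [e2', e3']
  push_cast
  field_simp

/-- mass of an event of the hidden point -/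
def mx (F : X → Prop) : ℝ := tb.Ps.E (fun u => ind (F u.1))

/-- mass of an event of the known points -/
def my (G : (Fin 3 → β) → Prop) : ℝ := tb.Ps.E (fun u => ind (G u.2.2))

theorem E_split (F : X → Prop) (G : (Fin 3 → β) → Prop) : tb.Ps.E (fun u => ind (F u.1 ∧ G u.2.2)) =
    mx tb F * my tb G := by
  unfold mx my
  rw [← Ps_mul tb (fun x => ind (F x)) (fun y => ind (G y))]
  exact tb.Ps.E_congr fun u _ => ind_and _ _

theorem mx_mono {F F' : X → Prop} (hF : ∀ x, F x → F' x) : mx tb F ≤ mx tb F' :=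
  tb.Ps.E_mono fun _ _ => ind_mono fun e => hF _ e

theorem my_mono {G G' : (Fin 3 → β) → Prop} (hG : ∀ y, G y → G' y) : my tb G ≤ my tb G' :=
  tb.Ps.E_mono fun _ _ => ind_mono fun e => hG _ e

theorem mx_nn (F : X → Prop) : 0 ≤ mx tb F := tb.Ps.E_nonneg fun _ _ => ind_nonneg _

theorem my_nn (G : (Fin 3 → β) → Prop) : 0 ≤ my tb G := tb.Ps.E_nonneg fun _ _ => ind_nonneg _

theorem mx_pos {F : X → Prop} {w : Om W X β} (hw : tb.Ps.p w ≠ 0) (hF : F w.1) : 0 < mx tb F :=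
  FP.Pr_pos_of (P := tb.Ps) (S := fun u => F u.1) hw hF

theorem my_pos {G : (Fin 3 → β) → Prop} {w : Om W X β} (hw : tb.Ps.p w ≠ 0) (hG : G w.2.2) : 0 < my tb G :=
  FP.Pr_pos_of (P := tb.Ps) (S := fun u => G u.2.2) hw hG

/-- the hidden point `x` looks like `w0` to the letters of `J` (state `q1`) and to the public (state `q2`) -/
def FX (v : ℕ → Finset (Fin 3) → X → (Fin 3 → β) → Pt (Fin 3) X β φ) (J : Finset (Fin 3)) (q1 q2 : ℕ) (w0 : Om W X β)
    (x : X) : Prop :=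
  (∀ j ∈ J, Um v (TP.nc q1 {j}) {j} x w0.2.2 = Um v (TP.nc q1 {j}) {j} w0.1 w0.2.2) ∧
    NPo tb v q2 (x, w0.2.1, w0.2.2) = NPo tb v q2 w0

/-- the points `J` exactly, the cells of the time `n` -/
def GY (D : HD (Fin 3) X β γ φ) (J : Finset (Fin 3)) (n : ℕ) (w0 : Om W X β) (y : Fin 3 → β) : Prop :=
  (∀ j ∈ J, y j = w0.2.2 j) ∧ ∀ j, D.qb n (y j) = D.qb n (w0.2.2 j)

/-- letters of `J` and public information -/
def LT (v : ℕ → Finset (Fin 3) → X → (Fin 3 → β) → Pt (Fin 3) X β φ) (J : Finset (Fin 3)) (q1 q2 : ℕ)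
    (w0 u : Om W X β) : Prop :=
  (∀ j ∈ J, XLo tb v j q1 u = XLo tb v j q1 w0) ∧ NPo tb v q2 u = NPo tb v q2 w0

variable {tb}

theorem Um_y (hv : Codes D v) {m n : ℕ} (hm : m ≤ n + 1) {I : Finset (Fin 3)} (x : X) {y y' : Fin 3 → β}
    (h1 : ∀ i ∈ I, y i = y' i) (h2 : ∀ i, D.qb n (y i) = D.qb n (y' i)) : Um v m I x y = Um v m I x y' := by
  unfold Um
  rw [List.map_inj_left]
  intro r hr
  have hr' := List.mem_range.1 hr
  exact hv r I x y y' h1 fun j => qb_mono D (by omega) (h2 j)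

theorem NPo_y (hv : Codes D v) {q n : ℕ} (hq : TP.nn q ≤ n) {a b : Om W X β} (hx : a.1 = b.1)
    (h2 : ∀ i, D.qb n (a.2.2 i) = D.qb n (b.2.2 i)) : NPo tb v q a = NPo tb v q b :=
  NPq_sgt tb hv (q := q) (n := n) hq ((nc_le q ∅).trans (by omega)) ∅ 0 a b
    (sgt_eq.2 ⟨hx, fun j hj => absurd hj (Finset.notMem_empty j), h2⟩)

theorem NPo_qb {q : ℕ} {a b : Om W X β} (e : NPo tb v q a = NPo tb v q b) (j : Fin 3) :
    D.qb (TP.nn q) (a.2.2 j) = D.qb (TP.nn q) (b.2.2 j) :=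
  congrFun (Prod.mk.inj (Prod.mk.inj (show (Um v (TP.nc q ∅) ∅ a.1 a.2.2, (D.qa (TP.nn q) a.1,
    fun j => D.qb (TP.nn q) (a.2.2 j))) = (Um v (TP.nc q ∅) ∅ b.1 b.2.2, (D.qa (TP.nn q) b.1,
    fun j => D.qb (TP.nn q) (b.2.2 j))) from e)).2).2 j

theorem XLo_iff {j : Fin 3} {q : ℕ} {a b : Om W X β} : XLo tb v j q a = XLo tb v j q b ↔
    a.2.2 j = b.2.2 j ∧ Um v (TP.nc q {j}) {j} a.1 a.2.2 = Um v (TP.nc q {j}) {j} b.1 b.2.2 := by
  show ((a.2.2 j, Um v (TP.nc q {j}) {j} a.1 a.2.2) = (b.2.2 j, Um v (TP.nc q {j}) {j} b.1 b.2.2)) ↔ _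
  rw [Prod.mk.injEq]

/-- **the two parts** -/
theorem LT_iff (hv : Codes D v) {J : Finset (Fin 3)} {q1 q2 : ℕ} (hJ : ∀ j ∈ J, TP.nc q1 {j} ≤ TP.nn q2 + 1)
    {w0 u : Om W X β} : LT tb v J q1 q2 w0 u ↔ FX tb v J q1 q2 w0 u.1 ∧ GY D J (TP.nn q2) w0 u.2.2 := by
  constructor
  · rintro ⟨h1, h2⟩
    have hc := NPo_qb h2
    refine ⟨⟨fun j hj => ?_, ?_⟩, fun j hj => (XLo_iff.1 (h1 j hj)).1, hc⟩
    · have h3 := XLo_iff.1 (h1 j hj)
      rw [← h3.2]
      exact Um_y hv (hJ j hj) u.1 (fun i hi => by rw [Finset.mem_singleton.1 hi]; exact h3.1.symm) fun i => (hc i).symm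
    · rw [← h2]
      exact NPo_y hv le_rfl rfl fun i => (hc i).symm
  · rintro ⟨⟨h1, h2⟩, h3, hc⟩
    refine ⟨fun j hj => XLo_iff.2 ⟨h3 j hj, ?_⟩, ?_⟩
    · rw [← h1 j hj]
      exact Um_y hv (hJ j hj) u.1 (fun i hi => by rw [Finset.mem_singleton.1 hi]; exact h3 j hj) hc
    · rw [← h2]
      exact NPo_y hv le_rfl rfl hc

theorem LT_self (J : Finset (Fin 3)) (q1 q2 : ℕ) (w0 : Om W X β) : LT tb v J q1 q2 w0 w0 := ⟨fun _ _ => rfl, rfl⟩

theorem FX_self (J : Finset (Fin 3)) (q1 q2 : ℕ) (w0 : Om W X β) : FX tb v J q1 q2 w0 w0.1 := ⟨fun _ _ => rfl, rfl⟩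

theorem GY_self (J : Finset (Fin 3)) (n : ℕ) (w0 : Om W X β) : GY D J n w0 w0.2.2 := ⟨fun _ _ => rfl, fun _ => rfl⟩

/-- mass of a class -/
theorem m_LT (hv : Codes D v) {J : Finset (Fin 3)} {q1 q2 : ℕ} (hJ : ∀ j ∈ J, TP.nc q1 {j} ≤ TP.nn q2 + 1)
    {κ : Type*} {L : Om W X β → κ} {w0 : Om W X β} (hL : ∀ u, L u = L w0 ↔ LT tb v J q1 q2 w0 u) :
    tb.Ps.m L w0 = mx tb (FX tb v J q1 q2 w0) * my tb (GY D J (TP.nn q2) w0) := by
  rw [← E_split]
  unfold FP.m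
  refine tb.Ps.E_congr fun u _ => ?_
  rw [propext (hL u), propext (LT_iff hv hJ)]

theorem FX_mono {J J' : Finset (Fin 3)} (hJ : J' ⊆ J) {q1 q2 q2' : ℕ} (hq : q2' ≤ q2) {w0 : Om W X β} {x : X}
    (e : FX tb v J q1 q2 w0 x) : FX tb v J' q1 q2' w0 x :=
  ⟨fun j hj => e.1 j (hJ hj), NPq_mono hq _ _ e.2⟩

/-- change of the base point -/
theorem FX_base (hv : Codes D v) {J : Finset (Fin 3)} {q1 q2 : ℕ} (hJ : ∀ j ∈ J, TP.nc q1 {j} ≤ TP.nn q2 + 1)
    {w0 w1 : Om W X β} (e : LT tb v J q1 q2 w0 w1) {x : X} : FX tb v J q1 q2 w1 x ↔ FX tb v J q1 q2 w0 x := by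
  have hc := NPo_qb e.2
  have e1 : ∀ j ∈ J, ∀ x', Um v (TP.nc q1 {j}) {j} x' w1.2.2 = Um v (TP.nc q1 {j}) {j} x' w0.2.2 := fun j hj x' =>
    Um_y hv (hJ j hj) x' (fun i hi => by rw [Finset.mem_singleton.1 hi]; exact (XLo_iff.1 (e.1 j hj)).1) hc
  have e2 : ∀ j ∈ J, Um v (TP.nc q1 {j}) {j} w1.1 w1.2.2 = Um v (TP.nc q1 {j}) {j} w0.1 w0.2.2 := fun j hj =>
    (XLo_iff.1 (e.1 j hj)).2
  have e3 : NPo tb v q2 (x, w1.2.1, w1.2.2) = NPo tb v q2 (x, w0.2.1, w0.2.2) := NPo_y hv le_rfl rfl hc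
  unfold FX
  rw [e3, e.2]
  refine and_congr_left fun _ => forall_congr' fun j => forall_congr' fun hj => ?_
  rw [e1 j hj, e2 j hj]

/-! ### the class with the exact point -/

variable (tb)

/-- the class of the state `5 t` with the exact point `b` -/
def Clb (v : ℕ → Finset (Fin 3) → X → (Fin 3 → β) → Pt (Fin 3) X β φ) (b : Fin 3) (t : ℕ) (w0 : Om W X β) :
    FP (Om W X β) :=
  tb.Ps.cond fun u => NPo tb v (5 * t) u = NPo tb v (5 * t) w0 ∧ u.2.2 b = w0.2.2 b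

/-- **saturation in the class with the exact point** -/
theorem kl_satb {n N1 : ℝ} (hn : 1 ≤ n) (hN1 : 1 ≤ N1) (R : Run h (pr3 (Fin 3) n N1) (SS1 (Fin 3)) (AdmDep D) v)
    {t : ℕ} (ht : t ≤ T) {b k : Fin 3} (hkb : k ≠ b) {w0 : Om W X β} (hw0 : tb.Ps.p w0 ≠ 0) {E : Om W X β → Prop}
    (hE : Fac (sgt D {b} t) E) (hE0 : (Clb tb v b t w0).Pr E ≠ 0) :
    N1 * ((Clb tb v b t w0).cond E).kl (Clb tb v b t w0) (XN tb v k (5 * t)) ≤
      2 * (Real.log (1 / (Clb tb v b t w0).Pr E) + 1) := by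
  have hv := R.codes
  have H0 : Pul tb.Ps (D.P h t) (tb.pt t) := pul_pt h tb ht
  have hw1 : (D.P h t).p (tb.pt t w0) ≠ 0 := H0.ne hw0
  have hsat : SatA (D.P h t) (BB D t) (pr3 (Fin 3) n N1) (SS1 (Fin 3)) (LL (Um v (t + 1))) (Dep D t) :=
    R.dep (fun J _ => zero_le_one.trans (pr3_one hn hN1 J)) t
  have hU := Um_dp (D := D) hv t
  have hxc : (fun u => NPo tb v (5 * t) u = NPo tb v (5 * t) w0 ∧ u.2.2 b = w0.2.2 b) =
      fun u => xc D (Um v (t + 1)) t {b} (tb.pt t w0) (tb.pt t u) := by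
    funext u
    show (((Um v (TP.nc (5 * t) ∅) ∅ u.1 u.2.2, (D.qa (TP.nn (5 * t)) u.1, fun j => D.qb (TP.nn (5 * t)) (u.2.2 j))) =
      (Um v (TP.nc (5 * t) ∅) ∅ w0.1 w0.2.2, (D.qa (TP.nn (5 * t)) w0.1, fun j => D.qb (TP.nn (5 * t)) (w0.2.2 j)))) ∧
      u.2.2 b = w0.2.2 b) =
      (le (LL (Um v (t + 1))) ∅ (tb.pt t u) = le (LL (Um v (t + 1))) ∅ (tb.pt t w0) ∧
        BB D t {b} (tb.pt t u) = BB D t {b} (tb.pt t w0))
    rw [nc5, nn5]
    refine propext ⟨fun hh => ?_, fun hh => ?_⟩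
    · obtain ⟨hh, hb⟩ := hh
      simp only [Prod.mk.injEq, funext_iff] at hh
      obtain ⟨h1, h2, h3⟩ := hh
      refine ⟨le_eq.2 fun I hI => ?_, BB_eq.2 ⟨fun j hj => by rw [Finset.mem_singleton.1 hj]; exact hb, h2, h3⟩⟩
      rw [Finset.subset_empty.1 hI, LL_eq]
      exact ⟨h1, fun l hl => absurd (hl ▸ Finset.Subset.refl _) (not_era l)⟩
    · obtain ⟨h1, h2⟩ := hh
      have h3 := (LL_eq.1 (le_eq.1 h1 ∅ (Finset.Subset.refl _))).1
      have h4 := BB_eq.1 h2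
      exact ⟨Prod.ext h3 (Prod.ext h4.2.1 (funext h4.2.2)), h4.1 b (Finset.mem_singleton_self b)⟩
  set E' : Pt (Fin 3) X β φ → Prop := fun u => E (u.1, w0.2.1, u.2.1) with hE'
  have hEE : E = fun u => E' (tb.pt t u) := by
    funext u
    exact hE u (u.1, w0.2.1, u.2.2) rfl
  set Q' := (D.P h t).cond (xc D (Um v (t + 1)) t {b} (tb.pt t w0)) with hQ'
  have H1 : Pul (Clb tb v b t w0) Q' (tb.pt t) := by
    unfold Clb
    rw [hxc]
    exact pul_cond H0 (xc_ne hw1)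
  have hE0' : Q'.Pr E' ≠ 0 := by
    rw [← H1.Pr E', ← hEE]
    exact hE0
  have H2 : Pul ((Clb tb v b t w0).cond E) (Q'.cond E') (tb.pt t) := by
    have := pul_cond H1 hE0'
    rwa [← hEE] at this
  have hEvI : EvI D t {b} E' := by
    intro a c hab
    simp only [Prod.mk.injEq] at hab
    have hB := BB_eq.1 hab.2.1
    exact hE _ _ (sgt_eq.2 ⟨hab.1, hB.1, hB.2.2⟩)
  have h1 := ex_vert (N := pr3 (Fin 3) n N1) (S := SS1 (Fin 3)) hU hsat
    (fun J _ => zero_le_one.trans (pr3_one hn hN1 J)) not_era SS1_emp (I := {b}) (j := k) (SS1_one k)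
    (fun hh => hkb (Finset.mem_singleton.1 hh)) hw1 hEvI hE0'
  rw [V3.VT.prN0, V3.VT.prN1] at h1
  have h2 : (Q'.cond E').kl Q' (fun u => (XLq v (5 * t) k u, NPq D v (5 * t) u)) ≤
      (Q'.cond E').kl Q' (fun w => (LL (Um v (t + 1)) {k} w, lo (LL (Um v (t + 1))) {k} w, BB D t {k} w)) := by
    refine FP.kl_mono (FP.cond_ac _ _) fun a b hab => ?_
    simp only [Prod.mk.injEq] at hab
    obtain ⟨e1, e2, e3⟩ := hab
    have e4 := (LL_eq.1 e1).1
    have e5 := (LL_eq.1 (lo_eq.1 e2 ∅ (Finset.ssubset_singleton_iff.2 rfl))).1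
    have e6 := BB_eq.1 e3
    show ((a.2.1 k, Um v (TP.nc (5 * t) {k}) {k} a.1 a.2.1), (Um v (TP.nc (5 * t) ∅) ∅ a.1 a.2.1,
      (D.qa (TP.nn (5 * t)) a.1, fun j => D.qb (TP.nn (5 * t)) (a.2.1 j)))) =
      ((b.2.1 k, Um v (TP.nc (5 * t) {k}) {k} b.1 b.2.1), (Um v (TP.nc (5 * t) ∅) ∅ b.1 b.2.1,
      (D.qa (TP.nn (5 * t)) b.1, fun j => D.qb (TP.nn (5 * t)) (b.2.1 j))))
    rw [nc5, nc5, nn5, e4, e5, e6.1 k (Finset.mem_singleton_self k), e6.2.1, funext e6.2.2]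
  have h3 : ((Clb tb v b t w0).cond E).kl (Clb tb v b t w0) (XN tb v k (5 * t)) =
      (Q'.cond E').kl Q' (fun u => (XLq v (5 * t) k u, NPq D v (5 * t) u)) :=
    pul_kl H2 H1 (fun u : Pt (Fin 3) X β φ => (XLq v (5 * t) k u, NPq D v (5 * t) u))
  have h4 : (Clb tb v b t w0).Pr E = Q'.Pr E' := by
    rw [← H1.Pr E', ← hEE]
  rw [h3, h4]
  have h5 := mul_le_mul_of_nonneg_left h2 (show 0 ≤ N1 by linarith)
  linarith

/-- the event of the class -/
theorem Sb_iff (hv : Codes D v) (b : Fin 3) (t : ℕ) (w0 u : Om W X β) :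
    (NPo tb v (5 * t) u = NPo tb v (5 * t) w0 ∧ u.2.2 b = w0.2.2 b) ↔
      FX tb v ∅ (5 * t) (5 * t) w0 u.1 ∧ GY D {b} t w0 u.2.2 := by
  have e0 := LT_iff (tb := tb) hv (J := ∅) (q1 := 5 * t) (q2 := 5 * t) (w0 := w0) (u := u)
    (fun j hj => absurd hj (Finset.notMem_empty j))
  rw [nn5] at e0
  constructor
  · rintro ⟨h1, h2⟩
    obtain ⟨h3, h4⟩ := e0.1 ⟨fun j hj => absurd hj (Finset.notMem_empty j), h1⟩
    exact ⟨h3, fun j hj => by rw [Finset.mem_singleton.1 hj]; exact h2, h4.2⟩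
  · rintro ⟨h1, h2, h3⟩
    exact ⟨(e0.2 ⟨h1, fun j hj => absurd hj (Finset.notMem_empty j), h3⟩).2, h2 b (Finset.mem_singleton_self b)⟩

/-- probability of an event of the hidden point in the class -/
theorem Clb_Pr (hv : Codes D v) (b : Fin 3) (t : ℕ) {w0 : Om W X β} (hw0 : tb.Ps.p w0 ≠ 0) {F : X → Prop}
    (hF : ∀ x, F x → FX tb v ∅ (5 * t) (5 * t) w0 x) :
    (Clb tb v b t w0).Pr (fun u => F u.1) = mx tb F / mx tb (FX tb v ∅ (5 * t) (5 * t) w0) := by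
  have hS : tb.Ps.Pr (fun u => NPo tb v (5 * t) u = NPo tb v (5 * t) w0 ∧ u.2.2 b = w0.2.2 b) ≠ 0 :=
    (FP.Pr_pos_of (P := tb.Ps) hw0 ⟨rfl, rfl⟩).ne'
  have e1 : tb.Ps.Pr (fun u => NPo tb v (5 * t) u = NPo tb v (5 * t) w0 ∧ u.2.2 b = w0.2.2 b) =
      mx tb (FX tb v ∅ (5 * t) (5 * t) w0) * my tb (GY D {b} t w0) := by
    rw [← E_split]
    exact tb.Ps.E_congr fun u _ => congrArg ind (propext (Sb_iff tb hv b t w0 u))
  have e2 : tb.Ps.E (fun u => ind (NPo tb v (5 * t) u = NPo tb v (5 * t) w0 ∧ u.2.2 b = w0.2.2 b) * ind (F u.1)) =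
      mx tb F * my tb (GY D {b} t w0) := by
    rw [← E_split]
    refine tb.Ps.E_congr fun u _ => ?_
    rw [propext (Sb_iff tb hv b t w0 u), ← ind_and]
    congr 1
    exact propext ⟨fun e => ⟨e.2, e.1.2⟩, fun e => ⟨⟨hF _ e.1, e.2⟩, e.1⟩⟩
  have p1 := my_pos tb (G := GY D {b} t w0) hw0 (GY_self {b} t w0)
  show ((tb.Ps.cond _).E _) = _
  rw [FP.cond_E hS, e1, e2, mul_div_mul_right _ _ p1.ne']

/-! ### one new half cell -/

theorem card_era : ∀ k : Fin 3, ((univ.erase k : Finset (Fin 3))ᶜ).card = 1 := by decide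

theorem card_two : ∀ b k : Fin 3, k ≠ b → (({b, k} : Finset (Fin 3))ᶜ).card = 1 := by decide

/-- the point `k` only -/
theorem ce_pt {b k : Fin 3} (hkb : k ≠ b) {n m : ℕ} (hmn : m ≤ n) {f : Om W X β → ℝ}
    (hf : Fac (fun w : Om W X β => (w.1, w.2.2 k)) f) {w : Om W X β} (hw : tb.Ps.p w ≠ 0) :
    tb.Ps.ce (sgt D {b} n) f w = tb.Ps.ce (sgt D (univ.erase k) n) f w := by
  have hf' : Fac (fun w : Om W X β => (w.1, crd (∅ : Finset (Fin 3)) {k} w)) f := fun x y e => by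
    obtain ⟨h1, h2⟩ := Prod.mk.inj e
    exact hf x y (Prod.ext h1 ((crd_eq.1 h2).2 k (Finset.mem_singleton_self k)))
  have i1 : ({b} : Finset (Fin 3)) ∩ {k} = ∅ := by
    ext j
    simp only [Finset.mem_inter, Finset.mem_singleton, Finset.notMem_empty, iff_false]
    rintro ⟨h1, h2⟩
    exact hkb (h2.symm.trans h1)
  have i2 : (univ.erase k : Finset (Fin 3)) ∩ {k} = ∅ := by
    ext j
    simp only [Finset.mem_inter, Finset.mem_singleton, Finset.notMem_empty, iff_false, Finset.mem_erase]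
    rintro ⟨h1, h2⟩
    exact h1.1 h2
  rw [ce_forget tb {b} n ∅ {k} hf' hmn hw, ce_forget tb (univ.erase k) n ∅ {k} hf' hmn hw, i1, i2]

/-- **one new half cell** -/
theorem half1 {dg : ℕ → X → ℝ} {Lam : ℝ} (H : D.Hyp dg prr al T Lam) {b k : Fin 3} (hkb : k ≠ b) {t : ℕ} (ht : t < T)
    {f : Om W X β → ℝ} (hf : Fac (fun w : Om W X β => (w.1, w.2.2 k)) f) (hf0 : ∀ u, 0 ≤ f u) {w : Om W X β}
    (hw : tb.Ps.p w ≠ 0) : tb.Ps.ce (sgt D {b} (t + 1)) f w ≤ 2 * tb.Ps.ce (sgt D {b} t) f w := by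
  rw [ce_pt tb hkb (Nat.zero_le (t + 1)) hf hw, ce_pt tb hkb (Nat.zero_le t) hf hw]
  have h1 := sgt_half tb H (univ.erase k) ht hw
  have h2 := card_era k
  rw [h2, pow_one] at h1
  have h3 : tb.Ps.E (fun u => ind (sgt D (univ.erase k) (t + 1) u = sgt D (univ.erase k) (t + 1) w) * f u) ≤
      tb.Ps.E (fun u => ind (sgt D (univ.erase k) t u = sgt D (univ.erase k) t w) * f u) := by
    refine tb.Ps.E_mono fun u _ => mul_le_mul_of_nonneg_right (ind_mono fun e => ?_) (hf0 u)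
    obtain ⟨e1, e2, e3⟩ := sgt_eq.1 e
    exact sgt_eq.2 ⟨e1, e2, fun j => D.rb t _ _ (e3 j)⟩
  have p1 := tb.Ps.m_pos (sgt D (univ.erase k) t) hw
  have p2 := tb.Ps.m_pos (sgt D (univ.erase k) (t + 1)) hw
  have h4 : 0 ≤ tb.Ps.E (fun u => ind (sgt D (univ.erase k) t u = sgt D (univ.erase k) t w) * f u) :=
    tb.Ps.E_nonneg fun u _ => mul_nonneg (ind_nonneg _) (hf0 u)
  unfold FP.ce
  rw [div_le_iff₀ p2, mul_div_assoc', div_mul_eq_mul_div, le_div_iff₀ p1]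
  nlinarith

/-- one new half cell, mass of the points -/
theorem my_half {dg : ℕ → X → ℝ} {Lam : ℝ} (H : D.Hyp dg prr al T Lam) {b k : Fin 3} (hkb : k ≠ b) {t : ℕ} (ht : t < T)
    {w : Om W X β} (hw : tb.Ps.p w ≠ 0) : my tb (GY D {b, k} t w) ≤ 2 * my tb (GY D {b, k} (t + 1) w) := by
  have h1 := sgt_half tb H {b, k} ht hw
  have h2 := card_two b k hkb
  rw [h2, pow_one] at h1
  have e : ∀ n, tb.Ps.m (sgt D {b, k} n) w = mx tb (fun x => x = w.1) * my tb (GY D {b, k} n w) := by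
    intro n
    rw [← E_split]
    unfold FP.m
    refine tb.Ps.E_congr fun u _ => ?_
    congr 1
    exact propext sgt_eq
  rw [e, e] at h1
  have p1 := mx_pos tb (F := fun x => x = w.1) hw rfl
  nlinarith

/-! ### the core -/

section core

variable (v) in
/-- both letters (state `5 t`) and the public information of the state `qe` -/
def C2 (b k : Fin 3) (t q : ℕ) (u : Om W X β) := (XLo tb v b (5 * t) u, XLo tb v k (5 * t) u, NPo tb v q u)

theorem C2_iff {b k : Fin 3} {t q : ℕ} {u w : Om W X β} : C2 tb v b k t q u = C2 tb v b k t q w ↔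
    LT tb v {b, k} (5 * t) q w u := by
  constructor
  · intro e
    have e1 := (Prod.mk.inj e).1
    have e2 := (Prod.mk.inj (Prod.mk.inj e).2).1
    refine ⟨fun j hj => ?_, (Prod.mk.inj (Prod.mk.inj e).2).2⟩
    rcases Finset.mem_insert.1 hj with h1 | h1
    · rw [h1]
      exact e1
    · rw [Finset.mem_singleton.1 h1]
      exact e2
  · rintro ⟨h1, h2⟩
    exact Prod.ext (h1 b (Finset.mem_insert_self b {k})) (Prod.ext (h1 k (by simp)) h2)

/-- letters of the partner for which the event holds, letter of `b` and public information of `w0` -/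
def Ak (v : ℕ → Finset (Fin 3) → X → (Fin 3 → β) → Pt (Fin 3) X β φ) (b k : Fin 3) (t q : ℕ) (A : Om W X β → Prop)
    (w0 u : Om W X β) : Prop :=
  ∃ u', tb.Ps.p u' ≠ 0 ∧ LT tb v {b} (5 * t) q w0 u' ∧ XLo tb v k (5 * t) u' = XLo tb v k (5 * t) u ∧ A u'

/-- the density of the event at (hidden point, exact `b`, cells of the time `n`) -/
def dl (D : HD (Fin 3) X β γ φ) (b : Fin 3) (n : ℕ) (A : Om W X β → Prop) (u : Om W X β) : ℝ :=
  tb.Ps.ce (sgt D {b} n) (fun x => ind (A x)) u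

variable {tb}

theorem Ak_fac {b k : Fin 3} {t q : ℕ} {A : Om W X β → Prop} {w0 : Om W X β} :
    Fac (XLo tb v k (5 * t)) (Ak tb v b k t q A w0) := fun x y e => by
  unfold Ak
  rw [e]

theorem Ak_iff {b k : Fin 3} {t q : ℕ} {A : Om W X β → Prop} (hA : Fac (C2 tb v b k t q) A) {w0 u : Om W X β}
    (hu : tb.Ps.p u ≠ 0) (e : LT tb v {b} (5 * t) q w0 u) : Ak tb v b k t q A w0 u ↔ A u := by
  constructor
  · rintro ⟨u', _, h2, h3, h4⟩
    rw [← hA u' u (Prod.ext ((h2.1 b (Finset.mem_singleton_self b)).trans (e.1 b (Finset.mem_singleton_self b)).symm)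
      (Prod.ext h3 (h2.2.trans e.2.symm)))]
    exact h4
  · exact fun h1 => ⟨u, hu, e, rfl, h1⟩

theorem LT_of_sgt (hv : Codes D v) {b : Fin 3} {q1 q2 : ℕ} (h1 : TP.nc q1 {b} ≤ TP.nn q2 + 1) {u w : Om W X β}
    (e : sgt D {b} (TP.nn q2) u = sgt D {b} (TP.nn q2) w) : LT tb v {b} q1 q2 w u := by
  refine ⟨fun j hj => ?_, ?_⟩
  · rw [Finset.mem_singleton.1 hj]
    exact XLq_sgt tb hv (q := q1) (n := TP.nn q2) h1 (Finset.mem_singleton_self b) 0 u w e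
  · exact NPq_sgt tb hv (q := q2) (n := TP.nn q2) le_rfl (nc_le q2 ∅) {b} 0 u w e

/-- laws of the class under an event of the hidden point -/
theorem Clb_E (hv : Codes D v) {b : Fin 3} {t : ℕ} {w0 : Om W X β} (hw0 : tb.Ps.p w0 ≠ 0) {F : X → Prop}
    (hF : ∀ x, F x → FX tb v ∅ (5 * t) (5 * t) w0 x) (hF0 : F w0.1) (g : Om W X β → ℝ) :
    ((Clb tb v b t w0).cond fun u => F u.1).E g = tb.Ps.E (fun u => ind (F u.1 ∧ GY D {b} t w0 u.2.2) * g u) /
      tb.Ps.Pr (fun u => F u.1 ∧ GY D {b} t w0 u.2.2) := by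
  set Q := Clb tb v b t w0 with hQ
  have hS0 : tb.Ps.Pr (fun u => NPo tb v (5 * t) u = NPo tb v (5 * t) w0 ∧ u.2.2 b = w0.2.2 b) ≠ 0 :=
    (FP.Pr_pos_of (P := tb.Ps) hw0 ⟨rfl, rfl⟩).ne'
  have hB0 : Q.Pr (fun u => F u.1) ≠ 0 := by
    rw [Clb_Pr tb hv b t hw0 hF]
    exact (div_pos (mx_pos tb hw0 hF0) (mx_pos tb hw0 (FX_self _ _ _ w0))).ne'
  have e2 : ∀ g : Om W X β → ℝ, Q.E (fun u => ind (F u.1) * g u) =
      tb.Ps.E (fun u => ind (F u.1 ∧ GY D {b} t w0 u.2.2) * g u) /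
        tb.Ps.Pr (fun u => NPo tb v (5 * t) u = NPo tb v (5 * t) w0 ∧ u.2.2 b = w0.2.2 b) := by
    intro g
    show (tb.Ps.cond _).E _ = _
    rw [FP.cond_E hS0]
    congr 1
    refine tb.Ps.E_congr fun u _ => ?_
    rw [← mul_assoc, ← ind_and]
    congr 2
    rw [Sb_iff tb hv b t w0 u]
    exact propext ⟨fun e => ⟨e.2, e.1.2⟩, fun e => ⟨⟨hF _ e.1, e.2⟩, e.1⟩⟩
  rw [FP.cond_E hB0, e2 g]
  have e3 := e2 fun _ => 1
  simp only [mul_one] at e3
  have e4 : Q.Pr (fun u => F u.1) = tb.Ps.Pr (fun u => F u.1 ∧ GY D {b} t w0 u.2.2) /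
        tb.Ps.Pr (fun u => NPo tb v (5 * t) u = NPo tb v (5 * t) w0 ∧ u.2.2 b = w0.2.2 b) := e3
  rw [e4, div_div_div_cancel_right₀ hS0]

/-- **THE CORE** : the density is rarely large, relative to the class of both letters -/
theorem core0 {n N1 : ℝ} (hn : 1 ≤ n) (hN1 : 1 ≤ N1) (R : Run h (pr3 (Fin 3) n N1) (SS1 (Fin 3)) (AdmDep D) v)
    {dg : ℕ → X → ℝ} {Lam : ℝ} (H : D.Hyp dg prr al T Lam) {t q : ℕ} (ht : t ≤ T) (hq : 5 * t ≤ q)
    (hq1 : TP.nn q = t ∨ (TP.nn q = t + 1 ∧ t < T)) {b k : Fin 3} (hkb : k ≠ b) {A : Om W X β → Prop}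
    (hA : Fac (C2 tb v b k t q) A) {w0 : Om W X β} (hw0 : tb.Ps.p w0 ≠ 0) {y L1 : ℝ} (hy0 : 0 ≤ y)
    (hqA : (Clb tb v b t w0).Pr (Ak tb v b k t q A w0) ≤ y / 8 + y / 16)
    (hL1 : Real.exp (-L1) * mx tb (FX tb v ∅ (5 * t) (5 * t) w0) ≤ mx tb (FX tb v {b, k} (5 * t) q w0)) :
    tb.Ps.ce (C2 tb v b k t q) (fun u => ind (y ≤ dl tb D b (TP.nn q) A u)) w0 ≤ Real.exp (1 + L1 - N1 * y / 16) := by
  have hv := R.codes
  have hN : 0 < N1 := by linarith
  have hnc : ∀ j : Fin 3, TP.nc (5 * t) {j} ≤ TP.nn q + 1 := fun j => by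
    rw [nc5]
    rcases hq1 with e | ⟨e, _⟩ <;> omega
  set st : X → Om W X β := fun x => (x, w0.2.1, w0.2.2) with hst
  have hsp : ∀ x, tb.Ps.p (st x) ≠ 0 := fun x => hw0
  set FE : X → Prop := fun x => FX tb v {b, k} (5 * t) q w0 x ∧ y ≤ dl tb D b (TP.nn q) A (st x) with hFE
  set FB : X → Prop := FX tb v {b} (5 * t) q w0 with hFB
  set F0 : X → Prop := FX tb v ∅ (5 * t) (5 * t) w0 with hF0
  have sB : ∀ x, FX tb v {b, k} (5 * t) q w0 x → FB x := fun x e => FX_mono (by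
    intro j hj
    rw [Finset.mem_singleton.1 hj]
    exact Finset.mem_insert_self b {k}) le_rfl e
  have s0 : ∀ x, FB x → F0 x := fun x e => FX_mono (Finset.empty_subset _) hq e
  have p0 : 0 < mx tb F0 := mx_pos tb hw0 (FX_self _ _ _ w0)
  have pC : 0 < mx tb (FX tb v {b, k} (5 * t) q w0) := mx_pos tb hw0 (FX_self _ _ _ w0)
  have pY : 0 < my tb (GY D {b, k} (TP.nn q) w0) := my_pos tb hw0 (GY_self _ _ w0)
  -- the conditional probability
  have hce : tb.Ps.ce (C2 tb v b k t q) (fun u => ind (y ≤ dl tb D b (TP.nn q) A u)) w0 =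
      mx tb FE / mx tb (FX tb v {b, k} (5 * t) q w0) := by
    unfold FP.ce
    rw [m_LT hv (J := {b, k}) (q1 := 5 * t) (q2 := q) (fun j _ => hnc j) (fun u => C2_iff tb)]
    have e1 : tb.Ps.E (fun u => ind (C2 tb v b k t q u = C2 tb v b k t q w0) * ind (y ≤ dl tb D b (TP.nn q) A u)) =
        mx tb FE * my tb (GY D {b, k} (TP.nn q) w0) := by
      rw [← E_split]
      refine tb.Ps.E_congr fun u _ => ?_
      rw [← ind_and]
      congr 1
      rw [C2_iff tb, LT_iff hv (fun j _ => hnc j)]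
      have e2 : GY D {b, k} (TP.nn q) w0 u.2.2 → dl tb D b (TP.nn q) A u = dl tb D b (TP.nn q) A (st u.1) :=
        fun e => tb.Ps.ce_fac _ _ u (st u.1) (sgt_eq.2 ⟨rfl, fun j hj => by
          rw [Finset.mem_singleton.1 hj]
          exact e.1 b (Finset.mem_insert_self b {k}), e.2⟩)
      refine propext ⟨fun e => ⟨⟨e.1.1, ?_⟩, e.1.2⟩, fun e => ⟨⟨e.1.1, e.2⟩, ?_⟩⟩
      · rw [← e2 e.1.2]
        exact e.2
      · rw [e2 e.2]
        exact e.1.2
    rw [e1, mul_div_mul_right _ _ pY.ne']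
  rw [hce, div_le_iff₀ pC]
  -- the class
  set Q := Clb tb v b t w0 with hQ
  have hPE : Q.Pr (fun u => FE u.1) = mx tb FE / mx tb F0 := Clb_Pr tb hv b t hw0 fun x e => s0 x (sB x e.1)
  have hfin : Real.exp (1 - N1 * y / 16) * mx tb F0 ≤
      Real.exp (1 + L1 - N1 * y / 16) * mx tb (FX tb v {b, k} (5 * t) q w0) := by
    have e1 : 1 + L1 - N1 * y / 16 = 1 - N1 * y / 16 + L1 := by ring
    rw [e1, Real.exp_add, mul_assoc]
    refine mul_le_mul_of_nonneg_left ?_ (Real.exp_pos _).le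
    have e2 := mul_le_mul_of_nonneg_left hL1 (Real.exp_pos L1).le
    rw [← mul_assoc, ← Real.exp_add, add_neg_cancel, Real.exp_zero, one_mul] at e2
    exact e2
  refine le_trans ?_ hfin
  by_cases hE0 : Q.Pr (fun u => FE u.1) = 0
  · rw [hPE] at hE0
    have e1 : mx tb FE = 0 := by
      rcases div_eq_zero_iff.1 hE0 with e | e
      · exact e
      · exact absurd e p0.ne'
    rw [e1]
    exact mul_nonneg (Real.exp_pos _).le p0.le
  -- saturation at the event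
  set AA := Ak tb v b k t q A w0 with hAA
  have fE : Fac (sgt (W := W) D {b} t) (fun u => FE u.1) := fun x y e => congrArg FE (sgt_eq.1 e).1
  have fA : Fac (XN tb v k (5 * t)) AA := fun x y e => Ak_fac x y (Prod.mk.inj e).1
  have k1 := kl_satb tb hn hN1 R ht hkb hw0 fE hE0
  have g1 := kl_fwd (FP.cond_ac Q (fun u => FE u.1)) fA
  -- the density on the event
  have hS0 : tb.Ps.Pr (fun u => NPo tb v (5 * t) u = NPo tb v (5 * t) w0 ∧ u.2.2 b = w0.2.2 b) ≠ 0 :=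
    (FP.Pr_pos_of (P := tb.Ps) hw0 ⟨rfl, rfl⟩).ne'
  have fS : Fac (sgt (W := W) D {b} t) (fun u => NPo tb v (5 * t) u = NPo tb v (5 * t) w0 ∧ u.2.2 b = w0.2.2 b) := by
    intro x y e
    have e1 : NPo tb v (5 * t) x = NPo tb v (5 * t) y :=
      NPq_sgt tb hv (nn5 t).le (by rw [nc5]) {b} 0 x y e
    show (_ ∧ _) = (_ ∧ _)
    rw [e1, (sgt_eq.1 e).2.1 b (Finset.mem_singleton_self b)]
  have hdens : y / 2 ≤ (Q.cond fun u => FE u.1).Pr AA := by
    refine dens_ge (P := tb.Ps) (X := sgt D {b} t) fS fE hS0 hE0 ?_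
    rintro u hu ⟨hu1, hu2⟩ hFu
    have hcu : ∀ j, D.qb t (u.2.2 j) = D.qb t (w0.2.2 j) := fun j => by
      have := NPo_qb hu1 j
      rwa [nn5] at this
    -- the event with the points of `w0`
    set f : Om W X β → ℝ := fun x => ind (AA (x.1, w0.2.1, Function.update w0.2.2 k (x.2.2 k))) with hf
    have ff : Fac (fun w : Om W X β => (w.1, w.2.2 k)) f := by
      intro x y e
      obtain ⟨h1, h2⟩ := Prod.mk.inj e
      simp only [hf, h1, h2]
    have hfA : ∀ x : Om W X β, (∀ j, D.qb t (x.2.2 j) = D.qb t (w0.2.2 j)) → ind (AA x) = f x := by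
      intro x hx
      simp only [hf]
      refine congrArg ind (Ak_fac x (x.1, w0.2.1, Function.update w0.2.2 k (x.2.2 k)) (XLo_iff.2 ⟨?_, ?_⟩))
      · show x.2.2 k = Function.update w0.2.2 k (x.2.2 k) k
        rw [Function.update_self]
      · show Um v (TP.nc (5 * t) {k}) {k} x.1 x.2.2 =
          Um v (TP.nc (5 * t) {k}) {k} x.1 (Function.update w0.2.2 k (x.2.2 k))
        refine Um_y hv (n := t) (by rw [nc5]) x.1 (fun i hi => ?_) fun i => ?_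
        · rw [Finset.mem_singleton.1 hi, Function.update_self]
        · by_cases hi : i = k
          · rw [hi, Function.update_self]
          · rw [Function.update_of_ne hi]
            exact hx i
    have e1 : tb.Ps.ce (sgt D {b} t) (fun x => ind (AA x)) u = tb.Ps.ce (sgt D {b} t) f (st u.1) := by
      have e2 : sgt (W := W) D {b} t u = sgt D {b} t (st u.1) := sgt_eq.2 ⟨rfl, fun j hj => by
        rw [Finset.mem_singleton.1 hj]
        exact hu2, hcu⟩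
      rw [tb.Ps.ce_fac (sgt D {b} t) _ u (st u.1) e2]
      exact ce_sup tb.Ps fun x _ e => hfA x fun j => (sgt_eq.1 e).2.2 j
    have e3 : tb.Ps.ce (sgt D {b} (TP.nn q)) f (st u.1) = dl tb D b (TP.nn q) A (st u.1) := by
      unfold dl
      refine ce_sup tb.Ps fun x hx e => ?_
      have e4 := (sgt_eq.1 e).2.2
      have htq : t ≤ TP.nn q := by rcases hq1 with e | ⟨e, _⟩ <;> omega
      rw [← hfA x fun j => qb_mono D htq (e4 j)]
      refine congrArg ind (propext (Ak_iff hA hx ?_))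
      have e5 := LT_of_sgt (tb := tb) hv (hnc b) e
      have e6 : LT tb v {b} (5 * t) q w0 (st u.1) :=
        (LT_iff hv fun j _ => hnc j).2 ⟨sB _ hFu.1, fun _ _ => rfl, fun _ => rfl⟩
      exact ⟨fun j hj => (e5.1 j hj).trans (e6.1 j hj), e5.2.trans e6.2⟩
    have e7 : y ≤ tb.Ps.ce (sgt D {b} (TP.nn q)) f (st u.1) := by
      rw [e3]
      exact hFu.2
    rw [e1]
    rcases hq1 with e | ⟨e, htT⟩
    · rw [e] at e7
      have e8 : 0 ≤ tb.Ps.ce (sgt D {b} t) f (st u.1) := tb.Ps.ce_nonneg (fun _ _ => ind_nonneg _) _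
      linarith
    · rw [e] at e7
      have e8 := half1 tb H hkb htT ff (fun _ => ind_nonneg _) (hsp u.1)
      linarith
  -- the numbers
  have hPpos : 0 < Q.Pr (fun u => FE u.1) := lt_of_le_of_ne (Q.Pr_nonneg _) (Ne.symm hE0)
  have hlog : Real.log (1 / Q.Pr (fun u => FE u.1)) = - Real.log (Q.Pr (fun u => FE u.1)) := by
    rw [one_div, Real.log_inv]
  rw [hlog] at k1
  have a1 := mul_le_mul_of_nonneg_left g1 hN.le
  have a3 := mul_le_mul_of_nonneg_left hdens hN.le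
  have a4 := mul_le_mul_of_nonneg_left hqA hN.le
  have hlg : Real.log (Q.Pr (fun u => FE u.1)) ≤ 1 - N1 * y / 16 := by nlinarith
  have hE1 := (Real.log_le_iff_le_exp hPpos).1 hlg
  rw [hPE, div_le_iff₀ p0] at hE1
  exact hE1

/-- the same, mass of the partner letters from their mass under the letter of `b` -/
theorem core {n N1 : ℝ} (hn : 1 ≤ n) (hN1 : 1 ≤ N1) (R : Run h (pr3 (Fin 3) n N1) (SS1 (Fin 3)) (AdmDep D) v)
    {dg : ℕ → X → ℝ} {Lam : ℝ} (H : D.Hyp dg prr al T Lam) {t q : ℕ} (ht : t ≤ T) (hq : 5 * t ≤ q)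
    (hq1 : TP.nn q = t ∨ (TP.nn q = t + 1 ∧ t < T)) {b k : Fin 3} (hkb : k ≠ b) {A : Om W X β → Prop}
    (hA : Fac (C2 tb v b k t q) A) {w0 : Om W X β} (hw0 : tb.Ps.p w0 ≠ 0) {y κ L0 L1 : ℝ} (hy0 : 0 ≤ y)
    (hκ : tb.Ps.E (fun u => ind (FX tb v {b} (5 * t) q w0 u.1 ∧ GY D {b} t w0 u.2.2) *
      ind (Ak tb v b k t q A w0 u)) ≤ κ * tb.Ps.Pr (fun u => FX tb v {b} (5 * t) q w0 u.1 ∧ GY D {b} t w0 u.2.2))
    (hL0 : Real.exp (-L0) * mx tb (FX tb v ∅ (5 * t) (5 * t) w0) ≤ mx tb (FX tb v {b} (5 * t) q w0))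
    (hL1 : Real.exp (-L1) * mx tb (FX tb v ∅ (5 * t) (5 * t) w0) ≤ mx tb (FX tb v {b, k} (5 * t) q w0))
    (hκy : κ ≤ y / 16) (hLy : 64 * (L0 + 1) ≤ N1 * y) :
    tb.Ps.ce (C2 tb v b k t q) (fun u => ind (y ≤ dl tb D b (TP.nn q) A u)) w0 ≤ Real.exp (1 + L1 - N1 * y / 16) := by
  have hv := R.codes
  have hN : 0 < N1 := by linarith
  set FB : X → Prop := FX tb v {b} (5 * t) q w0 with hFB
  set F0 : X → Prop := FX tb v ∅ (5 * t) (5 * t) w0 with hF0
  have s0 : ∀ x, FB x → F0 x := fun x e => FX_mono (Finset.empty_subset _) hq e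
  have p0 : 0 < mx tb F0 := mx_pos tb hw0 (FX_self _ _ _ w0)
  have pB : 0 < mx tb FB := mx_pos tb hw0 (FX_self _ _ _ w0)
  refine core0 hn hN1 R H ht hq hq1 hkb hA hw0 hy0 ?_ hL1
  set Q := Clb tb v b t w0 with hQ
  set AA := Ak tb v b k t q A w0 with hAA
  have hPB : Q.Pr (fun u => FB u.1) = mx tb FB / mx tb F0 := Clb_Pr tb hv b t hw0 s0
  have fB : Fac (sgt (W := W) D {b} t) (fun u => FB u.1) := fun x y e => congrArg FB (sgt_eq.1 e).1
  have fA : Fac (XN tb v k (5 * t)) AA := fun x y e => Ak_fac x y (Prod.mk.inj e).1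
  have hB0 : Q.Pr (fun u => FB u.1) ≠ 0 := by
    rw [hPB]
    exact (div_pos pB p0).ne'
  have k2 := kl_satb tb hn hN1 R ht hkb hw0 fB hB0
  have g2 := kl_bwd (FP.cond_ac Q (fun u => FB u.1)) fA
  have hQB : (Q.cond fun u => FB u.1).Pr AA ≤ κ := by
    have e1 : (Q.cond fun u => FB u.1).Pr AA = tb.Ps.E (fun u => ind (FB u.1 ∧ GY D {b} t w0 u.2.2) * ind (AA u)) /
        tb.Ps.Pr (fun u => FB u.1 ∧ GY D {b} t w0 u.2.2) := Clb_E hv hw0 s0 (FX_self _ _ _ w0) _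
    have p1 : 0 < tb.Ps.Pr (fun u => FB u.1 ∧ GY D {b} t w0 u.2.2) :=
      FP.Pr_pos_of (P := tb.Ps) hw0 ⟨FX_self _ _ _ w0, GY_self _ _ w0⟩
    rw [e1, div_le_iff₀ p1]
    exact hκ
  have hLB : Real.log (1 / Q.Pr (fun u => FB u.1)) ≤ L0 := by
    rw [hPB, one_div_div, Real.log_le_iff_le_exp (div_pos p0 pB), div_le_iff₀ pB]
    have e2 := mul_le_mul_of_nonneg_left hL0 (Real.exp_pos L0).le
    rw [← mul_assoc, ← Real.exp_add, add_neg_cancel, Real.exp_zero, one_mul] at e2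
    exact e2
  have a2 := mul_le_mul_of_nonneg_left g2 hN.le
  have a4 := mul_le_mul_of_nonneg_left (hQB.trans hκy) hN.le
  have a5 : N1 * Q.Pr AA ≤ N1 * (y / 8 + y / 16) := by nlinarith
  exact le_of_mul_le_mul_left a5 hN

/-- the same for letters which the additions suppress by `64`, class of `b` expecting the additions -/
theorem core64 {n N1 : ℝ} (hn : 1 ≤ n) (hN1 : 1 ≤ N1) (R : Run h (pr3 (Fin 3) n N1) (SS1 (Fin 3)) (AdmDep D) v)
    {dg : ℕ → X → ℝ} {Lam : ℝ} (H : D.Hyp dg prr al T Lam) {t q : ℕ} (ht : t ≤ T) (hq : 5 * t ≤ q)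
    (hq1 : TP.nn q = t ∨ (TP.nn q = t + 1 ∧ t < T)) {b k : Fin 3} (hkb : k ≠ b) {A : Om W X β → Prop}
    (hA : Fac (C2 tb v b k t q) A) {w0 : Om W X β} (hw0 : tb.Ps.p w0 ≠ 0) {y L0 L1 : ℝ} (hy0 : 0 ≤ y)
    (h64 : ∀ u, Ak tb v b k t q A w0 u → 64 * (tb.Ps.E (fun x => ind (XLo tb v k (5 * t) x = XLo tb v k (5 * t) u) *
      ind (FX tb v {b} (5 * t) q w0 x.1 ∧ GY D {b} t w0 x.2.2)) *
        tb.Ps.Pr (fun x => FX tb v {b} (5 * t) (5 * t) w0 x.1 ∧ GY D {b} t w0 x.2.2)) ≤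
      tb.Ps.E (fun x => ind (XLo tb v k (5 * t) x = XLo tb v k (5 * t) u) *
        ind (FX tb v {b} (5 * t) (5 * t) w0 x.1 ∧ GY D {b} t w0 x.2.2)) *
        tb.Ps.Pr (fun x => FX tb v {b} (5 * t) q w0 x.1 ∧ GY D {b} t w0 x.2.2))
    (hL0 : Real.exp (-L0) * mx tb (FX tb v ∅ (5 * t) (5 * t) w0) ≤ mx tb (FX tb v {b} (5 * t) q w0))
    (hL1 : Real.exp (-L1) * mx tb (FX tb v ∅ (5 * t) (5 * t) w0) ≤ mx tb (FX tb v {b, k} (5 * t) q w0))
    (hLy : 96 * (L0 + 1) ≤ N1 * y) :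
    tb.Ps.ce (C2 tb v b k t q) (fun u => ind (y ≤ dl tb D b (TP.nn q) A u)) w0 ≤ Real.exp (1 + L1 - N1 * y / 16) := by
  have hv := R.codes
  have hN : 0 < N1 := by linarith
  set FB : X → Prop := FX tb v {b} (5 * t) q w0 with hFB
  set F5 : X → Prop := FX tb v {b} (5 * t) (5 * t) w0 with hF5
  set F0 : X → Prop := FX tb v ∅ (5 * t) (5 * t) w0 with hF0
  have s0 : ∀ x, FB x → F0 x := fun x e => FX_mono (Finset.empty_subset _) hq e
  have s5 : ∀ x, F5 x → F0 x := fun x e => FX_mono (Finset.empty_subset _) le_rfl e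
  have p0 : 0 < mx tb F0 := mx_pos tb hw0 (FX_self _ _ _ w0)
  have pB : 0 < mx tb FB := mx_pos tb hw0 (FX_self _ _ _ w0)
  have p5 : 0 < mx tb F5 := mx_pos tb hw0 (FX_self _ _ _ w0)
  refine core0 hn hN1 R H ht hq hq1 hkb hA hw0 hy0 ?_ hL1
  set Q := Clb tb v b t w0 with hQ
  set AA := Ak tb v b k t q A w0 with hAA
  have hPB : Q.Pr (fun u => FB u.1) = mx tb FB / mx tb F0 := Clb_Pr tb hv b t hw0 s0
  have hP5 : Q.Pr (fun u => F5 u.1) = mx tb F5 / mx tb F0 := Clb_Pr tb hv b t hw0 s5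
  have fB : Fac (sgt (W := W) D {b} t) (fun u => FB u.1) := fun x y e => congrArg FB (sgt_eq.1 e).1
  have f5 : Fac (sgt (W := W) D {b} t) (fun u => F5 u.1) := fun x y e => congrArg F5 (sgt_eq.1 e).1
  have fA : Fac (XN tb v k (5 * t)) AA := fun x y e => Ak_fac x y (Prod.mk.inj e).1
  have hB0 : Q.Pr (fun u => FB u.1) ≠ 0 := by
    rw [hPB]
    exact (div_pos pB p0).ne'
  have h50 : Q.Pr (fun u => F5 u.1) ≠ 0 := by
    rw [hP5]
    exact (div_pos p5 p0).ne'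
  have k2 := kl_satb tb hn hN1 R ht hkb hw0 fB hB0
  have k5 := kl_satb tb hn hN1 R ht hkb hw0 f5 h50
  have pE1 : 0 < tb.Ps.Pr (fun x => FB x.1 ∧ GY D {b} t w0 x.2.2) :=
    FP.Pr_pos_of (P := tb.Ps) hw0 ⟨FX_self _ _ _ w0, GY_self _ _ w0⟩
  have pE2 : 0 < tb.Ps.Pr (fun x => F5 x.1 ∧ GY D {b} t w0 x.2.2) :=
    FP.Pr_pos_of (P := tb.Ps) hw0 ⟨FX_self _ _ _ w0, GY_self _ _ w0⟩
  -- masses of letters in the class
  have hm : ∀ (F : X → Prop), (∀ x, F x → F0 x) → F w0.1 → ∀ u, Q.p u ≠ 0 →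
      (Q.cond fun u => F u.1).m (XN tb v k (5 * t)) u =
      tb.Ps.E (fun x => ind (XLo tb v k (5 * t) x = XLo tb v k (5 * t) u) * ind (F x.1 ∧ GY D {b} t w0 x.2.2)) /
        tb.Ps.Pr (fun x => F x.1 ∧ GY D {b} t w0 x.2.2) := by
    intro F g1 g2 u hu
    have hSu : NPo tb v (5 * t) u = NPo tb v (5 * t) w0 ∧ u.2.2 b = w0.2.2 b :=
      (cond_supp (FP.Pr_pos_of (P := tb.Ps) hw0 ⟨rfl, rfl⟩).ne' hu).1
    unfold FP.m
    rw [Clb_E hv hw0 g1 g2]
    congr 1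
    refine tb.Ps.E_congr fun x _ => ?_
    rw [← ind_and, ← ind_and]
    refine congrArg ind (propext ⟨fun e => ⟨(Prod.mk.inj e.2).1, e.1⟩, fun e => ⟨e.2, Prod.ext e.1 ?_⟩⟩)
    exact ((Sb_iff tb hv b t w0 x).2 ⟨g1 _ e.2.1, e.2.2⟩).1.trans hSu.1.symm
  have hs := Hv.sup_mass (P := Q) (Qb := Q.cond fun u => F5 u.1) (Qe := Q.cond fun u => FB u.1) (FP.cond_ac _ _)
    (FP.cond_ac _ _) fA (fun u hu hAu => by
      rw [hm FB s0 (FX_self _ _ _ w0) u hu, hm F5 s5 (FX_self _ _ _ w0) u hu, ← mul_div_assoc, div_le_iff₀ pE1,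
        div_mul_eq_mul_div, le_div_iff₀ pE2, mul_assoc]
      exact h64 u hAu)
  have hlg : ∀ F : X → Prop, 0 < mx tb F → Real.exp (-L0) * mx tb F0 ≤ mx tb F → Real.log (1 / (mx tb F / mx tb F0)) ≤ L0 := by
    intro F g1 g2
    rw [one_div_div, Real.log_le_iff_le_exp (div_pos p0 g1), div_le_iff₀ g1]
    have e2 := mul_le_mul_of_nonneg_left g2 (Real.exp_pos L0).le
    rw [← mul_assoc, ← Real.exp_add, add_neg_cancel, Real.exp_zero, one_mul] at e2
    exact e2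
  have l1 := hlg FB pB hL0
  have l2 := hlg F5 p5 (hL0.trans (mx_mono tb fun x e => FX_mono (Finset.Subset.refl _) hq e))
  rw [hPB] at k2
  rw [hP5] at k5
  have a2 := mul_le_mul_of_nonneg_left hs hN.le
  have a5 : N1 * Q.Pr AA ≤ N1 * (y / 8 + y / 16) := by nlinarith
  exact le_of_mul_le_mul_left a5 hN

end core

end run

end

end Pool.Agent.GMH.HvR
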