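import Pool.Agent.GMH.Sat
import Pool.Agent.M3.S3Rob

/-!
# GMH.Row: signed row sums are paid (static part of Lemma CR), one class (helper27)

* `klc_dv_row` : Donsker-Varadhan for the conditional laws with a further variable `T` (the letter of a hardwired row):
  `E_Q psi(T, .) ≤ klc_(Q|P)(X | Z) + I_Q(X; T | Z) + E_Q log E_(P(.|Z)) exp (psi(T, .))`;
* `row_bound` : for the addition (event `E`, letters `G` on `E`) and every index `J0 > K0`:
  `N J0 E_(P_E) psi(G_(<J0), .) ≤ 2 N K0 (log (1/P(E)) + 1) + 2 sum_J N J cost_J(G) + N J0 E_(P_E) log E_P exp psi`;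
* `Hc_le_card` : `H(X | Z) ≤ log M` if every fibre of `Z` has at most `M` values of `X`;
* `dens`, `E_dens`, `ce_tilt` : density of `klc`; `E_(Q(.|Z)) (e exp (- dens)) ≤ E_(P(.|Z)) e`;
* `row_rare` : an event of `A` on which the conditional mean of `psi` given `A` is at least `lam` has probability at most
  `exp (1 - (N J0 lam - 2 c) / (2 N K0))`, `c` = a bound of the costs, if `E_(P(.|Z)) exp psi ≤ 1` for every row;
* `row_gain_rare` : the same for `psi - dens` if `psi` is normalised for an older law `P0` (`E_(P0(.|Z)) exp psi ≤ 1`),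
  `E dens = klc_(P|P0)` = the gain of the final cell: the signed row sum is at most the gain plus `lam`.
-/

set_option autoImplicit false
set_option linter.unusedSectionVars false

namespace Pool.Agent.GMH

open Finset Pool.Agent.PWZ Pool.Agent.M3

section dv

variable {Om : Type*} [Fintype Om] {P Q : FP Om} {κ ι τ : Type*}

/-- mean over the fibres of a map -/
theorem E_row (Q : FP Om) (T : Om → τ) (f : τ → Om → ℝ) :
    Q.E (fun w => f (T w) w) = ∑ t ∈ vals T, Q.E (fun w => ind (T w = t) * f t w) := by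
  rw [← FP.E_sum]
  refine Q.E_congr fun w _ => ?_
  exact (FP.sum_vals T (fun t => f t w) w).symm

/-- **Donsker-Varadhan with a row** -/
theorem klc_dv_row (hac : Q.Ac P) (X : Om → κ) (Z : Om → ι) (T : Om → τ) {psi : τ → Om → ℝ}
    (hpsi : ∀ r, Fac (fun w => (X w, Z w)) (psi r)) :
    Q.E (fun w => psi (T w) w) ≤ Q.klc P X Z + Q.I X T Z +
      Q.E (fun w => Real.log (P.ce Z (fun v => Real.exp (psi (T w) v)) w)) := by
  -- density of the sum of the two informations
  set lg : Om → ℝ := fun w => Real.log (Q.m (fun v => (X v, T v, Z v)) w / Q.m (fun v => (T v, Z v)) w /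
    (P.m (fun v => (X v, Z v)) w / P.m Z w)) with hlg
  have hsum : Q.klc P X Z + Q.I X T Z = Q.E lg := by
    rw [FP.I_eq_E_log]
    unfold FP.klc
    rw [← FP.E_add]
    refine Q.E_congr fun w hw => ?_
    have hp := hac w hw
    have a := (Q.m_pos (fun v => (X v, Z v)) hw).ne'
    have b := (Q.m_pos Z hw).ne'
    have c := (P.m_pos (fun v => (X v, Z v)) hp).ne'
    have d := (P.m_pos Z hp).ne'
    have e := (Q.m_pos (fun v => (X v, T v, Z v)) hw).ne'
    have f := (Q.m_pos (fun v => (T v, Z v)) hw).ne'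
    rw [hlg]
    simp only
    rw [Real.log_div (div_ne_zero a b) (div_ne_zero c d), Real.log_div a b, Real.log_div c d,
      Real.log_div (mul_ne_zero e b) (mul_ne_zero a f), Real.log_mul e b, Real.log_mul a f,
      Real.log_div (div_ne_zero e f) (div_ne_zero c d), Real.log_div e f, Real.log_div c d]
    ring
  rw [hsum, E_row Q T psi, E_row Q T (fun t w => Real.log (P.ce Z (fun v => Real.exp (psi t v)) w)),
    E_row Q T (fun _ w => lg w), ← Finset.sum_add_distrib]
  refine Finset.sum_le_sum fun t _ => ?_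
  by_cases ht : Q.Pr (fun w => T w = t) = 0
  · have h0 : ∀ g : Om → ℝ, Q.E (fun w => ind (T w = t) * g w) = 0 := by
      intro g
      have : Q.E (fun w => ind (T w = t) * g w) = Q.E (fun _ => 0) := by
        refine Q.E_congr fun w hw => ?_
        by_cases h1 : T w = t
        · exact absurd ht (FP.Pr_pos_of (P := Q) (S := fun w => T w = t) hw h1).ne'
        · rw [ind_not h1, zero_mul]
      rw [this, FP.E_const]
    rw [h0, h0, h0, add_zero]
  · have hac' : (Q.cond fun w => T w = t).Ac P := fun w hw => hac w (FP.cond_ac Q _ w hw)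
    have key := klc_dv hac' X Z (hpsi t)
    have hpos : 0 ≤ Q.Pr (fun w => T w = t) := Q.Pr_nonneg _
    have h2 := mul_le_mul_of_nonneg_left key hpos
    rw [mul_add, FP.Pr_mul_cond_E ht, FP.Pr_mul_cond_E ht] at h2
    have h3 : Q.Pr (fun w => T w = t) * (Q.cond fun w => T w = t).klc P X Z =
        Q.E (fun w => ind (T w = t) * lg w) := by
      unfold FP.klc
      rw [FP.Pr_mul_cond_E ht]
      refine Q.E_congr fun w hw => ?_
      by_cases h1 : T w = t
      · rw [ind_of h1, one_mul, one_mul]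
        have m1 : (Q.cond fun w => T w = t).m (fun v => (X v, Z v)) w =
            Q.m (fun v => (X v, T v, Z v)) w / Q.Pr (fun w => T w = t) := by
          rw [FP.cond_m ht]
          congr 1
          unfold FP.m
          refine Q.E_congr fun v _ => ?_
          rw [← ind_and]
          congr 1
          simp only [Prod.mk.injEq]
          exact propext ⟨fun ⟨a, b, c⟩ => ⟨b, a.trans h1.symm, c⟩, fun ⟨a, b, c⟩ => ⟨b.trans h1, a, c⟩⟩
        have m2 : (Q.cond fun w => T w = t).m Z w = Q.m (fun v => (T v, Z v)) w / Q.Pr (fun w => T w = t) := by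
          rw [FP.cond_m ht]
          congr 1
          unfold FP.m
          refine Q.E_congr fun v _ => ?_
          rw [← ind_and]
          congr 1
          simp only [Prod.mk.injEq]
          exact propext ⟨fun ⟨a, b⟩ => ⟨a.trans h1.symm, b⟩, fun ⟨a, b⟩ => ⟨a.trans h1, b⟩⟩
        rw [m1, m2, hlg]
        simp only
        congr 1
        have e := (Q.m_pos (fun v => (X v, T v, Z v)) hw).ne'
        have f := (Q.m_pos (fun v => (T v, Z v)) hw).ne'
        have c := (P.m_pos (fun v => (X v, Z v)) (hac w hw)).ne'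
        have d := (P.m_pos Z (hac w hw)).ne'
        field_simp
      · rw [ind_not h1, zero_mul, zero_mul]
    rw [h3] at h2
    exact h2

/-- the conditional entropy is at most the logarithm of the number of values in the fibres -/
theorem Hc_le_card (P : FP Om) (X : Om → κ) (Z : Om → ι) {M : ℝ}
    (h : ∀ w, P.p w ≠ 0 → ∃ s : Finset κ, (s.card : ℝ) ≤ M ∧ ∀ v, P.p v ≠ 0 → Z v = Z w → X v ∈ s) :
    P.Hc X Z ≤ Real.log M := by
  classical
  rw [Hc_eq_E_log]
  have hpos : ∀ w, P.p w ≠ 0 → 0 < P.m Z w / P.m (fun v => (X v, Z v)) w := fun w hw =>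
    div_pos (P.m_pos Z hw) (P.m_pos (fun v => (X v, Z v)) hw)
  refine (P.E_log_le hpos).trans ?_
  obtain ⟨w0, hw0⟩ := P.exists_p_ne
  have hE : 0 < P.E (fun w => P.m Z w / P.m (fun v => (X v, Z v)) w) := by
    have : 1 ≤ P.E (fun w => P.m Z w / P.m (fun v => (X v, Z v)) w) := by
      refine P.le_E_const fun w hw => ?_
      rw [le_div_iff₀ (P.m_pos (fun v => (X v, Z v)) hw), one_mul]
      unfold FP.m
      refine P.E_mono fun v _ => ?_
      by_cases hv : (X v, Z v) = (X w, Z w)
      · rw [ind_of hv, ind_of (congrArg Prod.snd hv)]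
      · rw [ind_not hv]; exact ind_nonneg _
    linarith
  refine Real.log_le_log hE ?_
  -- `E (1 / P(X | Z)) = E (number of values)`
  have h1 : P.E (fun w => P.m Z w / P.m (fun v => (X v, Z v)) w) =
      P.E (P.ce Z (fun w => P.m Z w / P.m (fun v => (X v, Z v)) w)) := (P.E_ce Z _).symm
  rw [h1]
  refine P.E_le_const fun w hw => ?_
  obtain ⟨s, hs, hX⟩ := h w hw
  refine le_trans ?_ hs
  unfold FP.ce
  rw [div_le_iff₀ (P.m_pos Z hw)]
  have h2 : P.E (fun v => ind (Z v = Z w) * (P.m Z v / P.m (fun v => (X v, Z v)) v)) =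
      ∑ x ∈ s, P.E (fun v => ind (X v = x ∧ Z v = Z w) * (P.m Z w / P.m (fun v => (X v, Z v)) v)) := by
    rw [← FP.E_sum]
    refine P.E_congr fun v hv => ?_
    by_cases hz : Z v = Z w
    · rw [ind_of hz, one_mul, P.Fac_m Z v w hz]
      rw [Finset.sum_eq_single (X v)]
      · rw [ind_of ⟨rfl, hz⟩, one_mul]
      · intro x _ hx
        rw [ind_not (fun hh => hx hh.1.symm), zero_mul]
      · intro hh; exact absurd (hX v hv hz) hh
    · rw [ind_not hz, zero_mul]
      refine (Finset.sum_eq_zero fun x _ => ?_).symm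
      rw [ind_not (fun hh => hz hh.2), zero_mul]
  rw [h2]
  have h3 : ∀ x ∈ s, P.E (fun v => ind (X v = x ∧ Z v = Z w) * (P.m Z w / P.m (fun v => (X v, Z v)) v)) ≤ P.m Z w := by
    intro x _
    by_cases hx : ∃ u, X u = x ∧ Z u = Z w ∧ P.p u ≠ 0
    · obtain ⟨u, hu1, hu2, hu3⟩ := hx
      have h4 : P.E (fun v => ind (X v = x ∧ Z v = Z w) * (P.m Z w / P.m (fun v => (X v, Z v)) v)) =
          P.E (fun v => ind ((X v, Z v) = (X u, Z u)) * (P.m Z w / P.m (fun v => (X v, Z v)) u)) := by
        refine P.E_congr fun v _ => ?_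
        by_cases hv : (X v, Z v) = (X u, Z u)
        · rw [ind_of hv, P.Fac_m (fun v => (X v, Z v)) v u hv]
          simp only [Prod.mk.injEq] at hv
          rw [ind_of ⟨hv.1.trans hu1, hv.2.trans hu2⟩]
        · rw [ind_not hv, ind_not, zero_mul, zero_mul]
          rintro ⟨a, b⟩
          exact hv (by rw [a, b, hu1, hu2])
      rw [h4, FP.E_mul_const]
      have h5 : P.E (fun v => ind ((X v, Z v) = (X u, Z u))) = P.m (fun v => (X v, Z v)) u := rfl
      rw [h5]
      have h6 := (P.m_pos (fun v => (X v, Z v)) hu3).ne'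
      rw [mul_div_cancel₀ _ h6]
    · have h4 : P.E (fun v => ind (X v = x ∧ Z v = Z w) * (P.m Z w / P.m (fun v => (X v, Z v)) v)) = P.E (fun _ => 0) := by
        refine P.E_congr fun v hv => ?_
        rw [ind_not (fun hh => hx ⟨v, hh.1, hh.2, hv⟩), zero_mul]
      rw [h4, FP.E_const]
      exact P.m_nonneg Z w
  refine (Finset.sum_le_sum h3).trans (le_of_eq ?_)
  rw [Finset.sum_const, nsmul_eq_mul]

/-- the mean on an event on which the conditional mean is large -/
theorem cond_ce_ge (P : FP Om) {A : Om → κ} {f : Om → ℝ} {E : Om → Prop} {lam : ℝ} (h : P.Pr E ≠ 0) (hA : Fac A E)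
    (hl : ∀ w, P.p w ≠ 0 → E w → lam ≤ P.ce A f w) : lam ≤ (P.cond E).E f := by
  have hE : 0 < P.Pr E := lt_of_le_of_ne (P.Pr_nonneg _) (Ne.symm h)
  have h1 := FP.Pr_mul_cond_E h f
  have hf : Fac A (fun w => ind (E w)) := Fac.ind fun v w hv => by rw [hA v w hv]
  have h2 := P.E_mul_ce hf f
  have h3 : lam * P.Pr E ≤ P.E (fun w => ind (E w) * P.ce A f w) := by
    have e : P.Pr E = P.E (fun w => ind (E w)) := rfl
    rw [e, ← FP.E_smul]
    refine P.E_mono fun w hw => ?_
    by_cases hw' : E w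
    · rw [ind_of hw']; linarith [hl w hw hw']
    · rw [ind_not hw']; linarith
  rw [h2, ← h1] at h3
  by_contra hc
  push Not at hc
  have := mul_lt_mul_of_pos_left hc hE
  linarith

/-- density of the relative entropy of the conditional laws -/
noncomputable def dens (Q P : FP Om) (X : Om → κ) (Z : Om → ι) (w : Om) : ℝ :=
  Real.log (Q.m (fun v => (X v, Z v)) w / Q.m Z w / (P.m (fun v => (X v, Z v)) w / P.m Z w))

theorem E_dens (Q P : FP Om) (X : Om → κ) (Z : Om → ι) : Q.E (dens Q P X Z) = Q.klc P X Z := rfl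

theorem dens_fac (Q P : FP Om) (X : Om → κ) (Z : Om → ι) : Fac (fun w => (X w, Z w)) (dens Q P X Z) := by
  intro v w h
  have h1 : Z v = Z w := congrArg Prod.snd h
  unfold dens
  rw [Q.Fac_m (fun v => (X v, Z v)) v w h, P.Fac_m (fun v => (X v, Z v)) v w h, Q.Fac_m Z v w h1, P.Fac_m Z v w h1]

/-- change of the reference law -/
theorem ce_tilt (hac : Q.Ac P) (X : Om → κ) (Z : Om → ι) {e : Om → ℝ} (he : Fac (fun w => (X w, Z w)) e)
    (h0 : ∀ w, 0 ≤ e w) {w : Om} (hw : Q.p w ≠ 0) :
    Q.ce Z (fun v => e v * Real.exp (- dens Q P X Z v)) w ≤ P.ce Z e w := by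
  have hQ := Q.m_pos Z hw
  have hP := P.m_pos Z (hac w hw)
  have h1 : Q.E (fun v => ind (Z v = Z w) * (e v * Real.exp (- dens Q P X Z v))) =
      Q.m Z w / P.m Z w * Q.E (fun v => P.m (fun v => (X v, Z v)) v / Q.m (fun v => (X v, Z v)) v *
        (ind (Z v = Z w) * e v)) := by
    rw [← FP.E_smul]
    refine Q.E_congr fun v hv => ?_
    by_cases hz : Z v = Z w
    · have a := Q.m_pos (fun v => (X v, Z v)) hv
      have b := Q.m_pos Z hv
      have c := P.m_pos (fun v => (X v, Z v)) (hac v hv)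
      have d := P.m_pos Z (hac v hv)
      have e1 : Real.exp (- dens Q P X Z v) =
          P.m (fun v => (X v, Z v)) v / P.m Z v / (Q.m (fun v => (X v, Z v)) v / Q.m Z v) := by
        unfold dens
        rw [← Real.log_inv, inv_div, Real.exp_log (div_pos (div_pos c d) (div_pos a b))]
      rw [ind_of hz, one_mul, one_mul, e1, Q.Fac_m Z v w hz, P.Fac_m Z v w hz]
      field_simp
    · rw [ind_not hz]; ring
  have hf : Fac (fun w => (X w, Z w)) (fun v => ind (Z v = Z w) * e v) := by
    intro u v h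
    show ind (Z u = Z w) * e u = ind (Z v = Z w) * e v
    have h1 : Z u = Z v := congrArg Prod.snd h
    rw [he u v h, h1]
  have h2 := Q.E_ratio_le P hf (fun v _ => mul_nonneg (ind_nonneg _) (h0 v))
  unfold FP.ce
  rw [div_le_div_iff₀ hQ hP, h1]
  have h3 := mul_le_mul_of_nonneg_left h2 hQ.le
  have e2 : Q.m Z w / P.m Z w * Q.E (fun v => P.m (fun v => (X v, Z v)) v / Q.m (fun v => (X v, Z v)) v *
        (ind (Z v = Z w) * e v)) * P.m Z w = Q.m Z w * Q.E (fun v => P.m (fun v => (X v, Z v)) v /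
          Q.m (fun v => (X v, Z v)) v * (ind (Z v = Z w) * e v)) := by
    field_simp
  rw [e2]
  linarith

end dv

/-! ## the row bound -/

section row

variable {Om K : Type*} {υ ν : Type*} {β : Finset K → Type*} [Fintype Om] {P : FP Om} {B : (J : Finset K) → Om → β J}
  {N : Finset K → ℝ} {S : Finset (Finset K)} {L : Finset K → Om → υ} {K0 J0 : Finset K} {E : Om → Prop}
  {G : Finset K → Om → ν}

/-- **ROW BOUND** -/
theorem row_bound (hE : P.Pr E ≠ 0) (hG : On K0 G) (hN : ∀ J ∈ S, 0 ≤ N J) (hK : K0 ∈ S)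
    (h : 0 ≤ Phi P B N S L (cutK K0 E G)) (hJ0 : J0 ∈ above S K0) {psi : (Finset K → Option ν) → Om → ℝ}
    (hpsi : ∀ r, Fac (fun w => (L J0 w, lo L J0 w, B J0 w)) (psi r)) :
    N J0 * (P.cond E).E (fun w => psi (lo G J0 w) w) ≤
      2 * N K0 * (Real.log (1 / P.Pr E) + 1) + 2 * ∑ J ∈ S, N J * cost (P.cond E) B L G J +
      N J0 * (P.cond E).E (fun w => Real.log (P.ce (fun v => (lo L J0 v, B J0 v))
        (fun v => Real.exp (psi (lo G J0 w) v)) w)) := by
  classical
  have hJS : J0 ∈ S := (mem_above.1 hJ0).1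
  have h1 := joint hE hG hN hK h
  have h2 := klc_dv_row (FP.cond_ac P E) (L J0) (fun w => (lo L J0 w, B J0 w)) (lo G J0) hpsi
  have h3 := mul_le_mul_of_nonneg_left h2 (hN J0 hJS)
  have h4 : N J0 * (P.cond E).klc P (L J0) (fun w => (lo L J0 w, B J0 w)) ≤
      ∑ J ∈ above S K0, N J * (P.cond E).klc P (L J) (fun w => (lo L J w, B J w)) :=
    Finset.single_le_sum (f := fun J => N J * (P.cond E).klc P (L J) (fun w => (lo L J w, B J w)))
      (fun J hJ => mul_nonneg (hN J (mem_above.1 hJ).1) (klc_nonneg (FP.cond_ac P E) _ _)) hJ0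
  have h5 : Phi (P.cond E) B N S L G = 2 * ∑ J ∈ S, N J * cost (P.cond E) B L G J -
      ∑ J ∈ S, N J * gain (P.cond E) B L G J := by
    unfold Phi
    rw [Finset.mul_sum, ← Finset.sum_sub_distrib]
    exact Finset.sum_congr rfl fun J _ => by ring
  have h6 : N J0 * (P.cond E).I (L J0) (lo G J0) (fun w => (lo L J0 w, B J0 w)) ≤
      ∑ J ∈ S, N J * gain (P.cond E) B L G J :=
    Finset.single_le_sum (f := fun J => N J * gain (P.cond E) B L G J)
      (fun J hJ => mul_nonneg (hN J hJ) gain_nonneg) hJS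
  rw [h5] at h1
  have h7 : N J0 * ((P.cond E).klc P (L J0) (fun w => (lo L J0 w, B J0 w)) +
      (P.cond E).I (L J0) (lo G J0) (fun w => (lo L J0 w, B J0 w)) +
      (P.cond E).E (fun w => Real.log (P.ce (fun v => (lo L J0 v, B J0 v))
        (fun v => Real.exp (psi (lo G J0 w) v)) w))) =
      N J0 * (P.cond E).klc P (L J0) (fun w => (lo L J0 w, B J0 w)) +
      N J0 * (P.cond E).I (L J0) (lo G J0) (fun w => (lo L J0 w, B J0 w)) +
      N J0 * (P.cond E).E (fun w => Real.log (P.ce (fun v => (lo L J0 v, B J0 v))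
        (fun v => Real.exp (psi (lo G J0 w) v)) w)) := by ring
  rw [h7] at h3
  linarith

/-- the logarithmic form : the mass of the event -/
theorem rare_of_le {p a b : ℝ} (hp : 0 < p) (ha : 0 < a) (h : b ≤ 2 * a * (Real.log (1 / p) + 1)) :
    p ≤ Real.exp (1 - b / (2 * a)) := by
  rw [one_div, Real.log_inv] at h
  rw [← Real.log_le_iff_le_exp hp]
  have h1 : b / (2 * a) ≤ -Real.log p + 1 := by
    rw [div_le_iff₀ (by positivity)]
    linarith
  linarith

/-- **rows are rarely larger than their payment** : `A` = the data of the hidden point, `psi` normalised -/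
theorem row_rare {α : Type*} {A : Om → α} {lam c : ℝ} (hG : On K0 G) (hN : ∀ J ∈ S, 0 ≤ N J) (hK : K0 ∈ S)
    (hNK : 0 < N K0) (hJ0 : J0 ∈ above S K0) {psi : (Finset K → Option ν) → Om → ℝ}
    (hpsi : ∀ r, Fac (fun w => (L J0 w, lo L J0 w, B J0 w)) (psi r))
    (hone : ∀ w r, P.p w ≠ 0 → P.ce (fun v => (lo L J0 v, B J0 v)) (fun v => Real.exp (psi r v)) w ≤ 1)
    (hA : Fac A E) (hl : ∀ w, P.p w ≠ 0 → E w → lam ≤ P.ce A (fun v => psi (lo G J0 v) v) w)
    (h : P.Pr E ≠ 0 → 0 ≤ Phi P B N S L (cutK K0 E G))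
    (hc : P.Pr E ≠ 0 → ∑ J ∈ S, N J * cost (P.cond E) B L G J ≤ c) :
    P.Pr E ≤ Real.exp (1 - (N J0 * lam - 2 * c) / (2 * N K0)) := by
  by_cases h0 : P.Pr E = 0
  · rw [h0]; exact (Real.exp_pos _).le
  have hJS : J0 ∈ S := (mem_above.1 hJ0).1
  have hpos : 0 < P.Pr E := lt_of_le_of_ne (P.Pr_nonneg _) (Ne.symm h0)
  refine rare_of_le hpos hNK ?_
  have h1 := row_bound h0 hG hN hK (h h0) hJ0 hpsi
  have h2 : lam ≤ (P.cond E).E (fun w => psi (lo G J0 w) w) := cond_ce_ge P h0 hA hl
  have h3 := mul_le_mul_of_nonneg_left h2 (hN J0 hJS)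
  have h4 : (P.cond E).E (fun w => Real.log (P.ce (fun v => (lo L J0 v, B J0 v))
      (fun v => Real.exp (psi (lo G J0 w) v)) w)) ≤ 0 := by
    refine (P.cond E).E_le_const fun w hw => ?_
    refine Real.log_nonpos (P.ce_nonneg (fun _ _ => (Real.exp_pos _).le) w) ?_
    exact hone w _ (FP.cond_ac P E w hw)
  have h5 := mul_nonpos_of_nonneg_of_nonpos (hN J0 hJS) h4
  have h6 := hc h0
  linarith

/-- **rows are rarely larger than the gain of the final cell** : `P` = law of the final cell, `P0` = older law -/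
theorem row_gain_rare {α : Type*} {A : Om → α} {lam c : ℝ} {P0 : FP Om} (hac : P.Ac P0) (hG : On K0 G)
    (hN : ∀ J ∈ S, 0 ≤ N J) (hK : K0 ∈ S)
    (hNK : 0 < N K0) (hJ0 : J0 ∈ above S K0) {psi : (Finset K → Option ν) → Om → ℝ}
    (hpsi : ∀ r, Fac (fun w => (L J0 w, lo L J0 w, B J0 w)) (psi r))
    (hone : ∀ w r, P.p w ≠ 0 → P0.ce (fun v => (lo L J0 v, B J0 v)) (fun v => Real.exp (psi r v)) w ≤ 1)
    (hA : Fac A E) (hl : ∀ w, P.p w ≠ 0 → E w → lam ≤ P.ce A (fun v => psi (lo G J0 v) v -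
      dens P P0 (L J0) (fun w => (lo L J0 w, B J0 w)) v) w)
    (h : P.Pr E ≠ 0 → 0 ≤ Phi P B N S L (cutK K0 E G))
    (hc : P.Pr E ≠ 0 → ∑ J ∈ S, N J * cost (P.cond E) B L G J ≤ c) :
    P.Pr E ≤ Real.exp (1 - (N J0 * lam - 2 * c) / (2 * N K0)) := by
  refine row_rare (A := A) (lam := lam) (c := c) hG hN hK hNK hJ0
    (psi := fun r v => psi r v - dens P P0 (L J0) (fun w => (lo L J0 w, B J0 w)) v) ?_ ?_ hA hl h hc
  · intro r v w hvw
    show psi r v - _ = psi r w - _
    rw [hpsi r v w hvw, dens_fac P P0 (L J0) (fun w => (lo L J0 w, B J0 w)) v w hvw]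
  · intro w r hw
    refine le_trans (le_of_eq ?_) ((ce_tilt hac (L J0) (fun w => (lo L J0 w, B J0 w)) (e := fun v => Real.exp (psi r v))
      (fun v w hvw => congrArg Real.exp (hpsi r v w hvw)) (fun _ => (Real.exp_pos _).le) hw).trans (hone w r hw))
    congr 1
    funext v
    rw [← Real.exp_add]
    congr 1

end row

end Pool.Agent.GMH
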