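import Pool.Agent.GMH.HvDef
import Pool.Agent.GMH.BitKL
import Pool.Agent.GMH.TriB
import Pool.Agent.GMH.Row
import Pool.Agent.GMH.TD1

/-!
# GMH/HvX: activity at the exact vertex (helper1; row A6' (H2) of H3.LEAN)

* `act_klc` : activity of a density is paid by the relative entropy; `info_small` : small ratios are paid by the information;
* `m_cnt`, `m_pt`, `m_pt0` : the cells are free; `ax_le` : the class of `b` expects the public additions at least as much as
  the ratio with all points does;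
* `star` : inside one class of the exact vertex `b` with the public additions (probability `pX` in the class of `b`) the
  true top `i ≠ b` is active with probability at most `1920 / (e^2 n) (log (1 / pX) + 1)`;
* `I_sum` : the information of the public additions about the own letter over the run is at most `3 n Lam`;
* **`act_exact`**.
-/

set_option autoImplicit false
set_option linter.unusedSectionVars false

namespace Pool.Agent.GMH.Hv

open Finset Pool.Agent.PWZ Pool.Agent.M3 Pool.Agent.GM Pool.Agent.GM.Harm Pool.Agent.GMH Pool.Agent.GMH.NZ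
open Pool.Agent.GMH.V3 Pool.Agent.GMH.TP Pool.Agent.GMH.KF
open Pool.Agent.GMH.Dead (Hc_time)

noncomputable section

namespace HvX

/-! ### numbers -/

theorem num_log {a b : ℝ} (ha : 0 < a) (hab : a ≤ b) (hb : b ≤ 1) :
    a * (Real.log (1 / a) + 1) ≤ b * (Real.log (1 / b) + 1) := by
  have hb0 : 0 < b := ha.trans_le hab
  have h1 : Real.log (b / a) ≤ b / a - 1 := Real.log_le_sub_one_of_pos (div_pos hb0 ha)
  rw [Real.log_div hb0.ne' ha.ne'] at h1
  have h2 : Real.log b ≤ 0 := Real.log_nonpos hb0.le hb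
  have h3 : a * (Real.log b - Real.log a) ≤ b - a := by
    have := mul_le_mul_of_nonneg_left h1 ha.le
    have e : a * (b / a - 1) = b - a := by field_simp
    linarith
  rw [one_div, one_div, Real.log_inv, Real.log_inv]
  have h4 : (b - a) * Real.log b ≤ 0 := mul_nonpos_of_nonneg_of_nonpos (by linarith) h2
  nlinarith

section one

variable {Om : Type*} [Fintype Om] {P Q : FP Om} {κ ι : Type*}

/-- **activity is paid** -/
theorem act_klc (hac : Q.Ac P) (X : Om → κ) (Z : Om → ι) {e : ℝ} (he : 0 < e) (he1 : e ≤ 1) :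
    Q.Pr (fun w => e < |Real.exp (dens Q P X Z w) - 1|) ≤ 120 / e ^ 2 * Q.klc P X Z := by
  have h1 : Q.E (fun w => Real.exp (- dens Q P X Z w)) ≤ 1 := by
    rw [← Q.E_ce Z]
    refine Q.E_le_const fun w hw => ?_
    have h2 := ce_tilt hac X Z (e := fun _ => (1 : ℝ)) (fun _ _ _ => rfl) (fun _ => zero_le_one) hw
    simp only [one_mul] at h2
    exact h2.trans (P.ce_const Z 1 (hac w hw)).le
  have h3 : Q.Pr (fun w => e < |Real.exp (dens Q P X Z w) - 1|) ≤
      Q.E (fun w => 120 / e ^ 2 * (dens Q P X Z w - 1 + Real.exp (- dens Q P X Z w))) := by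
    unfold FP.Pr
    refine Q.E_mono fun w _ => ?_
    set y := dens Q P X Z w with hy
    have hx := Real.exp_pos y
    have hphi : hphi (Real.exp y) = Real.exp y * (y - 1 + Real.exp (-y)) := by
      unfold hphi
      rw [Real.log_exp, Real.exp_neg]
      field_simp
    have hn : 0 ≤ y - 1 + Real.exp (-y) := by
      have := Real.add_one_le_exp (-y)
      linarith
    have hc : 0 ≤ 120 / e ^ 2 := by positivity
    by_cases ha : e < |Real.exp y - 1|
    · rw [ind_of ha]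
      have h4 := (act_num he he1 hx.le ha).2
      rw [hphi] at h4
      have h5 : Real.exp y * 1 ≤ Real.exp y * (120 / e ^ 2 * (y - 1 + Real.exp (-y))) := by
        rw [mul_one]
        refine h4.trans (le_of_eq ?_)
        ring
      exact le_of_mul_le_mul_left h5 hx
    · rw [ind_not ha]
      exact mul_nonneg hc hn
  refine h3.trans ?_
  rw [FP.E_smul]
  refine mul_le_mul_of_nonneg_left ?_ (by positivity)
  rw [FP.E_add, FP.E_sub, FP.E_const, E_dens]
  linarith

/-- **small ratios are paid by the information** -/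
theorem info_small (P : FP Om) {η lam ν : Type*} {N : ℕ → Om → ν} {L : ℕ → Om → lam} {Y : Om → η}
    (hN : ∀ k, Fac (N (k + 1)) (N k)) (hY : ∀ k, Fac (L k) Y) (k : ℕ) {S : Om → Prop}
    (hS : ∀ w, P.p w ≠ 0 → S w → Real.exp (TD.ai P N L Y k w) ≤ 1 / 16) :
    P.E (fun w => ind (S w) * Real.exp (- TD.ai P N L Y k w)) ≤ 2 * P.I (L k) (N (k + 1)) (fun w => (Y w, N k w)) := by
  have h1 : P.E (fun w => Real.exp (- TD.ai P N L Y k w)) ≤ 1 := by
    rw [← P.E_ce (fun w => (L k w, N k w))]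
    exact P.E_le_const fun w hw => TD.ce_exp_ai P hN hY k hw
  have h2 : P.E (fun w => 1 / 2 * (ind (S w) * Real.exp (- TD.ai P N L Y k w))) ≤
      P.E (fun w => TD.ai P N L Y k w - 1 + Real.exp (- TD.ai P N L Y k w)) := by
    refine P.E_mono fun w hw => ?_
    set a := TD.ai P N L Y k w with ha
    by_cases hs : S w
    · rw [ind_of hs, one_mul]
      have h3 : Real.exp a ≤ 1 / 16 := hS w hw hs
      set z := Real.exp (-a) with hz
      have hz0 : 0 < z := Real.exp_pos _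
      have hz1 : Real.exp a * z = 1 := by rw [hz, ← Real.exp_add, add_neg_cancel, Real.exp_zero]
      have hz2 : 16 ≤ z := by nlinarith
      have hla : a = - Real.log z := by rw [hz, Real.log_exp, neg_neg]
      have hl : Real.log (z / 16) ≤ z / 16 - 1 := Real.log_le_sub_one_of_pos (by positivity)
      rw [Real.log_div hz0.ne' (by norm_num)] at hl
      have hl16 : Real.log 16 = 4 * Real.log 2 := by
        rw [show (16 : ℝ) = 2 ^ 4 by norm_num, Real.log_pow]
        norm_num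
      have hl2 := Real.log_two_lt_d9
      rw [hla]
      linarith
    · rw [ind_not hs, zero_mul, mul_zero]
      have := Real.add_one_le_exp (-a)
      linarith
  rw [FP.E_smul, FP.E_add, FP.E_sub, FP.E_const, TD.E_ai P hN hY k] at h2
  linarith

end one

/-! ### the cells are free -/

section cnt

variable {X β γ φ υ : Type} [Fintype X] [Fintype β] [Fintype φ] [Nonempty X] [Nonempty β]
variable {D : HD (Fin 3) X β γ φ} {al : ℝ} (h : D.Thick al)

theorem m_cnt {κ : Type*} {g : X → (Fin 3 → β) → κ} {r : ℕ} {E : Finset (Fin 3)}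
    (h1 : ∀ x y y', (∀ j ∈ E, y' j = y j) → (∀ j, D.qb r (y' j) = D.qb r (y j)) → g x y' = g x y)
    (h2 : ∀ x y x' y', g x y = g x' y' → (∀ j ∈ E, y j = y' j) ∧ ∀ j, D.qb r (y j) = D.qb r (y' j))
    (t : ℕ) (w : Pt (Fin 3) X β φ) :
    (D.P h t).m (fun u => g u.1 u.2.1) w = nY D r E w.2.1 * (D.P h t).m (fun u => (g u.1 u.2.1, u.2.1)) w := by
  have e1 : (D.P h t).m (fun u => g u.1 u.2.1) w =
      (D.P h t).E (fun u => ind (g u.1 w.2.1 = g w.1 w.2.1 ∧
        ((∀ j ∈ E, u.2.1 j = w.2.1 j) ∧ ∀ j, D.qb r (u.2.1 j) = D.qb r (w.2.1 j)))) := by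
    unfold FP.m
    refine (D.P h t).E_congr fun u _ => ind_cg ?_
    constructor
    · intro hu
      have hu' : g u.1 u.2.1 = g w.1 w.2.1 := hu
      obtain ⟨h3, h4⟩ := h2 _ _ _ _ hu'
      refine ⟨?_, h3, h4⟩
      rw [← hu']
      exact h1 u.1 u.2.1 w.2.1 (fun j hj => (h3 j hj).symm) fun j => (h4 j).symm
    · rintro ⟨h3, h4, h5⟩
      show g u.1 u.2.1 = g w.1 w.2.1
      rw [← h3]
      exact h1 u.1 w.2.1 u.2.1 h4 h5
  have e2 : (D.P h t).m (fun u => (g u.1 u.2.1, u.2.1)) w =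
      (D.P h t).E (fun u => ind (g u.1 w.2.1 = g w.1 w.2.1 ∧ u.2.1 = w.2.1)) := by
    unfold FP.m
    refine (D.P h t).E_congr fun u _ => ind_cg ?_
    simp only [Prod.mk.injEq]
    constructor
    · rintro ⟨h3, h4⟩
      rw [h4] at h3
      exact ⟨h3, h4⟩
    · rintro ⟨h3, h4⟩
      rw [h4]
      exact ⟨h3, rfl⟩
  rw [e1, e2, m_prod h (P := fun x => g x w.2.1 = g w.1 w.2.1)
    (Q := fun y => (∀ j ∈ E, y j = w.2.1 j) ∧ ∀ j, D.qb r (y j) = D.qb r (w.2.1 j)) t,
    m_prod h (P := fun x => g x w.2.1 = g w.1 w.2.1) (Q := fun y => y = w.2.1) t]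
  have e3 : ∑ y : Fin 3 → β, ind (y = w.2.1) = 1 := by
    classical
    rw [Finset.sum_eq_single w.2.1 (fun y _ hy => ind_not hy) (fun hh => absurd (mem_univ _) hh), ind_of rfl]
  rw [e3]
  unfold nY
  ring

theorem nY_pos (r : ℕ) (E : Finset (Fin 3)) (y : Fin 3 → β) : 0 < nY D r E y := by
  unfold nY
  refine lt_of_lt_of_le (zero_lt_one' ℝ) ?_
  refine le_trans (le_of_eq ?_) (Finset.single_le_sum (f := fun y' : Fin 3 → β => ind ((∀ j ∈ E, y' j = y j) ∧
    ∀ j, D.qb r (y' j) = D.qb r (y j))) (fun y' _ => ind_nonneg _) (mem_univ y))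
  exact (ind_of ⟨fun _ _ => rfl, fun _ => rfl⟩).symm

/-- refinement of the cells -/
theorem nY_cross {s r : ℕ} (hsr : s ≤ r) (b : Fin 3) (y : Fin 3 → β) :
    nY D r ∅ y * nY D s {b} y ≤ nY D r {b} y * nY D s ∅ y := by
  classical
  have e : ∀ q, nY D q ∅ y = ((D.cB q (y b)).card : ℝ) * nY D q {b} y := by
    intro q
    rw [nY_prodD, nY_prodD, ← Finset.mul_prod_erase univ _ (mem_univ b), ← Finset.mul_prod_erase univ (fun j =>
      if j ∈ ({b} : Finset (Fin 3)) then 1 else ((D.cB q (y j)).card : ℝ)) (mem_univ b),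
      if_neg (Finset.notMem_empty b), if_pos (Finset.mem_singleton_self b), one_mul]
    congr 1
    refine Finset.prod_congr rfl fun j hj => ?_
    rw [if_neg (Finset.notMem_empty j), if_neg fun hh => (Finset.mem_erase.1 hj).1 (Finset.mem_singleton.1 hh)]
  rw [e, e]
  have hc : ((D.cB r (y b)).card : ℝ) ≤ ((D.cB s (y b)).card : ℝ) := by
    refine Nat.cast_le.2 (Finset.card_le_card fun a ha => ?_)
    unfold HD.cB at ha ⊢
    rw [Finset.mem_filter] at ha ⊢
    exact ⟨ha.1, GMH.qb_mono D hsr ha.2⟩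
  have h1 := (nY_pos (D := D) r {b} y).le
  have h2 := (nY_pos (D := D) s {b} y).le
  have h3 := mul_le_mul_of_nonneg_right hc (mul_nonneg h1 h2)
  linarith

end cnt

section ax

variable {X β γ φ : Type} [Fintype X] [Fintype β] [Fintype φ] [Nonempty X] [Nonempty β]
variable {D : HD (Fin 3) X β γ φ} {al : ℝ} (h : D.Thick al)
  {v : ℕ → Finset (Fin 3) → X → (Fin 3 → β) → Pt (Fin 3) X β φ}

/-- class of the exact vertex, all points -/
theorem m_pt (hv : Codes D v) {s q : ℕ} (hs : s ≤ q) (b : Fin 3) (t : ℕ) (w : Pt (Fin 3) X β φ) :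
    (D.P h t).m (fun u => (XLq v s b u, NPq D v q u)) w =
      nY D (TP.nn q) {b} w.2.1 * (D.P h t).m (fun u => ((XLq v s b u, u.2.1), NPq D v q u)) w := by
  have hU : ∀ {n : ℕ} {I : Finset (Fin 3)} {x : X} {y y' : Fin 3 → β}, n ≤ TP.nn q + 1 → (∀ j ∈ I, y' j = y j) →
      (∀ j, D.qb (TP.nn q) (y' j) = D.qb (TP.nn q) (y j)) → Um v n I x y' = Um v n I x y := fun hn h1 h2 =>
    Um_cell hv hn h1 h2
  have k := m_cnt h (g := fun (x : X) (y : Fin 3 → β) => ((y b, Um v (nc s {b}) {b} x y),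
    (Um v (nc q ∅) ∅ x y, (D.qa (TP.nn q) x, fun i => D.qb (TP.nn q) (y i))))) (r := TP.nn q) (E := {b}) (by
      intro x y y' h1 h2
      have e1 : Um v (nc s {b}) {b} x y' = Um v (nc s {b}) {b} x y :=
        hU ((nc_mono hs (by unfold pth; simp)).trans (nc_le q {b})) h1 h2
      have e2 : Um v (nc q ∅) ∅ x y' = Um v (nc q ∅) ∅ x y :=
        hU (nc_le q ∅) (fun j hj => absurd hj (Finset.notMem_empty j)) h2
      simp only [e1, e2, h1 b (Finset.mem_singleton_self b), h2]) (by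
      intro x y x' y' hh
      simp only [Prod.mk.injEq] at hh
      exact ⟨fun j hj => by rw [Finset.mem_singleton.1 hj]; exact hh.1.1, fun j => congrFun hh.2.2.2 j⟩) t w
  have e1 : (D.P h t).m (fun u => (XLq v s b u, NPq D v q u)) w =
      (D.P h t).m (fun u => ((fun (x : X) (y : Fin 3 → β) => ((y b, Um v (nc s {b}) {b} x y),
        (Um v (nc q ∅) ∅ x y, (D.qa (TP.nn q) x, fun i => D.qb (TP.nn q) (y i))))) u.1 u.2.1)) w := rfl
  rw [e1, k]
  congr 1
  refine (D.P h t).m_congr ?_ ?_ w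
  · intro a c hac
    have h1 := (Prod.mk.inj hac).1
    have h2 := (Prod.mk.inj hac).2
    exact Prod.ext (Prod.ext (Prod.mk.inj h1).1 h2) (Prod.mk.inj h1).2
  · intro a c hac
    have h1 := (Prod.mk.inj hac).1
    have h2 := (Prod.mk.inj hac).2
    exact Prod.ext (Prod.ext (Prod.mk.inj h1).1 h2) (Prod.mk.inj h1).2

/-- public class, all points -/
theorem m_pt0 (hv : Codes D v) (q t : ℕ) (w : Pt (Fin 3) X β φ) :
    (D.P h t).m (NPq D v q) w = nY D (TP.nn q) ∅ w.2.1 * (D.P h t).m (fun u => (u.2.1, NPq D v q u)) w := by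
  have k := m_cnt h (g := fun (x : X) (y : Fin 3 → β) =>
    (Um v (nc q ∅) ∅ x y, (D.qa (TP.nn q) x, fun i => D.qb (TP.nn q) (y i)))) (r := TP.nn q) (E := ∅) (by
      intro x y y' h1 h2
      have e2 : Um v (nc q ∅) ∅ x y' = Um v (nc q ∅) ∅ x y := Um_cell hv (nc_le q ∅) h1 h2
      simp only [e2, h2]) (by
      intro x y x' y' hh
      simp only [Prod.mk.injEq] at hh
      exact ⟨fun j hj => absurd hj (Finset.notMem_empty j), fun j => congrFun hh.2.2 j⟩) t w
  have e1 : (D.P h t).m (NPq D v q) w =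
      (D.P h t).m (fun u => ((fun (x : X) (y : Fin 3 → β) =>
        (Um v (nc q ∅) ∅ x y, (D.qa (TP.nn q) x, fun i => D.qb (TP.nn q) (y i)))) u.1 u.2.1)) w := rfl
  rw [e1, k]
  congr 1
  refine (D.P h t).m_congr ?_ ?_ w
  · intro a c hac
    exact Prod.ext (Prod.mk.inj hac).2 (Prod.mk.inj hac).1
  · intro a c hac
    exact Prod.ext (Prod.mk.inj hac).2 (Prod.mk.inj hac).1

variable (v) in
/-- own letter with all points -/
def Lx (t : ℕ) (b : Fin 3) (_ : ℕ) (w : Pt (Fin 3) X β φ) := (XLq v (5 * t) b w, w.2.1)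

variable (D v) in
/-- public information of the states `5 t`, `5 t + j` -/
def Nx (t j : ℕ) (k : ℕ) (w : Pt (Fin 3) X β φ) := NPq D v (5 * t + k * j) w

theorem Nx_mono (t j k : ℕ) : Fac (Nx (φ := φ) D v t j (k + 1)) (Nx D v t j k) :=
  NPq_mono (by nlinarith)

theorem Lx_Y (t : ℕ) (b : Fin 3) (k : ℕ) : Fac (Lx (φ := φ) v t b k) (fun w => w.2.1) :=
  fun _ _ hac => (Prod.mk.inj hac).2

variable (v) in
/-- information of the public additions about the own letter, given all points -/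
def ax (t j : ℕ) (b : Fin 3) (w : Pt (Fin 3) X β φ) : ℝ :=
  TD.ai (D.P h t) (Nx D v t j) (Lx v t b) (fun w => w.2.1) 0 w

theorem ax_le (hv : Codes D v) (t j : ℕ) (b : Fin 3) {w : Pt (Fin 3) X β φ} (hw : (D.P h t).p w ≠ 0) :
    Real.exp (ax h v t j b w) * pN h v t (5 * t + j) w ≤ pX h v t (5 * t + j) b w := by
  set P := D.P h t with hP
  have m1 := P.m_pos (fun u => ((XLq v (5 * t) b u, u.2.1), NPq D v (5 * t + j) u)) hw
  have m2 := P.m_pos (fun u => (u.2.1, NPq D v (5 * t + j) u)) hw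
  have m3 := P.m_pos (fun u => ((XLq v (5 * t) b u, u.2.1), NPq D v (5 * t) u)) hw
  have m4 := P.m_pos (fun u => (u.2.1, NPq D v (5 * t) u)) hw
  have e0 : ax h v t j b w = Real.log (P.m (fun u => ((XLq v (5 * t) b u, u.2.1), NPq D v (5 * t + j) u)) w) -
      Real.log (P.m (fun u => (u.2.1, NPq D v (5 * t + j) u)) w) -
      (Real.log (P.m (fun u => ((XLq v (5 * t) b u, u.2.1), NPq D v (5 * t) u)) w) -
        Real.log (P.m (fun u => (u.2.1, NPq D v (5 * t) u)) w)) := by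
    have k := TD.ai_eq P (N := Nx D v t j) (L := Lx v t b) (Y := fun w => w.2.1) 0 hw
    have e1 : Nx (φ := φ) D v t j (0 + 1) = NPq D v (5 * t + j) := by
      funext u
      unfold Nx
      rw [zero_add, one_mul]
    have e2 : Nx (φ := φ) D v t j 0 = NPq D v (5 * t) := by
      funext u
      unfold Nx
      rw [zero_mul, add_zero]
    rw [e1, e2] at k
    exact k
  have a1 := m_pt h hv (show 5 * t ≤ 5 * t + j by omega) b t w
  have a2 := m_pt h hv (le_refl (5 * t)) b t w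
  have a3 := m_pt0 h hv (5 * t + j) t w
  have a4 := m_pt0 h hv (5 * t) t w
  have n1 := nY_pos (D := D) (TP.nn (5 * t + j)) {b} w.2.1
  have n2 := nY_pos (D := D) (TP.nn (5 * t)) {b} w.2.1
  have n3 := nY_pos (D := D) (TP.nn (5 * t + j)) ∅ w.2.1
  have n4 := nY_pos (D := D) (TP.nn (5 * t)) ∅ w.2.1
  have hc := nY_cross (D := D) (TP.nn_mono (show 5 * t ≤ 5 * t + j by omega)) b w.2.1
  unfold pN pX CX
  rw [← hP] at a1 a2 a3 a4 ⊢
  rw [a1, a2, a3, a4, e0]
  set M1 := P.m (fun u => ((XLq v (5 * t) b u, u.2.1), NPq D v (5 * t + j) u)) w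
  set M2 := P.m (fun u => (u.2.1, NPq D v (5 * t + j) u)) w
  set M3 := P.m (fun u => ((XLq v (5 * t) b u, u.2.1), NPq D v (5 * t) u)) w
  set M4 := P.m (fun u => (u.2.1, NPq D v (5 * t) u)) w
  have e1 : Real.exp (Real.log M1 - Real.log M2 - (Real.log M3 - Real.log M4)) = M1 / M2 / (M3 / M4) := by
    rw [Real.exp_sub, Real.exp_sub, Real.exp_sub, Real.exp_log m1, Real.exp_log m2, Real.exp_log m3, Real.exp_log m4]
  rw [e1]
  set y1 := nY D (TP.nn (5 * t + j)) {b} w.2.1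
  set y2 := nY D (TP.nn (5 * t)) {b} w.2.1
  set y3 := nY D (TP.nn (5 * t + j)) ∅ w.2.1
  set y4 := nY D (TP.nn (5 * t)) ∅ w.2.1
  have e2 : M1 / M2 / (M3 / M4) * (y3 * M2 / (y4 * M4)) = M1 / M3 * (y3 / y4) := by
    field_simp
  have e3 : y1 * M1 / (y2 * M3) = M1 / M3 * (y1 / y2) := by
    field_simp
  rw [e2, e3]
  refine mul_le_mul_of_nonneg_left ?_ (div_nonneg m1.le m3.le)
  rw [div_le_div_iff₀ n4 n2]
  exact hc

end ax

/-! ### one class of the exact vertex -/

section star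

variable {X β γ φ : Type} [Fintype X] [Fintype β] [Fintype φ] [Nonempty X] [Nonempty β]
variable {D : HD (Fin 3) X β γ φ} {al : ℝ} {h : D.Thick al}
  {v : ℕ → Finset (Fin 3) → X → (Fin 3 → β) → Pt (Fin 3) X β φ}
variable {dg : ℕ → X → ℝ} {prr : ℕ → Fin 3 → φ → φ} {T : ℕ} {Lam n N1 : ℝ} {t j : ℕ} {b i k : Fin 3}
  {w0 : Pt (Fin 3) X β φ}

theorem nc0 (t : ℕ) {J : Finset (Fin 3)} (hJ : pth J) : nc (5 * t) J = t + 1 := by
  have h1 := nc_add t 0 hJ (by omega)
  rw [add_zero] at h1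
  rw [h1]
  unfold ncj
  rw [if_neg (Nat.not_lt_zero _), add_zero]

theorem NPq_eq (q : ℕ) {a c : Pt (Fin 3) X β φ} : NPq D v q a = NPq D v q c ↔
    Um v (nc q ∅) ∅ a.1 a.2.1 = Um v (nc q ∅) ∅ c.1 c.2.1 ∧ D.qa (TP.nn q) a.1 = D.qa (TP.nn q) c.1 ∧
      ∀ l, D.qb (TP.nn q) (a.2.1 l) = D.qb (TP.nn q) (c.2.1 l) := by
  unfold NPq NP Harm.nd
  simp only [Prod.mk.injEq, funext_iff]

theorem pub0_iff {a : Pt (Fin 3) X β φ} : pub0 D t (Um v (t + 1)) w0 a ↔ NPq D v (5 * t) a = NPq D v (5 * t) w0 := by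
  rw [NPq_eq, nc0 t (by unfold pth; simp), nn_0]
  unfold pub0
  rw [Prod.mk.injEq, le_eq, BB_eq]
  constructor
  · rintro ⟨h1, -, h2⟩
    exact ⟨(LL_eq.1 (h1 ∅ (Finset.Subset.refl _))).1, h2⟩
  · rintro ⟨h1, h2⟩
    refine ⟨fun I hI => ?_, fun l hl => absurd hl (Finset.notMem_empty l), h2⟩
    rw [Finset.subset_empty.1 hI, LL_eq]
    exact ⟨h1, fun l hl => absurd hl (er_ne_thin (by simp))⟩

theorem XLq_eq {a c : Pt (Fin 3) X β φ} : XLq v (5 * t) b a = XLq v (5 * t) b c ↔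
    a.2.1 b = c.2.1 b ∧ Um v (t + 1) {b} a.1 a.2.1 = Um v (t + 1) {b} c.1 c.2.1 := by
  unfold XLq XL
  rw [nc0 t (by unfold pth; simp), Prod.mk.injEq]

theorem cls_iff {a : Pt (Fin 3) X β φ} : clsb (Um v (t + 1)) (pub0 D t (Um v (t + 1)) w0) b w0 a ↔
    (XLq v (5 * t) b a = XLq v (5 * t) b w0 ∧ NPq D v (5 * t) a = NPq D v (5 * t) w0) := by
  unfold clsb
  rw [pub0_iff, XLq_eq]
  tauto

variable (D v t j b w0) in
/-- event of the hidden point: class of the exact vertex, public additions in the cells of `w0` -/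
def Vx (a : Pt (Fin 3) X β φ) : Prop :=
  clsb (Um v (t + 1)) (pub0 D t (Um v (t + 1)) w0) b w0 a ∧ NPq D v (5 * t + j) (a.1, w0.2) = NPq D v (5 * t + j) w0

variable (D v t j b w0) in
/-- the class of the exact vertex with the public additions -/
def Vz (a : Pt (Fin 3) X β φ) : Prop :=
  (XLq v (5 * t) b a, NPq D v (5 * t + j) a) = (XLq v (5 * t) b w0, NPq D v (5 * t + j) w0)

variable (D v t j b w0) in
/-- the hidden points of the event -/
def Ax0 (x : X) : Prop :=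
  Um v (t + 1) {b} x w0.2.1 = Um v (t + 1) {b} w0.1 w0.2.1 ∧ NPq D v (5 * t + j) (x, w0.2) = NPq D v (5 * t + j) w0

theorem Vx_iff (hv : Codes D v) {a : Pt (Fin 3) X β φ} : Vx D v t j b w0 a ↔
    (Ax0 D v t j b w0 a.1 ∧ ((∀ l ∈ ({b} : Finset (Fin 3)), a.2.1 l = w0.2.1 l) ∧
      ∀ l, D.qb t (a.2.1 l) = D.qb t (w0.2.1 l))) := by
  unfold Vx Ax0
  rw [cls_iff, XLq_eq]
  constructor
  · rintro ⟨⟨⟨h1, h2⟩, h3⟩, h4⟩
    rw [NPq_eq, nn_0] at h3
    have h5 : ∀ l ∈ ({b} : Finset (Fin 3)), a.2.1 l = w0.2.1 l := fun l hl => by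
      rw [Finset.mem_singleton.1 hl]; exact h1
    refine ⟨⟨?_, h4⟩, h5, h3.2.2⟩
    rw [← h2]
    exact Um_cell hv le_rfl (fun l hl => (h5 l hl).symm) fun l => (h3.2.2 l).symm
  · rintro ⟨⟨h1, h2⟩, h3, h4⟩
    have h5 := NPq_mono (show 5 * t ≤ 5 * t + j by omega) _ _ h2
    rw [NPq_eq, nn_0, nc0 t (by unfold pth; simp)] at h5
    refine ⟨⟨⟨h3 b (Finset.mem_singleton_self b), ?_⟩, ?_⟩, h2⟩
    · rw [← h1]
      exact Um_cell hv le_rfl h3 h4
    · rw [NPq_eq, nn_0, nc0 t (by unfold pth; simp)]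
      refine ⟨?_, h5.2.1, h4⟩
      rw [← h5.1]
      exact Um_cell hv le_rfl (fun l hl => absurd hl (Finset.notMem_empty l)) h4

theorem Vz_iff (hv : Codes D v) (hj1 : 1 ≤ j) (hj2 : j ≤ 5) {a : Pt (Fin 3) X β φ} : Vz D v t j b w0 a ↔
    (Ax0 D v t j b w0 a.1 ∧ ((∀ l ∈ ({b} : Finset (Fin 3)), a.2.1 l = w0.2.1 l) ∧
      ∀ l, D.qb (t + 1) (a.2.1 l) = D.qb (t + 1) (w0.2.1 l))) := by
  have hn : TP.nn (5 * t + j) = t + 1 := nn_j t hj1 hj2
  have hc : nc (5 * t + j) ∅ ≤ t + 1 + 1 := nc_le2 t hj2 (by unfold pth; simp)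
  unfold Vz Ax0
  rw [Prod.mk.injEq, XLq_eq]
  constructor
  · rintro ⟨⟨h1, h2⟩, h3⟩
    rw [NPq_eq, hn] at h3
    have h5 : ∀ l ∈ ({b} : Finset (Fin 3)), a.2.1 l = w0.2.1 l := fun l hl => by
      rw [Finset.mem_singleton.1 hl]; exact h1
    refine ⟨⟨?_, ?_⟩, h5, h3.2.2⟩
    · rw [← h2]
      exact Um_cell hv le_rfl (fun l hl => (h5 l hl).symm) fun l => (GMH.qb_mono D (Nat.le_succ t) (h3.2.2 l)).symm
    · rw [NPq_eq, hn]
      refine ⟨?_, h3.2.1, fun _ => rfl⟩
      rw [← h3.1]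
      exact Um_cell hv hc (fun l hl => absurd hl (Finset.notMem_empty l)) fun l => (h3.2.2 l).symm
  · rintro ⟨⟨h1, h2⟩, h3, h4⟩
    rw [NPq_eq, hn] at h2
    refine ⟨⟨h3 b (Finset.mem_singleton_self b), ?_⟩, ?_⟩
    · rw [← h1]
      exact Um_cell hv le_rfl h3 fun l => GMH.qb_mono D (Nat.le_succ t) (h4 l)
    · rw [NPq_eq, hn]
      refine ⟨?_, h2.2.1, h4⟩
      rw [← h2.1]
      exact Um_cell hv hc (fun l hl => absurd hl (Finset.notMem_empty l)) h4

theorem Vz_sub (hv : Codes D v) (hj1 : 1 ≤ j) (hj2 : j ≤ 5) {a : Pt (Fin 3) X β φ} (ha : Vz D v t j b w0 a) :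
    Vx D v t j b w0 a := by
  rw [Vz_iff hv hj1 hj2] at ha
  rw [Vx_iff hv]
  exact ⟨ha.1, ha.2.1, fun l => GMH.qb_mono D (Nat.le_succ t) (ha.2.2 l)⟩

/-- the event is at most eight times larger -/
theorem Vx_le (H : D.Hyp dg prr al T Lam) (hv : Codes D v) (hj1 : 1 ≤ j) (hj2 : j ≤ 5) (ht : t < T) :
    (D.P h t).Pr (Vx D v t j b w0) ≤ 8 * (D.P h t).Pr (Vz D v t j b w0) := by
  have e1 : (D.P h t).Pr (Vx D v t j b w0) = (∑ x, ind (Ax0 D v t j b w0 x)) * nY D t {b} w0.2.1 / GMH.nn X β (Fin 3) := by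
    unfold nY
    rw [← m_prod h t]
    unfold FP.Pr
    refine (D.P h t).E_congr fun u _ => ind_cg ?_
    exact Vx_iff hv
  have e2 : (D.P h t).Pr (Vz D v t j b w0) = (∑ x, ind (Ax0 D v t j b w0 x)) * nY D (t + 1) {b} w0.2.1 /
      GMH.nn X β (Fin 3) := by
    unfold nY
    rw [← m_prod h t]
    unfold FP.Pr
    refine (D.P h t).E_congr fun u _ => ind_cg ?_
    exact Vz_iff hv hj1 hj2
  rw [e1, e2]
  have h1 := nY_half H ht {b} w0.2.1
  have h2 : 0 ≤ ∑ x, ind (Ax0 D v t j b w0 x) := Finset.sum_nonneg fun _ _ => ind_nonneg _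
  have h3 : 0 ≤ GMH.nn X β (Fin 3) := by
    unfold GMH.nn
    positivity
  have h4 := mul_le_mul_of_nonneg_left h1 h2
  have h5 := div_le_div_of_nonneg_right h4 h3
  refine h5.trans (le_of_eq ?_)
  ring

theorem Vx_Ib (B : Bk h (pr3 (Fin 3) n N1) (SS1 (Fin 3)) (Um v (t + 1)) t b i k) (hw0 : (D.P h t).p w0 ≠ 0) :
    Ib h (Um v (t + 1)) t b w0 (Vx D v t j b w0) where
  fac := by
    intro a c hac
    have h1 := clsb_Ah (w0 := w0) B.dep (pub0_C w0) B.oth a c hac
    have hac' : (a.1, BB D t {b} a) = (c.1, BB D t {b} c) := hac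
    have h2 : a.1 = c.1 := (Prod.mk.inj hac').1
    unfold Vx
    rw [h1, h2]
  self := ⟨(clsb_facts (pub0_C w0) (show pub0 D t (Um v (t + 1)) w0 w0 from rfl)).1, rfl⟩
  supp := hw0
  sub := fun _ ha => ha.1

/-- conditional law of a class of an event as a conditional law -/
theorem cond_ratio {Om : Type*} [Fintype Om] {P : FP Om} {A : Om → Prop} {κ ι ι' : Type*} {F : Om → κ} {Z : Om → ι}
    {W : Om → ι'} (hA : P.Pr A ≠ 0) {w : Om} (hW : ∀ u, (A u ∧ Z u = Z w) ↔ W u = W w) :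
    (P.cond A).m (fun u => (F u, Z u)) w / (P.cond A).m Z w = P.pv W F w (F w) := by
  rw [FP.cond_m hA, FP.cond_m hA, FP.pv_self, div_div_div_cancel_right₀ hA]
  congr 1
  · unfold FP.m
    refine P.E_congr fun u _ => ?_
    rw [← ind_and]
    refine ind_cg ?_
    simp only [Prod.mk.injEq]
    rw [← hW u]
    tauto
  · unfold FP.m
    refine P.E_congr fun u _ => ?_
    rw [← ind_and]
    exact ind_cg (hW u)

/-- equal classes, equal conditional laws -/
theorem pv_cls {Om : Type*} [Fintype Om] {P : FP Om} {κ ι ι' : Type*} {F : Om → κ} {W : Om → ι}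
    {W' : Om → ι'} {w : Om} (hW : ∀ u, W u = W w ↔ W' u = W' w) (c : κ) : P.pv W F w c = P.pv W' F w c := by
  have e1 : P.m W w = P.m W' w := by
    unfold FP.m
    exact P.E_congr fun u _ => ind_cg (hW u)
  unfold FP.pv FP.ce
  rw [e1]
  congr 1
  refine P.E_congr fun u _ => ?_
  rw [ind_cg (hW u)]

/-- what the top sees in the state `5 t` -/
theorem ZbQ0_eq {a c : Pt (Fin 3) X β φ} : ZbQ D v (5 * t) i a = ZbQ D v (5 * t) i c ↔
    (lo (LL (Um v (t + 1))) (univ.erase i) a, BB D t (univ.erase i) a) =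
      (lo (LL (Um v (t + 1))) (univ.erase i) c, BB D t (univ.erase i) c) := by
  unfold ZbQ
  rw [lo_SL (fun J hJ => SL_0 t hJ), nn_0]

/-- what the top sees inside the class of the exact vertex -/
theorem cls_Zb (B : Bk h (pr3 (Fin 3) n N1) (SS1 (Fin 3)) (Um v (t + 1)) t b i k) {a c : Pt (Fin 3) X β φ}
    (hc : clsb (Um v (t + 1)) (pub0 D t (Um v (t + 1)) w0) b w0 c) :
    (clsb (Um v (t + 1)) (pub0 D t (Um v (t + 1)) w0) b w0 a ∧ zf (Um v (t + 1)) k a = zf (Um v (t + 1)) k c) ↔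
      ZbQ D v (5 * t) i a = ZbQ D v (5 * t) i c := by
  rw [ZbQ0_eq]
  have hall : ∀ l : Fin 3, l = b ∨ l = k ∨ l = i := B.all'
  have key : ∀ {a' c' : Pt (Fin 3) X β φ}, NPq D v (5 * t) a' = NPq D v (5 * t) c' →
      ((lo (LL (Um v (t + 1))) (univ.erase i) a', BB D t (univ.erase i) a') =
        (lo (LL (Um v (t + 1))) (univ.erase i) c', BB D t (univ.erase i) c') ↔
      (zf (Um v (t + 1)) b a' = zf (Um v (t + 1)) b c' ∧ zf (Um v (t + 1)) k a' = zf (Um v (t + 1)) k c')) := by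
    intro a' c' hh
    rw [NPq_eq, nn_0, nc0 t (by unfold pth; simp)] at hh
    exact fib2 (U := Um v (t + 1)) B.bd B.bc B.cd.symm hall (BB_eq.2 ⟨fun l hl => absurd hl (Finset.notMem_empty l), hh.2⟩)
      hh.1
  have hc' := cls_iff.1 hc
  constructor
  · rintro ⟨h1, h2⟩
    have h3 := cls_iff.1 h1
    refine (key (h3.2.trans hc'.2.symm)).2 ⟨?_, h2⟩
    have h4 := XLq_eq.1 (h3.1.trans hc'.1.symm)
    unfold zf
    rw [h4.1, h4.2]
  · intro h1
    have h2 : NPq D v (5 * t) a = NPq D v (5 * t) c := by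
      rw [Prod.mk.injEq, lo_eq, BB_eq] at h1
      rw [NPq_eq, nn_0, nc0 t (by unfold pth; simp)]
      have h0 : (∅ : Finset (Fin 3)) ⊂ univ.erase i := by
        refine Finset.ssubset_iff_subset_ne.2 ⟨Finset.empty_subset _, fun hh => ?_⟩
        have := card_er (rfl : Fintype.card (Fin 3) = 3) i
        rw [← hh, Finset.card_empty] at this
        omega
      exact ⟨(LL_eq.1 (h1.1 ∅ h0)).1, h1.2.2⟩
    have h3 := (key h2).1 h1
    refine ⟨cls_iff.2 ⟨?_, h2.trans hc'.2⟩, h3.2⟩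
    rw [← hc'.1, XLq_eq]
    exact Prod.mk.inj h3.1

/-- **the ratio of the true top is the density of the event** -/
theorem rT_dens (hv : Codes D v) (hj1 : 1 ≤ j) (hj4 : j ≤ 4)
    (B : Bk h (pr3 (Fin 3) n N1) (SS1 (Fin 3)) (Um v (t + 1)) t b i k) (hw0 : (D.P h t).p w0 ≠ 0)
    {w : Pt (Fin 3) X β φ} (hw : (D.P h t).p w ≠ 0) (hz : Vz D v t j b w0 w) :
    rT h v t (5 * t + j) i w = Real.exp (dens ((D.P h t).cond (Vx D v t j b w0)) (QC h (Um v (t + 1)) t b w0)
      (FQ v t i) (zf (Um v (t + 1)) k) w) := by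
  set P := D.P h t with hP
  set J : Finset (Fin 3) := univ.erase i with hJ
  set q := 5 * t + j with hq
  have hnn : TP.nn q = t + 1 := nn_j t hj1 (by omega)
  have I0 := Vx_Ib (j := j) B hw0
  have hx : Vx D v t j b w0 w := Vz_sub hv hj1 (by omega) hz
  have hcl := hx.1
  -- the event
  have e1 : (P.cond (Vx D v t j b w0)).m (fun u => (FQ v t i u, zf (Um v (t + 1)) k u)) w /
      (P.cond (Vx D v t j b w0)).m (zf (Um v (t + 1)) k) w =
      P.pv (fun u => ((lo (LL (Um v (t + 1))) J u, NPq D v q (u.1, w0.2)), BB D t J u)) (FQ v t i) w (FQ v t i w) := by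
    refine cond_ratio I0.ne fun u => ?_
    have h1 := cls_Zb B (a := u) hcl
    rw [ZbQ0_eq] at h1
    simp only [Prod.mk.injEq] at h1 ⊢
    unfold Vx
    constructor
    · rintro ⟨⟨h2, h3⟩, h4⟩
      have h5 := h1.1 ⟨h2, h4⟩
      exact ⟨⟨h5.1, h3.trans hx.2.symm⟩, h5.2⟩
    · rintro ⟨⟨h2, h3⟩, h4⟩
      have h5 := h1.2 ⟨h2, h4⟩
      exact ⟨⟨h5.1, h3.trans hx.2⟩, h5.2⟩
  -- the class
  have e2 : (QC h (Um v (t + 1)) t b w0).m (fun u => (FQ v t i u, zf (Um v (t + 1)) k u)) w /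
      (QC h (Um v (t + 1)) t b w0).m (zf (Um v (t + 1)) k) w =
      P.pv (ZbQ D v (5 * t) i) (FQ v t i) w (FQ v t i w) :=
    cond_ratio I0.cls_ne fun u => cls_Zb B (a := u) hcl
  -- exchange of the node
  have hI3 : ∀ {I : Finset (Fin 3)}, I ⊂ J → I = ∅ ∨ ∃ l, I = {l} := by
    intro I hI
    have h1 : I.card ≤ 1 := lt_pth card3 (ne_univ i) hI
    rcases Nat.le_one_iff_eq_zero_or_eq_one.1 h1 with h2 | h2
    · exact Or.inl (Finset.card_eq_zero.1 h2)
    · exact Or.inr (Finset.card_eq_one.1 h2)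
  have h0J : (∅ : Finset (Fin 3)) ⊂ J := by
    refine Finset.ssubset_iff_subset_ne.2 ⟨Finset.empty_subset _, fun hh => ?_⟩
    have := card_er (rfl : Fintype.card (Fin 3) = 3) i
    rw [← hJ, ← hh, Finset.card_empty] at this
    omega
  have hcell : ∀ l, D.qb (t + 1) (w.2.1 l) = D.qb (t + 1) (w0.2.1 l) := ((Vz_iff hv hj1 (by omega)).1 hz).2.2
  have hUc : ∀ x : X, Um v (nc q ∅) ∅ x w.2.1 = Um v (nc q ∅) ∅ x w0.2.1 := fun x =>
    Um_cell hv (nc_le2 t (by omega) (by unfold pth; simp)) (fun l hl => absurd hl (Finset.notMem_empty l)) hcell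
  have p1 := pv_base h (le_refl t) (J := J) (X' := FQ v t i)
    (R := fun u => (lo (LL (Um v (t + 1))) J u, NPq D v q (u.1, w0.2)))
    (LL_AA hv le_rfl (Finset.Subset.refl _)) (fun a c hac => by
      have h1 : lo (LL (Um v (t + 1))) J a = lo (LL (Um v (t + 1))) J c :=
        lo_eq.2 fun I hI => LL_AA hv le_rfl hI.subset a c hac
      have h2 : a.1 = c.1 := (AA_eq.1 (Prod.mk.inj hac).1).1
      show (lo (LL (Um v (t + 1))) J a, NPq D v q (a.1, w0.2)) = (lo (LL (Um v (t + 1))) J c, NPq D v q (c.1, w0.2))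
      rw [h1, h2]) hw (FQ v t i w)
  have p2 := pv_base h (Nat.le_succ t) (J := J) (X' := FQ v t i) (R := lo (SL v q) J)
    (LL_AA hv (by omega) (Finset.Subset.refl _))
    (fun a c hac => lo_eq.2 fun I hI => LL_AA hv (by
      have := TP.nc_le q I
      rw [hnn] at this
      exact this) hI.subset a c hac) hw (FQ v t i w)
  have p3 : P.pv (fun u => ((lo (LL (Um v (t + 1))) J u, NPq D v q (u.1, w0.2)), WW D t u)) (FQ v t i) w (FQ v t i w) =
      P.pv (fun u => (lo (SL v q) J u, WW D (t + 1) u)) (FQ v t i) w (FQ v t i w) := by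
    refine pv_cls (fun u => ?_) _
    simp only [Prod.mk.injEq, WW_eq]
    constructor
    · rintro ⟨⟨h1, h2⟩, h3, h4⟩
      rw [NPq_eq, hnn] at h2
      have h5 : Um v (nc q ∅) ∅ u.1 w0.2.1 = Um v (nc q ∅) ∅ w.1 w0.2.1 := h2.1
      refine ⟨lo_eq.2 fun I hI => ?_, h3, h2.2.1⟩
      rcases hI3 hI with h6 | ⟨l, h6⟩
      · subst h6
        show LL (Um v (nc q ∅)) ∅ u = LL (Um v (nc q ∅)) ∅ w
        rw [LL_eq, h3, hUc, hUc]
        exact ⟨h5, fun l hl => absurd hl (er_ne_thin (by simp))⟩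
      · have h7 : SL (φ := φ) v q I = LL (Um v (t + 1)) I := by
          unfold SL
          rw [h6, hq, nc_i t j (by omega) l, if_neg (by omega), add_zero]
        rw [h7]
        exact lo_eq.1 h1 I hI
    · rintro ⟨h1, h2, h3⟩
      refine ⟨⟨lo_eq.2 fun I hI => ?_, ?_⟩, h2, GMH.qa_mono D (Nat.le_succ t) h3⟩
      · have hp : pth I := lt_pth card3 (ne_univ i) hI
        have h4 := SL_mono (φ := φ) (v := v) (show 5 * t ≤ q by omega) hp u w (lo_eq.1 h1 I hI)
        rw [SL_0 t hp] at h4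
        exact h4
      · rw [NPq_eq, hnn]
        refine ⟨?_, h3, fun _ => rfl⟩
        have h4 : LL (φ := φ) (Um v (nc q ∅)) ∅ u = LL (Um v (nc q ∅)) ∅ w := lo_eq.1 h1 ∅ h0J
        have h5 := (LL_eq.1 h4).1
        rw [h2, hUc, hUc] at h5
        exact h5
  have e3 : P.pv (fun u => ((lo (LL (Um v (t + 1))) J u, NPq D v q (u.1, w0.2)), BB D t J u)) (FQ v t i) w (FQ v t i w) =
      P.pv (ZbQ D v q i) (FQ v t i) w (FQ v t i w) := by
    rw [← p1, p3, p2]
    unfold ZbQ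
    rw [hnn]
  unfold rT dens
  rw [e1, e2, e3, Real.exp_log]
  refine div_pos ?_ ?_
  · exact P.pv_self_pos _ _ hw
  · exact P.pv_self_pos _ _ hw

/-- relative entropy of the top at the exact vertex -/
theorem klc_top (H : D.Hyp dg prr al T Lam) (R : Run h (pr3 (Fin 3) n N1) (SS1 (Fin 3)) (AdmDep D) v) (hn : 1 ≤ n)
    (hN1 : 1 ≤ N1) (ht : t < T) (B : Bk h (pr3 (Fin 3) n N1) (SS1 (Fin 3)) (Um v (t + 1)) t b i k)
    (hw0 : (D.P h t).p w0 ≠ 0) :
    ((D.P h t).cond (Vx D v t j b w0)).klc (QC h (Um v (t + 1)) t b w0) (FQ v t i) (zf (Um v (t + 1)) k) ≤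
      2 / n * (Real.log (1 / (QC h (Um v (t + 1)) t b w0).Pr (Vx D v t j b w0)) + 1) := by
  have I0 := Vx_Ib (j := j) B hw0
  have h1 := face_exact B I0
  rw [pr3_top card3] at h1
  have e0 : pr3 (Fin 3) n N1 {b} = N1 := by
    unfold pr3
    rw [if_neg (by simp), if_pos (Finset.card_singleton b)]
  rw [e0] at h1
  have e1 : ((D.P h t).cond (Vx D v t j b w0)).klc (QC h (Um v (t + 1)) t b w0) (FQ v t i) (zf (Um v (t + 1)) k) =
      ((D.P h t).cond (Vx D v t j b w0)).klc (QC h (Um v (t + 1)) t b w0) (fun w => w.2.2 i) (zf (Um v (t + 1)) k) := by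
    refine klc_congr_supp I0.acC (fun _ _ _ _ => Iff.rfl) fun a c ha hc hZ => ?_
    obtain ⟨ha1, ha2⟩ := cond_supp I0.cls_ne ha
    obtain ⟨hc1, hc2⟩ := cond_supp I0.cls_ne hc
    constructor
    · intro hh
      exact (LL_eq.1 hh).2 i rfl
    · intro hl
      have h2 := (cls_Zb B (a := a) hc1).1 ⟨ha1, hZ⟩
      rw [ZbQ0_eq, Prod.mk.injEq] at h2
      have hS : univ.erase i ∈ SS1 (Fin 3) := mem_SS1.2 (Finset.erase_ne_self.2 (mem_univ i))
      have hu : (univ : Finset (Fin 3)) ∉ SS1 (Fin 3) := fun hh => mem_SS1.1 hh rfl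
      show LL (Um v (t + 1)) (univ.erase i) a = LL (Um v (t + 1)) (univ.erase i) c
      rw [LL_eq]
      refine ⟨R.top_det H hS hu (B.n2 i) t ht.le a c ha2 hc2 h2.2 (fun I hI => ?_) hl, fun l hl' => ?_⟩
      · exact (LL_eq.1 (lo_eq.1 h2.1 I hI)).1
      · have hli : l = i := by
          by_contra hne
          have h1 : i ∈ (univ.erase l : Finset (Fin 3)) := Finset.mem_erase.2 ⟨fun hh => hne hh.symm, mem_univ i⟩
          rw [hl'] at h1
          exact (Finset.mem_erase.1 h1).1 rfl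
        rw [hli, hl]
  rw [e1]
  have hn0 : 0 < n := by linarith
  have hN0 : 0 < N1 := by linarith
  set K := ((D.P h t).cond (Vx D v t j b w0)).klc (QC h (Um v (t + 1)) t b w0) (fun w => w.2.2 i)
    (zf (Um v (t + 1)) k) with hK
  set L := Real.log (1 / (QC h (Um v (t + 1)) t b w0).Pr (Vx D v t j b w0)) + 1 with hL
  have h2 : N1 * (n * K) ≤ N1 * (2 * L) := by linarith
  have h3 := le_of_mul_le_mul_left h2 hN0
  have h4 : 2 / n * L = 2 * L / n := by ring
  rw [h4, le_div_iff₀ hn0]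
  linarith

/-- **one class of the exact vertex** -/
theorem star (H : D.Hyp dg prr al T Lam) (R : Run h (pr3 (Fin 3) n N1) (SS1 (Fin 3)) (AdmDep D) v) (hn : 1 ≤ n)
    (hN1 : 1 ≤ N1) (ht : t < T) (hj1 : 1 ≤ j) (hj4 : j ≤ 4)
    (B : Bk h (pr3 (Fin 3) n N1) (SS1 (Fin 3)) (Um v (t + 1)) t b i k) (hw0 : (D.P h t).p w0 ≠ 0) {e : ℝ} (he : 0 < e)
    (he1 : e ≤ 1) :
    (D.P h t).ce (fun u => (XLq v (5 * t) b u, NPq D v (5 * t + j) u))
      (fun u => ind (e < |rT h v t (5 * t + j) i u - 1|)) w0 ≤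
      8 * (120 / e ^ 2) * (2 / n * (Real.log (1 / pX h v t (5 * t + j) b w0) + 1)) := by
  set P := D.P h t with hP
  have I0 := Vx_Ib (j := j) B hw0
  have hv := R.codes
  set Q := QC h (Um v (t + 1)) t b w0 with hQ
  set A := Vx D v t j b w0 with hA
  have hm : 0 < P.Pr (Vz D v t j b w0) := FP.Pr_pos_of (S := Vz D v t j b w0) hw0 rfl
  have hcl : 0 < P.Pr (clsb (Um v (t + 1)) (pub0 D t (Um v (t + 1)) w0) b w0) :=
    lt_of_le_of_ne (P.Pr_nonneg _) (Ne.symm I0.cls_ne)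
  -- the surprise
  have hpX : pX h v t (5 * t + j) b w0 = P.Pr (Vz D v t j b w0) /
      P.Pr (clsb (Um v (t + 1)) (pub0 D t (Um v (t + 1)) w0) b w0) := by
    have e1 : P.m (CX D v (5 * t) b) w0 = P.Pr (clsb (Um v (t + 1)) (pub0 D t (Um v (t + 1)) w0) b w0) := by
      unfold FP.m FP.Pr
      refine P.E_congr fun u _ => ind_cg ?_
      rw [cls_iff]
      unfold CX
      rw [Prod.mk.injEq]
    unfold pX
    rw [← hP, e1]
    rfl
  have hpX0 : 0 < pX h v t (5 * t + j) b w0 := by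
    rw [hpX]
    exact div_pos hm hcl
  have hle : pX h v t (5 * t + j) b w0 ≤ Q.Pr A := by
    have e1 : Q.Pr A = P.E (fun u => ind (clsb (Um v (t + 1)) (pub0 D t (Um v (t + 1)) w0) b w0 u) * ind (A u)) /
        P.Pr (clsb (Um v (t + 1)) (pub0 D t (Um v (t + 1)) w0) b w0) := by
      rw [hQ]
      unfold QC
      exact FP.cond_E I0.cls_ne _
    rw [e1, hpX]
    refine div_le_div_of_nonneg_right ?_ hcl.le
    unfold FP.Pr
    refine P.E_mono fun u _ => ?_
    by_cases hu : Vz D v t j b w0 u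
    · have h1 : A u := Vz_sub hv hj1 (by omega) hu
      rw [ind_of hu, ind_of h1, ind_of h1.1, mul_one]
    · rw [ind_not hu]
      exact mul_nonneg (ind_nonneg _) (ind_nonneg _)
  have hlog : Real.log (1 / Q.Pr A) ≤ Real.log (1 / pX h v t (5 * t + j) b w0) := by
    refine Real.log_le_log (by
      have := hpX0.trans_le hle
      positivity) ?_
    exact one_div_le_one_div_of_le hpX0 hle
  -- activity inside the event
  have h1 := act_klc I0.acC (FQ v t i) (zf (Um v (t + 1)) k) he he1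
  have h2 := klc_top (j := j) H R hn hN1 ht B hw0
  have h3 : P.E (fun u => ind (Vz D v t j b w0 u) * ind (e < |rT h v t (5 * t + j) i u - 1|)) ≤
      P.Pr A * (P.cond A).Pr (fun u => e < |Real.exp (dens (P.cond A) Q (FQ v t i) (zf (Um v (t + 1)) k) u) - 1|) := by
    unfold FP.Pr
    have h4 := FP.Pr_mul_cond_E (P := P) (V := A) I0.ne (fun u => ind (e < |Real.exp (dens (P.cond A) Q (FQ v t i)
      (zf (Um v (t + 1)) k) u) - 1|))
    unfold FP.Pr at h4
    rw [h4]
    refine P.E_mono fun u hu => ?_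
    by_cases hz : Vz D v t j b w0 u
    · have h5 : A u := Vz_sub hv hj1 (by omega) hz
      rw [ind_of hz, ind_of h5, rT_dens hv hj1 hj4 B hw0 hu hz]
    · rw [ind_not hz, zero_mul]
      exact mul_nonneg (ind_nonneg _) (ind_nonneg _)
  have h4 := Vx_le (w0 := w0) (b := b) (h := h) H hv hj1 (by omega) ht
  have hc0 : 0 ≤ 120 / e ^ 2 := by positivity
  have hn0 : 0 < n := by linarith
  set Lg := Real.log (1 / pX h v t (5 * t + j) b w0) + 1 with hLg
  have h5 : (P.cond A).Pr (fun u => e < |Real.exp (dens (P.cond A) Q (FQ v t i) (zf (Um v (t + 1)) k) u) - 1|) ≤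
      120 / e ^ 2 * (2 / n * Lg) := by
    refine h1.trans (mul_le_mul_of_nonneg_left (h2.trans ?_) hc0)
    refine mul_le_mul_of_nonneg_left ?_ (by positivity)
    linarith
  have h6 : 0 ≤ 120 / e ^ 2 * (2 / n * Lg) := (FP.Pr_nonneg _ _).trans h5
  have h7 : P.E (fun u => ind (Vz D v t j b w0 u) * ind (e < |rT h v t (5 * t + j) i u - 1|)) ≤
      8 * P.Pr (Vz D v t j b w0) * (120 / e ^ 2 * (2 / n * Lg)) := by
    refine h3.trans ?_
    exact mul_le_mul h4 h5 (FP.Pr_nonneg _ _) (by positivity)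
  unfold FP.ce
  have e1 : P.m (fun u => (XLq v (5 * t) b u, NPq D v (5 * t + j) u)) w0 = P.Pr (Vz D v t j b w0) := rfl
  rw [e1, div_le_iff₀ hm]
  refine le_trans h7 (le_of_eq ?_)
  ring

end star

/-! ### the information over the run -/

section sumi

variable {X β γ φ : Type} [Fintype X] [Fintype β] [Fintype φ] [Nonempty X] [Nonempty β]
variable {D : HD (Fin 3) X β γ φ} {al : ℝ} (h : D.Thick al)
  {v : ℕ → Finset (Fin 3) → X → (Fin 3 → β) → Pt (Fin 3) X β φ}
variable {dg : ℕ → X → ℝ} {prr : ℕ → Fin 3 → φ → φ} {T : ℕ} {Lam n N1 : ℝ}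

variable (v) in
/-- entropy of the own letter of `b` in the state `q` given all points and the public information of the state `q'` -/
def yx (t q q' : ℕ) (b : Fin 3) : ℝ := (D.P h t).Hc (XLq v q b) (fun w => (w.2.1, NPq D v q' w))

theorem yx_nn (t q q' : ℕ) (b : Fin 3) : 0 ≤ yx h v t q q' b := FP.Hc_nonneg _ _ _

theorem yx_time (t t' q q' : ℕ) (b : Fin 3) : yx h v t q q' b = yx h v t' q q' b :=
  Hc_time h (dry_XLq q b) (fun a c h1 h2 => by
    show (a.2.1, NPq D v q' a) = (c.2.1, NPq D v q' c)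
    unfold NPq NP Harm.nd
    rw [h1, h2]) t t'

theorem I_le (t j : ℕ) (b : Fin 3) :
    (D.P h t).I (Lx v t b 0) (Nx D v t j (0 + 1)) (fun w => (w.2.1, Nx D v t j 0 w)) ≤
      yx h v t (5 * t) (5 * t) b - yx h v t (5 * t) (5 * t + j) b := by
  rw [(D.P h t).I_comm, (D.P h t).I_eq_Hc']
  have e1 : Nx (φ := φ) D v t j (0 + 1) = NPq D v (5 * t + j) := by
    funext u
    unfold Nx
    rw [zero_add, one_mul]
  have e2 : Nx (φ := φ) D v t j 0 = NPq D v (5 * t) := by
    funext u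
    unfold Nx
    rw [zero_mul, add_zero]
  rw [e1, e2]
  have h1 : (D.P h t).Hc (Lx v t b 0) (fun w => (w.2.1, NPq D v (5 * t) w)) ≤ yx h v t (5 * t) (5 * t) b := by
    unfold yx
    refine (D.P h t).Hc_mono _ ?_
    intro a c hac
    simp only [Prod.mk.injEq] at hac
    unfold Lx
    rw [hac.1, hac.2.1]
  have h2 : yx h v t (5 * t) (5 * t + j) b ≤
      (D.P h t).Hc (Lx v t b 0) (fun w => (NPq D v (5 * t + j) w, w.2.1, NPq D v (5 * t) w)) := by
    unfold yx
    refine le_trans ((D.P h t).Hc_anti (Z := fun w => (NPq D v (5 * t + j) w, w.2.1, NPq D v (5 * t) w)) _ ?_)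
      ((D.P h t).Hc_mono _ ?_)
    · intro a c hac
      have h3 := (Prod.mk.inj hac).1
      have h4 := (Prod.mk.inj hac).2
      have h5 := NPq_mono (show 5 * t ≤ 5 * t + j by omega) _ _ h4
      simp only [Prod.mk.injEq]
      exact ⟨h4, h3, h5⟩
    · intro a c hac
      exact (Prod.mk.inj (Prod.mk.inj hac).1).1
  linarith

/-- **between two times** -/
theorem yx_next (t : ℕ) {j : ℕ} (hj : j ≤ 5) (b : Fin 3) :
    yx h v (t + 1) (5 * (t + 1)) (5 * (t + 1)) b ≤ yx h v t (5 * t) (5 * t + j) b + cst h v (t + 1) {b} := by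
  rw [yx_time h t (t + 1)]
  have hq : 5 * (t + 1) = 5 * t + 5 := by ring
  have hnc : nc (5 * (t + 1)) ∅ = t + 1 + 1 := nc0 (t + 1) (by unfold pth; simp)
  have hnn : TP.nn (5 * (t + 1)) = t + 1 := nn_0 (t + 1)
  have hnb : nc (5 * (t + 1)) {b} = t + 1 + 1 := nc0 (t + 1) (by unfold pth; simp)
  unfold yx
  have h1 : (D.P h (t + 1)).Hc (XLq v (5 * (t + 1)) b) (fun w => (w.2.1, NPq D v (5 * (t + 1)) w)) ≤
      (D.P h (t + 1)).Hc (fun w => (Vt v (t + 1) {b} w, XLq v (5 * t) b w))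
        (fun w => (w.2.1, NPq D v (5 * (t + 1)) w)) := by
    refine (D.P h (t + 1)).Hc_mono _ ?_
    intro a c hac
    simp only [Prod.mk.injEq] at hac
    obtain ⟨⟨h2, h3⟩, _⟩ := hac
    have h4 := XLq_eq.1 h3
    unfold XLq XL
    rw [hnb]
    exact Prod.ext h4.1 (Um_eq.2 ⟨h4.2, h2⟩)
  have h2 := (D.P h (t + 1)).Hc_chain (Vt v (t + 1) {b}) (XLq v (5 * t) b)
    (fun w => (w.2.1, NPq D v (5 * (t + 1)) w))
  have h3 : (D.P h (t + 1)).Hc (XLq v (5 * t) b) (fun w => (w.2.1, NPq D v (5 * (t + 1)) w)) ≤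
      (D.P h (t + 1)).Hc (XLq v (5 * t) b) (fun w => (w.2.1, NPq D v (5 * t + j) w)) := by
    refine (D.P h (t + 1)).Hc_anti _ ?_
    intro a c hac
    exact Prod.ext (Prod.mk.inj hac).1 (NPq_mono (by omega) _ _ (Prod.mk.inj hac).2)
  have h4 : (D.P h (t + 1)).Hc (Vt v (t + 1) {b}) (fun w => (XLq v (5 * t) b w, w.2.1, NPq D v (5 * (t + 1)) w)) ≤
      cst h v (t + 1) {b} := by
    unfold cst cost
    refine (D.P h (t + 1)).Hc_anti _ ?_
    intro a c hac
    simp only [Prod.mk.injEq] at hac ⊢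
    obtain ⟨h5, h6, h7⟩ := hac
    rw [NPq_eq, hnn, hnc] at h7
    have h8 := XLq_eq.1 h5
    have h9 := Um_eq.1 h7.1
    have hno : ∀ (I : Finset (Fin 3)), I ⊆ {b} → ∀ l, univ.erase l ≠ I := fun I hI l =>
      er_ne_thin ((Finset.card_le_card hI).trans (Finset.card_singleton b).le)
    refine ⟨lo_eq.2 fun I hI => ?_, le_eq.2 fun I hI => ?_, ?_⟩
    · rw [Finset.ssubset_singleton_iff] at hI
      subst hI
      exact h9.2
    · rcases Finset.subset_singleton_iff.1 hI with rfl | rfl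
      · rw [LL_eq]
        exact ⟨h9.1, fun l hl => absurd hl (hno ∅ hI l)⟩
      · rw [LL_eq]
        exact ⟨h8.2, fun l hl => absurd hl (hno {b} hI l)⟩
    · rw [BB_eq]
      exact ⟨fun l _ => congrFun h6 l, h7.2⟩
  linarith

theorem yx_start (b : Fin 3) : yx h v 0 (5 * 0) (5 * 0) b ≤ cst h v 0 {b} := by
  have hnc : nc (5 * 0) ∅ = 0 + 1 := nc0 0 (by unfold pth; simp)
  have hnb : nc (5 * 0) {b} = 0 + 1 := nc0 0 (by unfold pth; simp)
  have hnn : TP.nn (5 * 0) = 0 := nn_0 0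
  unfold yx cst cost
  refine le_trans ((D.P h 0).Hc_mono (X := Vt v 0 {b}) _ ?_) ((D.P h 0).Hc_anti _ ?_)
  · intro a c hac
    simp only [Prod.mk.injEq] at hac
    unfold XLq XL
    rw [hnb]
    refine Prod.ext (congrFun hac.2.1 b) (Um_eq.2 ⟨?_, hac.1⟩)
    rfl
  · intro a c hac
    simp only [Prod.mk.injEq] at hac ⊢
    obtain ⟨h6, h7⟩ := hac
    rw [NPq_eq, hnn, hnc] at h7
    have h9 := Um_eq.1 h7.1
    have hno : ∀ (I : Finset (Fin 3)), I ⊆ {b} → ∀ l, univ.erase l ≠ I := fun I hI l =>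
      er_ne_thin ((Finset.card_le_card hI).trans (Finset.card_singleton b).le)
    refine ⟨lo_eq.2 fun I hI => ?_, le_eq.2 fun I hI => ?_, ?_⟩
    · rw [Finset.ssubset_singleton_iff] at hI
      subst hI
      exact h9.2
    · rw [LL_eq]
      exact ⟨rfl, fun l hl => absurd hl (hno I hI l)⟩
    · rw [BB_eq]
      exact ⟨fun l _ => congrFun h6 l, h7.2⟩

/-- **the information of the public additions about the own letter** -/
theorem I_sum (H : D.Hyp dg prr al T Lam) (R : Run h (pr3 (Fin 3) n N1) (SS1 (Fin 3)) (AdmDep D) v)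
    (hn : 1 ≤ n) (hN1 : 1 ≤ N1) {j : ℕ} (hj : j ≤ 5) (b : Fin 3) :
    ∑ t ∈ range T, (D.P h t).I (Lx v t b 0) (Nx D v t j (0 + 1)) (fun w => (w.2.1, Nx D v t j 0 w)) ≤
      3 * (n * Lam) := by
  have key : ∀ S, ∑ t ∈ range S, (yx h v t (5 * t) (5 * t) b - yx h v t (5 * t) (5 * t + j) b) +
      yx h v S (5 * S) (5 * S) b ≤ ∑ t ∈ range (S + 1), cst h v t {b} := by
    intro S
    induction S with
    | zero =>
      rw [Finset.sum_range_zero, zero_add, Finset.sum_range_one]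
      exact yx_start h b
    | succ S ih =>
      have h1 := yx_next h (v := v) S hj b
      rw [Finset.sum_range_succ, Finset.sum_range_succ _ (S + 1)]
      linarith
  have h1 := key T
  have h2 := yx_nn h (v := v) T (5 * T) (5 * T) b
  have h3 := cost_thin rfl H hn hN1 R b
  have h4 := Finset.sum_le_sum fun t (_ : t ∈ range T) => I_le h (v := v) t j b
  linarith

end sumi

end HvX

/-! ### the theorem -/

section fin

variable {X β γ φ : Type} [Fintype X] [Fintype β] [Fintype φ] [Nonempty X] [Nonempty β]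
variable {D : HD (Fin 3) X β γ φ} {al : ℝ} (h : D.Thick al)
  {v : ℕ → Finset (Fin 3) → X → (Fin 3 → β) → Pt (Fin 3) X β φ}
variable {dg : ℕ → X → ℝ} {prr : ℕ → Fin 3 → φ → φ} {T : ℕ} {Lam n N1 : ℝ}

/-- one time -/
theorem HvX.one_time (H : D.Hyp dg prr al T Lam) (R : Run h (pr3 (Fin 3) n N1) (SS1 (Fin 3)) (AdmDep D) v) (hn : 1 ≤ n)
    (hN1 : 1 ≤ N1) {j : ℕ} (hj : j = 1 ∨ j = 2) {i b : Fin 3} (hib : i ≠ b) {e eps0 eps1 : ℝ} (he : 0 < e) (he1 : e ≤ 1)
    (h0 : 0 < eps0) (h01 : eps0 ≤ 1 / 16) (h1 : 0 < eps1) (h11 : eps1 ≤ 1 / 16) {t : ℕ} (ht : t < T) :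
    (D.P h t).Pr (fun w => eps0 ≤ pN h v t (5 * t + j) w ∧
      pX h v t (5 * t + j) b w < eps1 * pN h v t (5 * t + j) w ∧ e < |rT h v t (5 * t + j) i w - 1|) ≤
      8 * (120 / e ^ 2) * (2 / n) * (eps1 * (Real.log (1 / (eps1 * eps0)) + 1)) *
        (2 * (D.P h t).I (HvX.Lx v t b 0) (HvX.Nx D v t j (0 + 1)) (fun w => (w.2.1, HvX.Nx D v t j 0 w))) := by
  have hv := R.codes
  set P := D.P h t with hP
  set q := 5 * t + j with hq
  -- the third vertex
  obtain ⟨k, hik, hbk⟩ : ∃ k : Fin 3, i ≠ k ∧ b ≠ k := by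
    have key : ∀ i b : Fin 3, i ≠ b → ∃ k : Fin 3, i ≠ k ∧ b ≠ k := by decide
    exact key i b hib
  have B := TriB.Bk_run hn hN1 R hib.symm hbk hik t
  have hn0 : 0 < n := by linarith
  set G : Pt (Fin 3) X β φ → Prop := fun w => eps0 ≤ pN h v t q w ∧ pX h v t q b w < eps1 * pN h v t q w with hG
  set act : Pt (Fin 3) X β φ → ℝ := fun u => ind (e < |rT h v t q i u - 1|) with hact
  set W : Pt (Fin 3) X β φ → _ := fun u => (XLq v (5 * t) b u, NPq D v q u) with hW
  have hGW : Fac W G := by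
    intro a c hac
    have g1 : NPq D v q a = NPq D v q c := (Prod.mk.inj hac).2
    have g2 : NPq D v (5 * t) a = NPq D v (5 * t) c := NPq_mono (by omega) _ _ g1
    have g3 : XLq v (5 * t) b a = XLq v (5 * t) b c := (Prod.mk.inj hac).1
    have g4 : pN h v t q a = pN h v t q c := by
      unfold pN
      rw [P.Fac_m _ a c g1, P.Fac_m _ a c g2]
    have g5 : pX h v t q b a = pX h v t q b c := by
      unfold pX
      rw [P.Fac_m _ a c hac, P.Fac_m (CX D v (5 * t) b) a c (Prod.ext g3 g2)]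
    show (eps0 ≤ pN h v t q a ∧ pX h v t q b a < eps1 * pN h v t q a) =
      (eps0 ≤ pN h v t q c ∧ pX h v t q b c < eps1 * pN h v t q c)
    rw [g4, g5]
  have hpos : ∀ w, P.p w ≠ 0 → 0 < pX h v t q b w ∧ 0 < pN h v t q w ∧ pN h v t q w ≤ 1 := by
    intro w hw
    refine ⟨div_pos (P.m_pos _ hw) (P.m_pos _ hw), div_pos (P.m_pos _ hw) (P.m_pos _ hw), ?_⟩
    unfold pN
    exact div_le_one_of_le₀ (P.m_anti (NPq_mono (by omega)) w) (P.m_nonneg _ _)
  have hex : ∀ w, P.p w ≠ 0 → Real.exp (HvX.ax h v t j b w) * pN h v t q w ≤ pX h v t q b w := fun w hw =>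
    HvX.ax_le h hv t j b hw
  set K := Real.log (1 / (eps1 * eps0)) + 1 with hK
  set c := 8 * (120 / e ^ 2) * (2 / n) with hc
  have hc0 : 0 ≤ c := by positivity
  -- the activity in the classes
  have e1 : P.Pr (fun w => eps0 ≤ pN h v t q w ∧ pX h v t q b w < eps1 * pN h v t q w ∧
      e < |rT h v t q i w - 1|) = P.E (fun w => ind (G w) * P.ce W act w) := by
    rw [P.E_mul_ce (Fac.ind fun a c hac => by rw [hGW a c hac]) act]
    unfold FP.Pr
    refine P.E_congr fun w _ => ?_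
    rw [hact, ← ind_and]
    refine ind_cg ?_
    rw [hG]
    tauto
  rw [e1]
  have e2 : P.E (fun w => ind (G w) * P.ce W act w) ≤
      P.E (fun w => c * (eps1 * K) * (ind (G w) * Real.exp (- HvX.ax h v t j b w))) := by
    refine P.E_mono fun w hw => ?_
    by_cases hg : G w
    · rw [ind_of hg, one_mul, one_mul]
      obtain ⟨p1, p2, p3⟩ := hpos w hw
      have s1 := HvX.star (h := h) H R hn hN1 ht (j := j) (by omega) (by omega) B hw he he1
      have g1 : eps0 ≤ pN h v t q w := hg.1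
      have g2 : pX h v t q b w < eps1 * pN h v t q w := hg.2
      have g3 : eps1 * pN h v t q w ≤ 1 := by nlinarith
      have g4 := HvX.num_log p1 g2.le g3
      have g5 : Real.log (1 / (eps1 * pN h v t q w)) ≤ Real.log (1 / (eps1 * eps0)) := by
        refine Real.log_le_log (by positivity) ?_
        exact one_div_le_one_div_of_le (mul_pos h1 h0) (mul_le_mul_of_nonneg_left g1 h1.le)
      have g6 : pX h v t q b w * (Real.log (1 / pX h v t q b w) + 1) ≤ eps1 * pN h v t q w * K := by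
        refine g4.trans (mul_le_mul_of_nonneg_left ?_ (by positivity))
        rw [hK]
        linarith
      have g7 : pN h v t q w ≤ pX h v t q b w * Real.exp (- HvX.ax h v t j b w) := by
        have g8 := mul_le_mul_of_nonneg_left (hex w hw) (Real.exp_pos (- HvX.ax h v t j b w)).le
        rw [← mul_assoc, ← Real.exp_add, neg_add_cancel, Real.exp_zero, one_mul] at g8
        linarith
      have hK0 : 0 ≤ K := by
        have : 0 ≤ Real.log (1 / (eps1 * eps0)) := by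
          have g9 : 0 ≤ Real.log (1 / (eps1 * pN h v t q w)) := Real.log_nonneg (by
            rw [le_div_iff₀ (by positivity), one_mul]; exact g3)
          linarith
        rw [hK]
        linarith
      have g8 : pX h v t q b w * (Real.log (1 / pX h v t q b w) + 1) ≤
          pX h v t q b w * (eps1 * K * Real.exp (- HvX.ax h v t j b w)) := by
        refine g6.trans ?_
        have g9 := mul_le_mul_of_nonneg_left g7 (mul_nonneg h1.le hK0)
        linarith
      have g9 := le_of_mul_le_mul_left g8 p1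
      refine s1.trans ?_
      have g10 := mul_le_mul_of_nonneg_left g9 hc0
      rw [hc] at g10 ⊢
      linarith
    · rw [ind_not hg, zero_mul, zero_mul, mul_zero]
  refine e2.trans ?_
  rw [FP.E_smul]
  have e3 := HvX.info_small P (N := HvX.Nx D v t j) (L := HvX.Lx v t b) (Y := fun w => w.2.1)
    (fun k => HvX.Nx_mono t j k) (fun k => HvX.Lx_Y t b k) 0 (S := G) (fun w hw hg => by
      obtain ⟨p1, p2, p3⟩ := hpos w hw
      have g2 : pX h v t q b w < eps1 * pN h v t q w := hg.2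
      have g3 := hex w hw
      have g4 : Real.exp (HvX.ax h v t j b w) * pN h v t q w < eps1 * pN h v t q w := lt_of_le_of_lt g3 g2
      have g5 := lt_of_mul_lt_mul_right g4 p2.le
      exact (g5.le).trans h11)
  have hK0 : 0 ≤ c * (eps1 * K) := by
    have g3 : eps1 * eps0 ≤ 1 := by nlinarith
    have : 0 ≤ Real.log (1 / (eps1 * eps0)) := Real.log_nonneg (by
      rw [le_div_iff₀ (by positivity), one_mul]; exact g3)
    rw [hK]
    positivity
  have e4 : P.E (fun w => ind (G w) * Real.exp (- HvX.ax h v t j b w)) ≤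
      2 * P.I (HvX.Lx v t b 0) (HvX.Nx D v t j (0 + 1)) (fun w => (w.2.1, HvX.Nx D v t j 0 w)) := e3
  exact mul_le_mul_of_nonneg_left e4 hK0

/-- **(H2) ACTIVITY AT THE EXACT VERTEX** : the class of `b ≠ i` does not expect the public additions -/
theorem act_exact (H : D.Hyp dg prr al T Lam) (R : Run h (pr3 (Fin 3) n N1) (SS1 (Fin 3)) (AdmDep D) v) (hn : 1 ≤ n)
    (hN1 : 1 ≤ N1) {j : ℕ} (hj : j = 1 ∨ j = 2) {i b : Fin 3} (hib : i ≠ b) {e eps0 eps1 : ℝ} (he : 0 < e) (he1 : e ≤ 1)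
    (h0 : 0 < eps0) (h01 : eps0 ≤ 1 / 16) (h1 : 0 < eps1) (h11 : eps1 ≤ 1 / 16) :
    ∑ t ∈ range T, (D.P h t).Pr (fun w => eps0 ≤ pN h v t (5 * t + j) w ∧
      pX h v t (5 * t + j) b w < eps1 * pN h v t (5 * t + j) w ∧ e < |rT h v t (5 * t + j) i w - 1|) ≤
      10 ^ 6 / e ^ 2 * (eps1 * (Real.log (1 / (eps1 * eps0)) + 1) * Lam) := by
  have hn0 : 0 < n := by linarith
  have k1 := HvX.I_sum h (v := v) H R hn hN1 (j := j) (by omega) b
  have k2 := Finset.sum_le_sum fun t (ht : t ∈ range T) => HvX.one_time h H R hn hN1 hj hib he he1 h0 h01 h1 h11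
    (Finset.mem_range.1 ht)
  refine k2.trans ?_
  rw [← Finset.mul_sum, ← Finset.mul_sum]
  set S := ∑ t ∈ range T, (D.P h t).I (HvX.Lx v t b 0) (HvX.Nx D v t j (0 + 1)) (fun w => (w.2.1, HvX.Nx D v t j 0 w))
    with hS
  have hK : 0 ≤ Real.log (1 / (eps1 * eps0)) := Real.log_nonneg (by
    rw [le_div_iff₀ (by positivity), one_mul]; nlinarith)
  set K := Real.log (1 / (eps1 * eps0)) + 1 with hKd
  have hK0 : 0 ≤ K := by rw [hKd]; linarith
  have hS0 : 0 ≤ S := Finset.sum_nonneg fun t _ => FP.I_nonneg _ _ _ _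
  have hL : 0 ≤ Lam := by
    have : 0 ≤ 3 * (n * Lam) := hS0.trans k1
    have h2 : 0 ≤ n * Lam := by linarith
    exact nonneg_of_mul_nonneg_right h2 hn0
  have h2 : 8 * (120 / e ^ 2) * (2 / n) * (eps1 * K) * (2 * S) ≤
      8 * (120 / e ^ 2) * (2 / n) * (eps1 * K) * (2 * (3 * (n * Lam))) := by
    refine mul_le_mul_of_nonneg_left (by linarith) (by positivity)
  refine h2.trans ?_
  have e1 : 8 * (120 / e ^ 2) * (2 / n) * (eps1 * K) * (2 * (3 * (n * Lam))) = 11520 / e ^ 2 * (eps1 * K * Lam) := by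
    field_simp
    ring
  rw [e1]
  refine mul_le_mul_of_nonneg_right ?_ (by positivity)
  exact div_le_div_of_nonneg_right (by norm_num) (by positivity)

end fin

end

end Pool.Agent.GMH.Hv
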