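import Pool.Agent.GMH.HvR
import Pool.Agent.GMH.HvC
import Pool.Agent.GMH.HvX
import Pool.Agent.GMH.HvP
import Pool.Agent.GMH.TopFin

/-!
# GMH/HvS (helper19): HEAVY VALUES AND DIGITS, the assembly (row A6' of H3.LEAN; definitions of helper11 in GMH/HvDef)

`stw B e s t i k` : the true top `i` is strong (ratio `> B`) and the true top `k` is active (`e < |ratio - 1|`) in the step.
* `hv0` (digit), `hv2` (heavy public value), `hv5` (private codes, the two vertices which the strong top sees are heavy):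
  the sums over the run of the probabilities of `alive and stw`, one pair `(i, k)`;
* `hvs` : the three sums together, some pair `i ≠ k`.
The bounds: `HB = y 240 Lam / e^2 + tail 1000 n Lam`, `XB` = exact vertex which does not expect the additions, `PB` = public
class which does not expect them, `c 1000 Lam` = true top suppressed at the digit, `dead`.
-/

set_option autoImplicit false
set_option linter.unusedSectionVars false

namespace Pool.Agent.GMH.Hv

open Finset Pool.Agent.PWZ Pool.Agent.M3 Pool.Agent.GM Pool.Agent.GM.Harm Pool.Agent.GMH Pool.Agent.GMH.NZ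
open Pool.Agent.GMH.V3 Pool.Agent.GMH.TP Pool.Agent.GMH.KF

noncomputable section

/-! ### numbers -/

/-- pairs of an exact vertex -/
def HB (Lam n N1 X0 X1 eps e y : ℝ) : ℝ :=
  y * (240 * Lam / e ^ 2) + 1 / y * Real.exp (20 + 8 * (X0 + X1) + 8 * Real.log (1 / eps) - N1 * y / 64) *
    (1000 * (n * Lam))

/-- the class of the exact vertex does not expect the additions -/
def XB (Lam eps0 eps1 : ℝ) : ℝ := 10 ^ 6 / (1 / 2 : ℝ) ^ 2 * (eps1 * (Real.log (1 / (eps1 * eps0)) + 1) * Lam)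

/-- the public class does not expect the additions -/
def PB (Lam eps0 : ℝ) : ℝ := 10 ^ 6 / (1 / 2 : ℝ) ^ 2 * (eps0 * (Real.log (1 / eps0) + 1) * Lam)

variable {X β γ φ : Type} [Fintype X] [Fintype β] [Fintype φ] [Nonempty X] [Nonempty β]
variable {D : HD (Fin 3) X β γ φ} {al : ℝ} (h : D.Thick al)
  (v : ℕ → Finset (Fin 3) → X → (Fin 3 → β) → Pt (Fin 3) X β φ)

/-- the top `i` is strong, the top `k` is active -/
def stw (B e : ℝ) (s : Fin 6) (t : ℕ) (i k : Fin 3) (w : Pt (Fin 3) X β φ) : Prop :=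
  B < rS h v s t i w (FQ v t i w) ∧ e < |rS h v s t k w (FQ v t k w) - 1|

variable {v}

/-! ### small facts -/

/-- the activity of a top is seen by the top and its letter after the step -/
theorem ris_fac (e : ℝ) (s : Fin 6) (t : ℕ) (k : Fin 3) :
    Fac (fun w : Pt (Fin 3) X β φ => (ZbQ D v (qe s t) k w, FQ v t k w))
      (fun w => e < |rS h v s t k w (FQ v t k w) - 1|) := by
  intro a b hab
  have h1 : ZbQ D v (qe s t) k a = ZbQ D v (qe s t) k b := (Prod.mk.inj hab).1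
  have h2 : FQ v t k a = FQ v t k b := (Prod.mk.inj hab).2
  have h3 : ZbQ D v (qs s t) k a = ZbQ D v (qs s t) k b := ZbQ_mono (qs_le_qe s t) k a b h1
  have h4 : ∀ y x, rr (D.P h t) (ZbQ D v (qs s t) k) (FQ v t k) (ZbQ D v (qe s t) k) a y x =
      rr (D.P h t) (ZbQ D v (qs s t) k) (FQ v t k) (ZbQ D v (qe s t) k) b y x := fun y x =>
    rr_fac (D.P h t) (ZbQ D v (qs s t) k) (FQ v t k) (ZbQ D v (qe s t) k) y x a b h3
  show (e < |rS h v s t k a (FQ v t k a) - 1|) = (e < |rS h v s t k b (FQ v t k b) - 1|)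
  unfold rS
  rw [h1, h2, h4]

/-- the ratio from the state `5 t` through the step -/
theorem rT_mul {t : ℕ} {i : Fin 3} {w : Pt (Fin 3) X β φ} (hw : (D.P h t).p w ≠ 0) :
    rT h v t (5 * t + 2) i w = rS h v 2 t i w (FQ v t i w) * rT h v t (5 * t + 1) i w := by
  rw [rS_eq h 2 t i hw (FQ v t i w)]
  unfold rT
  show _ = (D.P h t).pv (ZbQ D v (5 * t + 2) i) (FQ v t i) w (FQ v t i w) /
    (D.P h t).pv (ZbQ D v (5 * t + 1) i) (FQ v t i) w (FQ v t i w) * _
  have h1 : 0 < (D.P h t).pv (ZbQ D v (5 * t + 1) i) (FQ v t i) w (FQ v t i w) := (D.P h t).pv_self_pos _ _ hw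
  field_simp

theorem rT_one {t : ℕ} {i : Fin 3} {w : Pt (Fin 3) X β φ} (hw : (D.P h t).p w ≠ 0) :
    rT h v t (5 * t + 1) i w = rS h v 0 t i w (FQ v t i w) := by
  rw [rS_eq h 0 t i hw (FQ v t i w)]
  rfl

theorem pN_pos {t q : ℕ} {w : Pt (Fin 3) X β φ} (hw : (D.P h t).p w ≠ 0) : 0 < pN h v t q w :=
  div_pos ((D.P h t).m_pos _ hw) ((D.P h t).m_pos _ hw)

/-- the dead points -/
def DD (p : AP) (T : ℕ) : ℝ := (D.P h T).Pr (fun w => ¬ Ar h v p (2 * T) w)

variable {dg : ℕ → X → ℝ} {prr : ℕ → Fin 3 → φ → φ} {T : ℕ} {Lam n N1 : ℝ}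

/-- the points which die at a digit and at the codes, law of the time `t` -/
theorem dying (H : D.Hyp dg prr al T Lam) (p : AP) :
    ∑ t ∈ range T, (D.P h t).Pr (fun w => Ar h v p (2 * t) w ∧ ¬ Ar h v p (2 * t + 1) w) ≤ DD h (v := v) p T ∧
    ∑ t ∈ range T, (D.P h t).Pr (fun w => Ar h v p (2 * t + 1) w ∧ ¬ Ar h v p (2 * (t + 1)) w) ≤
      DD h (v := v) p T := by
  have h1 := TT.killT (h := h) (T := T) H (a := Ar h v p) (fun r w hw => Ar_mono h p (Nat.le_succ r) hw)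
    (fun r x y F F' => propext (Ar_lab h p r x y F F'))
  have e : ∀ t, (D.P h (t + 1)).Pr (fun w => Ar h v p (2 * t + 1) w ∧ ¬ Ar h v p (2 * (t + 1)) w) =
      (D.P h t).Pr (fun w => Ar h v p (2 * t + 1) w ∧ ¬ Ar h v p (2 * (t + 1)) w) := fun t => by
    refine Pr_xy h (fun x y F F' => ?_) (t + 1) t
    show (_ ∧ ¬ _) = (_ ∧ ¬ _)
    rw [propext (Ar_lab h p (2 * t + 1) x y F F'), propext (Ar_lab h p (2 * (t + 1)) x y F F')]
  simp only [e] at h1
  rw [Finset.sum_add_distrib] at h1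
  have h2 : 0 ≤ ∑ t ∈ range T, (D.P h t).Pr (fun w => Ar h v p (2 * t) w ∧ ¬ Ar h v p (2 * t + 1) w) :=
    Finset.sum_nonneg fun t _ => FP.Pr_nonneg _ _
  have h3 : 0 ≤ ∑ t ∈ range T, (D.P h t).Pr (fun w => Ar h v p (2 * t + 1) w ∧ ¬ Ar h v p (2 * (t + 1)) w) :=
    Finset.sum_nonneg fun t _ => FP.Pr_nonneg _ _
  exact ⟨by unfold DD; linarith, by unfold DD; linarith⟩

/-- the active tops over the run, one step -/
theorem ris_sum (H : D.Hyp dg prr al T Lam) (R : Run h (pr3 (Fin 3) n N1) (SS1 (Fin 3)) (AdmDep D) v) (hn : 1 ≤ n)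
    (hN1 : 1 ≤ N1) (s : Fin 6) (k : Fin 3) {e : ℝ} (he : 0 < e) (he1 : e ≤ 1) :
    ∑ t ∈ range T, (D.P h t).Pr (fun w => e < |rS h v s t k w (FQ v t k w) - 1|) ≤ 240 * Lam / e ^ 2 := by
  classical
  have h1 := ga_real h H R hn hN1 k he he1 (aw := fun s' _ _ => if s' = s then 1 else 0)
    (fun s' _ _ => by
      show (if s' = s then (1 : ℝ) else 0) ≤ 1
      split_ifs <;> norm_num)
  refine le_trans (Finset.sum_le_sum fun t _ => ?_) h1
  rw [Finset.sum_eq_single s (fun s' _ hne => by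
    have e0 : (fun w : Pt (Fin 3) X β φ => (if s' = s then (1 : ℝ) else 0) *
        ind (e < |rS h v s' t k w (FQ v t k w) - 1|)) = fun _ => 0 := by
      funext w
      rw [if_neg hne, zero_mul]
    rw [e0, FP.E_const]) (fun hh => absurd (mem_univ s) hh)]
  unfold FP.Pr
  refine (D.P h t).E_mono fun w _ => ?_
  rw [if_pos rfl, one_mul]

/-- **PAIRS OF AN EXACT VERTEX** : the part with `ok`, from the bound of one time -/
theorem ok_part (H : D.Hyp dg prr al T Lam) (R : Run h (pr3 (Fin 3) n N1) (SS1 (Fin 3)) (AdmDep D) v) (hn : 1 ≤ n)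
    (hN1 : 1 ≤ N1) (p : AP) {s : Fin 6} (hs : s = 0 ∨ s = 2 ∨ s = 5)
    {i k b : Fin 3} (hik : i ≠ k) (hib : i ≠ b) (hkb : k ≠ b) {B e y eps : ℝ} (he : 0 < e) (he1 : e ≤ 1)
    (hp : 0 < eps) (hp1 : eps ≤ 1) (hy : 0 < y) (hBe : 16 ≤ B * eps)
    (one : ∀ t < T, (D.P h t).Pr (fun w => AQ h v p (5 * t) w ∧ AQ h v p (qe s t) w ∧ ok h v eps s t b k w ∧
        sup h v B s t i w ∧ e < |rS h v s t k w (FQ v t k w) - 1|) ≤
      y * (D.P h t).Pr (fun w => e < |rS h v s t k w (FQ v t k w) - 1|) +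
      1 / y * Real.exp (20 + 8 * (p.X0 + p.X1) + 8 * Real.log (1 / eps) - N1 * y / 64) *
        (D.P h t).Pr (fun w => ok h v eps s t b k w ∧ sup h v B s t i w)) :
    ∑ t ∈ range T, (D.P h t).Pr (fun w => AQ h v p (5 * t) w ∧ AQ h v p (qe s t) w ∧ ok h v eps s t b k w ∧
      stw h v B e s t i k w) ≤ HB Lam n N1 p.X0 p.X1 eps e y := by
  have k1 : ∀ t ∈ range T, (D.P h t).Pr (fun w => AQ h v p (5 * t) w ∧ AQ h v p (qe s t) w ∧ ok h v eps s t b k w ∧
      stw h v B e s t i k w) ≤ y * (D.P h t).Pr (fun w => e < |rS h v s t k w (FQ v t k w) - 1|) +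
        1 / y * Real.exp (20 + 8 * (p.X0 + p.X1) + 8 * Real.log (1 / eps) - N1 * y / 64) *
        (D.P h t).Pr (fun w => ok h v eps s t b k w ∧ sup h v B s t i w) := by
    intro t ht
    refine le_trans ?_ (one t (Finset.mem_range.1 ht))
    unfold FP.Pr
    refine (D.P h t).E_mono fun w hw => ind_mono ?_
    rintro ⟨a1, a2, a3, a4, a5⟩
    exact ⟨a1, a2, a3, rS_sup h hw a4, a5⟩
  refine (Finset.sum_le_sum k1).trans ?_
  rw [Finset.sum_add_distrib, ← Finset.mul_sum, ← Finset.mul_sum]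
  unfold HB
  refine add_le_add (mul_le_mul_of_nonneg_left (ris_sum h H R hn hN1 s k he he1) hy.le) ?_
  exact mul_le_mul_of_nonneg_left (sup_countX h H R hn hN1 hib hik hkb hBe hp hp1 hs) (by positivity)

section par

variable (H : D.Hyp dg prr al T Lam) (R : Run h (pr3 (Fin 3) n N1) (SS1 (Fin 3)) (AdmDep D) v) (hn : 1 ≤ n)
    (hN1 : 1 ≤ N1) (p : AP) (hX0 : 0 ≤ p.X0) (hX1 : 0 ≤ p.X1) {i k b : Fin 3} (hik : i ≠ k) (hib : i ≠ b) (hkb : k ≠ b)
    {B e y eps0 eps1 c : ℝ} (hB : 2 ≤ B) (he : 0 < e) (he1 : e ≤ 1) (h0 : 0 < eps0) (h01 : eps0 ≤ 1 / 64)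
    (h1 : 0 < eps1) (h11 : eps1 ≤ 1 / 16) (hy : 0 < y) (hy1 : y ≤ 1) (h128 : 128 ≤ B * (eps0 * eps1))
    (hyN : 10 ^ 4 * (1 + p.X0 + p.X1 + Real.log (1 / (eps0 * eps1))) ≤ N1 * y)

include H R hn hN1 hX0 hX1 hik hib hkb hB he he1 hy hy1

include h0 h01 h1 h11 h128 hyN in
/-- **DIGIT**, one pair -/
theorem hv0 : ∑ t ∈ range T, (D.P h t).Pr (fun w => Ar h v p (2 * t) w ∧ stw h v B e 0 t i k w) ≤
    HB Lam n N1 p.X0 p.X1 (eps0 * eps1) e y + XB Lam eps0 eps1 + PB Lam eps0 + DD h (v := v) p T := by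
  classical
  have hp : 0 < eps0 * eps1 := mul_pos h0 h1
  have hp1 : eps0 * eps1 ≤ 1 := mul_le_one₀ (by linarith) h1.le (by linarith)
  have k1 := ok_part h H R hn hN1 p (s := 0) (Or.inl rfl) hik hib hkb he he1 hp hp1 hy (by linarith)
    fun t ht => pair_rare1 h H R hn hN1 p hX0 hX1 ht (Or.inl rfl) hik hib hkb (by linarith) hp hp1 hy hy1 h128 hyN
      (ris_fac h e 0 t k)
  have k2 := act_exact h H R hn hN1 (j := 1) (Or.inl rfl) hib (e := 1 / 2) (by norm_num) (by norm_num) h0 (by linarith)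
    h1 h11
  have k3 := act_pub h H R hn hN1 (j := 1) (Or.inl rfl) (i := i) (e := 1 / 2) (by norm_num) (by norm_num) h0 h01
  have k4 := (dying h H p (v := v)).1
  have key : ∀ t ∈ range T, (D.P h t).Pr (fun w => Ar h v p (2 * t) w ∧ stw h v B e 0 t i k w) ≤
      (D.P h t).Pr (fun w => AQ h v p (5 * t) w ∧ AQ h v p (qe 0 t) w ∧ ok h v (eps0 * eps1) 0 t b k w ∧
        stw h v B e 0 t i k w) +
      (D.P h t).Pr (fun w => eps0 ≤ pN h v t (5 * t + 1) w ∧ pX h v t (5 * t + 1) b w < eps1 * pN h v t (5 * t + 1) w ∧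
        1 / 2 < |rT h v t (5 * t + 1) i w - 1|) +
      (D.P h t).Pr (fun w => (1 = 2 → HV h v t w) ∧ pN h v t (5 * t + 1) w < eps0 ∧
        1 / 2 < |rT h v t (5 * t + 1) i w - 1|) +
      (D.P h t).Pr (fun w => Ar h v p (2 * t) w ∧ ¬ Ar h v p (2 * t + 1) w) := by
    intro t _
    unfold FP.Pr
    rw [← FP.E_add, ← FP.E_add, ← FP.E_add]
    refine (D.P h t).E_mono fun w hw => ?_
    have n1 := ind_nonneg (AQ h v p (5 * t) w ∧ AQ h v p (qe 0 t) w ∧ ok h v (eps0 * eps1) 0 t b k w ∧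
        stw h v B e 0 t i k w)
    have n2 := ind_nonneg (eps0 ≤ pN h v t (5 * t + 1) w ∧ pX h v t (5 * t + 1) b w < eps1 * pN h v t (5 * t + 1) w ∧
        1 / 2 < |rT h v t (5 * t + 1) i w - 1|)
    have n3 := ind_nonneg ((1 = 2 → HV h v t w) ∧ pN h v t (5 * t + 1) w < eps0 ∧
        1 / 2 < |rT h v t (5 * t + 1) i w - 1|)
    have n4 := ind_nonneg (Ar h v p (2 * t) w ∧ ¬ Ar h v p (2 * t + 1) w)
    by_cases hA : Ar h v p (2 * t) w ∧ stw h v B e 0 t i k w
    · rw [ind_of hA]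
      obtain ⟨a1, a2⟩ := hA
      have hr : 1 / 2 < |rT h v t (5 * t + 1) i w - 1| := by
        rw [rT_one h hw]
        have := a2.1
        exact lt_of_lt_of_le (by linarith) (le_abs_self _)
      by_cases c1 : Ar h v p (2 * t + 1) w
      · by_cases c2 : eps0 * eps1 ≤ pX h v t (5 * t + 1) b w
        · have g : AQ h v p (5 * t) w ∧ AQ h v p (qe 0 t) w ∧ ok h v (eps0 * eps1) 0 t b k w ∧
              stw h v B e 0 t i k w := ⟨AQ_0 h p a1, AQ_1 h p c1, ⟨fun _ => c2, fun hh => absurd hh (by decide)⟩, a2⟩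
          rw [ind_of g]
          linarith
        · by_cases c3 : eps0 ≤ pN h v t (5 * t + 1) w
          · have g : eps0 ≤ pN h v t (5 * t + 1) w ∧ pX h v t (5 * t + 1) b w < eps1 * pN h v t (5 * t + 1) w ∧
                1 / 2 < |rT h v t (5 * t + 1) i w - 1| := by
              refine ⟨c3, ?_, hr⟩
              have := mul_le_mul_of_nonneg_left c3 h1.le
              have c2' := not_le.1 c2
              linarith
            rw [ind_of g]
            linarith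
          · have g : (1 = 2 → HV h v t w) ∧ pN h v t (5 * t + 1) w < eps0 ∧
                1 / 2 < |rT h v t (5 * t + 1) i w - 1| := ⟨fun hh => absurd hh (by norm_num), not_le.1 c3, hr⟩
            rw [ind_of g]
            linarith
      · have g : Ar h v p (2 * t) w ∧ ¬ Ar h v p (2 * t + 1) w := ⟨a1, c1⟩
        rw [ind_of g]
        linarith
    · rw [ind_not hA]
      linarith
  refine (Finset.sum_le_sum key).trans ?_
  rw [Finset.sum_add_distrib, Finset.sum_add_distrib, Finset.sum_add_distrib]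
  unfold XB PB
  linarith

include h0 h01 h1 h11 h128 hyN in
/-- **HEAVY PUBLIC VALUE**, one pair -/
theorem hv2 (hc : 0 < c) (hc1 : c ≤ 1 / 2) (hBc : 2 ≤ B * c) :
    ∑ t ∈ range T, (D.P h t).Pr (fun w => (Ar h v p (2 * t + 1) w ∧ HV h v t w) ∧ stw h v B e 2 t i k w) ≤
    HB Lam n N1 p.X0 p.X1 (eps0 * eps1) e y + XB Lam eps0 eps1 + PB Lam eps0 + c * (1000 * Lam) +
      DD h (v := v) p T := by
  classical
  have hp : 0 < eps0 * eps1 := mul_pos h0 h1
  have hp1 : eps0 * eps1 ≤ 1 := mul_le_one₀ (by linarith) h1.le (by linarith)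
  have k1 := ok_part h H R hn hN1 p (s := 2) (Or.inr (Or.inl rfl)) hik hib hkb he he1 hp hp1 hy (by linarith)
    fun t ht => pair_rare1 h H R hn hN1 p hX0 hX1 ht (Or.inr rfl) hik hib hkb (by linarith) hp hp1 hy hy1 h128 hyN
      (ris_fac h e 2 t k)
  have k2 := act_exact h H R hn hN1 (j := 2) (Or.inr rfl) hib (e := 1 / 2) (by norm_num) (by norm_num) h0 (by linarith)
    h1 h11
  have k3 := act_pub h H R hn hN1 (j := 2) (Or.inr rfl) (i := i) (e := 1 / 2) (by norm_num) (by norm_num) h0 h01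
  have k4 := (dying h H p (v := v)).2
  have k5 := dig_sup h H R hn hN1 (i := i) hc hc1
  have key : ∀ t ∈ range T, (D.P h t).Pr (fun w => (Ar h v p (2 * t + 1) w ∧ HV h v t w) ∧ stw h v B e 2 t i k w) ≤
      (D.P h t).Pr (fun w => AQ h v p (5 * t) w ∧ AQ h v p (qe 2 t) w ∧ ok h v (eps0 * eps1) 2 t b k w ∧
        stw h v B e 2 t i k w) +
      (D.P h t).Pr (fun w => eps0 ≤ pN h v t (5 * t + 2) w ∧ pX h v t (5 * t + 2) b w < eps1 * pN h v t (5 * t + 2) w ∧
        1 / 2 < |rT h v t (5 * t + 2) i w - 1|) +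
      (D.P h t).Pr (fun w => (2 = 2 → HV h v t w) ∧ pN h v t (5 * t + 2) w < eps0 ∧
        1 / 2 < |rT h v t (5 * t + 2) i w - 1|) +
      (D.P h t).Pr (fun w => rS h v 0 t i w (FQ v t i w) < c) +
      (D.P h t).Pr (fun w => Ar h v p (2 * t + 1) w ∧ ¬ Ar h v p (2 * (t + 1)) w) := by
    intro t _
    unfold FP.Pr
    rw [← FP.E_add, ← FP.E_add, ← FP.E_add, ← FP.E_add]
    refine (D.P h t).E_mono fun w hw => ?_
    have n1 := ind_nonneg (AQ h v p (5 * t) w ∧ AQ h v p (qe 2 t) w ∧ ok h v (eps0 * eps1) 2 t b k w ∧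
        stw h v B e 2 t i k w)
    have n2 := ind_nonneg (eps0 ≤ pN h v t (5 * t + 2) w ∧ pX h v t (5 * t + 2) b w < eps1 * pN h v t (5 * t + 2) w ∧
        1 / 2 < |rT h v t (5 * t + 2) i w - 1|)
    have n3 := ind_nonneg ((2 = 2 → HV h v t w) ∧ pN h v t (5 * t + 2) w < eps0 ∧
        1 / 2 < |rT h v t (5 * t + 2) i w - 1|)
    have n4 := ind_nonneg (Ar h v p (2 * t + 1) w ∧ ¬ Ar h v p (2 * (t + 1)) w)
    have n5 := ind_nonneg (rS h v 0 t i w (FQ v t i w) < c)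
    by_cases hA : (Ar h v p (2 * t + 1) w ∧ HV h v t w) ∧ stw h v B e 2 t i k w
    · rw [ind_of hA]
      obtain ⟨⟨a1, a3⟩, a2⟩ := hA
      by_cases c1 : Ar h v p (2 * (t + 1)) w
      · by_cases c2 : eps0 * eps1 ≤ pX h v t (5 * t + 2) b w
        · have g : AQ h v p (5 * t) w ∧ AQ h v p (qe 2 t) w ∧ ok h v (eps0 * eps1) 2 t b k w ∧
              stw h v B e 2 t i k w := ⟨AQ_0 h p (Ar_mono h p (Nat.le_succ (2 * t)) a1),
                AQ_of h p (j := 2) (le_refl 2) (by norm_num) hw c1, ⟨fun _ => c2, fun hh => absurd hh (by decide)⟩, a2⟩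
          rw [ind_of g]
          linarith
        · by_cases c4 : rS h v 0 t i w (FQ v t i w) < c
          · rw [ind_of c4]
            linarith
          · have hr : 1 / 2 < |rT h v t (5 * t + 2) i w - 1| := by
              rw [rT_mul h hw, rT_one h hw]
              have g1 := a2.1
              have g2 := not_lt.1 c4
              have g3 : B * c ≤ rS h v 2 t i w (FQ v t i w) * rS h v 0 t i w (FQ v t i w) :=
                mul_le_mul g1.le g2 hc.le (by linarith)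
              exact lt_of_lt_of_le (by linarith) (le_abs_self _)
            by_cases c3 : eps0 ≤ pN h v t (5 * t + 2) w
            · have g : eps0 ≤ pN h v t (5 * t + 2) w ∧ pX h v t (5 * t + 2) b w < eps1 * pN h v t (5 * t + 2) w ∧
                  1 / 2 < |rT h v t (5 * t + 2) i w - 1| := by
                refine ⟨c3, ?_, hr⟩
                have := mul_le_mul_of_nonneg_left c3 h1.le
                have c2' := not_le.1 c2
                linarith
              rw [ind_of g]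
              linarith
            · have g : (2 = 2 → HV h v t w) ∧ pN h v t (5 * t + 2) w < eps0 ∧
                  1 / 2 < |rT h v t (5 * t + 2) i w - 1| := ⟨fun _ => a3, not_le.1 c3, hr⟩
              rw [ind_of g]
              linarith
      · have g : Ar h v p (2 * t + 1) w ∧ ¬ Ar h v p (2 * (t + 1)) w := ⟨a1, c1⟩
        rw [ind_of g]
        linarith
    · rw [ind_not hA]
      linarith
  refine (Finset.sum_le_sum key).trans ?_
  rw [Finset.sum_add_distrib, Finset.sum_add_distrib, Finset.sum_add_distrib, Finset.sum_add_distrib]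
  unfold XB PB
  linarith

/-- **PRIVATE CODES**, the two vertices of the strong top are heavy, one pair -/
theorem hv5 (hyB' : 64 / B ≤ y) :
    ∑ t ∈ range T, (D.P h t).Pr (fun w => (Ar h v p (2 * t + 1) w ∧ ¬ lpv h v b t w ∧ ¬ lpv h v k t w) ∧
      stw h v B e 5 t i k w) ≤ HB Lam n N1 p.X0 p.X1 1 e y + DD h (v := v) p T := by
  classical
  have hB0 : 0 < B := by linarith
  have h64' : 64 ≤ B * 1 := by
    have h2 := hyB'.trans hy1
    rw [div_le_iff₀ hB0] at h2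
    linarith
  have k1 := ok_part h H R hn hN1 p (s := 5) (Or.inr (Or.inr rfl)) hik hib hkb (B := B) he he1
    (eps := 1) one_pos le_rfl hy (by linarith)
    fun t ht => pair_rare h H R hn hN1 p hX0 hX1 ht (Or.inr (Or.inr rfl)) hik hib hkb (by linarith) one_pos le_rfl hy hy1
      (by rw [mul_one]; exact hyB') (ris_fac h e 5 t k)
  have k4 := (dying h H p (v := v)).2
  have key : ∀ t ∈ range T, (D.P h t).Pr (fun w => (Ar h v p (2 * t + 1) w ∧ ¬ lpv h v b t w ∧ ¬ lpv h v k t w) ∧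
        stw h v B e 5 t i k w) ≤
      (D.P h t).Pr (fun w => AQ h v p (5 * t) w ∧ AQ h v p (qe 5 t) w ∧ ok h v 1 5 t b k w ∧
        stw h v B e 5 t i k w) +
      (D.P h t).Pr (fun w => Ar h v p (2 * t + 1) w ∧ ¬ Ar h v p (2 * (t + 1)) w) := by
    intro t _
    unfold FP.Pr
    rw [← FP.E_add]
    refine (D.P h t).E_mono fun w hw => ?_
    have n1 := ind_nonneg (AQ h v p (5 * t) w ∧ AQ h v p (qe 5 t) w ∧ ok h v 1 5 t b k w ∧ stw h v B e 5 t i k w)
    have n4 := ind_nonneg (Ar h v p (2 * t + 1) w ∧ ¬ Ar h v p (2 * (t + 1)) w)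
    by_cases hA : (Ar h v p (2 * t + 1) w ∧ ¬ lpv h v b t w ∧ ¬ lpv h v k t w) ∧ stw h v B e 5 t i k w
    · rw [ind_of hA]
      obtain ⟨⟨a1, a3, a4⟩, a2⟩ := hA
      by_cases c1 : Ar h v p (2 * (t + 1)) w
      · have g : AQ h v p (5 * t) w ∧ AQ h v p (qe 5 t) w ∧ ok h v 1 5 t b k w ∧ stw h v B e 5 t i k w :=
          ⟨AQ_0 h p (Ar_mono h p (Nat.le_succ (2 * t)) a1), AQ_0 h p (t := t + 1) c1,
            ⟨fun hh => absurd rfl hh, fun _ => ⟨a3, a4⟩⟩, a2⟩
        rw [ind_of g]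
        linarith
      · have g : Ar h v p (2 * t + 1) w ∧ ¬ Ar h v p (2 * (t + 1)) w := ⟨a1, c1⟩
        rw [ind_of g]
        linarith
    · rw [ind_not hA]
      linarith
  refine (Finset.sum_le_sum key).trans ?_
  rw [Finset.sum_add_distrib]
  linarith

end par

/-! ### all pairs -/

/-- the third vertex -/
theorem third (i k : Fin 3) (hik : i ≠ k) : ∃ b : Fin 3, i ≠ b ∧ k ≠ b ∧ ∀ j, j ≠ i → j = k ∨ j = b := by
  revert i k
  decide

/-- pairs of tops -/
def prs : Finset (Fin 3 × Fin 3) := univ.filter fun x => x.1 ≠ x.2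

theorem prs_card : prs.card = 6 := by decide

/-- union over the pairs -/
theorem pairs_le {Om : Type*} [Fintype Om] (P : ℕ → FP Om) (T : ℕ) {A : ℕ → Om → Prop}
    {S : ℕ → Fin 3 → Fin 3 → Om → Prop} {c : ℝ}
    (hc : ∀ i k, i ≠ k → ∑ t ∈ range T, (P t).Pr (fun w => A t w ∧ S t i k w) ≤ c) :
    ∑ t ∈ range T, (P t).Pr (fun w => A t w ∧ ∃ i k, i ≠ k ∧ S t i k w) ≤ 6 * c := by
  classical
  have h1 : ∀ t ∈ range T, (P t).Pr (fun w => A t w ∧ ∃ i k, i ≠ k ∧ S t i k w) ≤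
      ∑ x ∈ prs, (P t).Pr (fun w => A t w ∧ S t x.1 x.2 w) := by
    intro t _
    refine le_trans ?_ ((P t).Pr_ex_le prs fun x w => A t w ∧ S t x.1 x.2 w)
    unfold FP.Pr
    refine (P t).E_mono fun w _ => ind_mono ?_
    rintro ⟨a1, i, k, hik, a2⟩
    exact ⟨(i, k), Finset.mem_filter.2 ⟨mem_univ _, hik⟩, a1, a2⟩
  refine (Finset.sum_le_sum h1).trans ?_
  rw [Finset.sum_comm]
  have h2 := Finset.sum_le_sum fun x (hx : x ∈ prs) => hc x.1 x.2 (Finset.mem_filter.1 hx).2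
  rw [Finset.sum_const, prs_card, nsmul_eq_mul] at h2
  exact h2

/-- the total -/
def HVB (Lam n N1 X0 X1 e y y5 eps0 eps1 c dd : ℝ) : ℝ :=
  6 * (HB Lam n N1 X0 X1 (eps0 * eps1) e y + XB Lam eps0 eps1 + PB Lam eps0 + dd) +
  6 * (HB Lam n N1 X0 X1 (eps0 * eps1) e y + XB Lam eps0 eps1 + PB Lam eps0 + c * (1000 * Lam) + dd) +
  6 * (HB Lam n N1 X0 X1 1 e y5 + dd)

/-- **HEAVY VALUES AND DIGITS** : a strong top and another active top, alive points of the digit, of the heavy public values,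
and of the private codes where the two vertices of the strong top are heavy -/
theorem hvs (H : D.Hyp dg prr al T Lam) (R : Run h (pr3 (Fin 3) n N1) (SS1 (Fin 3)) (AdmDep D) v) (hn : 1 ≤ n)
    (hN1 : 1 ≤ N1) (p : AP) (hX0 : 0 ≤ p.X0) (hX1 : 0 ≤ p.X1) {Gd : ℕ → Pt (Fin 3) X β φ → Prop}
    {A : Fin 6 → ℕ → Pt (Fin 3) X β φ → Prop} (hA : ∀ s t w, A s t w → aS h v p Gd s t w)
    {B e y y5 eps0 eps1 c : ℝ} (hB : 2 ≤ B) (he : 0 < e) (he1 : e ≤ 1) (h0 : 0 < eps0) (h01 : eps0 ≤ 1 / 64)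
    (h1 : 0 < eps1) (h11 : eps1 ≤ 1 / 16) (hy : 0 < y) (hy1 : y ≤ 1) (h128 : 128 ≤ B * (eps0 * eps1))
    (hyN : 10 ^ 4 * (1 + p.X0 + p.X1 + Real.log (1 / (eps0 * eps1))) ≤ N1 * y)
    (hy5 : 0 < y5) (hy51 : y5 ≤ 1) (hyB : 64 / B ≤ y5) (hc : 0 < c) (hc1 : c ≤ 1 / 2) (hBc : 2 ≤ B * c) :
    ∑ t ∈ range T, (D.P h t).Pr (fun w => A 0 t w ∧ ∃ i k, i ≠ k ∧ stw h v B e 0 t i k w) +
    ∑ t ∈ range T, (D.P h t).Pr (fun w => A 2 t w ∧ ∃ i k, i ≠ k ∧ stw h v B e 2 t i k w) +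
    ∑ t ∈ range T, (D.P h t).Pr (fun w => A 5 t w ∧ ∃ i k, i ≠ k ∧ (∀ j, j ≠ i → ¬ lpv h v j t w) ∧
      stw h v B e 5 t i k w) ≤ HVB Lam n N1 p.X0 p.X1 e y y5 eps0 eps1 c (DD h (v := v) p T) := by
  classical
  unfold HVB
  refine add_le_add (add_le_add ?_ ?_) ?_
  · refine pairs_le (fun t => D.P h t) T (A := A 0) (S := fun t i k w => stw h v B e 0 t i k w) fun i k hik => ?_
    obtain ⟨b, hib, hkb, _⟩ := third i k hik
    refine le_trans (Finset.sum_le_sum fun t _ => ?_) (hv0 h H R hn hN1 p hX0 hX1 hik hib hkb hB he he1 h0 h01 h1 h11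
      hy hy1 h128 hyN)
    unfold FP.Pr
    exact (D.P h t).E_mono fun w _ => ind_mono fun hh => ⟨(show _ ∧ _ from hA 0 t w hh.1).1, hh.2⟩
  · refine pairs_le (fun t => D.P h t) T (A := A 2) (S := fun t i k w => stw h v B e 2 t i k w) fun i k hik => ?_
    obtain ⟨b, hib, hkb, _⟩ := third i k hik
    refine le_trans (Finset.sum_le_sum fun t _ => ?_) (hv2 h H R hn hN1 p hX0 hX1 hik hib hkb hB he he1 h0 h01 h1 h11
      hy hy1 h128 hyN hc hc1 hBc)
    unfold FP.Pr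
    exact (D.P h t).E_mono fun w _ => ind_mono fun hh => ⟨hA 2 t w hh.1, hh.2⟩
  · refine pairs_le (fun t => D.P h t) T (A := A 5) (S := fun t i k w => (∀ j, j ≠ i → ¬ lpv h v j t w) ∧
      stw h v B e 5 t i k w) fun i k hik => ?_
    obtain ⟨b, hib, hkb, _⟩ := third i k hik
    refine le_trans (Finset.sum_le_sum fun t _ => ?_) (hv5 h H R hn hN1 p hX0 hX1 hik hib hkb hB he he1 hy5 hy51 hyB)
    unfold FP.Pr
    refine (D.P h t).E_mono fun w _ => ind_mono fun hh => ?_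
    exact ⟨⟨(show _ ∧ _ from hA 5 t w hh.1).1, hh.2.1 b (Ne.symm hib), hh.2.1 k (Ne.symm hik)⟩, hh.2.2⟩

end

end Pool.Agent.GMH.Hv
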