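import Pool.Agent.GMH.GamR
import Pool.Agent.GMH.Rare
import Pool.Agent.GMH.TriB

/-!
# GMH/HvWa (helper19): DEVIATION OF A LABEL EVENT WITH A LOGARITHMIC WEIGHT (for GMH/HvW, two rising tops)

`QC` = law of a class, `QD` = law of the class and the additions, `QV` = law of a smaller event, `Pb` = reference law of the
letter `Z`; `A` = event of (label `F`, letter `Z`).
* `fwd_f`, `bwd_f` : means of a function `0 ≤ f ≤ 1` of the letter and the relative entropy;
* **`dev`** : `θ QV(A) ≤ klc (QV, QC) (F | Z) + θ (kl (QV, Pb) + 4 kl (QD, Pb)) + 4 (e^θ - 1) QD (QC (A | Z))`;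
* `cmp` : `QD (QC (A | Z)) ≤ K QD (A)` if the density of the labels of `A` is at least `1 / K`.
-/

set_option autoImplicit false
set_option linter.unusedSectionVars false

namespace Pool.Agent.GMH.Hv.Tw

open Finset Pool.Agent.PWZ Pool.Agent.M3 Pool.Agent.GMH

noncomputable section

variable {Om : Type*} [Fintype Om] {P Q : FP Om} {κ ι : Type*}

theorem exp_le2 {u : ℝ} (h0 : 0 ≤ u) (h1 : u ≤ 1) : Real.exp u - 1 ≤ 2 * u := by
  have h2 := Real.abs_exp_sub_one_sub_id_le (x := u) (by rw [abs_of_nonneg h0]; exact h1)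
  have h3 := (abs_le.1 h2).2
  nlinarith

theorem exp_neg_le {u : ℝ} (h0 : 0 ≤ u) (h1 : u ≤ 1) : Real.exp (-u) - 1 ≤ -(1 / 2) * u := by
  have h2 := Real.add_one_le_exp u
  have h3 : 0 < Real.exp u := Real.exp_pos u
  have h4 : Real.exp (-u) ≤ 1 / (1 + u) := by
    rw [Real.exp_neg, inv_eq_one_div]
    exact one_div_le_one_div_of_le (by linarith) (by linarith)
  have h5 : 1 / (1 + u) ≤ 1 - 1 / 2 * u := by
    rw [div_le_iff₀ (by linarith)]
    nlinarith
  linarith

/-- mean of a function of the letter, forwards -/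
theorem fwd_f (hac : Q.Ac P) {L : Om → κ} {f : Om → ℝ} (hf : Fac L f) (h0 : ∀ w, 0 ≤ f w) (h1 : ∀ w, f w ≤ 1) :
    Q.E f ≤ Q.kl P L + 2 * P.E f := by
  have h2 := FP.dv' hac (X := L) (ψ := f) hf
  have h3 : P.E (fun w => Real.exp (f w) - 1) ≤ 2 * P.E f := by
    rw [← FP.E_smul]
    exact P.E_mono fun w _ => exp_le2 (h0 w) (h1 w)
  linarith

/-- mean of a function of the letter, backwards -/
theorem bwd_f (hac : Q.Ac P) {L : Om → κ} {f : Om → ℝ} (hf : Fac L f) (h0 : ∀ w, 0 ≤ f w) (h1 : ∀ w, f w ≤ 1) :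
    P.E f ≤ 2 * (Q.kl P L + Q.E f) := by
  have h2 := FP.dv' hac (X := L) (ψ := fun w => - f w) (fun a b hab => by
    show - f a = - f b
    rw [hf a b hab])
  have h3 : P.E (fun w => Real.exp (- f w) - 1) ≤ -(1 / 2) * P.E f := by
    rw [← FP.E_smul]
    exact P.E_mono fun w _ => exp_neg_le (h0 w) (h1 w)
  rw [FP.E_neg] at h2
  linarith

/-- a conditional probability is at most one -/
theorem ce_le1 (P : FP Om) (Z : Om → κ) (A : Om → Prop) (w : Om) : P.ce Z (fun v => ind (A v)) w ≤ 1 := by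
  unfold FP.ce
  refine div_le_one_of_le₀ ?_ (P.m_nonneg Z w)
  refine P.E_mono fun v _ => ?_
  exact mul_le_of_le_one_right (ind_nonneg _) (ind_le_one _)

/-- **DEVIATION** -/
theorem dev {QV QD QC Pb : FP Om} (hVC : QV.Ac QC) (hVb : QV.Ac Pb) (hDb : QD.Ac Pb) {F : Om → κ} {Z : Om → ι}
    {A : Om → Prop} (hA : Fac (fun w => (F w, Z w)) A) {th : ℝ} (hth : 0 < th) :
    th * QV.Pr A ≤ QV.klc QC F Z + th * (QV.kl Pb Z + 4 * QD.kl Pb Z) +
      4 * ((Real.exp th - 1) * QD.E (QC.ce Z (fun v => ind (A v)))) := by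
  have hm : 0 ≤ Real.exp th - 1 := by
    have := Real.add_one_le_exp th
    linarith
  set f : Om → ℝ := QC.ce Z (fun v => ind (A v)) with hf
  have f0 : ∀ w, 0 ≤ f w := fun w => QC.ce_nonneg (fun _ _ => ind_nonneg _) w
  have f1 : ∀ w, f w ≤ 1 := fun w => ce_le1 QC Z A w
  have ff : Fac Z f := QC.ce_fac Z _
  -- the exponential moment
  have hce : ∀ w, QC.p w ≠ 0 → QC.ce Z (fun v => Real.exp (th * ind (A v))) w = 1 + (Real.exp th - 1) * f w := by
    intro w hw
    have e1 : (fun v => Real.exp (th * ind (A v))) = fun v => 1 + (Real.exp th - 1) * ind (A v) := by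
      funext v
      by_cases hv : A v
      · rw [ind_of hv, mul_one, mul_one]
        ring
      · rw [ind_not hv, mul_zero, mul_zero, Real.exp_zero, add_zero]
    rw [e1]
    have e2 : QC.ce Z (fun v => 1 + (Real.exp th - 1) * ind (A v)) w =
        QC.ce Z (fun _ => (1 : ℝ)) w + (Real.exp th - 1) * f w := by
      rw [hf]
      unfold FP.ce
      rw [← mul_div_assoc, ← add_div, ← FP.E_smul, ← FP.E_add]
      congr 1
      refine QC.E_congr fun v _ => ?_
      ring
    rw [e2, QC.ce_const Z 1 hw]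
  set psi : Om → ℝ := fun w => Real.log (1 + (Real.exp th - 1) * f w) with hpsi
  have p0 : ∀ w, 0 ≤ psi w := fun w => Real.log_nonneg (by have := mul_nonneg hm (f0 w); linarith)
  have pth : ∀ w, psi w ≤ th := fun w => by
    have h1 : 1 + (Real.exp th - 1) * f w ≤ Real.exp th := by
      have := mul_le_mul_of_nonneg_left (f1 w) hm
      linarith
    have h2 := Real.log_le_log (by have := mul_nonneg hm (f0 w); linarith) h1
    rwa [Real.log_exp] at h2
  have plin : ∀ w, psi w ≤ (Real.exp th - 1) * f w := fun w => by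
    have h1 := Real.log_le_sub_one_of_pos (x := 1 + (Real.exp th - 1) * f w) (by have := mul_nonneg hm (f0 w); linarith)
    linarith
  have k1 := klc_dv hVC F Z (f := fun w => th * ind (A w)) (hA.comp (fun q => th * ind q))
  rw [FP.E_smul] at k1
  have k2 : QV.E (fun w => Real.log (QC.ce Z (fun v => Real.exp (th * ind (A v))) w)) = QV.E psi :=
    QV.E_congr fun w hw => by rw [hce w (hVC w hw)]
  rw [k2] at k1
  -- normalised
  have fp : Fac Z (fun w => psi w / th) := fun a b hab => by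
    show Real.log (1 + (Real.exp th - 1) * f a) / th = Real.log (1 + (Real.exp th - 1) * f b) / th
    rw [ff a b hab]
  have q0 : ∀ w, 0 ≤ psi w / th := fun w => div_nonneg (p0 w) hth.le
  have q1 : ∀ w, psi w / th ≤ 1 := fun w => by
    rw [div_le_one hth]
    exact pth w
  have k3 := fwd_f hVb fp q0 q1
  have k4 := bwd_f hDb fp q0 q1
  have e1 : ∀ R : FP Om, R.E (fun w => psi w / th) = R.E psi / th := fun R => FP.E_div_const _ _ _
  rw [e1, e1] at k3
  rw [e1, e1] at k4
  have k5 : QD.E psi ≤ (Real.exp th - 1) * QD.E f := by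
    rw [← FP.E_smul]
    exact QD.E_mono fun w _ => plin w
  have k6 : QV.E psi ≤ th * QV.kl Pb Z + 2 * Pb.E psi := by
    have := mul_le_mul_of_nonneg_left k3 hth.le
    have e2 : th * (QV.E psi / th) = QV.E psi := by field_simp
    have e3 : th * (QV.kl Pb Z + 2 * (Pb.E psi / th)) = th * QV.kl Pb Z + 2 * Pb.E psi := by field_simp
    rw [e2, e3] at this
    exact this
  have k7 : Pb.E psi ≤ 2 * (th * QD.kl Pb Z + QD.E psi) := by
    have := mul_le_mul_of_nonneg_left k4 hth.le
    have e2 : th * (Pb.E psi / th) = Pb.E psi := by field_simp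
    have e3 : th * (2 * (QD.kl Pb Z + QD.E psi / th)) = 2 * (th * QD.kl Pb Z + QD.E psi) := by field_simp
    rw [e2, e3] at this
    exact this
  have k8 : QV.E (fun w => ind (A w)) = QV.Pr A := rfl
  rw [k8] at k1
  linarith

/-- change of law, the other direction -/
theorem E_ge {X : Om → κ} {g : Om → ℝ} (hg : Fac X g) (hs : ∀ w, Q.p w ≠ 0 → g w ≠ 0 → P.m X w ≠ 0) :
    Q.E g = P.E (fun w => Q.m X w / P.m X w * g w) := by
  have h1 : P.E (fun w => Q.m X w / P.m X w * g w) =
      P.E (fun w => Q.E (fun v => ind (X v = X w) * (g w / P.m X w))) := by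
    refine P.E_congr (fun w _ => ?_)
    rw [FP.E_mul_const]
    change Q.m X w / P.m X w * g w = Q.m X w * (g w / P.m X w)
    ring
  rw [h1, FP.E_swap]
  refine Q.E_congr (fun v hv => ?_)
  have h2 : P.E (fun w => ind (X v = X w) * (g w / P.m X w)) = P.m X v * (g v / P.m X v) := by
    have e0 : P.m X v * (g v / P.m X v) = P.E (fun w => ind (X w = X v) * (g v / P.m X v)) := by
      rw [FP.E_mul_const]
      rfl
    rw [e0]
    refine P.E_congr (fun w _ => ?_)
    by_cases hx : X w = X v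
    · rw [ind_of hx, ind_of hx.symm, hg w v hx, P.Fac_m X w v hx]
    · rw [ind_not hx, ind_not (fun h => hx h.symm), zero_mul, zero_mul]
  rw [h2]
  by_cases hgv : g v = 0
  · rw [hgv]
    simp
  · have := hs v hv hgv
    field_simp

/-- **COMPARISON** of the conditional probability in the class with the probability under the additions -/
theorem cmp {QD QC : FP Om} (hDC : QD.Ac QC) {F : Om → κ} {Z : Om → ι} {A : Om → Prop}
    (hA : Fac (fun w => (F w, Z w)) A) {K : ℝ}
    (hs : ∀ w, QC.p w ≠ 0 → A w → ∃ u, QD.p u ≠ 0 ∧ (F u, Z u) = (F w, Z w))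
    (hd : ∀ u, QD.p u ≠ 0 → A u → 1 ≤ K * Real.exp (dens QD QC F Z u)) :
    QD.E (QC.ce Z (fun v => ind (A v))) ≤ K * QD.Pr A := by
  set f : Om → ℝ := QC.ce Z (fun v => ind (A v)) with hf
  have ff : Fac Z f := QC.ce_fac Z _
  have f0 : ∀ w, 0 ≤ f w := fun w => QC.ce_nonneg (fun _ _ => ind_nonneg _) w
  -- QD f as a mean over QC
  have e1 : QD.E f = QC.E (fun w => QD.m Z w / QC.m Z w * f w) :=
    E_ge (P := QC) (Q := QD) ff fun w hw _ => (QC.m_pos Z (hDC w hw)).ne'
  have e2 : QC.E (fun w => QD.m Z w / QC.m Z w * f w) = QC.E (fun w => QD.m Z w / QC.m Z w * ind (A w)) :=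
    QC.E_mul_ce (h := fun w => QD.m Z w / QC.m Z w) (fun a b hab => by
      show QD.m Z a / QC.m Z a = QD.m Z b / QC.m Z b
      rw [QD.Fac_m Z a b hab, QC.Fac_m Z a b hab]) (fun v => ind (A v))
  set g : Om → ℝ := fun w => QD.m Z w / QC.m Z w * ind (A w) with hg
  have gf : Fac (fun w => (F w, Z w)) g := fun a b hab => by
    have hz : Z a = Z b := (Prod.mk.inj hab).2
    show QD.m Z a / QC.m Z a * ind (A a) = QD.m Z b / QC.m Z b * ind (A b)
    rw [QD.Fac_m Z a b hz, QC.Fac_m Z a b hz, hA a b hab]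
  have e3 : QC.E g = QD.E (fun w => QC.m (fun u => (F u, Z u)) w / QD.m (fun u => (F u, Z u)) w * g w) := by
    refine E_ge (P := QD) (Q := QC) gf fun w hw hgw => ?_
    have hAw : A w := by
      by_contra hcon
      exact hgw (by
        show QD.m Z w / QC.m Z w * ind (A w) = 0
        rw [ind_not hcon, mul_zero])
    obtain ⟨u, hu, hfu⟩ := hs w hw hAw
    rw [← QD.Fac_m (fun u => (F u, Z u)) u w hfu]
    exact (QD.m_pos _ hu).ne'
  rw [e1, e2, e3]
  unfold FP.Pr
  rw [← QD.E_smul]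
  refine QD.E_mono fun w hw => ?_
  show QC.m (fun u => (F u, Z u)) w / QD.m (fun u => (F u, Z u)) w * (QD.m Z w / QC.m Z w * ind (A w)) ≤ K * ind (A w)
  by_cases hAw : A w
  · rw [ind_of hAw, mul_one, mul_one]
    have h1 := hd w hw hAw
    have p1 := QD.m_pos (fun u => (F u, Z u)) hw
    have p2 := QD.m_pos Z hw
    have p3 := QC.m_pos (fun u => (F u, Z u)) (hDC w hw)
    have p4 := QC.m_pos Z (hDC w hw)
    unfold dens at h1
    rw [Real.exp_log (by positivity)] at h1
    have e4 : QC.m (fun u => (F u, Z u)) w / QD.m (fun u => (F u, Z u)) w * (QD.m Z w / QC.m Z w) =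
        1 / (QD.m (fun u => (F u, Z u)) w / QD.m Z w / (QC.m (fun u => (F u, Z u)) w / QC.m Z w)) := by
      field_simp
    rw [e4, div_le_iff₀ (by positivity)]
    exact h1
  · rw [ind_not hAw]
    simp

end

end Pool.Agent.GMH.Hv.Tw
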