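import Pool.Agent.GMH.HvWd
import Pool.Agent.GMH.HvWa

/-!
# GMH/HvWb (helper19): RARITY OF THE DENSITY OF A TOP EVENT AT THE EXACT VERTEX, one class (for GMH/HvW)

`w0` with `y ≤ Rr w0`; `Vy` = class of `b` with the additions and `y ≤ Rr` (event of the hidden point).
* `klc_ib` : relative entropy of the label of the top `i` for any event of (hidden point, exact `b`) inside the class of `b`;
* `let_ib` : relative entropy of the letter of `k` from the public class with exact point;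
* `den_ge` : in `Vy` the event has mass at least `y / 8`; `rat_eq` : probability of `y ≤ Rr` in the class = `QC(Vy)/QC(Vx)`;
* **`rare_class`** : `P(y ≤ Rr | class of b) ≤ K / (eps y) exp (257 - 4 n y) P(A | class of b)`.
-/

set_option autoImplicit false
set_option linter.unusedSectionVars false

namespace Pool.Agent.GMH.Hv.Tw

open Finset Pool.Agent.PWZ Pool.Agent.M3 Pool.Agent.GM Pool.Agent.GM.Harm Pool.Agent.GMH Pool.Agent.GMH.NZ
open Pool.Agent.GMH.V3 Pool.Agent.GMH.TP Pool.Agent.GMH.KF Pool.Agent.GMH.Hv.HvX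

noncomputable section

variable {X β γ φ : Type} [Fintype X] [Fintype β] [Fintype φ] [Nonempty X] [Nonempty β]
variable {D : HD (Fin 3) X β γ φ} {al : ℝ} {h : D.Thick al}
  {v : ℕ → Finset (Fin 3) → X → (Fin 3 → β) → Pt (Fin 3) X β φ}
variable {dg : ℕ → X → ℝ} {prr : ℕ → Fin 3 → φ → φ} {T : ℕ} {Lam n N1 : ℝ} {t j : ℕ} {b i k : Fin 3}
  {w0 : Pt (Fin 3) X β φ}

theorem pr3_v (n N1 : ℝ) (b : Fin 3) : pr3 (Fin 3) n N1 {b} = N1 := by
  unfold pr3
  rw [if_neg (by simp), if_pos (Finset.card_singleton b)]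

theorem pr3_e (n N1 : ℝ) : pr3 (Fin 3) n N1 ∅ = 1 := by
  unfold pr3
  simp

/-- relative entropy of the top for an event at the exact vertex -/
theorem klc_ib (H : D.Hyp dg prr al T Lam) (R : Run h (pr3 (Fin 3) n N1) (SS1 (Fin 3)) (AdmDep D) v) (hn : 1 ≤ n)
    (hN1 : 1 ≤ N1) (ht : t < T) (B : Bk h (pr3 (Fin 3) n N1) (SS1 (Fin 3)) (Um v (t + 1)) t b i k)
    {E : Pt (Fin 3) X β φ → Prop} (I0 : Ib h (Um v (t + 1)) t b w0 E) :
    ((D.P h t).cond E).klc (QC h (Um v (t + 1)) t b w0) (FQ v t i) (zf (Um v (t + 1)) k) ≤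
      2 / n * (Real.log (1 / (QC h (Um v (t + 1)) t b w0).Pr E) + 1) := by
  have h1 := face_exact B I0
  rw [pr3_top card3] at h1
  rw [pr3_v] at h1
  have e1 : ((D.P h t).cond E).klc (QC h (Um v (t + 1)) t b w0) (FQ v t i) (zf (Um v (t + 1)) k) =
      ((D.P h t).cond E).klc (QC h (Um v (t + 1)) t b w0) (fun w => w.2.2 i) (zf (Um v (t + 1)) k) := by
    refine klc_congr_supp I0.acC (fun _ _ _ _ => Iff.rfl) fun a c ha hc hZ => ?_
    obtain ⟨ha1, ha2⟩ := cond_supp I0.cls_ne ha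
    obtain ⟨hc1, hc2⟩ := cond_supp I0.cls_ne hc
    constructor
    · intro hh
      exact (LL_eq.1 hh).2 i rfl
    · intro hl
      have h2 := (cls_Zb B (a := a) hc1).1 ⟨ha1, hZ⟩
      rw [ZbQ0_eq, Prod.mk.injEq] at h2
      have hS : univ.erase i ∈ SS1 (Fin 3) := mem_SS1.2 (Finset.erase_ne_self.2 (mem_univ i))
      have hu : (univ : Finset (Fin 3)) ∉ SS1 (Fin 3) := fun hh => mem_SS1.1 hh rfl
      show LL (Um v (t + 1)) (univ.erase i) a = LL (Um v (t + 1)) (univ.erase i) c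
      rw [LL_eq]
      refine ⟨R.top_det H hS hu (B.n2 i) t ht.le a c ha2 hc2 h2.2 (fun I hI => ?_) hl, fun l hl' => ?_⟩
      · exact (LL_eq.1 (lo_eq.1 h2.1 I hI)).1
      · have hli : l = i := by
          by_contra hne
          have h1 : i ∈ (univ.erase l : Finset (Fin 3)) := Finset.mem_erase.2 ⟨fun hh => hne hh.symm, mem_univ i⟩
          rw [hl'] at h1
          exact (Finset.mem_erase.1 h1).1 rfl
        rw [hli, hl]
  rw [e1]
  have hn0 : 0 < n := by linarith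
  have hN0 : 0 < N1 := by linarith
  set K := ((D.P h t).cond E).klc (QC h (Um v (t + 1)) t b w0) (fun w => w.2.2 i)
    (zf (Um v (t + 1)) k) with hK
  set L := Real.log (1 / (QC h (Um v (t + 1)) t b w0).Pr E) + 1 with hL
  have h2 : N1 * (n * K) ≤ N1 * (2 * L) := by linarith
  have h3 := le_of_mul_le_mul_left h2 hN0
  have h4 : 2 / n * L = 2 * L / n := by ring
  rw [h4, le_div_iff₀ hn0]
  linarith

/-- the surprise of the letter of `b` -/
theorem ss_cls (I0 : Ib h (Um v (t + 1)) t b w0 (clsb (Um v (t + 1)) (pub0 D t (Um v (t + 1)) w0) b w0)) :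
    Real.log (1 / (QB h (Um v (t + 1)) t b w0).Pr (clsb (Um v (t + 1)) (pub0 D t (Um v (t + 1)) w0) b w0)) =
      ssQ h v (5 * t) b w0 := by
  set P := D.P h t with hP
  have hw0 := I0.supp
  have hx : ∀ u : Pt (Fin 3) X β φ, xc D (Um v (t + 1)) t {b} w0 u ↔
      ((u.2.1 b, NPq D v (5 * t) u) = (w0.2.1 b, NPq D v (5 * t) w0)) := by
    intro u
    rw [Prod.mk.injEq, NPq_eq, nc0 t (by unfold pth; simp), nn_0]
    unfold xc
    rw [le_eq, BB_eq]
    constructor
    · rintro ⟨h1, h2, h3⟩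
      exact ⟨h2 b (Finset.mem_singleton_self b), (LL_eq.1 (h1 ∅ (Finset.Subset.refl _))).1, h3⟩
    · rintro ⟨h1, h2, h3⟩
      refine ⟨fun I hI => ?_, fun l hl => by rw [Finset.mem_singleton.1 hl]; exact h1, h3⟩
      rw [Finset.subset_empty.1 hI, LL_eq]
      exact ⟨h2, fun l hl => absurd hl (er_ne_thin (by simp))⟩
  have e0 : P.Pr (xc D (Um v (t + 1)) t {b} w0) = P.m (fun u => (u.2.1 b, NPq D v (5 * t) u)) w0 := by
    unfold FP.m FP.Pr
    exact P.E_congr fun u _ => ind_cg (hx u)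
  have e1 : (QB h (Um v (t + 1)) t b w0).Pr (clsb (Um v (t + 1)) (pub0 D t (Um v (t + 1)) w0) b w0) =
      P.m (fun u => (XLq v (5 * t) b u, (u.2.1 b, NPq D v (5 * t) u))) w0 /
        P.m (fun u => (u.2.1 b, NPq D v (5 * t) u)) w0 := by
    have e2 : (QB h (Um v (t + 1)) t b w0).Pr (clsb (Um v (t + 1)) (pub0 D t (Um v (t + 1)) w0) b w0) =
        P.E (fun u => ind (xc D (Um v (t + 1)) t {b} w0 u) *
          ind (clsb (Um v (t + 1)) (pub0 D t (Um v (t + 1)) w0) b w0 u)) / P.Pr (xc D (Um v (t + 1)) t {b} w0) := by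
      unfold QB
      exact FP.cond_E (xc_ne hw0) _
    rw [e2, e0]
    congr 1
    unfold FP.m
    refine P.E_congr fun u _ => ?_
    rw [← ind_and]
    refine ind_cg ?_
    rw [hx, HvX.cls_iff]
    simp only [Prod.mk.injEq]
    constructor
    · rintro ⟨⟨h1, h2⟩, h3, h4⟩
      exact ⟨h3, h1, h2⟩
    · rintro ⟨h1, h2, h3⟩
      exact ⟨⟨h2, h3⟩, h1, h3⟩
  have p1 := P.m_pos (fun u => (XLq v (5 * t) b u, (u.2.1 b, NPq D v (5 * t) u))) hw0
  have p2 := P.m_pos (fun u => (u.2.1 b, NPq D v (5 * t) u)) hw0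
  rw [e1, one_div_div, Real.log_div p2.ne' p1.ne']
  unfold ssQ sp
  have ht5 : 5 * t / 5 = t := by omega
  rw [ht5]

/-- relative entropy of the letter of `k` -/
theorem let_ib (hN1 : 1 ≤ N1) (B : Bk h (pr3 (Fin 3) n N1) (SS1 (Fin 3)) (Um v (t + 1)) t b i k)
    {E : Pt (Fin 3) X β φ → Prop} (I0 : Ib h (Um v (t + 1)) t b w0 E) :
    ((D.P h t).cond E).kl (QB h (Um v (t + 1)) t b w0) (zf (Um v (t + 1)) k) ≤
      2 / N1 * (ssQ h v (5 * t) b w0 + Real.log (1 / (QC h (Um v (t + 1)) t b w0).Pr E) + 1) := by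
  have h1 := let_one B.swap I0
  rw [pr3_v, pr3_e] at h1
  have hN0 : 0 < N1 := by linarith
  have IC := I0.cls B
  have h2 := ss_cls IC
  -- the surprise of the event
  have h3 : Lb h (Um v (t + 1)) t b w0 E = ssQ h v (5 * t) b w0 +
      Real.log (1 / (QC h (Um v (t + 1)) t b w0).Pr E) := by
    unfold Lb
    rw [← h2]
    have e1 : (QB h (Um v (t + 1)) t b w0).Pr E =
        (QB h (Um v (t + 1)) t b w0).Pr (clsb (Um v (t + 1)) (pub0 D t (Um v (t + 1)) w0) b w0) *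
          (QC h (Um v (t + 1)) t b w0).Pr E := by
      have e2 := FP.Pr_mul_cond_E (P := QB h (Um v (t + 1)) t b w0)
        (V := clsb (Um v (t + 1)) (pub0 D t (Um v (t + 1)) w0) b w0) IC.neB (fun u => ind (E u))
      have e3 : (QB h (Um v (t + 1)) t b w0).cond (clsb (Um v (t + 1)) (pub0 D t (Um v (t + 1)) w0) b w0) =
          QC h (Um v (t + 1)) t b w0 := IC.condB
      rw [e3] at e2
      have e4 : (QC h (Um v (t + 1)) t b w0).Pr E = (QC h (Um v (t + 1)) t b w0).E (fun u => ind (E u)) := rfl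
      rw [e4, e2]
      unfold FP.Pr
      refine FP.E_congr _ fun u _ => ?_
      by_cases hu : E u
      · rw [ind_of hu, ind_of (I0.sub u hu), mul_one]
      · rw [ind_not hu, mul_zero]
    have q1 : 0 < (QB h (Um v (t + 1)) t b w0).Pr (clsb (Um v (t + 1)) (pub0 D t (Um v (t + 1)) w0) b w0) :=
      lt_of_le_of_ne (FP.Pr_nonneg _ _) (Ne.symm IC.neB)
    have q2 : 0 < (QC h (Um v (t + 1)) t b w0).Pr E := lt_of_le_of_ne (FP.Pr_nonneg _ _) (Ne.symm I0.neC)
    rw [e1, one_div, one_div, one_div, mul_inv, Real.log_mul (inv_pos.2 q1).ne' (inv_pos.2 q2).ne']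
  rw [h3] at h1
  have h4 : 2 / N1 * (ssQ h v (5 * t) b w0 + Real.log (1 / (QC h (Um v (t + 1)) t b w0).Pr E) + 1) =
      2 * (ssQ h v (5 * t) b w0 + Real.log (1 / (QC h (Um v (t + 1)) t b w0).Pr E) + 1) / N1 := by ring
  rw [h4, le_div_iff₀ hN0]
  linarith

/-! ### the event of a large density -/

variable (h v) in
/-- class of `b` with the additions, density of `A` at least `y` (event of the hidden point, cells and points of `w0`) -/
def Vy (t j : ℕ) (b : Fin 3) (A : Pt (Fin 3) X β φ → Prop) (y : ℝ) (w0 a : Pt (Fin 3) X β φ) : Prop :=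
  Vx D v t j b w0 a ∧ y ≤ Rr h t b A (a.1, w0.2)

theorem Sg_eq {n : ℕ} {a c : Pt (Fin 3) X β φ} : Sg D b n a = Sg D b n c ↔
    a.1 = c.1 ∧ a.2.1 b = c.2.1 b ∧ ∀ l, D.qb n (a.2.1 l) = D.qb n (c.2.1 l) := by
  unfold Sg
  rw [Prod.mk.injEq, Prod.mk.injEq, funext_iff]

theorem Rr_fac (A : Pt (Fin 3) X β φ → Prop) : Fac (Sg D b (t + 1)) (Rr h t b A) := (D.P h t).ce_fac _ _

theorem Vy_Ib (B : Bk h (pr3 (Fin 3) n N1) (SS1 (Fin 3)) (Um v (t + 1)) t b i k) (hw0 : (D.P h t).p w0 ≠ 0)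
    {A : Pt (Fin 3) X β φ → Prop} {y : ℝ} (hy : y ≤ Rr h t b A w0) :
    Ib h (Um v (t + 1)) t b w0 (Vy h v t j b A y w0) where
  fac := by
    intro a c hac
    have h1 := (Vx_Ib (j := j) B hw0).fac a c hac
    have hac' : (a.1, BB D t {b} a) = (c.1, BB D t {b} c) := hac
    have h2 : a.1 = c.1 := (Prod.mk.inj hac').1
    unfold Vy
    rw [h1, h2]
  self := ⟨(Vx_Ib (j := j) B hw0).self, hy⟩
  supp := hw0
  sub := fun _ ha => ha.1.1

/-- another hidden point of the same public cell is in the support -/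
theorem supp_mv (hw0 : (D.P h t).p w0 ≠ 0) {x : X} (hx : D.qa t x = D.qa t w0.1) : (D.P h t).p (x, w0.2) ≠ 0 := by
  have h1 : ∀ l, D.kf t l w0.1 w0.2.1 (w0.2.2 l) ≠ 0 := by
    intro l hl
    refine hw0 ?_
    show (∏ l, D.kf t l w0.1 w0.2.1 (w0.2.2 l)) / (Fintype.card X * (Fintype.card β : ℝ) ^ Fintype.card (Fin 3)) = 0
    rw [Finset.prod_eq_zero (mem_univ l) hl, zero_div]
  show (∏ l, D.kf t l x w0.2.1 (w0.2.2 l)) / (Fintype.card X * (Fintype.card β : ℝ) ^ Fintype.card (Fin 3)) ≠ 0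
  refine div_ne_zero (Finset.prod_ne_zero_iff.2 fun l _ => ?_) (mul_ne_zero ?_ (pow_ne_zero _ ?_))
  · have h2 := h.thick t l w0.1 x w0.2.1 (w0.2.2 l) hx.symm (h1 l)
    have := h.pos
    linarith
  · exact_mod_cast Fintype.card_ne_zero
  · exact_mod_cast Fintype.card_ne_zero

/-- mass of the sight -/
theorem m_Sg (n : ℕ) (w : Pt (Fin 3) X β φ) : (D.P h t).m (Sg D b n) w =
    1 * nY D n {b} w.2.1 / GMH.nn X β (Fin 3) := by
  classical
  have e1 : ∑ x : X, ind (x = w.1) = 1 := by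
    rw [Finset.sum_eq_single w.1 (fun x _ hx => ind_not hx) (fun hh => absurd (mem_univ _) hh), ind_of rfl]
  unfold nY
  rw [← e1, ← m_prod h t]
  unfold FP.m
  refine (D.P h t).E_congr fun u _ => ind_cg ?_
  rw [Sg_eq]
  constructor
  · rintro ⟨h1, h2, h3⟩
    exact ⟨h1, fun l hl => by rw [Finset.mem_singleton.1 hl]; exact h2, h3⟩
  · rintro ⟨h1, h2, h3⟩
    exact ⟨h1, h2 b (Finset.mem_singleton_self b), h3⟩

/-- the half cells cost a factor -/
theorem ce_half (H : D.Hyp dg prr al T Lam) (ht : t < T) {f : Pt (Fin 3) X β φ → ℝ} (hf : ∀ u, 0 ≤ f u)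
    {w : Pt (Fin 3) X β φ} (hw : (D.P h t).p w ≠ 0) :
    (D.P h t).ce (Sg D b (t + 1)) f w ≤ 8 * (D.P h t).ce (Sg D b t) f w := by
  set P := D.P h t with hP
  have p1 := P.m_pos (Sg D b t) hw
  have p2 := P.m_pos (Sg D b (t + 1)) hw
  have h1 : P.m (Sg D b t) w ≤ 8 * P.m (Sg D b (t + 1)) w := by
    rw [hP, m_Sg, m_Sg]
    have h2 := nY_half H ht {b} w.2.1
    have h3 : 0 ≤ GMH.nn X β (Fin 3) := by
      unfold GMH.nn
      positivity
    have h4 := div_le_div_of_nonneg_right h2 h3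
    rw [one_mul, one_mul]
    refine h4.trans (le_of_eq ?_)
    ring
  have h3 : P.E (fun u => ind (Sg D b (t + 1) u = Sg D b (t + 1) w) * f u) ≤
      P.E (fun u => ind (Sg D b t u = Sg D b t w) * f u) := by
    refine P.E_mono fun u _ => mul_le_mul_of_nonneg_right (ind_mono fun e => ?_) (hf u)
    obtain ⟨e1, e2, e3⟩ := Sg_eq.1 e
    exact Sg_eq.2 ⟨e1, e2, fun l => D.rb t _ _ (e3 l)⟩
  have h4 : 0 ≤ P.E (fun u => ind (Sg D b t u = Sg D b t w) * f u) :=
    P.E_nonneg fun u _ => mul_nonneg (ind_nonneg _) (hf u)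
  unfold FP.ce
  rw [div_le_iff₀ p2, mul_div_assoc', div_mul_eq_mul_div, le_div_iff₀ p1]
  nlinarith

/-- **the mass of the event in `Vy`** -/
theorem den_ge (H : D.Hyp dg prr al T Lam) (hv : Codes D v) (hj1 : 1 ≤ j) (hj2 : j ≤ 5) (ht : t < T)
    (B : Bk h (pr3 (Fin 3) n N1) (SS1 (Fin 3)) (Um v (t + 1)) t b i k) (hw0 : (D.P h t).p w0 ≠ 0)
    {A : Pt (Fin 3) X β φ → Prop} {y : ℝ} (hy : y ≤ Rr h t b A w0) :
    y / 8 ≤ ((D.P h t).cond (Vy h v t j b A y w0)).Pr (At h v t j b i k A w0) := by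
  set P := D.P h t with hP
  have I0 := Vy_Ib (j := j) B hw0 hy
  have hV : 0 < P.Pr (Vy h v t j b A y w0) := lt_of_le_of_ne (P.Pr_nonneg _) (Ne.symm I0.ne)
  have e1 := FP.Pr_mul_cond_E (P := P) (V := Vy h v t j b A y w0) I0.ne (fun u => ind (At h v t j b i k A w0 u))
  have fV : Fac (Sg (φ := φ) D b t) (Vy h v t j b A y w0) := by
    intro a c hac
    obtain ⟨h1, h2, h3⟩ := Sg_eq.1 hac
    have e2 : Vx D v t j b w0 a = Vx D v t j b w0 c := propext ((Vx_iff hv).trans (Iff.trans (by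
      rw [h1]
      constructor
      · rintro ⟨g1, g2, g3⟩
        exact ⟨g1, fun l hl => by
          have := g2 l hl
          rw [Finset.mem_singleton.1 hl] at this ⊢
          rw [← this]; exact h2.symm, fun l => by rw [← g3 l]; exact (h3 l).symm⟩
      · rintro ⟨g1, g2, g3⟩
        exact ⟨g1, fun l hl => by
          have := g2 l hl
          rw [Finset.mem_singleton.1 hl] at this ⊢
          rw [← this]; exact h2, fun l => by rw [← g3 l]; exact h3 l⟩) (Vx_iff hv).symm))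
    unfold Vy
    rw [e2, h1]
  have e3 : P.E (fun u => ind (Vy h v t j b A y w0 u) * ind (At h v t j b i k A w0 u)) =
      P.E (fun u => ind (Vy h v t j b A y w0 u) * P.ce (Sg D b t) (fun u => ind (At h v t j b i k A w0 u)) u) :=
    (P.E_mul_ce (h := fun u => ind (Vy h v t j b A y w0 u)) (Fac.ind fun a c hac => by rw [fV a c hac])
      (fun u => ind (At h v t j b i k A w0 u))).symm
  have key : ∀ a, P.p a ≠ 0 → Vy h v t j b A y w0 a →
      y / 8 ≤ P.ce (Sg D b t) (fun u => ind (At h v t j b i k A w0 u)) a := by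
    intro a ha hVa
    obtain ⟨hx, hya⟩ := hVa
    obtain ⟨g1, g2, g3⟩ := (Vx_iff hv).1 hx
    have hqa : D.qa t a.1 = D.qa t w0.1 := by
      have h5 := NPq_mono (show 5 * t ≤ 5 * t + j by omega) _ _ g1.2
      rw [NPq_eq, nn_0] at h5
      exact h5.2.1
    have ha' : P.p (a.1, w0.2) ≠ 0 := supp_mv hw0 hqa
    have s1 : P.ce (Sg D b (t + 1)) (fun u => ind (A u)) (a.1, w0.2) ≤
        P.ce (Sg D b (t + 1)) (fun u => ind (At h v t j b i k A w0 u)) (a.1, w0.2) := by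
      refine P.ce_mono_on fun u hu hS => ind_mono fun hAu => ?_
      obtain ⟨k1, k2, k3⟩ := Sg_eq.1 hS
      refine ⟨u, hu, (Vz_iff hv hj1 hj2).2 ⟨?_, fun l hl => ?_, k3⟩, hAu, rfl, rfl⟩
      · rw [k1]
        exact g1
      · rw [Finset.mem_singleton.1 hl]
        exact k2
    have s2 := ce_half (b := b) H ht (f := fun u => ind (At h v t j b i k A w0 u)) (fun _ => ind_nonneg _) ha'
    have s3 : P.ce (Sg D b t) (fun u => ind (At h v t j b i k A w0 u)) (a.1, w0.2) =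
        P.ce (Sg D b t) (fun u => ind (At h v t j b i k A w0 u)) a :=
      P.ce_fac (Sg D b t) _ _ _ (Sg_eq.2 ⟨rfl, (g2 b (Finset.mem_singleton_self b)).symm, fun l => (g3 l).symm⟩)
    have s4 : y ≤ P.ce (Sg D b (t + 1)) (fun u => ind (A u)) (a.1, w0.2) := hya
    rw [← hP, s3] at s2
    linarith
  have e4 : P.Pr (Vy h v t j b A y w0) * (y / 8) ≤
      P.E (fun u => ind (Vy h v t j b A y w0 u) * P.ce (Sg D b t) (fun u => ind (At h v t j b i k A w0 u)) u) := by
    unfold FP.Pr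
    rw [← FP.E_mul_const]
    refine P.E_mono fun u hu => ?_
    by_cases hVu : Vy h v t j b A y w0 u
    · rw [ind_of hVu, one_mul, one_mul]
      exact key u hu hVu
    · rw [ind_not hVu, zero_mul, zero_mul]
  rw [← e3, ← e1] at e4
  exact le_of_mul_le_mul_left e4 hV

/-- **probability of a large density in the class** -/
theorem rat_eq (hv : Codes D v) (hj1 : 1 ≤ j) (hj2 : j ≤ 5)
    (B : Bk h (pr3 (Fin 3) n N1) (SS1 (Fin 3)) (Um v (t + 1)) t b i k) (hw0 : (D.P h t).p w0 ≠ 0)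
    {A : Pt (Fin 3) X β φ → Prop} {y : ℝ} (hy : y ≤ Rr h t b A w0) :
    (D.P h t).ce (Cb D v t (5 * t + j) b) (fun u => ind (y ≤ Rr h t b A u)) w0 *
      (QC h (Um v (t + 1)) t b w0).Pr (Vx D v t j b w0) = (QC h (Um v (t + 1)) t b w0).Pr (Vy h v t j b A y w0) := by
  set P := D.P h t with hP
  have I0 := Vx_Ib (j := j) B hw0
  have IV := Vy_Ib (j := j) B hw0 hy
  set C := clsb (Um v (t + 1)) (pub0 D t (Um v (t + 1)) w0) b w0 with hC
  have hC0 : P.Pr C ≠ 0 := I0.cls_ne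
  have q : ∀ {E : Pt (Fin 3) X β φ → Prop}, (∀ u, E u → C u) →
      (QC h (Um v (t + 1)) t b w0).Pr E = P.Pr E / P.Pr C := by
    intro E hE
    have e1 : (QC h (Um v (t + 1)) t b w0).Pr E = P.E (fun u => ind (C u) * ind (E u)) / P.Pr C := by
      unfold QC
      exact FP.cond_E hC0 _
    rw [e1]
    congr 1
    unfold FP.Pr
    refine P.E_congr fun u _ => ?_
    by_cases hu : E u
    · rw [ind_of hu, ind_of (hE u hu), mul_one]
    · rw [ind_not hu, mul_zero]
  rw [q (fun u hu => hu.1), q (fun u hu => hu.1.1)]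
  -- the masses
  set S1 := ∑ x, ind (Ax0 D v t j b w0 x) with hS1
  set S2 := ∑ x, ind (Ax0 D v t j b w0 x ∧ y ≤ Rr h t b A (x, w0.2)) with hS2
  have e1 : P.Pr (Vx D v t j b w0) = S1 * nY D t {b} w0.2.1 / GMH.nn X β (Fin 3) := by
    unfold nY
    rw [hS1, ← m_prod h t]
    unfold FP.Pr
    refine P.E_congr fun u _ => ind_cg ?_
    exact Vx_iff hv
  have e2 : P.Pr (Vy h v t j b A y w0) = S2 * nY D t {b} w0.2.1 / GMH.nn X β (Fin 3) := by
    unfold nY
    rw [hS2, ← m_prod h t (P := fun x => Ax0 D v t j b w0 x ∧ y ≤ Rr h t b A (x, w0.2))]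
    unfold FP.Pr
    refine P.E_congr fun u _ => ind_cg ?_
    unfold Vy
    rw [Vx_iff hv]
    tauto
  have e3 : P.Pr (Vz D v t j b w0) = S1 * nY D (t + 1) {b} w0.2.1 / GMH.nn X β (Fin 3) := by
    unfold nY
    rw [hS1, ← m_prod h t]
    unfold FP.Pr
    refine P.E_congr fun u _ => ind_cg ?_
    exact Vz_iff hv hj1 hj2
  have e4 : P.E (fun u => ind (Cb D v t (5 * t + j) b u = Cb D v t (5 * t + j) b w0) * ind (y ≤ Rr h t b A u)) =
      S2 * nY D (t + 1) {b} w0.2.1 / GMH.nn X β (Fin 3) := by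
    unfold nY
    rw [hS2, ← m_prod h t (P := fun x => Ax0 D v t j b w0 x ∧ y ≤ Rr h t b A (x, w0.2))]
    refine P.E_congr fun u _ => ?_
    rw [← ind_and]
    refine ind_cg ?_
    have g : Cb D v t (5 * t + j) b u = Cb D v t (5 * t + j) b w0 ↔ Vz D v t j b w0 u := Iff.rfl
    rw [g, Vz_iff hv hj1 hj2]
    constructor
    · rintro ⟨⟨g1, g2, g3⟩, g4⟩
      refine ⟨⟨g1, ?_⟩, g2, g3⟩
      rw [← Rr_fac (h := h) (t := t) (b := b) A u (u.1, w0.2) (Sg_eq.2 ⟨rfl, g2 b (Finset.mem_singleton_self b), g3⟩)]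
      exact g4
    · rintro ⟨⟨g1, g4⟩, g2, g3⟩
      refine ⟨⟨g1, g2, g3⟩, ?_⟩
      rw [Rr_fac (h := h) (t := t) (b := b) A u (u.1, w0.2) (Sg_eq.2 ⟨rfl, g2 b (Finset.mem_singleton_self b), g3⟩)]
      exact g4
  have e5 : P.ce (Cb D v t (5 * t + j) b) (fun u => ind (y ≤ Rr h t b A u)) w0 =
      (S2 * nY D (t + 1) {b} w0.2.1 / GMH.nn X β (Fin 3)) / P.Pr (Vz D v t j b w0) := by
    rw [← e4]
    rfl
  have z1 : P.Pr (Vz D v t j b w0) ≠ 0 := (FP.Pr_pos_of (P := P) (S := Vz D v t j b w0) hw0 rfl).ne'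
  have z2 : P.Pr (Vx D v t j b w0) ≠ 0 := I0.ne
  rw [e5, e1, e2, e3]
  rw [e3] at z1
  rw [e1] at z2
  have y1 := (HvX.nY_pos (D := D) (t + 1) {b} w0.2.1).ne'
  have y2 := (HvX.nY_pos (D := D) t {b} w0.2.1).ne'
  have x1 : GMH.nn X β (Fin 3) ≠ 0 := by
    intro hh
    rw [hh, div_zero] at z1
    exact z1 rfl
  have x2 : S1 ≠ 0 := by
    intro hh
    rw [hh, zero_mul, zero_div] at z1
    exact z1 rfl
  field_simp

/-- the class expects the additions -/
theorem pX_le (hv : Codes D v) (hj1 : 1 ≤ j) (hj2 : j ≤ 5)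
    (B : Bk h (pr3 (Fin 3) n N1) (SS1 (Fin 3)) (Um v (t + 1)) t b i k) (hw0 : (D.P h t).p w0 ≠ 0) :
    pX h v t (5 * t + j) b w0 ≤ (QC h (Um v (t + 1)) t b w0).Pr (Vx D v t j b w0) := by
  set P := D.P h t with hP
  have I0 := Vx_Ib (j := j) B hw0
  set Q := QC h (Um v (t + 1)) t b w0 with hQ
  set A := Vx D v t j b w0 with hA
  have hcl : 0 < P.Pr (clsb (Um v (t + 1)) (pub0 D t (Um v (t + 1)) w0) b w0) :=
    lt_of_le_of_ne (P.Pr_nonneg _) (Ne.symm I0.cls_ne)
  have hpX : pX h v t (5 * t + j) b w0 = P.Pr (Vz D v t j b w0) /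
      P.Pr (clsb (Um v (t + 1)) (pub0 D t (Um v (t + 1)) w0) b w0) := by
    have e1 : P.m (CX D v (5 * t) b) w0 = P.Pr (clsb (Um v (t + 1)) (pub0 D t (Um v (t + 1)) w0) b w0) := by
      unfold FP.m FP.Pr
      refine P.E_congr fun u _ => ind_cg ?_
      rw [HvX.cls_iff]
      unfold CX
      rw [Prod.mk.injEq]
    unfold pX
    rw [← hP, e1]
    rfl
  have e1 : Q.Pr A = P.E (fun u => ind (clsb (Um v (t + 1)) (pub0 D t (Um v (t + 1)) w0) b w0 u) * ind (A u)) /
      P.Pr (clsb (Um v (t + 1)) (pub0 D t (Um v (t + 1)) w0) b w0) := by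
    rw [hQ]
    unfold QC
    exact FP.cond_E I0.cls_ne _
  rw [e1, hpX]
  refine div_le_div_of_nonneg_right ?_ hcl.le
  unfold FP.Pr
  refine P.E_mono fun u _ => ?_
  by_cases hu : Vz D v t j b w0 u
  · have h1 : A u := Vz_sub hv hj1 hj2 hu
    rw [ind_of hu, ind_of h1, ind_of h1.1, mul_one]
  · rw [ind_not hu]
    exact mul_nonneg (ind_nonneg _) (ind_nonneg _)

/-- the event under the additions -/
theorem At_le (hv : Codes D v) (hj1 : 1 ≤ j) (hj2 : j ≤ 5)
    (B : Bk h (pr3 (Fin 3) n N1) (SS1 (Fin 3)) (Um v (t + 1)) t b i k) (hw0 : (D.P h t).p w0 ≠ 0)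
    {A : Pt (Fin 3) X β φ → Prop} (hg : (D.P h t).Pr (fun u => Vx D v t j b w0 u ∧ At h v t j b i k A w0 u) ≤
      2 * (D.P h t).Pr (fun u => Vz D v t j b w0 u ∧ A u)) :
    ((D.P h t).cond (Vx D v t j b w0)).Pr (At h v t j b i k A w0) ≤
      2 * (D.P h t).ce (Cb D v t (5 * t + j) b) (fun u => ind (A u)) w0 := by
  set P := D.P h t with hP
  have I0 := Vx_Ib (j := j) B hw0
  have hm : 0 < P.Pr (Vz D v t j b w0) := FP.Pr_pos_of (S := Vz D v t j b w0) hw0 rfl
  have hle : P.Pr (Vz D v t j b w0) ≤ P.Pr (Vx D v t j b w0) := by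
    unfold FP.Pr
    exact P.E_mono fun u _ => ind_mono fun hu => Vz_sub hv hj1 hj2 hu
  have hx : 0 < P.Pr (Vx D v t j b w0) := hm.trans_le hle
  have e1 : (P.cond (Vx D v t j b w0)).Pr (At h v t j b i k A w0) =
      P.Pr (fun u => Vx D v t j b w0 u ∧ At h v t j b i k A w0 u) / P.Pr (Vx D v t j b w0) := by
    have e2 : (P.cond (Vx D v t j b w0)).Pr (At h v t j b i k A w0) =
        P.E (fun u => ind (Vx D v t j b w0 u) * ind (At h v t j b i k A w0 u)) / P.Pr (Vx D v t j b w0) :=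
      FP.cond_E I0.ne _
    rw [e2]
    congr 1
    unfold FP.Pr
    refine P.E_congr fun u _ => ?_
    rw [ind_and]
  have e2 : P.ce (Cb D v t (5 * t + j) b) (fun u => ind (A u)) w0 =
      P.Pr (fun u => Vz D v t j b w0 u ∧ A u) / P.Pr (Vz D v t j b w0) := by
    have e3 : P.ce (Cb D v t (5 * t + j) b) (fun u => ind (A u)) w0 =
      P.E (fun u => ind (Vz D v t j b w0 u) * ind (A u)) / P.Pr (Vz D v t j b w0) := rfl
    rw [e3]
    congr 1
    unfold FP.Pr
    refine P.E_congr fun u _ => ?_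
    rw [ind_and]
  rw [e1, e2]
  set a := P.Pr (fun u => Vz D v t j b w0 u ∧ A u) with ha
  have ha0 : 0 ≤ a := P.Pr_nonneg _
  calc P.Pr (fun u => Vx D v t j b w0 u ∧ At h v t j b i k A w0 u) / P.Pr (Vx D v t j b w0) ≤
      2 * a / P.Pr (Vx D v t j b w0) := div_le_div_of_nonneg_right hg hx.le
    _ ≤ 2 * a / P.Pr (Vz D v t j b w0) := div_le_div_of_nonneg_left (by positivity) hm hle
    _ = 2 * (a / P.Pr (Vz D v t j b w0)) := by ring

/-- densities of equal values are equal -/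
theorem dens_eq {Om : Type*} [Fintype Om] {P Q : FP Om} {κ ι : Type*} {F : Om → κ} {Z : Om → ι} {a c : Om}
    (hF : F a = F c) (hZ : Z a = Z c) : dens Q P F Z a = dens Q P F Z c := by
  have e : (F a, Z a) = (F c, Z c) := Prod.ext hF hZ
  unfold dens
  rw [Q.Fac_m (fun w => (F w, Z w)) a c e, P.Fac_m (fun w => (F w, Z w)) a c e, Q.Fac_m Z a c hZ, P.Fac_m Z a c hZ]

/-- the numbers of `rare_class` -/
theorem rare_num {L' th y n N1 X0 le0 KG : ℝ} (hn : 1 ≤ n) (hN1 : 1 ≤ N1) (hy : 0 < y) (hth : 256 ≤ th)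
    (hY : n * th ≤ N1) (hL : 0 ≤ L') (hle : 0 ≤ le0)
    (hN : 512 * (X0 + le0 + 1) ≤ N1 * y) (hKG : Real.exp th * KG = y) (hKG0 : 0 ≤ KG)
    (h : th * (y / 8) ≤ 2 / n * (L' + 1) + th * (2 / N1 * (X0 + L' + 1) + 4 * (2 / N1 * (X0 + le0 + 1))) +
      4 * ((Real.exp th - 1) * (2 * KG))) : n * th * y / 64 - 1 ≤ L' := by
  have hn0 : 0 < n := by linarith
  have hN0 : 0 < N1 := by linarith
  have hth0 : 0 < th := by linarith
  have h1 : 4 * ((Real.exp th - 1) * (2 * KG)) ≤ 8 * y := by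
    have e : 4 * ((Real.exp th - 1) * (2 * KG)) = 8 * (Real.exp th * KG) - 8 * KG := by ring
    rw [e, hKG]
    linarith
  have h2 : 8 * y ≤ th * y / 32 := by nlinarith
  have h3 : th * (2 / N1 * L') ≤ 2 / n * L' := by
    have h4 : th / N1 ≤ 1 / n := by
      rw [div_le_div_iff₀ hN0 hn0]
      linarith
    have h5 := mul_le_mul_of_nonneg_right h4 hL
    have e1 : th * (2 / N1 * L') = 2 * (th / N1 * L') := by ring
    have e2 : 2 / n * L' = 2 * (1 / n * L') := by ring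
    rw [e1, e2]
    linarith
  have h4 : th * (2 / N1 * (X0 + 1) + 4 * (2 / N1 * (X0 + le0 + 1))) ≤ th * y * (10 / 512) := by
    have h5 : (X0 + le0 + 1) / N1 ≤ y / 512 := by
      rw [div_le_div_iff₀ hN0 (by norm_num)]
      linarith
    have h6 : (X0 + 1) / N1 ≤ (X0 + le0 + 1) / N1 := div_le_div_of_nonneg_right (by linarith) hN0.le
    have e1 : 2 / N1 * (X0 + 1) + 4 * (2 / N1 * (X0 + le0 + 1)) = 2 * ((X0 + 1) / N1) + 8 * ((X0 + le0 + 1) / N1) := by
      ring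
    rw [e1]
    have h7 : 2 * ((X0 + 1) / N1) + 8 * ((X0 + le0 + 1) / N1) ≤ y * (10 / 512) := by linarith
    have := mul_le_mul_of_nonneg_left h7 hth0.le
    linarith
  have e1 : th * (2 / N1 * (X0 + L' + 1) + 4 * (2 / N1 * (X0 + le0 + 1))) =
      th * (2 / N1 * L') + th * (2 / N1 * (X0 + 1) + 4 * (2 / N1 * (X0 + le0 + 1))) := by ring
  rw [e1] at h
  have h5 : th * y * (38 / 512) ≤ 2 / n * (2 * L' + 1) := by
    have e2 : 2 / n * (L' + 1) + 2 / n * L' = 2 / n * (2 * L' + 1) := by ring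
    linarith
  have h6 : n * (th * y * (38 / 512)) ≤ 2 * (2 * L' + 1) := by
    have := mul_le_mul_of_nonneg_left h5 hn0.le
    have e2 : n * (2 / n * (2 * L' + 1)) = 2 * (2 * L' + 1) := by field_simp
    rw [e2] at this
    exact this
  have h7 : 0 ≤ n * (th * y) := by positivity
  nlinarith

/-- **RARITY, ONE CLASS** -/
theorem rare_class (H : D.Hyp dg prr al T Lam) (R : Run h (pr3 (Fin 3) n N1) (SS1 (Fin 3)) (AdmDep D) v) (hn : 1 ≤ n)
    (hN1 : 1 ≤ N1) (ht : t < T) (hj1 : 1 ≤ j) (hj4 : j ≤ 4)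
    (B : Bk h (pr3 (Fin 3) n N1) (SS1 (Fin 3)) (Um v (t + 1)) t b i k) (hw0 : (D.P h t).p w0 ≠ 0)
    {A : Pt (Fin 3) X β φ → Prop} (hg : (D.P h t).Pr (fun u => Vx D v t j b w0 u ∧ At h v t j b i k A w0 u) ≤
      2 * (D.P h t).Pr (fun u => Vz D v t j b w0 u ∧ A u))
    {y K eps X0 Y : ℝ} (hy : 0 < y) (hyR : y ≤ Rr h t b A w0) (hK0 : 0 < K) (heps : 0 < eps) (heps1 : eps ≤ 1)
    (hK : ∀ u, (D.P h t).p u ≠ 0 → Vz D v t j b w0 u → A u → 1 ≤ K * rT h v t (5 * t + j) i u)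
    (hX : ssQ h v (5 * t) b w0 ≤ X0) (hpX : eps ≤ pX h v t (5 * t + j) b w0)
    (hlow : y * Real.exp (-Y) ≤ K * (D.P h t).ce (Cb D v t (5 * t + j) b) (fun u => ind (A u)) w0)
    (hup : K * (D.P h t).ce (Cb D v t (5 * t + j) b) (fun u => ind (A u)) w0 ≤ y * Real.exp (-256))
    (hY : n * Y ≤ N1) (hN : 512 * (X0 + Real.log (1 / eps) + 1) ≤ N1 * y) (hny : 64 ≤ n * y) :
    (D.P h t).ce (Cb D v t (5 * t + j) b) (fun u => ind (y ≤ Rr h t b A u)) w0 ≤
      K / (eps * y) * Real.exp (257 - 4 * n * y) *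
        (D.P h t).ce (Cb D v t (5 * t + j) b) (fun u => ind (A u)) w0 := by
  set P := D.P h t with hP
  have hv := R.codes
  have I0 := Vx_Ib (j := j) B hw0
  have IV := Vy_Ib (j := j) B hw0 hyR
  set Q := QC h (Um v (t + 1)) t b w0 with hQ
  set G := P.ce (Cb D v t (5 * t + j) b) (fun u => ind (A u)) w0 with hG
  have hKG : 0 < K * G := lt_of_lt_of_le (mul_pos hy (Real.exp_pos _)) hlow
  have hn0 : 0 < n := by linarith
  have hN0 : 0 < N1 := by linarith
  -- the exponent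
  set th := Real.log (y / (K * G)) with hth
  have hq : 0 < y / (K * G) := div_pos hy hKG
  have hexp : Real.exp th * (K * G) = y := by
    rw [hth, Real.exp_log hq]
    exact div_mul_cancel₀ y hKG.ne'
  have hth1 : 256 ≤ th := by
    rw [hth, Real.le_log_iff_exp_le hq, le_div_iff₀ hKG]
    have h1 := mul_le_mul_of_nonneg_left hup (Real.exp_pos 256).le
    have e1 : Real.exp 256 * (y * Real.exp (-256)) = y := by
      rw [Real.exp_neg]
      field_simp
    rw [e1] at h1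
    exact h1
  have hth2 : th ≤ Y := by
    rw [hth, Real.log_le_iff_le_exp hq, div_le_iff₀ hKG]
    have h1 := mul_le_mul_of_nonneg_left hlow (Real.exp_pos Y).le
    have e1 : Real.exp Y * (y * Real.exp (-Y)) = y := by
      rw [Real.exp_neg]
      field_simp
    rw [e1] at h1
    exact h1
  have hnt : n * th ≤ N1 := (mul_le_mul_of_nonneg_left hth2 hn0.le).trans hY
  -- the surprises
  have hx := pX_le hv hj1 (by omega) B hw0
  have hxe : eps ≤ Q.Pr (Vx D v t j b w0) := hpX.trans hx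
  have hlx : Real.log (1 / Q.Pr (Vx D v t j b w0)) ≤ Real.log (1 / eps) := by
    refine Real.log_le_log (by
      have := heps.trans_le hxe
      positivity) ?_
    exact one_div_le_one_div_of_le heps hxe
  have hle0 : 0 ≤ Real.log (1 / eps) := Real.log_nonneg (by rw [le_div_iff₀ heps]; linarith)
  have hvy : 0 < Q.Pr (Vy h v t j b A y w0) := lt_of_le_of_ne (FP.Pr_nonneg _ _) (Ne.symm IV.neC)
  set L' := Real.log (1 / Q.Pr (Vy h v t j b A y w0)) with hL'
  have hL0 : 0 ≤ L' := Real.log_nonneg (by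
    rw [le_div_iff₀ hvy, one_mul]
    exact FP.Pr_le_one _ _)
  have k1 := klc_ib H R hn hN1 ht B IV
  have k2 := let_ib hN1 B IV
  have k3 := let_ib hN1 B I0
  have k4 := den_ge H hv hj1 (by omega) ht B hw0 hyR
  have k5 := At_le hv hj1 (by omega) B hw0 hg
  rw [← hP] at k1 k2 k3 k4 k5
  rw [← hQ] at k1 k2 k3
  rw [← hG] at k5
  have k6 : (P.cond (Vx D v t j b w0)).E (Q.ce (zf (Um v (t + 1)) k) (fun u => ind (At h v t j b i k A w0 u))) ≤
      K * (P.cond (Vx D v t j b w0)).Pr (At h v t j b i k A w0) := by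
    have hAt : Fac (fun w => (FQ v t i w, zf (Um v (t + 1)) k w)) (At h v t j b i k A w0) := by
      intro a c hac
      obtain ⟨e1, e2⟩ := Prod.mk.inj hac
      unfold At
      rw [e1, e2]
    refine cmp I0.acC hAt (fun w hw hAw => ?_) (fun u hu hAu => ?_)
    · obtain ⟨u, hu, hz, -, hF, hZ⟩ := hAw
      exact ⟨u, (FP.cond_p_ne I0.ne).2 ⟨Vz_sub hv hj1 (by omega) hz, hu⟩, Prod.ext hF hZ⟩
    · obtain ⟨u', hu', hz', hA', hF, hZ⟩ := hAu
      rw [← dens_eq hF hZ, ← rT_dens hv hj1 hj4 B hw0 hu' hz']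
      exact hK u' hu' hz' hA'
  have hAf : Fac (fun w => (FQ v t i w, zf (Um v (t + 1)) k w)) (At h v t j b i k A w0) := by
    intro a c hac
    obtain ⟨e1, e2⟩ := Prod.mk.inj hac
    unfold At
    rw [e1, e2]
  have k7 := dev (QV := P.cond (Vy h v t j b A y w0)) (QD := P.cond (Vx D v t j b w0)) (QC := Q)
    (Pb := QB h (Um v (t + 1)) t b w0) IV.acC IV.acB I0.acB hAf (th := th) (by linarith)
  have hem : 0 ≤ Real.exp th - 1 := by
    have := Real.add_one_le_exp th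
    linarith
  have hXn : ssQ h v (5 * t) b w0 ≤ X0 := hX
  have key := rare_num (L' := L') (th := th) (y := y) (n := n) (N1 := N1) (X0 := X0) (le0 := Real.log (1 / eps))
    (KG := K * G) hn hN1 hy hth1 hnt hL0 hle0 hN hexp hKG.le (by
      have m1 : (P.cond (Vy h v t j b A y w0)).kl (QB h (Um v (t + 1)) t b w0) (zf (Um v (t + 1)) k) ≤
          2 / N1 * (X0 + L' + 1) := k2.trans (mul_le_mul_of_nonneg_left (by linarith) (by positivity))
      have m2 : (P.cond (Vx D v t j b w0)).kl (QB h (Um v (t + 1)) t b w0) (zf (Um v (t + 1)) k) ≤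
          2 / N1 * (X0 + Real.log (1 / eps) + 1) := k3.trans (mul_le_mul_of_nonneg_left (by linarith) (by positivity))
      have m3 : th * ((P.cond (Vy h v t j b A y w0)).kl (QB h (Um v (t + 1)) t b w0) (zf (Um v (t + 1)) k) +
          4 * (P.cond (Vx D v t j b w0)).kl (QB h (Um v (t + 1)) t b w0) (zf (Um v (t + 1)) k)) ≤
          th * (2 / N1 * (X0 + L' + 1) + 4 * (2 / N1 * (X0 + Real.log (1 / eps) + 1))) :=
        mul_le_mul_of_nonneg_left (by linarith) (by linarith)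
      have m4 : (Real.exp th - 1) * (P.cond (Vx D v t j b w0)).E (Q.ce (zf (Um v (t + 1)) k)
          (fun u => ind (At h v t j b i k A w0 u))) ≤ (Real.exp th - 1) * (2 * (K * G)) := by
        refine mul_le_mul_of_nonneg_left (k6.trans ?_) hem
        have := mul_le_mul_of_nonneg_left k5 hK0.le
        linarith
      have m5 := mul_le_mul_of_nonneg_left k4 (show 0 ≤ th by linarith)
      linarith)
  -- conclusion
  have r1 := rat_eq (j := j) hv hj1 (by omega) B hw0 hyR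
  rw [← hP, ← hQ] at r1
  set r := P.ce (Cb D v t (5 * t + j) b) (fun u => ind (y ≤ Rr h t b A u)) w0 with hr
  have r0 : 0 ≤ r := P.ce_nonneg (fun _ _ => ind_nonneg _) w0
  have r2 : Q.Pr (Vy h v t j b A y w0) ≤ Real.exp (1 - n * th * y / 64) := by
    have h1 : Real.log (Q.Pr (Vy h v t j b A y w0)) ≤ 1 - n * th * y / 64 := by
      have e1 : L' = - Real.log (Q.Pr (Vy h v t j b A y w0)) := by
        rw [hL', one_div, Real.log_inv]
      linarith
    exact (Real.log_le_iff_le_exp hvy).1 h1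
  have r3 : Real.exp (1 - n * th * y / 64) ≤ Real.exp (257 - 4 * n * y) * Real.exp (-th) := by
    rw [← Real.exp_add]
    refine Real.exp_le_exp.2 ?_
    nlinarith
  have r4 : Real.exp (-th) = K * G / y := by
    rw [Real.exp_neg]
    have := Real.exp_pos th
    field_simp
    linarith
  have r5 : r * eps ≤ Real.exp (257 - 4 * n * y) * (K * G / y) := by
    have h1 := mul_le_mul_of_nonneg_left hxe r0
    rw [r1] at h1
    rw [r4] at r3
    linarith
  have e1 : K / (eps * y) * Real.exp (257 - 4 * n * y) * G = Real.exp (257 - 4 * n * y) * (K * G / y) / eps := by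
    field_simp
  rw [e1, le_div_iff₀ heps]
  exact r5

end

end Pool.Agent.GMH.Hv.Tw
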