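import Pool.Agent.GMH.HvX
import Pool.Agent.GMH.HvR

/-!
# GMH/HvWd (helper19): TWO RISING TOPS AT A DIGIT OR A HEAVY PUBLIC VALUE, definitions

`b` = exact vertex, seen by the two tops `i`, `k`; state `q = 5 t + j`, `j = 1, 2`; `A` = event of what the top `i` sees and of
its label.
* `Sg` : hidden point, exact point of `b`, cells of the time `n`; `Cb` : class of `b` (letter of the state `5 t`, public
  information of the state `q`); `Rr` : density of `A` at (hidden point, exact point of `b`, cells);
* `At` : the pairs (letter of `k`, label) of the points of `A` in the class of `w0`.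
-/

set_option autoImplicit false
set_option linter.unusedSectionVars false

namespace Pool.Agent.GMH.Hv.Tw

open Finset Pool.Agent.PWZ Pool.Agent.M3 Pool.Agent.GM Pool.Agent.GM.Harm Pool.Agent.GMH Pool.Agent.GMH.NZ
open Pool.Agent.GMH.V3 Pool.Agent.GMH.TP Pool.Agent.GMH.KF Pool.Agent.GMH.Hv.HvX

noncomputable section

variable {X β γ φ : Type} [Fintype X] [Fintype β] [Fintype φ] [Nonempty X] [Nonempty β]
variable {D : HD (Fin 3) X β γ φ} {al : ℝ} (h : D.Thick al)
  (v : ℕ → Finset (Fin 3) → X → (Fin 3 → β) → Pt (Fin 3) X β φ)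

variable (D) in
/-- hidden point, exact point of `b`, cells of the time `n` -/
def Sg (b : Fin 3) (n : ℕ) (w : Pt (Fin 3) X β φ) : X × (β × (Fin 3 → γ)) := (w.1, w.2.1 b, fun j => D.qb n (w.2.1 j))

variable (D) in
/-- the class of `b` with the public additions up to the state `q` -/
def Cb (t q : ℕ) (b : Fin 3) (w : Pt (Fin 3) X β φ) := (XLq v (5 * t) b w, NPq D v q w)

/-- density of `A` at (hidden point, exact point of `b`, cells of `t + 1`) -/
def Rr (t : ℕ) (b : Fin 3) (A : Pt (Fin 3) X β φ → Prop) (w : Pt (Fin 3) X β φ) : ℝ :=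
  (D.P h t).ce (Sg D b (t + 1)) (fun u => ind (A u)) w

/-- the pairs (letter of `k`, label of the top `i`) of the points of `A` in the class of `w0` with the additions -/
def At (t j : ℕ) (b i k : Fin 3) (A : Pt (Fin 3) X β φ → Prop) (w0 a : Pt (Fin 3) X β φ) : Prop :=
  ∃ u, (D.P h t).p u ≠ 0 ∧ Vz D v t j b w0 u ∧ A u ∧ FQ v t i u = FQ v t i a ∧
    zf (Um v (t + 1)) k u = zf (Um v (t + 1)) k a

end

end Pool.Agent.GMH.Hv.Tw
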