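import Pool.Agent.GMH.TriD
import Pool.Agent.GMH.TopSplit
import Pool.Agent.GMH.KinMs

/-!
# GMH.Inert (helper58): OWN LAWS AT A BIT; the removed tuples whose bad tops are weak (row A6, N2)

Setting of `GMH.TriC`, `GMH.TriD`: one bit `E` of one exact vertex `b` at a step which ends at `5 t + 5`, `i ≠ b`.
* `tvp_coarse` : a coarser letter;
* `own_cls` : one class: the top `i` of the time `t`, given all final thin labels and the bit, against its own law in the final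
  state (first swap `sw1`);
* `own_one` : one time; `own_sum` : all times:
  `∑ P_t (A, E, F_i ∈ S) ≤ ∑ E_t (1_(A, E) q'_i (S)) + 2 P(dead) + 3 NT sqrt ((log (MT / NT) + Lam + 1) / n) + 2 exp (-n) MT`,
  `S` any set seen by the final thin labels, `q'_i` the own law of the top `i` in the final state;
* `bad_own` : own mass of the bad tops, at most `2 e1 / e2 + 2 eF`; `kd_bad` : a kind `2 .. 5` has a bad top besides any of
  its vertices;
* `ine_top`, `ine_kind` : the tuples of a kind `2 .. 5` removed inside a bit of a vertex of the kind, no bad top strong.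
-/

set_option autoImplicit false
set_option linter.unusedSectionVars false

namespace Pool.Agent.GMH.TP

open Finset Pool.Agent.PWZ Pool.Agent.M3 Pool.Agent.GM Pool.Agent.GM.Harm Pool.Agent.GMH Pool.Agent.GMH.NZ
open Pool.Agent.GMH.V3 Pool.Agent.GMH.KF

noncomputable section

namespace Inr

section abs

variable {Om : Type*} [Fintype Om] {κ κ' ι ζ : Type*} {Q P : FP Om} {X : Om → κ} {X' : Om → κ'} {Y : Om → ι} {Z : Om → ζ}

theorem sum_ind_le {S : Finset κ'} (y : κ') : ∑ x ∈ S, ind (y = x) ≤ 1 := by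
  classical
  by_cases h : y ∈ S
  · rw [Finset.sum_eq_single y (fun x _ hx => ind_not fun e => hx e.symm) (fun h' => absurd h h')]
    exact ind_le_one _
  · rw [Finset.sum_eq_zero fun x hx => ind_not fun e : y = x => h (by rw [e]; exact hx)]
    exact zero_le_one

/-- **a coarser letter** -/
theorem tvp_coarse (hac : Q.Ac P) (hYZ : Fac Y Z) {w : Om}
    (hd : ∀ u v, P.p u ≠ 0 → P.p v ≠ 0 → Z u = Z w → Z v = Z w → X u = X v → X' u = X' v) :
    tvp Q P X' Y Z w ≤ tvp Q P X Y Z w := by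
  classical
  set f0 : κ → κ' := fun f => if hex : ∃ u, P.p u ≠ 0 ∧ Z u = Z w ∧ X u = f then X' (Classical.choose hex) else X' w with hf0
  have hx : ∀ v, P.p v ≠ 0 → Z v = Z w → X' v = f0 (X v) := by
    intro v hv hz
    have hex : ∃ u, P.p u ≠ 0 ∧ Z u = Z w ∧ X u = X v := ⟨v, hv, hz, rfl⟩
    have h1 := Classical.choose_spec hex
    have h2 : f0 (X v) = X' (Classical.choose hex) := by rw [hf0]; exact dif_pos hex
    rw [h2]
    exact hd v _ hv h1.1 hz h1.2.1 h1.2.2.symm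
  have pP : ∀ x, P.pv Z X' w x = ∑ f ∈ vals X, P.pv Z X w f * ind (f0 f = x) := by
    intro x
    rw [P.sum_pv (W := Z) X (F := fun _ f => ind (f0 f = x)) (fun _ _ _ _ => rfl) w]
    exact Gdy.ce_congr_on fun v hv hz => by rw [hx v hv hz]
  have pQ : ∀ x, Q.pv Y X' w x = ∑ f ∈ vals X, Q.pv Y X w f * ind (f0 f = x) := by
    intro x
    rw [Q.sum_pv (W := Y) X (F := fun _ f => ind (f0 f = x)) (fun _ _ _ _ => rfl) w]
    exact Gdy.ce_congr_on fun v hv hy => by rw [hx v (hac v hv) (hYZ v w hy)]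
  unfold tvp
  calc ∑ x ∈ vals X', |Q.pv Y X' w x - P.pv Z X' w x|
      ≤ ∑ x ∈ vals X', ∑ f ∈ vals X, |Q.pv Y X w f - P.pv Z X w f| * ind (f0 f = x) := by
        refine Finset.sum_le_sum fun x _ => ?_
        rw [pP x, pQ x, ← Finset.sum_sub_distrib]
        refine (Finset.abs_sum_le_sum_abs _ _).trans (le_of_eq (Finset.sum_congr rfl fun f _ => ?_))
        rw [← sub_mul, abs_mul, abs_of_nonneg (ind_nonneg _)]
    _ = ∑ f ∈ vals X, |Q.pv Y X w f - P.pv Z X w f| * ∑ x ∈ vals X', ind (f0 f = x) := by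
        rw [Finset.sum_comm]
        exact Finset.sum_congr rfl fun f _ => (Finset.mul_sum _ _ _).symm
    _ ≤ ∑ f ∈ vals X, |Q.pv Y X w f - P.pv Z X w f| := by
        refine Finset.sum_le_sum fun f _ => ?_
        have := mul_le_mul_of_nonneg_left (sum_ind_le (S := vals X') (f0 f)) (abs_nonneg (Q.pv Y X w f - P.pv Z X w f))
        linarith

/-- the trivial bound -/
theorem triv3 {Om : Type*} [Fintype Om] (P : FP Om) {V : Om → Prop} {a G : Om → ℝ} (h0 : ∀ w, 0 ≤ a w) (h1 : ∀ w, a w ≤ 1)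
    (hG : ∀ w, P.p w ≠ 0 → |G w| ≤ 2) : |P.E (fun w => ind (V w) * (a w * G w))| ≤ P.Pr V * 2 := by
  have k : ∀ w, P.p w ≠ 0 → |ind (V w) * (a w * G w)| ≤ ind (V w) * 2 := by
    intro w hw
    rw [abs_mul, abs_of_nonneg (ind_nonneg _), abs_mul, abs_of_nonneg (h0 w)]
    refine mul_le_mul_of_nonneg_left ?_ (ind_nonneg _)
    have h6 := mul_le_mul (h1 w) (hG w hw) (abs_nonneg _) zero_le_one
    linarith
  have e : P.Pr V * 2 = P.E (fun w => ind (V w) * 2) := by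
    unfold FP.Pr
    rw [mul_comm, ← P.E_smul]
    exact P.E_congr fun w _ => mul_comm _ _
  rw [e, abs_le, ← P.E_neg]
  exact ⟨P.E_mono fun w hw => (abs_le.1 (k w hw)).1, P.E_mono fun w hw => (abs_le.1 (k w hw)).2⟩

/-- inside an event -/
theorem E_ev {Om : Type*} [Fintype Om] (P : FP Om) {V : Om → Prop} (hV : P.Pr V ≠ 0) (f : Om → ℝ) :
    P.E (fun w => ind (V w) * f w) = P.Pr V * (P.cond V).E f := by
  rw [FP.cond_E hV]
  field_simp

end abs

section run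

variable {X β γ φ : Type} [Fintype X] [Fintype β] [Fintype φ] [Nonempty X] [Nonempty β]
variable {D : HD (Fin 3) X β γ φ} {al : ℝ} {h : D.Thick al} {v : ℕ → Finset (Fin 3) → X → (Fin 3 → β) → Pt (Fin 3) X β φ}
variable {t : ℕ} {b c d : Fin 3} {w0 : Pt (Fin 3) X β φ} {n N1 X0 Lam : ℝ}
variable {dg : ℕ → X → ℝ} {prr : ℕ → Fin 3 → φ → φ} {T : ℕ} {E Af : Pt (Fin 3) X β φ → Prop}

/-- the top `i` of the time `t` at a point of the time `t + 1` -/
def Fo1 (v : ℕ → Finset (Fin 3) → X → (Fin 3 → β) → Pt (Fin 3) X β φ) (prr : ℕ → Fin 3 → φ → φ) (t : ℕ) (i : Fin 3)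
    (w : Pt (Fin 3) X β φ) : Tt X β φ := FQ v t i (old prr t w)

/-- the top is determined by the label and by what it sees -/
theorem Fo1_det (H : D.Hyp dg prr al T Lam) {N : Finset (Fin 3) → ℝ} (R : Run h N (SS1 (Fin 3)) (AdmDep D) v)
    (hN : ∀ l : Fin 3, 0 < N (univ.erase l)) (ht : t < T) {i : Fin 3} {a e : Pt (Fin 3) X β φ}
    (ha : (D.P h (t + 1)).p a ≠ 0) (he : (D.P h (t + 1)).p e ≠ 0)
    (hZ : ZbQ D v (5 * t + 5) i a = ZbQ D v (5 * t + 5) i e) (hl : a.2.2 i = e.2.2 i) :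
    Fo1 v prr t i a = Fo1 v prr t i e := by
  have ha' := old_supp H ht ha
  have he' := old_supp H ht he
  refine (top_name (q := 5 * t + 5) H R (fun l => mem_SS1.2 (Finset.erase_ne_self.2 (mem_univ l)))
    (fun hh => (mem_SS1.1 hh) rfl) hN ht.le (by omega) ha' he' ?_).2 ?_
  · have h1 : ∀ u : Pt (Fin 3) X β φ, ZbQ D v (5 * t + 5) i (old prr t u) = ZbQ D v (5 * t + 5) i u := fun u =>
      ZQ_Zb (5 * t + 5) i _ _ (TriS.ZQ_old (5 * t + 5) t u)
    rw [h1, h1]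
    exact hZ
  · show prr t i (a.2.2 i) = prr t i (e.2.2 i)
    rw [hl]

/-- **THE OWN LAW INSIDE A BIT**, one class -/
theorem own_cls (p : TriB.Par n N1 X0 Lam) (ha : Real.exp (-Lam) ≤ al) (ha1 : al ≤ 1) (H : D.Hyp dg prr al T Lam)
    (R : Run h (pr3 (Fin 3) n N1) (SS1 (Fin 3)) (AdmDep D) v) (ht : t < T)
    (B : Bk h (pr3 (Fin 3) n N1) (SS1 (Fin 3)) (Um v (t + 2)) (t + 1) b c d)
    (hAf : Fac (ZQ (φ := φ) D v (5 * t + 5)) Af)
    (hA : ∀ w, (D.P h (t + 1)).p w ≠ 0 → Af w → ∀ i, ssQ h v (5 * t + 5) i w ≤ X0)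
    (hE : Fac (Ah D (t + 1) {b}) E) (hw : (D.P h (t + 1)).p w0 ≠ 0) (hEw : E w0)
    {g : Pt (Fin 3) X β φ → Tt X β φ → ℝ} (hg : ∀ x, Fac (ZQ D v (5 * t + 5)) (fun w => g w x)) (hb : ∀ w x, |g w x| ≤ 1) :
    |(D.P h (t + 1)).E (fun w => ind (TriS.Cb D (Um v (t + 2)) (t + 1) b w = TriS.Cb D (Um v (t + 2)) (t + 1) b w0 ∧
        E w) * (ind (Af w) * (g w (Fo1 v prr t c w) - ∑ x ∈ vals (Fo1 v prr t c),
          (D.P h (t + 1)).pv (ZbQ D v (5 * t + 5) c) (Fo1 v prr t c) w x * g w x)))| ≤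
      (D.P h (t + 1)).Pr (fun w => TriS.Cb D (Um v (t + 2)) (t + 1) b w = TriS.Cb D (Um v (t + 2)) (t + 1) b w0 ∧ E w) *
        TriE.prC (Lam + 1) n 3 2 (Real.exp (-n))
          ((D.P h (t + 1)).ce (TriS.Cb D (Um v (t + 2)) (t + 1) b) (fun w => ind (E w)) w0) := by
  classical
  set P := D.P h (t + 1) with hP
  have I := TriB.Ib_run B hE hw hEw
  set V : Pt (Fin 3) X β φ → Prop := fun w => TriS.Cb D (Um v (t + 2)) (t + 1) b w = TriS.Cb D (Um v (t + 2)) (t + 1) b w0 ∧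
    E w with hV
  set G : Pt (Fin 3) X β φ → ℝ := fun w => g w (Fo1 v prr t c w) - ∑ x ∈ vals (Fo1 v prr t c),
    P.pv (ZbQ D v (5 * t + 5) c) (Fo1 v prr t c) w x * g w x with hG
  have hG2 : ∀ w, P.p w ≠ 0 → |G w| ≤ 2 := by
    intro w hw'
    have h1 := abs_sub (g w (Fo1 v prr t c w)) (∑ x ∈ vals (Fo1 v prr t c),
      P.pv (ZbQ D v (5 * t + 5) c) (Fo1 v prr t c) w x * g w x)
    have h2 := hb w (Fo1 v prr t c w)
    have h3 := pv_abs_sum (P := P) (X := Fo1 v prr t c) (Z := ZbQ D v (5 * t + 5) c) hw' (g := g w) (hb w)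
    linarith
  refine TriB.le_mul_prC (triv3 P (fun w => ind_nonneg (Af w)) (fun w => ind_le_one _) hG2) fun he => ?_
  have e1 := TriB.ce_QC B hE hw hEw
  obtain ⟨l0, ln⟩ := TriB.lg_e he (TriB.ce_one w0 hw)
  have hcls : ∀ w, V w → clsb (Um v (t + 2)) (pub0 D (t + 1) (Um v (t + 2)) w0) b w0 w := I.sub
  by_cases hd : ssQ h v (5 * t + 5) b w0 ≤ X0
  · have s0 : 0 ≤ ssQ h v (5 * t + 5) b w0 := by
      rw [TriB.ssQ_at (5 * t + 5) b w0 (t + 1)]
      exact sp_nonneg _ _ _ hw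
    have k1 : Lb h (Um v (t + 2)) (t + 1) b w0 V ≤
        ssQ h v (5 * t + 5) b w0 + Real.log (1 / P.ce (TriS.Cb D (Um v (t + 2)) (t + 1) b) (fun w => ind (E w)) w0) := by
      rw [TriB.Lb_eq I, e1]
    have k2 : Real.log (1 / (QC h (Um v (t + 2)) (t + 1) b w0).Pr V) ≤
        Real.log (1 / P.ce (TriS.Cb D (Um v (t + 2)) (t + 1) b) (fun w => ind (E w)) w0) := by
      rw [e1]
    obtain ⟨-, -, m1, m2⟩ := TriB.eM p.x1
    obtain ⟨⟨a1, a2⟩, ⟨b1, b2⟩, b3, b4⟩ := TriB.lgs (X0 := X0) ha ha1 m1 m2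
    have o1 := p.ok l0 ln (add_nonneg s0 l0) (add_le_add_left hd _) a1 a2 b1 b2
    have k3 := sw1 B I (TriB.Wb_run (w0 := w0) B) (TriB.Tf_card (h := h) (v := v) (t := t) X0 w0) k1 k2
      (a := TriB.aa h v X0 t c d w0 Af) TriB.aa_0 TriB.aa_1 (fun w _ hh => (TriB.aa_typ hh).2)
    have hq : 0 ≤ (Real.log (1 / P.ce (TriS.Cb D (Um v (t + 2)) (t + 1) b) (fun w => ind (E w)) w0) + Lam + 1) / n :=
      div_nonneg (by linarith [p.L1]) (by linarith [p.n2])
    have k4 : Real.sqrt (2 * kap1 (pr3 (Fin 3) n N1) al (3 * Real.exp X0) b c (ssQ h v (5 * t + 5) b w0 +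
        Real.log (1 / P.ce (TriS.Cb D (Um v (t + 2)) (t + 1) b) (fun w => ind (E w)) w0))
        (Real.log (1 / P.ce (TriS.Cb D (Um v (t + 2)) (t + 1) b) (fun w => ind (E w)) w0))) ≤
        5 / 2 * Real.sqrt ((Real.log (1 / P.ce (TriS.Cb D (Um v (t + 2)) (t + 1) b) (fun w => ind (E w)) w0) + Lam + 1) / n) := by
      refine TriN.sq6 (a := 3) hq (by norm_num) (by norm_num) ?_
      unfold kap1
      rw [TriB.pr3_0, TriB.pr3_1, TriB.pr3_1, TriB.pr3_2]
      exact o1.k1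
    have e2 : P.E (fun w => ind (V w) * (ind (Af w) * G w)) =
        P.E (fun w => ind (V w) * (TriB.aa h v X0 t c d w0 Af w * G w)) := by
      refine P.E_congr fun w hw' => ?_
      by_cases hVw : V w
      · rw [TriB.aa_eq hw' (hcls w hVw) (hA w hw')]
      · rw [ind_not hVw, zero_mul, zero_mul]
    have e2' : P.E (fun w => ind (V w) * (ind (Af w) * G w)) =
        P.Pr V * (P.cond V).E (fun w => TriB.aa h v X0 t c d w0 Af w * G w) := by
      rw [e2]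
      exact E_ev P I.ne _
    show |P.E (fun w => ind (V w) * (ind (Af w) * G w))| ≤ _
    rw [e2', abs_mul, abs_of_nonneg (P.Pr_nonneg V)]
    refine mul_le_mul_of_nonneg_left ?_ (P.Pr_nonneg V)
    have k5 := swap_one (Q := P.cond V) (P := P) (X := Fo1 v prr t c) (Y := ZQ D v (5 * t + 5)) (Z := ZbQ D v (5 * t + 5) c)
      (TriB.aa_fac (c := c) (d := d) (w0 := w0) (X0 := X0) (h := h) hAf) TriB.aa_0 hg (fun w _ x => hb w x)
    have e3 : (P.cond V).E (fun w => TriB.aa h v X0 t c d w0 Af w * G w) =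
        (P.cond V).E (fun w => TriB.aa h v X0 t c d w0 Af w * g w (Fo1 v prr t c w)) -
        (P.cond V).E (fun w => TriB.aa h v X0 t c d w0 Af w * ∑ x ∈ vals (Fo1 v prr t c),
          P.pv (ZbQ D v (5 * t + 5) c) (Fo1 v prr t c) w x * g w x) := by
      rw [← FP.E_sub]
      exact FP.E_congr _ fun w _ => mul_sub _ _ _
    have eZ : ZbQ (φ := φ) D v (5 * t + 5) c = Zo D (Um v (t + 2)) (t + 1) c := ZbQ_5 t c
    have hN : ∀ l : Fin 3, 0 < pr3 (Fin 3) n N1 (univ.erase l) := fun l =>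
      zero_lt_one.trans_le (pr3_one (by linarith [p.n2]) p.N1' _)
    have k6 : (P.cond V).E (fun w => TriB.aa h v X0 t c d w0 Af w *
        tvp (P.cond V) P (Fo1 v prr t c) (ZQ D v (5 * t + 5)) (ZbQ D v (5 * t + 5) c) w) ≤
        (P.cond V).E (fun w => TriB.aa h v X0 t c d w0 Af w *
        tvp (P.cond V) P (Fc c) (ZQ D v (5 * t + 5)) (Zo D (Um v (t + 2)) (t + 1) c) w) := by
      refine FP.E_mono _ fun w _ => mul_le_mul_of_nonneg_left ?_ (TriB.aa_0 w)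
      rw [← eZ]
      exact tvp_coarse (FP.cond_ac P V) (ZQ_Zb _ _) fun u u' hu hu' hz hz' hx =>
        Fo1_det H R hN ht hu hu' (hz.trans hz'.symm) hx
    rw [e3]
    refine k5.trans (k6.trans (k3.trans (k4.trans ?_)))
    rw [← add_assoc]
    have := Real.sqrt_nonneg ((Real.log (1 / P.ce (TriS.Cb D (Um v (t + 2)) (t + 1) b) (fun w => ind (E w)) w0) + Lam + 1) / n)
    linarith
  · have e2 : P.E (fun w => ind (V w) * (ind (Af w) * G w)) = P.E (fun _ => 0) := by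
      refine P.E_congr fun w hw' => ?_
      by_cases hVw : V w
      · rw [ind_not (TriB.dead_cls hA hd hw' (hcls w hVw)), zero_mul, mul_zero]
      · rw [ind_not hVw, zero_mul]
    show |P.E (fun w => ind (V w) * (ind (Af w) * G w))| ≤ _
    rw [e2, FP.E_const, abs_zero]
    exact mul_nonneg (FP.Pr_nonneg _ _) (mul_nonneg (by norm_num) (Real.sqrt_nonneg _))

/-- the mean against the law of a letter -/
theorem sum_fix {Om : Type*} [Fintype Om] {κ ζ : Type*} (P : FP Om) (Z : Om → ζ) (Y : Om → κ) (G : κ → ℝ) (w : Om) :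
    ∑ x ∈ vals Y, P.pv Z Y w x * G x = P.ce Z (fun u => G (Y u)) w :=
  P.sum_pv (W := Z) Y (F := fun _ x => G x) (fun _ _ _ _ => rfl) w

/-- **ONE TIME** -/
theorem own_one {ap : AP} (p : TriB.Par n N1 ap.X0 Lam) (H : D.Hyp dg prr al T Lam)
    (R : Run h (pr3 (Fin 3) n N1) (SS1 (Fin 3)) (AdmDep D) v) (ht : t < T) {i : Fin 3} (hib : i ≠ b)
    {A : Pt (Fin 3) X β φ → Prop} (hA : Fac (ZQ (φ := φ) D v (5 * t + 5)) A)
    (hE : Fac (Ah D (t + 1) {b}) E) {g : Pt (Fin 3) X β φ → Tt X β φ → ℝ}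
    (hg : ∀ x, Fac (ZQ D v (5 * t + 5)) (fun w => g w x)) (hb : ∀ w x, |g w x| ≤ 1) :
    |(D.P h t).E (fun w => ind (A w ∧ E w) * (g w (FQ v t i w) -
        (D.P h t).ce (ZbQ D v (5 * t + 5) i) (fun u => g w (FQ v t i u)) w))| ≤
      2 * (D.P h (t + 1)).Pr (fun w => A w ∧ ¬ (A w ∧ Ar h v ap (2 * (t + 1)) w)) +
        (D.P h (t + 1)).E (fun w => ind (E w) * TriE.prC (Lam + 1) n 3 2 (Real.exp (-n)) (TriB.eb h v t b E w)) := by
  classical
  have hn1 : 1 ≤ n := by linarith [p.n2]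
  have hN : ∀ l : Fin 3, 0 < pr3 (Fin 3) n N1 (univ.erase l) := fun l =>
    zero_lt_one.trans_le (pr3_one hn1 p.N1' _)
  have hxy : XY E := fun x y F F' => hE _ _ rfl
  have ha1 : al ≤ 1 := hal_one h b
  have key : ∀ b' i' : Fin 3, i' ≠ b' → ∃ d : Fin 3, b' ≠ d ∧ i' ≠ d := by decide
  obtain ⟨d, hbd, hid⟩ := key b i hib
  have B : Bk h (pr3 (Fin 3) n N1) (SS1 (Fin 3)) (Um v (t + 2)) (t + 1) b i d :=
    TriB.Bk_run hn1 p.N1' R (Ne.symm hib) hbd hid (t + 1)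
  set P := D.P h (t + 1) with hP
  set Af : Pt (Fin 3) X β φ → Prop := fun w => A w ∧ Ar h v ap (2 * (t + 1)) w with hAf
  have fAf : Fac (ZQ (φ := φ) D v (5 * t + 5)) Af := by
    intro a e hae
    have h1 : A a = A e := hA a e hae
    have h2 : Ar h v ap (2 * (t + 1)) a = Ar h v ap (2 * (t + 1)) e := Ar0_fac h ap (t + 1) a e hae
    show (A a ∧ Ar h v ap (2 * (t + 1)) a) = (A e ∧ Ar h v ap (2 * (t + 1)) e)
    rw [h1, h2]
  have a5 : ∀ w, P.p w ≠ 0 → Af w → ∀ i, ssQ h v (5 * t + 5) i w ≤ ap.X0 := by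
    intro w _ hw i
    exact (AQ_0 h ap (t := t + 1) hw.2).1 i
  set G : Pt (Fin 3) X β φ → ℝ := fun w => g w (Fo1 v prr t i w) - ∑ x ∈ vals (Fo1 v prr t i),
    P.pv (ZbQ D v (5 * t + 5) i) (Fo1 v prr t i) w x * g w x with hG
  have hG2 : ∀ w, P.p w ≠ 0 → |G w| ≤ 2 := by
    intro w hw'
    have h1 := abs_sub (g w (Fo1 v prr t i w)) (∑ x ∈ vals (Fo1 v prr t i),
      P.pv (ZbQ D v (5 * t + 5) i) (Fo1 v prr t i) w x * g w x)
    have h2 := hb w (Fo1 v prr t i w)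
    have h3 := pv_abs_sum (P := P) (X := Fo1 v prr t i) (Z := ZbQ D v (5 * t + 5) i) hw' (g := g w) (hb w)
    linarith
  -- the law of the time `t + 1`
  have e0 : (D.P h t).E (fun w => ind (A w ∧ E w) * (g w (FQ v t i w) -
      (D.P h t).ce (ZbQ D v (5 * t + 5) i) (fun u => g w (FQ v t i u)) w)) = P.E (fun w => ind (A w ∧ E w) * G w) := by
    have hpr := H.kf_pr t ht
    rw [← push_E h hpr]
    refine P.E_congr fun w hw => ?_
    have hz := TriS.ZQ_old (D := D) (v := v) (prr := prr) (5 * t + 5) t w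
    have e1 : (A (old prr t w) ∧ E (old prr t w)) = (A w ∧ E w) := by
      have h1 : A (old prr t w) = A w := hA _ _ hz
      rw [h1, propext (TriT.old_xy hxy t w)]
    have e2 : ∀ x, g (old prr t w) x = g w x := fun x => hg x _ _ hz
    have e3 : (D.P h t).ce (ZbQ D v (5 * t + 5) i) (fun u => g (old prr t w) (FQ v t i u)) (old prr t w) =
        P.ce (ZbQ D v (5 * t + 5) i) (fun u => g w (Fo1 v prr t i u)) w := by
      unfold FP.ce FP.m
      rw [← push_E h hpr, ← push_E h hpr]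
      have hzb : ∀ u : Pt (Fin 3) X β φ, ZbQ D v (5 * t + 5) i (old prr t u) = ZbQ D v (5 * t + 5) i u := fun u =>
        ZQ_Zb (5 * t + 5) i _ _ (TriS.ZQ_old (5 * t + 5) t u)
      congr 1
      · refine P.E_congr fun u _ => ?_
        beta_reduce
        rw [hzb, hzb, e2]
        rfl
      · refine P.E_congr fun u _ => ?_
        rw [hzb, hzb]
    show ind (A (old prr t w) ∧ E (old prr t w)) * (g (old prr t w) (FQ v t i (old prr t w)) -
      (D.P h t).ce (ZbQ D v (5 * t + 5) i) (fun u => g (old prr t w) (FQ v t i u)) (old prr t w)) = _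
    rw [e1, e2, e3, hG]
    beta_reduce
    rw [sum_fix]
    rfl
  rw [e0]
  have e4 : P.E (fun w => ind (A w ∧ E w) * G w) = P.E (fun w => ind (E w) * (ind (Af w) * G w)) +
      P.E (fun w => ind (A w ∧ ¬ Af w) * (ind (E w) * G w)) := by
    rw [← P.E_add]
    refine P.E_congr fun w _ => ?_
    by_cases hA' : A w
    · by_cases hF : Af w
      · rw [ind_and, ind_of hA', ind_of hF, ind_not (fun hh : A w ∧ ¬ Af w => hh.2 hF)]
        ring
      · rw [ind_and, ind_of hA', ind_not hF, ind_of (show A w ∧ ¬ Af w from ⟨hA', hF⟩)]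
        ring
    · rw [ind_not (fun hh : A w ∧ E w => hA' hh.1), ind_not (fun hh : Af w => hA' hh.1),
        ind_not (fun hh : A w ∧ ¬ Af w => hA' hh.1)]
      ring
  have k1 : |P.E (fun w => ind (E w) * (ind (Af w) * G w))| ≤
      P.E (fun w => ind (E w) * TriE.prC (Lam + 1) n 3 2 (Real.exp (-n)) (TriB.eb h v t b E w)) := by
    refine TriA.sum_cls P (TriS.Cb D (Um v (t + 2)) (t + 1) b) E (fun w => ind (Af w) * G w)
      (fun w => TriE.prC (Lam + 1) n 3 2 (Real.exp (-n)) (TriB.eb h v t b E w))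
      (((D.P h (t + 1)).ce_fac _ _).comp fun x => TriE.prC (Lam + 1) n 3 2 (Real.exp (-n)) x) fun w0 h0 => ?_
    obtain ⟨w1, h1, h2, h3⟩ := TriB.pick h0
    have k := own_cls (w0 := w1) (prr := prr) (T := T) (dg := dg) p H.alL ha1 H R ht B fAf a5 hE h1 h2 hg hb
    rw [h3] at k
    have e1 : TriB.eb h v t b E w0 = TriB.eb h v t b E w1 := (D.P h (t + 1)).ce_fac _ _ w0 w1 h3.symm
    rw [e1]
    exact k
  have k2 : |P.E (fun w => ind (A w ∧ ¬ Af w) * (ind (E w) * G w))| ≤ P.Pr (fun w => A w ∧ ¬ Af w) * 2 :=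
    triv3 P (V := fun w => A w ∧ ¬ Af w) (fun w => ind_nonneg (E w)) (fun w => ind_le_one _) hG2
  rw [e4]
  refine (abs_add_le _ _).trans ?_
  linarith

/-- **ALL TIMES** : the top `i` in the set `S` inside the bit, against its own law in the final state -/
theorem own_sum {ap : AP} (p : TriB.Par n N1 ap.X0 Lam) (H : D.Hyp dg prr al T Lam)
    (R : Run h (pr3 (Fin 3) n N1) (SS1 (Fin 3)) (AdmDep D) v) {i b : Fin 3} (hib : i ≠ b)
    {A E Rm : ℕ → Pt (Fin 3) X β φ → Prop}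
    (hA : ∀ t < T, Fac (ZQ (φ := φ) D v (5 * t + 5)) (A t)) (hAr : ∀ t < T, ∀ w, A t w → Ar h v ap (2 * t + 1) w)
    (hE : ∀ t < T, Fac (Ah D (t + 1) {b}) (E t))
    (hRm : ∀ t < T, Fac (TriS.Cb D (Um v (t + 2)) (t + 1) b) (Rm t)) (hER : ∀ t < T, ∀ w, E t w → Rm t w)
    {NT MT : ℝ} (hNT : ∑ t ∈ range T, (D.P h t).Pr (E t) ≤ NT) (hMT : ∑ t ∈ range T, (D.P h t).Pr (Rm t) ≤ MT)
    (hNM : NT ≤ MT) {S : ℕ → Pt (Fin 3) X β φ → Tt X β φ → Prop}
    (hS : ∀ t < T, ∀ x, Fac (ZQ D v (5 * t + 5)) (fun w => S t w x)) {mu : ℝ}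
    (hmu : ∀ t < T, ∀ w, (D.P h t).p w ≠ 0 → A t w →
      (D.P h t).ce (ZbQ D v (5 * t + 5) i) (fun u => ind (S t w (FQ v t i u))) w ≤ mu) (hmu0 : 0 ≤ mu) :
    ∑ t ∈ range T, (D.P h t).Pr (fun w => (A t w ∧ E t w) ∧ S t w (FQ v t i w)) ≤
      mu * NT + (2 * (D.P h T).Pr (fun w => ¬ Ar h v ap (2 * T) w) +
        (3 * (NT * Real.sqrt ((Real.log (MT / NT) + (Lam + 1)) / n)) + 2 * Real.exp (-n) * MT)) := by
  classical
  have xE : ∀ t < T, XY (E t) := fun t ht x y F F' => hE t ht _ _ rfl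
  have xR : ∀ t < T, XY (Rm t) := fun t ht x y F F' => hRm t ht _ _ (TriB.Cb_xy _ _ _ x y F F')
  have n0 : 0 < n := by linarith [p.n2]
  have one : ∀ t ∈ range T, (D.P h t).Pr (fun w => (A t w ∧ E t w) ∧ S t w (FQ v t i w)) ≤ mu * (D.P h t).Pr (E t) +
      (2 * (D.P h (t + 1)).Pr (fun w => A t w ∧ ¬ (A t w ∧ Ar h v ap (2 * (t + 1)) w)) +
        (D.P h (t + 1)).E (fun w => ind (E t w) * TriE.prC (Lam + 1) n 3 2 (Real.exp (-n)) (TriB.eb h v t b (E t) w))) := by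
    intro t ht
    have ht' := Finset.mem_range.1 ht
    have k := own_one p H R ht' hib (hA t ht') (hE t ht') (g := fun w x => ind (S t w x))
      (fun x a e hae => congrArg ind (hS t ht' x a e hae)) (fun w x => by
        rw [abs_of_nonneg (ind_nonneg _)]
        exact ind_le_one _)
    have k1 := (abs_le.1 k).2
    have e1 : (D.P h t).E (fun w => ind (A t w ∧ E t w) * (ind (S t w (FQ v t i w)) -
        (D.P h t).ce (ZbQ D v (5 * t + 5) i) (fun u => ind (S t w (FQ v t i u))) w)) =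
        (D.P h t).Pr (fun w => (A t w ∧ E t w) ∧ S t w (FQ v t i w)) -
          (D.P h t).E (fun w => ind (A t w ∧ E t w) *
            (D.P h t).ce (ZbQ D v (5 * t + 5) i) (fun u => ind (S t w (FQ v t i u))) w) := by
      unfold FP.Pr
      rw [← FP.E_sub]
      exact FP.E_congr _ fun w _ => by rw [mul_sub, ind_and (A t w ∧ E t w) (S t w (FQ v t i w))]
    have e2 : (D.P h t).E (fun w => ind (A t w ∧ E t w) *
        (D.P h t).ce (ZbQ D v (5 * t + 5) i) (fun u => ind (S t w (FQ v t i u))) w) ≤ mu * (D.P h t).Pr (E t) := by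
      unfold FP.Pr
      rw [← FP.E_smul]
      refine FP.E_mono _ fun w hw => ?_
      by_cases hh : A t w ∧ E t w
      · rw [ind_of hh, one_mul, ind_of hh.2, mul_one]
        exact hmu t ht' w hw hh.1
      · rw [ind_not hh, zero_mul]
        exact mul_nonneg hmu0 (ind_nonneg _)
    rw [e1] at k1
    linarith
  refine (Finset.sum_le_sum one).trans ?_
  rw [Finset.sum_add_distrib, Finset.sum_add_distrib, ← Finset.mul_sum, ← Finset.mul_sum]
  refine add_le_add (mul_le_mul_of_nonneg_left hNT hmu0) (add_le_add (mul_le_mul_of_nonneg_left ?_ (by norm_num)) ?_)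
  · refine le_trans (Finset.sum_le_sum fun t ht => ?_) (sum_killT (h := h) (v := v) H ap)
    have ht' := Finset.mem_range.1 ht
    exact FP.Pr_mono _ fun w _ hw => ⟨hAr t ht' w hw.1, fun h1 => hw.2 ⟨hw.1, h1⟩⟩
  · refine TriE.sum_times (T := T) (fun t => D.P h (t + 1)) (fun t => TriS.Cb D (Um v (t + 2)) (t + 1) b) E Rm
      (fun t w => TriE.prC (Lam + 1) n 3 2 (Real.exp (-n)) (TriB.eb h v t b (E t) w))
      (fun t _ => ((D.P h (t + 1)).ce_fac _ _).comp fun x => TriE.prC (Lam + 1) n 3 2 (Real.exp (-n)) x)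
      hRm (fun t ht w _ hw => hER t ht w hw) (by linarith [p.L1]) n0 (by norm_num) (by norm_num) (Real.exp_pos _).le
      (fun t _ w _ _ => le_refl _) ?_ ?_ hNM
    · refine le_trans (le_of_eq (Finset.sum_congr rfl fun t ht => ?_)) hNT
      exact TriB.Pr_xy' (xE t (Finset.mem_range.1 ht)) (t + 1) t
    · refine le_trans (le_of_eq (Finset.sum_congr rfl fun t ht => ?_)) hMT
      exact TriB.Pr_xy' (xR t (Finset.mem_range.1 ht)) (t + 1) t

end run

/-! ### the mass of a weak bad top -/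

section mass

variable {Om : Type*} [Fintype Om] (P : FP Om) {α β φ : Type*} {Z : Om → β} {Zb : Fin 3 → Om → α} (F : Fin 3 → Om → φ)

/-- a finer letter -/
theorem pv_zero {ζ ζ' κ : Type*} {X : Om → κ} {Y : Om → ζ} {Y' : Om → ζ'} (hY : Fac Y' Y) {w : Om} (hw : P.p w ≠ 0) {x : κ}
    (h0 : P.pv Y X w x = 0) : P.pv Y' X w x = 0 := by
  have hm := P.m_pos Y hw
  have h1 : P.E (fun u => ind (Y u = Y w) * ind (X u = x)) = 0 := by
    have h2 : P.E (fun u => ind (Y u = Y w) * ind (X u = x)) / P.m Y w = 0 := h0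
    rcases div_eq_zero_iff.1 h2 with h3 | h3
    · exact h3
    · exact absurd h3 hm.ne'
  have h2 : P.E (fun u => ind (Y' u = Y' w) * ind (X u = x)) = 0 := by
    refine le_antisymm ?_ (P.E_nonneg fun u _ => mul_nonneg (ind_nonneg _) (ind_nonneg _))
    rw [← h1]
    refine P.E_mono fun u _ => mul_le_mul_of_nonneg_right ?_ (ind_nonneg _)
    by_cases h3 : Y' u = Y' w
    · rw [ind_of h3, ind_of (hY u w h3)]
    · rw [ind_not h3]
      exact ind_nonneg _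
  show P.E (fun u => ind (Y' u = Y' w) * ind (X u = x)) / P.m Y' w = 0
  rw [h2, zero_div]

theorem bad_x (c : KC) (i : Fin 3) (w : Om) (f : Fin 3 → φ) : bad P Z F c i w f ↔ bad P Z F c i w (fun _ => f i) := by
  have e : ∀ j ∈ ({i} : Finset (Fin 3)), (fun _ => f i : Fin 3 → φ) j = f j := fun j hj => by
    rw [Finset.mem_singleton.1 hj]
  unfold bad
  rw [pS_cong P F w e, tvn_cong P F w e]

/-- own mass of the bad tops `i` : `2 e1 / e2 + 2 eF` -/
theorem bad_own {c : KC} (h2 : 0 < c.e2) (i : Fin 3) {w : Om} (hw : P.p w ≠ 0)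
    (h1 : ¬ Ap P Z F c 1 w (tup F w)) (hF : ¬ sF P Z Zb F c w) :
    ∑ x ∈ vals (F i), qF P Zb F i w x * ind (bad P Z F c i w (fun _ => x)) ≤ 2 * (c.e1 / c.e2) + 2 * c.eF := by
  classical
  have k1 : P.ce Z (fun u => ind (bad P Z F c i w (tup F u))) w ≤ 1 / c.e2 * (2 * c.e1) := by
    refine (bad_mass P F h2 i hw).trans (mul_le_mul_of_nonneg_left ?_ (by positivity))
    rw [Ap1_iff P F c hw] at h1
    exact (not_le.1 h1).le
  have k2 : ∑ x ∈ vals (F i), mF P Z F i w x * ind (bad P Z F c i w (fun _ => x)) =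
      P.ce Z (fun u => ind (bad P Z F c i w (tup F u))) w := by
    have h3 := P.sum_pv (W := Z) (F i) (F := fun _ x => ind (bad P Z F c i w (fun _ => x))) (fun _ _ _ _ => rfl) w
    refine h3.trans (P.ce_congr (fun u _ => ?_) w)
    exact congrArg ind (propext (bad_x P F c i w (tup F u)).symm)
  have k3 : tv1n P Z Zb F i w ≤ 2 * c.eF := by
    unfold sF at hF
    push Not at hF
    exact (hF i).le
  have k4 : ∑ x ∈ vals (F i), qF P Zb F i w x * ind (bad P Z F c i w (fun _ => x)) ≤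
      ∑ x ∈ vals (F i), (mF P Z F i w x * ind (bad P Z F c i w (fun _ => x)) + |mF P Z F i w x - qF P Zb F i w x|) := by
    refine Finset.sum_le_sum fun x _ => ?_
    have a1 := neg_abs_le (mF P Z F i w x - qF P Zb F i w x)
    by_cases hb : bad P Z F c i w (fun _ => x)
    · rw [ind_of hb, mul_one, mul_one]
      linarith
    · rw [ind_not hb, mul_zero, mul_zero, zero_add]
      exact abs_nonneg _
  rw [Finset.sum_add_distrib, k2] at k4
  unfold tv1n at k3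
  refine k4.trans ?_
  have e : 1 / c.e2 * (2 * c.e1) = 2 * (c.e1 / c.e2) := by ring
  linarith

/-- a kind `2 .. 5` has a bad top besides any of its vertices -/
theorem kd_bad {c : KC} {k : Fin 10} (hk : k ∈ rK) (hk1 : k ≠ 1) {b : Fin 3} (hb : b ∈ vk k) {w : Om} {f : Fin 3 → φ}
    (h : kdF P Z F c k w f) : ¬ Ap P Z F c 1 w f ∧ ∃ i, i ≠ b ∧ bad P Z F c i w f := by
  have key : ∀ k : Fin 10, k ∈ rK → k ≠ 1 → k = 2 ∨ k = 3 ∨ k = 4 ∨ k = 5 := by decide
  obtain ⟨h1, h2⟩ := h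
  rcases key k hk hk1 with rfl | rfl | rfl | rfl
  · refine ⟨h2 1 (by decide), 0, ?_, ?_⟩
    · have : ∀ b ∈ vk 2, (0 : Fin 3) ≠ b := by decide
      exact this b hb
    · have h3 : bad P Z F c 0 w f ∧ ¬ bad P Z F c 1 w f ∧ ¬ bad P Z F c 2 w f := h1
      exact h3.1
  · refine ⟨h2 1 (by decide), 1, ?_, ?_⟩
    · have : ∀ b ∈ vk 3, (1 : Fin 3) ≠ b := by decide
      exact this b hb
    · have h3 : bad P Z F c 1 w f ∧ ¬ bad P Z F c 0 w f ∧ ¬ bad P Z F c 2 w f := h1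
      exact h3.1
  · refine ⟨h2 1 (by decide), 2, ?_, ?_⟩
    · have : ∀ b ∈ vk 4, (2 : Fin 3) ≠ b := by decide
      exact this b hb
    · have h3 : bad P Z F c 2 w f ∧ ¬ bad P Z F c 0 w f ∧ ¬ bad P Z F c 1 w f := h1
      exact h3.1
  · refine ⟨h2 1 (by decide), ?_⟩
    have h3 : (bad P Z F c 0 w f ∧ bad P Z F c 1 w f) ∨ (bad P Z F c 0 w f ∧ bad P Z F c 2 w f) ∨
      (bad P Z F c 1 w f ∧ bad P Z F c 2 w f) := h1
    have e : ∀ i j b : Fin 3, i ≠ j → i ≠ b ∨ j ≠ b := by decide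
    rcases h3 with ⟨a1, a2⟩ | ⟨a1, a2⟩ | ⟨a1, a2⟩
    · rcases e 0 1 b (by decide) with h4 | h4
      · exact ⟨0, h4, a1⟩
      · exact ⟨1, h4, a2⟩
    · rcases e 0 2 b (by decide) with h4 | h4
      · exact ⟨0, h4, a1⟩
      · exact ⟨2, h4, a2⟩
    · rcases e 1 2 b (by decide) with h4 | h4
      · exact ⟨1, h4, a1⟩
      · exact ⟨2, h4, a2⟩

end mass

/-! ### one step of the run -/

section step

variable {X β γ φ : Type} [Fintype X] [Fintype β] [Fintype φ] [Nonempty X] [Nonempty β]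
variable {D : HD (Fin 3) X β γ φ} {al : ℝ} {h : D.Thick al} {v : ℕ → Finset (Fin 3) → X → (Fin 3 → β) → Pt (Fin 3) X β φ}
variable {b : Fin 3} {n N1 Lam : ℝ}
variable {dg : ℕ → X → ℝ} {prr : ℕ → Fin 3 → φ → φ} {T : ℕ}

/-- **THE WEAK BAD TOPS INSIDE THE BITS**, one top, all times -/
theorem ine_top {ap : AP} (p : TriB.Par n N1 ap.X0 Lam) (H : D.Hyp dg prr al T Lam)
    (R : Run h (pr3 (Fin 3) n N1) (SS1 (Fin 3)) (AdmDep D) v) {i b : Fin 3} (hib : i ≠ b) {s : Fin 6}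
    (hs : ∀ t, qe s t = 5 * t + 5) {A E Rm : ℕ → Pt (Fin 3) X β φ → Prop}
    (hA : ∀ t < T, Fac (VZ (φ := φ) D v s t) (A t)) (hAr : ∀ t < T, ∀ w, A t w → Ar h v ap (2 * t + 1) w)
    (hE : ∀ t < T, Fac (Ah D (t + 1) {b}) (E t))
    (hRm : ∀ t < T, Fac (TriS.Cb D (Um v (t + 2)) (t + 1) b) (Rm t)) (hER : ∀ t < T, ∀ w, E t w → Rm t w)
    {NT MT : ℝ} (hNT : ∑ t ∈ range T, (D.P h t).Pr (E t) ≤ NT) (hMT : ∑ t ∈ range T, (D.P h t).Pr (Rm t) ≤ MT)
    (hNM : NT ≤ MT) {c : KC} {B : ℝ} (hB : 0 ≤ B) (h1 : 0 ≤ c.e1) (h2 : 0 < c.e2) (hF : 0 ≤ c.eF) :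
    ∑ t ∈ range T, (D.P h t).Pr (fun w => (A t w ∧ E t w) ∧
        (¬ Ap (D.P h t) (ZQ D v (qs s t)) (FQ v t) c 1 w (tup (FQ v t) w) ∧
          ¬ sF (D.P h t) (ZQ D v (qs s t)) (ZbQ D v (qs s t)) (FQ v t) c w) ∧
        bad (D.P h t) (ZQ D v (qs s t)) (FQ v t) c i w (tup (FQ v t) w) ∧ ¬ B < rS h v s t i w (FQ v t i w)) ≤
      B * (2 * (c.e1 / c.e2) + 2 * c.eF) * NT + (2 * (D.P h T).Pr (fun w => ¬ Ar h v ap (2 * T) w) +
        (3 * (NT * Real.sqrt ((Real.log (MT / NT) + (Lam + 1)) / n)) + 2 * Real.exp (-n) * MT)) := by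
  classical
  have hmq : ∀ t, qs s t ≤ 5 * t + 5 := fun t => (qs_le_qe s t).trans (hs t).le
  set A' : ℕ → Pt (Fin 3) X β φ → Prop := fun t w => A t w ∧
    ((∀ f, ¬ Ap (D.P h t) (ZQ D v (qs s t)) (FQ v t) c 1 w f) ∧
      ¬ sF (D.P h t) (ZQ D v (qs s t)) (ZbQ D v (qs s t)) (FQ v t) c w) with hA'
  set S : ℕ → Pt (Fin 3) X β φ → Tt X β φ → Prop := fun t w x =>
    bad (D.P h t) (ZQ D v (qs s t)) (FQ v t) c i w (fun _ => x) ∧ ¬ B < rS h v s t i w x with hS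
  have fA : ∀ t < T, Fac (ZQ (φ := φ) D v (5 * t + 5)) (A' t) := by
    intro t ht a e hae
    have e0 : A t a = A t e := hA t ht a e (TriS.VZ_final s t a e hae)
    have hz : ZQ D v (qs s t) a = ZQ D v (qs s t) e := ZQ_mono (hmq t) a e hae
    have e1 : ∀ f, Ap (D.P h t) (ZQ D v (qs s t)) (FQ v t) c 1 a f = Ap (D.P h t) (ZQ D v (qs s t)) (FQ v t) c 1 e f :=
      fun f => Ap_fac (D.P h t) (FQ v t) c 1 f a e hz
    have e2 : sF (D.P h t) (ZQ D v (qs s t)) (ZbQ D v (qs s t)) (FQ v t) c a =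
      sF (D.P h t) (ZQ D v (qs s t)) (ZbQ D v (qs s t)) (FQ v t) c e :=
      sF_fac (D.P h t) (FQ v t) (fun j => ZQ_Zb _ j) c a e hz
    show A' t a = A' t e
    rw [hA']
    beta_reduce
    rw [e0, e2]
    simp only [e1]
  have fS : ∀ t < T, ∀ x, Fac (ZQ D v (5 * t + 5)) (fun w => S t w x) := by
    intro t ht x a e hae
    have hz : ZQ D v (qs s t) a = ZQ D v (qs s t) e := ZQ_mono (hmq t) a e hae
    have e1 : bad (D.P h t) (ZQ D v (qs s t)) (FQ v t) c i a (fun _ => x) =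
      bad (D.P h t) (ZQ D v (qs s t)) (FQ v t) c i e (fun _ => x) := bad_fac (D.P h t) (FQ v t) c i _ a e hz
    have e2 : rS h v s t i a x = rS h v s t i e x := rS_fac s t i x a e (TriS.VZ_final s t a e hae)
    show (_ ∧ _) = (_ ∧ _)
    rw [e1, e2]
  have hmu : ∀ t < T, ∀ w, (D.P h t).p w ≠ 0 → A' t w →
      (D.P h t).ce (ZbQ D v (5 * t + 5) i) (fun u => ind (S t w (FQ v t i u))) w ≤
        B * (2 * (c.e1 / c.e2) + 2 * c.eF) := by
    intro t ht w hw hAw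
    have k0 := bad_own (D.P h t) (Zb := fun j => ZbQ D v (qs s t) j) (FQ v t) h2 i hw (hAw.2.1 _) hAw.2.2
    refine le_trans ?_ (mul_le_mul_of_nonneg_left k0 hB)
    rw [← (D.P h t).sum_pv (W := ZbQ D v (5 * t + 5) i) (FQ v t i) (F := fun _ x => ind (S t w x)) (fun _ _ _ _ => rfl) w,
      Finset.mul_sum]
    refine Finset.sum_le_sum fun x _ => ?_
    have q0 := (D.P h t).pv_nonneg (ZbQ D v (5 * t + 5) i) (FQ v t i) w x
    have q1 : 0 ≤ qF (D.P h t) (fun j => ZbQ D v (qs s t) j) (FQ v t) i w x :=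
      (D.P h t).pv_nonneg (ZbQ D v (qs s t) i) (FQ v t i) w x
    by_cases hSx : S t w x
    · rw [ind_of hSx, mul_one, ind_of hSx.1, mul_one]
      have hr := not_lt.1 hSx.2
      rw [rS_eq h s t i hw x, hs t] at hr
      rcases q1.eq_or_lt with h0 | h0
      · have hz : (D.P h t).pv (ZbQ D v (5 * t + 5) i) (FQ v t i) w x = 0 := by
          exact pv_zero (D.P h t) (ZbQ_mono (hmq t) i) hw h0.symm
        rw [hz, ← h0, mul_zero]
      · exact (div_le_iff₀ h0).1 hr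
    · rw [ind_not hSx, mul_zero]
      exact mul_nonneg hB (mul_nonneg q1 (ind_nonneg _))
  have key := own_sum p H R hib fA (fun t ht w hw => hAr t ht w hw.1) hE hRm hER hNT hMT hNM fS hmu (by positivity)
  refine le_trans (Finset.sum_le_sum fun t _ => FP.Pr_mono _ fun w _ hw => ?_) key
  obtain ⟨⟨a1, a2⟩, ⟨a3, a4⟩, a5, a6⟩ := hw
  refine ⟨⟨⟨a1, fun f => ?_, a4⟩, a2⟩, (bad_x _ _ c i w _).1 a5, a6⟩
  intro h7
  refine a3 ?_
  have e : tvn (D.P h t) (ZQ D v (qs s t)) (FQ v t) ∅ w (tup (FQ v t) w) = tvn (D.P h t) (ZQ D v (qs s t)) (FQ v t) ∅ w f :=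
    tvn_cong (D.P h t) (FQ v t) w fun j hj => absurd hj (Finset.notMem_empty j)
  show 2 * c.e1 ≤ tvn (D.P h t) (ZQ D v (qs s t)) (FQ v t) ∅ w (tup (FQ v t) w)
  rw [e]
  exact h7

/-- **THE KINDS** `2 .. 5` : no bad top is strong -/
theorem ine_kind {ap : AP} (p : TriB.Par n N1 ap.X0 Lam) (H : D.Hyp dg prr al T Lam)
    (R : Run h (pr3 (Fin 3) n N1) (SS1 (Fin 3)) (AdmDep D) v) {k : Fin 10} (hk : k ∈ rK) (hk1 : k ≠ 1) {b : Fin 3}
    (hbk : b ∈ vk k) {s : Fin 6}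
    (hs : ∀ t, qe s t = 5 * t + 5) {A E Rm : ℕ → Pt (Fin 3) X β φ → Prop}
    (hA : ∀ t < T, Fac (VZ (φ := φ) D v s t) (A t)) (hAr : ∀ t < T, ∀ w, A t w → Ar h v ap (2 * t + 1) w)
    (hE : ∀ t < T, Fac (Ah D (t + 1) {b}) (E t))
    (hRm : ∀ t < T, Fac (TriS.Cb D (Um v (t + 2)) (t + 1) b) (Rm t)) (hER : ∀ t < T, ∀ w, E t w → Rm t w)
    {NT MT : ℝ} (hNT : ∑ t ∈ range T, (D.P h t).Pr (E t) ≤ NT) (hMT : ∑ t ∈ range T, (D.P h t).Pr (Rm t) ≤ MT)
    (hNM : NT ≤ MT) {c : KC} {B : ℝ} (hB : 0 ≤ B) (h1 : 0 ≤ c.e1) (h2 : 0 < c.e2) (hF : 0 ≤ c.eF) :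
    ∑ t ∈ range T, (D.P h t).Pr (fun w => (A t w ∧ E t w) ∧
        kdF (D.P h t) (ZQ D v (qs s t)) (FQ v t) c k w (tup (FQ v t) w) ∧
          ¬ sF (D.P h t) (ZQ D v (qs s t)) (ZbQ D v (qs s t)) (FQ v t) c w ∧
        ¬ ∃ i, sbd h v c B s t i w (tup (FQ v t) w)) ≤
      2 * (B * (2 * (c.e1 / c.e2) + 2 * c.eF) * NT + (2 * (D.P h T).Pr (fun w => ¬ Ar h v ap (2 * T) w) +
        (3 * (NT * Real.sqrt ((Real.log (MT / NT) + (Lam + 1)) / n)) + 2 * Real.exp (-n) * MT))) := by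
  classical
  have one : ∀ i ∈ univ.erase b, _ := fun i hi => ine_top p H R (Finset.ne_of_mem_erase hi) hs hA hAr hE hRm hER hNT hMT hNM
    hB h1 h2 hF
  have k1 := Finset.sum_le_sum one
  rw [Finset.sum_const, Finset.card_erase_of_mem (mem_univ b), Finset.card_univ, Fintype.card_fin, nsmul_eq_mul,
    Finset.sum_comm] at k1
  refine le_trans (Finset.sum_le_sum fun t _ => ?_) (k1.trans (le_of_eq (by norm_num)))
  unfold FP.Pr
  rw [← (D.P h t).E_sum]
  refine FP.E_mono _ fun w _ => ?_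
  by_cases hh : (A t w ∧ E t w) ∧ kdF (D.P h t) (ZQ D v (qs s t)) (FQ v t) c k w (tup (FQ v t) w) ∧
      ¬ sF (D.P h t) (ZQ D v (qs s t)) (ZbQ D v (qs s t)) (FQ v t) c w ∧ ¬ ∃ i, sbd h v c B s t i w (tup (FQ v t) w)
  · obtain ⟨a1, a2, a3, a4⟩ := hh
    obtain ⟨a5, i, hi, a6⟩ := kd_bad (D.P h t) (FQ v t) hk hk1 hbk a2
    refine le_trans (ind_le_one _) ?_
    have hmem : i ∈ univ.erase b := Finset.mem_erase.2 ⟨hi, mem_univ i⟩
    refine le_trans (le_of_eq ?_) (Finset.single_le_sum (f := fun j => ind ((A t w ∧ E t w) ∧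
        (¬ Ap (D.P h t) (ZQ D v (qs s t)) (FQ v t) c 1 w (tup (FQ v t) w) ∧
          ¬ sF (D.P h t) (ZQ D v (qs s t)) (ZbQ D v (qs s t)) (FQ v t) c w) ∧
        bad (D.P h t) (ZQ D v (qs s t)) (FQ v t) c j w (tup (FQ v t) w) ∧ ¬ B < rS h v s t j w (FQ v t j w)))
      (fun j _ => ind_nonneg _) hmem)
    exact (ind_of ⟨a1, ⟨a5, a3⟩, a6, fun h7 => a4 ⟨i, a6, h7⟩⟩).symm
  · rw [ind_not hh]
    exact Finset.sum_nonneg fun j _ => ind_nonneg _

end step

end Inr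

end

end Pool.Agent.GMH.TP
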