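import Pool.Agent.GMH.MVdef

/-!
# GMH.MV1: exact and public clocks, measurability and masses (helper55; statements of helper27)
-/

set_option autoImplicit false
set_option linter.unusedSectionVars false

namespace Pool.Agent.GMH.MV

open Finset Pool.Agent.PWZ Pool.Agent.M3 Pool.Agent.GMH.TD Pool.Agent.GMH.CK

variable {Om : Type} [Fintype Om] (M : MS Om)

/-! ## letters -/

theorem opt_fac {α β : Type} {p : Prop} [Decidable p] {x y : α} {x' y' : β} (h : x = y → x' = y')
    (hxy : (if p then some x else Option.none) = (if p then some y else Option.none)) :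
    (if p then some x' else Option.none) = (if p then some y' else Option.none) := by
  by_cases hp : p
  · rw [if_pos hp, if_pos hp] at hxy
    rw [if_pos hp, if_pos hp, h (Option.some.inj hxy)]
  · rw [if_neg hp, if_neg hp]

theorem LF_step (i : Finset (Fin 3) × Finset (Fin 3)) (s : ℕ) : Fac (LF M i (s + 1)) (LF M i s) := by
  intro a b hab
  unfold LF at hab ⊢
  obtain ⟨h1, h2⟩ := Prod.mk.inj hab
  obtain ⟨h3, h4⟩ := Prod.mk.inj h2
  refine Prod.ext (funext fun j => ?_) (Prod.ext (funext fun t => ?_) h4)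
  · exact opt_fac (fun h => M.hX j s a b h) (congrFun h1 j)
  · exact opt_fac (fun h => M.hT t s a b h) (congrFun h3 t)

theorem LF_YF (i : Finset (Fin 3) × Finset (Fin 3)) (s : ℕ) : Fac (LF M i s) (YF M i) := by
  intro a b hab
  unfold LF at hab
  exact (Prod.mk.inj (Prod.mk.inj hab).2).2

theorem CN_step (v : Fin 3) (s : ℕ) : Fac (CN M v (s + 1)) (CN M v s) := by
  intro a b hab
  unfold CN at hab ⊢
  obtain ⟨h1, h2⟩ := Prod.mk.inj hab
  rw [M.hX v s a b h1, M.hN s a b h2]

theorem TH_step (s : ℕ) : Fac (TH M (s + 1)) (TH M s) := by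
  intro a b hab
  unfold TH at hab ⊢
  obtain ⟨h1, h2⟩ := Prod.mk.inj hab
  refine Prod.ext (funext fun j => ?_) (M.hN s a b h2)
  exact M.hX j s a b (congrFun h1 j)

theorem TH_CN (v : Fin 3) (s : ℕ) : Fac (TH M s) (CN M v s) := by
  intro a b hab
  unfold TH at hab
  unfold CN
  obtain ⟨h1, h2⟩ := Prod.mk.inj hab
  exact Prod.ext (congrFun h1 v) h2

theorem CN_NP (v : Fin 3) (s : ℕ) : Fac (CN M v s) (M.NP s) := by
  intro a b hab
  unfold CN at hab
  exact (Prod.mk.inj hab).2

theorem NP_le {j k : ℕ} (hjk : j ≤ k) : Fac (M.NP k) (M.NP j) := by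
  induction k, hjk using Nat.le_induction with
  | base => exact Fac.refl _
  | succ k _ ih => exact (M.hN k).trans ih

theorem LF_le (i : Finset (Fin 3) × Finset (Fin 3)) {j k : ℕ} (hjk : j ≤ k) : Fac (LF M i k) (LF M i j) := by
  induction k, hjk using Nat.le_induction with
  | base => exact Fac.refl _
  | succ k _ ih => exact (LF_step M i k).trans ih

theorem CN_le (v : Fin 3) {j k : ℕ} (hjk : j ≤ k) : Fac (CN M v k) (CN M v j) := by
  induction k, hjk using Nat.le_induction with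
  | base => exact Fac.refl _
  | succ k _ ih => exact (CN_step M v k).trans ih

theorem TH_le {j k : ℕ} (hjk : j ≤ k) : Fac (TH M k) (TH M j) := by
  induction k, hjk using Nat.le_induction with
  | base => exact Fac.refl _
  | succ k _ ih => exact (TH_step M k).trans ih

theorem LU_X (v : Fin 3) (s : ℕ) : Fac (LF M (univ, univ) s) (M.XL v s) := by
  intro a b hab
  unfold LF at hab
  obtain ⟨h1, h2⟩ := Prod.mk.inj hab
  have h3 := congrFun h1 v
  simp only [mem_univ, if_true] at h3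
  exact Option.some.inj h3

theorem LU_T (t : Fin 3) (s : ℕ) : Fac (LF M (univ, univ) s) (M.TF t s) := by
  intro a b hab
  unfold LF at hab
  obtain ⟨h1, h2⟩ := Prod.mk.inj hab
  have h3 := congrFun (Prod.mk.inj h2).1 t
  simp only [mem_univ, if_true] at h3
  exact Option.some.inj h3

/-- the letters of all vertices and all tops see every family -/
theorem LU_LF (i : Finset (Fin 3) × Finset (Fin 3)) (s : ℕ) : Fac (LF M (univ, univ) s) (LF M i s) := by
  classical
  intro a b hab
  have hX : ∀ v, M.XL v s a = M.XL v s b := fun v => LU_X M v s a b hab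
  have hT : ∀ t, M.TF t s a = M.TF t s b := fun t => LU_T M t s a b hab
  have hY : ∀ v, M.YP v a = M.YP v b := fun v => M.hXY v s a b (hX v)
  unfold LF YF
  simp only [hX, hT, hY]

/-- the tuple sees the class of `v` -/
theorem LU_CN (v : Fin 3) (s : ℕ) : Fac (fun w => (LF M (univ, univ) s w, M.NP s w)) (CN M v s) := by
  intro a b hab
  obtain ⟨h1, h2⟩ := Prod.mk.inj hab
  unfold CN
  rw [LU_X M v s a b h1, h2]

/-- the tuple sees the thin letters -/
theorem LU_TH (s : ℕ) : Fac (fun w => (LF M (univ, univ) s w, M.NP s w)) (TH M s) := by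
  intro a b hab
  obtain ⟨h1, h2⟩ := Prod.mk.inj hab
  unfold TH
  exact Prod.ext (funext fun j => LU_X M j s a b h1) h2

/-- moves with respect to a class which is seen by the tuple are seen by the tuple -/
theorem Evm_facg {κ' : Type} {N : ℕ → Om → κ'} (hN : ∀ s, Fac (N (s + 1)) (N s)) {k : ℕ}
    (hU : Fac (fun w => (LF M (univ, univ) k w, M.NP k w)) (N k)) (δ : ℝ) (ν : ℕ) :
    Fac (fun w => (LF M (univ, univ) k w, M.NP k w)) (Evm M.P N (LF M) (YF M) δ ν k) := by
  intro a b hab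
  have h1 := (Prod.mk.inj hab).1
  have hNle : ∀ {i j : ℕ}, i ≤ j → Fac (N j) (N i) := fun {i j} hij => by
    induction j, hij using Nat.le_induction with
    | base => exact Fac.refl _
    | succ j _ ih => exact (hN j).trans ih
  have hC : ∀ j, j ≤ k → N j a = N j b := fun j hj => hNle hj a b (hU a b hab)
  have hL : ∀ i j, j ≤ k → LF M i j a = LF M i j b := fun i j hj => LF_le M i hj a b (LU_LF M i k a b h1)
  have key : ∀ j, j ≤ k → ∀ i, Mv1 M.P N (LF M i) (YF M i) δ ν j a = Mv1 M.P N (LF M i) (YF M i) δ ν j b := by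
    intro j hj i
    have ea : ∀ l ∈ Ico ν j, ai M.P N (LF M i) (YF M i) l a = ai M.P N (LF M i) (YF M i) l b := by
      intro l hl
      have hl2 := (mem_Ico.1 hl).2
      refine ai_fac M.P hN (LF_YF M i) l a b ?_
      show (LF M i l a, N (l + 1) a) = (LF M i l b, N (l + 1) b)
      rw [hL i l (by omega), hC (l + 1) (by omega)]
    have eb : ∀ l ∈ Ico ν j, bi M.P N (LF M i) (YF M i) l a = bi M.P N (LF M i) (YF M i) l b := by
      intro l hl
      have hl2 := (mem_Ico.1 hl).2
      refine bi_fac M.P (LF_step M i) (LF_YF M i) l a b ?_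
      show (LF M i (l + 1) a, N (l + 1) a) = (LF M i (l + 1) b, N (l + 1) b)
      rw [hL i (l + 1) (by omega), hC (l + 1) (by omega)]
    unfold Mv1
    rw [sum_congr rfl ea, sum_congr rfl eb]
  refine propext ⟨?_, ?_⟩
  · rintro ⟨j, q1, q2, i, q3⟩
    exact ⟨j, q1, q2, i, (key j q2 i) ▸ q3⟩
  · rintro ⟨j, q1, q2, i, q3⟩
    exact ⟨j, q1, q2, i, (key j q2 i).symm ▸ q3⟩

/-- all letters and the public information see everything of the tuple -/
theorem Ex_fac (v : Fin 3) (ν : ℕ) {k : ℕ} : Fac (fun w => (LF M (univ, univ) k w, M.NP k w)) (Ex M v ν k) := by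
  intro a b hab
  have h1 := Evm_facg M (N := CN M v) (CN_step M v) (LU_CN M v k) M.d1 ν a b hab
  have h2 := Evm_facg M (N := M.NP) M.hN (fun a b hab => (Prod.mk.inj hab).2) M.d1 ν a b hab
  unfold Ex
  rw [h1, h2]

theorem Ex_mono {v : Fin 3} {ν k l : ℕ} (hkl : k ≤ l) {w : Om} (h : Ex M v ν k w) : Ex M v ν l w :=
  h.imp (Evm_mono hkl) (Evm_mono hkl)

/-! ## clocks -/

theorem lt5_eq {κ' : Type} {N : ℕ → Om → κ'} (hN : ∀ s, Fac (N (s + 1)) (N s)) (s : ℕ) {a b : Om}
    (hab : N (s + 1) a = N (s + 1) b) : lt5 M N s a = lt5 M N s b := by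
  unfold lt5
  rw [M.P.Fac_m (N (s + 1)) a b hab, M.P.Fac_m (N s) a b (hN s a b hab)]

theorem tau_fac (v : Fin 3) (s : ℕ) : Fac (CN M v s) (tau M v s) := by
  refine stg_fac (N := CN M v) (CN_step M v) (fun ν k _ a b hab => ?_) s
  have h1 : lt5 M M.NP k a = lt5 M M.NP k b := lt5_eq M M.hN k (CN_NP M v (k + 1) a b hab)
  have h2 : lt5 M (CN M v) k a = lt5 M (CN M v) k b := lt5_eq M (CN_step M v) k hab
  unfold Cx
  rw [Nat.add_sub_cancel, h1, h2, M.P.ce_fac (CN M v (k + 1)) _ a b hab]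

theorem nu_fac (s : ℕ) : Fac (M.NP s) (nu M s) := by
  refine stg_fac (N := M.NP) M.hN (fun ν k _ a b hab => ?_) s
  have h1 : lt5 M M.NP k a = lt5 M M.NP k b := lt5_eq M M.hN k hab
  have h2 : ∀ f : Om → ℝ, M.P.ce (M.NP (k + 1)) f a = M.P.ce (M.NP (k + 1)) f b := fun f =>
    M.P.ce_fac (M.NP (k + 1)) f a b hab
  unfold C0
  rw [Nat.add_sub_cancel, h1]
  simp only [h2]

theorem Mv_fac (v : Fin 3) (s : ℕ) : Fac (TH M s) (Mv M v s) := by
  intro a b hab
  unfold Mv
  rw [M.P.ce_fac (TH M s) _ a b hab]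

theorem pic_fac (c : Fin 3) (s : ℕ) : Fac (CN M c s) (pic M c s) := M.P.ce_fac _ _

theorem hys_fac (c : Fin 3) (s : ℕ) : Fac (CN M c s) (hys M c s) := by
  induction s with
  | zero =>
    intro a b hab
    show (M.p1 / 2 ≤ pic M c 0 a) = (M.p1 / 2 ≤ pic M c 0 b)
    rw [pic_fac M c 0 a b hab]
  | succ s ih =>
    intro a b hab
    show (M.p1 / 2 ≤ pic M c (s + 1) a ∨ (hys M c s a ∧ M.p1 / 4 ≤ pic M c (s + 1) a)) =
      (M.p1 / 2 ≤ pic M c (s + 1) b ∨ (hys M c s b ∧ M.p1 / 4 ≤ pic M c (s + 1) b))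
    rw [pic_fac M c (s + 1) a b hab, ih a b (CN_step M c s a b hab)]

/-! ## masses -/

/-- a conditional expectation sees only the fibre -/
theorem ce_fib {κ' : Type} (P : FP Om) {X : Om → κ'} {f g : Om → ℝ} {w : Om} (h : ∀ u, X u = X w → f u = g u) :
    P.ce X f w = P.ce X g w := by
  unfold FP.ce
  congr 1
  refine P.E_congr fun u _ => ?_
  by_cases hu : X u = X w
  · rw [h u hu]
  · rw [ind_not hu]
    ring

theorem ce_zero {κ' : Type} (P : FP Om) (X : Om → κ') {f : Om → ℝ} (h : ∀ u, f u = 0) (w : Om) : P.ce X f w = 0 := by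
  unfold FP.ce
  have h1 : P.E (fun u => ind (X u = X w) * f u) = 0 := by
    rw [← P.E_const 0]
    refine P.E_congr fun u _ => ?_
    rw [h u, mul_zero]
  rw [h1, zero_div]

theorem not_Ex_self (v : Fin 3) (k : ℕ) (w : Om) : ¬ Ex M v k k w := fun h => h.elim (not_Evm_self k w) (not_Evm_self k w)

theorem not_Lst_self (k : ℕ) (w : Om) : ¬ Lst M k k w := by
  rintro (h | ⟨v, j, h1, h2, _⟩ | ⟨c, _, j, h1, h2, _⟩)
  · exact not_Evm_self k w h
  · omega
  · omega

/-- inside an exact epoch the moved points have small mass in the class of `v` -/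
theorem Ex_mass (v : Fin 3) (s : ℕ) {w : Om} (hw : M.P.p w ≠ 0) :
    M.P.ce (CN M v s) (fun u => ind (Ex M v (tau M v s w) s u)) w < M.kb := by
  have h0 : ∀ k, tau M v k w = k → M.P.ce (CN M v k) (fun u => ind (Ex M v (tau M v k w) k u)) w < M.kb := by
    intro k hk
    rw [hk, ce_zero M.P _ fun u => ind_not (not_Ex_self M v k u)]
    exact M.hkb
  rcases s with _ | s
  · exact h0 0 rfl
  · by_cases h : Cx M v (tau M v s w) (s + 1) w
    · exact h0 (s + 1) (stg_pos h)
    · have h1 : tau M v (s + 1) w = tau M v s w := stg_neg h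
      rw [h1]
      exact not_le.1 fun h2 => h (Or.inr (Or.inr h2))

/-- the moved thin triples have small mass -/
theorem Mv_mass {Lam : ℝ} (hT : Thk M Lam) (v : Fin 3) (s : ℕ) {w : Om} (hw : M.P.p w ≠ 0) :
    M.P.ce (CN M v s) (fun u => ind (Mv M v s u)) w ≤ Real.exp (4 * Lam) * M.kb := by
  have hA : Fac (fun w => (LF M (univ, univ) s w, M.NP s w)) (fun u => Ex M v (tau M v s u) s u) := by
    intro a b hab
    have h1 : tau M v s a = tau M v s b := tau_fac M v s a b (LU_CN M v s a b hab)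
    show Ex M v (tau M v s a) s a = Ex M v (tau M v s b) s b
    rw [h1]
    exact Ex_fac M v (tau M v s b) a b hab
  have h1 : ∀ u, M.P.p u ≠ 0 → ind (Mv M v s u) ≤
      Real.exp (4 * Lam) * M.P.ce (TH M s) (fun u => ind (Ex M v (tau M v s u) s u)) u := by
    intro u hu
    by_cases h : Mv M v s u
    · rw [ind_of h]
      have h2 := hT s _ hA u hu h
      have h3 := Real.exp_pos (4 * Lam)
      calc (1 : ℝ) = Real.exp (4 * Lam) * Real.exp (-(4 * Lam)) := by
            rw [← Real.exp_add, add_neg_cancel, Real.exp_zero]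
        _ ≤ _ := mul_le_mul_of_nonneg_left h2 h3.le
    · rw [ind_not h]
      exact mul_nonneg (Real.exp_pos _).le (M.P.ce_nonneg (fun _ _ => ind_nonneg _) u)
  refine (M.P.ce_mono h1 w).trans ?_
  rw [M.P.ce_smul, M.P.ce_tower (TH_CN M v s)]
  refine mul_le_mul_of_nonneg_left ?_ (Real.exp_pos _).le
  have h2 := (Ex_mass M v s hw).le
  refine le_trans (le_of_eq ?_) h2
  refine ce_fib M.P fun u hu => ?_
  rw [tau_fac M v s u w hu]

theorem hys_pic {c : Fin 3} {s : ℕ} {w : Om} (h : hys M c s w) : M.p1 / 4 ≤ pic M c s w := by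
  have hp := M.hp1
  rcases s with _ | s
  · have h1 : M.p1 / 2 ≤ pic M c 0 w := h
    linarith
  · rcases h with h1 | ⟨_, h1⟩
    · linarith
    · exact h1

theorem not_hys {c : Fin 3} {s : ℕ} {w : Om} (h : ¬ hys M c s w) : pic M c s w < M.p1 / 2 := by
  rcases s with _ | s
  · exact not_le.1 h
  · exact not_le.1 fun h1 => h (Or.inl h1)

/-- the vertices with status have small mass in the public class -/
theorem hys_mass {Lam : ℝ} (hT : Thk M Lam) (c : Fin 3) (s : ℕ) {w : Om} (hw : M.P.p w ≠ 0) :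
    M.P.ce (M.NP s) (fun u => ind (hys M c s u)) w ≤ 8 * Real.exp (4 * Lam) * M.kb / M.p1 := by
  classical
  have hp := M.hp1
  have h1 : ∀ u, M.P.p u ≠ 0 → ind (hys M c s u) ≤ 4 / M.p1 * pic M c s u := by
    intro u _
    by_cases h : hys M c s u
    · rw [ind_of h]
      have h2 := hys_pic M h
      rw [div_mul_eq_mul_div, le_div_iff₀ hp]
      linarith
    · rw [ind_not h]
      exact mul_nonneg (by positivity) (M.P.ce_nonneg (fun _ _ => ind_nonneg _) u)
  refine (M.P.ce_mono h1 w).trans ?_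
  rw [M.P.ce_smul]
  have h2 : M.P.ce (M.NP s) (pic M c s) w = M.P.ce (M.NP s) (fun u => ind (Mo M c s u)) w :=
    M.P.ce_tower (CN_NP M c s) _ w
  rw [h2]
  have h3 : ∀ u, M.P.p u ≠ 0 → ind (Mo M c s u) ≤ ∑ v ∈ univ.erase c, ind (Mv M v s u) := by
    intro u _
    refine le_trans (ind_mono ?_) (FP.ind_ex_le (univ.erase c) fun v => Mv M v s u)
    rintro ⟨v, hv, h⟩
    exact ⟨v, mem_erase.2 ⟨hv, mem_univ v⟩, h⟩
  have h4 : M.P.ce (M.NP s) (fun u => ind (Mo M c s u)) w ≤ 2 * (Real.exp (4 * Lam) * M.kb) := by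
    refine (M.P.ce_mono h3 w).trans ?_
    rw [M.P.ce_sum]
    have h5 : ∀ v ∈ univ.erase c, M.P.ce (M.NP s) (fun u => ind (Mv M v s u)) w ≤ Real.exp (4 * Lam) * M.kb := by
      intro v _
      rw [← M.P.ce_tower (CN_NP M v s)]
      exact M.P.ce_le_const (fun u hu => Mv_mass M hT v s hu) hw
    refine (sum_le_sum h5).trans (le_of_eq ?_)
    rw [sum_const, card_erase_of_mem (mem_univ c), card_univ, Fintype.card_fin, nsmul_eq_mul]
    norm_num
  refine (mul_le_mul_of_nonneg_left h4 (by positivity)).trans (le_of_eq ?_)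
  ring

/-- inside a public epoch the list has small mass -/
theorem Lst_mass (s : ℕ) {w : Om} (hw : M.P.p w ≠ 0) :
    M.P.ce (M.NP s) (fun u => ind (Lst M (nu M s w) s u)) w < M.k0 := by
  have h0 : ∀ k, nu M k w = k → M.P.ce (M.NP k) (fun u => ind (Lst M (nu M k w) k u)) w < M.k0 := by
    intro k hk
    rw [hk, ce_zero M.P _ fun u => ind_not (not_Lst_self M k u)]
    exact M.hk0
  rcases s with _ | s
  · exact h0 0 rfl
  · by_cases h : C0 M (nu M s w) (s + 1) w
    · exact h0 (s + 1) (stg_pos h)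
    · have h1 : nu M (s + 1) w = nu M s w := stg_neg h
      rw [h1]
      exact not_le.1 fun h2 => h (Or.inr (Or.inl h2))

end Pool.Agent.GMH.MV
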