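import Pool.Agent.GMH.AntiHot
import Pool.Agent.GMH.MV1

/-!
# GMH.MV6: anti-hot pairs at the removals (plan helper27, proof helper18)

`U k` = cumulative public class, `F k`, `G k` = cumulative letters, `X k = dr P (F k) (G k) (U k)` (`GMH/AntiHot`), `b k` =
events of `U (k + 1)` (removals).
* `ce_dr_le_one` : the mean of `dr` in every class is at most `1`;
* `fall` : one path: the number of falls of a nonnegative sequence from `≥ b` to `< a` in one step is controlled by a potential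
  (flag `onY` : below `b` since the last value `< a`);
* `ah_rem` : `∑ Pr (b k, e ≤ X k) ≤ 4 / e (1 + ∑ Pr (b k) + drops of the entropies)` : if `b k` and `e ≤ X k` then the value after
  the public step is still `≥ e / 2` (probability at most `2 / e` in every class of `U (k + 1)`) or there is a fall;
* `ah_unl` : the same for unlisted points of a public epoch, `2 e ≤ dr` at the start of the epoch (`MVdef`).
-/

set_option autoImplicit false
set_option linter.unusedSectionVars false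

namespace Pool.Agent.GMH.MV

open Finset Pool.Agent.PWZ Pool.Agent.M3 Pool.Agent.GMH.TD Pool.Agent.GMH.CK

namespace AHR

/-! ### one path -/

section path

/-- below `b` since the last value `< a` -/
def onY (Y : ℕ → ℝ) (a b : ℝ) : ℕ → Prop
  | 0 => Y 0 < a
  | n + 1 => (onY Y a b n ∧ Y (n + 1) < b) ∨ Y (n + 1) < a

variable {Y : ℕ → ℝ} {a b : ℝ}

theorem onY_lt (hab : a ≤ b) {n : ℕ} (h : onY Y a b n) : Y n < b := by
  cases n with
  | zero => exact lt_of_lt_of_le h hab
  | succ n =>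
    rcases h with h | h
    · exact h.2
    · exact lt_of_lt_of_le h hab

open Classical in
theorem fall_aux (hab : a ≤ b) (n : ℕ) :
    (b - a) * ∑ i ∈ range n, ind (b ≤ Y i ∧ Y (i + 1) < a) + (if onY Y a b n then Y n else b) ≤
      (if Y 0 < a then Y 0 else b) + ∑ i ∈ range n, ind (onY Y a b i) * (Y (i + 1) - Y i) := by
  induction n with
  | zero =>
    simp only [Finset.range_zero, Finset.sum_empty, mul_zero, zero_add, add_zero]
    exact le_of_eq (by by_cases h : Y 0 < a <;> simp [onY, h])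
  | succ n ih =>
    rw [Finset.sum_range_succ, Finset.sum_range_succ, mul_add]
    by_cases h1 : onY Y a b n
    · have h2 : ¬ (b ≤ Y n ∧ Y (n + 1) < a) := fun hh => absurd (onY_lt hab h1) (not_lt.2 hh.1)
      rw [ind_not h2, mul_zero, add_zero, ind_of h1, one_mul]
      rw [if_pos h1] at ih
      by_cases h3 : onY Y a b (n + 1)
      · rw [if_pos h3]
        linarith
      · rw [if_neg h3]
        have h4 : b ≤ Y (n + 1) := by
          by_contra h5
          exact h3 (Or.inl ⟨h1, not_le.1 h5⟩)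
        linarith
    · rw [ind_not h1, zero_mul, add_zero]
      rw [if_neg h1] at ih
      by_cases h3 : onY Y a b (n + 1)
      · rw [if_pos h3]
        have h4 : Y (n + 1) < a := by
          rcases h3 with h3 | h3
          · exact absurd h3.1 h1
          · exact h3
        have h5 : (b - a) * ind (b ≤ Y n ∧ Y (n + 1) < a) ≤ b - a := by
          have := ind_le_one (b ≤ Y n ∧ Y (n + 1) < a)
          nlinarith
        linarith
      · rw [if_neg h3]
        have h4 : ¬ (b ≤ Y n ∧ Y (n + 1) < a) := fun hh => h3 (Or.inr hh.2)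
        rw [ind_not h4, mul_zero, add_zero]
        exact ih

/-- **falls of one path** -/
theorem fall (ha : 0 < a) (hab : a ≤ b) (h0 : ∀ n, 0 ≤ Y n) (n : ℕ) :
    (b - a) * ∑ i ∈ range n, ind (b ≤ Y i ∧ Y (i + 1) < a) ≤
      b / a * Y 0 + ∑ i ∈ range n, ind (onY Y a b i) * (Y (i + 1) - Y i) := by
  classical
  have h1 := fall_aux (Y := Y) hab n
  have h2 : 0 ≤ if onY Y a b n then Y n else b := by
    split_ifs
    · exact h0 n
    · linarith
  have h3 : (if Y 0 < a then Y 0 else b) ≤ b / a * Y 0 := by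
    split_ifs with h4
    · have : 1 ≤ b / a := by rw [le_div_iff₀ ha]; linarith
      have := mul_le_mul_of_nonneg_right this (h0 0)
      linarith
    · have h5 := mul_le_mul_of_nonneg_left (not_lt.1 h4) (div_nonneg (by linarith : 0 ≤ b) ha.le)
      have h6 : b / a * a = b := by field_simp
      linarith
  linarith

theorem sum_two (f : ℕ → ℝ) (T : ℕ) : ∑ i ∈ range (2 * T), f i = ∑ k ∈ range T, (f (2 * k) + f (2 * k + 1)) := by
  induction T with
  | zero => simp
  | succ T ih =>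
    rw [show 2 * (T + 1) = 2 * T + 1 + 1 by ring, Finset.sum_range_succ, Finset.sum_range_succ, ih, Finset.sum_range_succ]
    ring

end path

/-! ### the mean in a class -/

variable {Om : Type*} [Fintype Om] {α β γ : Type*} (P : FP Om)

theorem ce_dr_le_one (F : Om → α) (G : Om → β) (U : Om → γ) {w : Om} (hw : P.p w ≠ 0) : P.ce U (dr P F G U) w ≤ 1 := by
  have h1 := ce_dr_birth P (F := fun _ => ()) (F' := F) (G := fun _ => ()) (G' := G) (U := U) (fun _ _ _ => rfl)
    (fun _ _ _ => rfl) w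
  have h2 : dr P (fun _ => ()) (fun _ => ()) U w = 1 := dr_start P (fun _ _ _ => rfl) (fun _ _ _ => rfl) hw
  rw [h2] at h1
  refine le_trans (le_of_eq ?_) h1
  refine P.ce_congr_map (fun v w h => ?_) (fun v w h => ?_) _ _
  · show ((), (), U v) = ((), (), U w)
    rw [h]
  · exact (Prod.mk.inj (Prod.mk.inj h).2).2

theorem E_dr_le_one (F : Om → α) (G : Om → β) (U : Om → γ) : P.E (dr P F G U) ≤ 1 := by
  rw [← P.E_ce U]
  exact (P.E_mono fun w hw => ce_dr_le_one P F G U hw).trans (le_of_eq (P.E_const 1))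

end AHR

section

variable {Om : Type*} [Fintype Om] {α β γ : Type*} (P : FP Om) {F : ℕ → Om → α} {G : ℕ → Om → β} {U : ℕ → Om → γ}

open AHR

/-- **anti-hot pairs at the removals** -/
theorem ah_rem (hU : ∀ t, Fac (U (t + 1)) (U t)) (hF : ∀ t, Fac (fun v => (F (t + 1) v, U (t + 1) v)) (F t))
    (hG : ∀ t, Fac (fun v => (G (t + 1) v, U (t + 1) v)) (G t)) {b : ℕ → Om → Prop} (hb : ∀ k, Fac (U (k + 1)) (b k))
    {e : ℝ} (he : 0 < e) (T : ℕ) :
    ∑ k ∈ range T, P.Pr (fun w => b k w ∧ e ≤ dr P (F k) (G k) (U k) w) ≤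
      4 / e * (1 + ∑ k ∈ range T, P.Pr (b k) + ∑ k ∈ range T, ((P.Hc (F k) (U k) - P.Hc (F k) (U (k + 1))) +
        (P.Hc (G k) (U k) - P.Hc (G k) (U (k + 1))))) := by
  classical
  set Y : ℕ → Om → ℝ := fun n => dr P (F (n / 2)) (G (n / 2)) (U ((n + 1) / 2)) with hY
  set M : ℕ → Om → α × β × γ := fun n v => (F (n / 2) v, G (n / 2) v, U ((n + 1) / 2) v) with hM
  set D : ℝ := ∑ k ∈ range T, ((P.Hc (F k) (U k) - P.Hc (F k) (U (k + 1))) +
    (P.Hc (G k) (U k) - P.Hc (G k) (U (k + 1)))) with hD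
  have Y0 : ∀ n w, 0 ≤ Y n w := fun n w => dr_nonneg P _ _ _ w
  have YM : ∀ n, Fac (M n) (Y n) := fun n => dr_fac P _ _ _
  have Ye : ∀ k, Y (2 * k) = dr P (F k) (G k) (U k) := fun k => by
    rw [hY]
    simp only
    rw [show 2 * k / 2 = k by omega, show (2 * k + 1) / 2 = k by omega]
  have Yo : ∀ k, Y (2 * k + 1) = dr P (F k) (G k) (U (k + 1)) := fun k => by
    rw [hY]
    simp only
    rw [show (2 * k + 1) / 2 = k by omega, show (2 * k + 1 + 1) / 2 = k + 1 by omega]
  have Me : ∀ k, M (2 * k) = fun v => (F k v, G k v, U k v) := fun k => by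
    rw [hM]
    simp only
    rw [show 2 * k / 2 = k by omega, show (2 * k + 1) / 2 = k by omega]
  have Mo' : ∀ k, M (2 * k + 1) = fun v => (F k v, G k v, U (k + 1) v) := fun k => by
    rw [hM]
    simp only
    rw [show (2 * k + 1) / 2 = k by omega, show (2 * k + 1 + 1) / 2 = k + 1 by omega]
  have MM : ∀ n, Fac (M (n + 1)) (M n) := by
    intro n
    rcases Nat.even_or_odd' n with ⟨k, rfl | rfl⟩
    · rw [Mo', Me]
      intro v w h
      simp only [Prod.mk.injEq] at h ⊢
      exact ⟨h.1, h.2.1, hU k v w h.2.2⟩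
    · rw [show 2 * k + 1 + 1 = 2 * (k + 1) by ring, Mo', Me]
      intro v w h
      simp only [Prod.mk.injEq] at h ⊢
      exact ⟨hF k v w (by simp only [h.1, h.2.2]), hG k v w (by simp only [h.2.1, h.2.2]), h.2.2⟩
  -- the flag
  set on : ℕ → Om → Prop := fun n w => onY (fun i => Y i w) (e / 2) e n with hon
  have onM : ∀ n, Fac (M n) (on n) := by
    intro n
    induction n with
    | zero =>
      intro v w h
      show (Y 0 v < e / 2) = (Y 0 w < e / 2)
      rw [YM 0 v w h]
    | succ n ih =>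
      intro v w h
      show ((on n v ∧ Y (n + 1) v < e) ∨ Y (n + 1) v < e / 2) = ((on n w ∧ Y (n + 1) w < e) ∨ Y (n + 1) w < e / 2)
      rw [ih v w (MM n v w h), YM (n + 1) v w h]
  have onI : ∀ n, Fac (M n) (fun w => ind (on n w)) := fun n => Fac.ind fun v w h => by rw [onM n v w h]
  -- the drift
  have dr1 : ∀ n, P.E (fun w => ind (on n w) * (Y (n + 1) w - Y n w)) =
      P.E (fun w => ind (on n w) * Y (n + 1) w) - P.E (fun w => ind (on n w) * Y n w) := fun n => by
    rw [← P.E_sub]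
    exact P.E_congr fun w _ => by ring
  have dre : ∀ k, P.E (fun w => ind (on (2 * k) w) * (Y (2 * k + 1) w - Y (2 * k) w)) ≤
      (P.Hc (F k) (U k) - P.Hc (F k) (U (k + 1))) + (P.Hc (G k) (U k) - P.Hc (G k) (U (k + 1))) := by
    intro k
    rw [dr1, Ye, Yo]
    have h1 := onI (2 * k)
    rw [Me] at h1
    have h2 := dr_public P (F k) (G k) (hU k) (h := fun w => ind (on (2 * k) w)) h1 (fun _ => ind_nonneg _)
      (fun _ => ind_le_one _)
    linarith
  have dro : ∀ k, P.E (fun w => ind (on (2 * k + 1) w) * (Y (2 * k + 1 + 1) w - Y (2 * k + 1) w)) ≤ 0 := by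
    intro k
    rw [dr1, show 2 * k + 1 + 1 = 2 * (k + 1) by ring, Ye, Yo]
    have h1 := onI (2 * k + 1)
    rw [Mo'] at h1
    have h2 := P.E_mul_ce h1 (dr P (F (k + 1)) (G (k + 1)) (U (k + 1)))
    rw [← h2]
    have h3 : P.E (fun w => ind (on (2 * k + 1) w) * P.ce (fun v => (F k v, G k v, U (k + 1) v))
        (dr P (F (k + 1)) (G (k + 1)) (U (k + 1))) w) ≤
        P.E (fun w => ind (on (2 * k + 1) w) * dr P (F k) (G k) (U (k + 1)) w) :=
      P.E_mono fun w _ => mul_le_mul_of_nonneg_left (ce_dr_birth P (hF k) (hG k) w) (ind_nonneg _)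
    linarith
  have hsum : P.E (fun w => ∑ i ∈ range (2 * T), ind (on i w) * (Y (i + 1) w - Y i w)) ≤ D := by
    rw [P.E_sum, sum_two, hD]
    refine Finset.sum_le_sum fun k _ => ?_
    have a1 := dre k
    have a2 := dro k
    linarith
  -- the falls
  have hfall : e / 2 * ∑ k ∈ range T, P.Pr (fun w => e ≤ Y (2 * k) w ∧ Y (2 * k + 1) w < e / 2) ≤ 2 + D := by
    have h1 : P.E (fun w => (e - e / 2) * ∑ i ∈ range (2 * T), ind (e ≤ Y i w ∧ Y (i + 1) w < e / 2)) ≤
        P.E (fun w => e / (e / 2) * Y 0 w + ∑ i ∈ range (2 * T), ind (on i w) * (Y (i + 1) w - Y i w)) :=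
      P.E_mono fun w _ => fall (by linarith) (by linarith) (fun n => Y0 n w) (2 * T)
    rw [P.E_smul, P.E_add, P.E_smul, P.E_sum, sum_two] at h1
    have h2 : P.E (Y 0) ≤ 1 := by
      have h3 := Ye 0
      rw [show 2 * 0 = 0 by rfl] at h3
      rw [h3]
      exact E_dr_le_one P _ _ _
    have h3 : e / (e / 2) = 2 := by field_simp
    rw [h3] at h1
    have h4 : ∑ k ∈ range T, P.Pr (fun w => e ≤ Y (2 * k) w ∧ Y (2 * k + 1) w < e / 2) ≤
        ∑ k ∈ range T, (P.E (fun w => ind (e ≤ Y (2 * k) w ∧ Y (2 * k + 1) w < e / 2)) +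
          P.E (fun w => ind (e ≤ Y (2 * k + 1) w ∧ Y (2 * k + 1 + 1) w < e / 2))) :=
      Finset.sum_le_sum fun k _ => by
        have h5 : 0 ≤ P.E (fun w => ind (e ≤ Y (2 * k + 1) w ∧ Y (2 * k + 1 + 1) w < e / 2)) :=
          P.E_nonneg fun _ _ => ind_nonneg _
        have h6 : P.Pr (fun w => e ≤ Y (2 * k) w ∧ Y (2 * k + 1) w < e / 2) =
          P.E (fun w => ind (e ≤ Y (2 * k) w ∧ Y (2 * k + 1) w < e / 2)) := rfl
        linarith
    have h5 := mul_le_mul_of_nonneg_left h4 (show 0 ≤ e / 2 by linarith)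
    have h6 : e - e / 2 = e / 2 := by ring
    rw [h6] at h1
    linarith
  -- the value after the public step
  have hstay : ∀ k, P.Pr (fun w => b k w ∧ e / 2 ≤ Y (2 * k + 1) w) ≤ 2 / e * P.Pr (b k) := by
    intro k
    have h1 : P.Pr (fun w => b k w ∧ e / 2 ≤ Y (2 * k + 1) w) ≤ P.E (fun w => ind (b k w) * (2 / e * Y (2 * k + 1) w)) := by
      refine P.E_mono fun w _ => ?_
      rw [ind_and]
      refine mul_le_mul_of_nonneg_left ?_ (ind_nonneg _)
      by_cases h2 : e / 2 ≤ Y (2 * k + 1) w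
      · rw [ind_of h2]
        have h3 := mul_le_mul_of_nonneg_left h2 (show 0 ≤ 2 / e by positivity)
        have h4 : 2 / e * (e / 2) = 1 := by field_simp
        linarith
      · rw [ind_not h2]
        have := Y0 (2 * k + 1) w
        positivity
    have hbI : Fac (U (k + 1)) (fun w => ind (b k w)) := Fac.ind fun v w h => by rw [hb k v w h]
    have h2 := P.E_mul_ce hbI (fun w => 2 / e * Y (2 * k + 1) w)
    rw [← h2] at h1
    refine h1.trans ?_
    unfold FP.Pr
    rw [← P.E_smul]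
    refine P.E_mono fun w hw => ?_
    rw [P.ce_smul, Yo]
    have h3 := ce_dr_le_one P (F k) (G k) (U (k + 1)) hw
    have h4 : 0 ≤ ind (b k w) * (2 / e) := mul_nonneg (ind_nonneg _) (by positivity)
    have h5 := mul_le_mul_of_nonneg_left h3 h4
    linarith
  -- the sum
  have hone : ∀ k ∈ range T, P.Pr (fun w => b k w ∧ e ≤ dr P (F k) (G k) (U k) w) ≤
      2 / e * P.Pr (b k) + P.Pr (fun w => e ≤ Y (2 * k) w ∧ Y (2 * k + 1) w < e / 2) := by
    intro k _
    refine le_trans ?_ (add_le_add (hstay k) le_rfl)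
    unfold FP.Pr
    rw [← P.E_add]
    refine P.E_mono fun w _ => ?_
    rw [← Ye k]
    have n1 := ind_nonneg (b k w ∧ e / 2 ≤ Y (2 * k + 1) w)
    have n2 := ind_nonneg (e ≤ Y (2 * k) w ∧ Y (2 * k + 1) w < e / 2)
    by_cases h1 : b k w ∧ e ≤ Y (2 * k) w
    · rw [ind_of h1]
      by_cases h2 : e / 2 ≤ Y (2 * k + 1) w
      · rw [ind_of (⟨h1.1, h2⟩ : b k w ∧ e / 2 ≤ Y (2 * k + 1) w)]
        linarith
      · rw [ind_of (⟨h1.2, not_le.1 h2⟩ : e ≤ Y (2 * k) w ∧ Y (2 * k + 1) w < e / 2)]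
        linarith
    · rw [ind_not h1]
      linarith
  refine (Finset.sum_le_sum hone).trans ?_
  rw [Finset.sum_add_distrib, ← Finset.mul_sum]
  have hB : 0 ≤ ∑ k ∈ range T, P.Pr (b k) := Finset.sum_nonneg fun _ _ => P.Pr_nonneg _
  have hD0 : 0 ≤ D := Finset.sum_nonneg fun k _ => by
    have a1 : P.Hc (F k) (U (k + 1)) ≤ P.Hc (F k) (U k) := P.Hc_anti _ (hU k)
    have a2 : P.Hc (G k) (U (k + 1)) ≤ P.Hc (G k) (U k) := P.Hc_anti _ (hU k)
    linarith
  have h7 : ∑ k ∈ range T, P.Pr (fun w => e ≤ Y (2 * k) w ∧ Y (2 * k + 1) w < e / 2) ≤ 2 / e * (2 + D) := by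
    have h8 : 2 / e * (e / 2 * ∑ k ∈ range T, P.Pr (fun w => e ≤ Y (2 * k) w ∧ Y (2 * k + 1) w < e / 2)) =
        ∑ k ∈ range T, P.Pr (fun w => e ≤ Y (2 * k) w ∧ Y (2 * k + 1) w < e / 2) := by field_simp
    rw [← h8]
    exact mul_le_mul_of_nonneg_left hfall (by positivity)
  have h9 : 4 / e * (1 + ∑ k ∈ range T, P.Pr (b k) + D) =
      2 / e * (2 * ∑ k ∈ range T, P.Pr (b k)) + 2 / e * (2 + 2 * D) := by ring
  rw [h9]
  have h10 : 2 / e * ∑ k ∈ range T, P.Pr (b k) ≤ 2 / e * (2 * ∑ k ∈ range T, P.Pr (b k)) :=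
    mul_le_mul_of_nonneg_left (by linarith) (by positivity)
  have h11 : 2 / e * (2 + D) ≤ 2 / e * (2 + 2 * D) := mul_le_mul_of_nonneg_left (by linarith) (by positivity)
  linarith

end

/-! ### unlisted points, read at the start of the epoch -/

namespace AHR

section unm

variable {Om : Type*} [Fintype Om] {P : FP Om} {κ lam η : Type*} {N : ℕ → Om → κ} {L : ℕ → Om → lam} {Y : Om → η}

theorem lq_Ico {ν k : ℕ} (h : ν ≤ k) (w : Om) : ∑ j ∈ Ico ν k, (ai P N L Y j w - bi P N L Y j w) =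
    lq P N L Y k w - lq P N L Y ν w := by
  induction k, h using Nat.le_induction with
  | base => simp
  | succ k hk ih =>
    rw [Finset.sum_Ico_succ_top hk, ih]
    unfold ai bi
    ring

/-- an unmoved letter has the same log probability up to `2 δ` -/
theorem lq_move (hL : ∀ k, Fac (L (k + 1)) (L k)) {δ : ℝ} {ν k : ℕ} (h : ν ≤ k) {w : Om} (hw : P.p w ≠ 0)
    (hm : ¬ Mv1 P N L Y δ ν k w) : |lq P N L Y k w - lq P N L Y ν w| ≤ 2 * δ := by
  unfold Mv1 at hm
  push Not at hm
  obtain ⟨h1, h2⟩ := hm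
  rw [← lq_Ico h w, Finset.sum_sub_distrib]
  have h3 : 0 ≤ ∑ j ∈ Ico ν k, bi P N L Y j w := Finset.sum_nonneg fun j _ => bi_nonneg P hL j hw
  rw [abs_lt] at h1
  rw [abs_le]
  constructor <;> linarith [h1.1, h1.2]

end unm

section ms

variable {Om : Type} [Fintype Om] (M : MS Om)

/-- the public class with the points -/
def UY (k : ℕ) (w : Om) : (Fin 3 → M.η) × M.κ := (YF M (univ, univ) w, M.NP k w)

/-- the union of two families -/
def un (i j : Finset (Fin 3) × Finset (Fin 3)) : Finset (Fin 3) × Finset (Fin 3) := (i.1 ∪ j.1, i.2 ∪ j.2)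

theorem LF_un (i j : Finset (Fin 3) × Finset (Fin 3)) (k : ℕ) {a b : Om} :
    LF M (un i j) k a = LF M (un i j) k b ↔ LF M i k a = LF M i k b ∧ LF M j k a = LF M j k b := by
  classical
  unfold LF un
  simp only [Prod.mk.injEq, funext_iff]
  constructor
  · rintro ⟨h1, h2, h3⟩
    refine ⟨⟨fun l => ?_, fun l => ?_, h3⟩, fun l => ?_, fun l => ?_, h3⟩
    · by_cases h : l ∈ i.1
      · have := h1 l
        rw [if_pos (Finset.mem_union_left _ h), if_pos (Finset.mem_union_left _ h)] at this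
        rw [if_pos h, if_pos h, this]
      · rw [if_neg h, if_neg h]
    · by_cases h : l ∈ i.2
      · have := h2 l
        rw [if_pos (Finset.mem_union_left _ h), if_pos (Finset.mem_union_left _ h)] at this
        rw [if_pos h, if_pos h, this]
      · rw [if_neg h, if_neg h]
    · by_cases h : l ∈ j.1
      · have := h1 l
        rw [if_pos (Finset.mem_union_right _ h), if_pos (Finset.mem_union_right _ h)] at this
        rw [if_pos h, if_pos h, this]
      · rw [if_neg h, if_neg h]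
    · by_cases h : l ∈ j.2
      · have := h2 l
        rw [if_pos (Finset.mem_union_right _ h), if_pos (Finset.mem_union_right _ h)] at this
        rw [if_pos h, if_pos h, this]
      · rw [if_neg h, if_neg h]
  · rintro ⟨⟨h1, h2, h3⟩, h4, h5, _⟩
    refine ⟨fun l => ?_, fun l => ?_, h3⟩
    · by_cases h : l ∈ i.1 ∪ j.1
      · rw [if_pos h, if_pos h]
        rcases Finset.mem_union.1 h with h | h
        · have := h1 l
          rwa [if_pos h, if_pos h] at this
        · have := h4 l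
          rwa [if_pos h, if_pos h] at this
      · rw [if_neg h, if_neg h]
    · by_cases h : l ∈ i.2 ∪ j.2
      · rw [if_pos h, if_pos h]
        rcases Finset.mem_union.1 h with h | h
        · have := h2 l
          rwa [if_pos h, if_pos h] at this
        · have := h5 l
          rwa [if_pos h, if_pos h] at this
      · rw [if_neg h, if_neg h]

/-- `dr` of two families given the points and the public information of the time `k` -/
noncomputable def drq (i j : Finset (Fin 3) × Finset (Fin 3)) (k : ℕ) (w : Om) : ℝ := dr M.P (LF M i k) (LF M j k) (UY M k) w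

theorem drq_exp (i j : Finset (Fin 3) × Finset (Fin 3)) (k : ℕ) {w : Om} (hw : M.P.p w ≠ 0) :
    drq M i j k w = Real.exp (lq M.P M.NP (LF M i) (YF M i) k w + lq M.P M.NP (LF M j) (YF M j) k w -
      lq M.P M.NP (LF M (un i j)) (YF M (un i j)) k w) := by
  have e1 : ∀ i : Finset (Fin 3) × Finset (Fin 3), M.P.m (fun v => (LF M i k v, UY M k v)) w =
      M.P.m (fun v => (LF M i k v, M.NP k v)) w := fun i =>
    M.P.m_congr (fun a b hab => by
      simp only [UY, Prod.mk.injEq] at hab ⊢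
      exact ⟨hab.1, hab.2.2⟩) (fun a b hab => by
      simp only [UY, Prod.mk.injEq] at hab ⊢
      exact ⟨hab.1, LF_YF M i k a b hab.1, hab.2⟩) w
  have e2 : M.P.m (fun v => (LF M i k v, LF M j k v, UY M k v)) w = M.P.m (fun v => (LF M (un i j) k v, M.NP k v)) w :=
    M.P.m_congr (fun a b hab => by
      simp only [UY, Prod.mk.injEq] at hab ⊢
      exact ⟨(LF_un M i j k).2 ⟨hab.1, hab.2.1⟩, hab.2.2.2⟩) (fun a b hab => by
      simp only [UY, Prod.mk.injEq] at hab ⊢
      have h1 := (LF_un M i j k).1 hab.1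
      exact ⟨h1.1, h1.2, LF_YF M i k a b h1.1, hab.2⟩) w
  have p1 := M.P.m_pos (fun v => (LF M i k v, M.NP k v)) hw
  have p2 := M.P.m_pos (fun v => (LF M j k v, M.NP k v)) hw
  have p3 := M.P.m_pos (fun v => (LF M (un i j) k v, M.NP k v)) hw
  have p4 := M.P.m_pos (UY M k) hw
  have e3 : ∀ i : Finset (Fin 3) × Finset (Fin 3), lq M.P M.NP (LF M i) (YF M i) k w =
      Real.log (M.P.m (fun v => (LF M i k v, M.NP k v)) w / M.P.m (UY M k) w) := fun i => rfl
  unfold drq dr
  rw [e1, e1, e2, e3, e3, e3, Real.exp_sub, Real.exp_add, Real.exp_log (div_pos p1 p4), Real.exp_log (div_pos p2 p4),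
    Real.exp_log (div_pos p3 p4)]
  field_simp

theorem drop_eq (i : Finset (Fin 3) × Finset (Fin 3)) (k : ℕ) :
    M.P.Hc (LF M i k) (UY M k) - M.P.Hc (LF M i k) (UY M (k + 1)) = M.P.E (ai M.P M.NP (LF M i) (YF M i) k) := by
  rw [E_ai M.P M.hN (LF_YF M i) k, M.P.I_eq_Hc]
  have e1 : M.P.Hc (LF M i k) (fun w => (M.NP (k + 1) w, YF M i w, M.NP k w)) = M.P.Hc (LF M i k) (UY M (k + 1)) := by
    refine M.P.Hc_congr (Fac.fst _ _) (fun a b hab => ?_) (Fac.fst _ _) (fun a b hab => ?_)
    · simp only [UY, Prod.mk.injEq] at hab ⊢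
      exact ⟨hab.2.1, hab.1⟩
    · simp only [UY, Prod.mk.injEq] at hab ⊢
      exact ⟨hab.2, hab.1, M.hN k a b hab.2⟩
  rw [e1]
  rfl

/-- inside a public epoch `dr` changes by a factor at most `2` at the unlisted points -/
theorem drq_unl (i j : Finset (Fin 3) × Finset (Fin 3)) (hd : M.d0 ≤ 1 / 12) (s : ℕ) {w : Om} (hw : M.P.p w ≠ 0)
    (hl : ¬ Lst M (nu M s w) s w) : drq M i j (nu M s w) w ≤ 2 * drq M i j s w := by
  have hle : nu M s w ≤ s := stg_le s w
  have hm : ∀ i : Finset (Fin 3) × Finset (Fin 3), |lq M.P M.NP (LF M i) (YF M i) s w -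
      lq M.P M.NP (LF M i) (YF M i) (nu M s w) w| ≤ 2 * M.d0 := by
    intro i
    rcases Nat.eq_or_lt_of_le hle with h1 | h1
    · rw [h1, sub_self, abs_zero]
      linarith [M.hd0]
    · refine lq_move (LF_step M i) hle hw fun h2 => hl (Or.inl ⟨s, h1, le_rfl, i, h2⟩)
  have a1 := abs_le.1 (hm i)
  have a2 := abs_le.1 (hm j)
  have a3 := abs_le.1 (hm (un i j))
  rw [drq_exp M i j _ hw, drq_exp M i j _ hw]
  set A := lq M.P M.NP (LF M i) (YF M i) s w + lq M.P M.NP (LF M j) (YF M j) s w -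
    lq M.P M.NP (LF M (un i j)) (YF M (un i j)) s w with hA
  set B := lq M.P M.NP (LF M i) (YF M i) (nu M s w) w + lq M.P M.NP (LF M j) (YF M j) (nu M s w) w -
    lq M.P M.NP (LF M (un i j)) (YF M (un i j)) (nu M s w) w with hB
  have h3 : B - 1 / 2 ≤ A := by rw [hA, hB]; linarith [a1.1, a2.1, a3.2]
  have h4 : Real.exp (B - 1 / 2) ≤ Real.exp A := Real.exp_le_exp.2 h3
  have h5 : Real.exp (B - 1 / 2) = Real.exp B * Real.exp (-(1 / 2)) := by rw [← Real.exp_add]; congr 1
  have h6 : 1 / 2 ≤ Real.exp (-(1 / 2)) := by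
    have := Real.add_one_le_exp (-(1 / 2 : ℝ))
    linarith
  have h7 := mul_le_mul_of_nonneg_left h6 (Real.exp_pos B).le
  rw [h5] at h4
  linarith

end ms

end AHR

section

variable {Om : Type} [Fintype Om] (M : MS Om)

open AHR

/-- **anti-hot pairs at the removals, current time** -/
theorem ah_cur (i j : Finset (Fin 3) × Finset (Fin 3)) {b : ℕ → Om → Prop} (hb : ∀ k, Fac (UY M (k + 1)) (b k)) {e : ℝ}
    (he : 0 < e) {T : ℕ} {Tot : ℝ} (h0 : Tot0 M T Tot) :
    ∑ k ∈ range T, M.P.Pr (fun w => b k w ∧ e ≤ drq M i j k w) ≤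
      4 / e * (1 + ∑ k ∈ range T, M.P.Pr (b k) + 2 * Tot) := by
  have hU : ∀ t, Fac (UY M (t + 1)) (UY M t) := fun t a b hab => by
    simp only [UY, Prod.mk.injEq] at hab ⊢
    exact ⟨hab.1, M.hN t a b hab.2⟩
  have hF : ∀ i : Finset (Fin 3) × Finset (Fin 3), ∀ t, Fac (fun v => (LF M i (t + 1) v, UY M (t + 1) v)) (LF M i t) :=
    fun i t a b hab => LF_step M i t a b (Prod.mk.inj hab).1
  refine (ah_rem M.P hU (hF i) (hF j) hb he T).trans ?_
  refine mul_le_mul_of_nonneg_left ?_ (by positivity)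
  have h1 : ∑ k ∈ range T, ((M.P.Hc (LF M i k) (UY M k) - M.P.Hc (LF M i k) (UY M (k + 1))) +
      (M.P.Hc (LF M j k) (UY M k) - M.P.Hc (LF M j k) (UY M (k + 1)))) =
      ∑ k ∈ range T, M.P.E (ai M.P M.NP (LF M i) (YF M i) k) + ∑ k ∈ range T, M.P.E (ai M.P M.NP (LF M j) (YF M j) k) := by
    rw [← Finset.sum_add_distrib]
    exact Finset.sum_congr rfl fun k _ => by rw [drop_eq, drop_eq]
  rw [h1]
  have h2 := (h0 i).1
  have h3 := (h0 j).1
  linarith

/-- **anti-hot pairs at the removals, unlisted points, read at the start of the public epoch** -/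
theorem ah_unl (i j : Finset (Fin 3) × Finset (Fin 3)) {b : ℕ → Om → Prop} (hb : ∀ k, Fac (UY M (k + 1)) (b k)) {e : ℝ}
    (he : 0 < e) (hd : M.d0 ≤ 1 / 12) {T : ℕ} {Tot : ℝ} (h0 : Tot0 M T Tot) :
    ∑ k ∈ range T, M.P.Pr (fun w => b k w ∧ ¬ Lst M (nu M k w) k w ∧ 2 * e ≤ drq M i j (nu M k w) w) ≤
      4 / e * (1 + ∑ k ∈ range T, M.P.Pr (b k) + 2 * Tot) := by
  refine (Finset.sum_le_sum fun k _ => ?_).trans (ah_cur M i j hb he h0)
  refine M.P.Pr_mono fun w hw hh => ⟨hh.1, ?_⟩
  have h1 := drq_unl M i j hd k hw hh.2.1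
  linarith [hh.2.2]

/-- light public values of code steps are events of the next public class -/
theorem lt5_UY (k : ℕ) : Fac (UY M (k + 1)) (lt5 M M.NP k) := fun a b hab => by
  simp only [UY, Prod.mk.injEq] at hab
  exact lt5_eq M M.hN k hab.2

end

/-- `dr` sees only the partitions -/
theorem dr_eqv {Om : Type*} [Fintype Om] {α α' β β' γ : Type*} (P : FP Om) {F : Om → α} {F' : Om → α'} {G : Om → β}
    {G' : Om → β'} {U : Om → γ} (h1 : ∀ a b, U a = U b → (F a = F b ↔ F' a = F' b))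
    (h2 : ∀ a b, U a = U b → (G a = G b ↔ G' a = G' b)) (w : Om) : dr P F G U w = dr P F' G' U w := by
  have e1 : P.m (fun v => (F v, U v)) w = P.m (fun v => (F' v, U v)) w :=
    P.m_congr (fun a b hab => by
      simp only [Prod.mk.injEq] at hab ⊢
      exact ⟨(h1 a b hab.2).1 hab.1, hab.2⟩) (fun a b hab => by
      simp only [Prod.mk.injEq] at hab ⊢
      exact ⟨(h1 a b hab.2).2 hab.1, hab.2⟩) w
  have e2 : P.m (fun v => (G v, U v)) w = P.m (fun v => (G' v, U v)) w :=
    P.m_congr (fun a b hab => by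
      simp only [Prod.mk.injEq] at hab ⊢
      exact ⟨(h2 a b hab.2).1 hab.1, hab.2⟩) (fun a b hab => by
      simp only [Prod.mk.injEq] at hab ⊢
      exact ⟨(h2 a b hab.2).2 hab.1, hab.2⟩) w
  have e3 : P.m (fun v => (F v, G v, U v)) w = P.m (fun v => (F' v, G' v, U v)) w :=
    P.m_congr (fun a b hab => by
      simp only [Prod.mk.injEq] at hab ⊢
      exact ⟨(h1 a b hab.2.2).1 hab.1, (h2 a b hab.2.2).1 hab.2.1, hab.2.2⟩) (fun a b hab => by
      simp only [Prod.mk.injEq] at hab ⊢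
      exact ⟨(h1 a b hab.2.2).2 hab.1, (h2 a b hab.2.2).2 hab.2.1, hab.2.2⟩) w
  unfold dr
  rw [e1, e2, e3]

namespace AHR

variable {Om : Type} [Fintype Om] (M : MS Om)

theorem LF_iff (i : Finset (Fin 3) × Finset (Fin 3)) (k : ℕ) {a b : Om} :
    LF M i k a = LF M i k b ↔ (∀ l ∈ i.1, M.XL l k a = M.XL l k b) ∧ (∀ l ∈ i.2, M.TF l k a = M.TF l k b) ∧
      YF M i a = YF M i b := by
  classical
  unfold LF
  rw [Prod.mk.injEq, Prod.mk.injEq, funext_iff, funext_iff]
  refine and_congr (forall_congr' fun l => ?_) (and_congr (forall_congr' fun l => ?_) Iff.rfl)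
  · by_cases h : l ∈ i.1
    · rw [if_pos h, if_pos h, Option.some_inj]
      exact ⟨fun hh _ => hh, fun hh => hh h⟩
    · rw [if_neg h, if_neg h]
      exact ⟨fun _ hh => absurd hh h, fun _ => rfl⟩
  · by_cases h : l ∈ i.2
    · rw [if_pos h, if_pos h, Option.some_inj]
      exact ⟨fun hh _ => hh, fun hh => hh h⟩
    · rw [if_neg h, if_neg h]
      exact ⟨fun _ hh => absurd hh h, fun _ => rfl⟩

/-- one thin letter given the public class with the points -/
theorem LF_one (c : Fin 3) (k : ℕ) {a b : Om} (hU : UY M k a = UY M k b) :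
    M.XL c k a = M.XL c k b ↔ LF M ({c}, ∅) k a = LF M ({c}, ∅) k b := by
  rw [LF_iff]
  have hY : YF M ({c}, ∅) a = YF M ({c}, ∅) b := congrArg Prod.fst hU
  constructor
  · intro h
    exact ⟨fun l hl => by rw [Finset.mem_singleton.1 hl]; exact h, fun l hl => absurd hl (Finset.notMem_empty l), hY⟩
  · intro h
    exact h.1 c (Finset.mem_singleton_self c)

/-- two thin letters given the public class with the points -/
theorem LF_two (b' d : Fin 3) (k : ℕ) {a b : Om} (hU : UY M k a = UY M k b) :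
    (M.XL b' k a, M.XL d k a) = (M.XL b' k b, M.XL d k b) ↔ LF M ({b', d}, ∅) k a = LF M ({b', d}, ∅) k b := by
  rw [LF_iff, Prod.mk.injEq]
  have hY : YF M ({b', d}, ∅) a = YF M ({b', d}, ∅) b := congrArg Prod.fst hU
  constructor
  · intro h
    refine ⟨fun l hl => ?_, fun l hl => absurd hl (Finset.notMem_empty l), hY⟩
    rcases Finset.mem_insert.1 hl with h1 | h1
    · rw [h1]; exact h.1
    · rw [Finset.mem_singleton.1 h1]; exact h.2
  · intro h
    exact ⟨h.1 b' (Finset.mem_insert_self _ _), h.1 d (Finset.mem_insert_of_mem (Finset.mem_singleton_self d))⟩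

/-- `dr` of one thin letter against two, as in `MvF` -/
theorem drq_12 (c b' d : Fin 3) (k : ℕ) (w : Om) :
    dr M.P (M.XL c k) (fun v => (M.XL b' k v, M.XL d k v)) (UY M k) w = drq M ({c}, ∅) ({b', d}, ∅) k w :=
  dr_eqv M.P (fun _ _ h => LF_one M c k h) (fun _ _ h => LF_two M b' d k h) w

/-- `dr` of one thin letter against one, as in `MvF` -/
theorem drq_11 (c b' : Fin 3) (k : ℕ) (w : Om) :
    dr M.P (M.XL c k) (M.XL b' k) (UY M k) w = drq M ({c}, ∅) ({b'}, ∅) k w :=
  dr_eqv M.P (fun _ _ h => LF_one M c k h) (fun _ _ h => LF_one M b' k h) w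

end AHR

end Pool.Agent.GMH.MV
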