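import Pool.Agent.GMH.MV4
import Pool.Agent.GMH.MV6
import Pool.Agent.GMH.MV1

/-!
# GMH/KDA: log probabilities and births in the class of an exact vertex against the public ones (helper7)

* `kda_lq` : `lq` of the family `i` in the class of `v` = public `lq` of `i ∪ {v}` minus public `lq` of `{v}`;
* `kda_bi` : the births in the class of `v` are at most the public births of `i ∪ {v}`;
* `kda_pos` : a conditional probability is positive at a point of the event.
-/

set_option autoImplicit false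
set_option linter.unusedSectionVars false

namespace Pool.Agent.GMH.MV

open Finset Pool.Agent.PWZ Pool.Agent.M3 Pool.Agent.GMH.TD Pool.Agent.GMH.CK Pool.Agent.GMH.MV.AHR Pool.Agent.GMH.MV4

variable {Om : Type} [Fintype Om] {M : MS Om}

theorem kda_one (v : Fin 3) (k : ℕ) {a b : Om} (h : M.XL v k a = M.XL v k b) (hY : YF M (univ, univ) a = YF M (univ, univ) b) :
    LF M ({v}, ∅) k a = LF M ({v}, ∅) k b := by
  classical
  unfold LF
  refine Prod.ext (funext fun j => ?_) (Prod.ext (funext fun t => ?_) hY)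
  · by_cases hj : j ∈ ({v} : Finset (Fin 3))
    · have := mem_singleton.1 hj
      subst this
      simp only [hj, if_true, h]
    · simp only [hj, if_false]
  · simp

theorem kda_oneX (v : Fin 3) (k : ℕ) {a b : Om} (h : LF M ({v}, ∅) k a = LF M ({v}, ∅) k b) : M.XL v k a = M.XL v k b := by
  classical
  have h3 := congrFun (congrArg Prod.fst h) v
  simp only [LF, mem_singleton, if_true] at h3
  exact Option.some.inj h3

theorem kda_un (v : Fin 3) (i : Finset (Fin 3) × Finset (Fin 3)) (k : ℕ) (w : Om) :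
    M.P.m (fun u => (LF M i k u, CN M v k u)) w = M.P.m (fun u => (LF M (un i ({v}, ∅)) k u, M.NP k u)) w := by
  refine M.P.m_congr (fun a b hab => ?_) (fun a b hab => ?_) w
  · simp only [CN, Prod.mk.injEq] at hab ⊢
    exact ⟨(LF_un M i _ k).2 ⟨hab.1, kda_one v k hab.2.1 (LF_YF M i k a b hab.1)⟩, hab.2.2⟩
  · simp only [CN, Prod.mk.injEq] at hab ⊢
    have h1 := (LF_un M i _ k).1 hab.1
    exact ⟨h1.1, kda_oneX v k h1.2, hab.2⟩

theorem kda_lq (v : Fin 3) (i : Finset (Fin 3) × Finset (Fin 3)) (k : ℕ) {w : Om} (hw : M.P.p w ≠ 0) :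
    lq M.P (CN M v) (LF M i) (YF M i) k w = lq M.P M.NP (LF M (un i ({v}, ∅))) (YF M (un i ({v}, ∅))) k w -
      lq M.P M.NP (LF M ({v}, ∅)) (YF M ({v}, ∅)) k w := by
  have e1 := kda_un (M := M) v i k w
  have e2 : M.P.m (fun u => (YF M i u, CN M v k u)) w = M.P.m (fun u => (LF M ({v}, ∅) k u, M.NP k u)) w := by
    refine M.P.m_congr (fun a b hab => ?_) (fun a b hab => ?_) w
    · simp only [CN, Prod.mk.injEq] at hab ⊢
      exact ⟨kda_one v k hab.2.1 hab.1, hab.2.2⟩
    · simp only [CN, Prod.mk.injEq] at hab ⊢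
      exact ⟨LF_YF M ({v}, ∅) k a b hab.1, kda_oneX v k hab.1, hab.2⟩
  have p1 := M.P.m_pos (fun u => (LF M (un i ({v}, ∅)) k u, M.NP k u)) hw
  have p2 := M.P.m_pos (fun u => (LF M ({v}, ∅) k u, M.NP k u)) hw
  have p3 := M.P.m_pos (fun u => (YF M (un i ({v}, ∅)) u, M.NP k u)) hw
  have p4 := M.P.m_pos (fun u => (YF M ({v}, ∅) u, M.NP k u)) hw
  unfold lq
  rw [e1, e2, Real.log_div p1.ne' p2.ne', Real.log_div p1.ne' p3.ne', Real.log_div p2.ne' p4.ne']
  have e3 : M.P.m (fun u => (YF M (un i ({v}, ∅)) u, M.NP k u)) w = M.P.m (fun u => (YF M ({v}, ∅) u, M.NP k u)) w := rfl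
  rw [e3]
  ring

theorem kda_bi (v : Fin 3) (i : Finset (Fin 3) × Finset (Fin 3)) (k : ℕ) {w : Om} (hw : M.P.p w ≠ 0) :
    bi M.P (CN M v) (LF M i) (YF M i) k w ≤ bi M.P M.NP (LF M (un i ({v}, ∅))) (YF M (un i ({v}, ∅))) k w := by
  have e1 := kda_un (M := M) v i (k + 1) w
  have p1 := M.P.m_pos (fun u => (LF M i k u, CN M v (k + 1) u)) hw
  have p2 := M.P.m_pos (fun u => (LF M i (k + 1) u, CN M v (k + 1) u)) hw
  have p3 := M.P.m_pos (fun u => (YF M i u, CN M v (k + 1) u)) hw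
  have p4 := M.P.m_pos (fun u => (LF M (un i ({v}, ∅)) k u, M.NP (k + 1) u)) hw
  have p5 := M.P.m_pos (fun u => (LF M (un i ({v}, ∅)) (k + 1) u, M.NP (k + 1) u)) hw
  have p6 := M.P.m_pos (fun u => (YF M (un i ({v}, ∅)) u, M.NP (k + 1) u)) hw
  have hle : M.P.m (fun u => (LF M i k u, CN M v (k + 1) u)) w ≤ M.P.m (fun u => (LF M (un i ({v}, ∅)) k u, M.NP (k + 1) u)) w := by
    refine M.P.m_anti (fun a b hab => ?_) w
    simp only [CN, Prod.mk.injEq] at hab ⊢
    exact ⟨(LF_un M i _ k).2 ⟨hab.1, kda_one v k (M.hX v k a b hab.2.1) (LF_YF M i k a b hab.1)⟩, hab.2.2⟩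
  have hlog := Real.log_le_log p1 hle
  unfold bi lqn lq
  rw [Real.log_div p1.ne' p3.ne', Real.log_div p2.ne' p3.ne', Real.log_div p4.ne' p6.ne', Real.log_div p5.ne' p6.ne', e1]
  linarith

theorem kda_pos {α : Type*} (X : Om → α) {A : Om → Prop} {u : Om} (hu : M.P.p u ≠ 0) (h : A u) :
    0 < M.P.ce X (fun x => ind (A x)) u := by
  unfold FP.ce
  refine div_pos ?_ (M.P.m_pos X hu)
  have e1 : M.P.E (fun v => ind (X v = X u) * ind (A v)) = M.P.Pr (fun v => X v = X u ∧ A v) := by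
    unfold FP.Pr
    exact M.P.E_congr fun v _ => by rw [ind_and]
  rw [e1]
  exact FP.Pr_pos_of hu ⟨rfl, h⟩

end Pool.Agent.GMH.MV
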