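import Pool.Agent.GMH.KDT3

/-!
# GMH/KDT4: the public log probabilities over a triple which is not moved at a vertex (helper27)

The exact clocks see the public moves (`Ex` of `GMH/MVdef`), so inside an exact epoch of `v` every public log probability
`lq P NP (LF i)` (letters of the family `i` given all the points) of a point which is not moved at `v` is constant up to `4 d1`.
* `lqN_unm` : not moved at `v` at `s`, any two times of the exact epoch; `lqN_pub` : not moved at the public start, not listed;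
* `mN_unm`, `mN_pub` : the same as inequalities between conditional probabilities;
* `lqN_th`, `lqN_th_pub` : for all points over the thin triple.
-/

set_option autoImplicit false
set_option linter.unusedSectionVars false

namespace Pool.Agent.GMH.KDT

open Finset Pool.Agent.PWZ Pool.Agent.M3 Pool.Agent.GMH.TD Pool.Agent.GMH.CK Pool.Agent.GMH.MV Pool.Agent.GMH.KDL

noncomputable section

variable {Om : Type} [Fintype Om] {M : MS Om}

/-- two times after `ν` -/
theorem lqN_of {δ : ℝ} (hδ : 0 < δ) (i : Finset (Fin 3) × Finset (Fin 3)) {ν r s : ℕ} {w : Om} (hw : M.P.p w ≠ 0)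
    (h : ¬ Evm M.P M.NP (LF M) (YF M) δ ν s w) (h1 : ν ≤ r) (h2 : r ≤ s) :
    |lq M.P M.NP (LF M i) (YF M i) s w - lq M.P M.NP (LF M i) (YF M i) r w| ≤ 4 * δ ∧
      ∑ j ∈ Ico r s, bi M.P M.NP (LF M i) (YF M i) j w ≤ δ := by
  have g1 := not_Mv1 hδ (h1.trans h2) h i
  have g2 := not_Mv1 hδ h1 (fun hh => h (Evm_mono h2 hh)) i
  have g3 := abs_le.1 (lq_unm (LF_step M i) (h1.trans h2) hw g1)
  have g4 := abs_le.1 (lq_unm (LF_step M i) h1 hw g2)
  have g5 : ∑ j ∈ Ico ν s, bi M.P M.NP (LF M i) (YF M i) j w < δ := lt_of_not_ge fun hc => g1 (Or.inr hc)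
  have g6 : ∑ j ∈ Ico r s, bi M.P M.NP (LF M i) (YF M i) j w ≤ ∑ j ∈ Ico ν s, bi M.P M.NP (LF M i) (YF M i) j w :=
    sum_le_sum_of_subset_of_nonneg (Ico_subset_Ico_left h1) fun j _ _ => bi_nonneg M.P (LF_step M i) j hw
  refine ⟨?_, by linarith⟩
  rw [abs_le]
  constructor <;> linarith [g3.1, g3.2, g4.1, g4.2]

/-- **not moved at `v`** : the public log probabilities and births, two times of the exact epoch -/
theorem lqN_unm {v : Fin 3} (i : Finset (Fin 3) × Finset (Fin 3)) {r s : ℕ} {w : Om} (hw : M.P.p w ≠ 0) (h : ¬ Mv M v s w)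
    (h1 : MV.tau M v s w ≤ r) (h2 : r ≤ s) :
    |lq M.P M.NP (LF M i) (YF M i) s w - lq M.P M.NP (LF M i) (YF M i) r w| ≤ 4 * M.d1 ∧
      ∑ j ∈ Ico r s, bi M.P M.NP (LF M i) (YF M i) j w ≤ M.d1 :=
  lqN_of M.hd1 i hw (fun hh => not_Ex_of hw h (Or.inr hh)) h1 h2

/-- **not moved at `v` at the public start, not listed** -/
theorem lqN_pub {v : Fin 3} (i : Finset (Fin 3) × Finset (Fin 3)) {r s : ℕ} {w : Om} (hw : M.P.p w ≠ 0)
    (h : ¬ Mv M v (nu M s w) w) (hl : ¬ Lst M (nu M s w) s w) (h1 : MV.tau M v s w ≤ r) (h2 : r ≤ s) :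
    |lq M.P M.NP (LF M i) (YF M i) s w - lq M.P M.NP (LF M i) (YF M i) r w| ≤ 4 * M.d1 + 4 * M.d0 ∧
      ∑ j ∈ Ico r s, bi M.P M.NP (LF M i) (YF M i) j w ≤ M.d1 + M.d0 := by
  have hns : nu M s w ≤ s := stg_le s w
  have hd0 := M.hd0
  have hd1 := M.hd1
  have ht := MV4.not_tau hns hl v
  have hE : ¬ Evm M.P M.NP (LF M) (YF M) M.d0 (nu M s w) s w := fun hh => hl (Or.inl hh)
  rcases le_total (nu M s w) r with g | g
  · obtain ⟨g1, g2⟩ := lqN_of hd0 i hw hE g h2
    exact ⟨by linarith, by linarith⟩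
  · obtain ⟨g1, g2⟩ := lqN_of hd0 i hw hE le_rfl hns
    obtain ⟨g3, g4⟩ := lqN_unm i hw h (by rw [← ht]; exact h1) g
    refine ⟨?_, ?_⟩
    · rw [abs_le] at g1 g3 ⊢
      constructor <;> linarith [g1.1, g1.2, g3.1, g3.2]
    · rw [← sum_Ico_consecutive _ g hns]
      linarith

/-- for all points over the thin triple -/
theorem lqN_th {v : Fin 3} (i : Finset (Fin 3) × Finset (Fin 3)) {r s : ℕ} {w u : Om} (hu : M.P.p u ≠ 0)
    (huw : TH M s u = TH M s w) (h : ¬ Mv M v s w) (h1 : MV.tau M v s w ≤ r) (h2 : r ≤ s) :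
    |lq M.P M.NP (LF M i) (YF M i) s u - lq M.P M.NP (LF M i) (YF M i) r u| ≤ 4 * M.d1 ∧
      ∑ j ∈ Ico r s, bi M.P M.NP (LF M i) (YF M i) j u ≤ M.d1 := by
  refine lqN_unm i hu (v := v) ?_ ?_ h2
  · rwa [MV.Mv_fac M v s u w huw]
  · rwa [MV.tau_fac M v s u w (TH_CN M v s u w huw)]

/-- for all points over the thin triple, public removal -/
theorem lqN_th_pub {v : Fin 3} (i : Finset (Fin 3) × Finset (Fin 3)) {r s : ℕ} {w u : Om} (hu : M.P.p u ≠ 0)
    (huw : TH M s u = TH M s w) (h : ¬ Mv M v (nu M s w) w)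
    (hl : ¬ 0 < M.P.ce (TH M s) (fun u => ind (Lst M (nu M s w) s u)) w) (h1 : MV.tau M v s w ≤ r) (h2 : r ≤ s) :
    |lq M.P M.NP (LF M i) (YF M i) s u - lq M.P M.NP (LF M i) (YF M i) r u| ≤ 4 * M.d1 + 4 * M.d0 ∧
      ∑ j ∈ Ico r s, bi M.P M.NP (LF M i) (YF M i) j u ≤ M.d1 + M.d0 := by
  have hn : nu M s u = nu M s w := MV.nu_fac M s u w (congrArg Prod.snd huw)
  have hns : nu M s w ≤ s := stg_le s w
  refine lqN_pub i hu (v := v) ?_ ?_ ?_ h2
  · rw [hn]
    rwa [MV.Mv_fac M v (nu M s w) u w (TH_le M hns u w huw)]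
  · rw [hn]
    intro g
    apply hl
    have e1 : M.P.ce (TH M s) (fun x => ind (Lst M (nu M s w) s x)) w =
        M.P.ce (TH M s) (fun x => ind (Lst M (nu M s w) s x)) u := M.P.ce_fac _ _ w u huw.symm
    rw [e1]
    exact kda_pos (TH M s) hu g
  · rwa [MV.tau_fac M v s u w (TH_CN M v s u w huw)]

end

end Pool.Agent.GMH.KDT
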