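import Pool.Agent.GMH.KDTw
import Pool.Agent.GMH.KDT4
import Pool.Agent.GMH.StpJ

/-!
# GMH/KDS (helper64): the distance of one top from its own law is stable (kind SF)

* `StbN e t s w` : between the times `t` and `s`, over the thin triple of `w` (time `s`), no PUBLIC log probability has changed by
  more than `e` and no family has public births of more than `e`; `stbN_unl` : a triple over which nothing is listed;
  `stbN_of`, `stbN_pub` : not moved at a vertex (the exact clocks see the public moves);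
* `ltN`, `qv_cmp`, `vm_cmp` : the public tables, the own law of the true top, its law given all thin letters;
* `tv_own` : two pairs of finite laws; **`tv1_st`** : `|tv1n s - tv1n t| <= 12 e`; `tv_Fo_self`, `tv_Fo_ne` : the frame `Fo`;
* run: `tvq i q` = the distance with the tables of the state `q`; `tvq_ms`, `tvq_stb`; `nsF_stb`, `nsF_stb2` : not `sF` at the
  removal gives distances `< 4 eF` at the state `r` of the life.
-/

set_option autoImplicit false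
set_option linter.unusedSectionVars false

namespace Pool.Agent.GMH.KDS

open Finset Pool.Agent.PWZ Pool.Agent.M3 Pool.Agent.GM Pool.Agent.GM.Harm Pool.Agent.GMH Pool.Agent.GMH.NZ
open Pool.Agent.GMH.V3 Pool.Agent.GMH.TP Pool.Agent.GMH.TD Pool.Agent.GMH.Dy Pool.Agent.GMH.MV Pool.Agent.GMH.MVI
open Pool.Agent.GMH.CK Pool.Agent.GMH.KF Pool.Agent.GMH.KDT Pool.Agent.GMH.KDTw Pool.Agent.GMH.KDL Pool.Agent.GMH.KFR

noncomputable section

/-! ### finite laws -/

/-- two pairs of laws, compared on the support of the first law -/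
theorem tv_own {G G' : Type*} (V : Finset G) (V' : Finset G') (par : G → G') {p q : G → ℝ} {p' q' : G' → ℝ} {e : ℝ}
    (he : 0 ≤ e) (p0 : ∀ g ∈ V, 0 ≤ p g) (q0 : ∀ g ∈ V, 0 ≤ q g) (p0' : ∀ g ∈ V', 0 ≤ p' g) (q0' : ∀ g ∈ V', 0 ≤ q' g)
    (p1 : ∑ g ∈ V, p g = 1) (q1 : ∑ g ∈ V, q g = 1) (p1' : ∑ g ∈ V', p' g = 1) (q1' : ∑ g ∈ V', q' g = 1)
    (hs : ∀ g ∈ V, 0 < p g → par g ∈ V')
    (hinj : ∀ a ∈ V, ∀ b ∈ V, 0 < p a → 0 < p b → par a = par b → a = b)
    (hp : ∀ g ∈ V, 0 < p g → Real.exp (-e) * p g ≤ p' (par g) ∧ p' (par g) ≤ Real.exp e * p g)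
    (hq : ∀ g ∈ V, 0 < p g → Real.exp (-e) * q g ≤ q' (par g) ∧ q' (par g) ≤ Real.exp e * q g) :
    |(∑ g ∈ V, |p g - q g|) - (∑ g ∈ V', |p' g - q' g|)| ≤ 4 * (Real.exp e - 1) := by
  classical
  set A := V.filter fun g => 0 < p g with hA
  have hAs : ∀ g ∈ A, g ∈ V ∧ 0 < p g := fun g hg => Finset.mem_filter.1 hg
  have hAV : A ⊆ V := Finset.filter_subset _ _
  have hout : ∀ g ∈ V \ A, p g = 0 := by
    intro g hg
    obtain ⟨h1, h2⟩ := Finset.mem_sdiff.1 hg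
    have h3 : ¬ 0 < p g := fun h => h2 (Finset.mem_filter.2 ⟨h1, h⟩)
    exact le_antisymm (not_lt.1 h3) (p0 g h1)
  set B := A.image par with hB
  have hBs : B ⊆ V' := by
    intro x hx
    obtain ⟨g, hg, rfl⟩ := Finset.mem_image.1 hx
    exact hs g (hAs g hg).1 (hAs g hg).2
  have hinjA : Set.InjOn par (A : Set G) := by
    intro a ha b hb hab
    exact hinj a (hAs a ha).1 b (hAs b hb).1 (hAs a ha).2 (hAs b hb).2 hab
  have sV : ∀ F : G → ℝ, ∑ g ∈ V, F g = ∑ g ∈ A, F g + ∑ g ∈ V \ A, F g := fun F => by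
    rw [add_comm]
    exact (Finset.sum_sdiff hAV).symm
  have sV' : ∀ F : G' → ℝ, ∑ x ∈ V', F x = ∑ g ∈ A, F (par g) + ∑ x ∈ V' \ B, F x := by
    intro F
    have h1 : ∑ x ∈ B, F x = ∑ g ∈ A, F (par g) := Finset.sum_image hinjA
    rw [← h1, add_comm]
    exact (Finset.sum_sdiff hBs).symm
  have ex0 : 1 ≤ Real.exp e := Real.one_le_exp he
  have ex1 := Real.exp_pos (-e)
  have ex2 : Real.exp (-e) ≤ 1 := Real.exp_le_one_iff.2 (by linarith)
  have ex3 : 1 - Real.exp (-e) ≤ Real.exp e - 1 := by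
    have h1 : Real.exp (-e) * Real.exp e = 1 := by rw [← Real.exp_add, neg_add_cancel, Real.exp_zero]
    nlinarith
  -- sums of the laws
  have pA : ∑ g ∈ A, p g = 1 := by
    rw [← p1, sV p, Finset.sum_eq_zero hout, add_zero]
  have qA : ∑ g ∈ A, q g + ∑ g ∈ V \ A, q g = 1 := by rw [← sV q, q1]
  have qV0 : 0 ≤ ∑ g ∈ V \ A, q g := Finset.sum_nonneg fun g hg => q0 g (Finset.mem_sdiff.1 hg).1
  have qA0 : 0 ≤ ∑ g ∈ A, q g := Finset.sum_nonneg fun g hg => q0 g (hAs g hg).1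
  have pB := sV' p'
  have qB := sV' q'
  rw [p1'] at pB
  rw [q1'] at qB
  -- pointwise
  have one : ∀ x y : ℝ, 0 ≤ x → Real.exp (-e) * x ≤ y ∧ y ≤ Real.exp e * x → |x - y| ≤ (Real.exp e - 1) * x := by
    rintro x y hx ⟨h1, h2⟩
    rw [abs_le]
    constructor
    · nlinarith
    · nlinarith
  have dp : ∑ g ∈ A, |p g - p' (par g)| ≤ Real.exp e - 1 := by
    have h1 : ∀ g ∈ A, |p g - p' (par g)| ≤ (Real.exp e - 1) * p g := fun g hg =>
      one _ _ (p0 g (hAs g hg).1) (hp g (hAs g hg).1 (hAs g hg).2)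
    refine (Finset.sum_le_sum h1).trans (le_of_eq ?_)
    rw [← Finset.mul_sum, pA, mul_one]
  have dq : ∑ g ∈ A, |q g - q' (par g)| ≤ Real.exp e - 1 := by
    have h1 : ∀ g ∈ A, |q g - q' (par g)| ≤ (Real.exp e - 1) * q g := fun g hg =>
      one _ _ (q0 g (hAs g hg).1) (hq g (hAs g hg).1 (hAs g hg).2)
    refine (Finset.sum_le_sum h1).trans ?_
    rw [← Finset.mul_sum]
    nlinarith
  have dq2 : |∑ g ∈ A, q g - ∑ g ∈ A, q' (par g)| ≤ Real.exp e - 1 := by
    rw [← Finset.sum_sub_distrib]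
    exact (Finset.abs_sum_le_sum_abs _ _).trans dq
  have lp : Real.exp (-e) ≤ ∑ g ∈ A, p' (par g) := by
    have h1 : ∀ g ∈ A, Real.exp (-e) * p g ≤ p' (par g) := fun g hg => (hp g (hAs g hg).1 (hAs g hg).2).1
    have h2 := Finset.sum_le_sum h1
    rw [← Finset.mul_sum, pA, mul_one] at h2
    exact h2
  -- the two sums
  have e1 : ∑ g ∈ V, |p g - q g| = ∑ g ∈ A, |p g - q g| + ∑ g ∈ V \ A, q g := by
    rw [sV fun g => |p g - q g|]
    congr 1
    refine Finset.sum_congr rfl fun g hg => ?_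
    rw [hout g hg, zero_sub, abs_neg, abs_of_nonneg (q0 g (Finset.mem_sdiff.1 hg).1)]
  have e2 := sV' fun x => |p' x - q' x|
  have e3 : |(∑ g ∈ A, |p g - q g|) - (∑ g ∈ A, |p' (par g) - q' (par g)|)| ≤
      ∑ g ∈ A, |p g - p' (par g)| + ∑ g ∈ A, |q g - q' (par g)| := by
    rw [← Finset.sum_sub_distrib, ← Finset.sum_add_distrib]
    refine (Finset.abs_sum_le_sum_abs _ _).trans (Finset.sum_le_sum fun g _ => ?_)
    have h1 : |(|p g - q g| - |p' (par g) - q' (par g)|)| ≤ |(p g - q g) - (p' (par g) - q' (par g))| :=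
      abs_abs_sub_abs_le_abs_sub _ _
    have h2 : |(p g - q g) - (p' (par g) - q' (par g))| ≤ |p g - p' (par g)| + |q g - q' (par g)| := by
      rw [show (p g - q g) - (p' (par g) - q' (par g)) = (p g - p' (par g)) - (q g - q' (par g)) by ring]
      exact abs_sub _ _
    exact h1.trans h2
  have e4 : |(∑ x ∈ V' \ B, |p' x - q' x|) - ∑ x ∈ V' \ B, q' x| ≤ ∑ x ∈ V' \ B, p' x := by
    rw [← Finset.sum_sub_distrib]
    refine (Finset.abs_sum_le_sum_abs _ _).trans (Finset.sum_le_sum fun x hx => ?_)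
    have h1 := p0' x (Finset.mem_sdiff.1 hx).1
    have h2 := q0' x (Finset.mem_sdiff.1 hx).1
    have h3 : |(|p' x - q' x| - |q' x|)| ≤ |p' x - q' x + q' x| := by
      have h4 := abs_abs_sub_abs_le_abs_sub (p' x - q' x) (-(q' x))
      rw [abs_neg, sub_neg_eq_add] at h4
      exact h4
    rw [abs_of_nonneg h2, sub_add_cancel, abs_of_nonneg h1] at h3
    exact h3
  rw [e1, e2]
  have f3 := abs_le.1 e3
  have f4 := abs_le.1 e4
  have f5 := abs_le.1 dq2
  rw [abs_le]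
  constructor <;> linarith [f3.1, f3.2, f4.1, f4.2, f5.1, f5.2]

/-! ### any data -/

section ms

variable {Om : Type} [Fintype Om] (M : MS Om)

/-- nothing public over the thin triple has changed between `t` and `s` -/
def StbN (e : ℝ) (t s : ℕ) (w : Om) : Prop := ∀ u, M.P.p u ≠ 0 → TH M s u = TH M s w → ∀ i,
  |lq M.P M.NP (LF M i) (YF M i) s u - lq M.P M.NP (LF M i) (YF M i) t u| ≤ e ∧
    ∑ j ∈ Ico t s, bi M.P M.NP (LF M i) (YF M i) j u ≤ e

variable {M}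

theorem stbN_mono {e e' : ℝ} (he : e ≤ e') {t s : ℕ} {w : Om} (h : StbN M e t s w) : StbN M e' t s w :=
  fun u hu huw i => ⟨(h u hu huw i).1.trans he, (h u hu huw i).2.trans he⟩

/-- from a clock without public moves over the triple -/
theorem stbN_ev {δ : ℝ} (hδ : 0 < δ) {ν t s : ℕ} (h1 : ν ≤ t) (h2 : t ≤ s) {w : Om}
    (h : ∀ u, M.P.p u ≠ 0 → TH M s u = TH M s w → ¬ Evm M.P M.NP (LF M) (YF M) δ ν s u) : StbN M (4 * δ) t s w := by
  intro u hu huw i
  have hs := not_Mv1 hδ (h1.trans h2) (h u hu huw) i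
  have ht := not_Mv1 hδ h1 (fun hh => h u hu huw (Evm_mono h2 hh)) i
  have g1 := lq_unm (P := M.P) (N := M.NP) (L := LF M i) (Y := YF M i) (LF_fac i) (h1.trans h2) hu hs
  have g2 := lq_unm (P := M.P) (N := M.NP) (L := LF M i) (Y := YF M i) (LF_fac i) h1 hu ht
  have g3 : ∑ j ∈ Ico ν s, bi M.P M.NP (LF M i) (YF M i) j u < δ := lt_of_not_ge fun hc => hs (Or.inr hc)
  have g4 : ∑ j ∈ Ico t s, bi M.P M.NP (LF M i) (YF M i) j u ≤ ∑ j ∈ Ico ν s, bi M.P M.NP (LF M i) (YF M i) j u :=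
    sum_le_sum_of_subset_of_nonneg (Ico_subset_Ico_left h1) fun j _ _ => bi_nonneg M.P (LF_step M i) j hu
  have g5 := abs_le.1 g1
  have g6 := abs_le.1 g2
  refine ⟨?_, by linarith⟩
  rw [abs_le]
  constructor <;> linarith [g5.1, g5.2, g6.1, g6.2]

/-- a triple over which nothing is listed -/
theorem stbN_unl {t s : ℕ} {w : Om}
    (hl : ¬ 0 < M.P.ce (TH M s) (fun u => ind (Lst M (nu M s w) s u)) w) (h1 : nu M s w ≤ t) (h2 : t ≤ s) :
    StbN M (4 * M.d0) t s w := by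
  refine stbN_ev M.hd0 h1 h2 fun u hu huw hh => hl ?_
  have e1 : M.P.ce (TH M s) (fun x => ind (Lst M (nu M s w) s x)) w =
      M.P.ce (TH M s) (fun x => ind (Lst M (nu M s w) s x)) u := M.P.ce_fac _ _ w u huw.symm
  rw [e1]
  exact kda_pos (TH M s) hu (Or.inl hh)

/-- a triple which is not moved at `v`, inside the exact epoch of `v` -/
theorem stbN_of {v : Fin 3} {t s : ℕ} {w : Om} (h : ¬ Mv M v s w) (h1 : MV.tau M v s w ≤ t) (h2 : t ≤ s) :
    StbN M (4 * M.d1) t s w := fun u hu huw i =>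
  ⟨(lqN_th i hu huw h h1 h2).1, (lqN_th i hu huw h h1 h2).2.trans (by linarith [M.hd1])⟩

/-- a triple which is not moved at `v` at its public start, nothing listed over it -/
theorem stbN_pub {v : Fin 3} {t s : ℕ} {w : Om} (h : ¬ Mv M v (nu M s w) w)
    (hl : ¬ 0 < M.P.ce (TH M s) (fun u => ind (Lst M (nu M s w) s u)) w) (h1 : MV.tau M v s w ≤ t) (h2 : t ≤ s) :
    StbN M (4 * M.d1 + 4 * M.d0) t s w := fun u hu huw i =>
  ⟨(lqN_th_pub i hu huw h hl h1 h2).1, (lqN_th_pub i hu huw h hl h1 h2).2.trans (by linarith [M.hd1, M.hd0])⟩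

/-- a stable triple is stable before -/
theorem stbN_trans {e e' : ℝ} {r t s : ℕ} (h1 : r ≤ t) (h2 : t ≤ s) {w : Om} (h : StbN M e t s w)
    (h' : StbN M e' r t w) : StbN M (e + e') r s w := by
  intro u hu huw i
  obtain ⟨a1, a2⟩ := h u hu huw i
  obtain ⟨b1, b2⟩ := h' u hu (TH_le M h2 u w huw) i
  have a3 := abs_le.1 a1
  have b3 := abs_le.1 b1
  constructor
  · rw [abs_le]
    constructor <;> linarith [a3.1, a3.2, b3.1, b3.2]
  · rw [← sum_Ico_consecutive _ h1 h2]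
    linarith

/-- the public tables over a stable triple -/
theorem ltN {e : ℝ} {t s : ℕ} {w : Om} (h : StbN M e t s w) (S A : Finset (Fin 3)) {u : Om} (hu : M.P.p u ≠ 0)
    (h1 : TH M s u = TH M s w) : |lt M S A s u - lt M S A t u| ≤ 2 * e := by
  have g1 := abs_le.1 (h u hu h1 (S, A)).1
  have g2 := abs_le.1 (h u hu h1 (S, ∅)).1
  rw [lt_pub hu, lt_pub hu, abs_le]
  constructor <;> linarith [g1.1, g1.2, g2.1, g2.2]

/-- the letters over the triple have one child -/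
theorem childN {e : ℝ} (he : e < Real.log 2) {s t : ℕ} (hts : t ≤ s) {w : Om} (h : StbN M e t s w)
    (i : Finset (Fin 3) × Finset (Fin 3)) {a b : Om} (ha : M.P.p a ≠ 0) (hb : M.P.p b ≠ 0) (h1 : TH M s a = TH M s w)
    (h2 : TH M s b = TH M s w) (h3 : LF M i t a = LF M i t b) : LF M i s a = LF M i s b := by
  have hbi : ∀ u, M.P.p u ≠ 0 → TH M s u = TH M s w → ∀ j, t ≤ j → j < s →
      bi M.P M.NP (LF M i) (YF M i) j u < Real.log 2 := by
    intro u hu huw j hj hjs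
    have g := (h u hu huw i).2
    have g1 : bi M.P M.NP (LF M i) (YF M i) j u ≤ ∑ j ∈ Ico t s, bi M.P M.NP (LF M i) (YF M i) j u :=
      Finset.single_le_sum (f := fun j => bi M.P M.NP (LF M i) (YF M i) j u)
        (fun l _ => bi_nonneg M.P (LF_step M i) l hu) (mem_Ico.2 ⟨hj, hjs⟩)
    linarith
  have key : ∀ j, t ≤ j → j ≤ s → LF M i j a = LF M i j b := by
    intro j hj
    induction j, hj using Nat.le_induction with
    | base => exact fun _ => h3
    | succ j hj ih =>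
      intro hjs
      refine child_step M.P (Y := YF M i) (LF_step M i) j ha hb (hbi a ha h1 j hj (by omega))
        (hbi b hb h2 j hj (by omega)) (ih (by omega)) ?_
      exact (Prod.mk.inj (TH_le M hjs a b (h1.trans h2.symm))).2
  exact key s hts le_rfl

variable (M) in
/-- own law of the true top `i` -/
def qv (i : Fin 3) (s : ℕ) (w : Om) : ℝ := qF M.P (Zo M s) (Ft M s) i w (Ft M s i w)

theorem qv_pos (i : Fin 3) (s : ℕ) {w : Om} (hw : M.P.p w ≠ 0) : 0 < qv M i s w := M.P.pv_self_pos _ _ hw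

theorem qv_log (i : Fin 3) (s : ℕ) {w : Om} (hw : M.P.p w ≠ 0) : Real.log (qv M i s w) = lt M (univ.erase i) {i} s w := by
  unfold qv qF lt
  rw [M.P.pv_self]
  congr 2
  refine M.P.m_congr (X := fun u => (Ft M s i u, Zo M s i u)) (Y := fun u => (LF M (univ.erase i, {i}) s u, M.NP s u))
    (fun a b hab => ?_) (fun a b hab => ?_) w
  · have h1 := (Prod.mk.inj hab).1
    have h2 := Prod.mk.inj (Prod.mk.inj hab).2
    obtain ⟨g1, g2, g3⟩ := LF_eq.1 h2.1
    exact Prod.ext (LF_eq.2 ⟨g1, fun j hj => by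
      rw [Finset.mem_singleton.1 hj]
      exact h1, g3⟩) h2.2
  · have h2 := Prod.mk.inj hab
    obtain ⟨g1, g2, g3⟩ := LF_eq.1 h2.1
    exact Prod.ext (g2 i (Finset.mem_singleton_self i)) (Prod.ext (LF_eq.2 ⟨g1, fun j hj =>
      absurd hj (Finset.notMem_empty j), g3⟩) h2.2)

theorem vm_log (i : Fin 3) (s : ℕ) {w : Om} (hw : M.P.p w ≠ 0) : Real.log (vp M {i} s w) = lt M univ {i} s w := by
  rw [vp_m]
  unfold lt
  congr 2
  refine M.P.m_congr (X := TH M s) (Y := fun u => (LF M (univ, ∅) s u, M.NP s u))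
    (fun a b hab => (MV4.L0_TH s).2 hab) (fun a b hab => (MV4.L0_TH s).1 hab) w

theorem cmp_log {x y e : ℝ} (hx : 0 < x) (hy : 0 < y) (h : |Real.log x - Real.log y| ≤ e) :
    Real.exp (-e) * x ≤ y ∧ y ≤ Real.exp e * x := by
  have h1 := abs_le.1 h
  constructor
  · rw [← Real.log_le_log_iff (by positivity) hy, Real.log_mul (Real.exp_pos _).ne' hx.ne', Real.log_exp]
    linarith [h1.1, h1.2]
  · rw [← Real.log_le_log_iff hy (by positivity), Real.log_mul (Real.exp_pos _).ne' hx.ne', Real.log_exp]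
    linarith [h1.1, h1.2]

theorem qv_cmp {e : ℝ} {s t : ℕ} {w : Om} (h : StbN M e t s w) (i : Fin 3) {u : Om} (hu : M.P.p u ≠ 0)
    (h1 : TH M s u = TH M s w) :
    Real.exp (-(2 * e)) * qv M i s u ≤ qv M i t u ∧ qv M i t u ≤ Real.exp (2 * e) * qv M i s u := by
  refine cmp_log (qv_pos i s hu) (qv_pos i t hu) ?_
  rw [qv_log i s hu, qv_log i t hu]
  exact ltN h _ _ hu h1

theorem vm_cmp {e : ℝ} {s t : ℕ} {w : Om} (h : StbN M e t s w) (i : Fin 3) {u : Om} (hu : M.P.p u ≠ 0)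
    (h1 : TH M s u = TH M s w) :
    Real.exp (-(2 * e)) * vp M {i} s u ≤ vp M {i} t u ∧ vp M {i} t u ≤ Real.exp (2 * e) * vp M {i} s u := by
  refine cmp_log (vp_pos {i} s hu) (vp_pos {i} t hu) ?_
  rw [vm_log i s hu, vm_log i t hu]
  exact ltN h _ _ hu h1

variable (M) in
/-- distance of the top `i` from its own law, state `s` -/
def tv1 (i : Fin 3) (s : ℕ) (w : Om) : ℝ := tv1n M.P (TH M s) (Zo M s) (Ft M s) i w

/-- **THE DISTANCE FROM THE OWN LAW IS STABLE** -/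
theorem tv1_st {e : ℝ} (he0 : 0 ≤ e) (he : e ≤ 1 / 100) {s t : ℕ} (hts : t ≤ s) {w : Om} (hw : M.P.p w ≠ 0)
    (h : StbN M e t s w) (i : Fin 3) : |tv1 M i s w - tv1 M i t w| ≤ 12 * e := by
  have hlog : e < Real.log 2 := by
    have := Real.log_two_gt_d9
    linarith
  have hex : ∀ x ∈ vals (Ft M s i), 0 < mF M.P (TH M s) (Ft M s) i w x →
      ∃ u, M.P.p u ≠ 0 ∧ TH M s u = TH M s w ∧ Ft M s i u = x := fun x _ hx => pv_ex hx
  have hm : ∀ r u, TH M r u = TH M r w → mF M.P (TH M r) (Ft M r) i w (Ft M r i u) = vp M {i} r u := by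
    intro r u h1
    rw [← mF_vp i r u]
    exact mF_fac M.P (Z := TH M r) (Ft M r) i _ w u h1.symm
  have hqv : ∀ r u, TH M r u = TH M r w → qF M.P (Zo M r) (Ft M r) i w (Ft M r i u) = qv M i r u := by
    intro r u h1
    exact M.P.pv_fac (Zo M r i) (Ft M r i) _ w u (TH_Zo r i u w h1).symm
  have key := tv_own (vals (Ft M s i)) (vals (Ft M t i)) (prn M t s i) (p := mF M.P (TH M s) (Ft M s) i w)
    (q := qF M.P (Zo M s) (Ft M s) i w) (p' := mF M.P (TH M t) (Ft M t) i w) (q' := qF M.P (Zo M t) (Ft M t) i w)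
    (e := 2 * e) (by linarith) (fun _ _ => M.P.pv_nonneg _ _ _ _) (fun _ _ => M.P.pv_nonneg _ _ _ _)
    (fun _ _ => M.P.pv_nonneg _ _ _ _) (fun _ _ => M.P.pv_nonneg _ _ _ _) (M.P.pv_sum (TH M s) (Ft M s i) hw)
    (M.P.pv_sum (Zo M s i) (Ft M s i) hw) (M.P.pv_sum (TH M t) (Ft M t i) hw) (M.P.pv_sum (Zo M t i) (Ft M t i) hw)
    (fun x hx h0 => by
      obtain ⟨u, h1, h2, rfl⟩ := hex x hx h0
      rw [prn_eq hts]
      exact FP.mem_vals _ _)
    (fun a ha b hb h0 h0' hab => by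
      obtain ⟨u, h1, h2, rfl⟩ := hex a ha h0
      obtain ⟨u', h1', h2', rfl⟩ := hex b hb h0'
      rw [prn_eq hts, prn_eq hts] at hab
      have h5 : (LF M (univ, {i}) t u, M.NP t u) = (LF M (univ, {i}) t u', M.NP t u') :=
        LFu_iff.2 ⟨(TH_le' hts u w h2).trans (TH_le' hts u' w h2').symm, fun j hj => by
          rw [Finset.mem_singleton.1 hj]
          exact hab⟩
      have h6 := childN hlog hts h (univ, {i}) h1 h1' h2 h2' (Prod.mk.inj h5).1
      have h7 : (LF M (univ, {i}) s u, M.NP s u) = (LF M (univ, {i}) s u', M.NP s u') :=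
        Prod.ext h6 (Prod.mk.inj (h2.trans h2'.symm)).2
      exact (LFu_iff.1 h7).2 i (Finset.mem_singleton_self i))
    (fun x hx h0 => by
      obtain ⟨u, h1, h2, rfl⟩ := hex x hx h0
      rw [prn_eq hts, hm s u h2, hm t u (TH_le' hts u w h2)]
      exact vm_cmp h i h1 h2)
    (fun x hx h0 => by
      obtain ⟨u, h1, h2, rfl⟩ := hex x hx h0
      rw [prn_eq hts, hqv s u h2, hqv t u (TH_le' hts u w h2)]
      exact qv_cmp h i h1 h2)
  refine key.trans ?_
  have h2 := Real.abs_exp_sub_one_sub_id_le (x := 2 * e) (by rw [abs_of_nonneg (by linarith)]; linarith)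
  have h3 := (abs_le.1 h2).2
  nlinarith

end ms

/-! ### two tops -/

section two

variable {Om : Type*} [Fintype Om] {P : FP Om} {α β φ : Type*} {Z : Om → β} {Zb : Fin 3 → Om → α} {F : Fin 3 → Om → φ}

theorem pv_Fo_self {ι : Type*} (Y : Om → ι) (i0 : Fin 3) {w : Om} (hw : P.p w ≠ 0) {x : Option φ}
    (hx : x ∈ vals (Fo F i0 i0)) : P.pv Y (Fo F i0 i0) w x = 1 := by
  obtain ⟨u, hu⟩ := exists_of_vals hx
  have h2 : ∀ v, Fo F i0 i0 v = x := fun v => by
    rw [← hu]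
    unfold Fo
    rw [if_pos rfl, if_pos rfl]
  unfold FP.pv
  rw [P.ce_congr (g := fun _ => 1) (fun v _ => ind_of (h2 v)) w]
  exact P.ce_const Y 1 hw

theorem Fo_ne' {i0 i : Fin 3} (hi : i ≠ i0) : Fo F i0 i = fun u => some (F i u) := by
  funext u
  unfold Fo
  rw [if_neg hi]

theorem pv_Fo_ne {ι : Type*} (Y : Om → ι) {i0 i : Fin 3} (hi : i ≠ i0) (w : Om) (y : φ) :
    P.pv Y (Fo F i0 i) w (some y) = P.pv Y (F i) w y := by
  unfold FP.pv
  refine P.ce_congr (fun v _ => ?_) w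
  rw [Fo_ne' hi]
  exact congrArg ind (propext ⟨fun hh => Option.some.inj hh, fun hh => congrArg some hh⟩)

/-- the missing top of the frame `Fo` is a constant -/
theorem tv_Fo_self (i0 : Fin 3) {w : Om} (hw : P.p w ≠ 0) : tv1n P Z Zb (Fo F i0) i0 w = 0 := by
  unfold tv1n
  refine Finset.sum_eq_zero fun x hx => ?_
  have e1 : mF P Z (Fo F i0) i0 w x = 1 := pv_Fo_self Z i0 hw hx
  have e2 : qF P Zb (Fo F i0) i0 w x = 1 := pv_Fo_self (Zb i0) i0 hw hx
  rw [e1, e2, sub_self, abs_zero]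

/-- the other tops of the frame `Fo` -/
theorem tv_Fo_ne {i0 i : Fin 3} (hi : i ≠ i0) (w : Om) : tv1n P Z Zb (Fo F i0) i w = tv1n P Z Zb F i w := by
  classical
  have hv : vals (Fo F i0 i) = (vals (F i)).image some := by
    rw [Fo_ne' hi]
    ext x
    rw [Finset.mem_image]
    constructor
    · intro hx
      obtain ⟨u, hu⟩ := exists_of_vals hx
      exact ⟨F i u, FP.mem_vals _ _, hu⟩
    · rintro ⟨y, hy, rfl⟩
      obtain ⟨u, rfl⟩ := exists_of_vals hy
      exact FP.mem_vals (fun u => some (F i u)) u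
  unfold tv1n
  rw [hv, Finset.sum_image fun a _ b _ hab => Option.some.inj hab]
  refine Finset.sum_congr rfl fun y _ => ?_
  have e1 : mF P Z (Fo F i0) i w (some y) = mF P Z F i w y := pv_Fo_ne Z hi w y
  have e2 : qF P Zb (Fo F i0) i w (some y) = qF P Zb F i w y := pv_Fo_ne (Zb i) hi w y
  rw [e1, e2]

end two

/-! ### the run -/

section run

variable {X β γ φ : Type} [Fintype X] [Fintype β] [Fintype φ] [Nonempty X] [Nonempty β]
variable {D : HD (Fin 3) X β γ φ} {al : ℝ} {h : D.Thick al} {N : Finset (Fin 3) → ℝ} {SS : Finset (Finset (Fin 3))}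
  {v : ℕ → Finset (Fin 3) → X → (Fin 3 → β) → Pt (Fin 3) X β φ}
variable {dg : ℕ → X → ℝ} {prr : ℕ → Fin 3 → φ → φ} {T : ℕ} {Lam : ℝ} {W : Type} [Fintype W] (tb : Tab D prr T W)
variable {d1 kb d0 k0 p1 z : ℝ} (hd1 : 0 < d1) (hd11 : d1 ≤ 1) (hkb : 0 < kb) (hd0 : 0 < d0) (hd01 : d0 ≤ 1) (hk0 : 0 < k0)
  (hp1 : 0 < p1) (hz : 0 < z)

/-- distance of the top `i` from its own law, tables of the state `q` -/
def tvq (h : D.Thick al) (v : ℕ → Finset (Fin 3) → X → (Fin 3 → β) → Pt (Fin 3) X β φ) (tb : Tab D prr T W) (i : Fin 3)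
    (q : ℕ) (w : Om W X β) : ℝ :=
  tv1n (D.P h (q / 5)) (ZQ D v q) (ZbQ D v q) (FQ v (q / 5)) i (tb.pt (q / 5) w)

/-- the distance on the data `MSi` -/
theorem tvq_ms (H : D.Hyp dg prr al T Lam) (R : Run h N SS (AdmDep D) v) (hS : ∀ l, univ.erase l ∈ SS) (hu : univ ∉ SS)
    (hN : ∀ l, 0 < N (univ.erase l)) {q : ℕ} (hq : q / 5 ≤ T) {w : Om W X β} (hw : tb.Ps.p w ≠ 0) (i : Fin 3) :
    tvq h v tb i q w = tv1 (MSi tb (v := v) d1 kb d0 k0 p1 z hd1 hd11 hkb hd0 hd01 hk0 hp1 hz) i q w := by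
  have hpw := (pul_pt h tb hq).ne hw
  have h1 := tv1n_push (rnm3 tb hd1 hd11 hkb hd0 hd01 hk0 hp1 hz H R hS hu hN hq)
    (rnb3 tb hd1 hd11 hkb hd0 hd01 hk0 hp1 hz H R hS hu hN hq) (TH_Zo q) (ZQ_Zp q) hw i
  refine Eq.trans ?_ h1.symm
  unfold tvq tv1n
  simp only [qF_Zp R q _ hpw]

/-- **the distance from the own law over a stable triple, run** -/
theorem tvq_stb (H : D.Hyp dg prr al T Lam) (R : Run h N SS (AdmDep D) v) (hS : ∀ l, univ.erase l ∈ SS) (hu : univ ∉ SS)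
    (hN : ∀ l, 0 < N (univ.erase l)) {e : ℝ} (he0 : 0 ≤ e) (he : e ≤ 1 / 100) {q r : ℕ} (hq : q / 5 ≤ T) {w : Om W X β}
    (hw : tb.Ps.p w ≠ 0) (h2 : r ≤ q)
    (hs : StbN (MSi tb (v := v) d1 kb d0 k0 p1 z hd1 hd11 hkb hd0 hd01 hk0 hp1 hz) e r q w) (i : Fin 3) :
    |tvq h v tb i q w - tvq h v tb i r w| ≤ 12 * e := by
  rw [tvq_ms tb hd1 hd11 hkb hd0 hd01 hk0 hp1 hz H R hS hu hN hq hw i,
    tvq_ms tb hd1 hd11 hkb hd0 hd01 hk0 hp1 hz H R hS hu hN ((Nat.div_le_div_right h2).trans hq) hw i]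
  exact tv1_st he0 he h2 hw hs i

/-- not `sF` at the removal: the distances at the state `r` of the life are small (three tops) -/
theorem nsF_stb (H : D.Hyp dg prr al T Lam) (R : Run h N SS (AdmDep D) v) (hS : ∀ l, univ.erase l ∈ SS) (hu : univ ∉ SS)
    (hN : ∀ l, 0 < N (univ.erase l)) {e : ℝ} (he0 : 0 ≤ e) (he : e ≤ 1 / 100) {c : KC} (hc : 12 * e ≤ 2 * c.eF) {q r : ℕ}
    (hq : q / 5 ≤ T) {w : Om W X β} (hw : tb.Ps.p w ≠ 0) (h2 : r ≤ q)
    (hs : StbN (MSi tb (v := v) d1 kb d0 k0 p1 z hd1 hd11 hkb hd0 hd01 hk0 hp1 hz) e r q w)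
    (hF : ¬ sF (D.P h (q / 5)) (ZQ D v q) (ZbQ D v q) (FQ v (q / 5)) c (tb.pt (q / 5) w)) (i : Fin 3) :
    tv1n (D.P h (r / 5)) (ZQ D v r) (ZbQ D v r) (FQ v (r / 5)) i (tb.pt (r / 5) w) < 4 * c.eF := by
  have h3 := (abs_le.1 (tvq_stb tb hd1 hd11 hkb hd0 hd01 hk0 hp1 hz H R hS hu hN he0 he hq hw h2 hs i)).1
  have h4 : tvq h v tb i q w < 2 * c.eF := lt_of_not_ge fun hh => hF ⟨i, hh⟩
  show tvq h v tb i r w < 4 * c.eF
  linarith

/-- not `sF` at the removal: the distances at the state `r` of the life are small (the two tops which see `i0`) -/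
theorem nsF_stb2 (H : D.Hyp dg prr al T Lam) (R : Run h N SS (AdmDep D) v) (hS : ∀ l, univ.erase l ∈ SS) (hu : univ ∉ SS)
    (hN : ∀ l, 0 < N (univ.erase l)) {e : ℝ} (he0 : 0 ≤ e) (he : e ≤ 1 / 100) {c : KC} (hcF : 0 < c.eF)
    (hc : 12 * e ≤ 2 * c.eF) {q r : ℕ} (hq : q / 5 ≤ T) {w : Om W X β} (hw : tb.Ps.p w ≠ 0) (h2 : r ≤ q)
    (hs : StbN (MSi tb (v := v) d1 kb d0 k0 p1 z hd1 hd11 hkb hd0 hd01 hk0 hp1 hz) e r q w) (i0 : Fin 3)
    (hF : ¬ sF (D.P h (q / 5)) (ZQ D v q) (ZbQ D v q) (Fo (FQ v (q / 5)) i0) c (tb.pt (q / 5) w)) (i : Fin 3) :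
    tv1n (D.P h (r / 5)) (ZQ D v r) (ZbQ D v r) (Fo (FQ v (r / 5)) i0) i (tb.pt (r / 5) w) < 4 * c.eF := by
  have hr : r / 5 ≤ T := (Nat.div_le_div_right h2).trans hq
  by_cases hi : i = i0
  · rw [hi, tv_Fo_self i0 ((pul_pt h tb hr).ne hw)]
    linarith
  · rw [tv_Fo_ne hi]
    have h3 := (abs_le.1 (tvq_stb tb hd1 hd11 hkb hd0 hd01 hk0 hp1 hz H R hS hu hN he0 he hq hw h2 hs i)).1
    have h4 : tvq h v tb i q w < 2 * c.eF := lt_of_not_ge fun hh => hF ⟨i, by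
      rw [tv_Fo_ne hi]
      exact hh⟩
    show tvq h v tb i r w < 4 * c.eF
    linarith

end run

end

end Pool.Agent.GMH.KDS
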