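import Pool.Agent.GMH.MV4
import Pool.Agent.GMH.KinF
import Pool.Agent.GMH.KDA

/-!
# GMH/KDT1: what is stable over an unmoved thin triple (statements of helper27, proofs of helper7)

`lx v i s` = log probability of the family `i` in the class of the exact vertex `v` (all points exact);
`Stb v e t s w` : between the times `t` and `s`, over the thin triple of `w` (time `s`), no log probability has changed by more
than `e` and no family has births of more than `e`.
* `stb_of` : not moved at `v` (now); `stb_pub` : not moved at the public start, nothing over the triple is listed;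
* `child_one` : the letters over the triple have one child (births `< log 2`).
-/

set_option autoImplicit false
set_option linter.unusedSectionVars false

namespace Pool.Agent.GMH.KDT

open Finset Pool.Agent.PWZ Pool.Agent.M3 Pool.Agent.GMH.TD Pool.Agent.GMH.CK Pool.Agent.GMH.MV

noncomputable section

variable {Om : Type} [Fintype Om] (M : MS Om)

/-- log probability of the family `i` in the class of the exact vertex `v` -/
def lx (v : Fin 3) (i : Finset (Fin 3) × Finset (Fin 3)) (s : ℕ) (w : Om) : ℝ := lq M.P (CN M v) (LF M i) (YF M i) s w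

/-- nothing over the thin triple has changed between `t` and `s` -/
def Stb (v : Fin 3) (e : ℝ) (t s : ℕ) (w : Om) : Prop := ∀ u, M.P.p u ≠ 0 → TH M s u = TH M s w → ∀ i,
  |lx M v i s u - lx M v i t u| ≤ e ∧ ∑ j ∈ Ico t s, bi M.P (CN M v) (LF M i) (YF M i) j u ≤ e

variable {M}

theorem Stb_fac (v : Fin 3) (e : ℝ) (t s : ℕ) : Fac (TH M s) (Stb M v e t s) := by
  intro a b hab
  unfold Stb
  rw [hab]

/-- births are not negative -/
theorem bi_nn (v : Fin 3) (i : Finset (Fin 3) × Finset (Fin 3)) (j : ℕ) {u : Om} (hu : M.P.p u ≠ 0) :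
    0 ≤ bi M.P (CN M v) (LF M i) (YF M i) j u := bi_nonneg M.P (LF_step M i) j hu

theorem bi_sub (v : Fin 3) (i : Finset (Fin 3) × Finset (Fin 3)) {r t s : ℕ} (h : r ≤ t) {u : Om} (hu : M.P.p u ≠ 0) :
    ∑ j ∈ Ico t s, bi M.P (CN M v) (LF M i) (YF M i) j u ≤ ∑ j ∈ Ico r s, bi M.P (CN M v) (LF M i) (YF M i) j u :=
  sum_le_sum_of_subset_of_nonneg (Ico_subset_Ico_left h) fun j _ _ => bi_nn v i j hu

/-- not moved at `v` : stable since every time of the exact epoch -/
theorem stb_of {v : Fin 3} {s t : ℕ} {w : Om} (hw : M.P.p w ≠ 0) (h : ¬ Mv M v s w) (h1 : MV.tau M v s w ≤ t) (h2 : t ≤ s) :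
    Stb M v (4 * M.d1) t s w := by
  intro u hu huw i
  have hx : ¬ Ex M v (MV.tau M v s u) s u := by
    intro hx
    apply h
    unfold Mv
    have e1 : M.P.ce (TH M s) (fun x => ind (Ex M v (MV.tau M v s x) s x)) w =
        M.P.ce (TH M s) (fun x => ind (Ex M v (MV.tau M v s x) s x)) u := M.P.ce_fac _ _ w u huw.symm
    rw [e1]
    exact kda_pos (TH M s) hu hx
  have ht : MV.tau M v s u = MV.tau M v s w := MV.tau_fac M v s u w (TH_CN M v s u w huw)
  rw [ht] at hx
  have hd1 := M.hd1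
  have hm : ∀ j, MV.tau M v s w ≤ j → j ≤ s →
      ¬ Mv1 M.P (CN M v) (LF M i) (YF M i) M.d1 (MV.tau M v s w) j u := by
    intro j hj hjs
    rcases Nat.eq_or_lt_of_le hj with g | g
    · rw [g]
      unfold Mv1
      rw [Finset.Ico_self, Finset.sum_empty, Finset.sum_empty, abs_zero]
      rintro (h2 | h2) <;> linarith
    · exact fun g2 => hx (Or.inl ⟨j, g, hjs, i, g2⟩)
  have h3 := AHR.lq_move (LF_step M i) (h1.trans h2) hu (hm s (h1.trans h2) le_rfl)
  have h4 := AHR.lq_move (LF_step M i) h1 hu (hm t h1 h2)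
  have h5 : ∑ j ∈ Ico (MV.tau M v s w) s, bi M.P (CN M v) (LF M i) (YF M i) j u < M.d1 :=
    lt_of_not_ge fun hc => hm s (h1.trans h2) le_rfl (Or.inr hc)
  have h6 := bi_sub v i (s := s) h1 hu
  refine ⟨?_, by linarith⟩
  unfold lx
  rw [abs_le] at h3 h4 ⊢
  constructor <;> linarith [h3.1, h3.2, h4.1, h4.2]

/-- not listed at `s` : not listed before -/
theorem Lst_mono {ν j s : ℕ} (h : j ≤ s) {u : Om} (hl : ¬ Lst M ν s u) : ¬ Lst M ν j u := by
  rintro (g | ⟨v, l, g1, g2, g3⟩ | ⟨c, g1, l, g2, g3, g4⟩)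
  · exact hl (Or.inl (Evm_mono h g))
  · exact hl (Or.inr (Or.inl ⟨v, l, g1, g2.trans h, g3⟩))
  · exact hl (Or.inr (Or.inr ⟨c, g1, l, g2, g3.trans h, g4⟩))

/-- public stability at an unlisted point, in the class of the exact vertex -/
theorem pub_lx (v : Fin 3) {ν s t : ℕ} (h1 : ν ≤ t) (h2 : t ≤ s) {u : Om} (hu : M.P.p u ≠ 0) (hl : ¬ Lst M ν s u)
    (i : Finset (Fin 3) × Finset (Fin 3)) :
    |lx M v i s u - lx M v i t u| ≤ 8 * M.d0 ∧ ∑ j ∈ Ico t s, bi M.P (CN M v) (LF M i) (YF M i) j u ≤ M.d0 := by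
  set i' := AHR.un i ({v}, ∅) with hi'
  have hl2 := Lst_mono h2 hl
  have m1 := MV4.not_mv (h1.trans h2) hl i'
  have m2 := MV4.not_mv (h1.trans h2) hl ({v}, ∅)
  have m3 := MV4.not_mv h1 hl2 i'
  have m4 := MV4.not_mv h1 hl2 ({v}, ∅)
  have q1 := AHR.lq_move (LF_step M i') (h1.trans h2) hu m1
  have q2 := AHR.lq_move (LF_step M ({v}, ∅)) (h1.trans h2) hu m2
  have q3 := AHR.lq_move (LF_step M i') h1 hu m3
  have q4 := AHR.lq_move (LF_step M ({v}, ∅)) h1 hu m4
  have b1 : ∑ j ∈ Ico ν s, bi M.P M.NP (LF M i') (YF M i') j u < M.d0 := lt_of_not_ge fun hc => m1 (Or.inr hc)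
  have b2 : ∑ j ∈ Ico ν s, bi M.P (CN M v) (LF M i) (YF M i) j u ≤
      ∑ j ∈ Ico ν s, bi M.P M.NP (LF M i') (YF M i') j u := sum_le_sum fun j _ => kda_bi v i j hu
  have b3 := bi_sub v i (s := s) h1 hu
  refine ⟨?_, by linarith⟩
  have e1 := kda_lq (M := M) v i s hu
  have e2 := kda_lq (M := M) v i t hu
  rw [← hi'] at e1 e2
  unfold lx
  rw [abs_le] at q1 q2 q3 q4 ⊢
  constructor <;> linarith [q1.1, q1.2, q2.1, q2.2, q3.1, q3.2, q4.1, q4.2]

/-- not moved at the public start, nothing over the triple is listed -/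
theorem stb_pub {v : Fin 3} {s t : ℕ} {w : Om} (hw : M.P.p w ≠ 0) (h : ¬ Mv M v (nu M s w) w)
    (hl : ¬ 0 < M.P.ce (TH M s) (fun u => ind (Lst M (nu M s w) s u)) w) (h1 : MV.tau M v s w ≤ t) (h2 : t ≤ s) :
    MV.tau M v s w = MV.tau M v (nu M s w) w ∧ Stb M v (4 * M.d1 + 16 * M.d0) t s w := by
  have hns : nu M s w ≤ s := stg_le s w
  have hl' : ∀ u, M.P.p u ≠ 0 → TH M s u = TH M s w → ¬ Lst M (nu M s w) s u := by
    intro u hu huw g
    apply hl
    have e1 : M.P.ce (TH M s) (fun x => ind (Lst M (nu M s w) s x)) w =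
        M.P.ce (TH M s) (fun x => ind (Lst M (nu M s w) s x)) u := M.P.ce_fac _ _ w u huw.symm
    rw [e1]
    exact kda_pos (TH M s) hu g
  have ht := MV4.not_tau hns (hl' w hw rfl) v
  refine ⟨ht, ?_⟩
  have hd0 := M.hd0
  have hd1 := M.hd1
  intro u hu huw i
  rcases le_total (nu M s w) t with g | g
  · obtain ⟨a1, a2⟩ := pub_lx v g h2 hu (hl' u hu huw) i
    exact ⟨by linarith, by linarith⟩
  · obtain ⟨a1, a2⟩ := pub_lx v le_rfl hns hu (hl' u hu huw) i
    obtain ⟨a3, a4⟩ := stb_of hw h (by rw [← ht]; exact h1) g u hu (TH_le M hns u w huw) i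
    constructor
    · rw [abs_le] at a1 a3 ⊢
      constructor <;> linarith [a1.1, a1.2, a3.1, a3.2]
    · rw [← sum_Ico_consecutive _ g hns]
      linarith

/-- one step: two points with the same letters and small births have the same child -/
theorem child_step {α β γ : Type*} (P : FP Om) {L : ℕ → Om → α} {N : ℕ → Om → β} {Y : Om → γ}
    (hL : ∀ k, Fac (L (k + 1)) (L k)) (j : ℕ) {a b : Om} (ha : P.p a ≠ 0) (hb : P.p b ≠ 0)
    (h1 : bi P N L Y j a < Real.log 2) (h2 : bi P N L Y j b < Real.log 2) (h3 : L j a = L j b)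
    (h4 : N (j + 1) a = N (j + 1) b) : L (j + 1) a = L (j + 1) b := by
  classical
  by_contra hne
  have key : ∀ x, P.p x ≠ 0 → bi P N L Y j x < Real.log 2 →
      P.m (fun u => (L j u, N (j + 1) u)) x < 2 * P.m (fun u => (L (j + 1) u, N (j + 1) u)) x := by
    intro x hx hx2
    have p1 := P.m_pos (fun u => (L j u, N (j + 1) u)) hx
    have p2 := P.m_pos (fun u => (L (j + 1) u, N (j + 1) u)) hx
    have p3 := P.m_pos (fun u => (Y u, N (j + 1) u)) hx
    unfold bi lqn lq at hx2
    rw [Real.log_div p1.ne' p3.ne', Real.log_div p2.ne' p3.ne'] at hx2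
    have h5 : Real.log (P.m (fun u => (L j u, N (j + 1) u)) x) <
        Real.log (2 * P.m (fun u => (L (j + 1) u, N (j + 1) u)) x) := by
      rw [Real.log_mul (by norm_num) p2.ne']
      linarith
    exact (Real.log_lt_log_iff p1 (by positivity)).1 h5
  have k1 := key a ha h1
  have k2 := key b hb h2
  have e1 : P.m (fun u => (L j u, N (j + 1) u)) b = P.m (fun u => (L j u, N (j + 1) u)) a :=
    P.Fac_m (fun u => (L j u, N (j + 1) u)) b a (by simp only [h3, h4])
  rw [e1] at k2
  have h6 : P.m (fun u => (L (j + 1) u, N (j + 1) u)) a + P.m (fun u => (L (j + 1) u, N (j + 1) u)) b ≤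
      P.m (fun u => (L j u, N (j + 1) u)) a := by
    unfold FP.m
    rw [← P.E_add]
    refine P.E_mono fun x _ => ?_
    by_cases g1 : (L (j + 1) x, N (j + 1) x) = (L (j + 1) a, N (j + 1) a)
    · have g2 : ¬ (L (j + 1) x, N (j + 1) x) = (L (j + 1) b, N (j + 1) b) := by
        intro g2
        exact hne ((congrArg Prod.fst g1).symm.trans (congrArg Prod.fst g2))
      have g3 : (L j x, N (j + 1) x) = (L j a, N (j + 1) a) :=
        Prod.ext (hL j x a (Prod.mk.inj g1).1) (Prod.mk.inj g1).2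
      rw [ind_of g1, ind_not g2, ind_of g3]
      norm_num
    · by_cases g2 : (L (j + 1) x, N (j + 1) x) = (L (j + 1) b, N (j + 1) b)
      · have g3 : (L j x, N (j + 1) x) = (L j a, N (j + 1) a) :=
          Prod.ext ((hL j x b (Prod.mk.inj g2).1).trans h3.symm) ((Prod.mk.inj g2).2.trans h4.symm)
        rw [ind_not g1, ind_of g2, ind_of g3]
        norm_num
      · rw [ind_not g1, ind_not g2]
        have := ind_nonneg ((L j x, N (j + 1) x) = (L j a, N (j + 1) a))
        linarith
  linarith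

/-- unique children over the triple -/
theorem child_one {v : Fin 3} {e : ℝ} (he : e < Real.log 2) {s t : ℕ} (hts : t ≤ s) {w : Om} (h : Stb M v e t s w)
    (i : Finset (Fin 3) × Finset (Fin 3)) {a b : Om} (ha : M.P.p a ≠ 0) (hb : M.P.p b ≠ 0) (h1 : TH M s a = TH M s w)
    (h2 : TH M s b = TH M s w) (h3 : LF M i t a = LF M i t b) : LF M i s a = LF M i s b := by
  have hbi : ∀ u, M.P.p u ≠ 0 → TH M s u = TH M s w → ∀ j, t ≤ j → j < s →
      bi M.P (CN M v) (LF M i) (YF M i) j u < Real.log 2 := by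
    intro u hu huw j hj hjs
    have g := (h u hu huw i).2
    have g1 : bi M.P (CN M v) (LF M i) (YF M i) j u ≤ ∑ j ∈ Ico t s, bi M.P (CN M v) (LF M i) (YF M i) j u :=
      Finset.single_le_sum (f := fun j => bi M.P (CN M v) (LF M i) (YF M i) j u) (fun l _ => bi_nn v i l hu)
        (mem_Ico.2 ⟨hj, hjs⟩)
    linarith
  have key : ∀ j, t ≤ j → j ≤ s → LF M i j a = LF M i j b := by
    intro j hj
    induction j, hj using Nat.le_induction with
    | base => exact fun _ => h3
    | succ j hj ih =>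
      intro hjs
      refine child_step M.P (Y := YF M i) (LF_step M i) j ha hb (hbi a ha h1 j hj (by omega))
        (hbi b hb h2 j hj (by omega)) (ih (by omega)) ?_
      exact TH_CN M v (j + 1) a b (TH_le M hjs a b (h1.trans h2.symm))
  exact key s hts le_rfl

/-- log of the conditional probability of the tops of `S` given the thin letters -/
theorem cond_log (v : Fin 3) (S : Finset (Fin 3)) (k : ℕ) {u : Om} (hu : M.P.p u ≠ 0) :
    Real.log (M.P.m (fun x => (LF M (univ, S) k x, M.NP k x)) u / M.P.m (TH M k) u) =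
      lx M v (univ, S) k u - lx M v (univ, ∅) k u := by
  have e0 : ∀ A : Finset (Fin 3), M.P.m (fun x => (LF M (univ, A) k x, CN M v k x)) u =
      M.P.m (fun x => (LF M (univ, A) k x, M.NP k x)) u := by
    intro A
    refine M.P.m_congr (fun a b hab => ?_) (fun a b hab => ?_) u
    · simp only [CN, Prod.mk.injEq] at hab ⊢
      exact ⟨hab.1, hab.2.2⟩
    · simp only [CN, Prod.mk.injEq] at hab ⊢
      refine ⟨hab.1, ?_, hab.2⟩
      classical
      have h3 := congrFun (congrArg Prod.fst hab.1) v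
      simp only [LF, mem_univ, if_true] at h3
      exact Option.some.inj h3
  have e1 : M.P.m (fun x => (LF M (univ, ∅) k x, M.NP k x)) u = M.P.m (TH M k) u :=
    M.P.m_congr (X := fun w => (LF M (univ, ∅) k w, M.NP k w)) (Y := TH M k)
      (fun a b hab => (MV4.L0_TH k).1 hab) (fun a b hab => (MV4.L0_TH k).2 hab) u
  have p1 := M.P.m_pos (fun x => (LF M (univ, S) k x, M.NP k x)) hu
  have p2 := M.P.m_pos (TH M k) hu
  have p3 := M.P.m_pos (fun x => (YF M (univ, S) x, CN M v k x)) hu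
  have p4 := M.P.m_pos (fun x => (YF M (univ, ∅) x, CN M v k x)) hu
  unfold lx lq
  rw [e0 S, e0 ∅, e1, Real.log_div p1.ne' p2.ne', Real.log_div p1.ne' p3.ne', Real.log_div p2.ne' p4.ne']
  have e3 : M.P.m (fun x => (YF M (univ, S) x, CN M v k x)) u = M.P.m (fun x => (YF M (univ, ∅) x, CN M v k x)) u := rfl
  rw [e3]
  ring

/-- the conditional probability of the letters of `i'` given the letters of `i` is stable, `v` in `i` -/
theorem cond_st {v : Fin 3} {e : ℝ} {s t : ℕ} {w : Om} (h : Stb M v e t s w) {S : Finset (Fin 3)} {u : Om}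
    (hu : M.P.p u ≠ 0) (h1 : TH M s u = TH M s w) :
    Real.exp (-(2 * e)) * (M.P.m (fun x => (LF M (univ, S) t x, M.NP t x)) u / M.P.m (TH M t) u) ≤
        M.P.m (fun x => (LF M (univ, S) s x, M.NP s x)) u / M.P.m (TH M s) u ∧
      M.P.m (fun x => (LF M (univ, S) s x, M.NP s x)) u / M.P.m (TH M s) u ≤
        Real.exp (2 * e) * (M.P.m (fun x => (LF M (univ, S) t x, M.NP t x)) u / M.P.m (TH M t) u) := by
  have a1 := (h u hu h1 (univ, S)).1
  have a2 := (h u hu h1 (univ, ∅)).1
  have c1 := cond_log v S s hu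
  have c2 := cond_log v S t hu
  have p1 := div_pos (M.P.m_pos (fun x => (LF M (univ, S) s x, M.NP s x)) hu) (M.P.m_pos (TH M s) hu)
  have p2 := div_pos (M.P.m_pos (fun x => (LF M (univ, S) t x, M.NP t x)) hu) (M.P.m_pos (TH M t) hu)
  rw [abs_le] at a1 a2
  constructor
  · rw [← Real.log_le_log_iff (by positivity) p1, Real.log_mul (Real.exp_pos _).ne' p2.ne', Real.log_exp, c1, c2]
    linarith [a1.1, a1.2, a2.1, a2.2]
  · rw [← Real.log_le_log_iff p1 (by positivity), Real.log_mul (Real.exp_pos _).ne' p2.ne', Real.log_exp, c1, c2]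
    linarith [a1.1, a1.2, a2.1, a2.2]

end

end Pool.Agent.GMH.KDT
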