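import Pool.Agent.GMH.Key3P

/-!
# GMH.Key3: KEY for the three tops over the thin letters (T part of HARM(3), helper78)

One law `P`; `Z` = all thin letters (with owners) and node, `Zb i` = the same without the owner `i` (the top `F i` does not
see it), `Y i` = the additions which the top `i` sees (composite: public, and of the single vertices other than `i`).
`rF i w x` = ratio of the letter `x` of the top `i` at the true additions, `tF i w` = thin ratio, `al` = weight of the alive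
points (function of `Z`), `Reg` = region in which the density is cut, `a` = 1 - released.
* `key3` : the normalising sum of Lemma S is at most small constants times the gains, plus `6 B P(Rth)`, plus
  `(6 B + 3 B^2 + B^3) dh` times the thin informations, plus the product mass of two strong letters with bad rows (one of
  them not released), plus the released weak letters.
-/

set_option autoImplicit false
set_option linter.unusedSectionVars false
set_option linter.unusedVariables false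

namespace Pool.Agent.GMH

open Finset Pool.Agent.PWZ Pool.Agent.M3

noncomputable section

section key

variable {Om : Type*} [Fintype Om] (P : FP Om) {α β γ φ : Type*} (Z : Om → β) (Zb : Fin 3 → Om → α)
  (F : Fin 3 → Om → φ) (Y : Fin 3 → Om → γ)

/-- law of the tuple of the tops -/
def pF (w : Om) (f : Fin 3 → φ) : ℝ := P.pv Z (tup F) w f

/-- law of one top -/
def qF (i : Fin 3) (w : Om) (x : φ) : ℝ := P.pv (Zb i) (F i) w x

/-- law of one top after the additions -/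
def qF' (i : Fin 3) (w : Om) (x : φ) : ℝ := P.pv (fun u => (Y i u, Zb i u)) (F i) w x

/-- ratio of one top at the true additions -/
def rF (i : Fin 3) (w : Om) (x : φ) : ℝ := rr P (Zb i) (F i) (Y i) w (Y i w) x

/-- thin ratio at the true additions -/
def tF (i : Fin 3) (w : Om) : ℝ := tau P (Zb i) Z (Y i) w (Y i w)

/-- law of one top given all thin letters -/
def mF (i : Fin 3) (w : Om) (x : φ) : ℝ := P.pv Z (F i) w x

/-- law of two tops given all thin letters -/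
def mF2 (i k : Fin 3) (w : Om) (x y : φ) : ℝ := P.pv Z (fun u => (F i u, F k u)) w (x, y)

variable {Z Zb}

/-- the table of a point -/
def tK (hZ : ∀ i, Fac Z (Zb i)) {w : Om} (hw : P.p w ≠ 0) : KT (fun i => vals (F i)) where
  p f := pF P Z F w f
  q i x := qF P Zb F i w x
  q' i x := qF' P Zb F Y i w x
  p_nn f _ := P.pv_nonneg _ _ _ _
  q_nn i x _ := P.pv_nonneg _ _ _ _
  q'_nn i x _ := P.pv_nonneg _ _ _ _
  p_one := by
    have h := sum_tup P (W := Z) F (F := fun _ _ => 1) (fun _ _ _ _ => rfl) w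
    simp only [mul_one] at h
    rw [P.ce_const Z 1 hw] at h
    exact h
  q_one i := P.pv_sum (Zb i) (F i) hw
  q'_one i := P.pv_sum (fun u => (Y i u, Zb i u)) (F i) hw
  acq i x _ h := P.pv_ac (Fac.snd _ _) (F i) h
  acp f _ i h := by
    have h1 : P.pv Z (F i) w (f i) = 0 := P.pv_ac (hZ i) (F i) h
    refine le_antisymm ?_ (P.pv_nonneg _ _ _ _)
    rw [← h1]
    refine P.ce_mono (fun u _ => ?_) w
    by_cases h2 : tup F u = f
    · rw [ind_of h2, ind_of (show F i u = f i by rw [← h2]; rfl)]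
    · rw [ind_not h2]; exact ind_nonneg _

variable (hZ : ∀ i, Fac Z (Zb i))

theorem tK_r {w : Om} (hw : P.p w ≠ 0) (i : Fin 3) (x : φ) : (tK P F Y hZ hw).r i x = rF P Zb F Y i w x :=
  real_r P (Zb i) (F i) (Y i) hw x

theorem sum_fun (V : Fin 3 → Om → φ) (g : (Fin 3 → φ) → ℝ) (w : Om) :
    ∑ f ∈ let_ V, P.pv Z (tup V) w f * g f = P.ce Z (fun u => g (tup V u)) w :=
  sum_tup P (W := Z) V (F := fun _ f => g f) (fun _ _ _ _ => rfl) w

theorem tK_mg {w : Om} (hw : P.p w ≠ 0) (i : Fin 3) (x : φ) : (tK P F Y hZ hw).mg i x = mF P Z F i w x := by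
  classical
  have h := sum_fun P (Z := Z) F (fun f => ind (f i = x)) w
  have e1 : (tK P F Y hZ hw).mg i x = ∑ f ∈ let_ F, P.pv Z (tup F) w f * ind (f i = x) := by
    unfold KT.mg
    rw [Finset.sum_filter]
    refine Finset.sum_congr rfl fun f _ => ?_
    by_cases hf : f i = x
    · rw [if_pos hf, ind_of hf, mul_one]; rfl
    · rw [if_neg hf, ind_not hf, mul_zero]
  rw [e1, h]
  rfl

theorem tK_mg2 {w : Om} (hw : P.p w ≠ 0) (i k : Fin 3) (x y : φ) :
    (tK P F Y hZ hw).mg2 i k x y = mF2 P Z F i k w x y := by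
  have h := sum_fun P (Z := Z) F (fun f => ind (f i = x ∧ f k = y)) w
  have e1 : (tK P F Y hZ hw).mg2 i k x y = ∑ f ∈ let_ F, P.pv Z (tup F) w f * ind (f i = x ∧ f k = y) := by
    unfold KT.mg2
    exact Finset.sum_congr rfl fun f _ => mul_comm _ _
  rw [e1, h]
  unfold mF2 FP.pv
  refine P.ce_congr (fun u _ => ?_) w
  congr 1
  simp only [Prod.mk.injEq]
  rfl

/-- weak ratio minus one at the true additions -/
def xF (B : ℝ) (i : Fin 3) (w : Om) (x : φ) : ℝ := hwk B (rF P Zb F Y i w x) - 1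

theorem tK_xi {w : Om} (hw : P.p w ≠ 0) (B : ℝ) (i : Fin 3) (x : φ) :
    (tK P F Y hZ hw).xi B i x = xF P F Y (Zb := Zb) B i w x := by
  unfold KT.xi xF
  rw [tK_r P F Y hZ hw]

/-- absolute pair term at a point -/
def PAF (B : ℝ) (i k : Fin 3) (w : Om) : ℝ :=
  ∑ x ∈ vals (F i), ∑ y ∈ vals (F k), |mF2 P Z F i k w x y - qF P Zb F i w x * qF P Zb F k w y| *
    (|xF P F Y (Zb := Zb) B i w x| * |xF P F Y (Zb := Zb) B k w y|)

/-- bad pairs at a point -/
def HBF (B : ℝ) (H : Om → φ → φ → Prop) (w : Om) : ℝ :=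
  ∑ x ∈ vals (F 0), ∑ y ∈ vals (F 1), ind (H w x y) * mF2 P Z F 0 1 w x y *
    (|xF P F Y (Zb := Zb) B 0 w x| * |xF P F Y (Zb := Zb) B 1 w y|)

/-- mean absolute value of the weak ratio minus one -/
def mxF (B : ℝ) (i : Fin 3) (w : Om) : ℝ := ∑ x ∈ vals (F i), qF P Zb F i w x * |xF P F Y (Zb := Zb) B i w x|

variable {B eps : ℝ} {al : Om → ℝ}

theorem E_mx_sq (hB : Real.exp 2 ≤ B) (i : Fin 3) :
    P.E (fun w => mxF P F Y (Zb := Zb) B i w ^ 2) ≤ 2 * B * gn P (Zb i) (F i) (Y i) := by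
  refine le_trans (P.E_mono fun w hw => ?_) (weak_gain P (Zb i) (F i) (Y i) hB)
  have h1 : mxF P F Y (Zb := Zb) B i w ^ 2 ≤ (∑ x ∈ vals (F i), qF P Zb F i w x) *
      ∑ x ∈ vals (F i), qF P Zb F i w x * xF P F Y (Zb := Zb) B i w x ^ 2 := by
    unfold mxF
    have h := Finset.sum_mul_sq_le_sq_mul_sq (vals (F i)) (fun x => Real.sqrt (qF P Zb F i w x))
      (fun x => Real.sqrt (qF P Zb F i w x) * |xF P F Y (Zb := Zb) B i w x|)
    have hq : ∀ x, 0 ≤ qF P Zb F i w x := fun x => P.pv_nonneg _ _ _ _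
    have e1 : ∑ x ∈ vals (F i), Real.sqrt (qF P Zb F i w x) * (Real.sqrt (qF P Zb F i w x) *
        |xF P F Y (Zb := Zb) B i w x|) = ∑ x ∈ vals (F i), qF P Zb F i w x * |xF P F Y (Zb := Zb) B i w x| := by
      refine Finset.sum_congr rfl fun x _ => ?_
      rw [← mul_assoc, Real.mul_self_sqrt (hq x)]
    have e2 : ∑ x ∈ vals (F i), Real.sqrt (qF P Zb F i w x) ^ 2 = ∑ x ∈ vals (F i), qF P Zb F i w x :=
      Finset.sum_congr rfl fun x _ => Real.sq_sqrt (hq x)
    have e3 : ∑ x ∈ vals (F i), (Real.sqrt (qF P Zb F i w x) * |xF P F Y (Zb := Zb) B i w x|) ^ 2 =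
        ∑ x ∈ vals (F i), qF P Zb F i w x * xF P F Y (Zb := Zb) B i w x ^ 2 := by
      refine Finset.sum_congr rfl fun x _ => ?_
      rw [mul_pow, Real.sq_sqrt (hq x), sq_abs]
    rw [e1, e2, e3] at h
    exact h
  have h2 : ∑ x ∈ vals (F i), qF P Zb F i w x = 1 := P.pv_sum (Zb i) (F i) hw
  rw [h2, one_mul] at h1
  exact h1

theorem E_mx_mul (hB : Real.exp 2 ≤ B) (i k : Fin 3) :
    P.E (fun w => mxF P F Y (Zb := Zb) B i w * mxF P F Y (Zb := Zb) B k w) ≤
      B * (gn P (Zb i) (F i) (Y i) + gn P (Zb k) (F k) (Y k)) := by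
  have h1 := E_mx_sq P F Y (Zb := Zb) hB i
  have h2 := E_mx_sq P F Y (Zb := Zb) hB k
  have h3 : P.E (fun w => mxF P F Y (Zb := Zb) B i w * mxF P F Y (Zb := Zb) B k w) ≤
      P.E (fun w => (mxF P F Y (Zb := Zb) B i w ^ 2 + mxF P F Y (Zb := Zb) B k w ^ 2) / 2) := by
    refine P.E_mono fun w _ => ?_
    nlinarith [sq_nonneg (mxF P F Y (Zb := Zb) B i w - mxF P F Y (Zb := Zb) B k w)]
  rw [P.E_div_const, P.E_add] at h3
  linarith

include hZ in
/-- **ABSOLUTE PAIR TERMS** : any weight `h` of pairs which is a function of all thin letters -/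
theorem pair_gen (hB : Real.exp 2 ≤ B) (i k : Fin 3) (h : Om → φ → φ → ℝ) (hf : ∀ x y, Fac Z (fun w => h w x y))
    (hn : ∀ w x y, 0 ≤ h w x y)
    (hh : ∀ l m : Om → φ → ℝ, (∀ x, Fac (Zb i) (fun w => l w x)) → (∀ y, Fac (Zb k) (fun w => m w y)) →
      (∀ w x, 0 ≤ l w x) → (∀ w y, 0 ≤ m w y) →
      P.E (fun w => ∑ x ∈ vals (F i), ∑ y ∈ vals (F k), h w x y * (l w x * m w y)) ≤
        eps * Real.sqrt (P.E (fun w => ∑ x ∈ vals (F i), qF P Zb F i w x * l w x ^ 2) *
          P.E (fun w => ∑ y ∈ vals (F k), qF P Zb F k w y * m w y ^ 2))) (heps : 0 ≤ eps) :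
    P.E (fun w => ind (∀ j, ¬ B < tF P Z Zb Y j w) * ∑ x ∈ vals (F i), ∑ y ∈ vals (F k), h w x y *
      (|xF P F Y (Zb := Zb) B i w x| * |xF P F Y (Zb := Zb) B k w y|)) ≤
      B ^ 2 * eps * (gn P (Zb i) (F i) (Y i) + gn P (Zb k) (F k) (Y k)) := by
  have hB1 : 1 ≤ B := by
    have := Real.add_one_le_exp 2
    linarith
  have hB0 : 0 ≤ B := by linarith
  -- pointwise: separate the indicators
  set u : Fin 3 → Om → φ → ℝ := fun j w x => ind (¬ B < tF P Z Zb Y j w) * |xF P F Y (Zb := Zb) B j w x| with hu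
  have k1 : P.E (fun w => ind (∀ j, ¬ B < tF P Z Zb Y j w) * ∑ x ∈ vals (F i), ∑ y ∈ vals (F k), h w x y *
      (|xF P F Y (Zb := Zb) B i w x| * |xF P F Y (Zb := Zb) B k w y|)) ≤
      P.E (fun w => ∑ x ∈ vals (F i), ∑ y ∈ vals (F k), h w x y * (u i w x * u k w y)) := by
    refine P.E_mono fun w _ => ?_
    by_cases hw : ∀ j, ¬ B < tF P Z Zb Y j w
    · rw [ind_of hw, one_mul]
      refine le_of_eq (Finset.sum_congr rfl fun x _ => Finset.sum_congr rfl fun y _ => ?_)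
      simp only [hu, ind_of (hw i), ind_of (hw k), one_mul]
    · rw [ind_not hw, zero_mul]
      exact Finset.sum_nonneg fun x _ => Finset.sum_nonneg fun y _ => mul_nonneg (hn w x y)
        (mul_nonneg (mul_nonneg (ind_nonneg _) (abs_nonneg _)) (mul_nonneg (ind_nonneg _) (abs_nonneg _)))
  -- condition on `Z`
  have k2 : P.E (fun w => ∑ x ∈ vals (F i), ∑ y ∈ vals (F k), h w x y * (u i w x * u k w y)) ≤
      P.E (fun w => ∑ x ∈ vals (F i), ∑ y ∈ vals (F k), h w x y *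
        (B * (lam P (Zb i) (F i) (Y i) B w x * lam P (Zb k) (F k) (Y k) B w y))) := by
    rw [P.E_sum, P.E_sum]
    refine Finset.sum_le_sum fun x _ => ?_
    rw [P.E_sum, P.E_sum]
    refine Finset.sum_le_sum fun y _ => ?_
    rw [← P.E_mul_ce (hf x y) (fun w => u i w x * u k w y)]
    refine P.E_mono fun w hw => mul_le_mul_of_nonneg_left ?_ (hn w x y)
    have c1 := P.ce_mul_sq_le Z (fun w => u i w x) (fun w => u k w y) w
    have c2 : ∀ j (z : φ), P.ce Z (fun w => u j w z ^ 2) w ≤ B * lam P (Zb j) (F j) (Y j) B w z ^ 2 := by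
      intro j z
      refine le_trans (le_of_eq ?_) (ce_lam_le P (Zb j) Z (F j) (Y j) (hZ j) hB0 w z)
      refine P.ce_congr (fun v _ => ?_) w
      simp only [hu]
      rw [mul_pow, sq_abs]
      have : ind (¬ B < tF P Z Zb Y j v) ^ 2 = ind (¬ B < tF P Z Zb Y j v) := by
        by_cases hv : ¬ B < tF P Z Zb Y j v
        · rw [ind_of hv]; ring
        · rw [ind_not hv]; ring
      rw [this]
      rfl
    have c3 : 0 ≤ P.ce Z (fun w => u k w y ^ 2) w := P.ce_nonneg (fun _ _ => sq_nonneg _) w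
    have c4 : P.ce Z (fun w => u i w x * u k w y) w ^ 2 ≤
        (B * (lam P (Zb i) (F i) (Y i) B w x * lam P (Zb k) (F k) (Y k) B w y)) ^ 2 := by
      refine c1.trans ?_
      have a1 := c2 i x
      have a2 := c2 k y
      have a3 : 0 ≤ B * lam P (Zb i) (F i) (Y i) B w x ^ 2 := mul_nonneg hB0 (sq_nonneg _)
      refine (mul_le_mul a1 a2 c3 a3).trans (le_of_eq (by ring))
    have c5 : 0 ≤ B * (lam P (Zb i) (F i) (Y i) B w x * lam P (Zb k) (F k) (Y k) B w y) :=
      mul_nonneg hB0 (mul_nonneg (lam_nn P _ _ _ _ _) (lam_nn P _ _ _ _ _))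
    exact (le_abs_self _).trans (abs_le_of_sq_le_sq c4 c5)
  have k3 := hh (lam P (Zb i) (F i) (Y i) B) (lam P (Zb k) (F k) (Y k) B) (fun x => lam_fac P _ _ _ x)
    (fun y => lam_fac P _ _ _ y) (fun w x => lam_nn P _ _ _ _ _) (fun w y => lam_nn P _ _ _ _ _)
  have e1 : P.E (fun w => ∑ x ∈ vals (F i), ∑ y ∈ vals (F k), h w x y *
        (B * (lam P (Zb i) (F i) (Y i) B w x * lam P (Zb k) (F k) (Y k) B w y))) =
      B * P.E (fun w => ∑ x ∈ vals (F i), ∑ y ∈ vals (F k), h w x y *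
        (lam P (Zb i) (F i) (Y i) B w x * lam P (Zb k) (F k) (Y k) B w y)) := by
    rw [← P.E_smul]
    refine P.E_congr fun w _ => ?_
    rw [Finset.mul_sum]
    refine Finset.sum_congr rfl fun x _ => ?_
    rw [Finset.mul_sum]
    exact Finset.sum_congr rfl fun y _ => by ring
  rw [e1] at k2
  have gi := gn_nn P (Zb i) (F i) (Y i)
  have gk := gn_nn P (Zb k) (F k) (Y k)
  have k4 : Real.sqrt (P.E (fun w => ∑ x ∈ vals (F i), qF P Zb F i w x * lam P (Zb i) (F i) (Y i) B w x ^ 2) *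
      P.E (fun w => ∑ y ∈ vals (F k), qF P Zb F k w y * lam P (Zb k) (F k) (Y k) B w y ^ 2)) ≤
      B * (gn P (Zb i) (F i) (Y i) + gn P (Zb k) (F k) (Y k)) := by
    have a1 := E_lam P (Zb i) (F i) (Y i) hB
    have a2 := E_lam P (Zb k) (F k) (Y k) hB
    have a3 : 0 ≤ P.E (fun w => ∑ y ∈ vals (F k), qF P Zb F k w y * lam P (Zb k) (F k) (Y k) B w y ^ 2) :=
      P.E_nonneg fun w _ => Finset.sum_nonneg fun y _ => mul_nonneg (P.pv_nonneg _ _ _ _) (sq_nonneg _)
    refine Real.sqrt_le_iff.2 ⟨by positivity, ?_⟩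
    refine (mul_le_mul a1 a2 a3 (by positivity)).trans ?_
    nlinarith [sq_nonneg (gn P (Zb i) (F i) (Y i) - gn P (Zb k) (F k) (Y k)), sq_nonneg B,
      mul_nonneg (sq_nonneg B) (sq_nonneg (gn P (Zb i) (F i) (Y i) - gn P (Zb k) (F k) (Y k)))]
  have k5 := mul_le_mul_of_nonneg_left (k3.trans (mul_le_mul_of_nonneg_left k4 heps)) hB0
  refine k1.trans (k2.trans (k5.trans (le_of_eq (by ring))))

/-- the part of the tuples without strong letters at a point -/
def WKF (B : ℝ) (w : Om) : ℝ := ∑ f ∈ let_ F, (∏ i, hwk B (rF P Zb F Y i w (f i))) * (pF P Z F w f - ∏ i, qF P Zb F i w (f i))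

/-- released weak letters at a point -/
def RWF (B : ℝ) (a : Om → (Fin 3 → φ) → ℝ) (w : Om) : ℝ := ∑ f ∈ let_ F, (1 - a w f) *
  ((∏ i, hwk B (rF P Zb F Y i w (f i))) * |pF P Z F w f - ∏ i, qF P Zb F i w (f i)|)

/-- strong letters with a bad row -/
def SBF (B : ℝ) (bd : Om → Fin 3 → φ → Prop) (i : Fin 3) (w : Om) (x : φ) : Prop := B < rF P Zb F Y i w x ∧ bd w i x

/-- product mass of two strong letters with bad rows, the first one not released -/
def PRF (B : ℝ) (bd : Om → Fin 3 → φ → Prop) (ai : Om → Fin 3 → φ → ℝ) (w : Om) : ℝ :=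
  ∑ i, (∑ x ∈ vals (F i), ind (SBF P (Zb := Zb) F Y B bd i w x) * (ai w i x * qF' P Zb F Y i w x)) *
    ∑ k ∈ univ.erase i, ∑ x ∈ vals (F k), ind (SBF P (Zb := Zb) F Y B bd k w x) * qF' P Zb F Y k w x

/-- letters whose row is released because the thin ratio is strong and the letter has become more frequent -/
def bxF (B d : ℝ) (i : Fin 3) (w : Om) (x : φ) : Prop := B < tF P Z Zb Y i w ∧ d * qF P Zb F i w x < mF P Z F i w x - qF P Zb F i w x

/-- strong letters at a point -/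
def STF (B d c1 c2 : ℝ) (w : Om) : ℝ := ∑ i, ∑ x ∈ vals (F i), ind (B < rF P Zb F Y i w x) *
  (c1 * qF' P Zb F Y i w x + c2 * (rF P Zb F Y i w x * (ind (¬ bxF P F Y (Z := Z) (Zb := Zb) B d i w x) *
    max (mF P Z F i w x - qF P Zb F i w x) 0)))

theorem rq_F {w : Om} (hw : P.p w ≠ 0) (i : Fin 3) (x : φ) :
    rF P Zb F Y i w x * qF P Zb F i w x = qF' P Zb F Y i w x := by
  have h := real_r P (Zb i) (F i) (Y i) hw x
  have h2 : rF P Zb F Y i w x = qF' P Zb F Y i w x / qF P Zb F i w x := h.symm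
  rw [h2]
  by_cases h0 : qF P Zb F i w x = 0
  · rw [h0, mul_zero]
    exact (P.pv_ac (W := fun u => (Y i u, Zb i u)) (Fac.snd _ _) (F i) h0).symm
  · field_simp

include hZ in
/-- the strong part in the mean -/
theorem E_ST (hB : Real.exp 2 ≤ B) {d c1 c2 : ℝ} (hd : 0 ≤ d) (hc1 : 0 ≤ c1) (hc2 : 0 ≤ c2) (hal : Fac Z al)
    (h0 : ∀ w, 0 ≤ al w) (h1 : ∀ w, al w ≤ 1) :
    P.E (fun w => al w * STF P F Y (Z := Z) (Zb := Zb) B d c1 c2 w) ≤ ∑ i, ((c1 + c2 * d) * gn P (Zb i) (F i) (Y i) +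
      c2 * (B * Gd P (Zb i) Z (F i) (Y i) al)) := by
  unfold STF
  have e1 : P.E (fun w => al w * ∑ i, ∑ x ∈ vals (F i), ind (B < rF P Zb F Y i w x) *
      (c1 * qF' P Zb F Y i w x + c2 * (rF P Zb F Y i w x * (ind (¬ bxF P F Y (Z := Z) (Zb := Zb) B d i w x) *
        max (mF P Z F i w x - qF P Zb F i w x) 0)))) =
      ∑ i, P.E (fun w => al w * ∑ x ∈ vals (F i), ind (B < rF P Zb F Y i w x) *
      (c1 * qF' P Zb F Y i w x + c2 * (rF P Zb F Y i w x * (ind (¬ bxF P F Y (Z := Z) (Zb := Zb) B d i w x) *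
        max (mF P Z F i w x - qF P Zb F i w x) 0)))) := by
    rw [← P.E_sum]
    exact P.E_congr fun w _ => Finset.mul_sum _ _ _
  rw [e1]
  refine Finset.sum_le_sum fun i _ => ?_
  have k1 := strong_gain P (Zb i) (F i) (Y i) hB
  have k2 := strong_diff_le P (Zb i) Z (F i) (Y i) (hZ i) hB hal h0
  have k3 : P.E (fun w => al w * ∑ x ∈ vals (F i), ind (B < rF P Zb F Y i w x) *
      (c1 * qF' P Zb F Y i w x + c2 * (rF P Zb F Y i w x * (ind (¬ bxF P F Y (Z := Z) (Zb := Zb) B d i w x) *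
        max (mF P Z F i w x - qF P Zb F i w x) 0)))) ≤
      P.E (fun w => (c1 + c2 * d) * ∑ x ∈ vals (F i), P.pv (Zb i) (F i) w x * hsg B (rr P (Zb i) (F i) (Y i) w (Y i w) x) +
        c2 * (al w * (ind (¬ B < tau P (Zb i) Z (Y i) w (Y i w)) *
          ∑ x ∈ vals (F i), |P.pv Z (F i) w x - P.pv (Zb i) (F i) w x| * hsg B (rr P (Zb i) (F i) (Y i) w (Y i w) x)))) := by
    refine P.E_mono fun w hw => ?_
    rw [Finset.mul_sum, Finset.mul_sum]
    have e2 : c2 * (al w * (ind (¬ B < tau P (Zb i) Z (Y i) w (Y i w)) *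
          ∑ x ∈ vals (F i), |P.pv Z (F i) w x - P.pv (Zb i) (F i) w x| *
            hsg B (rr P (Zb i) (F i) (Y i) w (Y i w) x))) =
        ∑ x ∈ vals (F i), c2 * (al w * (ind (¬ B < tF P Z Zb Y i w) *
          (|mF P Z F i w x - qF P Zb F i w x| * hsg B (rF P Zb F Y i w x)))) := by
      rw [Finset.mul_sum, Finset.mul_sum, Finset.mul_sum]
      rfl
    rw [e2, ← Finset.sum_add_distrib]
    refine Finset.sum_le_sum fun x hx => ?_
    have hq : 0 ≤ qF P Zb F i w x := P.pv_nonneg _ _ _ _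
    have hq' : 0 ≤ qF' P Zb F Y i w x := P.pv_nonneg _ _ _ _
    have hr : 0 ≤ rF P Zb F Y i w x := rr_nn P _ _ _ _ _ _
    have hrq := rq_F P F Y (Zb := Zb) hw i x
    have e3 : P.pv (Zb i) (F i) w x * hsg B (rr P (Zb i) (F i) (Y i) w (Y i w) x) =
        ind (B < rF P Zb F Y i w x) * qF' P Zb F Y i w x := by
      have : P.pv (Zb i) (F i) w x = qF P Zb F i w x := rfl
      have h5 : rr P (Zb i) (F i) (Y i) w (Y i w) x = rF P Zb F Y i w x := rfl
      rw [this, h5, ← hrq]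
      unfold hsg
      ring
    rw [e3]
    by_cases hs : B < rF P Zb F Y i w x
    · have e4 : hsg B (rF P Zb F Y i w x) = rF P Zb F Y i w x := by
        unfold hsg; rw [ind_of hs, one_mul]
      rw [ind_of hs, one_mul, one_mul, e4]
      have g0 := h0 w
      have g1 := h1 w
      have m0 : 0 ≤ max (mF P Z F i w x - qF P Zb F i w x) 0 := le_max_right _ _
      have m1 : max (mF P Z F i w x - qF P Zb F i w x) 0 ≤ |mF P Z F i w x - qF P Zb F i w x| :=
        max_le (le_abs_self _) (abs_nonneg _)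
      have key : ind (¬ bxF P F Y (Z := Z) (Zb := Zb) B d i w x) * max (mF P Z F i w x - qF P Zb F i w x) 0 ≤
          d * qF P Zb F i w x + ind (¬ B < tF P Z Zb Y i w) * |mF P Z F i w x - qF P Zb F i w x| := by
        by_cases ht : B < tF P Z Zb Y i w
        · rw [ind_not (not_not.2 ht), zero_mul, add_zero]
          by_cases hb : bxF P F Y (Z := Z) (Zb := Zb) B d i w x
          · rw [ind_not (not_not.2 hb), zero_mul]; positivity
          · rw [ind_of hb, one_mul]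
            have h6 : ¬ d * qF P Zb F i w x < mF P Z F i w x - qF P Zb F i w x := fun h => hb ⟨ht, h⟩
            exact max_le (not_lt.1 h6) (by positivity)
        · rw [ind_of ht, one_mul]
          have := mul_le_of_le_one_left m0 (ind_le_one (¬ bxF P F Y (Z := Z) (Zb := Zb) B d i w x))
          have h7 : 0 ≤ d * qF P Zb F i w x := by positivity
          linarith
      have key2 := mul_le_mul_of_nonneg_left key (mul_nonneg hc2 hr)
      have e5 : d * qF' P Zb F Y i w x = rF P Zb F Y i w x * (d * qF P Zb F i w x) := by rw [← hrq]; ring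
      have s1 : 0 ≤ c1 * qF' P Zb F Y i w x := mul_nonneg hc1 hq'
      have s2 : 0 ≤ c2 * (d * qF' P Zb F Y i w x) := by positivity
      have t1 := mul_le_of_le_one_left s1 g1
      have t2 := mul_le_of_le_one_left s2 g1
      have t3 := mul_le_mul_of_nonneg_left key2 g0
      have e6 : al w * (c2 * rF P Zb F Y i w x * (d * qF P Zb F i w x + ind (¬ B < tF P Z Zb Y i w) *
          |mF P Z F i w x - qF P Zb F i w x|)) = al w * (c2 * (d * qF' P Zb F Y i w x)) +
          c2 * (al w * (ind (¬ B < tF P Z Zb Y i w) * (|mF P Z F i w x - qF P Zb F i w x| * rF P Zb F Y i w x))) := by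
        rw [← hrq]; ring
      rw [e6] at t3
      linarith
    · have e4 : hsg B (rF P Zb F Y i w x) = 0 := by
        unfold hsg; rw [ind_not hs, zero_mul]
      rw [ind_not hs, e4]
      simp only [zero_mul, mul_zero, add_zero, le_refl]
  refine k3.trans ?_
  rw [P.E_add, P.E_smul, P.E_smul]
  have c0 : 0 ≤ c1 + c2 * d := by positivity
  exact add_le_add (mul_le_mul_of_nonneg_left k1 c0) (mul_le_mul_of_nonneg_left k2 hc2)

include hZ in
/-- **KEY3** : the normalising sum of Lemma S for the three tops over the thin letters -/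
theorem key3 (hB : Real.exp 2 ≤ B) {d dd dh eta e1 c1 c2 : ℝ} (hd : 0 ≤ d) (hdd : 0 ≤ dd) (hdh : 0 ≤ dh) (heta : 0 ≤ eta)
    (heta1 : eta ≤ 1) (he1 : 0 ≤ e1) (heB : 1 + e1 ≤ B) (heps : 0 ≤ eps)
    (hc1 : (1 + e1) ^ 2 - 1 + eta + (B ^ 2 * dd + d) ≤ c1) (hc2 : (1 + e1) ^ 2 + (B ^ 2 * dd + 1) ≤ c2)
    (hal : Fac Z al) (h0 : ∀ w, 0 ≤ al w) (h1 : ∀ w, al w ≤ 1)
    {G a : Om → (Fin 3 → φ) → ℝ} {Reg : Om → (Fin 3 → φ) → Prop} {ai : Om → Fin 3 → φ → ℝ} {bd : Om → Fin 3 → φ → Prop}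
    {Rth : Om → Prop} {H : Om → φ → φ → Prop} (ha0 : ∀ w f, 0 ≤ a w f) (ha1 : ∀ w f, a w f ≤ 1)
    (hai0 : ∀ w i x, 0 ≤ ai w i x) (hai1 : ∀ w i x, ai w i x ≤ 1)
    -- the cut density
    (hG : ∀ w, P.p w ≠ 0 → ∀ f ∈ let_ F, ¬ Reg w f → G w f = pF P Z F w f / ∏ i, qF P Zb F i w (f i))
    (hGR : ∀ w, P.p w ≠ 0 → ∀ f ∈ let_ F, Reg w f → G w f ≤ eta)
    -- released letters with bad rows
    (hai : ∀ w, P.p w ≠ 0 → ∀ f ∈ let_ F, ∀ i, SBF P (Zb := Zb) F Y B bd i w (f i) →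
      (∀ k, k ≠ i → ¬ SBF P (Zb := Zb) F Y B bd k w (f k)) → a w f = ai w i (f i))
    -- the region
    (Ra : ∀ w, P.p w ≠ 0 → ∀ f ∈ let_ F, ∀ i, SBF P (Zb := Zb) F Y B bd i w (f i) → ∀ k, k ≠ i →
      1 + e1 < rF P Zb F Y k w (f k) → Reg w f)
    (Rb : ∀ w, P.p w ≠ 0 → ∀ f ∈ let_ F, ∀ i, B < rF P Zb F Y i w (f i) → bxF P F Y (Z := Z) (Zb := Zb) B d i w (f i) → Reg w f)
    (Rc : ∀ w, P.p w ≠ 0 → ∀ f ∈ let_ F, ∀ i k, i ≠ k → B < rF P Zb F Y i w (f i) → B < rF P Zb F Y k w (f k) →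
      (1 + d) * ∏ j, qF P Zb F j w (f j) < pF P Z F w f → Reg w f)
    (hgood : ∀ w, P.p w ≠ 0 → ∀ i, ∀ x ∈ vals (F i), B < rF P Zb F Y i w x → ¬ bd w i x →
      ∑ f ∈ let_ F, ind (f i = x) * |pF P Z F w f - mF P Z F i w (f i) * ∏ k ∈ univ.erase i, qF P Zb F k w (f k)| ≤
        dd * mF P Z F i w x)
    -- the thin region
    (hR1 : ∀ w, P.p w ≠ 0 → ¬ Rth w → ∀ f ∈ let_ F, (¬ ∃ i, B < rF P Zb F Y i w (f i)) → ¬ Reg w f)
    (hR2 : ∀ w, P.p w ≠ 0 → Rth w → ∀ f ∈ let_ F, Reg w f)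
    (hcl : ∀ w, P.p w ≠ 0 → ¬ Rth w → (∃ i, B < tF P Z Zb Y i w) →
      (∀ i, ∑ x ∈ vals (F i), |mF P Z F i w x - qF P Zb F i w x| ≤ dh) ∧
      ∑ f ∈ let_ F, max (|pF P Z F w f - ∏ i, qF P Zb F i w (f i)| - d * ∏ i, qF P Zb F i w (f i)) 0 ≤ dh)
    -- two tops
    (hpair : ∀ i k : Fin 3, i < k → ∀ l m : Om → φ → ℝ, (∀ x, Fac (Zb i) (fun w => l w x)) →
      (∀ y, Fac (Zb k) (fun w => m w y)) → (∀ w x, 0 ≤ l w x) → (∀ w y, 0 ≤ m w y) →
      P.E (fun w => ∑ x ∈ vals (F i), ∑ y ∈ vals (F k),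
        al w * |mF2 P Z F i k w x y - qF P Zb F i w x * qF P Zb F k w y| * (l w x * m w y)) ≤
        eps * Real.sqrt (P.E (fun w => ∑ x ∈ vals (F i), qF P Zb F i w x * l w x ^ 2) *
          P.E (fun w => ∑ y ∈ vals (F k), qF P Zb F k w y * m w y ^ 2)))
    -- the third top against a pair
    (hHf : ∀ x y, Fac Z (fun w => ind (H w x y)))
    (hH : ∀ w, P.p w ≠ 0 → ∀ x ∈ vals (F 0), ∀ y ∈ vals (F 1), ¬ H w x y →
      ∑ f ∈ let_ F, ind (f 0 = x ∧ f 1 = y) * |pF P Z F w f - mF2 P Z F 0 1 w x y * qF P Zb F 2 w (f 2)| ≤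
        dd * mF2 P Z F 0 1 w x y)
    (htrip : ∀ l m : Om → φ → ℝ, (∀ x, Fac (Zb 0) (fun w => l w x)) →
      (∀ y, Fac (Zb 1) (fun w => m w y)) → (∀ w x, 0 ≤ l w x) → (∀ w y, 0 ≤ m w y) →
      P.E (fun w => ∑ x ∈ vals (F 0), ∑ y ∈ vals (F 1),
        al w * (ind (H w x y) * mF2 P Z F 0 1 w x y) * (l w x * m w y)) ≤
        eps * Real.sqrt (P.E (fun w => ∑ x ∈ vals (F 0), qF P Zb F 0 w x * l w x ^ 2) *
          P.E (fun w => ∑ y ∈ vals (F 1), qF P Zb F 1 w y * m w y ^ 2))) :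
    P.E (fun w => al w * ∑ f ∈ let_ F, (∏ i, qF' P Zb F Y i w (f i)) * (a w f * (G w f - 1))) ≤
      (c1 + c2 * d + (4 + 2 * B + B * dd) * (B ^ 2 * eps) + B ^ 2 * dd + d * (B ^ 2 + 3 * B)) *
        ∑ i, gn P (Zb i) (F i) (Y i) +
      (c2 * B + 1) * ∑ i, Gd P (Zb i) Z (F i) (Y i) al +
      B * ∑ i, Real.sqrt (8 * (Gd P (Zb i) Z (F i) (Y i) al * Dt P (Zb i) Z (Y i))) +
      6 * B * P.Pr Rth + (6 * B + 3 * B ^ 2 + B ^ 3) * dh * ∑ i, Dt P (Zb i) Z (Y i) +
      P.E (fun w => al w * PRF P F Y (Zb := Zb) B bd ai w) + P.E (fun w => al w * RWF P F Y (Z := Z) (Zb := Zb) B a w) := by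
  classical
  have hB1 : 1 ≤ B := by
    have := Real.add_one_le_exp 2
    linarith
  have hB0 : 0 ≤ B := by linarith
  have hpw1 : (1 : ℝ) ≤ (1 + e1) ^ 2 := one_le_pow₀ (by linarith)
  have hc10 : 0 ≤ c1 := by
    have : 0 ≤ B ^ 2 * dd := by positivity
    linarith
  have hc20 : 0 ≤ c2 := by
    have : 0 ≤ B ^ 2 * dd := by positivity
    linarith
  set TS : Om → Prop := fun w => ∃ i, B < tF P Z Zb Y i w with hTS
  -- one point
  have hPR0 : ∀ w, 0 ≤ PRF P F Y (Zb := Zb) B bd ai w := fun w => Finset.sum_nonneg fun i _ =>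
    mul_nonneg (Finset.sum_nonneg fun x _ => mul_nonneg (ind_nonneg _) (mul_nonneg (hai0 w i x) (P.pv_nonneg _ _ _ _)))
      (Finset.sum_nonneg fun k _ => Finset.sum_nonneg fun x _ => mul_nonneg (ind_nonneg _) (P.pv_nonneg _ _ _ _))
  have hRW0 : ∀ w, 0 ≤ RWF P F Y (Z := Z) (Zb := Zb) B a w := fun w => Finset.sum_nonneg fun f _ =>
    mul_nonneg (by linarith [ha1 w f]) (mul_nonneg (Finset.prod_nonneg fun i _ => hwk_nonneg (rr_nn P _ _ _ _ _ _))
      (abs_nonneg _))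
  have hST0 : ∀ w, 0 ≤ STF P F Y (Z := Z) (Zb := Zb) B d c1 c2 w := fun w => Finset.sum_nonneg fun i _ =>
    Finset.sum_nonneg fun x _ => mul_nonneg (ind_nonneg _) (add_nonneg (mul_nonneg hc10 (P.pv_nonneg _ _ _ _))
      (mul_nonneg hc20 (mul_nonneg (rr_nn P _ _ _ _ _ _) (mul_nonneg (ind_nonneg _) (le_max_right _ _)))))
  have A1 : ∀ w, P.p w ≠ 0 → al w * ∑ f ∈ let_ F, (∏ i, qF' P Zb F Y i w (f i)) * (a w f * (G w f - 1)) ≤
      al w * (ind (¬ Rth w) * WKF P F Y (Z := Z) (Zb := Zb) B w) + al w * RWF P F Y (Z := Z) (Zb := Zb) B a w +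
        al w * STF P F Y (Z := Z) (Zb := Zb) B d c1 c2 w + al w * PRF P F Y (Zb := Zb) B bd ai w := by
    intro w hw
    set t := tK P F Y hZ hw with ht
    have hr : ∀ i x, t.r i x = rF P Zb F Y i w x := tK_r P F Y hZ hw
    have hmg : ∀ i x, t.mg i x = mF P Z F i w x := tK_mg P F Y hZ hw
    have hpq : ∀ f : Fin 3 → φ, t.pq f = ∏ i, qF P Zb F i w (f i) := fun f => rfl
    have main : ∑ f ∈ let_ F, (∏ i, qF' P Zb F Y i w (f i)) * (a w f * (G w f - 1)) ≤
        ind (¬ Rth w) * WKF P F Y (Z := Z) (Zb := Zb) B w + RWF P F Y (Z := Z) (Zb := Zb) B a w +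
          STF P F Y (Z := Z) (Zb := Zb) B d c1 c2 w + PRF P F Y (Zb := Zb) B bd ai w := by
      by_cases hRw : Rth w
      · have k := t.all_reg (eta := eta) (Reg := Reg w) (G := G w) (a := a w) heta1 (hGR w hw) (ha0 w) (hR2 w hw hRw)
        rw [ind_not (not_not.2 hRw), zero_mul, zero_add]
        have := hPR0 w
        have := hRW0 w
        have := hST0 w
        refine le_trans k ?_
        linarith
      · rw [ind_of hRw, one_mul]
        have k1 := t.weak_le (B := B) (Reg := Reg w) (G := G w) (a := a w) (hG w hw) (ha0 w) (ha1 w)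
          (fun f hf hs => hR1 w hw hRw f hf (fun ⟨i, hi⟩ => hs ⟨i, by rw [hr]; exact hi⟩))
        have k2 := t.strong_le (B := B) (d := d) (dd := dd) (eta := eta) (e1 := e1) (bd := bd w)
          (bx := fun i x => bxF P F Y (Z := Z) (Zb := Zb) B d i w x) (Reg := Reg w) (G := G w) (a := a w) (ai := ai w)
          hB1 hd hdd heta heta1 he1 heB (hG w hw) (hGR w hw) (ha0 w) (ha1 w) (hai0 w) (hai1 w)
          (fun f hf i hi hk => hai w hw f hf i (by unfold SBF; unfold KT.SB at hi; rw [hr] at hi; exact hi)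
            (fun k hki hs => hk k hki (by unfold KT.SB; rw [hr]; exact hs)))
          (fun f hf i hi k hki hk => Ra w hw f hf i (by unfold SBF; unfold KT.SB at hi; rw [hr] at hi; exact hi) k hki
            (by rw [hr] at hk; exact hk))
          (fun f hf i hi hb => Rb w hw f hf i (by rw [hr] at hi; exact hi) hb)
          (fun f hf i k hik hi hk hp => Rc w hw f hf i k hik (by rw [hr] at hi; exact hi) (by rw [hr] at hk; exact hk) hp)
          (fun i x hx hs hb => by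
            have := hgood w hw i x hx (by rw [hr] at hs; exact hs) hb
            rw [hmg]
            refine le_trans (le_of_eq (Finset.sum_congr rfl fun f _ => ?_)) this
            unfold KT.rowd
            rw [hmg]
            rfl)
          (c1 := c1) (c2 := c2) hc1 hc2
        have k3 := t.split_sum (B := B) (fun f => (∏ i, t.q' i (f i)) * (a w f * (G w f - 1)))
        have e1 : t.WK B = WKF P F Y (Z := Z) (Zb := Zb) B w := by
          unfold KT.WK WKF
          refine Finset.sum_congr rfl fun f _ => ?_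
          simp only [hr]
          rfl
        have e2 : t.RW B (a w) = RWF P F Y (Z := Z) (Zb := Zb) B a w := by
          unfold KT.RW RWF
          refine Finset.sum_congr rfl fun f _ => ?_
          simp only [hr]
          rfl
        have e3 : ∑ i, ∑ x ∈ vals (F i), ind (B < t.r i x) * (c1 * t.q' i x + c2 * (t.r i x *
            (ind (¬ bxF P F Y (Z := Z) (Zb := Zb) B d i w x) * t.ke i x))) =
            STF P F Y (Z := Z) (Zb := Zb) B d c1 c2 w := by
          unfold STF KT.ke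
          refine Finset.sum_congr rfl fun i _ => Finset.sum_congr rfl fun x _ => ?_
          rw [hr, hmg]
          rfl
        have e4 : ∑ i, t.Qa B (bd w) (ai w) i * ∑ k ∈ univ.erase i, t.Qs B (bd w) k =
            PRF P F Y (Zb := Zb) B bd ai w := by
          unfold KT.Qa KT.Qs PRF
          refine Finset.sum_congr rfl fun i _ => ?_
          congr 1
          · refine Finset.sum_congr rfl fun x _ => ?_
            unfold KT.SB SBF
            rw [hr]
            rfl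
          · refine Finset.sum_congr rfl fun k _ => Finset.sum_congr rfl fun x _ => ?_
            unfold KT.SB SBF
            rw [hr]
            rfl
        rw [e3, e4] at k2
        rw [e1, e2] at k1
        refine le_trans (le_of_eq k3) ?_
        linarith
    have := mul_le_mul_of_nonneg_left main (h0 w)
    linarith
  -- the weak part at a point
  set m : Fin 3 → Om → ℝ := fun i w => mxF P F Y (Zb := Zb) B i w with hm
  have hm0 : ∀ i w, 0 ≤ m i w := fun i w => Finset.sum_nonneg fun x _ => mul_nonneg (P.pv_nonneg _ _ _ _) (abs_nonneg _)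
  have hPA0 : ∀ i k w, 0 ≤ PAF P F Y (Z := Z) (Zb := Zb) B i k w := fun i k w => Finset.sum_nonneg fun x _ =>
    Finset.sum_nonneg fun y _ => mul_nonneg (abs_nonneg _) (mul_nonneg (abs_nonneg _) (abs_nonneg _))
  have hHB0 : ∀ w, 0 ≤ HBF P F Y (Z := Z) (Zb := Zb) B H w := fun w => Finset.sum_nonneg fun x _ =>
    Finset.sum_nonneg fun y _ => mul_nonneg (mul_nonneg (ind_nonneg _) (P.pv_nonneg _ _ _ _))
      (mul_nonneg (abs_nonneg _) (abs_nonneg _))
  have A2 : ∀ w, P.p w ≠ 0 → al w * (ind (¬ Rth w) * WKF P F Y (Z := Z) (Zb := Zb) B w) ≤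
      ∑ i, al w * (ind (¬ B < tau P (Zb i) Z (Y i) w (Y i w)) * phi1 P (Zb i) Z (F i) (Y i) B w (Y i w)) +
      6 * B * ind (Rth w) + (6 * B + 3 * B ^ 2 + B ^ 3) * dh * ind (TS w) +
      ((2 + B * dd) * (ind (¬ TS w) * (al w * PAF P F Y (Z := Z) (Zb := Zb) B 0 1 w)) +
        ind (¬ TS w) * (al w * PAF P F Y (Z := Z) (Zb := Zb) B 0 2 w) +
        ind (¬ TS w) * (al w * PAF P F Y (Z := Z) (Zb := Zb) B 1 2 w)) +
      2 * B * (ind (¬ TS w) * (al w * HBF P F Y (Z := Z) (Zb := Zb) B H w)) +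
      B * dd * (m 0 w * m 1 w) + d * ((1 + B) * (m 0 w * m 1 w) + m 0 w * m 2 w + m 1 w * m 2 w) := by
    intro w hw
    set t := tK P F Y hZ hw with ht
    have hr : ∀ i x, t.r i x = rF P Zb F Y i w x := tK_r P F Y hZ hw
    have hmg : ∀ i x, t.mg i x = mF P Z F i w x := tK_mg P F Y hZ hw
    have hmg2 : ∀ i k x y, t.mg2 i k x y = mF2 P Z F i k w x y := tK_mg2 P F Y hZ hw
    have hxi : ∀ i x, t.xi B i x = xF P F Y (Zb := Zb) B i w x := tK_xi P F Y hZ hw B
    have e1 : t.WK B = WKF P F Y (Z := Z) (Zb := Zb) B w := by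
      unfold KT.WK WKF
      refine Finset.sum_congr rfl fun f _ => ?_
      simp only [hr]
      rfl
    have e2 : ∀ i, t.ph B i = phi1 P (Zb i) Z (F i) (Y i) B w (Y i w) := by
      intro i
      unfold KT.ph phi1
      refine Finset.sum_congr rfl fun x _ => ?_
      rw [hmg, hxi]
      rfl
    have e3 : ∀ i k, t.PA B i k = PAF P F Y (Z := Z) (Zb := Zb) B i k w := by
      intro i k
      unfold KT.PA PAF
      refine Finset.sum_congr rfl fun x _ => Finset.sum_congr rfl fun y _ => ?_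
      rw [hmg2, hxi, hxi]
      rfl
    have e4 : t.HB B (H w) = HBF P F Y (Z := Z) (Zb := Zb) B H w := by
      unfold KT.HB HBF
      refine Finset.sum_congr rfl fun x _ => Finset.sum_congr rfl fun y _ => ?_
      rw [hmg2, hxi, hxi]
    have e5 : ∀ i, t.mx B i = m i w := by
      intro i
      unfold KT.mx
      refine Finset.sum_congr rfl fun x _ => ?_
      rw [hxi]
      rfl
    have a0 := h0 w
    have a1 := h1 w
    have mm : ∀ i k, 0 ≤ m i w * m k w := fun i k => mul_nonneg (hm0 i w) (hm0 k w)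
    have n1 : 0 ≤ B * dd * (m 0 w * m 1 w) := mul_nonneg (by positivity) (mm 0 1)
    have n2 : 0 ≤ d * ((1 + B) * (m 0 w * m 1 w) + m 0 w * m 2 w + m 1 w * m 2 w) := by
      have := mm 0 1
      have := mm 0 2
      have := mm 1 2
      positivity
    have n3 : 0 ≤ (6 * B + 3 * B ^ 2 + B ^ 3) * dh := by positivity
    have hph2 : ∀ i, |phi1 P (Zb i) Z (F i) (Y i) B w (Y i w)| ≤ 2 * B := fun i => by
      rw [← e2 i]; exact t.abs_ph_le2 hB1 i
    have hsgn : ∀ i C, |phi1 P (Zb i) Z (F i) (Y i) B w (Y i w)| ≤ C →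
        -C ≤ al w * (ind (¬ B < tau P (Zb i) Z (Y i) w (Y i w)) * phi1 P (Zb i) Z (F i) (Y i) B w (Y i w)) := by
      intro i C hC
      have b1 : |al w * (ind (¬ B < tau P (Zb i) Z (Y i) w (Y i w)) * phi1 P (Zb i) Z (F i) (Y i) B w (Y i w))| ≤ C := by
        rw [abs_mul, abs_mul, abs_of_nonneg a0, abs_of_nonneg (ind_nonneg _)]
        have b2 := mul_le_of_le_one_left (abs_nonneg (phi1 P (Zb i) Z (F i) (Y i) B w (Y i w)))
          (ind_le_one (¬ B < tau P (Zb i) Z (Y i) w (Y i w)))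
        have b3 := mul_le_of_le_one_left (mul_nonneg (ind_nonneg (¬ B < tau P (Zb i) Z (Y i) w (Y i w)))
          (abs_nonneg (phi1 P (Zb i) Z (F i) (Y i) B w (Y i w)))) a1
        linarith
      exact (abs_le.1 b1).1
    by_cases hR : Rth w
    · have b : ∀ i, -(2 * B) ≤ al w * (ind (¬ B < tau P (Zb i) Z (Y i) w (Y i w)) *
          phi1 P (Zb i) Z (F i) (Y i) B w (Y i w)) := fun i => hsgn i _ (hph2 i)
      rw [ind_not (not_not.2 hR), ind_of hR, zero_mul, mul_zero, Fin.sum_univ_three]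
      have b0 := b 0
      have b1 := b 1
      have b2 := b 2
      have c0 : 0 ≤ (6 * B + 3 * B ^ 2 + B ^ 3) * dh * ind (TS w) := mul_nonneg n3 (ind_nonneg _)
      have c1 : 0 ≤ (2 + B * dd) * (ind (¬ TS w) * (al w * PAF P F Y (Z := Z) (Zb := Zb) B 0 1 w)) :=
        mul_nonneg (by positivity) (mul_nonneg (ind_nonneg _) (mul_nonneg a0 (hPA0 0 1 w)))
      have c2 : 0 ≤ ind (¬ TS w) * (al w * PAF P F Y (Z := Z) (Zb := Zb) B 0 2 w) :=
        mul_nonneg (ind_nonneg _) (mul_nonneg a0 (hPA0 0 2 w))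
      have c3 : 0 ≤ ind (¬ TS w) * (al w * PAF P F Y (Z := Z) (Zb := Zb) B 1 2 w) :=
        mul_nonneg (ind_nonneg _) (mul_nonneg a0 (hPA0 1 2 w))
      have c4 : 0 ≤ 2 * B * (ind (¬ TS w) * (al w * HBF P F Y (Z := Z) (Zb := Zb) B H w)) :=
        mul_nonneg (by positivity) (mul_nonneg (ind_nonneg _) (mul_nonneg a0 (hHB0 w)))
      linarith
    · rw [ind_of hR, ind_not hR, one_mul]
      by_cases hT : TS w
      · obtain ⟨q1, q2⟩ := hcl w hw hR hT
        have k := t.WK_le_close (B := B) hB1 hd (dh := dh) (fun i => by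
          refine le_trans (le_of_eq (Finset.sum_congr rfl fun x _ => ?_)) (q1 i)
          rw [hmg]
          rfl) q2
        rw [e1] at k
        simp only [e5] at k
        have b : ∀ i, -(B * dh) ≤ al w * (ind (¬ B < tau P (Zb i) Z (Y i) w (Y i w)) *
            phi1 P (Zb i) Z (F i) (Y i) B w (Y i w)) := fun i => by
          refine hsgn i _ ?_
          rw [← e2 i]
          refine (t.abs_ph_le hB1 i).trans (mul_le_mul_of_nonneg_left ?_ hB0)
          refine le_trans (le_of_eq (Finset.sum_congr rfl fun x _ => ?_)) (q1 i)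
          rw [hmg]
          rfl
        have b0 := b 0
        have b1 := b 1
        have b2 := b 2
        rw [ind_of hT, ind_not (not_not.2 hT), Fin.sum_univ_three]
        have s1 : al w * WKF P F Y (Z := Z) (Zb := Zb) B w ≤ (3 * B + 3 * B ^ 2 + B ^ 3) * dh +
            d * ((1 + B) * (m 0 w * m 1 w) + m 0 w * m 2 w + m 1 w * m 2 w) := by
          have r0 : 0 ≤ (3 * B + 3 * B ^ 2 + B ^ 3) * dh +
            d * ((1 + B) * (m 0 w * m 1 w) + m 0 w * m 2 w + m 1 w * m 2 w) := by positivity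
          have r1 := mul_le_mul_of_nonneg_left k a0
          have r2 := mul_le_of_le_one_left r0 a1
          linarith
        simp only [zero_mul, mul_zero, add_zero, mul_one]
        linarith
      · have hT' : ∀ i, ¬ B < tF P Z Zb Y i w := fun i hi => hT ⟨i, hi⟩
        have k := t.WK_le (B := B) hB1 hdd (H := H w) (fun x hx y hy hxy => by
          have := hH w hw x hx y hy hxy
          rw [hmg2]
          refine le_trans (le_of_eq (Finset.sum_congr rfl fun f _ => ?_)) this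
          rw [hmg2]
          rfl)
        rw [e1, e3, e3, e3, e4] at k
        simp only [e5, e2] at k
        have k1 := mul_le_mul_of_nonneg_left k a0
        have hi : ∀ i, ind (¬ B < tau P (Zb i) Z (Y i) w (Y i w)) = 1 := fun i => ind_of (hT' i)
        rw [ind_not hT, ind_of hT]
        simp only [hi, one_mul]
        rw [← Finset.mul_sum]
        have r2 := mul_le_of_le_one_left n1 a1
        linarith
  -- pairs
  have hTSe : ∀ w, ind (¬ TS w) = ind (∀ j, ¬ B < tF P Z Zb Y j w) := fun w => by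
    congr 1
    exact propext ⟨fun h j hj => h ⟨j, hj⟩, fun h ⟨j, hj⟩ => h j hj⟩
  have B1 : ∀ i k : Fin 3, i < k → P.E (fun w => ind (¬ TS w) * (al w * PAF P F Y (Z := Z) (Zb := Zb) B i k w)) ≤
      B ^ 2 * eps * (gn P (Zb i) (F i) (Y i) + gn P (Zb k) (F k) (Y k)) := by
    intro i k hik
    have h2 := pair_gen P F Y hZ (eps := eps) hB i k
      (fun w x y => al w * |mF2 P Z F i k w x y - qF P Zb F i w x * qF P Zb F k w y|)
      (fun x y a b hab => by
        show al a * |mF2 P Z F i k a x y - qF P Zb F i a x * qF P Zb F k a y| =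
          al b * |mF2 P Z F i k b x y - qF P Zb F i b x * qF P Zb F k b y|
        unfold mF2 qF
        rw [hal a b hab, pvc P _ hab (x, y), pvc P (F i) (hZ i a b hab) x, pvc P (F k) (hZ k a b hab) y])
      (fun w x y => mul_nonneg (h0 w) (abs_nonneg _)) (hpair i k hik) heps
    refine le_trans (le_of_eq (P.E_congr fun w _ => ?_)) h2
    rw [hTSe w]
    congr 1
    unfold PAF
    rw [Finset.mul_sum]
    refine Finset.sum_congr rfl fun x _ => ?_
    rw [Finset.mul_sum]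
    exact Finset.sum_congr rfl fun y _ => (mul_assoc _ _ _).symm
  have B2 : P.E (fun w => ind (¬ TS w) * (al w * HBF P F Y (Z := Z) (Zb := Zb) B H w)) ≤
      B ^ 2 * eps * (gn P (Zb 0) (F 0) (Y 0) + gn P (Zb 1) (F 1) (Y 1)) := by
    have h2 := pair_gen P F Y hZ (eps := eps) hB 0 1
      (fun w x y => al w * (ind (H w x y) * mF2 P Z F 0 1 w x y))
      (fun x y a b hab => by
        have g := hHf x y a b hab
        simp only at g
        show al a * (ind (H a x y) * mF2 P Z F 0 1 a x y) = al b * (ind (H b x y) * mF2 P Z F 0 1 b x y)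
        unfold mF2
        rw [hal a b hab, g, pvc P _ hab (x, y)])
      (fun w x y => mul_nonneg (h0 w) (mul_nonneg (ind_nonneg _) (P.pv_nonneg _ _ _ _))) htrip heps
    refine le_trans (le_of_eq (P.E_congr fun w _ => ?_)) h2
    rw [hTSe w]
    congr 1
    unfold HBF
    rw [Finset.mul_sum]
    refine Finset.sum_congr rfl fun x _ => ?_
    rw [Finset.mul_sum]
    exact Finset.sum_congr rfl fun y _ => (mul_assoc _ _ _).symm
  have B3 : P.E (fun w => ind (TS w)) ≤ ∑ i, Dt P (Zb i) Z (Y i) := by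
    have h2 : P.E (fun w => ind (TS w)) ≤ P.E (fun w => ∑ i, ind (B < tF P Z Zb Y i w)) := by
      refine P.E_mono fun w _ => ?_
      by_cases hT : TS w
      · obtain ⟨i, hi⟩ := hT
        rw [ind_of (show TS w from ⟨i, hi⟩), ← ind_of hi]
        exact Finset.single_le_sum (f := fun i => ind (B < tF P Z Zb Y i w)) (fun j _ => ind_nonneg _) (mem_univ i)
      · rw [ind_not hT]
        exact Finset.sum_nonneg fun j _ => ind_nonneg _
    rw [P.E_sum] at h2
    exact h2.trans (Finset.sum_le_sum fun i _ => thin_strong P (Zb i) Z (Y i) (hZ i) hB)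
  have B4 : ∀ i k : Fin 3, P.E (fun w => m i w * m k w) ≤ B * (gn P (Zb i) (F i) (Y i) + gn P (Zb k) (F k) (Y k)) :=
    fun i k => E_mx_mul P F Y (Zb := Zb) hB i k
  have B5 : ∀ i, P.E (fun w => al w * (ind (¬ B < tau P (Zb i) Z (Y i) w (Y i w)) *
      phi1 P (Zb i) Z (F i) (Y i) B w (Y i w))) ≤ Gd P (Zb i) Z (F i) (Y i) al +
        B * Real.sqrt (8 * (Gd P (Zb i) Z (F i) (Y i) al * Dt P (Zb i) Z (Y i))) := fun i =>
    (le_abs_self _).trans (first_le P (Zb i) Z (F i) (Y i) (hZ i) hB hal h0 h1)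
  have B6 := E_ST P F Y hZ hB hd hc10 hc20 hal h0 h1
  -- the weak part in the mean
  have C1 : P.E (fun w => al w * (ind (¬ Rth w) * WKF P F Y (Z := Z) (Zb := Zb) B w)) ≤
      ∑ i, (Gd P (Zb i) Z (F i) (Y i) al + B * Real.sqrt (8 * (Gd P (Zb i) Z (F i) (Y i) al * Dt P (Zb i) Z (Y i)))) +
      6 * B * P.Pr Rth + (6 * B + 3 * B ^ 2 + B ^ 3) * dh * ∑ i, Dt P (Zb i) Z (Y i) +
      ((2 + B * dd) * (B ^ 2 * eps * (gn P (Zb 0) (F 0) (Y 0) + gn P (Zb 1) (F 1) (Y 1))) +
        B ^ 2 * eps * (gn P (Zb 0) (F 0) (Y 0) + gn P (Zb 2) (F 2) (Y 2)) +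
        B ^ 2 * eps * (gn P (Zb 1) (F 1) (Y 1) + gn P (Zb 2) (F 2) (Y 2))) +
      2 * B * (B ^ 2 * eps * (gn P (Zb 0) (F 0) (Y 0) + gn P (Zb 1) (F 1) (Y 1))) +
      B * dd * (B * (gn P (Zb 0) (F 0) (Y 0) + gn P (Zb 1) (F 1) (Y 1))) +
      d * ((1 + B) * (B * (gn P (Zb 0) (F 0) (Y 0) + gn P (Zb 1) (F 1) (Y 1))) +
        B * (gn P (Zb 0) (F 0) (Y 0) + gn P (Zb 2) (F 2) (Y 2)) +
        B * (gn P (Zb 1) (F 1) (Y 1) + gn P (Zb 2) (F 2) (Y 2))) := by
    refine (P.E_mono A2).trans ?_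
    have hE : ∀ f g : Om → ℝ, P.E (fun w => f w + g w) = P.E f + P.E g := P.E_add
    have hPr : P.E (fun w => ind (Rth w)) = P.Pr Rth := rfl
    simp only [P.E_add, P.E_smul, P.E_sum]
    rw [hPr]
    have g1 := Finset.sum_le_sum fun i (_ : i ∈ (univ : Finset (Fin 3))) => B5 i
    have n3 : 0 ≤ (6 * B + 3 * B ^ 2 + B ^ 3) * dh := by positivity
    have g2 := mul_le_mul_of_nonneg_left B3 n3
    have g3 := mul_le_mul_of_nonneg_left (B1 0 1 (by decide)) (show 0 ≤ 2 + B * dd by positivity)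
    have g4 := B1 0 2 (by decide)
    have g5 := B1 1 2 (by decide)
    have g6 := mul_le_mul_of_nonneg_left B2 (show 0 ≤ 2 * B by positivity)
    have g7 := mul_le_mul_of_nonneg_left (B4 0 1) (show 0 ≤ B * dd by positivity)
    have g8 := mul_le_mul_of_nonneg_left (add_le_add (add_le_add (mul_le_mul_of_nonneg_left (B4 0 1)
      (show 0 ≤ 1 + B by positivity)) (B4 0 2)) (B4 1 2)) hd
    linarith
  have g0 := gn_nn P (Zb 0) (F 0) (Y 0)
  have g1 := gn_nn P (Zb 1) (F 1) (Y 1)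
  have g2 := gn_nn P (Zb 2) (F 2) (Y 2)
  have C2 := (P.E_mono A1)
  simp only [P.E_add] at C2
  refine C2.trans ?_
  set S : ℝ := ∑ i, gn P (Zb i) (F i) (Y i) with hS
  have hS3 : S = gn P (Zb 0) (F 0) (Y 0) + gn P (Zb 1) (F 1) (Y 1) + gn P (Zb 2) (F 2) (Y 2) := Fin.sum_univ_three _
  have p01 : gn P (Zb 0) (F 0) (Y 0) + gn P (Zb 1) (F 1) (Y 1) ≤ S := by linarith
  have p02 : gn P (Zb 0) (F 0) (Y 0) + gn P (Zb 2) (F 2) (Y 2) ≤ S := by linarith
  have p12 : gn P (Zb 1) (F 1) (Y 1) + gn P (Zb 2) (F 2) (Y 2) ≤ S := by linarith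
  have D1 : (2 + B * dd) * (B ^ 2 * eps * (gn P (Zb 0) (F 0) (Y 0) + gn P (Zb 1) (F 1) (Y 1))) +
        B ^ 2 * eps * (gn P (Zb 0) (F 0) (Y 0) + gn P (Zb 2) (F 2) (Y 2)) +
        B ^ 2 * eps * (gn P (Zb 1) (F 1) (Y 1) + gn P (Zb 2) (F 2) (Y 2)) +
      2 * B * (B ^ 2 * eps * (gn P (Zb 0) (F 0) (Y 0) + gn P (Zb 1) (F 1) (Y 1))) +
      B * dd * (B * (gn P (Zb 0) (F 0) (Y 0) + gn P (Zb 1) (F 1) (Y 1))) +
      d * ((1 + B) * (B * (gn P (Zb 0) (F 0) (Y 0) + gn P (Zb 1) (F 1) (Y 1))) +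
        B * (gn P (Zb 0) (F 0) (Y 0) + gn P (Zb 2) (F 2) (Y 2)) +
        B * (gn P (Zb 1) (F 1) (Y 1) + gn P (Zb 2) (F 2) (Y 2))) ≤
      ((4 + 2 * B + B * dd) * (B ^ 2 * eps) + B ^ 2 * dd + d * (B ^ 2 + 3 * B)) * S := by
    have r1 := mul_le_mul_of_nonneg_left p01 (show 0 ≤ (2 + B * dd) * (B ^ 2 * eps) + 2 * B * (B ^ 2 * eps) + B * dd * B +
      d * ((1 + B) * B) by positivity)
    have r2 := mul_le_mul_of_nonneg_left p02 (show 0 ≤ B ^ 2 * eps + d * B by positivity)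
    have r3 := mul_le_mul_of_nonneg_left p12 (show 0 ≤ B ^ 2 * eps + d * B by positivity)
    nlinarith
  have D2 : ∑ i, ((c1 + c2 * d) * gn P (Zb i) (F i) (Y i) + c2 * (B * Gd P (Zb i) Z (F i) (Y i) al)) =
      (c1 + c2 * d) * S + c2 * B * ∑ i, Gd P (Zb i) Z (F i) (Y i) al := by
    rw [Finset.sum_add_distrib, ← Finset.mul_sum, ← Finset.mul_sum, ← Finset.mul_sum, mul_assoc c2 B]
  have D3 : ∑ i, (Gd P (Zb i) Z (F i) (Y i) al + B * Real.sqrt (8 * (Gd P (Zb i) Z (F i) (Y i) al *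
      Dt P (Zb i) Z (Y i)))) = ∑ i, Gd P (Zb i) Z (F i) (Y i) al +
      B * ∑ i, Real.sqrt (8 * (Gd P (Zb i) Z (F i) (Y i) al * Dt P (Zb i) Z (Y i))) := by
    rw [Finset.sum_add_distrib, ← Finset.mul_sum]
  rw [D2] at B6
  rw [D3] at C1
  linarith

end key

end

end Pool.Agent.GMH
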