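import Pool.Agent.GMH.LemS
import Pool.Agent.GMH.Pin

/-!
# GMH.RelS: Lemma S at a removal with released rows (note 3936 (3), helper33)

TABLES (`LTab`, GMH/LemS). `psi F = log (p F / ∏ q)`. Weights `pi F ∈ [0,1]` of the tuples (released).
* `lemS_rel` : for every `G ≥ 0` : `loss ≤ ∑ p' (psi - (1 - pi) log G) + ∑ (∏ q') (1 - pi) (G - 1)`;
* `lemS_mix` : `pi` constant, (a1): the convex combination of the signed sum and of the standard bound;
* `G0 eta Reg` : `p / ∏ q` outside of `Reg`, at most `eta` on `Reg`; `lemS_reg` : the bound with it: released pairs are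
  counted SIGNED, the others with `psi⁺ + log (1/eta)` on `Reg`;
* `row i0 x` : the mean of `G` over the tuples with the letter `x` at `i0`; `sum_row`, `row_split` : (a2): for `pi` depending
  on the letter at `i0` the price is `∑_(x not in T) q' x pi x`, `T` any set of letters (strong letters), on which only the
  positive part of `row - 1` is counted; `row_le` : `row ≤ (1 + ea)^(|I| - 1) (marginal / q) + eta`.
PROBABILITY SPACES. `rel_price` : replacing `xi` by its conditional mean given `W` costs `Lam (2 I (xi; Y | W))^(1/2)`;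
* `rpi` : the conditional mean as a function of the tuple; `lemS_fp_rel` : all together.
-/

set_option autoImplicit false
set_option linter.unusedSectionVars false
set_option linter.unusedVariables false

namespace Pool.Agent.GMH

open Finset Pool.Agent.PWZ Pool.Agent.M3 Pool.Agent.GM

noncomputable section

/-- Bernoulli -/
theorem rpow_le_lin {x s : ℝ} (hx : 0 ≤ x) (h0 : 0 ≤ s) (h1 : s ≤ 1) : x ^ s ≤ 1 + s * (x - 1) := by
  have h := rpow_one_add_le_one_add_mul_self (s := x - 1) (p := s) (by linarith) h0 h1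
  rw [show (1 : ℝ) + (x - 1) = x by ring] at h
  exact h

section Tab

variable {I φ : Type*} [Fintype I] [DecidableEq I] {S : I → Finset φ}

namespace LTab

variable (t : LTab S)

/-- log of the density of the tuple with respect to the experts -/
def psi (F : I → φ) : ℝ := Real.log (t.p F / ∏ i, t.q i (F i))

/-- LEMMA S WITH RELEASE -/
theorem lemS_rel (G : (I → φ) → ℝ) (hG : ∀ F ∈ Fintype.piFinset S, 0 ≤ G F)
    (hGp : ∀ F ∈ Fintype.piFinset S, t.p' F ≠ 0 → 0 < G F) (pi : (I → φ) → ℝ) (h0 : ∀ F, 0 ≤ pi F) (h1 : ∀ F, pi F ≤ 1) :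
    t.loss ≤ ∑ F ∈ Fintype.piFinset S, t.p' F * (t.psi F - (1 - pi F) * Real.log (G F)) +
      ∑ F ∈ Fintype.piFinset S, (∏ i, t.q' i (F i)) * ((1 - pi F) * (G F - 1)) := by
  have key := t.lemS (fun F => G F ^ (1 - pi F)) (fun F hF => Real.rpow_nonneg (hG F hF) _)
    (fun F hF hp => Real.rpow_pos_of_pos (hGp F hF hp) _)
  refine key.trans (add_le_add (le_of_eq ?_) ?_)
  · refine Finset.sum_congr rfl fun F hF => ?_
    by_cases hp : t.p' F = 0
    · rw [hp, zero_mul, zero_mul]
    · congr 1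
      have p1 := t.p_pos hF hp
      have p3 := hGp F hF hp
      have p4 : 0 < ∏ i, t.q i (F i) := Finset.prod_pos fun i _ => t.q_pos hF hp i
      unfold psi
      rw [← div_div, Real.log_div (div_pos p1 p4).ne' (Real.rpow_pos_of_pos p3 _).ne', Real.log_rpow p3]
  · have e0 : ∑ F ∈ Fintype.piFinset S, (∏ i, t.q' i (F i)) * G F ^ (1 - pi F) - 1 =
        ∑ F ∈ Fintype.piFinset S, ((∏ i, t.q' i (F i)) * G F ^ (1 - pi F) - ∏ i, t.q' i (F i)) := by
      rw [Finset.sum_sub_distrib, t.prod_q'_one]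
    rw [e0]
    refine Finset.sum_le_sum fun F hF => ?_
    have hq : 0 ≤ ∏ i, t.q' i (F i) := Finset.prod_nonneg fun i _ => t.q'_nn i _ (Fintype.mem_piFinset.1 hF i)
    have h2 := rpow_le_lin (hG F hF) (show 0 ≤ 1 - pi F by linarith [h1 F]) (by linarith [h0 F])
    have h3 := mul_le_mul_of_nonneg_left h2 hq
    linarith

/-- (a1): a constant weight -/
theorem lemS_mix (G : (I → φ) → ℝ) (hG : ∀ F ∈ Fintype.piFinset S, 0 ≤ G F)
    (hGp : ∀ F ∈ Fintype.piFinset S, t.p' F ≠ 0 → 0 < G F) {c : ℝ} (h0 : 0 ≤ c) (h1 : c ≤ 1) :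
    t.loss ≤ c * ∑ F ∈ Fintype.piFinset S, t.p' F * t.psi F +
      (1 - c) * (∑ F ∈ Fintype.piFinset S, t.p' F * Real.log (t.p F / ((∏ i, t.q i (F i)) * G F)) +
        (∑ F ∈ Fintype.piFinset S, (∏ i, t.q' i (F i)) * G F - 1)) := by
  have k1 := t.lemS (fun _ => 1) (fun _ _ => zero_le_one) (fun _ _ _ => zero_lt_one)
  simp only [mul_one] at k1
  rw [t.prod_q'_one, sub_self, add_zero] at k1
  have k2 := t.lemS G hG hGp
  have k3 : t.loss = c * t.loss + (1 - c) * t.loss := by ring
  rw [k3]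
  exact add_le_add (mul_le_mul_of_nonneg_left k1 h0) (mul_le_mul_of_nonneg_left k2 (by linarith))

open Classical in
/-- the density outside of `Reg`, cut down to `eta` on `Reg` -/
def G0 (eta : ℝ) (Reg : (I → φ) → Prop) (F : I → φ) : ℝ :=
  (t.p F / ∏ i, t.q i (F i)) * (if Reg F then Real.exp (-(max (t.psi F) 0 + Real.log (1 / eta))) else 1)

variable {eta : ℝ} {Reg : (I → φ) → Prop}

theorem dn_nn {F : I → φ} (hF : F ∈ Fintype.piFinset S) : 0 ≤ t.p F / ∏ i, t.q i (F i) :=
  div_nonneg (t.p_nn F hF) (Finset.prod_nonneg fun i _ => t.q_nn i _ (Fintype.mem_piFinset.1 hF i))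

theorem dn_pos {F : I → φ} (hF : F ∈ Fintype.piFinset S) (hp : t.p' F ≠ 0) : 0 < t.p F / ∏ i, t.q i (F i) :=
  div_pos (t.p_pos hF hp) (Finset.prod_pos fun i _ => t.q_pos hF hp i)

theorem G0_nn (eta : ℝ) (Reg : (I → φ) → Prop) {F : I → φ} (hF : F ∈ Fintype.piFinset S) : 0 ≤ t.G0 eta Reg F := by
  unfold G0
  refine mul_nonneg (t.dn_nn hF) ?_
  split_ifs
  · exact (Real.exp_pos _).le
  · exact zero_le_one

theorem G0_pos (eta : ℝ) (Reg : (I → φ) → Prop) {F : I → φ} (hF : F ∈ Fintype.piFinset S) (hp : t.p' F ≠ 0) :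
    0 < t.G0 eta Reg F := by
  unfold G0
  refine mul_pos (t.dn_pos hF hp) ?_
  split_ifs
  · exact Real.exp_pos _
  · exact zero_lt_one

theorem G0_off {F : I → φ} (h : ¬ Reg F) : t.G0 eta Reg F = t.p F / ∏ i, t.q i (F i) := by
  unfold G0
  rw [if_neg h, mul_one]

theorem G0_on {F : I → φ} (heta : 0 < eta) (hF : F ∈ Fintype.piFinset S) (h : Reg F) : t.G0 eta Reg F ≤ eta := by
  unfold G0
  rw [if_pos h]
  rcases (t.dn_nn hF).eq_or_lt with h0 | h0
  · rw [← h0, zero_mul]; exact heta.le
  · have e1 : t.p F / ∏ i, t.q i (F i) = Real.exp (t.psi F) := by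
      unfold psi
      rw [Real.exp_log h0]
    rw [e1, ← Real.exp_add]
    have e2 : eta = Real.exp (Real.log eta) := (Real.exp_log heta).symm
    conv_rhs => rw [e2]
    refine Real.exp_le_exp.2 ?_
    rw [one_div, Real.log_inv]
    have := le_max_left (t.psi F) 0
    linarith

theorem log_G0 {F : I → φ} (hF : F ∈ Fintype.piFinset S) (hp : t.p' F ≠ 0) :
    Real.log (t.G0 eta Reg F) = t.psi F - ind (Reg F) * (max (t.psi F) 0 + Real.log (1 / eta)) := by
  unfold G0
  by_cases h : Reg F
  · rw [if_pos h, ind_of h, one_mul, Real.log_mul (t.dn_pos hF hp).ne' (Real.exp_pos _).ne', Real.log_exp]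
    unfold psi
    ring
  · rw [if_neg h, ind_not h, zero_mul, mul_one, sub_zero]
    rfl

/-- LEMMA S: released tuples signed, the others on `Reg` only -/
theorem lemS_reg (eta : ℝ) (Reg : (I → φ) → Prop) (pi : (I → φ) → ℝ) (h0 : ∀ F, 0 ≤ pi F) (h1 : ∀ F, pi F ≤ 1) :
    t.loss ≤ ∑ F ∈ Fintype.piFinset S, t.p' F * (pi F * t.psi F +
        (1 - pi F) * (ind (Reg F) * (max (t.psi F) 0 + Real.log (1 / eta)))) +
      ∑ F ∈ Fintype.piFinset S, (∏ i, t.q' i (F i)) * ((1 - pi F) * (t.G0 eta Reg F - 1)) := by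
  refine (t.lemS_rel (t.G0 eta Reg) (fun F hF => t.G0_nn eta Reg hF) (fun F hF hp => t.G0_pos eta Reg hF hp) pi h0
    h1).trans (add_le_add (le_of_eq ?_) le_rfl)
  refine Finset.sum_congr rfl fun F hF => ?_
  by_cases hp : t.p' F = 0
  · rw [hp, zero_mul, zero_mul]
  · rw [t.log_G0 hF hp]
    ring

open Classical in
/-- mean of `G` over the tuples with the letter `x` at `i0` -/
def row (G : (I → φ) → ℝ) (i0 : I) (x : φ) : ℝ :=
  ∑ F ∈ (Fintype.piFinset S).filter (fun F => F i0 = x), (∏ i ∈ univ.erase i0, t.q' i (F i)) * G F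

theorem row_nn {G : (I → φ) → ℝ} (hG : ∀ F ∈ Fintype.piFinset S, 0 ≤ G F) (i0 : I) (x : φ) : 0 ≤ t.row G i0 x := by
  classical
  unfold row
  refine Finset.sum_nonneg fun F hF => ?_
  have hF' := (Finset.mem_filter.1 hF).1
  exact mul_nonneg (Finset.prod_nonneg fun i _ => t.q'_nn i _ (Fintype.mem_piFinset.1 hF' i)) (hG F hF')

/-- the mass of the other letters is one -/
theorem row_one (i0 : I) {x : φ} (hx : x ∈ S i0) : t.row (fun _ => 1) i0 x = 1 := by
  classical
  have e1 : (Fintype.piFinset S).filter (fun F => F i0 = x) =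
      Fintype.piFinset (Function.update S i0 {x}) := by
    ext F
    simp only [Finset.mem_filter, Fintype.mem_piFinset]
    constructor
    · rintro ⟨h1, h2⟩ i
      by_cases hi : i = i0
      · subst hi; rw [Function.update_self, h2]; exact Finset.mem_singleton_self x
      · rw [Function.update_of_ne hi]; exact h1 i
    · intro h
      have h2 : F i0 = x := by
        have := h i0
        rw [Function.update_self] at this
        exact Finset.mem_singleton.1 this
      refine ⟨fun i => ?_, h2⟩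
      by_cases hi : i = i0
      · subst hi; rw [h2]; exact hx
      · have := h i
        rw [Function.update_of_ne hi] at this
        exact this
  unfold row
  rw [e1]
  have e2 : ∑ F ∈ Fintype.piFinset (Function.update S i0 {x}), (∏ i ∈ univ.erase i0, t.q' i (F i)) * 1 =
      ∑ F ∈ Fintype.piFinset (Function.update S i0 {x}), ∏ i, (if i = i0 then 1 else t.q' i (F i)) := by
    refine Finset.sum_congr rfl fun F _ => ?_
    rw [mul_one, ← Finset.mul_prod_erase univ _ (mem_univ i0), if_pos rfl, one_mul]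
    refine Finset.prod_congr rfl fun i hi => ?_
    rw [if_neg (Finset.ne_of_mem_erase hi)]
  rw [e2, ← Finset.prod_univ_sum (fun i => Function.update S i0 {x} i) (fun i y => if i = i0 then 1 else t.q' i y)]
  refine Finset.prod_eq_one fun i _ => ?_
  by_cases hi : i = i0
  · subst hi
    rw [Function.update_self, Finset.sum_singleton, if_pos rfl]
  · rw [Function.update_of_ne hi]
    simp only [if_neg hi]
    exact t.q'_one i

/-- sums over the tuples by the letter at `i0` -/
theorem sum_row (G : (I → φ) → ℝ) (i0 : I) (w : φ → ℝ) :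
    ∑ F ∈ Fintype.piFinset S, (∏ i, t.q' i (F i)) * (w (F i0) * (G F - 1)) =
      ∑ x ∈ S i0, t.q' i0 x * (w x * (t.row G i0 x - 1)) := by
  classical
  rw [← Finset.sum_fiberwise_of_maps_to (s := Fintype.piFinset S) (t := S i0) (g := fun F => F i0)
    (fun F hF => Fintype.mem_piFinset.1 hF i0)]
  refine Finset.sum_congr rfl fun x hx => ?_
  have h1 := t.row_one i0 hx
  have e : t.row G i0 x - 1 = t.row G i0 x - t.row (fun _ => 1) i0 x := by rw [h1]
  rw [e]
  unfold row
  rw [← Finset.sum_sub_distrib, Finset.mul_sum, Finset.mul_sum]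
  refine Finset.sum_congr rfl fun F hF => ?_
  have hFx := (Finset.mem_filter.1 hF).2
  rw [← Finset.mul_prod_erase univ _ (mem_univ i0), hFx]
  ring

/-- (a2): the weight depends on the letter at `i0`; `T` = any set of letters -/
theorem row_split {G : (I → φ) → ℝ} (hG : ∀ F ∈ Fintype.piFinset S, 0 ≤ G F) (i0 : I) (pi : φ → ℝ)
    (h0 : ∀ x, 0 ≤ pi x) (h1 : ∀ x, pi x ≤ 1) (T : φ → Prop) :
    ∑ F ∈ Fintype.piFinset S, (∏ i, t.q' i (F i)) * ((1 - pi (F i0)) * (G F - 1)) ≤
      ∑ x ∈ S i0, t.q' i0 x * (ind (¬ T x) * (t.row G i0 x - 1)) + ∑ x ∈ S i0, t.q' i0 x * (ind (¬ T x) * pi x) +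
        ∑ x ∈ S i0, t.q' i0 x * (ind (T x) * max (t.row G i0 x - 1) 0) := by
  rw [t.sum_row G i0 (fun x => 1 - pi x), ← Finset.sum_add_distrib, ← Finset.sum_add_distrib]
  refine Finset.sum_le_sum fun x hx => ?_
  rw [← mul_add, ← mul_add]
  refine mul_le_mul_of_nonneg_left ?_ (t.q'_nn i0 x hx)
  have h2 := h0 x
  have h3 := h1 x
  have h4 := t.row_nn hG i0 x
  by_cases hT : T x
  · rw [ind_not (not_not.2 hT), ind_of hT, zero_mul, zero_mul, one_mul, zero_add, zero_add]
    have h5 := le_max_left (t.row G i0 x - 1) 0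
    have h6 := le_max_right (t.row G i0 x - 1) 0
    nlinarith
  · rw [ind_of hT, ind_not hT, zero_mul, one_mul, one_mul, add_zero]
    nlinarith

/-- the row of a letter all whose active partners are in `Reg` -/
theorem row_le {i0 : I} {x : φ} (hx : x ∈ S i0) (heta : 0 < eta) {ea : ℝ} (hea : 0 ≤ ea)
    (h : ∀ F ∈ Fintype.piFinset S, F i0 = x → ¬ Reg F → ∀ i, i ≠ i0 → t.q' i (F i) ≤ (1 + ea) * t.q i (F i)) :
    t.row (t.G0 eta Reg) i0 x ≤
      (1 + ea) ^ (Fintype.card I - 1) * (pU t.p S {i0} (Function.const I x) / t.q i0 x) + eta := by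
  classical
  have h1 := t.row_one i0 hx
  have hq0 : 0 ≤ t.q i0 x := t.q_nn i0 x hx
  have e1 : pU t.p S {i0} (Function.const I x) = ∑ F ∈ (Fintype.piFinset S).filter (fun F => F i0 = x), t.p F := by
    unfold pU
    refine Finset.sum_congr ?_ fun _ _ => rfl
    refine Finset.filter_congr fun F _ => ?_
    simp only [Finset.mem_singleton, forall_eq, Function.const_apply]
  have e2 : (1 + ea) ^ (Fintype.card I - 1) * (pU t.p S {i0} (Function.const I x) / t.q i0 x) + eta =
      ∑ F ∈ (Fintype.piFinset S).filter (fun F => F i0 = x), ((1 + ea) ^ (Fintype.card I - 1) * (t.p F / t.q i0 x) +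
        eta * (∏ i ∈ univ.erase i0, t.q' i (F i))) := by
    rw [Finset.sum_add_distrib, ← Finset.mul_sum, ← Finset.mul_sum, ← Finset.sum_div, e1]
    congr 1
    have : t.row (fun _ => 1) i0 x = ∑ F ∈ (Fintype.piFinset S).filter (fun F => F i0 = x),
        ∏ i ∈ univ.erase i0, t.q' i (F i) := by
      unfold row
      simp only [mul_one]
    rw [← this, h1, mul_one]
  rw [e2]
  unfold row
  refine Finset.sum_le_sum fun F hF => ?_
  obtain ⟨hF', hFx⟩ := Finset.mem_filter.1 hF
  have hmem := Fintype.mem_piFinset.1 hF'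
  have g1 : 0 ≤ ∏ i ∈ univ.erase i0, t.q' i (F i) := Finset.prod_nonneg fun i _ => t.q'_nn i _ (hmem i)
  have g2 : 0 ≤ t.p F / t.q i0 x := div_nonneg (t.p_nn F hF') hq0
  by_cases hR : Reg F
  · have g3 := mul_le_mul_of_nonneg_left (t.G0_on heta hF' hR) g1
    have g4 : 0 ≤ (1 + ea) ^ (Fintype.card I - 1) * (t.p F / t.q i0 x) := by positivity
    linarith
  · rw [t.G0_off hR]
    have g3 : 0 ≤ eta * ∏ i ∈ univ.erase i0, t.q' i (F i) := mul_nonneg heta.le g1
    have g5 : ∏ i ∈ univ.erase i0, t.q' i (F i) ≤ ∏ i ∈ univ.erase i0, ((1 + ea) * t.q i (F i)) :=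
      Finset.prod_le_prod (fun i _ => t.q'_nn i _ (hmem i)) fun i hi => h F hF' hFx hR i (Finset.ne_of_mem_erase hi)
    rw [Finset.prod_mul_distrib, Finset.prod_const, Finset.card_erase_of_mem (mem_univ i0), Finset.card_univ] at g5
    have g6 := mul_le_mul_of_nonneg_right g5 (t.dn_nn hF')
    have g7 : (∏ i ∈ univ.erase i0, t.q i (F i)) * (t.p F / ∏ i, t.q i (F i)) ≤ t.p F / t.q i0 x := by
      rw [← Finset.mul_prod_erase univ (fun i => t.q i (F i)) (mem_univ i0), hFx]
      by_cases hz : ∏ i ∈ univ.erase i0, t.q i (F i) = 0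
      · rw [hz, zero_mul]; exact g2
      · rw [mul_comm (t.q i0 x), ← div_div, mul_div_assoc', mul_div_cancel₀ _ hz]
    have g8 : 0 ≤ (1 + ea) ^ (Fintype.card I - 1) := by positivity
    have g9 := mul_le_mul_of_nonneg_left g7 g8
    calc (∏ i ∈ univ.erase i0, t.q' i (F i)) * (t.p F / ∏ i, t.q i (F i))
        ≤ (1 + ea) ^ (Fintype.card I - 1) * (∏ i ∈ univ.erase i0, t.q i (F i)) * (t.p F / ∏ i, t.q i (F i)) := g6
      _ = (1 + ea) ^ (Fintype.card I - 1) * ((∏ i ∈ univ.erase i0, t.q i (F i)) * (t.p F / ∏ i, t.q i (F i))) := by ring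
      _ ≤ _ := by linarith

end LTab

end Tab

/-! ## probability spaces -/

section Price

variable {Om : Type*} [Fintype Om] (P : FP Om) {κ ι ν : Type*}

theorem E_sqrt_le {g : Om → ℝ} (hg : ∀ w, P.p w ≠ 0 → 0 ≤ g w) : P.E (fun w => Real.sqrt (g w)) ≤ Real.sqrt (P.E g) := by
  have h1 := P.sq_E_le (fun w => Real.sqrt (g w))
  have h2 : P.E (fun w => Real.sqrt (g w) ^ 2) = P.E g := P.E_congr fun w hw => Real.sq_sqrt (hg w hw)
  rw [h2] at h1
  exact Real.le_sqrt_of_sq_le h1

/-- **PRICE** : replacing `f` by its conditional mean given `W` in the mean with a function of `(Y, W)` -/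
theorem rel_price {X : Om → κ} {Y : Om → ι} {W : Om → ν} {f h : Om → ℝ} (hf : Fac (fun w => (X w, W w)) f)
    (hf1 : ∀ w, |f w| ≤ 1) (hh : Fac (fun w => (Y w, W w)) h) {Lam : ℝ} (hL0 : 0 ≤ Lam)
    (hL : ∀ w, P.p w ≠ 0 → |h w| ≤ Lam) :
    |P.E (fun w => P.ce W f w * h w) - P.E (fun w => f w * h w)| ≤ Lam * Real.sqrt (2 * P.I X Y W) := by
  have e1 : P.E (fun w => f w * h w) = P.E (fun w => P.ce (fun w => (Y w, W w)) f w * h w) := (P.E_ce_mul hh f).symm
  have e2 : P.I X Y W = P.I (fun w => (X w, W w)) Y W := by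
    refine le_antisymm (P.I_mono Y ?_) (P.I_mono Y ?_)
    · exact (Fac.fst _ _).trans (Fac.fst _ _)
    · exact Fac.refl _
  rw [e1, ← P.E_sub, e2, FP.I_eq_E_kl]
  have h3 : ∀ w, P.p w ≠ 0 → |P.ce W f w - P.ce (fun w => (Y w, W w)) f w| ≤
      Real.sqrt (2 * (P.cond (fun v => (Y v, W v) = (Y w, W w))).kl (P.cond (fun v => W v = W w)) (fun w => (X w, W w))) := by
    intro w hw
    rw [P.ce_eq_cond W f hw, P.ce_eq_cond (fun w => (Y w, W w)) f hw, abs_sub_comm]
    have hac : (P.cond (fun v => (Y v, W v) = (Y w, W w))).Ac (P.cond (fun v => W v = W w)) := by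
      intro u hu
      have h4 := (FP.cond_p_ne (P.m_pos (fun w => (Y w, W w)) hw).ne').1 hu
      refine (FP.cond_p_ne (P.m_pos W hw).ne').2 ⟨?_, h4.2⟩
      have h5 := h4.1
      simp only [Prod.mk.injEq] at h5
      exact h5.2
    have h6 := FP.pinsker_test hac hf hf1
    rw [one_mul] at h6
    exact h6
  have h4 : ∀ w, P.p w ≠ 0 →
      0 ≤ 2 * (P.cond (fun v => (Y v, W v) = (Y w, W w))).kl (P.cond (fun v => W v = W w)) (fun w => (X w, W w)) := by
    intro w hw
    have hac : (P.cond (fun v => (Y v, W v) = (Y w, W w))).Ac (P.cond (fun v => W v = W w)) := by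
      intro u hu
      have h4 := (FP.cond_p_ne (P.m_pos (fun w => (Y w, W w)) hw).ne').1 hu
      refine (FP.cond_p_ne (P.m_pos W hw).ne').2 ⟨?_, h4.2⟩
      have h5 := h4.1
      simp only [Prod.mk.injEq] at h5
      exact h5.2
    have := FP.kl_nonneg hac (fun w => (X w, W w))
    linarith
  refine (P.abs_E_le _).trans ?_
  have h5 : P.E (fun w => |P.ce W f w * h w - P.ce (fun w => (Y w, W w)) f w * h w|) ≤
      P.E (fun w => Lam * Real.sqrt (2 * (P.cond (fun v => (Y v, W v) = (Y w, W w))).kl (P.cond (fun v => W v = W w))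
        (fun w => (X w, W w)))) := by
    refine P.E_mono fun w hw => ?_
    rw [← sub_mul, abs_mul, mul_comm]
    exact mul_le_mul (hL w hw) (h3 w hw) (abs_nonneg _) hL0
  refine h5.trans ?_
  rw [P.E_smul]
  refine mul_le_mul_of_nonneg_left ?_ hL0
  refine (E_sqrt_le P h4).trans (le_of_eq ?_)
  rw [P.E_smul]

end Price

section FRel

variable {Om : Type*} [Fintype Om] (P : FP Om) {I φ α β ν κ ι : Type*} [Fintype I] [DecidableEq I]

/-- the conditional mean of `xi` given `N'` and the labels in `T`, as a function of the tuple -/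
def rpi (N' : Om → ι) (f : I → Om → φ) (T : Finset I) (xi : Om → ℝ) (w : Om) (F : I → φ) : ℝ :=
  P.E (fun u => ind (N' u = N' w ∧ ∀ i ∈ T, f i u = F i) * xi u) / P.Pr (fun u => N' u = N' w ∧ ∀ i ∈ T, f i u = F i)

/-- the labels in `T` -/
def res (f : I → Om → φ) (T : Finset I) (w : Om) : {i // i ∈ T} → φ := fun i => f i w

variable {N' : Om → ι} {f : I → Om → φ} {T : Finset I} {xi : Om → ℝ}

theorem rpi_nonneg (h0 : ∀ w, 0 ≤ xi w) (w : Om) (F : I → φ) : 0 ≤ rpi P N' f T xi w F :=
  div_nonneg (P.E_nonneg fun u _ => mul_nonneg (ind_nonneg _) (h0 u)) (P.Pr_nonneg _)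

theorem rpi_le_one (h1 : ∀ w, xi w ≤ 1) (w : Om) (F : I → φ) : rpi P N' f T xi w F ≤ 1 := by
  unfold rpi
  refine div_le_one_of_le₀ ?_ (P.Pr_nonneg _)
  exact P.E_mono fun u _ => mul_le_of_le_one_right (ind_nonneg _) (h1 u)

theorem rpi_fac (F : I → φ) : Fac N' (fun w => rpi P N' f T xi w F) := by
  intro a b hab
  unfold rpi
  simp only [hab]

theorem rpi_tup (w : Om) : rpi P N' f T xi w (tup f w) = P.ce (fun u => (N' u, res f T u)) xi w := by
  have h : ∀ u, (N' u = N' w ∧ ∀ i ∈ T, f i u = tup f w i) = ((N' u, res f T u) = (N' w, res f T w)) := by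
    intro u
    refine propext ?_
    rw [Prod.mk.injEq]
    refine and_congr_right fun _ => ?_
    constructor
    · intro h
      funext i
      exact h i i.2
    · intro h i hi
      exact congrFun h ⟨i, hi⟩
  unfold rpi FP.ce FP.m FP.Pr
  simp only [h]

theorem rpi_dep {w : Om} {F F' : I → φ} (h : ∀ i ∈ T, F i = F' i) : rpi P N' f T xi w F = rpi P N' f T xi w F' := by
  have e : ∀ u, (N' u = N' w ∧ ∀ i ∈ T, f i u = F i) = (N' u = N' w ∧ ∀ i ∈ T, f i u = F' i) := by
    intro u
    refine propext (and_congr_right fun _ => ?_)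
    exact forall₂_congr fun i hi => by rw [h i hi]
  unfold rpi
  simp only [e]

variable (v : Om → β) (f) (A : I → Om → α) (N : Om → ν)

/-- log of the density of the tuple with respect to the experts, before the addition -/
def psiF (w : Om) : ℝ := Real.log (P.pv N (tup f) w (tup f w) / ∏ i, P.pv (A i) (f i) w (f i w))

open Classical in
/-- the density, cut down on `Reg` -/
def G0F (eta : ℝ) (Reg : Om → (I → φ) → Prop) (w : Om) (F : I → φ) : ℝ :=
  (P.pv N (tup f) w F / ∏ i, P.pv (A i) (f i) w (F i)) *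
    (if Reg w F then Real.exp (-(max (Real.log (P.pv N (tup f) w F / ∏ i, P.pv (A i) (f i) w (F i))) 0 +
      Real.log (1 / eta))) else 1)

theorem psiF_fac (hNA : ∀ i, Fac N (A i)) : Fac (fun w => (tup f w, N w)) (psiF P f A N) := by
  intro a b hab
  simp only [Prod.mk.injEq] at hab
  obtain ⟨h1, h2⟩ := hab
  have g2 : ∀ i, P.pv (A i) (f i) a (f i a) = P.pv (A i) (f i) b (f i b) := fun i => by
    have : f i a = f i b := congrFun h1 i
    rw [this]
    exact P.pv_fac _ _ _ a b (hNA i a b h2)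
  have g4 : P.pv N (tup f) a (tup f a) = P.pv N (tup f) b (tup f b) := by
    rw [h1]
    exact P.pv_fac _ _ _ a b h2
  unfold psiF
  simp only [g2, g4]

/-- **LEMMA S WITH RELEASE on a probability space** : `xi` = released, `T` = the labels which the weight may see,
`Reg w F` = the region where the positive part is paid; the signed part is cut at `-K` -/
theorem lemS_fp_rel (hNA : ∀ i, Fac N (A i)) {eta : ℝ} (heta : 0 < eta) (heta1 : eta ≤ 1) (Reg : Om → (I → φ) → Prop)
    (hReg : ∀ F a b, (v a, N a) = (v b, N b) → (Reg a F ↔ Reg b F)) (T : Finset I) (xi : Om → ℝ)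
    (h0 : ∀ w, 0 ≤ xi w) (h1 : ∀ w, xi w ≤ 1) {K Lam : ℝ} (hK : 0 ≤ K) (hKL : K ≤ Lam)
    (hpsi : ∀ w, P.p w ≠ 0 → psiF P f A N w ≤ Lam) :
    ∑ i, P.I v (f i) (A i) - P.I v (tup f) N ≤
      P.E (fun w => xi w * max (psiF P f A N w) (-K) + (1 - xi w) *
        (ind (Reg w (tup f w)) * (max (psiF P f A N w) 0 + Real.log (1 / eta)))) +
      (Lam + Real.log (1 / eta)) * Real.sqrt (2 * P.I xi (tup f) (fun w => ((v w, N w), res f T w))) +
      P.E (fun w => ∑ F ∈ let_ f, (∏ i, P.pv (fun u => (v u, A i u)) (f i) w (F i)) *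
        ((1 - rpi P (fun u => (v u, N u)) f T xi w F) * (G0F P f A N eta Reg w F - 1))) := by
  classical
  set l : ℝ := Real.log (1 / eta) with hl
  have hl0 : 0 ≤ l := Real.log_nonneg (by rw [le_div_iff₀ heta, one_mul]; exact heta1)
  set N' : Om → β × ν := fun u => (v u, N u) with hN'
  set W : Om → (β × ν) × ({i // i ∈ T} → φ) := fun w => ((v w, N w), res f T w) with hW
  have hWf : Fac (fun w => (tup f w, N' w)) W := by
    intro a b hab
    simp only [Prod.mk.injEq] at hab
    simp only [hW, Prod.mk.injEq]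
    refine ⟨Prod.mk.injEq _ _ _ _ ▸ hab.2, ?_⟩
    funext i
    exact congrFun hab.1 i
  -- the table bound
  set u1 : Om → ℝ := fun w => max (psiF P f A N w) (-K) with hu1
  set u2 : Om → ℝ := fun w => ind (Reg w (tup f w)) * (max (psiF P f A N w) 0 + l) with hu2
  have k1 : P.E (lossF P v f A N) ≤ P.E (fun w => P.ce W xi w * u1 w + (1 - P.ce W xi w) * u2 w) +
      P.E (fun w => ∑ F ∈ let_ f, (∏ i, P.pv (fun u => (v u, A i u)) (f i) w (F i)) *
        ((1 - rpi P N' f T xi w F) * (G0F P f A N eta Reg w F - 1))) := by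
    have e1 : P.E (fun w => P.ce W xi w * psiF P f A N w + (1 - P.ce W xi w) * u2 w) =
        P.E (fun w => ∑ F ∈ let_ f, P.pv N' (tup f) w F *
          (rpi P N' f T xi w F * Real.log (P.pv N (tup f) w F / ∏ i, P.pv (A i) (f i) w (F i)) +
            (1 - rpi P N' f T xi w F) * (ind (Reg w F) *
              (max (Real.log (P.pv N (tup f) w F / ∏ i, P.pv (A i) (f i) w (F i))) 0 + l)))) := by
      rw [← P.E_ce N']
      refine P.E_congr (fun w _ => ?_)
      symm
      have e2 := sum_tup P (W := N') f (F := fun w F => rpi P N' f T xi w F *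
        Real.log (P.pv N (tup f) w F / ∏ i, P.pv (A i) (f i) w (F i)) + (1 - rpi P N' f T xi w F) * (ind (Reg w F) *
              (max (Real.log (P.pv N (tup f) w F / ∏ i, P.pv (A i) (f i) w (F i))) 0 + l))) (fun F => ?_) w
      · rw [e2]
        refine P.ce_congr (fun u _ => ?_) w
        rw [rpi_tup]
        rfl
      · intro a b hab
        have hab' := hab
        simp only [hN', Prod.mk.injEq] at hab'
        have g1 := rpi_fac P (N' := N') (f := f) (T := T) (xi := xi) F a b hab
        have g2 : ∀ i, P.pv (A i) (f i) a (F i) = P.pv (A i) (f i) b (F i) := fun i =>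
          P.pv_fac _ _ _ a b (hNA i a b hab'.2)
        have g4 : P.pv N (tup f) a F = P.pv N (tup f) b F := P.pv_fac _ _ _ a b hab'.2
        have g5 : ind (Reg a F) = ind (Reg b F) := by
          have : Reg a F = Reg b F := propext (hReg F a b hab)
          rw [this]
        simp only at g1
        simp only [g1, g2, g4, g5]
    have e3 : P.E (fun w => P.ce W xi w * psiF P f A N w + (1 - P.ce W xi w) * u2 w) ≤
        P.E (fun w => P.ce W xi w * u1 w + (1 - P.ce W xi w) * u2 w) := by
      refine P.E_mono fun w hw => ?_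
      have := mul_le_mul_of_nonneg_left (le_max_left (psiF P f A N w) (-K)) (P.ce_nonneg (X := W) (fun u _ => h0 u) w)
      linarith
    refine le_trans ?_ (add_le_add_left e3 _)
    rw [e1, ← P.E_add]
    refine P.E_mono (fun w hw => ?_)
    rw [lossF_eq P v f A N hNA hw]
    exact (tabP P v f A N hNA hw).lemS_reg eta (Reg w) (rpi P N' f T xi w) (rpi_nonneg P h0 w) (rpi_le_one P h1 w)
  -- the price
  have hfu : Fac (fun w => (tup f w, W w)) (fun w => u1 w - u2 w) := by
    intro a b hab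
    simp only [hW, Prod.mk.injEq] at hab
    obtain ⟨h2, ⟨h3, h4⟩, -⟩ := hab
    have g1 : psiF P f A N a = psiF P f A N b := psiF_fac P f A N hNA a b (by simp only [Prod.mk.injEq]; exact ⟨h2, h4⟩)
    have g2 : ind (Reg a (tup f a)) = ind (Reg b (tup f b)) := by
      have : Reg a (tup f a) = Reg b (tup f b) := by
        rw [h2]
        exact propext (hReg _ a b (by simp only [Prod.mk.injEq]; exact ⟨h3, h4⟩))
      rw [this]
    simp only [hu1, hu2, g1, g2]
  have hbd : ∀ w, P.p w ≠ 0 → |u1 w - u2 w| ≤ Lam + l := by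
    intro w hw
    have h2 := hpsi w hw
    simp only [hu1, hu2]
    rw [abs_le]
    by_cases hR : Reg w (tup f w)
    · rw [ind_of hR, one_mul]
      rcases le_total (psiF P f A N w) 0 with h3 | h3
      · rw [max_eq_right h3]
        have h4 := le_max_right (psiF P f A N w) (-K)
        have h5 : max (psiF P f A N w) (-K) ≤ 0 := max_le h3 (by linarith)
        constructor <;> linarith
      · rw [max_eq_left h3, max_eq_left (by linarith : -K ≤ psiF P f A N w)]
        constructor <;> linarith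
    · rw [ind_not hR, zero_mul, sub_zero]
      have h4 := le_max_right (psiF P f A N w) (-K)
      have h5 : max (psiF P f A N w) (-K) ≤ Lam := max_le h2 (by linarith)
      constructor <;> linarith
  have k2 := rel_price P (X := xi) (Y := tup f) (W := W) (f := xi) (h := fun w => u1 w - u2 w) (Fac.fst _ _)
    (fun w => by rw [abs_of_nonneg (h0 w)]; exact h1 w) hfu (by linarith : 0 ≤ Lam + l) hbd
  have k3 := (abs_le.1 k2).2
  have k4 : P.E (fun w => P.ce W xi w * u1 w + (1 - P.ce W xi w) * u2 w) =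
      P.E (fun w => xi w * u1 w + (1 - xi w) * u2 w) +
        (P.E (fun w => P.ce W xi w * (u1 w - u2 w)) - P.E (fun w => xi w * (u1 w - u2 w))) := by
    rw [← P.E_sub, ← P.E_add]
    refine P.E_congr fun w _ => ?_
    ring
  rw [← E_lossF P v f A N hNA]
  rw [k4] at k1
  linarith

end FRel

end

end Pool.Agent.GMH
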