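import Pool.Agent.GMH.Key3
import Pool.Agent.GMH.RelS

/-!
# GMH.Key3S: Lemma S for composite additions, alive weights, released tuples (helper78)

One law `P`; `Z` = all lower labels, `Zb i` = what the expert `i` sees, `F i` = its letter, `Y i` = its (composite) addition,
`V` = all additions. `al` = alive weight (function of `Z`), `pi w f` = released weight, `Reg` = cut region.
* `lossC w` = pointwise loss; `regT w` = `pi psi + (1 - pi) 1_Reg (psi⁺ + log (1/eta))` at the true tuple;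
* `lossC_rel` : `E al lossC ≤ E al regT + E al ∑_f ∏ q'_i (1 - pi) (G0 - 1)`;
* `dig_rel` : the same for a digit, in the form of the correction `corA` (normalisation of the expert mean).
-/

set_option autoImplicit false
set_option linter.unusedSectionVars false
set_option linter.unusedVariables false

namespace Pool.Agent.GMH

open Finset Pool.Agent.PWZ Pool.Agent.M3 Pool.Agent.GM

noncomputable section

section comp

variable {Om : Type*} [Fintype Om] (P : FP Om) {I α β γ φ ν : Type*} [Fintype I] [DecidableEq I]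
  (Z : Om → β) (Zb : I → Om → α) (F : I → Om → φ) (Y : I → Om → γ) (V : Om → ν)

/-- the table at the point, composite additions -/
def tabC (hZ : ∀ i, Fac Z (Zb i)) (hV : ∀ i, Fac (fun u => (V u, Z u)) (Y i)) {w : Om} (hw : P.p w ≠ 0) :
    LTab (fun i => vals (F i)) where
  p f := P.pv Z (tup F) w f
  p' f := P.pv (fun u => (V u, Z u)) (tup F) w f
  q i x := P.pv (Zb i) (F i) w x
  q' i x := P.pv (fun u => (Y i u, Zb i u)) (F i) w x
  p_nn F _ := P.pv_nonneg _ _ _ _
  p'_nn F _ := P.pv_nonneg _ _ _ _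
  q_nn i x _ := P.pv_nonneg _ _ _ _
  q'_nn i x _ := P.pv_nonneg _ _ _ _
  p'_one := by
    have h := sum_tup P (W := fun u => (V u, Z u)) F (F := fun _ _ => 1) (fun _ _ _ _ => rfl) w
    simp only [mul_one] at h
    rw [P.ce_const _ 1 hw] at h
    exact h
  q'_one i := P.pv_sum _ _ hw
  ac f _ h := P.pv_ac (Fac.snd _ _) (tup F) h
  acq i x _ h := P.pv_ac (Fac.snd _ _) (F i) h
  acp f _ i h := by
    have h1 : P.pv Z (F i) w (f i) = 0 := P.pv_ac (hZ i) (F i) h
    refine le_antisymm ?_ (P.pv_nonneg _ _ _ _)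
    rw [← h1]
    refine P.ce_mono (fun u _ => ?_) w
    by_cases h2 : tup F u = f
    · rw [ind_of h2, ind_of (show F i u = f i by rw [← h2]; rfl)]
    · rw [ind_not h2]; exact ind_nonneg _
  acp' f _ i h := by
    have h1 : P.pv (fun u => (V u, Z u)) (F i) w (f i) = 0 :=
      P.pv_ac (W := fun u => (V u, Z u)) (Z := fun u => (Y i u, Zb i u))
        (fun a b hab => by
          have e1 := hV i a b hab
          simp only [Prod.mk.injEq] at hab ⊢
          exact ⟨e1, hZ i a b hab.2⟩) (F i) h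
    refine le_antisymm ?_ (P.pv_nonneg _ _ _ _)
    rw [← h1]
    refine P.ce_mono (fun u _ => ?_) w
    by_cases h2 : tup F u = f
    · rw [ind_of h2, ind_of (show F i u = f i by rw [← h2]; rfl)]
    · rw [ind_not h2]; exact ind_nonneg _

/-- the pointwise loss -/
def lossC (w : Om) : ℝ :=
  ∑ i, Real.log (P.pv (fun u => (Y i u, Zb i u)) (F i) w (F i w) / P.pv (Zb i) (F i) w (F i w)) -
    Real.log (P.pv (fun u => (V u, Z u)) (tup F) w (tup F w) / P.pv Z (tup F) w (tup F w))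

/-- log density of a tuple before the addition -/
def psC (w : Om) (f : I → φ) : ℝ := Real.log (P.pv Z (tup F) w f / ∏ i, P.pv (Zb i) (F i) w (f i))

/-- the released part and the cut part of a tuple -/
def rgC (eta : ℝ) (Reg : Om → (I → φ) → Prop) (pi : Om → (I → φ) → ℝ) (w : Om) (f : I → φ) : ℝ :=
  pi w f * psC P Z Zb F w f + (1 - pi w f) * (ind (Reg w f) * (max (psC P Z Zb F w f) 0 + Real.log (1 / eta)))

open Classical in
/-- the cut density -/
def G0C (eta : ℝ) (Reg : Om → (I → φ) → Prop) (w : Om) (f : I → φ) : ℝ :=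
  (P.pv Z (tup F) w f / ∏ i, P.pv (Zb i) (F i) w (f i)) *
    (if Reg w f then Real.exp (-(max (psC P Z Zb F w f) 0 + Real.log (1 / eta))) else 1)

variable {Z Zb V Y}

/-- the mean at the true tuple -/
theorem E_tup {κ : Type*} {W : Om → κ} {al : Om → ℝ} (hal : Fac W al) {g : Om → (I → φ) → ℝ}
    (hg : ∀ f, Fac W (fun w => g w f)) :
    P.E (fun w => al w * g w (tup F w)) = P.E (fun w => al w * ∑ f ∈ let_ F, P.pv W (tup F) w f * g w f) := by
  have e : ∀ w, ∑ f ∈ let_ F, P.pv W (tup F) w f * g w f = P.ce W (fun u => g u (tup F u)) w := fun w =>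
    sum_tup P (W := W) F (F := g) hg w
  simp only [e]
  exact (P.E_mul_ce hal _).symm

theorem psC_fac (hZ : ∀ i, Fac Z (Zb i)) (f : I → φ) : Fac Z (fun w => psC P Z Zb F w f) := by
  intro a b hab
  have g2 : ∀ i, P.pv (Zb i) (F i) a (f i) = P.pv (Zb i) (F i) b (f i) := fun i =>
    P.pv_fac _ _ _ a b (hZ i a b hab)
  have g4 : P.pv Z (tup F) a f = P.pv Z (tup F) b f := P.pv_fac _ _ _ a b hab
  show psC P Z Zb F a f = psC P Z Zb F b f
  unfold psC
  simp only [g2, g4]

theorem rgC_fac {κ : Type*} {W : Om → κ} (hW : Fac W Z) (hZ : ∀ i, Fac Z (Zb i)) {eta : ℝ} {Reg : Om → (I → φ) → Prop}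
    {pi : Om → (I → φ) → ℝ} (hR : ∀ f, Fac W (fun w => Reg w f)) (hpi : ∀ f, Fac W (fun w => pi w f)) (f : I → φ) :
    Fac W (fun w => rgC P Z Zb F eta Reg pi w f) := by
  intro a b hab
  have g1 : psC P Z Zb F a f = psC P Z Zb F b f := psC_fac P F hZ f a b (hW a b hab)
  have g2 : Reg a f = Reg b f := hR f a b hab
  have g3 : pi a f = pi b f := hpi f a b hab
  show rgC P Z Zb F eta Reg pi a f = rgC P Z Zb F eta Reg pi b f
  unfold rgC
  rw [g1, g2, g3]

/-- **LEMMA S, composite additions, alive weight, released tuples** -/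
theorem lossC_rel (hZ : ∀ i, Fac Z (Zb i)) (hV : ∀ i, Fac (fun u => (V u, Z u)) (Y i)) {eta : ℝ} {al : Om → ℝ}
    (hal : Fac (fun u => (V u, Z u)) al) (h0 : ∀ w, 0 ≤ al w) {Reg : Om → (I → φ) → Prop} {pi : Om → (I → φ) → ℝ}
    (hR : ∀ f, Fac (fun u => (V u, Z u)) (fun w => Reg w f)) (hpi : ∀ f, Fac (fun u => (V u, Z u)) (fun w => pi w f))
    (p0 : ∀ w f, 0 ≤ pi w f) (p1 : ∀ w f, pi w f ≤ 1) :
    P.E (fun w => al w * lossC P Z Zb F Y V w) ≤ P.E (fun w => al w * rgC P Z Zb F eta Reg pi w (tup F w)) +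
      P.E (fun w => al w * ∑ f ∈ let_ F, (∏ i, P.pv (fun u => (Y i u, Zb i u)) (F i) w (f i)) *
        ((1 - pi w f) * (G0C P Z Zb F eta Reg w f - 1))) := by
  classical
  have e1 : P.E (fun w => al w * lossC P Z Zb F Y V w) = P.E (fun w => al w *
      ∑ f ∈ let_ F, P.pv (fun u => (V u, Z u)) (tup F) w f *
        (∑ i, Real.log (P.pv (fun u => (Y i u, Zb i u)) (F i) w (f i) / P.pv (Zb i) (F i) w (f i)) -
          Real.log (P.pv (fun u => (V u, Z u)) (tup F) w f / P.pv Z (tup F) w f))) := by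
    refine E_tup P F hal (g := fun w f => ∑ i, Real.log (P.pv (fun u => (Y i u, Zb i u)) (F i) w (f i) /
      P.pv (Zb i) (F i) w (f i)) - Real.log (P.pv (fun u => (V u, Z u)) (tup F) w f / P.pv Z (tup F) w f)) ?_
    intro f a b hab
    have hab' : V a = V b ∧ Z a = Z b := by simpa only [Prod.mk.injEq] using hab
    have g1 : ∀ i, P.pv (fun u => (Y i u, Zb i u)) (F i) a (f i) = P.pv (fun u => (Y i u, Zb i u)) (F i) b (f i) := fun i =>
      P.pv_fac _ _ _ a b (by simp only [Prod.mk.injEq]; exact ⟨hV i a b hab, hZ i a b hab'.2⟩)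
    have g2 : ∀ i, P.pv (Zb i) (F i) a (f i) = P.pv (Zb i) (F i) b (f i) := fun i =>
      P.pv_fac _ _ _ a b (hZ i a b hab'.2)
    have g3 : P.pv (fun u => (V u, Z u)) (tup F) a f = P.pv (fun u => (V u, Z u)) (tup F) b f :=
      P.pv_fac _ _ _ a b hab
    have g4 : P.pv Z (tup F) a f = P.pv Z (tup F) b f := P.pv_fac _ _ _ a b hab'.2
    simp only [g1, g2, g3, g4]
  have e2 : P.E (fun w => al w * rgC P Z Zb F eta Reg pi w (tup F w)) = P.E (fun w => al w *
      ∑ f ∈ let_ F, P.pv (fun u => (V u, Z u)) (tup F) w f * rgC P Z Zb F eta Reg pi w f) :=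
    E_tup P F hal (fun f => rgC_fac P F (W := fun u => (V u, Z u)) (Fac.snd _ _) hZ hR hpi f)
  rw [e1, e2, ← P.E_add]
  refine P.E_mono fun w hw => ?_
  rw [← mul_add]
  refine mul_le_mul_of_nonneg_left ?_ (h0 w)
  exact (tabC P Z Zb F Y V hZ hV hw).lemS_reg eta (Reg w) (pi w) (p0 w) (p1 w)

theorem G0C_nn {w : Om} (eta : ℝ) (Reg : Om → (I → φ) → Prop) (f : I → φ) : 0 ≤ G0C P Z Zb F eta Reg w f := by
  unfold G0C
  refine mul_nonneg (div_nonneg (P.pv_nonneg _ _ _ _) (Finset.prod_nonneg fun i _ => P.pv_nonneg _ _ _ _)) ?_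
  split_ifs
  · exact (Real.exp_pos _).le
  · exact zero_le_one

theorem G0C_off {w : Om} {eta : ℝ} {Reg : Om → (I → φ) → Prop} {f : I → φ} (h : ¬ Reg w f) :
    G0C P Z Zb F eta Reg w f = P.pv Z (tup F) w f / ∏ i, P.pv (Zb i) (F i) w (f i) := by
  unfold G0C
  rw [if_neg h, mul_one]

theorem G0C_on {w : Om} {eta : ℝ} (heta : 0 < eta) {Reg : Om → (I → φ) → Prop} {f : I → φ} (h : Reg w f) :
    G0C P Z Zb F eta Reg w f ≤ eta := by
  unfold G0C
  rw [if_pos h]
  have hn : 0 ≤ P.pv Z (tup F) w f / ∏ i, P.pv (Zb i) (F i) w (f i) :=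
    div_nonneg (P.pv_nonneg _ _ _ _) (Finset.prod_nonneg fun i _ => P.pv_nonneg _ _ _ _)
  rcases hn.eq_or_lt with h0 | h0
  · rw [← h0, zero_mul]; exact heta.le
  · have e1 : P.pv Z (tup F) w f / ∏ i, P.pv (Zb i) (F i) w (f i) = Real.exp (psC P Z Zb F w f) := by
      unfold psC
      rw [Real.exp_log h0]
    rw [e1, ← Real.exp_add]
    have e2 : eta = Real.exp (Real.log eta) := (Real.exp_log heta).symm
    conv_rhs => rw [e2]
    refine Real.exp_le_exp.2 ?_
    rw [one_div, Real.log_inv]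
    have := le_max_left (psC P Z Zb F w f) 0
    linarith

/-- one tuple: the exponent of the correction -/
theorem dens_exp_le {w : Om} {eta : ℝ} (Reg : Om → (I → φ) → Prop) {pi : Om → (I → φ) → ℝ} {f : I → φ}
    (p0 : 0 ≤ pi w f) (p1 : pi w f ≤ 1) :
    (P.pv Z (tup F) w f / ∏ i, P.pv (Zb i) (F i) w (f i)) * Real.exp (-rgC P Z Zb F eta Reg pi w f) ≤
      1 + (1 - pi w f) * (G0C P Z Zb F eta Reg w f - 1) := by
  have hn : 0 ≤ P.pv Z (tup F) w f / ∏ i, P.pv (Zb i) (F i) w (f i) :=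
    div_nonneg (P.pv_nonneg _ _ _ _) (Finset.prod_nonneg fun i _ => P.pv_nonneg _ _ _ _)
  rcases hn.eq_or_lt with h0 | h0
  · have h1 : G0C P Z Zb F eta Reg w f = 0 := by
      unfold G0C
      rw [← h0, zero_mul]
    rw [h1, ← h0, zero_mul]
    linarith
  · have e1 : P.pv Z (tup F) w f / ∏ i, P.pv (Zb i) (F i) w (f i) = Real.exp (psC P Z Zb F w f) := by
      unfold psC
      rw [Real.exp_log h0]
    have h2 := rpow_le_lin (G0C_nn P F eta Reg f (Z := Z) (Zb := Zb) (w := w)) (show 0 ≤ 1 - pi w f by linarith)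
      (by linarith)
    refine le_trans (le_of_eq ?_) h2
    have e2 : G0C P Z Zb F eta Reg w f = Real.exp (psC P Z Zb F w f - ind (Reg w f) * (max (psC P Z Zb F w f) 0 +
        Real.log (1 / eta))) := by
      unfold G0C
      rw [e1]
      by_cases hR : Reg w f
      · rw [if_pos hR, ind_of hR, one_mul, ← Real.exp_add]
        rfl
      · rw [if_neg hR, ind_not hR, zero_mul, mul_one, sub_zero]
    rw [e1, e2, ← Real.exp_mul, ← Real.exp_add]
    congr 1
    unfold rgC
    ring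

section dig

variable {D : Om → ℝ}

/-- law of a digit -/
theorem pv_dig {ι : Type*} {W : Om → ι} (hD : ∀ w, P.p w ≠ 0 → D w = 1 ∨ D w = -1) {s : ℝ} (hs : s = 1 ∨ s = -1) {w : Om}
    (hw : P.p w ≠ 0) : P.pv W D w s = (1 + s * P.ce W D w) / 2 := by
  have h1 : P.pv W D w s = P.ce W (fun u => 1 / 2 + s / 2 * D u) w := by
    refine P.ce_congr (fun u hu => ?_) w
    rcases hs with rfl | rfl <;> rcases hD u hu with h | h <;> rw [h]
    · rw [ind_of rfl]; norm_num
    · rw [ind_not (by norm_num)]; norm_num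
    · rw [ind_not (by norm_num)]; norm_num
    · rw [ind_of rfl]; norm_num
  rw [h1]
  have h2 : P.ce W (fun u => 1 / 2 + s / 2 * D u) w = P.ce W (fun _ => (1 : ℝ) / 2) w + P.ce W (fun u => s / 2 * D u) w :=
    P.ce_add _ _ _ w
  rw [h2, P.ce_const _ _ hw, P.ce_smul]
  ring

/-- ratio of a letter and of a digit -/
theorem rr_dig {κ ι : Type*} {W : Om → ι} {X : Om → κ} (hD : ∀ w, P.p w ≠ 0 → D w = 1 ∨ D w = -1) {s : ℝ}
    (hs : s = 1 ∨ s = -1) {w : Om} (hw : P.p w ≠ 0) :
    rr P W X D w s (X w) = (1 + s * P.ce (fun v => (X v, W v)) D w) / (1 + s * P.ce W D w) := by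
  have h1 : qy P W X D w s (X w) = P.pv (fun v => (X v, W v)) D w s * P.pv W X w (X w) := by
    have m1 := (P.m_pos W hw).ne'
    have m2 := (P.m_pos (fun v => (X v, W v)) hw).ne'
    have g1 : qy P W X D w s (X w) = P.E (fun u => ind (W u = W w) * ind ((D u, X u) = (s, X w))) / P.m W w := rfl
    have g2 : P.pv (fun v => (X v, W v)) D w s =
        P.E (fun u => ind ((X u, W u) = (X w, W w)) * ind (D u = s)) / P.m (fun v => (X v, W v)) w := rfl
    have g3 : P.pv W X w (X w) = P.m (fun v => (X v, W v)) w / P.m W w := P.pv_self W X w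
    have g4 : P.E (fun u => ind (W u = W w) * ind ((D u, X u) = (s, X w))) =
        P.E (fun u => ind ((X u, W u) = (X w, W w)) * ind (D u = s)) := by
      refine P.E_congr fun u _ => ?_
      rw [← ind_and, ← ind_and]
      congr 1
      simp only [Prod.mk.injEq]
      exact propext ⟨fun h => ⟨⟨h.2.2, h.1⟩, h.2.1⟩, fun h => ⟨h.1.2, h.2, h.1.1⟩⟩
    rw [g1, g2, g3, g4]
    field_simp
  have h2 : P.pv W X w (X w) ≠ 0 := by
    rw [P.pv_self W X w]
    exact div_ne_zero (P.m_pos (fun v => (X v, W v)) hw).ne' (P.m_pos W hw).ne'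
  unfold rr
  rw [h1, pv_dig P hD hs hw, pv_dig P hD hs hw, mul_div_mul_right _ _ h2]
  rw [div_div_div_cancel_right₀ (by norm_num : (2 : ℝ) ≠ 0)]

/-- **THE DIGIT** : the correction of the expert mean with released and cut tuples -/
theorem dig_rel (hZ : ∀ i, Fac Z (Zb i)) (hD : ∀ w, P.p w ≠ 0 → D w = 1 ∨ D w = -1) {eta : ℝ} {al : Om → ℝ}
    (hal : Fac Z al) (h0 : ∀ w, 0 ≤ al w) {Reg : ℝ → Om → (I → φ) → Prop} {pi : ℝ → Om → (I → φ) → ℝ}
    (hR : ∀ s f, Fac Z (fun w => Reg s w f)) (hpi : ∀ s f, Fac Z (fun w => pi s w f))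
    (p0 : ∀ s w f, 0 ≤ pi s w f) (p1 : ∀ s w f, pi s w f ≤ 1) :
    P.E (fun w => al w * ((1 + P.ce Z D w) * (∏ i, (1 + P.ce (fun v => (F i v, Zb i v)) D w) / (1 + P.ce (Zb i) D w)) / 2 *
        Real.exp (-rgC P Z Zb F eta (Reg 1) (pi 1) w (tup F w)) +
      (1 - P.ce Z D w) * (∏ i, (1 - P.ce (fun v => (F i v, Zb i v)) D w) / (1 - P.ce (Zb i) D w)) / 2 *
        Real.exp (-rgC P Z Zb F eta (Reg (-1)) (pi (-1)) w (tup F w)) - 1)) ≤
      P.E (fun w => al w * ∑ f ∈ let_ F, (∏ i, P.pv (fun u => (D u, Zb i u)) (F i) w (f i)) *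
        ((1 - pi (D w) w f) * (G0C P Z Zb F eta (Reg (D w)) w f - 1))) := by
  classical
  set T : ℝ → Om → (I → φ) → ℝ := fun s w f => P.pv Z D w s * ((∏ i, rr P (Zb i) (F i) D w s (f i)) *
    Real.exp (-rgC P Z Zb F eta (Reg s) (pi s) w f)) with hT
  have fT : ∀ s f, Fac Z (fun w => T s w f) := by
    intro s f a b hab
    have g1 : P.pv Z D a s = P.pv Z D b s := P.pv_fac _ _ _ a b hab
    have g2 : ∀ i, rr P (Zb i) (F i) D a s (f i) = rr P (Zb i) (F i) D b s (f i) := fun i =>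
      rrc P (F i) D (hZ i a b hab) s (f i)
    have g3 : rgC P Z Zb F eta (Reg s) (pi s) a f = rgC P Z Zb F eta (Reg s) (pi s) b f :=
      rgC_fac P F (W := Z) (Fac.refl Z) hZ (hR s) (hpi s) f a b hab
    show T s a f = T s b f
    simp only [hT, g1, g2, g3]
  -- the left side
  have e1 : P.E (fun w => al w * ((1 + P.ce Z D w) * (∏ i, (1 + P.ce (fun v => (F i v, Zb i v)) D w) /
        (1 + P.ce (Zb i) D w)) / 2 * Real.exp (-rgC P Z Zb F eta (Reg 1) (pi 1) w (tup F w)) +
      (1 - P.ce Z D w) * (∏ i, (1 - P.ce (fun v => (F i v, Zb i v)) D w) / (1 - P.ce (Zb i) D w)) / 2 *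
        Real.exp (-rgC P Z Zb F eta (Reg (-1)) (pi (-1)) w (tup F w)) - 1)) =
      P.E (fun w => al w * (T 1 w (tup F w) + T (-1) w (tup F w) - 1)) := by
    refine P.E_congr fun w hw => ?_
    have a1 : T 1 w (tup F w) = (1 + P.ce Z D w) * (∏ i, (1 + P.ce (fun v => (F i v, Zb i v)) D w) /
        (1 + P.ce (Zb i) D w)) / 2 * Real.exp (-rgC P Z Zb F eta (Reg 1) (pi 1) w (tup F w)) := by
      simp only [hT]
      rw [pv_dig P hD (Or.inl rfl) hw]
      have : ∀ i, rr P (Zb i) (F i) D w 1 (tup F w i) = (1 + P.ce (fun v => (F i v, Zb i v)) D w) /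
          (1 + P.ce (Zb i) D w) := fun i => by
        have := rr_dig P (W := Zb i) (X := F i) hD (Or.inl rfl : (1 : ℝ) = 1 ∨ (1 : ℝ) = -1) hw
        rw [one_mul, one_mul] at this
        exact this
      simp only [this]
      ring
    have a2 : T (-1) w (tup F w) = (1 - P.ce Z D w) * (∏ i, (1 - P.ce (fun v => (F i v, Zb i v)) D w) /
        (1 - P.ce (Zb i) D w)) / 2 * Real.exp (-rgC P Z Zb F eta (Reg (-1)) (pi (-1)) w (tup F w)) := by
      simp only [hT]
      rw [pv_dig P hD (Or.inr rfl) hw]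
      have : ∀ i, rr P (Zb i) (F i) D w (-1) (tup F w i) = (1 - P.ce (fun v => (F i v, Zb i v)) D w) /
          (1 - P.ce (Zb i) D w) := fun i => by
        have := rr_dig P (W := Zb i) (X := F i) hD (Or.inr rfl : (-1 : ℝ) = 1 ∨ (-1 : ℝ) = -1) hw
        rw [neg_one_mul, neg_one_mul, ← sub_eq_add_neg, ← sub_eq_add_neg] at this
        exact this
      simp only [this]
      ring
    rw [a1, a2]
  -- means over the tuples
  set Φ : ℝ → Om → ℝ := fun s w => ∑ f ∈ let_ F, P.pv Z (tup F) w f * ((∏ i, rr P (Zb i) (F i) D w s (f i)) *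
    Real.exp (-rgC P Z Zb F eta (Reg s) (pi s) w f)) with hΦ
  have fΦ : ∀ s, Fac Z (Φ s) := by
    intro s a b hab
    simp only [hΦ]
    refine Finset.sum_congr rfl fun f _ => ?_
    have g1 : P.pv Z (tup F) a f = P.pv Z (tup F) b f := P.pv_fac _ _ _ a b hab
    have g2 : ∀ i, rr P (Zb i) (F i) D a s (f i) = rr P (Zb i) (F i) D b s (f i) := fun i =>
      rrc P (F i) D (hZ i a b hab) s (f i)
    have g3 : rgC P Z Zb F eta (Reg s) (pi s) a f = rgC P Z Zb F eta (Reg s) (pi s) b f :=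
      rgC_fac P F (W := Z) (Fac.refl Z) hZ (hR s) (hpi s) f a b hab
    simp only [g1, g2, g3]
  have e2 : P.E (fun w => al w * (T 1 w (tup F w) + T (-1) w (tup F w))) =
      P.E (fun w => al w * Φ (D w) w) := by
    have h1 := E_tup P F hal (g := fun w f => T 1 w f + T (-1) w f) (fun f a b hab => by
      show T 1 a f + T (-1) a f = T 1 b f + T (-1) b f
      have g1 : T 1 a f = T 1 b f := fT 1 f a b hab
      have g2 : T (-1) a f = T (-1) b f := fT (-1) f a b hab
      rw [g1, g2])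
    rw [h1]
    have h2 : P.E (fun w => al w * Φ (D w) w) = P.E (fun w => al w * P.ce Z (fun u => Φ (D u) u) w) :=
      (P.E_mul_ce hal _).symm
    rw [h2]
    refine P.E_congr fun w hw => ?_
    congr 1
    have h3 : P.ce Z (fun u => Φ (D u) u) w = P.pv Z D w 1 * Φ 1 w + P.pv Z D w (-1) * Φ (-1) w := by
      have h4 : P.ce Z (fun u => Φ (D u) u) w =
          P.ce Z (fun u => ind (D u = 1) * Φ 1 u + ind (D u = -1) * Φ (-1) u) w := by
        refine P.ce_congr (fun u hu => ?_) w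
        rcases hD u hu with h | h <;> rw [h]
        · rw [ind_of rfl, ind_not (by norm_num), one_mul, zero_mul, add_zero]
        · rw [ind_of rfl, ind_not (by norm_num), one_mul, zero_mul, zero_add]
      rw [h4]
      have h5 : P.ce Z (fun u => ind (D u = 1) * Φ 1 u + ind (D u = -1) * Φ (-1) u) w =
          P.ce Z (fun u => ind (D u = 1) * Φ 1 u) w + P.ce Z (fun u => ind (D u = -1) * Φ (-1) u) w :=
        P.ce_add _ _ _ w
      rw [h5, P.ce_mul' (fΦ 1), P.ce_mul' (fΦ (-1))]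
      rfl
    rw [h3]
    simp only [hΦ, hT]
    rw [Finset.mul_sum, Finset.mul_sum, ← Finset.sum_add_distrib]
    exact Finset.sum_congr rfl fun f _ => by ring
  have e3 : P.E (fun w => al w * (T 1 w (tup F w) + T (-1) w (tup F w) - 1)) = P.E (fun w => al w * (Φ (D w) w - 1)) := by
    have h1 : P.E (fun w => al w * (T 1 w (tup F w) + T (-1) w (tup F w) - 1)) =
        P.E (fun w => al w * (T 1 w (tup F w) + T (-1) w (tup F w))) - P.E al := by
      rw [← P.E_sub]; exact P.E_congr fun w _ => by ring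
    have h2 : P.E (fun w => al w * (Φ (D w) w - 1)) = P.E (fun w => al w * Φ (D w) w) - P.E al := by
      rw [← P.E_sub]; exact P.E_congr fun w _ => by ring
    rw [h1, h2, e2]
  rw [e1, e3]
  refine P.E_mono fun w hw => mul_le_mul_of_nonneg_left ?_ (h0 w)
  have hone : ∑ f ∈ let_ F, ∏ i, P.pv (fun u => (D u, Zb i u)) (F i) w (f i) = 1 := by
    unfold let_
    rw [← Finset.prod_univ_sum (fun i => vals (F i)) (fun i x => P.pv (fun u => (D u, Zb i u)) (F i) w x)]
    exact Finset.prod_eq_one fun i _ => P.pv_sum _ _ hw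
  have e4 : Φ (D w) w - 1 = ∑ f ∈ let_ F, (P.pv Z (tup F) w f * ((∏ i, rr P (Zb i) (F i) D w (D w) (f i)) *
      Real.exp (-rgC P Z Zb F eta (Reg (D w)) (pi (D w)) w f)) - ∏ i, P.pv (fun u => (D u, Zb i u)) (F i) w (f i)) := by
    rw [Finset.sum_sub_distrib, hone]
  rw [e4]
  refine Finset.sum_le_sum fun f _ => ?_
  have h1 : ∏ i, rr P (Zb i) (F i) D w (D w) (f i) = (∏ i, P.pv (fun u => (D u, Zb i u)) (F i) w (f i)) /
      ∏ i, P.pv (Zb i) (F i) w (f i) := by
    rw [← Finset.prod_div_distrib]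
    exact Finset.prod_congr rfl fun i _ => (real_r P (Zb i) (F i) D hw (f i)).symm
  have h2 := dens_exp_le P F (Z := Z) (Zb := Zb) (w := w) (eta := eta) (Reg (D w)) (pi := pi (D w)) (f := f)
    (p0 (D w) w f) (p1 (D w) w f)
  have h3 : 0 ≤ ∏ i, P.pv (fun u => (D u, Zb i u)) (F i) w (f i) := Finset.prod_nonneg fun i _ => P.pv_nonneg _ _ _ _
  have h4 := mul_le_mul_of_nonneg_left h2 h3
  rw [h1]
  have h5 : P.pv Z (tup F) w f * ((∏ i, P.pv (fun u => (D u, Zb i u)) (F i) w (f i)) / (∏ i, P.pv (Zb i) (F i) w (f i)) *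
      Real.exp (-rgC P Z Zb F eta (Reg (D w)) (pi (D w)) w f)) =
      (∏ i, P.pv (fun u => (D u, Zb i u)) (F i) w (f i)) * (P.pv Z (tup F) w f / (∏ i, P.pv (Zb i) (F i) w (f i)) *
        Real.exp (-rgC P Z Zb F eta (Reg (D w)) (pi (D w)) w f)) := by ring
  rw [h5]
  linarith

end dig

end comp

end

end Pool.Agent.GMH
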