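import Pool.Agent.M3.HKey

/-!
# GMH.Key3T: KEY for the tops over the thin letters, tables (helper78)

`KT S` = one point of (thin letters, additions): law `p` of the tuple of the tops, laws `q i` of the single tops given
less, laws `q' i` after the additions, `r i x = q' i x / q i x`.  `G F` = the density `p / ∏ q` outside of `Reg`, at most
`eta` on `Reg`; weights `a F ∈ [0,1]` (not released).
* `KT.strong_le` : the tuples with at least one strong letter (`B < r`): rows `bd` are bad, `bx` = letters whose whole row is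
  in `Reg`; only the product mass of TWO strong letters with bad rows, one of them not released, remains;
* `KT.weak_le` : the tuples without strong letters.
-/

set_option autoImplicit false
set_option linter.unusedSectionVars false
set_option linter.unusedVariables false

namespace Pool.Agent.GMH

open Finset Pool.Agent.PWZ Pool.Agent.M3

noncomputable section

variable {I φ : Type*} [Fintype I] [DecidableEq I]

/-- one point: the tables -/
structure KT (S : I → Finset φ) where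
  p : (I → φ) → ℝ
  q : I → φ → ℝ
  q' : I → φ → ℝ
  p_nn : ∀ F ∈ Fintype.piFinset S, 0 ≤ p F
  q_nn : ∀ i, ∀ x ∈ S i, 0 ≤ q i x
  q'_nn : ∀ i, ∀ x ∈ S i, 0 ≤ q' i x
  p_one : ∑ F ∈ Fintype.piFinset S, p F = 1
  q_one : ∀ i, ∑ x ∈ S i, q i x = 1
  q'_one : ∀ i, ∑ x ∈ S i, q' i x = 1
  acq : ∀ i, ∀ x ∈ S i, q i x = 0 → q' i x = 0
  acp : ∀ F ∈ Fintype.piFinset S, ∀ i, q i (F i) = 0 → p F = 0

/-- sums of products -/
theorem sum_prod_at (S : I → Finset φ) (i : I) (A : φ → ℝ) (c : I → φ → ℝ) :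
    ∑ F ∈ Fintype.piFinset S, A (F i) * ∏ k ∈ univ.erase i, c k (F k) =
      (∑ x ∈ S i, A x) * ∏ k ∈ univ.erase i, ∑ y ∈ S k, c k y := by
  classical
  have h1 : ∀ F : I → φ, A (F i) * ∏ k ∈ univ.erase i, c k (F k) = ∏ k, (if k = i then A else c k) (F k) := by
    intro F
    rw [← Finset.mul_prod_erase univ (fun k => (if k = i then A else c k) (F k)) (mem_univ i), if_pos rfl]
    congr 1
    refine Finset.prod_congr rfl fun k hk => ?_
    rw [if_neg (Finset.ne_of_mem_erase hk)]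
  rw [Finset.sum_congr rfl fun F _ => h1 F, ← Finset.prod_univ_sum (fun k => S k) (fun k x => (if k = i then A else c k) x),
    ← Finset.mul_prod_erase univ _ (mem_univ i), if_pos rfl]
  congr 1
  refine Finset.prod_congr rfl fun k hk => ?_
  rw [if_neg (Finset.ne_of_mem_erase hk)]

namespace KT

variable {S : I → Finset φ} (t : KT S)

/-- the ratio -/
def r (i : I) (x : φ) : ℝ := t.q' i x / t.q i x

/-- the product law -/
def pq (F : I → φ) : ℝ := ∏ i, t.q i (F i)

open Classical in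
/-- marginal of one letter -/
def mg (i : I) (x : φ) : ℝ := ∑ F ∈ (Fintype.piFinset S).filter (fun F => F i = x), t.p F

theorem r_nn {i : I} {x : φ} (hx : x ∈ S i) : 0 ≤ t.r i x := div_nonneg (t.q'_nn i x hx) (t.q_nn i x hx)

theorem rq {i : I} {x : φ} (hx : x ∈ S i) : t.r i x * t.q i x = t.q' i x := by
  unfold r
  by_cases h : t.q i x = 0
  · rw [h, mul_zero, t.acq i x hx h]
  · field_simp

theorem mg_nn (i : I) (x : φ) : 0 ≤ t.mg i x := by
  classical
  exact Finset.sum_nonneg fun F hF => t.p_nn F (Finset.mem_filter.1 hF).1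

theorem sum_mg (i : I) (A : φ → ℝ) : ∑ F ∈ Fintype.piFinset S, t.p F * A (F i) = ∑ x ∈ S i, t.mg i x * A x := by
  classical
  rw [← Finset.sum_fiberwise_of_maps_to (s := Fintype.piFinset S) (t := S i) (g := fun F => F i)
    (fun F hF => Fintype.mem_piFinset.1 hF i)]
  refine Finset.sum_congr rfl fun x _ => ?_
  unfold mg
  rw [Finset.sum_mul]
  refine Finset.sum_congr rfl fun F hF => ?_
  rw [(Finset.mem_filter.1 hF).2]

theorem mg_one (i : I) : ∑ x ∈ S i, t.mg i x = 1 := by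
  have h := t.sum_mg i (fun _ => 1)
  simp only [mul_one] at h
  rw [← h, t.p_one]

theorem prod_rq {F : I → φ} (hF : F ∈ Fintype.piFinset S) : (∏ i, t.r i (F i)) * t.pq F = ∏ i, t.q' i (F i) := by
  unfold pq
  rw [← Finset.prod_mul_distrib]
  exact Finset.prod_congr rfl fun i _ => t.rq (Fintype.mem_piFinset.1 hF i)

theorem pq_nn {F : I → φ} (hF : F ∈ Fintype.piFinset S) : 0 ≤ t.pq F :=
  Finset.prod_nonneg fun i _ => t.q_nn i _ (Fintype.mem_piFinset.1 hF i)

theorem pq'_nn {F : I → φ} (hF : F ∈ Fintype.piFinset S) : 0 ≤ ∏ i, t.q' i (F i) :=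
  Finset.prod_nonneg fun i _ => t.q'_nn i _ (Fintype.mem_piFinset.1 hF i)

theorem pr_nn {F : I → φ} (hF : F ∈ Fintype.piFinset S) : 0 ≤ ∏ i, t.r i (F i) :=
  Finset.prod_nonneg fun i _ => t.r_nn (Fintype.mem_piFinset.1 hF i)

theorem p_zero {F : I → φ} (hF : F ∈ Fintype.piFinset S) (h : t.pq F = 0) : t.p F = 0 := by
  obtain ⟨i, _, h1⟩ := Finset.prod_eq_zero_iff.1 h
  exact t.acp F hF i h1

/-- the term of a tuple outside of `Reg` -/
theorem term_off {F : I → φ} (hF : F ∈ Fintype.piFinset S) {g : ℝ} (hg : g = t.p F / t.pq F) :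
    (∏ i, t.q' i (F i)) * (g - 1) = (∏ i, t.r i (F i)) * (t.p F - t.pq F) := by
  rw [hg, ← t.prod_rq hF]
  by_cases h : t.pq F = 0
  · rw [t.p_zero hF h, h]; ring
  · field_simp

theorem sum_pq (i : I) (A : φ → ℝ) : ∑ F ∈ Fintype.piFinset S, A (F i) * ∏ k, t.q' k (F k) = ∑ x ∈ S i, A x * t.q' i x := by
  have h := sum_prod_at S i (fun x => A x * t.q' i x) (fun k y => t.q' k y)
  have h1 : ∏ k ∈ univ.erase i, ∑ y ∈ S k, t.q' k y = 1 := Finset.prod_eq_one fun k _ => t.q'_one k
  rw [h1, mul_one] at h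
  rw [← h]
  refine Finset.sum_congr rfl fun F _ => ?_
  rw [← Finset.mul_prod_erase univ _ (mem_univ i)]
  ring

/-- strong letters with a bad row -/
def SB (B : ℝ) (bd : I → φ → Prop) (i : I) (x : φ) : Prop := B < t.r i x ∧ bd i x

/-- positive part of the difference of the marginals -/
def ke (i : I) (x : φ) : ℝ := max (t.mg i x - t.q i x) 0

/-- distance of the row from the product -/
def rowd (i : I) (F : I → φ) : ℝ := |t.p F - t.mg i (F i) * ∏ k ∈ univ.erase i, t.q k (F k)|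

theorem ke_nn (i : I) (x : φ) : 0 ≤ t.ke i x := le_max_right _ _

/-- the bad part of one row -/
def W (B : ℝ) (bd : I → φ → Prop) (bx : I → φ → Prop) (ai : I → φ → ℝ) (e1 eta : ℝ) (i : I) (F : I → φ) : ℝ :=
  ai i (F i) * ((1 + e1) ^ (Fintype.card I - 1) * (t.r i (F i) * t.p F) * ind (¬ bx i (F i)) -
    (∏ k, t.q' k (F k)) * (∏ k ∈ univ.erase i, ind (¬ t.SB B bd k (F k))) + eta * ∏ k, t.q' k (F k))

/-- the good part of one row -/
def Ug (B d : ℝ) (bx : I → φ → Prop) (i : I) (F : I → φ) : ℝ :=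
  ind (¬ bx i (F i)) * (t.r i (F i) * (∏ k ∈ univ.erase i, hwk B (t.r k (F k))) *
    (t.rowd i F + t.ke i (F i) * ∏ k ∈ univ.erase i, t.q k (F k))) + d * ∏ k, t.q' k (F k)

variable {B d dd eta e1 : ℝ} {bd bx : I → φ → Prop} {Reg : (I → φ) → Prop} {G a : (I → φ) → ℝ} {ai : I → φ → ℝ}

theorem Ug_nn (hB : 0 ≤ B) (hd : 0 ≤ d) {i : I} {F : I → φ} (hF : F ∈ Fintype.piFinset S) : 0 ≤ t.Ug B d bx i F := by
  have hm := Fintype.mem_piFinset.1 hF
  unfold Ug
  have h1 : 0 ≤ ∏ k ∈ univ.erase i, hwk B (t.r k (F k)) := Finset.prod_nonneg fun k _ => hwk_nonneg (t.r_nn (hm k))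
  have h2 : 0 ≤ ∏ k ∈ univ.erase i, t.q k (F k) := Finset.prod_nonneg fun k _ => t.q_nn k _ (hm k)
  have h3 := t.r_nn (hm i)
  have h4 := t.ke_nn i (F i)
  have h5 : 0 ≤ t.rowd i F := abs_nonneg _
  have h6 := t.pq'_nn hF
  have h7 := ind_nonneg (¬ bx i (F i))
  positivity

/-- the bound of one tuple -/
theorem point_le (hB : 1 ≤ B) (hd : 0 ≤ d) (heta : 0 ≤ eta) (heta1 : eta ≤ 1) (he1 : 0 ≤ e1) (heB : 1 + e1 ≤ B)
    (hG : ∀ F ∈ Fintype.piFinset S, ¬ Reg F → G F = t.p F / t.pq F) (hGR : ∀ F ∈ Fintype.piFinset S, Reg F → G F ≤ eta)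
    (ha0 : ∀ F, 0 ≤ a F) (ha1 : ∀ F, a F ≤ 1) (hai0 : ∀ i x, 0 ≤ ai i x)
    (hai : ∀ F ∈ Fintype.piFinset S, ∀ i, t.SB B bd i (F i) → (∀ k, k ≠ i → ¬ t.SB B bd k (F k)) → a F = ai i (F i))
    (Ra : ∀ F ∈ Fintype.piFinset S, ∀ i, t.SB B bd i (F i) → ∀ k, k ≠ i → 1 + e1 < t.r k (F k) → Reg F)
    (Rb : ∀ F ∈ Fintype.piFinset S, ∀ i, B < t.r i (F i) → bx i (F i) → Reg F)
    (Rc : ∀ F ∈ Fintype.piFinset S, ∀ i k, i ≠ k → B < t.r i (F i) → B < t.r k (F k) → (1 + d) * t.pq F < t.p F → Reg F)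
    {F : I → φ} (hF : F ∈ Fintype.piFinset S) (hs : ∃ i, B < t.r i (F i)) :
    (∏ i, t.q' i (F i)) * (a F * (G F - 1)) ≤
      ∑ i, (ind (t.SB B bd i (F i)) * t.W B bd bx ai e1 eta i F +
        ind (B < t.r i (F i) ∧ ¬ bd i (F i)) * t.Ug B d bx i F) := by
  classical
  have hm := Fintype.mem_piFinset.1 hF
  set Q : ℝ := ∏ i, t.q' i (F i) with hQ
  have hQ0 : 0 ≤ Q := t.pq'_nn hF
  set n : ℕ := Fintype.card I - 1 with hn
  have hp0 := t.p_nn F hF
  have hU : ∀ i, 0 ≤ ind (B < t.r i (F i) ∧ ¬ bd i (F i)) * t.Ug B d bx i F := fun i =>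
    mul_nonneg (ind_nonneg _) (t.Ug_nn (by linarith) hd hF)
  have hUs : 0 ≤ ∑ i, ind (B < t.r i (F i) ∧ ¬ bd i (F i)) * t.Ug B d bx i F := Finset.sum_nonneg fun i _ => hU i
  rw [Finset.sum_add_distrib]
  have hReg : Reg F → Q * (a F * (G F - 1)) ≤ -(1 - eta) * (a F * Q) := by
    intro h
    have h1 := hGR F hF h
    have h2 := mul_nonneg hQ0 (ha0 F)
    nlinarith
  have hReg0 : Reg F → Q * (a F * (G F - 1)) ≤ 0 := by
    intro h
    have h1 := hReg h
    have h2 := mul_nonneg (ha0 F) hQ0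
    nlinarith
  by_cases hm1 : ∃ i, t.SB B bd i (F i)
  · obtain ⟨i, hi⟩ := hm1
    by_cases hm2 : ∃ k, k ≠ i ∧ t.SB B bd k (F k)
    · -- at least two bad strong letters
      obtain ⟨k, hki, hk⟩ := hm2
      have hR : Reg F := Ra F hF i hi k hki (lt_of_le_of_lt heB hk.1)
      have h1 := hReg0 hR
      have h2 : 0 ≤ ∑ j, ind (t.SB B bd j (F j)) * t.W B bd bx ai e1 eta j F := by
        refine Finset.sum_nonneg fun j _ => ?_
        by_cases hj : t.SB B bd j (F j)
        · have hz : ∏ l ∈ univ.erase j, ind (¬ t.SB B bd l (F l)) = 0 := by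
            by_cases hji : j = i
            · refine Finset.prod_eq_zero (i := k) (Finset.mem_erase.2 ⟨by rw [hji]; exact hki, mem_univ k⟩) ?_
              exact ind_not (not_not.2 hk)
            · refine Finset.prod_eq_zero (i := i) (Finset.mem_erase.2 ⟨fun h => hji h.symm, mem_univ i⟩) ?_
              exact ind_not (not_not.2 hi)
          rw [ind_of hj, one_mul]
          unfold W
          rw [hz, mul_zero, sub_zero]
          have h3 := t.r_nn (hm j)
          have h4 := ind_nonneg (¬ bx j (F j))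
          have h5 := hai0 j (F j)
          have h6 : 0 ≤ (1 + e1) ^ n := by positivity
          exact mul_nonneg h5 (add_nonneg (mul_nonneg (mul_nonneg h6 (mul_nonneg h3 hp0)) h4) (mul_nonneg heta hQ0))
        · rw [ind_not hj, zero_mul]
      linarith
    · -- exactly one
      have hall : ∀ k, k ≠ i → ¬ t.SB B bd k (F k) := fun k hk h => hm2 ⟨k, hk, h⟩
      have ea := hai F hF i hi hall
      have e2 : ∑ j, ind (t.SB B bd j (F j)) * t.W B bd bx ai e1 eta j F = t.W B bd bx ai e1 eta i F := by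
        rw [Finset.sum_eq_single i]
        · rw [ind_of hi, one_mul]
        · intro k _ hk
          rw [ind_not (hall k hk), zero_mul]
        · intro h; exact absurd (mem_univ i) h
      have e3 : ∏ l ∈ univ.erase i, ind (¬ t.SB B bd l (F l)) = 1 :=
        Finset.prod_eq_one fun l hl => ind_of (hall l (Finset.ne_of_mem_erase hl))
      rw [e2]
      unfold W
      rw [e3, mul_one, ← ea]
      have h3 := t.r_nn (hm i)
      by_cases hR : Reg F
      · have h1 := hReg hR
        have h4 : 0 ≤ (1 + e1) ^ n * (t.r i (F i) * t.p F) * ind (¬ bx i (F i)) := by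
          have h6 : 0 ≤ (1 + e1) ^ n := by positivity
          exact mul_nonneg (mul_nonneg h6 (mul_nonneg h3 hp0)) (ind_nonneg _)
        have h5 := mul_nonneg (ha0 F) h4
        nlinarith
      · have hbx : ¬ bx i (F i) := fun h => hR (Rb F hF i hi.1 h)
        rw [ind_of hbx, mul_one]
        have hin : ∀ k ∈ univ.erase i, t.r k (F k) ≤ 1 + e1 := by
          intro k hk
          by_contra hc
          exact hR (Ra F hF i hi k (Finset.ne_of_mem_erase hk) (not_le.1 hc))
        have h4 : ∏ k, t.r k (F k) ≤ (1 + e1) ^ n * t.r i (F i) := by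
          rw [← Finset.mul_prod_erase univ _ (mem_univ i), mul_comm]
          refine mul_le_mul_of_nonneg_right ?_ h3
          have h5 := Finset.prod_le_prod (s := univ.erase i) (f := fun k => t.r k (F k)) (g := fun _ => 1 + e1)
            (fun k _ => t.r_nn (hm k)) hin
          rw [Finset.prod_const, Finset.card_erase_of_mem (mem_univ i), Finset.card_univ] at h5
          exact h5
        have h5 := t.term_off hF (hG F hF hR)
        rw [← hQ] at h5
        have h6 := t.prod_rq hF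
        rw [← hQ] at h6
        have h7 : Q * (G F - 1) ≤ (1 + e1) ^ n * (t.r i (F i) * t.p F) - Q := by
          rw [h5, mul_sub, h6]
          have := mul_le_mul_of_nonneg_right h4 hp0
          nlinarith
        have h8 := mul_le_mul_of_nonneg_left h7 (ha0 F)
        have h9 : 0 ≤ a F * (eta * Q) := mul_nonneg (ha0 F) (mul_nonneg heta hQ0)
        nlinarith
  · -- only good strong letters
    have hall : ∀ k, ¬ t.SB B bd k (F k) := fun k h => hm1 ⟨k, h⟩
    have e2 : ∑ j, ind (t.SB B bd j (F j)) * t.W B bd bx ai e1 eta j F = 0 :=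
      Finset.sum_eq_zero fun j _ => by rw [ind_not (hall j), zero_mul]
    rw [e2, zero_add]
    by_cases hR : Reg F
    · have := hReg0 hR
      linarith
    · obtain ⟨i, hi⟩ := hs
      have hbd : ¬ bd i (F i) := fun h => hall i ⟨hi, h⟩
      have h1 : t.Ug B d bx i F ≤ ∑ i, ind (B < t.r i (F i) ∧ ¬ bd i (F i)) * t.Ug B d bx i F := by
        have h2 := Finset.single_le_sum (f := fun i => ind (B < t.r i (F i) ∧ ¬ bd i (F i)) * t.Ug B d bx i F)
          (fun j _ => hU j) (mem_univ i)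
        have h3 : ind (B < t.r i (F i) ∧ ¬ bd i (F i)) = 1 := ind_of ⟨hi, hbd⟩
        simp only [h3, one_mul] at h2
        exact h2
      refine le_trans ?_ h1
      have h5 := t.term_off hF (hG F hF hR)
      rw [← hQ] at h5
      have h6 := t.prod_rq hF
      rw [← hQ] at h6
      have hbx : ¬ bx i (F i) := fun h => hR (Rb F hF i hi h)
      have g1 : 0 ≤ ∏ k ∈ univ.erase i, hwk B (t.r k (F k)) := Finset.prod_nonneg fun k _ => hwk_nonneg (t.r_nn (hm k))
      have g2 : 0 ≤ ∏ k ∈ univ.erase i, t.q k (F k) := Finset.prod_nonneg fun k _ => t.q_nn k _ (hm k)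
      have g3 := t.r_nn (hm i)
      have g4 := t.ke_nn i (F i)
      have g5 : 0 ≤ t.rowd i F := abs_nonneg _
      have hX : Q * (G F - 1) ≤ t.Ug B d bx i F := by
        rw [h5]
        unfold Ug
        rw [ind_of hbx, one_mul]
        by_cases h2 : ∃ k, k ≠ i ∧ B < t.r k (F k)
        · obtain ⟨k, hk, hk2⟩ := h2
          have h3 : t.p F ≤ (1 + d) * t.pq F := by
            by_contra hc
            exact hR (Rc F hF i k hk.symm hi hk2 (not_le.1 hc))
          have h4 : (∏ i, t.r i (F i)) * (t.p F - t.pq F) ≤ d * Q := by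
            rw [← h6]
            have := mul_le_mul_of_nonneg_left h3 (t.pr_nn hF)
            nlinarith
          have h7 : 0 ≤ t.r i (F i) * (∏ k ∈ univ.erase i, hwk B (t.r k (F k))) *
              (t.rowd i F + t.ke i (F i) * ∏ k ∈ univ.erase i, t.q k (F k)) := by positivity
          linarith
        · have hw : ∏ k ∈ univ.erase i, hwk B (t.r k (F k)) = ∏ k ∈ univ.erase i, t.r k (F k) := by
            refine Finset.prod_congr rfl fun k hk => ?_
            unfold hwk
            rw [ind_of (fun h => h2 ⟨k, Finset.ne_of_mem_erase hk, h⟩), one_mul]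
          rw [hw, ← Finset.mul_prod_erase univ (fun k => t.r k (F k)) (mem_univ i)]
          have h3 : 0 ≤ t.r i (F i) * ∏ k ∈ univ.erase i, t.r k (F k) := by rw [← hw]; positivity
          have h4 : t.p F - t.pq F ≤ t.rowd i F + t.ke i (F i) * ∏ k ∈ univ.erase i, t.q k (F k) := by
            have h7 : t.pq F = t.q i (F i) * ∏ k ∈ univ.erase i, t.q k (F k) :=
              (Finset.mul_prod_erase univ (fun k => t.q k (F k)) (mem_univ i)).symm
            have h8 := le_abs_self (t.p F - t.mg i (F i) * ∏ k ∈ univ.erase i, t.q k (F k))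
            have h9 := mul_le_mul_of_nonneg_right (le_max_left (t.mg i (F i) - t.q i (F i)) 0) g2
            rw [h7]
            unfold rowd ke
            linarith
          have h7 := mul_le_mul_of_nonneg_left h4 h3
          have h8 : 0 ≤ d * Q := mul_nonneg hd hQ0
          linarith
      have h8 : a F * (Q * (G F - 1)) ≤ t.Ug B d bx i F := by
        have hUi := t.Ug_nn (bx := bx) (i := i) (by linarith : (0 : ℝ) ≤ B) hd hF
        rcases le_total (Q * (G F - 1)) 0 with h | h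
        · have := mul_nonpos_of_nonneg_of_nonpos (ha0 F) h
          linarith
        · have := mul_le_mul_of_nonneg_right (ha1 F) h
          linarith
      linarith

/-- one minus the sum -/
theorem one_sub_prod_le {J : Finset I} {u : I → ℝ} (h0 : ∀ k ∈ J, 0 ≤ u k) (h1 : ∀ k ∈ J, u k ≤ 1) :
    1 - ∑ k ∈ J, u k ≤ ∏ k ∈ J, (1 - u k) := by
  classical
  induction J using Finset.induction_on with
  | empty => simp
  | insert i J hi ih =>
    rw [Finset.sum_insert hi, Finset.prod_insert hi]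
    have h2 := ih (fun k hk => h0 k (Finset.mem_insert_of_mem hk)) (fun k hk => h1 k (Finset.mem_insert_of_mem hk))
    have h3 := h0 i (Finset.mem_insert_self i J)
    have h4 := h1 i (Finset.mem_insert_self i J)
    have h5 : ∏ k ∈ J, (1 - u k) ≤ 1 := Finset.prod_le_one
      (fun k hk => by linarith [h1 k (Finset.mem_insert_of_mem hk)])
      (fun k hk => by linarith [h0 k (Finset.mem_insert_of_mem hk)])
    nlinarith

/-- mass of the strong bad letters under the new law -/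
def Qs (B : ℝ) (bd : I → φ → Prop) (i : I) : ℝ := ∑ x ∈ S i, ind (t.SB B bd i x) * t.q' i x

/-- mass of the strong bad letters under the new law, not released -/
def Qa (B : ℝ) (bd : I → φ → Prop) (ai : I → φ → ℝ) (i : I) : ℝ := ∑ x ∈ S i, ind (t.SB B bd i x) * (ai i x * t.q' i x)

theorem Qs_nn (i : I) : 0 ≤ t.Qs B bd i :=
  Finset.sum_nonneg fun x hx => mul_nonneg (ind_nonneg _) (t.q'_nn i x hx)

theorem Qs_le (i : I) : t.Qs B bd i ≤ 1 := by
  rw [← t.q'_one i]
  exact Finset.sum_le_sum fun x hx => mul_le_of_le_one_left (t.q'_nn i x hx) (ind_le_one _)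

theorem Qa_nn (hai0 : ∀ i x, 0 ≤ ai i x) (i : I) : 0 ≤ t.Qa B bd ai i :=
  Finset.sum_nonneg fun x hx => mul_nonneg (ind_nonneg _) (mul_nonneg (hai0 i x) (t.q'_nn i x hx))

/-- sum of the bad rows -/
theorem sum_W_le (heta : 0 ≤ eta) (he1 : 0 ≤ e1) (hai0 : ∀ i x, 0 ≤ ai i x) (hai1 : ∀ i x, ai i x ≤ 1) (i : I) :
    ∑ F ∈ Fintype.piFinset S, ind (t.SB B bd i (F i)) * t.W B bd bx ai e1 eta i F ≤
      ∑ x ∈ S i, ind (t.SB B bd i x) * (((1 + e1) ^ (Fintype.card I - 1) - 1 + eta) * t.q' i x +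
        (1 + e1) ^ (Fintype.card I - 1) * (t.r i x * (ind (¬ bx i x) * t.ke i x))) +
      t.Qa B bd ai i * ∑ k ∈ univ.erase i, t.Qs B bd k := by
  classical
  set n : ℕ := Fintype.card I - 1 with hn
  have hc1 : 1 ≤ (1 + e1) ^ n := one_le_pow₀ (by linarith)
  have e1' : ∑ F ∈ Fintype.piFinset S, ind (t.SB B bd i (F i)) * t.W B bd bx ai e1 eta i F =
      ∑ x ∈ S i, t.mg i x * (ind (t.SB B bd i x) * (ai i x * ((1 + e1) ^ n * (t.r i x * ind (¬ bx i x))))) -
      (∑ x ∈ S i, ind (t.SB B bd i x) * (ai i x * t.q' i x)) * ∏ k ∈ univ.erase i, ∑ y ∈ S k, ind (¬ t.SB B bd k y) * t.q' k y +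
      ∑ x ∈ S i, ind (t.SB B bd i x) * (ai i x * eta) * t.q' i x := by
    rw [← t.sum_mg i, ← sum_prod_at S i (fun x => ind (t.SB B bd i x) * (ai i x * t.q' i x))
      (fun k y => ind (¬ t.SB B bd k y) * t.q' k y), ← t.sum_pq i (fun x => ind (t.SB B bd i x) * (ai i x * eta)),
      ← Finset.sum_sub_distrib, ← Finset.sum_add_distrib]
    refine Finset.sum_congr rfl fun F _ => ?_
    unfold W
    rw [Finset.prod_mul_distrib, ← Finset.mul_prod_erase univ (fun k => t.q' k (F k)) (mem_univ i)]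
    ring
  rw [e1']
  have h2 : ∀ k, ∑ y ∈ S k, ind (¬ t.SB B bd k y) * t.q' k y = 1 - t.Qs B bd k := by
    intro k
    unfold Qs
    rw [← t.q'_one k, ← Finset.sum_sub_distrib]
    refine Finset.sum_congr rfl fun y _ => ?_
    by_cases h : t.SB B bd k y
    · rw [ind_of h, ind_not (not_not.2 h)]; ring
    · rw [ind_not h, ind_of h]; ring
  have h3 : 1 - ∑ k ∈ univ.erase i, t.Qs B bd k ≤ ∏ k ∈ univ.erase i, ∑ y ∈ S k, ind (¬ t.SB B bd k y) * t.q' k y := by
    rw [Finset.prod_congr rfl fun k _ => h2 k]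
    exact one_sub_prod_le (fun k _ => t.Qs_nn k) (fun k _ => t.Qs_le k)
  have h4 := t.Qa_nn (B := B) (bd := bd) hai0 i
  have h5 : t.Qa B bd ai i * (1 - ∑ k ∈ univ.erase i, t.Qs B bd k) ≤
      (∑ x ∈ S i, ind (t.SB B bd i x) * (ai i x * t.q' i x)) *
        ∏ k ∈ univ.erase i, ∑ y ∈ S k, ind (¬ t.SB B bd k y) * t.q' k y := mul_le_mul_of_nonneg_left h3 h4
  have h6 : ∑ x ∈ S i, t.mg i x * (ind (t.SB B bd i x) * (ai i x * ((1 + e1) ^ n * (t.r i x * ind (¬ bx i x))))) -
      t.Qa B bd ai i + ∑ x ∈ S i, ind (t.SB B bd i x) * (ai i x * eta) * t.q' i x ≤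
      ∑ x ∈ S i, ind (t.SB B bd i x) * (((1 + e1) ^ n - 1 + eta) * t.q' i x +
        (1 + e1) ^ n * (t.r i x * (ind (¬ bx i x) * t.ke i x))) := by
    unfold Qa
    rw [← Finset.sum_sub_distrib, ← Finset.sum_add_distrib]
    refine Finset.sum_le_sum fun x hx => ?_
    by_cases hS : t.SB B bd i x
    · simp only [ind_of hS, one_mul]
      have g1 := t.r_nn hx
      have g2 := t.rq hx
      have g3 := t.q'_nn i x hx
      have g4 := t.ke_nn i x
      have g5 : t.mg i x ≤ t.q i x + t.ke i x := by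
        have := le_max_left (t.mg i x - t.q i x) 0
        unfold ke
        linarith
      have g6 := hai0 i x
      have g7 := hai1 i x
      by_cases hb : bx i x
      · rw [ind_not (not_not.2 hb)]
        have g8 : 0 ≤ (1 - ai i x + ai i x * eta) * t.q' i x := mul_nonneg (by nlinarith) g3
        have g9 : 0 ≤ ((1 + e1) ^ n - 1) * t.q' i x := mul_nonneg (by linarith) g3
        have g10 : 0 ≤ (1 - ai i x) * (eta * t.q' i x) := mul_nonneg (by linarith) (mul_nonneg heta g3)
        nlinarith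
      · rw [ind_of hb, one_mul, mul_one]
        have g8 : t.r i x * t.mg i x ≤ t.q' i x + t.r i x * t.ke i x := by
          have := mul_le_mul_of_nonneg_left g5 g1
          rw [mul_add, g2] at this
          exact this
        have g9 : 0 ≤ ((1 + e1) ^ n - 1 + eta) * t.q' i x + (1 + e1) ^ n * (t.r i x * t.ke i x) := by
          have : 0 ≤ t.r i x * t.ke i x := mul_nonneg g1 g4
          have h8 : 0 ≤ ((1 + e1) ^ n - 1 + eta) := by linarith
          positivity
        have g10 := mul_le_mul_of_nonneg_left g8 (by linarith : (0 : ℝ) ≤ (1 + e1) ^ n)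
        have g11 : t.mg i x * (ai i x * ((1 + e1) ^ n * t.r i x)) - ai i x * t.q' i x + ai i x * eta * t.q' i x ≤
            ai i x * (((1 + e1) ^ n - 1 + eta) * t.q' i x + (1 + e1) ^ n * (t.r i x * t.ke i x)) := by
          have := mul_le_mul_of_nonneg_left g10 g6
          nlinarith
        have g12 := mul_le_of_le_one_left g9 g7
        linarith
    · simp only [ind_not hS, zero_mul, mul_zero, sub_zero, add_zero, le_refl]
  have h7 : t.Qa B bd ai i * (1 - ∑ k ∈ univ.erase i, t.Qs B bd k) =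
      t.Qa B bd ai i - t.Qa B bd ai i * ∑ k ∈ univ.erase i, t.Qs B bd k := by ring
  linarith

/-- sum of the good rows -/
theorem sum_Ug_le (hB : 1 ≤ B) (hd : 0 ≤ d) (hdd : 0 ≤ dd) (i : I)
    (hgood : ∀ x ∈ S i, B < t.r i x → ¬ bd i x →
      ∑ F ∈ Fintype.piFinset S, ind (F i = x) * t.rowd i F ≤ dd * t.mg i x) :
    ∑ F ∈ Fintype.piFinset S, ind (B < t.r i (F i) ∧ ¬ bd i (F i)) * t.Ug B d bx i F ≤
      ∑ x ∈ S i, ind (B < t.r i x ∧ ¬ bd i x) * ((B ^ (Fintype.card I - 1) * dd + d) * t.q' i x +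
        (B ^ (Fintype.card I - 1) * dd + 1) * (t.r i x * (ind (¬ bx i x) * t.ke i x))) := by
  classical
  set n : ℕ := Fintype.card I - 1 with hn
  have hB0 : (0 : ℝ) ≤ B := by linarith
  have hBn : 0 ≤ B ^ n := by positivity
  -- pointwise: the weak factors are at most `B`
  have h1 : ∀ F ∈ Fintype.piFinset S, ind (B < t.r i (F i) ∧ ¬ bd i (F i)) * t.Ug B d bx i F ≤
      (∑ x ∈ S i, ind (F i = x) * (ind (B < t.r i x ∧ ¬ bd i x) * (ind (¬ bx i x) * (t.r i x * B ^ n))) * t.rowd i F) +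
      (ind (B < t.r i (F i) ∧ ¬ bd i (F i)) * (ind (¬ bx i (F i)) * (t.r i (F i) * t.ke i (F i)))) *
        (∏ k ∈ univ.erase i, (t.q k (F k) * hwk B (t.r k (F k)))) +
      (ind (B < t.r i (F i) ∧ ¬ bd i (F i)) * d) * ∏ k, t.q' k (F k) := by
    intro F hF
    have hm := Fintype.mem_piFinset.1 hF
    have e2 : ∑ x ∈ S i, ind (F i = x) * (ind (B < t.r i x ∧ ¬ bd i x) * (ind (¬ bx i x) * (t.r i x * B ^ n))) *
        t.rowd i F = ind (B < t.r i (F i) ∧ ¬ bd i (F i)) * (ind (¬ bx i (F i)) * (t.r i (F i) * B ^ n)) * t.rowd i F := by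
      rw [Finset.sum_eq_single (F i)]
      · rw [ind_of rfl, one_mul]
      · intro x _ hx
        rw [ind_not (fun h => hx h.symm), zero_mul, zero_mul]
      · intro h; exact absurd (hm i) h
    rw [e2, Finset.prod_mul_distrib]
    unfold Ug
    have g1 : 0 ≤ ∏ k ∈ univ.erase i, hwk B (t.r k (F k)) := Finset.prod_nonneg fun k _ => hwk_nonneg (t.r_nn (hm k))
    have g2 : 0 ≤ ∏ k ∈ univ.erase i, t.q k (F k) := Finset.prod_nonneg fun k _ => t.q_nn k _ (hm k)
    have g3 := t.r_nn (hm i)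
    have g4 := t.ke_nn i (F i)
    have g5 : 0 ≤ t.rowd i F := abs_nonneg _
    have g6 : ∏ k ∈ univ.erase i, hwk B (t.r k (F k)) ≤ B ^ n := by
      have h5 := Finset.prod_le_prod (s := univ.erase i) (f := fun k => hwk B (t.r k (F k))) (g := fun _ => B)
        (fun k _ => hwk_nonneg (t.r_nn (hm k))) (fun k _ => hwk_le hB0)
      rw [Finset.prod_const, Finset.card_erase_of_mem (mem_univ i), Finset.card_univ] at h5
      exact h5
    have g7 := ind_nonneg (B < t.r i (F i) ∧ ¬ bd i (F i))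
    have g8 := ind_nonneg (¬ bx i (F i))
    have g9 : (ind (B < t.r i (F i) ∧ ¬ bd i (F i)) * ind (¬ bx i (F i)) * t.r i (F i) * t.rowd i F) *
        (∏ k ∈ univ.erase i, hwk B (t.r k (F k))) ≤
        (ind (B < t.r i (F i) ∧ ¬ bd i (F i)) * ind (¬ bx i (F i)) * t.r i (F i) * t.rowd i F) * B ^ n :=
      mul_le_mul_of_nonneg_left g6 (by positivity)
    nlinarith
  refine (Finset.sum_le_sum h1).trans ?_
  rw [Finset.sum_add_distrib, Finset.sum_add_distrib]
  -- first sum
  have k1 : ∑ F ∈ Fintype.piFinset S, ∑ x ∈ S i,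
      ind (F i = x) * (ind (B < t.r i x ∧ ¬ bd i x) * (ind (¬ bx i x) * (t.r i x * B ^ n))) * t.rowd i F ≤
      ∑ x ∈ S i, ind (B < t.r i x ∧ ¬ bd i x) * (B ^ n * dd * t.q' i x + B ^ n * dd * (t.r i x * (ind (¬ bx i x) * t.ke i x))) := by
    rw [Finset.sum_comm]
    refine Finset.sum_le_sum fun x hx => ?_
    have e3 : ∑ F ∈ Fintype.piFinset S,
        ind (F i = x) * (ind (B < t.r i x ∧ ¬ bd i x) * (ind (¬ bx i x) * (t.r i x * B ^ n))) * t.rowd i F =
        (ind (B < t.r i x ∧ ¬ bd i x) * (ind (¬ bx i x) * (t.r i x * B ^ n))) *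
          ∑ F ∈ Fintype.piFinset S, ind (F i = x) * t.rowd i F := by
      rw [Finset.mul_sum]
      exact Finset.sum_congr rfl fun F _ => by ring
    rw [e3]
    by_cases hS : B < t.r i x ∧ ¬ bd i x
    · rw [ind_of hS, one_mul, one_mul]
      have g1 := hgood x hx hS.1 hS.2
      have g3 := t.r_nn hx
      have g4 := t.ke_nn i x
      have g5 := t.q'_nn i x hx
      by_cases hb : bx i x
      · rw [ind_not (not_not.2 hb)]
        have : 0 ≤ B ^ n * dd * t.q' i x := by positivity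
        simp only [zero_mul, mul_zero, add_zero]
        exact this
      · rw [ind_of hb, one_mul, one_mul]
        have g6 : t.mg i x ≤ t.q i x + t.ke i x := by
          have := le_max_left (t.mg i x - t.q i x) 0
          unfold ke
          linarith
        have g7 := mul_le_mul_of_nonneg_left g6 hdd
        have g8 := mul_le_mul_of_nonneg_left (g1.trans g7) (by positivity : 0 ≤ t.r i x * B ^ n)
        have g9 := t.rq hx
        refine g8.trans (le_of_eq ?_)
        rw [← g9]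
        ring
    · rw [ind_not hS]
      simp only [zero_mul, le_refl]
  -- second sum
  have k2 : ∑ F ∈ Fintype.piFinset S, (ind (B < t.r i (F i) ∧ ¬ bd i (F i)) * (ind (¬ bx i (F i)) *
      (t.r i (F i) * t.ke i (F i)))) * (∏ k ∈ univ.erase i, (t.q k (F k) * hwk B (t.r k (F k)))) ≤
      ∑ x ∈ S i, ind (B < t.r i x ∧ ¬ bd i x) * (t.r i x * (ind (¬ bx i x) * t.ke i x)) := by
    rw [sum_prod_at S i (fun x => ind (B < t.r i x ∧ ¬ bd i x) * (ind (¬ bx i x) * (t.r i x * t.ke i x)))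
      (fun k y => t.q k y * hwk B (t.r k y))]
    have g1 : ∏ k ∈ univ.erase i, ∑ y ∈ S k, t.q k y * hwk B (t.r k y) ≤ 1 := by
      refine Finset.prod_le_one (fun k _ => Finset.sum_nonneg fun y hy =>
        mul_nonneg (t.q_nn k y hy) (hwk_nonneg (t.r_nn hy))) (fun k _ => ?_)
      rw [← t.q'_one k]
      refine Finset.sum_le_sum fun y hy => ?_
      have := mul_le_mul_of_nonneg_left (hwk_le_self (B := B) (t.r_nn hy)) (t.q_nn k y hy)
      rw [mul_comm (t.q k y) (t.r k y), t.rq hy] at this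
      exact this
    have g2 : 0 ≤ ∑ x ∈ S i, ind (B < t.r i x ∧ ¬ bd i x) * (ind (¬ bx i x) * (t.r i x * t.ke i x)) :=
      Finset.sum_nonneg fun x hx => mul_nonneg (ind_nonneg _) (mul_nonneg (ind_nonneg _) (mul_nonneg (t.r_nn hx) (t.ke_nn i x)))
    refine (mul_le_of_le_one_right g2 g1).trans (le_of_eq ?_)
    exact Finset.sum_congr rfl fun x _ => by ring
  have k3 := t.sum_pq i (fun x => ind (B < t.r i x ∧ ¬ bd i x) * d)
  rw [k3]
  refine (add_le_add (add_le_add k1 k2) le_rfl).trans (le_of_eq ?_)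
  rw [← Finset.sum_add_distrib, ← Finset.sum_add_distrib]
  exact Finset.sum_congr rfl fun x _ => by ring

/-- **THE TUPLES WITH A STRONG LETTER** -/
theorem strong_le (hB : 1 ≤ B) (hd : 0 ≤ d) (hdd : 0 ≤ dd) (heta : 0 ≤ eta) (heta1 : eta ≤ 1) (he1 : 0 ≤ e1)
    (heB : 1 + e1 ≤ B)
    (hG : ∀ F ∈ Fintype.piFinset S, ¬ Reg F → G F = t.p F / t.pq F) (hGR : ∀ F ∈ Fintype.piFinset S, Reg F → G F ≤ eta)
    (ha0 : ∀ F, 0 ≤ a F) (ha1 : ∀ F, a F ≤ 1) (hai0 : ∀ i x, 0 ≤ ai i x) (hai1 : ∀ i x, ai i x ≤ 1)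
    (hai : ∀ F ∈ Fintype.piFinset S, ∀ i, t.SB B bd i (F i) → (∀ k, k ≠ i → ¬ t.SB B bd k (F k)) → a F = ai i (F i))
    (Ra : ∀ F ∈ Fintype.piFinset S, ∀ i, t.SB B bd i (F i) → ∀ k, k ≠ i → 1 + e1 < t.r k (F k) → Reg F)
    (Rb : ∀ F ∈ Fintype.piFinset S, ∀ i, B < t.r i (F i) → bx i (F i) → Reg F)
    (Rc : ∀ F ∈ Fintype.piFinset S, ∀ i k, i ≠ k → B < t.r i (F i) → B < t.r k (F k) → (1 + d) * t.pq F < t.p F → Reg F)
    (hgood : ∀ i, ∀ x ∈ S i, B < t.r i x → ¬ bd i x →
      ∑ F ∈ Fintype.piFinset S, ind (F i = x) * t.rowd i F ≤ dd * t.mg i x)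
    {c1 c2 : ℝ} (hc1 : (1 + e1) ^ (Fintype.card I - 1) - 1 + eta + (B ^ (Fintype.card I - 1) * dd + d) ≤ c1)
    (hc2 : (1 + e1) ^ (Fintype.card I - 1) + (B ^ (Fintype.card I - 1) * dd + 1) ≤ c2) :
    ∑ F ∈ Fintype.piFinset S, ind (∃ i, B < t.r i (F i)) * ((∏ i, t.q' i (F i)) * (a F * (G F - 1))) ≤
      ∑ i, ∑ x ∈ S i, ind (B < t.r i x) * (c1 * t.q' i x + c2 * (t.r i x * (ind (¬ bx i x) * t.ke i x))) +
      ∑ i, t.Qa B bd ai i * ∑ k ∈ univ.erase i, t.Qs B bd k := by
  classical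
  have h1 : ∑ F ∈ Fintype.piFinset S, ind (∃ i, B < t.r i (F i)) * ((∏ i, t.q' i (F i)) * (a F * (G F - 1))) ≤
      ∑ F ∈ Fintype.piFinset S, ∑ i, (ind (t.SB B bd i (F i)) * t.W B bd bx ai e1 eta i F +
        ind (B < t.r i (F i) ∧ ¬ bd i (F i)) * t.Ug B d bx i F) := by
    refine Finset.sum_le_sum fun F hF => ?_
    by_cases hs : ∃ i, B < t.r i (F i)
    · rw [ind_of hs, one_mul]
      exact t.point_le hB hd heta heta1 he1 heB hG hGR ha0 ha1 hai0 hai Ra Rb Rc hF hs
    · rw [ind_not hs, zero_mul]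
      refine Finset.sum_nonneg fun i _ => ?_
      rw [ind_not (fun h => hs ⟨i, h.1⟩ : ¬ t.SB B bd i (F i)), ind_not (fun h => hs ⟨i, h.1⟩ : ¬ (B < t.r i (F i) ∧
        ¬ bd i (F i)))]
      simp only [zero_mul, add_zero, le_refl]
  refine h1.trans ?_
  rw [Finset.sum_comm, ← Finset.sum_add_distrib]
  refine Finset.sum_le_sum fun i _ => ?_
  rw [Finset.sum_add_distrib]
  have h2 := t.sum_W_le (B := B) (bd := bd) (bx := bx) (ai := ai) heta he1 hai0 hai1 i
  have h3 := t.sum_Ug_le (bd := bd) (bx := bx) hB hd hdd i (hgood i)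
  have h4 : ∑ x ∈ S i, ind (t.SB B bd i x) * (((1 + e1) ^ (Fintype.card I - 1) - 1 + eta) * t.q' i x +
        (1 + e1) ^ (Fintype.card I - 1) * (t.r i x * (ind (¬ bx i x) * t.ke i x))) +
      ∑ x ∈ S i, ind (B < t.r i x ∧ ¬ bd i x) * ((B ^ (Fintype.card I - 1) * dd + d) * t.q' i x +
        (B ^ (Fintype.card I - 1) * dd + 1) * (t.r i x * (ind (¬ bx i x) * t.ke i x))) ≤
      ∑ x ∈ S i, ind (B < t.r i x) * (c1 * t.q' i x + c2 * (t.r i x * (ind (¬ bx i x) * t.ke i x))) := by
    rw [← Finset.sum_add_distrib]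
    refine Finset.sum_le_sum fun x hx => ?_
    have g1 := t.q'_nn i x hx
    have g2 : 0 ≤ t.r i x * (ind (¬ bx i x) * t.ke i x) :=
      mul_nonneg (t.r_nn hx) (mul_nonneg (ind_nonneg _) (t.ke_nn i x))
    have hB0 : (0 : ℝ) ≤ B := by linarith
    have g3 : 0 ≤ B ^ (Fintype.card I - 1) * dd := by positivity
    have g4 : (1 : ℝ) ≤ (1 + e1) ^ (Fintype.card I - 1) := one_le_pow₀ (by linarith)
    by_cases hs : B < t.r i x
    · rw [ind_of hs, one_mul]
      by_cases hb : bd i x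
      · rw [ind_of (show t.SB B bd i x from ⟨hs, hb⟩),
          ind_not (show ¬ (B < t.r i x ∧ ¬ bd i x) from fun h => h.2 hb)]
        have g5 := mul_le_mul_of_nonneg_right (show (1 + e1) ^ (Fintype.card I - 1) - 1 + eta ≤ c1 by linarith) g1
        have g6 := mul_le_mul_of_nonneg_right (show (1 + e1) ^ (Fintype.card I - 1) ≤ c2 by linarith) g2
        linarith
      · rw [ind_not (show ¬ t.SB B bd i x from fun h => hb h.2),
          ind_of (show B < t.r i x ∧ ¬ bd i x from ⟨hs, hb⟩)]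
        have g5 := mul_le_mul_of_nonneg_right (show B ^ (Fintype.card I - 1) * dd + d ≤ c1 by linarith) g1
        have g6 := mul_le_mul_of_nonneg_right (show B ^ (Fintype.card I - 1) * dd + 1 ≤ c2 by linarith) g2
        linarith
    · rw [ind_not hs, ind_not (show ¬ t.SB B bd i x from fun h => hs h.1),
        ind_not (show ¬ (B < t.r i x ∧ ¬ bd i x) from fun h => hs h.1)]
      simp only [zero_mul, add_zero, le_refl]
  linarith

end KT

end

end Pool.Agent.GMH
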