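import Pool.Agent.GMH.Key3T

/-!
# GMH.Key3U: KEY for the tops over the thin letters, tables, the tuples without strong letters (helper78)

* `KT.weak_le` : `∑ (no strong) ∏ q' a (G - 1) ≤ ∑ ∏ wk (p - ∏ q) + RW` if no such tuple is in `Reg`;
* three tops: `KT.WK_le` : first order terms + absolute pair terms `PA` + the bad part of the triple term;
* `KT.WK_le_close` : the bound if `p` is close to the product except for a small mass (thin strong letters).
-/

set_option autoImplicit false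
set_option linter.unusedSectionVars false
set_option linter.unusedVariables false

namespace Pool.Agent.GMH

open Finset Pool.Agent.PWZ Pool.Agent.M3

noncomputable section

namespace KT

section gen

variable {I φ : Type*} [Fintype I] [DecidableEq I] {S : I → Finset φ} (t : KT S)

/-- the weak ratio minus one -/
def xi (B : ℝ) (i : I) (x : φ) : ℝ := hwk B (t.r i x) - 1

/-- the sum over the tuples with the weak ratios -/
def WK (B : ℝ) : ℝ := ∑ F ∈ Fintype.piFinset S, (∏ i, hwk B (t.r i (F i))) * (t.p F - t.pq F)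

/-- released weak letters -/
def RW (B : ℝ) (a : (I → φ) → ℝ) : ℝ :=
  ∑ F ∈ Fintype.piFinset S, (1 - a F) * ((∏ i, hwk B (t.r i (F i))) * |t.p F - t.pq F|)

variable {B eta : ℝ} {Reg : (I → φ) → Prop} {G a : (I → φ) → ℝ}

theorem abs_xi_le (hB : 1 ≤ B) {i : I} {x : φ} (hx : x ∈ S i) : |t.xi B i x| ≤ B := by
  unfold xi
  have h1 := hwk_nonneg (B := B) (t.r_nn hx)
  have h2 := hwk_le (x := t.r i x) (show (0 : ℝ) ≤ B by linarith)
  rw [abs_le]
  constructor <;> linarith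

theorem prod_hwk_strong {F : I → φ} (h : ∃ i, B < t.r i (F i)) : ∏ i, hwk B (t.r i (F i)) = 0 := by
  obtain ⟨i, hi⟩ := h
  refine Finset.prod_eq_zero (mem_univ i) ?_
  unfold hwk
  rw [ind_not (not_not.2 hi), zero_mul]

theorem prod_hwk_weak {F : I → φ} (h : ¬ ∃ i, B < t.r i (F i)) : ∏ i, hwk B (t.r i (F i)) = ∏ i, t.r i (F i) := by
  refine Finset.prod_congr rfl fun i _ => ?_
  unfold hwk
  rw [ind_of (fun hi => h ⟨i, hi⟩), one_mul]

/-- **THE TUPLES WITHOUT STRONG LETTERS** -/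
theorem weak_le (hG : ∀ F ∈ Fintype.piFinset S, ¬ Reg F → G F = t.p F / t.pq F) (ha0 : ∀ F, 0 ≤ a F) (ha1 : ∀ F, a F ≤ 1)
    (hw : ∀ F ∈ Fintype.piFinset S, (¬ ∃ i, B < t.r i (F i)) → ¬ Reg F) :
    ∑ F ∈ Fintype.piFinset S, ind (¬ ∃ i, B < t.r i (F i)) * ((∏ i, t.q' i (F i)) * (a F * (G F - 1))) ≤
      t.WK B + t.RW B a := by
  unfold WK RW
  rw [← Finset.sum_add_distrib]
  refine Finset.sum_le_sum fun F hF => ?_
  by_cases h : ∃ i, B < t.r i (F i)
  · rw [ind_not (not_not.2 h), t.prod_hwk_strong h]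
    simp only [zero_mul, mul_zero, add_zero, le_refl]
  · rw [ind_of h, one_mul, t.prod_hwk_weak h]
    have h5 := t.term_off hF (hG F hF (hw F hF h))
    have e : (∏ i, t.q' i (F i)) * (a F * (G F - 1)) = a F * ((∏ i, t.q' i (F i)) * (G F - 1)) := by ring
    rw [e, h5]
    have h6 := t.pr_nn hF
    have h7 := mul_le_mul_of_nonneg_left (neg_abs_le (t.p F - t.pq F)) h6
    have h8 := mul_le_mul_of_nonneg_left h7 (show 0 ≤ 1 - a F by linarith [ha1 F])
    nlinarith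

/-- everything in `Reg` -/
theorem all_reg (heta1 : eta ≤ 1) (hGR : ∀ F ∈ Fintype.piFinset S, Reg F → G F ≤ eta) (ha0 : ∀ F, 0 ≤ a F)
    (hr : ∀ F ∈ Fintype.piFinset S, Reg F) :
    ∑ F ∈ Fintype.piFinset S, (∏ i, t.q' i (F i)) * (a F * (G F - 1)) ≤ 0 := by
  refine Finset.sum_nonpos fun F hF => ?_
  have h1 := hGR F hF (hr F hF)
  have h2 : a F * (G F - 1) ≤ 0 := mul_nonpos_of_nonneg_of_nonpos (ha0 F) (by linarith)
  exact mul_nonpos_of_nonneg_of_nonpos (t.pq'_nn hF) h2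

theorem split_sum (f : (I → φ) → ℝ) : ∑ F ∈ Fintype.piFinset S, f F =
    ∑ F ∈ Fintype.piFinset S, ind (¬ ∃ i, B < t.r i (F i)) * f F +
      ∑ F ∈ Fintype.piFinset S, ind (∃ i, B < t.r i (F i)) * f F := by
  rw [← Finset.sum_add_distrib]
  refine Finset.sum_congr rfl fun F _ => ?_
  by_cases h : ∃ i, B < t.r i (F i)
  · rw [ind_of h, ind_not (not_not.2 h)]; ring
  · rw [ind_not h, ind_of h]; ring

/-- pair marginal -/
def mg2 (i k : I) (x y : φ) : ℝ := ∑ F ∈ Fintype.piFinset S, ind (F i = x ∧ F k = y) * t.p F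

theorem mg2_nn (i k : I) (x y : φ) : 0 ≤ t.mg2 i k x y :=
  Finset.sum_nonneg fun F hF => mul_nonneg (ind_nonneg _) (t.p_nn F hF)

theorem sum_two (i k : I) (f : (I → φ) → ℝ) (g h : φ → ℝ) :
    ∑ F ∈ Fintype.piFinset S, f F * (g (F i) * h (F k)) =
      ∑ x ∈ S i, ∑ y ∈ S k, (∑ F ∈ Fintype.piFinset S, ind (F i = x ∧ F k = y) * f F) * (g x * h y) := by
  classical
  have h1 : ∀ F ∈ Fintype.piFinset S, f F * (g (F i) * h (F k)) =
      ∑ x ∈ S i, ∑ y ∈ S k, (ind (F i = x ∧ F k = y) * f F) * (g x * h y) := by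
    intro F hF
    have hm := Fintype.mem_piFinset.1 hF
    rw [Finset.sum_eq_single (F i)]
    · rw [Finset.sum_eq_single (F k)]
      · rw [ind_of ⟨rfl, rfl⟩, one_mul]
      · intro y _ hy
        rw [ind_not (fun hh => hy hh.2.symm), zero_mul, zero_mul]
      · intro hh; exact absurd (hm k) hh
    · intro x _ hx
      refine Finset.sum_eq_zero fun y _ => ?_
      rw [ind_not (fun hh => hx hh.1.symm), zero_mul, zero_mul]
    · intro hh; exact absurd (hm i) hh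
  rw [Finset.sum_congr rfl h1, Finset.sum_comm]
  refine Finset.sum_congr rfl fun x _ => ?_
  rw [Finset.sum_comm]
  refine Finset.sum_congr rfl fun y _ => ?_
  rw [Finset.sum_mul]

theorem sum_pq_two {i k : I} (hik : i ≠ k) (g h : φ → ℝ) :
    ∑ F ∈ Fintype.piFinset S, t.pq F * (g (F i) * h (F k)) = (∑ x ∈ S i, t.q i x * g x) * ∑ y ∈ S k, t.q k y * h y := by
  classical
  have h1 : ∀ F : I → φ, t.pq F * (g (F i) * h (F k)) =
      (t.q i (F i) * g (F i)) * ∏ j ∈ univ.erase i, (t.q j (F j) * if j = k then h (F j) else 1) := by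
    intro F
    unfold pq
    rw [← Finset.mul_prod_erase univ (fun j => t.q j (F j)) (mem_univ i), Finset.prod_mul_distrib]
    have e : ∏ j ∈ univ.erase i, (if j = k then h (F j) else 1) = h (F k) := by
      rw [Finset.prod_ite_eq' (univ.erase i) k (fun j => h (F j)), if_pos (Finset.mem_erase.2 ⟨hik.symm, mem_univ k⟩)]
    rw [e]
    ring
  rw [Finset.sum_congr rfl fun F _ => h1 F]
  have h2 := sum_prod_at S i (fun x => t.q i x * g x) (fun j y => t.q j y * if j = k then h y else 1)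
  rw [h2]
  congr 1
  rw [← Finset.mul_prod_erase (univ.erase i) _ (Finset.mem_erase.2 ⟨hik.symm, mem_univ k⟩)]
  have e2 : ∏ j ∈ (univ.erase i).erase k, ∑ y ∈ S j, t.q j y * (if j = k then h y else 1) = 1 := by
    refine Finset.prod_eq_one fun j hj => ?_
    refine Eq.trans (Finset.sum_congr rfl fun y _ => ?_) (t.q_one j)
    rw [if_neg (Finset.ne_of_mem_erase hj), mul_one]
  rw [e2, mul_one]
  simp only [if_true]

/-- two letters -/
theorem sum_diff_two {i k : I} (hik : i ≠ k) (g h : φ → ℝ) :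
    ∑ F ∈ Fintype.piFinset S, (t.p F - t.pq F) * (g (F i) * h (F k)) =
      ∑ x ∈ S i, ∑ y ∈ S k, (t.mg2 i k x y - t.q i x * t.q k y) * (g x * h y) := by
  have h1 := sum_two (S := S) i k t.p g h
  have h2 := t.sum_pq_two hik g h
  simp only [sub_mul, Finset.sum_sub_distrib]
  rw [h1, h2, Finset.sum_mul_sum]
  congr 1
  refine Finset.sum_congr rfl fun x _ => Finset.sum_congr rfl fun y _ => ?_
  ring

/-- absolute pair term -/
def PA (B : ℝ) (i k : I) : ℝ :=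
  ∑ x ∈ S i, ∑ y ∈ S k, |t.mg2 i k x y - t.q i x * t.q k y| * (|t.xi B i x| * |t.xi B k y|)

theorem pair_le {i k : I} (hik : i ≠ k) :
    |∑ F ∈ Fintype.piFinset S, (t.p F - t.pq F) * (t.xi B i (F i) * t.xi B k (F k))| ≤ t.PA B i k := by
  rw [t.sum_diff_two hik]
  refine (Finset.abs_sum_le_sum_abs _ _).trans (Finset.sum_le_sum fun x _ => ?_)
  refine (Finset.abs_sum_le_sum_abs _ _).trans (Finset.sum_le_sum fun y _ => ?_)
  rw [abs_mul, abs_mul]

/-- first order term -/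
def ph (B : ℝ) (i : I) : ℝ := ∑ x ∈ S i, (t.mg i x - t.q i x) * t.xi B i x

theorem sum_q_one (i : I) (g : φ → ℝ) : ∑ F ∈ Fintype.piFinset S, t.pq F * g (F i) = ∑ x ∈ S i, t.q i x * g x := by
  have h := sum_prod_at S i (fun x => t.q i x * g x) (fun k y => t.q k y)
  have h1 : ∏ k ∈ univ.erase i, ∑ y ∈ S k, t.q k y = 1 := Finset.prod_eq_one fun k _ => t.q_one k
  rw [h1, mul_one] at h
  rw [← h]
  refine Finset.sum_congr rfl fun F _ => ?_
  unfold pq
  rw [← Finset.mul_prod_erase univ _ (mem_univ i)]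
  ring

theorem sum_diff_one (i : I) (g : φ → ℝ) :
    ∑ F ∈ Fintype.piFinset S, (t.p F - t.pq F) * g (F i) = ∑ x ∈ S i, (t.mg i x - t.q i x) * g x := by
  simp only [sub_mul, Finset.sum_sub_distrib]
  rw [t.sum_mg i g, t.sum_q_one i g]

/-- mean of the absolute value of `xi` -/
def mx (B : ℝ) (i : I) : ℝ := ∑ x ∈ S i, t.q i x * |t.xi B i x|

theorem mx_nn (i : I) : 0 ≤ t.mx B i := Finset.sum_nonneg fun x hx => mul_nonneg (t.q_nn i x hx) (abs_nonneg _)

theorem mx_sq_le (i : I) : t.mx B i ^ 2 ≤ ∑ x ∈ S i, t.q i x * t.xi B i x ^ 2 := by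
  unfold mx
  have h := Finset.sum_mul_sq_le_sq_mul_sq (S i) (fun x => Real.sqrt (t.q i x)) (fun x => Real.sqrt (t.q i x) * |t.xi B i x|)
  have e1 : ∑ x ∈ S i, Real.sqrt (t.q i x) * (Real.sqrt (t.q i x) * |t.xi B i x|) = ∑ x ∈ S i, t.q i x * |t.xi B i x| := by
    refine Finset.sum_congr rfl fun x hx => ?_
    rw [← mul_assoc, Real.mul_self_sqrt (t.q_nn i x hx)]
  have e2 : ∑ x ∈ S i, Real.sqrt (t.q i x) ^ 2 = 1 := by
    rw [← t.q_one i]
    exact Finset.sum_congr rfl fun x hx => Real.sq_sqrt (t.q_nn i x hx)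
  have e3 : ∑ x ∈ S i, (Real.sqrt (t.q i x) * |t.xi B i x|) ^ 2 = ∑ x ∈ S i, t.q i x * t.xi B i x ^ 2 := by
    refine Finset.sum_congr rfl fun x hx => ?_
    rw [mul_pow, Real.sq_sqrt (t.q_nn i x hx), sq_abs]
  rw [e1, e2, e3, one_mul] at h
  exact h

theorem sum_q_xi (i : I) : |∑ x ∈ S i, t.q i x * t.xi B i x| ≤ 1 := by
  have h1 : ∑ x ∈ S i, t.q i x * t.xi B i x = ∑ x ∈ S i, t.q i x * hwk B (t.r i x) - 1 := by
    rw [← t.q_one i, ← Finset.sum_sub_distrib]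
    refine Finset.sum_congr rfl fun x _ => ?_
    unfold xi
    ring
  have h2 : 0 ≤ ∑ x ∈ S i, t.q i x * hwk B (t.r i x) :=
    Finset.sum_nonneg fun x hx => mul_nonneg (t.q_nn i x hx) (hwk_nonneg (t.r_nn hx))
  have h3 : ∑ x ∈ S i, t.q i x * hwk B (t.r i x) ≤ 1 := by
    rw [← t.q'_one i]
    refine Finset.sum_le_sum fun x hx => ?_
    have := mul_le_mul_of_nonneg_left (hwk_le_self (B := B) (t.r_nn hx)) (t.q_nn i x hx)
    rw [mul_comm (t.q i x) (t.r i x), t.rq hx] at this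
    exact this
  rw [h1, abs_le]
  constructor <;> linarith

end gen

/-! ## three tops -/

section three

variable {φ : Type*} {S : Fin 3 → Finset φ} (t : KT S) {B : ℝ}

/-- distance of a double row from the product -/
def rd2 (x y : φ) : ℝ := ∑ F ∈ Fintype.piFinset S, ind (F 0 = x ∧ F 1 = y) * |t.p F - t.mg2 0 1 x y * t.q 2 (F 2)|

theorem prod_xi (F : Fin 3 → φ) : ∏ i, hwk B (t.r i (F i)) =
    1 + t.xi B 0 (F 0) + t.xi B 1 (F 1) + t.xi B 2 (F 2) + t.xi B 0 (F 0) * t.xi B 1 (F 1) +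
      t.xi B 0 (F 0) * t.xi B 2 (F 2) + t.xi B 1 (F 1) * t.xi B 2 (F 2) +
      t.xi B 0 (F 0) * t.xi B 1 (F 1) * t.xi B 2 (F 2) := by
  unfold xi
  rw [Fin.prod_univ_three]
  ring

theorem sum_diff : ∑ F ∈ Fintype.piFinset S, (t.p F - t.pq F) = 0 := by
  have h := t.sum_diff_one 0 (fun _ => 1)
  simp only [mul_one] at h
  rw [h, Finset.sum_sub_distrib, t.mg_one, t.q_one, sub_self]

/-- expansion -/
theorem WK_eq : t.WK B = ∑ i, t.ph B i +
    (∑ F ∈ Fintype.piFinset S, (t.p F - t.pq F) * (t.xi B 0 (F 0) * t.xi B 1 (F 1)) +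
      ∑ F ∈ Fintype.piFinset S, (t.p F - t.pq F) * (t.xi B 0 (F 0) * t.xi B 2 (F 2)) +
      ∑ F ∈ Fintype.piFinset S, (t.p F - t.pq F) * (t.xi B 1 (F 1) * t.xi B 2 (F 2))) +
    ∑ F ∈ Fintype.piFinset S, (t.p F - t.pq F) * (t.xi B 0 (F 0) * t.xi B 1 (F 1) * t.xi B 2 (F 2)) := by
  unfold WK ph
  rw [Fin.sum_univ_three, ← t.sum_diff_one 0 (t.xi B 0), ← t.sum_diff_one 1 (t.xi B 1), ← t.sum_diff_one 2 (t.xi B 2)]
  rw [← Finset.sum_add_distrib, ← Finset.sum_add_distrib, ← Finset.sum_add_distrib, ← Finset.sum_add_distrib,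
    ← Finset.sum_add_distrib, ← Finset.sum_add_distrib]
  have h := t.sum_diff
  have e : ∀ F ∈ Fintype.piFinset S, (∏ i, hwk B (t.r i (F i))) * (t.p F - t.pq F) = (t.p F - t.pq F) +
      ((t.p F - t.pq F) * t.xi B 0 (F 0) + (t.p F - t.pq F) * t.xi B 1 (F 1) + (t.p F - t.pq F) * t.xi B 2 (F 2) +
        ((t.p F - t.pq F) * (t.xi B 0 (F 0) * t.xi B 1 (F 1)) + (t.p F - t.pq F) * (t.xi B 0 (F 0) * t.xi B 2 (F 2)) +
          (t.p F - t.pq F) * (t.xi B 1 (F 1) * t.xi B 2 (F 2))) +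
        (t.p F - t.pq F) * (t.xi B 0 (F 0) * t.xi B 1 (F 1) * t.xi B 2 (F 2))) := by
    intro F _
    rw [t.prod_xi F]
    ring
  rw [Finset.sum_congr rfl e, Finset.sum_add_distrib, h, zero_add]

/-- the triple term -/
theorem triple_le (hB : 1 ≤ B) :
    |∑ F ∈ Fintype.piFinset S, (t.p F - t.pq F) * (t.xi B 0 (F 0) * t.xi B 1 (F 1) * t.xi B 2 (F 2))| ≤
      t.PA B 0 1 + B * ∑ x ∈ S 0, ∑ y ∈ S 1, |t.xi B 0 x| * |t.xi B 1 y| * t.rd2 x y := by
  classical
  have e1 : ∑ F ∈ Fintype.piFinset S, (t.p F - t.pq F) * (t.xi B 0 (F 0) * t.xi B 1 (F 1) * t.xi B 2 (F 2)) =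
      (∑ F ∈ Fintype.piFinset S, (t.mg2 0 1 (F 0) (F 1) * t.q 2 (F 2) - t.pq F) *
        (t.xi B 0 (F 0) * t.xi B 1 (F 1) * t.xi B 2 (F 2))) +
      ∑ F ∈ Fintype.piFinset S, (t.p F - t.mg2 0 1 (F 0) (F 1) * t.q 2 (F 2)) *
        (t.xi B 0 (F 0) * t.xi B 1 (F 1) * t.xi B 2 (F 2)) := by
    rw [← Finset.sum_add_distrib]
    exact Finset.sum_congr rfl fun F _ => by ring
  have e2 : ∑ F ∈ Fintype.piFinset S, (t.mg2 0 1 (F 0) (F 1) * t.q 2 (F 2) - t.pq F) *
        (t.xi B 0 (F 0) * t.xi B 1 (F 1) * t.xi B 2 (F 2)) =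
      (∑ x ∈ S 0, ∑ y ∈ S 1, (t.mg2 0 1 x y - t.q 0 x * t.q 1 y) * (t.xi B 0 x * t.xi B 1 y)) *
        ∑ z ∈ S 2, t.q 2 z * t.xi B 2 z := by
    have h1 : ∀ F ∈ Fintype.piFinset S, (t.mg2 0 1 (F 0) (F 1) * t.q 2 (F 2) - t.pq F) *
        (t.xi B 0 (F 0) * t.xi B 1 (F 1) * t.xi B 2 (F 2)) =
        ((t.q 2 (F 2) * t.xi B 2 (F 2)) * ((t.mg2 0 1 (F 0) (F 1) - t.q 0 (F 0) * t.q 1 (F 1)) *
          (t.xi B 0 (F 0) * t.xi B 1 (F 1)))) := by
      intro F _
      unfold pq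
      rw [Fin.prod_univ_three]
      ring
    rw [Finset.sum_congr rfl h1]
    have h2 : ∑ F ∈ Fintype.piFinset S, ((t.q 2 (F 2) * t.xi B 2 (F 2)) * ((t.mg2 0 1 (F 0) (F 1) -
        t.q 0 (F 0) * t.q 1 (F 1)) * (t.xi B 0 (F 0) * t.xi B 1 (F 1)))) =
        ∑ x ∈ S 0, ∑ y ∈ S 1, (∑ F ∈ Fintype.piFinset S, ind (F 0 = x ∧ F 1 = y) * (t.q 2 (F 2) * t.xi B 2 (F 2))) *
          ((t.mg2 0 1 x y - t.q 0 x * t.q 1 y) * (t.xi B 0 x * t.xi B 1 y)) := by
      have h3 : ∀ F ∈ Fintype.piFinset S, (t.q 2 (F 2) * t.xi B 2 (F 2)) * ((t.mg2 0 1 (F 0) (F 1) -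
        t.q 0 (F 0) * t.q 1 (F 1)) * (t.xi B 0 (F 0) * t.xi B 1 (F 1))) =
          ∑ x ∈ S 0, ∑ y ∈ S 1, (ind (F 0 = x ∧ F 1 = y) * (t.q 2 (F 2) * t.xi B 2 (F 2))) *
            ((t.mg2 0 1 x y - t.q 0 x * t.q 1 y) * (t.xi B 0 x * t.xi B 1 y)) := by
        intro F hF
        have hm := Fintype.mem_piFinset.1 hF
        rw [Finset.sum_eq_single (F 0)]
        · rw [Finset.sum_eq_single (F 1)]
          · rw [ind_of ⟨rfl, rfl⟩, one_mul]
          · intro y _ hy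
            rw [ind_not (fun hh => hy hh.2.symm), zero_mul, zero_mul]
          · intro hh; exact absurd (hm 1) hh
        · intro x _ hx
          refine Finset.sum_eq_zero fun y _ => ?_
          rw [ind_not (fun hh => hx hh.1.symm), zero_mul, zero_mul]
        · intro hh; exact absurd (hm 0) hh
      rw [Finset.sum_congr rfl h3, Finset.sum_comm]
      refine Finset.sum_congr rfl fun x _ => ?_
      rw [Finset.sum_comm]
      refine Finset.sum_congr rfl fun y _ => ?_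
      rw [Finset.sum_mul]
    rw [h2, Finset.sum_mul]
    refine Finset.sum_congr rfl fun x hx => ?_
    rw [Finset.sum_mul]
    refine Finset.sum_congr rfl fun y hy => ?_
    have h4 : ∑ F ∈ Fintype.piFinset S, ind (F 0 = x ∧ F 1 = y) * (t.q 2 (F 2) * t.xi B 2 (F 2)) =
        ∑ z ∈ S 2, t.q 2 z * t.xi B 2 z := by
      have h5 : ∀ F : Fin 3 → φ, ind (F 0 = x ∧ F 1 = y) * (t.q 2 (F 2) * t.xi B 2 (F 2)) =
          ∏ i, (![fun z => ind (z = x), fun z => ind (z = y), fun z => t.q 2 z * t.xi B 2 z] : Fin 3 → φ → ℝ) i (F i) := by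
        intro F
        rw [Fin.prod_univ_three]
        simp only [Matrix.cons_val_zero, Matrix.cons_val_one, Matrix.cons_val]
        rw [ind_and]
      rw [Finset.sum_congr rfl fun F _ => h5 F, ← Finset.prod_univ_sum, Fin.prod_univ_three]
      simp only [Matrix.cons_val_zero, Matrix.cons_val_one, Matrix.cons_val]
      have h6 : ∑ z ∈ S 0, ind (z = x) = 1 := by
        rw [Finset.sum_eq_single x]
        · exact ind_of rfl
        · intro z _ hz; exact ind_not hz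
        · intro hh; exact absurd hx hh
      have h7 : ∑ z ∈ S 1, ind (z = y) = 1 := by
        rw [Finset.sum_eq_single y]
        · exact ind_of rfl
        · intro z _ hz; exact ind_not hz
        · intro hh; exact absurd hy hh
      rw [h6, h7, one_mul, one_mul]
    rw [h4]
    ring
  have e3 : |∑ F ∈ Fintype.piFinset S, (t.p F - t.mg2 0 1 (F 0) (F 1) * t.q 2 (F 2)) *
        (t.xi B 0 (F 0) * t.xi B 1 (F 1) * t.xi B 2 (F 2))| ≤
      B * ∑ x ∈ S 0, ∑ y ∈ S 1, |t.xi B 0 x| * |t.xi B 1 y| * t.rd2 x y := by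
    have h1 := sum_two (S := S) 0 1 (fun F => |t.p F - t.mg2 0 1 (F 0) (F 1) * t.q 2 (F 2)|)
      (fun x => |t.xi B 0 x|) (fun y => |t.xi B 1 y|)
    have h2 : ∑ x ∈ S 0, ∑ y ∈ S 1, |t.xi B 0 x| * |t.xi B 1 y| * t.rd2 x y =
        ∑ F ∈ Fintype.piFinset S, |t.p F - t.mg2 0 1 (F 0) (F 1) * t.q 2 (F 2)| *
          (|t.xi B 0 (F 0)| * |t.xi B 1 (F 1)|) := by
      rw [h1]
      refine Finset.sum_congr rfl fun x _ => Finset.sum_congr rfl fun y _ => ?_
      unfold rd2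
      rw [mul_comm]
      congr 1
      refine Finset.sum_congr rfl fun F _ => ?_
      by_cases hh : F 0 = x ∧ F 1 = y
      · rw [hh.1, hh.2]
      · rw [ind_not hh, zero_mul, zero_mul]
    rw [h2, Finset.mul_sum]
    refine (Finset.abs_sum_le_sum_abs _ _).trans (Finset.sum_le_sum fun F hF => ?_)
    rw [abs_mul, abs_mul, abs_mul]
    have h3 := t.abs_xi_le hB (Fintype.mem_piFinset.1 hF 2)
    have h4 : 0 ≤ |t.p F - t.mg2 0 1 (F 0) (F 1) * t.q 2 (F 2)| * (|t.xi B 0 (F 0)| * |t.xi B 1 (F 1)|) := by positivity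
    have h5 := mul_le_mul_of_nonneg_left h3 h4
    linarith
  rw [e1, e2]
  refine (abs_add_le _ _).trans (add_le_add ?_ e3)
  rw [abs_mul]
  have h1 : |∑ x ∈ S 0, ∑ y ∈ S 1, (t.mg2 0 1 x y - t.q 0 x * t.q 1 y) * (t.xi B 0 x * t.xi B 1 y)| ≤ t.PA B 0 1 := by
    refine (Finset.abs_sum_le_sum_abs _ _).trans (Finset.sum_le_sum fun x _ => ?_)
    refine (Finset.abs_sum_le_sum_abs _ _).trans (Finset.sum_le_sum fun y _ => ?_)
    rw [abs_mul, abs_mul]
  exact (mul_le_of_le_one_right (abs_nonneg _) (t.sum_q_xi 2)).trans h1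

theorem sum_fib {x y : φ} (hx : x ∈ S 0) (hy : y ∈ S 1) (g : φ → ℝ) :
    ∑ F ∈ Fintype.piFinset S, ind (F 0 = x ∧ F 1 = y) * g (F 2) = ∑ z ∈ S 2, g z := by
  classical
  have h5 : ∀ F : Fin 3 → φ, ind (F 0 = x ∧ F 1 = y) * g (F 2) =
      ∏ i, (![fun z => ind (z = x), fun z => ind (z = y), g] : Fin 3 → φ → ℝ) i (F i) := by
    intro F
    rw [Fin.prod_univ_three]
    simp only [Matrix.cons_val_zero, Matrix.cons_val_one, Matrix.cons_val]
    rw [ind_and]
  rw [Finset.sum_congr rfl fun F _ => h5 F, ← Finset.prod_univ_sum, Fin.prod_univ_three]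
  simp only [Matrix.cons_val_zero, Matrix.cons_val_one, Matrix.cons_val]
  have h6 : ∑ z ∈ S 0, ind (z = x) = 1 := by
    rw [Finset.sum_eq_single x]
    · exact ind_of rfl
    · intro z _ hz; exact ind_not hz
    · intro hh; exact absurd hx hh
  have h7 : ∑ z ∈ S 1, ind (z = y) = 1 := by
    rw [Finset.sum_eq_single y]
    · exact ind_of rfl
    · intro z _ hz; exact ind_not hz
    · intro hh; exact absurd hy hh
  rw [h6, h7, one_mul, one_mul]

theorem rd2_le {x y : φ} (hx : x ∈ S 0) (hy : y ∈ S 1) : t.rd2 x y ≤ 2 * t.mg2 0 1 x y := by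
  have h1 : t.rd2 x y ≤ ∑ F ∈ Fintype.piFinset S, (ind (F 0 = x ∧ F 1 = y) * t.p F +
      t.mg2 0 1 x y * (ind (F 0 = x ∧ F 1 = y) * t.q 2 (F 2))) := by
    unfold rd2
    refine Finset.sum_le_sum fun F hF => ?_
    have g1 := t.p_nn F hF
    have g2 := t.mg2_nn 0 1 x y
    have g3 := t.q_nn 2 _ (Fintype.mem_piFinset.1 hF 2)
    have g4 : |t.p F - t.mg2 0 1 x y * t.q 2 (F 2)| ≤ t.p F + t.mg2 0 1 x y * t.q 2 (F 2) := by
      rw [abs_le]
      have := mul_nonneg g2 g3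
      constructor <;> linarith
    have := mul_le_mul_of_nonneg_left g4 (ind_nonneg (F 0 = x ∧ F 1 = y))
    linarith
  rw [Finset.sum_add_distrib, ← Finset.mul_sum, sum_fib hx hy (t.q 2), t.q_one, mul_one] at h1
  have h2 : ∑ F ∈ Fintype.piFinset S, ind (F 0 = x ∧ F 1 = y) * t.p F = t.mg2 0 1 x y := rfl
  linarith

/-- mass of the pairs in `H` with the weights of `xi` -/
def HB (B : ℝ) (H : φ → φ → Prop) : ℝ :=
  ∑ x ∈ S 0, ∑ y ∈ S 1, ind (H x y) * t.mg2 0 1 x y * (|t.xi B 0 x| * |t.xi B 1 y|)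

/-- **no strong letter: all terms** -/
theorem WK_le (hB : 1 ≤ B) {dd : ℝ} (hdd : 0 ≤ dd) {H : φ → φ → Prop}
    (hH : ∀ x ∈ S 0, ∀ y ∈ S 1, ¬ H x y → t.rd2 x y ≤ dd * t.mg2 0 1 x y) :
    t.WK B ≤ ∑ i, t.ph B i + ((2 + B * dd) * t.PA B 0 1 + t.PA B 0 2 + t.PA B 1 2) + B * dd * (t.mx B 0 * t.mx B 1) +
      2 * B * t.HB B H := by
  have h01 := le_trans (le_abs_self _) (t.pair_le (B := B) (show (0 : Fin 3) ≠ 1 by decide))
  have h02 := le_trans (le_abs_self _) (t.pair_le (B := B) (show (0 : Fin 3) ≠ 2 by decide))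
  have h12 := le_trans (le_abs_self _) (t.pair_le (B := B) (show (1 : Fin 3) ≠ 2 by decide))
  have h3 := le_trans (le_abs_self _) (t.triple_le hB)
  have h4 : ∑ x ∈ S 0, ∑ y ∈ S 1, |t.xi B 0 x| * |t.xi B 1 y| * t.rd2 x y ≤
      dd * (t.PA B 0 1 + t.mx B 0 * t.mx B 1) + 2 * t.HB B H := by
    have h5 : dd * (t.PA B 0 1 + t.mx B 0 * t.mx B 1) + 2 * t.HB B H =
        ∑ x ∈ S 0, ∑ y ∈ S 1, (dd * (|t.mg2 0 1 x y - t.q 0 x * t.q 1 y| * (|t.xi B 0 x| * |t.xi B 1 y|) +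
          (t.q 0 x * |t.xi B 0 x|) * (t.q 1 y * |t.xi B 1 y|)) +
          2 * (ind (H x y) * t.mg2 0 1 x y * (|t.xi B 0 x| * |t.xi B 1 y|))) := by
      unfold PA mx HB
      rw [Finset.sum_mul_sum, ← Finset.sum_add_distrib, Finset.mul_sum, Finset.mul_sum, ← Finset.sum_add_distrib]
      refine Finset.sum_congr rfl fun x _ => ?_
      rw [← Finset.sum_add_distrib, Finset.mul_sum, Finset.mul_sum, ← Finset.sum_add_distrib]
    rw [h5]
    refine Finset.sum_le_sum fun x hx => Finset.sum_le_sum fun y hy => ?_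
    have g1 := t.mg2_nn 0 1 x y
    have g2 := t.q_nn 0 x hx
    have g3 := t.q_nn 1 y hy
    have g4 : t.mg2 0 1 x y ≤ |t.mg2 0 1 x y - t.q 0 x * t.q 1 y| + t.q 0 x * t.q 1 y := by
      have := le_abs_self (t.mg2 0 1 x y - t.q 0 x * t.q 1 y)
      linarith
    have g5 : 0 ≤ |t.xi B 0 x| * |t.xi B 1 y| := by positivity
    have g6 := mul_le_mul_of_nonneg_left g4 (mul_nonneg hdd g5)
    by_cases h : H x y
    · have g7 := mul_le_mul_of_nonneg_left (t.rd2_le hx hy) g5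
      rw [ind_of h, one_mul]
      have g8 : 0 ≤ dd * (|t.mg2 0 1 x y - t.q 0 x * t.q 1 y| * (|t.xi B 0 x| * |t.xi B 1 y|) +
          (t.q 0 x * |t.xi B 0 x|) * (t.q 1 y * |t.xi B 1 y|)) := by positivity
      linarith
    · have g7 := mul_le_mul_of_nonneg_left (hH x hx y hy h) g5
      rw [ind_not h]
      linarith
  have h6 := mul_le_mul_of_nonneg_left h4 (show (0 : ℝ) ≤ B by linarith)
  rw [t.WK_eq]
  linarith

theorem abs_ph_le (hB : 1 ≤ B) (i : Fin 3) : |t.ph B i| ≤ B * ∑ x ∈ S i, |t.mg i x - t.q i x| := by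
  unfold ph
  rw [Finset.mul_sum]
  refine (Finset.abs_sum_le_sum_abs _ _).trans (Finset.sum_le_sum fun x hx => ?_)
  rw [abs_mul, mul_comm]
  exact mul_le_mul_of_nonneg_right (t.abs_xi_le hB hx) (abs_nonneg _)

theorem abs_ph_le2 (hB : 1 ≤ B) (i : Fin 3) : |t.ph B i| ≤ 2 * B := by
  have h1 := t.abs_ph_le hB i
  have h2 : ∑ x ∈ S i, |t.mg i x - t.q i x| ≤ ∑ x ∈ S i, (t.mg i x + t.q i x) := by
    refine Finset.sum_le_sum fun x hx => ?_
    have g1 := t.mg_nn i x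
    have g2 := t.q_nn i x hx
    rw [abs_le]
    constructor <;> linarith
  rw [Finset.sum_add_distrib, t.mg_one, t.q_one] at h2
  have h3 := mul_le_mul_of_nonneg_left h2 (show (0 : ℝ) ≤ B by linarith)
  linarith

/-- **no strong letter, the law is close to the product** -/
theorem WK_le_close (hB : 1 ≤ B) {d dh : ℝ} (hd : 0 ≤ d) (h1 : ∀ i, ∑ x ∈ S i, |t.mg i x - t.q i x| ≤ dh)
    (h2 : ∑ F ∈ Fintype.piFinset S, max (|t.p F - t.pq F| - d * t.pq F) 0 ≤ dh) :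
    t.WK B ≤ (3 * B + 3 * B ^ 2 + B ^ 3) * dh +
      d * ((1 + B) * (t.mx B 0 * t.mx B 1) + t.mx B 0 * t.mx B 2 + t.mx B 1 * t.mx B 2) := by
  have hB0 : (0 : ℝ) ≤ B := by linarith
  have k1 : ∑ i, t.ph B i ≤ 3 * B * dh := by
    rw [Fin.sum_univ_three]
    have g := fun i => (le_abs_self _).trans ((t.abs_ph_le hB i).trans (mul_le_mul_of_nonneg_left (h1 i) hB0))
    linarith [g 0, g 1, g 2]
  -- products
  have k2 : ∀ i k : Fin 3, i ≠ k → ∀ C : ℝ, 0 ≤ C → ∀ f : (Fin 3 → φ) → ℝ, (∀ F ∈ Fintype.piFinset S, |f F| ≤ C) →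
      ∑ F ∈ Fintype.piFinset S, (t.p F - t.pq F) * (t.xi B i (F i) * t.xi B k (F k) * f F) ≤
        C * B ^ 2 * dh + d * C * (t.mx B i * t.mx B k) := by
    intro i k hik C hC f hf
    have e1 := t.sum_pq_two hik (fun x => |t.xi B i x|) (fun y => |t.xi B k y|)
    have e2 : ∑ F ∈ Fintype.piFinset S, (t.p F - t.pq F) * (t.xi B i (F i) * t.xi B k (F k) * f F) ≤
        ∑ F ∈ Fintype.piFinset S, (C * B ^ 2 * max (|t.p F - t.pq F| - d * t.pq F) 0 +
          d * C * (t.pq F * (|t.xi B i (F i)| * |t.xi B k (F k)|))) := by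
      refine Finset.sum_le_sum fun F hF => ?_
      have hm := Fintype.mem_piFinset.1 hF
      refine (le_abs_self _).trans ?_
      rw [abs_mul, abs_mul, abs_mul]
      have g1 := hf F hF
      have g2 := t.abs_xi_le hB (hm i)
      have g3 := t.abs_xi_le hB (hm k)
      have g4 := t.pq_nn hF
      have g5 : |t.p F - t.pq F| ≤ max (|t.p F - t.pq F| - d * t.pq F) 0 + d * t.pq F := by
        have := le_max_left (|t.p F - t.pq F| - d * t.pq F) 0
        linarith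
      have g6 : 0 ≤ |t.xi B i (F i)| * |t.xi B k (F k)| := by positivity
      have g7 : |t.xi B i (F i)| * |t.xi B k (F k)| * |f F| ≤ |t.xi B i (F i)| * |t.xi B k (F k)| * C :=
        mul_le_mul_of_nonneg_left g1 g6
      have g8 : |t.xi B i (F i)| * |t.xi B k (F k)| ≤ B ^ 2 := by
        rw [pow_two]; exact mul_le_mul g2 g3 (abs_nonneg _) hB0
      have g9 : 0 ≤ max (|t.p F - t.pq F| - d * t.pq F) 0 := le_max_right _ _
      have g10 := mul_le_mul_of_nonneg_left g7 (abs_nonneg (t.p F - t.pq F))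
      have g11 := mul_le_mul_of_nonneg_right g5 (mul_nonneg g6 hC)
      have g12 := mul_le_mul_of_nonneg_left g8 (mul_nonneg g9 hC)
      nlinarith
    refine e2.trans ?_
    rw [Finset.sum_add_distrib, ← Finset.mul_sum, ← Finset.mul_sum, e1]
    have g1 := mul_le_mul_of_nonneg_left h2 (show 0 ≤ C * B ^ 2 by positivity)
    unfold mx
    linarith
  have m01 := k2 0 1 (by decide) 1 zero_le_one (fun _ => 1) (fun F _ => by rw [abs_one])
  have m02 := k2 0 2 (by decide) 1 zero_le_one (fun _ => 1) (fun F _ => by rw [abs_one])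
  have m12 := k2 1 2 (by decide) 1 zero_le_one (fun _ => 1) (fun F _ => by rw [abs_one])
  have m3 := k2 0 1 (by decide) B hB0 (fun F => t.xi B 2 (F 2)) (fun F hF =>
    t.abs_xi_le hB (Fintype.mem_piFinset.1 hF 2))
  simp only [mul_one] at m01 m02 m12
  rw [t.WK_eq]
  nlinarith

end three

end KT

end

end Pool.Agent.GMH
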