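import Pool.Agent.GMH.Key3U

/-!
# GMH.Key3W: the weak part at one point by good rows, bad pairs and superhot rows (helper78)

Tables `KT` of `GMH/Key3T`, `xi` of `GMH/Key3U`.  `Qx i = ∑ q_i xi²`, `Mx i = ∑ mg_i xi²`, `Tv i = ∑ |mg_i - q_i|`.
* `PF i k` = `∑_F |p - ∏ q| |xi_i| |xi_k|`;
* `PF_le` : rows good outside `bd` (`dd ≤ e²`), bad letters of mass `≤ e²`:
  `PF ≤ B² (Tv i + Tv k) + e (..) (Mx, Qx) + ∑_(bad, bad) mg2 |xi| |xi|`;
* `bb_le` : the bad pairs by the superhot rows `HX` (`K mg mg < mg2` has row mass `≥ th`);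
* `WK_le_sh` : the whole weak part.
-/

set_option autoImplicit false
set_option linter.unusedSectionVars false
set_option linter.unusedVariables false

namespace Pool.Agent.GMH

open Finset Pool.Agent.PWZ Pool.Agent.M3

noncomputable section

namespace KT

section gen

variable {I φ : Type*} [Fintype I] [DecidableEq I] {S : I → Finset φ} (t : KT S) {B : ℝ}

/-- second moment of `xi`, own law -/
def Qx (B : ℝ) (i : I) : ℝ := ∑ x ∈ S i, t.q i x * t.xi B i x ^ 2

/-- second moment of `xi`, marginal -/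
def Mx (B : ℝ) (i : I) : ℝ := ∑ x ∈ S i, t.mg i x * t.xi B i x ^ 2

/-- distance of the two laws of a letter -/
def Tv (i : I) : ℝ := ∑ x ∈ S i, |t.mg i x - t.q i x|

theorem Qx_nn (i : I) : 0 ≤ t.Qx B i := Finset.sum_nonneg fun x hx => mul_nonneg (t.q_nn i x hx) (sq_nonneg _)

theorem Mx_nn (i : I) : 0 ≤ t.Mx B i := Finset.sum_nonneg fun x hx => mul_nonneg (t.mg_nn i x) (sq_nonneg _)

theorem Tv_nn (i : I) : 0 ≤ t.Tv i := Finset.sum_nonneg fun x _ => abs_nonneg _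

theorem xi_sq_le (hB : 1 ≤ B) {i : I} {x : φ} (hx : x ∈ S i) : t.xi B i x ^ 2 ≤ B ^ 2 := by
  rw [← sq_abs (t.xi B i x)]
  exact pow_le_pow_left₀ (abs_nonneg _) (t.abs_xi_le hB hx) 2

theorem Mx_le (hB : 1 ≤ B) (i : I) : t.Mx B i ≤ t.Qx B i + B ^ 2 * t.Tv i := by
  unfold Mx Qx Tv
  rw [Finset.mul_sum, ← Finset.sum_add_distrib]
  refine Finset.sum_le_sum fun x hx => ?_
  have h1 := t.xi_sq_le hB hx
  have h2 := le_abs_self (t.mg i x - t.q i x)
  have h3 := abs_nonneg (t.mg i x - t.q i x)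
  have h4 : (t.mg i x - t.q i x) * t.xi B i x ^ 2 ≤ |t.mg i x - t.q i x| * B ^ 2 :=
    (mul_le_mul_of_nonneg_right h2 (sq_nonneg _)).trans (mul_le_mul_of_nonneg_left h1 h3)
  linarith

/-- absolute second order term of two tops, all tuples -/
def PF (B : ℝ) (i k : I) : ℝ :=
  ∑ F ∈ Fintype.piFinset S, |t.p F - t.pq F| * (|t.xi B i (F i)| * |t.xi B k (F k)|)

theorem rowd_pq (i : I) {F : I → φ} (hF : F ∈ Fintype.piFinset S) :
    |t.p F - t.pq F| ≤ t.rowd i F + |t.mg i (F i) - t.q i (F i)| * ∏ k ∈ univ.erase i, t.q k (F k) := by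
  have hm := Fintype.mem_piFinset.1 hF
  have h0 : 0 ≤ ∏ k ∈ univ.erase i, t.q k (F k) := Finset.prod_nonneg fun k _ => t.q_nn k _ (hm k)
  have e : t.p F - t.pq F = (t.p F - t.mg i (F i) * ∏ k ∈ univ.erase i, t.q k (F k)) +
      (t.mg i (F i) - t.q i (F i)) * ∏ k ∈ univ.erase i, t.q k (F k) := by
    unfold pq
    rw [← Finset.mul_prod_erase univ (fun j => t.q j (F j)) (mem_univ i)]
    ring
  rw [e]
  refine (abs_add_le _ _).trans ?_
  rw [abs_mul, abs_of_nonneg h0]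
  rfl

/-- sums over all tuples, one letter with a weight and another with a function -/
theorem sum_A_two {i k : I} (hik : i ≠ k) (A g : φ → ℝ) :
    ∑ F ∈ Fintype.piFinset S, (A (F i) * ∏ j ∈ univ.erase i, t.q j (F j)) * g (F k) =
      (∑ x ∈ S i, A x) * ∑ y ∈ S k, t.q k y * g y := by
  classical
  have h1 : ∀ F : I → φ, (A (F i) * ∏ j ∈ univ.erase i, t.q j (F j)) * g (F k) =
      A (F i) * ∏ j ∈ univ.erase i, (t.q j (F j) * if j = k then g (F j) else 1) := by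
    intro F
    rw [Finset.prod_mul_distrib]
    have e : ∏ j ∈ univ.erase i, (if j = k then g (F j) else 1) = g (F k) := by
      rw [Finset.prod_ite_eq' (univ.erase i) k (fun j => g (F j)), if_pos (Finset.mem_erase.2 ⟨hik.symm, mem_univ k⟩)]
    rw [e]
    ring
  rw [Finset.sum_congr rfl fun F _ => h1 F]
  have h2 := sum_prod_at S i A (fun j y => t.q j y * if j = k then g y else 1)
  rw [h2]
  congr 1
  rw [← Finset.mul_prod_erase (univ.erase i) _ (Finset.mem_erase.2 ⟨hik.symm, mem_univ k⟩)]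
  have e2 : ∏ j ∈ (univ.erase i).erase k, ∑ y ∈ S j, t.q j y * (if j = k then g y else 1) = 1 := by
    refine Finset.prod_eq_one fun j hj => ?_
    refine Eq.trans (Finset.sum_congr rfl fun y _ => ?_) (t.q_one j)
    rw [if_neg (Finset.ne_of_mem_erase hj), mul_one]
  rw [e2, mul_one]
  simp only [if_true]

/-- the rows of one top tested by another -/
theorem sum_rowd {i k : I} (hik : i ≠ k) {g : φ → ℝ} (hg : ∀ y, 0 ≤ g y) :
    ∑ F ∈ Fintype.piFinset S, t.rowd i F * g (F k) ≤ ∑ y ∈ S k, t.mg k y * g y + ∑ y ∈ S k, t.q k y * g y := by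
  have h1 : ∑ F ∈ Fintype.piFinset S, t.rowd i F * g (F k) ≤ ∑ F ∈ Fintype.piFinset S, (t.p F * g (F k) +
      (t.mg i (F i) * ∏ j ∈ univ.erase i, t.q j (F j)) * g (F k)) := by
    refine Finset.sum_le_sum fun F hF => ?_
    have hm := Fintype.mem_piFinset.1 hF
    have h0 : 0 ≤ t.mg i (F i) * ∏ k ∈ univ.erase i, t.q k (F k) :=
      mul_nonneg (t.mg_nn _ _) (Finset.prod_nonneg fun k _ => t.q_nn k _ (hm k))
    have h2 : t.rowd i F ≤ t.p F + t.mg i (F i) * ∏ k ∈ univ.erase i, t.q k (F k) := by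
      unfold rowd
      have := abs_sub (t.p F) (t.mg i (F i) * ∏ k ∈ univ.erase i, t.q k (F k))
      rw [abs_of_nonneg (t.p_nn F hF), abs_of_nonneg h0] at this
      exact this
    have := mul_le_mul_of_nonneg_right h2 (hg (F k))
    linarith
  refine h1.trans (le_of_eq ?_)
  rw [Finset.sum_add_distrib, t.sum_mg k g, t.sum_A_two hik (t.mg i) g, t.mg_one, one_mul]

theorem amgm {e a b : ℝ} (he : 0 < e) (ha : 0 ≤ a) (hb : 0 ≤ b) : a * b ≤ (a ^ 2 / e + e * b ^ 2) / 2 := by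
  have h : 0 ≤ (a - e * b) ^ 2 / e := div_nonneg (sq_nonneg _) he.le
  have e1 : (a - e * b) ^ 2 / e = a ^ 2 / e - 2 * (a * b) + e * b ^ 2 := by
    field_simp
    ring
  linarith

variable {bd : I → φ → Prop} {dd e : ℝ}

/-- **GOOD ROWS** -/
theorem good_part (hB : 1 ≤ B) (he : 0 < e) (hd : dd ≤ e ^ 2) {i k : I} (hik : i ≠ k)
    (hgood : ∀ x ∈ S i, ¬ bd i x → ∑ F ∈ Fintype.piFinset S, ind (F i = x) * t.rowd i F ≤ dd * t.mg i x) :
    ∑ F ∈ Fintype.piFinset S, ind (¬ bd i (F i)) * (|t.p F - t.pq F| * (|t.xi B i (F i)| * |t.xi B k (F k)|)) ≤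
      B ^ 2 * t.Tv i + e / 2 * (t.Mx B i + t.Mx B k + t.Qx B k) := by
  classical
  have hB0 : 0 ≤ B := by linarith
  have h1 : ∀ F ∈ Fintype.piFinset S, ind (¬ bd i (F i)) * (|t.p F - t.pq F| * (|t.xi B i (F i)| * |t.xi B k (F k)|)) ≤
      (|t.mg i (F i) - t.q i (F i)| * ∏ j ∈ univ.erase i, t.q j (F j)) * B ^ 2 +
        (ind (¬ bd i (F i)) * t.rowd i F * (t.xi B i (F i) ^ 2 / e / 2) + t.rowd i F * (e / 2 * t.xi B k (F k) ^ 2)) := by
    intro F hF
    have hm := Fintype.mem_piFinset.1 hF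
    have h0 : 0 ≤ ∏ k ∈ univ.erase i, t.q k (F k) := Finset.prod_nonneg fun k _ => t.q_nn k _ (hm k)
    have hr0 : 0 ≤ t.rowd i F := abs_nonneg _
    have a1 := abs_nonneg (t.xi B i (F i))
    have a2 := abs_nonneg (t.xi B k (F k))
    have b1 := t.abs_xi_le hB (hm i)
    have b2 := t.abs_xi_le hB (hm k)
    have c1 : |t.xi B i (F i)| * |t.xi B k (F k)| ≤ B ^ 2 := by
      rw [pow_two]
      exact mul_le_mul b1 b2 a2 hB0
    have c0 : 0 ≤ |t.xi B i (F i)| * |t.xi B k (F k)| := mul_nonneg a1 a2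
    have k1 := t.rowd_pq i hF
    set A := |t.mg i (F i) - t.q i (F i)| * ∏ j ∈ univ.erase i, t.q j (F j) with hA
    have hA0 : 0 ≤ A := mul_nonneg (abs_nonneg _) h0
    by_cases hb : bd i (F i)
    · rw [ind_not (not_not.2 hb), zero_mul, zero_mul, zero_mul, zero_add]
      have : 0 ≤ t.rowd i F * (e / 2 * t.xi B k (F k) ^ 2) := by positivity
      have h3 : 0 ≤ A * B ^ 2 := by positivity
      linarith
    · rw [ind_of hb, one_mul, one_mul]
      have h2 := mul_le_mul_of_nonneg_right k1 c0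
      have h3 : A * (|t.xi B i (F i)| * |t.xi B k (F k)|) ≤ A * B ^ 2 := mul_le_mul_of_nonneg_left c1 hA0
      have h4 := mul_le_mul_of_nonneg_left (amgm he a1 a2) hr0
      rw [sq_abs, sq_abs] at h4
      have e1 : t.rowd i F * ((t.xi B i (F i) ^ 2 / e + e * t.xi B k (F k) ^ 2) / 2) =
          t.rowd i F * (t.xi B i (F i) ^ 2 / e / 2) + t.rowd i F * (e / 2 * t.xi B k (F k) ^ 2) := by ring
      linarith
  refine (Finset.sum_le_sum h1).trans ?_
  rw [Finset.sum_add_distrib, Finset.sum_add_distrib, ← Finset.sum_mul]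
  have g1 : ∑ F ∈ Fintype.piFinset S, |t.mg i (F i) - t.q i (F i)| * ∏ j ∈ univ.erase i, t.q j (F j) = t.Tv i := by
    have h := sum_prod_at S i (fun x => |t.mg i x - t.q i x|) (fun j y => t.q j y)
    rw [h, Finset.prod_eq_one fun k _ => t.q_one k, mul_one]
    rfl
  have g2 : ∑ F ∈ Fintype.piFinset S, ind (¬ bd i (F i)) * t.rowd i F * (t.xi B i (F i) ^ 2 / e / 2) ≤
      e / 2 * t.Mx B i := by
    have h3 : ∀ F ∈ Fintype.piFinset S, ind (¬ bd i (F i)) * t.rowd i F * (t.xi B i (F i) ^ 2 / e / 2) =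
        ∑ x ∈ S i, (ind (¬ bd i x) * (t.xi B i x ^ 2 / e / 2)) * (ind (F i = x) * t.rowd i F) := by
      intro F hF
      rw [Finset.sum_eq_single (F i)]
      · rw [ind_of rfl]; ring
      · intro x _ hx
        have h0 : ind (F i = x) = 0 := ind_not (fun hh => hx hh.symm)
        rw [h0, zero_mul, mul_zero]
      · intro hh
        exact absurd (Fintype.mem_piFinset.1 hF i) hh
    rw [Finset.sum_congr rfl h3, Finset.sum_comm]
    unfold Mx
    rw [Finset.mul_sum]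
    refine Finset.sum_le_sum fun x hx => ?_
    rw [← Finset.mul_sum]
    have hmg := t.mg_nn i x
    by_cases hb : bd i x
    · rw [ind_not (not_not.2 hb), zero_mul, zero_mul]
      positivity
    · rw [ind_of hb, one_mul]
      have h5 := mul_le_mul_of_nonneg_left (hgood x hx hb) (show 0 ≤ t.xi B i x ^ 2 / e / 2 by positivity)
      have h6 : t.xi B i x ^ 2 / e / 2 * (dd * t.mg i x) ≤ t.xi B i x ^ 2 / e / 2 * (e ^ 2 * t.mg i x) :=
        mul_le_mul_of_nonneg_left (mul_le_mul_of_nonneg_right hd hmg) (by positivity)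
      have e1 : t.xi B i x ^ 2 / e / 2 * (e ^ 2 * t.mg i x) = e / 2 * (t.mg i x * t.xi B i x ^ 2) := by
        field_simp
      linarith
  have g3 := t.sum_rowd (S := S) hik (g := fun y => e / 2 * t.xi B k y ^ 2) (fun y => by positivity)
  have g4 : ∑ y ∈ S k, t.mg k y * (e / 2 * t.xi B k y ^ 2) + ∑ y ∈ S k, t.q k y * (e / 2 * t.xi B k y ^ 2) =
      e / 2 * (t.Mx B k + t.Qx B k) := by
    unfold Mx Qx
    rw [mul_add, Finset.mul_sum, Finset.mul_sum]
    congr 1 <;> exact Finset.sum_congr rfl fun y _ => by ring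
  rw [g4] at g3
  rw [g1]
  have e5 : t.Tv i * B ^ 2 = B ^ 2 * t.Tv i := mul_comm _ _
  rw [e5]
  linarith

/-- the bad pairs -/
def BB (B : ℝ) (bd : I → φ → Prop) (i k : I) : ℝ :=
  ∑ x ∈ S i, ∑ y ∈ S k, t.mg2 i k x y * ((ind (bd i x) * |t.xi B i x|) * (ind (bd k y) * |t.xi B k y|))

/-- `∑_(bad) q |xi|` -/
def qb (B : ℝ) (bd : I → φ → Prop) (i : I) : ℝ := ∑ x ∈ S i, t.q i x * (ind (bd i x) * |t.xi B i x|)

theorem bad_part (hB : 1 ≤ B) {i k : I} (hik : i ≠ k) :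
    ∑ F ∈ Fintype.piFinset S, ind (bd i (F i) ∧ bd k (F k)) *
      (|t.p F - t.pq F| * (|t.xi B i (F i)| * |t.xi B k (F k)|)) ≤ t.BB B bd i k + t.qb B bd i * t.qb B bd k := by
  classical
  have h1 := sum_two (S := S) i k t.p (fun x => ind (bd i x) * |t.xi B i x|) (fun y => ind (bd k y) * |t.xi B k y|)
  have h2 := t.sum_pq_two hik (fun x => ind (bd i x) * |t.xi B i x|) (fun y => ind (bd k y) * |t.xi B k y|)
  have e1 : t.BB B bd i k = ∑ F ∈ Fintype.piFinset S, t.p F * ((ind (bd i (F i)) * |t.xi B i (F i)|) *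
      (ind (bd k (F k)) * |t.xi B k (F k)|)) := h1.symm
  have e2 : t.qb B bd i * t.qb B bd k = ∑ F ∈ Fintype.piFinset S, t.pq F * ((ind (bd i (F i)) * |t.xi B i (F i)|) *
      (ind (bd k (F k)) * |t.xi B k (F k)|)) := h2.symm
  rw [e1, e2, ← Finset.sum_add_distrib]
  refine Finset.sum_le_sum fun F hF => ?_
  rw [ind_and]
  have h3 := t.p_nn F hF
  have h4 := t.pq_nn hF
  have h5 : |t.p F - t.pq F| ≤ t.p F + t.pq F := by
    have := abs_sub (t.p F) (t.pq F)
    rw [abs_of_nonneg h3, abs_of_nonneg h4] at this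
    exact this
  have h6 : 0 ≤ (ind (bd i (F i)) * |t.xi B i (F i)|) * (ind (bd k (F k)) * |t.xi B k (F k)|) :=
    mul_nonneg (mul_nonneg (ind_nonneg _) (abs_nonneg _)) (mul_nonneg (ind_nonneg _) (abs_nonneg _))
  have h7 := mul_le_mul_of_nonneg_right h5 h6
  have e3 : ind (bd i (F i)) * ind (bd k (F k)) * (|t.p F - t.pq F| * (|t.xi B i (F i)| * |t.xi B k (F k)|)) =
      |t.p F - t.pq F| * ((ind (bd i (F i)) * |t.xi B i (F i)|) * (ind (bd k (F k)) * |t.xi B k (F k)|)) := by ring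
  rw [e3]
  linarith

/-- product of two masses of bad letters -/
theorem qb_mul_le {i k : I} (hqi : ∑ x ∈ S i, t.q i x * ind (bd i x) ≤ e ^ 2)
    (hqk : ∑ y ∈ S k, t.q k y * ind (bd k y) ≤ e ^ 2) :
    t.qb B bd i * t.qb B bd k ≤ e ^ 2 / 2 * (t.Qx B i + t.Qx B k) := by
  have key : ∀ j : I, ∑ x ∈ S j, t.q j x * ind (bd j x) ≤ e ^ 2 → t.qb B bd j ^ 2 ≤ e ^ 2 * t.Qx B j := by
    intro j hj
    have h := Finset.sum_mul_sq_le_sq_mul_sq (S j) (fun x => Real.sqrt (t.q j x * ind (bd j x)))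
      (fun x => Real.sqrt (t.q j x) * |t.xi B j x|)
    have e1 : ∑ x ∈ S j, Real.sqrt (t.q j x * ind (bd j x)) * (Real.sqrt (t.q j x) * |t.xi B j x|) = t.qb B bd j := by
      unfold qb
      refine Finset.sum_congr rfl fun x hx => ?_
      have hq := t.q_nn j x hx
      by_cases hb : bd j x
      · rw [ind_of hb, mul_one, one_mul, ← mul_assoc, Real.mul_self_sqrt hq]
      · rw [ind_not hb, mul_zero, Real.sqrt_zero, zero_mul, zero_mul, mul_zero]
    have e2 : ∑ x ∈ S j, Real.sqrt (t.q j x * ind (bd j x)) ^ 2 = ∑ x ∈ S j, t.q j x * ind (bd j x) :=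
      Finset.sum_congr rfl fun x hx => Real.sq_sqrt (mul_nonneg (t.q_nn j x hx) (ind_nonneg _))
    have e3 : ∑ x ∈ S j, (Real.sqrt (t.q j x) * |t.xi B j x|) ^ 2 = t.Qx B j := by
      unfold Qx
      refine Finset.sum_congr rfl fun x hx => ?_
      rw [mul_pow, Real.sq_sqrt (t.q_nn j x hx), sq_abs]
    rw [e1, e2, e3] at h
    exact h.trans (mul_le_mul_of_nonneg_right hj (t.Qx_nn j))
  have h1 := key i hqi
  have h2 := key k hqk
  have h3 : t.qb B bd i * t.qb B bd k ≤ (t.qb B bd i ^ 2 + t.qb B bd k ^ 2) / 2 := by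
    have := sq_nonneg (t.qb B bd i - t.qb B bd k)
    nlinarith
  linarith

theorem PF_comm (i k : I) : t.PF B i k = t.PF B k i := by
  unfold PF
  exact Finset.sum_congr rfl fun F _ => by ring

/-- **PAIRS BY GOOD ROWS AND BAD PAIRS** -/
theorem PF_le (hB : 1 ≤ B) (he : 0 < e) (hd : dd ≤ e ^ 2) {i k : I} (hik : i ≠ k)
    (hgi : ∀ x ∈ S i, ¬ bd i x → ∑ F ∈ Fintype.piFinset S, ind (F i = x) * t.rowd i F ≤ dd * t.mg i x)
    (hgk : ∀ x ∈ S k, ¬ bd k x → ∑ F ∈ Fintype.piFinset S, ind (F k = x) * t.rowd k F ≤ dd * t.mg k x)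
    (hqi : ∑ x ∈ S i, t.q i x * ind (bd i x) ≤ e ^ 2) (hqk : ∑ y ∈ S k, t.q k y * ind (bd k y) ≤ e ^ 2) :
    t.PF B i k ≤ B ^ 2 * (t.Tv i + t.Tv k) + e / 2 * (2 * (t.Mx B i + t.Mx B k) + (t.Qx B i + t.Qx B k)) +
      e ^ 2 / 2 * (t.Qx B i + t.Qx B k) + t.BB B bd i k := by
  have h1 := t.good_part hB he hd hik hgi
  have h2 := t.good_part hB he hd hik.symm hgk
  have h3 := t.bad_part (bd := bd) hB hik
  have h4 := t.qb_mul_le (B := B) hqi hqk
  have h5 : t.PF B i k ≤ ∑ F ∈ Fintype.piFinset S, (ind (¬ bd i (F i)) *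
        (|t.p F - t.pq F| * (|t.xi B i (F i)| * |t.xi B k (F k)|)) +
      ind (¬ bd k (F k)) * (|t.p F - t.pq F| * (|t.xi B k (F k)| * |t.xi B i (F i)|)) +
      ind (bd i (F i) ∧ bd k (F k)) * (|t.p F - t.pq F| * (|t.xi B i (F i)| * |t.xi B k (F k)|))) := by
    refine Finset.sum_le_sum fun F hF => ?_
    have h0 : 0 ≤ |t.p F - t.pq F| * (|t.xi B i (F i)| * |t.xi B k (F k)|) := by positivity
    have e1 : |t.p F - t.pq F| * (|t.xi B k (F k)| * |t.xi B i (F i)|) =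
        |t.p F - t.pq F| * (|t.xi B i (F i)| * |t.xi B k (F k)|) := by ring
    rw [e1, ← add_mul, ← add_mul]
    refine le_mul_of_one_le_left h0 ?_
    by_cases a : bd i (F i) <;> by_cases b : bd k (F k)
    · rw [ind_of (⟨a, b⟩ : bd i (F i) ∧ bd k (F k)), ind_not (not_not.2 a), ind_not (not_not.2 b)]; norm_num
    · rw [ind_of b, ind_not (not_not.2 a), ind_not (fun h => b h.2)]; norm_num
    · rw [ind_of a, ind_not (not_not.2 b), ind_not (fun h => a h.1)]; norm_num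
    · rw [ind_of a, ind_of b, ind_not (fun h => a h.1)]; norm_num
  rw [Finset.sum_add_distrib, Finset.sum_add_distrib] at h5
  linarith

/-! ### superhot pairs -/

theorem mg_eq (i : I) (x : φ) : t.mg i x = ∑ F ∈ Fintype.piFinset S, ind (F i = x) * t.p F := by
  classical
  unfold mg
  rw [Finset.sum_filter]
  refine Finset.sum_congr rfl fun F _ => ?_
  by_cases h : F i = x
  · rw [if_pos h, ind_of h, one_mul]
  · rw [if_neg h, ind_not h, zero_mul]

theorem mg2_sum (i k : I) (x : φ) : ∑ y ∈ S k, t.mg2 i k x y = t.mg i x := by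
  classical
  rw [t.mg_eq i x]
  unfold mg2
  rw [Finset.sum_comm]
  refine Finset.sum_congr rfl fun F hF => ?_
  rw [← Finset.sum_mul]
  congr 1
  have hm := Fintype.mem_piFinset.1 hF
  rw [Finset.sum_eq_single (F k)]
  · by_cases h : F i = x
    · rw [ind_of (⟨h, rfl⟩ : F i = x ∧ F k = F k), ind_of h]
    · rw [ind_not (fun hh => h hh.1), ind_not h]
  · intro y _ hy
    exact ind_not (fun hh => hy hh.2.symm)
  · intro hh
    exact absurd (hm k) hh

theorem mg2_symm (i k : I) (x y : φ) : t.mg2 i k x y = t.mg2 k i y x := by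
  unfold mg2
  refine Finset.sum_congr rfl fun F _ => ?_
  rw [show (F i = x ∧ F k = y) = (F k = y ∧ F i = x) from propext and_comm]

/-- superhot pair -/
def sh (K : ℝ) (i k : I) (x y : φ) : Prop := K * (t.mg i x * t.mg k y) < t.mg2 i k x y

theorem sh_symm (K : ℝ) (i k : I) (x y : φ) : t.sh K i k x y = t.sh K k i y x := by
  unfold sh
  rw [t.mg2_symm i k, mul_comm (t.mg i x)]

/-- superhot mass of a row -/
def rw_ (K : ℝ) (i k : I) (x : φ) : ℝ := ∑ y ∈ S k, ind (t.sh K i k x y) * t.mg2 i k x y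

/-- rows with much superhot mass -/
def HX (B K th : ℝ) (i k : I) : ℝ := ∑ x ∈ S i, ind (th * t.mg i x ≤ t.rw_ K i k x) * (t.mg i x * t.xi B i x ^ 2)

theorem rw_le (K : ℝ) (i k : I) (x : φ) : t.rw_ K i k x ≤ t.mg i x := by
  rw [← t.mg2_sum i k x]
  exact Finset.sum_le_sum fun y _ => mul_le_of_le_one_left (t.mg2_nn i k x y) (ind_le_one _)

theorem rw_nn (K : ℝ) (i k : I) (x : φ) : 0 ≤ t.rw_ K i k x :=
  Finset.sum_nonneg fun y _ => mul_nonneg (ind_nonneg _) (t.mg2_nn i k x y)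

/-- `∑_(bad) mg |xi|` -/
def mb (B : ℝ) (bd : I → φ → Prop) (i : I) : ℝ := ∑ x ∈ S i, t.mg i x * (ind (bd i x) * |t.xi B i x|)

theorem mb_mul_le {em : ℝ} {i k : I} (hmi : ∑ x ∈ S i, t.mg i x * ind (bd i x) ≤ em)
    (hmk : ∑ y ∈ S k, t.mg k y * ind (bd k y) ≤ em) (hem : 0 ≤ em) :
    t.mb B bd i * t.mb B bd k ≤ em / 2 * (t.Mx B i + t.Mx B k) := by
  have key : ∀ j : I, ∑ x ∈ S j, t.mg j x * ind (bd j x) ≤ em → t.mb B bd j ^ 2 ≤ em * t.Mx B j := by
    intro j hj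
    have h := Finset.sum_mul_sq_le_sq_mul_sq (S j) (fun x => Real.sqrt (t.mg j x * ind (bd j x)))
      (fun x => Real.sqrt (t.mg j x) * |t.xi B j x|)
    have e1 : ∑ x ∈ S j, Real.sqrt (t.mg j x * ind (bd j x)) * (Real.sqrt (t.mg j x) * |t.xi B j x|) = t.mb B bd j := by
      unfold mb
      refine Finset.sum_congr rfl fun x hx => ?_
      have hq := t.mg_nn j x
      by_cases hb : bd j x
      · rw [ind_of hb, mul_one, one_mul, ← mul_assoc, Real.mul_self_sqrt hq]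
      · rw [ind_not hb, mul_zero, Real.sqrt_zero, zero_mul, zero_mul, mul_zero]
    have e2 : ∑ x ∈ S j, Real.sqrt (t.mg j x * ind (bd j x)) ^ 2 = ∑ x ∈ S j, t.mg j x * ind (bd j x) :=
      Finset.sum_congr rfl fun x hx => Real.sq_sqrt (mul_nonneg (t.mg_nn j x) (ind_nonneg _))
    have e3 : ∑ x ∈ S j, (Real.sqrt (t.mg j x) * |t.xi B j x|) ^ 2 = t.Mx B j := by
      unfold Mx
      refine Finset.sum_congr rfl fun x hx => ?_
      rw [mul_pow, Real.sq_sqrt (t.mg_nn j x), sq_abs]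
    rw [e1, e2, e3] at h
    exact h.trans (mul_le_mul_of_nonneg_right hj (t.Mx_nn j))
  have h1 := key i hmi
  have h2 := key k hmk
  have h3 : t.mb B bd i * t.mb B bd k ≤ (t.mb B bd i ^ 2 + t.mb B bd k ^ 2) / 2 := by
    have := sq_nonneg (t.mb B bd i - t.mb B bd k)
    nlinarith
  linarith

/-- **BAD PAIRS BY SUPERHOT ROWS** -/
theorem bb_le (he : 0 < e) {K th em : ℝ} (hK : 0 ≤ K) (hth : 0 ≤ th) (hthe : th ≤ e ^ 2) (hem : 0 ≤ em)
    (hKe : K * em ≤ e) {i k : I} (hmi : ∑ x ∈ S i, t.mg i x * ind (bd i x) ≤ em)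
    (hmk : ∑ y ∈ S k, t.mg k y * ind (bd k y) ≤ em) :
    t.BB B bd i k ≤ 3 * e / 2 * (t.Mx B i + t.Mx B k) + (t.HX B K th i k + t.HX B K th k i) / 2 := by
  classical
  -- one pair
  have h1 : ∀ x ∈ S i, ∀ y ∈ S k, t.mg2 i k x y * ((ind (bd i x) * |t.xi B i x|) * (ind (bd k y) * |t.xi B k y|)) ≤
      K * ((t.mg i x * (ind (bd i x) * |t.xi B i x|)) * (t.mg k y * (ind (bd k y) * |t.xi B k y|))) +
      ((ind (t.rw_ K i k x < th * t.mg i x) * (t.xi B i x ^ 2 / e / 2)) * (ind (t.sh K i k x y) * t.mg2 i k x y) +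
        t.mg2 i k x y * (e / 2 * t.xi B k y ^ 2)) +
      ((ind (t.rw_ K k i y < th * t.mg k y) * (t.xi B k y ^ 2 / e / 2)) * (ind (t.sh K i k x y) * t.mg2 i k x y) +
        t.mg2 i k x y * (e / 2 * t.xi B i x ^ 2)) +
      ((ind (th * t.mg i x ≤ t.rw_ K i k x) * (t.xi B i x ^ 2 / 2)) * (ind (t.sh K i k x y) * t.mg2 i k x y) +
        (ind (th * t.mg k y ≤ t.rw_ K k i y) * (t.xi B k y ^ 2 / 2)) * (ind (t.sh K i k x y) * t.mg2 i k x y)) := by
    intro x hx y hy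
    have m0 := t.mg2_nn i k x y
    have mi := t.mg_nn i x
    have mk := t.mg_nn k y
    have a1 := abs_nonneg (t.xi B i x)
    have a2 := abs_nonneg (t.xi B k y)
    have b1 := ind_nonneg (bd i x)
    have b2 := ind_nonneg (bd k y)
    have c1 := ind_le_one (bd i x)
    have c2 := ind_le_one (bd k y)
    have d1 : (ind (bd i x) * |t.xi B i x|) * (ind (bd k y) * |t.xi B k y|) ≤ |t.xi B i x| * |t.xi B k y| :=
      mul_le_mul (mul_le_of_le_one_left a1 c1) (mul_le_of_le_one_left a2 c2) (mul_nonneg b2 a2) a1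
    have d0 : 0 ≤ (ind (bd i x) * |t.xi B i x|) * (ind (bd k y) * |t.xi B k y|) := by positivity
    have n1 := ind_nonneg (t.rw_ K i k x < th * t.mg i x)
    have n2 := ind_nonneg (t.rw_ K k i y < th * t.mg k y)
    have n3 := ind_nonneg (th * t.mg i x ≤ t.rw_ K i k x)
    have n4 := ind_nonneg (th * t.mg k y ≤ t.rw_ K k i y)
    have n5 := ind_nonneg (t.sh K i k x y)
    have T1 : 0 ≤ K * ((t.mg i x * (ind (bd i x) * |t.xi B i x|)) * (t.mg k y * (ind (bd k y) * |t.xi B k y|))) := by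
      positivity
    have T2 : 0 ≤ (ind (t.rw_ K i k x < th * t.mg i x) * (t.xi B i x ^ 2 / e / 2)) *
        (ind (t.sh K i k x y) * t.mg2 i k x y) + t.mg2 i k x y * (e / 2 * t.xi B k y ^ 2) := by positivity
    have T3 : 0 ≤ (ind (t.rw_ K k i y < th * t.mg k y) * (t.xi B k y ^ 2 / e / 2)) *
        (ind (t.sh K i k x y) * t.mg2 i k x y) + t.mg2 i k x y * (e / 2 * t.xi B i x ^ 2) := by positivity
    have T4 : 0 ≤ (ind (th * t.mg i x ≤ t.rw_ K i k x) * (t.xi B i x ^ 2 / 2)) * (ind (t.sh K i k x y) * t.mg2 i k x y) +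
        (ind (th * t.mg k y ≤ t.rw_ K k i y) * (t.xi B k y ^ 2 / 2)) * (ind (t.sh K i k x y) * t.mg2 i k x y) := by
      positivity
    by_cases hs : t.sh K i k x y
    · have e0 := mul_le_mul_of_nonneg_left d1 m0
      rw [ind_of hs, one_mul] at T2 T3 T4 ⊢
      by_cases h1 : t.rw_ K i k x < th * t.mg i x
      · have e1 := mul_le_mul_of_nonneg_left (amgm he a1 a2) m0
        rw [sq_abs, sq_abs] at e1
        rw [ind_of h1, one_mul]
        rw [ind_of h1, one_mul] at T2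
        have e2 : t.mg2 i k x y * ((t.xi B i x ^ 2 / e + e * t.xi B k y ^ 2) / 2) =
            (t.xi B i x ^ 2 / e / 2) * t.mg2 i k x y + t.mg2 i k x y * (e / 2 * t.xi B k y ^ 2) := by ring
        linarith
      · by_cases h2 : t.rw_ K k i y < th * t.mg k y
        · have e1 := mul_le_mul_of_nonneg_left (amgm he a2 a1) m0
          rw [sq_abs, sq_abs] at e1
          rw [ind_of h2, one_mul]
          rw [ind_of h2, one_mul] at T3
          have e2 : t.mg2 i k x y * ((t.xi B k y ^ 2 / e + e * t.xi B i x ^ 2) / 2) =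
              (t.xi B k y ^ 2 / e / 2) * t.mg2 i k x y + t.mg2 i k x y * (e / 2 * t.xi B i x ^ 2) := by ring
          have e3 : t.mg2 i k x y * (|t.xi B k y| * |t.xi B i x|) = t.mg2 i k x y * (|t.xi B i x| * |t.xi B k y|) := by
            ring
          linarith
        · rw [ind_of (not_lt.1 h1), ind_of (not_lt.1 h2), one_mul, one_mul]
          rw [ind_of (not_lt.1 h1), ind_of (not_lt.1 h2), one_mul, one_mul] at T4
          have e1 : |t.xi B i x| * |t.xi B k y| ≤ t.xi B i x ^ 2 / 2 + t.xi B k y ^ 2 / 2 := by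
            have := sq_nonneg (|t.xi B i x| - |t.xi B k y|)
            rw [← sq_abs (t.xi B i x), ← sq_abs (t.xi B k y)]
            nlinarith
          have e2 := mul_le_mul_of_nonneg_left e1 m0
          linarith
    · rw [ind_not hs, zero_mul, mul_zero, mul_zero, mul_zero, mul_zero, zero_add, zero_add, add_zero, add_zero]
      have h3 : t.mg2 i k x y ≤ K * (t.mg i x * t.mg k y) := not_lt.1 hs
      have h4 := mul_le_mul_of_nonneg_right h3 d0
      have e1 : K * (t.mg i x * t.mg k y) * ((ind (bd i x) * |t.xi B i x|) * (ind (bd k y) * |t.xi B k y|)) =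
          K * ((t.mg i x * (ind (bd i x) * |t.xi B i x|)) * (t.mg k y * (ind (bd k y) * |t.xi B k y|))) := by ring
      have p1 : 0 ≤ t.mg2 i k x y * (e / 2 * t.xi B k y ^ 2) := by positivity
      have p2 : 0 ≤ t.mg2 i k x y * (e / 2 * t.xi B i x ^ 2) := by positivity
      linarith
  have h2 : t.BB B bd i k ≤ ∑ x ∈ S i, ∑ y ∈ S k,
      (K * ((t.mg i x * (ind (bd i x) * |t.xi B i x|)) * (t.mg k y * (ind (bd k y) * |t.xi B k y|))) +
      ((ind (t.rw_ K i k x < th * t.mg i x) * (t.xi B i x ^ 2 / e / 2)) * (ind (t.sh K i k x y) * t.mg2 i k x y) +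
        t.mg2 i k x y * (e / 2 * t.xi B k y ^ 2)) +
      ((ind (t.rw_ K k i y < th * t.mg k y) * (t.xi B k y ^ 2 / e / 2)) * (ind (t.sh K i k x y) * t.mg2 i k x y) +
        t.mg2 i k x y * (e / 2 * t.xi B i x ^ 2)) +
      ((ind (th * t.mg i x ≤ t.rw_ K i k x) * (t.xi B i x ^ 2 / 2)) * (ind (t.sh K i k x y) * t.mg2 i k x y) +
        (ind (th * t.mg k y ≤ t.rw_ K k i y) * (t.xi B k y ^ 2 / 2)) * (ind (t.sh K i k x y) * t.mg2 i k x y))) :=
    Finset.sum_le_sum fun x hx => Finset.sum_le_sum fun y hy => h1 x hx y hy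
  simp only [Finset.sum_add_distrib] at h2
  -- the sums
  have s1 : ∑ x ∈ S i, ∑ y ∈ S k, K * ((t.mg i x * (ind (bd i x) * |t.xi B i x|)) *
      (t.mg k y * (ind (bd k y) * |t.xi B k y|))) = K * (t.mb B bd i * t.mb B bd k) := by
    unfold mb
    rw [Finset.sum_mul_sum, Finset.mul_sum]
    refine Finset.sum_congr rfl fun x _ => ?_
    rw [Finset.mul_sum]
  have rowI : ∀ c : φ → ℝ, ∑ x ∈ S i, ∑ y ∈ S k, c x * (ind (t.sh K i k x y) * t.mg2 i k x y) =
      ∑ x ∈ S i, c x * t.rw_ K i k x := by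
    intro c
    refine Finset.sum_congr rfl fun x _ => ?_
    rw [← Finset.mul_sum]
    rfl
  have rowK : ∀ c : φ → ℝ, ∑ x ∈ S i, ∑ y ∈ S k, c y * (ind (t.sh K i k x y) * t.mg2 i k x y) =
      ∑ y ∈ S k, c y * t.rw_ K k i y := by
    intro c
    rw [Finset.sum_comm]
    refine Finset.sum_congr rfl fun y _ => ?_
    rw [← Finset.mul_sum]
    congr 1
    unfold rw_
    refine Finset.sum_congr rfl fun x _ => ?_
    rw [t.sh_symm K i k, t.mg2_symm i k]
  have colI : ∀ c : φ → ℝ, ∑ x ∈ S i, ∑ y ∈ S k, t.mg2 i k x y * c x = ∑ x ∈ S i, t.mg i x * c x := by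
    intro c
    refine Finset.sum_congr rfl fun x _ => ?_
    rw [← Finset.sum_mul, t.mg2_sum]
  have colK : ∀ c : φ → ℝ, ∑ x ∈ S i, ∑ y ∈ S k, t.mg2 i k x y * c y = ∑ y ∈ S k, t.mg k y * c y := by
    intro c
    rw [Finset.sum_comm]
    refine Finset.sum_congr rfl fun y _ => ?_
    rw [← Finset.sum_mul]
    congr 1
    rw [← t.mg2_sum k i y]
    exact Finset.sum_congr rfl fun x _ => t.mg2_symm i k x y
  rw [s1, rowI (fun x => ind (t.rw_ K i k x < th * t.mg i x) * (t.xi B i x ^ 2 / e / 2)),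
    rowK (fun y => ind (t.rw_ K k i y < th * t.mg k y) * (t.xi B k y ^ 2 / e / 2)),
    rowI (fun x => ind (th * t.mg i x ≤ t.rw_ K i k x) * (t.xi B i x ^ 2 / 2)),
    rowK (fun y => ind (th * t.mg k y ≤ t.rw_ K k i y) * (t.xi B k y ^ 2 / 2)),
    colI (fun x => e / 2 * t.xi B i x ^ 2), colK (fun y => e / 2 * t.xi B k y ^ 2)] at h2
  have s2 : ∀ j l : I, ∑ x ∈ S j, ind (t.rw_ K j l x < th * t.mg j x) * (t.xi B j x ^ 2 / e / 2) * t.rw_ K j l x ≤
      e / 2 * t.Mx B j := by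
    intro j l
    unfold Mx
    rw [Finset.mul_sum]
    refine Finset.sum_le_sum fun x _ => ?_
    have mj := t.mg_nn j x
    by_cases h : t.rw_ K j l x < th * t.mg j x
    · rw [ind_of h, one_mul]
      have h3 : t.xi B j x ^ 2 / e / 2 * t.rw_ K j l x ≤ t.xi B j x ^ 2 / e / 2 * (e ^ 2 * t.mg j x) :=
        mul_le_mul_of_nonneg_left (h.le.trans (mul_le_mul_of_nonneg_right hthe mj)) (by positivity)
      refine h3.trans (le_of_eq ?_)
      field_simp
    · rw [ind_not h, zero_mul, zero_mul]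
      positivity
  have s3 : ∀ j l : I, ∑ x ∈ S j, ind (th * t.mg j x ≤ t.rw_ K j l x) * (t.xi B j x ^ 2 / 2) * t.rw_ K j l x ≤
      t.HX B K th j l / 2 := by
    intro j l
    unfold HX
    rw [Finset.sum_div]
    refine Finset.sum_le_sum fun x _ => ?_
    have h3 := mul_le_mul_of_nonneg_left (t.rw_le K j l x)
      (show 0 ≤ ind (th * t.mg j x ≤ t.rw_ K j l x) * (t.xi B j x ^ 2 / 2) from mul_nonneg (ind_nonneg _) (by positivity))
    refine h3.trans (le_of_eq ?_)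
    ring
  have s4 : ∀ j : I, ∑ x ∈ S j, t.mg j x * (e / 2 * t.xi B j x ^ 2) = e / 2 * t.Mx B j := by
    intro j
    unfold Mx
    rw [Finset.mul_sum]
    exact Finset.sum_congr rfl fun x _ => by ring
  rw [s4, s4] at h2
  have q1 := t.mb_mul_le (B := B) hmi hmk hem
  have q2 := mul_le_mul_of_nonneg_left q1 hK
  have m1 := t.Mx_nn (B := B) i
  have m2 := t.Mx_nn (B := B) k
  have q3 : K * (em / 2 * (t.Mx B i + t.Mx B k)) ≤ e / 2 * (t.Mx B i + t.Mx B k) := by
    have := mul_le_mul_of_nonneg_right hKe (show 0 ≤ (t.Mx B i + t.Mx B k) / 2 by positivity)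
    nlinarith
  have a1 := s2 i k
  have a2 := s2 k i
  have a3 := s3 i k
  have a4 := s3 k i
  linarith

end gen

section three

variable {φ : Type*} {S : Fin 3 → Finset φ} (t : KT S) {B : ℝ}

theorem PF_nn (i k : Fin 3) : 0 ≤ t.PF B i k := Finset.sum_nonneg fun F _ => by positivity

/-- the weak part by absolute pairs -/
theorem WK_le_PF (hB : 1 ≤ B) : t.WK B ≤ ∑ i, t.ph B i + (1 + B) * (t.PF B 0 1 + t.PF B 0 2 + t.PF B 1 2) := by
  have hB0 : 0 ≤ B := by linarith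
  have pr : ∀ i k : Fin 3, ∑ F ∈ Fintype.piFinset S, (t.p F - t.pq F) * (t.xi B i (F i) * t.xi B k (F k)) ≤ t.PF B i k := by
    intro i k
    unfold PF
    refine Finset.sum_le_sum fun F _ => ?_
    refine (le_abs_self _).trans (le_of_eq ?_)
    rw [abs_mul, abs_mul]
  have tr : ∑ F ∈ Fintype.piFinset S, (t.p F - t.pq F) * (t.xi B 0 (F 0) * t.xi B 1 (F 1) * t.xi B 2 (F 2)) ≤
      B * t.PF B 0 1 := by
    unfold PF
    rw [Finset.mul_sum]
    refine Finset.sum_le_sum fun F hF => ?_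
    refine (le_abs_self _).trans ?_
    rw [abs_mul, abs_mul, abs_mul]
    have h1 := t.abs_xi_le hB (Fintype.mem_piFinset.1 hF 2)
    have h2 : 0 ≤ |t.p F - t.pq F| * (|t.xi B 0 (F 0)| * |t.xi B 1 (F 1)|) := by positivity
    have h3 := mul_le_mul_of_nonneg_left h1 h2
    linarith
  rw [t.WK_eq]
  have h1 := pr 0 1
  have h2 := pr 0 2
  have h3 := pr 1 2
  have h4 := mul_nonneg hB0 (t.PF_nn (B := B) 0 2)
  have h5 := mul_nonneg hB0 (t.PF_nn (B := B) 1 2)
  linarith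

/-- absolute pairs, crude -/
theorem PF_crude (i k : Fin 3) (hB : 1 ≤ B) : t.PF B i k ≤ 2 * B ^ 2 := by
  have hB0 : 0 ≤ B := by linarith
  have h1 : t.PF B i k ≤ ∑ F ∈ Fintype.piFinset S, (t.p F + t.pq F) * B ^ 2 := by
    unfold PF
    refine Finset.sum_le_sum fun F hF => ?_
    have hm := Fintype.mem_piFinset.1 hF
    have h3 := t.p_nn F hF
    have h4 := t.pq_nn hF
    have h5 : |t.p F - t.pq F| ≤ t.p F + t.pq F := by
      have := abs_sub (t.p F) (t.pq F)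
      rw [abs_of_nonneg h3, abs_of_nonneg h4] at this
      exact this
    refine mul_le_mul h5 ?_ (by positivity) (by linarith)
    rw [pow_two]
    exact mul_le_mul (t.abs_xi_le hB (hm i)) (t.abs_xi_le hB (hm k)) (abs_nonneg _) hB0
  refine h1.trans (le_of_eq ?_)
  have e1 : ∑ F ∈ Fintype.piFinset S, t.pq F = 1 := by
    have h := t.sum_q_one 0 (fun _ => 1)
    simp only [mul_one] at h
    rw [h, t.q_one]
  rw [← Finset.sum_mul, Finset.sum_add_distrib, t.p_one, e1]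
  ring

/-- absolute pairs by second moments -/
theorem PF_cs {i k : Fin 3} (hik : i ≠ k) :
    t.PF B i k ≤ Real.sqrt (t.Mx B i * t.Mx B k) + Real.sqrt (t.Qx B i * t.Qx B k) := by
  classical
  have h1 : t.PF B i k ≤ ∑ F ∈ Fintype.piFinset S, t.p F * (|t.xi B i (F i)| * |t.xi B k (F k)|) +
      ∑ F ∈ Fintype.piFinset S, t.pq F * (|t.xi B i (F i)| * |t.xi B k (F k)|) := by
    unfold PF
    rw [← Finset.sum_add_distrib]
    refine Finset.sum_le_sum fun F hF => ?_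
    have h3 := t.p_nn F hF
    have h4 := t.pq_nn hF
    have h5 : |t.p F - t.pq F| ≤ t.p F + t.pq F := by
      have := abs_sub (t.p F) (t.pq F)
      rw [abs_of_nonneg h3, abs_of_nonneg h4] at this
      exact this
    have h6 := mul_le_mul_of_nonneg_right h5 (show 0 ≤ |t.xi B i (F i)| * |t.xi B k (F k)| by positivity)
    linarith
  have cs : ∀ (w : (Fin 3 → φ) → ℝ), (∀ F ∈ Fintype.piFinset S, 0 ≤ w F) →
      ∑ F ∈ Fintype.piFinset S, w F * (|t.xi B i (F i)| * |t.xi B k (F k)|) ≤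
        Real.sqrt ((∑ F ∈ Fintype.piFinset S, w F * t.xi B i (F i) ^ 2) *
          ∑ F ∈ Fintype.piFinset S, w F * t.xi B k (F k) ^ 2) := by
    intro w hw
    refine Real.le_sqrt_of_sq_le ?_
    have h := Finset.sum_mul_sq_le_sq_mul_sq (Fintype.piFinset S) (fun F => Real.sqrt (w F) * |t.xi B i (F i)|)
      (fun F => Real.sqrt (w F) * |t.xi B k (F k)|)
    have e1 : ∑ F ∈ Fintype.piFinset S, Real.sqrt (w F) * |t.xi B i (F i)| * (Real.sqrt (w F) * |t.xi B k (F k)|) =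
        ∑ F ∈ Fintype.piFinset S, w F * (|t.xi B i (F i)| * |t.xi B k (F k)|) := by
      refine Finset.sum_congr rfl fun F hF => ?_
      have := Real.mul_self_sqrt (hw F hF)
      calc _ = (Real.sqrt (w F) * Real.sqrt (w F)) * (|t.xi B i (F i)| * |t.xi B k (F k)|) := by ring
        _ = _ := by rw [this]
    have e2 : ∀ j : Fin 3, ∑ F ∈ Fintype.piFinset S, (Real.sqrt (w F) * |t.xi B j (F j)|) ^ 2 =
        ∑ F ∈ Fintype.piFinset S, w F * t.xi B j (F j) ^ 2 := by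
      intro j
      refine Finset.sum_congr rfl fun F hF => ?_
      rw [mul_pow, Real.sq_sqrt (hw F hF), sq_abs]
    rw [e1, e2, e2] at h
    exact h
  have h2 := cs t.p t.p_nn
  have h3 := cs t.pq (fun F hF => t.pq_nn hF)
  rw [t.sum_mg i (fun x => t.xi B i x ^ 2), t.sum_mg k (fun x => t.xi B k x ^ 2)] at h2
  rw [t.sum_q_one i (fun x => t.xi B i x ^ 2), t.sum_q_one k (fun x => t.xi B k x ^ 2)] at h3
  unfold Mx Qx
  linarith

variable {bd : Fin 3 → φ → Prop} {dd e : ℝ}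

/-- **THE WEAK PART AT ONE POINT** -/
theorem WK_le_sh (hB : 1 ≤ B) (he : 0 < e) (he1 : e ≤ 1) (hd : dd ≤ e ^ 2)
    (hg : ∀ i, ∀ x ∈ S i, ¬ bd i x → ∑ F ∈ Fintype.piFinset S, ind (F i = x) * t.rowd i F ≤ dd * t.mg i x)
    (hq : ∀ i, ∑ x ∈ S i, t.q i x * ind (bd i x) ≤ e ^ 2) {K th em : ℝ} (hK : 0 ≤ K) (hth : 0 ≤ th) (hthe : th ≤ e ^ 2)
    (hem : 0 ≤ em) (hKe : K * em ≤ e) (hm : ∀ i, ∑ x ∈ S i, t.mg i x * ind (bd i x) ≤ em) :
    t.WK B ≤ ∑ i, t.ph B i + (1 + B) * (7 * B ^ 2 * ∑ i, t.Tv i + 7 * e * ∑ i, t.Qx B i +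
      (∑ i, ∑ k ∈ univ.erase i, t.HX B K th i k) / 2) := by
  have hB0 : 0 ≤ B := by linarith
  have h0 := t.WK_le_PF hB
  have pr : ∀ i k : Fin 3, i ≠ k → t.PF B i k ≤ B ^ 2 * (t.Tv i + t.Tv k) +
      e / 2 * (2 * (t.Mx B i + t.Mx B k) + (t.Qx B i + t.Qx B k)) + e ^ 2 / 2 * (t.Qx B i + t.Qx B k) +
      (3 * e / 2 * (t.Mx B i + t.Mx B k) + (t.HX B K th i k + t.HX B K th k i) / 2) := by
    intro i k hik
    have h1 := t.PF_le hB he hd hik (hg i) (hg k) (hq i) (hq k)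
    have h2 := t.bb_le (B := B) he hK hth hthe hem hKe (hm i) (hm k)
    linarith
  have p01 := pr 0 1 (by decide)
  have p02 := pr 0 2 (by decide)
  have p12 := pr 1 2 (by decide)
  have mx : ∀ i, t.Mx B i ≤ t.Qx B i + B ^ 2 * t.Tv i := fun i => t.Mx_le hB i
  have m0 := mx 0
  have m1 := mx 1
  have m2 := mx 2
  have T0 := t.Tv_nn 0
  have T1 := t.Tv_nn 1
  have T2 := t.Tv_nn 2
  have Q0 := t.Qx_nn (B := B) 0
  have Q1 := t.Qx_nn (B := B) 1
  have Q2 := t.Qx_nn (B := B) 2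
  have eS : ∑ i, ∑ k ∈ univ.erase i, t.HX B K th i k = t.HX B K th 0 1 + t.HX B K th 0 2 +
      (t.HX B K th 1 0 + t.HX B K th 1 2) + (t.HX B K th 2 0 + t.HX B K th 2 1) := by
    rw [Fin.sum_univ_three]
    have u0 : (univ : Finset (Fin 3)).erase 0 = {1, 2} := by decide
    have u1 : (univ : Finset (Fin 3)).erase 1 = {0, 2} := by decide
    have u2 : (univ : Finset (Fin 3)).erase 2 = {0, 1} := by decide
    rw [u0, u1, u2, Finset.sum_pair (by decide), Finset.sum_pair (by decide), Finset.sum_pair (by decide)]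
  have hs : t.PF B 0 1 + t.PF B 0 2 + t.PF B 1 2 ≤ 7 * B ^ 2 * ∑ i, t.Tv i + 7 * e * ∑ i, t.Qx B i +
      (∑ i, ∑ k ∈ univ.erase i, t.HX B K th i k) / 2 := by
    rw [eS, Fin.sum_univ_three, Fin.sum_univ_three]
    have e2 : e ^ 2 ≤ e := by nlinarith
    set TT := t.Tv 0 + t.Tv 1 + t.Tv 2 with hTT
    set QQ := t.Qx B 0 + t.Qx B 1 + t.Qx B 2 with hQQ
    set MM := t.Mx B 0 + t.Mx B 1 + t.Mx B 2 with hMM
    have hTT0 : 0 ≤ TT := by positivity
    have hQQ0 : 0 ≤ QQ := by positivity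
    have hMM1 : MM ≤ QQ + B ^ 2 * TT := by
      rw [hMM, hQQ, hTT]
      linarith
    have k1 : 5 * e * MM ≤ 5 * e * (QQ + B ^ 2 * TT) := mul_le_mul_of_nonneg_left hMM1 (by positivity)
    have k2 : e ^ 2 * QQ ≤ e * QQ := mul_le_mul_of_nonneg_right e2 hQQ0
    have k3 : e * (B ^ 2 * TT) ≤ 1 * (B ^ 2 * TT) := mul_le_mul_of_nonneg_right he1 (by positivity)
    have k4 : t.PF B 0 1 + t.PF B 0 2 + t.PF B 1 2 ≤ 2 * B ^ 2 * TT + 5 * e * MM + (e + e ^ 2) * QQ +
        (t.HX B K th 0 1 + t.HX B K th 0 2 + (t.HX B K th 1 0 + t.HX B K th 1 2) +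
          (t.HX B K th 2 0 + t.HX B K th 2 1)) / 2 := by
      rw [hTT, hMM, hQQ]
      nlinarith [p01, p02, p12]
    nlinarith
  have := mul_le_mul_of_nonneg_left hs (show 0 ≤ 1 + B by linarith)
  linarith

end three

end KT

end

end Pool.Agent.GMH
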