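import Pool.Agent.GMH.Key3R

/-!
# GMH.Key3X: KEY3 without thin strong points (helper79, note 4059)

A face `i` with thin ratio `tF i > B` (its FOREIGN thin letter is strong) is frozen: all its letters with `|r - 1| > e2` are
in the cut region, the others are replaced by `r = 1`.  The freezing costs `B ^ 3 (14 e2 + q_i (Cut_i))` at the point.  The
weak part of the remaining faces is exactly the one of `Key3`, with the indicators `tF i <= B` of `pair_gen` and `first_le`:
no hypothesis on thin strong points, no first order remainder.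
* `KT.fr`, `KT.weak_leX` : one point;
* `pair_gen2` : pairs with the indicators of the two faces only;
* `key3x`.
-/

set_option autoImplicit false
set_option linter.unusedSectionVars false
set_option linter.unusedVariables false

namespace Pool.Agent.GMH

open Finset Pool.Agent.PWZ Pool.Agent.M3

noncomputable section

theorem abs_prod_one_le {I : Type*} (s : Finset I) (g : I → ℝ) {e : ℝ} (he : 0 ≤ e)
    (hg : ∀ i ∈ s, |g i - 1| ≤ e) : |∏ i ∈ s, g i - 1| ≤ (1 + e) ^ s.card - 1 := by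
  classical
  induction s using Finset.induction_on with
  | empty => simp
  | insert i s hi ih =>
    rw [Finset.prod_insert hi, Finset.card_insert_of_notMem hi]
    have h1 := hg i (Finset.mem_insert_self i s)
    have h2 := ih (fun j hj => hg j (Finset.mem_insert_of_mem hj))
    have e1 : g i * ∏ j ∈ s, g j - 1 = g i * (∏ j ∈ s, g j - 1) + (g i - 1) := by ring
    rw [e1]
    have h3 : |g i| ≤ 1 + e := by
      have := abs_add_le (g i - 1) 1
      rw [sub_add_cancel, abs_one] at this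
      linarith
    have h4 : 0 ≤ (1 + e) ^ s.card - 1 := le_trans (abs_nonneg _) h2
    calc |g i * (∏ j ∈ s, g j - 1) + (g i - 1)| ≤ |g i * (∏ j ∈ s, g j - 1)| + |g i - 1| := abs_add_le _ _
      _ ≤ (1 + e) * ((1 + e) ^ s.card - 1) + e := by
        rw [abs_mul]
        exact add_le_add (mul_le_mul h3 h2 (abs_nonneg _) (by linarith)) h1
      _ = (1 + e) ^ (s.card + 1) - 1 := by ring

namespace KT

section gen

variable {I φ : Type*} [Fintype I] [DecidableEq I] {S : I → Finset φ} (t : KT S)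

/-- the faces in `T` are frozen -/
def fr (T : I → Prop) : KT S where
  p := t.p
  q := t.q
  q' := fun i x => ind (T i) * t.q i x + ind (¬ T i) * t.q' i x
  p_nn := t.p_nn
  q_nn := t.q_nn
  q'_nn := fun i x hx => add_nonneg (mul_nonneg (ind_nonneg _) (t.q_nn i x hx)) (mul_nonneg (ind_nonneg _) (t.q'_nn i x hx))
  p_one := t.p_one
  q_one := t.q_one
  q'_one := fun i => by
    by_cases h : T i
    · simp only [ind_of h, ind_not (not_not.2 h), one_mul, zero_mul, add_zero, t.q_one i]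
    · simp only [ind_not h, ind_of h, one_mul, zero_mul, zero_add, t.q'_one i]
  acq := fun i x hx h0 => by
    by_cases h : T i
    · simp only [ind_of h, ind_not (not_not.2 h), one_mul, zero_mul, add_zero, h0]
    · simp only [ind_not h, ind_of h, one_mul, zero_mul, zero_add, t.acq i x hx h0]
  acp := t.acp

variable {T : I → Prop} {B e2 eta : ℝ} {Reg : (I → φ) → Prop} {G a : (I → φ) → ℝ}

theorem fr_r_not {i : I} (h : ¬ T i) (x : φ) : (t.fr T).r i x = t.r i x := by
  unfold r fr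
  simp only [ind_not h, ind_of h, one_mul, zero_mul, zero_add]

theorem fr_r_of {i : I} (h : T i) {x : φ} (hx : t.q i x ≠ 0) : (t.fr T).r i x = 1 := by
  unfold r fr
  simp only [ind_of h, ind_not (not_not.2 h), one_mul, zero_mul, add_zero]
  exact div_self hx

theorem fr_xi_not {i : I} (h : ¬ T i) (x : φ) : (t.fr T).xi B i x = t.xi B i x := by
  unfold xi
  rw [t.fr_r_not h]

theorem fr_xi_of (hB : 1 ≤ B) {i : I} (h : T i) {x : φ} (hx : t.q i x ≠ 0) : (t.fr T).xi B i x = 0 := by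
  unfold xi
  rw [t.fr_r_of h hx]
  unfold hwk
  rw [ind_of (not_lt.2 hB)]
  ring

theorem mg_zero {i : I} {x : φ} (hx : t.q i x = 0) : t.mg i x = 0 := by
  classical
  unfold mg
  refine Finset.sum_eq_zero fun F hF => ?_
  have h := Finset.mem_filter.1 hF
  exact t.acp F h.1 i (by rw [h.2]; exact hx)

theorem mg2_zero_l {i k : I} {x y : φ} (hx : t.q i x = 0) : t.mg2 i k x y = 0 := by
  unfold mg2
  refine Finset.sum_eq_zero fun F hF => ?_
  by_cases h : F i = x ∧ F k = y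
  · rw [t.acp F hF i (by rw [h.1]; exact hx), mul_zero]
  · rw [ind_not h, zero_mul]

theorem mg2_zero_r {i k : I} {x y : φ} (hy : t.q k y = 0) : t.mg2 i k x y = 0 := by
  unfold mg2
  refine Finset.sum_eq_zero fun F hF => ?_
  by_cases h : F i = x ∧ F k = y
  · rw [t.acp F hF k (by rw [h.2]; exact hy), mul_zero]
  · rw [ind_not h, zero_mul]

theorem fr_ph (hB : 1 ≤ B) (i : I) : (t.fr T).ph B i = ind (¬ T i) * t.ph B i := by
  by_cases h : T i
  · rw [ind_not (not_not.2 h), zero_mul]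
    unfold ph
    refine Finset.sum_eq_zero fun x _ => ?_
    by_cases hx : t.q i x = 0
    · have h1 : (t.fr T).mg i x = 0 := t.mg_zero hx
      have h2 : (t.fr T).q i x = 0 := hx
      rw [h1, h2, sub_self, zero_mul]
    · rw [t.fr_xi_of hB h hx, mul_zero]
  · rw [ind_of h, one_mul]
    unfold ph
    refine Finset.sum_congr rfl fun x _ => ?_
    rw [t.fr_xi_not h]
    rfl

theorem fr_PA (hB : 1 ≤ B) (i k : I) : (t.fr T).PA B i k = ind (¬ T i) * ind (¬ T k) * t.PA B i k := by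
  unfold PA
  by_cases h : T i
  · rw [ind_not (not_not.2 h), zero_mul, zero_mul]
    refine Finset.sum_eq_zero fun x _ => Finset.sum_eq_zero fun y _ => ?_
    by_cases hx : t.q i x = 0
    · have h1 : (t.fr T).mg2 i k x y = 0 := t.mg2_zero_l hx
      have h2 : (t.fr T).q i x = 0 := hx
      rw [h1, h2, zero_mul, sub_self, abs_zero, zero_mul]
    · rw [t.fr_xi_of hB h hx, abs_zero, zero_mul, mul_zero]
  · by_cases h' : T k
    · rw [ind_not (not_not.2 h'), mul_zero, zero_mul]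
      refine Finset.sum_eq_zero fun x _ => Finset.sum_eq_zero fun y _ => ?_
      by_cases hy : t.q k y = 0
      · have h1 : (t.fr T).mg2 i k x y = 0 := t.mg2_zero_r hy
        have h2 : (t.fr T).q k y = 0 := hy
        rw [h1, h2, mul_zero, sub_self, abs_zero, zero_mul]
      · rw [t.fr_xi_of hB h' hy, abs_zero, mul_zero, mul_zero]
    · rw [ind_of h, ind_of h', one_mul, one_mul]
      refine Finset.sum_congr rfl fun x _ => Finset.sum_congr rfl fun y _ => ?_
      rw [t.fr_xi_not h, t.fr_xi_not h']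
      rfl

theorem fr_mx (hB : 1 ≤ B) (i : I) : (t.fr T).mx B i = ind (¬ T i) * t.mx B i := by
  unfold mx
  by_cases h : T i
  · rw [ind_not (not_not.2 h), zero_mul]
    refine Finset.sum_eq_zero fun x _ => ?_
    by_cases hx : t.q i x = 0
    · have h2 : (t.fr T).q i x = 0 := hx
      rw [h2, zero_mul]
    · rw [t.fr_xi_of hB h hx, abs_zero, mul_zero]
  · rw [ind_of h, one_mul]
    refine Finset.sum_congr rfl fun x _ => ?_
    rw [t.fr_xi_not h]
    rfl

/-- a frozen face has a letter which is not close to `1` -/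
def Cut (T : I → Prop) (e2 : ℝ) (F : I → φ) : Prop := ∃ i, T i ∧ e2 < |t.r i (F i) - 1|

/-- released weak letters off the cut -/
def RWX (B : ℝ) (T : I → Prop) (e2 : ℝ) (a : (I → φ) → ℝ) : ℝ :=
  ∑ F ∈ Fintype.piFinset S, ind (¬ t.Cut T e2 F) * ((1 - a F) * ((∏ i, hwk B (t.r i (F i))) * |t.p F - t.pq F|))

/-- mass of the cut letters of the frozen faces -/
def CM (T : I → Prop) (e2 : ℝ) (i : I) : ℝ := ind (T i) * ∑ x ∈ S i, t.q i x * ind (e2 < |t.r i x - 1|)

/-- **ONE POINT, THE TUPLES WITHOUT STRONG LETTERS, THIN STRONG FACES FROZEN** -/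
theorem weak_leX (he : 0 ≤ e2) (heB : 1 + e2 ≤ B)
    (hG : ∀ F ∈ Fintype.piFinset S, ¬ Reg F → G F = t.p F / t.pq F)
    (hGR : ∀ F ∈ Fintype.piFinset S, Reg F → G F ≤ 1) (ha0 : ∀ F, 0 ≤ a F) (ha1 : ∀ F, a F ≤ 1)
    (hR1 : ∀ F ∈ Fintype.piFinset S, (¬ ∃ i, B < t.r i (F i)) → ¬ t.Cut T e2 F → ¬ Reg F)
    (hR2 : ∀ F ∈ Fintype.piFinset S, t.Cut T e2 F → Reg F) :
    ∑ F ∈ Fintype.piFinset S, ind (¬ ∃ i, B < t.r i (F i)) * ((∏ i, t.q' i (F i)) * (a F * (G F - 1))) ≤
      (t.fr T).WK B + t.RWX B T e2 a +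
        B ^ (Fintype.card I) * (2 * (ind (∃ i, T i) * ((1 + e2) ^ (Fintype.card I) - 1)) + ∑ i, t.CM T e2 i) := by
  classical
  have hB1 : 1 ≤ B := by linarith
  have hB0 : 0 ≤ B := by linarith
  set E3 : ℝ := ind (∃ i, T i) * ((1 + e2) ^ (Fintype.card I) - 1) with hE3
  have hc : 0 ≤ (1 + e2) ^ (Fintype.card I) - 1 := by
    have : (1 : ℝ) ≤ (1 + e2) ^ (Fintype.card I) := one_le_pow₀ (by linarith)
    linarith
  have hE0 : 0 ≤ E3 := mul_nonneg (ind_nonneg _) hc
  set hT : (I → φ) → ℝ := fun F => ∏ i, hwk B ((t.fr T).r i (F i)) with hhT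
  have hT0 : ∀ F ∈ Fintype.piFinset S, 0 ≤ hT F := fun F hF => Finset.prod_nonneg fun i _ =>
    hwk_nonneg ((t.fr T).r_nn (Fintype.mem_piFinset.1 hF i))
  have hTB : ∀ F ∈ Fintype.piFinset S, hT F ≤ B ^ (Fintype.card I) := fun F hF => by
    have h1 : hT F ≤ ∏ _i : I, B := Finset.prod_le_prod
      (fun i _ => hwk_nonneg ((t.fr T).r_nn (Fintype.mem_piFinset.1 hF i))) (fun i _ => hwk_le hB0)
    rw [Finset.prod_const, Finset.card_univ] at h1
    exact h1
  -- one tuple
  have key : ∀ F ∈ Fintype.piFinset S, ind (¬ ∃ i, B < t.r i (F i)) * ((∏ i, t.q' i (F i)) * (a F * (G F - 1))) ≤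
      hT F * (t.p F - t.pq F) +
      ind (¬ t.Cut T e2 F) * ((1 - a F) * ((∏ i, hwk B (t.r i (F i))) * |t.p F - t.pq F|)) +
      (E3 * (hT F * (t.p F + t.pq F)) + ind (t.Cut T e2 F) * (hT F * t.pq F)) := by
    intro F hF
    have hp := t.p_nn F hF
    have hpq := t.pq_nn hF
    have hh := hT0 F hF
    by_cases h0 : t.pq F = 0
    · have hp0 := t.p_zero hF h0
      have h1 : ∏ i, t.q' i (F i) = 0 := by rw [← t.prod_rq hF, h0, mul_zero]
      rw [h1, h0, hp0]
      simp only [zero_mul, mul_zero, sub_self, abs_zero, add_zero, le_refl]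
    have hq : ∀ i, t.q i (F i) ≠ 0 := fun i hi => h0 (Finset.prod_eq_zero (mem_univ i) hi)
    by_cases hC : t.Cut T e2 F
    · rw [ind_of hC, ind_not (not_not.2 hC)]
      have hR := hGR F hF (hR2 F hF hC)
      have h1 : a F * (G F - 1) ≤ 0 := mul_nonpos_of_nonneg_of_nonpos (ha0 F) (by linarith)
      have h2 : ind (¬ ∃ i, B < t.r i (F i)) * ((∏ i, t.q' i (F i)) * (a F * (G F - 1))) ≤ 0 :=
        mul_nonpos_of_nonneg_of_nonpos (ind_nonneg _) (mul_nonpos_of_nonneg_of_nonpos (t.pq'_nn hF) h1)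
      have h3 : 0 ≤ hT F * t.p F := mul_nonneg hh hp
      have h4 : 0 ≤ E3 * (hT F * (t.p F + t.pq F)) := mul_nonneg hE0 (mul_nonneg hh (by linarith))
      nlinarith
    · rw [ind_not hC, ind_of hC]
      by_cases hs : ∃ i, B < t.r i (F i)
      · -- a strong letter of a face which is not frozen
        obtain ⟨i, hi⟩ := hs
        have hTi : ¬ T i := fun hTi => hC ⟨i, hTi, by
          have : t.r i (F i) - 1 ≤ |t.r i (F i) - 1| := le_abs_self _
          linarith⟩
        have h1 : hT F = 0 := Finset.prod_eq_zero (mem_univ i) (by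
          rw [t.fr_r_not hTi]
          unfold hwk
          rw [ind_not (not_not.2 hi), zero_mul])
        rw [ind_not (not_not.2 ⟨i, hi⟩), h1, t.prod_hwk_strong ⟨i, hi⟩]
        simp only [zero_mul, mul_zero, add_zero, le_refl]
      · rw [ind_of hs, t.prod_hwk_weak hs]
        have h5 := t.term_off hF (hG F hF (hR1 F hF hs hC))
        have e : (∏ i, t.q' i (F i)) * (a F * (G F - 1)) = a F * ((∏ i, t.q' i (F i)) * (G F - 1)) := by ring
        rw [one_mul, e, h5]
        -- the frozen factors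
        set g : I → ℝ := fun i => ind (T i) * t.r i (F i) + ind (¬ T i) with hg
        have hg1 : ∀ i ∈ (univ : Finset I), |g i - 1| ≤ e2 := by
          intro i _
          simp only [hg]
          by_cases hTi : T i
          · rw [ind_of hTi, ind_not (not_not.2 hTi), one_mul, add_zero]
            exact not_lt.1 fun hlt => hC ⟨i, hTi, hlt⟩
          · rw [ind_not hTi, ind_of hTi, zero_mul, zero_add, sub_self, abs_zero]
            exact he
        have hg2 : |∏ i, g i - 1| ≤ E3 := by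
          by_cases hex : ∃ i, T i
          · rw [hE3, ind_of hex, one_mul]
            have := abs_prod_one_le univ g he hg1
            rw [Finset.card_univ] at this
            exact this
          · rw [hE3, ind_not hex, zero_mul]
            have e1 : ∏ i, g i = 1 := Finset.prod_eq_one fun i _ => by
              have hTi : ¬ T i := fun h => hex ⟨i, h⟩
              simp only [hg]
              rw [ind_not hTi, ind_of hTi, zero_mul, zero_add]
            rw [e1, sub_self, abs_zero]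
        have hfac : ∏ i, t.r i (F i) = hT F * ∏ i, g i := by
          rw [hhT]
          simp only
          rw [← Finset.prod_mul_distrib]
          refine Finset.prod_congr rfl fun i _ => ?_
          by_cases hTi : T i
          · rw [t.fr_r_of hTi (hq i)]
            simp only [hg]
            unfold hwk
            rw [ind_of (not_lt.2 hB1), ind_of hTi, ind_not (not_not.2 hTi)]
            ring
          · rw [t.fr_r_not hTi]
            simp only [hg]
            unfold hwk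
            rw [ind_of (fun hh => hs ⟨i, hh⟩), ind_not hTi, ind_of hTi]
            ring
        have h6 := t.pr_nn hF
        have h7 := mul_le_mul_of_nonneg_left (neg_abs_le (t.p F - t.pq F)) h6
        have h8 := mul_le_mul_of_nonneg_left h7 (show 0 ≤ 1 - a F by linarith [ha1 F])
        have h9 : (∏ i, t.r i (F i)) * (t.p F - t.pq F) ≤ hT F * (t.p F - t.pq F) + E3 * (hT F * (t.p F + t.pq F)) := by
          rw [hfac]
          have g1 := abs_le.1 hg2
          have g3 : |t.p F - t.pq F| ≤ t.p F + t.pq F := by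
            rw [abs_le]; constructor <;> linarith
          have g4 : (∏ i, g i - 1) * (t.p F - t.pq F) ≤ E3 * (t.p F + t.pq F) := by
            refine (le_abs_self _).trans ?_
            rw [abs_mul]
            exact mul_le_mul hg2 g3 (abs_nonneg _) hE0
          have g5 := mul_le_mul_of_nonneg_left g4 hh
          nlinarith
        nlinarith
  refine (Finset.sum_le_sum key).trans ?_
  rw [Finset.sum_add_distrib, Finset.sum_add_distrib]
  have e1 : ∑ F ∈ Fintype.piFinset S, hT F * (t.p F - t.pq F) = (t.fr T).WK B := rfl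
  have e2' : ∑ F ∈ Fintype.piFinset S, ind (¬ t.Cut T e2 F) * ((1 - a F) * ((∏ i, hwk B (t.r i (F i))) *
      |t.p F - t.pq F|)) = t.RWX B T e2 a := rfl
  rw [e1, e2']
  have hBp : 0 ≤ B ^ (Fintype.card I) := by positivity
  have s1 : ∑ F ∈ Fintype.piFinset S, t.p F = 1 := t.p_one
  have hpq1 : ∀ (i : I) (g : φ → ℝ), ∑ F ∈ Fintype.piFinset S, t.pq F * g (F i) = ∑ x ∈ S i, t.q i x * g x :=
    fun i g => t.sum_q_one i g
  have s2 : ∑ F ∈ Fintype.piFinset S, t.pq F = 1 := by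
    have h := Finset.prod_univ_sum (fun i => S i) (fun i x => t.q i x)
    have h2 : ∏ i, ∑ x ∈ S i, t.q i x = 1 := Finset.prod_eq_one fun i _ => t.q_one i
    rw [h2] at h
    exact h.symm
  have b1 : ∑ F ∈ Fintype.piFinset S, E3 * (hT F * (t.p F + t.pq F)) ≤ E3 * (B ^ (Fintype.card I) * 2) := by
    rw [← Finset.mul_sum]
    refine mul_le_mul_of_nonneg_left ?_ hE0
    have : ∑ F ∈ Fintype.piFinset S, hT F * (t.p F + t.pq F) ≤
        ∑ F ∈ Fintype.piFinset S, B ^ (Fintype.card I) * (t.p F + t.pq F) :=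
      Finset.sum_le_sum fun F hF => mul_le_mul_of_nonneg_right (hTB F hF) (add_nonneg (t.p_nn F hF) (t.pq_nn hF))
    rw [← Finset.mul_sum, Finset.sum_add_distrib, s1, s2] at this
    linarith
  have b2 : ∑ F ∈ Fintype.piFinset S, ind (t.Cut T e2 F) * (hT F * t.pq F) ≤
      B ^ (Fintype.card I) * ∑ i, t.CM T e2 i := by
    have c1 : ∀ F ∈ Fintype.piFinset S, ind (t.Cut T e2 F) * (hT F * t.pq F) ≤
        B ^ (Fintype.card I) * ∑ i, ind (T i) * (t.pq F * ind (e2 < |t.r i (F i) - 1|)) := by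
      intro F hF
      have hpq := t.pq_nn hF
      by_cases hC : t.Cut T e2 F
      · rw [ind_of hC, one_mul]
        refine mul_le_mul (hTB F hF) ?_ hpq hBp
        obtain ⟨i, hi, hlt⟩ := hC
        have := Finset.single_le_sum (f := fun i => ind (T i) * (t.pq F * ind (e2 < |t.r i (F i) - 1|)))
          (fun j _ => mul_nonneg (ind_nonneg _) (mul_nonneg hpq (ind_nonneg _))) (mem_univ i)
        rw [ind_of hi, ind_of hlt, one_mul, mul_one] at this
        exact this
      · rw [ind_not hC, zero_mul]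
        exact mul_nonneg hBp (Finset.sum_nonneg fun j _ => mul_nonneg (ind_nonneg _) (mul_nonneg hpq (ind_nonneg _)))
    refine (Finset.sum_le_sum c1).trans ?_
    rw [← Finset.mul_sum]
    refine mul_le_mul_of_nonneg_left ?_ hBp
    rw [Finset.sum_comm]
    refine Finset.sum_le_sum fun i _ => ?_
    rw [← Finset.mul_sum, hpq1 i (fun x => ind (e2 < |t.r i x - 1|))]
    exact le_of_eq rfl
  rw [Finset.sum_add_distrib]
  linarith

end gen

section three

variable {φ : Type*} {S : Fin 3 → Finset φ} (t : KT S) {B : ℝ} {T : Fin 3 → Prop}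

theorem fr_HB (hB : 1 ≤ B) (H : φ → φ → Prop) : (t.fr T).HB B H = ind (¬ T 0) * ind (¬ T 1) * t.HB B H := by
  unfold HB
  by_cases h : T 0
  · rw [ind_not (not_not.2 h), zero_mul, zero_mul]
    refine Finset.sum_eq_zero fun x _ => Finset.sum_eq_zero fun y _ => ?_
    by_cases hx : t.q 0 x = 0
    · have h1 : (t.fr T).mg2 0 1 x y = 0 := t.mg2_zero_l hx
      rw [h1, mul_zero, zero_mul]
    · rw [t.fr_xi_of hB h hx, abs_zero, zero_mul, mul_zero]
  · by_cases h' : T 1
    · rw [ind_not (not_not.2 h'), mul_zero, zero_mul]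
      refine Finset.sum_eq_zero fun x _ => Finset.sum_eq_zero fun y _ => ?_
      by_cases hy : t.q 1 y = 0
      · have h1 : (t.fr T).mg2 0 1 x y = 0 := t.mg2_zero_r hy
        rw [h1, mul_zero, zero_mul]
      · rw [t.fr_xi_of hB h' hy, abs_zero, mul_zero, mul_zero]
    · rw [ind_of h, ind_of h', one_mul, one_mul]
      refine Finset.sum_congr rfl fun x _ => Finset.sum_congr rfl fun y _ => ?_
      rw [t.fr_xi_not h, t.fr_xi_not h']
      rfl

/-- weak part with frozen faces -/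
theorem fr_WK_le (hB : 1 ≤ B) {dd : ℝ} (hdd : 0 ≤ dd) {H : φ → φ → Prop}
    (hH : ∀ x ∈ S 0, ∀ y ∈ S 1, ¬ H x y → t.rd2 x y ≤ dd * t.mg2 0 1 x y) :
    (t.fr T).WK B ≤ ∑ i, ind (¬ T i) * t.ph B i + ((2 + B * dd) * (ind (¬ T 0) * ind (¬ T 1) * t.PA B 0 1) +
      ind (¬ T 0) * ind (¬ T 2) * t.PA B 0 2 + ind (¬ T 1) * ind (¬ T 2) * t.PA B 1 2) +
      B * dd * (t.mx B 0 * t.mx B 1) + 2 * B * (ind (¬ T 0) * ind (¬ T 1) * t.HB B H) := by
  have h := (t.fr T).WK_le (B := B) hB hdd (H := H) (fun x hx y hy hxy => hH x hx y hy hxy)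
  rw [t.fr_PA hB, t.fr_PA hB, t.fr_PA hB, t.fr_HB hB, t.fr_mx hB, t.fr_mx hB] at h
  have e : ∑ i, (t.fr T).ph B i = ∑ i, ind (¬ T i) * t.ph B i := Finset.sum_congr rfl fun i _ => t.fr_ph hB i
  rw [e] at h
  have h0 := t.mx_nn (B := B) 0
  have h1 := t.mx_nn (B := B) 1
  have m0 : ind (¬ T 0) * t.mx B 0 ≤ t.mx B 0 := mul_le_of_le_one_left h0 (ind_le_one _)
  have m1 : ind (¬ T 1) * t.mx B 1 ≤ t.mx B 1 := mul_le_of_le_one_left h1 (ind_le_one _)
  have m2 : ind (¬ T 0) * t.mx B 0 * (ind (¬ T 1) * t.mx B 1) ≤ t.mx B 0 * t.mx B 1 :=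
    mul_le_mul m0 m1 (mul_nonneg (ind_nonneg _) h1) h0
  have m3 := mul_le_mul_of_nonneg_left m2 (show 0 ≤ B * dd by positivity)
  linarith

end three

end KT

section key

variable {Om : Type*} [Fintype Om] (P : FP Om) {α β γ φ : Type*} {Z : Om → β} {Zb : Fin 3 → Om → α}
  (F : Fin 3 → Om → φ) (Y : Fin 3 → Om → γ)

variable (hZ : ∀ i, Fac Z (Zb i))

variable {B eps : ℝ} {al : Om → ℝ}

include hZ in
/-- **ABSOLUTE PAIR TERMS, indicators of the two faces** -/
theorem pair_gen2 (hB : Real.exp 2 ≤ B) (i k : Fin 3) (h : Om → φ → φ → ℝ) (hf : ∀ x y, Fac Z (fun w => h w x y))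
    (hn : ∀ w x y, 0 ≤ h w x y)
    (hh : ∀ l m : Om → φ → ℝ, (∀ x, Fac (Zb i) (fun w => l w x)) → (∀ y, Fac (Zb k) (fun w => m w y)) →
      (∀ w x, 0 ≤ l w x) → (∀ w y, 0 ≤ m w y) →
      P.E (fun w => ∑ x ∈ vals (F i), ∑ y ∈ vals (F k), h w x y * (l w x * m w y)) ≤
        eps * Real.sqrt (P.E (fun w => ∑ x ∈ vals (F i), qF P Zb F i w x * l w x ^ 2) *
          P.E (fun w => ∑ y ∈ vals (F k), qF P Zb F k w y * m w y ^ 2))) (heps : 0 ≤ eps) :
    P.E (fun w => ∑ x ∈ vals (F i), ∑ y ∈ vals (F k), h w x y *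
      ((ind (¬ B < tF P Z Zb Y i w) * |xF P F Y (Zb := Zb) B i w x|) *
        (ind (¬ B < tF P Z Zb Y k w) * |xF P F Y (Zb := Zb) B k w y|))) ≤
      B ^ 2 * eps * (gn P (Zb i) (F i) (Y i) + gn P (Zb k) (F k) (Y k)) := by
  have hB1 : 1 ≤ B := by
    have := Real.add_one_le_exp 2
    linarith
  have hB0 : 0 ≤ B := by linarith
  set u : Fin 3 → Om → φ → ℝ := fun j w x => ind (¬ B < tF P Z Zb Y j w) * |xF P F Y (Zb := Zb) B j w x| with hu
  -- condition on `Z`
  have k2 : P.E (fun w => ∑ x ∈ vals (F i), ∑ y ∈ vals (F k), h w x y * (u i w x * u k w y)) ≤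
      P.E (fun w => ∑ x ∈ vals (F i), ∑ y ∈ vals (F k), h w x y *
        (B * (lam P (Zb i) (F i) (Y i) B w x * lam P (Zb k) (F k) (Y k) B w y))) := by
    rw [P.E_sum, P.E_sum]
    refine Finset.sum_le_sum fun x _ => ?_
    rw [P.E_sum, P.E_sum]
    refine Finset.sum_le_sum fun y _ => ?_
    rw [← P.E_mul_ce (hf x y) (fun w => u i w x * u k w y)]
    refine P.E_mono fun w hw => mul_le_mul_of_nonneg_left ?_ (hn w x y)
    have c1 := P.ce_mul_sq_le Z (fun w => u i w x) (fun w => u k w y) w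
    have c2 : ∀ j (z : φ), P.ce Z (fun w => u j w z ^ 2) w ≤ B * lam P (Zb j) (F j) (Y j) B w z ^ 2 := by
      intro j z
      refine le_trans (le_of_eq ?_) (ce_lam_le P (Zb j) Z (F j) (Y j) (hZ j) hB0 w z)
      refine P.ce_congr (fun v _ => ?_) w
      simp only [hu]
      rw [mul_pow, sq_abs]
      have : ind (¬ B < tF P Z Zb Y j v) ^ 2 = ind (¬ B < tF P Z Zb Y j v) := by
        by_cases hv : ¬ B < tF P Z Zb Y j v
        · rw [ind_of hv]; ring
        · rw [ind_not hv]; ring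
      rw [this]
      rfl
    have c3 : 0 ≤ P.ce Z (fun w => u k w y ^ 2) w := P.ce_nonneg (fun _ _ => sq_nonneg _) w
    have c4 : P.ce Z (fun w => u i w x * u k w y) w ^ 2 ≤
        (B * (lam P (Zb i) (F i) (Y i) B w x * lam P (Zb k) (F k) (Y k) B w y)) ^ 2 := by
      refine c1.trans ?_
      have a1 := c2 i x
      have a2 := c2 k y
      have a3 : 0 ≤ B * lam P (Zb i) (F i) (Y i) B w x ^ 2 := mul_nonneg hB0 (sq_nonneg _)
      refine (mul_le_mul a1 a2 c3 a3).trans (le_of_eq (by ring))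
    have c5 : 0 ≤ B * (lam P (Zb i) (F i) (Y i) B w x * lam P (Zb k) (F k) (Y k) B w y) :=
      mul_nonneg hB0 (mul_nonneg (lam_nn P _ _ _ _ _) (lam_nn P _ _ _ _ _))
    exact (le_abs_self _).trans (abs_le_of_sq_le_sq c4 c5)
  have k3 := hh (lam P (Zb i) (F i) (Y i) B) (lam P (Zb k) (F k) (Y k) B) (fun x => lam_fac P _ _ _ x)
    (fun y => lam_fac P _ _ _ y) (fun w x => lam_nn P _ _ _ _ _) (fun w y => lam_nn P _ _ _ _ _)
  have e1 : P.E (fun w => ∑ x ∈ vals (F i), ∑ y ∈ vals (F k), h w x y *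
        (B * (lam P (Zb i) (F i) (Y i) B w x * lam P (Zb k) (F k) (Y k) B w y))) =
      B * P.E (fun w => ∑ x ∈ vals (F i), ∑ y ∈ vals (F k), h w x y *
        (lam P (Zb i) (F i) (Y i) B w x * lam P (Zb k) (F k) (Y k) B w y)) := by
    rw [← P.E_smul]
    refine P.E_congr fun w _ => ?_
    rw [Finset.mul_sum]
    refine Finset.sum_congr rfl fun x _ => ?_
    rw [Finset.mul_sum]
    exact Finset.sum_congr rfl fun y _ => by ring
  rw [e1] at k2
  have gi := gn_nn P (Zb i) (F i) (Y i)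
  have gk := gn_nn P (Zb k) (F k) (Y k)
  have k4 : Real.sqrt (P.E (fun w => ∑ x ∈ vals (F i), qF P Zb F i w x * lam P (Zb i) (F i) (Y i) B w x ^ 2) *
      P.E (fun w => ∑ y ∈ vals (F k), qF P Zb F k w y * lam P (Zb k) (F k) (Y k) B w y ^ 2)) ≤
      B * (gn P (Zb i) (F i) (Y i) + gn P (Zb k) (F k) (Y k)) := by
    have a1 := E_lam P (Zb i) (F i) (Y i) hB
    have a2 := E_lam P (Zb k) (F k) (Y k) hB
    have a3 : 0 ≤ P.E (fun w => ∑ y ∈ vals (F k), qF P Zb F k w y * lam P (Zb k) (F k) (Y k) B w y ^ 2) :=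
      P.E_nonneg fun w _ => Finset.sum_nonneg fun y _ => mul_nonneg (P.pv_nonneg _ _ _ _) (sq_nonneg _)
    refine Real.sqrt_le_iff.2 ⟨by positivity, ?_⟩
    refine (mul_le_mul a1 a2 a3 (by positivity)).trans ?_
    nlinarith [sq_nonneg (gn P (Zb i) (F i) (Y i) - gn P (Zb k) (F k) (Y k)), sq_nonneg B,
      mul_nonneg (sq_nonneg B) (sq_nonneg (gn P (Zb i) (F i) (Y i) - gn P (Zb k) (F k) (Y k)))]
  have k5 := mul_le_mul_of_nonneg_left (k3.trans (mul_le_mul_of_nonneg_left k4 heps)) hB0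
  refine k2.trans (k5.trans (le_of_eq (by ring)))

variable (Z Zb) in
/-- the tuple has a letter of a thin strong face which is not close to `1` -/
def CutF (B e2 : ℝ) (w : Om) (f : Fin 3 → φ) : Prop :=
  ∃ i, B < tF P Z Zb Y i w ∧ e2 < |rF P Zb F Y i w (f i) - 1|

variable (Z Zb) in
/-- released weak letters off the cut -/
def RWXF (B e2 : ℝ) (a : Om → (Fin 3 → φ) → ℝ) (w : Om) : ℝ := ∑ f ∈ let_ F, ind (¬ CutF P Z Zb F Y B e2 w f) *
  ((1 - a w f) * ((∏ i, hwk B (rF P Zb F Y i w (f i))) * |pF P Z F w f - ∏ i, qF P Zb F i w (f i)|))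

variable (Z Zb) in
/-- the price of the frozen faces at a point -/
def FRF (B e2 : ℝ) (w : Om) : ℝ := ∑ i, ind (B < tF P Z Zb Y i w) *
  (14 * e2 + ∑ x ∈ vals (F i), qF P Zb F i w x * ind (e2 < |rF P Zb F Y i w x - 1|))

include hZ in
/-- **KEY3, THIN STRONG FACES FROZEN**: at the points outside `Tq` (any event) every face with thin ratio `> B` is frozen -/
theorem key3x (hB : Real.exp 2 ≤ B) {d dd eta e1 e2 c1 c2 : ℝ} (hd : 0 ≤ d) (hdd : 0 ≤ dd) (heta : 0 ≤ eta)
    (heta1 : eta ≤ 1) (he1 : 0 ≤ e1) (heB : 1 + e1 ≤ B) (he2 : 0 ≤ e2) (he21 : e2 ≤ 1) (heps : 0 ≤ eps)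
    (hc1 : (1 + e1) ^ 2 - 1 + eta + (B ^ 2 * dd + d) ≤ c1) (hc2 : (1 + e1) ^ 2 + (B ^ 2 * dd + 1) ≤ c2)
    (hal : Fac Z al) (h0 : ∀ w, 0 ≤ al w) (h1 : ∀ w, al w ≤ 1)
    {G a : Om → (Fin 3 → φ) → ℝ} {Reg : Om → (Fin 3 → φ) → Prop} {ai : Om → Fin 3 → φ → ℝ} {bd : Om → Fin 3 → φ → Prop}
    {Tq : Om → Prop} {H : Om → φ → φ → Prop} (ha0 : ∀ w f, 0 ≤ a w f) (ha1 : ∀ w f, a w f ≤ 1)
    (hai0 : ∀ w i x, 0 ≤ ai w i x) (hai1 : ∀ w i x, ai w i x ≤ 1)
    -- the cut density
    (hG : ∀ w, P.p w ≠ 0 → ∀ f ∈ let_ F, ¬ Reg w f → G w f = pF P Z F w f / ∏ i, qF P Zb F i w (f i))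
    (hGR : ∀ w, P.p w ≠ 0 → ∀ f ∈ let_ F, Reg w f → G w f ≤ eta)
    -- released letters with bad rows
    (hai : ∀ w, P.p w ≠ 0 → ∀ f ∈ let_ F, ∀ i, SBF P (Zb := Zb) F Y B bd i w (f i) →
      (∀ k, k ≠ i → ¬ SBF P (Zb := Zb) F Y B bd k w (f k)) → a w f = ai w i (f i))
    -- the region
    (Ra : ∀ w, P.p w ≠ 0 → ∀ f ∈ let_ F, ∀ i, SBF P (Zb := Zb) F Y B bd i w (f i) → ∀ k, k ≠ i →
      1 + e1 < rF P Zb F Y k w (f k) → Reg w f)
    (Rb : ∀ w, P.p w ≠ 0 → ∀ f ∈ let_ F, ∀ i, B < rF P Zb F Y i w (f i) → bxF P F Y (Z := Z) (Zb := Zb) B d i w (f i) → Reg w f)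
    (Rc : ∀ w, P.p w ≠ 0 → ∀ f ∈ let_ F, ∀ i k, i ≠ k → B < rF P Zb F Y i w (f i) → B < rF P Zb F Y k w (f k) →
      (1 + d) * ∏ j, qF P Zb F j w (f j) < pF P Z F w f → Reg w f)
    (hgood : ∀ w, P.p w ≠ 0 → ∀ i, ∀ x ∈ vals (F i), B < rF P Zb F Y i w x → ¬ bd w i x →
      ∑ f ∈ let_ F, ind (f i = x) * |pF P Z F w f - mF P Z F i w (f i) * ∏ k ∈ univ.erase i, qF P Zb F k w (f k)| ≤
        dd * mF P Z F i w x)
    -- outside `Tq` the weak part of the region is the cut
    (hR1 : ∀ w, P.p w ≠ 0 → ¬ Tq w → ∀ f ∈ let_ F, (¬ ∃ i, B < rF P Zb F Y i w (f i)) → ¬ CutF P Z Zb F Y B e2 w f →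
      ¬ Reg w f)
    (hR2 : ∀ w, P.p w ≠ 0 → ¬ Tq w → ∀ f ∈ let_ F, CutF P Z Zb F Y B e2 w f → Reg w f)
    -- two tops
    (hpair : ∀ i k : Fin 3, i < k → ∀ l m : Om → φ → ℝ, (∀ x, Fac (Zb i) (fun w => l w x)) →
      (∀ y, Fac (Zb k) (fun w => m w y)) → (∀ w x, 0 ≤ l w x) → (∀ w y, 0 ≤ m w y) →
      P.E (fun w => ∑ x ∈ vals (F i), ∑ y ∈ vals (F k),
        al w * |mF2 P Z F i k w x y - qF P Zb F i w x * qF P Zb F k w y| * (l w x * m w y)) ≤
        eps * Real.sqrt (P.E (fun w => ∑ x ∈ vals (F i), qF P Zb F i w x * l w x ^ 2) *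
          P.E (fun w => ∑ y ∈ vals (F k), qF P Zb F k w y * m w y ^ 2)))
    -- the third top against a pair
    (hHf : ∀ x y, Fac Z (fun w => ind (H w x y)))
    (hH : ∀ w, P.p w ≠ 0 → ¬ Tq w → ∀ x ∈ vals (F 0), ∀ y ∈ vals (F 1), ¬ H w x y →
      ∑ f ∈ let_ F, ind (f 0 = x ∧ f 1 = y) * |pF P Z F w f - mF2 P Z F 0 1 w x y * qF P Zb F 2 w (f 2)| ≤
        dd * mF2 P Z F 0 1 w x y)
    (htrip : ∀ l m : Om → φ → ℝ, (∀ x, Fac (Zb 0) (fun w => l w x)) →
      (∀ y, Fac (Zb 1) (fun w => m w y)) → (∀ w x, 0 ≤ l w x) → (∀ w y, 0 ≤ m w y) →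
      P.E (fun w => ∑ x ∈ vals (F 0), ∑ y ∈ vals (F 1),
        al w * (ind (H w x y) * mF2 P Z F 0 1 w x y) * (l w x * m w y)) ≤
        eps * Real.sqrt (P.E (fun w => ∑ x ∈ vals (F 0), qF P Zb F 0 w x * l w x ^ 2) *
          P.E (fun w => ∑ y ∈ vals (F 1), qF P Zb F 1 w y * m w y ^ 2))) :
    P.E (fun w => al w * ∑ f ∈ let_ F, (∏ i, qF' P Zb F Y i w (f i)) * (a w f * (G w f - 1))) ≤
      (c1 + c2 * d + (4 + 2 * B + B * dd) * (B ^ 2 * eps) + B ^ 2 * dd) * ∑ i, gn P (Zb i) (F i) (Y i) +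
      (c2 * B + 1) * ∑ i, Gd P (Zb i) Z (F i) (Y i) al +
      B * ∑ i, Real.sqrt (8 * (Gd P (Zb i) Z (F i) (Y i) al * Dt P (Zb i) Z (Y i))) +
      B * P.E (fun w => al w * (ind (Tq w) * ∑ i, TVF P Z Zb F i w)) +
      P.E (fun w => al w * (ind (Tq w) * WKGF P Zb F Y B a G w)) +
      P.E (fun w => al w * PRF P F Y (Zb := Zb) B bd ai w) +
      P.E (fun w => al w * (ind (¬ Tq w) * RWXF P Z Zb F Y B e2 a w)) +
      B ^ 3 * P.E (fun w => al w * (ind (¬ Tq w) * FRF P Z Zb F Y B e2 w)) := by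
  classical
  have hB1 : 1 ≤ B := by
    have := Real.add_one_le_exp 2
    linarith
  have hB2 : 2 ≤ B := by
    have := Real.add_one_le_exp 2
    linarith
  have hB0 : 0 ≤ B := by linarith
  have hpw1 : (1 : ℝ) ≤ (1 + e1) ^ 2 := one_le_pow₀ (by linarith)
  have hc10 : 0 ≤ c1 := by
    have : 0 ≤ B ^ 2 * dd := by positivity
    linarith
  have hc20 : 0 ≤ c2 := by
    have : 0 ≤ B ^ 2 * dd := by positivity
    linarith
  -- the frozen faces
  set T : Om → Fin 3 → Prop := fun w i => B < tF P Z Zb Y i w with hTdef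
  -- one point
  have A1 : ∀ w, P.p w ≠ 0 → al w * ∑ f ∈ let_ F, (∏ i, qF' P Zb F Y i w (f i)) * (a w f * (G w f - 1)) ≤
      al w * (ind (¬ Tq w) * (∑ i, ind (¬ T w i) * phi1 P (Zb i) Z (F i) (Y i) B w (Y i w) +
        ((2 + B * dd) * (ind (¬ T w 0) * ind (¬ T w 1) * PAF P F Y (Z := Z) (Zb := Zb) B 0 1 w) +
        ind (¬ T w 0) * ind (¬ T w 2) * PAF P F Y (Z := Z) (Zb := Zb) B 0 2 w +
        ind (¬ T w 1) * ind (¬ T w 2) * PAF P F Y (Z := Z) (Zb := Zb) B 1 2 w) +
        B * dd * (mxF P F Y (Zb := Zb) B 0 w * mxF P F Y (Zb := Zb) B 1 w) +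
        2 * B * (ind (¬ T w 0) * ind (¬ T w 1) * HBF P F Y (Z := Z) (Zb := Zb) B H w))) +
      al w * (ind (¬ Tq w) * RWXF P Z Zb F Y B e2 a w) +
        B ^ 3 * (al w * (ind (¬ Tq w) * FRF P Z Zb F Y B e2 w)) +
        al w * (ind (Tq w) * WKGF P Zb F Y B a G w) +
        al w * STF P F Y (Z := Z) (Zb := Zb) B d c1 c2 w + al w * PRF P F Y (Zb := Zb) B bd ai w := by
    intro w hw
    set t := tK P F Y hZ hw with ht
    have hr : ∀ i x, t.r i x = rF P Zb F Y i w x := tK_r P F Y hZ hw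
    have hmg : ∀ i x, t.mg i x = mF P Z F i w x := tK_mg P F Y hZ hw
    have hmg2 : ∀ i k x y, t.mg2 i k x y = mF2 P Z F i k w x y := tK_mg2 P F Y hZ hw
    have hxi : ∀ i x, t.xi B i x = xF P F Y (Zb := Zb) B i w x := tK_xi P F Y hZ hw B
    have hq : ∀ i x, t.q i x = qF P Zb F i w x := fun i x => rfl
    have hCut : ∀ f, t.Cut (T w) e2 f ↔ CutF P Z Zb F Y B e2 w f := by
      intro f
      unfold KT.Cut CutF
      simp only [hr]
      rfl
    have main : ∑ f ∈ let_ F, (∏ i, qF' P Zb F Y i w (f i)) * (a w f * (G w f - 1)) ≤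
        ind (¬ Tq w) * (∑ i, ind (¬ T w i) * phi1 P (Zb i) Z (F i) (Y i) B w (Y i w) +
          ((2 + B * dd) * (ind (¬ T w 0) * ind (¬ T w 1) * PAF P F Y (Z := Z) (Zb := Zb) B 0 1 w) +
          ind (¬ T w 0) * ind (¬ T w 2) * PAF P F Y (Z := Z) (Zb := Zb) B 0 2 w +
          ind (¬ T w 1) * ind (¬ T w 2) * PAF P F Y (Z := Z) (Zb := Zb) B 1 2 w) +
          B * dd * (mxF P F Y (Zb := Zb) B 0 w * mxF P F Y (Zb := Zb) B 1 w) +
          2 * B * (ind (¬ T w 0) * ind (¬ T w 1) * HBF P F Y (Z := Z) (Zb := Zb) B H w)) +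
        ind (¬ Tq w) * RWXF P Z Zb F Y B e2 a w + B ^ 3 * (ind (¬ Tq w) * FRF P Z Zb F Y B e2 w) +
          ind (Tq w) * WKGF P Zb F Y B a G w +
          STF P F Y (Z := Z) (Zb := Zb) B d c1 c2 w + PRF P F Y (Zb := Zb) B bd ai w := by
      have k2 := t.strong_le (B := B) (d := d) (dd := dd) (eta := eta) (e1 := e1) (bd := bd w)
        (bx := fun i x => bxF P F Y (Z := Z) (Zb := Zb) B d i w x) (Reg := Reg w) (G := G w) (a := a w) (ai := ai w)
        hB1 hd hdd heta heta1 he1 heB (hG w hw) (hGR w hw) (ha0 w) (ha1 w) (hai0 w) (hai1 w)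
        (fun f hf i hi hk => hai w hw f hf i (by unfold SBF; unfold KT.SB at hi; rw [hr] at hi; exact hi)
          (fun k hki hs => hk k hki (by unfold KT.SB; rw [hr]; exact hs)))
        (fun f hf i hi k hki hk => Ra w hw f hf i (by unfold SBF; unfold KT.SB at hi; rw [hr] at hi; exact hi) k hki
          (by rw [hr] at hk; exact hk))
        (fun f hf i hi hb => Rb w hw f hf i (by rw [hr] at hi; exact hi) hb)
        (fun f hf i k hik hi hk hp => Rc w hw f hf i k hik (by rw [hr] at hi; exact hi) (by rw [hr] at hk; exact hk) hp)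
        (fun i x hx hs hb => by
          have := hgood w hw i x hx (by rw [hr] at hs; exact hs) hb
          rw [hmg]
          refine le_trans (le_of_eq (Finset.sum_congr rfl fun f _ => ?_)) this
          unfold KT.rowd
          rw [hmg]
          rfl)
        (c1 := c1) (c2 := c2) hc1 hc2
      have k3 := t.split_sum (B := B) (fun f => (∏ i, t.q' i (f i)) * (a w f * (G w f - 1)))
      have e3 : ∑ i, ∑ x ∈ vals (F i), ind (B < t.r i x) * (c1 * t.q' i x + c2 * (t.r i x *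
          (ind (¬ bxF P F Y (Z := Z) (Zb := Zb) B d i w x) * t.ke i x))) =
          STF P F Y (Z := Z) (Zb := Zb) B d c1 c2 w := by
        unfold STF KT.ke
        refine Finset.sum_congr rfl fun i _ => Finset.sum_congr rfl fun x _ => ?_
        rw [hr, hmg]
        rfl
      have e4 : ∑ i, t.Qa B (bd w) (ai w) i * ∑ k ∈ univ.erase i, t.Qs B (bd w) k =
          PRF P F Y (Zb := Zb) B bd ai w := by
        unfold KT.Qa KT.Qs PRF
        refine Finset.sum_congr rfl fun i _ => ?_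
        congr 1
        · refine Finset.sum_congr rfl fun x _ => ?_
          unfold KT.SB SBF
          rw [hr]
          rfl
        · refine Finset.sum_congr rfl fun k _ => Finset.sum_congr rfl fun x _ => ?_
          unfold KT.SB SBF
          rw [hr]
          rfl
      rw [e3, e4] at k2
      refine le_trans (le_of_eq k3) ?_
      by_cases hT : Tq w
      · have e5 : ∑ f ∈ let_ F, ind (¬ ∃ i, B < t.r i (f i)) * ((∏ i, t.q' i (f i)) * (a w f * (G w f - 1))) =
            WKGF P Zb F Y B a G w := by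
          unfold WKGF
          refine Finset.sum_congr rfl fun f hf => ?_
          have e7 : (∏ i, hwk B (rF P Zb F Y i w (f i))) = ∏ i, hwk B (t.r i (f i)) :=
            Finset.prod_congr rfl fun i _ => by rw [hr]
          rw [e7]
          by_cases hs : ∃ i, B < t.r i (f i)
          · rw [ind_not (not_not.2 hs), t.prod_hwk_strong hs]
            ring
          · rw [ind_of hs, t.prod_hwk_weak hs, ← t.prod_rq hf]
            have e8 : t.pq f = ∏ i, qF P Zb F i w (f i) := rfl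
            rw [e8]
            ring
        rw [ind_not (not_not.2 hT), ind_of hT]
        have e6 : ∑ f ∈ let_ F, ind (¬ ∃ i, B < t.r i (f i)) * ((∏ i, t.q' i (f i)) * (a w f * (G w f - 1))) =
          ∑ f ∈ Fintype.piFinset fun i => vals (F i), ind (¬ ∃ i, B < t.r i (f i)) *
            ((∏ i, t.q' i (f i)) * (a w f * (G w f - 1))) := rfl
        rw [← e6, e5]
        linarith
      · have k1 := t.weak_leX (T := T w) (B := B) (e2 := e2) (Reg := Reg w) (G := G w) (a := a w) he2 (by linarith)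
          (hG w hw) (fun f hf hR => (hGR w hw f hf hR).trans heta1) (ha0 w) (ha1 w)
          (fun f hf hs hC => hR1 w hw hT f hf (fun ⟨i, hi⟩ => hs ⟨i, by rw [hr]; exact hi⟩)
            (fun h => hC ((hCut f).2 h)))
          (fun f hf hC => hR2 w hw hT f hf ((hCut f).1 hC))
        have k4 := t.fr_WK_le (T := T w) (B := B) hB1 hdd (H := H w) (fun x hx y hy hxy => by
          have := hH w hw hT x hx y hy hxy
          rw [hmg2]
          refine le_trans (le_of_eq (Finset.sum_congr rfl fun f _ => ?_)) this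
          rw [hmg2]
          rfl)
        have f2 : ∀ i, t.ph B i = phi1 P (Zb i) Z (F i) (Y i) B w (Y i w) := by
          intro i
          unfold KT.ph phi1
          refine Finset.sum_congr rfl fun x _ => ?_
          rw [hmg, hxi]
          rfl
        have f3 : ∀ i k, t.PA B i k = PAF P F Y (Z := Z) (Zb := Zb) B i k w := by
          intro i k
          unfold KT.PA PAF
          refine Finset.sum_congr rfl fun x _ => Finset.sum_congr rfl fun y _ => ?_
          rw [hmg2, hxi, hxi]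
          rfl
        have f4 : t.HB B (H w) = HBF P F Y (Z := Z) (Zb := Zb) B H w := by
          unfold KT.HB HBF
          refine Finset.sum_congr rfl fun x _ => Finset.sum_congr rfl fun y _ => ?_
          rw [hmg2, hxi, hxi]
        have f5 : ∀ i, t.mx B i = mxF P F Y (Zb := Zb) B i w := by
          intro i
          unfold KT.mx mxF
          refine Finset.sum_congr rfl fun x _ => ?_
          rw [hxi]
          rfl
        have f6 : t.RWX B (T w) e2 (a w) = RWXF P Z Zb F Y B e2 a w := by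
          unfold KT.RWX RWXF
          refine Finset.sum_congr rfl fun f _ => ?_
          rw [hCut f]
          simp only [hr]
          rfl
        have f7 : B ^ (Fintype.card (Fin 3)) * (2 * (ind (∃ i, T w i) * ((1 + e2) ^ (Fintype.card (Fin 3)) - 1)) +
            ∑ i, t.CM (T w) e2 i) ≤ B ^ 3 * FRF P Z Zb F Y B e2 w := by
          have hc : Fintype.card (Fin 3) = 3 := by decide
          rw [hc]
          refine mul_le_mul_of_nonneg_left ?_ (by positivity)
          have g1 : (1 + e2) ^ 3 - 1 ≤ 7 * e2 := by nlinarith [mul_nonneg he2 he2, mul_nonneg (mul_nonneg he2 he2) he2]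
          have g2 : ind (∃ i, T w i) ≤ ∑ i, ind (T w i) := by
            by_cases hex : ∃ i, T w i
            · obtain ⟨i, hi⟩ := hex
              rw [ind_of ⟨i, hi⟩]
              have := Finset.single_le_sum (f := fun i => ind (T w i)) (fun j _ => ind_nonneg _) (mem_univ i)
              rw [ind_of hi] at this
              exact this
            · rw [ind_not hex]
              exact Finset.sum_nonneg fun j _ => ind_nonneg _
          have g3 : ind (∃ i, T w i) * ((1 + e2) ^ 3 - 1) ≤ (∑ i, ind (T w i)) * (7 * e2) :=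
            mul_le_mul g2 g1 (by
              have : (1 : ℝ) ≤ (1 + e2) ^ 3 := one_le_pow₀ (by linarith)
              linarith) (Finset.sum_nonneg fun j _ => ind_nonneg _)
          have g4 : FRF P Z Zb F Y B e2 w = (∑ i, ind (T w i)) * (14 * e2) + ∑ i, t.CM (T w) e2 i := by
            unfold FRF KT.CM
            rw [Finset.sum_mul, ← Finset.sum_add_distrib]
            refine Finset.sum_congr rfl fun i _ => ?_
            rw [mul_add]
            simp only [hr]
            rfl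
          rw [g4]
          linarith
        simp only [f2, f3, f4, f5] at k4
        rw [f6] at k1
        rw [ind_of hT, ind_not hT]
        linarith
    have := mul_le_mul_of_nonneg_left main (h0 w)
    linarith
  -- the weak part at a point
  set m : Fin 3 → Om → ℝ := fun i w => mxF P F Y (Zb := Zb) B i w with hm
  have hm0 : ∀ i w, 0 ≤ m i w := fun i w => Finset.sum_nonneg fun x _ => mul_nonneg (P.pv_nonneg _ _ _ _) (abs_nonneg _)
  have hPA0 : ∀ i k w, 0 ≤ PAF P F Y (Z := Z) (Zb := Zb) B i k w := fun i k w => Finset.sum_nonneg fun x _ =>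
    Finset.sum_nonneg fun y _ => mul_nonneg (abs_nonneg _) (mul_nonneg (abs_nonneg _) (abs_nonneg _))
  have hHB0 : ∀ w, 0 ≤ HBF P F Y (Z := Z) (Zb := Zb) B H w := fun w => Finset.sum_nonneg fun x _ =>
    Finset.sum_nonneg fun y _ => mul_nonneg (mul_nonneg (ind_nonneg _) (P.pv_nonneg _ _ _ _))
      (mul_nonneg (abs_nonneg _) (abs_nonneg _))
  have hTV0 : ∀ i w, 0 ≤ TVF P Z Zb F i w := fun i w => Finset.sum_nonneg fun x _ => abs_nonneg _
  have A2 : ∀ w, P.p w ≠ 0 → al w * (ind (¬ Tq w) * (∑ i, ind (¬ T w i) * phi1 P (Zb i) Z (F i) (Y i) B w (Y i w) +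
        ((2 + B * dd) * (ind (¬ T w 0) * ind (¬ T w 1) * PAF P F Y (Z := Z) (Zb := Zb) B 0 1 w) +
        ind (¬ T w 0) * ind (¬ T w 2) * PAF P F Y (Z := Z) (Zb := Zb) B 0 2 w +
        ind (¬ T w 1) * ind (¬ T w 2) * PAF P F Y (Z := Z) (Zb := Zb) B 1 2 w) +
        B * dd * (mxF P F Y (Zb := Zb) B 0 w * mxF P F Y (Zb := Zb) B 1 w) +
        2 * B * (ind (¬ T w 0) * ind (¬ T w 1) * HBF P F Y (Z := Z) (Zb := Zb) B H w))) ≤
      ∑ i, al w * (ind (¬ B < tau P (Zb i) Z (Y i) w (Y i w)) * phi1 P (Zb i) Z (F i) (Y i) B w (Y i w)) +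
      B * (al w * (ind (Tq w) * ∑ i, TVF P Z Zb F i w)) +
      ((2 + B * dd) * (ind (¬ T w 0) * ind (¬ T w 1) * (al w * PAF P F Y (Z := Z) (Zb := Zb) B 0 1 w)) +
        ind (¬ T w 0) * ind (¬ T w 2) * (al w * PAF P F Y (Z := Z) (Zb := Zb) B 0 2 w) +
        ind (¬ T w 1) * ind (¬ T w 2) * (al w * PAF P F Y (Z := Z) (Zb := Zb) B 1 2 w)) +
      2 * B * (ind (¬ T w 0) * ind (¬ T w 1) * (al w * HBF P F Y (Z := Z) (Zb := Zb) B H w)) +
      B * dd * (m 0 w * m 1 w) := by
    intro w hw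
    set t := tK P F Y hZ hw with ht
    have hmg : ∀ i x, t.mg i x = mF P Z F i w x := tK_mg P F Y hZ hw
    have hxi : ∀ i x, t.xi B i x = xF P F Y (Zb := Zb) B i w x := tK_xi P F Y hZ hw B
    have e2' : ∀ i, t.ph B i = phi1 P (Zb i) Z (F i) (Y i) B w (Y i w) := by
      intro i
      unfold KT.ph phi1
      refine Finset.sum_congr rfl fun x _ => ?_
      rw [hmg, hxi]
      rfl
    have a0 := h0 w
    have a1 := h1 w
    have mm : ∀ i k, 0 ≤ m i w * m k w := fun i k => mul_nonneg (hm0 i w) (hm0 k w)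
    have n1 : 0 ≤ B * dd * (m 0 w * m 1 w) := mul_nonneg (by positivity) (mm 0 1)
    have b : ∀ i, -(B * (al w * TVF P Z Zb F i w)) ≤ al w * (ind (¬ B < tau P (Zb i) Z (Y i) w (Y i w)) *
        phi1 P (Zb i) Z (F i) (Y i) B w (Y i w)) := fun i => by
      have q0 : |phi1 P (Zb i) Z (F i) (Y i) B w (Y i w)| ≤ B * TVF P Z Zb F i w := by
        rw [← e2' i]
        refine (t.abs_ph_le hB1 i).trans (mul_le_mul_of_nonneg_left ?_ hB0)
        refine le_of_eq (Finset.sum_congr rfl fun x _ => ?_)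
        rw [hmg]
        rfl
      have b1 : |al w * (ind (¬ B < tau P (Zb i) Z (Y i) w (Y i w)) * phi1 P (Zb i) Z (F i) (Y i) B w (Y i w))| ≤
          B * (al w * TVF P Z Zb F i w) := by
        rw [abs_mul, abs_mul, abs_of_nonneg a0, abs_of_nonneg (ind_nonneg _)]
        have b2 := mul_le_of_le_one_left (abs_nonneg (phi1 P (Zb i) Z (F i) (Y i) B w (Y i w)))
          (ind_le_one (¬ B < tau P (Zb i) Z (Y i) w (Y i w)))
        have b3 := mul_le_mul_of_nonneg_left (b2.trans q0) a0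
        linarith
      exact (abs_le.1 b1).1
    have i2 : ∀ i k, 0 ≤ ind (¬ T w i) * ind (¬ T w k) := fun i k => mul_nonneg (ind_nonneg _) (ind_nonneg _)
    have p01 := mul_nonneg (i2 0 1) (mul_nonneg a0 (hPA0 0 1 w))
    have p02 := mul_nonneg (i2 0 2) (mul_nonneg a0 (hPA0 0 2 w))
    have p12 := mul_nonneg (i2 1 2) (mul_nonneg a0 (hPA0 1 2 w))
    have ph := mul_nonneg (i2 0 1) (mul_nonneg a0 (hHB0 w))
    have p01' := mul_nonneg (show 0 ≤ 2 + B * dd by positivity) p01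
    have ph' := mul_nonneg (show 0 ≤ 2 * B by positivity) ph
    by_cases hT : Tq w
    · rw [ind_not (not_not.2 hT), ind_of hT, zero_mul, mul_zero, Fin.sum_univ_three, Fin.sum_univ_three]
      have b0 := b 0
      have b1 := b 1
      have b2 := b 2
      simp only [one_mul]
      linarith
    · have hi : ∀ i, ind (¬ B < tau P (Zb i) Z (Y i) w (Y i w)) = ind (¬ T w i) := fun i => rfl
      rw [ind_not hT, ind_of hT]
      simp only [hi, one_mul, zero_mul, mul_zero, add_zero]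
      rw [← Finset.mul_sum]
      have r2 := mul_le_of_le_one_left n1 a1
      have hmm : m 0 w * m 1 w = mxF P F Y (Zb := Zb) B 0 w * mxF P F Y (Zb := Zb) B 1 w := rfl
      rw [hmm] at r2 ⊢
      linarith
  -- pairs
  have B1 : ∀ i k : Fin 3, i < k → P.E (fun w => ind (¬ T w i) * ind (¬ T w k) *
      (al w * PAF P F Y (Z := Z) (Zb := Zb) B i k w)) ≤
      B ^ 2 * eps * (gn P (Zb i) (F i) (Y i) + gn P (Zb k) (F k) (Y k)) := by
    intro i k hik
    have h2 := pair_gen2 P F Y hZ (eps := eps) hB i k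
      (fun w x y => al w * |mF2 P Z F i k w x y - qF P Zb F i w x * qF P Zb F k w y|)
      (fun x y a b hab => by
        show al a * |mF2 P Z F i k a x y - qF P Zb F i a x * qF P Zb F k a y| =
          al b * |mF2 P Z F i k b x y - qF P Zb F i b x * qF P Zb F k b y|
        unfold mF2 qF
        rw [hal a b hab, pvc P _ hab (x, y), pvc P (F i) (hZ i a b hab) x, pvc P (F k) (hZ k a b hab) y])
      (fun w x y => mul_nonneg (h0 w) (abs_nonneg _)) (hpair i k hik) heps
    refine le_trans (le_of_eq (P.E_congr fun w _ => ?_)) h2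
    unfold PAF
    rw [Finset.mul_sum, Finset.mul_sum]
    refine Finset.sum_congr rfl fun x _ => ?_
    rw [Finset.mul_sum, Finset.mul_sum]
    refine Finset.sum_congr rfl fun y _ => ?_
    simp only [hTdef]
    ring
  have B2 : P.E (fun w => ind (¬ T w 0) * ind (¬ T w 1) * (al w * HBF P F Y (Z := Z) (Zb := Zb) B H w)) ≤
      B ^ 2 * eps * (gn P (Zb 0) (F 0) (Y 0) + gn P (Zb 1) (F 1) (Y 1)) := by
    have h2 := pair_gen2 P F Y hZ (eps := eps) hB 0 1
      (fun w x y => al w * (ind (H w x y) * mF2 P Z F 0 1 w x y))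
      (fun x y a b hab => by
        have g := hHf x y a b hab
        simp only at g
        show al a * (ind (H a x y) * mF2 P Z F 0 1 a x y) = al b * (ind (H b x y) * mF2 P Z F 0 1 b x y)
        unfold mF2
        rw [hal a b hab, g, pvc P _ hab (x, y)])
      (fun w x y => mul_nonneg (h0 w) (mul_nonneg (ind_nonneg _) (P.pv_nonneg _ _ _ _))) htrip heps
    refine le_trans (le_of_eq (P.E_congr fun w _ => ?_)) h2
    unfold HBF
    rw [Finset.mul_sum, Finset.mul_sum]
    refine Finset.sum_congr rfl fun x _ => ?_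
    rw [Finset.mul_sum, Finset.mul_sum]
    refine Finset.sum_congr rfl fun y _ => ?_
    simp only [hTdef]
    ring
  have B4 : ∀ i k : Fin 3, P.E (fun w => m i w * m k w) ≤ B * (gn P (Zb i) (F i) (Y i) + gn P (Zb k) (F k) (Y k)) :=
    fun i k => E_mx_mul P F Y (Zb := Zb) hB i k
  have B5 : ∀ i, P.E (fun w => al w * (ind (¬ B < tau P (Zb i) Z (Y i) w (Y i w)) *
      phi1 P (Zb i) Z (F i) (Y i) B w (Y i w))) ≤ Gd P (Zb i) Z (F i) (Y i) al +
        B * Real.sqrt (8 * (Gd P (Zb i) Z (F i) (Y i) al * Dt P (Zb i) Z (Y i))) := fun i =>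
    (le_abs_self _).trans (first_le P (Zb i) Z (F i) (Y i) (hZ i) hB hal h0 h1)
  have B6 := E_ST P F Y hZ hB hd hc10 hc20 hal h0 h1
  -- the weak part in the mean
  have C1 : P.E (fun w => al w * (ind (¬ Tq w) * (∑ i, ind (¬ T w i) * phi1 P (Zb i) Z (F i) (Y i) B w (Y i w) +
        ((2 + B * dd) * (ind (¬ T w 0) * ind (¬ T w 1) * PAF P F Y (Z := Z) (Zb := Zb) B 0 1 w) +
        ind (¬ T w 0) * ind (¬ T w 2) * PAF P F Y (Z := Z) (Zb := Zb) B 0 2 w +
        ind (¬ T w 1) * ind (¬ T w 2) * PAF P F Y (Z := Z) (Zb := Zb) B 1 2 w) +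
        B * dd * (mxF P F Y (Zb := Zb) B 0 w * mxF P F Y (Zb := Zb) B 1 w) +
        2 * B * (ind (¬ T w 0) * ind (¬ T w 1) * HBF P F Y (Z := Z) (Zb := Zb) B H w)))) ≤
      ∑ i, (Gd P (Zb i) Z (F i) (Y i) al + B * Real.sqrt (8 * (Gd P (Zb i) Z (F i) (Y i) al * Dt P (Zb i) Z (Y i)))) +
      B * P.E (fun w => al w * (ind (Tq w) * ∑ i, TVF P Z Zb F i w)) +
      ((2 + B * dd) * (B ^ 2 * eps * (gn P (Zb 0) (F 0) (Y 0) + gn P (Zb 1) (F 1) (Y 1))) +
        B ^ 2 * eps * (gn P (Zb 0) (F 0) (Y 0) + gn P (Zb 2) (F 2) (Y 2)) +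
        B ^ 2 * eps * (gn P (Zb 1) (F 1) (Y 1) + gn P (Zb 2) (F 2) (Y 2))) +
      2 * B * (B ^ 2 * eps * (gn P (Zb 0) (F 0) (Y 0) + gn P (Zb 1) (F 1) (Y 1))) +
      B * dd * (B * (gn P (Zb 0) (F 0) (Y 0) + gn P (Zb 1) (F 1) (Y 1))) := by
    refine (P.E_mono A2).trans ?_
    simp only [P.E_add, P.E_smul]
    have e0 : P.E (fun w => ∑ i, al w * (ind (¬ B < tau P (Zb i) Z (Y i) w (Y i w)) *
        phi1 P (Zb i) Z (F i) (Y i) B w (Y i w))) = ∑ i, P.E (fun w => al w * (ind (¬ B < tau P (Zb i) Z (Y i) w (Y i w)) *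
        phi1 P (Zb i) Z (F i) (Y i) B w (Y i w))) := P.E_sum _ _
    rw [e0]
    have g1 := Finset.sum_le_sum fun i (_ : i ∈ (univ : Finset (Fin 3))) => B5 i
    have g3 := mul_le_mul_of_nonneg_left (B1 0 1 (by decide)) (show 0 ≤ 2 + B * dd by positivity)
    have g4 := B1 0 2 (by decide)
    have g5 := B1 1 2 (by decide)
    have g6 := mul_le_mul_of_nonneg_left B2 (show 0 ≤ 2 * B by positivity)
    have g7 := mul_le_mul_of_nonneg_left (B4 0 1) (show 0 ≤ B * dd by positivity)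
    linarith
  have g0 := gn_nn P (Zb 0) (F 0) (Y 0)
  have g1 := gn_nn P (Zb 1) (F 1) (Y 1)
  have g2 := gn_nn P (Zb 2) (F 2) (Y 2)
  have C2 := (P.E_mono A1)
  simp only [P.E_add] at C2
  rw [P.E_smul] at C2
  refine C2.trans ?_
  set S : ℝ := ∑ i, gn P (Zb i) (F i) (Y i) with hS
  have hS3 : S = gn P (Zb 0) (F 0) (Y 0) + gn P (Zb 1) (F 1) (Y 1) + gn P (Zb 2) (F 2) (Y 2) := Fin.sum_univ_three _
  have p01 : gn P (Zb 0) (F 0) (Y 0) + gn P (Zb 1) (F 1) (Y 1) ≤ S := by linarith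
  have p02 : gn P (Zb 0) (F 0) (Y 0) + gn P (Zb 2) (F 2) (Y 2) ≤ S := by linarith
  have p12 : gn P (Zb 1) (F 1) (Y 1) + gn P (Zb 2) (F 2) (Y 2) ≤ S := by linarith
  have D1 : (2 + B * dd) * (B ^ 2 * eps * (gn P (Zb 0) (F 0) (Y 0) + gn P (Zb 1) (F 1) (Y 1))) +
        B ^ 2 * eps * (gn P (Zb 0) (F 0) (Y 0) + gn P (Zb 2) (F 2) (Y 2)) +
        B ^ 2 * eps * (gn P (Zb 1) (F 1) (Y 1) + gn P (Zb 2) (F 2) (Y 2)) +
      2 * B * (B ^ 2 * eps * (gn P (Zb 0) (F 0) (Y 0) + gn P (Zb 1) (F 1) (Y 1))) +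
      B * dd * (B * (gn P (Zb 0) (F 0) (Y 0) + gn P (Zb 1) (F 1) (Y 1))) ≤
      ((4 + 2 * B + B * dd) * (B ^ 2 * eps) + B ^ 2 * dd) * S := by
    have r1 := mul_le_mul_of_nonneg_left p01 (show 0 ≤ (2 + B * dd) * (B ^ 2 * eps) + 2 * B * (B ^ 2 * eps) +
      B * dd * B by positivity)
    have r2 := mul_le_mul_of_nonneg_left p02 (show 0 ≤ B ^ 2 * eps by positivity)
    have r3 := mul_le_mul_of_nonneg_left p12 (show 0 ≤ B ^ 2 * eps by positivity)
    nlinarith
  have D2 : ∑ i, ((c1 + c2 * d) * gn P (Zb i) (F i) (Y i) + c2 * (B * Gd P (Zb i) Z (F i) (Y i) al)) =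
      (c1 + c2 * d) * S + c2 * B * ∑ i, Gd P (Zb i) Z (F i) (Y i) al := by
    rw [Finset.sum_add_distrib, ← Finset.mul_sum, ← Finset.mul_sum, ← Finset.mul_sum, mul_assoc c2 B]
  have D3 : ∑ i, (Gd P (Zb i) Z (F i) (Y i) al + B * Real.sqrt (8 * (Gd P (Zb i) Z (F i) (Y i) al *
      Dt P (Zb i) Z (Y i)))) = ∑ i, Gd P (Zb i) Z (F i) (Y i) al +
      B * ∑ i, Real.sqrt (8 * (Gd P (Zb i) Z (F i) (Y i) al * Dt P (Zb i) Z (Y i))) := by
    rw [Finset.sum_add_distrib, ← Finset.mul_sum]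
  rw [D2] at B6
  rw [D3] at C1
  linarith

end key

end

end Pool.Agent.GMH
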