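import Pool.Agent.GMH.Key3X
import Pool.Agent.GMH.First2

/-!
# GMH/Key3Y: KEY3 for a weight which is not seen by the old state (helper79)

`key3y` = `key3x` with a weight `al <= al0`, only `al0` seen by the old state `Z` (`al` = `al0` times a branch of the step, which
is seen by the new state only).  All hypotheses at the points are needed only where `al w` is not zero.  The first order terms
`FO1 .. al` are left in the conclusion: `FO1_le` (weight seen by `Z`), `First2.first_two` (two branches together).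
-/

set_option autoImplicit false
set_option linter.unusedSectionVars false
set_option linter.unusedVariables false

namespace Pool.Agent.GMH

open Finset Pool.Agent.PWZ Pool.Agent.M3

noncomputable section

/-- first order term of one top, weight seen by the old state -/
theorem FO1_le {Om : Type*} [Fintype Om] (P : FP Om) {α β γ φ : Type*} {Zb : Om → α} {Z : Om → β} (F : Om → φ)
    (Y : Om → γ) {B : ℝ} (hZ : Fac Z Zb) (hB : Real.exp 2 ≤ B) {al : Om → ℝ} (hal : Fac Z al) (h0 : ∀ w, 0 ≤ al w)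
    (h1 : ∀ w, al w ≤ 1) :
    FO1 P Zb Z F Y B al ≤ Gd P Zb Z F Y al + B * Real.sqrt (8 * (Gd P Zb Z F Y al * Dt P Zb Z Y)) :=
  (le_abs_self _).trans (first_le P Zb Z F Y hZ hB hal h0 h1)

section key

variable {Om : Type*} [Fintype Om] (P : FP Om) {α β γ φ : Type*} {Z : Om → β} {Zb : Fin 3 → Om → α}
  (F : Fin 3 → Om → φ) (Y : Fin 3 → Om → γ)

variable (hZ : ∀ i, Fac Z (Zb i))

variable {B eps : ℝ} {al al0 : Om → ℝ}

include hZ in
/-- **KEY3, weight not seen by the old state, first order terms left** -/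
theorem key3y (hB : Real.exp 2 ≤ B) {d dd eta e1 e2 c1 c2 : ℝ} (hd : 0 ≤ d) (hdd : 0 ≤ dd) (heta : 0 ≤ eta)
    (heta1 : eta ≤ 1) (he1 : 0 ≤ e1) (heB : 1 + e1 ≤ B) (he2 : 0 ≤ e2) (he21 : e2 ≤ 1) (heps : 0 ≤ eps)
    (hc1 : (1 + e1) ^ 2 - 1 + eta + (B ^ 2 * dd + d) ≤ c1) (hc2 : (1 + e1) ^ 2 + (B ^ 2 * dd + 1) ≤ c2)
    (hal : Fac Z al0) (h0 : ∀ w, 0 ≤ al w) (h01 : ∀ w, al w ≤ al0 w) (h1 : ∀ w, al0 w ≤ 1)
    {G a : Om → (Fin 3 → φ) → ℝ} {Reg : Om → (Fin 3 → φ) → Prop} {ai : Om → Fin 3 → φ → ℝ} {bd : Om → Fin 3 → φ → Prop}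
    {Tq : Om → Prop} {H : Om → φ → φ → Prop} (ha0 : ∀ w f, 0 ≤ a w f) (ha1 : ∀ w f, a w f ≤ 1)
    (hai0 : ∀ w i x, 0 ≤ ai w i x) (hai1 : ∀ w i x, ai w i x ≤ 1)
    -- the cut density
    (hG : ∀ w, P.p w ≠ 0 → al w ≠ 0 → ∀ f ∈ let_ F, ¬ Reg w f → G w f = pF P Z F w f / ∏ i, qF P Zb F i w (f i))
    (hGR : ∀ w, P.p w ≠ 0 → al w ≠ 0 → ∀ f ∈ let_ F, Reg w f → G w f ≤ eta)
    -- released letters with bad rows
    (hai : ∀ w, P.p w ≠ 0 → al w ≠ 0 → ∀ f ∈ let_ F, ∀ i, SBF P (Zb := Zb) F Y B bd i w (f i) →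
      (∀ k, k ≠ i → ¬ SBF P (Zb := Zb) F Y B bd k w (f k)) → a w f = ai w i (f i))
    -- the region
    (Ra : ∀ w, P.p w ≠ 0 → al w ≠ 0 → ∀ f ∈ let_ F, ∀ i, SBF P (Zb := Zb) F Y B bd i w (f i) → ∀ k, k ≠ i →
      1 + e1 < rF P Zb F Y k w (f k) → Reg w f)
    (Rb : ∀ w, P.p w ≠ 0 → al w ≠ 0 → ∀ f ∈ let_ F, ∀ i, B < rF P Zb F Y i w (f i) → bxF P F Y (Z := Z) (Zb := Zb) B d i w (f i) → Reg w f)
    (Rc : ∀ w, P.p w ≠ 0 → al w ≠ 0 → ∀ f ∈ let_ F, ∀ i k, i ≠ k → B < rF P Zb F Y i w (f i) → B < rF P Zb F Y k w (f k) →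
      (1 + d) * ∏ j, qF P Zb F j w (f j) < pF P Z F w f → Reg w f)
    (hgood : ∀ w, P.p w ≠ 0 → al w ≠ 0 → ∀ i, ∀ x ∈ vals (F i), B < rF P Zb F Y i w x → ¬ bd w i x →
      ∑ f ∈ let_ F, ind (f i = x) * |pF P Z F w f - mF P Z F i w (f i) * ∏ k ∈ univ.erase i, qF P Zb F k w (f k)| ≤
        dd * mF P Z F i w x)
    -- outside `Tq` the weak part of the region is the cut
    (hR1 : ∀ w, P.p w ≠ 0 → al w ≠ 0 → ¬ Tq w → ∀ f ∈ let_ F, (¬ ∃ i, B < rF P Zb F Y i w (f i)) → ¬ CutF P Z Zb F Y B e2 w f →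
      ¬ Reg w f)
    (hR2 : ∀ w, P.p w ≠ 0 → al w ≠ 0 → ¬ Tq w → ∀ f ∈ let_ F, CutF P Z Zb F Y B e2 w f → Reg w f)
    -- two tops
    (hpair : ∀ i k : Fin 3, i < k → ∀ l m : Om → φ → ℝ, (∀ x, Fac (Zb i) (fun w => l w x)) →
      (∀ y, Fac (Zb k) (fun w => m w y)) → (∀ w x, 0 ≤ l w x) → (∀ w y, 0 ≤ m w y) →
      P.E (fun w => ∑ x ∈ vals (F i), ∑ y ∈ vals (F k),
        al0 w * |mF2 P Z F i k w x y - qF P Zb F i w x * qF P Zb F k w y| * (l w x * m w y)) ≤
        eps * Real.sqrt (P.E (fun w => ∑ x ∈ vals (F i), qF P Zb F i w x * l w x ^ 2) *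
          P.E (fun w => ∑ y ∈ vals (F k), qF P Zb F k w y * m w y ^ 2)))
    -- the third top against a pair
    (hHf : ∀ x y, Fac Z (fun w => ind (H w x y)))
    (hH : ∀ w, P.p w ≠ 0 → al w ≠ 0 → ¬ Tq w → ∀ x ∈ vals (F 0), ∀ y ∈ vals (F 1), ¬ H w x y →
      ∑ f ∈ let_ F, ind (f 0 = x ∧ f 1 = y) * |pF P Z F w f - mF2 P Z F 0 1 w x y * qF P Zb F 2 w (f 2)| ≤
        dd * mF2 P Z F 0 1 w x y)
    (htrip : ∀ l m : Om → φ → ℝ, (∀ x, Fac (Zb 0) (fun w => l w x)) →
      (∀ y, Fac (Zb 1) (fun w => m w y)) → (∀ w x, 0 ≤ l w x) → (∀ w y, 0 ≤ m w y) →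
      P.E (fun w => ∑ x ∈ vals (F 0), ∑ y ∈ vals (F 1),
        al0 w * (ind (H w x y) * mF2 P Z F 0 1 w x y) * (l w x * m w y)) ≤
        eps * Real.sqrt (P.E (fun w => ∑ x ∈ vals (F 0), qF P Zb F 0 w x * l w x ^ 2) *
          P.E (fun w => ∑ y ∈ vals (F 1), qF P Zb F 1 w y * m w y ^ 2))) :
    P.E (fun w => al w * ∑ f ∈ let_ F, (∏ i, qF' P Zb F Y i w (f i)) * (a w f * (G w f - 1))) ≤
      ∑ i, FO1 P (Zb i) Z (F i) (Y i) B al +
      (c1 + c2 * d + (4 + 2 * B + B * dd) * (B ^ 2 * eps) + B ^ 2 * dd) * ∑ i, gn P (Zb i) (F i) (Y i) +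
      c2 * B * ∑ i, Gd P (Zb i) Z (F i) (Y i) al0 +
      B * P.E (fun w => al w * (ind (Tq w) * ∑ i, TVF P Z Zb F i w)) +
      P.E (fun w => al w * (ind (Tq w) * WKGF P Zb F Y B a G w)) +
      P.E (fun w => al w * PRF P F Y (Zb := Zb) B bd ai w) +
      P.E (fun w => al w * (ind (¬ Tq w) * RWXF P Z Zb F Y B e2 a w)) +
      B ^ 3 * P.E (fun w => al w * (ind (¬ Tq w) * FRF P Z Zb F Y B e2 w)) := by
  classical
  have hB1 : 1 ≤ B := by
    have := Real.add_one_le_exp 2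
    linarith
  have hB2 : 2 ≤ B := by
    have := Real.add_one_le_exp 2
    linarith
  have hB0 : 0 ≤ B := by linarith
  have hpw1 : (1 : ℝ) ≤ (1 + e1) ^ 2 := one_le_pow₀ (by linarith)
  have hc10 : 0 ≤ c1 := by
    have : 0 ≤ B ^ 2 * dd := by positivity
    linarith
  have hc20 : 0 ≤ c2 := by
    have : 0 ≤ B ^ 2 * dd := by positivity
    linarith
  -- the frozen faces
  set T : Om → Fin 3 → Prop := fun w i => B < tF P Z Zb Y i w with hTdef
  -- one point
  have A1 : ∀ w, P.p w ≠ 0 → al w * ∑ f ∈ let_ F, (∏ i, qF' P Zb F Y i w (f i)) * (a w f * (G w f - 1)) ≤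
      al w * (ind (¬ Tq w) * (∑ i, ind (¬ T w i) * phi1 P (Zb i) Z (F i) (Y i) B w (Y i w) +
        ((2 + B * dd) * (ind (¬ T w 0) * ind (¬ T w 1) * PAF P F Y (Z := Z) (Zb := Zb) B 0 1 w) +
        ind (¬ T w 0) * ind (¬ T w 2) * PAF P F Y (Z := Z) (Zb := Zb) B 0 2 w +
        ind (¬ T w 1) * ind (¬ T w 2) * PAF P F Y (Z := Z) (Zb := Zb) B 1 2 w) +
        B * dd * (mxF P F Y (Zb := Zb) B 0 w * mxF P F Y (Zb := Zb) B 1 w) +
        2 * B * (ind (¬ T w 0) * ind (¬ T w 1) * HBF P F Y (Z := Z) (Zb := Zb) B H w))) +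
      al w * (ind (¬ Tq w) * RWXF P Z Zb F Y B e2 a w) +
        B ^ 3 * (al w * (ind (¬ Tq w) * FRF P Z Zb F Y B e2 w)) +
        al w * (ind (Tq w) * WKGF P Zb F Y B a G w) +
        al w * STF P F Y (Z := Z) (Zb := Zb) B d c1 c2 w + al w * PRF P F Y (Zb := Zb) B bd ai w := by
    intro w hw
    by_cases hal0 : al w = 0
    · rw [hal0]
      simp only [zero_mul, mul_zero, add_zero, le_refl]
    set t := tK P F Y hZ hw with ht
    have hr : ∀ i x, t.r i x = rF P Zb F Y i w x := tK_r P F Y hZ hw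
    have hmg : ∀ i x, t.mg i x = mF P Z F i w x := tK_mg P F Y hZ hw
    have hmg2 : ∀ i k x y, t.mg2 i k x y = mF2 P Z F i k w x y := tK_mg2 P F Y hZ hw
    have hxi : ∀ i x, t.xi B i x = xF P F Y (Zb := Zb) B i w x := tK_xi P F Y hZ hw B
    have hq : ∀ i x, t.q i x = qF P Zb F i w x := fun i x => rfl
    have hCut : ∀ f, t.Cut (T w) e2 f ↔ CutF P Z Zb F Y B e2 w f := by
      intro f
      unfold KT.Cut CutF
      simp only [hr]
      rfl
    have main : ∑ f ∈ let_ F, (∏ i, qF' P Zb F Y i w (f i)) * (a w f * (G w f - 1)) ≤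
        ind (¬ Tq w) * (∑ i, ind (¬ T w i) * phi1 P (Zb i) Z (F i) (Y i) B w (Y i w) +
          ((2 + B * dd) * (ind (¬ T w 0) * ind (¬ T w 1) * PAF P F Y (Z := Z) (Zb := Zb) B 0 1 w) +
          ind (¬ T w 0) * ind (¬ T w 2) * PAF P F Y (Z := Z) (Zb := Zb) B 0 2 w +
          ind (¬ T w 1) * ind (¬ T w 2) * PAF P F Y (Z := Z) (Zb := Zb) B 1 2 w) +
          B * dd * (mxF P F Y (Zb := Zb) B 0 w * mxF P F Y (Zb := Zb) B 1 w) +
          2 * B * (ind (¬ T w 0) * ind (¬ T w 1) * HBF P F Y (Z := Z) (Zb := Zb) B H w)) +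
        ind (¬ Tq w) * RWXF P Z Zb F Y B e2 a w + B ^ 3 * (ind (¬ Tq w) * FRF P Z Zb F Y B e2 w) +
          ind (Tq w) * WKGF P Zb F Y B a G w +
          STF P F Y (Z := Z) (Zb := Zb) B d c1 c2 w + PRF P F Y (Zb := Zb) B bd ai w := by
      have k2 := t.strong_le (B := B) (d := d) (dd := dd) (eta := eta) (e1 := e1) (bd := bd w)
        (bx := fun i x => bxF P F Y (Z := Z) (Zb := Zb) B d i w x) (Reg := Reg w) (G := G w) (a := a w) (ai := ai w)
        hB1 hd hdd heta heta1 he1 heB (hG w hw hal0) (hGR w hw hal0) (ha0 w) (ha1 w) (hai0 w) (hai1 w)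
        (fun f hf i hi hk => hai w hw hal0 f hf i (by unfold SBF; unfold KT.SB at hi; rw [hr] at hi; exact hi)
          (fun k hki hs => hk k hki (by unfold KT.SB; rw [hr]; exact hs)))
        (fun f hf i hi k hki hk => Ra w hw hal0 f hf i (by unfold SBF; unfold KT.SB at hi; rw [hr] at hi; exact hi) k hki
          (by rw [hr] at hk; exact hk))
        (fun f hf i hi hb => Rb w hw hal0 f hf i (by rw [hr] at hi; exact hi) hb)
        (fun f hf i k hik hi hk hp => Rc w hw hal0 f hf i k hik (by rw [hr] at hi; exact hi) (by rw [hr] at hk; exact hk) hp)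
        (fun i x hx hs hb => by
          have := hgood w hw hal0 i x hx (by rw [hr] at hs; exact hs) hb
          rw [hmg]
          refine le_trans (le_of_eq (Finset.sum_congr rfl fun f _ => ?_)) this
          unfold KT.rowd
          rw [hmg]
          rfl)
        (c1 := c1) (c2 := c2) hc1 hc2
      have k3 := t.split_sum (B := B) (fun f => (∏ i, t.q' i (f i)) * (a w f * (G w f - 1)))
      have e3 : ∑ i, ∑ x ∈ vals (F i), ind (B < t.r i x) * (c1 * t.q' i x + c2 * (t.r i x *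
          (ind (¬ bxF P F Y (Z := Z) (Zb := Zb) B d i w x) * t.ke i x))) =
          STF P F Y (Z := Z) (Zb := Zb) B d c1 c2 w := by
        unfold STF KT.ke
        refine Finset.sum_congr rfl fun i _ => Finset.sum_congr rfl fun x _ => ?_
        rw [hr, hmg]
        rfl
      have e4 : ∑ i, t.Qa B (bd w) (ai w) i * ∑ k ∈ univ.erase i, t.Qs B (bd w) k =
          PRF P F Y (Zb := Zb) B bd ai w := by
        unfold KT.Qa KT.Qs PRF
        refine Finset.sum_congr rfl fun i _ => ?_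
        congr 1
        · refine Finset.sum_congr rfl fun x _ => ?_
          unfold KT.SB SBF
          rw [hr]
          rfl
        · refine Finset.sum_congr rfl fun k _ => Finset.sum_congr rfl fun x _ => ?_
          unfold KT.SB SBF
          rw [hr]
          rfl
      rw [e3, e4] at k2
      refine le_trans (le_of_eq k3) ?_
      by_cases hT : Tq w
      · have e5 : ∑ f ∈ let_ F, ind (¬ ∃ i, B < t.r i (f i)) * ((∏ i, t.q' i (f i)) * (a w f * (G w f - 1))) =
            WKGF P Zb F Y B a G w := by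
          unfold WKGF
          refine Finset.sum_congr rfl fun f hf => ?_
          have e7 : (∏ i, hwk B (rF P Zb F Y i w (f i))) = ∏ i, hwk B (t.r i (f i)) :=
            Finset.prod_congr rfl fun i _ => by rw [hr]
          rw [e7]
          by_cases hs : ∃ i, B < t.r i (f i)
          · rw [ind_not (not_not.2 hs), t.prod_hwk_strong hs]
            ring
          · rw [ind_of hs, t.prod_hwk_weak hs, ← t.prod_rq hf]
            have e8 : t.pq f = ∏ i, qF P Zb F i w (f i) := rfl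
            rw [e8]
            ring
        rw [ind_not (not_not.2 hT), ind_of hT]
        have e6 : ∑ f ∈ let_ F, ind (¬ ∃ i, B < t.r i (f i)) * ((∏ i, t.q' i (f i)) * (a w f * (G w f - 1))) =
          ∑ f ∈ Fintype.piFinset fun i => vals (F i), ind (¬ ∃ i, B < t.r i (f i)) *
            ((∏ i, t.q' i (f i)) * (a w f * (G w f - 1))) := rfl
        rw [← e6, e5]
        linarith
      · have k1 := t.weak_leX (T := T w) (B := B) (e2 := e2) (Reg := Reg w) (G := G w) (a := a w) he2 (by linarith)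
          (hG w hw hal0) (fun f hf hR => (hGR w hw hal0 f hf hR).trans heta1) (ha0 w) (ha1 w)
          (fun f hf hs hC => hR1 w hw hal0 hT f hf (fun ⟨i, hi⟩ => hs ⟨i, by rw [hr]; exact hi⟩)
            (fun h => hC ((hCut f).2 h)))
          (fun f hf hC => hR2 w hw hal0 hT f hf ((hCut f).1 hC))
        have k4 := t.fr_WK_le (T := T w) (B := B) hB1 hdd (H := H w) (fun x hx y hy hxy => by
          have := hH w hw hal0 hT x hx y hy hxy
          rw [hmg2]
          refine le_trans (le_of_eq (Finset.sum_congr rfl fun f _ => ?_)) this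
          rw [hmg2]
          rfl)
        have f2 : ∀ i, t.ph B i = phi1 P (Zb i) Z (F i) (Y i) B w (Y i w) := by
          intro i
          unfold KT.ph phi1
          refine Finset.sum_congr rfl fun x _ => ?_
          rw [hmg, hxi]
          rfl
        have f3 : ∀ i k, t.PA B i k = PAF P F Y (Z := Z) (Zb := Zb) B i k w := by
          intro i k
          unfold KT.PA PAF
          refine Finset.sum_congr rfl fun x _ => Finset.sum_congr rfl fun y _ => ?_
          rw [hmg2, hxi, hxi]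
          rfl
        have f4 : t.HB B (H w) = HBF P F Y (Z := Z) (Zb := Zb) B H w := by
          unfold KT.HB HBF
          refine Finset.sum_congr rfl fun x _ => Finset.sum_congr rfl fun y _ => ?_
          rw [hmg2, hxi, hxi]
        have f5 : ∀ i, t.mx B i = mxF P F Y (Zb := Zb) B i w := by
          intro i
          unfold KT.mx mxF
          refine Finset.sum_congr rfl fun x _ => ?_
          rw [hxi]
          rfl
        have f6 : t.RWX B (T w) e2 (a w) = RWXF P Z Zb F Y B e2 a w := by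
          unfold KT.RWX RWXF
          refine Finset.sum_congr rfl fun f _ => ?_
          rw [hCut f]
          simp only [hr]
          rfl
        have f7 : B ^ (Fintype.card (Fin 3)) * (2 * (ind (∃ i, T w i) * ((1 + e2) ^ (Fintype.card (Fin 3)) - 1)) +
            ∑ i, t.CM (T w) e2 i) ≤ B ^ 3 * FRF P Z Zb F Y B e2 w := by
          have hc : Fintype.card (Fin 3) = 3 := by decide
          rw [hc]
          refine mul_le_mul_of_nonneg_left ?_ (by positivity)
          have g1 : (1 + e2) ^ 3 - 1 ≤ 7 * e2 := by nlinarith [mul_nonneg he2 he2, mul_nonneg (mul_nonneg he2 he2) he2]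
          have g2 : ind (∃ i, T w i) ≤ ∑ i, ind (T w i) := by
            by_cases hex : ∃ i, T w i
            · obtain ⟨i, hi⟩ := hex
              rw [ind_of ⟨i, hi⟩]
              have := Finset.single_le_sum (f := fun i => ind (T w i)) (fun j _ => ind_nonneg _) (mem_univ i)
              rw [ind_of hi] at this
              exact this
            · rw [ind_not hex]
              exact Finset.sum_nonneg fun j _ => ind_nonneg _
          have g3 : ind (∃ i, T w i) * ((1 + e2) ^ 3 - 1) ≤ (∑ i, ind (T w i)) * (7 * e2) :=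
            mul_le_mul g2 g1 (by
              have : (1 : ℝ) ≤ (1 + e2) ^ 3 := one_le_pow₀ (by linarith)
              linarith) (Finset.sum_nonneg fun j _ => ind_nonneg _)
          have g4 : FRF P Z Zb F Y B e2 w = (∑ i, ind (T w i)) * (14 * e2) + ∑ i, t.CM (T w) e2 i := by
            unfold FRF KT.CM
            rw [Finset.sum_mul, ← Finset.sum_add_distrib]
            refine Finset.sum_congr rfl fun i _ => ?_
            rw [mul_add]
            simp only [hr]
            rfl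
          rw [g4]
          linarith
        simp only [f2, f3, f4, f5] at k4
        rw [f6] at k1
        rw [ind_of hT, ind_not hT]
        linarith
    have := mul_le_mul_of_nonneg_left main (h0 w)
    linarith
  -- the weak part at a point
  set m : Fin 3 → Om → ℝ := fun i w => mxF P F Y (Zb := Zb) B i w with hm
  have hm0 : ∀ i w, 0 ≤ m i w := fun i w => Finset.sum_nonneg fun x _ => mul_nonneg (P.pv_nonneg _ _ _ _) (abs_nonneg _)
  have hPA0 : ∀ i k w, 0 ≤ PAF P F Y (Z := Z) (Zb := Zb) B i k w := fun i k w => Finset.sum_nonneg fun x _ =>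
    Finset.sum_nonneg fun y _ => mul_nonneg (abs_nonneg _) (mul_nonneg (abs_nonneg _) (abs_nonneg _))
  have hHB0 : ∀ w, 0 ≤ HBF P F Y (Z := Z) (Zb := Zb) B H w := fun w => Finset.sum_nonneg fun x _ =>
    Finset.sum_nonneg fun y _ => mul_nonneg (mul_nonneg (ind_nonneg _) (P.pv_nonneg _ _ _ _))
      (mul_nonneg (abs_nonneg _) (abs_nonneg _))
  have hTV0 : ∀ i w, 0 ≤ TVF P Z Zb F i w := fun i w => Finset.sum_nonneg fun x _ => abs_nonneg _
  have A2 : ∀ w, P.p w ≠ 0 → al w * (ind (¬ Tq w) * (∑ i, ind (¬ T w i) * phi1 P (Zb i) Z (F i) (Y i) B w (Y i w) +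
        ((2 + B * dd) * (ind (¬ T w 0) * ind (¬ T w 1) * PAF P F Y (Z := Z) (Zb := Zb) B 0 1 w) +
        ind (¬ T w 0) * ind (¬ T w 2) * PAF P F Y (Z := Z) (Zb := Zb) B 0 2 w +
        ind (¬ T w 1) * ind (¬ T w 2) * PAF P F Y (Z := Z) (Zb := Zb) B 1 2 w) +
        B * dd * (mxF P F Y (Zb := Zb) B 0 w * mxF P F Y (Zb := Zb) B 1 w) +
        2 * B * (ind (¬ T w 0) * ind (¬ T w 1) * HBF P F Y (Z := Z) (Zb := Zb) B H w))) ≤
      ∑ i, al w * (ind (¬ B < tau P (Zb i) Z (Y i) w (Y i w)) * phi1 P (Zb i) Z (F i) (Y i) B w (Y i w)) +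
      B * (al w * (ind (Tq w) * ∑ i, TVF P Z Zb F i w)) +
      ((2 + B * dd) * (ind (¬ T w 0) * ind (¬ T w 1) * (al0 w * PAF P F Y (Z := Z) (Zb := Zb) B 0 1 w)) +
        ind (¬ T w 0) * ind (¬ T w 2) * (al0 w * PAF P F Y (Z := Z) (Zb := Zb) B 0 2 w) +
        ind (¬ T w 1) * ind (¬ T w 2) * (al0 w * PAF P F Y (Z := Z) (Zb := Zb) B 1 2 w)) +
      2 * B * (ind (¬ T w 0) * ind (¬ T w 1) * (al0 w * HBF P F Y (Z := Z) (Zb := Zb) B H w)) +
      B * dd * (m 0 w * m 1 w) := by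
    intro w hw
    set t := tK P F Y hZ hw with ht
    have hmg : ∀ i x, t.mg i x = mF P Z F i w x := tK_mg P F Y hZ hw
    have hxi : ∀ i x, t.xi B i x = xF P F Y (Zb := Zb) B i w x := tK_xi P F Y hZ hw B
    have e2' : ∀ i, t.ph B i = phi1 P (Zb i) Z (F i) (Y i) B w (Y i w) := by
      intro i
      unfold KT.ph phi1
      refine Finset.sum_congr rfl fun x _ => ?_
      rw [hmg, hxi]
      rfl
    have a0 := h0 w
    have a01 := h01 w
    have a1 := a01.trans (h1 w)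
    have a00 := a0.trans a01
    have mm : ∀ i k, 0 ≤ m i w * m k w := fun i k => mul_nonneg (hm0 i w) (hm0 k w)
    have n1 : 0 ≤ B * dd * (m 0 w * m 1 w) := mul_nonneg (by positivity) (mm 0 1)
    have b : ∀ i, -(B * (al w * TVF P Z Zb F i w)) ≤ al w * (ind (¬ B < tau P (Zb i) Z (Y i) w (Y i w)) *
        phi1 P (Zb i) Z (F i) (Y i) B w (Y i w)) := fun i => by
      have q0 : |phi1 P (Zb i) Z (F i) (Y i) B w (Y i w)| ≤ B * TVF P Z Zb F i w := by
        rw [← e2' i]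
        refine (t.abs_ph_le hB1 i).trans (mul_le_mul_of_nonneg_left ?_ hB0)
        refine le_of_eq (Finset.sum_congr rfl fun x _ => ?_)
        rw [hmg]
        rfl
      have b1 : |al w * (ind (¬ B < tau P (Zb i) Z (Y i) w (Y i w)) * phi1 P (Zb i) Z (F i) (Y i) B w (Y i w))| ≤
          B * (al w * TVF P Z Zb F i w) := by
        rw [abs_mul, abs_mul, abs_of_nonneg a0, abs_of_nonneg (ind_nonneg _)]
        have b2 := mul_le_of_le_one_left (abs_nonneg (phi1 P (Zb i) Z (F i) (Y i) B w (Y i w)))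
          (ind_le_one (¬ B < tau P (Zb i) Z (Y i) w (Y i w)))
        have b3 := mul_le_mul_of_nonneg_left (b2.trans q0) a0
        linarith
      exact (abs_le.1 b1).1
    have i2 : ∀ i k, 0 ≤ ind (¬ T w i) * ind (¬ T w k) := fun i k => mul_nonneg (ind_nonneg _) (ind_nonneg _)
    have p01 := mul_nonneg (i2 0 1) (mul_nonneg a00 (hPA0 0 1 w))
    have p02 := mul_nonneg (i2 0 2) (mul_nonneg a00 (hPA0 0 2 w))
    have p12 := mul_nonneg (i2 1 2) (mul_nonneg a00 (hPA0 1 2 w))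
    have ph := mul_nonneg (i2 0 1) (mul_nonneg a00 (hHB0 w))
    have q01 := mul_le_mul_of_nonneg_left (mul_le_mul_of_nonneg_left (mul_le_mul_of_nonneg_right a01 (hPA0 0 1 w))
      (i2 0 1)) (show 0 ≤ 2 + B * dd by positivity)
    have q02 := mul_le_mul_of_nonneg_left (mul_le_mul_of_nonneg_right a01 (hPA0 0 2 w)) (i2 0 2)
    have q12 := mul_le_mul_of_nonneg_left (mul_le_mul_of_nonneg_right a01 (hPA0 1 2 w)) (i2 1 2)
    have qh := mul_le_mul_of_nonneg_left (mul_le_mul_of_nonneg_left (mul_le_mul_of_nonneg_right a01 (hHB0 w))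
      (i2 0 1)) (show 0 ≤ 2 * B by positivity)
    have p01' := mul_nonneg (show 0 ≤ 2 + B * dd by positivity) p01
    have ph' := mul_nonneg (show 0 ≤ 2 * B by positivity) ph
    by_cases hT : Tq w
    · rw [ind_not (not_not.2 hT), ind_of hT, zero_mul, mul_zero, Fin.sum_univ_three, Fin.sum_univ_three]
      have b0 := b 0
      have b1 := b 1
      have b2 := b 2
      simp only [one_mul]
      linarith
    · have hi : ∀ i, ind (¬ B < tau P (Zb i) Z (Y i) w (Y i w)) = ind (¬ T w i) := fun i => rfl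
      rw [ind_not hT, ind_of hT]
      simp only [hi, one_mul, zero_mul, mul_zero, add_zero]
      rw [← Finset.mul_sum]
      have r2 := mul_le_of_le_one_left n1 a1
      have hmm : m 0 w * m 1 w = mxF P F Y (Zb := Zb) B 0 w * mxF P F Y (Zb := Zb) B 1 w := rfl
      rw [hmm] at r2 ⊢
      linarith
  have h00 : ∀ w, 0 ≤ al0 w := fun w => (h0 w).trans (h01 w)
  -- pairs
  have B1 : ∀ i k : Fin 3, i < k → P.E (fun w => ind (¬ T w i) * ind (¬ T w k) *
      (al0 w * PAF P F Y (Z := Z) (Zb := Zb) B i k w)) ≤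
      B ^ 2 * eps * (gn P (Zb i) (F i) (Y i) + gn P (Zb k) (F k) (Y k)) := by
    intro i k hik
    have h2 := pair_gen2 P F Y hZ (eps := eps) hB i k
      (fun w x y => al0 w * |mF2 P Z F i k w x y - qF P Zb F i w x * qF P Zb F k w y|)
      (fun x y a b hab => by
        show al0 a * |mF2 P Z F i k a x y - qF P Zb F i a x * qF P Zb F k a y| =
          al0 b * |mF2 P Z F i k b x y - qF P Zb F i b x * qF P Zb F k b y|
        unfold mF2 qF
        rw [hal a b hab, pvc P _ hab (x, y), pvc P (F i) (hZ i a b hab) x, pvc P (F k) (hZ k a b hab) y])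
      (fun w x y => mul_nonneg (h00 w) (abs_nonneg _)) (hpair i k hik) heps
    refine le_trans (le_of_eq (P.E_congr fun w _ => ?_)) h2
    unfold PAF
    rw [Finset.mul_sum, Finset.mul_sum]
    refine Finset.sum_congr rfl fun x _ => ?_
    rw [Finset.mul_sum, Finset.mul_sum]
    refine Finset.sum_congr rfl fun y _ => ?_
    simp only [hTdef]
    ring
  have B2 : P.E (fun w => ind (¬ T w 0) * ind (¬ T w 1) * (al0 w * HBF P F Y (Z := Z) (Zb := Zb) B H w)) ≤
      B ^ 2 * eps * (gn P (Zb 0) (F 0) (Y 0) + gn P (Zb 1) (F 1) (Y 1)) := by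
    have h2 := pair_gen2 P F Y hZ (eps := eps) hB 0 1
      (fun w x y => al0 w * (ind (H w x y) * mF2 P Z F 0 1 w x y))
      (fun x y a b hab => by
        have g := hHf x y a b hab
        simp only at g
        show al0 a * (ind (H a x y) * mF2 P Z F 0 1 a x y) = al0 b * (ind (H b x y) * mF2 P Z F 0 1 b x y)
        unfold mF2
        rw [hal a b hab, g, pvc P _ hab (x, y)])
      (fun w x y => mul_nonneg (h00 w) (mul_nonneg (ind_nonneg _) (P.pv_nonneg _ _ _ _))) htrip heps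
    refine le_trans (le_of_eq (P.E_congr fun w _ => ?_)) h2
    unfold HBF
    rw [Finset.mul_sum, Finset.mul_sum]
    refine Finset.sum_congr rfl fun x _ => ?_
    rw [Finset.mul_sum, Finset.mul_sum]
    refine Finset.sum_congr rfl fun y _ => ?_
    simp only [hTdef]
    ring
  have B4 : ∀ i k : Fin 3, P.E (fun w => m i w * m k w) ≤ B * (gn P (Zb i) (F i) (Y i) + gn P (Zb k) (F k) (Y k)) :=
    fun i k => E_mx_mul P F Y (Zb := Zb) hB i k
  have hST0 : ∀ w, 0 ≤ STF P F Y (Z := Z) (Zb := Zb) B d c1 c2 w := fun w => Finset.sum_nonneg fun i _ =>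
    Finset.sum_nonneg fun x _ => mul_nonneg (ind_nonneg _) (add_nonneg (mul_nonneg hc10 (P.pv_nonneg _ _ _ _))
      (mul_nonneg hc20 (mul_nonneg (rr_nn P _ _ _ _ _ _) (mul_nonneg (ind_nonneg _) (le_max_right _ _)))))
  have B6 : P.E (fun w => al w * STF P F Y (Z := Z) (Zb := Zb) B d c1 c2 w) ≤ ∑ i, ((c1 + c2 * d) *
      gn P (Zb i) (F i) (Y i) + c2 * (B * Gd P (Zb i) Z (F i) (Y i) al0)) :=
    (P.E_mono fun w _ => mul_le_mul_of_nonneg_right (h01 w) (hST0 w)).trans (E_ST P F Y hZ hB hd hc10 hc20 hal h00 h1)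
  -- the weak part in the mean
  have C1 : P.E (fun w => al w * (ind (¬ Tq w) * (∑ i, ind (¬ T w i) * phi1 P (Zb i) Z (F i) (Y i) B w (Y i w) +
        ((2 + B * dd) * (ind (¬ T w 0) * ind (¬ T w 1) * PAF P F Y (Z := Z) (Zb := Zb) B 0 1 w) +
        ind (¬ T w 0) * ind (¬ T w 2) * PAF P F Y (Z := Z) (Zb := Zb) B 0 2 w +
        ind (¬ T w 1) * ind (¬ T w 2) * PAF P F Y (Z := Z) (Zb := Zb) B 1 2 w) +
        B * dd * (mxF P F Y (Zb := Zb) B 0 w * mxF P F Y (Zb := Zb) B 1 w) +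
        2 * B * (ind (¬ T w 0) * ind (¬ T w 1) * HBF P F Y (Z := Z) (Zb := Zb) B H w)))) ≤
      ∑ i, FO1 P (Zb i) Z (F i) (Y i) B al +
      B * P.E (fun w => al w * (ind (Tq w) * ∑ i, TVF P Z Zb F i w)) +
      ((2 + B * dd) * (B ^ 2 * eps * (gn P (Zb 0) (F 0) (Y 0) + gn P (Zb 1) (F 1) (Y 1))) +
        B ^ 2 * eps * (gn P (Zb 0) (F 0) (Y 0) + gn P (Zb 2) (F 2) (Y 2)) +
        B ^ 2 * eps * (gn P (Zb 1) (F 1) (Y 1) + gn P (Zb 2) (F 2) (Y 2))) +
      2 * B * (B ^ 2 * eps * (gn P (Zb 0) (F 0) (Y 0) + gn P (Zb 1) (F 1) (Y 1))) +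
      B * dd * (B * (gn P (Zb 0) (F 0) (Y 0) + gn P (Zb 1) (F 1) (Y 1))) := by
    refine (P.E_mono A2).trans ?_
    simp only [P.E_add, P.E_smul]
    have e0 : P.E (fun w => ∑ i, al w * (ind (¬ B < tau P (Zb i) Z (Y i) w (Y i w)) *
        phi1 P (Zb i) Z (F i) (Y i) B w (Y i w))) = ∑ i, P.E (fun w => al w * (ind (¬ B < tau P (Zb i) Z (Y i) w (Y i w)) *
        phi1 P (Zb i) Z (F i) (Y i) B w (Y i w))) := P.E_sum _ _
    rw [e0]
    have g1 : ∑ i, P.E (fun w => al w * (ind (¬ B < tau P (Zb i) Z (Y i) w (Y i w)) *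
        phi1 P (Zb i) Z (F i) (Y i) B w (Y i w))) = ∑ i, FO1 P (Zb i) Z (F i) (Y i) B al := rfl
    have g3 := mul_le_mul_of_nonneg_left (B1 0 1 (by decide)) (show 0 ≤ 2 + B * dd by positivity)
    have g4 := B1 0 2 (by decide)
    have g5 := B1 1 2 (by decide)
    have g6 := mul_le_mul_of_nonneg_left B2 (show 0 ≤ 2 * B by positivity)
    have g7 := mul_le_mul_of_nonneg_left (B4 0 1) (show 0 ≤ B * dd by positivity)
    linarith
  have g0 := gn_nn P (Zb 0) (F 0) (Y 0)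
  have g1 := gn_nn P (Zb 1) (F 1) (Y 1)
  have g2 := gn_nn P (Zb 2) (F 2) (Y 2)
  have C2 := (P.E_mono A1)
  simp only [P.E_add] at C2
  rw [P.E_smul] at C2
  refine C2.trans ?_
  set S : ℝ := ∑ i, gn P (Zb i) (F i) (Y i) with hS
  have hS3 : S = gn P (Zb 0) (F 0) (Y 0) + gn P (Zb 1) (F 1) (Y 1) + gn P (Zb 2) (F 2) (Y 2) := Fin.sum_univ_three _
  have p01 : gn P (Zb 0) (F 0) (Y 0) + gn P (Zb 1) (F 1) (Y 1) ≤ S := by linarith
  have p02 : gn P (Zb 0) (F 0) (Y 0) + gn P (Zb 2) (F 2) (Y 2) ≤ S := by linarith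
  have p12 : gn P (Zb 1) (F 1) (Y 1) + gn P (Zb 2) (F 2) (Y 2) ≤ S := by linarith
  have D1 : (2 + B * dd) * (B ^ 2 * eps * (gn P (Zb 0) (F 0) (Y 0) + gn P (Zb 1) (F 1) (Y 1))) +
        B ^ 2 * eps * (gn P (Zb 0) (F 0) (Y 0) + gn P (Zb 2) (F 2) (Y 2)) +
        B ^ 2 * eps * (gn P (Zb 1) (F 1) (Y 1) + gn P (Zb 2) (F 2) (Y 2)) +
      2 * B * (B ^ 2 * eps * (gn P (Zb 0) (F 0) (Y 0) + gn P (Zb 1) (F 1) (Y 1))) +
      B * dd * (B * (gn P (Zb 0) (F 0) (Y 0) + gn P (Zb 1) (F 1) (Y 1))) ≤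
      ((4 + 2 * B + B * dd) * (B ^ 2 * eps) + B ^ 2 * dd) * S := by
    have r1 := mul_le_mul_of_nonneg_left p01 (show 0 ≤ (2 + B * dd) * (B ^ 2 * eps) + 2 * B * (B ^ 2 * eps) +
      B * dd * B by positivity)
    have r2 := mul_le_mul_of_nonneg_left p02 (show 0 ≤ B ^ 2 * eps by positivity)
    have r3 := mul_le_mul_of_nonneg_left p12 (show 0 ≤ B ^ 2 * eps by positivity)
    nlinarith
  have D2 : ∑ i, ((c1 + c2 * d) * gn P (Zb i) (F i) (Y i) + c2 * (B * Gd P (Zb i) Z (F i) (Y i) al0)) =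
      (c1 + c2 * d) * S + c2 * B * ∑ i, Gd P (Zb i) Z (F i) (Y i) al0 := by
    rw [Finset.sum_add_distrib, ← Finset.mul_sum, ← Finset.mul_sum, ← Finset.mul_sum, mul_assoc c2 B]
  rw [D2] at B6
  linarith

end key

end

end Pool.Agent.GMH
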