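import Pool.Agent.GMH.Key3Y
import Pool.Agent.GMH.FoL

/-!
# GMH/KeyPm: KEY3 with the tops in any order; KEY3 for the frame of two tops (helper63)

* `key3s` : `key3y` of helper79 with the pair `(σ 0, σ 1)` and the third top `σ 2` in the hypotheses `hH`, `htrip`;
* `hpair_Fo` : the pair hypothesis in the frame `Fo F i0` from the visible pair and the rows of the visible tops;
* `key2y` : KEY3 in the frame `Fo F i0` : no third top, no `htrip`.
-/

set_option autoImplicit false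
set_option linter.unusedSectionVars false
set_option linter.unusedVariables false

namespace Pool.Agent.GMH.KeyPm

open Finset Pool.Agent.PWZ Pool.Agent.M3 Pool.Agent.GMH Pool.Agent.GMH.FoL

noncomputable section

section perm

variable {Om : Type*} [Fintype Om] (P : FP Om) {α β γ φ : Type*} {Z : Om → β} {Zb : Fin 3 → Om → α}
  (F : Fin 3 → Om → φ) (Y : Fin 3 → Om → γ) (σ : Equiv.Perm (Fin 3))

/-- a tuple of the permuted letters as a tuple -/
def up (f : Fin 3 → φ) (j : Fin 3) : φ := f (σ.symm j)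

theorem up_app (f : Fin 3 → φ) (i : Fin 3) : up σ f (σ i) = f i := by
  unfold up
  rw [Equiv.symm_apply_apply]

theorem up_mem {f : Fin 3 → φ} : f ∈ let_ (fun i => F (σ i)) ↔ up σ f ∈ let_ F := by
  unfold let_
  rw [Fintype.mem_piFinset, Fintype.mem_piFinset]
  constructor
  · intro h j
    have h1 : f (σ.symm j) ∈ vals (F (σ (σ.symm j))) := h (σ.symm j)
    rw [Equiv.apply_symm_apply] at h1
    exact h1
  · intro h i
    have h1 := h (σ i)
    rw [up_app] at h1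
    exact h1

theorem sum_let (X : (Fin 3 → φ) → ℝ) : ∑ f ∈ let_ (fun i => F (σ i)), X (up σ f) = ∑ f ∈ let_ F, X f :=
  Finset.sum_equiv (σ.arrowCongr (Equiv.refl φ)) (fun f => up_mem F σ) fun f _ => rfl

theorem pF_pm (w : Om) (f : Fin 3 → φ) : pF P Z (fun i => F (σ i)) w f = pF P Z F w (up σ f) := by
  unfold pF FP.pv
  refine P.ce_congr (fun u _ => ?_) w
  have e : (tup (fun i => F (σ i)) u = f) = (tup F u = up σ f) := by
    refine propext ⟨fun e => funext fun j => ?_, fun e => funext fun i => ?_⟩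
    · have h1 := congrFun e (σ.symm j)
      have h2 : tup (fun i => F (σ i)) u (σ.symm j) = F j u := by
        show F (σ (σ.symm j)) u = F j u
        rw [Equiv.apply_symm_apply]
      rw [h2] at h1
      exact h1
    · have h1 := congrFun e (σ i)
      rw [up_app] at h1
      exact h1
  rw [e]

theorem prod_up (g : Fin 3 → φ → ℝ) (f : Fin 3 → φ) : ∏ i, g (σ i) (f i) = ∏ j, g j (up σ f j) := by
  rw [← Equiv.prod_comp σ fun j => g j (up σ f j)]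
  exact Finset.prod_congr rfl fun i _ => by rw [up_app]

theorem prod_up_er (g : Fin 3 → φ → ℝ) (f : Fin 3 → φ) (i : Fin 3) :
    ∏ k ∈ univ.erase i, g (σ k) (f k) = ∏ k ∈ univ.erase (σ i), g k (up σ f k) := by
  refine Finset.prod_bij (fun k _ => σ k) (fun k hk => ?_) (fun a _ b _ e => σ.injective e) (fun k hk => ?_)
    (fun k _ => by rw [up_app])
  · exact Finset.mem_erase.2 ⟨fun e => Finset.ne_of_mem_erase hk (σ.injective e), mem_univ _⟩
  · refine ⟨σ.symm k, Finset.mem_erase.2 ⟨fun e => Finset.ne_of_mem_erase hk ?_, mem_univ _⟩, Equiv.apply_symm_apply σ k⟩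
    rw [← e, Equiv.apply_symm_apply]

theorem sum_er (C : Fin 3 → ℝ) (i : Fin 3) : ∑ k ∈ univ.erase i, C (σ k) = ∑ k ∈ univ.erase (σ i), C k := by
  rw [Finset.sum_erase_eq_sub (mem_univ i), Finset.sum_erase_eq_sub (mem_univ (σ i)), Equiv.sum_comp σ C]

variable (hZ : ∀ i, Fac Z (Zb i))

variable {B eps : ℝ} {al al0 : Om → ℝ}

include hZ in
/-- **KEY3, the tops in any order** : pair `(σ 0, σ 1)`, third top `σ 2` -/
theorem key3s (hB : Real.exp 2 ≤ B) {d dd eta e1 e2 c1 c2 : ℝ} (hd : 0 ≤ d) (hdd : 0 ≤ dd) (heta : 0 ≤ eta)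
    (heta1 : eta ≤ 1) (he1 : 0 ≤ e1) (heB : 1 + e1 ≤ B) (he2 : 0 ≤ e2) (he21 : e2 ≤ 1) (heps : 0 ≤ eps)
    (hc1 : (1 + e1) ^ 2 - 1 + eta + (B ^ 2 * dd + d) ≤ c1) (hc2 : (1 + e1) ^ 2 + (B ^ 2 * dd + 1) ≤ c2)
    (hal : Fac Z al0) (h0 : ∀ w, 0 ≤ al w) (h01 : ∀ w, al w ≤ al0 w) (h1 : ∀ w, al0 w ≤ 1)
    {G a : Om → (Fin 3 → φ) → ℝ} {Reg : Om → (Fin 3 → φ) → Prop} {ai : Om → Fin 3 → φ → ℝ} {bd : Om → Fin 3 → φ → Prop}
    {Tq : Om → Prop} {H : Om → φ → φ → Prop} (ha0 : ∀ w f, 0 ≤ a w f) (ha1 : ∀ w f, a w f ≤ 1)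
    (hai0 : ∀ w i x, 0 ≤ ai w i x) (hai1 : ∀ w i x, ai w i x ≤ 1)
    (hG : ∀ w, P.p w ≠ 0 → al w ≠ 0 → ∀ f ∈ let_ F, ¬ Reg w f → G w f = pF P Z F w f / ∏ i, qF P Zb F i w (f i))
    (hGR : ∀ w, P.p w ≠ 0 → al w ≠ 0 → ∀ f ∈ let_ F, Reg w f → G w f ≤ eta)
    (hai : ∀ w, P.p w ≠ 0 → al w ≠ 0 → ∀ f ∈ let_ F, ∀ i, SBF P (Zb := Zb) F Y B bd i w (f i) →
      (∀ k, k ≠ i → ¬ SBF P (Zb := Zb) F Y B bd k w (f k)) → a w f = ai w i (f i))
    (Ra : ∀ w, P.p w ≠ 0 → al w ≠ 0 → ∀ f ∈ let_ F, ∀ i, SBF P (Zb := Zb) F Y B bd i w (f i) → ∀ k, k ≠ i →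
      1 + e1 < rF P Zb F Y k w (f k) → Reg w f)
    (Rb : ∀ w, P.p w ≠ 0 → al w ≠ 0 → ∀ f ∈ let_ F, ∀ i, B < rF P Zb F Y i w (f i) → bxF P F Y (Z := Z) (Zb := Zb) B d i w (f i) → Reg w f)
    (Rc : ∀ w, P.p w ≠ 0 → al w ≠ 0 → ∀ f ∈ let_ F, ∀ i k, i ≠ k → B < rF P Zb F Y i w (f i) → B < rF P Zb F Y k w (f k) →
      (1 + d) * ∏ j, qF P Zb F j w (f j) < pF P Z F w f → Reg w f)
    (hgood : ∀ w, P.p w ≠ 0 → al w ≠ 0 → ∀ i, ∀ x ∈ vals (F i), B < rF P Zb F Y i w x → ¬ bd w i x →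
      ∑ f ∈ let_ F, ind (f i = x) * |pF P Z F w f - mF P Z F i w (f i) * ∏ k ∈ univ.erase i, qF P Zb F k w (f k)| ≤
        dd * mF P Z F i w x)
    (hR1 : ∀ w, P.p w ≠ 0 → al w ≠ 0 → ¬ Tq w → ∀ f ∈ let_ F, (¬ ∃ i, B < rF P Zb F Y i w (f i)) → ¬ CutF P Z Zb F Y B e2 w f →
      ¬ Reg w f)
    (hR2 : ∀ w, P.p w ≠ 0 → al w ≠ 0 → ¬ Tq w → ∀ f ∈ let_ F, CutF P Z Zb F Y B e2 w f → Reg w f)
    (hpair : ∀ i k : Fin 3, i ≠ k → ∀ l m : Om → φ → ℝ, (∀ x, Fac (Zb i) (fun w => l w x)) →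
      (∀ y, Fac (Zb k) (fun w => m w y)) → (∀ w x, 0 ≤ l w x) → (∀ w y, 0 ≤ m w y) →
      P.E (fun w => ∑ x ∈ vals (F i), ∑ y ∈ vals (F k),
        al0 w * |mF2 P Z F i k w x y - qF P Zb F i w x * qF P Zb F k w y| * (l w x * m w y)) ≤
        eps * Real.sqrt (P.E (fun w => ∑ x ∈ vals (F i), qF P Zb F i w x * l w x ^ 2) *
          P.E (fun w => ∑ y ∈ vals (F k), qF P Zb F k w y * m w y ^ 2)))
    (hHf : ∀ x y, Fac Z (fun w => ind (H w x y)))
    (hH : ∀ w, P.p w ≠ 0 → al w ≠ 0 → ¬ Tq w → ∀ x ∈ vals (F (σ 0)), ∀ y ∈ vals (F (σ 1)), ¬ H w x y →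
      ∑ f ∈ let_ F, ind (f (σ 0) = x ∧ f (σ 1) = y) *
        |pF P Z F w f - mF2 P Z F (σ 0) (σ 1) w x y * qF P Zb F (σ 2) w (f (σ 2))| ≤
        dd * mF2 P Z F (σ 0) (σ 1) w x y)
    (htrip : ∀ l m : Om → φ → ℝ, (∀ x, Fac (Zb (σ 0)) (fun w => l w x)) →
      (∀ y, Fac (Zb (σ 1)) (fun w => m w y)) → (∀ w x, 0 ≤ l w x) → (∀ w y, 0 ≤ m w y) →
      P.E (fun w => ∑ x ∈ vals (F (σ 0)), ∑ y ∈ vals (F (σ 1)),
        al0 w * (ind (H w x y) * mF2 P Z F (σ 0) (σ 1) w x y) * (l w x * m w y)) ≤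
        eps * Real.sqrt (P.E (fun w => ∑ x ∈ vals (F (σ 0)), qF P Zb F (σ 0) w x * l w x ^ 2) *
          P.E (fun w => ∑ y ∈ vals (F (σ 1)), qF P Zb F (σ 1) w y * m w y ^ 2))) :
    P.E (fun w => al w * ∑ f ∈ let_ F, (∏ i, qF' P Zb F Y i w (f i)) * (a w f * (G w f - 1))) ≤
      ∑ i, FO1 P (Zb i) Z (F i) (Y i) B al +
      (c1 + c2 * d + (4 + 2 * B + B * dd) * (B ^ 2 * eps) + B ^ 2 * dd) * ∑ i, gn P (Zb i) (F i) (Y i) +
      c2 * B * ∑ i, Gd P (Zb i) Z (F i) (Y i) al0 +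
      B * P.E (fun w => al w * (ind (Tq w) * ∑ i, TVF P Z Zb F i w)) +
      P.E (fun w => al w * (ind (Tq w) * WKGF P Zb F Y B a G w)) +
      P.E (fun w => al w * PRF P F Y (Zb := Zb) B bd ai w) +
      P.E (fun w => al w * (ind (¬ Tq w) * RWXF P Z Zb F Y B e2 a w)) +
      B ^ 3 * P.E (fun w => al w * (ind (¬ Tq w) * FRF P Z Zb F Y B e2 w)) := by
  classical
  have q1 : ∀ w (f : Fin 3 → φ), ∏ i, qF P (fun i => Zb (σ i)) (fun i => F (σ i)) i w (f i) =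
      ∏ j, qF P Zb F j w (up σ f j) := fun w f => prod_up σ (fun j x => qF P Zb F j w x) f
  have cut : ∀ w (f : Fin 3 → φ), CutF P Z (fun i => Zb (σ i)) (fun i => F (σ i)) (fun i => Y (σ i)) B e2 w f ↔
      CutF P Z Zb F Y B e2 w (up σ f) := by
    intro w f
    constructor
    · rintro ⟨i, k1, k2⟩
      exact ⟨σ i, k1, by rw [up_app]; exact k2⟩
    · rintro ⟨j, k1, k2⟩
      refine ⟨σ.symm j, ?_, ?_⟩
      · show B < tF P Z Zb Y (σ (σ.symm j)) w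
        rw [Equiv.apply_symm_apply]
        exact k1
      · show e2 < |rF P Zb F Y (σ (σ.symm j)) w (f (σ.symm j)) - 1|
        rw [Equiv.apply_symm_apply]
        exact k2
  have K := key3y P (fun i => F (σ i)) (fun i => Y (σ i)) (Z := Z) (Zb := fun i => Zb (σ i)) (fun i => hZ (σ i))
    (B := B) (eps := eps) (al := al) (al0 := al0) hB (d := d) (dd := dd) (eta := eta) (e1 := e1) (e2 := e2) (c1 := c1)
    (c2 := c2) hd hdd heta heta1 he1 heB he2 he21 heps hc1 hc2 hal h0 h01 h1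
    (G := fun w f => G w (up σ f)) (a := fun w f => a w (up σ f)) (Reg := fun w f => Reg w (up σ f))
    (ai := fun w i x => ai w (σ i) x) (bd := fun w i x => bd w (σ i) x) (Tq := Tq) (H := H)
    (fun w f => ha0 w _) (fun w f => ha1 w _) (fun w i x => hai0 w _ x) (fun w i x => hai1 w _ x)
    (fun w hw ha f hf hr => by
      rw [pF_pm, q1]
      exact hG w hw ha _ ((up_mem F σ).1 hf) hr)
    (fun w hw ha f hf hr => hGR w hw ha _ ((up_mem F σ).1 hf) hr)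
    (fun w hw ha f hf i hi hk => by
      have h2 := hai w hw ha (up σ f) ((up_mem F σ).1 hf) (σ i) (by rw [up_app]; exact hi) (fun k hk' hs => by
        refine hk (σ.symm k) (fun e => hk' ?_) ?_
        · rw [← e, Equiv.apply_symm_apply]
        · show SBF P (Zb := Zb) F Y B bd (σ (σ.symm k)) w (f (σ.symm k))
          rw [Equiv.apply_symm_apply]
          exact hs)
      rw [up_app] at h2
      exact h2)
    (fun w hw ha f hf i hi k hk hr => by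
      refine Ra w hw ha (up σ f) ((up_mem F σ).1 hf) (σ i) (by rw [up_app]; exact hi) (σ k) (fun e => hk (σ.injective e)) ?_
      rw [up_app]
      exact hr)
    (fun w hw ha f hf i hi hb => by
      refine Rb w hw ha (up σ f) ((up_mem F σ).1 hf) (σ i) (by rw [up_app]; exact hi) ?_
      rw [up_app]
      exact hb)
    (fun w hw ha f hf i k hik hi hk hp => by
      refine Rc w hw ha (up σ f) ((up_mem F σ).1 hf) (σ i) (σ k) (fun e => hik (σ.injective e)) (by rw [up_app]; exact hi)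
        (by rw [up_app]; exact hk) ?_
      rw [q1, pF_pm] at hp
      exact hp)
    (fun w hw ha i x hx hs hb => by
      have h2 := hgood w hw ha (σ i) x hx hs hb
      rw [← sum_let F σ] at h2
      refine le_trans (le_of_eq (Finset.sum_congr rfl fun f _ => ?_)) h2
      rw [pF_pm, up_app]
      have e3 := prod_up_er σ (fun j x => qF P Zb F j w x) f i
      show ind (f i = x) * |pF P Z F w (up σ f) - mF P Z F (σ i) w (f i) * ∏ k ∈ univ.erase i, qF P Zb F (σ k) w (f k)| = _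
      rw [e3])
    (fun w hw ha ht f hf hn hc => by
      refine hR1 w hw ha ht (up σ f) ((up_mem F σ).1 hf) (fun ⟨j, hj⟩ => hn ⟨σ.symm j, ?_⟩) (fun hh => hc ((cut w f).2 hh))
      show B < rF P Zb F Y (σ (σ.symm j)) w (f (σ.symm j))
      rw [Equiv.apply_symm_apply]
      exact hj)
    (fun w hw ha ht f hf hc => hR2 w hw ha ht (up σ f) ((up_mem F σ).1 hf) ((cut w f).1 hc))
    (fun i k hik l m hl hm l0 m0 => hpair (σ i) (σ k) (fun e => hik.ne (σ.injective e)) l m hl hm l0 m0)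
    hHf
    (fun w hw ha ht x hx y hy hn => by
      have h2 := hH w hw ha ht x hx y hy hn
      rw [← sum_let F σ] at h2
      refine le_trans (le_of_eq (Finset.sum_congr rfl fun f _ => ?_)) h2
      rw [pF_pm, up_app, up_app, up_app]
      rfl)
    htrip
  -- the sums back
  have s0 : ∀ w, ∑ f ∈ let_ (fun i => F (σ i)), (∏ i, qF' P (fun i => Zb (σ i)) (fun i => F (σ i)) (fun i => Y (σ i)) i w (f i)) *
      (a w (up σ f) * (G w (up σ f) - 1)) = ∑ f ∈ let_ F, (∏ i, qF' P Zb F Y i w (f i)) * (a w f * (G w f - 1)) := by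
    intro w
    rw [← sum_let F σ]
    refine Finset.sum_congr rfl fun f _ => ?_
    have e := prod_up σ (fun j x => qF' P Zb F Y j w x) f
    rw [← e]
    rfl
  have s1 : ∑ i, FO1 P (Zb (σ i)) Z (F (σ i)) (Y (σ i)) B al = ∑ i, FO1 P (Zb i) Z (F i) (Y i) B al :=
    Equiv.sum_comp σ fun i => FO1 P (Zb i) Z (F i) (Y i) B al
  have s2 : ∑ i, gn P (Zb (σ i)) (F (σ i)) (Y (σ i)) = ∑ i, gn P (Zb i) (F i) (Y i) :=
    Equiv.sum_comp σ fun i => gn P (Zb i) (F i) (Y i)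
  have s3 : ∑ i, Gd P (Zb (σ i)) Z (F (σ i)) (Y (σ i)) al0 = ∑ i, Gd P (Zb i) Z (F i) (Y i) al0 :=
    Equiv.sum_comp σ fun i => Gd P (Zb i) Z (F i) (Y i) al0
  have s4 : ∀ w, ∑ i, TVF P Z (fun i => Zb (σ i)) (fun i => F (σ i)) i w = ∑ i, TVF P Z Zb F i w := fun w =>
    Equiv.sum_comp σ fun i => TVF P Z Zb F i w
  have s5 : ∀ w, WKGF P (fun i => Zb (σ i)) (fun i => F (σ i)) (fun i => Y (σ i)) B (fun w f => a w (up σ f))
      (fun w f => G w (up σ f)) w = WKGF P Zb F Y B a G w := by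
    intro w
    unfold WKGF
    rw [← sum_let F σ]
    refine Finset.sum_congr rfl fun f _ => ?_
    have e := prod_up σ (fun j x => hwk B (rF P Zb F Y j w x)) f
    rw [← e, q1]
    rfl
  have s6 : ∀ w, PRF P (fun i => F (σ i)) (fun i => Y (σ i)) (Zb := fun i => Zb (σ i)) B (fun w i x => bd w (σ i) x)
      (fun w i x => ai w (σ i) x) w = PRF P F Y (Zb := Zb) B bd ai w := by
    intro w
    unfold PRF
    rw [← Equiv.sum_comp σ fun i => (∑ x ∈ vals (F i), ind (SBF P (Zb := Zb) F Y B bd i w x) *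
      (ai w i x * qF' P Zb F Y i w x)) * ∑ k ∈ univ.erase i, ∑ x ∈ vals (F k), ind (SBF P (Zb := Zb) F Y B bd k w x) *
        qF' P Zb F Y k w x]
    refine Finset.sum_congr rfl fun i _ => ?_
    rw [← sum_er σ (fun k => ∑ x ∈ vals (F k), ind (SBF P (Zb := Zb) F Y B bd k w x) * qF' P Zb F Y k w x) i]
    rfl
  have s7 : ∀ w, RWXF P Z (fun i => Zb (σ i)) (fun i => F (σ i)) (fun i => Y (σ i)) B e2 (fun w f => a w (up σ f)) w =
      RWXF P Z Zb F Y B e2 a w := by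
    intro w
    unfold RWXF
    rw [← sum_let F σ]
    refine Finset.sum_congr rfl fun f _ => ?_
    have e := prod_up σ (fun j x => hwk B (rF P Zb F Y j w x)) f
    have e' : (¬ CutF P Z (fun i => Zb (σ i)) (fun i => F (σ i)) (fun i => Y (σ i)) B e2 w f) =
        ¬ CutF P Z Zb F Y B e2 w (up σ f) := by rw [propext (cut w f)]
    rw [e', pF_pm, q1, ← e]
    rfl
  have s8 : ∀ w, FRF P Z (fun i => Zb (σ i)) (fun i => F (σ i)) (fun i => Y (σ i)) B e2 w = FRF P Z Zb F Y B e2 w := by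
    intro w
    unfold FRF
    exact Equiv.sum_comp σ fun i => ind (B < tF P Z Zb Y i w) *
      (14 * e2 + ∑ x ∈ vals (F i), qF P Zb F i w x * ind (e2 < |rF P Zb F Y i w x - 1|))
  simp only [s0, s4, s5, s6, s7, s8] at K
  rw [s1, s2, s3] at K
  exact K

end perm

/-! ### the frame of two tops -/

section two

variable {Om : Type*} [Fintype Om] (P : FP Om) {α β γ φ : Type*} {Z : Om → β} {Zb : Fin 3 → Om → α}
  (F : Fin 3 → Om → φ) (Y : Fin 3 → Om → γ) (i0 : Fin 3)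

variable {eps : ℝ} {al0 : Om → ℝ}

theorem sum_mq (k : Fin 3) {w : Om} (hw : P.p w ≠ 0) : ∑ y ∈ vals (F k), |mF P Z F k w y - qF P Zb F k w y| ≤ 2 := by
  have h1 : ∑ y ∈ vals (F k), mF P Z F k w y = 1 := by
    have := P.sum_pv (W := Z) (F k) (F := fun _ _ => (1 : ℝ)) (fun _ _ _ _ => rfl) w
    rw [P.ce_const _ 1 hw] at this
    simp only [mul_one] at this
    exact this
  have h2 : ∑ y ∈ vals (F k), qF P Zb F k w y = 1 := by
    have := P.sum_pv (W := Zb k) (F k) (F := fun _ _ => (1 : ℝ)) (fun _ _ _ _ => rfl) w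
    rw [P.ce_const _ 1 hw] at this
    simp only [mul_one] at this
    exact this
  have h3 : ∑ y ∈ vals (F k), |mF P Z F k w y - qF P Zb F k w y| ≤
      ∑ y ∈ vals (F k), (mF P Z F k w y + qF P Zb F k w y) := by
    refine Finset.sum_le_sum fun y _ => ?_
    have a1 : 0 ≤ mF P Z F k w y := P.pv_nonneg _ _ _ _
    have a2 : 0 ≤ qF P Zb F k w y := P.pv_nonneg _ _ _ _
    exact abs_le.2 ⟨by linarith, by linarith⟩
  rw [Finset.sum_add_distrib, h1, h2] at h3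
  linarith

/-- one top against a constant -/
theorem side (h0 : ∀ w, 0 ≤ al0 w) (h1 : ∀ w, al0 w ≤ 1) {d1 : ℝ} (hd1 : 0 ≤ d1) (heps : 0 ≤ eps)
    (hde : 2 * d1 ≤ eps ^ 2) {k : Fin 3} (hrow : ∀ w, P.p w ≠ 0 → ∀ x ∈ vals (F k),
      P.ce (Zb k) (fun u => al0 u * |mF P Z F k u x - qF P Zb F k u x|) w ≤ d1 * qF P Zb F k w x)
    (l : Om → ℝ) (m : Om → φ → ℝ) (hm : ∀ y, Fac (Zb k) (fun w => m w y)) :
    P.E (fun w => ∑ y ∈ vals (F k), al0 w * |mF P Z F k w y - qF P Zb F k w y| * (l w * m w y)) ≤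
      eps * Real.sqrt (P.E (fun w => l w ^ 2) * P.E (fun w => ∑ y ∈ vals (F k), qF P Zb F k w y * m w y ^ 2)) := by
  have k1 := E_sum_cs P (vals (F k)) (fun w y => al0 w * |mF P Z F k w y - qF P Zb F k w y|) (fun w _ => l w) m
    (fun w _ y _ => mul_nonneg (h0 w) (abs_nonneg _))
  have k2 : P.E (fun w => ∑ y ∈ vals (F k), al0 w * |mF P Z F k w y - qF P Zb F k w y| * l w ^ 2) ≤
      2 * P.E (fun w => l w ^ 2) := by
    rw [← P.E_smul]
    refine P.E_mono fun w hw => ?_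
    rw [← Finset.sum_mul, ← Finset.mul_sum]
    have a1 := sum_mq P F (Z := Z) (Zb := Zb) k hw
    have a2 : 0 ≤ ∑ y ∈ vals (F k), |mF P Z F k w y - qF P Zb F k w y| := Finset.sum_nonneg fun _ _ => abs_nonneg _
    have a3 : al0 w * ∑ y ∈ vals (F k), |mF P Z F k w y - qF P Zb F k w y| ≤ 1 * 2 :=
      mul_le_mul (h1 w) a1 a2 zero_le_one
    have a4 := mul_le_mul_of_nonneg_right a3 (sq_nonneg (l w))
    linarith
  have k3 : P.E (fun w => ∑ y ∈ vals (F k), al0 w * |mF P Z F k w y - qF P Zb F k w y| * m w y ^ 2) ≤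
      d1 * P.E (fun w => ∑ y ∈ vals (F k), qF P Zb F k w y * m w y ^ 2) := by
    rw [P.E_sum, P.E_sum, Finset.mul_sum]
    refine Finset.sum_le_sum fun y hy => ?_
    have f2 : Fac (Zb k) (fun w => m w y ^ 2) := fun a b hab => by
      have h2 : m a y = m b y := hm y a b hab
      show m a y ^ 2 = m b y ^ 2
      rw [h2]
    have e1 : P.E (fun w => al0 w * |mF P Z F k w y - qF P Zb F k w y| * m w y ^ 2) =
        P.E (fun w => m w y ^ 2 * P.ce (Zb k) (fun u => al0 u * |mF P Z F k u y - qF P Zb F k u y|) w) := by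
      rw [P.E_mul_ce f2]
      exact P.E_congr fun w _ => by ring
    rw [e1, ← P.E_smul]
    refine P.E_mono fun w hw => ?_
    have a1 := mul_le_mul_of_nonneg_left (hrow w hw y hy) (sq_nonneg (m w y))
    linarith
  have e0 : 0 ≤ P.E (fun w => l w ^ 2) := P.E_nonneg fun w _ => sq_nonneg _
  have e1 : 0 ≤ P.E (fun w => ∑ y ∈ vals (F k), qF P Zb F k w y * m w y ^ 2) := P.E_nonneg fun w _ =>
    Finset.sum_nonneg fun y _ => mul_nonneg (P.pv_nonneg _ _ _ _) (sq_nonneg _)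
  have e3 : 0 ≤ P.E (fun w => ∑ y ∈ vals (F k), al0 w * |mF P Z F k w y - qF P Zb F k w y| * m w y ^ 2) :=
    P.E_nonneg fun w _ => Finset.sum_nonneg fun y _ => mul_nonneg (mul_nonneg (h0 w) (abs_nonneg _)) (sq_nonneg _)
  refine (le_abs_self _).trans (k1.trans ?_)
  have k4 : P.E (fun w => ∑ y ∈ vals (F k), al0 w * |mF P Z F k w y - qF P Zb F k w y| * l w ^ 2) *
      P.E (fun w => ∑ y ∈ vals (F k), al0 w * |mF P Z F k w y - qF P Zb F k w y| * m w y ^ 2) ≤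
      eps ^ 2 * (P.E (fun w => l w ^ 2) * P.E (fun w => ∑ y ∈ vals (F k), qF P Zb F k w y * m w y ^ 2)) := by
    refine (mul_le_mul k2 k3 e3 (by linarith)).trans ?_
    have a1 := mul_le_mul_of_nonneg_right hde (mul_nonneg e0 e1)
    linarith
  refine (Real.sqrt_le_sqrt k4).trans (le_of_eq ?_)
  rw [Real.sqrt_mul (sq_nonneg eps), Real.sqrt_sq heps]

/-- **the pair hypothesis in the frame of two tops** -/
theorem hpair_Fo (h0 : ∀ w, 0 ≤ al0 w) (h1 : ∀ w, al0 w ≤ 1) {d1 : ℝ} (hd1 : 0 ≤ d1) (heps : 0 ≤ eps)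
    (hde : 2 * d1 ≤ eps ^ 2)
    (hrow : ∀ k, k ≠ i0 → ∀ w, P.p w ≠ 0 → ∀ x ∈ vals (F k),
      P.ce (Zb k) (fun u => al0 u * |mF P Z F k u x - qF P Zb F k u x|) w ≤ d1 * qF P Zb F k w x)
    (hp : ∀ i k : Fin 3, i ≠ k → i ≠ i0 → k ≠ i0 → ∀ l m : Om → φ → ℝ, (∀ x, Fac (Zb i) (fun w => l w x)) →
      (∀ y, Fac (Zb k) (fun w => m w y)) → (∀ w x, 0 ≤ l w x) → (∀ w y, 0 ≤ m w y) →
      P.E (fun w => ∑ x ∈ vals (F i), ∑ y ∈ vals (F k),
        al0 w * |mF2 P Z F i k w x y - qF P Zb F i w x * qF P Zb F k w y| * (l w x * m w y)) ≤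
        eps * Real.sqrt (P.E (fun w => ∑ x ∈ vals (F i), qF P Zb F i w x * l w x ^ 2) *
          P.E (fun w => ∑ y ∈ vals (F k), qF P Zb F k w y * m w y ^ 2)))
    (i k : Fin 3) (hik : i ≠ k) (l m : Om → Option φ → ℝ) (hl : ∀ x, Fac (Zb i) (fun w => l w x))
    (hm : ∀ y, Fac (Zb k) (fun w => m w y)) (l0 : ∀ w x, 0 ≤ l w x) (m0 : ∀ w y, 0 ≤ m w y) :
    P.E (fun w => ∑ x ∈ vals (Fo F i0 i), ∑ y ∈ vals (Fo F i0 k),
      al0 w * |mF2 P Z (Fo F i0) i k w x y - qF P Zb (Fo F i0) i w x * qF P Zb (Fo F i0) k w y| * (l w x * m w y)) ≤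
      eps * Real.sqrt (P.E (fun w => ∑ x ∈ vals (Fo F i0 i), qF P Zb (Fo F i0) i w x * l w x ^ 2) *
        P.E (fun w => ∑ y ∈ vals (Fo F i0 k), qF P Zb (Fo F i0) k w y * m w y ^ 2)) := by
  -- second order sums in the frame
  have t1 : ∀ (k : Fin 3), k ≠ i0 → ∀ m : Om → Option φ → ℝ,
      P.E (fun w => ∑ y ∈ vals (Fo F i0 k), qF P Zb (Fo F i0) k w y * m w y ^ 2) =
      P.E (fun w => ∑ y ∈ vals (F k), qF P Zb F k w y * m w (some y) ^ 2) := by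
    intro k hk m
    refine P.E_congr fun w _ => ?_
    rw [sum_Fo hk]
    refine Finset.sum_congr rfl fun y _ => ?_
    rw [qF_Fo P F i0 Zb hk]
  have t0 : ∀ m : Om → Option φ → ℝ, P.E (fun w => ∑ y ∈ vals (Fo F i0 i0), qF P Zb (Fo F i0) i0 w y * m w y ^ 2) =
      P.E (fun w => m w none ^ 2) := by
    intro m
    refine P.E_congr fun w hw => ?_
    rw [sum_Fn w, qF_Fn P F i0 Zb hw, one_mul]
  by_cases hi : i = i0
  · subst hi
    have hk : k ≠ i := fun e => hik e.symm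
    rw [t0 l, t1 k hk m]
    refine le_trans (le_of_eq ?_) (side P F h0 h1 hd1 heps hde (hrow k hk) (fun w => l w none) (fun w y => m w (some y))
      (fun y => hm (some y)))
    refine P.E_congr fun w hw => ?_
    rw [sum_Fn w, sum_Fo hk]
    refine Finset.sum_congr rfl fun y _ => ?_
    rw [mF2_Fn P F i Z hk, qF_Fn P F i Zb hw, qF_Fo P F i Zb hk, one_mul]
  · by_cases hk : k = i0
    · subst hk
      rw [t1 i hi l, t0 m, mul_comm (P.E _)]
      refine le_trans (le_of_eq ?_) (side P F h0 h1 hd1 heps hde (hrow i hi) (fun w => m w none) (fun w x => l w (some x))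
        (fun x => hl (some x)))
      refine P.E_congr fun w hw => ?_
      rw [sum_Fo hi]
      refine Finset.sum_congr rfl fun x _ => ?_
      rw [sum_Fn w, mF2_nF P F k Z hi, qF_Fn P F k Zb hw, qF_Fo P F k Zb hi, mul_one]
      ring
    · rw [t1 i hi l, t1 k hk m]
      refine le_trans (le_of_eq ?_) (hp i k hik hi hk (fun w x => l w (some x)) (fun w y => m w (some y))
        (fun x => hl (some x)) (fun y => hm (some y)) (fun w x => l0 w _) (fun w y => m0 w _))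
      refine P.E_congr fun w _ => ?_
      rw [sum_Fo hi]
      refine Finset.sum_congr rfl fun x _ => ?_
      rw [sum_Fo hk]
      refine Finset.sum_congr rfl fun y _ => ?_
      rw [mF2_Fo P F i0 Z hi hk, qF_Fo P F i0 Zb hi, qF_Fo P F i0 Zb hk]

/-- the sums over the entries of the frame -/
theorem sum_FO1_Fo (B : ℝ) (al : Om → ℝ) : ∑ j, FO1 P (Zb j) Z (Fo F i0 j) (Y j) B al =
    ∑ j ∈ univ.erase i0, FO1 P (Zb j) Z (F j) (Y j) B al := by
  have e0 : FO1 P (Zb i0) Z (Fo F i0 i0) (Y i0) B al = 0 := by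
    unfold FO1
    have h1 : ∀ w, P.p w ≠ 0 → al w * (ind (¬ B < tau P (Zb i0) Z (Y i0) w (Y i0 w)) *
        phi1 P (Zb i0) Z (Fo F i0 i0) (Y i0) B w (Y i0 w)) = 0 := by
      intro w hw
      rw [phi1_Fn P (Zb i0) Z (Y i0) B hw, mul_zero, mul_zero]
    refine (P.E_congr h1).trans ?_
    unfold FP.E
    simp
  rw [← Finset.add_sum_erase univ (fun j => FO1 P (Zb j) Z (Fo F i0 j) (Y j) B al) (mem_univ i0), e0, zero_add]
  refine Finset.sum_congr rfl fun j hj => ?_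
  unfold FO1
  refine P.E_congr fun w _ => ?_
  rw [phi1_Fo P (Zb j) Z (Y j) (Finset.ne_of_mem_erase hj)]

theorem sum_TVF_Fo {w : Om} (hw : P.p w ≠ 0) : ∑ j, TVF P Z Zb (Fo F i0) j w = ∑ j ∈ univ.erase i0, TVF P Z Zb F j w := by
  rw [← Finset.add_sum_erase univ (fun j => TVF P Z Zb (Fo F i0) j w) (mem_univ i0), TVF_Fn P F i0 Z Zb hw, zero_add]
  exact Finset.sum_congr rfl fun j hj => TVF_Fo P F i0 Z Zb (Finset.ne_of_mem_erase hj) w

/-- the density of the frame is the law of the two visible tops -/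
theorem pF_two {i k : Fin 3} (hi : i ≠ i0) (hk : k ≠ i0) (hik : i ≠ k) (w : Om) {f : Fin 3 → Option φ}
    (hf : f i0 = Option.none) : pF P Z (Fo F i0) w f = mF2 P Z (Fo F i0) i k w (f i) (f k) := by
  have hall : ∀ j : Fin 3, j = i ∨ j = k ∨ j = i0 := by
    have key : ∀ i k i0 j : Fin 3, i ≠ i0 → k ≠ i0 → i ≠ k → j = i ∨ j = k ∨ j = i0 := by decide
    exact fun j => key i k i0 j hi hk hik
  unfold pF mF2 FP.pv
  refine P.ce_congr (fun u _ => ?_) w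
  have e : (tup (Fo F i0) u = f) = ((Fo F i0 i u, Fo F i0 k u) = (f i, f k)) := by
    refine propext ⟨fun e => ?_, fun e => funext fun j => ?_⟩
    · rw [← e]
      rfl
    · rcases hall j with rfl | rfl | rfl
      · exact (Prod.mk.inj e).1
      · exact (Prod.mk.inj e).2
      · rw [hf]
        exact Fn_app u
  rw [e]

variable {B : ℝ} {al : Om → ℝ} (hZ : ∀ i, Fac Z (Zb i))

include hZ in
/-- **KEY3 IN THE FRAME OF TWO TOPS** : no third top -/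
theorem key2y (hB : Real.exp 2 ≤ B) {d dd eta e1 e2 c1 c2 : ℝ} (hd : 0 ≤ d) (hdd : 0 ≤ dd) (heta : 0 ≤ eta)
    (heta1 : eta ≤ 1) (he1 : 0 ≤ e1) (heB : 1 + e1 ≤ B) (he2 : 0 ≤ e2) (he21 : e2 ≤ 1) (heps : 0 ≤ eps)
    (hc1 : (1 + e1) ^ 2 - 1 + eta + (B ^ 2 * dd + d) ≤ c1) (hc2 : (1 + e1) ^ 2 + (B ^ 2 * dd + 1) ≤ c2)
    (hal : Fac Z al0) (h0 : ∀ w, 0 ≤ al w) (h01 : ∀ w, al w ≤ al0 w) (h1 : ∀ w, al0 w ≤ 1)
    {G a : Om → (Fin 3 → Option φ) → ℝ} {Reg : Om → (Fin 3 → Option φ) → Prop} {ai : Om → Fin 3 → Option φ → ℝ}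
    {bd : Om → Fin 3 → Option φ → Prop} {Tq : Om → Prop} (ha0 : ∀ w f, 0 ≤ a w f) (ha1 : ∀ w f, a w f ≤ 1)
    (hai0 : ∀ w i x, 0 ≤ ai w i x) (hai1 : ∀ w i x, ai w i x ≤ 1)
    (hG : ∀ w, P.p w ≠ 0 → al w ≠ 0 → ∀ f ∈ let_ (Fo F i0), ¬ Reg w f →
      G w f = pF P Z (Fo F i0) w f / ∏ i, qF P Zb (Fo F i0) i w (f i))
    (hGR : ∀ w, P.p w ≠ 0 → al w ≠ 0 → ∀ f ∈ let_ (Fo F i0), Reg w f → G w f ≤ eta)
    (hai : ∀ w, P.p w ≠ 0 → al w ≠ 0 → ∀ f ∈ let_ (Fo F i0), ∀ i, SBF P (Zb := Zb) (Fo F i0) Y B bd i w (f i) →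
      (∀ k, k ≠ i → ¬ SBF P (Zb := Zb) (Fo F i0) Y B bd k w (f k)) → a w f = ai w i (f i))
    (Ra : ∀ w, P.p w ≠ 0 → al w ≠ 0 → ∀ f ∈ let_ (Fo F i0), ∀ i, SBF P (Zb := Zb) (Fo F i0) Y B bd i w (f i) →
      ∀ k, k ≠ i → 1 + e1 < rF P Zb (Fo F i0) Y k w (f k) → Reg w f)
    (Rb : ∀ w, P.p w ≠ 0 → al w ≠ 0 → ∀ f ∈ let_ (Fo F i0), ∀ i, B < rF P Zb (Fo F i0) Y i w (f i) →
      bxF P (Fo F i0) Y (Z := Z) (Zb := Zb) B d i w (f i) → Reg w f)
    (Rc : ∀ w, P.p w ≠ 0 → al w ≠ 0 → ∀ f ∈ let_ (Fo F i0), ∀ i k, i ≠ k → B < rF P Zb (Fo F i0) Y i w (f i) →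
      B < rF P Zb (Fo F i0) Y k w (f k) → (1 + d) * ∏ j, qF P Zb (Fo F i0) j w (f j) < pF P Z (Fo F i0) w f → Reg w f)
    (hgood : ∀ w, P.p w ≠ 0 → al w ≠ 0 → ∀ i, ∀ x ∈ vals (Fo F i0 i), B < rF P Zb (Fo F i0) Y i w x → ¬ bd w i x →
      ∑ f ∈ let_ (Fo F i0), ind (f i = x) * |pF P Z (Fo F i0) w f - mF P Z (Fo F i0) i w (f i) *
        ∏ k ∈ univ.erase i, qF P Zb (Fo F i0) k w (f k)| ≤ dd * mF P Z (Fo F i0) i w x)
    (hR1 : ∀ w, P.p w ≠ 0 → al w ≠ 0 → ¬ Tq w → ∀ f ∈ let_ (Fo F i0),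
      (¬ ∃ i, B < rF P Zb (Fo F i0) Y i w (f i)) → ¬ CutF P Z Zb (Fo F i0) Y B e2 w f → ¬ Reg w f)
    (hR2 : ∀ w, P.p w ≠ 0 → al w ≠ 0 → ¬ Tq w → ∀ f ∈ let_ (Fo F i0), CutF P Z Zb (Fo F i0) Y B e2 w f → Reg w f)
    -- rows of the visible tops, the visible pair
    {d1 : ℝ} (hd1 : 0 ≤ d1) (hde : 2 * d1 ≤ eps ^ 2)
    (hrow : ∀ k, k ≠ i0 → ∀ w, P.p w ≠ 0 → ∀ x ∈ vals (F k),
      P.ce (Zb k) (fun u => al0 u * |mF P Z F k u x - qF P Zb F k u x|) w ≤ d1 * qF P Zb F k w x)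
    (hp : ∀ i k : Fin 3, i ≠ k → i ≠ i0 → k ≠ i0 → ∀ l m : Om → φ → ℝ, (∀ x, Fac (Zb i) (fun w => l w x)) →
      (∀ y, Fac (Zb k) (fun w => m w y)) → (∀ w x, 0 ≤ l w x) → (∀ w y, 0 ≤ m w y) →
      P.E (fun w => ∑ x ∈ vals (F i), ∑ y ∈ vals (F k),
        al0 w * |mF2 P Z F i k w x y - qF P Zb F i w x * qF P Zb F k w y| * (l w x * m w y)) ≤
        eps * Real.sqrt (P.E (fun w => ∑ x ∈ vals (F i), qF P Zb F i w x * l w x ^ 2) *
          P.E (fun w => ∑ y ∈ vals (F k), qF P Zb F k w y * m w y ^ 2))) :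
    P.E (fun w => al w * ∑ f ∈ let_ (Fo F i0), (∏ i, qF' P Zb (Fo F i0) Y i w (f i)) * (a w f * (G w f - 1))) ≤
      ∑ j ∈ univ.erase i0, FO1 P (Zb j) Z (F j) (Y j) B al +
      (c1 + c2 * d + (4 + 2 * B + B * dd) * (B ^ 2 * eps) + B ^ 2 * dd) * ∑ j ∈ univ.erase i0, gn P (Zb j) (F j) (Y j) +
      c2 * B * ∑ j ∈ univ.erase i0, Gd P (Zb j) Z (F j) (Y j) al0 +
      B * P.E (fun w => al w * (ind (Tq w) * ∑ j ∈ univ.erase i0, TVF P Z Zb F j w)) +
      P.E (fun w => al w * (ind (Tq w) * WKGF P Zb (Fo F i0) Y B a G w)) +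
      P.E (fun w => al w * PRF P (Fo F i0) Y (Zb := Zb) B bd ai w) +
      P.E (fun w => al w * (ind (¬ Tq w) * RWXF P Z Zb (Fo F i0) Y B e2 a w)) +
      B ^ 3 * P.E (fun w => al w * (ind (¬ Tq w) * FRF P Z Zb (Fo F i0) Y B e2 w)) := by
  classical
  have h00 : ∀ w, 0 ≤ al0 w := fun w => (h0 w).trans (h01 w)
  set σ : Equiv.Perm (Fin 3) := Equiv.swap 2 i0 with hσ
  have hσ2 : σ 2 = i0 := Equiv.swap_apply_left 2 i0
  have n0 : σ 0 ≠ i0 := fun e => by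
    have h2 : (0 : Fin 3) = 2 := σ.injective (e.trans hσ2.symm)
    exact absurd h2 (by decide)
  have n1 : σ 1 ≠ i0 := fun e => by
    have h2 : (1 : Fin 3) = 2 := σ.injective (e.trans hσ2.symm)
    exact absurd h2 (by decide)
  have n01 : σ 0 ≠ σ 1 := fun e => by
    have h2 : (0 : Fin 3) = 1 := σ.injective e
    exact absurd h2 (by decide)
  have K := key3s P (Fo F i0) Y σ (Z := Z) (Zb := Zb) hZ (B := B) (eps := eps) (al := al) (al0 := al0) hB (d := d) (dd := dd)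
    (eta := eta) (e1 := e1) (e2 := e2) (c1 := c1) (c2 := c2) hd hdd heta heta1 he1 heB he2 he21 heps hc1 hc2 hal h0 h01 h1
    (G := G) (a := a) (Reg := Reg) (ai := ai) (bd := bd) (Tq := Tq) (H := fun _ _ _ => False) ha0 ha1 hai0 hai1 hG hGR hai
    Ra Rb Rc hgood hR1 hR2
    (fun i k hik l m hl hm l0 m0 => hpair_Fo P F i0 h00 h1 hd1 heps hde hrow hp i k hik l m hl hm l0 m0)
    (fun x y _ _ _ => rfl)
    (fun w hw ha ht x hx y hy _ => by
      have e0 : ∑ f ∈ let_ (Fo F i0), ind (f (σ 0) = x ∧ f (σ 1) = y) *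
          |pF P Z (Fo F i0) w f - mF2 P Z (Fo F i0) (σ 0) (σ 1) w x y * qF P Zb (Fo F i0) (σ 2) w (f (σ 2))| = 0 := by
        refine Finset.sum_eq_zero fun f hf => ?_
        by_cases hxy : f (σ 0) = x ∧ f (σ 1) = y
        · have hn : f i0 = Option.none := by
            unfold let_ at hf
            exact mem_Fn (Fintype.mem_piFinset.1 hf i0)
          rw [pF_two P F i0 n0 n1 n01 w hn, hσ2, hn, qF_Fn P F i0 Zb hw, hxy.1, hxy.2, mul_one, sub_self, abs_zero,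
            mul_zero]
        · rw [ind_not hxy, zero_mul]
      rw [e0]
      exact mul_nonneg hdd (P.pv_nonneg _ _ _ _))
    (fun l m hl hm l0 m0 => by
      have e0 : P.E (fun w => ∑ x ∈ vals (Fo F i0 (σ 0)), ∑ y ∈ vals (Fo F i0 (σ 1)),
          al0 w * (ind False * mF2 P Z (Fo F i0) (σ 0) (σ 1) w x y) * (l w x * m w y)) = 0 := by
        have e1 : ∀ w, ∑ x ∈ vals (Fo F i0 (σ 0)), ∑ y ∈ vals (Fo F i0 (σ 1)),
            al0 w * (ind False * mF2 P Z (Fo F i0) (σ 0) (σ 1) w x y) * (l w x * m w y) = 0 := fun w =>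
          Finset.sum_eq_zero fun x _ => Finset.sum_eq_zero fun y _ => by
            rw [ind_not (fun hh : False => hh), zero_mul, mul_zero, zero_mul]
        simp only [e1]
        unfold FP.E
        simp
      rw [e0]
      exact mul_nonneg heps (Real.sqrt_nonneg _))
  have s2 : ∑ i, gn P (Zb i) (Fo F i0 i) (Y i) = ∑ j ∈ univ.erase i0, gn P (Zb j) (F j) (Y j) := sum_gn_Fo P F i0 Zb Y
  have s3 : ∑ i, Gd P (Zb i) Z (Fo F i0 i) (Y i) al0 = ∑ j ∈ univ.erase i0, Gd P (Zb j) Z (F j) (Y j) al0 :=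
    sum_Gd_Fo P F i0 Z Zb Y al0
  have s4 : P.E (fun w => al w * (ind (Tq w) * ∑ i, TVF P Z Zb (Fo F i0) i w)) =
      P.E (fun w => al w * (ind (Tq w) * ∑ j ∈ univ.erase i0, TVF P Z Zb F j w)) :=
    P.E_congr fun w hw => by rw [sum_TVF_Fo P F i0 hw]
  rw [sum_FO1_Fo P F Y i0 B al, s2, s3, s4] at K
  exact K

end two

end

end Pool.Agent.GMH.KeyPm
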