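import Pool.Agent.GMH.KillP

/-!
# GMH/KillP2 (helper95): surprisal of a digit with an unlikely value

`dig_tail` : the mean of the surprisal of the digit on the event that its value is unlikely, paid by the square of its bias.
-/

set_option autoImplicit false
set_option linter.unusedSectionVars false

namespace Pool.Agent.GMH

open Finset Pool.Agent.PWZ Pool.Agent.M3

namespace KillP2

variable {Om : Type*} [Fintype Om] (P : FP Om)

/-- `p log (1/p) ≤ sqrt p` -/
theorem mul_log_le {q : ℝ} (hq : 0 ≤ q) : q * Real.log (1 / q) ≤ Real.sqrt q := by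
  rcases hq.eq_or_lt with h | h
  · rw [← h, zero_mul, Real.sqrt_zero]
  · have hs := Real.sqrt_pos.2 h
    have h1 : Real.log (1 / Real.sqrt q / 2) ≤ 1 / Real.sqrt q / 2 - 1 :=
      Real.log_le_sub_one_of_pos (by positivity)
    have h2 : Real.log (1 / Real.sqrt q / 2) = Real.log (1 / Real.sqrt q) - Real.log 2 :=
      Real.log_div (by positivity) (by norm_num)
    have h3 : Real.log 2 ≤ 1 := by
      have := Real.log_le_sub_one_of_pos (show (0 : ℝ) < 2 by norm_num)
      linarith
    have h4 : Real.log (1 / q) = 2 * Real.log (1 / Real.sqrt q) := by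
      rw [one_div, one_div, Real.log_inv, Real.log_inv, Real.log_sqrt h.le]
      ring
    have h5 : Real.log (1 / q) ≤ 1 / Real.sqrt q := by
      rw [h4]
      linarith
    have h6 := mul_le_mul_of_nonneg_left h5 hq
    refine h6.trans (le_of_eq ?_)
    have h7 : q = Real.sqrt q * Real.sqrt q := (Real.mul_self_sqrt hq).symm
    rw [mul_one_div]
    nth_rewrite 1 [h7]
    field_simp

/-- one value of the digit -/
theorem one_tail {κ : Type*} (A : Om → κ) (g : Om → ℝ) (z : ℝ) {d : ℝ} (_hd : 0 ≤ d) :
    P.E (fun w => ind (g w = z) * (ind (P.ce A (fun v => ind (g v = z)) w < d) *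
      Real.log (1 / P.ce A (fun v => ind (g v = z)) w))) ≤
      Real.sqrt d * P.E (fun w => ind (P.ce A (fun v => ind (g v = z)) w < d)) := by
  set p := P.ce A (fun v => ind (g v = z)) with hp
  have hfac : Fac A (fun w => ind (p w < d) * Real.log (1 / p w)) := fun v w h => by
    have e : p v = p w := P.ce_fac A _ v w h
    show ind (p v < d) * Real.log (1 / p v) = ind (p w < d) * Real.log (1 / p w)
    rw [e]
  have h1 : P.E (fun w => ind (g w = z) * (ind (p w < d) * Real.log (1 / p w))) =
      P.E (fun w => (ind (p w < d) * Real.log (1 / p w)) * p w) := by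
    rw [hp, P.E_mul_ce hfac (fun v => ind (g v = z))]
    exact P.E_congr fun w _ => mul_comm _ _
  rw [h1, ← P.E_smul]
  refine P.E_mono fun w _ => ?_
  have hp0 : 0 ≤ p w := P.ce_nonneg (fun _ _ => ind_nonneg _) w
  by_cases h : p w < d
  · rw [ind_of h, one_mul, mul_one, mul_comm]
    exact (mul_log_le hp0).trans (Real.sqrt_le_sqrt h.le)
  · rw [ind_not h, zero_mul, zero_mul, mul_zero]

/-- **SURPRISAL OF A DIGIT WITH AN UNLIKELY VALUE** -/
theorem dig_tail {κ : Type*} (A : Om → κ) (g : Om → ℝ) (hg : ∀ w, P.p w ≠ 0 → g w = 1 ∨ g w = -1) {d : ℝ}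
    (hd0 : 0 ≤ d) (hd : d ≤ 1 / 4) :
    P.E (fun w => ind (P.ce A (fun v => ind (g v = g w)) w < d) *
      Real.log (1 / P.ce A (fun v => ind (g v = g w)) w)) ≤ 4 * Real.sqrt d * P.E (fun w => P.ce A g w ^ 2) := by
  set p := P.ce A (fun v => ind (g v = 1)) with hp
  set q := P.ce A (fun v => ind (g v = -1)) with hq
  have h1 := one_tail P A g 1 hd0
  have h2 := one_tail P A g (-1) hd0
  have h3 : P.E (fun w => ind (P.ce A (fun v => ind (g v = g w)) w < d) *
      Real.log (1 / P.ce A (fun v => ind (g v = g w)) w)) =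
      P.E (fun w => ind (g w = 1) * (ind (p w < d) * Real.log (1 / p w))) +
      P.E (fun w => ind (g w = -1) * (ind (q w < d) * Real.log (1 / q w))) := by
    rw [← P.E_add]
    refine P.E_congr fun w hw => ?_
    rcases hg w hw with h | h
    · rw [h, ind_of rfl, one_mul, ind_not (by norm_num : ¬ (1 : ℝ) = -1), zero_mul, add_zero]
    · rw [h, ind_of rfl, one_mul, ind_not (by norm_num : ¬ (-1 : ℝ) = 1), zero_mul, zero_add]
  have h4 : P.E (fun w => ind (p w < d)) + P.E (fun w => ind (q w < d)) ≤ 4 * P.E (fun w => P.ce A g w ^ 2) := by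
    rw [← P.E_add, ← P.E_smul]
    refine P.E_mono fun w hw => ?_
    obtain ⟨e1, e2⟩ := digit_bias P A g hg hw
    have e1' : P.ce A g w = 2 * p w - 1 := e1
    have e2' : p w + q w = 1 := e2
    rw [e1']
    by_cases c1 : p w < d
    · have c2 : ¬ q w < d := by
        intro c2
        linarith
      rw [ind_of c1, ind_not c2]
      nlinarith
    · by_cases c2 : q w < d
      · rw [ind_not c1, ind_of c2]
        nlinarith
      · rw [ind_not c1, ind_not c2]
        nlinarith [sq_nonneg (2 * p w - 1)]
  rw [h3]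
  have h5 := mul_le_mul_of_nonneg_left h4 (Real.sqrt_nonneg d)
  linarith

end KillP2

end Pool.Agent.GMH
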