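import Pool.Agent.GMH.RegC2

/-!
# GMH/KinF2 (helper46): THE KINDS 2 .. 5 IN THE FRAME TWO

Frame `Fo F i0` (the top `i0` is missing), the visible tops `t`, `u`, outside `R0` the missing top is never bad (`bad_none`).
* `kB t` = the kind `exactly the top t is bad`; `kd_bad` : it is {not `R0`, `t` bad} without {not `R0`, both bad};
* `kd_five` : the kind `5` is {not `R0`, both bad}; `kd_none` : the kind `kB i0` is empty.
-/

set_option autoImplicit false
set_option linter.unusedSectionVars false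

namespace Pool.Agent.GMH.KF2

open Finset Pool.Agent.PWZ Pool.Agent.M3 Pool.Agent.GMH Pool.Agent.GMH.KF Pool.Agent.GMH.TRF

noncomputable section

/-- the kind `exactly the top t is bad` -/
def kB (t : Fin 3) : Fin 10 := ![2, 3, 4] t

section fr

variable {Om : Type*} [Fintype Om] {P : FP Om} {β φ : Type*} {Z : Om → β} {F : Fin 3 → Om → φ} {i0 : Fin 3}

/-- three tops -/
theorem cov3 {i0 t u : Fin 3} (ht : t ≠ i0) (hu : u ≠ i0) (htu : t ≠ u) (j : Fin 3) : j = i0 ∨ j = t ∨ j = u := by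
  revert i0 t u j
  decide

theorem two_ex (t : Fin 3) : ∃ u x : Fin 3, t ≠ u ∧ t ≠ x ∧ u ≠ x := by
  revert t
  decide

theorem third_ex (t u : Fin 3) : ∃ x : Fin 3, t ≠ x ∧ u ≠ x := by
  revert t u
  decide

/-- property `exactly t` -/
theorem Ap_kB {φ' : Type*} {G : Fin 3 → Om → φ'} {c : KC} {t u x : Fin 3} (htu : t ≠ u) (htx : t ≠ x) (hux : u ≠ x)
    {w : Om} {f : Fin 3 → φ'} :
    Ap P Z G c (kB t).1 w f ↔ bad P Z G c t w f ∧ ¬ bad P Z G c u w f ∧ ¬ bad P Z G c x w f := by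
  fin_cases t <;> fin_cases u <;> fin_cases x <;> first
    | exact absurd rfl htu
    | exact absurd rfl htx
    | exact absurd rfl hux
    | exact Iff.rfl
    | exact ⟨fun ⟨a, b, c⟩ => ⟨a, c, b⟩, fun ⟨a, b, c⟩ => ⟨a, c, b⟩⟩

/-- the smaller properties -/
theorem Ap_small {φ' : Type*} {G : Fin 3 → Om → φ'} {c : KC} {w : Om} {f : Fin 3 → φ'} {j : ℕ} (hj : 2 ≤ j) (hj5 : j < 5)
    (h : Ap P Z G c j w f) : ∃ t : Fin 3, j = (kB t).1 := by
  have key : ∀ j : ℕ, 2 ≤ j → j < 5 → j = 2 ∨ j = 3 ∨ j = 4 := by omega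
  rcases key j hj hj5 with rfl | rfl | rfl
  · exact ⟨0, rfl⟩
  · exact ⟨1, rfl⟩
  · exact ⟨2, rfl⟩

/-- **THE KIND `exactly t` IN THE FRAME TWO** -/
theorem kd_bad {c : KC} (h12 : c.e1 ≤ c.e2) {w : Om} (hw : P.p w ≠ 0) {f : Fin 3 → Option φ} (hf : f i0 = Option.none)
    {t u : Fin 3} (ht : t ≠ i0) (hu : u ≠ i0) (htu : t ≠ u) :
    kdF P Z (Fo F i0) c (kB t) w f ↔
      (¬ Ap P Z (Fo F i0) c 1 w f ∧ bad P Z (Fo F i0) c t w f) ∧
        ¬ (¬ Ap P Z (Fo F i0) c 1 w f ∧ bad P Z (Fo F i0) c t w f ∧ bad P Z (Fo F i0) c u w f) := by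
  have hA := Ap_kB (P := P) (Z := Z) (G := Fo F i0) (c := c) (w := w) (f := f) htu ht hu
  constructor
  · rintro ⟨h1, h2⟩
    obtain ⟨a, b, _⟩ := hA.1 h1
    have h3 : ¬ Ap P Z (Fo F i0) c 1 w f := h2 1 (by fin_cases t <;> decide)
    exact ⟨⟨h3, a⟩, fun h => b h.2.2⟩
  · rintro ⟨⟨h3, a⟩, h4⟩
    have hb : ¬ bad P Z (Fo F i0) c u w f := fun b => h4 ⟨h3, a, b⟩
    have hi : ¬ bad P Z (Fo F i0) c i0 w f := fun b => h3 (bad_none h12 hw hf b)
    refine ⟨hA.2 ⟨a, hb, hi⟩, fun j hj h5 => ?_⟩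
    have hk : (kB t).1 ≤ 4 := by fin_cases t <;> decide
    rcases Nat.lt_or_ge j 2 with h6 | h6
    · rcases Nat.lt_or_ge j 1 with h7 | h7
      · obtain rfl : j = 0 := by omega
        exact h5
      · obtain rfl : j = 1 := by omega
        exact h3 h5
    · obtain ⟨t', ht'⟩ := Ap_small (P := P) (Z := Z) h6 (by omega) h5
      have hne : t ≠ t' := fun e => by
        rw [ht', ← e] at hj
        exact lt_irrefl _ hj
      rw [ht'] at h5
      have hbt : bad P Z (Fo F i0) c t' w f := by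
        obtain ⟨u', x', h8, h9, h10⟩ := two_ex t'
        exact ((Ap_kB (P := P) (Z := Z) h8 h9 h10).1 h5).1
      rcases cov3 ht hu htu t' with e | e | e
      · exact hi (e ▸ hbt)
      · exact hne e.symm
      · exact hb (e ▸ hbt)

/-- the kind of the missing top is empty -/
theorem kd_none {c : KC} (h12 : c.e1 ≤ c.e2) {w : Om} (hw : P.p w ≠ 0) {f : Fin 3 → Option φ} (hf : f i0 = Option.none) :
    ¬ kdF P Z (Fo F i0) c (kB i0) w f := by
  rintro ⟨h1, h2⟩
  obtain ⟨u, x, h3, h4, h5⟩ := two_ex i0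
  have h6 := ((Ap_kB (P := P) (Z := Z) h3 h4 h5).1 h1).1
  exact h2 1 (by fin_cases i0 <;> decide) (bad_none h12 hw hf h6)

/-- **THE KIND `two bad tops` IN THE FRAME TWO** -/
theorem kd_five {c : KC} (h12 : c.e1 ≤ c.e2) {w : Om} (hw : P.p w ≠ 0) {f : Fin 3 → Option φ} (hf : f i0 = Option.none)
    {t u : Fin 3} (ht : t ≠ i0) (hu : u ≠ i0) (htu : t ≠ u) :
    kdF P Z (Fo F i0) c 5 w f ↔
      ¬ Ap P Z (Fo F i0) c 1 w f ∧ bad P Z (Fo F i0) c t w f ∧ bad P Z (Fo F i0) c u w f := by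
  have e5 : Ap P Z (Fo F i0) c 5 w f ↔
      (bad P Z (Fo F i0) c 0 w f ∧ bad P Z (Fo F i0) c 1 w f) ∨ (bad P Z (Fo F i0) c 0 w f ∧ bad P Z (Fo F i0) c 2 w f) ∨
      (bad P Z (Fo F i0) c 1 w f ∧ bad P Z (Fo F i0) c 2 w f) := Iff.rfl
  constructor
  · rintro ⟨h1, h2⟩
    have h3 : ¬ Ap P Z (Fo F i0) c 1 w f := h2 1 (by decide)
    have hi : ¬ bad P Z (Fo F i0) c i0 w f := fun b => h3 (bad_none h12 hw hf b)
    have h6 := e5.1 h1
    refine ⟨h3, ?_⟩
    fin_cases i0 <;> fin_cases t <;> fin_cases u <;> first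
      | exact absurd rfl ht
      | exact absurd rfl hu
      | exact absurd rfl htu
      | (simp only [Fin.zero_eta, Fin.mk_one, Fin.reduceFinMk] at hi h6 ⊢; tauto)
  · rintro ⟨h3, a, b⟩
    have h7 : Ap P Z (Fo F i0) c 5 w f := by
      refine e5.2 ?_
      fin_cases i0 <;> fin_cases t <;> fin_cases u <;> first
        | exact absurd rfl ht
        | exact absurd rfl hu
        | exact absurd rfl htu
        | (simp only [Fin.zero_eta, Fin.mk_one, Fin.reduceFinMk] at a b ⊢; tauto)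
    refine ⟨h7, fun j hj h5 => ?_⟩
    have hj' : j < 5 := hj
    rcases Nat.lt_or_ge j 2 with h6 | h6
    · rcases Nat.lt_or_ge j 1 with h8 | h8
      · obtain rfl : j = 0 := by omega
        exact h5
      · obtain rfl : j = 1 := by omega
        exact h3 h5
    · obtain ⟨t', ht'⟩ := Ap_small (P := P) (Z := Z) h6 hj' h5
      rw [ht'] at h5
      obtain ⟨u', h8, h9⟩ : ∃ u' : Fin 3, t' ≠ u' ∧ (u' = t ∨ u' = u) := by
        by_cases e : t' = t
        · exact ⟨u, by rw [e]; exact htu, Or.inr rfl⟩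
        · exact ⟨t, e, Or.inl rfl⟩
      obtain ⟨x', h10, h11⟩ := third_ex t' u'
      have h12' := ((Ap_kB (P := P) (Z := Z) h8 h10 h11).1 h5).2.1
      rcases h9 with e | e
      · exact h12' (e ▸ a)
      · exact h12' (e ▸ b)

end fr

end

end Pool.Agent.GMH.KF2
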