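import Pool.Agent.GMH.KinMs
import Pool.Agent.GMH.DynF

/-!
# GMH/KinRw (helper83): THE ROWS OF THE KINDS HAVE SMALL MASS IN THE OWN LAW (row D3 of H3.LEAN)

Frame of `GMH/KinF` (three tops, or `Fo F i`).  A row: all tops but `i` are fixed (`f`), the top `i` runs (`update f i x`).
* `own_sum`, `own_le` : mass in the own law, own law against the marginal (`+ tv1n`);
* `bad_row` (bad top: `D0 / e2`), `pair_row` (bad pair, the other top is not bad: `2 e2 (1 / dH + 1 + 1 / e3)`), `ht_row` (`HT`, the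
  pair of the other tops is good: `2 e3 / dH`), `hot_row` (density `≥ exp a` against the own laws: `s exp (-a)`);
* `RowS R i q` : all rows of `R` with the top `i` running have own mass `≤ q`; `Thn` : not `R0`, own laws near the marginals;
* `kv_pair`, `kv_ht` : the relations `kvF` of GMH/DynF (`κ = 6, 7, 8` and `9`), `two_bad` : two bad tops; `con_row` : the law of the
  running top given another top which is not bad.
-/

set_option autoImplicit false
set_option linter.unusedSectionVars false

namespace Pool.Agent.GMH.KF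

open Finset Pool.Agent.PWZ Pool.Agent.M3 Pool.Agent.GMH

noncomputable section

variable {Om : Type*} [Fintype Om] (P : FP Om) {α β φ : Type*} {Z : Om → β} {Zb : Fin 3 → Om → α} (F : Fin 3 → Om → φ)

/-! ### own law and marginal -/

/-- mass of a set of letters in the own law -/
theorem own_sum (i : Fin 3) (K : φ → Prop) (w : Om) :
    P.ce (Zb i) (fun u => ind (K (F i u))) w = ∑ x ∈ vals (F i), qF P Zb F i w x * ind (K x) :=
  (P.sum_pv (W := Zb i) (F i) (F := fun _ x => ind (K x)) (fun _ _ _ _ => rfl) w).symm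

/-- the same in the marginal -/
theorem mar_sum (i : Fin 3) (K : φ → Prop) (w : Om) :
    P.ce Z (fun u => ind (K (F i u))) w = ∑ x ∈ vals (F i), mF P Z F i w x * ind (K x) :=
  (P.sum_pv (W := Z) (F i) (F := fun _ x => ind (K x)) (fun _ _ _ _ => rfl) w).symm

variable (Z) in
/-- **own law against the marginal** -/
theorem own_le (i : Fin 3) (K : φ → Prop) (w : Om) :
    P.ce (Zb i) (fun u => ind (K (F i u))) w ≤
      ∑ x ∈ vals (F i), mF P Z F i w x * ind (K x) + tv1n P Z Zb F i w := by
  rw [own_sum, tv1n, ← Finset.sum_add_distrib]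
  refine Finset.sum_le_sum fun x _ => ?_
  have h1 := neg_abs_le (mF P Z F i w x - qF P Zb F i w x)
  have h2 := ind_nonneg (K x)
  have h3 := ind_le_one (K x)
  have h4 := abs_nonneg (mF P Z F i w x - qF P Zb F i w x)
  have h5 : qF P Zb F i w x * ind (K x) - mF P Z F i w x * ind (K x) ≤
      |mF P Z F i w x - qF P Zb F i w x| * ind (K x) := by
    have h6 : qF P Zb F i w x - mF P Z F i w x ≤ |mF P Z F i w x - qF P Zb F i w x| := by linarith
    nlinarith
  have h7 := mul_le_mul_of_nonneg_left h3 h4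
  linarith

/-! ### sums over the rows -/

theorem upd_let {f : Fin 3 → φ} (hf : f ∈ let_ F) {i : Fin 3} {x : φ} (hx : x ∈ vals (F i)) :
    Function.update f i x ∈ let_ F := by
  refine Fintype.mem_piFinset.2 fun l => ?_
  by_cases h : l = i
  · subst h
    rw [Function.update_self]
    exact hx
  · rw [Function.update_of_ne h]
    exact Fintype.mem_piFinset.1 hf l

/-- distance of the tuples with fixed tops of `S` -/
def DS (Z : Om → β) (S : Finset (Fin 3)) (w : Om) (f : Fin 3 → φ) : ℝ :=
  ∑ g ∈ let_ F, ind (∀ i ∈ S, g i = f i) * |pF P Z F w g - ∏ i, mF P Z F i w (g i)|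

theorem DS_nn (S : Finset (Fin 3)) (w : Om) (f : Fin 3 → φ) : 0 ≤ DS P F Z S w f :=
  Finset.sum_nonneg fun _ _ => mul_nonneg (ind_nonneg _) (abs_nonneg _)

/-- the distance of the conditional law -/
theorem tvn_DS (S : Finset (Fin 3)) {w : Om} (hw : P.p w ≠ 0) {f : Fin 3 → φ} (hf : f ∈ let_ F) :
    tvn P Z F S w f ≤ 2 * DS P F Z S w f := by
  classical
  have h1 := pS_dist P F S hw hf (Z := Z)
  have h2 := one_S P F S hw hf (Z := Z)
  unfold tvn
  have h3 : ∀ g ∈ let_ F, ind (∀ i ∈ S, g i = f i) * |pF P Z F w g - pS P Z F S w g * ∏ i ∈ univ \ S, mF P Z F i w (g i)| ≤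
      ind (∀ i ∈ S, g i = f i) * |pF P Z F w g - ∏ i, mF P Z F i w (g i)| +
        |pS P Z F S w f - ∏ i ∈ S, mF P Z F i w (f i)| * (ind (∀ i ∈ S, f i = g i) * mS P F Z S w g) := by
    intro g _
    by_cases h : ∀ i ∈ S, g i = f i
    · have h' : ∀ i ∈ S, f i = g i := fun i hi => (h i hi).symm
      rw [ind_of h, ind_of h', one_mul, one_mul, one_mul, pS_cong P F w h]
      have e1 : pF P Z F w g - pS P Z F S w f * ∏ i ∈ univ \ S, mF P Z F i w (g i) =
          (pF P Z F w g - ∏ i, mF P Z F i w (g i)) +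
            -((pS P Z F S w f - ∏ i ∈ S, mF P Z F i w (f i)) * mS P F Z S w g) := by
        rw [prod_split P F S w g, show ∏ i ∈ S, mF P Z F i w (g i) = ∏ i ∈ S, mF P Z F i w (f i) from
          Finset.prod_congr rfl fun i hi => by rw [h i hi]]
        unfold mS
        ring
      rw [e1]
      refine (abs_add_le _ _).trans (le_of_eq ?_)
      rw [abs_neg, abs_mul, abs_of_nonneg (mS_nn P F S w g)]
    · have h' : ¬ ∀ i ∈ S, f i = g i := fun hh => h fun i hi => (hh i hi).symm
      rw [ind_not h, ind_not h', zero_mul, zero_mul, zero_mul, mul_zero, add_zero]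
  refine (Finset.sum_le_sum h3).trans ?_
  rw [Finset.sum_add_distrib, ← Finset.mul_sum, h2, mul_one]
  have h4 : |pS P Z F S w f - ∏ i ∈ S, mF P Z F i w (f i)| ≤ DS P F Z S w f := h1
  have h5 : ∑ g ∈ let_ F, ind (∀ i ∈ S, g i = f i) * |pF P Z F w g - ∏ i, mF P Z F i w (g i)| = DS P F Z S w f := rfl
  rw [h5]
  linarith

/-- the sum of the distances of a row -/
theorem DS_row {i k j : Fin 3} (hik : i ≠ k) (hij : i ≠ j) (hkj : k ≠ j) (w : Om) (f : Fin 3 → φ) :
    ∑ x ∈ vals (F i), DS P F Z (opp j) w (Function.update f i x) ≤ DS P F Z {k} w f := by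
  classical
  unfold DS
  rw [Finset.sum_comm]
  refine Finset.sum_le_sum fun g hg => ?_
  rw [← Finset.sum_mul]
  refine mul_le_mul_of_nonneg_right ?_ (abs_nonneg _)
  have hS : opp j = {i, k} := by
    have key : ∀ i k j : Fin 3, i ≠ k → i ≠ j → k ≠ j → univ.erase j = ({i, k} : Finset (Fin 3)) := by decide
    exact key i k j hik hij hkj
  have h1 : ∀ x, ind (∀ l ∈ opp j, g l = Function.update f i x l) ≤ ind (x = g i) * ind (∀ l ∈ ({k} : Finset (Fin 3)), g l = f l) := by
    intro x
    rw [← ind_and]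
    refine ind_mono fun h => ⟨?_, fun l hl => ?_⟩
    · have := h i (by rw [hS]; simp)
      rw [Function.update_self] at this
      exact this.symm
    · rw [Finset.mem_singleton.1 hl]
      have := h k (by rw [hS]; simp)
      rw [Function.update_of_ne hik.symm] at this
      exact this
  refine (Finset.sum_le_sum fun x _ => h1 x).trans ?_
  rw [← Finset.sum_mul]
  exact mul_le_of_le_one_left (ind_nonneg _) (sum_ind_le (F i) (g i))

/-- a top which is not bad -/
theorem DS_good {c : KC} {k : Fin 3} {w : Om} {f : Fin 3 → φ} (hm : 0 < mF P Z F k w (f k))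
    (hb : ¬ bad P Z F c k w f) : DS P F Z {k} w f ≤ 2 * c.e2 * mF P Z F k w (f k) := by
  rw [bad_iff P F] at hb
  have h1 : DS P F Z {k} w f = ∑ g ∈ let_ F, ind (g k = f k) *
      |pF P Z F w g - mF P Z F k w (g k) * ∏ l ∈ univ.erase k, mF P Z F l w (g l)| := by
    unfold DS
    refine Finset.sum_congr rfl fun g _ => ?_
    rw [Finset.mul_prod_erase univ (fun l => mF P Z F l w (g l)) (mem_univ k)]
    congr 2
    exact propext ⟨fun h => h k (Finset.mem_singleton_self k), fun h l hl => by rw [Finset.mem_singleton.1 hl]; exact h⟩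
  rw [h1]
  by_contra h2
  exact hb ⟨hm, (not_le.1 h2).le⟩

/-! ### the rows -/

/-- a bad top -/
theorem bad_row {c : KC} (h2 : 0 < c.e2) (i : Fin 3) {w : Om} (hw : P.p w ≠ 0) (f : Fin 3 → φ) :
    ∑ x ∈ vals (F i), mF P Z F i w x * ind (bad P Z F c i w (Function.update f i x)) ≤ 1 / c.e2 * D0 P F Z w := by
  refine le_trans (le_of_eq ?_) (bad_mass P F h2 i hw)
  rw [← mar_sum P F i (fun x => bad P Z F c i w (Function.update f i x)) w]
  refine P.ce_congr (fun u _ => ?_) w
  congr 1
  refine propext (bad_letter P F c i w ?_)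
  rw [Function.update_self]
  rfl

/-- the property of a pair -/
def Pr2 (c : KC) (Z : Om → β) (j : Fin 3) (w : Om) (f : Fin 3 → φ) : Prop :=
  0 < pS P Z F (opp j) w f ∧ (c.dH ≤ |dens P Z F (opp j) w f - 1| ∨
    2 * c.e3 * pS P Z F (opp j) w f ≤ tvn P Z F (opp j) w f)

theorem Pr2_iff (c : KC) (j : Fin 3) (w : Om) (f : Fin 3 → φ) : Ap P Z F c (j.1 + 6) w f ↔ Pr2 P F c Z j w f := by
  fin_cases j <;> exact Iff.rfl

/-- **ROW OF A BAD PAIR** : the other top is not bad -/
theorem pair_row {c : KC} (h3 : 0 < c.e3) (hd : 0 < c.dH) {i k j : Fin 3} (hik : i ≠ k) (hij : i ≠ j)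
    (hkj : k ≠ j) {w : Om} (hw : P.p w ≠ 0) {f : Fin 3 → φ} (hf : f ∈ let_ F) (h2 : 0 ≤ c.e2)
    (hb : ¬ bad P Z F c k w f) :
    ∑ x ∈ vals (F i), mF P Z F i w x * ind (Pr2 P F c Z j w (Function.update f i x)) ≤
      2 * c.e2 * (1 / c.dH + 1 + 1 / c.e3) := by
  classical
  have hS : opp j = {i, k} := by
    have key : ∀ i k j : Fin 3, i ≠ k → i ≠ j → k ≠ j → univ.erase j = ({i, k} : Finset (Fin 3)) := by decide
    exact key i k j hik hij hkj
  have c0 : 0 ≤ 1 / c.dH + 1 + 1 / c.e3 := by positivity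
  have hmk : 0 ≤ mF P Z F k w (f k) := mF_nn P F k w (f k)
  rcases hmk.eq_or_lt with h0 | h0
  · -- probability zero
    refine (le_of_eq (Finset.sum_eq_zero fun x _ => ?_)).trans (mul_nonneg (mul_nonneg (by norm_num) h2) c0)
    rw [ind_not, mul_zero]
    intro hh
    have h4 : pS P Z F (opp j) w (Function.update f i x) ≤ mF P Z F k w (f k) := by
      have := pS_anti P F (S := {k}) (S' := opp j) (Finset.singleton_subset_iff.2 (by rw [hS]; simp)) w
        (Function.update f i x) (Z := Z)
      rw [pS_one P F, Function.update_of_ne hik.symm] at this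
      exact this
    have := hh.1
    linarith
  · have key : ∀ x ∈ vals (F i), mF P Z F k w (f k) * (mF P Z F i w x * ind (Pr2 P F c Z j w (Function.update f i x))) ≤
        (1 / c.dH + 1 + 1 / c.e3) * DS P F Z (opp j) w (Function.update f i x) := by
      intro x hx
      have hu := upd_let F hf hx
      have d0 := DS_nn P F (Z := Z) (opp j) w (Function.update f i x)
      by_cases hK : Pr2 P F c Z j w (Function.update f i x)
      · rw [ind_of hK, mul_one]
        obtain ⟨hp, hK⟩ := hK
        set p := pS P Z F (opp j) w (Function.update f i x) with hpd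
        set m := ∏ l ∈ opp j, mF P Z F l w (Function.update f i x l) with hmd
        have em : m = mF P Z F k w (f k) * mF P Z F i w x := by
          rw [hmd, hS, Finset.prod_pair hik, Function.update_self, Function.update_of_ne hik.symm, mul_comm]
        have a1 : |p - m| ≤ DS P F Z (opp j) w (Function.update f i x) := pS_dist P F (opp j) hw hu
        have a2 := tvn_DS P F (Z := Z) (opp j) hw hu
        have hm : 0 < m := prod_pos_of P F hp
        rw [← em]
        rcases hK with hK | hK
        · have e1 : dens P Z F (opp j) w (Function.update f i x) - 1 = (p - m) / m := by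
            unfold dens
            rw [← hpd, ← hmd]
            field_simp
          rw [e1, abs_div, abs_of_pos hm, le_div_iff₀ hm] at hK
          have h5 : m ≤ 1 / c.dH * |p - m| := by
            rw [one_div, ← div_eq_inv_mul, le_div_iff₀ hd]
            linarith
          have h6 : 1 / c.dH * |p - m| ≤ 1 / c.dH * DS P F Z (opp j) w (Function.update f i x) :=
            mul_le_mul_of_nonneg_left a1 (by positivity)
          have h7 : 0 ≤ 1 / c.e3 * DS P F Z (opp j) w (Function.update f i x) := by positivity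
          nlinarith
        · have h4 : p ≤ 1 / (2 * c.e3) * tvn P Z F (opp j) w (Function.update f i x) := by
            rw [one_div, ← div_eq_inv_mul, le_div_iff₀ (by positivity)]
            linarith
          have h5 : 1 / (2 * c.e3) * tvn P Z F (opp j) w (Function.update f i x) ≤
              1 / c.e3 * DS P F Z (opp j) w (Function.update f i x) := by
            refine (mul_le_mul_of_nonneg_left a2 (by positivity)).trans (le_of_eq ?_)
            field_simp
          have h6 : m ≤ p + |p - m| := by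
            have := neg_abs_le (p - m)
            linarith
          have h7 : 0 ≤ 1 / c.dH * DS P F Z (opp j) w (Function.update f i x) := by positivity
          nlinarith
      · rw [ind_not hK, mul_zero, mul_zero]
        exact mul_nonneg c0 d0
    have h4 := Finset.sum_le_sum key
    rw [← Finset.mul_sum, ← Finset.mul_sum] at h4
    have h5 := DS_row P F (Z := Z) hik hij hkj w f
    have h6 := DS_good P F h0 hb
    have h7 := mul_le_mul_of_nonneg_left (h5.trans h6) c0
    have h8 : mF P Z F k w (f k) * ∑ x ∈ vals (F i), mF P Z F i w x * ind (Pr2 P F c Z j w (Function.update f i x)) ≤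
        mF P Z F k w (f k) * (2 * c.e2 * (1 / c.dH + 1 + 1 / c.e3)) := by
      refine h4.trans (h7.trans (le_of_eq ?_))
      ring
    exact le_of_mul_le_mul_left h8 h0

/-- sum over a line -/
theorem line_le {i : Fin 3} {f : Fin 3 → φ} (hf : f ∈ let_ F) {H : (Fin 3 → φ) → ℝ} (h0 : ∀ g, 0 ≤ H g) :
    ∑ x ∈ vals (F i), H (Function.update f i x) ≤ ∑ g ∈ let_ F, ind (∀ l ∈ opp i, g l = f l) * H g := by
  classical
  have h1 : ∑ x ∈ vals (F i), H (Function.update f i x) =
      ∑ g ∈ (vals (F i)).image (fun x => Function.update f i x), H g := by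
    rw [Finset.sum_image]
    intro x _ y _ e
    have := congrFun e i
    simpa using this
  rw [h1]
  have h2 : ∑ g ∈ (vals (F i)).image (fun x => Function.update f i x), H g =
      ∑ g ∈ (vals (F i)).image (fun x => Function.update f i x), ind (∀ l ∈ opp i, g l = f l) * H g := by
    refine Finset.sum_congr rfl fun g hg => ?_
    obtain ⟨x, _, rfl⟩ := Finset.mem_image.1 hg
    rw [ind_of, one_mul]
    intro l hl
    rw [Function.update_of_ne (Finset.ne_of_mem_erase hl)]
  rw [h2]
  refine Finset.sum_le_sum_of_subset_of_nonneg (fun g hg => ?_) fun g _ _ => mul_nonneg (ind_nonneg _) (h0 g)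
  obtain ⟨x, hx, rfl⟩ := Finset.mem_image.1 hg
  exact upd_let F hf hx

/-- **ROW OF `HT`** : the pair of the other tops is good -/
theorem ht_row {c : KC} (h3 : 0 ≤ c.e3) (hd : 0 < c.dH) (hd1 : c.dH ≤ 1) {i : Fin 3} {w : Om} (_hw : P.p w ≠ 0)
    {f : Fin 3 → φ} (hf : f ∈ let_ F) (hb : ¬ Pr2 P F c Z i w f) :
    ∑ x ∈ vals (F i), mF P Z F i w x * ind (1 + 4 * c.dH ≤ dens P Z F univ w (Function.update f i x)) ≤
      2 * c.e3 / c.dH := by
  classical
  have hc : (univ \ opp i : Finset (Fin 3)) = {i} := by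
    have key : ∀ j : Fin 3, univ \ univ.erase j = ({j} : Finset (Fin 3)) := by decide
    exact key i
  set pp := pS P Z F (opp i) w f with hpp
  set mm := ∏ l ∈ opp i, mF P Z F l w (f l) with hmm
  have up : ∀ x, ∀ l ∈ opp i, Function.update f i x l = f l := fun x l hl =>
    Function.update_of_ne (Finset.ne_of_mem_erase hl) _ _
  have pa : ∀ x, pF P Z F w (Function.update f i x) ≤ pp := by
    intro x
    rw [← pS_univ P F, hpp, ← pS_cong P F w (up x)]
    exact pS_anti P F (Finset.subset_univ _) w _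
  have q0 : 0 ≤ 2 * c.e3 / c.dH := by positivity
  have hp0 : 0 ≤ pp := pS_nn P F _ w f
  have m0 : ∀ x, 0 ≤ mF P Z F i w x := fun x => mF_nn P F i w x
  have em : ∀ x, ∏ l, mF P Z F l w (Function.update f i x l) = mF P Z F i w x * mm := by
    intro x
    rw [← Finset.mul_prod_erase univ _ (mem_univ i), Function.update_self, hmm]
    congr 1
    exact Finset.prod_congr rfl fun l hl => by rw [up x l hl]
  rcases hp0.eq_or_lt with h0 | h0
  · refine (le_of_eq (Finset.sum_eq_zero fun x _ => ?_)).trans q0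
    rw [ind_not, mul_zero]
    intro hh
    have h4 : pF P Z F w (Function.update f i x) = 0 := le_antisymm ((pa x).trans h0.symm.le) (P.pv_nonneg _ _ _ _)
    unfold dens at hh
    rw [pS_univ P F, h4, zero_div] at hh
    linarith
  · have hg : |dens P Z F (opp i) w f - 1| < c.dH ∧ tvn P Z F (opp i) w f < 2 * c.e3 * pp := by
      constructor
      · by_contra hh
        exact hb ⟨h0, Or.inl (not_lt.1 hh)⟩
      · by_contra hh
        exact hb ⟨h0, Or.inr (not_lt.1 hh)⟩
    have hmm0 : 0 < mm := prod_pos_of P F h0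
    have e1 : pp ≤ (1 + c.dH) * mm := by
      have h4 := (abs_lt.1 hg.1).2
      unfold dens at h4
      rw [← hpp, ← hmm] at h4
      have h5 : pp / mm < 1 + c.dH := by linarith
      rw [div_lt_iff₀ hmm0] at h5
      exact h5.le
    have key : ∀ x ∈ vals (F i), c.dH * pp * (mF P Z F i w x * ind (1 + 4 * c.dH ≤ dens P Z F univ w (Function.update f i x))) ≤
        |pF P Z F w (Function.update f i x) - pS P Z F (opp i) w (Function.update f i x) *
          ∏ l ∈ univ \ opp i, mF P Z F l w (Function.update f i x l)| := by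
      intro x _
      by_cases hh : 1 + 4 * c.dH ≤ dens P Z F univ w (Function.update f i x)
      · rw [ind_of hh, mul_one, hc, Finset.prod_singleton, Function.update_self, pS_cong P F w (up x), ← hpp]
        unfold dens at hh
        rw [pS_univ P F, em x] at hh
        rcases (m0 x).eq_or_lt with h4 | h4
        · rw [← h4, zero_mul, div_zero] at hh
          linarith
        · have h5 : 0 < mF P Z F i w x * mm := mul_pos h4 hmm0
          rw [le_div_iff₀ h5] at hh
          refine le_trans ?_ (le_abs_self _)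
          -- `(1 + dH) pp m ≤ (1 + 4 dH) m mm`
          have h6 : (1 + c.dH) * (mF P Z F i w x * pp) ≤ (1 + 4 * c.dH) * (mF P Z F i w x * mm) := by
            have h7 := mul_le_mul_of_nonneg_left e1 h4.le
            have h8 : (1 + c.dH) * (1 + c.dH) ≤ 1 + 4 * c.dH := by nlinarith
            have h9 := mul_le_mul_of_nonneg_left h7 (show 0 ≤ 1 + c.dH by linarith)
            have h10 := mul_le_mul_of_nonneg_right h8 h5.le
            nlinarith
          nlinarith
      · rw [ind_not hh, mul_zero, mul_zero]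
        exact abs_nonneg _
    have h4 := Finset.sum_le_sum key
    rw [← Finset.mul_sum] at h4
    have h5 := line_le F (i := i) hf (H := fun g => |pF P Z F w g - pS P Z F (opp i) w g *
      ∏ l ∈ univ \ opp i, mF P Z F l w (g l)|) (fun g => abs_nonneg _)
    have h6 : ∑ g ∈ let_ F, ind (∀ l ∈ opp i, g l = f l) * |pF P Z F w g - pS P Z F (opp i) w g *
      ∏ l ∈ univ \ opp i, mF P Z F l w (g l)| = tvn P Z F (opp i) w f := rfl
    have h7 := (h4.trans (h5.trans (le_of_eq h6))).trans hg.2.le
    rw [le_div_iff₀ hd]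
    have h8 : pp * ((∑ x ∈ vals (F i), mF P Z F i w x *
        ind (1 + 4 * c.dH ≤ dens P Z F univ w (Function.update f i x))) * c.dH) ≤ pp * (2 * c.e3) := by
      refine le_trans (le_of_eq ?_) (h7.trans (le_of_eq ?_)) <;> ring
    exact le_of_mul_le_mul_left h8 h0

/-! ### hot pairs -/

/-- the row of a pair in the joint law -/
theorem pair_sum {i k : Fin 3} (hik : i ≠ k) (w : Om) (f : Fin 3 → φ) :
    ∑ x ∈ vals (F i), pS P Z F {i, k} w (Function.update f i x) ≤ mF P Z F k w (f k) := by
  classical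
  unfold pS mF FP.pv
  rw [← P.ce_sum]
  refine P.ce_mono (fun u _ => ?_) w
  have h1 : ∀ x, ind (∀ l ∈ ({i, k} : Finset (Fin 3)), F l u = Function.update f i x l) =
      ind (x = F i u) * ind (F k u = f k) := by
    intro x
    rw [← ind_and]
    congr 1
    refine propext ⟨fun h => ⟨?_, ?_⟩, fun h l hl => ?_⟩
    · have := h i (by simp)
      rw [Function.update_self] at this
      exact this.symm
    · have := h k (by simp)
      rw [Function.update_of_ne hik.symm] at this
      exact this
    · rcases Finset.mem_insert.1 hl with h1 | h1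
      · rw [h1, Function.update_self]
        exact h.1.symm
      · rw [Finset.mem_singleton.1 h1, Function.update_of_ne hik.symm]
        exact h.2
  rw [Finset.sum_congr rfl fun x _ => h1 x, ← Finset.sum_mul]
  exact mul_le_of_le_one_left (ind_nonneg _) (sum_ind_le (F i) (F i u))

/-- **ROW OF A HOT PAIR** : density `≥ exp a` against the own laws, the other top has marginal `≤ s` own law -/
theorem hot_row {i k : Fin 3} (hik : i ≠ k) {w : Om} {f : Fin 3 → φ} {a s : ℝ} (s0 : 0 ≤ s)
    (hs : mF P Z F k w (f k) ≤ s * qF P Zb F k w (f k)) :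
    ∑ x ∈ vals (F i), qF P Zb F i w x * ind (0 < pS P Z F {i, k} w (Function.update f i x) ∧
      Real.exp a * (qF P Zb F i w x * qF P Zb F k w (f k)) ≤ pS P Z F {i, k} w (Function.update f i x)) ≤
      s * Real.exp (-a) := by
  classical
  have q0 : 0 ≤ qF P Zb F k w (f k) := P.pv_nonneg _ _ _ _
  have p0 : ∀ x, 0 ≤ pS P Z F {i, k} w (Function.update f i x) := fun x => pS_nn P F _ w _
  have h1 := pair_sum P F (Z := Z) hik w f
  have ea := Real.exp_pos a
  have ha : Real.exp (-a) * Real.exp a = 1 := by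
    rw [← Real.exp_add, neg_add_cancel, Real.exp_zero]
  rcases q0.eq_or_lt with h0 | h0
  · refine (le_of_eq (Finset.sum_eq_zero fun x hx => ?_)).trans (mul_nonneg s0 (Real.exp_pos _).le)
    rw [ind_not, mul_zero]
    rintro ⟨h2, _⟩
    have h3 := Finset.single_le_sum (f := fun x => pS P Z F {i, k} w (Function.update f i x)) (fun x _ => p0 x) hx
    rw [← h0, mul_zero] at hs
    have h4 : pS P Z F {i, k} w (Function.update f i x) ≤ 0 := (h3.trans h1).trans hs
    linarith
  · have key : ∀ x ∈ vals (F i), Real.exp a * qF P Zb F k w (f k) * (qF P Zb F i w x * ind (0 < pS P Z F {i, k} w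
        (Function.update f i x) ∧ Real.exp a * (qF P Zb F i w x * qF P Zb F k w (f k)) ≤
          pS P Z F {i, k} w (Function.update f i x))) ≤ pS P Z F {i, k} w (Function.update f i x) := by
      intro x _
      by_cases h : 0 < pS P Z F {i, k} w (Function.update f i x) ∧
          Real.exp a * (qF P Zb F i w x * qF P Zb F k w (f k)) ≤ pS P Z F {i, k} w (Function.update f i x)
      · rw [ind_of h, mul_one]
        refine le_trans (le_of_eq ?_) h.2
        ring
      · rw [ind_not h, mul_zero, mul_zero]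
        exact p0 x
    have h2 := Finset.sum_le_sum key
    rw [← Finset.mul_sum] at h2
    have h3 := (h2.trans h1).trans hs
    set S := ∑ x ∈ vals (F i), qF P Zb F i w x * ind (0 < pS P Z F {i, k} w (Function.update f i x) ∧
      Real.exp a * (qF P Zb F i w x * qF P Zb F k w (f k)) ≤ pS P Z F {i, k} w (Function.update f i x)) with hS
    have h4 : qF P Zb F k w (f k) * (Real.exp a * S) ≤ qF P Zb F k w (f k) * s := by
      refine le_trans (le_of_eq ?_) (h3.trans (le_of_eq ?_)) <;> ring
    have h5 := le_of_mul_le_mul_left h4 h0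
    have h6 := mul_le_mul_of_nonneg_left h5 (Real.exp_pos (-a)).le
    rw [← mul_assoc, ha, one_mul] at h6
    linarith

/-! ### relations with small rows -/

variable (Zb) in
/-- **all rows of the relation, the top `i` running, have own mass at most `q`** -/
def RowS (R : Om → (Fin 3 → φ) → Prop) (i : Fin 3) (q : ℝ) : Prop :=
  ∀ w, P.p w ≠ 0 → ∀ f ∈ let_ F, P.ce (Zb i) (fun u => ind (R w (Function.update f i (F i u)))) w ≤ q

theorem RowS.mono {R R' : Om → (Fin 3 → φ) → Prop} {i : Fin 3} {q q' : ℝ} (h : RowS P Zb F R i q) (hq : q ≤ q')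
    (hR : ∀ w, P.p w ≠ 0 → ∀ f ∈ let_ F, R' w f → R w f) : RowS P Zb F R' i q' := by
  classical
  intro w hw f hf
  refine le_trans (P.ce_mono (fun u _ => ind_mono fun h' => hR w hw _ (upd_let F hf ?_) h') w) ((h w hw f hf).trans hq)
  unfold vals
  exact Finset.mem_image.2 ⟨u, mem_univ _, rfl⟩

/-- a constant which holds on the row can be taken out -/
theorem RowS.of_const {R : Om → (Fin 3 → φ) → Prop} {C : Om → (Fin 3 → φ) → Prop} {i : Fin 3} {q : ℝ} (q0 : 0 ≤ q)
    (hC : ∀ w f x, C w (Function.update f i x) ↔ C w f)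
    (h : ∀ w, P.p w ≠ 0 → ∀ f ∈ let_ F, C w f → P.ce (Zb i) (fun u => ind (R w (Function.update f i (F i u)))) w ≤ q) :
    RowS P Zb F (fun w f => C w f ∧ R w f) i q := by
  intro w hw f hf
  by_cases hc : C w f
  · exact le_trans (P.ce_mono (fun u _ => ind_mono fun h' => h'.2) w) (h w hw f hf hc)
  · refine le_trans (le_of_eq ?_) q0
    have e : (fun u => ind (C w (Function.update f i (F i u)) ∧ R w (Function.update f i (F i u)))) =
        fun _ : Om => (0 : ℝ) := funext fun u => ind_not fun hh => hc ((hC w f _).1 hh.1)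
    rw [e]
    unfold FP.ce
    simp [FP.E]

/-- distance outside `R0` -/
theorem D0_le {c : KC} {w : Om} (hw : P.p w ≠ 0) {f : Fin 3 → φ} (h : ¬ Ap P Z F c 1 w f) :
    D0 P F Z w ≤ 2 * c.e1 := by
  rw [Ap1_iff P F c hw] at h
  exact (not_le.1 h).le

/-- thin: `R0` does not see the tops -/
theorem Ap1_const {c : KC} {w : Om} (f g : Fin 3 → φ) : Ap P Z F c 1 w f ↔ Ap P Z F c 1 w g := by
  have h1 : ∀ i ∈ (∅ : Finset (Fin 3)), g i = f i := fun i hi => absurd hi (Finset.notMem_empty i)
  show 2 * c.e1 ≤ tvn P Z F ∅ w f ↔ 2 * c.e1 ≤ tvn P Z F ∅ w g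
  rw [tvn_cong P F w h1]

variable (Z Zb) in
/-- the thin conditions: not `R0`, own laws near to the marginals -/
def Thn (c : KC) (t : ℝ) (w : Om) (f : Fin 3 → φ) : Prop := ¬ Ap P Z F c 1 w f ∧ ∀ i, tv1n P Z Zb F i w < t

theorem Thn_const {c : KC} {t : ℝ} {w : Om} (f g : Fin 3 → φ) : Thn P Z Zb F c t w f ↔ Thn P Z Zb F c t w g := by
  unfold Thn
  rw [Ap1_const P F f g]

/-- outside `sF` -/
theorem tv1_lt {c : KC} {w : Om} (h : ¬ sF P Z Zb F c w) (i : Fin 3) : tv1n P Z Zb F i w < 2 * c.eF := by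
  unfold sF at h
  push Not at h
  exact h i

/-- **BAD TOP** : rows in the top itself -/
theorem bad_RowS {c : KC} {t : ℝ} (h1 : 0 ≤ c.e1) (h2 : 0 < c.e2) (t0 : 0 ≤ t) (i : Fin 3) :
    RowS P Zb F (fun w f => Thn P Z Zb F c t w f ∧ bad P Z F c i w f) i (2 * c.e1 / c.e2 + t) := by
  refine RowS.of_const P F (by positivity) (fun w f x => Thn_const P F _ _) fun w hw f hf hc => ?_
  refine (own_le P Z F i (fun x => bad P Z F c i w (Function.update f i x)) w).trans ?_
  have h3 := bad_row P F (Z := Z) h2 i hw f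
  have h4 := mul_le_mul_of_nonneg_left (D0_le P F hw hc.1) (show 0 ≤ 1 / c.e2 by positivity)
  have h5 := hc.2 i
  have e : 1 / c.e2 * (2 * c.e1) = 2 * c.e1 / c.e2 := by ring
  linarith

/-- **BAD PAIR** : the other top of the pair is not bad -/
theorem pair_RowS {c : KC} {t : ℝ} (h2 : 0 ≤ c.e2) (h3 : 0 < c.e3) (hd : 0 < c.dH) (t0 : 0 ≤ t) {i k j : Fin 3}
    (hik : i ≠ k) (hij : i ≠ j) (hkj : k ≠ j) :
    RowS P Zb F (fun w f => (Thn P Z Zb F c t w f ∧ ¬ bad P Z F c k w f) ∧ Ap P Z F c (j.1 + 6) w f) i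
      (2 * c.e2 * (1 / c.dH + 1 + 1 / c.e3) + t) := by
  refine RowS.of_const P F (by positivity) (fun w f x => ?_) fun w hw f hf hc => ?_
  · rw [Thn_const P F _ f, bad_letter P F c k w (show Function.update f i x k = f k from Function.update_of_ne hik.symm _ _)]
  · refine (own_le P Z F i (fun x => Ap P Z F c (j.1 + 6) w (Function.update f i x)) w).trans ?_
    have h4 := pair_row P F (Z := Z) h3 hd hik hij hkj hw hf h2 hc.2
    simp only [← Pr2_iff P F c j w] at h4
    have h5 := hc.1.2 i
    linarith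

/-- **`HT`** : the pair of the other tops is good -/
theorem ht_RowS {c : KC} {t : ℝ} (h3 : 0 ≤ c.e3) (hd : 0 < c.dH) (hd1 : c.dH ≤ 1) (t0 : 0 ≤ t) (i : Fin 3) :
    RowS P Zb F (fun w f => (Thn P Z Zb F c t w f ∧ ¬ Ap P Z F c (i.1 + 6) w f) ∧ Ap P Z F c 9 w f) i
      (2 * c.e3 / c.dH + t) := by
  refine RowS.of_const P F (by positivity) (fun w f x => ?_) fun w hw f hf hc => ?_
  · have up : ∀ l ∈ opp i, Function.update f i x l = f l := fun l hl =>
      Function.update_of_ne (Finset.ne_of_mem_erase hl) _ _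
    rw [Thn_const P F _ f, Pr2_iff P F, Pr2_iff P F]
    unfold Pr2
    rw [pS_cong P F w up, tvn_cong P F w up, dens_cong P F w up]
  · refine (own_le P Z F i (fun x => Ap P Z F c 9 w (Function.update f i x)) w).trans ?_
    have h4 := ht_row P F (Z := Z) h3 hd hd1 hw hf (by rw [← Pr2_iff P F]; exact hc.2)
    have h5 := hc.1.2 i
    have h6 : ∑ x ∈ vals (F i), mF P Z F i w x * ind (Ap P Z F c 9 w (Function.update f i x)) ≤ 2 * c.e3 / c.dH := h4
    linarith

/-- **HOT PAIR** -/
theorem hot_RowS {i k : Fin 3} (hik : i ≠ k) {a s : ℝ} (s0 : 0 ≤ s) :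
    RowS P Zb F (fun w f => mF P Z F k w (f k) ≤ s * qF P Zb F k w (f k) ∧ (0 < pS P Z F {i, k} w f ∧
      Real.exp a * (qF P Zb F i w (f i) * qF P Zb F k w (f k)) ≤ pS P Z F {i, k} w f)) i (s * Real.exp (-a)) := by
  refine RowS.of_const P F (mul_nonneg s0 (Real.exp_pos _).le) (fun w f x => ?_) fun w hw f hf hc => ?_
  · rw [Function.update_of_ne hik.symm]
  · have h1 := hot_row P F (Z := Z) (Zb := Zb) hik (a := a) s0 hc
    have h2 := own_sum P F (Zb := Zb) i (fun x => 0 < pS P Z F {i, k} w (Function.update f i x) ∧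
      Real.exp a * (qF P Zb F i w x * qF P Zb F k w (f k)) ≤ pS P Z F {i, k} w (Function.update f i x)) w
    rw [← h2] at h1
    refine le_trans (le_of_eq ?_) h1
    refine P.ce_congr (fun u _ => ?_) w
    rw [Function.update_self, Function.update_of_ne hik.symm]

/-- **two bad tops** : rows in one of them -/
theorem two_bad {c : KC} {t : ℝ} (h1 : 0 ≤ c.e1) (h2 : 0 < c.e2) (t0 : 0 ≤ t) (i k : Fin 3) :
    RowS P Zb F (fun w f => Thn P Z Zb F c t w f ∧ bad P Z F c i w f ∧ bad P Z F c k w f) i (2 * c.e1 / c.e2 + t) :=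
  (bad_RowS P F (Z := Z) (Zb := Zb) h1 h2 t0 i).mono P F le_rfl fun _ _ _ _ h => ⟨h.1, h.2.1⟩

/-! ### the relations of `GMH/DynF` -/

/-- the row mass of the kinds `6, 7, 8` and `9` -/
def qU (c : KC) (t : ℝ) (κ : Fin 10) : ℝ :=
  if κ = 9 then 2 * c.e3 / c.dH + t else 2 * c.e2 * (1 / c.dH + 1 + 1 / c.e3) + t

/-- **PAIR KINDS, VISIBLE RELATION** : `κ = j + 6`, at the vertex `j` or at the node; the top `i ≠ j` runs -/
theorem kv_pair {c : KC} {t : ℝ} (h2 : 0 ≤ c.e2) (h3 : 0 < c.e3) (hd : 0 < c.dH) (t0 : 0 ≤ t) {κ : Fin 10}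
    {i j : Fin 3} (hκ : κ.1 = j.1 + 6) (hij : i ≠ j) {o : Option (Fin 3)} (ho : o = Option.none ∨ o = some j) :
    RowS P Zb F (fun w f => kvF P Z F c κ o w f ∧ ∀ l, tv1n P Z Zb F l w < t) i
      (2 * c.e2 * (1 / c.dH + 1 + 1 / c.e3) + t) := by
  obtain ⟨k, hik, hkj⟩ : ∃ k : Fin 3, i ≠ k ∧ k ≠ j := by
    have key : ∀ i j : Fin 3, i ≠ j → ∃ k : Fin 3, i ≠ k ∧ k ≠ j := by decide
    exact key i j hij
  refine (pair_RowS P F (Z := Z) (Zb := Zb) h2 h3 hd t0 hik hij hkj).mono P F le_rfl fun w _ f _ h => ?_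
  obtain ⟨⟨h4, h5, _⟩, h7⟩ := h
  have h6 := h5 (by omega)
  refine ⟨⟨⟨h6.1, h7⟩, h6.2 k (Or.inr ?_)⟩, ?_⟩
  · rcases ho with rfl | rfl
    · exact Option.some_ne_none _
    · exact fun e => hkj (Option.some_injective _ e)
  · unfold kv0F at h4
    rw [if_neg (by omega), hκ] at h4
    exact h4

/-- **`HT`, RELATION OF THE NODE** : every top runs -/
theorem kv_ht {c : KC} {t : ℝ} (h3 : 0 ≤ c.e3) (hd : 0 < c.dH) (hd1 : c.dH ≤ 1) (t0 : 0 ≤ t) (i : Fin 3)
    (o : Option (Fin 3)) :
    RowS P Zb F (fun w f => kvF P Z F c 9 o w f ∧ ∀ l, tv1n P Z Zb F l w < t) i (2 * c.e3 / c.dH + t) := by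
  refine (ht_RowS P F (Z := Z) (Zb := Zb) h3 hd hd1 t0 i).mono P F le_rfl fun w _ f _ h => ?_
  obtain ⟨⟨h4, h5, h6⟩, h7⟩ := h
  refine ⟨⟨⟨(h5 (by decide)).1, h7⟩, h6 rfl (i.1 + 6) (by omega) (by have := i.2; omega)⟩, ?_⟩
  unfold kv0F at h4
  rw [if_neg (by decide)] at h4
  exact h4

/-- **the kinds themselves** (`κ ≥ 5`): `5` two bad tops : one of two tops runs, the other two are known -/
theorem kd_pair {c : KC} {t : ℝ} (h2 : 0 ≤ c.e2) (h3 : 0 < c.e3) (hd : 0 < c.dH) (t0 : 0 ≤ t) {κ : Fin 10}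
    {i j : Fin 3} (hκ : κ.1 = j.1 + 6) (hij : i ≠ j) :
    RowS P Zb F (fun w f => kdF P Z F c κ w f ∧ ∀ l, tv1n P Z Zb F l w < t) i
      (2 * c.e2 * (1 / c.dH + 1 + 1 / c.e3) + t) :=
  (kv_pair P F (Z := Z) (Zb := Zb) h2 h3 hd t0 hκ hij (Or.inl rfl)).mono P F le_rfl fun _ _ _ _ h => ⟨kd_kn h.1, h.2⟩

theorem kd_ht {c : KC} {t : ℝ} (h3 : 0 ≤ c.e3) (hd : 0 < c.dH) (hd1 : c.dH ≤ 1) (t0 : 0 ≤ t) (i : Fin 3) :
    RowS P Zb F (fun w f => kdF P Z F c 9 w f ∧ ∀ l, tv1n P Z Zb F l w < t) i (2 * c.e3 / c.dH + t) :=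
  (kv_ht P F (Z := Z) (Zb := Zb) h3 hd hd1 t0 i Option.none).mono P F le_rfl fun _ _ _ _ h => ⟨kd_kn h.1, h.2⟩

/-! ### given the row: the conditional law of the running top -/

/-- **THE OTHER TOP IS NOT BAD** : the conditional law of the top `i` given the top `k` against the marginal -/
theorem con_row {c : KC} {i k j : Fin 3} (hik : i ≠ k) (hij : i ≠ j) (hkj : k ≠ j) {w : Om} (hw : P.p w ≠ 0)
    {f : Fin 3 → φ} (hf : f ∈ let_ F) (hm : 0 < mF P Z F k w (f k)) (hb : ¬ bad P Z F c k w f) (K : φ → Prop) :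
    ∑ x ∈ vals (F i), pS P Z F (opp j) w (Function.update f i x) * ind (K x) ≤
      mF P Z F k w (f k) * (∑ x ∈ vals (F i), mF P Z F i w x * ind (K x) + 2 * c.e2) := by
  classical
  have hS : opp j = {i, k} := by
    have key : ∀ i k j : Fin 3, i ≠ k → i ≠ j → k ≠ j → univ.erase j = ({i, k} : Finset (Fin 3)) := by decide
    exact key i k j hik hij hkj
  have key : ∀ x ∈ vals (F i), pS P Z F (opp j) w (Function.update f i x) * ind (K x) ≤
      mF P Z F k w (f k) * (mF P Z F i w x * ind (K x)) + DS P F Z (opp j) w (Function.update f i x) := by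
    intro x hx
    have a1 := pS_dist P F (Z := Z) (opp j) hw (upd_let F hf hx)
    have em : ∏ l ∈ opp j, mF P Z F l w (Function.update f i x l) = mF P Z F k w (f k) * mF P Z F i w x := by
      rw [hS, Finset.prod_pair hik, Function.update_self, Function.update_of_ne hik.symm, mul_comm]
    rw [em] at a1
    have a2 : |pS P Z F (opp j) w (Function.update f i x) - mF P Z F k w (f k) * mF P Z F i w x| ≤
        DS P F Z (opp j) w (Function.update f i x) := a1
    have a3 := le_abs_self (pS P Z F (opp j) w (Function.update f i x) - mF P Z F k w (f k) * mF P Z F i w x)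
    have a4 := DS_nn P F (Z := Z) (opp j) w (Function.update f i x)
    by_cases h : K x
    · rw [ind_of h, mul_one, mul_one]
      linarith
    · rw [ind_not h, mul_zero, mul_zero, mul_zero]
      linarith
  refine (Finset.sum_le_sum key).trans ?_
  rw [Finset.sum_add_distrib, ← Finset.mul_sum]
  have h5 := DS_row P F (Z := Z) hik hij hkj w f
  have h6 := DS_good P F hm hb
  linarith

end

end Pool.Agent.GMH.KF
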