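import Pool.Agent.GMH.PayGU
import Pool.Agent.GMH.KinMs
import Pool.Agent.GMH.FoL
import Pool.Agent.GMH.DynF

/-!
# GMH/KinTw (helper15): THE RELATION OF THE BAD TOPS AT AN EXACT VERTEX HAS TWO TYPES OF ROWS (input of `GMH/PayG`)

* `own_le` : own law against the law given all thin letters; `row_le` : law of the tested top given a good top of the row against
  the own law (outside `sF`);
* `bad_own` : a bad top has own-law mass at most `2 e1 / e2 + 2 eF`, outside `R0` (`Ap 1`) and `sF`;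
* `twoT_bad` : relation `A` and (top of the row bad or tested top bad), `A` = any thin event outside `R0` and `sF`:
  `TwoT` with `r1 = rB c = 2 e1 / e2 + 2 e2 + 6 eF`; frames `FQ` (FULL) and `Fo (FQ ..) i` (TWO);
* `twoT_kv`, `twoT_kvo` : the same for `kvF c κ (some b)` of `GMH/DynF`, kinds `2 .. 5`; `twoT_thin` : `R0`;
* `kv_hk0`, `kv_hk0o` : the hypothesis `hk0` of `GMH/PayG` for these kinds and for the pair kind `6 + b` of the vertex `b`.
-/

set_option autoImplicit false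
set_option linter.unusedSectionVars false

namespace Pool.Agent.GMH.KF

open Finset Pool.Agent.PWZ Pool.Agent.M3 Pool.Agent.GMH

noncomputable section

variable {Om : Type*} [Fintype Om] (P : FP Om) {α β φ : Type*} {Z : Om → β} {Zb : Fin 3 → Om → α} (F : Fin 3 → Om → φ)

/-- **own law against the law given all thin letters** -/
theorem own_le (i : Fin 3) (S : φ → Prop) (w : Om) :
    P.ce (Zb i) (fun u => ind (S (F i u))) w ≤ P.ce Z (fun u => ind (S (F i u))) w + tv1n P Z Zb F i w := by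
  have h1 := P.sum_pv (W := Zb i) (F i) (F := fun _ y => ind (S y)) (fun _ _ _ _ => rfl) w
  have h2 := P.sum_pv (W := Z) (F i) (F := fun _ y => ind (S y)) (fun _ _ _ _ => rfl) w
  rw [← h1, ← h2]
  unfold tv1n
  rw [← Finset.sum_add_distrib]
  refine Finset.sum_le_sum fun y _ => ?_
  show qF P Zb F i w y * ind (S y) ≤ mF P Z F i w y * ind (S y) + |mF P Z F i w y - qF P Zb F i w y|
  have h3 := neg_abs_le (mF P Z F i w y - qF P Zb F i w y)
  have h4 := abs_nonneg (mF P Z F i w y - qF P Zb F i w y)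
  by_cases hy : S y
  · rw [ind_of hy]
    linarith
  · rw [ind_not hy, mul_zero, mul_zero]
    linarith

/-- **law of a top given a good top against its own law** -/
theorem row_le {c : KC} {i j : Fin 3} (hij : i ≠ j) {w : Om} (hw : P.p w ≠ 0) (hs : ¬ sF P Z Zb F c w)
    (hb : ¬ bad P Z F c i w (tup F w)) (S : φ → Prop) :
    P.ce (fun u => (F i u, Z u)) (fun u => ind (S (F j u))) w ≤ P.ce (Zb j) (fun u => ind (S (F j u))) w +
      (2 * c.e2 + 4 * c.eF) := by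
  classical
  set x := F i w with hx
  have hm : 0 < mF P Z F i w x := P.pv_self_pos Z (F i) hw
  have hb' : ¬ bad P Z F c i w (fun _ => x) := fun hh => hb ((bad_letter P F c i w (f := fun _ => x) (g := tup F w) rfl).1 hh)
  have hg := good_row P F hw hs hb'
  -- the law given the row
  have e1 : P.ce (fun u => (F i u, Z u)) (fun u => ind (S (F j u))) w * mF P Z F i w x =
      P.ce Z (fun u => ind (F i u = x) * ind (S (F j u))) w := by
    have hmz := P.m_pos Z hw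
    have hmx := P.m_pos (fun u => (F i u, Z u)) hw
    have e2 : P.E (fun u => ind ((F i u, Z u) = (F i w, Z w)) * ind (S (F j u))) =
        P.E (fun u => ind (Z u = Z w) * (ind (F i u = x) * ind (S (F j u)))) := by
      refine P.E_congr fun u _ => ?_
      have e0 : ((F i u, Z u) = (F i w, Z w)) = (Z u = Z w ∧ F i u = x) :=
        propext ⟨fun h => ⟨(Prod.mk.inj h).2, (Prod.mk.inj h).1⟩, fun h => Prod.ext h.2 h.1⟩
      rw [e0, ind_and, mul_assoc]
    have e3 : P.E (fun u => ind (Z u = Z w) * ind (F i u = x)) = P.m (fun u => (F i u, Z u)) w := by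
      unfold FP.m
      refine P.E_congr fun u _ => ?_
      rw [← ind_and]
      congr 1
      exact propext ⟨fun h => Prod.ext h.2 h.1, fun h => ⟨(Prod.mk.inj h).2, (Prod.mk.inj h).1⟩⟩
    unfold mF FP.pv FP.ce
    rw [e3, e2]
    field_simp
  have e4 : P.ce Z (fun u => ind (F i u = x) * ind (S (F j u))) w =
      ∑ g ∈ let_ F, pF P Z F w g * (ind (g i = x) * ind (S (g j))) :=
    (sum_fun P (Z := Z) F (fun g => ind (g i = x) * ind (S (g j))) w).symm
  obtain ⟨k, hik, hjk, hu⟩ : ∃ k : Fin 3, i ≠ k ∧ j ≠ k ∧ univ.erase i = ({j, k} : Finset (Fin 3)) := by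
    have key : ∀ i j : Fin 3, i ≠ j → ∃ k : Fin 3, i ≠ k ∧ j ≠ k ∧ univ.erase i = ({j, k} : Finset (Fin 3)) := by decide
    exact key i j hij
  have e5 : ∑ g ∈ let_ F, pF P Z F w g * (ind (g i = x) * ind (S (g j))) ≤
      ∑ g ∈ let_ F, (mF P Z F i w x * (ind (g i = x) * ((ind (S (g j)) * qF P Zb F j w (g j)) * qF P Zb F k w (g k))) +
        ind (g i = x) * |pF P Z F w g - mF P Z F i w (g i) * ∏ k ∈ univ.erase i, qF P Zb F k w (g k)|) := by
    refine Finset.sum_le_sum fun g _ => ?_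
    by_cases hgx : g i = x
    · rw [hu, Finset.prod_pair hjk, hgx, ind_of rfl, one_mul, one_mul, one_mul]
      have h3 := le_abs_self (pF P Z F w g - mF P Z F i w x * (qF P Zb F j w (g j) * qF P Zb F k w (g k)))
      have h4 := abs_nonneg (pF P Z F w g - mF P Z F i w x * (qF P Zb F j w (g j) * qF P Zb F k w (g k)))
      by_cases hS : S (g j)
      · rw [ind_of hS]
        linarith
      · rw [ind_not hS]
        linarith
    · rw [ind_not hgx]
      simp
  have e6 : ∑ g ∈ let_ F, ind (g i = x) * ((ind (S (g j)) * qF P Zb F j w (g j)) * qF P Zb F k w (g k)) ≤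
      P.ce (Zb j) (fun u => ind (S (F j u))) w := by
    have h3 := sum_fix F hij hik hjk (x := x) (fun y => ind (S y) * qF P Zb F j w y) (fun y => qF P Zb F k w y)
    have s2 : ∑ y ∈ vals (F k), qF P Zb F k w y = 1 := P.pv_sum (Zb k) (F k) hw
    have s3 : ∑ y ∈ vals (F j), ind (S y) * qF P Zb F j w y = P.ce (Zb j) (fun u => ind (S (F j u))) w := by
      rw [← P.sum_pv (W := Zb j) (F j) (F := fun _ y => ind (S y)) (fun _ _ _ _ => rfl) w]
      exact Finset.sum_congr rfl fun y _ => mul_comm _ _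
    rw [s2, s3, mul_one] at h3
    rw [h3]
    have h4 := sum_ind_le (F i) x
    have h5 : 0 ≤ P.ce (Zb j) (fun u => ind (S (F j u))) w := P.ce_nonneg (fun _ _ => ind_nonneg _) w
    nlinarith
  rw [Finset.sum_add_distrib, ← Finset.mul_sum] at e5
  have h7 := mul_le_mul_of_nonneg_left e6 hm.le
  have h8 : P.ce (fun u => (F i u, Z u)) (fun u => ind (S (F j u))) w * mF P Z F i w x ≤
      (P.ce (Zb j) (fun u => ind (S (F j u))) w + (2 * c.e2 + 4 * c.eF)) * mF P Z F i w x := by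
    rw [e1, e4]
    linarith
  exact le_of_mul_le_mul_right h8 hm

/-- **a bad top is rare for its own law** -/
theorem bad_own {c : KC} (h2 : 0 < c.e2) (i : Fin 3) {w : Om} (hw : P.p w ≠ 0) (hs : ¬ sF P Z Zb F c w)
    (hA : ¬ Ap P Z F c 1 w (tup F w)) :
    P.ce (Zb i) (fun u => ind (bad P Z F c i w (fun _ => F i u))) w ≤ 2 * c.e1 / c.e2 + 2 * c.eF := by
  have h1 := own_le P (Z := Z) (Zb := Zb) F i (fun x => bad P Z F c i w (fun _ => x)) w
  have h3 : P.ce Z (fun u => ind (bad P Z F c i w (fun _ => F i u))) w =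
      P.ce Z (fun u => ind (bad P Z F c i w (tup F u))) w := by
    refine P.ce_congr (fun u _ => ?_) w
    congr 1
    exact propext (bad_letter P F c i w rfl)
  have h4 := bad_mass P (Z := Z) F (c := c) h2 i hw
  have h5 : D0 P F Z w ≤ 2 * c.e1 := by
    rw [Ap1_iff P F c hw] at hA
    exact (not_le.1 hA).le
  have h6 : tv1n P Z Zb F i w ≤ 2 * c.eF := by
    unfold sF at hs
    push Not at hs
    exact (hs i).le
  have h7 : 1 / c.e2 * D0 P F Z w ≤ 2 * c.e1 / c.e2 := by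
    rw [one_div, ← div_eq_inv_mul]
    exact (div_le_div_iff_of_pos_right h2).2 h5
  rw [h3] at h1
  linarith

end

end Pool.Agent.GMH.KF

namespace Pool.Agent.GMH.PayG

open Finset Pool.Agent.PWZ Pool.Agent.M3 Pool.Agent.GM Pool.Agent.GM.Harm Pool.Agent.GMH
open Pool.Agent.GMH.TP Pool.Agent.GMH.KF Pool.Agent.GMH.Gdy Pool.Agent.GMH.FoL

noncomputable section

/-- mass of the rare rows of the bad tops -/
def rB (c' : KC) : ℝ := 2 * c'.e1 / c'.e2 + 2 * c'.e2 + 6 * c'.eF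

theorem rB_nn {c' : KC} (h1 : 0 ≤ c'.e1) (h2 : 0 ≤ c'.e2) (hF : 0 ≤ c'.eF) : 0 ≤ rB c' := by
  unfold rB
  positivity

variable {X β γ φ : Type} [Fintype X] [Fintype β] [Fintype φ] [Nonempty X] [Nonempty β]
variable {D : HD (Fin 3) X β γ φ} {al : ℝ} {h : D.Thick al}
variable {v : ℕ → Finset (Fin 3) → X → (Fin 3 → β) → Pt (Fin 3) X β φ} {e : ℕ} {c d : Fin 3} {c' : KC}

/-- a top is bad: read from the thin letters and the letter of the top -/
theorem bad_cg {Om : Type*} [Fintype Om] {P : FP Om} {α φ : Type*} {Z : Om → α} {F : Fin 3 → Om → φ} {j : Fin 3} {p q : Om}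
    (hz : Z p = Z q) (hf : F j p = F j q) :
    bad P Z F c' j p (tup F p) ↔ bad P Z F c' j q (tup F q) :=
  (iff_of_eq (bad_fac P F c' j (tup F p) p q hz)).trans (bad_letter P F c' j q hf)

/-- **THE RELATION OF THE BAD TOPS HAS TWO TYPES OF ROWS** -/
theorem twoT_bad {φ' : Type*} {F : Fin 3 → Pt (Fin 3) X β φ → φ'} (h1 : 0 ≤ c'.e1) (hF0 : 0 ≤ c'.eF) (h2 : 0 < c'.e2)
    (hcd : c ≠ d) (hFc : ∀ a b, F c a = F c b ↔ FQ v (e / 5) c a = FQ v (e / 5) c b)
    (hFd : ∀ a b, F d a = F d b ↔ FQ v (e / 5) d a = FQ v (e / 5) d b) {A : Pt (Fin 3) X β φ → Prop}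
    (hA : Fac (ZQ D v e) A) (hA1 : ∀ p, (D.P h (e / 5)).p p ≠ 0 → A p → ¬ Ap (D.P h (e / 5)) (ZQ D v e) F c' 1 p (tup F p) ∧
      ¬ sF (D.P h (e / 5)) (ZQ D v e) (ZbQ D v e) F c' p) :
    TwoT h v (fun p => A p ∧ (bad (D.P h (e / 5)) (ZQ D v e) F c' c p (tup F p) ∨
      bad (D.P h (e / 5)) (ZQ D v e) F c' d p (tup F p))) e c d (rB c') := by
  intro p1 hp1
  set P := D.P h (e / 5) with hP
  have r0 := rB_nn (c' := c') h1 h2.le hF0
  have hXZ : ∀ p q, XZ D v e d p = XZ D v e d q → ZQ D v e p = ZQ D v e q ∧ F d p = F d q := fun p q hh =>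
    ⟨(Prod.mk.inj hh).2, (hFd p q).2 (Prod.mk.inj hh).1⟩
  by_cases hAp : A p1
  · by_cases hbd : bad P (ZQ D v e) F c' d p1 (tup F p1)
    · left
      intro p2 hp2 hx
      have g := hXZ p2 p1 hx
      exact ⟨(iff_of_eq (hA p2 p1 g.1)).2 hAp, Or.inr ((bad_cg g.1 g.2).2 hbd)⟩
    · right
      obtain ⟨a1, a2⟩ := hA1 p1 hp1 hAp
      have hown := bad_own P F h2 c hp1 a2 a1
      constructor
      · have h3 : P.ce (XZ D v e d) (fun u => ind (A u ∧ (bad P (ZQ D v e) F c' c u (tup F u) ∨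
            bad P (ZQ D v e) F c' d u (tup F u)))) p1 ≤
            P.ce (XZ D v e d) (fun u => ind (bad P (ZQ D v e) F c' c p1 (fun _ => F c u))) p1 := by
          refine ce_le_on fun u hu hx => ind_mono ?_
          have g := hXZ u p1 hx
          rintro ⟨_, h4 | h4⟩
          · exact (bad_letter P F c' c p1 (f := tup F u) (g := fun _ => F c u) rfl).1
              ((iff_of_eq (bad_fac P F c' c (tup F u) u p1 g.1)).1 h4)
          · exact absurd ((bad_cg g.1 g.2).1 h4) hbd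
        have h5 : P.ce (XZ D v e d) (fun u => ind (bad P (ZQ D v e) F c' c p1 (fun _ => F c u))) p1 =
            P.ce (fun u => (F d u, ZQ D v e u)) (fun u => ind (bad P (ZQ D v e) F c' c p1 (fun _ => F c u))) p1 := by
          have h6 : ∀ u, (ind (XZ D v e d u = XZ D v e d p1)) = ind ((F d u, ZQ D v e u) = (F d p1, ZQ D v e p1)) := by
            intro u
            refine ind_cg ⟨fun hh => ?_, fun hh => ?_⟩
            · have g := hXZ u p1 hh
              exact Prod.ext g.2 g.1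
            · exact Prod.ext ((hFd u p1).1 (Prod.mk.inj hh).1) (Prod.mk.inj hh).2
          unfold FP.ce FP.m
          simp only [h6]
        have h7 := row_le P (Z := ZQ D v e) (Zb := ZbQ D v e) F (c := c') hcd.symm hp1 a2 hbd
          (fun x => bad P (ZQ D v e) F c' c p1 (fun _ => x))
        rw [h5] at h3
        refine h3.trans (h7.trans ?_)
        unfold rB
        linarith
      · refine le_trans (ce_le_on (g := fun u => ind (bad P (ZQ D v e) F c' c p1 (fun _ => F c u)))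
          fun u hu hz => ind_mono ?_) (hown.trans ?_)
        · rintro ⟨p2, hp2, hx, hf, _, h4⟩
          have g := hXZ p2 p1 hx
          rcases h4 with h4 | h4
          · have h5 := (iff_of_eq (bad_fac P F c' c (tup F p2) p2 p1 g.1)).1 h4
            exact (bad_letter P F c' c p1 (show tup F p2 c = F c u from (hFc p2 u).2 hf)).1 h5
          · exact absurd ((bad_cg g.1 g.2).1 h4) hbd
        · unfold rB
          linarith
  · right
    have h0 : ∀ u, XZ D v e d u = XZ D v e d p1 → ¬ A u := fun u hx => fun hh =>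
      hAp ((iff_of_eq (hA u p1 (hXZ u p1 hx).1)).1 hh)
    constructor
    · refine (le_of_eq ?_).trans r0
      rw [← P.ce_const (XZ D v e d) 0 hp1]
      exact ce_congr_on fun u _ hu => ind_not fun h3 => h0 u hu h3.1
    · refine (le_of_eq ?_).trans r0
      rw [← P.ce_const (ZbQ D v e c) 0 hp1]
      exact ce_congr_on fun u _ _ => ind_not fun ⟨p2, _, h3, _, h4⟩ => h0 p2 h3 h4.1

/-- the frame of FULL -/
theorem twoT_FQ (h1 : 0 ≤ c'.e1) (hF0 : 0 ≤ c'.eF) (h2 : 0 < c'.e2) (hcd : c ≠ d) {A : Pt (Fin 3) X β φ → Prop}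
    (hA : Fac (ZQ D v e) A) (hA1 : ∀ p, (D.P h (e / 5)).p p ≠ 0 → A p →
      ¬ Ap (D.P h (e / 5)) (ZQ D v e) (FQ v (e / 5)) c' 1 p (tup (FQ v (e / 5)) p) ∧
      ¬ sF (D.P h (e / 5)) (ZQ D v e) (ZbQ D v e) (FQ v (e / 5)) c' p) :
    TwoT h v (fun p => A p ∧ (bad (D.P h (e / 5)) (ZQ D v e) (FQ v (e / 5)) c' c p (tup (FQ v (e / 5)) p) ∨
      bad (D.P h (e / 5)) (ZQ D v e) (FQ v (e / 5)) c' d p (tup (FQ v (e / 5)) p))) e c d (rB c') :=
  twoT_bad (F := FQ v (e / 5)) h1 hF0 h2 hcd (fun _ _ => Iff.rfl) (fun _ _ => Iff.rfl) hA hA1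

/-- the frame of TWO, `i` = missing top -/
theorem twoT_Fo {i : Fin 3} (h1 : 0 ≤ c'.e1) (hF0 : 0 ≤ c'.eF) (h2 : 0 < c'.e2) (hcd : c ≠ d) (hci : c ≠ i) (hdi : d ≠ i)
    {A : Pt (Fin 3) X β φ → Prop} (hA : Fac (ZQ D v e) A) (hA1 : ∀ p, (D.P h (e / 5)).p p ≠ 0 → A p →
      ¬ Ap (D.P h (e / 5)) (ZQ D v e) (Fo (FQ v (e / 5)) i) c' 1 p (tup (Fo (FQ v (e / 5)) i) p) ∧
      ¬ sF (D.P h (e / 5)) (ZQ D v e) (ZbQ D v e) (Fo (FQ v (e / 5)) i) c' p) :
    TwoT h v (fun p => A p ∧ (bad (D.P h (e / 5)) (ZQ D v e) (Fo (FQ v (e / 5)) i) c' c p (tup (Fo (FQ v (e / 5)) i) p) ∨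
      bad (D.P h (e / 5)) (ZQ D v e) (Fo (FQ v (e / 5)) i) c' d p (tup (Fo (FQ v (e / 5)) i) p))) e c d (rB c') :=
  twoT_bad (F := Fo (FQ v (e / 5)) i) h1 hF0 h2 hcd
    (fun a b => by rw [Fo_app hci, Fo_app hci, Option.some_inj])
    (fun a b => by rw [Fo_app hdi, Fo_app hdi, Option.some_inj]) hA hA1

/-! ## the relations of `GMH/DynF` at an exact vertex -/

section kv

variable {Om : Type*} [Fintype Om] {P : FP Om} {α φ : Type*} {Z : Om → α} {F : Fin 3 → Om → φ} {b : Fin 3} {κ : Fin 10}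

/-- kinds `2 .. 5` at the exact vertex `b` -/
theorem kvF_iff (hκ : 2 ≤ κ.1 ∧ κ.1 ≤ 5) (hbc : b ≠ c) (hbd : b ≠ d) (hcd : c ≠ d) {w : Om} {f : Fin 3 → φ} :
    kvF P Z F c' κ (some b) w f ↔ ¬ Ap P Z F c' 1 w f ∧ (bad P Z F c' c w f ∨ bad P Z F c' d w f) := by
  unfold kvF kv0F
  rw [if_pos hκ]
  constructor
  · rintro ⟨⟨h1, j, hj, h2⟩, _⟩
    refine ⟨h1, ?_⟩
    rcases f3 hbc hbd hcd j with rfl | rfl | rfl
    · exact absurd rfl hj
    · exact Or.inl h2
    · exact Or.inr h2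
  · rintro ⟨h1, h2⟩
    refine ⟨⟨h1, ?_⟩, fun h6 => ?_, fun h9 => ?_⟩
    · rcases h2 with h2 | h2
      · exact ⟨c, fun hh => hbc (Option.some_injective _ hh).symm, h2⟩
      · exact ⟨d, fun hh => hbd (Option.some_injective _ hh).symm, h2⟩
    · omega
    · omega

/-- `Ap 1` is a thin event -/
theorem Ap1_thin {p q : Om} (hz : Z p = Z q) (f g : Fin 3 → φ) : Ap P Z F c' 1 p f ↔ Ap P Z F c' 1 q g := by
  refine (iff_of_eq (Ap_fac P F c' 1 f p q hz)).trans ?_
  show 2 * c'.e1 ≤ tvn P Z F ∅ q f ↔ 2 * c'.e1 ≤ tvn P Z F ∅ q g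
  rw [tvn_cong P F q (f := g) (g := f) fun i hi => absurd hi (Finset.notMem_empty i)]

/-- the properties of the pair of the tops seen by `b` -/
theorem Ap6_cg (hbc : b ≠ c) (hbd : b ≠ d) (hcd : c ≠ d) {p q : Om} (hz : Z p = Z q) {f g : Fin 3 → φ} (hc : f c = g c)
    (hd : f d = g d) : Ap P Z F c' (b.1 + 6) p f ↔ Ap P Z F c' (b.1 + 6) q g := by
  refine (iff_of_eq (Ap_fac P F c' (b.1 + 6) f p q hz)).trans ?_
  have h0 : ∀ i ∈ opp b, f i = g i := by
    intro i hi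
    rcases f3 hbc hbd hcd i with rfl | rfl | rfl
    · exact absurd hi (Finset.notMem_erase _ _)
    · exact hc
    · exact hd
  have e1 := pS_cong P (Z := Z) F (S := opp b) q (f := g) (g := f) h0
  have e2 := tvn_cong P (Z := Z) F (S := opp b) q (f := g) (g := f) h0
  have e3 := dens_cong P (Z := Z) F (S := opp b) q (f := g) (g := f) h0
  have key : ∀ f' : Fin 3 → φ, Ap P Z F c' (b.1 + 6) q f' ↔ (0 < pS P Z F (opp b) q f' ∧
      (c'.dH ≤ |KF.dens P Z F (opp b) q f' - 1| ∨ 2 * c'.e3 * pS P Z F (opp b) q f' ≤ tvn P Z F (opp b) q f')) := by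
    intro f'
    have h4 : ∀ b : Fin 3, b = 0 ∨ b = 1 ∨ b = 2 := by decide
    rcases h4 b with rfl | rfl | rfl
    · exact Iff.rfl
    · exact Iff.rfl
    · exact Iff.rfl
  show Ap P Z F c' (b.1 + 6) q f ↔ Ap P Z F c' (b.1 + 6) q g
  rw [key f, key g, e1, e2, e3]

/-- **the relation of a kind at the exact vertex `b` sees the thin letters and the two tops of `b`** (kinds `2 .. 5`, and the
pair kind of `b`) -/
theorem kvF_two (hbc : b ≠ c) (hbd : b ≠ d) (hcd : c ≠ d) (hκ : (2 ≤ κ.1 ∧ κ.1 ≤ 5) ∨ κ.1 = b.1 + 6) {p q : Om}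
    (hz : Z p = Z q) (hc : F c p = F c q) (hd : F d p = F d q) :
    kvF P Z F c' κ (some b) p (tup F p) ↔ kvF P Z F c' κ (some b) q (tup F q) := by
  rcases hκ with hκ | hκ
  · rw [kvF_iff hκ hbc hbd hcd, kvF_iff hκ hbc hbd hcd, Ap1_thin hz (tup F p) (tup F q), bad_cg hz hc, bad_cg hz hd]
  · have h1 : ∀ r : Om, kvF P Z F c' κ (some b) r (tup F r) ↔ (Ap P Z F c' (b.1 + 6) r (tup F r) ∧
        ¬ Ap P Z F c' 1 r (tup F r) ∧ ¬ bad P Z F c' c r (tup F r) ∧ ¬ bad P Z F c' d r (tup F r)) := by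
      intro r
      have hb3 : b.1 < 3 := b.2
      unfold kvF kv0F
      rw [if_neg (by omega), hκ]
      constructor
      · rintro ⟨a1, a2, _⟩
        obtain ⟨a3, a4⟩ := a2 (by omega)
        exact ⟨a1, a3, a4 c (Or.inr fun hh => hbc (Option.some_injective _ hh).symm),
          a4 d (Or.inr fun hh => hbd (Option.some_injective _ hh).symm)⟩
      · rintro ⟨a1, a2, a3, a4⟩
        refine ⟨a1, fun _ => ⟨a2, fun j hj => ?_⟩, fun h9 => absurd h9 (by omega)⟩
        rcases f3 hbc hbd hcd j with rfl | rfl | rfl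
        · rcases hj with hj | hj
          · omega
          · exact absurd rfl hj
        · exact a3
        · exact a4
    rw [h1, h1, Ap6_cg (f := tup F p) (g := tup F q) hbc hbd hcd hz hc hd, Ap1_thin hz (tup F p) (tup F q), bad_cg hz hc, bad_cg hz hd]

end kv

/-- **`hk0` OF `GMH/PayG`** : the relation of a kind at the exact vertex `b`, with a thin event, three tops -/
theorem kv_hk0 {b : Fin 3} {κ : Fin 10} (hbc : b ≠ c) (hbd : b ≠ d) (hcd : c ≠ d)
    (hκ : (2 ≤ κ.1 ∧ κ.1 ≤ 5) ∨ κ.1 = b.1 + 6) {A : Pt (Fin 3) X β φ → Prop} (hA : Fac (ZQ D v e) A) :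
    Fac (fun p => (XZ D v e d p, FQ v (e / 5) c p)) (fun p => A p ∧
      kvF (D.P h (e / 5)) (ZQ D v e) (FQ v (e / 5)) c' κ (some b) p (tup (FQ v (e / 5)) p)) := by
  intro p q hpq
  have g := Prod.mk.inj (show (XZ D v e d p, FQ v (e / 5) c p) = (XZ D v e d q, FQ v (e / 5) c q) from hpq)
  have g1 := Prod.mk.inj (show (FQ v (e / 5) d p, ZQ D v e p) = (FQ v (e / 5) d q, ZQ D v e q) from g.1)
  exact propext (and_congr (iff_of_eq (hA p q g1.2)) (kvF_two hbc hbd hcd hκ g1.2 g.2 g1.1))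

/-- two tops, `i` = missing top = exact vertex -/
theorem kv_hk0o {i : Fin 3} {κ : Fin 10} (hic : i ≠ c) (hid : i ≠ d) (hcd : c ≠ d)
    (hκ : (2 ≤ κ.1 ∧ κ.1 ≤ 5) ∨ κ.1 = i.1 + 6) {A : Pt (Fin 3) X β φ → Prop} (hA : Fac (ZQ D v e) A) :
    Fac (fun p => (XZ D v e d p, FQ v (e / 5) c p)) (fun p => A p ∧
      kvF (D.P h (e / 5)) (ZQ D v e) (Fo (FQ v (e / 5)) i) c' κ (some i) p (tup (Fo (FQ v (e / 5)) i) p)) := by
  intro p q hpq
  have g := Prod.mk.inj (show (XZ D v e d p, FQ v (e / 5) c p) = (XZ D v e d q, FQ v (e / 5) c q) from hpq)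
  have g1 := Prod.mk.inj (show (FQ v (e / 5) d p, ZQ D v e p) = (FQ v (e / 5) d q, ZQ D v e q) from g.1)
  exact propext (and_congr (iff_of_eq (hA p q g1.2)) (kvF_two hic hid hcd hκ g1.2
    (by rw [Fo_app hic.symm, Fo_app hic.symm, g.2]) (by rw [Fo_app hid.symm, Fo_app hid.symm, g1.1])))

/-- **`TwoT` OF THE KINDS `2 .. 5` AT THE EXACT VERTEX `b`**, `A` thin and outside `sF` -/
theorem twoT_kv {b : Fin 3} {κ : Fin 10} (h1 : 0 ≤ c'.e1) (hF0 : 0 ≤ c'.eF) (h2 : 0 < c'.e2) (hbc : b ≠ c) (hbd : b ≠ d)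
    (hcd : c ≠ d) (hκ : 2 ≤ κ.1 ∧ κ.1 ≤ 5) {A : Pt (Fin 3) X β φ → Prop} (hA : Fac (ZQ D v e) A)
    (hA1 : ∀ p, (D.P h (e / 5)).p p ≠ 0 → A p → ¬ sF (D.P h (e / 5)) (ZQ D v e) (ZbQ D v e) (FQ v (e / 5)) c' p) :
    TwoT h v (fun p => A p ∧ kvF (D.P h (e / 5)) (ZQ D v e) (FQ v (e / 5)) c' κ (some b) p (tup (FQ v (e / 5)) p))
      e c d (rB c') := by
  have key := twoT_FQ (h := h) (v := v) (e := e) (c' := c') h1 hF0 h2 hcd
    (A := fun p => A p ∧ ¬ Ap (D.P h (e / 5)) (ZQ D v e) (FQ v (e / 5)) c' 1 p (tup (FQ v (e / 5)) p)) (by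
      intro p q hpq
      exact propext (and_congr (iff_of_eq (hA p q hpq)) (not_congr (Ap1_thin hpq _ _))))
    (fun p hp hAp => ⟨hAp.2, hA1 p hp hAp.1⟩)
  have e1 : (fun p => A p ∧ kvF (D.P h (e / 5)) (ZQ D v e) (FQ v (e / 5)) c' κ (some b) p (tup (FQ v (e / 5)) p)) =
      fun p => (A p ∧ ¬ Ap (D.P h (e / 5)) (ZQ D v e) (FQ v (e / 5)) c' 1 p (tup (FQ v (e / 5)) p)) ∧
        (bad (D.P h (e / 5)) (ZQ D v e) (FQ v (e / 5)) c' c p (tup (FQ v (e / 5)) p) ∨
        bad (D.P h (e / 5)) (ZQ D v e) (FQ v (e / 5)) c' d p (tup (FQ v (e / 5)) p)) := by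
    funext p
    rw [kvF_iff hκ hbc hbd hcd]
    exact propext (by tauto)
  rw [e1]
  exact key

/-- the same, two tops, exact vertex `i` = missing top -/
theorem twoT_kvo {i : Fin 3} {κ : Fin 10} (h1 : 0 ≤ c'.e1) (hF0 : 0 ≤ c'.eF) (h2 : 0 < c'.e2) (hic : i ≠ c) (hid : i ≠ d)
    (hcd : c ≠ d) (hκ : 2 ≤ κ.1 ∧ κ.1 ≤ 5) {A : Pt (Fin 3) X β φ → Prop} (hA : Fac (ZQ D v e) A)
    (hA1 : ∀ p, (D.P h (e / 5)).p p ≠ 0 → A p →
      ¬ sF (D.P h (e / 5)) (ZQ D v e) (ZbQ D v e) (Fo (FQ v (e / 5)) i) c' p) :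
    TwoT h v (fun p => A p ∧ kvF (D.P h (e / 5)) (ZQ D v e) (Fo (FQ v (e / 5)) i) c' κ (some i) p
      (tup (Fo (FQ v (e / 5)) i) p)) e c d (rB c') := by
  have key := twoT_Fo (h := h) (v := v) (e := e) (c' := c') (i := i) h1 hF0 h2 hcd hic.symm hid.symm
    (A := fun p => A p ∧ ¬ Ap (D.P h (e / 5)) (ZQ D v e) (Fo (FQ v (e / 5)) i) c' 1 p (tup (Fo (FQ v (e / 5)) i) p)) (by
      intro p q hpq
      exact propext (and_congr (iff_of_eq (hA p q hpq)) (not_congr (Ap1_thin hpq _ _))))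
    (fun p hp hAp => ⟨hAp.2, hA1 p hp hAp.1⟩)
  have e1 : (fun p => A p ∧ kvF (D.P h (e / 5)) (ZQ D v e) (Fo (FQ v (e / 5)) i) c' κ (some i) p
      (tup (Fo (FQ v (e / 5)) i) p)) =
      fun p => (A p ∧ ¬ Ap (D.P h (e / 5)) (ZQ D v e) (Fo (FQ v (e / 5)) i) c' 1 p (tup (Fo (FQ v (e / 5)) i) p)) ∧
        (bad (D.P h (e / 5)) (ZQ D v e) (Fo (FQ v (e / 5)) i) c' c p (tup (Fo (FQ v (e / 5)) i) p) ∨
        bad (D.P h (e / 5)) (ZQ D v e) (Fo (FQ v (e / 5)) i) c' d p (tup (Fo (FQ v (e / 5)) i) p)) := by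
    funext p
    rw [kvF_iff hκ hic hid hcd]
    exact propext (by tauto)
  rw [e1]
  exact key

/-- **kind `1` (`R0`, thin)** : `r1 = 0` -/
theorem twoT_thin {A : Pt (Fin 3) X β φ → Prop} (hA : Fac (ZQ D v e) A) {r1 : ℝ} (r0 : 0 ≤ r1) : TwoT h v A e c d r1 :=
  TwoT_of_fac (fun p q hpq => hA p q (Prod.mk.inj (show (FQ v (e / 5) d p, ZQ D v e p) =
    (FQ v (e / 5) d q, ZQ D v e q) from hpq)).2) r0

end

end Pool.Agent.GMH.PayG
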