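import Pool.Agent.GMH.Key3Z
import Pool.Agent.GMH.Hot2p

/-!
# GMH/KpS: one step of the potential of a relation of pairs (helper89; row (K') of block F, note 4091, message 52998)

Two tops `i`, `k`, old state `Z`, faces `Zb`, additions `Y`, `V`; `H` an event of the two letters and `Z`.
* `psP` : log density of the pair at the true letters by surprisals, `psP_sub` : its change in one step;
* `rlH` : the event as a relation of letters, `sum_rlH`, `sum_rlHx` : mass of the relation, `rlH_iff`;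
* `reg_le` : one pair of letters, the regions by the thin ratios;
* `kp_core` : **ONE STEP**: the fall of the log density on `H` plus the kills at the points with both thin ratios strong is at
  most the real part `RLF`, `3 B e3` times the mass at the strong points `MHF`, the first order terms `FHF` of the two tops on ALL
  points with the own thin ratio at most `B`, the second order term `ACF` and the change of mass;
* `kp_hot` : plain hot pairs, `kp_ph` : phases (entry at `t0 + 1`, exit at `t0`) with the entries on the left side.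
-/

set_option autoImplicit false
set_option linter.unusedSectionVars false
set_option linter.unusedVariables false

namespace Pool.Agent.GMH.KP

open Finset Pool.Agent.PWZ Pool.Agent.M3 Pool.Agent.GMH Pool.Agent.GMH.NZ Pool.Agent.GMH.Hot2

noncomputable section

/-! ### one pair of letters -/

/-- the real price of a letter: strong own thin ratio and rising, or rising by more than `B` -/
def prc (B e3 : ℝ) (T : Prop) (r : ℝ) : Prop := (T ∧ 1 + e3 < r) ∨ B < r

/-- first order, capped -/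
def capB (B r : ℝ) : ℝ := ind (r ≤ B) * (r - 1)

theorem reg_one {B e3 r : ℝ} {T : Prop} (he3 : 0 ≤ e3) (heB : 1 + e3 ≤ B) (hr : 0 ≤ r) :
    ∃ s, r * Real.exp (-(ind (prc B e3 T r) * Real.log r)) = s ∧ 0 ≤ s ∧ s ≤ B ∧ s ≤ max r 1 ∧ s ≤ r ∧
      (T → s ≤ 1 + e3) ∧ (¬ T → s - 1 = capB B r) ∧ (r ≤ 1 → s = r) := by
  by_cases h : prc B e3 T r
  · have h1 : 1 < r := by
      rcases h with h | h
      · linarith [h.2]
      · linarith
    refine ⟨1, ?_, zero_le_one, by linarith, le_max_right _ _, h1.le, fun _ => by linarith, fun hT => ?_, fun h2 => by linarith⟩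
    · rw [ind_of h, one_mul, Real.exp_neg, Real.exp_log (by linarith)]
      exact mul_inv_cancel₀ (by linarith)
    · have h3 : B < r := by
        rcases h with h | h
        · exact absurd h.1 hT
        · exact h
      unfold capB
      rw [ind_not (not_le.2 h3), zero_mul, sub_self]
  · have h3 : r ≤ B := by
      by_contra hh
      exact h (Or.inr (not_le.1 hh))
    refine ⟨r, ?_, hr, h3, le_max_left _ _, le_rfl, fun hT => ?_, fun _ => ?_, fun _ => rfl⟩
    · rw [ind_not h, zero_mul, neg_zero, Real.exp_zero, mul_one]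
    · by_contra hh
      exact h (Or.inl ⟨hT, not_le.1 hh⟩)
    · unfold capB
      rw [ind_of h3, one_mul]

/-- **ONE PAIR OF LETTERS** -/
theorem reg_le {B e3 r r' : ℝ} {T T' : Prop} (he3 : 0 ≤ e3) (he31 : e3 ≤ 1) (heB : 1 + e3 ≤ B) (hr : 0 ≤ r) (hr' : 0 ≤ r') :
    r * r' * Real.exp (-(ind (prc B e3 T r) * Real.log r + ind (prc B e3 T' r') * Real.log r')) - 1 ≤
      -(ind (T ∧ T') * max (1 - r * r') 0) + 3 * B * e3 * ind (T ∨ T') + ind (¬ T) * capB B r + ind (¬ T') * capB B r' +
        ind (¬ T ∧ ¬ T') * (|capB B r| * |capB B r'|) := by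
  obtain ⟨s, h1, h2, h3, h4, h5, h6, h7, h8⟩ := reg_one (B := B) (e3 := e3) (T := T) he3 heB hr
  obtain ⟨s', h1', h2', h3', h4', h5', h6', h7', h8'⟩ := reg_one (B := B) (e3 := e3) (T := T') he3 heB hr'
  have hB : 1 ≤ B := by linarith
  have e : r * r' * Real.exp (-(ind (prc B e3 T r) * Real.log r + ind (prc B e3 T' r') * Real.log r')) = s * s' := by
    rw [neg_add, Real.exp_add, ← h1, ← h1']
    ring
  rw [e]
  have hBe : e3 ≤ B * e3 := le_mul_of_one_le_left he3 hB
  by_cases hT : T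
  · by_cases hT' : T'
    · rw [ind_of (⟨hT, hT'⟩ : T ∧ T'), ind_of (Or.inl hT : T ∨ T'), ind_not (not_not.2 hT), ind_not (not_not.2 hT'),
        ind_not (fun h : ¬ T ∧ ¬ T' => h.1 hT)]
      have k1 := h6 hT
      have k2 := h6' hT'
      have k3 : s * s' ≤ (1 + e3) * (1 + e3) := mul_le_mul k1 k2 h2' (by linarith)
      have k4 : (1 + e3) * (1 + e3) ≤ 1 + 3 * e3 := by nlinarith
      have k5 : max (1 - r * r') 0 ≤ max (1 - s * s') 0 := by
        refine max_le_max ?_ le_rfl
        have := mul_le_mul h5 h5' h2' hr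
        linarith
      rcases le_total (1 - s * s') 0 with h0 | h0
      · rw [max_eq_right h0] at k5
        linarith
      · rw [max_eq_left h0] at k5
        linarith
    · rw [ind_not (fun h : T ∧ T' => hT' h.2), ind_of (Or.inl hT : T ∨ T'), ind_not (not_not.2 hT), ind_of hT',
        ind_not (fun h : ¬ T ∧ ¬ T' => h.1 hT)]
      have k1 := h6 hT
      have k2 := h7' hT'
      have k3 : s * s' ≤ s' + e3 * B := by
        have k4 : s' * (s - 1) ≤ B * e3 := by
          rcases le_total (s - 1) 0 with h0 | h0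
          · have := mul_nonpos_of_nonneg_of_nonpos h2' h0
            have k5 : 0 ≤ B * e3 := by positivity
            linarith
          · exact mul_le_mul h3' (by linarith) h0 (by linarith)
        nlinarith
      rw [← k2]
      nlinarith
  · by_cases hT' : T'
    · rw [ind_not (fun h : T ∧ T' => hT h.1), ind_of (Or.inr hT' : T ∨ T'), ind_of hT, ind_not (not_not.2 hT'),
        ind_not (fun h : ¬ T ∧ ¬ T' => h.2 hT')]
      have k1 := h6' hT'
      have k2 := h7 hT
      have k3 : s * s' ≤ s + e3 * B := by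
        have k4 : s * (s' - 1) ≤ B * e3 := by
          rcases le_total (s' - 1) 0 with h0 | h0
          · have := mul_nonpos_of_nonneg_of_nonpos h2 h0
            have k5 : 0 ≤ B * e3 := by positivity
            linarith
          · exact mul_le_mul h3 (by linarith) h0 (by linarith)
        nlinarith
      rw [← k2]
      nlinarith
    · rw [ind_not (fun h : T ∧ T' => hT h.1), ind_not (fun h : T ∨ T' => h.elim hT hT'), ind_of hT, ind_of hT',
        ind_of (⟨hT, hT'⟩ : ¬ T ∧ ¬ T')]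
      rw [← h7 hT, ← h7' hT', ← abs_mul]
      have := le_abs_self ((s - 1) * (s' - 1))
      nlinarith

section one

variable {Om : Type*} [Fintype Om] (P : FP Om) {α β γ φ ν : Type*} {Z : Om → β} {Zb : Fin 3 → Om → α}
  (F : Fin 3 → Om → φ) {Y : Fin 3 → Om → γ} {V : Om → ν} (i k : Fin 3)

/-- log density of the pair at the true letters -/
def psP {α β : Type*} (Z : Om → β) (Zb : Fin 3 → Om → α) (w : Om) : ℝ :=
  sp P (F i) (Zb i) w + sp P (F k) (Zb k) w - sp P (fun u => (F i u, F k u)) Z w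

theorem psP_log {α β : Type*} (Z : Om → β) (Zb : Fin 3 → Om → α) {w : Om} (hw : P.p w ≠ 0) : psP P F i k Z Zb w =
    Real.log (mF2 P Z F i k w (F i w) (F k w) / (qF P Zb F i w (F i w) * qF P Zb F k w (F k w))) := by
  have m1 := P.m_pos (Zb i) hw
  have m2 := P.m_pos (Zb k) hw
  have m3 := P.m_pos Z hw
  have m4 := P.m_pos (fun u => (F i u, Zb i u)) hw
  have m5 := P.m_pos (fun u => (F k u, Zb k u)) hw
  have m6 := P.m_pos (fun u => ((F i u, F k u), Z u)) hw
  have e1 : mF2 P Z F i k w (F i w) (F k w) = P.m (fun u => ((F i u, F k u), Z u)) w / P.m Z w :=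
    P.pv_self Z (fun u => (F i u, F k u)) w
  have e2 : qF P Zb F i w (F i w) = P.m (fun u => (F i u, Zb i u)) w / P.m (Zb i) w := P.pv_self (Zb i) (F i) w
  have e3 : qF P Zb F k w (F k w) = P.m (fun u => (F k u, Zb k u)) w / P.m (Zb k) w := P.pv_self (Zb k) (F k) w
  rw [e1, e2, e3, Real.log_div (div_pos m6 m3).ne' (mul_pos (div_pos m4 m1) (div_pos m5 m2)).ne',
    Real.log_mul (div_pos m4 m1).ne' (div_pos m5 m2).ne', Real.log_div m6.ne' m3.ne', Real.log_div m4.ne' m1.ne',
    Real.log_div m5.ne' m2.ne']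
  unfold psP sp
  ring

/-- change of the log density in one step -/
theorem psP_sub {w : Om} (hw : P.p w ≠ 0) :
    psP P F i k Z Zb w - psP P F i k (fun u => (V u, Z u)) (fun j u => (Y j u, Zb j u)) w =
      Real.log (mF2 P Z F i k w (F i w) (F k w) * (rF P Zb F Y i w (F i w) * rF P Zb F Y k w (F k w)) /
        mF2 P (fun u => (V u, Z u)) F i k w (F i w) (F k w)) := by
  rw [psP_log P F i k Z Zb hw, psP_log P F i k (fun u => (V u, Z u)) (fun j u => (Y j u, Zb j u)) hw]
  have a1 : 0 < mF2 P Z F i k w (F i w) (F k w) := P.pv_self_pos Z (fun u => (F i u, F k u)) hw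
  have a2 : 0 < mF2 P (fun u => (V u, Z u)) F i k w (F i w) (F k w) :=
    P.pv_self_pos (fun u => (V u, Z u)) (fun u => (F i u, F k u)) hw
  have a3 : ∀ j, 0 < qF P Zb F j w (F j w) := fun j => P.pv_self_pos (Zb j) (F j) hw
  have a4 : ∀ j, 0 < qF P (fun j u => (Y j u, Zb j u)) F j w (F j w) := fun j =>
    P.pv_self_pos (fun u => (Y j u, Zb j u)) (F j) hw
  have a5 : ∀ j, rF P Zb F Y j w (F j w) = qF P (fun j u => (Y j u, Zb j u)) F j w (F j w) / qF P Zb F j w (F j w) := fun j =>
    (real_r P (Zb j) (F j) (Y j) hw (F j w)).symm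
  rw [← Real.log_div (div_pos a1 (mul_pos (a3 i) (a3 k))).ne' (div_pos a2 (mul_pos (a4 i) (a4 k))).ne', a5, a5]
  congr 1
  have b1 := (a3 i).ne'
  have b2 := (a3 k).ne'
  have b3 := (a4 i).ne'
  have b4 := (a4 k).ne'
  have b5 := a2.ne'
  field_simp

/-! ### the event as a relation -/

/-- the event as a relation of letters -/
def rlH (Z : Om → β) (H : Om → Prop) (w : Om) (x y : φ) : Prop := ∃ u, P.p u ≠ 0 ∧ Z u = Z w ∧ F i u = x ∧ F k u = y ∧ H u

theorem rlH_fac (H : Om → Prop) (x y : φ) : Fac Z (fun w => rlH P F i k Z H w x y) := by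
  intro a b hab
  show rlH P F i k Z H a x y = rlH P F i k Z H b x y
  unfold rlH
  rw [hab]

theorem rlH_iff {H : Om → Prop} (hH : Fac (fun u => ((F i u, F k u), Z u)) H) {w : Om} (hw : P.p w ≠ 0) :
    rlH P F i k Z H w (F i w) (F k w) ↔ H w := by
  refine ⟨fun ⟨u, h1, h2, h3, h4, h5⟩ => ?_, fun h => ⟨w, hw, rfl, rfl, rfl, h⟩⟩
  have := hH u w (by simp only [Prod.mk.injEq]; exact ⟨⟨h3, h4⟩, h2⟩)
  rw [← this]
  exact h5

/-- mass of the relation in a row -/
theorem sum_rlHx {H : Om → Prop} (hH : Fac (fun u => ((F i u, F k u), Z u)) H) (w : Om) (x : φ) :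
    ∑ y ∈ vals (F k), mF2 P Z F i k w x y * ind (rlH P F i k Z H w x y) = P.ce Z (fun u => ind (F i u = x ∧ H u)) w := by
  classical
  have e1 : ∀ y ∈ vals (F k), mF2 P Z F i k w x y * ind (rlH P F i k Z H w x y) =
      P.ce Z (fun u => ind (rlH P F i k Z H u x y) * ind ((F i u, F k u) = (x, y))) w := by
    intro y _
    rw [P.ce_mul (h := fun u => ind (rlH P F i k Z H u x y)) (fun a b hab => by
      show ind (rlH P F i k Z H a x y) = ind (rlH P F i k Z H b x y)
      have := rlH_fac P F i k (Z := Z) H x y a b hab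
      simp only at this
      rw [this])]
    unfold mF2 FP.pv
    ring
  rw [Finset.sum_congr rfl e1, ← P.ce_sum]
  refine P.ce_congr (fun u hu => ?_) w
  have hv : F k u ∈ vals (F k) := by unfold vals; exact Finset.mem_image_of_mem _ (mem_univ u)
  rw [Finset.sum_eq_single (F k u)]
  · by_cases hx : F i u = x
    · rw [ind_of (show (F i u, F k u) = (x, F k u) by rw [hx]), mul_one]
      subst hx
      exact ind_cg ⟨fun h => ⟨rfl, (rlH_iff P F i k hH hu).1 h⟩, fun h => (rlH_iff P F i k hH hu).2 h.2⟩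
    · rw [ind_not (fun h : (F i u, F k u) = (x, F k u) => hx (congrArg Prod.fst h)), mul_zero,
        ind_not (fun h : F i u = x ∧ H u => hx h.1)]
  · intro y _ hy
    rw [ind_not (fun h : (F i u, F k u) = (x, y) => hy (congrArg Prod.snd h).symm), mul_zero]
  · exact fun h => absurd hv h

/-- mass of the relation in a column -/
theorem sum_rlHy {H : Om → Prop} (hH : Fac (fun u => ((F i u, F k u), Z u)) H) (w : Om) (y : φ) :
    ∑ x ∈ vals (F i), mF2 P Z F i k w x y * ind (rlH P F i k Z H w x y) = P.ce Z (fun u => ind (F k u = y ∧ H u)) w := by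
  classical
  have e1 : ∀ x ∈ vals (F i), mF2 P Z F i k w x y * ind (rlH P F i k Z H w x y) =
      P.ce Z (fun u => ind (rlH P F i k Z H u x y) * ind ((F i u, F k u) = (x, y))) w := by
    intro x _
    rw [P.ce_mul (h := fun u => ind (rlH P F i k Z H u x y)) (fun a b hab => by
      show ind (rlH P F i k Z H a x y) = ind (rlH P F i k Z H b x y)
      have := rlH_fac P F i k (Z := Z) H x y a b hab
      simp only at this
      rw [this])]
    unfold mF2 FP.pv
    ring
  rw [Finset.sum_congr rfl e1, ← P.ce_sum]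
  refine P.ce_congr (fun u hu => ?_) w
  have hv : F i u ∈ vals (F i) := by unfold vals; exact Finset.mem_image_of_mem _ (mem_univ u)
  rw [Finset.sum_eq_single (F i u)]
  · by_cases hx : F k u = y
    · rw [ind_of (show (F i u, F k u) = (F i u, y) by rw [hx]), mul_one]
      subst hx
      exact ind_cg ⟨fun h => ⟨rfl, (rlH_iff P F i k hH hu).1 h⟩, fun h => (rlH_iff P F i k hH hu).2 h.2⟩
    · rw [ind_not (fun h : (F i u, F k u) = (F i u, y) => hx (congrArg Prod.snd h)), mul_zero,
        ind_not (fun h : F k u = y ∧ H u => hx h.1)]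
  · intro x _ hx
    rw [ind_not (fun h : (F i u, F k u) = (x, y) => hx (congrArg Prod.fst h).symm), mul_zero]
  · exact fun h => absurd hv h

/-- mass of the relation -/
theorem sum_rlH {H : Om → Prop} (hH : Fac (fun u => ((F i u, F k u), Z u)) H) (w : Om) :
    ∑ x ∈ vals (F i), ∑ y ∈ vals (F k), mF2 P Z F i k w x y * ind (rlH P F i k Z H w x y) =
      P.ce Z (fun u => ind (H u)) w := by
  classical
  rw [Finset.sum_congr rfl fun x _ => sum_rlHx P F i k hH w x, ← P.ce_sum]
  refine P.ce_congr (fun u hu => ?_) w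
  have hv : F i u ∈ vals (F i) := by unfold vals; exact Finset.mem_image_of_mem _ (mem_univ u)
  rw [Finset.sum_eq_single (F i u)]
  · exact ind_cg ⟨fun h => h.2, fun h => ⟨rfl, h⟩⟩
  · intro x _ hx
    exact ind_not (fun h : F i u = x ∧ H u => hx h.1.symm)
  · exact fun h => absurd hv h

/-! ### the terms -/

variable (Z Zb Y) in
/-- kills of the event at a point -/
def KHF (H : Om → Prop) (w : Om) : ℝ := ∑ x ∈ vals (F i), ∑ y ∈ vals (F k), mF2 P Z F i k w x y *
  (ind (rlH P F i k Z H w x y) * max (1 - rF P Zb F Y i w x * rF P Zb F Y k w y) 0)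

variable (Z Zb Y) in
/-- real price of the top `j` at the true letter -/
def RLF (B e3 : ℝ) (j : Fin 3) (w : Om) : ℝ :=
  ind (prc B e3 (B < tF P Z Zb Y j w) (rF P Zb F Y j w (F j w))) * Real.log (rF P Zb F Y j w (F j w))

variable (Z Zb Y) in
/-- first order term of the top `j` : ALL points with the own thin ratio at most `B` -/
def FHF (B : ℝ) (H : Om → Prop) (j : Fin 3) (w : Om) : ℝ := ind (¬ B < tF P Z Zb Y j w) *
  ∑ x ∈ vals (F j), P.ce Z (fun u => ind (F j u = x ∧ H u)) w * capB B (rF P Zb F Y j w x)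

variable (Z Zb Y) in
/-- second order term off the strong thin points -/
def ACF (B : ℝ) (H : Om → Prop) (w : Om) : ℝ := ind (¬ B < tF P Z Zb Y i w ∧ ¬ B < tF P Z Zb Y k w) *
  ∑ x ∈ vals (F i), ∑ y ∈ vals (F k), mF2 P Z F i k w x y *
    (ind (rlH P F i k Z H w x y) * (|capB B (rF P Zb F Y i w x)| * |capB B (rF P Zb F Y k w y)|))

/-- price as a function of the letters -/
def gHF (Z : Om → β) (Zb : Fin 3 → Om → α) (Y : Fin 3 → Om → γ) (B e3 : ℝ) (w : Om) (x y : φ) : ℝ :=
  ind (prc B e3 (B < tF P Z Zb Y i w) (rF P Zb F Y i w x)) * Real.log (rF P Zb F Y i w x) +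
  ind (prc B e3 (B < tF P Z Zb Y k w) (rF P Zb F Y k w y)) * Real.log (rF P Zb F Y k w y)

variable {P}

/-- the regions, all pairs of letters of a point -/
theorem reg_sum {B e3 : ℝ} (he3 : 0 ≤ e3) (he31 : e3 ≤ 1) (heB : 1 + e3 ≤ B) {H : Om → Prop}
    (hH : Fac (fun u => ((F i u, F k u), Z u)) H) (w : Om) :
    ∑ x ∈ vals (F i), ∑ y ∈ vals (F k), mF2 P Z F i k w x y * (ind (rlH P F i k Z H w x y) *
      (rF P Zb F Y i w x * rF P Zb F Y k w y * Real.exp (-gHF P F i k Z Zb Y B e3 w x y) - 1)) ≤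
      -(ind (B < tF P Z Zb Y i w ∧ B < tF P Z Zb Y k w) * KHF P Z Zb F Y i k H w) +
      3 * B * e3 * (ind (B < tF P Z Zb Y i w ∨ B < tF P Z Zb Y k w) * P.ce Z (fun u => ind (H u)) w) +
      FHF P Z Zb F Y B H i w + FHF P Z Zb F Y B H k w + ACF P Z Zb F Y i k B H w := by
  classical
  set Ti : Prop := B < tF P Z Zb Y i w with hTi
  set Tk : Prop := B < tF P Z Zb Y k w with hTk
  have hr : ∀ j x, 0 ≤ rF P Zb F Y j w x := fun j x => rr_nn P (Zb j) (F j) (Y j) w (Y j w) x
  have h1 : ∀ x ∈ vals (F i), ∀ y ∈ vals (F k), mF2 P Z F i k w x y * (ind (rlH P F i k Z H w x y) *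
      (rF P Zb F Y i w x * rF P Zb F Y k w y * Real.exp (-gHF P F i k Z Zb Y B e3 w x y) - 1)) ≤
      -(ind (Ti ∧ Tk) * (mF2 P Z F i k w x y * (ind (rlH P F i k Z H w x y) *
        max (1 - rF P Zb F Y i w x * rF P Zb F Y k w y) 0))) +
      3 * B * e3 * (ind (Ti ∨ Tk) * (mF2 P Z F i k w x y * ind (rlH P F i k Z H w x y))) +
      ind (¬ Ti) * (mF2 P Z F i k w x y * ind (rlH P F i k Z H w x y) * capB B (rF P Zb F Y i w x)) +
      ind (¬ Tk) * (mF2 P Z F i k w x y * ind (rlH P F i k Z H w x y) * capB B (rF P Zb F Y k w y)) +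
      ind (¬ Ti ∧ ¬ Tk) * (mF2 P Z F i k w x y * (ind (rlH P F i k Z H w x y) *
        (|capB B (rF P Zb F Y i w x)| * |capB B (rF P Zb F Y k w y)|))) := by
    intro x _ y _
    have k1 := reg_le (B := B) (e3 := e3) (T := Ti) (T' := Tk) he3 he31 heB (hr i x) (hr k y)
    have k2 : 0 ≤ mF2 P Z F i k w x y * ind (rlH P F i k Z H w x y) :=
      mul_nonneg (P.pv_nonneg _ _ _ _) (ind_nonneg _)
    have k3 := mul_le_mul_of_nonneg_left k1 k2
    refine le_trans (le_of_eq ?_) (k3.trans (le_of_eq ?_))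
    · unfold gHF
      rw [← hTi, ← hTk]
      ring
    · ring
  refine (Finset.sum_le_sum fun x hx => Finset.sum_le_sum fun y hy => h1 x hx y hy).trans (le_of_eq ?_)
  simp only [Finset.sum_add_distrib, Finset.sum_neg_distrib, ← Finset.mul_sum]
  have e2 : ∑ x ∈ vals (F i), ∑ y ∈ vals (F k), mF2 P Z F i k w x y * ind (rlH P F i k Z H w x y) *
      capB B (rF P Zb F Y i w x) = ∑ x ∈ vals (F i), P.ce Z (fun u => ind (F i u = x ∧ H u)) w *
        capB B (rF P Zb F Y i w x) := by
    refine Finset.sum_congr rfl fun x _ => ?_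
    rw [← Finset.sum_mul, sum_rlHx P F i k hH w x]
  have e3' : ∑ x ∈ vals (F i), ∑ y ∈ vals (F k), mF2 P Z F i k w x y * ind (rlH P F i k Z H w x y) *
      capB B (rF P Zb F Y k w y) = ∑ y ∈ vals (F k), P.ce Z (fun u => ind (F k u = y ∧ H u)) w *
        capB B (rF P Zb F Y k w y) := by
    rw [Finset.sum_comm]
    refine Finset.sum_congr rfl fun y _ => ?_
    rw [← Finset.sum_mul, sum_rlHy P F i k hH w y]
  rw [e2, e3', sum_rlH P F i k hH w]
  unfold KHF FHF ACF
  rw [← hTi, ← hTk]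

variable (P)

/-- **ONE STEP OF THE POTENTIAL OF A RELATION OF PAIRS** -/
theorem kp_core (hZ : ∀ j, Fac Z (Zb j)) (hV : ∀ j, Fac (fun u => (V u, Z u)) (Y j)) {B e3 : ℝ} (he3 : 0 ≤ e3)
    (he31 : e3 ≤ 1) (heB : 1 + e3 ≤ B) {H : Om → Prop} (hH : Fac (fun u => ((F i u, F k u), Z u)) H) {al : Om → ℝ}
    (hal : Fac (fun u => (V u, Z u)) al) (h0 : ∀ w, 0 ≤ al w) :
    P.E (fun w => al w * (ind (H w) * (psP P F i k Z Zb w -
        psP P F i k (fun u => (V u, Z u)) (fun j u => (Y j u, Zb j u)) w))) +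
      P.E (fun w => al w * (ind (B < tF P Z Zb Y i w ∧ B < tF P Z Zb Y k w) * KHF P Z Zb F Y i k H w)) ≤
      P.E (fun w => al w * (ind (H w) * (RLF P Z Zb F Y B e3 i w + RLF P Z Zb F Y B e3 k w))) +
      3 * B * e3 * P.E (fun w => al w * (ind (B < tF P Z Zb Y i w ∨ B < tF P Z Zb Y k w) *
        P.ce Z (fun u => ind (H u)) w)) +
      P.E (fun w => al w * FHF P Z Zb F Y B H i w) + P.E (fun w => al w * FHF P Z Zb F Y B H k w) +
      P.E (fun w => al w * ACF P Z Zb F Y i k B H w) +
      P.E (fun w => al w * (P.ce Z (fun u => ind (H u)) w - ind (H w))) := by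
  classical
  -- what sees what
  have frF : ∀ j x, Fac (fun u => (V u, Z u)) (fun w => rF P Zb F Y j w x) := by
    intro j x a b hab
    have e1 : Y j a = Y j b := hV j a b hab
    have e2 : Z a = Z b := (Prod.mk.inj hab).2
    have e3 : Zb j a = Zb j b := hZ j a b e2
    show rF P Zb F Y j a x = rF P Zb F Y j b x
    unfold rF
    rw [rrc P (F j) (Y j) e3, e1]
  have ftF : ∀ j, Fac (fun u => (V u, Z u)) (fun w => tF P Z Zb Y j w) := by
    intro j a b hab
    have e1 : Y j a = Y j b := hV j a b hab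
    have e2 : Z a = Z b := (Prod.mk.inj hab).2
    show tF P Z Zb Y j a = tF P Z Zb Y j b
    unfold tF
    rw [tauc P (Y j) (hZ j) e2, e1]
  have fgF : ∀ x y, Fac (fun u => (V u, Z u)) (fun w => gHF P F i k Z Zb Y B e3 w x y) := by
    intro x y a b hab
    have e1 := frF i x a b hab
    have e2 := frF k y a b hab
    have e5 := ftF i a b hab
    have e4 := ftF k a b hab
    simp only at e1 e2 e5 e4
    show gHF P F i k Z Zb Y B e3 a x y = gHF P F i k Z Zb Y B e3 b x y
    unfold gHF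
    rw [e1, e2, e5, e4]
  have hr : ∀ j w x, 0 ≤ rF P Zb F Y j w x := fun j w x => rr_nn P (Zb j) (F j) (Y j) w (Y j w) x
  set Z' : Om → ν × β := fun u => (V u, Z u) with hZ'
  set W : Om → φ × φ → ℝ := fun w c => ind (rlH P F i k Z H w c.1 c.2) *
    (mF2 P Z F i k w c.1 c.2 * (rF P Zb F Y i w c.1 * rF P Zb F Y k w c.2) *
      Real.exp (-gHF P F i k Z Zb Y B e3 w c.1 c.2) / mF2 P Z' F i k w c.1 c.2) with hW
  have hWf : ∀ c, Fac Z' (fun w => W w c) := by
    intro c a b hab
    have e1 : rlH P F i k Z H a c.1 c.2 = rlH P F i k Z H b c.1 c.2 :=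
      rlH_fac P F i k (Z := Z) H c.1 c.2 a b (Prod.mk.inj hab).2
    have e2 : mF2 P Z F i k a c.1 c.2 = mF2 P Z F i k b c.1 c.2 := P.pv_fac _ _ _ a b (Prod.mk.inj hab).2
    have e3 : mF2 P Z' F i k a c.1 c.2 = mF2 P Z' F i k b c.1 c.2 := P.pv_fac _ _ _ a b hab
    have e4 := frF i c.1 a b hab
    have e5 := frF k c.2 a b hab
    have e6 := fgF c.1 c.2 a b hab
    simp only at e4 e5 e6
    show W a c = W b c
    simp only [hW]
    rw [e1, e2, e3, e4, e5, e6]
  -- the logarithm
  have s1 : P.E (fun w => al w * (ind (H w) * (psP P F i k Z Zb w - psP P F i k Z' (fun j u => (Y j u, Zb j u)) w))) ≤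
      P.E (fun w => al w * (ind (H w) * (RLF P Z Zb F Y B e3 i w + RLF P Z Zb F Y B e3 k w))) +
      P.E (fun w => al w * P.ce Z' (fun u => W u (F i u, F k u)) w) - P.E (fun w => al w * ind (H w)) := by
    rw [P.E_mul_ce hal, ← P.E_add, ← P.E_sub]
    refine P.E_mono fun w hw => ?_
    have a1 : 0 < mF2 P Z F i k w (F i w) (F k w) := P.pv_self_pos Z (fun u => (F i u, F k u)) hw
    have a2 : 0 < mF2 P Z' F i k w (F i w) (F k w) := P.pv_self_pos Z' (fun u => (F i u, F k u)) hw
    have a3 : ∀ j, 0 < rF P Zb F Y j w (F j w) := fun j => by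
      have h1 : rF P Zb F Y j w (F j w) = P.pv (fun u => (Y j u, Zb j u)) (F j) w (F j w) / P.pv (Zb j) (F j) w (F j w) :=
        (real_r P (Zb j) (F j) (Y j) hw (F j w)).symm
      rw [h1]
      exact div_pos (P.pv_self_pos _ _ hw) (P.pv_self_pos _ _ hw)
    by_cases hh : H w
    · have e1 : ind (rlH P F i k Z H w (F i w) (F k w)) = 1 := ind_of ((rlH_iff P F i k hH hw).2 hh)
      have e2 := psP_sub P F (Y := Y) (V := V) i k (Z := Z) (Zb := Zb) hw
      have e7 : W w (F i w, F k w) = mF2 P Z F i k w (F i w) (F k w) * (rF P Zb F Y i w (F i w) * rF P Zb F Y k w (F k w)) /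
          mF2 P Z' F i k w (F i w) (F k w) * Real.exp (-gHF P F i k Z Zb Y B e3 w (F i w) (F k w)) := by
        simp only [hW]
        rw [e1]
        ring
      have e4 : gHF P F i k Z Zb Y B e3 w (F i w) (F k w) = RLF P Z Zb F Y B e3 i w + RLF P Z Zb F Y B e3 k w := rfl
      have a4 : 0 < mF2 P Z F i k w (F i w) (F k w) * (rF P Zb F Y i w (F i w) * rF P Zb F Y k w (F k w)) /
          mF2 P Z' F i k w (F i w) (F k w) := div_pos (mul_pos a1 (mul_pos (a3 i) (a3 k))) a2
      have e5 := Real.log_le_sub_one_of_pos (mul_pos a4 (Real.exp_pos (-gHF P F i k Z Zb Y B e3 w (F i w) (F k w))))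
      rw [Real.log_mul a4.ne' (Real.exp_pos _).ne', Real.log_exp, e4] at e5
      rw [ind_of hh, e7, e2, e4]
      have e6 := mul_le_mul_of_nonneg_left e5 (h0 w)
      linarith
    · have e1 : ind (rlH P F i k Z H w (F i w) (F k w)) = 0 := ind_not (fun h => hh ((rlH_iff P F i k hH hw).1 h))
      have e3 : W w (F i w, F k w) = 0 := by
        simp only [hW]
        rw [e1, zero_mul]
      rw [ind_not hh, e3]
      simp
  -- the new law is gone
  have s2 : ∀ w, P.ce Z' (fun u => W u (F i u, F k u)) w ≤ ∑ x ∈ vals (F i), ∑ y ∈ vals (F k),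
      mF2 P Z F i k w x y * (ind (rlH P F i k Z H w x y) *
        (rF P Zb F Y i w x * rF P Zb F Y k w y * Real.exp (-gHF P F i k Z Zb Y B e3 w x y))) := by
    intro w
    rw [← P.sum_pv (W := Z') (fun u => (F i u, F k u)) (F := W) hWf w]
    have h1 : ∀ c : φ × φ, P.pv Z' (fun u => (F i u, F k u)) w c * W w c ≤
        mF2 P Z F i k w c.1 c.2 * (ind (rlH P F i k Z H w c.1 c.2) *
        (rF P Zb F Y i w c.1 * rF P Zb F Y k w c.2 * Real.exp (-gHF P F i k Z Zb Y B e3 w c.1 c.2))) := by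
      intro c
      have n1 : 0 ≤ mF2 P Z F i k w c.1 c.2 := P.pv_nonneg _ _ _ _
      have n2 := mul_nonneg (hr i w c.1) (hr k w c.2)
      have h2 : P.pv Z' (fun u => (F i u, F k u)) w c = mF2 P Z' F i k w c.1 c.2 := rfl
      rw [h2]
      rcases (P.pv_nonneg Z' (fun u => (F i u, F k u)) w c).eq_or_lt with h3 | h3
      · rw [← h2, ← h3, zero_mul]
        exact mul_nonneg n1 (mul_nonneg (ind_nonneg _) (mul_nonneg n2 (Real.exp_pos _).le))
      · have h4 : mF2 P Z' F i k w c.1 c.2 ≠ 0 := h3.ne'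
        refine le_of_eq ?_
        simp only [hW]
        field_simp
    refine (Finset.sum_le_sum fun c _ => h1 c).trans ?_
    rw [← Finset.sum_product' (vals (F i)) (vals (F k)) (fun x y => mF2 P Z F i k w x y * (ind (rlH P F i k Z H w x y) *
        (rF P Zb F Y i w x * rF P Zb F Y k w y * Real.exp (-gHF P F i k Z Zb Y B e3 w x y))))]
    refine Finset.sum_le_sum_of_subset_of_nonneg (fun c hc => ?_) fun c _ _ => mul_nonneg (P.pv_nonneg _ _ _ _)
      (mul_nonneg (ind_nonneg _) (mul_nonneg (mul_nonneg (hr i w c.1) (hr k w c.2)) (Real.exp_pos _).le))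
    obtain ⟨u, rfl⟩ := exists_of_vals hc
    refine Finset.mem_product.2 ⟨?_, ?_⟩
    · show F i u ∈ vals (F i)
      unfold vals
      exact Finset.mem_image_of_mem _ (mem_univ u)
    · show F k u ∈ vals (F k)
      unfold vals
      exact Finset.mem_image_of_mem _ (mem_univ u)
  -- the regions
  have s3 : P.E (fun w => al w * P.ce Z' (fun u => W u (F i u, F k u)) w) ≤
      P.E (fun w => al w * (-(ind (B < tF P Z Zb Y i w ∧ B < tF P Z Zb Y k w) * KHF P Z Zb F Y i k H w) +
      3 * B * e3 * (ind (B < tF P Z Zb Y i w ∨ B < tF P Z Zb Y k w) * P.ce Z (fun u => ind (H u)) w) +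
      FHF P Z Zb F Y B H i w + FHF P Z Zb F Y B H k w + ACF P Z Zb F Y i k B H w + P.ce Z (fun u => ind (H u)) w)) := by
    refine P.E_mono fun w _ => mul_le_mul_of_nonneg_left ?_ (h0 w)
    refine (s2 w).trans ?_
    have h1 := reg_sum (P := P) (Z := Z) (Zb := Zb) F (Y := Y) i k he3 he31 heB hH w
    have h2 : ∑ x ∈ vals (F i), ∑ y ∈ vals (F k), mF2 P Z F i k w x y * (ind (rlH P F i k Z H w x y) *
        (rF P Zb F Y i w x * rF P Zb F Y k w y * Real.exp (-gHF P F i k Z Zb Y B e3 w x y) - 1)) =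
        ∑ x ∈ vals (F i), ∑ y ∈ vals (F k), mF2 P Z F i k w x y * (ind (rlH P F i k Z H w x y) *
        (rF P Zb F Y i w x * rF P Zb F Y k w y * Real.exp (-gHF P F i k Z Zb Y B e3 w x y))) -
        ∑ x ∈ vals (F i), ∑ y ∈ vals (F k), mF2 P Z F i k w x y * ind (rlH P F i k Z H w x y) := by
      rw [← Finset.sum_sub_distrib]
      refine Finset.sum_congr rfl fun x _ => ?_
      rw [← Finset.sum_sub_distrib]
      exact Finset.sum_congr rfl fun y _ => by ring
    rw [h2, sum_rlH P F i k hH w] at h1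
    linarith
  have s4 : P.E (fun w => al w * (-(ind (B < tF P Z Zb Y i w ∧ B < tF P Z Zb Y k w) * KHF P Z Zb F Y i k H w) +
      3 * B * e3 * (ind (B < tF P Z Zb Y i w ∨ B < tF P Z Zb Y k w) * P.ce Z (fun u => ind (H u)) w) +
      FHF P Z Zb F Y B H i w + FHF P Z Zb F Y B H k w + ACF P Z Zb F Y i k B H w + P.ce Z (fun u => ind (H u)) w)) =
      -P.E (fun w => al w * (ind (B < tF P Z Zb Y i w ∧ B < tF P Z Zb Y k w) * KHF P Z Zb F Y i k H w)) +
      3 * B * e3 * P.E (fun w => al w * (ind (B < tF P Z Zb Y i w ∨ B < tF P Z Zb Y k w) *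
        P.ce Z (fun u => ind (H u)) w)) +
      P.E (fun w => al w * FHF P Z Zb F Y B H i w) + P.E (fun w => al w * FHF P Z Zb F Y B H k w) +
      P.E (fun w => al w * ACF P Z Zb F Y i k B H w) + P.E (fun w => al w * P.ce Z (fun u => ind (H u)) w) := by
    rw [← P.E_neg, ← P.E_smul, ← P.E_add, ← P.E_add, ← P.E_add, ← P.E_add, ← P.E_add]
    exact P.E_congr fun w _ => by ring
  have s5 : P.E (fun w => al w * (P.ce Z (fun u => ind (H u)) w - ind (H w))) =
      P.E (fun w => al w * P.ce Z (fun u => ind (H u)) w) - P.E (fun w => al w * ind (H w)) := by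
    rw [← P.E_sub]
    exact P.E_congr fun w _ => by ring
  rw [s5]
  rw [s4] at s3
  linarith

/-- plain hot pairs: the hot potential -/
theorem kp_hot (hZ : ∀ j, Fac Z (Zb j)) (hV : ∀ j, Fac (fun u => (V u, Z u)) (Y j)) {B e3 : ℝ} (he3 : 0 ≤ e3)
    (he31 : e3 ≤ 1) (heB : 1 + e3 ≤ B) (t0 : ℝ) {al : Om → ℝ}
    (hal : Fac (fun u => (V u, Z u)) al) (h0 : ∀ w, 0 ≤ al w) :
    P.E (fun w => al w * (hph t0 (psP P F i k Z Zb w) -
        hph t0 (psP P F i k (fun u => (V u, Z u)) (fun j u => (Y j u, Zb j u)) w))) +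
      P.E (fun w => al w * (ind (B < tF P Z Zb Y i w ∧ B < tF P Z Zb Y k w) *
        KHF P Z Zb F Y i k (fun w => t0 < psP P F i k Z Zb w) w)) ≤
      P.E (fun w => al w * (ind (t0 < psP P F i k Z Zb w) * (RLF P Z Zb F Y B e3 i w + RLF P Z Zb F Y B e3 k w))) +
      3 * B * e3 * P.E (fun w => al w * (ind (B < tF P Z Zb Y i w ∨ B < tF P Z Zb Y k w) *
        P.ce Z (fun u => ind (t0 < psP P F i k Z Zb u)) w)) +
      P.E (fun w => al w * FHF P Z Zb F Y B (fun w => t0 < psP P F i k Z Zb w) i w) +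
      P.E (fun w => al w * FHF P Z Zb F Y B (fun w => t0 < psP P F i k Z Zb w) k w) +
      P.E (fun w => al w * ACF P Z Zb F Y i k B (fun w => t0 < psP P F i k Z Zb w) w) +
      P.E (fun w => al w * (P.ce Z (fun u => ind (t0 < psP P F i k Z Zb u)) w - ind (t0 < psP P F i k Z Zb w))) := by
  have hps : Fac (fun u => ((F i u, F k u), Z u)) (psP P F i k Z Zb) := by
    intro a b hab
    have e0 := (Prod.mk.inj hab)
    have e1 : F i a = F i b := congrArg Prod.fst e0.1
    have e2 : F k a = F k b := congrArg Prod.snd e0.1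
    have c1 : sp P (F i) (Zb i) a = sp P (F i) (Zb i) b :=
      sp_of_fac P (X := F i) (Z := Zb i) (Fac.refl (fun w => (F i w, Zb i w))) a b
        (by simp only [Prod.mk.injEq]; exact ⟨e1, hZ i a b e0.2⟩)
    have c2 : sp P (F k) (Zb k) a = sp P (F k) (Zb k) b :=
      sp_of_fac P (X := F k) (Z := Zb k) (Fac.refl (fun w => (F k w, Zb k w))) a b
        (by simp only [Prod.mk.injEq]; exact ⟨e2, hZ k a b e0.2⟩)
    have c3 : sp P (fun u => (F i u, F k u)) Z a = sp P (fun u => (F i u, F k u)) Z b :=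
      sp_of_fac P (X := fun u => (F i u, F k u)) (Z := Z) (Fac.refl (fun w => ((F i w, F k w), Z w))) a b hab
    show psP P F i k Z Zb a = psP P F i k Z Zb b
    unfold psP
    rw [c1, c2, c3]
  have hH : Fac (fun u => ((F i u, F k u), Z u)) (fun w => t0 < psP P F i k Z Zb w) := fun a b hab => by
    show (t0 < psP P F i k Z Zb a) = (t0 < psP P F i k Z Zb b)
    rw [hps a b hab]
  have h1 := kp_core P F i k hZ hV he3 he31 heB hH hal h0
  have h2 : P.E (fun w => al w * (hph t0 (psP P F i k Z Zb w) -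
        hph t0 (psP P F i k (fun u => (V u, Z u)) (fun j u => (Y j u, Zb j u)) w))) ≤
      P.E (fun w => al w * (ind (t0 < psP P F i k Z Zb w) * (psP P F i k Z Zb w -
        psP P F i k (fun u => (V u, Z u)) (fun j u => (Y j u, Zb j u)) w))) :=
    P.E_mono fun w _ => mul_le_mul_of_nonneg_left (hph_sub_le _ _ _) (h0 w)
  linarith

/-- phases: `H'` after the step, entry at `t0 + 1`, exit at `t0` -/
theorem kp_ph (hZ : ∀ j, Fac Z (Zb j)) (hV : ∀ j, Fac (fun u => (V u, Z u)) (Y j)) {B e3 : ℝ} (he3 : 0 ≤ e3)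
    (he31 : e3 ≤ 1) (heB : 1 + e3 ≤ B) (t0 : ℝ) {H H' : Om → Prop} (hH : Fac (fun u => ((F i u, F k u), Z u)) H)
    (h1 : ∀ w, H w → t0 < psP P F i k Z Zb w)
    (h2 : ∀ w, ¬ H w → H' w → t0 + 1 ≤ psP P F i k (fun u => (V u, Z u)) (fun j u => (Y j u, Zb j u)) w)
    (h3 : ∀ w, H w → ¬ H' w → psP P F i k (fun u => (V u, Z u)) (fun j u => (Y j u, Zb j u)) w ≤ t0) {al : Om → ℝ}
    (hal : Fac (fun u => (V u, Z u)) al) (h0 : ∀ w, 0 ≤ al w) :
    P.E (fun w => al w * ind (¬ H w ∧ H' w)) +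
      P.E (fun w => al w * (ind (H w) * hph t0 (psP P F i k Z Zb w) -
        ind (H' w) * hph t0 (psP P F i k (fun u => (V u, Z u)) (fun j u => (Y j u, Zb j u)) w))) +
      P.E (fun w => al w * (ind (B < tF P Z Zb Y i w ∧ B < tF P Z Zb Y k w) * KHF P Z Zb F Y i k H w)) ≤
      P.E (fun w => al w * (ind (H w) * (RLF P Z Zb F Y B e3 i w + RLF P Z Zb F Y B e3 k w))) +
      3 * B * e3 * P.E (fun w => al w * (ind (B < tF P Z Zb Y i w ∨ B < tF P Z Zb Y k w) *
        P.ce Z (fun u => ind (H u)) w)) +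
      P.E (fun w => al w * FHF P Z Zb F Y B H i w) + P.E (fun w => al w * FHF P Z Zb F Y B H k w) +
      P.E (fun w => al w * ACF P Z Zb F Y i k B H w) +
      P.E (fun w => al w * (P.ce Z (fun u => ind (H u)) w - ind (H w))) := by
  have h4 := kp_core P F i k hZ hV he3 he31 heB hH hal h0
  have h5 : P.E (fun w => al w * ind (¬ H w ∧ H' w)) +
      P.E (fun w => al w * (ind (H w) * hph t0 (psP P F i k Z Zb w) -
        ind (H' w) * hph t0 (psP P F i k (fun u => (V u, Z u)) (fun j u => (Y j u, Zb j u)) w))) ≤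
      P.E (fun w => al w * (ind (H w) * (psP P F i k Z Zb w -
        psP P F i k (fun u => (V u, Z u)) (fun j u => (Y j u, Zb j u)) w))) := by
    rw [← P.E_add]
    refine P.E_mono fun w _ => ?_
    rw [← mul_add]
    refine mul_le_mul_of_nonneg_left ?_ (h0 w)
    set a := psP P F i k Z Zb w with ha
    set b := psP P F i k (fun u => (V u, Z u)) (fun j u => (Y j u, Zb j u)) w with hb
    have hb1 := le_max_left (b - t0) 0
    have hb2 := le_max_right (b - t0) 0
    unfold hph
    by_cases hh : H w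
    · have k1 := h1 w hh
      rw [ind_of hh, ind_not (fun h : ¬ H w ∧ H' w => h.1 hh), max_eq_left (show 0 ≤ a - t0 by linarith)]
      by_cases hh' : H' w
      · rw [ind_of hh']
        linarith
      · have k2 := h3 w hh hh'
        rw [ind_not hh']
        linarith
    · rw [ind_not hh]
      by_cases hh' : H' w
      · have k2 := h2 w hh hh'
        rw [ind_of hh', ind_of (⟨hh, hh'⟩ : ¬ H w ∧ H' w)]
        linarith
      · rw [ind_not hh', ind_not (fun h : ¬ H w ∧ H' w => hh' h.2)]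
        linarith
  linarith

end one

end

end Pool.Agent.GMH.KP
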