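import Pool.Agent.GMH.TD15F
import Pool.Agent.GMH.Fin0
import Pool.Agent.GMH.TopFin
import Pool.Agent.GM.Top4

/-!
# GMH/Last: `HarmWU 3` and the four map theorem from `GoalC` over every run (helper11)
-/

set_option autoImplicit false

namespace Pool.Agent.GMH.CX

open Pool.Agent.GM Pool.Agent.GMH

/-- `HARM(3)` from the goal of one run -/
theorem harmWU_three (H0 : ∃ C : ℕ, ∀ A ≥ C, AllC A GoalC) : Harm.HarmWU 3 :=
  Harm.harmWU_of (TP.harm3_kin TD.thinDyn32 (kin_ctx H0)) (Fintype.card_fin 3)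

/-- the binary theorem for four maps from the goal of one run -/
theorem binTh_four (H0 : ∃ C : ℕ, ∀ A ≥ C, AllC A GoalC) : Pool.PWM.BinTh 4 := Top.binTh4_of3 (harmWU_three H0)

end Pool.Agent.GMH.CX
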