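import Pool.Agent.GMH.KDT1
import Pool.Agent.GMH.MVS

/-!
# GMH/NewM (helper21; item (5) of the joint private step): first passages inside the decided lives

* `pass_sum` : `b`, `m` stay inside a life: the passages from `not m` to `m` on `b` are at most the ends of the lives with `b`,
  `m`, and the final time (telescoping, exact);
* `new_sum` : the same with a passage at the end of the life (further condition `F`);
* `mB x v q` : STRONGLY MOVED, some family has births at least `x` in the class of the exact vertex `v` since the start of the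
  exact epoch; `mB_step` : it stays; `mB_jump` : one birth of `x` makes it; `mB_Ex`, `mB_Mv`, `mB_nu` : it is moved in the sense
  of `Ex`, `Mv`, and (unlisted) already at the public start;
* `newB_sum` : the passages to `mB` on `b` : a-free ends + private light values with `Mv` + public light values, listed or with
  `Mv` at the public start + final time.
-/

set_option autoImplicit false
set_option linter.unusedSectionVars false

namespace Pool.Agent.GMH.NewM

open Finset Pool.Agent.PWZ Pool.Agent.M3 Pool.Agent.GMH.TD Pool.Agent.GMH.CK Pool.Agent.GMH.MV Pool.Agent.GMH.KDT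

noncomputable section

/-! ### passages inside the lives -/

section pass

variable {Om : Type} [Fintype Om] (P : FP Om) {C : ℕ → ℕ → Om → Prop}

/-- **PASSAGES INSIDE THE LIVES** -/
theorem pass_sum (b m : ℕ → Om → Prop)
    (hb : ∀ q w, P.p w ≠ 0 → stg C (q + 1) w ≠ q + 1 → b q w → b (q + 1) w)
    (hm : ∀ q w, P.p w ≠ 0 → stg C (q + 1) w ≠ q + 1 → m q w → m (q + 1) w) (T : ℕ) :
    ∑ q ∈ range T, P.Pr (fun w => stg C (q + 1) w ≠ q + 1 ∧ b q w ∧ ¬ m q w ∧ m (q + 1) w) ≤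
      ∑ q ∈ range T, P.Pr (fun w => stg C (q + 1) w = q + 1 ∧ b q w ∧ m q w) + P.Pr (fun w => b T w ∧ m T w) := by
  classical
  have key : ∀ q, P.Pr (fun w => stg C (q + 1) w ≠ q + 1 ∧ b q w ∧ ¬ m q w ∧ m (q + 1) w) ≤
      P.Pr (fun w => b (q + 1) w ∧ m (q + 1) w) - P.Pr (fun w => b q w ∧ m q w) +
        P.Pr (fun w => stg C (q + 1) w = q + 1 ∧ b q w ∧ m q w) := by
    intro q
    unfold FP.Pr
    rw [← P.E_sub, ← P.E_add]
    refine P.E_mono fun w hw => ?_
    have n1 := ind_nonneg (b (q + 1) w ∧ m (q + 1) w)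
    have n2 := ind_nonneg (stg C (q + 1) w = q + 1 ∧ b q w ∧ m q w)
    by_cases he : stg C (q + 1) w = q + 1
    · rw [ind_not (fun h => h.1 he : ¬ (stg C (q + 1) w ≠ q + 1 ∧ b q w ∧ ¬ m q w ∧ m (q + 1) w))]
      by_cases h1 : b q w ∧ m q w
      · rw [ind_of h1, ind_of (show stg C (q + 1) w = q + 1 ∧ b q w ∧ m q w from ⟨he, h1⟩)]
        linarith
      · rw [ind_not h1]
        linarith
    · by_cases h1 : b q w ∧ m q w
      · have h2 := hb q w hw he h1.1
        have h3 := hm q w hw he h1.2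
        rw [ind_not (fun h => h.2.2.1 h1.2 : ¬ (stg C (q + 1) w ≠ q + 1 ∧ b q w ∧ ¬ m q w ∧ m (q + 1) w)), ind_of h1,
          ind_of (show b (q + 1) w ∧ m (q + 1) w from ⟨h2, h3⟩)]
        linarith
      · rw [ind_not h1]
        by_cases h4 : stg C (q + 1) w ≠ q + 1 ∧ b q w ∧ ¬ m q w ∧ m (q + 1) w
        · rw [ind_of h4, ind_of (show b (q + 1) w ∧ m (q + 1) w from ⟨hb q w hw he h4.2.1, h4.2.2.2⟩)]
          linarith
        · rw [ind_not h4]
          linarith
  have h0 := Finset.sum_le_sum fun q (_ : q ∈ range T) => key q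
  rw [Finset.sum_add_distrib, Finset.sum_range_sub (fun q => P.Pr (fun w => b q w ∧ m q w))] at h0
  have h1 : 0 ≤ P.Pr (fun w => b 0 w ∧ m 0 w) := P.E_nonneg fun _ _ => ind_nonneg _
  linarith

/-- **PASSAGES, also at the end of the life** : `m' q` the passage with the old start -/
theorem new_sum (b m m' F : ℕ → Om → Prop)
    (hb : ∀ q w, P.p w ≠ 0 → stg C (q + 1) w ≠ q + 1 → b q w → b (q + 1) w)
    (hm : ∀ q w, P.p w ≠ 0 → stg C (q + 1) w ≠ q + 1 → m q w → m (q + 1) w)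
    (hm' : ∀ q w, P.p w ≠ 0 → stg C (q + 1) w ≠ q + 1 → m' q w → m (q + 1) w) (T : ℕ) :
    ∑ q ∈ range T, P.Pr (fun w => F q w ∧ b q w ∧ ¬ m q w ∧ m' q w) ≤
      ∑ q ∈ range T, P.Pr (fun w => F q w ∧ b q w ∧ stg C (q + 1) w = q + 1) +
      (∑ q ∈ range T, P.Pr (fun w => stg C (q + 1) w = q + 1 ∧ b q w ∧ m q w) + P.Pr (fun w => b T w ∧ m T w)) := by
  refine le_trans ?_ (add_le_add le_rfl (pass_sum P b m hb hm T))
  rw [← Finset.sum_add_distrib]
  refine Finset.sum_le_sum fun q _ => ?_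
  refine le_trans (P.Pr_mono fun w hw h => ?_) (P.Pr_or_le _ _)
  by_cases he : stg C (q + 1) w = q + 1
  · exact Or.inl ⟨h.1, h.2.1, he⟩
  · exact Or.inr ⟨he, h.2.1, h.2.2.1, hm' q w hw he h.2.2.2⟩

end pass

/-! ### strongly moved -/

section str

variable {Om : Type} [Fintype Om] (M : MS Om)

/-- births of some family at least `x` between `ν` and `k`, class of the exact vertex `v` -/
def Bx (x : ℝ) (v : Fin 3) (ν k : ℕ) (w : Om) : Prop :=
  ∃ i, x ≤ ∑ j ∈ Ico ν k, bi M.P (CN M v) (LF M i) (YF M i) j w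

/-- **strongly moved** : births at least `x` since the start of the exact epoch -/
def mB (x : ℝ) (v : Fin 3) (q : ℕ) (w : Om) : Prop := Bx M x v (MV.tau M v q w) q w

variable {M}

theorem Bx_mono {x : ℝ} {v : Fin 3} {ν k l : ℕ} (h : k ≤ l) {w : Om} (hw : M.P.p w ≠ 0) (hB : Bx M x v ν k w) :
    Bx M x v ν l w := by
  obtain ⟨i, hi⟩ := hB
  refine ⟨i, hi.trans ?_⟩
  exact Finset.sum_le_sum_of_subset_of_nonneg (Finset.Ico_subset_Ico_right h) fun j _ _ => bi_nn v i j hw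

/-- it stays inside a life of the status clock -/
theorem tau_same {v : Fin 3} {q : ℕ} {w : Om} (he : tauS M v (q + 1) w ≠ q + 1) :
    MV.tau M v (q + 1) w = MV.tau M v q w := by
  rcases stg_or (C := Cx M v) q w with h1 | h1
  · exact absurd (stg_pos (Or.inl h1)) he
  · exact h1

theorem mB_step {x : ℝ} {v : Fin 3} {q : ℕ} {w : Om} (hw : M.P.p w ≠ 0) (he : tauS M v (q + 1) w ≠ q + 1)
    (h : mB M x v q w) : mB M x v (q + 1) w := by
  unfold mB
  rw [tau_same he]
  exact Bx_mono (Nat.le_succ q) hw h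

/-- one birth makes it -/
theorem mB_jump {x : ℝ} {v : Fin 3} {q : ℕ} {w : Om} (hw : M.P.p w ≠ 0) {i : Finset (Fin 3) × Finset (Fin 3)}
    (h : x ≤ bi M.P (CN M v) (LF M i) (YF M i) q w) : Bx M x v (MV.tau M v q w) (q + 1) w := by
  refine ⟨i, h.trans ?_⟩
  have h1 : MV.tau M v q w ≤ q := stg_le q w
  exact Finset.single_le_sum (f := fun j => bi M.P (CN M v) (LF M i) (YF M i) j w) (fun j _ => bi_nn v i j hw)
    (mem_Ico.2 ⟨h1, Nat.lt_succ_self q⟩)

/-- births make moved -/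
theorem Bx_Ex {x : ℝ} {v : Fin 3} {ν k : ℕ} {w : Om} (hx : M.d1 ≤ x) (h : Bx M x v ν k w) : Ex M v ν k w := by
  obtain ⟨i, hi⟩ := h
  have hd1 := M.hd1
  have h1 : ν < k := by
    by_contra hc
    rw [Finset.Ico_eq_empty (by omega), Finset.sum_empty] at hi
    linarith
  exact Or.inl ⟨k, h1, le_rfl, i, Or.inr (hx.trans hi)⟩

theorem mB_Ex {x : ℝ} {v : Fin 3} {q : ℕ} {w : Om} (hx : M.d1 ≤ x) (h : mB M x v q w) :
    Ex M v (MV.tau M v q w) q w := Bx_Ex hx h

/-- strongly moved: the thin triple is moved -/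
theorem mB_Mv {x : ℝ} {v : Fin 3} {q : ℕ} {w : Om} (hw : M.P.p w ≠ 0) (hx : M.d1 ≤ x) (h : mB M x v q w) :
    Mv M v q w := kda_pos (TH M q) hw (mB_Ex hx h)

/-- unlisted: moved already at the public start -/
theorem mB_nu {x : ℝ} {v : Fin 3} {q : ℕ} {w : Om} (hw : M.P.p w ≠ 0) (hx : M.d1 + M.d0 ≤ x)
    (hl : ¬ Lst M (nu M q w) q w) (h : mB M x v q w) : Mv M v (nu M q w) w := by
  have hns : nu M q w ≤ q := stg_le q w
  have ht := MV4.not_tau hns hl v
  have h1 : MV.tau M v (nu M q w) w ≤ nu M q w := stg_le _ w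
  obtain ⟨i, hi⟩ := h
  have h2 := (pub_lx v le_rfl hns hw hl i).2
  rw [← Finset.sum_Ico_consecutive _ (by rw [ht]; exact h1) hns] at hi
  refine kda_pos (TH M (nu M q w)) hw (Bx_Ex (x := M.d1) le_rfl ⟨i, ?_⟩)
  rw [← ht]
  linarith

/-- **FIRST STRONG MOVES OF THE DECIDED LIVES** : `b` any event which stays inside the lives of `v` (decided, in the relation of
the life); a passage from not strongly moved to births at least `x` -/
theorem newB_sum (v : Fin 3) {x : ℝ} (hx : M.d1 + M.d0 ≤ x) (b F : ℕ → Om → Prop)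
    (hb : ∀ q w, M.P.p w ≠ 0 → tauS M v (q + 1) w ≠ q + 1 → b q w → b (q + 1) w) (T : ℕ) :
    ∑ q ∈ range T, M.P.Pr (fun w => F q w ∧ b q w ∧ ¬ mB M x v q w ∧ Bx M x v (MV.tau M v q w) (q + 1) w) ≤
      ∑ q ∈ range T, M.P.Pr (fun w => F q w ∧ b q w ∧ tauS M v (q + 1) w = q + 1) +
      ∑ q ∈ range T, M.P.Pr (fun w => tauS M v (q + 1) w = q + 1 ∧ ¬ lt5 M (CN M v) q w ∧ ¬ lt5 M M.NP q w ∧ b q w ∧
        mB M x v q w) +
      ∑ q ∈ range T, M.P.Pr (fun w => lt5 M (CN M v) q w ∧ ¬ lt5 M M.NP q w ∧ b q w ∧ Mv M v q w) +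
      ∑ q ∈ range T, M.P.Pr (fun w => lt5 M M.NP q w ∧ b q w ∧ Lst M (nu M q w) q w) +
      ∑ q ∈ range T, M.P.Pr (fun w => lt5 M M.NP q w ∧ b q w ∧ ¬ Lst M (nu M q w) q w ∧ Mv M v (nu M q w) w) +
      M.P.Pr (fun w => b T w ∧ mB M x v T w) := by
  have hd0 := M.hd0
  have h0 := new_sum M.P (C := CS M v) b (mB M x v) (fun q w => Bx M x v (MV.tau M v q w) (q + 1) w) F hb
    (fun q w hw he h => mB_step hw he h) (fun q w _ he h => by
      show Bx M x v (MV.tau M v (q + 1) w) (q + 1) w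
      rw [tau_same he]
      exact h) T
  refine h0.trans ?_
  have h1 : ∑ q ∈ range T, M.P.Pr (fun w => stg (CS M v) (q + 1) w = q + 1 ∧ b q w ∧ mB M x v q w) ≤
      ∑ q ∈ range T, M.P.Pr (fun w => tauS M v (q + 1) w = q + 1 ∧ ¬ lt5 M (CN M v) q w ∧ ¬ lt5 M M.NP q w ∧ b q w ∧
        mB M x v q w) +
      ∑ q ∈ range T, M.P.Pr (fun w => lt5 M (CN M v) q w ∧ ¬ lt5 M M.NP q w ∧ b q w ∧ Mv M v q w) +
      ∑ q ∈ range T, M.P.Pr (fun w => lt5 M M.NP q w ∧ b q w ∧ Lst M (nu M q w) q w) +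
      ∑ q ∈ range T, M.P.Pr (fun w => lt5 M M.NP q w ∧ b q w ∧ ¬ Lst M (nu M q w) q w ∧ Mv M v (nu M q w) w) := by
    rw [← Finset.sum_add_distrib, ← Finset.sum_add_distrib, ← Finset.sum_add_distrib]
    refine Finset.sum_le_sum fun q _ => ?_
    refine le_trans (M.P.Pr_mono fun w hw h => ?_) ((M.P.Pr_or_le _ _).trans (add_le_add ((M.P.Pr_or_le _ _).trans
      (add_le_add (M.P.Pr_or_le _ _) le_rfl)) le_rfl))
    obtain ⟨g1, g2, g3⟩ := h
    by_cases a1 : lt5 M M.NP q w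
    · by_cases a2 : Lst M (nu M q w) q w
      · exact Or.inl (Or.inr ⟨a1, g2, a2⟩)
      · exact Or.inr ⟨a1, g2, a2, mB_nu hw hx a2 g3⟩
    · by_cases a3 : lt5 M (CN M v) q w
      · exact Or.inl (Or.inl (Or.inr ⟨a3, a1, g2, mB_Mv hw (by linarith) g3⟩))
      · exact Or.inl (Or.inl (Or.inl ⟨g1, a3, a1, g2, g3⟩))
  unfold tauS at h1 ⊢
  linarith

end str

end

end Pool.Agent.GMH.NewM
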