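import Pool.Agent.GMH.RZ7
import Pool.Agent.GMH.NewM

/-!
# GMH/LtB (helper21): a light private value of the vertex `i` is a birth in the class of every other exact vertex `j`

Private step `q`, `i ≠ j`: the letter of `i` at `q + 1` is light (probability less than half given the old letter and the public
information). Then the birth of the family `({i}, ∅)` in the class of the exact vertex `j` is at least `1/2`, except with
relative probability `24 √((X0 + 1) / N1)` (saturation of the thin letters of the state `5 (t + 1)` under the events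
`new letter of i`, `old letter of i` of the hidden point).
* `bad_le` : abstract lemma (two letters, one of them in two versions); `cell_bad` : in a public cell; `glob_bad` : global;
* `lt_birth` : the birth; `lt_sum` : the sum over the private steps, `not Bx (1/2) j (tau j q) (q + 1)` (`GMH/NewM`).
-/

set_option autoImplicit false
set_option linter.unusedSectionVars false

namespace Pool.Agent.GMH.LtB

open Finset Pool.Agent.PWZ Pool.Agent.M3 Pool.Agent.GM Pool.Agent.GM.Harm Pool.Agent.GMH Pool.Agent.GMH.NZ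
open Pool.Agent.GMH.V3 Pool.Agent.GMH.TD Pool.Agent.GMH.TP Pool.Agent.GMH.Dy Pool.Agent.GMH.MV Pool.Agent.GMH.MVI
open Pool.Agent.GMH.CK Pool.Agent.GMH.RZ Pool.Agent.GMH.Gdy

noncomputable section

section abs

variable {Om : Type*} [Fintype Om] (P : FP Om) {κ κ0 η : Type*}

/-- a function of two letters -/
theorem E_two (I : Om → κ) (Y : Om → η) (a : κ → η → ℝ) :
    P.E (fun w => a (I w) (Y w)) = ∑ z ∈ vals I, ∑ y ∈ vals Y, a z y * P.Pr (fun w => I w = z ∧ Y w = y) := by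
  have e1 : ∀ z ∈ vals I, ∑ y ∈ vals Y, a z y * P.Pr (fun w => I w = z ∧ Y w = y) =
      P.E (fun w => ind (I w = z) * a z (Y w)) := by
    intro z _
    have e2 : ∀ y ∈ vals Y, a z y * P.Pr (fun w => I w = z ∧ Y w = y) =
        P.E (fun w => ind (I w = z) * (ind (Y w = y) * a z y)) := by
      intro y _
      unfold FP.Pr
      rw [← P.E_smul]
      refine P.E_congr fun w _ => ?_
      rw [ind_and]
      ring
    rw [Finset.sum_congr rfl e2, ← P.E_sum]
    refine P.E_congr fun w _ => ?_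
    rw [← Finset.mul_sum, FP.sum_vals Y (fun y => a z y) w]
  rw [Finset.sum_congr rfl e1, ← P.E_sum]
  refine P.E_congr fun w _ => ?_
  exact (FP.sum_vals I (fun z => a z (Y w)) w).symm

/-- **one letter in two versions, another letter** : large density of the new version against the old one -/
theorem bad_le (I : Om → κ) (I0 : κ → κ0) (Y : Om → η) {ε : ℝ} (A : κ → Prop)
    (h1 : ∀ z ∈ vals I, A z → ∑ y ∈ vals Y, |P.Pr (fun w => I w = z ∧ Y w = y) -
      P.Pr (fun w => I w = z) * P.Pr (fun w => Y w = y)| ≤ ε * P.Pr (fun w => I w = z))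
    (h2 : ∀ z ∈ vals I, A z → ∑ y ∈ vals Y, |P.Pr (fun w => I0 (I w) = I0 z ∧ Y w = y) -
      P.Pr (fun w => I0 (I w) = I0 z) * P.Pr (fun w => Y w = y)| ≤ ε * P.Pr (fun w => I0 (I w) = I0 z)) :
    P.Pr (fun u => A (I u) ∧ 6 / 5 * (P.Pr (fun w => I w = I u) * P.Pr (fun w => I0 (I w) = I0 (I u) ∧ Y w = Y u)) ≤
      P.Pr (fun w => I w = I u ∧ Y w = Y u) * P.Pr (fun w => I0 (I w) = I0 (I u))) ≤
      12 * ε * P.Pr (fun u => A (I u)) := by
  classical
  set p : κ → ℝ := fun z => P.Pr (fun w => I w = z) with hp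
  set p0 : κ → ℝ := fun z => P.Pr (fun w => I0 (I w) = I0 z) with hp0
  set r : η → ℝ := fun y => P.Pr (fun w => Y w = y) with hr
  set pp : κ → η → ℝ := fun z y => P.Pr (fun w => I w = z ∧ Y w = y) with hpp
  set pq : κ → η → ℝ := fun z y => P.Pr (fun w => I0 (I w) = I0 z ∧ Y w = y) with hpq
  have n1 : ∀ z y, 0 ≤ pp z y := fun z y => P.Pr_nonneg _
  have n2 : ∀ z, 0 ≤ p z := fun z => P.Pr_nonneg _
  have n3 : ∀ z, 0 ≤ p0 z := fun z => P.Pr_nonneg _
  have e1 : P.Pr (fun u => A (I u) ∧ 6 / 5 * (p (I u) * pq (I u) (Y u)) ≤ pp (I u) (Y u) * p0 (I u)) =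
      ∑ z ∈ vals I, ∑ y ∈ vals Y, ind (A z ∧ 6 / 5 * (p z * pq z y) ≤ pp z y * p0 z) * pp z y :=
    E_two P I Y (fun z y => ind (A z ∧ 6 / 5 * (p z * pq z y) ≤ pp z y * p0 z))
  have e2 : P.Pr (fun u => A (I u)) = ∑ z ∈ vals I, ind (A z) * p z := by
    unfold FP.Pr
    have h3 : P.E (fun u => ind (A (I u))) = P.E (fun u => ∑ z ∈ vals I, ind (I u = z) * ind (A z)) :=
      P.E_congr fun u _ => (FP.sum_vals I (fun z => ind (A z)) u).symm
    rw [h3, P.E_sum]
    refine Finset.sum_congr rfl fun z _ => ?_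
    rw [P.E_mul_const, mul_comm]
    rfl
  show P.Pr (fun u => A (I u) ∧ 6 / 5 * (p (I u) * pq (I u) (Y u)) ≤ pp (I u) (Y u) * p0 (I u)) ≤ _
  rw [e1, e2, Finset.mul_sum]
  refine Finset.sum_le_sum fun z hz => ?_
  by_cases hA : A z
  · rw [ind_of hA, one_mul]
    have g1 := h1 z hz hA
    have g2 := h2 z hz hA
    -- one value of the other letter
    have key : ∀ y, ind (A z ∧ 6 / 5 * (p z * pq z y) ≤ pp z y * p0 z) * pp z y ≤
        6 * |pp z y - p z * r y| + 6 * (p z / p0 z * |pq z y - p0 z * r y|) := by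
      intro y
      have k0 : 0 ≤ 6 * |pp z y - p z * r y| + 6 * (p z / p0 z * |pq z y - p0 z * r y|) := by
        have := div_nonneg (n2 z) (n3 z)
        positivity
      by_cases hb : A z ∧ 6 / 5 * (p z * pq z y) ≤ pp z y * p0 z
      · rw [ind_of hb, one_mul]
        rcases (n3 z).eq_or_lt with h0 | h0
        · -- probability zero
          have h4 : p z ≤ p0 z := P.Pr_mono fun w _ hh => congrArg I0 hh
          have h5 : pp z y ≤ p z := P.Pr_mono fun w _ hh => hh.1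
          have h6 : pp z y = 0 := le_antisymm (by linarith) (n1 z y)
          rw [h6]
          rw [h6] at k0
          exact k0
        · have h4 : p z * pq z y / p0 z ≤ 5 / 6 * pp z y := by
            rw [div_le_iff₀ h0]
            linarith [hb.2]
          have h5 : pp z y ≤ 6 * (pp z y - p z * pq z y / p0 z) := by linarith
          have h6 : pp z y - p z * pq z y / p0 z = (pp z y - p z * r y) - p z / p0 z * (pq z y - p0 z * r y) := by
            field_simp
            ring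
          have h7 := le_abs_self (pp z y - p z * r y)
          have h8 : -(p z / p0 z * (pq z y - p0 z * r y)) ≤ p z / p0 z * |pq z y - p0 z * r y| := by
            rw [← mul_neg]
            exact mul_le_mul_of_nonneg_left (neg_le_abs _) (div_nonneg (n2 z) (n3 z))
          rw [h6] at h5
          linarith
      · rw [ind_not hb, zero_mul]
        exact k0
    refine (Finset.sum_le_sum fun y _ => key y).trans ?_
    rw [Finset.sum_add_distrib, ← Finset.mul_sum, ← Finset.mul_sum, ← Finset.mul_sum]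
    have h3 : p z / p0 z * ∑ y ∈ vals Y, |pq z y - p0 z * r y| ≤ ε * p z := by
      refine (mul_le_mul_of_nonneg_left g2 (div_nonneg (n2 z) (n3 z))).trans ?_
      rcases (n3 z).eq_or_lt with h0 | h0
      · have h4 : p z ≤ p0 z := P.Pr_mono fun w _ hh => congrArg I0 hh
        have h5 : p z = 0 := le_antisymm (by linarith) (n2 z)
        rw [h5]
        simp
      · refine le_of_eq ?_
        show p z / p0 z * (ε * p0 z) = ε * p z
        field_simp
    have h4 : ∑ y ∈ vals Y, |pp z y - p z * r y| ≤ ε * p z := g1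
    linarith
  · rw [ind_not hA, zero_mul, mul_zero]
    refine le_of_eq (Finset.sum_eq_zero fun y _ => ?_)
    rw [ind_not (fun h => hA h.1), zero_mul]

end abs

/-! ### in a public cell -/

section cell

variable {X β γ φ υ : Type} [Fintype X] [Fintype β] [Fintype φ] [Nonempty X] [Nonempty β]
variable {D : HD (Fin 3) X β γ φ} {al : ℝ} {h : D.Thick al} {v : ℕ → Finset (Fin 3) → X → (Fin 3 → β) → υ}

/-- two letters of different levels -/
theorem Pc_LL3 (hv : Codes D v) (t : ℕ) {s0 s1 s n : ℕ} (hs : s ≤ n + 1) (hs0 : s0 ≤ s) (hs1 : s1 ≤ s)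
    (c : Pt (Fin 3) X β φ) {i k : Fin 3} (hik : i ≠ k) (z z' : β × List υ) :
    (Pc h v t s n c).Pr (fun w => XL v s0 i w = z ∧ XL v s1 k w = z') =
      mC D n c i z.1 * (mC D n c k z'.1 * (muC D v s n c).Pr fun x => Gl v s0 c i z x ∧ Gl v s1 c k z' x) := by
  have h1 := Pc_E (h := h) hv t hs c (fun x => ind (Gl v s0 c i z x ∧ Gl v s1 c k z' x))
    (fun j b => (if j = i then ind (b = z.1) else 1) * (if j = k then ind (b = z'.1) else 1))
  have h2 : ∀ j, (nuC D n c j).E (fun b => (if j = i then ind (b = z.1) else 1) * (if j = k then ind (b = z'.1) else 1)) =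
      (if j = i then mC D n c i z.1 else 1) * (if j = k then mC D n c k z'.1 else 1) := by
    intro j
    by_cases hj : j = i
    · subst hj
      simp only [if_true, hik, if_false, mul_one]; rfl
    · by_cases hj' : j = k
      · subst hj'
        simp only [if_true, hj, if_false, one_mul]; rfl
      · simp only [hj, hj', if_false, one_mul]; exact FP.E_const _ _
  rw [Finset.prod_congr rfl fun j _ => h2 j, Finset.prod_mul_distrib, Finset.prod_ite_eq' univ i,
    Finset.prod_ite_eq' univ k, if_pos (mem_univ i), if_pos (mem_univ k)] at h1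
  have h3 : mC D n c i z.1 * (mC D n c k z'.1 *
      (muC D v s n c).Pr fun x => Gl v s0 c i z x ∧ Gl v s1 c k z' x) =
      (muC D v s n c).E (fun x => ind (Gl v s0 c i z x ∧ Gl v s1 c k z' x)) * (mC D n c i z.1 * mC D n c k z'.1) := by
    unfold FP.Pr; ring
  rw [h3]
  refine Eq.trans ?_ h1
  refine FP.E_congr _ fun w hw => ?_
  have hs' := Pc_supp hv hs hw
  rw [Finset.prod_mul_distrib, Finset.prod_ite_eq' univ i (fun j => ind (w.2.1 j = z.1)),
    Finset.prod_ite_eq' univ k (fun j => ind (w.2.1 j = z'.1)), if_pos (mem_univ k), if_pos (mem_univ i), ind_and,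
    ind_cg (XL_iff0 hv hs hs0 hs' i z), ind_cg (XL_iff0 hv hs hs1 hs' k z'), ind_and, ind_and, ind_and]
  ring

omit [Fintype X] [Fintype β] [Fintype φ] [Nonempty X] [Nonempty β] in
/-- the older letter -/
theorem take_XL {a0 a1 : ℕ} (ha : a0 ≤ a1) (i : Fin 3) (w : Pt (Fin 3) X β φ) :
    ((XL v a1 i w).1, (XL v a1 i w).2.take a0) = XL v a0 i w := by
  unfold XL Um
  refine Prod.ext rfl ?_
  show ((List.range a1).map _).take a0 = (List.range a0).map _
  rw [← List.map_take, List.take_range, min_eq_left ha]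

end cell

section run

variable {X β γ φ : Type} [Fintype X] [Fintype β] [Fintype φ] [Nonempty X] [Nonempty β]
variable {D : HD (Fin 3) X β γ φ} {al : ℝ} {h : D.Thick al}
  {v : ℕ → Finset (Fin 3) → X → (Fin 3 → β) → Pt (Fin 3) X β φ} {N : Finset (Fin 3) → ℝ} {S : Finset (Finset (Fin 3))}
  {N1 : ℝ}

/-- **IN A PUBLIC CELL** -/
theorem cell_bad (R : Run h N S (AdmDep D) v) (hp : Prc N S N1) {t a0 a1 b1 : ℕ} (ha : a0 ≤ a1) (ha1 : a1 ≤ t + 1)
    (hb1 : b1 ≤ t + 1) {c : Pt (Fin 3) X β φ} (hc : (D.P h 0).p c ≠ 0) {i j : Fin 3} (hij : i ≠ j) {X0 : ℝ}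
    (A : β × List (Pt (Fin 3) X β φ) → Prop)
    (hA : ∀ z, A z → Real.exp (-X0) ≤ (muC D v (t + 1) t c).Pr (Gl v a1 c i z)) :
    (Pc h v 0 (t + 1) t c).Pr (fun u => A (XL v a1 i u) ∧
      6 / 5 * ((Pc h v 0 (t + 1) t c).Pr (fun w => XL v a1 i w = XL v a1 i u) *
        (Pc h v 0 (t + 1) t c).Pr (fun w => XL v a0 i w = XL v a0 i u ∧ XL v b1 j w = XL v b1 j u)) ≤
      (Pc h v 0 (t + 1) t c).Pr (fun w => XL v a1 i w = XL v a1 i u ∧ XL v b1 j w = XL v b1 j u) *
        (Pc h v 0 (t + 1) t c).Pr (fun w => XL v a0 i w = XL v a0 i u)) ≤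
      12 * Real.sqrt (4 * (X0 + 1) / N1) * (Pc h v 0 (t + 1) t c).Pr (fun u => A (XL v a1 i u)) := by
  have hv := R.codes
  have hs : t + 1 ≤ t + 1 := le_rfl
  set P := Pc h v 0 (t + 1) t c with hP
  have g1 : ∀ (a b : ℕ) (_ : a ≤ t + 1) (_ : b ≤ t + 1) (z : β × List (Pt (Fin 3) X β φ)),
      Real.exp (-X0) ≤ (muC D v (t + 1) t c).Pr (Gl v a c i z) →
      ∑ y ∈ vals (XL (φ := φ) v b j), |P.Pr (fun w => XL v a i w = z ∧ XL v b j w = y) -
        P.Pr (fun w => XL v a i w = z) * P.Pr (fun w => XL v b j w = y)| ≤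
        Real.sqrt (4 * (X0 + 1) / N1) * P.Pr (fun w => XL v a i w = z) := by
    intro a b haa hbb z hz
    have e1 : ∀ y, P.Pr (fun w => XL v a i w = z ∧ XL v b j w = y) = mC D t c i z.1 * (mC D t c j y.1 *
        (muC D v (t + 1) t c).Pr fun x => Gl v a c i z x ∧ Gl v b c j y x) := fun y =>
      Pc_LL3 (h := h) hv 0 hs haa hbb c hij z y
    have e2 : P.Pr (fun w => XL v a i w = z) = mC D t c i z.1 * (muC D v (t + 1) t c).Pr (Gl v a c i z) :=
      Pc_lw0 (h := h) hv 0 hs haa c i z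
    have e3 : ∀ y, P.Pr (fun w => XL v b j w = y) = mC D t c j y.1 * (muC D v (t + 1) t c).Pr (Gl v b c j y) := fun y =>
      Pc_lw0 (h := h) hv 0 hs hbb c j y
    have e4 : ∑ y ∈ vals (XL (φ := φ) v b j), |P.Pr (fun w => XL v a i w = z ∧ XL v b j w = y) -
        P.Pr (fun w => XL v a i w = z) * P.Pr (fun w => XL v b j w = y)| =
        mC D t c i z.1 * dv0 D v b (t + 1) t c j (Gl v a c i z) := by
      unfold dv0
      rw [Finset.mul_sum]
      refine Finset.sum_congr rfl fun y _ => ?_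
      rw [e1, e2, e3]
      have e5 : mC D t c i z.1 * (mC D t c j y.1 * (muC D v (t + 1) t c).Pr fun x => Gl v a c i z x ∧ Gl v b c j y x) -
          mC D t c i z.1 * (muC D v (t + 1) t c).Pr (Gl v a c i z) *
            (mC D t c j y.1 * (muC D v (t + 1) t c).Pr (Gl v b c j y)) =
          (mC D t c i z.1 * mC D t c j y.1) * ((muC D v (t + 1) t c).Pr (fun x => Gl v a c i z x ∧ Gl v b c j y x) -
            (muC D v (t + 1) t c).Pr (Gl v a c i z) * (muC D v (t + 1) t c).Pr (Gl v b c j y)) := by ring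
      rw [e5, abs_mul, abs_of_nonneg (mul_nonneg (mC_nonneg t c i z.1) (mC_nonneg t c j y.1)), mul_assoc]
    rw [e4, e2]
    have h5 := mul_le_mul_of_nonneg_left (dv0_le R hp hbb hc j (E := Gl v a c i z) hz) (mC_nonneg (D := D) t c i z.1)
    refine h5.trans (le_of_eq ?_)
    ring
  have h0 := bad_le P (XL (φ := φ) v a1 i) (fun z => (z.1, z.2.take a0)) (XL (φ := φ) v b1 j)
    (ε := Real.sqrt (4 * (X0 + 1) / N1)) A (fun z _ hz => g1 a1 b1 ha1 hb1 z (hA z hz)) (fun z hzv hz => by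
      simp only [take_XL ha]
      refine g1 a0 b1 (ha.trans ha1) hb1 _ ((hA z hz).trans ?_)
      refine FP.Pr_mono _ fun x _ hx => ?_
      have h6 : Um v a1 {i} x (Function.update c.2.1 i z.1) = z.2 := hx
      show Um v a0 {i} x (Function.update c.2.1 i z.1) = z.2.take a0
      rw [← h6]
      unfold Um
      rw [← List.map_take, List.take_range, min_eq_left ha])
  simp only [take_XL ha] at h0
  exact h0

/-- letters of an older level, in the cell of another point -/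
theorem Gl_old (hv : Codes D v) {a s n : ℕ} (ha : a ≤ s) (hs : s ≤ n + 1) {u w : Pt (Fin 3) X β φ}
    (hu : NP D v s n u = NP D v s n w) (i : Fin 3) (z : β × List (Pt (Fin 3) X β φ)) : Gl v a u i z = Gl v a w i z := by
  obtain ⟨_, h3⟩ := (NP_iff hv hs w u).1 hu
  funext x
  unfold Gl
  have h4 : Um v a {i} x (Function.update u.2.1 i z.1) = Um v a {i} x (Function.update w.2.1 i z.1) := by
    refine Um_codes hv (ha.trans hs) {i} x (fun j hj => ?_) fun j => ?_
    · rw [Finset.mem_singleton.1 hj, Function.update_self, Function.update_self]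
    · by_cases hj : j = i
      · subst hj
        rw [Function.update_self, Function.update_self]
      · rw [Function.update_of_ne hj, Function.update_of_ne hj]
        exact h3 j
  rw [h4]

variable (h v) in
/-- large density of the pair (new letter of `i`, letter of `j`) against the pair with the old letter of `i` -/
def badG (a0 a1 b1 s n : ℕ) (i j : Fin 3) (u : Pt (Fin 3) X β φ) : Prop :=
  6 / 5 * ((D.P h 0).m (fun w => (XL v a1 i w, NP D v s n w)) u *
    (D.P h 0).m (fun w => ((XL v a0 i w, XL v b1 j w), NP D v s n w)) u) ≤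
  (D.P h 0).m (fun w => ((XL v a1 i w, XL v b1 j w), NP D v s n w)) u *
    (D.P h 0).m (fun w => (XL v a0 i w, NP D v s n w)) u

/-- **GLOBAL** -/
theorem glob_bad (R : Run h N S (AdmDep D) v) (hp : Prc N S N1) {t a0 a1 b1 : ℕ} (ha : a0 ≤ a1) (ha1 : a1 ≤ t + 1)
    (hb1 : b1 ≤ t + 1) {i j : Fin 3} (hij : i ≠ j) {X0 : ℝ} {A : Pt (Fin 3) X β φ → Prop}
    (hA : ∀ a b, XL v a1 i a = XL v a1 i b → NP D v (t + 1) t a = NP D v (t + 1) t b → A a → A b)
    (hal : ∀ u, (D.P h 0).p u ≠ 0 → A u → Real.exp (-X0) ≤ (muC D v (t + 1) t u).Pr (Gl v a1 u i (XL v a1 i u))) :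
    (D.P h 0).Pr (fun u => A u ∧ badG h v a0 a1 b1 (t + 1) t i j u) ≤
      12 * Real.sqrt (4 * (X0 + 1) / N1) * (D.P h 0).Pr A := by
  have hv := R.codes
  have hs : t + 1 ≤ t + 1 := le_rfl
  set P := D.P h 0 with hP
  set Nd : Pt (Fin 3) X β φ → List (Pt (Fin 3) X β φ) × (γ × (Fin 3 → γ)) := NP D v (t + 1) t with hNd
  have e0 : ∀ B : Pt (Fin 3) X β φ → Prop, P.Pr B = P.E (P.ce Nd fun u => ind (B u)) := fun B => (P.E_ce Nd _).symm
  rw [e0 (fun u => A u ∧ badG h v a0 a1 b1 (t + 1) t i j u), e0 A, ← P.E_smul]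
  refine P.E_mono fun w hw => ?_
  rw [P.ce_eq_cond Nd _ hw, P.ce_eq_cond Nd _ hw]
  set A' : β × List (Pt (Fin 3) X β φ) → Prop := fun z => ∃ u, P.p u ≠ 0 ∧ Nd u = Nd w ∧ XL v a1 i u = z ∧ A u with hA'
  have h1 := cell_bad R hp ha ha1 hb1 hw hij (X0 := X0) A' (fun z hz => by
    obtain ⟨u, h2, h3, h4, h5⟩ := hz
    have h6 := hal u h2 h5
    rw [muC_cell hv hs h3, Gl_old hv ha1 hs h3, h4] at h6
    exact h6)
  have hc : Pc h v 0 (t + 1) t w = P.cond (fun u => Nd u = Nd w) := rfl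
  have hne : P.Pr (fun u => Nd u = Nd w) ≠ 0 := (P.m_pos Nd hw).ne'
  have hpos : 0 < P.m Nd w := P.m_pos Nd hw
  have hm : ∀ {κ : Type _} (f : Pt (Fin 3) X β φ → κ) {u : Pt (Fin 3) X β φ}, Nd u = Nd w →
      P.m (fun x => (f x, Nd x)) u = P.m Nd w * (Pc h v 0 (t + 1) t w).Pr (fun x => f x = f u) := by
    intro κ f u hu
    have h2 : (Pc h v 0 (t + 1) t w).Pr (fun x => f x = f u) = (P.cond (fun u => Nd u = Nd w)).m f u := rfl
    rw [h2, P.cond_m_fibre f Nd hw hu]
    field_simp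
  have hsup : ∀ u, (P.cond (fun u => Nd u = Nd w)).p u ≠ 0 → Nd u = Nd w ∧ P.p u ≠ 0 := fun u hu =>
    (FP.cond_p_ne hne).1 hu
  have hAA : ∀ u, (P.cond (fun u => Nd u = Nd w)).p u ≠ 0 → (A u ↔ A' (XL v a1 i u)) := by
    intro u hu
    obtain ⟨h3, h4⟩ := hsup u hu
    constructor
    · intro h5
      exact ⟨u, h4, h3, rfl, h5⟩
    · rintro ⟨u', _, h6, h7, h8⟩
      exact hA u' u h7 (h6.trans h3.symm) h8
  rw [hc] at h1
  refine le_trans (FP.Pr_mono _ fun u hu hh => ?_) (h1.trans (le_of_eq ?_))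
  · obtain ⟨h3, h4⟩ := hsup u hu
    refine ⟨(hAA u hu).1 hh.1, ?_⟩
    have h5 := hh.2
    unfold badG at h5
    rw [hm (fun x => XL v a1 i x) h3, hm (fun x => (XL v a0 i x, XL v b1 j x)) h3, hm (fun x => (XL v a1 i x, XL v b1 j x)) h3,
      hm (fun x => XL v a0 i x) h3, hc] at h5
    simp only [Prod.mk.injEq] at h5
    have h6 : 0 < P.m Nd w * P.m Nd w := mul_pos hpos hpos
    refine le_of_mul_le_mul_left ?_ h6
    linarith
  · congr 1
    exact FP.Pr_congr _ fun u hu => (hAA u hu).symm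

/-- the thin letters are functions of the hidden point, the own point and the cells -/
theorem XL_hid (hv : Codes D v) {r a : ℕ} (ha : a ≤ tm r + 1) {J : Finset (Fin 3)} {l : Fin 3} (hl : l ∈ J)
    {x y : Pt (Fin 3) X β φ} (h1 : x.1 = y.1) (h2 : PJ J x = PJ J y) (h3 : NPr v D r x = NPr v D r y) :
    XL v a l x = XL v a l y := by
  have hp : x.2.1 l = y.2.1 l := PJ_iff.1 h2 l hl
  refine Prod.ext hp ?_
  show Um v a {l} x.1 x.2.1 = Um v a {l} y.1 y.2.1
  rw [h1]
  refine Um_codes hv (ha.trans (Nat.succ_le_succ (TD.tm_nt r))) {l} y.1 (fun k hk => ?_) fun k => ?_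
  · rw [Finset.mem_singleton.1 hk]
    exact hp
  · exact congrFun (congrArg Prod.snd (congrArg Prod.snd h3)) k

/-- the third point does not matter -/
theorem two_rat (hv : Codes D v) {r a b : ℕ} (ha : a ≤ tm r + 1) (hb : b ≤ tm r + 1) (i j : Fin 3)
    {w : Pt (Fin 3) X β φ} (hw : (D.P h 0).p w ≠ 0) :
    (D.P h 0).m (fun u => ((XL v a i u, XL v b j u), (PJ univ u, NPr v D r u))) w *
      (D.P h 0).m (fun u => (PJ {i, j} u, NPr v D r u)) w =
    (D.P h 0).m (fun u => ((XL v a i u, XL v b j u), NPr v D r u)) w * (D.P h 0).m (fun u => (PJ univ u, NPr v D r u)) w := by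
  set P := D.P h 0 with hP
  have hi : i ∈ ({i, j} : Finset (Fin 3)) := Finset.mem_insert_self _ _
  have hj : j ∈ ({i, j} : Finset (Fin 3)) := Finset.mem_insert_of_mem (Finset.mem_singleton_self _)
  have e1 := m_div P (fun u => (XL v a i u, XL v b j u)) (fun u => (PJ univ u, NPr v D r u)) w
  have e2 := m_div P (fun u => (XL v a i u, XL v b j u)) (fun u => (PJ {i, j} u, NPr v D r u)) w
  have hf : Fac (fun u : Pt (Fin 3) X β φ => (u.1, PJ ({i, j} : Finset (Fin 3)) u, NPr v D r u))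
      (fun u => ind ((XL v a i u, XL v b j u) = (XL v a i w, XL v b j w))) := by
    intro x y hxy
    simp only [Prod.mk.injEq] at hxy
    obtain ⟨g1, g2, g3⟩ := hxy
    have k1 := XL_hid hv ha hi g1 g2 g3
    have k2 := XL_hid hv hb hj g1 g2 g3
    show ind ((XL v a i x, XL v b j x) = _) = ind ((XL v a i y, XL v b j y) = _)
    rw [k1, k2]
  have e3 := ce_more (h := h) hv 0 r (Finset.subset_univ ({i, j} : Finset (Fin 3))) hf w
  have e4 : P.m (fun u => ((XL v a i u, XL v b j u), (PJ ({i, j} : Finset (Fin 3)) u, NPr v D r u))) w =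
      P.m (fun u => ((XL v a i u, XL v b j u), NPr v D r u)) w := by
    refine P.m_congr (fun x y hxy => ?_) (fun x y hxy => ?_) w
    · simp only [Prod.mk.injEq] at hxy ⊢
      exact ⟨hxy.1, hxy.2.2⟩
    · simp only [Prod.mk.injEq] at hxy ⊢
      refine ⟨hxy.1, PJ_iff.2 fun l hl => ?_, hxy.2⟩
      have k1 : x.2.1 i = y.2.1 i := congrArg Prod.fst hxy.1.1
      have k2 : x.2.1 j = y.2.1 j := congrArg Prod.fst hxy.1.2
      rcases Finset.mem_insert.1 hl with hl | hl
      · rw [hl]; exact k1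
      · rw [Finset.mem_singleton.1 hl]; exact k2
  have p1 := P.m_pos (fun u => (PJ univ u, NPr v D r u)) hw
  have p2 := P.m_pos (fun u => (PJ ({i, j} : Finset (Fin 3)) u, NPr v D r u)) hw
  rw [← e1, ← e2, e4, div_eq_div_iff p1.ne' p2.ne'] at e3
  exact e3

/-! ### on the space with tables -/

variable {prr : ℕ → Fin 3 → φ → φ} {T : ℕ} {W : Type} [Fintype W] {tb : Tab D prr T W} {M : MS (Om W X β)}

/-- masses of two thin letters and all points, in the class of an exact vertex -/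
theorem m_two (hM : Rp tb v M) {q' q : ℕ} (i j : Fin 3) (w : Om W X β) :
    M.P.m (fun u => (LF M ({i}, ∅) q' u, CN M j q u)) w = (D.P h 0).m (fun u => ((XL v (nc q' {i}) i u,
      XL v (nc q {j}) j u), (PJ univ u, NPr v D (RZ.rho q) u))) (tb.pt 0 w) := by
  have H := pul_pt h tb (Nat.zero_le T)
  rw [← H.m, hM.P]
  refine tb.Ps.m_congr (fun a b hab => ?_) (fun a b hab => ?_) w
  · simp only [Prod.mk.injEq] at hab ⊢
    obtain ⟨h1, h2⟩ := hab
    obtain ⟨g1, -, g3⟩ := (AHR.LF_iff M ({i}, ∅) q').1 h1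
    have k1 : M.XL j q a = M.XL j q b := congrArg Prod.fst h2
    have k2 : M.NP q a = M.NP q b := congrArg Prod.snd h2
    exact ⟨⟨(hM.X i q' _ _).1 (g1 i (Finset.mem_singleton_self i)), (hM.X j q _ _).1 k1⟩,
      PJ_iff.2 fun l _ => congrFun (hM.YF.1 g3) l, (hM.NPr q).1 k2⟩
  · simp only [Prod.mk.injEq] at hab
    obtain ⟨⟨h1, h2⟩, h3, h4⟩ := hab
    refine Prod.ext ((AHR.LF_iff M ({i}, ∅) q').2 ⟨fun l hl => ?_, fun l hl => absurd hl (Finset.notMem_empty l),
      hM.YF.2 (funext fun l => PJ_iff.1 h3 l (mem_univ l))⟩) (Prod.ext ((hM.X j q _ _).2 h2) ((hM.NPr q).2 h4))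
    rw [Finset.mem_singleton.1 hl]
    exact (hM.X i q' _ _).2 h1

/-- **A LIGHT PRIVATE VALUE OF `i` IS A BIRTH IN THE CLASS OF THE EXACT `j`** -/
theorem lt_birth (R : Run h N S (AdmDep D) v) (hp : Prc N S N1) (hM : Rp tb v M) {i j : Fin 3} (hij : i ≠ j) {q : ℕ}
    (hq : 2 ≤ q % 5) {X0 : ℝ} {A : Om W X β → Prop}
    (hA : Fac (fun w => (XLo tb v i (q + 1) w, NPo tb v (q + 1) w)) A)
    (hL : ∀ w, tb.Ps.p w ≠ 0 → A w → 2 * tb.Ps.m (fun u => (XLo tb v i (q + 1) u, NPo tb v (q + 1) u)) w <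
      tb.Ps.m (fun u => (XLo tb v i q u, NPo tb v q u)) w)
    (hal : ∀ w, tb.Ps.p w ≠ 0 → A w → Real.exp (-X0) * tb.Ps.m (fun u => (u.2.2 i, NPo tb v (q + 1) u)) w ≤
      tb.Ps.m (fun u => (XLo tb v i (q + 1) u, NPo tb v (q + 1) u)) w) :
    M.P.Pr (fun w => A w ∧ bi M.P (CN M j) (LF M ({i}, ∅)) (YF M ({i}, ∅)) q w < 1 / 2) ≤
      24 * Real.sqrt ((X0 + 1) / N1) * M.P.Pr A := by
  have hv := R.codes
  have H := pul_pt h tb (Nat.zero_le T)
  have hr : RZ.rho (q + 1) = RZ.rho q := by unfold RZ.rho; omega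
  obtain ⟨t, ht⟩ : ∃ t, RZ.rho (q + 1) = 2 * t := ⟨q / 5 + 1, by unfold RZ.rho; omega⟩
  have et : tm (RZ.rho (q + 1)) = t := by rw [ht]; unfold tm; omega
  have en : nt (RZ.rho (q + 1)) = t := by rw [ht]; unfold nt; omega
  have hN : ∀ u : Pt (Fin 3) X β φ, NPq D v (q + 1) u = NP D v (t + 1) t u := fun u => by
    rw [NPq_rho]
    unfold NPr
    rw [et, en]
  have hNr : ∀ u : Pt (Fin 3) X β φ, NPr v D (RZ.rho (q + 1)) u = NP D v (t + 1) t u := fun u => by
    unfold NPr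
    rw [et, en]
  have hN0 : ∀ u : Pt (Fin 3) X β φ, NPq D v q u = NP D v (t + 1) t u := fun u => by
    rw [NPq_rho, ← hr]
    unfold NPr
    rw [et, en]
  have c1 : nc q {i} ≤ nc (q + 1) {i} := nc_mono (Nat.le_succ q) (by unfold pth; simp)
  have cu : ∀ l : Fin 3, nc (q + 1) {l} ≤ t + 1 := fun l => by
    have h1 : nc (q + 1) {l} ≤ nc (sbt (RZ.rho (q + 1))) {l} := nc_mono (le_sbt_rho (q + 1)) (by unfold pth; simp)
    rw [nc_sbt, et] at h1
    exact h1
  -- the event on the sample points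
  set A' : Pt (Fin 3) X β φ → Prop := fun u => ∃ w, tb.Ps.p w ≠ 0 ∧ XLq v (q + 1) i (tb.pt 0 w) = XLq v (q + 1) i u ∧
    NPq D v (q + 1) (tb.pt 0 w) = NPq D v (q + 1) u ∧ A w with hA'
  have hAA : ∀ w, tb.Ps.p w ≠ 0 → (A w ↔ A' (tb.pt 0 w)) := by
    intro w hw
    constructor
    · intro h1
      exact ⟨w, hw, rfl, rfl, h1⟩
    · rintro ⟨w', h1, h2, h3, h4⟩
      have h5 : A w' = A w := hA w' w (Prod.ext h2 h3)
      rwa [h5] at h4
  have g0 := glob_bad (h := h) R hp (t := t) c1 (cu i) (cu j) hij (X0 := X0) (A := A') (fun a b h1 h2 h3 => by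
      obtain ⟨w', k1, k2, k3, k4⟩ := h3
      exact ⟨w', k1, k2.trans h1, k3.trans (by rw [hN, hN]; exact h2), k4⟩) (fun u hu h3 => by
      obtain ⟨w', k1, k2, k3, k4⟩ := h3
      have k5 := hal w' k1 k4
      have k6 : tb.Ps.m (fun u => (u.2.2 i, NPo tb v (q + 1) u)) w' =
          (D.P h 0).m (fun u => (u.2.1 i, NPq D v (q + 1) u)) (tb.pt 0 w') := H.m (fun u => (u.2.1 i, NPq D v (q + 1) u)) w'
      have k7 : tb.Ps.m (fun u => (XLo tb v i (q + 1) u, NPo tb v (q + 1) u)) w' =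
          (D.P h 0).m (fun u => (XLq v (q + 1) i u, NPq D v (q + 1) u)) (tb.pt 0 w') :=
        H.m (fun u => (XLq v (q + 1) i u, NPq D v (q + 1) u)) w'
      rw [k6, k7] at k5
      have k2' : (tb.pt 0 w').2.1 i = u.2.1 i := congrArg Prod.fst k2
      have k8 : (D.P h 0).m (fun u => (u.2.1 i, NPq D v (q + 1) u)) (tb.pt 0 w') =
          (D.P h 0).m (fun u => (u.2.1 i, NPq D v (q + 1) u)) u :=
        (D.P h 0).Fac_m _ _ _ (Prod.ext k2' k3)
      have k9 : (D.P h 0).m (fun u => (XLq v (q + 1) i u, NPq D v (q + 1) u)) (tb.pt 0 w') =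
          (D.P h 0).m (fun u => (XLq v (q + 1) i u, NPq D v (q + 1) u)) u :=
        (D.P h 0).Fac_m _ _ _ (Prod.ext k2 k3)
      rw [k8, k9] at k5
      simp only [hN] at k5
      -- the cell of u
      have hs : t + 1 ≤ t + 1 := le_rfl
      set Nd : Pt (Fin 3) X β φ → List (Pt (Fin 3) X β φ) × (γ × (Fin 3 → γ)) := NP D v (t + 1) t with hNd
      have hpos : 0 < (D.P h 0).m Nd u := (D.P h 0).m_pos Nd hu
      have m1 : (D.P h 0).m (fun x => (x.2.1 i, Nd x)) u = (D.P h 0).m Nd u * mC D t u i (u.2.1 i) := by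
        have h2 : (Pc h v 0 (t + 1) t u).Pr (fun x => x.2.1 i = u.2.1 i) = ((D.P h 0).cond (fun x => Nd x = Nd u)).m
          (fun x => x.2.1 i) u := rfl
        have h4 := (D.P h 0).cond_m_fibre (fun x => x.2.1 i) Nd hu rfl
        have h5 := Pc_E (h := h) hv 0 hs u (fun _ => 1) (fun j b => if j = i then ind (b = u.2.1 i) else 1)
        have h6 : ∀ j, (nuC D t u j).E (fun b => if j = i then ind (b = u.2.1 i) else 1) =
            if j = i then mC D t u i (u.2.1 i) else 1 := by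
          intro j
          by_cases hj : j = i
          · subst hj; simp only [if_true]; rfl
          · simp only [hj, if_false]; exact FP.E_const _ _
        rw [Finset.prod_congr rfl fun j _ => h6 j, Finset.prod_ite_eq' univ i, if_pos (mem_univ i), FP.E_const, one_mul] at h5
        have h7 : (Pc h v 0 (t + 1) t u).Pr (fun x => x.2.1 i = u.2.1 i) = mC D t u i (u.2.1 i) := by
          rw [← h5]
          refine FP.E_congr _ fun x _ => ?_
          rw [Finset.prod_ite_eq' univ i (fun j => ind (x.2.1 j = u.2.1 i)), if_pos (mem_univ i), one_mul]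
        rw [← h7, h2, h4]
        field_simp
      have m2 : (D.P h 0).m (fun x => (XLq v (q + 1) i x, Nd x)) u = (D.P h 0).m Nd u * (mC D t u i (u.2.1 i) *
          (muC D v (t + 1) t u).Pr (Gl v (nc (q + 1) {i}) u i (XL v (nc (q + 1) {i}) i u))) := by
        have h2 : (Pc h v 0 (t + 1) t u).Pr (fun x => XL v (nc (q + 1) {i}) i x = XL v (nc (q + 1) {i}) i u) =
          ((D.P h 0).cond (fun x => Nd x = Nd u)).m (fun x => XLq v (q + 1) i x) u := rfl
        have h4 := (D.P h 0).cond_m_fibre (fun x => XLq v (q + 1) i x) Nd hu rfl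
        have h5 : (Pc h v 0 (t + 1) t u).Pr (fun x => XL v (nc (q + 1) {i}) i x = XL v (nc (q + 1) {i}) i u) =
            mC D t u i (u.2.1 i) * (muC D v (t + 1) t u).Pr (Gl v (nc (q + 1) {i}) u i (XL v (nc (q + 1) {i}) i u)) :=
          Pc_lw0 (h := h) hv 0 hs (cu i) u i (XL v (nc (q + 1) {i}) i u)
        rw [← h5, h2, h4]
        field_simp
      rw [m1, m2] at k5
      have m3 : 0 < mC D t u i (u.2.1 i) := mC_pos (D := D) t u i
      have m4 : 0 < (D.P h 0).m Nd u * mC D t u i (u.2.1 i) := mul_pos hpos m3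
      refine le_of_mul_le_mul_left ?_ m4
      linarith)
  have eA : (D.P h 0).Pr A' = M.P.Pr A := by
    rw [← H.Pr, hM.P]
    exact tb.Ps.Pr_congr fun w hw => (hAA w hw).symm
  have e24 : 12 * Real.sqrt (4 * (X0 + 1) / N1) = 24 * Real.sqrt ((X0 + 1) / N1) := by
    rw [show 4 * (X0 + 1) / N1 = 4 * ((X0 + 1) / N1) by ring, Real.sqrt_mul (by norm_num), show (4 : ℝ) = 2 ^ 2 by norm_num,
      Real.sqrt_sq (by norm_num)]
    ring
  rw [eA, e24] at g0
  refine le_trans ?_ g0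
  rw [← H.Pr, hM.P]
  refine tb.Ps.Pr_mono fun w hw hh => ⟨(hAA w hw).1 hh.1, ?_⟩
  -- the birth
  have hMp : M.P.p w ≠ 0 := by rw [hM.P]; exact hw
  have hw0 : (D.P h 0).p (tb.pt 0 w) ≠ 0 := H.ne hw
  have b1 := hh.2
  rw [← hM.P] at b1
  set L1 := M.P.m (fun u => (LF M ({i}, ∅) q u, CN M j (q + 1) u)) w with hL1
  set L2 := M.P.m (fun u => (LF M ({i}, ∅) (q + 1) u, CN M j (q + 1) u)) w with hL2
  set Y := M.P.m (fun u => (YF M ({i}, ∅) u, CN M j (q + 1) u)) w with hY
  have p1 : 0 < L1 := M.P.m_pos _ hMp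
  have p2 : 0 < L2 := M.P.m_pos _ hMp
  have p3 : 0 < Y := M.P.m_pos _ hMp
  have b2 : Real.log (L1 / Y) - Real.log (L2 / Y) < 1 / 2 := b1
  rw [Real.log_div p1.ne' p3.ne', Real.log_div p2.ne' p3.ne'] at b2
  have b3 : L1 < 5 / 3 * L2 := by
    have k1 : Real.log L1 < Real.log (5 / 3 * L2) := by
      rw [Real.log_mul (by norm_num) p2.ne']
      have k2 : (1 : ℝ) / 2 ≤ Real.log (5 / 3) := by
        rw [Real.le_log_iff_exp_le (by norm_num)]
        have k3 := Real.exp_one_lt_d9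
        have k4 : Real.exp (1 / 2) * Real.exp (1 / 2) = Real.exp 1 := by rw [← Real.exp_add]; norm_num
        have k5 := Real.exp_pos (1 / 2 : ℝ)
        by_contra hc
        push Not at hc
        nlinarith
      linarith
    exact (Real.log_lt_log_iff p1 (by positivity)).1 k1
  have hra : nc q {i} ≤ tm (RZ.rho (q + 1)) + 1 := by rw [et]; exact c1.trans (cu i)
  have hrb : nc (q + 1) {i} ≤ tm (RZ.rho (q + 1)) + 1 := by rw [et]; exact cu i
  have hrj : nc (q + 1) {j} ≤ tm (RZ.rho (q + 1)) + 1 := by rw [et]; exact cu j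
  have r1 := two_rat (h := h) hv hra hrj i j hw0
  have r2 := two_rat (h := h) hv hrb hrj i j hw0
  rw [← m_two (h := h) hM i j w, ← hL1] at r1
  rw [← m_two (h := h) hM i j w, ← hL2] at r2
  simp only [hNr] at r1 r2
  set f0 := (D.P h 0).m (fun u => ((XL v (nc q {i}) i u, XL v (nc (q + 1) {j}) j u), NP D v (t + 1) t u)) (tb.pt 0 w) with hf0
  set f1 := (D.P h 0).m (fun u => ((XL v (nc (q + 1) {i}) i u, XL v (nc (q + 1) {j}) j u), NP D v (t + 1) t u)) (tb.pt 0 w)
    with hf1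
  set Z1 := (D.P h 0).m (fun u => (PJ univ u, NP D v (t + 1) t u)) (tb.pt 0 w) with hZ1
  set Z2 := (D.P h 0).m (fun u => (PJ ({i, j} : Finset (Fin 3)) u, NP D v (t + 1) t u)) (tb.pt 0 w) with hZ2
  have q1 : 0 < Z1 := (D.P h 0).m_pos _ hw0
  have q2 : 0 < Z2 := (D.P h 0).m_pos _ hw0
  have q3 : 0 < f0 := (D.P h 0).m_pos _ hw0
  have q4 : 0 < f1 := (D.P h 0).m_pos _ hw0
  have b4 : f0 < 5 / 3 * f1 := by
    have k1 : f0 * Z1 < 5 / 3 * f1 * Z1 := by
      rw [← r1, mul_assoc, ← r2, ← mul_assoc]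
      exact mul_lt_mul_of_pos_right b3 q2
    exact lt_of_mul_lt_mul_right k1 q1.le
  have l1 := hL w hw hh.1
  have l2 : tb.Ps.m (fun u => (XLo tb v i (q + 1) u, NPo tb v (q + 1) u)) w =
      (D.P h 0).m (fun u => (XLq v (q + 1) i u, NPq D v (q + 1) u)) (tb.pt 0 w) :=
    H.m (fun u => (XLq v (q + 1) i u, NPq D v (q + 1) u)) w
  have l3 : tb.Ps.m (fun u => (XLo tb v i q u, NPo tb v q u)) w =
      (D.P h 0).m (fun u => (XLq v q i u, NPq D v q u)) (tb.pt 0 w) := H.m (fun u => (XLq v q i u, NPq D v q u)) w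
  rw [l2, l3] at l1
  simp only [hN, hN0] at l1
  unfold badG
  show 6 / 5 * ((D.P h 0).m (fun u => (XLq v (q + 1) i u, NP D v (t + 1) t u)) (tb.pt 0 w) * f0) ≤
    f1 * (D.P h 0).m (fun u => (XLq v q i u, NP D v (t + 1) t u)) (tb.pt 0 w)
  set x1 := (D.P h 0).m (fun u => (XLq v (q + 1) i u, NP D v (t + 1) t u)) (tb.pt 0 w) with hx1
  set x0 := (D.P h 0).m (fun u => (XLq v q i u, NP D v (t + 1) t u)) (tb.pt 0 w) with hx0
  have y1 : 0 < x1 := (D.P h 0).m_pos _ hw0
  have y2 : x1 * f0 ≤ x1 * (5 / 3 * f1) := mul_le_mul_of_nonneg_left b4.le y1.le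
  have y3 : 2 * x1 * f1 ≤ x0 * f1 := mul_le_mul_of_nonneg_right l1.le q4.le
  nlinarith

/-- the surprisal of a thin letter as masses -/
theorem sal_of {i : Fin 3} {q r : ℕ} {X0 : ℝ} {w : Om W X β} (hw : tb.Ps.p w ≠ 0)
    (hs : ssQ h v q i (tb.pt r w) ≤ X0) : Real.exp (-X0) * tb.Ps.m (fun u => (u.2.2 i, NPo tb v q u)) w ≤
      tb.Ps.m (fun u => (XLo tb v i q u, NPo tb v q u)) w := by
  have H := pul_pt h tb (Nat.zero_le T)
  have hw0 : (D.P h 0).p (tb.pt 0 w) ≠ 0 := H.ne hw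
  have e1 : ssQ h v q i (tb.pt r w) = ssQ h v q i (tb.pt 0 w) := sp_fac _ _ _ _ _ rfl
  have e2 : ssQ h v q i (tb.pt 0 w) = sp (D.P h 0) (XLq v q i) (fun u => (u.2.1 i, NPq D v q u)) (tb.pt 0 w) :=
    sp_xy h (f := XLq (φ := φ) v q i) (g := fun u => (u.2.1 i, NPq D v q u)) (fun _ _ _ _ => rfl) (fun _ _ _ _ => rfl) _ _ _
  rw [e1, e2] at hs
  unfold sp at hs
  have e3 : (D.P h 0).m (fun u => (XLq v q i u, (u.2.1 i, NPq D v q u))) (tb.pt 0 w) =
      (D.P h 0).m (fun u => (XLq v q i u, NPq D v q u)) (tb.pt 0 w) := by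
    refine (D.P h 0).m_congr (fun a b hab => ?_) (fun a b hab => ?_) _
    · simp only [Prod.mk.injEq] at hab ⊢
      exact ⟨hab.1, hab.2.2⟩
    · simp only [Prod.mk.injEq] at hab ⊢
      exact ⟨hab.1, congrArg Prod.fst hab.1, hab.2⟩
  rw [e3] at hs
  have l1 : tb.Ps.m (fun u => (u.2.2 i, NPo tb v q u)) w = (D.P h 0).m (fun u => (u.2.1 i, NPq D v q u)) (tb.pt 0 w) :=
    H.m (fun u => (u.2.1 i, NPq D v q u)) w
  have l2 : tb.Ps.m (fun u => (XLo tb v i q u, NPo tb v q u)) w =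
      (D.P h 0).m (fun u => (XLq v q i u, NPq D v q u)) (tb.pt 0 w) := H.m (fun u => (XLq v q i u, NPq D v q u)) w
  rw [l1, l2]
  have p1 := (D.P h 0).m_pos (fun u => (u.2.1 i, NPq D v q u)) hw0
  have p2 := (D.P h 0).m_pos (fun u => (XLq v q i u, NPq D v q u)) hw0
  have k1 : Real.log (Real.exp (-X0) * (D.P h 0).m (fun u => (u.2.1 i, NPq D v q u)) (tb.pt 0 w)) ≤
      Real.log ((D.P h 0).m (fun u => (XLq v q i u, NPq D v q u)) (tb.pt 0 w)) := by
    rw [Real.log_mul (Real.exp_pos _).ne' p1.ne', Real.log_exp]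
    linarith
  exact (Real.log_le_log_iff (mul_pos (Real.exp_pos _) p1) p2).1 k1

/-- **THE SUM OVER THE PRIVATE STEPS** : light at `i`, alive at `q + 1`, but not strongly moved in the class of `j` -/
theorem lt_sum (R : Run h N S (AdmDep D) v) (hp : Prc N S N1) (hM : Rp tb v M) {i j : Fin 3} (hij : i ≠ j) {X0 : ℝ}
    (F : ℕ → Om W X β → Prop)
    (hF : ∀ q w, tb.Ps.p w ≠ 0 → F q w → 2 ≤ q % 5 ∧
      2 * tb.Ps.m (fun u => (XLo tb v i (q + 1) u, NPo tb v (q + 1) u)) w <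
        tb.Ps.m (fun u => (XLo tb v i q u, NPo tb v q u)) w ∧ ∃ r, ssQ h v (q + 1) i (tb.pt r w) ≤ X0) (n : ℕ) :
    ∑ q ∈ range n, M.P.Pr (fun w => F q w ∧ ¬ NewM.Bx M (1 / 2) j (MV.tau M j q w) (q + 1) w) ≤
      24 * Real.sqrt ((X0 + 1) / N1) * ∑ q ∈ range n, M.P.Pr (fun w => 2 ≤ q % 5 ∧
        2 * tb.Ps.m (fun u => (XLo tb v i (q + 1) u, NPo tb v (q + 1) u)) w <
          tb.Ps.m (fun u => (XLo tb v i q u, NPo tb v q u)) w) := by
  have hc : 0 ≤ 24 * Real.sqrt ((X0 + 1) / N1) := mul_nonneg (by norm_num) (Real.sqrt_nonneg _)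
  rw [Finset.mul_sum]
  refine Finset.sum_le_sum fun q _ => ?_
  by_cases hq : 2 ≤ q % 5
  · set A : Om W X β → Prop := fun w => 2 * tb.Ps.m (fun u => (XLo tb v i (q + 1) u, NPo tb v (q + 1) u)) w <
        tb.Ps.m (fun u => (XLo tb v i q u, NPo tb v q u)) w ∧
      Real.exp (-X0) * tb.Ps.m (fun u => (u.2.2 i, NPo tb v (q + 1) u)) w ≤
        tb.Ps.m (fun u => (XLo tb v i (q + 1) u, NPo tb v (q + 1) u)) w with hA
    have hfac : Fac (fun w => (XLo tb v i (q + 1) w, NPo tb v (q + 1) w)) A := by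
      intro a b hab
      have h1 : XLo tb v i (q + 1) a = XLo tb v i (q + 1) b := congrArg Prod.fst hab
      have h2 : NPo tb v (q + 1) a = NPo tb v (q + 1) b := congrArg Prod.snd hab
      have h3 : XLo tb v i q a = XLo tb v i q b := XLo_fac tb i q a b h1
      have h4 : NPo tb v q a = NPo tb v q b := NPo_fac tb q a b h2
      have h5 : a.2.2 i = b.2.2 i := congrArg Prod.fst h1
      have m1 := tb.Ps.Fac_m (fun u => (XLo tb v i (q + 1) u, NPo tb v (q + 1) u)) a b hab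
      have m2 := tb.Ps.Fac_m (fun u => (XLo tb v i q u, NPo tb v q u)) a b (Prod.ext h3 h4)
      have m3 := tb.Ps.Fac_m (fun u => (u.2.2 i, NPo tb v (q + 1) u)) a b (Prod.ext h5 h2)
      show (_ ∧ _) = (_ ∧ _)
      rw [m1, m2, m3]
    have h0 := lt_birth (h := h) R hp hM hij hq hfac (fun w _ hw => hw.1) (fun w _ hw => hw.2)
    refine le_trans (M.P.Pr_mono fun w hw hh => ?_) (h0.trans (mul_le_mul_of_nonneg_left ?_ hc))
    · have hw' : tb.Ps.p w ≠ 0 := by rw [← hM.P]; exact hw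
      obtain ⟨_, g2, r, g3⟩ := hF q w hw' hh.1
      refine ⟨⟨g2, sal_of (h := h) hw' g3⟩, ?_⟩
      by_contra hc'
      exact hh.2 (NewM.mB_jump hw (not_lt.1 hc'))
    · exact M.P.Pr_mono fun w _ hh => ⟨hq, hh.1⟩
  · have e0 : M.P.Pr (fun w => F q w ∧ ¬ NewM.Bx M (1 / 2) j (MV.tau M j q w) (q + 1) w) = 0 := by
      unfold FP.Pr
      rw [M.P.E_congr (g := fun _ => (0 : ℝ)) fun w hw => ind_not fun hh => hq (hF q w (by rw [← hM.P]; exact hw) hh.1).1,
        M.P.E_const]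
    rw [e0]
    exact mul_nonneg hc (M.P.Pr_nonneg _)

end run

end

end Pool.Agent.GMH.LtB
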