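import Pool.Agent.GMH.MV1
import Pool.Agent.GMH.CK2U

/-!
# GMH.MV2U: moved triples and upcrossings (helper63, over the stub MV2 of helper27)

* `nil_of_ce` : an event of conditional probability zero does not occur;
* `Mv_new` : a triple which becomes moved at the time `s + 1`;
* `Mv_up` : expected number of the times at which the true thin triple becomes moved at the vertex `v`;
* `pic_step`, `up_c` : upcrossings of the mass of the moved triples in the class of the exact vertex `c`.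
-/

set_option autoImplicit false
set_option linter.unusedSectionVars false

namespace Pool.Agent.GMH.MV

open Finset Pool.Agent.PWZ Pool.Agent.M3 Pool.Agent.GMH.TD Pool.Agent.GMH.CK

variable {Om : Type} [Fintype Om] (M : MS Om)

theorem nil_of_ce {κ : Type*} {P : FP Om} {X : Om → κ} {A : Om → Prop} {w : Om} (hw : P.p w ≠ 0)
    (h : ¬ 0 < P.ce X (fun u => ind (A u)) w) : ¬ A w := by
  intro hA
  refine h ?_
  unfold FP.ce
  refine div_pos ?_ (P.m_pos X hw)
  have h1 : P.p w * (ind (X w = X w) * ind (A w)) ≤ P.E (fun v => ind (X v = X w) * ind (A v)) := by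
    unfold FP.E
    exact Finset.single_le_sum (f := fun v => P.p v * (ind (X v = X w) * ind (A v)))
      (fun v _ => mul_nonneg (P.nn v) (mul_nonneg (ind_nonneg _) (ind_nonneg _))) (Finset.mem_univ w)
  rw [ind_of rfl, ind_of hA, mul_one, mul_one] at h1
  exact lt_of_lt_of_le (lt_of_le_of_ne (P.nn w) (Ne.symm hw)) h1

theorem ce_le1 {κ : Type*} {P : FP Om} (X : Om → κ) (A : Om → Prop) (w : Om) : P.ce X (fun u => ind (A u)) w ≤ 1 := by
  unfold FP.ce
  refine div_le_one_of_le₀ (P.E_mono fun v _ => ?_) (P.m_nonneg X w)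
  have h1 := ind_nonneg (X v = X w)
  have h2 := ind_le_one (A v)
  nlinarith

/-- the point over a triple -/
def Eu (v : Fin 3) (s : ℕ) (u : Om) : Prop := Ex M v (tau M v s u) s u

theorem univ_CN (v : Fin 3) (s : ℕ) : Fac (fun w => (LF M (univ, univ) s w, M.NP s w)) (CN M v s) := by
  intro a b hab
  have h1 := (Prod.mk.inj hab).1
  have h2 := (Prod.mk.inj hab).2
  have h3 := congrFun (congrArg Prod.fst h1) v
  unfold LF at h3
  simp only [mem_univ, if_true, Option.some.injEq] at h3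
  exact Prod.ext h3 h2

theorem Eu_fac (v : Fin 3) (s : ℕ) : Fac (fun w => (LF M (univ, univ) s w, M.NP s w)) (Eu M v s) := by
  intro a b hab
  have h1 := tau_fac M v s a b (univ_CN M v s a b hab)
  unfold Eu
  rw [h1]
  exact Ex_fac M v _ a b hab

/-- a triple which becomes moved -/
theorem Mv_new {Lam : ℝ} (hT : Thk M Lam) (v : Fin 3) (s : ℕ) :
    M.P.Pr (fun w => Mv M v (s + 1) w ∧ ¬ Mv M v s w) ≤
      Real.exp (4 * Lam) * M.P.Pr (fun w => Eu M v (s + 1) w ∧ ¬ Eu M v s w) := by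
  have hf : Fac (TH M (s + 1)) (fun w => ind (Mv M v (s + 1) w ∧ ¬ Mv M v s w)) := Fac.ind fun a b hab => by
    rw [Mv_fac M v (s + 1) a b hab, Mv_fac M v s a b (TH_step M s a b hab)]
  have h1 : Real.exp (-(4 * Lam)) * M.P.Pr (fun w => Mv M v (s + 1) w ∧ ¬ Mv M v s w) ≤
      M.P.E (fun w => ind (Mv M v (s + 1) w ∧ ¬ Mv M v s w) * M.P.ce (TH M (s + 1)) (fun u => ind (Eu M v (s + 1) u)) w) := by
    unfold FP.Pr
    rw [← M.P.E_smul]
    refine M.P.E_mono fun w hw => ?_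
    by_cases h : Mv M v (s + 1) w ∧ ¬ Mv M v s w
    · rw [ind_of h, mul_one, one_mul]
      exact hT (s + 1) (Eu M v (s + 1)) (Eu_fac M v (s + 1)) w hw h.1
    · rw [ind_not h, mul_zero, zero_mul]
  rw [M.P.E_mul_ce hf] at h1
  have h2 : M.P.E (fun w => ind (Mv M v (s + 1) w ∧ ¬ Mv M v s w) * ind (Eu M v (s + 1) w)) ≤
      M.P.Pr (fun w => Eu M v (s + 1) w ∧ ¬ Eu M v s w) := by
    unfold FP.Pr
    refine M.P.E_mono fun w hw => ?_
    rw [← ind_and]
    refine ind_mono fun hh => ⟨hh.2, ?_⟩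
    exact nil_of_ce hw (A := Eu M v s) hh.1.2
  have h3 : Real.exp (4 * Lam) * Real.exp (-(4 * Lam)) = 1 := by rw [← Real.exp_add, add_neg_cancel, Real.exp_zero]
  calc M.P.Pr (fun w => Mv M v (s + 1) w ∧ ¬ Mv M v s w)
      = Real.exp (4 * Lam) * (Real.exp (-(4 * Lam)) * M.P.Pr (fun w => Mv M v (s + 1) w ∧ ¬ Mv M v s w)) := by
        rw [← mul_assoc, h3, one_mul]
    _ ≤ _ := mul_le_mul_of_nonneg_left (h1.trans h2) (Real.exp_pos _).le

theorem card_fam : (Fintype.card (Finset (Fin 3) × Finset (Fin 3)) : ℝ) = 64 := by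
  rw [Fintype.card_prod, Fintype.card_finset, Fintype.card_fin]
  norm_num

/-- **the true thin triple becomes moved** -/
theorem Mv_up {Lam : ℝ} (hT : Thk M Lam) (v : Fin 3) {T : ℕ} {Tot : ℝ} (h : TotX M T Tot) :
    ∑ s ∈ range T, M.P.Pr (fun w => Mv M v (s + 1) w ∧ ¬ Mv M v s w) ≤
      Real.exp (4 * Lam) * (64 * (4 / M.d1 ^ 2 * Tot)) := by
  have h1 := ever_mv (P := M.P) (N := CN M v) (C := Cx M v) (Lf := LF M) (Yf := YF M) (δ := M.d1) (CN_step M v)
    (tau_fac M v) (LF_step M) (LF_YF M) M.hd1 M.hd11 T (fun i => (h.1 v i).1) (fun i => (h.1 v i).2)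
  have h2 := ever_free (P := M.P) (N := M.NP) (C := Cx M v) (Lf := LF M) (Yf := YF M) (δ := M.d1) M.hN
    (LF_step M) (LF_YF M) M.hd1 M.hd11 T (fun i => (h.2 i).1) (fun i => (h.2 i).2)
  rw [card_fam] at h1 h2
  refine (sum_le_sum fun s _ => Mv_new M hT v s).trans ?_
  rw [← mul_sum]
  refine mul_le_mul_of_nonneg_left ?_ (Real.exp_pos _).le
  have h3 : ∀ s ∈ range T, M.P.Pr (fun w => Eu M v (s + 1) w ∧ ¬ Eu M v s w) ≤
      M.P.Pr (fun w => Evm M.P (CN M v) (LF M) (YF M) M.d1 (stg (Cx M v) (s + 1) w) (s + 1) w ∧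
        ¬ Evm M.P (CN M v) (LF M) (YF M) M.d1 (stg (Cx M v) s w) s w) +
      M.P.Pr (fun w => Evm M.P M.NP (LF M) (YF M) M.d1 (stg (Cx M v) (s + 1) w) (s + 1) w ∧
        ¬ Evm M.P M.NP (LF M) (YF M) M.d1 (stg (Cx M v) s w) s w) := by
    intro s _
    refine (M.P.Pr_mono fun w _ hw => ?_).trans (M.P.Pr_or_le _ _)
    rcases hw.1 with g | g
    · exact Or.inl ⟨g, fun hh => hw.2 (Or.inl hh)⟩
    · exact Or.inr ⟨g, fun hh => hw.2 (Or.inr hh)⟩
  refine (sum_le_sum h3).trans ?_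
  rw [sum_add_distrib]
  have h4 : 64 * (4 / M.d1 ^ 2 * (Tot / 5)) + 64 * (16 / M.d1 ^ 2 * (Tot / 5)) = 64 * (4 / M.d1 ^ 2 * Tot) := by ring
  linarith

/-- the mass of the moved triples grows at most by the new ones -/
theorem pic_step (c : Fin 3) (k : ℕ) (w : Om) : M.P.ce (CN M c k) (pic M c (k + 1)) w ≤ pic M c k w +
    M.P.ce (CN M c k) (fun u => ∑ v ∈ univ.filter (fun v => v ≠ c), ind (Mv M v (k + 1) u ∧ ¬ Mv M v k u)) w := by
  have h1 : M.P.ce (CN M c k) (pic M c (k + 1)) w = M.P.ce (CN M c k) (fun u => ind (Mo M c (k + 1) u)) w :=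
    M.P.ce_tower (CN_step M c k) _ w
  rw [h1]
  unfold pic
  rw [← M.P.ce_add]
  refine M.P.ce_mono (fun u _ => ?_) w
  by_cases h : Mo M c (k + 1) u
  · rw [ind_of h]
    by_cases h' : Mo M c k u
    · rw [ind_of h']
      have : 0 ≤ ∑ v ∈ univ.filter (fun v => v ≠ c), ind (Mv M v (k + 1) u ∧ ¬ Mv M v k u) :=
        sum_nonneg fun v _ => ind_nonneg _
      linarith
    · obtain ⟨v, h2, h3⟩ := h
      have h4 : ¬ Mv M v k u := fun h5 => h' ⟨v, h2, h5⟩
      have h5 := single_le_sum (s := univ.filter (fun v => v ≠ c)) (f := fun v => ind (Mv M v (k + 1) u ∧ ¬ Mv M v k u))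
        (fun v _ => ind_nonneg _) (mem_filter.2 ⟨mem_univ v, h2⟩)
      simp only [ind_of (⟨h3, h4⟩ : Mv M v (k + 1) u ∧ ¬ Mv M v k u)] at h5
      have := ind_nonneg (Mo M c k u)
      linarith
  · rw [ind_not h]
    exact add_nonneg (ind_nonneg _) (sum_nonneg fun v _ => ind_nonneg _)

/-- upcrossings of the mass of the moved triples in the class of `c` -/
theorem up_c {Lam : ℝ} (hT : Thk M Lam) (c : Fin 3) {T : ℕ} {Tot : ℝ} (h : TotX M T Tot) {C : ℕ → ℕ → Om → Prop}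
    (hs : ∀ k, Fac (CN M c k) (stg C k)) {a b : ℝ} (ha : 0 ≤ a) (hab : a < b) :
    (b - a) * ∑ k ∈ range T, M.P.Pr (fun w => stg C (k + 1) w = k + 1 ∧ pic M c (stg C k w) w < a ∧
      ∃ j, stg C k w < j ∧ j ≤ k + 1 ∧ b ≤ pic M c j w) ≤ a + 2 * (Real.exp (4 * Lam) * (64 * (4 / M.d1 ^ 2 * Tot))) := by
  have h1 := up_le (P := M.P) (M := CN M c) (C := C) (CN_step M c) hs (X := pic M c)
    (g := fun k u => ∑ v ∈ univ.filter (fun v => v ≠ c), ind (Mv M v (k + 1) u ∧ ¬ Mv M v k u)) (pic_fac M c)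
    (fun k w => M.P.ce_nonneg (fun _ _ => ind_nonneg _) w) (fun k w => ce_le1 _ _ w)
    (fun k w => sum_nonneg fun v _ => ind_nonneg _) (fun k w _ => pic_step M c k w) ha hab T
  refine h1.trans (add_le_add le_rfl ?_)
  have h2 : ∀ k ∈ range T, M.P.E (fun u => ∑ v ∈ univ.filter (fun v => v ≠ c), ind (Mv M v (k + 1) u ∧ ¬ Mv M v k u)) =
      ∑ v ∈ univ.filter (fun v => v ≠ c), M.P.Pr (fun u => Mv M v (k + 1) u ∧ ¬ Mv M v k u) := fun k _ => by
    rw [M.P.E_sum]
    rfl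
  rw [sum_congr rfl h2, sum_comm]
  refine (sum_le_sum fun v _ => Mv_up M hT v h).trans ?_
  rw [sum_const, nsmul_eq_mul]
  have h3 : ∀ c : Fin 3, (univ.filter (fun v : Fin 3 => v ≠ c)).card = 2 := by decide
  rw [h3 c]
  norm_num

end Pool.Agent.GMH.MV
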