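import Pool.Agent.GMH.AntiHot

/-!
# GMH/MvF (helper2): moved tuples at three exact points, types (H3.MOV, M.5 (F2), (F3)), abstract

`P` law of the table, `U` = class with the three exact points, `Lb`, `Lc`, `Ld` the letters of the three vertices, `Mv` = the
tuple has moved for the clock of `b` (an event of the three letters and the class).
* `row_mass` : no anti-hot pair in `E` (`dr ≤ e`): for a fixed value of `G` the mass of the `F` values which are in `E` with it
  is at most `e P (E | G, U)`;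
* `mkv` : Markov for conditional probabilities;
* `TC` (type C: `w = c`, sides `c | (b,d)`), `TD` (type D: `w = d`, sides `d | (b,c)`); `colC`, `rowC`, `colD`, `rowD` : row
  and column masses at exact points at most `e k4`, `e p2`, `e k2 / k4`, `e p2`; `split` : every moved tuple is of type C or D.
-/

set_option autoImplicit false
set_option linter.unusedSectionVars false

namespace Pool.Agent.GMH.MvF

open Finset Pool.Agent.PWZ Pool.Agent.M3 Pool.Agent.GMH

noncomputable section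

variable {Om : Type*} [Fintype Om] {P : FP Om} {α β γ δ : Type*}

/-- the value of `F` at `v` is in `E` with the value of `G` at `w` -/
def rw_ (P : FP Om) (F : Om → α) (G : Om → β) (U : Om → γ) (E : Om → Prop) (w v : Om) : Prop :=
  ∃ z, P.p z ≠ 0 ∧ F z = F v ∧ G z = G w ∧ U z = U w ∧ E z

/-- **row masses of a set without anti-hot pairs** -/
theorem row_mass (F : Om → α) (G : Om → β) (U : Om → γ) {E : Om → Prop}
    (hE : ∀ v w, F v = F w → G v = G w → U v = U w → (E v ↔ E w)) {e : ℝ} (he0 : 0 ≤ e)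
    (he : ∀ v, P.p v ≠ 0 → E v → dr P F G U v ≤ e) {w : Om} (hw : P.p w ≠ 0) :
    P.ce U (fun v => ind (rw_ P F G U E w v)) w ≤ e * P.ce (fun v => (G v, U v)) (fun v => ind (E v)) w := by
  set mX : Om → ℝ := P.m (fun v => (F v, G v, U v)) with hmX
  set c : Om → ℝ := fun z => ind (G z = G w ∧ U z = U w) * (ind (E z) / mX z) with hc
  have pU := P.m_pos U hw
  have pG := P.m_pos (fun v => (G v, U v)) hw
  have c0 : ∀ z, 0 ≤ c z := fun z => mul_nonneg (ind_nonneg _) (div_nonneg (ind_nonneg _) (P.m_nonneg _ _))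
  -- swap
  have h1 : P.E (fun v => ind (U v = U w) * ind (rw_ P F G U E w v)) ≤
      P.E (fun z => c z * P.m (fun v => (F v, U v)) z) := by
    have e1 : P.E (fun z => c z * P.m (fun v => (F v, U v)) z) =
        P.E (fun v => P.E (fun z => c z * ind ((F v, U v) = (F z, U z)))) := by
      rw [P.E_swap]
      refine P.E_congr fun z _ => ?_
      rw [P.E_smul]
      rfl
    rw [e1]
    refine P.E_mono fun v hv => ?_
    by_cases h2 : U v = U w ∧ rw_ P F G U E w v
    · obtain ⟨h3, z0, hz0, f1, f2, f3, f4⟩ := h2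
      rw [ind_of h3, ind_of ⟨z0, hz0, f1, f2, f3, f4⟩, one_mul]
      have p0 := P.m_pos (fun v => (F v, G v, U v)) hz0
      have h4 : (1 : ℝ) = P.E (fun z => ind ((F z, G z, U z) = (F z0, G z0, U z0)) * (1 / mX z0)) := by
        have e2 : P.E (fun z => ind ((F z, G z, U z) = (F z0, G z0, U z0)) * (1 / mX z0)) = mX z0 * (1 / mX z0) := by
          rw [hmX]
          have e3 : ∀ z, ind ((F z, G z, U z) = (F z0, G z0, U z0)) * (1 / P.m (fun v => (F v, G v, U v)) z0) =
              (1 / P.m (fun v => (F v, G v, U v)) z0) * ind ((F z, G z, U z) = (F z0, G z0, U z0)) :=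
            fun z => mul_comm _ _
          simp only [e3]
          rw [P.E_smul, mul_comm]
          rfl
        rw [e2, mul_one_div, div_self]
        exact p0.ne'
      rw [h4]
      refine P.E_mono fun z _ => ?_
      by_cases h5 : (F z, G z, U z) = (F z0, G z0, U z0)
      · have g1 : F z = F z0 := congrArg (fun x : α × β × γ => x.1) h5
        have g2 : G z = G z0 := congrArg (fun x : α × β × γ => x.2.1) h5
        have g3 : U z = U z0 := congrArg (fun x : α × β × γ => x.2.2) h5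
        have g4 : mX z = mX z0 := P.Fac_m (fun v => (F v, G v, U v)) z z0 h5
        rw [ind_of h5, one_mul, hc]
        simp only
        rw [ind_of (show G z = G w ∧ U z = U w from ⟨g2.trans f2, g3.trans f3⟩),
          ind_of ((hE z z0 g1 g2 g3).2 f4), g4,
          ind_of (show (F v, U v) = (F z, U z) from by rw [← f1, ← g1, h3, ← f3, ← g3]), one_mul, mul_one]
      · rw [ind_not h5, zero_mul]
        exact mul_nonneg (c0 z) (ind_nonneg _)
    · have h3 : ind (U v = U w) * ind (rw_ P F G U E w v) = 0 := by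
        rcases not_and_or.1 h2 with h | h
        · rw [ind_not h, zero_mul]
        · rw [ind_not h, mul_zero]
      rw [h3]
      exact P.E_nonneg fun z _ => mul_nonneg (c0 z) (ind_nonneg _)
  -- the ratio
  have h2 : P.E (fun z => c z * P.m (fun v => (F v, U v)) z) ≤
      e * (P.m U w / P.m (fun v => (G v, U v)) w) * P.E (fun z => ind ((G z, U z) = (G w, U w)) * ind (E z)) := by
    rw [← P.E_smul]
    refine P.E_mono fun z hz => ?_
    by_cases h3 : (G z = G w ∧ U z = U w) ∧ E z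
    · obtain ⟨⟨g1, g2⟩, g3⟩ := h3
      have h4 := he z hz g3
      have p1 := P.m_pos (fun v => (F v, G v, U v)) hz
      have p2 := P.m_pos (fun v => (G v, U v)) hz
      have p3 := P.m_pos U hz
      have e1 : P.m (fun v => (G v, U v)) w = P.m (fun v => (G v, U v)) z :=
        (P.Fac_m (fun v => (G v, U v)) z w (Prod.ext g1 g2)).symm
      have e2 : P.m U w = P.m U z := (P.Fac_m U z w g2).symm
      rw [hc]
      simp only
      rw [ind_of (show G z = G w ∧ U z = U w from ⟨g1, g2⟩), ind_of g3,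
        ind_of (show (G z, U z) = (G w, U w) from by rw [g1, g2]), e1, e2, one_mul, mul_one, mul_one, hmX,
        one_div_mul_eq_div]
      have h5 : P.m (fun v => (F v, U v)) z / P.m (fun v => (F v, G v, U v)) z =
          dr P F G U z * (P.m U z / P.m (fun v => (G v, U v)) z) := by
        unfold dr
        field_simp
      rw [h5]
      exact mul_le_mul_of_nonneg_right h4 (div_nonneg p3.le p2.le)
    · have h4 : c z = 0 := by
        rw [hc]
        simp only
        rcases not_and_or.1 h3 with h | h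
        · rw [ind_not h, zero_mul]
        · rw [ind_not h, zero_div, mul_zero]
      rw [h4, zero_mul]
      exact mul_nonneg (mul_nonneg he0 (div_nonneg pU.le pG.le)) (mul_nonneg (ind_nonneg _) (ind_nonneg _))
  have h3 := h1.trans h2
  have e1 : P.ce U (fun v => ind (rw_ P F G U E w v)) w =
      P.E (fun v => ind (U v = U w) * ind (rw_ P F G U E w v)) / P.m U w := rfl
  have e2 : P.ce (fun v => (G v, U v)) (fun v => ind (E v)) w =
      P.E (fun z => ind ((G z, U z) = (G w, U w)) * ind (E z)) / P.m (fun v => (G v, U v)) w := rfl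
  rw [e1, e2, div_le_iff₀ pU]
  refine h3.trans (le_of_eq ?_)
  ring

/-- **Markov** -/
theorem mkv {X : Om → α} {Y : Om → β} (hXY : Fac Y X) {f : Om → ℝ} (hf : ∀ v, 0 ≤ f v) {k : ℝ} (hk : 0 < k) (w : Om) :
    P.ce X (fun v => ind (k ≤ P.ce Y f v)) w ≤ P.ce X f w / k := by
  rw [le_div_iff₀ hk, mul_comm, ← P.ce_smul]
  refine (P.ce_mono (fun v _ => ?_) w).trans (le_of_eq (P.ce_tower hXY f w))
  by_cases h : k ≤ P.ce Y f v
  · rw [ind_of h, mul_one]
    exact h
  · rw [ind_not h, mul_zero]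
    exact P.ce_nonneg (fun v _ => hf v) v

/-- zero on the class -/
theorem zero_on {X : Om → α} {f : Om → ℝ} {w : Om} (h : ∀ v, P.p v ≠ 0 → X v = X w → f v ≤ 0) : P.ce X f w ≤ 0 := by
  unfold FP.ce
  refine div_nonpos_of_nonpos_of_nonneg ?_ (P.m_nonneg X w)
  have h1 : P.E (fun v => ind (X v = X w) * f v) ≤ P.E (fun _ => (0 : ℝ)) := by
    refine P.E_mono fun v hv => ?_
    by_cases hX : X v = X w
    · rw [ind_of hX, one_mul]
      exact h v hv hX
    · rw [ind_not hX, zero_mul]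
  exact h1.trans (le_of_eq (P.E_const 0))

/-! ## types -/

section types

variable (P) (Lb : Om → α) (Lc : Om → β) (Ld : Om → δ) (U : Om → γ) (Mv : Om → Prop) (k4 k2 p2 e : ℝ)

/-- conditional probability to be moved, given the letters of `b` and `d` -/
def al (v : Om) : ℝ := P.ce (fun v => ((Lb v, Ld v), U v)) (fun v => ind (Mv v)) v

/-- conditional probability to be moved, given one letter -/
def mu {ε : Type*} (L' : Om → ε) (v : Om) : ℝ := P.ce (fun v => (L' v, U v)) (fun v => ind (Mv v)) v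

/-- type C : `w = c`, `y = (b, d)` -/
def TC (v : Om) : Prop := Mv v ∧ al P Lb Ld U Mv v < k4 ∧ mu P U Mv Lc v < p2 ∧ dr P Lc (fun v => (Lb v, Ld v)) U v ≤ e

/-- type D : `w = d`, `y = (b, c)` -/
def TD (v : Om) : Prop := Mv v ∧ k4 ≤ al P Lb Ld U Mv v ∧ mu P U Mv Lb v < k2 ∧ mu P U Mv Ld v < p2 ∧
  dr P Ld Lb U v ≤ e ∧ dr P Ld (fun v => (Lb v, Lc v)) U v ≤ e

variable {P Lb Lc Ld U Mv k4 k2 p2 e}

/-- **every moved tuple is of type C or D** -/
theorem split {v : Om} (h1 : Mv v) (h2 : mu P U Mv Lb v < k2) (h3 : mu P U Mv Lc v < p2) (h4 : mu P U Mv Ld v < p2)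
    (h5 : dr P Lc (fun v => (Lb v, Ld v)) U v ≤ e) (h6 : dr P Ld Lb U v ≤ e)
    (h7 : dr P Ld (fun v => (Lb v, Lc v)) U v ≤ e) :
    TC P Lb Lc Ld U Mv k4 p2 e v ∨ TD P Lb Lc Ld U Mv k4 k2 p2 e v := by
  by_cases h : al P Lb Ld U Mv v < k4
  · exact Or.inl ⟨h1, h, h3, h5⟩
  · exact Or.inr ⟨h1, not_lt.1 h, h2, h4, h6, h7⟩

theorem al_fac {v w : Om} (h1 : Lb v = Lb w) (h2 : Ld v = Ld w) (h3 : U v = U w) :
    al P Lb Ld U Mv v = al P Lb Ld U Mv w :=
  P.ce_fac (fun v => ((Lb v, Ld v), U v)) _ v w (by simp only [h1, h2, h3])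

theorem mu_fac {ε : Type*} {L' : Om → ε} {v w : Om} (h1 : L' v = L' w) (h3 : U v = U w) :
    mu P U Mv L' v = mu P U Mv L' w := P.ce_fac (fun v => (L' v, U v)) _ v w (by simp only [h1, h3])

theorem dr_fac' {α β γ : Type*} {F : Om → α} {G : Om → β} {U : Om → γ} {v w : Om} (h1 : F v = F w) (h2 : G v = G w)
    (h3 : U v = U w) : dr P F G U v = dr P F G U w := dr_fac P F G U v w (by simp only [h1, h2, h3])

variable (hM : ∀ v w, Lb v = Lb w → Lc v = Lc w → Ld v = Ld w → U v = U w → (Mv v ↔ Mv w))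
include hM

theorem TC_fac {v w : Om} (h1 : Lb v = Lb w) (h2 : Lc v = Lc w) (h3 : Ld v = Ld w) (h4 : U v = U w) :
    TC P Lb Lc Ld U Mv k4 p2 e v ↔ TC P Lb Lc Ld U Mv k4 p2 e w := by
  unfold TC
  rw [hM v w h1 h2 h3 h4, al_fac h1 h3 h4, mu_fac h2 h4,
    dr_fac' h2 (show (fun v => (Lb v, Ld v)) v = (fun v => (Lb v, Ld v)) w from Prod.ext h1 h3) h4]

theorem TD_fac {v w : Om} (h1 : Lb v = Lb w) (h2 : Lc v = Lc w) (h3 : Ld v = Ld w) (h4 : U v = U w) :
    TD P Lb Lc Ld U Mv k4 k2 p2 e v ↔ TD P Lb Lc Ld U Mv k4 k2 p2 e w := by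
  unfold TD
  rw [hM v w h1 h2 h3 h4, al_fac h1 h3 h4, mu_fac h1 h4, mu_fac h3 h4, dr_fac' h3 h1 h4,
    dr_fac' h3 (show (fun v => (Lb v, Lc v)) v = (fun v => (Lb v, Lc v)) w from Prod.ext h1 h2) h4]

/-- column mass, type C : fixed `(b, d)`, mass of `c` -/
theorem colC (he : 0 ≤ e) (hk : 0 ≤ k4) {w : Om} (hw : P.p w ≠ 0) :
    P.ce U (fun v => ind (rw_ P Lc (fun v => (Lb v, Ld v)) U (TC P Lb Lc Ld U Mv k4 p2 e) w v)) w ≤ e * k4 := by
  refine (row_mass Lc (fun v => (Lb v, Ld v)) U (E := TC P Lb Lc Ld U Mv k4 p2 e) (fun v w h1 h2 h3 =>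
    TC_fac hM (Prod.mk.inj h2).1 h1 (Prod.mk.inj h2).2 h3) he (fun v _ h => h.2.2.2) hw).trans ?_
  refine mul_le_mul_of_nonneg_left ?_ he
  by_cases h : al P Lb Ld U Mv w < k4
  · refine le_trans ?_ h.le
    exact P.ce_mono (fun v _ => ind_mono fun hh => hh.1) w
  · refine le_trans (le_of_eq ?_) hk
    have h1 : ∀ v, P.p v ≠ 0 → ((Lb v, Ld v), U v) = ((Lb w, Ld w), U w) →
        ind (TC P Lb Lc Ld U Mv k4 p2 e v) ≤ (0 : ℝ) := by
      intro v _ hv
      refine le_of_eq (ind_not fun hh => h ?_)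
      rw [← al_fac (Mv := Mv) (P := P) (congrArg (fun x : (α × δ) × γ => x.1.1) hv) (congrArg (fun x : (α × δ) × γ => x.1.2) hv)
        (congrArg (fun x : (α × δ) × γ => x.2) hv)]
      exact hh.2.1
    exact le_antisymm (zero_on h1) (P.ce_nonneg (fun _ _ => ind_nonneg _) w)

/-- row mass, type C : fixed `c`, mass of `(b, d)` -/
theorem rowC (he : 0 ≤ e) (hp : 0 ≤ p2) {w : Om} (hw : P.p w ≠ 0) :
    P.ce U (fun v => ind (rw_ P (fun v => (Lb v, Ld v)) Lc U (TC P Lb Lc Ld U Mv k4 p2 e) w v)) w ≤ e * p2 := by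
  refine (row_mass (fun v => (Lb v, Ld v)) Lc U (E := TC P Lb Lc Ld U Mv k4 p2 e) (fun v w h1 h2 h3 =>
    TC_fac hM (Prod.mk.inj h1).1 h2 (Prod.mk.inj h1).2 h3) he (fun v _ h => ?_) hw).trans ?_
  · rw [dr_comm]
    exact h.2.2.2
  refine mul_le_mul_of_nonneg_left ?_ he
  by_cases h : mu P U Mv Lc w < p2
  · refine le_trans ?_ h.le
    exact P.ce_mono (fun v _ => ind_mono fun hh => hh.1) w
  · refine le_trans (le_of_eq ?_) hp
    have h1 : ∀ v, P.p v ≠ 0 → (Lc v, U v) = (Lc w, U w) → ind (TC P Lb Lc Ld U Mv k4 p2 e v) ≤ (0 : ℝ) := by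
      intro v _ hv
      refine le_of_eq (ind_not fun hh => h ?_)
      rw [← mu_fac (Mv := Mv) (P := P) (Prod.mk.inj hv).1 (Prod.mk.inj hv).2]
      exact hh.2.2.1
    exact le_antisymm (zero_on h1) (P.ce_nonneg (fun _ _ => ind_nonneg _) w)

/-- row mass, type D : fixed `d`, mass of `(b, c)` -/
theorem rowD (he : 0 ≤ e) (hp : 0 ≤ p2) {w : Om} (hw : P.p w ≠ 0) :
    P.ce U (fun v => ind (rw_ P (fun v => (Lb v, Lc v)) Ld U (TD P Lb Lc Ld U Mv k4 k2 p2 e) w v)) w ≤ e * p2 := by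
  refine (row_mass (fun v => (Lb v, Lc v)) Ld U (E := TD P Lb Lc Ld U Mv k4 k2 p2 e) (fun v w h1 h2 h3 =>
    TD_fac hM (Prod.mk.inj h1).1 (Prod.mk.inj h1).2 h2 h3) he (fun v _ h => ?_) hw).trans ?_
  · rw [dr_comm]
    exact h.2.2.2.2.2
  refine mul_le_mul_of_nonneg_left ?_ he
  by_cases h : mu P U Mv Ld w < p2
  · refine le_trans ?_ h.le
    exact P.ce_mono (fun v _ => ind_mono fun hh => hh.1) w
  · refine le_trans (le_of_eq ?_) hp
    have h1 : ∀ v, P.p v ≠ 0 → (Ld v, U v) = (Ld w, U w) → ind (TD P Lb Lc Ld U Mv k4 k2 p2 e v) ≤ (0 : ℝ) := by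
      intro v _ hv
      refine le_of_eq (ind_not fun hh => h ?_)
      rw [← mu_fac (Mv := Mv) (P := P) (Prod.mk.inj hv).1 (Prod.mk.inj hv).2]
      exact hh.2.2.2.1
    exact le_antisymm (zero_on h1) (P.ce_nonneg (fun _ _ => ind_nonneg _) w)

omit hM in
/-- column mass, type D : fixed `(b, c)`, mass of `d` -/
theorem colD (he : 0 ≤ e) (hk : 0 < k4) (hk2 : 0 ≤ k2) {w : Om} (hw : P.p w ≠ 0) :
    P.ce U (fun v => ind (rw_ P Ld (fun v => (Lb v, Lc v)) U (TD P Lb Lc Ld U Mv k4 k2 p2 e) w v)) w ≤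
      e * (k2 / k4) := by
  set E' : Om → Prop := fun v => k4 ≤ al P Lb Ld U Mv v ∧ mu P U Mv Lb v < k2 ∧ dr P Ld Lb U v ≤ e with hE'
  have h1 : P.ce U (fun v => ind (rw_ P Ld (fun v => (Lb v, Lc v)) U (TD P Lb Lc Ld U Mv k4 k2 p2 e) w v)) w ≤
      P.ce U (fun v => ind (rw_ P Ld Lb U E' w v)) w := by
    refine P.ce_mono (fun v _ => ind_mono ?_) w
    rintro ⟨z, hz, f1, f2, f3, f4⟩
    exact ⟨z, hz, f1, (Prod.mk.inj f2).1, f3, f4.2.1, f4.2.2.1, f4.2.2.2.2.1⟩
  refine h1.trans ((row_mass Ld Lb U (E := E') (fun v w h1 h2 h3 => ?_) he (fun v _ h => h.2.2) hw).trans ?_)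
  · rw [hE']
    simp only
    rw [al_fac h2 h1 h3, mu_fac h2 h3, dr_fac' h1 h2 h3]
  refine mul_le_mul_of_nonneg_left ?_ he
  by_cases h : mu P U Mv Lb w < k2
  · have h2 := mkv (P := P) (X := fun v => (Lb v, U v)) (Y := fun v => ((Lb v, Ld v), U v))
      (f := fun v => ind (Mv v)) (fun a b hab => by
        exact Prod.ext (congrArg (fun x : (α × δ) × γ => x.1.1) hab) (congrArg (fun x : (α × δ) × γ => x.2) hab))
      (fun v => ind_nonneg _) hk w
    refine le_trans (P.ce_mono (fun v _ => ind_mono fun hh => hh.1) w) (h2.trans ?_)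
    exact div_le_div_of_nonneg_right h.le hk.le
  · refine le_trans (le_of_eq ?_) (div_nonneg hk2 hk.le)
    have h1 : ∀ v, P.p v ≠ 0 → (Lb v, U v) = (Lb w, U w) → ind (E' v) ≤ (0 : ℝ) := by
      intro v _ hv
      refine le_of_eq (ind_not fun hh => h ?_)
      rw [← mu_fac (Mv := Mv) (P := P) (Prod.mk.inj hv).1 (Prod.mk.inj hv).2]
      exact hh.2.1
    exact le_antisymm (zero_on h1) (P.ce_nonneg (fun _ _ => ind_nonneg _) w)

end types

end

end Pool.Agent.GMH.MvF
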