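import Pool.Agent.GMH.MV1
import Pool.Agent.GMH.TD8
import Pool.Agent.GMH.MvF

/-!
# GMH/MV4 (helper2): facts at a removal (H3.MOV, M.5), over the data `MS` of `GMH/MVdef`

`ν ≤ s` in one public epoch, `u` not listed.  `Ls` = list of `(ν, s]`, `LT` = thin triples over which the list has conditional
mass `≥ ρ`.
* `stat` : conservation: an event of the tuples at `ν` has at `s` (at exact points, given the letter of `v`) at least its mass
  minus the list;
* `mv_stat` : moved at `ν`, not listed: moved at `s` or in `LT`;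
* `dens` : points at which the static conditional mass is `≥ k`: density at most `2/k (mass at s + list)` in the class of `v`;
* `cind` : in a code step the points are independent of the new public value, given the class of `v` (`PrX`);
* `rem_sum` : summed over any removal events seen by the letter of `v` and the new public value; `f2_sum`, `f3_sum` : (F2), (F3)
  in the form of `MvF` (`mu`), `lst_bad` : exact classes with a heavy list are rare.
-/

set_option autoImplicit false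
set_option linter.unusedSectionVars false

namespace Pool.Agent.GMH.MV4

open Finset Pool.Agent.PWZ Pool.Agent.M3 Pool.Agent.GMH.TD Pool.Agent.GMH.CK Pool.Agent.GMH.MV

noncomputable section

variable {Om : Type} [Fintype Om] (M : MS Om)

/-- the class of the letter of `v` with all exact points -/
def Zx (v : Fin 3) (s : ℕ) (w : Om) : M.lam × ((Fin 3 → M.η) × M.κ) := (M.XL v s w, (YF M (univ, univ) w, M.NP s w))

/-- the list over the thin triple -/
def LT (r : ℝ) (ν s : ℕ) (w : Om) : Prop := r ≤ M.P.ce (TH M s) (fun u => ind (Lst M ν s u)) w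

variable {M}

theorem TH_YA (s : ℕ) : Fac (TH M s) (fun w => (YF M (univ, univ) w, M.NP s w)) := by
  intro a b hab
  have h1 : (fun j => M.XL j s a) = (fun j => M.XL j s b) := congrArg Prod.fst hab
  have h2 : M.NP s a = M.NP s b := congrArg Prod.snd hab
  exact Prod.ext (funext fun j => M.hXY j s a b (congrFun h1 j)) h2

theorem TH_Zx (v : Fin 3) (s : ℕ) : Fac (TH M s) (Zx M v s) := by
  intro a b hab
  have h1 : (fun j => M.XL j s a) = (fun j => M.XL j s b) := congrArg Prod.fst hab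
  exact Prod.ext (congrFun h1 v) (TH_YA s a b hab)

/-- the family of all thin letters is the thin triple -/
theorem L0_TH (s : ℕ) {a b : Om} : (LF M (univ, ∅) s a, M.NP s a) = (LF M (univ, ∅) s b, M.NP s b) ↔
    TH M s a = TH M s b := by
  classical
  constructor
  · intro h
    have h1 : LF M (univ, ∅) s a = LF M (univ, ∅) s b := congrArg Prod.fst h
    have h2 : M.NP s a = M.NP s b := congrArg Prod.snd h
    refine Prod.ext (funext fun j => ?_) h2
    have h3 := congrFun (congrArg Prod.fst h1) j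
    simp only [LF, mem_univ, if_true] at h3
    exact Option.some.inj h3
  · intro h
    have h1 : (fun j => M.XL j s a) = (fun j => M.XL j s b) := congrArg Prod.fst h
    have h2 : M.NP s a = M.NP s b := congrArg Prod.snd h
    refine Prod.ext ?_ h2
    show LF M (univ, ∅) s a = LF M (univ, ∅) s b
    have h3 : YF M (univ, ∅) a = YF M (univ, ∅) b := congrArg Prod.fst (TH_YA s a b h)
    unfold LF
    simp only [h3, mem_univ, if_true, notMem_empty, if_false]
    have h4 : ∀ j, M.XL j s a = M.XL j s b := fun j => congrFun h1 j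
    simp only [h4]

theorem full_TH (s : ℕ) : Fac (fun w => (LF M (univ, univ) s w, M.NP s w)) (TH M s) := by
  classical
  intro a b h
  have h1 : LF M (univ, univ) s a = LF M (univ, univ) s b := congrArg Prod.fst h
  have h2 : M.NP s a = M.NP s b := congrArg Prod.snd h
  refine Prod.ext (funext fun j => ?_) h2
  have h3 := congrFun (congrArg Prod.fst h1) j
  simp only [LF, mem_univ, if_true] at h3
  exact Option.some.inj h3

/-- a point which is not listed has not moved -/
theorem not_mv {ν s : ℕ} (hs : ν ≤ s) {u : Om} (h : ¬ Lst M ν s u) (i : Finset (Fin 3) × Finset (Fin 3)) :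
    ¬ Mv1 M.P M.NP (LF M i) (YF M i) M.d0 ν s u := by
  rcases Nat.eq_or_lt_of_le hs with rfl | h1
  · unfold Mv1
    rw [Finset.Ico_self, Finset.sum_empty, Finset.sum_empty, abs_zero]
    have := M.hd0
    rintro (h2 | h2) <;> linarith
  · exact fun h2 => h (Or.inl ⟨s, h1, le_rfl, i, h2⟩)

theorem not_tau {ν s : ℕ} (hs : ν ≤ s) {u : Om} (h : ¬ Lst M ν s u) (v : Fin 3) : tau M v s u = tau M v ν u := by
  have key : ∀ j, ν ≤ j → j ≤ s → tau M v j u = tau M v ν u := by
    intro j hj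
    induction j, hj using Nat.le_induction with
    | base => exact fun _ => rfl
    | succ j hj ih =>
      intro hjs
      rw [← ih (by omega)]
      rcases stg_or (C := Cx M v) j u with h1 | h1
      · exact absurd (Or.inr (Or.inl ⟨v, j + 1, by omega, hjs, h1⟩)) h
      · exact h1
  exact key s hs le_rfl

/-! ## conservation -/

/-- the own letter of `v` and all points -/
theorem Lv_XL (v : Fin 3) (s : ℕ) {a b : Om} : (LF M ({v}, ∅) s a, M.NP s a) = (LF M ({v}, ∅) s b, M.NP s b) ↔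
    Zx M v s a = Zx M v s b := by
  classical
  constructor
  · intro h
    have h1 : LF M ({v}, ∅) s a = LF M ({v}, ∅) s b := congrArg Prod.fst h
    have h2 : M.NP s a = M.NP s b := congrArg Prod.snd h
    have h3 := congrFun (congrArg Prod.fst h1) v
    have h4 : YF M ({v}, ∅) a = YF M ({v}, ∅) b :=
      congrArg (fun t : (Fin 3 → Option M.lam) × ((Fin 3 → Option M.ph) × (Fin 3 → M.η)) => t.2.2) h1
    simp only [LF, mem_singleton, if_true] at h3
    exact Prod.ext (Option.some.inj h3) (Prod.ext h4 h2)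
  · intro h
    have h1 : M.XL v s a = M.XL v s b := congrArg Prod.fst h
    have h5 : (YF M (univ, univ) a, M.NP s a) = (YF M (univ, univ) b, M.NP s b) := congrArg Prod.snd h
    have h2 : M.NP s a = M.NP s b := congrArg Prod.snd h5
    have h3 : YF M ({v}, ∅) a = YF M ({v}, ∅) b := congrArg Prod.fst h5
    refine Prod.ext ?_ h2
    show LF M ({v}, ∅) s a = LF M ({v}, ∅) s b
    unfold LF
    have h4 : (fun j => if j ∈ ({v} : Finset (Fin 3)) then some (M.XL j s a) else Option.none) =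
        (fun j => if j ∈ ({v} : Finset (Fin 3)) then some (M.XL j s b) else Option.none) := by
      funext j
      by_cases hj : j ∈ ({v} : Finset (Fin 3))
      · have hj' := mem_singleton.1 hj
        subst hj'
        rw [if_pos hj, if_pos hj, h1]
      · rw [if_neg hj, if_neg hj]
    simp only [h3, notMem_empty, if_false]
    exact Prod.ext h4 rfl

/-- **conservation of mass outside the list** -/
theorem cons {ζ : Type*} {Z : ℕ → Om → ζ} {ν s : ℕ} (hs : ν ≤ s) (hd : M.d0 < Real.log 2)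
    (hZ1 : ∀ t, Fac (Z t) (fun w => (YF M (univ, univ) w, M.NP t w))) (hZ2 : Fac (Z s) (Z ν))
    (hZ3 : Fac (fun w => (LF M (univ, univ) ν w, M.NP ν w)) (Z ν)) {A : Om → Prop}
    (hA : Fac (fun w => (LF M (univ, univ) ν w, M.NP ν w)) A) {u : Om} (hu : M.P.p u ≠ 0)
    (hq : M.P.m (Z ν) u / M.P.m (fun w => (YF M (univ, univ) w, M.NP ν w)) u ≤
      Real.exp (2 * M.d0) * (M.P.m (Z s) u / M.P.m (fun w => (YF M (univ, univ) w, M.NP s w)) u)) :
    M.P.ce (Z s) (fun x => ind (¬ (A x ∨ Lst M ν s x))) u ≤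
      Real.exp (3 * M.d0) * M.P.ce (Z ν) (fun x => ind (¬ A x)) u := by
  have h1 := unm_le (P := M.P) (N := M.NP) (L := LF M (univ, univ)) (Y := YF M (univ, univ)) M.hN
    (LF_step M (univ, univ)) (LF_YF M (univ, univ)) hd hs (A := fun x => Z ν x = Z ν u ∧ ¬ A x)
    (fun a b hab => by
      have e1 : Z ν a = Z ν b := hZ3 a b hab
      have e2 : A a = A b := hA a b hab
      simp only [e1, e2]) hu
  have pZs := M.P.m_pos (Z s) hu
  have pZn := M.P.m_pos (Z ν) hu
  have pYs := M.P.m_pos (fun w => (YF M (univ, univ) w, M.NP s w)) hu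
  have pYn := M.P.m_pos (fun w => (YF M (univ, univ) w, M.NP ν w)) hu
  set cs : ℝ := M.P.ce (Z s) (fun x => ind (¬ (A x ∨ Lst M ν s x))) u with hcs
  set cn : ℝ := M.P.ce (Z ν) (fun x => ind (¬ A x)) u with hcn
  -- time s
  have h2 : cs * M.P.m (Z s) u ≤ M.P.ce (fun w => (YF M (univ, univ) w, M.NP s w))
      (fun x => ind (¬ Mv1 M.P M.NP (LF M (univ, univ)) (YF M (univ, univ)) M.d0 ν s x ∧
        (Z ν x = Z ν u ∧ ¬ A x))) u * M.P.m (fun w => (YF M (univ, univ) w, M.NP s w)) u := by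
    rw [hcs]
    unfold FP.ce
    rw [div_mul_cancel₀ _ pZs.ne', div_mul_cancel₀ _ pYs.ne']
    refine M.P.E_mono fun x _ => ?_
    rw [← ind_and, ← ind_and]
    refine ind_mono ?_
    rintro ⟨g1, g2⟩
    refine ⟨hZ1 s x u g1, not_mv hs (fun h => g2 (Or.inr h)) (univ, univ), hZ2 x u g1, fun h => g2 (Or.inl h)⟩
  -- time ν
  have h3 : M.P.ce (fun w => (YF M (univ, univ) w, M.NP ν w)) (fun x => ind (Z ν x = Z ν u ∧ ¬ A x)) u *
      M.P.m (fun w => (YF M (univ, univ) w, M.NP ν w)) u = cn * M.P.m (Z ν) u := by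
    rw [hcn]
    unfold FP.ce
    rw [div_mul_cancel₀ _ pZn.ne', div_mul_cancel₀ _ pYn.ne']
    refine M.P.E_congr fun x _ => ?_
    rw [← ind_and, ← ind_and]
    congr 1
    refine propext ⟨fun g => ⟨g.2.1, g.2.2⟩, fun g => ⟨hZ1 ν x u g.1, g.1, g.2⟩⟩
  have h4 : cs * (M.P.m (Z s) u / M.P.m (fun w => (YF M (univ, univ) w, M.NP s w)) u) ≤
      Real.exp M.d0 * (cn * (M.P.m (Z ν) u / M.P.m (fun w => (YF M (univ, univ) w, M.NP ν w)) u)) := by
    have e1 : cs * (M.P.m (Z s) u / M.P.m (fun w => (YF M (univ, univ) w, M.NP s w)) u) =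
        cs * M.P.m (Z s) u / M.P.m (fun w => (YF M (univ, univ) w, M.NP s w)) u := by ring
    have e2 : cn * (M.P.m (Z ν) u / M.P.m (fun w => (YF M (univ, univ) w, M.NP ν w)) u) =
        cn * M.P.m (Z ν) u / M.P.m (fun w => (YF M (univ, univ) w, M.NP ν w)) u := by ring
    rw [e1, e2, ← h3, mul_div_cancel_right₀ _ pYn.ne', div_le_iff₀ pYs]
    exact h2.trans (mul_le_mul_of_nonneg_right h1 pYs.le)
  have hcn0 : 0 ≤ cn := M.P.ce_nonneg (fun _ _ => ind_nonneg _) u
  have h5 := mul_le_mul_of_nonneg_left hq hcn0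
  have h6 : cs * (M.P.m (Z s) u / M.P.m (fun w => (YF M (univ, univ) w, M.NP s w)) u) ≤
      Real.exp (3 * M.d0) * cn * (M.P.m (Z s) u / M.P.m (fun w => (YF M (univ, univ) w, M.NP s w)) u) := by
    have e3 : Real.exp (3 * M.d0) = Real.exp M.d0 * Real.exp (2 * M.d0) := by
      rw [← Real.exp_add]
      congr 1
      ring
    refine h4.trans ((mul_le_mul_of_nonneg_left h5 (Real.exp_pos _).le).trans (le_of_eq ?_))
    rw [e3]
    ring
  exact le_of_mul_le_mul_right h6 (div_pos pZs pYs)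

/-- an unmoved family keeps its conditional mass -/
theorem keep_q {ν s : ℕ} (hs : ν ≤ s) {u : Om} (hu : M.P.p u ≠ 0) (i : Finset (Fin 3) × Finset (Fin 3))
    (h : ¬ Lst M ν s u) :
    M.P.m (fun w => (LF M i ν w, M.NP ν w)) u / M.P.m (fun w => (YF M i w, M.NP ν w)) u ≤
      Real.exp (2 * M.d0) * (M.P.m (fun w => (LF M i s w, M.NP s w)) u / M.P.m (fun w => (YF M i w, M.NP s w)) u) := by
  have h1 := not_mv hs h i
  have h2 := lq_tel8 (P := M.P) (N := M.NP) (L := LF M i) (Y := YF M i) hs u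
  have h3 : ∑ j ∈ Ico ν s, ai M.P M.NP (LF M i) (YF M i) j u > - M.d0 := by
    by_contra hc
    refine h1 (Or.inl ?_)
    have := neg_le_abs (∑ j ∈ Ico ν s, ai M.P M.NP (LF M i) (YF M i) j u)
    linarith
  have h4 : ∑ j ∈ Ico ν s, bi M.P M.NP (LF M i) (YF M i) j u < M.d0 := lt_of_not_ge fun hc => h1 (Or.inr hc)
  have h5 : lq M.P M.NP (LF M i) (YF M i) ν u ≤ 2 * M.d0 + lq M.P M.NP (LF M i) (YF M i) s u := by linarith
  have h6 := Real.exp_le_exp.2 h5
  have p1 := M.P.m_pos (fun w => (LF M i ν w, M.NP ν w)) hu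
  have p2 := M.P.m_pos (fun w => (LF M i s w, M.NP s w)) hu
  have p3 := M.P.m_pos (fun w => (YF M i w, M.NP ν w)) hu
  have p4 := M.P.m_pos (fun w => (YF M i w, M.NP s w)) hu
  rw [Real.exp_add] at h6
  unfold lq at h6
  rwa [Real.exp_log (div_pos p1 p3), Real.exp_log (div_pos p2 p4)] at h6

/-- conservation over a thin triple -/
theorem cons_TH {ν s : ℕ} (hs : ν ≤ s) (hd : M.d0 < Real.log 2) {A : Om → Prop}
    (hA : Fac (fun w => (LF M (univ, univ) ν w, M.NP ν w)) A) {u : Om} (hu : M.P.p u ≠ 0) (h : ¬ Lst M ν s u) :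
    M.P.ce (TH M s) (fun x => ind (¬ (A x ∨ Lst M ν s x))) u ≤
      Real.exp (3 * M.d0) * M.P.ce (TH M ν) (fun x => ind (¬ A x)) u := by
  have key : ∀ t, M.P.m (TH M t) u / M.P.m (fun w => (YF M (univ, univ) w, M.NP t w)) u =
      M.P.m (fun w => (LF M (univ, ∅) t w, M.NP t w)) u / M.P.m (fun w => (YF M (univ, ∅) w, M.NP t w)) u := by
    intro t
    congr 1
    exact M.P.m_congr (X := TH M t) (Y := fun w => (LF M (univ, ∅) t w, M.NP t w))
      (fun a b hab => (L0_TH t).2 hab) (fun a b hab => (L0_TH t).1 hab) u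
  refine cons hs hd TH_YA ?_ (full_TH ν) hA hu ?_
  · exact fac_le (TH_step M) hs
  · rw [key ν, key s]
    exact keep_q hs hu (univ, ∅) h

/-- conservation at exact points, given the letter of `v` -/
theorem cons_Z (v : Fin 3) {ν s : ℕ} (hs : ν ≤ s) (hd : M.d0 < Real.log 2) {A : Om → Prop}
    (hA : Fac (fun w => (LF M (univ, univ) ν w, M.NP ν w)) A) {u : Om} (hu : M.P.p u ≠ 0) (h : ¬ Lst M ν s u) :
    M.P.ce (Zx M v s) (fun x => ind (¬ (A x ∨ Lst M ν s x))) u ≤
      Real.exp (3 * M.d0) * M.P.ce (Zx M v ν) (fun x => ind (¬ A x)) u := by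
  have key : ∀ t, M.P.m (Zx M v t) u / M.P.m (fun w => (YF M (univ, univ) w, M.NP t w)) u =
      M.P.m (fun w => (LF M ({v}, ∅) t w, M.NP t w)) u / M.P.m (fun w => (YF M ({v}, ∅) w, M.NP t w)) u := by
    intro t
    congr 1
    exact M.P.m_congr (X := Zx M v t) (Y := fun w => (LF M ({v}, ∅) t w, M.NP t w))
      (fun a b hab => (Lv_XL v t).2 hab) (fun a b hab => (Lv_XL v t).1 hab) u
  refine cons hs hd (fun t a b hab => congrArg Prod.snd hab) ?_ ?_ hA hu ?_
  · intro a b hab
    have h1 : M.XL v s a = M.XL v s b := congrArg Prod.fst hab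
    have h2 : (YF M (univ, univ) a, M.NP s a) = (YF M (univ, univ) b, M.NP s b) := congrArg Prod.snd hab
    have h3 : YF M (univ, univ) a = YF M (univ, univ) b := congrArg Prod.fst h2
    have h4 : M.NP s a = M.NP s b := congrArg Prod.snd h2
    exact Prod.ext (fac_le (M.hX v) hs a b h1) (Prod.ext h3 (fac_le M.hN hs a b h4))
  · exact (full_TH ν).trans (TH_Zx v ν)
  · rw [key ν, key s]
    exact keep_q hs hu ({v}, ∅) h

/-! ## the static sets and the current sets -/

theorem mono_on {ζ : Type*} {X : Om → ζ} {f g : Om → ℝ} {w : Om}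
    (h : ∀ x, M.P.p x ≠ 0 → X x = X w → f x ≤ g x) : M.P.ce X f w ≤ M.P.ce X g w := by
  unfold FP.ce
  refine div_le_div_of_nonneg_right (M.P.E_mono fun x hx => ?_) (M.P.m_nonneg X w)
  by_cases hX : X x = X w
  · rw [ind_of hX, one_mul, one_mul]
    exact h x hx hX
  · rw [ind_not hX, zero_mul, zero_mul]

theorem ce_compl {ζ : Type*} (X : Om → ζ) (A : Om → Prop) {w : Om} (hw : M.P.p w ≠ 0) :
    M.P.ce X (fun x => ind (¬ A x)) w = 1 - M.P.ce X (fun x => ind (A x)) w := by
  have h1 : M.P.ce X (fun x => ind (¬ A x) + ind (A x)) w = 1 := by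
    rw [show (fun x => ind (¬ A x) + ind (A x)) = fun _ => (1 : ℝ) from funext fun x => ?_]
    · exact M.P.ce_const _ 1 hw
    · by_cases h : A x
      · rw [ind_of h, ind_not (not_not.2 h), zero_add]
      · rw [ind_not h, ind_of h, add_zero]
  rw [M.P.ce_add] at h1
  linarith

/-- the moved point of the exact epoch -/
def Ev (M : MS Om) (v : Fin 3) (ν : ℕ) (x : Om) : Prop := Ex M v (tau M v ν x) ν x

theorem Ev_fac (v : Fin 3) (ν : ℕ) : Fac (fun w => (LF M (univ, univ) ν w, M.NP ν w)) (Ev M v ν) := by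
  intro a b hab
  have h1 : tau M v ν a = tau M v ν b := tau_fac M v ν a b (TH_CN M v ν a b (full_TH ν a b hab))
  have h2 : Ex M v (tau M v ν a) ν a = Ex M v (tau M v ν a) ν b := Ex_fac M v (tau M v ν a) a b hab
  show Ex M v (tau M v ν a) ν a = Ex M v (tau M v ν b) ν b
  rw [h2, h1]

/-- **moved at `ν`, not listed : moved at `s` or over the list** -/
theorem mv_stat {Lam : ℝ} (hT : Thk M Lam) (hsm : 12 * M.d0 ≤ Real.exp (-(4 * Lam))) (hL : 0 ≤ Lam) {ν s : ℕ} (hs : ν ≤ s)
    {u : Om} (hu : M.P.p u ≠ 0) (h : ¬ Lst M ν s u) {v : Fin 3} (hv : Mv M v ν u) :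
    Mv M v s u ∨ LT M (Real.exp (-(4 * Lam)) / 2) ν s u := by
  set q : ℝ := Real.exp (-(4 * Lam)) with hq
  have hq1 : q ≤ 1 := Real.exp_le_one_iff.2 (by linarith)
  have hd := M.hd0
  have hdl : M.d0 ≤ 1 / 12 := by linarith
  have hlog : M.d0 < Real.log 2 := by
    have := Real.log_two_gt_d9
    linarith
  by_cases hm : Mv M v s u
  · exact Or.inl hm
  refine Or.inr ?_
  have h1 : q ≤ M.P.ce (TH M ν) (fun x => ind (Ev M v ν x)) u := hT ν (Ev M v ν) (Ev_fac v ν) u hu hv
  have h2 := cons_TH hs hlog (A := Ev M v ν) (Ev_fac v ν) hu h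
  rw [ce_compl (TH M ν) (Ev M v ν) hu, ce_compl (TH M s) (fun x => Ev M v ν x ∨ Lst M ν s x) hu] at h2
  have h3 : M.P.ce (TH M s) (fun x => ind (Ev M v ν x ∨ Lst M ν s x)) u ≤
      M.P.ce (TH M s) (fun x => ind (Ex M v (tau M v s x) s x)) u + M.P.ce (TH M s) (fun x => ind (Lst M ν s x)) u := by
    rw [← M.P.ce_add]
    refine mono_on fun x hx hX => ?_
    have e1 : tau M v s x = tau M v s u := tau_fac M v s x u (TH_CN M v s x u hX)
    have e2 : tau M v ν x = tau M v ν u := tau_fac M v ν x u (TH_CN M v ν x u (fac_le (TH_step M) hs x u hX))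
    have e3 : tau M v s u = tau M v ν u := not_tau hs h v
    by_cases h4 : Lst M ν s x
    · rw [ind_of h4]
      have := ind_le_one (Ev M v ν x ∨ Lst M ν s x)
      have := ind_nonneg (Ex M v (tau M v s x) s x)
      linarith
    · by_cases h5 : Ev M v ν x
      · have h6 : Ex M v (tau M v s x) s x := by
          rw [e1, e3, ← e2]
          exact Ex_mono M hs h5
        rw [ind_of h6]
        have := ind_le_one (Ev M v ν x ∨ Lst M ν s x)
        have := ind_nonneg (Lst M ν s x)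
        linarith
      · rw [ind_not (fun hh => hh.elim h5 h4)]
        exact add_nonneg (ind_nonneg _) (ind_nonneg _)
  have h4 : M.P.ce (TH M s) (fun x => ind (Ex M v (tau M v s x) s x)) u ≤ 0 := not_lt.1 hm
  have h5 : Real.exp (3 * M.d0) ≤ 1 + 6 * M.d0 := by
    have h6 := Real.abs_exp_sub_one_le (x := 3 * M.d0) (by rw [abs_of_pos (by positivity)]; linarith)
    rw [abs_of_pos (show 0 < 3 * M.d0 by positivity)] at h6
    have := (abs_le.1 h6).2
    linarith
  have h6 : Real.exp (3 * M.d0) * (1 - M.P.ce (TH M ν) (fun x => ind (Ev M v ν x)) u) ≤ (1 + 6 * M.d0) * (1 - q) :=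
    mul_le_mul h5 (by linarith) (by
      have : M.P.ce (TH M ν) (fun x => ind (Ev M v ν x)) u ≤ 1 := M.P.ce_le_const (fun _ _ => ind_le_one _) hu
      linarith) (by positivity)
  show q / 2 ≤ M.P.ce (TH M s) (fun u => ind (Lst M ν s u)) u
  have hq0 : 0 < q := Real.exp_pos _
  nlinarith

/-- conservation as a lower bound -/
theorem stat (v : Fin 3) (hd : M.d0 ≤ 1 / 12) {ν s : ℕ} (hs : ν ≤ s) {A : Om → Prop}
    (hA : Fac (fun w => (LF M (univ, univ) ν w, M.NP ν w)) A) {u : Om} (hu : M.P.p u ≠ 0) (h : ¬ Lst M ν s u) :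
    M.P.ce (Zx M v ν) (fun x => ind (A x)) u ≤
      M.P.ce (Zx M v s) (fun x => ind (A x ∨ Lst M ν s x)) u + 6 * M.d0 := by
  have hd0 := M.hd0
  have hlog : M.d0 < Real.log 2 := by
    have := Real.log_two_gt_d9
    linarith
  have h2 := cons_Z v hs hlog hA hu h
  rw [ce_compl (Zx M v ν) A hu, ce_compl (Zx M v s) (fun x => A x ∨ Lst M ν s x) hu] at h2
  have h5 : Real.exp (3 * M.d0) ≤ 1 + 6 * M.d0 := by
    have h6 := Real.abs_exp_sub_one_le (x := 3 * M.d0) (by rw [abs_of_pos (by positivity)]; linarith)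
    rw [abs_of_pos (show 0 < 3 * M.d0 by positivity)] at h6
    have := (abs_le.1 h6).2
    linarith
  have h7 : M.P.ce (Zx M v ν) (fun x => ind (A x)) u ≤ 1 := M.P.ce_le_const (fun _ _ => ind_le_one _) hu
  have h8 : 0 ≤ M.P.ce (Zx M v ν) (fun x => ind (A x)) u := M.P.ce_nonneg (fun _ _ => ind_nonneg _) u
  have h6 : Real.exp (3 * M.d0) * (1 - M.P.ce (Zx M v ν) (fun x => ind (A x)) u) ≤
      (1 + 6 * M.d0) * (1 - M.P.ce (Zx M v ν) (fun x => ind (A x)) u) := mul_le_mul_of_nonneg_right h5 (by linarith)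
  nlinarith

/-- the points at which the event has large mass at the time `s` -/
def JJ (M : MS Om) (A : ℕ → Om → Prop) (v : Fin 3) (k : ℝ) (ν s : ℕ) (x : Om) : Prop :=
  k / 2 ≤ M.P.ce (Zx M v s) (fun y => ind (A ν y ∨ Lst M ν s y)) x

theorem JJ_fac (A : ℕ → Om → Prop) (v : Fin 3) (k : ℝ) (ν s : ℕ) {x y : Om} (h : Zx M v s x = Zx M v s y) :
    JJ M A v k ν s x ↔ JJ M A v k ν s y := by
  unfold JJ
  rw [M.P.ce_fac (Zx M v s) _ x y h]

/-- a static set of large mass at the exact points -/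
theorem JJ_of (v : Fin 3) (hd : M.d0 ≤ 1 / 12) {ν s : ℕ} (hs : ν ≤ s) {A : ℕ → Om → Prop}
    (hA : Fac (TH M ν) (A ν)) {k : ℝ} (hk : 12 * M.d0 ≤ k) {u : Om} (hu : M.P.p u ≠ 0) (h : ¬ Lst M ν s u)
    (h1 : k ≤ M.P.ce (Zx M v ν) (fun x => ind (A ν x)) u) : JJ M A v k ν s u := by
  have h2 := stat v hd hs (A := A ν) ((full_TH ν).trans hA) hu h
  unfold JJ
  linarith

/-- **density of the points** in the class of `v` -/
theorem dens {A : ℕ → Om → Prop} (v : Fin 3) {k r : ℝ} (hk : 0 < k) (hr : 0 < r) {ν s : ℕ}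
    (hAB : ∀ x, M.P.p x ≠ 0 → ¬ Lst M ν s x → A ν x → A s x ∨ LT M r ν s x) (w : Om) :
    M.P.ce (CN M v s) (fun x => ind (JJ M A v k ν s x)) w ≤
      2 / k * (M.P.ce (CN M v s) (fun x => ind (A s x)) w +
        (1 + 1 / r) * M.P.ce (CN M v s) (fun x => ind (Lst M ν s x)) w) := by
  have h1 := MvF.mkv (P := M.P) (X := CN M v s) (Y := Zx M v s) (f := fun y => ind (A ν y ∨ Lst M ν s y))
    (fun a b hab => by
      have e1 : M.XL v s a = M.XL v s b := congrArg Prod.fst hab
      have e2 : M.NP s a = M.NP s b := congrArg (fun t : M.lam × ((Fin 3 → M.η) × M.κ) => t.2.2) hab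
      exact Prod.ext e1 e2) (fun _ => ind_nonneg _) (show 0 < k / 2 by positivity) w
  have h2 := MvF.mkv (P := M.P) (X := CN M v s) (Y := TH M s) (f := fun y => ind (Lst M ν s y)) (TH_CN M v s)
    (fun _ => ind_nonneg _) hr w
  have h3 : M.P.ce (CN M v s) (fun y => ind (A ν y ∨ Lst M ν s y)) w ≤
      M.P.ce (CN M v s) (fun x => ind (A s x)) w + M.P.ce (CN M v s) (fun y => ind (LT M r ν s y)) w +
        M.P.ce (CN M v s) (fun x => ind (Lst M ν s x)) w := by
    rw [← M.P.ce_add, ← M.P.ce_add]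
    refine M.P.ce_mono (fun x hx => ?_) w
    have n1 := ind_nonneg (A s x)
    have n2 := ind_nonneg (LT M r ν s x)
    have n3 := ind_nonneg (Lst M ν s x)
    by_cases h4 : Lst M ν s x
    · rw [ind_of h4, ind_of (Or.inr h4)]
      linarith
    · by_cases h5 : A ν x
      · rw [ind_of (Or.inl h5)]
        rcases hAB x hx h4 h5 with h6 | h6
        · rw [ind_of h6]
          linarith
        · rw [ind_of h6]
          linarith
      · rw [ind_not (fun hh => hh.elim h5 h4)]
        linarith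
  refine h1.trans ?_
  rw [div_div_eq_mul_div, div_le_iff₀ hk]
  have h4 : (2 : ℝ) / k * (M.P.ce (CN M v s) (fun x => ind (A s x)) w +
        (1 + 1 / r) * M.P.ce (CN M v s) (fun x => ind (Lst M ν s x)) w) * k =
      2 * (M.P.ce (CN M v s) (fun x => ind (A s x)) w + M.P.ce (CN M v s) (fun x => ind (Lst M ν s x)) w +
        M.P.ce (CN M v s) (fun x => ind (Lst M ν s x)) w / r) := by
    generalize M.P.ce (CN M v s) (fun x => ind (A s x)) w = a
    generalize M.P.ce (CN M v s) (fun x => ind (Lst M ν s x)) w = b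
    field_simp
    ring
  rw [h4]
  have h5 : M.P.ce (CN M v s) (fun y => ind (LT M r ν s y)) w ≤
    M.P.ce (CN M v s) (fun x => ind (Lst M ν s x)) w / r := h2
  linarith

/-! ## the removals -/

/-- functions of `Y` do not see `N'`, given `C` (masses) -/
theorem ce_le_of {α β γ : Type*} {Y : Om → α} {C : Om → β} {N' : Om → γ}
    (h : ∀ w, M.P.p w ≠ 0 → M.P.m (fun u => (Y u, (N' u, C u))) w * M.P.m C w =
      M.P.m (fun u => (Y u, C u)) w * M.P.m (fun u => (N' u, C u)) w) {f : Om → ℝ}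
    (hf : Fac (fun u => (Y u, C u)) f) (hf0 : ∀ x, 0 ≤ f x) {w : Om} (hw : M.P.p w ≠ 0) :
    M.P.ce (fun u => (N' u, C u)) f w ≤ M.P.ce C f w := by
  have pN := M.P.m_pos (fun u => (N' u, C u)) hw
  have pC := M.P.m_pos C hw
  set c : Om → ℝ := fun y => ind (C y = C w) * (f y * (M.P.m (fun u => (N' u, C u)) w / M.P.m C w)) with hc
  have h1 : M.P.E (fun x => ind ((N' x, C x) = (N' w, C w)) * f x) ≤ M.P.E c := by
    have e1 : M.P.E (fun x => ind ((N' x, C x) = (N' w, C w)) * f x) =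
        M.P.E (fun x => M.P.E (fun y => ind ((N' x, C x) = (N' w, C w)) * (f x / M.P.m (fun u => (Y u, C u)) x) *
          ind ((Y y, C y) = (Y x, C x)))) := by
      refine M.P.E_congr fun x hx => ?_
      rw [M.P.E_smul]
      have p1 := (M.P.m_pos (fun u => (Y u, C u)) hx).ne'
      show _ = ind ((N' x, C x) = (N' w, C w)) * (f x / M.P.m (fun u => (Y u, C u)) x) * M.P.m (fun u => (Y u, C u)) x
      rw [mul_assoc, div_mul_cancel₀ _ p1]
    rw [e1, M.P.E_swap]
    refine M.P.E_mono fun y hy => ?_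
    by_cases hex : ∃ x0, M.P.p x0 ≠ 0 ∧ (N' x0, C x0) = (N' w, C w) ∧ (Y y, C y) = (Y x0, C x0)
    · obtain ⟨x0, hx0, g1, g2⟩ := hex
      have g3 : C y = C w := (congrArg Prod.snd g2).trans (congrArg Prod.snd g1)
      have p1 := M.P.m_pos (fun u => (Y u, C u)) hx0
      have h2 : M.P.E (fun x => ind ((N' x, C x) = (N' w, C w)) * (f x / M.P.m (fun u => (Y u, C u)) x) *
          ind ((Y y, C y) = (Y x, C x))) ≤
          M.P.E (fun x => (f x0 / M.P.m (fun u => (Y u, C u)) x0) *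
            ind ((Y x, (N' x, C x)) = (Y x0, (N' x0, C x0)))) := by
        refine M.P.E_mono fun x _ => ?_
        by_cases h3 : (N' x, C x) = (N' w, C w) ∧ (Y y, C y) = (Y x, C x)
        · obtain ⟨h4, h5⟩ := h3
          have h6 : (Y x, C x) = (Y x0, C x0) := h5.symm.trans g2
          have h7 : f x = f x0 := hf x x0 h6
          have h8 : M.P.m (fun u => (Y u, C u)) x = M.P.m (fun u => (Y u, C u)) x0 :=
            M.P.Fac_m (fun u => (Y u, C u)) x x0 h6
          have h10 : Y x = Y x0 := congrArg Prod.fst h6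
          have h9 : (Y x, (N' x, C x)) = (Y x0, (N' x0, C x0)) := Prod.ext h10 (h4.trans g1.symm)
          rw [ind_of h4, ind_of h5, ind_of h9, h7, h8, one_mul]
        · have h4 : ind ((N' x, C x) = (N' w, C w)) * (f x / M.P.m (fun u => (Y u, C u)) x) *
              ind ((Y y, C y) = (Y x, C x)) = 0 := by
            rcases not_and_or.1 h3 with h | h
            · rw [ind_not h, zero_mul, zero_mul]
            · rw [ind_not h, mul_zero]
          rw [h4]
          exact mul_nonneg (div_nonneg (hf0 _) p1.le) (ind_nonneg _)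
      refine h2.trans (le_of_eq ?_)
      rw [M.P.E_smul]
      show f x0 / M.P.m (fun u => (Y u, C u)) x0 * M.P.m (fun u => (Y u, (N' u, C u))) x0 = c y
      have h3 := h x0 hx0
      have e2 : M.P.m (fun u => (N' u, C u)) x0 = M.P.m (fun u => (N' u, C u)) w :=
        M.P.Fac_m (fun u => (N' u, C u)) x0 w g1
      have e3 : M.P.m C x0 = M.P.m C w := M.P.Fac_m C x0 w (congrArg Prod.snd g1)
      have e4 : f y = f x0 := hf y x0 g2
      rw [e2, e3] at h3
      rw [hc]
      simp only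
      rw [ind_of g3, one_mul, e4, div_mul_eq_mul_div, mul_div_assoc]
      congr 1
      rw [div_eq_div_iff p1.ne' pC.ne']
      linarith
    · have h2 : M.P.E (fun x => ind ((N' x, C x) = (N' w, C w)) * (f x / M.P.m (fun u => (Y u, C u)) x) *
          ind ((Y y, C y) = (Y x, C x))) = 0 := by
        rw [M.P.E_congr (g := fun _ => (0 : ℝ)) fun x hx => ?_]
        · exact M.P.E_const 0
        · by_cases h3 : (N' x, C x) = (N' w, C w)
          · rw [ind_not (p := (Y y, C y) = (Y x, C x)) (fun h4 => hex ⟨x, hx, h3, h4⟩), mul_zero]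
          · rw [ind_not h3, zero_mul, zero_mul]
      rw [h2]
      exact mul_nonneg (ind_nonneg _) (mul_nonneg (hf0 _) (div_nonneg pN.le pC.le))
  have e1 : M.P.ce (fun u => (N' u, C u)) f w =
      M.P.E (fun x => ind ((N' x, C x) = (N' w, C w)) * f x) / M.P.m (fun u => (N' u, C u)) w := rfl
  have e2 : M.P.E c = M.P.m (fun u => (N' u, C u)) w * M.P.ce C f w := by
    rw [hc]
    have e3 : ∀ y, ind (C y = C w) * (f y * (M.P.m (fun u => (N' u, C u)) w / M.P.m C w)) =
        (M.P.m (fun u => (N' u, C u)) w / M.P.m C w) * (ind (C y = C w) * f y) := fun y => by ring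
    simp only [e3]
    rw [M.P.E_smul]
    unfold FP.ce
    field_simp
  rw [e1, div_le_iff₀ pN]
  rw [e2] at h1
  linarith

/-- in a code step the points are independent of the new public value, given the class of `v` -/
theorem cind (hP : PrX M) (v : Fin 3) {s : ℕ} (hs : M.cd s) {f g : Om → ℝ} (hf : Fac (Zx M v s) f) (hf0 : ∀ x, 0 ≤ f x)
    (hg : Fac (fun w => (M.XL v s w, M.NP (s + 1) w)) g) (hg0 : ∀ x, 0 ≤ g x) (w : Om) :
    M.P.ce (CN M v s) (fun x => f x * g x) w ≤ M.P.ce (CN M v s) f w * M.P.ce (CN M v s) g w := by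
  have hF : Fac (fun u => (M.NP (s + 1) u, CN M v s u)) (CN M v s) := Fac.snd _ _
  have hgf : Fac (fun u => (M.NP (s + 1) u, CN M v s u)) g := by
    intro a b hab
    refine hg a b (Prod.ext ?_ (congrArg Prod.fst hab))
    exact congrArg (fun t : M.κ × (M.lam × M.κ) => t.2.1) hab
  have hff : Fac (fun u => (YF M (univ, univ) u, CN M v s u)) f := by
    intro a b hab
    have g1 : YF M (univ, univ) a = YF M (univ, univ) b := congrArg Prod.fst hab
    have g2 : M.XL v s a = M.XL v s b := congrArg (fun t : (Fin 3 → M.η) × (M.lam × M.κ) => t.2.1) hab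
    have g3 : M.NP s a = M.NP s b := congrArg (fun t : (Fin 3 → M.η) × (M.lam × M.κ) => t.2.2) hab
    exact hf a b (Prod.ext g2 (Prod.ext g1 g3))
  rw [← M.P.ce_tower hF (fun x => f x * g x) w]
  have h1 : ∀ x, M.P.p x ≠ 0 → CN M v s x = CN M v s w →
      M.P.ce (fun u => (M.NP (s + 1) u, CN M v s u)) (fun x => f x * g x) x ≤ M.P.ce (CN M v s) f w * g x := by
    intro x hx hX
    have e1 : M.P.ce (fun u => (M.NP (s + 1) u, CN M v s u)) (fun x => f x * g x) x =
        M.P.ce (fun u => (M.NP (s + 1) u, CN M v s u)) f x * g x := by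
      have e3 : (fun x => f x * g x) = fun x => g x * f x := funext fun x => mul_comm _ _
      rw [e3, M.P.ce_mul hgf f x, mul_comm]
    rw [e1]
    refine mul_le_mul_of_nonneg_right ?_ (hg0 x)
    have e2 : M.P.ce (CN M v s) f x = M.P.ce (CN M v s) f w := M.P.ce_fac _ _ x w hX
    rw [← e2]
    exact ce_le_of (hP v s hs) hff hf0 hx
  refine (mono_on h1).trans (le_of_eq ?_)
  rw [M.P.ce_smul]

/-- the exact class of `v` is good at `s`: the moved mass is at most `km`, the list has mass at most `kl` -/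
def Gdc (M : MS Om) (A : ℕ → Om → Prop) (v : Fin 3) (km kl : ℝ) (s : ℕ) (w : Om) : Prop :=
  M.P.ce (CN M v s) (fun x => ind (A s x)) w ≤ km ∧ M.P.ce (CN M v s) (fun x => ind (Lst M (nu M s w) s x)) w ≤ kl

theorem Gdc_fac (A : ℕ → Om → Prop) (v : Fin 3) (km kl : ℝ) (s : ℕ) {a b : Om} (h : CN M v s a = CN M v s b) :
    Gdc M A v km kl s a ↔ Gdc M A v km kl s b := by
  unfold Gdc
  have h1 : nu M s a = nu M s b := nu_fac M s a b (congrArg Prod.snd h)
  rw [M.P.ce_fac (CN M v s) (fun x => ind (A s x)) a b h, h1,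
    M.P.ce_fac (CN M v s) (fun x => ind (Lst M (nu M s b) s x)) a b h]

/-- **points with a large static mass, summed over the removals** -/
theorem rem_sum (v : Fin 3) (hC : PrX M) (hd : M.d0 ≤ 1 / 12) {A : ℕ → Om → Prop}
    (hA : ∀ ν, Fac (TH M ν) (A ν)) {k r km kl : ℝ} (hk : 12 * M.d0 ≤ k) (hr : 0 < r) (hkm : 0 ≤ km) (hkl : 0 ≤ kl)
    (hAB : ∀ ν s, ν ≤ s → ∀ x, M.P.p x ≠ 0 → ¬ Lst M ν s x → A ν x → A s x ∨ LT M r ν s x) {Rv : ℕ → Om → Prop}
    (hR : ∀ s, Fac (fun w => (M.XL v s w, M.NP (s + 1) w)) (Rv s)) (hRc : ∀ s w, Rv s w → M.cd s) (T : ℕ) :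
    ∑ s ∈ range T, M.P.Pr (fun w => Rv s w ∧ ¬ Lst M (nu M s w) s w ∧
      k ≤ M.P.ce (Zx M v (nu M s w)) (fun x => ind (A (nu M s w) x)) w ∧ Gdc M A v km kl s w) ≤
      2 / k * (km + (1 + 1 / r) * kl) * ∑ s ∈ range T, M.P.Pr (Rv s) := by
  have hk0 : 0 < k := by
    have := M.hd0
    linarith
  set ρ : ℝ := 2 / k * (km + (1 + 1 / r) * kl) with hρ
  have hρ0 : 0 ≤ ρ := by positivity
  rw [mul_sum]
  refine sum_le_sum fun s _ => ?_
  by_cases hcd : M.cd s
  swap
  · have h1 : M.P.Pr (fun w => Rv s w ∧ ¬ Lst M (nu M s w) s w ∧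
        k ≤ M.P.ce (Zx M v (nu M s w)) (fun x => ind (A (nu M s w) x)) w ∧ Gdc M A v km kl s w) = 0 := by
      unfold FP.Pr
      rw [M.P.E_congr (g := fun _ => (0 : ℝ)) fun w _ => ind_not fun hh => hcd (hRc s w hh.1)]
      exact M.P.E_const 0
    rw [h1]
    exact mul_nonneg hρ0 (M.P.Pr_nonneg _)
  -- to the event of the exact points
  have h1 : M.P.Pr (fun w => Rv s w ∧ ¬ Lst M (nu M s w) s w ∧
        k ≤ M.P.ce (Zx M v (nu M s w)) (fun x => ind (A (nu M s w) x)) w ∧ Gdc M A v km kl s w) ≤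
      M.P.E (fun w => ind (Gdc M A v km kl s w) * (ind (JJ M A v k (nu M s w) s w) * ind (Rv s w))) := by
    unfold FP.Pr
    refine M.P.E_mono fun w hw => ?_
    rw [← ind_and, ← ind_and]
    refine ind_mono ?_
    rintro ⟨g1, g2, g3, g4⟩
    exact ⟨g4, JJ_of v hd (stg_le (C := C0 M) s w) (hA _) hk hw g2 g3, g1⟩
  have hGf : Fac (CN M v s) (fun w => ind (Gdc M A v km kl s w)) := Fac.ind fun a b hab => Gdc_fac A v km kl s hab
  have h2 : M.P.E (fun w => ind (Gdc M A v km kl s w) * (ind (JJ M A v k (nu M s w) s w) * ind (Rv s w))) ≤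
      M.P.E (fun w => ρ * M.P.ce (CN M v s) (fun x => ind (Rv s x)) w) := by
    rw [← M.P.E_mul_ce hGf]
    refine M.P.E_mono fun w hw => ?_
    have n0 : 0 ≤ M.P.ce (CN M v s) (fun x => ind (Rv s x)) w := M.P.ce_nonneg (fun _ _ => ind_nonneg _) w
    by_cases hG : Gdc M A v km kl s w
    · rw [ind_of hG, one_mul]
      have e1 : M.P.ce (CN M v s) (fun w => ind (JJ M A v k (nu M s w) s w) * ind (Rv s w)) w ≤
          M.P.ce (CN M v s) (fun x => ind (JJ M A v k (nu M s w) s x) * ind (Rv s x)) w := by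
        refine mono_on fun x _ hX => ?_
        have e2 : nu M s x = nu M s w := nu_fac M s x w (congrArg Prod.snd hX)
        rw [e2]
      refine e1.trans ?_
      refine (cind hC v hcd (f := fun x => ind (JJ M A v k (nu M s w) s x)) (g := fun x => ind (Rv s x))
        (Fac.ind fun a b hab => JJ_fac A v k (nu M s w) s hab) (fun _ => ind_nonneg _) (Fac.ind fun a b hab => by
          have := hR s a b hab
          rw [this]) (fun _ => ind_nonneg _) w).trans ?_
      refine mul_le_mul_of_nonneg_right ?_ n0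
      refine (dens (A := A) v hk0 hr (hAB (nu M s w) s (stg_le (C := C0 M) s w)) w).trans ?_
      rw [hρ]
      refine mul_le_mul_of_nonneg_left ?_ (by positivity)
      have h3 : 0 ≤ 1 + 1 / r := by positivity
      have h4 := mul_le_mul_of_nonneg_left hG.2 h3
      linarith [hG.1]
    · rw [ind_not hG, zero_mul]
      exact mul_nonneg hρ0 n0
  refine h1.trans (h2.trans (le_of_eq ?_))
  rw [M.P.E_smul, M.P.E_ce]
  rfl

/-- moved at a vertex different from `c` -/
theorem mo_stat {Lam : ℝ} (hT : Thk M Lam) (hsm : 12 * M.d0 ≤ Real.exp (-(4 * Lam))) (hL : 0 ≤ Lam) {ν s : ℕ} (hs : ν ≤ s)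
    {u : Om} (hu : M.P.p u ≠ 0) (h : ¬ Lst M ν s u) {c : Fin 3} (hv : MV.Mo M c ν u) :
    MV.Mo M c s u ∨ LT M (Real.exp (-(4 * Lam)) / 2) ν s u := by
  obtain ⟨v, h1, h2⟩ := hv
  rcases mv_stat hT hsm hL hs hu h h2 with h3 | h3
  · exact Or.inl ⟨v, h1, h3⟩
  · exact Or.inr h3

theorem Mo_fac (c : Fin 3) (s : ℕ) : Fac (TH M s) (MV.Mo M c s) := by
  intro a b hab
  unfold MV.Mo
  refine propext (exists_congr fun v => and_congr_right fun _ => ?_)
  rw [Mv_fac M v s a b hab]

/-- a vertex without status, not listed, has small mass at all times of the epoch -/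
theorem pic_lt {c : Fin 3} {ν s : ℕ} (hs : ν ≤ s) {w : Om} (h1 : ¬ hys M c ν w) (h2 : ¬ Lst M ν s w) :
    pic M c s w < M.p1 := by
  rcases Nat.eq_or_lt_of_le hs with rfl | h3
  · have h4 := not_hys (M := M) h1
    have := M.hp1
    linarith
  · by_contra hc
    exact h2 (Or.inr (Or.inr ⟨c, h1, s, h3, le_rfl, not_lt.1 hc⟩))

/-! ## F2 and F3 -/

/-- **F2** : summed over the removals, the points at which the static set moved at `v` has conditional mass `≥ k` -/
theorem f2_sum {Lam : ℝ} (hT : Thk M Lam) (hsm : 12 * M.d0 ≤ Real.exp (-(4 * Lam))) (hL : 0 ≤ Lam) (v : Fin 3)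
    (hC : PrX M) {k kl : ℝ} (hk : 12 * M.d0 ≤ k) (hkl : 0 ≤ kl) {Rv : ℕ → Om → Prop}
    (hR : ∀ s, Fac (fun w => (M.XL v s w, M.NP (s + 1) w)) (Rv s)) (hRc : ∀ s w, Rv s w → M.cd s) (T : ℕ) :
    ∑ s ∈ range T, M.P.Pr (fun w => Rv s w ∧ ¬ Lst M (nu M s w) s w ∧
      k ≤ MvF.mu M.P (fun u => (YF M (univ, univ) u, M.NP (nu M s w) u)) (Mv M v (nu M s w)) (M.XL v (nu M s w)) w ∧
      M.P.ce (CN M v s) (fun x => ind (Lst M (nu M s w) s x)) w ≤ kl) ≤
      2 / k * (Real.exp (4 * Lam) * M.kb + (1 + 2 * Real.exp (4 * Lam)) * kl) * ∑ s ∈ range T, M.P.Pr (Rv s) := by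
  have hd : M.d0 ≤ 1 / 12 := by
    have : Real.exp (-(4 * Lam)) ≤ 1 := Real.exp_le_one_iff.2 (by linarith)
    linarith
  have hr : 0 < Real.exp (-(4 * Lam)) / 2 := by positivity
  have h1 := rem_sum (M := M) v hC hd (A := Mv M v) (Mv_fac M v) hk hr
    (mul_nonneg (Real.exp_pos (4 * Lam)).le M.hkb.le) hkl
    (fun ν s hs x hx h1 h2 => mv_stat hT hsm hL hs hx h1 h2) hR hRc T
  have e1 : 1 / (Real.exp (-(4 * Lam)) / 2) = 2 * Real.exp (4 * Lam) := by
    rw [Real.exp_neg]
    field_simp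
  rw [e1] at h1
  refine le_trans (sum_le_sum fun s _ => M.P.Pr_mono fun w hw => ?_) h1
  rintro ⟨g1, g2, g3, g4⟩
  exact ⟨g1, g2, g3, Mv_mass M hT v s hw, g4⟩

/-- **F3** : the same for a vertex without status and the moved points of the two other clocks -/
theorem f3_sum {Lam : ℝ} (hT : Thk M Lam) (hsm : 12 * M.d0 ≤ Real.exp (-(4 * Lam))) (hL : 0 ≤ Lam) (c : Fin 3)
    (hC : PrX M) {k kl : ℝ} (hk : 12 * M.d0 ≤ k) (hkl : 0 ≤ kl) {Rv : ℕ → Om → Prop}
    (hR : ∀ s, Fac (fun w => (M.XL c s w, M.NP (s + 1) w)) (Rv s)) (hRc : ∀ s w, Rv s w → M.cd s) (T : ℕ) :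
    ∑ s ∈ range T, M.P.Pr (fun w => Rv s w ∧ ¬ Lst M (nu M s w) s w ∧ ¬ hys M c (nu M s w) w ∧
      k ≤ MvF.mu M.P (fun u => (YF M (univ, univ) u, M.NP (nu M s w) u)) (MV.Mo M c (nu M s w)) (M.XL c (nu M s w)) w ∧
      M.P.ce (CN M c s) (fun x => ind (Lst M (nu M s w) s x)) w ≤ kl) ≤
      2 / k * (M.p1 + (1 + 2 * Real.exp (4 * Lam)) * kl) * ∑ s ∈ range T, M.P.Pr (Rv s) := by
  have hd : M.d0 ≤ 1 / 12 := by
    have : Real.exp (-(4 * Lam)) ≤ 1 := Real.exp_le_one_iff.2 (by linarith)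
    linarith
  have hr : 0 < Real.exp (-(4 * Lam)) / 2 := by positivity
  have h1 := rem_sum (M := M) c hC hd (A := MV.Mo M c) (Mo_fac c) hk hr M.hp1.le hkl
    (fun ν s hs x hx h1 h2 => mo_stat hT hsm hL hs hx h1 h2) hR hRc T
  have e1 : 1 / (Real.exp (-(4 * Lam)) / 2) = 2 * Real.exp (4 * Lam) := by
    rw [Real.exp_neg]
    field_simp
  rw [e1] at h1
  refine le_trans (sum_le_sum fun s _ => M.P.Pr_mono fun w _ => ?_) h1
  rintro ⟨g1, g2, g5, g3, g4⟩
  exact ⟨g1, g2, g3, (pic_lt (stg_le (C := C0 M) s w) g5 g2).le, g4⟩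

/-- exact classes in which the list has large mass are rare in the public class -/
theorem lst_bad (v : Fin 3) {kl : ℝ} (hkl : 0 < kl) (s : ℕ) {w : Om} (hw : M.P.p w ≠ 0) :
    M.P.ce (M.NP s) (fun u => ind (kl ≤ M.P.ce (CN M v s) (fun x => ind (Lst M (nu M s u) s x)) u)) w ≤ M.k0 / kl := by
  have h1 := MvF.mkv (P := M.P) (X := M.NP s) (Y := CN M v s) (f := fun y => ind (Lst M (nu M s w) s y))
    (fun a b hab => congrArg Prod.snd hab) (fun _ => ind_nonneg _) hkl w
  have h2 : M.P.ce (M.NP s) (fun u => ind (kl ≤ M.P.ce (CN M v s) (fun x => ind (Lst M (nu M s u) s x)) u)) w ≤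
      M.P.ce (M.NP s) (fun u => ind (kl ≤ M.P.ce (CN M v s) (fun x => ind (Lst M (nu M s w) s x)) u)) w := by
    refine mono_on fun x _ hX => ?_
    rw [nu_fac M s x w hX]
  exact h2.trans (h1.trans (div_le_div_of_nonneg_right (Lst_mass M s hw).le hkl.le))

end

end Pool.Agent.GMH.MV4
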