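import Pool.Agent.GMH.CK1

/-!
# GMH/MV5 (helper32): STRETCHES AND SELECTION OF THE EXACT THEORIES (H3.MOV, M.10 (a)-(c)), abstract

All statements are sums over the steps `s < T` of the run, `stg C s` = start of the current epoch of the clock `C`.
* `En T s` : the epoch of `s` ends at `s + 1` (or the horizon); `Sc f s` : `f` has happened in the epoch of `s`;
  `pass_end`, `once_end` : events at most once per epoch, static events;
* **`count_sum`** : `(y - y0) Σ P (f s) ≤ Σ P (Rm s, A s, Sc f s) + Σ P (Bd s)` : `f` once per epoch, `A` static with density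
  `≥ y` at `f`, ends which are not removals have density `≤ y0` outside `Bd`; `mass_sum`;
* `drop_sum` : tuples over an exact vertex whose density falls below `ux` (`alv` = decided and dense since);
* `trg`, `inS`, `srt` : trigger, in a stretch, start of a stretch; `before_sum`, `after_sum` : two rare events of different
  vertices at the removals; `srt_le`, `static_count`, `dense_count` : the number of the stretches; `send_sum` : their ends;
* `jn` : joint clock of two clocks; `CL` : lives of an exact vertex which also end at the public ends of the stretches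
  (`CL_mono` : in such a life a stretch does not stop), `CL_end`, `CL_static`;
* `dA` (clock `Ca := CL`, candidates `qa`, outside the stretches), `dB` (clock `Cb := jn Ct C`, candidates `qb`, in a stretch),
  `bt` = bit of the vertex (relation `R`, resp. `RV`); `dB_prev` : at a decision inside a life there was no candidate just
  before; `excl`;
* **`sel`** : the signed sum at the removals with the bit is at most the two sums of the decided tuples plus
  `L (ux (#dA + #dB) + (alive A, in R, not X or not Y) + (alive B, in RV, not Y))`, `X` = no other vertex in `V`, `Y` any event;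
  **`pair_sum`** : alive A and another vertex in `V`; `zone_sum` : zones before a stretch.
-/

set_option autoImplicit false
set_option linter.unusedSectionVars false
set_option linter.unusedVariables false

namespace Pool.Agent.GMH.Str

open Finset Pool.Agent.PWZ Pool.Agent.M3 Pool.Agent.GMH.CK

noncomputable section

/-! ## events in epochs -/

section clock

variable {Om : Type*} (C : ℕ → ℕ → Om → Prop)

/-- the epoch of `s` ends at `s + 1` (or the horizon) -/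
def En (T s : ℕ) (w : Om) : Prop := stg C (s + 1) w = s + 1 ∨ s + 1 = T

/-- `f` has happened in the epoch of `s` by the time `s` -/
def Sc (f : ℕ → Om → Prop) (s : ℕ) (w : Om) : Prop := ∃ j, stg C s w ≤ j ∧ j ≤ s ∧ f j w

variable {C}

/-- the end of the epoch of `j` -/
theorem end_ex {T j : ℕ} (hj : j < T) (w : Om) : ∃ s, j ≤ s ∧ s < T ∧ En C T s w ∧ stg C s w = stg C j w := by
  classical
  have hex : ∃ s, j ≤ s ∧ En C T s w := ⟨T - 1, by omega, Or.inr (by omega)⟩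
  have h1 := Nat.find_spec hex
  have h2 : ∀ i, i < Nat.find hex → ¬ (j ≤ i ∧ En C T i w) := fun i hi => Nat.find_min hex hi
  have h3 : Nat.find hex ≤ T - 1 := Nat.find_min' hex ⟨by omega, Or.inr (by omega)⟩
  refine ⟨Nat.find hex, h1.1, by omega, h1.2, ?_⟩
  have h4 : ∀ i, j ≤ i → i ≤ Nat.find hex → stg C i w = stg C j w := by
    intro i hi
    induction i, hi using Nat.le_induction with
    | base => exact fun _ => rfl
    | succ i hi ih =>
      intro hi2
      have h5 := h2 i (by omega)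
      have h6 : ¬ stg C (i + 1) w = i + 1 := fun h => h5 ⟨hi, Or.inl h⟩
      rcases stg_or (C := C) i w with h7 | h7
      · exact absurd h7 h6
      · rw [h7]
        exact ih (by omega)
  exact h4 _ h1.1 le_rfl

/-- two ends of one epoch -/
theorem end_uniq {T s s' : ℕ} {w : Om} (hs : s < T) (hs' : s' < T) (h : En C T s w) (h' : En C T s' w)
    (he : stg C s w = stg C s' w) : s = s' := by
  by_contra hne
  rcases Nat.lt_or_gt_of_ne hne with h1 | h1
  · rcases h with h2 | h2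
    · have h3 := stg_mono (C := C) (show s + 1 ≤ s' by omega) w
      have h4 := stg_le (C := C) s w
      omega
    · omega
  · rcases h' with h2 | h2
    · have h3 := stg_mono (C := C) (show s' + 1 ≤ s by omega) w
      have h4 := stg_le (C := C) s' w
      omega
    · omega

/-- a time between the start and the end lies in the same epoch -/
theorem in_ep {j s : ℕ} {w : Om} (h1 : stg C s w ≤ j) (h2 : j ≤ s) : stg C j w = stg C s w := stg_mid rfl h1 h2

/-- **to the end of the epoch** -/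
theorem pass_end {f A : ℕ → Om → Prop} {T : ℕ} {w : Om}
    (h1 : ∀ s s', f s w → f s' w → stg C s w = stg C s' w → s = s')
    (hA : ∀ s s', stg C s w = stg C s' w → (A s w ↔ A s' w)) :
    ∑ j ∈ range T, ind (f j w ∧ A j w) ≤ ∑ s ∈ range T, ind (En C T s w ∧ (A s w ∧ Sc C f s w)) := by
  have e1 : ∀ j ∈ range T, ind (f j w ∧ A j w) ≤
      ∑ s ∈ range T, ind (En C T s w ∧ j ≤ s ∧ stg C s w = stg C j w) * ind (f j w ∧ A j w) := by
    intro j hj
    obtain ⟨s, hs1, hs2, hs3, hs4⟩ := end_ex (C := C) (mem_range.1 hj) w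
    have h2 : ind (En C T s w ∧ j ≤ s ∧ stg C s w = stg C j w) * ind (f j w ∧ A j w) = ind (f j w ∧ A j w) := by
      rw [ind_of ⟨hs3, hs1, hs4⟩, one_mul]
    refine le_trans (le_of_eq h2.symm) ?_
    exact single_le_sum (f := fun s => ind (En C T s w ∧ j ≤ s ∧ stg C s w = stg C j w) * ind (f j w ∧ A j w))
      (fun s _ => mul_nonneg (ind_nonneg _) (ind_nonneg _)) (mem_range.2 hs2)
  refine (sum_le_sum e1).trans ?_
  rw [sum_comm]
  refine sum_le_sum fun s hs => ?_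
  by_cases h : En C T s w ∧ (A s w ∧ Sc C f s w)
  · rw [ind_of h]
    obtain ⟨j0, hj1, hj2, hj3⟩ := h.2.2
    by_cases hjT : j0 ∈ range T
    · rw [sum_eq_single j0]
      · exact mul_le_one₀ (ind_le_one _) (ind_nonneg _) (ind_le_one _)
      · intro j _ hne
        by_cases h2 : (En C T s w ∧ j ≤ s ∧ stg C s w = stg C j w) ∧ (f j w ∧ A j w)
        · exfalso
          refine hne (h1 j j0 h2.2.1 hj3 ?_)
          rw [← h2.1.2.2, in_ep hj1 hj2]
        · by_cases h3 : En C T s w ∧ j ≤ s ∧ stg C s w = stg C j w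
          · rw [ind_not (fun h4 => h2 ⟨h3, h4⟩), mul_zero]
          · rw [ind_not h3, zero_mul]
      · intro h2
        exact absurd hjT h2
    · exact absurd (mem_range.2 (lt_of_le_of_lt hj2 (mem_range.1 hs))) hjT
  · rw [ind_not h]
    refine le_of_eq (sum_eq_zero fun j _ => ?_)
    by_cases h3 : En C T s w ∧ j ≤ s ∧ stg C s w = stg C j w
    · rw [ind_of h3, one_mul]
      refine ind_not fun h4 => h ⟨h3.1, (hA j s h3.2.2.symm).1 h4.2, j, ?_, h3.2.1, h4.1⟩
      rw [h3.2.2]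
      exact stg_le j w
    · rw [ind_not h3, zero_mul]

/-- **the epochs with an event are at most the events** -/
theorem once_end {f : ℕ → Om → Prop} {T : ℕ} {w : Om} :
    ∑ s ∈ range T, ind (En C T s w ∧ Sc C f s w) ≤ ∑ j ∈ range T, ind (f j w) := by
  have e1 : ∀ s ∈ range T, ind (En C T s w ∧ Sc C f s w) ≤
      ∑ j ∈ range T, ind (En C T s w ∧ stg C s w ≤ j ∧ j ≤ s) * ind (f j w) := by
    intro s hs
    by_cases h : En C T s w ∧ Sc C f s w
    · obtain ⟨h2, j, h3, h4, h5⟩ := h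
      rw [ind_of (show En C T s w ∧ Sc C f s w from ⟨h2, j, h3, h4, h5⟩)]
      have h6 : ind (En C T s w ∧ stg C s w ≤ j ∧ j ≤ s) * ind (f j w) = 1 := by
        rw [ind_of ⟨h2, h3, h4⟩, ind_of h5, one_mul]
      rw [← h6]
      exact single_le_sum (f := fun j => ind (En C T s w ∧ stg C s w ≤ j ∧ j ≤ s) * ind (f j w))
        (fun j _ => mul_nonneg (ind_nonneg _) (ind_nonneg _)) (mem_range.2 (lt_of_le_of_lt h4 (mem_range.1 hs)))
    · rw [ind_not h]
      exact sum_nonneg fun j _ => mul_nonneg (ind_nonneg _) (ind_nonneg _)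
  refine (sum_le_sum e1).trans ?_
  rw [sum_comm]
  refine sum_le_sum fun j _ => ?_
  rw [← sum_mul]
  have h2 : ∑ s ∈ range T, ind (En C T s w ∧ stg C s w ≤ j ∧ j ≤ s) ≤ 1 := by
    by_cases h : ∃ s ∈ range T, En C T s w ∧ stg C s w ≤ j ∧ j ≤ s
    · obtain ⟨s0, hs0, h3, h4, h5⟩ := h
      rw [sum_eq_single s0]
      · exact ind_le_one _
      · intro s hs hne
        refine ind_not ?_
        rintro ⟨h6, h7, h8⟩
        refine hne (end_uniq (mem_range.1 hs) (mem_range.1 hs0) h6 h3 ?_)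
        rw [← in_ep h7 h8, in_ep h4 h5]
      · intro h6
        exact absurd hs0 h6
    · refine le_trans (le_of_eq (sum_eq_zero fun s hs => ?_)) zero_le_one
      exact ind_not fun hh => h ⟨s, hs, hh⟩
  calc _ ≤ 1 * ind (f j w) := mul_le_mul_of_nonneg_right h2 (ind_nonneg _)
    _ = _ := one_mul _

/-- **from the ends to the starts** of the epochs, static event and static weight -/
theorem to_start {f A : ℕ → Om → Prop} {ψ : ℕ → Om → ℝ} {T : ℕ} {w : Om}
    (hA : ∀ s s', stg C s w = stg C s' w → (A s w ↔ A s' w)) (hψ : ∀ s s', stg C s w = stg C s' w → ψ s w = ψ s' w) :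
    ∑ s ∈ range T, ind (En C T s w ∧ (A s w ∧ Sc C f s w)) * ψ s w =
      ∑ τ ∈ range T, ind (stg C τ w = τ ∧ (A τ w ∧ ∃ s < T, stg C s w = τ ∧ f s w)) * ψ τ w := by
  rw [sum_epochs (C := C) T _ w]
  refine sum_congr rfl fun τ hτ => ?_
  have hτ' := mem_range.1 hτ
  by_cases h : stg C τ w = τ
  · rw [ind_of h, one_mul]
    obtain ⟨s, h1, h2, h3, h4⟩ := end_ex (C := C) hτ' w
    rw [h] at h4
    have hsT : s ∈ Ico τ T := mem_Ico.2 ⟨h1, h2⟩
    rw [sum_eq_single s]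
    · rw [ind_of h4, one_mul, hψ s τ (by rw [h4, h])]
      congr 2
      refine propext ⟨fun hh => ⟨h, (hA s τ (by rw [h4, h])).1 hh.2.1, ?_⟩, fun hh => ⟨h3, (hA s τ (by rw [h4, h])).2 hh.2.1, ?_⟩⟩
      · obtain ⟨j, a, b, c⟩ := hh.2.2
        exact ⟨j, lt_of_le_of_lt b h2, by rw [in_ep a b, h4], c⟩
      · obtain ⟨j, a, b, c⟩ := hh.2.2
        have h5 := stg_le (C := C) j w
        refine ⟨j, by omega, ?_, c⟩
        by_contra h6
        rcases h3 with h3 | h3
        · have := stg_mono (C := C) (show s + 1 ≤ j by omega) w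
          omega
        · omega
    · intro k hk hne
      by_cases hk2 : stg C k w = τ
      · by_cases hk3 : En C T k w
        · exact absurd (end_uniq (mem_Ico.1 hk).2 h2 hk3 h3 (by rw [hk2, h4])) hne
        · rw [ind_not (fun hh => hk3 hh.1 : ¬ (En C T k w ∧ (A k w ∧ Sc C f k w))), zero_mul, mul_zero]
      · rw [ind_not hk2, zero_mul]
    · intro hh
      exact absurd hsT hh
  · rw [ind_not h, zero_mul, ind_not (fun hh => h hh.1), zero_mul]

end clock

/-! ## counting -/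

section count

variable {Om : Type*} [Fintype Om] {P : FP Om} {κ : Type*} {N : ℕ → Om → κ} {C : ℕ → ℕ → Om → Prop}
  {f A Rm Bd : ℕ → Om → Prop} {y y0 : ℝ} {T : ℕ}

/-- an event of the sight, small density -/
theorem pr_le {X : Om → κ} {f A : Om → Prop} (hf : ∀ a b, X a = X b → (f a ↔ f b)) {q : ℝ}
    (hq : ∀ w, P.p w ≠ 0 → f w → P.ce X (fun u => ind (A u)) w ≤ q) :
    P.Pr (fun w => f w ∧ A w) ≤ q * P.Pr f := by
  have e1 : P.Pr (fun w => f w ∧ A w) = P.E (fun w => ind (f w) * ind (A w)) := P.E_congr fun w _ => ind_and _ _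
  rw [e1, ← P.E_mul_ce (Fac.ind fun a b e => hf a b e), FP.Pr, ← FP.E_smul]
  refine P.E_mono fun w hw => ?_
  by_cases h : f w
  · rw [ind_of h, one_mul, mul_one]
    exact hq w hw h
  · rw [ind_not h, zero_mul, mul_zero]

/-- the same with an exceptional event -/
theorem pr_le_bd {X : Om → κ} {f A B : Om → Prop} (hf : ∀ a b, X a = X b → (f a ↔ f b)) {q : ℝ}
    (hq : ∀ w, P.p w ≠ 0 → f w → P.ce X (fun u => ind (A u)) w ≤ q + ind (B w)) :
    P.Pr (fun w => f w ∧ A w) ≤ q * P.Pr f + P.Pr (fun w => f w ∧ B w) := by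
  have e1 : P.Pr (fun w => f w ∧ A w) = P.E (fun w => ind (f w) * ind (A w)) := P.E_congr fun w _ => ind_and _ _
  rw [e1, ← P.E_mul_ce (Fac.ind fun a b e => hf a b e), FP.Pr, FP.Pr, ← FP.E_smul, ← FP.E_add]
  refine P.E_mono fun w hw => ?_
  by_cases h : f w
  · by_cases h2 : B w
    · have h3 := hq w hw h
      rw [ind_of h2] at h3
      rw [ind_of h, one_mul, mul_one, ind_of (show f w ∧ B w from ⟨h, h2⟩)]
      exact h3
    · have h3 := hq w hw h
      rw [ind_not h2] at h3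
      rw [ind_of h, one_mul, mul_one, ind_not (fun hh => h2 hh.2 : ¬ (f w ∧ B w))]
      exact h3
  · rw [ind_not h, zero_mul, mul_zero, ind_not (fun hh => h hh.1 : ¬ (f w ∧ B w)), zero_add]

/-- an event of the sight, large density -/
theorem pr_ge {X : Om → κ} {f A : Om → Prop} (hf : ∀ a b, X a = X b → (f a ↔ f b)) {q : ℝ}
    (hq : ∀ w, P.p w ≠ 0 → f w → q ≤ P.ce X (fun u => ind (A u)) w) :
    q * P.Pr f ≤ P.Pr (fun w => f w ∧ A w) := by
  have e1 : P.Pr (fun w => f w ∧ A w) = P.E (fun w => ind (f w) * ind (A w)) := P.E_congr fun w _ => ind_and _ _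
  rw [e1, ← P.E_mul_ce (Fac.ind fun a b e => hf a b e), FP.Pr, ← FP.E_smul]
  refine P.E_mono fun w hw => ?_
  by_cases h : f w
  · rw [ind_of h, one_mul, mul_one]
    exact hq w hw h
  · rw [ind_not h, zero_mul, mul_zero]

theorem N_le (hN : ∀ k, Fac (N (k + 1)) (N k)) {j s : ℕ} (h : j ≤ s) : Fac (N s) (N j) := by
  induction s, h using Nat.le_induction with
  | base => exact Fac.refl _
  | succ s _ ih => exact (hN s).trans ih

/-- `Sc` is seen by the sight -/
theorem Sc_fac (hN : ∀ k, Fac (N (k + 1)) (N k)) (hs : ∀ k, Fac (N k) (stg C k))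
    (hf : ∀ s a b, N s a = N s b → (f s a ↔ f s b)) (s : ℕ) {a b : Om} (e : N s a = N s b) :
    Sc C f s a ↔ Sc C f s b := by
  unfold Sc
  rw [hs s a b e]
  exact exists_congr fun j => and_congr_right fun _ => and_congr_right fun h2 => hf j a b (N_le hN h2 a b e)

theorem En_fac (hs : ∀ k, Fac (N k) (stg C k)) (T s : ℕ) {a b : Om} (e : N (s + 1) a = N (s + 1) b) :
    En C T s a ↔ En C T s b := by
  unfold En
  rw [hs (s + 1) a b e]

/-- the sum of the events which are carried to the end of the epoch -/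
theorem pass_sum (h1 : ∀ w s s', f s w → f s' w → stg C s w = stg C s' w → s = s')
    (hA : ∀ w s s', stg C s w = stg C s' w → (A s w ↔ A s' w)) :
    ∑ s ∈ range T, P.Pr (fun w => f s w ∧ A s w) ≤
      ∑ s ∈ range T, P.Pr (fun w => En C T s w ∧ (A s w ∧ Sc C f s w)) := by
  unfold FP.Pr
  rw [← FP.E_sum, ← FP.E_sum]
  exact P.E_mono fun w _ => pass_end (h1 w) (hA w)

theorem once_sum (g : ℕ → Om → Prop) : ∑ s ∈ range T, P.Pr (fun w => En C T s w ∧ Sc C g s w) ≤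
    ∑ s ∈ range T, P.Pr (g s) := by
  unfold FP.Pr
  rw [← FP.E_sum, ← FP.E_sum]
  exact P.E_mono fun w _ => once_end

/-- **THE MASS AT THE ENDS** -/
theorem mass_sum (hN : ∀ k, Fac (N (k + 1)) (N k)) (hs : ∀ k, Fac (N k) (stg C k))
    (hf : ∀ s a b, N s a = N s b → (f s a ↔ f s b)) (hR : ∀ s a b, N (s + 1) a = N (s + 1) b → (Rm s a ↔ Rm s b))
    (hy0 : 0 ≤ y0)
    (he : ∀ s < T, ∀ w, P.p w ≠ 0 → En C T s w → ¬ Rm s w → Sc C f s w →
      P.ce (N (s + 1)) (fun u => ind (A s u)) w ≤ y0 + ind (Bd s w)) :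
    ∑ s ∈ range T, P.Pr (fun w => En C T s w ∧ (A s w ∧ Sc C f s w)) ≤
      ∑ s ∈ range T, P.Pr (fun w => Rm s w ∧ (A s w ∧ Sc C f s w)) + y0 * ∑ s ∈ range T, P.Pr (f s) +
        ∑ s ∈ range T, P.Pr (fun w => (En C T s w ∧ (¬ Rm s w ∧ Sc C f s w)) ∧ Bd s w) := by
  have h1 : ∀ s ∈ range T, P.Pr (fun w => En C T s w ∧ (A s w ∧ Sc C f s w)) ≤
      P.Pr (fun w => Rm s w ∧ (A s w ∧ Sc C f s w)) + (y0 * P.Pr (fun w => En C T s w ∧ Sc C f s w) +
        P.Pr (fun w => (En C T s w ∧ (¬ Rm s w ∧ Sc C f s w)) ∧ Bd s w)) := by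
    intro s hsT
    have h2 : P.Pr (fun w => (En C T s w ∧ (¬ Rm s w ∧ Sc C f s w)) ∧ A s w) ≤
        y0 * P.Pr (fun w => En C T s w ∧ (¬ Rm s w ∧ Sc C f s w)) +
          P.Pr (fun w => (En C T s w ∧ (¬ Rm s w ∧ Sc C f s w)) ∧ Bd s w) := by
      refine pr_le_bd (X := N (s + 1)) (fun a b e => ?_) fun w hw h => he s (mem_range.1 hsT) w hw h.1 h.2.1 h.2.2
      rw [En_fac hs T s e, hR s a b e, Sc_fac hN hs hf s (hN s a b e)]
    have h3 : P.Pr (fun w => En C T s w ∧ (¬ Rm s w ∧ Sc C f s w)) ≤ P.Pr (fun w => En C T s w ∧ Sc C f s w) :=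
      P.Pr_mono fun w _ h => ⟨h.1, h.2.2⟩
    have h4 := mul_le_mul_of_nonneg_left h3 hy0
    have h5 : P.Pr (fun w => En C T s w ∧ (A s w ∧ Sc C f s w)) ≤
        P.Pr (fun w => Rm s w ∧ (A s w ∧ Sc C f s w)) +
          P.Pr (fun w => (En C T s w ∧ (¬ Rm s w ∧ Sc C f s w)) ∧ A s w) := by
      refine le_trans (P.Pr_mono fun w _ h => ?_) (P.Pr_or_le _ _)
      by_cases hr : Rm s w
      · exact Or.inl ⟨hr, h.2⟩
      · exact Or.inr ⟨⟨h.1, hr, h.2.2⟩, h.2.1⟩
    linarith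
  refine (sum_le_sum h1).trans ?_
  rw [sum_add_distrib, sum_add_distrib, ← mul_sum]
  have h6 := mul_le_mul_of_nonneg_left (once_sum (P := P) (C := C) (T := T) f) hy0
  linarith

/-- **THE NUMBER OF THE EVENTS** : `f` at most once per epoch, static event `A` of density `≥ y` at `f` -/
theorem count_sum (hN : ∀ k, Fac (N (k + 1)) (N k)) (hs : ∀ k, Fac (N k) (stg C k))
    (hf : ∀ s a b, N s a = N s b → (f s a ↔ f s b)) (h1 : ∀ w s s', f s w → f s' w → stg C s w = stg C s' w → s = s')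
    (hA : ∀ w s s', stg C s w = stg C s' w → (A s w ↔ A s' w))
    (hR : ∀ s a b, N (s + 1) a = N (s + 1) b → (Rm s a ↔ Rm s b)) (hy0 : 0 ≤ y0)
    (hy : ∀ s < T, ∀ w, P.p w ≠ 0 → f s w → y ≤ P.ce (N s) (fun u => ind (A s u)) w)
    (he : ∀ s < T, ∀ w, P.p w ≠ 0 → En C T s w → ¬ Rm s w → Sc C f s w →
      P.ce (N (s + 1)) (fun u => ind (A s u)) w ≤ y0 + ind (Bd s w)) :
    (y - y0) * ∑ s ∈ range T, P.Pr (f s) ≤ ∑ s ∈ range T, P.Pr (fun w => Rm s w ∧ (A s w ∧ Sc C f s w)) +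
      ∑ s ∈ range T, P.Pr (fun w => (En C T s w ∧ (¬ Rm s w ∧ Sc C f s w)) ∧ Bd s w) := by
  have h2 : y * ∑ s ∈ range T, P.Pr (f s) ≤ ∑ s ∈ range T, P.Pr (fun w => f s w ∧ A s w) := by
    rw [mul_sum]
    exact sum_le_sum fun s hsT => pr_ge (X := N s) (hf s) (hy s (mem_range.1 hsT))
  have h3 := pass_sum (P := P) (T := T) h1 hA
  have h4 := mass_sum (P := P) (A := A) (Bd := Bd) hN hs hf hR hy0 he
  linarith

/-- **from the removals to the starts** : `f` happened, static event, static weight `≥ - L` -/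
theorem rm_start (hN : ∀ k, Fac (N (k + 1)) (N k)) (hs : ∀ k, Fac (N k) (stg C k))
    (hf : ∀ s a b, N s a = N s b → (f s a ↔ f s b)) (hR : ∀ s a b, N (s + 1) a = N (s + 1) b → (Rm s a ↔ Rm s b))
    (hRE : ∀ s < T, ∀ w, P.p w ≠ 0 → Rm s w → En C T s w)
    (hA : ∀ w s s', stg C s w = stg C s' w → (A s w ↔ A s' w)) {ψ : ℕ → Om → ℝ}
    (hψs : ∀ w, P.p w ≠ 0 → ∀ s s', stg C s w = stg C s' w → ψ s w = ψ s' w) {L : ℝ} (hL : 0 ≤ L)
    (hψ : ∀ s w, P.p w ≠ 0 → -L ≤ ψ s w) (hy0 : 0 ≤ y0)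
    (he : ∀ s < T, ∀ w, P.p w ≠ 0 → En C T s w → ¬ Rm s w → Sc C f s w →
      P.ce (N (s + 1)) (fun u => ind (A s u)) w ≤ y0 + ind (Bd s w)) :
    ∑ s ∈ range T, P.E (fun w => ind (Rm s w ∧ (A s w ∧ Sc C f s w)) * ψ s w) ≤
      ∑ τ ∈ range T, P.E (fun w => ind (stg C τ w = τ ∧ (A τ w ∧ ∃ s < T, stg C s w = τ ∧ f s w)) * ψ τ w) +
        L * (y0 * ∑ s ∈ range T, P.Pr (f s) +
          ∑ s ∈ range T, P.Pr (fun w => (En C T s w ∧ (¬ Rm s w ∧ Sc C f s w)) ∧ Bd s w)) := by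
  have h1 : ∑ s ∈ range T, P.E (fun w => ind (Rm s w ∧ (A s w ∧ Sc C f s w)) * ψ s w) ≤
      ∑ s ∈ range T, P.E (fun w => ind (En C T s w ∧ (A s w ∧ Sc C f s w)) * ψ s w) +
        L * ∑ s ∈ range T, P.Pr (fun w => (En C T s w ∧ (¬ Rm s w ∧ Sc C f s w)) ∧ A s w) := by
    rw [mul_sum, ← sum_add_distrib]
    refine sum_le_sum fun s hsT => ?_
    unfold FP.Pr
    rw [← FP.E_smul, ← FP.E_add]
    refine P.E_mono fun w hw => ?_
    have hp := hψ s w hw
    by_cases h2 : En C T s w ∧ (A s w ∧ Sc C f s w)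
    · rw [ind_of h2]
      by_cases h3 : Rm s w
      · rw [ind_of (show Rm s w ∧ (A s w ∧ Sc C f s w) from ⟨h3, h2.2⟩),
          ind_not (fun h => h.1.2.1 h3 : ¬ ((En C T s w ∧ (¬ Rm s w ∧ Sc C f s w)) ∧ A s w))]
        linarith
      · rw [ind_not (fun h => h3 h.1 : ¬ (Rm s w ∧ (A s w ∧ Sc C f s w))),
          ind_of (show (En C T s w ∧ (¬ Rm s w ∧ Sc C f s w)) ∧ A s w from ⟨⟨h2.1, h3, h2.2.2⟩, h2.2.1⟩)]
        linarith
    · rw [ind_not h2, ind_not (fun h => h2 ⟨hRE s (mem_range.1 hsT) w hw h.1, h.2⟩ : ¬ (Rm s w ∧ (A s w ∧ Sc C f s w))),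
        zero_mul, zero_add]
      exact mul_nonneg hL (ind_nonneg _)
  have h2 : ∑ s ∈ range T, P.E (fun w => ind (En C T s w ∧ (A s w ∧ Sc C f s w)) * ψ s w) =
      ∑ τ ∈ range T, P.E (fun w => ind (stg C τ w = τ ∧ (A τ w ∧ ∃ s < T, stg C s w = τ ∧ f s w)) * ψ τ w) := by
    rw [← FP.E_sum, ← FP.E_sum]
    exact P.E_congr fun w hw => to_start (hA w) (hψs w hw)
  have h3 : ∑ s ∈ range T, P.Pr (fun w => (En C T s w ∧ (¬ Rm s w ∧ Sc C f s w)) ∧ A s w) ≤
      y0 * ∑ s ∈ range T, P.Pr (f s) +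
        ∑ s ∈ range T, P.Pr (fun w => (En C T s w ∧ (¬ Rm s w ∧ Sc C f s w)) ∧ Bd s w) := by
    have h4 : ∀ s ∈ range T, P.Pr (fun w => (En C T s w ∧ (¬ Rm s w ∧ Sc C f s w)) ∧ A s w) ≤
        y0 * P.Pr (fun w => En C T s w ∧ Sc C f s w) +
          P.Pr (fun w => (En C T s w ∧ (¬ Rm s w ∧ Sc C f s w)) ∧ Bd s w) := by
      intro s hsT
      refine (pr_le_bd (X := N (s + 1)) (fun a b e => ?_) fun w hw h =>
        he s (mem_range.1 hsT) w hw h.1 h.2.1 h.2.2).trans (add_le_add (mul_le_mul_of_nonneg_left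
          (P.Pr_mono fun w _ h => ⟨h.1, h.2.2⟩) hy0) le_rfl)
      rw [En_fac hs T s e, hR s a b e, Sc_fac hN hs hf s (hN s a b e)]
    refine (sum_le_sum h4).trans ?_
    rw [sum_add_distrib, ← mul_sum]
    exact add_le_add (mul_le_mul_of_nonneg_left (once_sum f) hy0) le_rfl
  rw [h2] at h1
  have h5 := mul_le_mul_of_nonneg_left h3 hL
  linarith

end count

/-! ## dropping -/

section drop

variable {Om : Type*} [Fintype Om] {P : FP Om} {κ : Type*} {V : ℕ → Om → κ} {C : ℕ → ℕ → Om → Prop}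
  {dec R : ℕ → Om → Prop} {ux : ℝ} {T : ℕ}

variable (P V R) in
/-- the density of the relation `R s` in the sight of the time `s` -/
def dn (s : ℕ) (w : Om) : ℝ := P.ce (V s) (fun u => ind (R s u)) w

variable (P V C dec R ux) in
/-- decided, and the density is at least `ux` since the decision -/
def alv (s : ℕ) (w : Om) : Prop := ∃ j, stg C s w ≤ j ∧ j ≤ s ∧ dec j w ∧ ∀ i, j ≤ i → i ≤ s → ux ≤ dn P V R i w

theorem alv_Sc {s : ℕ} {w : Om} (h : alv P V C dec R ux s w) : Sc C dec s w := by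
  obtain ⟨j, a, b, c, _⟩ := h
  exact ⟨j, a, b, c⟩

theorem alv_dn {s : ℕ} {w : Om} (h : alv P V C dec R ux s w) : ux ≤ dn P V R s w := by
  obtain ⟨j, _, b, _, d⟩ := h
  exact d s b le_rfl

variable (P V C dec R ux) in
/-- the first time at which a decided life has density `< ux` -/
def drp (i : ℕ) (w : Om) : Prop :=
  (Sc C dec i w ∧ dn P V R i w < ux) ∧ ∀ j, stg C i w ≤ j → j < i → ¬ (Sc C dec j w ∧ dn P V R j w < ux)

theorem drp_one {w : Om} {s s' : ℕ} (h : drp P V C dec R ux s w) (h' : drp P V C dec R ux s' w)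
    (e : stg C s w = stg C s' w) : s = s' := by
  have l1 := stg_le (C := C) s w
  have l2 := stg_le (C := C) s' w
  rcases lt_trichotomy s s' with h1 | h1 | h1
  · exact absurd h.1 (h'.2 s (by omega) h1)
  · exact h1
  · exact absurd h'.1 (h.2 s' (by omega) h1)

/-- a decided life which is not alive was dropped -/
theorem drp_of {s : ℕ} {w : Om} (h : Sc C dec s w) (h' : ¬ alv P V C dec R ux s w) : Sc C (drp P V C dec R ux) s w := by
  classical
  obtain ⟨j, a, b, c⟩ := h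
  have hex : ∃ i, j ≤ i ∧ i ≤ s ∧ dn P V R i w < ux := by
    by_contra h2
    push Not at h2
    exact h' ⟨j, a, b, c, h2⟩
  have hex2 : ∃ i, stg C s w ≤ i ∧ i ≤ s ∧ (Sc C dec i w ∧ dn P V R i w < ux) := by
    obtain ⟨i, a1, a2, a3⟩ := hex
    refine ⟨i, a.trans a1, a2, ⟨j, ?_, a1, c⟩, a3⟩
    rw [in_ep (a.trans a1) a2]
    exact a
  obtain ⟨b1, b2, b3⟩ := Nat.find_spec hex2
  refine ⟨Nat.find hex2, b1, b2, b3, fun i h1 h2 h3 => Nat.find_min hex2 h2 ⟨?_, h2.le.trans b2, h3⟩⟩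
  rw [← in_ep b1 b2]
  exact h1

theorem dn_fac (s : ℕ) : Fac (V s) (dn P V R s) := P.ce_fac _ _

theorem drp_fac (hV : ∀ k, Fac (V (k + 1)) (V k)) (hs : ∀ k, Fac (V k) (stg C k))
    (hd : ∀ s a b, V s a = V s b → (dec s a ↔ dec s b)) (s : ℕ) {a b : Om} (e : V s a = V s b) :
    drp P V C dec R ux s a ↔ drp P V C dec R ux s b := by
  unfold drp
  rw [Sc_fac hV hs hd s e, dn_fac (R := R) s a b e, hs s a b e]
  refine and_congr_right fun _ => forall_congr' fun j => forall_congr' fun _ => forall_congr' fun hj => ?_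
  have e2 : V j a = V j b := N_le hV hj.le a b e
  rw [Sc_fac hV hs hd j e2, dn_fac (R := R) j a b e2]

theorem alv_fac (hV : ∀ k, Fac (V (k + 1)) (V k)) (hs : ∀ k, Fac (V k) (stg C k))
    (hd : ∀ s a b, V s a = V s b → (dec s a ↔ dec s b)) (s : ℕ) {a b : Om} (e : V s a = V s b) :
    alv P V C dec R ux s a ↔ alv P V C dec R ux s b := by
  unfold alv
  rw [hs s a b e]
  refine exists_congr fun j => and_congr_right fun _ => and_congr_right fun hj => ?_
  rw [hd j a b (N_le hV hj a b e)]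
  refine and_congr_right fun _ => forall_congr' fun i => forall_congr' fun _ => forall_congr' fun hi => ?_
  rw [dn_fac (R := R) i a b (N_le hV hi a b e)]

/-- **DROPPING** : the relation over the dropped lives costs `ux` per decision -/
theorem drop_sum (hV : ∀ k, Fac (V (k + 1)) (V k)) (hs : ∀ k, Fac (V k) (stg C k))
    (hd : ∀ s a b, V s a = V s b → (dec s a ↔ dec s b)) (hR : ∀ w s s', stg C s w = stg C s' w → (R s w ↔ R s' w))
    (hu : 0 ≤ ux) :
    ∑ s ∈ range T, P.Pr (fun w => En C T s w ∧ (R s w ∧ (Sc C dec s w ∧ ¬ alv P V C dec R ux s w))) ≤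
      ux * ∑ s ∈ range T, P.Pr (dec s) := by
  have h1 : ∑ s ∈ range T, P.Pr (fun w => En C T s w ∧ (R s w ∧ (Sc C dec s w ∧ ¬ alv P V C dec R ux s w))) ≤
      ∑ s ∈ range T, P.Pr (fun w => En C T s w ∧ Sc C (fun i w => drp P V C dec R ux i w ∧ R i w) s w) := by
    refine sum_le_sum fun s _ => P.Pr_mono fun w _ h => ⟨h.1, ?_⟩
    obtain ⟨j, a, b, c⟩ := drp_of h.2.2.1 h.2.2.2
    exact ⟨j, a, b, c, (hR w s j (in_ep a b).symm).1 h.2.1⟩
  have h2 := once_sum (P := P) (C := C) (T := T) (fun i w => drp P V C dec R ux i w ∧ R i w)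
  have h3 : ∀ i ∈ range T, P.Pr (fun w => drp P V C dec R ux i w ∧ R i w) ≤ ux * P.Pr (drp P V C dec R ux i) :=
    fun i _ => pr_le (X := V i) (fun a b e => drp_fac hV hs hd i e) fun w _ h => h.1.2.le
  have h4 : ∑ i ∈ range T, P.Pr (drp P V C dec R ux i) ≤ ∑ s ∈ range T, P.Pr (dec s) := by
    have h5 := pass_sum (P := P) (C := C) (T := T) (f := drp P V C dec R ux) (A := fun _ _ => True)
      (fun w s s' a b e => drp_one a b e) (fun w s s' _ => Iff.rfl)
    have h6 : ∑ s ∈ range T, P.Pr (fun w => En C T s w ∧ (True ∧ Sc C (drp P V C dec R ux) s w)) ≤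
        ∑ s ∈ range T, P.Pr (fun w => En C T s w ∧ Sc C dec s w) := by
      refine sum_le_sum fun s _ => P.Pr_mono fun w _ h => ⟨h.1, ?_⟩
      obtain ⟨j, a, b, c⟩ := h.2.2
      obtain ⟨k, a2, b2, c2⟩ := c.1.1
      refine ⟨k, ?_, b2.trans b, c2⟩
      rw [← in_ep a b]
      exact a2
    have h7 : ∑ i ∈ range T, P.Pr (drp P V C dec R ux i) ≤
        ∑ i ∈ range T, P.Pr (fun w => drp P V C dec R ux i w ∧ True) :=
      sum_le_sum fun i _ => P.Pr_mono fun w _ h => ⟨h, trivial⟩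
    exact h7.trans (h5.trans (h6.trans (once_sum dec)))
  refine h1.trans (h2.trans ((sum_le_sum h3).trans ?_))
  rw [← mul_sum]
  exact mul_le_mul_of_nonneg_left h4 hu

end drop

/-! ## stretches -/

section stretch

variable {Om : Type*} [Fintype Om] {P : FP Om} {κ : Type*} {N : ℕ → Om → κ} {C : ℕ → ℕ → Om → Prop} {ι : Type*}
  {Ev : ι → ℕ → Om → Prop} {yp h : ℝ} {T : ℕ} {Rm Q : ℕ → Om → Prop}

variable (P N Ev yp) in
/-- some event is dense -/
def trg (s : ℕ) (w : Om) : Prop := ∃ i, yp ≤ dn P N (Ev i) s w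

variable (P N C Ev yp) in
/-- in a stretch -/
def inS (s : ℕ) (w : Om) : Prop := Sc C (trg P N Ev yp) s w

variable (P N C Ev yp) in
/-- start of a stretch -/
def srt (s : ℕ) (w : Om) : Prop := trg P N Ev yp s w ∧ ∀ j, stg C s w ≤ j → j < s → ¬ trg P N Ev yp j w

theorem trg_fac (s : ℕ) {a b : Om} (e : N s a = N s b) : trg P N Ev yp s a ↔ trg P N Ev yp s b := by
  unfold trg
  exact exists_congr fun i => by rw [dn_fac (R := Ev i) s a b e]

theorem inS_fac (hN : ∀ k, Fac (N (k + 1)) (N k)) (hs : ∀ k, Fac (N k) (stg C k)) (s : ℕ) {a b : Om}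
    (e : N s a = N s b) : inS P N C Ev yp s a ↔ inS P N C Ev yp s b := Sc_fac hN hs (fun s _ _ e => trg_fac s e) s e

theorem srt_fac (hN : ∀ k, Fac (N (k + 1)) (N k)) (hs : ∀ k, Fac (N k) (stg C k)) (s : ℕ) {a b : Om}
    (e : N s a = N s b) : srt P N C Ev yp s a ↔ srt P N C Ev yp s b := by
  unfold srt
  rw [trg_fac s e, hs s a b e]
  exact and_congr_right fun _ => forall_congr' fun j => forall_congr' fun _ => forall_congr' fun hj =>
    not_congr (trg_fac j (N_le hN hj.le a b e))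

theorem srt_one {w : Om} {s s' : ℕ} (h : srt P N C Ev yp s w) (h' : srt P N C Ev yp s' w)
    (e : stg C s w = stg C s' w) : s = s' := by
  have l1 := stg_le (C := C) s w
  have l2 := stg_le (C := C) s' w
  rcases lt_trichotomy s s' with h1 | h1 | h1
  · exact absurd h.1 (h'.2 s (by omega) h1)
  · exact h1
  · exact absurd h'.1 (h.2 s' (by omega) h1)

/-- a stretch has a start -/
theorem inS_iff {s : ℕ} {w : Om} : inS P N C Ev yp s w ↔ Sc C (srt P N C Ev yp) s w := by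
  classical
  constructor
  · intro hi
    obtain ⟨b1, b2, b3⟩ := Nat.find_spec hi
    refine ⟨Nat.find hi, b1, b2, b3, fun j h1 h2 h3 => Nat.find_min hi h2 ⟨?_, h2.le.trans b2, h3⟩⟩
    rw [← in_ep b1 b2]
    exact h1
  · rintro ⟨j, a, b, c⟩
    exact ⟨j, a, b, c.1⟩

/-- in a stretch until the end of the epoch -/
theorem inS_mono {j s : ℕ} {w : Om} (h1 : stg C s w ≤ j) (h2 : j ≤ s) (hi : inS P N C Ev yp j w) :
    inS P N C Ev yp s w := by
  obtain ⟨i, a, b, c⟩ := hi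
  exact ⟨i, by rw [← in_ep h1 h2]; exact a, b.trans h2, c⟩

theorem not_inS_lt {s : ℕ} {w : Om} (hs : ¬ inS P N C Ev yp s w) (i : ι) : dn P N (Ev i) s w < yp := by
  by_contra h2
  exact hs ⟨s, stg_le s w, le_rfl, i, not_lt.1 h2⟩

/-- **two events of different vertices, no stretch** -/
theorem before_sum (hN : ∀ k, Fac (N (k + 1)) (N k)) (hs : ∀ k, Fac (N k) (stg C k))
    (hR : ∀ s a b, N s a = N s b → (Rm s a ↔ Rm s b)) (hy : 0 ≤ yp) (i j : ι)
    (hp : ∀ s w, P.p w ≠ 0 → P.ce (N s) (fun u => ind (Ev i s u ∧ Ev j s u)) w ≤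
      dn P N (Ev i) s w * dn P N (Ev j) s w) :
    ∑ s ∈ range T, P.Pr (fun w => (Rm s w ∧ ¬ inS P N C Ev yp s w) ∧ (Ev i s w ∧ Ev j s w)) ≤
      yp ^ 2 * ∑ s ∈ range T, P.Pr (Rm s) := by
  rw [mul_sum]
  refine sum_le_sum fun s _ => ?_
  have h1 : P.Pr (fun w => (Rm s w ∧ ¬ inS P N C Ev yp s w) ∧ (Ev i s w ∧ Ev j s w)) ≤
      yp ^ 2 * P.Pr (fun w => Rm s w ∧ ¬ inS P N C Ev yp s w) := by
    refine pr_le (X := N s) (fun a b e => by rw [hR s a b e, inS_fac hN hs s e]) fun w hw hh => ?_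
    refine (hp s w hw).trans ?_
    rw [sq]
    exact mul_le_mul (not_inS_lt hh.2 i).le (not_inS_lt hh.2 j).le (P.ce_nonneg (fun _ _ => ind_nonneg _) w) hy
  exact h1.trans (mul_le_mul_of_nonneg_left (P.Pr_mono fun w _ hh => hh.1) (sq_nonneg _))

/-- one event, no stretch -/
theorem single_sum (hN : ∀ k, Fac (N (k + 1)) (N k)) (hs : ∀ k, Fac (N k) (stg C k))
    (hR : ∀ s a b, N s a = N s b → (Rm s a ↔ Rm s b)) (hy : 0 ≤ yp) (i : ι) :
    ∑ s ∈ range T, P.Pr (fun w => (Rm s w ∧ ¬ inS P N C Ev yp s w) ∧ Ev i s w) ≤ yp * ∑ s ∈ range T, P.Pr (Rm s) := by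
  rw [mul_sum]
  refine sum_le_sum fun s _ => ?_
  have h1 : P.Pr (fun w => (Rm s w ∧ ¬ inS P N C Ev yp s w) ∧ Ev i s w) ≤
      yp * P.Pr (fun w => Rm s w ∧ ¬ inS P N C Ev yp s w) :=
    pr_le (X := N s) (fun a b e => by rw [hR s a b e, inS_fac hN hs s e]) fun w _ hh => (not_inS_lt hh.2 i).le
  exact h1.trans (mul_le_mul_of_nonneg_left (P.Pr_mono fun w _ hh => hh.1) hy)

/-- the density in a finer sight -/
theorem dn_ratio {κ' : Type*} {X : Om → κ} {Y : Om → κ'} (hf : Fac Y X) {w : Om} (hw : P.p w ≠ 0)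
    (hm : P.m X w ≤ h * P.m Y w) (A : Om → Prop) :
    P.ce Y (fun u => ind (A u)) w ≤ h * P.ce X (fun u => ind (A u)) w := by
  have m1 := P.m_pos X hw
  have m2 := P.m_pos Y hw
  have h1 : P.E (fun u => ind (Y u = Y w) * ind (A u)) ≤ P.E (fun u => ind (X u = X w) * ind (A u)) :=
    P.E_mono fun u _ => mul_le_mul_of_nonneg_right (ind_mono fun e => hf u w e) (ind_nonneg _)
  have h0 : 0 ≤ P.E (fun u => ind (X u = X w) * ind (A u)) :=
    P.E_nonneg fun u _ => mul_nonneg (ind_nonneg _) (ind_nonneg _)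
  unfold FP.ce
  rw [div_le_iff₀ m2, ← mul_div_assoc, div_mul_eq_mul_div, le_div_iff₀ m1]
  calc _ ≤ P.E (fun u => ind (X u = X w) * ind (A u)) * P.m X w := mul_le_mul_of_nonneg_right h1 m1.le
    _ ≤ P.E (fun u => ind (X u = X w) * ind (A u)) * (h * P.m Y w) := mul_le_mul_of_nonneg_left hm h0
    _ = _ := by ring

/-- two events of different vertices, no stretch, removals seen by the next time -/
theorem before_sum' (hN : ∀ k, Fac (N (k + 1)) (N k)) (hs : ∀ k, Fac (N k) (stg C k))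
    (hR : ∀ s a b, N (s + 1) a = N (s + 1) b → (Rm s a ↔ Rm s b)) (hy : 0 ≤ yp) (h0 : 0 ≤ h) (i j : ι)
    (hp : ∀ s w, P.p w ≠ 0 → P.ce (N (s + 1)) (fun u => ind (Ev i s u ∧ Ev j s u)) w ≤
      P.ce (N (s + 1)) (fun u => ind (Ev i s u)) w * P.ce (N (s + 1)) (fun u => ind (Ev j s u)) w)
    (hm : ∀ s < T, ∀ w, P.p w ≠ 0 → P.m (N s) w ≤ h * P.m (N (s + 1)) w) :
    ∑ s ∈ range T, P.Pr (fun w => (Rm s w ∧ ¬ inS P N C Ev yp s w) ∧ (Ev i s w ∧ Ev j s w)) ≤
      (h * yp) ^ 2 * ∑ s ∈ range T, P.Pr (Rm s) := by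
  rw [mul_sum]
  refine sum_le_sum fun s hsT => ?_
  have h1 : P.Pr (fun w => (Rm s w ∧ ¬ inS P N C Ev yp s w) ∧ (Ev i s w ∧ Ev j s w)) ≤
      (h * yp) ^ 2 * P.Pr (fun w => Rm s w ∧ ¬ inS P N C Ev yp s w) := by
    refine pr_le (X := N (s + 1)) (fun a b e => by rw [hR s a b e, inS_fac hN hs s (hN s a b e)]) fun w hw hh => ?_
    have h5 : ∀ k : ι, P.ce (N (s + 1)) (fun u => ind (Ev k s u)) w ≤ h * yp := fun k =>
      (dn_ratio (P := P) (h := h) (hN s) hw (hm s (mem_range.1 hsT) w hw) (Ev k s)).trans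
        (mul_le_mul_of_nonneg_left (not_inS_lt hh.2 k).le h0)
    refine (hp s w hw).trans ?_
    rw [sq]
    exact mul_le_mul (h5 i) (h5 j) (P.ce_nonneg (fun _ _ => ind_nonneg _) w) (mul_nonneg h0 hy)
  exact h1.trans (mul_le_mul_of_nonneg_left (P.Pr_mono fun w _ hh => hh.1) (sq_nonneg _))

/-- **two events of different vertices, in a stretch** : they held just before its start -/
theorem after_sum (hN : ∀ k, Fac (N (k + 1)) (N k)) (hs : ∀ k, Fac (N k) (stg C k)) (hy : 0 ≤ yp) (h0 : 0 ≤ h)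
    (i j : ι) (hp : ∀ s w, P.p w ≠ 0 → P.ce (N (s + 1)) (fun u => ind (Ev i s u ∧ Ev j s u)) w ≤
      P.ce (N (s + 1)) (fun u => ind (Ev i s u)) w * P.ce (N (s + 1)) (fun u => ind (Ev j s u)) w)
    (hm : ∀ s < T, ∀ w, P.p w ≠ 0 → P.m (N s) w ≤ h * P.m (N (s + 1)) w)
    (hQ : ∀ r s w, stg C s w < r → r ≤ s → srt P N C Ev yp r w → Q s w → Ev i (r - 1) w ∧ Ev j (r - 1) w) :
    ∑ s ∈ range T, P.Pr (fun w => En C T s w ∧ (inS P N C Ev yp s w ∧ Q s w)) ≤
      (h * yp) ^ 2 * ∑ s ∈ range T, P.Pr (srt P N C Ev yp s) +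
        ∑ s ∈ range T, P.Pr (fun w => stg C s w = s ∧ trg P N Ev yp s w) := by
  set g : ℕ → Om → Prop := fun r w => (srt P N C Ev yp r w ∧ stg C r w < r) ∧ (Ev i (r - 1) w ∧ Ev j (r - 1) w) with hg
  set g' : ℕ → Om → Prop := fun r w => stg C r w = r ∧ trg P N Ev yp r w with hg'
  have h1 : ∑ s ∈ range T, P.Pr (fun w => En C T s w ∧ (inS P N C Ev yp s w ∧ Q s w)) ≤
      ∑ s ∈ range T, P.Pr (fun w => En C T s w ∧ Sc C (fun r w => g r w ∨ g' r w) s w) := by
    refine sum_le_sum fun s _ => P.Pr_mono fun w _ hh => ⟨hh.1, ?_⟩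
    obtain ⟨r, a, b, c⟩ := inS_iff.1 hh.2.1
    refine ⟨r, a, b, ?_⟩
    have e := in_ep a b
    rcases Nat.eq_or_lt_of_le a with h2 | h2
    · exact Or.inr ⟨by rw [e, h2], c.1⟩
    · exact Or.inl ⟨⟨c, by rw [e]; exact h2⟩, hQ r s w h2 b c hh.2.2⟩
  have h2 := once_sum (P := P) (C := C) (T := T) (fun r w => g r w ∨ g' r w)
  have h3 : ∀ r ∈ range T, P.Pr (fun w => g r w ∨ g' r w) ≤
      (h * yp) ^ 2 * P.Pr (srt P N C Ev yp r) + P.Pr (g' r) := by
    intro r hrT
    refine (P.Pr_or_le _ _).trans (add_le_add ?_ le_rfl)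
    rcases Nat.eq_zero_or_pos r with rfl | hr
    · have : P.Pr (g 0) ≤ 0 := by
        refine le_of_eq ?_
        unfold FP.Pr
        rw [P.E_congr (g := fun _ => 0) fun w _ => ?_, P.E_const]
        exact ind_not fun hh => absurd hh.1.2 (Nat.not_lt_zero _)
      exact this.trans (mul_nonneg (sq_nonneg _) (P.Pr_nonneg _))
    · obtain ⟨t, rfl⟩ : ∃ t, r = t + 1 := ⟨r - 1, by omega⟩
      have h4 : P.Pr (fun w => (srt P N C Ev yp (t + 1) w ∧ stg C (t + 1) w < t + 1) ∧ (Ev i t w ∧ Ev j t w)) ≤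
          (h * yp) ^ 2 * P.Pr (fun w => srt P N C Ev yp (t + 1) w ∧ stg C (t + 1) w < t + 1) := by
        refine pr_le (X := N (t + 1)) (fun a b e => by rw [srt_fac hN hs (t + 1) e, hs (t + 1) a b e]) fun w hw hh => ?_
        have h5 : ∀ k : ι, P.ce (N (t + 1)) (fun u => ind (Ev k t u)) w ≤ h * yp := by
          intro k
          have h6 := dn_ratio (P := P) (h := h) (hN t) hw (hm t (by have := mem_range.1 hrT; omega) w hw) (Ev k t)
          refine h6.trans (mul_le_mul_of_nonneg_left ?_ h0)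
          by_contra h7
          exact hh.1.2 t (by omega) (by omega) ⟨k, (not_le.1 h7).le⟩
        refine (hp t w hw).trans ?_
        rw [sq]
        exact mul_le_mul (h5 i) (h5 j) (P.ce_nonneg (fun _ _ => ind_nonneg _) w) (mul_nonneg h0 hy)
      refine h4.trans (mul_le_mul_of_nonneg_left (P.Pr_mono fun w _ hh => hh.1) (sq_nonneg _))
  refine h1.trans (h2.trans ((sum_le_sum h3).trans (le_of_eq ?_)))
  rw [sum_add_distrib, ← mul_sum]

/-- the stretches by the event which is dense at the start -/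
theorem srt_le [Fintype ι] : ∑ s ∈ range T, P.Pr (srt P N C Ev yp s) ≤
    ∑ i, ∑ s ∈ range T, P.Pr (fun w => srt P N C Ev yp s w ∧ yp ≤ dn P N (Ev i) s w) := by
  classical
  rw [sum_comm]
  refine sum_le_sum fun s _ => ?_
  unfold FP.Pr
  rw [← FP.E_sum]
  refine P.E_mono fun w _ => ?_
  by_cases hw : srt P N C Ev yp s w
  · obtain ⟨i, hi⟩ := hw.1
    rw [ind_of hw, ← ind_of (show srt P N C Ev yp s w ∧ yp ≤ dn P N (Ev i) s w from ⟨hw, hi⟩)]
    exact single_le_sum (f := fun i => ind (srt P N C Ev yp s w ∧ yp ≤ dn P N (Ev i) s w))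
      (fun i _ => ind_nonneg _) (mem_univ i)
  · rw [ind_not hw]
    exact sum_nonneg fun i _ => ind_nonneg _

/-- **STRETCHES WHICH START WITH A STATIC EVENT** -/
theorem static_count (hN : ∀ k, Fac (N (k + 1)) (N k)) (hs : ∀ k, Fac (N k) (stg C k)) (i : ι)
    (hA : ∀ w s s', stg C s w = stg C s' w → (Ev i s w ↔ Ev i s' w))
    (hR : ∀ s a b, N (s + 1) a = N (s + 1) b → (Rm s a ↔ Rm s b)) {y0 : ℝ} (hy0 : 0 ≤ y0) {Bd : ℕ → Om → Prop}
    (he : ∀ s < T, ∀ w, P.p w ≠ 0 → En C T s w → ¬ Rm s w → P.ce (N (s + 1)) (fun u => ind (Ev i s u)) w ≤ y0 + ind (Bd s w)) :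
    (yp - y0) * ∑ s ∈ range T, P.Pr (fun w => srt P N C Ev yp s w ∧ yp ≤ dn P N (Ev i) s w) ≤
      ∑ s ∈ range T, P.Pr (fun w => Rm s w ∧ Ev i s w) + ∑ s ∈ range T, P.Pr (Bd s) := by
  have h1 := count_sum (P := P) (N := N) (C := C) (f := fun s w => srt P N C Ev yp s w ∧ yp ≤ dn P N (Ev i) s w)
    (A := Ev i) (Rm := Rm) (Bd := Bd) (y := yp) (y0 := y0) (T := T) hN hs
    (fun s a b e => by rw [srt_fac hN hs s e, dn_fac (R := Ev i) s a b e])
    (fun w s s' a b e => srt_one a.1 b.1 e) hA hR hy0 (fun s _ w _ hh => hh.2) (fun s hsT w hw a b _ => he s hsT w hw a b)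
  refine h1.trans (add_le_add ?_ ?_)
  · exact sum_le_sum fun s _ => P.Pr_mono fun w _ hh => ⟨hh.1, hh.2.1⟩
  · exact sum_le_sum fun s _ => P.Pr_mono fun w _ hh => hh.2

/-- the same, only ends of epochs with a stretch are asked -/
theorem static_count' (hN : ∀ k, Fac (N (k + 1)) (N k)) (hs : ∀ k, Fac (N k) (stg C k)) (i : ι)
    (hA : ∀ w s s', stg C s w = stg C s' w → (Ev i s w ↔ Ev i s' w))
    (hR : ∀ s a b, N (s + 1) a = N (s + 1) b → (Rm s a ↔ Rm s b)) {y0 : ℝ} (hy0 : 0 ≤ y0) {Bd : ℕ → Om → Prop}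
    (he : ∀ s < T, ∀ w, P.p w ≠ 0 → En C T s w → ¬ Rm s w → inS P N C Ev yp s w →
      P.ce (N (s + 1)) (fun u => ind (Ev i s u)) w ≤ y0 + ind (Bd s w)) :
    (yp - y0) * ∑ s ∈ range T, P.Pr (fun w => srt P N C Ev yp s w ∧ yp ≤ dn P N (Ev i) s w) ≤
      ∑ s ∈ range T, P.Pr (fun w => Rm s w ∧ Ev i s w) +
        ∑ s ∈ range T, P.Pr (fun w => (En C T s w ∧ (¬ Rm s w ∧ inS P N C Ev yp s w)) ∧ Bd s w) := by
  have hin : ∀ s w, Sc C (fun s w => srt P N C Ev yp s w ∧ yp ≤ dn P N (Ev i) s w) s w → inS P N C Ev yp s w := by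
    rintro s w ⟨j, a, b, c⟩
    exact inS_iff.2 ⟨j, a, b, c.1⟩
  have h1 := count_sum (P := P) (N := N) (C := C) (f := fun s w => srt P N C Ev yp s w ∧ yp ≤ dn P N (Ev i) s w)
    (A := Ev i) (Rm := Rm) (Bd := Bd) (y := yp) (y0 := y0) (T := T) hN hs
    (fun s a b e => by rw [srt_fac hN hs s e, dn_fac (R := Ev i) s a b e])
    (fun w s s' a b e => srt_one a.1 b.1 e) hA hR hy0 (fun s _ w _ hh => hh.2)
    (fun s hsT w hw a b c => he s hsT w hw a b (hin s w c))
  refine h1.trans (add_le_add ?_ ?_)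
  · exact sum_le_sum fun s _ => P.Pr_mono fun w _ hh => ⟨hh.1, hh.2.1⟩
  · exact sum_le_sum fun s _ => P.Pr_mono fun w _ hh => ⟨⟨hh.1.1, hh.1.2.1, hin s w hh.1.2.2⟩, hh.2⟩

end stretch

/-! ## two clocks -/

section joint

variable {Om : Type*} (C C' : ℕ → ℕ → Om → Prop)

/-- ends of both clocks -/
def jn (_ν k : ℕ) (w : Om) : Prop := stg C k w = k ∨ stg C' k w = k

variable {C C'}

theorem jn_eq (s : ℕ) (w : Om) : stg (jn C C') s w = max (stg C s w) (stg C' s w) := by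
  induction s with
  | zero => rw [stg_zero, stg_zero, stg_zero, max_self]
  | succ s ih =>
    have l1 := stg_le (C := C) s w
    have l2 := stg_le (C := C') s w
    by_cases h1 : stg C (s + 1) w = s + 1
    · rw [stg_pos (C := jn C C') (Or.inl h1), h1]
      have := stg_le (C := C') (s + 1) w
      omega
    · by_cases h2 : stg C' (s + 1) w = s + 1
      · rw [stg_pos (C := jn C C') (Or.inr h2), h2]
        have := stg_le (C := C) (s + 1) w
        omega
      · rw [stg_neg (C := jn C C') (fun hh => hh.elim h1 h2), ih]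
        rcases stg_or (C := C) s w with h3 | h3
        · exact absurd h3 h1
        · rcases stg_or (C := C') s w with h4 | h4
          · exact absurd h4 h2
          · rw [h3, h4]

theorem jn_le_left (s : ℕ) (w : Om) : stg C s w ≤ stg (jn C C') s w := by rw [jn_eq]; exact le_max_left _ _

theorem jn_le_right (s : ℕ) (w : Om) : stg C' s w ≤ stg (jn C C') s w := by rw [jn_eq]; exact le_max_right _ _

/-- the same joint epoch, so the same epoch of each clock -/
theorem jn_left {s s' : ℕ} {w : Om} (e : stg (jn C C') s w = stg (jn C C') s' w) : stg C s w = stg C s' w := by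
  have l1 := stg_le (C := jn C C') s w
  have l2 := stg_le (C := jn C C') s' w
  have a1 := jn_le_left (C := C) (C' := C') s w
  have a2 := jn_le_left (C := C) (C' := C') s' w
  rcases le_total s s' with h | h
  · exact stg_mid rfl (by omega) h
  · exact (stg_mid (C := C) rfl (by omega) h).symm

theorem jn_right {s s' : ℕ} {w : Om} (e : stg (jn C C') s w = stg (jn C C') s' w) : stg C' s w = stg C' s' w := by
  have l1 := stg_le (C := jn C C') s w
  have l2 := stg_le (C := jn C C') s' w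
  have a1 := jn_le_right (C := C) (C' := C') s w
  have a2 := jn_le_right (C := C) (C' := C') s' w
  rcases le_total s s' with h | h
  · exact stg_mid rfl (by omega) h
  · exact (stg_mid (C := C') rfl (by omega) h).symm

theorem jn_fac {κ : Type*} {N : ℕ → Om → κ} (h1 : ∀ k, Fac (N k) (stg C k)) (h2 : ∀ k, Fac (N k) (stg C' k)) (k : ℕ) :
    Fac (N k) (stg (jn C C') k) := fun a b e => by rw [jn_eq, jn_eq, h1 k a b e, h2 k a b e]

/-- the end of an epoch of one of the clocks is an end of the joint clock -/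
theorem En_left {T s : ℕ} {w : Om} (h : En C T s w) : En (jn C C') T s w := by
  rcases h with h | h
  · refine Or.inl ?_
    have h1 := jn_le_left (C := C) (C' := C') (s + 1) w
    have h2 := stg_le (C := jn C C') (s + 1) w
    omega
  · exact Or.inr h

theorem En_right {T s : ℕ} {w : Om} (h : En C' T s w) : En (jn C C') T s w := by
  rcases h with h | h
  · refine Or.inl ?_
    have h1 := jn_le_right (C := C) (C' := C') (s + 1) w
    have h2 := stg_le (C := jn C C') (s + 1) w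
    omega
  · exact Or.inr h

end joint

/-! ## stretches and one exact vertex -/

section vertex

variable {Om : Type*} [Fintype Om] {P : FP Om} {κ κ' : Type*} {N : ℕ → Om → κ} {V : ℕ → Om → κ'}
  {C Ct : ℕ → ℕ → Om → Prop} {ι : Type*} {Ev : ι → ℕ → Om → Prop} {yp ux uB h : ℝ} {T : ℕ} {R Rm : ℕ → Om → Prop}

/-- **STRETCHES WHICH START WITH A DENSE VERTEX** : `Ev i s` = the density of `R s` at the exact vertex is `≥ ux`; `Ct` = lives
of the exact vertex, `R` static in the lives; ends of the joint epochs with a stretch which are not removals have density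
`≤ y1` outside `Bd` -/
theorem dense_count (hN : ∀ k, Fac (N (k + 1)) (N k)) (hV : ∀ k, Fac (V (k + 1)) (V k)) (hVN : ∀ k, Fac (V k) (N k))
    (hs : ∀ k, Fac (N k) (stg C k)) (ht : ∀ k, Fac (V k) (stg Ct k)) (i : ι)
    (hE : ∀ s w, Ev i s w ↔ ux ≤ dn P V R s w) (hR : ∀ w s s', stg Ct s w = stg Ct s' w → (R s w ↔ R s' w))
    (hRm : ∀ s a b, V (s + 1) a = V (s + 1) b → (Rm s a ↔ Rm s b)) {y1 : ℝ} (hy1 : 0 ≤ y1) (hyx : y1 ≤ ux)
    {Bd : ℕ → Om → Prop}
    (he : ∀ s < T, ∀ w, P.p w ≠ 0 → En (jn Ct C) T s w → ¬ Rm s w → inS P N C Ev yp s w →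
      P.ce (V (s + 1)) (fun u => ind (R s u)) w ≤ y1 + ind (Bd s w)) :
    (ux - y1) * (yp * ∑ s ∈ range T, P.Pr (fun w => srt P N C Ev yp s w ∧ yp ≤ dn P N (Ev i) s w)) ≤
      ∑ s ∈ range T, P.Pr (fun w => Rm s w ∧ (R s w ∧ ∃ j, stg (jn Ct C) s w ≤ j ∧ j ≤ s ∧ ux ≤ dn P V R j w)) +
        ∑ s ∈ range T, P.Pr (fun w => (En (jn Ct C) T s w ∧ (¬ Rm s w ∧ inS P N C Ev yp s w)) ∧ Bd s w) := by
  set f : ℕ → Om → Prop := fun s w => srt P N C Ev yp s w ∧ yp ≤ dn P N (Ev i) s w with hf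
  have ff : ∀ s a b, N s a = N s b → (f s a ↔ f s b) := fun s a b e => by
    simp only [hf]
    rw [srt_fac hN hs s e, dn_fac (R := Ev i) s a b e]
  have hin : ∀ s w, Sc (jn Ct C) (fun s w => f s w ∧ Ev i s w) s w → inS P N C Ev yp s w := by
    rintro s w ⟨j, a, b, c⟩
    exact inS_iff.2 ⟨j, (jn_le_right s w).trans a, b, c.1.1⟩
  have h1 : yp * ∑ s ∈ range T, P.Pr (f s) ≤ ∑ s ∈ range T, P.Pr (fun w => f s w ∧ Ev i s w) := by
    rw [mul_sum]
    exact sum_le_sum fun s _ => pr_ge (X := N s) (ff s) fun w _ hh => hh.2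
  have hEf : ∀ s a b, V s a = V s b → (Ev i s a ↔ Ev i s b) := fun s a b e => by
    rw [hE, hE, dn_fac (R := R) s a b e]
  have h2 := count_sum (P := P) (N := V) (C := jn Ct C) (f := fun s w => f s w ∧ Ev i s w) (A := R) (Rm := Rm) (Bd := Bd)
    (y := ux) (y0 := y1) (T := T) hV (jn_fac ht fun k => (hVN k).trans (hs k))
    (fun s a b e => by
      show (f s a ∧ Ev i s a) ↔ (f s b ∧ Ev i s b)
      rw [ff s a b (hVN s a b e), hEf s a b e])
    (fun w s s' a b e => srt_one a.1.1 b.1.1 (jn_right e))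
    (fun w s s' e => hR w s s' (jn_left e)) hRm hy1
    (fun s _ w _ hh => (hE s w).1 hh.2) (fun s hsT w hw a b c => he s hsT w hw a b (hin s w c))
  have h3 := mul_le_mul_of_nonneg_left h1 (sub_nonneg.2 hyx)
  refine h3.trans (h2.trans (add_le_add ?_ ?_))
  · refine sum_le_sum fun s _ => P.Pr_mono fun w _ hh => ⟨hh.1, hh.2.1, ?_⟩
    obtain ⟨j, a, b, c⟩ := hh.2.2
    exact ⟨j, a, b, (hE j w).1 c.2⟩
  · exact sum_le_sum fun s _ => P.Pr_mono fun w _ hh => ⟨⟨hh.1.1, hh.1.2.1, hin s w hh.1.2.2⟩, hh.2⟩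

/-- **ENDS OF STRETCHES** which are not removals -/
theorem send_sum (hN : ∀ k, Fac (N (k + 1)) (N k)) (hs : ∀ k, Fac (N k) (stg C k))
    (hRm : ∀ s a b, N (s + 1) a = N (s + 1) b → (Rm s a ↔ Rm s b)) {y0 : ℝ} (hy0 : 0 ≤ y0) {A Bd : ℕ → Om → Prop}
    (he : ∀ s < T, ∀ w, P.p w ≠ 0 → En C T s w → ¬ Rm s w → inS P N C Ev yp s w →
      P.ce (N (s + 1)) (fun u => ind (A s u)) w ≤ y0 + ind (Bd s w)) :
    ∑ s ∈ range T, P.Pr (fun w => (En C T s w ∧ (¬ Rm s w ∧ inS P N C Ev yp s w)) ∧ A s w) ≤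
      y0 * ∑ s ∈ range T, P.Pr (srt P N C Ev yp s) + ∑ s ∈ range T, P.Pr (Bd s) := by
  have h1 : ∀ s ∈ range T, P.Pr (fun w => (En C T s w ∧ (¬ Rm s w ∧ inS P N C Ev yp s w)) ∧ A s w) ≤
      y0 * P.Pr (fun w => En C T s w ∧ Sc C (srt P N C Ev yp) s w) + P.Pr (Bd s) := by
    intro s hsT
    have h2 := pr_le_bd (P := P) (X := N (s + 1)) (f := fun w => En C T s w ∧ (¬ Rm s w ∧ inS P N C Ev yp s w))
      (A := A s) (B := Bd s) (q := y0) (fun a b e => by
        show (En C T s a ∧ (¬ Rm s a ∧ inS P N C Ev yp s a)) ↔ (En C T s b ∧ (¬ Rm s b ∧ inS P N C Ev yp s b))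
        rw [En_fac hs T s e, hRm s a b e, inS_fac hN hs s (hN s a b e)])
      fun w hw hh => he s (mem_range.1 hsT) w hw hh.1 hh.2.1 hh.2.2
    refine h2.trans (add_le_add (mul_le_mul_of_nonneg_left (P.Pr_mono fun w _ hh => ⟨hh.1, inS_iff.1 hh.2.2⟩) hy0)
      (P.Pr_mono fun w _ hh => hh.2))
  refine (sum_le_sum h1).trans ?_
  rw [sum_add_distrib, ← mul_sum]
  exact add_le_add (mul_le_mul_of_nonneg_left (once_sum _) hy0) le_rfl

/-! ### the life which also ends at the public ends of the stretches -/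

/-- ends of the lives, with the public ends of the stretches -/
def CL (P : FP Om) (N : ℕ → Om → κ) (C Ct : ℕ → ℕ → Om → Prop) (Ev : ι → ℕ → Om → Prop) (yp : ℝ) (_ν k : ℕ) (w : Om) : Prop :=
  stg Ct k w = k ∨ (stg C k w = k ∧ inS P N C Ev yp (k - 1) w)

theorem CL_le (s : ℕ) (w : Om) : stg Ct s w ≤ stg (CL P N C Ct Ev yp) s w := by
  induction s with
  | zero => rw [stg_zero, stg_zero]
  | succ s ih =>
    by_cases h : stg Ct (s + 1) w = s + 1
    · rw [h, stg_pos (C := CL P N C Ct Ev yp) (Or.inl h)]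
    · rcases stg_or (C := Ct) s w with h1 | h1
      · exact absurd h1 h
      · rcases stg_or (C := CL P N C Ct Ev yp) s w with h2 | h2
        · rw [h2]
          exact stg_le _ _
        · rw [h1, h2]
          exact ih

theorem CL_fac (hN : ∀ k, Fac (N (k + 1)) (N k)) (hV : ∀ k, Fac (V (k + 1)) (V k)) (hVN : ∀ k, Fac (V k) (N k))
    (hs : ∀ k, Fac (N k) (stg C k)) (ht : ∀ k, Fac (V k) (stg Ct k)) (k : ℕ) : Fac (V k) (stg (CL P N C Ct Ev yp) k) := by
  refine stg_fac hV (fun ν k _ a b e => ?_) k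
  unfold CL
  have e2 : N k a = N k b := hN k a b (hVN (k + 1) a b e)
  rw [ht (k + 1) a b e, hs (k + 1) a b (hVN (k + 1) a b e), Nat.add_sub_cancel, inS_fac hN hs k e2]

theorem CL_static (hR : ∀ w s s', stg Ct s w = stg Ct s' w → (R s w ↔ R s' w)) (w : Om) (s s' : ℕ)
    (e : stg (CL P N C Ct Ev yp) s w = stg (CL P N C Ct Ev yp) s' w) : R s w ↔ R s' w := by
  have l1 := stg_le (C := CL P N C Ct Ev yp) s w
  have l2 := stg_le (C := CL P N C Ct Ev yp) s' w
  have a1 := CL_le (P := P) (N := N) (C := C) (Ct := Ct) (Ev := Ev) (yp := yp) s w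
  have a2 := CL_le (P := P) (N := N) (C := C) (Ct := Ct) (Ev := Ev) (yp := yp) s' w
  rcases le_total s s' with h | h
  · exact hR w s s' (stg_mid rfl (by omega) h)
  · exact (hR w s' s (stg_mid (C := Ct) rfl (by omega) h)).symm

/-- in a life the stretch does not stop -/
theorem CL_mono {j s : ℕ} {w : Om} (h1 : stg (CL P N C Ct Ev yp) s w ≤ j) (h2 : j ≤ s) (hi : inS P N C Ev yp j w) :
    inS P N C Ev yp s w := by
  induction s, h2 using Nat.le_induction with
  | base => exact hi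
  | succ s hs ih =>
    have h3 : stg (CL P N C Ct Ev yp) (s + 1) w ≠ s + 1 := fun h => by omega
    have h4 : stg (CL P N C Ct Ev yp) (s + 1) w = stg (CL P N C Ct Ev yp) s w := by
      rcases stg_or (C := CL P N C Ct Ev yp) s w with h5 | h5
      · exact absurd h5 h3
      · exact h5
    have h5 : inS P N C Ev yp s w := ih (by rw [← h4]; exact h1)
    have h6 : stg C (s + 1) w = stg C s w := by
      rcases stg_or (C := C) s w with h7 | h7
      · exact absurd (stg_pos (C := CL P N C Ct Ev yp) (Or.inr ⟨h7, by rw [Nat.add_sub_cancel]; exact h5⟩)) h3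
      · exact h7
    exact inS_mono (by rw [h6]; exact stg_le s w) (Nat.le_succ s) h5

theorem jn_mono {j s : ℕ} {w : Om} (h1 : stg (jn Ct C) s w ≤ j) (h2 : j ≤ s) (hi : inS P N C Ev yp j w) :
    inS P N C Ev yp s w := inS_mono ((jn_le_right s w).trans h1) h2 hi

theorem CL_end {s : ℕ} {w : Om} (h : En (CL P N C Ct Ev yp) T s w) :
    En Ct T s w ∨ (stg C (s + 1) w = s + 1 ∧ inS P N C Ev yp s w) := by
  rcases h with h | h
  · rcases stg_end (C := CL P N C Ct Ev yp) h with h1 | h1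
    · exact Or.inl (Or.inl h1)
    · exact Or.inr ⟨h1.1, by have := h1.2; rwa [Nat.add_sub_cancel] at this⟩
  · exact Or.inl (Or.inr h)

theorem En_CL {s : ℕ} {w : Om} (h : En Ct T s w) : En (CL P N C Ct Ev yp) T s w := by
  rcases h with h | h
  · exact Or.inl (stg_pos (C := CL P N C Ct Ev yp) (Or.inl h))
  · exact Or.inr h

/-! ### decisions -/

section dec

variable {Ca Cb : ℕ → ℕ → Om → Prop} {RV iS X Y qa qb : ℕ → Om → Prop}

/-- decision outside the stretches (full relation); `qa s` = candidate (density at least `uB`, not blocked) -/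
def dA (Ca : ℕ → ℕ → Om → Prop) (qa iS : ℕ → Om → Prop) (s : ℕ) (w : Om) : Prop :=
  (qa s w ∧ ¬ iS s w) ∧ ∀ j, stg Ca s w ≤ j → j < s → ¬ qa j w

/-- decision in a stretch (restricted relation); `qb s` = candidate -/
def dB (Ca Cb : ℕ → ℕ → Om → Prop) (qa qb iS : ℕ → Om → Prop) (s : ℕ) (w : Om) : Prop :=
  ((iS s w ∧ ¬ Sc Ca (dA Ca qa iS) s w) ∧ qb s w) ∧ ∀ j, stg Cb s w ≤ j → j < s → iS j w → ¬ qb j w

theorem dA_one {w : Om} {s s' : ℕ} (h : dA Ca qa iS s w) (h' : dA Ca qa iS s' w)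
    (e : stg Ca s w = stg Ca s' w) : s = s' := by
  have l1 := stg_le (C := Ca) s w
  have l2 := stg_le (C := Ca) s' w
  rcases lt_trichotomy s s' with h1 | h1 | h1
  · exact absurd h.1.1 (h'.2 s (by omega) h1)
  · exact h1
  · exact absurd h'.1.1 (h.2 s' (by omega) h1)

theorem dB_one {w : Om} {s s' : ℕ} (h : dB Ca Cb qa qb iS s w) (h' : dB Ca Cb qa qb iS s' w)
    (e : stg Cb s w = stg Cb s' w) : s = s' := by
  have l1 := stg_le (C := Cb) s w
  have l2 := stg_le (C := Cb) s' w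
  rcases lt_trichotomy s s' with h1 | h1 | h1
  · exact absurd h.1.2 (h'.2 s (by omega) h1 h.1.1.1)
  · exact h1
  · exact absurd h'.1.2 (h.2 s' (by omega) h1 h'.1.1.1)

theorem dA_fac (hV : ∀ k, Fac (V (k + 1)) (V k)) (ha : ∀ k, Fac (V k) (stg Ca k))
    (hq : ∀ s a b, V s a = V s b → (qa s a ↔ qa s b)) (hi : ∀ s a b, V s a = V s b → (iS s a ↔ iS s b)) (s : ℕ)
    {a b : Om} (e : V s a = V s b) : dA Ca qa iS s a ↔ dA Ca qa iS s b := by
  unfold dA
  rw [hq s a b e, hi s a b e, ha s a b e]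
  exact and_congr_right fun _ => forall_congr' fun j => forall_congr' fun _ => forall_congr' fun hj => by
    rw [hq j a b (N_le hV hj.le a b e)]

theorem dB_fac (hV : ∀ k, Fac (V (k + 1)) (V k)) (ha : ∀ k, Fac (V k) (stg Ca k)) (hb : ∀ k, Fac (V k) (stg Cb k))
    (hq : ∀ s a b, V s a = V s b → (qa s a ↔ qa s b)) (hq' : ∀ s a b, V s a = V s b → (qb s a ↔ qb s b))
    (hi : ∀ s a b, V s a = V s b → (iS s a ↔ iS s b)) (s : ℕ) {a b : Om} (e : V s a = V s b) :
    dB Ca Cb qa qb iS s a ↔ dB Ca Cb qa qb iS s b := by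
  unfold dB
  rw [hi s a b e, Sc_fac hV ha (fun s _ _ e => dA_fac hV ha hq hi s e) s e, hq' s a b e, hb s a b e]
  exact and_congr_right fun _ => forall_congr' fun j => forall_congr' fun _ => forall_congr' fun hj => by
    rw [hi j a b (N_le hV hj.le a b e), hq' j a b (N_le hV hj.le a b e)]

/-- a life which is not decided before a stretch has no candidate before it -/
theorem not_dense (miA : ∀ j s w, stg Ca s w ≤ j → j ≤ s → iS j w → iS s w) {s i : ℕ} {w : Om}
    (hn : ¬ Sc Ca (dA Ca qa iS) s w) (h1 : stg Ca s w ≤ i) (h2 : i ≤ s) (h3 : ¬ iS i w) : ¬ qa i w := by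
  classical
  intro h4
  have hex : ∃ j, stg Ca s w ≤ j ∧ j ≤ i ∧ qa j w := ⟨i, h1, le_rfl, h4⟩
  obtain ⟨b1, b2, b3⟩ := Nat.find_spec hex
  refine hn ⟨Nat.find hex, b1, b2.trans h2, ⟨b3, fun h5 => h3 ?_⟩, fun j h5 h6 h7 => ?_⟩
  · exact miA (Nat.find hex) i w (by rw [in_ep h1 h2]; exact b1) b2 h5
  · refine Nat.find_min hex h6 ⟨?_, h6.le.trans b2, h7⟩
    rw [← in_ep b1 (b2.trans h2)]
    exact h5

/-- at a decision inside a life there was no candidate just before -/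
theorem dB_prev (miA : ∀ j s w, stg Ca s w ≤ j → j ≤ s → iS j w → iS s w) (hab : ∀ s w, stg Ca s w ≤ stg Cb s w)
    (hab' : ∀ s w, qb s w → qa s w) {s : ℕ} {w : Om} (h : dB Ca Cb qa qb iS s w) (h1 : stg Cb s w < s) :
    ¬ qb (s - 1) w := by
  by_cases h2 : iS (s - 1) w
  · exact h.2 (s - 1) (by omega) (by omega) h2
  · exact fun h3 => not_dense miA h.1.1.2 (show stg Ca s w ≤ s - 1 by have := hab s w; omega) (Nat.sub_le s 1) h2
      (hab' _ _ h3)

/-- the bit of the vertex -/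
def bt (P : FP Om) (V : ℕ → Om → κ') (Ca Cb : ℕ → ℕ → Om → Prop) (R RV qa qb iS : ℕ → Om → Prop) (ux : ℝ) (s : ℕ)
    (w : Om) : Prop := alv P V Ca (dA Ca qa iS) R ux s w ∨ alv P V Cb (dB Ca Cb qa qb iS) RV ux s w

theorem bt_fac (hV : ∀ k, Fac (V (k + 1)) (V k)) (ha : ∀ k, Fac (V k) (stg Ca k)) (hb : ∀ k, Fac (V k) (stg Cb k))
    (hq : ∀ s a b, V s a = V s b → (qa s a ↔ qa s b)) (hq' : ∀ s a b, V s a = V s b → (qb s a ↔ qb s b))
    (hi : ∀ s a b, V s a = V s b → (iS s a ↔ iS s b)) (s : ℕ) {a b : Om} (e : V s a = V s b) :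
    bt P V Ca Cb R RV qa qb iS ux s a ↔ bt P V Ca Cb R RV qa qb iS ux s b := by
  unfold bt
  rw [alv_fac hV ha (fun s _ _ e => dA_fac hV ha hq hi s e) s e,
    alv_fac hV hb (fun s _ _ e => dB_fac hV ha hb hq hq' hi s e) s e]

/-- the two decisions exclude each other -/
theorem excl (miB : ∀ j s w, stg Cb s w ≤ j → j ≤ s → iS j w → iS s w) {s : ℕ} {w : Om}
    (h1 : Sc Ca (dA Ca qa iS) s w) : ¬ Sc Cb (dB Ca Cb qa qb iS) s w := by
  rintro ⟨j, a, b, c⟩
  obtain ⟨i, a2, b2, c2⟩ := h1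
  rcases le_or_gt i j with h3 | h3
  · refine c.1.1.2 ⟨i, ?_, h3, c2⟩
    rw [in_ep (a2.trans h3) b]
    exact a2
  · refine c2.1.2 (miB j i w ?_ h3.le c.1.1.1)
    rw [in_ep (a.trans h3.le) b2]
    exact a

/-- **THE SELECTION** : the signed sum at the removals, with the bit of the vertex, the restriction `X` (no other vertex in
`V`), `RV s = R s` and `X s`, and any further event `Y` -/
theorem sel (hV : ∀ k, Fac (V (k + 1)) (V k)) (ha : ∀ k, Fac (V k) (stg Ca k)) (hb : ∀ k, Fac (V k) (stg Cb k))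
    (hq : ∀ s a b, V s a = V s b → (qa s a ↔ qa s b)) (hq' : ∀ s a b, V s a = V s b → (qb s a ↔ qb s b))
    (hi : ∀ s a b, V s a = V s b → (iS s a ↔ iS s b))
    (miB : ∀ j s w, stg Cb s w ≤ j → j ≤ s → iS j w → iS s w)
    (hRa : ∀ w s s', stg Ca s w = stg Ca s' w → (R s w ↔ R s' w))
    (hRb : ∀ w s s', stg Cb s w = stg Cb s' w → (RV s w ↔ RV s' w)) (hX : ∀ s w, RV s w ↔ (R s w ∧ X s w))
    (hux : 0 ≤ ux) (hea : ∀ s < T, ∀ w, P.p w ≠ 0 → Rm s w → En Ca T s w) (heb : ∀ s < T, ∀ w, P.p w ≠ 0 → Rm s w → En Cb T s w)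
    {ψ : ℕ → Om → ℝ} {L : ℝ} (hL : 0 ≤ L) (hψ : ∀ s w, P.p w ≠ 0 → -L ≤ ψ s w) :
    ∑ s ∈ range T, P.E (fun w => ind ((Rm s w ∧ bt P V Ca Cb R RV qa qb iS ux s w) ∧ ((R s w ∧ X s w) ∧ Y s w)) * ψ s w) ≤
      ∑ s ∈ range T, P.E (fun w => ind (Rm s w ∧ (R s w ∧ Sc Ca (dA Ca qa iS) s w)) * ψ s w) +
      ∑ s ∈ range T, P.E (fun w => ind (Rm s w ∧ (RV s w ∧ Sc Cb (dB Ca Cb qa qb iS) s w)) * ψ s w) +
      L * (ux * (∑ s ∈ range T, P.Pr (dA Ca qa iS s) + ∑ s ∈ range T, P.Pr (dB Ca Cb qa qb iS s)) +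
        (∑ s ∈ range T, P.Pr (fun w => Rm s w ∧ (R s w ∧ (alv P V Ca (dA Ca qa iS) R ux s w ∧ (¬ X s w ∨ ¬ Y s w)))) +
        ∑ s ∈ range T, P.Pr (fun w => Rm s w ∧ (RV s w ∧ (alv P V Cb (dB Ca Cb qa qb iS) RV ux s w ∧ ¬ Y s w))))) := by
  set DA := dA Ca qa iS with hDA
  set DB := dB Ca Cb qa qb iS with hDB
  set AA := alv P V Ca DA R ux with hAA
  set AB := alv P V Cb DB RV ux with hAB
  have fA : ∀ s a b, V s a = V s b → (DA s a ↔ DA s b) := fun s a b e => dA_fac hV ha hq hi s e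
  have fB : ∀ s a b, V s a = V s b → (DB s a ↔ DB s b) := fun s a b e => dB_fac hV ha hb hq hq' hi s e
  have d1 := drop_sum (P := P) (V := V) (C := Ca) (dec := DA) (R := R) (ux := ux) (T := T) hV ha fA hRa hux
  have d2 := drop_sum (P := P) (V := V) (C := Cb) (dec := DB) (R := RV) (ux := ux) (T := T) hV hb fB hRb hux
  -- one step
  have one : ∀ s ∈ range T, P.E (fun w => ind ((Rm s w ∧ bt P V Ca Cb R RV qa qb iS ux s w) ∧
      ((R s w ∧ X s w) ∧ Y s w)) * ψ s w) ≤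
      P.E (fun w => ind (Rm s w ∧ (R s w ∧ Sc Ca DA s w)) * ψ s w) +
      P.E (fun w => ind (Rm s w ∧ (RV s w ∧ Sc Cb DB s w)) * ψ s w) +
      L * (P.Pr (fun w => En Ca T s w ∧ (R s w ∧ (Sc Ca DA s w ∧ ¬ AA s w))) +
        P.Pr (fun w => En Cb T s w ∧ (RV s w ∧ (Sc Cb DB s w ∧ ¬ AB s w))) +
        P.Pr (fun w => Rm s w ∧ (R s w ∧ (AA s w ∧ (¬ X s w ∨ ¬ Y s w)))) +
        P.Pr (fun w => Rm s w ∧ (RV s w ∧ (AB s w ∧ ¬ Y s w)))) := by
    intro s hsT
    have hsT' := mem_range.1 hsT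
    unfold FP.Pr
    rw [← FP.E_add, ← FP.E_add, ← FP.E_add, ← FP.E_add, ← FP.E_smul, ← FP.E_add]
    refine P.E_mono fun w hw => ?_
    have hp := hψ s w hw
    have n1 := ind_nonneg (En Ca T s w ∧ (R s w ∧ (Sc Ca DA s w ∧ ¬ AA s w)))
    have n2 := ind_nonneg (En Cb T s w ∧ (RV s w ∧ (Sc Cb DB s w ∧ ¬ AB s w)))
    have n3 := ind_nonneg (Rm s w ∧ (R s w ∧ (AA s w ∧ (¬ X s w ∨ ¬ Y s w))))
    have n4 := ind_nonneg (Rm s w ∧ (RV s w ∧ (AB s w ∧ ¬ Y s w)))
    have m0 := mul_nonneg hL (add_nonneg (add_nonneg (add_nonneg n1 n2) n3) n4)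
    -- nothing on the left, the two sums on the right
    by_cases hr : Rm s w
    · by_cases sa : R s w ∧ Sc Ca DA s w
      · have sb : ¬ Sc Cb DB s w := excl miB sa.2
        have nb : ¬ AB s w := fun h => sb (alv_Sc h)
        rw [ind_of (show Rm s w ∧ (R s w ∧ Sc Ca DA s w) from ⟨hr, sa⟩),
          ind_not (fun h => sb h.2.2 : ¬ (Rm s w ∧ (RV s w ∧ Sc Cb DB s w)))]
        by_cases aa : AA s w
        · by_cases hx : X s w ∧ Y s w
          · rw [ind_of (show (Rm s w ∧ bt P V Ca Cb R RV qa qb iS ux s w) ∧ ((R s w ∧ X s w) ∧ Y s w) from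
              ⟨⟨hr, Or.inl aa⟩, ⟨sa.1, hx.1⟩, hx.2⟩)]
            linarith
          · have hx2 : ¬ X s w ∨ ¬ Y s w := by tauto
            rw [ind_not (fun h => hx ⟨h.2.1.2, h.2.2⟩ :
              ¬ ((Rm s w ∧ bt P V Ca Cb R RV qa qb iS ux s w) ∧ ((R s w ∧ X s w) ∧ Y s w))),
              ind_of (show Rm s w ∧ (R s w ∧ (AA s w ∧ (¬ X s w ∨ ¬ Y s w))) from ⟨hr, sa.1, aa, hx2⟩)]
            have := mul_nonneg hL (add_nonneg (add_nonneg n1 n2) n4)
            linarith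
        · rw [ind_not (fun h => h.1.2.elim aa nb :
            ¬ ((Rm s w ∧ bt P V Ca Cb R RV qa qb iS ux s w) ∧ ((R s w ∧ X s w) ∧ Y s w))),
            ind_of (show En Ca T s w ∧ (R s w ∧ (Sc Ca DA s w ∧ ¬ AA s w)) from ⟨hea s hsT' w hw hr, sa.1, sa.2, aa⟩)]
          have := mul_nonneg hL (add_nonneg (add_nonneg n2 n3) n4)
          linarith
      · rw [ind_not (fun h => sa h.2 : ¬ (Rm s w ∧ (R s w ∧ Sc Ca DA s w)))]
        by_cases sb : RV s w ∧ Sc Cb DB s w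
        · have hRX := (hX s w).1 sb.1
          have na : ¬ AA s w := fun h => sa ⟨hRX.1, alv_Sc h⟩
          rw [ind_of (show Rm s w ∧ (RV s w ∧ Sc Cb DB s w) from ⟨hr, sb⟩)]
          by_cases ab : AB s w
          · by_cases hy : Y s w
            · rw [ind_of (show (Rm s w ∧ bt P V Ca Cb R RV qa qb iS ux s w) ∧ ((R s w ∧ X s w) ∧ Y s w) from
                ⟨⟨hr, Or.inr ab⟩, hRX, hy⟩)]
              linarith
            · rw [ind_not (fun h => hy h.2.2 :
                ¬ ((Rm s w ∧ bt P V Ca Cb R RV qa qb iS ux s w) ∧ ((R s w ∧ X s w) ∧ Y s w))),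
                ind_of (show Rm s w ∧ (RV s w ∧ (AB s w ∧ ¬ Y s w)) from ⟨hr, sb.1, ab, hy⟩)]
              have := mul_nonneg hL (add_nonneg (add_nonneg n1 n2) n3)
              linarith
          · rw [ind_not (fun h => h.1.2.elim na ab :
              ¬ ((Rm s w ∧ bt P V Ca Cb R RV qa qb iS ux s w) ∧ ((R s w ∧ X s w) ∧ Y s w))),
              ind_of (show En Cb T s w ∧ (RV s w ∧ (Sc Cb DB s w ∧ ¬ AB s w)) from ⟨heb s hsT' w hw hr, sb.1, sb.2, ab⟩)]
            have := mul_nonneg hL (add_nonneg (add_nonneg n1 n3) n4)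
            linarith
        · rw [ind_not (fun h => sb h.2 : ¬ (Rm s w ∧ (RV s w ∧ Sc Cb DB s w)))]
          have hn : ¬ ((Rm s w ∧ bt P V Ca Cb R RV qa qb iS ux s w) ∧ ((R s w ∧ X s w) ∧ Y s w)) := by
            rintro ⟨⟨_, h1⟩, ⟨h2, h3⟩, _⟩
            rcases h1 with h1 | h1
            · exact sa ⟨h2, alv_Sc h1⟩
            · exact sb ⟨(hX s w).2 ⟨h2, h3⟩, alv_Sc h1⟩
          rw [ind_not hn]
          linarith
    · rw [ind_not (fun h => hr h.1.1 : ¬ ((Rm s w ∧ bt P V Ca Cb R RV qa qb iS ux s w) ∧ ((R s w ∧ X s w) ∧ Y s w))),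
        ind_not (fun h => hr h.1 : ¬ (Rm s w ∧ (R s w ∧ Sc Ca DA s w))),
        ind_not (fun h => hr h.1 : ¬ (Rm s w ∧ (RV s w ∧ Sc Cb DB s w)))]
      linarith
  refine (sum_le_sum one).trans ?_
  rw [sum_add_distrib, sum_add_distrib, ← mul_sum, sum_add_distrib, sum_add_distrib, sum_add_distrib]
  have h5 := mul_le_mul_of_nonneg_left (add_le_add d1 d2) hL
  rw [mul_add L (_ + _ + _), mul_add L (_ + _), mul_add L (ux * _), mul_add L (∑ s ∈ range T, P.Pr _)]
  rw [mul_add ux]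
  rw [mul_add L (ux * _)] at h5 ⊢
  linarith

/-- **ALIVE AND ANOTHER VERTEX IN `V`** at the public removals: `Ev i` = the density at the exact vertex is `≥ ux`, `Ev j` =
the status of the other vertex -/
theorem pair_sum (hN : ∀ k, Fac (N (k + 1)) (N k)) (hs : ∀ k, Fac (N k) (stg C k))
    (hRm : ∀ s a b, N (s + 1) a = N (s + 1) b → (Rm s a ↔ Rm s b)) (hRE : ∀ s < T, ∀ w, P.p w ≠ 0 → Rm s w → En C T s w)
    (hy : 0 ≤ yp) (h0 : 0 ≤ h) (i j : ι) (hE : ∀ s w, ux ≤ dn P V R s w → Ev i s w)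
    (hJ : ∀ w s s', stg C s w = stg C s' w → (Ev j s w ↔ Ev j s' w))
    (hp' : ∀ s w, P.p w ≠ 0 → P.ce (N (s + 1)) (fun u => ind (Ev i s u ∧ Ev j s u)) w ≤
      P.ce (N (s + 1)) (fun u => ind (Ev i s u)) w * P.ce (N (s + 1)) (fun u => ind (Ev j s u)) w)
    (hm : ∀ s < T, ∀ w, P.p w ≠ 0 → P.m (N s) w ≤ h * P.m (N (s + 1)) w) :
    ∑ s ∈ range T, P.Pr (fun w => Rm s w ∧ (alv P V Ca (dA Ca qa (inS P N C Ev yp)) R ux s w ∧ Ev j s w)) ≤
      (h * yp) ^ 2 * ∑ s ∈ range T, P.Pr (Rm s) + ((h * yp) ^ 2 * ∑ s ∈ range T, P.Pr (srt P N C Ev yp s) +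
        ∑ s ∈ range T, P.Pr (fun w => stg C s w = s ∧ trg P N Ev yp s w)) := by
  set AA := alv P V Ca (dA Ca qa (inS P N C Ev yp)) R ux with hAA
  have b1 := before_sum' (P := P) (N := N) (C := C) (Ev := Ev) (yp := yp) (T := T) (Rm := Rm) hN hs hRm hy h0 i j hp' hm
  have b2 := after_sum (P := P) (N := N) (C := C) (Ev := Ev) (yp := yp) (h := h) (T := T)
    (Q := fun s w => AA s w ∧ Ev j s w) hN hs hy h0 i j hp' hm (by
      intro r s w h1 h2 h3 hQ
      obtain ⟨⟨j0, a, b, c, d⟩, e⟩ := hQ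
      have h4 : j0 ≤ r - 1 := by
        by_contra h5
        refine c.1.2 ⟨r, ?_, by omega, h3.1⟩
        rw [in_ep (show stg C s w ≤ j0 by omega) b]
        omega
      refine ⟨hE _ w (d (r - 1) h4 (by omega)), (hJ w s (r - 1) ?_).1 e⟩
      exact (in_ep (show stg C s w ≤ r - 1 by omega) (by omega)).symm)
  have h1 : ∑ s ∈ range T, P.Pr (fun w => Rm s w ∧ (AA s w ∧ Ev j s w)) ≤
      ∑ s ∈ range T, P.Pr (fun w => (Rm s w ∧ ¬ inS P N C Ev yp s w) ∧ (Ev i s w ∧ Ev j s w)) +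
        ∑ s ∈ range T, P.Pr (fun w => En C T s w ∧ (inS P N C Ev yp s w ∧ (AA s w ∧ Ev j s w))) := by
    rw [← sum_add_distrib]
    refine sum_le_sum fun s hsT => le_trans (P.Pr_mono fun w hw hh => ?_) (P.Pr_or_le _ _)
    by_cases h2 : inS P N C Ev yp s w
    · exact Or.inr ⟨hRE s (mem_range.1 hsT) w hw hh.1, h2, hh.2⟩
    · exact Or.inl ⟨⟨hh.1, h2⟩, hE s w (alv_dn hh.2.1), hh.2.2⟩
  linarith

/-- **A ZONE BEFORE A STRETCH** : `f` = start of a zone outside the stretches -/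
theorem zone_sum (hN : ∀ k, Fac (N (k + 1)) (N k)) (hs : ∀ k, Fac (N k) (stg C k)) {f : ℕ → Om → Prop}
    (hf : ∀ s a b, N s a = N s b → (f s a ↔ f s b)) (hy : 0 ≤ yp) (j : ι)
    (hJ : ∀ w s s', stg C s w = stg C s' w → (Ev j s w ↔ Ev j s' w)) :
    ∑ s ∈ range T, P.Pr (fun w => En C T s w ∧ (Ev j s w ∧ Sc C (fun s w => f s w ∧ ¬ inS P N C Ev yp s w) s w)) ≤
      yp * ∑ s ∈ range T, P.Pr (f s) := by
  have h1 := once_sum (P := P) (C := C) (T := T) (fun s w => (f s w ∧ ¬ inS P N C Ev yp s w) ∧ Ev j s w)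
  have h2 := single_sum (P := P) (N := N) (C := C) (Ev := Ev) (yp := yp) (T := T) (Rm := f) hN hs hf hy j
  refine le_trans (sum_le_sum fun s _ => P.Pr_mono fun w _ hh => ⟨hh.1, ?_⟩) (h1.trans h2)
  obtain ⟨r, a, b, c⟩ := hh.2.2
  exact ⟨r, a, b, c, (hJ w s r (in_ep a b).symm).1 hh.2.1⟩

end dec

end vertex

end

end Pool.Agent.GMH.Str
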