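import Pool.Agent.GMH.MV5
import Pool.Agent.GMH.MVS
import Pool.Agent.GMH.UVdef
import Pool.Agent.GMH.Blk

/-!
# GMH/MV5U (helper32, v5): STRETCHES AND SELECTION OVER THE RUN (H3.MOV, M.10 (a)-(c); row B5 of H3.LEAN)

THE STRETCHES START BY THE STATUS ONLY.  `M : US Om`, `kv v τ` = relation of the tables of `τ` at the exact vertex `v`, `al s` =
alive at `s` (decreasing), clocks `C0 M` (public) and `CS M v` (lives of `v`, the status of `v` is constant in a life), `CB v` the
joint clock.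
* `iS yp s` : in a stretch (public epoch, from the first time when the status of some vertex has density at least `yp` in the
  node); `st yp s` : start of a stretch; `tg yp s` : trigger; `CA yp v` : lives which also end at the public ends of the stretches;
* `Rr v s` = `kv v (tauS v s)` and alive at the start of the joint epoch, `Rc v s` = `kv v (tauS v s)` and alive at `s`; `RV v s` =
  `Rr` and no other vertex in `V`;
* `RvOK` : public removals `ru`, private removals `rp v`, halving `h`; `stN` : number of the stretches; `B0 u`, `B1 v`, `B2 v` : the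
  rare sums (status / current relation too dense at ends which are not removals, too many dense vertices at the end of a
  stretch); `dead_once`, `dead_dens` : the tuples which die inside a life;
* `pend_le`, `jend_le`, `aend_le` : the ends; **`str_count`** : the number of the stretches; **`pair_V`** : decided outside the
  stretches and another vertex in `V` at the public removals; `zone_V` : zones before a stretch.
-/

set_option autoImplicit false
set_option linter.unusedSectionVars false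
set_option linter.unusedVariables false

namespace Pool.Agent.GMH.SU

open Finset Pool.Agent.PWZ Pool.Agent.M3 Pool.Agent.GMH.TD Pool.Agent.GMH.CK Pool.Agent.GMH.MV Pool.Agent.GMH.UV
open Pool.Agent.GMH.Str

noncomputable section

/-- the parameters -/
structure Pm (Om : Type) where
  kv : Fin 3 → ℕ → Om → Prop
  al : ℕ → Om → Prop
  hal : ∀ s w, al (s + 1) w → al s w

variable {Om : Type} [Fintype Om] (M : US Om) (G : Pm Om) (yp : ℝ)

/-- joint clock -/
def CB (v : Fin 3) : ℕ → ℕ → Om → Prop := jn (CS M.toMS v) (C0 M.toMS)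

/-- relation at the exact vertex, alive at the start of the joint epoch -/
def Rr (v : Fin 3) (s : ℕ) (w : Om) : Prop := G.kv v (tauS M.toMS v s w) w ∧ G.al (stg (CB M v) s w) w

/-- relation at the exact vertex, alive now -/
def Rc (v : Fin 3) (s : ℕ) (w : Om) : Prop := G.kv v (tauS M.toMS v s w) w ∧ G.al s w

/-- no vertex different from `v` in `V` -/
def nV (v : Fin 3) (s : ℕ) (w : Om) : Prop := ∀ u, u ≠ v → ¬ sts M.toMS u s w

/-- current relation without the vertices in `V` -/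
def RV (v : Fin 3) (s : ℕ) (w : Om) : Prop := Rr M G v s w ∧ nV M v s w

/-- in a stretch -/
def iS (s : ℕ) (w : Om) : Prop := inS M.P (M.S ∅) (C0 M.toMS) (fun u => sts M.toMS u) yp s w

/-- start of a stretch -/
def st (s : ℕ) (w : Om) : Prop := srt M.P (M.S ∅) (C0 M.toMS) (fun u => sts M.toMS u) yp s w

/-- trigger -/
def tg (s : ℕ) (w : Om) : Prop := trg M.P (M.S ∅) (fun u => sts M.toMS u) yp s w

/-- clock of the theory A -/
def CA (v : Fin 3) : ℕ → ℕ → Om → Prop := CL M.P (M.S ∅) (C0 M.toMS) (CS M.toMS v) (fun u => sts M.toMS u) yp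

/-! ## what sees what -/

variable {M G yp}

theorem al_le {s s' : ℕ} (h : s ≤ s') {w : Om} (ha : G.al s' w) : G.al s w := by
  induction s', h using Nat.le_induction with
  | base => exact ha
  | succ k _ ih => exact ih (G.hal k w ha)

theorem Rc_Rr (v : Fin 3) {s : ℕ} {w : Om} (h : Rc M G v s w) : Rr M G v s w := ⟨h.1, al_le (stg_le _ _) h.2⟩

theorem sts_S (H : Seen M) (v : Fin 3) (s : ℕ) {a b : Om} (e : M.S {v} s a = M.S {v} s b) :
    sts M.toMS v s a ↔ sts M.toMS v s b := by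
  rw [sts_fac v s a b (S_CN M v s a b e)]

theorem tauS_S (v : Fin 3) (s : ℕ) : Fac (M.S {v} s) (stg (CS M.toMS v) s) := fun a b e =>
  tauS_fac v s a b (S_CN M v s a b e)

theorem nu_S0 (H : Seen M) (s : ℕ) : Fac (M.S ∅ s) (stg (C0 M.toMS) s) := fun a b e => nu_S H le_rfl a b e

theorem kv_life (v : Fin 3) (w : Om) (s s' : ℕ) (e : stg (CS M.toMS v) s w = stg (CS M.toMS v) s' w) :
    G.kv v (tauS M.toMS v s w) w ↔ G.kv v (tauS M.toMS v s' w) w := by
  unfold tauS
  rw [e]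

/-- the relation is static in the joint epochs -/
theorem Rr_joint (v : Fin 3) (w : Om) (s s' : ℕ) (e : stg (CB M v) s w = stg (CB M v) s' w) :
    Rr M G v s w ↔ Rr M G v s' w := by
  unfold Rr
  rw [kv_life v w s s' (jn_left e), e]

theorem sts_ep (u : Fin 3) (w : Om) (s s' : ℕ) (e : stg (C0 M.toMS) s w = stg (C0 M.toMS) s' w) :
    sts M.toMS u s w ↔ sts M.toMS u s' w := by
  unfold sts nu
  rw [e]

theorem RV_joint (v : Fin 3) (w : Om) (s s' : ℕ) (e : stg (CB M v) s w = stg (CB M v) s' w) :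
    RV M G v s w ↔ RV M G v s' w := by
  unfold RV nV
  rw [Rr_joint v w s s' e]
  exact and_congr_right fun _ => forall_congr' fun u => forall_congr' fun _ => not_congr (sts_ep u w s s' (jn_right e))

theorem iS_S (H : Seen M) (s : ℕ) {a b : Om} (e : M.S ∅ s a = M.S ∅ s b) : iS M yp s a ↔ iS M yp s b :=
  inS_fac (M.fS ∅) (nu_S0 H) s e

theorem iS_Sv (H : Seen M) (v : Fin 3) (s : ℕ) {a b : Om} (e : M.S {v} s a = M.S {v} s b) : iS M yp s a ↔ iS M yp s b :=
  iS_S H s (S_sub v le_rfl a b e)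

theorem CA_S (H : Seen M) (v : Fin 3) (k : ℕ) : Fac (M.S {v} k) (stg (CA M yp v) k) :=
  CL_fac (M.fS ∅) (M.fS {v}) (fun k => S_sub v le_rfl) (nu_S0 H) (tauS_S v) k

theorem CB_S (H : Seen M) (v : Fin 3) (k : ℕ) : Fac (M.S {v} k) (stg (CB M v) k) :=
  jn_fac (tauS_S v) (fun k => (S_sub v le_rfl).trans (nu_S0 H k)) k

theorem CA_mono (v : Fin 3) (j s : ℕ) (w : Om) (h1 : stg (CA M yp v) s w ≤ j) (h2 : j ≤ s) (hi : iS M yp j w) :
    iS M yp s w := CL_mono h1 h2 hi

theorem CB_mono (v : Fin 3) (j s : ℕ) (w : Om) (h1 : stg (CB M v) s w ≤ j) (h2 : j ≤ s) (hi : iS M yp j w) :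
    iS M yp s w := jn_mono h1 h2 hi

theorem CS_CA (v : Fin 3) (s : ℕ) (w : Om) : stg (CS M.toMS v) s w ≤ stg (CA M yp v) s w := CL_le s w

/-- the lives of A are unions of joint epochs -/
theorem CA_CB (v : Fin 3) (s : ℕ) (w : Om) : stg (CA M yp v) s w ≤ stg (CB M v) s w := by
  induction s with
  | zero => rw [stg_zero, stg_zero]
  | succ s ih =>
    have e1 := jn_eq (C := CS M.toMS v) (C' := C0 M.toMS) (s + 1) w
    have e2 := jn_eq (C := CS M.toMS v) (C' := C0 M.toMS) s w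
    rcases stg_or (C := CA M yp v) s w with h | h
    · -- an end of the life is an end of the joint clock
      rcases stg_end (C := CA M yp v) h with h1 | h1
      · rw [h]
        show s + 1 ≤ stg (jn (CS M.toMS v) (C0 M.toMS)) (s + 1) w
        rw [e1, h1]
        exact le_max_left _ _
      · rw [h]
        show s + 1 ≤ stg (jn (CS M.toMS v) (C0 M.toMS)) (s + 1) w
        rw [e1, h1.1]
        exact le_max_right _ _
    · rw [h]
      exact ih.trans (stg_mono (Nat.le_succ s) w)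

/-! ## the removals -/

variable {ru : ℕ → Om → Prop} {rp : Fin 3 → ℕ → Om → Prop} {T : ℕ} {h y0 y1 : ℝ}

/-- the removals of the run: public `ru`, private `rp v` -/
structure RvOK (M : US Om) (ru : ℕ → Om → Prop) (rp : Fin 3 → ℕ → Om → Prop) (T : ℕ) (h : ℝ) : Prop where
  ruS : ∀ s a b, M.S ∅ (s + 1) a = M.S ∅ (s + 1) b → (ru s a ↔ ru s b)
  rpS : ∀ v s a b, M.S {v} (s + 1) a = M.S {v} (s + 1) b → (rp v s a ↔ rp v s b)
  ru0 : ∀ s < T, ∀ w, M.P.p w ≠ 0 → ru s w → nu M.toMS (s + 1) w = s + 1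
  ruv : ∀ v, ∀ s < T, ∀ w, M.P.p w ≠ 0 → ru s w → tau M.toMS v (s + 1) w = s + 1
  rpv : ∀ v, ∀ s < T, ∀ w, M.P.p w ≠ 0 → rp v s w → tau M.toMS v (s + 1) w = s + 1
  ci : ∀ v v', v ≠ v' → Blk.CI M.P (M.S ∅) (M.S {v}) (M.S {v'})
  hm : ∀ s < T, ∀ w, M.P.p w ≠ 0 → M.P.m (M.S ∅ s) w ≤ h * M.P.m (M.S ∅ (s + 1)) w

/-- removal seen by the vertex `v` -/
def rv (ru : ℕ → Om → Prop) (rp : Fin 3 → ℕ → Om → Prop) (v : Fin 3) (s : ℕ) (w : Om) : Prop := rp v s w ∨ ru s w

theorem rv_S (B : RvOK M ru rp T h) (v : Fin 3) (s : ℕ) (a b : Om) (e : M.S {v} (s + 1) a = M.S {v} (s + 1) b) :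
    rv ru rp v s a ↔ rv ru rp v s b := by
  unfold rv
  rw [B.rpS v s a b e, B.ruS s a b (S_sub v le_rfl a b e)]

/-- an exact restart is an end of the life -/
theorem CS_end {v : Fin 3} {s : ℕ} {w : Om} (e : tau M.toMS v (s + 1) w = s + 1) : stg (CS M.toMS v) (s + 1) w = s + 1 :=
  stg_pos (Or.inl e)

theorem ruE (B : RvOK M ru rp T h) {s : ℕ} (hs : s < T) {w : Om} (hw : M.P.p w ≠ 0) (e : ru s w) :
    En (C0 M.toMS) T s w := Or.inl (B.ru0 s hs w hw e)

theorem rvE (B : RvOK M ru rp T h) {v : Fin 3} {s : ℕ} (hs : s < T) {w : Om} (hw : M.P.p w ≠ 0)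
    (e : rv ru rp v s w) : En (CS M.toMS v) T s w := by
  refine Or.inl (CS_end ?_)
  rcases e with e | e
  · exact B.rpv v s hs w hw e
  · exact B.ruv v s hs w hw e

theorem rvE_A (B : RvOK M ru rp T h) {v : Fin 3} {s : ℕ} (hs : s < T) {w : Om} (hw : M.P.p w ≠ 0)
    (e : rv ru rp v s w) : En (CA M yp v) T s w := En_CL (rvE B hs hw e)

theorem rvE_B (B : RvOK M ru rp T h) {v : Fin 3} {s : ℕ} (hs : s < T) {w : Om} (hw : M.P.p w ≠ 0)
    (e : rv ru rp v s w) : En (CB M v) T s w := En_left (rvE B hs hw e)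

/-! ### the rare sums -/

variable (M yp) in
/-- number of the stretches -/
def stN (T : ℕ) : ℝ := ∑ s ∈ range T, M.P.Pr (st M yp s)

variable (M) in
/-- density of the status of `u` after the step -/
def dU (u : Fin 3) (s : ℕ) (w : Om) : ℝ := M.P.ce (M.S ∅ (s + 1)) (fun x => ind (sts M.toMS u s x)) w

variable (M G) in
/-- density of the current relation at the exact vertex after the step -/
def dR (v : Fin 3) (s : ℕ) (w : Om) : ℝ := M.P.ce (M.S {v} (s + 1)) (fun x => ind (Rc M G v s x)) w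

variable (M yp) in
/-- public ends of stretches, which are not removals -/
def pe (ru : ℕ → Om → Prop) (T s : ℕ) (w : Om) : Prop := En (C0 M.toMS) T s w ∧ (¬ ru s w ∧ iS M yp s w)

variable (M yp) in
/-- status of `u` too dense at the end of a stretch -/
def B0 (ru : ℕ → Om → Prop) (T : ℕ) (y0 : ℝ) (u : Fin 3) : ℝ :=
  ∑ s ∈ range T, M.P.Pr (fun w => pe M yp ru T s w ∧ y0 < dU M u s w)

variable (M yp) in
/-- public ends of stretches, which are not removals, before the final time -/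
def pg (ru : ℕ → Om → Prop) (s : ℕ) (w : Om) : Prop := stg (C0 M.toMS) (s + 1) w = s + 1 ∧ (¬ ru s w ∧ iS M yp s w)

variable (M G) in
/-- relation of `v` too dense at the end of a life, which is not a removal -/
def B1 (ru : ℕ → Om → Prop) (rp : Fin 3 → ℕ → Om → Prop) (T : ℕ) (y1 : ℝ) (v : Fin 3) : ℝ :=
  ∑ s ∈ range T, M.P.Pr (fun w => (stg (CS M.toMS v) (s + 1) w = s + 1 ∧ ¬ rv ru rp v s w) ∧ y1 < dR M G v s w)

variable (M G yp) in
/-- too many dense vertices at the end of a stretch -/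
def B2 (ru : ℕ → Om → Prop) (T : ℕ) (y0 y1 : ℝ) (v : Fin 3) : ℝ :=
  ∑ s ∈ range T, M.P.Pr (fun w => pg M yp ru s w ∧
    y0 < M.P.ce (M.S ∅ (s + 1)) (fun x => ind (y1 < dR M G v s x)) w)

theorem stN_nonneg : 0 ≤ stN M yp T := sum_nonneg fun _ _ => M.P.Pr_nonneg _

/-- a threshold event as exceptional event -/
theorem thr {κ : Type*} {X : Om → κ} {A : Om → Prop} {y : ℝ} {D : Om → Prop} {w : Om} (hw : M.P.p w ≠ 0)
    (hy : 0 ≤ y) (hD : D w) :
    M.P.ce X (fun u => ind (A u)) w ≤ y + ind (D w ∧ y < M.P.ce X (fun u => ind (A u)) w) := by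
  by_cases h5 : y < M.P.ce X (fun u => ind (A u)) w
  · rw [ind_of (⟨hD, h5⟩ : D w ∧ y < M.P.ce X (fun u => ind (A u)) w)]
    have h6 : M.P.ce X (fun u => ind (A u)) w ≤ 1 := M.P.ce_le_const (fun _ _ => ind_le_one _) hw
    linarith
  · rw [ind_not (fun hh => h5 hh.2), add_zero]
    exact not_lt.1 h5

/-- **PUBLIC ENDS OF STRETCHES** : vertices with a dense relation -/
theorem pend_le (H : Seen M) (B : RvOK M ru rp T h) (v : Fin 3) (hy0 : 0 ≤ y0) :
    ∑ s ∈ range T, M.P.Pr (fun w => pg M yp ru s w ∧ y1 < dR M G v s w) ≤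
      y0 * stN M yp T + B2 M G yp ru T y0 y1 v := by
  have h1 := send_sum (P := M.P) (N := M.S ∅) (C := C0 M.toMS) (Ev := fun u => sts M.toMS u) (yp := yp) (T := T) (Rm := ru)
    (fun k => M.fS ∅ k) (nu_S0 H) B.ruS hy0 (A := fun s w => stg (C0 M.toMS) (s + 1) w = s + 1 ∧ y1 < dR M G v s w)
    (Bd := fun s w => pg M yp ru s w ∧ y0 < M.P.ce (M.S ∅ (s + 1)) (fun x => ind (y1 < dR M G v s x)) w)
    fun s _ w hw a b c => by
      by_cases he : stg (C0 M.toMS) (s + 1) w = s + 1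
      · refine le_trans (M.P.ce_mono (fun x _ => ind_mono fun h => h.2) w)
          (thr hw hy0 (show pg M yp ru s w from ⟨he, b, c⟩))
      · have e1 : M.P.ce (M.S ∅ (s + 1)) (fun x => ind (stg (C0 M.toMS) (s + 1) x = s + 1 ∧ y1 < dR M G v s x)) w = 0 := by
          rw [← M.P.ce_const (M.S ∅ (s + 1)) 0 hw]
          refine Gdy.ce_congr_on fun x _ e => ind_not fun h => he ?_
          rw [← nu_S0 H (s + 1) x w e]
          exact h.1
        rw [e1]
        exact add_nonneg hy0 (ind_nonneg _)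
  refine le_trans (sum_le_sum fun s _ => M.P.Pr_mono fun w _ hh => ?_) h1
  exact ⟨⟨Or.inl hh.1.1, hh.1.2⟩, hh.1.1, hh.2⟩

/-- ends of the joint clock with a stretch, which are not removals, dense relation -/
theorem jend_le (H : Seen M) (B : RvOK M ru rp T h) (v : Fin 3) (hy0 : 0 ≤ y0) :
    ∑ s ∈ range T, M.P.Pr (fun w => (stg (CB M v) (s + 1) w = s + 1 ∧ (¬ rv ru rp v s w ∧ iS M yp s w)) ∧
      y1 < dR M G v s w) ≤ B1 M G ru rp T y1 v + (y0 * stN M yp T + B2 M G yp ru T y0 y1 v) := by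
  refine le_trans ?_ (add_le_add le_rfl (pend_le (y1 := y1) H B v hy0))
  unfold B1
  rw [← sum_add_distrib]
  refine sum_le_sum fun s _ => le_trans (M.P.Pr_mono fun w _ hh => ?_) (M.P.Pr_or_le _ _)
  obtain ⟨⟨a, b, c⟩, d⟩ := hh
  rcases stg_end (C := CB M v) a with a1 | a1
  · exact Or.inl ⟨⟨a1, b⟩, d⟩
  · exact Or.inr ⟨⟨a1, fun h => b (Or.inr h), c⟩, d⟩

/-- ends of the lives of `A` which are not removals, dense relation -/
theorem aend_le (H : Seen M) (B : RvOK M ru rp T h) (v : Fin 3) (hy0 : 0 ≤ y0) :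
    ∑ s ∈ range T, M.P.Pr (fun w => (stg (CA M yp v) (s + 1) w = s + 1 ∧ ¬ rv ru rp v s w) ∧ y1 < dR M G v s w) ≤
      B1 M G ru rp T y1 v + (y0 * stN M yp T + B2 M G yp ru T y0 y1 v) := by
  refine le_trans ?_ (add_le_add le_rfl (pend_le (y1 := y1) H B v hy0))
  unfold B1
  rw [← sum_add_distrib]
  refine sum_le_sum fun s _ => le_trans (M.P.Pr_mono fun w _ hh => ?_) (M.P.Pr_or_le _ _)
  obtain ⟨⟨a, b⟩, d⟩ := hh
  rcases stg_end (C := CA M yp v) a with a1 | a1
  · exact Or.inl ⟨⟨a1, b⟩, d⟩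
  · exact Or.inr ⟨⟨a1.1, fun h => b (Or.inr h), a1.2⟩, d⟩

/-! ### the tuples which die inside a life -/

/-- **AT MOST ONE DEATH PER POINT** -/
theorem dead_once {P : FP Om} {C : ℕ → ℕ → Om → Prop} {al : ℕ → Om → Prop} (hal : ∀ s w, al (s + 1) w → al s w) :
    ∑ s ∈ range T, P.Pr (fun w => En C T s w ∧ (al (stg C s w) w ∧ ¬ al s w)) ≤ P.Pr (fun w => ¬ al T w) := by
  classical
  have hm : ∀ {s s' : ℕ} {w : Om}, s ≤ s' → al s' w → al s w := by
    intro s s' w h ha
    induction s', h using Nat.le_induction with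
    | base => exact ha
    | succ k _ ih => exact ih (hal k w ha)
  unfold FP.Pr
  rw [← P.E_sum]
  refine P.E_mono fun w _ => ?_
  by_cases hT : al T w
  · refine le_trans (le_of_eq (sum_eq_zero fun s hs => ?_)) (ind_nonneg _)
    exact ind_not fun hh => hh.2.2 (hm (mem_range.1 hs).le hT)
  · rw [ind_of hT]
    have key : ∀ s < T, ∀ s' < T, s < s' → (En C T s w ∧ (al (stg C s w) w ∧ ¬ al s w)) →
        (En C T s' w ∧ (al (stg C s' w) w ∧ ¬ al s' w)) → False := by
      intro s _ s' hs' hlt h h'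
      rcases h.1 with h1 | h1
      · have h3 := stg_mono (C := C) (show s + 1 ≤ s' from hlt) w
        rw [h1] at h3
        exact h.2.2 (hm ((Nat.le_succ s).trans h3) h'.2.1)
      · omega
    by_cases hex : ∃ s ∈ range T, (En C T s w ∧ (al (stg C s w) w ∧ ¬ al s w))
    · obtain ⟨s, hs, h4⟩ := hex
      rw [← add_sum_erase _ _ hs, sum_eq_zero, add_zero]
      · exact ind_le_one _
      · intro s' hs'
        refine ind_not fun h5 => ?_
        have h6 := mem_erase.1 hs'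
        rcases lt_or_gt_of_ne h6.1 with h7 | h7
        · exact key s' (mem_range.1 h6.2) s (mem_range.1 hs) h7 h5 h4
        · exact key s (mem_range.1 hs) s' (mem_range.1 h6.2) h7 h4 h5
    · rw [sum_eq_zero]
      · exact zero_le_one
      · intro s hs
        exact ind_not fun h => hex ⟨s, hs, h⟩

/-- the lives in which the dead have large density -/
theorem dead_dens {P : FP Om} {κ : Type*} {V : ℕ → Om → κ} (hV : ∀ k, Fac (V (k + 1)) (V k)) {C : ℕ → ℕ → Om → Prop}
    (hC : ∀ k, Fac (V k) (stg C k)) {al : ℕ → Om → Prop} (hal : ∀ s w, al (s + 1) w → al s w) (hy1 : 0 < y1) :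
    ∑ s ∈ range T, P.Pr (fun w => En C T s w ∧ y1 < P.ce (V (s + 1)) (fun x => ind (al (stg C s x) x ∧ ¬ al s x)) w) ≤
      P.Pr (fun w => ¬ al T w) / y1 := by
  rw [le_div_iff₀ hy1, mul_comm]
  refine le_trans ?_ (dead_once (P := P) (C := C) (al := al) (T := T) hal)
  rw [mul_sum]
  refine sum_le_sum fun s _ => ?_
  have e : P.Pr (fun w => En C T s w ∧ (al (stg C s w) w ∧ ¬ al s w)) =
      P.E (fun w => ind (En C T s w) * P.ce (V (s + 1)) (fun x => ind (al (stg C s x) x ∧ ¬ al s x)) w) := by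
    rw [P.E_mul_ce (Fac.ind fun x w e => En_fac hC T s e)]
    exact P.E_congr fun w _ => ind_and _ _
  rw [e]
  unfold FP.Pr
  rw [← FP.E_smul]
  refine P.E_mono fun w _ => ?_
  have c0 : 0 ≤ P.ce (V (s + 1)) (fun x => ind (al (stg C s x) x ∧ ¬ al s x)) w := P.ce_nonneg (fun _ _ => ind_nonneg _) w
  by_cases h : En C T s w ∧ y1 < P.ce (V (s + 1)) (fun x => ind (al (stg C s x) x ∧ ¬ al s x)) w
  · rw [ind_of h, ind_of h.1, mul_one, one_mul]
    exact h.2.le
  · rw [ind_not h, mul_zero]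
    exact mul_nonneg (ind_nonneg _) c0

/-- dense with the tuples which were alive at the start: dense with the alive ones, or many dead ones -/
theorem dens_split (v : Fin 3) {C : ℕ → ℕ → Om → Prop} {s : ℕ} {w : Om} {R : Om → Prop}
    (hR : ∀ x, R x → G.kv v (tauS M.toMS v s x) x ∧ G.al (stg C s x) x)
    (h : 2 * y1 < M.P.ce (M.S {v} (s + 1)) (fun x => ind (R x)) w) :
    y1 < dR M G v s w ∨ y1 < M.P.ce (M.S {v} (s + 1)) (fun x => ind (G.al (stg C s x) x ∧ ¬ G.al s x)) w := by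
  by_contra hh
  have h1 := not_or.1 hh
  have h2 : M.P.ce (M.S {v} (s + 1)) (fun x => ind (R x)) w ≤ dR M G v s w +
      M.P.ce (M.S {v} (s + 1)) (fun x => ind (G.al (stg C s x) x ∧ ¬ G.al s x)) w := by
    unfold dR
    rw [← M.P.ce_add]
    refine M.P.ce_mono (fun x _ => ?_) w
    by_cases h3 : R x
    · obtain ⟨a, b⟩ := hR x h3
      by_cases h4 : G.al s x
      · rw [ind_of h3, ind_of (show Rc M G v s x from ⟨a, h4⟩)]
        linarith [ind_nonneg (G.al (stg C s x) x ∧ ¬ G.al s x)]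
      · rw [ind_of h3, ind_of (show G.al (stg C s x) x ∧ ¬ G.al s x from ⟨b, h4⟩)]
        linarith [ind_nonneg (Rc M G v s x)]
    · rw [ind_not h3]
      linarith [ind_nonneg (Rc M G v s x), ind_nonneg (G.al (stg C s x) x ∧ ¬ G.al s x)]
  have h3 := not_lt.1 h1.1
  have h4 := not_lt.1 h1.2
  linarith

/-- **THE NUMBER OF THE STRETCHES** -/
theorem str_count (H : Seen M) (B : RvOK M ru rp T h) (hy0 : 0 ≤ y0) :
    (yp - y0) * stN M yp T ≤ ∑ u : Fin 3, (∑ s ∈ range T, M.P.Pr (fun w => ru s w ∧ sts M.toMS u s w) +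
      B0 M yp ru T y0 u) := by
  by_cases hyp : yp ≤ y0
  · have h1 : 0 ≤ stN M yp T := stN_nonneg
    have h2 : 0 ≤ ∑ u : Fin 3, (∑ s ∈ range T, M.P.Pr (fun w => ru s w ∧ sts M.toMS u s w) + B0 M yp ru T y0 u) :=
      sum_nonneg fun u _ => add_nonneg (sum_nonneg fun _ _ => M.P.Pr_nonneg _) (sum_nonneg fun _ _ => M.P.Pr_nonneg _)
    nlinarith
  · have h1 := srt_le (P := M.P) (N := M.S ∅) (C := C0 M.toMS) (Ev := fun u => sts M.toMS u) (yp := yp) (T := T)
    refine (mul_le_mul_of_nonneg_left h1 (sub_nonneg.2 (not_le.1 hyp).le)).trans ?_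
    rw [mul_sum]
    refine sum_le_sum fun u _ => ?_
    refine (static_count' (P := M.P) (N := M.S ∅) (C := C0 M.toMS) (Ev := fun u => sts M.toMS u) (yp := yp) (T := T)
      (Rm := ru) (fun k => M.fS ∅ k) (nu_S0 H) u (fun w s s' e => sts_ep u w s s' e) B.ruS hy0
      (Bd := fun s w => pe M yp ru T s w ∧ y0 < dU M u s w)
      fun s _ w hw a b c => thr hw hy0 (show pe M yp ru T s w from ⟨a, b, c⟩)).trans (add_le_add le_rfl ?_)
    exact sum_le_sum fun s _ => M.P.Pr_mono fun w _ hh => hh.2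

/-- in a life of `A` there is one public epoch after the start of a stretch -/
theorem nu_CA {v : Fin 3} {s q : ℕ} {w : Om} (h1 : stg (CA M yp v) q w ≤ s) (h2 : s ≤ q)
    (hi : iS M yp s w) : stg (C0 M.toMS) q w = stg (C0 M.toMS) s w := by
  induction q, h2 using Nat.le_induction with
  | base => rfl
  | succ q hq ih =>
    have h3 : stg (CA M yp v) (q + 1) w ≠ q + 1 := fun h => by omega
    have h4 : stg (CA M yp v) (q + 1) w = stg (CA M yp v) q w := by
      rcases stg_or (C := CA M yp v) q w with h5 | h5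
      · exact absurd h5 h3
      · exact h5
    have h5 : stg (C0 M.toMS) q w = stg (C0 M.toMS) s w := ih (by rw [← h4]; exact h1)
    have h6 : iS M yp q w := CA_mono v s q w (by rw [← h4]; exact h1) hq hi
    rcases stg_or (C := C0 M.toMS) q w with h7 | h7
    · exact absurd (stg_pos (C := CA M yp v) (Or.inr ⟨h7, by rw [Nat.add_sub_cancel]; exact h6⟩)) h3
    · exact h7.trans h5

/-- product of two events of different vertices -/
theorem prod_S (B : RvOK M ru rp T h) {v u : Fin 3} (huv : v ≠ u) {s : ℕ} {A A' : Om → Prop}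
    (hA : ∀ a b, M.S {v} s a = M.S {v} s b → (A a ↔ A b)) (hA' : ∀ a b, M.S {u} s a = M.S {u} s b → (A' a ↔ A' b))
    {w : Om} (hw : M.P.p w ≠ 0) : M.P.ce (M.S ∅ s) (fun x => ind (A x ∧ A' x)) w =
      M.P.ce (M.S ∅ s) (fun x => ind (A x)) w * M.P.ce (M.S ∅ s) (fun x => ind (A' x)) w := by
  rw [← B.ci v u huv s (fun x => ind (A x)) (fun x => ind (A' x)) (Fac.ind fun a b e => hA a b e)
    (Fac.ind fun a b e => hA' a b e) w hw]
  exact congrArg (fun F => M.P.ce (M.S ∅ s) F w) (funext fun x => ind_and _ _)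

/-- an event of the node, a factor which is small there -/
theorem pr_prod {κ : Type*} {X : Om → κ} {F A A' : Om → Prop} (hF : ∀ a b, X a = X b → (F a ↔ F b)) {y : ℝ}
    (hy : ∀ w, M.P.p w ≠ 0 → F w → M.P.ce X (fun x => ind (A x ∧ A' x)) w ≤ y * M.P.ce X (fun x => ind (A x)) w) :
    M.P.Pr (fun w => F w ∧ (A w ∧ A' w)) ≤ y * M.P.Pr (fun w => F w ∧ A w) := by
  have e : ∀ D : Om → Prop, M.P.Pr (fun w => F w ∧ D w) = M.P.E (fun w => ind (F w) * M.P.ce X (fun x => ind (D x)) w) := by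
    intro D
    rw [M.P.E_mul_ce (Fac.ind fun a b e => hF a b e)]
    exact M.P.E_congr fun w _ => ind_and _ _
  rw [e A, show M.P.Pr (fun w => F w ∧ (A w ∧ A' w)) = M.P.E (fun w => ind (F w) *
    M.P.ce X (fun x => ind (A x ∧ A' x)) w) from e (fun x => A x ∧ A' x), ← FP.E_smul]
  refine M.P.E_mono fun w hw => ?_
  by_cases h : F w
  · rw [ind_of h, one_mul, one_mul]
    exact hy w hw h
  · rw [ind_not h, zero_mul, zero_mul, mul_zero]

variable (M yp) in
/-- decided outside the stretches, in the life of `A` -/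
def Dc (v : Fin 3) (f : ℕ → Om → Prop) (s : ℕ) (w : Om) : Prop := Sc (CA M yp v) (fun s w => f s w ∧ ¬ iS M yp s w) s w

theorem Dc_S (H : Seen M) {v : Fin 3} {f : ℕ → Om → Prop} (hf : ∀ s a b, M.S {v} s a = M.S {v} s b → (f s a ↔ f s b))
    (s : ℕ) {a b : Om} (e : M.S {v} s a = M.S {v} s b) : Dc M yp v f s a ↔ Dc M yp v f s b :=
  Sc_fac (fun k => M.fS {v} k) (CA_S H v) (fun s a b e => by
    show (f s a ∧ ¬ iS M yp s a) ↔ (f s b ∧ ¬ iS M yp s b)
    rw [hf s a b e, iS_Sv H v s e]) s e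

/-- the density of the status outside the stretches, after the step -/
theorem sts_out (B : RvOK M ru rp T h) (h0 : 0 ≤ h) (u : Fin 3) {s : ℕ} (hs : s < T) {w : Om} (hw : M.P.p w ≠ 0)
    (hi : dn M.P (M.S ∅) (sts M.toMS u) s w < yp) :
    M.P.ce (M.S ∅ (s + 1)) (fun x => ind (sts M.toMS u s x)) w ≤ h * yp :=
  (dn_ratio (P := M.P) (h := h) (M.fS ∅ s) hw (B.hm s hs w hw) (sts M.toMS u s)).trans
    (mul_le_mul_of_nonneg_left hi.le h0)

/-- at most one stretch starts in a life of `A` after the decision -/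
theorem st_once (v : Fin 3) (f : ℕ → Om → Prop) :
    ∑ s ∈ range T, M.P.Pr (fun w => st M yp s w ∧ Dc M yp v f s w) ≤ ∑ s ∈ range T, M.P.Pr (f s) := by
  have h1 : ∑ s ∈ range T, M.P.Pr (fun w => st M yp s w ∧ Dc M yp v f s w) ≤
      ∑ s ∈ range T, M.P.Pr (fun w => En (CA M yp v) T s w ∧ Sc (CA M yp v) f s w) := by
    unfold FP.Pr
    rw [← FP.E_sum, ← FP.E_sum]
    refine M.P.E_mono fun w _ => ?_
    have h2 := pass_end (C := CA M yp v) (f := fun s w => st M yp s w ∧ Dc M yp v f s w) (A := fun _ _ => True) (T := T)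
      (w := w) (fun s s' a b e => ?_) (fun _ _ _ => Iff.rfl)
    · refine le_trans (le_of_eq (sum_congr rfl fun s _ => ?_)) (h2.trans (sum_le_sum fun s _ => ind_mono fun hh => ?_))
      · exact congrArg ind (propext ⟨fun h => ⟨h, trivial⟩, fun h => h.1⟩)
      · obtain ⟨a, -, j, b, c, -, i, d, e, g⟩ := hh
        have e1 : stg (CA M yp v) j w = stg (CA M yp v) s w := in_ep b c
        exact ⟨a, i, by rw [← e1]; exact d, e.trans c, g.1⟩
    · have key : ∀ s s', s < s' → st M yp s w → st M yp s' w → stg (CA M yp v) s w = stg (CA M yp v) s' w → False := by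
        intro s s' hlt a b e
        have l1 := stg_le (C := CA M yp v) s w
        have i1 : iS M yp s w := ⟨s, stg_le _ _, le_rfl, a.1⟩
        have e2 := nu_CA (M := M) (yp := yp) (v := v) (s := s) (q := s') (w := w) (by omega) hlt.le i1
        exact hlt.ne (srt_one a b e2.symm)
      rcases lt_trichotomy s s' with g | g | g
      · exact (key s s' g a.1 b.1 e).elim
      · exact g
      · exact (key s' s g b.1 a.1 e.symm).elim
  exact h1.trans (once_sum f)

/-- **DECIDED OUTSIDE THE STRETCHES AND ANOTHER VERTEX IN `V`** at the public removals, `f` = any decision at the vertex `v` -/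
theorem pair_V (H : Seen M) (B : RvOK M ru rp T h) (h0 : 0 ≤ h) (hy : 0 ≤ yp) {v u : Fin 3} (huv : v ≠ u)
    {f : ℕ → Om → Prop} (hf : ∀ s a b, M.S {v} s a = M.S {v} s b → (f s a ↔ f s b)) :
    ∑ s ∈ range T, M.P.Pr (fun w => ru s w ∧ (Dc M yp v f s w ∧ sts M.toMS u s w)) ≤
      2 * (h * yp) * ∑ s ∈ range T, M.P.Pr (f s) +
        ∑ s ∈ range T, M.P.Pr (fun w => nu M.toMS s w = s ∧ tg M yp s w) := by
  have hyy : 0 ≤ h * yp := mul_nonneg h0 hy
  -- outside the stretches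
  have p1 : ∑ s ∈ range T, M.P.Pr (fun w => (ru s w ∧ ¬ iS M yp s w) ∧ (Dc M yp v f s w ∧ sts M.toMS u s w)) ≤
      h * yp * ∑ s ∈ range T, M.P.Pr (f s) := by
    have h1 : ∑ s ∈ range T, M.P.Pr (fun w => (ru s w ∧ ¬ iS M yp s w) ∧ Dc M yp v f s w) ≤
        ∑ s ∈ range T, M.P.Pr (f s) := by
      refine le_trans (sum_le_sum fun s hs => M.P.Pr_mono fun w hw hh => ?_) (once_sum (C := CA M yp v) (P := M.P) (T := T) f)
      obtain ⟨j, a, b, c⟩ := hh.2
      exact ⟨rvE_A B (v := v) (mem_range.1 hs) hw (Or.inr hh.1.1), j, a, b, c.1⟩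
    refine le_trans ?_ (mul_le_mul_of_nonneg_left h1 hyy)
    rw [mul_sum]
    refine sum_le_sum fun s hs => ?_
    refine pr_prod (M := M) (X := M.S ∅ (s + 1)) (F := fun w => ru s w ∧ ¬ iS M yp s w) (fun a b e => ?_) fun w hw hh => ?_
    · rw [B.ruS s a b e, iS_S H s (M.fS ∅ s a b e)]
    · rw [prod_S B huv (A := Dc M yp v f s) (A' := sts M.toMS u s) (fun a b e => Dc_S H hf s (M.fS {v} s a b e))
        (fun a b e => sts_S H u s (M.fS {u} s a b e)) hw, mul_comm]
      exact mul_le_mul_of_nonneg_right (sts_out B h0 u (mem_range.1 hs) hw (not_inS_lt hh.2 u))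
        (M.P.ce_nonneg (fun _ _ => ind_nonneg _) w)
  -- in a stretch : at its start
  set g : ℕ → Om → Prop := fun r w => st M yp r w ∧ (Dc M yp v f r w ∧ sts M.toMS u r w) with hg
  have p2 : ∑ s ∈ range T, M.P.Pr (fun w => ru s w ∧ iS M yp s w ∧ (Dc M yp v f s w ∧ sts M.toMS u s w)) ≤
      ∑ s ∈ range T, M.P.Pr (g s) := by
    refine le_trans (sum_le_sum fun s hs => M.P.Pr_mono fun w hw hh => ?_) (once_sum (C := C0 M.toMS) (P := M.P) (T := T) g)
    obtain ⟨a, b, ⟨j, c1, c2, c3, c4⟩, d⟩ := hh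
    obtain ⟨r, r1, r2, r3⟩ := inS_iff.1 b
    refine ⟨ruE B (mem_range.1 hs) hw a, r, r1, r2, r3, ?_, ?_⟩
    · have hjr : j < r := by
        by_contra h5
        refine c4 ⟨r, ?_, not_lt.1 h5, r3.1⟩
        rw [in_ep (r1.trans (not_lt.1 h5)) c2]
        exact r1
      have e1 : stg (CA M yp v) r w = stg (CA M yp v) s w := in_ep (c1.trans hjr.le) r2
      exact ⟨j, by rw [e1]; exact c1, hjr.le, c3, c4⟩
    · exact (sts_ep u w r s (in_ep r1 r2)).2 d
  have p3 : ∀ r ∈ range T, M.P.Pr (g r) ≤ h * yp * M.P.Pr (fun w => st M yp r w ∧ Dc M yp v f r w) +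
      M.P.Pr (fun w => nu M.toMS r w = r ∧ tg M yp r w) := by
    intro r hr
    have k1 : M.P.Pr (g r) ≤ M.P.Pr (fun w => (st M yp r w ∧ nu M.toMS r w < r) ∧ (Dc M yp v f r w ∧ sts M.toMS u r w)) +
        M.P.Pr (fun w => nu M.toMS r w = r ∧ tg M yp r w) := by
      refine le_trans (M.P.Pr_mono fun w _ hh => ?_) (M.P.Pr_or_le _ _)
      rcases (stg_le (C := C0 M.toMS) r w).lt_or_eq with e | e
      · exact Or.inl ⟨⟨hh.1, e⟩, hh.2⟩
      · exact Or.inr ⟨e, hh.1.1⟩
    refine k1.trans (add_le_add ?_ le_rfl)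
    rcases Nat.eq_zero_or_pos r with rfl | hr0
    · refine le_trans (le_of_eq ?_) (mul_nonneg hyy (M.P.Pr_nonneg _))
      unfold FP.Pr
      rw [M.P.E_congr (g := fun _ => 0) fun w _ => ind_not fun hh => absurd hh.1.2 (Nat.not_lt_zero _), M.P.E_const]
    · obtain ⟨t, rfl⟩ : ∃ t, r = t + 1 := ⟨r - 1, by omega⟩
      have htT : t < T := by
        have := mem_range.1 hr
        omega
      have k2 := pr_prod (M := M) (X := M.S ∅ (t + 1)) (F := fun w => st M yp (t + 1) w ∧ nu M.toMS (t + 1) w < t + 1)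
        (A := Dc M yp v f (t + 1)) (A' := sts M.toMS u (t + 1)) (y := h * yp) (fun a b e => ?_) fun w hw hh => ?_
      · refine k2.trans (mul_le_mul_of_nonneg_left (M.P.Pr_mono fun w _ hh => ⟨hh.1.1, hh.2⟩) hyy)
      · have e1 : stg (C0 M.toMS) (t + 1) a = stg (C0 M.toMS) (t + 1) b := nu_S0 H (t + 1) a b e
        have e2 : st M yp (t + 1) a ↔ st M yp (t + 1) b := srt_fac (fun k => M.fS ∅ k) (nu_S0 H) (t + 1) e
        show (st M yp (t + 1) a ∧ stg (C0 M.toMS) (t + 1) a < t + 1) ↔ (st M yp (t + 1) b ∧ stg (C0 M.toMS) (t + 1) b < t + 1)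
        rw [e1, e2]
      · rw [prod_S B huv (A := Dc M yp v f (t + 1)) (A' := sts M.toMS u (t + 1)) (fun a b e => Dc_S H hf (t + 1) e)
          (fun a b e => sts_S H u (t + 1) e) hw, mul_comm]
        refine mul_le_mul_of_nonneg_right ?_ (M.P.ce_nonneg (fun _ _ => ind_nonneg _) w)
        have hlt : stg (C0 M.toMS) (t + 1) w ≤ t := Nat.lt_succ_iff.1 hh.2
        have k3 : M.P.ce (M.S ∅ (t + 1)) (fun x => ind (sts M.toMS u (t + 1) x)) w =
            M.P.ce (M.S ∅ (t + 1)) (fun x => ind (sts M.toMS u t x)) w := by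
          refine Gdy.ce_congr_on fun x _ e => ?_
          have e1 : stg (C0 M.toMS) (t + 1) x = stg (C0 M.toMS) (t + 1) w := nu_S0 H (t + 1) x w e
          exact congrArg ind (propext (sts_ep u x (t + 1) t (in_ep (by rw [e1]; exact hlt) (Nat.le_succ t)).symm))
        rw [k3]
        refine sts_out B h0 u htT hw ?_
        by_contra h5
        refine hh.1.2 t hlt (Nat.lt_succ_self t) ⟨u, not_lt.1 h5⟩
  have h1 : ∑ s ∈ range T, M.P.Pr (fun w => ru s w ∧ (Dc M yp v f s w ∧ sts M.toMS u s w)) ≤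
      ∑ s ∈ range T, M.P.Pr (fun w => (ru s w ∧ ¬ iS M yp s w) ∧ (Dc M yp v f s w ∧ sts M.toMS u s w)) +
        ∑ s ∈ range T, M.P.Pr (fun w => ru s w ∧ iS M yp s w ∧ (Dc M yp v f s w ∧ sts M.toMS u s w)) := by
    rw [← sum_add_distrib]
    refine sum_le_sum fun s _ => le_trans (M.P.Pr_mono fun w _ hh => ?_) (M.P.Pr_or_le _ _)
    by_cases h2 : iS M yp s w
    · exact Or.inr ⟨hh.1, h2, hh.2⟩
    · exact Or.inl ⟨⟨hh.1, h2⟩, hh.2⟩
  have h2 := sum_le_sum p3
  rw [sum_add_distrib, ← mul_sum] at h2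
  have h3 := mul_le_mul_of_nonneg_left (st_once (M := M) (yp := yp) (T := T) v f) hyy
  linarith

/-- **A ZONE BEFORE THE STRETCH** and a vertex in `V` : `f` = start of the zone -/
theorem zone_V (H : Seen M) (B : RvOK M ru rp T h) (hy : 0 ≤ yp) (u : Fin 3) {f : ℕ → Om → Prop}
    (hf : ∀ s a b, M.S ∅ s a = M.S ∅ s b → (f s a ↔ f s b)) :
    ∑ s ∈ range T, M.P.Pr (fun w => ru s w ∧ (sts M.toMS u s w ∧ Sc (C0 M.toMS) (fun s w => f s w ∧ ¬ iS M yp s w) s w)) ≤
      yp * ∑ s ∈ range T, M.P.Pr (f s) :=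
  (sum_le_sum fun s hs => M.P.Pr_mono fun w hw hh => ⟨ruE B (mem_range.1 hs) hw hh.1, hh.2⟩).trans
    (zone_sum (P := M.P) (N := M.S ∅) (C := C0 M.toMS) (Ev := fun u => sts M.toMS u) (yp := yp) (T := T)
      (fun k => M.fS ∅ k) (nu_S0 H) hf hy u fun w s s' e => sts_ep u w s s' e)

/-- the starts with a trigger -/
theorem tg_start (T : ℕ) : ∑ s ∈ range T, M.P.Pr (fun w => nu M.toMS s w = s ∧ tg M yp s w) ≤
    ∑ u : Fin 3, ∑ s ∈ range T, M.P.Pr (fun w => nu M.toMS s w = s ∧ yp ≤ dn M.P (M.S ∅) (sts M.toMS u) s w) := by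
  rw [sum_comm]
  refine sum_le_sum fun s _ => le_trans (M.P.Pr_mono fun w _ hh => ?_) (M.P.Pr_ex_le univ fun u w =>
    nu M.toMS s w = s ∧ yp ≤ dn M.P (M.S ∅) (sts M.toMS u) s w)
  obtain ⟨u, hu⟩ := hh.2
  exact ⟨u, mem_univ u, hh.1, hu⟩

end

end Pool.Agent.GMH.SU
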