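import Pool.Agent.GMH.MV1
import Pool.Agent.GMH.MvF

/-!
# GMH/MV8 (helper28): PRIVATE REMOVALS (H3.MOV, M.11)

At a private removal the value of the letter of `v` is a public event of the class for fixed points: the other two thin
letters (with their points) hardly change: every test function of (other letters, `NP s`) has the mean of the public class up
to `ep`.  So neither `moved at v, not anti-hot` nor `status of a vertex c /= v` is seen.

* `pr_le` : conditional bound on an event of the class;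
* `row_prv` : `P (E | U') <= e m + ep` if `dr <= e` on `E`, `P (E | G, U) <= m`, `U'` finer than G, U and test functions
  of F, U are seen up to `ep`;
* `OL v s` : the letters of the other vertices; `nhys_mass` : status at the public start, mass in the public class;
* `dr_pts` : the anti-hot ratio with and without the exact points;
* `mv8`, `mv8_dr` : the statement for the data `MS`; `mv8A`, `mv8_sum` : on the event `A` of alive letters.
-/

set_option autoImplicit false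
set_option linter.unusedSectionVars false

namespace Pool.Agent.GMH.MV8

open Finset Pool.Agent.PWZ Pool.Agent.M3 Pool.Agent.GMH Pool.Agent.GMH.TD Pool.Agent.GMH.CK Pool.Agent.GMH.MV
open Pool.Agent.GMH.MvF (rw_ row_mass)

noncomputable section

/-! ## abstract -/

section abstr

variable {Om : Type*} [Fintype Om] {P : FP Om} {α β γ γ' : Type*}

/-- an event which has conditional probability at most `t` in the classes of `S` -/
theorem pr_le {U' : Om → γ'} {S E : Om → Prop} (hS : Fac U' S) {t : ℝ}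
    (h : ∀ w, P.p w ≠ 0 → S w → P.ce U' (fun u => ind (E u)) w ≤ t) :
    P.Pr (fun w => S w ∧ E w) ≤ t * P.Pr S := by
  have e1 : P.Pr (fun w => S w ∧ E w) = P.E (fun w => ind (S w) * P.ce U' (fun u => ind (E u)) w) := by
    rw [P.E_mul_ce (Fac.ind fun a b hab => by rw [hS a b hab])]
    exact P.E_congr fun w _ => ind_and _ _
  rw [e1]
  unfold FP.Pr
  rw [← P.E_smul]
  refine P.E_mono fun w hw => ?_
  by_cases hs : S w
  · rw [ind_of hs, one_mul, mul_one]
    exact h w hw hs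
  · rw [ind_not hs, zero_mul, mul_zero]

/-- **the event `E` without anti-hot pairs, seen from a finer class, on the event `A`** (alive letters) -/
theorem row_prvA (F : Om → α) (G : Om → β) (U : Om → γ) {U' : Om → γ'} (hU : Fac U' (fun u => (G u, U u)))
    {A E : Om → Prop} (hE : Fac (fun u => (F u, G u, U u)) E) {e m ep : ℝ} (he0 : 0 ≤ e)
    (he : ∀ v, P.p v ≠ 0 → E v → dr P F G U v ≤ e) {w : Om} (hw : P.p w ≠ 0)
    (hm : P.ce (fun v => (G v, U v)) (fun v => ind (E v)) w ≤ m)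
    (ht : ∀ g : Om → ℝ, Fac (fun u => (F u, U u)) g → (∀ u, 0 ≤ g u) → (∀ u, g u ≤ 1) →
      P.ce U' (fun u => ind (A u) * g u) w ≤ P.ce U g w + ep) :
    P.ce U' (fun u => ind (A u ∧ E u)) w ≤ e * m + ep := by
  have hE' : ∀ v w, F v = F w → G v = G w → U v = U w → (E v ↔ E w) := fun v w h1 h2 h3 => by
    rw [hE v w (by simp only [h1, h2, h3])]
  have h1 := row_mass (P := P) F G U (E := E) hE' he0 he hw
  have hg : Fac (fun u => (F u, U u)) (fun u => ind (rw_ P F G U E w u)) := by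
    refine Fac.ind fun a b hab => ?_
    have h2 := (Prod.mk.inj hab).1
    unfold rw_
    rw [h2]
  have h2 := ht _ hg (fun u => ind_nonneg _) (fun u => ind_le_one _)
  have h3 : P.ce U' (fun u => ind (A u ∧ E u)) w ≤ P.ce U' (fun u => ind (A u) * ind (rw_ P F G U E w u)) w := by
    unfold FP.ce
    refine div_le_div_of_nonneg_right ?_ (P.m_nonneg U' w)
    refine P.E_mono fun u hu => ?_
    by_cases h4 : U' u = U' w
    · rw [ind_of h4, one_mul, one_mul]
      show ind (A u ∧ E u) ≤ ind (A u) * ind (rw_ P F G U E w u)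
      rw [← ind_and]
      have h5 := hU u w h4
      exact ind_mono fun hh => ⟨hh.1, u, hu, rfl, (Prod.mk.inj h5).1, (Prod.mk.inj h5).2, hh.2⟩
    · rw [ind_not h4, zero_mul, zero_mul]
  have h4 := mul_le_mul_of_nonneg_left hm he0
  linarith

/-- **the event `E` without anti-hot pairs, seen from a finer class** -/
theorem row_prv (F : Om → α) (G : Om → β) (U : Om → γ) {U' : Om → γ'} (hU : Fac U' (fun u => (G u, U u)))
    {E : Om → Prop} (hE : Fac (fun u => (F u, G u, U u)) E) {e m ep : ℝ} (he0 : 0 ≤ e)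
    (he : ∀ v, P.p v ≠ 0 → E v → dr P F G U v ≤ e) {w : Om} (hw : P.p w ≠ 0)
    (hm : P.ce (fun v => (G v, U v)) (fun v => ind (E v)) w ≤ m)
    (ht : ∀ g : Om → ℝ, Fac (fun u => (F u, U u)) g → (∀ u, 0 ≤ g u) → (∀ u, g u ≤ 1) → P.ce U' g w ≤ P.ce U g w + ep) :
    P.ce U' (fun u => ind (E u)) w ≤ e * m + ep := by
  have h1 := row_prvA (P := P) F G U (A := fun _ => True) hU hE he0 he hw hm (ep := ep) (fun g a b c => by
    have e1 : (fun u => ind True * g u) = g := by
      funext u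
      rw [ind_of trivial, one_mul]
    rw [e1]
    exact ht g a b c)
  simpa only [true_and] using h1

/-- **anti-hot ratio with and without the exact points** : `F` has the points `Y2`, `G` the points `Y1`; given `U`, `F` does
not see `Y1`, `G` does not see `Y2`, the points are independent -/
theorem dr_pts {η1 η2 : Type*} {F : Om → α} {G : Om → β} {U : Om → γ} {Y1 : Om → η1} {Y2 : Om → η2} (hF : Fac F Y2)
    (hG : Fac G Y1) {w : Om} (hw : P.p w ≠ 0)
    (h1 : P.m (fun u => (F u, (Y1 u, U u))) w * P.m U w = P.m (fun u => (F u, U u)) w * P.m (fun u => (Y1 u, U u)) w)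
    (h2 : P.m (fun u => (G u, (Y2 u, U u))) w * P.m U w = P.m (fun u => (G u, U u)) w * P.m (fun u => (Y2 u, U u)) w)
    (h3 : P.m (fun u => (Y1 u, (Y2 u, U u))) w * P.m U w =
      P.m (fun u => (Y1 u, U u)) w * P.m (fun u => (Y2 u, U u)) w) :
    dr P F G U w = dr P F G (fun u => ((Y1 u, Y2 u), U u)) w := by
  unfold dr
  have e1 : P.m (fun u => (F u, ((Y1 u, Y2 u), U u))) w = P.m (fun u => (F u, (Y1 u, U u))) w :=
    P.m_congr (X := fun u => (F u, ((Y1 u, Y2 u), U u))) (Y := fun u => (F u, (Y1 u, U u)))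
      (fun a b h => by simp only [Prod.mk.injEq] at h ⊢; exact ⟨h.1, h.2.1.1, h.2.2⟩)
      (fun a b h => by simp only [Prod.mk.injEq] at h ⊢; exact ⟨h.1, ⟨h.2.1, hF a b h.1⟩, h.2.2⟩) w
  have e2 : P.m (fun u => (G u, ((Y1 u, Y2 u), U u))) w = P.m (fun u => (G u, (Y2 u, U u))) w :=
    P.m_congr (X := fun u => (G u, ((Y1 u, Y2 u), U u))) (Y := fun u => (G u, (Y2 u, U u)))
      (fun a b h => by simp only [Prod.mk.injEq] at h ⊢; exact ⟨h.1, h.2.1.2, h.2.2⟩)
      (fun a b h => by simp only [Prod.mk.injEq] at h ⊢; exact ⟨h.1, ⟨hG a b h.1, h.2.1⟩, h.2.2⟩) w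
  have e3 : P.m (fun u => (F u, G u, ((Y1 u, Y2 u), U u))) w = P.m (fun u => (F u, G u, U u)) w :=
    P.m_congr (X := fun u => (F u, G u, ((Y1 u, Y2 u), U u))) (Y := fun u => (F u, G u, U u))
      (fun a b h => by simp only [Prod.mk.injEq] at h ⊢; exact ⟨h.1, h.2.1, h.2.2.2⟩)
      (fun a b h => by simp only [Prod.mk.injEq] at h ⊢; exact ⟨h.1, h.2.1, ⟨hG a b h.2.1, hF a b h.1⟩, h.2.2⟩) w
  have e4 : P.m (fun u => ((Y1 u, Y2 u), U u)) w = P.m (fun u => (Y1 u, (Y2 u, U u))) w :=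
    P.m_congr (X := fun u => ((Y1 u, Y2 u), U u)) (Y := fun u => (Y1 u, (Y2 u, U u)))
      (fun a b h => by simp only [Prod.mk.injEq] at h ⊢; exact ⟨h.1.1, h.1.2, h.2⟩)
      (fun a b h => by simp only [Prod.mk.injEq] at h ⊢; exact ⟨⟨h.1, h.2.1⟩, h.2.2⟩) w
  rw [e1, e2, e3, e4]
  have pU := P.m_pos U hw
  have p1 := P.m_pos (fun u => (Y1 u, (Y2 u, U u))) hw
  have p2 := P.m_pos (fun u => (F u, G u, U u)) hw
  rw [div_eq_div_iff (by positivity) (by positivity)]
  have h4 : P.m (fun u => (F u, U u)) w * P.m (fun u => (G u, U u)) w * (P.m (fun u => (Y1 u, (Y2 u, U u))) w * P.m U w) =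
      (P.m (fun u => (F u, (Y1 u, U u))) w * P.m U w) * (P.m (fun u => (G u, (Y2 u, U u))) w * P.m U w) := by
    rw [h1, h2, h3]
    ring
  have h5 : P.m (fun u => (F u, U u)) w * P.m (fun u => (G u, U u)) w * P.m (fun u => (Y1 u, (Y2 u, U u))) w =
      P.m (fun u => (F u, (Y1 u, U u))) w * P.m (fun u => (G u, (Y2 u, U u))) w * P.m U w := by
    have h6 : P.m U w ≠ 0 := pU.ne'
    have h7 : (P.m (fun u => (F u, U u)) w * P.m (fun u => (G u, U u)) w * P.m (fun u => (Y1 u, (Y2 u, U u))) w) * P.m U w =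
        (P.m (fun u => (F u, (Y1 u, U u))) w * P.m (fun u => (G u, (Y2 u, U u))) w * P.m U w) * P.m U w := by
      linarith [h4]
    exact mul_right_cancel₀ h6 h7
  calc P.m (fun u => (F u, U u)) w * P.m (fun u => (G u, U u)) w *
        (P.m (fun u => (F u, G u, U u)) w * P.m (fun u => (Y1 u, (Y2 u, U u))) w)
      = (P.m (fun u => (F u, U u)) w * P.m (fun u => (G u, U u)) w * P.m (fun u => (Y1 u, (Y2 u, U u))) w) *
        P.m (fun u => (F u, G u, U u)) w := by ring
    _ = _ := by rw [h5]; ring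

end abstr

/-! ## the data `MS` -/

variable {Om : Type} [Fintype Om] (M : MS Om)

/-- the letters of the other vertices (with their points) -/
def OL (v : Fin 3) (s : ℕ) (w : Om) : Fin 3 → Option M.lam := fun j => if j = v then Option.none else some (M.XL j s w)

theorem OL_X {v c : Fin 3} (hc : c ≠ v) (s : ℕ) : Fac (OL M v s) (M.XL c s) := by
  intro a b hab
  have h1 := congrFun hab c
  unfold OL at h1
  rw [if_neg hc, if_neg hc] at h1
  exact Option.some.inj h1

theorem OL_CN {v c : Fin 3} (hc : c ≠ v) (s : ℕ) : Fac (fun u => (OL M v s u, M.NP s u)) (CN M c s) := by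
  intro a b hab
  obtain ⟨h1, h2⟩ := Prod.mk.inj hab
  unfold CN
  rw [OL_X M hc s a b h1, h2]

theorem OL_TH (v : Fin 3) (s : ℕ) : Fac (fun u => (OL M v s u, M.XL v s u, M.NP s u)) (TH M s) := by
  intro a b hab
  obtain ⟨h1, h2⟩ := Prod.mk.inj hab
  obtain ⟨h3, h4⟩ := Prod.mk.inj h2
  unfold TH
  refine Prod.ext (funext fun j => ?_) h4
  by_cases hj : j = v
  · subst hj
    exact h3
  · exact OL_X M hj s a b h1

/-- the status of `c` at the public start, seen by the letters of the other vertices -/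
theorem nhys_fac {v c : Fin 3} (hc : c ≠ v) (s : ℕ) :
    Fac (fun u => (OL M v s u, M.NP s u)) (fun u => ind (hys M c (nu M s u) u)) := by
  refine Fac.ind fun a b hab => ?_
  have h1 := OL_CN M hc s a b hab
  have h2 : nu M s a = nu M s b := nu_fac M s a b (Prod.mk.inj hab).2
  have h3 := CN_le M c (stg_le (C := C0 M) s b) a b h1
  rw [h2]
  exact iff_of_eq (hys_fac M c (nu M s b) a b h3)

/-- **the status at the public start has mass at most `z` in the public class** -/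
theorem nhys_mass {Lam : ℝ} (hT : Thk M Lam) (hz : 8 * Real.exp (4 * Lam) * M.kb / M.p1 ≤ M.z) (c : Fin 3) (s : ℕ)
    {w : Om} (hw : M.P.p w ≠ 0) : M.P.ce (M.NP s) (fun u => ind (hys M c (nu M s u) u)) w ≤ M.z := by
  have e0 : ∀ k, M.P.ce (M.NP k) (fun u => ind (hys M c (nu M k u) u)) w =
      M.P.ce (M.NP k) (fun u => ind (hys M c (nu M k w) u)) w := fun k =>
    ce_fib M.P fun u hu => by rw [nu_fac M k u w hu]
  have h0 : ∀ k, nu M k w = k → M.P.ce (M.NP k) (fun u => ind (hys M c (nu M k w) u)) w ≤ M.z := by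
    intro k hk
    rw [hk]
    exact (hys_mass M hT c k hw).trans hz
  rw [e0 s]
  rcases s with _ | s
  · exact h0 0 rfl
  · by_cases h : C0 M (nu M s w) (s + 1) w
    · exact h0 (s + 1) (stg_pos h)
    · have h1 : nu M (s + 1) w = nu M s w := stg_neg h
      rw [h1]
      refine (not_le.1 fun h2 => h (Or.inr (Or.inr ⟨c, h2⟩))).le

/-- **PRIVATE REMOVALS, on the event `A`** (alive letters of the other vertices) -/
theorem mv8A {Lam e ep : ℝ} (hT : Thk M Lam) (hz : 8 * Real.exp (4 * Lam) * M.kb / M.p1 ≤ M.z) (v : Fin 3) (s : ℕ)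
    (he0 : 0 ≤ e) {S A D : Om → Prop} (hS : Fac (CN M v (s + 1)) S) (hD : Fac (TH M s) D)
    (hDe : ∀ w, M.P.p w ≠ 0 → D w → dr M.P (OL M v s) (M.XL v s) (M.NP s) w ≤ e)
    (ht : ∀ w, M.P.p w ≠ 0 → S w → ∀ g : Om → ℝ, Fac (fun u => (OL M v s u, M.NP s u)) g → (∀ u, 0 ≤ g u) →
      (∀ u, g u ≤ 1) → M.P.ce (CN M v (s + 1)) (fun u => ind (A u) * g u) w ≤ M.P.ce (M.NP s) g w + ep) :
    M.P.Pr (fun w => S w ∧ (A w ∧ ((Mv M v s w ∧ D w) ∨ ∃ c, c ≠ v ∧ hys M c (nu M s w) w))) ≤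
      (e * (Real.exp (4 * Lam) * M.kb) + 2 * M.z + 3 * ep) * M.P.Pr S := by
  classical
  refine pr_le hS fun w hw hs => ?_
  have h1 : M.P.ce (CN M v (s + 1)) (fun u => ind (A u ∧ (Mv M v s u ∧ D u))) w ≤
      e * (Real.exp (4 * Lam) * M.kb) + ep := by
    refine row_prvA (OL M v s) (M.XL v s) (M.NP s) (U' := CN M v (s + 1)) (E := fun u => Mv M v s u ∧ D u) ?_ ?_ he0
      (fun u hu h => hDe u hu h.2) hw ?_ (ht w hw hs)
    · exact (CN_step M v s).trans (Fac.refl _)
    · intro a b hab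
      have h2 := OL_TH M v s a b hab
      show (Mv M v s a ∧ D a) = (Mv M v s b ∧ D b)
      rw [Mv_fac M v s a b h2, hD a b h2]
    · refine le_trans ?_ (Mv_mass M hT v s hw)
      exact M.P.ce_mono (fun u _ => ind_mono fun hh => hh.1) w
  have h2 : ∀ c ∈ univ.erase v, M.P.ce (CN M v (s + 1)) (fun u => ind (A u) * ind (hys M c (nu M s u) u)) w ≤
      M.z + ep := by
    intro c hc
    have h3 := ht w hw hs _ (nhys_fac M (ne_of_mem_erase hc) s) (fun _ => ind_nonneg _) (fun _ => ind_le_one _)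
    have h4 := nhys_mass M hT hz c s hw
    linarith
  have h3 : ∀ u, M.P.p u ≠ 0 → ind (A u ∧ ((Mv M v s u ∧ D u) ∨ ∃ c, c ≠ v ∧ hys M c (nu M s u) u)) ≤
      ind (A u ∧ (Mv M v s u ∧ D u)) + ∑ c ∈ univ.erase v, ind (A u) * ind (hys M c (nu M s u) u) := by
    intro u _
    rw [← mul_sum]
    have h5 : ind (∃ c ∈ univ.erase v, hys M c (nu M s u) u) ≤ ∑ c ∈ univ.erase v, ind (hys M c (nu M s u) u) :=
      FP.ind_ex_le (univ.erase v) fun c => hys M c (nu M s u) u
    by_cases hA : A u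
    · by_cases h : (Mv M v s u ∧ D u) ∨ ∃ c, c ≠ v ∧ hys M c (nu M s u) u
      · rw [ind_of (⟨hA, h⟩ : A u ∧ _), ind_of hA, one_mul]
        rcases h with h | ⟨c, hc, h⟩
        · rw [ind_of ⟨hA, h⟩]
          have := sum_nonneg fun (c : Fin 3) (_ : c ∈ univ.erase v) => ind_nonneg (hys M c (nu M s u) u)
          linarith
        · rw [ind_of (⟨c, mem_erase.2 ⟨hc, mem_univ c⟩, h⟩ : ∃ c ∈ univ.erase v, hys M c (nu M s u) u)] at h5
          have := ind_nonneg (A u ∧ (Mv M v s u ∧ D u))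
          linarith
      · rw [ind_not fun hh => h hh.2]
        exact add_nonneg (ind_nonneg _) (mul_nonneg (ind_nonneg _) (sum_nonneg fun _ _ => ind_nonneg _))
    · rw [ind_not fun hh => hA hh.1]
      exact add_nonneg (ind_nonneg _) (mul_nonneg (ind_nonneg _) (sum_nonneg fun _ _ => ind_nonneg _))
  refine (M.P.ce_mono h3 w).trans ?_
  rw [M.P.ce_add, M.P.ce_sum]
  refine (add_le_add h1 (sum_le_sum h2)).trans (le_of_eq ?_)
  rw [sum_const, card_erase_of_mem (mem_univ v), card_univ, Fintype.card_fin, nsmul_eq_mul]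
  push_cast
  ring

/-- **PRIVATE REMOVALS** : at a light value of the class of `v` the true tuple is neither `moved at v and in D` (`dr <= e` on
`D`) nor has a vertex `c /= v` with status, up to e exp (4 Lam) kb + 2 z + 3 ep times the probability of the removal -/
theorem mv8 {Lam e ep : ℝ} (hT : Thk M Lam) (hz : 8 * Real.exp (4 * Lam) * M.kb / M.p1 ≤ M.z) (v : Fin 3) (s : ℕ)
    (he0 : 0 ≤ e) {S D : Om → Prop} (hS : Fac (CN M v (s + 1)) S) (hD : Fac (TH M s) D)
    (hDe : ∀ w, M.P.p w ≠ 0 → D w → dr M.P (OL M v s) (M.XL v s) (M.NP s) w ≤ e)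
    (ht : ∀ w, M.P.p w ≠ 0 → S w → ∀ g : Om → ℝ, Fac (fun u => (OL M v s u, M.NP s u)) g → (∀ u, 0 ≤ g u) →
      (∀ u, g u ≤ 1) → M.P.ce (CN M v (s + 1)) g w ≤ M.P.ce (M.NP s) g w + ep) :
    M.P.Pr (fun w => S w ∧ ((Mv M v s w ∧ D w) ∨ ∃ c, c ≠ v ∧ hys M c (nu M s w) w)) ≤
      (e * (Real.exp (4 * Lam) * M.kb) + 2 * M.z + 3 * ep) * M.P.Pr S := by
  have h1 := mv8A M hT hz v s he0 (A := fun _ => True) hS hD hDe (ep := ep) (fun w hw hs g a b c => by
    have e1 : (fun u => ind True * g u) = g := by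
      funext u
      rw [ind_of trivial, one_mul]
    rw [e1]
    exact ht w hw hs g a b c)
  simpa only [true_and] using h1

/-- the same with `D = (dr <= e)` -/
theorem mv8_dr {Lam e ep : ℝ} (hT : Thk M Lam) (hz : 8 * Real.exp (4 * Lam) * M.kb / M.p1 ≤ M.z) (v : Fin 3) (s : ℕ)
    (he0 : 0 ≤ e) {S : Om → Prop} (hS : Fac (CN M v (s + 1)) S)
    (ht : ∀ w, M.P.p w ≠ 0 → S w → ∀ g : Om → ℝ, Fac (fun u => (OL M v s u, M.NP s u)) g → (∀ u, 0 ≤ g u) →
      (∀ u, g u ≤ 1) → M.P.ce (CN M v (s + 1)) g w ≤ M.P.ce (M.NP s) g w + ep) :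
    M.P.Pr (fun w => S w ∧ ((Mv M v s w ∧ dr M.P (OL M v s) (M.XL v s) (M.NP s) w ≤ e) ∨
      ∃ c, c ≠ v ∧ hys M c (nu M s w) w)) ≤
      (e * (Real.exp (4 * Lam) * M.kb) + 2 * M.z + 3 * ep) * M.P.Pr S := by
  refine mv8 M hT hz v s he0 hS (D := fun w => dr M.P (OL M v s) (M.XL v s) (M.NP s) w ≤ e) ?_ (fun w _ h => h) ht
  intro a b hab
  obtain ⟨h1, h2⟩ := Prod.mk.inj hab
  have h3 : OL M v s a = OL M v s b := by
    funext j
    unfold OL
    rw [show M.XL j s a = M.XL j s b from congrFun h1 j]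
  have h4 : M.XL v s a = M.XL v s b := congrFun h1 v
  show (dr M.P (OL M v s) (M.XL v s) (M.NP s) a ≤ e) = (dr M.P (OL M v s) (M.XL v s) (M.NP s) b ≤ e)
  rw [dr_fac M.P (OL M v s) (M.XL v s) (M.NP s) a b (by simp only [h3, h4, h2])]

/-- the sum over the private substeps `pv` : light values in alive classes; the right side has the number of the PRIVATE
light values -/
theorem mv8_sum {Lam e ep : ℝ} (hT : Thk M Lam) (hz : 8 * Real.exp (4 * Lam) * M.kb / M.p1 ≤ M.z) (v : Fin 3)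
    (he0 : 0 ≤ e) (hep : 0 ≤ ep) (pv : ℕ → Prop) {al A : ℕ → Om → Prop} (hal : ∀ s, Fac (CN M v (s + 1)) (al s))
    {D : ℕ → Om → Prop} (hD : ∀ s, Fac (TH M s) (D s))
    (hDe : ∀ s w, M.P.p w ≠ 0 → D s w → dr M.P (OL M v s) (M.XL v s) (M.NP s) w ≤ e)
    (ht : ∀ s, pv s → ∀ w, M.P.p w ≠ 0 → lt5 M (CN M v) s w → al s w → ∀ g : Om → ℝ,
      Fac (fun u => (OL M v s u, M.NP s u)) g → (∀ u, 0 ≤ g u) → (∀ u, g u ≤ 1) →
      M.P.ce (CN M v (s + 1)) (fun u => ind (A s u) * g u) w ≤ M.P.ce (M.NP s) g w + ep) (T : ℕ) :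
    ∑ s ∈ range T, M.P.Pr (fun w => (pv s ∧ lt5 M (CN M v) s w ∧ al s w) ∧ (A s w ∧ ((Mv M v s w ∧ D s w) ∨
      ∃ c, c ≠ v ∧ hys M c (nu M s w) w))) ≤
      (e * (Real.exp (4 * Lam) * M.kb) + 2 * M.z + 3 * ep) *
        ∑ s ∈ range T, M.P.Pr (fun w => pv s ∧ lt5 M (CN M v) s w) := by
  have hc : 0 ≤ e * (Real.exp (4 * Lam) * M.kb) + 2 * M.z + 3 * ep := by
    have h1 := mul_nonneg he0 (mul_nonneg (Real.exp_pos (4 * Lam)).le M.hkb.le)
    have h2 := M.hz
    linarith
  rw [mul_sum]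
  refine sum_le_sum fun s _ => ?_
  refine (mv8A M (ep := ep) hT hz v s he0 (S := fun w => pv s ∧ lt5 M (CN M v) s w ∧ al s w) (A := A s) (D := D s) ?_
    (hD s) (hDe s) ?_).trans ?_
  · intro a b hab
    show (pv s ∧ lt5 M (CN M v) s a ∧ al s a) = (pv s ∧ lt5 M (CN M v) s b ∧ al s b)
    rw [lt5_eq M (CN_step M v) s hab, hal s a b hab]
  · intro w hw hs
    exact ht s hs.1 w hw hs.2.1 hs.2.2
  · exact mul_le_mul_of_nonneg_left (M.P.Pr_mono fun w _ h => ⟨h.1, h.2.1⟩) hc

end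

end Pool.Agent.GMH.MV8
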