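import Pool.Agent.GMH.MV8
import Pool.Agent.GMH.MVI
import Pool.Agent.GMH.TopRow

/-!
# GMH/MV8R (helper28): the hypothesis of MV8 from saturation, on the run (H3.MOV, M.11)

At a private code of the vertex `i` the new letter of `i` is, for the hardwired point, an event of the hidden point.
Chain: the letter of `k` (alive), then the letter of `m` under the event (letter of `i`, letter of `k`).

* `chain` : abstract chain of two letters under a value of the first one;
* `Pc_g1`, `Pc_g2`, `Pc_g3` : letters with different numbers of codes in a public cell;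
* `cell_test` : the test in the public cell; `ce_test` : conditional expectations; `ht_raw` : the hypothesis `ht`.
-/

set_option autoImplicit false
set_option linter.unusedSectionVars false

namespace Pool.Agent.GMH.MV8R

open Finset Pool.Agent.PWZ Pool.Agent.M3 Pool.Agent.GM Pool.Agent.GM.Harm Pool.Agent.GMH Pool.Agent.GMH.NZ
open Pool.Agent.GMH.V3

noncomputable section

/-! ## the chain -/

section chn

variable {Om : Type*} [Fintype Om] {P : FP Om} {κ ι θ : Type*} {X : Om → κ} {Y : Om → ι} {Z : Om → θ}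

theorem E_xy (x : κ) (f : ι → ℝ) : P.E (fun u => ind (X u = x) * f (Y u)) = ∑ y ∈ vals Y, lw2 P X Y x y * f y := by
  have e2 : ∀ y ∈ vals Y, lw2 P X Y x y * f y = P.E fun w => ind (X w = x) * (ind (Y w = y) * f y) := by
    intro y _
    unfold lw2
    rw [← P.E_mul_const]
    congr 1
    funext w
    ring
  rw [Finset.sum_congr rfl e2, ← P.E_sum]
  refine P.E_congr fun w _ => ?_
  rw [← Finset.mul_sum, FP.sum_vals Y f w]

theorem E_xyz (x : κ) (F : ι → θ → ℝ) :
    P.E (fun u => ind (X u = x) * F (Y u) (Z u)) = ∑ y ∈ vals Y, ∑ z ∈ vals Z, lw3 P X Y Z x y z * F y z := by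
  have e1 : ∀ y ∈ vals Y, ∑ z ∈ vals Z, lw3 P X Y Z x y z * F y z =
      P.E fun w => ind (X w = x) * (ind (Y w = y) * F y (Z w)) := by
    intro y _
    have e2 : ∀ z ∈ vals Z, lw3 P X Y Z x y z * F y z =
        P.E fun w => ind (X w = x) * (ind (Y w = y) * (ind (Z w = z) * F y z)) := by
      intro z _
      unfold lw3
      rw [← P.E_mul_const]
      congr 1
      funext w
      ring
    rw [Finset.sum_congr rfl e2, ← P.E_sum]
    refine P.E_congr fun w _ => ?_
    rw [← Finset.mul_sum, ← Finset.mul_sum, FP.sum_vals Z (fun z => F y z) w]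
  rw [Finset.sum_congr rfl e1, ← P.E_sum]
  refine P.E_congr fun w _ => ?_
  rw [← Finset.mul_sum, FP.sum_vals Y (fun y => F y (Z w)) w]

/-- **the chain** : `g` a function of `(Y, Z)` which vanishes off the alive `Y`, under a value of `X` -/
theorem chain {x : κ} {TY : ι → Prop} {g : Om → ℝ} {k0 b k1 k2 : ℝ}
    (hg : ∀ u v, P.p u ≠ 0 → P.p v ≠ 0 → Y u = Y v → Z u = Z v → g u = g v) (g0 : ∀ u, 0 ≤ g u) (g1 : ∀ u, g u ≤ 1)
    (gT : ∀ u, P.p u ≠ 0 → ¬ TY (Y u) → g u = 0) (hk0 : 0 ≤ k0) (hb : 0 ≤ b) (hk2 : 0 ≤ k2)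
    (hT : ∀ y, TY y → ∑ z ∈ vals Z, |lw3 P X Y Z x y z - lw2 P X Y x y * lw P Z z| ≤
      k0 * lw2 P X Y x y + b * (lw P X x * lw P Y y))
    (hYZ : ∀ y, TY y → rowd P Y Z y ≤ k2 * lw P Y y)
    (hXY : ∀ f : ι → ℝ, (∀ y, 0 ≤ f y) → (∀ y, f y ≤ 1) →
      P.E (fun u => ind (X u = x) * f (Y u)) ≤ lw P X x * P.E (fun u => f (Y u)) + k1 * lw P X x) :
    P.E (fun u => ind (X u = x) * g u) ≤ lw P X x * (P.E g + k0 + b + k1 + k2) := by
  classical
  set G : ι → θ → ℝ := fun y z => if H : TY y ∧ ∃ u, P.p u ≠ 0 ∧ Y u = y ∧ Z u = z then g H.2.choose else 0 with hG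
  have G0 : ∀ y z, 0 ≤ G y z := by
    intro y z
    simp only [hG]
    split_ifs
    · exact g0 _
    · exact le_rfl
  have G1 : ∀ y z, G y z ≤ 1 := by
    intro y z
    simp only [hG]
    split_ifs
    · exact g1 _
    · exact zero_le_one
  have GT : ∀ y z, ¬ TY y → G y z = 0 := fun y z hy => dif_neg fun hh => hy hh.1
  have Gg : ∀ u, P.p u ≠ 0 → G (Y u) (Z u) = g u := by
    intro u hu
    by_cases hy : TY (Y u)
    · have H : TY (Y u) ∧ ∃ v, P.p v ≠ 0 ∧ Y v = Y u ∧ Z v = Z u := ⟨hy, u, hu, rfl, rfl⟩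
      have e : G (Y u) (Z u) = g H.2.choose := dif_pos H
      obtain ⟨a, b', c⟩ := H.2.choose_spec
      rw [e]
      exact hg _ _ a hu b' c
    · rw [GT _ _ hy, gT u hu hy]
  set f : ι → ℝ := fun y => ∑ z ∈ vals Z, lw P Z z * G y z with hf
  have f0 : ∀ y, 0 ≤ f y := fun y => Finset.sum_nonneg fun z _ => mul_nonneg (lw_nonneg P Z z) (G0 y z)
  have f1 : ∀ y, f y ≤ 1 := by
    intro y
    rw [← sum_lw_one P Z]
    refine Finset.sum_le_sum fun z _ => ?_
    have := mul_le_mul_of_nonneg_left (G1 y z) (lw_nonneg P Z z)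
    linarith
  have hx := lw_nonneg P X x
  have a1 : P.E (fun u => ind (X u = x) * g u) = ∑ y ∈ vals Y, ∑ z ∈ vals Z, lw3 P X Y Z x y z * G y z := by
    rw [← E_xyz]
    exact P.E_congr fun u hu => by rw [Gg u hu]
  have a2 : ∀ y ∈ vals Y, ∑ z ∈ vals Z, lw3 P X Y Z x y z * G y z ≤
      lw2 P X Y x y * f y + (k0 * lw2 P X Y x y + b * (lw P X x * lw P Y y)) := by
    intro y _
    have hl := lw2_nonneg P X Y x y
    have hly := lw_nonneg P Y y
    by_cases hy : TY y
    · have h1 : ∑ z ∈ vals Z, lw3 P X Y Z x y z * G y z ≤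
          ∑ z ∈ vals Z, (lw2 P X Y x y * (lw P Z z * G y z) + |lw3 P X Y Z x y z - lw2 P X Y x y * lw P Z z|) := by
        refine Finset.sum_le_sum fun z _ => ?_
        have h2 := le_abs_self (lw3 P X Y Z x y z - lw2 P X Y x y * lw P Z z)
        have h3 := mul_le_mul_of_nonneg_right h2 (G0 y z)
        have h4 := mul_le_mul_of_nonneg_left (G1 y z) (abs_nonneg (lw3 P X Y Z x y z - lw2 P X Y x y * lw P Z z))
        nlinarith
      refine h1.trans ?_
      rw [Finset.sum_add_distrib, ← Finset.mul_sum]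
      exact add_le_add le_rfl (hT y hy)
    · have h1 : ∑ z ∈ vals Z, lw3 P X Y Z x y z * G y z = 0 :=
        Finset.sum_eq_zero fun z _ => by rw [GT y z hy, mul_zero]
      rw [h1]
      have := mul_nonneg hl (f0 y)
      have := mul_nonneg hk0 hl
      have := mul_nonneg hb (mul_nonneg hx hly)
      linarith
  have a3 : ∑ y ∈ vals Y, (lw2 P X Y x y * f y + (k0 * lw2 P X Y x y + b * (lw P X x * lw P Y y))) =
      P.E (fun u => ind (X u = x) * f (Y u)) + (k0 * lw P X x + b * lw P X x) := by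
    rw [Finset.sum_add_distrib, Finset.sum_add_distrib, ← E_xy, ← Finset.mul_sum, ← Finset.mul_sum, ← Finset.mul_sum,
      sum_lw2_row, sum_lw_one, mul_one]
  have a4 : P.E (fun u => f (Y u)) ≤ P.E g + k2 := by
    have b1 : P.E (fun u => f (Y u)) = ∑ y ∈ vals Y, ∑ z ∈ vals Z, lw P Y y * lw P Z z * G y z := by
      rw [← sum_lw P Y f]
      refine Finset.sum_congr rfl fun y _ => ?_
      rw [hf]
      simp only
      rw [Finset.mul_sum]
      exact Finset.sum_congr rfl fun z _ => by ring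
    have b2 : P.E g = ∑ y ∈ vals Y, ∑ z ∈ vals Z, lw2 P Y Z y z * G y z := by
      rw [sum_lw2]
      exact P.E_congr fun u hu => (Gg u hu).symm
    have b3 : ∀ y ∈ vals Y, ∑ z ∈ vals Z, lw P Y y * lw P Z z * G y z ≤
        ∑ z ∈ vals Z, lw2 P Y Z y z * G y z + k2 * lw P Y y := by
      intro y _
      have hly := lw_nonneg P Y y
      by_cases hy : TY y
      · have h1 : ∑ z ∈ vals Z, lw P Y y * lw P Z z * G y z ≤
            ∑ z ∈ vals Z, (lw2 P Y Z y z * G y z + |lw2 P Y Z y z - lw P Y y * lw P Z z|) := by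
          refine Finset.sum_le_sum fun z _ => ?_
          have h2 := neg_abs_le (lw2 P Y Z y z - lw P Y y * lw P Z z)
          have h3 := mul_le_mul_of_nonneg_right h2 (G0 y z)
          have h4 := mul_le_mul_of_nonneg_left (G1 y z) (abs_nonneg (lw2 P Y Z y z - lw P Y y * lw P Z z))
          nlinarith
        refine h1.trans ?_
        rw [Finset.sum_add_distrib]
        exact add_le_add le_rfl (hYZ y hy)
      · have h1 : ∑ z ∈ vals Z, lw P Y y * lw P Z z * G y z = 0 :=
          Finset.sum_eq_zero fun z _ => by rw [GT y z hy, mul_zero]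
        have h2 : ∑ z ∈ vals Z, lw2 P Y Z y z * G y z = 0 :=
          Finset.sum_eq_zero fun z _ => by rw [GT y z hy, mul_zero]
        rw [h1, h2, zero_add]
        exact mul_nonneg hk2 hly
    rw [b1, b2]
    refine (Finset.sum_le_sum b3).trans (le_of_eq ?_)
    rw [Finset.sum_add_distrib, ← Finset.mul_sum, sum_lw_one, mul_one]
  have a5 := hXY f f0 f1
  have a6 := mul_le_mul_of_nonneg_left a4 hx
  rw [a1]
  refine (Finset.sum_le_sum a2).trans ?_
  rw [a3]
  nlinarith

end chn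

/-! ## letters with different numbers of codes in a public cell -/

section cell

variable {X β γ φ υ : Type} [Fintype X] [Fintype β] [Fintype φ] [Nonempty X] [Nonempty β]
variable {D : HD (Fin 3) X β γ φ} {al : ℝ} {h : D.Thick al} {v : ℕ → Finset (Fin 3) → X → (Fin 3 → β) → υ}

theorem NP_old {s s' n : ℕ} (h' : s' ≤ s) {a b : Pt (Fin 3) X β φ} (hab : NP D v s n a = NP D v s n b) :
    NP D v s' n a = NP D v s' n b :=
  Prod.ext (Um_older h' (congrArg Prod.fst hab)) (show nd D n a = nd D n b from congrArg Prod.snd hab)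

theorem XL_iffg (hv : Codes D v) {s s' n : ℕ} (hs : s ≤ n + 1) (h' : s' ≤ s) {c w : Pt (Fin 3) X β φ}
    (hw : NP D v s n w = NP D v s n c) (k : Fin 3) (z : β × List υ) :
    XL v s' k w = z ↔ w.2.1 k = z.1 ∧ Gl v s' c k z w.1 := XL_iff hv (h'.trans hs) (NP_old h' hw) k z

theorem Pc_g1 (hv : Codes D v) (t : ℕ) {s s' n : ℕ} (hs : s ≤ n + 1) (h' : s' ≤ s) (c : Pt (Fin 3) X β φ) (k : Fin 3)
    (z : β × List υ) : lw (Pc h v t s n c) (XL v s' k) z = mC D n c k z.1 * (muC D v s n c).Pr (Gl v s' c k z) := by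
  have h1 := Pc_E (h := h) hv t hs c (fun x => ind (Gl v s' c k z x)) (fun j b => if j = k then ind (b = z.1) else 1)
  have h2 : ∀ j, (nuC D n c j).E (fun b => if j = k then ind (b = z.1) else 1) = if j = k then mC D n c k z.1 else 1 := by
    intro j
    by_cases hj : j = k
    · subst hj; simp only [if_true]; rfl
    · simp only [hj, if_false]; exact FP.E_const _ _
  rw [Finset.prod_congr rfl fun j _ => h2 j, Finset.prod_ite_eq' univ k, if_pos (mem_univ k)] at h1
  rw [mul_comm]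
  refine Eq.trans ?_ h1
  refine FP.E_congr _ fun w hw => ?_
  rw [Finset.prod_ite_eq' univ k (fun j => ind (w.2.1 j = z.1)), if_pos (mem_univ k),
    ind_cg (XL_iffg hv hs h' (Pc_supp hv hs hw) k z), ind_and]
  ring

theorem Pc_g2 (hv : Codes D v) (t : ℕ) {s s1 s2 n : ℕ} (hs : s ≤ n + 1) (h1' : s1 ≤ s) (h2' : s2 ≤ s)
    (c : Pt (Fin 3) X β φ) {i k : Fin 3} (hik : i ≠ k) (z z' : β × List υ) :
    lw2 (Pc h v t s n c) (XL v s1 i) (XL v s2 k) z z' =
      mC D n c i z.1 * (mC D n c k z'.1 * (muC D v s n c).Pr fun x => Gl v s1 c i z x ∧ Gl v s2 c k z' x) := by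
  have h1 := Pc_E (h := h) hv t hs c (fun x => ind (Gl v s1 c i z x ∧ Gl v s2 c k z' x))
    (fun j b => (if j = i then ind (b = z.1) else 1) * (if j = k then ind (b = z'.1) else 1))
  have h2 : ∀ j, (nuC D n c j).E (fun b => (if j = i then ind (b = z.1) else 1) * (if j = k then ind (b = z'.1) else 1)) =
      (if j = i then mC D n c i z.1 else 1) * (if j = k then mC D n c k z'.1 else 1) := by
    intro j
    by_cases hj : j = i
    · subst hj
      simp only [if_true, hik, if_false, mul_one]; rfl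
    · by_cases hj' : j = k
      · subst hj'
        simp only [if_true, hj, if_false, one_mul]; rfl
      · simp only [hj, hj', if_false, one_mul]; exact FP.E_const _ _
  rw [Finset.prod_congr rfl fun j _ => h2 j, Finset.prod_mul_distrib, Finset.prod_ite_eq' univ i,
    Finset.prod_ite_eq' univ k, if_pos (mem_univ i), if_pos (mem_univ k)] at h1
  have h3 : mC D n c i z.1 * (mC D n c k z'.1 * (muC D v s n c).Pr fun x => Gl v s1 c i z x ∧ Gl v s2 c k z' x) =
      (muC D v s n c).E (fun x => ind (Gl v s1 c i z x ∧ Gl v s2 c k z' x)) * (mC D n c i z.1 * mC D n c k z'.1) := by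
    unfold FP.Pr; ring
  rw [h3]
  refine Eq.trans ?_ h1
  unfold lw2
  refine FP.E_congr _ fun w hw => ?_
  rw [Finset.prod_mul_distrib, Finset.prod_ite_eq' univ i (fun j => ind (w.2.1 j = z.1)),
    Finset.prod_ite_eq' univ k (fun j => ind (w.2.1 j = z'.1)), if_pos (mem_univ k), if_pos (mem_univ i),
    ind_cg (XL_iffg hv hs h2' (Pc_supp hv hs hw) k z'), ind_cg (XL_iffg hv hs h1' (Pc_supp hv hs hw) i z), ind_and, ind_and,
    ind_and]
  ring

theorem Pc_g3 (hv : Codes D v) (t : ℕ) {s s1 s2 s3 n : ℕ} (hs : s ≤ n + 1) (h1' : s1 ≤ s) (h2' : s2 ≤ s) (h3' : s3 ≤ s)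
    (c : Pt (Fin 3) X β φ) {i k m : Fin 3} (hik : i ≠ k) (him : i ≠ m) (hkm : k ≠ m) (z z' z'' : β × List υ) :
    lw3 (Pc h v t s n c) (XL v s1 i) (XL v s2 k) (XL v s3 m) z z' z'' =
      mC D n c i z.1 * (mC D n c k z'.1 * (mC D n c m z''.1 *
        (muC D v s n c).Pr fun x => (Gl v s1 c i z x ∧ Gl v s2 c k z' x) ∧ Gl v s3 c m z'' x)) := by
  have h1 := Pc_E (h := h) hv t hs c (fun x => ind ((Gl v s1 c i z x ∧ Gl v s2 c k z' x) ∧ Gl v s3 c m z'' x))
    (fun j b => (if j = i then ind (b = z.1) else 1) * ((if j = k then ind (b = z'.1) else 1) *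
      (if j = m then ind (b = z''.1) else 1)))
  have h2 : ∀ j, (nuC D n c j).E (fun b => (if j = i then ind (b = z.1) else 1) * ((if j = k then ind (b = z'.1) else 1) *
      (if j = m then ind (b = z''.1) else 1))) =
      (if j = i then mC D n c i z.1 else 1) * ((if j = k then mC D n c k z'.1 else 1) *
        (if j = m then mC D n c m z''.1 else 1)) := by
    intro j
    by_cases hj : j = i
    · subst hj
      simp only [if_true, hik, him, if_false, mul_one]; rfl
    · by_cases hj' : j = k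
      · subst hj'
        simp only [if_true, hj, hkm, if_false, one_mul, mul_one]; rfl
      · by_cases hj'' : j = m
        · subst hj''
          simp only [if_true, hj, hj', if_false, one_mul]; rfl
        · simp only [hj, hj', hj'', if_false, one_mul]; exact FP.E_const _ _
  rw [Finset.prod_congr rfl fun j _ => h2 j, Finset.prod_mul_distrib, Finset.prod_mul_distrib,
    Finset.prod_ite_eq' univ i, Finset.prod_ite_eq' univ k, Finset.prod_ite_eq' univ m, if_pos (mem_univ i),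
    if_pos (mem_univ k), if_pos (mem_univ m)] at h1
  have h3 : mC D n c i z.1 * (mC D n c k z'.1 * (mC D n c m z''.1 *
        (muC D v s n c).Pr fun x => (Gl v s1 c i z x ∧ Gl v s2 c k z' x) ∧ Gl v s3 c m z'' x)) =
      (muC D v s n c).E (fun x => ind ((Gl v s1 c i z x ∧ Gl v s2 c k z' x) ∧ Gl v s3 c m z'' x)) *
        (mC D n c i z.1 * (mC D n c k z'.1 * mC D n c m z''.1)) := by
    unfold FP.Pr; ring
  rw [h3]
  refine Eq.trans ?_ h1
  unfold lw3
  refine FP.E_congr _ fun w hw => ?_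
  rw [Finset.prod_mul_distrib, Finset.prod_mul_distrib, Finset.prod_ite_eq' univ i (fun j => ind (w.2.1 j = z.1)),
    Finset.prod_ite_eq' univ k (fun j => ind (w.2.1 j = z'.1)), Finset.prod_ite_eq' univ m (fun j => ind (w.2.1 j = z''.1)),
    if_pos (mem_univ k), if_pos (mem_univ i), if_pos (mem_univ m),
    ind_cg (XL_iffg hv hs h2' (Pc_supp hv hs hw) k z'), ind_cg (XL_iffg hv hs h1' (Pc_supp hv hs hw) i z),
    ind_cg (XL_iffg hv hs h3' (Pc_supp hv hs hw) m z''), ind_and, ind_and, ind_and, ind_and, ind_and]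
  ring

/-- distance of the letter `m` (all its codes) and the letter `k` (some codes) -/
theorem row_g2 (hv : Codes D v) (t : ℕ) {s s2 n : ℕ} (hs : s ≤ n + 1) (h2' : s2 ≤ s) (c : Pt (Fin 3) X β φ) {k m : Fin 3}
    (hkm : k ≠ m) (z : β × List υ) : rowd (Pc h v t s n c) (XL v s2 k) (XL v s m) z =
      mC D n c k z.1 * dvC D v s n c m (Gl v s2 c k z) := by
  unfold rowd dvC
  rw [Finset.mul_sum]
  refine Finset.sum_congr rfl fun z' _ => ?_
  rw [Pc_g2 hv t hs h2' le_rfl c hkm, Pc_g1 hv t hs h2', Pc_g1 hv t hs le_rfl]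
  have e : mC D n c k z.1 * (mC D n c m z'.1 * (muC D v s n c).Pr fun x => Gl v s2 c k z x ∧ Gl v s c m z' x) -
      mC D n c k z.1 * (muC D v s n c).Pr (Gl v s2 c k z) * (mC D n c m z'.1 * (muC D v s n c).Pr (Gl v s c m z')) =
      (mC D n c k z.1 * mC D n c m z'.1) * ((muC D v s n c).Pr (fun x => Gl v s2 c k z x ∧ Gl v s c m z' x) -
        (muC D v s n c).Pr (Gl v s2 c k z) * (muC D v s n c).Pr (Gl v s c m z')) := by ring
  rw [e, abs_mul, abs_of_nonneg (mul_nonneg (mC_nonneg n c k z.1) (mC_nonneg n c m z'.1))]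
  ring

theorem row_g3 (hv : Codes D v) (t : ℕ) {s s2 n : ℕ} (hs : s ≤ n + 1) (h2' : s2 ≤ s) (c : Pt (Fin 3) X β φ)
    {i k m : Fin 3} (hik : i ≠ k) (him : i ≠ m) (hkm : k ≠ m) (z z' : β × List υ) :
    ∑ z'' ∈ vals (XL (φ := φ) v s m), |lw3 (Pc h v t s n c) (XL v s i) (XL v s2 k) (XL v s m) z z' z'' -
      lw2 (Pc h v t s n c) (XL v s i) (XL v s2 k) z z' * lw (Pc h v t s n c) (XL v s m) z''| =
      mC D n c i z.1 * mC D n c k z'.1 * dvC D v s n c m (fun x => Gl v s c i z x ∧ Gl v s2 c k z' x) := by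
  unfold dvC
  rw [Finset.mul_sum]
  refine Finset.sum_congr rfl fun z'' _ => ?_
  rw [Pc_g3 hv t hs le_rfl h2' le_rfl c hik him hkm, Pc_g2 hv t hs le_rfl h2' c hik, Pc_g1 hv t hs le_rfl]
  have e : mC D n c i z.1 * (mC D n c k z'.1 * (mC D n c m z''.1 *
        (muC D v s n c).Pr fun x => (Gl v s c i z x ∧ Gl v s2 c k z' x) ∧ Gl v s c m z'' x)) -
      mC D n c i z.1 * (mC D n c k z'.1 * (muC D v s n c).Pr fun x => Gl v s c i z x ∧ Gl v s2 c k z' x) *
        (mC D n c m z''.1 * (muC D v s n c).Pr (Gl v s c m z'')) =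
      (mC D n c i z.1 * mC D n c k z'.1 * mC D n c m z''.1) *
      ((muC D v s n c).Pr (fun x => (Gl v s c i z x ∧ Gl v s2 c k z' x) ∧ Gl v s c m z'' x) -
        (muC D v s n c).Pr (fun x => Gl v s c i z x ∧ Gl v s2 c k z' x) * (muC D v s n c).Pr (Gl v s c m z'')) := by ring
  rw [e, abs_mul, abs_of_nonneg (mul_nonneg (mul_nonneg (mC_nonneg n c i z.1) (mC_nonneg n c k z'.1))
    (mC_nonneg n c m z''.1))]
  ring

theorem XL_take {s s2 : ℕ} (h2' : s2 ≤ s) (k : Fin 3) (u : Pt (Fin 3) X β φ) :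
    XL v s2 k u = ((XL v s k u).1, (XL v s k u).2.take s2) := by
  show (u.2.1 k, Um v s2 {k} u.1 u.2.1) = (u.2.1 k, (Um v s {k} u.1 u.2.1).take s2)
  unfold Um
  rw [← List.map_take, List.take_range, min_eq_left h2']

/-- **the test in a public cell** : `kap`, `B` from the distances of all events of the hidden point, the letters `x` of `i`
and of `k` alive -/
theorem cell_test (hv : Codes D v) (t : ℕ) {s s2 n : ℕ} (hs : s ≤ n + 1) (h2' : s2 ≤ s) (c : Pt (Fin 3) X β φ)
    {i k m : Fin 3} (hik : i ≠ k) (him : i ≠ m) (hkm : k ≠ m) {kap B L : ℝ} (hkap : 0 ≤ kap) (hB : 0 ≤ B) (hL : 0 ≤ L)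
    (hE : ∀ (j : Fin 3) (E : X → Prop), dvC D v s n c j E ≤ kap * (muC D v s n c).Pr E + B) {x : β × List υ}
    (hx : Real.exp (-L) ≤ (muC D v s n c).Pr (Gl v s c i x)) {g : Pt (Fin 3) X β φ → ℝ}
    (hg : ∀ a b, (Pc h v t s n c).p a ≠ 0 → (Pc h v t s n c).p b ≠ 0 → XL v s2 k a = XL v s2 k b →
      XL v s m a = XL v s m b → g a = g b) (g0 : ∀ u, 0 ≤ g u) (g1 : ∀ u, g u ≤ 1)
    (gT : ∀ u, (Pc h v t s n c).p u ≠ 0 →
      ¬ (Real.exp (-L) ≤ (muC D v s n c).Pr (Gl v s2 c k (XL v s2 k u))) → g u = 0) :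
    (Pc h v t s n c).E (fun u => ind (XL v s i u = x) * g u) ≤
      lw (Pc h v t s n c) (XL v s i) x * ((Pc h v t s n c).E g + 3 * (kap + B * Real.exp (2 * L))) := by
  classical
  set P := Pc h v t s n c with hP
  set μ := muC D v s n c with hμ
  have hl1 := Pc_g1 (h := h) hv t hs le_rfl c i x
  have hmi := mC_nonneg (D := D) n c i x.1
  have eL : Real.exp L * Real.exp (-L) = 1 := by rw [← Real.exp_add, add_neg_cancel, Real.exp_zero]
  have hexp := Real.exp_pos L
  have hexp1 : 1 ≤ Real.exp L := Real.one_le_exp hL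
  have e2L : Real.exp (2 * L) = Real.exp L * Real.exp L := by rw [← Real.exp_add]; congr 1; ring
  have bnd : ∀ {a q : ℝ}, 0 ≤ a → Real.exp (-L) ≤ q → a ≤ Real.exp L * (a * q) := by
    intro a q ha hq
    have h1 := mul_le_mul_of_nonneg_left hq (mul_nonneg hexp.le ha)
    have h2 : Real.exp L * a * Real.exp (-L) = a := by
      rw [mul_right_comm, eL, one_mul]
    nlinarith
  have hmx : mC D n c i x.1 ≤ Real.exp L * lw P (XL v s i) x := by
    rw [hl1]
    exact bnd hmi hx
  have hx0 : 0 ≤ lw P (XL v s i) x := lw_nonneg _ _ _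
  have hBe : 0 ≤ B * Real.exp L := mul_nonneg hB hexp.le
  have key := chain (P := P) (X := XL v s i) (Y := XL v s2 k) (Z := XL v s m) (x := x)
    (TY := fun y => Real.exp (-L) ≤ μ.Pr (Gl v s2 c k y)) (g := g) (k0 := kap) (b := B * Real.exp (2 * L))
    (k1 := kap + B * Real.exp L) (k2 := kap + B * Real.exp L) hg g0 g1 gT hkap (mul_nonneg hB (Real.exp_pos _).le)
    (add_nonneg hkap hBe) ?_ ?_ ?_
  · refine key.trans (mul_le_mul_of_nonneg_left ?_ hx0)
    have h1 : B * Real.exp L ≤ B * Real.exp (2 * L) :=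
      mul_le_mul_of_nonneg_left (Real.exp_le_exp.2 (by linarith)) hB
    linarith
  · intro y hy
    have hmk := mC_nonneg (D := D) n c k y.1
    have hl2 := Pc_g1 (h := h) hv t hs h2' c k y
    have hmy : mC D n c k y.1 ≤ Real.exp L * lw P (XL v s2 k) y := by
      rw [hl2]
      exact bnd hmk hy
    have hy0 : 0 ≤ lw P (XL v s2 k) y := lw_nonneg _ _ _
    rw [row_g3 hv t hs h2' c hik him hkm]
    have h1 := mul_le_mul_of_nonneg_left (hE m (fun x' => Gl v s c i x x' ∧ Gl v s2 c k y x')) (mul_nonneg hmi hmk)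
    refine h1.trans ?_
    rw [Pc_g2 hv t hs le_rfl h2' c hik x y, e2L]
    have h2 : mC D n c i x.1 * mC D n c k y.1 ≤ (Real.exp L * lw P (XL v s i) x) * (Real.exp L * lw P (XL v s2 k) y) :=
      mul_le_mul hmx hmy hmk (mul_nonneg hexp.le hx0)
    have h3 := mul_le_mul_of_nonneg_right h2 hB
    have h4 : B * (Real.exp L * Real.exp L) * (lw P (XL v s i) x * lw P (XL v s2 k) y) =
        (Real.exp L * lw P (XL v s i) x) * (Real.exp L * lw P (XL v s2 k) y) * B := by ring
    rw [h4]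
    nlinarith
  · intro y hy
    have hmk := mC_nonneg (D := D) n c k y.1
    have hl2 := Pc_g1 (h := h) hv t hs h2' c k y
    have hmy : mC D n c k y.1 ≤ Real.exp L * lw P (XL v s2 k) y := by
      rw [hl2]
      exact bnd hmk hy
    rw [row_g2 hv t hs h2' c hkm]
    have h1 := mul_le_mul_of_nonneg_left (hE m (Gl v s2 c k y)) hmk
    refine h1.trans ?_
    have h3 := mul_le_mul_of_nonneg_right hmy hB
    rw [hl2] at h3 ⊢
    nlinarith
  · intro f f0 f1
    set f' : β × List υ → ℝ := fun z => f (z.1, z.2.take s2) with hf'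
    have e1 : P.E (fun u => ind (XL v s i u = x) * f (XL v s2 k u)) =
        ∑ z ∈ vals (XL (φ := φ) v s k), lw2 P (XL v s i) (XL v s k) x z * f' z := by
      rw [← E_xy]
      exact P.E_congr fun u _ => by rw [XL_take h2' k u]
    have e2 : P.E (fun u => f (XL v s2 k u)) = ∑ z ∈ vals (XL (φ := φ) v s k), lw P (XL v s k) z * f' z := by
      rw [sum_lw]
      exact P.E_congr fun u _ => by rw [XL_take h2' k u]
    rw [e1, e2]
    have h1 : ∑ z ∈ vals (XL (φ := φ) v s k), lw2 P (XL v s i) (XL v s k) x z * f' z ≤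
        ∑ z ∈ vals (XL (φ := φ) v s k), (lw P (XL v s i) x * (lw P (XL v s k) z * f' z) +
          |lw2 P (XL v s i) (XL v s k) x z - lw P (XL v s i) x * lw P (XL v s k) z|) := by
      refine Finset.sum_le_sum fun z _ => ?_
      have h2 := le_abs_self (lw2 P (XL v s i) (XL v s k) x z - lw P (XL v s i) x * lw P (XL v s k) z)
      have h3 := mul_le_mul_of_nonneg_right h2 (f0 (z.1, z.2.take s2))
      have h4 := mul_le_mul_of_nonneg_left (f1 (z.1, z.2.take s2))
        (abs_nonneg (lw2 P (XL v s i) (XL v s k) x z - lw P (XL v s i) x * lw P (XL v s k) z))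
      simp only [hf']
      nlinarith
    refine h1.trans ?_
    rw [Finset.sum_add_distrib, ← Finset.mul_sum]
    refine add_le_add le_rfl ?_
    have h5 := row_g2 (h := h) hv t hs le_rfl c hik x
    unfold rowd at h5
    rw [h5]
    have h6 := mul_le_mul_of_nonneg_left (hE k (Gl v s c i x)) hmi
    refine h6.trans ?_
    have h7 := mul_le_mul_of_nonneg_right hmx hB
    rw [hl1] at h7 ⊢
    nlinarith

variable (h v) in
/-- the letter of `k` with `s2` codes is alive in the public class `(s, n)` -/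
def alv (t s2 s n : ℕ) (L : ℝ) (k : Fin 3) (w : Pt (Fin 3) X β φ) : Prop :=
  Real.exp (-L) * (D.P h t).m (fun u => (u.2.1 k, NP D v s n u)) w ≤ (D.P h t).m (fun u => (XL v s2 k u, NP D v s n u)) w

theorem alv_fac (t s2 s n : ℕ) (L : ℝ) (k : Fin 3) : Fac (fun u => (XL v s2 k u, NP D v s n u)) (alv h v t s2 s n L k) := by
  intro a b hab
  have h1 := (Prod.mk.inj hab).1
  have h2 := (Prod.mk.inj hab).2
  have h3 : a.2.1 k = b.2.1 k := congrArg Prod.fst h1
  unfold alv
  rw [(D.P h t).Fac_m (fun u => (XL v s2 k u, NP D v s n u)) a b hab,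
    (D.P h t).Fac_m (fun u => (u.2.1 k, NP D v s n u)) a b (Prod.ext h3 h2)]

theorem m_pt (hv : Codes D v) (t : ℕ) {s n : ℕ} (hs : s ≤ n + 1) {c w : Pt (Fin 3) X β φ}
    (hw : NP D v s n w = NP D v s n c) (k : Fin 3) :
    (D.P h t).m (fun u => (u.2.1 k, NP D v s n u)) w =
      (D.P h t).Pr (fun u => NP D v s n u = NP D v s n c) * mC D n c k (w.2.1 k) := by
  have h1 := Pc_E (h := h) hv t hs c (fun _ => 1) (fun j b => if j = k then ind (b = w.2.1 k) else 1)
  have h2 : ∀ j, (nuC D n c j).E (fun b => if j = k then ind (b = w.2.1 k) else 1) =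
      if j = k then mC D n c k (w.2.1 k) else 1 := by
    intro j
    by_cases hj : j = k
    · subst hj; simp only [if_true]; rfl
    · simp only [hj, if_false]; exact FP.E_const _ _
  rw [Finset.prod_congr rfl fun j _ => h2 j, Finset.prod_ite_eq' univ k, if_pos (mem_univ k), FP.E_const, one_mul] at h1
  rw [← h1]
  unfold Pc
  rw [FP.Pr_mul_cond_E (cell_ne hv t hs c)]
  unfold FP.m
  refine FP.E_congr _ fun u _ => ?_
  rw [Finset.prod_ite_eq' univ k (fun j => ind (u.2.1 j = w.2.1 k)), if_pos (mem_univ k), one_mul, ← ind_and]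
  refine ind_cg ?_
  rw [Prod.mk.injEq, hw]
  exact and_comm

theorem m_XL (hv : Codes D v) (t : ℕ) {s s2 n : ℕ} (hs : s ≤ n + 1) {c w : Pt (Fin 3) X β φ}
    (hw : NP D v s n w = NP D v s n c) (k : Fin 3) :
    (D.P h t).m (fun u => (XL v s2 k u, NP D v s n u)) w =
      (D.P h t).Pr (fun u => NP D v s n u = NP D v s n c) * lw (Pc h v t s n c) (XL v s2 k) (XL v s2 k w) := by
  unfold Pc lw
  rw [FP.Pr_mul_cond_E (cell_ne hv t hs c)]
  unfold FP.m
  refine FP.E_congr _ fun u _ => ?_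
  rw [← ind_and]
  refine ind_cg ?_
  rw [Prod.mk.injEq, hw]
  exact and_comm

theorem alv_iff (hv : Codes D v) (t : ℕ) {s s2 n : ℕ} (hs : s ≤ n + 1) (h2' : s2 ≤ s) {c w : Pt (Fin 3) X β φ}
    (hw : NP D v s n w = NP D v s n c) (L : ℝ) (k : Fin 3) :
    alv h v t s2 s n L k w ↔ Real.exp (-L) ≤ (muC D v s n c).Pr (Gl v s2 c k (XL v s2 k w)) := by
  have hM : 0 < (D.P h t).Pr (fun u => NP D v s n u = NP D v s n c) :=
    lt_of_le_of_ne (FP.Pr_nonneg _ _) (Ne.symm (cell_ne hv t hs c))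
  have hm : 0 < mC D n c k (w.2.1 k) := by
    have h3 : cY D n c k (w.2.1 k) := ((NP_iff hv hs c w).1 hw).2 k
    have h4 : (nuC D n c k).p (w.2.1 k) ≠ 0 := by
      unfold nuC
      refine (FP.cond_p_ne (unif_ne (cY_self n c k))).2 ⟨h3, ?_⟩
      show (Fintype.card β : ℝ)⁻¹ ≠ 0
      exact inv_ne_zero (by exact_mod_cast Fintype.card_ne_zero)
    exact FP.Pr_pos_of (P := nuC D n c k) (S := fun b => b = w.2.1 k) h4 rfl
  unfold alv
  rw [m_pt hv t hs hw, m_XL hv t hs hw, Pc_g1 hv t hs h2']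
  have e1 : (XL v s2 k w).1 = w.2.1 k := rfl
  rw [e1]
  constructor
  · intro hh
    have h5 : ((D.P h t).Pr (fun u => NP D v s n u = NP D v s n c) * mC D n c k (w.2.1 k)) * Real.exp (-L) ≤
        ((D.P h t).Pr (fun u => NP D v s n u = NP D v s n c) * mC D n c k (w.2.1 k)) *
          (muC D v s n c).Pr (Gl v s2 c k (XL v s2 k w)) := by linarith
    exact le_of_mul_le_mul_left h5 (mul_pos hM hm)
  · intro hh
    have h5 := mul_le_mul_of_nonneg_left hh (mul_pos hM hm).le
    linarith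

/-- **the test as conditional expectations** -/
theorem ce_test (hv : Codes D v) (t : ℕ) {s s2 s3 n : ℕ} (hs : s ≤ n + 1) (h2' : s2 ≤ s) (h3' : s3 ≤ s)
    {i k m : Fin 3} (hik : i ≠ k) (him : i ≠ m) (hkm : k ≠ m) {kap B L : ℝ} (hkap : 0 ≤ kap) (hB : 0 ≤ B) (hL : 0 ≤ L)
    {w : Pt (Fin 3) X β φ} (hw : (D.P h t).p w ≠ 0)
    (hE : ∀ (j : Fin 3) (E : X → Prop), dvC D v s n w j E ≤ kap * (muC D v s n w).Pr E + B)
    (hi : alv h v t s s n L i w) {g : Pt (Fin 3) X β φ → ℝ}
    (hg : Fac (fun u => (XL v s2 k u, XL v s3 m u, NP D v s n u)) g) (g0 : ∀ u, 0 ≤ g u) (g1 : ∀ u, g u ≤ 1) :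
    (D.P h t).ce (fun u => (XL v s i u, NP D v s n u)) (fun u => ind (alv h v t s2 s n L k u) * g u) w ≤
      (D.P h t).ce (NP D v s n) g w + 3 * (kap + B * Real.exp (2 * L)) := by
  classical
  set P := Pc h v t s n w with hP
  have hM : (D.P h t).Pr (fun u => NP D v s n u = NP D v s n w) ≠ 0 := cell_ne hv t hs w
  have key := cell_test (h := h) hv t hs h2' w hik him hkm hkap hB hL hE (x := XL v s i w)
    ((alv_iff hv t hs le_rfl rfl L i).1 hi) (g := fun u => ind (alv h v t s2 s n L k u) * g u) ?_ ?_ ?_ ?_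
  · have e1 : (D.P h t).ce (fun u => (XL v s i u, NP D v s n u)) (fun u => ind (alv h v t s2 s n L k u) * g u) w =
        P.E (fun u => ind (XL v s i u = XL v s i w) * (ind (alv h v t s2 s n L k u) * g u)) /
          lw P (XL v s i) (XL v s i w) := by
      unfold FP.ce
      rw [m_XL hv t hs (rfl : NP D v s n w = NP D v s n w)]
      have e2 : (D.P h t).E (fun u => ind ((XL v s i u, NP D v s n u) = (XL v s i w, NP D v s n w)) *
          (ind (alv h v t s2 s n L k u) * g u)) = (D.P h t).Pr (fun u => NP D v s n u = NP D v s n w) *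
          P.E (fun u => ind (XL v s i u = XL v s i w) * (ind (alv h v t s2 s n L k u) * g u)) := by
        rw [hP]
        unfold Pc
        rw [FP.Pr_mul_cond_E hM]
        refine FP.E_congr _ fun u _ => ?_
        rw [Prod.mk.injEq, ind_and]
        ring
      rw [e2, mul_div_mul_left _ _ hM]
    have hl : 0 < lw P (XL v s i) (XL v s i w) := by
      rw [hP]
      unfold Pc
      rw [lw_cell (D.P h t) (XL v s i) (NP D v s n) hw]
      exact div_pos ((D.P h t).m_pos _ hw) ((D.P h t).m_pos _ hw)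
    rw [e1, div_le_iff₀ hl]
    refine key.trans (le_of_eq_of_le (mul_comm _ _) (mul_le_mul_of_nonneg_right ?_ hl.le))
    refine add_le_add ?_ le_rfl
    rw [(D.P h t).ce_eq_cond (NP D v s n) g hw]
    refine FP.E_mono _ fun u _ => ?_
    have h1 := mul_le_mul_of_nonneg_right (ind_le_one (alv h v t s2 s n L k u)) (g0 u)
    linarith
  · intro a b ha hb hk hm
    have na : NP D v s n a = NP D v s n b := (Pc_supp hv hs ha).trans (Pc_supp hv hs hb).symm
    have h1 : alv h v t s2 s n L k a = alv h v t s2 s n L k b := alv_fac t s2 s n L k a b (Prod.ext hk na)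
    have h2 : XL v s3 m a = XL v s3 m b := by rw [XL_take h3' m a, XL_take h3' m b, hm]
    have h3 : g a = g b := hg a b (Prod.ext hk (Prod.ext h2 na))
    simp only [h1, h3]
  · exact fun u => mul_nonneg (ind_nonneg _) (g0 u)
  · intro u
    have h1 := mul_le_mul_of_nonneg_right (ind_le_one (alv h v t s2 s n L k u)) (g0 u)
    have h2 := g1 u
    linarith
  · intro u hu hn
    have h1 : ¬ alv h v t s2 s n L k u := fun hh => hn ((alv_iff hv t hs h2' (Pc_supp hv hs hu) L k).1 hh)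
    simp only [ind_not h1, zero_mul]

/-- the alive letter does not see the labels and the time of the law -/
theorem alv_time (t t' s2 s n : ℕ) (L : ℝ) (k : Fin 3) {w w' : Pt (Fin 3) X β φ} (h1 : w.1 = w'.1) (h2 : w.2.1 = w'.2.1) :
    alv h v t s2 s n L k w ↔ alv h v t' s2 s n L k w' := by
  have d1 : Dead.Dry (fun u : Pt (Fin 3) X β φ => (u.2.1 k, NP D v s n u)) := fun a b e1 e2 => by
    unfold NP nd
    simp only [e1, e2]
  have d2 : Dead.Dry (fun u : Pt (Fin 3) X β φ => (XL v s2 k u, NP D v s n u)) := fun a b e1 e2 => by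
    unfold XL NP nd
    simp only [e1, e2]
  unfold alv
  rw [Dead.m_time h d1 t t' w, Dead.m_time h d2 t t' w,
    (D.P h t').Fac_m (fun u => (u.2.1 k, NP D v s n u)) w w' (d1 w w' h1 h2),
    (D.P h t').Fac_m (fun u => (XL v s2 k u, NP D v s n u)) w w' (d2 w w' h1 h2)]

/-- alive from the surprisal -/
theorem alv_sp (t s2 s n : ℕ) {L : ℝ} (k : Fin 3) {w : Pt (Fin 3) X β φ} (hw : (D.P h t).p w ≠ 0)
    (hs : sp (D.P h t) (XL v s2 k) (fun u => (u.2.1 k, NP D v s n u)) w ≤ L) : alv h v t s2 s n L k w := by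
  unfold alv
  unfold sp at hs
  have e1 : (D.P h t).m (fun u => (XL v s2 k u, (u.2.1 k, NP D v s n u))) w =
      (D.P h t).m (fun u => (XL v s2 k u, NP D v s n u)) w :=
    FP.m_congr (P := D.P h t) (X := fun u => (XL v s2 k u, (u.2.1 k, NP D v s n u)))
      (Y := fun u => (XL v s2 k u, NP D v s n u))
      (fun a b hab => by simp only [Prod.mk.injEq] at hab ⊢; exact ⟨hab.1, hab.2.2⟩)
      (fun a b hab => by
        simp only [Prod.mk.injEq] at hab ⊢
        exact ⟨hab.1, congrArg Prod.fst hab.1, hab.2⟩) w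
  rw [e1] at hs
  have p1 := (D.P h t).m_pos (fun u => (u.2.1 k, NP D v s n u)) hw
  have p2 := (D.P h t).m_pos (fun u => (XL v s2 k u, NP D v s n u)) hw
  rw [← Real.exp_log p1, ← Real.exp_log p2, ← Real.exp_add]
  exact Real.exp_le_exp.2 (by linarith)

end cell

/-! ## the run -/

section run

open Pool.Agent.GMH.TP Pool.Agent.GMH.Dy Pool.Agent.GMH.MV Pool.Agent.GMH.MVI Pool.Agent.GMH.MV8

variable {X β γ φ : Type} [Fintype X] [Fintype β] [Fintype φ] [Nonempty X] [Nonempty β]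
variable {D : HD (Fin 3) X β γ φ} {al : ℝ} {h : D.Thick al} {N : Finset (Fin 3) → ℝ} {S : Finset (Finset (Fin 3))}
  {v : ℕ → Finset (Fin 3) → X → (Fin 3 → β) → Pt (Fin 3) X β φ}
  {prr : ℕ → Fin 3 → φ → φ} {T : ℕ} {W : Type} [Fintype W]

/-- states at a private code -/
theorem q_facts {t j : ℕ} (hj : 2 ≤ j) (hj4 : j ≤ 4) {i : Fin 3} (hi : rk {i} = j) :
    nc (5 * t + j) ∅ = t + 2 ∧ TP.nn (5 * t + j) = t + 1 ∧ nc (5 * t + j + 1) {i} = t + 2 ∧
      nc (5 * t + j + 1) ∅ = t + 2 ∧ TP.nn (5 * t + j + 1) = t + 1 ∧ ∀ k : Fin 3, nc (5 * t + j) {k} ≤ t + 2 := by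
  have he : rk ∅ = 1 := if_pos rfl
  have p0 : pth (∅ : Finset (Fin 3)) := by unfold pth; simp
  have p1 : ∀ k : Fin 3, pth ({k} : Finset (Fin 3)) := fun k => by unfold pth; simp
  refine ⟨?_, ?_, ?_, ?_, ?_, fun k => ?_⟩
  · rw [nc_add t j p0 (by omega)]
    unfold ncj
    rw [he, if_pos (by omega)]
  · rw [nn_add t j (by omega)]
    unfold nnj
    rw [if_neg (by omega)]
  · rw [show 5 * t + j + 1 = 5 * t + (j + 1) by omega, nc_add t (j + 1) (p1 i) (by omega)]
    unfold ncj
    rw [hi, if_pos (by omega)]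
  · rw [show 5 * t + j + 1 = 5 * t + (j + 1) by omega, nc_add t (j + 1) p0 (by omega)]
    unfold ncj
    rw [he, if_pos (by omega)]
  · rw [show 5 * t + j + 1 = 5 * t + (j + 1) by omega, nn_add t (j + 1) (by omega)]
    unfold nnj
    rw [if_neg (by omega)]
  · rw [nc_add t j (p1 k) (by omega)]
    unfold ncj
    split_ifs <;> omega

/-- the letter of `k` at the state `q = 5 t + j` is alive (law and public class of the level) -/
def alq (h : D.Thick al) (v : ℕ → Finset (Fin 3) → X → (Fin 3 → β) → Pt (Fin 3) X β φ) (tb : Tab D prr T W) (t q : ℕ) (L : ℝ)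
    (k : Fin 3) (w : Om W X β) : Prop :=
  alv h v (t + 1) (nc q {k}) (t + 2) (t + 1) L k (tb.pt (t + 1) w)

/-- **THE HYPOTHESIS OF MV8 ON THE RUN** -/
theorem ht_raw (R : Run h N S (AdmDep D) v) (hN : ∀ J ∈ S, 0 ≤ N J) (h0 : ∅ ∈ S) (hS1 : ∀ i : Fin 3, {i} ∈ S)
    (hN0 : N ∅ = 1) {N1 : ℝ} (hN1 : ∀ i : Fin 3, N1 ≤ N {i}) (hN1p : 0 < N1) (tb : Tab D prr T W) {t j : ℕ}
    (ht : t + 1 ≤ T) (hj : 2 ≤ j) (hj4 : j ≤ 4) {i k m : Fin 3} (hi : rk {i} = j) (hik : i ≠ k) (him : i ≠ m)
    (hkm : k ≠ m) {L a : ℝ} (hL : 0 ≤ L) {w : Om W X β} (hw : tb.Ps.p w ≠ 0)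
    (hal : alq h v tb t (5 * t + j + 1) L i w) {g : Om W X β → ℝ}
    (hg : Fac (fun u => ((fun c => if c = i then Option.none else some (XLo tb v c (5 * t + j) u) : Fin 3 → Option _),
      NPo tb v (5 * t + j) u)) g) (g0 : ∀ u, 0 ≤ g u) (g1 : ∀ u, g u ≤ 1) :
    tb.Ps.ce (fun u => (XLo tb v i (5 * t + j + 1) u, NPo tb v (5 * t + j + 1) u))
      (fun u => ind (alq h v tb t (5 * t + j) L k u) * g u) w ≤
      tb.Ps.ce (NPo tb v (5 * t + j)) g w + 3 * (Real.sqrt (4 * (a + 1) / N1) + 2 * Real.exp (-a) * Real.exp (2 * L)) := by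
  classical
  obtain ⟨q1, q2, q3, q4, q5, q6⟩ := q_facts (t := t) hj hj4 hi
  set q := 5 * t + j with hq
  have H : Pul tb.Ps (D.P h (t + 1)) (tb.pt (t + 1)) := pul_pt (h := h) tb ht
  set π := tb.pt (t + 1) with hπ
  set Y : Pt (Fin 3) X β φ → _ := fun p => (XL v (nc q {k}) k p, XL v (nc q {m}) m p, NP D v (t + 2) (t + 1) p) with hY
  have hgY : Fac (fun u => Y (π u)) g := by
    intro a b hab
    simp only [hY, Prod.mk.injEq] at hab
    refine hg a b ?_
    refine Prod.ext (funext fun c => ?_) ?_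
    · by_cases hc : c = i
      · simp only [if_pos hc]
      · simp only [if_neg hc]
        have hc' : c = k ∨ c = m := by
          have key : ∀ i k m c : Fin 3, i ≠ k → i ≠ m → k ≠ m → c ≠ i → c = k ∨ c = m := by decide
          exact key i k m c hik him hkm hc
        rcases hc' with rfl | rfl
        · exact congrArg some hab.1
        · exact congrArg some hab.2.1
    · show NP D v (nc q ∅) (TP.nn q) (π a) = NP D v (nc q ∅) (TP.nn q) (π b)
      rw [q1, q2]
      exact hab.2.2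
  obtain ⟨g', f1, f2, f3⟩ := exists_pull_nn (X := Y) (pi := π) hgY g0
  set g'' : Pt (Fin 3) X β φ → ℝ := fun p => min (g' p) 1 with hg''
  have e1 : ∀ u, g u = g'' (π u) := fun u => by
    show g u = min (g' (π u)) 1
    rw [← f2 u, min_eq_left (g1 u)]
  have k1 : ∀ (c : Fin 3) (E : X → Prop), dvC D v (t + 2) (t + 1) (π w) c E ≤
      Real.sqrt (4 * (a + 1) / N1) * (muC D v (t + 2) (t + 1) (π w)).Pr E + 2 * Real.exp (-a) := fun c E =>
    dvC_all R hN h0 hS1 hN0 hN1 hN1p (t + 1) (H.ne hw) c a E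
  have hal' : alv h v (t + 1) (t + 2) (t + 2) (t + 1) L i (π w) := by
    unfold alq at hal
    rw [q3] at hal
    exact hal
  have key := ce_test (h := h) R.codes (t + 1) (s := t + 2) (s2 := nc q {k}) (s3 := nc q {m}) (n := t + 1) le_rfl (q6 k)
    (q6 m) hik him hkm (Real.sqrt_nonneg _) (by positivity) hL (H.ne hw) k1 hal' (g := g'')
    (fun a b hab => by
      show min (g' a) 1 = min (g' b) 1
      rw [f1 a b hab]) (fun u => le_min (f3 u) zero_le_one) (fun u => min_le_right _ _)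
  have e2 : tb.Ps.ce (fun u => (XLo tb v i (q + 1) u, NPo tb v (q + 1) u))
      (fun u => ind (alq h v tb t q L k u) * g u) w =
      (D.P h (t + 1)).ce (fun u => (XL v (t + 2) i u, NP D v (t + 2) (t + 1) u))
        (fun u => ind (alv h v (t + 1) (nc q {k}) (t + 2) (t + 1) L k u) * g'' u) (π w) := by
    rw [← H.ce]
    have e3 : (fun u => (XLo tb v i (q + 1) u, NPo tb v (q + 1) u)) =
        fun u => (XL v (t + 2) i (π u), NP D v (t + 2) (t + 1) (π u)) := by
      funext u
      show (XL v (nc (q + 1) {i}) i (π u), NP D v (nc (q + 1) ∅) (TP.nn (q + 1)) (π u)) = _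
      rw [q3, q4, q5]
    rw [e3]
    exact tb.Ps.ce_congr (fun u _ => by rw [e1 u]; rfl) w
  have e4 : tb.Ps.ce (NPo tb v q) g w = (D.P h (t + 1)).ce (NP D v (t + 2) (t + 1)) g'' (π w) := by
    rw [← H.ce]
    have e5 : NPo tb v q = fun u => NP D v (t + 2) (t + 1) (π u) := by
      funext u
      show NP D v (nc q ∅) (TP.nn q) (π u) = _
      rw [q1, q2]
    rw [e5]
    exact tb.Ps.ce_congr (fun u _ => e1 u) w
  rw [e2, e4]
  exact key

end run

end

end Pool.Agent.GMH.MV8R
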