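import Pool.Agent.GMH.MovU

/-!
# GMH/MovB (helper2): the part `V` with the release bit `s_C ≤ σ` (H3.MOV, M.7 (a)), one world

As `GMH/MovU`, the released set is `Vc` and `s_C ≤ σ` (ONE BIT of the exact `c`), whatever the sampled rows did before.
* `bit_pt`, `bit_world` : `L E 1[Vc, not sC(σ)] G(σ) + E 1[Rm, Vc, sC(σ)] F` has the bound of `MovU.mov_world`.
-/

set_option autoImplicit false
set_option linter.unusedSectionVars false

namespace Pool.Agent.GMH.MovB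

open Finset Pool.Agent.PWZ Pool.Agent.M3 Pool.Agent.GMH.Gdy Pool.Agent.GMH.CR Pool.Agent.GMH.MovU

noncomputable section

variable {Om : Type*} [Fintype Om] {P : FP Om} {κ κ' : ℕ → Type*} {cU : ∀ t, Om → κ t} {cV : ∀ t, Om → κ' t}
  {α ω : Type*} {U : Om → α} {V : Om → ω} {Vc : α → Prop} {F : α → ω → ℝ} {u lam L K y0 : ℝ}
  {σ : Om → ℕ} {T : ℕ} {Rm Bd : Om → Prop}

/-- **THE PART `V`, ONE WORLD, one sample, release bit** -/
theorem bit_pt (hI : P.Indep U V) (hU : ∀ s, Fac U (cU s)) (hV : ∀ s, Fac V (cV s)) (fU : Filt cU) (fV : Filt cV)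
    (hL : ∀ c y, F c y ≤ L) (hL0 : 0 ≤ L) (hK : ∀ c y, - K ≤ F c y) (hK0 : 0 ≤ K) (hlam : 0 < lam) (hu : 0 < u) {h : ℝ}
    (hh : 0 ≤ h) {M : ℕ} (x : Fin M → α) (hσ : Stp (pair cU cV) σ) (hT : ∀ w, σ w < T)
    (hm : ∀ s w, P.p w ≠ 0 → P.m (cU s) w ≤ h * P.m (cU (s + 1)) w)
    {G : ℕ → Om → ℝ} (hG : ∀ s, Fac (fun w => (pair cV cU s w, V w)) (G s)) (hG0 : ∀ s w, 0 ≤ G s w)
    {gY : Om → ℝ} (hg0 : ∀ w, P.p w ≠ 0 → 0 ≤ gY w)
    (hg : ∀ i w, P.p w ≠ 0 → ru P cV V F (x i) (σ w) w - lam / 2 ≤ gY w)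
    (hR : ∀ t v w, pair cU cV t v = pair cU cV t w → σ v = t → (Rm v ↔ Rm w))
    (he : ∀ w, P.p w ≠ 0 → ¬ Rm w → cp P cU (σ w) (fun v => Vc (U v)) w ≤ y0 + ind (Bd w)) (h0 : 0 ≤ y0)
    (hy : y0 ≤ u / 4) :
    L * P.E (fun w => ind (Vc (U w) ∧ ¬ sC P cU U Vc u (σ w) w) * G (σ w) w) +
        P.E (fun w => ind (Rm w ∧ (Vc (U w) ∧ sC P cU U Vc u (σ w) w)) * F (U w) (V w)) ≤
      L * (u / 2) * P.E (fun w => G (σ w) w) +
        (lam + (lam + K) * (4 * y0 / u)) * P.Pr (fun w => Vc (U w) ∧ Rm w) +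
        2 * (lam + K) * P.Pr Bd + L * (h * u / lam) * P.E gY +
        L * (P.Pr (fd P cV U V F lam x T) + P.Pr (fun w => dY P cV V F lam x 0 w)) := by
  have hcov : ∀ w, cov P cU u (HU U Vc) 1 (σ w + 1) w ↔ Vc (U w) ∧ sC P cU U Vc u (σ w) w := by
    intro w
    rw [cov_iff fU (σ w + 1)]
    refine and_congr_right fun _ => exists_congr fun s => ?_
    exact and_congr_left fun _ => Nat.lt_succ_iff
  have hrl : ∀ w, rl P cU cV V F u lam (HU U Vc) 1 x (σ w + 1) w → cov P cU u (HU U Vc) 1 (σ w + 1) w := by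
    rintro w ⟨s, hs, hn, _⟩
    exact cov_mono (by omega) hn.1
  -- no bad column
  have hb : ∀ w, ¬ badV P cU V U (fun _ a => Vc a) u (HU U Vc) 1 T w := fun w => badV_not hu T w
  have h1 := unc1 (P := P) (R := fun a _ => Vc a) (HU := HU U Vc) (M' := 1) hI hU hV fU fV HU_fac hu hσ hT hG hG0
  have h1' : P.E (fun w => ind (badV P cU V U (fun _ a => Vc a) u (HU U Vc) 1 T w) * G (σ w) w) = 0 := by
    rw [P.E_congr (g := fun _ => (0 : ℝ)) fun w _ => by rw [ind_not (hb w), zero_mul]]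
    exact P.E_const 0
  have h2 := rl_le (P := P) (F := F) (u := u) (lam := lam) (HU := HU U Vc) (M' := 1) hI hU hV fU fV hL hL0 hlam.le HU_fac
    x hσ hT
  have h3 := late_le (P := P) (F := F) (R := fun a _ => Vc a) (lam := lam) (HU := HU U Vc) (M' := 1) hI hU hV fU fV
    HU_fac hu hh hm x hσ hT
  have h3' : P.Pr (badV P cU V U (fun _ a => Vc a) u (HU U Vc) 1 T) = 0 := by
    unfold FP.Pr
    rw [P.E_congr (g := fun _ => (0 : ℝ)) fun w _ => ind_not (hb w)]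
    exact P.E_const 0
  have h4 := pay_le (P := P) (F := F) (lam := lam) hI hU hV fU fV x hσ hT hg0 hg
  set Y : ℝ := P.Pr (fun w => (sC P cU U Vc u (σ w) w ∧ ¬ Rm w) ∧ Vc (U w)) with hYd
  set pR : ℝ := P.Pr (fun w => Vc (U w) ∧ Rm w) with hpR
  set pS : ℝ := P.Pr (fun w => sC P cU U Vc u (σ w) w) with hpS
  set pL : ℝ := P.Pr (fun w => Vc (U w) ∧ ∃ s ≤ σ w, fY P cV V F lam x s w ∧ ¬ cov P cU u (HU U Vc) 1 s w) with hpL
  set pD : ℝ := P.Pr (fun w => dY P cV V F lam x (σ w) w) with hpD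
  -- the numbers
  have hZ1 : P.Pr (fun w => rl P cU cV V F u lam (HU U Vc) 1 x (σ w + 1) w) ≤ pR + Y := by
    rw [hpR, hYd]
    unfold FP.Pr
    rw [← FP.E_add]
    refine P.E_mono fun w _ => ?_
    by_cases hc : rl P cU cV V F u lam (HU U Vc) 1 x (σ w + 1) w
    · have h2 := (hcov w).1 (hrl w hc)
      rw [ind_of hc]
      by_cases hr : Rm w
      · rw [ind_of (show Vc (U w) ∧ Rm w from ⟨h2.1, hr⟩)]
        have := ind_nonneg ((sC P cU U Vc u (σ w) w ∧ ¬ Rm w) ∧ Vc (U w))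
        linarith
      · rw [ind_of (show (sC P cU U Vc u (σ w) w ∧ ¬ Rm w) ∧ Vc (U w) from ⟨⟨h2.2, hr⟩, h2.1⟩)]
        have := ind_nonneg (Vc (U w) ∧ Rm w)
        linarith
    · rw [ind_not hc]
      exact add_nonneg (ind_nonneg _) (ind_nonneg _)
  have hY1 : Y ≤ y0 * pS + P.Pr Bd := end_le hI hU hV fU fV hσ hT hR he h0
  have hS1 : u / 4 * pS ≤ pR + P.Pr Bd := cnt_le hI hU hV fU fV hσ hT hR he h0 hy
  have hY2 : Y ≤ 4 * y0 / u * pR + 2 * P.Pr Bd := by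
    have h2 : y0 * pS ≤ 4 * y0 / u * (pR + P.Pr Bd) := by
      have h3 := mul_le_mul_of_nonneg_left hS1 (show 0 ≤ 4 * y0 / u by positivity)
      refine le_trans (le_of_eq ?_) h3
      field_simp
    have h3 : 4 * y0 / u ≤ 1 := by
      rw [div_le_one hu]
      linarith
    have h4 := mul_le_mul_of_nonneg_right h3 (P.Pr_nonneg Bd)
    linarith
  -- the released part at the end
  have hsg : P.E (fun w => ind (Rm w ∧ (Vc (U w) ∧ sC P cU U Vc u (σ w) w)) * F (U w) (V w)) ≤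
      P.E (fun w => ind (rl P cU cV V F u lam (HU U Vc) 1 x (σ w + 1) w) * F (U w) (V w)) + K * Y + L * pL := by
    rw [hYd, hpL, FP.Pr, FP.Pr, ← FP.E_smul, ← FP.E_smul, ← FP.E_add, ← FP.E_add]
    refine P.E_mono fun w _ => ?_
    have n1 := mul_nonneg hK0 (ind_nonneg ((sC P cU U Vc u (σ w) w ∧ ¬ Rm w) ∧ Vc (U w)))
    have n2 := mul_nonneg hL0 (ind_nonneg (Vc (U w) ∧ ∃ s ≤ σ w, fY P cV V F lam x s w ∧
      ¬ cov P cU u (HU U Vc) 1 s w))
    by_cases hc : rl P cU cV V F u lam (HU U Vc) 1 x (σ w + 1) w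
    · have h2 := (hcov w).1 (hrl w hc)
      rw [ind_of hc, one_mul]
      by_cases hr : Rm w
      · rw [ind_of (show Rm w ∧ (Vc (U w) ∧ sC P cU U Vc u (σ w) w) from ⟨hr, h2⟩), one_mul]
        linarith
      · rw [ind_not (fun hh => hr hh.1), zero_mul,
          ind_of (show (sC P cU U Vc u (σ w) w ∧ ¬ Rm w) ∧ Vc (U w) from ⟨⟨h2.2, hr⟩, h2.1⟩)]
        have := hK (U w) (V w)
        linarith
    · rw [ind_not hc, zero_mul, zero_add]
      by_cases hr : Rm w ∧ (Vc (U w) ∧ sC P cU U Vc u (σ w) w)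
      · have h5 : ∃ s ≤ σ w, fY P cV V F lam x s w ∧ ¬ cov P cU u (HU U Vc) 1 s w := by
          rcases not_rl hc with h6 | h6
          · exact absurd ((hcov w).2 hr.2) h6
          · exact h6
        rw [ind_of hr, one_mul, ind_of (show Vc (U w) ∧ ∃ s ≤ σ w, fY P cV V F lam x s w ∧
          ¬ cov P cU u (HU U Vc) 1 s w from ⟨hr.2.1, h5⟩)]
        have := hL (U w) (V w)
        linarith
      · rw [ind_not hr, zero_mul]
        linarith
  have hun : P.E (fun w => ind (Vc (U w) ∧ ¬ sC P cU U Vc u (σ w) w) * G (σ w) w) ≤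
      u / 2 * P.E (fun w => G (σ w) w) := by
    rw [h1', add_zero] at h1
    refine (P.E_mono fun w _ => ?_).trans h1
    refine mul_le_mul_of_nonneg_right (ind_mono ?_) (hG0 _ _)
    rintro ⟨h5, h6⟩
    exact ⟨h5, fun h7 => h6 ((hcov w).1 h7).2⟩
  rw [h3', add_zero] at h3
  have h9 : pD ≤ 2 / lam * P.E gY := by
    rw [div_mul_eq_mul_div, le_div_iff₀ hlam]
    linarith
  have h10 : h * u / 2 * pD ≤ h * u / lam * P.E gY := by
    have := mul_le_mul_of_nonneg_left h9 (show 0 ≤ h * u / 2 by positivity)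
    refine this.trans (le_of_eq ?_)
    field_simp
  have h11 := mul_le_mul_of_nonneg_left hun hL0
  have h12 := mul_le_mul_of_nonneg_left (h3.trans (add_le_add h10 le_rfl)) hL0
  have h13 := mul_le_mul_of_nonneg_left hZ1 hlam.le
  have h14 := mul_le_mul_of_nonneg_left hY2 (show 0 ≤ lam + K by linarith)
  have h15 : (lam + K) * (4 * y0 / u * pR + 2 * P.Pr Bd) =
      (lam + K) * (4 * y0 / u) * pR + 2 * (lam + K) * P.Pr Bd := by ring
  rw [h15] at h14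
  linarith

/-- **THE PART `V`, ONE WORLD, release bit** (H3.MOV, M.7 (a)) -/
theorem bit_world [Fintype α] (hI : P.Indep U V) (hU : ∀ s, Fac U (cU s)) (hV : ∀ s, Fac V (cV s)) (fU : Filt cU)
    (fV : Filt cV) (hL : ∀ c y, F c y ≤ L) (hL0 : 0 ≤ L) (hK : ∀ c y, - K ≤ F c y) (hK0 : 0 ≤ K) (hlam : 0 < lam)
    (hu : 0 < u) {h : ℝ} (hh : 0 ≤ h) (M : ℕ) (hσ : Stp (pair cU cV) σ) (hT : ∀ w, σ w < T)
    (hm : ∀ s w, P.p w ≠ 0 → P.m (cU s) w ≤ h * P.m (cU (s + 1)) w)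
    {G : ℕ → Om → ℝ} (hG : ∀ s, Fac (fun w => (pair cV cU s w, V w)) (G s)) (hG0 : ∀ s w, 0 ≤ G s w)
    {gY : (Fin M → α) → Om → ℝ} (hg0 : ∀ x w, P.p w ≠ 0 → 0 ≤ gY x w)
    (hg : ∀ x i w, P.p w ≠ 0 → ru P cV V F (x i) (σ w) w - lam / 2 ≤ gY x w)
    (hR : ∀ t v w, pair cU cV t v = pair cU cV t w → σ v = t → (Rm v ↔ Rm w))
    (he : ∀ w, P.p w ≠ 0 → ¬ Rm w → cp P cU (σ w) (fun v => Vc (U v)) w ≤ y0 + ind (Bd w)) (h0 : 0 ≤ y0)
    (hy : y0 ≤ u / 4) :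
    L * P.E (fun w => ind (Vc (U w) ∧ ¬ sC P cU U Vc u (σ w) w) * G (σ w) w) +
        P.E (fun w => ind (Rm w ∧ (Vc (U w) ∧ sC P cU U Vc u (σ w) w)) * F (U w) (V w)) ≤
      L * (u / 2) * P.E (fun w => G (σ w) w) +
        (lam + (lam + K) * (4 * y0 / u)) * P.Pr (fun w => Vc (U w) ∧ Rm w) +
        2 * (lam + K) * P.Pr Bd +
        ∑ x : Fin M → α, sw (fun a => P.Pr (fun w => U w = a)) x *
          (L * (h * u / lam) * P.E (gY x) + L * P.Pr (fun w => dY P cV V F lam x 0 w)) + L / ((M : ℝ) + 1) := by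
  set q : α → ℝ := fun a => P.Pr (fun w => U w = a) with hq
  set B : ℝ := L * P.E (fun w => ind (Vc (U w) ∧ ¬ sC P cU U Vc u (σ w) w) * G (σ w) w) +
        P.E (fun w => ind (Rm w ∧ (Vc (U w) ∧ sC P cU U Vc u (σ w) w)) * F (U w) (V w)) with hB
  set A : ℝ := L * (u / 2) * P.E (fun w => G (σ w) w) +
        (lam + (lam + K) * (4 * y0 / u)) * P.Pr (fun w => Vc (U w) ∧ Rm w) + 2 * (lam + K) * P.Pr Bd with hA
  have q0 : ∀ x : Fin M → α, 0 ≤ sw q x := sw_nonneg (fun a => P.Pr_nonneg _)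
  have q1 : ∑ x : Fin M → α, sw q x = 1 := sw_sum (sum_law U) M
  have h1 : ∀ x : Fin M → α, sw q x * B ≤
      sw q x * A + sw q x * (L * (h * u / lam) * P.E (gY x) + L * P.Pr (fun w => dY P cV V F lam x 0 w)) +
        L * (sw q x * P.Pr (fd P cV U V F lam x T)) := by
    intro x
    have h2 := bit_pt (P := P) (F := F) (Vc := Vc) (u := u) (lam := lam) (L := L) (K := K) (y0 := y0) (Rm := Rm)
      (Bd := Bd) hI hU hV fU fV hL hL0 hK hK0 hlam hu hh x hσ hT hm hG hG0 (hg0 x) (hg x) hR he h0 hy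
    have h3 := mul_le_mul_of_nonneg_left h2 (q0 x)
    refine h3.trans (le_of_eq ?_)
    rw [hA]
    ring
  have h2 : B = ∑ x : Fin M → α, sw q x * B := by rw [← Finset.sum_mul, q1, one_mul]
  rw [h2]
  refine (Finset.sum_le_sum fun x _ => h1 x).trans ?_
  rw [Finset.sum_add_distrib, Finset.sum_add_distrib, ← Finset.sum_mul, q1, one_mul, ← Finset.mul_sum]
  have h4 := mul_le_mul_of_nonneg_left (fd_le (P := P) (F := F) (lam := lam) hI hV M T) hL0
  have h5 : L * (1 / ((M : ℝ) + 1)) = L / ((M : ℝ) + 1) := by ring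
  rw [h5] at h4
  linarith

end

end Pool.Agent.GMH.MovB
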