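import Pool.Agent.GMH.Blk

/-!
# GMH/ProdM (helper2): two rare sets in one public epoch, stretches (H3.MOV, M.9 and M.10 (a))

Fixed `a`; `N s` = node, `σ` = stopping time of the nodes (end of the epoch), `Rm` = the epoch ends by a removal.
`Ev i s` (`i : ι`) = events (static: `V_w`; dynamic: the exact vertex `v` is decided and alive at the time `s`).
`trg s` : some `Ev i s` has density `≥ y` in the node; a STRETCH starts at the first such time.

* `before` : no stretch before the removal: `P (Rm, Ev i, Ev j at σ, no stretch) ≤ y ^ 2 P (Rm)`;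
* `after` : `P (Ev i, Ev j just before the start of the stretch) ≤ (h y) ^ 2 P (stretch) + P (stretch at the time 0)`;
* `count_static` : the stretches which start with a static event `A`: `(y - y0) P (F) ≤ P (A, F, Rm) + P (Bd)`;
* `count_alive` : the stretches which start with alive vertices: `(g - θ) y P (F) ≤ P (G, F, Rm) + y0 P (F) + P (Bd)`;
-/

set_option autoImplicit false
set_option linter.unusedSectionVars false
set_option linter.unusedVariables false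

namespace Pool.Agent.GMH.ProdM

open Finset Pool.Agent.PWZ Pool.Agent.M3 Pool.Agent.GMH.Gdy Pool.Agent.GMH.CR Pool.Agent.GMH.Three
open Pool.Agent.GMH.Tree (stp_le stp_eq)
open Pool.Agent.GMH.Tree3 (ev_le)

noncomputable section

variable {Om : Type*} [Fintype Om] {P : FP Om} {κ : ℕ → Type*} {N : ∀ t, Om → κ t} {ι : Type*}
  {Ev : ι → ℕ → Om → Prop} {y y0 h : ℝ} {σ : Om → ℕ} {T : ℕ}

variable (P N Ev y) in
/-- some event is dense -/
def trg (s : ℕ) (w : Om) : Prop := ∃ i, y ≤ cp P N s (Ev i s) w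

theorem trg_fac (s : ℕ) {v w : Om} (e : N s v = N s w) : trg P N Ev y s v ↔ trg P N Ev y s w := by
  unfold trg
  exact exists_congr fun i => by rw [cp_fac s (Ev i s) v w e]

theorem trg_fac' (fN : Filt N) {s s' : ℕ} (hs : s' ≤ s) {v w : Om} (e : N s v = N s w) :
    trg P N Ev y s' v ↔ trg P N Ev y s' w := trg_fac s' (fN.le hs v w e)

theorem str_fac (fN : Filt N) (s : ℕ) {v w : Om} (e : N s v = N s w) :
    fst (trg P N Ev y) s v ↔ fst (trg P N Ev y) s w := by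
  show (trg P N Ev y s v ∧ ∀ s' < s, ¬ trg P N Ev y s' v) ↔ (trg P N Ev y s w ∧ ∀ s' < s, ¬ trg P N Ev y s' w)
  rw [trg_fac s e]
  exact and_congr_right fun _ => forall_congr' fun s' => forall_congr' fun hs' => not_congr (trg_fac' fN hs'.le e)

/-! ## stopping -/

/-- an event known at a time `s ≤ σ`, one time only -/
theorem E_at (fN : Filt N) (hσ : Stp N σ) (hT : ∀ w, σ w < T) {f : ℕ → Om → Prop}
    (hf : ∀ s v w, N s v = N s w → (f s v ↔ f s w)) (hf1 : ∀ w s s', f s w → f s' w → s = s') (g : ℕ → Om → ℝ) :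
    P.E (fun w => ∑ s ∈ range T, ind (f s w ∧ s ≤ σ w) * g s w) =
      P.E (fun w => ∑ s ∈ range T, ind (f s w ∧ s ≤ σ w) * P.ce (N s) (g s) w) := by
  rw [FP.E_sum, FP.E_sum]
  refine Finset.sum_congr rfl fun s _ => ?_
  refine (P.E_mul_ce (Fac.ind fun v w e => ?_) _).symm
  rw [hf s v w e, stp_le fN (fun _ => Fac.refl _) hσ e]

/-- the sum over the times of an event which happens once -/
theorem sum_once (hT : ∀ w, σ w < T) {f : ℕ → Om → Prop} (hf1 : ∀ w s s', f s w → f s' w → s = s') (w : Om) :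
    ∑ s ∈ range T, ind (f s w ∧ s ≤ σ w) = ind (∃ s ≤ σ w, f s w) := by
  rw [sum_ind (A := fun s => f s w ∧ s ≤ σ w) (fun s s' a b => hf1 w s s' a.1 b.1) T]
  congr 1
  refine propext ⟨fun ⟨s, _, hs⟩ => ⟨s, hs.2, hs.1⟩, fun ⟨s, hs, hf⟩ => ⟨s, ?_, hf, hs⟩⟩
  have := hT w
  omega

/-- an event of the node of `σ`, as a factor -/
theorem end_fac (fN : Filt N) (hσ : Stp N σ) {F : Om → Prop}
    (hF : ∀ t v w, N t v = N t w → σ v = t → (F v ↔ F w)) (t : ℕ) : Fac (N t) (fun w => ind (σ w = t ∧ F w)) := by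
  refine Fac.ind fun v w e => ?_
  have a := stp_eq fN (fun _ => Fac.refl _) hσ (s := t) e
  constructor
  · rintro ⟨h1, h2⟩
    exact ⟨a.1 h1, (hF t v w e h1).1 h2⟩
  · rintro ⟨h1, h2⟩
    exact ⟨a.2 h1, (hF t v w e (a.2 h1)).2 h2⟩

/-- an event of the node of `σ` -/
theorem E_end (fN : Filt N) (hσ : Stp N σ) (hT : ∀ w, σ w < T) {F : Om → Prop}
    (hF : ∀ t, Fac (N t) (fun w => ind (σ w = t ∧ F w))) (g : ℕ → Om → ℝ) :
    P.E (fun w => ind (F w) * g (σ w) w) = P.E (fun w => ind (F w) * P.ce (N (σ w)) (g (σ w)) w) := by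
  have e : ∀ k : ℕ → Om → ℝ, P.E (fun w => ind (F w) * k (σ w) w) =
      ∑ t ∈ range T, P.E (fun w => ind (σ w = t ∧ F w) * k t w) := by
    intro k
    rw [E_stop hT (fun s w => ind (F w) * k s w)]
    refine Finset.sum_congr rfl fun t _ => P.E_congr fun w _ => ?_
    rw [ind_and]
    ring
  rw [e g, e (fun t => P.ce (N t) (g t))]
  exact Finset.sum_congr rfl fun t _ => (P.E_mul_ce (hF t) _).symm

/-! ## the product -/

/-- **no stretch before the end** -/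
theorem before (fN : Filt N) (hσ : Stp N σ) (hT : ∀ w, σ w < T) (hy : 0 ≤ y) {i j : ι}
    (hp : ∀ s w, P.p w ≠ 0 → cp P N s (fun v => Ev i s v ∧ Ev j s v) w ≤ cp P N s (Ev i s) w * cp P N s (Ev j s) w)
    {Rm : Om → Prop} (hR : ∀ t v w, N t v = N t w → σ v = t → (Rm v ↔ Rm w)) :
    P.Pr (fun w => (Rm w ∧ ∀ s ≤ σ w, ¬ trg P N Ev y s w) ∧ (Ev i (σ w) w ∧ Ev j (σ w) w)) ≤ y ^ 2 * P.Pr Rm := by
  have h1 : P.Pr (fun w => (Rm w ∧ ∀ s ≤ σ w, ¬ trg P N Ev y s w) ∧ (Ev i (σ w) w ∧ Ev j (σ w) w)) =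
      P.E (fun w => ind (Rm w ∧ ∀ s ≤ σ w, ¬ trg P N Ev y s w) * ind (Ev i (σ w) w ∧ Ev j (σ w) w)) :=
    P.E_congr fun w _ => ind_and _ _
  have hF : ∀ t, Fac (N t) (fun w => ind (σ w = t ∧ (Rm w ∧ ∀ s ≤ σ w, ¬ trg P N Ev y s w))) := by
    refine end_fac fN hσ fun t v w e hv => ?_
    have hw : σ w = t := (stp_eq fN (fun _ => Fac.refl _) hσ e).1 hv
    rw [hv, hw, hR t v w e hv]
    exact and_congr_right fun _ => forall_congr' fun s => forall_congr' fun hs => not_congr (trg_fac' fN hs e)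
  rw [h1, E_end fN hσ hT hF (fun t w => ind (Ev i t w ∧ Ev j t w)), FP.Pr, ← FP.E_smul]
  refine P.E_mono fun w hw => ?_
  by_cases hc : Rm w ∧ ∀ s ≤ σ w, ¬ trg P N Ev y s w
  · rw [ind_of hc, one_mul, ind_of hc.1, mul_one]
    have h2 := hp (σ w) w hw
    have h3 : ∀ k, cp P N (σ w) (Ev k (σ w)) w ≤ y := by
      intro k
      by_contra hcon
      exact hc.2 (σ w) le_rfl ⟨k, (not_le.1 hcon).le⟩
    have h4 : cp P N (σ w) (Ev i (σ w)) w * cp P N (σ w) (Ev j (σ w)) w ≤ y ^ 2 := by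
      rw [sq]
      exact mul_le_mul (h3 i) (h3 j) (cp_nonneg _ _ _) hy
    exact h2.trans h4
  · rw [ind_not hc, zero_mul]
    exact mul_nonneg (sq_nonneg y) (ind_nonneg _)

/-- **the start of a stretch** -/
theorem after (fN : Filt N) (hσ : Stp N σ) (hT : ∀ w, σ w < T) (hy : 0 ≤ y) (h0 : 0 ≤ h) {i j : ι}
    (hp : ∀ s w, P.p w ≠ 0 →
      cp P N (s + 1) (fun v => Ev i s v ∧ Ev j s v) w ≤ cp P N (s + 1) (Ev i s) w * cp P N (s + 1) (Ev j s) w)
    (hm : ∀ s w, P.p w ≠ 0 → P.m (N s) w ≤ h * P.m (N (s + 1)) w) :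
    P.Pr (fun w => ∃ s ≤ σ w, fst (trg P N Ev y) s w ∧ (Ev i (s - 1) w ∧ Ev j (s - 1) w)) ≤
      (h * y) ^ 2 * P.Pr (fun w => ∃ s ≤ σ w, fst (trg P N Ev y) s w) + P.Pr (fun w => trg P N Ev y 0 w) := by
  refine ev_le (P := P) (Y := N) (nd := N) (σ := σ) (T := T) fN (fun _ => Fac.refl _) hσ hT
    (f := fun s w => fst (trg P N Ev y) s w) (fun s v w e => str_fac fN s e) (fun w s s' a b => fst_one s s' a b)
    (Q := fun s w => Ev i (s - 1) w ∧ Ev j (s - 1) w) (Bad := fun w => trg P N Ev y 0 w) ?_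
  intro s w hw hs _
  rcases Nat.eq_zero_or_pos s with rfl | hs0
  · rw [ind_of (show trg P N Ev y 0 w from hs.1)]
    have h1 : cp P N 0 (fun w => Ev i (0 - 1) w ∧ Ev j (0 - 1) w) w ≤ 1 := P.ce_le_const (fun _ _ => ind_le_one _) hw
    have h2 := sq_nonneg (h * y)
    linarith
  · obtain ⟨s', rfl⟩ : ∃ s', s = s' + 1 := ⟨s - 1, by omega⟩
    have h1 := hp s' w hw
    have h3 : ∀ k, cp P N (s' + 1) (Ev k s') w ≤ h * y := by
      intro k
      have h4 := cp_ratio (P := P) (Y := N) (h := h) (s := s') (t := s' + 1) (fN s') hw (hm s' w hw) (Ev k s')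
      have h5 : cp P N s' (Ev k s') w ≤ y := by
        by_contra hcon
        exact hs.2 s' (by omega) ⟨k, (not_le.1 hcon).le⟩
      exact h4.trans (mul_le_mul_of_nonneg_left h5 h0)
    have h4 : cp P N (s' + 1) (Ev i s') w * cp P N (s' + 1) (Ev j s') w ≤ (h * y) ^ 2 := by
      rw [sq]
      exact mul_le_mul (h3 i) (h3 j) (cp_nonneg _ _ _) (mul_nonneg h0 hy)
    have h5 := ind_nonneg (trg P N Ev y 0 w)
    have h6 : cp P N (s' + 1) (fun w => Ev i (s' + 1 - 1) w ∧ Ev j (s' + 1 - 1) w) w ≤ (h * y) ^ 2 := h1.trans h4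
    linarith

/-! ## the number of stretches -/

/-- **stretches which start with a static event** -/
theorem count_static (fN : Filt N) (hσ : Stp N σ) (hT : ∀ w, σ w < T) {f : ℕ → Om → Prop}
    (hf : ∀ s v w, N s v = N s w → (f s v ↔ f s w)) (hf1 : ∀ w s s', f s w → f s' w → s = s') {A : Om → Prop}
    (hA : ∀ s w, P.p w ≠ 0 → f s w → y ≤ cp P N s A w) {Rm Bd : Om → Prop}
    (hR : ∀ t v w, N t v = N t w → σ v = t → (Rm v ↔ Rm w))
    (he : ∀ w, P.p w ≠ 0 → ¬ Rm w → cp P N (σ w) A w ≤ y0 + ind (Bd w)) (h0 : 0 ≤ y0) :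
    (y - y0) * P.Pr (fun w => ∃ s ≤ σ w, f s w) ≤ P.Pr (fun w => A w ∧ Rm w) + P.Pr Bd := by
  set F : Om → Prop := fun w => ∃ s ≤ σ w, f s w with hFd
  have h1 : y * P.Pr F ≤ P.E (fun w => ind (F w) * ind (A w)) := by
    have e1 : P.E (fun w => ind (F w) * ind (A w)) =
        P.E (fun w => ∑ s ∈ range T, ind (f s w ∧ s ≤ σ w) * ind (A w)) := by
      refine P.E_congr fun w _ => ?_
      rw [← Finset.sum_mul, sum_once hT hf1 w]
    rw [e1, E_at fN hσ hT hf hf1 (fun _ w => ind (A w)), FP.Pr, ← FP.E_smul]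
    refine P.E_mono fun w hw => ?_
    rw [← sum_once hT hf1 w, Finset.mul_sum]
    refine Finset.sum_le_sum fun s _ => ?_
    by_cases hc : f s w ∧ s ≤ σ w
    · rw [ind_of hc, one_mul, mul_one]
      exact hA s w hw hc.1
    · rw [ind_not hc, zero_mul, mul_zero]
  have hF : ∀ t, Fac (N t) (fun w => ind (σ w = t ∧ (F w ∧ ¬ Rm w))) := by
    refine end_fac fN hσ fun t v w e hv => ?_
    have hw : σ w = t := (stp_eq fN (fun _ => Fac.refl _) hσ e).1 hv
    rw [hFd, hR t v w e hv]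
    simp only
    rw [hv, hw]
    exact and_congr_left fun _ => exists_congr fun s => and_congr_right fun hs => hf s v w (fN.le hs v w e)
  have h2 : P.E (fun w => ind (F w ∧ ¬ Rm w) * ind (A w)) ≤ y0 * P.Pr F + P.Pr Bd := by
    rw [E_end fN hσ hT hF (fun _ w => ind (A w)), FP.Pr, FP.Pr, ← FP.E_smul, ← FP.E_add]
    refine P.E_mono fun w hw => ?_
    by_cases hc : F w ∧ ¬ Rm w
    · rw [ind_of hc, one_mul, ind_of hc.1, mul_one]
      exact he w hw hc.2
    · rw [ind_not hc, zero_mul]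
      exact add_nonneg (mul_nonneg h0 (ind_nonneg _)) (ind_nonneg _)
  have h3 : P.E (fun w => ind (F w) * ind (A w)) ≤ P.Pr (fun w => A w ∧ Rm w) +
      P.E (fun w => ind (F w ∧ ¬ Rm w) * ind (A w)) := by
    rw [FP.Pr, ← FP.E_add]
    refine P.E_mono fun w _ => ?_
    rw [ind_and, ind_and]
    by_cases hr : Rm w
    · rw [ind_of hr, ind_not (not_not.2 hr)]
      have := mul_le_of_le_one_left (ind_nonneg (A w)) (ind_le_one (F w))
      linarith
    · rw [ind_not hr, ind_of hr]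
      have := ind_nonneg (A w)
      linarith
  linarith

/-- **stretches which start with alive vertices** -/
theorem count_alive (fN : Filt N) (hσ : Stp N σ) (hT : ∀ w, σ w < T) {f : ℕ → Om → Prop}
    (hf : ∀ s v w, N s v = N s w → (f s v ↔ f s w)) (hf1 : ∀ w s s', f s w → f s' w → s = s') {G Rm Bd : Om → Prop}
    {Al : ℕ → Om → Prop} {g θ : ℝ} (hA : ∀ s w, P.p w ≠ 0 → f s w → y ≤ cp P N s (Al s) w)
    (hG : ∀ s w, P.p w ≠ 0 → f s w → g * cp P N s (Al s) w ≤ cp P N s (fun v => G v ∧ Al s v) w)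
    (hR : ∀ t v w, N t v = N t w → σ v = t → (Rm v ↔ Rm w))
    (he : ∀ s w, P.p w ≠ 0 → s ≤ σ w → f s w → ¬ Rm w →
      cp P N (σ w) (fun v => G v ∧ Al s v) w ≤ y0 + θ * cp P N (σ w) (Al s) w + ind (Bd w))
    (hθ : 0 ≤ θ) (hg : θ ≤ g) (hy0 : 0 ≤ y0) :
    (g - θ) * (y * P.Pr (fun w => ∃ s ≤ σ w, f s w)) ≤
      P.Pr (fun w => G w ∧ Rm w) + y0 * P.Pr (fun w => ∃ s ≤ σ w, f s w) + P.Pr Bd := by
  set F : Om → Prop := fun w => ∃ s ≤ σ w, f s w with hFd
  set S : ℝ := P.E (fun w => ∑ s ∈ range T, ind (f s w ∧ s ≤ σ w) * cp P N s (Al s) w) with hS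
  have a0 : ∀ s w, 0 ≤ ind (f s w ∧ s ≤ σ w) := fun s w => ind_nonneg _
  have h1 : y * P.Pr F ≤ S := by
    rw [hS, FP.Pr, ← FP.E_smul]
    refine P.E_mono fun w hw => ?_
    rw [← sum_once hT hf1 w, Finset.mul_sum]
    refine Finset.sum_le_sum fun s _ => ?_
    by_cases hc : f s w ∧ s ≤ σ w
    · rw [ind_of hc, one_mul, mul_one]
      exact hA s w hw hc.1
    · rw [ind_not hc, zero_mul, mul_zero]
  have h2 : g * S ≤ P.E (fun w => ∑ s ∈ range T, ind (f s w ∧ s ≤ σ w) * ind (G w ∧ Al s w)) := by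
    rw [E_at fN hσ hT hf hf1 (fun s w => ind (G w ∧ Al s w)), hS, ← FP.E_smul]
    refine P.E_mono fun w hw => ?_
    rw [Finset.mul_sum]
    refine Finset.sum_le_sum fun s _ => ?_
    by_cases hc : f s w ∧ s ≤ σ w
    · rw [ind_of hc, one_mul, one_mul]
      exact hG s w hw hc.1
    · rw [ind_not hc, zero_mul, zero_mul, mul_zero]
  have hF : ∀ s t, Fac (N t) (fun w => ind (σ w = t ∧ ((f s w ∧ s ≤ σ w) ∧ ¬ Rm w))) := by
    intro s
    refine end_fac fN hσ fun t v w e hv => ?_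
    have hw : σ w = t := (stp_eq fN (fun _ => Fac.refl _) hσ e).1 hv
    rw [hR t v w e hv, hv, hw]
    refine and_congr_left fun _ => ?_
    constructor
    · rintro ⟨h3, h4⟩
      exact ⟨(hf s v w (fN.le h4 v w e)).1 h3, h4⟩
    · rintro ⟨h3, h4⟩
      exact ⟨(hf s v w (fN.le h4 v w e)).2 h3, h4⟩
  have h3 : ∀ s, P.E (fun w => ind ((f s w ∧ s ≤ σ w) ∧ ¬ Rm w) * ind (G w ∧ Al s w)) ≤
      P.E (fun w => ind ((f s w ∧ s ≤ σ w) ∧ ¬ Rm w) * (y0 + ind (Bd w))) +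
        θ * P.E (fun w => ind ((f s w ∧ s ≤ σ w) ∧ ¬ Rm w) * ind (Al s w)) := by
    intro s
    rw [E_end fN hσ hT (hF s) (fun _ w => ind (G w ∧ Al s w)), E_end fN hσ hT (hF s) (fun _ w => ind (Al s w)),
      ← FP.E_smul, ← FP.E_add]
    refine P.E_mono fun w hw => ?_
    by_cases hc : (f s w ∧ s ≤ σ w) ∧ ¬ Rm w
    · rw [ind_of hc, one_mul, one_mul, one_mul]
      have h4 := he s w hw hc.1.2 hc.1.1 hc.2
      unfold cp at h4
      linarith
    · rw [ind_not hc, zero_mul, zero_mul, zero_mul, mul_zero, add_zero]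
  have h4 : P.E (fun w => ∑ s ∈ range T, ind (f s w ∧ s ≤ σ w) * ind (G w ∧ Al s w)) ≤
      P.Pr (fun w => G w ∧ Rm w) +
        ∑ s ∈ range T, P.E (fun w => ind ((f s w ∧ s ≤ σ w) ∧ ¬ Rm w) * ind (G w ∧ Al s w)) := by
    rw [← FP.E_sum, FP.Pr, ← FP.E_add]
    refine P.E_mono fun w _ => ?_
    by_cases hr : Rm w
    · have e1 : ∑ s ∈ range T, ind ((f s w ∧ s ≤ σ w) ∧ ¬ Rm w) * ind (G w ∧ Al s w) = 0 :=
        Finset.sum_eq_zero fun s _ => by rw [ind_not (fun hh => hh.2 hr), zero_mul]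
      rw [e1, add_zero]
      have e2 : ∑ s ∈ range T, ind (f s w ∧ s ≤ σ w) * ind (G w ∧ Al s w) ≤
          ∑ s ∈ range T, ind (f s w ∧ s ≤ σ w) * ind (G w ∧ Rm w) := Finset.sum_le_sum fun s _ =>
        mul_le_mul_of_nonneg_left (ind_mono fun hh => ⟨hh.1, hr⟩) (a0 s w)
      rw [← Finset.sum_mul, sum_once hT hf1 w] at e2
      exact e2.trans (mul_le_of_le_one_left (ind_nonneg _) (ind_le_one _))
    · have e1 : ∑ s ∈ range T, ind (f s w ∧ s ≤ σ w) * ind (G w ∧ Al s w) =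
          ∑ s ∈ range T, ind ((f s w ∧ s ≤ σ w) ∧ ¬ Rm w) * ind (G w ∧ Al s w) := Finset.sum_congr rfl fun s _ => by
        rw [ind_and (f s w ∧ s ≤ σ w) (¬ Rm w), ind_of hr, mul_one]
      rw [e1]
      have := ind_nonneg (G w ∧ Rm w)
      linarith
  have h5 : ∑ s ∈ range T, P.E (fun w => ind ((f s w ∧ s ≤ σ w) ∧ ¬ Rm w) * (y0 + ind (Bd w))) ≤
      P.E (fun w => ind (F w) * (y0 + ind (Bd w))) := by
    rw [← FP.E_sum]
    refine P.E_mono fun w _ => ?_
    have e1 : ∑ s ∈ range T, ind ((f s w ∧ s ≤ σ w) ∧ ¬ Rm w) * (y0 + ind (Bd w)) ≤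
        ∑ s ∈ range T, ind (f s w ∧ s ≤ σ w) * (y0 + ind (Bd w)) := Finset.sum_le_sum fun s _ =>
      mul_le_mul_of_nonneg_right (ind_mono fun hh => hh.1) (add_nonneg hy0 (ind_nonneg _))
    refine e1.trans (le_of_eq ?_)
    rw [← Finset.sum_mul, sum_once hT hf1 w]
  have h6 : ∑ s ∈ range T, P.E (fun w => ind ((f s w ∧ s ≤ σ w) ∧ ¬ Rm w) * ind (Al s w)) ≤ S := by
    have e1 := E_at fN hσ hT hf hf1 (fun s w => ind (Al s w)) (P := P)
    have e2 : S = P.E (fun w => ∑ s ∈ range T, ind (f s w ∧ s ≤ σ w) * ind (Al s w)) := by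
      rw [e1]
      rfl
    rw [e2, ← FP.E_sum]
    exact P.E_mono fun w _ => Finset.sum_le_sum fun s _ => mul_le_mul_of_nonneg_right (ind_mono fun hh => hh.1) (ind_nonneg _)
  have h7 : P.E (fun w => ind (F w) * (y0 + ind (Bd w))) ≤ y0 * P.Pr F + P.Pr Bd := by
    rw [FP.Pr, FP.Pr, ← FP.E_smul, ← FP.E_add]
    refine P.E_mono fun w _ => ?_
    have := mul_le_of_le_one_left (ind_nonneg (Bd w)) (ind_le_one (F w))
    linarith
  have h8 : ∑ s ∈ range T, P.E (fun w => ind ((f s w ∧ s ≤ σ w) ∧ ¬ Rm w) * ind (G w ∧ Al s w)) ≤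
      y0 * P.Pr F + P.Pr Bd + θ * S := by
    refine (Finset.sum_le_sum fun s _ => h3 s).trans ?_
    rw [Finset.sum_add_distrib, ← Finset.mul_sum]
    have := mul_le_mul_of_nonneg_left h6 hθ
    linarith
  have h9 := mul_le_mul_of_nonneg_left h1 (sub_nonneg.2 hg)
  linarith

end

end Pool.Agent.GMH.ProdM
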