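import Pool.Agent.GMH.CR
import Pool.Agent.GMH.TD10
import Pool.Agent.GMH.ProdM

/-!
# GMH/MovU (helper2): the vertex sets `V` (H3.MOV, M.7 (a)), one public epoch (one world)

Fixed `a`; `U` = the vertex `c` with everything which is read at the epoch start, `V` = the other two vertices; `cU`, `cV`
their cells, `σ` the end of the epoch, `Rm` = it is a removal, `Vc` = a static set of values of `U`, `F` signed, `- K ≤ F ≤ L`.
ONE application of LEMMA CR with the unary relation `Vc` (nothing is sampled on the side `V`): `sC s` = the density of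
`Vc` is at least `u / 2` at a time `≤ s`; RELEASED at `σ` = `Vc` and `sC` before the first deviation of a sampled row.

* `cov_iff` : `U` is covered before `s` iff `Vc` and its density was at least `u / 2` before `s`; `badV_not` : no bad column;
* `cnt_le` : the number of epochs with `sC` : `u / 4 P (sC σ) ≤ P (Vc, Rm) + P (Bd)`;
* `mov_world` : the unreleased part (unsigned, weight `G`) and the released part at the REMOVAL (signed).
-/

set_option autoImplicit false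
set_option linter.unusedSectionVars false

namespace Pool.Agent.GMH.MovU

open Finset Pool.Agent.PWZ Pool.Agent.M3 Pool.Agent.GMH.Gdy Pool.Agent.GMH.CR

noncomputable section

variable {Om : Type*} [Fintype Om] {P : FP Om} {κ κ' : ℕ → Type*} {cU : ∀ t, Om → κ t} {cV : ∀ t, Om → κ' t}
  {α ω : Type*} {U : Om → α} {V : Om → ω} {Vc : α → Prop} {F : α → ω → ℝ} {u lam L K y0 : ℝ}

variable (U Vc) in
/-- the cover: one set -/
def HU (_ : ℕ) (w : Om) : Prop := Vc (U w)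

variable (P cU U Vc u) in
/-- the density of the set is at least `u / 2` at a time `≤ s` -/
def sC (s : ℕ) (w : Om) : Prop := ∃ s' ≤ s, u / 2 ≤ cp P cU s' (fun v => Vc (U v)) w

theorem HU_fac (r : ℕ) (v w : Om) (h : U v = U w) : HU U Vc r v ↔ HU U Vc r w := by
  unfold HU
  rw [h]

theorem sC_mono {s s' : ℕ} (h : s ≤ s') {w : Om} (hw : sC P cU U Vc u s w) : sC P cU U Vc u s' w := by
  obtain ⟨t, ht, h'⟩ := hw
  exact ⟨t, ht.trans h, h'⟩

/-- covered before `s` -/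
theorem cov_iff (hX : Filt cU) (s : ℕ) {w : Om} : cov P cU u (HU U Vc) 1 s w ↔
    Vc (U w) ∧ ∃ s' < s, u / 2 ≤ cp P cU s' (fun v => Vc (U v)) w := by
  induction s generalizing w with
  | zero =>
    constructor
    · exact fun h => False.elim h
    · rintro ⟨_, s', hs', _⟩
      exact absurd hs' (Nat.not_lt_zero _)
  | succ s ih =>
    have e1 : cov P cU u (HU U Vc) 1 (s + 1) w ↔ cov P cU u (HU U Vc) 1 s w ∨
        (Vc (U w) ∧ u / 2 ≤ cp P cU s (fun v => Vc (U v) ∧ ¬ cov P cU u (HU U Vc) 1 s v) w) := Iff.rfl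
    rw [e1, ih]
    constructor
    · rintro (⟨h1, s', hs', h2⟩ | ⟨h1, h2⟩)
      · exact ⟨h1, s', by omega, h2⟩
      · exact ⟨h1, s, by omega, h2.trans (cp_mono (fun v hv => hv.1) w)⟩
    · rintro ⟨h1, s', hs', h2⟩
      rcases Nat.lt_or_ge s' s with h3 | h3
      · exact Or.inl ⟨h1, s', h3, h2⟩
      · obtain rfl : s' = s := by omega
        by_cases h4 : ∃ t < s', u / 2 ≤ cp P cU t (fun v => Vc (U v)) w
        · obtain ⟨t, ht, h5⟩ := h4
          exact Or.inl ⟨h1, t, ht, h5⟩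
        · refine Or.inr ⟨h1, h2.trans (le_of_eq ?_)⟩
          refine cp_congr_on fun v hv e => ?_
          refine ⟨fun h5 => ⟨h5, fun h6 => h4 ?_⟩, fun h5 => h5.1⟩
          obtain ⟨_, t, ht, h7⟩ := ih.1 h6
          refine ⟨t, ht, ?_⟩
          rw [cp_fac t (fun v => Vc (U v)) w v (hX.le ht.le v w e).symm]
          exact h7

/-- no bad column -/
theorem badV_not (hu : 0 < u) (T : ℕ) (w : Om) :
    ¬ badV P cU V U (fun _ a => Vc a) u (HU U Vc) 1 T w := by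
  rintro ⟨s, _, hs⟩
  have h1 := cp_lt (P := P) (X := cU) (H := HU U Vc) (M := 1) hu (s := s) (r := 0) Nat.zero_lt_one w
  have h2 : u / 2 ≤ cp P cU s (fun v => HU U Vc 0 v ∧ ¬ cov P cU u (HU U Vc) 1 (s + 1) v) w := hs
  linarith

/-! ## densities in the node -/

theorem cp_pairU (hI : P.Indep U V) (hU : ∀ s, Fac U (cU s)) (hV : ∀ s, Fac V (cV s)) (s : ℕ) (A : Om → Prop)
    (hA : ∀ v w, U v = U w → (A v ↔ A w)) {w : Om} (hw : P.p w ≠ 0) :
    cp P (pair cU cV) s A w = cp P cU s A w := by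
  have h1 := cp_pair (cU := cV) (cV := cU) hI.symm hV hU s A hA w hw
  rw [← h1]
  exact P.ce_congr_map (X := pair cU cV s) (Y := pair cV cU s)
    (fun a b e => pair_eq.2 ⟨(pair_eq.1 e).2, (pair_eq.1 e).1⟩)
    (fun a b e => pair_eq.2 ⟨(pair_eq.1 e).2, (pair_eq.1 e).1⟩) _ w

variable (P cU U Vc u) in
/-- the density is at least `u / 2` for the first time -/
def f1 (s : ℕ) (w : Om) : Prop := Three.fst (fun s w => u / 2 ≤ cp P cU s (fun v => Vc (U v)) w) s w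

theorem f1_iff (fU : Filt cU) (s : ℕ) {v w : Om} (e : cU s v = cU s w) :
    f1 P cU U Vc u s v ↔ f1 P cU U Vc u s w := by
  show (u / 2 ≤ cp P cU s (fun v => Vc (U v)) v ∧ ∀ s' < s, ¬ u / 2 ≤ cp P cU s' (fun v => Vc (U v)) v) ↔
    (u / 2 ≤ cp P cU s (fun v => Vc (U v)) w ∧ ∀ s' < s, ¬ u / 2 ≤ cp P cU s' (fun v => Vc (U v)) w)
  rw [cp_fac s (fun v => Vc (U v)) v w e]
  refine and_congr_right fun _ => forall_congr' fun s' => forall_congr' fun hs' => not_congr ?_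
  rw [cp_fac s' (fun v => Vc (U v)) v w (fU.le hs'.le v w e)]

theorem sC_iff {s : ℕ} {w : Om} : sC P cU U Vc u s w ↔ ∃ s' ≤ s, f1 P cU U Vc u s' w := by
  classical
  constructor
  · rintro ⟨s', hs', h⟩
    have hex : ∃ t, u / 2 ≤ cp P cU t (fun v => Vc (U v)) w := ⟨s', h⟩
    refine ⟨Nat.find hex, (Nat.find_min' hex h).trans hs', Nat.find_spec hex, fun t ht => Nat.find_min hex ht⟩
  · rintro ⟨s', hs', h⟩
    exact ⟨s', hs', h.1⟩

theorem sC_fac (fU : Filt cU) {s : ℕ} {v w : Om} (e : cU s v = cU s w) :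
    sC P cU U Vc u s v ↔ sC P cU U Vc u s w := by
  unfold sC
  refine exists_congr fun s' => and_congr_right fun hs' => ?_
  rw [cp_fac s' (fun v => Vc (U v)) v w (fU.le hs' v w e)]

variable {σ : Om → ℕ} {T : ℕ} {Rm Bd : Om → Prop}

/-- **the number of epochs in which the set becomes dense** -/
theorem cnt_le (hI : P.Indep U V) (hU : ∀ s, Fac U (cU s)) (hV : ∀ s, Fac V (cV s)) (fU : Filt cU) (fV : Filt cV)
    (hσ : Stp (pair cU cV) σ) (hT : ∀ w, σ w < T)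
    (hR : ∀ t v w, pair cU cV t v = pair cU cV t w → σ v = t → (Rm v ↔ Rm w))
    (he : ∀ w, P.p w ≠ 0 → ¬ Rm w → cp P cU (σ w) (fun v => Vc (U v)) w ≤ y0 + ind (Bd w)) (h0 : 0 ≤ y0)
    (hy : y0 ≤ u / 4) :
    u / 4 * P.Pr (fun w => sC P cU U Vc u (σ w) w) ≤ P.Pr (fun w => Vc (U w) ∧ Rm w) + P.Pr Bd := by
  have hA : ∀ v w, U v = U w → (Vc (U v) ↔ Vc (U w)) := fun v w e => by rw [e]
  have h1 := ProdM.count_static (P := P) (N := pair cU cV) (y := u / 2) (y0 := y0) (Bd := Bd)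
    (A := fun w => Vc (U w)) (Rm := Rm) (f := f1 P cU U Vc u) (pair_filt fU fV) hσ hT
    (fun s v w e => f1_iff fU s (pair_eq.1 e).1) (fun w s s' a b => Three.fst_one s s' a b)
    (fun s w hw h => by
      rw [cp_pairU hI hU hV s _ hA hw]
      exact h.1) hR
    (fun w hw h => by
      rw [cp_pairU hI hU hV (σ w) _ hA hw]
      exact he w hw h) h0
  have h2 : P.Pr (fun w => sC P cU U Vc u (σ w) w) = P.Pr (fun w => ∃ s ≤ σ w, f1 P cU U Vc u s w) := by
    congr 1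
    funext w
    exact propext sC_iff
  rw [h2]
  have h3 : 0 ≤ P.Pr (fun w => ∃ s ≤ σ w, f1 P cU U Vc u s w) := P.Pr_nonneg _
  have h4 := mul_le_mul_of_nonneg_right (show u / 4 ≤ u / 2 - y0 by linarith) h3
  exact h4.trans h1

/-- **the set at the ends which are not removals** -/
theorem end_le (hI : P.Indep U V) (hU : ∀ s, Fac U (cU s)) (hV : ∀ s, Fac V (cV s)) (fU : Filt cU) (fV : Filt cV)
    (hσ : Stp (pair cU cV) σ) (hT : ∀ w, σ w < T)
    (hR : ∀ t v w, pair cU cV t v = pair cU cV t w → σ v = t → (Rm v ↔ Rm w))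
    (he : ∀ w, P.p w ≠ 0 → ¬ Rm w → cp P cU (σ w) (fun v => Vc (U v)) w ≤ y0 + ind (Bd w)) (h0 : 0 ≤ y0) :
    P.Pr (fun w => (sC P cU U Vc u (σ w) w ∧ ¬ Rm w) ∧ Vc (U w)) ≤
      y0 * P.Pr (fun w => sC P cU U Vc u (σ w) w) + P.Pr Bd := by
  have hA : ∀ v w, U v = U w → (Vc (U v) ↔ Vc (U w)) := fun v w e => by rw [e]
  have hF : ∀ t, Fac (pair cU cV t) (fun w => ind (σ w = t ∧ (sC P cU U Vc u (σ w) w ∧ ¬ Rm w))) := by
    refine ProdM.end_fac (pair_filt fU fV) hσ fun t v w e hv => ?_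
    have hw : σ w = t := (Tree.stp_eq (pair_filt fU fV) (fun _ => Fac.refl _) hσ e).1 hv
    rw [hv, hw, hR t v w e hv, sC_fac fU (pair_eq.1 e).1]
  have h1 : P.Pr (fun w => (sC P cU U Vc u (σ w) w ∧ ¬ Rm w) ∧ Vc (U w)) =
      P.E (fun w => ind (sC P cU U Vc u (σ w) w ∧ ¬ Rm w) * ind (Vc (U w))) := P.E_congr fun w _ => ind_and _ _
  rw [h1, ProdM.E_end (pair_filt fU fV) hσ hT hF (fun _ w => ind (Vc (U w))), FP.Pr, FP.Pr, ← FP.E_smul, ← FP.E_add]
  refine P.E_mono fun w hw => ?_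
  by_cases hc : sC P cU U Vc u (σ w) w ∧ ¬ Rm w
  · rw [ind_of hc, one_mul, ind_of hc.1, mul_one]
    have h2 := he w hw hc.2
    rw [← cp_pairU hI hU hV (σ w) _ hA hw] at h2
    exact h2
  · rw [ind_not hc, zero_mul]
    exact add_nonneg (mul_nonneg h0 (ind_nonneg _)) (ind_nonneg _)

/-- **THE PART `V`, ONE WORLD, one sample** -/
theorem mov_pt (hI : P.Indep U V) (hU : ∀ s, Fac U (cU s)) (hV : ∀ s, Fac V (cV s)) (fU : Filt cU) (fV : Filt cV)
    (hL : ∀ c y, F c y ≤ L) (hL0 : 0 ≤ L) (hK : ∀ c y, - K ≤ F c y) (hK0 : 0 ≤ K) (hlam : 0 < lam) (hu : 0 < u) {h : ℝ}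
    (hh : 0 ≤ h) {M : ℕ} (x : Fin M → α) (hσ : Stp (pair cU cV) σ) (hT : ∀ w, σ w < T)
    (hm : ∀ s w, P.p w ≠ 0 → P.m (cU s) w ≤ h * P.m (cU (s + 1)) w)
    {G : ℕ → Om → ℝ} (hG : ∀ s, Fac (fun w => (pair cV cU s w, V w)) (G s)) (hG0 : ∀ s w, 0 ≤ G s w)
    (hG1 : ∀ s w, G s w ≤ 1) {gY : Om → ℝ} (hg0 : ∀ w, P.p w ≠ 0 → 0 ≤ gY w)
    (hg : ∀ i w, P.p w ≠ 0 → ru P cV V F (x i) (σ w) w - lam / 2 ≤ gY w)
    (hR : ∀ t v w, pair cU cV t v = pair cU cV t w → σ v = t → (Rm v ↔ Rm w))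
    (he : ∀ w, P.p w ≠ 0 → ¬ Rm w → cp P cU (σ w) (fun v => Vc (U v)) w ≤ y0 + ind (Bd w)) (h0 : 0 ≤ y0)
    (hy : y0 ≤ u / 4) :
    L * P.E (fun w => ind (Vc (U w) ∧ ¬ rl P cU cV V F u lam (HU U Vc) 1 x (σ w + 1) w) * G (σ w) w) +
        P.E (fun w => ind (Rm w ∧ rl P cU cV V F u lam (HU U Vc) 1 x (σ w + 1) w) * F (U w) (V w)) ≤
      L * (u / 2) * P.E (fun w => G (σ w) w) +
        (2 * lam + (2 * lam + K) * (4 * y0 / u)) * P.Pr (fun w => Vc (U w) ∧ Rm w) +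
        2 * (2 * lam + K) * P.Pr Bd + L * (h * u / lam) * P.E gY +
        L * (P.Pr (fd P cV U V F lam x T) + P.Pr (fun w => dY P cV V F lam x 0 w)) := by
  have h1 := cr_main (P := P) (U := U) (V := V) (R := fun a _ => Vc a) (F := F) (u := u) (lam := lam) (L := L)
    (HU := HU U Vc) (M' := 1) hI hU hV fU fV hL hL0 hlam hu hh HU_fac x hσ hT hm hG hG0 hG1 hg0 hg
  set Z : ℝ := P.Pr (fun w => cov P cU u (HU U Vc) 1 (σ w + 1) w) with hZ
  set Y : ℝ := P.Pr (fun w => (sC P cU U Vc u (σ w) w ∧ ¬ Rm w) ∧ Vc (U w)) with hYd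
  set pR : ℝ := P.Pr (fun w => Vc (U w) ∧ Rm w) with hpR
  set pS : ℝ := P.Pr (fun w => sC P cU U Vc u (σ w) w) with hpS
  have hcov : ∀ w, cov P cU u (HU U Vc) 1 (σ w + 1) w → Vc (U w) ∧ sC P cU U Vc u (σ w) w := by
    intro w hw
    obtain ⟨h2, s, hs, h3⟩ := (cov_iff fU (σ w + 1)).1 hw
    exact ⟨h2, s, by omega, h3⟩
  have hrl : ∀ w, rl P cU cV V F u lam (HU U Vc) 1 x (σ w + 1) w → cov P cU u (HU U Vc) 1 (σ w + 1) w := by
    rintro w ⟨s, hs, hn, _⟩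
    exact cov_mono (by omega) hn.1
  -- no bad column
  have hb : P.Pr (badV P cU V U (fun _ a => Vc a) u (HU U Vc) 1 T) = 0 := by
    unfold FP.Pr
    rw [P.E_congr (g := fun _ => (0 : ℝ)) fun w _ => ind_not (badV_not hu T w)]
    exact P.E_const 0
  -- the numbers
  have hZ1 : Z ≤ pR + Y := by
    rw [hZ, hpR, hYd]
    unfold FP.Pr
    rw [← FP.E_add]
    refine P.E_mono fun w _ => ?_
    by_cases hc : cov P cU u (HU U Vc) 1 (σ w + 1) w
    · have h2 := hcov w hc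
      rw [ind_of hc]
      by_cases hr : Rm w
      · rw [ind_of (show Vc (U w) ∧ Rm w from ⟨h2.1, hr⟩)]
        have := ind_nonneg ((sC P cU U Vc u (σ w) w ∧ ¬ Rm w) ∧ Vc (U w))
        linarith
      · rw [ind_of (show (sC P cU U Vc u (σ w) w ∧ ¬ Rm w) ∧ Vc (U w) from ⟨⟨h2.2, hr⟩, h2.1⟩)]
        have := ind_nonneg (Vc (U w) ∧ Rm w)
        linarith
    · rw [ind_not hc]
      exact add_nonneg (ind_nonneg _) (ind_nonneg _)
  have hY1 : Y ≤ y0 * pS + P.Pr Bd := end_le hI hU hV fU fV hσ hT hR he h0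
  have hS1 : u / 4 * pS ≤ pR + P.Pr Bd := cnt_le hI hU hV fU fV hσ hT hR he h0 hy
  have hY2 : Y ≤ 4 * y0 / u * pR + 2 * P.Pr Bd := by
    have h2 : y0 * pS ≤ 4 * y0 / u * (pR + P.Pr Bd) := by
      have h3 := mul_le_mul_of_nonneg_left hS1 (show 0 ≤ 4 * y0 / u by positivity)
      refine le_trans (le_of_eq ?_) h3
      field_simp
    have h3 : 4 * y0 / u ≤ 1 := by
      rw [div_le_one hu]
      linarith
    have h4 := mul_le_mul_of_nonneg_right h3 (P.Pr_nonneg Bd)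
    linarith
  -- the potential
  have hPhi : P.E (fun w => Phi P cU u (HU U Vc) 1 (σ w) w) ≤ Z := by
    have hF : ∀ t, Fac (pair cU cV t) (fun w => ind (σ w = t ∧ True)) :=
      ProdM.end_fac (pair_filt fU fV) hσ fun _ _ _ _ _ => Iff.rfl
    have e1 := ProdM.E_end (P := P) (pair_filt fU fV) hσ hT hF (fun t w => ind (cov P cU u (HU U Vc) 1 (t + 1) w))
    have e2 : P.E (fun w => Phi P cU u (HU U Vc) 1 (σ w) w) ≤ P.E (fun w => ind True *
        P.ce (pair cU cV (σ w)) (fun v => ind (cov P cU u (HU U Vc) 1 (σ w + 1) v)) w) := by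
      refine P.E_mono fun w hw => ?_
      rw [ind_of trivial, one_mul]
      have e3 := cp_pairU hI hU hV (σ w) (cov P cU u (HU U Vc) 1 (σ w + 1)) (cov_fac hU HU_fac (σ w + 1)) hw
      have e4 : cp P cU (σ w) (Nn P cU u (HU U Vc) 1 0 (σ w + 1)) w ≤
          cp P cU (σ w) (cov P cU u (HU U Vc) 1 (σ w + 1)) w := by
        refine cp_mono (fun v hv => ?_) w
        obtain ⟨s', hs', h2⟩ := Nn_ex hv
        exact cov_mono (by omega) (nw_cov Nat.zero_lt_one h2)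
      have e5 : Phi P cU u (HU U Vc) 1 (σ w) w ≤ cp P cU (σ w) (Nn P cU u (HU U Vc) 1 0 (σ w + 1)) w := by
        unfold Phi
        rw [Finset.sum_range_one]
        exact max_le (by linarith) (cp_nonneg _ _ _)
      exact e5.trans (e4.trans (le_of_eq e3.symm))
    refine e2.trans (le_of_eq (e1.symm.trans ?_))
    rw [hZ]
    unfold FP.Pr
    refine P.E_congr fun w _ => ?_
    rw [ind_of trivial, one_mul]
  -- the released part at the end
  have hsg : P.E (fun w => ind (Rm w ∧ rl P cU cV V F u lam (HU U Vc) 1 x (σ w + 1) w) * F (U w) (V w)) ≤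
      P.E (fun w => ind (rl P cU cV V F u lam (HU U Vc) 1 x (σ w + 1) w) * F (U w) (V w)) + K * Y := by
    rw [hYd, FP.Pr, ← FP.E_smul, ← FP.E_add]
    refine P.E_mono fun w _ => ?_
    by_cases hc : rl P cU cV V F u lam (HU U Vc) 1 x (σ w + 1) w
    · have h2 := hcov w (hrl w hc)
      rw [ind_of hc, one_mul]
      by_cases hr : Rm w
      · rw [ind_of (show Rm w ∧ rl P cU cV V F u lam (HU U Vc) 1 x (σ w + 1) w from ⟨hr, hc⟩), one_mul]
        have := mul_nonneg hK0 (ind_nonneg ((sC P cU U Vc u (σ w) w ∧ ¬ Rm w) ∧ Vc (U w)))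
        linarith
      · rw [ind_not (fun hh => hr hh.1), zero_mul,
          ind_of (show (sC P cU U Vc u (σ w) w ∧ ¬ Rm w) ∧ Vc (U w) from ⟨⟨h2.2, hr⟩, h2.1⟩)]
        have := hK (U w) (V w)
        linarith
    · rw [ind_not hc, ind_not (fun hh => hc hh.2), zero_mul, zero_add]
      exact mul_nonneg hK0 (ind_nonneg _)
  rw [hb] at h1
  have h5 := mul_le_mul_of_nonneg_left (hPhi.trans hZ1) (show 0 ≤ 2 * lam by linarith)
  have h6 := mul_le_mul_of_nonneg_left hY2 (show 0 ≤ 2 * lam + K by linarith)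
  have h7 : (2 * lam + K) * (4 * y0 / u * pR + 2 * P.Pr Bd) =
      (2 * lam + K) * (4 * y0 / u) * pR + 2 * (2 * lam + K) * P.Pr Bd := by ring
  rw [h7] at h6
  linarith

/-- **THE PART `V`, ONE WORLD** (H3.MOV, M.7 (a)) -/
theorem mov_world [Fintype α] (hI : P.Indep U V) (hU : ∀ s, Fac U (cU s)) (hV : ∀ s, Fac V (cV s)) (fU : Filt cU)
    (fV : Filt cV) (hL : ∀ c y, F c y ≤ L) (hL0 : 0 ≤ L) (hK : ∀ c y, - K ≤ F c y) (hK0 : 0 ≤ K) (hlam : 0 < lam)
    (hu : 0 < u) {h : ℝ} (hh : 0 ≤ h) (M : ℕ) (hσ : Stp (pair cU cV) σ) (hT : ∀ w, σ w < T)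
    (hm : ∀ s w, P.p w ≠ 0 → P.m (cU s) w ≤ h * P.m (cU (s + 1)) w)
    {G : ℕ → Om → ℝ} (hG : ∀ s, Fac (fun w => (pair cV cU s w, V w)) (G s)) (hG0 : ∀ s w, 0 ≤ G s w)
    (hG1 : ∀ s w, G s w ≤ 1) {gY : (Fin M → α) → Om → ℝ} (hg0 : ∀ x w, P.p w ≠ 0 → 0 ≤ gY x w)
    (hg : ∀ x i w, P.p w ≠ 0 → ru P cV V F (x i) (σ w) w - lam / 2 ≤ gY x w)
    (hR : ∀ t v w, pair cU cV t v = pair cU cV t w → σ v = t → (Rm v ↔ Rm w))
    (he : ∀ w, P.p w ≠ 0 → ¬ Rm w → cp P cU (σ w) (fun v => Vc (U v)) w ≤ y0 + ind (Bd w)) (h0 : 0 ≤ y0)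
    (hy : y0 ≤ u / 4) :
    ∑ x : Fin M → α, sw (fun a => P.Pr (fun w => U w = a)) x *
      (L * P.E (fun w => ind (Vc (U w) ∧ ¬ rl P cU cV V F u lam (HU U Vc) 1 x (σ w + 1) w) * G (σ w) w) +
        P.E (fun w => ind (Rm w ∧ rl P cU cV V F u lam (HU U Vc) 1 x (σ w + 1) w) * F (U w) (V w))) ≤
      L * (u / 2) * P.E (fun w => G (σ w) w) +
        (2 * lam + (2 * lam + K) * (4 * y0 / u)) * P.Pr (fun w => Vc (U w) ∧ Rm w) +
        2 * (2 * lam + K) * P.Pr Bd +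
        ∑ x : Fin M → α, sw (fun a => P.Pr (fun w => U w = a)) x *
          (L * (h * u / lam) * P.E (gY x) + L * P.Pr (fun w => dY P cV V F lam x 0 w)) + L / ((M : ℝ) + 1) := by
  set q : α → ℝ := fun a => P.Pr (fun w => U w = a) with hq
  set A : ℝ := L * (u / 2) * P.E (fun w => G (σ w) w) +
        (2 * lam + (2 * lam + K) * (4 * y0 / u)) * P.Pr (fun w => Vc (U w) ∧ Rm w) +
        2 * (2 * lam + K) * P.Pr Bd with hA
  have q0 : ∀ x : Fin M → α, 0 ≤ sw q x := sw_nonneg (fun a => P.Pr_nonneg _)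
  have q1 : ∑ x : Fin M → α, sw q x = 1 := sw_sum (sum_law U) M
  have h1 : ∀ x : Fin M → α, sw q x *
      (L * P.E (fun w => ind (Vc (U w) ∧ ¬ rl P cU cV V F u lam (HU U Vc) 1 x (σ w + 1) w) * G (σ w) w) +
        P.E (fun w => ind (Rm w ∧ rl P cU cV V F u lam (HU U Vc) 1 x (σ w + 1) w) * F (U w) (V w))) ≤
      sw q x * A + sw q x * (L * (h * u / lam) * P.E (gY x) + L * P.Pr (fun w => dY P cV V F lam x 0 w)) +
        L * (sw q x * P.Pr (fd P cV U V F lam x T)) := by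
    intro x
    have h2 := mov_pt (P := P) (F := F) (Vc := Vc) (u := u) (lam := lam) (L := L) (K := K) (y0 := y0) (Rm := Rm)
      (Bd := Bd) hI hU hV fU fV hL hL0 hK hK0 hlam hu hh x hσ hT hm hG hG0 hG1 (hg0 x) (hg x) hR he h0 hy
    have h3 := mul_le_mul_of_nonneg_left h2 (q0 x)
    refine h3.trans (le_of_eq ?_)
    rw [hA]
    ring
  refine (Finset.sum_le_sum fun x _ => h1 x).trans ?_
  rw [Finset.sum_add_distrib, Finset.sum_add_distrib, ← Finset.sum_mul, q1, one_mul, ← Finset.mul_sum]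
  have h4 := mul_le_mul_of_nonneg_left (fd_le (P := P) (F := F) (lam := lam) hI hV M T) hL0
  have h5 : L * (1 / ((M : ℝ) + 1)) = L / ((M : ℝ) + 1) := by ring
  rw [h5] at h4
  linarith

end

end Pool.Agent.GMH.MovU
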