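import Pool.Agent.GMH.HPairT
import Pool.Agent.GMH.Fin0

/-!
# GMH/NTc: hypothesis `hNT` of `goal_rows`, and `PairE`, `TripE` over one run (helper49)

* `NT_ctx` : the first normalisation, for all runs with large `c0`, all inputs proved;
* `pair_ctx`, `trip_ctx` : `PairE`, `TripE` at the states before the six steps, for weights living in `PA`.
-/

set_option autoImplicit false
set_option linter.unusedSectionVars false

namespace Pool.Agent.GMH.CX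

open Finset Pool.Agent.PWZ Pool.Agent.M3 Pool.Agent.GM Pool.Agent.GM.Harm Pool.Agent.GMH Pool.Agent.GMH.NZ
open Pool.Agent.GMH.V3 Pool.Agent.GMH.TP Pool.Agent.GMH.TD Pool.Agent.GMH.Dy Pool.Agent.GMH.KF Pool.Agent.GMH.MVT

noncomputable section

/-- **the first normalisation** -/
theorem NT_ctx {A : ℕ} (hA : 80 ≤ A) : AllC A (fun C => ∑ t ∈ range C.T,
    NT C.h C.v C.dg t (fun w => Ar C.h C.v C.p (2 * t) w ∧ C.Gq t w) ≤ (pw C.Lam 16)⁻¹) :=
  ⟨740, fun C hC hc => NT_run C.H C.hL (by rw [hC]; exact hA) hc C.R⟩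

/-- exponentials beat the number of the digit -/
theorem c1_pow (A c : ℕ) : ∃ c0m : ℕ, ∀ c0, c0m ≤ c0 → c ≤ c0 ∧ 4 * c1F A c0 ≤ 4 ^ (c0 - c) := by
  refine ⟨2 * (c + 4 * A * A + 4), fun c0 hc0 => ⟨by omega, ?_⟩⟩
  obtain ⟨k, rfl⟩ := Nat.exists_eq_add_of_le hc0
  set m := c + 4 * A * A + 4 with hm
  have e : 2 * m + k - c = (m + k) + (4 * A * A + 4) := by omega
  have h1 : 4 * c1F A (2 * m + k) = 4 * A * A * (2 * m + k + 1) := by unfold c1F; ring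
  have h2 : 2 * m + k + 1 ≤ 4 ^ (m + k) := by
    have h3 : ∀ r : ℕ, 2 * r + 1 ≤ 4 ^ r := by
      intro r
      induction r with
      | zero => norm_num
      | succ r ih => rw [pow_succ]; omega
    have := h3 (m + k)
    omega
  have h3 : 4 * A * A ≤ 4 ^ (4 * A * A + 4) := by
    have h4 : ∀ r : ℕ, r ≤ 4 ^ r := fun r => (Nat.lt_pow_self (by norm_num)).le
    exact (h4 _).trans (Nat.pow_le_pow_right (by norm_num) (by omega))
  rw [h1, e, pow_add, mul_comm (4 ^ (m + k))]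
  exact Nat.mul_le_mul h3 h2

/-- **`PairE` over one run** : `c0` large after `A`, `j`, `c` -/
theorem pair_ctx {A : ℕ} (hA : 80 ≤ A) {c j : ℕ} (hcj : 8 * j + 62 ≤ c) : AllC A (fun C => ∀ t < C.T, ∀ s : Fin 6,
    ∀ aw : C.Q → ℝ, (∀ u, 0 ≤ aw u) → (∀ u, aw u ≤ 1) →
    (∀ w, (C.D.P C.h t).p w ≠ 0 → aw w ≠ 0 → TP.PA C.h C.v C.p (LTy C.Lam C.A C.c0 c) s t w) →
    PairE C.h C.v t (qs s t) aw (pw C.Lam j)⁻¹) := by
  obtain ⟨m, hm⟩ := c1_pow A c
  refine ⟨max m (10 * j + 80), fun C hC hc t ht s aw a0 a1 haw => ?_⟩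
  obtain ⟨h1, h2⟩ := hm C.c0 ((le_max_left _ _).trans hc)
  exact pair_step C.H C.hL (by rw [hC]; exact hA) hcj h1 ((le_max_right _ _).trans hc) (by rw [hC]; exact h2) C.R ht s
    a0 a1 haw

/-- **`TripE` over one run** -/
theorem trip_ctx {A : ℕ} (hA : 80 ≤ A) {c K : ℕ} (hcj : 16 * K + 110 ≤ c) : AllC A (fun C => ∀ t < C.T, ∀ s : Fin 6,
    ∀ aw : C.Q → ℝ, (∀ w, (C.D.P C.h t).p w ≠ 0 → aw w ≤ ind (TP.PA C.h C.v C.p (LTy C.Lam C.A C.c0 c) s t w)) →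
    TripE C.h C.v t (qs s t) aw (pw C.Lam K)⁻¹ (pw C.Lam K)⁻¹) := by
  obtain ⟨m, hm⟩ := c1_pow A c
  refine ⟨max m (20 * K + 140), fun C hC hc t ht s aw haw => ?_⟩
  obtain ⟨h1, h2⟩ := hm C.c0 ((le_max_left _ _).trans hc)
  exact tripP_step C.H C.hL (by rw [hC]; exact hA) hcj h1 ((le_max_right _ _).trans hc) (by rw [hC]; exact h2) C.R ht s haw

end

end Pool.Agent.GMH.CX
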