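import Pool.Agent.GMH.AC
import Pool.Agent.M3.KL
import Pool.Agent.M3.S3Key

/-!
# GMH/NZ (helper91): LEMMA S FOR TWO LETTERS (statics of HARM(3): vertex level, and private steps at one exact vertex)

`P` = law of a class cell, `Q ≪ P` the law after the addition (`Q = P.cond z`), `X`, `Y` two letters with their owners
(`X w = (b, λ_b)`, at exact `b`: `X w = (c, λ_c, f_bc)`, ..).  `loss = kl X + kl Y - kl (X, Y)`.
`rt Q P X x` = density of `X`, `J x y / (U x V y)` the density of the pair.  Regions for the pair `(x, y)`: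
`Reg` = (both strong and `J > (1 + eta) U V`) or (one strong with a bad row and the other active and not strong).

* `loss_le` : `loss ≤ Q.E g + (∑ J rt rt' exp (-g) - 1)` for every `g ≥ 0`;
* `loss_reg` : `loss ≤ Q.E (1_Reg log⁺ D) + ∑_(not Reg) (J - UV) rt rt'`, for EVERY set `Reg`;
* `nz_le` : `∑_(not Reg) (J - UV) rt rt' ≤ 2 B eps (K K')^(1/2) + (B tau + 2 h + eta) (K + K') + (4/h^2) (s K' + s' K)`,
  `K = kl X`, `s = Q (X strong and bad)`, `eps` = constant of the absolute covariance (`GMH/AC`), `tau` = good rows;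
* `lemS2` : both together.
-/

set_option autoImplicit false
set_option linter.unusedSectionVars false

namespace Pool.Agent.GMH.NZ

open Finset Pool.Agent.PWZ Pool.Agent.M3 Pool.Agent.GMH

noncomputable section

variable {Om : Type*} [Fintype Om] {Q P : FP Om} {κ ι : Type*} {X : Om → κ} {Y : Om → ι}

variable (Q P X) in
/-- density of the law of a letter -/
def rt (x : κ) : ℝ := lw Q X x / lw P X x

theorem rt_nonneg (x : κ) : 0 ≤ rt Q P X x := div_nonneg (lw_nonneg Q X x) (lw_nonneg P X x)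

theorem lw_eq_m (w : Om) : lw P X (X w) = P.m X w := rfl

theorem lw2_eq_m (w : Om) : lw2 P X Y (X w) (Y w) = P.m (fun v => (X v, Y v)) w := by
  unfold lw2 FP.m
  refine P.E_congr fun v _ => ?_
  by_cases h1 : X v = X w
  · by_cases h2 : Y v = Y w
    · rw [ind_of h1, ind_of h2, ind_of (show (fun v => (X v, Y v)) v = (fun v => (X v, Y v)) w by
        simp only [h1, h2]), one_mul]
    · rw [ind_not h2, mul_zero, ind_not (fun h => h2 (Prod.mk.injEq _ _ _ _ ▸ h : _ ∧ _).2)]
  · rw [ind_not h1, zero_mul, ind_not (fun h => h1 (Prod.mk.injEq _ _ _ _ ▸ h : _ ∧ _).1)]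

/-- a null letter is null for `Q` -/
theorem lw_ac (hac : Q.Ac P) {x : κ} (h : lw P X x = 0) : lw Q X x = 0 := by
  unfold lw at h ⊢
  have h1 : ∀ w, P.p w ≠ 0 → ind (X w = x) = 0 := by
    intro w hw
    by_contra hne
    have h2 : 0 < P.p w * ind (X w = x) :=
      mul_pos (lt_of_le_of_ne (P.nn w) (Ne.symm hw)) (lt_of_le_of_ne (ind_nonneg _) (Ne.symm hne))
    have h3 : P.p w * ind (X w = x) ≤ P.E fun w => ind (X w = x) :=
      Finset.single_le_sum (f := fun v => P.p v * ind (X v = x)) (fun v _ => mul_nonneg (P.nn v) (ind_nonneg _))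
        (mem_univ w)
    linarith
  have h2 : Q.E (fun w => ind (X w = x)) = Q.E fun _ => 0 := Q.E_congr fun w hw => h1 w (hac w hw)
  rw [h2, FP.E_const]

theorem lw_rt (hac : Q.Ac P) (x : κ) : lw P X x * rt Q P X x = lw Q X x := by
  unfold rt
  by_cases h : lw P X x = 0
  · rw [h, zero_mul, lw_ac hac h]
  · field_simp

theorem sum_rt (hac : Q.Ac P) (f : κ → ℝ) : ∑ x ∈ vals X, lw P X x * (rt Q P X x * f x) = Q.E fun w => f (X w) := by
  rw [← sum_lw Q X f]
  refine Finset.sum_congr rfl fun x _ => ?_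
  rw [← mul_assoc, lw_rt hac]

/-- the relative entropy of a letter -/
theorem kl_hphi (hac : Q.Ac P) : Q.kl P X = ∑ x ∈ vals X, lw P X x * hphi (rt Q P X x) := by
  have h1 : Q.kl P X = Q.E fun w => Real.log (rt Q P X (X w)) := rfl
  rw [h1, ← sum_rt hac (fun x => Real.log (rt Q P X x))]
  have h2 : ∑ x ∈ vals X, lw P X x * hphi (rt Q P X x) =
      ∑ x ∈ vals X, lw P X x * (rt Q P X x * Real.log (rt Q P X x)) -
        ∑ x ∈ vals X, lw P X x * (rt Q P X x * 1) + ∑ x ∈ vals X, lw P X x := by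
    rw [← Finset.sum_sub_distrib, ← Finset.sum_add_distrib]
    refine Finset.sum_congr rfl fun x _ => ?_
    unfold hphi
    ring
  have h3 : Q.E (fun _ => (1 : ℝ)) = 1 := Q.E_const 1
  rw [h2, sum_rt hac (fun _ => 1), h3, sum_lw_one]
  ring

variable (P X Y) in
/-- density of the pair with respect to the product -/
def Dd (x : κ) (y : ι) : ℝ := lw2 P X Y x y / (lw P X x * lw P Y y)

theorem Dd_nonneg (x : κ) (y : ι) : 0 ≤ Dd P X Y x y :=
  div_nonneg (lw2_nonneg P X Y x y) (mul_nonneg (lw_nonneg P X x) (lw_nonneg P Y y))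

variable (Q P X Y) in
/-- the loss -/
def loss : ℝ := Q.kl P X + Q.kl P Y - Q.kl P (fun w => (X w, Y w))

/-- **LEMMA S, two letters** -/
theorem loss_le (hac : Q.Ac P) (g : κ → ι → ℝ) :
    loss Q P X Y ≤ Q.E (fun w => g (X w) (Y w)) +
      (∑ x ∈ vals X, ∑ y ∈ vals Y, lw2 P X Y x y * (rt Q P X x * rt Q P Y y * Real.exp (-g x y)) - 1) := by
  -- pointwise
  set R : Om → ℝ := fun w => Q.m (fun v => (X v, Y v)) w / P.m (fun v => (X v, Y v)) w with hR
  have hpos : ∀ w, Q.p w ≠ 0 → 0 < rt Q P X (X w) ∧ 0 < rt Q P Y (Y w) ∧ 0 < R w := by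
    intro w hw
    have hp := hac w hw
    exact ⟨div_pos (Q.m_pos X hw) (P.m_pos X hp), div_pos (Q.m_pos Y hw) (P.m_pos Y hp),
      div_pos (Q.m_pos _ hw) (P.m_pos _ hp)⟩
  have h1 : loss Q P X Y = Q.E fun w => Real.log (rt Q P X (X w) * rt Q P Y (Y w) / R w) := by
    unfold loss FP.kl
    rw [← FP.E_add, ← FP.E_sub]
    refine Q.E_congr fun w hw => ?_
    obtain ⟨a, b, c⟩ := hpos w hw
    rw [Real.log_div (mul_pos a b).ne' c.ne', Real.log_mul a.ne' b.ne']
    rfl
  have h2 : loss Q P X Y ≤ Q.E (fun w => g (X w) (Y w)) +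
      (Q.E (fun w => rt Q P X (X w) * rt Q P Y (Y w) * Real.exp (-g (X w) (Y w)) / R w) - 1) := by
    rw [h1]
    have e1 : (1 : ℝ) = Q.E fun _ => 1 := (Q.E_const 1).symm
    rw [e1, ← FP.E_sub, ← FP.E_add]
    refine Q.E_mono fun w hw => ?_
    obtain ⟨a, b, c⟩ := hpos w hw
    have hq : 0 < rt Q P X (X w) * rt Q P Y (Y w) * Real.exp (-g (X w) (Y w)) / R w :=
      div_pos (mul_pos (mul_pos a b) (Real.exp_pos _)) c
    have h3 := Real.log_le_sub_one_of_pos hq
    have h4 : Real.log (rt Q P X (X w) * rt Q P Y (Y w) * Real.exp (-g (X w) (Y w)) / R w) =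
        Real.log (rt Q P X (X w) * rt Q P Y (Y w) / R w) - g (X w) (Y w) := by
      rw [Real.log_div (mul_pos (mul_pos a b) (Real.exp_pos _)).ne' c.ne', Real.log_mul (mul_pos a b).ne'
        (Real.exp_pos _).ne', Real.log_exp, Real.log_div (mul_pos a b).ne' c.ne']
      ring
    rw [h4] at h3
    linarith
  refine h2.trans ?_
  have h3 : Q.E (fun w => rt Q P X (X w) * rt Q P Y (Y w) * Real.exp (-g (X w) (Y w)) / R w) ≤
      ∑ x ∈ vals X, ∑ y ∈ vals Y, lw2 P X Y x y * (rt Q P X x * rt Q P Y y * Real.exp (-g x y)) := by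
    -- the mean over `Q` as a sum over the letters
    set F : κ → ι → ℝ := fun x y => rt Q P X x * rt Q P Y y * Real.exp (-g x y) with hF
    have hF0 : ∀ x y, 0 ≤ F x y := fun x y => mul_nonneg (mul_nonneg (rt_nonneg x) (rt_nonneg y)) (Real.exp_pos _).le
    have e1 : Q.E (fun w => rt Q P X (X w) * rt Q P Y (Y w) * Real.exp (-g (X w) (Y w)) / R w) =
        Q.E fun w => F (X w) (Y w) / (lw2 Q X Y (X w) (Y w) / lw2 P X Y (X w) (Y w)) := by
      refine Q.E_congr fun w _ => ?_
      rw [lw2_eq_m, lw2_eq_m]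
    rw [e1, ← sum_lw2 Q X Y (fun x y => F x y / (lw2 Q X Y x y / lw2 P X Y x y))]
    refine Finset.sum_le_sum fun x _ => Finset.sum_le_sum fun y _ => ?_
    by_cases h : lw2 Q X Y x y = 0
    · rw [h, zero_mul]
      exact mul_nonneg (lw2_nonneg P X Y x y) (hF0 x y)
    · refine le_of_eq ?_
      by_cases h' : lw2 P X Y x y = 0
      · rw [h']
        simp
      · rw [hF]
        field_simp
  linarith

theorem sum_prod_rt (hac : Q.Ac P) : ∑ x ∈ vals X, ∑ y ∈ vals Y, lw P X x * lw P Y y * (rt Q P X x * rt Q P Y y) = 1 := by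
  have h1 : ∀ x ∈ vals X, ∑ y ∈ vals Y, lw P X x * lw P Y y * (rt Q P X x * rt Q P Y y) =
      (lw P X x * (rt Q P X x * 1)) := by
    intro x _
    have h2 := sum_rt (P := P) (Q := Q) (X := Y) hac (fun _ => 1)
    rw [Q.E_const] at h2
    calc ∑ y ∈ vals Y, lw P X x * lw P Y y * (rt Q P X x * rt Q P Y y) =
        ∑ y ∈ vals Y, lw P X x * rt Q P X x * (lw P Y y * (rt Q P Y y * 1)) :=
          Finset.sum_congr rfl fun y _ => by ring
      _ = lw P X x * (rt Q P X x * 1) := by rw [← Finset.mul_sum, h2]; ring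
  rw [Finset.sum_congr rfl h1, sum_rt hac (fun _ => 1), Q.E_const]

/-- **LEMMA S with a region** : any set `Reg` of pairs -/
theorem loss_reg (hac : Q.Ac P) (Reg : κ → ι → Prop) :
    loss Q P X Y ≤ Q.E (fun w => ind (Reg (X w) (Y w)) * max (Real.log (Dd P X Y (X w) (Y w))) 0) +
      ∑ x ∈ vals X, ∑ y ∈ vals Y, (lw2 P X Y x y - lw P X x * lw P Y y) *
        (rt Q P X x * rt Q P Y y * ind (¬ Reg x y)) := by
  have h1 := loss_le (X := X) (Y := Y) hac (fun x y => ind (Reg x y) * max (Real.log (Dd P X Y x y)) 0)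
  refine h1.trans (add_le_add_right ?_ _)
  rw [← sum_prod_rt (X := X) (Y := Y) hac, ← Finset.sum_sub_distrib]
  refine Finset.sum_le_sum fun x _ => ?_
  rw [← Finset.sum_sub_distrib]
  refine Finset.sum_le_sum fun y _ => ?_
  set a := rt Q P X x * rt Q P Y y with ha
  have ha0 : 0 ≤ a := mul_nonneg (rt_nonneg x) (rt_nonneg y)
  have hJ := lw2_nonneg P X Y x y
  have hU := lw_nonneg P X x
  have hV := lw_nonneg P Y y
  by_cases hr : Reg x y
  · rw [ind_of hr, ind_not (fun h => h hr), mul_zero, mul_zero, one_mul]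
    have h2 : lw2 P X Y x y * Real.exp (-max (Real.log (Dd P X Y x y)) 0) ≤ lw P X x * lw P Y y := by
      rcases hJ.eq_or_lt with h | h
      · rw [← h, zero_mul]; positivity
      · have hUV : 0 < lw P X x * lw P Y y := by
          have h3 : lw2 P X Y x y ≤ lw P X x := by
            unfold lw2 lw
            exact P.E_mono fun w _ => mul_le_of_le_one_right (ind_nonneg _) (ind_le_one _)
          have h4 : lw2 P X Y x y ≤ lw P Y y := by
            unfold lw2 lw
            exact P.E_mono fun w _ => mul_le_of_le_one_left (ind_nonneg _) (ind_le_one _)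
          exact mul_pos (lt_of_lt_of_le h h3) (lt_of_lt_of_le h h4)
        have hD : 0 < Dd P X Y x y := div_pos h hUV
        rw [Real.exp_neg]
        have h5 : Dd P X Y x y ≤ Real.exp (max (Real.log (Dd P X Y x y)) 0) := by
          rw [← Real.exp_log hD]
          exact Real.exp_le_exp.2 (by rw [Real.log_exp]; exact le_max_left _ _)
        have h6 : lw2 P X Y x y = Dd P X Y x y * (lw P X x * lw P Y y) := by
          unfold Dd
          rw [div_mul_cancel₀ _ hUV.ne']
        rw [← div_eq_mul_inv, div_le_iff₀ (Real.exp_pos _)]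
        calc lw2 P X Y x y = Dd P X Y x y * (lw P X x * lw P Y y) := h6
          _ ≤ Real.exp (max (Real.log (Dd P X Y x y)) 0) * (lw P X x * lw P Y y) :=
              mul_le_mul_of_nonneg_right h5 hUV.le
          _ = _ := by ring
    have h3 := mul_le_mul_of_nonneg_right h2 ha0
    nlinarith [h3]
  · rw [ind_not hr, ind_of hr, zero_mul, neg_zero, Real.exp_zero]
    linarith

/-! ## the region of LEMMA S -/

variable (Q P X Y) in
/-- the region: both strong and hot, or one strong with a bad row and the other active -/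
def Reg (B h eta : ℝ) (Bx : κ → Prop) (By : ι → Prop) (x : κ) (y : ι) : Prop :=
  (B < rt Q P X x ∧ B < rt Q P Y y ∧ (1 + eta) * (lw P X x * lw P Y y) < lw2 P X Y x y) ∨
  (B < rt Q P X x ∧ ¬ B < rt Q P Y y ∧ Bx x ∧ h < |rt Q P Y y - 1|) ∨
  (¬ B < rt Q P X x ∧ B < rt Q P Y y ∧ By y ∧ h < |rt Q P X x - 1|)

/-- few active letters -/
theorem act_le (hac : Q.Ac P) {h : ℝ} (h0 : 0 < h) (h1 : h ≤ 1) :
    ∑ x ∈ vals X, lw P X x * ind (h < |rt Q P X x - 1|) ≤ 4 / h ^ 2 * Q.kl P X := by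
  rw [kl_hphi hac, Finset.mul_sum]
  refine Finset.sum_le_sum fun x _ => ?_
  set a := rt Q P X x with ha
  have ha0 : 0 ≤ a := rt_nonneg x
  have hU := lw_nonneg P X x
  have hp := hphi_nonneg ha0
  by_cases hx : h < |a - 1|
  · rw [ind_of hx, mul_one]
    have h2 := hphi_sq ha0
    have h3 : h ^ 2 / 4 ≤ hphi a := by
      rcases le_total a 2 with h4 | h4
      · have h5 : max 1 a ≤ 2 := max_le (by norm_num) h4
        have h6 : h ^ 2 ≤ (a - 1) ^ 2 := by
          rw [← sq_abs (a - 1)]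
          exact pow_le_pow_left₀ h0.le hx.le 2
        nlinarith [mul_le_mul_of_nonneg_right h5 hp]
      · have h5 : max 1 a = a := max_eq_right (by linarith)
        rw [h5] at h2
        have h6 : (a - 1) ^ 2 ≥ a / 2 * (1 : ℝ) := by nlinarith
        have h7 : 1 / 4 ≤ hphi a := by
          by_contra hcon
          push Not at hcon
          nlinarith
        have h8 : h ^ 2 ≤ 1 := by nlinarith
        linarith
    have h4 : 1 ≤ 4 / h ^ 2 * hphi a := by
      rw [div_mul_eq_mul_div, le_div_iff₀ (by positivity)]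
      linarith
    calc lw P X x = lw P X x * 1 := (mul_one _).symm
      _ ≤ lw P X x * (4 / h ^ 2 * hphi a) := mul_le_mul_of_nonneg_left h4 hU
      _ = _ := by ring
  · rw [ind_not hx, mul_zero]
    positivity

/-- the strong letters are paid -/
theorem strong_le (hac : Q.Ac P) {B : ℝ} (hB : Real.exp 2 ≤ B) :
    ∑ x ∈ vals X, lw P X x * hsg B (rt Q P X x) ≤ Q.kl P X := by
  rw [kl_hphi hac]
  exact Finset.sum_le_sum fun x _ => mul_le_mul_of_nonneg_left (sg_le_hphi hB (rt_nonneg x)) (lw_nonneg P X x)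

/-- the weak letters -/
theorem weak_le (hac : Q.Ac P) {B : ℝ} (hB : Real.exp 2 ≤ B) :
    P.E (fun w => (|hwk B (rt Q P X (X w)) - 1|) ^ 2) ≤ 2 * B * Q.kl P X := by
  rw [← sum_lw P X (fun x => (|hwk B (rt Q P X x) - 1|) ^ 2), kl_hphi hac, Finset.mul_sum]
  refine Finset.sum_le_sum fun x _ => ?_
  rw [sq_abs]
  calc _ ≤ lw P X x * (2 * B * hphi (rt Q P X x)) :=
        mul_le_mul_of_nonneg_left (wk_sub_sq_le hB (rt_nonneg x)) (lw_nonneg P X x)
    _ = _ := by ring

/-- additive functions are not seen by `J - UV` -/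
theorem lin_zero (f : κ → ℝ) (g : ι → ℝ) (c : ℝ) :
    ∑ x ∈ vals X, ∑ y ∈ vals Y, (lw2 P X Y x y - lw P X x * lw P Y y) * (f x + g y + c) = 0 := by
  have h1 : ∑ x ∈ vals X, ∑ y ∈ vals Y, (lw2 P X Y x y - lw P X x * lw P Y y) * f x = 0 := by
    refine Finset.sum_eq_zero (fun x _ => ?_)
    rw [← Finset.sum_mul, Finset.sum_sub_distrib, sum_lw2_row, ← Finset.mul_sum, sum_lw_one]
    ring
  have h2 : ∑ x ∈ vals X, ∑ y ∈ vals Y, (lw2 P X Y x y - lw P X x * lw P Y y) * g y = 0 := by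
    rw [Finset.sum_comm]
    refine Finset.sum_eq_zero (fun y _ => ?_)
    rw [← Finset.sum_mul, Finset.sum_sub_distrib, sum_lw2_col, ← Finset.sum_mul, sum_lw_one]
    ring
  have h3 : ∑ x ∈ vals X, ∑ y ∈ vals Y, (lw2 P X Y x y - lw P X x * lw P Y y) * c = 0 := by
    refine Finset.sum_eq_zero (fun x _ => ?_)
    rw [← Finset.sum_mul, Finset.sum_sub_distrib, sum_lw2_row, ← Finset.mul_sum, sum_lw_one]
    ring
  have e : ∑ x ∈ vals X, ∑ y ∈ vals Y, (lw2 P X Y x y - lw P X x * lw P Y y) * (f x + g y + c) =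
      ∑ x ∈ vals X, ∑ y ∈ vals Y, (lw2 P X Y x y - lw P X x * lw P Y y) * f x +
      ∑ x ∈ vals X, ∑ y ∈ vals Y, (lw2 P X Y x y - lw P X x * lw P Y y) * g y +
      ∑ x ∈ vals X, ∑ y ∈ vals Y, (lw2 P X Y x y - lw P X x * lw P Y y) * c := by
    rw [← Finset.sum_add_distrib, ← Finset.sum_add_distrib]
    refine Finset.sum_congr rfl (fun x _ => ?_)
    rw [← Finset.sum_add_distrib, ← Finset.sum_add_distrib]
    exact Finset.sum_congr rfl (fun y _ => by ring)
  rw [e, h1, h2, h3]
  ring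

/-- one strong letter `x`, the other not strong -/
theorem one_strong {B h τ : ℝ} (hB : Real.exp 2 ≤ B) (h0 : 0 < h) (h1 : h ≤ 1) {Bx : κ → Prop} {x : κ}
    {a : κ → ℝ} {b : ι → ℝ} (hax : 0 ≤ a x) (hb : ∀ y, 0 ≤ b y) (hτ : 0 ≤ τ)
    (gx : ¬ Bx x → rowd P X Y x ≤ τ * lw P X x) :
    ∑ y ∈ vals Y, (lw2 P X Y x y - lw P X x * lw P Y y) *
        (a x * hwk B (b y) * ind (¬ (Bx x ∧ h < |b y - 1|))) ≤
      B * τ * (lw P X x * a x) + 2 * h * (lw P X x * a x) +
        ind (Bx x) * (lw P X x * a x) * ∑ y ∈ vals Y, lw P Y y * ind (h < |b y - 1|) := by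
  have hB0 : 0 ≤ B := by
    have := Real.add_one_le_exp 2
    linarith
  have hU := lw_nonneg P X x
  have hUa : 0 ≤ lw P X x * a x := mul_nonneg hU hax
  have hact : 0 ≤ ∑ y ∈ vals Y, lw P Y y * ind (h < |b y - 1|) :=
    Finset.sum_nonneg fun y _ => mul_nonneg (lw_nonneg P Y y) (ind_nonneg _)
  by_cases hx : Bx x
  · -- bad row: only inert letters
    rw [ind_of hx, one_mul]
    have h2 : ∀ y ∈ vals Y, (lw2 P X Y x y - lw P X x * lw P Y y) *
        (a x * hwk B (b y) * ind (¬ (Bx x ∧ h < |b y - 1|))) ≤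
        a x * ((1 + h) * lw2 P X Y x y - (1 - h) * (lw P X x * (lw P Y y - lw P Y y * ind (h < |b y - 1|)))) := by
      intro y _
      have hJ := lw2_nonneg P X Y x y
      have hV := lw_nonneg P Y y
      have hUV : 0 ≤ lw P X x * lw P Y y := mul_nonneg hU hV
      by_cases hy : h < |b y - 1|
      · rw [ind_not (fun h' => h' ⟨hx, hy⟩), mul_zero, mul_zero, ind_of hy]
        have : 0 ≤ (1 + h) * lw2 P X Y x y := mul_nonneg (by linarith) hJ
        have h3 : (1 - h) * (lw P X x * (lw P Y y - lw P Y y * 1)) = 0 := by ring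
        rw [h3, sub_zero]
        exact mul_nonneg hax this
      · rw [ind_of (fun h' => hy h'.2), ind_not hy, mul_one, mul_zero, sub_zero]
        have hby := not_lt.1 hy
        obtain ⟨c1, c2⟩ := abs_le.1 hby
        have hBb : ¬ B < b y := by
          have := Real.add_one_le_exp 2
          intro h'
          linarith
        have hw : hwk B (b y) = b y := by
          unfold hwk
          rw [ind_of hBb, one_mul]
        rw [hw]
        have c3 : lw2 P X Y x y * b y ≤ (1 + h) * lw2 P X Y x y := by nlinarith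
        have c4 : (1 - h) * (lw P X x * lw P Y y) ≤ lw P X x * lw P Y y * b y := by nlinarith
        have c5 : (lw2 P X Y x y - lw P X x * lw P Y y) * (a x * b y) =
            a x * (lw2 P X Y x y * b y - lw P X x * lw P Y y * b y) := by ring
        rw [c5]
        exact mul_le_mul_of_nonneg_left (by linarith) hax
    refine (Finset.sum_le_sum h2).trans ?_
    rw [← Finset.mul_sum, Finset.sum_sub_distrib, ← Finset.mul_sum, sum_lw2_row, ← Finset.mul_sum, ← Finset.mul_sum,
      Finset.sum_sub_distrib, sum_lw_one]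
    set S := ∑ y ∈ vals Y, lw P Y y * ind (h < |b y - 1|) with hS
    have hBt : 0 ≤ B * τ * (lw P X x * a x) := mul_nonneg (mul_nonneg hB0 hτ) hUa
    have e1 : a x * ((1 + h) * lw P X x - (1 - h) * (lw P X x * (1 - S))) =
        2 * h * (lw P X x * a x) + (1 - h) * S * (lw P X x * a x) := by ring
    rw [e1]
    have h3 : (1 - h) * S * (lw P X x * a x) ≤ 1 * S * (lw P X x * a x) :=
      mul_le_mul_of_nonneg_right (mul_le_mul_of_nonneg_right (by linarith) hact) hUa
    nlinarith [h3]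
  · -- good row
    rw [ind_not hx, zero_mul, zero_mul, add_zero]
    have h2 : ∀ y ∈ vals Y, (lw2 P X Y x y - lw P X x * lw P Y y) *
        (a x * hwk B (b y) * ind (¬ (Bx x ∧ h < |b y - 1|))) ≤
        a x * B * |lw2 P X Y x y - lw P X x * lw P Y y| := by
      intro y _
      rw [ind_of (fun h' => hx h'.1), mul_one]
      have c1 := hwk_nonneg (B := B) (hb y)
      have c2 := hwk_le (B := B) (x := b y) hB0
      have c3 := le_abs_self (lw2 P X Y x y - lw P X x * lw P Y y)
      have c4 := abs_nonneg (lw2 P X Y x y - lw P X x * lw P Y y)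
      calc (lw2 P X Y x y - lw P X x * lw P Y y) * (a x * hwk B (b y)) ≤
          |lw2 P X Y x y - lw P X x * lw P Y y| * (a x * hwk B (b y)) :=
            mul_le_mul_of_nonneg_right c3 (mul_nonneg hax c1)
        _ ≤ |lw2 P X Y x y - lw P X x * lw P Y y| * (a x * B) :=
            mul_le_mul_of_nonneg_left (mul_le_mul_of_nonneg_left c2 hax) c4
        _ = _ := by ring
    refine (Finset.sum_le_sum h2).trans ?_
    rw [← Finset.mul_sum]
    have h3 := gx hx
    unfold rowd at h3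
    have h4 := mul_le_mul_of_nonneg_left h3 (mul_nonneg hax hB0)
    have h5 : 0 ≤ 2 * h * (lw P X x * a x) := by positivity
    nlinarith

theorem lw2_swap (x : κ) (y : ι) : lw2 P Y X y x = lw2 P X Y x y := by
  unfold lw2
  exact P.E_congr fun w _ => mul_comm _ _

theorem cold_eq (y : ι) : cold P X Y y = rowd P Y X y := by
  unfold cold rowd
  refine Finset.sum_congr rfl fun x _ => ?_
  rw [lw2_swap, mul_comm (lw P Y y)]

/-- probability under `Q` of the strong bad letters -/
theorem sbad_eq (hac : Q.Ac P) {B : ℝ} (Bx : κ → Prop) :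
    ∑ x ∈ vals X, ind (Bx x) * (lw P X x * hsg B (rt Q P X x)) = Q.Pr fun w => B < rt Q P X (X w) ∧ Bx (X w) := by
  unfold FP.Pr
  rw [← sum_rt hac (fun x => ind (B < rt Q P X x ∧ Bx x))]
  refine Finset.sum_congr rfl fun x _ => ?_
  unfold hsg
  by_cases h1 : B < rt Q P X x
  · by_cases h2 : Bx x
    · rw [ind_of h1, ind_of h2, ind_of (show B < rt Q P X x ∧ Bx x from ⟨h1, h2⟩)]; ring
    · rw [ind_not h2, ind_not (show ¬ (B < rt Q P X x ∧ Bx x) from fun h => h2 h.2)]; ring
  · rw [ind_not h1, ind_not (show ¬ (B < rt Q P X x ∧ Bx x) from fun h => h1 h.1)]; ring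

/-- **THE NORMALISATION OUTSIDE THE REGION** -/
theorem nz_le (hac : Q.Ac P) {B h eta τ eps : ℝ} (hB : Real.exp 2 ≤ B) (h0 : 0 < h) (h1 : h ≤ 1) (heta : 0 ≤ eta)
    (hτ : 0 ≤ τ) (heps : 0 ≤ eps) {Bx : κ → Prop} {By : ι → Prop}
    (gx : ∀ x, ¬ Bx x → rowd P X Y x ≤ τ * lw P X x) (gy : ∀ y, ¬ By y → cold P X Y y ≤ τ * lw P Y y)
    (hcov : ∀ (l : κ → ℝ) (k : ι → ℝ), (∀ x, 0 ≤ l x) → (∀ y, 0 ≤ k y) →
      ∑ x ∈ vals X, ∑ y ∈ vals Y, |lw2 P X Y x y - lw P X x * lw P Y y| * (l x * k y) ≤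
        eps * (Real.sqrt (P.E fun w => l (X w) ^ 2) * Real.sqrt (P.E fun w => k (Y w) ^ 2))) :
    ∑ x ∈ vals X, ∑ y ∈ vals Y, (lw2 P X Y x y - lw P X x * lw P Y y) *
        (rt Q P X x * rt Q P Y y * ind (¬ Reg Q P X Y B h eta Bx By x y)) ≤
      2 * B * eps * Real.sqrt (Q.kl P X * Q.kl P Y) + (B * τ + 2 * h + eta) * (Q.kl P X + Q.kl P Y) +
        4 / h ^ 2 * ((Q.Pr fun w => B < rt Q P X (X w) ∧ Bx (X w)) * Q.kl P Y +
          (Q.Pr fun w => B < rt Q P Y (Y w) ∧ By (Y w)) * Q.kl P X) := by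
  have hB0 : 0 ≤ B := by
    have := Real.add_one_le_exp 2
    linarith
  set a : κ → ℝ := rt Q P X with ha
  set b : ι → ℝ := rt Q P Y with hb
  have ha0 : ∀ x, 0 ≤ a x := rt_nonneg
  have hb0 : ∀ y, 0 ≤ b y := rt_nonneg
  set K := Q.kl P X with hK
  set K' := Q.kl P Y with hK'
  have hK0 : 0 ≤ K := FP.kl_nonneg hac X
  have hK'0 : 0 ≤ K' := FP.kl_nonneg hac Y
  set δ : κ → ι → ℝ := fun x y => lw2 P X Y x y - lw P X x * lw P Y y with hδ
  -- splitting
  have hsp : ∀ x y, a x * b y * ind (¬ Reg Q P X Y B h eta Bx By x y) =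
      ((hwk B (a x) - 1) * (hwk B (b y) - 1) + (hwk B (a x) + hwk B (b y) + (-1))) +
      hsg B (a x) * hwk B (b y) * ind (¬ (Bx x ∧ h < |b y - 1|)) +
      hsg B (b y) * hwk B (a x) * ind (¬ (By y ∧ h < |a x - 1|)) +
      hsg B (a x) * hsg B (b y) * ind (¬ ((1 + eta) * (lw P X x * lw P Y y) < lw2 P X Y x y)) := by
    intro x y
    have e0 : (hwk B (a x) - 1) * (hwk B (b y) - 1) + (hwk B (a x) + hwk B (b y) + (-1)) =
        hwk B (a x) * hwk B (b y) := by ring
    rw [e0]
    unfold hwk hsg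
    by_cases c1 : B < a x
    · by_cases c2 : B < b y
      · have e1 : Reg Q P X Y B h eta Bx By x y ↔ (1 + eta) * (lw P X x * lw P Y y) < lw2 P X Y x y := by
          unfold Reg
          constructor
          · rintro (h' | h' | h')
            · exact h'.2.2
            · exact absurd c2 h'.2.1
            · exact absurd c1 h'.1
          · intro h'
            exact Or.inl ⟨c1, c2, h'⟩
        rw [propext e1, ind_of c1, ind_of c2, ind_not (show ¬ ¬ B < a x from fun h' => h' c1),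
          ind_not (show ¬ ¬ B < b y from fun h' => h' c2)]
        ring
      · have e1 : Reg Q P X Y B h eta Bx By x y ↔ (Bx x ∧ h < |b y - 1|) := by
          unfold Reg
          constructor
          · rintro (h' | h' | h')
            · exact absurd h'.2.1 c2
            · exact h'.2.2
            · exact absurd c1 h'.1
          · intro h'
            exact Or.inr (Or.inl ⟨c1, c2, h'⟩)
        rw [propext e1, ind_of c1, ind_not c2, ind_not (show ¬ ¬ B < a x from fun h' => h' c1), ind_of c2]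
        ring
    · by_cases c2 : B < b y
      · have e1 : Reg Q P X Y B h eta Bx By x y ↔ (By y ∧ h < |a x - 1|) := by
          unfold Reg
          constructor
          · rintro (h' | h' | h')
            · exact absurd h'.1 c1
            · exact absurd h'.1 c1
            · exact h'.2.2
          · intro h'
            exact Or.inr (Or.inr ⟨c1, c2, h'⟩)
        rw [propext e1, ind_not c1, ind_of c2, ind_of c1, ind_not (show ¬ ¬ B < b y from fun h' => h' c2)]
        ring
      · have e1 : ¬ Reg Q P X Y B h eta Bx By x y := by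
          unfold Reg
          rintro (h' | h' | h')
          · exact c1 h'.1
          · exact c1 h'.1
          · exact c2 h'.2.1
        rw [ind_of e1, ind_not c1, ind_not c2, ind_of c1, ind_of c2]
        ring
  -- the four parts
  have hsum : ∑ x ∈ vals X, ∑ y ∈ vals Y, δ x y * (a x * b y * ind (¬ Reg Q P X Y B h eta Bx By x y)) =
      ∑ x ∈ vals X, ∑ y ∈ vals Y, δ x y * ((hwk B (a x) - 1) * (hwk B (b y) - 1)) +
      ∑ x ∈ vals X, ∑ y ∈ vals Y, δ x y * (hwk B (a x) + hwk B (b y) + (-1)) +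
      ∑ x ∈ vals X, ∑ y ∈ vals Y, δ x y * (hsg B (a x) * hwk B (b y) * ind (¬ (Bx x ∧ h < |b y - 1|))) +
      ∑ y ∈ vals Y, ∑ x ∈ vals X, δ x y * (hsg B (b y) * hwk B (a x) * ind (¬ (By y ∧ h < |a x - 1|))) +
      ∑ x ∈ vals X, ∑ y ∈ vals Y, δ x y * (hsg B (a x) * hsg B (b y) *
        ind (¬ ((1 + eta) * (lw P X x * lw P Y y) < lw2 P X Y x y))) := by
    rw [Finset.sum_comm (s := vals Y) (t := vals X), ← Finset.sum_add_distrib, ← Finset.sum_add_distrib,
      ← Finset.sum_add_distrib, ← Finset.sum_add_distrib]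
    refine Finset.sum_congr rfl fun x _ => ?_
    rw [← Finset.sum_add_distrib, ← Finset.sum_add_distrib, ← Finset.sum_add_distrib, ← Finset.sum_add_distrib]
    refine Finset.sum_congr rfl fun y _ => ?_
    rw [hsp x y]
    ring
  have hlin := lin_zero (P := P) (X := X) (Y := Y) (fun x => hwk B (a x)) (fun y => hwk B (b y)) (-1)
  -- weak weak
  have t00 : ∑ x ∈ vals X, ∑ y ∈ vals Y, δ x y * ((hwk B (a x) - 1) * (hwk B (b y) - 1)) ≤
      2 * B * eps * Real.sqrt (K * K') := by
    have c1 := hcov (fun x => |hwk B (a x) - 1|) (fun y => |hwk B (b y) - 1|) (fun _ => abs_nonneg _)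
      (fun _ => abs_nonneg _)
    have c2 : ∑ x ∈ vals X, ∑ y ∈ vals Y, δ x y * ((hwk B (a x) - 1) * (hwk B (b y) - 1)) ≤
        ∑ x ∈ vals X, ∑ y ∈ vals Y, |δ x y| * (|hwk B (a x) - 1| * |hwk B (b y) - 1|) := by
      refine Finset.sum_le_sum fun x _ => Finset.sum_le_sum fun y _ => ?_
      rw [← abs_mul, ← abs_mul]
      exact le_abs_self _
    refine (c2.trans c1).trans ?_
    have c3 := Real.sqrt_le_sqrt (weak_le (X := X) hac hB)
    have c4 := Real.sqrt_le_sqrt (weak_le (X := Y) hac hB)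
    have c5 := mul_le_mul c3 c4 (Real.sqrt_nonneg _) (Real.sqrt_nonneg _)
    have c6 : Real.sqrt (2 * B * K) * Real.sqrt (2 * B * K') = 2 * B * Real.sqrt (K * K') := by
      rw [← Real.sqrt_mul (by positivity)]
      have : 2 * B * K * (2 * B * K') = (2 * B) ^ 2 * (K * K') := by ring
      rw [this, Real.sqrt_mul (by positivity), Real.sqrt_sq (by positivity)]
    have c7 := mul_le_mul_of_nonneg_left c5 heps
    rw [← hK, ← hK', c6] at c7
    calc _ ≤ eps * (2 * B * Real.sqrt (K * K')) := c7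
      _ = _ := by ring
  -- one strong letter
  have t10 : ∑ x ∈ vals X, ∑ y ∈ vals Y, δ x y * (hsg B (a x) * hwk B (b y) * ind (¬ (Bx x ∧ h < |b y - 1|))) ≤
      (B * τ + 2 * h) * K + 4 / h ^ 2 * ((Q.Pr fun w => B < rt Q P X (X w) ∧ Bx (X w)) * K') := by
    have c1 : ∀ x ∈ vals X, ∑ y ∈ vals Y, δ x y * (hsg B (a x) * hwk B (b y) * ind (¬ (Bx x ∧ h < |b y - 1|))) ≤
        (B * τ + 2 * h) * (lw P X x * hsg B (a x)) +
          ind (Bx x) * (lw P X x * hsg B (a x)) * ∑ y ∈ vals Y, lw P Y y * ind (h < |b y - 1|) := by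
      intro x _
      have := one_strong (P := P) (X := X) (Y := Y) (a := fun x => hsg B (a x)) (b := b) hB h0 h1
        (hsg_nonneg (ha0 x)) hb0 hτ (gx x)
      refine this.trans (le_of_eq ?_)
      ring
    refine (Finset.sum_le_sum c1).trans ?_
    rw [Finset.sum_add_distrib, ← Finset.mul_sum, ← Finset.sum_mul, sbad_eq hac Bx]
    have c2 := strong_le (X := X) hac hB
    have c3 := act_le (X := Y) hac h0 h1
    have c4 : 0 ≤ B * τ + 2 * h := by positivity
    have c5 : 0 ≤ Q.Pr fun w => B < rt Q P X (X w) ∧ Bx (X w) := Q.Pr_nonneg _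
    have c6 := mul_le_mul_of_nonneg_left c2 c4
    have c7 := mul_le_mul_of_nonneg_left c3 c5
    calc _ ≤ (B * τ + 2 * h) * K + (Q.Pr fun w => B < rt Q P X (X w) ∧ Bx (X w)) * (4 / h ^ 2 * K') :=
          add_le_add c6 c7
      _ = _ := by ring
  have t01 : ∑ y ∈ vals Y, ∑ x ∈ vals X, δ x y * (hsg B (b y) * hwk B (a x) * ind (¬ (By y ∧ h < |a x - 1|))) ≤
      (B * τ + 2 * h) * K' + 4 / h ^ 2 * ((Q.Pr fun w => B < rt Q P Y (Y w) ∧ By (Y w)) * K) := by
    have c1 : ∀ y ∈ vals Y, ∑ x ∈ vals X, δ x y * (hsg B (b y) * hwk B (a x) * ind (¬ (By y ∧ h < |a x - 1|))) ≤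
        (B * τ + 2 * h) * (lw P Y y * hsg B (b y)) +
          ind (By y) * (lw P Y y * hsg B (b y)) * ∑ x ∈ vals X, lw P X x * ind (h < |a x - 1|) := by
      intro y _
      have := one_strong (P := P) (X := Y) (Y := X) (a := fun y => hsg B (b y)) (b := a) hB h0 h1
        (hsg_nonneg (hb0 y)) ha0 hτ (fun hy => by rw [← cold_eq]; exact gy y hy)
      refine le_trans (le_of_eq (Finset.sum_congr rfl fun x _ => ?_)) (this.trans (le_of_eq ?_))
      · rw [lw2_swap, mul_comm (lw P Y y) (lw P X x)]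
      · ring
    refine (Finset.sum_le_sum c1).trans ?_
    rw [Finset.sum_add_distrib, ← Finset.mul_sum, ← Finset.sum_mul, sbad_eq hac By]
    have c2 := strong_le (X := Y) hac hB
    have c3 := act_le (X := X) hac h0 h1
    have c4 : 0 ≤ B * τ + 2 * h := by positivity
    have c5 : 0 ≤ Q.Pr fun w => B < rt Q P Y (Y w) ∧ By (Y w) := Q.Pr_nonneg _
    have c6 := mul_le_mul_of_nonneg_left c2 c4
    have c7 := mul_le_mul_of_nonneg_left c3 c5
    calc _ ≤ (B * τ + 2 * h) * K' + (Q.Pr fun w => B < rt Q P Y (Y w) ∧ By (Y w)) * (4 / h ^ 2 * K) :=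
          add_le_add c6 c7
      _ = _ := by ring
  -- both strong, not hot
  have t11 : ∑ x ∈ vals X, ∑ y ∈ vals Y, δ x y * (hsg B (a x) * hsg B (b y) *
        ind (¬ ((1 + eta) * (lw P X x * lw P Y y) < lw2 P X Y x y))) ≤ eta * K := by
    have c1 : ∀ x ∈ vals X, ∑ y ∈ vals Y, δ x y * (hsg B (a x) * hsg B (b y) *
        ind (¬ ((1 + eta) * (lw P X x * lw P Y y) < lw2 P X Y x y))) ≤ eta * (lw P X x * hsg B (a x)) := by
      intro x _
      have c2 : ∀ y ∈ vals Y, δ x y * (hsg B (a x) * hsg B (b y) *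
          ind (¬ ((1 + eta) * (lw P X x * lw P Y y) < lw2 P X Y x y))) ≤
          eta * (lw P X x * hsg B (a x)) * (lw P Y y * (rt Q P Y y * 1)) := by
        intro y _
        have hs := hsg_nonneg (B := B) (ha0 x)
        have hs' := hsg_nonneg (B := B) (hb0 y)
        have hs2 := hsg_le_self (B := B) (hb0 y)
        have hU := lw_nonneg P X x
        have hV := lw_nonneg P Y y
        by_cases hh : (1 + eta) * (lw P X x * lw P Y y) < lw2 P X Y x y
        · rw [ind_not (fun h' => h' hh), mul_zero, mul_zero]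
          exact mul_nonneg (mul_nonneg heta (mul_nonneg hU hs)) (mul_nonneg hV (mul_nonneg (hb0 y) zero_le_one))
        · rw [ind_of hh, mul_one, mul_one]
          have c3 : δ x y ≤ eta * (lw P X x * lw P Y y) := by
            simp only [hδ]
            linarith [not_lt.1 hh]
          calc δ x y * (hsg B (a x) * hsg B (b y)) ≤ eta * (lw P X x * lw P Y y) * (hsg B (a x) * hsg B (b y)) :=
                mul_le_mul_of_nonneg_right c3 (mul_nonneg hs hs')
            _ ≤ eta * (lw P X x * lw P Y y) * (hsg B (a x) * b y) :=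
                mul_le_mul_of_nonneg_left (mul_le_mul_of_nonneg_left hs2 hs)
                  (mul_nonneg heta (mul_nonneg hU hV))
            _ = _ := by ring
      refine (Finset.sum_le_sum c2).trans (le_of_eq ?_)
      rw [← Finset.mul_sum, sum_rt hac (fun _ => 1), Q.E_const, mul_one]
    refine (Finset.sum_le_sum c1).trans ?_
    rw [← Finset.mul_sum]
    exact mul_le_mul_of_nonneg_left (strong_le (X := X) hac hB) heta
  have hfin : ∑ x ∈ vals X, ∑ y ∈ vals Y, δ x y * (hwk B (a x) + hwk B (b y) + (-1)) = 0 := hlin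
  rw [hsum, hfin]
  have hη : 0 ≤ eta * K' := mul_nonneg heta hK'0
  calc _ ≤ 2 * B * eps * Real.sqrt (K * K') + 0 +
        ((B * τ + 2 * h) * K + 4 / h ^ 2 * ((Q.Pr fun w => B < rt Q P X (X w) ∧ Bx (X w)) * K')) +
        ((B * τ + 2 * h) * K' + 4 / h ^ 2 * ((Q.Pr fun w => B < rt Q P Y (Y w) ∧ By (Y w)) * K)) + eta * K :=
        add_le_add (add_le_add (add_le_add (add_le_add t00 le_rfl) t10) t01) t11
    _ ≤ _ := by
        have e : (B * τ + 2 * h + eta) * (K + K') = (B * τ + 2 * h) * K + (B * τ + 2 * h) * K' + eta * K + eta * K' := by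
          ring
        rw [e]
        linarith

/-- **LEMMA S, TWO LETTERS, all terms** -/
theorem lemS2 (hac : Q.Ac P) {B h eta τ eps : ℝ} (hB : Real.exp 2 ≤ B) (h0 : 0 < h) (h1 : h ≤ 1) (heta : 0 ≤ eta)
    (hτ : 0 ≤ τ) (heps : 0 ≤ eps) {Bx : κ → Prop} {By : ι → Prop}
    (gx : ∀ x, ¬ Bx x → rowd P X Y x ≤ τ * lw P X x) (gy : ∀ y, ¬ By y → cold P X Y y ≤ τ * lw P Y y)
    (hcov : ∀ (l : κ → ℝ) (k : ι → ℝ), (∀ x, 0 ≤ l x) → (∀ y, 0 ≤ k y) →
      ∑ x ∈ vals X, ∑ y ∈ vals Y, |lw2 P X Y x y - lw P X x * lw P Y y| * (l x * k y) ≤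
        eps * (Real.sqrt (P.E fun w => l (X w) ^ 2) * Real.sqrt (P.E fun w => k (Y w) ^ 2))) :
    loss Q P X Y ≤
      Q.E (fun w => ind (Reg Q P X Y B h eta Bx By (X w) (Y w)) * max (Real.log (Dd P X Y (X w) (Y w))) 0) +
      (2 * B * eps * Real.sqrt (Q.kl P X * Q.kl P Y) + (B * τ + 2 * h + eta) * (Q.kl P X + Q.kl P Y) +
        4 / h ^ 2 * ((Q.Pr fun w => B < rt Q P X (X w) ∧ Bx (X w)) * Q.kl P Y +
          (Q.Pr fun w => B < rt Q P Y (Y w) ∧ By (Y w)) * Q.kl P X)) :=
  (loss_reg hac _).trans (add_le_add_right (nz_le hac hB h0 h1 heta hτ heps gx gy hcov) _)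

end

end Pool.Agent.GMH.NZ
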