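import Pool.Agent.GMH.RegD
import Pool.Agent.GMH.Key3Z

/-!
# GMH/NoA: THE HYPOTHESES OF `key3z` FROM THE KINDS, any frame (helper63)

One law `P`, `Z` = thin letters, `Zb i` = what the top `i` sees, `F i` tops, `Y i` additions, `V` all additions; kinds `kdF`,
released set `rk`, activity `act` (`ActA`: kind 1 always active, otherwise there is a strong letter; a strong bad letter makes
the kinds `2 .. 5` active), bits `bit k` (`hmon`: the bits of the kinds 2, 3, 4 are in the bit of the kind 5).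
* `relA`, `beA k` = probability of the bit given `(V, Z)`, `aA = 1 - kce`; `a0A` (weak tuples), `aiA` (strong bad letter);
* `aA_weak` (haw), `aA_one` (hai), `aA_two` (hai2), bounds `aA_01`, `a0A_01`, `aiA_01`; `a0A_mass` : `1 - a0A` is the mass of
  the bit of the kind 1 on `R0`;
* `Reg_a`, `Reg_b`, `Reg_c` : Ra, Rb, Rc for every region which contains `RegT`; `Reg_w` : a weak tuple is not in `RegT`;
* `good_T` : hgood; `TVp_le` : hRz outside of `R0` and `sF`; `G0W_reg`, `G0W_not` : hGR, hG.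
-/

set_option autoImplicit false
set_option linter.unusedSectionVars false
set_option linter.unusedVariables false

namespace Pool.Agent.GMH.KF

open Finset Pool.Agent.PWZ Pool.Agent.M3 Pool.Agent.GMH Pool.Agent.GMH.TP

noncomputable section

section fr

variable {Om : Type*} [Fintype Om] (P : FP Om) {α β γ φ ν : Type*} (Z : Om → β) (Zb : Fin 3 → Om → α)
  (F : Fin 3 → Om → φ) (Y : Fin 3 → Om → γ) (V : Om → ν)

/-- **the activity** -/
structure ActA (c : KC) (B : ℝ) (act : Fin 10 → Om → (Fin 3 → φ) → Prop) : Prop where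
  one : ∀ w f, act 1 w f
  weak : ∀ k w f, P.p w ≠ 0 → f ∈ let_ F → act k w f → k = 1 ∨ ∃ i, B < rF P Zb F Y i w (f i)
  str : ∀ k w f i, P.p w ≠ 0 → f ∈ let_ F → (k = 2 ∨ k = 3 ∨ k = 4 ∨ k = 5) → B < rF P Zb F Y i w (f i) →
    bad P Z F c i w f → act k w f

variable (c : KC) (rk : Finset (Fin 10)) (act : Fin 10 → Om → (Fin 3 → φ) → Prop) (bit : Fin 10 → Om → Prop)

/-- the released relations -/
def relA (k : Fin 10) (w : Om) (f : Fin 3 → φ) : Prop := k ∈ rk ∧ kdF P Z F c k w f ∧ act k w f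

/-- probability of the bit -/
def beA (k : Fin 10) (w : Om) : ℝ := P.ce (fun u => (V u, Z u)) (fun u => ind (bit k u)) w

/-- weight which is not released -/
def aA (w : Om) (f : Fin 3 → φ) : ℝ := 1 - kce P (fun u => (V u, Z u)) (relA P Z F c rk act) bit w f

/-- weight of the weak tuples -/
def a0A (w : Om) : ℝ := 1 - ind (1 ∈ rk ∧ Ap P Z F c 1 w (tup F w)) * beA P Z V bit 1 w

/-- the kind of one bad top -/
def kiA (i : Fin 3) : Fin 10 := ![2, 3, 4] i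

/-- weight of a strong bad letter -/
def aiA (w : Om) (i : Fin 3) (_ : φ) : ℝ := 1 - ind (¬ sF P Z Zb F c w) *
  (ind (1 ∈ rk ∧ Ap P Z F c 1 w (tup F w)) * beA P Z V bit 1 w +
    ind (kiA i ∈ rk ∧ ¬ Ap P Z F c 1 w (tup F w)) * beA P Z V bit (kiA i) w)

variable {P Z Zb F Y V c rk act bit}

theorem beA_01 (k : Fin 10) {w : Om} (hw : P.p w ≠ 0) : 0 ≤ beA P Z V bit k w ∧ beA P Z V bit k w ≤ 1 := by
  refine ⟨P.ce_nonneg (fun _ _ => ind_nonneg _) w, ?_⟩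
  have h1 : P.ce (fun u => (V u, Z u)) (fun u => ind (bit k u)) w ≤ P.ce (fun u => (V u, Z u)) (fun _ => (1 : ℝ)) w :=
    P.ce_mono (fun _ _ => ind_le_one _) w
  rwa [P.ce_const _ 1 hw] at h1

/-- the property `R0` does not see the tuple -/
theorem Ap1_all {w : Om} (hw : P.p w ≠ 0) (f g : Fin 3 → φ) : Ap P Z F c 1 w f ↔ Ap P Z F c 1 w g := by
  rw [Ap1_iff P F c hw f, Ap1_iff P F c hw g]

theorem kd1_iff {w : Om} (hw : P.p w ≠ 0) (f : Fin 3 → φ) : kdF P Z F c 1 w f ↔ Ap P Z F c 1 w (tup F w) := by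
  constructor
  · intro h
    exact (Ap1_all hw f (tup F w)).1 h.1
  · intro h
    refine ⟨(Ap1_all hw (tup F w) f).1 h, fun j hj => ?_⟩
    have hj0 : j = 0 := by
      have h2 : j < 1 := hj
      omega
    subst hj0
    exact fun hh => hh

/-- the weight of a tuple of the kind `k` -/
theorem kce_eq {k : Fin 10} {w : Om} {f : Fin 3 → φ} (h : relA P Z F c rk act k w f) :
    kce P (fun u => (V u, Z u)) (relA P Z F c rk act) bit w f = beA P Z V bit k w := by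
  classical
  unfold kce
  rw [Finset.sum_eq_single k (fun k' _ hne => by
    rw [ind_not fun hk' => hne (kdF_dis hk'.2.1 h.2.1), zero_mul]) (fun hh => absurd (mem_univ k) hh), ind_of h, one_mul]
  rfl

theorem kce_zero {w : Om} {f : Fin 3 → φ} (h : ∀ k, ¬ relA P Z F c rk act k w f) :
    kce P (fun u => (V u, Z u)) (relA P Z F c rk act) bit w f = 0 := by
  unfold kce
  exact Finset.sum_eq_zero fun k _ => by rw [ind_not (h k), zero_mul]

theorem aA_01 {w : Om} (hw : P.p w ≠ 0) (f : Fin 3 → φ) :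
    0 ≤ aA P Z F V c rk act bit w f ∧ aA P Z F V c rk act bit w f ≤ 1 := by
  unfold aA
  by_cases h : ∃ k, relA P Z F c rk act k w f
  · obtain ⟨k, hk⟩ := h
    rw [kce_eq hk]
    have := beA_01 (V := V) (Z := Z) (bit := bit) k hw
    constructor <;> linarith [this.1, this.2]
  · push Not at h
    rw [kce_zero h]
    norm_num

theorem a0A_01 {w : Om} (hw : P.p w ≠ 0) : 0 ≤ a0A P Z F V c rk bit w ∧ a0A P Z F V c rk bit w ≤ 1 := by
  unfold a0A
  have h1 := beA_01 (V := V) (Z := Z) (bit := bit) 1 hw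
  have h2 := ind_nonneg (1 ∈ rk ∧ Ap P Z F c 1 w (tup F w))
  have h3 := ind_le_one (1 ∈ rk ∧ Ap P Z F c 1 w (tup F w))
  have h4 := mul_nonneg h2 h1.1
  have h5 : ind (1 ∈ rk ∧ Ap P Z F c 1 w (tup F w)) * beA P Z V bit 1 w ≤ 1 * 1 :=
    mul_le_mul h3 h1.2 h1.1 zero_le_one
  constructor <;> linarith

theorem aiA_01 {w : Om} (hw : P.p w ≠ 0) (i : Fin 3) (x : φ) :
    0 ≤ aiA P Z Zb F V c rk bit w i x ∧ aiA P Z Zb F V c rk bit w i x ≤ 1 := by
  unfold aiA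
  have h1 := beA_01 (V := V) (Z := Z) (bit := bit) 1 hw
  have h1' := beA_01 (V := V) (Z := Z) (bit := bit) (kiA i) hw
  have h2 := ind_nonneg (¬ sF P Z Zb F c w)
  have h3 := ind_le_one (¬ sF P Z Zb F c w)
  have key : 0 ≤ ind (1 ∈ rk ∧ Ap P Z F c 1 w (tup F w)) * beA P Z V bit 1 w +
      ind (kiA i ∈ rk ∧ ¬ Ap P Z F c 1 w (tup F w)) * beA P Z V bit (kiA i) w ∧
      ind (1 ∈ rk ∧ Ap P Z F c 1 w (tup F w)) * beA P Z V bit 1 w +
      ind (kiA i ∈ rk ∧ ¬ Ap P Z F c 1 w (tup F w)) * beA P Z V bit (kiA i) w ≤ 1 := by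
    refine ⟨add_nonneg (mul_nonneg (ind_nonneg _) h1.1) (mul_nonneg (ind_nonneg _) h1'.1), ?_⟩
    by_cases hA : Ap P Z F c 1 w (tup F w)
    · rw [ind_not (show ¬ (kiA i ∈ rk ∧ ¬ Ap P Z F c 1 w (tup F w)) from fun hh => hh.2 hA), zero_mul, add_zero]
      calc _ ≤ 1 * 1 := mul_le_mul (ind_le_one _) h1.2 h1.1 zero_le_one
        _ = 1 := one_mul 1
    · rw [ind_not (show ¬ (1 ∈ rk ∧ Ap P Z F c 1 w (tup F w)) from fun hh => hA hh.2), zero_mul, zero_add]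
      calc _ ≤ 1 * 1 := mul_le_mul (ind_le_one _) h1'.2 h1'.1 zero_le_one
        _ = 1 := one_mul 1
  have h4 := mul_nonneg h2 key.1
  have h5 : ind (¬ sF P Z Zb F c w) * (ind (1 ∈ rk ∧ Ap P Z F c 1 w (tup F w)) * beA P Z V bit 1 w +
      ind (kiA i ∈ rk ∧ ¬ Ap P Z F c 1 w (tup F w)) * beA P Z V bit (kiA i) w) ≤ 1 * 1 :=
    mul_le_mul h3 key.2 key.1 zero_le_one
  constructor <;> linarith

/-- **haw** : the weak tuples -/
theorem aA_weak {B : ℝ} (hA : ActA P Z Zb F Y c B act) {w : Om} (hw : P.p w ≠ 0) {f : Fin 3 → φ} (hf : f ∈ let_ F)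
    (hn : ¬ ∃ i, B < rF P Zb F Y i w (f i)) : aA P Z F V c rk act bit w f = a0A P Z F V c rk bit w := by
  unfold aA a0A
  congr 1
  by_cases h : 1 ∈ rk ∧ Ap P Z F c 1 w (tup F w)
  · rw [ind_of h, one_mul, kce_eq ⟨h.1, (kd1_iff hw f).2 h.2, hA.one w f⟩]
  · rw [ind_not h, zero_mul]
    refine kce_zero fun k hk => ?_
    rcases hA.weak k w f hw hf hk.2.2 with h1 | h1
    · subst h1
      exact h ⟨hk.1, (kd1_iff hw f).1 hk.2.1⟩
    · exact hn h1

/-- outside of `R0` and with one bad top -/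
theorem kd_one {w : Om} (hw : P.p w ≠ 0) {f : Fin 3 → φ} {i : Fin 3} (h1 : ¬ Ap P Z F c 1 w (tup F w))
    (hb : bad P Z F c i w f) (hn : ∀ k, k ≠ i → ¬ bad P Z F c k w f) : kdF P Z F c (kiA i) w f := by
  have h1' : ¬ Ap P Z F c 1 w f := fun hh => h1 ((Ap1_all hw f (tup F w)).1 hh)
  fin_cases i
  · refine ⟨⟨hb, hn 1 (by decide), hn 2 (by decide)⟩, fun j hj => ?_⟩
    have hj' : j < 2 := hj
    have : j = 0 ∨ j = 1 := by omega
    rcases this with rfl | rfl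
    · exact fun hh => hh
    · exact h1'
  · refine ⟨⟨hb, hn 0 (by decide), hn 2 (by decide)⟩, fun j hj => ?_⟩
    have hj' : j < 3 := hj
    have : j = 0 ∨ j = 1 ∨ j = 2 := by omega
    rcases this with rfl | rfl | rfl
    · exact fun hh => hh
    · exact h1'
    · exact fun hh => hh.2.1 hb
  · refine ⟨⟨hb, hn 0 (by decide), hn 1 (by decide)⟩, fun j hj => ?_⟩
    have hj' : j < 4 := hj
    have : j = 0 ∨ j = 1 ∨ j = 2 ∨ j = 3 := by omega
    rcases this with rfl | rfl | rfl | rfl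
    · exact fun hh => hh
    · exact h1'
    · exact fun hh => hh.2.2 hb
    · exact fun hh => hh.2.2 hb

/-- outside of `R0` and with two bad tops -/
theorem kd_two {w : Om} (hw : P.p w ≠ 0) {f : Fin 3 → φ} {i k : Fin 3} (hik : i ≠ k)
    (h1 : ¬ Ap P Z F c 1 w (tup F w)) (hb : bad P Z F c i w f) (hk : bad P Z F c k w f) : kdF P Z F c 5 w f := by
  have h1' : ¬ Ap P Z F c 1 w f := fun hh => h1 ((Ap1_all hw f (tup F w)).1 hh)
  have hA : Ap P Z F c 5 w f := by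
    have key : ∀ i k : Fin 3, i ≠ k → (i = 0 ∧ k = 1) ∨ (i = 1 ∧ k = 0) ∨ (i = 0 ∧ k = 2) ∨ (i = 2 ∧ k = 0) ∨
        (i = 1 ∧ k = 2) ∨ (i = 2 ∧ k = 1) := by decide
    rcases key i k hik with ⟨rfl, rfl⟩ | ⟨rfl, rfl⟩ | ⟨rfl, rfl⟩ | ⟨rfl, rfl⟩ | ⟨rfl, rfl⟩ | ⟨rfl, rfl⟩
    · exact Or.inl ⟨hb, hk⟩
    · exact Or.inl ⟨hk, hb⟩
    · exact Or.inr (Or.inl ⟨hb, hk⟩)
    · exact Or.inr (Or.inl ⟨hk, hb⟩)
    · exact Or.inr (Or.inr ⟨hb, hk⟩)
    · exact Or.inr (Or.inr ⟨hk, hb⟩)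
  refine ⟨hA, fun j hj => ?_⟩
  have hj' : j < 5 := hj
  have hjc : j = 0 ∨ j = 1 ∨ j = 2 ∨ j = 3 ∨ j = 4 := by omega
  have two : ∀ a b d : Fin 3, a ≠ b → a ≠ d → b ≠ d → ¬ (bad P Z F c a w f ∧ ¬ bad P Z F c b w f ∧ ¬ bad P Z F c d w f) := by
    rintro a b d hab had hbd ⟨_, hb', hd'⟩
    have key : ∀ a b d i k : Fin 3, a ≠ b → a ≠ d → b ≠ d → i ≠ k → (i = b ∨ i = d ∨ k = b ∨ k = d) := by decide
    rcases key a b d i k hab had hbd hik with rfl | rfl | rfl | rfl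
    · exact hb' hb
    · exact hd' hb
    · exact hb' hk
    · exact hd' hk
  rcases hjc with rfl | rfl | rfl | rfl | rfl
  · exact fun hh => hh
  · exact h1'
  · exact two 0 1 2 (by decide) (by decide) (by decide)
  · exact two 1 0 2 (by decide) (by decide) (by decide)
  · exact two 2 0 1 (by decide) (by decide) (by decide)

theorem kiA_mem (i : Fin 3) : kiA i = 2 ∨ kiA i = 3 ∨ kiA i = 4 ∨ kiA i = 5 := by
  fin_cases i
  · exact Or.inl rfl
  · exact Or.inr (Or.inl rfl)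
  · exact Or.inr (Or.inr (Or.inl rfl))

/-- the bad letters of the region -/
def bdA (P : FP Om) (Z : Om → β) (Zb : Fin 3 → Om → α) (F : Fin 3 → Om → φ) (c : KC) (w : Om) (i : Fin 3) (x : φ) :
    Prop := bdT P Z Zb F c w i x

theorem bdA_bad {w : Om} (hs : ¬ sF P Z Zb F c w) {i : Fin 3} {f : Fin 3 → φ} :
    bdA P Z Zb F c w i (f i) ↔ bad P Z F c i w f := by
  unfold bdA bdT
  have e := bad_letter P F (Z := Z) c i w (f := fun _ => f i) (g := f) rfl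
  rw [e]
  tauto

/-- **hai** : one strong bad letter, no other bad letter -/
theorem aA_one {B : ℝ} (hA : ActA P Z Zb F Y c B act) {w : Om} (hw : P.p w ≠ 0) {f : Fin 3 → φ} (hf : f ∈ let_ F)
    {i : Fin 3} (hi : SBF P (Zb := Zb) F Y B (bdA P Z Zb F c) i w (f i))
    (hn : ∀ k, k ≠ i → ¬ bdA P Z Zb F c w k (f k)) :
    aA P Z F V c rk act bit w f = aiA P Z Zb F V c rk bit w i (f i) := by
  have hs : ¬ sF P Z Zb F c w := by
    intro hs
    obtain ⟨k, hk⟩ : ∃ k : Fin 3, k ≠ i := by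
      have key : ∀ i : Fin 3, ∃ k : Fin 3, k ≠ i := by decide
      exact key i
    exact hn k hk (Or.inl hs)
  have hb : bad P Z F c i w f := (bdA_bad hs).1 hi.2
  have hn' : ∀ k, k ≠ i → ¬ bad P Z F c k w f := fun k hk hh => hn k hk ((bdA_bad hs).2 hh)
  unfold aA aiA
  congr 1
  rw [ind_of hs, one_mul]
  by_cases hA1 : Ap P Z F c 1 w (tup F w)
  · rw [ind_not (show ¬ (kiA i ∈ rk ∧ ¬ Ap P Z F c 1 w (tup F w)) from fun hh => hh.2 hA1), zero_mul, add_zero]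
    by_cases h1 : 1 ∈ rk
    · rw [ind_of ⟨h1, hA1⟩, one_mul, kce_eq ⟨h1, (kd1_iff hw f).2 hA1, hA.one w f⟩]
    · rw [ind_not (show ¬ (1 ∈ rk ∧ Ap P Z F c 1 w (tup F w)) from fun hh => h1 hh.1), zero_mul]
      refine kce_zero fun k hk => ?_
      have : k = 1 := kdF_dis hk.2.1 ((kd1_iff hw f).2 hA1)
      exact h1 (this ▸ hk.1)
  · rw [ind_not (show ¬ (1 ∈ rk ∧ Ap P Z F c 1 w (tup F w)) from fun hh => hA1 hh.2), zero_mul, zero_add]
    have hkd := kd_one hw hA1 hb hn'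
    by_cases h1 : kiA i ∈ rk
    · rw [ind_of ⟨h1, hA1⟩, one_mul, kce_eq ⟨h1, hkd, hA.str _ w f i hw hf (kiA_mem i) hi.1 hb⟩]
    · rw [ind_not (show ¬ (kiA i ∈ rk ∧ ¬ Ap P Z F c 1 w (tup F w)) from fun hh => h1 hh.1), zero_mul]
      refine kce_zero fun k hk => ?_
      have : k = kiA i := kdF_dis hk.2.1 hkd
      exact h1 (this ▸ hk.1)

/-- **hai2** : one strong bad letter, no other strong bad letter -/
theorem aA_two {B : ℝ} (hA : ActA P Z Zb F Y c B act) (h5 : ∀ i, kiA i ∈ rk → 5 ∈ rk)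
    (hmon : ∀ i w, bit (kiA i) w → bit 5 w) {w : Om} (hw : P.p w ≠ 0) {f : Fin 3 → φ} (hf : f ∈ let_ F)
    {i : Fin 3} (hi : SBF P (Zb := Zb) F Y B (bdA P Z Zb F c) i w (f i)) :
    aA P Z F V c rk act bit w f ≤ aiA P Z Zb F V c rk bit w i (f i) := by
  by_cases hs : sF P Z Zb F c w
  · have e : aiA P Z Zb F V c rk bit w i (f i) = 1 := by
      unfold aiA
      rw [ind_not (show ¬ ¬ sF P Z Zb F c w from fun hh => hh hs), zero_mul, sub_zero]
    rw [e]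
    exact (aA_01 hw f).2
  have hb : bad P Z F c i w f := (bdA_bad hs).1 hi.2
  by_cases hn : ∀ k, k ≠ i → ¬ bad P Z F c k w f
  · exact (aA_one hA hw hf hi fun k hk hh => hn k hk ((bdA_bad hs).1 hh)).le
  push Not at hn
  obtain ⟨k, hk, hbk⟩ := hn
  unfold aA aiA
  rw [ind_of hs, one_mul]
  by_cases hA1 : Ap P Z F c 1 w (tup F w)
  · rw [ind_not (show ¬ (kiA i ∈ rk ∧ ¬ Ap P Z F c 1 w (tup F w)) from fun hh => hh.2 hA1), zero_mul, add_zero]
    by_cases h1 : 1 ∈ rk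
    · rw [ind_of ⟨h1, hA1⟩, one_mul, kce_eq ⟨h1, (kd1_iff hw f).2 hA1, hA.one w f⟩]
    · rw [ind_not (show ¬ (1 ∈ rk ∧ Ap P Z F c 1 w (tup F w)) from fun hh => h1 hh.1), zero_mul, sub_zero]
      exact (aA_01 (V := V) (bit := bit) (rk := rk) (act := act) hw f).2
  · rw [ind_not (show ¬ (1 ∈ rk ∧ Ap P Z F c 1 w (tup F w)) from fun hh => hA1 hh.2), zero_mul, zero_add]
    by_cases h1 : kiA i ∈ rk
    · have hkd := kd_two hw (Ne.symm hk) hA1 hb hbk
      rw [ind_of ⟨h1, hA1⟩, one_mul, kce_eq ⟨h5 i h1, hkd, hA.str _ w f i hw hf (Or.inr (Or.inr (Or.inr rfl))) hi.1 hb⟩]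
      have : beA P Z V bit (kiA i) w ≤ beA P Z V bit 5 w := P.ce_mono (fun u _ => ind_mono fun hh => hmon i u hh) w
      linarith
    · rw [ind_not (show ¬ (kiA i ∈ rk ∧ ¬ Ap P Z F c 1 w (tup F w)) from fun hh => h1 hh.1), zero_mul, sub_zero]
      exact (aA_01 (V := V) (bit := bit) (rk := rk) (act := act) hw f).2

/-- the mass of the released weak tuples: `R0` and the bit of the kind 1 -/
theorem a0A_mass (hV : True) {al : Om → ℝ} (hal : Fac (fun u => (V u, Z u)) al) (hb : ∀ w, bit 1 w → 1 ∈ rk) :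
    P.E (fun w => al w * (1 - a0A P Z F V c rk bit w)) =
      P.E (fun w => al w * ind (Ap P Z F c 1 w (tup F w) ∧ bit 1 w)) := by
  have fA : ∀ a b, (fun u => (V u, Z u)) a = (fun u => (V u, Z u)) b → P.p a ≠ 0 → P.p b ≠ 0 →
      (Ap P Z F c 1 a (tup F a) ↔ Ap P Z F c 1 b (tup F b)) := by
    intro a b hab ha hb'
    have h1 : Ap P Z F c 1 a (tup F b) = Ap P Z F c 1 b (tup F b) := Ap_fac P F c 1 (tup F b) a b (Prod.mk.inj hab).2
    rw [Ap1_all ha (tup F a) (tup F b), h1]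
  classical
  -- a version which is seen
  set R : Om → Prop := fun w => ∃ u, P.p u ≠ 0 ∧ (V u, Z u) = (V w, Z w) ∧ Ap P Z F c 1 u (tup F u) with hR
  have hRw : ∀ w, P.p w ≠ 0 → (R w ↔ Ap P Z F c 1 w (tup F w)) := by
    intro w hw
    constructor
    · rintro ⟨u, hu, e, h⟩
      exact (fA u w e hu hw).1 h
    · exact fun h => ⟨w, hw, rfl, h⟩
  have fR : Fac (fun u => (V u, Z u)) (fun w => al w * ind (1 ∈ rk ∧ R w)) := by
    intro a b hab
    have e1 : al a = al b := hal a b hab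
    have e2 : R a = R b := by
      have hab' : (V a, Z a) = (V b, Z b) := hab
      show (∃ u, P.p u ≠ 0 ∧ (V u, Z u) = (V a, Z a) ∧ Ap P Z F c 1 u (tup F u)) =
        (∃ u, P.p u ≠ 0 ∧ (V u, Z u) = (V b, Z b) ∧ Ap P Z F c 1 u (tup F u))
      rw [hab']
    show al a * ind (1 ∈ rk ∧ R a) = al b * ind (1 ∈ rk ∧ R b)
    rw [e1, e2]
  have k1 : P.E (fun w => al w * (1 - a0A P Z F V c rk bit w)) =
      P.E (fun w => (al w * ind (1 ∈ rk ∧ R w)) * P.ce (fun u => (V u, Z u)) (fun u => ind (bit 1 u)) w) := by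
    refine P.E_congr fun w hw => ?_
    unfold a0A beA
    have e3 : ind (1 ∈ rk ∧ Ap P Z F c 1 w (tup F w)) = ind (1 ∈ rk ∧ R w) := ind_cg (by rw [hRw w hw])
    rw [e3]
    ring
  rw [k1, P.E_mul_ce fR]
  refine P.E_congr fun w hw => ?_
  have e4 : ind (1 ∈ rk ∧ R w) * ind (bit 1 w) = ind (Ap P Z F c 1 w (tup F w) ∧ bit 1 w) := by
    rw [← ind_and]
    refine ind_cg ?_
    rw [hRw w hw]
    constructor
    · rintro ⟨⟨_, h1⟩, h2⟩
      exact ⟨h1, h2⟩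
    · rintro ⟨h1, h2⟩
      exact ⟨⟨hb w h2, h1⟩, h2⟩
  rw [mul_assoc, e4]

/-! ### the region -/

variable {r : RC} {Reg : Om → (Fin 3 → φ) → Prop}

theorem Reg_a (hR : ∀ w f, RegT P Z Zb F Y c r w f → Reg w f) {w : Om} {f : Fin 3 → φ} {i k : Fin 3}
    (hi : SBF P (Zb := Zb) F Y r.B (bdA P Z Zb F c) i w (f i)) (hk : k ≠ i) (h : 1 + r.e1 < rF P Zb F Y k w (f k)) :
    Reg w f := hR w f (Or.inl ⟨i, k, hk, hi.1, hi.2, h⟩)

theorem Reg_b (hR : ∀ w f, RegT P Z Zb F Y c r w f → Reg w f) {w : Om} {f : Fin 3 → φ} {i : Fin 3}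
    (hi : r.B < rF P Zb F Y i w (f i)) (h : bxF P F Y (Z := Z) (Zb := Zb) r.B r.d i w (f i)) : Reg w f :=
  hR w f (Or.inr (Or.inl ⟨i, hi, h⟩))

theorem Reg_c (hR : ∀ w f, RegT P Z Zb F Y c r w f → Reg w f) {w : Om} {f : Fin 3 → φ} {i k : Fin 3} (hik : i ≠ k)
    (hi : r.B < rF P Zb F Y i w (f i)) (hk : r.B < rF P Zb F Y k w (f k))
    (h : (1 + r.d) * ∏ j, qF P Zb F j w (f j) < pF P Z F w f) : Reg w f :=
  hR w f (Or.inr (Or.inr ⟨i, k, hik, hi, hk, h⟩))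

theorem Reg_w {w : Om} {f : Fin 3 → φ} (hn : ¬ ∃ i, r.B < rF P Zb F Y i w (f i)) : ¬ RegT P Z Zb F Y c r w f :=
  fun hh => hn (RegT_strong hh)

/-- **hgood** -/
theorem good_T {w : Om} (hw : P.p w ≠ 0) {i : Fin 3} {x : φ} (h : ¬ bdA P Z Zb F c w i x) :
    ∑ f ∈ let_ F, ind (f i = x) * |pF P Z F w f - mF P Z F i w (f i) * ∏ k ∈ univ.erase i, qF P Zb F k w (f k)| ≤
      (2 * c.e2 + 4 * c.eF) * mF P Z F i w x :=
  good_row P F hw (fun hs => h (Or.inl hs)) (fun hb => h (Or.inr hb))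

/-- product of three laws -/
theorem prod3_tv {w : Om} (hw : P.p w ≠ 0) : ∑ g ∈ let_ F, |(∏ i, mF P Z F i w (g i)) - ∏ i, qF P Zb F i w (g i)| ≤
    ∑ i, tv1n P Z Zb F i w := by
  classical
  have n1 : ∀ l y, 0 ≤ mF P Z F l w y := fun l y => P.pv_nonneg _ _ _ _
  have n2 : ∀ l y, 0 ≤ qF P Zb F l w y := fun l y => P.pv_nonneg _ _ _ _
  have s1 : ∀ l, ∑ y ∈ vals (F l), mF P Z F l w y = 1 := fun l => P.pv_sum Z (F l) hw
  have s2 : ∀ l, ∑ y ∈ vals (F l), qF P Zb F l w y = 1 := fun l => P.pv_sum (Zb l) (F l) hw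
  have sp : ∀ a b d : φ → ℝ, ∑ g ∈ let_ F, a (g 0) * (b (g 1) * d (g 2)) =
      (∑ x ∈ vals (F 0), a x) * ((∑ x ∈ vals (F 1), b x) * ∑ x ∈ vals (F 2), d x) := by
    intro a b d
    have e := Finset.prod_univ_sum (fun i => vals (F i)) (fun (i : Fin 3) x => (![a, b, d] i) x)
    rw [Fin.prod_univ_three] at e
    have e1 : (∑ x ∈ vals (F 0), a x) * (∑ x ∈ vals (F 1), b x) * (∑ x ∈ vals (F 2), d x) =
        ∑ g ∈ Fintype.piFinset fun i => vals (F i), ∏ i, (![a, b, d] i) (g i) := e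
    have e2 : ∀ g : Fin 3 → φ, ∏ i, (![a, b, d] i) (g i) = a (g 0) * (b (g 1) * d (g 2)) := fun g => by
      rw [Fin.prod_univ_three]
      show a (g 0) * b (g 1) * d (g 2) = _
      ring
    rw [← mul_assoc, e1]
    exact Finset.sum_congr rfl fun g _ => (e2 g).symm
  have h1 : ∀ g : Fin 3 → φ, |(∏ i, mF P Z F i w (g i)) - ∏ i, qF P Zb F i w (g i)| ≤
      |mF P Z F 0 w (g 0) - qF P Zb F 0 w (g 0)| * (mF P Z F 1 w (g 1) * mF P Z F 2 w (g 2)) +
      qF P Zb F 0 w (g 0) * (|mF P Z F 1 w (g 1) - qF P Zb F 1 w (g 1)| * mF P Z F 2 w (g 2)) +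
      qF P Zb F 0 w (g 0) * (qF P Zb F 1 w (g 1) * |mF P Z F 2 w (g 2) - qF P Zb F 2 w (g 2)|) := by
    intro g
    rw [Fin.prod_univ_three, Fin.prod_univ_three]
    have e : mF P Z F 0 w (g 0) * mF P Z F 1 w (g 1) * mF P Z F 2 w (g 2) -
        qF P Zb F 0 w (g 0) * qF P Zb F 1 w (g 1) * qF P Zb F 2 w (g 2) =
        (mF P Z F 0 w (g 0) - qF P Zb F 0 w (g 0)) * (mF P Z F 1 w (g 1) * mF P Z F 2 w (g 2)) +
        qF P Zb F 0 w (g 0) * ((mF P Z F 1 w (g 1) - qF P Zb F 1 w (g 1)) * mF P Z F 2 w (g 2)) +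
        qF P Zb F 0 w (g 0) * (qF P Zb F 1 w (g 1) * (mF P Z F 2 w (g 2) - qF P Zb F 2 w (g 2))) := by ring
    rw [e]
    refine (abs_add_le _ _).trans (add_le_add ((abs_add_le _ _).trans (le_of_eq ?_)) (le_of_eq ?_))
    · rw [abs_mul, abs_mul (mF P Z F 1 w (g 1)), abs_mul (qF P Zb F 0 w (g 0)), abs_mul (mF P Z F 1 w (g 1) - _),
        abs_of_nonneg (n1 1 (g 1)), abs_of_nonneg (n1 2 (g 2)), abs_of_nonneg (n2 0 (g 0))]
    · rw [abs_mul, abs_mul, abs_of_nonneg (n2 0 (g 0)), abs_of_nonneg (n2 1 (g 1))]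
  refine (Finset.sum_le_sum fun g _ => h1 g).trans (le_of_eq ?_)
  rw [Finset.sum_add_distrib, Finset.sum_add_distrib,
    sp (fun x => |mF P Z F 0 w x - qF P Zb F 0 w x|) (fun x => mF P Z F 1 w x) (fun x => mF P Z F 2 w x),
    sp (fun x => qF P Zb F 0 w x) (fun x => |mF P Z F 1 w x - qF P Zb F 1 w x|) (fun x => mF P Z F 2 w x),
    sp (fun x => qF P Zb F 0 w x) (fun x => qF P Zb F 1 w x) (fun x => |mF P Z F 2 w x - qF P Zb F 2 w x|),
    s1, s1, s2, s2, Fin.sum_univ_three]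
  unfold tv1n
  ring

/-- **hRz** : outside of `R0` and of the bad own laws -/
theorem TVp_le {w : Om} (hw : P.p w ≠ 0) (hs : ¬ sF P Z Zb F c w) (h1 : ¬ Ap P Z F c 1 w (tup F w)) :
    TVp P Z Zb F w ≤ 2 * c.e1 + 6 * c.eF := by
  have a1 : ∑ g ∈ let_ F, |pF P Z F w g - ∏ i, mF P Z F i w (g i)| ≤ 2 * c.e1 := by
    rw [Ap1_iff P F c hw] at h1
    exact (not_le.1 h1).le
  have a2 : ∑ i, tv1n P Z Zb F i w ≤ 6 * c.eF := by
    unfold sF at hs
    push Not at hs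
    rw [Fin.sum_univ_three]
    linarith [hs 0, hs 1, hs 2]
  have a3 := prod3_tv (Z := Z) (Zb := Zb) (F := F) hw
  have a4 : TVp P Z Zb F w ≤ ∑ g ∈ let_ F, (|pF P Z F w g - ∏ i, mF P Z F i w (g i)| +
      |(∏ i, mF P Z F i w (g i)) - ∏ i, qF P Zb F i w (g i)|) := by
    unfold TVp
    exact Finset.sum_le_sum fun g _ => abs_sub_le _ _ _
  rw [Finset.sum_add_distrib] at a4
  linarith

/-- **hGR** -/
theorem G0W_reg {eta : ℝ} (heta : 0 < eta) {w : Om} {f : Fin 3 → φ} (h : Reg w f) :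
    G0W P Z Zb F eta (fun w f => ind (Reg w f)) w f ≤ eta := G0W_one P F heta (ind_of h)

/-- **hG** -/
theorem G0W_not {eta : ℝ} {w : Om} {f : Fin 3 → φ} (h : ¬ Reg w f) :
    G0W P Z Zb F eta (fun w f => ind (Reg w f)) w f = pF P Z F w f / ∏ i, qF P Zb F i w (f i) :=
  G0W_zero P F (ind_not h)

end fr

end

end Pool.Agent.GMH.KF
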