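import Pool.Agent.GMH.NoA
import Pool.Agent.GMH.FoL

/-!
# GMH/NoB: the two instances of `GMH/NoA` (helper63)

`act_full` : the activity of `rel3` (`GMH/TopSplit`), `act_two` : the activity of `rel2` (`GMH/TwoSplit`);
`rel3_A`, `rel2_A` : the released relations are `relA`; `NoS_A`, `No2_A` : the normalisations `NoS`, `No2` in the form of `key3z`.
-/

set_option autoImplicit false
set_option linter.unusedSectionVars false
set_option linter.unusedVariables false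

namespace Pool.Agent.GMH.TP

open Finset Pool.Agent.PWZ Pool.Agent.M3 Pool.Agent.GM Pool.Agent.GM.Harm Pool.Agent.GMH Pool.Agent.GMH.NZ
open Pool.Agent.GMH.V3 Pool.Agent.GMH.KF

noncomputable section

variable {X β γ φ : Type} [Fintype X] [Fintype β] [Fintype φ] [Nonempty X] [Nonempty β]
variable {D : HD (Fin 3) X β γ φ} {al : ℝ} (h : D.Thick al) (v : ℕ → Finset (Fin 3) → X → (Fin 3 → β) → Pt (Fin 3) X β φ)
variable (c : KC) (B : ℝ)

/-- activity of the released relations of the three tops -/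
def act3 (s : Fin 6) (t : ℕ) (k : Fin 10) (w : Pt (Fin 3) X β φ) (f : Tu X β φ) : Prop :=
  k = 1 ∨ ∃ i, sbd h v c B s t i w f

theorem act_full (s : Fin 6) (t : ℕ) : ActA (D.P h t) (ZQ D v (qs s t)) (ZbQ D v (qs s t)) (FQ v t)
    (ZbQ D v (qe s t)) c B (act3 h v c B s t) := by
  refine ⟨fun _ _ => Or.inl rfl, fun k w f _ _ hh => ?_, fun k w f i _ _ _ h1 h2 => Or.inr ⟨i, h2, h1⟩⟩
  rcases hh with hh | ⟨i, hi⟩
  · exact Or.inl hh
  · exact Or.inr ⟨i, hi.2⟩

theorem rel3_A (s : Fin 6) (t : ℕ) : rel3 h v c B s t =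
    relA (D.P h t) (ZQ D v (qs s t)) (FQ v t) c rK (act3 h v c B s t) := rfl

/-- **the normalisation of the three tops** -/
theorem NoS_A (Al : Fin 6 → ℕ → Pt (Fin 3) X β φ → Prop) (bit : Fin 6 → ℕ → Fin 10 → Pt (Fin 3) X β φ → Prop)
    (Rg : Fin 6 → ℕ → Pt (Fin 3) X β φ → Tu X β φ → Prop) (eta : ℝ) (s : Fin 6) (t : ℕ) :
    NoS h v Al (rel3 h v c B) bit (om3 Rg) eta s t = (D.P h t).E (fun w => ind (Al s t w) * ∑ f ∈ let_ (FQ v t),
      (∏ i, qF' (D.P h t) (ZbQ D v (qs s t)) (FQ v t) (ZbQ D v (qe s t)) i w (f i)) *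
        (aA (D.P h t) (ZQ D v (qs s t)) (FQ v t) (ZQ D v (qe s t)) c rK (act3 h v c B s t) (bit s t) w f *
          (G0W (D.P h t) (ZQ D v (qs s t)) (ZbQ D v (qs s t)) (FQ v t) eta (fun w f => ind (Rg s t w f)) w f - 1))) := rfl

variable (i : Fin 3)

theorem act_two (hB : 1 ≤ B) (b : Bool) (t : ℕ) : ActA (D.P h t) (ZQ D v (qs (s2 b) t)) (ZbQ D v (qs (s2 b) t))
    (Fo (FQ v t) i) (ZbQ D v (qe (s2 b) t)) c B (act2 h v c B i b t) := by
  refine ⟨fun _ _ => Or.inl rfl, fun k w f hw hf hh => ?_, fun k w f j hw hf hk h1 h2 => ?_⟩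
  · rcases hh with hh | ⟨j, hj, _, x, hx, h1⟩
    · exact Or.inl hh
    · refine Or.inr ⟨j, ?_⟩
      have e : rF (D.P h t) (ZbQ D v (qs (s2 b) t)) (Fo (FQ v t) i) (ZbQ D v (qe (s2 b) t)) j w (f j) =
          rS h v (s2 b) t j w x := by
        rw [hx]
        exact rS2_some (s2 b) t hj w x
      rw [e]
      exact h1
  · have hj : j ≠ i := by
      rintro rfl
      have h3 : rS2 h v j (s2 b) t j w (f j) ≤ 1 := rS2_self (s2 b) t hw (f j)
      have h1' : B < rS2 h v j (s2 b) t j w (f j) := h1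
      linarith
    obtain ⟨x, hx⟩ : ∃ x, f j = some x := by
      have h4 : f j ∈ vals (Fo (FQ v t) i j) := by
        unfold let_ at hf
        exact Fintype.mem_piFinset.1 hf j
      obtain ⟨x, _, hx⟩ := FoL.mem_Fo hj h4
      exact ⟨x, hx⟩
    refine Or.inr ⟨j, hj, Or.inr h2, x, hx, ?_⟩
    have e : rF (D.P h t) (ZbQ D v (qs (s2 b) t)) (Fo (FQ v t) i) (ZbQ D v (qe (s2 b) t)) j w (f j) =
        rS h v (s2 b) t j w x := by
      rw [hx]
      exact rS2_some (s2 b) t hj w x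
    rw [e] at h1
    exact h1

theorem rel2_A (rk : Finset (Fin 10)) (b : Bool) (t : ℕ) : rel2 h v c B i rk b t =
    relA (D.P h t) (ZQ D v (qs (s2 b) t)) (Fo (FQ v t) i) c rk (act2 h v c B i b t) := rfl

/-- **the normalisation of the two tops** -/
theorem No2_A (Al : Pt (Fin 3) X β φ → Prop) (rk : Finset (Fin 10)) (bit : Fin 10 → Pt (Fin 3) X β φ → Prop)
    (Rg : Bool → ℕ → Pt (Fin 3) X β φ → T2 X β φ → Prop) (eta : ℝ) (b : Bool) (t : ℕ) :
    No2 h v (s2 b) t i Al (rel2 h v c B i rk b t) bit (om2 Rg b t) eta =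
      (D.P h t).E (fun w => ind (Al w) * ∑ f ∈ let_ (Fo (FQ v t) i),
      (∏ j, qF' (D.P h t) (ZbQ D v (qs (s2 b) t)) (Fo (FQ v t) i) (ZbQ D v (qe (s2 b) t)) j w (f j)) *
        (aA (D.P h t) (ZQ D v (qs (s2 b) t)) (Fo (FQ v t) i) (ZQ D v (qe (s2 b) t)) c rk (act2 h v c B i b t) bit w f *
          (G0W (D.P h t) (ZQ D v (qs (s2 b) t)) (ZbQ D v (qs (s2 b) t)) (Fo (FQ v t) i) eta
            (fun w f => ind (Rg b t w f)) w f - 1))) := rfl

end

end Pool.Agent.GMH.TP
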