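import Pool.Agent.GMH.TopFin

/-!
# GMH/One1 (helper2): the frame of ONE letter with the kind `everything` (OneOK of GMH/TopFin; H3.MOV, M.7 (a))

`act e` : the letter `f` is active in the step, `|q'(f) / q(f) - 1| > e`; weight of the partial cut = `1[active]`; one kind, the
relation is everything.
* `no_le` : the normalisation is at most `(e + eta) P(A)`;
* `dy_le` : the dynamic term is at most the signed sum of the released points and `(L + log (1/eta)) P(A, not released, active)`;
* `act_le` : the probability that the true letter is active is at most `36 / e^2` times the gain of the letter.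
-/

set_option autoImplicit false
set_option linter.unusedSectionVars false

namespace Pool.Agent.GMH.One

open Finset Pool.Agent.PWZ Pool.Agent.M3 Pool.Agent.GM Pool.Agent.GM.Harm Pool.Agent.GMH Pool.Agent.GMH.NZ
open Pool.Agent.GMH.TP

noncomputable section

variable {Om : Type*} [Fintype Om] (P : FP Om) {α β' γ' φ' ν : Type*}
  (Z : Om → β') (Zb : Om → α) (F : Om → φ') (Y : Om → γ') (V : Om → ν)

/-- the letter `f` is active in the step -/
def act (e : ℝ) (w : Om) (f : φ') : Prop := e < |P.pv (fun u => (Y u, Zb u)) F w f / P.pv Zb F w f - 1|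

variable {Z Zb F Y V}

theorem act_fac (e : ℝ) (f : φ') : Fac (fun u => (Y u, Zb u)) (fun w => act P Zb F Y e w f) := by
  intro a b hab
  have h1 : P.pv (fun u => (Y u, Zb u)) F a f = P.pv (fun u => (Y u, Zb u)) F b f := P.pv_fac _ _ _ a b hab
  have h2 : P.pv Zb F a f = P.pv Zb F b f := P.pv_fac _ _ _ a b (congrArg Prod.snd hab)
  show (e < _) = (e < _)
  rw [h1, h2]

theorem pv_unit (W : Om → ν) (w : Om) (f : Unit → φ') : P.pv W (tup fun _ : Unit => F) w f = P.pv W F w (f ()) := by
  unfold FP.pv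
  congr 1
  funext u
  congr 1
  refine propext ⟨fun h => by rw [← h]; rfl, fun h => funext fun _ => h⟩

theorem sum_one (W : Om → ν) {w : Om} (hw : P.p w ≠ 0) :
    ∑ f ∈ let_ (fun _ : Unit => F), P.pv W F w (f ()) = 1 := by
  have h := sum_tup P (W := W) (fun _ : Unit => F) (F := fun _ _ => (1 : ℝ)) (fun _ _ _ _ => rfl) w
  simp only [mul_one] at h
  rw [P.ce_const _ 1 hw] at h
  rw [← h]
  exact Finset.sum_congr rfl fun f _ => (pv_unit P W w f).symm

theorem psC_unit (w : Om) (f : Unit → φ') : psC P Z (fun _ : Unit => Zb) (fun _ : Unit => F) w f =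
    Real.log (P.pv Z F w (f ()) / P.pv Zb F w (f ())) := by
  unfold psC
  rw [pv_unit]
  simp only [Finset.univ_unique, Finset.prod_singleton]

/-- one letter of the normalisation -/
theorem term_le {e eta : ℝ} (he : 0 ≤ e) (heta : 0 < eta) (w : Om) (f : Unit → φ') :
    P.pv (fun u => (Y u, Zb u)) F w (f ()) * G0W P Z (fun _ : Unit => Zb) (fun _ : Unit => F) eta
      (fun w f => ind (act P Zb F Y e w (f ()))) w f ≤
      (1 + e) * P.pv Z F w (f ()) + eta * P.pv (fun u => (Y u, Zb u)) F w (f ()) := by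
  set q' := P.pv (fun u => (Y u, Zb u)) F w (f ()) with hq'
  set q := P.pv Zb F w (f ()) with hq
  set p := P.pv Z F w (f ()) with hp
  have q'0 : 0 ≤ q' := P.pv_nonneg _ _ _ _
  have q0 : 0 ≤ q := P.pv_nonneg _ _ _ _
  have p0 : 0 ≤ p := P.pv_nonneg _ _ _ _
  unfold G0W
  rw [psC_unit, pv_unit]
  simp only [Finset.univ_unique, Finset.prod_singleton]
  rw [← hp, ← hq]
  by_cases ha : act P Zb F Y e w (f ())
  · rw [ind_of ha, one_mul]
    have h1 : p / q * Real.exp (-(max (Real.log (p / q)) 0 + Real.log (1 / eta))) ≤ eta := by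
      rcases (div_nonneg p0 q0).eq_or_lt with h2 | h2
      · rw [← h2, zero_mul]
        exact heta.le
      · have h3 : p / q = Real.exp (Real.log (p / q)) := (Real.exp_log h2).symm
        have h4 : Real.exp (-Real.log (1 / eta)) = eta := by
          rw [one_div, Real.log_inv, neg_neg, Real.exp_log heta]
        rw [neg_add, Real.exp_add, h4, ← mul_assoc]
        refine mul_le_of_le_one_left heta.le ?_
        calc p / q * Real.exp (-(max (Real.log (p / q)) 0)) =
              Real.exp (Real.log (p / q)) * Real.exp (-(max (Real.log (p / q)) 0)) := by rw [Real.exp_log h2]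
          _ = Real.exp (Real.log (p / q) + -(max (Real.log (p / q)) 0)) := (Real.exp_add _ _).symm
          _ ≤ 1 := Real.exp_le_one_iff.2 (by have := le_max_left (Real.log (p / q)) 0; linarith)
    have h2 := mul_le_mul_of_nonneg_left h1 q'0
    have h3 : 0 ≤ (1 + e) * p := by positivity
    linarith
  · rw [ind_not ha, zero_mul, neg_zero, Real.exp_zero, mul_one]
    have h1 : q' / q ≤ 1 + e := by
      have := (abs_le.1 (not_lt.1 ha)).2
      linarith
    have h2 : q' * (p / q) = q' / q * p := by ring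
    rw [h2]
    have h3 := mul_le_mul_of_nonneg_right h1 p0
    have h4 : 0 ≤ eta * q' := by positivity
    linarith

variable {A : Om → Prop} {bit : Unit → Om → Prop}

/-- **NORMALISATION, one letter, the relation is everything** -/
theorem no_le {e eta : ℝ} (he : 0 ≤ e) (heta : 0 < eta) :
    NoG P Z (fun _ : Unit => Zb) (fun _ : Unit => F) (fun _ : Unit => Y) V A (fun (_ : Unit) _ _ => True) bit
      (fun w f => ind (act P Zb F Y e w (f ()))) eta ≤ (e + eta) * P.Pr A := by
  unfold NoG FP.Pr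
  rw [← P.E_smul]
  refine P.E_mono fun w hw => ?_
  rw [mul_comm (e + eta)]
  refine mul_le_mul_of_nonneg_left ?_ (ind_nonneg _)
  set c : ℝ := P.ce (fun u => (V u, Z u)) (fun u => ind (bit () u)) w with hc
  have c0 : 0 ≤ c := P.ce_nonneg (fun _ _ => ind_nonneg _) w
  have c1 : c ≤ 1 := by
    have h1 := P.ce_mono (X := fun u => (V u, Z u)) (f := fun u => ind (bit () u)) (g := fun _ => (1 : ℝ))
      (fun u _ => ind_le_one _) w
    rw [P.ce_const _ 1 hw] at h1
    exact h1
  have hk : ∀ f : Unit → φ', kce P (fun u => (V u, Z u)) (fun (_ : Unit) _ _ => True) bit w f = c := by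
    intro f
    unfold kce
    simp only [Finset.univ_unique, Finset.sum_singleton]
    rw [ind_of trivial, one_mul]
  have s1 := sum_one P (F := F) (fun u => (Y u, Zb u)) hw
  have s2 := sum_one P (F := F) Z hw
  have h1 : ∑ f ∈ let_ (fun _ : Unit => F), (∏ i : Unit, P.pv (fun u => (Y u, Zb u)) F w (f i)) *
      ((1 - kce P (fun u => (V u, Z u)) (fun (_ : Unit) _ _ => True) bit w f) *
        (G0W P Z (fun _ : Unit => Zb) (fun _ : Unit => F) eta (fun w f => ind (act P Zb F Y e w (f ()))) w f - 1)) ≤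
      (1 - c) * ∑ f ∈ let_ (fun _ : Unit => F), (((1 + e) * P.pv Z F w (f ()) +
        eta * P.pv (fun u => (Y u, Zb u)) F w (f ())) - P.pv (fun u => (Y u, Zb u)) F w (f ())) := by
    rw [Finset.mul_sum]
    refine Finset.sum_le_sum fun f _ => ?_
    simp only [Finset.univ_unique, Finset.prod_singleton]
    rw [hk f]
    have h2 := term_le P (Z := Z) (Zb := Zb) (F := F) (Y := Y) he heta w f
    have h3 := mul_le_mul_of_nonneg_left h2 (show 0 ≤ 1 - c by linarith)
    have h4 : P.pv (fun u => (Y u, Zb u)) F w (f default) = P.pv (fun u => (Y u, Zb u)) F w (f ()) := rfl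
    rw [h4]
    nlinarith
  refine h1.trans ?_
  rw [Finset.sum_sub_distrib, Finset.sum_add_distrib, ← Finset.mul_sum, ← Finset.mul_sum, s1, s2]
  have h5 : 0 ≤ e + eta := by linarith
  nlinarith

/-- **DYNAMIC TERM, one letter, the relation is everything** -/
theorem dy_le {e eta K L : ℝ} (heta : 0 < eta) (heta1 : eta ≤ 1) (hL0 : 0 ≤ L)
    (hL : ∀ w, P.p w ≠ 0 → psC P Z (fun _ : Unit => Zb) (fun _ : Unit => F) w (tup (fun _ : Unit => F) w) ≤ L) :
    DyG P Z (fun _ : Unit => Zb) (fun _ : Unit => F) A (fun (_ : Unit) _ _ => True) bit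
      (fun w f => ind (act P Zb F Y e w (f ()))) eta K ≤
      P.E (fun w => ind (A w ∧ bit () w) * max (Real.log (P.pv Z F w (F w) / P.pv Zb F w (F w))) (-K)) +
        (L + Real.log (1 / eta)) * P.Pr (fun w => (A w ∧ ¬ bit () w) ∧ act P Zb F Y e w (F w)) := by
  have hl0 : 0 ≤ Real.log (1 / eta) := Real.log_nonneg (by rw [le_div_iff₀ heta, one_mul]; exact heta1)
  unfold DyG FP.Pr
  rw [← P.E_smul, ← P.E_add]
  refine P.E_mono fun w hw => ?_
  have h1 := hL w hw
  unfold sgK
  simp only [Finset.univ_unique, Finset.sum_singleton]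
  rw [psC_unit] at h1 ⊢
  rw [ind_of trivial, one_mul]
  have e1 : bit default w = bit () w := rfl
  have e2 : (tup (fun _ : Unit => F) w) () = F w := rfl
  rw [e2] at h1 ⊢
  rw [e1]
  by_cases hA : A w
  · by_cases hb : bit () w
    · rw [ind_of hA, ind_of hb, ind_of (show A w ∧ bit () w from ⟨hA, hb⟩),
        ind_not (fun hh : (A w ∧ ¬ bit () w) ∧ act P Zb F Y e w (F w) => hh.1.2 hb)]
      linarith
    · rw [ind_of hA, ind_not hb, ind_not (fun hh : A w ∧ bit () w => hb hh.2)]
      by_cases ha : act P Zb F Y e w (F w)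
      · rw [ind_of ha, ind_of (show (A w ∧ ¬ bit () w) ∧ act P Zb F Y e w (F w) from ⟨⟨hA, hb⟩, ha⟩)]
        have := max_le h1 hL0
        linarith
      · rw [ind_not ha, ind_not (fun hh : (A w ∧ ¬ bit () w) ∧ act P Zb F Y e w (F w) => ha hh.2)]
        linarith
  · rw [ind_not hA, ind_not (fun hh : A w ∧ bit () w => hA hh.1),
      ind_not (fun hh : (A w ∧ ¬ bit () w) ∧ act P Zb F Y e w (F w) => hA hh.1.1)]
    linarith

/-! ### the number of the active letters -/

theorem h_ge {r e : ℝ} (hr : 0 < r) (he : 0 < e) (he1 : e ≤ 1) (h : e < |r - 1|) :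
    e ^ 2 / 36 ≤ Real.log r - 1 + 1 / r := by
  set y := Real.sqrt r with hy
  have y0 : 0 < y := Real.sqrt_pos.2 hr
  have e1 : r = y ^ 2 := (Real.sq_sqrt hr.le).symm
  have h1 : Real.log r = 2 * Real.log y := by
    rw [e1, Real.log_pow]
    norm_num
  have h2 : 1 - 1 / y ≤ Real.log y := by
    have := Real.one_sub_inv_le_log_of_pos y0
    rwa [inv_eq_one_div] at this
  have h3 : (1 - 1 / y) ^ 2 ≤ Real.log r - 1 + 1 / r := by
    have : (1 - 1 / y) ^ 2 = 2 * (1 - 1 / y) - 1 + 1 / r := by
      rw [e1]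
      field_simp
      ring
    rw [this, h1]
    linarith
  refine le_trans ?_ h3
  have h4 : |1 - 1 / y| = |y - 1| / y := by
    rw [show 1 - 1 / y = (y - 1) / y by field_simp, abs_div, abs_of_pos y0]
  have h5 : |r - 1| = |y - 1| * (y + 1) := by
    rw [e1, show y ^ 2 - 1 = (y - 1) * (y + 1) by ring, abs_mul, abs_of_pos (by linarith : (0 : ℝ) < y + 1)]
  have h6 : e / 6 ≤ |1 - 1 / y| := by
    rw [h4, le_div_iff₀ y0]
    rcases le_or_gt y 2 with h7 | h7
    · rw [h5] at h
      have h8 : |y - 1| * (y + 1) ≤ |y - 1| * 3 := mul_le_mul_of_nonneg_left (by linarith) (abs_nonneg _)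
      nlinarith
    · have h8 : |y - 1| = y - 1 := abs_of_pos (by linarith)
      rw [h8]
      nlinarith
  have h9 : e ^ 2 / 36 = (e / 6) ^ 2 := by ring
  rw [h9, ← sq_abs (1 - 1 / y)]
  exact pow_le_pow_left₀ (by positivity) h6 2

/-- the mean of the inverse ratio -/
theorem E_inv_le : P.E (fun w => P.pv Zb F w (F w) / P.pv (fun u => (Y u, Zb u)) F w (F w)) ≤ 1 := by
  have h1 := E_tup P (fun _ : Unit => F) (W := fun u => (Y u, Zb u)) (al := fun _ => (1 : ℝ)) (fun _ _ _ => rfl)
    (g := fun w f => P.pv Zb F w (f ()) / P.pv (fun u => (Y u, Zb u)) F w (f ())) (fun f a b hab => by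
      have g1 : P.pv Zb F a (f ()) = P.pv Zb F b (f ()) := P.pv_fac _ _ _ a b (congrArg Prod.snd hab)
      have g2 : P.pv (fun u => (Y u, Zb u)) F a (f ()) = P.pv (fun u => (Y u, Zb u)) F b (f ()) := P.pv_fac _ _ _ a b hab
      show _ / _ = _ / _
      rw [g1, g2])
  simp only [one_mul] at h1
  have e1 : P.E (fun w => P.pv Zb F w (F w) / P.pv (fun u => (Y u, Zb u)) F w (F w)) =
      P.E (fun w => P.pv Zb F w (tup (fun _ : Unit => F) w ()) /
        P.pv (fun u => (Y u, Zb u)) F w (tup (fun _ : Unit => F) w ())) := rfl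
  rw [e1, h1]
  have h2 : P.E (fun w => ∑ f ∈ let_ (fun _ : Unit => F), P.pv (fun u => (Y u, Zb u)) (tup fun _ : Unit => F) w f *
      (P.pv Zb F w (f ()) / P.pv (fun u => (Y u, Zb u)) F w (f ()))) ≤ P.E (fun _ => (1 : ℝ)) := by
    refine P.E_mono fun w hw => ?_
    rw [← sum_one P (F := F) Zb hw]
    refine Finset.sum_le_sum fun f _ => ?_
    rw [pv_unit]
    have g1 := P.pv_nonneg Zb F w (f ())
    rcases (P.pv_nonneg (fun u => (Y u, Zb u)) F w (f ())).eq_or_lt with g2 | g2
    · rw [← g2, zero_mul]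
      exact g1
    · rw [mul_div_cancel₀ _ g2.ne']
  rw [P.E_const] at h2
  exact h2

/-- **THE NUMBER OF THE ACTIVE LETTERS** -/
theorem act_le {e : ℝ} (he : 0 < e) (he1 : e ≤ 1) : e ^ 2 / 36 * P.Pr (fun w => act P Zb F Y e w (F w)) ≤
    P.Hc F Zb - P.Hc F (fun u => (Y u, Zb u)) := by
  have h1 : P.E (fun w => Real.log (P.pv (fun u => (Y u, Zb u)) F w (F w) / P.pv Zb F w (F w))) =
      P.Hc F Zb - P.Hc F (fun u => (Y u, Zb u)) := by
    rw [← E_sp, ← E_sp, ← P.E_sub]
    exact P.E_congr fun w hw => log_ratio_sp P hw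
  have h2 := E_inv_le P (Zb := Zb) (F := F) (Y := Y)
  have h3 : P.E (fun w => e ^ 2 / 36 * ind (act P Zb F Y e w (F w))) ≤
      P.E (fun w => Real.log (P.pv (fun u => (Y u, Zb u)) F w (F w) / P.pv Zb F w (F w)) - 1 +
        P.pv Zb F w (F w) / P.pv (fun u => (Y u, Zb u)) F w (F w)) := by
    refine P.E_mono fun w hw => ?_
    have q1 : 0 < P.pv (fun u => (Y u, Zb u)) F w (F w) := by
      rw [P.pv_self]
      exact div_pos (P.m_pos (fun u => (F u, (Y u, Zb u))) hw) (P.m_pos (fun u => (Y u, Zb u)) hw)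
    have q2 : 0 < P.pv Zb F w (F w) := by
      rw [P.pv_self]
      exact div_pos (P.m_pos (fun u => (F u, Zb u)) hw) (P.m_pos Zb hw)
    set r := P.pv (fun u => (Y u, Zb u)) F w (F w) / P.pv Zb F w (F w) with hr
    have r0 : 0 < r := div_pos q1 q2
    have e2 : P.pv Zb F w (F w) / P.pv (fun u => (Y u, Zb u)) F w (F w) = 1 / r := by
      rw [hr, one_div, inv_div]
    rw [e2]
    by_cases ha : act P Zb F Y e w (F w)
    · rw [ind_of ha, mul_one]
      exact h_ge r0 he he1 ha
    · rw [ind_not ha, mul_zero]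
      have := Real.one_sub_inv_le_log_of_pos r0
      rw [inv_eq_one_div] at this
      linarith
  rw [P.E_smul, P.E_add, P.E_sub, P.E_const, h1] at h3
  unfold FP.Pr
  linarith

end

end Pool.Agent.GMH.One
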