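import Pool.Agent.GMH.One2a

/-!
# GMH/One2 (helper2): the released part of the sets `V` over all public epochs (H3.MOV, M.7 (a); OneOK of GMH/TopFin)

Over `GMH/One2a`; `F n` = signed function of the tables of the start `n`.
* `rr F i r t` : mean of the row of the sampled point `r` given the hidden point and the cells of the level `t`;
  `gp lam f` : the largest value if it is at least `lam / 2`, else `0`;
* `world` : `MovB.bit_world` in the world of the start `n`;
* `one_sum` : the sum over all epochs.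
-/

set_option autoImplicit false
set_option linter.unusedSectionVars false

namespace Pool.Agent.GMH.One

open Finset Pool.Agent.PWZ Pool.Agent.M3 Pool.Agent.GM Pool.Agent.GM.Harm Pool.Agent.GMH Pool.Agent.GMH.Dy
open Pool.Agent.GMH.Gdy Pool.Agent.GMH.CR Pool.Agent.GMH.MovU

noncomputable section

/-! ## largest value -/

/-- a name of the largest value -/
def amax {M : ℕ} (f : Fin (M + 1) → ℝ) : Fin (M + 1) := Classical.choose (Finite.exists_max f)

theorem amax_le {M : ℕ} (f : Fin (M + 1) → ℝ) (k : Fin (M + 1)) : f k ≤ f (amax f) :=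
  Classical.choose_spec (Finite.exists_max f) k

open Classical in
/-- the largest value, if it is at least `lam / 2` -/
def gp {M : ℕ} (lam : ℝ) (f : Fin (M + 1) → ℝ) : ℝ := if lam / 2 ≤ f (amax f) then f (amax f) else 0

theorem gp_nonneg {M : ℕ} {lam : ℝ} (hl : 0 ≤ lam) (f : Fin (M + 1) → ℝ) : 0 ≤ gp lam f := by
  unfold gp
  split_ifs with h
  · linarith
  · exact le_rfl

theorem gp_ge {M : ℕ} {lam : ℝ} (hl : 0 ≤ lam) (f : Fin (M + 1) → ℝ) (k : Fin (M + 1)) : f k - lam / 2 ≤ gp lam f := by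
  have h1 := amax_le f k
  unfold gp
  split_ifs with h
  · linarith
  · push Not at h
    linarith

variable {X β γ φ : Type} [Fintype X] [Fintype β] [Fintype φ] [Nonempty X] [Nonempty β]
variable {D : HD (Fin 3) X β γ φ} {al : ℝ} {prr : ℕ → Fin 3 → φ → φ} {T : ℕ} {W : Type} [Fintype W]
variable (tb : Tab D prr T W) (i : Fin 3)

/-! ## coordinates of a world -/

/-- the exact vertex: tables of the other tops, point -/
def Uc (w : Om W X β) : X × ((Fin 3 → Option W) × (Fin 3 → Option β)) := (w.1, crd {i}ᶜ {i} w)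

/-- the other vertices: table of the top `i`, points -/
def Vo (w : Om W X β) : X × ((Fin 3 → Option W) × (Fin 3 → Option β)) := (w.1, crd {i} {i}ᶜ w)

/-- the point with the coordinates `a`, `b` -/
def comb (z : Om W X β) (a b : X × ((Fin 3 → Option W) × (Fin 3 → Option β))) : Om W X β :=
  (a.1, fun j => (if j = i then b.2.1 j else a.2.1 j).getD (z.2.1 j),
    fun j => (if j = i then a.2.2 j else b.2.2 j).getD (z.2.2 j))

/-- coordinates of a sampled point -/
def emb (x : X) (r : (Fin 3 → W) × β) : X × ((Fin 3 → Option W) × (Fin 3 → Option β)) :=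
  (x, (fun j => if j ∈ ({i}ᶜ : Finset (Fin 3)) then some (r.1 j) else none,
    fun j => if j ∈ ({i} : Finset (Fin 3)) then some r.2 else none))

variable {i}

theorem comb_eq (z w : Om W X β) : comb i z (Uc i w) (Vo i w) = w := by
  unfold comb Uc Vo crd
  refine Prod.ext rfl (Prod.ext (funext fun j => ?_) (funext fun j => ?_))
  · by_cases hj : j = i
    · simp [hj]
    · simp [hj]
  · by_cases hj : j = i
    · simp [hj]
    · simp [hj]

theorem comb_sub (z w : Om W X β) {x : X} (hx : x = w.1) (r : (Fin 3 → W) × β) :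
    comb i z (emb i x r) (Vo i w) = sub i r w := by
  unfold comb emb Vo crd sub
  refine Prod.ext hx (Prod.ext (funext fun j => ?_) (funext fun j => ?_))
  · by_cases hj : j = i
    · simp [hj]
    · simp [hj]
  · by_cases hj : j = i
    · simp [hj]
    · simp [hj]

theorem Uc_emb (w : Om W X β) : Uc i w = emb i w.1 (w.2.1, w.2.2 i) := by
  unfold Uc emb crd
  refine Prod.ext rfl (Prod.ext rfl (funext fun j => ?_))
  by_cases hj : j = i
  · simp [hj]
  · simp [hj]

theorem Uc_law (n : ℕ) (z : Om W X β) (g : X × ((Fin 3 → Option W) × (Fin 3 → Option β)) → ℝ) :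
    (tb.Wl n z).E (fun w => g (Uc i w)) = (SL tb n (z.2.2 i)).E fun r => g (emb i z.1 r) := by
  rw [← Wl_SL tb i n z fun r => g (emb i z.1 r)]
  refine FP.E_congr _ fun w hw => ?_
  rw [Uc_emb, (cll_eq.1 ((Wl_supp tb).1 hw).2).1]

/-! ## cells -/

/-- the time of the cells at the state `n + s` -/
def lv (N n s : ℕ) : ℕ := TP.nn (min (n + s) N)

variable (D i) in
/-- hidden point and cell of the vertex `i` -/
def cU (N n s : ℕ) (w : Om W X β) : X × γ := (w.1, D.qb (lv N n s) (w.2.2 i))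

variable (D i) in
/-- hidden point and cells of the other vertices -/
def cV (N n s : ℕ) (w : Om W X β) : X × (Fin 3 → Option γ) :=
  (w.1, fun j => if j = i then none else some (D.qb (lv N n s) (w.2.2 j)))

theorem lv_mono (N n s : ℕ) : lv N n s ≤ lv N n (s + 1) := TP.nn_mono (by omega)

theorem nn_step (q : ℕ) : TP.nn (q + 1) ≤ TP.nn q + 1 := by
  have h1 : q = 5 * (q / 5) + q % 5 := by omega
  have h2 : q + 1 = 5 * (q / 5) + (q % 5 + 1) := by omega
  conv_lhs => rw [h2]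
  conv_rhs => rw [h1]
  rw [TP.nn_add _ _ (by omega), TP.nn_add _ _ (by omega)]
  unfold TP.nnj
  split_ifs <;> omega

theorem lv_step (N n s : ℕ) : lv N n (s + 1) ≤ lv N n s + 1 := by
  unfold lv
  rcases Nat.lt_or_ge (n + s) N with h | h
  · rw [show min (n + (s + 1)) N = n + s + 1 by omega, show min (n + s) N = n + s by omega]
    exact nn_step _
  · rw [show min (n + (s + 1)) N = N by omega, show min (n + s) N = N by omega]
    exact Nat.le_succ _

theorem lv_le {N n s : ℕ} (h : n + s ≤ N) : lv N n s = TP.nn (n + s) := by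
  unfold lv
  rw [min_eq_left h]

theorem cU_filt (N n : ℕ) : Filt (fun s => cU (W := W) D i N n s) := by
  intro s v w e
  have h1 := Prod.mk.inj e
  exact Prod.ext h1.1 (Dy.qb_mono (lv_mono N n s) h1.2)

theorem cV_eq {N n s : ℕ} {v w : Om W X β} : cV D i N n s v = cV D i N n s w ↔
    v.1 = w.1 ∧ ∀ j, j ≠ i → D.qb (lv N n s) (v.2.2 j) = D.qb (lv N n s) (w.2.2 j) := by
  unfold cV
  rw [Prod.mk.injEq, funext_iff]
  refine and_congr_right fun _ => forall_congr' fun j => ?_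
  by_cases hj : j = i
  · simp [hj]
  · simp [hj]

theorem cV_filt (N n : ℕ) : Filt (fun s => cV (W := W) D i N n s) := by
  intro s v w e
  have h1 := cV_eq.1 e
  exact cV_eq.2 ⟨h1.1, fun j hj => Dy.qb_mono (lv_mono N n s) (h1.2 j hj)⟩

/-- the node is the sight -/
theorem pair_sgt {N n s : ℕ} {v w : Om W X β} :
    pair (fun s => cU (W := W) D i N n s) (fun s => cV (W := W) D i N n s) s v =
      pair (fun s => cU (W := W) D i N n s) (fun s => cV (W := W) D i N n s) s w ↔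
    sgt D ∅ (lv N n s) v = sgt D ∅ (lv N n s) w := by
  rw [pair_eq, cV_eq, sgt_eq]
  unfold cU
  rw [Prod.mk.injEq]
  simp only [notMem_empty, false_implies, implies_true, true_and]
  constructor
  · rintro ⟨⟨h1, h2⟩, _, h3⟩
    refine ⟨h1, fun j => ?_⟩
    by_cases hj : j = i
    · rw [hj]
      exact h2
    · exact h3 j hj
  · rintro ⟨h1, h2⟩
    exact ⟨⟨h1, h2 i⟩, h1, fun j _ => h2 j⟩

theorem Uc_cU (N n s : ℕ) : Fac (Uc (W := W) (X := X) (β := β) i) (cU D i N n s) := by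
  intro v w e
  have h1 := Prod.mk.inj e
  have h2 := (crd_eq.1 h1.2).2 i (Finset.mem_singleton_self i)
  unfold cU
  rw [h1.1, h2]

theorem Vo_cV (N n s : ℕ) : Fac (Vo (W := W) (X := X) (β := β) i) (cV D i N n s) := by
  intro v w e
  have h1 := Prod.mk.inj e
  refine cV_eq.2 ⟨h1.1, fun j hj => ?_⟩
  rw [(crd_eq.1 h1.2).2 j (by simp [hj])]

theorem Wl_ind (n : ℕ) (z : Om W X β) : (tb.Wl n z).Indep (Uc i) (Vo i) := by
  have h := Wl_indep tb n z ({i}ᶜ : Finset (Fin 3)) ({i} : Finset (Fin 3))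
  rw [compl_compl] at h
  exact h

/-- halving of the cell of the vertex `i` -/
theorem cU_half {dg : ℕ → X → ℝ} {Lam : ℝ} (H : D.Hyp dg prr al T Lam) {N n : ℕ} (hN : TP.nn N ≤ T) (z : Om W X β)
    (s : ℕ) {w : Om W X β} (hw : (tb.Wl (TP.nn n) z).p w ≠ 0) (hn : n < N) :
    (tb.Wl (TP.nn n) z).m (cU D i N n s) w ≤ 2 * (tb.Wl (TP.nn n) z).m (cU D i N n (s + 1)) w := by
  have hc := cll_eq.1 ((Wl_supp tb).1 hw).2
  have hlv : ∀ s, TP.nn n ≤ lv N n s := fun s => TP.nn_mono (by omega)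
  -- the mass of a cell
  have key : ∀ s, (tb.Wl (TP.nn n) z).m (cU D i N n s) w =
      ((D.cB (lv N n s) (w.2.2 i)).card : ℝ) / ((D.cB (TP.nn n) (z.2.2 i)).card : ℝ) := by
    intro s
    have e1 : (tb.Wl (TP.nn n) z).m (cU D i N n s) w =
        (tb.Wl (TP.nn n) z).E (fun u => ind (D.qb (lv N n s) (u.2.2 i) = D.qb (lv N n s) (w.2.2 i))) := by
      unfold FP.m
      refine FP.E_congr _ fun u hu => ?_
      congr 1
      have hu' := (cll_eq.1 ((Wl_supp tb).1 hu).2).1
      exact propext ⟨fun hh => (Prod.mk.inj hh).2, fun hh => Prod.ext (hu'.trans hc.1.symm) hh⟩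
    rw [e1, Wl_pt tb (TP.nn n) z i (fun b => ind (D.qb (lv N n s) b = D.qb (lv N n s) (w.2.2 i)))]
    congr 1
    have e2 : ∑ b ∈ D.cB (TP.nn n) (z.2.2 i), ind (D.qb (lv N n s) b = D.qb (lv N n s) (w.2.2 i)) =
        ∑ b, ind (D.qb (lv N n s) b = D.qb (lv N n s) (w.2.2 i)) * 1 := by
      simp only [mul_one]
      refine Finset.sum_subset (Finset.subset_univ _) fun b _ hb => ind_not fun hh => hb ?_
      unfold HD.cB
      simp only [Finset.mem_filter, Finset.mem_univ, true_and]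
      rw [← hc.2 i]
      exact Dy.qb_mono (hlv s) hh
    rw [e2, sum_ind_cB (D := D) (lv N n s) (w.2.2 i) (fun _ => (1 : ℝ)), Finset.sum_const, nsmul_eq_mul, mul_one]
  have half : ∀ a b, a < T → ((D.cB a b).card : ℝ) ≤ 2 * ((D.cB (a + 1) b).card : ℝ) := by
    intro a b ha
    rcases H.half a ha with h0 | h0
    · rw [h0 b]
      have := (cB_pos (D := D) a b).le
      linarith
    · have := h0 b
      have h2 : (2 : ℝ) * ((D.cB (a + 1) b).card : ℝ) = ((D.cB a b).card : ℝ) := by exact_mod_cast this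
      rw [h2]
  rw [key, key, ← mul_div_assoc]
  refine div_le_div_of_nonneg_right ?_ (Nat.cast_nonneg _)
  have h1 := lv_mono N n s
  have h2 := lv_step N n s
  rcases Nat.eq_or_lt_of_le h1 with h3 | h3
  · rw [← h3]
    have := (cB_pos (D := D) (lv N n s) (w.2.2 i)).le
    linarith
  · have h4 : lv N n (s + 1) = lv N n s + 1 := by omega
    rw [h4]
    refine half _ _ ?_
    have h5 : lv N n (s + 1) ≤ T := (TP.nn_mono (by omega)).trans hN
    omega

/-! ## one world -/

variable (C : Clk D W i) (N : ℕ) (F : ℕ → Om W X β → ℝ)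

variable (i) in
/-- mean of the row of the sampled point `r` of the start `n` at the level `t` -/
def rr (n : ℕ) (r : (Fin 3 → W) × β) (t : ℕ) (w : Om W X β) : ℝ :=
  tb.Ps.ce (sgt D ∅ t) (fun v => F n (sub i r v)) w

/-- density of the status at the state `s` -/
def dn (n s : ℕ) (w : Om W X β) : ℝ := tb.Ps.ce (sgt D ∅ (TP.nn s)) (fun v => ind (C.Vs n v)) w

/-- the status was dense -/
def scn (u : ℝ) (n : ℕ) (w : Om W X β) : Prop := ∃ s ≤ C.sg N n w, u / 2 ≤ dn tb C n (n + s) w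

/-- the status as a function of the exact vertex -/
def VU (n : ℕ) (z : Om W X β) (a : X × ((Fin 3 → Option W) × (Fin 3 → Option β))) : Prop :=
  C.Vs n (comb i z a (Vo i z))

theorem VU_iff {n : ℕ} {z v : Om W X β} (hv : cll D (TP.nn n) v = cll D (TP.nn n) z) : VU C n z (Uc i v) ↔ C.Vs n v := by
  have h1 := cll_eq.1 hv
  unfold VU
  refine Eq.to_iff (C.VsF n _ _ ?_)
  refine sgt_eq.2 ⟨rfl, fun j hj => ?_, fun j => ?_⟩
  · rw [Finset.mem_singleton.1 hj]
    unfold comb Uc Vo crd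
    simp
  · by_cases hj : j = i
    · unfold comb Uc Vo crd
      simp [hj]
    · have e : (comb i z (Uc i v) (Vo i z)).2.2 j = z.2.2 j := by
        unfold comb Uc Vo crd
        simp [hj]
      rw [e]
      exact (h1.2 j).symm

theorem Wl_pair {n s : ℕ} (z : Om W X β) (f : Om W X β → ℝ) {w : Om W X β} (hw : (tb.Wl (TP.nn n) z).p w ≠ 0)
    (hn : n < N) : (tb.Wl (TP.nn n) z).ce (pair (fun s => cU (W := W) D i N n s) (fun s => cV (W := W) D i N n s) s) f w =
      tb.Ps.ce (sgt D ∅ (lv N n s)) f w := by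
  rw [FP.ce_congr_map _ (Y := sgt D ∅ (lv N n s)) (fun a b e => pair_sgt.1 e) (fun a b e => pair_sgt.2 e)]
  exact Wl_ce tb (TP.nn_mono (by omega)) ∅ z f hw

theorem ru_rr {n s : ℕ} (hns : n + s ≤ N) (hn : n < N) (z : Om W X β) {w : Om W X β}
    (hw : (tb.Wl (TP.nn n) z).p w ≠ 0) (r : (Fin 3 → W) × β) :
    ru (tb.Wl (TP.nn n) z) (fun s => cV (W := W) D i N n s) (Vo i) (fun a b => F n (comb i z a b)) (emb i z.1 r) s w =
      rr tb i F n r (TP.nn (n + s)) w := by
  unfold ru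
  rw [← ce_pair (Wl_ind tb (TP.nn n) z) (fun s => Uc_cU (D := D) N n s) (fun s => Vo_cV (D := D) N n s) s
    (f := fun v => F n (comb i z (emb i z.1 r) (Vo i v))) (fun a b e => by
      show F n (comb i z (emb i z.1 r) (Vo i a)) = F n (comb i z (emb i z.1 r) (Vo i b))
      rw [e]) hw, Wl_pair tb N z _ hw hn, lv_le hns]
  unfold rr
  refine ce_congr_on fun v _ hv => ?_
  have h1 := (cll_eq.1 ((Wl_supp tb).1 hw).2).1
  rw [comb_sub z v (h1.symm.trans (sgt_eq.1 hv).1.symm) r]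

theorem cp_dn {n s : ℕ} (hns : n + s ≤ N) (hn : n < N) (z : Om W X β) {w : Om W X β}
    (hw : (tb.Wl (TP.nn n) z).p w ≠ 0) :
    cp (tb.Wl (TP.nn n) z) (fun s => cU (W := W) D i N n s) s (fun v => VU C n z (Uc i v)) w = dn tb C n (n + s) w := by
  rw [← cp_pairU (Wl_ind tb (TP.nn n) z) (fun s => Uc_cU (D := D) N n s) (fun s => Vo_cV (D := D) N n s) s _
    (fun a b e => by rw [e]) hw]
  unfold cp dn
  rw [Wl_pair tb N z _ hw hn, lv_le hns]
  refine ce_congr_on fun v _ hv => ?_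
  congr 1
  refine propext (VU_iff C ?_)
  rw [← ((Wl_supp tb).1 hw).2]
  refine cll_eq.2 ⟨(sgt_eq.1 hv).1, fun j => Dy.qb_mono (TP.nn_mono (by omega)) ((sgt_eq.1 hv).2.2 j)⟩

theorem sC_scn {n : ℕ} (hn : n < N) (z : Om W X β) {u : ℝ} {w : Om W X β} (hw : (tb.Wl (TP.nn n) z).p w ≠ 0) :
    sC (tb.Wl (TP.nn n) z) (fun s => cU (W := W) D i N n s) (Uc i) (VU C n z) u (C.sg N n w) w ↔ scn tb C N u n w := by
  unfold sC scn
  refine exists_congr fun s => and_congr_right fun hs => ?_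
  have h1 := C.sg_le N hn w
  rw [cp_dn tb C N (show n + s ≤ N by omega) hn z hw]

/-- the end of the epoch is a stopping time -/
theorem sg_stp {n : ℕ} (hn : n < N) :
    Stp (pair (fun s => cU (W := W) D i N n s) (fun s => cV (W := W) D i N n s)) (C.sg N n) := by
  have key : ∀ (s : ℕ) (v w : Om W X β), sgt D ∅ (lv N n s) v = sgt D ∅ (lv N n s) w → C.sg N n v ≤ s → C.sg N n w ≤ s := by
    intro s v w e h
    have h1 := C.sg_spec N n v
    have h2 := C.sg_le N hn v
    refine (C.sg_le' N ⟨h1.1, ?_⟩).trans h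
    rcases h1.2 with h3 | h3
    · left
      refine (C.nuF (n + C.sg N n v) w v ?_).trans h3
      have h4 := sgt_eq.1 e
      refine sgt_eq.2 ⟨h4.1.symm, fun j hj => absurd hj (Finset.notMem_empty j), fun j => ?_⟩
      exact (Dy.qb_mono (TP.nn_mono (by omega)) (h4.2.2 j)).symm
    · exact Or.inr h3
  intro s v w e
  have e' := pair_sgt.1 e
  exact ⟨key s v w e', key s w v e'.symm⟩

open Classical in
/-- the weight in the epoch of the start `n` -/
def Gw (g : ℕ → Om W X β → ℝ) (n s : ℕ) (w : Om W X β) : ℝ :=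
  if 0 < s ∧ n + s ≤ N then ind (C.Rl (n + s - 1) w) * g (n + s - 1) w else 0

theorem Gw_fac {g : ℕ → Om W X β → ℝ}
    (hg : ∀ q < N, Fac (fun w : Om W X β => (Vo i w, D.qb (TP.nn (q + 1)) (w.2.2 i))) (g q)) (n s : ℕ) :
    Fac (fun w => (pair (fun s => cV (W := W) D i N n s) (fun s => cU (W := W) D i N n s) s w, Vo i w))
      (Gw C N g n s) := by
  intro v w e
  have e1 := Prod.mk.inj e
  have e2 := pair_eq.1 e1.1
  unfold Gw
  by_cases h : 0 < s ∧ n + s ≤ N
  · rw [if_pos h, if_pos h]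
    have h3 : n + s - 1 + 1 = n + s := by omega
    have h4 : sgt D ∅ (TP.nn (n + s)) v = sgt D ∅ (TP.nn (n + s)) w := by
      have := pair_sgt (D := D) (i := i) (N := N) (n := n) (s := s) (v := v) (w := w)
      rw [← lv_le h.2]
      exact this.1 (pair_eq.2 ⟨e2.2, e2.1⟩)
    have h5 : C.Rl (n + s - 1) v = C.Rl (n + s - 1) w := C.RlF (n + s - 1) v w (by rw [h3]; exact h4)
    have h6 : g (n + s - 1) v = g (n + s - 1) w := by
      refine hg (n + s - 1) (by omega) v w (Prod.ext e1.2 ?_)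
      show D.qb (TP.nn (n + s - 1 + 1)) (v.2.2 i) = D.qb (TP.nn (n + s - 1 + 1)) (w.2.2 i)
      rw [h3]
      exact (sgt_eq.1 h4).2.2 i
    rw [h5, h6]
  · rw [if_neg h, if_neg h]

/-- **ONE WORLD** -/
theorem world {dg : ℕ → X → ℝ} {Lam : ℝ} (H : D.Hyp dg prr al T Lam) (hN : TP.nn N ≤ T) {n : ℕ} (hn : n < N)
    (z : Om W X β) {g : ℕ → Om W X β → ℝ}
    (hg : ∀ q < N, Fac (fun w : Om W X β => (Vo i w, D.qb (TP.nn (q + 1)) (w.2.2 i))) (g q)) (hg0 : ∀ q w, 0 ≤ g q w)
    {L K lam u y0 : ℝ} (hL : ∀ w, F n w ≤ L) (hL0 : 0 ≤ L) (hK : ∀ w, - K ≤ F n w) (hK0 : 0 ≤ K) (hlam : 0 < lam)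
    (hu : 0 < u) (h0 : 0 ≤ y0) (hy : y0 ≤ u / 4) (M : ℕ) :
    L * (tb.Wl (TP.nn n) z).E (fun w => ind (C.Vs n w ∧ ¬ scn tb C N u n w) * Gw C N g n (C.sg N n w) w) +
        (tb.Wl (TP.nn n) z).E (fun w => ind (C.Rl (n + C.sg N n w - 1) w ∧ (C.Vs n w ∧ scn tb C N u n w)) * F n w) ≤
      L * (u / 2) * (tb.Wl (TP.nn n) z).E (fun w => Gw C N g n (C.sg N n w) w) +
        (lam + (lam + K) * (4 * y0 / u)) * (tb.Wl (TP.nn n) z).Pr (fun w => C.Vs n w ∧ C.Rl (n + C.sg N n w - 1) w) +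
        2 * (lam + K) * (tb.Wl (TP.nn n) z).Pr (fun w => ¬ C.Rl (n + C.sg N n w - 1) w ∧
          y0 < dn tb C n (n + C.sg N n w) w) +
        (FPpi fun _ : Fin (M + 1) => SL tb (TP.nn n) (z.2.2 i)).E (fun ρ =>
          L * (2 * u / lam) * (tb.Wl (TP.nn n) z).E (fun w => gp lam fun k => rr tb i F n (ρ k) (TP.nn (n + C.sg N n w)) w) +
          L * (tb.Wl (TP.nn n) z).Pr (fun w => ∃ k, lam < rr tb i F n (ρ k) (TP.nn n) w)) + L / ((M : ℝ) + 2) := by
  classical
  set P := tb.Wl (TP.nn n) z with hP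
  have hsg : ∀ w, C.sg N n w < N + 1 := fun w => by
    have := C.sg_le N hn w
    omega
  have hlast : ∀ w, n + C.sg N n w - 1 + 1 = n + C.sg N n w := fun w => by
    have := C.sg_pos N n w
    omega
  have b1 := MovB.bit_world (P := P) (cU := fun s => cU (W := W) D i N n s) (cV := fun s => cV (W := W) D i N n s)
    (U := Uc i) (V := Vo i) (Vc := VU C n z) (F := fun a b => F n (comb i z a b)) (u := u) (lam := lam) (L := L) (K := K)
    (y0 := y0) (σ := C.sg N n) (T := N + 1) (Rm := fun w => C.Rl (n + C.sg N n w - 1) w)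
    (Bd := fun w => ¬ C.Rl (n + C.sg N n w - 1) w ∧ y0 < dn tb C n (n + C.sg N n w) w)
    (Wl_ind tb (TP.nn n) z) (fun s => Uc_cU (D := D) N n s) (fun s => Vo_cV (D := D) N n s) (cU_filt N n) (cV_filt N n)
    (fun a b => hL _) hL0 (fun a b => hK _) hK0 hlam hu (h := 2) (by norm_num) (M + 1) (sg_stp C N hn) hsg
    (fun s w hw => cU_half tb H hN z s hw hn) (G := Gw C N g n) (Gw_fac C N hg n) (fun s w => by
      unfold Gw
      split_ifs
      · exact mul_nonneg (ind_nonneg _) (hg0 _ _)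
      · exact le_rfl)
    (gY := fun x w => gp lam fun k => ru P (fun s => cV (W := W) D i N n s) (Vo i) (fun a b => F n (comb i z a b))
      (x k) (C.sg N n w) w) (fun x w _ => gp_nonneg hlam.le _) (fun x k w _ => gp_ge hlam.le (fun k => ru P
        (fun s => cV (W := W) D i N n s) (Vo i) (fun a b => F n (comb i z a b)) (x k) (C.sg N n w) w) k)
    (fun t v w e hv => by
      have e' := pair_sgt.1 e
      have h1 : C.sg N n w = t := by
        have h2 := sg_stp C N hn t v w e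
        rcases Nat.eq_zero_or_pos t with h3 | h3
        · have := C.sg_pos N n v
          omega
        · have h4 := sg_stp C N hn (t - 1) v w (by
            have := (pair_filt (cU_filt (W := W) (X := X) (D := D) (i := i) N n)
              (cV_filt (W := W) (X := X) (D := D) (i := i) N n)) (t - 1) v w
            rw [show t - 1 + 1 = t by omega] at this
            exact this e)
          omega
      have h2 := C.sg_le N hn v
      have h3 := C.sg_pos N n v
      rw [hv, h1]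
      rw [hv] at h2 h3
      rw [lv_le h2] at e'
      refine Eq.to_iff (C.RlF (n + t - 1) v w ?_)
      rw [show n + t - 1 + 1 = n + t by omega]
      exact e')
    (fun w hw hnr => by
      rw [cp_dn tb C N (C.sg_le N hn w) hn z hw]
      by_cases hd : y0 < dn tb C n (n + C.sg N n w) w
      · rw [ind_of (show ¬ C.Rl (n + C.sg N n w - 1) w ∧ y0 < dn tb C n (n + C.sg N n w) w from ⟨hnr, hd⟩)]
        have h1 : dn tb C n (n + C.sg N n w) w ≤ 1 := by
          unfold dn
          exact tb.Ps.ce_le_const (fun _ _ => ind_le_one _) ((Wl_supp tb).1 hw).1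
        linarith
      · have := ind_nonneg (¬ C.Rl (n + C.sg N n w - 1) w ∧ y0 < dn tb C n (n + C.sg N n w) w)
        linarith [not_lt.1 hd]) h0 hy
  -- the sample
  have e4 := smp_E P (SL tb (TP.nn n) (z.2.2 i)) (Uc i) (emb i z.1) (Uc_law tb (TP.nn n) z) (M + 1) (fun x =>
    L * (2 * u / lam) * P.E (fun w => gp lam fun k => ru P (fun s => cV (W := W) D i N n s) (Vo i)
      (fun a b => F n (comb i z a b)) (x k) (C.sg N n w) w) +
    L * P.Pr (fun w => dY P (fun s => cV (W := W) D i N n s) (Vo i) (fun a b => F n (comb i z a b)) lam x 0 w))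
  rw [e4] at b1
  have e1 : P.E (fun w => ind (C.Vs n w ∧ ¬ scn tb C N u n w) * Gw C N g n (C.sg N n w) w) =
      P.E (fun w => ind (VU C n z (Uc i w) ∧ ¬ sC P (fun s => cU (W := W) D i N n s) (Uc i) (VU C n z) u (C.sg N n w) w) *
        Gw C N g n (C.sg N n w) w) := by
    refine P.E_congr fun w hw => ?_
    rw [sC_scn tb C N hn z hw, VU_iff C ((Wl_supp tb).1 hw).2]
  have e2 : P.E (fun w => ind (C.Rl (n + C.sg N n w - 1) w ∧ (C.Vs n w ∧ scn tb C N u n w)) * F n w) =
      P.E (fun w => ind (C.Rl (n + C.sg N n w - 1) w ∧ (VU C n z (Uc i w) ∧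
        sC P (fun s => cU (W := W) D i N n s) (Uc i) (VU C n z) u (C.sg N n w) w)) *
        F n (comb i z (Uc i w) (Vo i w))) := by
    refine P.E_congr fun w hw => ?_
    rw [sC_scn tb C N hn z hw, VU_iff C ((Wl_supp tb).1 hw).2, comb_eq]
  have e3 : P.Pr (fun w => C.Vs n w ∧ C.Rl (n + C.sg N n w - 1) w) =
      P.Pr (fun w => VU C n z (Uc i w) ∧ C.Rl (n + C.sg N n w - 1) w) := by
    unfold FP.Pr
    refine P.E_congr fun w hw => ?_
    show ind (C.Vs n w ∧ C.Rl (n + C.sg N n w - 1) w) = ind (VU C n z (Uc i w) ∧ C.Rl (n + C.sg N n w - 1) w)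
    rw [VU_iff C ((Wl_supp tb).1 hw).2]
  have e5 : (FPpi fun _ : Fin (M + 1) => SL tb (TP.nn n) (z.2.2 i)).E (fun ρ =>
          L * (2 * u / lam) * P.E (fun w => gp lam fun k => rr tb i F n (ρ k) (TP.nn (n + C.sg N n w)) w) +
          L * P.Pr (fun w => ∃ k, lam < rr tb i F n (ρ k) (TP.nn n) w)) =
      (FPpi fun _ : Fin (M + 1) => SL tb (TP.nn n) (z.2.2 i)).E (fun ρ =>
    L * (2 * u / lam) * P.E (fun w => gp lam fun k => ru P (fun s => cV (W := W) D i N n s) (Vo i)
      (fun a b => F n (comb i z a b)) (emb i z.1 (ρ k)) (C.sg N n w) w) +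
    L * P.Pr (fun w => dY P (fun s => cV (W := W) D i N n s) (Vo i) (fun a b => F n (comb i z a b)) lam
      (fun k => emb i z.1 (ρ k)) 0 w)) := by
    refine FP.E_congr _ fun ρ _ => ?_
    congr 2
    · refine P.E_congr fun w hw => ?_
      congr 1
      funext k
      exact (ru_rr tb N F (C.sg_le N hn w) hn z hw (ρ k)).symm
    · unfold FP.Pr
      refine P.E_congr fun w hw => ?_
      congr 1
      unfold dY
      refine propext ⟨fun ⟨k, hk⟩ => ⟨0, le_rfl, k, ?_⟩, fun ⟨s', hs', k, hk⟩ => ⟨k, ?_⟩⟩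
      · rw [ru_rr tb N F (show n + 0 ≤ N by omega) hn z hw (ρ k)]
        exact hk
      · obtain rfl : s' = 0 := by omega
        rw [ru_rr tb N F (show n + 0 ≤ N by omega) hn z hw (ρ k)] at hk
        exact hk
  rw [e1, e2, e3, e5]
  have e6 : ((M + 1 : ℕ) : ℝ) + 1 = (M : ℝ) + 2 := by push_cast; ring
  rw [e6] at b1
  exact b1

/-! ## all epochs -/

/-- the status was dense, at the removal in the code step `q` -/
def scq (u : ℝ) (q : ℕ) (w : Om W X β) : Prop :=
  ∃ s, C.nu q w ≤ s ∧ s ≤ q + 1 ∧ u / 2 ≤ dn tb C (C.nu q w) s w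

/-- means over a sample in the cell of the vertex -/
def Es (M n : ℕ) (w : Om W X β) (f : (Fin (M + 1) → (Fin 3 → W) × β) → ℝ) : ℝ :=
  (FPpi fun _ : Fin (M + 1) => SL tb (TP.nn n) (w.2.2 i)).E f

theorem SL_cell {n : ℕ} {b b' : β} (hb : D.qb n b = D.qb n b') : SL tb n b = SL tb n b' := by
  unfold SL
  rw [hb]

theorem Es_cell {M n : ℕ} {v w : Om W X β} (hv : cll D (TP.nn n) v = cll D (TP.nn n) w)
    (f : (Fin (M + 1) → (Fin 3 → W) × β) → ℝ) : Es tb (i := i) M n v f = Es tb (i := i) M n w f := by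
  unfold Es
  rw [SL_cell tb ((cll_eq.1 hv).2 i)]

theorem scn_scq {n : ℕ} (hn : n < N) {u : ℝ} {w : Om W X β} (hs : C.nu n w = n) :
    scn tb C N u n w ↔ scq tb C u (n + C.sg N n w - 1) w := by
  have h1 := C.sg_pos N n w
  have h2 := C.sg_le N hn w
  have h3 := (C.pair_iff N hn (q := n + C.sg N n w - 1) (by omega) w).1 ⟨hs, by omega⟩
  unfold scn scq
  rw [h3.1]
  constructor
  · rintro ⟨s, a, b⟩
    exact ⟨n + s, by omega, by omega, b⟩
  · rintro ⟨s, a, b, c⟩
    refine ⟨s - n, by omega, ?_⟩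
    rw [show n + (s - n) = s by omega]
    exact c

/-- a sum over the starts of means in the worlds is a mean -/
theorem start_E (n : ℕ) (f : Om W X β → Om W X β → ℝ)
    (hf : ∀ z w, cll D (TP.nn n) w = cll D (TP.nn n) z → f z w = f w w) :
    tb.Ps.E (fun z => ind (C.nu n z = n) * (tb.Wl (TP.nn n) z).E (f z)) =
      tb.Ps.E (fun w => ind (C.nu n w = n) * f w w) := by
  rw [← Wl_avg tb (TP.nn n) (fun w => ind (C.nu n w = n) * f w w)]
  refine FP.E_congr _ fun z _ => ?_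
  rw [← FP.E_smul]
  refine FP.E_congr _ fun w hw => ?_
  have h1 := ((Wl_supp tb).1 hw).2
  have h2 : C.nu n w = C.nu n z := C.nuF n w z ((cll_sgt (TP.nn n)).1 h1)
  rw [h2, hf z w h1]

/-- sums over the starts are sums over the ends, in the mean -/
theorem sum_ends (f : ℕ → ℕ → Om W X β → ℝ) :
    ∑ n ∈ range N, tb.Ps.E (fun w => ind (C.nu n w = n) * f n (n + C.sg N n w) w) =
      ∑ q ∈ range N, tb.Ps.E (fun w => ind (C.nu (q + 1) w = q + 1 ∨ q + 1 = N) * f (C.nu q w) (q + 1) w) := by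
  rw [← FP.E_sum, ← FP.E_sum]
  exact FP.E_congr _ fun w _ => C.sum_en N (fun n e => f n e w) w

theorem Rl_abs {q : ℕ} (w : Om W X β) (A : Prop) (x : ℝ) :
    ind (C.nu (q + 1) w = q + 1 ∨ q + 1 = N) * (ind (C.Rl q w ∧ A) * x) = ind (C.Rl q w ∧ A) * x := by
  by_cases h : C.Rl q w
  · rw [ind_of (Or.inl (C.RlE q w h) : C.nu (q + 1) w = q + 1 ∨ q + 1 = N), one_mul]
  · rw [ind_not (fun hh : C.Rl q w ∧ A => h hh.1), zero_mul, mul_zero]

/-- means of a linear inequality -/
theorem lin_E {Om : Type*} [Fintype Om] (P : FP Om) {e A1 A2 A3 A4 A5 A6 A7 : Om → ℝ} {c1 c3 c4 c5 c6 c7 c8 : ℝ}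
    (h : ∀ z, e z * (c1 * A1 z + A2 z) ≤
      e z * (c3 * A3 z + c4 * A4 z + c5 * A5 z + (c6 * A6 z + c7 * A7 z) + c8)) :
    c1 * P.E (fun z => e z * A1 z) + P.E (fun z => e z * A2 z) ≤
      c3 * P.E (fun z => e z * A3 z) + c4 * P.E (fun z => e z * A4 z) + c5 * P.E (fun z => e z * A5 z) +
        c6 * P.E (fun z => e z * A6 z) + c7 * P.E (fun z => e z * A7 z) + c8 * P.E e := by
  have h1 := P.E_mono (f := fun z => e z * (c1 * A1 z + A2 z)) (g := fun z =>
    e z * (c3 * A3 z + c4 * A4 z + c5 * A5 z + (c6 * A6 z + c7 * A7 z) + c8)) fun z _ => h z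
  have e1 : P.E (fun z => e z * (c1 * A1 z + A2 z)) = c1 * P.E (fun z => e z * A1 z) + P.E (fun z => e z * A2 z) := by
    rw [← P.E_smul, ← P.E_add]
    exact P.E_congr fun z _ => by ring
  have e2 : P.E (fun z => e z * (c3 * A3 z + c4 * A4 z + c5 * A5 z + (c6 * A6 z + c7 * A7 z) + c8)) =
      c3 * P.E (fun z => e z * A3 z) + c4 * P.E (fun z => e z * A4 z) + c5 * P.E (fun z => e z * A5 z) +
        c6 * P.E (fun z => e z * A6 z) + c7 * P.E (fun z => e z * A7 z) + c8 * P.E e := by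
    rw [← P.E_smul, ← P.E_smul, ← P.E_smul, ← P.E_smul, ← P.E_smul, ← P.E_smul, ← P.E_add, ← P.E_add, ← P.E_add,
      ← P.E_add, ← P.E_add]
    exact P.E_congr fun z _ => by ring
  rw [e1, e2] at h1
  exact h1

/-- **ALL EPOCHS** -/
theorem one_sum {dg : ℕ → X → ℝ} {Lam : ℝ} (H : D.Hyp dg prr al T Lam) (hN : TP.nn N ≤ T) {g : ℕ → Om W X β → ℝ}
    (hg : ∀ q < N, Fac (fun w : Om W X β => (Vo i w, D.qb (TP.nn (q + 1)) (w.2.2 i))) (g q)) (hg0 : ∀ q w, 0 ≤ g q w)
    {L K lam u y0 : ℝ} (hL : ∀ n w, F n w ≤ L) (hL0 : 0 ≤ L) (hK : ∀ n w, - K ≤ F n w) (hK0 : 0 ≤ K) (hlam : 0 < lam)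
    (hu : 0 < u) (h0 : 0 ≤ y0) (hy : y0 ≤ u / 4) (M : ℕ) :
    L * ∑ q ∈ range N, tb.Ps.E (fun w => ind (C.Rl q w ∧ C.Vs (C.nu q w) w ∧ ¬ scq tb C u q w) * g q w) +
        ∑ q ∈ range N, tb.Ps.E (fun w => ind (C.Rl q w ∧ C.Vs (C.nu q w) w ∧ scq tb C u q w) * F (C.nu q w) w) ≤
      L * (u / 2) * ∑ q ∈ range N, tb.Ps.E (fun w => ind (C.Rl q w) * g q w) +
        (lam + (lam + K) * (4 * y0 / u)) * ∑ q ∈ range N, tb.Ps.Pr (fun w => C.Rl q w ∧ C.Vs (C.nu q w) w) +
        2 * (lam + K) * ∑ q ∈ range N, tb.Ps.Pr (fun w => (C.nu (q + 1) w = q + 1 ∨ q + 1 = N) ∧ ¬ C.Rl q w ∧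
          y0 < dn tb C (C.nu q w) (q + 1) w) +
        L * (2 * u / lam) * ∑ n ∈ range N, tb.Ps.E (fun w => ind (C.nu n w = n) *
          Es tb (i := i) M n w (fun ρ => gp lam fun k => rr tb i F n (ρ k) (TP.nn (n + C.sg N n w)) w)) +
        L * ∑ n ∈ range N, tb.Ps.E (fun w => ind (C.nu n w = n) *
          Es tb (i := i) M n w (fun ρ => ind (∃ k, lam < rr tb i F n (ρ k) (TP.nn n) w))) +
        (L / ((M : ℝ) + 2)) * ∑ n ∈ range N, tb.Ps.Pr (fun w => C.nu n w = n) := by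
  -- one start
  have one : ∀ n ∈ range N,
      L * tb.Ps.E (fun w => ind (C.nu n w = n) *
          (ind (C.Vs n w ∧ ¬ scn tb C N u n w) * Gw C N g n (C.sg N n w) w)) +
        tb.Ps.E (fun w => ind (C.nu n w = n) *
          (ind (C.Rl (n + C.sg N n w - 1) w ∧ (C.Vs n w ∧ scn tb C N u n w)) * F n w)) ≤
      L * (u / 2) * tb.Ps.E (fun w => ind (C.nu n w = n) * Gw C N g n (C.sg N n w) w) +
        (lam + (lam + K) * (4 * y0 / u)) * tb.Ps.E (fun w => ind (C.nu n w = n) *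
          ind (C.Vs n w ∧ C.Rl (n + C.sg N n w - 1) w)) +
        2 * (lam + K) * tb.Ps.E (fun w => ind (C.nu n w = n) * ind (¬ C.Rl (n + C.sg N n w - 1) w ∧
          y0 < dn tb C n (n + C.sg N n w) w)) +
        L * (2 * u / lam) * tb.Ps.E (fun w => ind (C.nu n w = n) *
          Es tb (i := i) M n w (fun ρ => gp lam fun k => rr tb i F n (ρ k) (TP.nn (n + C.sg N n w)) w)) +
        L * tb.Ps.E (fun w => ind (C.nu n w = n) *
          Es tb (i := i) M n w (fun ρ => ind (∃ k, lam < rr tb i F n (ρ k) (TP.nn n) w))) +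
        (L / ((M : ℝ) + 2)) * tb.Ps.Pr (fun w => C.nu n w = n) := by
    intro n hn
    have hn' := Finset.mem_range.1 hn
    have a1 := start_E tb C n (fun _ w => ind (C.Vs n w ∧ ¬ scn tb C N u n w) * Gw C N g n (C.sg N n w) w)
      (fun _ _ _ => rfl)
    have a2 := start_E tb C n (fun _ w => ind (C.Rl (n + C.sg N n w - 1) w ∧ (C.Vs n w ∧ scn tb C N u n w)) * F n w)
      (fun _ _ _ => rfl)
    have a3 := start_E tb C n (fun _ w => Gw C N g n (C.sg N n w) w) (fun _ _ _ => rfl)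
    have a4 := start_E tb C n (fun _ w => ind (C.Vs n w ∧ C.Rl (n + C.sg N n w - 1) w)) (fun _ _ _ => rfl)
    have a5 := start_E tb C n (fun _ w => ind (¬ C.Rl (n + C.sg N n w - 1) w ∧ y0 < dn tb C n (n + C.sg N n w) w))
      (fun _ _ _ => rfl)
    have a6 := start_E tb C n (fun z w => Es tb (i := i) M n z
      (fun ρ => gp lam fun k => rr tb i F n (ρ k) (TP.nn (n + C.sg N n w)) w)) (fun z w e => Es_cell tb e.symm _)
    have a7 := start_E tb C n (fun z w => Es tb (i := i) M n z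
      (fun ρ => ind (∃ k, lam < rr tb i F n (ρ k) (TP.nn n) w))) (fun z w e => Es_cell tb e.symm _)
    rw [← a1, ← a2, ← a3, ← a4, ← a5, ← a6, ← a7]
    refine lin_E tb.Ps (e := fun z => ind (C.nu n z = n)) fun z => ?_
    have hw := world tb C N F H hN hn' z hg hg0 (hL n) hL0 (hK n) hK0 hlam hu h0 hy M
    have e1 : (FPpi fun _ : Fin (M + 1) => SL tb (TP.nn n) (z.2.2 i)).E (fun ρ =>
          L * (2 * u / lam) * (tb.Wl (TP.nn n) z).E (fun w => gp lam fun k => rr tb i F n (ρ k) (TP.nn (n + C.sg N n w)) w) +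
          L * (tb.Wl (TP.nn n) z).Pr (fun w => ∃ k, lam < rr tb i F n (ρ k) (TP.nn n) w)) =
        L * (2 * u / lam) * (tb.Wl (TP.nn n) z).E (fun w => Es tb (i := i) M n z
          (fun ρ => gp lam fun k => rr tb i F n (ρ k) (TP.nn (n + C.sg N n w)) w)) +
        L * (tb.Wl (TP.nn n) z).E (fun w => Es tb (i := i) M n z
          (fun ρ => ind (∃ k, lam < rr tb i F n (ρ k) (TP.nn n) w))) := by
      rw [FP.E_add, FP.E_smul, FP.E_smul]
      unfold Es FP.Pr
      rw [FP.E_swap (tb.Wl (TP.nn n) z), FP.E_swap (tb.Wl (TP.nn n) z)]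
    rw [e1] at hw
    exact mul_le_mul_of_nonneg_left hw (ind_nonneg (C.nu n z = n))
  have hs := Finset.sum_le_sum one
  simp only [Finset.sum_add_distrib, ← Finset.mul_sum] at hs
  -- sums over the ends
  have hlast : ∀ n < N, ∀ w, (n + C.sg N n w - 1 + 1 = n + C.sg N n w) ∧ 0 < C.sg N n w ∧ n + C.sg N n w ≤ N :=
    fun n hn w => by
      have h1 := C.sg_pos N n w
      have h2 := C.sg_le N hn w
      exact ⟨by omega, h1, h2⟩
  have hG : ∀ n < N, ∀ w, Gw C N g n (C.sg N n w) w =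
      ind (C.Rl (n + C.sg N n w - 1) w ∧ True) * g (n + C.sg N n w - 1) w := by
    intro n hn w
    obtain ⟨_, h1, h2⟩ := hlast n hn w
    unfold Gw
    rw [if_pos ⟨h1, h2⟩]
    congr 2
    exact propext ⟨fun hh => ⟨hh, trivial⟩, fun hh => hh.1⟩
  have c1 : ∑ n ∈ range N, tb.Ps.E (fun w => ind (C.nu n w = n) *
        (ind (C.Vs n w ∧ ¬ scn tb C N u n w) * Gw C N g n (C.sg N n w) w)) =
      ∑ q ∈ range N, tb.Ps.E (fun w => ind (C.Rl q w ∧ C.Vs (C.nu q w) w ∧ ¬ scq tb C u q w) * g q w) := by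
    have e := sum_ends tb C N (fun n e w => ind (C.Rl (e - 1) w ∧ (C.Vs n w ∧ ¬ scq tb C u (e - 1) w)) * g (e - 1) w)
    simp only [Nat.add_sub_cancel] at e
    refine Eq.trans (Finset.sum_congr rfl fun n hn => FP.E_congr _ fun w _ => ?_) (e.trans
      (Finset.sum_congr rfl fun q _ => FP.E_congr _ fun w _ => Rl_abs C N w _ _))
    have hn' := Finset.mem_range.1 hn
    by_cases hs : C.nu n w = n
    · rw [ind_of hs, one_mul, one_mul, hG n hn' w, ← mul_assoc, ← ind_and, scn_scq tb C N hn' hs]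
      congr 2
      exact propext ⟨fun hh => ⟨hh.2.1, hh.1⟩, fun hh => ⟨hh.2, hh.1, trivial⟩⟩
    · rw [ind_not hs, zero_mul, zero_mul]
  have c2 : ∑ n ∈ range N, tb.Ps.E (fun w => ind (C.nu n w = n) *
        (ind (C.Rl (n + C.sg N n w - 1) w ∧ (C.Vs n w ∧ scn tb C N u n w)) * F n w)) =
      ∑ q ∈ range N, tb.Ps.E (fun w => ind (C.Rl q w ∧ C.Vs (C.nu q w) w ∧ scq tb C u q w) * F (C.nu q w) w) := by
    have e := sum_ends tb C N (fun n e w => ind (C.Rl (e - 1) w ∧ (C.Vs n w ∧ scq tb C u (e - 1) w)) * F n w)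
    simp only [Nat.add_sub_cancel] at e
    refine Eq.trans (Finset.sum_congr rfl fun n hn => FP.E_congr _ fun w _ => ?_) (e.trans
      (Finset.sum_congr rfl fun q _ => FP.E_congr _ fun w _ => Rl_abs C N w _ _))
    have hn' := Finset.mem_range.1 hn
    by_cases hs : C.nu n w = n
    · rw [scn_scq tb C N hn' hs]
    · rw [ind_not hs, zero_mul, zero_mul]
  have c3 : ∑ n ∈ range N, tb.Ps.E (fun w => ind (C.nu n w = n) * Gw C N g n (C.sg N n w) w) =
      ∑ q ∈ range N, tb.Ps.E (fun w => ind (C.Rl q w) * g q w) := by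
    have e := sum_ends tb C N (fun n e w => ind (C.Rl (e - 1) w ∧ True) * g (e - 1) w)
    simp only [Nat.add_sub_cancel] at e
    refine Eq.trans (Finset.sum_congr rfl fun n hn => FP.E_congr _ fun w _ => ?_) (e.trans
      (Finset.sum_congr rfl fun q _ => FP.E_congr _ fun w _ => (Rl_abs C N w _ _).trans (by simp only [and_true])))
    rw [hG n (Finset.mem_range.1 hn) w]
  have c4 : ∑ n ∈ range N, tb.Ps.E (fun w => ind (C.nu n w = n) * ind (C.Vs n w ∧ C.Rl (n + C.sg N n w - 1) w)) =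
      ∑ q ∈ range N, tb.Ps.Pr (fun w => C.Rl q w ∧ C.Vs (C.nu q w) w) := by
    have e := sum_ends tb C N (fun n e w => ind (C.Rl (e - 1) w ∧ C.Vs n w) * 1)
    simp only [Nat.add_sub_cancel] at e
    refine Eq.trans (Finset.sum_congr rfl fun n hn => FP.E_congr _ fun w _ => ?_) (e.trans
      (Finset.sum_congr rfl fun q _ => FP.E_congr _ fun w _ => (Rl_abs C N w _ _).trans (mul_one _)))
    rw [mul_one]
    congr 2
    exact propext and_comm
  have c5 : ∑ n ∈ range N, tb.Ps.E (fun w => ind (C.nu n w = n) * ind (¬ C.Rl (n + C.sg N n w - 1) w ∧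
          y0 < dn tb C n (n + C.sg N n w) w)) =
      ∑ q ∈ range N, tb.Ps.Pr (fun w => (C.nu (q + 1) w = q + 1 ∨ q + 1 = N) ∧ ¬ C.Rl q w ∧
          y0 < dn tb C (C.nu q w) (q + 1) w) := by
    have e := sum_ends tb C N (fun n e w => ind (¬ C.Rl (e - 1) w ∧ y0 < dn tb C n e w))
    simp only [Nat.add_sub_cancel] at e
    refine e.trans (Finset.sum_congr rfl fun q _ => FP.E_congr _ fun w _ => ?_)
    rw [← ind_and]
  rw [c1, c2, c3, c4, c5] at hs
  exact hs

end

end Pool.Agent.GMH.One
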