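import Pool.Agent.GMH.MovB
import Pool.Agent.GMH.TabP2
import Pool.Agent.GMH.InP
import Pool.Agent.GMH.TopDef

/-!
# GMH/One2a (helper2): samples and clocks for OneOK (H3.MOV, M.7 (a))

The space with label tables; `Clk` = a public clock `nu` (seen by the hidden point and the cells), `Rl q` light public value in
the code step `q` (it ends the epoch), `Vs n` the status of the vertex `i` at the start `n` (seen at the exact `i`).
* `SL n b` : law of one sampled point (tables, point in the cell of `b`); `Wl_SL` : it is the law in a world; `sub r w` : the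
  sampled point in the place of the vertex `i`; `smp_E` : means over samples of values;
* `sg n` : length of the epoch of the start `n`; `sum_en` : sums over the starts are sums over the ends.
-/

set_option autoImplicit false
set_option linter.unusedSectionVars false

namespace Pool.Agent.GMH.One

open Finset Pool.Agent.PWZ Pool.Agent.M3 Pool.Agent.GM Pool.Agent.GM.Harm Pool.Agent.GMH Pool.Agent.GMH.Dy
open Pool.Agent.GMH.Gdy Pool.Agent.GMH.CR Pool.Agent.GMH.MovU

noncomputable section

variable {X β γ φ : Type} [Fintype X] [Fintype β] [Fintype φ] [Nonempty X] [Nonempty β]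
variable {D : HD (Fin 3) X β γ φ} {al : ℝ} {prr : ℕ → Fin 3 → φ → φ} {T : ℕ} {W : Type} [Fintype W]
variable (tb : Tab D prr T W) (i : Fin 3)

/-! ## sampled points -/

/-- law of one sampled point: tables, point in the cell of `b` -/
def SL (n : ℕ) (b : β) : FP ((Fin 3 → W) × β) :=
  FP.pr (FPpi tb.Q) ((FP.unif β).cond fun b' => D.qb n b' = D.qb n b)

/-- the sampled point in the place of the vertex `i` -/
def sub (r : (Fin 3 → W) × β) (w : Om W X β) : Om W X β :=
  (w.1, fun j => if j = i then w.2.1 j else r.1 j, fun j => if j = i then r.2 else w.2.2 j)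

theorem cell_ne (n : ℕ) (b : β) : (FP.unif β).Pr (fun b' => D.qb n b' = D.qb n b) ≠ 0 := by
  have h1 : (FP.unif β).p b ≠ 0 := by
    show ((Fintype.card β : ℝ))⁻¹ ≠ 0
    exact inv_ne_zero (by exact_mod_cast Fintype.card_ne_zero)
  exact (FP.Pr_pos_of (P := FP.unif β) (S := fun b' => D.qb n b' = D.qb n b) h1 rfl).ne'

theorem cell_E (n : ℕ) (b : β) (f : β → ℝ) : ((FP.unif β).cond fun b' => D.qb n b' = D.qb n b).E f =
    (∑ b' ∈ D.cB n b, f b') / ((D.cB n b).card : ℝ) := by
  have hB : (Fintype.card β : ℝ) ≠ 0 := by exact_mod_cast Fintype.card_ne_zero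
  rw [FP.cond_E (cell_ne n b)]
  unfold FP.Pr
  rw [FP.unif_E, FP.unif_E, sum_ind_cB n b f]
  have h2 := sum_ind_cB (D := D) n b (fun _ => (1 : ℝ))
  simp only [mul_one] at h2
  rw [h2, Finset.sum_const, nsmul_eq_mul, mul_one]
  have h3 := (cB_pos (D := D) n b).ne'
  field_simp

/-- **the law of the tables and of the point of the vertex in a world** -/
theorem Wl_SL (n : ℕ) (z : Om W X β) (f : (Fin 3 → W) × β → ℝ) :
    (tb.Wl n z).E (fun w => f (w.2.1, w.2.2 i)) = (SL tb n (z.2.2 i)).E f := by
  have h1 : (tb.Wl n z).E (fun w => f (w.2.1, w.2.2 i)) =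
      (tb.Wl n z).E (fun w => (FPpi tb.Q).E fun ω => f (ω, w.2.2 i)) := by
    unfold Tab.Wl
    rw [FP.cond_E (Wl_ne tb n z), FP.cond_E (Wl_ne tb n z)]
    congr 1
    rw [Ps_E', Ps_E']
    refine FP.E_congr _ fun q _ => ?_
    have e : ∀ ω : Fin 3 → W, ind (cll D n ((q.1, ω, q.2) : Om W X β) = cll D n z) =
        ind (cll D n ((q.1, z.2.1, q.2) : Om W X β) = cll D n z) := fun ω => rfl
    simp only [e]
    rw [FP.E_smul, FP.E_smul, FP.E_const]
  rw [h1, Wl_pt tb n z i (fun b => (FPpi tb.Q).E fun ω => f (ω, b))]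
  unfold SL
  rw [FP.pr_E, FP.E_swap, cell_E]

/-- means over a sample of values of a map -/
theorem smp_E {Om α R : Type*} [Fintype Om] [Fintype α] [Fintype R] (P : FP Om) (S : FP R) (U : Om → α) (em : R → α)
    (hU : ∀ g : α → ℝ, P.E (fun w => g (U w)) = S.E fun r => g (em r)) (M : ℕ) (f : (Fin M → α) → ℝ) :
    ∑ x : Fin M → α, sw (fun a => P.Pr (fun w => U w = a)) x * f x =
      (FPpi fun _ : Fin M => S).E fun ρ => f fun k => em (ρ k) := by
  classical
  set Lw : FP α := ⟨fun a => P.Pr (fun w => U w = a), fun a => P.Pr_nonneg _, sum_law U⟩ with hLw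
  have hE : ∀ g : α → ℝ, Lw.E g = P.E (fun w => g (U w)) := by
    intro g
    have e1 : ∀ w, g (U w) = ∑ a, ind (U w = a) * g a := by
      intro w
      rw [Finset.sum_eq_single (U w) (fun a _ ha => by rw [ind_not (fun hh => ha hh.symm), zero_mul])
        (fun hh => absurd (mem_univ _) hh), ind_of rfl, one_mul]
    rw [P.E_congr fun w _ => e1 w, FP.E_sum]
    show ∑ a, P.Pr (fun w => U w = a) * g a = _
    refine Finset.sum_congr rfl fun a _ => ?_
    unfold FP.Pr
    rw [FP.E_mul_const]
  have h1 := FPpi_map1 (fun _ : Fin M => S) (fun _ : Fin M => Lw) (fun _ => em) (fun _ g => by rw [hE, hU]) f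
  rw [h1]
  rfl

/-! ## clocks -/

variable (D W) in
/-- public clock, light public values, status of the vertex `i` -/
structure Clk where
  nu : ℕ → Om W X β → ℕ
  Rl : ℕ → Om W X β → Prop
  Vs : ℕ → Om W X β → Prop
  nu0 : ∀ w, nu 0 w = 0
  nuS : ∀ s w, nu (s + 1) w = s + 1 ∨ nu (s + 1) w = nu s w
  nuF : ∀ s, Fac (sgt D ∅ (TP.nn s)) (nu s)
  RlF : ∀ s, Fac (sgt D ∅ (TP.nn (s + 1))) (Rl s)
  RlE : ∀ s w, Rl s w → nu (s + 1) w = s + 1
  VsF : ∀ s, Fac (sgt D {i} (TP.nn s)) (Vs s)

variable {i} (C : Clk D W i) (N : ℕ)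

namespace Clk

theorem nu_le (s : ℕ) (w : Om W X β) : C.nu s w ≤ s := by
  induction s with
  | zero => rw [C.nu0]
  | succ s ih =>
    rcases C.nuS s w with h | h
    · rw [h]
    · rw [h]
      omega

theorem nu_idem (s : ℕ) (w : Om W X β) : C.nu (C.nu s w) w = C.nu s w := by
  induction s with
  | zero => rw [C.nu0, C.nu0]
  | succ s ih =>
    rcases C.nuS s w with h | h
    · rw [h, h]
    · rw [h, ih]

theorem nu_mono {s s' : ℕ} (h : s ≤ s') (w : Om W X β) : C.nu s w ≤ C.nu s' w := by
  induction s', h using Nat.le_induction with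
  | base => exact le_rfl
  | succ k hk ih =>
    rcases C.nuS k w with h | h
    · rw [h]
      exact (C.nu_le s w).trans (by omega)
    · rw [h]
      exact ih

theorem nu_mid {k n j : ℕ} {w : Om W X β} (h : C.nu k w = n) (h1 : n ≤ j) (h2 : j ≤ k) : C.nu j w = n := by
  induction k with
  | zero =>
    obtain rfl : j = 0 := by omega
    exact h
  | succ k ih =>
    rcases Nat.eq_or_lt_of_le h2 with h3 | h3
    · rw [h3]
      exact h
    · rcases C.nuS k w with h4 | h4
      · omega
      · exact ih (by rw [← h4]; exact h) (by omega)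

/-- the next end, or the horizon -/
def pe (n s : ℕ) (w : Om W X β) : Prop := 0 < s ∧ (C.nu (n + s) w = n + s ∨ N ≤ n + s)

theorem pe_ex (n : ℕ) (w : Om W X β) : ∃ s, C.pe N n s w := ⟨N + 1, by omega, Or.inr (by omega)⟩

open Classical in
/-- length of the epoch of the start `n` -/
def sg (n : ℕ) (w : Om W X β) : ℕ := Nat.find (C.pe_ex N n w)

theorem sg_spec (n : ℕ) (w : Om W X β) : C.pe N n (C.sg N n w) w := by
  classical
  exact Nat.find_spec (C.pe_ex N n w)

theorem sg_min {n s : ℕ} {w : Om W X β} (h : s < C.sg N n w) : ¬ C.pe N n s w := by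
  classical
  exact Nat.find_min (C.pe_ex N n w) h

theorem sg_le' {n s : ℕ} {w : Om W X β} (h : C.pe N n s w) : C.sg N n w ≤ s := by
  classical
  exact Nat.find_min' (C.pe_ex N n w) h

theorem sg_pos (n : ℕ) (w : Om W X β) : 0 < C.sg N n w := (C.sg_spec N n w).1

theorem sg_le {n : ℕ} (hn : n < N) (w : Om W X β) : n + C.sg N n w ≤ N := by
  have h := C.sg_le' N (n := n) (s := N - n) (w := w) ⟨by omega, Or.inr (by omega)⟩
  omega

/-- inside the epoch -/
theorem nu_in {n s : ℕ} {w : Om W X β} (h0 : C.nu n w = n) (hs : s < C.sg N n w) : C.nu (n + s) w = n := by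
  induction s with
  | zero => exact h0
  | succ s ih =>
    rcases C.nuS (n + s) w with h | h
    · exact absurd ⟨Nat.succ_pos s, Or.inl h⟩ (C.sg_min N hs)
    · show C.nu (n + s + 1) w = n
      rw [h]
      exact ih (by omega)

/-- a start and its last state -/
theorem pair_iff {n q : ℕ} (hn : n < N) (hq : q < N) (w : Om W X β) :
    (C.nu n w = n ∧ n + C.sg N n w = q + 1) ↔ (C.nu q w = n ∧ (C.nu (q + 1) w = q + 1 ∨ q + 1 = N)) := by
  constructor
  · rintro ⟨h1, h2⟩
    have h3 := C.sg_pos N n w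
    have h4 := C.nu_in N (s := C.sg N n w - 1) h1 (by omega)
    have h5 := C.sg_spec N n w
    refine ⟨?_, ?_⟩
    · rw [← h4]
      congr 1
      omega
    · rcases h5.2 with h6 | h6
      · left
        rw [h2] at h6
        exact h6
      · right
        have := C.sg_le N hn w
        omega
  · rintro ⟨h1, h2⟩
    have h3 : n ≤ q := by rw [← h1]; exact C.nu_le q w
    have h4 : C.nu n w = n := by
      have := C.nu_idem q w
      rw [h1] at this
      exact this
    refine ⟨h4, ?_⟩
    have h5 : C.sg N n w ≤ q + 1 - n := C.sg_le' N ⟨by omega, by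
      have e : n + (q + 1 - n) = q + 1 := by omega
      rw [e]
      rcases h2 with h2 | h2
      · exact Or.inl h2
      · exact Or.inr (by omega)⟩
    by_contra hne
    have h6 : n + C.sg N n w ≤ q := by omega
    rcases (C.sg_spec N n w).2 with h7 | h7
    · have h8 := C.nu_mid h1 (j := n + C.sg N n w) (by omega) h6
      have h9 := C.sg_pos N n w
      omega
    · omega

/-- **sums over the starts are sums over the ends** -/
theorem sum_en (f : ℕ → ℕ → ℝ) (w : Om W X β) :
    ∑ n ∈ range N, ind (C.nu n w = n) * f n (n + C.sg N n w) =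
      ∑ q ∈ range N, ind (C.nu (q + 1) w = q + 1 ∨ q + 1 = N) * f (C.nu q w) (q + 1) := by
  have h1 : ∀ n ∈ range N, ind (C.nu n w = n) * f n (n + C.sg N n w) =
      ∑ q ∈ range N, ind (C.nu n w = n ∧ n + C.sg N n w = q + 1) * f n (q + 1) := by
    intro n hn
    have hn' := Finset.mem_range.1 hn
    have h2 := C.sg_le N hn' w
    have h3 := C.sg_pos N n w
    rw [Finset.sum_eq_single (n + C.sg N n w - 1)]
    · have e : n + C.sg N n w - 1 + 1 = n + C.sg N n w := by omega
      rw [e]
      congr 2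
      exact propext ⟨fun hh => ⟨hh, rfl⟩, fun hh => hh.1⟩
    · intro q _ hq
      rw [ind_not (fun hh => hq (by omega)), zero_mul]
    · intro hh
      exact absurd (Finset.mem_range.2 (by omega)) hh
  have h2 : ∀ q ∈ range N, ind (C.nu (q + 1) w = q + 1 ∨ q + 1 = N) * f (C.nu q w) (q + 1) =
      ∑ n ∈ range N, ind (C.nu q w = n ∧ (C.nu (q + 1) w = q + 1 ∨ q + 1 = N)) * f n (q + 1) := by
    intro q hq
    have hq' := Finset.mem_range.1 hq
    have h3 := C.nu_le q w
    rw [Finset.sum_eq_single (C.nu q w)]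
    · congr 2
      exact propext ⟨fun hh => ⟨rfl, hh⟩, fun hh => hh.2⟩
    · intro n _ hn
      rw [ind_not (fun hh => hn hh.1.symm), zero_mul]
    · intro hh
      exact absurd (Finset.mem_range.2 (by omega)) hh
  rw [Finset.sum_congr rfl h1, Finset.sum_congr rfl h2, Finset.sum_comm]
  refine Finset.sum_congr rfl fun q hq => Finset.sum_congr rfl fun n hn => ?_
  congr 2
  exact propext (C.pair_iff N (Finset.mem_range.1 hn) (Finset.mem_range.1 hq) w)

end Clk

end

end Pool.Agent.GMH.One
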