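import Pool.Agent.GMH.RowC
import Pool.Agent.GMH.Tab

/-!
# GMH/PayC: cost of the hints (helper52)

`Q` = law on `Pt × Th` (coins), e.g. `(FP.pr (D.P h t) R).cond E`; hints `G J`; `csum` = the sum of the costs.

* `cost_card` : logarithm of the number of values in the fibres of (hints below, labels, points, node);
* `cost_const`, `cost_pair`, `cost_fam`, `cost_fac` : constant hints, pairs, finite families, functions of other hints;
* `at1 J1 g` : a hint which lives at the index set `J1`; `csum_at1`, `csum_names` : a hint with values in a finite list;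
* `rows_cost` : letters of the label `l` of positive probability at `m` hardwired points of the vertex `c` : at most
  `m log (1 / al)`; `rowsN_cost` : the points are selected by names out of a list of `M` : at most `m log (M / al)`;
* `Tab.supp` : letters read in a table have positive probability.
-/

set_option autoImplicit false
set_option linter.unusedSectionVars false

namespace Pool.Agent.GMH.PayC

open Finset Pool.Agent.PWZ Pool.Agent.M3 Pool.Agent.GM Pool.Agent.GM.Harm Pool.Agent.GMH

/-! ## abstract -/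

section abs

variable {Om K : Type*} {υ ν μ : Type*} {β : Finset K → Type*} [Fintype Om] {P : FP Om} {B : (J : Finset K) → Om → β J}
  {N : Finset K → ℝ} {S : Finset (Finset K)} {L : Finset K → Om → υ} {J : Finset K}

/-- cost of a hint by counting its values in the fibres -/
theorem cost_card {G : Finset K → Om → ν} {M : ℝ}
    (hM : ∀ w, P.p w ≠ 0 → ∃ s : Finset ν, (s.card : ℝ) ≤ M ∧ ∀ v, P.p v ≠ 0 → lo G J v = lo G J w →
      le L J v = le L J w → B J v = B J w → G J v ∈ s) :
    cost P B L G J ≤ Real.log M := by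
  unfold cost
  refine Hc_le_card P _ _ fun w hw => ?_
  obtain ⟨s, hs, hs2⟩ := hM w hw
  exact ⟨s, hs, fun v hv hvw => hs2 v hv (congrArg (fun p => p.1) hvw) (congrArg (fun p => p.2.1) hvw)
    (congrArg (fun p => p.2.2) hvw)⟩

/-- a pair of hints -/
theorem cost_pair {G : Finset K → Om → ν} {H : Finset K → Om → μ} :
    cost P B L (pr G H) J ≤ cost P B L G J + cost P B L H J := by
  unfold cost
  have h1 : P.Hc (pr G H J) (fun w => (lo (pr G H) J w, le L J w, B J w)) =
      P.Hc (H J) (fun w => (lo (pr G H) J w, le L J w, B J w)) +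
        P.Hc (G J) (fun w => (H J w, lo (pr G H) J w, le L J w, B J w)) :=
    P.Hc_chain (G J) (H J) _
  rw [h1, add_comm]
  refine add_le_add (P.Hc_anti _ fun v w hvw => ?_) (P.Hc_anti _ fun v w hvw => ?_)
  · simp only [Prod.mk.injEq, lo_pr_eq] at hvw ⊢
    tauto
  · simp only [Prod.mk.injEq, lo_pr_eq] at hvw ⊢
    tauto

/-- a finite family of hints -/
theorem cost_fam {I : Type*} [Fintype I] {G : I → Finset K → Om → ν} :
    cost P B L (fun J w i => G i J w) J ≤ ∑ i, cost P B L (G i) J := by
  classical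
  unfold cost
  set Z := fun w => (lo (fun J w i => G i J w) J w, le L J w, B J w) with hZ
  have h1 : P.Hc (fun w i => G i J w) Z ≤ P.Hc (fun w => fun i : (univ : Finset I) => G i J w) Z := by
    refine P.Hc_mono Z fun v w hvw => ?_
    funext i
    exact congrFun (Prod.mk.inj hvw).1 ⟨i, mem_univ i⟩
  refine h1.trans ((P.Hc_fam_le univ (X := fun i w => G i J w) Z).trans ?_)
  refine Finset.sum_le_sum fun i _ => P.Hc_anti _ fun v w hvw => ?_
  have h2 := Prod.mk.inj hvw
  refine Prod.ext (lo_eq.2 fun I hI => ?_) h2.2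
  exact congrFun (lo_eq.1 h2.1 I hI) i

/-- a hint which sees another hint of the same index set, and is seen by it -/
theorem cost_fac {G : Finset K → Om → ν} {H : Finset K → Om → μ} (h1 : ∀ J, Fac (G J) (H J)) (h2 : ∀ J, Fac (H J) (G J)) :
    cost P B L G J = cost P B L H J := cost_congr h1 h2

variable (P B N S L) in
/-- the sum of the costs -/
noncomputable def csum (G : Finset K → Om → ν) : ℝ := ∑ J ∈ S, N J * cost P B L G J

theorem csum_nonneg (hN : ∀ J ∈ S, 0 ≤ N J) (G : Finset K → Om → ν) : 0 ≤ csum P B N S L G :=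
  Finset.sum_nonneg fun J hJ => mul_nonneg (hN J hJ) cost_nonneg

theorem csum_pair (hN : ∀ J ∈ S, 0 ≤ N J) {G : Finset K → Om → ν} {H : Finset K → Om → μ} :
    csum P B N S L (pr G H) ≤ csum P B N S L G + csum P B N S L H := by
  unfold csum
  rw [← Finset.sum_add_distrib]
  refine Finset.sum_le_sum fun J hJ => ?_
  rw [← mul_add]
  exact mul_le_mul_of_nonneg_left cost_pair (hN J hJ)

theorem csum_fam (hN : ∀ J ∈ S, 0 ≤ N J) {I : Type*} [Fintype I] {G : I → Finset K → Om → ν} :
    csum P B N S L (fun J w i => G i J w) ≤ ∑ i, csum P B N S L (G i) := by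
  unfold csum
  rw [Finset.sum_comm]
  refine Finset.sum_le_sum fun J hJ => ?_
  rw [← Finset.mul_sum]
  exact mul_le_mul_of_nonneg_left cost_fam (hN J hJ)

theorem csum_congr {G : Finset K → Om → ν} {H : Finset K → Om → μ} (h1 : ∀ J, Fac (G J) (H J)) (h2 : ∀ J, Fac (H J) (G J)) :
    csum P B N S L G = csum P B N S L H := by
  unfold csum
  exact Finset.sum_congr rfl fun J _ => by rw [cost_congr h1 h2]

theorem csum_const {G : Finset K → Om → ν} (h : ∀ J v w, G J v = G J w) : csum P B N S L G = 0 := by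
  unfold csum
  exact Finset.sum_eq_zero fun J _ => by rw [cost_const (h J), mul_zero]

open Classical in
/-- a hint at the index set `J1` -/
noncomputable def at1 (J1 : Finset K) (g : Om → ν) (J : Finset K) (w : Om) : Option ν := if J = J1 then some (g w) else none

theorem at1_eq (J1 : Finset K) (g : Om → ν) (w : Om) : at1 J1 g J1 w = some (g w) := if_pos rfl

theorem at1_ne {J1 : Finset K} (g : Om → ν) (hJ : J ≠ J1) (w : Om) : at1 J1 g J w = none := if_neg hJ

theorem at1_on {K0 J1 : Finset K} (hK : K0 ⊆ J1) (g : Om → ν) : On K0 (at1 J1 g) := by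
  intro J hJ v w
  have h1 : J ≠ J1 := fun hh => hJ (hh ▸ hK)
  rw [at1_ne g h1, at1_ne g h1]

/-- what is seen of a hint at `J1` below `J` -/
theorem lo_at1 {J1 : Finset K} (hJ : J1 ⊂ J) (g : Om → ν) {v w : Om} :
    lo (at1 J1 g) J v = lo (at1 J1 g) J w ↔ g v = g w := by
  rw [lo_eq]
  constructor
  · intro h
    have h1 := h J1 hJ
    rw [at1_eq, at1_eq] at h1
    exact Option.some.inj h1
  · intro h I _
    by_cases hI : I = J1
    · rw [hI, at1_eq, at1_eq, h]
    · rw [at1_ne g hI, at1_ne g hI]

/-- the value of the hint -/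
theorem lo_at1_val {J1 : Finset K} (hJ : J1 ⊂ J) (g : Om → ν) (w : Om) : lo (at1 J1 g) J w J1 = some (some (g w)) := by
  unfold lo
  rw [if_pos hJ, at1_eq]

/-- a hint at one index set costs its entropy there -/
theorem csum_at1 {J1 : Finset K} (hN1 : 0 ≤ N J1) {g : Om → ν} {C : ℝ} (hC0 : 0 ≤ C)
    (hC : P.Hc g (fun w => (le L J1 w, B J1 w)) ≤ C) : csum P B N S L (at1 J1 g) ≤ N J1 * C := by
  classical
  unfold csum
  have h1 : ∀ J ∈ S, N J * cost P B L (at1 J1 g) J ≤ if J = J1 then N J1 * C else 0 := by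
    intro J _
    by_cases hJ : J = J1
    · rw [if_pos hJ, hJ]
      refine mul_le_mul_of_nonneg_left (le_trans ?_ hC) hN1
      unfold cost
      refine (P.Hc_mono _ (X := g) fun v w hvw => ?_).trans (P.Hc_anti g (Fac.snd _ _))
      rw [at1_eq, at1_eq, (Prod.mk.inj hvw).1]
    · rw [if_neg hJ, cost_const, mul_zero]
      intro v w
      rw [at1_ne g hJ, at1_ne g hJ]
  refine (Finset.sum_le_sum h1).trans ?_
  rw [Finset.sum_ite_eq' S J1]
  split_ifs
  · exact le_rfl
  · exact mul_nonneg hN1 hC0

/-- **names** : a hint at `J1` with values in a list of `M` elements, in every fibre of the labels, the points and the node -/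
theorem csum_names {J1 : Finset K} (hN1 : 0 ≤ N J1) {g : Om → ν} {M : ℝ} (hM1 : 1 ≤ M)
    (hM : ∀ w, P.p w ≠ 0 → ∃ s : Finset ν, (s.card : ℝ) ≤ M ∧ ∀ v, P.p v ≠ 0 →
      le L J1 v = le L J1 w → B J1 v = B J1 w → g v ∈ s) : csum P B N S L (at1 J1 g) ≤ N J1 * Real.log M := by
  refine csum_at1 hN1 (Real.log_nonneg hM1) (Hc_le_card P _ _ fun w hw => ?_)
  obtain ⟨s, hs, hs2⟩ := hM w hw
  exact ⟨s, hs, fun v hv hvw => hs2 v hv (Prod.mk.inj hvw).1 (Prod.mk.inj hvw).2⟩

end abs

/-! ## letters at hardwired points -/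

section rows

variable {K X β γ φ υ : Type} [Fintype K] [DecidableEq K] [Fintype X] [Fintype β] [Fintype φ] [Nonempty X] [Nonempty β]
  {D : HD K X β γ φ} {al : ℝ} (h : D.Thick al) {N : Finset K → ℝ} {S : Finset (Finset K)} {Th : Type*} [Fintype Th]
  {Q : FP (Pt K X β φ × Th)} {U : Finset K → X → (K → β) → υ} {t : ℕ}

/-- a letter of positive probability at a hardwired point is one of the `1 / al` letters of the fibre -/
theorem ltr_mem (h : D.Thick al) {t0 : ℕ} (ht : t0 ≤ t) {l c : K} (b : β) {v w : Pt K X β φ}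
    (hvw : BB D t ((univ.erase l).erase c) v = BB D t ((univ.erase l).erase c) w) {F : φ}
    (hF : D.kf t0 l v.1 (Function.update v.2.1 c b) F ≠ 0) :
    F ∈ lts D t0 al l w.1 (Function.update w.2.1 c b) := by
  classical
  have h1 := row_pts (D := D) ht b hvw
  rw [D.dep t0 l v.1 _ (Function.update w.2.1 c b) h1.1 (h1.2 l)] at hF
  unfold lts
  exact Finset.mem_filter.2 ⟨mem_univ _, h.thick t0 l v.1 w.1 _ _ (qa_mono D ht (BB_eq.1 hvw).2.1) hF⟩

theorem log_al_nonneg (h : D.Thick al) (l : K) : 0 ≤ Real.log (1 / al) := Real.log_nonneg (one_le_al h l)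

/-- **own letters at hardwired points** : `m` letters of the label `l` at the points `r i` of the vertex `c`, each of positive
probability for the hidden point and the other points -/
theorem rows_cost (h : D.Thick al) {t0 : ℕ} (ht : t0 ≤ t) {l c : K} {m : ℕ} (r : Fin m → β)
    (hN1 : 0 ≤ N ((univ.erase l).erase c)) {g : Pt K X β φ × Th → Fin m → φ}
    (hg : ∀ w, Q.p w ≠ 0 → ∀ i, D.kf t0 l w.1.1 (Function.update w.1.2.1 c (r i)) (g w i) ≠ 0) :
    csum Q (fun I w => BB D t I w.1) N S (fun I w => LL U I w.1) (at1 ((univ.erase l).erase c) g) ≤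
      N ((univ.erase l).erase c) * (m * Real.log (1 / al)) := by
  classical
  have h1 : (m : ℝ) * Real.log (1 / al) = Real.log ((1 / al) ^ m) := by rw [Real.log_pow]
  rw [h1]
  refine csum_names hN1 (one_le_pow₀ (one_le_al h l)) fun w _ => ?_
  refine ⟨Fintype.piFinset fun i => lts D t0 al l w.1.1 (Function.update w.1.2.1 c (r i)), ?_, fun v hv _ hvw => ?_⟩
  · rw [Fintype.card_piFinset]
    push_cast
    calc ∏ i : Fin m, ((lts D t0 al l w.1.1 (Function.update w.1.2.1 c (r i))).card : ℝ) ≤ ∏ _i : Fin m, (1 / al) :=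
          Finset.prod_le_prod (fun i _ => Nat.cast_nonneg _) fun i _ => lts_card h t0 l _ _
      _ = (1 / al) ^ m := by rw [Finset.prod_const, Finset.card_univ, Fintype.card_fin]
  · rw [Fintype.mem_piFinset]
    exact fun i => ltr_mem h ht (r i) hvw (hg v hv i)

/-- **own letters at selected hardwired points** : at most `m` names `s w i` out of a list of `M` points `r`, the hint = the names
and the letters (`none` = no name) -/
theorem rowsN_cost (h : D.Thick al) {t0 : ℕ} (ht : t0 ≤ t) {l c : K} {m M : ℕ} (r : Fin M → β)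
    (hN1 : 0 ≤ N ((univ.erase l).erase c)) {s : Pt K X β φ × Th → Fin m → Option (Fin M)}
    {g : Pt K X β φ × Th → Fin m → φ}
    (hg : ∀ w, Q.p w ≠ 0 → ∀ i j, s w i = some j → D.kf t0 l w.1.1 (Function.update w.1.2.1 c (r j)) (g w i) ≠ 0) :
    csum Q (fun I w => BB D t I w.1) N S (fun I w => LL U I w.1)
        (at1 ((univ.erase l).erase c) fun w i => (s w i).map fun j => (j, g w i)) ≤
      N ((univ.erase l).erase c) * (m * Real.log (1 + M / al)) := by
  classical
  have hal := one_le_al h l
  have hM0 : (0 : ℝ) ≤ M / al := div_nonneg (Nat.cast_nonneg _) h.pos.le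
  have h1 : (m : ℝ) * Real.log (1 + M / al) = Real.log ((1 + M / al) ^ m) := by rw [Real.log_pow]
  rw [h1]
  refine csum_names hN1 (one_le_pow₀ (by linarith)) fun w _ => ?_
  set A : Finset (Option (Fin M × φ)) := insert none ((univ.biUnion fun j : Fin M =>
    (lts D t0 al l w.1.1 (Function.update w.1.2.1 c (r j))).image fun F => (j, F)).image some) with hA
  have hAc : (A.card : ℝ) ≤ 1 + M / al := by
    have e1 : (A.card : ℝ) ≤ (((univ.biUnion fun j : Fin M =>
        (lts D t0 al l w.1.1 (Function.update w.1.2.1 c (r j))).image fun F => (j, F)).image some).card : ℝ) + 1 := by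
      exact_mod_cast Finset.card_insert_le _ _
    have e2 : (((univ.biUnion fun j : Fin M =>
        (lts D t0 al l w.1.1 (Function.update w.1.2.1 c (r j))).image fun F => (j, F)).image some).card : ℝ) ≤
        ∑ j : Fin M, (((lts D t0 al l w.1.1 (Function.update w.1.2.1 c (r j))).image fun F => (j, F)).card : ℝ) := by
      exact_mod_cast Finset.card_image_le.trans Finset.card_biUnion_le
    have e3 : ∑ j : Fin M, (((lts D t0 al l w.1.1 (Function.update w.1.2.1 c (r j))).image fun F => (j, F)).card : ℝ) ≤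
        ∑ _j : Fin M, 1 / al := by
      refine Finset.sum_le_sum fun j _ => le_trans ?_ (lts_card h t0 l w.1.1 (Function.update w.1.2.1 c (r j)))
      exact_mod_cast Finset.card_image_le
    have e4 : ∑ _j : Fin M, 1 / al = M / al := by
      rw [Finset.sum_const, Finset.card_univ, Fintype.card_fin, nsmul_eq_mul, mul_one_div]
    linarith
  refine ⟨Fintype.piFinset fun _ => A, ?_, fun v hv _ hvw => ?_⟩
  · rw [Fintype.card_piFinset]
    push_cast
    calc ∏ _i : Fin m, (A.card : ℝ) ≤ ∏ _i : Fin m, (1 + M / al) :=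
          Finset.prod_le_prod (fun i _ => Nat.cast_nonneg _) fun i _ => hAc
      _ = (1 + M / al) ^ m := by rw [Finset.prod_const, Finset.card_univ, Fintype.card_fin]
  · rw [Fintype.mem_piFinset]
    intro i
    rcases hsi : s v i with _ | j
    · exact Finset.mem_insert_self _ _
    · refine Finset.mem_insert_of_mem (Finset.mem_image.2 ⟨(j, g v i), Finset.mem_biUnion.2 ⟨j, mem_univ j,
        Finset.mem_image.2 ⟨g v i, ?_, rfl⟩⟩, rfl⟩)
      exact ltr_mem h ht (r j) hvw (hg v hv i j hsi)

end rows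

end Pool.Agent.GMH.PayC

namespace Pool.Agent.GMH.Dy

open Finset Pool.Agent.PWZ Pool.Agent.M3 Pool.Agent.GM Pool.Agent.GM.Harm Pool.Agent.GMH

/-- letters read in a table have positive probability -/
theorem Tab.supp {X β γ φ : Type} [Fintype X] [Fintype β] [Fintype φ] {D : HD (Fin 3) X β γ φ}
    {prr : ℕ → Fin 3 → φ → φ} {T : ℕ} {W : Type} [Fintype W] (tb : Tab D prr T W) {t : ℕ} (ht : t ≤ T) (i : Fin 3) {ω : W}
    (hω : (tb.Q i).p ω ≠ 0) (x : X) (y : Fin 3 → β) : D.kf t i x y (tb.lab t i ω x y) ≠ 0 := by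
  classical
  intro h0
  have h1 := tb.law t ht i x y (fun G => ind (G = tb.lab t i ω x y))
  have h2 : ∑ G, D.kf t i x y G * ind (G = tb.lab t i ω x y) = 0 := by
    refine Finset.sum_eq_zero fun G _ => ?_
    by_cases hG : G = tb.lab t i ω x y
    · rw [hG, h0, zero_mul]
    · rw [ind_not hG, mul_zero]
  rw [h2] at h1
  have h3 : (tb.Q i).p ω * ind (tb.lab t i ω x y = tb.lab t i ω x y) ≤
      (tb.Q i).E (fun ω' => ind (tb.lab t i ω' x y = tb.lab t i ω x y)) :=
    Finset.single_le_sum (f := fun ω' => (tb.Q i).p ω' * ind (tb.lab t i ω' x y = tb.lab t i ω x y))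
      (fun v _ => mul_nonneg ((tb.Q i).nn v) (ind_nonneg _)) (mem_univ ω)
  rw [ind_of rfl, mul_one, h1] at h3
  exact hω (le_antisymm h3 ((tb.Q i).nn ω))

end Pool.Agent.GMH.Dy
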