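import Pool.Agent.GMH.PayM

/-!
# GMH/PayR (helper83): payments with a defect, rarity in the mean

* `Hc_ev_thF` : `Hc (E | C) ≤ (log 1/th + 1) P(E) + sqrt th P(F)` for `E` inside the event `F` of the class;
* `pay_def` : `pay_mean` with tests normalised up to `exp df`;
* `rare_mean` : the mass of an event on which the test is `≥ lam`, linear in the mass of `F`: the sum over all ends of a kind
  is a small multiple of the number of the ends;
* `df_restr` : defect of a test which is restricted to a set of letters (the unmoved ones) and compared with an older table.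
-/

set_option autoImplicit false
set_option linter.unusedSectionVars false

namespace Pool.Agent.GMH.PayR

open Finset Pool.Agent.PWZ Pool.Agent.M3 Pool.Agent.GM Pool.Agent.GM.Harm Pool.Agent.GMH Pool.Agent.GMH.PayM

section ev

variable {Om : Type*} [Fintype Om] (P : FP Om) {κ : Type*}

/-- entropy of an event inside an event of the class -/
theorem Hc_ev_thF (E : Om → Prop) {F : Om → Prop} (C : Om → κ) (hF : Fac C F) (hEF : ∀ w, E w → F w) {th : ℝ}
    (ht : 0 < th) (ht1 : th ≤ 1) : P.Hc E C ≤ (Real.log (1 / th) + 1) * P.Pr E + Real.sqrt th * P.Pr F := by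
  refine (Hc_ev_le P E C).trans ?_
  set q : Om → ℝ := P.ce C (fun v => ind (E v)) with hq
  have q0 : ∀ w, 0 ≤ q w := fun w => P.ce_nonneg (fun _ _ => ind_nonneg _) w
  have q1 : ∀ w, P.p w ≠ 0 → q w ≤ 1 := fun w hw => P.ce_le_const (fun _ _ => ind_le_one _) hw
  have hf : Fac C (fun w => Real.log (1 / q w)) := fun v w e => by
    show Real.log (1 / q v) = _
    rw [hq, P.ce_fac C _ v w e]
  have h1 : P.E (fun w => ind (E w) * Real.log (1 / q w)) = P.E (fun w => q w * Real.log (1 / q w)) := by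
    have h2 := P.E_mul_ce hf (fun w => ind (E w))
    rw [P.E_congr (g := fun w => Real.log (1 / q w) * ind (E w)) (fun w _ => by ring), ← h2]
    exact P.E_congr fun w _ => by ring
  have h3 : P.E (fun w => q w * Real.log (1 / q w)) ≤
      P.E (fun w => Real.log (1 / th) * q w + Real.sqrt th * ind (F w)) := by
    refine P.E_mono fun w hw => ?_
    by_cases hFw : F w
    · rw [ind_of hFw, mul_one]
      exact plogp_le (q0 w) (q1 w hw) ht ht1
    · have hz : q w = 0 := by
        rw [hq]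
        unfold FP.ce
        have : P.E (fun v => ind (C v = C w) * ind (E v)) = 0 := by
          rw [← P.E_const 0]
          refine P.E_congr fun v _ => ?_
          by_cases hv : C v = C w
          · have : ¬ E v := fun he => hFw ((hF v w hv) ▸ hEF v he)
            rw [ind_not this, mul_zero]
          · rw [ind_not hv, zero_mul]
        rw [this, zero_div]
      rw [hz, ind_not hFw]
      norm_num
  have h4 : P.E q = P.Pr E := P.E_ce C _
  rw [P.E_add, P.E_smul, P.E_smul, h4] at h3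
  have h5 : P.E (fun w => ind (F w)) = P.Pr F := rfl
  rw [h5] at h3
  linarith

end ev

section ev2

theorem ce_pos_exp {Om : Type*} [Fintype Om] (P : FP Om) {κ : Type*} (Z : Om → κ) (f : Om → ℝ) {w : Om} (hw : P.p w ≠ 0) :
    0 < P.ce Z (fun v => Real.exp (f v)) w := by
  unfold FP.ce
  refine div_pos ?_ (P.m_pos Z hw)
  have h1 : P.p w * (ind (Z w = Z w) * Real.exp (f w)) ≤ P.E (fun v => ind (Z v = Z w) * Real.exp (f v)) :=
    Finset.single_le_sum (f := fun v => P.p v * (ind (Z v = Z w) * Real.exp (f v)))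
      (fun v _ => mul_nonneg (P.nn v) (mul_nonneg (ind_nonneg _) (Real.exp_pos _).le)) (mem_univ w)
  refine lt_of_lt_of_le (mul_pos (lt_of_le_of_ne (P.nn w) (Ne.symm hw)) ?_) h1
  rw [ind_of rfl, one_mul]
  exact Real.exp_pos _

/-- **defect of a restricted test** : on the set `u` the table has not moved by more than `dl` -/
theorem df_restr {Om Om0 : Type*} [Fintype Om] [Fintype Om0] {Q : FP Om} {P0 : FP Om0} {κ ι ι0 : Type*} {π : Om → Om0}
    {X0 : Om0 → κ} {Z0 : Om0 → ι0} {Z : Om → ι} (hZ : Fac Z (fun w => Z0 (π w))) {psi0 : Om0 → ℝ}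
    (hpsi : Fac (fun w => (X0 w, Z0 w)) psi0) {u : Om → Prop} {dl : ℝ} {w : Om} (hw : Q.p w ≠ 0) (hdl : 0 ≤ dl)
    (hac : ∀ v, Q.p v ≠ 0 → Z v = Z w → P0.p (π v) ≠ 0)
    (hu : ∀ v, Q.p v ≠ 0 → Z v = Z w → u v → dens2 Q P0 π X0 Z0 Z v ≤ dl)
    (hone : P0.ce Z0 (fun v => Real.exp (psi0 v)) (π w) ≤ 1) :
    Q.ce Z (fun v => Real.exp (ind (u v) * psi0 (π v))) w ≤ Real.exp (dl + Q.ce Z (fun v => ind (¬ u v)) w) := by
  have h1 := ce_tilt3 (Q := Q) (P0 := P0) (π := π) (X0 := X0) (Z0 := Z0) (Z := Z) hZ (e := fun v => Real.exp (psi0 v))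
    (fun v v' e => congrArg Real.exp (hpsi v v' e)) (fun _ => (Real.exp_pos _).le) hw hac
  have h2 : Q.ce Z (fun v => Real.exp (ind (u v) * psi0 (π v))) w ≤
      Q.ce Z (fun v => Real.exp dl * (Real.exp (psi0 (π v)) * Real.exp (- dens2 Q P0 π X0 Z0 Z v)) + ind (¬ u v)) w := by
    unfold FP.ce
    refine div_le_div_of_nonneg_right (Q.E_mono fun v hv => ?_) (Q.m_nonneg _ _)
    by_cases hz : Z v = Z w
    · rw [ind_of hz, one_mul, one_mul]
      show Real.exp (ind (u v) * psi0 (π v)) ≤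
        Real.exp dl * (Real.exp (psi0 (π v)) * Real.exp (- dens2 Q P0 π X0 Z0 Z v)) + ind (¬ u v)
      by_cases huv : u v
      · rw [ind_of huv, one_mul, ind_not (p := ¬ u v) (fun hh => hh huv), add_zero, ← Real.exp_add, ← Real.exp_add]
        refine Real.exp_le_exp.2 ?_
        have := hu v hv hz huv
        linarith
      · rw [ind_not huv, zero_mul, Real.exp_zero, ind_of (p := ¬ u v) huv]
        have : 0 ≤ Real.exp dl * (Real.exp (psi0 (π v)) * Real.exp (- dens2 Q P0 π X0 Z0 Z v)) := by positivity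
        linarith
    · rw [ind_not hz, zero_mul, zero_mul]
  rw [Q.ce_add, Q.ce_smul] at h2
  have m0 : 0 ≤ Q.ce Z (fun v => ind (¬ u v)) w := Q.ce_nonneg (fun _ _ => ind_nonneg _) w
  have h3 := mul_le_mul_of_nonneg_left (h1.trans hone) (Real.exp_pos dl).le
  have h4 : (1 : ℝ) ≤ Real.exp dl := Real.one_le_exp hdl
  have h5 : Q.ce Z (fun v => ind (¬ u v)) w + 1 ≤ Real.exp (Q.ce Z (fun v => ind (¬ u v)) w) := Real.add_one_le_exp _
  rw [Real.exp_add]
  have h6 := mul_le_mul_of_nonneg_left h5 (Real.exp_pos dl).le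
  have h7 := mul_le_mul_of_nonneg_right h4 m0
  rw [mul_one] at h3
  linarith

end ev2

section pay

variable {K X β γ φ υ ν : Type} [Fintype K] [DecidableEq K] [Fintype X] [Fintype β] [Fintype φ] [Nonempty X] [Nonempty β]
  {D : HD K X β γ φ} {al : ℝ} {h : D.Thick al} {N : Finset K → ℝ} {S : Finset (Finset K)} {Th : Type*} [Fintype Th]

/-- **payment with a defect** -/
theorem pay_def {U : Finset K → X → (K → β) → υ} {t : ℕ}
    (hs : SatA (D.P h t) (BB D t) N S (LL U) (Dep D t)) (hN : ∀ J ∈ S, 0 ≤ N J) {K0 J0 : Finset K}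
    (hKS : K0 ∈ S) (hJ0 : J0 ∈ above S K0)
    (R : FP Th) {G : Finset K → Pt K X β φ × Th → ν} (hGd : DepC D t G) (hG : On K0 G)
    {psi : (Finset K → Option ν) → Pt K X β φ → ℝ}
    (hpsi : ∀ r, Fac (fun w => (LL U J0 w, lo (LL U) J0 w, BB D t J0 w)) (psi r))
    {E : Pt K X β φ × Th → Prop} (hE : EvC D t K0 E) {df : Pt K X β φ × Th → ℝ}
    (hone : ∀ w : Pt K X β φ × Th, (D.P h t).p w.1 ≠ 0 → R.p w.2 ≠ 0 → E w →
      (D.P h t).ce (fun v => (lo (LL U) J0 v, BB D t J0 v)) (fun v => Real.exp (psi (lo G J0 w) v)) w.1 ≤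
        Real.exp (df w))
    {c : ℝ} (hc : (FP.pr (D.P h t) R).Pr E ≠ 0 →
      ∑ J ∈ S, N J * cost ((FP.pr (D.P h t) R).cond E) (fun I w => BB D t I w.1) (fun I w => LL U I w.1) G J ≤ c) :
    N J0 * (FP.pr (D.P h t) R).E (fun w => ind (E w) * psi (lo G J0 w) w.1) ≤
      2 * N K0 * (FP.pr (D.P h t) R).Hc E (fun w => (le (LL U) K0 w.1, BB D t K0 w.1)) +
        2 * c * (FP.pr (D.P h t) R).Pr E + N J0 * (FP.pr (D.P h t) R).E (fun w => ind (E w) * df w) := by
  classical
  have h1 := row_mean (P := FP.pr (D.P h t) R) (B := fun I w => BB D t I w.1)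
    (L := fun I w => LL U I w.1) (S := S) (N := N) (K0 := K0) (J0 := J0) (E := E) (G := G) (c := c)
    (psi := fun r v => psi r v.1) hG hN hKS (fun _ => by
      refine hs.coin hN (cutK K0 E G) ?_
      intro θ J a b h1 h2 h3
      show cutK K0 E G J (a, θ) = cutK K0 E G J (b, θ)
      by_cases hKJ : K0 ⊆ J
      · have eE : E (a, θ) = E (b, θ) := by
          refine hE (a, θ) (b, θ) ?_
          show ((a.1, BB D t K0 a), θ) = ((b.1, BB D t K0 b), θ)
          have : BB D t K0 a = BB D t K0 b := by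
            rw [BB_eq]
            exact ⟨fun j hj => h2 j (hKJ hj), by rw [h1], h3⟩
          rw [h1, this]
        by_cases hEa : E (a, θ)
        · have hEb : E (b, θ) := by rw [← eE]; exact hEa
          rw [cutK_in (w := (a, θ)) hKJ hEa, cutK_in (w := (b, θ)) hKJ hEb, hGd θ J a b h1 h2 h3]
        · have hEb : ¬ E (b, θ) := by rw [← eE]; exact hEa
          rw [cutK_off (w := (a, θ)) hEa, cutK_off (w := (b, θ)) hEb]
      · rw [cutK_out hKJ, cutK_out hKJ]) hJ0 (fun r v w hvw => by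
      refine hpsi r v.1 w.1 ?_
      simp only [Prod.mk.injEq] at hvw ⊢
      refine ⟨hvw.1, ?_, hvw.2.2⟩
      rw [lo_eq] at hvw ⊢
      exact hvw.2.1) hc
  have h2 : (FP.pr (D.P h t) R).E (fun w => ind (E w) * Real.log ((FP.pr (D.P h t) R).ce
      (fun v => (lo (fun I (w : Pt K X β φ × Th) => LL U I w.1) J0 v, BB D t J0 v.1))
        (fun v => Real.exp (psi (lo G J0 w) v.1)) w)) ≤ (FP.pr (D.P h t) R).E (fun w => ind (E w) * df w) := by
    refine FP.E_mono _ fun w hw => ?_
    by_cases hEw : E w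
    · obtain ⟨hw1, hw2⟩ := (pr_supp (D.P h t) R).1 hw
      rw [ind_of hEw, one_mul, one_mul]
      have e := lift_ce (D.P h t) R (fun v => (lo (LL U) J0 v, BB D t J0 v)) (fun v => Real.exp (psi (lo G J0 w) v)) w
      have e2 : (FP.pr (D.P h t) R).ce
          (fun v => (lo (fun I (w : Pt K X β φ × Th) => LL U I w.1) J0 v, BB D t J0 v.1))
          (fun v => Real.exp (psi (lo G J0 w) v.1)) w =
          (D.P h t).ce (fun v => (lo (LL U) J0 v, BB D t J0 v)) (fun v => Real.exp (psi (lo G J0 w) v)) w.1 := e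
      rw [e2]
      have h3 := hone w hw1 hw2 hEw
      have h4 : 0 < (D.P h t).ce (fun v => (lo (LL U) J0 v, BB D t J0 v))
          (fun v => Real.exp (psi (lo G J0 w) v)) w.1 := ce_pos_exp (D.P h t) _ _ hw1
      exact (Real.log_le_iff_le_exp h4).2 h3
    · rw [ind_not hEw, zero_mul, zero_mul]
  have h3 := mul_le_mul_of_nonneg_left h2 (hN J0 (mem_above.1 hJ0).1)
  exact h1.trans (by
    have e3 : (FP.pr (D.P h t) R).Hc E (fun w => (le (fun I (w : Pt K X β φ × Th) => LL U I w.1) K0 w, BB D t K0 w.1)) =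
      (FP.pr (D.P h t) R).Hc E (fun w => (le (LL U) K0 w.1, BB D t K0 w.1)) := rfl
    rw [e3]
    linarith)

/-- **RARITY IN THE MEAN** -/
theorem rare_mean {U : Finset K → X → (K → β) → υ} {t : ℕ}
    (hs : SatA (D.P h t) (BB D t) N S (LL U) (Dep D t)) (hN : ∀ J ∈ S, 0 ≤ N J) {K0 J0 : Finset K}
    (hKS : K0 ∈ S) (hJ0 : J0 ∈ above S K0)
    (R : FP Th) {G : Finset K → Pt K X β φ × Th → ν} (hGd : DepC D t G) (hG : On K0 G)
    {psi : (Finset K → Option ν) → Pt K X β φ → ℝ}
    (hpsi : ∀ r, Fac (fun w => (LL U J0 w, lo (LL U) J0 w, BB D t J0 w)) (psi r))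
    {E F : Pt K X β φ × Th → Prop} (hE : EvC D t K0 E)
    (hF : Fac (fun w : Pt K X β φ × Th => (le (LL U) K0 w.1, BB D t K0 w.1)) F) (hEF : ∀ w, E w → F w)
    {df : Pt K X β φ × Th → ℝ}
    (hone : ∀ w : Pt K X β φ × Th, (D.P h t).p w.1 ≠ 0 → R.p w.2 ≠ 0 → E w →
      (D.P h t).ce (fun v => (lo (LL U) J0 v, BB D t J0 v)) (fun v => Real.exp (psi (lo G J0 w) v)) w.1 ≤
        Real.exp (df w))
    {c : ℝ} (hc : (FP.pr (D.P h t) R).Pr E ≠ 0 →
      ∑ J ∈ S, N J * cost ((FP.pr (D.P h t) R).cond E) (fun I w => BB D t I w.1) (fun I w => LL U I w.1) G J ≤ c)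
    {lam th : ℝ} (ht : 0 < th) (ht1 : th ≤ 1)
    (hl : ∀ w, (FP.pr (D.P h t) R).p w ≠ 0 → E w →
      lam ≤ (FP.pr (D.P h t) R).ce (fun w => ((w.1.1, BB D t K0 w.1), w.2)) (fun v => psi (lo G J0 v) v.1) w) :
    (N J0 * lam - 2 * c - 2 * N K0 * (Real.log (1 / th) + 1)) * (FP.pr (D.P h t) R).Pr E ≤
      2 * N K0 * Real.sqrt th * (FP.pr (D.P h t) R).Pr F +
        N J0 * (FP.pr (D.P h t) R).E (fun w => ind (E w) * df w) := by
  have h1 := pay_def (h := h) hs hN hKS hJ0 R hGd hG hpsi hE hone hc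
  have h2 := Hc_ev_thF (FP.pr (D.P h t) R) E (F := F) (fun w => (le (LL U) K0 w.1, BB D t K0 w.1)) hF hEF ht ht1
  have h3 : lam * (FP.pr (D.P h t) R).Pr E ≤
      (FP.pr (D.P h t) R).E (fun w => ind (E w) * psi (lo G J0 w) w.1) := by
    have hEf : Fac (fun w : Pt K X β φ × Th => ((w.1.1, BB D t K0 w.1), w.2)) (fun w => ind (E w)) := fun v w e => by
      show ind (E v) = ind (E w)
      rw [hE v w e]
    rw [← FP.E_mul_ce _ hEf (fun w => psi (lo G J0 w) w.1)]
    unfold FP.Pr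
    rw [← FP.E_smul]
    refine FP.E_mono _ fun w hw => ?_
    by_cases hEw : E w
    · rw [ind_of hEw, mul_one, one_mul]
      exact hl w hw hEw
    · rw [ind_not hEw, mul_zero, zero_mul]
  have h4 := mul_le_mul_of_nonneg_left h3 (hN J0 (mem_above.1 hJ0).1)
  have h5 := mul_le_mul_of_nonneg_left h2 (mul_nonneg zero_le_two (hN K0 hKS))
  nlinarith

end pay

end Pool.Agent.GMH.PayR
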