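import Pool.Agent.GMH.TopG
import Pool.Agent.GMH.EpG
import Pool.Agent.GMH.PayR
import Pool.Agent.M3.RdPull

/-!
# GMH/PayS: the gains of a top telescope over the epochs, payment by the run summed over the ends (helper52)

Time = level `t`, state after the split.  `Tp v s i` = letter of the top without the vertex `i`, `Lw D v s i` = its lower
letters, points and node, `bk prr s t` = the point of the time `s` out of the point of the time `t`, `gd` = gain at the time `t`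
of the letter of the start `s` (`PayM` : `dens2`), `B t` = an epoch ends at `t` (seen by the lower letters), `EpG.st B t` = start
of the epoch which is alive before `t`.

* `gains_le` : the sum over the ends of the gains is at most `Lam`; `gain_nn` : every term is nonnegative;
* `gain_on` : localised gain: `E ≤ B t`, price `2 N_K0 Hc (E | class)`;
* `pay_end` : payment at one end with the letter of the start of the epoch; `pay_sum` : the sum over the ends.
-/

set_option autoImplicit false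
set_option linter.unusedSectionVars false

namespace Pool.Agent.GMH.PayS

open Finset Pool.Agent.PWZ Pool.Agent.M3 Pool.Agent.GM Pool.Agent.GM.Harm Pool.Agent.GMH Pool.Agent.GMH.PayM
open Pool.Agent.GMH.V3 Pool.Agent.GMH.V3.TG

noncomputable section

/-! ## pulled entropies -/

section pul

variable {Om Om' : Type*} [Fintype Om] [Fintype Om'] {P : FP Om} {P' : FP Om'} {π : Om → Om'} {κ ι : Type*}

theorem sp_pul (H : Pul P P' π) (X : Om' → κ) (Z : Om' → ι) (w : Om) :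
    sp P (fun u => X (π u)) (fun u => Z (π u)) w = sp P' X Z (π w) := by
  unfold sp
  rw [H.m Z w, H.m (fun v => (X v, Z v)) w]

theorem Hc_pul (H : Pul P P' π) (X : Om' → κ) (Z : Om' → ι) :
    P.Hc (fun u => X (π u)) (fun u => Z (π u)) = P'.Hc X Z := by
  rw [← E_sp, ← E_sp]
  refine (P.E_congr fun w _ => sp_pul H X Z w).trans (H.E _)

end pul

section top

variable {X β γ φ υ : Type} [Fintype X] [Fintype β] [Fintype φ] [Nonempty X] [Nonempty β]
variable {D : HD (Fin 3) X β γ φ} {al : ℝ} (h : D.Thick al) (v : ℕ → Finset (Fin 3) → X → (Fin 3 → β) → υ)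
variable {dg : ℕ → X → ℝ} {prr : ℕ → Fin 3 → φ → φ} {T : ℕ} {Lam : ℝ}

/-- the point of the time `s` out of the point of the time `t` -/
def bk (prr : ℕ → Fin 3 → φ → φ) (s t : ℕ) (w : Pt (Fin 3) X β φ) : Pt (Fin 3) X β φ := pst prr s (t - s) w

/-- letter of the top without `i` -/
def Tp (s : ℕ) (i : Fin 3) (w : Pt (Fin 3) X β φ) : List υ × (Fin 3 → Option φ) := LL (Um v (s + 1)) (univ.erase i) w

variable (D) in
/-- lower letters, points and node of the top without `i` -/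
def Lw (s : ℕ) (i : Fin 3) (w : Pt (Fin 3) X β φ) :
    (Finset (Fin 3) → Option (List υ × (Fin 3 → Option φ))) × ((Fin 3 → Option β) × (γ × (Fin 3 → γ))) :=
  (lo (LL (Um v (s + 1))) (univ.erase i) w, BB D s (univ.erase i) w)

variable (prr) in
/-- gain at the time `t` of the letter of the start `s` -/
def gd (i : Fin 3) (t s : ℕ) (w : Pt (Fin 3) X β φ) : ℝ :=
  dens2 (D.P h t) (D.P h s) (bk prr s t) (Tp v s i) (Lw D v s i) (Lw D v t i) w

variable {v}

/-! ### points of the past -/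

theorem pst_pst (pr : ℕ → Fin 3 → φ → φ) (s a b : ℕ) (w : Pt (Fin 3) X β φ) :
    pst pr s a (pst pr (s + a) b w) = pst pr s (a + b) w := by
  induction b generalizing w with
  | zero => rfl
  | succ b ih =>
    have e1 : pst pr (s + a) (b + 1) w = pst pr (s + a) b (old pr (s + a + b) w) := rfl
    have e2 : pst pr s (a + (b + 1)) w = pst pr s (a + b) (old pr (s + (a + b)) w) := rfl
    rw [e1, e2, ih, add_assoc]

theorem bk_bk {s t u : ℕ} (h1 : s ≤ t) (h2 : t ≤ u) (w : Pt (Fin 3) X β φ) :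
    bk prr s t (bk prr t u w) = bk prr s u w := by
  obtain ⟨a, rfl⟩ := Nat.exists_eq_add_of_le h1
  obtain ⟨b, rfl⟩ := Nat.exists_eq_add_of_le h2
  unfold bk
  rw [show s + a - s = a by omega, show s + a + b - (s + a) = b by omega, show s + a + b - s = a + b by omega]
  exact pst_pst prr s a b w

theorem bk_self (t : ℕ) (w : Pt (Fin 3) X β φ) : bk prr t t w = w := by
  unfold bk
  rw [Nat.sub_self]
  rfl

theorem bk_succ (t : ℕ) (w : Pt (Fin 3) X β φ) : bk prr t (t + 1) w = old prr t w := by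
  unfold bk
  rw [show t + 1 - t = 1 by omega]
  rfl

theorem bk_fst (s t : ℕ) (w : Pt (Fin 3) X β φ) : (bk prr s t w).1 = w.1 := pst_fst prr s _ w

theorem bk_pts (s t : ℕ) (w : Pt (Fin 3) X β φ) : (bk prr s t w).2.1 = w.2.1 := pst_pts prr s _ w

theorem pul_bk (H : D.Hyp dg prr al T Lam) {s t : ℕ} (hst : s ≤ t) (ht : t ≤ T) :
    Pul (D.P h t) (D.P h s) (bk prr s t) := by
  obtain ⟨a, rfl⟩ := Nat.exists_eq_add_of_le hst
  refine ⟨fun f => ?_⟩
  unfold bk
  rw [show s + a - s = a by omega]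
  exact push_pst h H.kf_pr s a ht f

/-! ### what the lower letters see -/

theorem Lw_xy {s : ℕ} {i : Fin 3} {a b : Pt (Fin 3) X β φ} (h1 : a.1 = b.1) (h2 : a.2.1 = b.2.1) :
    Lw D v s i a = Lw D v s i b := by
  refine Prod.ext (lo_noLabel (ne_univ i) h1 h2) ?_
  show BB D s (univ.erase i) a = BB D s (univ.erase i) b
  rw [BB_eq, h1, h2]
  exact ⟨fun _ _ => rfl, rfl, fun _ => rfl⟩

theorem Lw_step (s : ℕ) (i : Fin 3) : Fac (Lw (φ := φ) D v (s + 1) i) (Lw D v s i) := by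
  intro a b hab
  have h1 : lo (LL (φ := φ) (Um v (s + 1 + 1))) (univ.erase i) a = lo (LL (Um v (s + 1 + 1))) (univ.erase i) b :=
    (Prod.mk.inj hab).1
  have h2 : BB D (s + 1) (univ.erase i) a = BB D (s + 1) (univ.erase i) b := (Prod.mk.inj hab).2
  refine Prod.ext (lo_eq.2 fun I hI => ?_) ?_
  · have h4 := lo_eq.1 h1 I hI
    rw [LL_eq] at h4 ⊢
    exact ⟨(Um_eq.1 h4.1).1, h4.2⟩
  · show BB D s (univ.erase i) a = BB D s (univ.erase i) b
    rw [BB_eq] at h2 ⊢
    exact ⟨h2.1, D.ra s _ _ h2.2.1, fun j => D.rb s _ _ (h2.2.2 j)⟩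

theorem Lw_mono {s t : ℕ} (hst : s ≤ t) (i : Fin 3) : Fac (Lw (φ := φ) D v t i) (Lw D v s i) := by
  induction t, hst using Nat.le_induction with
  | base => exact Fac.refl _
  | succ t _ ih => exact fun a b hab => ih a b (Lw_step t i a b hab)

theorem Lw_bk (s s' t : ℕ) (i : Fin 3) (w : Pt (Fin 3) X β φ) : Lw D v s i (bk prr s' t w) = Lw D v s i w :=
  Lw_xy (bk_fst s' t w) (bk_pts s' t w)

/-- the letter of the past -/
theorem Tp_step (t : ℕ) (i : Fin 3) {a b : Pt (Fin 3) X β φ} (hab : Tp v (t + 1) i a = Tp v (t + 1) i b) :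
    Tp v t i (old prr t a) = Tp v t i (old prr t b) := by
  unfold Tp at hab ⊢
  rw [LL_eq] at hab ⊢
  refine ⟨(Um_eq.1 hab.1).1, fun l hl => ?_⟩
  show prr t l (a.2.2 l) = prr t l (b.2.2 l)
  rw [hab.2 l hl]

/-! ### the space of the last time -/

/-- letters of all times on the space of the time `T` -/
def TT (v : ℕ → Finset (Fin 3) → X → (Fin 3 → β) → υ) (prr : ℕ → Fin 3 → φ → φ) (T : ℕ) (i : Fin 3) (t : ℕ)
    (w : Pt (Fin 3) X β φ) : List υ × (Fin 3 → Option φ) := Tp v (min t T) i (bk prr (min t T) T w)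

/-- lower letters of all times on the space of the time `T` -/
def AT (D : HD (Fin 3) X β γ φ) (v : ℕ → Finset (Fin 3) → X → (Fin 3 → β) → υ) (T : ℕ) (i : Fin 3) (t : ℕ)
    (w : Pt (Fin 3) X β φ) :
    (Finset (Fin 3) → Option (List υ × (Fin 3 → Option φ))) × ((Fin 3 → Option β) × (γ × (Fin 3 → γ))) :=
  Lw D v (min t T) i w

theorem AT_filt (i : Fin 3) : Filt (fun t => AT (φ := φ) D v T i t) := by
  intro t a b hab
  exact Lw_mono (show min t T ≤ min (t + 1) T by omega) i a b hab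

theorem TT_step (i : Fin 3) (t : ℕ) : Fac (fun w => (TT v prr T i (t + 1) w, AT (φ := φ) D v T i (t + 1) w)) (TT v prr T i t) := by
  intro a b hab
  have h1 : TT v prr T i (t + 1) a = TT v prr T i (t + 1) b := (Prod.mk.inj hab).1
  rcases Nat.lt_or_ge t T with ht | ht
  · unfold TT at h1 ⊢
    rw [show min (t + 1) T = t + 1 by omega] at h1
    rw [show min t T = t by omega]
    have e : ∀ w : Pt (Fin 3) X β φ, bk prr t T w = old prr t (bk prr (t + 1) T w) := fun w => by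
      rw [← bk_succ, bk_bk (by omega) (by omega)]
    rw [e a, e b]
    exact Tp_step t i h1
  · unfold TT at h1 ⊢
    rw [show min (t + 1) T = T by omega] at h1
    rw [show min t T = T by omega]
    exact h1

/-- **the gain is the gain of the epochs** -/
theorem gd_eq (H : D.Hyp dg prr al T Lam) (i : Fin 3) {s t : ℕ} (hst : s ≤ t) (ht : t ≤ T) {w : Pt (Fin 3) X β φ}
    (hw : (D.P h T).p w ≠ 0) :
    gd h v prr i t s (bk prr t T w) = sp (D.P h T) (TT v prr T i s) (AT D v T i s) w -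
      sp (D.P h T) (TT v prr T i s) (AT D v T i t) w := by
  have pt := pul_bk h H ht le_rfl
  have ps := pul_bk h H (hst.trans ht) le_rfl
  have hms : min s T = s := by omega
  have hmt : min t T = t := by omega
  have e1 : (D.P h t).m (fun u => (Tp v s i (bk prr s t u), Lw D v t i u)) (bk prr t T w) =
      (D.P h T).m (fun u => (TT v prr T i s u, AT D v T i t u)) w := by
    rw [← pt.m]
    congr 1
    funext u
    unfold TT AT
    rw [hms, hmt, bk_bk hst ht, Lw_bk]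
  have e2 : (D.P h t).m (Lw D v t i) (bk prr t T w) = (D.P h T).m (AT D v T i t) w := by
    rw [← pt.m]
    congr 1
    funext u
    unfold AT
    rw [hmt, Lw_bk]
  have e3 : (D.P h s).m (fun u => (Tp v s i u, Lw D v s i u)) (bk prr s t (bk prr t T w)) =
      (D.P h T).m (fun u => (TT v prr T i s u, AT D v T i s u)) w := by
    rw [bk_bk hst ht, ← ps.m]
    congr 1
    funext u
    unfold TT AT
    rw [hms, Lw_bk]
  have e4 : (D.P h s).m (Lw D v s i) (bk prr s t (bk prr t T w)) = (D.P h T).m (AT D v T i s) w := by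
    rw [bk_bk hst ht, ← ps.m]
    congr 1
    funext u
    unfold AT
    rw [hms, Lw_bk]
  have p1 := ((D.P h T).m_pos (fun u => (TT v prr T i s u, AT D v T i t u)) hw).ne'
  have p2 := ((D.P h T).m_pos (AT D v T i t) hw).ne'
  have p3 := ((D.P h T).m_pos (fun u => (TT v prr T i s u, AT D v T i s u)) hw).ne'
  have p4 := ((D.P h T).m_pos (AT D v T i s) hw).ne'
  unfold gd dens2 sp
  rw [e1, e2, e3, e4, Real.log_div (div_ne_zero p1 p2) (div_ne_zero p3 p4), Real.log_div p1 p2, Real.log_div p3 p4]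
  ring

/-- the ends on the space of the time `T` -/
def eT (B : ℕ → Pt (Fin 3) X β φ → Prop) (T t : ℕ) (w : Pt (Fin 3) X β φ) : Prop := t ≤ T ∧ B t w

theorem st_eT (B : ℕ → Pt (Fin 3) X β φ → Prop) {t : ℕ} (ht : t ≤ T + 1) (w : Pt (Fin 3) X β φ) :
    EpG.st (eT B T) t w = EpG.st B t w := by
  induction t with
  | zero => rfl
  | succ t ih =>
    by_cases hb : B t w
    · rw [EpG.st_pos (e := eT B T) (show eT B T t w from ⟨by omega, hb⟩), EpG.st_pos hb]
    · rw [EpG.st_neg (e := eT B T) (fun hh => hb hh.2), EpG.st_neg hb, ih (by omega)]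

variable {B : ℕ → Pt (Fin 3) X β φ → Prop} {i : Fin 3}

theorem B_xy (hB : ∀ t ≤ T, Fac (Lw D v t i) (B t)) {t : ℕ} (ht : t ≤ T) {a b : Pt (Fin 3) X β φ} (h1 : a.1 = b.1)
    (h2 : a.2.1 = b.2.1) : B t a = B t b := hB t ht a b (Lw_xy h1 h2)

theorem st_xy (hB : ∀ t ≤ T, Fac (Lw D v t i) (B t)) {t : ℕ} (ht : t ≤ T + 1) {a b : Pt (Fin 3) X β φ} (h1 : a.1 = b.1)
    (h2 : a.2.1 = b.2.1) : EpG.st B t a = EpG.st B t b := by
  induction t with
  | zero => rfl
  | succ t ih =>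
    have h3 := B_xy hB (show t ≤ T by omega) h1 h2
    by_cases hb : B t a
    · rw [EpG.st_pos hb, EpG.st_pos (show B t b from h3 ▸ hb)]
    · rw [EpG.st_neg hb, EpG.st_neg (fun hh => hb (h3.symm ▸ hh)), ih (by omega)]

theorem eT_fac (hB : ∀ t ≤ T, Fac (Lw D v t i) (B t)) (t : ℕ) : Fac (AT D v T i t) (eT B T t) := by
  intro a b hab
  by_cases ht : t ≤ T
  · unfold AT at hab
    rw [show min t T = t by omega] at hab
    have h1 := hB t ht a b hab
    unfold eT
    rw [h1]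
  · refine propext ⟨fun hh => absurd hh.1 ht, fun hh => absurd hh.1 ht⟩

/-- the start is seen by the lower letters -/
theorem sel_fac (hB : ∀ t ≤ T, Fac (Lw D v t i) (B t)) {t : ℕ} (ht : t ≤ T) : Fac (Lw D v t i) (EpG.st B t) := by
  intro a b hab
  rcases t with _ | t
  · rfl
  · have h1 := EpG.st_fac (AT_filt (D := D) (v := v) (T := T) (φ := φ) i) (eT_fac hB) t a b (by
      unfold AT
      rw [show min t T = t by omega]
      exact Lw_step t i a b hab)
    rw [st_eT B (by omega), st_eT B (by omega)] at h1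
    exact h1

theorem term_eq (H : D.Hyp dg prr al T Lam) (hB : ∀ t ≤ T, Fac (Lw D v t i) (B t)) {t : ℕ} (ht : t ≤ T)
    {B' : Pt (Fin 3) X β φ → Prop} (hB' : ∀ a b : Pt (Fin 3) X β φ, a.1 = b.1 → a.2.1 = b.2.1 → B' a = B' b) :
    (D.P h t).E (fun w => ind (B' w) * gd h v prr i t (EpG.st B t w) w) =
      (D.P h T).E (fun w => ind (B' w) * EpG.gn (D.P h T) (eT B T) (TT v prr T i) (AT D v T i) t w) := by
  rw [← (pul_bk h H ht le_rfl).E]
  refine (D.P h T).E_congr fun w hw => ?_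
  rw [hB' (bk prr t T w) w (bk_fst t T w) (bk_pts t T w), st_xy hB (show t ≤ T + 1 by omega) (bk_fst t T w) (bk_pts t T w),
    gd_eq h H i (EpG.st_le B t w) ht hw, EpG.gn_eq, st_eT B (by omega)]

/-- one birth -/
theorem birth_step {v : ℕ → Finset (Fin 3) → X → (Fin 3 → β) → Pt (Fin 3) X β φ} {n N1 : ℝ}
    (R : Run h (pr3 (Fin 3) n N1) (SS1 (Fin 3)) (AdmDep D) v) (hn : 1 ≤ n) (hN1 : 1 ≤ N1) (t : ℕ) (i : Fin 3) :
    (D.P h (t + 1)).Hc (Tp v (t + 1) i) (fun w => (Tp v t i (old prr t w), Lw D v (t + 1) i w)) ≤ birth h prr t i := by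
  set J : Finset (Fin 3) := univ.erase i with hJ
  have hc : cost (D.P h (t + 1)) (BB D (t + 1)) (LL (Um v (t + 1))) (Vt v (t + 1)) J = 0 := by
    refine R.top_cost (mem_SS1.2 (ne_univ i)) (top_max (fun hh => mem_SS1.1 hh rfl)) ?_ (t + 1)
    exact zero_lt_one.trans_le (pr3_one hn hN1 _)
  set Z := fun w : Pt (Fin 3) X β φ => (Tp v t i (old prr t w), Lw D v (t + 1) i w) with hZ
  have h1 : (D.P h (t + 1)).Hc (Tp v (t + 1) i) Z ≤
      (D.P h (t + 1)).Hc (fun w => (Vt v (t + 1) J w, LL (Um v (t + 1)) J w)) Z := by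
    refine (D.P h (t + 1)).Hc_mono _ ?_
    intro a b hab
    simp only [Prod.mk.injEq] at hab
    obtain ⟨⟨h2, h3⟩, _⟩ := hab
    unfold Tp
    rw [LL_eq] at h3 ⊢
    exact ⟨Um_eq.2 ⟨h3.1, h2⟩, h3.2⟩
  have h2 := (D.P h (t + 1)).Hc_chain (Vt v (t + 1) J) (LL (Um v (t + 1)) J) Z
  have h3 : (D.P h (t + 1)).Hc (Vt v (t + 1) J) (fun w => (LL (Um v (t + 1)) J w, Z w)) ≤
      cost (D.P h (t + 1)) (BB D (t + 1)) (LL (Um v (t + 1))) (Vt v (t + 1)) J := by
    unfold cost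
    refine (D.P h (t + 1)).Hc_anti _ ?_
    intro a b hab
    have h4 : LL (Um v (t + 1)) J a = LL (Um v (t + 1)) J b := (Prod.mk.inj hab).1
    have h5 := (Prod.mk.inj (Prod.mk.inj hab).2).2
    have h6 : lo (LL (φ := φ) (Um v (t + 1 + 1))) J a = lo (LL (Um v (t + 1 + 1))) J b := (Prod.mk.inj h5).1
    have h6' : BB D (t + 1) J a = BB D (t + 1) J b := (Prod.mk.inj h5).2
    have h7 : ∀ I, I ⊂ J → LL (φ := φ) (Um v (t + 1 + 1)) I a = LL (Um v (t + 1 + 1)) I b := lo_eq.1 h6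
    simp only [Prod.mk.injEq]
    refine ⟨lo_eq.2 fun I hI => ?_, ?_, h6'⟩
    · have := h7 I hI
      rw [LL_eq] at this
      exact (Um_eq.1 this.1).2
    · rw [le_eq]
      intro I hI
      rcases hI.eq_or_ssubset with rfl | hI
      · exact h4
      · have := h7 I hI
        rw [LL_eq] at this ⊢
        exact ⟨(Um_eq.1 this.1).1, this.2⟩
  have h4 : (D.P h (t + 1)).Hc (LL (Um v (t + 1)) J) Z ≤
      (D.P h (t + 1)).Hc (fun w => w.2.2 i) (fun w => (prr t i (w.2.2 i), BB D (t + 1) J w)) := by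
    have h5 : (D.P h (t + 1)).Hc (LL (Um v (t + 1)) J) Z ≤ (D.P h (t + 1)).Hc (fun w => w.2.2 i) Z := by
      refine (D.P h (t + 1)).Hc_mono _ ?_
      intro a b hab
      have h6 : a.2.2 i = b.2.2 i := (Prod.mk.inj hab).1
      have h7 : Tp v t i (old prr t a) = Tp v t i (old prr t b) := (Prod.mk.inj (Prod.mk.inj hab).2).1
      unfold Tp at h7
      rw [LL_eq] at h7 ⊢
      refine ⟨h7.1, fun l hl => ?_⟩
      have : l = i := erase_inj' (hl.trans hJ)
      rw [this]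
      exact h6
    refine h5.trans ((D.P h (t + 1)).Hc_anti _ ?_)
    intro a b hab
    have h7 : Tp v t i (old prr t a) = Tp v t i (old prr t b) := (Prod.mk.inj hab).1
    have h8 := (Prod.mk.inj hab).2
    unfold Tp at h7
    rw [LL_eq] at h7
    exact Prod.ext (h7.2 i rfl) (Prod.mk.inj h8).2
  rw [birth_BB h (prr := prr) (t := t) (J := J) (l := i) rfl] at h4
  linarith

/-- the letter of the past is seen -/
theorem Tp_bk {s t : ℕ} (hst : s ≤ t) (i : Fin 3) {a b : Pt (Fin 3) X β φ} (hab : Tp v t i a = Tp v t i b) :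
    Tp v s i (bk prr s t a) = Tp v s i (bk prr s t b) := by
  induction t, hst using Nat.le_induction generalizing a b with
  | base =>
    rw [bk_self, bk_self]
    exact hab
  | succ t hst ih =>
    rw [← bk_bk hst (Nat.le_succ t), ← bk_bk hst (Nat.le_succ t), bk_succ, bk_succ]
    exact ih (Tp_step t i hab)

theorem gains_part (H : D.Hyp dg prr al T Lam) {v : ℕ → Finset (Fin 3) → X → (Fin 3 → β) → Pt (Fin 3) X β φ} {n N1 : ℝ}
    (R : Run h (pr3 (Fin 3) n N1) (SS1 (Fin 3)) (AdmDep D) v) (hn : 1 ≤ n) (hN1 : 1 ≤ N1)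
    (hB : ∀ t ≤ T, Fac (Lw D v t i) (B t)) {B' : ℕ → Pt (Fin 3) X β φ → Prop} (hB' : ∀ t ≤ T, Fac (Lw D v t i) (B' t))
    (hBB : ∀ t ≤ T, ∀ w, B' t w → B t w) :
    ∑ t ∈ range (T + 1), (D.P h t).E (fun w => ind (B' t w) * gd h v prr i t (EpG.st B t w) w) ≤ Lam := by
  have h1 := EpG.part_le (P := D.P h T) (T := TT v prr T i) (A := AT D v T i) (e := eT B T) (AT_filt i) (TT_step i)
    (eT_fac hB) (e' := eT B' T) (eT_fac hB') (fun t w hw => ⟨hw.1, hBB t hw.1 w hw.2⟩) T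
  have h2 : ∀ t ∈ range (T + 1), (D.P h t).E (fun w => ind (B' t w) * gd h v prr i t (EpG.st B t w) w) =
      (D.P h T).E (fun w => ind (eT B' T t w) * EpG.gn (D.P h T) (eT B T) (TT v prr T i) (AT D v T i) t w) := by
    intro t ht
    have ht' : t ≤ T := Nat.lt_succ_iff.1 (Finset.mem_range.1 ht)
    rw [term_eq h H hB ht' (fun a b h1 h2 => B_xy hB' ht' h1 h2)]
    refine (D.P h T).E_congr fun w _ => ?_
    by_cases hw : B' t w
    · rw [ind_of hw, ind_of (show eT B' T t w from ⟨ht', hw⟩)]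
    · rw [ind_not hw, ind_not (show ¬ eT B' T t w from fun hh => hw hh.2)]
  rw [Finset.sum_congr rfl h2]
  refine h1.trans ?_
  have h3 : (D.P h T).Hc (TT v prr T i 0) (AT D v T i 0) ≤ birth0 h i := by
    have e1 : (D.P h T).Hc (TT v prr T i 0) (AT D v T i 0) = (D.P h 0).Hc (Tp v 0 i) (Lw D v 0 i) := by
      rw [← Hc_pul (pul_bk h H (Nat.zero_le T) le_rfl)]
      have a1 : TT v prr T i 0 = fun u : Pt (Fin 3) X β φ => Tp v 0 i (bk prr 0 T u) := by
        funext u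
        unfold TT
        rw [show min 0 T = 0 by omega]
      have a2 : AT D v T i 0 = fun u : Pt (Fin 3) X β φ => Lw D v 0 i (bk prr 0 T u) := by
        funext u
        unfold AT
        rw [show min 0 T = 0 by omega, Lw_bk]
      rw [a1, a2]
    rw [e1]
    exact start_le h R hn hN1 i
  have h4 : ∀ t ∈ range T, (D.P h T).Hc (TT v prr T i (t + 1)) (fun w => (TT v prr T i t w, AT D v T i (t + 1) w)) ≤
      birth h prr t i := by
    intro t ht
    have ht' := Finset.mem_range.1 ht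
    have e1 : (D.P h T).Hc (TT v prr T i (t + 1)) (fun w => (TT v prr T i t w, AT D v T i (t + 1) w)) =
        (D.P h (t + 1)).Hc (Tp v (t + 1) i) (fun w => (Tp v t i (old prr t w), Lw D v (t + 1) i w)) := by
      rw [← Hc_pul (pul_bk h H (show t + 1 ≤ T by omega) le_rfl)]
      have a1 : TT v prr T i (t + 1) = fun u : Pt (Fin 3) X β φ => Tp v (t + 1) i (bk prr (t + 1) T u) := by
        funext u
        unfold TT
        rw [show min (t + 1) T = t + 1 by omega]
      have a2 : (fun w : Pt (Fin 3) X β φ => (TT v prr T i t w, AT D v T i (t + 1) w)) = fun u =>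
          (Tp v t i (old prr t (bk prr (t + 1) T u)), Lw D v (t + 1) i (bk prr (t + 1) T u)) := by
        funext u
        unfold TT AT
        rw [show min (t + 1) T = t + 1 by omega, show min t T = t by omega, Lw_bk, ← bk_succ,
          bk_bk (Nat.le_succ t) (by omega)]
      rw [a1, a2]
    rw [e1]
    exact birth_step h R hn hN1 t i
  have h5 := birth_le h H i
  have h6 := Finset.sum_le_sum h4
  linarith

/-- **THE GAINS TELESCOPE** : the sum over all ends -/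
theorem gains_le (H : D.Hyp dg prr al T Lam) {v : ℕ → Finset (Fin 3) → X → (Fin 3 → β) → Pt (Fin 3) X β φ} {n N1 : ℝ}
    (R : Run h (pr3 (Fin 3) n N1) (SS1 (Fin 3)) (AdmDep D) v) (hn : 1 ≤ n) (hN1 : 1 ≤ N1)
    (hB : ∀ t ≤ T, Fac (Lw D v t i) (B t)) :
    ∑ t ∈ range (T + 1), (D.P h t).E (fun w => ind (B t w) * gd h v prr i t (EpG.st B t w) w) ≤ Lam :=
  gains_part h H R hn hN1 hB hB fun _ _ _ hw => hw

/-- the mean gain on an event of the lower letters is nonnegative -/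
theorem gain_nn (H : D.Hyp dg prr al T Lam) (hB : ∀ t ≤ T, Fac (Lw D v t i) (B t)) {t : ℕ} (ht : t ≤ T)
    {B' : Pt (Fin 3) X β φ → Prop} (hB' : Fac (Lw D v t i) B') :
    0 ≤ (D.P h t).E (fun w => ind (B' w) * gd h v prr i t (EpG.st B t w) w) := by
  rw [term_eq h H hB ht (fun a b h1 h2 => hB' a b (Lw_xy h1 h2))]
  have h1 := EpG.part_gain (P := D.P h T) (T := TT v prr T i) (A := AT D v T i) (e := eT B T) (AT_filt i)
    (eT_fac hB) (e' := fun t' w => t' = t ∧ B' w) (by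
      intro t' a b hab
      refine propext ⟨fun hh => ⟨hh.1, ?_⟩, fun hh => ⟨hh.1, ?_⟩⟩
      · obtain ⟨rfl, h2⟩ := hh
        unfold AT at hab
        rw [show min t' T = t' by omega] at hab
        exact (hB' a b hab) ▸ h2
      · obtain ⟨rfl, h2⟩ := hh
        unfold AT at hab
        rw [show min t' T = t' by omega] at hab
        exact (hB' a b hab) ▸ h2) t
  refine h1.trans (le_of_eq ((D.P h T).E_congr fun w _ => ?_))
  by_cases hw : B' w
  · rw [ind_of hw, ind_of (show t = t ∧ B' w from ⟨rfl, hw⟩)]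
  · rw [ind_not hw, ind_not (show ¬ (t = t ∧ B' w) from fun hh => hw hh.2)]

/-! ### payments -/

/-- the class of `K0` -/
def Cls (D : HD (Fin 3) X β γ φ) (v : ℕ → Finset (Fin 3) → X → (Fin 3 → β) → υ) (t : ℕ) (K0 : Finset (Fin 3))
    (w : Pt (Fin 3) X β φ) :
    (Finset (Fin 3) → Option (List υ × (Fin 3 → Option φ))) × ((Fin 3 → Option β) × (γ × (Fin 3 → γ))) :=
  (le (LL (Um v (t + 1))) K0 w, BB D t K0 w)

theorem Cls_Lw {t : ℕ} {K0 : Finset (Fin 3)} (hK : K0 ⊂ univ.erase i) : Fac (Lw (φ := φ) D v t i) (Cls D v t K0) := by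
  intro a b hab
  have h1 : lo (LL (φ := φ) (Um v (t + 1))) (univ.erase i) a = lo (LL (Um v (t + 1))) (univ.erase i) b :=
    (Prod.mk.inj hab).1
  have h2 : BB D t (univ.erase i) a = BB D t (univ.erase i) b := (Prod.mk.inj hab).2
  refine Prod.ext (le_eq.2 fun I hI => lo_eq.1 h1 I (lt_of_le_of_lt hI hK)) ?_
  show BB D t K0 a = BB D t K0 b
  rw [BB_eq] at h2 ⊢
  exact ⟨fun j hj => h2.1 j (hK.1 hj), h2.2⟩

section pay

variable {v : ℕ → Finset (Fin 3) → X → (Fin 3 → β) → Pt (Fin 3) X β φ} {n N1 : ℝ} {K0 : Finset (Fin 3)}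

/-- **PAYMENT AT ONE END** with the letter of the start of the epoch -/
theorem pay_end (H : D.Hyp dg prr al T Lam) (R : Run h (pr3 (Fin 3) n N1) (SS1 (Fin 3)) (AdmDep D) v) (hn : 1 ≤ n)
    (hN1 : 1 ≤ N1) (hB : ∀ t ≤ T, Fac (Lw D v t i) (B t)) (hK : K0 ⊂ univ.erase i) {t : ℕ} (ht : t ≤ T)
    {Th : Type*} {ν : Type} [Fintype Th] (Rc : FP Th) {G : Finset (Fin 3) → Pt (Fin 3) X β φ × Th → ν} (hGd : DepC D t G)
    (hG : On K0 G) {psi0 : ℕ → (Finset (Fin 3) → Option ν) → Pt (Fin 3) X β φ → ℝ}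
    (hpsi : ∀ s ≤ t, ∀ r, Fac (fun w => (Tp v s i w, Lw D v s i w)) (psi0 s r))
    {E : Pt (Fin 3) X β φ × Th → Prop} (hE : EvC D t K0 E)
    (hone : ∀ w : Pt (Fin 3) X β φ × Th, (D.P h t).p w.1 ≠ 0 → Rc.p w.2 ≠ 0 → E w →
      (D.P h (EpG.st B t w.1)).ce (Lw D v (EpG.st B t w.1) i)
        (fun u => Real.exp (psi0 (EpG.st B t w.1) (lo G (univ.erase i) w) u)) (bk prr (EpG.st B t w.1) t w.1) ≤ 1)
    {c : ℝ} (hc : (FP.pr (D.P h t) Rc).Pr E ≠ 0 → ∑ J ∈ SS1 (Fin 3), pr3 (Fin 3) n N1 J *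
      cost ((FP.pr (D.P h t) Rc).cond E) (fun I w => BB D t I w.1) (fun I w => LL (Um v (t + 1)) I w.1) G J ≤ c) :
    pr3 (Fin 3) n N1 (univ.erase i) * (FP.pr (D.P h t) Rc).E (fun w => ind (E w) *
        psi0 (EpG.st B t w.1) (lo G (univ.erase i) w) (bk prr (EpG.st B t w.1) t w.1)) ≤
      2 * pr3 (Fin 3) n N1 K0 * (FP.pr (D.P h t) Rc).Hc E (fun w => Cls D v t K0 w.1) +
        2 * c * (FP.pr (D.P h t) Rc).Pr E +
      pr3 (Fin 3) n N1 (univ.erase i) * (FP.pr (D.P h t) Rc).E (fun w => ind (E w) *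
        gd h v prr i t (EpG.st B t w.1) w.1) := by
  have hN : ∀ J ∈ SS1 (Fin 3), 0 ≤ pr3 (Fin 3) n N1 J := fun J _ => zero_le_one.trans (pr3_one hn hN1 J)
  have hJ0 : univ.erase i ∈ above (SS1 (Fin 3)) K0 := mem_above.2 ⟨mem_SS1.2 (ne_univ i), hK⟩
  have hKS : K0 ∈ SS1 (Fin 3) := mem_SS1.2 fun hh => by
    rw [hh] at hK
    exact hK.2 (Finset.subset_univ _)
  have hs := R.dep hN t
  refine pay_old (h := h) (U := Um v (t + 1)) (t := t) hs hN hKS hJ0 Rc hGd hG
    (sel := fun w => (⟨EpG.st B t w, Nat.lt_succ_of_le (EpG.st_le B t w)⟩ : Fin (t + 1)))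
    (fun a b hab => Fin.ext (sel_fac hB ht a b hab)) (P0 := fun s => D.P h s) (π := fun s => bk prr s t)
    (X0 := fun s => Tp v s i) (Z0 := fun s => Lw D v s i) ?_ ?_ ?_ (psi0 := fun s => psi0 s)
    (fun s r => hpsi s (Nat.lt_succ_iff.1 s.2) r) hE hone hc
  · intro w hw
    exact (pul_bk h H (EpG.st_le B t w) ht).ne hw
  · intro s a b hab
    exact Tp_bk (Nat.lt_succ_iff.1 s.2) i (Prod.mk.inj hab).1
  · intro s a b hab
    show Lw D v s i (bk prr s t a) = Lw D v s i (bk prr s t b)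
    rw [Lw_bk, Lw_bk]
    exact Lw_mono (Nat.lt_succ_iff.1 s.2) i a b hab

/-- **the localised gain** -/
theorem gain_on (H : D.Hyp dg prr al T Lam) (R : Run h (pr3 (Fin 3) n N1) (SS1 (Fin 3)) (AdmDep D) v) (hn : 1 ≤ n)
    (hN1 : 1 ≤ N1) (hB : ∀ t ≤ T, Fac (Lw D v t i) (B t)) (hK : K0 ⊂ univ.erase i) {t : ℕ} (ht : t ≤ T)
    {Th : Type*} [Fintype Th] (Rc : FP Th) {B' : Pt (Fin 3) X β φ → Prop} (hB' : Fac (Cls D v t K0) B')
    {E : Pt (Fin 3) X β φ × Th → Prop} (hE : EvC D t K0 E) (hEB : ∀ w, E w → B' w.1) :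
    pr3 (Fin 3) n N1 (univ.erase i) * (FP.pr (D.P h t) Rc).E (fun w => ind (E w) *
        gd h v prr i t (EpG.st B t w.1) w.1) ≤
      pr3 (Fin 3) n N1 (univ.erase i) * (D.P h t).E (fun w => ind (B' w) * gd h v prr i t (EpG.st B t w) w) +
        2 * pr3 (Fin 3) n N1 K0 * (FP.pr (D.P h t) Rc).Hc E (fun w => Cls D v t K0 w.1) := by
  have hBE : ∀ a b : Pt (Fin 3) X β φ, a.1 = b.1 → BB D t K0 a = BB D t K0 b → B' a = B' b := by
    intro a b h1 h2
    refine hB' a b (Prod.ext (le_eq.2 fun I hI => ?_) h2)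
    rw [LL_eq]
    rw [BB_eq] at h2
    refine ⟨?_, fun l hl => ?_⟩
    · rw [h1]
      exact Um_codes R.codes (le_refl (t + 1)) I b.1 (fun j hj => h2.1 j (hI hj)) h2.2.2
    · exfalso
      have h3 : univ.erase l ⊆ K0 := hl ▸ hI
      have h4 : univ.erase l ⊂ univ.erase i := lt_of_le_of_lt h3 hK
      have h5 := Finset.card_lt_card h4
      rw [Finset.card_erase_of_mem (mem_univ _), Finset.card_erase_of_mem (mem_univ _)] at h5
      exact lt_irrefl _ h5
  have key := pay_end h H R hn hN1 hB hK ht Rc (G := fun _ _ => ()) (fun _ _ _ _ _ _ _ => rfl) (fun _ _ _ _ => rfl)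
    (psi0 := fun _ _ _ => 0) (fun _ _ _ _ _ _ => rfl) (E := fun w => B' w.1 ∧ ¬ E w)
    (fun a b hab => by
      have h1 : E a = E b := hE a b hab
      have h2 := Prod.mk.inj hab
      have h3 := Prod.mk.inj h2.1
      show (B' a.1 ∧ ¬ E a) = (B' b.1 ∧ ¬ E b)
      rw [h1, hBE a.1 b.1 h3.1 h3.2]) (fun w hw _ _ => by
      simp only [Real.exp_zero]
      rw [FP.ce_const _ _ _ ((pul_bk h H (EpG.st_le B t w.1) ht).ne hw)]) (c := 0) (fun _ => by
      refine le_of_eq (Finset.sum_eq_zero fun J _ => ?_)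
      rw [cost_const (fun _ _ => rfl), mul_zero])
  have e2 : (FP.pr (D.P h t) Rc).Hc (fun w => B' w.1 ∧ ¬ E w) (fun w => Cls D v t K0 w.1) =
      (FP.pr (D.P h t) Rc).Hc E (fun w => Cls D v t K0 w.1) := by
    refine Hc_congr_supp (fun _ _ _ _ => Iff.rfl) fun a b _ _ hab => ?_
    have h1 : B' a.1 = B' b.1 := hB' a.1 b.1 hab
    constructor
    · intro hh
      have h2 : (B' a.1 ∧ ¬ E a) = (B' b.1 ∧ ¬ E b) := hh
      refine propext ⟨fun h3 => ?_, fun h3 => ?_⟩
      · by_contra h4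
        have h5 : B' b.1 ∧ ¬ E b := ⟨h1 ▸ hEB a h3, h4⟩
        rw [← h2] at h5
        exact h5.2 h3
      · by_contra h4
        have h5 : B' a.1 ∧ ¬ E a := ⟨h1.symm ▸ hEB b h3, h4⟩
        rw [h2] at h5
        exact h5.2 h3
    · intro hh
      have h2 : E a = E b := hh
      show (B' a.1 ∧ ¬ E a) = (B' b.1 ∧ ¬ E b)
      rw [h1, h2]
  rw [e2] at key
  have e1 : (FP.pr (D.P h t) Rc).E (fun w => ind (B' w.1 ∧ ¬ E w) * gd h v prr i t (EpG.st B t w.1) w.1) =
      (D.P h t).E (fun w => ind (B' w) * gd h v prr i t (EpG.st B t w) w) -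
      (FP.pr (D.P h t) Rc).E (fun w => ind (E w) * gd h v prr i t (EpG.st B t w.1) w.1) := by
    rw [← lift_E (D.P h t) Rc (fun w => ind (B' w) * gd h v prr i t (EpG.st B t w) w), ← FP.E_sub]
    refine FP.E_congr _ fun w _ => ?_
    by_cases hw : E w
    · rw [ind_of hw, ind_of (hEB w hw), ind_not (show ¬ (B' w.1 ∧ ¬ E w) from fun hh => hh.2 hw)]
      ring
    · by_cases hw2 : B' w.1
      · rw [ind_not hw, ind_of hw2, ind_of (show B' w.1 ∧ ¬ E w from ⟨hw2, hw⟩)]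
        ring
      · rw [ind_not hw, ind_not hw2, ind_not (show ¬ (B' w.1 ∧ ¬ E w) from fun hh => hw2 hh.1)]
        ring
  rw [e1] at key
  simp only [mul_zero, FP.E_const, zero_mul, add_zero] at key
  linarith

/-- **THE PAYMENTS OF ALL ENDS** -/
theorem pay_sum (H : D.Hyp dg prr al T Lam) (R : Run h (pr3 (Fin 3) n N1) (SS1 (Fin 3)) (AdmDep D) v) (hn : 1 ≤ n)
    (hN1 : 1 ≤ N1) (hB : ∀ t ≤ T, Fac (Lw D v t i) (B t)) (hK : K0 ⊂ univ.erase i)
    {Th : ℕ → Type*} {ν : ℕ → Type} [∀ t, Fintype (Th t)] (Rc : ∀ t, FP (Th t))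
    {G : ∀ t, Finset (Fin 3) → Pt (Fin 3) X β φ × Th t → ν t} (hGd : ∀ t ≤ T, DepC D t (G t))
    (hG : ∀ t ≤ T, On K0 (G t)) {psi0 : ∀ t, ℕ → (Finset (Fin 3) → Option (ν t)) → Pt (Fin 3) X β φ → ℝ}
    (hpsi : ∀ t ≤ T, ∀ s ≤ t, ∀ r, Fac (fun w => (Tp v s i w, Lw D v s i w)) (psi0 t s r))
    {B' : ℕ → Pt (Fin 3) X β φ → Prop} (hB' : ∀ t ≤ T, Fac (Cls D v t K0) (B' t)) (hBB : ∀ t ≤ T, ∀ w, B' t w → B t w)
    {E : ∀ t, Pt (Fin 3) X β φ × Th t → Prop} (hE : ∀ t ≤ T, EvC D t K0 (E t)) (hEB : ∀ t ≤ T, ∀ w, E t w → B' t w.1)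
    (hone : ∀ t ≤ T, ∀ w : Pt (Fin 3) X β φ × Th t, (D.P h t).p w.1 ≠ 0 → (Rc t).p w.2 ≠ 0 → E t w →
      (D.P h (EpG.st B t w.1)).ce (Lw D v (EpG.st B t w.1) i)
        (fun u => Real.exp (psi0 t (EpG.st B t w.1) (lo (G t) (univ.erase i) w) u)) (bk prr (EpG.st B t w.1) t w.1) ≤ 1)
    {c : ℕ → ℝ} (hc : ∀ t ≤ T, (FP.pr (D.P h t) (Rc t)).Pr (E t) ≠ 0 → ∑ J ∈ SS1 (Fin 3), pr3 (Fin 3) n N1 J *
      cost ((FP.pr (D.P h t) (Rc t)).cond (E t)) (fun I w => BB D t I w.1) (fun I w => LL (Um v (t + 1)) I w.1) (G t) J ≤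
        c t) :
    pr3 (Fin 3) n N1 (univ.erase i) * ∑ t ∈ range (T + 1), (FP.pr (D.P h t) (Rc t)).E (fun w => ind (E t w) *
        psi0 t (EpG.st B t w.1) (lo (G t) (univ.erase i) w) (bk prr (EpG.st B t w.1) t w.1)) ≤
      pr3 (Fin 3) n N1 (univ.erase i) * Lam +
        ∑ t ∈ range (T + 1), (4 * pr3 (Fin 3) n N1 K0 * (FP.pr (D.P h t) (Rc t)).Hc (E t) (fun w => Cls D v t K0 w.1) +
          2 * c t * (FP.pr (D.P h t) (Rc t)).Pr (E t)) := by
  have hN0 : 0 ≤ pr3 (Fin 3) n N1 (univ.erase i) := zero_le_one.trans (pr3_one hn hN1 _)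
  have h1 : ∀ t ∈ range (T + 1), pr3 (Fin 3) n N1 (univ.erase i) * (FP.pr (D.P h t) (Rc t)).E (fun w => ind (E t w) *
        psi0 t (EpG.st B t w.1) (lo (G t) (univ.erase i) w) (bk prr (EpG.st B t w.1) t w.1)) ≤
      pr3 (Fin 3) n N1 (univ.erase i) * (D.P h t).E (fun w => ind (B' t w) * gd h v prr i t (EpG.st B t w) w) +
        (4 * pr3 (Fin 3) n N1 K0 * (FP.pr (D.P h t) (Rc t)).Hc (E t) (fun w => Cls D v t K0 w.1) +
          2 * c t * (FP.pr (D.P h t) (Rc t)).Pr (E t)) := by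
    intro t ht
    have ht' : t ≤ T := Nat.lt_succ_iff.1 (Finset.mem_range.1 ht)
    have a1 := pay_end h H R hn hN1 hB hK ht' (Rc t) (hGd t ht') (hG t ht') (hpsi t ht') (hE t ht') (hone t ht')
      (hc t ht')
    have a2 := gain_on h H R hn hN1 hB hK ht' (Rc t) (hB' t ht') (hE t ht') (hEB t ht')
    linarith
  have h2 := Finset.sum_le_sum h1
  rw [← Finset.mul_sum, Finset.sum_add_distrib, ← Finset.mul_sum] at h2
  have h3 := mul_le_mul_of_nonneg_left (gains_part h H R hn hN1 hB (fun t ht => (Cls_Lw hK).trans (hB' t ht)) hBB) hN0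
  linarith

end pay

end top

end

end Pool.Agent.GMH.PayS
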