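import Pool.Agent.GMH.One1
import Pool.Agent.GMH.One2a
import Pool.Agent.GMH.PayS
import Pool.Agent.GMH.PayC
import Pool.Agent.GMH.PayR
import Pool.Agent.GMH.TopAl

/-!
# GMH/One3d (helper2): definitions for the payments of OneOK (D7)

* `ro s q` : log ratio of the top without `i` given the thin labels and the other tops, at the state `5 s`; `Fq s q` : on the
  points alive at the level `s`;
* `sub i r w` (GMH/One2) ; `gA s b u` : code list of the letter of `i` at the point `b`, if it is typical;
* `psi0 s a f b u` : the function `Fq` of the sampled point as a function of the hints (code list `a`, labels `f` of the other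
  tops, point `b`) and of what the top sees;
* `smp`, `Gh` : the named sampled point and the hints at the level `t`.
-/

set_option autoImplicit false
set_option linter.unusedSectionVars false

namespace Pool.Agent.GMH.One

open Finset Pool.Agent.PWZ Pool.Agent.M3 Pool.Agent.GM Pool.Agent.GM.Harm Pool.Agent.GMH Pool.Agent.GMH.NZ
open Pool.Agent.GMH.V3 Pool.Agent.GMH.TP Pool.Agent.GMH.Dy Pool.Agent.GMH.PayS

noncomputable section

variable {X β γ φ : Type} [Fintype X] [Fintype β] [Fintype φ] [Nonempty X] [Nonempty β]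
variable {D : HD (Fin 3) X β γ φ} {al : ℝ} (h : D.Thick al) (v : ℕ → Finset (Fin 3) → X → (Fin 3 → β) → Pt (Fin 3) X β φ)
variable {dg : ℕ → X → ℝ} {prr : ℕ → Fin 3 → φ → φ} {T : ℕ} {Lam : ℝ} {W : Type} [Fintype W] (tb : Tab D prr T W)
variable (p : AP) (i : Fin 3)

/-- log ratio of the top without `i` given the thin labels and the other tops, state `5 s` -/
def ro (s : ℕ) (q : Pt (Fin 3) X β φ) : ℝ :=
  Real.log ((D.P h s).pv (fun u => (tup (Fo (FQ v s) i) u, ZQ D v (5 * s) u)) (FQ v s i) q (FQ v s i q) /
    (D.P h s).pv (ZbQ D v (5 * s) i) (FQ v s i) q (FQ v s i q))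

/-- the signed function of the level `s` -/
def Fq (s : ℕ) (q : Pt (Fin 3) X β φ) : ℝ := ind (Ar h v p (2 * s) q) * ro h v i s q

/-- a point with the hinted data -/
def Dat (s : ℕ) (a : List (Pt (Fin 3) X β φ)) (f : Fin 3 → φ) (b : β) (u q : Pt (Fin 3) X β φ) : Prop :=
  (D.P h s).p q ≠ 0 ∧ q.2.1 i = b ∧ Um v (s + 1) {i} q.1 q.2.1 = a ∧ (∀ j, j ≠ i → q.2.2 j = f j) ∧
    q.2.2 i = u.2.2 i ∧ (∀ j, j ≠ i → XLq v (5 * s) j q = XLq v (5 * s) j u) ∧ NPq D v (5 * s) q = NPq D v (5 * s) u

open Classical in
/-- the function of the sampled point in terms of the hints -/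
def psi0 (s : ℕ) (a : Option (List (Pt (Fin 3) X β φ))) (f : Fin 3 → φ) (b : β) (u : Pt (Fin 3) X β φ) : ℝ :=
  match a with
  | none => 0
  | some a => if hh : ∃ q, Dat h v i s a f b u q then Fq h v p i s (Classical.choose hh) else 0

open Classical in
/-- code list of the letter of `i` at the point `b`, if it is typical -/
def gA (s : ℕ) (b : β) (u : Pt (Fin 3) X β φ) : Option (List (Pt (Fin 3) X β φ)) :=
  if ssQ h v (5 * s) i (u.1, Function.update u.2.1 i b, u.2.2) ≤ p.X0 then
    some (Um v (s + 1) {i} u.1 (Function.update u.2.1 i b)) else none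

/-! ## hints -/

variable (D) in
open Classical in
/-- a representative of the cell -/
def rep (n : ℕ) (b : β) : β := Classical.epsilon fun b' => D.qb n b' = D.qb n b

variable {M : ℕ} (θ : ℕ → β → Fin (M + 1) → (Fin 3 → W) × β) (nS : Pt (Fin 3) X β φ → ℕ)
  (kn : Pt (Fin 3) X β φ → Fin (M + 1))

variable (D) in
/-- the named sampled point; `nS` = start, `kn` = name -/
def smp (w : Pt (Fin 3) X β φ) : (Fin 3 → W) × β := θ (nS w) (rep D (TP.nn (nS w)) (w.2.1 i)) (kn w)

/-- the label `l` of the named sampled point at the level of the start -/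
def lbl (l : Fin 3) (w : Pt (Fin 3) X β φ) : φ :=
  tb.lab (TP.nn (nS w)) l ((smp D i θ nS kn w).1 l) w.1 (Function.update w.2.1 i (smp D i θ nS kn w).2)

open Classical in
/-- the hints: name and code list (public), label of the top `i + 2` at the vertex `i + 1`, label of the top `i + 1` at the
vertex `i + 2` -/
def Gh (J : Finset (Fin 3)) (w : Pt (Fin 3) X β φ × Unit) :
    Fin (M + 1) × (Option (List (Pt (Fin 3) X β φ)) × Option φ) :=
  if J = ∅ then (kn w.1, (gA h v p i (TP.nn (nS w.1)) (smp D i θ nS kn w.1).2 w.1, none))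
  else if J = {i + 1} then (0, (none, some (lbl tb i θ nS kn (i + 2) w.1)))
  else if J = {i + 2} then (0, (none, some (lbl tb i θ nS kn (i + 1) w.1)))
  else (0, (none, none))

end

end Pool.Agent.GMH.One
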