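import Pool.Agent.GMH.One3c
import Pool.Agent.GMH.Trf
import Pool.Agent.GMH.VVi
import Pool.Agent.GMH.MVS
import Pool.Agent.GMH.KDL3
import Pool.Agent.GMH.TopAct

/-!
# GMH/One4 (helper2): the dynamic term of OneOK (H3.MOV, M.7 (a)): transfer from the run to `one_sum`

* `Ck` : the public clock of H3.MOV, light public values, status of the vertex `i`, as `Clk`; `GamOK` in terms of `dn`:
  `end_dn`, `strt_dn`;
* `aO` : the top `i` is active in the joint step (for the true label); `aO_fac`, `aO_sum`;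
* `o1` of the removal against `Fn` of the start: `o1_tr`;
* **`one_dyn`** : the sum of the dynamic terms.
-/

set_option autoImplicit false
set_option linter.unusedSectionVars false

namespace Pool.Agent.GMH.One

open Finset Pool.Agent.PWZ Pool.Agent.M3 Pool.Agent.GM Pool.Agent.GM.Harm Pool.Agent.GMH Pool.Agent.GMH.NZ
open Pool.Agent.GMH.V3 Pool.Agent.GMH.TP Pool.Agent.GMH.Dy Pool.Agent.GMH.PayS Pool.Agent.GMH.MVI
open Pool.Agent.GMH.TD Pool.Agent.GMH.CK Pool.Agent.GMH.MV Pool.Agent.GMH.TRF Pool.Agent.GMH.UV Pool.Agent.GMH.KDL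
open Pool.Agent.GMH.VV

noncomputable section

variable {X β γ φ : Type} [Fintype X] [Fintype β] [Fintype φ] [Nonempty X] [Nonempty β]
variable {D : HD (Fin 3) X β γ φ} {al : ℝ} {h : D.Thick al} {v : ℕ → Finset (Fin 3) → X → (Fin 3 → β) → Pt (Fin 3) X β φ}
variable {dg : ℕ → X → ℝ} {prr : ℕ → Fin 3 → φ → φ} {T : ℕ} {Lam : ℝ} {W : Type} [Fintype W] (tb : Tab D prr T W)
variable {i : Fin 3}

/-! ## the clock -/

section clk

variable {M : US (Om W X β)}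

/-- what the clocks of `US` need -/
structure Sgt (D : HD (Fin 3) X β γ φ) (M : US (Om W X β)) (i : Fin 3) : Prop where
  n0 : ∀ s, Fac (sgt D ∅ (TP.nn s)) (M.NP s)
  n1 : ∀ s, Fac (sgt D {i} (TP.nn s)) (CN M.toMS i s)

/-- **the clock of H3.MOV** -/
def Ck (hS : Sgt D M i) : Clk D W i where
  nu := MV.nu M.toMS
  Rl := lt5 M.toMS M.NP
  Vs := hys M.toMS i
  nu0 := fun _ => rfl
  nuS := fun s w => stg_or s w
  nuF := fun s => (hS.n0 s).trans (nu_fac M.toMS s)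
  RlF := fun s a b e => lt5_eq M.toMS M.hN s (hS.n0 (s + 1) a b e)
  RlE := fun s w hw => stg_pos (Or.inl (by rw [Nat.add_sub_cancel]; exact hw))
  VsF := fun s => (hS.n1 s).trans (hys_fac M.toMS i s)

end clk

/-! ## densities of the status -/

/-- a rare event in an event of the class -/
theorem pr_ce_le {Ω κ : Type*} [Fintype Ω] (P : FP Ω) {Xc : Ω → κ} {E A L : Ω → Prop} (hE : Fac Xc E) {rho : ℝ}
    (h : ∀ w, P.p w ≠ 0 → E w → P.ce Xc (fun u => ind (A u)) w ≤ rho + ind (L w)) :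
    P.Pr (fun w => E w ∧ A w) ≤ rho * P.Pr E + P.Pr (fun w => E w ∧ L w) := by
  have hEf : Fac Xc (fun w => ind (E w)) := fun a b e => by
    show ind (E a) = ind (E b)
    rw [hE a b e]
  have h1 : P.Pr (fun w => E w ∧ A w) = P.E (fun w => ind (E w) * P.ce Xc (fun u => ind (A u)) w) := by
    rw [P.E_mul_ce hEf (fun u => ind (A u))]
    unfold FP.Pr
    exact P.E_congr fun w _ => ind_and (E w) (A w)
  rw [h1]
  unfold FP.Pr
  rw [← P.E_smul, ← P.E_add]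
  refine P.E_mono fun w hw => ?_
  rw [ind_and (E w) (L w)]
  by_cases hw' : E w
  · have := h w hw hw'
    rw [ind_of hw']
    linarith
  · rw [ind_not hw']
    simp

section dens

variable {hv : Codes D v} {d1 kb d0 k0 p1 z : ℝ} {hd1 : 0 < d1} {hd11 : d1 ≤ 1} {hkb : 0 < kb} {hd0 : 0 < d0}
  {hd01 : d0 ≤ 1} {hk0 : 0 < k0} {hp1 : 0 < p1} {hz : 0 < z}

/-- the run instance -/
theorem sgt_run (i : Fin 3) : Sgt D (USi tb hv d1 kb d0 k0 p1 z hd1 hd11 hkb hd0 hd01 hk0 hp1 hz) i where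
  n0 := fun s => MVIp.NPq_sgt tb hv le_rfl (nc_le s ∅) ∅ 0
  n1 := fun s a b e => by
    have h1 := MVIp.XLq_sgt tb hv (nc_le s {i}) (Finset.mem_singleton_self i) 0 a b e
    have h2 := MVIp.NPq_sgt tb hv (q := s) le_rfl (nc_le s ∅) {i} 0 a b e
    exact Prod.ext h1 h2

variable {M : US (Om W X β)}

/-- density of the status of the epoch of `q` -/
theorem dn_sts (hM : M = USi tb hv d1 kb d0 k0 p1 z hd1 hd11 hkb hd0 hd01 hk0 hp1 hz) (hS : Sgt D M i) {q s : ℕ}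
    (hq : q ≤ s) (w : Om W X β) : dn tb (Ck hS) (nu M.toMS q w) s w =
      M.P.ce (M.S ∅ s) (fun x => ind (sts M.toMS i q x)) w := by
  subst hM
  refine Gdy.ce_congr_on fun u _ hu => ?_
  have h1 : nu (USi tb hv d1 kb d0 k0 p1 z hd1 hd11 hkb hd0 hd01 hk0 hp1 hz).toMS q u =
      nu (USi tb hv d1 kb d0 k0 p1 z hd1 hd11 hkb hd0 hd01 hk0 hp1 hz).toMS q w := by
    refine (Ck hS).nuF q u w ?_
    obtain ⟨a, b, c⟩ := sgt_eq.1 hu
    exact sgt_eq.2 ⟨a, b, fun j => Dy.qb_mono (TP.nn_mono hq) (c j)⟩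
  show ind (hys _ i _ u) = ind (sts _ i q u)
  unfold sts
  rw [h1]

/-- **the status is sparse at the ends which are not removals** -/
theorem end_dn (hM : M = USi tb hv d1 kb d0 k0 p1 z hd1 hd11 hkb hd0 hd01 hk0 hp1 hz) (hS : Sgt D M i)
    {y0 rho : ℝ} {ld : ℕ → Om W X β → Prop} (G : GamOK M (5 * T) y0 rho ld) (hr : 0 ≤ rho) :
    ∑ q ∈ range (5 * T), tb.Ps.Pr (fun w => (nu M.toMS (q + 1) w = q + 1 ∨ q + 1 = 5 * T) ∧ ¬ lt5 M.toMS M.NP q w ∧
      y0 < dn tb (Ck hS) (nu M.toMS q w) (q + 1) w) ≤ RR M (5 * T) rho ld := by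
  subst hM
  set M := USi tb hv d1 kb d0 k0 p1 z hd1 hd11 hkb hd0 hd01 hk0 hp1 hz with hM
  have h1 : ∀ q ∈ range (5 * T), tb.Ps.Pr (fun w => (nu M.toMS (q + 1) w = q + 1 ∨ q + 1 = 5 * T) ∧
      ¬ lt5 M.toMS M.NP q w ∧ y0 < dn tb (Ck hS) (nu M.toMS q w) (q + 1) w) ≤
      rho * tb.Ps.Pr (fun w => Str.En (C0 M.toMS) (5 * T) q w) + tb.Ps.Pr (ld q) := by
    intro q hq
    have hq' := Finset.mem_range.1 hq
    have hE : Fac (M.NP (q + 1)) (fun w => (nu M.toMS (q + 1) w = q + 1 ∨ q + 1 = 5 * T) ∧ ¬ lt5 M.toMS M.NP q w) := by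
      intro a b e
      show (_ ∧ _) = (_ ∧ _)
      rw [nu_fac M.toMS (q + 1) a b e, lt5_eq M.toMS M.hN q e]
    have h2 := pr_ce_le tb.Ps (Xc := M.NP (q + 1)) (A := fun w => y0 ≤ M.P.ce (M.S ∅ (q + 1))
      (fun x => ind (sts M.toMS i q x)) w) (L := ld q) hE (rho := rho)
      (fun w hw hEw => G.ends i q hq' w hw hEw.2)
    refine le_trans (tb.Ps.Pr_mono fun w _ hh => ?_) (h2.trans (add_le_add (mul_le_mul_of_nonneg_left
      (tb.Ps.Pr_mono fun w _ hh => hh.1) hr) (tb.Ps.Pr_mono fun w _ hh => hh.2)))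
    refine ⟨⟨hh.1, hh.2.1⟩, ?_⟩
    have h3 := hh.2.2
    rw [dn_sts tb hM hS (Nat.le_succ q) w] at h3
    exact h3.le
  refine (Finset.sum_le_sum h1).trans ?_
  rw [Finset.sum_add_distrib, ← Finset.mul_sum]
  exact add_le_add (mul_le_mul_of_nonneg_left (sum_En (P := tb.Ps) (C := C0 M.toMS) (5 * T)) hr) le_rfl

/-- the number of the starts -/
theorem sum_starts (P : FP (Om W X β)) (M : MS (Om W X β)) (N : ℕ) : ∑ q ∈ range N, P.Pr (fun w => nu M q w = q) ≤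
    1 + ∑ s ∈ range N, P.Pr (fun w => nu M (s + 1) w = s + 1) := by
  rcases N with _ | N
  · simp
  · rw [Finset.sum_range_succ']
    have h1 := P.Pr_le_one (fun w => nu M 0 w = 0)
    have h2 : ∑ s ∈ range N, P.Pr (fun w => nu M (s + 1) w = s + 1) ≤
        ∑ s ∈ range (N + 1), P.Pr (fun w => nu M (s + 1) w = s + 1) :=
      Finset.sum_le_sum_of_subset_of_nonneg (Finset.range_subset_range.2 (Nat.le_succ N)) fun _ _ _ => P.Pr_nonneg _
    linarith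

/-- **the status is sparse at the starts** -/
theorem strt_dn (hM : M = USi tb hv d1 kb d0 k0 p1 z hd1 hd11 hkb hd0 hd01 hk0 hp1 hz) (hS : Sgt D M i)
    {y0 rho : ℝ} {ld : ℕ → Om W X β → Prop} (G : GamOK M (5 * T) y0 rho ld) (hr : 0 ≤ rho) :
    ∑ q ∈ range (5 * T), tb.Ps.Pr (fun w => nu M.toMS q w = q ∧ y0 ≤ dn tb (Ck hS) q q w) ≤ RR M (5 * T) rho ld := by
  subst hM
  set M := USi tb hv d1 kb d0 k0 p1 z hd1 hd11 hkb hd0 hd01 hk0 hp1 hz with hM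
  have h1 : ∀ q ∈ range (5 * T), tb.Ps.Pr (fun w => nu M.toMS q w = q ∧ y0 ≤ dn tb (Ck hS) q q w) ≤
      rho * tb.Ps.Pr (fun w => nu M.toMS q w = q) + tb.Ps.Pr (fun w => 0 < q ∧ ld (q - 1) w) := by
    intro q hq
    have hq' := Finset.mem_range.1 hq
    have hE : Fac (M.NP q) (fun w => nu M.toMS q w = q) := by
      intro a b e
      show (_ = _) = (_ = _)
      rw [nu_fac M.toMS q a b e]
    have h2 := pr_ce_le tb.Ps (Xc := M.NP q) (A := fun w => y0 ≤ M.P.ce (M.S ∅ q)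
      (fun x => ind (sts M.toMS i q x)) w) (L := fun w => 0 < q ∧ ld (q - 1) w) hE (rho := rho)
      (fun w hw hEw => G.strt i q hq' w hw hEw)
    refine le_trans (tb.Ps.Pr_mono fun w _ hh => ?_) (h2.trans (add_le_add le_rfl (tb.Ps.Pr_mono fun w _ hh => hh.2)))
    refine ⟨hh.1, ?_⟩
    have h3 := hh.2
    have h4 := dn_sts tb hM hS (le_refl q) w
    rw [hh.1] at h4
    rw [h4] at h3
    exact h3
  refine (Finset.sum_le_sum h1).trans ?_
  rw [Finset.sum_add_distrib, ← Finset.mul_sum]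
  refine add_le_add (mul_le_mul_of_nonneg_left (sum_starts tb.Ps M.toMS (5 * T)) hr) ?_
  rcases h5 : 5 * T with _ | N
  · simp
  · rw [Finset.sum_range_succ']
    have h2 : tb.Ps.Pr (fun w => 0 < 0 ∧ ld (0 - 1) w) = 0 := by
      unfold FP.Pr
      rw [← tb.Ps.E_const 0]
      exact tb.Ps.E_congr fun w _ => ind_not fun hh => absurd hh.1 (lt_irrefl 0)
    rw [h2, add_zero]
    refine le_trans (Finset.sum_le_sum fun s _ => tb.Ps.Pr_mono fun w _ hh => hh.2)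
      (Finset.sum_le_sum_of_subset_of_nonneg (Finset.range_subset_range.2 (Nat.le_succ N)) fun _ _ _ => tb.Ps.Pr_nonneg _)

end dens

/-! ## the active labels -/

section active

variable (h v i)

/-- the true label of the top `i` is active in the joint step of the time `t` -/
def aO (e : ℝ) (t : ℕ) (w : Om W X β) : Prop :=
  act (D.P h t) (ZbQ D v (5 * t + 1) i) (FQ v t i) (ZbQ D v (5 * t + 5) i) e (tb.pt t w) (FQ v t i (tb.pt t w))

open Classical in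
/-- the weight of the active labels in the step `q` -/
def gO (e : ℝ) (q : ℕ) (w : Om W X β) : ℝ := if q % 5 = 1 then ind (aO h v tb i e (q / 5) w) else 0

variable {h v i}

theorem nnt (t j : ℕ) (h1 : 1 ≤ j) (h5 : j ≤ 5) : TP.nn (5 * t + j) = t + 1 := by
  rw [TP.nn_add t j h5]
  unfold TP.nnj
  rw [if_neg (by omega)]

/-- what the top sees is seen by the other vertices and the cell -/
theorem top_Vo {t : ℕ} {a b : Om W X β} (h1 : Vo i a = Vo i b)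
    (h2 : D.qb (t + 1) (a.2.2 i) = D.qb (t + 1) (b.2.2 i)) :
    (AA (univ.erase i) (tb.pt t a), BB D (t + 1) (univ.erase i) (tb.pt t a)) =
      (AA (univ.erase i) (tb.pt t b), BB D (t + 1) (univ.erase i) (tb.pt t b)) := by
  obtain ⟨g1, g2⟩ := Prod.mk.inj h1
  obtain ⟨g3, g4⟩ := crd_eq.1 g2
  have g5 : ∀ j, j ≠ i → a.2.2 j = b.2.2 j := fun j hj => g4 j (by simp [hj])
  have g6 : ∀ j, D.qb (t + 1) (a.2.2 j) = D.qb (t + 1) (b.2.2 j) := by
    intro j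
    by_cases hj : j = i
    · rw [hj]
      exact h2
    · rw [g5 j hj]
  refine Prod.ext (AA_eq.2 ⟨g1, fun l hl => ?_⟩) (BB_eq.2 ⟨fun j hj => g5 j (Finset.ne_of_mem_erase hj), ?_, g6⟩)
  · have hli : l = i := by
      by_contra hne
      have : i ∈ univ.erase l := Finset.mem_erase.2 ⟨fun hh => hne hh.symm, mem_univ i⟩
      exact absurd (hl this) (by simp)
    subst hli
    show tb.lab t l (a.2.1 l) a.1 a.2.2 = tb.lab t l (b.2.1 l) b.1 b.2.2
    rw [g3 l (Finset.mem_singleton_self l), g1]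
    exact tb.dep t l _ _ _ _ (fun j hj => g5 j hj) (Dy.qb_mono (Nat.le_succ t) (g6 l))
  · show D.qa (t + 1) a.1 = D.qa (t + 1) b.1
    rw [g1]

theorem Zb_Vo (hv : Codes D v) {t j : ℕ} (hj1 : 1 ≤ j) (hj5 : j ≤ 5) {a b : Om W X β} (h1 : Vo i a = Vo i b)
    (h2 : D.qb (t + 1) (a.2.2 i) = D.qb (t + 1) (b.2.2 i)) :
    ZbQ D v (5 * t + j) i (tb.pt t a) = ZbQ D v (5 * t + j) i (tb.pt t b) := by
  have h3 := top_Vo tb h1 h2
  have h4 := nnt t j hj1 hj5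
  refine Prod.ext (lo_eq.2 fun I hI => ?_) ?_
  · have h5 := nc_le (5 * t + j) I
    exact LL_AA hv (s := t + 1) (by omega) hI.subset _ _ h3
  · show BB D (TP.nn (5 * t + j)) (univ.erase i) (tb.pt t a) = BB D (TP.nn (5 * t + j)) (univ.erase i) (tb.pt t b)
    rw [h4]
    exact (Prod.mk.inj h3).2

theorem FQ_Vo (hv : Codes D v) {t : ℕ} {a b : Om W X β} (h1 : Vo i a = Vo i b)
    (h2 : D.qb (t + 1) (a.2.2 i) = D.qb (t + 1) (b.2.2 i)) : FQ v t i (tb.pt t a) = FQ v t i (tb.pt t b) :=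
  LL_AA hv (s := t + 1) (n := t + 1) (by omega) (Finset.Subset.refl _) _ _ (top_Vo tb h1 h2)

theorem aO_fac (hv : Codes D v) (e : ℝ) (t : ℕ) :
    Fac (fun w : Om W X β => (Vo i w, D.qb (t + 1) (w.2.2 i))) (aO h v tb i e t) := by
  intro a b hab
  obtain ⟨h1, h2⟩ := Prod.mk.inj hab
  have e1 := Zb_Vo tb hv (j := 1) le_rfl (by norm_num) h1 h2
  have e5 := Zb_Vo tb hv (j := 5) (by norm_num) le_rfl h1 h2
  have eF := FQ_Vo tb hv (v := v) h1 h2
  unfold aO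
  rw [eF]
  exact act_fac (D.P h t) e _ _ _ (Prod.ext e5 e1)

theorem gO_fac (hv : Codes D v) (e : ℝ) (q : ℕ) :
    Fac (fun w : Om W X β => (Vo i w, D.qb (TP.nn (q + 1)) (w.2.2 i))) (gO h v tb i e q) := by
  intro a b hab
  unfold gO
  by_cases hq : q % 5 = 1
  · rw [if_pos hq, if_pos hq]
    have e1 : TP.nn (q + 1) = q / 5 + 1 := by
      have e2 : q + 1 = 5 * (q / 5) + 2 := by omega
      rw [e2]
      exact nnt _ 2 (by norm_num) (by norm_num)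
    have h3 : aO h v tb i e (q / 5) a = aO h v tb i e (q / 5) b := by
      refine aO_fac tb hv e (q / 5) a b ?_
      have h4 := Prod.mk.inj hab
      rw [e1] at h4
      exact Prod.ext h4.1 h4.2
    rw [h3]
  · rw [if_neg hq, if_neg hq]

theorem gO_nonneg (e : ℝ) (q : ℕ) (w : Om W X β) : 0 ≤ gO h v tb i e q w := by
  unfold gO
  split_ifs
  · exact ind_nonneg _
  · exact le_rfl

/-- **the number of the active labels** -/
theorem aO_sum (H : D.Hyp dg prr al T Lam) {n N1 : ℝ} (R : Run h (pr3 (Fin 3) n N1) (SS1 (Fin 3)) (AdmDep D) v)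
    (hn : 1 ≤ n) (hN1 : 1 ≤ N1) {e : ℝ} (he : 0 < e) (he1 : e ≤ 1) :
    ∑ t ∈ range T, tb.Ps.Pr (aO h v tb i e t) ≤ 240 * Lam / e ^ 2 := by
  have h1 := ga_real (h := h) (v := v) H R hn hN1 i he he1 (aw := fun _ _ _ => 1) (fun _ _ _ => le_rfl)
  refine le_trans (Finset.sum_le_sum fun t ht => ?_) h1
  have ht' := (Finset.mem_range.1 ht).le
  have h2 : tb.Ps.Pr (aO h v tb i e t) = (D.P h t).E (fun w => 1 * ind (e < |rS h v 1 t i w (FQ v t i w) - 1|)) := by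
    rw [← (pul_pt h tb ht').E]
    unfold FP.Pr
    refine tb.Ps.E_congr fun w hw => ?_
    have hpw := (pul_pt h tb ht').ne hw
    rw [one_mul, rS_eq h 1 t i hpw]
    unfold aO act
    rw [pv_qe h (v := v) (show 5 * t + 1 ≤ 5 * t + 5 by omega) i]
    rfl
  rw [h2]
  exact Finset.single_le_sum (f := fun s => (D.P h t).E (fun w => (1 : ℝ) * ind (e < |rS h v s t i w (FQ v t i w) - 1|)))
    (fun s _ => (D.P h t).E_nonneg fun w _ => mul_nonneg zero_le_one (ind_nonneg _)) (mem_univ 1)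

end active

/-! ## the value at the removal against the function of the start -/

theorem Lst_le {Ω : Type} [Fintype Ω] (M : MS Ω) {ν k l : ℕ} (hkl : k ≤ l) {w : Ω} (hh : Lst M ν k w) : Lst M ν l w := by
  rcases hh with h1 | ⟨c, j, a, b, d⟩ | ⟨c, a, j, b, d, e⟩
  · exact Or.inl (Evm_mono hkl h1)
  · exact Or.inr (Or.inl ⟨c, j, a, b.trans hkl, d⟩)
  · exact Or.inr (Or.inr ⟨c, a, j, b, d.trans hkl, e⟩)

section tr

variable {d1 kb d0 k0 p1 z : ℝ} (hd1 : 0 < d1) (hd11 : d1 ≤ 1) (hkb : 0 < kb) (hd0 : 0 < d0) (hd01 : d0 ≤ 1) (hk0 : 0 < k0)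
  (hp1 : 0 < p1) (hz : 0 < z)
variable {n N1 : ℝ} {p : AP}

/-- bounds -/
theorem o1_le (H : D.Hyp dg prr al T Lam) (R : Run h (pr3 (Fin 3) n N1) (SS1 (Fin 3)) (AdmDep D) v)
    (hn : 1 ≤ n) (hN1 : 1 ≤ N1) {q : ℕ} (hq : q / 5 ≤ T) {w : Om W X β} (hw : tb.Ps.p w ≠ 0) :
    o1 (MSi tb (v := v) d1 kb d0 k0 p1 z hd1 hd11 hkb hd0 hd01 hk0 hp1 hz) i q w ≤ Lam := by
  rw [← one_lt tb hd1 hd11 hkb hd0 hd01 hk0 hp1 hz H R hS3 hu3 (hN3 hn hN1) hq i hw]
  have hp := (pul_pt h tb hq).ne hw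
  have hL : Real.log (1 / al) ≤ Lam := TT.log_al H h.pos
  have h1 := sp_Zb_le H R hS3 hu3 (hN3 hn hN1) hq (Nat.mul_div_le q 5) i hp
  have h4 := sp_nonneg (D.P h (q / 5)) (FQ v (q / 5) i) (fun u => (tup (Fo (FQ v (q / 5)) i) u, ZQ D v q u)) hp
  have e2 : Real.log ((D.P h (q / 5)).pv (fun u => (tup (Fo (FQ v (q / 5)) i) u, ZQ D v q u)) (FQ v (q / 5) i)
        (tb.pt (q / 5) w) (FQ v (q / 5) i (tb.pt (q / 5) w)) /
      (D.P h (q / 5)).pv (ZbQ D v q i) (FQ v (q / 5) i) (tb.pt (q / 5) w) (FQ v (q / 5) i (tb.pt (q / 5) w))) =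
      sp (D.P h (q / 5)) (FQ v (q / 5) i) (ZbQ D v q i) (tb.pt (q / 5) w) -
        sp (D.P h (q / 5)) (FQ v (q / 5) i) (fun u => (tup (Fo (FQ v (q / 5)) i) u, ZQ D v q u)) (tb.pt (q / 5) w) :=
    log_ratio_sp (D.P h (q / 5)) hp
  rw [e2]
  linarith

/-- **removal against start** -/
theorem o1_tr (H : D.Hyp dg prr al T Lam) (R : Run h (pr3 (Fin 3) n N1) (SS1 (Fin 3)) (AdmDep D) v)
    (hn : 1 ≤ n) (hN1 : 1 ≤ N1) {t : ℕ} (ht : t < T) {m : ℕ} (hm : m ≤ 5 * t) {w : Om W X β} (hw : tb.Ps.p w ≠ 0)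
    (hL : ¬ Lst (MSi tb (v := v) d1 kb d0 k0 p1 z hd1 hd11 hkb hd0 hd01 hk0 hp1 hz) m (5 * t + 1) w)
    (hA : Ar h v p (2 * t + 1) (tb.pt t w)) :
    |o1 (MSi tb (v := v) d1 kb d0 k0 p1 z hd1 hd11 hkb hd0 hd01 hk0 hp1 hz) i (5 * t + 1) w -
      Fn h v Lam tb p i m w| ≤ 24 * d0 := by
  set s := TP.nn m with hs
  have hst : s ≤ t := nn_iff.2 hm
  have hms : m ≤ 5 * s := nn_iff.1 le_rfl
  have hsT : s ≤ T := by omega
  rw [Fn_eq H R hn hN1 (m := m) hsT hw]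
  have h1 : Ar h v p (2 * s) (tb.pt s w) := by
    have h2 := Ar_mono h p (show 2 * s ≤ 2 * t + 1 by omega) hA
    exact (Ar_lab h p (2 * s) w.1 w.2.2 _ _).1 h2
  have h3 : Fq h v p i s (tb.pt s w) =
      o1 (MSi tb (v := v) d1 kb d0 k0 p1 z hd1 hd11 hkb hd0 hd01 hk0 hp1 hz) i (5 * s) w := by
    unfold Fq
    rw [ind_of h1, one_mul]
    have h4 : 5 * s / 5 = s := by omega
    have h5 := one_lt tb hd1 hd11 hkb hd0 hd01 hk0 hp1 hz H R hS3 hu3 (hN3 hn hN1) (q := 5 * s) (by omega) i hw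
    rw [h4] at h5
    exact h5
  rw [← hs, h3]
  have h6 := o1_pub (M := MSi tb (v := v) d1 kb d0 k0 p1 z hd1 hd11 hkb hd0 hd01 hk0 hp1 hz) i hms hw
    (fun hh => hL (Lst_le _ (by omega) hh))
  have h7 := o1_pub (M := MSi tb (v := v) d1 kb d0 k0 p1 z hd1 hd11 hkb hd0 hd01 hk0 hp1 hz) i
    (show m ≤ 5 * t + 1 by omega) hw hL
  have h8 : (MSi tb (v := v) d1 kb d0 k0 p1 z hd1 hd11 hkb hd0 hd01 hk0 hp1 hz).d0 = d0 := rfl
  rw [h8] at h6 h7
  rw [abs_le] at h6 h7 ⊢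
  constructor <;> linarith [h6.1, h6.2, h7.1, h7.2]

end tr

/-! ## dead in the epoch -/

section dd

variable (h v)

/-- the point dies in the epoch which ends in the joint step of the time `t` -/
def DDq (p : AP) (C : Clk D W i) (t : ℕ) (w : Om W X β) : Prop :=
  C.Rl (5 * t + 1) w ∧ ¬ Ar h v p (2 * t + 1) (tb.pt t w) ∧
    Ar h v p (2 * TP.nn (C.nu (5 * t + 1) w)) (tb.pt (TP.nn (C.nu (5 * t + 1) w)) w)

variable {h v}

/-- **a point dies once** -/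
theorem dd_le (p : AP) (C : Clk D W i) (w : Om W X β) :
    ∑ t ∈ range T, ind (DDq h v tb p C t w) ≤ ind (¬ Ar h v p (2 * T) (tb.pt T w)) := by
  classical
  by_cases h0 : Ar h v p (2 * T) (tb.pt T w)
  · rw [Finset.sum_eq_zero fun t ht => ?_]
    · exact ind_nonneg _
    · refine ind_not fun hh => hh.2.1 ?_
      have ht' := Finset.mem_range.1 ht
      have h2 := Ar_mono h p (show 2 * t + 1 ≤ 2 * T by omega) h0
      exact (Ar_lab h p (2 * t + 1) w.1 w.2.2 _ _).1 h2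
  · rw [ind_of h0]
    have key : ∀ t t', t < t' → DDq h v tb p C t w → DDq h v tb p C t' w → False := by
      intro t t' htt h1 h2
      have h3 := C.RlE (5 * t + 1) w h1.1
      have h4 := C.nu_mono (s := 5 * t + 1 + 1) (s' := 5 * t' + 1) (by omega) w
      rw [h3] at h4
      have h5 := TP.nn_mono h4
      rw [show 5 * t + 1 + 1 = 5 * t + 2 by omega, nnt t 2 (by norm_num) (by norm_num)] at h5
      have h6 := Ar_mono h p (show 2 * t + 1 ≤ 2 * TP.nn (C.nu (5 * t' + 1) w) by omega) h2.2.2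
      exact h1.2.1 ((Ar_lab h p (2 * t + 1) w.1 w.2.2 _ _).1 h6)
    by_cases h1 : ∃ t ∈ range T, DDq h v tb p C t w
    · obtain ⟨t, ht, h2⟩ := h1
      rw [Finset.sum_eq_single t, ind_of h2]
      · intro t' _ hne
        refine ind_not fun h3 => ?_
        rcases Nat.lt_or_gt_of_ne hne with h4 | h4
        · exact key t' t h4 h3 h2
        · exact key t t' h4 h2 h3
      · exact fun hh => absurd ht hh
    · push Not at h1
      rw [Finset.sum_eq_zero fun t ht => ind_not (h1 t ht)]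
      exact zero_le_one

/-- in the mean -/
theorem dd_sum (p : AP) (C : Clk D W i) : ∑ t ∈ range T, tb.Ps.Pr (DDq h v tb p C t) ≤
    (D.P h T).Pr (fun w => ¬ Ar h v p (2 * T) w) := by
  have h1 : (D.P h T).Pr (fun w => ¬ Ar h v p (2 * T) w) = tb.Ps.Pr (fun w => ¬ Ar h v p (2 * T) (tb.pt T w)) := by
    unfold FP.Pr
    rw [← (pul_pt h tb le_rfl).E]
  rw [h1]
  unfold FP.Pr
  rw [← FP.E_sum]
  exact tb.Ps.E_mono fun w _ => dd_le tb p C w

end dd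

/-! ## one point -/

section dyn

variable {hv : Codes D v} {d1 kb d0 k0 p1 z : ℝ} {hd1 : 0 < d1} {hd11 : d1 ≤ 1} {hkb : 0 < kb} {hd0 : 0 < d0}
  {hd01 : d0 ≤ 1} {hk0 : 0 < k0} {hp1 : 0 < p1} {hz : 0 < z}
variable {n N1 : ℝ} {p : AP} {M : US (Om W X β)}

theorem Fn_bd (p : AP) (m : ℕ) (w : Om W X β) (hL : 0 ≤ Lam) :
    - (3 * Lam) ≤ Fn h v Lam tb p i m w ∧ Fn h v Lam tb p i m w ≤ Lam := by
  unfold Fn
  refine ⟨le_max_left _ _, max_le (by linarith) (min_le_left _ _)⟩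

/-- the released part at one point of the step -/
theorem pt_le (H : D.Hyp dg prr al T Lam) (R : Run h (pr3 (Fin 3) n N1) (SS1 (Fin 3)) (AdmDep D) v)
    (hn : 1 ≤ n) (hN1 : 1 ≤ N1) (hM : M = USi tb hv d1 kb d0 k0 p1 z hd1 hd11 hkb hd0 hd01 hk0 hp1 hz) (hS : Sgt D M i)
    {A : Pt (Fin 3) X β φ → Prop} {u : ℝ} {t : ℕ} (ht : t < T) {w : Om W X β} (hw : tb.Ps.p w ≠ 0)
    (a1 : A (tb.pt t w) → Ar h v p (2 * t + 1) (tb.pt t w) ∧ ¬ HV h v t (tb.pt t w) ∧ sts M.toMS i (5 * t + 1) w)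
    (a2 : Ar h v p (2 * t + 1) (tb.pt t w) → ¬ HV h v t (tb.pt t w) → sts M.toMS i (5 * t + 1) w →
      (∀ j, j ≠ i → ¬ sts M.toMS j (5 * t + 1) w) → A (tb.pt t w)) :
    ind (A (tb.pt t w) ∧ scq tb (Ck hS) u (5 * t + 1) w) * max (o1 M.toMS i (5 * t + 1) w) (-(3 * Lam)) ≤
      ind ((Ck hS).Rl (5 * t + 1) w ∧ (Ck hS).Vs ((Ck hS).nu (5 * t + 1) w) w ∧ scq tb (Ck hS) u (5 * t + 1) w) *
        Fn h v Lam tb p i ((Ck hS).nu (5 * t + 1) w) w +
      24 * d0 * ind (lt5 M.toMS M.NP (5 * t + 1) w ∧ sts M.toMS i (5 * t + 1) w) +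
      4 * Lam * ind (lt5 M.toMS M.NP (5 * t + 1) w ∧ sts M.toMS i (5 * t + 1) w ∧
        Lst M.toMS (nu M.toMS (5 * t + 1) w) (5 * t + 1) w) +
      4 * Lam * ind (nu M.toMS (5 * t + 1) w = 5 * t + 1 ∧ u / 2 ≤ dn tb (Ck hS) (5 * t + 1) (5 * t + 1) w) +
      3 * Lam * ind (DDq h v tb p (Ck hS) t w) +
      3 * Lam * ∑ j ∈ univ.erase i, ind (lt5 M.toMS M.NP (5 * t + 1) w ∧ sts M.toMS i (5 * t + 1) w ∧
        sts M.toMS j (5 * t + 1) w) := by
  subst hM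
  set M := USi tb hv d1 kb d0 k0 p1 z hd1 hd11 hkb hd0 hd01 hk0 hp1 hz with hM
  have hL1 := H.Lam1
  have hL : 0 ≤ Lam := by linarith
  obtain ⟨hF1, hF2⟩ := Fn_bd (h := h) (v := v) (i := i) tb p ((Ck hS).nu (5 * t + 1) w) w hL
  have hRl : lt5 M.toMS M.NP (5 * t + 1) w ↔ ¬ HV h v t (tb.pt t w) := ltN_pt h tb v ht.le w
  set q := 5 * t + 1 with hq
  have n1 := ind_nonneg (lt5 M.toMS M.NP q w ∧ sts M.toMS i q w)
  have n2 := ind_nonneg (lt5 M.toMS M.NP q w ∧ sts M.toMS i q w ∧ Lst M.toMS (nu M.toMS q w) q w)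
  have n3 := ind_nonneg (nu M.toMS q w = q ∧ u / 2 ≤ dn tb (Ck hS) q q w)
  have n4 := ind_nonneg (DDq h v tb p (Ck hS) t w)
  have n5 : ∀ j, 0 ≤ ind (lt5 M.toMS M.NP q w ∧ sts M.toMS i q w ∧ sts M.toMS j q w) := fun j => ind_nonneg _
  have n6 : 0 ≤ ∑ j ∈ univ.erase i, ind (lt5 M.toMS M.NP q w ∧ sts M.toMS i q w ∧ sts M.toMS j q w) :=
    Finset.sum_nonneg fun j _ => n5 j
  have p1' : 0 ≤ 24 * d0 * ind (lt5 M.toMS M.NP q w ∧ sts M.toMS i q w) := by positivity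
  have p2' : 0 ≤ 4 * Lam * ind (lt5 M.toMS M.NP q w ∧ sts M.toMS i q w ∧ Lst M.toMS (nu M.toMS q w) q w) := by positivity
  have p3' : 0 ≤ 4 * Lam * ind (nu M.toMS q w = q ∧ u / 2 ≤ dn tb (Ck hS) q q w) := by positivity
  have p4' : 0 ≤ 3 * Lam * ind (DDq h v tb p (Ck hS) t w) := by positivity
  have p5' : 0 ≤ 3 * Lam * ∑ j ∈ univ.erase i, ind (lt5 M.toMS M.NP q w ∧ sts M.toMS i q w ∧ sts M.toMS j q w) := by
    positivity
  by_cases hs : (Ck hS).Rl q w ∧ (Ck hS).Vs ((Ck hS).nu q w) w ∧ scq tb (Ck hS) u q w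
  · rw [ind_of hs, one_mul]
    have hR : lt5 M.toMS M.NP q w := hs.1
    have hV : sts M.toMS i q w := hs.2.1
    by_cases hA : A (tb.pt t w)
    · rw [ind_of (show A (tb.pt t w) ∧ scq tb (Ck hS) u q w from ⟨hA, hs.2.2⟩), one_mul]
      have e1 : ind (lt5 M.toMS M.NP q w ∧ sts M.toMS i q w) = 1 := ind_of ⟨hR, hV⟩
      rw [e1] at p1' ⊢
      have hob : o1 M.toMS i q w ≤ Lam :=
        o1_le tb hd1 hd11 hkb hd0 hd01 hk0 hp1 hz H R hn hN1 (q := q) (by omega) hw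
      have hmx : max (o1 M.toMS i q w) (-(3 * Lam)) ≤ Lam := max_le hob (by linarith)
      rcases Nat.lt_or_ge ((Ck hS).nu q w) q with h1 | h1
      · by_cases h2 : Lst M.toMS (nu M.toMS q w) q w
        · have e2 : ind (lt5 M.toMS M.NP q w ∧ sts M.toMS i q w ∧ Lst M.toMS (nu M.toMS q w) q w) = 1 :=
            ind_of ⟨hR, hV, h2⟩
          rw [e2]
          linarith
        · have h3 := o1_tr tb hd1 hd11 hkb hd0 hd01 hk0 hp1 hz H R hn hN1 (i := i) (p := p) ht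
            (m := (Ck hS).nu q w) (by omega) hw h2 (a1 hA).1
          have h4 := (abs_le.1 h3).2
          have h5 : max (o1 M.toMS i q w) (-(3 * Lam)) ≤ Fn h v Lam tb p i ((Ck hS).nu q w) w + 24 * d0 := by
            refine max_le ?_ ?_
            · have h6 : o1 M.toMS i q w - Fn h v Lam tb p i ((Ck hS).nu q w) w ≤ 24 * d0 := h4
              linarith
            · linarith
          linarith
      · have h2 : (Ck hS).nu q w = q := le_antisymm ((Ck hS).nu_le q w) h1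
        have h3 : u / 2 ≤ dn tb (Ck hS) q q w := by
          obtain ⟨s, b1, b2, b3⟩ := hs.2.2
          rw [h2] at b1 b3
          have e4 : dn tb (Ck hS) q s w = dn tb (Ck hS) q q w := by
            have e5 : TP.nn s = TP.nn q := by
              rcases Nat.eq_or_lt_of_le b1 with e6 | e6
              · rw [← e6]
              · have e7 : s = 5 * t + 2 := by omega
                rw [e7, hq, nnt t 2 (by norm_num) (by norm_num), nnt t 1 (by norm_num) (by norm_num)]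
            unfold dn
            rw [e5]
          rw [← e4]
          exact b3
        have e2 : ind (nu M.toMS q w = q ∧ u / 2 ≤ dn tb (Ck hS) q q w) = 1 := ind_of ⟨h2, h3⟩
        rw [e2]
        linarith
    · rw [ind_not (fun hh : A (tb.pt t w) ∧ scq tb (Ck hS) u q w => hA hh.1), zero_mul]
      by_cases h1 : ∃ j, j ≠ i ∧ sts M.toMS j q w
      · obtain ⟨j, h2, h3⟩ := h1
        have h4 : 1 ≤ ∑ j ∈ univ.erase i, ind (lt5 M.toMS M.NP q w ∧ sts M.toMS i q w ∧ sts M.toMS j q w) := by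
          refine le_trans (le_of_eq ?_) (Finset.single_le_sum (f := fun j => ind (lt5 M.toMS M.NP q w ∧ sts M.toMS i q w ∧
            sts M.toMS j q w)) (fun j _ => n5 j) (Finset.mem_erase.2 ⟨h2, mem_univ j⟩))
          exact (ind_of ⟨hR, hV, h3⟩).symm
        nlinarith
      · push Not at h1
        by_cases h2 : Ar h v p (2 * t + 1) (tb.pt t w)
        · exact absurd (a2 h2 (hRl.1 hR) hV h1) hA
        · by_cases h3 : Ar h v p (2 * TP.nn ((Ck hS).nu q w)) (tb.pt (TP.nn ((Ck hS).nu q w)) w)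
          · have e2 : ind (DDq h v tb p (Ck hS) t w) = 1 := ind_of ⟨hR, h2, h3⟩
            rw [e2]
            linarith
          · have h4 : Fn h v Lam tb p i ((Ck hS).nu q w) w = 0 := by
              unfold Fn Fq
              rw [ind_not h3, zero_mul, min_eq_right hL, max_eq_right (by linarith)]
            rw [h4]
            linarith
  · rw [ind_not hs, zero_mul]
    have h1 : ¬ (A (tb.pt t w) ∧ scq tb (Ck hS) u q w) := fun hh =>
      hs ⟨hRl.2 (a1 hh.1).2.1, (a1 hh.1).2.2, hh.2⟩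
    rw [ind_not h1, zero_mul]
    linarith

/-! ## the sum -/

/-- sums over the joint steps -/
theorem sum_5 {f : ℕ → ℝ} (f0 : ∀ q, 0 ≤ f q) (T : ℕ) : ∑ t ∈ range T, f (5 * t + 1) ≤ ∑ q ∈ range (5 * T), f q := by
  rw [sum_five]
  refine Finset.sum_le_sum fun t _ => ?_
  have h0 := f0 (5 * t)
  have h2 := f0 (5 * t + 2)
  have h3 := f0 (5 * t + 3)
  have h4 := f0 (5 * t + 4)
  linarith

theorem sum_51 {f : ℕ → ℝ} (f0 : ∀ q, q % 5 ≠ 1 → f q = 0) (T : ℕ) : ∑ q ∈ range (5 * T), f q = ∑ t ∈ range T, f (5 * t + 1) := by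
  rw [sum_five]
  refine Finset.sum_congr rfl fun t _ => ?_
  rw [f0 (5 * t) (by omega), f0 (5 * t + 2) (by omega), f0 (5 * t + 3) (by omega), f0 (5 * t + 4) (by omega)]
  ring

/-- the light public values are in the joint steps -/
theorem Rl_mod (hM : M = USi tb hv d1 kb d0 k0 p1 z hd1 hd11 hkb hd0 hd01 hk0 hp1 hz) (hS : Sgt D M i) {q : ℕ}
    {w : Om W X β} (hr : (Ck hS).Rl q w) : q % 5 = 1 := by
  subst hM
  have h1 : q % 5 ≠ 0 := hr.1
  have h2 : 2 * tb.Ps.m (NPo tb v (q + 1)) w < tb.Ps.m (NPo tb v q) w := hr.2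
  by_contra h3
  have h4 : NPo tb v (q + 1) = NPo tb v q := by
    funext u
    rw [NPo_pt tb v (q + 1) 0 u, NPo_pt tb v q 0 u, NPq_code (v := v) (D := D) (show 2 ≤ q % 5 by omega)]
  rw [h4] at h2
  have := tb.Ps.m_nonneg (NPo tb v q) w
  linarith

/-- what sees the bit -/
theorem scq_fac (C : Clk D W i) (u : ℝ) (q : ℕ) : Fac (sgt D ∅ (TP.nn (q + 1))) (scq tb C u q) := by
  intro a b e
  have e' := sgt_eq.1 e
  have h0 : ∀ s ≤ q + 1, sgt D ∅ (TP.nn s) a = sgt D ∅ (TP.nn s) b := fun s hs =>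
    sgt_eq.2 ⟨e'.1, e'.2.1, fun j => Dy.qb_mono (TP.nn_mono hs) (e'.2.2 j)⟩
  have h1 : C.nu q a = C.nu q b := C.nuF q a b (h0 q (Nat.le_succ q))
  unfold scq
  rw [h1]
  refine propext (exists_congr fun s => and_congr_right fun _ => and_congr_right fun hs => ?_)
  have h2 : dn tb C (C.nu q b) s a = dn tb C (C.nu q b) s b := tb.Ps.ce_fac _ _ a b (h0 s hs)
  rw [h2]

/-- one step on the table space -/
theorem step_dy (H : D.Hyp dg prr al T Lam) (R : Run h (pr3 (Fin 3) n N1) (SS1 (Fin 3)) (AdmDep D) v)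
    (hn : 1 ≤ n) (hN1 : 1 ≤ N1) (hM : M = USi tb hv d1 kb d0 k0 p1 z hd1 hd11 hkb hd0 hd01 hk0 hp1 hz) (hS : Sgt D M i)
    {A : Pt (Fin 3) X β φ → Prop} {u e eta : ℝ} (heta : 0 < eta) (heta1 : eta ≤ 1) {t : ℕ} (ht : t < T) :
    Dy1 h v 1 t i A (fun (_ : Unit) _ _ => True) (fun _ => lft (scq tb (Ck hS) u (5 * t + 1)))
      (fun w f => ind (act (D.P h t) (ZbQ D v (5 * t + 1) i) (FQ v t i) (ZbQ D v (5 * t + 5) i) e w (f ()))) eta (3 * Lam) ≤
      tb.Ps.E (fun w => ind (A (tb.pt t w) ∧ scq tb (Ck hS) u (5 * t + 1) w) *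
        max (o1 M.toMS i (5 * t + 1) w) (-(3 * Lam))) +
      (Lam + Real.log (1 / eta)) * tb.Ps.Pr (fun w => (A (tb.pt t w) ∧ ¬ scq tb (Ck hS) u (5 * t + 1) w) ∧
        aO h v tb i e t w) := by
  subst hM
  set M := USi tb hv d1 kb d0 k0 p1 z hd1 hd11 hkb hd0 hd01 hk0 hp1 hz with hM
  have hL1 := H.Lam1
  have hL0 : 0 ≤ Lam := by linarith
  have hlog : Real.log (1 / al) ≤ Lam := TT.log_al H h.pos
  have h1 := dy_le (D.P h t) (Z := Z1 D v 1 t i) (Zb := ZbQ D v (5 * t + 1) i) (F := FQ v t i) (Y := ZbQ D v (5 * t + 5) i)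
    (A := A) (bit := fun _ => lft (scq tb (Ck hS) u (5 * t + 1))) (e := e) (K := 3 * Lam) (L := Lam) heta heta1 hL0
    (fun w hw => by
      rw [psC_unit]
      have e1 : Real.log ((D.P h t).pv (Z1 D v 1 t i) (FQ v t i) w (FQ v t i w) /
          (D.P h t).pv (ZbQ D v (5 * t + 1) i) (FQ v t i) w (FQ v t i w)) =
          sp (D.P h t) (FQ v t i) (ZbQ D v (5 * t + 1) i) w - sp (D.P h t) (FQ v t i) (Z1 D v 1 t i) w :=
        log_ratio_sp (D.P h t) hw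
      have e2 : (tup (fun _ : Unit => FQ v t i) w) () = FQ v t i w := rfl
      rw [e2, e1]
      have h2 := sp_Zb_le H R hS3 hu3 (hN3 hn hN1) ht.le (show 5 * t ≤ 5 * t + 1 by omega) i hw
      have h3 := sp_nonneg (D.P h t) (FQ v t i) (Z1 D v 1 t i) hw
      linarith)
  have hps : Pos (scq tb (Ck hS) u (5 * t + 1)) := pos_of (scq_fac tb (Ck hS) u (5 * t + 1))
  have e1 : (D.P h t).E (fun w => ind (A w ∧ lft (scq tb (Ck hS) u (5 * t + 1)) w) *
      max (Real.log ((D.P h t).pv (Z1 D v 1 t i) (FQ v t i) w (FQ v t i w) /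
        (D.P h t).pv (ZbQ D v (5 * t + 1) i) (FQ v t i) w (FQ v t i w))) (-(3 * Lam))) =
      tb.Ps.E (fun w => ind (A (tb.pt t w) ∧ scq tb (Ck hS) u (5 * t + 1) w) *
        max (o1 M.toMS i (5 * t + 1) w) (-(3 * Lam))) := by
    rw [← (pul_pt h tb ht.le).E]
    refine tb.Ps.E_congr fun w hw => ?_
    have h4 := one_lt tb hd1 hd11 hkb hd0 hd01 hk0 hp1 hz H R hS3 hu3 (hN3 hn hN1) (q := 5 * t + 1) (by omega) i hw
    rw [show (5 * t + 1) / 5 = t by omega] at h4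
    have h5 : Real.log ((D.P h t).pv (Z1 D v 1 t i) (FQ v t i) (tb.pt t w) (FQ v t i (tb.pt t w)) /
        (D.P h t).pv (ZbQ D v (5 * t + 1) i) (FQ v t i) (tb.pt t w) (FQ v t i (tb.pt t w))) =
        o1 M.toMS i (5 * t + 1) w := h4
    rw [h5, propext (lft_pt hps t w)]
  have e2 : (D.P h t).Pr (fun w => (A w ∧ ¬ lft (scq tb (Ck hS) u (5 * t + 1)) w) ∧
      act (D.P h t) (ZbQ D v (5 * t + 1) i) (FQ v t i) (ZbQ D v (5 * t + 5) i) e w (FQ v t i w)) =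
      tb.Ps.Pr (fun w => (A (tb.pt t w) ∧ ¬ scq tb (Ck hS) u (5 * t + 1) w) ∧ aO h v tb i e t w) := by
    unfold FP.Pr
    rw [← (pul_pt h tb ht.le).E]
    refine tb.Ps.E_congr fun w _ => congrArg ind (propext ?_)
    show ((A (tb.pt t w) ∧ ¬ lft (scq tb (Ck hS) u (5 * t + 1)) (tb.pt t w)) ∧ _) ↔ _
    rw [lft_pt hps t w]
    exact Iff.rfl
  rw [← e1, ← e2]
  exact h1

/-- **THE DYNAMIC TERM OF ONE** -/
theorem one_dyn (H : D.Hyp dg prr al T Lam) (R : Run h (pr3 (Fin 3) n N1) (SS1 (Fin 3)) (AdmDep D) v)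
    (hn : 1 ≤ n) (hN1 : 1 ≤ N1) (hM : M = USi tb hv d1 kb d0 k0 p1 z hd1 hd11 hkb hd0 hd01 hk0 hp1 hz) (hS : Sgt D M i)
    {A : ℕ → Pt (Fin 3) X β φ → Prop} {u e eta lam y0 rho th : ℝ} (he : 0 < e) (he1 : e ≤ 1) (heta : 0 < eta)
    (heta1 : eta ≤ 1) (hlam : 0 < lam) (hu : 0 < u) (hy0 : 0 ≤ y0) (hy : y0 ≤ u / 4)
    {ld : ℕ → Om W X β → Prop} (G : GamOK M (5 * T) y0 rho ld) (hr : 0 ≤ rho)
    (a1 : ∀ t < T, ∀ w, tb.Ps.p w ≠ 0 → A t (tb.pt t w) → Ar h v p (2 * t + 1) (tb.pt t w) ∧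
      ¬ HV h v t (tb.pt t w) ∧ sts M.toMS i (5 * t + 1) w)
    (a2 : ∀ t < T, ∀ w, tb.Ps.p w ≠ 0 → Ar h v p (2 * t + 1) (tb.pt t w) → ¬ HV h v t (tb.pt t w) →
      sts M.toMS i (5 * t + 1) w → (∀ j, j ≠ i → ¬ sts M.toMS j (5 * t + 1) w) → A t (tb.pt t w))
    (hth : 0 < th) (hth1 : th ≤ 1) (Mn : ℕ)
    (hc : 2 / lam * (4 * (Real.log (1 / th) + 1) + 2 * cG p Mn N1 al) ≤ n * N1 / 2) {GV LS VV S0 Rr Pd : ℝ}
    (hGV : ∑ q ∈ range (5 * T), tb.Ps.Pr (fun w => lt5 M.toMS M.NP q w ∧ sts M.toMS i q w) ≤ GV)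
    (hLS : ∑ t ∈ range T, tb.Ps.Pr (fun w => lt5 M.toMS M.NP (5 * t + 1) w ∧ sts M.toMS i (5 * t + 1) w ∧
      Lst M.toMS (nu M.toMS (5 * t + 1) w) (5 * t + 1) w) ≤ LS)
    (hVV : ∀ j, j ≠ i → ∑ q ∈ range (5 * T), tb.Ps.Pr (fun w => lt5 M.toMS M.NP q w ∧ sts M.toMS i q w ∧
      sts M.toMS j q w) ≤ VV)
    (hS0 : ∑ q ∈ range (5 * T), tb.Ps.Pr (fun w => nu M.toMS q w = q) ≤ S0) (hRr : RR M (5 * T) rho ld ≤ Rr)
    (hPd : (D.P h T).Pr (fun w => ¬ Ar h v p (2 * T) w) ≤ Pd) :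
    ∑ t ∈ range T, Dy1 h v 1 t i (A t) (fun (_ : Unit) _ _ => True) (fun _ => lft (scq tb (Ck hS) u (5 * t + 1)))
      (fun w f => ind (act (D.P h t) (ZbQ D v (5 * t + 1) i) (FQ v t i) (ZbQ D v (5 * t + 5) i) e w (f ()))) eta (3 * Lam) ≤
      24 * d0 * GV + 4 * Lam * LS + 4 * Lam * Rr + 3 * Lam * Pd + 3 * Lam * (2 * VV) +
      ((Lam + Real.log (1 / eta)) * (u / 2) * (240 * Lam / e ^ 2) + (lam + (lam + 3 * Lam) * (4 * y0 / u)) * GV +
        2 * (lam + 3 * Lam) * Rr +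
        (Lam + Real.log (1 / eta)) * (2 * u / lam) * (2 * Lam + 12 * Real.sqrt th * (1 + S0)) +
        (Lam + Real.log (1 / eta)) * (4 * Real.sqrt th / lam * S0) + (Lam + Real.log (1 / eta)) / ((Mn : ℝ) + 2) * S0) := by
  classical
  have hL1 := H.Lam1
  have hL0 : 0 ≤ Lam := by linarith
  have hle : 0 ≤ Real.log (1 / eta) := Real.log_nonneg (by rw [le_div_iff₀ heta, one_mul]; exact heta1)
  set Lp := Lam + Real.log (1 / eta) with hLp
  have hLp0 : 0 ≤ Lp := by linarith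
  -- the steps
  have s1 : ∑ t ∈ range T, Dy1 h v 1 t i (A t) (fun (_ : Unit) _ _ => True) (fun _ => lft (scq tb (Ck hS) u (5 * t + 1)))
      (fun w f => ind (act (D.P h t) (ZbQ D v (5 * t + 1) i) (FQ v t i) (ZbQ D v (5 * t + 5) i) e w (f ()))) eta (3 * Lam) ≤
      ∑ t ∈ range T, (tb.Ps.E (fun w => ind (A t (tb.pt t w) ∧ scq tb (Ck hS) u (5 * t + 1) w) *
        max (o1 M.toMS i (5 * t + 1) w) (-(3 * Lam))) +
      Lp * tb.Ps.Pr (fun w => (A t (tb.pt t w) ∧ ¬ scq tb (Ck hS) u (5 * t + 1) w) ∧ aO h v tb i e t w)) :=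
    Finset.sum_le_sum fun t ht => step_dy tb H R hn hN1 hM hS heta heta1 (Finset.mem_range.1 ht)
  rw [Finset.sum_add_distrib, ← Finset.mul_sum] at s1
  have hHV : ∀ t < T, ∀ w, lt5 M.toMS M.NP (5 * t + 1) w ↔ ¬ HV h v t (tb.pt t w) := by
    intro t ht w
    subst hM
    exact ltN_pt h tb v ht.le w
  -- not released
  have s2 : ∑ t ∈ range T, tb.Ps.Pr (fun w => (A t (tb.pt t w) ∧ ¬ scq tb (Ck hS) u (5 * t + 1) w) ∧ aO h v tb i e t w) ≤
      ∑ q ∈ range (5 * T), tb.Ps.E (fun w => ind ((Ck hS).Rl q w ∧ (Ck hS).Vs ((Ck hS).nu q w) w ∧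
        ¬ scq tb (Ck hS) u q w) * gO h v tb i e q w) := by
    refine le_trans (Finset.sum_le_sum fun t ht => ?_) (sum_5 (f := fun q => tb.Ps.E (fun w => ind ((Ck hS).Rl q w ∧
      (Ck hS).Vs ((Ck hS).nu q w) w ∧ ¬ scq tb (Ck hS) u q w) * gO h v tb i e q w))
      (fun q => tb.Ps.E_nonneg fun w _ => mul_nonneg (ind_nonneg _) (gO_nonneg tb e q w)) T)
    have ht' := Finset.mem_range.1 ht
    unfold FP.Pr
    refine tb.Ps.E_mono fun w hw => ?_
    by_cases hh : (A t (tb.pt t w) ∧ ¬ scq tb (Ck hS) u (5 * t + 1) w) ∧ aO h v tb i e t w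
    · obtain ⟨_, b2, b3⟩ := a1 t ht' w hw hh.1.1
      rw [ind_of hh, ind_of (show (Ck hS).Rl (5 * t + 1) w ∧ (Ck hS).Vs ((Ck hS).nu (5 * t + 1) w) w ∧
        ¬ scq tb (Ck hS) u (5 * t + 1) w from ⟨(hHV t ht' w).2 b2, b3, hh.1.2⟩), one_mul]
      unfold gO
      rw [if_pos (show (5 * t + 1) % 5 = 1 by omega), show (5 * t + 1) / 5 = t by omega, ind_of hh.2]
    · rw [ind_not hh]
      exact mul_nonneg (ind_nonneg _) (gO_nonneg tb e _ w)
  -- released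
  have s3 : ∑ t ∈ range T, tb.Ps.E (fun w => ind (A t (tb.pt t w) ∧ scq tb (Ck hS) u (5 * t + 1) w) *
        max (o1 M.toMS i (5 * t + 1) w) (-(3 * Lam))) ≤
      ∑ t ∈ range T, (tb.Ps.E (fun w => ind ((Ck hS).Rl (5 * t + 1) w ∧ (Ck hS).Vs ((Ck hS).nu (5 * t + 1) w) w ∧
        scq tb (Ck hS) u (5 * t + 1) w) * Fn h v Lam tb p i ((Ck hS).nu (5 * t + 1) w) w) +
      24 * d0 * tb.Ps.Pr (fun w => lt5 M.toMS M.NP (5 * t + 1) w ∧ sts M.toMS i (5 * t + 1) w) +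
      4 * Lam * tb.Ps.Pr (fun w => lt5 M.toMS M.NP (5 * t + 1) w ∧ sts M.toMS i (5 * t + 1) w ∧
        Lst M.toMS (nu M.toMS (5 * t + 1) w) (5 * t + 1) w) +
      4 * Lam * tb.Ps.Pr (fun w => nu M.toMS (5 * t + 1) w = 5 * t + 1 ∧
        u / 2 ≤ dn tb (Ck hS) (5 * t + 1) (5 * t + 1) w) +
      3 * Lam * tb.Ps.Pr (DDq h v tb p (Ck hS) t) +
      3 * Lam * ∑ j ∈ univ.erase i, tb.Ps.Pr (fun w => lt5 M.toMS M.NP (5 * t + 1) w ∧ sts M.toMS i (5 * t + 1) w ∧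
        sts M.toMS j (5 * t + 1) w)) := by
    refine Finset.sum_le_sum fun t ht => ?_
    have ht' := Finset.mem_range.1 ht
    unfold FP.Pr
    rw [← FP.E_sum, ← tb.Ps.E_smul, ← tb.Ps.E_smul, ← tb.Ps.E_smul, ← tb.Ps.E_smul, ← tb.Ps.E_smul, ← tb.Ps.E_add,
      ← tb.Ps.E_add, ← tb.Ps.E_add, ← tb.Ps.E_add, ← tb.Ps.E_add]
    exact tb.Ps.E_mono fun w hw => pt_le tb H R hn hN1 hM hS ht' hw (a1 t ht' w hw) (a2 t ht' w hw)
  simp only [Finset.sum_add_distrib, ← Finset.mul_sum] at s3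
  have f1 : ∑ t ∈ range T, tb.Ps.E (fun w => ind ((Ck hS).Rl (5 * t + 1) w ∧ (Ck hS).Vs ((Ck hS).nu (5 * t + 1) w) w ∧
        scq tb (Ck hS) u (5 * t + 1) w) * Fn h v Lam tb p i ((Ck hS).nu (5 * t + 1) w) w) =
      ∑ q ∈ range (5 * T), tb.Ps.E (fun w => ind ((Ck hS).Rl q w ∧ (Ck hS).Vs ((Ck hS).nu q w) w ∧
        scq tb (Ck hS) u q w) * Fn h v Lam tb p i ((Ck hS).nu q w) w) := by
    refine (sum_51 (f := fun q => tb.Ps.E (fun w => ind ((Ck hS).Rl q w ∧ (Ck hS).Vs ((Ck hS).nu q w) w ∧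
        scq tb (Ck hS) u q w) * Fn h v Lam tb p i ((Ck hS).nu q w) w)) (fun q hq => ?_) T).symm
    rw [← tb.Ps.E_const 0]
    refine tb.Ps.E_congr fun w _ => ?_
    rw [ind_not (fun hh => hq (Rl_mod tb hM hS hh.1)), zero_mul]
  have f2 : ∑ t ∈ range T, tb.Ps.Pr (fun w => lt5 M.toMS M.NP (5 * t + 1) w ∧ sts M.toMS i (5 * t + 1) w) ≤ GV :=
    (sum_5 (f := fun q => tb.Ps.Pr (fun w => lt5 M.toMS M.NP q w ∧ sts M.toMS i q w)) (fun q => tb.Ps.Pr_nonneg _) T).trans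
      hGV
  have f4 : ∑ t ∈ range T, tb.Ps.Pr (fun w => nu M.toMS (5 * t + 1) w = 5 * t + 1 ∧
        u / 2 ≤ dn tb (Ck hS) (5 * t + 1) (5 * t + 1) w) ≤ Rr := by
    refine le_trans (sum_5 (f := fun q => tb.Ps.Pr (fun w => nu M.toMS q w = q ∧ u / 2 ≤ dn tb (Ck hS) q q w))
      (fun q => tb.Ps.Pr_nonneg _) T) (le_trans (Finset.sum_le_sum fun q _ => tb.Ps.Pr_mono fun w _ hh =>
        (⟨hh.1, by linarith [hh.2]⟩ : nu M.toMS q w = q ∧ y0 ≤ dn tb (Ck hS) q q w))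
        ((strt_dn tb hM hS G hr).trans hRr))
  have f5 : ∑ t ∈ range T, tb.Ps.Pr (DDq h v tb p (Ck hS) t) ≤ Pd := (dd_sum tb p (Ck hS)).trans hPd
  have f6 : ∑ t ∈ range T, ∑ j ∈ univ.erase i, tb.Ps.Pr (fun w => lt5 M.toMS M.NP (5 * t + 1) w ∧
      sts M.toMS i (5 * t + 1) w ∧ sts M.toMS j (5 * t + 1) w) ≤ 2 * VV := by
    rw [Finset.sum_comm]
    have h1 : ∀ j ∈ univ.erase i, ∑ t ∈ range T, tb.Ps.Pr (fun w => lt5 M.toMS M.NP (5 * t + 1) w ∧
        sts M.toMS i (5 * t + 1) w ∧ sts M.toMS j (5 * t + 1) w) ≤ VV := fun j hj =>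
      (sum_5 (f := fun q => tb.Ps.Pr (fun w => lt5 M.toMS M.NP q w ∧ sts M.toMS i q w ∧ sts M.toMS j q w))
        (fun q => tb.Ps.Pr_nonneg _) T).trans (hVV j (Finset.ne_of_mem_erase hj))
    refine (Finset.sum_le_sum h1).trans ?_
    rw [Finset.sum_const, Finset.card_erase_of_mem (mem_univ i), Finset.card_univ, Fintype.card_fin, nsmul_eq_mul]
    norm_num
  -- all epochs
  have hFac : ∀ q < 5 * T, Fac (fun w : Om W X β => (Vo i w, D.qb (TP.nn (q + 1)) (w.2.2 i))) (gO h v tb i e q) := by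
    intro q _
    subst hM
    exact gO_fac tb hv e q
  have b1 := one_sum tb (Ck hS) (5 * T) (Fn h v Lam tb p i) H (show TP.nn (5 * T) ≤ T from nn_iff.2 le_rfl) hFac
    (gO_nonneg tb e) (L := Lp) (K := 3 * Lam) (lam := lam) (u := u) (y0 := y0)
    (fun m w => (Fn_bd (h := h) (v := v) (i := i) tb p m w hL0).2.trans (by linarith)) hLp0
    (fun m w => (Fn_bd (h := h) (v := v) (i := i) tb p m w hL0).1) (by linarith) hlam hu hy0 hy Mn
  have hcl : ∀ s ≤ 5 * T, Fac (NPo tb v s) ((Ck hS).nu s) := by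
    intro s _
    have h1 := nu_fac M.toMS s
    subst hM
    exact h1
  have b2 := pay_T1 (i := i) (p := p) H R hn hN1 (Ck hS) hcl Mn hlam hth hth1 hc
  have b3 := pay_T2 (i := i) (p := p) H R hn hN1 (Ck hS) hcl Mn hlam hth hth1 hc
  have b4 : ∑ q ∈ range (5 * T), tb.Ps.E (fun w => ind ((Ck hS).Rl q w) * gO h v tb i e q w) ≤ 240 * Lam / e ^ 2 := by
    refine le_trans (le_of_eq_of_le (sum_51 (f := fun q => tb.Ps.E (fun w => ind ((Ck hS).Rl q w) * gO h v tb i e q w))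
      (fun q hq => ?_) T) (Finset.sum_le_sum fun t _ => ?_)) (aO_sum tb (h := h) (v := v) (i := i) H R hn hN1 he he1)
    · rw [← tb.Ps.E_const 0]
      refine tb.Ps.E_congr fun w _ => ?_
      rw [ind_not (fun hh => hq (Rl_mod tb hM hS hh)), zero_mul]
    · unfold FP.Pr
      refine tb.Ps.E_mono fun w _ => ?_
      unfold gO
      rw [if_pos (show (5 * t + 1) % 5 = 1 by omega), show (5 * t + 1) / 5 = t by omega]
      exact mul_le_of_le_one_left (ind_nonneg _) (ind_le_one _)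
  have b5 := (end_dn tb hM hS G hr).trans hRr
  have hy4 : 0 ≤ 4 * y0 / u := by positivity
  have m1 := mul_le_mul_of_nonneg_left b4 (show 0 ≤ Lp * (u / 2) by positivity)
  have m2 := mul_le_mul_of_nonneg_left hGV (show 0 ≤ lam + (lam + 3 * Lam) * (4 * y0 / u) by positivity)
  have m3 := mul_le_mul_of_nonneg_left b5 (show 0 ≤ 2 * (lam + 3 * Lam) by positivity)
  have m4 := mul_le_mul_of_nonneg_left (b2.trans (add_le_add le_rfl (mul_le_mul_of_nonneg_left (add_le_add le_rfl hS0)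
    (show 0 ≤ 12 * Real.sqrt th by positivity)))) (show 0 ≤ Lp * (2 * u / lam) by positivity)
  have m5 := mul_le_mul_of_nonneg_left (b3.trans (mul_le_mul_of_nonneg_left hS0
    (show 0 ≤ 4 * Real.sqrt th / lam by positivity))) hLp0
  have m6 := mul_le_mul_of_nonneg_left hS0 (show 0 ≤ Lp / ((Mn : ℝ) + 2) by positivity)
  have m7 := mul_le_mul_of_nonneg_left s2 hLp0
  have m8 := mul_le_mul_of_nonneg_left f2 (show 0 ≤ 24 * d0 by positivity)
  have m9 := mul_le_mul_of_nonneg_left hLS (show 0 ≤ 4 * Lam by positivity)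
  have m10 := mul_le_mul_of_nonneg_left f4 (show 0 ≤ 4 * Lam by positivity)
  have m11 := mul_le_mul_of_nonneg_left f5 (show 0 ≤ 3 * Lam by positivity)
  have m12 := mul_le_mul_of_nonneg_left f6 (show 0 ≤ 3 * Lam by positivity)
  have c2 : ∑ q ∈ range (5 * T), tb.Ps.Pr (fun w => (Ck hS).Rl q w ∧ (Ck hS).Vs ((Ck hS).nu q w) w) =
      ∑ q ∈ range (5 * T), tb.Ps.Pr (fun w => lt5 M.toMS M.NP q w ∧ sts M.toMS i q w) := rfl
  have c3 : ∑ q ∈ range (5 * T), tb.Ps.Pr (fun w => ((Ck hS).nu (q + 1) w = q + 1 ∨ q + 1 = 5 * T) ∧ ¬ (Ck hS).Rl q w ∧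
          y0 < dn tb (Ck hS) ((Ck hS).nu q w) (q + 1) w) =
      ∑ q ∈ range (5 * T), tb.Ps.Pr (fun w => (nu M.toMS (q + 1) w = q + 1 ∨ q + 1 = 5 * T) ∧ ¬ lt5 M.toMS M.NP q w ∧
      y0 < dn tb (Ck hS) (nu M.toMS q w) (q + 1) w) := rfl
  have c6 : ∑ q ∈ range (5 * T), tb.Ps.Pr (fun w => (Ck hS).nu q w = q) =
      ∑ q ∈ range (5 * T), tb.Ps.Pr (fun w => nu M.toMS q w = q) := rfl
  rw [c2, c3, c6] at b1
  linarith

end dyn

end

end Pool.Agent.GMH.One
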