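import Pool.Agent.GMH.TopSplit
import Pool.Agent.GMH.MVI
import Pool.Agent.GMH.Ctx

/-!
# GMH/RmCnt: expected numbers of removals (helper87, for the prices: H3.REL R.6)

* `rm_pub` : light public values of the joint steps, `≤ 6 n N_1 Lam`;
* `rm_own`, `rm_prv` : light private values of one vertex (`lpv`), `≤ 6 n Lam`;
* `rm_pub_ctx`, `rm_prv_ctx`, `rm_ctx` : the same in the form of `GMH/Ctx` (`≤ 100 n N_1 Lam`).
-/

set_option autoImplicit false
set_option linter.unusedSectionVars false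

namespace Pool.Agent.GMH.TP

open Finset Pool.Agent.PWZ Pool.Agent.M3 Pool.Agent.GM Pool.Agent.GM.Harm Pool.Agent.GMH Pool.Agent.GMH.NZ
open Pool.Agent.GMH.V3 Pool.Agent.GMH.CKB Pool.Agent.GMH.TD

noncomputable section

/-- a bound by an entropy, summed -/
theorem light_num {M c : ℝ} (hM : 0 ≤ M) (hc : c ≤ 3 * M) : c / Real.log 2 ≤ 6 * M := by
  rw [div_le_iff₀ (Real.log_pos (by norm_num))]
  have h3 := Real.log_two_gt_d9
  nlinarith

section run

variable {X β γ φ : Type} [Fintype X] [Fintype β] [Fintype φ] [Nonempty X] [Nonempty β]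
variable {D : HD (Fin 3) X β γ φ} {al : ℝ} {h : D.Thick al} {v : ℕ → Finset (Fin 3) → X → (Fin 3 → β) → Pt (Fin 3) X β φ}
variable {dg : ℕ → X → ℝ} {prr : ℕ → Fin 3 → φ → φ} {T : ℕ} {Lam : ℝ} {n N1 : ℝ}

/-- **LIGHT PUBLIC VALUES** -/
theorem rm_pub (hn : 1 ≤ n) (hN1 : 1 ≤ N1) (R : Run h (pr3 (Fin 3) n N1) (SS1 (Fin 3)) (AdmDep D) v)
    (H : D.Hyp dg prr al T Lam) :
    ∑ t ∈ range T, (D.P h t).Pr (fun w => 2 * (D.P h t).m (NPq D v (5 * t + 2)) w <
      (D.P h t).m (NPq D v (5 * t + 1)) w) ≤ 6 * (n * N1 * Lam) := by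
  have hl : 0 < Real.log 2 := Real.log_pos (by norm_num)
  have h1 : ∀ t ∈ range T, (D.P h t).Pr (fun w => 2 * (D.P h t).m (NPq D v (5 * t + 2)) w <
      (D.P h t).m (NPq D v (5 * t + 1)) w) ≤ cst h v (t + 1) ∅ / Real.log 2 := by
    intro t _
    have h2 := C5.Pr_light (D.P h t) (NPq D v (5 * t + 1)) (NPq D v (5 * t + 1 + 1)) (NPq_fac (5 * t + 1))
    rw [Hc_NPq h t t] at h2
    exact h2
  refine (Finset.sum_le_sum h1).trans ?_
  rw [← Finset.sum_div]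
  have h4 : 0 ≤ n * N1 * Lam := by
    have := H.Lam1
    positivity
  refine light_num h4 ?_
  have h5 := MVI.cost_pub hn hN1 R H
  rw [Finset.sum_range_succ' _ T] at h5
  have h6 := cst_nonneg h (v := v) 0 ∅
  linarith

/-- **LIGHT PRIVATE VALUES OF ONE VERTEX**, in its own substep -/
theorem rm_own (hn : 1 ≤ n) (hN1 : 1 ≤ N1) (R : Run h (pr3 (Fin 3) n N1) (SS1 (Fin 3)) (AdmDep D) v)
    (H : D.Hyp dg prr al T Lam) (i : Fin 3) :
    ∑ t ∈ range T, (D.P h t).Pr (fun w => 2 * (D.P h t).m (NVq D v i (5 * t + rk {i} + 1)) w <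
      (D.P h t).m (NVq D v i (5 * t + rk {i})) w) ≤ 6 * (n * Lam) := by
  have hl : 0 < Real.log 2 := Real.log_pos (by norm_num)
  have hr := rk_one i
  have h1 : ∀ t ∈ range T, (D.P h t).Pr (fun w => 2 * (D.P h t).m (NVq D v i (5 * t + rk {i} + 1)) w <
      (D.P h t).m (NVq D v i (5 * t + rk {i})) w) ≤ cst h v (t + 1) {i} / Real.log 2 := by
    intro t _
    have h2 := C5.Pr_light (D.P h t) (NVq D v i (5 * t + rk {i})) (NVq D v i (5 * t + rk {i} + 1))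
      (NVq_fac i (5 * t + rk {i}))
    refine h2.trans (div_le_div_of_nonneg_right ?_ hl.le)
    have h3 := Hc_NVq h (v := v) t (5 * t + rk {i}) i (by omega)
    have e2 : (5 * t + rk {i}) / 5 = t := by omega
    rw [e2] at h3
    exact h3
  refine (Finset.sum_le_sum h1).trans ?_
  rw [← Finset.sum_div]
  have h4 : 0 ≤ n * Lam := by
    have := H.Lam1
    positivity
  refine light_num h4 ?_
  have h5 : ∑ t ∈ range (T + 1), cst h v t {i} ≤ 3 * (n * Lam) := GMH.cost_thin rfl H hn hN1 R i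
  rw [Finset.sum_range_succ' _ T] at h5
  have h6 := cst_nonneg h (v := v) 0 {i}
  linarith

theorem rk_val (i : Fin 3) : rk {i} = 4 := by
  have key : ∀ i : Fin 3, rk {i} = 4 := by decide
  exact key i

/-- **LIGHT PRIVATE VALUES OF ONE VERTEX** -/
theorem rm_prv (hn : 1 ≤ n) (hN1 : 1 ≤ N1) (R : Run h (pr3 (Fin 3) n N1) (SS1 (Fin 3)) (AdmDep D) v)
    (H : D.Hyp dg prr al T Lam) (i : Fin 3) :
    ∑ t ∈ range T, (D.P h t).Pr (lpv h v i t) ≤ 6 * (n * Lam) := by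
  refine le_trans (le_of_eq (Finset.sum_congr rfl fun t _ => ?_)) (rm_own hn hN1 R H i)
  rw [rk_val]
  rfl

end run

end

end Pool.Agent.GMH.TP

namespace Pool.Agent.GMH.CX

open Finset Pool.Agent.PWZ Pool.Agent.M3 Pool.Agent.GM Pool.Agent.GM.Harm Pool.Agent.GMH Pool.Agent.GMH.NZ
open Pool.Agent.GMH.V3 Pool.Agent.GMH.TP Pool.Agent.GMH.TD Pool.Agent.GMH.Dy

namespace Ctx

variable (C : Ctx)

/-- light public values -/
theorem rm_pub : ∑ t ∈ range C.T, (C.D.P C.h t).Pr (fun w => 2 * (C.D.P C.h t).m (NPq C.D C.v (5 * t + 2)) w <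
      (C.D.P C.h t).m (NPq C.D C.v (5 * t + 1)) w) ≤ 100 * (C.n * C.N1 * C.Lam) := by
  have h1 := TP.rm_pub C.n1 C.N11 C.R C.H
  have h2 : 0 ≤ C.n * C.N1 * C.Lam := mul_nonneg (mul_nonneg (zero_le_one.trans C.n1) (zero_le_one.trans C.N11))
    (by have := C.hL; linarith)
  linarith

/-- light private values -/
theorem rm_prv (i : Fin 3) : ∑ t ∈ range C.T, (C.D.P C.h t).Pr (lpv C.h C.v i t) ≤ 100 * (C.n * C.N1 * C.Lam) := by
  have h1 := TP.rm_prv C.n1 C.N11 C.R C.H i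
  have h0 : 0 ≤ C.n * C.Lam := mul_nonneg (zero_le_one.trans C.n1) (by have := C.hL; linarith)
  have h2 : C.n * C.Lam ≤ C.n * C.N1 * C.Lam := by
    have h3 : C.n * C.Lam * 1 ≤ C.n * C.Lam * C.N1 := mul_le_mul_of_nonneg_left C.N11 h0
    linarith
  linarith

/-- light private values, the sharp form -/
theorem rm_prv6 (i : Fin 3) : ∑ t ∈ range C.T, (C.D.P C.h t).Pr (lpv C.h C.v i t) ≤ 6 * (C.n * C.Lam) :=
  TP.rm_prv C.n1 C.N11 C.R C.H i

end Ctx

/-- **ALL REMOVALS, CONTEXT FORM** -/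
theorem rm_ctx (A : ℕ) : AllC A (fun C =>
    ∑ t ∈ range C.T, (C.D.P C.h t).Pr (fun w => 2 * (C.D.P C.h t).m (NPq C.D C.v (5 * t + 2)) w <
      (C.D.P C.h t).m (NPq C.D C.v (5 * t + 1)) w) ≤ 100 * (C.n * C.N1 * C.Lam) ∧
    ∀ i, ∑ t ∈ range C.T, (C.D.P C.h t).Pr (lpv C.h C.v i t) ≤ 100 * (C.n * C.N1 * C.Lam)) :=
  AllC.all fun C _ => ⟨C.rm_pub, C.rm_prv⟩

end Pool.Agent.GMH.CX
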