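import Pool.Agent.GMH.ThrT
import Pool.Agent.GMH.RmCnt

/-!
# GMH/ThrO (helper45): the thrown sum of the frames ONE, and the total mass of the split points, over `Ctx`

* `bd1_C` : public removals with status of `i` and (a listed tuple over the thin triple, or another vertex with status);
* `ls_C` : the number `LS` of `GMH/One4`;
* `maF_C` : `∑_t Pr (aV i false t) ≤ x^(ka+12)`; `maT` : `∑_t Pr (aV i true t) ≤ 6 n Lam`.
-/

set_option autoImplicit false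
set_option linter.unusedSectionVars false

namespace Pool.Agent.GMH.RSA

open Finset Pool.Agent.PWZ Pool.Agent.M3 Pool.Agent.GM Pool.Agent.GM.Harm Pool.Agent.GMH Pool.Agent.GMH.NZ
open Pool.Agent.GMH.V3 Pool.Agent.GMH.TP Pool.Agent.GMH.TD Pool.Agent.GMH.Dy Pool.Agent.GMH.MV Pool.Agent.GMH.MVI
open Pool.Agent.GMH.UV Pool.Agent.GMH.KF Pool.Agent.GMH.TRF Pool.Agent.GMH.CX Pool.Agent.GMH.CTM Pool.Agent.GMH.MVT

noncomputable section

/-- **THE THROWN SUM OF ONE** -/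
theorem bd1_C {A : ℕ} (hA : 80 ≤ A) (ka K : ℕ) : AllC A (fun C => ∀ i : Fin 3, ∑ q ∈ range (5 * C.T), C.tb.Ps.Pr (fun w =>
    ruO C.tb C.v q w ∧ sts (C.M ka) i q w ∧ (Lsq (C.M ka) q w ∨ ∃ c, c ≠ i ∧ sts (C.M ka) c q w)) ≤ (pw C.Lam K)⁻¹) := by
  refine allc_mono ((pub_C A ka (K + 2)).and (two_v hA ka (K + 2) (n0_all A ka))) fun C hCA ⟨h3, h4⟩ i => ?_
  subst hCA
  have hL := C.hL
  have t6 : (0 : ℝ) < (pw C.Lam (K + 2))⁻¹ := inv_pos.2 (MVN.pw_pos hL _)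
  refine ipw_sum hL K (le_trans (Finset.sum_le_sum fun q _ => le_trans (C.tb.Ps.Pr_mono (t := fun w =>
    (ruO C.tb C.v q w ∧ Lsq (C.M ka) q w) ∨ (ruO C.tb C.v q w ∧ twV (C.M ka) q w)) fun w _ hh => ?_)
    (RZ.Pr_or C.tb.Ps _ _)) ?_)
  · obtain ⟨a1, a2, a3 | ⟨c, a4, a5⟩⟩ := hh
    · exact Or.inl ⟨a1, a3⟩
    · exact Or.inr ⟨a1, i, c, a4.symm, a2, a5⟩
  · rw [Finset.sum_add_distrib]
    linarith

/-- one substep of each time -/
theorem sum_one {f : ℕ → ℝ} (hf : ∀ q, 0 ≤ f q) (T : ℕ) : ∑ t ∈ range T, f (5 * t + 1) ≤ ∑ q ∈ range (5 * T), f q := by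
  rw [sum_five]
  refine Finset.sum_le_sum fun t _ => ?_
  have h0 := hf (5 * t)
  have h2 := hf (5 * t + 2)
  have h3 := hf (5 * t + 3)
  have h4 := hf (5 * t + 4)
  linarith

/-- **`LS` OF `One4`** : public removals with status of `i`, the tuple is listed -/
theorem ls_C (A ka K : ℕ) : AllC A (fun C => ∀ i : Fin 3, ∑ t ∈ range C.T, (C.M ka).P.Pr (fun w =>
    lt5 (C.M ka) (C.M ka).NP (5 * t + 1) w ∧ sts (C.M ka) i (5 * t + 1) w ∧
      Lst (C.M ka) (nu (C.M ka) (5 * t + 1) w) (5 * t + 1) w) ≤ (pw C.Lam K)⁻¹) := by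
  refine allc_mono (pub_C A ka K) fun C hCA h1 i => ?_
  subst hCA
  refine le_trans (Finset.sum_le_sum fun t _ => ?_) ((sum_one (f := fun q => C.tb.Ps.Pr (fun w =>
    ruO C.tb C.v q w ∧ Lsq (C.M ka) q w)) (fun q => FP.Pr_nonneg _ _) C.T).trans h1)
  refine C.tb.Ps.Pr_mono fun w hw hh => ?_
  exact ⟨⟨by omega, hh.1.2⟩, MV.kda_pos (M := C.M ka) (TH (C.M ka) (5 * t + 1)) hw hh.2.2⟩

/-- **MASS OF THE SPLIT POINTS, joint steps** -/
theorem maF_C (A ka : ℕ) : AllC A (fun C => ∀ (Gd : ℕ → C.Q → Prop) (i : Fin 3), ∑ t ∈ range C.T, (C.D.P C.h t).Pr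
    (TP.aV C.h C.v C.p Gd (stP (C.M ka)) (spP C.h (C.M ka) C.v) i false t) ≤ pw C.Lam (ka + 12)) := by
  refine allc_mono (gvs_C A ka) fun C hCA h1 Gd i => ?_
  subst hCA
  refine le_trans (Finset.sum_le_sum fun t ht => ?_) ((sum_one (f := fun q => C.tb.Ps.Pr (fun w =>
    lt5 (C.M ka) (NPo C.tb C.v) q w ∧ sts (C.M ka) i q w)) (fun q => FP.Pr_nonneg _ _) C.T).trans (h1 i))
  have ht' : t ≤ C.T := (Finset.mem_range.1 ht).le
  unfold FP.Pr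
  rw [← (pul_pt C.h C.tb ht').E]
  refine C.tb.Ps.E_mono fun w hw => ind_mono fun ha => ?_
  have hs := aV_false C.tb (C.d1_pos ka) (C.d1_le ka) (C.kb_pos ka) C.d0_pos C.d0_le C.d0_pos C.p1_pos (C.z_pos ka) C.p Gd i
    t t ha
  have hh : ¬ HV C.h C.v t (C.tb.pt t w) := ha.1.1.2
  rw [HV_q ht' w, not_le] at hh
  exact ⟨⟨by show (5 * t + 1) % 5 ≠ 0; omega, hh⟩, hs⟩

/-- **MASS OF THE SPLIT POINTS, private steps** -/
theorem maT (C : Ctx) (ka : ℕ) (Gd : ℕ → C.Q → Prop) (i : Fin 3) : ∑ t ∈ range C.T, (C.D.P C.h t).Pr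
    (TP.aV C.h C.v C.p Gd (stP (C.M ka)) (spP C.h (C.M ka) C.v) i true t) ≤ 6 * (C.n * C.Lam) := by
  refine le_trans (Finset.sum_le_sum fun t _ => FP.Pr_mono _ fun w _ ha => ?_) (C.rm_prv6 i)
  have h1 : spP C.h (C.M ka) C.v t w = some i := ha.2
  exact (fstV_some h1).2

end

end Pool.Agent.GMH.RSA
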