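import Pool.Agent.GMH.Ctx
import Pool.Agent.GMH.ConTM2
import Pool.Agent.GMH.GamI
import Pool.Agent.GMH.MVT

/-!
# GMH/TwoV (helper45): two vertices with status at a public removal, final form (H3.MOV, M.9)

* `rr_num`, `gam_side` : the numbers of `GamR.RR_le` and the side conditions of `GamR.gam_ok`;
* `ruO_lt` : a public removal is a public light value; **`two_v`** : over `Ctx`, the sum over the public removals of the
  probability that two vertices have status is at most `(pw Lam K)⁻¹`, every `K`; input: the number `N0` of the public epochs.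
-/

set_option autoImplicit false
set_option linter.unusedSectionVars false

namespace Pool.Agent.GMH.MVT

open Finset Pool.Agent.PWZ Pool.Agent.M3 Pool.Agent.GM Pool.Agent.GM.Harm Pool.Agent.GMH Pool.Agent.GMH.NZ
open Pool.Agent.GMH.V3 Pool.Agent.GMH.TP Pool.Agent.GMH.TD Pool.Agent.GMH.Dy Pool.Agent.GMH.MV Pool.Agent.GMH.MVI
open Pool.Agent.GMH.UV Pool.Agent.GMH.KF Pool.Agent.GMH.TRF Pool.Agent.GMH.CX Pool.Agent.GMH.CTM Pool.Agent.GMH.VV
open Pool.Agent.GMH.GamR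

noncomputable section

/-! ### numbers -/

theorem y0_N1 {Lam : ℝ} (hL : 2 ≤ Lam) (A c0 : ℕ) : pw Lam (c1F A c0) * CTM.y0 Lam A c0 = pw Lam (24 * c0) := by
  unfold CTM.y0
  exact mul_div_cancel₀ _ (MVN.pw_pos hL _).ne'

theorem pQ3 {Lam : ℝ} (c0 : ℕ) : pw Lam (24 * c0) = MVN.pQ Lam c0 ^ 2 * MVN.pQ Lam c0 := by
  unfold MVN.pQ pw
  rw [← pow_succ, ← pow_mul]
  congr 1
  ring

/-- the rare digits and starts -/
theorem rr_num (A K : ℕ) : Ev (fun c0 Lam => ∀ N0 : ℝ, 0 ≤ N0 → N0 ≤ Real.exp (4 * MVN.pQ Lam c0) →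
    Real.exp (-(7 * pw Lam (c1F A c0) * CTM.y0 Lam A c0 / 256)) * (1 + N0) +
      32 * Real.exp (1 - pw Lam (c1F A c0) * CTM.y0 Lam A c0 / 256) * (pw Lam c0 * pw Lam (c1F A c0) * Lam) ≤
      (pw Lam K)⁻¹) := by
  refine (((scales A 0 256).and (K_pQ 4096)).and (Ev.ge (K + 20))).mono
    fun c0 Lam hL ⟨⟨⟨h1, h2, h3, h4⟩, h6⟩, h5⟩ N0 n0 n1 => ?_
  have o := one_ell hL A c0
  have hp := pQ_pos hL c0
  have e1 : 7 * pw Lam (c1F A c0) * CTM.y0 Lam A c0 / 256 = 7 * (MVN.pQ Lam c0 ^ 2 * MVN.pQ Lam c0) / 256 := by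
    rw [← pQ3, ← y0_N1 hL A c0]
    ring
  have e2 : pw Lam (c1F A c0) * CTM.y0 Lam A c0 / 256 = MVN.pQ Lam c0 ^ 2 * MVN.pQ Lam c0 / 256 := by
    rw [← pQ3, ← y0_N1 hL A c0]
  push_cast at h1 h2 h3 h6
  have hq2 : 4096 * (4096 : ℝ) ≤ MVN.pQ Lam c0 ^ 2 := by nlinarith
  have hbig : 65536 * MVN.pQ Lam c0 ≤ MVN.pQ Lam c0 ^ 2 * MVN.pQ Lam c0 := by nlinarith
  have hell : 256 * ell Lam A c0 ≤ MVN.pQ Lam c0 := by
    have := pe_pos hL 0 c0
    nlinarith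
  rw [e1, e2]
  have t0 : 1 + N0 ≤ Real.exp (6 * MVN.pQ Lam c0) := addE (a := 0) (by rw [Real.exp_zero]) n1 (by linarith) (by linarith)
  have t1 : Real.exp (-(7 * (MVN.pQ Lam c0 ^ 2 * MVN.pQ Lam c0) / 256)) * (1 + N0) ≤
      Real.exp (-((2 : ℕ) * ell Lam A c0) - 1) := by
    refine (mulE (by linarith) le_rfl t0).trans (leE ?_)
    push_cast
    linarith
  have t2 : 32 * Real.exp (1 - MVN.pQ Lam c0 ^ 2 * MVN.pQ Lam c0 / 256) * (pw Lam c0 * pw Lam (c1F A c0) * Lam) ≤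
      Real.exp (-((2 : ℕ) * ell Lam A c0) - 1) := by
    have c1 := MVN.pw_pos hL c0
    have c2 := MVN.pw_pos hL (c1F A c0)
    have hL0 : (0 : ℝ) ≤ Lam := by linarith
    have b1 : pw Lam c0 * pw Lam (c1F A c0) * Lam ≤ Real.exp (9 * ell Lam A c0) := by
      refine NL_ell hL A (by omega) ?_
      have : 0 ≤ pw Lam c0 * pw Lam (c1F A c0) * Lam := by positivity
      linarith
    have b2 : (32 : ℝ) ≤ Real.exp ((5 : ℕ) * ell Lam A c0) := cst_ell hL A c0 (k := 5) (by norm_num)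
    refine (mulE (by positivity) (mulE (Real.exp_pos _).le b2 le_rfl) b1).trans (leE ?_)
    push_cast
    linarith
  have t3 := addE (c := -((2 : ℕ) * ell Lam A c0)) t1 t2 (by linarith) (by linarith)
  refine t3.trans (inv_ell hL A c0 (k := 2) (a := K) (by omega))

/-- the side conditions of `gam_ok` -/
theorem gam_side (A ka : ℕ) : Ev (fun c0 Lam => 128 * MVN.z Lam ka c0 ≤ CTM.y0 Lam A c0 ∧
    1024 ≤ pw Lam (c1F A c0) * CTM.y0 Lam A c0) := by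
  refine (scales A ka 1024).mono fun c0 Lam hL ⟨h1, h2, h3, h4⟩ => ?_
  have o := one_ell hL A c0
  push_cast at h1
  constructor
  · have b1 : 128 * MVN.z Lam ka c0 ≤ Real.exp (-((1 : ℕ) * ell Lam A c0)) := by
      unfold MVN.z
      refine (mulE (Real.exp_pos _).le (cst_ell hL A c0 (c := 128) (k := 7) (by norm_num)) le_rfl).trans (leE ?_)
      push_cast
      linarith
    refine b1.trans ((inv_ell hL A c0 (k := 1) (a := c1F A c0) (by omega)).trans ?_)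
    unfold CTM.y0
    rw [div_eq_mul_inv]
    exact le_mul_of_one_le_left (inv_pos.2 (MVN.pw_pos hL _)).le (pw_one hL _)
  · rw [y0_N1 hL A c0]
    refine le_trans ?_ ((MVN.pw_four hL 5).trans (MVN.pw_mono hL (by omega)))
    norm_num

/-! ### the run -/

section run

variable {X β γ φ : Type} [Fintype X] [Fintype β] [Fintype φ] [Nonempty X] [Nonempty β]
variable {D : HD (Fin 3) X β γ φ} {al : ℝ} {h : D.Thick al} {prr : ℕ → Fin 3 → φ → φ} {T : ℕ} {W : Type} [Fintype W]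
variable (tb : Tab D prr T W) {v : ℕ → Finset (Fin 3) → X → (Fin 3 → β) → Pt (Fin 3) X β φ}
variable {d1 kb d0 k0 p1 z : ℝ} (hd1 : 0 < d1) (hd11 : d1 ≤ 1) (hkb : 0 < kb) (hd0 : 0 < d0) (hd01 : d0 ≤ 1) (hk0 : 0 < k0)
  (hp1 : 0 < p1) (hz : 0 < z)

/-- a public removal is a public light value -/
theorem ruO_lt {q : ℕ} {w : Om W X β} (hr : ruO tb v q w) :
    lt5 (MSi tb (v := v) d1 kb d0 k0 p1 z hd1 hd11 hkb hd0 hd01 hk0 hp1 hz) (NPo tb v) q w := by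
  refine ⟨?_, hr.2⟩
  show q % 5 ≠ 0
  have := hr.1
  omega

/-- a private removal is a light value of the class of the vertex -/
theorem rpO_lt {i : Fin 3} {q : ℕ} {w : Om W X β} (hr : rpO tb v i q w) :
    lt5 (MSi tb (v := v) d1 kb d0 k0 p1 z hd1 hd11 hkb hd0 hd01 hk0 hp1 hz)
      (CN (MSi tb (v := v) d1 kb d0 k0 p1 z hd1 hd11 hkb hd0 hd01 hk0 hp1 hz) i) q w := by
  refine ⟨?_, hr.2.1⟩
  show q % 5 ≠ 0
  have := hr.1
  omega

end run

/-- the parameter `A` is known -/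
theorem allc_mono {A : ℕ} {P Q : Ctx → Prop} (hP : AllC A P) (h : ∀ C : Ctx, C.A = A → P C → Q C) : AllC A Q := by
  obtain ⟨a, ha⟩ := hP
  exact ⟨a, fun C hC hc => h C hC (ha C hC hc)⟩

/-- two vertices with status -/
def twV {Om : Type} [Fintype Om] (M : MS Om) (q : ℕ) (w : Om) : Prop := ∃ i j : Fin 3, i ≠ j ∧ sts M i q w ∧ sts M j q w

/-- **TWO VERTICES WITH STATUS AT THE PUBLIC REMOVALS** -/
theorem two_v {A : ℕ} (hA : 80 ≤ A) (ka K : ℕ)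
    (hN : AllC A (fun C => N0 (C.U ka).toMS (5 * C.T) ≤ Real.exp (4 * MVN.pQ C.Lam C.c0))) :
    AllC A (fun C => ∑ q ∈ range (5 * C.T), C.tb.Ps.Pr (fun w => ruO C.tb C.v q w ∧ twV (C.U ka).toMS q w) ≤
      (pw C.Lam K)⁻¹) := by
  have n1 := AllC.of_Ev (A := A) (((rr_num A (K + 2 + 4)).and (gam_side A ka)).and ((z_side A ka).and (vv_num hA ka (K + 2))))
  refine allc_mono (hN.and n1) fun C hCA ⟨hN0, ⟨hr, hg⟩, hz, hv⟩ => ?_
  subst hCA
  obtain ⟨hz1, hz2, hz3, hz4⟩ := hz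
  have nn0 : 0 ≤ N0 (C.U ka).toMS (5 * C.T) := sum_nonneg fun _ _ => FP.Pr_nonneg _ _
  have G := gam_ok C.tb (C.d1_pos ka) (C.d1_le ka) (C.kb_pos ka) C.d0_pos C.d0_le C.d0_pos C.p1_pos (C.z_pos ka) C.n1 C.N11
    C.R C.H hz1 hg.1 hg.2
  have R1 := RR_le C.tb (C.d1_pos ka) (C.d1_le ka) (C.kb_pos ka) C.d0_pos C.d0_le C.d0_pos C.p1_pos (C.z_pos ka) C.n1 C.N11
    C.R C.H hg.2
  have R2 := hr _ nn0 hN0
  have R3 := R1.trans R2
  have pr : ∀ i j : Fin 3, i ≠ j → ∑ q ∈ range (5 * C.T), C.tb.Ps.Pr (fun w => ruO C.tb C.v q w ∧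
      sts (C.U ka).toMS i q w ∧ sts (C.U ka).toMS j q w) ≤ (pw C.Lam (K + 2))⁻¹ := by
    intro i j hij
    have h1 := vv_i2 C.tb C.codes (C.d1_pos ka) (C.d1_le ka) (C.kb_pos ka) C.d0_pos C.d0_le C.d0_pos C.p1_pos (C.z_pos ka)
      C.n1 C.N11 C.R C.H hz1 hz2 G (Real.exp_pos _).le hz4.le (by linarith) hz3 hij
    have h2 := hv _ (RR_nonneg (M := C.U ka) (Real.exp_pos _).le) R3
    refine le_trans (Finset.sum_le_sum fun q _ => C.tb.Ps.Pr_mono fun w _ hw => ?_) (h1.trans h2)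
    exact ⟨ruO_lt C.tb (C.d1_pos ka) (C.d1_le ka) (C.kb_pos ka) C.d0_pos C.d0_le C.d0_pos C.p1_pos (C.z_pos ka) hw.1, hw.2⟩
  have h3 : ∀ q ∈ range (5 * C.T), C.tb.Ps.Pr (fun w => ruO C.tb C.v q w ∧ twV (C.U ka).toMS q w) ≤
      C.tb.Ps.Pr (fun w => ruO C.tb C.v q w ∧ sts (C.U ka).toMS 0 q w ∧ sts (C.U ka).toMS 1 q w) +
      (C.tb.Ps.Pr (fun w => ruO C.tb C.v q w ∧ sts (C.U ka).toMS 0 q w ∧ sts (C.U ka).toMS 2 q w) +
      C.tb.Ps.Pr (fun w => ruO C.tb C.v q w ∧ sts (C.U ka).toMS 1 q w ∧ sts (C.U ka).toMS 2 q w)) := by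
    intro q _
    refine le_trans (C.tb.Ps.Pr_mono fun w _ hw => ?_) ((C.tb.Ps.Pr_or_le _ _).trans
      (add_le_add le_rfl (C.tb.Ps.Pr_or_le _ _)))
    obtain ⟨h4, i, j, hij, h5, h6⟩ := hw
    fin_cases i <;> fin_cases j
    · exact absurd rfl hij
    · exact Or.inl ⟨h4, h5, h6⟩
    · exact Or.inr (Or.inl ⟨h4, h5, h6⟩)
    · exact Or.inl ⟨h4, h6, h5⟩
    · exact absurd rfl hij
    · exact Or.inr (Or.inr ⟨h4, h5, h6⟩)
    · exact Or.inr (Or.inl ⟨h4, h6, h5⟩)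
    · exact Or.inr (Or.inr ⟨h4, h6, h5⟩)
    · exact absurd rfl hij
  refine (Finset.sum_le_sum h3).trans ?_
  rw [Finset.sum_add_distrib, Finset.sum_add_distrib]
  have g1 := pr 0 1 (by decide)
  have g2 := pr 0 2 (by decide)
  have g3 := pr 1 2 (by decide)
  have g4 := ipw_four C.hL (K + 1)
  have g5 := ipw_four C.hL K
  have g6 : (0 : ℝ) < (pw C.Lam (K + 1 + 1))⁻¹ := inv_pos.2 (MVN.pw_pos C.hL _)
  have g7 : (0 : ℝ) < (pw C.Lam (K + 1))⁻¹ := inv_pos.2 (MVN.pw_pos C.hL _)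
  have e1 : K + 2 = K + 1 + 1 := by omega
  rw [e1] at g1 g2 g3
  linarith

end

end Pool.Agent.GMH.MVT
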