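import Pool.Agent.GMH.One4
import Pool.Agent.GMH.PRctx
import Pool.Agent.GMH.TwoV
import Pool.Agent.GMH.ThrO
import Pool.Agent.GMH.ConO

/-!
# GMH/One5 (helper2): `OneOK` over `Ctx` (H3.MOV, M.7 (a))

* `world_cnt`, `cnt_sum` : the number of the epochs in which the status becomes dense;
* `bitT_one` : the bit of ONE in the form of the prices;
* **`one_ok`** : `OneOK`.
-/

set_option autoImplicit false
set_option linter.unusedSectionVars false

namespace Pool.Agent.GMH.One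

open Finset Pool.Agent.PWZ Pool.Agent.M3 Pool.Agent.GM Pool.Agent.GM.Harm Pool.Agent.GMH Pool.Agent.GMH.NZ
open Pool.Agent.GMH.V3 Pool.Agent.GMH.TP Pool.Agent.GMH.Dy Pool.Agent.GMH.PayS Pool.Agent.GMH.MVI
open Pool.Agent.GMH.TD Pool.Agent.GMH.CK Pool.Agent.GMH.MV Pool.Agent.GMH.TRF Pool.Agent.GMH.UV Pool.Agent.GMH.KDL
open Pool.Agent.GMH.VV Pool.Agent.GMH.Gdy Pool.Agent.GMH.CR Pool.Agent.GMH.MovU

noncomputable section

variable {X β γ φ : Type} [Fintype X] [Fintype β] [Fintype φ] [Nonempty X] [Nonempty β]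
variable {D : HD (Fin 3) X β γ φ} {al : ℝ} {h : D.Thick al} {v : ℕ → Finset (Fin 3) → X → (Fin 3 → β) → Pt (Fin 3) X β φ}
variable {dg : ℕ → X → ℝ} {prr : ℕ → Fin 3 → φ → φ} {T : ℕ} {Lam : ℝ} {W : Type} [Fintype W] (tb : Tab D prr T W)
variable {i : Fin 3}

/-! ## the number of the epochs in which the status becomes dense -/

section cnt

variable (C : Clk D W i) (N : ℕ)

/-- one world -/
theorem world_cnt {n : ℕ} (hn : n < N) (z : Om W X β) {u y0 : ℝ}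
    (h0 : 0 ≤ y0) (hy : y0 ≤ u / 4) :
    u / 4 * (tb.Wl (TP.nn n) z).Pr (fun w => scn tb C N u n w) ≤
      (tb.Wl (TP.nn n) z).Pr (fun w => C.Vs n w ∧ C.Rl (n + C.sg N n w - 1) w) +
      (tb.Wl (TP.nn n) z).Pr (fun w => ¬ C.Rl (n + C.sg N n w - 1) w ∧ y0 < dn tb C n (n + C.sg N n w) w) := by
  classical
  set P := tb.Wl (TP.nn n) z with hP
  have hsg : ∀ w, C.sg N n w < N + 1 := fun w => by
    have := C.sg_le N hn w
    omega
  have b1 := MovU.cnt_le (P := P) (cU := fun s => cU (W := W) D i N n s) (cV := fun s => cV (W := W) D i N n s)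
    (U := Uc i) (V := Vo i) (Vc := VU C n z) (u := u) (y0 := y0) (σ := C.sg N n) (T := N + 1)
    (Rm := fun w => C.Rl (n + C.sg N n w - 1) w)
    (Bd := fun w => ¬ C.Rl (n + C.sg N n w - 1) w ∧ y0 < dn tb C n (n + C.sg N n w) w)
    (Wl_ind tb (TP.nn n) z) (fun s => Uc_cU (D := D) N n s) (fun s => Vo_cV (D := D) N n s) (cU_filt N n) (cV_filt N n)
    (sg_stp C N hn) hsg
    (fun t v w e hv => by
      have e' := pair_sgt.1 e
      have h1 : C.sg N n w = t := by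
        have h2 := sg_stp C N hn t v w e
        rcases Nat.eq_zero_or_pos t with h3 | h3
        · have := C.sg_pos N n v
          omega
        · have h4 := sg_stp C N hn (t - 1) v w (by
            have := (pair_filt (cU_filt (W := W) (X := X) (D := D) (i := i) N n)
              (cV_filt (W := W) (X := X) (D := D) (i := i) N n)) (t - 1) v w
            rw [show t - 1 + 1 = t by omega] at this
            exact this e)
          omega
      have h2 := C.sg_le N hn v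
      have h3 := C.sg_pos N n v
      rw [hv, h1]
      rw [hv] at h2 h3
      rw [lv_le h2] at e'
      refine Eq.to_iff (C.RlF (n + t - 1) v w ?_)
      rw [show n + t - 1 + 1 = n + t by omega]
      exact e')
    (fun w hw hnr => by
      rw [cp_dn tb C N (C.sg_le N hn w) hn z hw]
      by_cases hd : y0 < dn tb C n (n + C.sg N n w) w
      · rw [ind_of (show ¬ C.Rl (n + C.sg N n w - 1) w ∧ y0 < dn tb C n (n + C.sg N n w) w from ⟨hnr, hd⟩)]
        have h1 : dn tb C n (n + C.sg N n w) w ≤ 1 := by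
          unfold dn
          exact tb.Ps.ce_le_const (fun _ _ => ind_le_one _) ((Wl_supp tb).1 hw).1
        linarith
      · have := ind_nonneg (¬ C.Rl (n + C.sg N n w - 1) w ∧ y0 < dn tb C n (n + C.sg N n w) w)
        linarith [not_lt.1 hd]) h0 hy
  have e1 : P.Pr (fun w => scn tb C N u n w) =
      P.Pr (fun w => sC P (fun s => cU (W := W) D i N n s) (Uc i) (VU C n z) u (C.sg N n w) w) := by
    unfold FP.Pr
    exact P.E_congr fun w hw => congrArg ind (propext (sC_scn tb C N hn z hw).symm)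
  have e3 : P.Pr (fun w => C.Vs n w ∧ C.Rl (n + C.sg N n w - 1) w) =
      P.Pr (fun w => VU C n z (Uc i w) ∧ C.Rl (n + C.sg N n w - 1) w) := by
    unfold FP.Pr
    refine P.E_congr fun w hw => ?_
    show ind (C.Vs n w ∧ C.Rl (n + C.sg N n w - 1) w) = ind (VU C n z (Uc i w) ∧ C.Rl (n + C.sg N n w - 1) w)
    rw [VU_iff C ((Wl_supp tb).1 hw).2]
  rw [e1, e3]
  exact b1

/-- **the number of the removals at which the status was dense** -/
theorem cnt_sum {u y0 : ℝ} (hu : 0 < u) (h0 : 0 ≤ y0) (hy : y0 ≤ u / 4) :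
    u / 4 * ∑ q ∈ range N, tb.Ps.Pr (fun w => C.Rl q w ∧ scq tb C u q w) ≤
      ∑ q ∈ range N, tb.Ps.Pr (fun w => C.Rl q w ∧ C.Vs (C.nu q w) w) +
      ∑ q ∈ range N, tb.Ps.Pr (fun w => (C.nu (q + 1) w = q + 1 ∨ q + 1 = N) ∧ ¬ C.Rl q w ∧
          y0 < dn tb C (C.nu q w) (q + 1) w) := by
  have one : ∀ n ∈ range N,
      u / 4 * tb.Ps.E (fun w => ind (C.nu n w = n) * ind (scn tb C N u n w)) ≤
        tb.Ps.E (fun w => ind (C.nu n w = n) * ind (C.Vs n w ∧ C.Rl (n + C.sg N n w - 1) w)) +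
        tb.Ps.E (fun w => ind (C.nu n w = n) * ind (¬ C.Rl (n + C.sg N n w - 1) w ∧
          y0 < dn tb C n (n + C.sg N n w) w)) := by
    intro n hn
    have hn' := Finset.mem_range.1 hn
    have a1 := start_E tb C n (fun _ w => ind (scn tb C N u n w)) (fun _ _ _ => rfl)
    have a4 := start_E tb C n (fun _ w => ind (C.Vs n w ∧ C.Rl (n + C.sg N n w - 1) w)) (fun _ _ _ => rfl)
    have a5 := start_E tb C n (fun _ w => ind (¬ C.Rl (n + C.sg N n w - 1) w ∧ y0 < dn tb C n (n + C.sg N n w) w))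
      (fun _ _ _ => rfl)
    rw [← a1, ← a4, ← a5, ← FP.E_smul, ← FP.E_add]
    refine FP.E_mono _ fun z _ => ?_
    have hw := world_cnt tb C N hn' z h0 hy (u := u)
    have h1 := mul_le_mul_of_nonneg_left hw (ind_nonneg (C.nu n z = n))
    unfold FP.Pr at h1
    linarith
  have hs := Finset.sum_le_sum one
  simp only [Finset.sum_add_distrib, ← Finset.mul_sum] at hs
  have c4 : ∑ n ∈ range N, tb.Ps.E (fun w => ind (C.nu n w = n) * ind (C.Vs n w ∧ C.Rl (n + C.sg N n w - 1) w)) =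
      ∑ q ∈ range N, tb.Ps.Pr (fun w => C.Rl q w ∧ C.Vs (C.nu q w) w) := by
    have e := sum_ends tb C N (fun n e w => ind (C.Rl (e - 1) w ∧ C.Vs n w) * 1)
    simp only [Nat.add_sub_cancel] at e
    refine Eq.trans (Finset.sum_congr rfl fun n hn => FP.E_congr _ fun w _ => ?_) (e.trans
      (Finset.sum_congr rfl fun q _ => FP.E_congr _ fun w _ => (Rl_abs C N w _ _).trans (mul_one _)))
    rw [mul_one]
    congr 2
    exact propext and_comm
  have c5 : ∑ n ∈ range N, tb.Ps.E (fun w => ind (C.nu n w = n) * ind (¬ C.Rl (n + C.sg N n w - 1) w ∧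
          y0 < dn tb C n (n + C.sg N n w) w)) =
      ∑ q ∈ range N, tb.Ps.Pr (fun w => (C.nu (q + 1) w = q + 1 ∨ q + 1 = N) ∧ ¬ C.Rl q w ∧
          y0 < dn tb C (C.nu q w) (q + 1) w) := by
    have e := sum_ends tb C N (fun n e w => ind (¬ C.Rl (e - 1) w ∧ y0 < dn tb C n e w))
    simp only [Nat.add_sub_cancel] at e
    refine e.trans (Finset.sum_congr rfl fun q _ => FP.E_congr _ fun w _ => ?_)
    rw [← ind_and]
  have c1 : ∑ q ∈ range N, tb.Ps.Pr (fun w => C.Rl q w ∧ scq tb C u q w) ≤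
      ∑ n ∈ range N, tb.Ps.E (fun w => ind (C.nu n w = n) * ind (scn tb C N u n w)) := by
    have e := sum_ends tb C N (fun n e w => ind (C.Rl (e - 1) w ∧ scq tb C u (e - 1) w) * 1)
    simp only [Nat.add_sub_cancel] at e
    have e' : ∑ q ∈ range N, tb.Ps.Pr (fun w => C.Rl q w ∧ scq tb C u q w) =
        ∑ n ∈ range N, tb.Ps.E (fun w => ind (C.nu n w = n) * (ind (C.Rl (n + C.sg N n w - 1) w ∧
          scq tb C u (n + C.sg N n w - 1) w) * 1)) := by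
      rw [e]
      refine Finset.sum_congr rfl fun q _ => ?_
      unfold FP.Pr
      exact FP.E_congr _ fun w _ => ((Rl_abs C N w _ _).trans (mul_one _)).symm
    rw [e']
    refine Finset.sum_le_sum fun n hn => FP.E_mono _ fun w _ => ?_
    have hn' := Finset.mem_range.1 hn
    by_cases hs : C.nu n w = n
    · rw [mul_one]
      refine mul_le_mul_of_nonneg_left (ind_mono fun hh => ?_) (ind_nonneg _)
      exact (scn_scq tb C N hn' hs).2 hh.2
    · rw [ind_not hs, zero_mul, zero_mul]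
  rw [c4, c5] at hs
  exact (mul_le_mul_of_nonneg_left c1 (by positivity)).trans hs

end cnt

/-! ## the bit in the form of the prices -/

section bit

variable {hv : Codes D v} {d1 kb d0 k0 p1 z : ℝ} {hd1 : 0 < d1} {hd11 : d1 ≤ 1} {hkb : 0 < kb} {hd0 : 0 < d0}
  {hd01 : d0 ≤ 1} {hk0 : 0 < k0} {hp1 : 0 < p1} {hz : 0 < z} {M : US (Om W X β)}

/-- **the bit of ONE** -/
theorem bitT_one (hM : M = USi tb hv d1 kb d0 k0 p1 z hd1 hd11 hkb hd0 hd01 hk0 hp1 hz) (hS : Sgt D M i)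
    {u y0 rho GV Rr NT : ℝ} (hu : 0 < u) (h0 : 0 ≤ y0) (hy : y0 ≤ u / 4) {ld : ℕ → Om W X β → Prop}
    (G : GamOK M (5 * T) y0 rho ld) (hr : 0 ≤ rho)
    (hGV : ∑ q ∈ range (5 * T), tb.Ps.Pr (fun w => lt5 M.toMS M.NP q w ∧ sts M.toMS i q w) ≤ GV)
    (hRr : RR M (5 * T) rho ld ≤ Rr) (hNT : 4 / u * (GV + Rr) ≤ NT) :
    PRF.BitT tb v {i} (fun _ _ _ => False) (fun q w => q % 5 = 1 ∧ scq tb (Ck hS) u q w) NT := by
  have b1 := cnt_sum tb (Ck hS) (5 * T) hu h0 hy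
  have c2 : ∑ q ∈ range (5 * T), tb.Ps.Pr (fun w => (Ck hS).Rl q w ∧ (Ck hS).Vs ((Ck hS).nu q w) w) =
      ∑ q ∈ range (5 * T), tb.Ps.Pr (fun w => lt5 M.toMS M.NP q w ∧ sts M.toMS i q w) := rfl
  have c3 : ∑ q ∈ range (5 * T), tb.Ps.Pr (fun w => ((Ck hS).nu (q + 1) w = q + 1 ∨ q + 1 = 5 * T) ∧ ¬ (Ck hS).Rl q w ∧
          y0 < dn tb (Ck hS) ((Ck hS).nu q w) (q + 1) w) =
      ∑ q ∈ range (5 * T), tb.Ps.Pr (fun w => (nu M.toMS (q + 1) w = q + 1 ∨ q + 1 = 5 * T) ∧ ¬ lt5 M.toMS M.NP q w ∧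
      y0 < dn tb (Ck hS) (nu M.toMS q w) (q + 1) w) := rfl
  rw [c2, c3] at b1
  have b2 : ∑ q ∈ range (5 * T), tb.Ps.Pr (fun w => (Ck hS).Rl q w ∧ scq tb (Ck hS) u q w) ≤ NT := by
    refine le_trans ?_ hNT
    have b3 := (end_dn tb hM hS G hr).trans hRr
    have b4 := b1.trans (add_le_add hGV b3)
    have b5 := mul_le_mul_of_nonneg_left b4 (show 0 ≤ 4 / u by positivity)
    refine le_trans (le_of_eq ?_) b5
    field_simp
  have n0 : 0 ≤ NT := le_trans (Finset.sum_nonneg fun q _ => tb.Ps.Pr_nonneg _) b2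
  refine ⟨fun _ _ _ _ _ _ => rfl, fun q a b e => ?_, fun j _ => ?_, ?_⟩
  · by_cases hq : q % 5 = 1
    · have h1 : scq tb (Ck hS) u q a = scq tb (Ck hS) u q b := by
        refine scq_fac tb (Ck hS) u q a b ?_
        rw [MVIp.nn_code (q := q) (by omega)]
        exact e
      show (_ ∧ _) = (_ ∧ _)
      rw [h1]
    · exact propext ⟨fun hh => absurd hh.1 hq, fun hh => absurd hh.1 hq⟩
  · refine le_trans (le_of_eq (Finset.sum_eq_zero fun q _ => ?_)) n0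
    unfold FP.Pr
    rw [← tb.Ps.E_const 0]
    exact tb.Ps.E_congr fun w _ => ind_not fun hh => hh.2
  · refine le_trans (Finset.sum_le_sum fun q _ => tb.Ps.Pr_mono fun w _ hh => ?_) b2
    subst hM
    exact ⟨MVT.ruO_lt tb hd1 hd11 hkb hd0 hd01 hk0 hp1 hz hh.1, hh.2.2⟩

end bit

/-! ## over `Ctx` -/

section ctx

open Pool.Agent.GMH.CX Pool.Agent.GMH.CTM Pool.Agent.GMH.MVT Pool.Agent.GMH.RSA Pool.Agent.GMH.GamR

/-- **ONE** (H3.MOV, M.7 (a)) -/
theorem one_ok {A : ℕ} (hA : 80 ≤ A) (ka : ℕ) : AllC A (fun C => ∀ Gd : ℕ → C.Q → Prop,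
    (∀ t < C.T, Fac (ZT C.D C.v (t + 1) t) (Gd t)) → ∀ i : Fin 3,
    OneOK C.h C.v C.p Gd (stP (C.M ka)) (spP C.h (C.M ka) C.v) C.T C.Lam i (CT.ix C.Lam 24)) := by
  have n1 := AllC.of_Ev (A := A) (((rr_num A 40).and (gam_side A ka)).and ((z_side A ka).and (CTO.one_num hA ka)))
  refine allc_mono (((n0_all A ka).and ((st0_all A ka).and (maF_C A ka))).and (((gvs_C A ka).and (ls_C A ka 40)).and
    ((two_v hA ka 40 (n0_all A ka)).and ((PRF.one_ctxE hA (4 * ka + 140) (ka + 40)).and n1))))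
    fun C hCA ⟨⟨hN0, hS0, hmA⟩, ⟨hGV, hLS⟩, hVV, hPr, ⟨hr, hg⟩, hz, hnum⟩ Gd fG i => ?_
  subst hCA
  obtain ⟨hz1, hz2, hz3, hz4⟩ := hz
  obtain ⟨⟨ht0, ht1, hy⟩, hc, hrh, hkT, hE⟩ := hnum
  have hL := C.hL
  have hL1 := C.H.Lam1
  have hL0 : 0 ≤ C.Lam := by linarith
  have nn0 : 0 ≤ N0 (C.U ka).toMS (5 * C.T) := Finset.sum_nonneg fun _ _ => FP.Pr_nonneg _ _
  have G := gam_ok C.tb (C.d1_pos ka) (C.d1_le ka) (C.kb_pos ka) C.d0_pos C.d0_le C.d0_pos C.p1_pos (C.z_pos ka) C.n1 C.N11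
    C.R C.H hz1 hg.1 hg.2
  have R1 := RR_le C.tb (C.d1_pos ka) (C.d1_le ka) (C.kb_pos ka) C.d0_pos C.d0_le C.d0_pos C.p1_pos (C.z_pos ka) C.n1 C.N11
    C.R C.H hg.2
  have R3 := R1.trans (hr _ nn0 hN0)
  have hM : C.U ka = USi C.tb C.codes (MVN.d1 C.Lam ka C.c0) (MVN.kb C.Lam ka C.c0) (MVN.d0 C.Lam C.c0) (MVN.d0 C.Lam C.c0)
    (MVN.p1 C.Lam C.A C.c0) (MVN.z C.Lam ka C.c0) (C.d1_pos ka) (C.d1_le ka) (C.kb_pos ka) C.d0_pos C.d0_le C.d0_pos
    C.p1_pos (C.z_pos ka) := rfl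
  have hS : Sgt C.D (C.U ka) i := sgt_run C.tb i
  have he0 := CTO.eO_pos hL ka
  have hu0 := CTO.uO_pos hL ka
  have he1 : CTO.eO C.Lam ka ≤ 1 := inv_le_one_of_one_le₀ (pw_one hL _)
  have pi40 : (0 : ℝ) ≤ CT.ix C.Lam 40 := (inv_pos.2 (MVN.pw_pos hL 40)).le
  have hVVi : ∀ j, j ≠ i → ∑ q ∈ range (5 * C.T), C.tb.Ps.Pr (fun w => lt5 (C.U ka).toMS (C.U ka).NP q w ∧
      sts (C.U ka).toMS i q w ∧ sts (C.U ka).toMS j q w) ≤ CT.ix C.Lam 40 := by
    intro j hj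
    refine le_trans (Finset.sum_le_sum fun q _ => C.tb.Ps.Pr_mono fun w _ hh => ?_) hVV
    have h5 : q % 5 = 1 := Rl_mod C.tb hM hS hh.1
    exact ⟨⟨h5, hh.1.2⟩, i, j, hj.symm, hh.2.1, hh.2.2⟩
  obtain ⟨Dv, hdev, hsum⟩ := hPr Gd (stP (C.M ka)) (spP C.h (C.M ka) C.v) fG
    (fun t _ => stP_fac C.tb (C.d1_pos ka) (C.d1_le ka) (C.kb_pos ka) C.d0_pos C.d0_le C.d0_pos C.p1_pos (C.z_pos ka) t)
    (fun t _ => spP_fac C.tb (C.d1_pos ka) (C.d1_le ka) (C.kb_pos ka) C.d0_pos C.d0_le C.d0_pos C.p1_pos (C.z_pos ka) t)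
    i Unit (by rw [Fintype.card_unit]; norm_num) (fun _ _ _ => False)
    (fun _ q w => q % 5 = 1 ∧ scq C.tb (Ck hS) (CTO.uO C.Lam ka) q w)
    (fun t _ => lft (scq C.tb (Ck hS) (CTO.uO C.Lam ka) (5 * t + 1)))
    (fun _ => bitT_one C.tb hM hS hu0 hz4.le hy G (Real.exp_pos _).le (hGV i) R3
      (hkT _ _ (MVN.pw_pos hL _).le pi40 le_rfl le_rfl))
    (fun t _ _ w _ => by
      constructor
      · rintro ⟨w', a, b, c⟩
        exact Or.inl ⟨w', a, b, by omega, c⟩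
      · rintro (⟨w', a, b, _, c⟩ | ⟨w', a, b, c⟩)
        · exact ⟨w', a, b, c⟩
        · exact c.elim)
    (CTO.eO C.Lam ka) le_rfl
  refine ⟨Unit, inferInstance, fun _ _ _ _ => True, fun t _ => lft (scq C.tb (Ck hS) (CTO.uO C.Lam ka) (5 * t + 1)),
    fun t w f => ind (act (C.D.P C.h t) (ZbQ C.D C.v (5 * t + 1) i) (FQ C.v t i) (ZbQ C.D C.v (5 * t + 5) i)
      (CTO.eO C.Lam ka) w (f ())), Dv, CTO.eO C.Lam ka, 3 * C.Lam, he0, he1, by positivity, le_rfl, ?_, ?_, hsum, ?_⟩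
  · intro t ht
    refine ⟨fun _ _ _ _ _ => rfl, fun _ _ _ _ _ _ => rfl, fun f a b e => ?_, fun _ _ => ind_nonneg _,
      fun _ _ => ind_le_one _, fun k g hg hb => hdev t ht k g hg hb⟩
    have e1 : ZQ C.D C.v (5 * t + 5) a = ZQ C.D C.v (5 * t + 5) b := (Prod.mk.inj e).1
    have e2 : ZQ C.D C.v (5 * t + 1) a = ZQ C.D C.v (5 * t + 1) b := (Prod.mk.inj (Prod.mk.inj e).2).2
    refine congrArg ind (act_fac (C.D.P C.h t) _ _ a b ?_)
    exact Prod.ext (ZQ_Zb (5 * t + 5) i a b e1) (ZQ_Zb (5 * t + 1) i a b e2)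
  · have key := one_dyn C.tb C.H C.R C.n1 C.N11 hM hS (p := C.p) (A := fun t => aV C.h C.v C.p Gd (stP (C.M ka))
      (spP C.h (C.M ka) C.v) i false t) (u := CTO.uO C.Lam ka) (e := CTO.eO C.Lam ka) (eta := CTO.eO C.Lam ka)
      (lam := CTO.eO C.Lam ka) he0 he1 he0 he1 he0 hu0 hz4.le hy G (Real.exp_pos _).le
      (fun t ht w hw ha => ⟨ha.1.1.1, ha.1.1.2, aV_false C.tb (C.d1_pos ka) (C.d1_le ka) (C.kb_pos ka) C.d0_pos C.d0_le
        C.d0_pos C.p1_pos (C.z_pos ka) C.p Gd i t t ha⟩)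
      (fun t ht w hw h1 h2 h3 h4 => ⟨⟨⟨h1, h2⟩, AQ_1 C.h C.p h1⟩, by
        have e := stP_pt C.tb (v := C.v) (φ := C.φ) (C.d1_pos ka) (C.d1_le ka) (C.kb_pos ka) C.d0_pos C.d0_le C.d0_pos
          C.p1_pos (C.z_pos ka) t t w
        exact e.trans (fstV_eq h3 h4)⟩)
      ht0 ht1 (CTO.MO C.Lam C.c0) (hc C.al (TT.log_al C.H C.h.pos)) (hGV i) (hLS i) hVVi hS0 R3 C.hd
    have h9 := hrh (pw C.Lam (ka + 12)) (CT.ix C.Lam 40) (CT.ix C.Lam 40) (1 + Real.exp (4 * MVN.pQ C.Lam C.c0))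
      (CT.ix C.Lam 40) ((pw C.Lam (C.c0 + C.A))⁻¹) (MVN.pw_pos hL _).le pi40 pi40 (by positivity) pi40
      (inv_pos.2 (MVN.pw_pos hL _)).le le_rfl le_rfl le_rfl le_rfl le_rfl le_rfl
    unfold CTO.rhO at h9
    exact key.trans h9
  · refine le_trans (Finset.sum_le_sum fun t _ => no_le (C.D.P C.h t) (e := CTO.eO C.Lam ka) he0.le he0) ?_
    rw [← Finset.mul_sum]
    exact hE _ (Finset.sum_nonneg fun _ _ => FP.Pr_nonneg _ _) (hmA Gd i)

end ctx

end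

end Pool.Agent.GMH.One
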