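import Pool.Agent.GMH.ActO
import Pool.Agent.GMH.GamI
import Pool.Agent.GMH.CtxN
import Pool.Agent.GMH.ConTM3
import Pool.Agent.GMH.ConTR
import Pool.Agent.GMH.RmCnt
import Pool.Agent.GMH.MVT

/-!
# GMH/OnePv (helper76): THE ONE PRIVATE NUMBER (`OneP` of `GMH/TopFin`)

In the private step (state `5 t + 4`, letters of the state `5 t + 5`) on the points where the vertex `i` has status and its new
letter is light, the positive part of the log ratio of the own law of the top without `i`: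
* `max (log r) 0 ≤ e` if the top is not active, `≤ log (1 / al) ≤ Lam` if it is (`lr_le`);
* status (own point of `i`) and activity (face of `i`) are independent at own `a` and node (`st_ac`), and the density of the
  status is at most `y0` except on a set `A` of own `a` and node, rare in the public class (`GamR.rare_up`);
* `A` and light: the class of the vertex `i` sees more than the public class by the surprisal of its letters, at most `X0` on
  the points alive at `2 (t + 1)` (`rare_X`);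
* `one_pv` : the sum over all times; `one_pv_all` : `≤ x^(-K)`, every `K`, over `Ctx`; `oneP_sp` : `OneP` for `MVT.spP`;
* `aV_true_sum` : the points of the private step with status `k` : `∑ Pr (aV k true) ≤ 6 n Lam`.
-/

set_option autoImplicit false
set_option linter.unusedSectionVars false

namespace Pool.Agent.GMH.OPV

open Finset Pool.Agent.PWZ Pool.Agent.M3 Pool.Agent.GM Pool.Agent.GM.Harm Pool.Agent.GMH Pool.Agent.GMH.NZ
open Pool.Agent.GMH.V3 Pool.Agent.GMH.TP Pool.Agent.GMH.TD Pool.Agent.GMH.Dy Pool.Agent.GMH.MV Pool.Agent.GMH.MVI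
open Pool.Agent.GMH.UV Pool.Agent.GMH.KF Pool.Agent.GMH.TRF Pool.Agent.GMH.CK

noncomputable section

/-! ### numbers -/

/-- a finer class -/
theorem ce_fine {Ω κ κ' : Type*} [Fintype Ω] (P : FP Ω) {Z : Ω → κ} {Z' : Ω → κ'} (hZ : Fac Z' Z) {f : Ω → ℝ}
    (f0 : ∀ w, 0 ≤ f w) {w : Ω} (hw : P.p w ≠ 0) : P.ce Z' f w * P.m Z' w ≤ P.ce Z f w * P.m Z w := by
  have h1 := (P.m_pos Z' hw).ne'
  have h2 := (P.m_pos Z hw).ne'
  unfold FP.ce
  rw [div_mul_cancel₀ _ h1, div_mul_cancel₀ _ h2]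
  refine P.E_mono fun u _ => mul_le_mul_of_nonneg_right (ind_mono fun e => hZ u w e) (f0 u)

/-- the positive part of the logarithm of a ratio which is not active -/
theorem log_na {r e : ℝ} (he : 0 ≤ e) (hr : |r - 1| ≤ e) : max (Real.log r) 0 ≤ e := by
  refine max_le ?_ he
  rcases le_or_gt r 0 with h0 | h0
  · have h1 := abs_le.1 hr
    have h2 : Real.log r ≤ |r| - 1 ∨ r = 0 := by
      by_cases h3 : r = 0
      · exact Or.inr h3
      · left
        have := Real.log_le_sub_one_of_pos (abs_pos.2 h3)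
        rwa [Real.log_abs] at this
    rcases h2 with h2 | h2
    · have : |r| = -r := abs_of_nonpos h0
      linarith
    · rw [h2, Real.log_zero]
      exact he
  · have h1 := Real.log_le_sub_one_of_pos h0
    have h2 := (abs_le.1 hr).2
    linarith

section tab

variable {X β γ φ : Type} [Fintype X] [Fintype β] [Fintype φ] [Nonempty X] [Nonempty β]
variable {D : HD (Fin 3) X β γ φ} {al : ℝ} {prr : ℕ → Fin 3 → φ → φ} {T : ℕ} {W : Type} [Fintype W]
variable (tb : Tab D prr T W)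

open Pool.Agent.GMH.MVIp in
/-- **the points do not see a function of own `a` and node, given a public class** -/
theorem key_f (n : ℕ) {κ : Type*} {M : Om W X β → κ} (hM : Fac (sgt D ∅ n) M) (hM' : Fac M (ndE D ∅ n))
    {η : Type*} {Y : Om W X β → η} (hY : Fac (fun w : Om W X β => w.2.2) Y) {f : Om W X β → ℝ}
    (hf : Fac (sgt D ∅ n) f) {w : Om W X β} (hw : tb.Ps.p w ≠ 0) :
    tb.Ps.ce (fun u => (Y u, M u)) f w = tb.Ps.ce M f w := by
  set g : Om W X β → ℝ := fun u => ind (Y u = Y w) with hg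
  set c := tb.Ps.ce (ndE D ∅ n) g w with hc
  have fg : Fac (ndE D univ n) g := Fac.ind fun u v e => by
    rw [hY u v (funext fun j => (ndE_eq.1 e).2.1 j (mem_univ j))]
  have e0 : tb.Ps.m (fun u => (Y u, M u)) w = c * tb.Ps.m M w := pr_key tb ∅ n hM hM' hY w
  have e1 : tb.Ps.E (fun u => ind ((Y u, M u) = (Y w, M w)) * f u) =
      tb.Ps.E (fun u => (ind (M u = M w) * f u) * g u) := by
    refine tb.Ps.E_congr fun u _ => ?_
    rw [Prod.mk.injEq, ind_and]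
    ring
  have fk : Fac (sgt D ∅ n) (fun u => ind (M u = M w) * f u) := fun a b e => by
    show ind (M a = M w) * f a = ind (M b = M w) * f b
    rw [hM a b e, hf a b e]
  have e2 : tb.Ps.E (fun u => (ind (M u = M w) * f u) * g u) =
      tb.Ps.E (fun u => (ind (M u = M w) * f u) * tb.Ps.ce (sgt D ∅ n) g u) := (tb.Ps.E_mul_ce fk g).symm
  have e3 : tb.Ps.E (fun u => (ind (M u = M w) * f u) * tb.Ps.ce (sgt D ∅ n) g u) =
      c * tb.Ps.E (fun u => ind (M u = M w) * f u) := by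
    rw [← tb.Ps.E_smul]
    refine tb.Ps.E_congr fun u hu => ?_
    rw [Crd.ce_ci (nd_ci tb ∅ n) (sgt_ndE ∅ n) fg hu]
    by_cases hM2 : M u = M w
    · rw [tb.Ps.ce_fac (ndE D ∅ n) g u w (hM' u w hM2)]
      ring
    · rw [ind_not hM2, zero_mul, zero_mul, mul_zero]
  have h1 := (tb.Ps.m_pos (fun u => (Y u, M u)) hw).ne'
  have h2 := (tb.Ps.m_pos M hw).ne'
  have hc0 : c ≠ 0 := fun h0 => h1 (by rw [e0, h0, zero_mul])
  unfold FP.ce
  rw [e1, e2, e3, e0]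
  exact mul_div_mul_left _ _ hc0

end tab

section run

variable {X β γ φ : Type} [Fintype X] [Fintype β] [Fintype φ] [Nonempty X] [Nonempty β]
variable {D : HD (Fin 3) X β γ φ} {al : ℝ} (h : D.Thick al) {prr : ℕ → Fin 3 → φ → φ} {T : ℕ} {W : Type} [Fintype W]
variable (tb : Tab D prr T W) {v : ℕ → Finset (Fin 3) → X → (Fin 3 → β) → Pt (Fin 3) X β φ}

variable (v) in
/-- the class of the vertex `i` before and after the private step -/
def lpO (i : Fin 3) (t : ℕ) (w : Om W X β) : Prop :=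
  2 * tb.Ps.m (GamR.XN tb v i (5 * t + 5)) w < tb.Ps.m (GamR.XN tb v i (5 * t + 4)) w

variable (v) in
/-- surprisal of the letters of the vertex `i` after the private step -/
def ssO (i : Fin 3) (t : ℕ) (w : Om W X β) : ℝ :=
  sp tb.Ps (XLo tb v i (5 * t + 5)) (fun u => (u.2.2 i, NPo tb v (5 * t + 5) u)) w

variable (v) in
/-- density of `A` at own `a` and node -/
def dnO (A : Om W X β → Prop) (t : ℕ) (w : Om W X β) : ℝ :=
  tb.Ps.ce (sgt D ∅ (TP.nn (5 * t + 4))) (fun u => ind (A u)) w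

theorem XN_le (i : Fin 3) {s s' : ℕ} (hs : s ≤ s') : Fac (GamR.XN tb v i s') (GamR.XN tb v i s) := fun a b e =>
  Prod.ext (XLo_le tb v i hs a b (Prod.mk.inj e).1) (NPo_le tb v hs a b (Prod.mk.inj e).2)

theorem XLo_y (i : Fin 3) (s : ℕ) {a b : Om W X β} (e : XLo tb v i s a = XLo tb v i s b) : a.2.2 i = b.2.2 i :=
  congrArg Prod.fst e

theorem lpO_fac (i : Fin 3) (t : ℕ) : Fac (GamR.XN tb v i (5 * t + 5)) (lpO tb v i t) := by
  intro a b e
  have h1 := tb.Ps.Fac_m (GamR.XN tb v i (5 * t + 5)) a b e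
  have h2 := tb.Ps.Fac_m (GamR.XN tb v i (5 * t + 4)) a b (XN_le tb i (by omega) a b e)
  show (2 * _ < _) = (2 * _ < _)
  rw [h1, h2]

theorem ssO_fac (i : Fin 3) (t : ℕ) : Fac (GamR.XN tb v i (5 * t + 5)) (ssO tb v i t) := by
  intro a b e
  have e1 := (Prod.mk.inj e).1
  have e2 := (Prod.mk.inj e).2
  exact sp_fac tb.Ps (XLo tb v i (5 * t + 5)) (fun u => (u.2.2 i, NPo tb v (5 * t + 5) u)) a b
    (Prod.ext e1 (Prod.ext (XLo_y tb i _ e1) e2))

theorem N5 (t : ℕ) : NPo (W := W) tb v (5 * t + 5) = NPo tb v (5 * t + 4) :=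
  GamR.NPo_code tb (s := 5 * t + 4) (by omega)

/-- **rarity on a light class of the vertex** -/
theorem rare_X {n N1 : ℝ} (hn : 1 ≤ n) (hN1 : 1 ≤ N1) (R : Run h (pr3 (Fin 3) n N1) (SS1 (Fin 3)) (AdmDep D) v)
    {t : ℕ} (ht : t < T) (i : Fin 3) {w : Om W X β} (hw : tb.Ps.p w ≠ 0) {A : Om W X β → Prop}
    (hA : Fac (GamR.XN tb v i (5 * t + 4)) A) {k : ℝ}
    (hq : tb.Ps.ce (NPo tb v (5 * t + 4)) (fun u => ind (A u)) w ≤ k / 4) {X0 : ℝ} (hX : ssO tb v i t w ≤ X0) :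
    tb.Ps.ce (GamR.XN tb v i (5 * t + 5)) (fun u => ind (k ≤ dnO tb A t u)) w ≤
      Real.exp X0 * Real.exp (1 - N1 * k / 4) := by
  set f : Om W X β → ℝ := fun u => ind (k ≤ dnO tb A t u) with hf
  have ff : Fac (sgt D ∅ (TP.nn (5 * t + 4))) f := fun a b e => by
    show ind (k ≤ dnO tb A t a) = ind (k ≤ dnO tb A t b)
    have e1 : dnO tb A t a = dnO tb A t b := tb.Ps.ce_fac _ _ a b e
    rw [e1]
  have hM : Fac (sgt (W := W) D ∅ (TP.nn (5 * t + 4))) (NPo tb v (5 * t + 4)) :=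
    MVIp.NPq_sgt tb R.codes le_rfl (nc_le (5 * t + 4) ∅) ∅ 0
  have h1 := GamR.rare_up tb hn hN1 R (show 5 * t + 4 ≤ 5 * T by omega) (by omega) i hw hA (k := k) hq
  have h2 : tb.Ps.ce (fun u => (u.2.2 i, NPo tb v (5 * t + 4) u)) f w = tb.Ps.ce (NPo tb v (5 * t + 4)) f w :=
    key_f tb (TP.nn (5 * t + 4)) hM (MVIp.NPq_ndE tb (5 * t + 4) 0) (Y := fun u : Om W X β => u.2.2 i)
      (fun a b e => congrFun e i) ff hw
  have h3 := ce_fine tb.Ps (Z := fun u => (u.2.2 i, NPo tb v (5 * t + 5) u)) (Z' := GamR.XN tb v i (5 * t + 5))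
    (fun a b e => Prod.ext (XLo_y tb i _ (Prod.mk.inj e).1) (Prod.mk.inj e).2) (f := f) (fun u => ind_nonneg _) hw
  rw [N5] at h3
  rw [h2] at h3
  have p1 := tb.Ps.m_pos (GamR.XN tb v i (5 * t + 5)) hw
  have p2 := tb.Ps.m_pos (fun u => (u.2.2 i, NPo tb v (5 * t + 4) u)) hw
  have p3 := tb.Ps.m_pos (fun u => (XLo tb v i (5 * t + 5) u, (u.2.2 i, NPo tb v (5 * t + 4) u))) hw
  have h4 : tb.Ps.m (fun u => (XLo tb v i (5 * t + 5) u, (u.2.2 i, NPo tb v (5 * t + 4) u))) w ≤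
      tb.Ps.m (GamR.XN tb v i (5 * t + 5)) w := by
    refine tb.Ps.m_anti (fun a b e => ?_) w
    have e1 := Prod.mk.inj e
    refine Prod.ext e1.1 ?_
    show NPo tb v (5 * t + 5) a = NPo tb v (5 * t + 5) b
    rw [N5]
    exact (Prod.mk.inj e1.2).2
  have h5 : tb.Ps.m (fun u => (u.2.2 i, NPo tb v (5 * t + 4) u)) w ≤
      Real.exp X0 * tb.Ps.m (GamR.XN tb v i (5 * t + 5)) w := by
    unfold ssO at hX
    rw [N5] at hX
    unfold sp at hX
    have h6 : Real.log (tb.Ps.m (fun u => (u.2.2 i, NPo tb v (5 * t + 4) u)) w) ≤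
        X0 + Real.log (tb.Ps.m (fun u => (XLo tb v i (5 * t + 5) u, (u.2.2 i, NPo tb v (5 * t + 4) u))) w) := by
      linarith
    calc tb.Ps.m (fun u => (u.2.2 i, NPo tb v (5 * t + 4) u)) w =
        Real.exp (Real.log (tb.Ps.m (fun u => (u.2.2 i, NPo tb v (5 * t + 4) u)) w)) := (Real.exp_log p2).symm
      _ ≤ Real.exp (X0 + Real.log (tb.Ps.m (fun u => (XLo tb v i (5 * t + 5) u, (u.2.2 i, NPo tb v (5 * t + 4) u))) w)) :=
          Real.exp_le_exp.2 h6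
      _ = Real.exp X0 * tb.Ps.m (fun u => (XLo tb v i (5 * t + 5) u, (u.2.2 i, NPo tb v (5 * t + 4) u))) w := by
          rw [Real.exp_add, Real.exp_log p3]
      _ ≤ _ := mul_le_mul_of_nonneg_left h4 (Real.exp_pos _).le
  have h7 : tb.Ps.ce (NPo tb v (5 * t + 4)) f w ≤ Real.exp (1 - N1 * k / 4) := h1
  have h8 : 0 ≤ tb.Ps.ce (NPo tb v (5 * t + 4)) f w := tb.Ps.ce_nonneg (fun _ _ => ind_nonneg _) w
  have h9 : tb.Ps.ce (GamR.XN tb v i (5 * t + 5)) f w * tb.Ps.m (GamR.XN tb v i (5 * t + 5)) w ≤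
      (Real.exp X0 * Real.exp (1 - N1 * k / 4)) * tb.Ps.m (GamR.XN tb v i (5 * t + 5)) w := by
    refine h3.trans ((mul_le_mul h7 h5 p2.le (Real.exp_pos _).le).trans (le_of_eq ?_))
    ring
  exact le_of_mul_le_mul_right h9 p1

/-- the rare set on the light values -/
theorem ev_rare {n N1 : ℝ} (hn : 1 ≤ n) (hN1 : 1 ≤ N1) (R : Run h (pr3 (Fin 3) n N1) (SS1 (Fin 3)) (AdmDep D) v)
    {t : ℕ} (ht : t < T) (i : Fin 3) {A : Om W X β → Prop} (hA : Fac (GamR.XN tb v i (5 * t + 4)) A) {k : ℝ}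
    (hq : ∀ w, tb.Ps.p w ≠ 0 → tb.Ps.ce (NPo tb v (5 * t + 4)) (fun u => ind (A u)) w ≤ k / 4) (X0 : ℝ) :
    tb.Ps.E (fun w => ind (lpO tb v i t w ∧ ssO tb v i t w ≤ X0) * ind (k ≤ dnO tb A t w)) ≤
      Real.exp X0 * Real.exp (1 - N1 * k / 4) * tb.Ps.Pr (lpO tb v i t) := by
  have fg : Fac (GamR.XN tb v i (5 * t + 5)) (fun w => ind (lpO tb v i t w ∧ ssO tb v i t w ≤ X0)) := fun a b e => by
    have e1 : lpO tb v i t a = lpO tb v i t b := lpO_fac tb i t a b e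
    have e2 : ssO tb v i t a = ssO tb v i t b := ssO_fac tb i t a b e
    show ind (_ ∧ _) = ind (_ ∧ _)
    rw [e1, e2]
  rw [← tb.Ps.E_mul_ce fg]
  unfold FP.Pr
  rw [← tb.Ps.E_smul]
  refine tb.Ps.E_mono fun w hw => ?_
  have hc : 0 ≤ Real.exp X0 * Real.exp (1 - N1 * k / 4) := by positivity
  by_cases hh : lpO tb v i t w ∧ ssO tb v i t w ≤ X0
  · rw [ind_of hh, ind_of hh.1, one_mul, mul_one]
    exact rare_X h tb hn hN1 R ht i hw hA (hq w hw) hh.2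
  · rw [ind_not hh, zero_mul]
    exact mul_nonneg hc (ind_nonneg _)

/-- **status and activity are independent at own `a` and node** -/
theorem st_ac (hv : Codes D v) {t : ℕ} (i : Fin 3) {A : Om W X β → Prop} (hA : Fac (GamR.XN tb v i (5 * t + 4)) A)
    {k : ℝ} {ac : Om W X β → Prop} (hac : Fac (Yt X D W TP.nn i (5 * t + 4)) ac) :
    tb.Ps.E (fun w => ind (A w ∧ ¬ k ≤ dnO tb A t w) * ind (ac w)) ≤ k * tb.Ps.Pr ac ∨ k < 0 := by
  by_cases hk : k < 0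
  · exact Or.inr hk
  left
  push Not at hk
  have hci := ci_vy tb TP.nn i (5 * t + 4)
  have fS : Fac (nt X D W TP.nn (5 * t + 4)) (fun w => ind (¬ k ≤ dnO tb A t w)) := fun a b e => by
    have e1 : dnO tb A t a = dnO tb A t b := tb.Ps.ce_fac _ _ a b e
    show ind (¬ k ≤ dnO tb A t a) = ind (¬ k ≤ dnO tb A t b)
    rw [e1]
  have fV : Fac (Dy.Vt X D W TP.nn i (5 * t + 4)) (fun w => ind (A w ∧ ¬ k ≤ dnO tb A t w)) := fun a b e => by
    have e' : sgt D {i} (TP.nn (5 * t + 4)) a = sgt D {i} (TP.nn (5 * t + 4)) b := e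
    have e1 : A a = A b := hA a b (Prod.ext
      (MVIp.XLq_sgt tb (i := i) (E := {i}) hv (nc_le (5 * t + 4) {i}) (Finset.mem_singleton_self i) 0 a b e')
      (MVIp.NPq_sgt tb hv le_rfl (nc_le (5 * t + 4) ∅) {i} 0 a b e'))
    have e2 : dnO tb A t a = dnO tb A t b := tb.Ps.ce_fac _ _ a b (sgt_mono (empty_subset _) _ a b e')
    show ind (_ ∧ _) = ind (_ ∧ _)
    rw [e1, e2]
  have fY : Fac (Yt X D W TP.nn i (5 * t + 4)) (fun w => ind (ac w)) := fun a b e => by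
    show ind (ac a) = ind (ac b)
    rw [hac a b e]
  have e1 : tb.Ps.E (fun w => ind (A w ∧ ¬ k ≤ dnO tb A t w) * ind (ac w)) =
      tb.Ps.E (fun w => tb.Ps.ce (nt X D W TP.nn (5 * t + 4)) (fun u => ind (A u ∧ ¬ k ≤ dnO tb A t u)) w *
        tb.Ps.ce (nt X D W TP.nn (5 * t + 4)) (fun u => ind (ac u)) w) := by
    rw [← tb.Ps.E_ce (nt X D W TP.nn (5 * t + 4)) (fun w => ind (A w ∧ ¬ k ≤ dnO tb A t w) * ind (ac w))]
    exact tb.Ps.E_congr fun w hw => hci _ _ fV fY w hw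
  rw [e1]
  unfold FP.Pr
  rw [← tb.Ps.E_ce (nt X D W TP.nn (5 * t + 4)) (fun u => ind (ac u)), ← tb.Ps.E_smul]
  refine tb.Ps.E_mono fun w hw => mul_le_mul_of_nonneg_right ?_ (tb.Ps.ce_nonneg (fun _ _ => ind_nonneg _) w)
  have e2 : tb.Ps.ce (nt X D W TP.nn (5 * t + 4)) (fun u => ind (A u ∧ ¬ k ≤ dnO tb A t u)) w =
      ind (¬ k ≤ dnO tb A t w) * dnO tb A t w := by
    have e3 : (fun u => ind (A u ∧ ¬ k ≤ dnO tb A t u)) = fun u => ind (¬ k ≤ dnO tb A t u) * ind (A u) := by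
      funext u
      rw [ind_and]
      ring
    rw [e3]
    exact tb.Ps.ce_mul fS _ w
  rw [e2]
  by_cases hd : k ≤ dnO tb A t w
  · rw [ind_not (not_not.2 hd), zero_mul]
    exact hk
  · rw [ind_of hd, one_mul]
    exact (not_le.1 hd).le

/-! ### the transfer -/

theorem lpO_pt {t : ℕ} (ht : t ≤ T) (i : Fin 3) (w : Om W X β) : lpv h v i t (tb.pt t w) ↔ lpO tb v i t w := by
  unfold lpv lpO
  rw [← m_CNo h tb v ht, ← m_CNo h tb v ht]
  exact Iff.rfl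

theorem lpO_Pr {t : ℕ} (ht : t ≤ T) (i : Fin 3) : tb.Ps.Pr (lpO tb v i t) = (D.P h t).Pr (lpv h v i t) := by
  unfold FP.Pr
  rw [← (pul_pt h tb ht).E]
  refine tb.Ps.E_congr fun w _ => ?_
  rw [propext (lpO_pt h tb ht i w)]

theorem ss_pt {t : ℕ} (ht : t ≤ T) (i : Fin 3) (w : Om W X β) : ssQ h v (5 * (t + 1)) i (tb.pt t w) = ssO tb v i t w := by
  unfold ssQ
  rw [sp_xy h (xy_XLq (5 * (t + 1)) i) (g := fun u : Pt (Fin 3) X β φ => (u.2.1 i, NPq D v (5 * (t + 1)) u))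
    (fun x y F F' => rfl) (5 * (t + 1) / 5) t (tb.pt t w)]
  have h1 := pul_sp (pul_pt h tb ht) (XLq v (5 * (t + 1)) i)
    (fun u : Pt (Fin 3) X β φ => (u.2.1 i, NPq D v (5 * (t + 1)) u)) w
  rw [← h1]
  rfl

theorem rt_pt (i : Fin 3) (t : ℕ) (w : Om W X β) : rtO h tb v i (5 * t + 4) w =
    rS h v 5 t i (tb.pt t w) (FQ v t i (tb.pt t w)) := by
  have e1 : (5 * t + 4) / 5 = t := by omega
  have e2 : sO (5 * t + 4) = 5 := by
    unfold sO
    rw [if_neg (by omega), if_neg (by omega), if_neg (by omega), if_pos (by omega)]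
  unfold rtO
  rw [e1, e2]

/-- the log ratio of the own law at the true letter -/
theorem lr_le {dg : ℕ → X → ℝ} {Lam : ℝ} (H : D.Hyp dg prr al T Lam) {n N1 : ℝ} (hn : 1 ≤ n) (hN1 : 1 ≤ N1)
    (R : Run h (pr3 (Fin 3) n N1) (SS1 (Fin 3)) (AdmDep D) v) {t : ℕ} (ht : t ≤ T) (s : Fin 6) (i : Fin 3)
    {w : Pt (Fin 3) X β φ} (hw : (D.P h t).p w ≠ 0) : Real.log (rS h v s t i w (FQ v t i w)) ≤ Lam := by
  have hSl : ∀ l : Fin 3, univ.erase l ∈ SS1 (Fin 3) := fun l => mem_SS1.2 (Finset.erase_ne_self.2 (mem_univ l))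
  have hSu : (univ : Finset (Fin 3)) ∉ SS1 (Fin 3) := fun hh => mem_SS1.1 hh rfl
  have hN : ∀ l : Fin 3, 0 < pr3 (Fin 3) n N1 (univ.erase l) := fun l => pr3_pos (by linarith) (by linarith) l
  have e1 : (D.P h t).pv (fun u => (ZbQ D v (qe s t) i u, ZbQ D v (qs s t) i u)) (FQ v t i) w (FQ v t i w) /
      (D.P h t).pv (ZbQ D v (qs s t) i) (FQ v t i) w (FQ v t i w) = rS h v s t i w (FQ v t i w) :=
    real_r (D.P h t) (ZbQ D v (qs s t) i) (FQ v t i) (ZbQ D v (qe s t) i) hw (FQ v t i w)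
  rw [← e1, log_ratio_sp (D.P h t) hw]
  have h1 := sp_Zb_le H R hSl hSu hN ht (qs_ge s t) i hw
  have h2 := TT.log_al H h.pos
  have h3 := sp_nonneg (D.P h t) (FQ v t i) (fun u => (ZbQ D v (qe s t) i u, ZbQ D v (qs s t) i u)) hw
  linarith

theorem acO_sum4 {dg : ℕ → X → ℝ} {Lam : ℝ} (H : D.Hyp dg prr al T Lam) {n N1 : ℝ}
    (R : Run h (pr3 (Fin 3) n N1) (SS1 (Fin 3)) (AdmDep D) v) (hn : 1 ≤ n) (hN1 : 1 ≤ N1) (i : Fin 3) {e : ℝ} (he : 0 < e)
    (he1 : e ≤ 1) : ∑ t ∈ range T, tb.Ps.Pr (acO h tb v e i (5 * t + 4)) ≤ 240 * Lam / e ^ 2 := by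
  refine le_trans ?_ (acO_sum h tb H R hn hN1 i he he1)
  rw [sum_five]
  refine Finset.sum_le_sum fun t _ => ?_
  have h0 := tb.Ps.Pr_nonneg (acO h tb v e i (5 * t))
  have h1 := tb.Ps.Pr_nonneg (acO h tb v e i (5 * t + 1))
  have h2 := tb.Ps.Pr_nonneg (acO h tb v e i (5 * t + 2))
  have h3 := tb.Ps.Pr_nonneg (acO h tb v e i (5 * t + 3))
  linarith

/-- the points killed by the private letters -/
def kl2 (p : AP) (t : ℕ) (w : Pt (Fin 3) X β φ) : Prop := Ar h v p (2 * t + 1) w ∧ ¬ Ar h v p (2 * (t + 1)) w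

theorem kl2_sum {dg : ℕ → X → ℝ} {Lam : ℝ} (H : D.Hyp dg prr al T Lam) (p : AP) :
    ∑ t ∈ range T, tb.Ps.Pr (fun w => kl2 h (v := v) p t (tb.pt t w)) ≤ (D.P h T).Pr (fun w => ¬ Ar h v p (2 * T) w) := by
  refine le_trans (le_of_eq (Finset.sum_congr rfl fun t ht => ?_)) (sum_killT (h := h) (v := v) H p)
  rw [(pul_pt h tb (Finset.mem_range.1 ht).le).Pr (kl2 h (v := v) p t)]
  refine Pr_xy h (fun x y F F' => ?_) t (t + 1)
  show (_ ∧ ¬ _) = (_ ∧ ¬ _)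
  rw [propext (Ar_lab h p (2 * t + 1) x y F F'), propext (Ar_lab h p (2 * (t + 1)) x y F F')]

/-- **one point** -/
theorem pt_le {dg : ℕ → X → ℝ} {Lam : ℝ} (hL : 0 ≤ Lam) (H : D.Hyp dg prr al T Lam) {n N1 : ℝ} (hn : 1 ≤ n)
    (hN1 : 1 ≤ N1) (R : Run h (pr3 (Fin 3) n N1) (SS1 (Fin 3)) (AdmDep D) v) (p : AP) {t : ℕ} (ht : t < T) (i : Fin 3)
    {A : Om W X β → Prop} {k e : ℝ} (he : 0 ≤ e) {B : Pt (Fin 3) X β φ → Prop}
    (hB : ∀ w, tb.Ps.p w ≠ 0 → B (tb.pt t w) → Ar h v p (2 * t + 1) (tb.pt t w) ∧ A w ∧ lpv h v i t (tb.pt t w))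
    {w : Om W X β} (hw : tb.Ps.p w ≠ 0) :
    ind (B (tb.pt t w)) * max (Real.log (rS h v 5 t i (tb.pt t w) (FQ v t i (tb.pt t w)))) 0 ≤
      e * ind (lpO tb v i t w) + Lam * (ind (A w ∧ ¬ k ≤ dnO tb A t w) * ind (acO h tb v e i (5 * t + 4) w) +
        ind (lpO tb v i t w ∧ ssO tb v i t w ≤ p.X0) * ind (k ≤ dnO tb A t w) + ind (kl2 h (v := v) p t (tb.pt t w))) := by
  have i1 := ind_nonneg (A w ∧ ¬ k ≤ dnO tb A t w)
  have i2 := ind_nonneg (acO h tb v e i (5 * t + 4) w)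
  have i3 := ind_nonneg (lpO tb v i t w ∧ ssO tb v i t w ≤ p.X0)
  have i4 := ind_nonneg (k ≤ dnO tb A t w)
  have i5 := ind_nonneg (kl2 h (v := v) p t (tb.pt t w))
  have i6 := ind_nonneg (lpO tb v i t w)
  have j1 := mul_nonneg i1 i2
  have j2 := mul_nonneg i3 i4
  have hR0 : 0 ≤ e * ind (lpO tb v i t w) + Lam * (ind (A w ∧ ¬ k ≤ dnO tb A t w) *
      ind (acO h tb v e i (5 * t + 4) w) + ind (lpO tb v i t w ∧ ssO tb v i t w ≤ p.X0) * ind (k ≤ dnO tb A t w) +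
      ind (kl2 h (v := v) p t (tb.pt t w))) := by positivity
  by_cases hb : B (tb.pt t w)
  swap
  · rw [ind_not hb, zero_mul]
    exact hR0
  obtain ⟨b1, b2, b3⟩ := hB w hw hb
  have b3' := (lpO_pt h tb ht.le i w).1 b3
  rw [ind_of hb, one_mul]
  by_cases hac : acO h tb v e i (5 * t + 4) w
  swap
  · have h1 : |rtO h tb v i (5 * t + 4) w - 1| ≤ e := by
      by_contra hh
      exact hac ⟨by omega, not_le.1 hh⟩
    rw [rt_pt] at h1
    have h2 := log_na he h1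
    have h3 : e * ind (lpO tb v i t w) = e := by rw [ind_of b3', mul_one]
    rw [h3]
    have h4 : 0 ≤ Lam * (ind (A w ∧ ¬ k ≤ dnO tb A t w) *
      ind (acO h tb v e i (5 * t + 4) w) + ind (lpO tb v i t w ∧ ssO tb v i t w ≤ p.X0) * ind (k ≤ dnO tb A t w) +
      ind (kl2 h (v := v) p t (tb.pt t w))) := by positivity
    linarith
  have hwp : (D.P h t).p (tb.pt t w) ≠ 0 := (pul_pt h tb ht.le).ne hw
  have h5 : max (Real.log (rS h v 5 t i (tb.pt t w) (FQ v t i (tb.pt t w)))) 0 ≤ Lam :=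
    max_le (lr_le h H hn hN1 R ht.le 5 i hwp) hL
  have h6 : 1 ≤ ind (A w ∧ ¬ k ≤ dnO tb A t w) * ind (acO h tb v e i (5 * t + 4) w) +
      ind (lpO tb v i t w ∧ ssO tb v i t w ≤ p.X0) * ind (k ≤ dnO tb A t w) + ind (kl2 h (v := v) p t (tb.pt t w)) := by
    by_cases hk : k ≤ dnO tb A t w
    · by_cases hA2 : Ar h v p (2 * (t + 1)) (tb.pt t w)
      · have h7 : ssO tb v i t w ≤ p.X0 := by
          rw [← ss_pt h tb ht.le i w, ss_0]
          exact hA2.2.1 i (2 * (t + 1)) le_rfl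
        rw [ind_of (show lpO tb v i t w ∧ ssO tb v i t w ≤ p.X0 from ⟨b3', h7⟩), ind_of hk, one_mul]
        linarith
      · rw [ind_of (show kl2 h (v := v) p t (tb.pt t w) from ⟨b1, hA2⟩)]
        linarith
    · rw [ind_of (show A w ∧ ¬ k ≤ dnO tb A t w from ⟨b2, hk⟩), ind_of hac, one_mul]
      linarith
  have h8 := mul_le_mul_of_nonneg_left h6 hL
  have h9 : 0 ≤ e * ind (lpO tb v i t w) := mul_nonneg he i6
  linarith

/-- **ALL TIMES** -/
theorem one_pv {dg : ℕ → X → ℝ} {Lam : ℝ} (hL : 0 ≤ Lam) (H : D.Hyp dg prr al T Lam) {n N1 : ℝ} (hn : 1 ≤ n)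
    (hN1 : 1 ≤ N1) (R : Run h (pr3 (Fin 3) n N1) (SS1 (Fin 3)) (AdmDep D) v) (p : AP) (i : Fin 3)
    {A : ℕ → Om W X β → Prop} (hA : ∀ t, Fac (GamR.XN tb v i (5 * t + 4)) (A t)) {k : ℝ} (hk : 0 ≤ k)
    (hq : ∀ t < T, ∀ w, tb.Ps.p w ≠ 0 → tb.Ps.ce (NPo tb v (5 * t + 4)) (fun u => ind (A t u)) w ≤ k / 4)
    {e : ℝ} (he : 0 < e) (he1 : e ≤ 1) {B : ℕ → Pt (Fin 3) X β φ → Prop}
    (hB : ∀ t < T, ∀ w, tb.Ps.p w ≠ 0 → B t (tb.pt t w) →
      Ar h v p (2 * t + 1) (tb.pt t w) ∧ A t w ∧ lpv h v i t (tb.pt t w)) {NV : ℝ}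
    (hN : ∑ t ∈ range T, (D.P h t).Pr (lpv h v i t) ≤ NV) :
    ∑ t ∈ range T, (D.P h t).E (fun w => ind (B t w) * max (Real.log (rS h v 5 t i w (FQ v t i w))) 0) ≤
      e * NV + Lam * (k * (240 * Lam / e ^ 2) + Real.exp p.X0 * Real.exp (1 - N1 * k / 4) * NV +
        (D.P h T).Pr (fun w => ¬ Ar h v p (2 * T) w)) := by
  have h1 : ∀ t ∈ range T, (D.P h t).E (fun w => ind (B t w) * max (Real.log (rS h v 5 t i w (FQ v t i w))) 0) ≤
      e * (D.P h t).Pr (lpv h v i t) + Lam * (k * tb.Ps.Pr (acO h tb v e i (5 * t + 4)) +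
        Real.exp p.X0 * Real.exp (1 - N1 * k / 4) * (D.P h t).Pr (lpv h v i t) +
        tb.Ps.Pr (fun w => kl2 h (v := v) p t (tb.pt t w))) := by
    intro t ht
    have ht' := Finset.mem_range.1 ht
    rw [← (pul_pt h tb ht'.le).E]
    have h2 := tb.Ps.E_mono fun w hw => pt_le h tb hL H hn hN1 R p ht' i (A := A t) (k := k) he.le (hB t ht') hw
    refine h2.trans ?_
    rw [tb.Ps.E_add, tb.Ps.E_smul, tb.Ps.E_smul, tb.Ps.E_add, tb.Ps.E_add]
    have h3 := ev_rare h tb hn hN1 R ht' i (hA t) (hq t ht') p.X0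
    have h4 : tb.Ps.E (fun w => ind (A t w ∧ ¬ k ≤ dnO tb (A t) t w) * ind (acO h tb v e i (5 * t + 4) w)) ≤
        k * tb.Ps.Pr (acO h tb v e i (5 * t + 4)) := by
      rcases st_ac tb R.codes i (hA t) (k := k) (ac := acO h tb v e i (5 * t + 4)) (fun a b hab =>
        propext (acO_Y h tb R.codes e i (5 * t + 4) a b hab)) with h5 | h5
      · exact h5
      · exact absurd hk (not_le.2 h5)
    rw [lpO_Pr h tb ht'.le] at h3
    have h6 : tb.Ps.E (fun w => ind (lpO tb v i t w)) = (D.P h t).Pr (lpv h v i t) := lpO_Pr h tb ht'.le i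
    rw [h6]
    have h7 := mul_le_mul_of_nonneg_left (add_le_add (add_le_add h4 h3)
      (le_refl (tb.Ps.E (fun w => ind (kl2 h (v := v) p t (tb.pt t w)))))) hL
    exact add_le_add le_rfl h7
  refine (Finset.sum_le_sum h1).trans ?_
  rw [Finset.sum_add_distrib, ← Finset.mul_sum, ← Finset.mul_sum, Finset.sum_add_distrib, Finset.sum_add_distrib,
    ← Finset.mul_sum, ← Finset.mul_sum]
  have h2 := acO_sum4 h tb H R hn hN1 i he he1
  have h3 := kl2_sum h tb (v := v) H p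
  have h4 : 0 ≤ Real.exp p.X0 * Real.exp (1 - N1 * k / 4) := by positivity
  have a1 := mul_le_mul_of_nonneg_left hN he.le
  have a2 := mul_le_mul_of_nonneg_left h2 hk
  have a3 := mul_le_mul_of_nonneg_left hN h4
  have a4 := mul_le_mul_of_nonneg_left (add_le_add (add_le_add a2 a3) h3) hL
  linarith

end run

section num

open Pool.Agent.GMH.CTM Pool.Agent.GMH.MVN

/-- **the right side of `one_pv`** -/
theorem one_num {A : ℕ} (hA : 80 ≤ A) (K : ℕ) : Ev (fun c0 Lam => uR Lam c0 * (6 * (pw Lam c0 * Lam)) +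
    Lam * (CTM.y0 Lam A c0 * (240 * Lam / uR Lam c0 ^ 2) + Real.exp (pw Lam (cXF A c0)) *
      Real.exp (1 - pw Lam (c1F A c0) * CTM.y0 Lam A c0 / 4) * (6 * (pw Lam c0 * Lam)) + (pw Lam (c0 + A))⁻¹) ≤
    (pw Lam K)⁻¹) := by
  refine Ev.mono (((y0_exp' A 2).and (scales A 0 4)).and (Ev.ge (K + 20))) fun c0 Lam hL ⟨⟨h1, h2⟩, hc0⟩ => ?_
  have hx : (4 : ℝ) ≤ 2 * Lam := by linarith
  have hx0 : (2 * Lam : ℝ) ≠ 0 := by linarith
  have hc := c1_big (c0 := c0) hA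
  have hL0 : (0 : ℝ) ≤ Lam := by linarith
  have hLx : Lam ≤ (2 * Lam) ^ (1 : ℤ) := by rw [zpow_one]; linarith
  have q1 := pw_pos hL c0
  have q2 := pw_pos hL (c1F A c0)
  have hy : 0 < CTM.y0 Lam A c0 := by rw [y0_z Lam A c0 hx0]; exact Fn.zpos hx _
  have ey := y0_z Lam A c0 hx0
  have eu : uR Lam c0 = (2 * Lam) ^ (-(2 * c0 : ℤ)) := by
    unfold uR
    rw [ipz]
    push_cast
    rfl
  have n6 : 6 * (pw Lam c0 * Lam) ≤ (2 * Lam) ^ ((c0 : ℤ) + 3) := by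
    refine (Fn.mul2 hx (by positivity) (Fn.cst hx 2 (c := 6) (by norm_num)) (Fn.mul2 hx hL0 (le_of_eq (pz Lam c0))
      hLx)).trans (Fn.zle hx ?_)
    push_cast
    omega
  have t1 : uR Lam c0 * (6 * (pw Lam c0 * Lam)) ≤ (2 * Lam) ^ (-(K : ℤ) - 3) := by
    refine (Fn.mul2 hx (by positivity) (le_of_eq eu) n6).trans (Fn.zle hx ?_)
    omega
  have t2 : Lam * (CTM.y0 Lam A c0 * (240 * Lam / uR Lam c0 ^ 2)) ≤ (2 * Lam) ^ (-(K : ℤ) - 3) := by
    have e1 : 240 * Lam / uR Lam c0 ^ 2 = 240 * (Lam * (2 * Lam) ^ (4 * c0 : ℤ)) := by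
      rw [eu, div_eq_mul_inv, sq, mul_inv, ← zpow_neg, ← zpow_add₀ hx0, mul_assoc]
      congr 3
      ring
    rw [e1]
    have p4 := Fn.zpos hx (4 * c0 : ℤ)
    refine (Fn.mul2 hx (by positivity) hLx (Fn.mul2 hx (by positivity) (le_of_eq ey) (Fn.mul2 hx (by positivity)
      (Fn.cst hx 4 (c := 240) (by norm_num)) (Fn.mul2 hx p4.le hLx le_rfl)))).trans (Fn.zle hx ?_)
    push_cast
    omega
  have t3 : Lam * (Real.exp (pw Lam (cXF A c0)) * Real.exp (1 - pw Lam (c1F A c0) * CTM.y0 Lam A c0 / 4) *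
      (6 * (pw Lam c0 * Lam))) ≤ (2 * Lam) ^ (-(K : ℤ) - 3) := by
    have r1 := h1 (CTM.y0 Lam A c0) le_rfl
    set Q := pw Lam (2 * c0) * (pQ Lam c0 ^ 2 + pw Lam (cXF A c0 + 2) + 1) with hQ
    have p1 := pw_one hL (2 * c0)
    have p2 := pQ_pos hL c0
    have p3 := pw_pos hL (cXF A c0 + 2)
    have p4 : pw Lam (cXF A c0) ≤ pw Lam (cXF A c0 + 2) := pw_mono hL (by omega)
    have p5 : pQ Lam c0 ^ 2 + pw Lam (cXF A c0 + 2) + 1 ≤ Q := le_mul_of_one_le_left (by positivity) p1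
    have p6 : pw Lam (c1F A c0) * CTM.y0 Lam A c0 * uR Lam c0 ^ 2 / pw Lam 2 ≤
        pw Lam (c1F A c0) * CTM.y0 Lam A c0 / 4 := by
      have a1 : uR Lam c0 ^ 2 ≤ 1 := by
        have b1 : 0 ≤ uR Lam c0 := by rw [eu]; exact (Fn.zpos hx _).le
        have b2 : uR Lam c0 ≤ 1 := by
          unfold uR
          exact inv_le_one_of_one_le₀ (pw_one hL _)
        exact pow_le_one₀ b1 b2
      have a2 : (4 : ℝ) ≤ pw Lam 2 := by
        have := pw_four hL 2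
        norm_num at this
        linarith
      have a3 : 0 ≤ pw Lam (c1F A c0) * CTM.y0 Lam A c0 := mul_nonneg q2.le hy.le
      rw [div_le_div_iff₀ (pw_pos hL 2) (by norm_num)]
      have a4 := mul_le_mul_of_nonneg_left a1 a3
      nlinarith
    have e1 : Real.exp (pw Lam (cXF A c0)) * Real.exp (1 - pw Lam (c1F A c0) * CTM.y0 Lam A c0 / 4) ≤
        Real.exp (-(pQ Lam c0)) := by
      rw [← Real.exp_add]
      refine le_trans (Real.exp_le_exp.2 ?_) (r1.trans (Real.exp_le_exp.2 ?_))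
      · push_cast
        have p7 : 0 < pQ Lam c0 ^ 2 := by positivity
        linarith
      · have p8 : pQ Lam c0 ≤ pQ Lam c0 ^ 2 := by
          have := pw_one hL (8 * c0)
          have p9 : 1 ≤ pQ Lam c0 := this
          nlinarith
        linarith
    have e2 : Real.exp (-(pQ Lam c0)) ≤ (2 * Lam) ^ (-(c1F A c0 + c0 : ℤ)) := by
      refine (leE (b := -((1 : ℕ) * ell Lam A c0)) ?_).trans ((inv_ell hL A c0 (k := 1) (a := c1F A c0 + c0)
        (by omega)).trans ?_)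
      · have o := one_ell hL A c0
        have pp := pe_pos hL 0 c0
        have h3 := h2.1
        have h4 := h2.2.1
        push_cast at h3 h4 ⊢
        linarith
      · rw [ipz]
        push_cast
        rfl
    have n60 : 0 ≤ 6 * (pw Lam c0 * Lam) := by positivity
    refine (Fn.mul2 hx (mul_nonneg (by positivity) n60) hLx (Fn.mul2 hx n60 (e1.trans e2) n6)).trans (Fn.zle hx ?_)
    omega
  have t4 : Lam * (pw Lam (c0 + A))⁻¹ ≤ (2 * Lam) ^ (-(K : ℤ) - 3) := by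
    have a1 := pw_pos hL (c0 + A)
    refine (Fn.mul2 hx (by positivity) hLx (le_of_eq (ipz Lam (c0 + A)))).trans (Fn.zle hx ?_)
    push_cast
    omega
  have s1 := Fn.add2 hx t1 t2
  have s2 := Fn.add2 hx t3 t4
  have s3 := Fn.add2 hx s1 s2
  rw [ipz Lam K]
  refine le_trans (le_of_eq ?_) (s3.trans (Fn.zle hx (show -(K : ℤ) - 3 + 1 + 1 ≤ -(K : ℤ) by omega)))
  ring

end num

section ctx

open Pool.Agent.GMH.CX Pool.Agent.GMH.CTM

/-- **THE ONE PRIVATE NUMBER**, every family of points of the private step where `i` has status and a light letter -/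
theorem one_pv_all {A : ℕ} (hA : 80 ≤ A) (ka K : ℕ) : AllC A (fun C => ∀ (i : Fin 3) (B : ℕ → C.Q → Prop),
    (∀ t < C.T, ∀ w, C.tb.Ps.p w ≠ 0 → B t (C.tb.pt t w) → Ar C.h C.v C.p (2 * t + 1) (C.tb.pt t w) ∧
      MV.sts (C.M ka) i (5 * t + 4) w ∧ lpv C.h C.v i t (C.tb.pt t w)) →
    ∑ t ∈ range C.T, (C.D.P C.h t).E (fun w => ind (B t w) * max (Real.log (rS C.h C.v 5 t i w (FQ C.v t i w))) 0) ≤
      (pw C.Lam K)⁻¹) := by
  refine ((AllC.of_Ev ((one_num hA K).and (gam_num A ka))).and (AllC.all fun C hC => hC)).mono fun C hh i B hB => ?_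
  obtain ⟨⟨h1, h2⟩, hC⟩ := hh
  obtain ⟨g1, g2, _, _, _, g3, _⟩ := h2
  subst hC
  have hTk := (C.thks ka).thk
  have hq : ∀ t < C.T, ∀ w, C.tb.Ps.p w ≠ 0 →
      C.tb.Ps.ce (NPo C.tb C.v (5 * t + 4)) (fun u => ind (MV.sts (C.M ka) i (5 * t + 4) u)) w ≤
        CTM.y0 C.Lam C.A C.c0 / 4 := by
    intro t _ w hw
    have h3 : C.tb.Ps.ce (NPo C.tb C.v (5 * t + 4)) (fun u => ind (MV.sts (C.M ka) i (5 * t + 4) u)) w ≤
        MVN.z C.Lam ka C.c0 := MV.hysnu_mass' (C.M ka) hTk g1 i (5 * t + 4) hw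
    linarith
  have hN := TP.rm_prv C.n1 C.N11 C.R C.H i
  have hu0 : 0 < uR C.Lam C.c0 := inv_pos.2 (MVN.pw_pos C.hL _)
  have hu1 : uR C.Lam C.c0 ≤ 1 := inv_le_one_of_one_le₀ (pw_one C.hL _)
  have h4 := one_pv C.h C.tb C.L0.le C.H C.n1 C.N11 C.R C.p i (A := fun t => MV.sts (C.M ka) i (5 * t + 4))
    (fun t => MV.sts_fac (M := C.M ka) i (5 * t + 4)) g3.le hq hu0 hu1 hB hN
  refine h4.trans (le_trans ?_ h1)
  have hX : C.p.X0 = pw C.Lam (cXF C.A C.c0) := rfl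
  have hd := C.hd
  have e1 : C.n = pw C.Lam C.c0 := rfl
  have e2 : C.N1 = pw C.Lam (c1F C.A C.c0) := rfl
  rw [hX, e1, e2]
  have h5 := mul_le_mul_of_nonneg_left hd C.L0.le
  have h6 : C.Lam * (C.D.P C.h C.T).Pr (fun w => ¬ Ar C.h C.v C.p (2 * C.T) w) ≤ C.Lam * (pw C.Lam (C.c0 + C.A))⁻¹ := h5
  linarith

/-- **`OneP`** for a status which implies the status of `i` at `5 t + 4` and a light letter of `i` -/
theorem oneP_all {A : ℕ} (hA : 80 ≤ A) (ka : ℕ) : AllC A (fun C => ∀ (Gd : ℕ → C.Q → Prop)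
    (st sp : ℕ → C.Q → Option (Fin 3)), (∀ t < C.T, ∀ i w, C.tb.Ps.p w ≠ 0 → sp t (C.tb.pt t w) = some i →
      MV.sts (C.M ka) i (5 * t + 4) w ∧ lpv C.h C.v i t (C.tb.pt t w)) →
    ∀ i, OneP C.h C.v C.p Gd st sp C.T C.Lam i) :=
  (one_pv_all hA ka 16).mono fun C h1 Gd st sp hsp i => h1 i (fun t => aV C.h C.v C.p Gd st sp i true t)
    fun t ht w hw ha => ⟨ha.1.1.1, hsp t ht i w hw ha.2⟩

/-- **`OneP`** for the private status `MVT.spP` -/
theorem oneP_sp {A : ℕ} (hA : 80 ≤ A) (ka : ℕ) : AllC A (fun C => ∀ (Gd : ℕ → C.Q → Prop)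
    (st : ℕ → C.Q → Option (Fin 3)) (i : Fin 3),
    OneP C.h C.v C.p Gd st (fun t => MVT.spP C.h (C.M ka) C.v t) C.T C.Lam i) :=
  (oneP_all hA ka).mono fun C h1 Gd st => h1 Gd st (fun t => MVT.spP C.h (C.M ka) C.v t) fun t ht i w _ hs => by
    have h2 := MVT.fstV_some hs
    exact ⟨(lft_pt (MVT.sts_pos C.tb (v := C.v) (C.d1_pos ka) (C.d1_le ka) (C.kb_pos ka) C.d0_pos C.d0_le
      C.d0_pos C.p1_pos (C.z_pos ka) i (5 * t + 4)) t w).1 h2.1, h2.2⟩

/-- **the points of the private step with status `k`** -/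
theorem aV_true_sum (C : Ctx) (ka : ℕ) (Gd : ℕ → C.Q → Prop) (st : ℕ → C.Q → Option (Fin 3)) (k : Fin 3) :
    ∑ t ∈ range C.T, (C.D.P C.h t).Pr (aV C.h C.v C.p Gd st (fun t => MVT.spP C.h (C.M ka) C.v t) k true t) ≤
      6 * (C.n * C.Lam) := by
  refine le_trans (Finset.sum_le_sum fun t _ => (C.D.P C.h t).Pr_mono fun w _ hw => ?_)
    (TP.rm_prv C.n1 C.N11 C.R C.H k)
  have h1 : MVT.spP C.h (C.M ka) C.v t w = some k := hw.2
  exact (MVT.fstV_some h1).2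

end ctx

end

end Pool.Agent.GMH.OPV
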