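import Pool.Agent.GMH.One5
import Pool.Agent.GMH.OnePv
import Pool.Agent.GMH.Fin0

/-!
# GMH/OneF (helper2): the rows of ONE in the form of `goal_rows` (GMH/Fin0)
-/

set_option autoImplicit false
set_option linter.unusedSectionVars false

namespace Pool.Agent.GMH.One

open Finset Pool.Agent.GMH Pool.Agent.GMH.TP Pool.Agent.GMH.CX

/-- **ONE, all vertices, both steps** : the hypotheses `h1`, `hp` of `goal_rows` with `e1 i = x ^ (-24)` -/
theorem one_rows {A : ℕ} (hA : 80 ≤ A) (ka : ℕ) : AllC A (fun C =>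
    (∀ i, OneOK C.h C.v C.p C.Gq (C.st ka) (C.sp ka) C.T C.Lam i (CT.ix C.Lam 24)) ∧
    ∀ i, OneP C.h C.v C.p C.Gq (C.st ka) (C.sp ka) C.T C.Lam i) :=
  ((one_ok hA ka).and (OPV.oneP_sp hA ka)).mono fun C hh =>
    ⟨fun i => hh.1 C.Gq (fun t _ => GdQ_fac C.h t) i, fun i => hh.2 C.Gq (C.st ka) i⟩

end Pool.Agent.GMH.One
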