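import Pool.Agent.GMH.TopKinV
import Pool.Agent.GMH.TopAct

/-!
# GMH/OneJ: the loss of the single top of a split step is at most its own rise (helper12)

`lossC_J` : for a weight `A` seen by the new labels, the mean of the loss of a frame is at most the mean of the positive parts
of the logarithms of the ratios of the letters (Jensen given the new labels: no kinds, no bits, no cut).
`one_J` : frame `one` of a split step, with `On1 = max (log rS) 0`.
-/

set_option autoImplicit false
set_option linter.unusedSectionVars false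

namespace Pool.Agent.GMH.TP

open Finset Pool.Agent.PWZ Pool.Agent.M3 Pool.Agent.GM Pool.Agent.GM.Harm Pool.Agent.GMH Pool.Agent.GMH.NZ
open Pool.Agent.GMH.V3

noncomputable section

section gen

variable {Om : Type*} [Fintype Om] (P : FP Om) {I α β' γ' φ' ν : Type*} [Fintype I] [DecidableEq I]
  {Z : Om → β'} {Zb : I → Om → α} (F : I → Om → φ') {Y : I → Om → γ'} {V : Om → ν}

/-- **the loss of a frame is at most the rises of the letters** -/
theorem lossC_J {A : Om → Prop} (fA : Fac (fun u => (V u, Z u)) A) :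
    P.E (fun w => ind (A w) * lossC P Z Zb F Y V w) ≤ P.E (fun w => ind (A w) *
      ∑ i, max (Real.log (P.pv (fun u => (Y i u, Zb i u)) (F i) w (F i w) / P.pv (Zb i) (F i) w (F i w))) 0) := by
  set g : Om → (I → φ') → ℝ := fun w f => P.pv Z (tup F) w f / P.pv (fun u => (V u, Z u)) (tup F) w f with hg
  have hgf : ∀ f, Fac (fun u => (V u, Z u)) (fun w => g w f) := by
    intro f a b hab
    have h1 : P.pv Z (tup F) a f = P.pv Z (tup F) b f := P.pv_fac _ _ _ a b (Prod.mk.inj hab).2
    have h2 : P.pv (fun u => (V u, Z u)) (tup F) a f = P.pv (fun u => (V u, Z u)) (tup F) b f := P.pv_fac _ _ _ a b hab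
    show P.pv Z (tup F) a f / P.pv (fun u => (V u, Z u)) (tup F) a f = P.pv Z (tup F) b f / P.pv (fun u => (V u, Z u)) (tup F) b f
    rw [h1, h2]
  have key : P.E (fun w => ind (A w) * g w (tup F w)) ≤ P.E (fun w => ind (A w)) := by
    rw [E_tup P F (W := fun u => (V u, Z u)) (al := fun w => ind (A w)) (fA.comp fun q => ind q) hgf]
    refine P.E_mono fun w hw => ?_
    have h1 : ∑ f ∈ let_ F, P.pv (fun u => (V u, Z u)) (tup F) w f * g w f ≤ ∑ f ∈ let_ F, P.pv Z (tup F) w f := by
      refine Finset.sum_le_sum fun f _ => ?_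
      show P.pv (fun u => (V u, Z u)) (tup F) w f * (P.pv Z (tup F) w f / P.pv (fun u => (V u, Z u)) (tup F) w f) ≤ _
      by_cases h0 : P.pv (fun u => (V u, Z u)) (tup F) w f = 0
      · rw [h0, zero_mul]
        exact P.pv_nonneg _ _ _ _
      · rw [mul_div_cancel₀ _ h0]
    have h2 : ∑ f ∈ let_ F, P.pv Z (tup F) w f = 1 := by
      have h := sum_tup P (W := Z) F (F := fun _ _ => 1) (fun _ _ _ _ => rfl) w
      simp only [mul_one] at h
      rw [P.ce_const _ 1 hw] at h
      exact h
    calc _ ≤ ind (A w) * 1 := mul_le_mul_of_nonneg_left (h1.trans_eq h2) (ind_nonneg _)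
      _ = ind (A w) := mul_one _
  have hpt : P.E (fun w => ind (A w) * lossC P Z Zb F Y V w) ≤ P.E (fun w => ind (A w) *
      ∑ i, max (Real.log (P.pv (fun u => (Y i u, Zb i u)) (F i) w (F i w) / P.pv (Zb i) (F i) w (F i w))) 0 +
        (ind (A w) * g w (tup F w) - ind (A w))) := by
    refine P.E_mono fun w hw => ?_
    have p1 : 0 < P.pv (fun u => (V u, Z u)) (tup F) w (tup F w) := P.pv_self_pos _ _ hw
    have p2 : 0 < P.pv Z (tup F) w (tup F w) := P.pv_self_pos _ _ hw
    have h1 : -Real.log (P.pv (fun u => (V u, Z u)) (tup F) w (tup F w) / P.pv Z (tup F) w (tup F w)) ≤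
        g w (tup F w) - 1 := by
      rw [← Real.log_inv, inv_div]
      exact Real.log_le_sub_one_of_pos (div_pos p2 p1)
    have h2 : lossC P Z Zb F Y V w ≤ ∑ i, max (Real.log (P.pv (fun u => (Y i u, Zb i u)) (F i) w (F i w) /
        P.pv (Zb i) (F i) w (F i w))) 0 + (g w (tup F w) - 1) := by
      unfold lossC
      have h3 : ∑ i, Real.log (P.pv (fun u => (Y i u, Zb i u)) (F i) w (F i w) / P.pv (Zb i) (F i) w (F i w)) ≤
          ∑ i, max (Real.log (P.pv (fun u => (Y i u, Zb i u)) (F i) w (F i w) / P.pv (Zb i) (F i) w (F i w))) 0 :=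
        Finset.sum_le_sum fun i _ => le_max_left _ _
      linarith
    have h4 := mul_le_mul_of_nonneg_left h2 (ind_nonneg (A w))
    linarith [h4]
  refine hpt.trans ?_
  rw [P.E_add, P.E_sub]
  linarith

end gen

section hd

variable {X β γ φ : Type} [Fintype X] [Fintype β] [Fintype φ] [Nonempty X] [Nonempty β]
variable {D : HD (Fin 3) X β γ φ} {al : ℝ} (h : D.Thick al) (v : ℕ → Finset (Fin 3) → X → (Fin 3 → β) → Pt (Fin 3) X β φ)

/-- the rise of the top `i` in the step `s` -/
def On1 (s : Fin 6) (t : ℕ) (i : Fin 3) (w : Pt (Fin 3) X β φ) : ℝ := max (Real.log (rS h v s t i w (FQ v t i w))) 0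

theorem On1_nn (s : Fin 6) (t : ℕ) (i : Fin 3) (w : Pt (Fin 3) X β φ) : 0 ≤ On1 h v s t i w := le_max_right _ _

variable {h v}

/-- **the loss of the frame `one` is at most the rise of its top** -/
theorem one_J (s : Fin 6) (t : ℕ) (i : Fin 3) {A : Pt (Fin 3) X β φ → Prop} (fA : Fac (VZ (φ := φ) D v s t) A) :
    (D.P h t).E (fun w => ind (A w) * lossC (D.P h t) (Z1 D v s t i) (fun _ : Unit => ZbQ D v (qs s t) i)
      (fun _ => FQ v t i) (fun _ => ZbQ D v (qe s t) i) (ZQ D v (qe s t)) w) ≤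
      (D.P h t).E (fun w => ind (A w) * On1 h v s t i w) := by
  have fA' : Fac (fun u => (ZQ D v (qe s t) u, Z1 D v s t i u)) A := by
    intro a b hab
    refine fA a b ?_
    unfold Z1 at hab
    simp only [Prod.mk.injEq] at hab
    show (ZQ D v (qe s t) a, ZQ D v (qs s t) a) = (ZQ D v (qe s t) b, ZQ D v (qs s t) b)
    rw [hab.1, hab.2.2]
  refine (lossC_J (P := D.P h t) (Z := Z1 D v s t i) (Zb := fun _ : Unit => ZbQ D v (qs s t) i)
    (F := fun _ : Unit => FQ v t i) (Y := fun _ => ZbQ D v (qe s t) i) (V := ZQ D v (qe s t)) fA').trans (le_of_eq ?_)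
  refine (D.P h t).E_congr fun w hw => ?_
  have h1 : (D.P h t).pv (fun u => (ZbQ D v (qe s t) i u, ZbQ D v (qs s t) i u)) (FQ v t i) w (FQ v t i w) /
      (D.P h t).pv (ZbQ D v (qs s t) i) (FQ v t i) w (FQ v t i w) = rS h v s t i w (FQ v t i w) :=
    real_r (D.P h t) (ZbQ D v (qs s t) i) (FQ v t i) (ZbQ D v (qe s t) i) hw _
  simp only [Finset.univ_unique, Finset.sum_singleton]
  show _ * max (Real.log ((D.P h t).pv (fun u => (ZbQ D v (qe s t) i u, ZbQ D v (qs s t) i u)) (FQ v t i) w (FQ v t i w) /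
      (D.P h t).pv (ZbQ D v (qs s t) i) (FQ v t i) w (FQ v t i w))) 0 = _
  rw [h1]
  rfl

end hd

end

end Pool.Agent.GMH.TP
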