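import Pool.Agent.GMH.UnmP

/-!
# GMH/Ovl (helper28): A CLASS EVENT INSIDE THE DECIDED LIVES (overlap of the joint private step)

`C s` = an event of the sight of the exact vertex `v` at the time `s`, `R` = a relation of the life.
* `cev_le` : the tuples which are in `R` at the end of a decided life and `C` holds before this end: at most `y` per decision,
  outside the nodes with `C` at which the density of `R` is above `y` (rarity);
* `ovl_le` : the overlap: the part with `C` as above, the part without `C`.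
-/

set_option autoImplicit false
set_option linter.unusedSectionVars false

namespace Pool.Agent.GMH.UV

open Finset Pool.Agent.PWZ Pool.Agent.M3 Pool.Agent.GMH.TD Pool.Agent.GMH.CK Pool.Agent.GMH.MV Pool.Agent.GMH.UnmL
open Pool.Agent.GMH.Gdy (ce_congr_on)

noncomputable section

variable {Om : Type} [Fintype Om] (M : US Om) (Q : Kd Om)

/-- the first time of the decided life at which `C` holds -/
def fce (v : Fin 3) (C : ℕ → Om → Prop) (r : ℕ) (w : Om) : Prop :=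
  (bet M Q v r w ∧ C r w) ∧ ∀ r', tv M v r w ≤ r' → r' < r → ¬ (bet M Q v r' w ∧ C r' w)

variable {M Q}

theorem fce_S (H : Seen M) (v : Fin 3) {C : ℕ → Om → Prop}
    (hC : ∀ s s', s ≤ s' → ∀ x w, M.S {v} s' x = M.S {v} s' w → (C s x ↔ C s w)) (r : ℕ) {a b : Om}
    (e : M.S {v} r a = M.S {v} r b) : fce M Q v C r a ↔ fce M Q v C r b := by
  unfold fce
  rw [bet_S H v le_rfl e, hC r r le_rfl a b e, tau_S H v le_rfl a b e]
  refine and_congr_right fun _ => forall_congr' fun r' => forall_congr' fun _ => forall_congr' fun hr => ?_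
  rw [bet_S H v hr.le e, hC r' r hr.le a b e]

/-- two in the same life are equal -/
theorem fce_one {v : Fin 3} {C : ℕ → Om → Prop} {r r' : ℕ} {w : Om} (h : fce M Q v C r w) (h' : fce M Q v C r' w)
    (e : tv M v r w = tv M v r' w) : r = r' := by
  have l1 : tv M v r w ≤ r := stg_le _ _
  have l2 : tv M v r' w ≤ r' := stg_le _ _
  rcases lt_trichotomy r r' with h1 | h1 | h1
  · exact absurd h.1 (h'.2 r (by omega) h1)
  · exact h1
  · exact absurd h'.1 (h.2 r' (by omega) h1)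

/-- at most one per decision -/
theorem fce_cnt (v : Fin 3) (C : ℕ → Om → Prop) (T : ℕ) : ∑ r ∈ range T, M.P.Pr (fce M Q v C r) ≤ NT M Q v T := by
  unfold NT
  refine Pr_inj (l := tv M v) (fun w _ r hr h => ?_) (fun w _ r _ r' _ h h' e => fce_one h h' e)
  obtain ⟨s, a, b, c⟩ := bet_iff.1 h.1.1
  exact ⟨s, lt_of_le_of_lt b hr, c, stg_mid rfl a b⟩

/-- existence -/
theorem fce_ex {v : Fin 3} {C : ℕ → Om → Prop} {q : ℕ} {w : Om} (h : bet M Q v q w) (hC : C q w) :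
    ∃ r, r ≤ q ∧ fce M Q v C r w ∧ tv M v r w = tv M v q w := by
  classical
  have l1 : tv M v q w ≤ q := stg_le _ _
  have hex : ∃ r, tv M v q w ≤ r ∧ (bet M Q v r w ∧ C r w) := ⟨q, l1, h, hC⟩
  have h4 : Nat.find hex ≤ q := Nat.find_min' hex ⟨l1, h, hC⟩
  have h7 : tv M v (Nat.find hex) w = tv M v q w := stg_mid rfl (Nat.find_spec hex).1 h4
  refine ⟨Nat.find hex, h4, ⟨(Nat.find_spec hex).2, fun r' a b c => ?_⟩, h7⟩
  exact Nat.find_min hex b ⟨by rw [← h7]; exact a, c⟩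

/-- **A CLASS EVENT INSIDE THE DECIDED LIVES** -/
theorem cev_le (H : Seen M) {v : Fin 3} {C : ℕ → Om → Prop}
    (hC : ∀ s s', s ≤ s' → ∀ x w, M.S {v} s' x = M.S {v} s' w → (C s x ↔ C s w)) {R : ℕ → Om → Prop} {O : ℕ → Om → Prop}
    (hO : ∀ w, M.P.p w ≠ 0 → ∀ q, O q w → tv M v (q + 1) w = q + 1 ∧ bet M Q v q w ∧ R (tv M v q w) w)
    {y : ℝ} (hy : 0 ≤ y) (T : ℕ) :
    ∑ q ∈ range T, M.P.Pr (fun w => O q w ∧ C q w) ≤ y * NT M Q v T +
      ∑ r ∈ range T, M.P.Pr (fun w => (bet M Q v r w ∧ C r w) ∧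
        y < M.P.ce (M.S {v} r) (fun u => ind (R (tv M v r u) u)) w) := by
  have h1 : ∑ q ∈ range T, M.P.Pr (fun w => O q w ∧ C q w) ≤
      ∑ r ∈ range T, M.P.Pr (fun w => fce M Q v C r w ∧ R (tv M v r w) w) := by
    refine Pr_inj (l := tv M v) (fun w hw q hq h => ?_) (fun w hw q _ q' _ h h' e => ?_)
    · obtain ⟨_, b, c⟩ := hO w hw q h.1
      obtain ⟨r, a1, a2, a3⟩ := fce_ex b h.2
      exact ⟨r, lt_of_le_of_lt a1 hq, ⟨a2, by rw [a3]; exact c⟩, a3⟩
    · exact end_one (C := M.Cv v) (hO w hw q h.1).1 (hO w hw q' h'.1).1 e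
  have h2 : ∀ r ∈ range T, M.P.Pr (fun w => fce M Q v C r w ∧ R (tv M v r w) w) ≤
      y * M.P.Pr (fce M Q v C r) + M.P.Pr (fun w => (bet M Q v r w ∧ C r w) ∧
        y < M.P.ce (M.S {v} r) (fun u => ind (R (tv M v r u) u)) w) := fun r _ =>
    (dens_le (Z := M.S {v} r) (fun x w e => fce_S H v hC r e) _ hy).trans
      (add_le_add le_rfl (M.P.Pr_mono fun w _ h => ⟨h.1.1, h.2⟩))
  refine h1.trans ((Finset.sum_le_sum h2).trans ?_)
  rw [Finset.sum_add_distrib, ← Finset.mul_sum]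
  have h3 := mul_le_mul_of_nonneg_left (fce_cnt (M := M) (Q := Q) v C T) hy
  linarith

/-- **THE OVERLAP** -/
theorem ovl_le (H : Seen M) {v : Fin 3} {C : ℕ → Om → Prop}
    (hC : ∀ s s', s ≤ s' → ∀ x w, M.S {v} s' x = M.S {v} s' w → (C s x ↔ C s w)) {R : ℕ → Om → Prop} {O : ℕ → Om → Prop}
    (hO : ∀ w, M.P.p w ≠ 0 → ∀ q, O q w → tv M v (q + 1) w = q + 1 ∧ bet M Q v q w ∧ R (tv M v q w) w)
    {y : ℝ} (hy : 0 ≤ y) (T : ℕ) :
    ∑ q ∈ range T, M.P.Pr (O q) ≤ (y * NT M Q v T +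
      ∑ r ∈ range T, M.P.Pr (fun w => (bet M Q v r w ∧ C r w) ∧
        y < M.P.ce (M.S {v} r) (fun u => ind (R (tv M v r u) u)) w)) +
      ∑ q ∈ range T, M.P.Pr (fun w => O q w ∧ ¬ C q w) := by
  refine le_trans ?_ (add_le_add (cev_le H hC hO hy T) le_rfl)
  rw [← Finset.sum_add_distrib]
  refine Finset.sum_le_sum fun q _ => (M.P.Pr_mono fun w _ h => ?_).trans (M.P.Pr_or_le _ _)
  by_cases h1 : C q w
  · exact Or.inl ⟨h, h1⟩
  · exact Or.inr ⟨h, h1⟩

end

end Pool.Agent.GMH.UV
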