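import Pool.Agent.GMH.MV8T
import Pool.Agent.GMH.Ovl

/-!
# GMH/OvlR (helper28): THE OVERLAP OF THE JOINT PRIVATE STEP, ON THE RUN

Two vertices `i`, `j` with light private values in the joint private step `q = 5 t + 4` (`lp4`), both decided.
`Cov kx i q` : at the public information before the step the letter of `i` is light with probability `≥ kx`.
* `ovl_raw` : at the class of `j` after the step an event of the NEW letter of `i` (alive) has nearly its public probability;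
* `ovl_off` : off `Cov` : `(kx + small) 6 n Lam`;
* `cov_cnt` : the number of the events `Cov`;
* `ovl_run` : the overlap: `y` per decision, the rare nodes with `Cov`, and `ovl_off`.
-/

set_option autoImplicit false
set_option linter.unusedSectionVars false

namespace Pool.Agent.GMH.OvlR

open Finset Pool.Agent.PWZ Pool.Agent.M3 Pool.Agent.GM Pool.Agent.GM.Harm Pool.Agent.GMH Pool.Agent.GMH.NZ
open Pool.Agent.GMH.V3 Pool.Agent.GMH.MV8R
open Pool.Agent.GMH.TP Pool.Agent.GMH.TD Pool.Agent.GMH.Dy Pool.Agent.GMH.MV Pool.Agent.GMH.CKB Pool.Agent.GMH.MVI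
open Pool.Agent.GMH.MV8

noncomputable section

variable {X β γ φ : Type} [Fintype X] [Fintype β] [Fintype φ] [Nonempty X] [Nonempty β]
variable {D : HD (Fin 3) X β γ φ} {al : ℝ} {h : D.Thick al} {N : Finset (Fin 3) → ℝ} {S : Finset (Finset (Fin 3))}
  {v : ℕ → Finset (Fin 3) → X → (Fin 3 → β) → Pt (Fin 3) X β φ}
  {prr : ℕ → Fin 3 → φ → φ} {T : ℕ} {W : Type} [Fintype W]

/-- states at the joint private step -/
theorem q4_facts (t : ℕ) : nc (5 * t + 4) ∅ = t + 2 ∧ TP.nn (5 * t + 4) = t + 1 ∧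
    (∀ k : Fin 3, nc (5 * t + 4 + 1) {k} = t + 2) ∧ nc (5 * t + 4 + 1) ∅ = t + 2 ∧ TP.nn (5 * t + 4 + 1) = t + 1 := by
  have he : rk ∅ = 1 := if_pos rfl
  have p0 : pth (∅ : Finset (Fin 3)) := by unfold pth; simp
  have p1 : ∀ k : Fin 3, pth ({k} : Finset (Fin 3)) := fun k => by unfold pth; simp
  have r1 : ∀ k : Fin 3, rk {k} ≤ 4 := fun k => rk_le (p1 k)
  refine ⟨?_, ?_, fun k => ?_, ?_, ?_⟩
  · rw [nc_add t 4 p0 (by omega)]
    unfold ncj
    rw [he, if_pos (by omega)]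
  · rw [nn_add t 4 (by omega)]
    unfold nnj
    rw [if_neg (by omega)]
  · rw [show 5 * t + 4 + 1 = 5 * t + (4 + 1) by omega, nc_add t (4 + 1) (p1 k) (by omega)]
    unfold ncj
    rw [if_pos (by have := r1 k; omega)]
  · rw [show 5 * t + 4 + 1 = 5 * t + (4 + 1) by omega, nc_add t (4 + 1) p0 (by omega)]
    unfold ncj
    rw [he, if_pos (by omega)]
  · rw [show 5 * t + 4 + 1 = 5 * t + (4 + 1) by omega, nn_add t (4 + 1) (by omega)]
    unfold nnj
    rw [if_neg (by omega)]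

/-- **THE TEST AT THE CLASS AFTER THE STEP**, an event of the new letter of `i` -/
theorem ovl_raw (R : Run h N S (AdmDep D) v) (hN : ∀ J ∈ S, 0 ≤ N J) (h0 : ∅ ∈ S) (hS1 : ∀ i : Fin 3, {i} ∈ S)
    (hN0 : N ∅ = 1) {N1 : ℝ} (hN1 : ∀ i : Fin 3, N1 ≤ N {i}) (hN1p : 0 < N1) (tb : Tab D prr T W) {t : ℕ}
    (ht : t + 1 ≤ T) {i j : Fin 3} (hij : i ≠ j) {L a : ℝ} (hL : 0 ≤ L) {w : Om W X β} (hw : tb.Ps.p w ≠ 0)
    (hal : alq h v tb t (5 * t + 4 + 1) L j w) {g : Om W X β → ℝ}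
    (hg : Fac (fun u => (XLo tb v i (5 * t + 4 + 1) u, NPo tb v (5 * t + 4 + 1) u)) g) (g0 : ∀ u, 0 ≤ g u)
    (g1 : ∀ u, g u ≤ 1) :
    tb.Ps.ce (fun u => (XLo tb v j (5 * t + 4 + 1) u, NPo tb v (5 * t + 4 + 1) u))
      (fun u => ind (alq h v tb t (5 * t + 4 + 1) L i u) * g u) w ≤
      tb.Ps.ce (NPo tb v (5 * t + 4)) g w + 3 * (Real.sqrt (4 * (a + 1) / N1) + 2 * Real.exp (-a) * Real.exp (2 * L)) := by
  classical
  obtain ⟨q1, q2, q3, q4, q5⟩ := q4_facts t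
  obtain ⟨m, him, hjm⟩ : ∃ m : Fin 3, i ≠ m ∧ j ≠ m := by
    have key : ∀ i j : Fin 3, ∃ m : Fin 3, i ≠ m ∧ j ≠ m := by decide
    exact key i j
  set q := 5 * t + 4 with hq
  have H : Pul tb.Ps (D.P h (t + 1)) (tb.pt (t + 1)) := pul_pt (h := h) tb ht
  set π := tb.pt (t + 1) with hπ
  set Y : Pt (Fin 3) X β φ → _ := fun p => (XL v (t + 2) i p, XL v (t + 2) m p, NP D v (t + 2) (t + 1) p) with hY
  have hgY : Fac (fun u => Y (π u)) g := by
    intro a b hab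
    simp only [hY, Prod.mk.injEq] at hab
    refine hg a b (Prod.ext ?_ ?_)
    · show XL v (nc (q + 1) {i}) i (π a) = XL v (nc (q + 1) {i}) i (π b)
      rw [q3 i]
      exact hab.1
    · show NP D v (nc (q + 1) ∅) (TP.nn (q + 1)) (π a) = NP D v (nc (q + 1) ∅) (TP.nn (q + 1)) (π b)
      rw [q4, q5]
      exact hab.2.2
  obtain ⟨g', f1, f2, f3⟩ := exists_pull_nn (X := Y) (pi := π) hgY g0
  set g'' : Pt (Fin 3) X β φ → ℝ := fun p => min (g' p) 1 with hg''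
  have e1 : ∀ u, g u = g'' (π u) := fun u => by
    show g u = min (g' (π u)) 1
    rw [← f2 u, min_eq_left (g1 u)]
  have k1 : ∀ (c : Fin 3) (E : X → Prop), dvC D v (t + 2) (t + 1) (π w) c E ≤
      Real.sqrt (4 * (a + 1) / N1) * (muC D v (t + 2) (t + 1) (π w)).Pr E + 2 * Real.exp (-a) := fun c E =>
    dvC_all R hN h0 hS1 hN0 hN1 hN1p (t + 1) (H.ne hw) c a E
  have hal' : alv h v (t + 1) (t + 2) (t + 2) (t + 1) L j (π w) := by
    unfold alq at hal
    rw [q3 j] at hal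
    exact hal
  have key := ce_test (h := h) R.codes (t + 1) (s := t + 2) (s2 := t + 2) (s3 := t + 2) (n := t + 1) le_rfl le_rfl
    le_rfl (i := j) (k := i) (m := m) hij.symm hjm him (Real.sqrt_nonneg _) (by positivity) hL (H.ne hw) k1 hal' (g := g'')
    (fun a b hab => by
      show min (g' a) 1 = min (g' b) 1
      rw [f1 a b hab]) (fun u => le_min (f3 u) zero_le_one) (fun u => min_le_right _ _)
  have e2 : tb.Ps.ce (fun u => (XLo tb v j (q + 1) u, NPo tb v (q + 1) u))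
      (fun u => ind (alq h v tb t (q + 1) L i u) * g u) w =
      (D.P h (t + 1)).ce (fun u => (XL v (t + 2) j u, NP D v (t + 2) (t + 1) u))
        (fun u => ind (alv h v (t + 1) (t + 2) (t + 2) (t + 1) L i u) * g'' u) (π w) := by
    rw [← H.ce]
    have e3 : (fun u => (XLo tb v j (q + 1) u, NPo tb v (q + 1) u)) =
        fun u => (XL v (t + 2) j (π u), NP D v (t + 2) (t + 1) (π u)) := by
      funext u
      show (XL v (nc (q + 1) {j}) j (π u), NP D v (nc (q + 1) ∅) (TP.nn (q + 1)) (π u)) = _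
      rw [q3 j, q4, q5]
    rw [e3]
    refine tb.Ps.ce_congr (fun u _ => ?_) w
    rw [e1 u]
    show ind (alv h v (t + 1) (nc (q + 1) {i}) (t + 2) (t + 1) L i (π u)) * g'' (π u) = _
    rw [q3 i]
  have e4 : tb.Ps.ce (NPo tb v q) g w = (D.P h (t + 1)).ce (NP D v (t + 2) (t + 1)) g'' (π w) := by
    rw [← H.ce]
    have e5 : NPo tb v q = fun u => NP D v (t + 2) (t + 1) (π u) := by
      funext u
      show NP D v (nc q ∅) (TP.nn q) (π u) = _
      rw [q1, q2]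
    rw [e5]
    exact tb.Ps.ce_congr (fun u _ => e1 u) w
  rw [e2, e4]
  exact key

/-! ### the events -/

/-- light private value of `i` in the joint private step -/
def lp4 (tb : Tab D prr T W) (v : ℕ → Finset (Fin 3) → X → (Fin 3 → β) → Pt (Fin 3) X β φ) (i : Fin 3) (q : ℕ)
    (w : Om W X β) : Prop :=
  q % 5 = 4 ∧ 2 * tb.Ps.m (fun u => (XLo tb v i (q + 1) u, NPo tb v (q + 1) u)) w <
    tb.Ps.m (fun u => (XLo tb v i q u, NPo tb v q u)) w

/-- heavy public value of the level -/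
def hv4 (tb : Tab D prr T W) (v : ℕ → Finset (Fin 3) → X → (Fin 3 → β) → Pt (Fin 3) X β φ) (q : ℕ)
    (w : Om W X β) : Prop :=
  tb.Ps.m (NPo tb v (5 * (q / 5) + 1)) w ≤ 2 * tb.Ps.m (NPo tb v (5 * (q / 5) + 2)) w

/-- the letter of `i` is light with probability `≥ kx` at the public information -/
def Cov (tb : Tab D prr T W) (v : ℕ → Finset (Fin 3) → X → (Fin 3 → β) → Pt (Fin 3) X β φ) (kx : ℝ) (i : Fin 3) (q : ℕ)
    (w : Om W X β) : Prop :=
  q % 5 = 4 ∧ hv4 tb v q w ∧ kx ≤ tb.Ps.ce (NPo tb v q) (fun u => ind (lp4 tb v i q u)) w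

/-- the public information is increasing -/
theorem NPo_mono (tb : Tab D prr T W) {s s' : ℕ} (hs : s ≤ s') : Fac (NPo tb v s') (NPo tb v s) := by
  induction hs with
  | refl => exact fun _ _ e => e
  | step _ ih => exact fun a b e => ih a b (NPo_fac tb _ a b e)

theorem lp4_fac (tb : Tab D prr T W) (i : Fin 3) (q : ℕ) {a b : Om W X β}
    (e : (XLo tb v i (q + 1) a, NPo tb v (q + 1) a) = (XLo tb v i (q + 1) b, NPo tb v (q + 1) b)) :
    lp4 tb v i q a ↔ lp4 tb v i q b := by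
  obtain ⟨e1, e2⟩ := Prod.mk.inj e
  have e3 : (XLo tb v i q a, NPo tb v q a) = (XLo tb v i q b, NPo tb v q b) :=
    Prod.ext (XLo_fac tb i q a b e1) (NPo_fac tb q a b e2)
  unfold lp4
  rw [tb.Ps.Fac_m (fun u => (XLo tb v i (q + 1) u, NPo tb v (q + 1) u)) a b e,
    tb.Ps.Fac_m (fun u => (XLo tb v i q u, NPo tb v q u)) a b e3]

theorem hv4_fac (tb : Tab D prr T W) {q s : ℕ} (hq : q % 5 = 4) (hs : q ≤ s) {a b : Om W X β}
    (e : NPo tb v s a = NPo tb v s b) : hv4 tb v q a ↔ hv4 tb v q b := by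
  unfold hv4
  rw [tb.Ps.Fac_m _ a b (NPo_mono tb (show 5 * (q / 5) + 1 ≤ s by omega) a b e),
    tb.Ps.Fac_m _ a b (NPo_mono tb (show 5 * (q / 5) + 2 ≤ s by omega) a b e)]

theorem Cov_fac (tb : Tab D prr T W) (kx : ℝ) (i : Fin 3) {q s : ℕ} (hs : q ≤ s) {a b : Om W X β}
    (e : NPo tb v s a = NPo tb v s b) : Cov tb v kx i q a ↔ Cov tb v kx i q b := by
  unfold Cov
  refine and_congr_right fun hq => ?_
  rw [hv4_fac tb hq hs e, tb.Ps.ce_fac (NPo tb v q) _ a b (NPo_mono tb hs a b e)]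

/-! ### off `Cov` -/

/-- one vertex: the number of the light values -/
theorem lp4_cnt {dg : ℕ → X → ℝ} {Lam n N1 : ℝ} (hn : 1 ≤ n) (hN1 : 1 ≤ N1)
    (R : Run h (pr3 (Fin 3) n N1) (SS1 (Fin 3)) (AdmDep D) v) (H : D.Hyp dg prr al T Lam) (tb : Tab D prr T W) (i : Fin 3) :
    ∑ q ∈ range (5 * T), tb.Ps.Pr (lp4 tb v i q) ≤ 6 * n * Lam := by
  refine le_trans (Finset.sum_le_sum fun q _ => tb.Ps.Pr_mono fun w _ hw => ?_)
    (light_prv (d1 := 1) (kb := 1) (d0 := 1) (k0 := 1) (p1 := 1) (z := 1) one_pos le_rfl one_pos one_pos le_rfl one_pos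
      one_pos one_pos hn hN1 R H tb i)
  refine ⟨by have := hw.1; omega, ?_, hw.2⟩
  show q % 5 ≠ 0
  have := hw.1
  omega

/-- **THE NUMBER OF THE EVENTS `Cov`** -/
theorem cov_cnt {dg : ℕ → X → ℝ} {Lam n N1 : ℝ} (hn : 1 ≤ n) (hN1 : 1 ≤ N1)
    (R : Run h (pr3 (Fin 3) n N1) (SS1 (Fin 3)) (AdmDep D) v) (H : D.Hyp dg prr al T Lam) (tb : Tab D prr T W) (i : Fin 3)
    {kx : ℝ} (hkx : 0 < kx) : ∑ q ∈ range (5 * T), tb.Ps.Pr (Cov tb v kx i q) ≤ 6 * n * Lam / kx := by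
  have h1 : ∀ q ∈ range (5 * T), tb.Ps.Pr (Cov tb v kx i q) ≤ tb.Ps.Pr (lp4 tb v i q) / kx := fun q _ => by
    rw [le_div_iff₀ hkx]
    have h2 : tb.Ps.Pr (lp4 tb v i q) = tb.Ps.E (tb.Ps.ce (NPo tb v q) (fun u => ind (lp4 tb v i q u))) :=
      (tb.Ps.E_ce _ _).symm
    rw [h2, mul_comm]
    unfold FP.Pr
    rw [← FP.E_smul]
    refine tb.Ps.E_mono fun w _ => ?_
    by_cases h3 : Cov tb v kx i q w
    · rw [ind_of h3, mul_one]
      exact h3.2.2
    · rw [ind_not h3, mul_zero]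
      exact tb.Ps.ce_nonneg (fun _ _ => ind_nonneg _) w
  refine (Finset.sum_le_sum h1).trans ?_
  rw [← Finset.sum_div]
  exact div_le_div_of_nonneg_right (lp4_cnt hn hN1 R H tb i) hkx.le

/-- **THE OVERLAP OFF `Cov`** -/
theorem ovl_off {dg : ℕ → X → ℝ} {Lam n N1 : ℝ} (hn : 1 ≤ n) (hN1 : 1 ≤ N1)
    (R : Run h (pr3 (Fin 3) n N1) (SS1 (Fin 3)) (AdmDep D) v) (H : D.Hyp dg prr al T Lam) (tb : Tab D prr T W)
    {i j : Fin 3} (hij : i ≠ j) {L a kx : ℝ} (hL : 0 ≤ L) (hkx : 0 ≤ kx) :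
    ∑ q ∈ range (5 * T), tb.Ps.Pr (fun w => (lp4 tb v i q w ∧ lp4 tb v j q w ∧ hv4 tb v q w ∧
      alq h v tb (q / 5) (q + 1) L i w ∧ alq h v tb (q / 5) (q + 1) L j w) ∧ ¬ Cov tb v kx i q w) ≤
      (kx + 3 * (Real.sqrt (4 * (a + 1) / N1) + 2 * Real.exp (-a) * Real.exp (2 * L))) * (6 * n * Lam) := by
  classical
  set ep := 3 * (Real.sqrt (4 * (a + 1) / N1) + 2 * Real.exp (-a) * Real.exp (2 * L)) with hep
  have hep0 : 0 ≤ ep := by
    have := Real.sqrt_nonneg (4 * (a + 1) / N1)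
    positivity
  have hN : ∀ J ∈ SS1 (Fin 3), 0 ≤ pr3 (Fin 3) n N1 J := fun J _ => (zero_le_one.trans (pr3_one hn hN1 J))
  have hN0 : pr3 (Fin 3) n N1 ∅ = 1 := by
    unfold pr3
    rw [if_pos Finset.card_empty]
  have hNi : ∀ i : Fin 3, N1 ≤ pr3 (Fin 3) n N1 {i} := fun i => le_of_eq (EndT.pr3_1 n N1 i).symm
  have h0 : (∅ : Finset (Fin 3)) ∈ SS1 (Fin 3) := mem_SS1.2 (by decide)
  have hS1 : ∀ i : Fin 3, ({i} : Finset (Fin 3)) ∈ SS1 (Fin 3) := fun i => mem_SS1.2 (by revert i; decide)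
  have h1 : ∀ q ∈ range (5 * T), tb.Ps.Pr (fun w => (lp4 tb v i q w ∧ lp4 tb v j q w ∧ hv4 tb v q w ∧
      alq h v tb (q / 5) (q + 1) L i w ∧ alq h v tb (q / 5) (q + 1) L j w) ∧ ¬ Cov tb v kx i q w) ≤
      (kx + ep) * tb.Ps.Pr (lp4 tb v j q) := by
    intro q hq
    have hqT := mem_range.1 hq
    by_cases h4 : q % 5 = 4
    · have h5 : 5 * (q / 5) + 4 = q := by omega
      have ht : q / 5 + 1 ≤ T := by omega
      set Z : Om W X β → (β × List (Pt (Fin 3) X β φ)) × _ := fun u => (XLo tb v j (q + 1) u, NPo tb v (q + 1) u) with hZ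
      set f : Om W X β → Prop := fun w => lp4 tb v j q w ∧ hv4 tb v q w ∧ alq h v tb (q / 5) (q + 1) L j w ∧
        ¬ Cov tb v kx i q w with hf
      have hfZ : ∀ x w, Z x = Z w → (f x ↔ f w) := fun x w e => by
        have e2 : NPo tb v (q + 1) x = NPo tb v (q + 1) w := (Prod.mk.inj e).2
        have h6 : alq h v tb (q / 5) (q + 1) L j x = alq h v tb (q / 5) (q + 1) L j w :=
          alq_fac (h := h) tb (show 2 ≤ q % 5 by omega) L j x w e
        show (lp4 tb v j q x ∧ hv4 tb v q x ∧ alq h v tb (q / 5) (q + 1) L j x ∧ ¬ Cov tb v kx i q x) ↔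
          (lp4 tb v j q w ∧ hv4 tb v q w ∧ alq h v tb (q / 5) (q + 1) L j w ∧ ¬ Cov tb v kx i q w)
        rw [lp4_fac tb j q e, hv4_fac tb h4 (Nat.le_succ q) e2, Cov_fac tb kx i (Nat.le_succ q) e2, h6]
      set g : Om W X β → ℝ := fun u => ind (lp4 tb v i q u) with hg
      have hgf : Fac (fun u => (XLo tb v i (q + 1) u, NPo tb v (q + 1) u)) g := fun a b e => by
        show ind (lp4 tb v i q a) = ind (lp4 tb v i q b)
        by_cases h8 : lp4 tb v i q a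
        · rw [ind_of h8, ind_of ((lp4_fac tb i q e).1 h8)]
        · rw [ind_not h8, ind_not fun h9 => h8 ((lp4_fac tb i q e).2 h9)]
      have key : ∀ w, tb.Ps.p w ≠ 0 → alq h v tb (q / 5) (q + 1) L j w →
          tb.Ps.ce Z (fun u => ind (alq h v tb (q / 5) (q + 1) L i u) * g u) w ≤
            tb.Ps.ce (NPo tb v q) g w + 3 * (Real.sqrt (4 * (a + 1) / N1) + 2 * Real.exp (-a) * Real.exp (2 * L)) := by
        intro w hw ha
        have k0 := ovl_raw (h := h) (N := pr3 (Fin 3) n N1) R hN h0 hS1 hN0 hNi (by linarith) tb (t := q / 5) ht hij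
          (L := L) (a := a) hL hw (g := g) (by rw [h5]; exact ha) (by rw [h5]; exact hgf) (fun _ => ind_nonneg _)
          (fun _ => ind_le_one _)
        rw [h5] at k0
        exact k0
      have h7 := UV.dens_lt (P := tb.Ps) (Z := Z) (f := f) hfZ
        (fun u => alq h v tb (q / 5) (q + 1) L i u ∧ lp4 tb v i q u) (y := kx + ep) (fun w hw hfw => by
          have k1 := key w hw hfw.2.2.1
          have k2 : tb.Ps.ce (NPo tb v q) g w ≤ kx := by
            by_contra h8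
            exact hfw.2.2.2 ⟨h4, hfw.2.1, (not_le.1 h8).le⟩
          have k3 : tb.Ps.ce Z (fun u => ind (alq h v tb (q / 5) (q + 1) L i u ∧ lp4 tb v i q u)) w =
              tb.Ps.ce Z (fun u => ind (alq h v tb (q / 5) (q + 1) L i u) * g u) w :=
            tb.Ps.ce_congr (fun u _ => ind_and _ _) w
          rw [k3]
          linarith)
      refine le_trans (tb.Ps.Pr_mono fun w _ hw => ?_) (h7.trans (mul_le_mul_of_nonneg_left
        (tb.Ps.Pr_mono fun w _ hw => hw.1) (by positivity)))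
      obtain ⟨⟨a1, a2, a3, a4, a5⟩, a6⟩ := hw
      exact ⟨⟨a2, a3, a5, a6⟩, a4, a1⟩
    · have h5 : tb.Ps.Pr (fun w => (lp4 tb v i q w ∧ lp4 tb v j q w ∧ hv4 tb v q w ∧
          alq h v tb (q / 5) (q + 1) L i w ∧ alq h v tb (q / 5) (q + 1) L j w) ∧ ¬ Cov tb v kx i q w) = 0 := by
        unfold FP.Pr
        rw [(tb.Ps.E_congr (g := fun _ => 0) fun u _ => ind_not fun hh => h4 hh.1.1.1)]
        exact tb.Ps.E_const 0
      rw [h5]
      exact mul_nonneg (by positivity) (tb.Ps.Pr_nonneg _)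
  refine (Finset.sum_le_sum h1).trans ?_
  rw [← Finset.mul_sum]
  exact mul_le_mul_of_nonneg_left (lp4_cnt hn hN1 R H tb j) (by positivity)

/-- **THE OVERLAP OF THE JOINT PRIVATE STEP** : `O q` = both vertices light (alive), the life of `j` decided and ended, in the
relation `Rl` of its start -/
theorem ovl_run {dg : ℕ → X → ℝ} {Lam n N1 : ℝ} (hn : 1 ≤ n) (hN1 : 1 ≤ N1)
    (R : Run h (pr3 (Fin 3) n N1) (SS1 (Fin 3)) (AdmDep D) v) (H : D.Hyp dg prr al T Lam) (tb : Tab D prr T W)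
    {M : UV.US (Om W X β)} {Q : UV.Kd (Om W X β)} (hP : M.P = tb.Ps) (HM : UV.Seen M)
    (hNP : ∀ s, Fac (M.S ∅ s) (NPo tb v s)) {i j : Fin 3} (hij : i ≠ j) {L a kx : ℝ} (hL : 0 ≤ L) (hkx : 0 ≤ kx)
    {Rl : ℕ → Om W X β → Prop} {O : ℕ → Om W X β → Prop}
    (hO : ∀ w, tb.Ps.p w ≠ 0 → ∀ q, O q w → UV.tv M j (q + 1) w = q + 1 ∧ UV.bet M Q j q w ∧ Rl (UV.tv M j q w) w)
    (hO2 : ∀ w, tb.Ps.p w ≠ 0 → ∀ q, O q w → lp4 tb v i q w ∧ lp4 tb v j q w ∧ hv4 tb v q w ∧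
      alq h v tb (q / 5) (q + 1) L i w ∧ alq h v tb (q / 5) (q + 1) L j w) {y : ℝ} (hy : 0 ≤ y) :
    ∑ q ∈ range (5 * T), tb.Ps.Pr (O q) ≤ (y * UV.NT M Q j (5 * T) +
      ∑ r ∈ range (5 * T), tb.Ps.Pr (fun w => (UV.bet M Q j r w ∧ Cov tb v kx i r w) ∧
        y < tb.Ps.ce (M.S {j} r) (fun u => ind (Rl (UV.tv M j r u) u)) w)) +
      (kx + 3 * (Real.sqrt (4 * (a + 1) / N1) + 2 * Real.exp (-a) * Real.exp (2 * L))) * (6 * n * Lam) := by
  have hC : ∀ s s', s ≤ s' → ∀ x w, M.S {j} s' x = M.S {j} s' w → (Cov tb v kx i s x ↔ Cov tb v kx i s w) :=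
    fun s s' hs x w e => Cov_fac tb kx i hs (hNP s' x w (M.mS ∅ {j} s' (Finset.empty_subset _) x w e))
  have h1 := UV.ovl_le (M := M) (Q := Q) HM (v := j) (C := Cov tb v kx i) hC (R := Rl) (O := O)
    (fun w hw q h => hO w (by rw [← hP]; exact hw) q h) hy (5 * T)
  rw [hP] at h1
  refine h1.trans (add_le_add le_rfl ?_)
  refine le_trans (Finset.sum_le_sum fun q _ => tb.Ps.Pr_mono fun w hw h => ?_)
    (ovl_off (h := h) hn hN1 R H tb hij (L := L) (a := a) (kx := kx) hL hkx)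
  exact ⟨hO2 w hw q h.1, h.2⟩

end

end Pool.Agent.GMH.OvlR
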