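import Pool.Agent.GMH.Ctx
import Pool.Agent.GMH.OvlR
import Pool.Agent.GMH.ConTM2

/-!
# GMH/OvlC (helper28): the overlap of the joint private step over `Ctx`

`kxo K Lam c0 = 1 / pw Lam (c0 + K + 8)`; `ovl_ctx` : `OvlR.ovl_run` with its number `(pw Lam K)⁻¹`.
-/

set_option autoImplicit false
set_option linter.unusedSectionVars false

namespace Pool.Agent.GMH.OvlR

open Finset Pool.Agent.PWZ Pool.Agent.M3 Pool.Agent.GM Pool.Agent.GM.Harm Pool.Agent.GMH Pool.Agent.GMH.NZ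
open Pool.Agent.GMH.V3 Pool.Agent.GMH.MV8R Pool.Agent.GMH.CX Pool.Agent.GMH.CTM
open Pool.Agent.GMH.TP Pool.Agent.GMH.TD Pool.Agent.GMH.Dy Pool.Agent.GMH.MVI

noncomputable section

/-- threshold of the public probability of a light value -/
def kxo (K : ℕ) (Lam : ℝ) (c0 : ℕ) : ℝ := (pw Lam (c0 + K + 8))⁻¹

theorem kxo_pos {Lam : ℝ} (hL : 2 ≤ Lam) (K c0 : ℕ) : 0 < kxo K Lam c0 := inv_pos.2 (MVN.pw_pos hL _)

/-- the number of the overlap off `Cov` -/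
theorem ovl_num {A : ℕ} (hA : 80 ≤ A) (K : ℕ) : Ev (fun c0 Lam => ∀ L : ℝ, 0 ≤ L → L ≤ pw Lam (cXF A c0 + 2) →
    (kxo K Lam c0 + 3 * (Real.sqrt (4 * (2 * L + pw Lam c0 + 1) / pw Lam (c1F A c0)) +
        2 * Real.exp (-(2 * L + pw Lam c0)) * Real.exp (2 * L))) * (6 * pw Lam c0 * Lam) ≤ (pw Lam K)⁻¹) := by
  refine Ev.mono (mv8r_num hA 0 (K + 2)) fun c0 Lam hL h0 L l0 l1 => ?_
  have h1 := h0 L l0 l1
  have q0 := MVN.pw_pos hL c0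
  have qK := MVN.pw_pos hL K
  have hL0 : (0 : ℝ) < Lam := by linarith
  have c0' : 0 ≤ Real.exp (4 * Lam) * MVN.kb Lam 0 c0 := by
    unfold MVN.kb
    positivity
  have c1 : 0 ≤ CTM.e0 Lam A c0 * (Real.exp (4 * Lam) * MVN.kb Lam 0 c0) := by
    refine mul_nonneg ?_ c0'
    unfold CTM.e0 pw
    positivity
  have c2 : 0 ≤ 2 * MVN.z Lam 0 c0 := by
    unfold MVN.z
    positivity
  set s := Real.sqrt (4 * (2 * L + pw Lam c0 + 1) / pw Lam (c1F A c0)) + 2 * Real.exp (-(2 * L + pw Lam c0)) *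
    Real.exp (2 * L) with hs
  have hs0 : 0 ≤ s := by
    have := Real.sqrt_nonneg (4 * (2 * L + pw Lam c0 + 1) / pw Lam (c1F A c0))
    positivity
  have f0 : 0 ≤ 6 * pw Lam c0 * Lam := by positivity
  have h2 : 3 * s * (6 * pw Lam c0 * Lam) ≤ (pw Lam (K + 2))⁻¹ := by
    refine le_trans (mul_le_mul_of_nonneg_right ?_ f0) h1
    have : 0 ≤ 3 * s := by positivity
    linarith
  have e2 : pw Lam (K + 2) = pw Lam K * pw Lam 2 := MVN.pw_add hL K 2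
  have e3 : (4 : ℝ) ^ 2 ≤ pw Lam 2 := MVN.pw_four hL 2
  have h3 : (pw Lam (K + 2))⁻¹ ≤ (pw Lam K)⁻¹ / 2 := by
    rw [e2, mul_inv, div_eq_mul_inv]
    refine mul_le_mul_of_nonneg_left (inv_anti₀ (by norm_num) ?_) (inv_pos.2 qK).le
    norm_num at e3
    linarith
  have h4 : kxo K Lam c0 * (6 * pw Lam c0 * Lam) ≤ (pw Lam K)⁻¹ / 2 := by
    unfold kxo
    have e4 : pw Lam (c0 + K + 8) = pw Lam c0 * pw Lam K * pw Lam 8 := by
      rw [MVN.pw_add hL (c0 + K) 8, MVN.pw_add hL c0 K]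
    have e5 : 6 * (2 * Lam) ≤ pw Lam 8 := by
      have e6 : pw Lam 8 = pw Lam 1 * pw Lam 7 := MVN.pw_add hL 1 7
      have e7 : pw Lam 1 = 2 * Lam := by unfold pw; rw [pow_one]
      have e8 : (4 : ℝ) ^ 7 ≤ pw Lam 7 := MVN.pw_four hL 7
      rw [e6, e7]
      norm_num at e8
      nlinarith
    have q8 := MVN.pw_pos hL 8
    rw [e4, mul_inv, mul_inv]
    have e9 : (pw Lam c0)⁻¹ * (pw Lam K)⁻¹ * (pw Lam 8)⁻¹ * (6 * pw Lam c0 * Lam) = (pw Lam K)⁻¹ * (6 * Lam * (pw Lam 8)⁻¹) := by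
      field_simp
    rw [e9, div_eq_mul_inv]
    refine mul_le_mul_of_nonneg_left ?_ (inv_pos.2 qK).le
    rw [← div_eq_mul_inv, div_le_iff₀ q8]
    linarith
  calc (kxo K Lam c0 + 3 * s) * (6 * pw Lam c0 * Lam) = kxo K Lam c0 * (6 * pw Lam c0 * Lam) + 3 * s * (6 * pw Lam c0 * Lam) := by
        ring
    _ ≤ (pw Lam K)⁻¹ := by linarith

/-- **THE OVERLAP OVER `Ctx`** -/
theorem ovl_ctx {A : ℕ} (hA : 80 ≤ A) (K : ℕ) : AllC A (fun C => ∀ (M : UV.US C.O) (Q : UV.Kd C.O), M.P = C.tb.Ps → UV.Seen M →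
    (∀ s, Fac (M.S ∅ s) (NPo C.tb C.v s)) → ∀ i j : Fin 3, i ≠ j → ∀ L : ℝ, 0 ≤ L → L ≤ pw C.Lam (cXF A C.c0 + 2) →
    ∀ (Rl O : ℕ → C.O → Prop),
    (∀ w, C.tb.Ps.p w ≠ 0 → ∀ q, O q w → UV.tv M j (q + 1) w = q + 1 ∧ UV.bet M Q j q w ∧ Rl (UV.tv M j q w) w) →
    (∀ w, C.tb.Ps.p w ≠ 0 → ∀ q, O q w → lp4 C.tb C.v i q w ∧ lp4 C.tb C.v j q w ∧ hv4 C.tb C.v q w ∧
      alq C.h C.v C.tb (q / 5) (q + 1) L i w ∧ alq C.h C.v C.tb (q / 5) (q + 1) L j w) → ∀ y : ℝ, 0 ≤ y →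
    ∑ q ∈ range (5 * C.T), C.tb.Ps.Pr (O q) ≤ (y * UV.NT M Q j (5 * C.T) +
      ∑ r ∈ range (5 * C.T), C.tb.Ps.Pr (fun w => (UV.bet M Q j r w ∧ Cov C.tb C.v (kxo K C.Lam C.c0) i r w) ∧
        y < C.tb.Ps.ce (M.S {j} r) (fun u => ind (Rl (UV.tv M j r u) u)) w)) + (pw C.Lam K)⁻¹) := by
  refine ((AllC.of_Ev (ovl_num hA K)).and (AllC.all (P := fun C => C.A = A) fun C hC => hC)).mono
    fun C ⟨hC, hCA⟩ M Q hP HM hNP i j hij L l0 l1 Rl O hO hO2 y hy => ?_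
  have h1 := ovl_run (h := C.h) C.n1 C.N11 C.R C.H C.tb (Q := Q) hP HM hNP hij (L := L) (a := 2 * L + pw C.Lam C.c0)
    (kx := kxo K C.Lam C.c0) l0 (kxo_pos C.hL K C.c0).le hO hO2 hy
  have h2 : C.N1 = pw C.Lam (c1F A C.c0) := by
    unfold Ctx.N1
    rw [hCA]
  rw [h2] at h1
  exact h1.trans (add_le_add le_rfl (hC L l0 l1))

end

end Pool.Agent.GMH.OvlR
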