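import Pool.Agent.GMH.RarN8
import Pool.Agent.GMH.RarS
import Pool.Agent.GMH.StpT

/-!
# GMH/RarN9 (helper88): THE NODE, ALIVE AND DEAD PART TOGETHER (row C5, node)

* `afE` : a new public start after the step `q` which is not a removal; `afE_fac`, `afE_hz`, `ruO_fac`;
* **`node_all`** : `Σ_{q < 5 T} P (C q, y < P (A q | S ∅ (q + 1))) ≤ exp (-L1) Σ P (C q) + 160 exp (-lam) n N1 Lam +
  2 / y Σ P (C q, A q, dead at q)`; `node_af` : the same for `C q = afE q`, no condition on `C`;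
* **`node_st`** : the same for the sights `q`, relation of the tables of `q`, `q ≤ 5 T`.
-/

set_option autoImplicit false
set_option linter.unusedSectionVars false

namespace Pool.Agent.GMH.RarN

open Finset Pool.Agent.PWZ Pool.Agent.M3 Pool.Agent.GM Pool.Agent.GM.Harm Pool.Agent.GMH
open Pool.Agent.GMH.Dy Pool.Agent.GMH.MVI Pool.Agent.GMH.MVIp Pool.Agent.GMH.KF
open Pool.Agent.GMH.UV (US Kd tv Rn)
open Pool.Agent.GMH.TRF (ruO)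

section om

variable {X β γ φ : Type} [Fintype X] [Fintype β] [Fintype φ] [Nonempty X] [Nonempty β]
variable {D : HD (Fin 3) X β γ φ} {al : ℝ} {h : D.Thick al} {prr : ℕ → Fin 3 → φ → φ} {T : ℕ} {W : Type} [Fintype W]
variable {tb : Tab D prr T W} {v : ℕ → Finset (Fin 3) → X → (Fin 3 → β) → Pt (Fin 3) X β φ}

theorem ruO_fac (q : ℕ) : Fac (NPo tb v (q + 1)) (ruO tb v q) := fun a b e => by
  show (_ ∧ _) = (_ ∧ _)
  rw [tb.Ps.Fac_m (NPo tb v (q + 1)) a b e, tb.Ps.Fac_m (NPo tb v q) a b (NPo_mono tb (Nat.le_succ q) e)]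

theorem sgt_NPo (hv : Codes D v) (s : ℕ) : Fac (sgt D ∅ (TP.nn s)) (NPo (W := W) tb v s) :=
  MVIp.NPq_sgt tb hv le_rfl (TP.nc_le s ∅) ∅ 0

section clk

variable (tb)
variable (hv : Codes D v) {d1 kb d0 k0 p1 z : ℝ} (hd1 : 0 < d1) (hd11 : d1 ≤ 1) (hkb : 0 < kb) (hd0 : 0 < d0)
  (hd01 : d0 ≤ 1) (hk0 : 0 < k0) (hp1 : 0 < p1) (hz0 : 0 < z)

/-- a new public start, not a removal -/
def afE (q : ℕ) (w : Om W X β) : Prop :=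
  MV.nu (MSi tb (v := v) d1 kb d0 k0 p1 z hd1 hd11 hkb hd0 hd01 hk0 hp1 hz0) (q + 1) w = q + 1 ∧ ¬ ruO tb v q w

theorem afE_fac (q : ℕ) : Fac (NPo tb v (q + 1)) (afE tb (v := v) hd1 hd11 hkb hd0 hd01 hk0 hp1 hz0 q) := fun a b e => by
  have h1 := MV.nu_fac (M := MSi tb (v := v) d1 kb d0 k0 p1 z hd1 hd11 hkb hd0 hd01 hk0 hp1 hz0) (q + 1) a b e
  have h2 := ruO_fac (tb := tb) (v := v) q a b e
  show (_ ∧ ¬ _) = (_ ∧ ¬ _)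
  rw [h1, h2]

theorem nru_hz {q : ℕ} (h1 : q % 5 = 1) {w : Om W X β} (h2 : ¬ ruO tb v q w) : hz tb v (q / 5) w := by
  have e : q = 5 * (q / 5) + 1 := by omega
  have h3 : ¬ (2 * tb.Ps.m (NPo tb v (q + 1)) w < tb.Ps.m (NPo tb v q) w) := fun hh => h2 ⟨h1, hh⟩
  show tb.Ps.m (NPo tb v (5 * (q / 5) + 1)) w ≤ 2 * tb.Ps.m (NPo tb v (5 * (q / 5) + 2)) w
  have h4 := not_lt.1 h3
  rw [show 5 * (q / 5) + 2 = q + 1 by omega, ← e]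
  exact h4

section nod

variable {n N1 : ℝ} (hn : 1 ≤ n) (hN1 : 1 ≤ N1) (R : Run h (pr3 (Fin 3) n N1) (SS1 (Fin 3)) (AdmDep D) v)
  {dg : ℕ → X → ℝ} {Lam : ℝ} (H : D.Hyp dg prr al T Lam)

include hn hN1 R H

/-- **ALIVE AND DEAD, SIGHT AFTER THE STEP** -/
theorem node_all {p : V3.AP} (hX0 : 0 ≤ p.X0) {lam L1 eta y : ℝ} (hlam : 2 ≤ lam) (hL1 : 0 ≤ L1) (o : Option (Fin 3)) (hy0 : 0 < y)
    {B : ℕ → Om W X β → Prop} (hB : ∀ e ≤ 5 * T, Sn tb v e (B e)) (hBal : ∀ e w, B e w → Alv h v tb p e w)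
    {A C : ℕ → Om W X β → Prop} (hA : ∀ q < 5 * T, ∀ w, tb.Ps.p w ≠ 0 → ((A q w ∧ Alv h v tb p q w) ↔
      (At' tb v (tauO (USi tb hv d1 kb d0 k0 p1 z hd1 hd11 hkb hd0 hd01 hk0 hp1 hz0) o q) B w ∧ Alv h v tb p q w)))
    (hC : ∀ q < 5 * T, Fac (NPo tb v (q + 1)) (C q))
    (hCl : ∀ q < 5 * T, q % 5 = 1 → ∀ w, tb.Ps.p w ≠ 0 → C q w → hz tb v (q / 5) w)
    (hm : ∀ q < 5 * T, ∀ w, tb.Ps.p w ≠ 0 → C q w → okq tb v lam q w → tb.Ps.ce (NPo tb v q) (fun u => ind (A q u ∧ Alv h v tb p q u)) w ≤ eta)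
    (hy : 54 * (L1 + 2 * (lam + 4) + 2 * p.X0 + 5) / N1 + 54 * Lam / n + 2 * eta < y / 2 / 8) :
    ∑ q ∈ range (5 * T), tb.Ps.Pr (fun w => C q w ∧ y < tb.Ps.ce (sgt D ∅ (TP.nn (q + 1))) (fun u => ind (A q u)) w) ≤
      Real.exp (-L1) * ∑ q ∈ range (5 * T), tb.Ps.Pr (C q) + 160 * Real.exp (-lam) * (n * N1 * Lam) +
        2 / y * ∑ q ∈ range (5 * T), tb.Ps.Pr (fun w => C q w ∧ A q w ∧ ¬ Alv h v tb p q w) := by
  have k1 := node_sum (h := h) (tb := tb) hv hd1 hd11 hkb hd0 hd01 hk0 hp1 hz0 hn hN1 R H hX0 hlam hL1 o hB hBal hA hC hCl hm hy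
  have k2 : ∀ q ∈ range (5 * T), tb.Ps.Pr (fun w => C q w ∧
      y < tb.Ps.ce (sgt D ∅ (TP.nn (q + 1))) (fun u => ind (A q u)) w) ≤
      tb.Ps.Pr (fun w => C q w ∧ y / 2 ≤ tb.Ps.ce (sgt D ∅ (TP.nn (q + 1))) (fun u => ind (A q u ∧ Alv h v tb p q u)) w) +
        2 / y * tb.Ps.Pr (fun w => C q w ∧ A q w ∧ ¬ Alv h v tb p q w) := fun q hq => by
    have k3 := RarS.split_le (P := tb.Ps) (X := sgt D ∅ (TP.nn (q + 1))) (E := C q)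
      (fun a b e => iff_of_eq (hC q (mem_range.1 hq) a b (sgt_NPo hv (q + 1) a b e))) (A q) (Alv h v tb p q) hy0
    refine k3.trans (add_le_add (tb.Ps.Pr_mono fun w _ hh => ⟨hh.1, hh.2.le⟩) le_rfl)
  refine (Finset.sum_le_sum k2).trans ?_
  rw [Finset.sum_add_distrib, ← Finset.mul_sum]
  linarith

/-- **THE NEW PUBLIC STARTS WHICH ARE NOT REMOVALS** -/
theorem node_af {p : V3.AP} (hX0 : 0 ≤ p.X0) {lam L1 eta y : ℝ} (hlam : 2 ≤ lam) (hL1 : 0 ≤ L1) (o : Option (Fin 3)) (hy0 : 0 < y)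
    {B : ℕ → Om W X β → Prop} (hB : ∀ e ≤ 5 * T, Sn tb v e (B e)) (hBal : ∀ e w, B e w → Alv h v tb p e w)
    {A : ℕ → Om W X β → Prop} (hA : ∀ q < 5 * T, ∀ w, tb.Ps.p w ≠ 0 → ((A q w ∧ Alv h v tb p q w) ↔
      (At' tb v (tauO (USi tb hv d1 kb d0 k0 p1 z hd1 hd11 hkb hd0 hd01 hk0 hp1 hz0) o q) B w ∧ Alv h v tb p q w)))
    (hm : ∀ q < 5 * T, ∀ w, tb.Ps.p w ≠ 0 → afE tb (v := v) hd1 hd11 hkb hd0 hd01 hk0 hp1 hz0 q w → okq tb v lam q w →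
      tb.Ps.ce (NPo tb v q) (fun u => ind (A q u ∧ Alv h v tb p q u)) w ≤ eta)
    (hy : 54 * (L1 + 2 * (lam + 4) + 2 * p.X0 + 5) / N1 + 54 * Lam / n + 2 * eta < y / 2 / 8) :
    ∑ q ∈ range (5 * T), tb.Ps.Pr (fun w => afE tb (v := v) hd1 hd11 hkb hd0 hd01 hk0 hp1 hz0 q w ∧
        y < tb.Ps.ce (sgt D ∅ (TP.nn (q + 1))) (fun u => ind (A q u)) w) ≤
      Real.exp (-L1) * ∑ q ∈ range (5 * T), tb.Ps.Pr (afE tb (v := v) hd1 hd11 hkb hd0 hd01 hk0 hp1 hz0 q) +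
        160 * Real.exp (-lam) * (n * N1 * Lam) +
        2 / y * ∑ q ∈ range (5 * T), tb.Ps.Pr (fun w => afE tb (v := v) hd1 hd11 hkb hd0 hd01 hk0 hp1 hz0 q w ∧ A q w ∧
          ¬ Alv h v tb p q w) :=
  node_all (h := h) (tb := tb) hv hd1 hd11 hkb hd0 hd01 hk0 hp1 hz0 hn hN1 R H hX0 hlam hL1 o hy0 hB hBal hA
    (fun q _ => afE_fac tb hd1 hd11 hkb hd0 hd01 hk0 hp1 hz0 q) (fun q _ h1 w _ hc => nru_hz tb h1 hc.2) hm hy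

/-- **ALIVE AND DEAD, SIGHT AT THE STATE OF THE TABLES** -/
theorem node_st {p : V3.AP} (hX0 : 0 ≤ p.X0) {lam L1 eta y : ℝ} (hlam : 2 ≤ lam) (hL1 : 0 ≤ L1) (o : Option (Fin 3)) (hy0 : 0 < y)
    {B : ℕ → Om W X β → Prop} (hB : ∀ e ≤ 5 * T, Sn tb v e (B e)) (hBal : ∀ e w, B e w → Alv h v tb p e w)
    {A C : ℕ → Om W X β → Prop} (hA : ∀ q ≤ 5 * T, ∀ w, tb.Ps.p w ≠ 0 → ((A q w ∧ Alv h v tb p q w) ↔
      (At' tb v (tauO (USi tb hv d1 kb d0 k0 p1 z hd1 hd11 hkb hd0 hd01 hk0 hp1 hz0) o q) B w ∧ Alv h v tb p q w)))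
    (hC : ∀ q ≤ 5 * T, Fac (NPo tb v q) (C q))
    (hm : ∀ q ≤ 5 * T, ∀ w, tb.Ps.p w ≠ 0 → C q w → okq tb v lam q w → tb.Ps.ce (NPo tb v q) (fun u => ind (A q u ∧ Alv h v tb p q u)) w ≤ eta)
    (hy : 54 * (L1 + 2 * (lam + 4) + 2 * p.X0 + 5) / N1 + 54 * Lam / n + 2 * eta < y / 2 / 8) :
    ∑ q ∈ range (5 * T + 1), tb.Ps.Pr (fun w => C q w ∧ y < tb.Ps.ce (sgt D ∅ (TP.nn q)) (fun u => ind (A q u)) w) ≤
      Real.exp (-L1) * ∑ q ∈ range (5 * T + 1), tb.Ps.Pr (C q) + 160 * Real.exp (-lam) * (n * N1 * Lam) +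
        2 / y * ∑ q ∈ range (5 * T + 1), tb.Ps.Pr (fun w => C q w ∧ A q w ∧ ¬ Alv h v tb p q w) := by
  have k1 := node_new (h := h) (tb := tb) hv hd1 hd11 hkb hd0 hd01 hk0 hp1 hz0 hn hN1 R H hX0 hlam hL1 o hB hBal hA hC hm hy
  have k2 : ∀ q ∈ range (5 * T + 1), tb.Ps.Pr (fun w => C q w ∧
      y < tb.Ps.ce (sgt D ∅ (TP.nn q)) (fun u => ind (A q u)) w) ≤
      tb.Ps.Pr (fun w => C q w ∧ y / 2 ≤ tb.Ps.ce (sgt D ∅ (TP.nn q)) (fun u => ind (A q u ∧ Alv h v tb p q u)) w) +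
        2 / y * tb.Ps.Pr (fun w => C q w ∧ A q w ∧ ¬ Alv h v tb p q w) := fun q hq => by
    have k3 := RarS.split_le (P := tb.Ps) (X := sgt D ∅ (TP.nn q)) (E := C q)
      (fun a b e => iff_of_eq (hC q (Nat.lt_succ_iff.1 (mem_range.1 hq)) a b (sgt_NPo hv q a b e))) (A q) (Alv h v tb p q) hy0
    refine k3.trans (add_le_add (tb.Ps.Pr_mono fun w _ hh => ⟨hh.1, hh.2.le⟩) le_rfl)
  refine (Finset.sum_le_sum k2).trans ?_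
  rw [Finset.sum_add_distrib, ← Finset.mul_sum]
  linarith

end nod

end clk

end om

end Pool.Agent.GMH.RarN
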