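import Pool.Agent.GMH.RarC5
import Pool.Agent.GMH.RarN9
import Pool.Agent.GMH.KDT3

/-!
# GMH/RarC6 (helper30): THE EXACT VERTEX, ALIVE AND DEAD PART, CLASS MASSES (row C5, exact vertex)

* `exact_all` : sum over the steps, sight `q + 1`; `exact_st` : sum over the states, sight `q`; the relation without `Alv`, dead
  part `2 / y * Σ Pr (C q, A q, dead at q)`;
* `afX b q` : a new life of the exact vertex after the step which is not a removal; `afX_fac`, `afX_hz`, `afX_oX`;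
* **`RX`** : a relation of the lives (tables of the start), `AX` : of the life of the exact vertex which runs at `q`;
  **`Cm`** : its class masses: at the classes of `q` with a share, and in the light levels at the classes of `5 (t + 1)`;
* **`af_all`** : the a-free ends; **`st_new`** : the new lives (no dead part); **`st_fin`** : the final time.
-/

set_option autoImplicit false
set_option linter.unusedSectionVars false

namespace Pool.Agent.GMH.RarC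

open Finset Pool.Agent.PWZ Pool.Agent.M3 Pool.Agent.GM Pool.Agent.GM.Harm Pool.Agent.GMH
open Pool.Agent.GMH.TP Pool.Agent.GMH.TD Pool.Agent.GMH.Dy Pool.Agent.GMH.MVI Pool.Agent.GMH.MVIp
open Pool.Agent.GMH.RarX Pool.Agent.GMH.GamR Pool.Agent.GMH.KF
open Pool.Agent.GMH.UV (US Kd tv Rn)
open Pool.Agent.GMH.TRF (ruO rpO)
open Pool.Agent.GMH.MV Pool.Agent.GMH.ExK
open Pool.Agent.GMH.RarN (Sn At' Es hz eT_fac eT_le ncp hz_fac Sn_cut Sn_Alv ruO_fac nru_hz NPo_mono)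

noncomputable section

variable {X β γ φ : Type} [Fintype X] [Fintype β] [Fintype φ] [Nonempty X] [Nonempty β]
variable {D : HD (Fin 3) X β γ φ} {al : ℝ} {h : D.Thick al} {prr : ℕ → Fin 3 → φ → φ} {T : ℕ} {W : Type} [Fintype W]
variable {tb : Tab D prr T W} {v : ℕ → Finset (Fin 3) → X → (Fin 3 → β) → Pt (Fin 3) X β φ}
variable {b c d : Fin 3}

theorem rpO_fac (b : Fin 3) (q : ℕ) : Fac (XN tb v b (q + 1)) (rpO tb v b q) := fun u w e => by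
  have e1 : XN tb v b q u = XN tb v b q w := XN_mono tb b (Nat.le_succ q) u w e
  have hm1 := tb.Ps.Fac_m (XN tb v b (q + 1)) u w e
  have hm0 := tb.Ps.Fac_m (XN tb v b q) u w e1
  have hN : NPo tb v (q + 1) u = NPo tb v (q + 1) w := congrArg Prod.snd e
  show (_ ∧ 2 * tb.Ps.m (XN tb v b (q + 1)) u < tb.Ps.m (XN tb v b q) u ∧ _) =
    (_ ∧ 2 * tb.Ps.m (XN tb v b (q + 1)) w < tb.Ps.m (XN tb v b q) w ∧ _)
  rw [hm1, hm0]
  refine propext (and_congr_right fun h4 => and_congr_right fun _ => ?_)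
  have a1 : NPo tb v (5 * (q / 5) + 1) u = NPo tb v (5 * (q / 5) + 1) w := NPo_mono tb (by omega) hN
  have a2 : NPo tb v (5 * (q / 5) + 2) u = NPo tb v (5 * (q / 5) + 2) w := NPo_mono tb (by omega) hN
  rw [tb.Ps.Fac_m (NPo tb v (5 * (q / 5) + 1)) u w a1, tb.Ps.Fac_m (NPo tb v (5 * (q / 5) + 2)) u w a2]

theorem nrp_oX {q : ℕ} (h1 : q % 5 = 4) {w : Om W X β} (h2 : ¬ rpO tb v b q w) (h3 : hz tb v (q / 5) w) :
    oX tb v b (q / 5) w := by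
  have e : q = 5 * (q / 5) + 4 := by omega
  have h4 : ¬ (2 * tb.Ps.m (XN tb v b (q + 1)) w < tb.Ps.m (XN tb v b q) w) := fun hh => h2 ⟨h1, hh, h3⟩
  have h5 := not_lt.1 h4
  unfold oX
  rw [show 5 * (q / 5) + 5 = q + 1 by omega, ← e]
  exact h5

theorem sgt_XN (hv : Codes D v) (b : Fin 3) (s : ℕ) : Fac (sgt D {b} (TP.nn s)) (XN (W := W) tb v b s) :=
  fun u w e => XN_sgtS tb hv b s u w e

section clk

variable (tb)
variable (hv : Codes D v) {d1 kb d0 k0 p1 z : ℝ} (hd1 : 0 < d1) (hd11 : d1 ≤ 1) (hkb : 0 < kb) (hd0 : 0 < d0)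
  (hd01 : d0 ≤ 1) (hk0 : 0 < k0) (hp1 : 0 < p1) (hz0 : 0 < z)

/-- a new life of the exact vertex after the step, not a removal -/
def afX (b : Fin 3) (q : ℕ) (w : Om W X β) : Prop :=
  tauS (MSi tb (v := v) d1 kb d0 k0 p1 z hd1 hd11 hkb hd0 hd01 hk0 hp1 hz0) b (q + 1) w = q + 1 ∧ ¬ rpO tb v b q w ∧
    ¬ ruO tb v q w

theorem afX_fac (b : Fin 3) (q : ℕ) : Fac (XN tb v b (q + 1)) (afX tb (v := v) hd1 hd11 hkb hd0 hd01 hk0 hp1 hz0 b q) :=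
  fun u w e => by
    have h1 := tauS_fac (M := MSi tb (v := v) d1 kb d0 k0 p1 z hd1 hd11 hkb hd0 hd01 hk0 hp1 hz0) b (q + 1) u w e
    have h2 := rpO_fac (tb := tb) (v := v) b q u w e
    have h3 := ruO_fac (tb := tb) (v := v) q u w (congrArg Prod.snd e)
    show (_ ∧ ¬ _ ∧ ¬ _) = (_ ∧ ¬ _ ∧ ¬ _)
    rw [h1, h2, h3]

section cl2

variable {n N1 : ℝ} (hn : 1 ≤ n) (hN1 : 1 ≤ N1) (R : Run h (pr3 (Fin 3) n N1) (SS1 (Fin 3)) (AdmDep D) v)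
  {dg : ℕ → X → ℝ} {Lam : ℝ} (H : D.Hyp dg prr al T Lam) (hbc : b ≠ c) (hbd : b ≠ d) (hcd : c ≠ d)

include hn hN1 R H hbc hbd hcd

/-- **ALIVE AND DEAD, SIGHT AFTER THE STEP** -/
theorem exact_all {p : V3.AP} {lam L1 eta y R0 ep : ℝ} {k : ℕ} (hlam : 3 ≤ lam) (hy0 : 0 < y)
    (K : Cst n al (3 * Real.exp p.X0) R0 ep k (L1 + (2 * lam + 3)))
    {B : ℕ → Om W X β → Prop} (hB : ∀ e ≤ 5 * T, Sn tb v e (B e)) (hBal : ∀ e w, B e w → Alv h v tb p e w)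
    {A C : ℕ → Om W X β → Prop} (hA : ∀ q < 5 * T, ∀ w, tb.Ps.p w ≠ 0 → ((A q w ∧ Alv h v tb p q w) ↔
      (At' tb v (tv (USi tb hv d1 kb d0 k0 p1 z hd1 hd11 hkb hd0 hd01 hk0 hp1 hz0) b q) B w ∧ Alv h v tb p q w)))
    (hC : ∀ q < 5 * T, Fac (XN tb v b (q + 1)) (C q))
    (hCl : ∀ q < 5 * T, q % 5 = 1 → ∀ w, tb.Ps.p w ≠ 0 → C q w → hz tb v (q / 5) w)
    (hCo : ∀ q < 5 * T, q % 5 = 4 → ∀ w, tb.Ps.p w ≠ 0 → C q w → hz tb v (q / 5) w → oX tb v b (q / 5) w)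
    (hm : ∀ q < 5 * T, ∀ w, tb.Ps.p w ≠ 0 → C q w → (5 * (q / 5) < q → hz tb v (q / 5) w) →
      tb.Ps.m (XN tb v b (5 * (q / 5))) w ≤ Real.exp (2 * lam + 3) * tb.Ps.m (XN tb v b q) w →
      tb.Ps.ce (XN tb v b q) (fun u => ind (A q u ∧ Alv h v tb p q u)) w ≤ eta)
    (hmL : ∀ q < 5 * T, ∀ w, tb.Ps.p w ≠ 0 → C q w → 5 * (q / 5) < q → ¬ hz tb v (q / 5) w →
      tb.Ps.ce (XN tb v b (5 * (q / 5 + 1))) (fun u => ind (A q u ∧ Alv h v tb p q u)) w ≤ eta)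
    (hy : 4 * (1025 * ELr n N1 al (3 * Real.exp p.X0) R0 ep k (L1 + (2 * lam + 3)) (p.X0 + (L1 + (2 * lam + 3))) +
      1024 * eta) < y / 2) :
    ∑ q ∈ range (5 * T), tb.Ps.Pr (fun w => C q w ∧
        y < tb.Ps.ce (sgt D {b} (TP.nn (q + 1))) (fun u => ind (A q u)) w) ≤
      Real.exp (-L1) * ∑ q ∈ range (5 * T), tb.Ps.Pr (C q) + 800 * Real.exp (-lam) * (n * N1 * Lam) +
        2 / y * ∑ q ∈ range (5 * T), tb.Ps.Pr (fun w => C q w ∧ A q w ∧ ¬ Alv h v tb p q w) := by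
  have k1 := exact_sum (h := h) tb hv hd1 hd11 hkb hd0 hd01 hk0 hp1 hz0 hn hN1 R H hbc hbd hcd hlam (half_pos hy0) K hB hBal
    hA hC hCl hCo hm hmL hy
  have k2 : ∀ q ∈ range (5 * T), tb.Ps.Pr (fun w => C q w ∧
      y < tb.Ps.ce (sgt D {b} (TP.nn (q + 1))) (fun u => ind (A q u)) w) ≤
      tb.Ps.Pr (fun w => C q w ∧ y / 2 ≤ tb.Ps.ce (sgt D {b} (TP.nn (q + 1))) (fun u => ind (A q u ∧ Alv h v tb p q u)) w) +
        2 / y * tb.Ps.Pr (fun w => C q w ∧ A q w ∧ ¬ Alv h v tb p q w) := fun q hq => by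
    have k3 := RarS.split_le (P := tb.Ps) (X := sgt D {b} (TP.nn (q + 1))) (E := C q)
      (fun u w e => iff_of_eq (hC q (mem_range.1 hq) u w (sgt_XN hv b (q + 1) u w e))) (A q) (Alv h v tb p q) hy0
    exact k3.trans (add_le_add (tb.Ps.Pr_mono fun w _ hh => ⟨hh.1, hh.2.le⟩) le_rfl)
  refine (Finset.sum_le_sum k2).trans ?_
  rw [Finset.sum_add_distrib, ← Finset.mul_sum]
  linarith

/-- **ALIVE AND DEAD, SIGHT AT THE STATE** -/
theorem exact_st {p : V3.AP} {lam L1 eta y R0 ep : ℝ} {k : ℕ} (hlam : 3 ≤ lam) (hy0 : 0 < y)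
    (K : Cst n al (3 * Real.exp p.X0) R0 ep k (L1 + (2 * lam + 3)))
    {B : ℕ → Om W X β → Prop} (hB : ∀ e ≤ 5 * T, Sn tb v e (B e)) (hBal : ∀ e w, B e w → Alv h v tb p e w)
    {A C : ℕ → Om W X β → Prop} (hA : ∀ q ≤ 5 * T, ∀ w, tb.Ps.p w ≠ 0 → ((A q w ∧ Alv h v tb p q w) ↔
      (At' tb v (tv (USi tb hv d1 kb d0 k0 p1 z hd1 hd11 hkb hd0 hd01 hk0 hp1 hz0) b q) B w ∧ Alv h v tb p q w)))
    (hC : ∀ q ≤ 5 * T, Fac (XN tb v b q) (C q))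
    (hm : ∀ q ≤ 5 * T, ∀ w, tb.Ps.p w ≠ 0 → C q w → (5 * (q / 5) + 1 < q → hz tb v (q / 5) w) →
      tb.Ps.m (XN tb v b (5 * (q / 5))) w ≤ Real.exp (2 * lam + 3) * tb.Ps.m (XN tb v b q) w →
      tb.Ps.ce (XN tb v b q) (fun u => ind (A q u ∧ Alv h v tb p q u)) w ≤ eta)
    (hmL : ∀ q ≤ 5 * T, ∀ w, tb.Ps.p w ≠ 0 → C q w → 5 * (q / 5) + 1 < q → ¬ hz tb v (q / 5) w →
      tb.Ps.ce (XN tb v b (5 * (q / 5 + 1))) (fun u => ind (A q u ∧ Alv h v tb p q u)) w ≤ eta)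
    (hy : 4 * (1025 * ELr n N1 al (3 * Real.exp p.X0) R0 ep k (L1 + (2 * lam + 3)) (p.X0 + (L1 + (2 * lam + 3))) +
      1024 * eta) < y / 2) :
    ∑ q ∈ range (5 * T + 1), tb.Ps.Pr (fun w => C q w ∧
        y < tb.Ps.ce (sgt D {b} (TP.nn q)) (fun u => ind (A q u)) w) ≤
      Real.exp (-L1) * ∑ q ∈ range (5 * T + 1), tb.Ps.Pr (C q) + 800 * Real.exp (-lam) * (n * N1 * Lam) +
        2 / y * ∑ q ∈ range (5 * T + 1), tb.Ps.Pr (fun w => C q w ∧ A q w ∧ ¬ Alv h v tb p q w) := by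
  have k1 := exact_new (h := h) tb hv hd1 hd11 hkb hd0 hd01 hk0 hp1 hz0 hn hN1 R H hbc hbd hcd hlam (half_pos hy0) K hB hBal
    hA hC hm hmL hy
  have k2 : ∀ q ∈ range (5 * T + 1), tb.Ps.Pr (fun w => C q w ∧
      y < tb.Ps.ce (sgt D {b} (TP.nn q)) (fun u => ind (A q u)) w) ≤
      tb.Ps.Pr (fun w => C q w ∧ y / 2 ≤ tb.Ps.ce (sgt D {b} (TP.nn q)) (fun u => ind (A q u ∧ Alv h v tb p q u)) w) +
        2 / y * tb.Ps.Pr (fun w => C q w ∧ A q w ∧ ¬ Alv h v tb p q w) := fun q hq => by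
    have k3 := RarS.split_le (P := tb.Ps) (X := sgt D {b} (TP.nn q)) (E := C q)
      (fun u w e => iff_of_eq (hC q (Nat.lt_succ_iff.1 (mem_range.1 hq)) u w (sgt_XN hv b q u w e))) (A q) (Alv h v tb p q) hy0
    exact k3.trans (add_le_add (tb.Ps.Pr_mono fun w _ hh => ⟨hh.1, hh.2.le⟩) le_rfl)
  refine (Finset.sum_le_sum k2).trans ?_
  rw [Finset.sum_add_distrib, ← Finset.mul_sum]
  linarith

end cl2

/-! ### the relations of the lives -/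

variable (v h) in
/-- a relation of the lives, tables of the state `r` -/
structure RX (p : V3.AP) (B : ℕ → Om W X β → Prop) : Prop where
  sn : ∀ r ≤ 5 * T, Sn tb v r (B r)
  al : ∀ r w, B r w → Alv h v tb p r w

/-- the relation of the life of the exact vertex which runs at `q` -/
def AX (b : Fin 3) (B : ℕ → Om W X β → Prop) (q : ℕ) (w : Om W X β) : Prop :=
  B (eT v tb (tauS (MSi tb (v := v) d1 kb d0 k0 p1 z hd1 hd11 hkb hd0 hd01 hk0 hp1 hz0) b q w) w) w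

variable (h) in
/-- the class masses of the relation of the life -/
structure Cm (p : V3.AP) (b : Fin 3) (B : ℕ → Om W X β → Prop) (L eta : ℝ) : Prop where
  e0 : 0 ≤ eta
  own : ∀ q ≤ 5 * T, ∀ w, tb.Ps.p w ≠ 0 →
    tb.Ps.m (XN tb v b (5 * (q / 5))) w ≤ Real.exp L * tb.Ps.m (XN tb v b q) w →
    tb.Ps.ce (XN tb v b q) (fun u => ind (AX tb (v := v) hd1 hd11 hkb hd0 hd01 hk0 hp1 hz0 b B q u ∧ Alv h v tb p q u)) w ≤ eta
  light : ∀ q ≤ 5 * T, ∀ w, tb.Ps.p w ≠ 0 → ltL v tb q w →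
    tb.Ps.ce (XN tb v b (5 * (q / 5) + 5)) (fun u => ind (AX tb (v := v) hd1 hd11 hkb hd0 hd01 hk0 hp1 hz0 b B q u ∧
      Alv h v tb p q u)) w ≤ eta

/-- light level -/
theorem ltL_of {q : ℕ} (h1 : 5 * (q / 5) + 1 < q) {w : Om W X β} (h2 : ¬ hz tb v (q / 5) w) : ltL v tb q w :=
  ⟨by omega, not_le.1 h2⟩

/-- the dead part of the ends -/
theorem dead_end {p : V3.AP} {B : ℕ → Om W X β → Prop}
    (hB : RX h tb v p B) (b : Fin 3) {C : ℕ → Om W X β → Prop}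
    (hC : ∀ q w, C q w → tauS (MSi tb (v := v) d1 kb d0 k0 p1 z hd1 hd11 hkb hd0 hd01 hk0 hp1 hz0) b (q + 1) w = q + 1) (T' : ℕ) :
    ∑ q ∈ range T', tb.Ps.Pr (fun w => C q w ∧ AX tb (v := v) hd1 hd11 hkb hd0 hd01 hk0 hp1 hz0 b B q w ∧
      ¬ Alv h v tb p q w) ≤ tb.Ps.Pr (fun w => ¬ Alv h v tb p T' w) := by
  refine (Finset.sum_le_sum fun q _ => tb.Ps.Pr_mono fun w _ hh => ⟨hC q w hh.1, hB.al _ _ hh.2.1, hh.2.2⟩).trans
    (RelD.dead_once (P := tb.Ps) (C := CS (MSi tb (v := v) d1 kb d0 k0 p1 z hd1 hd11 hkb hd0 hd01 hk0 hp1 hz0) b)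
      (Al := Alv h v tb p) (e := fun q w => eT v tb (tauS (MSi tb (v := v) d1 kb d0 k0 p1 z hd1 hd11 hkb hd0 hd01 hk0 hp1 hz0)
        b q w) w) (fun w _ q ha r hr => ha r (hr.trans (Nat.le_succ q))) (fun w _ q => KDT.le_eT tb _ w) T')

section cl4

variable {n N1 : ℝ} (hn : 1 ≤ n) (hN1 : 1 ≤ N1) (R : Run h (pr3 (Fin 3) n N1) (SS1 (Fin 3)) (AdmDep D) v)
  {dg : ℕ → X → ℝ} {Lam : ℝ} (H : D.Hyp dg prr al T Lam) (hbc : b ≠ c) (hbd : b ≠ d) (hcd : c ≠ d)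

include hn hN1 R H hbc hbd hcd

/-- **THE A-FREE ENDS OF THE LIVES OF THE EXACT VERTEX** (row `AF v`) -/
theorem af_all {p : V3.AP} {lam L1 y R0 ep : ℝ} {k : ℕ} (hlam : 3 ≤ lam) (hy0 : 0 < y)
    (K : Cst n al (3 * Real.exp p.X0) R0 ep k (L1 + (2 * lam + 3)))
    {B : ℕ → Om W X β → Prop} (hB : RX h tb v p B) {eta : ℝ}
    (hT : Cm (v := v) h tb hd1 hd11 hkb hd0 hd01 hk0 hp1 hz0 p b B (2 * lam + 3) eta)
    (hy : 4 * (1025 * ELr n N1 al (3 * Real.exp p.X0) R0 ep k (L1 + (2 * lam + 3)) (p.X0 + (L1 + (2 * lam + 3))) +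
      1024 * eta) < y / 2) {E : ℕ → Om W X β → Prop}
    (hE : ∀ q w, E q w → afX tb (v := v) hd1 hd11 hkb hd0 hd01 hk0 hp1 hz0 b q w) :
    ∑ q ∈ range (5 * T), tb.Ps.Pr (fun w => E q w ∧ y < tb.Ps.ce (sgt D {b} (TP.nn (q + 1)))
        (fun u => ind (AX tb (v := v) hd1 hd11 hkb hd0 hd01 hk0 hp1 hz0 b B q u)) w) ≤
      Real.exp (-L1) * ∑ q ∈ range (5 * T), tb.Ps.Pr (fun w =>
        tauS (MSi tb (v := v) d1 kb d0 k0 p1 z hd1 hd11 hkb hd0 hd01 hk0 hp1 hz0) b (q + 1) w = q + 1) +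
        800 * Real.exp (-lam) * (n * N1 * Lam) + 2 / y * tb.Ps.Pr (fun w => ¬ Alv h v tb p (5 * T) w) := by
  have k1 := exact_all (h := h) tb R.codes hd1 hd11 hkb hd0 hd01 hk0 hp1 hz0 hn hN1 R H hbc hbd hcd hlam hy0 K hB.sn hB.al
    (A := AX tb (v := v) hd1 hd11 hkb hd0 hd01 hk0 hp1 hz0 b B) (C := afX tb (v := v) hd1 hd11 hkb hd0 hd01 hk0 hp1 hz0 b)
    (eta := eta)
    (fun q _ w _ => Iff.rfl) (fun q _ => afX_fac tb hd1 hd11 hkb hd0 hd01 hk0 hp1 hz0 b q)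
    (fun q _ h1 w _ hc => nru_hz tb h1 hc.2.2) (fun q _ h1 w _ hc h3 => nrp_oX h1 hc.2.1 h3)
    (fun q hq w hw _ _ h5 => hT.own q hq.le w hw h5)
    (fun q hq w hw hc h1 h2 => by
      have h3 : 5 * (q / 5) + 1 < q := by
        rcases Nat.lt_or_ge (5 * (q / 5) + 1) q with h4 | h4
        · exact h4
        · exact absurd (nru_hz tb (by omega) hc.2.2) h2
      exact hT.light q hq.le w hw (ltL_of tb h3 h2)) hy
  have k2 : ∑ q ∈ range (5 * T), tb.Ps.Pr (fun w => E q w ∧ y < tb.Ps.ce (sgt D {b} (TP.nn (q + 1)))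
      (fun u => ind (AX tb (v := v) hd1 hd11 hkb hd0 hd01 hk0 hp1 hz0 b B q u)) w) ≤ ∑ q ∈ range (5 * T),
      tb.Ps.Pr (fun w => afX tb (v := v) hd1 hd11 hkb hd0 hd01 hk0 hp1 hz0 b q w ∧ y < tb.Ps.ce (sgt D {b} (TP.nn (q + 1)))
      (fun u => ind (AX tb (v := v) hd1 hd11 hkb hd0 hd01 hk0 hp1 hz0 b B q u)) w) :=
    Finset.sum_le_sum fun q _ => tb.Ps.Pr_mono fun w _ hh => ⟨hE q w hh.1, hh.2⟩
  have k3 : ∑ q ∈ range (5 * T), tb.Ps.Pr (afX tb (v := v) hd1 hd11 hkb hd0 hd01 hk0 hp1 hz0 b q) ≤ ∑ q ∈ range (5 * T),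
      tb.Ps.Pr (fun w => tauS (MSi tb (v := v) d1 kb d0 k0 p1 z hd1 hd11 hkb hd0 hd01 hk0 hp1 hz0) b (q + 1) w = q + 1) :=
    Finset.sum_le_sum fun q _ => tb.Ps.Pr_mono fun w _ hh => hh.1
  have k4 := dead_end tb hd1 hd11 hkb hd0 hd01 hk0 hp1 hz0 hB b
    (C := afX tb (v := v) hd1 hd11 hkb hd0 hd01 hk0 hp1 hz0 b) (fun q w hh => hh.1) (5 * T)
  have k5 := mul_le_mul_of_nonneg_left k3 (Real.exp_pos (-L1)).le
  have k6 := mul_le_mul_of_nonneg_left k4 (show 0 ≤ 2 / y by positivity)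
  linarith

/-- any events of the classes at the states -/
theorem st_all {p : V3.AP} {lam L1 y R0 ep : ℝ} {k : ℕ} (hlam : 3 ≤ lam) (hy0 : 0 < y)
    (K : Cst n al (3 * Real.exp p.X0) R0 ep k (L1 + (2 * lam + 3)))
    {B : ℕ → Om W X β → Prop} (hB : RX h tb v p B) {eta : ℝ}
    (hT : Cm (v := v) h tb hd1 hd11 hkb hd0 hd01 hk0 hp1 hz0 p b B (2 * lam + 3) eta)
    (hy : 4 * (1025 * ELr n N1 al (3 * Real.exp p.X0) R0 ep k (L1 + (2 * lam + 3)) (p.X0 + (L1 + (2 * lam + 3))) +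
      1024 * eta) < y / 2) {C : ℕ → Om W X β → Prop}
    (hC : ∀ q ≤ 5 * T, Fac (XN tb v b q) (C q)) :
    ∑ q ∈ range (5 * T + 1), tb.Ps.Pr (fun w => C q w ∧ y < tb.Ps.ce (sgt D {b} (TP.nn q))
        (fun u => ind (AX tb (v := v) hd1 hd11 hkb hd0 hd01 hk0 hp1 hz0 b B q u)) w) ≤
      Real.exp (-L1) * ∑ q ∈ range (5 * T + 1), tb.Ps.Pr (C q) +
        800 * Real.exp (-lam) * (n * N1 * Lam) + 2 / y * ∑ q ∈ range (5 * T + 1), tb.Ps.Pr (fun w => C q w ∧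
          AX tb (v := v) hd1 hd11 hkb hd0 hd01 hk0 hp1 hz0 b B q w ∧ ¬ Alv h v tb p q w) := by
  exact exact_st (h := h) tb R.codes hd1 hd11 hkb hd0 hd01 hk0 hp1 hz0 hn hN1 R H hbc hbd hcd hlam hy0 K hB.sn hB.al
    (A := AX tb (v := v) hd1 hd11 hkb hd0 hd01 hk0 hp1 hz0 b B) (C := C)
    (eta := eta)
    (fun q _ w _ => Iff.rfl) hC
    (fun q hq w hw _ _ h5 => hT.own q hq w hw h5)
    (fun q hq w hw hc h1 h2 => hT.light q hq w hw (ltL_of tb h1 h2)) hy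

/-- **THE NEW LIVES OF THE EXACT VERTEX** (rows `RD v`, starts): no dead part -/
theorem st_new {p : V3.AP} {lam L1 y R0 ep : ℝ} {k : ℕ} (hlam : 3 ≤ lam) (hy0 : 0 < y)
    (K : Cst n al (3 * Real.exp p.X0) R0 ep k (L1 + (2 * lam + 3)))
    {B : ℕ → Om W X β → Prop} (hB : RX h tb v p B) {eta : ℝ}
    (hT : Cm (v := v) h tb hd1 hd11 hkb hd0 hd01 hk0 hp1 hz0 p b B (2 * lam + 3) eta)
    (hy : 4 * (1025 * ELr n N1 al (3 * Real.exp p.X0) R0 ep k (L1 + (2 * lam + 3)) (p.X0 + (L1 + (2 * lam + 3))) +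
      1024 * eta) < y / 2) {E : ℕ → Om W X β → Prop}
    (hE : ∀ q w, E q w → tauS (MSi tb (v := v) d1 kb d0 k0 p1 z hd1 hd11 hkb hd0 hd01 hk0 hp1 hz0) b q w = q) :
    ∑ q ∈ range (5 * T + 1), tb.Ps.Pr (fun w => E q w ∧ y < tb.Ps.ce (sgt D {b} (TP.nn q))
        (fun u => ind (AX tb (v := v) hd1 hd11 hkb hd0 hd01 hk0 hp1 hz0 b B q u)) w) ≤
      Real.exp (-L1) * ∑ q ∈ range (5 * T + 1), tb.Ps.Pr (fun w =>
        tauS (MSi tb (v := v) d1 kb d0 k0 p1 z hd1 hd11 hkb hd0 hd01 hk0 hp1 hz0) b q w = q) +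
        800 * Real.exp (-lam) * (n * N1 * Lam) := by
  set C : ℕ → Om W X β → Prop := fun q w =>
    tauS (MSi tb (v := v) d1 kb d0 k0 p1 z hd1 hd11 hkb hd0 hd01 hk0 hp1 hz0) b q w = q with hCd
  have k1 := st_all tb hd1 hd11 hkb hd0 hd01 hk0 hp1 hz0 hn hN1 R H hbc hbd hcd hlam hy0 K hB hT hy
    (C := C) (fun q _ u w hh => by
      have := tauS_fac (M := MSi tb (v := v) d1 kb d0 k0 p1 z hd1 hd11 hkb hd0 hd01 hk0 hp1 hz0) b q u w hh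
      show (_ = _) = (_ = _)
      rw [this])
  have k2 : ∑ q ∈ range (5 * T + 1), tb.Ps.Pr (fun w => E q w ∧ y < tb.Ps.ce (sgt D {b} (TP.nn q))
      (fun u => ind (AX tb (v := v) hd1 hd11 hkb hd0 hd01 hk0 hp1 hz0 b B q u)) w) ≤ ∑ q ∈ range (5 * T + 1),
      tb.Ps.Pr (fun w => C q w ∧ y < tb.Ps.ce (sgt D {b} (TP.nn q))
      (fun u => ind (AX tb (v := v) hd1 hd11 hkb hd0 hd01 hk0 hp1 hz0 b B q u)) w) :=
    Finset.sum_le_sum fun q _ => tb.Ps.Pr_mono fun w _ hh => ⟨hE q w hh.1, hh.2⟩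
  have k3 : ∑ q ∈ range (5 * T + 1), tb.Ps.Pr (fun w => C q w ∧
      AX tb (v := v) hd1 hd11 hkb hd0 hd01 hk0 hp1 hz0 b B q w ∧ ¬ Alv h v tb p q w) = 0 := by
    refine Finset.sum_eq_zero fun q _ => ?_
    unfold FP.Pr
    rw [tb.Ps.E_congr (g := fun _ => 0) fun w _ => ind_not fun hh => ?_, tb.Ps.E_const]
    refine hh.2.2 fun r hr' => hB.al _ _ hh.2.1 r (hr'.trans ?_)
    have h8 := KDT.le_eT tb (v := v) (tauS (MSi tb (v := v) d1 kb d0 k0 p1 z hd1 hd11 hkb hd0 hd01 hk0 hp1 hz0) b q w) w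
    have h9 : tauS (MSi tb (v := v) d1 kb d0 k0 p1 z hd1 hd11 hkb hd0 hd01 hk0 hp1 hz0) b q w = q := hh.1
    omega
  rw [k3, mul_zero, add_zero] at k1
  exact k2.trans k1

/-- **THE FINAL TIME** (row `FV v`) -/
theorem st_fin {p : V3.AP} {lam L1 y R0 ep : ℝ} {k : ℕ} (hlam : 3 ≤ lam) (hy0 : 0 < y)
    (K : Cst n al (3 * Real.exp p.X0) R0 ep k (L1 + (2 * lam + 3)))
    {B : ℕ → Om W X β → Prop} (hB : RX h tb v p B) {eta : ℝ}
    (hT : Cm (v := v) h tb hd1 hd11 hkb hd0 hd01 hk0 hp1 hz0 p b B (2 * lam + 3) eta)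
    (hy : 4 * (1025 * ELr n N1 al (3 * Real.exp p.X0) R0 ep k (L1 + (2 * lam + 3)) (p.X0 + (L1 + (2 * lam + 3))) +
      1024 * eta) < y / 2) :
    tb.Ps.Pr (fun w => y < tb.Ps.ce (sgt D {b} (TP.nn (5 * T)))
        (fun u => ind (AX tb (v := v) hd1 hd11 hkb hd0 hd01 hk0 hp1 hz0 b B (5 * T) u)) w) ≤
      Real.exp (-L1) + 800 * Real.exp (-lam) * (n * N1 * Lam) + 2 / y * tb.Ps.Pr (fun w => ¬ Alv h v tb p (5 * T) w) := by
  classical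
  have k1 := st_all tb hd1 hd11 hkb hd0 hd01 hk0 hp1 hz0 hn hN1 R H hbc hbd hcd hlam hy0 K hB hT hy
    (C := fun q _ => q = 5 * T) (fun _ _ _ _ _ => rfl)
  have z1 : ∀ q ∈ range (5 * T), ∀ F : Om W X β → Prop, tb.Ps.Pr (fun w => q = 5 * T ∧ F w) = 0 := fun q hq F => by
    unfold FP.Pr
    rw [tb.Ps.E_congr (g := fun _ => 0) fun w _ => ind_not fun hh => by
      have := mem_range.1 hq
      omega, tb.Ps.E_const]
  have z2 : ∀ q ∈ range (5 * T), tb.Ps.Pr (fun _ : Om W X β => q = 5 * T) = 0 := fun q hq => by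
    unfold FP.Pr
    rw [tb.Ps.E_congr (g := fun _ => 0) fun w _ => ind_not fun hh => by
      have := mem_range.1 hq
      omega, tb.Ps.E_const]
  rw [Finset.sum_range_succ, Finset.sum_eq_zero fun q hq => z1 q hq _, Finset.sum_range_succ, Finset.sum_eq_zero z2,
    Finset.sum_range_succ, Finset.sum_eq_zero fun q hq => z1 q hq _, zero_add, zero_add, zero_add] at k1
  have k2 : tb.Ps.Pr (fun w => y < tb.Ps.ce (sgt D {b} (TP.nn (5 * T)))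
      (fun u => ind (AX tb (v := v) hd1 hd11 hkb hd0 hd01 hk0 hp1 hz0 b B (5 * T) u)) w) ≤ tb.Ps.Pr (fun w => 5 * T = 5 * T ∧
      y < tb.Ps.ce (sgt D {b} (TP.nn (5 * T)))
      (fun u => ind (AX tb (v := v) hd1 hd11 hkb hd0 hd01 hk0 hp1 hz0 b B (5 * T) u)) w) := tb.Ps.Pr_mono fun w _ hh => ⟨rfl, hh⟩
  have k3 : tb.Ps.Pr (fun w => 5 * T = 5 * T ∧
      AX tb (v := v) hd1 hd11 hkb hd0 hd01 hk0 hp1 hz0 b B (5 * T) w ∧ ¬ Alv h v tb p (5 * T) w) ≤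
      tb.Ps.Pr (fun w => ¬ Alv h v tb p (5 * T) w) := tb.Ps.Pr_mono fun w _ hh => hh.2.2
  have k4 : tb.Ps.Pr (fun _ : Om W X β => 5 * T = 5 * T) ≤ 1 := tb.Ps.Pr_le_one _
  have k5 := mul_le_mul_of_nonneg_left k3 (show 0 ≤ 2 / y by positivity)
  have k6 := mul_le_mul_of_nonneg_left k4 (Real.exp_pos (-L1)).le
  rw [mul_one] at k6
  exact k2.trans (k1.trans (add_le_add (add_le_add k6 le_rfl) k5))

end cl4

end clk

end

end Pool.Agent.GMH.RarC
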