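import Pool.Agent.GMH.TriS

/-!
# GMH.TriT: law transfer of a deviation at a step, arbitrary event (helper80; H3.REL R.5)

* `ce_same` : the conditional mean over two maps with the same fibres;
* `trans` : the deviation of the tops of the time `t` inside any event, law of the time `t`, from the deviation of the plain
  labels and the final thin labels, law of the time `t + 1`, conditioned on the thin labels of the step;
* `trans1` : at the joint step (`s = 1`) the final thin labels themselves: conditioned on `ZQ D v (5 * t + 5)`.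
-/

set_option autoImplicit false
set_option linter.unusedSectionVars false

namespace Pool.Agent.GMH.TP

open Finset Pool.Agent.PWZ Pool.Agent.M3 Pool.Agent.GM Pool.Agent.GM.Harm Pool.Agent.GMH Pool.Agent.GMH.NZ
open Pool.Agent.GMH.V3

noncomputable section

namespace TriT

theorem ce_same {Om ι ι' : Type*} [Fintype Om] (P : FP Om) {X : Om → ι} {Y : Om → ι'} (h1 : Fac X Y) (h2 : Fac Y X)
    (f : Om → ℝ) (w : Om) : P.ce X f w = P.ce Y f w := by
  have e : ∀ u, (X u = X w) = (Y u = Y w) := fun u => propext ⟨fun hh => h1 u w hh, fun hh => h2 u w hh⟩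
  unfold FP.ce FP.m
  simp only [e]

section run

variable {X β γ φ : Type} [Fintype X] [Fintype β] [Fintype φ] [Nonempty X] [Nonempty β]
variable {D : HD (Fin 3) X β γ φ} {al : ℝ} {h : D.Thick al} {v : ℕ → Finset (Fin 3) → X → (Fin 3 → β) → Pt (Fin 3) X β φ}
variable {dg : ℕ → X → ℝ} {prr : ℕ → Fin 3 → φ → φ} {T : ℕ} {Lam : ℝ}

/-- events of the hidden point, the points and the thin labels do not see the change of the labels -/
theorem old_xy {E : Pt (Fin 3) X β φ → Prop} (hE : XY E) (t : ℕ) (w : Pt (Fin 3) X β φ) : E (old prr t w) ↔ E w :=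
  iff_of_eq (hE w.1 w.2.1 (fun i => prr t i (w.2.2 i)) w.2.2)

/-- **LAW TRANSFER** -/
theorem trans (H : D.Hyp dg prr al T Lam) {N : Finset (Fin 3) → ℝ} (R : Run h N (SS1 (Fin 3)) (AdmDep D) v)
    (hN : ∀ l : Fin 3, 0 < N (univ.erase l)) {t : ℕ} (ht : t < T) (s : Fin 6) {A E : Pt (Fin 3) X β φ → Prop}
    (hA : Fac (VZ (φ := φ) D v s t) A) (hE : XY E) {d : ℝ}
    (K : ∀ g : Pt (Fin 3) X β φ → ℝ, Fac (fun w => (w.2.2, ZQ D v (5 * t + 5) w)) g → (∀ w, |g w| ≤ 1) →
      |(D.P h (t + 1)).E (fun w => ind (A w ∧ E w) * (g w - (D.P h (t + 1)).ce (VZ D v s t) g w))| ≤ d)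
    (g : Pt (Fin 3) X β φ → ℝ) (hg : Fac (fun w => (tup (FQ v t) w, VZ D v s t w)) g) (hb : ∀ w, |g w| ≤ 1) :
    |(D.P h t).E (fun w => ind (A w ∧ E w) * (g w - (D.P h t).ce (VZ D v s t) g w))| ≤ d := by
  obtain ⟨g', h1, h2, h3⟩ := TriS.dev_push H R hN ht s hA (old_xy hE t) hg hb
  rw [h3]
  exact K g' h1 h2

theorem VZ1_a (t : ℕ) : Fac (VZ (φ := φ) D v 1 t) (ZQ D v (5 * t + 5)) := by
  intro a b hab
  exact congrArg Prod.fst hab

/-- **LAW TRANSFER AT THE JOINT STEP**, conditioned on the final thin labels -/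
theorem trans1 (H : D.Hyp dg prr al T Lam) {N : Finset (Fin 3) → ℝ} (R : Run h N (SS1 (Fin 3)) (AdmDep D) v)
    (hN : ∀ l : Fin 3, 0 < N (univ.erase l)) {t : ℕ} (ht : t < T) {A E : Pt (Fin 3) X β φ → Prop}
    (hA : Fac (VZ (φ := φ) D v 1 t) A) (hE : XY E) {d : ℝ}
    (K : ∀ g : Pt (Fin 3) X β φ → ℝ, Fac (fun w => (w.2.2, ZQ D v (5 * t + 5) w)) g → (∀ w, |g w| ≤ 1) →
      |(D.P h (t + 1)).E (fun w => ind (A w ∧ E w) * (g w - (D.P h (t + 1)).ce (ZQ D v (5 * t + 5)) g w))| ≤ d)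
    (g : Pt (Fin 3) X β φ → ℝ) (hg : Fac (fun w => (tup (FQ v t) w, VZ D v 1 t w)) g) (hb : ∀ w, |g w| ≤ 1) :
    |(D.P h t).E (fun w => ind (A w ∧ E w) * (g w - (D.P h t).ce (VZ D v 1 t) g w))| ≤ d := by
  refine trans H R hN ht 1 hA hE (fun g' h1 h2 => ?_) g hg hb
  have e : ∀ w, (D.P h (t + 1)).ce (VZ D v 1 t) g' w = (D.P h (t + 1)).ce (ZQ D v (5 * t + 5)) g' w := fun w =>
    ce_same _ (VZ1_a t) (TriS.VZ_final 1 t) g' w
  simp only [e]
  exact K g' h1 h2

end run

end TriT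

end

end Pool.Agent.GMH.TP
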