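import Pool.Agent.GMH.OvlC
import Pool.Agent.GMH.GM3
import Pool.Agent.GMH.CtxD
import Pool.Agent.GMH.CtxK
import Pool.Agent.GMH.UnmAB
import Pool.Agent.GMH.RelN
import Pool.Agent.GMH.RarC6
import Pool.Agent.GMH.TriT

/-!
# GMH/OvlF (helper33): THE OVERLAP OF THE JOINT PRIVATE STEP, CLOSED (row A6)

* `cev_al` : the tuples in the relation `R` of a decided life with the class event `C` before the end: `y` per decision, the rare
  states at which the density of the ALIVE relation is above `y / 2`, the dead part once per path (`2 / y` times);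
* `ovl_al` : the overlap on the table space for any instance `M` of `US`;
* `ovl_pair` : over `Ctx`, one pair of vertices; **`ovl_F`** : the last term of `relFull` for the bits `btAB` of the run.
-/

set_option autoImplicit false
set_option linter.unusedSectionVars false

namespace Pool.Agent.GMH.OvlF

open Finset Pool.Agent.PWZ Pool.Agent.M3 Pool.Agent.GM Pool.Agent.GM.Harm Pool.Agent.GMH Pool.Agent.GMH.NZ
open Pool.Agent.GMH.V3 Pool.Agent.GMH.MV8R Pool.Agent.GMH.OvlR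
open Pool.Agent.GMH.TP Pool.Agent.GMH.TD Pool.Agent.GMH.Dy Pool.Agent.GMH.CK Pool.Agent.GMH.MVI
open Pool.Agent.GMH.UV (US Kd Seen tv bet NT fce fce_S fce_cnt fce_one fce_ex)

noncomputable section

section abs

variable {Om : Type} [Fintype Om] {M : US Om} {Q : Kd Om}

/-- Markov for a conditional probability, inside an event which is seen -/
theorem mkv {P : FP Om} {κ : Type*} {Z : Om → κ} {f : Om → Prop} (hf : ∀ x w, Z x = Z w → (f x ↔ f w)) (A : Om → Prop)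
    {y : ℝ} (y0 : 0 < y) :
    P.Pr (fun w => f w ∧ y / 2 ≤ P.ce Z (fun u => ind (A u)) w) ≤ 2 / y * P.Pr (fun w => f w ∧ A w) := by
  have e1 : P.Pr (fun w => f w ∧ A w) = P.E (fun w => ind (f w) * P.ce Z (fun u => ind (A u)) w) := by
    rw [P.E_mul_ce (Fac.ind fun x w e => hf x w e)]
    exact P.E_congr fun w _ => ind_and _ _
  rw [e1]
  unfold FP.Pr
  rw [← FP.E_smul]
  refine P.E_mono fun w _ => ?_
  have c0 : 0 ≤ P.ce Z (fun u => ind (A u)) w := P.ce_nonneg (fun _ _ => ind_nonneg _) w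
  by_cases h : f w ∧ y / 2 ≤ P.ce Z (fun u => ind (A u)) w
  · rw [ind_of h, ind_of h.1, one_mul]
    have h1 := mul_le_mul_of_nonneg_left h.2 (show 0 ≤ 2 / y by positivity)
    have h2 : 2 / y * (y / 2) = 1 := by field_simp
    linarith
  · rw [ind_not h]
    exact mul_nonneg (by positivity) (mul_nonneg (ind_nonneg _) c0)

/-- a decreasing event -/
theorem al_anti {Al : ℕ → Om → Prop} (hAl : ∀ w, ∀ q, Al (q + 1) w → Al q w) {w : Om} {q q' : ℕ} (hq : q ≤ q')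
    (h : Al q' w) : Al q w := by
  induction q', hq using Nat.le_induction with
  | base => exact h
  | succ k _ ih => exact ih (hAl w k h)

/-- at most one `r` per point -/
theorem once_le {P : FP Om} {F : ℕ → Om → Prop} {G : Om → Prop} (T : ℕ)
    (h1 : ∀ w, P.p w ≠ 0 → ∀ r < T, ∀ r' < T, F r w → F r' w → r = r') (h2 : ∀ w, P.p w ≠ 0 → ∀ r < T, F r w → G w) :
    ∑ r ∈ range T, P.Pr (F r) ≤ P.Pr G := by
  classical
  unfold FP.Pr
  rw [← P.E_sum]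
  refine P.E_mono fun w hw => ?_
  by_cases hex : ∃ r ∈ range T, F r w
  · obtain ⟨r, hr, h4⟩ := hex
    rw [← Finset.add_sum_erase _ _ hr, Finset.sum_eq_zero, add_zero]
    · exact ind_mono fun _ => h2 w hw r (mem_range.1 hr) h4
    · intro r' hr'
      have h6 := Finset.mem_erase.1 hr'
      exact ind_not fun h5 => h6.1 (h1 w hw r' (mem_range.1 h6.2) r (mem_range.1 hr) h5 h4)
  · rw [Finset.sum_eq_zero fun r hr => ind_not fun h5 => hex ⟨r, hr, h5⟩]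
    exact ind_nonneg _

/-- **A CLASS EVENT INSIDE THE DECIDED LIVES**, alive and dead part -/
theorem cev_al (H : Seen M) {v : Fin 3} {C : ℕ → Om → Prop}
    (hC : ∀ s s', s ≤ s' → ∀ x w, M.S {v} s' x = M.S {v} s' w → (C s x ↔ C s w)) {R : ℕ → Om → Prop} {O : ℕ → Om → Prop}
    (hO : ∀ w, M.P.p w ≠ 0 → ∀ q, O q w → tv M v (q + 1) w = q + 1 ∧ bet M Q v q w ∧ R (tv M v q w) w)
    {Al : ℕ → Om → Prop} (hAl : ∀ w, ∀ q, Al (q + 1) w → Al q w) {e : ℕ → Om → ℕ} (he : ∀ w t, t ≤ e t w)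
    (hRA : ∀ w, M.P.p w ≠ 0 → ∀ q, R (tv M v q w) w → Al (e (tv M v q w) w) w) {y : ℝ} (hy : 0 < y) (T : ℕ) :
    ∑ q ∈ range T, M.P.Pr (fun w => O q w ∧ C q w) ≤ y * NT M Q v T +
      ∑ r ∈ range T, M.P.Pr (fun w => C r w ∧
        y / 2 < M.P.ce (M.S {v} r) (fun u => ind (R (tv M v r u) u ∧ Al r u)) w) +
      2 / y * M.P.Pr (fun w => ¬ Al T w) := by
  classical
  have h1 : ∑ q ∈ range T, M.P.Pr (fun w => O q w ∧ C q w) ≤
      ∑ r ∈ range T, M.P.Pr (fun w => fce M Q v C r w ∧ R (tv M v r w) w) := by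
    refine UV.Pr_inj (l := tv M v) (fun w hw q hq h => ?_) (fun w hw q _ q' _ h h' e => ?_)
    · obtain ⟨_, b, c⟩ := hO w hw q h.1
      obtain ⟨r, a1, a2, a3⟩ := fce_ex b h.2
      exact ⟨r, lt_of_le_of_lt a1 hq, ⟨a2, by rw [a3]; exact c⟩, a3⟩
    · exact UV.end_one (C := M.Cv v) (hO w hw q h.1).1 (hO w hw q' h'.1).1 e
  have h2 : ∀ r ∈ range T, M.P.Pr (fun w => fce M Q v C r w ∧ R (tv M v r w) w) ≤
      y * M.P.Pr (fce M Q v C r) + (M.P.Pr (fun w => C r w ∧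
        y / 2 < M.P.ce (M.S {v} r) (fun u => ind (R (tv M v r u) u ∧ Al r u)) w) +
        2 / y * M.P.Pr (fun w => fce M Q v C r w ∧ R (tv M v r w) w ∧ ¬ Al r w)) := fun r _ => by
    have hF : ∀ x w, M.S {v} r x = M.S {v} r w → (fce M Q v C r x ↔ fce M Q v C r w) := fun x w e => fce_S H v hC r e
    refine (UV.dens_le (Z := M.S {v} r) hF _ hy.le).trans (add_le_add le_rfl ?_)
    have e1 : ∀ w, M.P.ce (M.S {v} r) (fun u => ind (R (tv M v r u) u)) w =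
        M.P.ce (M.S {v} r) (fun u => ind (R (tv M v r u) u ∧ Al r u)) w +
          M.P.ce (M.S {v} r) (fun u => ind (R (tv M v r u) u ∧ ¬ Al r u)) w := fun w => by
      rw [← M.P.ce_add]
      refine M.P.ce_congr (fun u _ => ?_) w
      by_cases h5 : Al r u
      · rw [ind_not (fun hh : R (tv M v r u) u ∧ ¬ Al r u => hh.2 h5), add_zero]
        congr 1
        exact propext ⟨fun hh => ⟨hh, h5⟩, fun hh => hh.1⟩
      · rw [ind_not (fun hh : R (tv M v r u) u ∧ Al r u => h5 hh.2), zero_add]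
        congr 1
        exact propext ⟨fun hh => ⟨hh, h5⟩, fun hh => hh.1⟩
    have h3 : M.P.Pr (fun w => fce M Q v C r w ∧ y < M.P.ce (M.S {v} r) (fun u => ind (R (tv M v r u) u)) w) ≤
        M.P.Pr (fun w => C r w ∧ y / 2 < M.P.ce (M.S {v} r) (fun u => ind (R (tv M v r u) u ∧ Al r u)) w) +
        M.P.Pr (fun w => fce M Q v C r w ∧ y / 2 ≤ M.P.ce (M.S {v} r) (fun u => ind (R (tv M v r u) u ∧ ¬ Al r u)) w) := by
      refine (M.P.Pr_mono fun w _ hh => ?_).trans (M.P.Pr_or_le _ _)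
      rcases lt_or_ge (y / 2) (M.P.ce (M.S {v} r) (fun u => ind (R (tv M v r u) u ∧ Al r u)) w) with h6 | h6
      · exact Or.inl ⟨hh.1.1.2, h6⟩
      · refine Or.inr ⟨hh.1, ?_⟩
        have := hh.2
        rw [e1] at this
        linarith
    have h4 : M.P.Pr (fun w => fce M Q v C r w ∧ y / 2 ≤ M.P.ce (M.S {v} r) (fun u => ind (R (tv M v r u) u ∧ ¬ Al r u)) w) ≤
        2 / y * M.P.Pr (fun w => fce M Q v C r w ∧ R (tv M v r w) w ∧ ¬ Al r w) :=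
      mkv hF (fun u => R (tv M v r u) u ∧ ¬ Al r u) hy
    exact h3.trans (add_le_add le_rfl h4)
  have h5 : ∑ r ∈ range T, M.P.Pr (fun w => fce M Q v C r w ∧ R (tv M v r w) w ∧ ¬ Al r w) ≤ M.P.Pr (fun w => ¬ Al T w) := by
    refine once_le T (fun w hw r hr r' hr' h h' => ?_) fun w hw r hr h hT => h.2.2 (al_anti hAl hr.le hT)
    -- a later life starts after the death
    have key : ∀ r r', r < r' → (fce M Q v C r w ∧ R (tv M v r w) w ∧ ¬ Al r w) →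
        (fce M Q v C r' w ∧ R (tv M v r' w) w ∧ ¬ Al r' w) → tv M v r w = tv M v r' w := by
      intro r r' hlt h h'
      have h8 := hRA w hw r' h'.2.1
      by_cases h9 : r < tv M v r' w
      · exact absurd (al_anti hAl (h9.le.trans (he w _)) h8) h.2.2
      · exact stg_mid rfl (not_lt.1 h9) hlt.le
    rcases lt_trichotomy r r' with h7 | h7 | h7
    · exact fce_one h.1 h'.1 (key r r' h7 h h')
    · exact h7
    · exact (fce_one h'.1 h.1 (key r' r h7 h' h)).symm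
  refine h1.trans ((Finset.sum_le_sum h2).trans ?_)
  rw [Finset.sum_add_distrib, Finset.sum_add_distrib, ← Finset.mul_sum, ← Finset.mul_sum]
  have h3 := mul_le_mul_of_nonneg_left (fce_cnt (M := M) (Q := Q) v C T) hy.le
  have h6 := mul_le_mul_of_nonneg_left h5 (show 0 ≤ 2 / y by positivity)
  linarith

end abs

section run

variable {X β γ φ : Type} [Fintype X] [Fintype β] [Fintype φ] [Nonempty X] [Nonempty β]
variable {D : HD (Fin 3) X β γ φ} {al : ℝ} {h : D.Thick al}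
  {v : ℕ → Finset (Fin 3) → X → (Fin 3 → β) → Pt (Fin 3) X β φ}
  {prr : ℕ → Fin 3 → φ → φ} {T : ℕ} {W : Type} [Fintype W]

/-- **THE OVERLAP OF THE JOINT PRIVATE STEP**, alive part of the rare states, dead part once -/
theorem ovl_al {dg : ℕ → X → ℝ} {Lam n N1 : ℝ} (hn : 1 ≤ n) (hN1 : 1 ≤ N1)
    (R : Run h (pr3 (Fin 3) n N1) (SS1 (Fin 3)) (AdmDep D) v) (H : D.Hyp dg prr al T Lam) (tb : Tab D prr T W)
    {M : US (Om W X β)} {Q : Kd (Om W X β)} (hP : M.P = tb.Ps) (HM : Seen M)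
    (hNP : ∀ s, Fac (M.S ∅ s) (NPo tb v s)) {i j : Fin 3} (hij : i ≠ j) {L a kx : ℝ} (hL : 0 ≤ L) (hkx : 0 ≤ kx)
    {Rl : ℕ → Om W X β → Prop} {O : ℕ → Om W X β → Prop}
    (hO : ∀ w, tb.Ps.p w ≠ 0 → ∀ q, O q w → tv M j (q + 1) w = q + 1 ∧ bet M Q j q w ∧ Rl (tv M j q w) w)
    (hO2 : ∀ w, tb.Ps.p w ≠ 0 → ∀ q < 5 * T, O q w → lp4 tb v i q w ∧ lp4 tb v j q w ∧ hv4 tb v q w ∧
      alq h v tb (q / 5) (q + 1) L i w ∧ alq h v tb (q / 5) (q + 1) L j w) {p : AP} {e : ℕ → Om W X β → ℕ}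
    (he : ∀ w t, t ≤ e t w)
    (hRA : ∀ w, tb.Ps.p w ≠ 0 → ∀ q, Rl (tv M j q w) w → Alv h v tb p (e (tv M j q w) w) w) {y : ℝ} (hy : 0 < y) :
    ∑ q ∈ range (5 * T), tb.Ps.Pr (O q) ≤ y * NT M Q j (5 * T) +
      ∑ r ∈ range (5 * T), tb.Ps.Pr (fun w => Cov tb v kx i r w ∧
        y / 2 < tb.Ps.ce (M.S {j} r) (fun u => ind (Rl (tv M j r u) u ∧ Alv h v tb p r u)) w) +
      2 / y * tb.Ps.Pr (fun w => ¬ Alv h v tb p (5 * T) w) +
      (kx + 3 * (Real.sqrt (4 * (a + 1) / N1) + 2 * Real.exp (-a) * Real.exp (2 * L))) * (6 * n * Lam) := by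
  have hC : ∀ s s', s ≤ s' → ∀ x w, M.S {j} s' x = M.S {j} s' w → (Cov tb v kx i s x ↔ Cov tb v kx i s w) :=
    fun s s' hs x w e => Cov_fac tb kx i hs (hNP s' x w (M.mS ∅ {j} s' (Finset.empty_subset _) x w e))
  have h1 := cev_al (M := M) (Q := Q) HM (v := j) (C := Cov tb v kx i) hC (R := Rl) (O := O)
    (fun w hw q h => hO w (by rw [← hP]; exact hw) q h) (Al := Alv h v tb p)
    (fun w q ha => Alv_anti h v tb (Nat.le_succ q) ha) he (fun w hw q hh => hRA w (by rw [← hP]; exact hw) q hh) hy (5 * T)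
  rw [hP] at h1
  have h2 := ovl_off (h := h) hn hN1 R H tb hij (L := L) (a := a) (kx := kx) hL hkx
  have h3 : ∑ q ∈ range (5 * T), tb.Ps.Pr (O q) ≤ ∑ q ∈ range (5 * T), tb.Ps.Pr (fun w => O q w ∧ Cov tb v kx i q w) +
      ∑ q ∈ range (5 * T), tb.Ps.Pr (fun w => (lp4 tb v i q w ∧ lp4 tb v j q w ∧ hv4 tb v q w ∧
      alq h v tb (q / 5) (q + 1) L i w ∧ alq h v tb (q / 5) (q + 1) L j w) ∧ ¬ Cov tb v kx i q w) := by
    rw [← Finset.sum_add_distrib]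
    refine Finset.sum_le_sum fun q hq => (tb.Ps.Pr_mono fun w hw hh => ?_).trans (tb.Ps.Pr_or_le _ _)
    by_cases h5 : Cov tb v kx i q w
    · exact Or.inl ⟨hh, h5⟩
    · exact Or.inr ⟨hO2 w hw q (mem_range.1 hq) hh, h5⟩
  linarith

end run

/-! ### over `Ctx` -/

section ctx

open Pool.Agent.GMH.CX Pool.Agent.GMH.CTM Pool.Agent.GMH.AB Pool.Agent.GMH.TRF Pool.Agent.GMH.KF
open Pool.Agent.GMH.MV (tauS)
open Pool.Agent.GMH.CT (ix ix_pos t_sq)

/-- the numbers: `y = x^(-sq)` of any round, the dead points -/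
theorem ovl_dn (A s K : ℕ) : CT.Ev (fun c0 Lam => (2 / ix Lam s + 1) * (pw Lam (c0 + A))⁻¹ ≤ ix Lam K) := by
  refine (CT.Ev.ge (s + K + 3)).mono fun c0 Lam hL hc => ?_
  have h1 : (pw Lam (c0 + A))⁻¹ ≤ ix Lam (s + K + 3) := CT.ix_anti hL (by omega)
  have h2 : 2 / ix Lam s + 1 ≤ pw Lam (s + 1) := by
    have e : 2 / ix Lam s = 2 * pw Lam s := by rw [div_eq_mul_inv, CT.inv_ix hL]
    have e2 : pw Lam (s + 1) = pw Lam s * pw Lam 1 := CT.pw_add _ _ _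
    have e3 : (4 : ℝ) ^ 1 ≤ pw Lam 1 := CT.pw_ge hL 1
    have e4 := CT.pw_ge1 hL s
    rw [e, e2]
    norm_num at e3
    nlinarith
  have h3 : 0 ≤ 2 / ix Lam s + 1 := by
    have := CT.ix_pos hL s
    positivity
  refine (mul_le_mul_of_nonneg_left h1 h3).trans ?_
  exact CT.fin hL h2 (by omega)

/-- **THE OVERLAP OF ONE PAIR OF VERTICES** over `Ctx`, any instance `M` whose lives of `j` end at the removals and contain the ends of
`tauS`; `Rr` : the relation of the lives of the run, `y` any threshold -/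
theorem ovl_pair {A : ℕ} (hA : 80 ≤ A) (ka K : ℕ) : AllC A (fun C => ∀ (M : US C.O) (Q : Kd C.O), M.P = C.tb.Ps → Seen M →
    (∀ E s x w, M.S E s x = M.S E s w ↔ sgt C.D E (TP.nn s) x = sgt C.D E (TP.nn s) w) → ∀ i j : Fin 3, i ≠ j →
    (∀ q w, C.tb.Ps.p w ≠ 0 → tauS (C.U ka).toMS j (tv M j q w) w = tauS (C.U ka).toMS j q w) →
    ∀ (Rr O : ℕ → C.O → Prop),
    (∀ w, C.tb.Ps.p w ≠ 0 → ∀ q, O q w → tv M j (q + 1) w = q + 1 ∧ bet M Q j q w ∧ Rr (tauS (C.U ka).toMS j q w) w) →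
    (∀ w, C.tb.Ps.p w ≠ 0 → ∀ q, O q w → rpO C.tb C.v i q w ∧ rpO C.tb C.v j q w ∧
      Ar C.h C.v C.p (2 * (q / 5) + 1) (C.tb.pt (q / 5) w)) → ∀ y : ℝ, 0 < y →
    ∑ q ∈ range (5 * C.T), C.tb.Ps.Pr (O q) ≤ y * NT M Q j (5 * C.T) +
      ∑ r ∈ range (5 * C.T), C.tb.Ps.Pr (fun w => Cov C.tb C.v (kxo K C.Lam C.c0) i r w ∧
        y / 2 < C.tb.Ps.ce (sgt C.D {j} (TP.nn r)) (fun u => ind (Rr (tauS (C.U ka).toMS j r u) u ∧
          Alv C.h C.v C.tb C.p r u)) w) + (2 / y + 1) * (pw C.Lam (C.c0 + C.A))⁻¹ + (pw C.Lam K)⁻¹) := by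
  refine ((AllC.of_Ev (ovl_num hA K)).and (AllC.all (P := fun C => C.A = A) fun C hC => hC)).mono
    fun C ⟨hC, hCA⟩ M Q hP HM hS i j hij hcl Rr O hO hO2 y hy => ?_
  have hL := C.hL
  -- alive at the end of the level
  set O' : ℕ → C.O → Prop := fun q w => O q w ∧ Alv C.h C.v C.tb C.p (5 * (q / 5) + 5) w with hO'
  set L : ℝ := max C.p.X0 C.p.X1 with hLd
  have eX0 : C.p.X0 = pw C.Lam (cXF C.A C.c0) := rfl
  have eX1 : C.p.X1 = 3 * pw C.Lam (cXF C.A C.c0) := rfl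
  have l0 : 0 ≤ L := le_trans (by rw [eX0]; exact (CT.pw_pos hL _).le) (le_max_left _ _)
  have l1 : L ≤ pw C.Lam (cXF A C.c0 + 2) := by
    have h1 := CT.pw_pos hL (cXF C.A C.c0)
    have e2 : pw C.Lam (cXF C.A C.c0 + 2) = pw C.Lam (cXF C.A C.c0) * pw C.Lam 2 := CT.pw_add _ _ _
    have e3 : (4 : ℝ) ^ 2 ≤ pw C.Lam 2 := CT.pw_ge hL 2
    rw [← hCA, hLd, eX0, eX1, e2]
    norm_num at e3
    exact max_le (by nlinarith) (by nlinarith)
  have h1 := ovl_al (h := C.h) C.n1 C.N11 C.R C.H C.tb (M := M) (Q := Q) hP HM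
    (fun s a b e => RarN.sgt_NPo C.codes s a b ((hS ∅ s a b).1 e))
    hij (L := L) (a := 2 * L + pw C.Lam C.c0) (kx := kxo K C.Lam C.c0) l0 (kxo_pos hL K C.c0).le
    (Rl := fun τ w => Rr (tauS (C.U ka).toMS j τ w) w ∧ Alv C.h C.v C.tb C.p τ w) (O := O')
    (fun w hw q hh => by
      obtain ⟨a1, a2, a3⟩ := hO w hw q hh.1
      refine ⟨a1, a2, ?_, Alv_anti C.h C.v C.tb ((stg_le q w).trans (by omega)) hh.2⟩
      rw [hcl q w hw]
      exact a3)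
    (fun w hw q hq hh => by
      obtain ⟨b1, b2, b3⟩ := hO2 w hw q hh.1
      have ht : (q + 1) / 5 ≤ C.T := by omega
      have hA1 : Alv C.h C.v C.tb C.p (q + 1) w := Alv_anti C.h C.v C.tb (by omega) hh.2
      have key : ∀ l : Fin 3, alq C.h C.v C.tb (q / 5) (q + 1) L l w := fun l =>
        alq_ss C.tb (j := q % 5 + 1) (by have := b1.1; omega) (by have := b1.1; omega) (by omega) l ht hw
          (((hA1 (q + 1) le_rfl).1 l).trans (le_max_left _ _))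
      exact ⟨⟨b1.1, b1.2.1⟩, ⟨b2.1, b2.2.1⟩, b1.2.2, key i, key j⟩)
    (p := C.p) (e := fun t _ => t) (fun _ _ => le_rfl) (fun w _ q hh => hh.2) hy
  have hN1 : C.N1 = pw C.Lam (c1F A C.c0) := by
    unfold Ctx.N1
    rw [hCA]
  have h2 := hC L l0 l1
  rw [hN1] at h1
  -- the rare states
  have h3 : ∀ r, C.tb.Ps.Pr (fun w => Cov C.tb C.v (kxo K C.Lam C.c0) i r w ∧
      y / 2 < C.tb.Ps.ce (M.S {j} r) (fun u => ind ((Rr (tauS (C.U ka).toMS j (tv M j r u) u) u ∧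
        Alv C.h C.v C.tb C.p (tv M j r u) u) ∧ Alv C.h C.v C.tb C.p r u)) w) ≤
      C.tb.Ps.Pr (fun w => Cov C.tb C.v (kxo K C.Lam C.c0) i r w ∧
        y / 2 < C.tb.Ps.ce (sgt C.D {j} (TP.nn r)) (fun u => ind (Rr (tauS (C.U ka).toMS j r u) u ∧
          Alv C.h C.v C.tb C.p r u)) w) := fun r => by
    refine C.tb.Ps.Pr_mono fun w _ hh => ⟨hh.1, lt_of_lt_of_le hh.2 ?_⟩
    rw [TP.TriT.ce_same C.tb.Ps (X := M.S {j} r) (Y := sgt C.D {j} (TP.nn r)) (fun a b e => (hS {j} r a b).1 e)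
      (fun a b e => (hS {j} r a b).2 e)]
    refine C.tb.Ps.ce_mono (fun u hu => ind_mono fun h9 => ⟨?_, h9.2⟩) w
    have h10 := h9.1.1
    rwa [hcl r u hu] at h10
  have h3' := Finset.sum_le_sum fun r (_ : r ∈ range (5 * C.T)) => h3 r
  -- the dead levels
  have h4 : ∑ q ∈ range (5 * C.T), C.tb.Ps.Pr (O q) ≤ ∑ q ∈ range (5 * C.T), C.tb.Ps.Pr (O' q) +
      C.tb.Ps.Pr (fun w => ¬ Alv C.h C.v C.tb C.p (5 * C.T) w) := by
    have k1 : ∑ q ∈ range (5 * C.T), C.tb.Ps.Pr (O q) ≤ ∑ q ∈ range (5 * C.T), (C.tb.Ps.Pr (O' q) +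
        C.tb.Ps.Pr (fun w => q % 5 = 4 ∧ GM3.Ded C.tb C.h C.v C.p (q / 5) w)) := by
      refine Finset.sum_le_sum fun q hq => (C.tb.Ps.Pr_mono fun w hw hh => ?_).trans (C.tb.Ps.Pr_or_le _ _)
      have ht : q / 5 ≤ C.T := by
        have := mem_range.1 hq
        omega
      obtain ⟨b1, b2, b3⟩ := hO2 w hw q hh
      by_cases hA1 : Alv C.h C.v C.tb C.p (5 * (q / 5) + 5) w
      · exact Or.inl ⟨hh, hA1⟩
      · exact Or.inr ⟨b1.1, GM3.alv_Ar C.tb C.p ht hw b3, hA1⟩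
    rw [Finset.sum_add_distrib] at k1
    refine k1.trans (add_le_add le_rfl (le_trans ?_ (GM3.ded_sum C.tb C.p)))
    rw [sum_five]
    refine Finset.sum_le_sum fun t _ => ?_
    have z : ∀ q, q % 5 ≠ 4 → C.tb.Ps.Pr (fun w => q % 5 = 4 ∧ GM3.Ded C.tb C.h C.v C.p (q / 5) w) = 0 := fun q hq => by
      unfold FP.Pr
      rw [C.tb.Ps.E_congr (g := fun _ => 0) fun w _ => ind_not fun hh => hq hh.1, C.tb.Ps.E_const]
    rw [z (5 * t) (by omega), z (5 * t + 1) (by omega), z (5 * t + 2) (by omega), z (5 * t + 3) (by omega)]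
    have e5 : (5 * t + 4) / 5 = t := by omega
    have h11 : C.tb.Ps.Pr (fun w => (5 * t + 4) % 5 = 4 ∧ GM3.Ded C.tb C.h C.v C.p ((5 * t + 4) / 5) w) ≤
        C.tb.Ps.Pr (GM3.Ded C.tb C.h C.v C.p t) := C.tb.Ps.Pr_mono fun w _ hh => by
      have := hh.2
      rwa [e5] at this
    linarith
  have h5 := C.dead_le
  have h6 : 2 / y * C.tb.Ps.Pr (fun w => ¬ Alv C.h C.v C.tb C.p (5 * C.T) w) ≤ 2 / y * (pw C.Lam (C.c0 + C.A))⁻¹ :=
    mul_le_mul_of_nonneg_left h5 (by positivity)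
  have e7 : (2 / y + 1) * (pw C.Lam (C.c0 + C.A))⁻¹ = 2 / y * (pw C.Lam (C.c0 + C.A))⁻¹ + (pw C.Lam (C.c0 + C.A))⁻¹ := by ring
  have en : C.n = pw C.Lam C.c0 := rfl
  rw [en] at h1
  rw [e7]
  linarith

theorem of_CT {A : ℕ} {P : ℕ → ℝ → Prop} (h : CT.Ev P) : AllC A (fun C => P C.c0 C.Lam) := by
  obtain ⟨a, ha⟩ := h.ex
  exact ⟨a, fun C _ hc => ha C.c0 hc C.Lam C.hL⟩

/-- **THE OVERLAP OVER `Ctx`** : the last term of `relFull`, from the numbers of decisions, the relation at the removals and the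
rare states `hRS` -/
theorem ovl_F {A : ℕ} (hA : 80 ≤ A) (ka : ℕ) : AllC A (fun C => ∀ (H : Seen (C.U ka)) (yp : ℝ)
    (Kn : Fin 10 → Finset (Fin 3)) (c : KC) (B : ℝ) (Ae : Fin 6 → ℕ → C.Q → Prop) (gM : Fin 10 → ℕ → C.O → Prop),
    (∀ t < C.T, ∀ w, Ae 5 t w → Ar C.h C.v C.p (2 * t + 1) w) →
    (∀ w, C.tb.Ps.p w ≠ 0 → ∀ k ∈ rK, ∀ j ∈ vk k, ∀ q, gdO C.h C.tb C.v c B Ae gM k q w → rpO C.tb C.v j q w →
      btAB (C.U ka) (C.Q3 c k) yp (Kn k) H j q w → (C.Q3 c k).kv (some j) (tauS (C.U ka).toMS j q w) w) →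
    (∀ k ∈ rK, ∀ j ∈ vk k, UV.NT (AB.MA (C.U ka) yp H) (AB.QA (C.U ka) (C.Q3 c k)) j (5 * C.T) ≤ pw C.Lam (CT.rd CT.Rc k.1).T ∧
      UV.NT (AB.MB (C.U ka) (C.Q3 c k) yp H) (AB.QB (C.U ka) (C.Q3 c k) (Kn k)) j (5 * C.T) ≤ pw C.Lam (CT.rd CT.Rc k.1).T) →
    (∀ k ∈ rK, ∀ i ∈ vk k, ∀ j ∈ vk k, i ≠ j → ∑ r ∈ range (5 * C.T), C.tb.Ps.Pr (fun w =>
      Cov C.tb C.v (kxo 44 C.Lam C.c0) i r w ∧ ix C.Lam (CT.rd CT.Rc k.1).sq / 2 < C.tb.Ps.ce (sgt C.D {j} (TP.nn r)) (fun u =>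
        ind ((C.Q3 c k).kv (some j) (tauS (C.U ka).toMS j r u) u ∧ Alv C.h C.v C.tb C.p r u)) w) ≤ ix C.Lam 44) →
    3 * C.Lam * ∑ k ∈ rK, ∑ q ∈ range (5 * C.T), ∑ i ∈ vk k, ∑ j ∈ vk k,
      (if i < j then C.tb.Ps.Pr (ovO C.h C.tb C.v c B Ae (fun k => btAB (C.U ka) (C.Q3 c k) yp (Kn k) H) gM k i j q)
        else 0) ≤ ix C.Lam 24) := by
  refine (((ovl_pair hA ka 44).and (AllC.fin fun k : Fin 10 => of_CT (ovl_dn A (CT.rd CT.Rc k.1).sq 44))).and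
    (AllC.all (P := fun C => C.A = A) fun C hC => hC)).mono
    fun C ⟨⟨hP, hdn⟩, hCA⟩ H yp Kn c B Ae gM hAr hrl hNT hRS => ?_
  have hL := C.hL
  have i44 := ix_pos hL 44
  -- one pair
  have key : ∀ k ∈ rK, ∀ i ∈ vk k, ∀ j ∈ vk k, i ≠ j → ∑ q ∈ range (5 * C.T), C.tb.Ps.Pr
      (ovO C.h C.tb C.v c B Ae (fun k => btAB (C.U ka) (C.Q3 c k) yp (Kn k) H) gM k i j q) ≤ 8 * ix C.Lam 44 := by
    intro k hk i hi j hj hij
    have hy := ix_pos hL (CT.rd CT.Rc k.1).sq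
    have hAq : ∀ (q : ℕ) w, gdO C.h C.tb C.v c B Ae gM k q w → rpO C.tb C.v i q w → q < 5 * C.T →
        Ar C.h C.v C.p (2 * (q / 5) + 1) (C.tb.pt (q / 5) w) := by
      intro q w hg hr hq
      have h1 : aO C.tb Ae q w := hg.1
      unfold aO at h1
      have hs : sO q = 5 := by
        unfold sO
        rw [if_neg (by have := hr.1; omega), if_neg (by have := hr.1; omega), if_neg (by have := hr.1; omega),
          if_pos hr.1]
      rw [hs] at h1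
      exact hAr (q / 5) (by omega) _ h1
    have one : ∀ (M : US C.O) (Q : Kd C.O), M.P = C.tb.Ps → Seen M →
        (∀ E s x w, M.S E s x = M.S E s w ↔ sgt C.D E (TP.nn s) x = sgt C.D E (TP.nn s) w) →
        (∀ q w, C.tb.Ps.p w ≠ 0 → tauS (C.U ka).toMS j (tv M j q w) w = tauS (C.U ka).toMS j q w) →
        (∀ q w, rpO C.tb C.v j q w → tv M j (q + 1) w = q + 1) →
        (∀ q w, bet M Q j q w → btAB (C.U ka) (C.Q3 c k) yp (Kn k) H j q w) →
        UV.NT M Q j (5 * C.T) ≤ pw C.Lam (CT.rd CT.Rc k.1).T →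
        ∑ q ∈ range (5 * C.T), C.tb.Ps.Pr (fun w => (q < 5 * C.T ∧ gdO C.h C.tb C.v c B Ae gM k q w) ∧ rpO C.tb C.v i q w ∧
          rpO C.tb C.v j q w ∧ bet M Q j q w) ≤ 4 * ix C.Lam 44 := by
      intro M Q hMP hM hS hcl hend hbt hN
      have h1 := hP M Q hMP hM hS i j hij hcl ((C.Q3 c k).kv (some j))
        (fun q w => (q < 5 * C.T ∧ gdO C.h C.tb C.v c B Ae gM k q w) ∧ rpO C.tb C.v i q w ∧
          rpO C.tb C.v j q w ∧ bet M Q j q w)
        (fun w hw q hh => ⟨hend q w hh.2.2.1, hh.2.2.2, hrl w hw k hk j hj q hh.1.2 hh.2.2.1 (hbt q w hh.2.2.2)⟩)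
        (fun w hw q hh => ⟨hh.2.1, hh.2.2.1, hAq q w hh.1.2 hh.2.1 hh.1.1⟩) _ hy
      have hN0 : 0 ≤ UV.NT M Q j (5 * C.T) := Finset.sum_nonneg fun q _ => FP.Pr_nonneg _ _
      have h2 := t_sq (CT.rd CT.Rc k.1) hL (c := 1) (L := 1) (by norm_num) zero_le_one (CT.pw_ge1 hL _) hN0 hN
      have h3 := hRS k hk i hi j hj hij
      have h4 := hdn k
      rw [← hCA] at h4
      have h5 : (pw C.Lam 44)⁻¹ = ix C.Lam 44 := rfl
      rw [h5] at h1
      have h6 : ix C.Lam (CT.rd CT.Rc k.1).sq * UV.NT M Q j (5 * C.T) = 1 * 1 * UV.NT M Q j (5 * C.T) * ix C.Lam (CT.rd CT.Rc k.1).sq := by ring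
      linarith
    have htau : ∀ q w, rpO C.tb C.v j q w → MV.tau (C.U ka).toMS j (q + 1) w = q + 1 := fun q w hr =>
      tau_lt _ (Or.inr (lt_rp C.tb _ _ _ _ _ _ _ _ hr))
    have hAb := one (AB.MA (C.U ka) yp H) (AB.QA (C.U ka) (C.Q3 c k)) rfl (seenA _ _ H) (fun _ _ _ _ => Iff.rfl)
      (fun q w _ => tauS_A H j q w) (fun q w hr => endA H (htau q w hr)) (fun q w hh => Or.inl hh) (hNT k hk j hj).1
    have hBb := one (AB.MB (C.U ka) (C.Q3 c k) yp H) (AB.QB (C.U ka) (C.Q3 c k) (Kn k)) rfl (seenB _ _ _ H)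
      (fun _ _ _ _ => Iff.rfl) (fun q w _ => tauS_B H j q w) (fun q w hr => endB H (htau q w hr)) (fun q w hh => Or.inr hh)
      (hNT k hk j hj).2
    have hsum : ∑ q ∈ range (5 * C.T), C.tb.Ps.Pr
        (ovO C.h C.tb C.v c B Ae (fun k => btAB (C.U ka) (C.Q3 c k) yp (Kn k) H) gM k i j q) ≤
        ∑ q ∈ range (5 * C.T), C.tb.Ps.Pr (fun w => (q < 5 * C.T ∧ gdO C.h C.tb C.v c B Ae gM k q w) ∧ rpO C.tb C.v i q w ∧
          rpO C.tb C.v j q w ∧ bet (AB.MA (C.U ka) yp H) (AB.QA (C.U ka) (C.Q3 c k)) j q w) +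
        ∑ q ∈ range (5 * C.T), C.tb.Ps.Pr (fun w => (q < 5 * C.T ∧ gdO C.h C.tb C.v c B Ae gM k q w) ∧ rpO C.tb C.v i q w ∧
          rpO C.tb C.v j q w ∧ bet (AB.MB (C.U ka) (C.Q3 c k) yp H) (AB.QB (C.U ka) (C.Q3 c k) (Kn k)) j q w) := by
      rw [← Finset.sum_add_distrib]
      refine Finset.sum_le_sum fun q hq => (C.tb.Ps.Pr_mono fun w _ hh => ?_).trans (C.tb.Ps.Pr_or_le _ _)
      obtain ⟨a1, ⟨a2, _⟩, a4, a5⟩ := hh
      rcases a5 with a5 | a5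
      · exact Or.inl ⟨⟨mem_range.1 hq, a1⟩, a2, a4, a5⟩
      · exact Or.inr ⟨⟨mem_range.1 hq, a1⟩, a2, a4, a5⟩
    linarith
  -- the sum
  have h1 : ∑ k ∈ rK, ∑ q ∈ range (5 * C.T), ∑ i ∈ vk k, ∑ j ∈ vk k,
      (if i < j then C.tb.Ps.Pr (ovO C.h C.tb C.v c B Ae (fun k => btAB (C.U ka) (C.Q3 c k) yp (Kn k) H) gM k i j q)
        else 0) ≤ 5 * (3 * (3 * (8 * ix C.Lam 44))) := by
    have e1 : ∀ k ∈ rK, ∑ q ∈ range (5 * C.T), ∑ i ∈ vk k, ∑ j ∈ vk k,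
        (if i < j then C.tb.Ps.Pr (ovO C.h C.tb C.v c B Ae (fun k => btAB (C.U ka) (C.Q3 c k) yp (Kn k) H) gM k i j q)
          else 0) ≤ 3 * (3 * (8 * ix C.Lam 44)) := by
      intro k hk
      have cv : (vk k).card ≤ 3 := (Finset.card_le_univ _).trans (by simp)
      rw [Finset.sum_comm]
      refine (Finset.sum_le_card_nsmul (vk k) _ (3 * (8 * ix C.Lam 44)) fun i hi => ?_).trans ?_
      · rw [Finset.sum_comm]
        refine (Finset.sum_le_card_nsmul (vk k) _ (8 * ix C.Lam 44) fun j hj => ?_).trans ?_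
        · by_cases hij : i < j
          · simp only [if_pos hij]
            exact key k hk i hi j hj hij.ne
          · simp only [if_neg hij, Finset.sum_const_zero]
            positivity
        · rw [nsmul_eq_mul]
          exact mul_le_mul_of_nonneg_right (by exact_mod_cast cv) (by positivity)
      · rw [nsmul_eq_mul]
        exact mul_le_mul_of_nonneg_right (by exact_mod_cast cv) (by positivity)
    refine (Finset.sum_le_card_nsmul rK _ _ e1).trans ?_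
    rw [nsmul_eq_mul]
    refine mul_le_mul_of_nonneg_right ?_ (by positivity)
    have : (rK.card : ℝ) = 5 := by
      have : rK.card = 5 := by decide
      exact_mod_cast this
    linarith
  have h2 : 3 * C.Lam * (5 * (3 * (3 * (8 * ix C.Lam 44)))) = 1080 * C.Lam * ix C.Lam 44 := by ring
  have h3 : 1080 * C.Lam ≤ pw C.Lam (6 + 1) :=
    CT.mul_pw hL (by linarith) (CT.cst hL 6 (by norm_num)) (CT.Lam_le hL)
  refine (mul_le_mul_of_nonneg_left h1 (by linarith)).trans ?_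
  rw [h2]
  exact CT.fin hL h3 (by norm_num)

end ctx

end

end Pool.Agent.GMH.OvlF
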