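import Pool.Agent.GMH.RarND
import Pool.Agent.GMH.ConRn

/-!
# GMH/RarNE (helper88): THE NODE SUMS, ALL NUMBERS (row C5, node)

`sq` = exponent of the threshold `y = x^(-sq)`, class masses at most `4^8 x^(-2 sq)` (`HmC`), `L1 = n^16`,
`lam = lr sl = n x^(-(sl+20))`, `sl` = exponent of the digits (large against `sq` and the exponent of `e1`).
* `rn_num'`, `HyN_of` : the inequality of the numbers;
* **`af0_all`** (`AF0`), **`st_all`** (`RD0`, `SF`, `NE`), **`fin_all`** (`F0`): the sums are at most `x^(-s)`, any `s`, for all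
  runs with large `c0`, all thresholds, kinds, frames, relations with the class masses `HmC`.
-/

set_option autoImplicit false
set_option linter.unusedSectionVars false

namespace Pool.Agent.GMH.RarN

open Finset Pool.Agent.PWZ Pool.Agent.M3 Pool.Agent.GM Pool.Agent.GM.Harm Pool.Agent.GMH
open Pool.Agent.GMH.Dy Pool.Agent.GMH.MVI Pool.Agent.GMH.MVIp Pool.Agent.GMH.KF
open Pool.Agent.GMH.UV (US Kd tv Rn)
open Pool.Agent.GMH.TRF (ruO)
open Pool.Agent.GMH.ExK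
open Pool.Agent.GMH.CX Pool.Agent.GMH.V3 Pool.Agent.GMH.CT

theorem ofCT {P : ℕ → ℝ → Prop} (h : CT.Ev P) : CTM.Ev P := Filter.eventually_atTop.1 h

/-- `lam = lr ≤ n ≤ n^16` -/
theorem lr_le {Lam : ℝ} (hL : 2 ≤ Lam) (sq c0 : ℕ) : lr Lam sq c0 ≤ pw Lam (16 * c0) := by
  have h1 : lr Lam sq c0 ≤ pw Lam c0 := mul_le_of_le_one_right (pw_pos hL _).le (ix_le_one hL _)
  exact h1.trans (pw_mono hL (by omega))

/-- **THE NODE** with room -/
theorem rn_num' {A : ℕ} (hA : 80 ≤ A) (sq : ℕ) (hs : 20 ≤ sq) : CTM.Ev fun c0 Lam => ∀ lam eta : ℝ, lam ≤ pw Lam (16 * c0) →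
    eta ≤ 4 ^ 8 * ix Lam (2 * sq) →
    54 * (pw Lam (16 * c0) + 2 * (lam + 4) + 2 * pw Lam (cXF A c0) + 5) / pw Lam (c1F A c0) +
      54 * Lam / pw Lam c0 + 2 * eta < ix Lam sq / 2 / 8 := by
  refine (CTM.Ev.ge (3 * A + sq + 40)).mono fun c0 Lam hL hc lam eta hl he => ?_
  have n0 := CT.pw_pos hL c0
  have N0 := CT.pw_pos hL (c1F A c0)
  have X1 : pw Lam (cXF A c0) ≤ pw Lam (16 * c0) := CT.pw_mono hL (by unfold cXF; omega)
  have p1 := pw_ge1 hL (16 * c0)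
  have a1 : 54 * (pw Lam (16 * c0) + 2 * (lam + 4) + 2 * pw Lam (cXF A c0) + 5) / pw Lam (c1F A c0) ≤
      ix Lam (sq + 5) := by
    rw [div_le_iff₀ N0]
    have b1 : 54 * (pw Lam (16 * c0) + 2 * (lam + 4) + 2 * pw Lam (cXF A c0) + 5) ≤ 4 ^ 6 * pw Lam (16 * c0) := by
      norm_num
      linarith
    have b2 : 4 ^ 6 * pw Lam (16 * c0) ≤ pw Lam (6 + 16 * c0) := mul_pw hL (CT.pw_pos hL _).le (CT.cst hL 6 le_rfl) le_rfl
    have b3 : pw Lam (6 + 16 * c0) ≤ ix Lam (sq + 5) * pw Lam (c1F A c0) := by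
      have g1 : pw Lam ((sq + 5) + (6 + 16 * c0)) ≤ pw Lam (c1F A c0) := N1_ge hL hA _ (by omega)
      have g2 := mul_le_mul_of_nonneg_left g1 (ix_nn hL (sq + 5))
      have e5 : ix Lam (sq + 5) * pw Lam ((sq + 5) + (6 + 16 * c0)) = pw Lam (6 + 16 * c0) := by
        rw [mul_comm, pw_add_ix hL]
      rw [e5] at g2
      exact g2
    exact (b1.trans b2).trans b3
  have a2 : 54 * Lam / pw Lam c0 ≤ ix Lam (sq + 5) := by
    rw [div_le_iff₀ n0]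
    have g1 : 54 * Lam ≤ pw Lam 4 := cLam hL (c := 54) 3 (by norm_num)
    have g2 : pw Lam ((sq + 5) + 4) ≤ pw Lam c0 := CT.pw_mono hL (by omega)
    have g3 := mul_le_mul_of_nonneg_left g2 (ix_nn hL (sq + 5))
    have e5 : ix Lam (sq + 5) * pw Lam ((sq + 5) + 4) = pw Lam 4 := by
      rw [mul_comm, pw_add_ix hL]
    rw [e5] at g3
    linarith
  have a3 : 4 ^ 12 * ix Lam (2 * sq) ≤ ix Lam (sq + 5) := CT.fin hL (CT.cst hL 12 le_rfl) (by omega)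
  have a4 : 4 ^ 5 * ix Lam (sq + 5) ≤ ix Lam sq := CT.fin hL (CT.cst hL 5 le_rfl) (by omega)
  have a5 := ix_pos hL (sq + 5)
  have a6 := ix_pos hL (2 * sq)
  norm_num at a3 a4 he
  linarith

/-- the dead part -/
theorem rn_dead (A sq s : ℕ) : CTM.Ev fun c0 Lam => 2 / ix Lam sq * (pw Lam (c0 + A))⁻¹ ≤ ix Lam s := by
  refine (CTM.Ev.ge (sq + s + 1)).mono fun c0 Lam hL hc => ?_
  have e1 : 2 / ix Lam sq = 2 * pw Lam sq := by
    unfold CT.ix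
    rw [div_inv_eq_mul]
  rw [e1]
  have h1 : 2 * pw Lam sq ≤ pw Lam (1 + sq) := mul_pw hL (CT.pw_pos hL _).le (CT.cst hL 1 (by norm_num)) le_rfl
  exact CT.fin hL h1 (by omega)

/-- four terms -/
theorem ix4 {Lam : ℝ} (hL : 2 ≤ Lam) (s : ℕ) : 4 * ix Lam (s + 1) ≤ ix Lam s := by
  have := CT.cst_ix hL (c := 4) (j := 1) (s := s) (by norm_num)
  rwa [add_comm 1 s] at this

section ctx

variable (C : Ctx) (ka : ℕ)

/-- the class masses at the node -/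
def HmC (fr : Option (Fin 3)) (c : KC) (κ : Fin 10) (o o' : Option (Fin 3)) (sq sl : ℕ) : Prop :=
  Hm C ka (lr C.Lam sl C.c0) o' fr c κ o (4 ^ 8 * ix C.Lam (2 * sq))

/-- alive at `q` inside the relation of the stays -/
def SubR (fr : Option (Fin 3)) (c : KC) (κ : Fin 10) (o o' : Option (Fin 3)) (A : ℕ → C.O → Prop) : Prop :=
  (∀ q ≤ 5 * C.T, ∀ w, C.tb.Ps.p w ≠ 0 → A q w → Alv C.h C.v C.tb C.p q w →
      SR C.h C.v C.tb fr C.p c κ o (tauO (C.U ka) o' q w) w) ∧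
    ∀ q ≤ 5 * C.T, ∀ w, C.tb.Ps.p w ≠ 0 → A q w → Alv C.h C.v C.tb C.p (MV.nu (C.M ka) q w) w

end ctx

/-- the numbers for a run -/
structure NumN (C : Ctx) (ka sq sl s : ℕ) : Prop where
  hy : HyN C (lr C.Lam sl C.c0) (pw C.Lam (16 * C.c0)) (4 ^ 8 * ix C.Lam (2 * sq)) (ix C.Lam sq)
  l2 : 2 ≤ lr C.Lam sl C.c0
  hN : Real.exp (-(pw C.Lam (16 * C.c0))) * (2 + MV.N0 (C.M ka) (5 * C.T)) ≤ ix C.Lam s
  he : 160 * Real.exp (-(lr C.Lam sl C.c0)) * (C.n * C.N1 * C.Lam) ≤ ix C.Lam s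
  hd : 2 / ix C.Lam sq * (pw C.Lam (C.c0 + C.A))⁻¹ ≤ ix C.Lam s

theorem numN_all {A : ℕ} (hA : 80 ≤ A) (ka sq sl s : ℕ) (hs : 20 ≤ sq) : AllC A (fun C => NumN C ka sq sl s) := by
  have h1 := AllC.of_Ev (A := A) (rn_num' hA sq hs)
  have h2 := AllC.of_Ev (A := A) (ofCT (rn_V A s))
  have h3 := AllC.of_Ev (A := A) (ofCT (rx_e A sl s (c := 160) (by norm_num)))
  have h4 := AllC.of_Ev (A := A) (rn_dead A sq s)
  have h5 := AllC.of_Ev (A := A) (ofCT (rx_num hA sl))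
  have h6 := n0_all A ka
  have h7 := AllC.of_Ev (A := A) (CTM.Ev.ge 4)
  refine (((h1.and h2).and (h3.and h4)).and ((h5.and h6).and (h7.and (AllC.all fun C hC => hC)))).mono fun C hh => ?_
  obtain ⟨⟨⟨g1, g2⟩, g3, g4⟩, ⟨g5, g6⟩, g7, hCA⟩ := hh
  have hL := C.hL
  have e1 : C.N1 = pw C.Lam (c1F A C.c0) := by
    rw [← hCA]
    rfl
  have e2 : C.p.X0 = pw C.Lam (cXF A C.c0) := by
    rw [← hCA]
    rfl
  refine ⟨?_, by linarith [g5.2.1], ?_, ?_, ?_⟩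
  · unfold HyN
    rw [e1, e2]
    exact g1 _ _ (lr_le hL sl C.c0) le_rfl
  · refine g2 _ ?_
    have q1 : MVN.pQ C.Lam C.c0 = pw C.Lam (8 * C.c0) := rfl
    have q2 : 4 * pw C.Lam (8 * C.c0) + 2 ≤ pw C.Lam (15 * C.c0) := by
      have a1 : 4 ^ 2 * pw C.Lam (8 * C.c0) ≤ pw C.Lam (2 + 8 * C.c0) :=
        mul_pw hL (CT.pw_pos hL _).le (CT.cst hL 2 le_rfl) le_rfl
      have a2 := CT.pw_mono hL (show 2 + 8 * C.c0 ≤ 15 * C.c0 by omega)
      have a3 := pw_ge1 hL (8 * C.c0)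
      linarith
    have q3 : 2 + Real.exp (4 * MVN.pQ C.Lam C.c0) ≤ Real.exp (4 * pw C.Lam (8 * C.c0) + 2) := by
      rw [q1, Real.exp_add]
      have b1 := Real.one_le_exp (show 0 ≤ 4 * pw C.Lam (8 * C.c0) by
        have := CT.pw_pos hL (8 * C.c0)
        positivity)
      have b2 : (3 : ℝ) ≤ Real.exp 2 := by
        have := Real.add_one_le_exp (2 : ℝ)
        linarith
      nlinarith
    calc (2 : ℝ) + MV.N0 (C.M ka) (5 * C.T) ≤ 2 + Real.exp (4 * MVN.pQ C.Lam C.c0) := by linarith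
      _ ≤ _ := q3.trans (Real.exp_le_exp.2 q2)
  · have e3 : C.n = pw C.Lam C.c0 := rfl
    rw [e1, e3]
    exact g3
  · rw [hCA]
    exact g4

/-- **`AF0`** -/
theorem af0_all {A : ℕ} (hA : 80 ≤ A) (ka sq sl s : ℕ) (hs : 20 ≤ sq) : AllC A (fun C => ∀ (fr : Option (Fin 3)) (c : KC)
    (κ : Fin 10) (o o' : Option (Fin 3)) (R : ℕ → C.O → Prop), HmC C ka fr c κ o o' sq sl → SubR C ka fr c κ o o' R →
    ∑ q ∈ range (5 * C.T), C.tb.Ps.Pr (fun w => (MV.nu (C.M ka) (q + 1) w = q + 1 ∧ ¬ ruO C.tb C.v q w) ∧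
        ix C.Lam sq < C.tb.Ps.ce (sgt C.D ∅ (TP.nn (q + 1))) (fun u => ind (R q u)) w) ≤ ix C.Lam s) := by
  refine (numN_all hA ka sq sl (s + 1) hs).mono fun C hh fr c κ o o' R hm hR => ?_
  have hL := C.hL
  have h1 := af0_ctx C ka (lam := lr C.Lam sl C.c0) (L1 := pw C.Lam (16 * C.c0)) (y := ix C.Lam sq) hh.l2
    (CT.pw_pos hL _).le (ix_pos hL _) (fun q hq => hR.1 q hq.le) (fun q hq => hR.2 q hq.le) hm hh.hy
  have h2 := ix4 hL s
  have h3 := hh.hN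
  rw [mul_add] at h3
  have h4 := mul_pos (Real.exp_pos (-(pw C.Lam (16 * C.c0)))) (show (0 : ℝ) < 2 by norm_num)
  have h5 := ix_pos hL (s + 1)
  linarith [hh.he, hh.hd]

/-- **`RD0`, `SF`, `NE`** -/
theorem st_all {A : ℕ} (hA : 80 ≤ A) (ka sq sl s : ℕ) (hs : 20 ≤ sq) : AllC A (fun C => ∀ (fr : Option (Fin 3)) (c : KC)
    (κ : Fin 10) (o o' : Option (Fin 3)) (R : ℕ → C.O → Prop), HmC C ka fr c κ o o' sq sl → SubR C ka fr c κ o o' R →
    ∑ q ∈ range (5 * C.T + 1), C.tb.Ps.Pr (fun w => MV.nu (C.M ka) q w = q ∧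
        ix C.Lam sq < C.tb.Ps.ce (sgt C.D ∅ (TP.nn q)) (fun u => ind (R q u)) w) ≤ ix C.Lam s) := by
  refine (numN_all hA ka sq sl (s + 1) hs).mono fun C hh fr c κ o o' R hm hR => ?_
  have hL := C.hL
  have h1 := st_ctx C ka (lam := lr C.Lam sl C.c0) (L1 := pw C.Lam (16 * C.c0)) (y := ix C.Lam sq) hh.l2
    (CT.pw_pos hL _).le (ix_pos hL _) hR.1 hR.2 hm hh.hy
  have h2 := ix4 hL s
  have h5 := ix_pos hL (s + 1)
  linarith [hh.he, hh.hN]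

/-- **`F0`** -/
theorem fin_all {A : ℕ} (hA : 80 ≤ A) (ka sq sl s : ℕ) (hs : 20 ≤ sq) : AllC A (fun C => ∀ (fr : Option (Fin 3)) (c : KC)
    (κ : Fin 10) (o o' : Option (Fin 3)) (R : ℕ → C.O → Prop), HmC C ka fr c κ o o' sq sl → SubR C ka fr c κ o o' R →
    C.tb.Ps.Pr (fun w => ix C.Lam sq < C.tb.Ps.ce (sgt C.D ∅ (TP.nn (5 * C.T))) (fun u => ind (R (5 * C.T) u)) w) ≤
      ix C.Lam s) := by
  refine (numN_all hA ka sq sl (s + 1) hs).mono fun C hh fr c κ o o' R hm hR => ?_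
  have hL := C.hL
  have h1 := fin_ctx C ka (lam := lr C.Lam sl C.c0) (L1 := pw C.Lam (16 * C.c0)) (y := ix C.Lam sq) hh.l2
    (CT.pw_pos hL _).le (ix_pos hL _) hR.1 hm hh.hy
  have h2 := ix4 hL s
  have h3 := hh.hN
  have h5 := ix_pos hL (s + 1)
  have h6 : 0 ≤ MV.N0 (C.M ka) (5 * C.T) := Finset.sum_nonneg fun _ _ => C.tb.Ps.Pr_nonneg _
  have h7 : Real.exp (-(pw C.Lam (16 * C.c0))) ≤ Real.exp (-(pw C.Lam (16 * C.c0))) * (2 + MV.N0 (C.M ka) (5 * C.T)) :=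
    le_mul_of_one_le_right (Real.exp_pos _).le (by linarith)
  linarith [hh.he, hh.hd]

end Pool.Agent.GMH.RarN
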