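import Pool.Agent.GMH.RarC6
import Pool.Agent.GMH.RarNE
import Pool.Agent.GMH.ClsH

/-!
# GMH/RarC7 (helper30): THE EXACT VERTEX OVER `Ctx`, ALL NUMBERS (row C5, exact vertex)

`R q` : any relation which is, alive at `q`, inside `SR fr p c κ o` of the life of `b` which runs at `q` (`SubX`).
* `HmX` : the class masses (own state with the share `exp (-L)`, light levels), **`hmX_of`** : from `R0G` (`GMH/ClsH`);
* `NumX` : the numbers, `L1 = n x^(-(sq + 20))`, `lam = n x^(-(sl + 20))`, `y = x^(-sq)`, class masses at most `4^8 x^(-2 sq)`;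
* **`afX_all`** (`AF v`) : a-free ends of the lives; **`newX_all`** (`RD v`, starts) : new lives; **`finX_all`** (`FV v`) : any
  time; **`anyX_all`** : any events of the classes of number at most `exp (n x^(-(sq + 21)))`, relation cut by `Alv`.
-/

set_option autoImplicit false
set_option linter.unusedSectionVars false

namespace Pool.Agent.GMH.RarC

open Finset Pool.Agent.PWZ Pool.Agent.M3 Pool.Agent.GM Pool.Agent.GM.Harm Pool.Agent.GMH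
open Pool.Agent.GMH.Dy Pool.Agent.GMH.MVI Pool.Agent.GMH.MVIp Pool.Agent.GMH.KF
open Pool.Agent.GMH.GamR (XN)
open Pool.Agent.GMH.UV (US Kd tv Rn)
open Pool.Agent.GMH.TRF (ruO rpO)
open Pool.Agent.GMH.ExK
open Pool.Agent.GMH.CX Pool.Agent.GMH.V3 Pool.Agent.GMH.CT
open Pool.Agent.GMH.RarN (Sn At' Es hz eT_fac eT_le ncp hz_fac Sn_cut Sn_Alv ruO_fac nru_hz NPo_mono Bv Sn_cv ofCT ix4 rn_dead)

noncomputable section

theorem two_others : ∀ b : Fin 3, ∃ c d : Fin 3, b ≠ c ∧ b ≠ d ∧ c ≠ d := by decide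

section ctx

variable (C : Ctx) (ka : ℕ)

/-- a new life of the exact vertex after the step, not a removal -/
def AFX (b : Fin 3) (q : ℕ) (w : C.O) : Prop :=
  MV.tauS (C.M ka) b (q + 1) w = q + 1 ∧ ¬ rpO C.tb C.v b q w ∧ ¬ ruO C.tb C.v q w

/-- the class masses at the exact vertex -/
def HmX (L : ℝ) (b : Fin 3) (fr : Option (Fin 3)) (c : KC) (κ : Fin 10) (o : Option (Fin 3)) (eta : ℝ) : Prop :=
  (∀ q ≤ 5 * C.T, ∀ w, C.tb.Ps.p w ≠ 0 →
    C.tb.Ps.m (XN C.tb C.v b (5 * (q / 5))) w ≤ Real.exp L * C.tb.Ps.m (XN C.tb C.v b q) w →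
    C.tb.Ps.ce (XN C.tb C.v b q) (fun u => ind (SR C.h C.v C.tb fr C.p c κ o (MV.tauS (C.M ka) b q u) u ∧
      Alv C.h C.v C.tb C.p q u)) w ≤ eta) ∧
  (∀ q ≤ 5 * C.T, ∀ w, C.tb.Ps.p w ≠ 0 → ltL C.v C.tb q w →
    C.tb.Ps.ce (XN C.tb C.v b (5 * (q / 5) + 5)) (fun u => ind (SR C.h C.v C.tb fr C.p c κ o (MV.tauS (C.M ka) b q u) u ∧
      Alv C.h C.v C.tb C.p q u)) w ≤ eta)

/-- alive at `q` inside the relation of the life which runs at `q`; alive at the start -/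
def SubX (b : Fin 3) (fr : Option (Fin 3)) (c : KC) (κ : Fin 10) (o : Option (Fin 3)) (A : ℕ → C.O → Prop) : Prop :=
  (∀ q ≤ 5 * C.T, ∀ w, C.tb.Ps.p w ≠ 0 → A q w → Alv C.h C.v C.tb C.p q w →
      SR C.h C.v C.tb fr C.p c κ o (MV.tauS (C.M ka) b q w) w) ∧
    ∀ q ≤ 5 * C.T, ∀ w, C.tb.Ps.p w ≠ 0 → A q w → Alv C.h C.v C.tb C.p (MV.tauS (C.M ka) b q w) w

/-- the inequality of the numbers -/
def HyX (lam L1 eta y R0 ep : ℝ) (k : ℕ) : Prop :=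
  Cst C.n C.al (3 * Real.exp C.p.X0) R0 ep k (L1 + (2 * lam + 3)) ∧
    4 * (1025 * ELr C.n C.N1 C.al (3 * Real.exp C.p.X0) R0 ep k (L1 + (2 * lam + 3)) (C.p.X0 + (L1 + (2 * lam + 3))) +
      1024 * eta) < y / 2

variable {lam L1 eta y R0 ep : ℝ} {k : ℕ} {b : Fin 3} {fr : Option (Fin 3)} {c : KC} {κ : Fin 10} {o : Option (Fin 3)}
  {A : ℕ → C.O → Prop}

theorem Bv_sn : ∀ r ≤ 5 * C.T, Sn C.tb C.v r (Bv C.h C.v C.tb C.p fr c κ o r) := fun r hr =>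
  (Sn_cv C.n1 C.N11 C.R C.H fr c κ o (by omega)).and (Sn_Alv C.p (by omega))

/-- the ends, the alive part -/
theorem end_raw (hlam : 3 ≤ lam) (hy0 : 0 < y) (hm : HmX C ka (2 * lam + 3) b fr c κ o eta) (hy : HyX C lam L1 eta y R0 ep k)
    {E : ℕ → C.O → Prop} (hE : ∀ q w, E q w → AFX C ka b q w) (hA : SubX C ka b fr c κ o A) :
    ∑ q ∈ range (5 * C.T), C.tb.Ps.Pr (fun w => E q w ∧
        y < C.tb.Ps.ce (sgt C.D {b} (TP.nn (q + 1))) (fun u => ind (A q u)) w) ≤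
      Real.exp (-L1) * C.NS ka b + 800 * Real.exp (-lam) * (C.n * C.N1 * C.Lam) + 2 / y * (pw C.Lam (C.c0 + C.A))⁻¹ := by
  obtain ⟨c', d', h1, h2, h3⟩ := two_others b
  have hc := afX_fac C.tb (v := C.v) (C.d1_pos ka) (C.d1_le ka) (C.kb_pos ka) C.d0_pos C.d0_le C.d0_pos C.p1_pos (C.z_pos ka) b
  have k1 := exact_sum (h := C.h) C.tb C.codes (C.d1_pos ka) (C.d1_le ka) (C.kb_pos ka) C.d0_pos C.d0_le C.d0_pos C.p1_pos
    (C.z_pos ka) C.n1 C.N11 C.R C.H h1 h2 h3 hlam (half_pos hy0) hy.1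
    (B := Bv C.h C.v C.tb C.p fr c κ o) (Bv_sn C) (fun e w hb => hb.2)
    (A := fun q u => SR C.h C.v C.tb fr C.p c κ o (MV.tauS (C.M ka) b q u) u) (C := AFX C ka b)
    (fun q _ w _ => Iff.rfl) (fun q _ => hc q) (fun q _ h4 w _ hh => nru_hz C.tb h4 hh.2.2)
    (fun q _ h4 w _ hh h5 => nrp_oX h4 hh.2.1 h5) (eta := eta) (fun q hq w hw _ _ h5 => hm.1 q hq.le w hw h5)
    (fun q hq w hw hh h4 h5 => by
      have h6 : 5 * (q / 5) + 1 < q := by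
        rcases Nat.lt_or_ge (5 * (q / 5) + 1) q with h7 | h7
        · exact h7
        · exact absurd (nru_hz C.tb (by omega) hh.2.2) h5
      exact hm.2 q hq.le w hw (ltL_of C.tb h6 h5)) hy.2
  have k2 : ∀ q ∈ range (5 * C.T), C.tb.Ps.Pr (fun w => E q w ∧
      y < C.tb.Ps.ce (sgt C.D {b} (TP.nn (q + 1))) (fun u => ind (A q u)) w) ≤
      C.tb.Ps.Pr (fun w => AFX C ka b q w ∧ y / 2 ≤ C.tb.Ps.ce (sgt C.D {b} (TP.nn (q + 1)))
        (fun u => ind (SR C.h C.v C.tb fr C.p c κ o (MV.tauS (C.M ka) b q u) u ∧ Alv C.h C.v C.tb C.p q u)) w) +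
        2 / y * C.tb.Ps.Pr (fun w => AFX C ka b q w ∧ A q w ∧ ¬ Alv C.h C.v C.tb C.p q w) := fun q hq => by
    have hq' := mem_range.1 hq
    have k3 := RarS.split_le (P := C.tb.Ps) (X := sgt C.D {b} (TP.nn (q + 1))) (E := AFX C ka b q)
      (fun u w e => iff_of_eq (hc q u w (sgt_XN C.codes b (q + 1) u w e))) (A q) (Alv C.h C.v C.tb C.p q) hy0
    refine (C.tb.Ps.Pr_mono fun w _ hh => ⟨hE q w hh.1, hh.2⟩).trans
      (k3.trans (add_le_add (C.tb.Ps.Pr_mono fun w _ hh => ⟨hh.1, hh.2.le.trans ?_⟩) le_rfl))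
    exact C.tb.Ps.ce_mono (fun u hu => ind_mono fun g => ⟨hA.1 q hq'.le u hu g.1 g.2, g.2⟩) w
  have k4 : ∑ q ∈ range (5 * C.T), C.tb.Ps.Pr (fun w => AFX C ka b q w ∧ A q w ∧ ¬ Alv C.h C.v C.tb C.p q w) ≤
      (pw C.Lam (C.c0 + C.A))⁻¹ := by
    have g1 := RelD.dead_once (P := C.tb.Ps) (C := MV.CS (C.M ka) b) (Al := fun q => Alv C.h C.v C.tb C.p q)
      (fun w _ q hh => Alv_anti C.h C.v C.tb (Nat.le_succ q) hh) (e := fun q w => MV.tauS (C.M ka) b q w)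
      (fun w _ q => le_rfl) (5 * C.T)
    refine le_trans (Finset.sum_le_sum fun q hq => C.tb.Ps.Pr_mono fun w hw hh => ?_) (g1.trans C.dead_le)
    exact ⟨hh.1.1, hA.2 q (mem_range.1 hq).le w hw hh.2.1, hh.2.2⟩
  have k5 : ∑ q ∈ range (5 * C.T), C.tb.Ps.Pr (AFX C ka b q) ≤ C.NS ka b :=
    Finset.sum_le_sum fun q _ => C.tb.Ps.Pr_mono fun w _ hh => hh.1
  have k6 := mul_le_mul_of_nonneg_left k5 (Real.exp_pos (-L1)).le
  have k7 := mul_le_mul_of_nonneg_left k4 (show 0 ≤ 2 / y by positivity)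
  refine (Finset.sum_le_sum k2).trans ?_
  rw [Finset.sum_add_distrib, ← Finset.mul_sum]
  linarith

/-- any events of the classes at the states, relation cut by `Alv` -/
theorem any_raw (hlam : 3 ≤ lam) (hy0 : 0 < y) (hm : HmX C ka (2 * lam + 3) b fr c κ o eta) (hy : HyX C lam L1 eta y R0 ep k)
    {E : ℕ → C.O → Prop} (hE : ∀ q ≤ 5 * C.T, Fac (XN C.tb C.v b q) (E q)) (hA : SubX C ka b fr c κ o A) :
    ∑ q ∈ range (5 * C.T + 1), C.tb.Ps.Pr (fun w => E q w ∧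
        y / 2 ≤ C.tb.Ps.ce (sgt C.D {b} (TP.nn q)) (fun u => ind (A q u ∧ Alv C.h C.v C.tb C.p q u)) w) ≤
      Real.exp (-L1) * ∑ q ∈ range (5 * C.T + 1), C.tb.Ps.Pr (E q) + 800 * Real.exp (-lam) * (C.n * C.N1 * C.Lam) := by
  obtain ⟨c', d', h1, h2, h3⟩ := two_others b
  have k1 := exact_new (h := C.h) C.tb C.codes (C.d1_pos ka) (C.d1_le ka) (C.kb_pos ka) C.d0_pos C.d0_le C.d0_pos C.p1_pos
    (C.z_pos ka) C.n1 C.N11 C.R C.H h1 h2 h3 hlam (half_pos hy0) hy.1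
    (B := Bv C.h C.v C.tb C.p fr c κ o) (Bv_sn C) (fun e w hb => hb.2)
    (A := fun q u => SR C.h C.v C.tb fr C.p c κ o (MV.tauS (C.M ka) b q u) u) (C := E)
    (fun q _ w _ => Iff.rfl) hE (eta := eta) (fun q hq w hw _ _ h5 => hm.1 q hq w hw h5)
    (fun q hq w hw _ h4 h5 => hm.2 q hq w hw (ltL_of C.tb h4 h5)) hy.2
  refine le_trans (Finset.sum_le_sum fun q hq => C.tb.Ps.Pr_mono fun w _ hh => ⟨hh.1, hh.2.trans ?_⟩) k1
  exact C.tb.Ps.ce_mono (fun u hu => ind_mono fun g =>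
    ⟨hA.1 q (Nat.lt_succ_iff.1 (mem_range.1 hq)) u hu g.1 g.2, g.2⟩) w

/-- alive and dead -/
theorem any_split (hlam : 3 ≤ lam) (hy0 : 0 < y) (hm : HmX C ka (2 * lam + 3) b fr c κ o eta) (hy : HyX C lam L1 eta y R0 ep k)
    {E : ℕ → C.O → Prop} (hE : ∀ q ≤ 5 * C.T, Fac (XN C.tb C.v b q) (E q)) (hA : SubX C ka b fr c κ o A) :
    ∑ q ∈ range (5 * C.T + 1), C.tb.Ps.Pr (fun w => E q w ∧
        y < C.tb.Ps.ce (sgt C.D {b} (TP.nn q)) (fun u => ind (A q u)) w) ≤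
      Real.exp (-L1) * ∑ q ∈ range (5 * C.T + 1), C.tb.Ps.Pr (E q) + 800 * Real.exp (-lam) * (C.n * C.N1 * C.Lam) +
        2 / y * ∑ q ∈ range (5 * C.T + 1), C.tb.Ps.Pr (fun w => E q w ∧ A q w ∧ ¬ Alv C.h C.v C.tb C.p q w) := by
  have k1 := any_raw C ka hlam hy0 hm hy hE hA
  have k2 : ∀ q ∈ range (5 * C.T + 1), C.tb.Ps.Pr (fun w => E q w ∧
      y < C.tb.Ps.ce (sgt C.D {b} (TP.nn q)) (fun u => ind (A q u)) w) ≤
      C.tb.Ps.Pr (fun w => E q w ∧ y / 2 ≤ C.tb.Ps.ce (sgt C.D {b} (TP.nn q))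
        (fun u => ind (A q u ∧ Alv C.h C.v C.tb C.p q u)) w) +
        2 / y * C.tb.Ps.Pr (fun w => E q w ∧ A q w ∧ ¬ Alv C.h C.v C.tb C.p q w) := fun q hq => by
    have k3 := RarS.split_le (P := C.tb.Ps) (X := sgt C.D {b} (TP.nn q)) (E := E q)
      (fun u w e => iff_of_eq (hE q (Nat.lt_succ_iff.1 (mem_range.1 hq)) u w (sgt_XN C.codes b q u w e))) (A q)
      (Alv C.h C.v C.tb C.p q) hy0
    exact k3.trans (add_le_add (C.tb.Ps.Pr_mono fun w _ hh => ⟨hh.1, hh.2.le⟩) le_rfl)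
  refine (Finset.sum_le_sum k2).trans ?_
  rw [Finset.sum_add_distrib, ← Finset.mul_sum]
  linarith

/-- the new lives -/
theorem new_raw (hlam : 3 ≤ lam) (hy0 : 0 < y) (hm : HmX C ka (2 * lam + 3) b fr c κ o eta) (hy : HyX C lam L1 eta y R0 ep k)
    {E : ℕ → C.O → Prop} (hE : ∀ q w, E q w → MV.tauS (C.M ka) b q w = q) (hA : SubX C ka b fr c κ o A) :
    ∑ q ∈ range (5 * C.T + 1), C.tb.Ps.Pr (fun w => E q w ∧
        y < C.tb.Ps.ce (sgt C.D {b} (TP.nn q)) (fun u => ind (A q u)) w) ≤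
      Real.exp (-L1) * (1 + C.NS ka b) + 800 * Real.exp (-lam) * (C.n * C.N1 * C.Lam) := by
  have k1 := any_split C ka hlam hy0 hm hy (E := fun q w => MV.tauS (C.M ka) b q w = q) (fun q _ u w e => by
    have := MV.tauS_fac (M := C.M ka) b q u w e
    show (_ = _) = (_ = _)
    rw [this]) hA
  have k2 : ∑ q ∈ range (5 * C.T + 1), C.tb.Ps.Pr (fun w => MV.tauS (C.M ka) b q w = q) ≤ 1 + C.NS ka b := by
    rw [Finset.sum_range_succ']
    have h1 := C.tb.Ps.Pr_le_one (fun w => MV.tauS (C.M ka) b 0 w = 0)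
    have h2 : ∑ k ∈ range (5 * C.T), C.tb.Ps.Pr (fun w => MV.tauS (C.M ka) b (k + 1) w = k + 1) = C.NS ka b := rfl
    linarith
  have k3 : ∑ q ∈ range (5 * C.T + 1), C.tb.Ps.Pr (fun w => MV.tauS (C.M ka) b q w = q ∧ A q w ∧
      ¬ Alv C.h C.v C.tb C.p q w) = 0 := by
    refine Finset.sum_eq_zero fun q hq => ?_
    unfold FP.Pr
    rw [C.tb.Ps.E_congr (g := fun _ => 0) fun w hw => ind_not fun hh => by
      have h1 := hA.2 q (Nat.lt_succ_iff.1 (mem_range.1 hq)) w hw hh.2.1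
      rw [hh.1] at h1
      exact hh.2.2 h1, C.tb.Ps.E_const]
  have k4 := mul_le_mul_of_nonneg_left k2 (Real.exp_pos (-L1)).le
  rw [k3, mul_zero, add_zero] at k1
  have k5 : ∑ q ∈ range (5 * C.T + 1), C.tb.Ps.Pr (fun w => E q w ∧
      y < C.tb.Ps.ce (sgt C.D {b} (TP.nn q)) (fun u => ind (A q u)) w) ≤ ∑ q ∈ range (5 * C.T + 1),
      C.tb.Ps.Pr (fun w => MV.tauS (C.M ka) b q w = q ∧
        y < C.tb.Ps.ce (sgt C.D {b} (TP.nn q)) (fun u => ind (A q u)) w) :=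
    Finset.sum_le_sum fun q _ => C.tb.Ps.Pr_mono fun w _ hh => ⟨hE q w hh.1, hh.2⟩
  linarith

/-- one time -/
theorem fin_raw (hlam : 3 ≤ lam) (hy0 : 0 < y) (hm : HmX C ka (2 * lam + 3) b fr c κ o eta) (hy : HyX C lam L1 eta y R0 ep k)
    (hA : SubX C ka b fr c κ o A) {n' : ℕ} (hn' : n' ≤ 5 * C.T) :
    C.tb.Ps.Pr (fun w => y < C.tb.Ps.ce (sgt C.D {b} (TP.nn n')) (fun u => ind (A n' u)) w) ≤
      Real.exp (-L1) + 800 * Real.exp (-lam) * (C.n * C.N1 * C.Lam) + 2 / y * (pw C.Lam (C.c0 + C.A))⁻¹ := by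
  classical
  have k1 := any_split C ka hlam hy0 hm hy (E := fun q _ => q = n') (fun _ _ _ _ _ => rfl) hA
  have hmem : n' ∈ range (5 * C.T + 1) := mem_range.2 (by omega)
  have k2 : ∀ (F : ℕ → C.O → Prop), ∑ q ∈ range (5 * C.T + 1), C.tb.Ps.Pr (fun w => q = n' ∧ F q w) =
      C.tb.Ps.Pr (F n') := by
    intro F
    rw [Finset.sum_eq_single n' (fun q _ hne => ?_) (fun hh => absurd hmem hh)]
    · exact C.tb.Ps.Pr_congr fun w _ => ⟨fun hh => hh.2, fun hh => ⟨rfl, hh⟩⟩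
    · unfold FP.Pr
      rw [C.tb.Ps.E_congr (g := fun _ => 0) fun w _ => ind_not fun hh => hne hh.1, C.tb.Ps.E_const]
  rw [k2 (fun q w => y < C.tb.Ps.ce (sgt C.D {b} (TP.nn q)) (fun u => ind (A q u)) w),
    k2 (fun q w => A q w ∧ ¬ Alv C.h C.v C.tb C.p q w)] at k1
  have k3 : ∑ q ∈ range (5 * C.T + 1), C.tb.Ps.Pr (fun _ => q = n') ≤ 1 := by
    rw [Finset.sum_eq_single n' (fun q _ hne => ?_) (fun hh => absurd hmem hh)]
    · exact C.tb.Ps.Pr_le_one (fun _ => n' = n')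
    · unfold FP.Pr
      rw [C.tb.Ps.E_congr (g := fun _ => 0) fun w _ => ind_not fun hh => hne hh, C.tb.Ps.E_const]
  have k4 : C.tb.Ps.Pr (fun w => A n' w ∧ ¬ Alv C.h C.v C.tb C.p n' w) ≤ (pw C.Lam (C.c0 + C.A))⁻¹ :=
    (C.tb.Ps.Pr_mono fun w _ hh g => hh.2 (Alv_anti C.h C.v C.tb hn' g)).trans C.dead_le
  have k5 := mul_le_mul_of_nonneg_left k3 (Real.exp_pos (-L1)).le
  have k6 := mul_le_mul_of_nonneg_left k4 (show 0 ≤ 2 / y by positivity)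
  linarith

/-! ### the numbers -/

/-- the number of the rows -/
def kx : ℕ := ⌈C.n ^ 2⌉₊

/-- the numbers for a run -/
structure NumX (sq sl s : ℕ) : Prop where
  hy : ∀ eta, eta ≤ 4 ^ 8 * ix C.Lam (2 * sq) →
    HyX C (lr C.Lam sl C.c0) (lr C.Lam sq C.c0) eta (ix C.Lam sq) (R0r C.Lam C.c0) (1 / C.n) (kx C)
  l3 : 3 ≤ lr C.Lam sl C.c0
  hV : ∀ V : ℝ, V ≤ Real.exp (pw C.Lam C.c0 * ix C.Lam (sq + 21)) → Real.exp (-(lr C.Lam sq C.c0)) * V ≤ ix C.Lam s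
  hN : ∀ b, Real.exp (-(lr C.Lam sq C.c0)) * (1 + C.NS ka b) ≤ ix C.Lam s
  he : 800 * Real.exp (-(lr C.Lam sl C.c0)) * (C.n * C.N1 * C.Lam) ≤ ix C.Lam s
  hd : 2 / ix C.Lam sq * (pw C.Lam (C.c0 + C.A))⁻¹ ≤ ix C.Lam s

end ctx

theorem log_al (C : Ctx) : Real.log (1 / C.al) ≤ C.Lam := by
  have h0 := C.h.pos
  have h1 := C.H.alL
  rw [one_div, Real.log_inv]
  have h2 := Real.log_le_log (Real.exp_pos _) h1
  rw [Real.log_exp] at h2
  linarith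

theorem log_Z (C : Ctx) (hX : 0 ≤ C.p.X0) : Real.log ((3 * Real.exp C.p.X0 + 1) * (1 / C.al + 1)) ≤ C.p.X0 + C.Lam + 3 := by
  have h0 := C.h.pos
  have h1 := C.H.alL
  have hL := C.hL
  have h2 : 1 / C.al ≤ Real.exp C.Lam := by
    rw [one_div]
    refine (inv_anti₀ (Real.exp_pos _) h1).trans (le_of_eq ?_)
    rw [Real.exp_neg, inv_inv]
  have h3 := Real.one_le_exp hX
  have h4 := Real.one_le_exp (show 0 ≤ C.Lam by linarith)
  have h5 : 0 < 1 / C.al := one_div_pos.2 h0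
  have h6 : (3 * Real.exp C.p.X0 + 1) * (1 / C.al + 1) ≤ (4 * Real.exp C.p.X0) * (2 * Real.exp C.Lam) :=
    mul_le_mul (by linarith) (by linarith) (by linarith) (by linarith)
  have h7 : (8 : ℝ) ≤ Real.exp 3 := by
    have h8 := Real.exp_one_gt_d9
    have h9 : Real.exp 3 = Real.exp 1 * Real.exp 1 * Real.exp 1 := by rw [← Real.exp_add, ← Real.exp_add]; norm_num
    rw [h9]
    nlinarith
  have h8 : (4 * Real.exp C.p.X0) * (2 * Real.exp C.Lam) ≤ Real.exp (C.p.X0 + C.Lam + 3) := by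
    rw [Real.exp_add, Real.exp_add]
    have := mul_pos (Real.exp_pos C.p.X0) (Real.exp_pos C.Lam)
    nlinarith
  rw [Real.log_le_iff_le_exp (by positivity)]
  exact h6.trans h8

/-- the threshold with room -/
theorem rx_y2 {Lam : ℝ} (hL : 2 ≤ Lam) {sq : ℕ} (hs : 20 ≤ sq) {E eta : ℝ} (hE : E ≤ ix Lam (sq + 12))
    (he : eta ≤ 4 ^ 8 * ix Lam (2 * sq)) : 4 * (1025 * E + 1024 * eta) < ix Lam sq / 2 := by
  have h1 : 4 ^ 7 * ix Lam (sq + 12) ≤ ix Lam (sq + 1) := CT.fin hL (CT.cst hL 7 le_rfl) (by omega)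
  have h2 : 4 ^ 15 * ix Lam (2 * sq) ≤ ix Lam (sq + 1) := CT.fin hL (CT.cst hL 15 le_rfl) (by omega)
  have h3 : 4 * ix Lam (1 + sq) ≤ ix Lam sq := CT.cst_ix hL (c := 4) (j := 1) (by norm_num)
  rw [show 1 + sq = sq + 1 by ring] at h3
  have h4 := ix_pos hL (sq + 1)
  norm_num at h1 h2 he
  have h6 := ix_pos hL (sq + 12)
  have h7 := ix_pos hL (2 * sq)
  linarith

/-- **THE NUMBERS FOR ALL RUNS** -/
theorem numX_all {A : ℕ} (hA : 80 ≤ A) (ka sq sl s : ℕ) (hs : 20 ≤ sq) (hsl : sq ≤ sl) (hka : sq + 24 ≤ ka) :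
    AllC A (fun C => NumX C ka sq sl s) := by
  have h1 := AllC.of_Ev (A := A) (ofCT (rx_num hA sq))
  have h2 := AllC.of_Ev (A := A) (ofCT (rx_V A sq s))
  have h3 := AllC.of_Ev (A := A) (ofCT (rx_e A sl s (c := 800) (by norm_num)))
  have h8 := AllC.of_Ev (A := A) (ofCT (rx_num hA sl))
  have h4 := AllC.of_Ev (A := A) (rn_dead A sq s)
  have h6 := nS_all A ka
  have h7 := AllC.of_Ev (A := A) (ofCT (CT.n_big A (sq + 21) 1))
  refine (((h1.and h2).and (h3.and h4)).and ((h6.and h7).and (h8.and (AllC.all fun C hC => hC)))).mono fun C hh => ?_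
  obtain ⟨⟨⟨g1, g2⟩, g3, g4⟩, ⟨g6, g7⟩, g8, hCA⟩ := hh
  have hL := C.hL
  have e1 : C.N1 = pw C.Lam (c1F A C.c0) := by
    rw [← hCA]
    rfl
  have e2 : C.p.X0 = pw C.Lam (cXF A C.c0) := by
    rw [← hCA]
    rfl
  have e3 : C.n = pw C.Lam C.c0 := rfl
  obtain ⟨a1, a2, a3, a4, a5, a6, a7, a8⟩ := g1
  rw [← e3, ← e1, ← e2] at a8
  rw [← e3] at a1 a3 a5 a7
  have hX : 0 ≤ C.p.X0 := by
    rw [e2]
    exact (CT.pw_pos hL _).le
  have l0 := lr_pos hL sl C.c0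
  have l1 := lr_pos hL sq C.c0
  have l2 : lr C.Lam sl C.c0 ≤ lr C.Lam sq C.c0 :=
    mul_le_mul_of_nonneg_left (CT.ix_anti hL (by omega)) (CT.pw_pos hL _).le
  have hN0 : 0 < C.N1 := zero_lt_one.trans_le C.N11
  have n2 : C.n ^ 2 ≤ (kx C : ℝ) := Nat.le_ceil _
  have n3 : (kx C : ℝ) ≤ 2 * C.n ^ 2 := by
    have h7 := (Nat.ceil_lt_add_one (show (0 : ℝ) ≤ C.n ^ 2 by positivity)).le
    have h8 : (1 : ℝ) ≤ C.n ^ 2 := by nlinarith
    have h9 : (kx C : ℝ) ≤ C.n ^ 2 + 1 := h7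
    linarith
  have hM : 0 ≤ 3 * Real.exp C.p.X0 := by positivity
  have lL := log_al C
  refine ⟨fun eta he => ⟨Cst_of (Lam := C.Lam) a1 hM a3 (lL.trans a4) a5 (by linarith) (by linarith) n2, ?_⟩, g8.2.1, g2,
    fun b => ?_, ?_, ?_⟩
  · refine rx_y2 hL hs ?_ he
    refine le_trans (ELr_le C.h a1 C.N11 hM lL (by linarith) (by linarith) (by linarith) a6 n2 n3 (log_Z C hX)) (le_trans ?_ a8)
    have hn0 : 0 < C.n := by linarith
    refine add_le_add (div_le_div_of_nonneg_right ?_ hn0.le) (div_le_div_of_nonneg_right ?_ hN0.le) <;> linarith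
  · refine g2 _ ?_
    have q1 := g6 b
    have q2 : 6 * MVN.pe C.Lam ka C.c0 + 1 ≤ pw C.Lam C.c0 * ix C.Lam (sq + 21) := by
      have e4 : MVN.pe C.Lam ka C.c0 = pw C.Lam C.c0 * ix C.Lam ka := by
        unfold MVN.pe CT.ix
        rw [div_eq_mul_inv]
      have b1 : 16 * ix C.Lam ka ≤ ix C.Lam (sq + 22) := by
        have c1 : 4 ^ 2 * ix C.Lam ka ≤ ix C.Lam (sq + 22) := CT.fin hL (CT.cst hL 2 le_rfl) (by omega)
        norm_num at c1
        exact c1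
      have b2 := mul_le_mul_of_nonneg_left b1 (CT.pw_pos hL C.c0).le
      have b3 := CT.four_ix hL (CT.pw_pos hL C.c0).le (sq + 21)
      rw [show sq + 21 + 1 = sq + 22 by ring] at b3
      have b5 : 4 ≤ pw C.Lam C.c0 * ix C.Lam (sq + 21) := by
        refine le_trans ?_ g7
        have c1 : (0 : ℝ) ≤ (c1F A C.c0 : ℝ) := Nat.cast_nonneg _
        have c2 : (0 : ℝ) ≤ (C.c0 : ℝ) := Nat.cast_nonneg _
        push_cast
        nlinarith
      have b6 : 0 ≤ pw C.Lam C.c0 * ix C.Lam ka := mul_nonneg (CT.pw_pos hL _).le (ix_nn hL _)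
      have b7 : pw C.Lam C.c0 * (16 * ix C.Lam ka) = 16 * (pw C.Lam C.c0 * ix C.Lam ka) := by ring
      clear a8 g3 g4 g8
      rw [e4]
      rw [b7] at b2
      linarith
    calc 1 + C.NS ka b ≤ 1 + Real.exp (6 * MVN.pe C.Lam ka C.c0) := by linarith
      _ ≤ Real.exp (6 * MVN.pe C.Lam ka C.c0 + 1) := by
        rw [Real.exp_add]
        have b1 := Real.one_le_exp (show 0 ≤ 6 * MVN.pe C.Lam ka C.c0 by
          have := C.pe_nn ka
          positivity)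
        have b2 : (2 : ℝ) ≤ Real.exp 1 := by
          have := Real.add_one_le_exp (1 : ℝ)
          linarith
        nlinarith
      _ ≤ _ := Real.exp_le_exp.2 q2
  · rw [e1, e3]
    exact g3
  · rw [hCA]
    exact g4

/-- the class masses at most `4^8 x^(-2 sq)` -/
def HmXC (C : Ctx) (ka : ℕ) (b : Fin 3) (fr : Option (Fin 3)) (c : KC) (κ : Fin 10) (o : Option (Fin 3)) (sq sl : ℕ) : Prop :=
  HmX C ka (2 * lr C.Lam sl C.c0 + 3) b fr c κ o (4 ^ 8 * ix C.Lam (2 * sq))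

/-- **`AF v`** : the a-free ends of the lives of the exact vertex -/
theorem afX_all {A : ℕ} (hA : 80 ≤ A) (ka sq sl s : ℕ) (hs : 20 ≤ sq) (hsl : sq ≤ sl) (hka : sq + 24 ≤ ka) : AllC A (fun C => ∀ (b : Fin 3)
    (fr : Option (Fin 3)) (c : KC) (κ : Fin 10) (o : Option (Fin 3)) (R : ℕ → C.O → Prop), HmXC C ka b fr c κ o sq sl →
    SubX C ka b fr c κ o R → ∀ E : ℕ → C.O → Prop, (∀ q w, E q w → AFX C ka b q w) →
    ∑ q ∈ range (5 * C.T), C.tb.Ps.Pr (fun w => E q w ∧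
        ix C.Lam sq < C.tb.Ps.ce (sgt C.D {b} (TP.nn (q + 1))) (fun u => ind (R q u)) w) ≤ ix C.Lam s) := by
  refine (numX_all hA ka sq sl (s + 1) hs hsl hka).mono fun C hh b fr c κ o R hm hR E hE => ?_
  have hL := C.hL
  have h1 := end_raw C ka (lam := lr C.Lam sl C.c0) (L1 := lr C.Lam sq C.c0) (y := ix C.Lam sq) hh.l3 (ix_pos hL _) hm
    (hh.hy _ le_rfl) hE hR
  have h2 := ix4 hL s
  have h3 := hh.hN b
  rw [mul_add, mul_one] at h3
  have h4 := Real.exp_pos (-(lr C.Lam sq C.c0))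
  have h5 := ix_pos hL (s + 1)
  linarith [hh.he, hh.hd]

/-- **`RD v`, starts** : the new lives of the exact vertex, relation and sight at the state of the start -/
theorem newX_all {A : ℕ} (hA : 80 ≤ A) (ka sq sl s : ℕ) (hs : 20 ≤ sq) (hsl : sq ≤ sl) (hka : sq + 24 ≤ ka) : AllC A (fun C => ∀ (b : Fin 3)
    (fr : Option (Fin 3)) (c : KC) (κ : Fin 10) (o : Option (Fin 3)) (R : ℕ → C.O → Prop), HmXC C ka b fr c κ o sq sl →
    SubX C ka b fr c κ o R → ∀ E : ℕ → C.O → Prop, (∀ q w, E q w → MV.tauS (C.M ka) b q w = q) →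
    ∑ q ∈ range (5 * C.T + 1), C.tb.Ps.Pr (fun w => E q w ∧
        ix C.Lam sq < C.tb.Ps.ce (sgt C.D {b} (TP.nn q)) (fun u => ind (R q u)) w) ≤ ix C.Lam s) := by
  refine (numX_all hA ka sq sl (s + 1) hs hsl hka).mono fun C hh b fr c κ o R hm hR E hE => ?_
  have hL := C.hL
  have h1 := new_raw C ka (lam := lr C.Lam sl C.c0) (L1 := lr C.Lam sq C.c0) (y := ix C.Lam sq) hh.l3 (ix_pos hL _) hm
    (hh.hy _ le_rfl) hE hR
  have h2 := ix4 hL s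
  have h5 := ix_pos hL (s + 1)
  linarith [hh.he, hh.hN b]

/-- **`RD v`** in the words of the ends : sight and tables of `q + 1` -/
theorem rdX_all {A : ℕ} (hA : 80 ≤ A) (ka sq sl s : ℕ) (hs : 20 ≤ sq) (hsl : sq ≤ sl) (hka : sq + 24 ≤ ka) : AllC A (fun C => ∀ (b : Fin 3)
    (fr : Option (Fin 3)) (c : KC) (κ : Fin 10) (o : Option (Fin 3)) (R : ℕ → C.O → Prop), HmXC C ka b fr c κ o sq sl →
    SubX C ka b fr c κ o R → ∀ E : ℕ → C.O → Prop, (∀ q w, E q w → MV.tauS (C.M ka) b (q + 1) w = q + 1) →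
    ∑ q ∈ range (5 * C.T), C.tb.Ps.Pr (fun w => E q w ∧
        ix C.Lam sq < C.tb.Ps.ce (sgt C.D {b} (TP.nn (q + 1))) (fun u => ind (R (q + 1) u)) w) ≤ ix C.Lam s) := by
  refine (newX_all hA ka sq sl s hs hsl hka).mono fun C hh b fr c κ o R hm hR E hE => ?_
  have h1 := hh b fr c κ o R hm hR (fun q w => 0 < q ∧ E (q - 1) w) (fun q w h2 => by
    have h3 := hE (q - 1) w h2.2
    rwa [Nat.sub_add_cancel h2.1] at h3)
  rw [Finset.sum_range_succ'] at h1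
  have h2 : ∀ q ∈ range (5 * C.T), C.tb.Ps.Pr (fun w => E q w ∧
      ix C.Lam sq < C.tb.Ps.ce (sgt C.D {b} (TP.nn (q + 1))) (fun u => ind (R (q + 1) u)) w) ≤
      C.tb.Ps.Pr (fun w => (0 < q + 1 ∧ E (q + 1 - 1) w) ∧
        ix C.Lam sq < C.tb.Ps.ce (sgt C.D {b} (TP.nn (q + 1))) (fun u => ind (R (q + 1) u)) w) := fun q _ =>
    C.tb.Ps.Pr_mono fun w _ g => ⟨⟨Nat.succ_pos q, g.1⟩, g.2⟩
  have h3 := C.tb.Ps.Pr_nonneg (fun w => (0 < 0 ∧ E (0 - 1) w) ∧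
    ix C.Lam sq < C.tb.Ps.ce (sgt C.D {b} (TP.nn 0)) (fun u => ind (R 0 u)) w)
  linarith [Finset.sum_le_sum h2]

/-- **`FV v`** : any time -/
theorem finX_all {A : ℕ} (hA : 80 ≤ A) (ka sq sl s : ℕ) (hs : 20 ≤ sq) (hsl : sq ≤ sl) (hka : sq + 24 ≤ ka) : AllC A (fun C => ∀ (b : Fin 3)
    (fr : Option (Fin 3)) (c : KC) (κ : Fin 10) (o : Option (Fin 3)) (R : ℕ → C.O → Prop), HmXC C ka b fr c κ o sq sl →
    SubX C ka b fr c κ o R → ∀ n' ≤ 5 * C.T,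
    C.tb.Ps.Pr (fun w => ix C.Lam sq < C.tb.Ps.ce (sgt C.D {b} (TP.nn n')) (fun u => ind (R n' u)) w) ≤
      ix C.Lam s) := by
  refine (numX_all hA ka sq sl (s + 1) hs hsl hka).mono fun C hh b fr c κ o R hm hR n' hn' => ?_
  have hL := C.hL
  have h1 := fin_raw C ka (lam := lr C.Lam sl C.c0) (L1 := lr C.Lam sq C.c0) (y := ix C.Lam sq) hh.l3 (ix_pos hL _) hm
    (hh.hy _ le_rfl) hR hn'
  have h2 := ix4 hL s
  have h3 := hh.hN b
  have h5 := ix_pos hL (s + 1)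
  have h6 : 0 ≤ C.NS ka b := Finset.sum_nonneg fun _ _ => FP.Pr_nonneg _ _
  have h7 : Real.exp (-(lr C.Lam sq C.c0)) ≤ Real.exp (-(lr C.Lam sq C.c0)) * (1 + C.NS ka b) :=
    le_mul_of_one_le_right (Real.exp_pos _).le (by linarith)
  linarith [hh.he, hh.hd]

/-- **ANY EVENTS OF THE CLASSES** (tables of the life which runs at `q`, relation cut by `Alv`) -/
theorem anyX_all {A : ℕ} (hA : 80 ≤ A) (ka sq sl s : ℕ) (hs : 20 ≤ sq) (hsl : sq ≤ sl) (hka : sq + 24 ≤ ka) : AllC A (fun C => ∀ (b : Fin 3)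
    (fr : Option (Fin 3)) (c : KC) (κ : Fin 10) (o : Option (Fin 3)) (R : ℕ → C.O → Prop), HmXC C ka b fr c κ o sq sl →
    SubX C ka b fr c κ o R → ∀ E : ℕ → C.O → Prop, (∀ q ≤ 5 * C.T, Fac (XN C.tb C.v b q) (E q)) →
    ∑ q ∈ range (5 * C.T + 1), C.tb.Ps.Pr (E q) ≤ Real.exp (pw C.Lam C.c0 * ix C.Lam (sq + 21)) →
    ∑ q ∈ range (5 * C.T + 1), C.tb.Ps.Pr (fun w => E q w ∧
        ix C.Lam sq / 2 ≤ C.tb.Ps.ce (sgt C.D {b} (TP.nn q)) (fun u => ind (R q u ∧ Alv C.h C.v C.tb C.p q u)) w) ≤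
      ix C.Lam s) := by
  refine (numX_all hA ka sq sl (s + 1) hs hsl hka).mono fun C hh b fr c κ o R hm hR E hE hV => ?_
  have hL := C.hL
  have h1 := any_raw C ka (lam := lr C.Lam sl C.c0) (L1 := lr C.Lam sq C.c0) (y := ix C.Lam sq) hh.l3 (ix_pos hL _) hm
    (hh.hy _ le_rfl) hE hR
  have h2 := ix4 hL s
  have h3 := hh.hV _ hV
  have h5 := ix_pos hL (s + 1)
  linarith [hh.he]

/-- **THE CLASS MASSES FROM `R0G`** -/
theorem hmX_of (A ka : ℕ) (RR : CT.Rounds) (K : ℕ) : AllC A (fun C => ∀ c, CT.KcB RR C.Lam c → c.dH ≤ 1 → ∀ L r0,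
    CLM.R0G C.v C.h C.tb C.p (CLM.hf c) L r0 → ∀ (κ : Fin 10) (fr o : Option (Fin 3)) (b : Fin 3) (L' eta : ℝ), L' ≤ L →
    ix C.Lam K + CLM.bK r0 (CLM.hf c) κ ≤ eta → HmX C ka L' b fr c κ o eta) := by
  refine (CLM.cls_gall A ka RR K).mono fun C hh c hc hd L r0 hr κ fr o b L' eta hL he => ?_
  have hi := ix_pos C.hL K
  refine ⟨fun q hq w hw hg => ?_, fun q hq w hw hl => ?_⟩
  · refine ((hh c hc hd L r0 hr κ fr o q hq w hw).1 b fun _ => ?_).trans he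
    refine hg.trans ?_
    exact mul_le_mul_of_nonneg_right (Real.exp_le_exp.2 hL) (C.tb.Ps.m_nonneg _ _)
  · refine ((hh c hc hd L r0 hr κ fr o q hq w hw).2.2.2 hl b).trans ?_
    linarith

end

end Pool.Agent.GMH.RarC
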