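import Pool.Agent.GMH.OvlF
import Pool.Agent.GMH.RarC7

/-!
# GMH/OvlG (helper33): the rare states of the overlap (hypothesis `hRS` of `OvlF.ovl_F`)

* `cov_V` : the number of the covering events `Cov` is at most `exp (n x^(-(sl + 21)))`;
* `ovl_rs` : the rare states of the exact vertex at the covering events, from the rows of `GMH/RarC7`.
-/

set_option autoImplicit false
set_option linter.unusedSectionVars false

namespace Pool.Agent.GMH.OvlF

open Finset Pool.Agent.PWZ Pool.Agent.M3 Pool.Agent.GM Pool.Agent.GM.Harm Pool.Agent.GMH Pool.Agent.GMH.NZ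
open Pool.Agent.GMH.V3 Pool.Agent.GMH.MV8R Pool.Agent.GMH.OvlR
open Pool.Agent.GMH.TP Pool.Agent.GMH.TD Pool.Agent.GMH.Dy Pool.Agent.GMH.CK Pool.Agent.GMH.MVI
open Pool.Agent.GMH.UV (US Kd Seen tv bet NT)
open Pool.Agent.GMH.CX Pool.Agent.GMH.CTM Pool.Agent.GMH.AB Pool.Agent.GMH.TRF Pool.Agent.GMH.KF
open Pool.Agent.GMH.MV (tauS)
open Pool.Agent.GMH.CT (ix ix_pos)

noncomputable section

/-- the number of the covering events -/
theorem cov_V (A K s : ℕ) : CT.Ev (fun c0 Lam => 6 * pw Lam c0 * Lam / kxo K Lam c0 ≤ Real.exp (pw Lam c0 * ix Lam s)) := by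
  refine (CT.n_big A s (K + 11)).mono fun c0 Lam hL h => ?_
  have h1 : 6 * pw Lam c0 * Lam / kxo K Lam c0 ≤ pw Lam (2 * c0 + K + 11) := by
    unfold kxo
    rw [div_inv_eq_mul]
    have e : pw Lam (2 * c0 + K + 11) = pw Lam 2 * pw Lam c0 * pw Lam 1 * pw Lam (c0 + K + 8) := by
      rw [← CT.pw_add, ← CT.pw_add, ← CT.pw_add]
      congr 1
      omega
    rw [e]
    have a1 : (6 : ℝ) ≤ pw Lam 2 := by
      have := CT.pw_ge hL 2
      norm_num at this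
      linarith
    have a2 : Lam ≤ pw Lam 1 := CT.Lam_le hL
    have p0 := CT.pw_pos hL c0
    have p1 := CT.pw_pos hL (c0 + K + 8)
    have p2 := CT.pw_pos hL 2
    refine mul_le_mul_of_nonneg_right ?_ p1.le
    refine mul_le_mul (mul_le_mul_of_nonneg_right a1 p0.le) a2 (by linarith) (by positivity)
  refine h1.trans ((MVN.pw_exp hL _).trans (Real.exp_le_exp.2 (le_trans ?_ h)))
  push_cast
  have c0' : (0 : ℝ) ≤ c0 := Nat.cast_nonneg _
  have c1' : (0 : ℝ) ≤ (c1F A c0 : ℝ) := Nat.cast_nonneg _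
  have k0 : (0 : ℝ) ≤ K := Nat.cast_nonneg _
  have h2 : (2 * (c0 : ℝ) + K + 11) ≤ ((K : ℝ) + 11) * ((c1F A c0 : ℝ) + c0 + 1) * 2 := by
    nlinarith [mul_nonneg k0 c0', mul_nonneg k0 c1']
  calc (2 * (c0 : ℝ) + K + 11) * Lam ≤ (((K : ℝ) + 11) * ((c1F A c0 : ℝ) + c0 + 1) * 2) * Lam :=
        mul_le_mul_of_nonneg_right h2 (by linarith)
    _ = _ := by ring

/-- **THE RARE STATES AT THE COVERING EVENTS** -/
theorem ovl_rs {A : ℕ} (hA : 80 ≤ A) (ka sq : ℕ) (hs : 20 ≤ sq) (hka : sq + 24 ≤ ka) : AllC A (fun C => ∀ (i b : Fin 3)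
    (fr : Option (Fin 3)) (c : KC) (κ : Fin 10) (o : Option (Fin 3)) (R : ℕ → C.O → Prop),
    RarC.HmXC C ka b fr c κ o sq → RarC.SubX C ka b fr c κ o R →
    ∑ r ∈ range (5 * C.T), C.tb.Ps.Pr (fun w => Cov C.tb C.v (kxo 44 C.Lam C.c0) i r w ∧
      ix C.Lam sq / 2 < C.tb.Ps.ce (sgt C.D {b} (TP.nn r)) (fun u => ind (R r u ∧ Alv C.h C.v C.tb C.p r u)) w) ≤
      ix C.Lam 44) := by
  refine ((RarC.anyX_all hA ka sq 44 hs hka).and (of_CT (cov_V A 44 (sq + 21)))).mono fun C ⟨h1, h2⟩ i b fr c κ o R hm hR => ?_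
  have hL := C.hL
  have e5 : ∀ w, ¬ Cov C.tb C.v (kxo 44 C.Lam C.c0) i (5 * C.T) w := fun w hh => by
    have := hh.1
    omega
  have h3 : ∑ q ∈ range (5 * C.T + 1), C.tb.Ps.Pr (Cov C.tb C.v (kxo 44 C.Lam C.c0) i q) ≤
      Real.exp (pw C.Lam C.c0 * ix C.Lam (sq + 21)) := by
    rw [Finset.sum_range_succ]
    have e6 : C.tb.Ps.Pr (Cov C.tb C.v (kxo 44 C.Lam C.c0) i (5 * C.T)) = 0 := by
      unfold FP.Pr
      rw [C.tb.Ps.E_congr (g := fun _ => 0) fun w _ => ind_not (e5 w), C.tb.Ps.E_const]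
    rw [e6, add_zero]
    exact (cov_cnt (h := C.h) C.n1 C.N11 C.R C.H C.tb i (kxo_pos hL 44 C.c0)).trans h2
  have h4 := h1 b fr c κ o R hm hR (fun q w => Cov C.tb C.v (kxo 44 C.Lam C.c0) i q w)
    (fun q _ x w e => propext (Cov_fac C.tb _ i le_rfl (Prod.ext_iff.1 e).2)) h3
  refine le_trans ?_ h4
  rw [Finset.sum_range_succ]
  refine le_add_of_le_of_nonneg (Finset.sum_le_sum fun r _ => C.tb.Ps.Pr_mono fun w _ hh => ⟨hh.1, hh.2.le⟩)
    (FP.Pr_nonneg _ _)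

end

end Pool.Agent.GMH.OvlF
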