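import Pool.Agent.GMH.HotNS
import Pool.Agent.GMH.BitDev

/-!
# GMH.P2S: two rows of one exact point, the second one active, RELATIVE bound (helper65)

`|K| = 3`, vertices `b`, `c`, `d`; state saturated (`Bk`); `b` = common exact vertex with its letter.  `Y` = top of `{b, c}`,
`X` = top of `{b, d}`, `act` = event of (hidden point, points `b`, `d`, node, label of the face `{b, d}`).
* `p2_dvS`, **`p2S`** : as `P2kl.p2_dv`, `P2kl.p2` with tests which vanish if the letter of the second row is `none`: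
  `E 1_(Yf ≠ none) log (P(F | Z, Y) / P(F | Z)) ≤ 2 (dl + Lam + 3 π) / m + π m R0^2 / (2 k) + 2 ep π`, `π = P(Yf ≠ none)`;
* `p2S_cls` : one class; `row_dp` : data processing at a row; **`p2s_lin`** : mean over the classes of an event `G`, linear form.
The point of the form: all terms but `dl` carry the mass of `act`, and `dl` is over the price of one vertex.
-/

set_option autoImplicit false
set_option linter.unusedSectionVars false
set_option linter.unusedVariables false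

namespace Pool.Agent.GMH

open Finset Pool.Agent.PWZ Pool.Agent.M3 Pool.Agent.GM Pool.Agent.GM.Harm

section abs

variable {Om Th : Type*} [Fintype Om] [Fintype Th] {α ξ ι κ ζ : Type*}

/-- **TEST BY SAMPLING**, tests which vanish at `none` -/
theorem p2_dvS {Q : FP Om} {R : FP Th} {A : Om → α} {X : Om → ξ} {g : Om → Th → ξ} {Yl : Om → ι} {Yf : Om → Option κ}
    {psi : ι → Option κ → ξ → ℝ} {R0 m dl Lam : ℝ} {k : ℕ} (hk : 0 < k) (hm : 0 < m)
    (hS : ∀ (f : ξ → ℝ) v, Q.p v ≠ 0 → R.E (fun θ => f (g v θ)) = Q.ce A (fun u => f (X u)) v)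
    (hI : ∀ f : ι → Option κ → ξ → ℝ, Q.E (fun v => f (Yl v) (Yf v) (X v)) =
      Q.E (fun v => Q.ce A (fun u => f (Yl v) (Yf v) (X u)) v))
    (hpsi : ∀ l f x, |psi l f x| ≤ R0) (hp0 : ∀ l x, psi l none x = 0) (hkR : m * R0 ≤ 2 * k)
    (htail : ∀ l f (u : ℝ), 0 ≤ u → Q.Pr (fun v => u ≤ Q.ce A (fun w => psi l (some f) (X w)) v) ≤ Real.exp (1 - m * u))
    (hd : (FP.pr Q (FPpi fun _ : Fin k => R)).I (fun v => Yl v.1) (fun v i => g v.1 (v.2 i)) (fun _ => ()) ≤ dl)
    (hL : Q.Hc Yf Yl ≤ Lam) :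
    Q.E (fun v => psi (Yl v) (Yf v) (X v)) ≤ 2 * (dl + Lam + 3 * Q.Pr (fun v => Yf v ≠ none)) / m +
      Q.Pr (fun v => Yf v ≠ none) * (m * R0 ^ 2 / (2 * k)) := by
  classical
  set W := FP.pr Q (FPpi fun _ : Fin k => R) with hW
  set Xk : Om × (Fin k → Th) → (Fin k → ξ) := fun v i => g v.1 (v.2 i) with hXk
  set pi0 := Q.Pr (fun v => Yf v ≠ none) with hpi0
  have hk0 : (0 : ℝ) < k := by exact_mod_cast hk
  set s : ℝ := m / (2 * k) with hs
  have hs0 : 0 < s := by positivity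
  have hsR : s * R0 ≤ 1 := by
    rw [hs, div_mul_eq_mul_div, div_le_one (by positivity)]
    exact hkR
  have hks : k * s = m / 2 := by rw [hs]; field_simp
  -- the statistic
  set T : Om × (Fin k → Th) → Option κ × ι := fun v => (Yf v.1, Yl v.1) with hT
  set st : Option κ × ι → Om × (Fin k → Th) → ℝ := fun y v => ∑ i, s * psi y.2 y.1 (Xk v i) with hst
  have hDV := klc_dv_row (FP.Ac.refl W) Xk (fun _ => ()) T (psi := st)
    (fun r v w hvw => by
      have h1 : Xk v = Xk w := (Prod.mk.injEq _ _ _ _ ▸ hvw : _ ∧ _).1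
      show ∑ i, s * psi r.2 r.1 (Xk v i) = ∑ i, s * psi r.2 r.1 (Xk w i)
      rw [h1])
  -- left side
  have hl : W.E (fun w => st (T w) w) = m / 2 * Q.E (fun v => psi (Yl v) (Yf v) (X v)) := by
    rw [hW, FP.pr_E, hI psi, ← FP.E_smul]
    refine Q.E_congr fun v hv => ?_
    show (FPpi fun _ : Fin k => R).E (fun θ => ∑ i, s * psi (Yl v) (Yf v) (g v (θ i))) = _
    rw [FP.E_sum]
    have h1 : ∀ i : Fin k, (FPpi fun _ : Fin k => R).E (fun θ => s * psi (Yl v) (Yf v) (g v (θ i))) =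
        s * Q.ce A (fun u => psi (Yl v) (Yf v) (X u)) v := by
      intro i
      rw [FP.E_smul, FPpi_E (fun _ : Fin k => R) i (fun θ => psi (Yl v) (Yf v) (g v θ)), hS _ v hv]
    rw [Finset.sum_congr rfl fun i _ => h1 i, Finset.sum_const, Finset.card_univ, Fintype.card_fin, nsmul_eq_mul,
      ← mul_assoc, hks]
  -- no relative entropy
  have hk0' : W.klc W Xk (fun _ => ()) = 0 := klc_self W _ _
  -- the information
  have hi : W.I Xk T (fun _ => ()) ≤ dl + Lam := by
    rw [W.I_comm, hT, W.I_chain]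
    have h1 := W.I_le_Hc (fun v => Yf v.1) Xk (fun w => (Yl w.1, ()))
    have h2 : W.Hc (fun v => Yf v.1) (fun w => (Yl w.1, ())) = Q.Hc Yf Yl := by
      have h3 : W.Hc (fun v => Yf v.1) (fun w => (Yl w.1, ())) = W.Hc (fun v => Yf v.1) (fun w => Yl w.1) :=
        W.Hc_congr_right _ (Fac.fst _ _) ((Fac.refl _).prod (Fac.const _ ()))
      rw [h3]
      exact lift_Hc Q _ Yf Yl
    linarith
  -- right side
  have hr : W.E (fun w => Real.log (W.ce (fun _ => ()) (fun v => Real.exp (st (T w) v)) w)) ≤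
      (3 + k * (s ^ 2 * R0 ^ 2)) * pi0 := by
    have h00 : pi0 = W.Pr (fun v => Yf v.1 ≠ none) := (lift_Pr Q _ fun w => Yf w ≠ none).symm
    rw [h00]
    unfold FP.Pr
    rw [← FP.E_smul]
    refine W.E_mono fun w hw => ?_
    have h1 : ∀ y, W.ce (fun _ => ()) (fun v => Real.exp (st y v)) w = W.E (fun v => Real.exp (st y v)) := by
      intro y
      unfold FP.ce FP.m
      simp only [ind_of, one_mul, FP.E_const, div_one]
    rw [h1]
    by_cases hf0 : Yf w.1 = none
    · have h2 : ∀ v, Real.exp (st (T w) v) = 1 := by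
        intro v
        have h3 : st (T w) v = 0 := by
          show ∑ i, s * psi (Yl w.1) (Yf w.1) (Xk v i) = 0
          refine Finset.sum_eq_zero fun i _ => ?_
          rw [hf0, hp0, mul_zero]
        rw [h3, Real.exp_zero]
      simp only [h2, FP.E_const, Real.log_one]
      rw [ind_not (fun hh => hh hf0), mul_zero]
    · rw [ind_of hf0, mul_one]
      obtain ⟨f, hf⟩ := Option.ne_none_iff_exists'.1 hf0
      have hTw : T w = (some f, Yl w.1) := by
        show (Yf w.1, Yl w.1) = _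
        rw [hf]
      rw [hTw]
      set y : Option κ × ι := (some f, Yl w.1) with hy
      have h2 : W.E (fun v => Real.exp (st y v)) ≤ Real.exp (3 + k * (s ^ 2 * R0 ^ 2)) := by
        rw [hW, FP.pr_E]
        have h3 : ∀ v, Q.p v ≠ 0 → (FPpi fun _ : Fin k => R).E (fun θ => Real.exp (st y (v, θ))) ≤
            Real.exp (k * (s ^ 2 * R0 ^ 2)) * Real.exp (m / 2 * Q.ce A (fun u => psi y.2 y.1 (X u)) v) := by
          intro v hv
          have h4 : (FPpi fun _ : Fin k => R).E (fun θ => Real.exp (st y (v, θ))) =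
              (FPpi fun _ : Fin k => R).E (fun θ => ∏ i, Real.exp (s * psi y.2 y.1 (g v (θ i)))) := by
            refine FP.E_congr _ fun θ _ => ?_
            rw [← Real.exp_sum]
          rw [h4, FPpi_prod (fun _ : Fin k => R) (fun _ θ => Real.exp (s * psi y.2 y.1 (g v θ)))]
          rw [Finset.prod_const, Finset.card_univ, Fintype.card_fin]
          have h5 := hS (fun x => Real.exp (s * psi y.2 y.1 x)) v hv
          rw [h5]
          have h6 := ce_exp_le Q (A := A) (f := fun u => psi y.2 y.1 (X u)) hs0.le (fun u => hpsi _ _ _) hsR hv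
          have h7 : 0 ≤ Q.ce A (fun u => Real.exp (s * psi y.2 y.1 (X u))) v :=
            Q.ce_nonneg (fun _ _ => (Real.exp_pos _).le) v
          refine (pow_le_pow_left₀ h7 h6 k).trans (le_of_eq ?_)
          rw [← Real.exp_nat_mul, ← Real.exp_add]
          congr 1
          rw [mul_add, ← mul_assoc, hks]
          ring
        refine (Q.E_mono h3).trans ?_
        rw [FP.E_smul, Real.exp_add, mul_comm (Real.exp 3)]
        refine mul_le_mul_of_nonneg_left ?_ (Real.exp_pos _).le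
        refine exp_mom Q fun i => ?_
        have h4 := htail (Yl w.1) f (2 * i / m) (by positivity)
        have h5 : Q.Pr (fun v => (i : ℝ) ≤ m / 2 * Q.ce A (fun u => psi y.2 y.1 (X u)) v) ≤
            Q.Pr (fun v => 2 * i / m ≤ Q.ce A (fun w' => psi (Yl w.1) (some f) (X w')) v) := by
          refine Q.Pr_mono fun v _ hv => ?_
          rw [div_le_iff₀ hm]
          have hv' : (i : ℝ) ≤ m / 2 * Q.ce A (fun u => psi (Yl w.1) (some f) (X u)) v := hv
          linarith
        refine h5.trans (h4.trans (le_of_eq ?_))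
        congr 1
        field_simp
      have h0 : 0 < W.E (fun v => Real.exp (st y v)) := by
        have h8 : 0 < W.p w * Real.exp (st y w) := mul_pos (lt_of_le_of_ne (W.nn w) (Ne.symm hw)) (Real.exp_pos _)
        refine lt_of_lt_of_le h8 ?_
        exact Finset.single_le_sum (f := fun v => W.p v * Real.exp (st y v))
          (fun v _ => mul_nonneg (W.nn v) (Real.exp_pos _).le) (mem_univ w)
      rw [← Real.log_exp (3 + k * (s ^ 2 * R0 ^ 2))]
      exact Real.log_le_log h0 h2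
  rw [hl, hk0'] at hDV
  have hfin : m / 2 * Q.E (fun v => psi (Yl v) (Yf v) (X v)) ≤ dl + Lam + (3 + k * (s ^ 2 * R0 ^ 2)) * pi0 := by linarith
  have h9 : k * (s ^ 2 * R0 ^ 2) = m / 2 * (m * R0 ^ 2 / (2 * k)) := by
    rw [hs]
    field_simp
  rw [h9] at hfin
  have h10 : dl + Lam + (3 + m / 2 * (m * R0 ^ 2 / (2 * k))) * pi0 =
      m / 2 * (2 * (dl + Lam + 3 * pi0) / m + pi0 * (m * R0 ^ 2 / (2 * k))) := by
    field_simp
    ring
  rw [h10] at hfin
  exact le_of_mul_le_mul_left hfin (by positivity)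

/-- **TWO ROWS OF ONE EXACT POINT, relative to the activity of the second one** -/
theorem p2S {Q : FP Om} {R : FP Th} {A : Om → α} {F : Om → κ} {Z : Om → ζ} {g : Om → Th → κ × ζ} {Yl : Om → ι}
    {Yf : Om → Option ξ} {R0 m dl Lam ep : ℝ} {k : ℕ} (hk : 0 < k) (hm : 0 < m) (hep : 0 < ep) (hep2 : ep ≤ 1 / 2)
    (hR0 : Real.log (1 / ep) ≤ R0) (hthick : ∀ w, Q.p w ≠ 0 → Q.m Z w ≤ Real.exp R0 * Q.m (fun v => (F v, Z v)) w)
    (hS : ∀ (f : κ × ζ → ℝ) v, Q.p v ≠ 0 → R.E (fun θ => f (g v θ)) = Q.ce A (fun u => f (F u, Z u)) v)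
    (hI : ∀ f : ι → Option ξ → κ × ζ → ℝ, Q.E (fun v => f (Yl v) (Yf v) (F v, Z v)) =
      Q.E (fun v => Q.ce A (fun u => f (Yl v) (Yf v) (F u, Z u)) v))
    (hkR : m * R0 ≤ 2 * k)
    (hsat : ∀ (S : Om → Prop) (psi : Om → ℝ), Fac A S → Q.Pr S ≠ 0 → Fac (fun w => (F w, Z w)) psi →
      (∀ w, Q.p w ≠ 0 → Q.ce Z (fun v => Real.exp (psi v)) w ≤ 1) →
      m * (Q.cond S).E psi ≤ Real.log (1 / Q.Pr S) + 1)
    (hd : (FP.pr Q (FPpi fun _ : Fin k => R)).I (fun v => Yl v.1) (fun v i => g v.1 (v.2 i)) (fun _ => ()) ≤ dl)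
    (hL : Q.Hc Yf Yl ≤ Lam) :
    Q.E (fun w => ind (Yf w ≠ none) * Real.log (rat Q F Z (fun v => (Yl v, Yf v)) (Yl w, Yf w) w)) ≤
      2 * (dl + Lam + 3 * Q.Pr (fun v => Yf v ≠ none)) / m + Q.Pr (fun v => Yf v ≠ none) * (m * R0 ^ 2 / (2 * k)) +
        2 * ep * Q.Pr (fun v => Yf v ≠ none) := by
  classical
  have hR00 : 0 ≤ R0 := by
    refine le_trans (Real.log_nonneg ?_) hR0
    rw [le_div_iff₀ hep]; linarith
  set X : Om → κ × ζ := fun w => (F w, Z w) with hX
  set Y : Om → ι × Option ξ := fun w => (Yl w, Yf w) with hY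
  set ys : ι × Option ξ → Om → ℝ := fun y v => (1 - ep) * rat Q F Z Y y v + ep with hys
  set ps : ι × Option ξ → Om → ℝ := fun y v => if y.2 = none then 0 else min (Real.log (ys y v)) R0 with hps
  have hys0 : ∀ y v, ep ≤ ys y v := fun y v => by
    have h1 := rat_nonneg Q F Z Y y v
    have h2 : 0 ≤ (1 - ep) * rat Q F Z Y y v := mul_nonneg (by linarith) h1
    show ep ≤ (1 - ep) * rat Q F Z Y y v + ep
    linarith
  have hfac : ∀ y, Fac X (ps y) := fun y v w h => by
    show (if y.2 = none then 0 else min (Real.log ((1 - ep) * rat Q F Z Y y v + ep)) R0) =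
      if y.2 = none then 0 else min (Real.log ((1 - ep) * rat Q F Z Y y w + ep)) R0
    rw [rat_fac Q F Z Y y v w h]
  have hb : ∀ y v, |ps y v| ≤ R0 := by
    intro y v
    by_cases hy : y.2 = none
    · show |if y.2 = none then (0 : ℝ) else _| ≤ R0
      rw [if_pos hy, abs_zero]
      exact hR00
    · show |if y.2 = none then (0 : ℝ) else _| ≤ R0
      rw [if_neg hy, abs_le]
      refine ⟨?_, min_le_right _ _⟩
      refine le_min ?_ (by linarith)
      have h1 := Real.log_le_log hep (hys0 y v)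
      rw [one_div, Real.log_inv] at hR0
      linarith
  have hnorm : ∀ y w, y.2 ≠ none → Q.p w ≠ 0 → Q.ce Z (fun v => Real.exp (ps y v)) w ≤ 1 := by
    intro y w hy hw
    have h1 : Q.ce Z (fun v => Real.exp (ps y v)) w ≤ Q.ce Z (ys y) w := by
      refine Q.ce_mono (fun v _ => ?_) w
      have h0 : ps y v = min (Real.log (ys y v)) R0 := if_neg hy
      rw [h0]
      have h2 : Real.exp (min (Real.log (ys y v)) R0) ≤ Real.exp (Real.log (ys y v)) := Real.exp_le_exp.2 (min_le_left _ _)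
      rwa [Real.exp_log (lt_of_lt_of_le hep (hys0 y v))] at h2
    refine h1.trans ?_
    have h3 : Q.ce Z (ys y) w = (1 - ep) * Q.ce Z (rat Q F Z Y y) w + ep := by
      rw [hys]
      rw [Q.ce_add Z (fun v => (1 - ep) * rat Q F Z Y y v) (fun _ => ep) w, Q.ce_smul, Q.ce_const Z ep hw]
    rw [h3]
    have h4 := mul_le_mul_of_nonneg_left (rat_norm Q F Z Y y hw) (show 0 ≤ 1 - ep by linarith)
    linarith
  choose f' hf1 hf2 using fun y => fac_fn (hfac y) hR00 (hb y)
  set g' : ι → Option ξ → κ × ζ → ℝ := fun l f x => if f = none then 0 else f' (l, f) x with hg'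
  have key := p2_dvS (Q := Q) (R := R) (A := A) (X := X) (g := g) (Yl := Yl) (Yf := Yf) (psi := g')
    (R0 := R0) (m := m) (dl := dl) (Lam := Lam) hk hm hS hI (fun l f x => ?_) (fun l x => if_pos rfl) hkR ?_ hd hL
  · have h1 : Q.E (fun w => ind (Yf w ≠ none) * Real.log (rat Q F Z Y (Y w) w)) - 2 * ep * Q.Pr (fun v => Yf v ≠ none) ≤
        Q.E (fun v => g' (Yl v) (Yf v) (X v)) := by
      unfold FP.Pr
      rw [← FP.E_smul, ← FP.E_sub]
      refine Q.E_mono fun w hw => ?_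
      by_cases hf0 : Yf w = none
      · rw [ind_not (fun hh => hh hf0), zero_mul, mul_zero, sub_zero]
        show 0 ≤ if Yf w = none then (0 : ℝ) else _
        rw [if_pos hf0]
      · rw [ind_of hf0, one_mul, mul_one]
        have e0 : g' (Yl w) (Yf w) (X w) = min (Real.log (ys (Y w) w)) R0 := by
          show (if Yf w = none then (0 : ℝ) else f' (Y w) (X w)) = _
          rw [if_neg hf0, hf1 (Y w) w]
          exact if_neg hf0
        rw [e0]
        have a := Q.m_pos (fun w => (F w, Y w, Z w)) hw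
        have b := Q.m_pos (fun w => (Y w, Z w)) hw
        have c := Q.m_pos (fun w => (F w, Z w)) hw
        have d := Q.m_pos Z hw
        have hpos : 0 < rat Q F Z Y (Y w) w := by
          rw [rat_true Q F Z Y hw]
          exact div_pos (mul_pos a d) (mul_pos c b)
        have hle : rat Q F Z Y (Y w) w ≤ Real.exp R0 := by
          rw [rat_true Q F Z Y hw, div_le_iff₀ (mul_pos c b)]
          have h3 : Q.m (fun w => (F w, Y w, Z w)) w ≤ Q.m (fun w => (Y w, Z w)) w :=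
            Q.m_anti (Fac.snd F fun w => (Y w, Z w)) w
          calc Q.m (fun w => (F w, Y w, Z w)) w * Q.m Z w ≤
              Q.m (fun w => (Y w, Z w)) w * (Real.exp R0 * Q.m (fun v => (F v, Z v)) w) :=
                mul_le_mul h3 (hthick w hw) d.le b.le
            _ = _ := by ring
        have h1ep : 0 < 1 - ep := by linarith
        show Real.log (rat Q F Z Y (Y w) w) - 2 * ep ≤ min (Real.log ((1 - ep) * rat Q F Z Y (Y w) w + ep)) R0
        refine le_min ?_ ?_
        · have h3 : Real.log ((1 - ep) * rat Q F Z Y (Y w) w) ≤ Real.log ((1 - ep) * rat Q F Z Y (Y w) w + ep) :=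
            Real.log_le_log (mul_pos h1ep hpos) (by linarith)
          rw [Real.log_mul h1ep.ne' hpos.ne'] at h3
          have h4 : - (2 * ep) ≤ Real.log (1 - ep) := by
            have h5 := Real.one_sub_inv_le_log_of_pos h1ep
            have h6 : (1 - ep)⁻¹ ≤ 1 + 2 * ep := by
              rw [inv_eq_one_div, div_le_iff₀ h1ep]
              nlinarith
            linarith
          linarith
        · have h3 := Real.log_le_log hpos hle
          rw [Real.log_exp] at h3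
          linarith
    have h2 := h1.trans key
    have h3 : Q.E (fun w => ind (Yf w ≠ none) * Real.log (rat Q F Z (fun v => (Yl v, Yf v)) (Yl w, Yf w) w)) =
      Q.E (fun w => ind (Yf w ≠ none) * Real.log (rat Q F Z Y (Y w) w)) := rfl
    rw [h3]
    linarith
  · show |if f = none then (0 : ℝ) else f' (l, f) x| ≤ R0
    by_cases hf : f = none
    · rw [if_pos hf, abs_zero]; exact hR00
    · rw [if_neg hf]; exact hf2 (l, f) x
  · intro l f u _
    have h1 : Q.ce A (fun w => g' l (some f) (X w)) = Q.ce A (ps (l, some f)) := by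
      have : (fun w => g' l (some f) (X w)) = ps (l, some f) := funext fun w => by
        show (if (some f : Option ξ) = none then (0 : ℝ) else f' (l, some f) (X w)) = _
        rw [if_neg (Option.some_ne_none f)]
        exact hf1 (l, some f) w
      rw [this]
    show Q.Pr (fun v => u ≤ Q.ce A (fun w => g' l (some f) (X w)) v) ≤ _
    rw [h1]
    exact tail_of_sat (fun S hA h0 => hsat S (ps (l, some f)) hA h0 (hfac (l, some f))
      (fun w hw => hnorm (l, some f) w (Option.some_ne_none f) hw)) hm.le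

/-- the integrand at the rows of an event -/
theorem row_key {P : FP Om} {κ' ρ ζ' : Type*} {W : Om → κ'} {Z : Om → ζ'} {S : Om → Prop} (hS : Fac W S)
    (hWZ : Fac W Z) (h0 : P.Pr S ≠ 0) (V : Om → ρ) :
    P.E (fun w => ind (S w) * Real.log (P.pv W V w (V w) / P.pv Z V w (V w))) =
      P.Pr S * ((P.cond S).klc P V Z + (P.cond S).I V W Z) := by
  set Q := P.cond S with hQ
  have hac : Q.Ac P := FP.cond_ac _ _
  rw [← FP.Pr_mul_cond_E h0, ← E_klp hac hWZ]
  congr 1
  rw [← Q.E_ce W (fun w => Real.log (P.pv W V w (V w) / P.pv Z V w (V w)))]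
  refine Q.E_congr fun w hw => ?_
  rw [ce_log_klp hWZ w]
  unfold FP.ce
  congr 1
  refine Q.E_congr fun v hv => ?_
  show ind (W v = W w) * Real.log (P.pv W V v (V v) / P.pv Z V v (V v)) =
    ind (W v = W w) * Real.log (Q.pv W V v (V v) / P.pv Z V v (V v))
  rw [hQ, cond_pv hS h0 V (cond_supp h0 hv).1]

/-- **data processing at a row** -/
theorem row_dp {P : FP Om} {κ' ρ ρ' ζ' : Type*} {W : Om → κ'} {Z : Om → ζ'} {S : Om → Prop}
    (hS : ∀ v w, P.p v ≠ 0 → P.p w ≠ 0 → W v = W w → (S v ↔ S w))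
    (hWZ : Fac W Z) {Y : Om → ρ} {Y1 : Om → ρ'} (hY : Fac (fun w => (Y w, Z w)) Y1) :
    P.E (fun w => ind (S w) * Real.log (P.pv W Y1 w (Y1 w) / P.pv Z Y1 w (Y1 w))) ≤
      P.E (fun w => ind (S w) * Real.log (P.pv W Y w (Y w) / P.pv Z Y w (Y w))) := by
  classical
  obtain ⟨S', s1, s2⟩ := ext_fac (P := P) (W := W) (g := S) fun v w hv hw hvw => propext (hS v w hv hw hvw)
  have e : ∀ f : Om → ℝ, P.E (fun w => ind (S w) * f w) = P.E (fun w => ind (S' w) * f w) := fun f =>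
    P.E_congr fun w hw => by rw [s2 w hw]
  rw [e, e]
  by_cases h0 : P.Pr S' = 0
  · have h1 : ∀ f : Om → ℝ, P.E (fun w => ind (S' w) * f w) = 0 := by
      intro f
      rw [← P.E_const 0]
      refine P.E_congr fun w hw => ?_
      by_cases hSw : S' w
      · exact absurd h0 (FP.Pr_pos_of (S := S') hw hSw).ne'
      · rw [ind_not hSw, zero_mul]
    rw [h1, h1]
  · have hpos : 0 < P.Pr S' := lt_of_le_of_ne (P.Pr_nonneg _) (Ne.symm h0)
    rw [row_key s1 hWZ h0 Y1, row_key s1 hWZ h0 Y]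
    refine mul_le_mul_of_nonneg_left (add_le_add (klc_mono (FP.cond_ac _ _) hY) ?_) hpos.le
    exact FP.I_mono _ _ hY

end abs

section cls

variable {K X β γ φ υ : Type} [Fintype K] [DecidableEq K] [Fintype X] [Fintype β] [Fintype φ] [Nonempty X] [Nonempty β]
  {D : HD K X β γ φ} {al : ℝ} {h : D.Thick al} {N : Finset K → ℝ} {S : Finset (Finset K)}
  {U : Finset K → X → (K → β) → υ} {t : ℕ} {b c d : K} {w0 : Pt K X β φ}

/-- price of the pair of rows, relative to the mass `pi` of the activity -/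
noncomputable def kS (N : Finset K → ℝ) (al M R0 ep : ℝ) (k : ℕ) (b d : K) (Lo pi : ℝ) : ℝ :=
  2 * ((2 * N ∅ * (Lo + 1) + 2 * N ∅ * (k * Real.log ((M + 1) * (1 / al + 1)))) / N {d} +
      pi * (Real.log (1 / pi) + 1 + Real.log (1 / al)) + 3 * pi) / (N (univ.erase d) / (2 * N {b})) +
    pi * (N (univ.erase d) / (2 * N {b}) * R0 ^ 2 / (2 * k)) + 2 * ep * pi

/-- what the face without `d` sees fixes the class of `b` -/
theorem Zf_clsb (B : Bk h N S U t b c d) (w0 : Pt K X β φ) : Fac (Zf D U t d) (clsb U (pub0 D t U w0) b w0) := by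
  intro v w hvw
  have h1 := Zf_pub B.rot' hvw
  have h2 := (Zf_iff B.rot' h1.1 h1.2).1 hvw
  have h3 : cbm D U t b v = cbm D U t b w := by
    unfold cbm
    have h4 : zf U b v = zf U b w := h2.1
    unfold zf at h4
    rw [Prod.mk.injEq (le (LL U) ∅ v, BB D t ∅ v), h4, Prod.mk.injEq (le (LL U) ∅ v), h1.1, h1.2]
    exact ⟨⟨rfl, rfl⟩, rfl⟩
  have h5 := congrFun (cbm_cls (D := D) (U := U) (t := t) (b := b) w0) v
  have h6 := congrFun (cbm_cls (D := D) (U := U) (t := t) (b := b) w0) w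
  rw [← h5, ← h6, h3]

/-- **THE RELATIVE P2, one class** -/
theorem p2S_cls (B : Bk h N S U t b c d) (hw0 : (D.P h t).p w0 ≠ 0)
    {Typ : β → υ → Prop} {M : ℝ} (hM : ∀ c', ∃ s : Finset υ, (s.card : ℝ) ≤ M ∧ ∀ u, Typ c' u → u ∈ s)
    {R0 ep : ℝ} {k : ℕ} (hk : 0 < k) (hep : 0 < ep) (hep2 : ep ≤ 1 / 2) (hR0 : Real.log (1 / ep) ≤ R0)
    (hR1 : Real.log (1 / al) ≤ R0) (hkR : N (univ.erase d) / (2 * N {b}) * R0 ≤ 2 * k)
    {τ : Type} {Xl : Pt K X β φ → τ} (hXl : Fac (fun w : Pt K X β φ => (w.2.2 c, Zf D U t c w)) Xl)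
    {act : Pt K X β φ → Prop} (hact : Fac (fun w => (w.1, BB D t {b, d} w, w.2.2 c)) act)
    (hax : ∀ v w, (D.P h t).p v ≠ 0 → (D.P h t).p w ≠ 0 → Xl v = Xl w → Wf D U t v = Wf D U t w → (act v ↔ act w)) :
    ((D.P h t).cond (clsb U (pub0 D t U w0) b w0)).E (fun w => ind (act w ∧ Typ (w.2.1 c) (U {c} w.1 w.2.1)) *
      Real.log (((D.P h t).cond (clsb U (pub0 D t U w0) b w0)).pv (fun v => (Xl v, Wf D U t v)) (fun v => v.2.2 d) w
        (w.2.2 d) / ((D.P h t).cond (clsb U (pub0 D t U w0) b w0)).pv (Zf D U t d) (fun v => v.2.2 d) w (w.2.2 d))) ≤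
      kS N al M R0 ep k b d (Real.log (1 / own h t U (pub0 D t U w0) b w0))
        (((D.P h t).cond (clsb U (pub0 D t U w0) b w0)).Pr act) := by
  classical
  have hU := B.dep
  have hp := pub0_C (D := D) (t := t) (U := U) w0
  have hw1 : pub0 D t U w0 w0 := rfl
  obtain ⟨f1, f2, f3, f4⟩ := clsb_facts (b := b) hp hw1
  have hcl := B.oth
  have hVA := clsb_Ah (b := b) (w0 := w0) hU hp hcl
  have hbc := B.bc
  have hbd := B.bd
  have hcd := B.cd
  have hK : ∀ j, j ≠ c → j ≠ d → j ∈ ({b} : Finset K) := by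
    intro j h1 h2
    rw [Finset.mem_singleton]
    rcases B.all j with h3 | h3 | h3
    · exact h3
    · exact absurd h3 h1
    · exact absurd h3 h2
  have hK' : ∀ j, j ≠ c → j ≠ d → j ∈ ({b} : Finset K) := hK
  have hV0 : (D.P h t).Pr (clsb U (pub0 D t U w0) b w0) ≠ 0 :=
    (FP.Pr_pos_of (S := clsb U (pub0 D t U w0) b w0) hw0 f1).ne'
  have hV10 : (D.P h t).Pr (pub0 D t U w0) ≠ 0 := (FP.Pr_pos_of (S := pub0 D t U w0) hw0 hw1).ne'
  have hw01 : ((D.P h t).cond (pub0 D t U w0)).p w0 ≠ 0 := (FP.cond_p_ne hV10).2 ⟨hw1, hw0⟩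
  have hE0 : ((D.P h t).cond (pub0 D t U w0)).Pr (fun w => U {b} w.1 w0.2.1 = U {b} w0.1 w0.2.1) ≠ 0 :=
    (FP.Pr_pos_of (S := fun w => U {b} w.1 w0.2.1 = U {b} w0.1 w0.2.1) hw01 rfl).ne'
  have hE : ∀ x, clsb U (pub0 D t U w0) b w0 (x, w0.2) ↔
      pub0 D t U w0 (x, w0.2) ∧ U {b} x w0.2.1 = U {b} w0.1 w0.2.1 := fun x =>
    ⟨fun hh => ⟨hh.1, hh.2.2⟩, fun hh => ⟨hh.1, rfl, hh.2⟩⟩
  set V := clsb U (pub0 D t U w0) b w0 with hV
  set Q := (D.P h t).cond V with hQ
  have hm : 0 < N (univ.erase d) / (2 * N {b}) := div_pos (B.n2 d) (by linarith [B.n1 b])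
  have hal := h.pos
  have hsup : ∀ v, Q.p v ≠ 0 → V v ∧ (D.P h t).p v ≠ 0 := fun v hv => cond_supp hV0 hv
  -- the letters in the class
  have hnode : ∀ w, Q.p w ≠ 0 → ∀ j, D.qb t (w.2.1 j) = D.qb t (w0.2.1 j) := fun w hw =>
    (inBox_bxs.1 (supp_cls h f3 f1 hV0 hw).1).2
  have hupd : ∀ (e : K) (w : Pt K X β φ), Q.p w ≠ 0 →
      U {e} w.1 (Function.update w0.2.1 e (w.2.1 e)) = U {e} w.1 w.2.1 := by
    intro e w hw
    refine hU {e} w.1 _ _ (fun j hj => ?_) fun j => ?_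
    · rw [Finset.mem_singleton.1 hj, Function.update_self]
    · by_cases hje : j = e
      · subst hje; rw [Function.update_self]
      · rw [Function.update_of_ne hje]; exact (hnode w hw j).symm
  have hz : ∀ w, Q.p w ≠ 0 → zc U Typ c w0.2.1 w.1 (w.2.1 c) = zt U Typ c w := by
    intro w hw
    unfold zt zc
    rw [hupd c w hw]
  have hud : ∀ w, Q.p w ≠ 0 → ud U d w0.2.1 w.1 (w.2.1 d) = zf U d w := by
    intro w hw
    unfold ud zf
    rw [hupd d w hw]
  -- fibres in the class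
  have hpub : ∀ v w, V v → V w → le (LL U) ∅ v = le (LL U) ∅ w ∧ BB D t ∅ v = BB D t ∅ w := by
    intro v w hv hw
    have h1 : (le (LL U) ∅ v, BB D t ∅ v) = (le (LL U) ∅ w, BB D t ∅ w) :=
      (show (le (LL U) ∅ v, BB D t ∅ v) = (le (LL U) ∅ w0, BB D t ∅ w0) from hv.1).trans
        (show (le (LL U) ∅ w, BB D t ∅ w) = (le (LL U) ∅ w0, BB D t ∅ w0) from hw.1).symm
    exact Prod.mk.inj h1
  have hzb : ∀ v w, V v → V w → zf U b v = zf U b w := by
    intro v w hv hw
    unfold zf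
    rw [hv.2.1, hv.2.2, hw.2.1, hw.2.2]
  have hfd : ∀ v w, V v → V w → (Zf D U t d v = Zf D U t d w ↔ zf U c v = zf U c w) := by
    intro v w hv hw
    obtain ⟨p1, p2⟩ := hpub v w hv hw
    rw [Zf_iff B.rot' p1 p2]
    exact ⟨fun hh => hh.2, fun hh => ⟨hzb v w hv hw, hh⟩⟩
  have hfc : ∀ v w, V v → V w → (Zf D U t c v = Zf D U t c w ↔ zf U d v = zf U d w) := by
    intro v w hv hw
    obtain ⟨p1, p2⟩ := hpub v w hv hw
    rw [Zf_iff B.rot p1 p2]
    exact ⟨fun hh => hh.2, fun hh => ⟨hzb v w hv hw, hh⟩⟩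
  have hfW : ∀ v w, V v → V w → (Wf D U t v = Wf D U t w ↔ zf U c v = zf U c w ∧ zf U d v = zf U d w) := by
    intro v w hv hw
    obtain ⟨p1, p2⟩ := hpub v w hv hw
    unfold Wf
    rw [Prod.mk.injEq (le (LL U) ∅ v, BB D t ∅ v)]
    constructor
    · intro hh
      exact ⟨congrFun hh.2 c, congrFun hh.2 d⟩
    · intro hh
      refine ⟨by rw [p1, p2], funext fun j => ?_⟩
      rcases B.all j with h7 | h7 | h7
      · rw [h7]; exact hzb v w hv hw
      · rw [h7]; exact hh.1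
      · rw [h7]; exact hh.2
  -- the second row
  have hwl : Fac (fun w => (w.1, BB D t {b, d} w, w.2.2 c)) (wl act Xl) := by
    intro v w hvw
    have h1 := hvw
    simp only [Prod.mk.injEq] at h1
    have h2 : act v = act w := hact v w hvw
    have h3 : Zf D U t c v = Zf D U t c w := by
      refine Zf_fac B.rot v w ?_
      rw [B.rot.era2, Prod.mk.injEq]
      exact ⟨h1.1, h1.2.1⟩
    have h4 : Xl v = Xl w := hXl v w (Prod.ext h1.2.2 h3)
    unfold wl
    rw [h2, h4]
  set yf : X → β → φ → Option τ := fun x y F =>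
    wl act Xl (x, (Function.update w0.2.1 d y, Function.update w0.2.2 c F)) with hyf
  have hyv : ∀ v, Q.p v ≠ 0 → yf v.1 (v.2.1 d) (v.2.2 c) = wl act Xl v := by
    intro v hv
    obtain ⟨hVv, hpv⟩ := hsup v hv
    have hbb := f3 v w0 hVv f1
    rw [BB_eq] at hbb
    refine hwl _ _ ?_
    simp only [Prod.mk.injEq, BB_eq]
    refine ⟨trivial, ⟨fun j hj => ?_, trivial, fun j => ?_⟩, Function.update_self _ _ _⟩
    · rcases Finset.mem_insert.1 hj with h1 | h1
      · subst h1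
        rw [Function.update_of_ne hbd]
        exact (hbb.1 _ (Finset.mem_singleton_self _)).symm
      · rw [Finset.mem_singleton.1 h1, Function.update_self]
    · by_cases hjd : j = d
      · subst hjd; rw [Function.update_self]
      · rw [Function.update_of_ne hjd]; exact (hnode v hv j).symm
  have hact0 : ∀ v, Q.p v ≠ 0 → (yf v.1 (v.2.1 d) (v.2.2 c) ≠ none ↔ act v) := by
    intro v hv
    rw [hyv v hv]
    by_cases ha : act v
    · rw [wl_in ha]
      exact ⟨fun _ => ha, fun _ => Option.some_ne_none _⟩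
    · rw [wl_out ha]
      exact ⟨fun hh => absurd rfl hh, fun hh => absurd hh ha⟩
  have hpi : Q.Pr (fun v => yf v.1 (v.2.1 d) (v.2.2 c) ≠ none) = Q.Pr act := by
    unfold FP.Pr
    exact Q.E_congr fun v hv => congrArg ind (propext (hact0 v hv))
  have hal1 : 1 ≤ 1 / al := by
    rw [le_div_iff₀ h.pos, one_mul]
    exact hal_one h b
  -- its entropy
  have hHc : Q.Hc (fun v => yf v.1 (v.2.1 d) (v.2.2 c)) (fun w => ud U d w0.2.1 w.1 (w.2.1 d)) ≤
      Q.Pr act * (Real.log (1 / Q.Pr act) + 1 + Real.log (1 / al)) := by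
    have e1 : Q.Hc (fun v => yf v.1 (v.2.1 d) (v.2.2 c)) (fun w => ud U d w0.2.1 w.1 (w.2.1 d)) =
        Q.Hc (wl act Xl) (fun w => ud U d w0.2.1 w.1 (w.2.1 d)) := by
      unfold FP.Hc
      rw [FP.H_congr_supp (P := Q) (X := fun v => (yf v.1 (v.2.1 d) (v.2.2 c), ud U d w0.2.1 v.1 (v.2.1 d)))
        (X' := fun v => (wl act Xl v, ud U d w0.2.1 v.1 (v.2.1 d)))
        (fun v w hv hw => by rw [hyv v hv, hyv w hw])]
    rw [e1]
    refine Hc_wl Q _ _ _ hal1 fun w hw _ => ?_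
    set s0 : Finset φ := univ.filter fun F => al ≤ D.kf t c w.1 w.2.1 F with hs0
    have hcard : (s0.card : ℝ) ≤ 1 / al := by
      rw [le_div_iff₀ h.pos, ← h.one t c w.1 w.2.1]
      calc (s0.card : ℝ) * al = ∑ _F ∈ s0, al := by rw [Finset.sum_const, nsmul_eq_mul]
        _ ≤ ∑ F ∈ s0, D.kf t c w.1 w.2.1 F := Finset.sum_le_sum fun F hF => (Finset.mem_filter.1 hF).2
        _ ≤ _ := Finset.sum_le_sum_of_subset_of_nonneg (Finset.subset_univ _) fun F _ _ => h.nn t c _ _ F
    set rdX : φ → τ := fun F => if hF : ∃ u : Pt K X β φ, (u.2.2 c, Zf D U t c u) = (F, Zf D U t c w) then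
      Xl hF.choose else Xl w with hrdX
    refine ⟨s0.image rdX, ?_, fun v hv _ hvw => ?_⟩
    · have h2 : ((s0.image rdX).card : ℝ) ≤ s0.card := by exact_mod_cast Finset.card_image_le
      exact h2.trans hcard
    · obtain ⟨hVv, hpv⟩ := hsup v hv
      obtain ⟨hVw, hpw⟩ := hsup w hw
      rw [hud v hv, hud w hw] at hvw
      have hzc : Zf D U t c v = Zf D U t c w := (hfc v w hVv hVw).2 hvw
      have e2 : Xl v = rdX (v.2.2 c) := by
        have hF : ∃ u : Pt K X β φ, (u.2.2 c, Zf D U t c u) = (v.2.2 c, Zf D U t c w) := ⟨v, by rw [hzc]⟩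
        show Xl v = if hF : ∃ u : Pt K X β φ, (u.2.2 c, Zf D U t c u) = (v.2.2 c, Zf D U t c w) then
          Xl hF.choose else Xl w
        rw [dif_pos hF]
        refine (hXl _ _ ?_).symm
        show (hF.choose.2.2 c, Zf D U t c hF.choose) = (v.2.2 c, Zf D U t c v)
        rw [hF.choose_spec, hzc]
      rw [e2]
      refine Finset.mem_image_of_mem _ (Finset.mem_filter.2 ⟨mem_univ _, ?_⟩)
      obtain ⟨a1, a2, a3⟩ := supp_cls h f3 f1 hV0 hw
      obtain ⟨b1, b2, b3⟩ := supp_cls h f3 f1 hV0 hv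
      have h1 : D.kf t c v.1 v.2.1 (v.2.2 c) ≠ 0 := b3 c
      have a4 := inBox_bxs.1 a1
      have b4 := inBox_bxs.1 b1
      have h2 : D.kf t c v.1 v.2.1 = D.kf t c v.1 w.2.1 := by
        refine D.dep t c v.1 _ _ (fun j hj => ?_) ?_
        · by_cases hjd : j = d
          · rw [hjd]; exact congrArg Prod.fst hvw
          · rw [b4.1 j (hK j hj hjd), a4.1 j (hK j hj hjd)]
        · rw [b4.2 c, a4.2 c]
      rw [h2] at h1
      exact h.thick t c v.1 w.1 _ _ (b2.trans a2.symm) h1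
  have hd := split_coins Q (uS (bxs D t {b} w0.2.1 c) (bxs_ne t {b} w0.2.1 c)) (coinF h t d) k
    (fun w => ud U d w0.2.1 w.1 (w.2.1 d)) (fun w => gs D t U Typ c d w0.2.1 w)
    (fun cs => hd_fix h hU B.sat B.nn (B.n1 d) hbd hp.fac hp.nod hp.let0 hw1 hV10 B.s0 (B.s1 d) hVA f3 f1 hV0 hM cs hE hE0
      hcl (c := c))
  have key := p2S (Q := Q) (A := Ah D t {b}) (g := gs D t U Typ c d w0.2.1)
    (F := fun w => fc (zc U Typ c w0.2.1 w.1 (w.2.1 c)) (w.2.2 d)) (Z := fun w => zc U Typ c w0.2.1 w.1 (w.2.1 c))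
    (Yl := fun w => ud U d w0.2.1 w.1 (w.2.1 d)) (Yf := fun v => yf v.1 (v.2.1 d) (v.2.2 c))
    (R := FP.pr (uS (bxs D t {b} w0.2.1 c) (bxs_ne t {b} w0.2.1 c)) (coinF h t d)) hk hm hep hep2 hR0 ?_ ?_ ?_ hkR ?_ hd hHc
  · rw [hpi] at key
    unfold kS
    refine le_trans (le_of_eq ?_) (key.trans (le_of_eq ?_))
    · refine Q.E_congr fun w hw => ?_
      obtain ⟨hVw, hpw⟩ := hsup w hw
      by_cases ha : act w
      swap
      · rw [ind_not (fun hh => ha hh.1), ind_not (fun hh => ha ((hact0 w hw).1 hh)), zero_mul, zero_mul]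
      rw [ind_of ((hact0 w hw).2 ha), one_mul]
      rw [rat_true Q _ _ (fun v => (ud U d w0.2.1 v.1 (v.2.1 d), yf v.1 (v.2.1 d) (v.2.2 c))) hw]
      -- fibre of the second row
      have y1 : ∀ v, Q.p v ≠ 0 → ((ud U d w0.2.1 v.1 (v.2.1 d), yf v.1 (v.2.1 d) (v.2.2 c)) =
          (ud U d w0.2.1 w.1 (w.2.1 d), yf w.1 (w.2.1 d) (w.2.2 c)) ↔ zf U d v = zf U d w ∧ act v ∧ Xl v = Xl w) := by
        intro v hv
        rw [hyv v hv, hyv w hw, hud v hv, hud w hw, Prod.mk.injEq (zf U d v), wl_eq ha]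
      by_cases hT : Typ (w.2.1 c) (U {c} w.1 w.2.1)
      · rw [ind_of ⟨ha, hT⟩, one_mul]
        have z1 : ∀ v, Q.p v ≠ 0 → (zc U Typ c w0.2.1 v.1 (v.2.1 c) = zc U Typ c w0.2.1 w.1 (w.2.1 c) ↔
            zf U c v = zf U c w) := by
          intro v hv
          rw [hz v hv, hz w hw]
          exact zt_iff hT
        have z2 : ∀ v, Q.p v ≠ 0 → zf U c v = zf U c w →
            (fc (zc U Typ c w0.2.1 v.1 (v.2.1 c)) (v.2.2 d) = fc (zc U Typ c w0.2.1 w.1 (w.2.1 c)) (w.2.2 d) ↔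
              v.2.2 d = w.2.2 d) := by
          intro v hv hvw
          have e1 : zc U Typ c w0.2.1 v.1 (v.2.1 c) = zc U Typ c w0.2.1 w.1 (w.2.1 c) := (z1 v hv).2 hvw
          rw [e1, hz w hw]
          unfold zt tru fc
          rw [if_pos hT]
          simp only [Option.map_some, Option.some.injEq]
        have x1 : ∀ v, Q.p v ≠ 0 → ((Xl v, Wf D U t v) = (Xl w, Wf D U t w) ↔
            (zf U d v = zf U d w ∧ act v ∧ Xl v = Xl w) ∧ zf U c v = zf U c w) := by
          intro v hv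
          obtain ⟨hVv, hpv⟩ := hsup v hv
          rw [Prod.mk.injEq (Xl v)]
          constructor
          · rintro ⟨h1, h2⟩
            have h3 := (hfW v w hVv hVw).1 h2
            exact ⟨⟨h3.2, (hax v w hpv hpw h1 h2).2 ha, h1⟩, h3.1⟩
          · rintro ⟨⟨h1, h2, h3⟩, h4⟩
            exact ⟨h3, (hfW v w hVv hVw).2 ⟨h4, h1⟩⟩
        rw [FP.pv_self, FP.pv_self]
        have m1 : Q.m (Zf D U t d) w = Q.m (fun w => zc U Typ c w0.2.1 w.1 (w.2.1 c)) w := by
          unfold FP.m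
          refine Q.E_congr fun v hv => ?_
          rw [propext (z1 v hv), propext (hfd v w (hsup v hv).1 hVw)]
        have m2 : Q.m (fun v => (v.2.2 d, Zf D U t d v)) w =
            Q.m (fun v => (fc (zc U Typ c w0.2.1 v.1 (v.2.1 c)) (v.2.2 d), zc U Typ c w0.2.1 v.1 (v.2.1 c))) w := by
          unfold FP.m
          refine Q.E_congr fun v hv => ?_
          congr 1
          rw [Prod.mk.injEq (v.2.2 d), Prod.mk.injEq (fc _ _), propext (z1 v hv), propext (hfd v w (hsup v hv).1 hVw)]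
          exact propext ⟨fun hh => ⟨(z2 v hv hh.2).2 hh.1, hh.2⟩, fun hh => ⟨(z2 v hv hh.2).1 hh.1, hh.2⟩⟩
        have m3 : Q.m (fun v => (Xl v, Wf D U t v)) w =
            Q.m (fun v => ((ud U d w0.2.1 v.1 (v.2.1 d), yf v.1 (v.2.1 d) (v.2.2 c)),
              zc U Typ c w0.2.1 v.1 (v.2.1 c))) w := by
          unfold FP.m
          refine Q.E_congr fun v hv => ?_
          congr 1
          rw [Prod.mk.injEq (ud U d w0.2.1 v.1 (v.2.1 d), yf v.1 (v.2.1 d) (v.2.2 c)), propext (z1 v hv),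
            propext (y1 v hv), propext (x1 v hv)]
        have m4 : Q.m (fun v => (v.2.2 d, (Xl v, Wf D U t v))) w =
            Q.m (fun v => (fc (zc U Typ c w0.2.1 v.1 (v.2.1 c)) (v.2.2 d),
              (ud U d w0.2.1 v.1 (v.2.1 d), yf v.1 (v.2.1 d) (v.2.2 c)), zc U Typ c w0.2.1 v.1 (v.2.1 c))) w := by
          unfold FP.m
          refine Q.E_congr fun v hv => ?_
          congr 1
          rw [Prod.mk.injEq (v.2.2 d), Prod.mk.injEq (fc _ _),
            Prod.mk.injEq (ud U d w0.2.1 v.1 (v.2.1 d), yf v.1 (v.2.1 d) (v.2.2 c)), propext (z1 v hv),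
            propext (y1 v hv), propext (x1 v hv)]
          exact propext ⟨fun hh => ⟨(z2 v hv hh.2.2).2 hh.1, hh.2⟩, fun hh => ⟨(z2 v hv hh.2.2).1 hh.1, hh.2⟩⟩
        rw [m1, m2, m3, m4]
        have a := (Q.m_pos (fun v => (fc (zc U Typ c w0.2.1 v.1 (v.2.1 c)) (v.2.2 d),
              (ud U d w0.2.1 v.1 (v.2.1 d), yf v.1 (v.2.1 d) (v.2.2 c)), zc U Typ c w0.2.1 v.1 (v.2.1 c))) hw).ne'
        have b' := (Q.m_pos (fun v => ((ud U d w0.2.1 v.1 (v.2.1 d), yf v.1 (v.2.1 d) (v.2.2 c)),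
              zc U Typ c w0.2.1 v.1 (v.2.1 c))) hw).ne'
        have c' := (Q.m_pos (fun v => (fc (zc U Typ c w0.2.1 v.1 (v.2.1 c)) (v.2.2 d), zc U Typ c w0.2.1 v.1 (v.2.1 c))) hw).ne'
        have d' := (Q.m_pos (fun w => zc U Typ c w0.2.1 w.1 (w.2.1 c)) hw).ne'
        congr 1
        field_simp
      · rw [ind_not (fun hh => hT hh.2), zero_mul]
        -- off the typical letters the row is constant
        have hnT : ∀ v, Q.p v ≠ 0 → zc U Typ c w0.2.1 v.1 (v.2.1 c) = zc U Typ c w0.2.1 w.1 (w.2.1 c) →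
            fc (zc U Typ c w0.2.1 v.1 (v.2.1 c)) (v.2.2 d) = fc (zc U Typ c w0.2.1 w.1 (w.2.1 c)) (w.2.2 d) := by
          intro v hv hvw
          rw [hvw, hz w hw]
          unfold zt tru fc
          rw [if_neg hT]
          rfl
        have m2 : Q.m (fun v => (fc (zc U Typ c w0.2.1 v.1 (v.2.1 c)) (v.2.2 d), zc U Typ c w0.2.1 v.1 (v.2.1 c))) w =
            Q.m (fun w => zc U Typ c w0.2.1 w.1 (w.2.1 c)) w := by
          unfold FP.m
          refine Q.E_congr fun v hv => ?_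
          congr 1
          rw [Prod.mk.injEq (fc _ _)]
          exact propext ⟨fun hh => hh.2, fun hh => ⟨hnT v hv hh, hh⟩⟩
        have m4 : Q.m (fun v => (fc (zc U Typ c w0.2.1 v.1 (v.2.1 c)) (v.2.2 d),
              (ud U d w0.2.1 v.1 (v.2.1 d), yf v.1 (v.2.1 d) (v.2.2 c)), zc U Typ c w0.2.1 v.1 (v.2.1 c))) w =
            Q.m (fun v => ((ud U d w0.2.1 v.1 (v.2.1 d), yf v.1 (v.2.1 d) (v.2.2 c)),
              zc U Typ c w0.2.1 v.1 (v.2.1 c))) w := by
          unfold FP.m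
          refine Q.E_congr fun v hv => ?_
          congr 1
          rw [Prod.mk.injEq (fc _ _)]
          exact propext ⟨fun hh => hh.2, fun hh => ⟨hnT v hv (congrArg Prod.snd hh), hh⟩⟩
        rw [m2, m4]
        have b' := (Q.m_pos (fun v => ((ud U d w0.2.1 v.1 (v.2.1 d), yf v.1 (v.2.1 d) (v.2.2 c)),
              zc U Typ c w0.2.1 v.1 (v.2.1 c))) hw).ne'
        have d' := (Q.m_pos (fun w => zc U Typ c w0.2.1 w.1 (w.2.1 c)) hw).ne'
        rw [mul_comm, div_self (mul_ne_zero d' b'), Real.log_one]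
    · unfold own
      ring
  · intro w hw
    have h1 := thickF h hVA f3 f1 hV0 hcd hK (hal_one h b) U Typ hw
    have h2 : 1 / al ≤ Real.exp R0 := by
      have := Real.exp_le_exp.2 hR1
      rwa [Real.exp_log (by positivity)] at this
    have h3 := Q.m_nonneg (fun w => (fc (zc U Typ c w0.2.1 w.1 (w.2.1 c)) (w.2.2 d), zc U Typ c w0.2.1 w.1 (w.2.1 c))) w
    calc Q.m (fun w => zc U Typ c w0.2.1 w.1 (w.2.1 c)) w = 1 / al * (al * Q.m (fun w => zc U Typ c w0.2.1 w.1 (w.2.1 c)) w) := by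
          field_simp
      _ ≤ 1 / al * Q.m (fun w => (fc (zc U Typ c w0.2.1 w.1 (w.2.1 c)) (w.2.2 d), zc U Typ c w0.2.1 w.1 (w.2.1 c))) w :=
          mul_le_mul_of_nonneg_left h1 (by positivity)
      _ ≤ _ := mul_le_mul_of_nonneg_right h2 h3
  · intro f v hv
    exact samp h hVA f3 f1 hV0 hcd hK U Typ f hv
  · intro f
    exact row_indep h hVA f3 f1 hV0 hcd hK (fun x y F => (ud U d w0.2.1 x y, yf x y F))
      (fun x y F => (fc (zc U Typ c w0.2.1 x y) F, zc U Typ c w0.2.1 x y)) (fun y x => f y.1 y.2 x)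
  · intro S1 psi hS1 hS10 hpsi hone
    exact sat_p2 h hU B.sat B.nn hbc hbd hcd B.all f2 f3 f4 f1 hV0 (B.s1 b) (B.s2 d) (B.n1 b) Typ hS1 hS10 hpsi hone

/-- letters of the class are letters of the class -/
theorem lsb_cbm (B : Bk h N S U t b c d) : Fac (cbm D U t b) (lsb h U t b) := by
  intro v w hvw
  have h1 : clsb U (pub0 D t U v) b v = clsb U (pub0 D t U w) b w := by
    have h2 := cbm_cls (D := D) (U := U) (t := t) (b := b) v
    have h3 := cbm_cls (D := D) (U := U) (t := t) (b := b) w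
    rw [← h2, ← h3, hvw]
  have h2 : xc D U t {b} v = xc D U t {b} w := by
    have h3 : (le (LL U) ∅ v, BB D t ∅ v) = (le (LL U) ∅ w, BB D t ∅ w) := congrArg Prod.fst hvw
    have h4 : v.2.1 b = w.2.1 b := congrArg (fun q => q.2.1) hvw
    have h5 := Prod.mk.inj h3
    have h6 : BB D t {b} v = BB D t {b} w := by
      have h7 := h5.2
      rw [BB_eq] at h7 ⊢
      exact ⟨fun j hj => by rw [Finset.mem_singleton.1 hj]; exact h4, h7.2⟩
    funext u
    unfold xc
    rw [h5.1, h6]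
  unfold lsb QB
  rw [h1, h2]

/-- surprise of the own letter -/
theorem lsb_own (B : Bk h N S U t b c d) {w : Pt K X β φ} (hw : (D.P h t).p w ≠ 0) :
    lsb h U t b w = Real.log (1 / own h t U (pub0 D t U w) b w) := by
  unfold lsb
  rw [own_QB B hw]

/-- **THE RELATIVE P2, mean over the classes**, linear form: `b` = common exact vertex, `Xl` = active top of `{b, d}`,
`Yl` = top of `{b, c}`, `G` = event of the class of `b`, letter of `c` of surprise at most `Lc` -/
theorem p2s_lin (B : Bk h N S U t b c d) {τ ρ : Type} {Xl : Pt K X β φ → τ}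
    (hXl : ∀ v w, (D.P h t).p v ≠ 0 → (D.P h t).p w ≠ 0 → v.2.2 c = w.2.2 c → Zf D U t c v = Zf D U t c w → Xl v = Xl w)
    {Yl : Pt K X β φ → ρ} (hYl : ∀ v w, (D.P h t).p v ≠ 0 → (D.P h t).p w ≠ 0 → v.2.2 d = w.2.2 d →
      Zf D U t d v = Zf D U t d w → Yl v = Yl w)
    {act : Pt K X β φ → Prop} (hact : ∀ v w, (D.P h t).p v ≠ 0 → (D.P h t).p w ≠ 0 → v.1 = w.1 →
      BB D t {b, d} v = BB D t {b, d} w → v.2.2 c = w.2.2 c → (act v ↔ act w))
    (hax : ∀ v w, (D.P h t).p v ≠ 0 → (D.P h t).p w ≠ 0 → Xl v = Xl w → Wf D U t v = Wf D U t w → (act v ↔ act w))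
    {G : Pt K X β φ → Prop} (hG : Fac (cbm D U t b) G) {Lo Lc : ℝ}
    (hLo : ∀ w, (D.P h t).p w ≠ 0 → G w → lsb h U t b w ≤ Lo) {cc : ℝ} (hcc : 0 < cc)
    {R0 ep : ℝ} {k : ℕ} (hk : 0 < k) (hep : 0 < ep) (hep2 : ep ≤ 1 / 2) (hR0 : Real.log (1 / ep) ≤ R0)
    (hR1 : Real.log (1 / al) ≤ R0) (hkR : N (univ.erase d) / (2 * N {b}) * R0 ≤ 2 * k) :
    (D.P h t).E (fun w => ind (G w) * (ind (act w ∧ lsb h U t c w ≤ Lc) *
      Real.log ((D.P h t).pv (fun v => (Xl v, Wf D U t v)) Yl w (Yl w) / (D.P h t).pv (Zf D U t d) Yl w (Yl w)))) ≤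
      2 / (N (univ.erase d) / (2 * N {b})) *
        ((2 * N ∅ * (Lo + 1) + 2 * N ∅ * (k * Real.log ((Real.exp Lc + 1) * (1 / al + 1)))) / N {d} * (D.P h t).Pr G +
        ((Real.log cc + 4 + Real.log (1 / al)) * (D.P h t).Pr (fun w => G w ∧ act w) + 1 / cc * (D.P h t).Pr G)) +
      (N (univ.erase d) / (2 * N {b}) * R0 ^ 2 / (2 * k) + 2 * ep) * (D.P h t).Pr (fun w => G w ∧ act w) := by
  classical
  set P := D.P h t with hP
  obtain ⟨X', x1, x2⟩ := ext_fac (P := P) (W := fun w : Pt K X β φ => (w.2.2 c, Zf D U t c w)) (g := Xl)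
    (fun v w hv hw hvw => hXl v w hv hw (congrArg Prod.fst hvw) (congrArg Prod.snd hvw))
  obtain ⟨Y', y1, y2⟩ := ext_fac (P := P) (W := fun w : Pt K X β φ => (w.2.2 d, Zf D U t d w)) (g := Yl)
    (fun v w hv hw hvw => hYl v w hv hw (congrArg Prod.fst hvw) (congrArg Prod.snd hvw))
  obtain ⟨a', a1, a2⟩ := ext_fac (P := P) (W := fun w : Pt K X β φ => (w.1, BB D t {b, d} w, w.2.2 c)) (g := act)
    (fun v w hv hw hvw => by
      simp only [Prod.mk.injEq] at hvw
      exact propext (hact v w hv hw hvw.1 hvw.2.1 hvw.2.2))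
  have hax' : ∀ v w, P.p v ≠ 0 → P.p w ≠ 0 → X' v = X' w → Wf D U t v = Wf D U t w → (a' v ↔ a' w) := by
    intro v w hv hw hx hz
    rw [a2 v hv, a2 w hw]
    exact hax v w hv hw (by rw [← x2 v hv, ← x2 w hw]; exact hx) hz
  have hPG : P.Pr (fun w => G w ∧ act w) = P.Pr (fun w => G w ∧ a' w) := by
    unfold FP.Pr
    refine P.E_congr fun w hw => ?_
    show ind (G w ∧ act w) = ind (G w ∧ a' w)
    rw [a2 w hw]
  rw [hPG]
  -- to the extended maps and the full label
  set W : Pt K X β φ → _ := fun v => (X' v, Wf D U t v) with hW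
  set Sv : Pt K X β φ → Prop := fun w => G w ∧ (a' w ∧ lsb h U t c w ≤ Lc) with hSv
  have e1 : P.E (fun w => ind (G w) * (ind (act w ∧ lsb h U t c w ≤ Lc) *
      Real.log (P.pv (fun v => (Xl v, Wf D U t v)) Yl w (Yl w) / P.pv (Zf D U t d) Yl w (Yl w)))) =
      P.E (fun w => ind (Sv w) * Real.log (P.pv W Y' w (Y' w) / P.pv (Zf D U t d) Y' w (Y' w))) := by
    refine P.E_congr fun w hw => ?_
    have b1 : P.pv (fun v => (Xl v, Wf D U t v)) Yl w (Yl w) = P.pv W Y' w (Y' w) := by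
      rw [y2 w hw]
      exact pv_supp (fun v hv => by rw [hW, Prod.mk.injEq, Prod.mk.injEq (X' v), x2 v hv, x2 w hw])
        (fun v hv => (y2 v hv).symm) _
    have b2 : P.pv (Zf D U t d) Yl w (Yl w) = P.pv (Zf D U t d) Y' w (Y' w) := by
      rw [y2 w hw]
      exact pv_supp (fun v hv => Iff.rfl) (fun v hv => (y2 v hv).symm) _
    rw [b1, b2, ← mul_assoc, ← ind_and, hSv]
    simp only [a2 w hw]
  rw [e1]
  have hcG : Fac (Wf D U t) G := Wf_cbm.trans hG
  have hcL : Fac (Wf D U t) (lsb h U t c) := (Wf_cbm (b := c)).trans (lsb_cbm B.rot)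
  have hdp := row_dp (P := P) (W := W) (Z := Zf D U t d) (S := Sv) (fun v w hv hw hvw => by
    rw [hW, Prod.mk.injEq] at hvw
    have c1 : G v = G w := hcG v w hvw.2
    have c2 : lsb h U t c v = lsb h U t c w := hcL v w hvw.2
    have c3 := hax' v w hv hw hvw.1 hvw.2
    show (G v ∧ (a' v ∧ lsb h U t c v ≤ Lc)) ↔ (G w ∧ (a' w ∧ lsb h U t c w ≤ Lc))
    rw [c1, c2, c3]) ((Fac.snd _ _).trans (Wf_Zf B.rot')) (Y := fun w => w.2.2 d) (Y1 := Y') y1
  refine hdp.trans ?_
  -- the classes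
  set L : Pt K X β φ → ℝ := fun w => ind (a' w ∧ lsb h U t c w ≤ Lc) *
    Real.log (P.pv W (fun v => v.2.2 d) w (w.2.2 d) / P.pv (Zf D U t d) (fun v => v.2.2 d) w (w.2.2 d)) with hL
  have e2 : P.E (fun w => ind (Sv w) * Real.log (P.pv W (fun v => v.2.2 d) w (w.2.2 d) /
      P.pv (Zf D U t d) (fun v => v.2.2 d) w (w.2.2 d))) = P.E (fun w => ind (G w) * L w) := by
    refine P.E_congr fun w _ => ?_
    rw [hSv, hL]
    simp only
    rw [ind_and]
    ring
  have hfG : Fac (cbm D U t b) (fun w => ind (G w)) := hG.comp fun q => ind q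
  rw [e2, ← P.E_mul_ce hfG]
  set A := (2 * N ∅ * (Lo + 1) + 2 * N ∅ * (k * Real.log ((Real.exp Lc + 1) * (1 / al + 1)))) / N {d} with hA
  set m := N (univ.erase d) / (2 * N {b}) with hm
  have hm0 : 0 < m := div_pos (B.n2 d) (by linarith [B.n1 b])
  have hpt : ∀ w, P.p w ≠ 0 → ind (G w) * P.ce (cbm D U t b) L w ≤
      ind (G w) * (2 / m * (A + 1 / cc)) + ind (G w) * pib h U t b a' w *
        (2 / m * (Real.log cc + 4 + Real.log (1 / al)) + (m * R0 ^ 2 / (2 * k) + 2 * ep)) := by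
    intro w hw
    by_cases hGw : G w
    swap
    · rw [ind_not hGw]; simp
    rw [ind_of hGw, one_mul, one_mul, one_mul]
    have hV0 : P.Pr (clsb U (pub0 D t U w) b w) ≠ 0 := (cls_I (w0 := w) B hw).ne
    have e3 : P.ce (cbm D U t b) L w = (P.cond (clsb U (pub0 D t U w) b w)).E L := by
      rw [P.ce_eq_cond _ _ hw, cbm_cls]
    set V := clsb U (pub0 D t U w) b w with hV
    set Typ : β → υ → Prop := fun c' u => 1 / Real.exp Lc ≤ (P.cond (pub0 D t U w)).Pr
      (fun v => U {c} v.1 (Function.update w.2.1 c c') = u) with hTyp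
    have hM0 : 0 < Real.exp Lc := Real.exp_pos _
    have kk := p2S_cls (w0 := w) B hw (Typ := Typ)
      (fun c' => typ_card (P.cond (pub0 D t U w)) (fun v => U {c} v.1 (Function.update w.2.1 c c')) hM0)
      hk hep hep2 hR0 hR1 hkR x1 a1 hax'
    have e4 : (P.cond V).E L = (P.cond V).E (fun w => ind (a' w ∧ Typ (w.2.1 c) (U {c} w.1 w.2.1)) *
        Real.log ((P.cond V).pv (fun v => (X' v, Wf D U t v)) (fun v => v.2.2 d) w
        (w.2.2 d) / (P.cond V).pv (Zf D U t d) (fun v => v.2.2 d) w (w.2.2 d))) := by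
      refine (P.cond V).E_congr fun v hv => ?_
      obtain ⟨hVv, hpv⟩ := cond_supp hV0 hv
      have d1 : (P.cond V).pv (fun v => (X' v, Wf D U t v)) (fun v => v.2.2 d) v (v.2.2 d) =
          P.pv W (fun v => v.2.2 d) v (v.2.2 d) :=
        cond_pv ((Fac.snd _ _).trans Wf_cls) hV0 _ hVv _
      have d2 : (P.cond V).pv (Zf D U t d) (fun v => v.2.2 d) v (v.2.2 d) =
          P.pv (Zf D U t d) (fun v => v.2.2 d) v (v.2.2 d) :=
        cond_pv (Zf_clsb B w) hV0 _ hVv _
      rw [d1, d2]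
      have d3 : lsb h U t c v ≤ Lc ↔ Typ (v.2.1 c) (U {c} v.1 v.2.1) := by
        rw [lsb_own B.rot hpv]
        have hpv' : pub0 D t U v = pub0 D t U w := pub0_eq hVv.1
        have e5 : own h t U (pub0 D t U v) c v =
            (P.cond (pub0 D t U w)).Pr (fun v' => U {c} v'.1 (Function.update w.2.1 c (v.2.1 c)) = U {c} v.1 v.2.1) := by
          unfold own
          rw [hpv']
          have hbb : BB D t ∅ v = BB D t ∅ w := (pub0_C (D := D) (t := t) (U := U) w).nod v w hVv.1 rfl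
          rw [BB_eq] at hbb
          have e6 : ∀ x, U {c} x (Function.update w.2.1 c (v.2.1 c)) = U {c} x v.2.1 := by
            intro x
            refine B.dep {c} x _ _ (fun j hj => ?_) fun j => ?_
            · rw [Finset.mem_singleton.1 hj, Function.update_self]
            · by_cases hjc : j = c
              · subst hjc; rw [Function.update_self]
              · rw [Function.update_of_ne hjc]; exact (hbb.2.2 j).symm
          simp only [e6]
          rfl
        have hpos : 0 < own h t U (pub0 D t U v) c v := by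
          have h0 : P.Pr (pub0 D t U v) ≠ 0 := (FP.Pr_pos_of (S := pub0 D t U v) hpv rfl).ne'
          exact FP.Pr_pos_of (S := fun u => U {c} u.1 v.2.1 = U {c} v.1 v.2.1) ((FP.cond_p_ne h0).2 ⟨rfl, hpv⟩) rfl
        rw [Real.log_le_iff_le_exp (one_div_pos.2 hpos), e5, div_le_comm₀ (by rw [← e5]; exact hpos) hM0]
      show ind (a' v ∧ lsb h U t c v ≤ Lc) * _ = ind (a' v ∧ Typ (v.2.1 c) (U {c} v.1 v.2.1)) * _
      rw [propext d3]
    rw [e3, e4]
    refine kk.trans ?_
    have hlo : Real.log (1 / own h t U (pub0 D t U w) b w) ≤ Lo := by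
      rw [← lsb_own B hw]
      exact hLo w hw hGw
    rw [← pib_eq hw]
    set pi0 := pib h U t b a' w with hpi0
    have hp0 : 0 ≤ pi0 := pib_nonneg w
    have hent := ent_lin hp0 hcc
    unfold kS
    rw [← hm]
    have h5 : (2 * N ∅ * (Real.log (1 / own h t U (pub0 D t U w) b w) + 1) +
        2 * N ∅ * (k * Real.log ((Real.exp Lc + 1) * (1 / al + 1)))) / N {d} ≤ A := by
      rw [hA]
      refine div_le_div_of_nonneg_right ?_ (B.n1 d).le
      have := mul_le_mul_of_nonneg_left hlo (show 0 ≤ 2 * N ∅ by have := B.nn ∅ B.s0; linarith)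
      linarith
    have h6 : 2 * ((2 * N ∅ * (Real.log (1 / own h t U (pub0 D t U w) b w) + 1) +
        2 * N ∅ * (k * Real.log ((Real.exp Lc + 1) * (1 / al + 1)))) / N {d} +
        pi0 * (Real.log (1 / pi0) + 1 + Real.log (1 / al)) + 3 * pi0) / m ≤
        2 / m * (A + 1 / cc) + pi0 * (2 / m * (Real.log cc + 4 + Real.log (1 / al))) := by
      rw [div_le_iff₀ hm0]
      have h7 : (2 / m * (A + 1 / cc) + pi0 * (2 / m * (Real.log cc + 4 + Real.log (1 / al)))) * m =
          2 * (A + 1 / cc) + 2 * (pi0 * (Real.log cc + 4 + Real.log (1 / al))) := by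
        field_simp
      rw [h7]
      nlinarith [h5, hent]
    have h8 : pi0 * (m * R0 ^ 2 / (2 * k)) + 2 * ep * pi0 = pi0 * (m * R0 ^ 2 / (2 * k) + 2 * ep) := by ring
    have h9 : pi0 * (2 / m * (Real.log cc + 4 + Real.log (1 / al)) + (m * R0 ^ 2 / (2 * k) + 2 * ep)) =
      pi0 * (2 / m * (Real.log cc + 4 + Real.log (1 / al))) + pi0 * (m * R0 ^ 2 / (2 * k) + 2 * ep) := by ring
    rw [h9]
    linarith
  refine (P.E_mono hpt).trans ?_
  rw [P.E_add]
  have g1 : P.E (fun w => ind (G w) * (2 / m * (A + 1 / cc))) = P.Pr G * (2 / m * (A + 1 / cc)) := by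
    unfold FP.Pr
    rw [mul_comm (P.E _), ← P.E_smul]
    exact P.E_congr fun w _ => mul_comm _ _
  have g2 : P.E (fun w => ind (G w) * pib h U t b a' w *
        (2 / m * (Real.log cc + 4 + Real.log (1 / al)) + (m * R0 ^ 2 / (2 * k) + 2 * ep))) =
      P.Pr (fun w => G w ∧ a' w) * (2 / m * (Real.log cc + 4 + Real.log (1 / al)) + (m * R0 ^ 2 / (2 * k) + 2 * ep)) := by
    have h2 : P.Pr (fun w => G w ∧ a' w) = P.E (fun w => ind (G w) * pib h U t b a' w) := by
      unfold pib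
      rw [P.E_mul_ce hfG]
      exact P.E_congr fun w _ => ind_and _ _
    rw [h2, mul_comm (P.E _), ← P.E_smul]
    exact P.E_congr fun w _ => mul_comm _ _
  rw [g1, g2]
  refine le_of_eq ?_
  ring

end cls

end Pool.Agent.GMH
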