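import Pool.Agent.GMH.HotNR

/-!
# GMH.RowD: the new saturation at a hardwired vertex, with events of BOTH tops which see it (RowN2, dense classes; helper93)

`b` is hardwired, the row is the top of `{c, d}` (it does not see `b`); `X1` = top of `{b, c}`, `X2` = top of `{b, d}`,
`a1`, `a2` = events of (hidden point, the two points, node, label) of these two faces.  The additions are `X1` on `a1` (at `c`) and
`X2` on `a2` (at `d`), the price is relative to the two events.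
* `cost_wl` : price of one addition; `ns2_class` : one class; `ns2_lin` : mean over the classes, linear form;
* **`ns2_run`** : `E 1_G 1_(a1, a2) log (P(F_b | F_d, F_c, thin labels) / P(F_b | own))` at most
  `2/(n N1) (Lo + 1) P(G) + 2/n ((log cc + 1 + log (1/al)) (P(G, a1) + P(G, a2)) + 2 P(G)/cc)`.
-/

set_option autoImplicit false
set_option linter.unusedSectionVars false
set_option linter.unusedVariables false

namespace Pool.Agent.GMH

open Finset Pool.Agent.PWZ Pool.Agent.M3 Pool.Agent.GM Pool.Agent.GM.Harm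

section bit2

variable {K X β γ φ υ : Type} [Fintype K] [DecidableEq K] [Fintype X] [Fintype β] [Fintype φ] [Nonempty X] [Nonempty β]
  {D : HD K X β γ φ} {al : ℝ} {h : D.Thick al} {N : Finset K → ℝ} {S : Finset (Finset K)}
  {U : Finset K → X → (K → β) → υ} {t : ℕ} {b c d : K} {w0 : Pt K X β φ} {V : Pt K X β φ → Prop}

/-- **price of one addition** : the label of the face `{b, c}` on an event -/
theorem cost_wl (B : Bk h N S U t b c d) (I : Ib h U t b w0 V) {τ : Type} {Xl : Pt K X β φ → τ}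
    (hXl : Fac (fun w : Pt K X β φ => w.2.2 d) Xl) (act : Pt K X β φ → Prop)
    {ν : Type} {G : Finset K → Pt K X β φ → ν} (hG : Fac (wl act Xl) (G {c})) :
    cost ((FP.pr ((D.P h t).cond (xc D U t ∅ w0)) (coinT h t)).cond fun w => V (hwm D t {b} w0.2.1 w))
      (fun I w => BB D t I w.1) (fun I w => LL U I w.1) (fun J' w => G J' (hwm D t {b} w0.2.1 w)) {c} ≤
      ((D.P h t).cond V).Pr act * (Real.log (1 / ((D.P h t).cond V).Pr act) + 1 + Real.log (1 / al)) := by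
  classical
  set m := hwm D t {b} w0.2.1 with hm
  set PE := (FP.pr ((D.P h t).cond (xc D U t ∅ w0)) (coinT h t)).cond fun w => V (m w) with hPE
  -- the law
  have hx0 : (D.P h t).Pr (xc D U t ∅ w0) ≠ 0 := xc_ne I.supp
  obtain ⟨hne, hpul⟩ := hw_pul h (I := {b}) (Finset.disjoint_empty_left {b}) (V := xc D U t ∅ w0)
    (xc_fac (U := U) ∅ w0 B.dep B.era) (fun v w hv hw => hv.2.trans hw.2.symm) (w0 := w0) (xc_self U t ∅ w0) hx0
    (c := w0.2.1) (fun _ _ => rfl)
  rw [← xc_hwV] at hpul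
  have hpE : Pul PE ((D.P h t).cond V) m := by
    have h1 := pul_cond hpul I.neB
    have h2 : ((D.P h t).cond (xc D U t {b} w0)).cond V = (D.P h t).cond V := I.condB
    rw [h2] at h1
    exact h1
  have hpi : PE.Pr (fun w => act (m w)) = ((D.P h t).cond V).Pr act := hpE.Pr act
  have hal1 : 1 ≤ 1 / al := by
    rw [le_div_iff₀ h.pos, one_mul]
    exact hal_one h b
  unfold cost
  have e : PE.Hc ((fun (J' : Finset K) (w : Pt K X β φ × (K → Cn K X β φ)) => G J' (m w)) {c})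
      (fun w => (lo (fun J' w => G J' (m w)) {c} w, le (fun I w => LL U I w.1) {c} w, BB D t {c} w.1)) ≤
      PE.Hc (wl (fun w => act (m w)) (fun w => Xl (m w)))
      (fun w => (lo (fun J' w => G J' (m w)) {c} w, le (fun I w => LL U I w.1) {c} w, BB D t {c} w.1)) := by
    refine PE.Hc_mono _ fun a e hae => ?_
    exact hG (m a) (m e) (congrArg Prod.fst hae)
  refine e.trans ?_
  rw [← hpi]
  refine Hc_wl PE _ _ _ hal1 fun w hw _ => ?_
  set s0 : Finset φ := univ.filter fun F => al ≤ D.kf t d w.1.1 (hwy {b} w0.2.1 w.1.2.1) F with hs0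
  have hcard : (s0.card : ℝ) ≤ 1 / al := poss_card h d w.1.1 (hwy {b} w0.2.1 w.1.2.1)
  -- read from the label of the face
  set rdX : φ → τ := fun F => if hF : ∃ u : Pt K X β φ, u.2.2 d = F then Xl hF.choose else Xl w0 with hrdX
  have hrd : ∀ u : Pt K X β φ, Xl u = rdX (u.2.2 d) := by
    intro u
    have hF : ∃ u' : Pt K X β φ, u'.2.2 d = u.2.2 d := ⟨u, rfl⟩
    show Xl u = if hF : ∃ u' : Pt K X β φ, u'.2.2 d = u.2.2 d then Xl hF.choose else Xl w0
    rw [dif_pos hF]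
    exact (hXl _ _ hF.choose_spec).symm
  refine ⟨s0.image rdX, ?_, fun v hv _ hvw => ?_⟩
  · have h2 : ((s0.image rdX).card : ℝ) ≤ s0.card := by exact_mod_cast Finset.card_image_le
    exact h2.trans hcard
  · have hv' := (pr_supp ((D.P h t).cond (xc D U t ∅ w0)) (coinT h t)).1 (FP.cond_ac _ _ v hv)
    simp only [Prod.mk.injEq] at hvw
    obtain ⟨-, -, h3⟩ := hvw
    rw [BB_eq] at h3
    obtain ⟨h3, h4, h5⟩ := h3
    rw [hrd (m v)]
    refine Finset.mem_image_of_mem _ (Finset.mem_filter.2 ⟨mem_univ _, ?_⟩)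
    show al ≤ D.kf t d w.1.1 (hwy {b} w0.2.1 w.1.2.1)
      (if ∃ i ∈ ({b} : Finset K), i ≠ d then rd D t v.2 d v.1.1 (hwy {b} w0.2.1 v.1.2.1) else v.1.2.2 d)
    rw [if_pos ⟨b, Finset.mem_singleton_self b, B.bd⟩]
    refine rd_poss hv'.2 d h4 (fun j hj => ?_) fun j => ?_
    · unfold hwy
      by_cases hjb : j ∈ ({b} : Finset K)
      · rw [if_pos hjb, if_pos hjb]
      · rw [if_neg hjb, if_neg hjb]
        refine h3 j ?_
        rcases B.all j with h7 | h7 | h7
        · exact absurd (Finset.mem_singleton.2 h7) hjb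
        · exact Finset.mem_singleton.2 h7
        · exact absurd h7 hj
    · unfold hwy
      by_cases hjb : j ∈ ({b} : Finset K)
      · rw [if_pos hjb, if_pos hjb]
      · rw [if_neg hjb, if_neg hjb]; exact h5 j

/-- an addition which is a label of a face on an event of the face may be made at the other vertex of the face -/
theorem wl_GI (B : Bk h N S U t b c d) {τ : Type} {Xl : Pt K X β φ → τ} (hXl : Fac (fun w : Pt K X β φ => w.2.2 d) Xl)
    {act : Pt K X β φ → Prop} (hact : Fac (fun w => (w.1, BB D t {b, c} w, w.2.2 d)) act) :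
    Fac (fun w => (w.1, BB D t ({b} ∪ {c}) w, tl {b} ({b} ∪ {c}) w)) (wl act Xl) := by
  have htl : (univ.erase d : Finset K) ⊆ ({b} : Finset K) ∪ {c} ∧ ∃ i ∈ ({b} : Finset K), i ≠ d := by
    refine ⟨fun j hj => ?_, b, Finset.mem_singleton_self b, B.bd⟩
    rw [Finset.mem_union, Finset.mem_singleton, Finset.mem_singleton]
    rcases B.all j with h7 | h7 | h7
    · exact Or.inl h7
    · exact Or.inr h7
    · exact absurd h7 (Finset.mem_erase.1 hj).1
  intro v w hvw
  simp only [Prod.mk.injEq] at hvw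
  obtain ⟨h1, h2, h4⟩ := hvw
  have h5 := congrFun h4 d
  unfold tl at h5
  rw [if_pos htl, if_pos htl] at h5
  have h6 : v.2.2 d = w.2.2 d := Option.some.inj h5
  have h7 : act v = act w := hact v w (by
    simp only [Prod.mk.injEq]
    exact ⟨h1, h2, h6⟩)
  have h8 : Xl v = Xl w := hXl v w h6
  unfold wl
  rw [h7, h8]

/-- **THE NEW SATURATION AT A HARDWIRED VERTEX, both tops, one class** -/
theorem ns2_class (B : Bk h N S U t b c d) (I : Ib h U t b w0 V) {τ τ' ρ : Type} {X1 : Pt K X β φ → τ}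
    (hX1 : Fac (fun w : Pt K X β φ => w.2.2 d) X1) {X2 : Pt K X β φ → τ'}
    (hX2 : Fac (fun w : Pt K X β φ => w.2.2 c) X2) {Yl : Pt K X β φ → ρ} (hYl : Fac (LL U (univ.erase b)) Yl)
    {a1 a2 : Pt K X β φ → Prop} (ha1 : Fac (fun w => (w.1, BB D t {b, c} w, w.2.2 d)) a1)
    (ha2 : Fac (fun w => (w.1, BB D t {b, d} w, w.2.2 c)) a2) :
    N (univ.erase b) * (((D.P h t).cond V).klc (QB h U t b w0) Yl (fun w => (zf U c w, zf U d w)) +
      ((D.P h t).cond V).I Yl (fun w => (wl a1 X1 w, wl a2 X2 w)) (fun w => (zf U c w, zf U d w))) ≤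
      2 * N ∅ * (Lb h U t b w0 V + 1) + 2 * (N {c} * (((D.P h t).cond V).Pr a1 *
        (Real.log (1 / ((D.P h t).cond V).Pr a1) + 1 + Real.log (1 / al))) + N {d} * (((D.P h t).cond V).Pr a2 *
        (Real.log (1 / ((D.P h t).cond V).Pr a2) + 1 + Real.log (1 / al)))) := by
  classical
  set J : Finset K := univ.erase b with hJ
  have hcJ : c ∈ J := Finset.mem_erase.2 ⟨B.bc.symm, mem_univ c⟩
  have hdJ : d ∈ J := Finset.mem_erase.2 ⟨B.bd.symm, mem_univ d⟩
  have hdisj : Disjoint J ({b} : Finset K) := by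
    rw [Finset.disjoint_singleton_right]
    exact fun hh => (Finset.mem_erase.1 hh).1 rfl
  have hcd : ({c} : Finset K) ≠ {d} := fun hh => B.cd (Finset.singleton_injective hh)
  set G : Finset K → Pt K X β φ → Option τ × Option τ' := fun J' w =>
    (if J' = {c} then wl a1 X1 w else none, if J' = {d} then wl a2 X2 w else none) with hG
  have hGI : GI D t {b} G := by
    intro J' v w hvw
    show ((if J' = {c} then wl a1 X1 v else none), (if J' = {d} then wl a2 X2 v else none)) =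
      ((if J' = {c} then wl a1 X1 w else none), (if J' = {d} then wl a2 X2 w else none))
    refine Prod.ext ?_ ?_
    · show (if J' = {c} then wl a1 X1 v else none) = if J' = {c} then wl a1 X1 w else none
      by_cases hJ' : J' = {c}
      · rw [if_pos hJ', if_pos hJ']
        subst hJ'
        exact wl_GI B hX1 ha1 v w hvw
      · rw [if_neg hJ', if_neg hJ']
    · show (if J' = {d} then wl a2 X2 v else none) = if J' = {d} then wl a2 X2 w else none
      by_cases hJ' : J' = {d}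
      · rw [if_pos hJ', if_pos hJ']
        subst hJ'
        exact wl_GI B.swap hX2 ha2 v w hvw
      · rw [if_neg hJ', if_neg hJ']
  set m := hwm D t {b} w0.2.1 with hm
  set PE := (FP.pr ((D.P h t).cond (xc D U t ∅ w0)) (coinT h t)).cond fun w => V (m w) with hPE
  have gc : Fac (wl a1 X1) (G {c}) := by
    intro v w hvw
    show ((if ({c} : Finset K) = {c} then wl a1 X1 v else none), (if ({c} : Finset K) = {d} then wl a2 X2 v else none)) =
      ((if ({c} : Finset K) = {c} then wl a1 X1 w else none), (if ({c} : Finset K) = {d} then wl a2 X2 w else none))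
    rw [if_pos rfl, if_pos rfl, if_neg hcd, if_neg hcd, hvw]
  have gd : Fac (wl a2 X2) (G {d}) := by
    intro v w hvw
    show ((if ({d} : Finset K) = {c} then wl a1 X1 v else none), (if ({d} : Finset K) = {d} then wl a2 X2 v else none)) =
      ((if ({d} : Finset K) = {c} then wl a1 X1 w else none), (if ({d} : Finset K) = {d} then wl a2 X2 w else none))
    rw [if_pos rfl, if_pos rfl, if_neg hcd.symm, if_neg hcd.symm, hvw]
  have kc := cost_wl B I hX1 a1 gc
  have kd := cost_wl B.swap I hX2 a2 gd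
  set C1 : ℝ := ((D.P h t).cond V).Pr a1 * (Real.log (1 / ((D.P h t).cond V).Pr a1) + 1 + Real.log (1 / al)) with hC1
  set C2 : ℝ := ((D.P h t).cond V).Pr a2 * (Real.log (1 / ((D.P h t).cond V).Pr a2) + 1 + Real.log (1 / al)) with hC2
  have hcJ' : ∀ J', J' ≠ {c} → J' ≠ {d} → cost PE (fun I w => BB D t I w.1) (fun I w => LL U I w.1)
      (fun J' w => G J' (m w)) J' = 0 := by
    intro J' hJ1 hJ2
    refine cost_const fun v w => ?_
    show ((if J' = {c} then wl a1 X1 (m v) else none), (if J' = {d} then wl a2 X2 (m v) else none)) =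
      ((if J' = {c} then wl a1 X1 (m w) else none), (if J' = {d} then wl a2 X2 (m w) else none))
    rw [if_neg hJ1, if_neg hJ1, if_neg hJ2, if_neg hJ2]
  have hcost : ∑ J' ∈ S, N J' * cost PE (fun I w => BB D t I w.1) (fun I w => LL U I w.1) (fun J' w => G J' (m w)) J' ≤
      N {c} * C1 + N {d} * C2 := by
    have h2 : ∀ J' ∈ S, N J' * cost PE (fun I w => BB D t I w.1) (fun I w => LL U I w.1)
        (fun J' w => G J' (m w)) J' ≤ (if J' = {c} then N {c} * C1 else 0) + (if J' = {d} then N {d} * C2 else 0) := by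
      intro J' hJ'
      by_cases h1 : J' = {c}
      · subst h1
        rw [if_pos rfl, if_neg hcd, add_zero]
        exact mul_le_mul_of_nonneg_left kc (B.nn {c} (B.s1 c))
      · by_cases h2 : J' = {d}
        · subst h2
          rw [if_pos rfl, if_neg h1, zero_add]
          exact mul_le_mul_of_nonneg_left kd (B.nn {d} (B.s1 d))
        · rw [if_neg h1, if_neg h2, hcJ' J' h1 h2, mul_zero, add_zero]
    refine (Finset.sum_le_sum h2).trans (le_of_eq ?_)
    rw [Finset.sum_add_distrib, Finset.sum_ite_eq' S {c}, if_pos (B.s1 c), Finset.sum_ite_eq' S {d}, if_pos (B.s1 d)]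
  have h1 := ex_bound (h := h) B.dep B.sat B.nn B.era B.s0 (I := {b}) (J0 := J) (B.s2 b) ⟨c, hcJ⟩ hdisj (w0 := w0) I.supp
    I.ev I.neB hGI hcost
  have hPQ : ((D.P h t).cond (xc D U t {b} w0)).cond V = (D.P h t).cond V := I.condB
  rw [hPQ] at h1
  change N J * (((D.P h t).cond V).klc (QB h U t b w0) (LL U J) (fun w => (lo (LL U) J w, BB D t J w)) +
    ((D.P h t).cond V).I (LL U J) (lo G J) (fun w => (lo (LL U) J w, BB D t J w))) ≤
    2 * N ∅ * (Lb h U t b w0 V + 1) + _ at h1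
  have hac : ((D.P h t).cond V).Ac (QB h U t b w0) := I.acB
  -- fibres
  have hfib : ∀ v w, (QB h U t b w0).p v ≠ 0 → (QB h U t b w0).p w ≠ 0 →
      ((zf U c v, zf U d v) = (zf U c w, zf U d w) ↔ (lo (LL U) J v, BB D t J v) = (lo (LL U) J w, BB D t J w)) := by
    intro v w hv hw
    have hx := xc_pub (QB_supp I.supp hv) (QB_supp I.supp hw)
    rw [fib2 (U := U) (p := c) (q := d) (r := b) B.cd B.bc.symm B.bd.symm (fun j => by
      rcases B.all j with h1 | h1 | h1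
      · exact Or.inr (Or.inr h1)
      · exact Or.inl h1
      · exact Or.inr (Or.inl h1)) hx.1 hx.2, Prod.mk.injEq]
  have e1 : ((D.P h t).cond V).klc (QB h U t b w0) Yl (fun w => (zf U c w, zf U d w)) ≤
      ((D.P h t).cond V).klc (QB h U t b w0) (LL U J) (fun w => (lo (LL U) J w, BB D t J w)) := by
    rw [klc_congr_supp hac (L := Yl) (L' := Yl) (Z := fun w => (zf U c w, zf U d w))
      (Z' := fun w => (lo (LL U) J w, BB D t J w)) hfib (fun _ _ _ _ _ => Iff.rfl)]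
    exact klc_mono hac fun v w hvw => hYl v w (congrArg Prod.fst hvw)
  have e2 : ((D.P h t).cond V).I Yl (fun w => (wl a1 X1 w, wl a2 X2 w)) (fun w => (zf U c w, zf U d w)) ≤
      ((D.P h t).cond V).I (LL U J) (lo G J) (fun w => (lo (LL U) J w, BB D t J w)) := by
    rw [I_supp (P := (D.P h t).cond V) (X1 := Yl) (X2 := Yl)
      (Y1 := fun w => (wl a1 X1 w, wl a2 X2 w)) (Y2 := fun w => (wl a1 X1 w, wl a2 X2 w)) (Z1 := fun w => (zf U c w, zf U d w))
      (Z2 := fun w => (lo (LL U) J w, BB D t J w)) (fun _ _ _ _ => Iff.rfl) (fun _ _ _ _ => Iff.rfl)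
      (fun v w hv hw => hfib v w (hac v hv) (hac w hw))]
    refine le_trans (FP.I_mono _ (X := LL U J) (X' := Yl) _ fun v w hvw => hYl v w (congrArg Prod.fst hvw)) ?_
    rw [FP.I_comm, FP.I_comm _ (LL U J) (lo G J)]
    refine FP.I_mono _ (X := lo G J) (X' := fun w => (wl a1 X1 w, wl a2 X2 w)) _ fun v w hvw => ?_
    have h4 : lo G J v = lo G J w := congrArg Prod.fst hvw
    have hcss : ({c} : Finset K) ⊂ J := by
      rw [Finset.ssubset_iff_of_subset (Finset.singleton_subset_iff.2 hcJ)]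
      exact ⟨d, hdJ, fun hh => B.cd (Finset.mem_singleton.1 hh).symm⟩
    have hdss : ({d} : Finset K) ⊂ J := by
      rw [Finset.ssubset_iff_of_subset (Finset.singleton_subset_iff.2 hdJ)]
      exact ⟨c, hcJ, fun hh => B.cd (Finset.mem_singleton.1 hh)⟩
    have h6 : (if ({c} : Finset K) = {c} then wl a1 X1 v else none) =
      if ({c} : Finset K) = {c} then wl a1 X1 w else none := congrArg Prod.fst (lo_eq.1 h4 {c} hcss)
    have h7 : (if ({d} : Finset K) = {d} then wl a2 X2 v else none) =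
      if ({d} : Finset K) = {d} then wl a2 X2 w else none := congrArg Prod.snd (lo_eq.1 h4 {d} hdss)
    rw [if_pos rfl, if_pos rfl] at h6 h7
    exact Prod.ext h6 h7
  have hNJ := (B.n2 b).le
  have h2 := mul_le_mul_of_nonneg_left (add_le_add e1 e2) hNJ
  linarith

end bit2

section avg2

variable {K X β γ φ υ : Type} [Fintype K] [DecidableEq K] [Fintype X] [Fintype β] [Fintype φ] [Nonempty X] [Nonempty β]
  {D : HD K X β γ φ} {al : ℝ} {h : D.Thick al} {N : Finset K → ℝ} {S : Finset (Finset K)}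
  {U : Finset K → X → (K → β) → υ} {t : ℕ} {b c d : K} {w0 : Pt K X β φ}

/-- **THE INTEGRAND, one class** (all maps known everywhere) -/
theorem ns2_log0 (B : Bk h N S U t b c d) (hw0 : (D.P h t).p w0 ≠ 0) {τ τ' ρ : Type} {X1 : Pt K X β φ → τ}
    (hX1 : Fac (fun w : Pt K X β φ => (w.2.2 d, Wf D U t w)) X1) {X2 : Pt K X β φ → τ'}
    (hX2 : Fac (fun w : Pt K X β φ => (w.2.2 c, Wf D U t w)) X2) {Yl : Pt K X β φ → ρ}
    (hYl : Fac (fun w : Pt K X β φ => (w.2.2 b, Zf D U t b w)) Yl)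
    {a1 a2 : Pt K X β φ → Prop} (ha1 : Fac (fun w => (w.1, BB D t {b, c} w, w.2.2 d)) a1)
    (ha2 : Fac (fun w => (w.1, BB D t {b, d} w, w.2.2 c)) a2)
    (hax : ∀ v w, (D.P h t).p v ≠ 0 → (D.P h t).p w ≠ 0 → X1 v = X1 w → X2 v = X2 w → Wf D U t v = Wf D U t w →
      (a1 v ∧ a2 v ↔ a1 w ∧ a2 w)) :
    N (univ.erase b) * ((D.P h t).cond (clsb U (pub0 D t U w0) b w0)).E (fun w => ind (a1 w ∧ a2 w) *
      Real.log ((D.P h t).pv (fun v => ((X1 v, X2 v), Wf D U t v)) Yl w (Yl w) / (D.P h t).pv (Zf D U t b) Yl w (Yl w))) ≤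
      2 * N ∅ * (lsb h U t b w0 + 1) + 2 * (N {c} * (pib h U t b a1 w0 *
        (Real.log (1 / pib h U t b a1 w0) + 1 + Real.log (1 / al))) + N {d} * (pib h U t b a2 w0 *
        (Real.log (1 / pib h U t b a2 w0) + 1 + Real.log (1 / al)))) := by
  set V := clsb U (pub0 D t U w0) b w0 with hV
  have I : Ib h U t b w0 V := cls_I B hw0
  set Q := (D.P h t).cond V with hQ
  have hV0 : (D.P h t).Pr V ≠ 0 := I.ne
  have k := ns2_class B I (X1 := fun w => w.2.2 d) (Fac.refl _) (X2 := fun w => w.2.2 c) (Fac.refl _)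
    (Yl := LL (φ := φ) U (univ.erase b)) (Fac.refl _) ha1 ha2
  rw [← pib_eq hw0, ← pib_eq hw0] at k
  have hac : Q.Ac (QB h U t b w0) := I.acB
  have hsup : ∀ v, Q.p v ≠ 0 → V v ∧ (D.P h t).p v ≠ 0 := fun v hv => cond_supp hV0 hv
  -- fibres
  have hfB : ∀ v w, (QB h U t b w0).p v ≠ 0 → (QB h U t b w0).p w ≠ 0 →
      ((zf U c v, zf U d v) = (zf U c w, zf U d w) ↔ Zf D U t b v = Zf D U t b w) := by
    intro v w hv hw
    have xv := QB_supp hw0 hv
    have xw := QB_supp hw0 hw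
    have h1 : le (LL U) ∅ v = le (LL U) ∅ w := xv.1.trans xw.1.symm
    rw [Zf_iff B h1 (xc_pub xv xw).1, Prod.mk.injEq (zf U c v)]
  have hfW : ∀ v w, V v → V w → (Zf D U t b v = Zf D U t b w ↔ Wf D U t v = Wf D U t w) := by
    intro v w hv hw
    have h1 : (le (LL U) ∅ v, BB D t ∅ v) = (le (LL U) ∅ w, BB D t ∅ w) :=
      (show (le (LL U) ∅ v, BB D t ∅ v) = (le (LL U) ∅ w0, BB D t ∅ w0) from hv.1).trans
        (show (le (LL U) ∅ w, BB D t ∅ w) = (le (LL U) ∅ w0, BB D t ∅ w0) from hw.1).symm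
    have h2 := Prod.mk.inj h1
    rw [Zf_iff B h2.1 h2.2]
    unfold Wf
    rw [Prod.mk.injEq (le (LL U) ∅ v, BB D t ∅ v)]
    constructor
    · intro hh
      refine ⟨h1, funext fun j => ?_⟩
      rcases B.all j with h7 | h7 | h7
      · rw [h7]
        unfold zf
        rw [hv.2.1, hv.2.2, hw.2.1, hw.2.2]
      · rw [h7]; exact hh.1
      · rw [h7]; exact hh.2
    · intro hh
      exact ⟨congrFun hh.2 c, congrFun hh.2 d⟩
  -- from the plain labels
  have e1 : Q.klc (QB h U t b w0) Yl (Zf D U t b) ≤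
      Q.klc (QB h U t b w0) (LL U (univ.erase b)) (fun w => (zf U c w, zf U d w)) := by
    rw [klc_congr_supp hac (L := LL U (univ.erase b)) (L' := LL U (univ.erase b)) (Z := fun w => (zf U c w, zf U d w))
      (Z' := Zf D U t b) hfB (fun _ _ _ _ _ => Iff.rfl)]
    refine klc_mono hac fun v w hvw => hYl v w ?_
    rw [Prod.mk.injEq] at hvw ⊢
    exact ⟨(LL_eq.1 hvw.1).2 b rfl, hvw.2⟩
  have e2 : Q.I Yl (wl (fun w => a1 w ∧ a2 w) (fun w => (X1 w, X2 w))) (Zf D U t b) ≤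
      Q.I (LL U (univ.erase b)) (fun w => (wl a1 (fun w => w.2.2 d) w, wl a2 (fun w => w.2.2 c) w))
        (fun w => (zf U c w, zf U d w)) := by
    rw [I_supp (P := Q) (X1 := LL U (univ.erase b)) (X2 := LL U (univ.erase b))
      (Y1 := fun w => (wl a1 (fun w : Pt K X β φ => w.2.2 d) w, wl a2 (fun w : Pt K X β φ => w.2.2 c) w))
      (Y2 := fun w => (wl a1 (fun w : Pt K X β φ => w.2.2 d) w, wl a2 (fun w : Pt K X β φ => w.2.2 c) w))
      (Z1 := fun w => (zf U c w, zf U d w)) (Z2 := Wf D U t) (fun _ _ _ _ => Iff.rfl) (fun _ _ _ _ => Iff.rfl)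
      (fun v w hv hw => (hfB v w (hac v hv) (hac w hw)).trans (hfW v w (hsup v hv).1 (hsup w hw).1)),
      I_supp (P := Q) (X1 := Yl) (X2 := Yl) (Y1 := wl (fun w => a1 w ∧ a2 w) (fun w => (X1 w, X2 w)))
      (Y2 := wl (fun w => a1 w ∧ a2 w) (fun w => (X1 w, X2 w)))
      (Z1 := Zf D U t b) (Z2 := Wf D U t) (fun _ _ _ _ => Iff.rfl) (fun _ _ _ _ => Iff.rfl)
      (fun v w hv hw => hfW v w (hsup v hv).1 (hsup w hw).1)]
    refine le_trans (FP.I_mono _ (X := LL U (univ.erase b)) (X' := Yl) _ fun v w hvw => ?_) ?_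
    · rw [Prod.mk.injEq] at hvw
      exact hYl v w (Prod.ext ((LL_eq.1 hvw.1).2 b rfl) (Wf_Zf B v w hvw.2))
    · rw [FP.I_comm, FP.I_comm _ (LL U (univ.erase b))]
      refine FP.I_mono _ (X := fun w => (wl a1 (fun w : Pt K X β φ => w.2.2 d) w, wl a2 (fun w : Pt K X β φ => w.2.2 c) w))
        (X' := wl (fun w => a1 w ∧ a2 w) (fun w => (X1 w, X2 w))) _ fun v w hvw => ?_
      rw [Prod.mk.injEq, Prod.mk.injEq (wl a1 _ v)] at hvw
      obtain ⟨⟨h1, h1'⟩, h2⟩ := hvw
      by_cases hw : a1 w ∧ a2 w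
      · have h3 := (wl_eq hw.1).1 h1
        have h4 := (wl_eq hw.2).1 h1'
        exact (wl_eq (act := fun w => a1 w ∧ a2 w) hw).2 ⟨⟨h3.1, h4.1⟩,
          Prod.ext (hX1 v w (Prod.ext h3.2 h2)) (hX2 v w (Prod.ext h4.2 h2))⟩
      · have hv : ¬ (a1 v ∧ a2 v) := by
          have h3 : a1 v = a1 w := ind_wl_fac a1 (fun w : Pt K X β φ => w.2.2 d) v w h1
          have h4 : a2 v = a2 w := ind_wl_fac a2 (fun w : Pt K X β φ => w.2.2 c) v w h1'
          rw [h3, h4]; exact hw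
        rw [wl_out (act := fun w => a1 w ∧ a2 w) hv, wl_out (act := fun w => a1 w ∧ a2 w) hw]
  have k2 := log_wl_le (P := QB h U t b w0) (Q := Q) hac (X := fun w => (X1 w, X2 w)) (Y := Yl) (Z := Zf D U t b)
    (act := fun w => a1 w ∧ a2 w)
    (fun v w hv hw hx hz => hax v w (hsup v hv).2 (hsup w hw).2 (Prod.mk.inj hx).1 (Prod.mk.inj hx).2
      ((hfW v w (hsup v hv).1 (hsup w hw).1).1 hz))
  have hNJ := (B.n2 b).le
  have e : Q.E (fun w => ind (a1 w ∧ a2 w) *
      Real.log ((D.P h t).pv (fun v => ((X1 v, X2 v), Wf D U t v)) Yl w (Yl w) / (D.P h t).pv (Zf D U t b) Yl w (Yl w))) =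
      Q.E (fun w => ind (a1 w ∧ a2 w) *
      Real.log (Q.pv (fun v => ((X1 v, X2 v), Zf D U t b v)) Yl w (Yl w) /
        (QB h U t b w0).pv (Zf D U t b) Yl w (Yl w))) := by
    refine Q.E_congr fun w hw => ?_
    obtain ⟨hVw, hp⟩ := hsup w hw
    have a1' : (D.P h t).pv (Zf D U t b) Yl w (Yl w) = (QB h U t b w0).pv (Zf D U t b) Yl w (Yl w) := by
      rw [pv_own B hYl hp, I.QB_mv hVw]
    have a2' : (D.P h t).pv (fun v => ((X1 v, X2 v), Wf D U t v)) Yl w (Yl w) =
        Q.pv (fun v => ((X1 v, X2 v), Zf D U t b v)) Yl w (Yl w) := by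
      have hC : Fac (fun v => ((X1 v, X2 v), Wf D U t v)) V := (Fac.snd _ _).trans Wf_cls
      rw [← cond_pv hC hV0 Yl hVw (Yl w)]
      refine pv_supp (fun v hv => ?_) (fun _ _ => rfl) _
      rw [Prod.mk.injEq, Prod.mk.injEq (X1 v, X2 v), hfW v w (hsup v hv).1 hVw]
    rw [a1', a2']
  rw [e]
  have h3 := mul_le_mul_of_nonneg_left (k2.trans (add_le_add e1 e2)) hNJ
  exact h3.trans k

/-- **THE INTEGRAND, one class** (maps known on the support) -/
theorem ns2_log (B : Bk h N S U t b c d) (hw0 : (D.P h t).p w0 ≠ 0) {τ τ' ρ : Type} {X1 : Pt K X β φ → τ}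
    (hX1 : ∀ v w, (D.P h t).p v ≠ 0 → (D.P h t).p w ≠ 0 → v.2.2 d = w.2.2 d → Wf D U t v = Wf D U t w → X1 v = X1 w)
    {X2 : Pt K X β φ → τ'}
    (hX2 : ∀ v w, (D.P h t).p v ≠ 0 → (D.P h t).p w ≠ 0 → v.2.2 c = w.2.2 c → Wf D U t v = Wf D U t w → X2 v = X2 w)
    {Yl : Pt K X β φ → ρ} (hYl : ∀ v w, (D.P h t).p v ≠ 0 → (D.P h t).p w ≠ 0 → v.2.2 b = w.2.2 b →
      Zf D U t b v = Zf D U t b w → Yl v = Yl w)
    {a1 a2 : Pt K X β φ → Prop} (ha1 : ∀ v w, (D.P h t).p v ≠ 0 → (D.P h t).p w ≠ 0 → v.1 = w.1 →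
      BB D t {b, c} v = BB D t {b, c} w → v.2.2 d = w.2.2 d → (a1 v ↔ a1 w))
    (ha2 : ∀ v w, (D.P h t).p v ≠ 0 → (D.P h t).p w ≠ 0 → v.1 = w.1 →
      BB D t {b, d} v = BB D t {b, d} w → v.2.2 c = w.2.2 c → (a2 v ↔ a2 w))
    (hax : ∀ v w, (D.P h t).p v ≠ 0 → (D.P h t).p w ≠ 0 → X1 v = X1 w → X2 v = X2 w → Wf D U t v = Wf D U t w →
      (a1 v ∧ a2 v ↔ a1 w ∧ a2 w)) :
    N (univ.erase b) * ((D.P h t).cond (clsb U (pub0 D t U w0) b w0)).E (fun w => ind (a1 w ∧ a2 w) *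
      Real.log ((D.P h t).pv (fun v => ((X1 v, X2 v), Wf D U t v)) Yl w (Yl w) / (D.P h t).pv (Zf D U t b) Yl w (Yl w))) ≤
      2 * N ∅ * (lsb h U t b w0 + 1) + 2 * (N {c} * (pib h U t b a1 w0 *
        (Real.log (1 / pib h U t b a1 w0) + 1 + Real.log (1 / al))) + N {d} * (pib h U t b a2 w0 *
        (Real.log (1 / pib h U t b a2 w0) + 1 + Real.log (1 / al)))) := by
  obtain ⟨X', x1, x2⟩ := ext_fac (P := D.P h t) (W := fun w : Pt K X β φ => (w.2.2 d, Wf D U t w)) (g := X1)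
    (fun v w hv hw hvw => hX1 v w hv hw (congrArg Prod.fst hvw) (congrArg Prod.snd hvw))
  obtain ⟨X'', x3, x4⟩ := ext_fac (P := D.P h t) (W := fun w : Pt K X β φ => (w.2.2 c, Wf D U t w)) (g := X2)
    (fun v w hv hw hvw => hX2 v w hv hw (congrArg Prod.fst hvw) (congrArg Prod.snd hvw))
  obtain ⟨Y', y1, y2⟩ := ext_fac (P := D.P h t) (W := fun w : Pt K X β φ => (w.2.2 b, Zf D U t b w)) (g := Yl)
    (fun v w hv hw hvw => hYl v w hv hw (congrArg Prod.fst hvw) (congrArg Prod.snd hvw))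
  obtain ⟨a', b1, b2⟩ := ext_fac (P := D.P h t) (W := fun w : Pt K X β φ => (w.1, BB D t {b, c} w, w.2.2 d)) (g := a1)
    (fun v w hv hw hvw => by
      simp only [Prod.mk.injEq] at hvw
      exact propext (ha1 v w hv hw hvw.1 hvw.2.1 hvw.2.2))
  obtain ⟨a'', b3, b4⟩ := ext_fac (P := D.P h t) (W := fun w : Pt K X β φ => (w.1, BB D t {b, d} w, w.2.2 c)) (g := a2)
    (fun v w hv hw hvw => by
      simp only [Prod.mk.injEq] at hvw
      exact propext (ha2 v w hv hw hvw.1 hvw.2.1 hvw.2.2))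
  have k := ns2_log0 B hw0 x1 x3 y1 b1 b3 (fun v w hv hw hx hx' hz => by
    rw [b2 v hv, b2 w hw, b4 v hv, b4 w hw]
    exact hax v w hv hw (by rw [← x2 v hv, ← x2 w hw]; exact hx) (by rw [← x4 v hv, ← x4 w hw]; exact hx') hz)
  have e0 : pib h U t b a' w0 = pib h U t b a1 w0 := by
    unfold pib
    exact (D.P h t).ce_congr (fun v hv => by rw [b2 v hv]) w0
  have e0' : pib h U t b a'' w0 = pib h U t b a2 w0 := by
    unfold pib
    exact (D.P h t).ce_congr (fun v hv => by rw [b4 v hv]) w0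
  have hV0 := (cls_I (w0 := w0) B hw0).ne
  rw [e0, e0'] at k
  refine le_trans (le_of_eq ?_) k
  congr 1
  refine FP.E_congr _ fun w hw => ?_
  have hp := (cond_supp hV0 hw).2
  rw [b2 w hp, b4 w hp, y2 w hp]
  have e1 : (D.P h t).pv (fun v => ((X1 v, X2 v), Wf D U t v)) Yl w (Yl w) =
      (D.P h t).pv (fun v => ((X' v, X'' v), Wf D U t v)) Y' w (Yl w) :=
    pv_supp (fun v hv => by rw [Prod.mk.injEq, Prod.mk.injEq (X' v, X'' v), Prod.mk.injEq (X1 v), Prod.mk.injEq (X' v),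
      x2 v hv, x2 w hp, x4 v hv, x4 w hp]) (fun v hv => (y2 v hv).symm) _
  have e2 : (D.P h t).pv (Zf D U t b) Yl w (Yl w) = (D.P h t).pv (Zf D U t b) Y' w (Yl w) :=
    pv_supp (fun v hv => Iff.rfl) (fun v hv => (y2 v hv).symm) _
  rw [e1, e2]

/-- **THE INTEGRAND, mean over the classes** with a weight of the class -/
theorem ns2_avg (B : Bk h N S U t b c d) {τ τ' ρ : Type} {X1 : Pt K X β φ → τ}
    (hX1 : ∀ v w, (D.P h t).p v ≠ 0 → (D.P h t).p w ≠ 0 → v.2.2 d = w.2.2 d → Wf D U t v = Wf D U t w → X1 v = X1 w)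
    {X2 : Pt K X β φ → τ'}
    (hX2 : ∀ v w, (D.P h t).p v ≠ 0 → (D.P h t).p w ≠ 0 → v.2.2 c = w.2.2 c → Wf D U t v = Wf D U t w → X2 v = X2 w)
    {Yl : Pt K X β φ → ρ} (hYl : ∀ v w, (D.P h t).p v ≠ 0 → (D.P h t).p w ≠ 0 → v.2.2 b = w.2.2 b →
      Zf D U t b v = Zf D U t b w → Yl v = Yl w)
    {a1 a2 : Pt K X β φ → Prop} (ha1 : ∀ v w, (D.P h t).p v ≠ 0 → (D.P h t).p w ≠ 0 → v.1 = w.1 →
      BB D t {b, c} v = BB D t {b, c} w → v.2.2 d = w.2.2 d → (a1 v ↔ a1 w))
    (ha2 : ∀ v w, (D.P h t).p v ≠ 0 → (D.P h t).p w ≠ 0 → v.1 = w.1 →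
      BB D t {b, d} v = BB D t {b, d} w → v.2.2 c = w.2.2 c → (a2 v ↔ a2 w))
    (hax : ∀ v w, (D.P h t).p v ≠ 0 → (D.P h t).p w ≠ 0 → X1 v = X1 w → X2 v = X2 w → Wf D U t v = Wf D U t w →
      (a1 v ∧ a2 v ↔ a1 w ∧ a2 w))
    {g : Pt K X β φ → ℝ} (hg : Fac (cbm D U t b) g) (g0 : ∀ w, 0 ≤ g w) :
    N (univ.erase b) * (D.P h t).E (fun w => g w * (ind (a1 w ∧ a2 w) *
      Real.log ((D.P h t).pv (fun v => ((X1 v, X2 v), Wf D U t v)) Yl w (Yl w) / (D.P h t).pv (Zf D U t b) Yl w (Yl w)))) ≤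
      2 * N ∅ * (D.P h t).E (fun w => g w * (lsb h U t b w + 1)) +
        2 * (N {c} * (D.P h t).E (fun w => g w * (pib h U t b a1 w *
        (Real.log (1 / pib h U t b a1 w) + 1 + Real.log (1 / al)))) +
        N {d} * (D.P h t).E (fun w => g w * (pib h U t b a2 w *
        (Real.log (1 / pib h U t b a2 w) + 1 + Real.log (1 / al))))) := by
  set P := D.P h t with hP
  set L : Pt K X β φ → ℝ := fun w => ind (a1 w ∧ a2 w) *
    Real.log (P.pv (fun v => ((X1 v, X2 v), Wf D U t v)) Yl w (Yl w) / P.pv (Zf D U t b) Yl w (Yl w)) with hL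
  rw [← P.E_mul_ce hg, ← P.E_smul, ← P.E_smul, ← P.E_smul, ← P.E_smul, ← P.E_add, ← P.E_smul, ← P.E_add]
  refine P.E_mono fun w hw => ?_
  have k := ns2_log (w0 := w) B hw hX1 hX2 hYl ha1 ha2 hax
  have e : P.ce (cbm D U t b) L w = (P.cond (clsb U (pub0 D t U w) b w)).E L := by
    rw [P.ce_eq_cond _ _ hw, cbm_cls]
  rw [e]
  have h1 := mul_le_mul_of_nonneg_left k (g0 w)
  show N (univ.erase b) * (g w * (P.cond (clsb U (pub0 D t U w) b w)).E L) ≤ _
  have h2 : N (univ.erase b) * (g w * (P.cond (clsb U (pub0 D t U w) b w)).E L) =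
      g w * (N (univ.erase b) * (P.cond (clsb U (pub0 D t U w) b w)).E L) := by ring
  rw [h2]
  refine h1.trans (le_of_eq ?_)
  ring

/-- **linear form** : `G` an event of the class, letters of surprise at most `Lo` there, any `cc > 0` -/
theorem ns2_lin (B : Bk h N S U t b c d) {τ τ' ρ : Type} {X1 : Pt K X β φ → τ}
    (hX1 : ∀ v w, (D.P h t).p v ≠ 0 → (D.P h t).p w ≠ 0 → v.2.2 d = w.2.2 d → Wf D U t v = Wf D U t w → X1 v = X1 w)
    {X2 : Pt K X β φ → τ'}
    (hX2 : ∀ v w, (D.P h t).p v ≠ 0 → (D.P h t).p w ≠ 0 → v.2.2 c = w.2.2 c → Wf D U t v = Wf D U t w → X2 v = X2 w)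
    {Yl : Pt K X β φ → ρ} (hYl : ∀ v w, (D.P h t).p v ≠ 0 → (D.P h t).p w ≠ 0 → v.2.2 b = w.2.2 b →
      Zf D U t b v = Zf D U t b w → Yl v = Yl w)
    {a1 a2 : Pt K X β φ → Prop} (ha1 : ∀ v w, (D.P h t).p v ≠ 0 → (D.P h t).p w ≠ 0 → v.1 = w.1 →
      BB D t {b, c} v = BB D t {b, c} w → v.2.2 d = w.2.2 d → (a1 v ↔ a1 w))
    (ha2 : ∀ v w, (D.P h t).p v ≠ 0 → (D.P h t).p w ≠ 0 → v.1 = w.1 →
      BB D t {b, d} v = BB D t {b, d} w → v.2.2 c = w.2.2 c → (a2 v ↔ a2 w))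
    (hax : ∀ v w, (D.P h t).p v ≠ 0 → (D.P h t).p w ≠ 0 → X1 v = X1 w → X2 v = X2 w → Wf D U t v = Wf D U t w →
      (a1 v ∧ a2 v ↔ a1 w ∧ a2 w))
    {G : Pt K X β φ → Prop} (hG : Fac (cbm D U t b) G) {Lo : ℝ}
    (hLo : ∀ w, (D.P h t).p w ≠ 0 → G w → lsb h U t b w ≤ Lo) {cc : ℝ} (hcc : 0 < cc) :
    N (univ.erase b) * (D.P h t).E (fun w => ind (G w) * (ind (a1 w ∧ a2 w) *
      Real.log ((D.P h t).pv (fun v => ((X1 v, X2 v), Wf D U t v)) Yl w (Yl w) / (D.P h t).pv (Zf D U t b) Yl w (Yl w)))) ≤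
      2 * N ∅ * ((Lo + 1) * (D.P h t).Pr G) +
        2 * (N {c} * ((Real.log cc + 1 + Real.log (1 / al)) * (D.P h t).Pr (fun w => G w ∧ a1 w) +
          1 / cc * (D.P h t).Pr G) + N {d} * ((Real.log cc + 1 + Real.log (1 / al)) * (D.P h t).Pr (fun w => G w ∧ a2 w) +
          1 / cc * (D.P h t).Pr G)) := by
  have hfG : Fac (cbm D U t b) (fun w => ind (G w)) := hG.comp fun q => ind q
  refine (ns2_avg B hX1 hX2 hYl ha1 ha2 hax hfG fun w => ind_nonneg _).trans (add_le_add ?_ ?_)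
  · have h1 : (D.P h t).E (fun w => ind (G w) * (lsb h U t b w + 1)) ≤ (Lo + 1) * (D.P h t).Pr G := by
      unfold FP.Pr
      rw [← FP.E_smul]
      refine FP.E_mono _ fun w hw => ?_
      by_cases hGw : G w
      · rw [ind_of hGw, one_mul, mul_one]
        have := hLo w hw hGw
        linarith
      · rw [ind_not hGw, zero_mul, mul_zero]
    exact mul_le_mul_of_nonneg_left h1 (mul_nonneg (by norm_num) (B.nn ∅ B.s0))
  · have key : ∀ act : Pt K X β φ → Prop, (D.P h t).E (fun w => ind (G w) * (pib h U t b act w *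
        (Real.log (1 / pib h U t b act w) + 1 + Real.log (1 / al)))) ≤
        (Real.log cc + 1 + Real.log (1 / al)) * (D.P h t).Pr (fun w => G w ∧ act w) + 1 / cc * (D.P h t).Pr G := by
      intro act
      have h2 : (D.P h t).Pr (fun w => G w ∧ act w) = (D.P h t).E (fun w => ind (G w) * pib h U t b act w) := by
        unfold pib
        rw [FP.E_mul_ce _ hfG]
        exact FP.E_congr _ fun w _ => ind_and _ _
      rw [h2, ← FP.E_smul]
      unfold FP.Pr
      rw [← FP.E_smul, ← FP.E_add]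
      refine FP.E_mono _ fun w hw => ?_
      have h3 := ent_lin (pib_nonneg (h := h) (U := U) (t := t) (b := b) (act := act) w) hcc
      have h4 := mul_le_mul_of_nonneg_left h3 (ind_nonneg (G w))
      nlinarith [h4]
    exact mul_le_mul_of_nonneg_left (add_le_add (mul_le_mul_of_nonneg_left (key a1) (B.nn {c} (B.s1 c)))
      (mul_le_mul_of_nonneg_left (key a2) (B.nn {d} (B.s1 d)))) (by norm_num)

end avg2

namespace TP

open Pool.Agent.GMH.NZ Pool.Agent.GMH.V3

noncomputable section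

namespace RowD

open HotNR

variable {X β γ φ : Type} [Fintype X] [Fintype β] [Fintype φ] [Nonempty X] [Nonempty β]
variable {D : HD (Fin 3) X β γ φ} {al : ℝ} {h : D.Thick al} {v : ℕ → Finset (Fin 3) → X → (Fin 3 → β) → Pt (Fin 3) X β φ}
variable {dg : ℕ → X → ℝ} {prr : ℕ → Fin 3 → φ → φ} {T : ℕ} {Lam : ℝ} {t : ℕ} {b c d : Fin 3}

/-- an event of the face, transported to the next time -/
theorem act_tr (H : D.Hyp dg prr al T Lam) {n N1 : ℝ} (hn : 1 ≤ n) (hN1 : 1 ≤ N1)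
    (R : Run h (pr3 (Fin 3) n N1) (SS1 (Fin 3)) (AdmDep D) v) (ht : t < T) (bc : b ≠ c) (bd : b ≠ d) (cd : c ≠ d)
    {act : Pt (Fin 3) X β φ → Prop} (hact : Fac (fun w => (w.1, BB D (t + 1) {b, c} w, FQ v t d w)) act)
    {a e : Pt (Fin 3) X β φ} (ha : (D.P h (t + 1)).p a ≠ 0) (he : (D.P h (t + 1)).p e ≠ 0) (h1 : a.1 = e.1)
    (h2 : BB D (t + 1) {b, c} a = BB D (t + 1) {b, c} e) (h3 : a.2.2 d = e.2.2 d) :
    act (old prr t a) = act (old prr t e) := by
  have hN : ∀ l : Fin 3, 0 < pr3 (Fin 3) n N1 (univ.erase l) := fun l => zero_lt_one.trans_le (pr3_one hn hN1 _)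
  have B : Bk h (pr3 (Fin 3) n N1) (SS1 (Fin 3)) (Um v (t + 2)) (t + 1) b c d := TriB.Bk_run hn hN1 R bc bd cd (t + 1)
  have ed : (univ.erase d : Finset (Fin 3)) = {b, c} := B.rot'.era2
  have hZ : ZbQ D v (5 * t + 5) d a = ZbQ D v (5 * t + 5) d e := by
    rw [HotNR.ZbQ_5]
    refine Zf_fac B.rot' a e (Prod.ext h1 ?_)
    show BB D (t + 1) (univ.erase d) a = BB D (t + 1) (univ.erase d) e
    rw [ed]; exact h2
  have h4 := FQ_det1 H R hN ht d ha he h3 hZ
  exact hact (old prr t a) (old prr t e) (by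
    show (a.1, BB D (t + 1) {b, c} a, _) = (e.1, BB D (t + 1) {b, c} e, _)
    rw [h1, h2, h4])

/-- **BOTH TOPS WHICH SEE THE HARDWIRED VERTEX, RUN FORM** -/
theorem ns2_run {n N1 : ℝ} (hn : 1 ≤ n) (hN1 : 1 ≤ N1) (H : D.Hyp dg prr al T Lam)
    (R : Run h (pr3 (Fin 3) n N1) (SS1 (Fin 3)) (AdmDep D) v) (ht : t < T) (bc : b ≠ c) (bd : b ≠ d) (cd : c ≠ d)
    {a1 a2 : Pt (Fin 3) X β φ → Prop} (ha1 : Fac (fun w => (w.1, BB D (t + 1) {b, c} w, FQ v t d w)) a1)
    (ha2 : Fac (fun w => (w.1, BB D (t + 1) {b, d} w, FQ v t c w)) a2)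
    (hx1 : Fac (fun w => (FQ v t d w, ZQ D v (5 * t + 5) w)) a1)
    (hx2 : Fac (fun w => (FQ v t c w, ZQ D v (5 * t + 5) w)) a2)
    {G : Pt (Fin 3) X β φ → Prop} (hG : Fac (TriS.Cb D (Um v (t + 2)) (t + 1) b) G) {Lo : ℝ}
    (hLo : ∀ w, (D.P h t).p w ≠ 0 → G w → ssQ h v (5 * t + 5) b w ≤ Lo) {cc : ℝ} (hcc : 0 < cc) :
    (D.P h t).E (fun w => ind (G w) * (ind (a1 w ∧ a2 w) * Real.log
      ((D.P h t).pv (fun u => ((FQ v t d u, FQ v t c u), ZQ D v (5 * t + 5) u)) (FQ v t b) w (FQ v t b w) /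
        (D.P h t).pv (ZbQ D v (5 * t + 5) b) (FQ v t b) w (FQ v t b w)))) ≤
      2 / (n * N1) * ((Lo + 1) * (D.P h t).Pr G) +
        2 / n * ((Real.log cc + 1 + Real.log (1 / al)) * ((D.P h t).Pr (fun w => G w ∧ a1 w) +
          (D.P h t).Pr (fun w => G w ∧ a2 w)) + 2 / cc * (D.P h t).Pr G) := by
  have hN : ∀ l : Fin 3, 0 < pr3 (Fin 3) n N1 (univ.erase l) := fun l => zero_lt_one.trans_le (pr3_one hn hN1 _)
  have B : Bk h (pr3 (Fin 3) n N1) (SS1 (Fin 3)) (Um v (t + 2)) (t + 1) b c d := TriB.Bk_run hn hN1 R bc bd cd (t + 1)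
  have hpr := H.kf_pr t ht
  set P1 := D.P h (t + 1) with hP1
  set P0 := D.P h t with hP0
  set U := Um v (t + 2) with hU
  have hGo : ∀ w, G (old prr t w) = G w := fun w => hG _ _ (cb_old _ _ w)
  have hZo : ∀ w, ZQ D v (5 * t + 5) (old prr t w) = ZQ D v (5 * t + 5) w := fun w => TriS.ZQ_old (prr := prr) _ t w
  have k := ns2_lin (h := h) (t := t + 1) B (X1 := fun w => FQ v t d (old prr t w)) (fun a e ha he hl hW =>
      FQ_det1 H R hN ht d ha he hl (ZQ_Zb _ d a e ((Wf_ZQ bc bd cd).1 hW)))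
    (X2 := fun w => FQ v t c (old prr t w)) (fun a e ha he hl hW =>
      FQ_det1 H R hN ht c ha he hl (ZQ_Zb _ c a e ((Wf_ZQ bc bd cd).1 hW)))
    (Yl := fun w => FQ v t b (old prr t w)) (fun a e ha he hl hZ => by
      refine FQ_det1 H R hN ht b ha he hl ?_
      rw [HotNR.ZbQ_5]; exact hZ)
    (a1 := fun w => a1 (old prr t w)) (a2 := fun w => a2 (old prr t w))
    (fun a e ha he h1 h2 h3 => by rw [act_tr H hn hN1 R ht bc bd cd ha1 ha he h1 h2 h3])
    (fun a e ha he h1 h2 h3 => by rw [act_tr H hn hN1 R ht bd bc cd.symm ha2 ha he h1 h2 h3])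
    (fun a e ha he hx hx' hW => by
      have hz : ZQ D v (5 * t + 5) (old prr t a) = ZQ D v (5 * t + 5) (old prr t e) := by
        rw [hZo, hZo]
        exact (Wf_ZQ bc bd cd).1 hW
      have h5 := hx1 (old prr t a) (old prr t e) (Prod.ext hx hz)
      have h6 := hx2 (old prr t a) (old prr t e) (Prod.ext hx' hz)
      rw [h5, h6])
    (G := G) hG (Lo := Lo) (fun w hw hGw => by
      have h1 := hLo (old prr t w) (old_supp H ht hw) (by rw [hGo]; exact hGw)
      rw [ssQ_old, ← TriB.own_ss hw] at h1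
      exact h1) hcc
  -- the left side at the law of the time `t`
  have e1 : P0.E (fun w => ind (G w) * (ind (a1 w ∧ a2 w) * Real.log
      (P0.pv (fun u => ((FQ v t d u, FQ v t c u), ZQ D v (5 * t + 5) u)) (FQ v t b) w (FQ v t b w) /
        P0.pv (ZbQ D v (5 * t + 5) b) (FQ v t b) w (FQ v t b w)))) =
      P1.E (fun w => ind (G w) * (ind (a1 (old prr t w) ∧ a2 (old prr t w)) *
      Real.log (P1.pv (fun u => ((FQ v t d (old prr t u), FQ v t c (old prr t u)), Wf D U (t + 1) u))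
        (fun u => FQ v t b (old prr t u)) w (FQ v t b (old prr t w)) /
        P1.pv (Zf D U (t + 1) b) (fun u => FQ v t b (old prr t u)) w (FQ v t b (old prr t w))))) := by
    rw [← push_E h hpr]
    refine P1.E_congr fun w hw => ?_
    have b1 : P0.pv (fun u => ((FQ v t d u, FQ v t c u), ZQ D v (5 * t + 5) u)) (FQ v t b) (old prr t w)
        (FQ v t b (old prr t w)) =
        P1.pv (fun u => ((FQ v t d (old prr t u), FQ v t c (old prr t u)), Wf D U (t + 1) u))
        (fun u => FQ v t b (old prr t u)) w (FQ v t b (old prr t w)) := by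
      rw [← pv_push H ht]
      refine pv_supp (fun u _ => ?_) (fun _ _ => rfl) _
      rw [Prod.mk.injEq, Prod.mk.injEq (FQ v t d (old prr t u), FQ v t c (old prr t u)), hZo, hZo]
      exact and_congr_right fun _ => (Wf_ZQ bc bd cd).symm
    have b2 : P0.pv (ZbQ D v (5 * t + 5) b) (FQ v t b) (old prr t w) (FQ v t b (old prr t w)) =
        P1.pv (Zf D U (t + 1) b) (fun u => FQ v t b (old prr t u)) w (FQ v t b (old prr t w)) := by
      rw [← pv_push H ht, ← HotNR.ZbQ_5]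
      refine pv_supp (fun u _ => ?_) (fun _ _ => rfl) _
      rw [Zb_old, Zb_old]
    rw [b1, b2, hGo]
  have e2 : P1.Pr G = P0.Pr G := by
    have := push_E h hpr (fun w => ind (G w))
    unfold FP.Pr
    rw [← this]
    exact P1.E_congr fun w _ => by rw [hGo]
  have e3 : ∀ act : Pt (Fin 3) X β φ → Prop, P1.Pr (fun w => G w ∧ act (old prr t w)) = P0.Pr (fun w => G w ∧ act w) := by
    intro act
    have := push_E h hpr (fun w => ind (G w ∧ act w))
    unfold FP.Pr
    rw [← this]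
    exact P1.E_congr fun w _ => by rw [hGo]
  rw [e2, e3 a1, e3 a2, pr3_top (by simp) n N1 b] at k
  have e4 : pr3 (Fin 3) n N1 ∅ = 1 := by unfold pr3; simp
  have e5 : ∀ j, pr3 (Fin 3) n N1 {j} = N1 := fun j => by unfold pr3; simp
  rw [e4, e5, e5] at k
  rw [e1]
  have n0 : 0 < n := by linarith
  have N0 : 0 < N1 := by linarith
  have hp : 0 < n * N1 := mul_pos n0 N0
  have k' := (le_div_iff₀' hp).2 k
  refine k'.trans (le_of_eq ?_)
  field_simp
  ring

end RowD

end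

end TP

end Pool.Agent.GMH
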