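import Pool.Agent.GMH.P2S
import Pool.Agent.GMH.RowD

/-!
# GMH.P2SR: the relative P2 at the common vertex, for the run (helper93, over helper65's GMH/P2S)

Final state `5t + 5` of the step, law of the time `t`, tops `FQ v t`.  `b` = common exact vertex, `F_c` (it sees `b`, `d`) is
active, `F_d` (it sees `b`, `c`) is the row.
* **`p2s_run`** : `E 1_G 1_(act, letter of c typical) log (P(F_d | F_c, thin labels) / P(F_d | own))` at most
  `4/n ((2 (Lo + 1) + 2 k log ((e^Lc + 1)(1/al + 1)))/N1 P(G) + (log cc + 4 + log (1/al)) P(G, act) + P(G)/cc)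
  + (n R0^2/(4 k) + 2 ep) P(G, act)`;
* **`p2s_rare`**, **`p2s_rare_sum`** : `L P(G, act, F_d in Rr) ≤ ` the same `+ (e^L - 1) E 1_G 1_act P(Rr | own)`;
* `p2s_num` : the numbers chosen.
-/

set_option autoImplicit false
set_option linter.unusedSectionVars false
set_option linter.unusedVariables false

namespace Pool.Agent.GMH.TP

open Finset Pool.Agent.PWZ Pool.Agent.M3 Pool.Agent.GM Pool.Agent.GM.Harm Pool.Agent.GMH Pool.Agent.GMH.NZ
open Pool.Agent.GMH.V3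

noncomputable section

namespace P2SR

open HotNR RowD

variable {X β γ φ : Type} [Fintype X] [Fintype β] [Fintype φ] [Nonempty X] [Nonempty β]
variable {D : HD (Fin 3) X β γ φ} {al : ℝ} {h : D.Thick al} {v : ℕ → Finset (Fin 3) → X → (Fin 3 → β) → Pt (Fin 3) X β φ}
variable {dg : ℕ → X → ℝ} {prr : ℕ → Fin 3 → φ → φ} {T : ℕ} {Lam : ℝ} {t : ℕ} {b c d : Fin 3}

/-- right side of the relative P2: `g` = mass of the classes, `a` = active mass -/
def rhs (n N1 al Lo Lc R0 ep cc : ℝ) (k : ℕ) (g a : ℝ) : ℝ :=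
  4 / n * ((2 * (Lo + 1) + 2 * (k * Real.log ((Real.exp Lc + 1) * (1 / al + 1)))) / N1 * g +
    ((Real.log cc + 4 + Real.log (1 / al)) * a + 1 / cc * g)) + (n * R0 ^ 2 / (4 * k) + 2 * ep) * a

theorem rhs_lin (n N1 al Lo Lc R0 ep cc : ℝ) (k : ℕ) (g a : ℝ) : rhs n N1 al Lo Lc R0 ep cc k g a =
    4 / n * ((2 * (Lo + 1) + 2 * (k * Real.log ((Real.exp Lc + 1) * (1 / al + 1)))) / N1 + 1 / cc) * g +
      (4 / n * (Real.log cc + 4 + Real.log (1 / al)) + (n * R0 ^ 2 / (4 * k) + 2 * ep)) * a := by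
  unfold rhs
  ring

/-- the surprisals are functions of the thin letters -/
theorem ssQ_ZQ (q : ℕ) (j : Fin 3) : Fac (ZQ (φ := φ) D v q) (ssQ h v q j) := by
  intro a b hab
  have h1 : NPq D v q a = NPq D v q b := ZQ_NPq q a b hab
  have h2 : XLq v q j a = XLq v q j b := by
    have h3 : SL v q {j} a = SL v q {j} b := congrFun (Prod.mk.inj hab).1 ⟨{j}, pth_sing j⟩
    have h4 := congrFun (Prod.mk.inj (Prod.mk.inj hab).2).1 j
    unfold SL at h3
    rw [LL_eq] at h3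
    exact Prod.ext h4 h3.1
  have h5 : a.2.1 j = b.2.1 j := (Prod.mk.inj h2).1
  unfold ssQ sp
  have e1 : (D.P h (q / 5)).m (fun u => (u.2.1 j, NPq D v q u)) a = (D.P h (q / 5)).m (fun u => (u.2.1 j, NPq D v q u)) b :=
    (D.P h (q / 5)).Fac_m _ _ _ (Prod.ext h5 h1)
  have e2 : (D.P h (q / 5)).m (fun u => (XLq v q j u, (u.2.1 j, NPq D v q u))) a =
      (D.P h (q / 5)).m (fun u => (XLq v q j u, (u.2.1 j, NPq D v q u))) b :=
    (D.P h (q / 5)).Fac_m _ _ _ (Prod.ext h2 (Prod.ext h5 h1))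
  rw [e1, e2]

/-- **THE RELATIVE P2, RUN FORM** -/
theorem p2s_run {n N1 : ℝ} (hn : 1 ≤ n) (hN1 : 1 ≤ N1) (H : D.Hyp dg prr al T Lam)
    (R : Run h (pr3 (Fin 3) n N1) (SS1 (Fin 3)) (AdmDep D) v) (ht : t < T) (bc : b ≠ c) (bd : b ≠ d) (cd : c ≠ d)
    {act : Pt (Fin 3) X β φ → Prop} (hact : Fac (fun w => (w.1, BB D (t + 1) {b, d} w, FQ v t c w)) act)
    (hax : Fac (fun w => (FQ v t c w, ZQ D v (5 * t + 5) w)) act)
    {G : Pt (Fin 3) X β φ → Prop} (hG : Fac (TriS.Cb D (Um v (t + 2)) (t + 1) b) G) {Lo Lc : ℝ}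
    (hLo : ∀ w, (D.P h t).p w ≠ 0 → G w → ssQ h v (5 * t + 5) b w ≤ Lo) {cc : ℝ} (hcc : 0 < cc)
    {R0 ep : ℝ} {k : ℕ} (hk : 0 < k) (hep : 0 < ep) (hep2 : ep ≤ 1 / 2) (hR0 : Real.log (1 / ep) ≤ R0)
    (hR1 : Real.log (1 / al) ≤ R0) (hkR : n * R0 ≤ 4 * k) :
    (D.P h t).E (fun w => ind (G w) * (ind (act w ∧ ssQ h v (5 * t + 5) c w ≤ Lc) * Real.log
      ((D.P h t).pv (fun u => (FQ v t c u, ZQ D v (5 * t + 5) u)) (FQ v t d) w (FQ v t d w) /
        (D.P h t).pv (ZbQ D v (5 * t + 5) d) (FQ v t d) w (FQ v t d w)))) ≤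
      rhs n N1 al Lo Lc R0 ep cc k ((D.P h t).Pr G) ((D.P h t).Pr fun w => G w ∧ act w) := by
  have hN : ∀ l : Fin 3, 0 < pr3 (Fin 3) n N1 (univ.erase l) := fun l => zero_lt_one.trans_le (pr3_one hn hN1 _)
  have B : Bk h (pr3 (Fin 3) n N1) (SS1 (Fin 3)) (Um v (t + 2)) (t + 1) b c d := TriB.Bk_run hn hN1 R bc bd cd (t + 1)
  have hpr := H.kf_pr t ht
  set P1 := D.P h (t + 1) with hP1
  set P0 := D.P h t with hP0
  set U := Um v (t + 2) with hU
  have n0 : 0 < n := by linarith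
  have N0 : 0 < N1 := by linarith
  have e4 : pr3 (Fin 3) n N1 ∅ = 1 := by unfold pr3; simp
  have e5 : ∀ j, pr3 (Fin 3) n N1 {j} = N1 := fun j => by unfold pr3; simp
  have e6 : pr3 (Fin 3) n N1 (univ.erase d) = n * N1 := pr3_top (by simp) n N1 d
  have e7 : pr3 (Fin 3) n N1 (univ.erase d) / (2 * pr3 (Fin 3) n N1 {b}) = n / 2 := by
    rw [e6, e5]
    field_simp
  have hGo : ∀ w, G (old prr t w) = G w := fun w => hG _ _ (cb_old _ _ w)
  have hZo : ∀ w, ZQ D v (5 * t + 5) (old prr t w) = ZQ D v (5 * t + 5) w := fun w => TriS.ZQ_old (prr := prr) _ t w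
  have hso : ∀ w, P1.p w ≠ 0 → lsb h U (t + 1) c w = ssQ h v (5 * t + 5) c (old prr t w) := by
    intro w hw
    rw [ssQ_old, ← TriB.own_ss hw]
    rfl
  have kk := p2s_lin (h := h) (t := t + 1) B (Xl := fun w => FQ v t c (old prr t w)) (fun a e ha he hl hZ => by
      refine FQ_det1 H R hN ht c ha he hl ?_
      rw [HotNR.ZbQ_5]; exact hZ)
    (Yl := fun w => FQ v t d (old prr t w)) (fun a e ha he hl hZ => by
      refine FQ_det1 H R hN ht d ha he hl ?_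
      rw [HotNR.ZbQ_5]; exact hZ)
    (act := fun w => act (old prr t w)) (fun a e ha he h1 h2 h3 => by
      rw [act_tr H hn hN1 R ht bd bc cd.symm hact ha he h1 h2 h3])
    (fun a e ha he hx hW => by
      have h5 := hax (old prr t a) (old prr t e) (Prod.ext hx (by
        show ZQ D v (5 * t + 5) (old prr t a) = ZQ D v (5 * t + 5) (old prr t e)
        rw [hZo, hZo]
        exact (Wf_ZQ bc bd cd).1 hW))
      rw [h5])
    (G := G) hG (Lo := Lo) (Lc := Lc) (fun w hw hGw => by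
      have h1 := hLo (old prr t w) (old_supp H ht hw) (by rw [hGo]; exact hGw)
      rw [ssQ_old, ← TriB.own_ss hw] at h1
      exact h1) hcc (R0 := R0) (ep := ep) (k := k) hk hep hep2 hR0 hR1 (by
        rw [e7]
        linarith)
  -- the left side at the law of the time `t`
  have e1 : P0.E (fun w => ind (G w) * (ind (act w ∧ ssQ h v (5 * t + 5) c w ≤ Lc) * Real.log
      (P0.pv (fun u => (FQ v t c u, ZQ D v (5 * t + 5) u)) (FQ v t d) w (FQ v t d w) /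
        P0.pv (ZbQ D v (5 * t + 5) d) (FQ v t d) w (FQ v t d w)))) =
      P1.E (fun w => ind (G w) * (ind (act (old prr t w) ∧ lsb h U (t + 1) c w ≤ Lc) *
      Real.log (P1.pv (fun u => (FQ v t c (old prr t u), Wf D U (t + 1) u)) (fun u => FQ v t d (old prr t u)) w
        (FQ v t d (old prr t w)) /
        P1.pv (Zf D U (t + 1) d) (fun u => FQ v t d (old prr t u)) w (FQ v t d (old prr t w))))) := by
    rw [← push_E h hpr]
    refine P1.E_congr fun w hw => ?_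
    have b1 : P0.pv (fun u => (FQ v t c u, ZQ D v (5 * t + 5) u)) (FQ v t d) (old prr t w) (FQ v t d (old prr t w)) =
        P1.pv (fun u => (FQ v t c (old prr t u), Wf D U (t + 1) u)) (fun u => FQ v t d (old prr t u)) w
        (FQ v t d (old prr t w)) := by
      rw [← pv_push H ht]
      refine pv_supp (fun u _ => ?_) (fun _ _ => rfl) _
      rw [Prod.mk.injEq, Prod.mk.injEq (FQ v t c (old prr t u)), hZo, hZo]
      exact and_congr_right fun _ => (Wf_ZQ bc bd cd).symm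
    have b2 : P0.pv (ZbQ D v (5 * t + 5) d) (FQ v t d) (old prr t w) (FQ v t d (old prr t w)) =
        P1.pv (Zf D U (t + 1) d) (fun u => FQ v t d (old prr t u)) w (FQ v t d (old prr t w)) := by
      rw [← pv_push H ht, ← HotNR.ZbQ_5]
      refine pv_supp (fun u _ => ?_) (fun _ _ => rfl) _
      rw [Zb_old, Zb_old]
    rw [b1, b2, hGo, hso w hw]
  have e2 : P1.Pr G = P0.Pr G := by
    have := push_E h hpr (fun w => ind (G w))
    unfold FP.Pr
    rw [← this]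
    exact P1.E_congr fun w _ => by rw [hGo]
  have e3 : P1.Pr (fun w => G w ∧ act (old prr t w)) = P0.Pr (fun w => G w ∧ act w) := by
    have := push_E h hpr (fun w => ind (G w ∧ act w))
    unfold FP.Pr
    rw [← this]
    exact P1.E_congr fun w _ => by rw [hGo]
  rw [e2, e3, e7, e4, e5] at kk
  rw [e1]
  refine kk.trans (le_of_eq ?_)
  unfold rhs
  have hk0 : (0 : ℝ) < k := by exact_mod_cast hk
  field_simp
  ring

/-- **A RARE RELATION OF THE TWO TOPS** at the common vertex, `F_d` in the row `Rr` of `(F_c, thin labels)`, `F_c` active -/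
theorem p2s_rare {n N1 : ℝ} (hn : 1 ≤ n) (hN1 : 1 ≤ N1) (H : D.Hyp dg prr al T Lam)
    (R : Run h (pr3 (Fin 3) n N1) (SS1 (Fin 3)) (AdmDep D) v) (ht : t < T) (bc : b ≠ c) (bd : b ≠ d) (cd : c ≠ d)
    {act : Pt (Fin 3) X β φ → Prop} (hact : Fac (fun w => (w.1, BB D (t + 1) {b, d} w, FQ v t c w)) act)
    (hax : Fac (fun w => (FQ v t c w, ZQ D v (5 * t + 5) w)) act)
    {G : Pt (Fin 3) X β φ → Prop} (hG : Fac (TriS.Cb D (Um v (t + 2)) (t + 1) b) G) {Lo Lc : ℝ}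
    (hLo : ∀ w, (D.P h t).p w ≠ 0 → G w → ssQ h v (5 * t + 5) b w ≤ Lo) {cc : ℝ} (hcc : 0 < cc)
    {R0 ep : ℝ} {k : ℕ} (hk : 0 < k) (hep : 0 < ep) (hep2 : ep ≤ 1 / 2) (hR0 : Real.log (1 / ep) ≤ R0)
    (hR1 : Real.log (1 / al) ≤ R0) (hkR : n * R0 ≤ 4 * k)
    {Rr : Pt (Fin 3) X β φ → List (Pt (Fin 3) X β φ) × (Fin 3 → Option φ) → Prop}
    (hR : ∀ f, Fac (fun w => (FQ v t c w, ZQ D v (5 * t + 5) w)) (fun w => Rr w f)) {L : ℝ} (hL : 0 ≤ L) :
    L * (D.P h t).Pr (fun w => (G w ∧ act w ∧ ssQ h v (5 * t + 5) c w ≤ Lc) ∧ Rr w (FQ v t d w)) ≤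
      rhs n N1 al Lo Lc R0 ep cc k ((D.P h t).Pr G) ((D.P h t).Pr fun w => G w ∧ act w) +
      (Real.exp L - 1) * (D.P h t).E (fun w => ind (G w ∧ act w ∧ ssQ h v (5 * t + 5) c w ≤ Lc) *
        ∑ f ∈ vals (FQ v t d), (D.P h t).pv (ZbQ D v (5 * t + 5) d) (FQ v t d) w f * ind (Rr w f)) := by
  have k1 := p2s_run hn hN1 H R ht bc bd cd hact hax hG (Lc := Lc) hLo hcc hk hep hep2 hR0 hR1 hkR
  have hu : Fac (fun w => (FQ v t c w, ZQ D v (5 * t + 5) w))
      (fun w => ind (G w ∧ act w ∧ ssQ h v (5 * t + 5) c w ≤ Lc)) := by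
    intro a e hae
    have h1 : act a = act e := hax a e hae
    have h2 : G a = G e := hG _ _ (cb_fac b a e (congrArg Prod.snd hae))
    have h3 : ssQ h v (5 * t + 5) c a = ssQ h v (5 * t + 5) c e := ssQ_ZQ (5 * t + 5) c a e (congrArg Prod.snd hae)
    show ind (G a ∧ act a ∧ ssQ h v (5 * t + 5) c a ≤ Lc) = ind (G e ∧ act e ∧ ssQ h v (5 * t + 5) c e ≤ Lc)
    rw [h1, h2, h3]
  have k2 := rare_row (P := D.P h t) (Y := FQ v t d) (W := fun w => (FQ v t c w, ZQ D v (5 * t + 5) w))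
    (Z := ZbQ D v (5 * t + 5) d) ((Fac.snd _ _).trans (ZQ_Zb _ d)) hu (fun w => ind_nonneg _) hR hL
  have e1 : (D.P h t).E (fun w => ind (G w ∧ act w ∧ ssQ h v (5 * t + 5) c w ≤ Lc) * ind (Rr w (FQ v t d w))) =
      (D.P h t).Pr (fun w => (G w ∧ act w ∧ ssQ h v (5 * t + 5) c w ≤ Lc) ∧ Rr w (FQ v t d w)) :=
    FP.E_congr _ fun w _ => (ind_and _ _).symm
  have e2 : (D.P h t).E (fun w => ind (G w ∧ act w ∧ ssQ h v (5 * t + 5) c w ≤ Lc) * Real.log
      ((D.P h t).pv (fun u => (FQ v t c u, ZQ D v (5 * t + 5) u)) (FQ v t d) w (FQ v t d w) /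
        (D.P h t).pv (ZbQ D v (5 * t + 5) d) (FQ v t d) w (FQ v t d w))) =
      (D.P h t).E (fun w => ind (G w) * (ind (act w ∧ ssQ h v (5 * t + 5) c w ≤ Lc) * Real.log
      ((D.P h t).pv (fun u => (FQ v t c u, ZQ D v (5 * t + 5) u)) (FQ v t d) w (FQ v t d w) /
        (D.P h t).pv (ZbQ D v (5 * t + 5) d) (FQ v t d) w (FQ v t d w)))) :=
    FP.E_congr _ fun w _ => by rw [ind_and]; ring
  rw [e1, e2] at k2
  linarith

/-- the same, summed over the times -/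
theorem p2s_rare_sum {n N1 : ℝ} (hn : 1 ≤ n) (hN1 : 1 ≤ N1) (H : D.Hyp dg prr al T Lam)
    (R : Run h (pr3 (Fin 3) n N1) (SS1 (Fin 3)) (AdmDep D) v) (bc : b ≠ c) (bd : b ≠ d) (cd : c ≠ d)
    {act : ℕ → Pt (Fin 3) X β φ → Prop}
    (hact : ∀ t < T, Fac (fun w => (w.1, BB D (t + 1) {b, d} w, FQ v t c w)) (act t))
    (hax : ∀ t < T, Fac (fun w => (FQ v t c w, ZQ D v (5 * t + 5) w)) (act t))
    {G : ℕ → Pt (Fin 3) X β φ → Prop} (hG : ∀ t < T, Fac (TriS.Cb D (Um v (t + 2)) (t + 1) b) (G t)) {Lo Lc : ℝ}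
    (hLo0 : 0 ≤ Lo) (hLo : ∀ t < T, ∀ w, (D.P h t).p w ≠ 0 → G t w → ssQ h v (5 * t + 5) b w ≤ Lo)
    {R0 ep : ℝ} {k : ℕ} (hk : 0 < k) (hep : 0 < ep) (hep2 : ep ≤ 1 / 2) (hR0 : Real.log (1 / ep) ≤ R0)
    (hR1 : Real.log (1 / al) ≤ R0) (hkR : n * R0 ≤ 4 * k)
    {Rr : ℕ → Pt (Fin 3) X β φ → List (Pt (Fin 3) X β φ) × (Fin 3 → Option φ) → Prop}
    (hR : ∀ t < T, ∀ f, Fac (fun w => (FQ v t c w, ZQ D v (5 * t + 5) w)) (fun w => Rr t w f)) {L : ℝ} (hL : 0 ≤ L)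
    {NT MT : ℝ} (hNT0 : 0 < NT) (hNM : NT ≤ MT) (hNT : ∑ t ∈ range T, (D.P h t).Pr (fun w => G t w ∧ act t w) ≤ NT)
    (hMT : ∑ t ∈ range T, (D.P h t).Pr (G t) ≤ MT) :
    L * ∑ t ∈ range T, (D.P h t).Pr (fun w => (G t w ∧ act t w ∧ ssQ h v (5 * t + 5) c w ≤ Lc) ∧ Rr t w (FQ v t d w)) ≤
      4 / n * ((2 * (Lo + 1) + 2 * (k * Real.log ((Real.exp Lc + 1) * (1 / al + 1)))) / N1 * MT +
        NT * (Real.log (MT / NT) + 5 + Real.log (1 / al))) + (n * R0 ^ 2 / (4 * k) + 2 * ep) * NT +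
      (Real.exp L - 1) * ∑ t ∈ range T, (D.P h t).E (fun w => ind (G t w ∧ act t w ∧ ssQ h v (5 * t + 5) c w ≤ Lc) *
        ∑ f ∈ vals (FQ v t d), (D.P h t).pv (ZbQ D v (5 * t + 5) d) (FQ v t d) w f * ind (Rr t w f)) := by
  have hcc : 0 < MT / NT := div_pos (hNT0.trans_le hNM) hNT0
  have kk := Finset.sum_le_sum fun t (ht : t ∈ range T) =>
    p2s_rare hn hN1 H R (Finset.mem_range.1 ht) bc bd cd (hact t (Finset.mem_range.1 ht)) (hax t (Finset.mem_range.1 ht))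
      (hG t (Finset.mem_range.1 ht)) (Lc := Lc) (hLo t (Finset.mem_range.1 ht)) hcc hk hep hep2 hR0 hR1 hkR
      (hR t (Finset.mem_range.1 ht)) hL
  have n0 : 0 < n := by linarith
  have N0 : 0 < N1 := by linarith
  have hk0 : (0 : ℝ) < k := by exact_mod_cast hk
  have hal : 0 ≤ Real.log (1 / al) := Real.log_nonneg (by
    rw [le_div_iff₀ h.pos, one_mul]
    exact hal_one h b)
  have h0 : 0 ≤ Real.log (MT / NT) := Real.log_nonneg (by rw [le_div_iff₀ hNT0, one_mul]; exact hNM)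
  have hl : 0 ≤ Real.log ((Real.exp Lc + 1) * (1 / al + 1)) := by
    refine Real.log_nonneg ?_
    have h1 := Real.exp_pos Lc
    have h2 : 0 < 1 / al := one_div_pos.2 h.pos
    nlinarith
  have hR2 : 0 ≤ R0 := hal.trans hR1
  simp only [← Finset.mul_sum, Finset.sum_add_distrib] at kk
  refine kk.trans (add_le_add ?_ le_rfl)
  -- the linear right side
  have hs : ∑ t ∈ range T, rhs n N1 al Lo Lc R0 ep (MT / NT) k ((D.P h t).Pr (G t)) ((D.P h t).Pr fun w => G t w ∧ act t w) =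
      rhs n N1 al Lo Lc R0 ep (MT / NT) k (∑ t ∈ range T, (D.P h t).Pr (G t))
        (∑ t ∈ range T, (D.P h t).Pr fun w => G t w ∧ act t w) := by
    rw [rhs_lin, Finset.mul_sum, Finset.mul_sum, ← Finset.sum_add_distrib]
    exact Finset.sum_congr rfl fun t _ => rhs_lin _ _ _ _ _ _ _ _ _ _ _
  rw [hs]
  unfold rhs
  have h3 : 1 / (MT / NT) * MT = NT := by
    have : 0 < MT := hNT0.trans_le hNM
    field_simp
  have c1 : 0 ≤ (2 * (Lo + 1) + 2 * (k * Real.log ((Real.exp Lc + 1) * (1 / al + 1)))) / N1 := by positivity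
  have c2 : 0 ≤ Real.log (MT / NT) + 4 + Real.log (1 / al) := by linarith
  have c3 : 0 ≤ 1 / (MT / NT) := by positivity
  have c4 : 0 ≤ n * R0 ^ 2 / (4 * k) + 2 * ep := by positivity
  have c5 : 0 ≤ 4 / n := by positivity
  have g1 := mul_le_mul_of_nonneg_left hMT c1
  have g2 := mul_le_mul_of_nonneg_left hNT c2
  have g3 := mul_le_mul_of_nonneg_left hMT c3
  have g4 := mul_le_mul_of_nonneg_left hNT c4
  rw [h3] at g3
  have g5 := mul_le_mul_of_nonneg_left (add_le_add g1 (add_le_add g2 g3)) c5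
  refine (add_le_add g5 g4).trans (le_of_eq ?_)
  ring

/-- the numbers: `R0 = log (2 n) + log (1/al)`, `ep = 1/(2 n)`, `k = ceil (n^2 R0^2 + n R0)` -/
theorem p2s_sum {n N1 : ℝ} (hn : 1 ≤ n) (hN1 : 1 ≤ N1) (H : D.Hyp dg prr al T Lam)
    (R : Run h (pr3 (Fin 3) n N1) (SS1 (Fin 3)) (AdmDep D) v) (bc : b ≠ c) (bd : b ≠ d) (cd : c ≠ d)
    {act : ℕ → Pt (Fin 3) X β φ → Prop}
    (hact : ∀ t < T, Fac (fun w => (w.1, BB D (t + 1) {b, d} w, FQ v t c w)) (act t))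
    (hax : ∀ t < T, Fac (fun w => (FQ v t c w, ZQ D v (5 * t + 5) w)) (act t))
    {G : ℕ → Pt (Fin 3) X β φ → Prop} (hG : ∀ t < T, Fac (TriS.Cb D (Um v (t + 2)) (t + 1) b) (G t)) {Lo Lc R0 : ℝ}
    (hLo0 : 0 ≤ Lo) (hLo : ∀ t < T, ∀ w, (D.P h t).p w ≠ 0 → G t w → ssQ h v (5 * t + 5) b w ≤ Lo) (hLc : 0 ≤ Lc)
    (hR0 : R0 = Real.log (2 * n) + Real.log (1 / al))
    {Rr : ℕ → Pt (Fin 3) X β φ → List (Pt (Fin 3) X β φ) × (Fin 3 → Option φ) → Prop}
    (hR : ∀ t < T, ∀ f, Fac (fun w => (FQ v t c w, ZQ D v (5 * t + 5) w)) (fun w => Rr t w f)) {L : ℝ} (hL : 0 ≤ L)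
    {NT MT : ℝ} (hNT0 : 0 < NT) (hNM : NT ≤ MT) (hNT : ∑ t ∈ range T, (D.P h t).Pr (fun w => G t w ∧ act t w) ≤ NT)
    (hMT : ∑ t ∈ range T, (D.P h t).Pr (G t) ≤ MT) :
    L * ∑ t ∈ range T, (D.P h t).Pr (fun w => (G t w ∧ act t w ∧ ssQ h v (5 * t + 5) c w ≤ Lc) ∧ Rr t w (FQ v t d w)) ≤
      4 / n * ((2 * (Lo + 1) + 2 * ((n ^ 2 * R0 ^ 2 + n * R0 + 1) * (Lc + Real.log (1 / al) + 2))) / N1 * MT +
        NT * (Real.log (MT / NT) + 6 + Real.log (1 / al))) +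
      (Real.exp L - 1) * ∑ t ∈ range T, (D.P h t).E (fun w => ind (G t w ∧ act t w ∧ ssQ h v (5 * t + 5) c w ≤ Lc) *
        ∑ f ∈ vals (FQ v t d), (D.P h t).pv (ZbQ D v (5 * t + 5) d) (FQ v t d) w f * ind (Rr t w f)) := by
  have n0 : 0 < n := by linarith
  have N0 : 0 < N1 := by linarith
  have MT0 : 0 < MT := hNT0.trans_le hNM
  have hal1 : 1 ≤ 1 / al := by
    rw [le_div_iff₀ h.pos, one_mul]
    exact hal_one h b
  have hal : 0 ≤ Real.log (1 / al) := Real.log_nonneg hal1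
  have h2n : 0 < Real.log (2 * n) := Real.log_pos (by linarith)
  have hR00 : 0 < R0 := by rw [hR0]; linarith
  set k : ℕ := ⌈n ^ 2 * R0 ^ 2 + n * R0⌉₊ with hk
  have k1 : n ^ 2 * R0 ^ 2 + n * R0 ≤ k := Nat.le_ceil _
  have k2 : (k : ℝ) < n ^ 2 * R0 ^ 2 + n * R0 + 1 := Nat.ceil_lt_add_one (by positivity)
  have nR : 0 < n * R0 := mul_pos n0 hR00
  have k0 : (0 : ℝ) < k := by nlinarith [sq_nonneg (n * R0)]
  have hk0 : 0 < k := by exact_mod_cast k0
  have he : (0 : ℝ) < 1 / (2 * n) := by positivity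
  have he2 : 1 / (2 * n) ≤ 1 / 2 := by
    rw [div_le_div_iff₀ (by linarith) (by norm_num)]
    linarith
  have hle : Real.log (1 / (1 / (2 * n))) ≤ R0 := by
    rw [one_div_one_div, hR0]
    linarith
  have kk := p2s_rare_sum hn hN1 H R bc bd cd hact hax hG (Lc := Lc) hLo0 hLo hk0 he he2 hle (by rw [hR0]; linarith)
    (by nlinarith [sq_nonneg (n * R0)]) hR hL hNT0 hNM hNT hMT
  refine kk.trans (add_le_add ?_ le_rfl)
  have hlog : Real.log ((Real.exp Lc + 1) * (1 / al + 1)) ≤ Lc + Real.log (1 / al) + 2 := by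
    have h1 : Real.exp Lc + 1 ≤ 2 * Real.exp Lc := by have := Real.one_le_exp hLc; linarith
    have h2 : 1 / al + 1 ≤ 2 * (1 / al) := by linarith
    have h3 : Real.log ((Real.exp Lc + 1) * (1 / al + 1)) ≤ Real.log ((2 * Real.exp Lc) * (2 * (1 / al))) := by
      refine Real.log_le_log (by positivity) (mul_le_mul h1 h2 (by positivity) (by positivity))
    have h4 : Real.log ((2 * Real.exp Lc) * (2 * (1 / al))) = Lc + Real.log (1 / al) + 2 * Real.log 2 := by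
      rw [Real.log_mul (by positivity) (by positivity), Real.log_mul (by norm_num) (Real.exp_pos _).ne', Real.log_exp,
        Real.log_mul (by norm_num) (by positivity)]
      ring
    have h5 : Real.log 2 ≤ 1 := by
      have := Real.log_le_sub_one_of_pos (show (0 : ℝ) < 2 by norm_num)
      linarith
    linarith
  have hlog0 : 0 ≤ Real.log ((Real.exp Lc + 1) * (1 / al + 1)) := by
    refine Real.log_nonneg ?_
    have h1 := Real.exp_pos Lc
    nlinarith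
  have g1 : 2 * (k * Real.log ((Real.exp Lc + 1) * (1 / al + 1))) ≤
      2 * ((n ^ 2 * R0 ^ 2 + n * R0 + 1) * (Lc + Real.log (1 / al) + 2)) :=
    mul_le_mul_of_nonneg_left (mul_le_mul k2.le hlog hlog0 (by positivity)) (by norm_num)
  have g2 : n * R0 ^ 2 / (4 * k) ≤ 1 / (4 * n) := by
    rw [div_le_div_iff₀ (by positivity) (by positivity)]
    nlinarith
  have g3 : n * R0 ^ 2 / (4 * k) + 2 * (1 / (2 * n)) ≤ 4 / n * 1 := by
    have e1 : 2 * (1 / (2 * n)) = 1 / n := by field_simp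
    have e2 : 1 / (4 * n) = 1 / 4 * (1 / n) := by field_simp
    have e3 : 4 / n * 1 = 4 * (1 / n) := by ring
    have h1 : 0 < 1 / n := by positivity
    rw [e1, e3]
    rw [e2] at g2
    linarith
  have g4 := mul_le_mul_of_nonneg_right g3 hNT0.le
  have c1 : (2 * (Lo + 1) + 2 * (k * Real.log ((Real.exp Lc + 1) * (1 / al + 1)))) / N1 * MT ≤
      (2 * (Lo + 1) + 2 * ((n ^ 2 * R0 ^ 2 + n * R0 + 1) * (Lc + Real.log (1 / al) + 2))) / N1 * MT :=
    mul_le_mul_of_nonneg_right (div_le_div_of_nonneg_right (by linarith) N0.le) MT0.le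
  have c2 := mul_le_mul_of_nonneg_left (add_le_add c1 (le_refl (NT * (Real.log (MT / NT) + 5 + Real.log (1 / al)))))
    (show 0 ≤ 4 / n by positivity)
  refine (add_le_add c2 g4).trans (le_of_eq ?_)
  ring

end P2SR

end

end Pool.Agent.GMH.TP
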