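import Pool.Agent.GMH.DevL

/-!
# GMH.TriA: from one class to the whole law, from the final state to an intermediate state (helper80; H3.REL R.5, R.8)

Law `P`, lower letters `Wf` (final state) and `W` (state of the step, coarser), classes `C` (function of `W`), event `E`,
alive sets `A` (function of `W`) and `Af` (function of `Wf`, smaller).
* `sum_cls` : a bound in every class gives a bound for the whole law;
* `dev_split` : the deviation of a test function of the tops and `W` inside `A, E` from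
  (H1) the deviation at the final state, alive `Af`, (H2) the law of the final lower letters inside the class and inside
  `E`, (H3) the same for the letters `W` on a set `T` (typical letters) which contains `Af`; the newly dead points are
  paid once.
-/

set_option autoImplicit false
set_option linter.unusedSectionVars false

namespace Pool.Agent.GMH

open Finset Pool.Agent.PWZ Pool.Agent.M3

noncomputable section

namespace TriA

variable {Om : Type*} [Fintype Om] {χ ι ι' : Type*} (P : FP Om)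

/-- **a bound in every class** -/
theorem sum_cls (C : Om → χ) (E : Om → Prop) (f : Om → ℝ) (d : Om → ℝ) (hd : Fac C d)
    (H : ∀ w0, P.Pr (fun w => C w = C w0 ∧ E w) ≠ 0 →
      |P.E (fun w => ind (C w = C w0 ∧ E w) * f w)| ≤ P.Pr (fun w => C w = C w0 ∧ E w) * d w0) :
    |P.E (fun w => ind (E w) * f w)| ≤ P.E (fun w => ind (E w) * d w) := by
  classical
  have e1 : ∀ g : Om → ℝ, ∀ w0, P.E (fun w => ind (C w = C w0) * (ind (E w) * g w)) =
      P.E (fun w => ind (C w = C w0 ∧ E w) * g w) := fun g w0 => P.E_congr fun w _ => by rw [ind_and]; ring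
  have key : ∀ w0, P.p w0 ≠ 0 → |P.ce C (fun w => ind (E w) * f w) w0| ≤ P.ce C (fun w => ind (E w) * d w) w0 := by
    intro w0 hw0
    have hm := P.m_pos C hw0
    unfold FP.ce
    rw [abs_div, abs_of_pos hm]
    refine div_le_div_of_nonneg_right ?_ hm.le
    rw [e1 f w0]
    have e2 : P.E (fun w => ind (C w = C w0) * (ind (E w) * d w)) = P.Pr (fun w => C w = C w0 ∧ E w) * d w0 := by
      rw [e1 d w0]
      unfold FP.Pr
      rw [mul_comm, ← P.E_smul]
      refine P.E_congr fun w _ => ?_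
      by_cases h : C w = C w0 ∧ E w
      · rw [hd w w0 h.1]; ring
      · rw [ind_not h]; ring
    rw [e2]
    by_cases h0 : P.Pr (fun w => C w = C w0 ∧ E w) = 0
    · rw [h0, zero_mul]
      have h1 : P.E (fun w => ind (C w = C w0 ∧ E w) * f w) = P.E (fun _ => 0) := by
        refine P.E_congr fun w hw => ?_
        rw [ind_not (fun h => (FP.Pr_pos_of (S := fun w => C w = C w0 ∧ E w) hw h).ne' h0), zero_mul]
      rw [h1, P.E_const, abs_zero]
    · exact H w0 h0
  rw [← P.E_ce C (fun w => ind (E w) * f w), ← P.E_ce C (fun w => ind (E w) * d w), abs_le, ← P.E_neg]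
  exact ⟨P.E_mono fun w hw => (abs_le.1 (key w hw)).1, P.E_mono fun w hw => (abs_le.1 (key w hw)).2⟩

variable {P} {W : Om → ι} {Wf : Om → ι'} {C : Om → χ} {E A Af T : Om → Prop} {g : Om → ℝ}

theorem ce_abs_le {g : Om → ℝ} (hb : ∀ w, |g w| ≤ 1) {w : Om} (hw : P.p w ≠ 0) : |P.ce W g w| ≤ 1 := by
  have h1 := P.ce_mono (X := W) (f := g) (g := fun _ => 1) (fun v _ => (abs_le.1 (hb v)).2) w
  have h2 := P.ce_mono (X := W) (f := fun _ => -1) (g := g) (fun v _ => (abs_le.1 (hb v)).1) w
  rw [P.ce_const W 1 hw] at h1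
  rw [P.ce_const W (-1) hw] at h2
  exact abs_le.2 ⟨h2, h1⟩

/-- **FROM THE FINAL STATE TO THE STATE OF THE STEP, FROM THE CLASSES TO THE WHOLE LAW** -/
theorem dev_split (hWf : Fac Wf W) (hC : Fac W C) (hA : Fac W A) (hAf : Fac Wf Af) (hAA : ∀ w, P.p w ≠ 0 → Af w → A w)
    (hb : ∀ w, |g w| ≤ 1) (hT : Fac W T) (hAT : ∀ w, P.p w ≠ 0 → Af w → T w)
    {d1 d2 d3 : Om → ℝ} (f1 : Fac C d1) (f2 : Fac C d2) (f3 : Fac C d3)
    (H1 : ∀ w0, P.Pr (fun w => C w = C w0 ∧ E w) ≠ 0 →
      |P.E (fun w => ind (C w = C w0 ∧ E w) * (ind (Af w) * (g w - P.ce Wf g w)))| ≤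
        P.Pr (fun w => C w = C w0 ∧ E w) * d1 w0)
    (H2 : ∀ w0, P.Pr (fun w => C w = C w0 ∧ E w) ≠ 0 → ∀ s : Om → ℝ, Fac Wf s → (∀ w, |s w| ≤ 1) →
      |(P.cond fun w => C w = C w0 ∧ E w).E (fun w => ind (Af w) * s w) -
        (P.cond fun w => C w = C w0).E (fun w => ind (Af w) * s w)| ≤ d2 w0)
    (H3 : ∀ w0, P.Pr (fun w => C w = C w0 ∧ E w) ≠ 0 → ∀ s : Om → ℝ, Fac W s → (∀ w, |s w| ≤ 1) →
      |(P.cond fun w => C w = C w0 ∧ E w).E (fun w => ind (T w) * s w) -
        (P.cond fun w => C w = C w0).E (fun w => ind (T w) * s w)| ≤ d3 w0) :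
    |P.E (fun w => ind (A w ∧ E w) * (g w - P.ce W g w))| ≤
      2 * P.Pr (fun w => A w ∧ ¬ Af w) + P.E (fun w => ind (E w) * (d1 w + (d2 w + d3 w))) := by
  classical
  set g1 : Om → ℝ := fun w => ind (Af w) * g w with hg1
  set g2 : Om → ℝ := fun w => (1 - ind (Af w)) * g w with hg2
  set G1 : Om → ℝ := P.ce Wf g1 with hG1
  have i01 : ∀ p : Prop, (0 : ℝ) ≤ 1 - ind p := fun p => by have := ind_le_one p; linarith
  have eG1 : ∀ w, G1 w = ind (Af w) * P.ce Wf g w := fun w =>
    P.ce_mul (X := Wf) (h := fun w => ind (Af w)) (hAf.comp fun q => ind q) g w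
  have ceG : ∀ w, P.ce W g1 w = P.ce W G1 w := fun w => (P.ce_tower hWf g1 w).symm
  -- the splitting
  have s0 : P.E (fun w => ind (A w ∧ E w) * (g w - P.ce W g w)) =
      P.E (fun w => ind (E w) * (ind (Af w) * (g w - P.ce Wf g w) + ind (A w) * (G1 w - P.ce W G1 w))) +
      P.E (fun w => ind (A w ∧ E w) * (g2 w - P.ce W g2 w)) := by
    rw [← P.E_add]
    refine P.E_congr fun w hw => ?_
    have c1 : P.ce W g w = P.ce W G1 w + P.ce W g2 w := by
      rw [← ceG w, ← P.ce_add W g1 g2 w]
      refine P.ce_congr (fun v _ => ?_) w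
      show g v = ind (Af v) * g v + (1 - ind (Af v)) * g v
      ring
    rw [c1, ind_and]
    have e1 := eG1 w
    have e2 : ind (Af w) = ind (Af w) * ind (A w) := by
      by_cases h : Af w
      · rw [ind_of h, ind_of (hAA w hw h), one_mul]
      · rw [ind_not h, zero_mul]
    have e3 : g2 w = g w - ind (Af w) * g w := by
      show (1 - ind (Af w)) * g w = _
      ring
    rw [e3, e1]
    have e4 : ind (A w) * (ind (Af w) * g w) = ind (Af w) * g w := by
      rw [← mul_assoc, mul_comm (ind (A w)), ← e2]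
    have e5 : ind (A w) * (ind (Af w) * P.ce Wf g w) = ind (Af w) * P.ce Wf g w := by
      rw [← mul_assoc, mul_comm (ind (A w)), ← e2]
    linear_combination (ind (E w)) * e4 - (ind (E w)) * e5
  -- the newly dead points
  have s2 : |P.E (fun w => ind (A w ∧ E w) * (g2 w - P.ce W g2 w))| ≤ 2 * P.Pr (fun w => A w ∧ ¬ Af w) := by
    have k1 : ∀ w, P.p w ≠ 0 → |ind (A w ∧ E w) * (g2 w - P.ce W g2 w)| ≤
        ind (A w) * (1 - ind (Af w)) + ind (A w) * P.ce W (fun w => 1 - ind (Af w)) w := by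
      intro w hw
      have a1 : |g2 w| ≤ 1 - ind (Af w) := by
        show |(1 - ind (Af w)) * g w| ≤ _
        rw [abs_mul, abs_of_nonneg (i01 _)]
        exact mul_le_of_le_one_right (i01 _) (hb w)
      have a2 : |P.ce W g2 w| ≤ P.ce W (fun w => 1 - ind (Af w)) w := by
        have b1 : ∀ v, -(1 - ind (Af v)) ≤ g2 v ∧ g2 v ≤ 1 - ind (Af v) := by
          intro v
          have : |g2 v| ≤ 1 - ind (Af v) := by
            show |(1 - ind (Af v)) * g v| ≤ _
            rw [abs_mul, abs_of_nonneg (i01 _)]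
            exact mul_le_of_le_one_right (i01 _) (hb v)
          exact abs_le.1 this
        have c1 := P.ce_mono (X := W) (fun v _ => (b1 v).2) w
        have c2 := P.ce_mono (X := W) (fun v _ => (b1 v).1) w
        have c3 : P.ce W (fun v => -(1 - ind (Af v))) w = -P.ce W (fun v => 1 - ind (Af v)) w := by
          rw [← neg_one_mul (P.ce W (fun v => 1 - ind (Af v)) w), ← P.ce_smul]
          exact P.ce_congr (fun v _ => by ring) w
        rw [c3] at c2
        exact abs_le.2 ⟨c2, c1⟩
      rw [ind_and, mul_assoc, abs_mul, abs_of_nonneg (ind_nonneg _), abs_mul, abs_of_nonneg (ind_nonneg _), ← mul_add]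
      refine mul_le_mul_of_nonneg_left ?_ (ind_nonneg _)
      have a3 : |g2 w - P.ce W g2 w| ≤ (1 - ind (Af w)) + P.ce W (fun w => 1 - ind (Af w)) w :=
        (abs_sub _ _).trans (add_le_add a1 a2)
      exact (mul_le_of_le_one_left (abs_nonneg _) (ind_le_one _)).trans a3
    have k2 : P.E (fun w => ind (A w) * P.ce W (fun w => 1 - ind (Af w)) w) =
        P.E (fun w => ind (A w) * (1 - ind (Af w))) :=
      P.E_mul_ce (hA.comp fun q => ind q) (fun w => 1 - ind (Af w))
    have k3 : P.E (fun w => ind (A w) * (1 - ind (Af w))) = P.Pr (fun w => A w ∧ ¬ Af w) := by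
      refine P.E_congr fun w _ => ?_
      by_cases h1 : Af w
      · rw [ind_of h1, sub_self, mul_zero, ind_not (fun hh : A w ∧ ¬ Af w => hh.2 h1)]
      · by_cases h2 : A w
        · rw [ind_not h1, ind_of h2, ind_of (⟨h2, h1⟩ : A w ∧ ¬ Af w)]; ring
        · rw [ind_not h2, ind_not (fun hh : A w ∧ ¬ Af w => h2 hh.1), zero_mul]
    have k4 : P.E (fun w => ind (A w) * (1 - ind (Af w)) + ind (A w) * P.ce W (fun w => 1 - ind (Af w)) w) =
        2 * P.Pr (fun w => A w ∧ ¬ Af w) := by
      rw [P.E_add, k2, k3]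
      ring
    rw [← k4, abs_le, ← P.E_neg]
    exact ⟨P.E_mono fun w hw => (abs_le.1 (k1 w hw)).1, P.E_mono fun w hw => (abs_le.1 (k1 w hw)).2⟩
  -- the classes
  have s1 : |P.E (fun w => ind (E w) * (ind (Af w) * (g w - P.ce Wf g w) + ind (A w) * (G1 w - P.ce W G1 w)))| ≤
      P.E (fun w => ind (E w) * (d1 w + (d2 w + d3 w))) := by
    refine sum_cls P C E _ _ (fun v w hvw => by rw [f1 v w hvw, f2 v w hvw, f3 v w hvw]) fun w0 h0 => ?_
    set Q := P.cond fun w => C w = C w0 ∧ E w with hQ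
    set QC := P.cond fun w => C w = C w0 with hQC
    have hC0 : P.Pr (fun w => C w = C w0) ≠ 0 := by
      intro h
      exact h0 (le_antisymm (by rw [← h]; exact P.Pr_mono fun w _ hw => hw.1) (P.Pr_nonneg _))
    have t1 := H1 w0 h0
    set s1' : Om → ℝ := fun w => max (-1) (min (P.ce Wf g w) 1) with hs1'
    set s2' : Om → ℝ := fun w => max (-1) (min (P.ce W G1 w) 1) with hs2'
    have clamp : ∀ x : ℝ, |max (-1) (min x 1)| ≤ 1 := fun x =>
      abs_le.2 ⟨le_max_left _ _, max_le (by norm_num) (min_le_right _ _)⟩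
    have clampeq : ∀ x : ℝ, |x| ≤ 1 → max (-1) (min x 1) = x := fun x hx => by
      obtain ⟨a, b⟩ := abs_le.1 hx
      rw [min_eq_left b, max_eq_right a]
    have es1 : ∀ w, P.p w ≠ 0 → s1' w = P.ce Wf g w := fun w hw => clampeq _ (ce_abs_le hb hw)
    have bG1 : ∀ w, P.p w ≠ 0 → |G1 w| ≤ 1 := by
      intro w hw
      rw [eG1 w, abs_mul, abs_of_nonneg (ind_nonneg _)]
      exact (mul_le_of_le_one_left (abs_nonneg _) (ind_le_one _)).trans (ce_abs_le hb hw)
    have bWG : ∀ w, P.p w ≠ 0 → |P.ce W G1 w| ≤ 1 := by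
      intro w hw
      have c1 : P.ce W G1 w = P.ce W (fun v => max (-1) (min (G1 v) 1)) w :=
        P.ce_congr (fun v hv => (clampeq _ (bG1 v hv)).symm) w
      rw [c1]
      exact ce_abs_le (fun v => clamp _) hw
    have es2 : ∀ w, P.p w ≠ 0 → s2' w = P.ce W G1 w := fun w hw => clampeq _ (bWG w hw)
    have fs1 : Fac Wf s1' := (P.ce_fac Wf g).comp fun x => max (-1) (min x 1)
    have fs2 : Fac W s2' := (P.ce_fac W G1).comp fun x => max (-1) (min x 1)
    have t2 := H2 w0 h0 s1' fs1 fun w => clamp _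
    have t3 := H3 w0 h0 s2' fs2 fun w => clamp _
    have hacQ : Q.Ac P := FP.cond_ac _ _
    have hacC : QC.Ac P := FP.cond_ac _ _
    -- the conditional mean lives on `T`
    have onT : ∀ w, P.p w ≠ 0 → P.ce W G1 w = ind (T w) * P.ce W G1 w := by
      intro w hw
      have c1 : P.ce W (fun v => ind (T v) * G1 v) w = ind (T w) * P.ce W G1 w :=
        P.ce_mul (X := W) (h := fun w => ind (T w)) (hT.comp fun q => ind q) G1 w
      rw [← c1]
      refine P.ce_congr (fun v hv => ?_) w
      rw [eG1 v]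
      by_cases h : Af v
      · rw [ind_of (hAT v hv h), one_mul]
      · rw [ind_not h]; ring
    have onA : ∀ w, P.p w ≠ 0 → ind (A w) * (G1 w - P.ce W G1 w) = ind (Af w) * s1' w - ind (T w) * s2' w := by
      intro w hw
      have c1 : P.ce W (fun v => ind (A v) * G1 v) w = ind (A w) * P.ce W G1 w :=
        P.ce_mul (X := W) (h := fun w => ind (A w)) (hA.comp fun q => ind q) G1 w
      have c2 : P.ce W (fun v => ind (A v) * G1 v) w = P.ce W G1 w := by
        refine P.ce_congr (fun v hv => ?_) w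
        rw [eG1 v]
        by_cases h : Af v
        · rw [ind_of (hAA v hv h), one_mul]
        · rw [ind_not h]; ring
      have c3 : ind (A w) * G1 w = ind (Af w) * s1' w := by
        rw [eG1 w, es1 w hw]
        by_cases h : Af w
        · rw [ind_of h, ind_of (hAA w hw h)]; ring
        · rw [ind_not h]; ring
      rw [mul_sub, c3, ← c1, c2, es2 w hw, ← onT w hw]
    have u1 : P.E (fun w => ind (C w = C w0 ∧ E w) * (ind (A w) * (G1 w - P.ce W G1 w))) =
        P.Pr (fun w => C w = C w0 ∧ E w) * (Q.E (fun w => ind (Af w) * s1' w) - Q.E (fun w => ind (T w) * s2' w)) := by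
      rw [← Q.E_sub, hQ, FP.Pr_mul_cond_E h0]
      exact P.E_congr fun w hw => by rw [onA w hw]
    have u2 : QC.E (fun w => ind (Af w) * s1' w) = QC.E (fun w => ind (T w) * s2' w) := by
      have v1 : QC.E (fun w => ind (Af w) * s1' w) = QC.E G1 := QC.E_congr fun w hw => by
        rw [eG1 w, es1 w (hacC w hw)]
      have v2 : QC.E (fun w => ind (T w) * s2' w) = QC.E (P.ce W G1) := QC.E_congr fun w hw => by
        rw [es2 w (hacC w hw), ← onT w (hacC w hw)]
      rw [v1, v2, hQC, FP.cond_E hC0, FP.cond_E hC0]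
      congr 1
      exact (P.E_mul_ce (X := W) (h := fun w => ind (C w = C w0)) (fun a b hab => by
          show ind (C a = C w0) = ind (C b = C w0)
          rw [hC a b hab]) G1).symm
    have u3 : P.E (fun w => ind (C w = C w0 ∧ E w) *
        (ind (Af w) * (g w - P.ce Wf g w) + ind (A w) * (G1 w - P.ce W G1 w))) =
        P.E (fun w => ind (C w = C w0 ∧ E w) * (ind (Af w) * (g w - P.ce Wf g w))) +
        P.E (fun w => ind (C w = C w0 ∧ E w) * (ind (A w) * (G1 w - P.ce W G1 w))) := by
      rw [← P.E_add]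
      exact P.E_congr fun w _ => by ring
    rw [u3, u1]
    set a := Q.E (fun w => ind (Af w) * s1' w)
    set b := Q.E (fun w => ind (T w) * s2' w)
    set a' := QC.E (fun w => ind (Af w) * s1' w)
    set b' := QC.E (fun w => ind (T w) * s2' w)
    have hp : 0 ≤ P.Pr (fun w => C w = C w0 ∧ E w) := P.Pr_nonneg _
    have v3 : |a - b| ≤ d2 w0 + d3 w0 := by
      have : a - b = (a - a') - (b - b') := by rw [u2]; ring
      rw [this]
      exact (abs_sub _ _).trans (add_le_add t2 t3)
    have v4 : |P.Pr (fun w => C w = C w0 ∧ E w) * (a - b)| ≤ P.Pr (fun w => C w = C w0 ∧ E w) * (d2 w0 + d3 w0) := by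
      rw [abs_mul, abs_of_nonneg hp]
      exact mul_le_mul_of_nonneg_left v3 hp
    refine (abs_add_le _ _).trans ?_
    rw [mul_add]
    exact add_le_add t1 v4
  rw [s0]
  refine (abs_add_le _ _).trans ?_
  linarith

end TriA

end

end Pool.Agent.GMH
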