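import Pool.Agent.GMH.TopKinV
import Pool.Agent.GMH.TriA

/-!
# GMH.TriF: deviation of the bits in the frames `one` and `two` of the joint step (helper80; H3.REL R.5)

* `dev_finer` : conditioned on a finer map (seen by the test functions) the deviation is at most twice the deviation
  conditioned on the coarser one;
* `dev_two`, `dev_one` : the conditions `KinG.dev` of the frames `two` (`Fo (FQ v t) i` over the thin labels) and `one`
  (`FQ v t i` over the thin labels and the other tops) from the condition `KinOK.dev` of the three tops at the joint step: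
  no new price.
-/

set_option autoImplicit false
set_option linter.unusedSectionVars false

namespace Pool.Agent.GMH.TP

open Finset Pool.Agent.PWZ Pool.Agent.M3 Pool.Agent.GM Pool.Agent.GM.Harm Pool.Agent.GMH Pool.Agent.GMH.NZ
open Pool.Agent.GMH.V3

noncomputable section

namespace TriF

section gen

variable {Om : Type*} [Fintype Om] (P : FP Om) {ι ι' κ : Type*}

/-- **a finer conditioning**, seen by the test functions -/
theorem dev_finer {W : Om → ι} {X : Om → ι'} {Y : Om → κ} (hYX : Fac Y X) (hXW : Fac X W) {A : Om → Prop} {d : ℝ}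
    (H : ∀ g : Om → ℝ, Fac Y g → (∀ w, |g w| ≤ 1) → |P.E (fun w => ind (A w) * (g w - P.ce W g w))| ≤ d)
    {g : Om → ℝ} (hg : Fac Y g) (hb : ∀ w, |g w| ≤ 1) :
    |P.E (fun w => ind (A w) * (g w - P.ce X g w))| ≤ 2 * d := by
  set g' : Om → ℝ := fun w => max (-1) (min (P.ce X g w) 1) with hg'
  have clamp : ∀ x : ℝ, |max (-1) (min x 1)| ≤ 1 := fun x =>
    abs_le.2 ⟨le_max_left _ _, max_le (by norm_num) (min_le_right _ _)⟩
  have eg : ∀ w, P.p w ≠ 0 → g' w = P.ce X g w := fun w hw => by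
    obtain ⟨a, b⟩ := abs_le.1 (TriA.ce_abs_le (P := P) (W := X) hb hw)
    show max (-1) (min (P.ce X g w) 1) = _
    rw [min_eq_left b, max_eq_right a]
  have fg : Fac Y g' := (hYX.trans (P.ce_fac X g)).comp fun x => max (-1) (min x 1)
  have h1 := H g hg hb
  have h2 := H g' fg fun w => clamp _
  have ec : ∀ w, P.ce W g' w = P.ce W g w := fun w => by
    rw [P.ce_congr (X := W) (fun v hv => eg v hv) w]
    exact P.ce_tower hXW g w
  have e : P.E (fun w => ind (A w) * (g w - P.ce X g w)) =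
      P.E (fun w => ind (A w) * (g w - P.ce W g w)) - P.E (fun w => ind (A w) * (g' w - P.ce W g' w)) := by
    rw [← P.E_sub]
    refine P.E_congr fun w hw => ?_
    rw [ec w, eg w hw]
    ring
  rw [e]
  refine (abs_sub _ _).trans ?_
  linarith

end gen

section hd

variable {X β γ φ : Type} [Fintype X] [Fintype β] [Fintype φ] [Nonempty X] [Nonempty β]
variable {D : HD (Fin 3) X β γ φ} {al : ℝ} (h : D.Thick al)
variable (v : ℕ → Finset (Fin 3) → X → (Fin 3 → β) → Pt (Fin 3) X β φ)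
variable {A E : Pt (Fin 3) X β φ → Prop} {t : ℕ} {d : ℝ}

/-- **FRAME TWO** -/
theorem dev_two (s : Fin 6) (i : Fin 3)
    (H : ∀ g : Pt (Fin 3) X β φ → ℝ, Fac (fun w => (tup (FQ v t) w, VZ D v s t w)) g → (∀ w, |g w| ≤ 1) →
      |(D.P h t).E (fun w => ind (A w ∧ E w) * (g w - (D.P h t).ce (VZ D v s t) g w))| ≤ d)
    (g : Pt (Fin 3) X β φ → ℝ)
    (hg : Fac (fun w => (tup (Fo (FQ v t) i) w, (ZQ D v (qe s t) w, ZQ D v (qs s t) w))) g) (hb : ∀ w, |g w| ≤ 1) :
    |(D.P h t).E (fun w => ind (A w ∧ E w) *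
      (g w - (D.P h t).ce (fun u => (ZQ D v (qe s t) u, ZQ D v (qs s t) u)) g w))| ≤ d := by
  refine H g (fun a b hab => hg a b ?_) hb
  simp only [Prod.mk.injEq] at hab ⊢
  refine ⟨?_, ?_⟩
  · funext j
    show Fo (FQ v t) i j a = Fo (FQ v t) i j b
    unfold Fo
    have h1 : FQ v t j a = FQ v t j b := congrFun hab.1 j
    rw [h1]
  · have h2 : (ZQ D v (qe s t) a, ZQ D v (qs s t) a) = (ZQ D v (qe s t) b, ZQ D v (qs s t) b) := hab.2
    exact Prod.mk.injEq _ _ _ _ ▸ h2

/-- **FRAME ONE** -/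
theorem dev_one (s : Fin 6) (i : Fin 3)
    (H : ∀ g : Pt (Fin 3) X β φ → ℝ, Fac (fun w => (tup (FQ v t) w, VZ D v s t w)) g → (∀ w, |g w| ≤ 1) →
      |(D.P h t).E (fun w => ind (A w ∧ E w) * (g w - (D.P h t).ce (VZ D v s t) g w))| ≤ d)
    (g : Pt (Fin 3) X β φ → ℝ)
    (hg : Fac (fun w => (tup (fun _ : Unit => FQ v t i) w, (ZQ D v (qe s t) w, Z1 D v s t i w))) g)
    (hb : ∀ w, |g w| ≤ 1) :
    |(D.P h t).E (fun w => ind (A w ∧ E w) *
      (g w - (D.P h t).ce (fun u => (ZQ D v (qe s t) u, Z1 D v s t i u)) g w))| ≤ 2 * d := by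
  refine dev_finer (D.P h t) (W := VZ D v s t) (X := fun u => (ZQ D v (qe s t) u, Z1 D v s t i u))
    (Y := fun w => (tup (FQ v t) w, VZ D v s t w)) ?_ ?_ H (fun a b hab => hg a b ?_) hb
  · intro a b hab
    simp only [Prod.mk.injEq] at hab
    have h2 : (ZQ D v (qe s t) a, ZQ D v (qs s t) a) = (ZQ D v (qe s t) b, ZQ D v (qs s t) b) := hab.2
    rw [Prod.mk.injEq] at h2
    show (ZQ D v (qe s t) a, (tup (Fo (FQ v t) i) a, ZQ D v (qs s t) a)) =
      (ZQ D v (qe s t) b, (tup (Fo (FQ v t) i) b, ZQ D v (qs s t) b))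
    have h3 : tup (Fo (FQ v t) i) a = tup (Fo (FQ v t) i) b := by
      funext j
      show Fo (FQ v t) i j a = Fo (FQ v t) i j b
      unfold Fo
      have h1 : FQ v t j a = FQ v t j b := congrFun hab.1 j
      rw [h1]
    rw [h2.1, h2.2, h3]
  · intro a b hab
    have h2 : (ZQ D v (qe s t) a, (tup (Fo (FQ v t) i) a, ZQ D v (qs s t) a)) =
      (ZQ D v (qe s t) b, (tup (Fo (FQ v t) i) b, ZQ D v (qs s t) b)) := hab
    have k1 : ZQ D v (qe s t) a = ZQ D v (qe s t) b := congrArg Prod.fst h2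
    have k2 : ZQ D v (qs s t) a = ZQ D v (qs s t) b := congrArg (fun x => x.2.2) h2
    show (ZQ D v (qe s t) a, ZQ D v (qs s t) a) = (ZQ D v (qe s t) b, ZQ D v (qs s t) b)
    rw [k1, k2]
  · simp only [Prod.mk.injEq] at hab
    have h2 : (ZQ D v (qe s t) a, ZQ D v (qs s t) a) = (ZQ D v (qe s t) b, ZQ D v (qs s t) b) := hab.2
    rw [Prod.mk.injEq] at h2
    refine Prod.ext ?_ (Prod.ext h2.1 ?_)
    · funext j
      exact congrFun hab.1 i
    · show (tup (Fo (FQ v t) i) a, ZQ D v (qs s t) a) = (tup (Fo (FQ v t) i) b, ZQ D v (qs s t) b)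
      have h3 : tup (Fo (FQ v t) i) a = tup (Fo (FQ v t) i) b := by
        funext j
        show Fo (FQ v t) i j a = Fo (FQ v t) i j b
        unfold Fo
        have h1 : FQ v t j a = FQ v t j b := congrFun hab.1 j
        rw [h1]
      rw [h2.2, h3]

end hd

end TriF

end

end Pool.Agent.GMH.TP
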