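import Pool.Agent.GMH.PRbits
import Pool.Agent.GMH.BitOwR
import Pool.Agent.GMH.TwoSplit
import Pool.Agent.GMH.TriF
import Pool.Agent.GMH.ConTP
import Pool.Agent.GMH.ConTR

/-!
# GMH/PRfull: the prices of the bits (helper33; row E6, H3.REL R.5, R.6, R.8)

Bits `bt k i q` (kind, vertex, state) and `bz k q`, functions of the hidden point, the point of `i` and the node.
* `BitOK` : the hypotheses on the bits: what they see, and three numbers (removals of decided lives) at most `NT`;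
* `full_dev` : the deviations of `fullOK3`; `two_dev` : of `twoOK2`; `one_dev` : of the frame one (`Ki1`), one bit of `i`;
* `Bd` : the bound of the sum over the times of one kind and one step;
* `pr_all` : the numbers: `Bd ≤ x^(-40)` for `NT ≤ x^kT`; `full_pr`, `two_pr`, `one_pr` : with the price sums `hPr`.
-/

set_option autoImplicit false
set_option linter.unusedSectionVars false

namespace Pool.Agent.GMH.PRF

open Finset Pool.Agent.PWZ Pool.Agent.M3 Pool.Agent.GM Pool.Agent.GM.Harm Pool.Agent.GMH Pool.Agent.GMH.NZ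
open Pool.Agent.GMH.V3 Pool.Agent.GMH.TP Pool.Agent.GMH.TD Pool.Agent.GMH.KF

noncomputable section

variable {X β γ φ : Type} [Fintype X] [Fintype β] [Fintype φ] [Nonempty X] [Nonempty β]
variable {D : HD (Fin 3) X β γ φ} {al : ℝ} (h : D.Thick al) (v : ℕ → Finset (Fin 3) → X → (Fin 3 → β) → Pt (Fin 3) X β φ)
variable (T : ℕ)

/-- **THE HYPOTHESES ON THE BITS** of one kind, vertices in `S` -/
structure BitOK (S : Finset (Fin 3)) (b1 b5 : Fin 3 → ℕ → Pt (Fin 3) X β φ → Prop) (z1 : ℕ → Pt (Fin 3) X β φ → Prop)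
    (NT : ℝ) : Prop where
  f1 : ∀ t < T, ∀ i ∈ S, Fac (Ah D (t + 1) {i}) (b1 i t)
  f5 : ∀ t < T, ∀ i ∈ S, Fac (Ah D (t + 1) {i}) (b5 i t)
  fz : ∀ t < T, Fac (Ah D (t + 1) (∅ : Finset (Fin 3))) (z1 t)
  n1 : ∀ i ∈ S, ∑ t ∈ range T, (D.P h t).Pr (fun w => b1 i t w ∧ ¬ HV h v t w) ≤ NT
  n5 : ∀ i ∈ S, ∑ t ∈ range T, (D.P h t).Pr (fun w => b5 i t w ∧ lpv h v i t w ∧ HV h v t w) ≤ NT
  nz : ∑ t ∈ range T, (D.P h t).Pr (fun w => z1 t w ∧ ¬ HV h v t w) ≤ NT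

variable (n N1 Lam : ℝ) (ap : AP)

/-- the bound of one sum -/
def Bd (NT : ℝ) : ℝ := 4 * (D.P h T).Pr (fun w => ¬ Ar h v ap (2 * T) w) +
  (400 * (NT * Real.sqrt ((Real.log (6 * n * N1 * Lam / NT) + (Lam + 1)) / n)) + 20 * Real.exp (-n) * (6 * n * N1 * Lam))

variable {h v T n N1 Lam ap}
variable {dg : ℕ → X → ℝ} {prr : ℕ → Fin 3 → φ → φ}

theorem Pr_F {P : FP (Pt (Fin 3) X β φ)} : P.Pr (fun _ => False) = 0 := by
  refine (P.E_congr fun w _ => ind_not (fun hh : False => hh)).trans (P.E_const 0)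

/-- **the joint step** -/
theorem joint_dev (p : TriB.Par n N1 ap.X0 Lam) (H : D.Hyp dg prr al T Lam)
    (R : Run h (pr3 (Fin 3) n N1) (SS1 (Fin 3)) (AdmDep D) v) {S : Finset (Fin 3)}
    {b1 b5 : Fin 3 → ℕ → Pt (Fin 3) X β φ → Prop} {z1 : ℕ → Pt (Fin 3) X β φ → Prop} {NT : ℝ}
    (B : BitOK h v T S b1 b5 z1 NT) (hN0 : 0 ≤ NT) (hNM : NT ≤ 6 * n * Lam) {A : ℕ → Pt (Fin 3) X β φ → Prop}
    (hA : ∀ t < T, Fac (VZ (φ := φ) D v 1 t) (A t))
    (hA1 : ∀ t < T, ∀ w, A t w → Ar h v ap (2 * t + 1) w ∧ ¬ HV h v t w) :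
    ∃ Dv : ℕ → ℝ, (∀ t, 0 ≤ Dv t) ∧ (∀ t < T, ∀ g : Pt (Fin 3) X β φ → ℝ,
      Fac (fun w => (tup (FQ v t) w, VZ D v 1 t w)) g → (∀ w, |g w| ≤ 1) →
        |(D.P h t).E (fun w => ind (A t w ∧ (z1 t w ∨ ∃ i ∈ S, b1 i t w)) * (g w - (D.P h t).ce (VZ D v 1 t) g w))| ≤
          Dv t) ∧ ∑ t ∈ range T, Dv t ≤ Bd h v T n N1 Lam ap NT := by
  have hn1 : 1 ≤ n := by linarith [p.n2]
  have hv : Codes D v := R.codes
  have hL1 := H.Lam1
  have hM : NT ≤ 6 * n * N1 * Lam := by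
    have h1 : 6 * n * Lam ≤ 6 * n * N1 * Lam := by
      have h2 : 0 ≤ 6 * n * Lam := by positivity
      have h3 := mul_le_mul_of_nonneg_left p.N1' h2
      nlinarith
    linarith
  refine TriB.un_sum p H R 1 (fun t => le_of_eq rfl) (A := A)
    (Bt := fun t w => z1 t w ∨ ∃ i ∈ S, b1 i t w) (z := fun t w => z1 t w ∧ ¬ HV h v t w)
    (E := fun t j w => j ∈ S ∧ b1 j t w ∧ ¬ HV h v t w) (Rm := fun t _ w => ¬ HV h v t w) hA
    (fun t ht w hw => (hA1 t ht w hw).1) (fun t ht w hw _ => ?_) (fun t ht => ?_) (fun t ht j => ?_)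
    (fun t ht j => (HV_Cb t j).comp fun q => ¬ q) (fun t ht w hw => hw.2) (fun t ht j w hw => hw.2.2) B.nz (fun j => ?_)
    (fun j => sum_nHV hn1 p.N1' R H) hM
  · have h1 := (hA1 t ht w hw).2
    constructor
    · rintro (h2 | ⟨i, hi, h2⟩)
      · exact Or.inl ⟨h2, h1⟩
      · exact Or.inr ⟨i, hi, h2, h1⟩
    · rintro (h2 | ⟨i, hi, h2, _⟩)
      · exact Or.inl h2.1
      · exact Or.inr ⟨i, hi, h2⟩
  · intro a b hab
    have e1 : z1 t a = z1 t b := B.fz t ht a b hab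
    have e2 : HV h v t a = HV h v t b := HV_Ah hv t ∅ a b hab
    show (_ ∧ _) = (_ ∧ _)
    rw [e1, e2]
  · intro a b hab
    show (j ∈ S ∧ b1 j t a ∧ ¬ HV h v t a) = (j ∈ S ∧ b1 j t b ∧ ¬ HV h v t b)
    have e2 : HV h v t a = HV h v t b := HV_Ah hv t {j} a b hab
    by_cases hj : j ∈ S
    · have e1 : b1 j t a = b1 j t b := B.f1 t ht j hj a b hab
      rw [e1, e2]
    · exact propext ⟨fun hh => absurd hh.1 hj, fun hh => absurd hh.1 hj⟩
  · by_cases hj : j ∈ S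
    · refine le_trans (Finset.sum_le_sum fun t _ => ?_) (B.n1 j hj)
      exact FP.Pr_mono _ fun w _ hw => hw.2
    · refine le_trans (le_of_eq ?_) hN0
      refine Finset.sum_eq_zero fun t _ => ?_
      have e : (fun w => j ∈ S ∧ b1 j t w ∧ ¬ HV h v t w) = fun _ : Pt (Fin 3) X β φ => False := by
        funext w
        exact propext ⟨fun hh => hj hh.1, fun hh => hh.elim⟩
      rw [e]
      exact Pr_F

/-- **the private step** -/
theorem priv_dev (p : TriB.Par n N1 ap.X0 Lam) (H : D.Hyp dg prr al T Lam)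
    (R : Run h (pr3 (Fin 3) n N1) (SS1 (Fin 3)) (AdmDep D) v) {S : Finset (Fin 3)}
    {b1 b5 : Fin 3 → ℕ → Pt (Fin 3) X β φ → Prop} {z1 : ℕ → Pt (Fin 3) X β φ → Prop} {NT : ℝ}
    (B : BitOK h v T S b1 b5 z1 NT) (hN0 : 0 ≤ NT) (hNM : NT ≤ 6 * n * Lam) {A : ℕ → Pt (Fin 3) X β φ → Prop}
    (hA : ∀ t < T, Fac (VZ (φ := φ) D v 5 t) (A t))
    (hA1 : ∀ t < T, ∀ w, A t w → Ar h v ap (2 * t + 1) w ∧ HV h v t w) :
    ∃ Dv : ℕ → ℝ, (∀ t, 0 ≤ Dv t) ∧ (∀ t < T, ∀ g : Pt (Fin 3) X β φ → ℝ,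
      Fac (fun w => (tup (FQ v t) w, VZ D v 5 t w)) g → (∀ w, |g w| ≤ 1) →
        |(D.P h t).E (fun w => ind (A t w ∧ (∃ i ∈ S, b5 i t w ∧ lpv h v i t w)) *
          (g w - (D.P h t).ce (VZ D v 5 t) g w))| ≤
          Dv t) ∧ ∑ t ∈ range T, Dv t ≤ Bd h v T n N1 Lam ap NT := by
  have hn1 : 1 ≤ n := by linarith [p.n2]
  have hv : Codes D v := R.codes
  have hL1 := H.Lam1
  have hMM : 6 * n * Lam ≤ 6 * n * N1 * Lam := by
    have h2 : 0 ≤ 6 * n * Lam := by positivity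
    have h3 := mul_le_mul_of_nonneg_left p.N1' h2
    nlinarith
  refine TriB.un_sum p H R 5 (fun t => le_of_eq rfl) (A := A)
    (Bt := fun t w => ∃ i ∈ S, b5 i t w ∧ lpv h v i t w) (z := fun t w => False)
    (E := fun t j w => j ∈ S ∧ b5 j t w ∧ lpv h v j t w ∧ HV h v t w) (Rm := fun t j w => lpv h v j t w) hA
    (fun t ht w hw => (hA1 t ht w hw).1) (fun t ht w hw _ => ?_) (fun t ht => fun a b _ => rfl) (fun t ht j => ?_)
    (fun t ht j => lpv_Cb t j) (fun t ht w hw => hw.elim) (fun t ht j w hw => hw.2.2.1) ?_ (fun j => ?_)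
    (fun j => (sum_lpv hn1 p.N1' R H j).trans hMM) (hNM.trans hMM)
  · have h1 := (hA1 t ht w hw).2
    constructor
    · rintro ⟨i, hi, h2, h3⟩
      exact Or.inr ⟨i, hi, h2, h3, h1⟩
    · rintro (h2 | ⟨i, hi, h2, h3, _⟩)
      · exact h2.elim
      · exact ⟨i, hi, h2, h3⟩
  · intro a b hab
    show (j ∈ S ∧ b5 j t a ∧ lpv h v j t a ∧ HV h v t a) = (j ∈ S ∧ b5 j t b ∧ lpv h v j t b ∧ HV h v t b)
    have e2 : HV h v t a = HV h v t b := HV_Ah hv t {j} a b hab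
    have e3 : lpv h v j t a = lpv h v j t b := lpv_Ah hv t (Finset.mem_singleton_self j) a b hab
    by_cases hj : j ∈ S
    · have e1 : b5 j t a = b5 j t b := B.f5 t ht j hj a b hab
      rw [e1, e2, e3]
    · exact propext ⟨fun hh => absurd hh.1 hj, fun hh => absurd hh.1 hj⟩
  · refine le_trans (le_of_eq ?_) hN0
    exact Finset.sum_eq_zero fun t _ => Pr_F
  · by_cases hj : j ∈ S
    · refine le_trans (Finset.sum_le_sum fun t _ => ?_) (B.n5 j hj)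
      exact FP.Pr_mono _ fun w _ hw => hw.2
    · refine le_trans (le_of_eq ?_) hN0
      refine Finset.sum_eq_zero fun t _ => ?_
      have e : (fun w => j ∈ S ∧ b5 j t w ∧ lpv h v j t w ∧ HV h v t w) = fun _ : Pt (Fin 3) X β φ => False := by
        funext w
        exact propext ⟨fun hh => hj hh.1, fun hh => hh.elim⟩
      rw [e]
      exact Pr_F

theorem Bd_nn (hn : 0 ≤ n) (hN1 : 0 ≤ N1) (hL : 0 ≤ Lam) {NT : ℝ} (hNT : 0 ≤ NT) : 0 ≤ Bd h v T n N1 Lam ap NT := by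
  unfold Bd
  have h1 := (D.P h T).Pr_nonneg (fun w => ¬ Ar h v ap (2 * T) w)
  have h2 := Real.sqrt_nonneg ((Real.log (6 * n * N1 * Lam / NT) + (Lam + 1)) / n)
  have h3 := Real.exp_pos (-n)
  positivity

/-- no bit: no deviation -/
theorem dev_false {A F : Pt (Fin 3) X β φ → Prop} (hF : ∀ w, ¬ F w) {t : ℕ} {g : Pt (Fin 3) X β φ → ℝ} {d : ℝ} (hd : 0 ≤ d) :
    |(D.P h t).E (fun w => ind (A w ∧ F w) * g w)| ≤ d := by
  have e : (D.P h t).E (fun w => ind (A w ∧ F w) * g w) = 0 := by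
    refine ((D.P h t).E_congr fun w _ => ?_).trans ((D.P h t).E_const 0)
    rw [ind_not (fun hh : A w ∧ F w => hF w hh.2), zero_mul]
  rw [e, abs_zero]
  exact hd

/-- **THE DEVIATIONS OF `fullOK3`** -/
theorem full_dev (p : TriB.Par n N1 ap.X0 Lam) (H : D.Hyp dg prr al T Lam)
    (R : Run h (pr3 (Fin 3) n N1) (SS1 (Fin 3)) (AdmDep D) v) {bt : Fin 10 → Fin 3 → ℕ → Pt (Fin 3) X β φ → Prop}
    {bz : Fin 10 → ℕ → Pt (Fin 3) X β φ → Prop} {NT : ℝ}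
    (B : ∀ k ∈ rK, BitOK h v T (vk k) (fun i t => bt k i (5 * t + 1)) (fun i t => bt k i (5 * t + 4))
      (fun t => bz k (5 * t + 1)) NT) (hN0 : 0 ≤ NT) (hNM : NT ≤ 6 * n * Lam)
    {A : Fin 6 → ℕ → Pt (Fin 3) X β φ → Prop} (hA : ∀ s, ∀ t < T, Fac (VZ (φ := φ) D v s t) (A s t))
    (hA1 : ∀ t < T, ∀ w, A 1 t w → Ar h v ap (2 * t + 1) w ∧ ¬ HV h v t w)
    (hA5 : ∀ t < T, ∀ w, A 5 t w → Ar h v ap (2 * t + 1) w ∧ HV h v t w) :
    ∃ Dv : Fin 6 → ℕ → Fin 10 → ℝ, (∀ s t k, 0 ≤ Dv s t k) ∧ (∀ t < T, ∀ s k, ∀ g : Pt (Fin 3) X β φ → ℝ,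
      Fac (fun w => (tup (FQ v t) w, VZ D v s t w)) g → (∀ w, |g w| ≤ 1) →
        |(D.P h t).E (fun w => ind (A s t w ∧ bit3 h v bt bz s t k w) *
          (g w - (D.P h t).ce (VZ D v s t) g w))| ≤ Dv s t k) ∧
      ∀ s k, ∑ t ∈ range T, Dv s t k ≤ Bd h v T n N1 Lam ap NT := by
  classical
  have hb0 : 0 ≤ Bd h v T n N1 Lam ap NT := Bd_nn (by linarith [p.n2]) (by linarith [p.N1']) (by linarith [p.L1]) hN0
  have key : ∀ s k, ∃ Dv : ℕ → ℝ, (∀ t, 0 ≤ Dv t) ∧ (∀ t < T, ∀ g : Pt (Fin 3) X β φ → ℝ,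
      Fac (fun w => (tup (FQ v t) w, VZ D v s t w)) g → (∀ w, |g w| ≤ 1) →
        |(D.P h t).E (fun w => ind (A s t w ∧ bit3 h v bt bz s t k w) *
          (g w - (D.P h t).ce (VZ D v s t) g w))| ≤ Dv t) ∧ ∑ t ∈ range T, Dv t ≤ Bd h v T n N1 Lam ap NT := by
    intro s k
    by_cases hk : k ∈ rK
    · by_cases h1 : s = 1
      · subst h1
        obtain ⟨Dv, d0, d1, d2⟩ := joint_dev p H R (B k hk) hN0 hNM (hA 1) hA1
        refine ⟨Dv, d0, fun t ht g hg hb => ?_, d2⟩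
        have e : ∀ w, bit3 h v bt bz 1 t k w = (bz k (5 * t + 1) w ∨ ∃ i ∈ vk k, bt k i (5 * t + 1) w) := by
          intro w
          unfold bit3
          refine propext ⟨fun hh => ?_, fun hh => ⟨hk, Or.inl ⟨rfl, hh⟩⟩⟩
          rcases hh.2 with h2 | h2
          · exact h2.2
          · exact absurd h2.1 (by decide)
        simp only [e]
        exact d1 t ht g hg hb
      · by_cases h5 : s = 5
        · subst h5
          obtain ⟨Dv, d0, d1, d2⟩ := priv_dev p H R (B k hk) hN0 hNM (hA 5) hA5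
          refine ⟨Dv, d0, fun t ht g hg hb => ?_, d2⟩
          have e : ∀ w, bit3 h v bt bz 5 t k w = (∃ i ∈ vk k, bt k i (5 * t + 4) w ∧ lpv h v i t w) := by
            intro w
            unfold bit3
            refine propext ⟨fun hh => ?_, fun hh => ⟨hk, Or.inr ⟨rfl, hh⟩⟩⟩
            rcases hh.2 with h2 | h2
            · exact absurd h2.1 (by decide)
            · exact h2.2
          simp only [e]
          exact d1 t ht g hg hb
        · refine ⟨fun _ => 0, fun _ => le_rfl, fun t ht g hg hb => dev_false (fun w hh => ?_) le_rfl, ?_⟩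
          · rcases hh.2 with h2 | h2
            · exact h1 h2.1
            · exact h5 h2.1
          · rw [Finset.sum_const_zero]
            exact hb0
    · refine ⟨fun _ => 0, fun _ => le_rfl, fun t ht g hg hb => dev_false (fun w hh => hk hh.1) le_rfl, ?_⟩
      rw [Finset.sum_const_zero]
      exact hb0
  choose Dv d0 d1 d2 using key
  exact ⟨fun s t k => Dv s k t, fun s t k => d0 s k t, fun t ht s k g hg hb => d1 s k t ht g hg hb, fun s k => d2 s k⟩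

/-- **THE DEVIATIONS OF `twoOK2`** -/
theorem two_dev (p : TriB.Par n N1 ap.X0 Lam) (H : D.Hyp dg prr al T Lam)
    (R : Run h (pr3 (Fin 3) n N1) (SS1 (Fin 3)) (AdmDep D) v) (i : Fin 3) {rk : Finset (Fin 10)}
    {bt bz : Fin 10 → ℕ → Pt (Fin 3) X β φ → Prop} {NT : ℝ}
    (B : ∀ k ∈ rk, BitOK h v T {i} (fun _ t => bt k (5 * t + 1)) (fun _ t => bt k (5 * t + 4))
      (fun t => bz k (5 * t + 1)) NT) (hN0 : 0 ≤ NT) (hNM : NT ≤ 6 * n * Lam)
    {A : Bool → ℕ → Pt (Fin 3) X β φ → Prop} (hA : ∀ b, ∀ t < T, Fac (VZ (φ := φ) D v (s2 b) t) (A b t))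
    (hA1 : ∀ t < T, ∀ w, A false t w → Ar h v ap (2 * t + 1) w ∧ ¬ HV h v t w)
    (hA5 : ∀ t < T, ∀ w, A true t w → Ar h v ap (2 * t + 1) w ∧ HV h v t w) :
    ∃ Dv : Bool → ℕ → Fin 10 → ℝ, (∀ b t k, 0 ≤ Dv b t k) ∧ (∀ t < T, ∀ b k, ∀ g : Pt (Fin 3) X β φ → ℝ,
      Fac (fun w => (tup (Fo (FQ v t) i) w, VZ D v (s2 b) t w)) g → (∀ w, |g w| ≤ 1) →
        |(D.P h t).E (fun w => ind (A b t w ∧ bit2 h v i rk bt bz b t k w) *
          (g w - (D.P h t).ce (VZ D v (s2 b) t) g w))| ≤ Dv b t k) ∧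
      ∀ b k, ∑ t ∈ range T, Dv b t k ≤ Bd h v T n N1 Lam ap NT := by
  classical
  have hb0 : 0 ≤ Bd h v T n N1 Lam ap NT := Bd_nn (by linarith [p.n2]) (by linarith [p.N1']) (by linarith [p.L1]) hN0
  have key : ∀ b k, ∃ Dv : ℕ → ℝ, (∀ t, 0 ≤ Dv t) ∧ (∀ t < T, ∀ g : Pt (Fin 3) X β φ → ℝ,
      Fac (fun w => (tup (Fo (FQ v t) i) w, VZ D v (s2 b) t w)) g → (∀ w, |g w| ≤ 1) →
        |(D.P h t).E (fun w => ind (A b t w ∧ bit2 h v i rk bt bz b t k w) *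
          (g w - (D.P h t).ce (VZ D v (s2 b) t) g w))| ≤ Dv t) ∧ ∑ t ∈ range T, Dv t ≤ Bd h v T n N1 Lam ap NT := by
    intro b k
    by_cases hk : k ∈ rk
    · cases b
      · obtain ⟨Dv, d0, d1, d2⟩ := joint_dev p H R (B k hk) hN0 hNM (hA false) hA1
        refine ⟨Dv, d0, fun t ht g hg hb => ?_, d2⟩
        have e : ∀ w, bit2 h v i rk bt bz false t k w =
            (bz k (5 * t + 1) w ∨ ∃ j ∈ ({i} : Finset (Fin 3)), bt k (5 * t + 1) w) := by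
          intro w
          refine propext ((bit2_joint t k w).trans ⟨fun hh => ?_, fun hh => ⟨hk, ?_⟩⟩)
          · rcases hh.2 with h2 | h2
            · exact Or.inl h2
            · exact Or.inr ⟨i, Finset.mem_singleton_self i, h2⟩
          · rcases hh with h2 | ⟨_, _, h2⟩
            · exact Or.inl h2
            · exact Or.inr h2
        simp only [e]
        exact TriF.dev_two h v 1 i (d1 t ht) g hg hb
      · obtain ⟨Dv, d0, d1, d2⟩ := priv_dev p H R (B k hk) hN0 hNM (hA true) hA5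
        refine ⟨Dv, d0, fun t ht g hg hb => ?_, d2⟩
        have e : ∀ w, bit2 h v i rk bt bz true t k w =
            (∃ j ∈ ({i} : Finset (Fin 3)), bt k (5 * t + 4) w ∧ lpv h v j t w) := by
          intro w
          refine propext ((bit2_priv t k w).trans ⟨fun hh => ⟨i, Finset.mem_singleton_self i, hh.2⟩, fun hh => ⟨hk, ?_⟩⟩)
          obtain ⟨j, hj, h2⟩ := hh
          rw [Finset.mem_singleton.1 hj] at h2
          exact h2
        simp only [e]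
        exact TriF.dev_two h v 5 i (d1 t ht) g hg hb
    · refine ⟨fun _ => 0, fun _ => le_rfl, fun t ht g hg hb => dev_false (fun w hh => hk hh.1) le_rfl, ?_⟩
      rw [Finset.sum_const_zero]
      exact hb0
  choose Dv d0 d1 d2 using key
  exact ⟨fun b t k => Dv b k t, fun b t k => d0 b k t, fun t ht b k g hg hb => d1 b k t ht g hg hb, fun b k => d2 b k⟩

/-- **THE DEVIATION OF THE FRAME ONE**, joint step, one bit of the vertex `i` and one of the node -/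
theorem one_dev (p : TriB.Par n N1 ap.X0 Lam) (H : D.Hyp dg prr al T Lam)
    (R : Run h (pr3 (Fin 3) n N1) (SS1 (Fin 3)) (AdmDep D) v) (i : Fin 3)
    {b1 b5 : Fin 3 → ℕ → Pt (Fin 3) X β φ → Prop} {z1 : ℕ → Pt (Fin 3) X β φ → Prop} {NT : ℝ}
    (B : BitOK h v T {i} b1 b5 z1 NT) (hN0 : 0 ≤ NT) (hNM : NT ≤ 6 * n * Lam)
    {A : ℕ → Pt (Fin 3) X β φ → Prop} (hA : ∀ t < T, Fac (VZ (φ := φ) D v 1 t) (A t))
    (hA1 : ∀ t < T, ∀ w, A t w → Ar h v ap (2 * t + 1) w ∧ ¬ HV h v t w) :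
    ∃ Dv : ℕ → ℝ, (∀ t, 0 ≤ Dv t) ∧ (∀ t < T, ∀ g : Pt (Fin 3) X β φ → ℝ,
      Fac (fun w => (tup (fun _ : Unit => FQ v t i) w, (ZQ D v (qe 1 t) w, Z1 D v 1 t i w))) g → (∀ w, |g w| ≤ 1) →
        |(D.P h t).E (fun w => ind (A t w ∧ (z1 t w ∨ b1 i t w)) *
          (g w - (D.P h t).ce (fun u => (ZQ D v (qe 1 t) u, Z1 D v 1 t i u)) g w))| ≤ Dv t) ∧
      ∑ t ∈ range T, Dv t ≤ 2 * Bd h v T n N1 Lam ap NT := by
  obtain ⟨Dv, d0, d1, d2⟩ := joint_dev p H R B hN0 hNM hA hA1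
  refine ⟨fun t => 2 * Dv t, fun t => mul_nonneg zero_le_two (d0 t), fun t ht g hg hb => ?_, ?_⟩
  · have e : ∀ w, (z1 t w ∨ b1 i t w) = (z1 t w ∨ ∃ j ∈ ({i} : Finset (Fin 3)), b1 j t w) := by
      intro w
      refine propext ⟨fun hh => hh.imp_right fun h2 => ⟨i, Finset.mem_singleton_self i, h2⟩,
        fun hh => hh.imp_right fun h2 => ?_⟩
      obtain ⟨j, hj, h3⟩ := h2
      rw [Finset.mem_singleton.1 hj] at h3
      exact h3
    simp only [e]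
    exact TriF.dev_one h v 1 i (d1 t ht) g hg hb
  · rw [← Finset.mul_sum]
    linarith

/-! ### the numbers -/

/-- **THE NUMBERS** -/
theorem pr_num {A : ℕ} (hA : 80 ≤ A) (kT : ℕ) : CT.Ev (fun c0 Lam =>
    TriB.Par (pw Lam c0) (pw Lam (c1F A c0)) (apF Lam A c0).X0 Lam ∧ ∀ NT PD : ℝ, 0 ≤ NT → NT ≤ pw Lam kT → 0 ≤ PD →
    PD ≤ (pw Lam (c0 + A))⁻¹ → NT ≤ 6 * pw Lam c0 * Lam ∧
    2 * (4 * PD + (400 * (NT * Real.sqrt ((Real.log (6 * pw Lam c0 * pw Lam (c1F A c0) * Lam / NT) + (Lam + 1)) /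
      pw Lam c0)) + 20 * Real.exp (-pw Lam c0) * (6 * pw Lam c0 * pw Lam (c1F A c0) * Lam))) ≤ CT.ix Lam 40) := by
  refine (((CTK.par_num hA).and (CTP.bit_num4 A kT 40 9)).and (CT.Ev.ge kT)).mono fun c0 Lam hL hh => ?_
  obtain ⟨⟨⟨a1, a2, a3, a4, a5⟩, a6⟩, a7⟩ := hh
  refine ⟨⟨a1, a2, a3, a4, a5⟩, fun NT PD h1 h2 h3 h4 => ⟨?_, ?_⟩⟩
  · have k1 : pw Lam kT ≤ pw Lam c0 := CT.pw_mono hL a7
    have k2 : pw Lam c0 ≤ 6 * pw Lam c0 * Lam := by
      have : 0 ≤ pw Lam c0 := by linarith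
      nlinarith
    linarith
  · have k1 : 0 ≤ pw Lam c0 := by linarith
    have k2 : 0 ≤ pw Lam (c1F A c0) := (CT.pw_pos hL _).le
    have k3 : 0 ≤ pw Lam c0 * pw Lam (c1F A c0) * Lam := by positivity
    have k4 := a6 2 400 20 PD NT (6 * pw Lam c0 * pw Lam (c1F A c0) * Lam) (by norm_num) (by norm_num) (by norm_num)
      (by norm_num) (by norm_num) (by norm_num) h3 h4 h1 h2 (by nlinarith) (by nlinarith)
    exact k4

end

end Pool.Agent.GMH.PRF
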