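import Pool.Agent.GMH.PayGd
import Pool.Agent.GMH.Top
import Pool.Agent.GMH.ConB

/-!
# GMH/PayG (helper15): FOREIGN ROWS AT THE EXACT VERTEX `b` (H3.T, T.4; gm row H3.LEAN, D2): COVERED MASS OF ALL LIVES

Definitions in `GMH/PayGd`.  `b` exact vertex, `c` vertex of the listed rows, tested top `FQ v (e/5) c` (face `b d`), top of the
row `FQ v (e/5) d` (face `b c`); COLUMNS: exchange `c` and `d`.
* `TwoT h v kv e c d r1` : TWO TYPES OF ROWS: given all thin letters and the top of the row, the relation is always true or its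
  mass is at most `r1` (law given the row, own law); `TwoT_of_fac` : a relation of the thin letters and of the top of the row has
  `r1 = 0`;
* `hone_row` : all decision lists of rows are normalised up to `e ^ ((r1 + e ^ -Kc) * number of rows)`;
* `gr_iff`, `own_iff` : the relation and the test of `GMH/GhoL`, on the space of the state of the tables; the own row;
* `C_law`, `q_fac` : the law of the lists does not see the exact points;
* `brg` : the covers `CvH` of `GMH/GhoL` (sight without the table of the face `b c`) are the covers of `GMH/PayI`, any test;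
* `pay_foreign` : `lam * (covered mass of all lives, mean over the lists) ≤ 40 Lam + 16 (J + 1) th1 ^ (1/2) / n * (mean number
  of lives)`.
-/

set_option autoImplicit false
set_option linter.unusedSectionVars false

namespace Pool.Agent.GMH.PayG

open Finset Pool.Agent.PWZ Pool.Agent.M3 Pool.Agent.GM Pool.Agent.GM.Harm Pool.Agent.GMH
open Pool.Agent.GMH.Gdy Pool.Agent.GMH.GdyN Pool.Agent.GMH.PayW Pool.Agent.GMH.PayQ Pool.Agent.GMH.PayI
open Pool.Agent.GMH.Dy Pool.Agent.GMH.TP Pool.Agent.GMH.V3 Pool.Agent.GMH.V3.TG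
open Pool.Agent.GMH.GdyR (covL cov fs wt ok wt_congr rX rH)

noncomputable section

/-! ## covers on the support -/

section congr

variable {Om : Type*} [Fintype Om] {P : FP Om} {κ : ℕ → Type*} {X : ∀ t, Om → κ t} {R : Type*}
  {H H' : ℕ → R → Om → Prop} {f f' : R → Om → ℝ} {kap lam : ℝ} {n : ℕ} {x : Fin n → R}

theorem cov_congr (hH : ∀ t i w, P.p w ≠ 0 → (H t (x i) w ↔ H' t (x i) w))
    (hf : ∀ t i w, P.p w ≠ 0 → H t (x i) w → f (x i) w = f' (x i) w) (t : ℕ) :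
    ∀ w, P.p w ≠ 0 → (cov P X H f kap lam x t w ↔ cov P X H' f' kap lam x t w) := by
  induction t with
  | zero => exact fun _ _ => Iff.rfl
  | succ t ih =>
    intro w hw
    have hwt : ∀ i, wt P X H f kap lam t (cov P X H f kap lam x t) (x i) w ↔
        wt P X H' f' kap lam t (cov P X H' f' kap lam x t) (x i) w := by
      intro i
      have e1 : cp P X t (fun z => H t (x i) z ∧ ¬ cov P X H f kap lam x t z) w =
          cp P X t (fun z => H' t (x i) z ∧ ¬ cov P X H' f' kap lam x t z) w :=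
        cp_congr_on fun z hz _ => by rw [hH t i z hz, ih z hz]
      have e2 : P.ce (X t) (fun z => ind (H t (x i) z ∧ ¬ cov P X H f kap lam x t z) * f (x i) z) w =
          P.ce (X t) (fun z => ind (H' t (x i) z ∧ ¬ cov P X H' f' kap lam x t z) * f' (x i) z) w := by
        refine P.ce_congr (fun z hz => ?_) w
        by_cases h1 : H t (x i) z
        · rw [propext (hH t i z hz), propext (ih z hz), hf t i z hz h1]
        · rw [ind_not fun hh => h1 hh.1, ind_not fun hh => h1 ((hH t i z hz).2 hh.1), zero_mul, zero_mul]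
      unfold wt ok
      rw [e1, e2]
    show (cov P X H f kap lam x t w ∨ ∃ i, H t (x i) w ∧ fs P X H f kap lam t (cov P X H f kap lam x t) x i w) ↔
      (cov P X H' f' kap lam x t w ∨ ∃ i, H' t (x i) w ∧ fs P X H' f' kap lam t (cov P X H' f' kap lam x t) x i w)
    rw [ih w hw]
    refine or_congr_right (exists_congr fun i => ?_)
    rw [hH t i w hw]
    refine and_congr_right fun _ => ?_
    unfold fs
    rw [hwt]
    exact and_congr_right fun _ => forall_congr' fun j => forall_congr' fun _ => not_congr (hwt j)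

/-- **covers on the support** -/
theorem covL_congr {K : ℕ} (hH : ∀ t i w, P.p w ≠ 0 → (H t (x i) w ↔ H' t (x i) w))
    (hf : ∀ t i w, P.p w ≠ 0 → H t (x i) w → f (x i) w = f' (x i) w) (s : ℕ) {w : Om} (hw : P.p w ≠ 0) :
    covL P X H f kap lam K x s w ↔ covL P X H' f' kap lam K x s w :=
  cov_congr (H := rH H K) (H' := rH H' K) (fun t i w hw => hH (t / K) i w hw) (fun t i w hw h => hf (t / K) i w hw h) _ w hw

end congr

/-! ## decision lists of two types of rows -/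

section two

variable {Ω ι : Type*} [Fintype Ω] {P : FP Ω} {Z : Ω → ι} {M : ℕ} {Hp : Fin M → Ω → Prop} {fp : Fin M → Ω → ℝ}

open Classical in
theorem dlF_cons (q : Fin M × Bool) (c : List (Fin M × Bool)) (z : Ω) :
    dlF Hp fp (q :: c) z = if Hp q.1 z then (if q.2 then fp q.1 z else 0) else dlF Hp fp c z := rfl

theorem dl_two1 {ε : ℝ} (e0 : 0 ≤ ε) {w : Ω} (hw : P.p w ≠ 0)
    (h1 : ∀ k, ((∀ q, P.p q ≠ 0 → Z q = Z w → Hp k q) ∧ P.ce Z (fun q => Real.exp (fp k q)) w ≤ 1 + ε) ∨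
      (P.ce Z (fun q => ind (Hp k q) * Real.exp (fp k q)) w ≤ ε ∧ P.ce Z (fun q => ind (Hp k q)) w ≤ ε))
    (c : List (Fin M × Bool)) : P.ce Z (fun q => Real.exp (dlF Hp fp c q)) w ≤ 1 + ε * c.length := by
  classical
  induction c with
  | nil =>
    have e : (fun q => Real.exp (dlF Hp fp [] q)) = fun _ : Ω => (1 : ℝ) := funext fun q => Real.exp_zero
    rw [e, P.ce_const Z 1 hw]
    simp
  | cons p c ih =>
    have hlen : ((p :: c).length : ℝ) = c.length + 1 := by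
      rw [List.length_cons]
      push_cast
      rfl
    rw [hlen]
    have hc0 : (0 : ℝ) ≤ c.length := Nat.cast_nonneg _
    have hce : 0 ≤ ε * c.length := mul_nonneg e0 hc0
    rcases h1 p.1 with ⟨h2, h3⟩ | ⟨h2, h3⟩
    · cases hp : p.2 with
      | true =>
        have e : P.ce Z (fun q => Real.exp (dlF Hp fp (p :: c) q)) w = P.ce Z (fun q => Real.exp (fp p.1 q)) w :=
          ce_congr_on fun q hq hz => by rw [dlF_cons, if_pos (h2 q hq hz), hp, if_pos rfl]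
        rw [e]
        linarith
      | false =>
        have e : P.ce Z (fun q => Real.exp (dlF Hp fp (p :: c) q)) w = P.ce Z (fun _ => 1) w :=
          ce_congr_on fun q hq hz => by
            rw [dlF_cons, if_pos (h2 q hq hz), hp]
            simp
        rw [e, P.ce_const Z 1 hw]
        linarith
    · have key : P.ce Z (fun q => Real.exp (dlF Hp fp (p :: c) q)) w ≤
          ε + P.ce Z (fun q => Real.exp (dlF Hp fp c q)) w := by
        cases hp : p.2 with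
        | true =>
          have e : P.ce Z (fun q => Real.exp (dlF Hp fp (p :: c) q)) w ≤
              P.ce Z (fun q => ind (Hp p.1 q) * Real.exp (fp p.1 q) + Real.exp (dlF Hp fp c q)) w := by
            refine P.ce_mono (fun q _ => ?_) w
            rw [dlF_cons]
            by_cases hq : Hp p.1 q
            · rw [if_pos hq, hp, if_pos rfl, ind_of hq, one_mul]
              have := Real.exp_pos (dlF Hp fp c q)
              linarith
            · rw [if_neg hq, ind_not hq, zero_mul, zero_add]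
          refine e.trans ?_
          rw [P.ce_add]
          linarith
        | false =>
          have e : P.ce Z (fun q => Real.exp (dlF Hp fp (p :: c) q)) w ≤
              P.ce Z (fun q => ind (Hp p.1 q) + Real.exp (dlF Hp fp c q)) w := by
            refine P.ce_mono (fun q _ => ?_) w
            rw [dlF_cons]
            by_cases hq : Hp p.1 q
            · rw [if_pos hq, hp, ind_of hq]
              have := Real.exp_pos (dlF Hp fp c q)
              simp only [Bool.false_eq_true, if_false, Real.exp_zero]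
              linarith
            · rw [if_neg hq, ind_not hq, zero_add]
          refine e.trans ?_
          rw [P.ce_add]
          linarith
      linarith

/-- **a decision list of two types of rows** : true on the whole class with a normalised test, or small -/
theorem dl_two {ε : ℝ} (e0 : 0 ≤ ε) {w : Ω} (hw : P.p w ≠ 0)
    (h1 : ∀ k, ((∀ q, P.p q ≠ 0 → Z q = Z w → Hp k q) ∧ P.ce Z (fun q => Real.exp (fp k q)) w ≤ 1 + ε) ∨
      (P.ce Z (fun q => ind (Hp k q) * Real.exp (fp k q)) w ≤ ε ∧ P.ce Z (fun q => ind (Hp k q)) w ≤ ε))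
    (c : List (Fin M × Bool)) : P.ce Z (fun q => Real.exp (dlF Hp fp c q)) w ≤ Real.exp (ε * c.length) := by
  refine (dl_two1 e0 hw h1 c).trans ?_
  rw [add_comm]
  exact Real.add_one_le_exp _

end two

/-! ## carriers of a row -/

section car

variable {X β γ φ : Type} [Fintype X] [Fintype β] [Fintype φ] [Nonempty X] [Nonempty β]
variable {D : HD (Fin 3) X β γ φ} {al : ℝ} {h : D.Thick al}
variable {dg : ℕ → X → ℝ} {prr : ℕ → Fin 3 → φ → φ} {T : ℕ} {Lam : ℝ}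
variable {v : ℕ → Finset (Fin 3) → X → (Fin 3 → β) → Pt (Fin 3) X β φ} {n N1 : ℝ}
variable {b c d : Fin 3} {e : ℕ} {yc : β} {ρ : X × φ} {p q p' p1 p2 : Pt (Fin 3) X β φ}

theorem supp_iff {t : ℕ} {w : Pt (Fin 3) X β φ} : (D.P h t).p w ≠ 0 ↔ ∀ l, D.kf t l w.1 w.2.1 (w.2.2 l) ≠ 0 := by
  show (∏ l, D.kf t l w.1 w.2.1 (w.2.2 l)) / (Fintype.card X * (Fintype.card β : ℝ) ^ Fintype.card (Fin 3)) ≠ 0 ↔ _
  rw [div_ne_zero_iff, Finset.prod_ne_zero_iff]
  constructor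
  · rintro ⟨h1, _⟩ l
    exact h1 l (mem_univ l)
  · intro h1
    refine ⟨fun l _ => h1 l, mul_ne_zero (by exact_mod_cast Fintype.card_ne_zero) (pow_ne_zero _ ?_)⟩
    exact_mod_cast Fintype.card_ne_zero

theorem zb_lw {i : Fin 3} (hz : ZbQ D v e i p = ZbQ D v e i q) : PayS.Lw D v (e / 5) i p = PayS.Lw D v (e / 5) i q := by
  have h1 := ZbQ_mono (φ := φ) (D := D) (v := v) (show 5 * (e / 5) ≤ e by omega) i p q hz
  rwa [ZbQ_sat] at h1

/-- the top is determined by its label -/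
theorem top_eq (H : D.Hyp dg prr al T Lam) (R : Run h (pr3 (Fin 3) n N1) (SS1 (Fin 3)) (AdmDep D) v) (hn : 1 ≤ n)
    (hN1 : 1 ≤ N1) {i : Fin 3} (ht : e / 5 ≤ T) (hp : (D.P h (e / 5)).p p ≠ 0) (hq : (D.P h (e / 5)).p q ≠ 0)
    (hz : ZbQ D v e i p = ZbQ D v e i q) : FQ v (e / 5) i p = FQ v (e / 5) i q ↔ p.2.2 i = q.2.2 i :=
  R.top_LL H (mem_SS1.2 (ne_univ i)) (fun hh => (mem_SS1.1 hh) rfl)
    (lt_of_lt_of_le zero_lt_one (pr3_one hn hN1 _)) ht hp hq (zb_lw hz)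

theorem f3 {b c d : Fin 3} (hbc : b ≠ c) (hbd : b ≠ d) (hcd : c ≠ d) (k : Fin 3) : k = b ∨ k = c ∨ k = d := by
  revert b c d k
  decide

theorem mt_zq (hbc : b ≠ c) (hbd : b ≠ d) (hcd : c ≠ d) (h1 : Mt h v e c d yc ρ p p1) (h2 : Mt h v e c d yc ρ q p2)
    (hz : ZbQ D v e c p = ZbQ D v e c q) : ZQ D v e p1 = ZQ D v e p2 := by
  obtain ⟨a1, a2, a3, a4, a5, a6⟩ := h1
  obtain ⟨b1, b2, b3, b4, b5, b6⟩ := h2
  have hz' : ZbQ D v e c p1 = ZbQ D v e c p2 := by rw [a3, b3, hz]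
  have k1 := Prod.mk.inj (show (lo (SL v e) (univ.erase c) p1, BB D (TP.nn e) (univ.erase c) p1) =
    (lo (SL v e) (univ.erase c) p2, BB D (TP.nn e) (univ.erase c) p2) from hz')
  have k2 := lo_eq.1 k1.1
  have k3 := BB_eq.1 k1.2
  have hy : p1.2.1 = p2.2.1 := by
    funext k
    rcases f3 hbc hbd hcd k with rfl | rfl | rfl
    · exact k3.1 k (Finset.mem_erase.2 ⟨hbc, mem_univ _⟩)
    · rw [a2, b2]
    · exact k3.1 k (Finset.mem_erase.2 ⟨hcd.symm, mem_univ _⟩)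
  have hU : ∀ J : Finset (Fin 3), pth J → Um v (nc e J) J p1.1 p1.2.1 = Um v (nc e J) J p2.1 p2.2.1 := by
    intro J hJ
    by_cases hc : J ⊂ univ.erase c
    · exact (LL_eq.1 (k2 J hc)).1
    · have hJc : J = {c} := by
        have key : ∀ (c : Fin 3) (J : Finset (Fin 3)), J.card ≤ 1 → ¬ J ⊂ univ.erase c → J = {c} := by decide
        exact key c J hJ hc
      subst hJc
      rw [a5, b5, hy]
  refine Prod.ext (funext fun J => ?_) ?_
  · show SL v e J.1 p1 = SL v e J.1 p2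
    refine LL_eq.2 ⟨hU J.1 J.2, fun l hl => ?_⟩
    exfalso
    have h5 : J.1.card ≤ 1 := J.2
    rw [← hl, Finset.card_erase_of_mem (mem_univ _)] at h5
    have h6 : (univ : Finset (Fin 3)).card = 3 := rfl
    omega
  · show (p1.2.1, nd D (TP.nn e) p1) = (p2.2.1, nd D (TP.nn e) p2)
    rw [hy]
    refine Prod.ext rfl ?_
    show (D.qa (TP.nn e) p1.1, fun k => D.qb (TP.nn e) (p1.2.1 k)) = (D.qa (TP.nn e) p2.1, fun k => D.qb (TP.nn e) (p2.2.1 k))
    rw [k3.2.1, hy]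

/-- **the carriers of a row have the same thin letters and the same top** -/
theorem mt_det (H : D.Hyp dg prr al T Lam) (R : Run h (pr3 (Fin 3) n N1) (SS1 (Fin 3)) (AdmDep D) v) (hn : 1 ≤ n)
    (hN1 : 1 ≤ N1) (ht : e / 5 ≤ T) (hbc : b ≠ c) (hbd : b ≠ d) (hcd : c ≠ d) (h1 : Mt h v e c d yc ρ p p1)
    (h2 : Mt h v e c d yc ρ q p2) (hz : ZbQ D v e c p = ZbQ D v e c q) : XZ D v e d p1 = XZ D v e d p2 := by
  have k1 := mt_zq hbc hbd hcd h1 h2 hz
  refine Prod.ext ?_ k1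
  exact (top_eq H R hn hN1 ht h1.1 h2.1 (ZQ_Zb e d _ _ k1)).2 (h1.2.2.2.2.2.trans h2.2.2.2.2.2.symm)

/-- **another value of the tested top** -/
theorem mt_rep (H : D.Hyp dg prr al T Lam) (R : Run h (pr3 (Fin 3) n N1) (SS1 (Fin 3)) (AdmDep D) v) (hn : 1 ≤ n)
    (hN1 : 1 ≤ N1) (ht : e / 5 ≤ T) (hbc : b ≠ c) (_ : b ≠ d) (hcd : c ≠ d) (h1 : Mt h v e c d yc ρ p p1)
    (hq : (D.P h (e / 5)).p q ≠ 0) (hz : ZbQ D v e c q = ZbQ D v e c p) : ∃ p2, Mt h v e c d yc ρ q p2 := by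
  obtain ⟨a1, a2, a3, a4, a5, a6⟩ := h1
  have hzq : ZbQ D v e c q = ZbQ D v e c p1 := hz.trans a3.symm
  have k1 := Prod.mk.inj (show (lo (SL v e) (univ.erase c) q, BB D (TP.nn e) (univ.erase c) q) =
    (lo (SL v e) (univ.erase c) p1, BB D (TP.nn e) (univ.erase c) p1) from hzq)
  have k3 := BB_eq.1 k1.2
  have hnn : e / 5 ≤ TP.nn e := nn_le e
  have hqa : D.qa (e / 5) q.1 = D.qa (e / 5) p1.1 := Pool.Agent.GMH.qa_mono D hnn k3.2.1
  have hqb : ∀ k, D.qb (e / 5) (q.2.1 k) = D.qb (e / 5) (p1.2.1 k) := fun k =>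
    Pool.Agent.GMH.qb_mono D hnn (k3.2.2 k)
  have hk : D.kf (e / 5) c p1.1 p1.2.1 (q.2.2 c) ≠ 0 := by
    have g1 : D.kf (e / 5) c q.1 q.2.1 (q.2.2 c) ≠ 0 := supp_iff.1 hq c
    have g2 := h.thick (e / 5) c q.1 p1.1 q.2.1 (q.2.2 c) hqa g1
    have g3 : D.kf (e / 5) c p1.1 q.2.1 = D.kf (e / 5) c p1.1 p1.2.1 := D.dep (e / 5) c p1.1 q.2.1 p1.2.1
      (fun j hj => k3.1 j (Finset.mem_erase.2 ⟨hj, mem_univ _⟩)) (hqb c)
    rw [← g3]
    exact (lt_of_lt_of_le h.pos g2).ne'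
  set p2 : Pt (Fin 3) X β φ := (p1.1, p1.2.1, Function.update p1.2.2 c (q.2.2 c)) with hp2
  have hs : (D.P h (e / 5)).p p2 ≠ 0 := by
    refine supp_iff.2 fun l => ?_
    by_cases hl : l = c
    · subst hl
      show D.kf (e / 5) l p1.1 p1.2.1 (Function.update p1.2.2 l (q.2.2 l) l) ≠ 0
      rw [Function.update_self]
      exact hk
    · show D.kf (e / 5) l p1.1 p1.2.1 (Function.update p1.2.2 c (q.2.2 c) l) ≠ 0
      rw [Function.update_of_ne hl]
      exact supp_iff.1 a1 l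
  have hz2 : ZbQ D v e c p2 = ZbQ D v e c q := by
    rw [hzq]
    exact ZbQ_xy rfl rfl
  refine ⟨p2, hs, a2, hz2, ?_, a5, ?_⟩
  · refine (top_eq H R hn hN1 ht hs hq hz2).2 ?_
    show Function.update p1.2.2 c (q.2.2 c) c = q.2.2 c
    rw [Function.update_self]
  · show Function.update p1.2.2 c (q.2.2 c) d = ρ.2
    rw [Function.update_of_ne hcd.symm]
    exact a6

/-- what the rows see -/
theorem mt_fac (yc : β) (ρ : X × φ) : Fac (fun p => (FQ v (e / 5) c p, ZbQ D v e c p)) (Mt h v e c d yc ρ) := by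
  intro a b' hab
  have h1 := Prod.mk.inj hab
  funext p'
  unfold Mt
  rw [h1.1, h1.2]

theorem Hf_fac {kv : Pt (Fin 3) X β φ → Prop} {yc : β} {rf : Pt (Fin 3) X β φ → X × φ} (hr : Fac (ZbQ D v e c) rf) :
    Fac (fun p => (FQ v (e / 5) c p, ZbQ D v e c p)) (fun p => Hf h v kv e c d yc (rf p) p) := by
  intro a b' hab
  show Hf h v kv e c d yc (rf a) a = Hf h v kv e c d yc (rf b') b'
  unfold Hf
  rw [hr a b' (Prod.mk.inj hab).2, mt_fac (h := h) (d := d) yc (rf b') a b' hab]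

theorem ff_fac {Kc : ℝ} {kv : Pt (Fin 3) X β φ → Prop} {yc : β} {rf : Pt (Fin 3) X β φ → X × φ}
    (hr : Fac (ZbQ D v e c) rf) :
    Fac (fun p => (FQ v (e / 5) c p, ZbQ D v e c p)) (fun p => ff h v Kc kv e c d yc (rf p) p) := by
  intro a b' hab
  show ff h v Kc kv e c d yc (rf a) a = ff h v Kc kv e c d yc (rf b') b'
  unfold ff
  rw [hr a b' (Prod.mk.inj hab).2, mt_fac (h := h) (d := d) yc (rf b') a b' hab]

theorem cho_eq {f : Pt (Fin 3) X β φ → ℝ} {S : Pt (Fin 3) X β φ → Prop} {y : ℝ} (hS : ∃ p, S p)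
    (hf : ∀ p, S p → f p = y) : cho f S = y := by
  unfold cho
  rw [dif_pos hS]
  exact hf _ hS.choose_spec

theorem cho_ind {f : Pt (Fin 3) X β φ → ℝ} {S : Pt (Fin 3) X β φ → Prop} {B : ℝ → Prop} (h0 : B 0)
    (hf : ∀ p, S p → B (f p)) : B (cho f S) := by
  unfold cho
  split_ifs with hS
  · exact hf _ hS.choose_spec
  · exact h0

end car

/-! ## the law of the tested top given a row -/

section dn

variable {Ω ι κ : Type*} [Fintype Ω] {P : FP Ω} {Z : Ω → ι} {V : Ω → κ}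

theorem ce_le_on {f g : Ω → ℝ} {w : Ω} (h1 : ∀ u, P.p u ≠ 0 → Z u = Z w → f u ≤ g u) : P.ce Z f w ≤ P.ce Z g w := by
  have e : P.ce Z f w = P.ce Z (fun u => if f u ≤ g u then f u else g u) w := by
    classical
    exact ce_congr_on fun u hu hz => by rw [if_pos (h1 u hu hz)]
  rw [e]
  refine P.ce_mono (fun u _ => ?_) w
  split_ifs with h2
  · exact h2
  · exact le_refl _

theorem ce_dens {R : κ → ℝ} {S : κ → Prop} (hR : ∀ y, 0 ≤ R y) (w : Ω) :
    P.ce Z (fun u => ind (S (V u)) * (R (V u) / P.pv Z V u (V u))) w ≤ ∑ y ∈ vals V, ind (S y) * R y := by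
  have h1 := P.sum_pv (W := Z) V (F := fun w y => ind (S y) * (R y / P.pv Z V w y)) (fun y a b hab => by
    show ind (S y) * (R y / P.pv Z V a y) = ind (S y) * (R y / P.pv Z V b y)
    rw [show P.pv Z V a y = P.pv Z V b y from P.pv_fac Z V y a b hab]) w
  rw [← h1]
  refine Finset.sum_le_sum fun y _ => ?_
  by_cases h2 : P.pv Z V w y = 0
  · rw [h2, zero_mul]
    exact mul_nonneg (ind_nonneg _) (hR y)
  · refine le_of_eq ?_
    field_simp

theorem exp_cut {x K : ℝ} (hx : 0 < x) : Real.exp (max (Real.log x) (-K)) ≤ x + Real.exp (-K) := by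
  rcases le_total (Real.log x) (-K) with h1 | h1
  · rw [max_eq_right h1]
    linarith
  · rw [max_eq_left h1, Real.exp_log hx]
    have := Real.exp_pos (-K)
    linarith

end dn

/-! ## normalisation -/

section nrm

variable {X β γ φ : Type} [Fintype X] [Fintype β] [Fintype φ] [Nonempty X] [Nonempty β]
variable {D : HD (Fin 3) X β γ φ} {al : ℝ} {h : D.Thick al}
variable {dg : ℕ → X → ℝ} {prr : ℕ → Fin 3 → φ → φ} {T : ℕ} {Lam : ℝ}
variable {v : ℕ → Finset (Fin 3) → X → (Fin 3 → β) → Pt (Fin 3) X β φ} {n N1 : ℝ}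
variable {b c d : Fin 3} {e : ℕ} {yc : β} {ρ : X × φ} {p q p' p1 p2 : Pt (Fin 3) X β φ} {Kc r1 : ℝ}
variable {kv : Pt (Fin 3) X β φ → Prop}

variable (h v) in
/-- **TWO TYPES OF ROWS** : given all thin letters and the top of the row, the relation is true, or it is rare, for the law given
the row and for the own law of the tested top -/
def TwoT (kv : Pt (Fin 3) X β φ → Prop) (e : ℕ) (c d : Fin 3) (r1 : ℝ) : Prop :=
  ∀ p1, (D.P h (e / 5)).p p1 ≠ 0 →
    (∀ p2, (D.P h (e / 5)).p p2 ≠ 0 → XZ D v e d p2 = XZ D v e d p1 → kv p2) ∨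
    ((D.P h (e / 5)).ce (XZ D v e d) (fun u => ind (kv u)) p1 ≤ r1 ∧
      (D.P h (e / 5)).ce (ZbQ D v e c) (fun u => ind (∃ p2, (D.P h (e / 5)).p p2 ≠ 0 ∧ XZ D v e d p2 = XZ D v e d p1 ∧
        FQ v (e / 5) c p2 = FQ v (e / 5) c u ∧ kv p2)) p1 ≤ r1)

/-- a relation of the thin letters and of the top of the row -/
theorem TwoT_of_fac (hk : Fac (XZ D v e d) kv) (r0 : 0 ≤ r1) : TwoT h v kv e c d r1 := by
  intro p1 hp1
  by_cases h1 : kv p1
  · exact Or.inl fun p2 _ h2 => (hk p2 p1 h2).symm ▸ h1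
  · refine Or.inr ⟨?_, ?_⟩
    · refine (le_of_eq ?_).trans r0
      rw [← (D.P h (e / 5)).ce_const (XZ D v e d) 0 hp1]
      exact ce_congr_on fun u _ hu => ind_not fun h3 => h1 (hk u p1 hu ▸ h3)
    · refine (le_of_eq ?_).trans r0
      rw [← (D.P h (e / 5)).ce_const (ZbQ D v e c) 0 hp1]
      exact ce_congr_on fun u _ _ => ind_not fun ⟨p2, _, h3, _, h4⟩ => h1 (hk p2 p1 h3 ▸ h4)

theorem exp_psV (hm : Mt h v e c d yc ρ q p2) (h2 : XZ D v e d p2 = XZ D v e d p1) :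
    Real.exp (psV h v Kc e c d p2) ≤ (D.P h (e / 5)).pv (XZ D v e d) (FQ v (e / 5) c) p1 (FQ v (e / 5) c q) /
      (D.P h (e / 5)).pv (ZbQ D v e c) (FQ v (e / 5) c) q (FQ v (e / 5) c q) + Real.exp (-Kc) := by
  obtain ⟨a1, a2, a3, a4, a5, a6⟩ := hm
  have g1 := (D.P h (e / 5)).pv_self_pos (XZ D v e d) (FQ v (e / 5) c) a1
  have g2 := (D.P h (e / 5)).pv_self_pos (ZbQ D v e c) (FQ v (e / 5) c) a1
  refine (exp_cut (div_pos g1 g2)).trans (le_of_eq ?_)
  rw [a4, show (D.P h (e / 5)).pv (XZ D v e d) (FQ v (e / 5) c) p2 (FQ v (e / 5) c q) =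
    (D.P h (e / 5)).pv (XZ D v e d) (FQ v (e / 5) c) p1 (FQ v (e / 5) c q) from
      (D.P h (e / 5)).pv_fac (XZ D v e d) (FQ v (e / 5) c) (FQ v (e / 5) c q) p2 p1 h2,
    show (D.P h (e / 5)).pv (ZbQ D v e c) (FQ v (e / 5) c) p2 (FQ v (e / 5) c q) =
    (D.P h (e / 5)).pv (ZbQ D v e c) (FQ v (e / 5) c) q (FQ v (e / 5) c q) from
    (D.P h (e / 5)).pv_fac (ZbQ D v e c) (FQ v (e / 5) c) (FQ v (e / 5) c q) p2 q a3]

/-- **one row** -/
theorem row_two (H : D.Hyp dg prr al T Lam) (R : Run h (pr3 (Fin 3) n N1) (SS1 (Fin 3)) (AdmDep D) v) (hn : 1 ≤ n)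
    (hN1 : 1 ≤ N1) (ht : e / 5 ≤ T) (hbc : b ≠ c) (hbd : b ≠ d) (hcd : c ≠ d)
    (hk0 : Fac (fun p => (XZ D v e d p, FQ v (e / 5) c p)) kv) (r0 : 0 ≤ r1) (hk : TwoT h v kv e c d r1)
    {rf : Pt (Fin 3) X β φ → X × φ} (hr : Fac (ZbQ D v e c) rf) (hp : (D.P h (e / 5)).p p ≠ 0) :
    ((∀ q, (D.P h (e / 5)).p q ≠ 0 → ZbQ D v e c q = ZbQ D v e c p → Hf h v kv e c d yc (rf q) q) ∧
      (D.P h (e / 5)).ce (ZbQ D v e c) (fun q => Real.exp (ff h v Kc kv e c d yc (rf q) q)) p ≤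
        1 + (r1 + Real.exp (-Kc))) ∨
    ((D.P h (e / 5)).ce (ZbQ D v e c) (fun q => ind (Hf h v kv e c d yc (rf q) q) *
      Real.exp (ff h v Kc kv e c d yc (rf q) q)) p ≤ r1 + Real.exp (-Kc) ∧
      (D.P h (e / 5)).ce (ZbQ D v e c) (fun q => ind (Hf h v kv e c d yc (rf q) q)) p ≤ r1 + Real.exp (-Kc)) := by
  classical
  set P := D.P h (e / 5) with hP
  have hK := Real.exp_pos (-Kc)
  by_cases hex : ∃ q, P.p q ≠ 0 ∧ ZbQ D v e c q = ZbQ D v e c p ∧ Hf h v kv e c d yc (rf q) q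
  · obtain ⟨q0, hq0, hz0, p1, hm1, hkv1⟩ := hex
    have hrho : ∀ q, ZbQ D v e c q = ZbQ D v e c p → rf q = rf q0 := fun q hz => hr q q0 (hz.trans hz0.symm)
    have hz1 : ZbQ D v e c p1 = ZbQ D v e c p := hm1.2.2.1.trans hz0
    -- the law of the tested top given the row
    set Rr := fun y => P.pv (XZ D v e d) (FQ v (e / 5) c) p1 y with hRr
    have hRr0 : ∀ y, 0 ≤ Rr y := fun y => P.pv_nonneg _ _ _ _
    have hsum : ∑ y ∈ vals (FQ v (e / 5) c), Rr y = 1 := P.pv_sum _ _ hm1.1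
    -- pointwise bound of the test
    have hpt : ∀ q, P.p q ≠ 0 → ZbQ D v e c q = ZbQ D v e c p → Hf h v kv e c d yc (rf q) q →
        Real.exp (ff h v Kc kv e c d yc (rf q) q) ≤ Rr (FQ v (e / 5) c q) /
          P.pv (ZbQ D v e c) (FQ v (e / 5) c) q (FQ v (e / 5) c q) + Real.exp (-Kc) := by
      intro q hq hz hH
      have hS : ∃ p', Mt h v e c d yc (rf q) q p' ∧ kv p' := hH
      have key : ∀ x, Mt h v e c d yc (rf q) q x → Real.exp (psV h v Kc e c d x) ≤ Rr (FQ v (e / 5) c q) /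
          P.pv (ZbQ D v e c) (FQ v (e / 5) c) q (FQ v (e / 5) c q) + Real.exp (-Kc) := by
        intro x h2
        refine exp_psV h2 ?_
        rw [hrho q hz] at h2
        exact mt_det H R hn hN1 ht hbc hbd hcd h2 hm1 (hz.trans hz0.symm)
      unfold ff cho
      rw [dif_pos hS]
      exact key _ hS.choose_spec.1
    rcases hk p1 hm1.1 with hall | ⟨hs1, hs2⟩
    · left
      have hH : ∀ q, P.p q ≠ 0 → ZbQ D v e c q = ZbQ D v e c p → Hf h v kv e c d yc (rf q) q := by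
        intro q hq hz
        obtain ⟨p2, hm2⟩ := mt_rep H R hn hN1 ht hbc hbd hcd hm1 hq (hz.trans hz0.symm)
        refine ⟨p2, ?_, hall p2 hm2.1 (mt_det H R hn hN1 ht hbc hbd hcd hm2 hm1 (hz.trans hz0.symm))⟩
        rw [hrho q hz]
        exact hm2
      refine ⟨hH, ?_⟩
      refine (ce_le_on (g := fun q => ind (True) * (Rr (FQ v (e / 5) c q) /
          P.pv (ZbQ D v e c) (FQ v (e / 5) c) q (FQ v (e / 5) c q)) + Real.exp (-Kc)) fun q hq hz => ?_).trans ?_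
      · rw [ind_of trivial, one_mul]
        exact hpt q hq hz (hH q hq hz)
      · rw [P.ce_add, P.ce_const _ _ hp]
        have h4 := ce_dens (P := P) (Z := ZbQ D v e c) (V := FQ v (e / 5) c) (S := fun _ => True) hRr0 p
        have h5 : ∑ y ∈ vals (FQ (φ := φ) v (e / 5) c), ind True * Rr y = 1 := by
          rw [← hsum]
          exact Finset.sum_congr rfl fun y _ => by rw [ind_of trivial, one_mul]
        rw [h5] at h4
        linarith
    · right
      set S : List (Pt (Fin 3) X β φ) × (Fin 3 → Option φ) → Prop := fun y => ∃ p2, P.p p2 ≠ 0 ∧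
        XZ D v e d p2 = XZ D v e d p1 ∧ FQ v (e / 5) c p2 = y ∧ kv p2 with hS
      have hHS : ∀ q, P.p q ≠ 0 → ZbQ D v e c q = ZbQ D v e c p → Hf h v kv e c d yc (rf q) q →
          S (FQ v (e / 5) c q) := by
        rintro q hq hz ⟨p2, hm2, hk2⟩
        refine ⟨p2, hm2.1, ?_, hm2.2.2.2.1, hk2⟩
        rw [hrho q hz] at hm2
        exact mt_det H R hn hN1 ht hbc hbd hcd hm2 hm1 (hz.trans hz0.symm)
      constructor
      · refine (ce_le_on (g := fun q => ind (S (FQ v (e / 5) c q)) * (Rr (FQ v (e / 5) c q) /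
          P.pv (ZbQ D v e c) (FQ v (e / 5) c) q (FQ v (e / 5) c q)) + Real.exp (-Kc)) fun q hq hz => ?_).trans ?_
        · by_cases hH : Hf h v kv e c d yc (rf q) q
          · rw [ind_of hH, one_mul, ind_of (hHS q hq hz hH), one_mul]
            exact hpt q hq hz hH
          · rw [ind_not hH, zero_mul]
            have := mul_nonneg (ind_nonneg (S (FQ v (e / 5) c q))) (div_nonneg (hRr0 (FQ v (e / 5) c q))
              (P.pv_nonneg (ZbQ D v e c) (FQ v (e / 5) c) q (FQ v (e / 5) c q)))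
            linarith
        · rw [P.ce_add, P.ce_const _ _ hp]
          have h4 := ce_dens (P := P) (Z := ZbQ D v e c) (V := FQ v (e / 5) c) (S := S) hRr0 p
          have h5 : ∑ y ∈ vals (FQ (φ := φ) v (e / 5) c), ind (S y) * Rr y ≤ r1 := by
            have h6 := P.sum_pv (W := XZ D v e d) (FQ v (e / 5) c) (F := fun _ y => ind (S y)) (fun _ _ _ _ => rfl) p1
            refine le_trans (le_of_eq ?_) (le_trans (le_of_eq h6) (le_trans (ce_le_on fun u hu hz => ?_) hs1))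
            · exact Finset.sum_congr rfl fun y _ => mul_comm _ _
            · refine ind_mono fun hSu => ?_
              obtain ⟨p2, _, h8, h9, h10⟩ := hSu
              have h11 : kv p2 = kv u := hk0 p2 u (Prod.ext (h8.trans hz.symm) h9)
              exact h11 ▸ h10
          linarith
      · refine (ce_le_on (g := fun q => ind (S (FQ v (e / 5) c q))) fun q hq hz => ?_).trans ?_
        · by_cases hH : Hf h v kv e c d yc (rf q) q
          · rw [ind_of hH, ind_of (hHS q hq hz hH)]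
          · rw [ind_not hH]
            exact ind_nonneg _
        · have h7 : P.ce (ZbQ D v e c) (fun q => ind (S (FQ v (e / 5) c q))) p =
              P.ce (ZbQ D v e c) (fun q => ind (S (FQ v (e / 5) c q))) p1 := P.ce_fac _ _ p p1 hz1.symm
          rw [h7]
          linarith
  · right
    have hno : ∀ q, P.p q ≠ 0 → ZbQ D v e c q = ZbQ D v e c p → ¬ Hf h v kv e c d yc (rf q) q := fun q hq hz hH =>
      hex ⟨q, hq, hz, hH⟩
    constructor
    · rw [show P.ce (ZbQ D v e c) (fun q => ind (Hf h v kv e c d yc (rf q) q) *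
        Real.exp (ff h v Kc kv e c d yc (rf q) q)) p = P.ce (ZbQ D v e c) (fun _ => 0) p from
          ce_congr_on fun q hq hz => by rw [ind_not (hno q hq hz), zero_mul], P.ce_const _ _ hp]
      linarith
    · rw [show P.ce (ZbQ D v e c) (fun q => ind (Hf h v kv e c d yc (rf q) q)) p = P.ce (ZbQ D v e c) (fun _ => 0) p from
          ce_congr_on fun q hq hz => ind_not (hno q hq hz), P.ce_const _ _ hp]
      linarith

/-- **THE LISTS ARE NORMALISED** -/
theorem hone_row (H : D.Hyp dg prr al T Lam) (R : Run h (pr3 (Fin 3) n N1) (SS1 (Fin 3)) (AdmDep D) v) (hn : 1 ≤ n)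
    (hN1 : 1 ≤ N1) (ht : e / 5 ≤ T) (hbc : b ≠ c) (hbd : b ≠ d) (hcd : c ≠ d)
    (hk0 : Fac (fun p => (XZ D v e d p, FQ v (e / 5) c p)) kv) (r0 : 0 ≤ r1) (hk : TwoT h v kv e c d r1) {M : ℕ}
    {yk : Fin M → β} {rk : Fin M → Pt (Fin 3) X β φ → X × φ} (hr : ∀ k, Fac (ZbQ D v e c) (rk k))
    (hp : (D.P h (e / 5)).p p ≠ 0) (l : List (Fin M × Bool)) :
    (D.P h (e / 5)).ce (ZbQ D v e c) (fun q => Real.exp (dlF (fun k q => Hf h v kv e c d (yk k) (rk k q) q)
      (fun k q => ff h v Kc kv e c d (yk k) (rk k q) q) l q)) p ≤ Real.exp ((r1 + Real.exp (-Kc)) * l.length) :=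
  dl_two (add_nonneg r0 (Real.exp_pos _).le) hp
    (fun k => row_two (yc := yk k) H R hn hN1 ht hbc hbd hcd hk0 r0 hk (hr k) hp) l

end nrm

/-! ## the test is bounded -/

section bnd

variable {X β γ φ : Type} [Fintype X] [Fintype β] [Fintype φ] [Nonempty X] [Nonempty β]
variable {D : HD (Fin 3) X β γ φ} {al : ℝ} {h : D.Thick al}
variable {dg : ℕ → X → ℝ} {prr : ℕ → Fin 3 → φ → φ} {T : ℕ} {Lam : ℝ}
variable {v : ℕ → Finset (Fin 3) → X → (Fin 3 → β) → Pt (Fin 3) X β φ} {n N1 : ℝ}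
variable {b c d : Fin 3} {e : ℕ} {p p' : Pt (Fin 3) X β φ} {Kc : ℝ}

/-- a label is thick given what sees its points and the cells -/
theorem lab_thick {t : ℕ} (l : Fin 3) {κ : Type*} {Z : Pt (Fin 3) X β φ → κ}
    (hZ1 : ∀ a b : Pt (Fin 3) X β φ, a.1 = b.1 → a.2.1 = b.2.1 → Z a = Z b) {w : Pt (Fin 3) X β φ}
    (hZ2 : ∀ u, Z u = Z w → D.qa t u.1 = D.qa t w.1 ∧ (∀ j, j ≠ l → u.2.1 j = w.2.1 j) ∧
      D.qb t (u.2.1 l) = D.qb t (w.2.1 l)) (hw : (D.P h t).p w ≠ 0) :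
    al * (D.P h t).m Z w ≤ (D.P h t).m (fun u => (u.2.2 l, Z u)) w := by
  classical
  have e1 : (D.P h t).m (fun u => (u.2.2 l, Z u)) w =
      (∑ x, ∑ y, ind (Z (x, y, w.2.2) = Z w) * D.kf t l x y (w.2.2 l)) / Pool.Agent.GMH.nn X β (Fin 3) := by
    have h1 := E_labels h {l} t (fun x y => ind (Z (x, y, w.2.2) = Z w)) w.2.2
    simp only [Finset.mem_singleton, forall_eq, Finset.prod_singleton] at h1
    rw [show Pool.Agent.GMH.nn X β (Fin 3) = (Fintype.card X * (Fintype.card β : ℝ) ^ Fintype.card (Fin 3)) from rfl,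
      ← h1]
    unfold FP.m
    refine (D.P h t).E_congr fun u _ => ?_
    rw [← ind_and]
    refine ind_cg ?_
    rw [Prod.mk.injEq, hZ1 u (u.1, u.2.1, w.2.2) rfl rfl]
    tauto
  have e2 : (D.P h t).m Z w = (∑ x, ∑ y, ind (Z (x, y, w.2.2) = Z w)) / Pool.Agent.GMH.nn X β (Fin 3) := by
    rw [← E_labels0 h t (fun x y => ind (Z (x, y, w.2.2) = Z w))]
    unfold FP.m
    refine (D.P h t).E_congr fun u _ => ?_
    rw [hZ1 u (u.1, u.2.1, w.2.2) rfl rfl]
  rw [e1, e2, mul_div_assoc']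
  have hnn : 0 ≤ Pool.Agent.GMH.nn X β (Fin 3) := by
    unfold Pool.Agent.GMH.nn
    positivity
  refine div_le_div_of_nonneg_right ?_ hnn
  rw [Finset.mul_sum]
  refine Finset.sum_le_sum fun x _ => ?_
  rw [Finset.mul_sum]
  refine Finset.sum_le_sum fun y _ => ?_
  by_cases hz : Z (x, y, w.2.2) = Z w
  · rw [ind_of hz, mul_one, one_mul]
    obtain ⟨g1, g2, g3⟩ := hZ2 _ hz
    have g4 : D.kf t l w.1 w.2.1 (w.2.2 l) ≠ 0 := supp_iff.1 hw l
    rw [D.dep t l x y w.2.1 g2 g3]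
    exact h.thick t l w.1 x w.2.1 (w.2.2 l) g1.symm g4
  · rw [ind_not hz, mul_zero, zero_mul]

theorem al_pv (H : D.Hyp dg prr al T Lam) (R : Run h (pr3 (Fin 3) n N1) (SS1 (Fin 3)) (AdmDep D) v) (hn : 1 ≤ n)
    (hN1 : 1 ≤ N1) (ht : e / 5 ≤ T) (hp : (D.P h (e / 5)).p p ≠ 0) :
    al ≤ (D.P h (e / 5)).pv (ZbQ D v e c) (FQ v (e / 5) c) p (FQ v (e / 5) c p) := by
  rw [(D.P h (e / 5)).pv_self, le_div_iff₀ ((D.P h (e / 5)).m_pos _ hp)]
  have e1 : (D.P h (e / 5)).m (fun u => (FQ v (e / 5) c u, ZbQ D v e c u)) p =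
      (D.P h (e / 5)).m (fun u => (u.2.2 c, ZbQ D v e c u)) p := by
    unfold FP.m
    refine (D.P h (e / 5)).E_congr fun u hu => ind_cg ⟨fun hh => ?_, fun hh => ?_⟩
    · have h5 := Prod.mk.inj (show (FQ v (e / 5) c u, ZbQ D v e c u) = (FQ v (e / 5) c p, ZbQ D v e c p) from hh)
      exact Prod.ext ((top_eq H R hn hN1 ht hu hp h5.2).1 h5.1) h5.2
    · have h5 := Prod.mk.inj (show (u.2.2 c, ZbQ D v e c u) = (p.2.2 c, ZbQ D v e c p) from hh)
      exact Prod.ext ((top_eq H R hn hN1 ht hu hp h5.2).2 h5.1) h5.2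
  rw [e1]
  refine lab_thick c (fun a b' g1 g2 => ZbQ_xy g1 g2) (fun u hz => ?_) hp
  have k1 := Prod.mk.inj (show (lo (SL v e) (univ.erase c) u, BB D (TP.nn e) (univ.erase c) u) =
    (lo (SL v e) (univ.erase c) p, BB D (TP.nn e) (univ.erase c) p) from hz)
  have k3 := BB_eq.1 k1.2
  have hnn : e / 5 ≤ TP.nn e := nn_le e
  exact ⟨Pool.Agent.GMH.qa_mono D hnn k3.2.1, fun j hj => k3.1 j (Finset.mem_erase.2 ⟨hj, mem_univ _⟩),
    Pool.Agent.GMH.qb_mono D hnn (k3.2.2 c)⟩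

theorem psV_ge (p : Pt (Fin 3) X β φ) : -Kc ≤ psV h v Kc e c d p := le_max_right _ _

theorem psV_le (H : D.Hyp dg prr al T Lam) (R : Run h (pr3 (Fin 3) n N1) (SS1 (Fin 3)) (AdmDep D) v) (hn : 1 ≤ n)
    (hN1 : 1 ≤ N1) (ht : e / 5 ≤ T) (hK : 0 ≤ Kc) (hp : (D.P h (e / 5)).p p ≠ 0) : psV h v Kc e c d p ≤ Lam := by
  have hL : 0 ≤ Lam := zero_le_one.trans H.Lam1
  refine max_le ?_ (by linarith)
  have g1 := (D.P h (e / 5)).pv_self_pos (XZ D v e d) (FQ v (e / 5) c) hp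
  have g2 := al_pv (c := c) H R hn hN1 ht hp
  have g3 : (D.P h (e / 5)).pv (XZ D v e d) (FQ v (e / 5) c) p (FQ v (e / 5) c p) ≤ 1 := by
    rw [← (D.P h (e / 5)).ce_const (XZ D v e d) 1 hp]
    exact (D.P h (e / 5)).ce_mono (fun _ _ => ind_le_one _) p
  have g4 : (D.P h (e / 5)).pv (XZ D v e d) (FQ v (e / 5) c) p (FQ v (e / 5) c p) /
      (D.P h (e / 5)).pv (ZbQ D v e c) (FQ v (e / 5) c) p (FQ v (e / 5) c p) ≤ Real.exp Lam := by
    rw [div_le_iff₀ (lt_of_lt_of_le h.pos g2)]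
    have g5 : 1 ≤ Real.exp Lam * al := by
      have := mul_le_mul_of_nonneg_left H.alL (Real.exp_pos Lam).le
      rwa [← Real.exp_add, add_neg_cancel, Real.exp_zero] at this
    have g6 := mul_le_mul_of_nonneg_left g2 (Real.exp_pos Lam).le
    linarith
  have g7 := Real.log_le_log (div_pos g1 (lt_of_lt_of_le h.pos g2)) g4
  rwa [Real.log_exp] at g7

theorem ff_bd (H : D.Hyp dg prr al T Lam) (R : Run h (pr3 (Fin 3) n N1) (SS1 (Fin 3)) (AdmDep D) v) (hn : 1 ≤ n)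
    (hN1 : 1 ≤ N1) (ht : e / 5 ≤ T) (hK : 0 ≤ Kc) (kv : Pt (Fin 3) X β φ → Prop) (yc : β) (ρ : X × φ)
    (p : Pt (Fin 3) X β φ) : ff h v Kc kv e c d yc ρ p ≤ Lam ∧ -Kc ≤ ff h v Kc kv e c d yc ρ p := by
  have hL : 0 ≤ Lam := zero_le_one.trans H.Lam1
  refine cho_ind (B := fun y => y ≤ Lam ∧ -Kc ≤ y) ⟨hL, by linarith⟩ fun p' hp' => ⟨?_, psV_ge p'⟩
  exact psV_le H R hn hN1 ht hK hp'.1.1

theorem psV_congr (h1 : XZ D v e d p' = XZ D v e d p) (h2 : ZbQ D v e c p' = ZbQ D v e c p)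
    (h3 : FQ v (e / 5) c p' = FQ v (e / 5) c p) : psV h v Kc e c d p' = psV h v Kc e c d p := by
  unfold psV
  rw [h3, show (D.P h (e / 5)).pv (XZ D v e d) (FQ v (e / 5) c) p' (FQ v (e / 5) c p) =
    (D.P h (e / 5)).pv (XZ D v e d) (FQ v (e / 5) c) p (FQ v (e / 5) c p) from
      (D.P h (e / 5)).pv_fac (XZ D v e d) (FQ v (e / 5) c) (FQ v (e / 5) c p) p' p h1,
    show (D.P h (e / 5)).pv (ZbQ D v e c) (FQ v (e / 5) c) p' (FQ v (e / 5) c p) =
    (D.P h (e / 5)).pv (ZbQ D v e c) (FQ v (e / 5) c) p (FQ v (e / 5) c p) from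
    (D.P h (e / 5)).pv_fac (ZbQ D v e c) (FQ v (e / 5) c) (FQ v (e / 5) c p) p' p h2]

end bnd

/-! ## on the space with tables -/

section tab

variable {X β γ φ : Type} [Fintype X] [Fintype β] [Fintype φ] [Nonempty X] [Nonempty β]
variable {D : HD (Fin 3) X β γ φ} {al : ℝ} {h : D.Thick al}
variable {dg : ℕ → X → ℝ} {prr : ℕ → Fin 3 → φ → φ} {T : ℕ} {Lam : ℝ} {W : Type} [Fintype W] {tb : Tab D prr T W}
variable {v : ℕ → Finset (Fin 3) → X → (Fin 3 → β) → Pt (Fin 3) X β φ} {n N1 : ℝ}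
variable {b c d : Fin 3} {e : ℕ} {Kc : ℝ} {kv : Pt (Fin 3) X β φ → Prop}

theorem y3_eq (hbc : b ≠ c) (hbd : b ≠ d) (hcd : c ≠ d) (y : Fin 3 → β) {yc : β} {j : Fin 3} (hj : j ≠ c) :
    y3 b c (y b) yc (y d) j = y j := by
  unfold y3
  rcases f3 hbc hbd hcd j with rfl | rfl | rfl
  · rw [if_pos rfl]
  · exact absurd rfl hj
  · rw [if_neg hbd.symm, if_neg hcd.symm]

theorem y3_c (hbc : b ≠ c) (yb yc yd : β) : y3 b c yb yc yd c = yc := by
  unfold y3
  rw [if_neg hbc.symm, if_pos rfl]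

theorem y3_qb (hbc : b ≠ c) (hbd : b ≠ d) (hcd : c ≠ d) {m : ℕ} {y : Fin 3 → β} {yc : β}
    (hy : D.qb m yc = D.qb m (y c)) (j : Fin 3) : D.qb m (y3 b c (y b) yc (y d) j) = D.qb m (y j) := by
  by_cases hj : j = c
  · subst hj
    rw [y3_c hbc, hy]
  · rw [y3_eq hbc hbd hcd y hj]

theorem pz_zb (hv : Codes D v) (hbc : b ≠ c) (hbd : b ≠ d) (hcd : c ≠ d) {w : Om W X β} {yc : β}
    (hy : D.qb (TP.nn e) yc = D.qb (TP.nn e) (w.2.2 c)) :
    ZbQ D v e c (pz tb e b c (Bx b w) yc (Cx d c w)) = ZbQ D v e c (tb.pt (e / 5) w) := by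
  refine Prod.ext (lo_eq.2 fun I hI => LL_eq.2 ⟨?_, fun l hl => ?_⟩) (BB_eq.2 ⟨fun j hj => ?_, rfl, fun j => ?_⟩)
  · exact Um_codes hv (nc_le e I) I w.1 (fun j hj => y3_eq hbc hbd hcd w.2.2 (Finset.mem_erase.1 (hI.1 hj)).1)
      (y3_qb hbc hbd hcd hy)
  · exfalso
    have h1 : univ.erase l ⊂ (univ.erase c : Finset (Fin 3)) := hl ▸ hI
    have h2 := Finset.card_lt_card h1
    rw [Finset.card_erase_of_mem (mem_univ _), Finset.card_erase_of_mem (mem_univ _)] at h2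
    exact lt_irrefl _ h2
  · exact y3_eq hbc hbd hcd w.2.2 (Finset.mem_erase.1 hj).1
  · exact y3_qb hbc hbd hcd hy j

theorem pz_fq (hv : Codes D v) (hbc : b ≠ c) (hbd : b ≠ d) (hcd : c ≠ d) {w : Om W X β} {yc : β}
    (hy : D.qb (TP.nn e) yc = D.qb (TP.nn e) (w.2.2 c)) :
    FQ v (e / 5) c (pz tb e b c (Bx b w) yc (Cx d c w)) = FQ v (e / 5) c (tb.pt (e / 5) w) := by
  have hn : e / 5 ≤ TP.nn e := nn_le e
  refine LL_eq.2 ⟨?_, fun l hl => ?_⟩
  · exact Um_codes hv (show e / 5 + 1 ≤ TP.nn e + 1 by omega) _ w.1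
      (fun j hj => y3_eq hbc hbd hcd w.2.2 (Finset.mem_erase.1 hj).1) (y3_qb hbc hbd hcd hy)
  · have hlc : l = c := by
      by_contra hne
      have h3 : c ∈ (univ.erase l : Finset (Fin 3)) := Finset.mem_erase.2 ⟨fun hh => hne hh.symm, mem_univ c⟩
      rw [hl] at h3
      exact (Finset.mem_erase.1 h3).1 rfl
    subst hlc
    show tb.lab (e / 5) l (w.2.1 l) w.1 (y3 b l (w.2.2 b) yc (w.2.2 d)) = tb.lab (e / 5) l (w.2.1 l) w.1 w.2.2
    exact tb.dep (e / 5) l (w.2.1 l) w.1 _ _ (fun j hj => y3_eq hbc hbd hcd w.2.2 hj)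
      (Pool.Agent.GMH.qb_mono D hn (y3_qb hbc hbd hcd hy l))

/-- **the relation on the space with tables** -/
theorem gr_iff (hv : Codes D v) (hbc : b ≠ c) (hbd : b ≠ d) (hcd : c ≠ d) {w : Om W X β} {C : β × W} {ρ : X × φ}
    (hy : D.qb (TP.nn e) C.1 = D.qb (TP.nn e) (w.2.2 c)) :
    (Gr h tb v kv e b c d (Bx b w) C ρ (Cx d c w) ↔ Hf h v kv e c d C.1 ρ (tb.pt (e / 5) w)) ∧
      psO h tb v Kc kv e b c d (Bx b w) C ρ (Cx d c w) = ff h v Kc kv e c d C.1 ρ (tb.pt (e / 5) w) := by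
  have h1 := mt_fac (h := h) (d := d) (v := v) C.1 ρ (pz tb e b c (Bx b w) C.1 (Cx d c w)) (tb.pt (e / 5) w)
    (Prod.ext (pz_fq hv hbc hbd hcd hy) (pz_zb hv hbc hbd hcd hy))
  unfold Gr psO Hf ff
  rw [h1]
  exact ⟨Iff.rfl, rfl⟩

/-- **the own row** -/
theorem own_iff (H : D.Hyp dg prr al T Lam) (R : Run h (pr3 (Fin 3) n N1) (SS1 (Fin 3)) (AdmDep D) v) (hn : 1 ≤ n)
    (hN1 : 1 ≤ N1) (ht : e / 5 ≤ T) (hbc : b ≠ c) (hbd : b ≠ d) (hcd : c ≠ d)
    (hk0 : Fac (fun p => (XZ D v e d p, FQ v (e / 5) c p)) kv) {w : Om W X β} (hw : tb.Ps.p w ≠ 0) {ρ : X × φ}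
    (h1 : Um v (nc e {c}) {c} ρ.1 w.2.2 = Um v (nc e {c}) {c} w.1 w.2.2)
    (h2 : ρ.2 = tb.lab (e / 5) d (w.2.1 d) w.1 w.2.2) :
    (kv (tb.pt (e / 5) w) ↔ Gr h tb v kv e b c d (Bx b w) (Cx c d w) ρ (Cx d c w)) ∧
      (kv (tb.pt (e / 5) w) → psO h tb v Kc kv e b c d (Bx b w) (Cx c d w) ρ (Cx d c w) =
        psV h v Kc e c d (tb.pt (e / 5) w)) := by
  have g1 := gr_iff (h := h) (kv := kv) (Kc := Kc) (tb := tb) (w := w) (C := Cx c d w) (ρ := ρ) (e := e) R.codes hbc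
    hbd hcd rfl
  rw [g1.1, g1.2]
  have hm : Mt h v e c d (w.2.2 c) ρ (tb.pt (e / 5) w) (tb.pt (e / 5) w) :=
    ⟨(pul_pt h tb ht).ne hw, rfl, rfl, rfl, h1.symm, h2.symm⟩
  have hdet : ∀ p', Mt h v e c d (w.2.2 c) ρ (tb.pt (e / 5) w) p' → XZ D v e d p' = XZ D v e d (tb.pt (e / 5) w) :=
    fun p' hp' => mt_det H R hn hN1 ht hbc hbd hcd hp' hm rfl
  have hkv : ∀ p', Mt h v e c d (w.2.2 c) ρ (tb.pt (e / 5) w) p' → kv p' → kv (tb.pt (e / 5) w) := by
    intro p' hp' hk'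
    have h3 : kv p' = kv (tb.pt (e / 5) w) := hk0 p' _ (Prod.ext (hdet p' hp') hp'.2.2.2.1)
    exact h3 ▸ hk'
  refine ⟨⟨fun hk => ⟨_, hm, hk⟩, fun ⟨p', hp', hk'⟩ => hkv p' hp' hk'⟩, fun hk => ?_⟩
  exact cho_eq ⟨_, hm, hk⟩ fun p' hp' => psV_congr (hdet p' hp'.1) hp'.1.2.2.1 hp'.1.2.2.2.1

end tab

/-! ## the law of the lists does not see the hidden point -/

section law

open Pool.Agent.GMH.TabF (si si_eq sg_si eP WE WE_ne WE_supp)

variable {X β γ φ : Type} [Fintype X] [Fintype β] [Fintype φ] [Nonempty X] [Nonempty β]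
variable {D : HD (Fin 3) X β γ φ} {prr : ℕ → Fin 3 → φ → φ} {T : ℕ} {W : Type} [Fintype W] {tb : Tab D prr T W}
variable {b c d : Fin 3}

/-- levels of (point of `c`, table `d`) -/
def lC (c d : Fin 3) : Unit ⊕ (Fin 3 ⊕ Fin 3) → ℕ∞
  | Sum.inl _ => 0
  | Sum.inr (Sum.inl i) => if i = d then ⊤ else 0
  | Sum.inr (Sum.inr j) => if j = c then ⊤ else 0

theorem sg_Cx : Crd.Sg (Dy.nn (W := W) D) CC (lC c d) (Cx (W := W) (X := X) (β := β) c d) := by
  intro v w
  constructor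
  · intro e i
    have e' := Prod.mk.inj (show (v.2.2 c, v.2.1 d) = (w.2.2 c, w.2.1 d) from e)
    match i with
    | Sum.inl _ => exact Crd.rel_zero
    | Sum.inr (Sum.inl i) =>
      by_cases hi : i = d
      · subst hi
        have h4 : lC c i (Sum.inr (Sum.inl i)) = ⊤ := if_pos rfl
        rw [h4]
        exact Crd.rel_top.2 e'.2
      · have h4 : lC c d (Sum.inr (Sum.inl i)) = 0 := if_neg hi
        rw [h4]
        exact Crd.rel_zero
    | Sum.inr (Sum.inr j) =>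
      by_cases hj : j = c
      · subst hj
        have h4 : lC j d (Sum.inr (Sum.inr j)) = ⊤ := if_pos rfl
        rw [h4]
        exact Crd.rel_top.2 e'.1
      · have h4 : lC c d (Sum.inr (Sum.inr j)) = 0 := if_neg hj
        rw [h4]
        exact Crd.rel_zero
  · intro hr
    have h1 := hr (Sum.inr (Sum.inr c))
    have h2 := hr (Sum.inr (Sum.inl d))
    have h3 : lC c d (Sum.inr (Sum.inr c)) = ⊤ := if_pos rfl
    have h4 : lC c d (Sum.inr (Sum.inl d)) = ⊤ := if_pos rfl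
    rw [h3] at h1
    rw [h4] at h2
    exact Prod.ext (Crd.rel_top.1 h1) (Crd.rel_top.1 h2)

theorem Cx_indep (hbc : b ≠ c) (hcd : c ≠ d) (m : ℕ) :
    tb.Ps.Indep (Cx (W := W) (X := X) (β := β) c d) (si D {b} {d} ∅ m) := by
  refine Crd.indep (ind_Ps (tb := tb)) sg_Cx (sg_si {b} {d} ∅ m) fun i => ?_
  match i with
  | Sum.inl _ => exact Or.inl rfl
  | Sum.inr (Sum.inl i) =>
    right
    show eS ∅ i = 0
    unfold eS
    rw [if_neg (Finset.notMem_empty i)]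
  | Sum.inr (Sum.inr j) =>
    by_cases hj : j = c
    · right
      subst hj
      show eP {b} {d} m j = 0
      unfold eP
      rw [if_neg (fun hh => hbc (Finset.mem_singleton.1 hh).symm), if_neg fun hh => hcd (Finset.mem_singleton.1 hh)]
    · left
      show (if j = c then (⊤ : ℕ∞) else 0) = 0
      rw [if_neg hj]

/-- the law of the listed point and table in a world sees the cell of the point only -/
theorem C_law (hbc : b ≠ c) (hbd : b ≠ d) (hcd : c ≠ d) (m : ℕ) (z : Om W X β) (a : β × W) :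
    (WE tb {b} m z).Pr (fun w => Cx c d w = a) =
      tb.Ps.Pr (fun w => Cx c d w = a ∧ D.qb m (w.2.2 c) = D.qb m (z.2.2 c)) /
        tb.Ps.Pr (fun w => D.qb m (w.2.2 c) = D.qb m (z.2.2 c)) := by
  have h0 := WE_ne tb {b} m z
  have hev : ∀ w, (sgt D {b} m w = sgt D {b} m z) ↔ (si D {b} {d} ∅ m w = si D {b} {d} ∅ m z ∧
      D.qb m (w.2.2 c) = D.qb m (z.2.2 c)) := by
    intro w
    rw [sgt_eq, si_eq]
    constructor
    · rintro ⟨a1, a2, a3⟩
      exact ⟨⟨a1, fun i hi => absurd hi (Finset.notMem_empty i), a2, fun j _ => a3 j⟩, a3 c⟩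
    · rintro ⟨⟨a1, _, a2, a3⟩, a4⟩
      refine ⟨a1, a2, fun j => ?_⟩
      rcases f3 hbc hbd hcd j with rfl | rfl | rfl
      · rw [a2 j (Finset.mem_singleton_self j)]
      · exact a4
      · exact a3 j (Finset.mem_singleton_self j)
  have key : ∀ S : β × W → Prop, tb.Ps.Pr (fun w => sgt D {b} m w = sgt D {b} m z ∧ S (Cx c d w)) =
      tb.Ps.Pr (fun w => si D {b} {d} ∅ m w = si D {b} {d} ∅ m z) *
        tb.Ps.Pr (fun w => S (Cx c d w) ∧ D.qb m (w.2.2 c) = D.qb m (z.2.2 c)) := by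
    intro S
    have h1 := Cx_indep (tb := tb) hbc hcd m (fun w => ind (S (Cx c d w) ∧ D.qb m (w.2.2 c) = D.qb m (z.2.2 c)))
      (fun w => ind (si D {b} {d} ∅ m w = si D {b} {d} ∅ m z)) (fun v w e => by
        have e' := Prod.mk.inj (show (v.2.2 c, v.2.1 d) = (w.2.2 c, w.2.1 d) from e)
        show ind (S (Cx c d v) ∧ D.qb m (v.2.2 c) = D.qb m (z.2.2 c)) =
          ind (S (Cx c d w) ∧ D.qb m (w.2.2 c) = D.qb m (z.2.2 c))
        rw [e, e'.1]) (fun v w e => by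
        show ind (si D {b} {d} ∅ m v = _) = ind (si D {b} {d} ∅ m w = _)
        rw [e])
    unfold FP.Pr
    rw [mul_comm, ← h1]
    refine tb.Ps.E_congr fun w _ => ?_
    rw [← ind_and]
    refine ind_cg ?_
    show (sgt D {b} m w = sgt D {b} m z ∧ S (Cx c d w)) ↔ _
    rw [hev w]
    tauto
  have k1 := key fun y => y = a
  have k2 := key fun _ => True
  simp only [and_true, true_and] at k2
  have h1 : tb.Ps.Pr (fun w => si D {b} {d} ∅ m w = si D {b} {d} ∅ m z) ≠ 0 := by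
    intro hh
    rw [hh, zero_mul] at k2
    exact h0 k2
  unfold WE
  rw [FP.cond_Pr h0, k1, k2, mul_div_mul_left _ _ h1]

end law

/-! ## foreign rows: all lives, all lists -/

section fin

open Pool.Agent.GMH.TabF (si si_eq sg_si si_ce sgt_si ce_supp WE WE_ne WE_supp wo_WE)

open Pool.Agent.GMH.GhoL (CvH secH wtH qH qH_nn qH_one)

variable {X β γ φ : Type} [Fintype X] [Fintype β] [Fintype φ] [Nonempty X] [Nonempty β]
variable {D : HD (Fin 3) X β γ φ} {al : ℝ} {h : D.Thick al}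
variable {dg : ℕ → X → ℝ} {prr : ℕ → Fin 3 → φ → φ} {T : ℕ} {Lam : ℝ} {W : Type} [Fintype W] {tb : Tab D prr T W}
variable {v : ℕ → Finset (Fin 3) → X → (Fin 3 → β) → Pt (Fin 3) X β φ} {n N1 : ℝ}
variable {b c d : Fin 3}

/-- node of the points of a sample point with tables -/
def ndO (D : HD (Fin 3) X β γ φ) (m : ℕ) (w : Om W X β) : γ × (Fin 3 → γ) := (D.qa m w.1, fun k => D.qb m (w.2.2 k))

/-- RULE L does not change the node -/
theorem nn_etl {tl : ℕ → Om W X β → Prop} (ht0 : ∀ r w, tl r w → r % 5 ≠ 0) (r : ℕ) (w : Om W X β) :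
    TP.nn (etl tl r w) = TP.nn r := by
  unfold etl
  split_ifs with h1
  · have h2 := ht0 r w h1
    unfold TP.nn nnj
    rw [show (5 * (r / 5) + 5) % 5 = 0 by omega, if_pos rfl, if_neg h2]
    omega
  · rfl

theorem etl_T {tl : ℕ → Om W X β → Prop} {r : ℕ} (hr : r < 5 * T) (w : Om W X β) : etl tl r w / 5 ≤ T := by
  unfold etl
  split_ifs <;> omega

section lst

variable {Xi : Type} [Fintype Xi] {Qc : ℕ → Om W X β → FP Xi} {M : ℕ}

/-- the law of one listed row does not see the exact point of `d` -/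
theorem q_fac (hbc : b ≠ c) (hbd : b ≠ d) (hcd : c ≠ d) (hQ : ∀ r t, Fac (cn tb v b r) (fun z => (Qc r z).p t)) (r : ℕ)
    (a : (β × W) × Xi) : Fac (cn tb v b r) (fun z => qH (WE tb {b} (TP.nn r) z) (Qc r z) (Cx c d) a) := by
  intro z z' hz
  have hcell : D.qb (TP.nn r) (z.2.2 c) = D.qb (TP.nn r) (z'.2.2 c) := by
    have e1 := (Prod.mk.inj (show ((z.2.2 b, Um v (nc r {b}) {b} z.1 z.2.2), (Um v (nc r ∅) ∅ z.1 z.2.2,
      (D.qa (TP.nn r) z.1, fun k => D.qb (TP.nn r) (z.2.2 k)))) = ((z'.2.2 b, Um v (nc r {b}) {b} z'.1 z'.2.2),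
      (Um v (nc r ∅) ∅ z'.1 z'.2.2, (D.qa (TP.nn r) z'.1, fun k => D.qb (TP.nn r) (z'.2.2 k)))) from hz)).2
    exact congrFun (Prod.mk.inj (Prod.mk.inj e1).2).2 c
  show (WE tb {b} (TP.nn r) z).Pr (fun w => Cx c d w = a.1) * (Qc r z).p a.2 =
    (WE tb {b} (TP.nn r) z').Pr (fun w => Cx c d w = a.1) * (Qc r z').p a.2
  rw [C_law hbc hbd hcd, C_law hbc hbd hcd, hcell, show (Qc r z).p a.2 = (Qc r z').p a.2 from hQ r a.2 z z' hz]

variable (tb b c d Qc) in
/-- the weight of the life with the list -/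
def gL (en : ℕ → Om W X β → Prop) (r : ℕ) (x : Fin M → (β × W) × Xi) (z : Om W X β) : ℝ :=
  ind (en r z) * sw (qH (WE tb {b} (TP.nn r) z) (Qc r z) (Cx c d)) x

theorem gL_fac (hbc : b ≠ c) (hbd : b ≠ d) (hcd : c ≠ d) (hQ : ∀ r t, Fac (cn tb v b r) (fun z => (Qc r z).p t))
    {en : ℕ → Om W X β → Prop} (hen : ∀ s, Fac (cn tb v b s) (en s)) (r : ℕ) (x : Fin M → (β × W) × Xi) :
    Fac (cn tb v b r) (gL tb b c d Qc en r x) := by
  intro z z' hz
  show ind (en r z) * ∏ k, qH (WE tb {b} (TP.nn r) z) (Qc r z) (Cx c d) (x k) = ind (en r z') * ∏ k, _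
  rw [hen r z z' hz, Finset.prod_congr rfl fun k _ => q_fac hbc hbd hcd hQ r (x k) z z' hz]

theorem gL_nn (en : ℕ → Om W X β → Prop) (r : ℕ) (x : Fin M → (β × W) × Xi) (z : Om W X β) :
    0 ≤ gL tb b c d Qc en r x z := mul_nonneg (ind_nonneg _) (sw_nonneg (fun a => qH_nn a) x)

theorem gL_sum (en : ℕ → Om W X β → Prop) (r : ℕ) (z : Om W X β) :
    ∑ x : Fin M → (β × W) × Xi, gL tb b c d Qc en r x z ≤ ind (en r z) := by
  unfold gL
  rw [← Finset.mul_sum, sw_sum (qH_one) M, mul_one]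

/-- listed points are in the cell -/
theorem gL_cell {en : ℕ → Om W X β → Prop} {r : ℕ} {x : Fin M → (β × W) × Xi} {w : Om W X β}
    (hw : gL tb b c d Qc en r x w ≠ 0) (k : Fin M) : D.qb (TP.nn r) (x k).1.1 = D.qb (TP.nn r) (w.2.2 c) := by
  have h1 : sw (qH (WE tb {b} (TP.nn r) w) (Qc r w) (Cx c d)) x ≠ 0 := right_ne_zero_of_mul hw
  have h2 : qH (WE tb {b} (TP.nn r) w) (Qc r w) (Cx c d) (x k) ≠ 0 := Finset.prod_ne_zero_iff.1 h1 k (mem_univ k)
  have h3 : (WE tb {b} (TP.nn r) w).Pr (fun u => Cx c d u = (x k).1) ≠ 0 := left_ne_zero_of_mul h2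
  by_contra hne
  refine h3 ?_
  rw [← (WE tb {b} (TP.nn r) w).E_const 0]
  refine FP.E_congr _ fun u hu => ind_not fun hh => hne ?_
  have h4 := ((WE_supp tb).1 hu).2
  rw [← hh]
  exact (sgt_eq.1 h4).2.2 c

end lst

/-! ## covers of `GMH/GhoL` = covers of `GMH/PayI` -/

section brg

variable {Xi : Type} [Fintype Xi] {M : ℕ}

variable (tb) in
/-- a test of the rows as a test of `GMH/GhoL` -/
def psg (F : ℕ → β → X × φ → Pt (Fin 3) X β φ → ℝ) (e : ℕ) (b c : Fin 3) (B : X × β) (C : β × W) (ρ : X × φ)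
    (Dd : β × W) : ℝ := F e C.1 ρ (pz tb e b c B C.1 Dd)

variable (tb h v b c d) in
/-- the section of the life which starts at `r` -/
def hsL (kv : ℕ → Pt (Fin 3) X β φ → Prop) (tl : ℕ → Om W X β → Prop)
    (rwf : ℕ → (γ × (Fin 3 → γ)) → β → (β × W) → Xi → X × φ) (r : ℕ) (a : (β × W) × Xi) (w : Om W X β) : Prop :=
  Gr h tb v (kv (etl tl r w)) (etl tl r w) b c d (Bx b w) a.1
    (rwf (etl tl r w) (ndO D (TP.nn r) w) (w.2.2 b) a.1 a.2) (Cx d c w)

variable (tb b c d) in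
/-- its test -/
def fsL (F : ℕ → β → X × φ → Pt (Fin 3) X β φ → ℝ) (tl : ℕ → Om W X β → Prop)
    (rwf : ℕ → (γ × (Fin 3 → γ)) → β → (β × W) → Xi → X × φ) (r : ℕ) (a : (β × W) × Xi) (w : Om W X β) : ℝ :=
  psg tb F (etl tl r w) b c (Bx b w) a.1 (rwf (etl tl r w) (ndO D (TP.nn r) w) (w.2.2 b) a.1 a.2) (Cx d c w)

/-- **THE BRIDGE** : the covers of `GMH/GhoL` (sight of the world without the face `b c`) are those of `GMH/PayI` -/
theorem brg (hv : Codes D v) {tl : ℕ → Om W X β → Prop} (htl : ∀ s, Fac (cn tb v b s) (tl s))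
    {kv : ℕ → Pt (Fin 3) X β φ → Prop} {F : ℕ → β → X × φ → Pt (Fin 3) X β φ → ℝ}
    {rwf : ℕ → (γ × (Fin 3 → γ)) → β → (β × W) → Xi → X × φ} {kap lam : ℝ} {K : ℕ} (r : ℕ)
    (x : Fin M → (β × W) × Xi) (z : Om W X β) (S : Om W X β → ℕ) :
    (WE tb {b} (TP.nn r) z).Pr (fun w =>
      CvH (WE tb {b} (TP.nn r) z) (fun s => si D {b} {d} ∅ (TP.nn s)) (Bx b) (Cx d c)
        (Gr h tb v (kv (etl tl r z)) (etl tl r z) b c d) (psg tb F (etl tl r z) b c)
        (fun B C t => rwf (etl tl r z) (ndO D (TP.nn r) z) B.2 C t) lam kap K x (S w) w) =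
    (Wr tb.Ps (fun s => sgt D {b} (TP.nn s)) r z).Pr (fun w =>
      covL (Wr tb.Ps (fun s => sgt D {b} (TP.nn s)) r z) (fun s => sgt D {b} (TP.nn s))
        (fun _ => hsL h tb v b c d kv tl rwf r) (fsL tb b c d F tl rwf r) kap lam K x (S w) w) := by
  have hWE : Wr tb.Ps (fun s => sgt D {b} (TP.nn s)) r z = WE tb {b} (TP.nn r) z := rfl
  rw [hWE]
  set P := WE tb {b} (TP.nn r) z with hP
  unfold FP.Pr
  refine P.E_congr fun w hw => ind_cg ?_
  have hwo := wo_WE tb {b} (TP.nn r) z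
  have s1 := GdyR.covL_change (P := P) (X := fun s => sgt D {b} (TP.nn s)) (Y := fun s => si D {b} {d} ∅ (TP.nn s))
    (H := secH (Bx b) (Cx d c) (Gr h tb v (kv (etl tl r z)) (etl tl r z) b c d)
      (fun B C t => rwf (etl tl r z) (ndO D (TP.nn r) z) B.2 C t))
    (f := wtH (Bx b) (Cx d c) (psg tb F (etl tl r z) b c)
      (fun B C t => rwf (etl tl r z) (ndO D (TP.nn r) z) B.2 C t)) (kap := kap) (lam := lam) (K := K) (x := x)
    (V := fun w => (Bx (W := W) b w, Cx d c w)) (fun s f hf u hu => by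
      have hf' : Fac (si D {b, d} ∅ {c} 0) f := by
        intro a a' e
        rw [si_eq] at e
        refine hf a a' (Prod.ext (Prod.ext e.1 ?_) (Prod.ext ?_ ?_))
        · exact e.2.2.1 b (by simp)
        · exact e.2.2.1 d (by simp)
        · exact e.2.1 c (by simp)
      have e1 : P.ce (sgt D {b} (TP.nn s)) f u = P.ce (si D {b} univ ∅ (TP.nn s)) f u :=
        ce_supp (fun _ _ _ _ => sgt_si {b} (TP.nn s)) f hu
      rw [e1]
      refine si_ce hwo (E := {b}) (F := {d}) (S := ∅) (E1 := {b}) (F1 := univ) (S1 := ∅) (E2 := {b, d}) (F2 := ∅)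
        (S2 := {c}) (m := TP.nn s) (m1 := TP.nn s) (m2 := 0) (Finset.Subset.refl _) (fun j _ => Or.inr ⟨mem_univ j, le_rfl⟩)
        (Finset.Subset.refl _) (by simp) (fun j hj => Or.inl (by
          rw [Finset.mem_singleton.1 hj]
          simp)) (Finset.empty_subset _) (fun j hj => Finset.mem_union_left _ (Finset.mem_inter.1 hj).1)
        (by simp) (fun j _ hj => absurd hj (Finset.notMem_empty j)) (fun j hj _ => ?_)
        (fun j _ hj => absurd hj (Finset.notMem_empty j)) hf' hu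
      rcases Finset.mem_insert.1 hj with hj | hj
      · exact Or.inl (Finset.mem_union_left _ (Finset.mem_singleton.2 hj))
      · exact Or.inr (Or.inl ⟨hj, le_rfl⟩)) (fun s a a' e => by
      have e' := Prod.mk.inj (show (Bx b a, Cx d c a) = (Bx b a', Cx d c a') from e)
      have e1 := Prod.mk.inj (show (a.1, a.2.2 b) = (a'.1, a'.2.2 b) from e'.1)
      have e2 := Prod.mk.inj (show (a.2.2 d, a.2.1 c) = (a'.2.2 d, a'.2.1 c) from e'.2)
      refine si_eq.2 ⟨e1.1, fun i hi => absurd hi (Finset.notMem_empty i), fun j hj => ?_, fun j hj => ?_⟩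
      · rw [Finset.mem_singleton.1 hj, e1.2]
      · rw [Finset.mem_singleton.1 hj, e2.1]) (fun s a u u' e => GhoL.secH_fac s a u u' e)
    (fun a => GhoL.wtH_fac a) (S w) hw
  have hsame : ∀ u, P.p u ≠ 0 → etl tl r u = etl tl r z ∧ ndO D (TP.nn r) u = ndO D (TP.nn r) z := by
    intro u hu
    have h1 := ((WE_supp tb).1 hu).2
    have h2 := sgt_eq.1 h1
    refine ⟨?_, Prod.ext (by show D.qa (TP.nn r) u.1 = D.qa (TP.nn r) z.1; rw [h2.1]) (funext fun k => h2.2.2 k)⟩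
    exact ((sgt_cn hv b r).trans (etl_fac (A := fun q => cn tb v b q) htl r)) u z h1
  show CvH P (fun s => si D {b} {d} ∅ (TP.nn s)) (Bx b) (Cx d c) (Gr h tb v (kv (etl tl r z)) (etl tl r z) b c d)
    (psg tb F (etl tl r z) b c) (fun B C t => rwf (etl tl r z) (ndO D (TP.nn r) z) B.2 C t)
    lam kap K x (S w) w ↔ _
  unfold CvH
  rw [← s1]
  refine covL_congr (fun t k u hu => ?_) (fun t k u hu _ => ?_) _ hw
  · have h1 := hsame u hu
    simp only [hsL, h1.1, h1.2]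
    exact Iff.rfl
  · have h1 := hsame u hu
    simp only [fsL, h1.1, h1.2]
    rfl

/-- the row of a listed point sees the lower letters of the tested top only -/
theorem rk_fac {rwf : ℕ → (γ × (Fin 3 → γ)) → β → (β × W) → Xi → X × φ} (hbc : b ≠ c) (e : ℕ) (a : (β × W) × Xi) :
    Fac (ZbQ D v e c) (fun p : Pt (Fin 3) X β φ => rwf e (nd D (TP.nn e) p) (p.2.1 b) a.1 a.2) := by
  intro p p' hz
  have k3 := BB_eq.1 (Prod.mk.inj (show (lo (SL v e) (univ.erase c) p, BB D (TP.nn e) (univ.erase c) p) =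
    (lo (SL v e) (univ.erase c) p', BB D (TP.nn e) (univ.erase c) p') from hz)).2
  have k4 : nd D (TP.nn e) p = nd D (TP.nn e) p' := Prod.ext k3.2.1 (funext fun k => k3.2.2 k)
  show rwf e (nd D (TP.nn e) p) (p.2.1 b) a.1 a.2 = rwf e (nd D (TP.nn e) p') (p'.2.1 b) a.1 a.2
  rw [k4, k3.1 b (Finset.mem_erase.2 ⟨hbc, mem_univ _⟩)]

/-- the sections read on the space of the state -/
theorem hs_iff (hv : Codes D v) (hbc : b ≠ c) (hbd : b ≠ d) (hcd : c ≠ d) {tl : ℕ → Om W X β → Prop}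
    (ht0 : ∀ r w, tl r w → r % 5 ≠ 0) {kv : ℕ → Pt (Fin 3) X β φ → Prop} {F : ℕ → β → X × φ → Pt (Fin 3) X β φ → ℝ}
    (hF : ∀ e yc ρ, Fac (fun p => (FQ v (e / 5) c p, ZbQ D v e c p)) (F e yc ρ))
    {rwf : ℕ → (γ × (Fin 3 → γ)) → β → (β × W) → Xi → X × φ} {r : ℕ} {a : (β × W) × Xi} {w : Om W X β}
    (hy : D.qb (TP.nn r) a.1.1 = D.qb (TP.nn r) (w.2.2 c)) {e : ℕ} (he : etl tl r w = e) :
    (hsL h tb v b c d kv tl rwf r a w ↔ Hf h v (kv e) e c d a.1.1
      (rwf e (nd D (TP.nn e) (tb.pt (e / 5) w)) ((tb.pt (e / 5) w).2.1 b) a.1 a.2) (tb.pt (e / 5) w)) ∧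
    fsL tb b c d F tl rwf r a w = F e a.1.1
      (rwf e (nd D (TP.nn e) (tb.pt (e / 5) w)) ((tb.pt (e / 5) w).2.1 b) a.1 a.2) (tb.pt (e / 5) w) := by
  have hne : TP.nn e = TP.nn r := he ▸ nn_etl ht0 r w
  have h2 : rwf e (nd D (TP.nn e) (tb.pt (e / 5) w)) ((tb.pt (e / 5) w).2.1 b) a.1 a.2 =
      rwf e (ndO D (TP.nn r) w) (w.2.2 b) a.1 a.2 := by
    show rwf e (ndO D (TP.nn e) w) (w.2.2 b) a.1 a.2 = _
    rw [hne]
  have h3 : D.qb (TP.nn e) a.1.1 = D.qb (TP.nn e) (w.2.2 c) := by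
    rw [hne]
    exact hy
  rw [h2]
  have h1 := gr_iff (h := h) (tb := tb) (kv := kv e) (Kc := 0) (e := e) (w := w) (C := a.1)
    (ρ := rwf e (ndO D (TP.nn r) w) (w.2.2 b) a.1 a.2) hv hbc hbd hcd h3
  simp only [hsL, fsL, he]
  refine ⟨h1.1, ?_⟩
  exact hF e a.1.1 _ _ _ (Prod.ext (pz_fq hv hbc hbd hcd h3) (pz_zb hv hbc hbd hcd h3))

end brg

/-- **FOREIGN ROWS AT THE EXACT VERTEX `b`: THE COVERED MASS OF ALL LIVES**, in the form of `GMH/GhoL` -/
theorem pay_foreign (H : D.Hyp dg prr al T Lam) (R : Run h (pr3 (Fin 3) n N1) (SS1 (Fin 3)) (AdmDep D) v) (hn : 1 ≤ n)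
    (hN1 : 1 ≤ N1) (hbc : b ≠ c) (hbd : b ≠ d) (hcd : c ≠ d) {en tl : ℕ → Om W X β → Prop}
    (hen : ∀ s, Fac (cn tb v b s) (en s)) (htl : ∀ s, Fac (cn tb v b s) (tl s)) (ht0 : ∀ r w, tl r w → r % 5 ≠ 0)
    {kv : ℕ → Pt (Fin 3) X β φ → Prop} (hk0 : ∀ e, Fac (fun p => (XZ D v e d p, FQ v (e / 5) c p)) (kv e)) {r1 Kc : ℝ}
    (r0 : 0 ≤ r1) (hk : ∀ e, e / 5 ≤ T → TwoT h v (kv e) e c d r1) (hKc : 0 ≤ Kc) {Xi : Type} [Fintype Xi]
    (rwf : ℕ → (γ × (Fin 3 → γ)) → β → (β × W) → Xi → X × φ) (Qc : ℕ → Om W X β → FP Xi)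
    (hQ : ∀ r t, Fac (cn tb v b r) (fun z => (Qc r z).p t)) {M : ℕ} (hM : 1 ≤ M)
    {kap lam th ep1 : ℝ} {K J : ℕ} (hK : 0 < K) (k0 : 0 < kap) (t0 : 0 < th) (l0 : 0 ≤ lam) (e0 : 0 < ep1)
    (he1 : 4 * max Lam Kc * ep1 ≤ lam * kap) (hth : 4 * max Lam Kc * th ≤ lam * ep1) (hJ : 1 < th * kap * (J + 1))
    {th1 : ℝ} (t1 : 0 < th1) (t1' : th1 ≤ 1) (hA : 8 * A1 n (r1 + Real.exp (-Kc)) th1 M ≤ n * lam * kap) :
    lam * ∑ r ∈ range (5 * T), ∑ x : Fin M → (β × W) × Xi, tb.Ps.E (fun z => ind (en r z) *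
      sw (qH (WE tb {b} (TP.nn r) z) (Qc r z) (Cx c d)) x * (WE tb {b} (TP.nn r) z).Pr (fun w =>
        CvH (WE tb {b} (TP.nn r) z) (fun s => si D {b} {d} ∅ (TP.nn s)) (Bx b) (Cx d c)
          (Gr h tb v (kv (etl tl r z)) (etl tl r z) b c d) (psO h tb v Kc (kv (etl tl r z)) (etl tl r z) b c d)
          (fun B C t => rwf (etl tl r z) (ndO D (TP.nn r) z) B.2 C t) lam kap K x (nx en (5 * T) r w) w)) ≤
      8 * (5 * Lam) + 16 * (J + 1) * Real.sqrt th1 / n * ∑ r ∈ range (5 * T), tb.Ps.Pr (en r) := by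
  classical
  have hv := R.codes
  set F : ℕ → β → X × φ → Pt (Fin 3) X β φ → ℝ := fun e yc ρ p => ff h v Kc (kv e) e c d yc ρ p with hF
  have fF : ∀ e yc ρ, Fac (fun p => (FQ v (e / 5) c p, ZbQ D v e c p)) (F e yc ρ) := fun e yc ρ =>
    ff_fac (rf := fun _ => ρ) (fun _ _ _ => rfl)
  have key := pay_lives_r (h := h) (tb := tb) H R hn hN1 hbc hen htl hM (Rw := (β × W) × Xi)
    (Hs := hsL h tb v b c d kv tl rwf) (fs := fsL tb b c d F tl rwf)
    (Hp := fun _ e a p => Hf h v (kv e) e c d a.1.1 (rwf e (nd D (TP.nn e) p) (p.2.1 b) a.1 a.2) p)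
    (fp := fun _ e a p => ff h v Kc (kv e) e c d a.1.1 (rwf e (nd D (TP.nn e) p) (p.2.1 b) a.1 a.2) p)
    (fun _ e a => Hf_fac (rk_fac hbc e a)) (fun _ e a => ff_fac (rk_fac hbc e a)) (g := gL tb b c d Qc en)
    (gL_fac hbc hbd hcd hQ hen) (fun r x w => gL_nn en r x w) (fun r w => gL_sum en r w)
    (fun r hr x w hw hgw e he k => hs_iff hv hbc hbd hcd ht0 fF (gL_cell hgw k) he) (c0 := 1)
    (eps := r1 + Real.exp (-Kc)) zero_le_one (add_nonneg r0 (Real.exp_pos _).le)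
    (fun r hr x w hw hgw e he l => by
      have heT : e / 5 ≤ T := he ▸ etl_T hr w
      simp only [one_mul]
      exact hone_row H R hn hN1 heT hbc hbd hcd (hk0 e) r0 (hk e heT) (fun k => rk_fac hbc e (x k))
        ((pul_pt h tb heT).ne hw) l) hK k0 t0 l0 (L := max Lam Kc) (le_max_of_le_right hKc)
    (fun r hr a z => (ff_bd (c := c) (d := d) H R hn hN1 (etl_T (tl := tl) hr z) hKc _ _ _ _).1.trans (le_max_left _ _))
    (fun r hr a z => (neg_le_neg (le_max_right Lam Kc)).trans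
      (ff_bd (c := c) (d := d) H R hn hN1 (etl_T (tl := tl) hr z) hKc _ _ _ _).2) e0 he1 hth hJ t1 t1' (by
      rw [mul_one]
      exact hA)
  rw [one_mul] at key
  refine le_trans (mul_le_mul_of_nonneg_left (le_of_eq ?_) l0) key
  refine Finset.sum_congr rfl fun r hr => Finset.sum_congr rfl fun x _ => ?_
  unfold cvW
  refine tb.Ps.E_congr fun z hz => ?_
  congr 1
  exact brg (F := F) hv htl r x z (nx en (5 * T) r)

end fin

end

end Pool.Agent.GMH.PayG
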