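import Pool.Agent.GMH.PayGU
import Pool.Agent.GMH.Dyn
import Pool.Agent.GMH.CK1

/-!
# GMH/PayGI (helper15): `GMH/PayG` WITH THE CLOCKS OF `GMH/Dyn` (lives `stg C`, tables `eT`, covers at any time of the life)

* `ltL_cn`, `etl_ltL` : RULE L: `etl (ltL v tb) r = eT v tb r`;
* `lt_nx_stg`, `le_nx` : the life `stg C s w = r` ends before `nx en (5 T) r w`, `en r w = (stg C r w = r)`;
* `payF`, `payF_u` : foreign rows (columns: exchange `c` and `d`) of ALL LIVES `r`, cover at the time `S r w` of the life (for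
  instance `T^b`), signed and test `1`.
-/

set_option autoImplicit false
set_option linter.unusedSectionVars false

namespace Pool.Agent.GMH.PayG

open Finset Pool.Agent.PWZ Pool.Agent.M3 Pool.Agent.GM Pool.Agent.GM.Harm Pool.Agent.GMH
open Pool.Agent.GMH.Gdy Pool.Agent.GMH.GdyN Pool.Agent.GMH.PayW Pool.Agent.GMH.PayQ Pool.Agent.GMH.PayI
open Pool.Agent.GMH.Dy Pool.Agent.GMH.TP Pool.Agent.GMH.V3 Pool.Agent.GMH.V3.TG
open Pool.Agent.GMH.GhoL (CvH qH qH_nn qH_one)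
open Pool.Agent.GMH.TabF (si WE WE_supp)
open Pool.Agent.GMH.CK (stg stg_le stg_idem stg_mid)

noncomputable section

section lif

variable {Om : Type} {C : ℕ → ℕ → Om → Prop}

/-- start of a life -/
def enS (C : ℕ → ℕ → Om → Prop) (r : ℕ) (w : Om) : Prop := stg C r w = r

end lif

variable {X β γ φ : Type} [Fintype X] [Fintype β] [Fintype φ] [Nonempty X] [Nonempty β]
variable {D : HD (Fin 3) X β γ φ} {al : ℝ} {h : D.Thick al}
variable {dg : ℕ → X → ℝ} {prr : ℕ → Fin 3 → φ → φ} {T : ℕ} {Lam : ℝ} {W : Type} [Fintype W] {tb : Tab D prr T W}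
variable {v : ℕ → Finset (Fin 3) → X → (Fin 3 → β) → Pt (Fin 3) X β φ} {n N1 : ℝ}
variable {b c d : Fin 3} {C : ℕ → ℕ → Om W X β → Prop}

theorem enS_fac (hC : ∀ s, Fac (cn tb v b s) (stg C s)) (s : ℕ) : Fac (cn tb v b s) (enS C s) := fun x y e => by
  show (stg C s x = s) = (stg C s y = s)
  rw [hC s x y e]

theorem ltL_cn (s : ℕ) : Fac (cn tb v b s) (ltL v tb s) := by
  intro x y e
  have e1 : MVI.NPo tb v s x = MVI.NPo tb v s y := (Prod.mk.inj (show (MVI.XLo tb v b s x, MVI.NPo tb v s x) =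
    (MVI.XLo tb v b s y, MVI.NPo tb v s y) from e)).2
  unfold ltL
  by_cases h2 : 2 ≤ s % 5
  · have k1 := MVI.NPo_le tb (v := v) (show 5 * (s / 5) + 2 ≤ s by omega) x y e1
    have k2 := MVI.NPo_le tb (v := v) (show 5 * (s / 5) + 1 ≤ s by omega) x y e1
    have g1 : ∀ m, MVI.NPo tb v m x = MVI.NPo tb v m y → tb.Ps.m (MVI.NPo tb v m) x = tb.Ps.m (MVI.NPo tb v m) y := by
      intro m hm
      unfold FP.m
      rw [hm]
    rw [g1 _ k1, g1 _ k2]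
  · simp only [h2, false_and]

theorem etl_ltL (r : ℕ) (w : Om W X β) : etl (ltL v tb) r w = eT v tb r w := rfl

theorem ltL_mod {r : ℕ} {w : Om W X β} (hl : ltL v tb r w) : r % 5 ≠ 0 := by
  have := hl.1
  omega

theorem le_nx {r S : ℕ} {w : Om W X β} {N : ℕ} (h1 : S ≤ N) (h2 : ∀ s, r < s → s < S → stg C s w ≠ s) :
    S ≤ nx (enS C) N r w := by
  by_contra hh
  have hh := not_le.1 hh
  rcases nx_or (en := enS C) (N := N) r w with h3 | h3
  · exact h2 _ (lt_nx r w) hh h3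
  · omega

/-- the times of a life -/
theorem lt_nx_stg {r s : ℕ} {w : Om W X β} {N : ℕ} (hs : s < N) (h1 : stg C s w = r) : s < nx (enS C) N r w := by
  by_contra hh
  have hh := not_lt.1 hh
  rcases nx_or (en := enS C) (N := N) r w with h3 | h3
  · have h4 : stg C (nx (enS C) N r w) w = r := stg_mid h1 (lt_nx r w).le hh
    have h5 := lt_nx (en := enS C) (N := N) r w
    have h6 : stg C (nx (enS C) N r w) w = nx (enS C) N r w := h3
    omega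
  · omega

/-! ## the payments -/

/-- cover at a time of the life -/
theorem cvS_le {en : ℕ → Om W X β → Prop} (hen : ∀ s, Fac (cn tb v b s) (en s)) (hv : Codes D v) {Xi : Type} [Fintype Xi]
    {M : ℕ} {Gx : X × β → β × W → X × φ → β × W → Prop} {px : X × β → β × W → X × φ → β × W → ℝ}
    {rw' : X × β → β × W → Xi → X × φ} {lam kap : ℝ} {K : ℕ} {r : ℕ} {x : Fin M → (β × W) × Xi} {z : Om W X β}
    {S S' : Om W X β → ℕ} (hS : ∀ w, en r w → S w ≤ S' w) {A : ℝ} (hA : 0 ≤ A) :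
    ind (en r z) * A * (WE tb {b} (TP.nn r) z).Pr (fun w => CvH (WE tb {b} (TP.nn r) z)
      (fun s => si D {b} {d} ∅ (TP.nn s)) (Bx b) (Cx d c) Gx px rw' lam kap K x (S w) w) ≤
    ind (en r z) * A * (WE tb {b} (TP.nn r) z).Pr (fun w => CvH (WE tb {b} (TP.nn r) z)
      (fun s => si D {b} {d} ∅ (TP.nn s)) (Bx b) (Cx d c) Gx px rw' lam kap K x (S' w) w) := by
  by_cases hz : en r z
  · refine mul_le_mul_of_nonneg_left ?_ (mul_nonneg (ind_nonneg _) hA)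
    unfold FP.Pr
    refine FP.E_mono _ fun w hw => ind_mono fun hc => ?_
    have h1 := ((WE_supp tb).1 hw).2
    have h2 : en r w := (iff_of_eq (((sgt_cn hv b r).trans (hen r)) w z h1)).2 hz
    exact GdyR.covL_mono (hS w h2) hc
  · rw [ind_not hz]
    simp

/-- **FOREIGN ROWS OF ALL LIVES `stg C`, TABLES `eT`, COVER AT THE TIME `S r w` OF THE LIFE `r`** -/
theorem payF (H : D.Hyp dg prr al T Lam) (R : Run h (pr3 (Fin 3) n N1) (SS1 (Fin 3)) (AdmDep D) v) (hn : 1 ≤ n)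
    (hN1 : 1 ≤ N1) (hbc : b ≠ c) (hbd : b ≠ d) (hcd : c ≠ d) (hC : ∀ s, Fac (cn tb v b s) (stg C s))
    {S : ℕ → Om W X β → ℕ} (hS1 : ∀ r w, stg C r w = r → S r w ≤ 5 * T)
    (hS2 : ∀ r w, stg C r w = r → ∀ s, r < s → s < S r w → stg C s w ≠ s)
    {kv : ℕ → Pt (Fin 3) X β φ → Prop} (hk0 : ∀ e, Fac (fun p => (XZ D v e d p, FQ v (e / 5) c p)) (kv e)) {r1 Kc : ℝ}
    (r0 : 0 ≤ r1) (hk : ∀ e, e / 5 ≤ T → TwoT h v (kv e) e c d r1) (hKc : 0 ≤ Kc) {Xi : Type} [Fintype Xi]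
    (rwf : ℕ → (γ × (Fin 3 → γ)) → β → (β × W) → Xi → X × φ) (Qc : ℕ → Om W X β → FP Xi)
    (hQ : ∀ r t, Fac (cn tb v b r) (fun z => (Qc r z).p t)) {M : ℕ} (hM : 1 ≤ M)
    {kap lam th ep1 : ℝ} {K J : ℕ} (hK : 0 < K) (k0 : 0 < kap) (t0 : 0 < th) (l0 : 0 ≤ lam) (e0 : 0 < ep1)
    (he1 : 4 * max Lam Kc * ep1 ≤ lam * kap) (hth : 4 * max Lam Kc * th ≤ lam * ep1) (hJ : 1 < th * kap * (J + 1))
    {th1 : ℝ} (t1 : 0 < th1) (t1' : th1 ≤ 1) (hA : 8 * A1 n (r1 + Real.exp (-Kc)) th1 M ≤ n * lam * kap) :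
    lam * ∑ r ∈ range (5 * T), ∑ x : Fin M → (β × W) × Xi, tb.Ps.E (fun z => ind (stg C r z = r) *
      sw (qH (WE tb {b} (TP.nn r) z) (Qc r z) (Cx c d)) x * (WE tb {b} (TP.nn r) z).Pr (fun w =>
        CvH (WE tb {b} (TP.nn r) z) (fun s => si D {b} {d} ∅ (TP.nn s)) (Bx b) (Cx d c)
          (Gr h tb v (kv (eT v tb r z)) (eT v tb r z) b c d) (psO h tb v Kc (kv (eT v tb r z)) (eT v tb r z) b c d)
          (fun B C t => rwf (eT v tb r z) (ndO D (TP.nn r) z) B.2 C t) lam kap K x (S r w) w)) ≤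
      8 * (5 * Lam) + 16 * (J + 1) * Real.sqrt th1 / n * ∑ r ∈ range (5 * T), tb.Ps.Pr (fun w => stg C r w = r) := by
  have key := pay_foreign (tb := tb) (en := enS C) (tl := ltL v tb) H R hn hN1 hbc hbd hcd (enS_fac hC)
    (fun s => ltL_cn s) (fun r w hl => ltL_mod hl) hk0 r0 hk hKc rwf Qc hQ hM hK k0 t0 l0 e0 he1 hth hJ t1 t1' hA
  refine le_trans (mul_le_mul_of_nonneg_left ?_ l0) key
  refine Finset.sum_le_sum fun r _ => Finset.sum_le_sum fun x _ => ?_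
  refine FP.E_mono _ fun z _ => ?_
  refine cvS_le (en := enS C) (enS_fac hC) R.codes (S := S r) (S' := nx (enS C) (5 * T) r) ?_
    (sw_nonneg (fun a => qH_nn a) x)
  intro w hw
  exact le_nx (hS1 r w hw) (hS2 r w hw)

/-- **THE SAME WITH TEST `1`** (class mass of the rows `≤ q`) -/
theorem payF_u (H : D.Hyp dg prr al T Lam) (R : Run h (pr3 (Fin 3) n N1) (SS1 (Fin 3)) (AdmDep D) v) (hn : 1 ≤ n)
    (hN1 : 1 ≤ N1) (hbc : b ≠ c) (hbd : b ≠ d) (hcd : c ≠ d) (hC : ∀ s, Fac (cn tb v b s) (stg C s))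
    {S : ℕ → Om W X β → ℕ} (hS1 : ∀ r w, stg C r w = r → S r w ≤ 5 * T)
    (hS2 : ∀ r w, stg C r w = r → ∀ s, r < s → s < S r w → stg C s w ≠ s)
    {kv : ℕ → Pt (Fin 3) X β φ → Prop} {q : ℝ} (q0 : 0 ≤ q) (hk : ∀ e, e / 5 ≤ T → OneM h v (kv e) e c d q)
    {c0 eps : ℝ} (c00 : 0 ≤ c0) (he : Real.exp c0 * q ≤ eps) {Xi : Type} [Fintype Xi]
    (rwf : ℕ → (γ × (Fin 3 → γ)) → β → (β × W) → Xi → X × φ) (Qc : ℕ → Om W X β → FP Xi)
    (hQ : ∀ r t, Fac (cn tb v b r) (fun z => (Qc r z).p t)) {M : ℕ} (hM : 1 ≤ M)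
    {kap th ep1 : ℝ} {K J : ℕ} (hK : 0 < K) (k0 : 0 < kap) (t0 : 0 < th) (e0 : 0 < ep1)
    (he1 : 4 * ep1 ≤ kap) (hth : 4 * th ≤ ep1) (hJ : 1 < th * kap * (J + 1))
    {th1 : ℝ} (t1 : 0 < th1) (t1' : th1 ≤ 1) (hA : 8 * A1 n eps th1 M ≤ n * c0 * kap) :
    c0 * ∑ r ∈ range (5 * T), ∑ x : Fin M → (β × W) × Xi, tb.Ps.E (fun z => ind (stg C r z = r) *
      sw (qH (WE tb {b} (TP.nn r) z) (Qc r z) (Cx c d)) x * (WE tb {b} (TP.nn r) z).Pr (fun w =>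
        CvH (WE tb {b} (TP.nn r) z) (fun s => si D {b} {d} ∅ (TP.nn s)) (Bx b) (Cx d c)
          (Gr h tb v (kv (eT v tb r z)) (eT v tb r z) b c d) (fun _ _ _ _ => 1)
          (fun B C t => rwf (eT v tb r z) (ndO D (TP.nn r) z) B.2 C t) 1 kap K x (S r w) w)) ≤
      8 * (5 * Lam) + 16 * (J + 1) * Real.sqrt th1 / n * ∑ r ∈ range (5 * T), tb.Ps.Pr (fun w => stg C r w = r) := by
  have key := pay_foreign_u (tb := tb) (en := enS C) (tl := ltL v tb) H R hn hN1 hbc hbd hcd (enS_fac hC)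
    (fun s => ltL_cn s) (fun r w hl => ltL_mod hl) q0 hk c00 he rwf Qc hQ hM hK k0 t0 e0 he1 hth hJ t1 t1' hA
  refine le_trans (mul_le_mul_of_nonneg_left ?_ c00) key
  refine Finset.sum_le_sum fun r _ => Finset.sum_le_sum fun x _ => ?_
  refine FP.E_mono _ fun z _ => ?_
  refine cvS_le (en := enS C) (enS_fac hC) R.codes (S := S r) (S' := nx (enS C) (5 * T) r) ?_
    (sw_nonneg (fun a => qH_nn a) x)
  intro w hw
  exact le_nx (hS1 r w hw) (hS2 r w hw)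

end

end Pool.Agent.GMH.PayG
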