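import Pool.Agent.GMH.PayN

/-!
# GMH/PayU (helper83): PAYMENT OF UNSIGNED COVERS, ONE WORLD (rows D3 of H3.LEAN: kinds 2 - 9 unsigned, X-covers)

The sections of an unsigned cover see the tested letter, so the named function is `c 1_(named sections)`:

* `nms s w z` : `z` is in one of the sections named at `(s, w)`;
* `cov_u` : `(1 - th) P (covered at a stopping time) ≤ P (in a named section)`; `cov_u2` : the same for events before `σ`;
* `ne_u` : `th kap P (names not empty at σ) ≤ P (covered at σ)`;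
* `un_hone`, `un_hone2` : `E exp (c 1_(named sections) - δ) ≤ 1` if every section has class mass `≤ q` and
  `(number of names) (e ^ c - 1) q ≤ δ`;
* `absorb` : the price of the names is absorbed by the covered mass.
-/

set_option autoImplicit false
set_option linter.unusedSectionVars false

namespace Pool.Agent.GMH.PayU

open Finset Pool.Agent.PWZ Pool.Agent.M3 Pool.Agent.GMH.Gdy Pool.Agent.GMH.GdyN
open Pool.Agent.GMH.GdyR (covL covL_mono covL_change covL_facV)

noncomputable section

/-! ## named sections -/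

section names

variable {Om : Type*} [Fintype Om] (P : FP Om) {κ : ℕ → Type*} (X : ∀ t, Om → κ t) {R : Type*}
  (H : ℕ → R → Om → Prop) (f : R → Om → ℝ) (kap lam : ℝ) (K : ℕ) (th : ℝ) {n : ℕ} (x : Fin n → R)

/-- the point `z` is in a section of the list -/
def inl (l : List ((ℕ × R) × Bool)) (z : Om) : Prop := ∃ p ∈ l, H p.1.1 p.1.2 z

/-- the point is in one of the named sections -/
def nms (s : ℕ) (w : Om) : Prop := inl H (nm P X H f kap lam K th x s w) w

variable {P X H f kap lam K th x}

/-- **being covered at a stopping time = being in a named section**, up to the fraction `th` -/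
theorem cov_u (hX : Filt X) (hK : 0 < K) (k0 : 0 < kap) (t0 : 0 < th) {σ : Om → ℕ} (hσ : Stp X σ) :
    (1 - th) * P.Pr (fun w => covL P X H f kap lam K x (σ w) w) ≤
      P.Pr (fun w => nms P X H f kap lam K th x (σ w) w) := by
  have h1 := ded_le (P := P) (X := X) (H := H) (f := f) (kap := kap) (lam := lam) (K := K) (x := x) hX hK k0.le
    t0.le hσ
  have h2 : P.Pr (fun w => covL P X H f kap lam K x (σ w) w) ≤
      P.Pr (fun w => ded P X H f kap lam K th x (σ w) w) + P.Pr (fun w => nms P X H f kap lam K th x (σ w) w) := by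
    unfold FP.Pr
    rw [← FP.E_add]
    refine P.E_mono fun w _ => ?_
    by_cases hc : covL P X H f kap lam K x (σ w) w
    · rw [ind_of hc]
      by_cases hd : ded P X H f kap lam K th x (σ w) w
      · rw [ind_of hd]
        have := ind_nonneg (nms P X H f kap lam K th x (σ w) w)
        linarith
      · rw [ind_of (show nms P X H f kap lam K th x (σ w) w from (cov_nm hX hK k0 t0 rfl hd).1 hc)]
        have := ind_nonneg (ded P X H f kap lam K th x (σ w) w)
        linarith
    · rw [ind_not hc]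
      exact add_nonneg (ind_nonneg _) (ind_nonneg _)
  linarith

/-- **the names are empty if nothing is covered** -/
theorem ne_u (hX : Filt X) (hK : 0 < K) {σ : Om → ℕ} (hσ : Stp X σ) :
    th * kap * P.Pr (fun w => nm P X H f kap lam K th x (σ w) w ≠ []) ≤
      P.Pr (fun w => covL P X H f kap lam K x (σ w) w) := by
  rw [← E_stop_cp (P := P) hX hσ (fun s => covL P X H f kap lam K x s)]
  unfold FP.Pr
  rw [← FP.E_smul]
  refine P.E_mono fun w _ => ?_
  by_cases h : nm P X H f kap lam K th x (σ w) w ≠ []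
  · rw [ind_of h, mul_one]
    obtain ⟨p, hp⟩ := List.exists_mem_of_ne_nil _ h
    obtain ⟨t, ht, i, hal, _, _⟩ := mem_nm hp
    refine (hal (σ w) ((lt_lev hK).1 ht) le_rfl).trans (Gdy.cp_mono (fun v hv => ?_) w)
    exact (GdyR.covL_iff (σ w) v).2 ⟨t, ht, i, hv⟩
  · rw [ind_not h, mul_zero]
    exact cp_nonneg _ _ _

/-- a named section contains points: the names are not empty -/
theorem nms_ne {s : ℕ} {w : Om} (h : nms P X H f kap lam K th x s w) : nm P X H f kap lam K th x s w ≠ [] := by
  obtain ⟨p, hp, _⟩ := h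
  intro h0
  rw [h0] at hp
  exact absurd hp List.not_mem_nil

/-- **the payment at a time after the covers**, point process `X` of what the sections see, nodes `nd` -/
theorem cov_u2 {α ω : Type*} {U : Om → α} {V : Om → ω} {ν : ℕ → Type*} {nd : ∀ t, Om → ν t} {A : ℕ → Om → Prop}
    {g : α → Om → ℝ} {M : ℕ} {y : Fin M → α}
    (fnd : Filt nd) (hX : ∀ s, Fac V (X s)) (hg : ∀ a, Fac V (g a)) {σ : Om → ℕ} (hσ : Stp nd σ)
    (hc : ∀ s (g : Om → ℝ), Fac V g → ∀ w, P.p w ≠ 0 → P.ce (X s) g w = P.ce (nd s) g w) (hK : 0 < K)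
    (k0 : 0 < kap) (t0 : 0 < th) (t1 : th ≤ 1)
    {E : ℕ → Om → Prop} (hE : ∀ s w, E s w → s ≤ σ w) :
    (1 - th) * P.Pr (fun w => ∃ s, E s w ∧ covL P X (GhoZ.sec U V A) g kap lam K y s w) ≤
      P.Pr (fun w => nms P nd (GhoZ.sec U V A) g kap lam K th y (σ w) w) := by
  refine le_trans (mul_le_mul_of_nonneg_left (P.Pr_mono fun w hw => ?_) (by linarith))
    (cov_u (P := P) (X := nd) (H := GhoZ.sec U V A) (f := g) (kap := kap) (lam := lam) (x := y) fnd hK k0 t0 hσ)
  rintro ⟨s, h1, h2⟩
  have h3 : covL P X (GhoZ.sec U V A) g kap lam K y (σ w) w := covL_mono (hE s w h1) h2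
  exact (covL_change (X := nd) (V := V) (Y := X) (fun s g hg w hw => (hc s g hg w hw).symm)
    hX (fun s a v w e => GhoZ.sec_fac s a v w e) hg (σ w) hw).2 h3

/-! ## normalisation of the unsigned test -/

variable {ι : Type*} {Z : Om → ι}

/-- one event -/
theorem ev_hone {B : Om → Prop} {c b δ : ℝ} (c0 : 0 ≤ c) {w : Om} (hw : P.p w ≠ 0)
    (hb : P.ce Z (fun v => ind (B v)) w ≤ b) (hδ : (Real.exp c - 1) * b ≤ δ) :
    P.ce Z (fun v => Real.exp (c * ind (B v) - δ)) w ≤ 1 := by
  have h1 := PayN.exp_ind_le (P := P) (Z := Z) (B := B) c0 hw hb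
  have h2 : P.ce Z (fun v => Real.exp (c * ind (B v) - δ)) w =
      Real.exp (-δ) * P.ce Z (fun v => Real.exp (c * ind (B v))) w := by
    rw [← P.ce_smul]
    refine P.ce_congr (fun v _ => ?_) w
    rw [← Real.exp_add]
    congr 1
    ring
  rw [h2]
  have h3 : P.ce Z (fun v => Real.exp (c * ind (B v))) w ≤ Real.exp δ := by
    have := Real.add_one_le_exp δ
    linarith
  have h4 := mul_le_mul_of_nonneg_left h3 (Real.exp_nonneg (-δ))
  rw [← Real.exp_add, neg_add_cancel, Real.exp_zero] at h4
  exact h4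

/-- class mass of a union -/
theorem inl_le {l : List ((ℕ × R) × Bool)} {w : Om} {q : ℝ}
    (hq : ∀ p ∈ l, P.ce Z (fun v => ind (H p.1.1 p.1.2 v)) w ≤ q) :
    P.ce Z (fun v => ind (inl H l v)) w ≤ l.length * q := by
  classical
  induction l with
  | nil =>
    rw [List.length_nil, Nat.cast_zero, zero_mul]
    refine le_of_eq ?_
    have e : (fun v => ind (inl H ([] : List ((ℕ × R) × Bool)) v)) = fun _ => (0 : ℝ) :=
      funext fun v => ind_not fun ⟨p, hp, _⟩ => absurd hp List.not_mem_nil
    rw [e]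
    unfold FP.ce
    simp [FP.E]
  | cons p l ih =>
    have h1 : P.ce Z (fun v => ind (inl H (p :: l) v)) w ≤
        P.ce Z (fun v => ind (H p.1.1 p.1.2 v)) w + P.ce Z (fun v => ind (inl H l v)) w := by
      rw [← P.ce_add]
      refine P.ce_mono (fun v _ => ?_) w
      by_cases h : H p.1.1 p.1.2 v
      · rw [ind_of (show inl H (p :: l) v from ⟨p, List.mem_cons_self, h⟩), ind_of h]
        have := ind_nonneg (inl H l v)
        linarith
      · by_cases h2 : inl H (p :: l) v
        · obtain ⟨r, hr, hh⟩ := h2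
          rcases List.mem_cons.1 hr with rfl | hr
          · exact absurd hh h
          · rw [ind_of (show inl H (p :: l) v from ⟨r, List.mem_cons_of_mem _ hr, hh⟩), ind_not h,
              ind_of (show inl H l v from ⟨r, hr, hh⟩), zero_add]
        · rw [ind_not h2]
          exact add_nonneg (ind_nonneg _) (ind_nonneg _)
    have h2 := ih fun r hr => hq r (List.mem_cons_of_mem _ hr)
    have h3 := hq p List.mem_cons_self
    rw [List.length_cons, Nat.cast_add, Nat.cast_one, add_mul, one_mul]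
    linarith

/-- **THE UNSIGNED TEST IS NORMALISED** -/
theorem un_hone {l : List ((ℕ × R) × Bool)} {w : Om} (hw : P.p w ≠ 0) {q c δ : ℝ} (c0 : 0 ≤ c)
    (hq : ∀ p ∈ l, P.ce Z (fun v => ind (H p.1.1 p.1.2 v)) w ≤ q) (hδ : (Real.exp c - 1) * (l.length * q) ≤ δ) :
    P.ce Z (fun v => Real.exp (c * ind (inl H l v) - δ)) w ≤ 1 :=
  ev_hone c0 hw (inl_le hq) hδ

/-- the number of the names: the condition of `un_hone` from `e ^ c q ≤ th kap δ` -/
theorem len_hone (hK : 0 < K) (k0 : 0 < kap) (t0 : 0 < th) {s : ℕ} {w : Om} (hw : P.p w ≠ 0) {q c δ : ℝ} (q0 : 0 ≤ q)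
    (hδ : Real.exp c * q ≤ th * kap * δ) :
    (Real.exp c - 1) * ((nm P X H f kap lam K th x s w).length * q) ≤ δ := by
  have h1 := len_le (P := P) (X := X) (H := H) (f := f) (kap := kap) (lam := lam) (x := x) hK k0.le t0.le s hw
  have h0 : 0 < th * kap := mul_pos t0 k0
  have h2 : 0 ≤ ((nm P X H f kap lam K th x s w).length : ℝ) := Nat.cast_nonneg _
  have h3 : (Real.exp c - 1) * ((nm P X H f kap lam K th x s w).length * q) ≤
      Real.exp c * q * (nm P X H f kap lam K th x s w).length := by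
    have := mul_nonneg h2 q0
    nlinarith
  have h4 := mul_le_mul_of_nonneg_right hδ h2
  have h5 : 0 ≤ δ := by
    have h6 : 0 ≤ Real.exp c * q := mul_nonneg (Real.exp_nonneg _) q0
    by_contra hcon
    have := mul_neg_of_pos_of_neg h0 (not_le.1 hcon)
    linarith
  have h6 := mul_le_mul_of_nonneg_right h1 h5
  linarith

/-! ## absorption -/

/-- **the price of the names is absorbed** : `A` = covered mass, `B` = named mass, `E` = names not empty,
`N c B ≤ G + r P (E)`, `r ≤ N c th kap / 4` -/
theorem absorb {A B E N c G r th kap : ℝ} (n0 : 0 ≤ N) (c0 : 0 ≤ c) (k0 : 0 < kap) (t0 : 0 < th) (t1 : th ≤ 1 / 4)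
    (A0 : 0 ≤ A) (r0 : 0 ≤ r) (h1 : (1 - th) * A ≤ B) (h2 : th * kap * E ≤ A) (h3 : N * (c * B) ≤ G + r * E)
    (hr : r ≤ N * c * (th * kap) / 4) : N * (c * A) ≤ 2 * G := by
  have h0 : 0 < th * kap := mul_pos t0 k0
  have nc : 0 ≤ N * c := mul_nonneg n0 c0
  -- `3 / 4 A ≤ B`
  have a1 : 3 / 4 * A ≤ B := by nlinarith
  have a2 : N * (c * (3 / 4 * A)) ≤ G + r * E := by
    refine le_trans ?_ h3
    have := mul_le_mul_of_nonneg_left a1 nc
    linarith
  -- `r E ≤ N c A / 4`
  have a3 : r * E ≤ N * c * A / 4 := by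
    by_cases hE : 0 ≤ E
    · have b1 := mul_le_mul_of_nonneg_right hr hE
      have b2 := mul_le_mul_of_nonneg_left h2 nc
      linarith
    · have b1 : r * E ≤ 0 := mul_nonpos_of_nonneg_of_nonpos r0 (not_le.1 hE).le
      have b2 := mul_nonneg nc A0
      linarith
  linarith

end names

end

end Pool.Agent.GMH.PayU
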