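import Pool.Agent.GMH.PayI
import Pool.Agent.GMH.PayU

/-!
# GMH/PayIU (helper83): UNSIGNED COVERS BY FOREIGN ROWS AND COLUMNS, EXACT VERTEX (rows D3 of H3.LEAN)

`pay_lives` of GMH/PayI with the weight `1`: the only input is that the class mass of a row at the tables of the start is at
most `q` (the sections may see the tested top).
* `dlF_u` : the decision list is at most the indicator of the union of the named sections;
* `hone_u` : `E exp (c0 dl | Z) ≤ exp (eps len)` if every named section has class mass `≤ q` and `e ^ c0 q ≤ eps`;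
* `pay_lives_u` : `c0 sum_r sum_x cvW ≤ 40 Lam + ..`; `pay_lives_half` : `c0 = log (1/q) / 2`, `eps = q ^ (1/2)`.
-/

set_option autoImplicit false
set_option linter.unusedSectionVars false

namespace Pool.Agent.GMH.PayIU

open Finset Pool.Agent.PWZ Pool.Agent.M3 Pool.Agent.GM Pool.Agent.GM.Harm Pool.Agent.GMH
open Pool.Agent.GMH.Gdy Pool.Agent.GMH.GdyN Pool.Agent.GMH.PayW Pool.Agent.GMH.PayS Pool.Agent.GMH.PayQ
open Pool.Agent.GMH.PayR Pool.Agent.GMH.PayC Pool.Agent.GMH.Dy Pool.Agent.GMH.TP Pool.Agent.GMH.PayI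
open Pool.Agent.GMH.GdyR (covL)

noncomputable section

section one

variable {Ω : Type*} [Fintype Ω] {P : FP Ω} {ι : Type*} {Z : Ω → ι} {M : ℕ} {Hp : Fin M → Ω → Prop}

/-- **an unsigned decision list is at most the indicator of the union of the named sections** -/
theorem dlF_u (c : List (Fin M × Bool)) (z : Ω) :
    dlF Hp (fun _ _ => 1) c z ≤ ind (∃ q ∈ c, Hp q.1 z) := by
  refine (PayN.dl_ind_le (H := fun (_ : ℕ) i => Hp i) _ z).trans (ind_mono ?_)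
  rintro ⟨p, hp, h⟩
  obtain ⟨q, hq, rfl⟩ := List.mem_map.1 hp
  exact ⟨q, hq, h⟩

/-- class mass of a union -/
theorem un_le {c : List (Fin M × Bool)} {w : Ω} {q : ℝ} (hq : ∀ p ∈ c, P.ce Z (fun v => ind (Hp p.1 v)) w ≤ q) :
    P.ce Z (fun v => ind (∃ p ∈ c, Hp p.1 v)) w ≤ c.length * q := by
  classical
  induction c with
  | nil =>
    rw [List.length_nil, Nat.cast_zero, zero_mul]
    refine le_of_eq ?_
    have e : (fun v => ind (∃ p ∈ ([] : List (Fin M × Bool)), Hp p.1 v)) = fun _ => (0 : ℝ) :=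
      funext fun v => ind_not fun ⟨p, hp, _⟩ => absurd hp List.not_mem_nil
    rw [e]
    unfold FP.ce
    simp [FP.E]
  | cons p c ih =>
    have h1 : P.ce Z (fun v => ind (∃ r ∈ p :: c, Hp r.1 v)) w ≤
        P.ce Z (fun v => ind (Hp p.1 v)) w + P.ce Z (fun v => ind (∃ r ∈ c, Hp r.1 v)) w := by
      rw [← P.ce_add]
      refine P.ce_mono (fun v _ => ?_) w
      by_cases h : Hp p.1 v
      · rw [ind_of (show ∃ r ∈ p :: c, Hp r.1 v from ⟨p, List.mem_cons_self, h⟩), ind_of h]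
        have := ind_nonneg (∃ r ∈ c, Hp r.1 v)
        linarith
      · by_cases h2 : ∃ r ∈ p :: c, Hp r.1 v
        · obtain ⟨r, hr, hh⟩ := h2
          rcases List.mem_cons.1 hr with rfl | hr
          · exact absurd hh h
          · rw [ind_of (show ∃ r ∈ p :: c, Hp r.1 v from ⟨r, List.mem_cons_of_mem _ hr, hh⟩), ind_not h,
              ind_of (show ∃ r ∈ c, Hp r.1 v from ⟨r, hr, hh⟩), zero_add]
        · rw [ind_not h2]
          exact add_nonneg (ind_nonneg _) (ind_nonneg _)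
    have h2 := ih fun r hr => hq r (List.mem_cons_of_mem _ hr)
    have h3 := hq p List.mem_cons_self
    rw [List.length_cons, Nat.cast_add, Nat.cast_one, add_mul, one_mul]
    linarith

/-- **THE UNSIGNED TEST IS NORMALISED** -/
theorem hone_u {c : List (Fin M × Bool)} {w : Ω} (hw : P.p w ≠ 0) {q c0 eps : ℝ} (q0 : 0 ≤ q) (c00 : 0 ≤ c0)
    (hq : ∀ p ∈ c, P.ce Z (fun v => ind (Hp p.1 v)) w ≤ q) (he : Real.exp c0 * q ≤ eps) :
    P.ce Z (fun v => Real.exp (c0 * dlF Hp (fun _ _ => 1) c v)) w ≤ Real.exp (eps * c.length) := by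
  have h1 : P.ce Z (fun v => Real.exp (c0 * dlF Hp (fun _ _ => 1) c v)) w ≤
      P.ce Z (fun v => Real.exp (c0 * ind (∃ p ∈ c, Hp p.1 v))) w :=
    P.ce_mono (fun v _ => Real.exp_le_exp.2 (mul_le_mul_of_nonneg_left (dlF_u c v) c00)) w
  have h2 := PayN.exp_ind_le (P := P) (Z := Z) (B := fun v => ∃ p ∈ c, Hp p.1 v) c00 hw (un_le hq)
  have h3 : (0 : ℝ) ≤ c.length := Nat.cast_nonneg _
  have h4 : (Real.exp c0 - 1) * (c.length * q) ≤ eps * c.length := by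
    have h5 := mul_le_mul_of_nonneg_right he h3
    have h6 := mul_nonneg h3 q0
    nlinarith
  have h5 := Real.add_one_le_exp (eps * c.length)
  linarith

end one

section run

variable {X β γ φ : Type} [Fintype X] [Fintype β] [Fintype φ] [Nonempty X] [Nonempty β]
variable {D : HD (Fin 3) X β γ φ} {al : ℝ} {h : D.Thick al}
variable {dg : ℕ → X → ℝ} {prr : ℕ → Fin 3 → φ → φ} {T : ℕ} {Lam : ℝ}
variable {v : ℕ → Finset (Fin 3) → X → (Fin 3 → β) → Pt (Fin 3) X β φ} {n N1 : ℝ}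
variable {W : Type} [Fintype W] {tb : Tab D prr T W}

/-- **UNSIGNED COVERS BY FOREIGN ROWS (COLUMNS), ALL LIVES OF THE EXACT VERTEX `j`, TESTED TOP `i`** -/
theorem pay_lives_u (H : D.Hyp dg prr al T Lam) (R : Run h (pr3 (Fin 3) n N1) (SS1 (Fin 3)) (AdmDep D) v) (hn : 1 ≤ n)
    (hN1 : 1 ≤ N1) {j i : Fin 3} (hji : j ≠ i) {en tl : ℕ → Om W X β → Prop} (hen : ∀ s, Fac (cn tb v j s) (en s))
    (htl : ∀ s, Fac (cn tb v j s) (tl s)) {M : ℕ} (hM : 1 ≤ M) {Rw : Type*} [Fintype Rw]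
    {Hs : ℕ → Rw → Om W X β → Prop} {Hp : ℕ → ℕ → Rw → Pt (Fin 3) X β φ → Prop}
    (hH : ∀ r e a, Fac (fun p => (FQ v (e / 5) i p, ZbQ D v e i p)) (Hp r e a))
    {g : ℕ → (Fin M → Rw) → Om W X β → ℝ} (hg : ∀ r x, Fac (cn tb v j r) (g r x)) (g0 : ∀ r x w, 0 ≤ g r x w)
    (g1 : ∀ r w, ∑ x, g r x w ≤ ind (en r w))
    (hHs : ∀ r < 5 * T, ∀ x w, tb.Ps.p w ≠ 0 → g r x w ≠ 0 → ∀ e, etl tl r w = e → ∀ k,
      (Hs r (x k) w ↔ Hp r e (x k) (tb.pt (e / 5) w)))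
    {c0 eps q : ℝ} (c00 : 0 ≤ c0) (q0 : 0 ≤ q) (he : Real.exp c0 * q ≤ eps)
    (hq : ∀ r < 5 * T, ∀ x w, tb.Ps.p w ≠ 0 → g r x w ≠ 0 → ∀ e, etl tl r w = e → ∀ k,
      (D.P h (e / 5)).ce (ZbQ D v e i) (fun u => ind (Hp r e (x k) u)) (tb.pt (e / 5) w) ≤ q)
    {kap th ep1 : ℝ} {K J : ℕ} (hK : 0 < K) (k0 : 0 < kap) (t0 : 0 < th) (e0 : 0 < ep1) (he1 : 4 * ep1 ≤ kap)
    (hth : 4 * th ≤ ep1) (hJ : 1 < th * kap * (J + 1)) {th1 : ℝ} (t1 : 0 < th1) (t1' : th1 ≤ 1)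
    (hA : 8 * A1 n eps th1 M ≤ n * c0 * kap) :
    c0 * ∑ r ∈ range (5 * T), ∑ x : Fin M → Rw, cvW tb.Ps (fun s => sgt D {j} (TP.nn s)) (fun _ => Hs r)
      (fun _ _ => 1) kap 1 K x r (g r x) (nx en (5 * T) r) ≤
      8 * (5 * Lam) + 16 * (J + 1) * Real.sqrt th1 / n * ∑ r ∈ range (5 * T), tb.Ps.Pr (en r) := by
  have hex : ∀ t (w : Om W X β), tb.Ps.p w ≠ 0 → t ≤ T → (D.P h t).p (tb.pt t w) ≠ 0 := by
    intro t w hw ht
    exact (pul_pt h tb ht).ne hw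
  have key := pay_lives (h := h) (tb := tb) (i := i) (j := j) (T := T) H R hn hN1 hji hen htl hM (Rw := Rw) (Hs := Hs)
    (fs := fun _ _ _ => 1) (Hp := Hp) (fp := fun _ _ _ _ => 1) hH (fun _ _ _ _ _ _ => rfl) hg g0 g1
    (fun r hr x w hw hg' e he' k => ⟨hHs r hr x w hw hg' e he' k, rfl⟩) (c0 := c0) (eps := eps) c00
    (le_trans (mul_nonneg (Real.exp_nonneg _) q0) he)
    (fun r hr x w hw hg' e he' c => hone_u (hex _ _ hw (by
      have h1 : e ∈ Er r := he' ▸ etl_Er r w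
      have h2 := Er_T h1 hr
      omega)) q0 c00 (fun p _ => hq r hr x w hw hg' e he' p.1) he)
    (kap := kap) (lam := 1) (th := th) (ep1 := ep1) (L := 1) (K := K) (J := J) hK k0 t0 zero_le_one zero_le_one
    (fun _ _ _ => le_rfl) (fun _ _ _ => by norm_num) e0 (by linarith) (by linarith) hJ t1 t1' (by
      rw [mul_one]
      exact hA)
  rw [mul_one] at key
  exact key

/-- `c0 = log (1/q) / 2` : `e ^ c0 q = q ^ (1/2)` -/
theorem half_exp {q : ℝ} (q0 : 0 < q) : Real.exp (Real.log (1 / q) / 2) * q = Real.sqrt q := by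
  have h1 : Real.exp (Real.log (1 / q) / 2) = Real.sqrt (1 / q) := by
    rw [Real.sqrt_eq_rpow, Real.rpow_def_of_pos (by positivity)]
    congr 1
    ring
  rw [h1, Real.sqrt_div zero_le_one, Real.sqrt_one]
  have h2 : 0 < Real.sqrt q := Real.sqrt_pos.2 q0
  have h3 := Real.mul_self_sqrt q0.le
  calc 1 / Real.sqrt q * q = 1 / Real.sqrt q * (Real.sqrt q * Real.sqrt q) := by rw [h3]
    _ = Real.sqrt q := by
      field_simp

/-- **THE SAME WITH `c0 = log (1/q) / 2`** -/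
theorem pay_lives_half (H : D.Hyp dg prr al T Lam) (R : Run h (pr3 (Fin 3) n N1) (SS1 (Fin 3)) (AdmDep D) v)
    (hn : 1 ≤ n) (hN1 : 1 ≤ N1) {j i : Fin 3} (hji : j ≠ i) {en tl : ℕ → Om W X β → Prop}
    (hen : ∀ s, Fac (cn tb v j s) (en s)) (htl : ∀ s, Fac (cn tb v j s) (tl s)) {M : ℕ} (hM : 1 ≤ M) {Rw : Type*}
    [Fintype Rw] {Hs : ℕ → Rw → Om W X β → Prop} {Hp : ℕ → ℕ → Rw → Pt (Fin 3) X β φ → Prop}
    (hH : ∀ r e a, Fac (fun p => (FQ v (e / 5) i p, ZbQ D v e i p)) (Hp r e a))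
    {g : ℕ → (Fin M → Rw) → Om W X β → ℝ} (hg : ∀ r x, Fac (cn tb v j r) (g r x)) (g0 : ∀ r x w, 0 ≤ g r x w)
    (g1 : ∀ r w, ∑ x, g r x w ≤ ind (en r w))
    (hHs : ∀ r < 5 * T, ∀ x w, tb.Ps.p w ≠ 0 → g r x w ≠ 0 → ∀ e, etl tl r w = e → ∀ k,
      (Hs r (x k) w ↔ Hp r e (x k) (tb.pt (e / 5) w)))
    {q : ℝ} (q0 : 0 < q) (q1 : q ≤ 1)
    (hq : ∀ r < 5 * T, ∀ x w, tb.Ps.p w ≠ 0 → g r x w ≠ 0 → ∀ e, etl tl r w = e → ∀ k,
      (D.P h (e / 5)).ce (ZbQ D v e i) (fun u => ind (Hp r e (x k) u)) (tb.pt (e / 5) w) ≤ q)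
    {kap th ep1 : ℝ} {K J : ℕ} (hK : 0 < K) (k0 : 0 < kap) (t0 : 0 < th) (e0 : 0 < ep1) (he1 : 4 * ep1 ≤ kap)
    (hth : 4 * th ≤ ep1) (hJ : 1 < th * kap * (J + 1)) {th1 : ℝ} (t1 : 0 < th1) (t1' : th1 ≤ 1)
    (hA : 16 * A1 n (Real.sqrt q) th1 M ≤ n * Real.log (1 / q) * kap) :
    Real.log (1 / q) * ∑ r ∈ range (5 * T), ∑ x : Fin M → Rw, cvW tb.Ps (fun s => sgt D {j} (TP.nn s))
      (fun _ => Hs r) (fun _ _ => 1) kap 1 K x r (g r x) (nx en (5 * T) r) ≤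
      2 * (8 * (5 * Lam) + 16 * (J + 1) * Real.sqrt th1 / n * ∑ r ∈ range (5 * T), tb.Ps.Pr (en r)) := by
  have l0 : 0 ≤ Real.log (1 / q) := Real.log_nonneg (by
    rw [le_div_iff₀ q0]
    linarith)
  have key := pay_lives_u (h := h) (tb := tb) (i := i) (j := j) H R hn hN1 hji hen htl hM hH hg g0 g1 hHs
    (c0 := Real.log (1 / q) / 2) (eps := Real.sqrt q) (by linarith) q0.le (half_exp q0).le hq hK k0 t0 e0 he1 hth hJ t1
    t1' (by linarith)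
  linarith

end run

end

end Pool.Agent.GMH.PayIU
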