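import Pool.Agent.GMH.PayG
import Pool.Agent.GMH.PayIU

/-!
# GMH/PayGU (helper15): FOREIGN ROWS AT THE EXACT VERTEX, UNSIGNED (kinds `H_v`, HOT; foreign rows and columns with test 1)

* `OneM h v kv e c d q` : given all thin letters and the top of the row, the mass of the relation for the own law of the tested
  top is at most `q`;
* `row_mass` : then every foreign row has class mass at most `q`;
* `pay_foreign_u` : `GMH/PayIU.pay_lives_u` for the covers of `GMH/GhoL` with test 1, `lam = 1`.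
-/

set_option autoImplicit false
set_option linter.unusedSectionVars false

namespace Pool.Agent.GMH.PayG

open Finset Pool.Agent.PWZ Pool.Agent.M3 Pool.Agent.GM Pool.Agent.GM.Harm Pool.Agent.GMH
open Pool.Agent.GMH.Gdy Pool.Agent.GMH.GdyN Pool.Agent.GMH.PayW Pool.Agent.GMH.PayQ Pool.Agent.GMH.PayI
open Pool.Agent.GMH.Dy Pool.Agent.GMH.TP Pool.Agent.GMH.V3 Pool.Agent.GMH.V3.TG
open Pool.Agent.GMH.GhoL (CvH qH qH_nn qH_one)
open Pool.Agent.GMH.TabF (si WE)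

noncomputable section

section one

variable {X β γ φ : Type} [Fintype X] [Fintype β] [Fintype φ] [Nonempty X] [Nonempty β]
variable {D : HD (Fin 3) X β γ φ} {al : ℝ} {h : D.Thick al}
variable {dg : ℕ → X → ℝ} {prr : ℕ → Fin 3 → φ → φ} {T : ℕ} {Lam : ℝ}
variable {v : ℕ → Finset (Fin 3) → X → (Fin 3 → β) → Pt (Fin 3) X β φ} {n N1 : ℝ}
variable {b c d : Fin 3} {e : ℕ} {yc : β} {p : Pt (Fin 3) X β φ} {q : ℝ} {kv : Pt (Fin 3) X β φ → Prop}

variable (h v) in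
/-- **RARE ROWS** : given all thin letters and the top of the row, own-law mass of the tested top at most `q` -/
def OneM (kv : Pt (Fin 3) X β φ → Prop) (e : ℕ) (c d : Fin 3) (q : ℝ) : Prop :=
  ∀ p1, (D.P h (e / 5)).p p1 ≠ 0 →
    (D.P h (e / 5)).ce (ZbQ D v e c) (fun u => ind (∃ p2, (D.P h (e / 5)).p p2 ≠ 0 ∧ XZ D v e d p2 = XZ D v e d p1 ∧
      FQ v (e / 5) c p2 = FQ v (e / 5) c u ∧ kv p2)) p1 ≤ q

/-- **one row** -/
theorem row_mass (H : D.Hyp dg prr al T Lam) (R : Run h (pr3 (Fin 3) n N1) (SS1 (Fin 3)) (AdmDep D) v) (hn : 1 ≤ n)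
    (hN1 : 1 ≤ N1) (ht : e / 5 ≤ T) (hbc : b ≠ c) (hbd : b ≠ d) (hcd : c ≠ d) (q0 : 0 ≤ q)
    (hk : OneM h v kv e c d q) {rf : Pt (Fin 3) X β φ → X × φ} (hr : Fac (ZbQ D v e c) rf)
    (hp : (D.P h (e / 5)).p p ≠ 0) :
    (D.P h (e / 5)).ce (ZbQ D v e c) (fun u => ind (Hf h v kv e c d yc (rf u) u)) p ≤ q := by
  set P := D.P h (e / 5) with hP
  by_cases hex : ∃ u, P.p u ≠ 0 ∧ ZbQ D v e c u = ZbQ D v e c p ∧ Hf h v kv e c d yc (rf u) u
  · obtain ⟨q0, hq0, hz0, p1, hm1, hkv1⟩ := hex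
    have hrho : ∀ u, ZbQ D v e c u = ZbQ D v e c p → rf u = rf q0 := fun u hz => hr u q0 (hz.trans hz0.symm)
    have hz1 : ZbQ D v e c p1 = ZbQ D v e c p := hm1.2.2.1.trans hz0
    refine (ce_le_on (g := fun u => ind (∃ p2, P.p p2 ≠ 0 ∧ XZ D v e d p2 = XZ D v e d p1 ∧
      FQ v (e / 5) c p2 = FQ v (e / 5) c u ∧ kv p2)) fun u hu hz => ind_mono ?_).trans ?_
    · rintro ⟨p2, hm2, hk2⟩
      refine ⟨p2, hm2.1, ?_, hm2.2.2.2.1, hk2⟩
      rw [hrho u hz] at hm2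
      exact mt_det H R hn hN1 ht hbc hbd hcd hm2 hm1 (hz.trans hz0.symm)
    · rw [P.ce_fac (ZbQ D v e c) (fun u => ind (∃ p2, P.p p2 ≠ 0 ∧ XZ D v e d p2 = XZ D v e d p1 ∧
        FQ v (e / 5) c p2 = FQ v (e / 5) c u ∧ kv p2)) p p1 hz1.symm]
      exact hk p1 hm1.1
  · rw [show P.ce (ZbQ D v e c) (fun u => ind (Hf h v kv e c d yc (rf u) u)) p = P.ce (ZbQ D v e c) (fun _ => 0) p from
      ce_congr_on fun u hu hz => ind_not fun hh => hex ⟨u, hu, hz, hh⟩, P.ce_const _ _ hp]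
    exact q0

/-- a relation of the thin letters and of the top of the row is not rare; rare = never -/
theorem OneM_mono {q' : ℝ} (hk : OneM h v kv e c d q) (hq : q ≤ q') : OneM h v kv e c d q' :=
  fun p1 h1 => (hk p1 h1).trans hq

end one

section fin

variable {X β γ φ : Type} [Fintype X] [Fintype β] [Fintype φ] [Nonempty X] [Nonempty β]
variable {D : HD (Fin 3) X β γ φ} {al : ℝ} {h : D.Thick al}
variable {dg : ℕ → X → ℝ} {prr : ℕ → Fin 3 → φ → φ} {T : ℕ} {Lam : ℝ} {W : Type} [Fintype W] {tb : Tab D prr T W}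
variable {v : ℕ → Finset (Fin 3) → X → (Fin 3 → β) → Pt (Fin 3) X β φ} {n N1 : ℝ}
variable {b c d : Fin 3}

/-- **FOREIGN ROWS AT THE EXACT VERTEX `b`, TEST 1: THE COVERED MASS OF ALL LIVES**, in the form of `GMH/GhoL` -/
theorem pay_foreign_u (H : D.Hyp dg prr al T Lam) (R : Run h (pr3 (Fin 3) n N1) (SS1 (Fin 3)) (AdmDep D) v) (hn : 1 ≤ n)
    (hN1 : 1 ≤ N1) (hbc : b ≠ c) (hbd : b ≠ d) (hcd : c ≠ d) {en tl : ℕ → Om W X β → Prop}
    (hen : ∀ s, Fac (cn tb v b s) (en s)) (htl : ∀ s, Fac (cn tb v b s) (tl s)) (ht0 : ∀ r w, tl r w → r % 5 ≠ 0)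
    {kv : ℕ → Pt (Fin 3) X β φ → Prop} {q : ℝ} (q0 : 0 ≤ q) (hk : ∀ e, e / 5 ≤ T → OneM h v (kv e) e c d q)
    {c0 eps : ℝ} (c00 : 0 ≤ c0) (he : Real.exp c0 * q ≤ eps) {Xi : Type} [Fintype Xi]
    (rwf : ℕ → (γ × (Fin 3 → γ)) → β → (β × W) → Xi → X × φ) (Qc : ℕ → Om W X β → FP Xi)
    (hQ : ∀ r t, Fac (cn tb v b r) (fun z => (Qc r z).p t)) {M : ℕ} (hM : 1 ≤ M)
    {kap th ep1 : ℝ} {K J : ℕ} (hK : 0 < K) (k0 : 0 < kap) (t0 : 0 < th) (e0 : 0 < ep1)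
    (he1 : 4 * ep1 ≤ kap) (hth : 4 * th ≤ ep1) (hJ : 1 < th * kap * (J + 1))
    {th1 : ℝ} (t1 : 0 < th1) (t1' : th1 ≤ 1) (hA : 8 * A1 n eps th1 M ≤ n * c0 * kap) :
    c0 * ∑ r ∈ range (5 * T), ∑ x : Fin M → (β × W) × Xi, tb.Ps.E (fun z => ind (en r z) *
      sw (qH (WE tb {b} (TP.nn r) z) (Qc r z) (Cx c d)) x * (WE tb {b} (TP.nn r) z).Pr (fun w =>
        CvH (WE tb {b} (TP.nn r) z) (fun s => si D {b} {d} ∅ (TP.nn s)) (Bx b) (Cx d c)
          (Gr h tb v (kv (etl tl r z)) (etl tl r z) b c d) (fun _ _ _ _ => 1)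
          (fun B C t => rwf (etl tl r z) (ndO D (TP.nn r) z) B.2 C t) 1 kap K x (nx en (5 * T) r w) w)) ≤
      8 * (5 * Lam) + 16 * (J + 1) * Real.sqrt th1 / n * ∑ r ∈ range (5 * T), tb.Ps.Pr (en r) := by
  classical
  have hv := R.codes
  have key := PayIU.pay_lives_u (h := h) (tb := tb) H R hn hN1 hbc hen htl hM (Rw := (β × W) × Xi)
    (Hs := hsL h tb v b c d kv tl rwf)
    (Hp := fun _ e a p => Hf h v (kv e) e c d a.1.1 (rwf e (nd D (TP.nn e) p) (p.2.1 b) a.1 a.2) p)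
    (fun _ e a => Hf_fac (rk_fac hbc e a)) (g := gL tb b c d Qc en)
    (gL_fac hbc hbd hcd hQ hen) (fun r x w => gL_nn en r x w) (fun r w => gL_sum en r w)
    (fun r hr x w hw hgw e he k => (hs_iff (F := fun _ _ _ _ => 1) hv hbc hbd hcd ht0 (fun _ _ _ _ _ _ => rfl)
      (gL_cell hgw k) he).1) (c0 := c0) (eps := eps) (q := q) c00 q0 he
    (fun r hr x w hw hgw e he k => by
      have heT : e / 5 ≤ T := he ▸ etl_T hr w
      exact row_mass H R hn hN1 heT hbc hbd hcd q0 (hk e heT) (rk_fac hbc e (x k)) ((pul_pt h tb heT).ne hw))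
    hK k0 t0 e0 he1 hth hJ t1 t1' hA
  refine le_trans (mul_le_mul_of_nonneg_left (le_of_eq ?_) c00) key
  refine Finset.sum_congr rfl fun r hr => Finset.sum_congr rfl fun x _ => ?_
  unfold cvW
  refine tb.Ps.E_congr fun z hz => ?_
  congr 1
  exact brg (F := fun _ _ _ _ => 1) hv htl r x z (nx en (5 * T) r)

end fin

end

end Pool.Agent.GMH.PayG
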