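import Pool.Agent.GMH.TabP2
import Pool.Agent.GMH.GhoZ3

/-!
# GMH/TabF (helper85): INSTANCES OF THE ABSTRACT MODULES ON THE SPACE WITH TABLES, fixed `a`

* `Ind.cond` : independent coordinates stay independent given a sight; `Wo P n C r` = WORLD: independent coordinates, the level
  `r` is known; `Wo.indep`, `Wo.ci`, `Wo.ce_min` : independence, conditional independence, forgetting in a world, by levels;
* `si E F S m` = sight: hidden point, exact points of `E`, cells of the time `m` of the points of `F`, tables `S`;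
  `WE E n z` = law given hidden point, exact points of `E`, cells of the time `n` as at `z` (`Wl_eq : Wl = WE ∅`);
* `wo_WE`, `wo_Wl`, `si_indep`, `si_ci`, `si_ce` (forgetting), `si_fac`, `WE_ce`, `WE_avg`, `WE_half` (masses, factor 8);
* `pj w0 G S` = the points `G` and the tables `S` of `w` (rest from `w0`), `mx G S a v` = the same part of `a`, rest of `v`;
  `ts G S g a v` = the test `g` with the part `a` : `ts_own`, `ts_fac`;
* `face` : `GhoZ3.Face` for any splitting of the points and tables, times `tm s`; `face_ch` : the hypothesis `hch` of the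
  payments; `sgt_ci'` : conditional independence of sights with tables given the node.
-/

set_option autoImplicit false
set_option linter.unusedSectionVars false

namespace Pool.Agent.GMH.TabF

open Finset Pool.Agent.PWZ Pool.Agent.M3 Pool.Agent.GM Pool.Agent.GM.Harm Pool.Agent.GMH
open Pool.Agent.GMH.Gdy Pool.Agent.GMH.Dy
open Pool.Agent.GMH.Crd (Ind Rel Sg rel_top rel_zero rel_succ can sg_can)

noncomputable section

/-! ## worlds -/

section wo

variable {Om : Type*} [Fintype Om] {P : FP Om} {ι : Type*} [Fintype ι] {E : ι → Type*} {ν : ι → ℕ → Type*}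
  {n : ∀ i s, E i → ν i s} {C : ∀ i, Om → E i} {α κ κ' : Type*} {A : Om → α} {X : Om → κ} {Y : Om → κ'}
  {p q r s : ι → ℕ∞}

theorem ind_forall {a : ι → Prop} : ind (∀ i, a i) = ∏ i, ind (a i) := by
  classical
  by_cases hp : ∀ i, a i
  · rw [ind_of hp]
    exact (Finset.prod_eq_one fun j _ => ind_of (hp j)).symm
  · rw [ind_not hp]
    push Not at hp
    obtain ⟨j, hj⟩ := hp
    exact (Finset.prod_eq_zero (Finset.mem_univ j) (ind_not hj)).symm

/-- independent coordinates, given an event which is a product of events of the coordinates -/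
theorem ind_cond (h : Ind P C) {B : Om → Prop} {a : ∀ i, E i → ℝ} (hB : ∀ w, ind (B w) = ∏ i, a i (C i w))
    (h0 : P.Pr B ≠ 0) : Ind (P.cond B) C := by
  classical
  have e0 : P.Pr B = ∏ i, P.E (fun w => a i (C i w)) := by
    unfold FP.Pr
    rw [← h a]
    exact P.E_congr fun w _ => hB w
  have n0 : ∀ i, P.E (fun w => a i (C i w)) ≠ 0 := fun i hi => h0 (by
    rw [e0]
    exact Finset.prod_eq_zero (Finset.mem_univ i) hi)
  have e1 : ∀ f : ∀ i, E i → ℝ, (P.cond B).E (fun w => ∏ i, f i (C i w)) =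
      ∏ i, (P.E (fun w => a i (C i w) * f i (C i w)) / P.E (fun w => a i (C i w))) := by
    intro f
    rw [FP.cond_E h0, e0, Finset.prod_div_distrib, ← h fun i x => a i x * f i x]
    congr 1
    refine P.E_congr fun w _ => ?_
    rw [hB w, Finset.prod_mul_distrib]
  have e2 : ∀ (f : ∀ i, E i → ℝ) (i : ι), (P.cond B).E (fun w => f i (C i w)) =
      P.E (fun w => a i (C i w) * f i (C i w)) / P.E (fun w => a i (C i w)) := by
    intro f i
    have h1 := e1 fun j x => if j = i then f j x else 1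
    have h2 : (fun w => ∏ j, (if j = i then f j (C j w) else 1)) = fun w => f i (C i w) := by
      funext w
      rw [Finset.prod_ite_eq' univ i, if_pos (mem_univ i)]
    rw [h2] at h1
    rw [h1, Finset.prod_eq_single i]
    · rw [show (fun w => a i (C i w) * (if i = i then f i (C i w) else 1)) = fun w => a i (C i w) * f i (C i w) from
        funext fun w => by rw [if_pos rfl]]
    · intro j _ hj
      rw [show (fun w => a j (C j w) * (if j = i then f j (C j w) else 1)) = fun w => a j (C j w) from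
        funext fun w => by rw [if_neg hj, mul_one]]
      exact div_self (n0 j)
    · intro hi
      exact absurd (mem_univ i) hi
  intro f
  rw [e1 f]
  exact Finset.prod_congr rfl fun i _ => (e2 f i).symm

theorem rel_max {i : ι} {m m' : ℕ∞} {x y : E i} : Rel n i (max m m') x y ↔ Rel n i m x y ∧ Rel n i m' x y := by
  constructor
  · intro h
    exact ⟨h.mono (le_max_left _ _), h.mono (le_max_right _ _)⟩
  · rintro ⟨h1, h2⟩
    rcases le_total m m' with h | h
    · rwa [max_eq_right h]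
    · rwa [max_eq_left h]

/-- pairs of sights -/
theorem sg_pair (hX : Sg n C p X) (hY : Sg n C q Y) : Sg n C (fun i => max (p i) (q i)) (fun w => (X w, Y w)) := by
  intro v w
  rw [Prod.mk.injEq, hX v w, hY v w]
  simp only [rel_max]
  exact ⟨fun h i => ⟨h.1 i, h.2 i⟩, fun h => ⟨fun i => (h i).1, fun i => (h i).2⟩⟩

/-- conditional means depend only on the classes of the support -/
theorem ce_supp (h : ∀ v w, P.p v ≠ 0 → P.p w ≠ 0 → (A v = A w ↔ X v = X w)) (f : Om → ℝ) {w : Om}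
    (hw : P.p w ≠ 0) : P.ce A f w = P.ce X f w := by
  unfold FP.ce FP.m
  rw [P.E_congr (f := fun v => ind (A v = A w) * f v) (g := fun v => ind (X v = X w) * f v) fun v hv => by
    rw [show (A v = A w) = (X v = X w) from propext (h v w hv hw)],
    P.E_congr (f := fun v => ind (A v = A w)) (g := fun v => ind (X v = X w)) fun v hv => by
    rw [show (A v = A w) = (X v = X w) from propext (h v w hv hw)]]

variable (P n C r) in
/-- **A WORLD** : independent coordinates, the level `r` is known -/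
structure Wo : Prop where
  ic : Ind P C
  kn : ∀ v w, P.p v ≠ 0 → P.p w ≠ 0 → ∀ i, Rel n i (r i) (C i v) (C i w)

/-- the law given a sight is a world -/
theorem wo_cond (h : Ind P C) (hA : Sg n C r A) {z : Om} (h0 : P.Pr (fun w => A w = A z) ≠ 0) :
    Wo (P.cond fun w => A w = A z) n C r := by
  refine ⟨ind_cond h (a := fun i x => ind (Rel n i (r i) x (C i z))) (fun w => ?_) h0, fun v w hv hw i => ?_⟩
  · rw [show (A w = A z) = _ from propext (hA w z), ind_forall]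
  · rw [FP.cond_p_ne h0] at hv hw
    exact ((hA v z).1 hv.1 i).trans ((hA w z).1 hw.1 i).symm

theorem wo_top (h : Ind P C) : Wo P n C (fun _ => 0) := ⟨h, fun _ _ _ _ _ => rel_zero⟩

theorem Wo.mono (h : Wo P n C r) (hs : ∀ i, s i ≤ r i) : Wo P n C s :=
  ⟨h.ic, fun v w hv hw i => (h.kn v w hv hw i).mono (hs i)⟩

/-- **CONDITIONAL INDEPENDENCE IN A WORLD** -/
theorem Wo.ci (h : Wo P n C r) (hX : Sg n C p X) (hY : Sg n C q Y) (hA : Sg n C s A) (h1 : ∀ i, s i ≤ p i)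
    (h2 : ∀ i, s i ≤ q i) (h3 : ∀ i, min (p i) (q i) ≤ max (s i) (r i)) : P.CI A X Y := by
  have hc := Crd.ci h.ic hX hY (sg_can (n := n) (C := C) fun i => min (p i) (q i)) fun _ => rfl
  have key : ∀ v w, P.p v ≠ 0 → P.p w ≠ 0 → (A v = A w ↔ can n C (fun i => min (p i) (q i)) v =
      can n C (fun i => min (p i) (q i)) w) := by
    intro v w hv hw
    constructor
    · intro e
      refine (sg_can _ v w).2 fun i => (rel_max.2 ⟨(hA v w).1 e i, h.kn v w hv hw i⟩).mono (h3 i)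
    · intro e
      exact (sg_can _).fac hA (fun i => le_min (h1 i) (h2 i)) v w e
  intro f g hf hg w hw
  rw [ce_supp key _ hw, ce_supp key _ hw, ce_supp key _ hw]
  exact hc f g hf hg w hw

/-- forgetting in a world -/
theorem Wo.ce_min (h : Wo P n C r) (hX : Sg n C p X) (hY : Sg n C q Y) (hA : Sg n C s A) (h1 : ∀ i, s i ≤ p i)
    (h2 : ∀ i, s i ≤ q i) (h3 : ∀ i, min (p i) (q i) ≤ max (s i) (r i)) {g : Om → ℝ} (hg : Fac Y g) {w : Om}
    (hw : P.p w ≠ 0) : P.ce X g w = P.ce A g w :=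
  Crd.ce_ci (h.ci hX hY hA h1 h2 h3) (hX.fac hA h1) hg hw

/-- **INDEPENDENCE IN A WORLD** : the common part is known -/
theorem Wo.indep (h : Wo P n C r) (hX : Sg n C p X) (hY : Sg n C q Y) (h3 : ∀ i, min (p i) (q i) ≤ r i) :
    P.Indep X Y := by
  have hA : Sg n C (fun _ => 0) (fun _ : Om => ()) := fun v w => ⟨fun _ i => rel_zero, fun _ => rfl⟩
  have hc := h.ci hX hY hA (fun i => by simp) (fun i => by simp) fun i => (h3 i).trans (le_max_right _ _)
  intro f g hf hg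
  have e : ∀ (k : Om → ℝ) (w : Om), P.ce (fun _ : Om => ()) k w = P.E k := fun k w => by
    unfold FP.ce FP.m
    rw [show (fun v : Om => ind ((fun _ : Om => ()) v = (fun _ : Om => ()) w) * k v) = k from funext fun v => by
      rw [ind_of rfl, one_mul], show (fun v : Om => ind ((fun _ : Om => ()) v = (fun _ : Om => ()) w)) = fun _ => 1 from
      funext fun v => ind_of rfl, P.E_const, div_one]
  rw [hc.E2 hf hg]
  simp only [e]
  rw [P.E_const]

end wo

/-! ## sights of the space with tables -/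

section si

variable {X β γ φ : Type} [Fintype X] [Fintype β] [Fintype φ] [Nonempty X] [Nonempty β]
variable {D : HD (Fin 3) X β γ φ} {al : ℝ} {prr : ℕ → Fin 3 → φ → φ} {T : ℕ} {W : Type} [Fintype W]
variable (tb : Tab D prr T W)

/-- exact on `E`, cells of the time `m` on `F`, nothing outside -/
def eP (E F : Finset (Fin 3)) (m : ℕ) (j : Fin 3) : ℕ∞ := if j ∈ E then ⊤ else if j ∈ F then ((m + 1 : ℕ) : ℕ∞) else 0

theorem eP_le {E F E' F' : Finset (Fin 3)} {m m' : ℕ} (h1 : E' ⊆ E) (h2 : ∀ j ∈ F', j ∈ E ∨ (j ∈ F ∧ m' ≤ m))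
    (j : Fin 3) : eP E' F' m' j ≤ eP E F m j := by
  unfold eP
  by_cases a : j ∈ E
  · rw [if_pos a]
    exact le_top
  · rw [if_neg a, if_neg fun h => a (h1 h)]
    by_cases b : j ∈ F'
    · rcases h2 j b with h3 | h3
      · exact absurd h3 a
      · rw [if_pos b, if_pos h3.1]
        exact_mod_cast Nat.succ_le_succ h3.2
    · rw [if_neg b]
      simp

theorem eP_min {E F E' F' E1 F1 E0 : Finset (Fin 3)} {m m' m1 n : ℕ} (h1 : E ∩ E' ⊆ E1 ∪ E0)
    (h2 : ∀ j ∈ E, j ∈ F' → j ∈ E1 ∪ E0 ∨ (j ∈ F1 ∧ m' ≤ m1) ∨ m' ≤ n)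
    (h3 : ∀ j ∈ E', j ∈ F → j ∈ E1 ∪ E0 ∨ (j ∈ F1 ∧ m ≤ m1) ∨ m ≤ n)
    (h4 : ∀ j ∈ F, j ∈ F' → j ∈ E1 ∪ E0 ∨ (j ∈ F1 ∧ min m m' ≤ m1) ∨ min m m' ≤ n) (j : Fin 3) :
    min (eP E F m j) (eP E' F' m' j) ≤ max (eP E1 F1 m1 j) (eP E0 univ n j) := by
  by_cases a : j ∈ E1 ∪ E0
  · have : max (eP E1 F1 m1 j) (eP E0 univ n j) = ⊤ := by
      unfold eP
      rcases Finset.mem_union.1 a with a | a
      · rw [if_pos a, top_sup_eq]
      · rw [if_pos a, sup_top_eq]
    rw [this]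
    exact le_top
  have b1 : j ∉ E1 := fun h => a (Finset.mem_union_left _ h)
  have b0 : j ∉ E0 := fun h => a (Finset.mem_union_right _ h)
  have key : ∀ k : ℕ, ((j ∈ F1 ∧ k ≤ m1) ∨ k ≤ n) → ((k + 1 : ℕ) : ℕ∞) ≤ max (eP E1 F1 m1 j) (eP E0 univ n j) := by
    rintro k (⟨h5, h6⟩ | h6)
    · refine le_trans ?_ (le_max_left _ _)
      unfold eP
      rw [if_neg b1, if_pos h5]
      exact_mod_cast Nat.succ_le_succ h6
    · refine le_trans ?_ (le_max_right _ _)
      unfold eP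
      rw [if_neg b0, if_pos (mem_univ j)]
      exact_mod_cast Nat.succ_le_succ h6
  by_cases c : j ∈ E
  · by_cases c' : j ∈ E'
    · exact absurd (h1 (Finset.mem_inter.2 ⟨c, c'⟩)) a
    · by_cases d' : j ∈ F'
      · have e : eP E' F' m' j = ((m' + 1 : ℕ) : ℕ∞) := by unfold eP; rw [if_neg c', if_pos d']
        refine (min_le_right _ _).trans (e.le.trans (key m' ?_))
        rcases h2 j c d' with h | h | h
        · exact absurd h a
        · exact Or.inl h
        · exact Or.inr h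
      · have e : eP E' F' m' j = 0 := by unfold eP; rw [if_neg c', if_neg d']
        refine (min_le_right _ _).trans (e.le.trans (by simp))
  · by_cases d : j ∈ F
    · by_cases c' : j ∈ E'
      · have e : eP E F m j = ((m + 1 : ℕ) : ℕ∞) := by unfold eP; rw [if_neg c, if_pos d]
        refine (min_le_left _ _).trans (e.le.trans (key m ?_))
        rcases h3 j c' d with h | h | h
        · exact absurd h a
        · exact Or.inl h
        · exact Or.inr h
      · by_cases d' : j ∈ F'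
        · have e1 : eP E F m j = ((m + 1 : ℕ) : ℕ∞) := by unfold eP; rw [if_neg c, if_pos d]
          have e2 : eP E' F' m' j = ((m' + 1 : ℕ) : ℕ∞) := by unfold eP; rw [if_neg c', if_pos d']
          have e3 : min (eP E F m j) (eP E' F' m' j) = ((min m m' + 1 : ℕ) : ℕ∞) := by
            rw [e1, e2]
            rcases le_total m m' with h | h
            · rw [min_eq_left h, min_eq_left (by exact_mod_cast Nat.succ_le_succ h)]
            · rw [min_eq_right h, min_eq_right (by exact_mod_cast Nat.succ_le_succ h)]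
          rw [e3]
          refine key _ ?_
          rcases h4 j d d' with h | h | h
          · exact absurd h a
          · exact Or.inl h
          · exact Or.inr h
        · have e : eP E' F' m' j = 0 := by unfold eP; rw [if_neg c', if_neg d']
          refine (min_le_right _ _).trans (e.le.trans (by simp))
    · have e : eP E F m j = 0 := by unfold eP; rw [if_neg c, if_neg d]
      refine (min_le_left _ _).trans (e.le.trans (by simp))

theorem eP_univ (E : Finset (Fin 3)) (n : ℕ) : eP E univ n = eC E fun _ => n := by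
  funext j
  unfold eP eC
  by_cases h : j ∈ E
  · rw [if_pos h, if_pos h]
  · rw [if_neg h, if_neg h, if_pos (mem_univ j)]

theorem eP_emp (E : Finset (Fin 3)) (m : ℕ) : eP E ∅ m = eS E := by
  funext j
  unfold eP eS
  by_cases h : j ∈ E
  · rw [if_pos h, if_pos h]
  · rw [if_neg h, if_neg h, if_neg (Finset.notMem_empty j)]

theorem rp_eP {E F : Finset (Fin 3)} {m : ℕ} {j : Fin 3} {a b : β} :
    Rp D (eP E F m j) a b ↔ (j ∈ E → a = b) ∧ (j ∈ F → D.qb m a = D.qb m b) := by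
  unfold eP
  by_cases hj : j ∈ E
  · rw [if_pos hj]
    exact ⟨fun hr => ⟨fun _ => hr.1 rfl, fun _ => by rw [hr.1 rfl]⟩, fun hr => by
      rw [hr.1 hj]; exact ⟨fun _ => rfl, fun _ _ => rfl⟩⟩
  · rw [if_neg hj]
    by_cases hF : j ∈ F
    · rw [if_pos hF]
      constructor
      · intro hr
        exact ⟨fun hh => absurd hh hj, fun _ => hr.2 m (by exact_mod_cast Nat.lt_succ_self _)⟩
      · intro hr
        refine ⟨fun hh => absurd hh (ENat.natCast_ne_top _), fun s hs => ?_⟩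
        have hs' : s < m + 1 := by exact_mod_cast hs
        exact qb_le (D := D) (show s ≤ m by omega) (hr.2 hF)
    · rw [if_neg hF]
      exact ⟨fun _ => ⟨fun hh => absurd hh hj, fun hh => absurd hh hF⟩, fun _ =>
        ⟨fun hh => absurd hh (by simp), fun s hs => absurd hs (by simp)⟩⟩

variable (D) in
/-- the sight: hidden point, tables `S`, exact points of `E`, cells of the time `m` of the points of `F` -/
def si (E F S : Finset (Fin 3)) (m : ℕ) (w : Om W X β) :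
    X × (Fin 3 → Option W) × (Fin 3 → Option β) × (Fin 3 → Option γ) :=
  (w.1, (fun i => if i ∈ S then some (w.2.1 i) else none), (fun j => if j ∈ E then some (w.2.2 j) else none),
    fun j => if j ∈ F then some (D.qb m (w.2.2 j)) else none)

theorem si_eq {E F S : Finset (Fin 3)} {m : ℕ} {v w : Om W X β} : si D E F S m v = si D E F S m w ↔
    v.1 = w.1 ∧ (∀ i ∈ S, v.2.1 i = w.2.1 i) ∧ (∀ j ∈ E, v.2.2 j = w.2.2 j) ∧
      ∀ j ∈ F, D.qb m (v.2.2 j) = D.qb m (w.2.2 j) := by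
  unfold si
  rw [Prod.mk.injEq, Prod.mk.injEq, Prod.mk.injEq, opt_eq, opt_eq, opt_eq (f := fun j => D.qb m (v.2.2 j))
    (g := fun j => D.qb m (w.2.2 j))]

theorem sg_si (E F S : Finset (Fin 3)) (m : ℕ) : Sg (Dy.nn (W := W) D) CC (lvl (eS S) (eP E F m)) (si (W := W) D E F S m) := by
  rw [sg_iff]
  intro v w
  rw [si_eq]
  simp only [rp_eP]
  exact ⟨fun hh => ⟨hh.1, hh.2.1, fun j => ⟨hh.2.2.1 j, hh.2.2.2 j⟩⟩, fun hh => ⟨hh.1, hh.2.1, fun j => (hh.2.2 j).1,
    fun j => (hh.2.2 j).2⟩⟩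

theorem sg_sgt' (E : Finset (Fin 3)) (n : ℕ) : Sg (Dy.nn (W := W) D) CC (lvl (eS ∅) (eP E univ n)) (sgt (W := W) D E n) := by
  rw [eP_univ]
  exact sg_sgt E n

/-- what sees what -/
theorem si_fac {E F S E' F' S' : Finset (Fin 3)} {m m' : ℕ} (h1 : E' ⊆ E) (h2 : ∀ j ∈ F', j ∈ E ∨ (j ∈ F ∧ m' ≤ m))
    (h3 : S' ⊆ S) : Fac (si (W := W) (X := X) D E F S m) (si D E' F' S' m') := by
  intro v w e
  rw [si_eq] at e ⊢
  refine ⟨e.1, fun i hi => e.2.1 i (h3 hi), fun j hj => e.2.2.1 j (h1 hj), fun j hj => ?_⟩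
  rcases h2 j hj with h | h
  · rw [e.2.2.1 j h]
  · exact Dy.qb_mono h.2 (e.2.2.2 j h.1)

/-- the sights of `Tab` -/
theorem sgt_si (E : Finset (Fin 3)) (n : ℕ) {v w : Om W X β} : sgt D E n v = sgt D E n w ↔
    si D E univ ∅ n v = si D E univ ∅ n w := by
  rw [sgt_eq, si_eq]
  simp

/-! ### worlds -/

/-- levels -/
theorem lvl_le {b b' c c' : Fin 3 → ℕ∞} (h1 : ∀ i, b i ≤ b' i) (h2 : ∀ i, c i ≤ c' i) (i : Unit ⊕ (Fin 3 ⊕ Fin 3)) :
    lvl b c i ≤ lvl b' c' i := by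
  match i with
  | Sum.inl _ => exact le_refl _
  | Sum.inr (Sum.inl i) => exact h1 i
  | Sum.inr (Sum.inr j) => exact h2 j

theorem lvl_max {b b' c c' : Fin 3 → ℕ∞} (i : Unit ⊕ (Fin 3 ⊕ Fin 3)) :
    lvl (fun i => max (b i) (b' i)) (fun i => max (c i) (c' i)) i = max (lvl b c i) (lvl b' c' i) := by
  match i with
  | Sum.inl _ => exact (max_self _).symm
  | Sum.inr (Sum.inl _) => rfl
  | Sum.inr (Sum.inr _) => rfl

theorem eS_le {S S' : Finset (Fin 3)} (h : S' ⊆ S) (i : Fin 3) : eS S' i ≤ eS S i := by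
  unfold eS
  by_cases a : i ∈ S
  · rw [if_pos a]
    exact le_top
  · rw [if_neg a, if_neg fun hh => a (h hh)]

theorem eS_min {S S' S1 : Finset (Fin 3)} (h : S ∩ S' ⊆ S1) (i : Fin 3) : min (eS S i) (eS S' i) ≤ eS S1 i := by
  unfold eS
  by_cases a : i ∈ S1
  · rw [if_pos a]
    exact le_top
  · by_cases b : i ∈ S
    · by_cases c : i ∈ S'
      · exact absurd (h (Finset.mem_inter.2 ⟨b, c⟩)) a
      · rw [if_neg c]
        exact (min_le_right _ _).trans (by simp)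
    · rw [if_neg b]
      exact (min_le_left _ _).trans (by simp)

/-- **the world**: hidden point, exact points of `E0`, cells of the time `n` are known -/
abbrev Wd (D : HD (Fin 3) X β γ φ) (P : FP (Om W X β)) (E0 : Finset (Fin 3)) (n : ℕ) : Prop :=
  Wo P (Dy.nn (W := W) D) CC (lvl (eS ∅) (eP E0 univ n))

variable {P : FP (Om W X β)} {E0 : Finset (Fin 3)} {n : ℕ}

/-- **independence** of disjoint points and tables -/
theorem si_indep (h : Wd D P E0 n) {E1 E2 S1 S2 : Finset (Fin 3)} (hE : E1 ∩ E2 ⊆ E0) (hS : S1 ∩ S2 ⊆ ∅) (m m' : ℕ) :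
    P.Indep (si D E1 ∅ S1 m) (si D E2 ∅ S2 m') := by
  refine h.indep (sg_si E1 ∅ S1 m) (sg_si E2 ∅ S2 m') fun i => ?_
  rw [← lvl_min]
  refine lvl_le (eS_min hS) (fun j => ?_) i
  refine (eP_min (E1 := ∅) (F1 := ∅) (E0 := E0) (m1 := 0) (n := n) (by simpa using hE) ?_ ?_ ?_ j).trans ?_
  · exact fun j _ h => absurd h (Finset.notMem_empty j)
  · exact fun j _ h => absurd h (Finset.notMem_empty j)
  · exact fun j h => absurd h (Finset.notMem_empty j)
  · refine max_le ?_ le_rfl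
    unfold eP
    simp

/-- **conditional independence** of sights -/
theorem si_ci (h : Wd D P E0 n) {E F S E1 F1 S1 E2 F2 S2 : Finset (Fin 3)} {m m1 m2 : ℕ} (a1 : E ⊆ E1)
    (a2 : ∀ j ∈ F, j ∈ E1 ∨ (j ∈ F1 ∧ m ≤ m1)) (a3 : S ⊆ S1) (b1 : E ⊆ E2) (b2 : ∀ j ∈ F, j ∈ E2 ∨ (j ∈ F2 ∧ m ≤ m2))
    (b3 : S ⊆ S2) (c1 : E1 ∩ E2 ⊆ E ∪ E0) (c2 : S1 ∩ S2 ⊆ S)
    (d1 : ∀ j ∈ E1, j ∈ F2 → j ∈ E ∪ E0 ∨ (j ∈ F ∧ m2 ≤ m) ∨ m2 ≤ n)
    (d2 : ∀ j ∈ E2, j ∈ F1 → j ∈ E ∪ E0 ∨ (j ∈ F ∧ m1 ≤ m) ∨ m1 ≤ n)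
    (d3 : ∀ j ∈ F1, j ∈ F2 → j ∈ E ∪ E0 ∨ (j ∈ F ∧ min m1 m2 ≤ m) ∨ min m1 m2 ≤ n) :
    P.CI (si D E F S m) (si D E1 F1 S1 m1) (si D E2 F2 S2 m2) := by
  refine h.ci (sg_si E1 F1 S1 m1) (sg_si E2 F2 S2 m2) (sg_si E F S m) (lvl_le (eS_le a3) (eP_le a1 a2))
    (lvl_le (eS_le b3) (eP_le b1 b2)) fun i => ?_
  rw [← lvl_min, ← lvl_max]
  exact lvl_le (fun i => (eS_min c2 i).trans (le_max_left _ _)) (eP_min c1 d1 d2 d3) i

/-- **forgetting** -/
theorem si_ce (h : Wd D P E0 n) {E F S E1 F1 S1 E2 F2 S2 : Finset (Fin 3)} {m m1 m2 : ℕ} (a1 : E ⊆ E1)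
    (a2 : ∀ j ∈ F, j ∈ E1 ∨ (j ∈ F1 ∧ m ≤ m1)) (a3 : S ⊆ S1) (b1 : E ⊆ E2) (b2 : ∀ j ∈ F, j ∈ E2 ∨ (j ∈ F2 ∧ m ≤ m2))
    (b3 : S ⊆ S2) (c1 : E1 ∩ E2 ⊆ E ∪ E0) (c2 : S1 ∩ S2 ⊆ S)
    (d1 : ∀ j ∈ E1, j ∈ F2 → j ∈ E ∪ E0 ∨ (j ∈ F ∧ m2 ≤ m) ∨ m2 ≤ n)
    (d2 : ∀ j ∈ E2, j ∈ F1 → j ∈ E ∪ E0 ∨ (j ∈ F ∧ m1 ≤ m) ∨ m1 ≤ n)
    (d3 : ∀ j ∈ F1, j ∈ F2 → j ∈ E ∪ E0 ∨ (j ∈ F ∧ min m1 m2 ≤ m) ∨ min m1 m2 ≤ n)
    {g : Om W X β → ℝ} (hg : Fac (si D E2 F2 S2 m2) g) {w : Om W X β} (hw : P.p w ≠ 0) :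
    P.ce (si D E1 F1 S1 m1) g w = P.ce (si D E F S m) g w :=
  Crd.ce_ci (si_ci h a1 a2 a3 b1 b2 b3 c1 c2 d1 d2 d3) (si_fac a1 a2 a3) hg hw

/-- law given hidden point, exact points of `E`, cells of the time `n` as at `z` -/
def WE (tb : Tab D prr T W) (E : Finset (Fin 3)) (n : ℕ) (z : Om W X β) : FP (Om W X β) :=
  tb.Ps.cond fun w => sgt D E n w = sgt D E n z

theorem sgt_ex (E : Finset (Fin 3)) (n : ℕ) (z : Om W X β) : ∃ z', tb.Ps.p z' ≠ 0 ∧ sgt D E n z' = sgt D E n z := by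
  obtain ⟨z', h1, h2, h3⟩ := exists_supp (tb := tb) z
  exact ⟨z', h1, sgt_eq.2 ⟨h2, fun j _ => by rw [h3], fun j => by rw [h3]⟩⟩

theorem WE_ne (E : Finset (Fin 3)) (n : ℕ) (z : Om W X β) : tb.Ps.Pr (fun w => sgt D E n w = sgt D E n z) ≠ 0 := by
  obtain ⟨z', h1, h2⟩ := sgt_ex tb E n z
  rw [← h2]
  exact (tb.Ps.m_pos (sgt D E n) h1).ne'

theorem WE_supp {E : Finset (Fin 3)} {n : ℕ} {z w : Om W X β} :
    (WE tb E n z).p w ≠ 0 ↔ tb.Ps.p w ≠ 0 ∧ sgt D E n w = sgt D E n z := by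
  unfold WE
  rw [FP.cond_p_ne (WE_ne tb E n z)]
  exact and_comm

theorem Wl_eq (n : ℕ) (z : Om W X β) : tb.Wl n z = WE tb ∅ n z := by
  unfold Tab.Wl WE
  congr 1
  funext w
  exact propext (cll_sgt n)

theorem wo_WE (E : Finset (Fin 3)) (n : ℕ) (z : Om W X β) : Wd D (WE tb E n z) E n :=
  wo_cond (ind_Ps (tb := tb)) (sg_sgt' E n) (WE_ne tb E n z)

theorem wo_Wl (n : ℕ) (z : Om W X β) : Wd D (tb.Wl n z) ∅ n := by
  rw [Wl_eq]
  exact wo_WE tb ∅ n z

/-- conditional means of later sights -/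
theorem WE_ce {E E' : Finset (Fin 3)} {n m : ℕ} (hE : E ⊆ E') (hmn : n ≤ m) {z w : Om W X β} (f : Om W X β → ℝ)
    (hw : (WE tb E n z).p w ≠ 0) : (WE tb E n z).ce (sgt D E' m) f w = tb.Ps.ce (sgt D E' m) f w := by
  refine cond_ce' (WE_ne tb E n z) f fun v hv => ?_
  rw [← ((WE_supp tb).1 hw).2]
  rw [sgt_eq] at hv ⊢
  exact ⟨hv.1, fun j hj => hv.2.1 j (hE hj), fun j => Dy.qb_mono hmn (hv.2.2 j)⟩

/-- average over the worlds -/
theorem WE_avg (E : Finset (Fin 3)) (n : ℕ) (f : Om W X β → ℝ) :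
    tb.Ps.E (fun z => (WE tb E n z).E f) = tb.Ps.E f := by
  rw [← tb.Ps.E_ce (sgt D E n) f]
  exact tb.Ps.E_congr fun z hz => (tb.Ps.ce_eq_cond (sgt D E n) f hz).symm

/-- the mass of a sight in a world -/
theorem WE_m {E E0 : Finset (Fin 3)} {n m : ℕ} {z w : Om W X β} (hw : (WE tb E0 n z).p w ≠ 0) :
    (WE tb E0 n z).m (sgt D E m) w * tb.Ps.m (sgt D E0 n) z = tb.Ps.m (sgt D (E ∪ E0) (max m n)) w := by
  have h0 := WE_ne tb E0 n z
  have hz := ((WE_supp tb).1 hw).2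
  have h1 : (WE tb E0 n z).m (sgt D E m) w = tb.Ps.E (fun v => ind (sgt D E0 n v = sgt D E0 n z) *
      ind (sgt D E m v = sgt D E m w)) / tb.Ps.Pr (fun w => sgt D E0 n w = sgt D E0 n z) := by
    unfold WE FP.m
    exact FP.cond_E h0 _
  have h2 : tb.Ps.m (sgt D E0 n) z = tb.Ps.Pr (fun w => sgt D E0 n w = sgt D E0 n z) := rfl
  rw [h1, h2, div_mul_cancel₀ _ h0]
  unfold FP.m
  refine tb.Ps.E_congr fun v _ => ?_
  rw [← ind_and]
  congr 1
  rw [← hz, sgt_eq, sgt_eq, sgt_eq]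
  refine propext ⟨?_, ?_⟩
  · rintro ⟨⟨a1, a2, a3⟩, -, b2, b3⟩
    refine ⟨a1, fun j hj => ?_, fun j => ?_⟩
    · rcases Finset.mem_union.1 hj with h | h
      · exact b2 j h
      · exact a2 j h
    · rcases le_total m n with h | h
      · rw [max_eq_right h]
        exact a3 j
      · rw [max_eq_left h]
        exact b3 j
  · rintro ⟨a1, a2, a3⟩
    exact ⟨⟨a1, fun j hj => a2 j (Finset.mem_union_right _ hj), fun j => Dy.qb_mono (le_max_right _ _) (a3 j)⟩, a1,
      fun j hj => a2 j (Finset.mem_union_left _ hj), fun j => Dy.qb_mono (le_max_left _ _) (a3 j)⟩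

/-- **halving in a world**, at every time -/
theorem WE_half {dg : ℕ → X → ℝ} {Lam : ℝ} (H : D.Hyp dg prr al T Lam) {E E0 : Finset (Fin 3)} {n m : ℕ} (hm : m < T)
    {z w : Om W X β} (hw : (WE tb E0 n z).p w ≠ 0) :
    (WE tb E0 n z).m (sgt D E m) w ≤ 8 * (WE tb E0 n z).m (sgt D E (m + 1)) w := by
  have hp : tb.Ps.p w ≠ 0 := ((WE_supp tb).1 hw).1
  have h0 : 0 < tb.Ps.m (sgt D E0 n) z := lt_of_le_of_ne (tb.Ps.Pr_nonneg _) (WE_ne tb E0 n z).symm
  have h1 := WE_m (E := E) (m := m) tb hw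
  have h2 := WE_m (E := E) (m := m + 1) tb hw
  have h3 : tb.Ps.m (sgt D (E ∪ E0) (max m n)) w ≤ 8 * tb.Ps.m (sgt D (E ∪ E0) (max (m + 1) n)) w := by
    rcases Nat.lt_or_ge m n with h | h
    · rw [max_eq_right h.le, max_eq_right (show m + 1 ≤ n by omega)]
      have := tb.Ps.m_pos (sgt D (E ∪ E0) n) hp
      linarith
    · rw [max_eq_left h, max_eq_left (show n ≤ m + 1 by omega)]
      have h4 := sgt_half tb H (E ∪ E0) hm (w := w) hp
      have h5 : (2 : ℝ) ^ ((E ∪ E0)ᶜ.card) ≤ 8 := by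
        have h6 : ((E ∪ E0)ᶜ).card ≤ 3 := by
          have := Finset.card_le_univ (E ∪ E0)ᶜ
          rwa [Fintype.card_fin] at this
        calc (2 : ℝ) ^ ((E ∪ E0)ᶜ.card) ≤ 2 ^ 3 := pow_le_pow_right₀ (by norm_num) h6
          _ = 8 := by norm_num
      have h6 := (tb.Ps.m_pos (sgt D (E ∪ E0) (m + 1)) hp).le
      exact h4.trans (mul_le_mul_of_nonneg_right h5 h6)
  rw [← h1, ← h2, ← mul_assoc] at h3
  exact le_of_mul_le_mul_right h3 h0

/-! ### parts of a point -/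

/-- the tables `S` and the points `G` of `a`, the rest of `v` -/
def mx (G S : Finset (Fin 3)) (a v : Om W X β) : Om W X β :=
  (v.1, (fun i => if i ∈ S then a.2.1 i else v.2.1 i), fun j => if j ∈ G then a.2.2 j else v.2.2 j)

/-- the tables `S` and the points `G` of `w` (the rest is `w0`), with the hidden point -/
def pj (w0 : Om W X β) (G S : Finset (Fin 3)) (w : Om W X β) : Om W X β :=
  (w.1, (fun i => if i ∈ S then w.2.1 i else w0.2.1 i), fun j => if j ∈ G then w.2.2 j else w0.2.2 j)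

theorem pj_eq {w0 : Om W X β} {G S : Finset (Fin 3)} {v w : Om W X β} : pj w0 G S v = pj w0 G S w ↔
    v.1 = w.1 ∧ (∀ i ∈ S, v.2.1 i = w.2.1 i) ∧ ∀ j ∈ G, v.2.2 j = w.2.2 j := by
  unfold pj
  rw [Prod.mk.injEq, Prod.mk.injEq, funext_iff, funext_iff]
  refine and_congr_right fun _ => and_congr (forall_congr' fun i => ?_) (forall_congr' fun j => ?_)
  · by_cases h : i ∈ S
    · simp [h]
    · simp [h]
  · by_cases h : j ∈ G
    · simp [h]
    · simp [h]

theorem pj_fac (w0 : Om W X β) (G S : Finset (Fin 3)) (m : ℕ) : Fac (si D G ∅ S m) (pj w0 G S) := fun v w e => by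
  rw [si_eq] at e
  exact pj_eq.2 ⟨e.1, e.2.1, e.2.2.1⟩

theorem fac_pj (w0 : Om W X β) (G S : Finset (Fin 3)) (m : ℕ) : Fac (pj w0 G S) (si D G ∅ S m) := fun v w e => by
  rw [pj_eq] at e
  exact si_eq.2 ⟨e.1, e.2.1, e.2.2, fun j hj => absurd hj (Finset.notMem_empty j)⟩

theorem fac_pj' (w0 : Om W X β) {G S E F S' : Finset (Fin 3)} {m : ℕ} (h1 : E ⊆ G) (h2 : F ⊆ G) (h3 : S' ⊆ S) :
    Fac (pj w0 G S) (si D E F S' m) :=
  (fac_pj w0 G S m).trans (si_fac h1 (fun j hj => Or.inl (h2 hj)) h3)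

/-- putting the parts together -/
theorem mx_pj (w0 : Om W X β) (G S : Finset (Fin 3)) (w : Om W X β) : mx G S (pj w0 G S w) w = w := by
  unfold mx pj
  refine Prod.ext rfl (Prod.ext (funext fun i => ?_) (funext fun j => ?_))
  · show (if i ∈ S then (if i ∈ S then w.2.1 i else w0.2.1 i) else w.2.1 i) = w.2.1 i
    by_cases h : i ∈ S
    · rw [if_pos h, if_pos h]
    · rw [if_neg h]
  · show (if j ∈ G then (if j ∈ G then w.2.2 j else w0.2.2 j) else w.2.2 j) = w.2.2 j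
    by_cases h : j ∈ G
    · rw [if_pos h, if_pos h]
    · rw [if_neg h]

/-- the test `g` with the part `a` -/
def ts (G S : Finset (Fin 3)) (g : Om W X β → ℝ) (a v : Om W X β) : ℝ := g (mx G S a v)

theorem ts_own (w0 : Om W X β) (G S : Finset (Fin 3)) (g : Om W X β → ℝ) (w : Om W X β) :
    ts G S g (pj w0 G S w) w = g w := by
  unfold ts
  rw [mx_pj]

theorem ts_fac (w0 : Om W X β) {G S F S' : Finset (Fin 3)} (hG : G ∪ F = univ) (hS : S ∪ S' = univ)
    (g : Om W X β → ℝ) (a : Om W X β) : Fac (pj w0 F S') (ts G S g a) := fun v w e => by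
  rw [pj_eq] at e
  unfold ts
  congr 1
  unfold mx
  refine Prod.ext e.1 (Prod.ext (funext fun i => ?_) (funext fun j => ?_))
  · show (if i ∈ S then a.2.1 i else v.2.1 i) = if i ∈ S then a.2.1 i else w.2.1 i
    by_cases h : i ∈ S
    · rw [if_pos h, if_pos h]
    · rw [if_neg h, if_neg h]
      exact e.2.1 i ((Finset.mem_union.1 (hS ▸ mem_univ i)).resolve_left h)
  · show (if j ∈ G then a.2.2 j else v.2.2 j) = if j ∈ G then a.2.2 j else w.2.2 j
    by_cases h : j ∈ G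
    · rw [if_pos h, if_pos h]
    · rw [if_neg h, if_neg h]
      exact e.2.2 j ((Finset.mem_union.1 (hG ▸ mem_univ j)).resolve_left h)

theorem ts_le {L : ℝ} {G S : Finset (Fin 3)} {g : Om W X β → ℝ} (h : ∀ w, g w ≤ L) (a v : Om W X β) :
    ts G S g a v ≤ L := h _

/-! ### faces -/

/-- **THE FACES** : `U` = points `E0 ∪ G`, tables `S'`; `V` = points `E0 ∪ F`, tables `S` -/
theorem face (h : Wd D P E0 n) (w0 : Om W X β) {F G S S' : Finset (Fin 3)} (hG : G ∩ F ⊆ E0) (hu : E0 ∪ G ∪ F = univ)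
    (hS : S' ∩ S ⊆ ∅) (hSu : S' ∪ S = univ) {tm : ℕ → ℕ} (ht : ∀ s, tm s ≤ tm (s + 1)) {zz : ℕ → Om W X β → Prop}
    (hz : ∀ s x w, sgt D E0 (tm s) x = sgt D E0 (tm s) w → (zz s x ↔ zz s w)) :
    GhoZ3.Face P (fun w => w) zz (pj w0 (E0 ∪ G) S') (pj w0 (E0 ∪ F) S) (fun s => si D E0 F ∅ (tm s)) where
  iI := by
    refine (si_indep h (E1 := E0 ∪ G) (E2 := E0 ∪ F) ?_ hS 0 0).mono (pj_fac w0 _ _ 0) (pj_fac w0 _ _ 0)
    rw [← Finset.union_inter_distrib_left]
    exact Finset.union_subset (Finset.Subset.refl _) hG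
  hX := fun s => fac_pj' w0 (Finset.subset_union_left) (Finset.subset_union_right) (Finset.empty_subset _)
  fX := fun s => si_fac (Finset.Subset.refl _) (fun j hj => Or.inr ⟨hj, ht s⟩) (Finset.Subset.refl _)
  hz := fun s x w e => by
    refine hz s x w ?_
    rw [Prod.mk.injEq, pj_eq, si_eq] at e
    obtain ⟨⟨a1, a2, a3⟩, b1, b2, b3, b4⟩ := e
    rw [sgt_eq]
    refine ⟨a1, b3, fun j => ?_⟩
    rcases Finset.mem_union.1 (show j ∈ E0 ∪ G ∪ F from hu ▸ mem_univ j) with hj | hj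
    · rw [a3 j hj]
    · exact b4 j hj
  hUV := fun x w e e' => by
    rw [pj_eq] at e e'
    refine Prod.ext e.1 (Prod.ext (funext fun i => ?_) (funext fun j => ?_))
    · rcases Finset.mem_union.1 (show i ∈ S' ∪ S from hSu ▸ mem_univ i) with hi | hi
      · exact e.2.1 i hi
      · exact e'.2.1 i hi
    · rcases Finset.mem_union.1 (show j ∈ E0 ∪ G ∪ F from hu ▸ mem_univ j) with hj | hj
      · exact e.2.2 j hj
      · exact e'.2.2 j (Finset.mem_union_right _ hj)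
  hVo := fun v w e => by rw [show v = w from e]

/-- **forgetting the other cells** (hypothesis `hch` of the payments) -/
theorem face_ch (h : Wd D P E0 n) (w0 : Om W X β) (F S : Finset (Fin 3)) (m : ℕ) {g : Om W X β → ℝ}
    (hg : Fac (pj w0 (E0 ∪ F) S) g) {w : Om W X β} (hw : P.p w ≠ 0) :
    P.ce (si D E0 F ∅ m) g w = P.ce (sgt D E0 m) g w := by
  have h1 : P.ce (si D E0 univ ∅ m) g w = P.ce (si D E0 F ∅ m) g w := by
    refine si_ce h (E := E0) (F := F) (S := ∅) (E1 := E0) (F1 := univ) (S1 := ∅) (E2 := E0 ∪ F) (F2 := ∅) (S2 := S)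
      (m := m) (m1 := m) (m2 := 0) (Finset.Subset.refl _) (fun j _ => Or.inr ⟨mem_univ j, le_rfl⟩) (Finset.Subset.refl _)
      Finset.subset_union_left (fun j hj => Or.inl (Finset.mem_union_right _ hj)) (Finset.empty_subset _) ?_ ?_ ?_ ?_ ?_
      ((pj_fac w0 _ _ 0).trans hg) hw
    · exact fun j hj => Finset.mem_union_left _ (Finset.mem_inter.1 hj).1
    · exact fun j hj => (Finset.mem_inter.1 hj).1
    · exact fun j _ hj => absurd hj (Finset.notMem_empty j)
    · intro _ hj _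
      rcases Finset.mem_union.1 hj with hj | hj
      · exact Or.inl (Finset.mem_union_left _ hj)
      · exact Or.inr (Or.inl ⟨hj, le_rfl⟩)
    · exact fun j _ hj => absurd hj (Finset.notMem_empty j)
  rw [← h1]
  exact P.ce_congr_map (fun v w e => (sgt_si E0 m).2 e) (fun v w e => (sgt_si E0 m).1 e) g w

/-- a sight with tables, the node: conditional independence -/
theorem sgt_ci' (h : Wd D P E0 n) {E E1 S1 E2 S2 : Finset (Fin 3)} {m : ℕ} (a1 : E ⊆ E1) (a2 : E ⊆ E2)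
    (c1 : E1 ∩ E2 ⊆ E ∪ E0) (c2 : S1 ∩ S2 ⊆ ∅) :
    P.CI (sgt D E m) (si D E1 univ S1 m) (si D E2 univ S2 m) := by
  refine Crd.ci_congr (si_ci h (E := E) (F := univ) (S := ∅) (E1 := E1) (F1 := univ) (S1 := S1) (E2 := E2)
    (F2 := univ) (S2 := S2) (m := m) (m1 := m) (m2 := m) a1 (fun j _ => Or.inr ⟨mem_univ j, le_rfl⟩)
    (Finset.empty_subset _) a2 (fun j _ => Or.inr ⟨mem_univ j, le_rfl⟩) (Finset.empty_subset _) c1 c2 ?_ ?_ ?_)
    (fun v w e => (sgt_si E m).2 e) (fun v w e => (sgt_si E m).1 e) (fun _ _ e => e) (fun _ _ e => e)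
  · exact fun j _ _ => Or.inr (Or.inl ⟨mem_univ j, le_rfl⟩)
  · exact fun j _ _ => Or.inr (Or.inl ⟨mem_univ j, le_rfl⟩)
  · exact fun j _ _ => Or.inr (Or.inl ⟨mem_univ j, min_le_left _ _⟩)

theorem fac_sgt (E S : Finset (Fin 3)) {E' : Finset (Fin 3)} (h : E' ⊆ E) (m : ℕ) :
    Fac (si (W := W) (X := X) D E univ S m) (sgt D E' m) := fun v w e => by
  rw [si_eq] at e
  exact sgt_eq.2 ⟨e.1, fun j hj => e.2.2.1 j (h hj), fun j => e.2.2.2 j (mem_univ j)⟩

/-- the sight `E`, tables `S` sees its points and tables -/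
theorem fac_si_pj (w0 : Om W X β) {E S G S' : Finset (Fin 3)} (h1 : G ⊆ E) (h2 : S' ⊆ S) (m : ℕ) :
    Fac (si D E univ S m) (pj w0 G S') := fun v w e => by
  rw [si_eq] at e
  exact pj_eq.2 ⟨e.1, fun i hi => e.2.1 i (h2 hi), fun j hj => e.2.2.1 j (h1 hj)⟩

end si

end

end Pool.Agent.GMH.TabF
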