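import Pool.Agent.GMH.PayI
import Pool.Agent.GMH.GhoL
import Pool.Agent.GMH.TabF

/-!
# GMH/PayGd (helper15): FOREIGN ROWS AT THE EXACT VERTEX `b`: DEFINITIONS (H3.T, T.4)

`b` the exact vertex, `c` the vertex of the listed rows, `d` the other one; top `i` = face which misses the vertex `i`: tested top
= the index `c` (face `b d`), top of the row = the index `d` (face `b c`).  Columns: exchange `c` and `d`.  State `e` of the tables.
* `Bx b w = (w.1, y_b)`, `Cx c d w = (y_c, table of the face b c)`, `Cx d c w = (y_d, table of the face b d)`, `pz` : point made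
  of them;
* row `ρ = (hidden point with the letter of c, label of the face b c)`; `Mt .. yc ρ p p'` : `p'` is in the support and has the
  lower letters and the tested top of `p` (`ZbQ D v e c`, `FQ v (e/5) c`), the point `yc`, the letter and the label of `ρ`;
* `Gr` / `psO` : relation and test of `GMH/GhoL` for any static relation `kv` (event of points of the state `e`), `Hf`, `ff` the
  same on the space of the state (for `GMH/PayI`); `psV` = log of `P(Y | X, Z)` over the own law of `Y`, cut at `-Kc`.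
-/

set_option autoImplicit false
set_option linter.unusedSectionVars false

namespace Pool.Agent.GMH.PayG

open Finset Pool.Agent.PWZ Pool.Agent.M3 Pool.Agent.GM Pool.Agent.GM.Harm Pool.Agent.GMH
open Pool.Agent.GMH.Dy Pool.Agent.GMH.TP

noncomputable section

variable {X β γ φ : Type} [Fintype X] [Fintype β] [Fintype φ] [Nonempty X] [Nonempty β]
variable {D : HD (Fin 3) X β γ φ} {al : ℝ} (h : D.Thick al)
variable {prr : ℕ → Fin 3 → φ → φ} {T : ℕ} {W : Type} [Fintype W] (tb : Tab D prr T W)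
variable (v : ℕ → Finset (Fin 3) → X → (Fin 3 → β) → Pt (Fin 3) X β φ)

/-- hidden point and the exact point -/
def Bx (b : Fin 3) (w : Om W X β) : X × β := (w.1, w.2.2 b)

/-- point of the vertex `c` and table of the label `d` -/
def Cx (c d : Fin 3) (w : Om W X β) : β × W := (w.2.2 c, w.2.1 d)

/-- the three points -/
def y3 (b c : Fin 3) (yb yc yd : β) : Fin 3 → β := fun k => if k = b then yb else if k = c then yc else yd

/-- the point of the state `e` made of `(x, y_b)`, `y_c` and `(y_d, table of the label c)` -/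
def pz (e : ℕ) (b c : Fin 3) (B : X × β) (yc : β) (Dd : β × W) : Pt (Fin 3) X β φ :=
  (B.1, y3 b c B.2 yc Dd.1, fun _ => tb.lab (e / 5) c Dd.2 B.1 (y3 b c B.2 yc Dd.1))

/-- all thin letters and the top of the row -/
def XZ (D : HD (Fin 3) X β γ φ) (v : ℕ → Finset (Fin 3) → X → (Fin 3 → β) → Pt (Fin 3) X β φ) (e : ℕ) (d : Fin 3)
    (w : Pt (Fin 3) X β φ) := (FQ v (e / 5) d w, ZQ D v e w)

/-- `p'` has the row `(yc, ρ)` and the lower letters and the tested top of `p` -/
def Mt (e : ℕ) (c d : Fin 3) (yc : β) (ρ : X × φ) (p p' : Pt (Fin 3) X β φ) : Prop :=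
  (D.P h (e / 5)).p p' ≠ 0 ∧ p'.2.1 c = yc ∧ ZbQ D v e c p' = ZbQ D v e c p ∧ FQ v (e / 5) c p' = FQ v (e / 5) c p ∧
    Um v (nc e {c}) {c} p'.1 p'.2.1 = Um v (nc e {c}) {c} ρ.1 p'.2.1 ∧ p'.2.2 d = ρ.2

/-- log of the law of the tested top given the row over its own law, cut at `-Kc` -/
def psV (Kc : ℝ) (e : ℕ) (c d : Fin 3) (p : Pt (Fin 3) X β φ) : ℝ :=
  max (Real.log ((D.P h (e / 5)).pv (XZ D v e d) (FQ v (e / 5) c) p (FQ v (e / 5) c p) /
    (D.P h (e / 5)).pv (ZbQ D v e c) (FQ v (e / 5) c) p (FQ v (e / 5) c p))) (-Kc)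

open Classical in
/-- value at a point of the set -/
def cho (f : Pt (Fin 3) X β φ → ℝ) (S : Pt (Fin 3) X β φ → Prop) : ℝ := if hh : ∃ p, S p then f hh.choose else 0

/-- the foreign row on the space of the state `e` -/
def Hf (kv : Pt (Fin 3) X β φ → Prop) (e : ℕ) (c d : Fin 3) (yc : β) (ρ : X × φ) (p : Pt (Fin 3) X β φ) : Prop :=
  ∃ p', Mt h v e c d yc ρ p p' ∧ kv p'

/-- its test -/
def ff (Kc : ℝ) (kv : Pt (Fin 3) X β φ → Prop) (e : ℕ) (c d : Fin 3) (yc : β) (ρ : X × φ) (p : Pt (Fin 3) X β φ) : ℝ :=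
  cho (psV h v Kc e c d) fun p' => Mt h v e c d yc ρ p p' ∧ kv p'

/-- **THE RELATION** of `GMH/GhoL` : exact row `(B, C)`, row `ρ`, other vertex -/
def Gr (kv : Pt (Fin 3) X β φ → Prop) (e : ℕ) (b c d : Fin 3) (B : X × β) (C : β × W) (ρ : X × φ) (Dd : β × W) : Prop :=
  Hf h v kv e c d C.1 ρ (pz tb e b c B C.1 Dd)

/-- **THE TEST** of `GMH/GhoL` -/
def psO (Kc : ℝ) (kv : Pt (Fin 3) X β φ → Prop) (e : ℕ) (b c d : Fin 3) (B : X × β) (C : β × W) (ρ : X × φ)
    (Dd : β × W) : ℝ := ff h v Kc kv e c d C.1 ρ (pz tb e b c B C.1 Dd)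

end

end Pool.Agent.GMH.PayG
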