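import Pool.Agent.GMH.PayS
import Pool.Agent.GMH.PayR
import Pool.Agent.GMH.TopDef

/-!
# GMH/PayQ: payments with tables of substates (helper52, statements of helper15)

Time of the tops = states `q = 5 t + j`.  A life of a clock starts at the state `r`, its tables are those of the state
`e = etl tl r` (`r`, or `5 (r / 5) + 5` when `tl r` holds), it ends at the start `s` of the next life, and the end is
collected at the saturated state `5 (cl s)`, `cl s = (s + 4) / 5`.  `gdq i t e` = gain at `5 t` of the letter of `e`.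

* `win_le` : disjoint windows gain at most the cost of the letter; `lives_le` : all lives, windows `[e, 5 (cl s)]`;
* `payq_end` : payment at one end, fixed `e`; `payq_loc` : localised gain; `payq_nn` : nonnegative mean gains;
* `payq_sum` : the sum over all lives is at most `5 Lam`; `payq_all` : all payments together.
-/

set_option autoImplicit false
set_option linter.unusedSectionVars false

namespace Pool.Agent.GMH.PayQ

open Finset Pool.Agent.PWZ Pool.Agent.M3 Pool.Agent.GM Pool.Agent.GM.Harm Pool.Agent.GMH Pool.Agent.GMH.PayM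
open Pool.Agent.GMH.PayS Pool.Agent.GMH.TP Pool.Agent.GMH.V3 Pool.Agent.GMH.V3.TG

noncomputable section

/-! ## disjoint windows -/

section win

variable {Om : Type*} [Fintype Om] {P : FP Om} {κ ι : ℕ → Type*} {T : ∀ t, Om → κ t} {A : ∀ t, Om → ι t}

theorem sum_uniq {ξ : Type*} (S : Finset ξ) (p : ξ → Prop) (f : ξ → ℝ) (y : ℝ)
    (hu : ∀ x ∈ S, ∀ x' ∈ S, p x → p x' → x = x') (hf : ∀ x ∈ S, p x → f x = y) :
    ∑ x ∈ S, ind (p x) * f x = ind (∃ x ∈ S, p x) * y := by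
  by_cases h : ∃ x ∈ S, p x
  · obtain ⟨x, hx, hp⟩ := h
    rw [Finset.sum_eq_single x (fun x' hx' hne => by
      rw [ind_not (fun hp' => hne (hu x' hx' x hx hp' hp)), zero_mul]) (fun hh => absurd hx hh), ind_of hp,
      ind_of (show ∃ x ∈ S, p x from ⟨x, hx, hp⟩), hf x hx hp]
  · rw [ind_not h, zero_mul]
    refine Finset.sum_eq_zero fun x hx => ?_
    rw [ind_not (fun hp => h ⟨x, hx, hp⟩), zero_mul]

theorem st_last {e : ℕ → Om → Prop} {w : Om} {a : ℕ} (ha : e a w) {b : ℕ} (hab : a < b)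
    (hn : ∀ q, a < q → q < b → ¬ e q w) : EpG.st e b w = a := by
  induction b with
  | zero => exact absurd hab (Nat.not_lt_zero _)
  | succ b ih =>
    rcases Nat.lt_succ_iff_lt_or_eq.1 hab with h | h
    · rw [EpG.st_neg (hn b h (Nat.lt_succ_self b))]
      exact ih h fun q h1 h2 => hn q h1 (Nat.lt_succ_of_lt h2)
    · subst h
      exact EpG.st_pos ha

/-- **disjoint windows** -/
theorem win_le (hA : Filt A) (hT : ∀ t, Fac (fun w => (T (t + 1) w, A (t + 1) w)) (T t)) {EE : ℕ → Om → Prop}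
    (hE : ∀ t, Fac (A t) (EE t)) {ξ : Type*} (S : Finset ξ) {pa pb : ξ → ℕ} {W : ξ → Om → Prop}
    (hW : ∀ x ∈ S, Fac (A (pb x)) (W x)) (h1 : ∀ x ∈ S, ∀ w, W x w → pa x < pb x ∧ EE (pa x) w ∧ EE (pb x) w ∧
      ∀ q, pa x < q → q < pb x → ¬ EE q w) (h2 : ∀ x ∈ S, ∀ x' ∈ S, ∀ w, W x w → W x' w → pb x = pb x' → x = x') {n : ℕ}
    (hn : ∀ x ∈ S, pb x ≤ n) :
    ∑ x ∈ S, P.E (fun w => ind (W x w) * (sp P (T (pa x)) (A (pa x)) w - sp P (T (pa x)) (A (pb x)) w)) ≤
      P.Hc (T 0) (A 0) + ∑ t ∈ range n, P.Hc (T (t + 1)) (fun w => (T t w, A (t + 1) w)) := by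
  classical
  refine le_trans (le_of_eq ?_) (EpG.part_le (P := P) (T := T) (A := A) (e := EE) hA hT hE
    (e' := fun b w => ∃ x ∈ S, pb x = b ∧ W x w) ?_ ?_ n)
  · rw [← FP.E_sum, ← FP.E_sum]
    refine P.E_congr fun w _ => ?_
    have e1 : ∀ b ∈ range (n + 1), ind (∃ x ∈ S, pb x = b ∧ W x w) * EpG.gn P EE T A b w =
        ∑ x ∈ S, ind (pb x = b ∧ W x w) * (sp P (T (pa x)) (A (pa x)) w - sp P (T (pa x)) (A (pb x)) w) := by
      intro b _
      rw [sum_uniq S (fun x => pb x = b ∧ W x w) _ (EpG.gn P EE T A b w)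
        (fun x hx x' hx' hp hp' => h2 x hx x' hx' w hp.2 hp'.2 (hp.1.trans hp'.1.symm)) ?_]
      intro x hx hp
      obtain ⟨h3, h4, _, h5⟩ := h1 x hx w hp.2
      rw [EpG.gn_eq, ← hp.1, st_last h4 h3 h5]
    rw [Finset.sum_congr rfl e1, Finset.sum_comm]
    refine Finset.sum_congr rfl fun x hx => ?_
    rw [Finset.sum_eq_single (pb x) (fun b _ hb => by
      rw [ind_not (fun hh => hb hh.1.symm), zero_mul]) (fun hh => absurd (mem_range.2 (Nat.lt_succ_of_le (hn x hx))) hh)]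
    by_cases hw : W x w
    · rw [ind_of hw, ind_of (show pb x = pb x ∧ W x w from ⟨rfl, hw⟩)]
    · rw [ind_not hw, ind_not (fun hh : pb x = pb x ∧ W x w => hw hh.2)]
  · intro b a a' haa
    refine propext ⟨?_, ?_⟩
    · rintro ⟨x, hx, rfl, hw⟩
      exact ⟨x, hx, rfl, (hW x hx a a' haa) ▸ hw⟩
    · rintro ⟨x, hx, rfl, hw⟩
      exact ⟨x, hx, rfl, (hW x hx a a' haa).symm ▸ hw⟩
  · rintro b w ⟨x, hx, rfl, hw⟩
    exact (h1 x hx w hw).2.2.1

/-! ## lives -/

open Classical in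
/-- state of the tables of the start `r` -/
def etl (tl : ℕ → Om → Prop) (r : ℕ) (w : Om) : ℕ := if tl r w then 5 * (r / 5) + 5 else r

/-- level at which an end is collected -/
def cl (s : ℕ) : ℕ := (s + 4) / 5

/-- a life starts at `r` and ends at `s`, tables of the state `e` -/
def Lf (en tl : ℕ → Om → Prop) (r e s : ℕ) (w : Om) : Prop :=
  r < s ∧ en r w ∧ (∀ q, r < q → q < s → ¬ en q w) ∧ en s w ∧ e = etl tl r w

open Classical in
/-- number of the starts before `q` -/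
def idx (en : ℕ → Om → Prop) (q : ℕ) (w : Om) : ℕ := ((range q).filter fun q' => en q' w).card

variable {en tl : ℕ → Om → Prop}

theorem etl_ge (r : ℕ) (w : Om) : r ≤ etl tl r w := by
  unfold etl
  split_ifs
  · omega
  · exact le_rfl

theorem etl_le (r : ℕ) (w : Om) {s : ℕ} (h : r < s) : etl tl r w ≤ 5 * cl s := by
  unfold etl cl
  split_ifs <;> omega

theorem cl_ge (s : ℕ) : s ≤ 5 * cl s := by
  unfold cl
  omega

theorem cl_le' (s : ℕ) : 5 * cl s ≤ s + 4 := by
  unfold cl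
  omega

theorem cl_le {s n : ℕ} (h : s ≤ 5 * n) : cl s ≤ n := by
  unfold cl
  omega

theorem Lf_le {r e s : ℕ} {w : Om} (h : Lf en tl r e s w) : e ≤ 5 * cl s := by
  obtain ⟨h1, _, _, _, rfl⟩ := h
  exact etl_le r w h1

theorem idx_mono {q q' : ℕ} (h : q ≤ q') (w : Om) : idx en q w ≤ idx en q' w := by
  classical
  unfold idx
  exact Finset.card_le_card (Finset.filter_subset_filter _ (Finset.range_mono h))

theorem idx_lt {r s : ℕ} {w : Om} (h : r < s) (hr : en r w) : idx en r w < idx en s w := by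
  classical
  unfold idx
  refine Finset.card_lt_card (Finset.ssubset_iff_subset_ne.2
    ⟨Finset.filter_subset_filter _ (Finset.range_mono h.le), fun hh => ?_⟩)
  have h1 : r ∈ (range s).filter fun q' => en q' w := Finset.mem_filter.2 ⟨mem_range.2 h, hr⟩
  rw [← hh] at h1
  exact lt_irrefl _ (mem_range.1 (Finset.mem_filter.1 h1).1)

/-- from the end `s` of the life of `r` to `q` there are at least as many states as starts -/
theorem idx_gap {r s q : ℕ} {w : Om} (hn : ∀ q, r < q → q < s → ¬ en q w) :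
    idx en q w ≤ idx en r w + 1 + (q - s) := by
  classical
  unfold idx
  have h1 : (range q).filter (fun q' => en q' w) ⊆ ((range r).filter fun q' => en q' w) ∪ ({r} ∪ Finset.Ico s q) := by
    intro x hx
    obtain ⟨h2, h3⟩ := Finset.mem_filter.1 hx
    rw [Finset.mem_union, Finset.mem_union, Finset.mem_filter, Finset.mem_singleton, Finset.mem_Ico, mem_range]
    rw [mem_range] at h2
    rcases lt_trichotomy x r with h4 | h4 | h4
    · exact Or.inl ⟨h4, h3⟩
    · exact Or.inr (Or.inl h4)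
    · refine Or.inr (Or.inr ⟨?_, h2⟩)
      by_contra h5
      exact hn x h4 (by omega) h3
  refine (Finset.card_le_card h1).trans ((Finset.card_union_le _ _).trans ?_)
  have h2 := Finset.card_union_le ({r} : Finset ℕ) (Finset.Ico s q)
  rw [Finset.card_singleton, Nat.card_Ico] at h2
  omega

/-- lives of the same class of indices are far apart -/
theorem far {r e s r' : ℕ} {w : Om} (h : Lf en tl r e s w) (hlt : r < r')
    (hid : idx en r' w % 5 = idx en r w % 5) : s + 4 ≤ r' := by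
  obtain ⟨h1, h2, h3, h4, h5⟩ := h
  have h6 := idx_gap (en := en) (q := r') h3
  have h7 := idx_lt hlt h2
  omega

theorem Lf_uniq {r e s r' e' s' : ℕ} {w : Om} (h : Lf en tl r e s w) (h' : Lf en tl r' e' s' w) (hr : r = r') :
    e = e' ∧ s = s' := by
  subst hr
  obtain ⟨h1, h2, h3, h4, h5⟩ := h
  obtain ⟨g1, g2, g3, g4, g5⟩ := h'
  refine ⟨h5.trans g5.symm, ?_⟩
  rcases lt_trichotomy s s' with h6 | h6 | h6
  · exact absurd h4 (g3 s h1 h6)
  · exact h6
  · exact absurd g4 (h3 s' g1 h6)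

theorem en_fac (hA : Filt A) {p : ℕ → Om → Prop} (hp : ∀ q, Fac (A q) (p q)) {q q' : ℕ} (h : q ≤ q') :
    Fac (A q') (p q) := (hA.le h).trans (hp q)

theorem etl_fac (htl : ∀ q, Fac (A q) (tl q)) (r : ℕ) : Fac (A r) (etl tl r) := by
  intro a b hab
  have h1 : tl r a = tl r b := htl r a b hab
  unfold etl
  by_cases h2 : tl r a
  · rw [if_pos h2, if_pos (h1 ▸ h2)]
  · rw [if_neg h2, if_neg (fun hh => h2 (h1.symm ▸ hh))]

theorem idx_fac (hA : Filt A) (hen : ∀ q, Fac (A q) (en q)) {q q' : ℕ} (h : q ≤ q') : Fac (A q') (idx en q) := by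
  classical
  intro a b hab
  unfold idx
  congr 1
  refine Finset.filter_congr fun x hx => ?_
  have h1 : en x a = en x b := en_fac hA hen ((mem_range.1 hx).le.trans h) a b hab
  rw [h1]

theorem Lf_fac (hA : Filt A) (hen : ∀ q, Fac (A q) (en q)) (htl : ∀ q, Fac (A q) (tl q)) (r e : ℕ) {s q : ℕ}
    (h : s ≤ q) : Fac (A q) (Lf en tl r e s) := by
  intro a b hab
  unfold Lf
  refine propext (and_congr_right fun h1 => ?_)
  have f1 : ∀ x ≤ s, en x a = en x b := fun x hx => en_fac hA hen (hx.trans h) a b hab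
  have f2 : etl tl r a = etl tl r b := ((hA.le (h1.le.trans h)).trans (etl_fac htl r)) a b hab
  rw [f1 r h1.le, f1 s le_rfl, f2]
  refine and_congr_right fun _ => and_congr_left fun _ => ?_
  refine forall_congr' fun x => forall_congr' fun _ => forall_congr' fun h2 => ?_
  rw [f1 x h2.le]

/-- **the gains of all lives** -/
theorem lives_le (hA : Filt A) (hT : ∀ t, Fac (fun w => (T (t + 1) w, A (t + 1) w)) (T t))
    (hen : ∀ q, Fac (A q) (en q)) (htl : ∀ q, Fac (A q) (tl q)) (n : ℕ) :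
    ∑ s ∈ range (5 * n + 1), ∑ r ∈ range (5 * n + 1), ∑ e ∈ range (5 * n + 1), P.E (fun w =>
        ind (Lf en tl r e s w) * (sp P (T e) (A e) w - sp P (T e) (A (5 * cl s)) w)) ≤
      5 * (P.Hc (T 0) (A 0) + ∑ t ∈ range (5 * n), P.Hc (T (t + 1)) (fun w => (T t w, A (t + 1) w))) := by
  classical
  set RR := P.Hc (T 0) (A 0) + ∑ t ∈ range (5 * n), P.Hc (T (t + 1)) (fun w => (T t w, A (t + 1) w)) with hRR
  set R3 := (range (5 * n + 1)) ×ˢ ((range (5 * n + 1)) ×ˢ (range (5 * n + 1))) with hR3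
  -- one class of indices
  have key : ∀ j, ∑ x ∈ R3, P.E (fun w => ind (Lf en tl x.2.1 x.2.2 x.1 w ∧ idx en x.2.1 w % 5 = j ∧
      x.2.2 < 5 * cl x.1) * (sp P (T x.2.2) (A x.2.2) w - sp P (T x.2.2) (A (5 * cl x.1)) w)) ≤ RR := by
    intro j
    -- ends of the windows
    set EE : ℕ → Om → Prop := fun q w => ∃ r, r ≤ q ∧ en r w ∧ idx en r w % 5 = j ∧
      (etl tl r w = q ∨ ∃ s, s ≤ q ∧ Lf en tl r (etl tl r w) s w ∧ 5 * cl s = q) with hEE
    have hEf : ∀ q, Fac (A q) (EE q) := by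
      intro q a b hab
      have f1 : ∀ x ≤ q, en x a = en x b := fun x hx => en_fac hA hen hx a b hab
      have f2 : ∀ x ≤ q, etl tl x a = etl tl x b := fun x hx => ((hA.le hx).trans (etl_fac htl x)) a b hab
      have f3 : ∀ x ≤ q, idx en x a = idx en x b := fun x hx => idx_fac hA hen hx a b hab
      refine propext (exists_congr fun r => and_congr_right fun hr => ?_)
      rw [f1 r hr, f2 r hr, f3 r hr]
      refine and_congr_right fun _ => and_congr_right fun _ => or_congr_right ?_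
      refine exists_congr fun s => and_congr_right fun hs => ?_
      have f4 : Lf en tl r (etl tl r b) s a = Lf en tl r (etl tl r b) s b :=
        Lf_fac hA hen htl r (etl tl r b) hs a b hab
      rw [f4]
    refine win_le (P := P) (T := T) (A := A) hA hT (EE := EE) hEf R3 (pa := fun x => x.2.2) (pb := fun x => 5 * cl x.1)
      (W := fun x w => Lf en tl x.2.1 x.2.2 x.1 w ∧ idx en x.2.1 w % 5 = j ∧ x.2.2 < 5 * cl x.1) ?_ ?_ ?_ ?_
    · rintro ⟨s, r, e⟩ _ a b hab
      have f1 : Lf en tl r e s a = Lf en tl r e s b := Lf_fac hA hen htl r e (cl_ge s) a b hab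
      show (Lf en tl r e s a ∧ idx en r a % 5 = j ∧ e < 5 * cl s) = (Lf en tl r e s b ∧ idx en r b % 5 = j ∧ e < 5 * cl s)
      rw [f1]
      refine propext (and_congr_right fun h1 => ?_)
      rw [idx_fac hA hen (h1.1.le.trans (cl_ge s)) a b hab]
    · rintro ⟨s, r, e⟩ _ w ⟨h1, h2, h3⟩
      have h1' := h1
      obtain ⟨g1, g2, g3, g4, g5⟩ := h1'
      simp only at h1 h2 h3 g1 g2 g3 g4 g5 ⊢
      refine ⟨h3, ⟨r, by rw [g5]; exact etl_ge r w, g2, h2, Or.inl g5.symm⟩,
        ⟨r, g1.le.trans (cl_ge s), g2, h2, Or.inr ⟨s, cl_ge s, by rw [← g5]; exact h1, rfl⟩⟩, ?_⟩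
      rintro q hq1 hq2 ⟨r', hr'q, k1, k2, k3⟩
      rcases lt_trichotomy r r' with h5 | h5 | h5
      · have h6 := far h1 h5 (k2.trans h2.symm)
        have h7 := cl_le' s
        omega
      · subst h5
        rcases k3 with k3 | ⟨s', k4, k5, k6⟩
        · rw [← g5] at k3
          omega
        · obtain ⟨_, h8⟩ := Lf_uniq h1 k5 rfl
          rw [← h8] at k6
          omega
      · -- the other life is older
        have h6 : ∃ s', Lf en tl r' (etl tl r' w) s' w := by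
          have h7 : ∃ x, r' < x ∧ en x w := ⟨r, h5, g2⟩
          refine ⟨Nat.find h7, (Nat.find_spec h7).1, k1, fun x hx1 hx2 hx3 => Nat.find_min h7 hx2 ⟨hx1, hx3⟩,
            (Nat.find_spec h7).2, rfl⟩
        obtain ⟨s', h6⟩ := h6
        have h7 := far h6 h5 (h2.trans k2.symm)
        have h8 := cl_le' s'
        have h9 : r ≤ e := by rw [g5]; exact etl_ge r w
        have h10 : etl tl r' w ≤ 5 * cl s' := etl_le r' w h6.1
        rcases k3 with k3 | ⟨s'', k4, k5, k6⟩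
        · omega
        · obtain ⟨_, h11⟩ := Lf_uniq h6 k5 rfl
          rw [← h11] at k6
          omega
    · rintro ⟨s, r, e⟩ _ ⟨s', r', e'⟩ _ w ⟨h1, h2, h3⟩ ⟨g1, g2, g3⟩ h4
      simp only at h1 h2 h3 g1 g2 g3 h4
      have hrr : r = r' := by
        rcases lt_trichotomy r r' with h5 | h5 | h5
        · exfalso
          have h6 := far h1 h5 (g2.trans h2.symm)
          have h7 := cl_le' s
          have h8 : r' ≤ e' := by rw [g1.2.2.2.2]; exact etl_ge r' w
          omega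
        · exact h5
        · exfalso
          have h6 := far g1 h5 (h2.trans g2.symm)
          have h7 := cl_le' s'
          have h8 : r ≤ e := by rw [h1.2.2.2.2]; exact etl_ge r w
          omega
      obtain ⟨h5, h6⟩ := Lf_uniq h1 g1 hrr
      rw [h5, h6, hrr]
    · rintro ⟨s, r, e⟩ hx
      simp only [hR3, Finset.mem_product, mem_range] at hx ⊢
      have := cl_le (n := n) (s := s) (by omega)
      omega
  have h1 : ∑ s ∈ range (5 * n + 1), ∑ r ∈ range (5 * n + 1), ∑ e ∈ range (5 * n + 1), P.E (fun w =>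
      ind (Lf en tl r e s w) * (sp P (T e) (A e) w - sp P (T e) (A (5 * cl s)) w)) =
      ∑ j ∈ range 5, ∑ x ∈ R3, P.E (fun w => ind (Lf en tl x.2.1 x.2.2 x.1 w ∧ idx en x.2.1 w % 5 = j ∧
      x.2.2 < 5 * cl x.1) * (sp P (T x.2.2) (A x.2.2) w - sp P (T x.2.2) (A (5 * cl x.1)) w)) := by
    conv_rhs => rw [Finset.sum_comm]
    rw [hR3, Finset.sum_product]
    refine Finset.sum_congr rfl fun s _ => ?_
    rw [Finset.sum_product]
    refine Finset.sum_congr rfl fun r _ => Finset.sum_congr rfl fun e _ => ?_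
    rw [← FP.E_sum]
    refine P.E_congr fun w _ => ?_
    simp only
    by_cases hL : Lf en tl r e s w
    · rcases (Lf_le hL).lt_or_eq with h2 | h2
      · rw [Finset.sum_eq_single (idx en r w % 5)]
        · rw [ind_of hL, ind_of (show Lf en tl r e s w ∧ idx en r w % 5 = idx en r w % 5 ∧ e < 5 * cl s from
            ⟨hL, rfl, h2⟩)]
        · intro j _ hj
          rw [ind_not (fun hh => hj hh.2.1.symm), zero_mul]
        · intro hh
          exact absurd (mem_range.2 (Nat.mod_lt _ (by norm_num))) hh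
      · rw [Finset.sum_eq_zero fun j _ => by
          rw [ind_not (fun hh : Lf en tl r e s w ∧ idx en r w % 5 = j ∧ e < 5 * cl s => absurd hh.2.2 (by omega)),
            zero_mul]]
        rw [← h2]
        ring
    · rw [ind_not hL, zero_mul]
      refine (Finset.sum_eq_zero fun j _ => ?_).symm
      rw [ind_not (fun hh => hL hh.1), zero_mul]
  rw [h1]
  refine (Finset.sum_le_sum fun j _ => key j).trans (le_of_eq ?_)
  rw [Finset.sum_const, Finset.card_range, nsmul_eq_mul]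
  norm_num

end win

/-! ## the run -/

section top

variable {X β γ φ υ : Type} [Fintype X] [Fintype β] [Fintype φ] [Nonempty X] [Nonempty β]
variable {D : HD (Fin 3) X β γ φ} {al : ℝ} (h : D.Thick al) (v : ℕ → Finset (Fin 3) → X → (Fin 3 → β) → υ)
variable {dg : ℕ → X → ℝ} {prr : ℕ → Fin 3 → φ → φ} {T : ℕ} {Lam : ℝ} {i : Fin 3}

variable (prr) in
/-- gain at the saturated state `5 t` of the letter of the tables of the state `e` -/
def gdq (i : Fin 3) (t e : ℕ) (w : Pt (Fin 3) X β φ) : ℝ :=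
  dens2 (D.P h t) (D.P h (e / 5)) (bk prr (e / 5) t) (FQ v (e / 5) i) (ZbQ D v e i) (Lw D v t i) w

variable {v}

theorem FQ_Tp (t : ℕ) (i : Fin 3) : FQ (φ := φ) v t i = Tp v t i := rfl

/-- the lower letters of a saturated state -/
theorem ZbQ_sat (t : ℕ) (i : Fin 3) : ZbQ (φ := φ) D v (5 * t) i = Lw D v t i := by
  funext w
  have h1 : ∀ J : Finset (Fin 3), nc (5 * t) J = t + 1 := fun J => by
    unfold nc ncj
    rw [show 5 * t % 5 = 0 by omega, if_neg (Nat.not_lt_zero _)]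
    omega
  have h2 : TP.nn (5 * t) = t := by
    have := nn_add t 0 (by norm_num)
    rwa [add_zero] at this
  unfold ZbQ Lw
  rw [h2]
  have h3 : SL (φ := φ) v (5 * t) = LL (Um v (t + 1)) := by
    funext J w
    unfold SL
    rw [h1]
  rw [h3]

theorem ZbQ_xy {e : ℕ} {i : Fin 3} {a b : Pt (Fin 3) X β φ} (h1 : a.1 = b.1) (h2 : a.2.1 = b.2.1) :
    ZbQ D v e i a = ZbQ D v e i b := by
  have h3 : Lw D v e i a = Lw D v e i b := Lw_xy h1 h2
  rw [← ZbQ_sat] at h3
  exact ZbQ_mono (show e ≤ 5 * e by omega) i a b h3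

theorem ZbQ_bk (e s t : ℕ) (i : Fin 3) (w : Pt (Fin 3) X β φ) : ZbQ D v e i (bk prr s t w) = ZbQ D v e i w :=
  ZbQ_xy (bk_fst s t w) (bk_pts s t w)

theorem ZbQ_Lw {e t : ℕ} (h : e ≤ 5 * t) (i : Fin 3) : Fac (Lw (φ := φ) D v t i) (ZbQ D v e i) := by
  rw [← ZbQ_sat]
  exact ZbQ_mono h i

/-! ### the space of the last time -/

/-- letters of all states on the space of the time `T` -/
def Tq (v : ℕ → Finset (Fin 3) → X → (Fin 3 → β) → υ) (prr : ℕ → Fin 3 → φ → φ) (T : ℕ) (i : Fin 3) (q : ℕ)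
    (w : Pt (Fin 3) X β φ) : List υ × (Fin 3 → Option φ) := TT v prr T i (q / 5) w

/-- lower letters of all states on the space of the time `T` -/
def Aq (D : HD (Fin 3) X β γ φ) (v : ℕ → Finset (Fin 3) → X → (Fin 3 → β) → υ) (T : ℕ) (i : Fin 3) (q : ℕ)
    (w : Pt (Fin 3) X β φ) :
    (Finset (Fin 3) → Option (List υ × (Fin 3 → Option φ))) × ((Fin 3 → Option β) × (γ × (Fin 3 → γ))) :=
  ZbQ D v (min q (5 * T)) i w

theorem Aq_filt (i : Fin 3) : Filt (fun q => Aq (φ := φ) D v T i q) := by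
  intro q a b hab
  exact ZbQ_mono (show min q (5 * T) ≤ min (q + 1) (5 * T) by omega) i a b hab

theorem Aq_sat (t : ℕ) (i : Fin 3) : Aq (φ := φ) D v T i (5 * t) = AT D v T i t := by
  unfold Aq AT
  rw [← ZbQ_sat, show min (5 * t) (5 * T) = 5 * min t T by omega]

theorem Tq_step (i : Fin 3) (q : ℕ) :
    Fac (fun w => (Tq v prr T i (q + 1) w, Aq (φ := φ) D v T i (q + 1) w)) (Tq v prr T i q) := by
  intro a b hab
  have h1 : Tq v prr T i (q + 1) a = Tq v prr T i (q + 1) b := (Prod.mk.inj hab).1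
  have h2 : Aq (φ := φ) D v T i (q + 1) a = Aq D v T i (q + 1) b := (Prod.mk.inj hab).2
  by_cases hq : (q + 1) / 5 = q / 5
  · unfold Tq at h1 ⊢
    rwa [hq] at h1
  · obtain ⟨t, rfl⟩ : ∃ t, q = 5 * t + 4 := ⟨q / 5, by omega⟩
    rw [show 5 * t + 4 + 1 = 5 * (t + 1) by omega] at h1 h2
    rw [Aq_sat] at h2
    unfold Tq at h1 ⊢
    rw [show 5 * (t + 1) / 5 = t + 1 by omega] at h1
    rw [show (5 * t + 4) / 5 = t by omega]
    exact TT_step (D := D) (v := v) (prr := prr) (T := T) i t a b (Prod.ext h1 h2)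

/-- **the gain is the gain of a window** -/
theorem gdq_eq (H : D.Hyp dg prr al T Lam) (i : Fin 3) {e t : ℕ} (het : e ≤ 5 * t) (ht : t ≤ T)
    {w : Pt (Fin 3) X β φ} (hw : (D.P h T).p w ≠ 0) :
    gdq h v prr i t e (bk prr t T w) = sp (D.P h T) (Tq v prr T i e) (Aq D v T i e) w -
      sp (D.P h T) (Tq v prr T i e) (Aq D v T i (5 * t)) w := by
  have hst : e / 5 ≤ t := by omega
  have pt := pul_bk h H ht le_rfl
  have ps := pul_bk h H (hst.trans ht) le_rfl
  have hms : min (e / 5) T = e / 5 := by omega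
  have hme : min e (5 * T) = e := by omega
  have hmt : min (5 * t) (5 * T) = 5 * t := by omega
  have e1 : (D.P h t).m (fun u => (FQ v (e / 5) i (bk prr (e / 5) t u), Lw D v t i u)) (bk prr t T w) =
      (D.P h T).m (fun u => (Tq v prr T i e u, Aq D v T i (5 * t) u)) w := by
    rw [← pt.m]
    congr 1
    funext u
    unfold Tq TT Aq
    rw [hms, hmt, bk_bk hst ht, ZbQ_sat, Lw_bk, FQ_Tp]
  have e2 : (D.P h t).m (Lw D v t i) (bk prr t T w) = (D.P h T).m (Aq D v T i (5 * t)) w := by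
    rw [← pt.m]
    congr 1
    funext u
    unfold Aq
    rw [hmt, ZbQ_sat, Lw_bk]
  have e3 : (D.P h (e / 5)).m (fun u => (FQ v (e / 5) i u, ZbQ D v e i u)) (bk prr (e / 5) t (bk prr t T w)) =
      (D.P h T).m (fun u => (Tq v prr T i e u, Aq D v T i e u)) w := by
    rw [bk_bk hst ht, ← ps.m]
    congr 1
    funext u
    unfold Tq TT Aq
    rw [hms, hme, ZbQ_bk, FQ_Tp]
  have e4 : (D.P h (e / 5)).m (ZbQ D v e i) (bk prr (e / 5) t (bk prr t T w)) = (D.P h T).m (Aq D v T i e) w := by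
    rw [bk_bk hst ht, ← ps.m]
    congr 1
    funext u
    unfold Aq
    rw [hme, ZbQ_bk]
  have p1 := ((D.P h T).m_pos (fun u => (Tq v prr T i e u, Aq D v T i (5 * t) u)) hw).ne'
  have p2 := ((D.P h T).m_pos (Aq D v T i (5 * t)) hw).ne'
  have p3 := ((D.P h T).m_pos (fun u => (Tq v prr T i e u, Aq D v T i e u)) hw).ne'
  have p4 := ((D.P h T).m_pos (Aq D v T i e) hw).ne'
  unfold gdq dens2 sp
  rw [e1, e2, e3, e4, Real.log_div (div_ne_zero p1 p2) (div_ne_zero p3 p4), Real.log_div p1 p2, Real.log_div p3 p4]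
  ring

/-- an event of the hidden point and the points, on the last space -/
theorem termq_eq (H : D.Hyp dg prr al T Lam) {e t : ℕ} (het : e ≤ 5 * t) (ht : t ≤ T)
    {B' : Pt (Fin 3) X β φ → Prop} (hB' : ∀ a b : Pt (Fin 3) X β φ, a.1 = b.1 → a.2.1 = b.2.1 → B' a = B' b) :
    (D.P h t).E (fun w => ind (B' w) * gdq h v prr i t e w) =
      (D.P h T).E (fun w => ind (B' w) * (sp (D.P h T) (Tq v prr T i e) (Aq D v T i e) w -
      sp (D.P h T) (Tq v prr T i e) (Aq D v T i (5 * t)) w)) := by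
  rw [← (pul_bk h H ht le_rfl).E]
  refine (D.P h T).E_congr fun w hw => ?_
  rw [hB' (bk prr t T w) w (bk_fst t T w) (bk_pts t T w), gdq_eq h H i het ht hw]

/-- the cost of the letters of all states -/
theorem costq_le (H : D.Hyp dg prr al T Lam) {v : ℕ → Finset (Fin 3) → X → (Fin 3 → β) → Pt (Fin 3) X β φ} {n N1 : ℝ}
    (R : Run h (pr3 (Fin 3) n N1) (SS1 (Fin 3)) (AdmDep D) v) (hn : 1 ≤ n) (hN1 : 1 ≤ N1) (i : Fin 3) :
    (D.P h T).Hc (Tq v prr T i 0) (Aq D v T i 0) + ∑ q ∈ range (5 * T), (D.P h T).Hc (Tq v prr T i (q + 1))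
      (fun w => (Tq v prr T i q w, Aq D v T i (q + 1) w)) ≤ Lam := by
  have h3 : (D.P h T).Hc (Tq v prr T i 0) (Aq D v T i 0) ≤ birth0 h i := by
    have e1 : (D.P h T).Hc (Tq v prr T i 0) (Aq D v T i 0) = (D.P h 0).Hc (Tp v 0 i) (Lw D v 0 i) := by
      rw [← Hc_pul (pul_bk h H (Nat.zero_le T) le_rfl)]
      have a1 : Tq v prr T i 0 = fun u : Pt (Fin 3) X β φ => Tp v 0 i (bk prr 0 T u) := by
        funext u
        unfold Tq TT
        rw [show min (0 / 5) T = 0 by omega]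
      have a2 : Aq D v T i 0 = fun u : Pt (Fin 3) X β φ => Lw D v 0 i (bk prr 0 T u) := by
        funext u
        unfold Aq
        rw [show min 0 (5 * T) = 5 * 0 by omega, ZbQ_sat, Lw_bk]
      rw [a1, a2]
    rw [e1]
    exact start_le h R hn hN1 i
  have h4 : ∀ t, t < T → (D.P h T).Hc (TT v prr T i (t + 1)) (fun w => (TT v prr T i t w, AT D v T i (t + 1) w)) ≤
      birth h prr t i := by
    intro t ht'
    have e1 : (D.P h T).Hc (TT v prr T i (t + 1)) (fun w => (TT v prr T i t w, AT D v T i (t + 1) w)) =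
        (D.P h (t + 1)).Hc (Tp v (t + 1) i) (fun w => (Tp v t i (old prr t w), Lw D v (t + 1) i w)) := by
      rw [← Hc_pul (pul_bk h H (show t + 1 ≤ T by omega) le_rfl)]
      have a1 : TT v prr T i (t + 1) = fun u : Pt (Fin 3) X β φ => Tp v (t + 1) i (bk prr (t + 1) T u) := by
        funext u
        unfold TT
        rw [show min (t + 1) T = t + 1 by omega]
      have a2 : (fun w : Pt (Fin 3) X β φ => (TT v prr T i t w, AT D v T i (t + 1) w)) = fun u =>
          (Tp v t i (old prr t (bk prr (t + 1) T u)), Lw D v (t + 1) i (bk prr (t + 1) T u)) := by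
        funext u
        unfold TT AT
        rw [show min (t + 1) T = t + 1 by omega, show min t T = t by omega, Lw_bk, ← bk_succ,
          bk_bk (Nat.le_succ t) (by omega)]
      rw [a1, a2]
    rw [e1]
    exact birth_step h R hn hN1 t i
  -- inside a level the letter does not change
  have h5 : ∀ q, (q + 1) % 5 ≠ 0 → (D.P h T).Hc (Tq v prr T i (q + 1))
      (fun w => (Tq v prr T i q w, Aq D v T i (q + 1) w)) = 0 := by
    intro q hq
    have e1 : Tq v prr T i (q + 1) = Tq v prr T i q := by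
      unfold Tq
      rw [show (q + 1) / 5 = q / 5 by omega]
    rw [e1]
    refine le_antisymm ?_ ((D.P h T).Hc_nonneg _ _)
    have g1 := (D.P h T).Hc_mono (X := fun _ => ()) (X' := Tq v prr T i q)
      (fun w => (Tq v prr T i q w, Aq (φ := φ) D v T i (q + 1) w))
      (fun a b hab => (Prod.mk.inj (Prod.mk.inj hab).2).1)
    have g2 := (D.P h T).Hc_le_H (fun _ => ()) (fun w => (Tq v prr T i q w, Aq (φ := φ) D v T i (q + 1) w))
    rw [FP.H_const] at g2
    exact g1.trans g2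
  have h6 : ∀ m, m ≤ T → ∑ q ∈ range (5 * m), (D.P h T).Hc (Tq v prr T i (q + 1))
      (fun w => (Tq v prr T i q w, Aq D v T i (q + 1) w)) ≤ ∑ t ∈ range m, birth h prr t i := by
    intro m
    induction m with
    | zero => intro _; simp
    | succ m ih =>
      intro hm
      rw [show 5 * (m + 1) = 5 * m + 1 + 1 + 1 + 1 + 1 by omega, Finset.sum_range_succ, Finset.sum_range_succ,
        Finset.sum_range_succ, Finset.sum_range_succ, Finset.sum_range_succ, Finset.sum_range_succ,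
        h5 (5 * m) (by omega), h5 (5 * m + 1) (by omega), h5 (5 * m + 1 + 1) (by omega),
        h5 (5 * m + 1 + 1 + 1) (by omega)]
      have h7 := ih (by omega)
      have h8 : (D.P h T).Hc (Tq v prr T i (5 * m + 1 + 1 + 1 + 1 + 1))
          (fun w => (Tq v prr T i (5 * m + 1 + 1 + 1 + 1) w, Aq D v T i (5 * m + 1 + 1 + 1 + 1 + 1) w)) ≤
          birth h prr m i := by
        have e2 : 5 * m + 1 + 1 + 1 + 1 + 1 = 5 * (m + 1) := by omega
        rw [e2, Aq_sat]
        unfold Tq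
        rw [show 5 * (m + 1) / 5 = m + 1 by omega, show (5 * m + 1 + 1 + 1 + 1) / 5 = m by omega]
        exact h4 m (by omega)
      linarith
  have h7 := birth_le h H i
  have h8 := h6 T le_rfl
  linarith

section pay

variable {v : ℕ → Finset (Fin 3) → X → (Fin 3 → β) → Pt (Fin 3) X β φ} {n N1 : ℝ} {K0 : Finset (Fin 3)}

/-- **PAYMENT AT ONE END** with the tables of the state `e` -/
theorem payq_end (H : D.Hyp dg prr al T Lam) (R : Run h (pr3 (Fin 3) n N1) (SS1 (Fin 3)) (AdmDep D) v) (hn : 1 ≤ n)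
    (hN1 : 1 ≤ N1) (hK : K0 ⊂ univ.erase i) {t e : ℕ} (ht : t ≤ T) (het : e ≤ 5 * t)
    {Th : Type*} {ν : Type} [Fintype Th] (Rc : FP Th) {G : Finset (Fin 3) → Pt (Fin 3) X β φ × Th → ν} (hGd : DepC D t G)
    (hG : On K0 G) {psi0 : (Finset (Fin 3) → Option ν) → Pt (Fin 3) X β φ → ℝ}
    (hpsi : ∀ r, Fac (fun w => (FQ v (e / 5) i w, ZbQ D v e i w)) (psi0 r))
    {E : Pt (Fin 3) X β φ × Th → Prop} (hE : EvC D t K0 E)
    (hone : ∀ w : Pt (Fin 3) X β φ × Th, (D.P h t).p w.1 ≠ 0 → Rc.p w.2 ≠ 0 → E w →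
      (D.P h (e / 5)).ce (ZbQ D v e i) (fun u => Real.exp (psi0 (lo G (univ.erase i) w) u))
        (bk prr (e / 5) t w.1) ≤ 1)
    {c : ℝ} (hc : (FP.pr (D.P h t) Rc).Pr E ≠ 0 → ∑ J ∈ SS1 (Fin 3), pr3 (Fin 3) n N1 J *
      cost ((FP.pr (D.P h t) Rc).cond E) (fun I w => BB D t I w.1) (fun I w => LL (Um v (t + 1)) I w.1) G J ≤ c) :
    pr3 (Fin 3) n N1 (univ.erase i) * (FP.pr (D.P h t) Rc).E (fun w => ind (E w) *
        psi0 (lo G (univ.erase i) w) (bk prr (e / 5) t w.1)) ≤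
      2 * pr3 (Fin 3) n N1 K0 * (FP.pr (D.P h t) Rc).Hc E (fun w => Cls D v t K0 w.1) +
        2 * c * (FP.pr (D.P h t) Rc).Pr E +
      pr3 (Fin 3) n N1 (univ.erase i) * (FP.pr (D.P h t) Rc).E (fun w => ind (E w) * gdq h v prr i t e w.1) := by
  have hN : ∀ J ∈ SS1 (Fin 3), 0 ≤ pr3 (Fin 3) n N1 J := fun J _ => zero_le_one.trans (pr3_one hn hN1 J)
  have hJ0 : univ.erase i ∈ above (SS1 (Fin 3)) K0 := mem_above.2 ⟨mem_SS1.2 (ne_univ i), hK⟩
  have hKS : K0 ∈ SS1 (Fin 3) := mem_SS1.2 fun hh => by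
    rw [hh] at hK
    exact hK.2 (Finset.subset_univ _)
  have hs := R.dep hN t
  have hst : e / 5 ≤ t := by omega
  refine pay_old (h := h) (U := Um v (t + 1)) (t := t) hs hN hKS hJ0 Rc hGd hG (ι := Unit) (sel := fun _ => ())
    (fun _ _ _ => rfl) (P0 := fun _ => D.P h (e / 5)) (π := fun _ => bk prr (e / 5) t)
    (X0 := fun _ => FQ v (e / 5) i) (Z0 := fun _ => ZbQ D v e i) ?_ ?_ ?_ (psi0 := fun _ => psi0)
    (fun _ r => hpsi r) hE hone hc
  · intro w hw
    exact (pul_bk h H hst ht).ne hw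
  · intro s a b hab
    exact Tp_bk hst i (Prod.mk.inj hab).1
  · intro s a b hab
    show ZbQ D v e i (bk prr (e / 5) t a) = ZbQ D v e i (bk prr (e / 5) t b)
    rw [ZbQ_bk, ZbQ_bk]
    exact ZbQ_Lw het i a b hab

/-- **the localised gain** -/
theorem payq_loc (H : D.Hyp dg prr al T Lam) (R : Run h (pr3 (Fin 3) n N1) (SS1 (Fin 3)) (AdmDep D) v) (hn : 1 ≤ n)
    (hN1 : 1 ≤ N1) (hK : K0 ⊂ univ.erase i) {t e : ℕ} (ht : t ≤ T) (het : e ≤ 5 * t)
    {Th : Type*} [Fintype Th] (Rc : FP Th) {B' : Pt (Fin 3) X β φ → Prop} (hB' : Fac (Cls D v t K0) B')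
    {E : Pt (Fin 3) X β φ × Th → Prop} (hE : EvC D t K0 E) (hEB : ∀ w, E w → B' w.1) :
    pr3 (Fin 3) n N1 (univ.erase i) * (FP.pr (D.P h t) Rc).E (fun w => ind (E w) * gdq h v prr i t e w.1) ≤
      pr3 (Fin 3) n N1 (univ.erase i) * (D.P h t).E (fun w => ind (B' w) * gdq h v prr i t e w) +
        2 * pr3 (Fin 3) n N1 K0 * (FP.pr (D.P h t) Rc).Hc E (fun w => Cls D v t K0 w.1) := by
  have hBE : ∀ a b : Pt (Fin 3) X β φ, a.1 = b.1 → BB D t K0 a = BB D t K0 b → B' a = B' b := by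
    intro a b h1 h2
    refine hB' a b (Prod.ext (le_eq.2 fun I hI => ?_) h2)
    rw [LL_eq]
    rw [BB_eq] at h2
    refine ⟨?_, fun l hl => ?_⟩
    · rw [h1]
      exact Um_codes R.codes (le_refl (t + 1)) I b.1 (fun j hj => h2.1 j (hI hj)) h2.2.2
    · exfalso
      have h3 : univ.erase l ⊆ K0 := hl ▸ hI
      have h4 : univ.erase l ⊂ univ.erase i := lt_of_le_of_lt h3 hK
      have h5 := Finset.card_lt_card h4
      rw [Finset.card_erase_of_mem (mem_univ _), Finset.card_erase_of_mem (mem_univ _)] at h5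
      exact lt_irrefl _ h5
  have key := payq_end h H R hn hN1 hK ht het Rc (G := fun _ _ => ()) (fun _ _ _ _ _ _ _ => rfl) (fun _ _ _ _ => rfl)
    (psi0 := fun _ _ => 0) (fun _ _ _ _ => rfl) (E := fun w => B' w.1 ∧ ¬ E w)
    (fun a b hab => by
      have h1 : E a = E b := hE a b hab
      have h2 := Prod.mk.inj hab
      have h3 := Prod.mk.inj h2.1
      show (B' a.1 ∧ ¬ E a) = (B' b.1 ∧ ¬ E b)
      rw [h1, hBE a.1 b.1 h3.1 h3.2]) (fun w hw _ _ => by
      simp only [Real.exp_zero]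
      rw [FP.ce_const _ _ _ ((pul_bk h H (show e / 5 ≤ t by omega) ht).ne hw)]) (c := 0) (fun _ => by
      refine le_of_eq (Finset.sum_eq_zero fun J _ => ?_)
      rw [cost_const (fun _ _ => rfl), mul_zero])
  have e2 : (FP.pr (D.P h t) Rc).Hc (fun w => B' w.1 ∧ ¬ E w) (fun w => Cls D v t K0 w.1) =
      (FP.pr (D.P h t) Rc).Hc E (fun w => Cls D v t K0 w.1) := by
    refine Hc_congr_supp (fun _ _ _ _ => Iff.rfl) fun a b _ _ hab => ?_
    have h1 : B' a.1 = B' b.1 := hB' a.1 b.1 hab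
    constructor
    · intro hh
      have h2 : (B' a.1 ∧ ¬ E a) = (B' b.1 ∧ ¬ E b) := hh
      refine propext ⟨fun h3 => ?_, fun h3 => ?_⟩
      · by_contra h4
        have h5 : B' b.1 ∧ ¬ E b := ⟨h1 ▸ hEB a h3, h4⟩
        rw [← h2] at h5
        exact h5.2 h3
      · by_contra h4
        have h5 : B' a.1 ∧ ¬ E a := ⟨h1.symm ▸ hEB b h3, h4⟩
        rw [h2] at h5
        exact h5.2 h3
    · intro hh
      have h2 : E a = E b := hh
      show (B' a.1 ∧ ¬ E a) = (B' b.1 ∧ ¬ E b)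
      rw [h1, h2]
  rw [e2] at key
  have e1 : (FP.pr (D.P h t) Rc).E (fun w => ind (B' w.1 ∧ ¬ E w) * gdq h v prr i t e w.1) =
      (D.P h t).E (fun w => ind (B' w) * gdq h v prr i t e w) -
      (FP.pr (D.P h t) Rc).E (fun w => ind (E w) * gdq h v prr i t e w.1) := by
    rw [← lift_E (D.P h t) Rc (fun w => ind (B' w) * gdq h v prr i t e w), ← FP.E_sub]
    refine FP.E_congr _ fun w _ => ?_
    by_cases hw : E w
    · rw [ind_of hw, ind_of (hEB w hw), ind_not (show ¬ (B' w.1 ∧ ¬ E w) from fun hh => hh.2 hw)]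
      ring
    · by_cases hw2 : B' w.1
      · rw [ind_not hw, ind_of hw2, ind_of (show B' w.1 ∧ ¬ E w from ⟨hw2, hw⟩)]
        ring
      · rw [ind_not hw, ind_not hw2, ind_not (show ¬ (B' w.1 ∧ ¬ E w) from fun hh => hw2 hh.1)]
        ring
  rw [e1] at key
  simp only [mul_zero, FP.E_const, zero_mul, add_zero] at key
  linarith

/-- the mean gain on an event of the lower letters is nonnegative -/
theorem payq_nn (H : D.Hyp dg prr al T Lam) {t e : ℕ} (ht : t ≤ T) (het : e ≤ 5 * t)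
    {B' : Pt (Fin 3) X β φ → Prop} (hB' : Fac (Lw D v t i) B') :
    0 ≤ (D.P h t).E (fun w => ind (B' w) * gdq h v prr i t e w) := by
  rw [termq_eq h H het ht (fun a b h1 h2 => hB' a b (Lw_xy h1 h2))]
  refine EpG.gain_loc (P := D.P h T) (Tq v prr T i e) ((Aq_filt (D := D) (v := v) (T := T) (φ := φ) i).le het) ?_
  intro a b hab
  rw [Aq_sat] at hab
  unfold AT at hab
  rw [show min t T = t by omega] at hab
  exact hB' a b hab

/-- **THE GAINS OF ALL LIVES** -/
theorem payq_sum (H : D.Hyp dg prr al T Lam) (R : Run h (pr3 (Fin 3) n N1) (SS1 (Fin 3)) (AdmDep D) v) (hn : 1 ≤ n)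
    (hN1 : 1 ≤ N1) {en tl : ℕ → Pt (Fin 3) X β φ → Prop} (hen : ∀ q ≤ 5 * T, Fac (ZbQ D v q i) (en q))
    (htl : ∀ q ≤ 5 * T, Fac (ZbQ D v q i) (tl q)) :
    ∑ s ∈ range (5 * T + 1), ∑ r ∈ range (5 * T + 1), ∑ e ∈ range (5 * T + 1),
      (D.P h (cl s)).E (fun w => ind (Lf en tl r e s w) * gdq h v prr i (cl s) e w) ≤ 5 * Lam := by
  set en' : ℕ → Pt (Fin 3) X β φ → Prop := fun q w => q ≤ 5 * T ∧ en q w with hen'
  set tl' : ℕ → Pt (Fin 3) X β φ → Prop := fun q w => q ≤ 5 * T ∧ tl q w with htl'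
  have fen : ∀ q, Fac (Aq (φ := φ) D v T i q) (en' q) := by
    intro q a b hab
    by_cases hq : q ≤ 5 * T
    · unfold Aq at hab
      rw [show min q (5 * T) = q by omega] at hab
      have h1 := hen q hq a b hab
      show (q ≤ 5 * T ∧ en q a) = (q ≤ 5 * T ∧ en q b)
      rw [h1]
    · exact propext ⟨fun hh => absurd hh.1 hq, fun hh => absurd hh.1 hq⟩
  have ftl : ∀ q, Fac (Aq (φ := φ) D v T i q) (tl' q) := by
    intro q a b hab
    by_cases hq : q ≤ 5 * T
    · unfold Aq at hab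
      rw [show min q (5 * T) = q by omega] at hab
      have h1 := htl q hq a b hab
      show (q ≤ 5 * T ∧ tl q a) = (q ≤ 5 * T ∧ tl q b)
      rw [h1]
    · exact propext ⟨fun hh => absurd hh.1 hq, fun hh => absurd hh.1 hq⟩
  have h1 := lives_le (P := D.P h T) (T := fun q => Tq v prr T i q) (A := fun q => Aq D v T i q) (Aq_filt i) (Tq_step i) fen
    ftl T
  have h2 := costq_le h H R hn hN1 i
  have eL : ∀ s ≤ 5 * T, ∀ r e w, Lf en tl r e s w = Lf en' tl' r e s w := by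
    intro s hs r e w
    have e1 : ∀ q ≤ 5 * T, en q w = en' q w := fun q hq => propext ⟨fun hh => ⟨hq, hh⟩, fun hh => hh.2⟩
    unfold Lf
    refine propext (and_congr_right fun h3 => ?_)
    have e2 : etl tl r w = etl tl' r w := by
      unfold etl
      by_cases h4 : tl r w
      · rw [if_pos h4, if_pos (show tl' r w from ⟨by omega, h4⟩)]
      · rw [if_neg h4, if_neg (fun hh : tl' r w => h4 hh.2)]
    rw [e1 r (by omega), e1 s hs, e2]
    refine and_congr_right fun _ => and_congr_left fun _ => ?_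
    refine forall_congr' fun x => forall_congr' fun _ => forall_congr' fun h5 => ?_
    rw [e1 x (by omega)]
  have h3 : ∑ s ∈ range (5 * T + 1), ∑ r ∈ range (5 * T + 1), ∑ e ∈ range (5 * T + 1),
      (D.P h (cl s)).E (fun w => ind (Lf en tl r e s w) * gdq h v prr i (cl s) e w) =
      ∑ s ∈ range (5 * T + 1), ∑ r ∈ range (5 * T + 1), ∑ e ∈ range (5 * T + 1), (D.P h T).E (fun w =>
        ind (Lf en' tl' r e s w) * (sp (D.P h T) (Tq v prr T i e) (Aq D v T i e) w -
          sp (D.P h T) (Tq v prr T i e) (Aq D v T i (5 * cl s)) w)) := by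
    refine Finset.sum_congr rfl fun s hs => Finset.sum_congr rfl fun r _ => Finset.sum_congr rfl fun e _ => ?_
    have hs' : s ≤ 5 * T := Nat.lt_succ_iff.1 (mem_range.1 hs)
    by_cases he : e ≤ 5 * cl s
    · rw [termq_eq h H he (cl_le hs') ?_]
      · refine (D.P h T).E_congr fun w _ => ?_
        rw [eL s hs' r e w]
      · intro a b g1 g2
        have g3 : ∀ q, Aq (φ := φ) D v T i q a = Aq D v T i q b := fun q => ZbQ_xy g1 g2
        rw [eL s hs' r e a, eL s hs' r e b]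
        exact Lf_fac (A := fun q => Aq (φ := φ) D v T i q) (Aq_filt i) fen ftl r e (le_refl s) a b (g3 s)
    · have h4 : ∀ w, ¬ Lf en tl r e s w := fun w hh => he (Lf_le hh)
      have h5 : ∀ w, ¬ Lf en' tl' r e s w := fun w hh => he (Lf_le hh)
      rw [FP.E_congr _ (g := fun _ => (0 : ℝ)) (fun w _ => by rw [ind_not (h4 w), zero_mul]),
        FP.E_congr (D.P h T) (g := fun _ => (0 : ℝ)) (fun w _ => by rw [ind_not (h5 w), zero_mul]), FP.E_const,
        FP.E_const]
  rw [h3]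
  have h6 : (5 : ℝ) * _ ≤ 5 * Lam := mul_le_mul_of_nonneg_left h2 (by norm_num)
  exact h1.trans h6

/-- **ALL PAYMENTS OF ALL LIVES** -/
theorem payq_all (H : D.Hyp dg prr al T Lam) (R : Run h (pr3 (Fin 3) n N1) (SS1 (Fin 3)) (AdmDep D) v) (hn : 1 ≤ n)
    (hN1 : 1 ≤ N1) (hK : K0 ⊂ univ.erase i) {en tl : ℕ → Pt (Fin 3) X β φ → Prop}
    (hen : ∀ q ≤ 5 * T, Fac (ZbQ D v q i) (en q)) (htl : ∀ q ≤ 5 * T, Fac (ZbQ D v q i) (tl q))
    (hL : ∀ s ≤ 5 * T, ∀ r e, Fac (Cls D v (cl s) K0) (Lf en tl r e s))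
    {Th : ℕ → ℕ → ℕ → Type} {ν : ℕ → ℕ → ℕ → Type} [∀ s r e, Fintype (Th s r e)] (Rc : ∀ s r e, FP (Th s r e))
    {G : ∀ s r e, Finset (Fin 3) → Pt (Fin 3) X β φ × Th s r e → ν s r e}
    (hGd : ∀ s ≤ 5 * T, ∀ r e, DepC D (cl s) (G s r e)) (hG : ∀ s r e, On K0 (G s r e))
    {psi0 : ∀ s r e, (Finset (Fin 3) → Option (ν s r e)) → Pt (Fin 3) X β φ → ℝ}
    (hpsi : ∀ s ≤ 5 * T, ∀ r e, ∀ x, Fac (fun w => (FQ v (e / 5) i w, ZbQ D v e i w)) (psi0 s r e x))
    {E : ∀ s r e, Pt (Fin 3) X β φ × Th s r e → Prop} (hE : ∀ s ≤ 5 * T, ∀ r e, EvC D (cl s) K0 (E s r e))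
    (hEB : ∀ s ≤ 5 * T, ∀ r e w, E s r e w → Lf en tl r e s w.1)
    (hone : ∀ s ≤ 5 * T, ∀ r e, ∀ w : Pt (Fin 3) X β φ × Th s r e, (D.P h (cl s)).p w.1 ≠ 0 → (Rc s r e).p w.2 ≠ 0 →
      E s r e w → (D.P h (e / 5)).ce (ZbQ D v e i) (fun u => Real.exp (psi0 s r e (lo (G s r e) (univ.erase i) w) u))
        (bk prr (e / 5) (cl s) w.1) ≤ 1)
    {c : ℕ → ℕ → ℕ → ℝ} (hc : ∀ s ≤ 5 * T, ∀ r e, (FP.pr (D.P h (cl s)) (Rc s r e)).Pr (E s r e) ≠ 0 →
      ∑ J ∈ SS1 (Fin 3), pr3 (Fin 3) n N1 J * cost ((FP.pr (D.P h (cl s)) (Rc s r e)).cond (E s r e))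
        (fun I w => BB D (cl s) I w.1) (fun I w => LL (Um v (cl s + 1)) I w.1) (G s r e) J ≤ c s r e)
    {th : ℝ} (ht : 0 < th) (ht1 : th ≤ 1) :
    pr3 (Fin 3) n N1 (univ.erase i) * ∑ s ∈ range (5 * T + 1), ∑ r ∈ range (5 * T + 1), ∑ e ∈ range (5 * T + 1),
      (FP.pr (D.P h (cl s)) (Rc s r e)).E (fun w => ind (E s r e w) *
        psi0 s r e (lo (G s r e) (univ.erase i) w) (bk prr (e / 5) (cl s) w.1)) ≤
      pr3 (Fin 3) n N1 (univ.erase i) * (5 * Lam) +
        ∑ s ∈ range (5 * T + 1), ∑ r ∈ range (5 * T + 1), ∑ e ∈ range (5 * T + 1),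
          ((4 * pr3 (Fin 3) n N1 K0 * (Real.log (1 / th) + 1) + 2 * c s r e) *
              (FP.pr (D.P h (cl s)) (Rc s r e)).Pr (E s r e) +
            4 * pr3 (Fin 3) n N1 K0 * Real.sqrt th * (D.P h (cl s)).Pr (Lf en tl r e s)) := by
  have hN0 : 0 ≤ pr3 (Fin 3) n N1 (univ.erase i) := zero_le_one.trans (pr3_one hn hN1 _)
  have hNK : 0 ≤ pr3 (Fin 3) n N1 K0 := zero_le_one.trans (pr3_one hn hN1 _)
  have h1 : ∀ s ∈ range (5 * T + 1), ∀ r ∈ range (5 * T + 1), ∀ e ∈ range (5 * T + 1),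
      pr3 (Fin 3) n N1 (univ.erase i) * (FP.pr (D.P h (cl s)) (Rc s r e)).E (fun w => ind (E s r e w) *
        psi0 s r e (lo (G s r e) (univ.erase i) w) (bk prr (e / 5) (cl s) w.1)) ≤
      pr3 (Fin 3) n N1 (univ.erase i) * (D.P h (cl s)).E (fun w => ind (Lf en tl r e s w) * gdq h v prr i (cl s) e w) +
        ((4 * pr3 (Fin 3) n N1 K0 * (Real.log (1 / th) + 1) + 2 * c s r e) *
              (FP.pr (D.P h (cl s)) (Rc s r e)).Pr (E s r e) +
            4 * pr3 (Fin 3) n N1 K0 * Real.sqrt th * (D.P h (cl s)).Pr (Lf en tl r e s)) := by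
    intro s hs r _ e _
    have hs' : s ≤ 5 * T := Nat.lt_succ_iff.1 (mem_range.1 hs)
    by_cases he : e ≤ 5 * cl s
    · have a1 := payq_end h H R hn hN1 hK (cl_le hs') he (Rc s r e) (hGd s hs' r e) (hG s r e) (hpsi s hs' r e)
        (hE s hs' r e) (hone s hs' r e) (hc s hs' r e)
      have a2 := payq_loc h H R hn hN1 hK (cl_le hs') he (Rc s r e) (hL s hs' r e) (hE s hs' r e) (hEB s hs' r e)
      have a3 := PayR.Hc_ev_thF (FP.pr (D.P h (cl s)) (Rc s r e)) (E s r e) (F := fun w => Lf en tl r e s w.1)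
        (fun w => Cls D v (cl s) K0 w.1) (fun a b hab => hL s hs' r e a.1 b.1 hab) (fun w hw => hEB s hs' r e w hw) ht ht1
      rw [lift_Pr] at a3
      have a4 := mul_le_mul_of_nonneg_left a3 (mul_nonneg (zero_le_four) hNK : (0 : ℝ) ≤ 4 * pr3 (Fin 3) n N1 K0)
      linarith
    · have h4 : ∀ w, ¬ Lf en tl r e s w := fun w hh => he (Lf_le hh)
      have h5 : ∀ w, ¬ E s r e w := fun w hh => h4 w.1 (hEB s hs' r e w hh)
      have e1 : ∀ f : Pt (Fin 3) X β φ × Th s r e → ℝ,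
          (FP.pr (D.P h (cl s)) (Rc s r e)).E (fun w => ind (E s r e w) * f w) = 0 := fun f => by
        rw [FP.E_congr _ (g := fun _ => (0 : ℝ)) (fun w _ => by rw [ind_not (h5 w), zero_mul]), FP.E_const]
      have e2 : (D.P h (cl s)).E (fun w => ind (Lf en tl r e s w) * gdq h v prr i (cl s) e w) = 0 := by
        rw [FP.E_congr _ (g := fun _ => (0 : ℝ)) (fun w _ => by rw [ind_not (h4 w), zero_mul]), FP.E_const]
      have e3 : (FP.pr (D.P h (cl s)) (Rc s r e)).Pr (E s r e) = 0 := by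
        unfold FP.Pr
        rw [FP.E_congr _ (g := fun _ => (0 : ℝ)) (fun w _ => by rw [ind_not (h5 w)]), FP.E_const]
      rw [e1, e2, e3, mul_zero, mul_zero, zero_add, zero_add]
      exact mul_nonneg (mul_nonneg (mul_nonneg zero_le_four hNK) (Real.sqrt_nonneg _)) (FP.Pr_nonneg _ _)
  have h2 := Finset.sum_le_sum fun s hs => Finset.sum_le_sum fun r hr => Finset.sum_le_sum fun e he => h1 s hs r hr e he
  simp only [Finset.sum_add_distrib, ← Finset.mul_sum] at h2 ⊢
  have h3 := mul_le_mul_of_nonneg_left (payq_sum h H R hn hN1 hen htl) hN0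
  linarith

end pay

end top

end

end Pool.Agent.GMH.PayQ
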