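import Pool.Agent.GMH.PayW
import Pool.Agent.GMH.PayC
import Pool.Agent.GMH.TabP2
import Pool.Agent.GMH.MVI
import Pool.Agent.GMH.MVIp
import Pool.Agent.GMH.PayQ

/-!
# GMH/PayI (helper15): PAYMENTS (P2), (P3) OF THE COVERS BY FOREIGN ROWS AND COLUMNS, EXACT VERTEX `j`, TESTED TOP `i`

Space with label tables, sights `sgt D {j} (nn s)` in the world of the start `r` (`cvW` of `GMH/PayW`), a FIXED list `x` of rows for
every start, weights `g r x` (functions of the class `cn tb v j r` of the exact vertex, sum over `x` at most the event `en r` of a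
start).  The life of `r` ends at `nx en (5 T) r` = next start or `5 T`, tables of the state `etl tl r` (RULE L).  The row `a` at the
tables of `e` = event `Hp r e a` and test `fp r e a`, functions of the tested letter and of what it sees (`FQ v (e/5) i`, `ZbQ D v e i`).
* `dlF`, `cde` : decision list of a code (number in the list, bit); the names cost `log (2 M)` each;
* `one_pay`, `end_pay` : one end, fixed number of names, all numbers; `life_one` : one life, the names are absorbed by what is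
  covered (`8 A1 ≤ n c0 lam kap`);
* `gain_all` : the gains of all lives; `pay_lives` : **ALL LIVES** :
  `c0 lam sum_r sum_x cvW .. ≤ 40 Lam + 16 (J + 1) th1^(1/2) / n (number of the lives)`.
-/

set_option autoImplicit false
set_option linter.unusedSectionVars false

namespace Pool.Agent.GMH.PayI

open Finset Pool.Agent.PWZ Pool.Agent.M3 Pool.Agent.GM Pool.Agent.GM.Harm Pool.Agent.GMH
open Pool.Agent.GMH.Gdy Pool.Agent.GMH.GdyN Pool.Agent.GMH.PayW Pool.Agent.GMH.PayS Pool.Agent.GMH.PayQ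
open Pool.Agent.GMH.PayR Pool.Agent.GMH.PayC Pool.Agent.GMH.Dy Pool.Agent.GMH.TP
open Pool.Agent.GMH.GdyR (covL)

noncomputable section

/-! ## lists of rows as codes -/

section code

variable {Ω Ω' R : Type*} [Fintype Ω] [Fintype Ω'] {M : ℕ}

/-- decision list of a code -/
def dlF (Hp : Fin M → Ω' → Prop) (fp : Fin M → Ω' → ℝ) (c : List (Fin M × Bool)) (z : Ω') : ℝ :=
  dl (fun _ i => Hp i) fp (c.map fun q => ((0, q.1), q.2)) z

open Classical in
/-- number of a row in the list -/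
def idx (x : Fin M → R) (a : R) : Option (Fin M) := if h : ∃ i, x i = a then some h.choose else Option.none

theorem idx_spec {x : Fin M → R} {a : R} (h : ∃ i, x i = a) : ∃ i, idx x a = some i ∧ x i = a := by
  unfold idx
  rw [dif_pos h]
  exact ⟨_, rfl, h.choose_spec⟩

/-- code of a list of names -/
def cde (x : Fin M → R) (l : List ((ℕ × R) × Bool)) : List (Fin M × Bool) :=
  l.filterMap fun p => (idx x p.1.2).map fun i => (i, p.2)

theorem cde_len {x : Fin M → R} {l : List ((ℕ × R) × Bool)} (hl : ∀ p ∈ l, ∃ i, x i = p.1.2) :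
    (cde x l).length = l.length := by
  induction l with
  | nil => rfl
  | cons p l ih =>
    obtain ⟨i, hi, _⟩ := idx_spec (hl p List.mem_cons_self)
    have e : cde x (p :: l) = (i, p.2) :: cde x l := by
      unfold cde
      rw [List.filterMap_cons_some (b := (i, p.2)) (by rw [hi]; rfl)]
    rw [e, List.length_cons, List.length_cons, ih fun q hq => hl q (List.mem_cons_of_mem _ hq)]

/-- **the test in terms of the code** -/
theorem dl_code {H : ℕ → R → Ω → Prop} {f : R → Ω → ℝ} {Hp : Fin M → Ω' → Prop} {fp : Fin M → Ω' → ℝ} {x : Fin M → R}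
    {w : Ω} {z : Ω'} (hH : ∀ s i, H s (x i) w ↔ Hp i z) (hf : ∀ i, f (x i) w = fp i z) {l : List ((ℕ × R) × Bool)}
    (hl : ∀ p ∈ l, ∃ i, x i = p.1.2) : dl H f l w = dlF Hp fp (cde x l) z := by
  classical
  induction l with
  | nil => rfl
  | cons p l ih =>
    obtain ⟨i, hi, hxi⟩ := idx_spec (hl p List.mem_cons_self)
    have e : cde x (p :: l) = (i, p.2) :: cde x l := by
      unfold cde
      rw [List.filterMap_cons_some (b := (i, p.2)) (by rw [hi]; rfl)]
    rw [e]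
    unfold dlF
    rw [List.map_cons, dl_cons, dl_cons, ih fun q hq => hl q (List.mem_cons_of_mem _ hq)]
    have h1 := hH p.1.1 i
    rw [hxi] at h1
    have h2 := hf i
    rw [hxi] at h2
    unfold dlF
    by_cases h3 : H p.1.1 p.1.2 w
    · rw [if_pos h3, if_pos (h1.1 h3), h2]
    · rw [if_neg h3, if_neg fun h4 => h3 (h1.2 h4)]

theorem dlF_facV {ω : Type*} {V : Ω' → ω} {Hp : Fin M → Ω' → Prop} {fp : Fin M → Ω' → ℝ}
    (hH : ∀ i, Fac V (Hp i)) (hf : ∀ i, Fac V (fp i)) (c : List (Fin M × Bool)) : Fac V (dlF Hp fp c) := by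
  refine dl_facV (H := fun _ i => Hp i) (f := fp) _ (fun p _ v w e => ?_) (fun p _ => hf p.1.2)
  have h1 := hH p.1.2 v w e
  show Hp p.1.2 v ↔ Hp p.1.2 w
  rw [h1]

/-- codes of length `m` -/
def cds (M m : ℕ) : Finset (List (Fin M × Bool)) := by
  classical
  exact (univ : Finset (Fin m → Fin M × Bool)).image List.ofFn

theorem mem_cds {m : ℕ} {c : List (Fin M × Bool)} (h : c.length = m) : c ∈ cds M m := by
  classical
  subst h
  unfold cds
  exact Finset.mem_image.2 ⟨c.get, mem_univ _, List.ofFn_get c⟩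

theorem card_cds (m : ℕ) : ((cds M m).card : ℝ) ≤ (2 * M) ^ m := by
  classical
  unfold cds
  have h1 : ((univ : Finset (Fin m → Fin M × Bool)).image List.ofFn).card ≤ (M * 2) ^ m := by
    refine Finset.card_image_le.trans ?_
    rw [Finset.card_univ, Fintype.card_fun, Fintype.card_prod, Fintype.card_fin, Fintype.card_fin, Fintype.card_bool]
  have h2 : (((univ : Finset (Fin m → Fin M × Bool)).image List.ofFn).card : ℝ) ≤ ((M * 2) ^ m : ℕ) := by
    exact_mod_cast h1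
  refine h2.trans (le_of_eq ?_)
  push_cast
  ring

end code

/-! ## one end -/

section fin

variable {X β γ φ : Type} [Fintype X] [Fintype β] [Fintype φ] [Nonempty X] [Nonempty β]
variable {D : HD (Fin 3) X β γ φ} {al : ℝ} {h : D.Thick al}
variable {dg : ℕ → X → ℝ} {prr : ℕ → Fin 3 → φ → φ} {T : ℕ} {Lam : ℝ}
variable {v : ℕ → Finset (Fin 3) → X → (Fin 3 → β) → Pt (Fin 3) X β φ} {n N1 : ℝ}
variable {W : Type} [Fintype W] {tb : Tab D prr T W}

/-- a point of the space with tables over a sample point -/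
def up (w0 : Om W X β) (p : Pt (Fin 3) X β φ) : Om W X β := (p.1, w0.2.1, p.2.1)

theorem sgt_up (w0 : Om W X β) (E : Finset (Fin 3)) (k t : ℕ) (w : Om W X β) :
    sgt D E k (up w0 (tb.pt t w)) = sgt D E k w := sgt_eq.2 ⟨rfl, fun _ _ => rfl, fun _ => rfl⟩

theorem cn_up (w0 : Om W X β) (i : Fin 3) (s t : ℕ) (w : Om W X β) :
    (MVI.XLo tb v i s (up w0 (tb.pt t w)), MVI.NPo tb v s (up w0 (tb.pt t w))) = (MVI.XLo tb v i s w, MVI.NPo tb v s w) :=
  rfl

variable (tb) in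
/-- past points on the support -/
theorem bk_pt {s t : ℕ} (hst : s ≤ t) (ht : t ≤ T) {w : Om W X β} (hw : tb.Ps.p w ≠ 0) :
    bk prr s t (tb.pt t w) = tb.pt s w := by
  induction t, hst using Nat.le_induction with
  | base => exact bk_self s _
  | succ t hst ih =>
    rw [← bk_bk hst (Nat.le_succ t), bk_succ, old_pt tb (show t < T by omega) hw]
    exact ih (by omega)

variable (h) in
/-- **transport of a mean** -/
theorem tr_E {t : ℕ} (ht : t ≤ T) (w0 : Om W X β) {k : ℕ} {E : Finset (Fin 3)} {Ev : Om W X β → Prop}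
    (hEv : Fac (sgt D E k) Ev) (F : Pt (Fin 3) X β φ → ℝ) :
    tb.Ps.E (fun w => ind (Ev w) * F (tb.pt t w)) = (D.P h t).E (fun p => ind (Ev (up w0 p)) * F p) := by
  rw [← (pul_pt h tb ht).E]
  refine tb.Ps.E_congr fun w _ => ?_
  rw [show Ev (up w0 (tb.pt t w)) = Ev w from hEv _ _ (sgt_up w0 E k t w)]

variable (h) in
theorem tr_Pr {t : ℕ} (ht : t ≤ T) (w0 : Om W X β) {k : ℕ} {E : Finset (Fin 3)} {Ev : Om W X β → Prop}
    (hEv : Fac (sgt D E k) Ev) : tb.Ps.Pr Ev = (D.P h t).Pr (fun p => Ev (up w0 p)) := by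
  have h1 := tr_E (tb := tb) h ht w0 hEv fun _ => 1
  simp only [mul_one] at h1
  exact h1

theorem nn_le_of {s t : ℕ} (hs : s ≤ 5 * t) : TP.nn s ≤ t := by
  have h1 : TP.nn (5 * t) = t := by
    have h2 := TP.nn_add t 0 (by omega)
    rw [Nat.add_zero] at h2
    rw [h2]
    rfl
  exact (TP.nn_mono hs).trans h1.le

theorem nc_le_of {s t : ℕ} (hs : s ≤ 5 * t) {J : Finset (Fin 3)} (hJ : pth J) : TP.nc s J ≤ t + 1 := by
  have h1 : TP.nc (5 * t) J = t + 1 := by
    have h2 := TP.nc_add t 0 hJ (by omega)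
    rw [Nat.add_zero] at h2
    rw [h2]
    unfold ncj
    rw [if_neg (Nat.not_lt_zero _)]
  exact (TP.nc_mono hs hJ).trans h1.le

theorem Um_le {a b : ℕ} (hab : a ≤ b) {I : Finset (Fin 3)} {x x' : X} {y y' : Fin 3 → β}
    (e : Um v b I x y = Um v b I x' y') : Um v a I x y = Um v a I x' y' := by
  induction b, hab using Nat.le_induction with
  | base => exact e
  | succ b _ ih => exact ih (Um_eq.1 e).1

/-- **the class of the saturated state sees the class of an earlier state** -/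
theorem cls_cn {s t : ℕ} (hs : s ≤ 5 * t) (j : Fin 3) (w0 : Om W X β) {α : Type*} {g : Om W X β → α}
    (hg : Fac (fun w => (MVI.XLo tb v j s w, MVI.NPo tb v s w)) g) :
    Fac (Cls D v t {j}) (fun p => g (up w0 p)) := by
  intro a b hab
  have h1 := (Prod.mk.inj (show (le (LL (Um v (t + 1))) {j} a, BB D t {j} a) =
    (le (LL (Um v (t + 1))) {j} b, BB D t {j} b) from hab))
  have h2 := le_eq.1 h1.1
  have h3 := BB_eq.1 h1.2
  have hn : TP.nn s ≤ t := nn_le_of hs
  refine hg _ _ ?_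
  have e1 : Um v (t + 1) ∅ a.1 a.2.1 = Um v (t + 1) ∅ b.1 b.2.1 := (LL_eq.1 (h2 ∅ (Finset.empty_subset _))).1
  have e2 : Um v (t + 1) {j} a.1 a.2.1 = Um v (t + 1) {j} b.1 b.2.1 := (LL_eq.1 (h2 {j} (Finset.Subset.refl _))).1
  have p0 : pth (∅ : Finset (Fin 3)) := by decide
  have p1 : pth ({j} : Finset (Fin 3)) := by
    unfold pth
    rw [Finset.card_singleton]
  refine Prod.ext ?_ ?_
  · show (a.2.1 j, Um v (TP.nc s {j}) {j} a.1 a.2.1) = (b.2.1 j, Um v (TP.nc s {j}) {j} b.1 b.2.1)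
    rw [h3.1 j (Finset.mem_singleton_self j), Um_le (nc_le_of hs p1) e2]
  · show (Um v (TP.nc s ∅) ∅ a.1 a.2.1, (D.qa (TP.nn s) a.1, fun k => D.qb (TP.nn s) (a.2.1 k))) =
      (Um v (TP.nc s ∅) ∅ b.1 b.2.1, (D.qa (TP.nn s) b.1, fun k => D.qb (TP.nn s) (b.2.1 k)))
    rw [Um_le (nc_le_of hs p0) e1, Pool.Agent.GMH.qa_mono D hn h3.2.1, show (fun k => D.qb (TP.nn s) (a.2.1 k)) =
      fun k => D.qb (TP.nn s) (b.2.1 k) from funext fun k => Pool.Agent.GMH.qb_mono D hn (h3.2.2 k)]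


variable (h tb) in
theorem ex_pt {t : ℕ} (ht : t ≤ T) {p : Pt (Fin 3) X β φ} (hp : (D.P h t).p p ≠ 0) :
    ∃ w, tb.Ps.p w ≠ 0 ∧ tb.pt t w = p := by
  classical
  by_contra hcon
  push Not at hcon
  have h1 := (pul_pt h tb ht).E (fun q => ind (q = p))
  have h2 : tb.Ps.E (fun w => ind (tb.pt t w = p)) = 0 := by
    rw [← tb.Ps.E_const 0]
    exact tb.Ps.E_congr fun w hw => ind_not (hcon w hw)
  have h3 : (D.P h t).p p * ind (p = p) ≤ (D.P h t).E (fun q => ind (q = p)) :=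
    Finset.single_le_sum (f := fun q => (D.P h t).p q * ind (q = p))
      (fun q _ => mul_nonneg ((D.P h t).nn q) (ind_nonneg _)) (mem_univ p)
  rw [ind_of rfl, mul_one, ← h1, h2] at h3
  exact hp (le_antisymm h3 ((D.P h t).nn p))

/-- value of the hint -/
def hv {M : ℕ} (j : Fin 3) (r : Finset (Fin 3) → Option (Option (List (Fin M × Bool)))) : List (Fin M × Bool) :=
  ((r {j}).getD Option.none).getD []

/-- trivial coins -/
def U1 : FP Unit := FP.unif Unit

theorem U1_E {Ω : Type*} [Fintype Ω] {P : FP Ω} (f : Ω × Unit → ℝ) : (FP.pr P U1).E f = P.E (fun w => f (w, ())) := by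
  rw [FP.pr_E]
  refine P.E_congr fun w _ => ?_
  exact U1.E_const (f (w, ()))

/-- **ONE END** : number `m` of names fixed -/
theorem one_pay (H : D.Hyp dg prr al T Lam) (R : Run h (pr3 (Fin 3) n N1) (SS1 (Fin 3)) (AdmDep D) v) (hn : 1 ≤ n)
    (hN1 : 1 ≤ N1) {j i : Fin 3} (hji : j ≠ i) {s e t : ℕ} (ht : t ≤ T) (he : e ≤ 5 * t) (hs : s ≤ 5 * t) {M : ℕ}
    (hM : 1 ≤ M) {Hp : Fin M → Pt (Fin 3) X β φ → Prop} {fp : Fin M → Pt (Fin 3) X β φ → ℝ}
    (hH : ∀ k, Fac (fun p => (FQ v (e / 5) i p, ZbQ D v e i p)) (Hp k))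
    (hf : ∀ k, Fac (fun p => (FQ v (e / 5) i p, ZbQ D v e i p)) (fp k)) {c0 eps : ℝ}
    {Ev : Om W X β → Prop} (hEv : Fac (sgt D {j} (TP.nn s)) Ev) {cd : Om W X β → List (Fin M × Bool)}
    (hcd : Fac (sgt D {j} (TP.nn s)) cd) {m : ℕ} (hm : ∀ w, Ev w → (cd w).length = m)
    (hone : ∀ w, tb.Ps.p w ≠ 0 → Ev w → (D.P h (e / 5)).ce (ZbQ D v e i)
      (fun q => Real.exp (c0 * dlF Hp fp (cd w) q)) (tb.pt (e / 5) w) ≤ Real.exp (eps * m))
    {th1 : ℝ} (t1 : 0 < th1) (t1' : th1 ≤ 1) {F : Om W X β → Prop}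
    (hF : Fac (fun w => (MVI.XLo tb v j s w, MVI.NPo tb v s w)) F) (hEF : ∀ w, Ev w → F w) :
    n * (c0 * tb.Ps.E (fun w => ind (Ev w) * dlF Hp fp (cd w) (tb.pt (e / 5) w))) ≤
      (2 * (Real.log (1 / th1) + 1) + 2 * (m * Real.log (2 * M)) + n * (eps * m)) * tb.Ps.Pr Ev +
        2 * Real.sqrt th1 * tb.Ps.Pr F +
        n * tb.Ps.E (fun w => ind (Ev w) * gdq h v prr i t e (tb.pt t w)) := by
  classical
  obtain ⟨w0, hw0⟩ := tb.Ps.exists_p_ne
  have hnn : TP.nn s ≤ t := nn_le_of hs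
  have hKJ : ({j} : Finset (Fin 3)) ⊂ univ.erase i := by
    have key : ∀ j i : Fin 3, j ≠ i → ({j} : Finset (Fin 3)) ⊂ univ.erase i := by decide
    exact key j i hji
  -- sights of the lifted points
  have hsg : ∀ a b : Pt (Fin 3) X β φ, a.1 = b.1 → a.2.1 j = b.2.1 j →
      (∀ k, D.qb t (a.2.1 k) = D.qb t (b.2.1 k)) → sgt D {j} (TP.nn s) (up w0 a) = sgt D {j} (TP.nn s) (up w0 b) := by
    intro a b h1 h2 h3
    refine sgt_eq.2 ⟨h1, fun k hk => ?_, fun k => Pool.Agent.GMH.qb_mono D hnn (h3 k)⟩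
    rw [Finset.mem_singleton.1 hk]
    exact h2
  set E : Pt (Fin 3) X β φ × Unit → Prop := fun q => Ev (up w0 q.1) with hEd
  set G : Finset (Fin 3) → Pt (Fin 3) X β φ × Unit → Option (List (Fin M × Bool)) :=
    at1 {j} fun q => cd (up w0 q.1) with hGdef
  have hGd : DepC D t G := by
    intro θ J a b h1 h2 h3
    by_cases hJ : J = {j}
    · subst hJ
      rw [hGdef, at1_eq, at1_eq]
      exact congrArg some (hcd _ _ (hsg a b h1 (h2 j (Finset.mem_singleton_self j)) h3))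
    · rw [hGdef, at1_ne _ hJ, at1_ne _ hJ]
  have hG : On {j} G := at1_on (Finset.Subset.refl _) _
  have hE : EvC D t {j} E := by
    intro a b hab
    have h1 := Prod.mk.inj (Prod.mk.inj (show ((a.1.1, BB D t {j} a.1), a.2) = ((b.1.1, BB D t {j} b.1), b.2) from hab)).1
    have h2 := BB_eq.1 h1.2
    exact hEv _ _ (hsg a.1 b.1 h1.1 (h2.1 j (Finset.mem_singleton_self j)) h2.2.2)
  have hval : ∀ q, hv j (lo G (univ.erase i) q) = cd (up w0 q.1) := by
    intro q
    unfold hv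
    rw [hGdef, lo_at1_val hKJ]
    rfl
  -- the test
  set psi0 : (Finset (Fin 3) → Option (Option (List (Fin M × Bool)))) → Pt (Fin 3) X β φ → ℝ :=
    fun r q => c0 * dlF Hp fp (hv j r) q - eps * m with hpsi0
  have hpsi : ∀ r, Fac (fun w => (FQ v (e / 5) i w, ZbQ D v e i w)) (psi0 r) := by
    intro r a b hab
    show c0 * dlF Hp fp (hv j r) a - eps * m = c0 * dlF Hp fp (hv j r) b - eps * m
    rw [dlF_facV hH hf (hv j r) a b hab]
  have hone' : ∀ w : Pt (Fin 3) X β φ × Unit, (D.P h t).p w.1 ≠ 0 → U1.p w.2 ≠ 0 → E w →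
      (D.P h (e / 5)).ce (ZbQ D v e i) (fun u => Real.exp (psi0 (lo G (univ.erase i) w) u))
        (bk prr (e / 5) t w.1) ≤ 1 := by
    intro q hq _ hEq
    obtain ⟨w, hw, hwq⟩ := ex_pt h tb ht hq
    have het : e / 5 ≤ t := by omega
    have e1 : bk prr (e / 5) t q.1 = tb.pt (e / 5) w := by
      rw [← hwq]
      exact bk_pt tb het ht hw
    have e2 : cd (up w0 q.1) = cd w := by
      rw [← hwq]
      exact hcd _ _ (sgt_up w0 {j} (TP.nn s) t w)
    have e3 : Ev w := by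
      have h4 : Ev (up w0 q.1) = Ev w := by
        rw [← hwq]
        exact hEv _ _ (sgt_up w0 {j} (TP.nn s) t w)
      exact h4 ▸ hEq
    have h1 := hone w hw e3
    have e4 : ∀ u, Real.exp (psi0 (lo G (univ.erase i) q) u) =
        Real.exp (-(eps * m)) * Real.exp (c0 * dlF Hp fp (cd w) u) := by
      intro u
      show Real.exp (c0 * dlF Hp fp (hv j (lo G (univ.erase i) q)) u - eps * m) = _
      rw [hval, e2, ← Real.exp_add]
      congr 1
      ring
    simp only [e4]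
    rw [FP.ce_smul, e1]
    have h2 := mul_le_mul_of_nonneg_left h1 (Real.exp_pos (-(eps * m))).le
    rwa [← Real.exp_add, neg_add_cancel, Real.exp_zero] at h2
  -- the cost
  have hpr1 : pr3 (Fin 3) n N1 {j} = N1 := by
    unfold pr3
    rw [Finset.card_singleton, if_neg (by norm_num), if_pos rfl]
  have hpr2 : pr3 (Fin 3) n N1 (univ.erase i) = n * N1 := pr3_top (by simp) n N1 i
  have h2M : (1 : ℝ) ≤ (2 * M) ^ m := by
    have : (1 : ℝ) ≤ M := by exact_mod_cast hM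
    exact one_le_pow₀ (by linarith)
  have hN1' : (0 : ℝ) < N1 := by linarith
  have hn' : (0 : ℝ) < n := by linarith
  have hc : (FP.pr (D.P h t) U1).Pr E ≠ 0 → ∑ J ∈ SS1 (Fin 3), pr3 (Fin 3) n N1 J *
      cost ((FP.pr (D.P h t) U1).cond E) (fun I w => BB D t I w.1) (fun I w => LL (Um v (t + 1)) I w.1) G J ≤
        N1 * Real.log ((2 * M) ^ m) := by
    intro hE0
    have h1 := csum_names (P := (FP.pr (D.P h t) U1).cond E) (B := fun I (w : Pt (Fin 3) X β φ × Unit) => BB D t I w.1)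
      (N := pr3 (Fin 3) n N1) (S := SS1 (Fin 3)) (L := fun I w => LL (Um v (t + 1)) I w.1) (J1 := {j})
      (g := fun q => cd (up w0 q.1)) (by rw [hpr1]; exact hN1'.le) h2M (fun w hw => ⟨cds M m, card_cds m,
        fun q hq _ _ => mem_cds (hm _ ((FP.cond_p_ne hE0).1 hq).1)⟩)
    rw [hpr1] at h1
    exact h1
  have key := payq_end h H R hn hN1 hKJ ht he U1 hGd hG hpsi hE hone' hc
  -- back to the space with tables
  have hHc := Hc_ev_thF (FP.pr (D.P h t) U1) E (F := fun q => F (up w0 q.1)) (fun q => Cls D v t {j} q.1)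
    (fun a b hab => cls_cn hs j w0 hF a.1 b.1 hab) (fun q hq => hEF _ hq) t1 t1'
  have a1 : (FP.pr (D.P h t) U1).Pr E = tb.Ps.Pr Ev := by
    rw [tr_Pr h ht w0 hEv]
    exact U1_E _
  have hFs : Fac (sgt D {j} (TP.nn s)) F := by
    intro a b hab
    refine hF a b ?_
    have h1 := MVIp.XLq_sgt (T := T) tb R.codes (nc_le s {j}) (Finset.mem_singleton_self j) 0 a b hab
    have h2 := MVIp.NPq_sgt tb R.codes (le_refl (TP.nn s)) (nc_le s ∅) {j} 0 a b hab
    exact Prod.ext h1 h2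
  have a2 : (FP.pr (D.P h t) U1).Pr (fun q => F (up w0 q.1)) = tb.Ps.Pr F := by
    rw [tr_Pr h ht w0 hFs]
    exact U1_E _
  have a3 : (FP.pr (D.P h t) U1).E (fun w => ind (E w) * gdq h v prr i t e w.1) =
      tb.Ps.E (fun w => ind (Ev w) * gdq h v prr i t e (tb.pt t w)) := by
    rw [tr_E h ht w0 hEv (gdq h v prr i t e)]
    exact U1_E _
  have a4 : (FP.pr (D.P h t) U1).E (fun w => ind (E w) *
        psi0 (lo G (univ.erase i) w) (bk prr (e / 5) t w.1)) =
      c0 * tb.Ps.E (fun w => ind (Ev w) * dlF Hp fp (cd w) (tb.pt (e / 5) w)) - eps * m * tb.Ps.Pr Ev := by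
    have b1 : ∀ q, ind (E q) * psi0 (lo G (univ.erase i) q) (bk prr (e / 5) t q.1) =
        ind (Ev (up w0 q.1)) * (c0 * dlF Hp fp (cd (up w0 q.1)) (bk prr (e / 5) t q.1) - eps * m) := by
      intro q
      show ind (Ev (up w0 q.1)) * (c0 * dlF Hp fp (hv j (lo G (univ.erase i) q)) (bk prr (e / 5) t q.1) - eps * m) = _
      rw [hval]
    have b2 : (FP.pr (D.P h t) U1).E (fun w => ind (E w) *
        psi0 (lo G (univ.erase i) w) (bk prr (e / 5) t w.1)) = (D.P h t).E (fun p => ind (Ev (up w0 p)) *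
          (c0 * dlF Hp fp (cd (up w0 p)) (bk prr (e / 5) t p) - eps * m)) := by
      rw [U1_E]
      exact (D.P h t).E_congr fun p _ => b1 (p, ())
    rw [b2, ← tr_E h ht w0 hEv (fun p => c0 * dlF Hp fp (cd (up w0 p)) (bk prr (e / 5) t p) - eps * m)]
    have b3 : ∀ w, tb.Ps.p w ≠ 0 → ind (Ev w) * (c0 * dlF Hp fp (cd (up w0 (tb.pt t w))) (bk prr (e / 5) t (tb.pt t w)) -
        eps * m) = c0 * (ind (Ev w) * dlF Hp fp (cd w) (tb.pt (e / 5) w)) - eps * m * ind (Ev w) := by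
      intro w hw
      rw [show cd (up w0 (tb.pt t w)) = cd w from hcd _ _ (sgt_up w0 {j} (TP.nn s) t w),
        bk_pt tb (show e / 5 ≤ t by omega) ht hw]
      ring
    rw [tb.Ps.E_congr b3, FP.E_sub, FP.E_smul, FP.E_smul]
    rfl
  rw [a1, a3, a4, hpr1, hpr2] at key
  rw [a1, a2] at hHc
  have hlog : Real.log ((2 * (M : ℝ)) ^ m) = m * Real.log (2 * M) := Real.log_pow _ _
  rw [hlog] at key
  have h5 := mul_le_mul_of_nonneg_left hHc (show (0 : ℝ) ≤ 2 * N1 by linarith)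
  have h6 : N1 * (n * (c0 * tb.Ps.E (fun w => ind (Ev w) * dlF Hp fp (cd w) (tb.pt (e / 5) w)))) ≤
      N1 * ((2 * (Real.log (1 / th1) + 1) + 2 * (m * Real.log (2 * M)) + n * (eps * m)) * tb.Ps.Pr Ev +
        2 * Real.sqrt th1 * tb.Ps.Pr F +
        n * tb.Ps.E (fun w => ind (Ev w) * gdq h v prr i t e (tb.pt t w))) := by
    nlinarith [key, h5]
  exact le_of_mul_le_mul_left h6 hN1'


/-! ## one life -/

variable (tb) in
/-- class of the exact vertex `j` -/
def cn (v : ℕ → Finset (Fin 3) → X → (Fin 3 → β) → Pt (Fin 3) X β φ) (j : Fin 3) (s : ℕ) (w : Om W X β) :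
    (β × List (Pt (Fin 3) X β φ)) × (List (Pt (Fin 3) X β φ) × (γ × (Fin 3 → γ))) :=
  (MVI.XLo tb v j s w, MVI.NPo tb v s w)

theorem cn_filt (j : Fin 3) : Filt (cn tb v j) := fun s a b hab => by
  have h1 := Prod.mk.inj (show (MVI.XLo tb v j (s + 1) a, MVI.NPo tb v (s + 1) a) =
    (MVI.XLo tb v j (s + 1) b, MVI.NPo tb v (s + 1) b) from hab)
  exact Prod.ext (MVI.XLo_fac tb j s a b h1.1) (MVI.NPo_fac tb s a b h1.2)

theorem sgt_cn (hv : Codes D v) (j : Fin 3) (s : ℕ) : Fac (sgt D {j} (TP.nn s)) (cn tb v j s) := by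
  intro a b hab
  have h1 := MVIp.XLq_sgt (T := T) tb hv (nc_le s {j}) (Finset.mem_singleton_self j) 0 a b hab
  have h2 := MVIp.NPq_sgt tb hv (le_refl (TP.nn s)) (nc_le s ∅) {j} 0 a b hab
  exact Prod.ext h1 h2

/-- the sights -/
theorem sg_filt (j : Fin 3) : Filt (fun s => sgt (W := W) (X := X) D {j} (TP.nn s)) := fun s a b hab => by
  obtain ⟨h1, h2, h3⟩ := sgt_eq.1 hab
  exact sgt_eq.2 ⟨h1, h2, fun k => Dy.qb_mono (TP.nn_mono (Nat.le_succ s)) (h3 k)⟩

/-- values of a weight -/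
def vl (g : Om W X β → ℝ) : Finset ℝ := (univ : Finset (Om W X β)).image g

theorem sum_vl (g F : Om W X β → ℝ) (P : FP (Om W X β)) :
    P.E (fun w => g w * F w) = ∑ y ∈ vl g, y * P.E (fun w => ind (g w = y) * F w) := by
  classical
  have h1 : ∀ w, g w * F w = ∑ y ∈ vl g, y * (ind (g w = y) * F w) := by
    intro w
    rw [Finset.sum_eq_single (g w)]
    · rw [ind_of rfl, one_mul]
    · intro y _ hy
      rw [ind_not (fun h => hy h.symm), zero_mul, mul_zero]
    · intro hh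
      exact absurd (Finset.mem_image.2 ⟨w, mem_univ _, rfl⟩) hh
  rw [P.E_congr fun w _ => h1 w, FP.E_sum]
  exact Finset.sum_congr rfl fun y _ => FP.E_smul _ _ _


/-- price of one name -/
def A1 (n eps th1 : ℝ) (M : ℕ) : ℝ := 4 * (Real.log (1 / th1) + 1) + 2 * Real.log (2 * M) + n * eps

/-- **ONE END, ALL NUMBERS OF NAMES** -/
theorem end_pay (H : D.Hyp dg prr al T Lam) (R : Run h (pr3 (Fin 3) n N1) (SS1 (Fin 3)) (AdmDep D) v) (hn : 1 ≤ n)
    (hN1 : 1 ≤ N1) {j i : Fin 3} (hji : j ≠ i) {s e t : ℕ} (ht : t ≤ T) (he : e ≤ 5 * t) (hs : s ≤ 5 * t) {M : ℕ}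
    (hM : 1 ≤ M) {Rw : Type*} {x : Fin M → Rw} {Hs : Rw → Om W X β → Prop} {fs : Rw → Om W X β → ℝ}
    {Hp : Fin M → Pt (Fin 3) X β φ → Prop} {fp : Fin M → Pt (Fin 3) X β φ → ℝ}
    (hH : ∀ k, Fac (fun p => (FQ v (e / 5) i p, ZbQ D v e i p)) (Hp k))
    (hf : ∀ k, Fac (fun p => (FQ v (e / 5) i p, ZbQ D v e i p)) (fp k)) {c0 eps : ℝ} (eps0 : 0 ≤ eps)
    {F lt : Om W X β → Prop} (hF : Fac (cn tb v j s) F) (hlt : Fac (sgt D {j} (TP.nn s)) lt)
    {l : Om W X β → List ((ℕ × Rw) × Bool)} (hl : Fac (sgt D {j} (TP.nn s)) l)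
    (hlx : ∀ w, ∀ p ∈ l w, ∃ k, x k = p.1.2)
    (hHs : ∀ w, tb.Ps.p w ≠ 0 → F w → ∀ k, (Hs (x k) w ↔ Hp k (tb.pt (e / 5) w)) ∧ fs (x k) w = fp k (tb.pt (e / 5) w))
    (hone : ∀ w, tb.Ps.p w ≠ 0 → F w → ∀ c : List (Fin M × Bool), (D.P h (e / 5)).ce (ZbQ D v e i)
      (fun q => Real.exp (c0 * dlF Hp fp c q)) (tb.pt (e / 5) w) ≤ Real.exp (eps * c.length))
    {th1 : ℝ} (t1 : 0 < th1) (t1' : th1 ≤ 1) {J : ℕ} :
    n * (c0 * ∑ m ∈ range J, tb.Ps.E (fun w => ind (F w ∧ lt w ∧ (l w).length = m + 1) *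
        dl (fun _ => Hs) fs (l w) w)) ≤
      A1 n eps th1 M * tb.Ps.E (fun w => ind (F w) * ((l w).length : ℝ)) + 2 * (J + 1) * Real.sqrt th1 * tb.Ps.Pr F +
        n * tb.Ps.E (fun w => ind (F w) * gdq h v prr i t e (tb.pt t w)) := by
  classical
  obtain ⟨w0, hw0⟩ := tb.Ps.exists_p_ne
  have hnn : TP.nn s ≤ t := nn_le_of hs
  have hFs : Fac (sgt D {j} (TP.nn s)) F := (sgt_cn R.codes j s).trans hF
  set lg : ℝ := Real.log (1 / th1) + 1 with hlg
  have hlg0 : 0 ≤ lg := by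
    have := Real.log_nonneg (show (1 : ℝ) ≤ 1 / th1 by rw [le_div_iff₀ t1]; linarith)
    linarith
  have hM2 : 0 ≤ Real.log (2 * M) := Real.log_nonneg (by
    have : (1 : ℝ) ≤ M := by exact_mod_cast hM
    linarith)
  have hn0 : 0 ≤ n := by linarith
  set sq : ℝ := Real.sqrt th1 with hsq
  have hsq0 : 0 ≤ sq := Real.sqrt_nonneg _
  -- the events
  set Ev : ℕ → Om W X β → Prop := fun m w => F w ∧ lt w ∧ (l w).length = m + 1 with hEv
  set EU : Om W X β → Prop := fun w => ∃ m ∈ range J, Ev m w with hEU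
  have fEv : ∀ m, Fac (sgt D {j} (TP.nn s)) (Ev m) := by
    intro m a b hab
    show (F a ∧ lt a ∧ (l a).length = m + 1) = (F b ∧ lt b ∧ (l b).length = m + 1)
    rw [hFs a b hab, hlt a b hab, hl a b hab]
  have fEU : Fac (sgt D {j} (TP.nn s)) EU := by
    intro a b hab
    refine propext (exists_congr fun m => and_congr_right fun _ => ?_)
    rw [fEv m a b hab]
  have one1 : ∀ m, n * (c0 * tb.Ps.E (fun w => ind (Ev m w) * dl (fun _ => Hs) fs (l w) w)) ≤
      (2 * lg + 2 * (((m : ℝ) + 1) * Real.log (2 * M)) + n * (eps * ((m : ℝ) + 1))) * tb.Ps.Pr (Ev m) +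
        2 * sq * tb.Ps.Pr F + n * tb.Ps.E (fun w => ind (Ev m w) * gdq h v prr i t e (tb.pt t w)) := by
    intro m
    have h1 := one_pay (h := h) (tb := tb) H R hn hN1 hji ht he hs hM hH hf (c0 := c0) (eps := eps) (fEv m)
      (cd := fun w => cde x (l w)) (fun a b hab => by
        show cde x (l a) = cde x (l b)
        rw [hl a b hab]) (m := m + 1) (fun w hw => by
        rw [cde_len (hlx w)]
        exact hw.2.2) (fun w hw hE => by
        have h2 := hone w hw hE.1 (cde x (l w))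
        rw [cde_len (hlx w), hE.2.2] at h2
        exact h2) t1 t1' hF (fun w hw => hw.1)
    have h3 : tb.Ps.E (fun w => ind (Ev m w) * dl (fun _ => Hs) fs (l w) w) =
        tb.Ps.E (fun w => ind (Ev m w) * dlF Hp fp (cde x (l w)) (tb.pt (e / 5) w)) := by
      refine tb.Ps.E_congr fun w hw => ?_
      by_cases hE : Ev m w
      · rw [ind_of hE, one_mul, one_mul]
        exact dl_code (fun _ k => (hHs w hw hE.1 k).1) (fun k => (hHs w hw hE.1 k).2) (hlx w)
      · rw [ind_not hE, zero_mul, zero_mul]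
    rw [h3]
    push_cast at h1
    exact h1
  -- the localised gain
  have hgain : ∑ m ∈ range J, tb.Ps.E (fun w => ind (Ev m w) * gdq h v prr i t e (tb.pt t w)) =
      tb.Ps.E (fun w => ind (EU w) * gdq h v prr i t e (tb.pt t w)) := by
    rw [← FP.E_sum]
    refine tb.Ps.E_congr fun w _ => ?_
    rw [← Finset.sum_mul]
    congr 1
    by_cases hw : EU w
    · obtain ⟨m, hm, hE⟩ := hw
      rw [ind_of (show EU w from ⟨m, hm, hE⟩), Finset.sum_eq_single m]
      · exact ind_of hE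
      · intro m' _ hm'
        refine ind_not fun h' => hm' ?_
        have h1 := h'.2.2
        have h2 := hE.2.2
        omega
      · intro hh
        exact absurd hm hh
    · rw [ind_not hw]
      exact Finset.sum_eq_zero fun m hm => ind_not fun h' => hw ⟨m, hm, h'⟩
  have hPU : tb.Ps.Pr EU ≤ ∑ m ∈ range J, tb.Ps.Pr (Ev m) := tb.Ps.Pr_ex_le (range J) Ev
  have hloc : n * tb.Ps.E (fun w => ind (EU w) * gdq h v prr i t e (tb.pt t w)) ≤
      n * tb.Ps.E (fun w => ind (F w) * gdq h v prr i t e (tb.pt t w)) + 2 * (lg * tb.Ps.Pr EU + sq * tb.Ps.Pr F) := by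
    have hKJ : ({j} : Finset (Fin 3)) ⊂ univ.erase i := by
      have key : ∀ j i : Fin 3, j ≠ i → ({j} : Finset (Fin 3)) ⊂ univ.erase i := by decide
      exact key j i hji
    have hE : EvC D t {j} (fun q : Pt (Fin 3) X β φ × Unit => EU (up w0 q.1)) := by
      intro a b hab
      have h1 := Prod.mk.inj (Prod.mk.inj (show ((a.1.1, BB D t {j} a.1), a.2) = ((b.1.1, BB D t {j} b.1), b.2)
        from hab)).1
      have h2 := BB_eq.1 h1.2
      refine fEU _ _ (sgt_eq.2 ⟨h1.1, fun k hk => ?_, fun k => Pool.Agent.GMH.qb_mono D hnn (h2.2.2 k)⟩)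
      rw [Finset.mem_singleton.1 hk]
      exact h2.1 j (Finset.mem_singleton_self j)
    have hB : Fac (Cls D v t {j}) (fun p => F (up w0 p)) := cls_cn hs j w0 hF
    have h1 := payq_loc h H R hn hN1 hKJ ht he U1 hB hE (fun q hq => by
      obtain ⟨m, _, hm⟩ := hq
      exact hm.1)
    have h2 := Hc_ev_thF (FP.pr (D.P h t) U1) (fun q : Pt (Fin 3) X β φ × Unit => EU (up w0 q.1))
      (F := fun q => F (up w0 q.1)) (fun q => Cls D v t {j} q.1) (fun a b hab => hB a.1 b.1 hab) (fun q hq => by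
        obtain ⟨m, _, hm⟩ := hq
        exact hm.1) t1 t1'
    have a1 : (FP.pr (D.P h t) U1).Pr (fun q : Pt (Fin 3) X β φ × Unit => EU (up w0 q.1)) = tb.Ps.Pr EU := by
      rw [tr_Pr h ht w0 fEU]
      exact U1_E _
    have a2 : (FP.pr (D.P h t) U1).Pr (fun q => F (up w0 q.1)) = tb.Ps.Pr F := by
      rw [tr_Pr h ht w0 hFs]
      exact U1_E _
    have a3 : (FP.pr (D.P h t) U1).E (fun w => ind (EU (up w0 w.1)) * gdq h v prr i t e w.1) =
        tb.Ps.E (fun w => ind (EU w) * gdq h v prr i t e (tb.pt t w)) := by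
      rw [tr_E h ht w0 fEU (gdq h v prr i t e)]
      exact U1_E _
    have a4 : (D.P h t).E (fun w => ind (F (up w0 w)) * gdq h v prr i t e w) =
        tb.Ps.E (fun w => ind (F w) * gdq h v prr i t e (tb.pt t w)) := by
      rw [tr_E h ht w0 hFs (gdq h v prr i t e)]
    have hpr1 : pr3 (Fin 3) n N1 {j} = N1 := by
      unfold pr3
      rw [Finset.card_singleton, if_neg (by norm_num), if_pos rfl]
    have hpr2 : pr3 (Fin 3) n N1 (univ.erase i) = n * N1 := pr3_top (by simp) n N1 i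
    rw [a3, a4, hpr1, hpr2] at h1
    rw [a1, a2] at h2
    have hN1' : (0 : ℝ) < N1 := by linarith
    have h3 := mul_le_mul_of_nonneg_left h2 (show (0 : ℝ) ≤ 2 * N1 by linarith)
    have h4 : N1 * (n * tb.Ps.E (fun w => ind (EU w) * gdq h v prr i t e (tb.pt t w))) ≤
        N1 * (n * tb.Ps.E (fun w => ind (F w) * gdq h v prr i t e (tb.pt t w)) +
          2 * (lg * tb.Ps.Pr EU + sq * tb.Ps.Pr F)) := by
      nlinarith [h1, h3]
    exact le_of_mul_le_mul_left h4 hN1'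
  -- the number of names
  have hlen : ∑ m ∈ range J, ((m : ℝ) + 1) * tb.Ps.Pr (Ev m) ≤ tb.Ps.E (fun w => ind (F w) * ((l w).length : ℝ)) := by
    have h1 : ∀ m : ℕ, ((m : ℝ) + 1) * tb.Ps.Pr (Ev m) = tb.Ps.E (fun w => ((m : ℝ) + 1) * ind (Ev m w)) := fun m =>
      (FP.E_smul _ _ _).symm
    rw [Finset.sum_congr rfl fun m _ => h1 m, ← FP.E_sum]
    refine tb.Ps.E_mono fun w _ => ?_
    by_cases hF' : F w
    · rw [ind_of hF', one_mul]
      by_cases hw : EU w
      · obtain ⟨m, hm, hE⟩ := hw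
        rw [Finset.sum_eq_single m]
        · rw [ind_of hE, mul_one, hE.2.2]
          push_cast
          exact le_refl _
        · intro m' _ hm'
          rw [ind_not, mul_zero]
          intro h'
          have h1 := h'.2.2
          have h2 := hE.2.2
          exact hm' (by omega)
        · intro hh
          exact absurd hm hh
      · rw [Finset.sum_eq_zero fun m hm => by rw [ind_not (fun h' => hw ⟨m, hm, h'⟩), mul_zero]]
        exact Nat.cast_nonneg _
    · rw [ind_not hF', zero_mul]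
      refine le_of_eq (Finset.sum_eq_zero fun m _ => ?_)
      rw [ind_not (fun h' => hF' h'.1), mul_zero]
  -- sum
  set S0 : ℝ := ∑ m ∈ range J, tb.Ps.Pr (Ev m) with hS0
  set S1 : ℝ := ∑ m ∈ range J, ((m : ℝ) + 1) * tb.Ps.Pr (Ev m) with hS1
  have hsum : n * (c0 * ∑ m ∈ range J, tb.Ps.E (fun w => ind (Ev m w) * dl (fun _ => Hs) fs (l w) w)) ≤
      2 * lg * S0 + (2 * Real.log (2 * M) + n * eps) * S1 + J * (2 * sq * tb.Ps.Pr F) +
        n * tb.Ps.E (fun w => ind (EU w) * gdq h v prr i t e (tb.pt t w)) := by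
    rw [← hgain, Finset.mul_sum, Finset.mul_sum, hS0, hS1, Finset.mul_sum, Finset.mul_sum, Finset.mul_sum,
      show (J : ℝ) * (2 * sq * tb.Ps.Pr F) = ∑ _m ∈ range J, 2 * sq * tb.Ps.Pr F from by
        rw [Finset.sum_const, Finset.card_range, nsmul_eq_mul], ← Finset.sum_add_distrib, ← Finset.sum_add_distrib,
      ← Finset.sum_add_distrib]
    refine Finset.sum_le_sum fun m _ => ?_
    have h1 := one1 m
    nlinarith [h1]
  have hS01 : S0 ≤ S1 := Finset.sum_le_sum fun m _ => by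
    have h1 : 0 ≤ tb.Ps.Pr (Ev m) := tb.Ps.Pr_nonneg _
    have h2 : (0 : ℝ) ≤ m := Nat.cast_nonneg _
    nlinarith
  have hneps : 0 ≤ n * eps := mul_nonneg hn0 eps0
  set Ln : ℝ := tb.Ps.E (fun w => ind (F w) * ((l w).length : ℝ)) with hLn
  have k1 : 2 * lg * S0 + 2 * (lg * tb.Ps.Pr EU) ≤ 4 * lg * Ln := by
    have h1 := mul_le_mul_of_nonneg_left (hPU.trans (hS01.trans hlen)) hlg0
    have h2 := mul_le_mul_of_nonneg_left (hS01.trans hlen) hlg0
    linarith
  have k2 : (2 * Real.log (2 * M) + n * eps) * S1 ≤ (2 * Real.log (2 * M) + n * eps) * Ln :=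
    mul_le_mul_of_nonneg_left hlen (by linarith)
  have e1 : A1 n eps th1 M * Ln = 4 * lg * Ln + (2 * Real.log (2 * M) + n * eps) * Ln := by
    unfold A1
    ring
  rw [e1]
  have e2 : 2 * ((J : ℝ) + 1) * sq * tb.Ps.Pr F = J * (2 * sq * tb.Ps.Pr F) + 2 * (sq * tb.Ps.Pr F) := by ring
  rw [e2]
  linarith


/-- **ONE LIFE** : start `r`, tables `e`, list `x`, weight `gw` -/
theorem life_one (H : D.Hyp dg prr al T Lam) (R : Run h (pr3 (Fin 3) n N1) (SS1 (Fin 3)) (AdmDep D) v) (hn : 1 ≤ n)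
    (hN1 : 1 ≤ N1) {j i : Fin 3} (hji : j ≠ i) {r e : ℕ} {σ : Om W X β → ℕ} (hσr : ∀ w, r < σ w)
    (hσT : ∀ w, σ w ≤ 5 * T) (hσ : ∀ s, Fac (cn tb v j s) (fun w => σ w ≤ s)) (he : ∀ s, r < s → e ≤ 5 * cl s) {M : ℕ}
    (hM : 1 ≤ M) {Rw : Type*} {x : Fin M → Rw} {Hs : Rw → Om W X β → Prop} {fs : Rw → Om W X β → ℝ}
    {Hp : Fin M → Pt (Fin 3) X β φ → Prop} {fp : Fin M → Pt (Fin 3) X β φ → ℝ}
    (hH : ∀ k, Fac (fun p => (FQ v (e / 5) i p, ZbQ D v e i p)) (Hp k))
    (hf : ∀ k, Fac (fun p => (FQ v (e / 5) i p, ZbQ D v e i p)) (fp k)) {gw : Om W X β → ℝ}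
    (hg : Fac (cn tb v j r) gw) (g0 : ∀ w, 0 ≤ gw w)
    (hHs : ∀ w, tb.Ps.p w ≠ 0 → gw w ≠ 0 → ∀ k, (Hs (x k) w ↔ Hp k (tb.pt (e / 5) w)) ∧
      fs (x k) w = fp k (tb.pt (e / 5) w)) {c0 eps : ℝ} (c00 : 0 ≤ c0) (eps0 : 0 ≤ eps)
    (hone : ∀ w, tb.Ps.p w ≠ 0 → gw w ≠ 0 → ∀ c : List (Fin M × Bool), (D.P h (e / 5)).ce (ZbQ D v e i)
      (fun q => Real.exp (c0 * dlF Hp fp c q)) (tb.pt (e / 5) w) ≤ Real.exp (eps * c.length))
    {kap lam th ep1 L : ℝ} {K J : ℕ} (hK : 0 < K) (k0 : 0 < kap) (t0 : 0 < th) (l0 : 0 ≤ lam) (L0 : 0 ≤ L)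
    (hL : ∀ a z, fs a z ≤ L) (hL' : ∀ a z, -L ≤ fs a z) (e0 : 0 < ep1) (he1 : 4 * L * ep1 ≤ lam * kap)
    (hth : 4 * L * th ≤ lam * ep1) (hJ : 1 < th * kap * (J + 1)) {th1 : ℝ} (t1 : 0 < th1) (t1' : th1 ≤ 1)
    (hA : 8 * A1 n eps th1 M ≤ n * c0 * lam * kap) :
    c0 * lam * cvW tb.Ps (fun s => sgt D {j} (TP.nn s)) (fun _ => Hs) fs kap lam K x r gw σ ≤
      8 * (2 * (J + 1) * Real.sqrt th1 / n * tb.Ps.E gw + ∑ s ∈ range (5 * T + 1),
        tb.Ps.E (fun w => gw w * (ind (σ w = s) * gdq h v prr i (cl s) e (tb.pt (cl s) w)))) := by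
  classical
  set Xs : ∀ s, Om W X β → X × (Fin 3 → Option β) × (Fin 3 → γ) := fun s => sgt D {j} (TP.nn s) with hXs
  have fX : Filt Xs := sg_filt j
  have hcs : ∀ s, Fac (Xs s) (cn tb v j s) := fun s => sgt_cn R.codes j s
  have hσX : Stp Xs σ := fun s a b hab => by
    have := hσ s a b (hcs s a b hab)
    exact iff_of_eq this
  have hσc : Stp (cn tb v j) σ := fun s a b hab => iff_of_eq (hσ s a b hab)
  have hgX : Fac (Xs r) gw := (hcs r).trans hg
  have hn0 : 0 < n := by linarith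
  have hT1 : ∀ w, σ w < 5 * T + 1 := fun w => Nat.lt_succ_of_le (hσT w)
  set cv : ℝ := cvW tb.Ps Xs (fun _ => Hs) fs kap lam K x r gw σ with hcv
  have cv0 : 0 ≤ cv := cvW_nn g0
  set nw : ℕ → Om W X β → List ((ℕ × Rw) × Bool) := nmW tb.Ps Xs (fun _ => Hs) fs kap lam K th x r with hnw
  set lw : ℕ → Om W X β → Prop := litW tb.Ps Xs (fun _ => Hs) fs kap lam K th x ep1 r with hlw
  have p1 := life_pay (P := tb.Ps) (X := Xs) (H := fun _ => Hs) (f := fs) (kap := kap) (lam := lam) (K := K) (th := th)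
    (x := x) fX hK k0 t0 l0 L0 hL hL' e0 he1 hth hσX hJ hgX g0
  have p2 := life_len (P := tb.Ps) (X := Xs) (H := fun _ => Hs) (f := fs) (kap := kap) (lam := lam) (K := K) (th := th)
    (x := x) fX hK k0 t0 hσX hgX g0
  -- the mean as a sum over the ends and the levels of the weight
  have spl : ∀ F : ℕ → Om W X β → ℝ, tb.Ps.E (fun w => gw w * F (σ w) w) =
      ∑ s ∈ range (5 * T + 1), ∑ y ∈ vals gw, y * tb.Ps.E (fun w => ind (gw w = y ∧ σ w = s) * F s w) := by
    intro F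
    rw [E_stop hT1 (fun s w => gw w * F s w)]
    refine Finset.sum_congr rfl fun s _ => ?_
    have h1 : ∀ w, ind (σ w = s) * (gw w * F s w) = ∑ y ∈ vals gw, y * (ind (gw w = y ∧ σ w = s) * F s w) := by
      intro w
      have h2 : ∀ y, y * (ind (gw w = y ∧ σ w = s) * F s w) = ind (gw w = y) * (y * (ind (σ w = s) * F s w)) := by
        intro y
        rw [ind_and]
        ring
      rw [Finset.sum_congr rfl fun y _ => h2 y, FP.sum_vals gw (fun y => y * (ind (σ w = s) * F s w)) w]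
      ring
    rw [tb.Ps.E_congr fun w _ => h1 w, FP.E_sum]
    exact Finset.sum_congr rfl fun y _ => FP.E_smul _ _ _
  have spl1 : ∀ (s : ℕ) (F : Om W X β → ℝ), tb.Ps.E (fun w => gw w * (ind (σ w = s) * F w)) =
      ∑ y ∈ vals gw, y * tb.Ps.E (fun w => ind (gw w = y ∧ σ w = s) * F w) := by
    intro s F
    have h1 : ∀ w, gw w * (ind (σ w = s) * F w) = ∑ y ∈ vals gw, y * (ind (gw w = y ∧ σ w = s) * F w) := by
      intro w
      have h2 : ∀ y, y * (ind (gw w = y ∧ σ w = s) * F w) = ind (gw w = y) * (y * (ind (σ w = s) * F w)) := by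
        intro y
        rw [ind_and]
        ring
      rw [Finset.sum_congr rfl fun y _ => h2 y, FP.sum_vals gw (fun y => y * (ind (σ w = s) * F w)) w]
    rw [tb.Ps.E_congr fun w _ => h1 w, FP.E_sum]
    exact Finset.sum_congr rfl fun y _ => FP.E_smul _ _ _
  have hy0 : ∀ y ∈ vals gw, 0 ≤ y := by
    intro y hy
    unfold vals at hy
    obtain ⟨w, _, rfl⟩ := Finset.mem_image.1 hy
    exact g0 w
  -- one end, one level
  have one1 : ∀ s ∈ range (5 * T + 1), ∀ y ∈ vals gw,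
      y * (n * (c0 * ∑ m ∈ range J, tb.Ps.E (fun w => ind (gw w = y ∧ σ w = s) *
        (ind (lw s w ∧ (nw s w).length = m + 1) * dl (fun _ => Hs) fs (nw s w) w)))) ≤
      y * (A1 n eps th1 M * tb.Ps.E (fun w => ind (gw w = y ∧ σ w = s) * ((nw s w).length : ℝ)) +
        2 * (J + 1) * Real.sqrt th1 * tb.Ps.E (fun w => ind (gw w = y ∧ σ w = s) * 1) +
        n * tb.Ps.E (fun w => ind (gw w = y ∧ σ w = s) * gdq h v prr i (cl s) e (tb.pt (cl s) w))) := by
    intro s hs y hy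
    rcases (hy0 y hy).eq_or_lt with h0 | h0
    · rw [← h0, zero_mul, zero_mul]
    refine mul_le_mul_of_nonneg_left ?_ h0.le
    have e1 : ∀ m, (fun w => ind (gw w = y ∧ σ w = s) * (ind (lw s w ∧ (nw s w).length = m + 1) *
        dl (fun _ => Hs) fs (nw s w) w)) = fun w => ind ((gw w = y ∧ σ w = s) ∧ lw s w ∧ (nw s w).length = m + 1) *
          dl (fun _ => Hs) fs (nw s w) w := by
      intro m
      funext w
      rw [ind_and (gw w = y ∧ σ w = s), mul_assoc]
    simp only [e1]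
    by_cases hrs : r < s
    · have hs' : s ≤ 5 * T := Nat.lt_succ_iff.1 (mem_range.1 hs)
      have hlv : cl s ≤ T := by
        unfold cl
        omega
      have hF : Fac (cn tb v j s) (fun w => gw w = y ∧ σ w = s) := by
        intro a b hab
        have h1 : gw a = gw b := hg a b ((cn_filt j).le hrs.le a b hab)
        have h2 : (σ a = s) = (σ b = s) := by
          have : ind (σ a = s) = ind (σ b = s) := Stp.eq_fac (cn_filt (tb := tb) (v := v) j) hσc s a b hab
          by_cases h3 : σ a = s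
          · by_cases h4 : σ b = s
            · simp [h3, h4]
            · rw [ind_of h3, ind_not h4] at this
              norm_num at this
          · by_cases h4 : σ b = s
            · rw [ind_not h3, ind_of h4] at this
              norm_num at this
            · simp [h3, h4]
        show (gw a = y ∧ σ a = s) = (gw b = y ∧ σ b = s)
        rw [h1, h2]
      have h3 := end_pay (h := h) (tb := tb) H R hn hN1 hji hlv (he s hrs) (cl_ge s) hM (x := x) (Hs := Hs) (fs := fs) hH hf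
        (c0 := c0) eps0 hF (litW_fac (P := tb.Ps) (X := Xs) (H := fun _ => Hs) (f := fs) (kap := kap) (lam := lam)
          (K := K) (th := th) (x := x) fX (eps := ep1) hrs.le) (nmW_fac (P := tb.Ps) (X := Xs) (H := fun _ => Hs)
          (f := fs) (kap := kap) (lam := lam) (K := K) (th := th) (x := x) fX hrs.le) (fun w p hp => by
          obtain ⟨t, _, k, _, h4, _⟩ := mem_nm (show p ∈ nm (Wr tb.Ps Xs r w) Xs (fun _ => Hs) fs kap lam K th x s w
            from hp)
          exact ⟨k, by rw [h4]⟩) (fun w hw hF' k => hHs w hw (by rw [hF'.1]; exact h0.ne') k)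
          (fun w hw hF' c => hone w hw (by rw [hF'.1]; exact h0.ne') c) t1 t1' (J := J)
      simp only [mul_one]
      exact h3
    · have hno : ∀ w, ¬ (gw w = y ∧ σ w = s) := fun w hw => hrs (hw.2 ▸ hσr w)
      have z1 : ∀ w, ind (gw w = y ∧ σ w = s) = 0 := fun w => ind_not (hno w)
      have z2 : ∀ m w, ind ((gw w = y ∧ σ w = s) ∧ lw s w ∧ (nw s w).length = m + 1) = 0 := fun m w =>
        ind_not fun hh => hno w hh.1
      simp only [z1, z2, zero_mul, FP.E_const, Finset.sum_const_zero, mul_zero, add_zero]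
      exact le_refl _
  -- sum over the ends and the levels
  set Sm : ℝ := ∑ m ∈ range J, tb.Ps.E (fun w => gw w * (ind (lw (σ w) w ∧ (nw (σ w) w).length = m + 1) *
    dl (fun _ => Hs) fs (nw (σ w) w) w)) with hSm
  set G : ℝ := ∑ s ∈ range (5 * T + 1),
    tb.Ps.E (fun w => gw w * (ind (σ w = s) * gdq h v prr i (cl s) e (tb.pt (cl s) w))) with hG
  set Lt : ℝ := tb.Ps.E (fun w => gw w * ((nw (σ w) w).length : ℝ)) with hLt
  have q1 : n * (c0 * Sm) = ∑ s ∈ range (5 * T + 1), ∑ y ∈ vals gw,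
      y * (n * (c0 * ∑ m ∈ range J, tb.Ps.E (fun w => ind (gw w = y ∧ σ w = s) *
        (ind (lw s w ∧ (nw s w).length = m + 1) * dl (fun _ => Hs) fs (nw s w) w)))) := by
    have h1 : Sm = ∑ m ∈ range J, ∑ s ∈ range (5 * T + 1), ∑ y ∈ vals gw, y * tb.Ps.E (fun w =>
        ind (gw w = y ∧ σ w = s) * (ind (lw s w ∧ (nw s w).length = m + 1) * dl (fun _ => Hs) fs (nw s w) w)) :=
      Finset.sum_congr rfl fun m _ => spl fun s w => ind (lw s w ∧ (nw s w).length = m + 1) *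
        dl (fun _ => Hs) fs (nw s w) w
    rw [h1, Finset.sum_comm, Finset.mul_sum, Finset.mul_sum]
    refine Finset.sum_congr rfl fun s _ => ?_
    rw [Finset.sum_comm, Finset.mul_sum, Finset.mul_sum]
    refine Finset.sum_congr rfl fun y _ => ?_
    rw [← Finset.mul_sum]
    ring
  have q2 : Lt = ∑ s ∈ range (5 * T + 1), ∑ y ∈ vals gw, y * tb.Ps.E (fun w => ind (gw w = y ∧ σ w = s) *
      ((nw s w).length : ℝ)) := spl fun s w => ((nw s w).length : ℝ)
  have q3 : tb.Ps.E gw = ∑ s ∈ range (5 * T + 1), ∑ y ∈ vals gw, y * tb.Ps.E (fun w =>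
      ind (gw w = y ∧ σ w = s) * 1) := by
    have h1 := spl fun _ _ => 1
    simp only [mul_one] at h1 ⊢
    exact h1
  have q4 : G = ∑ s ∈ range (5 * T + 1), ∑ y ∈ vals gw, y * tb.Ps.E (fun w => ind (gw w = y ∧ σ w = s) *
      gdq h v prr i (cl s) e (tb.pt (cl s) w)) :=
    Finset.sum_congr rfl fun s _ => spl1 s fun w => gdq h v prr i (cl s) e (tb.pt (cl s) w)
  have key : n * (c0 * Sm) ≤ A1 n eps th1 M * Lt + 2 * (J + 1) * Real.sqrt th1 * tb.Ps.E gw + n * G := by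
    rw [q1, q2, q3, q4, Finset.mul_sum, Finset.mul_sum, Finset.mul_sum, ← Finset.sum_add_distrib,
      ← Finset.sum_add_distrib]
    refine Finset.sum_le_sum fun s hs => ?_
    rw [Finset.mul_sum, Finset.mul_sum, Finset.mul_sum, ← Finset.sum_add_distrib, ← Finset.sum_add_distrib]
    refine Finset.sum_le_sum fun y hy => (one1 s hs y hy).trans (le_of_eq ?_)
    ring
  have hA0 : 0 ≤ A1 n eps th1 M := by
    have h1 := Real.log_nonneg (show (1 : ℝ) ≤ 1 / th1 by rw [le_div_iff₀ t1]; linarith)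
    have h2 : 0 ≤ Real.log (2 * M) := Real.log_nonneg (by
      have : (1 : ℝ) ≤ M := by exact_mod_cast hM
      linarith)
    have h3 := mul_nonneg hn0.le eps0
    unfold A1
    linarith
  set Er : ℝ := 2 * (J + 1) * Real.sqrt th1 * tb.Ps.E gw with hEr
  -- absorption
  have r1 : kap * Lt ≤ cv := p2
  have r2 : lam * cv ≤ 4 * Sm := p1
  have r3 : n * c0 * (lam * cv) ≤ 4 * (A1 n eps th1 M * Lt + Er + n * G) := by
    have h1 := mul_le_mul_of_nonneg_left r2 (mul_nonneg hn0.le c00)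
    nlinarith [h1, key]
  have r4 : 8 * (A1 n eps th1 M * Lt) ≤ n * c0 * lam * cv := by
    have h1 : 8 * A1 n eps th1 M * (kap * Lt) ≤ 8 * A1 n eps th1 M * cv :=
      mul_le_mul_of_nonneg_left r1 (by linarith)
    have h2 : 8 * A1 n eps th1 M * cv ≤ n * c0 * lam * kap * cv := mul_le_mul_of_nonneg_right hA cv0
    have h3 : kap * (8 * (A1 n eps th1 M * Lt)) ≤ kap * (n * c0 * lam * cv) := by nlinarith [h1, h2]
    exact le_of_mul_le_mul_left h3 k0
  have r5 : n * (c0 * lam * cv) ≤ n * (8 * (2 * (J + 1) * Real.sqrt th1 / n * tb.Ps.E gw + G)) := by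
    have h1 : n * (8 * (2 * (J + 1) * Real.sqrt th1 / n * tb.Ps.E gw + G)) = 8 * Er + 8 * (n * G) := by
      rw [hEr]
      field_simp
    rw [h1]
    nlinarith [r3, r4]
  exact le_of_mul_le_mul_left r5 hn0

/-! ## all lives -/

/-- events of the class of the vertex are seen by the letters of the tested top -/
theorem zb_cn {j i : Fin 3} (hji : j ≠ i) (s : ℕ) (w0 : Om W X β) {α : Type*} {g : Om W X β → α}
    (hg : Fac (cn tb v j s) g) : Fac (ZbQ D v s i) (fun p => g (up w0 p)) := by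
  intro a b hab
  have h1 := Prod.mk.inj (show (lo (SL v s) (univ.erase i) a, BB D (TP.nn s) (univ.erase i) a) =
    (lo (SL v s) (univ.erase i) b, BB D (TP.nn s) (univ.erase i) b) from hab)
  have h2 := lo_eq.1 h1.1
  have h3 := BB_eq.1 h1.2
  have hj : j ∈ (univ.erase i : Finset (Fin 3)) := Finset.mem_erase.2 ⟨hji, mem_univ _⟩
  have k1 : (∅ : Finset (Fin 3)) ⊂ univ.erase i := Finset.empty_ssubset.2 ⟨j, hj⟩
  have k2 : ({j} : Finset (Fin 3)) ⊂ univ.erase i := by
    have key : ∀ j i : Fin 3, j ≠ i → ({j} : Finset (Fin 3)) ⊂ univ.erase i := by decide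
    exact key j i hji
  have e1 : Um v (nc s ∅) ∅ a.1 a.2.1 = Um v (nc s ∅) ∅ b.1 b.2.1 := (LL_eq.1 (h2 ∅ k1)).1
  have e2 : Um v (nc s {j}) {j} a.1 a.2.1 = Um v (nc s {j}) {j} b.1 b.2.1 := (LL_eq.1 (h2 {j} k2)).1
  refine hg _ _ (Prod.ext ?_ ?_)
  · show (a.2.1 j, Um v (nc s {j}) {j} a.1 a.2.1) = (b.2.1 j, Um v (nc s {j}) {j} b.1 b.2.1)
    rw [h3.1 j hj, e2]
  · show (Um v (nc s ∅) ∅ a.1 a.2.1, (D.qa (TP.nn s) a.1, fun k => D.qb (TP.nn s) (a.2.1 k))) =
      (Um v (nc s ∅) ∅ b.1 b.2.1, (D.qa (TP.nn s) b.1, fun k => D.qb (TP.nn s) (b.2.1 k)))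
    rw [e1, h3.2.1, show (fun k => D.qb (TP.nn s) (a.2.1 k)) = fun k => D.qb (TP.nn s) (b.2.1 k) from
      funext fun k => h3.2.2 k]

theorem nx_ex (en : ℕ → Om W X β → Prop) (N r : ℕ) (w : Om W X β) : ∃ s, r < s ∧ (en s w ∨ N ≤ s) :=
  ⟨max (r + 1) N, by omega, Or.inr (le_max_right _ _)⟩

open Classical in
/-- end of the life which starts at `r` -/
def nx (en : ℕ → Om W X β → Prop) (N r : ℕ) (w : Om W X β) : ℕ := Nat.find (nx_ex en N r w)

section nxt

variable {en : ℕ → Om W X β → Prop} {N : ℕ}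

theorem lt_nx (r : ℕ) (w : Om W X β) : r < nx en N r w := by
  classical
  exact (Nat.find_spec (nx_ex en N r w)).1

theorem nx_or (r : ℕ) (w : Om W X β) : en (nx en N r w) w ∨ N ≤ nx en N r w := by
  classical
  exact (Nat.find_spec (nx_ex en N r w)).2

theorem nx_not {r s : ℕ} {w : Om W X β} (h1 : r < s) (h2 : s < nx en N r w) : ¬ en s w ∧ s < N := by
  classical
  have h3 := Nat.find_min (nx_ex en N r w) h2
  exact ⟨fun h4 => h3 ⟨h1, Or.inl h4⟩, not_le.1 fun h4 => h3 ⟨h1, Or.inr h4⟩⟩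

theorem nx_le_of {r s : ℕ} {w : Om W X β} (h1 : r < s) (h2 : en s w ∨ N ≤ s) : nx en N r w ≤ s := by
  classical
  exact Nat.find_min' (nx_ex en N r w) ⟨h1, h2⟩

theorem nx_le {r : ℕ} (hr : r < N) (w : Om W X β) : nx en N r w ≤ N := nx_le_of hr (Or.inr le_rfl)

theorem nx_iff {r s : ℕ} {w : Om W X β} : nx en N r w ≤ s ↔ ∃ s' ≤ s, r < s' ∧ (en s' w ∨ N ≤ s') :=
  ⟨fun h => ⟨nx en N r w, h, lt_nx r w, nx_or r w⟩, fun ⟨_, h1, h2, h3⟩ => (nx_le_of h2 h3).trans h1⟩

theorem nx_eq {r s : ℕ} {w : Om W X β} (hr : r < s) :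
    nx en N r w = s ↔ (en s w ∨ N ≤ s) ∧ ∀ q, r < q → q < s → ¬ (en q w ∨ N ≤ q) := by
  constructor
  · rintro rfl
    exact ⟨nx_or r w, fun q h1 h2 h3 => by
      have := nx_not h1 h2
      rcases h3 with h3 | h3
      · exact this.1 h3
      · omega⟩
  · rintro ⟨h1, h2⟩
    refine le_antisymm (nx_le_of hr h1) (not_lt.1 fun h3 => ?_)
    exact h2 _ (lt_nx r w) h3 (nx_or r w)

theorem nx_fac {j : Fin 3} (hen : ∀ s, Fac (cn tb v j s) (en s)) (r s : ℕ) :
    Fac (cn tb v j s) (fun w => nx en N r w ≤ s) := by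
  intro a b hab
  refine propext ?_
  show nx en N r a ≤ s ↔ nx en N r b ≤ s
  rw [nx_iff, nx_iff]
  refine exists_congr fun s' => and_congr_right fun hs' => and_congr_right fun _ => ?_
  have h1 : en s' a = en s' b := hen s' a b ((cn_filt j).le hs' a b hab)
  rw [h1]

end nxt

theorem cvW_split {P : FP (Om W X β)} {κ : ℕ → Type*} {Xs : ∀ t, Om W X β → κ t} {Rw : Type*}
    {H : ℕ → Rw → Om W X β → Prop} {f : Rw → Om W X β → ℝ} {kap lam : ℝ} {K M : ℕ} {x : Fin M → Rw} {r : ℕ}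
    {g : Om W X β → ℝ} {σ : Om W X β → ℕ} {ξ : Type*} (S : Finset ξ) (q : Om W X β → ξ) (hq : ∀ w, q w ∈ S) :
    cvW P Xs H f kap lam K x r g σ = ∑ e ∈ S, cvW P Xs H f kap lam K x r (fun w => g w * ind (q w = e)) σ := by
  classical
  unfold cvW
  rw [← FP.E_sum]
  refine P.E_congr fun z _ => ?_
  rw [← Finset.sum_mul, ← Finset.mul_sum]
  congr 1
  rw [Finset.sum_eq_single (q z) (fun e _ he => ind_not fun hh => he hh.symm) (fun hh => absurd (hq z) hh),
    ind_of rfl, mul_one]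

/-- the two possible states of the tables of `r` -/
def Er (r : ℕ) : Finset ℕ := {r, 5 * (r / 5) + 5}

theorem etl_Er {tl : ℕ → Om W X β → Prop} (r : ℕ) (w : Om W X β) : etl tl r w ∈ Er r := by
  unfold etl Er
  split_ifs <;> simp

theorem Er_le {r e s : ℕ} (he : e ∈ Er r) (hs : r < s) : e ≤ 5 * cl s := by
  unfold Er at he
  rw [Finset.mem_insert, Finset.mem_singleton] at he
  unfold cl
  omega

theorem Er_T {r e : ℕ} (he : e ∈ Er r) (hr : r < 5 * T) : e < 5 * T + 1 := by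
  unfold Er at he
  rw [Finset.mem_insert, Finset.mem_singleton] at he
  omega

/-- **localised gains on weights** -/
theorem gain_wt (H : D.Hyp dg prr al T Lam) (hc : Codes D v) {j i : Fin 3} (hji : j ≠ i) {s e : ℕ} (hs : s ≤ 5 * T)
    (he : e ≤ 5 * cl s) {g g' : Om W X β → ℝ} (hg : Fac (cn tb v j s) g) (hg' : Fac (cn tb v j s) g')
    (hgg : ∀ w, g w ≤ g' w) :
    tb.Ps.E (fun w => g w * gdq h v prr i (cl s) e (tb.pt (cl s) w)) ≤
      tb.Ps.E (fun w => g' w * gdq h v prr i (cl s) e (tb.pt (cl s) w)) := by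
  classical
  obtain ⟨w0, hw0⟩ := tb.Ps.exists_p_ne
  set d : Om W X β → ℝ := fun w => g' w - g w with hd
  have hdf : Fac (cn tb v j s) d := fun a b hab => by
    show g' a - g a = g' b - g b
    rw [hg a b hab, hg' a b hab]
  have h1 : 0 ≤ tb.Ps.E (fun w => d w * gdq h v prr i (cl s) e (tb.pt (cl s) w)) := by
    rw [sum_vl]
    refine Finset.sum_nonneg fun y hy => ?_
    obtain ⟨w, _, rfl⟩ := Finset.mem_image.1 hy
    refine mul_nonneg (by have := hgg w; simp only [hd]; linarith) ?_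
    have hEv : Fac (cn tb v j s) (fun u => d u = d w) := fun a b hab => by
      show (d a = d w) = (d b = d w)
      rw [hdf a b hab]
    have hcs : cl s ≤ T := PayQ.cl_le hs
    rw [tr_E h hcs w0 ((sgt_cn hc j s).trans hEv) (gdq h v prr i (cl s) e)]
    exact payq_nn h H hcs he ((ZbQ_Lw (cl_ge s) i).trans (zb_cn hji s w0 hEv))
  have h2 : tb.Ps.E (fun w => d w * gdq h v prr i (cl s) e (tb.pt (cl s) w)) =
      tb.Ps.E (fun w => g' w * gdq h v prr i (cl s) e (tb.pt (cl s) w)) -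
        tb.Ps.E (fun w => g w * gdq h v prr i (cl s) e (tb.pt (cl s) w)) := by
    rw [← FP.E_sub]
    refine tb.Ps.E_congr fun w _ => ?_
    simp only [hd]
    ring
  linarith

/-- **THE GAINS OF ALL LIVES** on the space with tables -/
theorem gain_all (H : D.Hyp dg prr al T Lam) (R : Run h (pr3 (Fin 3) n N1) (SS1 (Fin 3)) (AdmDep D) v) (hn : 1 ≤ n)
    (hN1 : 1 ≤ N1) {j i : Fin 3} (hji : j ≠ i) {en tl : ℕ → Om W X β → Prop} (hen : ∀ s, Fac (cn tb v j s) (en s))
    (htl : ∀ s, Fac (cn tb v j s) (tl s)) :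
    ∑ r ∈ range (5 * T), ∑ e ∈ Er r, ∑ s ∈ range (5 * T + 1), tb.Ps.E (fun w =>
      ind (en r w ∧ etl tl r w = e ∧ nx en (5 * T) r w = s) * gdq h v prr i (cl s) e (tb.pt (cl s) w)) ≤ 5 * Lam := by
  classical
  obtain ⟨w0, hw0⟩ := tb.Ps.exists_p_ne
  set en' : ℕ → Om W X β → Prop := fun q w => en q w ∨ 5 * T ≤ q with hen'
  have fen : ∀ q, Fac (cn tb v j q) (en' q) := fun q a b hab => by
    show (en q a ∨ 5 * T ≤ q) = (en q b ∨ 5 * T ≤ q)
    rw [hen q a b hab]
  have key := payq_sum (i := i) h H R hn hN1 (en := fun q p => en' q (up w0 p)) (tl := fun q p => tl q (up w0 p))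
    (fun q _ => zb_cn hji q w0 (fen q)) (fun q _ => zb_cn hji q w0 (htl q))
  refine le_trans (le_of_eq ?_) key
  rw [Finset.sum_comm (s := range (5 * T + 1)) (t := range (5 * T + 1)) (f := fun s r => ∑ e ∈ range (5 * T + 1),
    (D.P h (cl s)).E (fun w => ind (Lf (fun q p => en' q (up w0 p)) (fun q p => tl q (up w0 p)) r e s w) *
      gdq h v prr i (cl s) e w))]
  -- the last state starts nothing
  rw [Finset.sum_range_succ (n := 5 * T)]
  have z1 : ∑ s ∈ range (5 * T + 1), ∑ e ∈ range (5 * T + 1), (D.P h (cl s)).E (fun w =>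
      ind (Lf (fun q p => en' q (up w0 p)) (fun q p => tl q (up w0 p)) (5 * T) e s w) *
        gdq h v prr i (cl s) e w) = 0 := by
    refine Finset.sum_eq_zero fun s hs => Finset.sum_eq_zero fun e _ => ?_
    rw [← (D.P h (cl s)).E_const 0]
    refine (D.P h (cl s)).E_congr fun w _ => ?_
    rw [ind_not, zero_mul]
    intro hh
    have := hh.1
    have := mem_range.1 hs
    omega
  rw [z1, add_zero]
  refine Finset.sum_congr rfl fun r hr => ?_
  have hr' : r < 5 * T := mem_range.1 hr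
  rw [Finset.sum_comm]
  refine Finset.sum_congr rfl fun s hs => ?_
  have hs' : s ≤ 5 * T := Nat.lt_succ_iff.1 (mem_range.1 hs)
  have hsub : Er r ⊆ range (5 * T + 1) := fun e he => mem_range.2 (Er_T he hr')
  rw [← Finset.sum_subset hsub fun e _ he => ?_]
  · refine Finset.sum_congr rfl fun e he => ?_
    by_cases hrs : r < s
    · have hEv : Fac (cn tb v j s) (Lf en' tl r e s) := Lf_fac (A := fun q => cn tb v j q) (cn_filt j) fen htl r e le_rfl
      have e1 : ∀ w, ind (en r w ∧ etl tl r w = e ∧ nx en (5 * T) r w = s) = ind (Lf en' tl r e s w) := by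
        intro w
        congr 1
        refine propext ?_
        rw [nx_eq hrs]
        unfold Lf
        constructor
        · rintro ⟨a1, a2, a3, a4⟩
          exact ⟨hrs, Or.inl a1, a4, a3, a2.symm⟩
        · rintro ⟨_, a1, a4, a3, a2⟩
          exact ⟨a1.resolve_right (by omega), a2.symm, a3, a4⟩
      rw [tb.Ps.E_congr fun w _ => by rw [e1 w], tr_E h (PayQ.cl_le hs') w0 ((sgt_cn R.codes j s).trans hEv)
        (gdq h v prr i (cl s) e)]
      rfl
    · have z2 : ∀ w, ind (en r w ∧ etl tl r w = e ∧ nx en (5 * T) r w = s) = 0 := fun w => ind_not fun hh => by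
        have := lt_nx (en := en) (N := 5 * T) r w
        omega
      have z3 : ∀ w : Pt (Fin 3) X β φ, ind (Lf (fun q p => en' q (up w0 p)) (fun q p => tl q (up w0 p)) r e s w) = 0 := fun w =>
        ind_not fun hh => hrs hh.1
      rw [tb.Ps.E_congr (g := fun _ => (0 : ℝ)) fun w _ => by rw [z2 w, zero_mul],
        (D.P h (cl s)).E_congr (g := fun _ => (0 : ℝ)) fun w _ => by rw [z3 w, zero_mul], FP.E_const, FP.E_const]
  · rw [← (D.P h (cl s)).E_const 0]
    refine (D.P h (cl s)).E_congr fun w _ => ?_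
    rw [ind_not, zero_mul]
    intro hh
    refine he ?_
    rw [hh.2.2.2.2]
    unfold etl Er
    split_ifs <;> simp

/-- payments for all lives of the exact vertex `j`, tested top `i`; the bounds of the tests for the starts `r < 5 T` only -/
theorem pay_lives_r (H : D.Hyp dg prr al T Lam) (R : Run h (pr3 (Fin 3) n N1) (SS1 (Fin 3)) (AdmDep D) v) (hn : 1 ≤ n)
    (hN1 : 1 ≤ N1) {j i : Fin 3} (hji : j ≠ i) {en tl : ℕ → Om W X β → Prop} (hen : ∀ s, Fac (cn tb v j s) (en s))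
    (htl : ∀ s, Fac (cn tb v j s) (tl s)) {M : ℕ} (hM : 1 ≤ M) {Rw : Type*} [Fintype Rw]
    {Hs : ℕ → Rw → Om W X β → Prop} {fs : ℕ → Rw → Om W X β → ℝ}
    {Hp : ℕ → ℕ → Rw → Pt (Fin 3) X β φ → Prop} {fp : ℕ → ℕ → Rw → Pt (Fin 3) X β φ → ℝ}
    (hH : ∀ r e a, Fac (fun p => (FQ v (e / 5) i p, ZbQ D v e i p)) (Hp r e a))
    (hf : ∀ r e a, Fac (fun p => (FQ v (e / 5) i p, ZbQ D v e i p)) (fp r e a))
    {g : ℕ → (Fin M → Rw) → Om W X β → ℝ} (hg : ∀ r x, Fac (cn tb v j r) (g r x)) (g0 : ∀ r x w, 0 ≤ g r x w)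
    (g1 : ∀ r w, ∑ x, g r x w ≤ ind (en r w))
    (hHs : ∀ r < 5 * T, ∀ x w, tb.Ps.p w ≠ 0 → g r x w ≠ 0 → ∀ e, etl tl r w = e → ∀ k,
      (Hs r (x k) w ↔ Hp r e (x k) (tb.pt (e / 5) w)) ∧ fs r (x k) w = fp r e (x k) (tb.pt (e / 5) w))
    {c0 eps : ℝ} (c00 : 0 ≤ c0) (eps0 : 0 ≤ eps)
    (hone : ∀ r < 5 * T, ∀ x w, tb.Ps.p w ≠ 0 → g r x w ≠ 0 → ∀ e, etl tl r w = e → ∀ c : List (Fin M × Bool),
      (D.P h (e / 5)).ce (ZbQ D v e i) (fun q => Real.exp (c0 * dlF (fun k => Hp r e (x k)) (fun k => fp r e (x k)) c q))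
        (tb.pt (e / 5) w) ≤ Real.exp (eps * c.length))
    {kap lam th ep1 L : ℝ} {K J : ℕ} (hK : 0 < K) (k0 : 0 < kap) (t0 : 0 < th) (l0 : 0 ≤ lam) (L0 : 0 ≤ L)
    (hL : ∀ r < 5 * T, ∀ a z, fs r a z ≤ L)
    (hL' : ∀ r < 5 * T, ∀ a z, -L ≤ fs r a z) (e0 : 0 < ep1) (he1 : 4 * L * ep1 ≤ lam * kap)
    (hth : 4 * L * th ≤ lam * ep1) (hJ : 1 < th * kap * (J + 1)) {th1 : ℝ} (t1 : 0 < th1) (t1' : th1 ≤ 1)
    (hA : 8 * A1 n eps th1 M ≤ n * c0 * lam * kap) :
    c0 * lam * ∑ r ∈ range (5 * T), ∑ x : Fin M → Rw, cvW tb.Ps (fun s => sgt D {j} (TP.nn s)) (fun _ => Hs r) (fs r)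
      kap lam K x r (g r x) (nx en (5 * T) r) ≤
      8 * (5 * Lam) + 16 * (J + 1) * Real.sqrt th1 / n * ∑ r ∈ range (5 * T), tb.Ps.Pr (en r) := by
  classical
  -- one start, one list, one state of the tables
  have one : ∀ r ∈ range (5 * T), ∀ x : Fin M → Rw, ∀ e ∈ Er r,
      c0 * lam * cvW tb.Ps (fun s => sgt D {j} (TP.nn s)) (fun _ => Hs r) (fs r) kap lam K x r
        (fun w => g r x w * ind (etl tl r w = e)) (nx en (5 * T) r) ≤
      8 * (2 * (J + 1) * Real.sqrt th1 / n * tb.Ps.E (fun w => g r x w * ind (etl tl r w = e)) +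
        ∑ s ∈ range (5 * T + 1), tb.Ps.E (fun w => g r x w * ind (etl tl r w = e) *
          (ind (nx en (5 * T) r w = s) * gdq h v prr i (cl s) e (tb.pt (cl s) w)))) := by
    intro r hr x e he
    have hr' : r < 5 * T := mem_range.1 hr
    have hne : ∀ w, g r x w * ind (etl tl r w = e) ≠ 0 → g r x w ≠ 0 ∧ etl tl r w = e := by
      intro w hw
      refine ⟨left_ne_zero_of_mul hw, ?_⟩
      by_contra hh
      exact hw (by rw [ind_not hh, mul_zero])
    refine life_one (h := h) (tb := tb) H R hn hN1 hji (fun w => lt_nx r w) (fun w => nx_le hr' w)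
      (fun s => nx_fac hen r s) (fun s hs => Er_le he hs) hM (x := x) (Hs := Hs r) (fs := fs r)
      (Hp := fun k => Hp r e (x k)) (fp := fun k => fp r e (x k)) (fun k => hH r e (x k)) (fun k => hf r e (x k)) ?_
      (fun w => mul_nonneg (g0 r x w) (ind_nonneg _)) (fun w hw hgw => ?_) c00 eps0 (fun w hw hgw => ?_) hK k0 t0 l0 L0
      (hL r hr') (hL' r hr') e0 he1 hth hJ t1 t1' hA
    · intro a b hab
      show g r x a * ind (etl tl r a = e) = g r x b * ind (etl tl r b = e)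
      rw [hg r x a b hab, etl_fac (A := fun q => cn tb v j q) htl r a b hab]
    · exact hHs r hr' x w hw (hne w hgw).1 e (hne w hgw).2
    · exact hone r hr' x w hw (hne w hgw).1 e (hne w hgw).2
  -- the covered masses
  have e1 : c0 * lam * ∑ r ∈ range (5 * T), ∑ x : Fin M → Rw, cvW tb.Ps (fun s => sgt D {j} (TP.nn s)) (fun _ => Hs r)
      (fs r) kap lam K x r (g r x) (nx en (5 * T) r) = ∑ r ∈ range (5 * T), ∑ x : Fin M → Rw, ∑ e ∈ Er r,
        c0 * lam * cvW tb.Ps (fun s => sgt D {j} (TP.nn s)) (fun _ => Hs r) (fs r) kap lam K x r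
          (fun w => g r x w * ind (etl tl r w = e)) (nx en (5 * T) r) := by
    rw [Finset.mul_sum]
    refine Finset.sum_congr rfl fun r _ => ?_
    rw [Finset.mul_sum]
    refine Finset.sum_congr rfl fun x _ => ?_
    rw [cvW_split (Er r) (fun w => etl tl r w) (fun w => etl_Er r w), Finset.mul_sum]
  rw [e1]
  have e2 : ∀ r ∈ range (5 * T), ∑ x : Fin M → Rw, ∑ e ∈ Er r, c0 * lam * cvW tb.Ps (fun s => sgt D {j} (TP.nn s))
      (fun _ => Hs r) (fs r) kap lam K x r (fun w => g r x w * ind (etl tl r w = e)) (nx en (5 * T) r) ≤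
      8 * (2 * (J + 1) * Real.sqrt th1 / n * tb.Ps.Pr (en r) + ∑ e ∈ Er r, ∑ s ∈ range (5 * T + 1), tb.Ps.E (fun w =>
        ind (en r w ∧ etl tl r w = e ∧ nx en (5 * T) r w = s) * gdq h v prr i (cl s) e (tb.pt (cl s) w))) := by
    intro r hr
    have hr' : r < 5 * T := mem_range.1 hr
    refine (Finset.sum_le_sum fun x _ => Finset.sum_le_sum fun e he => one r hr x e he).trans ?_
    have f1 : ∑ x : Fin M → Rw, ∑ e ∈ Er r, 8 * (2 * (J + 1) * Real.sqrt th1 / n * tb.Ps.E (fun w => g r x w *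
        ind (etl tl r w = e)) + ∑ s ∈ range (5 * T + 1), tb.Ps.E (fun w => g r x w * ind (etl tl r w = e) *
          (ind (nx en (5 * T) r w = s) * gdq h v prr i (cl s) e (tb.pt (cl s) w)))) =
        8 * (2 * (J + 1) * Real.sqrt th1 / n * ∑ x : Fin M → Rw, ∑ e ∈ Er r, tb.Ps.E (fun w => g r x w *
          ind (etl tl r w = e)) + ∑ e ∈ Er r, ∑ s ∈ range (5 * T + 1), ∑ x : Fin M → Rw, tb.Ps.E (fun w =>
            g r x w * ind (etl tl r w = e) * (ind (nx en (5 * T) r w = s) * gdq h v prr i (cl s) e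
              (tb.pt (cl s) w)))) := by
      simp only [Finset.mul_sum, mul_add, Finset.sum_add_distrib]
      congr 1
      rw [Finset.sum_comm]
      refine Finset.sum_congr rfl fun e _ => ?_
      rw [Finset.sum_comm]
    rw [f1]
    refine mul_le_mul_of_nonneg_left (add_le_add ?_ (Finset.sum_le_sum fun e he => Finset.sum_le_sum fun s hs => ?_))
      (by norm_num)
    · refine mul_le_mul_of_nonneg_left ?_ (by positivity)
      have f2 : ∀ x : Fin M → Rw, ∑ e ∈ Er r, tb.Ps.E (fun w => g r x w * ind (etl tl r w = e)) =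
          tb.Ps.E (g r x) := by
        intro x
        rw [← FP.E_sum]
        refine tb.Ps.E_congr fun w _ => ?_
        rw [← Finset.mul_sum, Finset.sum_eq_single (etl tl r w) (fun e _ he => ind_not fun hh => he hh.symm)
          (fun hh => absurd (etl_Er r w) hh), ind_of rfl, mul_one]
      rw [Finset.sum_congr rfl fun x _ => f2 x, ← FP.E_sum]
      exact tb.Ps.E_mono fun w _ => g1 r w
    · have hs' : s ≤ 5 * T := Nat.lt_succ_iff.1 (mem_range.1 hs)
      by_cases hrs : r < s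
      · have fnx : Fac (cn tb v j s) (fun w => ind (nx en (5 * T) r w = s)) := by
          have := Stp.eq_fac (cn_filt (tb := tb) (v := v) j) (σ := nx en (5 * T) r) (fun s a b hab =>
            iff_of_eq (nx_fac hen r s a b hab)) s
          exact this
        have f3 : ∀ w, ∑ x : Fin M → Rw, g r x w * ind (etl tl r w = e) * (ind (nx en (5 * T) r w = s) *
            gdq h v prr i (cl s) e (tb.pt (cl s) w)) = ((∑ x : Fin M → Rw, g r x w) * (ind (etl tl r w = e) *
              ind (nx en (5 * T) r w = s))) * gdq h v prr i (cl s) e (tb.pt (cl s) w) := by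
          intro w
          rw [Finset.sum_mul, Finset.sum_mul]
          exact Finset.sum_congr rfl fun x _ => by ring
        rw [← FP.E_sum, tb.Ps.E_congr fun w _ => f3 w]
        have f4 : ∀ w, ind (en r w ∧ etl tl r w = e ∧ nx en (5 * T) r w = s) =
            ind (en r w) * (ind (etl tl r w = e) * ind (nx en (5 * T) r w = s)) := fun w => by
          rw [ind_and, ind_and]
        rw [tb.Ps.E_congr (f := fun w => ind (en r w ∧ etl tl r w = e ∧ nx en (5 * T) r w = s) *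
          gdq h v prr i (cl s) e (tb.pt (cl s) w)) fun w _ => by rw [f4 w]]
        have l1 : ∀ {α : Type} {q : Om W X β → α}, Fac (cn tb v j r) q → Fac (cn tb v j s) q := fun hq a b hab =>
          hq a b ((cn_filt j).le hrs.le a b hab)
        have f5 : Fac (cn tb v j r) (fun w => ind (etl tl r w = e)) := fun a b hab => by
          show ind (etl tl r a = e) = ind (etl tl r b = e)
          rw [etl_fac (A := fun q => cn tb v j q) htl r a b hab]
        have f6 : Fac (cn tb v j r) (fun w => ∑ x : Fin M → Rw, g r x w) := fun a b hab =>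
          Finset.sum_congr rfl fun x _ => hg r x a b hab
        have f7 : Fac (cn tb v j r) (fun w => ind (en r w)) := Fac.ind fun a b hab => iff_of_eq (hen r a b hab)
        refine gain_wt (h := h) H R.codes hji hs' (Er_le he hrs) (((l1 f6).mul ((l1 f5).mul fnx)))
          ((l1 f7).mul ((l1 f5).mul fnx)) fun w => ?_
        exact mul_le_mul_of_nonneg_right (g1 r w) (mul_nonneg (ind_nonneg _) (ind_nonneg _))
      · have z1 : ∀ w, ind (nx en (5 * T) r w = s) = 0 := fun w => ind_not fun hh => by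
          have := lt_nx (en := en) (N := 5 * T) r w
          omega
        have z2 : ∀ w, ind (en r w ∧ etl tl r w = e ∧ nx en (5 * T) r w = s) = 0 := fun w => ind_not fun hh => by
          have := lt_nx (en := en) (N := 5 * T) r w
          omega
        simp only [z1, z2, zero_mul, mul_zero, FP.E_const, Finset.sum_const_zero]
        exact le_refl _
  refine (Finset.sum_le_sum e2).trans ?_
  have e3 := gain_all (tb := tb) (h := h) H R hn hN1 hji hen htl
  rw [← Finset.mul_sum, Finset.sum_add_distrib, ← Finset.mul_sum]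
  have e4 : 16 * (J + 1) * Real.sqrt th1 / n * ∑ r ∈ range (5 * T), tb.Ps.Pr (en r) =
      8 * (2 * (J + 1) * Real.sqrt th1 / n * ∑ r ∈ range (5 * T), tb.Ps.Pr (en r)) := by ring
  rw [e4, mul_add, add_comm]
  exact add_le_add (mul_le_mul_of_nonneg_left e3 (by norm_num)) le_rfl

/-- **PAYMENTS (P2), (P3): ALL LIVES OF THE EXACT VERTEX `j`, TESTED TOP `i`** -/
theorem pay_lives (H : D.Hyp dg prr al T Lam) (R : Run h (pr3 (Fin 3) n N1) (SS1 (Fin 3)) (AdmDep D) v) (hn : 1 ≤ n)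
    (hN1 : 1 ≤ N1) {j i : Fin 3} (hji : j ≠ i) {en tl : ℕ → Om W X β → Prop} (hen : ∀ s, Fac (cn tb v j s) (en s))
    (htl : ∀ s, Fac (cn tb v j s) (tl s)) {M : ℕ} (hM : 1 ≤ M) {Rw : Type*} [Fintype Rw]
    {Hs : ℕ → Rw → Om W X β → Prop} {fs : ℕ → Rw → Om W X β → ℝ}
    {Hp : ℕ → ℕ → Rw → Pt (Fin 3) X β φ → Prop} {fp : ℕ → ℕ → Rw → Pt (Fin 3) X β φ → ℝ}
    (hH : ∀ r e a, Fac (fun p => (FQ v (e / 5) i p, ZbQ D v e i p)) (Hp r e a))
    (hf : ∀ r e a, Fac (fun p => (FQ v (e / 5) i p, ZbQ D v e i p)) (fp r e a))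
    {g : ℕ → (Fin M → Rw) → Om W X β → ℝ} (hg : ∀ r x, Fac (cn tb v j r) (g r x)) (g0 : ∀ r x w, 0 ≤ g r x w)
    (g1 : ∀ r w, ∑ x, g r x w ≤ ind (en r w))
    (hHs : ∀ r < 5 * T, ∀ x w, tb.Ps.p w ≠ 0 → g r x w ≠ 0 → ∀ e, etl tl r w = e → ∀ k,
      (Hs r (x k) w ↔ Hp r e (x k) (tb.pt (e / 5) w)) ∧ fs r (x k) w = fp r e (x k) (tb.pt (e / 5) w))
    {c0 eps : ℝ} (c00 : 0 ≤ c0) (eps0 : 0 ≤ eps)
    (hone : ∀ r < 5 * T, ∀ x w, tb.Ps.p w ≠ 0 → g r x w ≠ 0 → ∀ e, etl tl r w = e → ∀ c : List (Fin M × Bool),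
      (D.P h (e / 5)).ce (ZbQ D v e i) (fun q => Real.exp (c0 * dlF (fun k => Hp r e (x k)) (fun k => fp r e (x k)) c q))
        (tb.pt (e / 5) w) ≤ Real.exp (eps * c.length))
    {kap lam th ep1 L : ℝ} {K J : ℕ} (hK : 0 < K) (k0 : 0 < kap) (t0 : 0 < th) (l0 : 0 ≤ lam) (L0 : 0 ≤ L)
    (hL : ∀ r a z, fs r a z ≤ L) (hL' : ∀ r a z, -L ≤ fs r a z) (e0 : 0 < ep1) (he1 : 4 * L * ep1 ≤ lam * kap)
    (hth : 4 * L * th ≤ lam * ep1) (hJ : 1 < th * kap * (J + 1)) {th1 : ℝ} (t1 : 0 < th1) (t1' : th1 ≤ 1)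
    (hA : 8 * A1 n eps th1 M ≤ n * c0 * lam * kap) :
    c0 * lam * ∑ r ∈ range (5 * T), ∑ x : Fin M → Rw, cvW tb.Ps (fun s => sgt D {j} (TP.nn s)) (fun _ => Hs r) (fs r)
      kap lam K x r (g r x) (nx en (5 * T) r) ≤
      8 * (5 * Lam) + 16 * (J + 1) * Real.sqrt th1 / n * ∑ r ∈ range (5 * T), tb.Ps.Pr (en r) :=
  pay_lives_r H R hn hN1 hji hen htl hM hH hf hg g0 g1 hHs c00 eps0 hone hK k0 t0 l0 L0 (fun r _ => hL r)
    (fun r _ => hL' r) e0 he1 hth hJ t1 t1' hA

end fin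

end

end Pool.Agent.GMH.PayI
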