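import Pool.Agent.GMH.RowA

/-!
# GMH/PayM (helper83): PAYMENTS IN THE MEAN

The mean form of `RowA.pay_rare`, whole law of the time `t`, no fixed class: `E` = event of the class of `K0` (function of the
hidden point, the points of `K0`, the node and the coins), `G` = hints, `psi r` = test of the letter of `J0` given the lower
letters for the fixed value `r` of the hints.

* `Hc_ev_le`, `Hc_ev_th` : entropy of an event given its class;
* `row_mean` : abstract form; `pay_gen`, `pay_mean` : at the state after the split of a run;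
* `pay_old` : tests normalised under older laws (family of starts `s`, selected by the lower letters), with the localised
  gain; `loc_gain` : the localised gain is at most the whole gain plus the price of the event.
-/

set_option autoImplicit false
set_option linter.unusedSectionVars false

namespace Pool.Agent.GMH.PayM

open Finset Pool.Agent.PWZ Pool.Agent.M3 Pool.Agent.GM Pool.Agent.GM.Harm Pool.Agent.GMH

/-! ## the entropy of an event given its class -/

section ev

variable {Om : Type*} [Fintype Om] (P : FP Om) {κ : Type*}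

theorem log_le_sqrt {y : ℝ} (hy : 0 < y) : Real.log y ≤ Real.sqrt y := by
  have hs : 0 < Real.sqrt y := Real.sqrt_pos.2 hy
  have h1 : Real.log (Real.sqrt y / 2) ≤ Real.sqrt y / 2 - 1 := Real.log_le_sub_one_of_pos (by positivity)
  rw [Real.log_div hs.ne' (by norm_num)] at h1
  have h2 : Real.log y = 2 * Real.log (Real.sqrt y) := by
    rw [Real.log_sqrt hy.le]
    ring
  have h3 := Real.log_two_lt_d9
  rw [h2]
  linarith

theorem plogp_le {p th : ℝ} (hp : 0 ≤ p) (hp1 : p ≤ 1) (ht : 0 < th) (ht1 : th ≤ 1) :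
    p * Real.log (1 / p) ≤ Real.log (1 / th) * p + Real.sqrt th := by
  rcases hp.eq_or_lt with rfl | hp0
  · simp only [zero_mul, mul_zero, zero_add]
    exact Real.sqrt_nonneg _
  have hlt : 0 ≤ Real.log (1 / th) := Real.log_nonneg (by rw [le_div_iff₀ ht]; linarith)
  rcases le_or_gt th p with h | h
  · have h1 : Real.log (1 / p) ≤ Real.log (1 / th) :=
      Real.log_le_log (by positivity) (one_div_le_one_div_of_le ht h)
    have h2 := mul_le_mul_of_nonneg_left h1 hp
    have h3 := Real.sqrt_nonneg th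
    linarith
  · have h1 := log_le_sqrt (y := 1 / p) (by positivity)
    have h2 := mul_le_mul_of_nonneg_left h1 hp
    have h3 : p * Real.sqrt (1 / p) = Real.sqrt p := by
      rw [Real.sqrt_div zero_le_one, Real.sqrt_one, mul_one_div]
      exact Real.div_sqrt
    have h4 : Real.sqrt p ≤ Real.sqrt th := Real.sqrt_le_sqrt h.le
    have h5 := mul_nonneg hlt hp
    linarith

/-- **entropy of an event given its class** -/
theorem Hc_ev_le (E : Om → Prop) (C : Om → κ) :
    P.Hc E C ≤ P.E (fun w => ind (E w) * Real.log (1 / P.ce C (fun v => ind (E v)) w)) + P.Pr E := by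
  set q : Om → ℝ := P.ce C (fun v => ind (E v)) with hq
  have q0 : ∀ w, 0 ≤ q w := fun w => P.ce_nonneg (fun _ _ => ind_nonneg _) w
  have q1 : ∀ w, P.p w ≠ 0 → q w ≤ 1 := fun w hw => P.ce_le_const (fun _ _ => ind_le_one _) hw
  rw [Hc_eq_E_log]
  have hin : ∀ w, P.p w ≠ 0 → E w → P.m C w / P.m (fun v => (E v, C v)) w = 1 / q w := by
    intro w hw hE
    have h1 : P.m (fun v => (E v, C v)) w = P.m C w * q w := by
      rw [hq]
      unfold FP.ce
      rw [mul_div_cancel₀ _ (P.m_pos C hw).ne']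
      unfold FP.m
      refine P.E_congr fun v _ => ?_
      rw [← ind_and]
      refine congrArg ind (propext ?_)
      rw [Prod.mk.injEq]
      exact ⟨fun hh => ⟨hh.2, by rw [hh.1]; exact hE⟩, fun hh => ⟨propext ⟨fun _ => hE, fun _ => hh.2⟩, hh.1⟩⟩
    rw [h1]
    have := (P.m_pos C hw).ne'
    rw [div_mul_eq_div_div, div_self this]
  have hout : ∀ w, P.p w ≠ 0 → ¬ E w → P.m C w / P.m (fun v => (E v, C v)) w = 1 / (1 - q w) := by
    intro w hw hE
    have h1 : P.m (fun v => (E v, C v)) w = P.m C w * (1 - q w) := by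
      rw [mul_sub, mul_one, hq]
      unfold FP.ce
      rw [mul_div_cancel₀ _ (P.m_pos C hw).ne']
      unfold FP.m
      rw [← FP.E_sub]
      refine P.E_congr fun v _ => ?_
      show ind ((E v, C v) = (E w, C w)) = ind (C v = C w) - ind (C v = C w) * ind (E v)
      by_cases hc : C v = C w
      · by_cases he : E v
        · rw [ind_not (p := (E v, C v) = (E w, C w)) (fun hh => hE ((Prod.mk.inj hh).1 ▸ he)), ind_of hc, ind_of he]
          norm_num
        · have e1 : E v = E w := propext ⟨fun hh => absurd hh he, fun hh => absurd hh hE⟩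
          rw [ind_of (p := (E v, C v) = (E w, C w)) (Prod.ext e1 hc), ind_of hc, ind_not he]
          norm_num
      · rw [ind_not (p := (E v, C v) = (E w, C w)) (fun hh => hc (Prod.mk.inj hh).2), ind_not hc]
        norm_num
    rw [h1]
    have := (P.m_pos C hw).ne'
    rw [div_mul_eq_div_div, div_self this]
  have h1 : P.E (fun w => Real.log (P.m C w / P.m (fun v => (E v, C v)) w)) =
      P.E (fun w => ind (E w) * Real.log (1 / q w)) + P.E (fun w => Real.log (1 / (1 - q w)) * (1 - ind (E w))) := by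
    rw [← FP.E_add]
    refine P.E_congr fun w hw => ?_
    by_cases hE : E w
    · rw [hin w hw hE, ind_of hE]
      ring
    · rw [hout w hw hE, ind_not hE]
      ring
  have hf : Fac C (fun w => Real.log (1 / (1 - q w))) := fun v w e => by
    show Real.log (1 / (1 - q v)) = _
    rw [hq, P.ce_fac C _ v w e]
  have h2 : P.E (fun w => Real.log (1 / (1 - q w)) * (1 - ind (E w))) ≤ P.Pr E := by
    have h3 := P.E_mul_ce hf (fun w => 1 - ind (E w))
    rw [← h3]
    have h4 : P.E q = P.Pr E := P.E_ce C _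
    rw [← h4]
    refine P.E_mono fun w hw => ?_
    have h5 : P.ce C (fun w => 1 - ind (E w)) w = 1 - q w := by
      rw [P.ce_sub, P.ce_const _ _ hw]
    rw [h5]
    rcases (q1 w hw).eq_or_lt with h6 | h6
    · rw [h6]
      norm_num
    · have h7 : 0 < 1 - q w := by linarith
      have h8 : 1 - 1 / (1 - q w) ≤ Real.log (1 - q w) := by
        have := Real.one_sub_inv_le_log_of_pos h7
        rwa [one_div]
      have h9 : Real.log (1 / (1 - q w)) ≤ 1 / (1 - q w) - 1 := by
        rw [one_div, Real.log_inv]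
        rw [one_div] at h8
        linarith
      have h10 := mul_le_mul_of_nonneg_right h9 h7.le
      have h11 : (1 / (1 - q w) - 1) * (1 - q w) = q w := by
        field_simp
        ring
      linarith
  linarith

/-- the same with a threshold -/
theorem Hc_ev_th (E : Om → Prop) (C : Om → κ) {th : ℝ} (ht : 0 < th) (ht1 : th ≤ 1) :
    P.Hc E C ≤ (Real.log (1 / th) + 1) * P.Pr E + Real.sqrt th := by
  refine (Hc_ev_le P E C).trans ?_
  set q : Om → ℝ := P.ce C (fun v => ind (E v)) with hq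
  have q0 : ∀ w, 0 ≤ q w := fun w => P.ce_nonneg (fun _ _ => ind_nonneg _) w
  have q1 : ∀ w, P.p w ≠ 0 → q w ≤ 1 := fun w hw => P.ce_le_const (fun _ _ => ind_le_one _) hw
  have hf : Fac C (fun w => Real.log (1 / q w)) := fun v w e => by
    show Real.log (1 / q v) = _
    rw [hq, P.ce_fac C _ v w e]
  have h1 : P.E (fun w => ind (E w) * Real.log (1 / q w)) = P.E (fun w => q w * Real.log (1 / q w)) := by
    have h2 := P.E_mul_ce hf (fun w => ind (E w))
    rw [P.E_congr (g := fun w => Real.log (1 / q w) * ind (E w)) (fun w _ => by ring), ← h2]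
    exact P.E_congr fun w _ => by ring
  have h3 : P.E (fun w => q w * Real.log (1 / q w)) ≤ P.E (fun w => Real.log (1 / th) * q w + Real.sqrt th) :=
    P.E_mono fun w hw => plogp_le (q0 w) (q1 w hw) ht ht1
  have h4 : P.E q = P.Pr E := P.E_ce C _
  rw [P.E_add, P.E_smul, P.E_const, h4] at h3
  linarith

end ev

/-! ## abstract form -/

section row

variable {Om K : Type*} {υ ν : Type*} {β : Finset K → Type*} [Fintype Om] {P : FP Om} {B : (J : Finset K) → Om → β J}
  {N : Finset K → ℝ} {S : Finset (Finset K)} {L : Finset K → Om → υ} {K0 J0 : Finset K} {E : Om → Prop}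
  {G : Finset K → Om → ν}

theorem joint_cost_eq' (hE : P.Pr E ≠ 0) (hG : On K0 G) :
    cost P B L (cutK K0 E G) K0 ≤ P.Hc E (fun w => (le L K0 w, B K0 w)) + P.Pr E * cost (P.cond E) B L G K0 := by
  set Z : Om → (Finset K → Option (Option ν)) × (Finset K → Option υ) × β K0 :=
    fun w => (lo (cutK K0 E G) K0 w, le L K0 w, B K0 w) with hZ
  have h1 : P.Hc (cutK K0 E G K0) Z ≤ P.Hc (fun w => (cutK K0 E G K0 w, E w)) Z :=
    P.Hc_mono Z ((Fac.fst _ _).trans (Fac.fst _ _))
  have h2 : P.Hc (fun w => (cutK K0 E G K0 w, E w)) Z = P.Hc E Z + P.Hc (cutK K0 E G K0) (fun w => (E w, Z w)) :=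
    P.Hc_chain _ _ _
  have h3 : P.Hc E Z ≤ P.Hc E (fun w => (le L K0 w, B K0 w)) := P.Hc_anti E (Fac.snd _ _)
  have h4 : P.Hc (cutK K0 E G K0) (fun w => (E w, Z w)) =
      P.Pr E * (P.cond E).Hc (cutK K0 E G K0) (fun w => (E w, Z w)) :=
    Hc_cut hE (Fac.fst _ _) (fun v w hv hw => by rw [cutK_off hv, cutK_off hw])
  have h5 : (P.cond E).Hc (cutK K0 E G K0) (fun w => (E w, Z w)) = cost (P.cond E) B L G K0 := by
    unfold cost
    refine Hc_congr_supp (fun v w hv hw => ?_) (fun v w hv hw _ => ?_)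
    · have e : E v = E w := propext ⟨fun _ => (cond_supp hE hw).1, fun _ => (cond_supp hE hv).1⟩
      simp only [hZ, Prod.mk.injEq, e, true_and, lo_cutK_eq_iff hG (cond_supp hE hv).1 (cond_supp hE hw).1]
    · exact cutK_eq_iff hG (cond_supp hE hv).1 (cond_supp hE hw).1
  have h6 : cost P B L (cutK K0 E G) K0 = P.Hc (cutK K0 E G K0) Z := rfl
  rw [h6]
  rw [h5] at h4
  linarith

/-- **joint addition in the mean** -/
theorem joint' (hE : P.Pr E ≠ 0) (hG : On K0 G) (hN : ∀ J ∈ S, 0 ≤ N J) (hK : K0 ∈ S)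
    (h : 0 ≤ Phi P B N S L (cutK K0 E G)) :
    P.Pr E * ∑ J ∈ above S K0, N J * (P.cond E).klc P (L J) (fun w => (lo L J w, B J w)) ≤
      2 * N K0 * P.Hc E (fun w => (le L K0 w, B K0 w)) + P.Pr E * Phi (P.cond E) B N S L G := by
  classical
  set HE := P.Hc E (fun w => (le L K0 w, B K0 w)) with hHE
  have key : ∀ J ∈ S, N J * (2 * cost P B L (cutK K0 E G) J - gain P B L (cutK K0 E G) J) ≤
      (if J = K0 then 2 * N K0 * HE else 0) + (P.Pr E *
        (N J * (2 * cost (P.cond E) B L G J - gain (P.cond E) B L G J)) -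
        (if K0 ⊂ J then P.Pr E * (N J * (P.cond E).klc P (L J) (fun w => (lo L J w, B J w))) else 0)) := by
    intro J hJ
    by_cases h1 : K0 ⊂ J
    · rw [if_pos h1, if_neg h1.ne', joint_cost_gt hE hG h1]
      have h2 := mul_le_mul_of_nonneg_left (joint_gain (B := B) (L := L) hE hG h1) (hN J hJ)
      nlinarith
    · rw [if_neg h1]
      by_cases h2 : J = K0
      · subst h2
        rw [if_pos rfl, gain_const fun v w => cutK_on.lo_const h1 v w, gain_const fun v w => hG.lo_const h1 v w]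
        have h3 := mul_le_mul_of_nonneg_left (joint_cost_eq' (B := B) (L := L) hE hG) (hN J hJ)
        rw [← hHE] at h3
        nlinarith
      · rw [if_neg h2]
        have h3 : ¬ K0 ⊆ J := fun h3 => h1 (lt_of_le_of_ne h3 (Ne.symm h2))
        rw [gain_const fun v w => cutK_on.lo_const h1 v w, gain_const fun v w => hG.lo_const h1 v w,
          cost_const fun v w => by rw [cutK_out h3, cutK_out h3], cost_const (hG J h3)]
        apply le_of_eq
        ring
  have h1 := (Finset.sum_le_sum key)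
  rw [Finset.sum_add_distrib, Finset.sum_sub_distrib, Finset.sum_ite_eq' S K0, if_pos hK,
    ← Finset.sum_filter, ← Finset.mul_sum, ← Finset.mul_sum] at h1
  change _ ≤ _ + (P.Pr E * _ - P.Pr E * ∑ J ∈ above S K0, N J * (P.cond E).klc P (L J) (fun w => (lo L J w, B J w))) at h1
  unfold Phi at h ⊢
  linarith

/-- **rows in the mean** -/
theorem row_mean (hG : On K0 G) (hN : ∀ J ∈ S, 0 ≤ N J) (hK : K0 ∈ S)
    (h : P.Pr E ≠ 0 → 0 ≤ Phi P B N S L (cutK K0 E G)) (hJ0 : J0 ∈ above S K0)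
    {psi : (Finset K → Option ν) → Om → ℝ} (hpsi : ∀ r, Fac (fun w => (L J0 w, lo L J0 w, B J0 w)) (psi r)) {c : ℝ}
    (hc : P.Pr E ≠ 0 → ∑ J ∈ S, N J * cost (P.cond E) B L G J ≤ c) :
    N J0 * P.E (fun w => ind (E w) * psi (lo G J0 w) w) ≤
      2 * N K0 * P.Hc E (fun w => (le L K0 w, B K0 w)) + 2 * c * P.Pr E +
      N J0 * P.E (fun w => ind (E w) * Real.log (P.ce (fun v => (lo L J0 v, B J0 v))
        (fun v => Real.exp (psi (lo G J0 w) v)) w)) := by
  classical
  have hH0 : 0 ≤ P.Hc E (fun w => (le L K0 w, B K0 w)) := P.Hc_nonneg _ _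
  have hNK := hN K0 hK
  by_cases h0 : P.Pr E = 0
  · have hz : ∀ f : Om → ℝ, P.E (fun w => ind (E w) * f w) = 0 := by
      intro f
      rw [← P.E_const 0]
      refine P.E_congr fun w hw => ?_
      have h1 : ¬ E w := by
        intro hE
        have h2 : P.p w * ind (E w) ≤ P.Pr E :=
          Finset.single_le_sum (f := fun v => P.p v * ind (E v)) (fun v _ => mul_nonneg (P.nn v) (ind_nonneg _))
            (mem_univ w)
        rw [ind_of hE, mul_one, h0] at h2
        exact hw (le_antisymm h2 (P.nn w))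
      rw [ind_not h1, zero_mul]
    rw [hz, hz, h0]
    have := mul_nonneg (mul_nonneg (zero_le_two : (0:ℝ) ≤ 2) hNK) hH0
    linarith
  have hpos : 0 < P.Pr E := lt_of_le_of_ne (P.Pr_nonneg _) (Ne.symm h0)
  have hJS : J0 ∈ S := (mem_above.1 hJ0).1
  have h1 := joint' (B := B) (L := L) h0 hG hN hK (h h0)
  have h2 := klc_dv_row (FP.cond_ac P E) (L J0) (fun w => (lo L J0 w, B J0 w)) (lo G J0) hpsi
  have h3 := mul_le_mul_of_nonneg_left (mul_le_mul_of_nonneg_left h2 (hN J0 hJS)) hpos.le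
  have h4 : N J0 * (P.cond E).klc P (L J0) (fun w => (lo L J0 w, B J0 w)) ≤
      ∑ J ∈ above S K0, N J * (P.cond E).klc P (L J) (fun w => (lo L J w, B J w)) :=
    Finset.single_le_sum (f := fun J => N J * (P.cond E).klc P (L J) (fun w => (lo L J w, B J w)))
      (fun J hJ => mul_nonneg (hN J (mem_above.1 hJ).1) (klc_nonneg (FP.cond_ac P E) _ _)) hJ0
  have h5 : Phi (P.cond E) B N S L G = 2 * ∑ J ∈ S, N J * cost (P.cond E) B L G J -
      ∑ J ∈ S, N J * gain (P.cond E) B L G J := by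
    unfold Phi
    rw [Finset.mul_sum, ← Finset.sum_sub_distrib]
    exact Finset.sum_congr rfl fun J _ => by ring
  have h6 : N J0 * (P.cond E).I (L J0) (lo G J0) (fun w => (lo L J0 w, B J0 w)) ≤
      ∑ J ∈ S, N J * gain (P.cond E) B L G J :=
    Finset.single_le_sum (f := fun J => N J * gain (P.cond E) B L G J)
      (fun J hJ => mul_nonneg (hN J hJ) gain_nonneg) hJS
  have h7 := hc h0
  have e1 : ∀ f : Om → ℝ, P.E (fun w => ind (E w) * f w) = P.Pr E * (P.cond E).E f := fun f =>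
    (FP.Pr_mul_cond_E h0 f).symm
  rw [e1, e1]
  rw [h5] at h1
  have h8 := mul_le_mul_of_nonneg_left h4 hpos.le
  have h9 := mul_le_mul_of_nonneg_left h6 hpos.le
  have h10 := mul_le_mul_of_nonneg_left h7 hpos.le
  nlinarith

end row

/-! ## normalisation relative to an older law -/

section tilt

variable {Om Om0 : Type*} [Fintype Om] [Fintype Om0] {Q : FP Om} {P0 : FP Om0} {κ ι ι0 : Type*}

/-- `ce_tilt2` with the absolute continuity only on the fibre -/
theorem ce_tilt3 {π : Om → Om0} {X0 : Om0 → κ} {Z0 : Om0 → ι0} {Z : Om → ι}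
    (hZ : Fac Z (fun w => Z0 (π w))) {e : Om0 → ℝ} (he : Fac (fun w => (X0 w, Z0 w)) e) (h0 : ∀ w, 0 ≤ e w) {w : Om}
    (hw : Q.p w ≠ 0) (hac : ∀ v, Q.p v ≠ 0 → Z v = Z w → P0.p (π v) ≠ 0) :
    Q.ce Z (fun v => e (π v) * Real.exp (- dens2 Q P0 π X0 Z0 Z v)) w ≤ P0.ce Z0 e (π w) := by
  classical
  have hQ := Q.m_pos Z hw
  have hP := P0.m_pos Z0 (hac w hw rfl)
  -- values of the letter
  set sX : Finset κ := (univ.filter fun v : Om => Q.p v ≠ 0 ∧ Z v = Z w).image fun v => X0 (π v) with hsX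
  have h1 : Q.E (fun v => ind (Z v = Z w) * (e (π v) * Real.exp (- dens2 Q P0 π X0 Z0 Z v))) =
      ∑ x ∈ sX, Q.E (fun v => ind (X0 (π v) = x ∧ Z v = Z w) * (e (π v) * Real.exp (- dens2 Q P0 π X0 Z0 Z v))) := by
    rw [← FP.E_sum]
    refine Q.E_congr fun v hv => ?_
    by_cases hz : Z v = Z w
    · rw [Finset.sum_eq_single (X0 (π v))]
      · rw [ind_of hz, ind_of ⟨rfl, hz⟩]
      · intro x _ hx
        rw [ind_not (fun hh => hx hh.1.symm), zero_mul]
      · intro hh
        exact absurd (Finset.mem_image.2 ⟨v, Finset.mem_filter.2 ⟨mem_univ _, hv, hz⟩, rfl⟩) hh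
    · rw [ind_not hz, zero_mul]
      refine (Finset.sum_eq_zero fun x _ => ?_).symm
      rw [ind_not (fun hh => hz hh.2), zero_mul]
  have h2 : ∀ x ∈ sX, Q.E (fun v => ind (X0 (π v) = x ∧ Z v = Z w) * (e (π v) * Real.exp (- dens2 Q P0 π X0 Z0 Z v))) =
      Q.m Z w / P0.m Z0 (π w) * P0.E (fun v => ind (X0 v = x ∧ Z0 v = Z0 (π w)) * e v) := by
    intro x hx
    obtain ⟨u, hu, hux⟩ := Finset.mem_image.1 hx
    obtain ⟨-, hu1, hu2⟩ := Finset.mem_filter.1 hu
    have hZ0u : Z0 (π u) = Z0 (π w) := hZ u w hu2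
    have a := Q.m_pos (fun v => (X0 (π v), Z v)) hu1
    have b := Q.m_pos Z hu1
    have c := P0.m_pos (fun v => (X0 v, Z0 v)) (hac u hu1 hu2)
    have d := P0.m_pos Z0 (hac u hu1 hu2)
    have e1 : Real.exp (- dens2 Q P0 π X0 Z0 Z u) =
        P0.m (fun v => (X0 v, Z0 v)) (π u) / P0.m Z0 (π u) / (Q.m (fun v => (X0 (π v), Z v)) u / Q.m Z u) := by
      unfold dens2
      rw [← Real.log_inv, inv_div, Real.exp_log (div_pos (div_pos c d) (div_pos a b))]
    have e2 : Q.E (fun v => ind (X0 (π v) = x ∧ Z v = Z w) * (e (π v) * Real.exp (- dens2 Q P0 π X0 Z0 Z v))) =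
        Q.E (fun v => ind ((X0 (π v), Z v) = (X0 (π u), Z u)) * (e (π u) * Real.exp (- dens2 Q P0 π X0 Z0 Z u))) := by
      refine Q.E_congr fun v _ => ?_
      by_cases hv : (X0 (π v), Z v) = (X0 (π u), Z u)
      · have hv1 : X0 (π v) = X0 (π u) := congrArg Prod.fst hv
        have hv2 : Z v = Z u := congrArg Prod.snd hv
        rw [ind_of hv, ind_of ⟨hv1.trans hux, hv2.trans hu2⟩, dens2_fac (Q := Q) (P0 := P0) (X0 := X0) hZ v u hv,
          he (π v) (π u) (Prod.ext hv1 (hZ v u hv2))]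
      · rw [ind_not hv, ind_not, zero_mul, zero_mul]
        rintro ⟨p, q⟩
        exact hv (by rw [p, q, hux, hu2])
    have e3 : P0.E (fun v => ind (X0 v = x ∧ Z0 v = Z0 (π w)) * e v) = P0.m (fun v => (X0 v, Z0 v)) (π u) * e (π u) := by
      unfold FP.m
      rw [← FP.E_mul_const]
      refine P0.E_congr fun v _ => ?_
      by_cases hv : (X0 v, Z0 v) = (X0 (π u), Z0 (π u))
      · have hv1 : X0 v = X0 (π u) := congrArg Prod.fst hv
        have hv2 : Z0 v = Z0 (π u) := congrArg Prod.snd hv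
        rw [ind_of hv, ind_of ⟨hv1.trans hux, hv2.trans hZ0u⟩, he v (π u) (Prod.ext hv1 hv2)]
      · rw [ind_not hv, ind_not, zero_mul, zero_mul]
        rintro ⟨p, q⟩
        exact hv (by rw [p, q, hux, hZ0u])
    rw [e2, FP.E_mul_const, e3, e1]
    have e4 : Q.E (fun v => ind ((X0 (π v), Z v) = (X0 (π u), Z u))) = Q.m (fun v => (X0 (π v), Z v)) u := rfl
    rw [e4, Q.Fac_m Z u w hu2, P0.Fac_m Z0 (π u) (π w) hZ0u]
    field_simp
  unfold FP.ce
  rw [h1, Finset.sum_congr rfl h2, ← Finset.mul_sum, div_le_div_iff₀ hQ hP]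
  have h3 : ∑ x ∈ sX, P0.E (fun v => ind (X0 v = x ∧ Z0 v = Z0 (π w)) * e v) ≤
      P0.E (fun v => ind (Z0 v = Z0 (π w)) * e v) := by
    rw [← FP.E_sum]
    refine P0.E_mono fun v _ => ?_
    by_cases hz : Z0 v = Z0 (π w)
    · rw [ind_of hz, one_mul]
      by_cases hx : X0 v ∈ sX
      · rw [Finset.sum_eq_single (X0 v)]
        · rw [ind_of ⟨rfl, hz⟩, one_mul]
        · intro x _ hxx
          rw [ind_not (fun hh => hxx hh.1.symm), zero_mul]
        · intro hh; exact absurd hx hh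
      · rw [Finset.sum_eq_zero]
        · exact h0 v
        · intro x hx'
          rw [ind_not (fun hh : X0 v = x ∧ Z0 v = Z0 (π w) => hx (hh.1 ▸ hx')), zero_mul]
    · rw [ind_not hz, zero_mul]
      refine le_of_eq (Finset.sum_eq_zero fun x _ => ?_)
      rw [ind_not (fun hh => hz hh.2), zero_mul]
  have h4 : Q.m Z w / P0.m Z0 (π w) * (∑ x ∈ sX, P0.E (fun v => ind (X0 v = x ∧ Z0 v = Z0 (π w)) * e v)) *
      P0.m Z0 (π w) = Q.m Z w * ∑ x ∈ sX, P0.E (fun v => ind (X0 v = x ∧ Z0 v = Z0 (π w)) * e v) := by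
    field_simp
  rw [h4]
  have := mul_le_mul_of_nonneg_left h3 hQ.le
  linarith


end tilt

/-! ## at the state after the split -/

section pay

variable {K X β γ φ υ ν : Type} [Fintype K] [DecidableEq K] [Fintype X] [Fintype β] [Fintype φ] [Nonempty X] [Nonempty β]
  {D : HD K X β γ φ} {al : ℝ} {h : D.Thick al} {N : Finset K → ℝ} {S : Finset (Finset K)} {Th : Type*} [Fintype Th]

/-- **PAYMENT IN THE MEAN** : all classes of `K0` at once; `hone` only on the event, for the true hints -/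
theorem pay_mean {U : Finset K → X → (K → β) → υ} {t : ℕ}
    (hs : SatA (D.P h t) (BB D t) N S (LL U) (Dep D t)) (hN : ∀ J ∈ S, 0 ≤ N J) {K0 J0 : Finset K}
    (hKS : K0 ∈ S) (hJ0 : J0 ∈ above S K0)
    (R : FP Th) {G : Finset K → Pt K X β φ × Th → ν} (hGd : DepC D t G) (hG : On K0 G)
    {psi : (Finset K → Option ν) → Pt K X β φ → ℝ}
    (hpsi : ∀ r, Fac (fun w => (LL U J0 w, lo (LL U) J0 w, BB D t J0 w)) (psi r))
    {E : Pt K X β φ × Th → Prop} (hE : EvC D t K0 E)
    (hone : ∀ w : Pt K X β φ × Th, (D.P h t).p w.1 ≠ 0 → R.p w.2 ≠ 0 → E w →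
      (D.P h t).ce (fun v => (lo (LL U) J0 v, BB D t J0 v)) (fun v => Real.exp (psi (lo G J0 w) v)) w.1 ≤ 1)
    {c : ℝ} (hc : (FP.pr (D.P h t) R).Pr E ≠ 0 →
      ∑ J ∈ S, N J * cost ((FP.pr (D.P h t) R).cond E) (fun I w => BB D t I w.1) (fun I w => LL U I w.1) G J ≤ c) :
    N J0 * (FP.pr (D.P h t) R).E (fun w => ind (E w) * psi (lo G J0 w) w.1) ≤
      2 * N K0 * (FP.pr (D.P h t) R).Hc E (fun w => (le (LL U) K0 w.1, BB D t K0 w.1)) +
        2 * c * (FP.pr (D.P h t) R).Pr E := by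
  classical
  have h1 := row_mean (P := FP.pr (D.P h t) R) (B := fun I w => BB D t I w.1)
    (L := fun I w => LL U I w.1) (S := S) (N := N) (K0 := K0) (J0 := J0) (E := E) (G := G) (c := c)
    (psi := fun r v => psi r v.1) hG hN hKS (fun _ => by
      refine hs.coin hN (cutK K0 E G) ?_
      intro θ J a b h1 h2 h3
      show cutK K0 E G J (a, θ) = cutK K0 E G J (b, θ)
      by_cases hKJ : K0 ⊆ J
      · have eE : E (a, θ) = E (b, θ) := by
          refine hE (a, θ) (b, θ) ?_
          show ((a.1, BB D t K0 a), θ) = ((b.1, BB D t K0 b), θ)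
          have : BB D t K0 a = BB D t K0 b := by
            rw [BB_eq]
            exact ⟨fun j hj => h2 j (hKJ hj), by rw [h1], h3⟩
          rw [h1, this]
        by_cases hEa : E (a, θ)
        · have hEb : E (b, θ) := by rw [← eE]; exact hEa
          rw [cutK_in (w := (a, θ)) hKJ hEa, cutK_in (w := (b, θ)) hKJ hEb, hGd θ J a b h1 h2 h3]
        · have hEb : ¬ E (b, θ) := by rw [← eE]; exact hEa
          rw [cutK_off (w := (a, θ)) hEa, cutK_off (w := (b, θ)) hEb]
      · rw [cutK_out hKJ, cutK_out hKJ]) hJ0 (fun r v w hvw => by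
      refine hpsi r v.1 w.1 ?_
      simp only [Prod.mk.injEq] at hvw ⊢
      refine ⟨hvw.1, ?_, hvw.2.2⟩
      rw [lo_eq] at hvw ⊢
      exact hvw.2.1) hc
  have h2 : (FP.pr (D.P h t) R).E (fun w => ind (E w) * Real.log ((FP.pr (D.P h t) R).ce
      (fun v => (lo (fun I (w : Pt K X β φ × Th) => LL U I w.1) J0 v, BB D t J0 v.1))
        (fun v => Real.exp (psi (lo G J0 w) v.1)) w)) ≤ 0 := by
    rw [← (FP.pr (D.P h t) R).E_const 0]
    refine FP.E_mono _ fun w hw => ?_
    by_cases hEw : E w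
    · obtain ⟨hw1, hw2⟩ := (pr_supp (D.P h t) R).1 hw
      rw [ind_of hEw, one_mul]
      have e := lift_ce (D.P h t) R (fun v => (lo (LL U) J0 v, BB D t J0 v)) (fun v => Real.exp (psi (lo G J0 w) v)) w
      have e2 : (FP.pr (D.P h t) R).ce
          (fun v => (lo (fun I (w : Pt K X β φ × Th) => LL U I w.1) J0 v, BB D t J0 v.1))
          (fun v => Real.exp (psi (lo G J0 w) v.1)) w =
          (D.P h t).ce (fun v => (lo (LL U) J0 v, BB D t J0 v)) (fun v => Real.exp (psi (lo G J0 w) v)) w.1 := e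
      rw [e2]
      exact Real.log_nonpos ((D.P h t).ce_nonneg (fun _ _ => (Real.exp_pos _).le) _) (hone w hw1 hw2 hEw)
    · rw [ind_not hEw, zero_mul]
  have h3 := mul_nonpos_of_nonneg_of_nonpos (hN J0 (mem_above.1 hJ0).1) h2
  exact h1.trans (by
    have e3 : (FP.pr (D.P h t) R).Hc E (fun w => (le (fun I (w : Pt K X β φ × Th) => LL U I w.1) K0 w, BB D t K0 w.1)) =
      (FP.pr (D.P h t) R).Hc E (fun w => (le (LL U) K0 w.1, BB D t K0 w.1)) := rfl
    rw [e3]
    linarith)

/-- **older laws** : starts `s : ι` selected by the lower letters of `J0` (`sel`), old law `P0 s` on the old points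
`π s w`, old letter `X0 s`, old lower letters `Z0 s`, `psi0 s r` = function of the old letter and the old lower letters -/
theorem pay_old {U : Finset K → X → (K → β) → υ} {t : ℕ}
    (hs : SatA (D.P h t) (BB D t) N S (LL U) (Dep D t)) (hN : ∀ J ∈ S, 0 ≤ N J) {K0 J0 : Finset K}
    (hKS : K0 ∈ S) (hJ0 : J0 ∈ above S K0)
    (R : FP Th) {G : Finset K → Pt K X β φ × Th → ν} (hGd : DepC D t G) (hG : On K0 G)
    {ι Om0 κ0 ι0 : Type*} [Fintype Om0] {sel : Pt K X β φ → ι}
    (hsel : Fac (fun w => (lo (LL U) J0 w, BB D t J0 w)) sel)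
    {P0 : ι → FP Om0} {π : ι → Pt K X β φ → Om0} {X0 : ι → Om0 → κ0} {Z0 : ι → Om0 → ι0}
    (hac : ∀ w, (D.P h t).p w ≠ 0 → (P0 (sel w)).p (π (sel w) w) ≠ 0)
    (hX : ∀ s, Fac (fun w => (LL U J0 w, lo (LL U) J0 w, BB D t J0 w)) (fun w => X0 s (π s w)))
    (hZ : ∀ s, Fac (fun w => (lo (LL U) J0 w, BB D t J0 w)) (fun w => Z0 s (π s w)))
    {psi0 : ι → (Finset K → Option ν) → Om0 → ℝ} (hpsi : ∀ s r, Fac (fun w => (X0 s w, Z0 s w)) (psi0 s r))
    {E : Pt K X β φ × Th → Prop} (hE : EvC D t K0 E)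
    (hone : ∀ w : Pt K X β φ × Th, (D.P h t).p w.1 ≠ 0 → R.p w.2 ≠ 0 → E w →
      (P0 (sel w.1)).ce (Z0 (sel w.1)) (fun v => Real.exp (psi0 (sel w.1) (lo G J0 w) v)) (π (sel w.1) w.1) ≤ 1)
    {c : ℝ} (hc : (FP.pr (D.P h t) R).Pr E ≠ 0 →
      ∑ J ∈ S, N J * cost ((FP.pr (D.P h t) R).cond E) (fun I w => BB D t I w.1) (fun I w => LL U I w.1) G J ≤ c) :
    N J0 * (FP.pr (D.P h t) R).E (fun w => ind (E w) * psi0 (sel w.1) (lo G J0 w) (π (sel w.1) w.1)) ≤
      2 * N K0 * (FP.pr (D.P h t) R).Hc E (fun w => (le (LL U) K0 w.1, BB D t K0 w.1)) +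
        2 * c * (FP.pr (D.P h t) R).Pr E +
      N J0 * (FP.pr (D.P h t) R).E (fun w => ind (E w) *
        dens2 (D.P h t) (P0 (sel w.1)) (π (sel w.1)) (X0 (sel w.1)) (Z0 (sel w.1))
          (fun v => (lo (LL U) J0 v, BB D t J0 v)) w.1) := by
  set Z : Pt K X β φ → (Finset K → Option (υ × (K → Option φ))) × ((K → Option β) × (γ × (K → γ))) :=
    fun v => (lo (LL U) J0 v, BB D t J0 v) with hZdef
  set dd : Pt K X β φ → ℝ := fun v => dens2 (D.P h t) (P0 (sel v)) (π (sel v)) (X0 (sel v)) (Z0 (sel v)) Z v with hdd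
  have hLZ : ∀ v w : Pt K X β φ, (LL U J0 v, lo (LL U) J0 v, BB D t J0 v) = (LL U J0 w, lo (LL U) J0 w, BB D t J0 w) →
      Z v = Z w := fun v w e => congrArg Prod.snd e
  have hfac : ∀ r, Fac (fun w => (LL U J0 w, lo (LL U) J0 w, BB D t J0 w))
      (fun v => psi0 (sel v) r (π (sel v) v) - dd v) := by
    intro r v w e
    have e1 : sel v = sel w := hsel v w (hLZ v w e)
    have e2 : X0 (sel w) (π (sel w) v) = X0 (sel w) (π (sel w) w) := hX (sel w) v w e
    have e3 : Z0 (sel w) (π (sel w) v) = Z0 (sel w) (π (sel w) w) := hZ (sel w) v w (hLZ v w e)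
    have e4 : psi0 (sel w) r (π (sel w) v) = psi0 (sel w) r (π (sel w) w) := hpsi (sel w) r _ _ (Prod.ext e2 e3)
    have e5 : dens2 (D.P h t) (P0 (sel w)) (π (sel w)) (X0 (sel w)) (Z0 (sel w)) Z v =
        dens2 (D.P h t) (P0 (sel w)) (π (sel w)) (X0 (sel w)) (Z0 (sel w)) Z w :=
      dens2_fac (Q := D.P h t) (P0 := P0 (sel w)) (X0 := X0 (sel w)) (hZ (sel w)) v w (Prod.ext e2 (hLZ v w e))
    show psi0 (sel v) r (π (sel v) v) - dens2 (D.P h t) (P0 (sel v)) (π (sel v)) (X0 (sel v)) (Z0 (sel v)) Z v = _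
    rw [e1, e4, e5]
  have h1 := pay_mean (h := h) hs hN hKS hJ0 R hGd hG (psi := fun r v => psi0 (sel v) r (π (sel v) v) - dd v) hfac hE
    (fun w hw1 hw2 hEw => by
      have h2 : (D.P h t).ce Z (fun v => Real.exp (psi0 (sel v) (lo G J0 w) (π (sel v) v) - dd v)) w.1 =
          (D.P h t).ce Z (fun v => Real.exp (psi0 (sel w.1) (lo G J0 w) (π (sel w.1) v)) *
            Real.exp (- dens2 (D.P h t) (P0 (sel w.1)) (π (sel w.1)) (X0 (sel w.1)) (Z0 (sel w.1)) Z v)) w.1 := by
        unfold FP.ce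
        congr 1
        refine (D.P h t).E_congr fun v _ => ?_
        by_cases hv : Z v = Z w.1
        · have e1 : sel v = sel w.1 := hsel v w.1 hv
          rw [ind_of hv, one_mul, one_mul]
          show Real.exp (psi0 (sel v) (lo G J0 w) (π (sel v) v) -
            dens2 (D.P h t) (P0 (sel v)) (π (sel v)) (X0 (sel v)) (Z0 (sel v)) Z v) =
            Real.exp (psi0 (sel w.1) (lo G J0 w) (π (sel w.1) v)) *
            Real.exp (- dens2 (D.P h t) (P0 (sel w.1)) (π (sel w.1)) (X0 (sel w.1)) (Z0 (sel w.1)) Z v)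
          rw [e1, sub_eq_add_neg, Real.exp_add]
        · rw [ind_not hv, zero_mul, zero_mul]
      show (D.P h t).ce Z (fun v => Real.exp (psi0 (sel v) (lo G J0 w) (π (sel v) v) - dd v)) w.1 ≤ 1
      rw [h2]
      refine le_trans (ce_tilt3 (Q := D.P h t) (P0 := P0 (sel w.1)) (π := π (sel w.1)) (X0 := X0 (sel w.1))
        (Z0 := Z0 (sel w.1)) (Z := Z) (hZ (sel w.1))
        (e := fun u => Real.exp (psi0 (sel w.1) (lo G J0 w) u)) ?_ (fun _ => (Real.exp_pos _).le) hw1 ?_)
        (hone w hw1 hw2 hEw)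
      · intro u u' e
        show Real.exp _ = Real.exp _
        rw [hpsi (sel w.1) (lo G J0 w) u u' e]
      · intro v hv e
        have e1 : sel v = sel w.1 := hsel v w.1 e
        rw [← e1]
        exact hac v hv) hc
  have h3 : (FP.pr (D.P h t) R).E (fun w => ind (E w) * (psi0 (sel w.1) (lo G J0 w) (π (sel w.1) w.1) - dd w.1)) =
      (FP.pr (D.P h t) R).E (fun w => ind (E w) * psi0 (sel w.1) (lo G J0 w) (π (sel w.1) w.1)) -
      (FP.pr (D.P h t) R).E (fun w => ind (E w) * dd w.1) := by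
    rw [← FP.E_sub]
    exact FP.E_congr _ fun w _ => by ring
  have h4 : N J0 * (FP.pr (D.P h t) R).E (fun w => ind (E w) * (psi0 (sel w.1) (lo G J0 w) (π (sel w.1) w.1) - dd w.1)) ≤
      2 * N K0 * (FP.pr (D.P h t) R).Hc E (fun w => (le (LL U) K0 w.1, BB D t K0 w.1)) +
        2 * c * (FP.pr (D.P h t) R).Pr E := h1
  rw [h3, mul_sub] at h4
  have h5 : (FP.pr (D.P h t) R).E (fun w => ind (E w) *
        dens2 (D.P h t) (P0 (sel w.1)) (π (sel w.1)) (X0 (sel w.1)) (Z0 (sel w.1)) Z w.1) =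
      (FP.pr (D.P h t) R).E (fun w => ind (E w) * dd w.1) := rfl
  rw [h5]
  linarith

/-- **the localised gain** -/
theorem loc_gain {U : Finset K → X → (K → β) → υ} {t : ℕ}
    (hs : SatA (D.P h t) (BB D t) N S (LL U) (Dep D t)) (hN : ∀ J ∈ S, 0 ≤ N J) {K0 J0 : Finset K}
    (hKS : K0 ∈ S) (hJ0 : J0 ∈ above S K0) (R : FP Th)
    {ι Om0 κ0 ι0 : Type*} [Fintype Om0] {sel : Pt K X β φ → ι}
    (hsel : Fac (fun w => (lo (LL U) J0 w, BB D t J0 w)) sel)
    {P0 : ι → FP Om0} {π : ι → Pt K X β φ → Om0} {X0 : ι → Om0 → κ0} {Z0 : ι → Om0 → ι0}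
    (hac : ∀ w, (D.P h t).p w ≠ 0 → (P0 (sel w)).p (π (sel w) w) ≠ 0)
    (hX : ∀ s, Fac (fun w => (LL U J0 w, lo (LL U) J0 w, BB D t J0 w)) (fun w => X0 s (π s w)))
    (hZ : ∀ s, Fac (fun w => (lo (LL U) J0 w, BB D t J0 w)) (fun w => Z0 s (π s w)))
    {E : Pt K X β φ × Th → Prop} (hE : EvC D t K0 E) :
    N J0 * (FP.pr (D.P h t) R).E (fun w => ind (E w) *
        dens2 (D.P h t) (P0 (sel w.1)) (π (sel w.1)) (X0 (sel w.1)) (Z0 (sel w.1))
          (fun v => (lo (LL U) J0 v, BB D t J0 v)) w.1) ≤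
      N J0 * (D.P h t).E (fun w => dens2 (D.P h t) (P0 (sel w)) (π (sel w)) (X0 (sel w)) (Z0 (sel w))
          (fun v => (lo (LL U) J0 v, BB D t J0 v)) w) +
        2 * N K0 * (FP.pr (D.P h t) R).Hc E (fun w => (le (LL U) K0 w.1, BB D t K0 w.1)) := by
  classical
  set Z : Pt K X β φ → (Finset K → Option (υ × (K → Option φ))) × ((K → Option β) × (γ × (K → γ))) :=
    fun v => (lo (LL U) J0 v, BB D t J0 v) with hZdef
  set dd : Pt K X β φ → ℝ := fun v => dens2 (D.P h t) (P0 (sel v)) (π (sel v)) (X0 (sel v)) (Z0 (sel v)) Z v with hdd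
  have h1 := pay_old (h := h) (ν := Unit) hs hN hKS hJ0 R (G := fun _ _ => ()) (fun _ _ _ _ _ _ _ => rfl)
    (fun _ _ _ _ => rfl) hsel (P0 := P0) (π := π) (X0 := X0) (Z0 := Z0) hac hX hZ (psi0 := fun _ _ _ => 0)
    (fun _ _ _ _ _ => rfl) (E := fun w => ¬ E w) (fun v w e => by
      show (¬ E v) = (¬ E w)
      rw [hE v w e]) (fun w hw1 _ _ => by
      have h2 := hac w.1 hw1
      refine le_of_eq ?_
      simp only [Real.exp_zero]
      exact (P0 (sel w.1)).ce_const _ _ h2) (c := 0) (fun _ => by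
      refine le_of_eq (Finset.sum_eq_zero fun J _ => ?_)
      rw [cost_const (fun _ _ => rfl), mul_zero])
  have e1 : (FP.pr (D.P h t) R).E (fun w => ind (¬ E w) * (0 : ℝ)) = 0 := by
    simp only [mul_zero]
    exact FP.E_const _ _
  have e2 : (FP.pr (D.P h t) R).Hc (fun w => ¬ E w) (fun w => (le (LL U) K0 w.1, BB D t K0 w.1)) =
      (FP.pr (D.P h t) R).Hc E (fun w => (le (LL U) K0 w.1, BB D t K0 w.1)) := by
    refine (FP.pr (D.P h t) R).Hc_congr (fun v w e => ?_) (Fac.refl _) (fun v w e => ?_) (Fac.refl _)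
    · have e' : (¬ E v) = (¬ E w) := congrArg Prod.fst e
      show E v = E w
      exact propext (not_iff_not.1 (iff_of_eq e'))
    · have e' : E v = E w := congrArg Prod.fst e
      show (¬ E v) = (¬ E w)
      rw [e']
  have e3 : (FP.pr (D.P h t) R).E (fun w => ind (¬ E w) * dd w.1) =
      (D.P h t).E dd - (FP.pr (D.P h t) R).E (fun w => ind (E w) * dd w.1) := by
    rw [← lift_E (D.P h t) R dd, ← FP.E_sub]
    refine FP.E_congr _ fun w _ => ?_
    rw [FP.ind_not_eq]
    ring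
  have h2 : N J0 * (FP.pr (D.P h t) R).E (fun w => ind (¬ E w) * (0 : ℝ)) ≤
      2 * N K0 * (FP.pr (D.P h t) R).Hc (fun w => ¬ E w) (fun w => (le (LL U) K0 w.1, BB D t K0 w.1)) +
        2 * 0 * (FP.pr (D.P h t) R).Pr (fun w => ¬ E w) +
      N J0 * (FP.pr (D.P h t) R).E (fun w => ind (¬ E w) * dd w.1) := h1
  rw [e1, e2, e3] at h2
  show N J0 * (FP.pr (D.P h t) R).E (fun w => ind (E w) * dd w.1) ≤ N J0 * (D.P h t).E dd + _
  linarith

end pay

end Pool.Agent.GMH.PayM
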