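import Pool.Agent.GMH.PayN
import Pool.Agent.GMH.PayM
import Pool.Agent.M3.RdPull

/-!
# GMH/PayL (helper15): PAYMENT OF A COVER BY THE RUN (H3.T payments (P2), (P3), H3.UNM (P7))

`Pw` = law of the path space (tables), `q` = law of one row of the sample (point, table), `X s` = node, `σ` = end of the life,
`pt` = sample point of the time of the end.
* `pay_avg` : `payD` in the mean over the sample, `pay_ends` : as a sum over the ends;
* `ends_pull` : the part of one end is a mean under the law of the run with coins = sample;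
* `payL_one` : the part of one end is paid by the gain of the letter of `J0` (`PayM.pay_old`);
* `payL` : sum over the ends.
-/

set_option autoImplicit false
set_option linter.unusedSectionVars false

namespace Pool.Agent.GMH.PayL

open Finset Pool.Agent.PWZ Pool.Agent.M3 Pool.Agent.GM Pool.Agent.GM.Harm Pool.Agent.GMH Pool.Agent.GMH.Gdy
open Pool.Agent.GMH.GdyN Pool.Agent.GMH.PayM
open Pool.Agent.GMH.GdyR (covL covL_mono covL_change covL_facV)


noncomputable section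

/-! ## the mean over the sample -/

section avg

variable {Om : Type*} [Fintype Om] {Pw : FP Om} {κ : ℕ → Type*} {X : ∀ t, Om → κ t} {R : Type*} [Fintype R] (q : FP R)
  {H : ℕ → R → Om → Prop} {f : R → Om → ℝ} {kap lam th eps : ℝ} {K M : ℕ} {σ : Om → ℕ}

/-- the law of the sample -/
abbrev Sq (q : FP R) (M : ℕ) : FP (Fin M → R) := FPpi fun _ : Fin M => q

theorem Sq_p (x : Fin M → R) : (Sq q M).p x = sw q.p x := rfl

/-- means over the sample -/
theorem Sq_E (g : (Fin M → R) → ℝ) : (Sq q M).E g = ∑ x, sw q.p x * g x := rfl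

/-- swap of the path and of the sample -/
theorem pr_swap (g : Om × (Fin M → R) → ℝ) :
    (FP.pr Pw (Sq q M)).E g = ∑ x, sw q.p x * Pw.E (fun w => g (w, x)) := by
  rw [FP.pr_E, Pw.E_swap (Sq q M) (fun w x => g (w, x)), Sq_E]

variable (Pw X H f kap lam th eps K M) in
/-- little of the cell is dead -/
def lit (s : ℕ) (w : Om × (Fin M → R)) : Prop := cp Pw X s (ded Pw X H f kap lam K th w.2 s) w.1 ≤ eps

variable (Pw X H f kap lam th K M) in
/-- the value of the named function at the point -/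
def dlv (s : ℕ) (w : Om × (Fin M → R)) : ℝ := dl H f (nm Pw X H f kap lam K th w.2 s w.1) w.1

/-- **payment in the mean over the sample** -/
theorem pay_avg (hX : Filt X) (hK : 0 < K) (k0 : 0 < kap) (t0 : 0 < th) (l0 : 0 ≤ lam) {L : ℝ} (L0 : 0 ≤ L)
    (hL : ∀ a z, f a z ≤ L) (hL' : ∀ a z, -L ≤ f a z) (e0 : 0 < eps) (he : 4 * L * eps ≤ lam * kap)
    (hth : 4 * L * th ≤ lam * eps) (hσ : Stp X σ) :
    lam * ∑ x : Fin M → R, sw q.p x * Pw.Pr (fun w => covL Pw X H f kap lam K x (σ w) w) ≤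
      4 * (FP.pr Pw (Sq q M)).E (fun w => ind (lit Pw X H f kap lam th eps K M (σ w.1) w) *
        dlv Pw X H f kap lam th K M (σ w.1) w) := by
  rw [pr_swap, Finset.mul_sum, Finset.mul_sum]
  refine Finset.sum_le_sum fun x _ => ?_
  have h1 := payD (P := Pw) (X := X) (H := H) (f := f) (kap := kap) (lam := lam) (x := x) hX hK k0 t0 l0 L0 hL hL' e0 he
    hth hσ
  have h2 := mul_le_mul_of_nonneg_left h1 (sw_nonneg q.nn x)
  calc lam * (sw q.p x * Pw.Pr (fun w => covL Pw X H f kap lam K x (σ w) w))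
      = sw q.p x * (lam * Pw.Pr (fun w => covL Pw X H f kap lam K x (σ w) w)) := by ring
    _ ≤ _ := h2
    _ = _ := by
      rw [← mul_assoc, mul_comm (sw q.p x) 4, mul_assoc]
      rfl

/-- **as a sum over the ends** -/
theorem pay_ends {T : ℕ} (hT : ∀ w, σ w < T) (hX : Filt X) (hK : 0 < K) (k0 : 0 < kap) (t0 : 0 < th) (l0 : 0 ≤ lam)
    {L : ℝ} (L0 : 0 ≤ L) (hL : ∀ a z, f a z ≤ L) (hL' : ∀ a z, -L ≤ f a z) (e0 : 0 < eps)
    (he : 4 * L * eps ≤ lam * kap) (hth : 4 * L * th ≤ lam * eps) (hσ : Stp X σ) :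
    lam * ∑ x : Fin M → R, sw q.p x * Pw.Pr (fun w => covL Pw X H f kap lam K x (σ w) w) ≤
      4 * ∑ s ∈ range T, (FP.pr Pw (Sq q M)).E (fun w => ind (σ w.1 = s ∧ lit Pw X H f kap lam th eps K M s w) *
        dlv Pw X H f kap lam th K M s w) := by
  refine (pay_avg q hX hK k0 t0 l0 L0 hL hL' e0 he hth hσ).trans (le_of_eq ?_)
  congr 1
  rw [E_stop (P := FP.pr Pw (Sq q M)) (σ := fun w => σ w.1) (fun w => hT w.1)
    (fun s w => ind (lit Pw X H f kap lam th eps K M s w) * dlv Pw X H f kap lam th K M s w)]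
  refine Finset.sum_congr rfl fun s _ => FP.E_congr _ fun w _ => ?_
  rw [ind_and, mul_assoc]

end avg

/-! ## one end -/

section one

variable {Om : Type*} [Fintype Om] {Pw : FP Om} {κ : ℕ → Type*} {X : ∀ t, Om → κ t} {R : Type*} [Fintype R] (q : FP R)
  {H : ℕ → R → Om → Prop} {f : R → Om → ℝ} {kap lam th eps : ℝ} {K M : ℕ} {σ : Om → ℕ}

/-- **one end as a mean under the law of the run** with the sample as coins -/
theorem ends_pull {Om1 : Type*} [Fintype Om1] {P1 : FP Om1} {pt : Om → Om1} (hp : Pul Pw P1 pt) {s : ℕ}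
    {E : Om1 × (Fin M → R) → Prop} {g : Om1 × (Fin M → R) → ℝ}
    (hE : ∀ w x, Pw.p w ≠ 0 → (Sq q M).p x ≠ 0 → ((σ w = s ∧ lit Pw X H f kap lam th eps K M s (w, x)) ↔ E (pt w, x)))
    (hg : ∀ w x, Pw.p w ≠ 0 → (Sq q M).p x ≠ 0 → E (pt w, x) → dlv Pw X H f kap lam th K M s (w, x) = g (pt w, x)) :
    (FP.pr Pw (Sq q M)).E (fun w => ind (σ w.1 = s ∧ lit Pw X H f kap lam th eps K M s w) *
      dlv Pw X H f kap lam th K M s w) = (FP.pr P1 (Sq q M)).E (fun w => ind (E w) * g w) := by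
  rw [pr_swap, pr_swap]
  refine Finset.sum_congr rfl fun x _ => ?_
  by_cases hx : (Sq q M).p x = 0
  · rw [Sq_p] at hx
    rw [hx, zero_mul, zero_mul]
  · congr 1
    rw [← hp.E fun v => ind (E (v, x)) * g (v, x)]
    refine Pw.E_congr fun w hw => ?_
    by_cases h : E (pt w, x)
    · rw [ind_of h, ind_of ((hE w x hw hx).2 h), hg w x hw hx h]
    · rw [ind_not h, ind_not fun h1 => h ((hE w x hw hx).1 h1), zero_mul, zero_mul]

variable {K' X' β γ φ υ ν : Type} [Fintype K'] [DecidableEq K'] [Fintype X'] [Fintype β] [Fintype φ] [Nonempty X']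
  [Nonempty β] {D : HD K' X' β γ φ} {al : ℝ} {h : D.Thick al} {N : Finset K' → ℝ} {S : Finset (Finset K')}

/-- **THE PART OF ONE END IS PAID BY THE GAIN** -/
theorem payL_one {U : Finset K' → X' → (K' → β) → υ} {t : ℕ}
    (hs : SatA (D.P h t) (BB D t) N S (LL U) (Dep D t)) (hN : ∀ J ∈ S, 0 ≤ N J) {K0 J0 : Finset K'}
    (hKS : K0 ∈ S) (hJ0 : J0 ∈ above S K0)
    {pt : Om → Pt K' X' β φ} (hp : Pul Pw (D.P h t) pt)
    {G : Finset K' → Pt K' X' β φ × (Fin M → R) → ν} (hGd : DepC D t G) (hG : On K0 G)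
    {ι Om0 κ0 ι0 : Type*} [Fintype Om0] {sel : Pt K' X' β φ → ι}
    (hsel : Fac (fun w => (lo (LL U) J0 w, BB D t J0 w)) sel)
    {P0 : ι → FP Om0} {π : ι → Pt K' X' β φ → Om0} {X0 : ι → Om0 → κ0} {Z0 : ι → Om0 → ι0}
    (hac : ∀ w, (D.P h t).p w ≠ 0 → (P0 (sel w)).p (π (sel w) w) ≠ 0)
    (hX : ∀ s, Fac (fun w => (LL U J0 w, lo (LL U) J0 w, BB D t J0 w)) (fun w => X0 s (π s w)))
    (hZ : ∀ s, Fac (fun w => (lo (LL U) J0 w, BB D t J0 w)) (fun w => Z0 s (π s w)))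
    {psi0 : ι → (Finset K' → Option ν) → Om0 → ℝ} (hpsi : ∀ s r, Fac (fun w => (X0 s w, Z0 s w)) (psi0 s r))
    {E : Pt K' X' β φ × (Fin M → R) → Prop} (hEv : EvC D t K0 E)
    (hone : ∀ w : Pt K' X' β φ × (Fin M → R), (D.P h t).p w.1 ≠ 0 → (Sq q M).p w.2 ≠ 0 → E w →
      (P0 (sel w.1)).ce (Z0 (sel w.1)) (fun v => Real.exp (psi0 (sel w.1) (lo G J0 w) v)) (π (sel w.1) w.1) ≤ 1)
    {c : ℝ} (hc : (FP.pr (D.P h t) (Sq q M)).Pr E ≠ 0 →
      ∑ J ∈ S, N J * cost ((FP.pr (D.P h t) (Sq q M)).cond E) (fun I w => BB D t I w.1) (fun I w => LL U I w.1) G J ≤ c)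
    {s : ℕ}
    (hE : ∀ w x, Pw.p w ≠ 0 → (Sq q M).p x ≠ 0 → ((σ w = s ∧ lit Pw X H f kap lam th eps K M s (w, x)) ↔ E (pt w, x)))
    (hg : ∀ w x, Pw.p w ≠ 0 → (Sq q M).p x ≠ 0 → E (pt w, x) → dlv Pw X H f kap lam th K M s (w, x) =
      psi0 (sel (pt w)) (lo G J0 (pt w, x)) (π (sel (pt w)) (pt w))) :
    N J0 * (FP.pr Pw (Sq q M)).E (fun w => ind (σ w.1 = s ∧ lit Pw X H f kap lam th eps K M s w) *
        dlv Pw X H f kap lam th K M s w) ≤
      2 * N K0 * (FP.pr (D.P h t) (Sq q M)).Hc E (fun w => (le (LL U) K0 w.1, BB D t K0 w.1)) +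
        2 * c * (FP.pr (D.P h t) (Sq q M)).Pr E +
      N J0 * (FP.pr (D.P h t) (Sq q M)).E (fun w => ind (E w) *
        dens2 (D.P h t) (P0 (sel w.1)) (π (sel w.1)) (X0 (sel w.1)) (Z0 (sel w.1))
          (fun v => (lo (LL U) J0 v, BB D t J0 v)) w.1) := by
  rw [ends_pull q hp hE (g := fun w => psi0 (sel w.1) (lo G J0 w) (π (sel w.1) w.1)) hg]
  exact pay_old hs hN hKS hJ0 (Sq q M) hGd hG hsel hac hX hZ hpsi hEv hone hc

/-- **SUM OVER THE ENDS** : `b s` = bound of the part of the end `s` -/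
theorem payL {T : ℕ} (hT : ∀ w, σ w < T) (hX : Filt X) (hK : 0 < K) (k0 : 0 < kap) (t0 : 0 < th) (l0 : 0 ≤ lam)
    {L : ℝ} (L0 : 0 ≤ L) (hL : ∀ a z, f a z ≤ L) (hL' : ∀ a z, -L ≤ f a z) (e0 : 0 < eps)
    (he : 4 * L * eps ≤ lam * kap) (hth : 4 * L * th ≤ lam * eps) (hσ : Stp X σ) {NJ : ℝ} (n0 : 0 ≤ NJ) {b : ℕ → ℝ}
    (hb : ∀ s < T, NJ * (FP.pr Pw (Sq q M)).E (fun w => ind (σ w.1 = s ∧ lit Pw X H f kap lam th eps K M s w) *
        dlv Pw X H f kap lam th K M s w) ≤ b s) :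
    NJ * (lam * ∑ x : Fin M → R, sw q.p x * Pw.Pr (fun w => covL Pw X H f kap lam K x (σ w) w)) ≤
      4 * ∑ s ∈ range T, b s := by
  have h1 := mul_le_mul_of_nonneg_left (pay_ends (Pw := Pw) (X := X) (H := H) (f := f) (K := K) (M := M) q hT hX hK k0
    t0 l0 L0 hL hL' e0 he hth hσ) n0
  refine h1.trans ?_
  rw [← mul_assoc, mul_comm NJ 4, mul_assoc, Finset.mul_sum]
  refine mul_le_mul_of_nonneg_left (Finset.sum_le_sum fun s hs => hb s (mem_range.1 hs)) (by norm_num)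

end one

end

end Pool.Agent.GMH.PayL
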