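import Pool.Agent.GMH.GdyN
import Pool.Agent.GMH.GhoZ2

/-!
# GMH/PayN (helper15): payments with names (note 4044 (A), gm rows H3.T, H3.UNM)

* `dl_norm` : a decision list of normalised rows is normalised: `E (e ^ dl | Z) ≤ 1` if the sections see `Z` and every row is
  normalised given `Z` on its section; `dl_norm_names` : the same if the list is a function of `Z`;
* `dl_count` : unsigned rows (weight `c 1_B`), `E (e ^ (c 1_B) | Z) ≤ 1 + r` on the section;
* `row_payN` : the payment of the cover in the row lemma of GMH/GhoZ2 with names;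
* `row_payC` : the same with codes (finite type).
-/

set_option autoImplicit false
set_option linter.unusedSectionVars false

namespace Pool.Agent.GMH.PayN

open Finset Pool.Agent.PWZ Pool.Agent.M3 Pool.Agent.GMH.Gdy Pool.Agent.GMH.GdyN
open Pool.Agent.GMH.GdyR (covL covL_mono covL_change covL_facV)
open Pool.Agent.GMH.GhoZ (sec sec_fac)

noncomputable section

/-! ## normalisation of decision lists -/

section norm

variable {Om : Type*} [Fintype Om] {P : FP Om} {ι : Type*} {Z : Om → ι} {R : Type*} {H : ℕ → R → Om → Prop}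
  {f : R → Om → ℝ} {r : ℝ}

/-- **a decision list of normalised rows is normalised** -/
theorem dl_norm (r0 : 0 ≤ r) (l : List ((ℕ × R) × Bool))
    (hH : ∀ p ∈ l, ∀ v w, Z v = Z w → (H p.1.1 p.1.2 v ↔ H p.1.1 p.1.2 w)) {w : Om} (hw : P.p w ≠ 0)
    (hf : ∀ p ∈ l, p.2 = true → H p.1.1 p.1.2 w → P.ce Z (fun v => Real.exp (f p.1.2 v)) w ≤ 1 + r) :
    P.ce Z (fun v => Real.exp (dl H f l v)) w ≤ 1 + r := by
  classical
  have h1 : P.ce Z (fun _ => (1 : ℝ)) w ≤ 1 + r := by
    rw [P.ce_const _ _ hw]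
    linarith
  induction l with
  | nil =>
    refine (P.ce_mono (fun v _ => ?_) w).trans h1
    show Real.exp 0 ≤ 1
    rw [Real.exp_zero]
  | cons p l ih =>
    by_cases h : H p.1.1 p.1.2 w
    · have e1 : P.ce Z (fun v => Real.exp (dl H f (p :: l) v)) w =
          P.ce Z (fun v => Real.exp (if p.2 then f p.1.2 v else 0)) w := by
        refine ce_congr_on fun v _ hv => ?_
        rw [dl_cons, if_pos ((hH p List.mem_cons_self v w hv).2 h)]
      rw [e1]
      by_cases h2 : p.2 = true
      · simp only [h2, if_true]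
        exact hf p List.mem_cons_self h2 h
      · simp only [h2, Bool.false_eq_true, if_false, Real.exp_zero]
        exact h1
    · have e1 : P.ce Z (fun v => Real.exp (dl H f (p :: l) v)) w =
          P.ce Z (fun v => Real.exp (dl H f l v)) w := by
        refine ce_congr_on fun v _ hv => ?_
        rw [dl_cons, if_neg fun h3 => h ((hH p List.mem_cons_self v w hv).1 h3)]
      rw [e1]
      exact ih (fun q hq => hH q (List.mem_cons_of_mem _ hq)) (fun q hq => hf q (List.mem_cons_of_mem _ hq))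

/-- **the same, the names are seen by `Z`** -/
theorem dl_norm_names (r0 : 0 ≤ r) {l : Om → List ((ℕ × R) × Bool)} (hl : Fac Z l) {w : Om} (hw : P.p w ≠ 0)
    (hH : ∀ p ∈ l w, ∀ v w, Z v = Z w → (H p.1.1 p.1.2 v ↔ H p.1.1 p.1.2 w))
    (hf : ∀ p ∈ l w, p.2 = true → H p.1.1 p.1.2 w → P.ce Z (fun v => Real.exp (f p.1.2 v)) w ≤ 1 + r) :
    P.ce Z (fun v => Real.exp (dl H f (l v) v)) w ≤ 1 + r := by
  refine le_trans (le_of_eq ?_) (dl_norm r0 (l w) hH hw hf)
  exact ce_congr_on fun v _ hv => by rw [hl v w hv]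

/-- weights `c 1_B` : `E e ^ (c 1_B) ≤ 1 + (e ^ c - 1) P (B)` -/
theorem exp_ind_le {B : Om → Prop} {c b : ℝ} (c0 : 0 ≤ c) {w : Om} (hw : P.p w ≠ 0)
    (hb : P.ce Z (fun v => ind (B v)) w ≤ b) :
    P.ce Z (fun v => Real.exp (c * ind (B v))) w ≤ 1 + (Real.exp c - 1) * b := by
  have e1 : ∀ v, Real.exp (c * ind (B v)) = 1 + (Real.exp c - 1) * ind (B v) := fun v => by
    by_cases h : B v
    · rw [ind_of h, mul_one, mul_one]
      ring
    · rw [ind_not h, mul_zero, mul_zero, Real.exp_zero, add_zero]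
  simp only [e1]
  rw [P.ce_add, P.ce_const _ _ hw, P.ce_smul]
  have h1 : 0 ≤ Real.exp c - 1 := by
    have := Real.add_one_le_exp c
    linarith
  have h2 := mul_le_mul_of_nonneg_left hb h1
  linarith

/-- an unsigned decision list is the indicator of the union of the sections whose bit is true, up to the order -/
theorem dl_ind_le (l : List ((ℕ × R) × Bool)) (z : Om) :
    dl H (fun _ _ => 1) l z ≤ ind (∃ p ∈ l, H p.1.1 p.1.2 z) := by
  classical
  induction l with
  | nil => exact ind_nonneg _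
  | cons p l ih =>
    rw [dl_cons]
    by_cases h : H p.1.1 p.1.2 z
    · rw [if_pos h, ind_of ⟨p, List.mem_cons_self, h⟩]
      split_ifs <;> norm_num
    · rw [if_neg h]
      exact ih.trans (ind_mono fun ⟨q, hq, h1⟩ => ⟨q, List.mem_cons_of_mem _ hq, h1⟩)

/-- an unsigned decision list has the values `0`, `1` -/
theorem dl_one (l : List ((ℕ × R) × Bool)) (z : Om) :
    dl H (fun _ _ => 1) l z = ind (dl H (fun _ _ => 1) l z = 1) := by
  classical
  have h : dl H (fun _ _ => (1 : ℝ)) l z = 0 ∨ dl H (fun _ _ => (1 : ℝ)) l z = 1 := by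
    induction l with
    | nil => exact Or.inl rfl
    | cons p l ih =>
      rw [dl_cons]
      split_ifs
      · exact Or.inr rfl
      · exact Or.inl rfl
      · exact ih
  rcases h with h | h
  · rw [h, ind_not (by norm_num)]
  · rw [h, ind_of rfl]

end norm

/-! ## the payment of the row lemma -/

section pay

variable {Om : Type*} [Fintype Om] {P : FP Om}
variable {α ω : Type*} {U : Om → α} {V : Om → ω} {κ ν : ℕ → Type*} {X : ∀ t, Om → κ t} {nd : ∀ t, Om → ν t}
  {A : ℕ → Om → Prop} {f : α → Om → ℝ} {kap lam th L eps : ℝ} {K M : ℕ} {x : Fin M → α} {σ : Om → ℕ}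

/-- **PAYMENT OF THE COVER WITH NAMES** : at a stopping time of the nodes -/
theorem row_payN (fnd : Filt nd) (hX : ∀ s, Fac V (X s)) (hσ : Stp nd σ)
    (hc : ∀ s (g : Om → ℝ), Fac V g → ∀ w, P.p w ≠ 0 → P.ce (X s) g w = P.ce (nd s) g w) (hK : 0 < K)
    (k0 : 0 < kap) (t0 : 0 < th) (l0 : 0 ≤ lam) (L0 : 0 ≤ L) (hf : ∀ a, Fac V (f a)) (hL : ∀ a z, f a z ≤ L)
    (hL' : ∀ a z, -L ≤ f a z) (e0 : 0 < eps) (he : 4 * L * eps ≤ lam * kap) (hth : 4 * L * th ≤ lam * eps)
    {E : ℕ → Om → Prop} (hE : ∀ s w, E s w → s ≤ σ w) :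
    lam * P.Pr (fun w => ∃ s, E s w ∧ covL P X (sec U V A) f kap lam K x s w) ≤
      4 * P.E (fun w => ind (cp P nd (σ w) (ded P nd (sec U V A) f kap lam K th x (σ w)) w ≤ eps) *
        dl (sec U V A) f (nm P nd (sec U V A) f kap lam K th x (σ w) w) w) := by
  refine le_trans (mul_le_mul_of_nonneg_left (P.Pr_mono fun w hw => ?_) l0)
    (payD (P := P) (X := nd) (H := sec U V A) (f := f) (kap := kap) (lam := lam) (x := x) fnd hK k0 t0 l0 L0 hL hL'
      e0 he hth hσ)
  rintro ⟨s, h1, h2⟩
  have h3 : covL P X (sec U V A) f kap lam K x (σ w) w := covL_mono (hE s w h1) h2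
  exact (covL_change (X := nd) (V := V) (Y := X) (fun s g hg w hw => (hc s g hg w hw).symm)
    hX (fun s a v w e => sec_fac s a v w e) hf (σ w) hw).2 h3

end pay

end

end Pool.Agent.GMH.PayN
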