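import Pool.Agent.GMH.TabF
import Pool.Agent.GMH.GhoZ6

/-!
# GMH/TabZ (helper85): THE TERMS AT `T^0` IN ONE WORLD OF THE TABLE SPACE (H3.UNM, U.5)

`P` = any world law (`Wd D P ∅ m`, e.g. `Wl`, `WE tb ∅ m z`), `tm s` = time of the substep `s`, `b`, `c`, `d` = the vertices in
any order (`V3`), `Zn` = a zone: time `zz` (event of the node), tuples `A`, relation `Rs` (may depend on the time), undecided
`ub v`, vertices `Vk` of the kind.  Samples = points of the table space (`pj`: the part which is read).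
* `fb`, `ci_b`, `ci_n` : faces and conditional independence; `SyR`, `TR`, `TOk`, `TOkr` : system and tests;
* `r0_w` (five covers), `gx_w` (three covers, relation which sees the top of `(b, c)`), `h_w`, `ht_w` : one world, fixed samples;
* `qF` = law of a sample; `bad_b` : bad probability in the mean; `r0_m`, `gx_m`, `h_m`, `ht_m` : in the mean over the samples.
-/

set_option autoImplicit false
set_option linter.unusedSectionVars false

namespace Pool.Agent.GMH.TabZ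

open Finset Pool.Agent.PWZ Pool.Agent.M3 Pool.Agent.GM Pool.Agent.GM.Harm Pool.Agent.GMH
open Pool.Agent.GMH.Gdy Pool.Agent.GMH.Dy Pool.Agent.GMH.TabF Pool.Agent.GMH.Blk Pool.Agent.GMH.GhoZ3

noncomputable section

variable {X β γ φ : Type} [Fintype X] [Fintype β] [Fintype φ] [Nonempty X] [Nonempty β]
variable {D : HD (Fin 3) X β γ φ} {W : Type} [Fintype W] {tm : ℕ → ℕ} {T : ℕ}

/-! ## the faces -/

/-- three different vertices -/
structure V3 (b c d : Fin 3) : Prop where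
  bc : b ≠ c
  bd : b ≠ d
  cd : c ≠ d

theorem V3.dec : ∀ {b c d : Fin 3}, V3 b c d → (({b} : Finset (Fin 3)) ∩ {c, d} ⊆ ∅) ∧
    (({b} : Finset (Fin 3)) ∪ {c, d} = univ) ∧ (({c, d} : Finset (Fin 3)) ∩ {b} ⊆ ∅) ∧
    (({c, d} : Finset (Fin 3)) ∪ {b} = univ) ∧ (({b, c} : Finset (Fin 3)) ∩ {b, d} ⊆ {b} ∪ ∅) ∧
    (({d} : Finset (Fin 3)) ∩ {c} ⊆ ∅) := by
  intro b c d h
  obtain ⟨h1, h2, h3⟩ := h
  revert b c d
  decide

theorem V3.r1 {b c d : Fin 3} (h : V3 b c d) : V3 c b d := ⟨h.bc.symm, h.cd, h.bd⟩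

theorem V3.r2 {b c d : Fin 3} (h : V3 b c d) : V3 b d c := ⟨h.bd, h.bc, h.cd.symm⟩

variable {P : FP (Om W X β)} {zz Rs A : ℕ → Om W X β → Prop} {ub : Fin 3 → ℕ → Om W X β → Prop} {Vk : Finset (Fin 3)}

/-- a zone: time `zz` (node), tuples `A`, relation `Rs`, undecided `ub v` (exact `v`) -/
structure Zn (D : HD (Fin 3) X β γ φ) (tm : ℕ → ℕ) (T : ℕ) (zz Rs A : ℕ → Om W X β → Prop)
    (ub : Fin 3 → ℕ → Om W X β → Prop) (Vk : Finset (Fin 3)) : Prop where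
  ht : ∀ s, tm s ≤ tm (s + 1)
  z1 : ∀ w s s', zz s w → zz s' w → s = s'
  zT : ∀ s w, zz s w → s < T
  hz : ∀ s x w, sgt D ∅ (tm s) x = sgt D ∅ (tm s) w → (zz s x ↔ zz s w)
  hu : ∀ v ∈ Vk, ∀ s x w, sgt D {v} (tm s) x = sgt D {v} (tm s) w → (ub v s x ↔ ub v s w)
  Az : ∀ s w, A s w → zz s w
  Au : ∀ v ∈ Vk, ∀ s w, A s w → ub v s w
  AR : ∀ s w, A s w → Rs s w

theorem Zn.hzE (Z : Zn D tm T zz Rs A ub Vk) (E : Finset (Fin 3)) (s : ℕ) (x w : Om W X β)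
    (e : sgt D E (tm s) x = sgt D E (tm s) w) : zz s x ↔ zz s w :=
  Z.hz s x w (sgt_mono (Finset.empty_subset E) (tm s) x w e)

/-- the face of `b` : `U` = point `b`, tables of its labels, `V` = points `c`, `d`, table of their label -/
theorem fb {m : ℕ} (h : Wd D P ∅ m) (Z : Zn D tm T zz Rs A ub Vk) (w0 : Om W X β) {b c d : Fin 3} (hv : V3 b c d) :
    Face P (fun w => w) zz (TabF.pj w0 {b} {c, d}) (TabF.pj w0 {c, d} {b}) (fun s => si D ∅ {c, d} ∅ (tm s)) := by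
  obtain ⟨h1, h2, h3, h4, -, -⟩ := hv.dec
  have e := face h w0 (F := {c, d}) (G := {b}) (S := {b}) (S' := {c, d}) h1 (by rw [Finset.empty_union]; exact h2) h3
    h4 Z.ht (zz := zz) Z.hz
  simp only [Finset.empty_union] at e
  exact e

/-- the sight of the points `b`, `c` with the table of their label -/
abbrev Yt (D : HD (Fin 3) X β γ φ) (tm : ℕ → ℕ) (W : Type) [Fintype W] (b c d : Fin 3) (s : ℕ) :
    Om W X β → X × (Fin 3 → Option W) × (Fin 3 → Option β) × (Fin 3 → Option γ) := si D {b, c} univ {d} (tm s)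

theorem ci_b {m : ℕ} (h : Wd D P ∅ m) {b c d : Fin 3} (hv : V3 b c d) :
    CI P (fun s => sgt D {b} (tm s)) (Yt D tm W b c d) (Yt D tm W b d c) := by
  obtain ⟨-, -, -, -, h5, h6⟩ := hv.dec
  exact fun s => sgt_ci' h (E := {b}) (E1 := {b, c}) (S1 := {d}) (E2 := {b, d}) (S2 := {c}) (by simp) (by simp) h5 h6

theorem ci_n {m : ℕ} (h : Wd D P ∅ m) {b c d : Fin 3} (hv : V3 b c d) :
    CI P (fun s => sgt D ∅ (tm s)) (fun s => sgt D {b} (tm s)) (fun s => sgt D {c} (tm s)) := by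
  intro s
  have h1 : ({b} : Finset (Fin 3)) ∩ {c} ⊆ ∅ ∪ ∅ := by
    obtain ⟨h1, h2, h3⟩ := hv
    revert b c d
    decide
  refine Crd.ci_congr (sgt_ci' h (E := ∅) (E1 := {b}) (S1 := ∅) (E2 := {c}) (S2 := ∅) (m := tm s) (by simp) (by simp)
    h1 (by simp)) (fun _ _ e => e) (fun _ _ e => e) (fun v w e => (sgt_si _ _).2 e) (fun v w e => (sgt_si _ _).2 e)

/-! ## the kind `R0` in one world -/

/-- tests of the kind `R0` (functions of the whole point, tables of the start) -/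
structure TR (Om : Type) where
  pZ : Om → ℝ
  Yb : Om → ℝ
  Xb : Om → ℝ
  pY : Om → ℝ
  Xc : Om → ℝ
  sg : Om → ℝ

/-- numbers -/
structure Nm where
  kap : ℝ
  lam : ℝ
  K : ℕ
  M : ℕ

/-- a sample -/
abbrev Sml (Om : Type) (k : Nm) : Type := Fin k.M → Om

/-- the system of the five covers -/
def SyR (D : HD (Fin 3) X β γ φ) (tm : ℕ → ℕ) (A : ℕ → Om W X β → Prop) (w0 : Om W X β) (b c d : Fin 3)
    (t : TR (Om W X β)) (k : Nm) (b1 c1 c2 d1 d2 : Sml (Om W X β) k) :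
    Sy (Om W X β) (Om W X β) (Om W X β) (Om W X β) (Om W X β) (Om W X β) (Om W X β)
      (fun _ => X × (Fin 3 → Option W) × (Fin 3 → Option β) × (Fin 3 → Option γ))
      (fun _ => X × (Fin 3 → Option W) × (Fin 3 → Option β) × (Fin 3 → Option γ))
      (fun _ => X × (Fin 3 → Option W) × (Fin 3 → Option β) × (Fin 3 → Option γ)) k.M where
  B := TabF.pj w0 {b} {c, d}
  C := TabF.pj w0 {c} {b, d}
  D := TabF.pj w0 {d} {b, c}
  VB := TabF.pj w0 {c, d} {b}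
  VC := TabF.pj w0 {b, d} {c}
  VD := TabF.pj w0 {b, c} {d}
  XB := fun s => si D ∅ {c, d} ∅ (tm s)
  XC := fun s => si D ∅ {b, d} ∅ (tm s)
  XD := fun s => si D ∅ {b, c} ∅ (tm s)
  pZ := TabF.ts {b} {c, d} t.pZ
  pY := TabF.ts {c} {b, d} t.pY
  Yb := TabF.ts {c} {b, d} t.Yb
  Xb := TabF.ts {d} {b, c} t.Xb
  Xc := TabF.ts {d} {b, c} t.Xc
  sg := t.sg
  b1 := b1
  c1 := c1
  c2 := c2
  d1 := d1
  d2 := d2
  kap := k.kap
  lam := k.lam
  K := k.K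
  A := A

/-- what is asked of the tests, for the vertices `b`, `c` -/
structure TOk (A : ℕ → Om W X β → Prop) (ψ : Om W X β → ℝ) (L : ℝ) (t : TR (Om W X β)) : Prop where
  iY : ∀ s w, A s w → ψ w ≤ t.pZ w + t.Yb w + t.sg w
  LZ : ∀ w, t.pZ w ≤ L
  LY : ∀ w, t.Yb w ≤ L
  Lψ : ∀ w, ψ w ≤ L
  sg0 : ∀ w, 0 ≤ t.sg w
  L0 : 0 ≤ L

/-- for the three vertices -/
structure TOkr (A : ℕ → Om W X β → Prop) (ψ : Om W X β → ℝ) (L : ℝ) (t : TR (Om W X β)) : Prop extends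
    TOk A ψ L t where
  iX : ∀ s w, A s w → ψ w ≤ t.pZ w + t.Xb w + t.sg w
  iC : ∀ s w, A s w → ψ w ≤ t.pY w + t.Xc w + t.sg w
  Lp : ∀ w, t.pY w ≤ L
  Lb : ∀ w, t.Xb w ≤ L
  Lc : ∀ w, t.Xc w ≤ L

variable {w0 : Om W X β} {b c d : Fin 3} {t : TR (Om W X β)} {k : Nm} {b1 c1 c2 d1 d2 : Sml (Om W X β) k} {L : ℝ}
  {ψ : Om W X β → ℝ}

theorem pair_comm (c d : Fin 3) : ({c, d} : Finset (Fin 3)) = {d, c} := Finset.pair_comm c d

theorem ok_w {m : ℕ} (h : Wd D P ∅ m) (Z : Zn D tm T zz Rs A ub Vk) (hv : V3 b c d) (k0 : 0 ≤ k.kap)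
    (l0 : 0 ≤ k.lam) (ht : TOk A ψ L t) :
    (SyR D tm A w0 b c d t k b1 c1 c2 d1 d2).Ok P (fun w => w) zz T L ψ where
  FB := fb h Z w0 hv
  FC := fb h Z w0 hv.r1
  FD := by
    have e := fb h Z w0 (b := d) (c := b) (d := c) ⟨hv.bd.symm, hv.cd.symm, hv.bc⟩
    exact e
  z1 := Z.z1
  zT := Z.zT
  evA := fun s x w e => by rw [show x = w from e]
  Az := Z.Az
  l0 := l0
  k0 := k0
  L0 := ht.L0
  vZ := fun a => ts_fac w0 hv.dec.2.1 hv.dec.2.2.2.1 _ a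
  vYb := fun a => ts_fac w0 hv.r1.dec.2.1 hv.r1.dec.2.2.2.1 _ a
  iY := fun s w a => by
    show ψ w ≤ TabF.ts {b} {c, d} t.pZ (TabF.pj w0 {b} {c, d} w) w + TabF.ts {c} {b, d} t.Yb (TabF.pj w0 {c} {b, d} w) w + t.sg w
    rw [ts_own, ts_own]
    exact ht.iY s w a
  LZ := fun w => ts_le ht.LZ _ _
  LY := fun w => ts_le ht.LY _ _
  Lψ := ht.Lψ
  sg0 := ht.sg0

theorem okr_w {m : ℕ} (h : Wd D P ∅ m) (Z : Zn D tm T zz Rs A ub Vk) (hv : V3 b c d) (k0 : 0 ≤ k.kap)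
    (l0 : 0 ≤ k.lam) (ht : TOkr A ψ L t) :
    (SyR D tm A w0 b c d t k b1 c1 c2 d1 d2).Okr P (fun w => w) zz T L ψ where
  toOk := ok_w h Z hv k0 l0 ht.toTOk
  vY := fun a => ts_fac w0 hv.r1.dec.2.1 hv.r1.dec.2.2.2.1 _ a
  vXb := fun a => by
    have hv' : V3 d b c := ⟨hv.bd.symm, hv.cd.symm, hv.bc⟩
    exact ts_fac w0 hv'.dec.2.1 hv'.dec.2.2.2.1 _ a
  vXc := fun a => by
    have hv' : V3 d b c := ⟨hv.bd.symm, hv.cd.symm, hv.bc⟩
    exact ts_fac w0 hv'.dec.2.1 hv'.dec.2.2.2.1 _ a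
  iX := fun s w a => by
    show ψ w ≤ TabF.ts {b} {c, d} t.pZ (TabF.pj w0 {b} {c, d} w) w + TabF.ts {d} {b, c} t.Xb (TabF.pj w0 {d} {b, c} w) w +
      t.sg w
    rw [ts_own, ts_own]
    exact ht.iX s w a
  iC := fun s w a => by
    show ψ w ≤ TabF.ts {c} {b, d} t.pY (TabF.pj w0 {c} {b, d} w) w + TabF.ts {d} {b, c} t.Xc (TabF.pj w0 {d} {b, c} w) w +
      t.sg w
    rw [ts_own, ts_own]
    exact ht.iC s w a
  Lp := fun w => ts_le ht.Lp _ _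
  Lb := fun w => ts_le ht.Lb _ _
  Lc := fun w => ts_le ht.Lc _ _

theorem sub_pair (b c : Fin 3) : ({b} : Finset (Fin 3)) ⊆ {b, c} := by simp

/-- the sights at `b`, `c` -/
theorem sv2_w {m : ℕ} (h : Wd D P ∅ m) (Z : Zn D tm T zz Rs A ub Vk) (hv : V3 b c d) (hb : b ∈ Vk)
    (hc : c ∈ Vk) :
    Sv2 P (SyR D tm A w0 b c d t k b1 c1 c2 d1 d2) zz Rs (ub b) (ub c)
      (fun s => sgt D {b} (tm s)) (fun s => sgt D {c} (tm s)) (Yt D tm W b c d) (Yt D tm W b d c) (Yt D tm W c d b) where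
  cib := ci_b h hv
  cic := by
    have e := ci_b (tm := tm) h hv.r1
    intro s
    have e' := e s
    unfold Yt at e' ⊢
    rw [pair_comm c b] at e'
    exact e'
  zb := fun s x w e => Z.hzE _ s x w e
  zc := fun s x w e => Z.hzE _ s x w e
  hub := fun s x w e => Z.hu b hb s x w e
  huc := fun s x w e => Z.hu c hc s x w e
  w1 := fun s => fac_si_pj w0 (Finset.Subset.refl _) (Finset.Subset.refl _) (tm s)
  w2 := fun s => fac_si_pj w0 (Finset.Subset.refl _) (Finset.Subset.refl _) (tm s)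
  w3 := fun s => fac_si_pj w0 (Finset.Subset.refl _) (Finset.Subset.refl _) (tm s)
  Ab := Z.Au b hb
  Ac := Z.Au c hc
  AR := Z.AR

/-- the sights at `b`, `c`, `d` -/
theorem sv3_w {m : ℕ} (h : Wd D P ∅ m) (Z : Zn D tm T zz Rs A ub Vk) (hv : V3 b c d) (hb : b ∈ Vk)
    (hc : c ∈ Vk) (hd : d ∈ Vk) :
    Sv3 P (SyR D tm A w0 b c d t k b1 c1 c2 d1 d2) zz Rs (ub b) (ub c)
      (ub d) (fun s => sgt D {b} (tm s)) (fun s => sgt D {c} (tm s)) (fun s => sgt D {d} (tm s))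
      (Yt D tm W b c d) (Yt D tm W b d c) (Yt D tm W c d b) where
  toSv2 := sv2_w h Z hv hb hc
  cid := by
    have hv' : V3 d b c := ⟨hv.bd.symm, hv.cd.symm, hv.bc⟩
    have e := ci_b (tm := tm) h hv'
    intro s
    have e' := e s
    unfold Yt at e' ⊢
    rw [pair_comm d b, pair_comm d c] at e'
    exact e'
  zd := fun s x w e => Z.hzE _ s x w e
  hud := fun s x w e => Z.hu d hd s x w e
  Ad := Z.Au d hd

/-! ## the kinds in one world -/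

/-- the bad probabilities of `R0` -/
def badR (P : FP (Om W X β)) (D : HD (Fin 3) X β γ φ) (tm : ℕ → ℕ) (A : ℕ → Om W X β → Prop) (w0 : Om W X β)
    (b c d : Fin 3) (t : TR (Om W X β)) (k : Nm) (T : ℕ) (b1 c1 c2 d1 d2 : Sml (Om W X β) k) : ℝ :=
  (SyR D tm A w0 b c d t k b1 c1 c2 d1 d2).bad5 P T

/-- the bad probabilities of `G_X` -/
def badG (P : FP (Om W X β)) (D : HD (Fin 3) X β γ φ) (tm : ℕ → ℕ) (A : ℕ → Om W X β → Prop) (w0 : Om W X β)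
    (b c d : Fin 3) (t : TR (Om W X β)) (k : Nm) (T : ℕ) (b1 c1 d1 : Sml (Om W X β) k) : ℝ :=
  (SyR D tm A w0 b c d t k b1 c1 c1 d1 d1).bad3 P T

/-- the covered masses at `T^0` of the kind `R0` -/
def covR (P : FP (Om W X β)) (zz : ℕ → Om W X β → Prop) (D : HD (Fin 3) X β γ φ) (tm : ℕ → ℕ) (A : ℕ → Om W X β → Prop)
    (w0 : Om W X β) (b c d : Fin 3) (t : TR (Om W X β)) (k : Nm) (b1 c1 c2 d1 d2 : Sml (Om W X β) k) : ℝ :=
  cz P zz ((SyR D tm A w0 b c d t k b1 c1 c2 d1 d2).AX1 P) + cz P zz ((SyR D tm A w0 b c d t k b1 c1 c2 d1 d2).AY1 P) +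
    cz P zz ((SyR D tm A w0 b c d t k b1 c1 c2 d1 d2).AY2 P) + cz P zz ((SyR D tm A w0 b c d t k b1 c1 c2 d1 d2).AX2 P) +
    2 * cz P zz ((SyR D tm A w0 b c d t k b1 c1 c2 d1 d2).AZ P)

/-- the covered masses at `T^0` of the kind `G_X` -/
def covG (P : FP (Om W X β)) (zz : ℕ → Om W X β → Prop) (D : HD (Fin 3) X β γ φ) (tm : ℕ → ℕ) (A : ℕ → Om W X β → Prop)
    (w0 : Om W X β) (b c d : Fin 3) (t : TR (Om W X β)) (k : Nm) (b1 c1 d1 : Sml (Om W X β) k) : ℝ :=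
  2 * cz P zz ((SyR D tm A w0 b c d t k b1 c1 c1 d1 d1).AU P) + cz P zz ((SyR D tm A w0 b c d t k b1 c1 c1 d1 d1).AY1 P) +
    cz P zz ((SyR D tm A w0 b c d t k b1 c1 c1 d1 d1).AZ P)

/-- **KIND `R0` IN ONE WORLD** -/
theorem r0_w {m : ℕ} (h : Wd D P ∅ m) (Z : Zn D tm T zz Rs A ub Vk) (hv : V3 b c d) (hb : b ∈ Vk) (hc : c ∈ Vk)
    (hd : d ∈ Vk) (k0 : 0 ≤ k.kap) (l0 : 0 ≤ k.lam) (ht : TOkr A ψ L t) (q : ℝ) :
    P.E (fun w => ind (∃ s, A s w) * ψ w) ≤ 2 * (k.lam * P.Pr (fun w => ∃ s, A s w)) +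
      5 * (L * k.kap * P.Pr (fun w => ∃ s, zz s w)) + L * badR P D tm A w0 b c d t k T b1 c1 c2 d1 d2 +
      L * (Real.sqrt q * (covR P zz D tm A w0 b c d t k b1 c1 c2 d1 d2 / 2)) +
      L * (exc P zz (fun s => sgt D {b} (tm s)) Rs (ub b) q + exc P zz (fun s => sgt D {c} (tm s)) Rs (ub c) q +
        exc P zz (fun s => sgt D {d} (tm s)) Rs (ub d) q) +
      P.E (fun w => ind (∃ s, A s w) * t.sg w) :=
  r0_all (P := P) (S := SyR D tm A w0 b c d t k b1 c1 c2 d1 d2) (W := fun w => w) (zz := zz) (Rs := Rs) (ub := ub b)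
    (uc := ub c) (ud := ub d) (T := T) (L := L) (b := q) (ψ := ψ) (okr_w h Z hv k0 l0 ht) (sv3_w h Z hv hb hc hd)

/-- **KIND `G_X` IN ONE WORLD** -/
theorem gx_w {m : ℕ} (h : Wd D P ∅ m) (Z : Zn D tm T zz Rs A ub Vk) (hv : V3 b c d) (hb : b ∈ Vk) (hc : c ∈ Vk)
    (k0 : 0 ≤ k.kap) (l0 : 0 ≤ k.lam) (ht : TOk A ψ L t) (q : ℝ) :
    P.E (fun w => ind (∃ s, A s w) * ψ w) ≤ 2 * (k.lam * P.Pr (fun w => ∃ s, A s w)) +
      3 * (L * k.kap * P.Pr (fun w => ∃ s, zz s w)) + L * badG P D tm A w0 b c d t k T b1 c1 d1 +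
      L * (Real.sqrt q * (covG P zz D tm A w0 b c d t k b1 c1 d1 / 2)) +
      L * (exc P zz (fun s => sgt D {b} (tm s)) Rs (ub b) q + exc P zz (fun s => sgt D {c} (tm s)) Rs (ub c) q) +
      P.E (fun w => ind (∃ s, A s w) * t.sg w) :=
  gx_all (P := P) (S := SyR D tm A w0 b c d t k b1 c1 c1 d1 d1) (W := fun w => w) (zz := zz) (Rs := Rs) (ub := ub b)
    (uc := ub c) (T := T) (L := L) (b := q) (ψ := ψ) (ok_w h Z hv k0 l0 ht) (sv2_w h Z hv hb hc)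

/-- unsigned cover at the face of `b` -/
def cuF (P : FP (Om W X β)) (D : HD (Fin 3) X β γ φ) (tm : ℕ → ℕ) (A : ℕ → Om W X β → Prop) (w0 : Om W X β)
    (b c d : Fin 3) (k : Nm) (x : Sml (Om W X β) k) : ℕ → Om W X β → Prop :=
  cu P (TabF.pj w0 {b} {c, d}) (TabF.pj w0 {c, d} {b}) (fun s => si D ∅ {c, d} ∅ (tm s)) A k.kap k.K x

/-- its bad probability -/
def buF (P : FP (Om W X β)) (D : HD (Fin 3) X β γ φ) (tm : ℕ → ℕ) (A : ℕ → Om W X β → Prop) (w0 : Om W X β)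
    (b c d : Fin 3) (k : Nm) (T : ℕ) (x : Sml (Om W X β) k) : ℝ :=
  GhoZ3.bu P (TabF.pj w0 {b} {c, d}) (TabF.pj w0 {c, d} {b}) (fun s => si D ∅ {c, d} ∅ (tm s)) A k.kap k.K T x

/-- **KIND `H_XY` IN ONE WORLD** : vertex `b` -/
theorem h_w {m : ℕ} (h : Wd D P ∅ m) (Z : Zn D tm T zz Rs A ub Vk) (hv : V3 b c d) (hb : b ∈ Vk) (k0 : 0 ≤ k.kap)
    (x y : Sml (Om W X β) k) (q : ℝ) :
    P.Pr (fun w => ∃ s, A s w) ≤ 2 * k.kap * P.Pr (fun w => ∃ s, zz s w) +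
      (buF P D tm A w0 c b d k T x + buF P D tm A w0 d b c k T y) +
      Real.sqrt q * ((cz P zz (cuF P D tm A w0 d b c k y) + cz P zz (cuF P D tm A w0 c b d k x)) / 2) +
      exc P zz (fun s => sgt D {b} (tm s)) Rs (ub b) q := by
  have hv' : V3 d b c := ⟨hv.bd.symm, hv.cd.symm, hv.bc⟩
  have h1 := hk (P := P) (W := fun w => w) (zz := zz) (Rs := Rs) (ub := ub b)
    (A := A) (T := T) (kap := k.kap) (kap' := k.kap) (K := k.K) (K' := k.K) (b := q) (x := x) (x' := y)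
    (fb h Z w0 hv.r1) (fb h Z w0 hv') Z.z1 Z.zT (fun s x w e => by rw [show x = w from e])
    Z.Az k0 k0 (ci_b (tm := tm) h hv) (fun s x w e => Z.hzE _ s x w e)
    (Z.hu b hb) (fun s => fac_si_pj w0 (Finset.Subset.refl _) (Finset.Subset.refl _) (tm s))
    (fun s => fac_si_pj w0 (Finset.Subset.refl _) (Finset.Subset.refl _) (tm s)) (fun s w a => ⟨Z.Au b hb s w a, Z.AR s w a⟩)
  refine h1.trans (add_le_add (le_of_eq ?_) le_rfl)
  unfold cuF buF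
  ring

/-- **KIND `HT` IN ONE WORLD** -/
theorem ht_w {m : ℕ} (h : Wd D P ∅ m) (Z : Zn D tm T zz Rs A ub Vk) (hv : V3 b c d) (k0 : 0 ≤ k.kap)
    (x y y' : Sml (Om W X β) k) {q u : ℝ} (q0 : 0 ≤ q) (hq : u ≤ q ^ 3) :
    P.Pr (fun w => ∃ s, A s w) ≤ 3 * k.kap * P.Pr (fun w => ∃ s, zz s w) +
      (buF P D tm A w0 b c d k T x + buF P D tm A w0 c b d k T y + buF P D tm A w0 d b c k T y') +
      q * ((cz P zz (cuF P D tm A w0 d b c k y') + cz P zz (cuF P D tm A w0 c b d k y) +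
        cz P zz (cuF P D tm A w0 b c d k x)) / 3) +
      exc P zz (fun s => sgt D ∅ (tm s)) Rs (fun _ _ => True) u := by
  have hv' : V3 d b c := ⟨hv.bd.symm, hv.cd.symm, hv.bc⟩
  have hcc : CI P (fun s => sgt D {c} (tm s)) (Yt D tm W b c d) (Yt D tm W c d b) := by
    have e := ci_b (tm := tm) h hv.r1
    intro s
    have e' := e s
    unfold Yt at e' ⊢
    rw [pair_comm c b] at e'
    exact e'
  have h1 := GhoZ3.ht (P := P) (W := fun w => w) (zz := zz) (Rs := Rs)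
    (A := A) (T := T) (kap := k.kap) (kap' := k.kap) (kap'' := k.kap) (K := k.K) (K' := k.K) (K'' := k.K)
    (b := u) (t := q) (x := x) (x' := y) (x'' := y')
    (fb h Z w0 hv) (fb h Z w0 hv.r1) (fb h Z w0 hv') Z.z1 Z.zT
    (fun s x w e => by rw [show x = w from e]) Z.Az k0 k0 k0 (ci_n (tm := tm) h hv) (ci_b (tm := tm) h hv)
    hcc (fun s => fac_sgt _ _ (sub_pair b c) (tm s))
    (fun s => fac_sgt _ _ (by simp) (tm s)) (fun s => sgt_mono (Finset.empty_subset _) (tm s))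
    (fun s => sgt_mono (Finset.empty_subset _) (tm s)) Z.hz
    (fun s => fac_si_pj w0 (Finset.Subset.refl _) (Finset.Subset.refl _) (tm s))
    (fun s => fac_si_pj w0 (Finset.Subset.refl _) (Finset.Subset.refl _) (tm s))
    (fun s => fac_si_pj w0 (Finset.Subset.refl _) (Finset.Subset.refl _) (tm s)) Z.AR q0 hq
  refine h1.trans (add_le_add (le_of_eq ?_) le_rfl)
  unfold cuF buF
  ring

/-! ## in the mean over the samples -/

instance omF : Fintype (Om W X β) := inferInstanceAs (Fintype (X × (Fin 3 → W) × (Fin 3 → β)))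

instance smlF (k : Nm) : Fintype (Sml (Om W X β) k) := inferInstanceAs (Fintype (Fin k.M → Om W X β))

/-- law of a sample: the part `(G, S)` of a point of the world -/
def qF (P : FP (Om W X β)) (w0 : Om W X β) (G S : Finset (Fin 3)) : FP (Om W X β) where
  p a := P.Pr (fun w => TabF.pj w0 G S w = a)
  nn a := P.Pr_nonneg _
  tot := by
    classical
    have h1 : ∀ w : Om W X β, ∑ a, ind (TabF.pj w0 G S w = a) = 1 := by
      intro w
      rw [Finset.sum_eq_single (TabF.pj w0 G S w)]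
      · exact ind_of rfl
      · intro a _ ha
        exact ind_not fun e => ha e.symm
      · intro ha
        exact absurd (mem_univ _) ha
    unfold FP.Pr
    rw [← FP.E_sum, P.E_congr fun w _ => h1 w]
    exact P.E_const 1

/-- law of the samples -/
abbrev Sp (P : FP (Om W X β)) (w0 : Om W X β) (G S : Finset (Fin 3)) (k : Nm) : FP (Sml (Om W X β) k) :=
  FPpi fun _ : Fin k.M => qF P w0 G S

theorem pr_le {A B : Type*} [Fintype A] [Fintype B] {P1 : FP A} {P2 : FP B} {f : A × B → ℝ} {e : ℝ}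
    (h : ∀ x, P2.E (fun y => f (x, y)) ≤ e) : (FP.pr P1 P2).E f ≤ e := by
  rw [FP.pr_E, ← P1.E_const e]
  exact P1.E_mono fun x _ => h x

theorem pr_fst {A B : Type*} [Fintype A] [Fintype B] {P1 : FP A} {P2 : FP B} (g : A → ℝ) :
    (FP.pr P1 P2).E (fun x => g x.1) = P1.E g := by
  rw [FP.pr_E]
  exact P1.E_congr fun x _ => P2.E_const (g x)

theorem pr_fst_le {A B : Type*} [Fintype A] [Fintype B] {P1 : FP A} {P2 : FP B} (g : A → ℝ) {e : ℝ}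
    (h : P1.E g ≤ e) : (FP.pr P1 P2).E (fun x => g x.1) ≤ e := by
  rw [pr_fst g]
  exact h

/-- bad points in the mean over the samples -/
theorem bad_m {m : ℕ} (h : Wd D P ∅ m) (Z : Zn D tm T zz Rs A ub Vk) (w0 : Om W X β) (hv : V3 b c d) {k : Nm}
    (hK : 1 < k.kap * k.K) (k0 : 0 < k.kap) (B : ℕ → Om W X β → Prop) (f : Om W X β → Om W X β → ℝ) (lam : ℝ) :
    (Sp P w0 {b} {c, d} k).E (fun x => bp P (TabF.pj w0 {b} {c, d}) (TabF.pj w0 {c, d} {b})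
      (fun s => si D ∅ {c, d} ∅ (tm s)) B f k.kap lam k.K T x) ≤ 1 / (k.kap * (k.M + 1)) := by
  have e := bp_le (f := f) (lam := lam) (A := B) (fb h Z w0 hv) hK k0 k.M T
  exact e

/-- the samples of the kind `R0` : `(b1, c1, d1, c2, d2)` -/
abbrev SR (P : FP (Om W X β)) (w0 : Om W X β) (b c d : Fin 3) (k : Nm) := FP.pr (Sp P w0 {b} {c, d} k)
  (FP.pr (Sp P w0 {c} {b, d} k) (FP.pr (Sp P w0 {d} {b, c} k) (FP.pr (Sp P w0 {c} {b, d} k) (Sp P w0 {d} {b, c} k))))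

/-- the samples of the kinds `G_X` and `HT` : `(b1, c1, d1)` -/
abbrev SG (P : FP (Om W X β)) (w0 : Om W X β) (b c d : Fin 3) (k : Nm) := FP.pr (Sp P w0 {b} {c, d} k)
  (FP.pr (Sp P w0 {c} {b, d} k) (Sp P w0 {d} {b, c} k))

/-- covered masses of the kind `R0`, in the mean -/
def mcR (P : FP (Om W X β)) (zz : ℕ → Om W X β → Prop) (D : HD (Fin 3) X β γ φ) (tm : ℕ → ℕ) (A : ℕ → Om W X β → Prop)
    (w0 : Om W X β) (b c d : Fin 3) (t : TR (Om W X β)) (k : Nm) : ℝ :=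
  (SR P w0 b c d k).E fun x => covR P zz D tm A w0 b c d t k x.1 x.2.1 x.2.2.2.1 x.2.2.1 x.2.2.2.2

/-- covered masses of the kind `G_X`, in the mean -/
def mcG (P : FP (Om W X β)) (zz : ℕ → Om W X β → Prop) (D : HD (Fin 3) X β γ φ) (tm : ℕ → ℕ) (A : ℕ → Om W X β → Prop)
    (w0 : Om W X β) (b c d : Fin 3) (t : TR (Om W X β)) (k : Nm) : ℝ :=
  (SG P w0 b c d k).E fun x => covG P zz D tm A w0 b c d t k x.1 x.2.1 x.2.2

/-- covered mass of one unsigned cover, in the mean -/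
def mcU (P : FP (Om W X β)) (zz : ℕ → Om W X β → Prop) (D : HD (Fin 3) X β γ φ) (tm : ℕ → ℕ) (A : ℕ → Om W X β → Prop)
    (w0 : Om W X β) (b c d : Fin 3) (k : Nm) : ℝ :=
  (Sp P w0 {b} {c, d} k).E fun x => cz P zz (cuF P D tm A w0 b c d k x)

theorem badR_m {m : ℕ} (h : Wd D P ∅ m) (Z : Zn D tm T zz Rs A ub Vk) (w0 : Om W X β) (hv : V3 b c d)
    (t : TR (Om W X β)) {k : Nm} (hK : 1 < k.kap * k.K) (k0 : 0 < k.kap) :
    (SR P w0 b c d k).E (fun x => badR P D tm A w0 b c d t k T x.1 x.2.1 x.2.2.2.1 x.2.2.1 x.2.2.2.2) ≤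
      5 * (1 / (k.kap * (k.M + 1))) := by
  have hv' : V3 d b c := ⟨hv.bd.symm, hv.cd.symm, hv.bc⟩
  unfold badR Sy.bad5
  rw [FP.E_add, FP.E_add, FP.E_add, FP.E_add]
  have e1 : (SR P w0 b c d k).E (fun x => bp P (TabF.pj w0 {b} {c, d}) (TabF.pj w0 {c, d} {b})
      (fun s => si D ∅ {c, d} ∅ (tm s)) A (TabF.ts {b} {c, d} t.pZ) k.kap k.lam k.K T x.1) ≤
      1 / (k.kap * (k.M + 1)) := by
    rw [pr_fst (fun x => bp P (TabF.pj w0 {b} {c, d}) (TabF.pj w0 {c, d} {b})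
      (fun s => si D ∅ {c, d} ∅ (tm s)) A (TabF.ts {b} {c, d} t.pZ) k.kap k.lam k.K T x)]
    exact bad_m h Z w0 hv hK k0 A _ k.lam
  have e2 : (SR P w0 b c d k).E (fun x => bp P (TabF.pj w0 {c} {b, d}) (TabF.pj w0 {b, d} {c})
      (fun s => si D ∅ {b, d} ∅ (tm s)) ((SyR D tm A w0 b c d t k x.1 x.2.1 x.2.2.2.1 x.2.2.1 x.2.2.2.2).E1 P)
      (TabF.ts {c} {b, d} t.Yb) k.kap k.lam k.K T x.2.1) ≤ 1 / (k.kap * (k.M + 1)) := by
    refine pr_le fun b1 => ?_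
    exact pr_fst_le (fun z => bp P (TabF.pj w0 {c} {b, d}) (TabF.pj w0 {b, d} {c}) (fun s => si D ∅ {b, d} ∅ (tm s))
        ((SyR D tm A w0 b c d t k b1 z z z z).E1 P) (TabF.ts {c} {b, d} t.Yb) k.kap k.lam k.K T z)
      (bad_m h Z w0 hv.r1 hK k0 ((SyR D tm A w0 b c d t k b1 b1 b1 b1 b1).E1 P) _ k.lam)
  have e3 : (SR P w0 b c d k).E (fun x => bp P (TabF.pj w0 {d} {b, c}) (TabF.pj w0 {b, c} {d})
      (fun s => si D ∅ {b, c} ∅ (tm s)) ((SyR D tm A w0 b c d t k x.1 x.2.1 x.2.2.2.1 x.2.2.1 x.2.2.2.2).G1 P)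
      (TabF.ts {d} {b, c} t.Xb) k.kap k.lam k.K T x.2.2.1) ≤ 1 / (k.kap * (k.M + 1)) := by
    refine pr_le fun b1 => pr_le fun c1 => ?_
    exact pr_fst_le (fun z => bp P (TabF.pj w0 {d} {b, c}) (TabF.pj w0 {b, c} {d}) (fun s => si D ∅ {b, c} ∅ (tm s))
        ((SyR D tm A w0 b c d t k b1 c1 z z z).G1 P) (TabF.ts {d} {b, c} t.Xb) k.kap k.lam k.K T z)
      (bad_m h Z w0 hv' hK k0 ((SyR D tm A w0 b c d t k b1 c1 c1 c1 c1).G1 P) _ k.lam)
  have e4 : (SR P w0 b c d k).E (fun x => bp P (TabF.pj w0 {c} {b, d}) (TabF.pj w0 {b, d} {c})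
      (fun s => si D ∅ {b, d} ∅ (tm s)) ((SyR D tm A w0 b c d t k x.1 x.2.1 x.2.2.2.1 x.2.2.1 x.2.2.2.2).A1 P)
      (TabF.ts {c} {b, d} t.pY) k.kap k.lam k.K T x.2.2.2.1) ≤ 1 / (k.kap * (k.M + 1)) := by
    refine pr_le fun b1 => pr_le fun c1 => pr_le fun d1 => ?_
    exact pr_fst_le (fun z => bp P (TabF.pj w0 {c} {b, d}) (TabF.pj w0 {b, d} {c}) (fun s => si D ∅ {b, d} ∅ (tm s))
        ((SyR D tm A w0 b c d t k b1 c1 z d1 z).A1 P) (TabF.ts {c} {b, d} t.pY) k.kap k.lam k.K T z)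
      (bad_m h Z w0 hv.r1 hK k0 ((SyR D tm A w0 b c d t k b1 c1 c1 d1 d1).A1 P) _ k.lam)
  have e5 : (SR P w0 b c d k).E (fun x => bp P (TabF.pj w0 {d} {b, c}) (TabF.pj w0 {b, c} {d})
      (fun s => si D ∅ {b, c} ∅ (tm s)) ((SyR D tm A w0 b c d t k x.1 x.2.1 x.2.2.2.1 x.2.2.1 x.2.2.2.2).A1 P)
      (TabF.ts {d} {b, c} t.Xc) k.kap k.lam k.K T x.2.2.2.2) ≤ 1 / (k.kap * (k.M + 1)) := by
    refine pr_le fun b1 => pr_le fun c1 => pr_le fun d1 => pr_le fun c2 => ?_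
    exact bad_m h Z w0 hv' hK k0 ((SyR D tm A w0 b c d t k b1 c1 c1 d1 d1).A1 P) _ k.lam
  have h1 := add_le_add (add_le_add (add_le_add (add_le_add e1 e2) e3) e4) e5
  refine le_trans h1 (le_of_eq ?_)
  ring

theorem badG_m {m : ℕ} (h : Wd D P ∅ m) (Z : Zn D tm T zz Rs A ub Vk) (w0 : Om W X β) (hv : V3 b c d)
    (t : TR (Om W X β)) {k : Nm} (hK : 1 < k.kap * k.K) (k0 : 0 < k.kap) :
    (SG P w0 b c d k).E (fun x => badG P D tm A w0 b c d t k T x.1 x.2.1 x.2.2) ≤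
      3 * (1 / (k.kap * (k.M + 1))) := by
  have hv' : V3 d b c := ⟨hv.bd.symm, hv.cd.symm, hv.bc⟩
  unfold badG Sy.bad3
  rw [FP.E_add, FP.E_add]
  have e1 : (SG P w0 b c d k).E (fun x => bp P (TabF.pj w0 {b} {c, d}) (TabF.pj w0 {c, d} {b})
      (fun s => si D ∅ {c, d} ∅ (tm s)) A (TabF.ts {b} {c, d} t.pZ) k.kap k.lam k.K T x.1) ≤
      1 / (k.kap * (k.M + 1)) := by
    rw [pr_fst (fun x => bp P (TabF.pj w0 {b} {c, d}) (TabF.pj w0 {c, d} {b})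
      (fun s => si D ∅ {c, d} ∅ (tm s)) A (TabF.ts {b} {c, d} t.pZ) k.kap k.lam k.K T x)]
    exact bad_m h Z w0 hv hK k0 A _ k.lam
  have e2 : (SG P w0 b c d k).E (fun x => bp P (TabF.pj w0 {c} {b, d}) (TabF.pj w0 {b, d} {c})
      (fun s => si D ∅ {b, d} ∅ (tm s)) ((SyR D tm A w0 b c d t k x.1 x.2.1 x.2.1 x.2.2 x.2.2).E1 P)
      (TabF.ts {c} {b, d} t.Yb) k.kap k.lam k.K T x.2.1) ≤ 1 / (k.kap * (k.M + 1)) := by
    refine pr_le fun b1 => ?_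
    exact pr_fst_le (fun z => bp P (TabF.pj w0 {c} {b, d}) (TabF.pj w0 {b, d} {c}) (fun s => si D ∅ {b, d} ∅ (tm s))
        ((SyR D tm A w0 b c d t k b1 z z z z).E1 P) (TabF.ts {c} {b, d} t.Yb) k.kap k.lam k.K T z)
      (bad_m h Z w0 hv.r1 hK k0 ((SyR D tm A w0 b c d t k b1 b1 b1 b1 b1).E1 P) _ k.lam)
  have e3 : (SG P w0 b c d k).E (fun x => bp P (TabF.pj w0 {d} {b, c}) (TabF.pj w0 {b, c} {d})
      (fun s => si D ∅ {b, c} ∅ (tm s)) A (fun _ _ => 1) k.kap 1 k.K T x.2.2) ≤ 1 / (k.kap * (k.M + 1)) := by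
    refine pr_le fun b1 => pr_le fun c1 => ?_
    exact bad_m h Z w0 hv' hK k0 A _ 1
  have h1 := add_le_add (add_le_add e1 e2) e3
  refine le_trans h1 (le_of_eq ?_)
  ring

theorem buF_m {m : ℕ} (h : Wd D P ∅ m) (Z : Zn D tm T zz Rs A ub Vk) (w0 : Om W X β) (hv : V3 b c d)
    {k : Nm} (hK : 1 < k.kap * k.K) (k0 : 0 < k.kap) :
    (Sp P w0 {b} {c, d} k).E (fun x => buF P D tm A w0 b c d k T x) ≤ 1 / (k.kap * (k.M + 1)) :=
  bad_m h Z w0 hv hK k0 A _ 1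

/-- **KIND `R0`, IN THE MEAN OVER THE SAMPLES** -/
theorem r0_m {m : ℕ} (h : Wd D P ∅ m) (Z : Zn D tm T zz Rs A ub Vk) (w0 : Om W X β) (hv : V3 b c d) (hb : b ∈ Vk)
    (hc : c ∈ Vk) (hd : d ∈ Vk) {k : Nm} (hK : 1 < k.kap * k.K) (k0 : 0 < k.kap) (l0 : 0 ≤ k.lam) (ht : TOkr A ψ L t)
    (q : ℝ) :
    P.E (fun w => ind (∃ s, A s w) * ψ w) ≤ 2 * (k.lam * P.Pr (fun w => ∃ s, A s w)) +
      5 * (L * k.kap * P.Pr (fun w => ∃ s, zz s w)) + L * (5 * (1 / (k.kap * (k.M + 1)))) +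
      L * (Real.sqrt q * (mcR P zz D tm A w0 b c d t k / 2)) +
      L * (exc P zz (fun s => sgt D {b} (tm s)) Rs (ub b) q + exc P zz (fun s => sgt D {c} (tm s)) Rs (ub c) q +
        exc P zz (fun s => sgt D {d} (tm s)) Rs (ub d) q) +
      P.E (fun w => ind (∃ s, A s w) * t.sg w) := by
  have h1 : (SR P w0 b c d k).E (fun _ => P.E (fun w => ind (∃ s, A s w) * ψ w)) ≤ (SR P w0 b c d k).E (fun x =>
      (2 * (k.lam * P.Pr (fun w => ∃ s, A s w)) + 5 * (L * k.kap * P.Pr (fun w => ∃ s, zz s w)) +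
      L * (exc P zz (fun s => sgt D {b} (tm s)) Rs (ub b) q + exc P zz (fun s => sgt D {c} (tm s)) Rs (ub c) q +
        exc P zz (fun s => sgt D {d} (tm s)) Rs (ub d) q) + P.E (fun w => ind (∃ s, A s w) * t.sg w)) +
      (L * badR P D tm A w0 b c d t k T x.1 x.2.1 x.2.2.2.1 x.2.2.1 x.2.2.2.2 +
      L * Real.sqrt q / 2 * covR P zz D tm A w0 b c d t k x.1 x.2.1 x.2.2.2.1 x.2.2.1 x.2.2.2.2)) := by
    refine FP.E_mono _ fun x _ => (r0_w (w0 := w0) (b1 := x.1) (c1 := x.2.1) (c2 := x.2.2.2.1) (d1 := x.2.2.1)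
      (d2 := x.2.2.2.2) h Z hv hb hc hd k0.le l0 ht q).trans (le_of_eq ?_)
    ring
  rw [FP.E_const, FP.E_add, FP.E_const, FP.E_add, FP.E_smul, FP.E_smul] at h1
  have h2 := mul_le_mul_of_nonneg_left (badR_m (T := T) h Z w0 hv t hK k0) ht.L0
  unfold mcR
  linarith

/-- **KIND `G_X`, IN THE MEAN OVER THE SAMPLES** -/
theorem gx_m {m : ℕ} (h : Wd D P ∅ m) (Z : Zn D tm T zz Rs A ub Vk) (w0 : Om W X β) (hv : V3 b c d) (hb : b ∈ Vk)
    (hc : c ∈ Vk) {k : Nm} (hK : 1 < k.kap * k.K) (k0 : 0 < k.kap) (l0 : 0 ≤ k.lam) (ht : TOk A ψ L t) (q : ℝ) :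
    P.E (fun w => ind (∃ s, A s w) * ψ w) ≤ 2 * (k.lam * P.Pr (fun w => ∃ s, A s w)) +
      3 * (L * k.kap * P.Pr (fun w => ∃ s, zz s w)) + L * (3 * (1 / (k.kap * (k.M + 1)))) +
      L * (Real.sqrt q * (mcG P zz D tm A w0 b c d t k / 2)) +
      L * (exc P zz (fun s => sgt D {b} (tm s)) Rs (ub b) q + exc P zz (fun s => sgt D {c} (tm s)) Rs (ub c) q) +
      P.E (fun w => ind (∃ s, A s w) * t.sg w) := by
  have h1 : (SG P w0 b c d k).E (fun _ => P.E (fun w => ind (∃ s, A s w) * ψ w)) ≤ (SG P w0 b c d k).E (fun x =>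
      (2 * (k.lam * P.Pr (fun w => ∃ s, A s w)) + 3 * (L * k.kap * P.Pr (fun w => ∃ s, zz s w)) +
      L * (exc P zz (fun s => sgt D {b} (tm s)) Rs (ub b) q + exc P zz (fun s => sgt D {c} (tm s)) Rs (ub c) q) +
        P.E (fun w => ind (∃ s, A s w) * t.sg w)) +
      (L * badG P D tm A w0 b c d t k T x.1 x.2.1 x.2.2 +
      L * Real.sqrt q / 2 * covG P zz D tm A w0 b c d t k x.1 x.2.1 x.2.2)) := by
    refine FP.E_mono _ fun x _ => (gx_w (w0 := w0) (b1 := x.1) (c1 := x.2.1) (d1 := x.2.2)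
      h Z hv hb hc k0.le l0 ht q).trans (le_of_eq ?_)
    ring
  rw [FP.E_const, FP.E_add, FP.E_const, FP.E_add, FP.E_smul, FP.E_smul] at h1
  have h2 := mul_le_mul_of_nonneg_left (badG_m (T := T) h Z w0 hv t hK k0) ht.L0
  unfold mcG
  linarith

/-- **KIND `H_XY`, IN THE MEAN OVER THE SAMPLES** -/
theorem h_m {m : ℕ} (h : Wd D P ∅ m) (Z : Zn D tm T zz Rs A ub Vk) (w0 : Om W X β) (hv : V3 b c d) (hb : b ∈ Vk)
    {k : Nm} (hK : 1 < k.kap * k.K) (k0 : 0 < k.kap) (q : ℝ) :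
    P.Pr (fun w => ∃ s, A s w) ≤ 2 * k.kap * P.Pr (fun w => ∃ s, zz s w) + 2 * (1 / (k.kap * (k.M + 1))) +
      Real.sqrt q * ((mcU P zz D tm A w0 c b d k + mcU P zz D tm A w0 d b c k) / 2) +
      exc P zz (fun s => sgt D {b} (tm s)) Rs (ub b) q := by
  have hv' : V3 d b c := ⟨hv.bd.symm, hv.cd.symm, hv.bc⟩
  have h1 : (FP.pr (Sp P w0 {c} {b, d} k) (Sp P w0 {d} {b, c} k)).E (fun _ => P.Pr (fun w => ∃ s, A s w)) ≤
      (FP.pr (Sp P w0 {c} {b, d} k) (Sp P w0 {d} {b, c} k)).E (fun x =>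
      (2 * k.kap * P.Pr (fun w => ∃ s, zz s w) + exc P zz (fun s => sgt D {b} (tm s)) Rs (ub b) q) +
      ((buF P D tm A w0 c b d k T x.1 + buF P D tm A w0 d b c k T x.2) +
        (Real.sqrt q / 2 * cz P zz (cuF P D tm A w0 c b d k x.1) +
        Real.sqrt q / 2 * cz P zz (cuF P D tm A w0 d b c k x.2)))) := by
    refine FP.E_mono _ fun x _ => (h_w (w0 := w0) h Z hv hb k0.le x.1 x.2 q).trans (le_of_eq ?_)
    ring
  have p1 : ∀ g : Sml (Om W X β) k → ℝ, (FP.pr (Sp P w0 {c} {b, d} k) (Sp P w0 {d} {b, c} k)).E (fun x => g x.1) =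
      (Sp P w0 {c} {b, d} k).E g := fun g => pr_fst g
  have p2 : ∀ g : Sml (Om W X β) k → ℝ, (FP.pr (Sp P w0 {c} {b, d} k) (Sp P w0 {d} {b, c} k)).E (fun x => g x.2) =
      (Sp P w0 {d} {b, c} k).E g := fun g => by
    rw [FP.pr_E]
    exact (Sp P w0 {c} {b, d} k).E_const ((Sp P w0 {d} {b, c} k).E g)
  rw [FP.E_const, FP.E_add, FP.E_const, FP.E_add, FP.E_add, FP.E_add, FP.E_smul, FP.E_smul,
    p1 (fun x => buF P D tm A w0 c b d k T x), p2 (fun x => buF P D tm A w0 d b c k T x),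
    p1 (fun x => cz P zz (cuF P D tm A w0 c b d k x)), p2 (fun x => cz P zz (cuF P D tm A w0 d b c k x))] at h1
  have h2 := buF_m (T := T) h Z w0 hv.r1 hK k0
  have h3 := buF_m (T := T) h Z w0 hv' hK k0
  unfold mcU
  linarith

/-- **KIND `HT`, IN THE MEAN OVER THE SAMPLES** -/
theorem ht_m {m : ℕ} (h : Wd D P ∅ m) (Z : Zn D tm T zz Rs A ub Vk) (w0 : Om W X β) (hv : V3 b c d) {k : Nm}
    (hK : 1 < k.kap * k.K) (k0 : 0 < k.kap) {q u : ℝ} (q0 : 0 ≤ q) (hq : u ≤ q ^ 3) :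
    P.Pr (fun w => ∃ s, A s w) ≤ 3 * k.kap * P.Pr (fun w => ∃ s, zz s w) + 3 * (1 / (k.kap * (k.M + 1))) +
      q * ((mcU P zz D tm A w0 b c d k + mcU P zz D tm A w0 c b d k + mcU P zz D tm A w0 d b c k) / 3) +
      exc P zz (fun s => sgt D ∅ (tm s)) Rs (fun _ _ => True) u := by
  have hv' : V3 d b c := ⟨hv.bd.symm, hv.cd.symm, hv.bc⟩
  have h1 : (SG P w0 b c d k).E (fun _ => P.Pr (fun w => ∃ s, A s w)) ≤ (SG P w0 b c d k).E (fun x =>
      (3 * k.kap * P.Pr (fun w => ∃ s, zz s w) + exc P zz (fun s => sgt D ∅ (tm s)) Rs (fun _ _ => True) u) +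
      ((buF P D tm A w0 b c d k T x.1 + buF P D tm A w0 c b d k T x.2.1 + buF P D tm A w0 d b c k T x.2.2) +
        (q / 3 * cz P zz (cuF P D tm A w0 b c d k x.1) + q / 3 * cz P zz (cuF P D tm A w0 c b d k x.2.1) +
        q / 3 * cz P zz (cuF P D tm A w0 d b c k x.2.2)))) := by
    refine FP.E_mono _ fun x _ => (ht_w (w0 := w0) h Z hv k0.le x.1 x.2.1 x.2.2 q0 hq).trans (le_of_eq ?_)
    ring
  have p1 : ∀ g : Sml (Om W X β) k → ℝ, (SG P w0 b c d k).E (fun x => g x.1) = (Sp P w0 {b} {c, d} k).E g :=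
    fun g => pr_fst g
  have p2 : ∀ g : Sml (Om W X β) k → ℝ, (SG P w0 b c d k).E (fun x => g x.2.1) = (Sp P w0 {c} {b, d} k).E g :=
    fun g => by
      rw [FP.pr_E]
      exact (FP.E_const _ _).trans (pr_fst g)
  have p3 : ∀ g : Sml (Om W X β) k → ℝ, (SG P w0 b c d k).E (fun x => g x.2.2) = (Sp P w0 {d} {b, c} k).E g :=
    fun g => by
      have e1 : (SG P w0 b c d k).E (fun x => g x.2.2) =
          (Sp P w0 {b} {c, d} k).E (fun _ => (FP.pr (Sp P w0 {c} {b, d} k) (Sp P w0 {d} {b, c} k)).E fun y => g y.2) :=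
        FP.pr_E _ _ _
      rw [e1, (Sp P w0 {b} {c, d} k).E_const, FP.pr_E]
      exact (Sp P w0 {c} {b, d} k).E_const ((Sp P w0 {d} {b, c} k).E g)
  rw [FP.E_const, FP.E_add, FP.E_const, FP.E_add, FP.E_add, FP.E_add, FP.E_add, FP.E_add, FP.E_smul, FP.E_smul,
    FP.E_smul, p1 (fun x => buF P D tm A w0 b c d k T x), p2 (fun x => buF P D tm A w0 c b d k T x),
    p3 (fun x => buF P D tm A w0 d b c k T x), p1 (fun x => cz P zz (cuF P D tm A w0 b c d k x)),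
    p2 (fun x => cz P zz (cuF P D tm A w0 c b d k x)), p3 (fun x => cz P zz (cuF P D tm A w0 d b c k x))] at h1
  have h2 := buF_m (T := T) h Z w0 hv hK k0
  have h3 := buF_m (T := T) h Z w0 hv.r1 hK k0
  have h4 := buF_m (T := T) h Z w0 hv' hK k0
  unfold mcU
  linarith

end

end Pool.Agent.GMH.TabZ
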