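import Pool.Agent.GMH.ConT7
import Pool.Agent.GMH.TabZ

/-!
# GMH/PayNu: the lists of a public payment against the prices (helper52)

* `kP` : `kap = x^(-k1)`, `lam = x^(-k2)`, `K = Kf`, `M = Mp`;
* `log_pub` : the values of the public lists; `log_prv` : of the private lists.
-/

set_option autoImplicit false
set_option linter.unusedSectionVars false

namespace Pool.Agent.GMH.PayPI

open Finset Pool.Agent.GMH Pool.Agent.GMH.V3 Pool.Agent.GMH.CT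
open Pool.Agent.GMH.TabZ (Nm)

noncomputable section

/-- the numbers of the public covers -/
def kP (Lam : ℝ) (k1 k2 c0 : ℕ) : Nm := ⟨ix Lam k1, ix Lam k2, Kf Lam k1, Mp Lam c0⟩

section

variable {Lam : ℝ} (hL : 2 ≤ Lam) (A kL k1 k2 : ℕ)

include hL

theorem log_one_exp {X0 : ℝ} (h0 : 0 ≤ X0) : Real.log (1 + 2 * Real.exp X0) ≤ X0 + 2 := by
  have h1 : 1 ≤ Real.exp X0 := Real.one_le_exp h0
  have h2 : 1 + 2 * Real.exp X0 ≤ 3 * Real.exp X0 := by linarith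
  have h3 : Real.log (1 + 2 * Real.exp X0) ≤ Real.log (3 * Real.exp X0) :=
    Real.log_le_log (by positivity) h2
  have h4 : Real.log 3 ≤ 2 := by
    have := Real.log_le_sub_one_of_pos (show (0 : ℝ) < 3 by norm_num)
    linarith
  rw [Real.log_mul (by norm_num) (Real.exp_pos _).ne', Real.log_exp] at h3
  linarith

theorem log_Mp1 (c0 : ℕ) : Real.log (((2 * Mp Lam c0 + 1 : ℕ) : ℝ)) ≤ pw Lam (16 * c0) + 3 := by
  have h1 := log_Mp hL c0
  have h2 : (1 : ℝ) ≤ (Mp Lam c0 : ℝ) := by exact_mod_cast Mp_one Lam c0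
  have h3 : ((2 * Mp Lam c0 + 1 : ℕ) : ℝ) ≤ 2 * (2 * (Mp Lam c0 : ℝ)) := by
    push_cast
    linarith
  have h4 : Real.log (((2 * Mp Lam c0 + 1 : ℕ) : ℝ)) ≤ Real.log (2 * (2 * (Mp Lam c0 : ℝ))) :=
    Real.log_le_log (by positivity) h3
  rw [Real.log_mul (by norm_num) (by positivity)] at h4
  have h5 : Real.log 2 ≤ 1 := by
    have := Real.log_le_sub_one_of_pos (show (0 : ℝ) < 2 by norm_num)
    linarith
  linarith

/-- the public lists -/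
theorem log_pub {c0 : ℕ} (hA : 80 ≤ A) (hc : kE kL k1 k2 + 8 + (kth kL k1 k2 + k1 + 2) ≤ c0) (hc1 : 1 ≤ c0) {X0 : ℝ}
    (h0 : 0 ≤ X0) (hX : X0 ≤ pw Lam (16 * c0)) :
    Real.log ((((2 * Mp Lam c0 + 1 : ℕ)) : ℝ) ^ Jf Lam kL k1 k2 * (1 + 2 * Real.exp X0) ^ Jf Lam kL k1 k2) ≤
      pw Lam c0 * pw Lam (c1F A c0) * ix Lam (kE kL k1 k2 + 8) := by
  have e0 : (0 : ℝ) < ((2 * Mp Lam c0 + 1 : ℕ) : ℝ) := by positivity
  have e1 : (0 : ℝ) < 1 + 2 * Real.exp X0 := by positivity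
  rw [Real.log_mul (pow_pos e0 _).ne' (pow_pos e1 _).ne', Real.log_pow, Real.log_pow]
  have h1 := log_Mp1 hL c0
  have h2 := log_one_exp hL h0
  have h3 : (0 : ℝ) ≤ (Jf Lam kL k1 k2 : ℝ) := Nat.cast_nonneg _
  have hp := pw_ge1 hL (16 * c0)
  set y := pw Lam (16 * c0) + 3 + (X0 + 2) with hy
  have y0 : 0 ≤ y := by linarith
  have y1 : y ≤ pw Lam (80 * c0) := by
    have h5 : pw Lam (16 * c0 + 4) ≤ pw Lam (80 * c0) := pw_mono hL (by omega)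
    have h6 : 8 * pw Lam (16 * c0) ≤ pw Lam (16 * c0 + 4) := by
      have h7 : pw Lam (16 * c0 + 4) = pw Lam (16 * c0) * pw Lam 4 := pw_add _ _ _
      have h8 := pw_ge hL 4
      norm_num at h8
      rw [h7]
      nlinarith
    linarith
  have h9 := lM0_le hL A kL k1 k2 (c0 := c0) hA hc y1 y0
  refine le_trans ?_ h9
  have a1 : (Jf Lam kL k1 k2 : ℝ) * Real.log (((2 * Mp Lam c0 + 1 : ℕ) : ℝ)) ≤ (Jf Lam kL k1 k2 : ℝ) * (pw Lam (16 * c0) + 3) :=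
    mul_le_mul_of_nonneg_left h1 h3
  have a2 : (Jf Lam kL k1 k2 : ℝ) * Real.log (1 + 2 * Real.exp X0) ≤ (Jf Lam kL k1 k2 : ℝ) * (X0 + 2) :=
    mul_le_mul_of_nonneg_left h2 h3
  have a3 : ((Jf Lam kL k1 k2 : ℝ) + 1) * y = (Jf Lam kL k1 k2 : ℝ) * (pw Lam (16 * c0) + 3) +
      (Jf Lam kL k1 k2 : ℝ) * (X0 + 2) + y := by
    rw [hy]
    ring
  rw [a3]
  linarith

/-- the private lists -/
theorem log_prv {c0 : ℕ} (hc : 40 + (kE kL k1 k2 + 8 + (kth kL k1 k2 + k1 + 2)) ≤ c0) {al : ℝ}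
    (hal : Real.exp (-Lam) ≤ al) :
    Real.log ((1 + 2 * (1 / al)) ^ Jf Lam kL k1 k2) + Real.log ((1 + 2 * (1 / al)) ^ Jf Lam kL k1 k2) ≤
      pw Lam c0 * ix Lam (kE kL k1 k2 + 8) := by
  have al0 : 0 < al := lt_of_lt_of_le (Real.exp_pos _) hal
  have h1 : 1 / al ≤ Real.exp Lam := by
    rw [one_div, ← inv_inv (Real.exp Lam), ← Real.exp_neg]
    exact inv_anti₀ (Real.exp_pos _) hal
  have e1 : (0 : ℝ) < 1 + 2 * (1 / al) := by positivity
  have h2 : Real.log (1 + 2 * (1 / al)) ≤ Lam + 2 :=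
    (Real.log_le_log e1 (by linarith)).trans (log_one_exp hL (by linarith))
  rw [Real.log_pow]
  have h3 : (0 : ℝ) ≤ (Jf Lam kL k1 k2 : ℝ) := Nat.cast_nonneg _
  set z := kE kL k1 k2 + 8 + (kth kL k1 k2 + k1 + 2) with hz
  have h5 : pw Lam (33 + z) ≤ pw Lam c0 := pw_mono hL (by omega)
  have h6 := mul_le_mul_of_nonneg_right h5 (ix_nn hL z)
  rw [show 33 + z = z + 33 by ring, pw_add_ix hL] at h6
  have h7 : 4 * Lam ≤ pw Lam c0 * ix Lam z := (cLam hL 32 (by norm_num)).trans h6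
  have y1 : 2 * (Lam + 2) ≤ pw Lam c0 * ix Lam z := by linarith
  have h9 := lM1_le hL kL k1 k2 (c0 := c0) y1 (by linarith)
  have a1 := mul_le_mul_of_nonneg_left h2 h3
  have a3 : ((Jf Lam kL k1 k2 : ℝ) + 1) * (2 * (Lam + 2)) = (Jf Lam kL k1 k2 : ℝ) * (Lam + 2) +
      (Jf Lam kL k1 k2 : ℝ) * (Lam + 2) + 2 * (Lam + 2) := by ring
  rw [a3] at h9
  linarith

end

end

end Pool.Agent.GMH.PayPI
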