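import Pool.Agent.GMH.PayS
import Pool.Agent.GMH.PayC
import Pool.Agent.GMH.PayR
import Pool.Agent.GMH.GdyN

/-!
# GMH/PayO (helper75): PAYMENT (P6), OWN ROWS AT PUBLIC ENDS

`i` = the sampled vertex = the tested top (seen by the two other vertices `u1`, `u2`).  The sample (points and tables) is
fixed; hints: `pub` public (names, own thin letters, public bits), `g1` at `{u1}`, `g2` at `{u2}` (own tops at the named
points, bits).  The names are known when the own tops are counted: `N ∅ log M0 + N1 (log M1 + log M2)`.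

* `dl_hone` : a decision list of normalised tests is normalised;
* `hint3`, `dcd` : the family of hints and its decoding; `csum3` : its cost;
* `pay_pub` : THE PAYMENTS OF ALL PUBLIC ENDS, linear in the number of the ends;
* `row_fin` : own tops at named points: `(1 + B / al) ^ N` values; `typ_fin` : at most `1 / p` letters of probability `≥ p`.
-/

set_option autoImplicit false
set_option linter.unusedSectionVars false

namespace Pool.Agent.GMH.PayO

open Finset Pool.Agent.PWZ Pool.Agent.M3 Pool.Agent.GM Pool.Agent.GM.Harm Pool.Agent.GMH Pool.Agent.GMH.PayM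
open Pool.Agent.GMH.PayS Pool.Agent.GMH.PayC Pool.Agent.GMH.GdyN Pool.Agent.GMH.V3 Pool.Agent.GMH.V3.TG

noncomputable section

/-! ## decision lists -/

section dlist

variable {Om : Type*} [Fintype Om] {P : FP Om} {ι R : Type*} {Z : Om → ι} {H : ℕ → R → Om → Prop} {f : R → Om → ℝ}

/-- **a decision list of normalised tests is normalised** -/
theorem dl_hone {l : List ((ℕ × R) × Bool)} {w : Om} (hw : P.p w ≠ 0)
    (hH : ∀ p ∈ l, ∀ v, Z v = Z w → (H p.1.1 p.1.2 v ↔ H p.1.1 p.1.2 w))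
    (hf : ∀ p ∈ l, p.2 = true → H p.1.1 p.1.2 w → P.ce Z (fun v => Real.exp (f p.1.2 v)) w ≤ 1) :
    P.ce Z (fun v => Real.exp (dl H f l v)) w ≤ 1 := by
  classical
  induction l with
  | nil =>
    have e : (fun v => Real.exp (dl H f [] v)) = fun _ : Om => (1 : ℝ) := funext fun v => Real.exp_zero
    rw [e, P.ce_const Z 1 hw]
  | cons p l ih =>
    by_cases h : H p.1.1 p.1.2 w
    · cases hp : p.2 with
      | true =>
        refine le_trans (le_of_eq ?_) (hf p List.mem_cons_self hp h)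
        refine Gdy.ce_congr_on fun v _ hv => ?_
        rw [dl_cons, if_pos ((hH p List.mem_cons_self v hv).2 h), hp, if_pos rfl]
      | false =>
        have e : P.ce Z (fun v => Real.exp (dl H f (p :: l) v)) w = P.ce Z (fun _ => 1) w := by
          refine Gdy.ce_congr_on fun v _ hv => ?_
          rw [dl_cons, if_pos ((hH p List.mem_cons_self v hv).2 h), hp]
          simp
        rw [e, P.ce_const Z 1 hw]
    · refine le_trans (le_of_eq ?_) (ih (fun q hq => hH q (List.mem_cons_of_mem _ hq))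
        fun q hq => hf q (List.mem_cons_of_mem _ hq))
      refine Gdy.ce_congr_on fun v _ hv => ?_
      rw [dl_cons, if_neg fun h2 => h ((hH p List.mem_cons_self v hv).1 h2)]

end dlist

/-! ## the hints -/

section hints

variable {Om : Type*} [Fintype Om] {C A1 A2 : Type} {u1 u2 : Fin 3}

/-- the family of hints: public, at `{u1}`, at `{u2}` -/
def hint3 (u1 u2 : Fin 3) (pub : Om → C) (g1 : Om → A1) (g2 : Om → A2) (J : Finset (Fin 3)) (w : Om) :
    Option C × Option A1 × Option A2 := (at1 ∅ pub J w, at1 {u1} g1 J w, at1 {u2} g2 J w)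

/-- decoding -/
def dcd (u1 u2 : Fin 3) (r : Finset (Fin 3) → Option (Option C × Option A1 × Option A2)) : Option (C × A1 × A2) :=
  (r ∅).bind fun p => p.1.bind fun c => (r {u1}).bind fun q => q.2.1.bind fun a => (r {u2}).bind fun q' =>
    q'.2.2.map fun b => (c, a, b)

theorem dcd_eq {i : Fin 3} (h1 : u1 ≠ i) (h2 : u2 ≠ i) (h12 : u1 ≠ u2) (pub : Om → C) (g1 : Om → A1) (g2 : Om → A2)
    (w : Om) : dcd u1 u2 (lo (hint3 u1 u2 pub g1 g2) (univ.erase i) w) = some (pub w, g1 w, g2 w) := by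
  have s0 : (∅ : Finset (Fin 3)) ⊂ univ.erase i :=
    Finset.empty_ssubset.2 ⟨u1, Finset.mem_erase.2 ⟨h1, mem_univ _⟩⟩
  have s1 : ({u1} : Finset (Fin 3)) ⊂ univ.erase i := by
    refine (Finset.ssubset_iff_of_subset ?_).2 ⟨u2, Finset.mem_erase.2 ⟨h2, mem_univ _⟩, ?_⟩
    · exact Finset.singleton_subset_iff.2 (Finset.mem_erase.2 ⟨h1, mem_univ _⟩)
    · rw [Finset.mem_singleton]
      exact fun hh => h12 hh.symm
  have s2 : ({u2} : Finset (Fin 3)) ⊂ univ.erase i := by
    refine (Finset.ssubset_iff_of_subset ?_).2 ⟨u1, Finset.mem_erase.2 ⟨h1, mem_univ _⟩, ?_⟩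
    · exact Finset.singleton_subset_iff.2 (Finset.mem_erase.2 ⟨h2, mem_univ _⟩)
    · rw [Finset.mem_singleton]
      exact h12
  have e0 : lo (hint3 u1 u2 pub g1 g2) (univ.erase i) w ∅ = some (hint3 u1 u2 pub g1 g2 ∅ w) := if_pos s0
  have e1 : lo (hint3 u1 u2 pub g1 g2) (univ.erase i) w {u1} = some (hint3 u1 u2 pub g1 g2 {u1} w) := if_pos s1
  have e2 : lo (hint3 u1 u2 pub g1 g2) (univ.erase i) w {u2} = some (hint3 u1 u2 pub g1 g2 {u2} w) := if_pos s2
  unfold dcd
  rw [e0, e1, e2]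
  unfold hint3
  simp only [at1_eq, Option.bind_some, Option.map_some]

variable {υ : Type*} {β : Finset (Fin 3) → Type*} {P : FP Om} {B : (J : Finset (Fin 3)) → Om → β J}
  {N : Finset (Fin 3) → ℝ} {S : Finset (Finset (Fin 3))} {L : Finset (Fin 3) → Om → υ}

theorem at1_dep {μ : Type*} {J1 J : Finset (Fin 3)} {g : Om → μ} {a b : Om} (hg : J = J1 → g a = g b) :
    at1 J1 g J a = at1 J1 g J b := by
  by_cases hJ : J = J1
  · subst hJ
    rw [at1_eq, at1_eq, hg rfl]
  · rw [at1_ne _ hJ, at1_ne _ hJ]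

/-- **cost of the hints** : the public hint is known at `{u1}`, `{u2}` -/
theorem csum3 (h12 : u1 ≠ u2) (hN0 : ∀ J, 0 ≤ N J) {pub : Om → C} {g1 : Om → A1} {g2 : Om → A2} {M0 M1 M2 : ℝ}
    (m0 : 1 ≤ M0) (m1 : 1 ≤ M1) (m2 : 1 ≤ M2)
    (c0 : ∀ w, P.p w ≠ 0 → ∃ s : Finset C, (s.card : ℝ) ≤ M0 ∧ ∀ v, P.p v ≠ 0 → le L ∅ v = le L ∅ w →
      B ∅ v = B ∅ w → pub v ∈ s)
    (c1 : ∀ w, P.p w ≠ 0 → ∃ s : Finset A1, (s.card : ℝ) ≤ M1 ∧ ∀ v, P.p v ≠ 0 → pub v = pub w →
      le L {u1} v = le L {u1} w → B {u1} v = B {u1} w → g1 v ∈ s)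
    (c2 : ∀ w, P.p w ≠ 0 → ∃ s : Finset A2, (s.card : ℝ) ≤ M2 ∧ ∀ v, P.p v ≠ 0 → pub v = pub w →
      le L {u2} v = le L {u2} w → B {u2} v = B {u2} w → g2 v ∈ s) :
    ∑ J ∈ S, N J * cost P B L (hint3 u1 u2 pub g1 g2) J ≤
      N ∅ * Real.log M0 + (N {u1} * Real.log M1 + N {u2} * Real.log M2) := by
  classical
  have l0 := Real.log_nonneg m0
  have l1 := Real.log_nonneg m1
  have l2 := Real.log_nonneg m2
  have n1 : ({u1} : Finset (Fin 3)) ≠ ∅ := Finset.singleton_ne_empty u1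
  have n2 : ({u2} : Finset (Fin 3)) ≠ ∅ := Finset.singleton_ne_empty u2
  have n12 : ({u1} : Finset (Fin 3)) ≠ {u2} := fun hh => h12 (Finset.singleton_injective hh)
  -- one index set
  have key : ∀ J ∈ S, N J * cost P B L (hint3 u1 u2 pub g1 g2) J ≤ (if J = ∅ then N ∅ * Real.log M0 else 0) +
      ((if J = {u1} then N {u1} * Real.log M1 else 0) + (if J = {u2} then N {u2} * Real.log M2 else 0)) := by
    intro J _
    by_cases hJ0 : J = ∅
    · subst hJ0
      rw [if_pos rfl, if_neg n1.symm, if_neg n2.symm, add_zero, add_zero]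
      refine mul_le_mul_of_nonneg_left (cost_card fun w hw => ?_) (hN0 _)
      obtain ⟨s, hs, hs2⟩ := c0 w hw
      refine ⟨s.image fun c => (some c, none, none), ?_, fun v hv _ hl hb => ?_⟩
      · exact le_trans (by exact_mod_cast Finset.card_image_le) hs
      · refine Finset.mem_image.2 ⟨pub v, hs2 v hv hl hb, ?_⟩
        unfold hint3
        rw [at1_eq, at1_ne _ n1.symm, at1_ne _ n2.symm]
    · rw [if_neg hJ0, zero_add]
      by_cases hJ1 : J = {u1}
      · subst hJ1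
        rw [if_pos rfl, if_neg n12, add_zero]
        refine mul_le_mul_of_nonneg_left (cost_card fun w hw => ?_) (hN0 _)
        obtain ⟨s, hs, hs2⟩ := c1 w hw
        refine ⟨s.image fun c => (none, some c, none), ?_, fun v hv hlo hl hb => ?_⟩
        · exact le_trans (by exact_mod_cast Finset.card_image_le) hs
        · have hpub : pub v = pub w := by
            have h1 := lo_eq.1 hlo ∅ (Finset.empty_ssubset.2 (Finset.singleton_nonempty u1))
            have h2 : at1 (∅ : Finset (Fin 3)) pub ∅ v = at1 (∅ : Finset (Fin 3)) pub ∅ w := congrArg Prod.fst h1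
            rw [at1_eq, at1_eq] at h2
            exact Option.some.inj h2
          refine Finset.mem_image.2 ⟨g1 v, hs2 v hv hpub hl hb, ?_⟩
          unfold hint3
          rw [at1_eq, at1_ne _ n1, at1_ne _ n12]
      · rw [if_neg hJ1, zero_add]
        by_cases hJ2 : J = {u2}
        · subst hJ2
          rw [if_pos rfl]
          refine mul_le_mul_of_nonneg_left (cost_card fun w hw => ?_) (hN0 _)
          obtain ⟨s, hs, hs2⟩ := c2 w hw
          refine ⟨s.image fun c => (none, none, some c), ?_, fun v hv hlo hl hb => ?_⟩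
          · exact le_trans (by exact_mod_cast Finset.card_image_le) hs
          · have hpub : pub v = pub w := by
              have h1 := lo_eq.1 hlo ∅ (Finset.empty_ssubset.2 (Finset.singleton_nonempty u2))
              have h2 : at1 (∅ : Finset (Fin 3)) pub ∅ v = at1 (∅ : Finset (Fin 3)) pub ∅ w := congrArg Prod.fst h1
              rw [at1_eq, at1_eq] at h2
              exact Option.some.inj h2
            refine Finset.mem_image.2 ⟨g2 v, hs2 v hv hpub hl hb, ?_⟩
            unfold hint3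
            rw [at1_eq, at1_ne _ n2, at1_ne _ (fun hh => n12 hh.symm)]
        · rw [if_neg hJ2]
          refine le_of_eq ?_
          rw [cost_const fun v w => ?_, mul_zero]
          unfold hint3
          rw [at1_ne _ hJ0, at1_ne _ hJ0, at1_ne _ hJ1, at1_ne _ hJ1, at1_ne _ hJ2, at1_ne _ hJ2]
  refine (Finset.sum_le_sum key).trans ?_
  rw [Finset.sum_add_distrib, Finset.sum_add_distrib, Finset.sum_ite_eq' S ∅, Finset.sum_ite_eq' S {u1},
    Finset.sum_ite_eq' S {u2}]
  have a0 := mul_nonneg (hN0 ∅) l0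
  have a1 := mul_nonneg (hN0 {u1}) l1
  have a2 := mul_nonneg (hN0 {u2}) l2
  refine add_le_add ?_ (add_le_add ?_ ?_)
  · split_ifs
    · exact le_rfl
    · exact a0
  · split_ifs
    · exact le_rfl
    · exact a1
  · split_ifs
    · exact le_rfl
    · exact a2

end hints

/-! ## the payments of all public ends -/

section pay

variable {X β γ φ : Type} [Fintype X] [Fintype β] [Fintype φ] [Nonempty X] [Nonempty β]
variable {D : HD (Fin 3) X β γ φ} {al : ℝ} (h : D.Thick al)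
variable {dg : ℕ → X → ℝ} {prr : ℕ → Fin 3 → φ → φ} {T : ℕ} {Lam : ℝ} {i u1 u2 : Fin 3}
variable {v : ℕ → Finset (Fin 3) → X → (Fin 3 → β) → Pt (Fin 3) X β φ} {n N1 : ℝ}

/-- one point, no coin -/
abbrev u0 : FP Unit := FP.unif Unit

theorem pr_u0_p {Om : Type*} [Fintype Om] (P : FP Om) (w : Om × Unit) : (FP.pr P u0).p w = P.p w.1 := by
  show P.p w.1 * u0.p w.2 = P.p w.1
  have : u0.p w.2 = 1 := by
    have h1 := u0.tot
    rw [Fintype.sum_unique] at h1
    exact h1
  rw [this, mul_one]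

/-- **THE PAYMENTS OF ALL PUBLIC ENDS** : hints `pub` public, `g1` at `{u1}`, `g2` at `{u2}` ; linear in the number of the ends -/
theorem pay_pub (H : D.Hyp dg prr al T Lam) (R : Run h (pr3 (Fin 3) n N1) (SS1 (Fin 3)) (AdmDep D) v) (hn : 1 ≤ n)
    (hN1 : 1 ≤ N1) {B B' : ℕ → Pt (Fin 3) X β φ → Prop} (hB : ∀ t ≤ T, Fac (Cls D v t ∅) (B t))
    (hB' : ∀ t ≤ T, Fac (Cls D v t ∅) (B' t)) (hBB : ∀ t ≤ T, ∀ w, B' t w → B t w)
    (h1 : u1 ≠ i) (h2 : u2 ≠ i) (h12 : u1 ≠ u2) {C A1 A2 : ℕ → Type} {pub : ∀ t, Pt (Fin 3) X β φ → C t}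
    {g1 : ∀ t, Pt (Fin 3) X β φ → A1 t} {g2 : ∀ t, Pt (Fin 3) X β φ → A2 t}
    (dp : ∀ t ≤ T, Fac (fun w => (w.1, BB D t ∅ w)) (pub t)) (d1 : ∀ t ≤ T, Fac (fun w => (w.1, BB D t {u1} w)) (g1 t))
    (d2 : ∀ t ≤ T, Fac (fun w => (w.1, BB D t {u2} w)) (g2 t))
    {test : ∀ t, ℕ → C t → A1 t → A2 t → Pt (Fin 3) X β φ → ℝ}
    (htest : ∀ t ≤ T, ∀ s ≤ t, ∀ c a b, Fac (fun w => (Tp v s i w, Lw D v s i w)) (test t s c a b))
    {E : ℕ → Pt (Fin 3) X β φ → Prop} (hE : ∀ t ≤ T, Fac (fun w => (w.1, BB D t ∅ w)) (E t))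
    (hEB : ∀ t ≤ T, ∀ w, E t w → B' t w)
    (hone : ∀ t ≤ T, ∀ w, (D.P h t).p w ≠ 0 → E t w →
      (D.P h (EpG.st B t w)).ce (Lw D v (EpG.st B t w) i)
        (fun u => Real.exp (test t (EpG.st B t w) (pub t w) (g1 t w) (g2 t w) u)) (bk prr (EpG.st B t w) t w) ≤ 1)
    {M0 M1 M2 : ℝ} (m0 : 1 ≤ M0) (m1 : 1 ≤ M1) (m2 : 1 ≤ M2)
    (c0 : ∀ t ≤ T, ∀ w, (D.P h t).p w ≠ 0 → E t w → ∃ s : Finset (C t), (s.card : ℝ) ≤ M0 ∧
      ∀ w', (D.P h t).p w' ≠ 0 → E t w' → Cls D v t ∅ w' = Cls D v t ∅ w → pub t w' ∈ s)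
    (c1 : ∀ t ≤ T, ∀ w, (D.P h t).p w ≠ 0 → E t w → ∃ s : Finset (A1 t), (s.card : ℝ) ≤ M1 ∧
      ∀ w', (D.P h t).p w' ≠ 0 → E t w' → pub t w' = pub t w → Cls D v t {u1} w' = Cls D v t {u1} w → g1 t w' ∈ s)
    (c2 : ∀ t ≤ T, ∀ w, (D.P h t).p w ≠ 0 → E t w → ∃ s : Finset (A2 t), (s.card : ℝ) ≤ M2 ∧
      ∀ w', (D.P h t).p w' ≠ 0 → E t w' → pub t w' = pub t w → Cls D v t {u2} w' = Cls D v t {u2} w → g2 t w' ∈ s)
    {th : ℝ} (ht : 0 < th) (ht1 : th ≤ 1) :
    n * N1 * ∑ t ∈ range (T + 1), (D.P h t).E (fun w => ind (E t w) *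
        test t (EpG.st B t w) (pub t w) (g1 t w) (g2 t w) (bk prr (EpG.st B t w) t w)) ≤
      n * N1 * Lam + (4 * (Real.log (1 / th) + 1) + 2 * (Real.log M0 + N1 * (Real.log M1 + Real.log M2))) *
          ∑ t ∈ range (T + 1), (D.P h t).Pr (E t) +
        4 * Real.sqrt th * ∑ t ∈ range (T + 1), (D.P h t).Pr (B' t) := by
  have K0 : (∅ : Finset (Fin 3)) ⊂ univ.erase i :=
    Finset.empty_ssubset.2 ⟨u1, Finset.mem_erase.2 ⟨h1, mem_univ _⟩⟩
  have p0 : pr3 (Fin 3) n N1 ∅ = 1 := by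
    unfold pr3
    rw [if_pos (by simp)]
  have p1 : ∀ u : Fin 3, pr3 (Fin 3) n N1 {u} = N1 := fun u => by
    unfold pr3
    rw [if_neg (by simp), if_pos (by simp)]
  have p2 : pr3 (Fin 3) n N1 (univ.erase i) = n * N1 := pr3_top (by simp) n N1 i
  have key := pay_sum h H R hn hN1 (B := B) (fun t ht => (Cls_Lw K0).trans (hB t ht)) K0 (Th := fun _ => Unit)
    (fun _ => u0) (G := fun t J w => hint3 u1 u2 (pub t) (g1 t) (g2 t) J w.1) ?_ ?_
    (psi0 := fun t s r u => (dcd u1 u2 r).elim 0 fun q => test t s q.1 q.2.1 q.2.2 u) ?_ hB' hBB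
    (E := fun t w => E t w.1) ?_ (fun t ht w hw => hEB t ht w.1 hw) ?_
    (c := fun _ => Real.log M0 + N1 * (Real.log M1 + Real.log M2)) ?_
  · rw [p0, p2] at key
    have e1 : ∀ t, ∀ w : Pt (Fin 3) X β φ × Unit,
        dcd u1 u2 (lo (fun J w => hint3 u1 u2 (pub t) (g1 t) (g2 t) J w.1) (univ.erase i) w) =
          some (pub t w.1, g1 t w.1, g2 t w.1) := fun t w => dcd_eq h1 h2 h12 (pub t) (g1 t) (g2 t) w.1
    have e2 : ∀ t, (FP.pr (D.P h t) u0).E (fun w => ind (E t w.1) *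
        ((dcd u1 u2 (lo (fun J w => hint3 u1 u2 (pub t) (g1 t) (g2 t) J w.1) (univ.erase i) w)).elim 0
          fun q => test t (EpG.st B t w.1) q.1 q.2.1 q.2.2 (bk prr (EpG.st B t w.1) t w.1))) =
        (D.P h t).E (fun w => ind (E t w) *
          test t (EpG.st B t w) (pub t w) (g1 t w) (g2 t w) (bk prr (EpG.st B t w) t w)) := by
      intro t
      rw [← lift_E (D.P h t) u0]
      refine FP.E_congr _ fun w _ => ?_
      rw [e1 t w]
      rfl
    simp only [e2] at key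
    refine key.trans ?_
    have h3 : ∀ t ∈ range (T + 1), 4 * 1 * (FP.pr (D.P h t) u0).Hc (fun w => E t w.1) (fun w => Cls D v t ∅ w.1) +
        2 * (Real.log M0 + N1 * (Real.log M1 + Real.log M2)) * (FP.pr (D.P h t) u0).Pr (fun w => E t w.1) ≤
        (4 * (Real.log (1 / th) + 1) + 2 * (Real.log M0 + N1 * (Real.log M1 + Real.log M2))) * (D.P h t).Pr (E t) +
          4 * Real.sqrt th * (D.P h t).Pr (B' t) := by
      intro t htT
      have ht' : t ≤ T := Nat.lt_succ_iff.1 (Finset.mem_range.1 htT)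
      have a1 := PayR.Hc_ev_thF (FP.pr (D.P h t) u0) (fun w => E t w.1) (F := fun w => B' t w.1)
        (fun w => Cls D v t ∅ w.1) (fun a b hab => hB' t ht' a.1 b.1 hab) (fun w hw => hEB t ht' w.1 hw) ht ht1
      rw [lift_Pr, lift_Pr] at a1
      rw [lift_Pr]
      linarith
    have h4 := Finset.sum_le_sum h3
    have h5 : ∑ t ∈ range (T + 1), ((4 * (Real.log (1 / th) + 1) +
        2 * (Real.log M0 + N1 * (Real.log M1 + Real.log M2))) * (D.P h t).Pr (E t) +
          4 * Real.sqrt th * (D.P h t).Pr (B' t)) =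
        (4 * (Real.log (1 / th) + 1) + 2 * (Real.log M0 + N1 * (Real.log M1 + Real.log M2))) *
          ∑ t ∈ range (T + 1), (D.P h t).Pr (E t) +
        4 * Real.sqrt th * ∑ t ∈ range (T + 1), (D.P h t).Pr (B' t) := by
      rw [Finset.sum_add_distrib, ← Finset.mul_sum, ← Finset.mul_sum]
    rw [h5] at h4
    linarith
  · intro t ht θ J a b e1 e2 e3
    show hint3 u1 u2 (pub t) (g1 t) (g2 t) J a = hint3 u1 u2 (pub t) (g1 t) (g2 t) J b
    unfold hint3
    have f0 : ∀ I : Finset (Fin 3), J = I → BB D t I a = BB D t I b := fun I hI => by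
      rw [BB_eq, e1]
      exact ⟨fun j hj => e2 j (hI ▸ hj), rfl, e3⟩
    exact Prod.ext (at1_dep fun hJ => dp t ht a b (Prod.ext e1 (f0 _ hJ)))
      (Prod.ext (at1_dep fun hJ => d1 t ht a b (Prod.ext e1 (f0 _ hJ)))
        (at1_dep fun hJ => d2 t ht a b (Prod.ext e1 (f0 _ hJ))))
  · intro t _ J hJ
    exact absurd (Finset.empty_subset J) hJ
  · intro t ht s hs r a b hab
    show (dcd u1 u2 r).elim 0 (fun q => test t s q.1 q.2.1 q.2.2 a) =
      (dcd u1 u2 r).elim 0 (fun q => test t s q.1 q.2.1 q.2.2 b)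
    rcases dcd u1 u2 r with _ | q
    · rfl
    · exact htest t ht s hs _ _ _ a b hab
  · intro t ht a b hab
    exact hE t ht a.1 b.1 (Prod.mk.inj hab).1
  · intro t ht w hw _ hEw
    have e1 : dcd u1 u2 (lo (fun J w => hint3 u1 u2 (pub t) (g1 t) (g2 t) J w.1) (univ.erase i) w) =
          some (pub t w.1, g1 t w.1, g2 t w.1) := dcd_eq h1 h2 h12 (pub t) (g1 t) (g2 t) w.1
    simp only [e1]
    exact hone t ht w.1 hw hEw
  · intro t ht h0
    have hs : ∀ w, ((FP.pr (D.P h t) u0).cond fun w => E t w.1).p w ≠ 0 → (D.P h t).p w.1 ≠ 0 ∧ E t w.1 := by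
      intro w hw
      have h3 := cond_supp h0 hw
      rw [pr_u0_p] at h3
      exact ⟨h3.2, h3.1⟩
    have h5 := csum3 (P := (FP.pr (D.P h t) u0).cond fun w => E t w.1) (B := fun I w => BB D t I w.1)
      (N := pr3 (Fin 3) n N1) (S := SS1 (Fin 3)) (L := fun I w => LL (Um v (t + 1)) I w.1) h12
      (fun J => zero_le_one.trans (pr3_one hn hN1 J)) (pub := fun w => pub t w.1) (g1 := fun w => g1 t w.1)
      (g2 := fun w => g2 t w.1) m0 m1 m2 ?_ ?_ ?_
    · rw [p0, p1, p1] at h5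
      have e3 : (fun J (w : Pt (Fin 3) X β φ × Unit) => hint3 u1 u2 (pub t) (g1 t) (g2 t) J w.1) =
          hint3 u1 u2 (fun w => pub t w.1) (fun w => g1 t w.1) (fun w => g2 t w.1) := by
        funext J w
        unfold hint3 at1
        rfl
      rw [e3]
      linarith
    · intro w hw
      obtain ⟨s, hs1, hs2⟩ := c0 t ht w.1 (hs w hw).1 (hs w hw).2
      exact ⟨s, hs1, fun w' hw' hl hb => hs2 w'.1 (hs w' hw').1 (hs w' hw').2 (Prod.ext hl hb)⟩
    · intro w hw
      obtain ⟨s, hs1, hs2⟩ := c1 t ht w.1 (hs w hw).1 (hs w hw).2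
      exact ⟨s, hs1, fun w' hw' hp hl hb => hs2 w'.1 (hs w' hw').1 (hs w' hw').2 hp (Prod.ext hl hb)⟩
    · intro w hw
      obtain ⟨s, hs1, hs2⟩ := c2 t ht w.1 (hs w hw).1 (hs w hw).2
      exact ⟨s, hs1, fun w' hw' hp hl hb => hs2 w'.1 (hs w' hw').1 (hs w' hw').2 hp (Prod.ext hl hb)⟩

end pay

/-! ## counting the values of the hints -/

section fin

/-- names and one letter for each name -/
theorem fam_fin {α κ : Type} [Fintype α] {m : ℕ} (S : α → Fin m → Finset κ) {m0 : ℝ} (_h0 : 0 ≤ m0)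
    (hS : ∀ c k, ((S c k).card : ℝ) ≤ m0) : ∃ s : Finset (α × (Fin m → Option κ)),
      (s.card : ℝ) ≤ Fintype.card α * (1 + m0) ^ m ∧ ∀ c g, (∀ k a, g k = some a → a ∈ S c k) → (c, g) ∈ s := by
  classical
  refine ⟨(univ : Finset α).biUnion fun c => (Fintype.piFinset fun k => insert none ((S c k).image some)).image
    fun g => (c, g), ?_, fun c g hg => ?_⟩
  · refine le_trans (Nat.cast_le.2 Finset.card_biUnion_le) ?_
    push_cast
    have h1 : ∀ c ∈ (univ : Finset α), ((((Fintype.piFinset fun k => insert none ((S c k).image some)).image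
        fun g => (c, g)).card : ℕ) : ℝ) ≤ (1 + m0) ^ m := by
      intro c _
      refine le_trans (Nat.cast_le.2 Finset.card_image_le) ?_
      rw [Fintype.card_piFinset]
      push_cast
      calc ∏ k : Fin m, ((insert none ((S c k).image some)).card : ℝ) ≤ ∏ _k : Fin m, (1 + m0) := by
            refine Finset.prod_le_prod (fun _ _ => Nat.cast_nonneg _) fun k _ => ?_
            have e1 : ((insert none ((S c k).image some)).card : ℝ) ≤ (((S c k).image some).card : ℝ) + 1 := by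
              exact_mod_cast Finset.card_insert_le _ _
            have e2 : (((S c k).image some).card : ℝ) ≤ ((S c k).card : ℝ) := by
              exact_mod_cast Finset.card_image_le
            have e3 := hS c k
            linarith
        _ = (1 + m0) ^ m := by rw [Finset.prod_const, Finset.card_univ, Fintype.card_fin]
    refine (Finset.sum_le_sum h1).trans (le_of_eq ?_)
    rw [Finset.sum_const, Finset.card_univ, nsmul_eq_mul]
  · refine Finset.mem_biUnion.2 ⟨c, mem_univ c, Finset.mem_image.2 ⟨g, ?_, rfl⟩⟩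
    rw [Fintype.mem_piFinset]
    intro k
    rcases hk : g k with _ | a
    · exact Finset.mem_insert_self _ _
    · exact Finset.mem_insert_of_mem (Finset.mem_image.2 ⟨a, hg k a hk, rfl⟩)

/-- one letter for each index -/
theorem fam_fin1 {κ : Type} {m : ℕ} (S : Fin m → Finset κ) {m0 : ℝ} (h0 : 0 ≤ m0)
    (hS : ∀ k, ((S k).card : ℝ) ≤ m0) : ∃ s : Finset (Fin m → Option κ),
      (s.card : ℝ) ≤ (1 + m0) ^ m ∧ ∀ g, (∀ k a, g k = some a → a ∈ S k) → g ∈ s := by
  obtain ⟨s, h1, h2⟩ := fam_fin (α := Unit) (fun _ => S) h0 (fun _ => hS)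
  classical
  refine ⟨s.image Prod.snd, ?_, fun g hg => Finset.mem_image.2 ⟨((), g), h2 () g hg, rfl⟩⟩
  refine le_trans (by exact_mod_cast Finset.card_image_le) (h1.trans (le_of_eq ?_))
  rw [Fintype.card_unit, Nat.cast_one, one_mul]

/-- **at most `1 / p` letters of conditional probability at least `p`** -/
theorem typ_fin {Om : Type*} [Fintype Om] (P : FP Om) {κ : Type} {ζ : Type*} (A : Om → κ) (Z : Om → ζ) {p : ℝ}
    (hp : 0 < p) (w : Om) : ∃ s : Finset κ, (s.card : ℝ) ≤ 1 / p ∧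
      ∀ v, P.p v ≠ 0 → Z v = Z w → p ≤ P.ce Z (fun u => ind (A u = A v)) v → A v ∈ s := by
  classical
  set F : Finset Om := univ.filter fun v => P.p v ≠ 0 ∧ Z v = Z w ∧ p ≤ P.ce Z (fun u => ind (A u = A v)) v with hF
  refine ⟨F.image A, ?_, fun v h1 h2 h3 => Finset.mem_image.2 ⟨v, Finset.mem_filter.2 ⟨mem_univ _, h1, h2, h3⟩, rfl⟩⟩
  by_cases hne : F = ∅
  · rw [hne, Finset.image_empty, Finset.card_empty, Nat.cast_zero]
    positivity
  obtain ⟨v0, hv0⟩ := Finset.nonempty_iff_ne_empty.2 hne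
  obtain ⟨-, a1, a2, -⟩ := Finset.mem_filter.1 hv0
  have h1 : ∀ a ∈ F.image A, p ≤ P.ce Z (fun u => ind (A u = a)) v0 := by
    intro a ha
    obtain ⟨v, hv, rfl⟩ := Finset.mem_image.1 ha
    obtain ⟨-, b1, b2, b3⟩ := Finset.mem_filter.1 hv
    rwa [P.ce_fac Z _ v v0 (b2.trans a2.symm)] at b3
  have h2 : ∑ a ∈ F.image A, P.ce Z (fun u => ind (A u = a)) v0 ≤ 1 := by
    rw [← P.ce_sum]
    refine P.ce_le_const (fun u _ => ?_) a1
    show ∑ a ∈ F.image A, ind (A u = a) ≤ 1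
    by_cases hu : A u ∈ F.image A
    · rw [Finset.sum_eq_single (A u) (fun b _ hb => ind_not (p := A u = b) fun e => hb e.symm) (fun h => absurd hu h), ind_of rfl]
    · rw [Finset.sum_eq_zero fun a ha => ind_not (p := A u = a) fun e => hu (by rw [e]; exact ha)]
      exact zero_le_one
  have h3 := Finset.card_nsmul_le_sum _ _ _ h1
  rw [nsmul_eq_mul] at h3
  rw [le_div_iff₀ hp]
  linarith

variable {X β γ φ : Type} [Fintype X] [Fintype β] [Fintype φ] [Nonempty X] [Nonempty β]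
variable {D : HD (Fin 3) X β γ φ} {al : ℝ} {i u1 u2 : Fin 3}

theorem er3 : ∀ i u1 u2 : Fin 3, u1 ≠ i → u2 ≠ i → u1 ≠ u2 →
    ((univ : Finset (Fin 3)).erase u2).erase i = {u1} := by decide

/-- **own tops at named points** : the label `u2` at the points `pts k` of the vertex `i`, seen from `{u1}` -/
theorem row_fin (h : D.Thick al) {t0 t : ℕ} (ht : t0 ≤ t) (h1 : u1 ≠ i) (h2 : u2 ≠ i) (h12 : u1 ≠ u2) {m : ℕ}
    (pts : Fin m → Option β) {Bt : Type} [Fintype Bt] (w : Pt (Fin 3) X β φ) :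
    ∃ s : Finset (Fin m → Option (φ × Bt)), (s.card : ℝ) ≤ (1 + Fintype.card Bt / al) ^ m ∧
      ∀ (v : Pt (Fin 3) X β φ) (g : Fin m → Option (φ × Bt)), BB D t {u1} v = BB D t {u1} w →
        (∀ k F b, g k = some (F, b) → ∃ p, pts k = some p ∧
          D.kf t0 u2 v.1 (Function.update v.2.1 i p) F ≠ 0) → g ∈ s := by
  classical
  set S : Fin m → Finset (φ × Bt) := fun k =>
    ((pts k).elim ∅ fun p => lts D t0 al u2 w.1 (Function.update w.2.1 i p)) ×ˢ univ with hS
  have hal := one_le_al h u2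
  have hal0 : 0 < al := h.pos
  have hc : ∀ k, ((S k).card : ℝ) ≤ Fintype.card Bt / al := by
    intro k
    rw [hS]
    simp only
    rw [Finset.card_product, Finset.card_univ]
    push_cast
    have h3 : ((((pts k).elim ∅ fun p => lts D t0 al u2 w.1 (Function.update w.2.1 i p) : Finset φ).card : ℕ) : ℝ) ≤
        1 / al := by
      rcases pts k with _ | p
      · show (((∅ : Finset φ).card : ℕ) : ℝ) ≤ 1 / al
        rw [Finset.card_empty, Nat.cast_zero]
        linarith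
      · exact lts_card h t0 u2 _ _
    have h4 := mul_le_mul_of_nonneg_right h3 (Nat.cast_nonneg (α := ℝ) (Fintype.card Bt))
    refine h4.trans (le_of_eq ?_)
    ring
  obtain ⟨s, hs1, hs2⟩ := fam_fin1 S (m0 := Fintype.card Bt / al) (by positivity) hc
  refine ⟨s, hs1, fun v g hvw hg => hs2 g fun k a hk => ?_⟩
  obtain ⟨p, hp, hF⟩ := hg k a.1 a.2 hk
  rw [hS]
  refine Finset.mem_product.2 ⟨?_, mem_univ _⟩
  show a.1 ∈ (pts k).elim ∅ fun p => lts D t0 al u2 w.1 (Function.update w.2.1 i p)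
  rw [hp]
  have e := er3 i u1 u2 h1 h2 h12
  refine ltr_mem (l := u2) (c := i) h ht p ?_ hF
  rw [e]
  exact hvw

end fin

end

end Pool.Agent.GMH.PayO
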