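import Pool.Agent.GMH.PayP1
import Pool.Agent.GMH.GdyN

/-!
# GMH/PayP2 (helper75): PUBLIC COVERS BY OWN ROWS, ONE WORLD

* `ed` : end of the public epoch which starts at `n` (the next start or `Ts`), a stopping time of the node;
* `cv_nd` : covered by the cells of the face at a time of the epoch = covered by the node at the end (`Cm`);
* `pay_w` : `lam Cm ≤ 4 E` (decision list of the names at the end, light dead pieces); `ne_w` : names are rare:
  `th kap P (there is a name at the end) ≤ Cm`; `sec_mx` : the section of a named row = event of the mixed tuple.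
-/

set_option autoImplicit false
set_option linter.unusedSectionVars false

namespace Pool.Agent.GMH.PayP

open Finset Pool.Agent.PWZ Pool.Agent.M3 Pool.Agent.GM Pool.Agent.GM.Harm Pool.Agent.GMH
open Pool.Agent.GMH.Gdy Pool.Agent.GMH.Dy Pool.Agent.GMH.TabF Pool.Agent.GMH.TabZ
open Pool.Agent.GMH.CK Pool.Agent.GMH.MV Pool.Agent.GMH.GhoZ Pool.Agent.GMH.GhoZ3
open Pool.Agent.GMH.GdyR (covL covL_mono covL_change)
open Pool.Agent.GMH.GdyN (dl nm ded payD alv)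
open Pool.Agent.GMH.UV (US Seen)

noncomputable section

variable {X β γ φ : Type} [Fintype X] [Fintype β] [Fintype φ] [Nonempty X] [Nonempty β]
variable {D : HD (Fin 3) X β γ φ} {al : ℝ} {prr : ℕ → Fin 3 → φ → φ} {T0 : ℕ} {W : Type} [Fintype W]

/-! ### the end of the epoch -/

section ed

variable {Om : Type} [Fintype Om] (M : MS Om) (Ts n : ℕ)

theorem ed_ex (w : Om) : ∃ s, n ≤ s ∧ (Ts ≤ s ∨ nu M s w ≠ n) :=
  ⟨max n Ts, le_max_left _ _, Or.inl (le_max_right _ _)⟩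

open Classical in
/-- the end of the public epoch which starts at `n` : the next start, or `Ts` -/
def ed (w : Om) : ℕ := Nat.find (ed_ex M Ts n w)

variable {M Ts n}

theorem ed_ge (w : Om) : n ≤ ed M Ts n w := by
  classical
  exact (Nat.find_spec (ed_ex M Ts n w)).1

theorem ed_spec (w : Om) : Ts ≤ ed M Ts n w ∨ nu M (ed M Ts n w) w ≠ n := by
  classical
  exact (Nat.find_spec (ed_ex M Ts n w)).2

theorem ed_le_of {w : Om} {s : ℕ} (h1 : n ≤ s) (h2 : Ts ≤ s ∨ nu M s w ≠ n) : ed M Ts n w ≤ s := by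
  classical
  exact Nat.find_min' _ ⟨h1, h2⟩

theorem ed_mid {w : Om} {r : ℕ} (h1 : n ≤ r) (h2 : r < ed M Ts n w) : r < Ts ∧ nu M r w = n := by
  by_contra h
  have h3 : Ts ≤ r ∨ nu M r w ≠ n := by
    by_contra h4
    push Not at h4
    exact h h4
  exact absurd (ed_le_of h1 h3) (by omega)

theorem ed_leT (hn : n ≤ Ts) (w : Om) : ed M Ts n w ≤ Ts := ed_le_of hn (Or.inl le_rfl)

theorem lt_ed {w : Om} {s : ℕ} (h1 : s < Ts) (h2 : nu M s w = n) : s < ed M Ts n w := by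
  by_contra h
  have h3 := not_lt.1 h
  rcases ed_spec (M := M) (Ts := Ts) (n := n) w with h4 | h4
  · omega
  · exact h4 (stg_mid h2 (ed_ge w) h3)

theorem ed_gt {w : Om} (h1 : n < Ts) (h2 : nu M n w = n) : n < ed M Ts n w := lt_ed h1 h2

/-- what sees that the epoch has ended -/
theorem ed_iff {w : Om} {s : ℕ} : ed M Ts n w ≤ s ↔ ∃ r ≤ s, n ≤ r ∧ (Ts ≤ r ∨ nu M r w ≠ n) := by
  constructor
  · intro h
    exact ⟨_, h, ed_ge w, ed_spec w⟩
  · rintro ⟨r, h1, h2, h3⟩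
    exact (ed_le_of h2 h3).trans h1

end ed

variable {tb : Tab D prr T0 W} {M : US (Om W X β)} {tm : ℕ → ℕ} {Ts n : ℕ}

/-- the sights of `US` are the sights of the table space -/
structure OnS (M : US (Om W X β)) (tb : Tab D prr T0 W) (tm : ℕ → ℕ) : Prop where
  hP : M.P = tb.Ps
  hS : ∀ E s v w, M.S E s v = M.S E s w ↔ sgt D E (tm s) v = sgt D E (tm s) w

theorem nu_sgt (hO : OnS M tb tm) (H : Seen M) {E : Finset (Fin 3)} {r s : ℕ} (hrs : r ≤ s) {v w : Om W X β}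
    (e : sgt D E (tm s) v = sgt D E (tm s) w) : nu M.toMS r v = nu M.toMS r w :=
  UV.nu_S H (E := E) hrs v w ((hO.hS E s v w).2 e)

theorem ed_stp (hO : OnS M tb tm) (H : Seen M) (Ts n : ℕ) :
    Stp (fun s => sgt (W := W) (X := X) D ∅ (tm s)) (ed M.toMS Ts n) := by
  intro s v w e
  rw [ed_iff, ed_iff]
  refine exists_congr fun r => and_congr_right fun hr => and_congr_right fun _ => ?_
  rw [nu_sgt hO H hr e]

/-! ### one world -/

variable {P : FP (Om W X β)} {m : ℕ} {w0 : Om W X β} {i u1 u2 : Fin 3} {A zz : ℕ → Om W X β → Prop} {g : Om W X β → ℝ}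
  {L : ℝ} {σ : Om W X β → ℕ}

/-- the faces of the vertex `i` -/
abbrev UU (w0 : Om W X β) (i u1 u2 : Fin 3) : Om W X β → Om W X β := TabF.pj w0 {i} {u1, u2}

abbrev VW (w0 : Om W X β) (i u1 u2 : Fin 3) : Om W X β → Om W X β := TabF.pj w0 {u1, u2} {i}

/-- the node -/
abbrev nd (D : HD (Fin 3) X β γ φ) (tm : ℕ → ℕ) (W : Type) [Fintype W] (s : ℕ) (w : Om W X β) :
    X × (Fin 3 → Option β) × (Fin 3 → γ) := sgt D ∅ (tm s) w

/-- sections and tests of the rows -/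
abbrev Hs (w0 : Om W X β) (i u1 u2 : Fin 3) (A : ℕ → Om W X β → Prop) : ℕ → Om W X β → Om W X β → Prop :=
  sec (UU w0 i u1 u2) (VW w0 i u1 u2) A

/-- covered by the node -/
abbrev cN (P : FP (Om W X β)) (D : HD (Fin 3) X β γ φ) (tm : ℕ → ℕ) (w0 : Om W X β) (i u1 u2 : Fin 3)
    (A : ℕ → Om W X β → Prop) (g : Om W X β → ℝ) (kap lam : ℝ) (K : ℕ) {N : ℕ} (x : Fin N → Om W X β) :
    ℕ → Om W X β → Prop :=
  covL P (nd D tm W) (Hs w0 i u1 u2 A) (TabF.ts {i} {u1, u2} g) kap lam K x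

theorem nd_filt (ht : ∀ s, tm s ≤ tm (s + 1)) : Filt (nd (X := X) (β := β) D tm W) := by
  intro s v w e
  rw [sgt_eq] at e ⊢
  exact ⟨e.1, e.2.1, fun j => Dy.qb_mono (ht s) (e.2.2 j)⟩

theorem hch (h : Wd D P ∅ m) (w0 : Om W X β) (F S : Finset (Fin 3)) (s : ℕ) {g : Om W X β → ℝ}
    (hg : Fac (TabF.pj w0 F S) g) {w : Om W X β} (hw : P.p w ≠ 0) :
    P.ce (sgt D ∅ (tm s)) g w = P.ce (si D ∅ F ∅ (tm s)) g w := by
  refine (face_ch h w0 F S (tm s) (g := g) ?_ hw).symm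
  rw [Finset.empty_union]
  exact hg

/-- **covered at a time of the epoch implies covered by the node at the end** -/
theorem cv_nd (h : Wd D P ∅ m) (hv : V3 i u1 u2) {kap lam : ℝ} {K N : ℕ} {x : Fin N → Om W X β}
    (hz : ∀ s w, zz s w → s ≤ σ w) :
    cz P zz (cv P (UU w0 i u1 u2) (VW w0 i u1 u2) (fun s => si D ∅ {u1, u2} ∅ (tm s)) A (TabF.ts {i} {u1, u2} g) kap lam
      K x) ≤ P.Pr (fun w => cN P D tm w0 i u1 u2 A g kap lam K x (σ w) w) := by
  unfold cz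
  refine P.Pr_mono fun w hw => ?_
  rintro ⟨s, hs, hc⟩
  refine covL_mono (hz s w hs) ?_
  refine (covL_change (P := P) (X := nd D tm W) (Y := fun s => si D ∅ {u1, u2} ∅ (tm s)) (V := VW w0 i u1 u2)
    (fun s _ hg _ hw => hch h w0 _ _ s hg hw) (fun _ => fac_pj' w0 (Finset.empty_subset _) (Finset.Subset.refl _)
      (Finset.empty_subset _)) (fun s a v w e => sec_fac s a v w e) (fun a => ?_) s hw).2 hc
  exact ts_fac w0 hv.dec.2.1 hv.dec.2.2.2.1 g a

theorem cN_change (h : Wd D P ∅ m) (hv : V3 i u1 u2) {kap lam : ℝ} {K N : ℕ} {x : Fin N → Om W X β} (s : ℕ)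
    {w : Om W X β} (hw : P.p w ≠ 0) : cN P D tm w0 i u1 u2 A g kap lam K x s w ↔
      cv P (UU w0 i u1 u2) (VW w0 i u1 u2) (fun s => si D ∅ {u1, u2} ∅ (tm s)) A (TabF.ts {i} {u1, u2} g) kap lam
      K x s w :=
  covL_change (P := P) (X := nd D tm W) (Y := fun s => si D ∅ {u1, u2} ∅ (tm s)) (V := VW w0 i u1 u2)
    (fun s _ hg _ hw => hch h w0 _ _ s hg hw) (fun _ => fac_pj' w0 (Finset.empty_subset _) (Finset.Subset.refl _)
      (Finset.empty_subset _)) (fun s a v w e => sec_fac s a v w e)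
    (fun a => ts_fac w0 hv.dec.2.1 hv.dec.2.2.2.1 g a) s hw

/-- light dead pieces at the end -/
def lit (P : FP (Om W X β)) (D : HD (Fin 3) X β γ φ) (tm : ℕ → ℕ) (w0 : Om W X β) (i u1 u2 : Fin 3)
    (A : ℕ → Om W X β → Prop) (g : Om W X β → ℝ) (kap lam : ℝ) (K : ℕ) (th eps : ℝ) {N : ℕ} (x : Fin N → Om W X β)
    (s : ℕ) (w : Om W X β) : Prop :=
  cp P (nd D tm W) s (ded P (nd D tm W) (Hs w0 i u1 u2 A) (TabF.ts {i} {u1, u2} g) kap lam K th x s) w ≤ eps

/-- the names -/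
abbrev nms (P : FP (Om W X β)) (D : HD (Fin 3) X β γ φ) (tm : ℕ → ℕ) (w0 : Om W X β) (i u1 u2 : Fin 3)
    (A : ℕ → Om W X β → Prop) (g : Om W X β → ℝ) (kap lam : ℝ) (K : ℕ) (th : ℝ) {N : ℕ} (x : Fin N → Om W X β)
    (s : ℕ) (w : Om W X β) : List ((ℕ × Om W X β) × Bool) :=
  nm P (nd D tm W) (Hs w0 i u1 u2 A) (TabF.ts {i} {u1, u2} g) kap lam K th x s w

/-- **PAYMENT IN ONE WORLD** -/
theorem pay_w (ht : ∀ s, tm s ≤ tm (s + 1)) {kap lam th eps : ℝ} {K N : ℕ} (hK : 0 < K) (k0 : 0 < kap) (t0 : 0 < th)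
    (l0 : 0 ≤ lam) (L0 : 0 ≤ L) (hL : ∀ w, g w ≤ L) (hL' : ∀ w, -L ≤ g w) (e0 : 0 < eps)
    (he : 4 * L * eps ≤ lam * kap) (hth : 4 * L * th ≤ lam * eps) (hσ : Stp (nd (X := X) (β := β) D tm W) σ)
    (x : Fin N → Om W X β) :
    lam * P.Pr (fun w => cN P D tm w0 i u1 u2 A g kap lam K x (σ w) w) ≤
      4 * P.E (fun w => ind (lit P D tm w0 i u1 u2 A g kap lam K th eps x (σ w) w ∧
          nms P D tm w0 i u1 u2 A g kap lam K th x (σ w) w ≠ []) *
        dl (Hs w0 i u1 u2 A) (TabF.ts {i} {u1, u2} g) (nms P D tm w0 i u1 u2 A g kap lam K th x (σ w) w) w) := by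
  refine (payD (P := P) (X := nd D tm W) (H := Hs w0 i u1 u2 A) (f := TabF.ts {i} {u1, u2} g) (kap := kap) (lam := lam)
    (K := K) (x := x) (nd_filt ht) hK k0 t0 l0 L0 (fun a v => ts_le hL a v) (fun a v => hL' _) e0 he hth hσ).trans
    (le_of_eq ?_)
  congr 1
  refine P.E_congr fun w _ => ?_
  by_cases hn : nms P D tm w0 i u1 u2 A g kap lam K th x (σ w) w = []
  · have e : dl (Hs w0 i u1 u2 A) (TabF.ts {i} {u1, u2} g) (nms P D tm w0 i u1 u2 A g kap lam K th x (σ w) w) w = 0 := by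
      rw [hn]
      rfl
    show ind (lit P D tm w0 i u1 u2 A g kap lam K th eps x (σ w) w) *
      dl (Hs w0 i u1 u2 A) (TabF.ts {i} {u1, u2} g) (nms P D tm w0 i u1 u2 A g kap lam K th x (σ w) w) w = ind _ *
      dl (Hs w0 i u1 u2 A) (TabF.ts {i} {u1, u2} g) (nms P D tm w0 i u1 u2 A g kap lam K th x (σ w) w) w
    rw [e, mul_zero, mul_zero]
  · have e : ind (lit P D tm w0 i u1 u2 A g kap lam K th eps x (σ w) w ∧
        nms P D tm w0 i u1 u2 A g kap lam K th x (σ w) w ≠ []) =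
        ind (lit P D tm w0 i u1 u2 A g kap lam K th eps x (σ w) w) := by
      congr 1
      exact propext ⟨fun hh => hh.1, fun hh => ⟨hh, hn⟩⟩
    rw [e]
    rfl

/-- a name is a living piece -/
theorem nm_alv {kap lam th : ℝ} {K N : ℕ} {x : Fin N → Om W X β} {s : ℕ} {w : Om W X β}
    {p : (ℕ × Om W X β) × Bool} (hp : p ∈ nms P D tm w0 i u1 u2 A g kap lam K th x s w) :
    ∃ t < (s + 1) * K, ∃ j, alv P (nd D tm W) (Hs w0 i u1 u2 A) (TabF.ts {i} {u1, u2} g) kap lam K th x t j s w ∧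
      p.1 = (t / K, x j) := by
  obtain ⟨t, ht, j, h1, h2, -⟩ := GdyN.mem_nm hp
  exact ⟨t, ht, j, h1, h2⟩

/-- **the names are rare** -/
theorem ne_w (ht : ∀ s, tm s ≤ tm (s + 1)) {kap lam th : ℝ} {K N : ℕ} (hK : 0 < K)
    (hσ : Stp (nd (X := X) (β := β) D tm W) σ) (x : Fin N → Om W X β) :
    th * kap * P.Pr (fun w => nms P D tm w0 i u1 u2 A g kap lam K th x (σ w) w ≠ []) ≤
      P.Pr (fun w => cN P D tm w0 i u1 u2 A g kap lam K x (σ w) w) := by
  rw [← GdyN.E_stop_cp (P := P) (nd_filt ht) hσ (fun s => cN P D tm w0 i u1 u2 A g kap lam K x s)]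
  unfold FP.Pr
  rw [← FP.E_smul]
  refine P.E_mono fun w hw => ?_
  by_cases hn : nms P D tm w0 i u1 u2 A g kap lam K th x (σ w) w = []
  · rw [ind_not (fun hh => hh hn), mul_zero]
    exact cp_nonneg _ _ _
  · rw [ind_of hn, mul_one]
    obtain ⟨p, hp⟩ := List.exists_mem_of_ne_nil _ hn
    obtain ⟨t, ht', j, h1, -⟩ := nm_alv hp
    have hs : t / K ≤ σ w := (GdyN.lt_lev hK).1 ht'
    refine (h1 (σ w) hs le_rfl).trans (cp_mono (fun u hu => ?_) w)
    exact (GdyR.covL_iff _ _).2 ⟨t, ht', j, hu⟩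

end

end Pool.Agent.GMH.PayP
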