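import Pool.Agent.GMH.PayQ
import Pool.Agent.GMH.PayO

/-!
# GMH/PayP3 (helper75): THE PAYMENTS OF ALL PUBLIC LIVES, starts at any substate, ends collected at the saturated state

`payq_pub` : `PayQ.payq_all` with `K0 = ∅` and the hints of GMH/PayO (`pub` public, `g1` at `{u1}`, `g2` at `{u2}`).
-/

set_option autoImplicit false
set_option linter.unusedSectionVars false

namespace Pool.Agent.GMH.PayP

open Finset Pool.Agent.PWZ Pool.Agent.M3 Pool.Agent.GM Pool.Agent.GM.Harm Pool.Agent.GMH Pool.Agent.GMH.PayM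
open Pool.Agent.GMH.PayS Pool.Agent.GMH.PayC Pool.Agent.GMH.V3 Pool.Agent.GMH.V3.TG
open Pool.Agent.GMH.PayQ Pool.Agent.GMH.PayO Pool.Agent.GMH.TP

noncomputable section

variable {X β γ φ : Type} [Fintype X] [Fintype β] [Fintype φ] [Nonempty X] [Nonempty β]
variable {D : HD (Fin 3) X β γ φ} {al : ℝ} (h : D.Thick al)
variable {dg : ℕ → X → ℝ} {prr : ℕ → Fin 3 → φ → φ} {T : ℕ} {Lam : ℝ} {i u1 u2 : Fin 3}
variable {v : ℕ → Finset (Fin 3) → X → (Fin 3 → β) → Pt (Fin 3) X β φ} {n N1 : ℝ}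

/-- **ALL PAYMENTS OF ALL PUBLIC LIVES** -/
theorem payq_pub (H : D.Hyp dg prr al T Lam) (R : Run h (pr3 (Fin 3) n N1) (SS1 (Fin 3)) (AdmDep D) v) (hn : 1 ≤ n)
    (hN1 : 1 ≤ N1) {en tl : ℕ → Pt (Fin 3) X β φ → Prop}
    (hen : ∀ q ≤ 5 * T, Fac (ZbQ D v q i) (en q)) (htl : ∀ q ≤ 5 * T, Fac (ZbQ D v q i) (tl q))
    (hL : ∀ s ≤ 5 * T, ∀ r e, Fac (Cls D v (cl s) ∅) (Lf en tl r e s))
    (h1 : u1 ≠ i) (h2 : u2 ≠ i) (h12 : u1 ≠ u2) {C A1 A2 : Type} {pub : ℕ → ℕ → ℕ → Pt (Fin 3) X β φ → C}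
    {g1 : ℕ → ℕ → ℕ → Pt (Fin 3) X β φ → A1} {g2 : ℕ → ℕ → ℕ → Pt (Fin 3) X β φ → A2}
    (dp : ∀ s ≤ 5 * T, ∀ r e, Fac (fun w => (w.1, BB D (cl s) ∅ w)) (pub s r e))
    (d1 : ∀ s ≤ 5 * T, ∀ r e, Fac (fun w => (w.1, BB D (cl s) {u1} w)) (g1 s r e))
    (d2 : ∀ s ≤ 5 * T, ∀ r e, Fac (fun w => (w.1, BB D (cl s) {u2} w)) (g2 s r e))
    {test : ℕ → ℕ → ℕ → C → A1 → A2 → Pt (Fin 3) X β φ → ℝ}
    (htest : ∀ s ≤ 5 * T, ∀ r e c a b, Fac (fun w => (FQ v (e / 5) i w, ZbQ D v e i w)) (test s r e c a b))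
    {E : ℕ → ℕ → ℕ → Pt (Fin 3) X β φ → Prop} (hE : ∀ s ≤ 5 * T, ∀ r e, Fac (fun w => (w.1, BB D (cl s) ∅ w)) (E s r e))
    (hEB : ∀ s ≤ 5 * T, ∀ r e w, E s r e w → Lf en tl r e s w)
    (hone : ∀ s ≤ 5 * T, ∀ r e w, (D.P h (cl s)).p w ≠ 0 → E s r e w →
      (D.P h (e / 5)).ce (ZbQ D v e i) (fun u => Real.exp (test s r e (pub s r e w) (g1 s r e w) (g2 s r e w) u))
        (bk prr (e / 5) (cl s) w) ≤ 1)
    {M0 M1 M2 : ℝ} (m0 : 1 ≤ M0) (m1 : 1 ≤ M1) (m2 : 1 ≤ M2)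
    (c0 : ∀ s ≤ 5 * T, ∀ r e w, (D.P h (cl s)).p w ≠ 0 → E s r e w → ∃ S : Finset C, (S.card : ℝ) ≤ M0 ∧
      ∀ w', (D.P h (cl s)).p w' ≠ 0 → E s r e w' → Cls D v (cl s) ∅ w' = Cls D v (cl s) ∅ w → pub s r e w' ∈ S)
    (c1 : ∀ s ≤ 5 * T, ∀ r e w, (D.P h (cl s)).p w ≠ 0 → E s r e w → ∃ S : Finset A1, (S.card : ℝ) ≤ M1 ∧
      ∀ w', (D.P h (cl s)).p w' ≠ 0 → E s r e w' → pub s r e w' = pub s r e w →
        Cls D v (cl s) {u1} w' = Cls D v (cl s) {u1} w → g1 s r e w' ∈ S)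
    (c2 : ∀ s ≤ 5 * T, ∀ r e w, (D.P h (cl s)).p w ≠ 0 → E s r e w → ∃ S : Finset A2, (S.card : ℝ) ≤ M2 ∧
      ∀ w', (D.P h (cl s)).p w' ≠ 0 → E s r e w' → pub s r e w' = pub s r e w →
        Cls D v (cl s) {u2} w' = Cls D v (cl s) {u2} w → g2 s r e w' ∈ S)
    {th : ℝ} (ht : 0 < th) (ht1 : th ≤ 1) :
    n * N1 * ∑ s ∈ range (5 * T + 1), ∑ r ∈ range (5 * T + 1), ∑ e ∈ range (5 * T + 1),
      (D.P h (cl s)).E (fun w => ind (E s r e w) *
        test s r e (pub s r e w) (g1 s r e w) (g2 s r e w) (bk prr (e / 5) (cl s) w)) ≤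
      n * N1 * (5 * Lam) + (4 * (Real.log (1 / th) + 1) + 2 * (Real.log M0 + N1 * (Real.log M1 + Real.log M2))) *
          ∑ s ∈ range (5 * T + 1), ∑ r ∈ range (5 * T + 1), ∑ e ∈ range (5 * T + 1), (D.P h (cl s)).Pr (E s r e) +
        4 * Real.sqrt th * ∑ s ∈ range (5 * T + 1), ∑ r ∈ range (5 * T + 1), ∑ e ∈ range (5 * T + 1),
          (D.P h (cl s)).Pr (Lf en tl r e s) := by
  have K0 : (∅ : Finset (Fin 3)) ⊂ univ.erase i :=
    Finset.empty_ssubset.2 ⟨u1, Finset.mem_erase.2 ⟨h1, mem_univ _⟩⟩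
  have p0 : pr3 (Fin 3) n N1 ∅ = 1 := by
    unfold pr3
    rw [if_pos (by simp)]
  have p1 : ∀ u : Fin 3, pr3 (Fin 3) n N1 {u} = N1 := fun u => by
    unfold pr3
    rw [if_neg (by simp), if_pos (by simp)]
  have p2 : pr3 (Fin 3) n N1 (univ.erase i) = n * N1 := pr3_top (by simp) n N1 i
  have key := payq_all h H R hn hN1 K0 hen htl hL (Th := fun _ _ _ => Unit)
    (fun _ _ _ => u0) (G := fun s r e J w => hint3 u1 u2 (pub s r e) (g1 s r e) (g2 s r e) J w.1) ?_ ?_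
    (psi0 := fun s r e x u => (dcd u1 u2 x).elim 0 fun q => test s r e q.1 q.2.1 q.2.2 u) ?_
    (E := fun s r e w => E s r e w.1) ?_ (fun s hs r e w hw => hEB s hs r e w.1 hw) ?_
    (c := fun _ _ _ => Real.log M0 + N1 * (Real.log M1 + Real.log M2)) ?_ ht ht1
  · rw [p0, p2] at key
    have e1 : ∀ s r e, ∀ w : Pt (Fin 3) X β φ × Unit,
        dcd u1 u2 (lo (fun J w => hint3 u1 u2 (pub s r e) (g1 s r e) (g2 s r e) J w.1) (univ.erase i) w) =
          some (pub s r e w.1, g1 s r e w.1, g2 s r e w.1) := fun s r e w =>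
      dcd_eq h1 h2 h12 (pub s r e) (g1 s r e) (g2 s r e) w.1
    have e2 : ∀ s r e, (FP.pr (D.P h (cl s)) u0).E (fun w => ind (E s r e w.1) *
        ((dcd u1 u2 (lo (fun J w => hint3 u1 u2 (pub s r e) (g1 s r e) (g2 s r e) J w.1) (univ.erase i) w)).elim 0
          fun q => test s r e q.1 q.2.1 q.2.2 (bk prr (e / 5) (cl s) w.1))) =
        (D.P h (cl s)).E (fun w => ind (E s r e w) *
          test s r e (pub s r e w) (g1 s r e w) (g2 s r e w) (bk prr (e / 5) (cl s) w)) := by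
      intro s r e
      rw [← lift_E (D.P h (cl s)) u0]
      refine FP.E_congr _ fun w _ => ?_
      rw [e1 s r e w]
      rfl
    have e3 : ∀ s r e, (FP.pr (D.P h (cl s)) u0).Pr (fun w => E s r e w.1) = (D.P h (cl s)).Pr (E s r e) :=
      fun s r e => lift_Pr _ _ _
    simp only [e2, e3] at key
    refine key.trans (le_of_eq ?_)
    rw [Finset.mul_sum, Finset.mul_sum, add_assoc, ← Finset.sum_add_distrib]
    congr 1
    refine Finset.sum_congr rfl fun s _ => ?_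
    rw [Finset.mul_sum, Finset.mul_sum, ← Finset.sum_add_distrib]
    refine Finset.sum_congr rfl fun r _ => ?_
    rw [Finset.mul_sum, Finset.mul_sum, ← Finset.sum_add_distrib]
    refine Finset.sum_congr rfl fun e _ => ?_
    ring
  · intro s hs r e θ J a b e1 e2 e3
    show hint3 u1 u2 (pub s r e) (g1 s r e) (g2 s r e) J a = hint3 u1 u2 (pub s r e) (g1 s r e) (g2 s r e) J b
    unfold hint3
    have f0 : ∀ I : Finset (Fin 3), J = I → BB D (cl s) I a = BB D (cl s) I b := fun I hI => by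
      rw [BB_eq, e1]
      exact ⟨fun j hj => e2 j (hI ▸ hj), rfl, e3⟩
    exact Prod.ext (at1_dep fun hJ => dp s hs r e a b (Prod.ext e1 (f0 _ hJ)))
      (Prod.ext (at1_dep fun hJ => d1 s hs r e a b (Prod.ext e1 (f0 _ hJ)))
        (at1_dep fun hJ => d2 s hs r e a b (Prod.ext e1 (f0 _ hJ))))
  · intro s r e J hJ
    exact absurd (Finset.empty_subset J) hJ
  · intro s hs r e x a b hab
    show (dcd u1 u2 x).elim 0 (fun q => test s r e q.1 q.2.1 q.2.2 a) =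
      (dcd u1 u2 x).elim 0 (fun q => test s r e q.1 q.2.1 q.2.2 b)
    rcases dcd u1 u2 x with _ | q
    · rfl
    · exact htest s hs r e _ _ _ a b hab
  · intro s hs r e a b hab
    exact hE s hs r e a.1 b.1 (Prod.mk.inj hab).1
  · intro s hs r e w hw _ hEw
    have e1 : dcd u1 u2 (lo (fun J w => hint3 u1 u2 (pub s r e) (g1 s r e) (g2 s r e) J w.1) (univ.erase i) w) =
          some (pub s r e w.1, g1 s r e w.1, g2 s r e w.1) := dcd_eq h1 h2 h12 (pub s r e) (g1 s r e) (g2 s r e) w.1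
    simp only [e1]
    exact hone s hs r e w.1 hw hEw
  · intro s hs r e h0
    have hs' : ∀ w, ((FP.pr (D.P h (cl s)) u0).cond fun w => E s r e w.1).p w ≠ 0 →
        (D.P h (cl s)).p w.1 ≠ 0 ∧ E s r e w.1 := by
      intro w hw
      have h3 := cond_supp h0 hw
      rw [pr_u0_p] at h3
      exact ⟨h3.2, h3.1⟩
    have h5 := csum3 (P := (FP.pr (D.P h (cl s)) u0).cond fun w => E s r e w.1) (B := fun I w => BB D (cl s) I w.1)
      (N := pr3 (Fin 3) n N1) (S := SS1 (Fin 3)) (L := fun I w => LL (Um v (cl s + 1)) I w.1) h12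
      (fun J => zero_le_one.trans (pr3_one hn hN1 J)) (pub := fun w => pub s r e w.1) (g1 := fun w => g1 s r e w.1)
      (g2 := fun w => g2 s r e w.1) m0 m1 m2 ?_ ?_ ?_
    · rw [p0, p1, p1] at h5
      have e3 : (fun J (w : Pt (Fin 3) X β φ × Unit) => hint3 u1 u2 (pub s r e) (g1 s r e) (g2 s r e) J w.1) =
          hint3 u1 u2 (fun w => pub s r e w.1) (fun w => g1 s r e w.1) (fun w => g2 s r e w.1) := by
        funext J w
        unfold hint3 at1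
        rfl
      rw [e3]
      linarith
    · intro w hw
      obtain ⟨S, hs1, hs2⟩ := c0 s hs r e w.1 (hs' w hw).1 (hs' w hw).2
      exact ⟨S, hs1, fun w' hw' hl hb => hs2 w'.1 (hs' w' hw').1 (hs' w' hw').2 (Prod.ext hl hb)⟩
    · intro w hw
      obtain ⟨S, hs1, hs2⟩ := c1 s hs r e w.1 (hs' w hw).1 (hs' w hw).2
      exact ⟨S, hs1, fun w' hw' hp hl hb => hs2 w'.1 (hs' w' hw').1 (hs' w' hw').2 hp (Prod.ext hl hb)⟩
    · intro w hw
      obtain ⟨S, hs1, hs2⟩ := c2 s hs r e w.1 (hs' w hw).1 (hs' w hw).2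
      exact ⟨S, hs1, fun w' hw' hp hl hb => hs2 w'.1 (hs' w' hw').1 (hs' w' hw').2 hp (Prod.ext hl hb)⟩

end

end Pool.Agent.GMH.PayP
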