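import Pool.Agent.GMH.PayP2
import Pool.Agent.GMH.PayP3
import Pool.Agent.GMH.Dyn

/-!
# GMH/PayP4 (helper75): PUBLIC COVERS BY OWN ROWS, THE DATA AND THE THEOREM

`Own` : the data of a cover by own rows: `A n z s` = event of the row at the substep `s` in the world of `z` at the public start
`n`, `g n` = test; hint values `b0` (public, sees the exact sampled vertex `i` and the tables `u1`, `u2`), `b1`, `b2`; `Th`, `Ga`
= event and test out of the hint values, the tested top `i` and its lower letters at the state `e = eT n`; the numbers of the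
values (the same finite set for all substeps) and the normalisation of the decision lists; `Th`, `Ga` do not see the substep.
-/

set_option autoImplicit false
set_option linter.unusedSectionVars false

namespace Pool.Agent.GMH.PayP

open Finset Pool.Agent.PWZ Pool.Agent.M3 Pool.Agent.GM Pool.Agent.GM.Harm Pool.Agent.GMH Pool.Agent.GMH.PayM
open Pool.Agent.GMH.V3 Pool.Agent.GMH.V3.TG
open Pool.Agent.GMH.TP (FQ ZbQ ZQ NPq SL)
open Pool.Agent.GMH.Gdy Pool.Agent.GMH.Dy Pool.Agent.GMH.TabF Pool.Agent.GMH.TabZ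
open Pool.Agent.GMH.CK Pool.Agent.GMH.MV Pool.Agent.GMH.MVI Pool.Agent.GMH.GhoZ Pool.Agent.GMH.GhoZ3
open Pool.Agent.GMH.GdyN (dl)
open Pool.Agent.GMH.UV (US Seen)

noncomputable section

variable {X β γ φ : Type} [Fintype X] [Fintype β] [Fintype φ] [Nonempty X] [Nonempty β]

/-! ### decision lists with tests which know the level -/

section dl2

variable {Om R : Type*} (H : ℕ → R → Om → Prop) (f : ℕ → R → Om → ℝ)

open Classical in
/-- decision list: the first section which contains the point decides -/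
def dl2 : List ((ℕ × R) × Bool) → Om → ℝ
  | [] => fun _ => 0
  | p :: l => fun z => if H p.1.1 p.1.2 z then (if p.2 then f p.1.1 p.1.2 z else 0) else dl2 l z

variable {H f}

open Classical in
theorem dl2_cons (p : (ℕ × R) × Bool) (l : List ((ℕ × R) × Bool)) (z : Om) :
    dl2 H f (p :: l) z = if H p.1.1 p.1.2 z then (if p.2 then f p.1.1 p.1.2 z else 0) else dl2 H f l z := rfl

/-- **two decision lists with the same decisions** -/
theorem dl2_map [Fintype Om] {Om' R' κ : Type*} {H : ℕ → R → Om → Prop} {f : R → Om → ℝ} {H' : ℕ → R' → Om' → Prop}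
    {f' : ℕ → R' → Om' → ℝ} {p : κ → Option ((ℕ × R) × Bool)} {p' : κ → Option ((ℕ × R') × Bool)} {z : Om} {z' : Om'}
    (l : List κ)
    (h : ∀ k ∈ l, (p k = Option.none ∧ p' k = Option.none) ∨ ∃ a a', p k = some a ∧ p' k = some a' ∧ a.2 = a'.2 ∧
      (H a.1.1 a.1.2 z ↔ H' a'.1.1 a'.1.2 z') ∧ (H a.1.1 a.1.2 z → f a.1.2 z = f' a'.1.1 a'.1.2 z')) :
    dl H f (l.filterMap p) z = dl2 H' f' (l.filterMap p') z' := by
  classical
  induction l with
  | nil => rfl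
  | cons k l ih =>
    have ih' := ih fun k' hk' => h k' (List.mem_cons_of_mem _ hk')
    rcases h k List.mem_cons_self with ⟨h1, h2⟩ | ⟨a, a', h1, h2, h3, h4, h5⟩
    · rw [List.filterMap_cons_none h1, List.filterMap_cons_none h2]
      exact ih'
    · rw [List.filterMap_cons_some h1, List.filterMap_cons_some h2, GdyN.dl_cons, dl2_cons]
      by_cases hz : H a.1.1 a.1.2 z
      · rw [if_pos hz, if_pos (h4.1 hz), h3, h5 hz]
      · rw [if_neg hz, if_neg fun hh => hz (h4.2 hh)]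
        exact ih'

theorem dl2_congr {κ : Type*} {R' : Type*} {H' : ℕ → R' → Om → Prop} {f' : ℕ → R' → Om → ℝ}
    {p : κ → Option ((ℕ × R) × Bool)} {p' : κ → Option ((ℕ × R') × Bool)} {z : Om} (l : List κ)
    (h : ∀ k ∈ l, (p k = Option.none ∧ p' k = Option.none) ∨ ∃ a a', p k = some a ∧ p' k = some a' ∧ a.2 = a'.2 ∧
      (H a.1.1 a.1.2 z ↔ H' a'.1.1 a'.1.2 z) ∧ (H a.1.1 a.1.2 z → f a.1.1 a.1.2 z = f' a'.1.1 a'.1.2 z)) :
    dl2 H f (l.filterMap p) z = dl2 H' f' (l.filterMap p') z := by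
  classical
  induction l with
  | nil => rfl
  | cons k l ih =>
    have ih' := ih fun k' hk' => h k' (List.mem_cons_of_mem _ hk')
    rcases h k List.mem_cons_self with ⟨h1, h2⟩ | ⟨a, a', h1, h2, h3, h4, h5⟩
    · rw [List.filterMap_cons_none h1, List.filterMap_cons_none h2]
      exact ih'
    · rw [List.filterMap_cons_some h1, List.filterMap_cons_some h2, dl2_cons, dl2_cons]
      by_cases hz : H a.1.1 a.1.2 z
      · rw [if_pos hz, if_pos (h4.1 hz), h3, h5 hz]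
      · rw [if_neg hz, if_neg fun hh => hz (h4.2 hh)]
        exact ih'

/-- what a decision list sees -/
theorem dl2_fac {ω : Type*} {V : Om → ω} (l : List ((ℕ × R) × Bool)) (hH : ∀ p ∈ l, Fac V (H p.1.1 p.1.2))
    (hf : ∀ p ∈ l, Fac V (f p.1.1 p.1.2)) : Fac V (dl2 H f l) := by
  classical
  induction l with
  | nil => exact fun _ _ _ => rfl
  | cons p l ih =>
    intro a b e
    rw [dl2_cons, dl2_cons, ih (fun q hq => hH q (List.mem_cons_of_mem _ hq))
      (fun q hq => hf q (List.mem_cons_of_mem _ hq)) a b e, hf p List.mem_cons_self a b e]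
    have h1 : H p.1.1 p.1.2 a = H p.1.1 p.1.2 b := hH p List.mem_cons_self a b e
    by_cases h : H p.1.1 p.1.2 b
    · rw [if_pos (h1 ▸ h), if_pos h]
    · rw [if_neg (fun h2 => h (h1 ▸ h2)), if_neg h]

/-- **a decision list of normalised tests is normalised** -/
theorem dl2_hone [Fintype Om] {P : FP Om} {ι : Type*} {Z : Om → ι} {l : List ((ℕ × R) × Bool)} {w : Om} (hw : P.p w ≠ 0)
    (hH : ∀ p ∈ l, ∀ z, Z z = Z w → (H p.1.1 p.1.2 z ↔ H p.1.1 p.1.2 w))
    (hf : ∀ p ∈ l, p.2 = true → H p.1.1 p.1.2 w → P.ce Z (fun z => Real.exp (f p.1.1 p.1.2 z)) w ≤ 1) :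
    P.ce Z (fun z => Real.exp (dl2 H f l z)) w ≤ 1 := by
  classical
  induction l with
  | nil =>
    have e : (fun z => Real.exp (dl2 H f [] z)) = fun _ : Om => (1 : ℝ) := funext fun z => Real.exp_zero
    rw [e, P.ce_const Z 1 hw]
  | cons p l ih =>
    by_cases h : H p.1.1 p.1.2 w
    · cases hp : p.2 with
      | true =>
        refine le_trans (le_of_eq ?_) (hf p List.mem_cons_self hp h)
        refine Gdy.ce_congr_on fun z _ hz => ?_
        rw [dl2_cons, if_pos ((hH p List.mem_cons_self z hz).2 h), hp, if_pos rfl]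
      | false =>
        have e : P.ce Z (fun z => Real.exp (dl2 H f (p :: l) z)) w = P.ce Z (fun _ => 1) w := by
          refine Gdy.ce_congr_on fun z _ hz => ?_
          rw [dl2_cons, if_pos ((hH p List.mem_cons_self z hz).2 h), hp]
          simp
        rw [e, P.ce_const Z 1 hw]
    · refine le_trans (le_of_eq ?_) (ih (fun q hq => hH q (List.mem_cons_of_mem _ hq))
        fun q hq => hf q (List.mem_cons_of_mem _ hq))
      refine Gdy.ce_congr_on fun z _ hz => ?_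
      rw [dl2_cons, if_neg fun h2 => h ((hH p List.mem_cons_self z hz).1 h2)]

end dl2

/-- class of `K` at the state `q` -/
def Clq {υ : Type} (D : HD (Fin 3) X β γ φ) (v : ℕ → Finset (Fin 3) → X → (Fin 3 → β) → υ) (q : ℕ) (K : Finset (Fin 3))
    (w : Pt (Fin 3) X β φ) :
    (Finset (Fin 3) → Option (List υ × (Fin 3 → Option φ))) × ((Fin 3 → Option β) × (γ × (Fin 3 → γ))) :=
  (le (SL v q) K w, BB D (TP.nn q) K w)

variable {D : HD (Fin 3) X β γ φ} {al : ℝ} (h : D.Thick al)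
variable (v : ℕ → Finset (Fin 3) → X → (Fin 3 → β) → Pt (Fin 3) X β φ)
variable {prr : ℕ → Fin 3 → φ → φ} {T : ℕ} {W : Type} [Fintype W] (tb : Tab D prr T W)
variable (M : US (Om W X β)) (i u1 u2 : Fin 3)

/-- a row `a` which fits to the world of `w` at the start `n` -/
structure Fit (n : ℕ) (a w : Om W X β) : Prop where
  sp : tb.Ps.p w ≠ 0
  sm : tb.Ps.p (mx {i} {u1, u2} a w) ≠ 0
  ce : D.qb (TP.nn n) (a.2.2 i) = D.qb (TP.nn n) (w.2.2 i)
  nu : MV.nu M.toMS n w = n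

/-- **THE DATA OF A PUBLIC COVER BY OWN ROWS** -/
structure Own (A : ℕ → Om W X β → ℕ → Om W X β → Prop) (g : ℕ → Om W X β → ℝ) (C0 C1 C2 : Type)
    (m0 m1 m2 eps : ℝ) (Nn : ℕ) where
  b0 : ℕ → ℕ → Om W X β → C0
  b1 : ℕ → ℕ → Om W X β → C1
  b2 : ℕ → ℕ → Om W X β → C2
  Th : ℕ → ℕ → ℕ → C0 → C1 → C2 → Pt (Fin 3) X β φ → Prop
  Ga : ℕ → ℕ → ℕ → C0 → C1 → C2 → Pt (Fin 3) X β φ → ℝ
  f0 : ∀ n s, n ≤ s → Fac (si D {i} univ {u1, u2} (TP.nn s)) (b0 n s)
  f1 : ∀ n s, n ≤ s → Fac (si D {i, u1} univ {u2} (TP.nn s)) (b1 n s)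
  f2 : ∀ n s, n ≤ s → Fac (si D {i, u2} univ {u1} (TP.nn s)) (b2 n s)
  ft : ∀ n e s c0 c1 c2, Fac (fun u => (FQ v (e / 5) i u, ZbQ D v e i u)) (Th n e s c0 c1 c2)
  fg : ∀ n e s c0 c1 c2, Fac (fun u => (FQ v (e / 5) i u, ZbQ D v e i u)) (Ga n e s c0 c1 c2)
  ts : ∀ n e s s' c0 c1 c2, Th n e s c0 c1 c2 = Th n e s' c0 c1 c2
  gs : ∀ n e s s' c0 c1 c2, Ga n e s c0 c1 c2 = Ga n e s' c0 c1 c2
  An : ∀ n z s w, A n z s w → n ≤ s
  Aw : ∀ n z z', sgt D ∅ (TP.nn n) z = sgt D ∅ (TP.nn n) z' → A n z = A n z'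
  iA : ∀ n < 5 * T, ∀ s w, n ≤ s → tb.Ps.p w ≠ 0 → MV.nu M.toMS n w = n →
    (A n w s w ↔ Th n (eT v tb n w) s (b0 n s w) (b1 n s w) (b2 n s w) (tb.pt (eT v tb n w / 5) w))
  ig : ∀ n < 5 * T, ∀ s w, n ≤ s → tb.Ps.p w ≠ 0 → MV.nu M.toMS n w = n → A n w s w →
    g n w = Ga n (eT v tb n w) s (b0 n s w) (b1 n s w) (b2 n s w) (tb.pt (eT v tb n w / 5) w)
  k0 : ∀ n < 5 * T, ∀ a w, Fit tb M i u1 u2 n a w → ∃ S : Finset C0, (S.card : ℝ) ≤ m0 ∧
    ∀ s, n ≤ s → ∀ w', Fit tb M i u1 u2 n a w' → eT v tb n w' = eT v tb n w →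
      Clq D v (eT v tb n w) ∅ (tb.pt 0 w') = Clq D v (eT v tb n w) ∅ (tb.pt 0 w) →
      A n w' s (mx {i} {u1, u2} a w') → b0 n s (mx {i} {u1, u2} a w') ∈ S
  k1 : ∀ n < 5 * T, ∀ a w, Fit tb M i u1 u2 n a w → ∀ c : C0, ∃ S : Finset C1, (S.card : ℝ) ≤ m1 ∧
    ∀ s, n ≤ s → ∀ w', Fit tb M i u1 u2 n a w' → eT v tb n w' = eT v tb n w →
      Clq D v (eT v tb n w) {u1} (tb.pt 0 w') = Clq D v (eT v tb n w) {u1} (tb.pt 0 w) →
      b0 n s (mx {i} {u1, u2} a w') = c → b1 n s (mx {i} {u1, u2} a w') ∈ S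
  k2 : ∀ n < 5 * T, ∀ a w, Fit tb M i u1 u2 n a w → ∀ c : C0, ∃ S : Finset C2, (S.card : ℝ) ≤ m2 ∧
    ∀ s, n ≤ s → ∀ w', Fit tb M i u1 u2 n a w' → eT v tb n w' = eT v tb n w →
      Clq D v (eT v tb n w) {u2} (tb.pt 0 w') = Clq D v (eT v tb n w) {u2} (tb.pt 0 w) →
      b0 n s (mx {i} {u1, u2} a w') = c → b2 n s (mx {i} {u1, u2} a w') ∈ S
  hone : ∀ n < 5 * T, ∀ w, tb.Ps.p w ≠ 0 → MV.nu M.toMS n w = n → ∀ l : List ((ℕ × Om W X β) × Bool), l.length ≤ Nn →
    (∀ p ∈ l, n ≤ p.1.1 ∧ Fit tb M i u1 u2 n p.1.2 w) →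
    (D.P h (eT v tb n w / 5)).ce (ZbQ D v (eT v tb n w) i) (fun u => Real.exp (dl2
      (fun s a => Th n (eT v tb n w) s (b0 n s (mx {i} {u1, u2} a w)) (b1 n s (mx {i} {u1, u2} a w))
        (b2 n s (mx {i} {u1, u2} a w)))
      (fun s a => Ga n (eT v tb n w) s (b0 n s (mx {i} {u1, u2} a w)) (b1 n s (mx {i} {u1, u2} a w))
        (b2 n s (mx {i} {u1, u2} a w))) l u)) (tb.pt (eT v tb n w / 5) w) ≤ Real.exp eps

/-- a sum over the public starts -/
def SZ (Ts : ℕ) (f : ℕ → Om W X β → ℝ) : ℝ := ∑ n ∈ range Ts, M.P.E (fun z => ind (MV.nu M.toMS n z = n) * f n z)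

end

end Pool.Agent.GMH.PayP
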